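import Pool.Agent.H93.Neg.Rules

/-!
The check is sound.
-/

set_option autoImplicit false
set_option linter.unusedSectionVars false
set_option linter.unusedVariables false

namespace Pool.Agent.H93.Neg

open Finset Classical

theorem beq_self' (a : ℕ) : Nat.beq a a = true := by rw [Nat.beq_eq]

theorem cand_cons (c d : Rc) (s : ℕ) (rest : List ℕ) (S : List Rc) :
    cand c s rest (d :: S) = (Bool.rec (cand c s rest S) (Bool.rec (cand c s rest S)
      (Bool.rec (Bool.rec (d.i :: cand c s rest S) (cand c s rest S) (Nat.beq d.i c.i))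
      (cand c s rest S)
      (Nat.beq (Nat.land (Nat.shiftRight c.r (Nat.mul 12 d.i)) 1) 1))
      (Nat.blt 0 (nd d (Nat.land c.t 1)))) (Nat.beq (Nat.land d.t 1) s) : List ℕ) := rfl

theorem candN_cons (Q l s R t : ℕ) (O : List ℕ) :
    candN Q l s R (t :: O) = (Bool.rec (candN Q l s R O) (Bool.rec (candN Q l s R O)
      (Bool.rec (candN Q l s R O) (Nat.add 32 t :: candN Q l s R O)
      (Nat.blt 0 (Nat.rec (Nat.sub Q (Nat.div t 2)) (fun _ _ => Nat.div t 2) l)))
      (Nat.blt 0 (Nat.land (Nat.shiftRight R (Nat.mul 4 t)) 15)))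
      (Nat.beq (Nat.land t 1) s) : List ℕ) := rfl

theorem cand_rest {c : Rc} {s : ℕ} {rest : List ℕ} {S : List Rc} {a : ℕ} (h : a ∈ rest) :
    a ∈ cand c s rest S := by
  induction S with
  | nil => exact h
  | cons d S ih =>
    rw [cand_cons]
    cases Nat.beq (Nat.land d.t 1) s with
    | false => exact ih
    | true =>
      cases Nat.blt 0 (nd d (Nat.land c.t 1)) with
      | false => exact ih
      | true =>
        cases Nat.beq (Nat.land (Nat.shiftRight c.r (Nat.mul 12 d.i)) 1) 1 with
        | true => exact ih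
        | false =>
          cases Nat.beq d.i c.i with
          | true => exact ih
          | false => exact List.mem_cons_of_mem _ ih

theorem cand_mem {c d : Rc} {s : ℕ} {rest : List ℕ} {S : List Rc} (hd : d ∈ S)
    (h1 : Nat.land d.t 1 = s) (h2 : 0 < nd d (Nat.land c.t 1))
    (h3 : Nat.land (Nat.shiftRight c.r (Nat.mul 12 d.i)) 1 ≠ 1) (h4 : d.i ≠ c.i) :
    d.i ∈ cand c s rest S := by
  have b1 : Nat.beq (Nat.land d.t 1) s = true := by rw [Nat.beq_eq]; exact h1
  have b2 : Nat.blt 0 (nd d (Nat.land c.t 1)) = true := blt_iff.2 h2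
  have b3 : Nat.beq (Nat.land (Nat.shiftRight c.r (Nat.mul 12 d.i)) 1) 1 = false := by
    rw [← Bool.not_eq_true, Nat.beq_eq]; exact h3
  have b4 : Nat.beq d.i c.i = false := by rw [← Bool.not_eq_true, Nat.beq_eq]; exact h4
  induction S with
  | nil => exact absurd hd List.not_mem_nil
  | cons e S ih =>
    rw [cand_cons]
    rcases List.mem_cons.1 hd with he | he
    · subst he
      rw [b1, b2, b3, b4]
      exact List.mem_cons_self
    · have ih' := ih he
      cases Nat.beq (Nat.land e.t 1) s with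
      | false => exact ih'
      | true =>
        cases Nat.blt 0 (nd e (Nat.land c.t 1)) with
        | false => exact ih'
        | true =>
          cases Nat.beq (Nat.land (Nat.shiftRight c.r (Nat.mul 12 e.i)) 1) 1 with
          | true => exact ih'
          | false =>
            cases Nat.beq e.i c.i with
            | true => exact ih'
            | false => exact List.mem_cons_of_mem _ ih'

theorem candN_mem {Q l s R : ℕ} {O : List ℕ} {t : ℕ} (ht : t ∈ O) (h1 : Nat.land t 1 = s)
    (h2 : 0 < Nat.land (Nat.shiftRight R (Nat.mul 4 t)) 15)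
    (h3 : 0 < (Nat.rec (Nat.sub Q (Nat.div t 2)) (fun _ _ => Nat.div t 2) l : ℕ)) :
    32 + t ∈ candN Q l s R O := by
  have b1 : Nat.beq (Nat.land t 1) s = true := by rw [Nat.beq_eq]; exact h1
  have b2 := blt_iff.2 h2
  have b3 := blt_iff.2 h3
  induction O with
  | nil => exact absurd ht List.not_mem_nil
  | cons e O ih =>
    rw [candN_cons]
    rcases List.mem_cons.1 ht with he | he
    · subst he
      rw [b1, b2, b3]
      exact List.mem_cons_self
    · have ih' := ih he
      cases Nat.beq (Nat.land e 1) s with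
      | false => exact ih'
      | true =>
        cases Nat.blt 0 (Nat.land (Nat.shiftRight R (Nat.mul 4 e)) 15) with
        | false => exact ih'
        | true =>
          cases Nat.blt 0 (Nat.rec (Nat.sub Q (Nat.div e 2)) (fun _ _ => Nat.div e 2) l) with
          | false => exact ih'
          | true => exact List.mem_cons_of_mem _ ih'

section

variable {V : Type} [Fintype V] {C : Cl} {Nb : V → Finset V} {x : V → ℤ}

/-- the pattern is a part of the graph -/
def PEmb (Nb : V → Finset V) (x : V → ℤ) (P : List Pv) (φ : ℕ → V) : Prop :=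
  (∀ a < P.length, ∀ b < P.length, φ a = φ b → a = b) ∧
  ∀ a (h : a < P.length), ty Nb x (φ a) = (P[a]).t ∧ ∀ b ∈ (P[a]).n, φ b ∈ Nb (φ a)

theorem all_spec {r m : ℕ} {n : List ℕ} (h : allN m r n = true) :
    ∀ b ∈ n, Nat.land (Nat.shiftRight r (Nat.mul 12 (im m b))) 1 = 1 := by
  induction n with
  | nil => intro b hb; exact absurd hb List.not_mem_nil
  | cons a n ih =>
    obtain ⟨h1, h2⟩ := bcase (t := allN m r n) h
    intro b hb
    rcases List.mem_cons.1 hb with e | e
    · rw [e]; rw [Nat.beq_eq] at h1; exact h1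
    · exact ih h2 b e

theorem embF_spec {m : ℕ} {S : List Rc} {P : List Pv} {a M : ℕ} (h : embF m S P a M = true) :
    ∀ i (hi : i < P.length),
      (∃ c ∈ S, c.i = im m (a + i) ∧ c.t = (P[i]).t ∧
        ∀ b ∈ (P[i]).n, Nat.land (Nat.shiftRight c.r (Nat.mul 12 (im m b))) 1 = 1) ∧
      M.testBit (im m (a + i)) = false ∧ ∀ i' < i, im m (a + i') ≠ im m (a + i) := by
  induction P generalizing a M with
  | nil => intro i hi; exact absurd hi (by simp)
  | cons v P ih =>
    obtain ⟨c, hc, h1, h2⟩ := findK_spec (S := S) (v := im m a)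
      (K := embG m v (embF m S P) a M) h
    unfold embG at h2
    obtain ⟨h3, h4⟩ := bcase h2
    obtain ⟨h5, h6⟩ := bcase h4
    obtain ⟨h7, h8⟩ := bnot h6
    rw [force_eq, force_eq] at h8
    rw [Nat.beq_eq] at h3
    have ih' := ih h8
    intro i hi
    cases i with
    | zero =>
      refine ⟨⟨c, hc, by simpa using h1, by simpa using h3, ?_⟩, ?_, ?_⟩
      · intro b hb
        exact all_spec h5 b (by simpa using hb)
      · rw [h1] at h7
        simpa using h7
      · intro i' hi'
        exact absurd hi' (Nat.not_lt_zero _)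
    | succ i =>
      have hi' : i < P.length := by simpa using hi
      obtain ⟨⟨d, hd, k1, k2, k3⟩, k4, k5⟩ := ih' i hi'
      have e1 : Nat.add a 1 + i = a + (i + 1) := by
        show a + 1 + i = _
        ring
      rw [e1] at k1 k4
      have k4' : (M ||| 2 ^ c.i).testBit (im m (a + (i + 1))) = false := k4
      rw [Nat.testBit_or, Bool.or_eq_false_iff, Nat.testBit_two_pow] at k4'
      have k6 : c.i ≠ im m (a + (i + 1)) := by
        intro e
        have := k4'.2
        rw [decide_eq_false_iff_not] at this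
        exact this e
      refine ⟨⟨d, hd, k1, by simpa using k2, by simpa using k3⟩, k4'.1, ?_⟩
      intro i' hi2
      cases i' with
      | zero =>
        rw [add_zero, ← h1]
        exact k6
      | succ i' =>
        have := k5 i' (by omega)
        have e2 : Nat.add a 1 + i' = a + (i' + 1) := by
          show a + 1 + i' = _
          ring
        rw [e1, e2] at this
        exact this

theorem Sem.mem {k R : ℕ} {S : List Rc} {φ : ℕ → V} {A : ℕ → ℕ → Prop}
    (h : Sem Nb x k R S φ A) {c : Rc} (hc : c ∈ S) : c.i < k ∧ c = rcd Nb x φ A k c.i := by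
  rw [h.eq, List.mem_map] at hc
  obtain ⟨i, hi, rfl⟩ := hc
  rw [List.mem_range] at hi
  exact ⟨hi, rfl⟩

theorem Sem.bit {k R : ℕ} {S : List Rc} {φ : ℕ → V} {A : ℕ → ℕ → Prop}
    (h : Sem Nb x k R S φ A) {c : Rc} (hc : c ∈ S) (u : ℕ) :
    Nat.land (Nat.shiftRight c.r (Nat.mul 12 u)) 1 = 1 ↔ A c.i u := by
  obtain ⟨h1, h2⟩ := h.mem hc
  have h3 : c.r = ∑ j ∈ range k, if A c.i j then 4096 ^ j else 0 := by
    conv_lhs => rw [h2]
    rfl
  rw [land_one, shr, h3]
  have h4 : (2 : ℕ) ^ (Nat.mul 12 u) = 4096 ^ u := by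
    show 2 ^ (12 * u) = _
    rw [pow_mul]
    norm_num
  rw [h4, row_bit]
  constructor
  · intro h5
    by_contra hcon
    rw [if_neg (fun hh => hcon hh.2)] at h5
    exact absurd h5 (by norm_num)
  · intro h5
    rw [if_pos ⟨(h.lt _ _ h5).2, h5⟩]

theorem Sem.rf {k R : ℕ} {S : List Rc} {φ : ℕ → V} {A : ℕ → ℕ → Prop}
    (h : Sem Nb x k R S φ A) {m : ℕ} {P : List Pv} (he : embF m S P 0 0 = true) :
    PEmb Nb x P (fun a => φ (im m a)) := by
  have h1 := embF_spec he
  simp only [zero_add] at h1
  have hlt : ∀ a (ha : a < P.length), im m a < k := by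
    intro a ha
    obtain ⟨⟨c, hc, k1, -⟩, -⟩ := h1 a ha
    rw [← k1]
    exact (h.mem hc).1
  refine ⟨?_, ?_⟩
  · intro a ha b hb hab
    have := h.inj _ (hlt a ha) _ (hlt b hb) hab
    rcases lt_trichotomy a b with h2 | h2 | h2
    · exact absurd this ((h1 b hb).2.2 a h2)
    · exact h2
    · exact absurd this.symm ((h1 a ha).2.2 b h2)
  · intro a ha
    obtain ⟨⟨c, hc, k1, k2, k3⟩, -⟩ := h1 a ha
    obtain ⟨h2, h3⟩ := h.mem hc
    refine ⟨?_, ?_⟩
    · show ty Nb x (φ (im m a)) = _
      have h4 : c.t = ty Nb x (φ c.i) := by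
        conv_lhs => rw [h3]
        rfl
      rw [← k2, h4, k1]
    · intro b hb
      have := (h.bit hc (im m b)).1 (k3 b hb)
      rw [k1] at this
      exact h.adj _ _ this

theorem nd_rcd (φ : ℕ → V) (A : ℕ → ℕ → Prop) (k i l : ℕ) (hl : l < 2) :
    nd (rcd Nb x φ A k i) l = (U Nb x φ A l i).card := by
  rcases Nat.lt_succ_iff_lt_or_eq.1 hl with h1 | h1
  · have : l = 0 := by omega
    subst this
    rfl
  · subst h1
    rfl

/-- the child given by a code is impossible -/
def Rfd (C : Cl) (Nb : V → Finset V) (x : V → ℤ) (k R : ℕ) (S : List Rc) (c : Rc) (s a : ℕ) : Prop :=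
  (a < 32 → ∀ φ A, ¬ Sem Nb x k R (S.map (upd c.i a (c.t % 2) s)) φ A) ∧
  (32 ≤ a → ∀ φ A, ¬ Sem Nb x (k + 1) (R - 16 ^ (a - 32))
    ((S ++ [newR C k (a - 32)]).map (upd c.i k (c.t % 2) s)) φ A)

theorem Sem.branch (H : Hyp C Nb x) {k R : ℕ} {S : List Rc} {φ : ℕ → V} {A : ℕ → ℕ → Prop}
    (h : Sem Nb x k R S φ A) {c : Rc} (hc : c ∈ S) {s : ℕ} (hs : s < 2) (hn : 0 < nd c s)
    (hall : ∀ a ∈ cand c s (candN C.Q (Nat.land c.t 1) s R C.O) S, Rfd C Nb x k R S c s a) :
    False := by
  obtain ⟨hv, hcv⟩ := h.mem hc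
  set v := c.i with hvdef
  have hct : c.t = ty Nb x (φ v) := by rw [hcv]; rfl
  have hlv : c.t % 2 = lab x (φ v) := by rw [hct, ty_mod]
  rw [hcv, nd_rcd φ A k v s hs, Finset.card_pos] at hn
  obtain ⟨w, hw⟩ := hn
  unfold U at hw
  rw [Finset.mem_filter] at hw
  obtain ⟨hwN, hwl, hwA⟩ := hw
  by_cases hex : ∃ u < k, φ u = w
  · obtain ⟨u, hu, rfl⟩ := hex
    have hA : ¬ A v u := fun hh => hwA u hh rfl
    have huv : u ≠ v := by
      rintro rfl
      exact H.irr _ hwN
    have hd : rcd Nb x φ A k u ∈ S := by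
      rw [h.eq, List.mem_map]
      exact ⟨u, List.mem_range.2 hu, rfl⟩
    have hmem : u ∈ cand c s (candN C.Q (Nat.land c.t 1) s R C.O) S := by
      refine cand_mem (d := rcd Nb x φ A k u) hd ?_ ?_ ?_ ?_
      · rw [land_one]
        show ty Nb x (φ u) % 2 = s
        rw [ty_mod, hwl]
      · rw [land_one, hlv, nd_rcd φ A k u _ (lab_lt _), Finset.card_pos]
        refine ⟨φ v, ?_⟩
        unfold U
        rw [Finset.mem_filter]
        refine ⟨H.sym _ _ hwN, rfl, ?_⟩
        intro j hj e
        have := h.inj j (h.lt u j hj).2 v hv e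
        rw [this] at hj
        exact hA (h.symm _ _ hj)
      · rw [Ne, h.bit hc]
        exact hA
      · exact huv
    have h1 := (hall u hmem).1 (by have := h.le H; have := H.N32; omega)
    have h2 := h.edge H hv hu hA hwN
    rw [← hlv, hwl] at h2
    exact h1 _ _ h2
  · push Not at hex
    -- a new vertex
    have h0 := h.congr (φ' := Function.update φ k w) (fun i hi => by
      rw [Function.update_of_ne (by omega)])
    set φ' := Function.update φ k w with hφ'
    have hk : φ' k = w := by rw [hφ', Function.update_self]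
    have hv' : φ' v = φ v := by rw [hφ', Function.update_of_ne (by omega)]
    have h1 := h0.vertex H (by
      intro i hi
      rw [hk, hφ', Function.update_of_ne (by omega)]
      exact hex i hi)
    rw [hk] at h1
    have h2 := h1.edge H (v := v) (u := k) (by omega) (by omega)
      (fun hh => absurd (h0.lt v k hh).2 (lt_irrefl k)) (by rw [hk, hv']; exact hwN)
    rw [hk, hv', ← hlv, hwl] at h2
    have hmem : 32 + ty Nb x w ∈ cand c s (candN C.Q (Nat.land c.t 1) s R C.O) S := by
      apply cand_rest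
      apply candN_mem (H.opt w)
      · rw [land_one, ty_mod, hwl]
      · have h3 := h.bud (ty Nb x w)
        have h4 : w ∈ univ.filter (fun u => ty Nb x u = ty Nb x w ∧ ∀ i < k, φ i ≠ u) := by
          rw [Finset.mem_filter]
          exact ⟨Finset.mem_univ _, rfl, hex⟩
        have h5 := Finset.card_pos.2 ⟨w, h4⟩
        have h6 : Nat.land (Nat.shiftRight R (Nat.mul 4 (ty Nb x w))) 15 =
            R / 16 ^ (ty Nb x w) % 16 := by
          rw [show (15 : ℕ) = 2 ^ 4 - 1 by norm_num, land_mask, shr]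
          have : (2 : ℕ) ^ (Nat.mul 4 (ty Nb x w)) = 16 ^ (ty Nb x w) := by
            show 2 ^ (4 * _) = _
            rw [pow_mul]
            norm_num
          rw [this, show (2 : ℕ) ^ 4 = 16 by norm_num]
        rw [h6]
        omega
      · rw [land_one, hlv]
        have h3 : φ v ∈ Nb w := H.sym _ _ hwN
        rcases Nat.lt_succ_iff_lt_or_eq.1 (lab_lt (x := x) (φ v)) with h4 | h4
        · have h5 : lab x (φ v) = 0 := by omega
          rw [h5]
          show 0 < C.Q - ty Nb x w / 2
          rw [ty_div, ← H.deg w]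
          have h6 : (Nb w).filter (fun w => lab x w = 1) ⊂ Nb w := by
            rw [Finset.ssubset_iff_of_subset (Finset.filter_subset _ _)]
            exact ⟨φ v, h3, by rw [Finset.mem_filter]; rintro ⟨-, h7⟩; omega⟩
          have := Finset.card_lt_card h6
          omega
        · rw [h4]
          show 0 < ty Nb x w / 2
          rw [ty_div, Finset.card_pos]
          exact ⟨φ v, Finset.mem_filter.2 ⟨h3, h4⟩⟩
    have h3 := (hall _ hmem).2 (by omega)
    rw [show 32 + ty Nb x w - 32 = ty Nb x w by omega] at h3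
    exact h3 _ _ h2

theorem chk_sound (H : Hyp C Nb x) {T : Tr} {B : ℕ} (hB : ∀ j < B, ∀ φ, ¬ PEmb Nb x (T.get j) φ)
    (p : Prf) : ∀ (k R : ℕ) (S : List Rc) (c : Rc) (s : ℕ) (L : List ℕ),
      chk C T B p k R S c s L = true → ∀ (φ : ℕ → V) (A : ℕ → ℕ → Prop), Sem Nb x k R S φ A →
      s < 2 ∧ ∀ a ∈ L, Rfd C Nb x k R S c s a := by
  induction p with
  | nil =>
    intro k R S c s L h φ A _
    have h' : nilF s L = true := h
    unfold nilF at h'
    obtain ⟨h1, h2⟩ := bcase h'
    refine ⟨blt_iff.1 h1, ?_⟩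
    cases L with
    | nil => intro a ha; exact absurd ha List.not_mem_nil
    | cons a L => exact absurd h2 (by simp)
  | cons hd tl ihh iht =>
    intro k R S c s L h φ A hS
    have h' : consF C (chk C T B hd) (chk C T B tl) k R S c s L = true := h
    unfold consF at h'
    obtain ⟨h1, h2⟩ := bcase h'
    refine ⟨blt_iff.1 h1, ?_⟩
    cases L with
    | nil => exact absurd h2 (by simp)
    | cons a L =>
      have h2' : consG C (chk C T B hd) (chk C T B tl) k R S c s a L = true := h2
      unfold consG at h2'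
      obtain ⟨h3, h4⟩ := bcase h2'
      have h5 := (iht k R S c s L h4 φ A hS).2
      intro b hb
      rcases List.mem_cons.1 hb with e | e
      · subst e
        by_cases hb32 : b < 32
        · refine ⟨fun _ φ' A' hS' => ?_, fun hh => absurd hb32 (by omega)⟩
          unfold childF at h3
          rw [blt_iff.2 hb32] at h3
          have h6 : updK c.i b (Nat.land c.t 1) s S (fun S' => chk C T B hd k R S' c 2 []) = true :=
            h3
          rw [updK_eq, land_one] at h6
          exact absurd (ihh _ _ _ _ _ _ h6 φ' A' hS').1 (by norm_num)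
        · refine ⟨fun hh => absurd hh hb32, fun _ φ' A' hS' => ?_⟩
          have h6 : Nat.blt b 32 = false := by rw [← Bool.not_eq_true, blt_iff]; exact hb32
          unfold childF at h3
          rw [h6] at h3
          have h7 : (force (Nat.sub b 32) fun t => force (Nat.sub R (Nat.pow 16 t)) fun R' =>
            force (Nat.add k 1) fun k' =>
            newK C k t fun d => snocK S d fun S1 =>
            updK c.i k (Nat.land c.t 1) s S1 fun S' => chk C T B hd k' R' S' c 2 []) = true := h3
          rw [force_eq, force_eq, force_eq, newK_eq, snocK_eq, updK_eq, land_one] at h7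
          exact absurd (ihh _ _ _ _ _ _ h7 φ' A' hS').1 (by norm_num)
      · exact h5 b e
  | br v s a ih =>
    intro k R S c' s' L h φ A hS
    exfalso
    obtain ⟨c, hc, -, h2⟩ := findK_spec (S := S) (v := v) (K := brG C (chk C T B a) s k R S) h
    unfold brG at h2
    obtain ⟨h3, h4⟩ := bcase h2
    obtain ⟨h5, h6⟩ := bcase h4
    rw [forceL_eq] at h6
    rw [blt_iff] at h3 h5
    exact hS.branch H hc h3 h5 (ih _ _ _ _ _ _ h6 φ A hS).2
  | zr p q d u =>
    intro k R S c s L h φ A hS
    exact (hS.zr H h).elim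
  | kr p q u z =>
    intro k R S c s L h φ A hS
    exact (hS.kr H h).elim
  | ev p s =>
    intro k R S c s' L h φ A hS
    exact (hS.ev H h).elim
  | rf j m =>
    intro k R S c s L h φ A hS
    exfalso
    have h' : rfF T B j m S = true := h
    unfold rfF at h'
    obtain ⟨h1, h2⟩ := bcase h'
    exact hB j (blt_iff.1 h1) _ (hS.rf h2)

theorem bldE_sound (H : Hyp C Nb x) {v lv : ℕ} {E : List ℕ} {S : List Rc} {K : List Rc → Bool}
    {k R : ℕ} {φ : ℕ → V} {A : ℕ → ℕ → Prop} (hS : Sem Nb x k R S φ A) (hv : v < k)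
    (hlv : lv = lab x (φ v)) (hE : ∀ b ∈ E, φ b ∈ Nb (φ v)) (h : bldE v lv E S K = true) :
    ∃ S' A', Sem Nb x k R S' φ A' ∧ K S' = true := by
  induction E generalizing S A with
  | nil => exact ⟨S, A, hS, h⟩
  | cons u E ih =>
    obtain ⟨c, hc, h1, h2⟩ := findK_spec (S := S) (v := u)
      (K := bldG v u lv S (fun S => bldE v lv E S K)) h
    unfold bldG at h2
    obtain ⟨h3, h4⟩ := bcase h2
    obtain ⟨h5, h6⟩ := bnot h4
    rw [updK_eq, land_one] at h6
    obtain ⟨h7, h8⟩ := hS.mem hc
    rw [h1] at h7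
    rw [← Bool.not_eq_true, Nat.beq_eq, hS.bit hc, h1] at h5
    have h9 : c.t % 2 = lab x (φ u) := by
      rw [h8, h1]
      exact ty_mod _
    rw [h9, hlv] at h6
    rw [← hlv] at h6
    have h10 := hS.edge H hv h7 (fun hh => h5 (hS.symm _ _ hh)) (hE u List.mem_cons_self)
    rw [← hlv] at h10
    exact ih h10 (fun b hb => hE b (List.mem_cons_of_mem _ hb)) h6

theorem bld_sound (H : Hyp C Nb x) {P : List Pv} {K : ℕ → ℕ → List Rc → Bool} {k R : ℕ}
    {S : List Rc} {φ : ℕ → V} {A : ℕ → ℕ → Prop} (hS : Sem Nb x k R S φ A)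
    (hi : ∀ a < k + P.length, ∀ b < k + P.length, φ a = φ b → a = b)
    (hP : ∀ a (h : a < P.length), ty Nb x (φ (k + a)) = (P[a]).t ∧
      ∀ b ∈ (P[a]).n, φ b ∈ Nb (φ (k + a))) (h : bld C P K k R S = true) :
    ∃ k' R' S' A', Sem Nb x k' R' S' φ A' ∧ K k' R' S' = true := by
  induction P generalizing k R S A with
  | nil => exact ⟨k, R, S, A, hS, h⟩
  | cons v P ih =>
    have h' : bldV C v (bld C P K) k R S = true := h
    unfold bldV at h'
    rw [force_eq, force_eq, newK_eq, snocK_eq, land_one] at h'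
    rw [List.length_cons] at hi
    have h0 := hP 0 (by simp)
    simp only [add_zero, List.getElem_cons_zero] at h0
    have h1 := hS.vertex H (fun i hi' e => by
      have := hi i (by omega) k (by omega) e
      omega)
    rw [h0.1] at h1
    have h2 : v.t % 2 = lab x (φ k) := by rw [← h0.1, ty_mod]
    obtain ⟨S', A', h3, h4⟩ := bldE_sound H h1 (by omega) h2 h0.2 h'
    refine ih h3 (fun a ha b hb => hi a (by omega) b (by omega)) ?_ h4
    intro a ha
    have := hP (a + 1) (by simpa using ha)
    rw [show k + 1 + a = k + (a + 1) by ring]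
    simpa using this

theorem lemma_sound (H : Hyp C Nb x) {T : Tr} {j R : ℕ} {p : Prf}
    (hR : ∀ t, (univ.filter (fun w => ty Nb x w = t)).card ≤ R / 16 ^ t % 16)
    (hB : ∀ i < j, ∀ φ, ¬ PEmb Nb x (T.get i) φ)
    (h : chkOne C T R j p = true) :
    ∀ φ, ¬ PEmb Nb x (T.get j) φ := by
  intro φ hφ
  unfold chkOne at h
  have h0 : Sem Nb x 0 R [] φ (fun _ _ => False) := by
    refine ⟨rfl, fun i hi => absurd hi (Nat.not_lt_zero _), fun i j hh => hh.elim,
      fun i j hh => hh.elim, fun i j hh => hh.elim, fun t => ?_⟩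
    refine le_trans (Finset.card_le_card ?_) (hR t)
    intro w hw
    rw [Finset.mem_filter] at hw ⊢
    exact ⟨hw.1, hw.2.1⟩
  obtain ⟨k', R', S', A', h1, h2⟩ := bld_sound H h0 (by simpa using hφ.1)
    (by simpa using hφ.2) h
  exact absurd (chk_sound H hB p _ _ _ _ _ _ h2 φ A' h1).1 (by norm_num)

theorem chkAll_sound (H : Hyp C Nb x) {T : Tr} {R : ℕ}
    (hR : ∀ t, (univ.filter (fun w => ty Nb x w = t)).card ≤ R / 16 ^ t % 16) {L : List Prf}
    {j : ℕ} (h : chkAll C T R L j = true) (hB : ∀ i < j, ∀ φ, ¬ PEmb Nb x (T.get i) φ) :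
    ∀ i < j + L.length, ∀ φ, ¬ PEmb Nb x (T.get i) φ := by
  induction L generalizing j with
  | nil => simpa using hB
  | cons p L ih =>
    obtain ⟨h1, h2⟩ := bcase (b := chkOne C T R j p) (t := force (Nat.add j 1)
        (fun j => chkAll C T R L j)) h
    rw [force_eq] at h2
    have h3 := lemma_sound H hR hB h1
    have h4 := ih h2 (fun i hi => by
      have hi' : i < j + 1 := hi
      rcases Nat.lt_succ_iff_lt_or_eq.1 hi' with h5 | h5
      · exact hB i h5
      · rw [h5]; exact h3)
    intro i hi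
    apply h4
    rw [List.length_cons] at hi
    show i < j + 1 + L.length
    omega

end

end Pool.Agent.H93.Neg
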