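import Pool.Agent.H93.Neg.Theory

/-!
The numbers of vertices of each type for regular graphs of degree three and four.
-/

set_option autoImplicit false
set_option linter.unusedSectionVars false
set_option linter.unusedVariables false

namespace Pool.Agent.H93.Neg

open Finset Classical

/-- a regular graph of degree `k` on `n` vertices whose closed neighbourhood matrix has a kernel
spanned by an integral vector without zeros, which has an odd entry -/
structure Dat (V : Type) [Fintype V] (k n : ℕ) (Nb : V → Finset V) (z : V → ℤ) : Prop where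
  sym : ∀ v w, w ∈ Nb v → v ∈ Nb w
  irr : ∀ v, v ∉ Nb v
  deg : ∀ v, (Nb v).card = k
  card : Fintype.card V = n
  nz : ∀ v, z v ≠ 0
  ker : ∀ v, z v + ∑ w ∈ Nb v, z w = 0
  odd : ∃ v, lab z v = 1
  uniq : ∀ y : V → ℤ, (∀ v, y v + ∑ w ∈ Nb v, y w = 0) → (∀ v, y v = 0) ∨ (∀ v, y v ≠ 0)

open Classical in
theorem reduce {ρ k n : ℕ} (hn : n = ρ + 1 + k) (h0 : 1 ≤ ρ)
    (P : ∀ (V : Type) [Fintype V] (Nb : V → Finset V) (z : V → ℤ), Dat V k n Nb z → False) :
    ¬ ∃ (V : Type) (_ : Fintype V) (G : SimpleGraph V),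
      Fintype.card V = n ∧ G.IsRegularOfDegree ρ ∧ 2 ≤ Fintype.card V ∧
      ∃ x : V → ℝ, (∀ v, x v ≠ 0) ∧
        LinearMap.ker (Matrix.toLin' (G.adjMatrix ℝ)) = Submodule.span ℝ {x} := by
  rintro ⟨V, i, G, hc, hr, h2, x, hx, hk⟩
  obtain ⟨Nb, h3, h4, h5, h6, h7⟩ := exists_nb G (hc.trans hn) h0 hr hk
  have : Nonempty V := Fintype.card_pos_iff.1 (by omega)
  obtain ⟨z, h8, h9, h10, h11⟩ := exists_int hx h6 h7
  exact P V Nb z ⟨h3, h4, h5, hc, h8, h9, h10, h11⟩

section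

variable {V : Type} [Fintype V] {Nb : V → Finset V} {z : V → ℤ} {k n : ℕ}

theorem exists_of_cnt {t m : ℕ} (h : cnt Nb z t = m) (hm : 0 < m) : ∃ v, ty Nb z v = t := by
  unfold cnt at h
  obtain ⟨v, hv⟩ := Finset.card_pos.1 (h ▸ hm : 0 < (univ.filter (fun w => ty Nb z w = t)).card)
  exact ⟨v, (Finset.mem_filter.1 hv).2⟩

theorem ty_half (v : V) : ((ty Nb z v / 2 : ℕ) : ℤ) = od Nb z v := by
  rw [ty_div]
  rfl

theorem ty_lab (v : V) : ((ty Nb z v % 2 : ℕ) : ℤ) = lab z v := by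
  rw [ty_mod]

theorem hyp_of (h : Dat V k n Nb z) (hn : n ≤ 32) {O : List ℕ} (hO : ∀ v, ty Nb z v ∈ O) :
    Hyp ⟨k, n, O⟩ Nb z :=
  ⟨h.sym, h.irr, h.deg, h.card, hn, hO, h.nz, h.ker, h.uniq⟩

theorem hR_of {C : Cl} (H : Hyp C Nb z) {R : ℕ} (h : ∀ t ∈ C.O, cnt Nb z t = R / 16 ^ t % 16) :
    ∀ t, (univ.filter (fun w => ty Nb z w = t)).card ≤ R / 16 ^ t % 16 := by
  intro t
  by_cases ht : t ∈ C.O
  · exact (h t ht).le
  · have : univ.filter (fun w => ty Nb z w = t) = ∅ := by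
      rw [Finset.filter_eq_empty_iff]
      intro v _ e
      exact ht (e ▸ H.opt v)
    rw [this, Finset.card_empty]
    exact Nat.zero_le _

theorem sums (h : Dat V k n Nb z) {O : List ℕ} (hO : ∀ v, ty Nb z v ∈ O) (hd : O.Nodup) :
    (O.map (fun t => (cnt Nb z t : ℤ))).sum = n ∧
    (2 : ℤ) ∣ (O.map (fun t => (cnt Nb z t : ℤ) * ((t % 2 : ℕ) : ℤ))).sum ∧
    (8 : ℤ) ∣ (O.map (fun t => (cnt Nb z t : ℤ) *
      (((t % 2 : ℕ) : ℤ) * (((t % 2 : ℕ) : ℤ) + ((t / 2 : ℕ) : ℤ))))).sum -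
      2 * (O.map (fun t => (cnt Nb z t : ℤ) * ((t % 2 : ℕ) : ℤ))).sum ∧
    (O.map (fun t => (cnt Nb z t : ℤ) * ((t / 2 : ℕ) : ℤ))).sum =
      k * (O.map (fun t => (cnt Nb z t : ℤ) * ((t % 2 : ℕ) : ℤ))).sum := by
  have h1 := sum_ty hd hO (fun _ => 1)
  have h2 := sum_ty hd hO (fun t => ((t % 2 : ℕ) : ℤ))
  have h3 := sum_ty hd hO (fun t => (((t % 2 : ℕ) : ℤ) * (((t % 2 : ℕ) : ℤ) + ((t / 2 : ℕ) : ℤ))))
  have h4 := sum_ty hd hO (fun t => ((t / 2 : ℕ) : ℤ))
  simp only [ty_half, ty_lab] at h2 h3 h4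
  rw [← h2, ← h3, ← h4]
  refine ⟨?_, ?_, ?_, ?_⟩
  · simp only [mul_one] at h1
    rw [← h1, Finset.sum_const, Finset.card_univ, h.card]
    simp
  · rw [sum_lab h.sym h.deg h.ker]
    exact dvd_mul_right _ _
  · exact eight h.sym h.irr h.deg h.ker
  · exact sum_od h.sym h.deg

theorem cnt_zero {t : ℕ} (h : cnt Nb z t = 0) (v : V) : ty Nb z v ≠ t := by
  intro e
  have h1 : v ∈ univ.filter (fun w => ty Nb z w = t) := by
    rw [Finset.mem_filter]
    exact ⟨Finset.mem_univ _, e⟩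
  have h2 := Finset.card_pos.2 ⟨v, h1⟩
  unfold cnt at h
  omega

theorem cub_ty (h : Dat V 3 n Nb z) (v : V) : ty Nb z v ∈ [3, 7, 4, 0] := by
  have h1 := par_mod h.ker v
  have h2 := od_le (z := z) h.deg v
  have h3 := lab_lt (x := z) v
  have h4 := ty_od (Nb := Nb) (z := z) v
  simp only [List.mem_cons, List.not_mem_nil, or_false]
  omega

theorem cub (h : Dat V 3 n Nb z) : cnt Nb z 4 = cnt Nb z 3 ∧ cnt Nb z 3 % 2 = 0 ∧
    cnt Nb z 7 % 4 = 0 ∧ cnt Nb z 3 + cnt Nb z 7 + cnt Nb z 4 + cnt Nb z 0 = n ∧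
    (cnt Nb z 3 = 0 → cnt Nb z 7 = n) := by
  obtain ⟨h1, h2, h3, h4⟩ := sums h (cub_ty h) (by decide)
  simp only [List.map_cons, List.map_nil, List.sum_cons, List.sum_nil] at h1 h2 h3 h4
  norm_num at h1 h2 h3 h4
  have e1 : cnt Nb z 4 = cnt Nb z 3 := by omega
  refine ⟨e1, by omega, by omega, by omega, ?_⟩
  intro h0
  have hy := h.uniq (fun v => if lab z v = 1 then z v else 0) (by
    intro v
    have h5 := cub_ty h v
    simp only [List.mem_cons, List.not_mem_nil, or_false] at h5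
    have h6 := cnt_zero h0 v
    have h7 := cnt_zero (e1.trans h0) v
    have h8 := ty_od (Nb := Nb) (z := z) v
    have h9 := lab_lt (x := z) v
    rcases (show (od Nb z v = 3 ∧ lab z v = 1) ∨ (od Nb z v = 0 ∧ lab z v = 0) by omega) with
      ⟨ha, hb⟩ | ⟨ha, hb⟩
    · have h10 : (Nb v).filter (fun w => lab z w = 1) = Nb v := by
        apply Finset.eq_of_subset_of_card_le (Finset.filter_subset _ _)
        rw [h.deg v]
        exact ha.ge
      have h11 : ∀ w ∈ Nb v, (if lab z w = 1 then z w else 0) = z w := by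
        intro w hw
        rw [← h10, Finset.mem_filter] at hw
        rw [if_pos hw.2]
      rw [Finset.sum_congr rfl h11, if_pos hb]
      exact h.ker v
    · have h10 : (Nb v).filter (fun w => lab z w = 1) = ∅ := Finset.card_eq_zero.1 ha
      have h11 : ∀ w ∈ Nb v, (if lab z w = 1 then z w else 0) = 0 := by
        intro w hw
        rw [Finset.filter_eq_empty_iff] at h10
        rw [if_neg (h10 hw)]
      rw [Finset.sum_eq_zero h11, if_neg (by omega), add_zero])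
  have hall : ∀ v, lab z v = 1 := by
    rcases hy with hy | hy
    · obtain ⟨v, hv⟩ := h.odd
      have := hy v
      simp only [hv, if_true] at this
      exact absurd this (h.nz v)
    · intro v
      by_contra hc
      have := hy v
      simp only [if_neg hc] at this
      exact this rfl
  have h0' : cnt Nb z 0 = 0 := by
    unfold cnt
    rw [Finset.card_eq_zero, Finset.filter_eq_empty_iff]
    intro v _ e
    have := ty_od (Nb := Nb) (z := z) v
    rw [hall v, e] at this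
    omega
  omega

theorem qua_ty (h : Dat V 4 n Nb z) (v : V) : ty Nb z v ∈ [3, 7, 0, 4, 8] := by
  have h1 := par_mod h.ker v
  have h2 := od_le (z := z) h.deg v
  have h3 := lab_lt (x := z) v
  have h4 := ty_od (Nb := Nb) (z := z) v
  simp only [List.mem_cons, List.not_mem_nil, or_false]
  omega

theorem qua (h : Dat V 4 n Nb z) : 3 * cnt Nb z 3 + cnt Nb z 7 = 2 * cnt Nb z 4 + 4 * cnt Nb z 8 ∧
    cnt Nb z 3 % 2 = 0 ∧ cnt Nb z 7 % 4 = 0 ∧
    cnt Nb z 3 + cnt Nb z 7 + cnt Nb z 0 + cnt Nb z 4 + cnt Nb z 8 = n ∧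
    0 < cnt Nb z 3 + cnt Nb z 7 := by
  obtain ⟨h1, h2, h3, h4⟩ := sums h (qua_ty h) (by decide)
  simp only [List.map_cons, List.map_nil, List.sum_cons, List.sum_nil] at h1 h2 h3 h4
  norm_num at h1 h2 h3 h4
  refine ⟨by omega, by omega, by omega, by omega, ?_⟩
  obtain ⟨v, hv⟩ := h.odd
  by_contra hc
  have h5 := cnt_zero (z := z) (Nb := Nb) (t := 3) (by omega) v
  have h6 := cnt_zero (z := z) (Nb := Nb) (t := 7) (by omega) v
  have h7 := qua_ty h v
  simp only [List.mem_cons, List.not_mem_nil, or_false] at h7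
  have h8 := ty_od (Nb := Nb) (z := z) v
  omega

end

end Pool.Agent.H93.Neg
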