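import Mathlib.Data.Fintype.Card
import Mathlib.Algebra.BigOperators.Group.Finset.Basic
import Mathlib.Tactic

/-!
Partial graphs, certificates and their check.
-/

set_option autoImplicit false

namespace Pool.Agent.H93.Neg

/-- a vertex of a partial graph: its number, its type, the numbers of its unknown even and odd
neighbours, its known neighbours in base 4096 -/
structure Rc where
  i : ℕ
  t : ℕ
  e : ℕ
  o : ℕ
  r : ℕ

/-- evaluation of the argument before the function -/
noncomputable def force {α : Type} (x : ℕ) (f : ℕ → α) : α :=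
  Nat.rec (f 0) (fun m _ => f (Nat.add m 1)) x

theorem force_eq {α : Type} (x : ℕ) (f : ℕ → α) : force x f = f x := by
  cases x with
  | zero => rfl
  | succ m => rfl

/-- the number of unknown neighbours of label `l` -/
noncomputable def nd (c : Rc) (l : ℕ) : ℕ := Nat.rec c.e (fun _ _ => c.o) l

/-- a new known neighbour of label `l` -/
noncomputable def addb (c : Rc) (u l : ℕ) : Rc :=
  Nat.rec (Rc.mk c.i c.t (Nat.sub c.e 1) c.o (Nat.add c.r (Nat.pow 4096 u)))
    (fun _ _ => Rc.mk c.i c.t c.e (Nat.sub c.o 1) (Nat.add c.r (Nat.pow 4096 u))) l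

/-- the same, evaluated -/
noncomputable def addbK (c : Rc) (u l : ℕ) (K : Rc → Bool) : Bool :=
  Rc.rec (fun i t e o r => force (Nat.add r (Nat.pow 4096 u)) fun r =>
    Nat.rec (force (Nat.sub e 1) fun e => K (Rc.mk i t e o r))
      (fun _ _ => force (Nat.sub o 1) fun o => K (Rc.mk i t e o r)) l) c

theorem addbK_eq (c : Rc) (u l : ℕ) (K : Rc → Bool) : addbK c u l K = K (addb c u l) := by
  obtain ⟨i, t, e, o, r⟩ := c
  unfold addbK addb
  simp only [force_eq]
  cases l <;> rfl

/-- a new edge between `v` (of label `lv`) and `u` (of label `lu`), seen from `c` -/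
noncomputable def upd (v u lv lu : ℕ) (c : Rc) : Rc :=
  Bool.rec (Bool.rec c (addb c v lv) (Nat.beq c.i u)) (addb c u lu) (Nat.beq c.i v)

/-- a new edge -/
noncomputable def updK (v u lv lu : ℕ) (S : List Rc) : (List Rc → Bool) → Bool :=
  List.rec (fun K => K [])
    (fun c _ ih K => ih fun cs =>
      Bool.rec (Bool.rec (K (c :: cs)) (addbK c v lv fun c' => K (c' :: cs)) (Nat.beq c.i u))
        (addbK c u lu fun c' => K (c' :: cs)) (Nat.beq c.i v)) S

theorem updK_eq (v u lv lu : ℕ) (S : List Rc) (K : List Rc → Bool) :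
    updK v u lv lu S K = K (S.map (upd v u lv lu)) := by
  induction S generalizing K with
  | nil => rfl
  | cons c S ih =>
    show updK v u lv lu S _ = _
    rw [ih, List.map_cons]
    unfold upd
    cases Nat.beq c.i v with
    | false =>
      cases Nat.beq c.i u with
      | false => rfl
      | true => show addbK _ _ _ _ = _; rw [addbK_eq]
    | true => show addbK _ _ _ _ = _; rw [addbK_eq]

/-- the record with a given number -/
noncomputable def findK (v : ℕ) (K : Rc → Bool) (S : List Rc) : Bool :=
  List.rec false (fun c _ ih => Bool.rec ih (K c) (Nat.beq c.i v)) S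

theorem findK_spec {v : ℕ} {K : Rc → Bool} {S : List Rc} (h : findK v K S = true) :
    ∃ c ∈ S, c.i = v ∧ K c = true := by
  induction S with
  | nil => exact absurd h (by simp [findK])
  | cons c S ih =>
    have h' : Bool.rec (findK v K S) (K c) (Nat.beq c.i v) = true := h
    by_cases hc : c.i = v
    · refine ⟨c, by simp, hc, ?_⟩
      rw [show Nat.beq c.i v = true by rw [Nat.beq_eq]; exact hc] at h'
      exact h'
    · have h1 : Nat.beq c.i v = false := by
        cases hb : Nat.beq c.i v with
        | false => rfl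
        | true => exact absurd (Nat.eq_of_beq_eq_true hb) hc
      rw [h1] at h'
      obtain ⟨d, hd, h2, h3⟩ := ih h'
      exact ⟨d, List.mem_cons_of_mem _ hd, h2, h3⟩

/-- the digit of `p` for the vertex `i` -/
noncomputable def cf (p i : ℕ) : ℕ := Nat.land (Nat.shiftRight p (Nat.mul 8 i)) 255

/-- the combination of the rows of the closed vertices with the digits of `p` -/
noncomputable def run (p : ℕ) (S : List Rc) (K : ℕ → ℕ → ℕ → Bool) : ℕ → ℕ → ℕ → Bool :=
  List.rec K (fun c _ ih a n g =>
    Bool.rec (Bool.rec false (ih (Nat.add a (Nat.mul (cf p c.i) (Nat.add c.r (Nat.pow 4096 c.i))))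
        (Nat.add n (cf p c.i)) (Nat.add g (Nat.mul (cf p c.i) (Nat.add (Nat.div c.t 2) (Nat.land c.t 1)))))
      (Nat.beq (Nat.add c.e c.o) 0)) (ih a n g) (Nat.beq (cf p c.i) 0)) S

/-- the options for the next neighbour of label `s` of the vertex of `c` among the known vertices -/
noncomputable def cand (c : Rc) (s : ℕ) (rest : List ℕ) (S : List Rc) : List ℕ :=
  List.rec rest (fun d _ ih =>
    Bool.rec ih (Bool.rec ih (Bool.rec (Bool.rec (d.i :: ih) ih (Nat.beq d.i c.i)) ih
      (Nat.beq (Nat.land (Nat.shiftRight c.r (Nat.mul 12 d.i)) 1) 1))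
      (Nat.blt 0 (nd d (Nat.land c.t 1)))) (Nat.beq (Nat.land d.t 1) s)) S

/-- the options for the next neighbour of label `s` of a vertex of label `l` among the new ones -/
noncomputable def candN (Q l s R : ℕ) (O : List ℕ) : List ℕ :=
  List.rec [] (fun t _ ih =>
    Bool.rec ih (Bool.rec ih (Bool.rec ih (Nat.add 32 t :: ih)
      (Nat.blt 0 (Nat.rec (Nat.sub Q (Nat.div t 2)) (fun _ _ => Nat.div t 2) l)))
      (Nat.blt 0 (Nat.land (Nat.shiftRight R (Nat.mul 4 t)) 15)))
      (Nat.beq (Nat.land t 1) s)) O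

/-- evaluation of a list of numbers -/
noncomputable def forceL (L : List ℕ) : (List ℕ → Bool) → Bool :=
  List.rec (fun K => K []) (fun a _ ih K => force a fun a => ih fun l => K (a :: l)) L

theorem forceL_eq (L : List ℕ) (K : List ℕ → Bool) : forceL L K = K L := by
  induction L generalizing K with
  | nil => rfl
  | cons a L ih =>
    show force a (fun a => forceL L fun l => K (a :: l)) = _
    rw [force_eq, ih]

/-- a vertex of a pattern: its type and its neighbours among the preceding vertices -/
structure Pv where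
  t : ℕ
  n : List ℕ

/-- a table of patterns -/
inductive Tr : Type
  | leaf (p : List Pv) : Tr
  | node (l r : Tr) : Tr

/-- access to a table -/
noncomputable def Tr.get (T : Tr) : ℕ → List Pv :=
  Tr.rec (fun p _ => p) (fun _ _ ihl ihr i =>
    Bool.rec (ihr (Nat.shiftRight i 1)) (ihl (Nat.shiftRight i 1)) (Nat.beq (Nat.land i 1) 0)) T

/-- the positions of the ones of `b` -/
noncomputable def bts (f : ℕ) : ℕ → List ℕ :=
  Nat.rec (fun _ => []) (fun _ ih b => force (Nat.log2 b) fun u =>
    force (Nat.sub b (Nat.pow 2 u)) fun b' => u :: ih b') f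

/-- a pattern as a number -/
noncomputable def dec (f : ℕ) : ℕ → List Pv → List Pv :=
  Nat.rec (fun _ L => L) (fun _ ih p L =>
    force (Nat.land p 16777215) fun d => force (Nat.shiftRight p 24) fun p' =>
      ih p' (Pv.mk (Nat.land d 15) (bts (Nat.land (Nat.shiftRight d 4) 7)
        (Nat.shiftRight d 7)) :: L)) f

/-- a leaf given by a number -/
noncomputable def lf (f p : ℕ) : Tr := Tr.leaf (dec f p [])

/-- certificates -/
inductive Prf : Type
  | nil : Prf
  | cons (a b : Prf) : Prf
  | br (v s : ℕ) (a : Prf) : Prf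
  | zr (p q d u : ℕ) : Prf
  | kr (p q a z : ℕ) : Prf
  | ev (p s : ℕ) : Prf
  | rf (j m : ℕ) : Prf

/-- the image of `a` under `m` -/
noncomputable def im (m a : ℕ) : ℕ := Nat.land (Nat.shiftRight m (Nat.mul 5 a)) 31

/-- the neighbours of a vertex are mapped to neighbours -/
noncomputable def allN (m r : ℕ) (n : List ℕ) : Bool :=
  List.rec true (fun b _ ihb =>
    Bool.rec false ihb (Nat.beq (Nat.land (Nat.shiftRight r (Nat.mul 12 (im m b))) 1) 1)) n

/-- one vertex of the pattern -/
noncomputable def embG (m : ℕ) (v : Pv) (ih : ℕ → ℕ → Bool) (a M : ℕ) (c : Rc) : Bool :=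
  Bool.rec false
    (Bool.rec false
      (Bool.rec (force (Nat.add a 1) fun a' => force (Nat.lor M (Nat.pow 2 c.i)) fun M' => ih a' M')
        false (Nat.testBit M c.i))
      (allN m c.r v.n))
    (Nat.beq c.t v.t)

/-- the map `m` sends the pattern to the partial graph -/
noncomputable def embF (m : ℕ) (S : List Rc) (P : List Pv) : ℕ → ℕ → Bool :=
  List.rec (fun _ _ => true) (fun v _ ih a M => findK (im m a) (embG m v ih a M) S) P

/-- the masks of multiples of `2 ^ s` -/
noncomputable def msk (s : ℕ) : ℕ :=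
  Nat.mul (Nat.sub (Nat.pow 2 s) 1) (Nat.div (Nat.sub (Nat.pow 4096 32) 1) 4095)

/-- data of a class: degree, order, types -/
structure Cl where
  Q : ℕ
  N : ℕ
  O : List ℕ

/-- the new vertex of type `t` -/
noncomputable def newR (C : Cl) (k t : ℕ) : Rc :=
  Rc.mk k t (Nat.sub C.Q (Nat.div t 2)) (Nat.div t 2) 0

/-- the same, evaluated -/
noncomputable def newK (C : Cl) (k t : ℕ) (K : Rc → Bool) : Bool :=
  force (Nat.sub C.Q (Nat.div t 2)) fun e => force (Nat.div t 2) fun o => K (Rc.mk k t e o 0)

theorem newK_eq (C : Cl) (k t : ℕ) (K : Rc → Bool) : newK C k t K = K (newR C k t) := by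
  unfold newK newR
  rw [force_eq, force_eq]

/-- a list with a new last element -/
noncomputable def snocK (S : List Rc) (c : Rc) (K : List Rc → Bool) : Bool :=
  List.rec (fun K => K [c]) (fun d _ ih K => ih fun l => K (d :: l)) S K

theorem snocK_eq (S : List Rc) (c : Rc) (K : List Rc → Bool) : snocK S c K = K (S ++ [c]) := by
  induction S generalizing K with
  | nil => rfl
  | cons d S ih =>
    show snocK S c _ = _
    rw [ih]
    rfl

/-- the end of a chain -/
noncomputable def nilF (s : ℕ) (L : List ℕ) : Bool :=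
  Bool.rec false (List.rec true (fun _ _ _ => false) L) (Nat.blt s 2)

/-- one child -/
noncomputable def childF (C : Cl) (ih : ℕ → ℕ → List Rc → Rc → ℕ → List ℕ → Bool) (k R : ℕ)
    (S : List Rc) (c : Rc) (s x : ℕ) : Bool :=
  Bool.rec
    (force (Nat.sub x 32) fun t => force (Nat.sub R (Nat.pow 16 t)) fun R' =>
      force (Nat.add k 1) fun k' =>
      newK C k t fun d => snocK S d fun S1 =>
      updK c.i k (Nat.land c.t 1) s S1 fun S' => ih k' R' S' c 2 [])
    (updK c.i x (Nat.land c.t 1) s S fun S' => ih k R S' c 2 [])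
    (Nat.blt x 32)

/-- the first child and the others -/
noncomputable def consG (C : Cl) (iha ihb : ℕ → ℕ → List Rc → Rc → ℕ → List ℕ → Bool) (k R : ℕ)
    (S : List Rc) (c : Rc) (s x : ℕ) (l : List ℕ) : Bool :=
  Bool.rec false (ihb k R S c s l) (childF C iha k R S c s x)

/-- a chain -/
noncomputable def consF (C : Cl) (iha ihb : ℕ → ℕ → List Rc → Rc → ℕ → List ℕ → Bool) (k R : ℕ)
    (S : List Rc) (c : Rc) (s : ℕ) (L : List ℕ) : Bool :=
  Bool.rec false (List.rec false (fun x l _ => consG C iha ihb k R S c s x l) L) (Nat.blt s 2)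

/-- branching -/
noncomputable def brG (C : Cl) (ih : ℕ → ℕ → List Rc → Rc → ℕ → List ℕ → Bool) (s k R : ℕ)
    (S : List Rc) (c : Rc) : Bool :=
  Bool.rec false (Bool.rec false
    (forceL (cand c s (candN C.Q (Nat.land c.t 1) s R C.O) S) (ih k R S c s))
    (Nat.blt 0 (nd c s))) (Nat.blt s 2)

/-- a zero entry -/
noncomputable def zrF (p q d u k : ℕ) (S : List Rc) : Bool :=
  run p S (fun a n _ => run q S (fun b m _ =>
    Bool.rec false (Bool.rec false (Bool.rec false (Bool.rec false (Nat.blt u k)
      (Nat.blt 0 d)) (Nat.blt n 4096)) (Nat.blt (Nat.add m d) 4096))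
      (Nat.beq a (Nat.add b (Nat.mul d (Nat.pow 4096 u))))) 0 0 0) 0 0 0

/-- another kernel vector -/
noncomputable def krF (C : Cl) (p q x z k : ℕ) (S : List Rc) : Bool :=
  run p S (fun a n _ => run q S (fun b m _ =>
    Bool.rec false (Bool.rec false (Bool.rec false (Bool.rec false
      (Bool.rec (Bool.rec false (Nat.blt z k) (Nat.beq (cf p z) (cf q z))) true (Nat.blt k C.N))
      (Nat.blt x k)) (Bool.rec true false (Nat.beq (cf p x) (cf q x))))
      (Nat.blt n 4096 && Nat.blt m 4096))
      (Nat.beq a b)) 0 0 0) 0 0 0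

/-- a parity obstruction -/
noncomputable def evF (p s : ℕ) (S : List Rc) : Bool :=
  run p S (fun a n g =>
    Bool.rec false (Bool.rec false
      (Bool.rec true false (Nat.beq (Nat.mod g (Nat.pow 2 (Nat.add s 1))) 0))
      (Nat.blt n 4096 && Nat.blt s 6)) (Nat.beq (Nat.land a (msk s)) 0)) 0 0 0

/-- a reference -/
noncomputable def rfF (T : Tr) (B j m : ℕ) (S : List Rc) : Bool :=
  Bool.rec false (embF m S (T.get j) 0 0) (Nat.blt j B)

/-- the check of a certificate -/
noncomputable def chk (C : Cl) (T : Tr) (B : ℕ) (p : Prf) :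
    ℕ → ℕ → List Rc → Rc → ℕ → List ℕ → Bool :=
  Prf.rec
    (fun _ _ _ _ s L => nilF s L)
    (fun _ _ iha ihb => consF C iha ihb)
    (fun v s _ ih k R S _ _ _ => findK v (brG C ih s k R S) S)
    (fun p q d u k _ S _ _ _ => zrF p q d u k S)
    (fun p q x z k _ S _ _ _ => krF C p q x z k S)
    (fun p s _ _ S _ _ _ => evF p s S)
    (fun j m _ _ S _ _ _ => rfF T B j m S) p

/-- one edge of a pattern -/
noncomputable def bldG (v u lv : ℕ) (S : List Rc) (ih : List Rc → Bool) (c : Rc) : Bool :=
  Bool.rec false (Bool.rec (updK v u lv (Nat.land c.t 1) S ih) false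
    (Nat.beq (Nat.land (Nat.shiftRight c.r (Nat.mul 12 v)) 1) 1)) (Nat.blt u v)

/-- the partial graph of a pattern -/
noncomputable def bldE (v lv : ℕ) (E : List ℕ) (S : List Rc) (K : List Rc → Bool) : Bool :=
  List.rec (fun S => K S) (fun u _ ih S => findK u (bldG v u lv S ih) S) E S

/-- one vertex of a pattern -/
noncomputable def bldV (C : Cl) (v : Pv) (ih : ℕ → ℕ → List Rc → Bool) (k R : ℕ) (S : List Rc) :
    Bool :=
  force (Nat.add k 1) fun k' => force (Nat.sub R (Nat.pow 16 v.t)) fun R' =>
    newK C k v.t fun d => snocK S d fun S1 => bldE k (Nat.land v.t 1) v.n S1 (ih k' R')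

/-- the partial graph of a pattern -/
noncomputable def bld (C : Cl) (P : List Pv) (K : ℕ → ℕ → List Rc → Bool) :
    ℕ → ℕ → List Rc → Bool :=
  List.rec K (fun v _ ih => bldV C v ih) P

/-- the check of one lemma -/
noncomputable def chkOne (C : Cl) (T : Tr) (R j : ℕ) (p : Prf) : Bool :=
  bld C (T.get j) (fun k R' S => chk C T j p k R' S (Rc.mk 0 0 0 0 0) 2 []) 0 R []

/-- the check of a list of lemmas -/
noncomputable def chkAll (C : Cl) (T : Tr) (R : ℕ) (L : List Prf) : ℕ → Bool :=
  List.rec (fun _ => true) (fun p _ ih j =>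
    Bool.rec false (force (Nat.add j 1) ih) (chkOne C T R j p)) L

end Pool.Agent.H93.Neg
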