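import Pool.Agent.H93.Neg.Fin

/-!
The cases for degree 3 and order 10.
-/

set_option autoImplicit false
set_option maxRecDepth 100000
set_option linter.all false

namespace Pool.Agent.H93.Neg

namespace N10_2_0

open Finset Classical

/-- degree, order and types -/
def C : Cl := ⟨nat_lit 3,nat_lit 10,[nat_lit 3,nat_lit 7,nat_lit 4,nat_lit 0]⟩

/-- the numbers of vertices of each type -/
def R : ℕ := nat_lit 139270

/-- part of the table -/
noncomputable def T0 : Tr := (lf (nat_lit 1) (nat_lit 3))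

/-- the table -/
noncomputable def T : Tr := T0

/-- part of the certificates -/
def L0 : List Prf := [(.br (nat_lit 0) (nat_lit 0) (.cons (.br (nat_lit 0) (nat_lit 0) (.cons (.br (nat_lit 0) (nat_lit 1) (.cons (.br (nat_lit 1) (nat_lit 1) (.cons (.br (nat_lit 2) (nat_lit 1) (.cons (.kr (nat_lit 1) (nat_lit 16777216) (nat_lit 0) (nat_lit 1)) .nil)) .nil)) .nil)) .nil)) .nil))]

theorem c0 : chkAll C T R L0 (nat_lit 0) = true := by decide +kernel

theorem l0 : (nat_lit 0) + L0.length = (nat_lit 1) := by decide +kernel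

theorem r : isRoot (T.get (nat_lit 0)) (nat_lit 3) = true := by decide +kernel

theorem no {V : Type} [Fintype V] {Nb : V → Finset V} {x : V → ℤ} (H : Hyp C Nb x)
    (hR : ∀ t, (univ.filter (fun w => ty Nb x w = t)).card ≤ R / 16 ^ t % 16) (v : V)
    (hv : ty Nb x v = 3) : False := by
  have h0 : ∀ i < (nat_lit 0), ∀ φ, ¬ PEmb Nb x (T.get i) φ := fun i hi => absurd hi (Nat.not_lt_zero i)
  have h1 := chkAll_sound H hR c0 h0
  rw [l0] at h1
  exact no_root h1 (Nat.lt_succ_self (nat_lit 0)) r v hv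

end N10_2_0

namespace N10_2_4

open Finset Classical

/-- degree, order and types -/
def C : Cl := ⟨nat_lit 3,nat_lit 10,[nat_lit 3,nat_lit 7,nat_lit 4,nat_lit 0]⟩

/-- the numbers of vertices of each type -/
def R : ℕ := nat_lit 1073881090

/-- part of the table -/
noncomputable def T0 : Tr := (lf (nat_lit 1) (nat_lit 3))

/-- the table -/
noncomputable def T : Tr := T0

/-- part of the certificates -/
def L0 : List Prf := [(.br (nat_lit 0) (nat_lit 0) (.cons (.br (nat_lit 0) (nat_lit 0) (.cons (.br (nat_lit 1) (nat_lit 1) (.cons (.br (nat_lit 2) (nat_lit 1) (.cons (.br (nat_lit 1) (nat_lit 0) (.cons (.kr (nat_lit 256) (nat_lit 65536) (nat_lit 1) (nat_lit 0)) (.cons (.br (nat_lit 2) (nat_lit 0) (.cons (.br (nat_lit 4) (nat_lit 0) (.cons (.br (nat_lit 5) (nat_lit 0) .nil) .nil)) (.cons (.br (nat_lit 4) (nat_lit 0) (.cons (.br (nat_lit 4) (nat_lit 0) .nil) .nil)) .nil))) .nil))) .nil)) .nil)) .nil)) .nil))]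

theorem c0 : chkAll C T R L0 (nat_lit 0) = true := by decide +kernel

theorem l0 : (nat_lit 0) + L0.length = (nat_lit 1) := by decide +kernel

theorem r : isRoot (T.get (nat_lit 0)) (nat_lit 3) = true := by decide +kernel

theorem no {V : Type} [Fintype V] {Nb : V → Finset V} {x : V → ℤ} (H : Hyp C Nb x)
    (hR : ∀ t, (univ.filter (fun w => ty Nb x w = t)).card ≤ R / 16 ^ t % 16) (v : V)
    (hv : ty Nb x v = 3) : False := by
  have h0 : ∀ i < (nat_lit 0), ∀ φ, ¬ PEmb Nb x (T.get i) φ := fun i hi => absurd hi (Nat.not_lt_zero i)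
  have h1 := chkAll_sound H hR c0 h0
  rw [l0] at h1
  exact no_root h1 (Nat.lt_succ_self (nat_lit 0)) r v hv

end N10_2_4

namespace N10_4_0

open Finset Classical

/-- degree, order and types -/
def C : Cl := ⟨nat_lit 3,nat_lit 10,[nat_lit 3,nat_lit 7,nat_lit 4,nat_lit 0]⟩

/-- the numbers of vertices of each type -/
def R : ℕ := nat_lit 278530

/-- part of the table -/
noncomputable def T0 : Tr := (.node (.node (.node (lf (nat_lit 4) (nat_lit 18889507308307186974996)) (lf (nat_lit 1) (nat_lit 0))) (lf (nat_lit 9) (nat_lit 55373380167898544898563565101107270678511349561036820))) (.node (lf (nat_lit 9) (nat_lit 55373380167898544898563565101107270678511349561045172)) (lf (nat_lit 2) (nat_lit 148))))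

/-- the table -/
noncomputable def T : Tr := T0

/-- part of the certificates -/
def L0 : List Prf := [(.br (nat_lit 2) (nat_lit 0) (.cons (.kr (nat_lit 256) (nat_lit 65536) (nat_lit 1) (nat_lit 0)) (.cons (.br (nat_lit 3) (nat_lit 1) (.cons (.br (nat_lit 5) (nat_lit 1) (.cons (.br (nat_lit 4) (nat_lit 1) (.cons (.br (nat_lit 6) (nat_lit 0) (.cons (.br (nat_lit 6) (nat_lit 0) .nil) .nil)) (.cons (.br (nat_lit 5) (nat_lit 0) (.cons (.br (nat_lit 6) (nat_lit 0) (.cons (.kr (nat_lit 281474976710912) (nat_lit 1099511693312) (nat_lit 1) (nat_lit 0)) .nil)) .nil)) .nil))) .nil)) .nil)) .nil))),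
 (.br (nat_lit 0) (nat_lit 0) (.cons (.ev (nat_lit 284782118371840) (nat_lit 2)) (.cons (.ev (nat_lit 144399961637978624) (nat_lit 2)) (.cons (.br (nat_lit 4) (nat_lit 0) (.cons (.ev (nat_lit 18590862560370754304) (nat_lit 2)) (.cons (.ev (nat_lit 1103823438081) (nat_lit 1)) .nil))) .nil)))),
 (.br (nat_lit 6) (nat_lit 0) (.cons (.br (nat_lit 0) (nat_lit 0) (.cons (.ev (nat_lit 284782118371840) (nat_lit 2)) (.cons (.ev (nat_lit 144399961637978624) (nat_lit 2)) (.cons (.rf (nat_lit 1) (nat_lit 9043225708576)) (.cons (.br (nat_lit 0) (nat_lit 0) (.cons (.ev (nat_lit 284782118371840) (nat_lit 2)) (.cons (.ev (nat_lit 144399961637978624) (nat_lit 2)) (.cons (.rf (nat_lit 1) (nat_lit 9043225708576)) .nil)))) .nil))))) .nil)),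
 (.br (nat_lit 1) (nat_lit 1) (.cons (.br (nat_lit 1) (nat_lit 1) (.cons (.br (nat_lit 2) (nat_lit 0) (.cons (.br (nat_lit 2) (nat_lit 1) (.cons (.rf (nat_lit 0) (nat_lit 134209)) (.cons (.br (nat_lit 3) (nat_lit 1) (.cons (.br (nat_lit 5) (nat_lit 0) (.cons (.rf (nat_lit 0) (nat_lit 37956)) (.cons (.br (nat_lit 5) (nat_lit 0) (.cons (.rf (nat_lit 0) (nat_lit 37956)) (.cons (.br (nat_lit 4) (nat_lit 1) (.cons (.br (nat_lit 7) (nat_lit 1) (.cons (.br (nat_lit 6) (nat_lit 0) (.cons (.kr (nat_lit 281474976776192) (nat_lit 1099528404992) (nat_lit 2) (nat_lit 0)) .nil)) .nil)) (.cons (.br (nat_lit 3) (nat_lit 0) (.cons (.rf (nat_lit 2) (nat_lit 9043225708576)) (.cons (.rf (nat_lit 2) (nat_lit 7978073819168)) .nil))) .nil))) .nil))) .nil))) .nil)) .nil))) .nil)) .nil)) .nil)),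
 (.br (nat_lit 0) (nat_lit 0) (.cons (.rf (nat_lit 3) (nat_lit 32)) (.cons (.br (nat_lit 0) (nat_lit 0) (.cons (.rf (nat_lit 3) (nat_lit 64)) .nil)) .nil)))]

theorem c0 : chkAll C T R L0 (nat_lit 0) = true := by decide +kernel

theorem l0 : (nat_lit 0) + L0.length = (nat_lit 5) := by decide +kernel

theorem r : isRoot (T.get (nat_lit 4)) (nat_lit 0) = true := by decide +kernel

theorem no {V : Type} [Fintype V] {Nb : V → Finset V} {x : V → ℤ} (H : Hyp C Nb x)
    (hR : ∀ t, (univ.filter (fun w => ty Nb x w = t)).card ≤ R / 16 ^ t % 16) (v : V)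
    (hv : ty Nb x v = 0) : False := by
  have h0 : ∀ i < (nat_lit 0), ∀ φ, ¬ PEmb Nb x (T.get i) φ := fun i hi => absurd hi (Nat.not_lt_zero i)
  have h1 := chkAll_sound H hR c0 h0
  rw [l0] at h1
  exact no_root h1 (Nat.lt_succ_self (nat_lit 4)) r v hv

end N10_4_0

end Pool.Agent.H93.Neg
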