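import Pool.Agent.H93.Neg.Fin

/-!
The cases for degree 3 and order 14.
-/

set_option autoImplicit false
set_option maxRecDepth 100000
set_option linter.all false

namespace Pool.Agent.H93.Neg

namespace N14_2_0

open Finset Classical

/-- degree, order and types -/
def C : Cl := ⟨nat_lit 3,nat_lit 14,[nat_lit 3,nat_lit 7,nat_lit 4,nat_lit 0]⟩

/-- the numbers of vertices of each type -/
def R : ℕ := nat_lit 139274

/-- part of the table -/
noncomputable def T0 : Tr := (lf (nat_lit 1) (nat_lit 3))

/-- the table -/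
noncomputable def T : Tr := T0

/-- part of the certificates -/
def L0 : List Prf := [(.br (nat_lit 0) (nat_lit 0) (.cons (.br (nat_lit 0) (nat_lit 0) (.cons (.br (nat_lit 0) (nat_lit 1) (.cons (.br (nat_lit 1) (nat_lit 1) (.cons (.br (nat_lit 2) (nat_lit 1) (.cons (.kr (nat_lit 1) (nat_lit 16777216) (nat_lit 0) (nat_lit 1)) .nil)) .nil)) .nil)) .nil)) .nil))]

theorem c0 : chkAll C T R L0 (nat_lit 0) = true := by decide +kernel

theorem l0 : (nat_lit 0) + L0.length = (nat_lit 1) := by decide +kernel

theorem r : isRoot (T.get (nat_lit 0)) (nat_lit 3) = true := by decide +kernel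

theorem no {V : Type} [Fintype V] {Nb : V → Finset V} {x : V → ℤ} (H : Hyp C Nb x)
    (hR : ∀ t, (univ.filter (fun w => ty Nb x w = t)).card ≤ R / 16 ^ t % 16) (v : V)
    (hv : ty Nb x v = 3) : False := by
  have h0 : ∀ i < (nat_lit 0), ∀ φ, ¬ PEmb Nb x (T.get i) φ := fun i hi => absurd hi (Nat.not_lt_zero i)
  have h1 := chkAll_sound H hR c0 h0
  rw [l0] at h1
  exact no_root h1 (Nat.lt_succ_self (nat_lit 0)) r v hv

end N14_2_0

namespace N14_2_4

open Finset Classical

/-- degree, order and types -/
def C : Cl := ⟨nat_lit 3,nat_lit 14,[nat_lit 3,nat_lit 7,nat_lit 4,nat_lit 0]⟩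

/-- the numbers of vertices of each type -/
def R : ℕ := nat_lit 1073881094

/-- part of the table -/
noncomputable def T0 : Tr := (.node (.node (lf (nat_lit 4) (nat_lit 14167100293036399133479)) (lf (nat_lit 1) (nat_lit 4))) (lf (nat_lit 8) (nat_lit 1496580954836584168821254901064385677809734138202135)))

/-- the table -/
noncomputable def T : Tr := T0

/-- part of the certificates -/
def L0 : List Prf := [(.br (nat_lit 2) (nat_lit 1) (.cons (.br (nat_lit 3) (nat_lit 1) (.cons (.br (nat_lit 4) (nat_lit 1) (.cons (.br (nat_lit 5) (nat_lit 1) .nil) .nil)) (.cons (.br (nat_lit 4) (nat_lit 1) (.cons (.br (nat_lit 4) (nat_lit 1) .nil) .nil)) .nil))) .nil)),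
 (.br (nat_lit 5) (nat_lit 1) (.cons (.kr (nat_lit 1099511628032) (nat_lit 4295032832) (nat_lit 1) (nat_lit 0)) .nil)),
 (.br (nat_lit 0) (nat_lit 1) (.cons (.br (nat_lit 0) (nat_lit 1) (.cons (.br (nat_lit 1) (nat_lit 0) (.cons (.br (nat_lit 2) (nat_lit 0) (.cons (.br (nat_lit 1) (nat_lit 1) (.cons (.kr (nat_lit 256) (nat_lit 65536) (nat_lit 1) (nat_lit 0)) (.cons (.br (nat_lit 2) (nat_lit 1) (.cons (.br (nat_lit 4) (nat_lit 1) (.cons (.br (nat_lit 5) (nat_lit 1) (.cons (.br (nat_lit 6) (nat_lit 1) (.cons (.br (nat_lit 6) (nat_lit 1) .nil) .nil)) .nil)) .nil)) (.cons (.br (nat_lit 4) (nat_lit 1) (.cons (.rf (nat_lit 0) (nat_lit 168001)) (.cons (.br (nat_lit 4) (nat_lit 1) (.cons (.rf (nat_lit 0) (nat_lit 168001)) (.cons (.br (nat_lit 5) (nat_lit 1) (.cons (.rf (nat_lit 1) (nat_lit 247132686368)) (.cons (.rf (nat_lit 1) (nat_lit 213846689824)) .nil))) .nil))) .nil))) .nil))) .nil))) .nil)) .nil)) .nil)) .nil))]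

theorem c0 : chkAll C T R L0 (nat_lit 0) = true := by decide +kernel

theorem l0 : (nat_lit 0) + L0.length = (nat_lit 3) := by decide +kernel

theorem r : isRoot (T.get (nat_lit 2)) (nat_lit 4) = true := by decide +kernel

theorem no {V : Type} [Fintype V] {Nb : V → Finset V} {x : V → ℤ} (H : Hyp C Nb x)
    (hR : ∀ t, (univ.filter (fun w => ty Nb x w = t)).card ≤ R / 16 ^ t % 16) (v : V)
    (hv : ty Nb x v = 4) : False := by
  have h0 : ∀ i < (nat_lit 0), ∀ φ, ¬ PEmb Nb x (T.get i) φ := fun i hi => absurd hi (Nat.not_lt_zero i)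
  have h1 := chkAll_sound H hR c0 h0
  rw [l0] at h1
  exact no_root h1 (Nat.lt_succ_self (nat_lit 2)) r v hv

end N14_2_4

namespace N14_2_8

open Finset Classical

/-- degree, order and types -/
def C : Cl := ⟨nat_lit 3,nat_lit 14,[nat_lit 3,nat_lit 7,nat_lit 4,nat_lit 0]⟩

/-- the numbers of vertices of each type -/
def R : ℕ := nat_lit 2147622914

/-- part of the table -/
noncomputable def T0 : Tr := (lf (nat_lit 1) (nat_lit 3))

/-- the table -/
noncomputable def T : Tr := T0

/-- part of the certificates -/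
def L0 : List Prf := [(.br (nat_lit 0) (nat_lit 0) (.cons (.br (nat_lit 0) (nat_lit 0) (.cons (.br (nat_lit 1) (nat_lit 1) (.cons (.br (nat_lit 2) (nat_lit 1) (.cons (.br (nat_lit 1) (nat_lit 0) (.cons (.kr (nat_lit 256) (nat_lit 65536) (nat_lit 1) (nat_lit 0)) (.cons (.br (nat_lit 2) (nat_lit 0) (.cons (.br (nat_lit 4) (nat_lit 0) (.cons (.br (nat_lit 5) (nat_lit 0) .nil) .nil)) (.cons (.br (nat_lit 4) (nat_lit 0) (.cons (.br (nat_lit 4) (nat_lit 0) .nil) .nil)) .nil))) .nil))) .nil)) .nil)) .nil)) .nil))]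

theorem c0 : chkAll C T R L0 (nat_lit 0) = true := by decide +kernel

theorem l0 : (nat_lit 0) + L0.length = (nat_lit 1) := by decide +kernel

theorem r : isRoot (T.get (nat_lit 0)) (nat_lit 3) = true := by decide +kernel

theorem no {V : Type} [Fintype V] {Nb : V → Finset V} {x : V → ℤ} (H : Hyp C Nb x)
    (hR : ∀ t, (univ.filter (fun w => ty Nb x w = t)).card ≤ R / 16 ^ t % 16) (v : V)
    (hv : ty Nb x v = 3) : False := by
  have h0 : ∀ i < (nat_lit 0), ∀ φ, ¬ PEmb Nb x (T.get i) φ := fun i hi => absurd hi (Nat.not_lt_zero i)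
  have h1 := chkAll_sound H hR c0 h0
  rw [l0] at h1
  exact no_root h1 (Nat.lt_succ_self (nat_lit 0)) r v hv

end N14_2_8

namespace N14_4_0

open Finset Classical

/-- degree, order and types -/
def C : Cl := ⟨nat_lit 3,nat_lit 14,[nat_lit 3,nat_lit 7,nat_lit 4,nat_lit 0]⟩

/-- the numbers of vertices of each type -/
def R : ℕ := nat_lit 278534

/-- part of the table -/
noncomputable def T0 : Tr := (.node (.node (.node (.node (.node (.node (lf (nat_lit 4) (nat_lit 14167141106907971846563)) (lf (nat_lit 13) (nat_lit 1491974096360298443283227062180202712079699331538263430477254899555825372816012755533856))) (lf (nat_lit 14) (nat_lit 25031171681041540807426449599242691824346924900279123641052169244378146815667343078310526648336))) (.node (.node (lf (nat_lit 14) (nat_lit 25031100066503560632907752025518692776974075390986981926067567028491433216573943713283707043856)) (lf (nat_lit 14) (nat_lit 25031171681041540807426449599242691824346924900273057838017885939490616030940415659835830566928))) (lf (nat_lit 12) (nat_lit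 88928586027640011506272975336325330262166221829549278645351814240155388755361824)))) (.node (.node (.node (lf (nat_lit 10) (nat_lit 315937804016885537981831159339333097924282541367588870247038369824)) (lf (nat_lit 14) (nat_lit 25031171681041540807426449599242691824346924900273057838017888536906386338042444371708214312976))) (lf (nat_lit 12) (nat_lit 88928586027640011506272975336325330262166221829549278722798624559217570260090912))) (.node (.node (lf (nat_lit 14) (nat_lit 25031171681041540807426449599242691824346924900279123641052171841794226683281712128643737714704)) (lf (nat_lit 14) (nat_lit 25031171681041540807426449599242691824346924900273057838017885939490306470363502714316080054288))) (lf (nat_lit 12) (nat_lit 88928586027640011506272975336325330262166221829549278645351821157684004348051488))))) (.node (.node (.node (.node (lf (nat_lit 12) (nat_lit 88928586027668656449606822891107163965696180187140018148777475391569373994090528)) (lf (nat_lit 13) (nat_lit 1491974096360298443283227062180202712079699331538263430477254899555825372817662022877216)))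 (lf (nat_lit 14) (nat_lit 25031171681041540807426449599242691824346924900279123641052169244378146815630445086563480174608))) (.node (.node (lf (nat_lit 8) (nat_lit 1122436557980981099482531104667277680861596925039652)) (lf (nat_lit 12) (nat_lit 88928586027640011506272975336325330262166221829549278645351811929807817841623072))) (lf (nat_lit 10) (nat_lit 315937804016783770699820533907332738942010841148364188219061838368)))) (.node (.node (.node (lf (nat_lit 12) (nat_lit 88928586027668656449606822891107163965696180187140018148777466163694837291843600)) (lf (nat_lit 12) (nat_lit 88928586027640011506272975336325330262166221829549278645351821157683454323736592))) (lf (nat_lit 12) (nat_lit 88928586027640011506272975336325330262166221829549278645351814240155938779578384))) (.node (.node (lf (nat_lit 14) (nat_lit 25031171681041540807426449599242691824346924900187422976795811322020461502661000097232960225296)) (lf (nat_lit 1) (nat_lit 3))) (lf (nat_lit 12) (nat_lit 88928586027640011506272975336325330262166221829549278645351821157684004347985936))))))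 (.node (.node (.node (.node (.node (lf (nat_lit 10) (nat_lit 421250095685287080598190988958731354774706581235307379802247282704)) (lf (nat_lit 12) (nat_lit 88928586027640011506272975336325330262166221829549278645351821157683454323769376))) (lf (nat_lit 14) (nat_lit 25031171681041540807426449599242691824346924900279123641052169244378146815667343076111234957328))) (.node (.node (lf (nat_lit 14) (nat_lit 25031171681049603642184222400562425919175049856672696744138878455304105831504615528542029021200)) (lf (nat_lit 14) (nat_lit 25031171681041540807426449599242691824346924900273057838017885939490306470372730589952562429968))) (lf (nat_lit 14) (nat_lit 25031171681041540807426449599242691824346924900273057838017886589795335186828779360159470223376)))) (.node (.node (.node (lf (nat_lit 14) (nat_lit 25031171681049603642184222400562412963237068018563600187069508954680932556810663227956865925136)) (lf (nat_lit 14) (nat_lit 25031171681041540807426449599242691824346924900273057838017888536906386338005546382160459530256))) (lf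 (nat_lit 14) (nat_lit 25031171681041540807426449599242691824346924900273057859817225720667955502455826838623839453200))) (.node (.node (lf (nat_lit 10) (nat_lit 315937804016783770699820533907332738942010841148440749417022136352)) (lf (nat_lit 8) (nat_lit 1122436557980619549467677607549847845341200671310868))) (lf (nat_lit 14) (nat_lit 25031171681041540807426449599242691824346924900273057838017888536906541156068320783357924474896))))) (.node (.node (.node (.node (lf (nat_lit 14) (nat_lit 25031171681049603642184222400562425919175049856672696744138881052720185699155882570622286561296)) (lf (nat_lit 13) (nat_lit 1491974096360298443283227062180202712079699331538263430477254899555825372815462731317296))) (lf (nat_lit 8) (nat_lit 1122436557980619549467677607549847845341200671315252))) (.node (.node (lf (nat_lit 12) (nat_lit 88928586027640011506272975336325330262166221829245042502505974082667108184031264)) (lf (nat_lit 14) (nat_lit 25031171681041540807426449599242691824346924900273057838017885939490306470363502716515371810848)))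 (lf (nat_lit 10) (nat_lit 421249191782637184916160996094630801642108649753535536531482099728)))) (.node (.node (.node (lf (nat_lit 14) (nat_lit 25031100066503560632907752025518692776974075390986981926067567028491433216573943715482998734864)) (lf (nat_lit 14) (nat_lit 25031171681041540807426449599242691824346924900273057838017885939490616030940415660935610630160))) (lf (nat_lit 14) (nat_lit 25031171681041540807426449599242691824346924900273057838017886589795335186838007235795952599056))) (.node (lf (nat_lit 12) (nat_lit 88928586027640011506272975336325330262166221829570828706764619810977224205565968)) (lf (nat_lit 13) (nat_lit 1491974096360298443283227062180202712079699331538263430477254899555825372818212047093776)))))))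

/-- the table -/
noncomputable def T : Tr := T0

/-- part of the certificates -/
def L0 : List Prf := [(.br (nat_lit 2) (nat_lit 1) (.cons (.kr (nat_lit 1) (nat_lit 16777216) (nat_lit 0) (nat_lit 1)) (.cons (.br (nat_lit 3) (nat_lit 0) (.cons (.br (nat_lit 4) (nat_lit 1) (.cons (.br (nat_lit 4) (nat_lit 0) (.cons (.br (nat_lit 6) (nat_lit 0) (.cons (.br (nat_lit 6) (nat_lit 0) .nil) .nil)) (.cons (.br (nat_lit 5) (nat_lit 1) (.cons (.br (nat_lit 6) (nat_lit 0) (.cons (.kr (nat_lit 281474976710657) (nat_lit 4311744512) (nat_lit 0) (nat_lit 1)) .nil)) .nil)) .nil))) .nil)) .nil)) .nil))),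
 (.br (nat_lit 8) (nat_lit 0) (.cons (.br (nat_lit 8) (nat_lit 0) .nil) .nil)),
 (.br (nat_lit 10) (nat_lit 0) (.cons (.br (nat_lit 11) (nat_lit 0) (.cons (.ev (nat_lit 621387871426598637651623939) (nat_lit 2)) (.cons (.rf (nat_lit 1) (nat_lit 470979981842497)) .nil))) .nil)),
 (.br (nat_lit 11) (nat_lit 0) (.cons (.ev (nat_lit 313125973042839207454900481) (nat_lit 2)) .nil)),
 (.br (nat_lit 8) (nat_lit 0) (.cons (.br (nat_lit 9) (nat_lit 0) (.cons (.ev (nat_lit 9481626454990533034499) (nat_lit 2)) (.cons (.br (nat_lit 10) (nat_lit 0) (.cons (.rf (nat_lit 2) (nat_lit 407901468851537952)) (.cons (.br (nat_lit 10) (nat_lit 0) (.cons (.rf (nat_lit 2) (nat_lit 407901468851537952)) (.cons (.br (nat_lit 11) (nat_lit 0) (.cons (.rf (nat_lit 3) (nat_lit 493858305440582043680)) (.cons (.rf (nat_lit 3) (nat_lit 458117738797769787424)) .nil))) .nil))) .nil))) .nil))) .nil)),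
 (.br (nat_lit 11) (nat_lit 0) (.cons (.br (nat_lit 12) (nat_lit 0) (.cons (.ev (nat_lit 20521023759890777330713630933250) (nat_lit 2)) .nil)) .nil)),
 (.br (nat_lit 9) (nat_lit 0) (.cons (.kr (nat_lit 18518801667747479808) (nat_lit 4722366764344621989888) (nat_lit 1) (nat_lit 0)) (.cons (.br (nat_lit 10) (nat_lit 0) (.cons (.kr (nat_lit 2417851639230362172784641) (nat_lit 37037603335494959616) (nat_lit 0) (nat_lit 2)) (.cons (.kr (nat_lit 2417851639230362172784641) (nat_lit 9444733528689243979776) (nat_lit 0) (nat_lit 1)) (.cons (.br (nat_lit 11) (nat_lit 0) (.cons (.rf (nat_lit 5) (nat_lit 493858305440582043680)) (.cons (.br (nat_lit 11) (nat_lit 0) (.cons (.rf (nat_lit 5) (nat_lit 493858305440582043680)) .nil)) .nil))) .nil)))) .nil))),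
 (.br (nat_lit 11) (nat_lit 0) (.cons (.kr (nat_lit 1208925819614629174706176) (nat_lit 309485009821345068724781056) (nat_lit 10) (nat_lit 0)) (.cons (.ev (nat_lit 310698658079501265406066688) (nat_lit 1)) .nil))),
 (.br (nat_lit 10) (nat_lit 0) (.cons (.rf (nat_lit 7) (nat_lit 493858305440582043680)) (.cons (.rf (nat_lit 7) (nat_lit 458117738797769787424)) .nil))),
 (.br (nat_lit 10) (nat_lit 0) (.cons (.rf (nat_lit 8) (nat_lit 493858305440582043680)) (.cons (.br (nat_lit 12) (nat_lit 0) (.cons (.br (nat_lit 11) (nat_lit 0) (.cons (.ev (nat_lit 310693954087986350409122048) (nat_lit 1)) .nil)) (.cons (.ev (nat_lit 158458742880312583687289962499) (nat_lit 2)) .nil))) .nil))),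
 (.br (nat_lit 6) (nat_lit 0) (.cons (.kr (nat_lit 72057594037928192) (nat_lit 281474976776192) (nat_lit 1) (nat_lit 0)) (.cons (.br (nat_lit 7) (nat_lit 0) (.cons (.ev (nat_lit 144679241852649475) (nat_lit 2)) (.cons (.br (nat_lit 8) (nat_lit 0) (.cons (.rf (nat_lit 4) (nat_lit 325702574508064)) (.cons (.br (nat_lit 8) (nat_lit 0) (.cons (.rf (nat_lit 4) (nat_lit 325702574508064)) (.cons (.br (nat_lit 9) (nat_lit 0) (.cons (.rf (nat_lit 6) (nat_lit 407901468851537952)) (.cons (.rf (nat_lit 6) (nat_lit 372998571739416608)) (.cons (.br (nat_lit 9) (nat_lit 0) (.cons (.rf (nat_lit 6) (nat_lit 407901468851537952)) (.cons (.rf (nat_lit 6) (nat_lit 372998571739416608)) (.cons (.br (nat_lit 10) (nat_lit 0) (.cons (.rf (nat_lit 8) (nat_lit 493858305440582043680)) (.cons (.rf (nat_lit 9) (nat_lit 493858305440582043680)) (.cons (.rf (nat_lit 9) (nat_lit 458117738797769787424)) .nil)))) .nil)))) .nil)))) .nil))) .nil))) .nil))) .nil))),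
 (.br (nat_lit 10) (nat_lit 0) (.cons (.br (nat_lit 11) (nat_lit 0) (.cons (.ev (nat_lit 313111787281033394097553923) (nat_lit 2)) (.cons (.rf (nat_lit 1) (nat_lit 470979981805793)) .nil))) .nil)),
 (.br (nat_lit 11) (nat_lit 0) (.cons (.ev (nat_lit 1859337465981293906056578051) (nat_lit 3)) .nil)),
 (.br (nat_lit 8) (nat_lit 0) (.cons (.br (nat_lit 9) (nat_lit 0) (.cons (.kr (nat_lit 9444732966838802055169) (nat_lit 36893488151730847744) (nat_lit 0) (nat_lit 1)) (.cons (.br (nat_lit 10) (nat_lit 0) (.cons (.rf (nat_lit 11) (nat_lit 407901468851537952)) (.cons (.br (nat_lit 10) (nat_lit 0) (.cons (.rf (nat_lit 11) (nat_lit 407901468851537952)) (.cons (.br (nat_lit 11) (nat_lit 0) (.cons (.rf (nat_lit 12) (nat_lit 493858305440582043680)) (.cons (.rf (nat_lit 12) (nat_lit 458117738797769787424)) .nil))) .nil))) .nil))) .nil))) .nil)),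
 (.br (nat_lit 11) (nat_lit 0) (.cons (.br (nat_lit 12) (nat_lit 0) (.cons (.ev (nat_lit 80156617543729217237566947843) (nat_lit 2)) .nil)) .nil)),
 (.br (nat_lit 9) (nat_lit 0) (.cons (.ev (nat_lit 9555415120152444929031) (nat_lit 3)) (.cons (.br (nat_lit 10) (nat_lit 0) (.cons (.ev (nat_lit 4835777210677020623635971) (nat_lit 3)) (.cons (.ev (nat_lit 4854593176736680611414531) (nat_lit 3)) (.cons (.br (nat_lit 11) (nat_lit 0) (.cons (.rf (nat_lit 14) (nat_lit 493858305440582043680)) (.cons (.br (nat_lit 11) (nat_lit 0) (.cons (.rf (nat_lit 14) (nat_lit 493858305440582043680)) .nil)) .nil))) .nil)))) .nil))),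
 (.br (nat_lit 11) (nat_lit 0) (.cons (.ev (nat_lit 79231789291724025918916723203) (nat_lit 2)) (.cons (.ev (nat_lit 1242794632463242838237250055) (nat_lit 3)) .nil))),
 (.br (nat_lit 10) (nat_lit 0) (.cons (.rf (nat_lit 16) (nat_lit 493858305440582043680)) (.cons (.rf (nat_lit 16) (nat_lit 458117738797769787424)) .nil))),
 (.br (nat_lit 10) (nat_lit 0) (.cons (.rf (nat_lit 17) (nat_lit 493858305440582043680)) (.cons (.br (nat_lit 12) (nat_lit 0) (.cons (.br (nat_lit 11) (nat_lit 0) (.cons (.ev (nat_lit 1242775816494931378436310535) (nat_lit 3)) .nil)) (.cons (.ev (nat_lit 79231789291724025918916723203) (nat_lit 2)) .nil))) .nil))),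
 (.br (nat_lit 2) (nat_lit 0) (.cons (.ev (nat_lit 1689970897191943) (nat_lit 3)) (.cons (.br (nat_lit 6) (nat_lit 0) (.cons (.ev (nat_lit 281479305429505) (nat_lit 2)) (.cons (.br (nat_lit 8) (nat_lit 0) (.cons (.rf (nat_lit 13) (nat_lit 325702574508064)) (.cons (.br (nat_lit 8) (nat_lit 0) (.cons (.rf (nat_lit 13) (nat_lit 325702574508064)) (.cons (.br (nat_lit 9) (nat_lit 0) (.cons (.rf (nat_lit 15) (nat_lit 407901468851537952)) (.cons (.rf (nat_lit 15) (nat_lit 372998571739416608)) (.cons (.br (nat_lit 9) (nat_lit 0) (.cons (.rf (nat_lit 15) (nat_lit 407901468851537952)) (.cons (.rf (nat_lit 15) (nat_lit 372998571739416608)) (.cons (.br (nat_lit 10) (nat_lit 0) (.cons (.rf (nat_lit 17) (nat_lit 493858305440582043680)) (.cons (.rf (nat_lit 18) (nat_lit 493858305440582043680)) (.cons (.rf (nat_lit 18) (nat_lit 458117738797769787424)) .nil)))) .nil)))) .nil)))) .nil))) .nil))) .nil))) .nil))),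
 (.br (nat_lit 10) (nat_lit 0) (.cons (.br (nat_lit 11) (nat_lit 0) (.cons (.ev (nat_lit 621387871281920499656032769) (nat_lit 2)) (.cons (.br (nat_lit 12) (nat_lit 0) (.cons (.br (nat_lit 12) (nat_lit 0) .nil) .nil)) .nil))) .nil)),
 (.br (nat_lit 11) (nat_lit 0) (.cons (.ev (nat_lit 313116565203922366480056577) (nat_lit 2)) .nil)),
 (.br (nat_lit 8) (nat_lit 0) (.cons (.kr (nat_lit 9444877080927366283776) (nat_lit 36893770721924284416) (nat_lit 1) (nat_lit 0)) (.cons (.br (nat_lit 10) (nat_lit 0) (.cons (.kr (nat_lit 2417851639230362172784641) (nat_lit 9444877080927366283776) (nat_lit 0) (nat_lit 2)) (.cons (.kr (nat_lit 2417851639229262644379649) (nat_lit 36893769622395879424) (nat_lit 0) (nat_lit 1)) (.cons (.br (nat_lit 11) (nat_lit 0) (.cons (.br (nat_lit 11) (nat_lit 0) (.cons (.ev (nat_lit 310693954159761365647032321) (nat_lit 1)) .nil)) (.cons (.br (nat_lit 11) (nat_lit 0) (.cons (.ev (nat_lit 310693954159761365647032321) (nat_lit 1)) .nil)) .nil))) .nil)))) .nil))),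
 (.br (nat_lit 12) (nat_lit 0) (.cons (.ev (nat_lit 159075304529797820315070497283) (nat_lit 2)) .nil)),
 (.br (nat_lit 8) (nat_lit 0) (.cons (.kr (nat_lit 9444877080927366283776) (nat_lit 36893770721924284416) (nat_lit 1) (nat_lit 0)) (.cons (.br (nat_lit 11) (nat_lit 0) (.cons (.kr (nat_lit 618970019642971616721305601) (nat_lit 9444877080927366283776) (nat_lit 0) (nat_lit 3)) (.cons (.kr (nat_lit 618970019642690141744529409) (nat_lit 36893489246947508224) (nat_lit 0) (nat_lit 1)) (.cons (.br (nat_lit 10) (nat_lit 0) (.cons (.rf (nat_lit 23) (nat_lit 493858305440582043680)) (.cons (.rf (nat_lit 23) (nat_lit 458009655494761781475)) .nil))) .nil)))) .nil))),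
 (.br (nat_lit 10) (nat_lit 0) (.cons (.rf (nat_lit 22) (nat_lit 299818165843532003)) (.cons (.ev (nat_lit 2427333265964624330818051) (nat_lit 2)) .nil))),
 (.br (nat_lit 9) (nat_lit 0) (.cons (.ev (nat_lit 144116300489293825) (nat_lit 2)) (.cons (.ev (nat_lit 4722366483969173684481) (nat_lit 1)) (.cons (.br (nat_lit 7) (nat_lit 0) (.cons (.br (nat_lit 8) (nat_lit 0) (.cons (.ev (nat_lit 9481626454990533034499) (nat_lit 2)) (.cons (.br (nat_lit 10) (nat_lit 0) (.cons (.rf (nat_lit 20) (nat_lit 407901468851537952)) (.cons (.br (nat_lit 10) (nat_lit 0) (.cons (.rf (nat_lit 20) (nat_lit 407901468851537952)) (.cons (.br (nat_lit 11) (nat_lit 0) (.cons (.rf (nat_lit 21) (nat_lit 493858305440582043680)) (.cons (.rf (nat_lit 21) (nat_lit 458117738797769787424)) .nil))) .nil))) .nil))) .nil))) (.cons (.ev (nat_lit 4722438540463699984384) (nat_lit 1)) (.cons (.br (nat_lit 8) (nat_lit 0) (.cons (.rf (nat_lit 22) (nat_lit 407901468851537952)) (.cons (.rf (nat_lit 24) (nat_lit 407901468851537952)) (.cons (.br (nat_lit 8)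 (nat_lit 0) (.cons (.rf (nat_lit 22) (nat_lit 407901468851537952)) (.cons (.rf (nat_lit 24) (nat_lit 407901468851537952)) (.cons (.br (nat_lit 10) (nat_lit 0) (.cons (.rf (nat_lit 22) (nat_lit 299818165843532003)) (.cons (.rf (nat_lit 25) (nat_lit 493858305440582043680)) (.cons (.rf (nat_lit 25) (nat_lit 458117738797769787424)) .nil)))) .nil)))) .nil)))) .nil)))) .nil)))),
 (.br (nat_lit 8) (nat_lit 0) (.cons (.br (nat_lit 8) (nat_lit 0) .nil) .nil)),
 (.br (nat_lit 10) (nat_lit 0) (.cons (.ev (nat_lit 7263073439319780141171715) (nat_lit 3)) (.cons (.br (nat_lit 11) (nat_lit 0) (.cons (.ev (nat_lit 621397352908374386332008963) (nat_lit 2)) (.cons (.rf (nat_lit 27) (nat_lit 470979981842497)) .nil))) .nil))),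
 (.br (nat_lit 11) (nat_lit 0) (.cons (.zr (nat_lit 309485065161577302738337795) (nat_lit 1213648258718042811400448) (nat_lit 8) (nat_lit 1)) .nil)),
 (.br (nat_lit 9) (nat_lit 0) (.cons (.kr (nat_lit 2417851639230357861040129) (nat_lit 9444732965743602171904) (nat_lit 0) (nat_lit 1)) (.cons (.rf (nat_lit 28) (nat_lit 407901468851537952)) (.cons (.br (nat_lit 10) (nat_lit 0) (.cons (.rf (nat_lit 28) (nat_lit 406810748950583332)) (.cons (.ev (nat_lit 7263073439319780141171715) (nat_lit 3)) (.cons (.br (nat_lit 11) (nat_lit 0) (.cons (.rf (nat_lit 29) (nat_lit 493858305440582043680)) (.cons (.rf (nat_lit 29) (nat_lit 458116648077868832804)) .nil))) .nil)))) .nil)))),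
 (.br (nat_lit 10) (nat_lit 0) (.cons (.ev (nat_lit 633496055838049384704641025) (nat_lit 4)) (.cons (.rf (nat_lit 27) (nat_lit 470944615434465)) .nil))),
 (.br (nat_lit 10) (nat_lit 0) (.cons (.ev (nat_lit 633496055838049384704641025) (nat_lit 4)) (.cons (.br (nat_lit 11) (nat_lit 0) (.cons (.ev (nat_lit 79537647542604766904521326593) (nat_lit 1)) (.cons (.ev (nat_lit 621397352908937344875233793) (nat_lit 2)) .nil))) .nil))),
 (.br (nat_lit 9) (nat_lit 0) (.cons (.br (nat_lit 10) (nat_lit 0) (.cons (.ev (nat_lit 16953443971409359984132613) (nat_lit 4)) (.cons (.br (nat_lit 11) (nat_lit 0) (.cons (.ev (nat_lit 621397352908374386332008963) (nat_lit 2)) (.cons (.rf (nat_lit 27) (nat_lit 436861835353153)) .nil))) .nil))) (.cons (.kr (nat_lit 618970019642690141744529409) (nat_lit 36893489246947508224) (nat_lit 0) (nat_lit 1)) (.cons (.br (nat_lit 10) (nat_lit 0) (.cons (.rf (nat_lit 31) (nat_lit 14242959524133701664)) (.cons (.rf (nat_lit 32) (nat_lit 14242959524133701664)) (.cons (.br (nat_lit 10) (nat_lit 0) (.cons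 (.rf (nat_lit 27) (nat_lit 470944615434465)) (.cons (.rf (nat_lit 32) (nat_lit 14242959524133701664)) .nil))) .nil)))) .nil)))),
 (.br (nat_lit 10) (nat_lit 0) (.cons (.ev (nat_lit 2427370593206836159185411) (nat_lit 3)) (.cons (.br (nat_lit 11) (nat_lit 0) (.cons (.ev (nat_lit 1856929059219145600910362117) (nat_lit 3)) (.cons (.kr (nat_lit 309489732187827942664962048) (nat_lit 1208944266359802395885568) (nat_lit 4) (nat_lit 0)) .nil))) .nil))),
 (.br (nat_lit 10) (nat_lit 0) (.cons (.ev (nat_lit 2427370593206836159185411) (nat_lit 3)) (.cons (.br (nat_lit 11) (nat_lit 0) (.cons (.br (nat_lit 11) (nat_lit 0) .nil) .nil)) .nil))),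
 (.br (nat_lit 10) (nat_lit 0) (.cons (.br (nat_lit 11) (nat_lit 0) (.cons (.ev (nat_lit 623805759959316069223892481) (nat_lit 3)) (.cons (.ev (nat_lit 315562750969710886116525569) (nat_lit 3)) .nil))) (.cons (.br (nat_lit 11) (nat_lit 0) (.cons (.kr (nat_lit 309489732187827942664962048) (nat_lit 1208944266359802395885568) (nat_lit 4) (nat_lit 0)) (.cons (.ev (nat_lit 1245221928836000811566891527) (nat_lit 3)) .nil))) .nil))),
 (.br (nat_lit 10) (nat_lit 0) (.cons (.rf (nat_lit 36) (nat_lit 493858305440582043680)) (.cons (.br (nat_lit 12) (nat_lit 0) (.cons (.ev (nat_lit 79229376162522493790208458753) (nat_lit 1)) (.cons (.ev (nat_lit 40723275532331869524185447531009) (nat_lit 2)) .nil))) .nil))),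
 (.br (nat_lit 8) (nat_lit 0) (.cons (.rf (nat_lit 30) (nat_lit 407901468851537952)) (.cons (.rf (nat_lit 33) (nat_lit 407901468851537952)) (.cons (.br (nat_lit 9) (nat_lit 0) (.cons (.rf (nat_lit 33) (nat_lit 372964453560452160)) (.cons (.rf (nat_lit 30) (nat_lit 372964453560452160)) (.cons (.br (nat_lit 10) (nat_lit 0) (.cons (.rf (nat_lit 34) (nat_lit 14242959524133701664)) (.cons (.rf (nat_lit 35) (nat_lit 14242959524133701664)) (.cons (.br (nat_lit 10) (nat_lit 0) (.cons (.rf (nat_lit 34) (nat_lit 14242959524133701664)) (.cons (.rf (nat_lit 35) (nat_lit 14242959524133701664)) .nil))) .nil)))) (.cons (.br (nat_lit 10) (nat_lit 0) (.cons (.rf (nat_lit 36) (nat_lit 493858305440582043680)) (.cons (.rf (nat_lit 37) (nat_lit 493858305440582043680)) (.cons (.br (nat_lit 10) (nat_lit 0) (.cons (.rf (nat_lit 36) (nat_lit 493858305440582043680)) (.cons (.rf (nat_lit 37) (nat_lit 493858305440582043680)) .nil))) .nil)))) .nil))))) .nil)))),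
 (.br (nat_lit 10) (nat_lit 0) (.cons (.kr (nat_lit 2417851639230357861040129) (nat_lit 9444732965743602171904) (nat_lit 0) (nat_lit 1)) (.cons (.kr (nat_lit 309489732187827942664962048) (nat_lit 1208944266359802395885568) (nat_lit 4) (nat_lit 0)) .nil))),
 (.br (nat_lit 9) (nat_lit 0) (.cons (.rf (nat_lit 39) (nat_lit 493858305440582043680)) (.cons (.rf (nat_lit 39) (nat_lit 458009655498920560869)) .nil))),
 (.br (nat_lit 9) (nat_lit 0) (.cons (.rf (nat_lit 40) (nat_lit 493858305440582043680)) (.cons (.br (nat_lit 12) (nat_lit 0) (.cons (.br (nat_lit 10) (nat_lit 0) (.cons (.ev (nat_lit 316919913130784900513221705731) (nat_lit 3)) .nil)) (.cons (.ev (nat_lit 79537647542532427835489976576) (nat_lit 1)) .nil))) .nil))),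
 (.br (nat_lit 8) (nat_lit 0) (.cons (.rf (nat_lit 38) (nat_lit 407901468851537952)) (.cons (.rf (nat_lit 38) (nat_lit 406810748950583332)) (.cons (.br (nat_lit 11) (nat_lit 0) (.cons (.rf (nat_lit 38) (nat_lit 369692300474981445)) (.cons (.rf (nat_lit 38) (nat_lit 333664465599864003)) (.cons (.kr (nat_lit 618970019642690141744529409) (nat_lit 36893489246947508224) (nat_lit 0) (nat_lit 1)) (.cons (.br (nat_lit 9) (nat_lit 0) (.cons (.rf (nat_lit 40) (nat_lit 493858305440582043680)) (.cons (.rf (nat_lit 41) (nat_lit 493858305440582043680)) (.cons (.rf (nat_lit 41) (nat_lit 458009655498920560869)) .nil)))) .nil))))) .nil)))),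
 (.br (nat_lit 10) (nat_lit 0) (.cons (.rf (nat_lit 38) (nat_lit 333664465599864003)) (.cons (.ev (nat_lit 81446558327737177240026235667463) (nat_lit 3)) .nil))),
 (.br (nat_lit 9) (nat_lit 0) (.cons (.rf (nat_lit 42) (nat_lit 372964453560452160)) (.cons (.rf (nat_lit 38) (nat_lit 369692300474981445)) (.cons (.br (nat_lit 10) (nat_lit 0) (.cons (.rf (nat_lit 38) (nat_lit 333664465599864003)) (.cons (.rf (nat_lit 43) (nat_lit 493858305440582043680)) (.cons (.rf (nat_lit 43) (nat_lit 458117738797769787424)) .nil)))) .nil))))]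

theorem c0 : chkAll C T R L0 (nat_lit 0) = true := by decide +kernel

theorem l0 : (nat_lit 0) + L0.length = (nat_lit 45) := by decide +kernel

/-- part of the certificates -/
def L1 : List Prf := [(.br (nat_lit 5) (nat_lit 0) (.cons (.br (nat_lit 1) (nat_lit 0) (.cons (.rf (nat_lit 10) (nat_lit 247132686368)) (.cons (.rf (nat_lit 10) (nat_lit 242766485540)) (.cons (.rf (nat_lit 19) (nat_lit 247132686368)) (.cons (.br (nat_lit 2) (nat_lit 0) (.cons (.rf (nat_lit 19) (nat_lit 213814182976)) (.cons (.rf (nat_lit 10) (nat_lit 207332973637)) (.cons (.ev (nat_lit 1103857058305) (nat_lit 2)) (.cons (.br (nat_lit 6) (nat_lit 0) (.cons (.rf (nat_lit 10) (nat_lit 69965192387)) (.cons (.ev (nat_lit 564062400283139) (nat_lit 2)) (.cons (.rf (nat_lit 26) (nat_lit 325702574508064)) (.cons (.br (nat_lit 7) (nat_lit 0) (.cons (.rf (nat_lit 26) (nat_lit 291584395543616)) (.cons (.ev (nat_lit 144116300489293825) (nat_lit 2)) (.cons (.ev (nat_lit 144679241852649475) (nat_lit 2)) (.cons (.br (nat_lit 8) (nat_lit 0) (.cons (.rf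 (nat_lit 38) (nat_lit 407901468851537952)) (.cons (.rf (nat_lit 38) (nat_lit 406810748950583332)) (.cons (.rf (nat_lit 42) (nat_lit 407901468851537952)) (.cons (.br (nat_lit 8) (nat_lit 0) (.cons (.rf (nat_lit 38) (nat_lit 407901468851537952)) (.cons (.rf (nat_lit 38) (nat_lit 406810748950583332)) (.cons (.rf (nat_lit 42) (nat_lit 407901468851537952)) (.cons (.br (nat_lit 9) (nat_lit 0) (.cons (.rf (nat_lit 42) (nat_lit 372964453560452160)) (.cons (.rf (nat_lit 38) (nat_lit 369692300474981445)) (.cons (.rf (nat_lit 44) (nat_lit 493858305440582043680)) (.cons (.rf (nat_lit 44) (nat_lit 458117738797769787424)) .nil))))) .nil))))) .nil))))) .nil))))) .nil))))) .nil))))) .nil))))) .nil)),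
 (.br (nat_lit 0) (nat_lit 0) (.cons (.br (nat_lit 0) (nat_lit 0) (.cons (.br (nat_lit 0) (nat_lit 1) (.cons (.br (nat_lit 1) (nat_lit 1) (.cons (.rf (nat_lit 0) (nat_lit 100384)) (.cons (.br (nat_lit 4) (nat_lit 1) (.cons (.br (nat_lit 3) (nat_lit 0) (.cons (.rf (nat_lit 0) (nat_lit 99392)) (.cons (.br (nat_lit 3) (nat_lit 0) (.cons (.rf (nat_lit 0) (nat_lit 99392)) (.cons (.br (nat_lit 2) (nat_lit 1) (.cons (.br (nat_lit 6) (nat_lit 1) (.cons (.br (nat_lit 5) (nat_lit 0) (.cons (.kr (nat_lit 1099511627777) (nat_lit 4311744512) (nat_lit 0) (nat_lit 1)) .nil)) .nil)) (.cons (.br (nat_lit 4) (nat_lit 0) (.cons (.rf (nat_lit 45) (nat_lit 247132686368)) (.cons (.rf (nat_lit 45) (nat_lit 213846689824)) .nil))) .nil))) .nil))) .nil))) .nil)) .nil))) .nil)) .nil)) .nil))]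

theorem c1 : chkAll C T R L1 (nat_lit 45) = true := by decide +kernel

theorem l1 : (nat_lit 45) + L1.length = (nat_lit 47) := by decide +kernel

theorem r : isRoot (T.get (nat_lit 46)) (nat_lit 3) = true := by decide +kernel

theorem no {V : Type} [Fintype V] {Nb : V → Finset V} {x : V → ℤ} (H : Hyp C Nb x)
    (hR : ∀ t, (univ.filter (fun w => ty Nb x w = t)).card ≤ R / 16 ^ t % 16) (v : V)
    (hv : ty Nb x v = 3) : False := by
  have h0 : ∀ i < (nat_lit 0), ∀ φ, ¬ PEmb Nb x (T.get i) φ := fun i hi => absurd hi (Nat.not_lt_zero i)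
  have h1 := chkAll_sound H hR c0 h0
  rw [l0] at h1
  have h2 := chkAll_sound H hR c1 h1
  rw [l1] at h2
  exact no_root h2 (Nat.lt_succ_self (nat_lit 46)) r v hv

end N14_4_0

namespace N14_4_4

open Finset Classical

/-- degree, order and types -/
def C : Cl := ⟨nat_lit 3,nat_lit 14,[nat_lit 3,nat_lit 7,nat_lit 4,nat_lit 0]⟩

/-- the numbers of vertices of each type -/
def R : ℕ := nat_lit 1074020354

/-- part of the table -/
noncomputable def T0 : Tr := (.node (.node (.node (.node (.node (.node (lf (nat_lit 5) (nat_lit 316912668946564940149376942352)) (lf (nat_lit 11) (nat_lit 12367944934357298065171757694570269895146733060219711056049964258103918743))) (.node (lf (nat_lit 11) (nat_lit 12367944934357298065171757717763041473539741940480507582873029924477780003)) (lf (nat_lit 10) (nat_lit 315937804016783770702675029633026902742180905667525325132979503632)))) (.node (.node (lf (nat_lit 12) (nat_lit 207499683639818210815768656330577606811308159194757588945796333939163832992663719)) (lf (nat_lit 12) (nat_lit 207499683639818210815768655941467399180434620081283486942647447184340082696913047)))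 (.node (lf (nat_lit 14) (nat_lit 58405968619986318710470073387692463648427944692002167593084298495558168776208970314871847649303)) (lf (nat_lit 4) (nat_lit 33056607882816096567447))))) (.node (.node (.node (lf (nat_lit 12) (nat_lit 207499683639818210815768656384454403169874564371418226619049391135227733610660007)) (lf (nat_lit 11) (nat_lit 12367944934357298065171757694570267151620149760153349382592191324076638359))) (.node (lf (nat_lit 11) (nat_lit 12367944934357298065171757717763041473539659543191492747961932670981685283)) (lf (nat_lit 13) (nat_lit 3481267012356896323561042003425834358226540891451672259915709422923858954402796213927959)))) (.node (.node (lf (nat_lit 14) (nat_lit 58405968619986318710470073387692470176613360384045582855045537514869109441494376768459740676119)) (lf (nat_lit 12) (nat_lit 207499683639818210815768655941467399180434620081283486932900483344660934734970903))) (lf (nat_lit 7) (nat_lit 66902432321346971361507106635606267724301088))))) (.node (.node (.node (.node (lf (nat_lit 5) (nat_lit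 316912668946640375451993767940)) (lf (nat_lit 11) (nat_lit 12367944934357298065171757694570267151620149760153349383173155641379258519))) (.node (lf (nat_lit 11) (nat_lit 12367944934357298065267164509613534852674808491420780819214868633054412967)) (lf (nat_lit 14) (nat_lit 58405968619986318710470073293332653546106945273419528888567617954841860559771410141005849067543)))) (.node (.node (lf (nat_lit 12) (nat_lit 207499683639818210815768656330577606811308159194757588945796333939163832992663575)) (lf (nat_lit 13) (nat_lit 3481267012356896323589686946759681913008374594981630617506448893784073778304042097737751))) (lf (nat_lit 7) (nat_lit 66902432321346971361507106635606267724300292)))) (.node (.node (.node (lf (nat_lit 14) (nat_lit 58405968619986318710470073402857440176885595268545778841494079768790003179172867829126905593879)) (lf (nat_lit 13) (nat_lit 3481267012356896323589686947663584562904056624973984294448352966506111392344953325621271))) (.node (lf (nat_lit 14) (nat_lit 58405968619986318710470073402857433648700179576502363579532840749479062513888001807462084771863))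 (lf (nat_lit 14) (nat_lit 58405968619986318710470073278167683545834710388919332902119075700920966822092919080338684149783)))) (.node (.node (lf (nat_lit 12) (nat_lit 207499683639818210817369316685320350746853439819200586610946755396853778207539223)) (lf (nat_lit 10) (nat_lit 737186964413958672593340736303941437698606691531052657257207563808))) (lf (nat_lit 12) (nat_lit 207499683639818210815768655941467399180436002478440935715895853949929771275128855)))))) (.node (.node (.node (.node (.node (lf (nat_lit 5) (nat_lit 237685186453074135798148759828)) (lf (nat_lit 11) (nat_lit 12367944934357298065171757694570267151620149760153349383173155710367170711))) (.node (lf (nat_lit 8) (nat_lit 2619014212306526201148662535035026048131610057904151)) (lf (nat_lit 12) (nat_lit 207499683639818210815768655995344195539001025257944124606153543605706561549242535)))) (.node (.node (lf (nat_lit 14) (nat_lit 58405968619986318710470073387692470176613360384045582855045537526277964843548400852834373992471)) (lf (nat_lit 11) (nat_lit 12367944934357298065171757694570267151620067362861841138759103189323178032)))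 (.node (lf (nat_lit 7) (nat_lit 156105411786251609347540655316821429232604192)) (lf (nat_lit 1) (nat_lit 7))))) (.node (.node (.node (lf (nat_lit 8) (nat_lit 2619014212306717609938223093113192045134596951515159)) (lf (nat_lit 9) (nat_lit 43939767146942536389430805224415149551546972485256271126563))) (.node (lf (nat_lit 12) (nat_lit 207499683639818210815768656384454379977100940296361257180751780813491302928810151)) (lf (nat_lit 12) (nat_lit 207499683639818210815768655941467399180434620081283486932900486369110264284977191)))) (.node (.node (lf (nat_lit 14) (nat_lit 58405968619986318710470073387692470176613360384045582855045537514869109441494336236065510260759)) (lf (nat_lit 14) (nat_lit 58405968619986318710470073278167683545834710388919332902119074483976463138541870521254089359383))) (lf (nat_lit 8) (nat_lit 1122436557980981099492672310678028899120493398863907))))) (.node (.node (.node (.node (lf (nat_lit 8) (nat_lit 2619014212306717609938223093113192337868555282288663)) (lf (nat_lit 12) (nat_lit 207499683639818210815768655941467399180434620081283486932900482227768229563011111)))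 (.node (lf (nat_lit 12) (nat_lit 207499683639818210815768656330577571932937208224745545072466292917844213648851095)) (lf (nat_lit 11) (nat_lit 12367944934357298065171757697781574460208477095242984569439503169399890992)))) (.node (.node (lf (nat_lit 14) (nat_lit 58405968619986318710470073387692470176613360384045582855045537514869109441494376768462156595223)) (lf (nat_lit 12) (nat_lit 207499683639818210815768655941467399180434620081283486932900483344660937150890007))) (lf (nat_lit 6) (nat_lit 3987695713124783123833595903839570980)))) (.node (.node (.node (lf (nat_lit 11) (nat_lit 12367944934357298065171757720974350164525184891904486812296473451568349219)) (lf (nat_lit 11) (nat_lit 12367944934357298065171757697781574460208477095242984569439502911701868592))) (.node (lf (nat_lit 12) (nat_lit 207499683639818210815768656384454379977100940296361257180751780813491302928810007)) (lf (nat_lit 2) (nat_lit 117440659)))) (.node (.node (lf (nat_lit 14) (nat_lit 58405968619986318710470073387692463648427944692002167593084298506967024178244583685067154522135))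 (lf (nat_lit 9) (nat_lit 18831360579537377995412053443969899579416567425001743983136))) (lf (nat_lit 9) (nat_lit 43939767146942536389430805224415149551547265219232050208947)))))))

/-- the table -/
noncomputable def T : Tr := T0

/-- part of the certificates -/
def L0 : List Prf := [(.br (nat_lit 3) (nat_lit 0) (.cons (.br (nat_lit 4) (nat_lit 0) (.cons (.br (nat_lit 5) (nat_lit 0) .nil) .nil)) (.cons (.br (nat_lit 4) (nat_lit 0) (.cons (.br (nat_lit 4) (nat_lit 0) .nil) .nil)) .nil))),
 (.br (nat_lit 4) (nat_lit 1) (.cons (.br (nat_lit 4) (nat_lit 1) (.cons (.br (nat_lit 5) (nat_lit 0) (.cons (.br (nat_lit 6) (nat_lit 0) (.cons (.br (nat_lit 2) (nat_lit 0) (.cons (.kr (nat_lit 72057594037928192) (nat_lit 4295032832) (nat_lit 1) (nat_lit 0)) (.cons (.rf (nat_lit 0) (nat_lit 8622145)) .nil))) .nil)) .nil)) .nil)) .nil)),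
 (.br (nat_lit 4) (nat_lit 0) (.cons (.br (nat_lit 5) (nat_lit 0) .nil) .nil)),
 (.br (nat_lit 6) (nat_lit 1) (.cons (.br (nat_lit 6) (nat_lit 1) .nil) .nil)),
 (.br (nat_lit 10) (nat_lit 1) (.cons (.ev (nat_lit 7281907636234392738791940) (nat_lit 3)) (.cons (.br (nat_lit 11) (nat_lit 1) (.cons (.ev (nat_lit 621387889801003638085320706) (nat_lit 2)) (.cons (.rf (nat_lit 3) (nat_lit 459941384224)) .nil))) .nil))),
 (.br (nat_lit 5) (nat_lit 1) (.cons (.br (nat_lit 5) (nat_lit 1) .nil) .nil)),
 (.br (nat_lit 11) (nat_lit 1) (.cons (.zr (nat_lit 2427296372200495198175234) (nat_lit 618970038162336230211059712) (nat_lit 8) (nat_lit 2)) .nil)),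
 (.br (nat_lit 0) (nat_lit 1) (.cons (.ev (nat_lit 4722366765448445362433) (nat_lit 1)) (.cons (.ev (nat_lit 1208944338416301217153281) (nat_lit 1)) (.cons (.br (nat_lit 9) (nat_lit 1) (.cons (.ev (nat_lit 9463252049990166708736) (nat_lit 2)) (.cons (.rf (nat_lit 4) (nat_lit 407901468851537952)) (.cons (.br (nat_lit 10) (nat_lit 1) (.cons (.rf (nat_lit 4) (nat_lit 406810753316784160)) (.cons (.br (nat_lit 12) (nat_lit 1) (.cons (.ev (nat_lit 316915077371949194771634913796) (nat_lit 3)) (.cons (.rf (nat_lit 5) (nat_lit 459941384224)) .nil))) (.cons (.br (nat_lit 11) (nat_lit 1) (.cons (.rf (nat_lit 6) (nat_lit 493858305440582043680)) (.cons (.rf (nat_lit 6) (nat_lit 458116648082235033632)) .nil))) .nil)))) .nil)))) .nil)))),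
 (.br (nat_lit 10) (nat_lit 1) (.cons (.ev (nat_lit 7263018171433229291160068) (nat_lit 3)) (.cons (.br (nat_lit 11) (nat_lit 1) (.cons (.ev (nat_lit 621387889801003638085320706) (nat_lit 2)) (.cons (.rf (nat_lit 3) (nat_lit 459941225504)) .nil))) .nil))),
 (.br (nat_lit 12) (nat_lit 1) (.cons (.zr (nat_lit 2417851639232565474426882) (nat_lit 158456325047047758329895976960) (nat_lit 8) (nat_lit 2)) .nil)),
 (.br (nat_lit 0) (nat_lit 1) (.cons (.ev (nat_lit 1213648186097498836762881) (nat_lit 1)) (.cons (.rf (nat_lit 8) (nat_lit 407901468851537952)) (.cons (.br (nat_lit 10) (nat_lit 1) (.cons (.br (nat_lit 11) (nat_lit 1) (.cons (.ev (nat_lit 1240367354177224672358236676) (nat_lit 3)) (.cons (.rf (nat_lit 5) (nat_lit 458901038112)) .nil))) (.cons (.rf (nat_lit 8) (nat_lit 436887721062178080)) (.cons (.br (nat_lit 11) (nat_lit 1) (.cons (.rf (nat_lit 9) (nat_lit 493858305440582043680)) (.cons (.br (nat_lit 11) (nat_lit 1) (.cons (.rf (nat_lit 9) (nat_lit 493858305440582043680)) .nil)) .nil))) .nil)))) .nil)))),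
 (.br (nat_lit 11) (nat_lit 1) (.cons (.ev (nat_lit 79537652246452448110714093825) (nat_lit 1)) (.cons (.zr (nat_lit 2427296372200512378569728) (nat_lit 618970038162336230345277442) (nat_lit 24) (nat_lit 2)) .nil))),
 (.br (nat_lit 0) (nat_lit 1) (.cons (.rf (nat_lit 11) (nat_lit 493858305440582043680)) (.cons (.rf (nat_lit 11) (nat_lit 458116648082235033632)) .nil))),
 (.br (nat_lit 0) (nat_lit 1) (.cons (.rf (nat_lit 12) (nat_lit 493858305440582043680)) (.cons (.br (nat_lit 12) (nat_lit 1) (.cons (.zr (nat_lit 2436741105168442102318080) (nat_lit 158456325047048884229937037314) (nat_lit 24) (nat_lit 2)) (.cons (.ev (nat_lit 20361638979832639943281850974465) (nat_lit 1)) .nil))) .nil))),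
 (.br (nat_lit 10) (nat_lit 1) (.cons (.ev (nat_lit 1213648186380073308323841) (nat_lit 1)) (.cons (.rf (nat_lit 3) (nat_lit 424473108512)) .nil))),
 (.br (nat_lit 11) (nat_lit 1) (.cons (.zr (nat_lit 618970019859707344493674496) (nat_lit 2417870085974440177303554) (nat_lit 8) (nat_lit 5)) .nil)),
 (.br (nat_lit 0) (nat_lit 1) (.cons (.ev (nat_lit 9463396167377265689090) (nat_lit 2)) (.cons (.ev (nat_lit 2427315035957377955332610) (nat_lit 2)) (.cons (.br (nat_lit 4) (nat_lit 1) (.cons (.ev (nat_lit 4740813228047161426176) (nat_lit 1)) (.cons (.br (nat_lit 10) (nat_lit 1) (.cons (.ev (nat_lit 7263018171433229291160068) (nat_lit 3)) (.cons (.rf (nat_lit 14) (nat_lit 445092451810674720)) .nil))) (.cons (.br (nat_lit 10) (nat_lit 1) (.cons (.rf (nat_lit 14) (nat_lit 444872372317920544)) (.cons (.br (nat_lit 12) (nat_lit 1) (.cons (.ev (nat_lit 316915077371949194771634913796) (nat_lit 3)) (.cons (.rf (nat_lit 5) (nat_lit 459941225504)) .nil))) (.cons (.br (nat_lit 11) (nat_lit 1) (.cons (.rf (nat_lit 15) (nat_lit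 493858305440582043680)) (.cons (.rf (nat_lit 15) (nat_lit 458110696254001650976)) .nil))) .nil)))) .nil)))) .nil)))),
 (.br (nat_lit 6) (nat_lit 1) (.cons (.br (nat_lit 6) (nat_lit 1) .nil) .nil)),
 (.br (nat_lit 0) (nat_lit 1) (.cons (.br (nat_lit 10) (nat_lit 1) (.cons (.ev (nat_lit 1208944266641277372661761) (nat_lit 1)) (.cons (.rf (nat_lit 17) (nat_lit 424473267232)) .nil))) .nil)),
 (.br (nat_lit 9) (nat_lit 1) (.cons (.kr (nat_lit 18446744078004518913) (nat_lit 4722438540463683141888) (nat_lit 0) (nat_lit 2)) .nil)),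
 (.br (nat_lit 10) (nat_lit 1) (.cons (.ev (nat_lit 1208944266359806690918656) (nat_lit 1)) (.cons (.br (nat_lit 11) (nat_lit 1) (.cons (.rf (nat_lit 18) (nat_lit 12746887583107104)) (.cons (.br (nat_lit 11) (nat_lit 1) (.cons (.rf (nat_lit 18) (nat_lit 12746887583107104)) (.cons (.br (nat_lit 0) (nat_lit 1) (.cons (.rf (nat_lit 19) (nat_lit 481886400377265483)) (.cons (.rf (nat_lit 19) (nat_lit 446983503265144139)) .nil))) .nil))) .nil))) .nil))),
 (.br (nat_lit 10) (nat_lit 1) (.cons (.ev (nat_lit 7281907636234392738791940) (nat_lit 3)) (.cons (.br (nat_lit 11) (nat_lit 1) (.cons (.ev (nat_lit 310693935713298766930903041) (nat_lit 1)) (.cons (.rf (nat_lit 3) (nat_lit 459941384224)) .nil))) .nil))),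
 (.br (nat_lit 12) (nat_lit 1) (.cons (.zr (nat_lit 2427296444255890229428226) (nat_lit 158456325083869188883193462784) (nat_lit 8) (nat_lit 7)) .nil)),
 (.br (nat_lit 0) (nat_lit 1) (.cons (.ev (nat_lit 2417870302430896324674050) (nat_lit 2)) (.cons (.rf (nat_lit 21) (nat_lit 407901468851537952)) (.cons (.br (nat_lit 10) (nat_lit 1) (.cons (.br (nat_lit 11) (nat_lit 1) (.cons (.ev (nat_lit 1240367354177224672358236676) (nat_lit 3)) (.cons (.rf (nat_lit 5) (nat_lit 458901196832)) .nil))) (.cons (.rf (nat_lit 21) (nat_lit 442839550335748128)) (.cons (.br (nat_lit 11) (nat_lit 1) (.cons (.rf (nat_lit 22) (nat_lit 493858305440582043680)) (.cons (.br (nat_lit 11) (nat_lit 1) (.cons (.rf (nat_lit 22) (nat_lit 493858305440582043680)) .nil)) .nil))) .nil)))) .nil)))),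
 (.br (nat_lit 0) (nat_lit 1) (.cons (.br (nat_lit 11) (nat_lit 1) (.cons (.ev (nat_lit 159075304511567532701803151874) (nat_lit 2)) (.cons (.zr (nat_lit 618970020150189520459333634) (nat_lit 2436833338882213663474688) (nat_lit 24) (nat_lit 5)) .nil))) (.cons (.br (nat_lit 11) (nat_lit 1) (.cons (.zr (nat_lit 618970020150189520459333634) (nat_lit 2436833338882213663474688) (nat_lit 24) (nat_lit 5)) (.cons (.ev (nat_lit 40565440604638019495409907466754) (nat_lit 2)) .nil))) .nil))),
 (.br (nat_lit 5) (nat_lit 0) (.cons (.br (nat_lit 6) (nat_lit 0) (.cons (.br (nat_lit 7) (nat_lit 1) (.cons (.br (nat_lit 7) (nat_lit 1) (.cons (.br (nat_lit 9) (nat_lit 0) (.cons (.br (nat_lit 8) (nat_lit 1) (.cons (.br (nat_lit 9) (nat_lit 1) (.cons (.rf (nat_lit 16) (nat_lit 11584701642934304)) (.cons (.rf (nat_lit 20) (nat_lit 11584701642934304)) (.cons (.kr (nat_lit 4722366482869645213696) (nat_lit 1208925819614629174706176) (nat_lit 9) (nat_lit 0)) (.cons (.br (nat_lit 4) (nat_lit 1) (.cons (.rf (nat_lit 23) (nat_lit 407901468851537952))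 (.cons (.rf (nat_lit 20) (nat_lit 10493986108180512)) (.cons (.rf (nat_lit 16) (nat_lit 11584701639788683)) (.cons (.br (nat_lit 10) (nat_lit 1) (.cons (.rf (nat_lit 16) (nat_lit 10493986108180512)) (.cons (.rf (nat_lit 23) (nat_lit 4542157874797867)) (.cons (.rf (nat_lit 16) (nat_lit 10493986105034892)) (.cons (.br (nat_lit 0) (nat_lit 1) (.cons (.rf (nat_lit 24) (nat_lit 493858305440582043680)) (.cons (.br (nat_lit 0) (nat_lit 1) (.cons (.rf (nat_lit 24) (nat_lit 493858305440582043680)) (.cons (.rf (nat_lit 24) (nat_lit 420142296024247011360)) .nil))) (.cons (.rf (nat_lit 24) (nat_lit 420142296024247011360)) .nil)))) .nil))))) .nil))))) .nil))))) .nil)) .nil)) .nil)) .nil)) .nil)) .nil)),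
 (.br (nat_lit 6) (nat_lit 1) (.cons (.br (nat_lit 6) (nat_lit 1) .nil) .nil)),
 (.br (nat_lit 5) (nat_lit 0) (.cons (.rf (nat_lit 26) (nat_lit 6614517792)) (.cons (.br (nat_lit 6) (nat_lit 0) (.cons (.rf (nat_lit 0) (nat_lit 6523041)) (.cons (.br (nat_lit 6) (nat_lit 0) (.cons (.rf (nat_lit 0) (nat_lit 6555809)) .nil)) .nil))) .nil))),
 (.br (nat_lit 5) (nat_lit 0) (.cons (.ev (nat_lit 282574488404224) (nat_lit 1)) (.cons (.rf (nat_lit 0) (nat_lit 6364197)) (.cons (.br (nat_lit 6) (nat_lit 0) (.cons (.br (nat_lit 7) (nat_lit 0) (.cons (.rf (nat_lit 26) (nat_lit 8762001440)) .nil)) (.cons (.rf (nat_lit 2) (nat_lit 5511233)) .nil))) .nil)))),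
 (.br (nat_lit 5) (nat_lit 0) (.cons (.kr (nat_lit 281474976710912) (nat_lit 1099511693312) (nat_lit 1) (nat_lit 0)) (.cons (.rf (nat_lit 0) (nat_lit 8587425)) .nil))),
 (.br (nat_lit 9) (nat_lit 1) (.cons (.kr (nat_lit 2207613190146) (nat_lit 9444805304808321908736) (nat_lit 0) (nat_lit 1)) .nil)),
 (.br (nat_lit 0) (nat_lit 1) (.cons (.ev (nat_lit 72902027608523264) (nat_lit 2)) (.cons (.ev (nat_lit 72904218008158720) (nat_lit 2)) (.cons (.br (nat_lit 4) (nat_lit 1) (.cons (.ev (nat_lit 18447588507263369984) (nat_lit 2)) (.cons (.ev (nat_lit 281479271678209) (nat_lit 1)) (.cons (.br (nat_lit 5) (nat_lit 1) (.cons (.ev (nat_lit 282574505181441) (nat_lit 1)) (.cons (.br (nat_lit 10) (nat_lit 1) (.cons (.ev (nat_lit 2417851711568335970959874) (nat_lit 2)) (.cons (.rf (nat_lit 5) (nat_lit 389001912352)) .nil))) (.cons (.br (nat_lit 9) (nat_lit 1) (.cons (.rf (nat_lit 30) (nat_lit 407901468851537952)) (.cons (.rf (nat_lit 30) (nat_lit 372998538420882464)) .nil))) .nil)))) .nil)))) .nil)))),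
 (.br (nat_lit 9) (nat_lit 1) (.cons (.kr (nat_lit 72339069014638594) (nat_lit 9444732965739307270144) (nat_lit 0) (nat_lit 1)) (.cons (.rf (nat_lit 17) (nat_lit 389005086752)) .nil))),
 (.br (nat_lit 9) (nat_lit 1) (.cons (.ev (nat_lit 9481699355914284367874) (nat_lit 2)) (.cons (.rf (nat_lit 17) (nat_lit 389002039328)) .nil))),
 (.br (nat_lit 5) (nat_lit 1) (.cons (.rf (nat_lit 33) (nat_lit 11584701642934304)) (.cons (.rf (nat_lit 33) (nat_lit 10493986108180512)) (.cons (.br (nat_lit 9) (nat_lit 1) (.cons (.br (nat_lit 9) (nat_lit 1) (.cons (.kr (nat_lit 2207613190146) (nat_lit 9444805304808321908736) (nat_lit 0) (nat_lit 1)) .nil)) (.cons (.br (nat_lit 9) (nat_lit 1) (.cons (.kr (nat_lit 2207613190146) (nat_lit 9444805304808321908736) (nat_lit 0) (nat_lit 1)) .nil)) .nil))) .nil)))),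
 (.br (nat_lit 10) (nat_lit 1) (.cons (.kr (nat_lit 1208925819615732981301249) (nat_lit 309489750634572012079546624) (nat_lit 0) (nat_lit 2)) .nil)),
 (.br (nat_lit 5) (nat_lit 1) (.cons (.rf (nat_lit 34) (nat_lit 11584668324400160)) (.cons (.ev (nat_lit 4722366482873956958464) (nat_lit 1)) (.cons (.br (nat_lit 9) (nat_lit 1) (.cons (.ev (nat_lit 36965827225074073600) (nat_lit 2)) (.cons (.kr (nat_lit 2417851639510733326188544) (nat_lit 9444805023333345132544) (nat_lit 2) (nat_lit 0)) (.cons (.br (nat_lit 10) (nat_lit 1) (.cons (.ev (nat_lit 36965829415473971200) (nat_lit 2)) (.cons (.ev (nat_lit 2446185912156619939316740) (nat_lit 3)) .nil))) .nil)))) (.cons (.br (nat_lit 8) (nat_lit 1) (.cons (.ev (nat_lit 36965827225074073600) (nat_lit 2)) (.cons (.br (nat_lit 9) (nat_lit 1) (.cons (.kr (nat_lit 72339069014638594) (nat_lit 2417851639229258366255104) (nat_lit 0) (nat_lit 1)) (.cons (.rf (nat_lit 35) (nat_lit 407901468851537952)) .nil))) (.cons (.ev (nat_lit 36965829415473971200) (nat_lit 2)) .nil)))) .nil))))),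
 (.br (nat_lit 3) (nat_lit 0) (.cons (.br (nat_lit 0) (nat_lit 1) (.cons (.ev (nat_lit 72902027608523264) (nat_lit 2)) (.cons (.ev (nat_lit 72904218008158720) (nat_lit 2)) (.cons (.rf (nat_lit 31) (nat_lit 9043225708576)) (.cons (.br (nat_lit 0) (nat_lit 1) (.cons (.ev (nat_lit 72902027608523264) (nat_lit 2)) (.cons (.ev (nat_lit 72904218008158720) (nat_lit 2)) (.cons (.rf (nat_lit 31) (nat_lit 9043225708576)) (.cons (.br (nat_lit 4) (nat_lit 1) (.cons (.br (nat_lit 8) (nat_lit 1) (.cons (.rf (nat_lit 32) (nat_lit 11584701642934304)) (.cons (.rf (nat_lit 32) (nat_lit 10493986108180512)) (.cons (.br (nat_lit 9) (nat_lit 1) (.cons (.br (nat_lit 9) (nat_lit 1) (.cons (.ev (nat_lit 18963325816398164590596) (nat_lit 3)) .nil)) (.cons (.br (nat_lit 9) (nat_lit 1) (.cons (.ev (nat_lit 18963325816398164590596) (nat_lit 3)) .nil)) .nil))) .nil)))) (.cons (.rf (nat_lit 34) (nat_lit 11584701642934304)) (.cons (.rf (nat_lit 36) (nat_lit 11584701642934304)) (.cons (.rf (nat_lit 36) (nat_lit 10493986108180512)) (.cons (.br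 (nat_lit 5) (nat_lit 1) (.cons (.rf (nat_lit 34) (nat_lit 11584668324400160)) (.cons (.rf (nat_lit 36) (nat_lit 11584668324400160)) (.cons (.rf (nat_lit 36) (nat_lit 10493952789646368)) (.cons (.rf (nat_lit 31) (nat_lit 5741567215755)) .nil))))) .nil)))))) .nil))))) .nil))))) (.cons (.rf (nat_lit 0) (nat_lit 9641058)) .nil))),
 (.br (nat_lit 10) (nat_lit 1) (.cons (.br (nat_lit 11) (nat_lit 1) (.cons (.ev (nat_lit 80160244339778640002787836673) (nat_lit 2)) .nil)) .nil)),
 (.br (nat_lit 0) (nat_lit 1) (.cons (.ev (nat_lit 16843009) (nat_lit 1)) (.cons (.ev (nat_lit 1223129885453413137842690) (nat_lit 2)) (.cons (.br (nat_lit 8) (nat_lit 1) (.cons (.ev (nat_lit 4740885284541687726336) (nat_lit 1)) (.cons (.ev (nat_lit 4741029399738370359811) (nat_lit 2)) (.cons (.br (nat_lit 5) (nat_lit 1) (.cons (.br (nat_lit 11) (nat_lit 1) (.cons (.ev (nat_lit 1239163206064324025855967746) (nat_lit 3)) (.cons (.rf (nat_lit 3) (nat_lit 459939156000)) .nil))) (.cons (.br (nat_lit 12) (nat_lit 1) (.cons (.ev (nat_lit 316913863816140936145187046916)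 (nat_lit 3)) (.cons (.rf (nat_lit 5) (nat_lit 459939156000)) .nil))) (.cons (.br (nat_lit 11) (nat_lit 1) (.cons (.rf (nat_lit 38) (nat_lit 15433070910038444064)) (.cons (.br (nat_lit 11) (nat_lit 1) (.cons (.rf (nat_lit 38) (nat_lit 15433070910038444064)) .nil)) .nil))) .nil)))) .nil)))) .nil)))),
 (.br (nat_lit 9) (nat_lit 1) (.cons (.kr (nat_lit 1103806595073) (nat_lit 4740813226943354765568) (nat_lit 0) (nat_lit 2)) .nil)),
 (.br (nat_lit 5) (nat_lit 1) (.cons (.ev (nat_lit 1208944338417396433879296) (nat_lit 1)) (.cons (.br (nat_lit 0) (nat_lit 1) (.cons (.rf (nat_lit 18) (nat_lit 39791069764779)) (.cons (.br (nat_lit 0) (nat_lit 1) (.cons (.rf (nat_lit 18) (nat_lit 39791069764779)) (.cons (.br (nat_lit 11) (nat_lit 1) (.cons (.rf (nat_lit 40) (nat_lit 482281231447328800)) (.cons (.rf (nat_lit 40) (nat_lit 447378334335207456)) .nil))) .nil))) .nil))) .nil))),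
 (.br (nat_lit 0) (nat_lit 1) (.cons (.ev (nat_lit 620183704939295198362533890) (nat_lit 2)) (.cons (.rf (nat_lit 3) (nat_lit 459569927307)) .nil))),
 (.br (nat_lit 0) (nat_lit 1) (.cons (.br (nat_lit 10) (nat_lit 1) (.cons (.kr (nat_lit 1208925819615732981301249) (nat_lit 309489750634572012079546624) (nat_lit 0) (nat_lit 2)) .nil)) .nil)),
 (.br (nat_lit 0) (nat_lit 1) (.cons (.rf (nat_lit 43) (nat_lit 407901468851537952)) (.cons (.br (nat_lit 0) (nat_lit 1) (.cons (.rf (nat_lit 43) (nat_lit 407901468851537952)) .nil)) .nil))),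
 (.br (nat_lit 0) (nat_lit 1) (.cons (.ev (nat_lit 72340172821233921) (nat_lit 1)) (.cons (.br (nat_lit 11) (nat_lit 1) (.cons (.rf (nat_lit 35) (nat_lit 447378334335207456)) (.cons (.ev (nat_lit 40565439400452868991445089976834) (nat_lit 2)) .nil))) .nil))),
 (.br (nat_lit 6) (nat_lit 0) (.cons (.rf (nat_lit 0) (nat_lit 9542726)) (.cons (.rf (nat_lit 2) (nat_lit 7545954)) (.cons (.br (nat_lit 7) (nat_lit 0) (.cons (.rf (nat_lit 2) (nat_lit 6530146)) (.cons (.br (nat_lit 9) (nat_lit 0) (.cons (.br (nat_lit 4) (nat_lit 1) (.cons (.rf (nat_lit 39) (nat_lit 11584701642934304)) (.cons (.ev (nat_lit 1223092919066549563817984) (nat_lit 2)) (.cons (.rf (nat_lit 41) (nat_lit 11584701642934304)) (.cons (.br (nat_lit 5) (nat_lit 1) (.cons (.rf (nat_lit 39) (nat_lit 11584668324400160)) (.cons (.rf (nat_lit 41) (nat_lit 11584668324400160)) (.cons (.br (nat_lit 8) (nat_lit 1) (.cons (.br (nat_lit 0) (nat_lit 1) (.cons (.ev (nat_lit 1213759372937631910790660) (nat_lit 3)) (.cons (.br (nat_lit 11) (nat_lit 1) (.cons (.ev (nat_lit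 1239153798368966045910369796) (nat_lit 3)) (.cons (.rf (nat_lit 5) (nat_lit 458895794208)) .nil))) .nil))) (.cons (.ev (nat_lit 309485028340428211448971264) (nat_lit 1)) (.cons (.br (nat_lit 11) (nat_lit 1) (.cons (.rf (nat_lit 42) (nat_lit 14242959524133701664)) (.cons (.rf (nat_lit 42) (nat_lit 406802915001604364)) (.cons (.rf (nat_lit 44) (nat_lit 482281231447328800)) .nil)))) .nil)))) (.cons (.br (nat_lit 8) (nat_lit 1) (.cons (.br (nat_lit 0) (nat_lit 1) (.cons (.rf (nat_lit 14) (nat_lit 444915292064319520)) (.cons (.rf (nat_lit 14) (nat_lit 409977175146662944)) (.cons (.rf (nat_lit 44) (nat_lit 481890901695858827)) .nil)))) (.cons (.rf (nat_lit 39) (nat_lit 10486147793000715)) (.cons (.rf (nat_lit 39) (nat_lit 10486114474466572)) (.cons (.br (nat_lit 0) (nat_lit 1) (.cons (.rf (nat_lit 45) (nat_lit 493858305440582043680)) (.cons (.rf (nat_lit 45) (nat_lit 492741412699675626528)) (.cons (.br (nat_lit 0) (nat_lit 1) (.cons (.rf (nat_lit 45) (nat_lit 493858305440582043680)) (.cons (.rf (nat_lit 45) (nat_lit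 492741412699675626528)) .nil))) .nil)))) .nil))))) .nil))))) .nil))))) .nil)) .nil))) .nil)))),
 (.br (nat_lit 4) (nat_lit 1) (.cons (.kr (nat_lit 72057594037927937) (nat_lit 4311744512) (nat_lit 0) (nat_lit 1)) (.cons (.rf (nat_lit 46) (nat_lit 284946619107465)) .nil))),
 (.br (nat_lit 6) (nat_lit 0) (.cons (.rf (nat_lit 2) (nat_lit 2302113)) (.cons (.br (nat_lit 8) (nat_lit 0) (.cons (.br (nat_lit 3) (nat_lit 1) (.cons (.rf (nat_lit 47) (nat_lit 9897789986983)) (.cons (.ev (nat_lit 36893772933865997056) (nat_lit 2)) (.cons (.rf (nat_lit 47) (nat_lit 10142737336352)) (.cons (.rf (nat_lit 46) (nat_lit 286081564181610)) .nil))))) .nil)) .nil))),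
 (.br (nat_lit 8) (nat_lit 1) (.cons (.ev (nat_lit 1213759084711653805326852) (nat_lit 3)) (.cons (.br (nat_lit 11) (nat_lit 1) (.cons (.ev (nat_lit 620193149527582791067435520) (nat_lit 2)) (.cons (.rf (nat_lit 3) (nat_lit 459939156000)) .nil))) .nil)))]

theorem c0 : chkAll C T R L0 (nat_lit 0) = true := by decide +kernel

theorem l0 : (nat_lit 0) + L0.length = (nat_lit 50) := by decide +kernel

/-- part of the certificates -/
def L1 : List Prf := [(.br (nat_lit 11) (nat_lit 1) (.cons (.ev (nat_lit 313116565058964948185711107) (nat_lit 2)) .nil)),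
 (.br (nat_lit 0) (nat_lit 1) (.cons (.ev (nat_lit 1223092991965257095381506) (nat_lit 2)) (.cons (.ev (nat_lit 1223092991402315765448706) (nat_lit 2)) (.cons (.br (nat_lit 5) (nat_lit 1) (.cons (.zr (nat_lit 14167172350627954032640) (nat_lit 1208962713104975617261568) (nat_lit 8) (nat_lit 10)) (.cons (.rf (nat_lit 49) (nat_lit 407901468851537952)) (.cons (.br (nat_lit 8) (nat_lit 1) (.cons (.rf (nat_lit 49) (nat_lit 407898167193045120)) (.cons (.br (nat_lit 12) (nat_lit 1) (.cons (.ev (nat_lit 316913863816140936145187046916) (nat_lit 3)) (.cons (.rf (nat_lit 5) (nat_lit 459939156000)) .nil))) (.cons (.br (nat_lit 11) (nat_lit 1) (.cons (.rf (nat_lit 50) (nat_lit 493858305440582043680)) (.cons (.rf (nat_lit 50) (nat_lit 458117735496111294592)) .nil))) .nil)))) .nil)))) .nil)))),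
 (.br (nat_lit 0) (nat_lit 1) (.cons (.ev (nat_lit 310693954087986350392410113) (nat_lit 1)) (.cons (.rf (nat_lit 3) (nat_lit 459569927307)) .nil))),
 (.br (nat_lit 8) (nat_lit 1) (.cons (.br (nat_lit 0) (nat_lit 1) (.cons (.ev (nat_lit 1213759372937631910790660) (nat_lit 3)) (.cons (.br (nat_lit 11) (nat_lit 1) (.cons (.ev (nat_lit 1239153798368966045910369796) (nat_lit 3)) (.cons (.rf (nat_lit 5) (nat_lit 458895794208)) .nil))) .nil))) (.cons (.ev (nat_lit 620193149671695780119904256) (nat_lit 2)) (.cons (.br (nat_lit 11) (nat_lit 1) (.cons (.rf (nat_lit 52) (nat_lit 14242959524133701664)) (.cons (.rf (nat_lit 52) (nat_lit 406802915001604364)) (.cons (.rf (nat_lit 44) (nat_lit 482281231447328800)) .nil)))) .nil)))),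
 (.br (nat_lit 0) (nat_lit 1) (.cons (.ev (nat_lit 1223093135519702864429570) (nat_lit 2)) (.cons (.br (nat_lit 11) (nat_lit 1) (.cons (.kr (nat_lit 282574488338433) (nat_lit 309485028268089142451109888) (nat_lit 0) (nat_lit 1)) (.cons (.ev (nat_lit 620193149672258738629706240) (nat_lit 2)) .nil))) .nil))),
 (.br (nat_lit 1) (nat_lit 0) (.cons (.br (nat_lit 1) (nat_lit 0) (.cons (.br (nat_lit 2) (nat_lit 1) (.cons (.br (nat_lit 3) (nat_lit 1) (.cons (.br (nat_lit 2) (nat_lit 0) (.cons (.kr (nat_lit 65536) (nat_lit 16777216) (nat_lit 2) (nat_lit 0)) (.cons (.rf (nat_lit 1) (nat_lit 5377089)) (.cons (.br (nat_lit 3) (nat_lit 0) (.cons (.br (nat_lit 5) (nat_lit 0) (.cons (.br (nat_lit 6) (nat_lit 1) (.cons (.br (nat_lit 7) (nat_lit 0) (.cons (.rf (nat_lit 2) (nat_lit 8590434)) .nil)) .nil)) (.cons (.br (nat_lit 6) (nat_lit 0) (.cons (.br (nat_lit 6) (nat_lit 0) (.cons (.br (nat_lit 7) (nat_lit 1) (.cons (.br (nat_lit 7) (nat_lit 1) (.cons (.br (nat_lit 9) (nat_lit 0) (.cons (.br (nat_lit 8) (nat_lit 1) (.cons (.br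 (nat_lit 4) (nat_lit 1) (.cons (.rf (nat_lit 7) (nat_lit 11584701642934304)) (.cons (.kr (nat_lit 281479271677952) (nat_lit 4722366483969156841472) (nat_lit 4) (nat_lit 0)) (.cons (.kr (nat_lit 281479271677952) (nat_lit 1208925819615728686333952) (nat_lit 4) (nat_lit 0)) (.cons (.br (nat_lit 9) (nat_lit 1) (.cons (.rf (nat_lit 10) (nat_lit 407901468851537952)) (.cons (.kr (nat_lit 4722366482869645213696) (nat_lit 1208925819614629174706176) (nat_lit 9) (nat_lit 0)) (.cons (.rf (nat_lit 10) (nat_lit 11584701639788683)) (.cons (.br (nat_lit 10) (nat_lit 1) (.cons (.rf (nat_lit 10) (nat_lit 406810753316784160)) (.cons (.rf (nat_lit 10) (nat_lit 10493986105034891)) (.cons (.rf (nat_lit 7) (nat_lit 4542156834610476)) (.cons (.br (nat_lit 0) (nat_lit 1) (.cons (.rf (nat_lit 12) (nat_lit 493858305440582043680)) (.cons (.rf (nat_lit 13) (nat_lit 493858305440582043680)) (.cons (.rf (nat_lit 13) (nat_lit 458116648082235033632)) .nil)))) .nil))))) .nil))))) .nil))))) .nil)) .nil)) .nil)) .nil)) .nil)) .nil)) .nil))) (.cons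 (.rf (nat_lit 1) (nat_lit 6424673)) (.cons (.br (nat_lit 5) (nat_lit 0) (.cons (.rf (nat_lit 25) (nat_lit 6614517792)) (.cons (.br (nat_lit 5) (nat_lit 0) (.cons (.rf (nat_lit 25) (nat_lit 6614517792)) (.cons (.rf (nat_lit 2) (nat_lit 3413218)) .nil))) .nil))) .nil)))) .nil)))) (.cons (.br (nat_lit 4) (nat_lit 0) (.cons (.br (nat_lit 5) (nat_lit 0) (.cons (.br (nat_lit 2) (nat_lit 0) (.cons (.rf (nat_lit 27) (nat_lit 206703681)) (.cons (.rf (nat_lit 27) (nat_lit 105945156)) (.cons (.rf (nat_lit 26) (nat_lit 7722896449)) (.cons (.br (nat_lit 3) (nat_lit 0) (.cons (.rf (nat_lit 27) (nat_lit 71342181)) (.cons (.rf (nat_lit 28) (nat_lit 7722896449)) (.cons (.rf (nat_lit 0) (nat_lit 7544899)) (.cons (.br (nat_lit 6) (nat_lit 0) (.cons (.rf (nat_lit 28) (nat_lit 7622137924)) (.cons (.rf (nat_lit 28) (nat_lit 8661276773)) (.cons (.rf (nat_lit 0) (nat_lit 7447622)) .nil)))) .nil))))) .nil))))) (.cons (.br (nat_lit 6) (nat_lit 1) (.cons (.br (nat_lit 7) (nat_lit 1) (.cons (.br (nat_lit 2) (nat_lit 0) (.cons (.rf (nat_lit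 29) (nat_lit 282600803393)) (.cons (.rf (nat_lit 29) (nat_lit 179423975492)) (.cons (.rf (nat_lit 37) (nat_lit 9043225708576)) (.cons (.br (nat_lit 3) (nat_lit 0) (.cons (.rf (nat_lit 0) (nat_lit 9672771)) (.cons (.rf (nat_lit 0) (nat_lit 9641027)) (.cons (.rf (nat_lit 46) (nat_lit 325702574508064)) (.cons (.br (nat_lit 6) (nat_lit 0) (.cons (.rf (nat_lit 0) (nat_lit 9542726)) (.cons (.rf (nat_lit 48) (nat_lit 362021926341697)) (.cons (.br (nat_lit 7) (nat_lit 0) (.cons (.br (nat_lit 9) (nat_lit 0) (.cons (.br (nat_lit 4) (nat_lit 1) (.cons (.rf (nat_lit 51) (nat_lit 11584701642934304)) (.cons (.ev (nat_lit 4722438821942954819584) (nat_lit 1)) (.cons (.zr (nat_lit 3626777675298144614809600) (nat_lit 4759259971025704583168) (nat_lit 8) (nat_lit 9)) (.cons (.br (nat_lit 5) (nat_lit 1) (.cons (.rf (nat_lit 51) (nat_lit 10493952789646368)) (.cons (.zr (nat_lit 14167172350627954032640) (nat_lit 1208962713104975617261568) (nat_lit 8) (nat_lit 10)) (.cons (.rf (nat_lit 53) (nat_lit 407901468851537952)) (.cons (.br (nat_lit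 8) (nat_lit 1) (.cons (.rf (nat_lit 53) (nat_lit 11581399984441483)) (.cons (.rf (nat_lit 51) (nat_lit 10490551078033547)) (.cons (.rf (nat_lit 51) (nat_lit 11580131667713196)) (.cons (.br (nat_lit 0) (nat_lit 1) (.cons (.rf (nat_lit 54) (nat_lit 493858305440582043680)) (.cons (.rf (nat_lit 54) (nat_lit 492740321984140872736)) (.cons (.br (nat_lit 0) (nat_lit 1) (.cons (.rf (nat_lit 54) (nat_lit 493858305440582043680)) (.cons (.rf (nat_lit 54) (nat_lit 492740321984140872736)) .nil))) .nil)))) .nil))))) .nil))))) .nil))))) .nil)) (.cons (.rf (nat_lit 2) (nat_lit 2336963)) .nil))) .nil)))) .nil))))) .nil))))) .nil)) .nil)) .nil))) .nil)) .nil))) .nil)) .nil)) .nil)),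
 (.br (nat_lit 1) (nat_lit 1) (.cons (.kr (nat_lit 1) (nat_lit 256) (nat_lit 0) (nat_lit 2)) (.cons (.rf (nat_lit 55) (nat_lit 129)) .nil))),
 (.br (nat_lit 0) (nat_lit 1) (.cons (.rf (nat_lit 55) (nat_lit 32)) (.cons (.br (nat_lit 0) (nat_lit 1) (.cons (.rf (nat_lit 55) (nat_lit 64)) (.cons (.br (nat_lit 0) (nat_lit 1) (.cons (.rf (nat_lit 55) (nat_lit 96)) (.cons (.br (nat_lit 1) (nat_lit 1) (.cons (.rf (nat_lit 56) (nat_lit 100384)) (.cons (.rf (nat_lit 56) (nat_lit 68640)) (.cons (.rf (nat_lit 55) (nat_lit 129)) .nil)))) .nil))) .nil))) .nil)))]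

theorem c1 : chkAll C T R L1 (nat_lit 50) = true := by decide +kernel

theorem l1 : (nat_lit 50) + L1.length = (nat_lit 58) := by decide +kernel

theorem r : isRoot (T.get (nat_lit 57)) (nat_lit 7) = true := by decide +kernel

theorem no {V : Type} [Fintype V] {Nb : V → Finset V} {x : V → ℤ} (H : Hyp C Nb x)
    (hR : ∀ t, (univ.filter (fun w => ty Nb x w = t)).card ≤ R / 16 ^ t % 16) (v : V)
    (hv : ty Nb x v = 7) : False := by
  have h0 : ∀ i < (nat_lit 0), ∀ φ, ¬ PEmb Nb x (T.get i) φ := fun i hi => absurd hi (Nat.not_lt_zero i)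
  have h1 := chkAll_sound H hR c0 h0
  rw [l0] at h1
  have h2 := chkAll_sound H hR c1 h1
  rw [l1] at h2
  exact no_root h2 (Nat.lt_succ_self (nat_lit 57)) r v hv

end N14_4_4

namespace N14_6_0

open Finset Classical

/-- degree, order and types -/
def C : Cl := ⟨nat_lit 3,nat_lit 14,[nat_lit 3,nat_lit 7,nat_lit 4,nat_lit 0]⟩

/-- the numbers of vertices of each type -/
def R : ℕ := nat_lit 417794

/-- part of the table -/
noncomputable def T0 : Tr := (.node (.node (.node (.node (.node (.node (lf (nat_lit 11) (nat_lit 7067403740021335330298000310545280276026972200338955304332201225021816835)) (lf (nat_lit 13) (nat_lit 4387131162906407787147496386964218554531889019550167338188800915138482050059866148))) (.node (lf (nat_lit 13) (nat_lit 4387131162906407787154928475418916338527536587848106174793426615395878030452875316)) (lf (nat_lit 13) (nat_lit 4387131162906407787147496386964218508503150929783762249932813301847946854943236132)))) (.node (.node (lf (nat_lit 13) (nat_lit 4387131162906463392038401288000626801115125689762413454700720711736867142968164388))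 (lf (nat_lit 14) (nat_lit 73603847140411991229055570743318278960589326997759278624715916911063202188498682024820880))) (lf (nat_lit 13) (nat_lit 4387131162906407787147496387736452589642605480841344353288893274413646360543895588)))) (.node (.node (.node (lf (nat_lit 11) (nat_lit 7067403740021335330298000310545277532500552427180680259353387814308806659)) (lf (nat_lit 14) (nat_lit 73603847140411991229070735713318551195473757972232630927915606477931362960005188242407440))) (.node (lf (nat_lit 7) (nat_lit 196725765163913539263681550970808960019)) (lf (nat_lit 13) (nat_lit 4387131162906407787147496386964218508503150929782462908145026177030474365906526244)))) (.node (.node (lf (nat_lit 5) (nat_lit 698910316870339559162388)) (lf (nat_lit 8) (nat_lit 3300510654920252853546355074710087220580058132))) (lf (nat_lit 9) (nat_lit 55373380167898544898563565101107270678511349561045172))))) (.node (.node (.node (.node (lf (nat_lit 14) (nat_lit 73603847140412924124320938703464725516179356136700124958844631572006321116708269264994320))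 (lf (nat_lit 13) (nat_lit 4387131162906407787148400289614114236561881373227097833142499546711347764131926052))) (.node (lf (nat_lit 13) (nat_lit 4387131162906407787154024572769020656497544425579995663857393574360091889852620836)) (lf (nat_lit 13) (nat_lit 4387131162906407787147496386964218508503150929783762249932813301807414460712820772)))) (.node (.node (lf (nat_lit 13) (nat_lit 4387131162906463392037497385350731119085133336085471550736801972552864321998307508)) (lf (nat_lit 13) (nat_lit 4387131162906407787147496386964218554531889019550155929178580807527344668015726772))) (lf (nat_lit 8) (nat_lit 3300510654920252853546355075291051537882678292)))) (.node (.node (.node (lf (nat_lit 10) (nat_lit 421250089408340615151526062948288969232072065577593475327456215059)) (lf (nat_lit 13) (nat_lit 4387131162906407787147496386964218554531889210958987322206466505675561348385345572))) (.node (lf (nat_lit 13) (nat_lit 4387131162906407787147496387736452589642605480841344353288893274413646362959814692)) (lf (nat_lit 2) (nat_lit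 148)))) (.node (.node (lf (nat_lit 13) (nat_lit 4387131162906407787154928475418916338527536779256937567821312313544094710822477860)) (lf (nat_lit 13) (nat_lit 4387131162906407787148400289614114190533143283460704153896732040991417279266758692))) (lf (nat_lit 13) (nat_lit 4387131162906407787147496386964218554531889210958987322361284559222085294728810532)))))) (.node (.node (.node (.node (.node (lf (nat_lit 14) (nat_lit 73603847140412924124320938703464725516179356136700316367676024599892000813677276297691152)) (lf (nat_lit 13) (nat_lit 4387131162906407787148400289614114236561881564635929226170385244859564169355202596))) (.node (lf (nat_lit 13) (nat_lit 4387131162906407787154928475418916338527536587848106174793426615395878030452858916)) (lf (nat_lit 13) (nat_lit 4387131162906407787147496387155780451133700052380551814963736037852865790226727056)))) (.node (.node (lf (nat_lit 13) (nat_lit 4387131162906463392037497385350731119085133336085482959592204026617477792327155748)) (lf (nat_lit 13) (nat_lit 4387131162906407787147496386964218554531889019550155929178580807527344670431645732)))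 (lf (nat_lit 13) (nat_lit 4387131162906407787147496387736452589642602737314761053222531600955873941912559636)))) (.node (.node (.node (lf (nat_lit 8) (nat_lit 1496580954836945718794275929569042806236047527120916)) (lf (nat_lit 13) (nat_lit 4387131162906407787148400289614114236561881373227097833142499546711347488985583652))) (.node (lf (nat_lit 13) (nat_lit 4387131162906407787147496387736452589642608203100615648089609292045821316570679348)) (lf (nat_lit 12) (nat_lit 261493394548082815834730648217452675610968525992778712996544014036055887892)))) (.node (.node (lf (nat_lit 8) (nat_lit 1496580954836584168821254901045496210752355600173076)) (lf (nat_lit 13) (nat_lit 4387131162906407787148400289614114190533143283460704153896732045607606897321517092))) (lf (nat_lit 11) (nat_lit 15586220893149543752356210244742195508151954966359943865167421440019))))) (.node (.node (.node (.node (lf (nat_lit 14) (nat_lit 73603847140412924124305773733464453281294855940713867825422103706154340192904328853848080)) (lf (nat_lit 13) (nat_lit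 4387131162906407787148400289614114236561881373227097833142499546711347488985600052))) (.node (lf (nat_lit 13) (nat_lit 4387131162906407787154024572769020656497544234171164270829507876211875209482870804)) (lf (nat_lit 12) (nat_lit 261493394548082815834730648217452675610968525992856159802246886599505743892)))) (.node (.node (lf (nat_lit 13) (nat_lit 4387131162906463392037497385350731119085133336085471550736801972552864321998176276)) (lf (nat_lit 13) (nat_lit 4387131162906407787147496386964218554531889019550155929178580807527344668015595540))) (lf (nat_lit 10) (nat_lit 25108509831268123856545344489434555425112286034336650625172)))) (.node (.node (.node (lf (nat_lit 12) (nat_lit 118571359105574432388174743132867032646241468806660650760192327713186098087731220)) (lf (nat_lit 13) (nat_lit 4387131162906407787147496386964218554531889019550167338033982861591958138344575012))) (.node (lf (nat_lit 13) (nat_lit 4387131162906407787147496387736452589642605480841344353288893274413646360543895732)) (lf (nat_lit 1) (nat_lit 0))))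 (.node (.node (lf (nat_lit 13) (nat_lit 4387131162906407787154928475418916338527536587848106174793426615395878305599201316)) (lf (nat_lit 13) (nat_lit 4387131162906407787147496386964218508503150929783762249932813301847946854943238196))) (lf (nat_lit 13) (nat_lit 4387131162906407787147496386964218554531889210958987322361284559222085260100636708)))))))

/-- the table -/
noncomputable def T : Tr := T0

/-- part of the certificates -/
def L0 : List Prf := [(.br (nat_lit 10) (nat_lit 0) (.cons (.br (nat_lit 10) (nat_lit 0) .nil) .nil)),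
 (.br (nat_lit 5) (nat_lit 0) (.cons (.ev (nat_lit 72340172821299201) (nat_lit 1)) (.cons (.ev (nat_lit 79229371440083953326542028801) (nat_lit 1)) .nil))),
 (.br (nat_lit 0) (nat_lit 0) (.cons (.ev (nat_lit 1103806595329) (nat_lit 1)) (.cons (.rf (nat_lit 1) (nat_lit 493858305440582043680)) (.cons (.rf (nat_lit 1) (nat_lit 493823368458609461280)) (.cons (.br (nat_lit 5) (nat_lit 0) (.cons (.ev (nat_lit 79537647524158022835090030593) (nat_lit 1)) (.cons (.ev (nat_lit 79229371440156292395539955713) (nat_lit 1)) (.cons (.ev (nat_lit 1103823372289) (nat_lit 1)) .nil)))) .nil))))),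
 (.br (nat_lit 0) (nat_lit 0) (.cons (.rf (nat_lit 1) (nat_lit 493858305440582043680)) (.cons (.rf (nat_lit 1) (nat_lit 493858305440549506080)) (.cons (.br (nat_lit 4) (nat_lit 0) (.cons (.ev (nat_lit 72340172838076673) (nat_lit 1)) (.cons (.br (nat_lit 5) (nat_lit 0) (.cons (.ev (nat_lit 72340172821233921) (nat_lit 1)) .nil)) .nil))) (.cons (.br (nat_lit 4) (nat_lit 0) (.cons (.ev (nat_lit 79537647524158022835106808065) (nat_lit 1)) (.cons (.br (nat_lit 5) (nat_lit 0) (.cons (.ev (nat_lit 72340172821233921) (nat_lit 1)) .nil)) (.cons (.br (nat_lit 5) (nat_lit 0) (.cons (.ev (nat_lit 72340172821233921) (nat_lit 1)) .nil)) .nil)))) .nil))))),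
 (.br (nat_lit 10) (nat_lit 0) (.cons (.br (nat_lit 10) (nat_lit 0) .nil) .nil)),
 (.br (nat_lit 6) (nat_lit 0) (.cons (.kr (nat_lit 281474976710912) (nat_lit 1099511693312) (nat_lit 1) (nat_lit 0)) (.cons (.br (nat_lit 7) (nat_lit 1) (.cons (.br (nat_lit 9) (nat_lit 1) (.cons (.br (nat_lit 8) (nat_lit 1) (.cons (.rf (nat_lit 4) (nat_lit 11584701642934304)) (.cons (.br (nat_lit 9) (nat_lit 0) (.cons (.br (nat_lit 10) (nat_lit 0) (.cons (.kr (nat_lit 4722366764344621924608) (nat_lit 1208925819615728686399488) (nat_lit 1) (nat_lit 0)) .nil)) .nil)) .nil))) .nil)) .nil)) .nil))),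
 (.br (nat_lit 6) (nat_lit 0) (.cons (.br (nat_lit 8) (nat_lit 0) (.cons (.rf (nat_lit 4) (nat_lit 10355449790564384)) (.cons (.br (nat_lit 10) (nat_lit 1) (.cons (.br (nat_lit 9) (nat_lit 0) (.cons (.kr (nat_lit 18447025548686262528) (nat_lit 4722366483969156907008) (nat_lit 1) (nat_lit 0)) .nil)) .nil)) .nil))) .nil)),
 (.br (nat_lit 10) (nat_lit 1) (.cons (.br (nat_lit 9) (nat_lit 0) (.cons (.kr (nat_lit 18447025548686262528) (nat_lit 4722366483969156907008) (nat_lit 1) (nat_lit 0)) .nil)) .nil)),
 (.br (nat_lit 0) (nat_lit 0) (.cons (.br (nat_lit 8) (nat_lit 0) (.cons (.ev (nat_lit 620183779015629976973149188) (nat_lit 3)) (.cons (.ev (nat_lit 4740885567116192841985) (nat_lit 1)) (.cons (.br (nat_lit 11) (nat_lit 0) (.cons (.ev (nat_lit 310698658007725146344849665) (nat_lit 1)) (.cons (.ev (nat_lit 313121287426009668306207234) (nat_lit 2)) .nil))) .nil)))) (.cons (.br (nat_lit 5) (nat_lit 0) (.cons (.ev (nat_lit 4740813228047161360641) (nat_lit 1)) (.cons (.ev (nat_lit 158457548158413565641682518528) (nat_lit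 2)) (.cons (.br (nat_lit 11) (nat_lit 0) (.cons (.kr (nat_lit 1213648258436567834558976) (nat_lit 618970056536178284885508096) (nat_lit 1) (nat_lit 0)) (.cons (.br (nat_lit 12) (nat_lit 0) (.cons (.ev (nat_lit 159076508696430364842375839744) (nat_lit 2)) .nil)) .nil))) .nil)))) (.cons (.br (nat_lit 5) (nat_lit 0) (.cons (.ev (nat_lit 4740813228047178137601) (nat_lit 1)) (.cons (.ev (nat_lit 159076508696430364842342285824) (nat_lit 2)) (.cons (.br (nat_lit 8) (nat_lit 0) (.cons (.kr (nat_lit 1213648258436567834558976) (nat_lit 618970056536178284885508096) (nat_lit 1) (nat_lit 0)) (.cons (.br (nat_lit 12) (nat_lit 0) (.cons (.ev (nat_lit 158457548158413565641648963584) (nat_lit 2)) .nil)) .nil))) .nil)))) (.cons (.br (nat_lit 5) (nat_lit 0) (.cons (.ev (nat_lit 158457548158413565641682518528) (nat_lit 2)) (.cons (.ev (nat_lit 159076508696430364842342285824) (nat_lit 2)) (.cons (.br (nat_lit 8) (nat_lit 0) (.cons (.ev (nat_lit 317532852725250677038284604416) (nat_lit 3)) (.cons (.ev (nat_lit 4740885567116176064513)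 (nat_lit 1)) .nil))) .nil)))) (.cons (.br (nat_lit 5) (nat_lit 0) (.cons (.br (nat_lit 11) (nat_lit 0) (.cons (.kr (nat_lit 618970056536178284868730880) (nat_lit 1213648258436567851335680) (nat_lit 2) (nat_lit 0)) (.cons (.br (nat_lit 12) (nat_lit 0) (.cons (.ev (nat_lit 159076508696430364842375839744) (nat_lit 2)) .nil)) .nil))) (.cons (.br (nat_lit 8) (nat_lit 0) (.cons (.kr (nat_lit 618970056536178284868730880) (nat_lit 1213648258436567851335680) (nat_lit 2) (nat_lit 0)) (.cons (.br (nat_lit 12) (nat_lit 0) (.cons (.ev (nat_lit 158457548158413565641648963584) (nat_lit 2)) .nil)) .nil))) (.cons (.br (nat_lit 8) (nat_lit 0) (.cons (.ev (nat_lit 317532852725250677038351712256) (nat_lit 3)) (.cons (.ev (nat_lit 4740885567116176064513) (nat_lit 1)) .nil))) (.cons (.br (nat_lit 8) (nat_lit 0) (.cons (.ev (nat_lit 620183779015629976906039300) (nat_lit 3)) (.cons (.ev (nat_lit 4740885567116176064513) (nat_lit 1)) (.cons (.br (nat_lit 11) (nat_lit 0) (.cons (.ev (nat_lit 309485009893403766586081281) (nat_lit 1)) .nil))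 .nil)))) .nil))))) .nil)))))),
 (.br (nat_lit 11) (nat_lit 0) (.cons (.kr (nat_lit 4722366764344621924864) (nat_lit 309485028268089142451175424) (nat_lit 1) (nat_lit 0)) (.cons (.kr (nat_lit 4722366764344621924608) (nat_lit 309485028268089142451109888) (nat_lit 1) (nat_lit 0)) (.cons (.kr (nat_lit 4722366764344621924608) (nat_lit 309485028268089142434398208) (nat_lit 1) (nat_lit 0)) (.cons (.kr (nat_lit 1213648258436567834558976) (nat_lit 618970056536178284885508096) (nat_lit 1) (nat_lit 0)) (.cons (.br (nat_lit 12) (nat_lit 0) (.cons (.ev (nat_lit 158457548158413565641648963584) (nat_lit 2)) (.cons (.ev (nat_lit 158457548158413565641648833024) (nat_lit 2)) (.cons (.ev (nat_lit 158457548158413565641682518528) (nat_lit 2)) (.cons (.ev (nat_lit 159076508696430364842375839744) (nat_lit 2)) .nil))))) .nil)))))),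
 (.br (nat_lit 8) (nat_lit 0) (.cons (.ev (nat_lit 158457548158413565641648963584) (nat_lit 2)) (.cons (.ev (nat_lit 158457548158413565641648833024) (nat_lit 2)) (.cons (.ev (nat_lit 158457548158413565641682518528) (nat_lit 2)) (.cons (.ev (nat_lit 317532852725250677038284604416) (nat_lit 3)) (.cons (.br (nat_lit 11) (nat_lit 0) (.cons (.ev (nat_lit 159076508696430364842375839744) (nat_lit 2)) (.cons (.ev (nat_lit 159076508696430364842375971328) (nat_lit 2)) (.cons (.ev (nat_lit 159076508696430364842342285824) (nat_lit 2)) (.cons (.ev (nat_lit 158769436871365832096532791808) (nat_lit 2)) .nil))))) .nil)))))),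
 (.br (nat_lit 10) (nat_lit 0) (.cons (.br (nat_lit 0) (nat_lit 0) (.cons (.rf (nat_lit 8) (nat_lit 14242959524133701664)) (.cons (.rf (nat_lit 8) (nat_lit 14131393285042801696)) (.cons (.rf (nat_lit 9) (nat_lit 14242959524133701664)) (.cons (.rf (nat_lit 9) (nat_lit 14131393285042801696)) (.cons (.rf (nat_lit 10) (nat_lit 14242959524133701664)) (.cons (.br (nat_lit 0) (nat_lit 0) (.cons (.rf (nat_lit 8) (nat_lit 14242959524133701664)) (.cons (.rf (nat_lit 8) (nat_lit 14131393285042801696)) (.cons (.rf (nat_lit 9) (nat_lit 14242959524133701664)) (.cons (.rf (nat_lit 9) (nat_lit 14131393285042801696)) (.cons (.rf (nat_lit 10) (nat_lit 14242959524133701664)) .nil)))))) .nil))))))) .nil)),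
 (.br (nat_lit 3) (nat_lit 0) (.cons (.kr (nat_lit 65536) (nat_lit 16777216) (nat_lit 2) (nat_lit 0)) (.cons (.br (nat_lit 4) (nat_lit 1) (.cons (.br (nat_lit 6) (nat_lit 1) (.cons (.br (nat_lit 6) (nat_lit 0) (.cons (.br (nat_lit 7) (nat_lit 0) (.cons (.br (nat_lit 7) (nat_lit 0) (.cons (.br (nat_lit 8) (nat_lit 1) (.cons (.br (nat_lit 10) (nat_lit 1) (.cons (.br (nat_lit 9) (nat_lit 1) (.cons (.rf (nat_lit 0) (nat_lit 12746920901610561)) (.cons (.br (nat_lit 10) (nat_lit 0) (.cons (.br (nat_lit 11) (nat_lit 0) (.cons (.br (nat_lit 12) (nat_lit 0) (.cons (.kr (nat_lit 310693935641241172876198400) (nat_lit 158456325028600732781142671360) (nat_lit 1) (nat_lit 0)) (.cons (.kr (nat_lit 310693935641241172876263424) (nat_lit 158456325028600732781142605824) (nat_lit 2) (nat_lit 0)) (.cons (.kr (nat_lit 158456325028600732781125894144) (nat_lit 310693935641241172892975104) (nat_lit 2) (nat_lit 0)) (.cons (.kr (nat_lit 1208925819614629174706176) (nat_lit 79228162514264337593543950336) (nat_lit 10) (nat_lit 0)) (.cons (.kr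 (nat_lit 309485009821345068724781056) (nat_lit 79228162514264337593543950336) (nat_lit 11) (nat_lit 0)) (.cons (.br (nat_lit 0) (nat_lit 0) (.cons (.rf (nat_lit 2) (nat_lit 493858305440582043680)) (.cons (.rf (nat_lit 2) (nat_lit 493858305440549506080)) (.cons (.rf (nat_lit 3) (nat_lit 493858305440582043680)) (.cons (.rf (nat_lit 3) (nat_lit 493823368458609461280)) (.cons (.br (nat_lit 0) (nat_lit 0) (.cons (.rf (nat_lit 2) (nat_lit 493858305440582043680)) (.cons (.rf (nat_lit 2) (nat_lit 493858305440549506080)) (.cons (.rf (nat_lit 3) (nat_lit 493858305440582043680)) (.cons (.rf (nat_lit 3) (nat_lit 493823368458609461280)) .nil))))) .nil)))))) .nil))))))) .nil)) .nil)) .nil))) .nil)) .nil)) .nil)) .nil)) (.cons (.br (nat_lit 5) (nat_lit 1) (.cons (.rf (nat_lit 5) (nat_lit 282600803393)) (.cons (.br (nat_lit 9) (nat_lit 1) (.cons (.br (nat_lit 7) (nat_lit 0) (.cons (.rf (nat_lit 6) (nat_lit 362021926341697)) (.cons (.br (nat_lit 7) (nat_lit 0) (.cons (.rf (nat_lit 6) (nat_lit 362021926341697)) (.cons (.br (nat_lit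 8) (nat_lit 1) (.cons (.rf (nat_lit 7) (nat_lit 445092485129178177)) (.cons (.br (nat_lit 9) (nat_lit 0) (.cons (.rf (nat_lit 11) (nat_lit 14242959524133701664)) (.cons (.rf (nat_lit 11) (nat_lit 13126066816545818656)) .nil))) .nil))) .nil))) .nil))) .nil)) .nil))) .nil))) .nil)) .nil)) .nil))),
 (.br (nat_lit 5) (nat_lit 0) (.cons (.kr (nat_lit 1099511628032) (nat_lit 4295032832) (nat_lit 1) (nat_lit 0)) (.cons (.br (nat_lit 7) (nat_lit 1) (.cons (.br (nat_lit 9) (nat_lit 1) (.cons (.br (nat_lit 8) (nat_lit 1) (.cons (.rf (nat_lit 0) (nat_lit 11332667731842182)) (.cons (.br (nat_lit 9) (nat_lit 0) (.cons (.br (nat_lit 10) (nat_lit 0) (.cons (.kr (nat_lit 4722366483969156841728) (nat_lit 1208925819614633469739008) (nat_lit 1) (nat_lit 0)) .nil)) .nil)) .nil))) .nil)) .nil)) .nil))),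
 (.br (nat_lit 11) (nat_lit 0) (.cons (.ev (nat_lit 4740885285636904386561) (nat_lit 1)) (.cons (.ev (nat_lit 159076508696358310555429175808) (nat_lit 2)) (.cons (.br (nat_lit 12) (nat_lit 0) (.cons (.ev (nat_lit 4740885567116192841985) (nat_lit 1)) (.cons (.ev (nat_lit 159076508696357747596919373824) (nat_lit 2)) .nil))) .nil)))),
 (.br (nat_lit 0) (nat_lit 0) (.cons (.ev (nat_lit 4740885284541687660801) (nat_lit 1)) (.cons (.ev (nat_lit 79537652246452165536208912641) (nat_lit 1)) (.cons (.br (nat_lit 8) (nat_lit 0) (.cons (.ev (nat_lit 1213685223983417443680768) (nat_lit 2)) (.cons (.br (nat_lit 12) (nat_lit 0) (.cons (.zr (nat_lit 1223092919345812649215492) (nat_lit 159075295085208968702982094848) (nat_lit 16) (nat_lit 1)) .nil)) .nil))) .nil)))),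
 (.br (nat_lit 8) (nat_lit 0) (.cons (.ev (nat_lit 4740885566012386181121) (nat_lit 1)) (.cons (.ev (nat_lit 1213685223983417443680768) (nat_lit 2)) (.cons (.br (nat_lit 11) (nat_lit 0) (.cons (.ev (nat_lit 79537652246452447006907432961) (nat_lit 1)) (.cons (.ev (nat_lit 160314458217703618388785562624) (nat_lit 3)) .nil))) .nil)))),
 (.br (nat_lit 7) (nat_lit 0) (.cons (.rf (nat_lit 14) (nat_lit 14242959524133701664)) (.cons (.ev (nat_lit 1213685224548566386672128) (nat_lit 2)) (.cons (.rf (nat_lit 15) (nat_lit 14242959524133701664)) (.cons (.rf (nat_lit 16) (nat_lit 14242959524133701664)) (.cons (.br (nat_lit 8) (nat_lit 0) (.cons (.rf (nat_lit 14) (nat_lit 13124975035859175456)) (.cons (.rf (nat_lit 16) (nat_lit 13124975035859175456)) (.cons (.rf (nat_lit 15) (nat_lit 13124975035859175456)) (.cons (.ev (nat_lit 1213685224546358773612544) (nat_lit 2)) .nil))))) .nil)))))),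
 (.br (nat_lit 0) (nat_lit 0) (.cons (.rf (nat_lit 17) (nat_lit 14242959524133701664)) (.cons (.ev (nat_lit 1213685224546358773612544) (nat_lit 2)) (.cons (.ev (nat_lit 309485009893402662779552001) (nat_lit 1)) (.cons (.br (nat_lit 4) (nat_lit 0) (.cons (.ev (nat_lit 158457548158341509147122532864) (nat_lit 2)) (.cons (.ev (nat_lit 620193112706716287151309312) (nat_lit 2)) (.cons (.br (nat_lit 8) (nat_lit 0) (.cons (.ev (nat_lit 159076537141669459219322307588) (nat_lit 3)) (.cons (.ev (nat_lit 79229376180897460645345165313) (nat_lit 1)) .nil))) .nil)))) (.cons (.br (nat_lit 4) (nat_lit 0) (.cons (.br (nat_lit 11) (nat_lit 0) (.cons (.ev (nat_lit 620183778798893153883718656) (nat_lit 3)) (.cons (.br (nat_lit 12) (nat_lit 0) (.cons (.ev (nat_lit 159076508696357747596919373824) (nat_lit 2)) .nil)) .nil))) (.cons (.ev (nat_lit 620193112706716287151309312) (nat_lit 2)) (.cons (.br (nat_lit 8) (nat_lit 0) (.cons (.ev (nat_lit 1213685223983417443680768) (nat_lit 2)) (.cons (.ev (nat_lit 79228176755512462249061189380)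 (nat_lit 3)) .nil))) (.cons (.br (nat_lit 11) (nat_lit 0) (.cons (.br (nat_lit 12) (nat_lit 0) (.cons (.ev (nat_lit 79228162532711364241741840641) (nat_lit 1)) .nil)) (.cons (.ev (nat_lit 309485009893684142034452481) (nat_lit 1)) (.cons (.ev (nat_lit 202826573196357172557083123975178) (nat_lit 4)) .nil)))) .nil))))) .nil)))))),
 (.br (nat_lit 10) (nat_lit 0) (.cons (.br (nat_lit 0) (nat_lit 0) (.cons (.rf (nat_lit 17) (nat_lit 14242959524133701664)) (.cons (.rf (nat_lit 18) (nat_lit 14242959524133701664)) (.cons (.rf (nat_lit 18) (nat_lit 13124975035859175456)) (.cons (.rf (nat_lit 18) (nat_lit 9487162852075703328)) (.cons (.rf (nat_lit 18) (nat_lit 8369178363801177120)) (.cons (.br (nat_lit 0) (nat_lit 0) (.cons (.rf (nat_lit 17) (nat_lit 14242959524133701664)) (.cons (.rf (nat_lit 18) (nat_lit 14242959524133701664)) (.cons (.rf (nat_lit 18) (nat_lit 13124975035859175456)) (.cons (.rf (nat_lit 18) (nat_lit 9487162852075703328)) (.cons (.rf (nat_lit 18) (nat_lit 8369178363801177120)) .nil)))))) .nil))))))) .nil)),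
 (.br (nat_lit 5) (nat_lit 0) (.cons (.br (nat_lit 5) (nat_lit 0) (.cons (.br (nat_lit 7) (nat_lit 1) (.cons (.rf (nat_lit 13) (nat_lit 282600803393)) (.cons (.br (nat_lit 9) (nat_lit 1) (.cons (.br (nat_lit 6) (nat_lit 0) (.cons (.rf (nat_lit 13) (nat_lit 249314806849)) (.cons (.br (nat_lit 6) (nat_lit 0) (.cons (.rf (nat_lit 13) (nat_lit 249314806849)) (.cons (.br (nat_lit 8) (nat_lit 1) (.cons (.br (nat_lit 11) (nat_lit 1) (.cons (.br (nat_lit 10) (nat_lit 0) (.cons (.kr (nat_lit 4722366764344621989888) (nat_lit 1208925819615728703111168) (nat_lit 2) (nat_lit 0)) .nil)) .nil)) (.cons (.br (nat_lit 9) (nat_lit 0) (.cons (.rf (nat_lit 19) (nat_lit 14242959524133701664)) (.cons (.rf (nat_lit 19) (nat_lit 13126066816545818656)) .nil))) .nil))) .nil))) .nil))) .nil)) .nil))) .nil)) .nil)),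
 (.br (nat_lit 0) (nat_lit 0) (.cons (.ev (nat_lit 158767018964314595597521846784) (nat_lit 2)) (.cons (.ev (nat_lit 310703417267696167737688064) (nat_lit 2)) (.cons (.br (nat_lit 7) (nat_lit 0) (.cons (.ev (nat_lit 475686932058205446117194532352) (nat_lit 3)) (.cons (.ev (nat_lit 79229371440156010916268212481) (nat_lit 1)) .nil))) .nil)))),
 (.br (nat_lit 0) (nat_lit 0) (.cons (.ev (nat_lit 1213685224546358773481984) (nat_lit 2)) (.cons (.ev (nat_lit 159076508696357747596919373824) (nat_lit 2)) (.cons (.br (nat_lit 8) (nat_lit 0) (.cons (.ev (nat_lit 159076537141671141489326228992) (nat_lit 3)) (.cons (.ev (nat_lit 4740885284541687660801) (nat_lit 1)) .nil))) .nil)))),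
 (.br (nat_lit 0) (nat_lit 0) (.cons (.ev (nat_lit 1213685224546358773481984) (nat_lit 2)) (.cons (.ev (nat_lit 159076508696357747596919373824) (nat_lit 2)) (.cons (.br (nat_lit 8) (nat_lit 0) (.cons (.ev (nat_lit 477227127163936976608927351296) (nat_lit 3)) (.cons (.ev (nat_lit 4740885566012386246913) (nat_lit 1)) .nil))) .nil)))),
 (.br (nat_lit 0) (nat_lit 0) (.cons (.ev (nat_lit 1213685224546358773481984) (nat_lit 2)) (.cons (.rf (nat_lit 22) (nat_lit 14242959524133701664)) (.cons (.rf (nat_lit 23) (nat_lit 14242959524133701664)) (.cons (.br (nat_lit 0) (nat_lit 0) (.cons (.ev (nat_lit 1213685224546358773481984) (nat_lit 2)) (.cons (.rf (nat_lit 22) (nat_lit 14242959524133701664)) (.cons (.rf (nat_lit 23) (nat_lit 14242959524133701664)) .nil)))) .nil))))),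
 (.br (nat_lit 10) (nat_lit 0) (.cons (.br (nat_lit 4) (nat_lit 0) (.cons (.rf (nat_lit 12) (nat_lit 1214592)) (.cons (.rf (nat_lit 24) (nat_lit 14242959524133701664)) (.cons (.kr (nat_lit 4294967296) (nat_lit 1099511627776) (nat_lit 4) (nat_lit 0)) (.cons (.br (nat_lit 8) (nat_lit 0) (.cons (.ev (nat_lit 620193149456089246494556672) (nat_lit 2)) (.cons (.br (nat_lit 0) (nat_lit 0) (.cons (.ev (nat_lit 475989168235473899629712966144) (nat_lit 3)) (.cons (.br (nat_lit 0) (nat_lit 0) (.cons (.ev (nat_lit 475989168235473899629712966144) (nat_lit 3)) .nil)) .nil))) (.cons (.br (nat_lit 0) (nat_lit 0) (.cons (.ev (nat_lit 475989168235475588488062370304) (nat_lit 3)) (.cons (.br (nat_lit 0) (nat_lit 0) (.cons (.ev (nat_lit 475989168235475588488062370304) (nat_lit 3)) .nil)) .nil))) (.cons (.rf (nat_lit 24) (nat_lit 14094122075250005261)) .nil))))) (.cons (.kr (nat_lit 1208925819897203663110144) (nat_lit 4722366482878251925504) (nat_lit 2) (nat_lit 0)) (.cons (.rf (nat_lit 12) (nat_lit 1214605)) .nil))))))) .nil)),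
 (.br (nat_lit 5) (nat_lit 0) (.cons (.br (nat_lit 6) (nat_lit 0) (.cons (.br (nat_lit 6) (nat_lit 0) (.cons (.br (nat_lit 8) (nat_lit 1) (.cons (.br (nat_lit 10) (nat_lit 1) (.cons (.br (nat_lit 9) (nat_lit 1) (.cons (.rf (nat_lit 0) (nat_lit 12746919796411457)) (.cons (.br (nat_lit 10) (nat_lit 0) (.cons (.br (nat_lit 11) (nat_lit 0) (.cons (.br (nat_lit 4) (nat_lit 0) (.cons (.rf (nat_lit 12) (nat_lit 1214592)) (.cons (.kr (nat_lit 4294967296) (nat_lit 1099511627776) (nat_lit 4) (nat_lit 0)) (.cons (.kr (nat_lit 1208925819897203663110144) (nat_lit 309485009821345077331492864) (nat_lit 2) (nat_lit 0)) (.cons (.kr (nat_lit 309485009821627643213185024) (nat_lit 1208925819614637781417984) (nat_lit 2) (nat_lit 0)) (.cons (.br (nat_lit 0) (nat_lit 0) (.cons (.ev (nat_lit 158767018964314595597521846784) (nat_lit 2)) (.cons (.rf (nat_lit 21) (nat_lit 14242959524133701664)) (.cons (.rf (nat_lit 21) (nat_lit 14208022542161119264)) (.cons (.br (nat_lit 0) (nat_lit 0) (.cons (.ev (nat_lit 158767018964314595597521846784)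 (nat_lit 2)) (.cons (.rf (nat_lit 21) (nat_lit 14242959524133701664)) (.cons (.rf (nat_lit 21) (nat_lit 14208022542161119264)) .nil)))) .nil))))) (.cons (.rf (nat_lit 12) (nat_lit 1214605)) .nil))))))) .nil)) .nil)) .nil))) .nil)) .nil)) .nil)) .nil)) (.cons (.br (nat_lit 8) (nat_lit 1) (.cons (.rf (nat_lit 5) (nat_lit 247069709380)) (.cons (.br (nat_lit 9) (nat_lit 1) (.cons (.br (nat_lit 6) (nat_lit 0) (.cons (.rf (nat_lit 6) (nat_lit 361986395247684)) (.cons (.br (nat_lit 6) (nat_lit 0) (.cons (.rf (nat_lit 6) (nat_lit 361986395247684)) (.cons (.br (nat_lit 7) (nat_lit 1) (.cons (.rf (nat_lit 7) (nat_lit 445092449598084164)) (.cons (.br (nat_lit 9) (nat_lit 0) (.cons (.rf (nat_lit 25) (nat_lit 14242959524133701664)) (.cons (.rf (nat_lit 25) (nat_lit 13126066816545818656)) .nil))) .nil))) .nil))) .nil))) .nil)) .nil))) .nil))),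
 (.br (nat_lit 9) (nat_lit 1) (.cons (.br (nat_lit 9) (nat_lit 1) (.cons (.br (nat_lit 10) (nat_lit 0) (.cons (.br (nat_lit 10) (nat_lit 1) (.cons (.rf (nat_lit 12) (nat_lit 12953888)) .nil)) .nil)) .nil)) .nil)),
 (.br (nat_lit 0) (nat_lit 0) (.cons (.ev (nat_lit 284782118371840) (nat_lit 2)) (.cons (.ev (nat_lit 144399961637978624) (nat_lit 2)) (.cons (.rf (nat_lit 27) (nat_lit 325702574508064)) (.cons (.br (nat_lit 9) (nat_lit 0) (.cons (.ev (nat_lit 1103823438081) (nat_lit 1)) (.cons (.ev (nat_lit 72339069031481601) (nat_lit 1)) (.cons (.rf (nat_lit 27) (nat_lit 360886946596905)) .nil)))) .nil))))),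
 (.br (nat_lit 5) (nat_lit 0) (.cons (.br (nat_lit 9) (nat_lit 0) (.cons (.rf (nat_lit 4) (nat_lit 11447300307160129)) (.cons (.br (nat_lit 11) (nat_lit 1) (.cons (.br (nat_lit 10) (nat_lit 0) (.cons (.br (nat_lit 12) (nat_lit 0) (.cons (.rf (nat_lit 12) (nat_lit 7677312)) (.cons (.kr (nat_lit 1213648186378973796696064) (nat_lit 158456325028528676286616305664) (nat_lit 2) (nat_lit 0)) (.cons (.kr (nat_lit 4722366482869645213696) (nat_lit 79228162514264337593543950336) (nat_lit 9) (nat_lit 0)) (.cons (.br (nat_lit 0) (nat_lit 0) (.cons (.ev (nat_lit 1223092919348020228719104) (nat_lit 2)) (.cons (.rf (nat_lit 26) (nat_lit 41150424288)) (.cons (.rf (nat_lit 26) (nat_lit 277340137824)) (.cons (.br (nat_lit 0) (nat_lit 0) (.cons (.ev (nat_lit 1223092919348020228719104) (nat_lit 2)) (.cons (.rf (nat_lit 26) (nat_lit 41150424288)) (.cons (.rf (nat_lit 26) (nat_lit 277340137824)) .nil)))) .nil))))) (.cons (.kr (nat_lit 1208925819614629174706176) (nat_lit 79228162514264337593543950336) (nat_lit 10) (nat_lit 0)) (.cons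 (.rf (nat_lit 12) (nat_lit 7677325)) .nil))))))) .nil)) .nil)) .nil))) .nil))]

theorem c0 : chkAll C T R L0 (nat_lit 0) = true := by decide +kernel

theorem l0 : (nat_lit 0) + L0.length = (nat_lit 30) := by decide +kernel

/-- part of the certificates -/
def L1 : List Prf := [(.br (nat_lit 12) (nat_lit 0) (.cons (.ev (nat_lit 1103823438081) (nat_lit 1)) (.cons (.ev (nat_lit 477227108237723361012240024576) (nat_lit 3)) (.cons (.rf (nat_lit 20) (nat_lit 9742652813)) .nil)))),
 (.br (nat_lit 11) (nat_lit 0) (.cons (.ev (nat_lit 310693935713018391449043201) (nat_lit 1)) (.cons (.rf (nat_lit 30) (nat_lit 14242959524133701664)) (.cons (.rf (nat_lit 30) (nat_lit 14237079129961899232)) (.cons (.ev (nat_lit 620183667973748348803940864) (nat_lit 2)) (.cons (.rf (nat_lit 20) (nat_lit 9743701357)) .nil)))))),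
 (.br (nat_lit 0) (nat_lit 0) (.cons (.ev (nat_lit 1223092919348020228719104) (nat_lit 2)) (.cons (.ev (nat_lit 1223129957514297120718848) (nat_lit 2)) (.cons (.rf (nat_lit 20) (nat_lit 9743701344)) (.cons (.rf (nat_lit 20) (nat_lit 9742652800)) (.cons (.br (nat_lit 13) (nat_lit 0) (.cons (.ev (nat_lit 281479271678209) (nat_lit 1)) (.cons (.ev (nat_lit 18518801667764256769) (nat_lit 1)) (.cons (.rf (nat_lit 20) (nat_lit 9743701357)) (.cons (.rf (nat_lit 20) (nat_lit 9742652813)) .nil))))) .nil)))))),
 (.br (nat_lit 8) (nat_lit 0) (.cons (.ev (nat_lit 620193186493134047329846788) (nat_lit 3)) (.cons (.ev (nat_lit 4740885567116192841985) (nat_lit 1)) (.cons (.br (nat_lit 11) (nat_lit 0) (.cons (.ev (nat_lit 158457538676859733398442279424) (nat_lit 2)) (.cons (.br (nat_lit 12) (nat_lit 0) (.cons (.ev (nat_lit 159076508770433519442656167424) (nat_lit 3)) .nil)) .nil))) .nil)))),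
 (.br (nat_lit 0) (nat_lit 0) (.cons (.ev (nat_lit 4740885284541687660801) (nat_lit 1)) (.cons (.ev (nat_lit 158457538676859733398442279424) (nat_lit 2)) (.cons (.br (nat_lit 8) (nat_lit 0) (.cons (.kr (nat_lit 37037603335495024640) (nat_lit 1213648186380073325035520) (nat_lit 2) (nat_lit 0)) (.cons (.br (nat_lit 12) (nat_lit 0) (.cons (.ev (nat_lit 159076518178128314472648081408) (nat_lit 2)) .nil)) .nil))) .nil)))),
 (.br (nat_lit 0) (nat_lit 0) (.cons (.ev (nat_lit 475370198289475196498865357828) (nat_lit 3)) (.cons (.ev (nat_lit 79538856449905578766436925441) (nat_lit 1)) (.cons (.br (nat_lit 11) (nat_lit 0) (.cons (.kr (nat_lit 37037603335495024640) (nat_lit 1213648186380073325035520) (nat_lit 2) (nat_lit 0)) (.cons (.ev (nat_lit 309485009893403766586081281) (nat_lit 1)) .nil))) .nil)))),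
 (.br (nat_lit 12) (nat_lit 0) (.cons (.ev (nat_lit 79537652246452166631425638401) (nat_lit 1)) (.cons (.ev (nat_lit 79228162532711364241741840641) (nat_lit 1)) .nil))),
 (.br (nat_lit 7) (nat_lit 0) (.cons (.rf (nat_lit 33) (nat_lit 14242959524133701664)) (.cons (.ev (nat_lit 1213759299759644046590976) (nat_lit 3)) (.cons (.rf (nat_lit 34) (nat_lit 14242959524133701664)) (.cons (.rf (nat_lit 35) (nat_lit 14242959524133701664)) (.cons (.br (nat_lit 8) (nat_lit 0) (.cons (.rf (nat_lit 33) (nat_lit 13124975032634902656)) (.cons (.rf (nat_lit 35) (nat_lit 13124975032634902656)) (.cons (.rf (nat_lit 34) (nat_lit 13124975032634902656)) (.cons (.br (nat_lit 0) (nat_lit 0) (.cons (.rf (nat_lit 36) (nat_lit 493858305440582043680)) (.cons (.rf (nat_lit 36) (nat_lit 492740320949083244672)) (.cons (.ev (nat_lit 20282409603651671268380821684739) (nat_lit 2)) .nil)))) .nil))))) .nil)))))),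
 (.br (nat_lit 4) (nat_lit 0) (.cons (.rf (nat_lit 37) (nat_lit 14242959524133701664)) (.cons (.ev (nat_lit 1213685224548566386672128) (nat_lit 2)) (.cons (.br (nat_lit 0) (nat_lit 0) (.cons (.ev (nat_lit 310698658079501265406001153) (nat_lit 1)) (.cons (.ev (nat_lit 1103823438081) (nat_lit 1)) (.cons (.br (nat_lit 8) (nat_lit 0) (.cons (.kr (nat_lit 4759260253591552720896) (nat_lit 158457533954348289824869318656) (nat_lit 2) (nat_lit 0)) (.cons (.br (nat_lit 12) (nat_lit 0) (.cons (.zr (nat_lit 1862954688026143558339659268) (nat_lit 158456329788510069876586512384) (nat_lit 16) (nat_lit 1)) .nil)) .nil))) .nil)))) (.cons (.br (nat_lit 8) (nat_lit 0) (.cons (.ev (nat_lit 158457548158341509147122532864) (nat_lit 2)) (.cons (.ev (nat_lit 317532843169764629611280795136) (nat_lit 3)) (.cons (.br (nat_lit 11) (nat_lit 0) (.cons (.ev (nat_lit 1103823438081) (nat_lit 1)) (.cons (.ev (nat_lit 620183704722558366817255424) (nat_lit 2)) .nil))) .nil)))) (.cons (.br (nat_lit 11) (nat_lit 0) (.cons (.br (nat_lit 12) (nat_lit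 0) (.cons (.ev (nat_lit 159076518178128879621658181632) (nat_lit 2)) (.cons (.ev (nat_lit 475989158753705015006741333508) (nat_lit 3)) .nil))) (.cons (.br (nat_lit 0) (nat_lit 0) (.cons (.ev (nat_lit 317532862133304641860944725504) (nat_lit 3)) (.cons (.ev (nat_lit 620212002461445507131049476) (nat_lit 3)) .nil))) (.cons (.ev (nat_lit 158457538676859733398442279424) (nat_lit 2)) (.cons (.br (nat_lit 8) (nat_lit 0) (.cons (.ev (nat_lit 309489750634572016374579201) (nat_lit 1)) (.cons (.ev (nat_lit 620183704722558366817255424) (nat_lit 2)) (.cons (.br (nat_lit 0) (nat_lit 0) (.cons (.ev (nat_lit 160314448809430664943357067780) (nat_lit 3)) .nil)) .nil)))) .nil))))) .nil)))))),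
 (.br (nat_lit 0) (nat_lit 0) (.cons (.rf (nat_lit 37) (nat_lit 14242959524133701664)) (.cons (.rf (nat_lit 38) (nat_lit 14242959524133701664)) (.cons (.br (nat_lit 4) (nat_lit 0) (.cons (.ev (nat_lit 310698658079501265406001153) (nat_lit 1)) (.cons (.ev (nat_lit 620183704722558366817255424) (nat_lit 2)) (.cons (.br (nat_lit 12) (nat_lit 0) (.cons (.ev (nat_lit 79229371440156010916268212481) (nat_lit 1)) (.cons (.ev (nat_lit 160314448809431795241377268228) (nat_lit 3)) .nil))) .nil)))) (.cons (.rf (nat_lit 38) (nat_lit 1300633479837717888)) (.cons (.br (nat_lit 4) (nat_lit 0) (.cons (.br (nat_lit 11) (nat_lit 0) (.cons (.ev (nat_lit 158457538750934944493282067456) (nat_lit 3)) (.cons (.ev (nat_lit 309489750634572016374579201) (nat_lit 1)) .nil))) (.cons (.br (nat_lit 7) (nat_lit 0) (.cons (.ev (nat_lit 620193112706714096717856768) (nat_lit 2)) (.cons (.br (nat_lit 12) (nat_lit 0) (.cons (.ev (nat_lit 162790376075205687767889806856) (nat_lit 4)) .nil)) .nil))) (.cons (.ev (nat_lit 158457548158341509147122532864)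 (nat_lit 2)) (.cons (.ev (nat_lit 281479271678209) (nat_lit 1)) .nil))))) .nil)))))),
 (.br (nat_lit 8) (nat_lit 0) (.cons (.ev (nat_lit 159076537141671148094985930240) (nat_lit 3)) (.cons (.br (nat_lit 12) (nat_lit 0) (.cons (.ev (nat_lit 475370198289474066200978850820) (nat_lit 3)) .nil)) .nil))),
 (.br (nat_lit 0) (nat_lit 0) (.cons (.rf (nat_lit 37) (nat_lit 14242959524133701664)) (.cons (.rf (nat_lit 38) (nat_lit 14242959524133701664)) (.cons (.rf (nat_lit 39) (nat_lit 14242959524133701664)) (.cons (.rf (nat_lit 37) (nat_lit 4654584815432275296)) (.cons (.br (nat_lit 4) (nat_lit 0) (.cons (.rf (nat_lit 40) (nat_lit 493858305440582043680)) (.cons (.br (nat_lit 7) (nat_lit 0) (.cons (.ev (nat_lit 159076518178130005547301275136) (nat_lit 3)) (.cons (.ev (nat_lit 4740885284541687660801) (nat_lit 1)) .nil))) (.cons (.br (nat_lit 8) (nat_lit 0) (.cons (.ev (nat_lit 620193186493129649283073536) (nat_lit 3)) (.cons (.ev (nat_lit 309489750634854590879629313) (nat_lit 1)) .nil))) (.cons (.br (nat_lit 7) (nat_lit 0)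 (.cons (.ev (nat_lit 1232574690484451704636420) (nat_lit 3)) (.cons (.rf (nat_lit 40) (nat_lit 484269930731880617312)) (.cons (.ev (nat_lit 20282409603651670423951563030784) (nat_lit 1)) .nil)))) .nil))))) .nil)))))),
 (.br (nat_lit 0) (nat_lit 0) (.cons (.rf (nat_lit 37) (nat_lit 14242959524133701664)) (.cons (.rf (nat_lit 38) (nat_lit 14242959524133701664)) (.cons (.rf (nat_lit 38) (nat_lit 1300633479837717888)) (.cons (.rf (nat_lit 37) (nat_lit 4654584815432275296)) (.cons (.br (nat_lit 7) (nat_lit 0) (.cons (.br (nat_lit 8) (nat_lit 0) (.cons (.ev (nat_lit 620179000875160838886064128) (nat_lit 2)) (.cons (.ev (nat_lit 4740885567116192841985) (nat_lit 1)) .nil))) (.cons (.ev (nat_lit 316913882705535932605331997696) (nat_lit 3)) (.cons (.ev (nat_lit 158457538676859733398442279424) (nat_lit 2)) (.cons (.br (nat_lit 4) (nat_lit 0) (.cons (.ev (nat_lit 158457548158341509147122532864) (nat_lit 2)) (.cons (.br (nat_lit 8) (nat_lit 0) (.cons (.ev (nat_lit 160314458365277016850472570368) (nat_lit 4)) .nil)) (.cons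 (.ev (nat_lit 20282409603651670423951563030784) (nat_lit 1)) .nil)))) .nil))))) .nil)))))),
 (.br (nat_lit 10) (nat_lit 0) (.cons (.br (nat_lit 0) (nat_lit 0) (.cons (.rf (nat_lit 37) (nat_lit 14242959524133701664)) (.cons (.rf (nat_lit 38) (nat_lit 14242959524133701664)) (.cons (.rf (nat_lit 39) (nat_lit 14242959524133701664)) (.cons (.rf (nat_lit 41) (nat_lit 14242959524133701664)) (.cons (.rf (nat_lit 42) (nat_lit 14242959524133701664)) (.cons (.br (nat_lit 0) (nat_lit 0) (.cons (.rf (nat_lit 37) (nat_lit 14242959524133701664)) (.cons (.rf (nat_lit 38) (nat_lit 14242959524133701664)) (.cons (.rf (nat_lit 39) (nat_lit 14242959524133701664)) (.cons (.rf (nat_lit 41) (nat_lit 14242959524133701664)) (.cons (.rf (nat_lit 42) (nat_lit 14242959524133701664)) .nil)))))) .nil))))))) .nil)),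
 (.br (nat_lit 6) (nat_lit 0) (.cons (.rf (nat_lit 26) (nat_lit 143016397856)) (.cons (.br (nat_lit 7) (nat_lit 1) (.cons (.br (nat_lit 5) (nat_lit 0) (.cons (.br (nat_lit 0) (nat_lit 0) (.cons (.ev (nat_lit 284782118371840) (nat_lit 2)) (.cons (.ev (nat_lit 144399961637978624) (nat_lit 2)) (.cons (.rf (nat_lit 28) (nat_lit 9043225708576)) (.cons (.rf (nat_lit 27) (nat_lit 325702574508064)) (.cons (.br (nat_lit 0) (nat_lit 0) (.cons (.ev (nat_lit 284782118371840) (nat_lit 2)) (.cons (.ev (nat_lit 144399961637978624) (nat_lit 2)) (.cons (.rf (nat_lit 28) (nat_lit 9043225708576)) (.cons (.rf (nat_lit 27) (nat_lit 360886946596896)) .nil))))) .nil)))))) (.cons (.br (nat_lit 8) (nat_lit 1) (.cons (.br (nat_lit 10) (nat_lit 1) (.cons (.br (nat_lit 9) (nat_lit 1) (.cons (.rf (nat_lit 4) (nat_lit 12746918756224065)) (.cons (.br (nat_lit 10) (nat_lit 0) (.cons (.br (nat_lit 11) (nat_lit 0) (.cons (.br (nat_lit 0) (nat_lit 0) (.cons (.ev (nat_lit 313111787280473738367271424) (nat_lit 2)) (.cons (.ev (nat_lit 313111787424588917886878208)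 (nat_lit 2)) (.cons (.rf (nat_lit 26) (nat_lit 141042067712)) (.cons (.rf (nat_lit 26) (nat_lit 243013954848)) (.cons (.rf (nat_lit 12) (nat_lit 8759680)) (.cons (.br (nat_lit 0) (nat_lit 0) (.cons (.ev (nat_lit 313111787280473738367271424) (nat_lit 2)) (.cons (.ev (nat_lit 313111787424588917886878208) (nat_lit 2)) (.cons (.rf (nat_lit 26) (nat_lit 141042067712)) (.cons (.rf (nat_lit 26) (nat_lit 243013954848)) (.cons (.rf (nat_lit 12) (nat_lit 8759680)) .nil)))))) .nil))))))) .nil)) .nil)) .nil))) .nil)) .nil)) .nil))) (.cons (.br (nat_lit 9) (nat_lit 1) (.cons (.br (nat_lit 5) (nat_lit 0) (.cons (.rf (nat_lit 29) (nat_lit 11584701642934304)) (.cons (.br (nat_lit 5) (nat_lit 0) (.cons (.rf (nat_lit 29) (nat_lit 11584701642934304)) (.cons (.br (nat_lit 8) (nat_lit 1) (.cons (.br (nat_lit 11) (nat_lit 1) (.cons (.br (nat_lit 10) (nat_lit 0) (.cons (.br (nat_lit 0) (nat_lit 0) (.cons (.ev (nat_lit 1223092919348020228719104) (nat_lit 2)) (.cons (.rf (nat_lit 31) (nat_lit 14242959524133701664)) (.cons (.rf (nat_lit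 32) (nat_lit 14242959524133701664)) (.cons (.rf (nat_lit 20) (nat_lit 9743701344)) (.cons (.rf (nat_lit 20) (nat_lit 9742652800)) (.cons (.br (nat_lit 0) (nat_lit 0) (.cons (.ev (nat_lit 1223092919348020228719104) (nat_lit 2)) (.cons (.rf (nat_lit 31) (nat_lit 14242959524133701664)) (.cons (.rf (nat_lit 32) (nat_lit 14242959524133701664)) (.cons (.rf (nat_lit 20) (nat_lit 9743701344)) (.cons (.rf (nat_lit 20) (nat_lit 9742652800)) .nil)))))) .nil))))))) .nil)) .nil)) (.cons (.br (nat_lit 9) (nat_lit 0) (.cons (.rf (nat_lit 43) (nat_lit 14242959524133701664)) (.cons (.rf (nat_lit 43) (nat_lit 13126066816545818656)) .nil))) .nil))) .nil))) .nil))) .nil)) .nil))) .nil))),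
 (.br (nat_lit 0) (nat_lit 0) (.cons (.ev (nat_lit 310698658079782736071032833) (nat_lit 1)) (.cons (.kr (nat_lit 2422592452737676680888832) (nat_lit 158456325028672791474692227072) (nat_lit 1) (nat_lit 0)) (.cons (.br (nat_lit 11) (nat_lit 0) (.cons (.kr (nat_lit 158456325028672790375163822080) (nat_lit 4740813509517859880960) (nat_lit 2) (nat_lit 0)) (.cons (.ev (nat_lit 309485028340147835983888641) (nat_lit 1)) .nil))) .nil)))),
 (.br (nat_lit 7) (nat_lit 0) (.cons (.ev (nat_lit 72057598332895489) (nat_lit 1)) (.cons (.rf (nat_lit 45) (nat_lit 14242959524133701664)) (.cons (.rf (nat_lit 45) (nat_lit 14207945579565418624)) (.cons (.ev (nat_lit 158456329769342186912561037824) (nat_lit 2)) (.cons (.br (nat_lit 10) (nat_lit 0) (.cons (.br (nat_lit 11) (nat_lit 0) (.cons (.ev (nat_lit 158458747620981413971920748544) (nat_lit 2)) (.cons (.ev (nat_lit 309485028340147835983888641) (nat_lit 1)) .nil))) (.cons (.kr (nat_lit 1208944266358702884258048) (nat_lit 309485009821345073036525568) (nat_lit 1) (nat_lit 0)) (.cons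 (.br (nat_lit 11) (nat_lit 0) (.cons (.ev (nat_lit 159075299825878362989816513024) (nat_lit 2)) (.cons (.ev (nat_lit 621392612239544101734907904) (nat_lit 2)) .nil))) (.cons (.br (nat_lit 11) (nat_lit 0) (.cons (.ev (nat_lit 1208925891673327036006401) (nat_lit 1)) (.cons (.ev (nat_lit 621392612239544101734907904) (nat_lit 2)) (.cons (.ev (nat_lit 20282409603651742482645095874816) (nat_lit 1)) .nil)))) .nil))))) .nil)))))),
 (.br (nat_lit 7) (nat_lit 0) (.cons (.ev (nat_lit 79229371458530696300723240961) (nat_lit 1)) (.cons (.ev (nat_lit 159077717677951633285160699392) (nat_lit 3)) (.cons (.br (nat_lit 11) (nat_lit 0) (.cons (.ev (nat_lit 79228167236631101942460842241) (nat_lit 1)) (.cons (.kr (nat_lit 158456329751039274344320663552) (nat_lit 618970038089715694742536192) (nat_lit 2) (nat_lit 0)) .nil))) .nil)))),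
 (.br (nat_lit 0) (nat_lit 0) (.cons (.rf (nat_lit 46) (nat_lit 14242959524133701664)) (.cons (.rf (nat_lit 46) (nat_lit 13126066712429530144)) (.cons (.rf (nat_lit 46) (nat_lit 8215983406428919104)) (.cons (.rf (nat_lit 46) (nat_lit 4865305248266361152)) (.cons (.br (nat_lit 4) (nat_lit 0) (.cons (.br (nat_lit 11) (nat_lit 0) (.cons (.ev (nat_lit 159077717677950502987139974656) (nat_lit 3)) (.cons (.ev (nat_lit 309485028340147835983888641) (nat_lit 1)) .nil))) (.cons (.br (nat_lit 7) (nat_lit 0) (.cons (.ev (nat_lit 159077717677951633285160699392) (nat_lit 3)) (.cons (.ev (nat_lit 309485028340147835983888641) (nat_lit 1)) .nil))) (.cons (.rf (nat_lit 47) (nat_lit 14242959524133701664)) (.cons (.br (nat_lit 7) (nat_lit 0) (.cons (.rf (nat_lit 47) (nat_lit 13126066712429530144)) (.cons (.ev (nat_lit 79228162532711363146525180161) (nat_lit 1)) (.cons (.ev (nat_lit 20282413244614819858288574726403) (nat_lit 2)) .nil)))) .nil))))) .nil)))))),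
 (.br (nat_lit 6) (nat_lit 0) (.cons (.kr (nat_lit 72058693549555712) (nat_lit 309485009821626543701491712) (nat_lit 5) (nat_lit 0)) (.cons (.ev (nat_lit 18519083147019157761) (nat_lit 1)) .nil))),
 (.br (nat_lit 0) (nat_lit 0) (.cons (.rf (nat_lit 46) (nat_lit 14242959524133701664)) (.cons (.rf (nat_lit 46) (nat_lit 13126066712429530144)) (.cons (.rf (nat_lit 46) (nat_lit 8215983406428919104)) (.cons (.rf (nat_lit 46) (nat_lit 1409739179579057504)) (.cons (.br (nat_lit 4) (nat_lit 0) (.cons (.ev (nat_lit 618974760600877793338786304) (nat_lit 2)) (.cons (.kr (nat_lit 2422592452457301215805952) (nat_lit 618970019642971621033050112) (nat_lit 1) (nat_lit 0)) (.cons (.rf (nat_lit 49) (nat_lit 15433072045017106464)) (.cons (.br (nat_lit 7) (nat_lit 0) (.cons (.rf (nat_lit 49) (nat_lit 15241451294274393440)) (.cons (.ev (nat_lit 72340172838076673) (nat_lit 1)) (.cons (.rf (nat_lit 46) (nat_lit 11974159954076573837)) .nil)))) .nil))))) .nil)))))),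
 (.br (nat_lit 6) (nat_lit 0) (.cons (.rf (nat_lit 13) (nat_lit 138615822506)) (.cons (.br (nat_lit 11) (nat_lit 1) (.cons (.br (nat_lit 9) (nat_lit 0) (.cons (.br (nat_lit 0) (nat_lit 0) (.cons (.rf (nat_lit 46) (nat_lit 14242959524133701664)) (.cons (.rf (nat_lit 46) (nat_lit 13126066712429530144)) (.cons (.rf (nat_lit 48) (nat_lit 14242959524133701664)) (.cons (.rf (nat_lit 50) (nat_lit 14242959524133701664)) (.cons (.rf (nat_lit 50) (nat_lit 13126066712429530144)) (.cons (.br (nat_lit 0) (nat_lit 0) (.cons (.rf (nat_lit 46) (nat_lit 14242959524133701664)) (.cons (.rf (nat_lit 46) (nat_lit 13126066712429530144)) (.cons (.rf (nat_lit 48) (nat_lit 14242959524133701664)) (.cons (.rf (nat_lit 50) (nat_lit 14242959524133701664)) (.cons (.rf (nat_lit 50) (nat_lit 13126066712429530144)) .nil)))))) .nil))))))) .nil)) .nil)) .nil))),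
 (.br (nat_lit 0) (nat_lit 0) (.cons (.rf (nat_lit 44) (nat_lit 40042045568)) (.cons (.rf (nat_lit 44) (nat_lit 41083315424)) (.cons (.rf (nat_lit 44) (nat_lit 346051223904)) (.cons (.rf (nat_lit 44) (nat_lit 347094590848)) (.cons (.br (nat_lit 13) (nat_lit 0) (.cons (.rf (nat_lit 44) (nat_lit 40042045581)) (.cons (.rf (nat_lit 44) (nat_lit 41083315437)) (.cons (.rf (nat_lit 44) (nat_lit 346051223917)) (.cons (.rf (nat_lit 44) (nat_lit 347094590861)) .nil))))) .nil)))))),
 (.br (nat_lit 6) (nat_lit 0) (.cons (.rf (nat_lit 13) (nat_lit 138615822506)) (.cons (.br (nat_lit 8) (nat_lit 0) (.cons (.br (nat_lit 9) (nat_lit 0) (.cons (.br (nat_lit 0) (nat_lit 0) (.cons (.rf (nat_lit 44) (nat_lit 40042045568)) (.cons (.rf (nat_lit 44) (nat_lit 41083315424)) (.cons (.rf (nat_lit 52) (nat_lit 14242959524133701664)) (.cons (.rf (nat_lit 44) (nat_lit 346051223904)) (.cons (.rf (nat_lit 44) (nat_lit 347094590848)) (.cons (.br (nat_lit 0) (nat_lit 0) (.cons (.rf (nat_lit 44) (nat_lit 40042045568)) (.cons (.rf (nat_lit 44) (nat_lit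 41083315424)) (.cons (.rf (nat_lit 52) (nat_lit 14242959524133701664)) (.cons (.rf (nat_lit 44) (nat_lit 346051223904)) (.cons (.rf (nat_lit 44) (nat_lit 347094590848)) .nil)))))) .nil))))))) .nil)) (.cons (.br (nat_lit 9) (nat_lit 0) (.cons (.kr (nat_lit 4722366764344621989888) (nat_lit 18446745173237956608) (nat_lit 2) (nat_lit 0)) .nil)) .nil))) .nil))),
 (.br (nat_lit 1) (nat_lit 1) (.cons (.br (nat_lit 1) (nat_lit 1) (.cons (.br (nat_lit 2) (nat_lit 0) (.cons (.br (nat_lit 2) (nat_lit 1) (.cons (.rf (nat_lit 12) (nat_lit 4294688)) (.cons (.br (nat_lit 3) (nat_lit 1) (.cons (.br (nat_lit 3) (nat_lit 0) (.cons (.rf (nat_lit 20) (nat_lit 6614517792)) (.cons (.br (nat_lit 4) (nat_lit 1) (.cons (.rf (nat_lit 26) (nat_lit 247132686368)) (.cons (.rf (nat_lit 44) (nat_lit 247132686368)) (.cons (.br (nat_lit 8) (nat_lit 1) (.cons (.br (nat_lit 5) (nat_lit 0) (.cons (.rf (nat_lit 44) (nat_lit 143016397856)) (.cons (.br (nat_lit 5) (nat_lit 0) (.cons (.rf (nat_lit 44) (nat_lit 143016397856)) (.cons (.br (nat_lit 7)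 (nat_lit 1) (.cons (.rf (nat_lit 26) (nat_lit 143016397856)) (.cons (.br (nat_lit 10) (nat_lit 1) (.cons (.rf (nat_lit 51) (nat_lit 407901468851537952)) (.cons (.br (nat_lit 11) (nat_lit 1) (.cons (.rf (nat_lit 51) (nat_lit 372998571739416608)) (.cons (.rf (nat_lit 13) (nat_lit 38925608106)) .nil))) .nil))) (.cons (.br (nat_lit 6) (nat_lit 0) (.cons (.rf (nat_lit 53) (nat_lit 407901468851537952)) (.cons (.rf (nat_lit 53) (nat_lit 372998571739416608)) (.cons (.br (nat_lit 6) (nat_lit 0) (.cons (.rf (nat_lit 53) (nat_lit 407901468851537952)) (.cons (.rf (nat_lit 53) (nat_lit 372998571739416608)) .nil))) .nil)))) .nil)))) .nil))) .nil))) .nil)) .nil)))) .nil))) .nil)) .nil))) .nil)) .nil)) .nil)),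
 (.br (nat_lit 0) (nat_lit 0) (.cons (.rf (nat_lit 54) (nat_lit 32)) (.cons (.br (nat_lit 0) (nat_lit 0) (.cons (.rf (nat_lit 54) (nat_lit 64)) .nil)) .nil)))]

theorem c1 : chkAll C T R L1 (nat_lit 30) = true := by decide +kernel

theorem l1 : (nat_lit 30) + L1.length = (nat_lit 56) := by decide +kernel

theorem r : isRoot (T.get (nat_lit 55)) (nat_lit 0) = true := by decide +kernel

theorem no {V : Type} [Fintype V] {Nb : V → Finset V} {x : V → ℤ} (H : Hyp C Nb x)
    (hR : ∀ t, (univ.filter (fun w => ty Nb x w = t)).card ≤ R / 16 ^ t % 16) (v : V)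
    (hv : ty Nb x v = 0) : False := by
  have h0 : ∀ i < (nat_lit 0), ∀ φ, ¬ PEmb Nb x (T.get i) φ := fun i hi => absurd hi (Nat.not_lt_zero i)
  have h1 := chkAll_sound H hR c0 h0
  rw [l0] at h1
  have h2 := chkAll_sound H hR c1 h1
  rw [l1] at h2
  exact no_root h2 (Nat.lt_succ_self (nat_lit 55)) r v hv

end N14_6_0

end Pool.Agent.H93.Neg
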