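import Pool.Agent.H93.Neg.TabN18_2_8

/-!
Certificates.
-/

set_option autoImplicit false
set_option maxRecDepth 100000
set_option linter.all false

namespace Pool.Agent.H93.Neg.N18_2_8

/-- part of the certificates -/
def L0 : List Prf := [(.br (nat_lit 5) (nat_lit 0) (.cons (.br (nat_lit 6) (nat_lit 0) (.cons (.kr (nat_lit 4294967296) (nat_lit 1099511627776) (nat_lit 4) (nat_lit 0)) (.cons (.br (nat_lit 6) (nat_lit 0) (.cons (.kr (nat_lit 4294967296) (nat_lit 1099511627776) (nat_lit 4) (nat_lit 0)) .nil)) .nil))) .nil)),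
 (.br (nat_lit 5) (nat_lit 0) (.cons (.br (nat_lit 6) (nat_lit 0) (.cons (.kr (nat_lit 281474976710656) (nat_lit 72057594037927936) (nat_lit 6) (nat_lit 0)) .nil)) .nil)),
 (.br (nat_lit 4) (nat_lit 0) (.cons (.br (nat_lit 5) (nat_lit 0) (.cons (.br (nat_lit 6) (nat_lit 0) (.cons (.br (nat_lit 6) (nat_lit 0) .nil) .nil)) .nil)) .nil)),
 (.br (nat_lit 4) (nat_lit 0) (.cons (.br (nat_lit 5) (nat_lit 0) (.cons (.br (nat_lit 6) (nat_lit 0) (.cons (.br (nat_lit 7) (nat_lit 0) .nil) .nil)) (.cons (.br (nat_lit 6) (nat_lit 0) (.cons (.br (nat_lit 6) (nat_lit 0) .nil) .nil)) .nil))) .nil)),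
 (.br (nat_lit 9) (nat_lit 0) (.cons (.ev (nat_lit 4722438821938676695041) (nat_lit 1)) .nil)),
 (.br (nat_lit 5) (nat_lit 0) (.cons (.br (nat_lit 6) (nat_lit 0) (.cons (.rf (nat_lit 2) (nat_lit 7541825)) (.cons (.br (nat_lit 7) (nat_lit 0) (.cons (.rf (nat_lit 3) (nat_lit 275977281)) (.cons (.br (nat_lit 7) (nat_lit 0) (.cons (.rf (nat_lit 3) (nat_lit 275977281)) (.cons (.br (nat_lit 8) (nat_lit 0) (.cons (.rf (nat_lit 4) (nat_lit 11584701642934304)) (.cons (.rf (nat_lit 4) (nat_lit 10493986108180512)) .nil))) .nil))) .nil))) .nil))) .nil)),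
 (.br (nat_lit 5) (nat_lit 0) (.cons (.br (nat_lit 6) (nat_lit 0) (.cons (.br (nat_lit 7) (nat_lit 0) .nil) .nil)) (.cons (.br (nat_lit 6) (nat_lit 0) (.cons (.br (nat_lit 6) (nat_lit 0) .nil) .nil)) .nil))),
 (.br (nat_lit 8) (nat_lit 0) (.cons (.br (nat_lit 9) (nat_lit 0) (.cons (.ev (nat_lit 1223148331635627799020290) (nat_lit 2)) .nil)) .nil)),
 (.br (nat_lit 6) (nat_lit 0) (.cons (.kr (nat_lit 281474976710912) (nat_lit 1099511693312) (nat_lit 1) (nat_lit 0)) (.cons (.br (nat_lit 7) (nat_lit 0) (.cons (.rf (nat_lit 6) (nat_lit 9939653697)) (.cons (.rf (nat_lit 6) (nat_lit 8899434530)) (.cons (.br (nat_lit 8) (nat_lit 0) (.cons (.rf (nat_lit 7) (nat_lit 11584701642934304)) (.cons (.br (nat_lit 8) (nat_lit 0) (.cons (.rf (nat_lit 7) (nat_lit 11584701642934304)) .nil)) .nil))) .nil)))) .nil))),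
 (.br (nat_lit 8) (nat_lit 0) (.cons (.kr (nat_lit 72057594037927936) (nat_lit 18446744073709551616) (nat_lit 7) (nat_lit 0)) (.cons (.ev (nat_lit 18519083142741032961) (nat_lit 1)) .nil))),
 (.br (nat_lit 7) (nat_lit 0) (.cons (.rf (nat_lit 9) (nat_lit 11584701642934304)) (.cons (.rf (nat_lit 9) (nat_lit 10493986108180512)) .nil))),
 (.br (nat_lit 7) (nat_lit 0) (.cons (.rf (nat_lit 10) (nat_lit 11584701642934304)) (.cons (.br (nat_lit 9) (nat_lit 0) (.cons (.br (nat_lit 8) (nat_lit 0) (.cons (.ev (nat_lit 18518802767275884801) (nat_lit 1)) .nil)) (.cons (.kr (nat_lit 4722366482869645213696) (nat_lit 1208925819614629174706176) (nat_lit 9) (nat_lit 0)) .nil))) .nil))),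
 (.br (nat_lit 5) (nat_lit 0) (.cons (.br (nat_lit 6) (nat_lit 0) (.cons (.kr (nat_lit 281474976710656) (nat_lit 72057594037927936) (nat_lit 6) (nat_lit 0)) .nil)) .nil)),
 (.br (nat_lit 2) (nat_lit 0) (.cons (.br (nat_lit 3) (nat_lit 0) (.cons (.rf (nat_lit 2) (nat_lit 4294688)) (.cons (.br (nat_lit 4) (nat_lit 0) (.cons (.rf (nat_lit 3) (nat_lit 172066848)) (.cons (.br (nat_lit 4) (nat_lit 0) (.cons (.rf (nat_lit 3) (nat_lit 172066848)) (.cons (.br (nat_lit 5) (nat_lit 0) (.cons (.rf (nat_lit 12) (nat_lit 247132686368)) (.cons (.rf (nat_lit 12) (nat_lit 213846689824)) .nil))) .nil))) .nil))) .nil))) .nil)),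
 (.br (nat_lit 7) (nat_lit 1) (.cons (.br (nat_lit 8) (nat_lit 1) (.cons (.kr (nat_lit 281474976710656) (nat_lit 72057594037927936) (nat_lit 6) (nat_lit 0)) (.cons (.br (nat_lit 8) (nat_lit 1) (.cons (.kr (nat_lit 281474976710656) (nat_lit 72057594037927936) (nat_lit 6) (nat_lit 0)) .nil)) .nil))) .nil)),
 (.br (nat_lit 7) (nat_lit 1) (.cons (.br (nat_lit 8) (nat_lit 1) (.cons (.kr (nat_lit 18446744073709551616) (nat_lit 4722366482869645213696) (nat_lit 8) (nat_lit 0)) .nil)) .nil)),
 (.br (nat_lit 6) (nat_lit 1) (.cons (.br (nat_lit 7) (nat_lit 1) (.cons (.br (nat_lit 8) (nat_lit 1) (.cons (.br (nat_lit 9) (nat_lit 1) .nil) .nil)) (.cons (.br (nat_lit 8) (nat_lit 1) (.cons (.br (nat_lit 8) (nat_lit 1) .nil) .nil)) .nil))) .nil)),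
 (.br (nat_lit 9) (nat_lit 1) (.cons (.kr (nat_lit 18518802767259107329) (nat_lit 4722366764348933668864) (nat_lit 0) (nat_lit 1)) .nil)),
 (.br (nat_lit 6) (nat_lit 1) (.cons (.br (nat_lit 7) (nat_lit 1) (.cons (.br (nat_lit 8) (nat_lit 1) (.cons (.br (nat_lit 9) (nat_lit 1) (.cons (.br (nat_lit 10) (nat_lit 1) (.cons (.br (nat_lit 10) (nat_lit 1) .nil) .nil)) .nil)) .nil)) (.cons (.br (nat_lit 8) (nat_lit 1) (.cons (.rf (nat_lit 16) (nat_lit 318068920416)) (.cons (.br (nat_lit 8) (nat_lit 1) (.cons (.rf (nat_lit 16) (nat_lit 318068920416)) (.cons (.br (nat_lit 9) (nat_lit 1) (.cons (.rf (nat_lit 17) (nat_lit 407901468851537952)) (.cons (.rf (nat_lit 17) (nat_lit 372998571739416608)) .nil))) .nil))) .nil))) .nil))) .nil)),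
 (.br (nat_lit 12) (nat_lit 1) (.cons (.br (nat_lit 15) (nat_lit 1) (.cons (.ev (nat_lit 344270091711107609327256731593658728961) (nat_lit 2)) .nil)) .nil)),
 (.br (nat_lit 11) (nat_lit 1) (.cons (.ev (nat_lit 1344804887292606903597844767749374723) (nat_lit 2)) (.cons (.br (nat_lit 12) (nat_lit 1) (.cons (.ev (nat_lit 5192376087906286231284386812199168) (nat_lit 1)) (.cons (.ev (nat_lit 5192376397391277533827792067690753) (nat_lit 1)) (.cons (.br (nat_lit 13) (nat_lit 1) (.cons (.rf (nat_lit 19) (nat_lit 21174442659471745632798752)) (.cons (.br (nat_lit 13) (nat_lit 1) (.cons (.rf (nat_lit 19) (nat_lit 21174442659471745632798752)) .nil)) .nil))) .nil)))) .nil))),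
 (.br (nat_lit 13) (nat_lit 1) (.cons (.ev (nat_lit 681909538886697403811037013128215986944) (nat_lit 2)) (.cons (.zr (nat_lit 625019444894505022294917376) (nat_lit 4003301601205884433610650939495022594) (nat_lit 8) (nat_lit 5)) .nil))),
 (.br (nat_lit 12) (nat_lit 1) (.cons (.rf (nat_lit 21) (nat_lit 677582165103132179601393696)) (.cons (.rf (nat_lit 21) (nat_lit 640105464695078675185502240)) .nil))),
 (.br (nat_lit 12) (nat_lit 1) (.cons (.rf (nat_lit 22) (nat_lit 677582165103132179601393696)) (.cons (.br (nat_lit 16) (nat_lit 1) (.cons (.br (nat_lit 13) (nat_lit 1) (.cons (.ev (nat_lit 1355230204597130734101958109169778944) (nat_lit 3)) .nil)) (.cons (.ev (nat_lit 681909538886697403811037013128215986944) (nat_lit 2)) .nil))) .nil))),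
 (.br (nat_lit 10) (nat_lit 0) (.cons (.br (nat_lit 14) (nat_lit 0) (.cons (.br (nat_lit 11) (nat_lit 1) (.cons (.rf (nat_lit 20) (nat_lit 583706118939841765935136)) (.cons (.rf (nat_lit 20) (nat_lit 583670378373198953678880)) (.cons (.br (nat_lit 11) (nat_lit 1) (.cons (.rf (nat_lit 20) (nat_lit 583706118939841765935136)) (.cons (.rf (nat_lit 20) (nat_lit 583670378373198953678880)) (.cons (.br (nat_lit 12) (nat_lit 1) (.cons (.rf (nat_lit 22) (nat_lit 677582165103132179601393696)) (.cons (.rf (nat_lit 23) (nat_lit 677582165103132179601393696)) (.cons (.rf (nat_lit 23) (nat_lit 640105464695078675185502240)) .nil)))) .nil)))) .nil)))) .nil)) .nil)),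
 (.br (nat_lit 6) (nat_lit 0) (.cons (.kr (nat_lit 281474976710912) (nat_lit 1099511693312) (nat_lit 1) (nat_lit 0)) (.cons (.br (nat_lit 9) (nat_lit 0) (.cons (.rf (nat_lit 6) (nat_lit 15377568833)) (.cons (.rf (nat_lit 6) (nat_lit 11216787490)) (.cons (.br (nat_lit 10) (nat_lit 0) (.cons (.rf (nat_lit 24) (nat_lit 583706118939841765935136)) (.cons (.br (nat_lit 10) (nat_lit 0) (.cons (.rf (nat_lit 24) (nat_lit 583706118939841765935136)) .nil)) .nil))) .nil)))) .nil))),
 (.br (nat_lit 12) (nat_lit 1) (.cons (.br (nat_lit 15) (nat_lit 1) (.cons (.ev (nat_lit 1329228075013083127981654171684176128) (nat_lit 1)) .nil)) .nil)),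
 (.br (nat_lit 11) (nat_lit 1) (.cons (.ev (nat_lit 311912361750508023905910785) (nat_lit 2)) (.cons (.br (nat_lit 12) (nat_lit 1) (.cons (.ev (nat_lit 1334420451103416710657754100127695104) (nat_lit 2)) (.cons (.ev (nat_lit 1334420451722386693262840910638678274) (nat_lit 2)) (.cons (.br (nat_lit 13) (nat_lit 1) (.cons (.rf (nat_lit 26) (nat_lit 21168355234109975846587424)) (.cons (.br (nat_lit 13) (nat_lit 1) (.cons (.rf (nat_lit 26) (nat_lit 21168355234109975846587424)) .nil)) .nil))) .nil)))) .nil))),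
 (.br (nat_lit 13) (nat_lit 1) (.cons (.ev (nat_lit 340282367000167839625897381597441753088) (nat_lit 1)) (.cons (.zr (nat_lit 1334461015918983032546262798810743042) (nat_lit 622611037987958928747724800) (nat_lit 8) (nat_lit 1)) .nil))),
 (.br (nat_lit 12) (nat_lit 1) (.cons (.rf (nat_lit 28) (nat_lit 677582165103132179601393696)) (.cons (.rf (nat_lit 28) (nat_lit 640105464695078675185502240)) .nil))),
 (.br (nat_lit 12) (nat_lit 1) (.cons (.rf (nat_lit 29) (nat_lit 677582165103132179601393696)) (.cons (.br (nat_lit 16) (nat_lit 1) (.cons (.br (nat_lit 13) (nat_lit 1) (.cons (.ev (nat_lit 1334461017158136830843446128573219072) (nat_lit 3)) .nil)) (.cons (.ev (nat_lit 340282367000167839625897381597441753088) (nat_lit 1)) .nil))) .nil))),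
 (.br (nat_lit 10) (nat_lit 0) (.cons (.kr (nat_lit 4722366482869645213696) (nat_lit 1208925819614629174706176) (nat_lit 9) (nat_lit 0)) (.cons (.br (nat_lit 14) (nat_lit 0) (.cons (.br (nat_lit 11) (nat_lit 1) (.cons (.rf (nat_lit 27) (nat_lit 583706118939841765935136)) (.cons (.rf (nat_lit 27) (nat_lit 583670378373198953678880)) (.cons (.br (nat_lit 11) (nat_lit 1) (.cons (.rf (nat_lit 27) (nat_lit 583706118939841765935136)) (.cons (.rf (nat_lit 27) (nat_lit 583670378373198953678880)) (.cons (.br (nat_lit 12) (nat_lit 1) (.cons (.rf (nat_lit 29) (nat_lit 677582165103132179601393696)) (.cons (.rf (nat_lit 30) (nat_lit 677582165103132179601393696)) (.cons (.rf (nat_lit 30) (nat_lit 640105464695078675185502240)) .nil)))) .nil)))) .nil)))) .nil)) .nil))),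
 (.br (nat_lit 9) (nat_lit 0) (.cons (.rf (nat_lit 31) (nat_lit 583706118939841765935136)) (.cons (.rf (nat_lit 31) (nat_lit 547107778697602015528992)) .nil))),
 (.br (nat_lit 11) (nat_lit 1) (.cons (.br (nat_lit 14) (nat_lit 1) (.cons (.ev (nat_lit 5192297168019855968678336624853248) (nat_lit 1)) .nil)) .nil)),
 (.br (nat_lit 11) (nat_lit 1) (.cons (.ev (nat_lit 311912361749947272975614465) (nat_lit 2)) (.cons (.br (nat_lit 12) (nat_lit 1) (.cons (.ev (nat_lit 1334420451103416710657193349197398784) (nat_lit 2)) (.cons (.ev (nat_lit 1334420451722386693262280159708381954) (nat_lit 2)) (.cons (.br (nat_lit 13) (nat_lit 1) (.cons (.rf (nat_lit 33) (nat_lit 661701333108527518059552)) (.cons (.br (nat_lit 13) (nat_lit 1) (.cons (.rf (nat_lit 33) (nat_lit 661701333108527518059552)) .nil)) .nil))) .nil)))) .nil))),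
 (.br (nat_lit 13) (nat_lit 1) (.cons (.ev (nat_lit 341616787292810076678243621655231397888) (nat_lit 1)) (.cons (.zr (nat_lit 1334461015919006644378391274013655042) (nat_lit 622596870889354744742019840) (nat_lit 8) (nat_lit 9)) .nil))),
 (.br (nat_lit 12) (nat_lit 1) (.cons (.rf (nat_lit 35) (nat_lit 677582165103132179601393696)) (.cons (.rf (nat_lit 35) (nat_lit 640105464695078675185502240)) .nil))),
 (.br (nat_lit 12) (nat_lit 1) (.cons (.rf (nat_lit 36) (nat_lit 677582165103132179601393696)) (.cons (.br (nat_lit 16) (nat_lit 1) (.cons (.br (nat_lit 13) (nat_lit 1) (.cons (.ev (nat_lit 1334461017158136830843446128573219072) (nat_lit 3)) .nil)) (.cons (.ev (nat_lit 341616787292810076678243621655231397888) (nat_lit 1)) .nil))) .nil))),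
 (.br (nat_lit 9) (nat_lit 0) (.cons (.rf (nat_lit 32) (nat_lit 583706118939841765935136)) (.cons (.br (nat_lit 14) (nat_lit 0) (.cons (.br (nat_lit 10) (nat_lit 0) (.cons (.br (nat_lit 11) (nat_lit 1) (.cons (.rf (nat_lit 34) (nat_lit 583706118939841765935136)) (.cons (.rf (nat_lit 34) (nat_lit 583670378373198953678880)) (.cons (.br (nat_lit 11) (nat_lit 1) (.cons (.rf (nat_lit 34) (nat_lit 583706118939841765935136)) (.cons (.rf (nat_lit 34) (nat_lit 583670378373198953678880)) (.cons (.br (nat_lit 12) (nat_lit 1) (.cons (.rf (nat_lit 36) (nat_lit 677582165103132179601393696)) (.cons (.rf (nat_lit 37) (nat_lit 677582165103132179601393696)) (.cons (.rf (nat_lit 37) (nat_lit 640105464695078675185502240)) .nil)))) .nil)))) .nil)))) .nil)) (.cons (.kr (nat_lit 5192296858534827628530496329220096) (nat_lit 1329227995784915872903807060280344576) (nat_lit 14) (nat_lit 0)) .nil))) .nil))),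
 (.br (nat_lit 4) (nat_lit 1) (.cons (.br (nat_lit 5) (nat_lit 0) (.cons (.rf (nat_lit 13) (nat_lit 201793)) (.cons (.br (nat_lit 5) (nat_lit 0) (.cons (.rf (nat_lit 13) (nat_lit 201793)) (.cons (.br (nat_lit 7) (nat_lit 1) (.cons (.br (nat_lit 8) (nat_lit 1) (.cons (.br (nat_lit 11) (nat_lit 1) (.cons (.br (nat_lit 11) (nat_lit 1) (.cons (.br (nat_lit 12) (nat_lit 1) (.cons (.rf (nat_lit 14) (nat_lit 459939221600)) (.cons (.br (nat_lit 12) (nat_lit 1) (.cons (.rf (nat_lit 14) (nat_lit 459939221600)) (.cons (.br (nat_lit 13) (nat_lit 1) (.cons (.rf (nat_lit 15) (nat_lit 543618683342944)) (.cons (.rf (nat_lit 15) (nat_lit 509533822881888)) .nil))) .nil))) .nil))) .nil)) .nil)) .nil)) (.cons (.br (nat_lit 8) (nat_lit 1) (.cons (.rf (nat_lit 18) (nat_lit 386786232352)) (.cons (.br (nat_lit 8) (nat_lit 1) (.cons (.rf (nat_lit 18) (nat_lit 386786232352)) (.cons (.br (nat_lit 6) (nat_lit 0) (.cons (.rf (nat_lit 25) (nat_lit 493858305440582043680)) (.cons (.rf (nat_lit 25) (nat_lit 493857214725047289888))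 (.cons (.br (nat_lit 6) (nat_lit 0) (.cons (.rf (nat_lit 25) (nat_lit 493858305440582043680)) (.cons (.rf (nat_lit 25) (nat_lit 493857214725047289888)) (.cons (.br (nat_lit 9) (nat_lit 0) (.cons (.rf (nat_lit 32) (nat_lit 583706118939841765935136)) (.cons (.rf (nat_lit 38) (nat_lit 583706118939841765935136)) (.cons (.rf (nat_lit 38) (nat_lit 547107778697602015528992)) .nil)))) .nil)))) .nil)))) .nil))) .nil))) .nil))) .nil))) .nil))) .nil)),
 (.br (nat_lit 8) (nat_lit 1) (.cons (.br (nat_lit 8) (nat_lit 1) .nil) .nil)),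
 (.br (nat_lit 14) (nat_lit 1) (.cons (.ev (nat_lit 10405114740834249737395869703144194) (nat_lit 2)) (.cons (.br (nat_lit 15) (nat_lit 1) (.cons (.ev (nat_lit 7985773248530460238899422772496236800) (nat_lit 3)) (.cons (.rf (nat_lit 40) (nat_lit 616257250627680)) .nil))) .nil))),
 (.br (nat_lit 15) (nat_lit 1) (.cons (.ev (nat_lit 1344865813130619834929840691009880320) (nat_lit 2)) .nil)),
 (.br (nat_lit 9) (nat_lit 1) (.cons (.rf (nat_lit 41) (nat_lit 583706118939841765935136)) (.cons (.br (nat_lit 14) (nat_lit 1) (.cons (.rf (nat_lit 41) (nat_lit 577803161012073493694499)) (.cons (.ev (nat_lit 10405114740834249737395869703144194) (nat_lit 2)) (.cons (.br (nat_lit 15) (nat_lit 1) (.cons (.rf (nat_lit 42) (nat_lit 677582165103132179601393696)) (.cons (.rf (nat_lit 42) (nat_lit 640099561737150906913261603)) .nil))) .nil)))) .nil)))]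

theorem c0 : chkAll C T R L0 (nat_lit 0) = true := by decide +kernel

theorem l0 : (nat_lit 0) + L0.length = (nat_lit 44) := by decide +kernel

/-- part of the certificates -/
def L1 : List Prf := [(.br (nat_lit 10) (nat_lit 1) (.cons (.kr (nat_lit 4740885285636904321025) (nat_lit 310693935641241177187942400) (nat_lit 0) (nat_lit 1)) .nil)),
 (.br (nat_lit 14) (nat_lit 1) (.cons (.ev (nat_lit 10405114740834249881511066335380224) (nat_lit 2)) (.cons (.br (nat_lit 15) (nat_lit 1) (.cons (.ev (nat_lit 341611615199134191913840793237017591808) (nat_lit 1)) (.cons (.rf (nat_lit 44) (nat_lit 631047424642746400)) .nil))) .nil))),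
 (.br (nat_lit 9) (nat_lit 1) (.cons (.rf (nat_lit 43) (nat_lit 583706118939841765935136)) (.cons (.br (nat_lit 14) (nat_lit 1) (.cons (.ev (nat_lit 2658476512593586932592586602366305024) (nat_lit 2)) (.cons (.rf (nat_lit 45) (nat_lit 19926519232773908561233952)) (.cons (.br (nat_lit 14) (nat_lit 1) (.cons (.ev (nat_lit 2658476512593586932592586602366305024) (nat_lit 2)) (.cons (.rf (nat_lit 45) (nat_lit 19926519232773908561233952)) .nil))) .nil)))) .nil))),
 (.br (nat_lit 14) (nat_lit 1) (.cons (.rf (nat_lit 46) (nat_lit 577803161012073493694499)) (.cons (.ev (nat_lit 10405114740834249881511066335380224) (nat_lit 2)) .nil))),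
 (.br (nat_lit 7) (nat_lit 1) (.cons (.kr (nat_lit 72057594037927937) (nat_lit 4311744512) (nat_lit 0) (nat_lit 1)) (.cons (.br (nat_lit 8) (nat_lit 1) (.cons (.zr (nat_lit 1548634011820110694706118912) (nat_lit 61084913298497804284631009198080) (nat_lit 8) (nat_lit 5)) (.cons (.zr (nat_lit 1548634011820110694706118912) (nat_lit 61084913298497948399810461564930) (nat_lit 8) (nat_lit 5)) (.cons (.br (nat_lit 9) (nat_lit 1) (.cons (.rf (nat_lit 43) (nat_lit 583706118939841765935136)) (.cons (.rf (nat_lit 46) (nat_lit 583706118939841765935136)) (.cons (.br (nat_lit 9) (nat_lit 1) (.cons (.rf (nat_lit 43) (nat_lit 583706118939841765935136)) (.cons (.rf (nat_lit 46) (nat_lit 583706118939841765935136)) (.cons (.br (nat_lit 14) (nat_lit 1) (.cons (.rf (nat_lit 46) (nat_lit 577803161012073493694499)) (.cons (.rf (nat_lit 47) (nat_lit 677582165103132179601393696)) (.cons (.rf (nat_lit 47) (nat_lit 640105464695078675185502240)) .nil)))) .nil)))) .nil)))) .nil)))) .nil))),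
 (.br (nat_lit 8) (nat_lit 1) (.cons (.br (nat_lit 8) (nat_lit 1) .nil) .nil)),
 (.br (nat_lit 9) (nat_lit 1) (.cons (.br (nat_lit 10) (nat_lit 1) (.cons (.kr (nat_lit 1208944338417396433813505) (nat_lit 309489732188109417658449920) (nat_lit 0) (nat_lit 1)) .nil)) .nil)),
 (.br (nat_lit 9) (nat_lit 1) (.cons (.rf (nat_lit 50) (nat_lit 407901468851537952)) (.cons (.br (nat_lit 9) (nat_lit 1) (.cons (.rf (nat_lit 50) (nat_lit 407901468851537952)) .nil)) .nil))),
 (.br (nat_lit 9) (nat_lit 1) (.cons (.ev (nat_lit 10405114740824841897918277831820034) (nat_lit 2)) (.cons (.ev (nat_lit 79537652264970967199678267648) (nat_lit 1)) (.cons (.br (nat_lit 14) (nat_lit 1) (.cons (.br (nat_lit 15) (nat_lit 1) (.cons (.ev (nat_lit 2658476512593596340432064194237629184) (nat_lit 2)) (.cons (.rf (nat_lit 49) (nat_lit 616257250627680)) .nil))) (.cons (.br (nat_lit 15) (nat_lit 1) (.cons (.ev (nat_lit 680575139115697901483783340635350696194) (nat_lit 3)) (.cons (.br (nat_lit 15) (nat_lit 1) (.cons (.ev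 (nat_lit 680575139115697901483783340635350696194) (nat_lit 3)) .nil)) .nil))) (.cons (.rf (nat_lit 51) (nat_lit 631047424642746400)) .nil)))) .nil)))),
 (.br (nat_lit 14) (nat_lit 1) (.cons (.ev (nat_lit 10405114740824842042033474464056064) (nat_lit 2)) (.cons (.br (nat_lit 16) (nat_lit 1) (.cons (.br (nat_lit 15) (nat_lit 1) (.cons (.ev (nat_lit 1334420372181098224690077812933067008) (nat_lit 1)) .nil)) (.cons (.ev (nat_lit 87452568298760722757611359792630994108673) (nat_lit 1)) .nil))) .nil))),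
 (.br (nat_lit 8) (nat_lit 1) (.cons (.rf (nat_lit 52) (nat_lit 583706118939841765935136)) (.cons (.rf (nat_lit 52) (nat_lit 547107778697602015528992)) (.cons (.br (nat_lit 9) (nat_lit 1) (.cons (.rf (nat_lit 52) (nat_lit 583706118905756905474080)) (.cons (.rf (nat_lit 52) (nat_lit 547107778663517155067936)) (.cons (.kr (nat_lit 18446744073709551616) (nat_lit 4722366482869645213696) (nat_lit 8) (nat_lit 0)) (.cons (.br (nat_lit 14) (nat_lit 1) (.cons (.br (nat_lit 14) (nat_lit 1) (.cons (.ev (nat_lit 10405114740824842042033474464056064) (nat_lit 2)) (.cons (.ev (nat_lit 10405114740834249881511066335380224) (nat_lit 2)) .nil))) (.cons (.rf (nat_lit 53) (nat_lit 677582165103132179601393696)) (.cons (.rf (nat_lit 53) (nat_lit 640105464695044590325041184)) .nil)))) .nil))))) .nil)))),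
 (.br (nat_lit 8) (nat_lit 1) (.cons (.br (nat_lit 8) (nat_lit 1) .nil) .nil)),
 (.br (nat_lit 9) (nat_lit 1) (.cons (.ev (nat_lit 79537652264898909609918529793) (nat_lit 1)) (.cons (.br (nat_lit 15) (nat_lit 1) (.cons (.ev (nat_lit 2658476512593596340432064194237629184) (nat_lit 2)) (.cons (.rf (nat_lit 55) (nat_lit 616257250627680)) .nil))) .nil))),
 (.br (nat_lit 9) (nat_lit 1) (.cons (.ev (nat_lit 5212579578837155753141089129791745) (nat_lit 1)) .nil)),
 (.br (nat_lit 14) (nat_lit 1) (.cons (.rf (nat_lit 56) (nat_lit 583706118939841765935136)) (.cons (.ev (nat_lit 10405114740824841897918277831820034) (nat_lit 2)) (.cons (.br (nat_lit 15) (nat_lit 1) (.cons (.rf (nat_lit 56) (nat_lit 547107778697602015528992)) (.cons (.ev (nat_lit 1334420372181098224690077812933067008) (nat_lit 1)) (.cons (.br (nat_lit 9) (nat_lit 1) (.cons (.rf (nat_lit 57) (nat_lit 21174442659436561260709920)) (.cons (.rf (nat_lit 57) (nat_lit 20002152073552319255513120)) .nil))) .nil)))) .nil)))),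
 (.br (nat_lit 9) (nat_lit 1) (.cons (.br (nat_lit 15) (nat_lit 1) (.cons (.ev (nat_lit 2658476512593586932592586602366305024) (nat_lit 2)) (.cons (.kr (nat_lit 1329227995784915891350551133989896192) (nat_lit 5192296858539549995013365974433792) (nat_lit 8) (nat_lit 0)) .nil))) (.cons (.ev (nat_lit 10405114740834249881511066335380224) (nat_lit 2)) .nil))),
 (.br (nat_lit 9) (nat_lit 1) (.cons (.kr (nat_lit 1208944338417396433813505) (nat_lit 309489732188109417658449920) (nat_lit 0) (nat_lit 1)) .nil)),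
 (.br (nat_lit 9) (nat_lit 1) (.cons (.rf (nat_lit 59) (nat_lit 677582165103132179601393696)) (.cons (.br (nat_lit 16) (nat_lit 1) (.cons (.rf (nat_lit 60) (nat_lit 631047424642746400)) (.cons (.ev (nat_lit 349129718866156684469015696097419863326980) (nat_lit 3)) .nil))) .nil))),
 (.br (nat_lit 8) (nat_lit 1) (.cons (.rf (nat_lit 54) (nat_lit 583706118939841765935136)) (.cons (.rf (nat_lit 58) (nat_lit 583706118939841765935136)) (.cons (.br (nat_lit 14) (nat_lit 1) (.cons (.rf (nat_lit 58) (nat_lit 349948978255394553989155)) (.cons (.rf (nat_lit 54) (nat_lit 349948978255394553989155)) (.cons (.ev (nat_lit 10405114740824841897918277831820034) (nat_lit 2)) (.cons (.br (nat_lit 9) (nat_lit 1) (.cons (.rf (nat_lit 59) (nat_lit 677582165103132179601393696)) (.cons (.rf (nat_lit 61) (nat_lit 677582165103132179601393696)) (.cons (.br (nat_lit 9) (nat_lit 1) (.cons (.ev (nat_lit 10405114740834249881511066335380224) (nat_lit 2)) (.cons (.rf (nat_lit 61) (nat_lit 677582165103132179601393696))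 .nil))) .nil)))) .nil))))) .nil)))),
 (.br (nat_lit 9) (nat_lit 1) (.cons (.rf (nat_lit 62) (nat_lit 583706118905756905474080)) (.cons (.rf (nat_lit 62) (nat_lit 547107778663517155067936)) (.cons (.ev (nat_lit 79537652264898909609918529793) (nat_lit 1)) .nil)))),
 (.br (nat_lit 11) (nat_lit 0) (.cons (.br (nat_lit 12) (nat_lit 0) (.cons (.br (nat_lit 7) (nat_lit 1) (.cons (.rf (nat_lit 48) (nat_lit 493858305440582043680)) (.cons (.rf (nat_lit 48) (nat_lit 493858271355721582624)) (.cons (.br (nat_lit 7) (nat_lit 1) (.cons (.rf (nat_lit 48) (nat_lit 493858305440582043680)) (.cons (.rf (nat_lit 48) (nat_lit 493858271355721582624)) (.cons (.br (nat_lit 8) (nat_lit 1) (.cons (.rf (nat_lit 54) (nat_lit 583706118939841765935136)) (.cons (.rf (nat_lit 62) (nat_lit 583706118939841765935136)) (.cons (.rf (nat_lit 62) (nat_lit 547107778697602015528992)) (.cons (.br (nat_lit 8) (nat_lit 1) (.cons (.rf (nat_lit 54) (nat_lit 583706118939841765935136)) (.cons (.rf (nat_lit 62) (nat_lit 583706118939841765935136))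 (.cons (.rf (nat_lit 62) (nat_lit 547107778697602015528992)) (.cons (.br (nat_lit 9) (nat_lit 1) (.cons (.rf (nat_lit 62) (nat_lit 583706118905756905474080)) (.cons (.rf (nat_lit 62) (nat_lit 547107778663517155067936)) (.cons (.rf (nat_lit 63) (nat_lit 677582165103132179601393696)) (.cons (.rf (nat_lit 63) (nat_lit 640105464695078675185502240)) .nil))))) .nil))))) .nil))))) .nil)))) .nil)))) .nil)) .nil)),
 (.br (nat_lit 6) (nat_lit 0) (.cons (.kr (nat_lit 281474976710912) (nat_lit 1099511693312) (nat_lit 1) (nat_lit 0)) (.cons (.br (nat_lit 10) (nat_lit 0) (.cons (.rf (nat_lit 6) (nat_lit 13264688193)) (.cons (.rf (nat_lit 6) (nat_lit 12224469026)) (.cons (.br (nat_lit 11) (nat_lit 0) (.cons (.rf (nat_lit 64) (nat_lit 493858305440582043680)) (.cons (.br (nat_lit 11) (nat_lit 0) (.cons (.rf (nat_lit 64) (nat_lit 493858305440582043680)) .nil)) .nil))) .nil)))) .nil))),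
 (.br (nat_lit 6) (nat_lit 1) (.cons (.br (nat_lit 7) (nat_lit 1) (.cons (.br (nat_lit 8) (nat_lit 1) (.cons (.br (nat_lit 9) (nat_lit 1) .nil) .nil)) (.cons (.br (nat_lit 8) (nat_lit 1) (.cons (.br (nat_lit 8) (nat_lit 1) .nil) .nil)) .nil))) .nil)),
 (.br (nat_lit 9) (nat_lit 1) (.cons (.kr (nat_lit 4722366765444133552129) (nat_lit 18518801672059224064) (nat_lit 0) (nat_lit 1)) .nil)),
 (.br (nat_lit 7) (nat_lit 1) (.cons (.br (nat_lit 8) (nat_lit 1) (.cons (.br (nat_lit 9) (nat_lit 1) (.cons (.br (nat_lit 9) (nat_lit 1) (.cons (.br (nat_lit 10) (nat_lit 1) (.cons (.br (nat_lit 10) (nat_lit 1) .nil) .nil)) .nil)) .nil)) .nil)) (.cons (.br (nat_lit 8) (nat_lit 1) (.cons (.rf (nat_lit 66) (nat_lit 318068920416)) (.cons (.br (nat_lit 8) (nat_lit 1) (.cons (.rf (nat_lit 66) (nat_lit 318068920416)) (.cons (.br (nat_lit 9) (nat_lit 1) (.cons (.rf (nat_lit 67) (nat_lit 407901468851537952)) (.cons (.rf (nat_lit 67) (nat_lit 372998571739416608)) .nil))) .nil))) .nil))) .nil))),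
 (.br (nat_lit 10) (nat_lit 0) (.cons (.kr (nat_lit 4722366482869645213696) (nat_lit 1208925819614629174706176) (nat_lit 9) (nat_lit 0)) (.cons (.ev (nat_lit 20282410817318303546994774310913) (nat_lit 1)) .nil))),
 (.br (nat_lit 9) (nat_lit 0) (.cons (.rf (nat_lit 69) (nat_lit 17022140995484340291616)) (.cons (.rf (nat_lit 69) (nat_lit 17021024102776752408608)) .nil))),
 (.br (nat_lit 9) (nat_lit 0) (.cons (.rf (nat_lit 70) (nat_lit 17022140995484340291616)) (.cons (.br (nat_lit 11) (nat_lit 0) (.cons (.br (nat_lit 10) (nat_lit 0) (.cons (.ev (nat_lit 20282410817318303266619309162753) (nat_lit 1)) .nil)) (.cons (.kr (nat_lit 309485009821345068724781056) (nat_lit 79228162514264337593543950336) (nat_lit 11) (nat_lit 0)) .nil))) .nil))),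
 (.br (nat_lit 9) (nat_lit 0) (.cons (.rf (nat_lit 70) (nat_lit 17022140995484340291616)) (.cons (.rf (nat_lit 71) (nat_lit 17022140995484340291616)) (.cons (.rf (nat_lit 71) (nat_lit 17021024102776752408608)) .nil)))),
 (.br (nat_lit 14) (nat_lit 1) (.cons (.rf (nat_lit 72) (nat_lit 18240816216834587068448)) (.cons (.br (nat_lit 15) (nat_lit 1) (.cons (.br (nat_lit 16) (nat_lit 1) (.cons (.br (nat_lit 17) (nat_lit 1) .nil) .nil)) (.cons (.rf (nat_lit 40) (nat_lit 616257250627680)) .nil))) .nil))),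
 (.br (nat_lit 9) (nat_lit 1) (.cons (.br (nat_lit 10) (nat_lit 1) (.cons (.kr (nat_lit 1208925819615728686333953) (nat_lit 309485009821345073036525568) (nat_lit 0) (nat_lit 1)) .nil)) .nil)),
 (.br (nat_lit 9) (nat_lit 1) (.cons (.rf (nat_lit 73) (nat_lit 583706118939841765935136)) (.cons (.br (nat_lit 14) (nat_lit 1) (.cons (.rf (nat_lit 73) (nat_lit 577803161012073493694499)) (.cons (.rf (nat_lit 72) (nat_lit 19421407837551998371872)) (.cons (.br (nat_lit 15) (nat_lit 1) (.cons (.rf (nat_lit 74) (nat_lit 631047424642746400)) (.cons (.rf (nat_lit 74) (nat_lit 596139201673562147)) .nil))) .nil)))) .nil))),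
 (.br (nat_lit 14) (nat_lit 1) (.cons (.ev (nat_lit 5192297169233485708312137183592448) (nat_lit 1)) (.cons (.br (nat_lit 15) (nat_lit 1) (.cons (.ev (nat_lit 683223210196016606645559430331142177024) (nat_lit 2)) (.cons (.rf (nat_lit 44) (nat_lit 631047424642746400)) .nil))) .nil))),
 (.br (nat_lit 11) (nat_lit 0) (.cons (.kr (nat_lit 1208925819614629174706176) (nat_lit 309485009821345068724781056) (nat_lit 10) (nat_lit 0)) (.cons (.br (nat_lit 12) (nat_lit 0) (.cons (.br (nat_lit 14) (nat_lit 1) (.cons (.ev (nat_lit 1329227996095609827063849905199054848) (nat_lit 1)) (.cons (.rf (nat_lit 76) (nat_lit 19926519232773908561233952)) (.cons (.br (nat_lit 14) (nat_lit 1) (.cons (.ev (nat_lit 1329227996095609827063849905199054848) (nat_lit 1)) (.cons (.rf (nat_lit 76) (nat_lit 19926519232773908561233952)) .nil))) .nil)))) .nil)) .nil))),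
 (.br (nat_lit 10) (nat_lit 0) (.cons (.rf (nat_lit 77) (nat_lit 19926519232773908561233952)) (.cons (.rf (nat_lit 77) (nat_lit 19926483492207265748977696)) .nil))),
 (.br (nat_lit 14) (nat_lit 1) (.cons (.ev (nat_lit 5212658496305716002113980079341568) (nat_lit 1)) (.cons (.br (nat_lit 15) (nat_lit 1) (.cons (.ev (nat_lit 683223210196016606645558869580211880704) (nat_lit 2)) (.cons (.rf (nat_lit 44) (nat_lit 631047424642746400)) .nil))) .nil))),
 (.br (nat_lit 10) (nat_lit 0) (.cons (.rf (nat_lit 78) (nat_lit 19926519232773908561233952)) (.cons (.br (nat_lit 12) (nat_lit 0) (.cons (.br (nat_lit 11) (nat_lit 0) (.cons (.br (nat_lit 14) (nat_lit 1) (.cons (.ev (nat_lit 1329248357422682057357651748094803968) (nat_lit 1)) (.cons (.rf (nat_lit 79) (nat_lit 19926519232773908561233952)) (.cons (.br (nat_lit 14) (nat_lit 1) (.cons (.ev (nat_lit 1329248357422682057357651748094803968) (nat_lit 1)) (.cons (.rf (nat_lit 79) (nat_lit 19926519232773908561233952)) .nil))) .nil)))) .nil)) (.cons (.kr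 (nat_lit 79228162514264337593543950336) (nat_lit 20282409603651670423947251286016) (nat_lit 12) (nat_lit 0)) .nil))) .nil)))]

theorem c1 : chkAll C T R L1 (nat_lit 44) = true := by decide +kernel

theorem l1 : (nat_lit 44) + L1.length = (nat_lit 81) := by decide +kernel

/-- part of the certificates -/
def L2 : List Prf := [(.br (nat_lit 9) (nat_lit 1) (.cons (.rf (nat_lit 75) (nat_lit 583706118939841765935136)) (.cons (.br (nat_lit 10) (nat_lit 0) (.cons (.rf (nat_lit 78) (nat_lit 19926519232773908561233952)) (.cons (.rf (nat_lit 80) (nat_lit 19926519232773908561233952)) (.cons (.rf (nat_lit 80) (nat_lit 19926483492207265748977696)) .nil)))) .nil))),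
 (.br (nat_lit 11) (nat_lit 0) (.cons (.kr (nat_lit 1208925819614629174706176) (nat_lit 309485009821345068724781056) (nat_lit 10) (nat_lit 0)) (.cons (.ev (nat_lit 5192297169233485708312137183592448) (nat_lit 1)) .nil))),
 (.br (nat_lit 10) (nat_lit 0) (.cons (.rf (nat_lit 82) (nat_lit 19926519232773908561233952)) (.cons (.rf (nat_lit 82) (nat_lit 19926483492207265748977696)) .nil))),
 (.br (nat_lit 10) (nat_lit 0) (.cons (.rf (nat_lit 83) (nat_lit 19926519232773908561233952)) (.cons (.br (nat_lit 12) (nat_lit 0) (.cons (.br (nat_lit 13) (nat_lit 0) (.cons (.ev (nat_lit 5212658496305716002113980079341568) (nat_lit 1)) .nil)) (.cons (.kr (nat_lit 79228162514264337593543950336) (nat_lit 20282409603651670423947251286016) (nat_lit 12) (nat_lit 0)) .nil))) .nil))),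
 (.br (nat_lit 14) (nat_lit 1) (.cons (.rf (nat_lit 81) (nat_lit 577803161012073493694499)) (.cons (.br (nat_lit 12) (nat_lit 0) (.cons (.rf (nat_lit 84) (nat_lit 21173147965741583657174080)) (.cons (.rf (nat_lit 84) (nat_lit 21173112225174940844917824)) (.cons (.rf (nat_lit 83) (nat_lit 21173147965741583657174080)) .nil)))) .nil))),
 (.br (nat_lit 7) (nat_lit 1) (.cons (.kr (nat_lit 72057594037927937) (nat_lit 4311744512) (nat_lit 0) (nat_lit 1)) (.cons (.br (nat_lit 8) (nat_lit 1) (.cons (.rf (nat_lit 68) (nat_lit 15711229544480)) (.cons (.rf (nat_lit 68) (nat_lit 10385372481571)) (.cons (.br (nat_lit 9) (nat_lit 1) (.cons (.rf (nat_lit 75) (nat_lit 583706118939841765935136)) (.cons (.rf (nat_lit 81) (nat_lit 583706118939841765935136)) (.cons (.br (nat_lit 9) (nat_lit 1) (.cons (.rf (nat_lit 75) (nat_lit 583706118939841765935136)) (.cons (.rf (nat_lit 81) (nat_lit 583706118939841765935136)) (.cons (.br (nat_lit 14) (nat_lit 1) (.cons (.rf (nat_lit 81) (nat_lit 577803161012073493694499))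 (.cons (.rf (nat_lit 85) (nat_lit 677582165103132179601393696)) (.cons (.rf (nat_lit 85) (nat_lit 640105464695078675185502240)) .nil)))) .nil)))) .nil)))) .nil)))) .nil))),
 (.br (nat_lit 9) (nat_lit 1) (.cons (.ev (nat_lit 5212658496301012010037210362413313) (nat_lit 1)) (.cons (.ev (nat_lit 20362569857454629055233754595584) (nat_lit 2)) (.cons (.br (nat_lit 14) (nat_lit 1) (.cons (.br (nat_lit 15) (nat_lit 1) (.cons (.ev (nat_lit 1329227996095614530983588701134716928) (nat_lit 1)) (.cons (.rf (nat_lit 49) (nat_lit 616257250627680)) .nil))) (.cons (.br (nat_lit 15) (nat_lit 1) (.cons (.ev (nat_lit 680575138797542475684162151469576945922) (nat_lit 3)) (.cons (.br (nat_lit 15) (nat_lit 1) (.cons (.ev (nat_lit 680575138797542475684162151469576945922) (nat_lit 3)) .nil)) .nil))) (.cons (.rf (nat_lit 51) (nat_lit 631047424642746400)) .nil)))) .nil)))),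
 (.br (nat_lit 14) (nat_lit 1) (.cons (.ev (nat_lit 5192297169228781788573341247930368) (nat_lit 1)) (.cons (.br (nat_lit 16) (nat_lit 1) (.cons (.br (nat_lit 15) (nat_lit 1) (.cons (.ev (nat_lit 2668860947856749374067276460264194304) (nat_lit 2)) .nil)) (.cons (.ev (nat_lit 174905136617724940068147406706096386277634) (nat_lit 2)) .nil))) .nil))),
 (.br (nat_lit 8) (nat_lit 1) (.cons (.rf (nat_lit 87) (nat_lit 583706118939841765935136)) (.cons (.rf (nat_lit 87) (nat_lit 547107778697602015528992)) (.cons (.br (nat_lit 9) (nat_lit 1) (.cons (.rf (nat_lit 87) (nat_lit 583706118905756905474080)) (.cons (.rf (nat_lit 87) (nat_lit 547107778663517155067936)) (.cons (.kr (nat_lit 18446744073709551616) (nat_lit 4722366482869645213696) (nat_lit 8) (nat_lit 0)) (.cons (.br (nat_lit 14) (nat_lit 1) (.cons (.br (nat_lit 14) (nat_lit 1) (.cons (.ev (nat_lit 5192297169228781788573341247930368) (nat_lit 1)) (.cons (.ev (nat_lit 5192297169233485708312137183592448) (nat_lit 1)) .nil))) (.cons (.rf (nat_lit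 88) (nat_lit 677582165103132179601393696)) (.cons (.rf (nat_lit 88) (nat_lit 640105464695044590325041184)) .nil)))) .nil))))) .nil)))),
 (.br (nat_lit 9) (nat_lit 1) (.cons (.ev (nat_lit 1334420293264852794326558339365994499) (nat_lit 2)) (.cons (.br (nat_lit 15) (nat_lit 1) (.cons (.ev (nat_lit 1329227996095614530983588701134716928) (nat_lit 1)) (.cons (.rf (nat_lit 55) (nat_lit 616257250627680)) .nil))) .nil))),
 (.br (nat_lit 9) (nat_lit 1) (.cons (.ev (nat_lit 2668860947856758855549615167454249218) (nat_lit 2)) .nil)),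
 (.br (nat_lit 14) (nat_lit 1) (.cons (.rf (nat_lit 90) (nat_lit 583706118939841765935136)) (.cons (.ev (nat_lit 5212658496301012010037210362413313) (nat_lit 1)) (.cons (.br (nat_lit 15) (nat_lit 1) (.cons (.rf (nat_lit 90) (nat_lit 547107778697602015528992)) (.cons (.ev (nat_lit 2668860947856749374067276460264194304) (nat_lit 2)) (.cons (.br (nat_lit 9) (nat_lit 1) (.cons (.rf (nat_lit 91) (nat_lit 677582165103132179601393696)) (.cons (.rf (nat_lit 91) (nat_lit 640068866354836435435096096)) .nil))) .nil)))) .nil)))),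
 (.br (nat_lit 8) (nat_lit 1) (.cons (.br (nat_lit 14) (nat_lit 1) (.cons (.ev (nat_lit 5192296859748475886968163692183808) (nat_lit 1)) (.cons (.kr (nat_lit 5192296858534827700588090367148032) (nat_lit 20282409603670117168020960837632) (nat_lit 7) (nat_lit 0)) .nil))) (.cons (.ev (nat_lit 20282410817318303548094285873408) (nat_lit 1)) .nil))),
 (.br (nat_lit 9) (nat_lit 1) (.cons (.rf (nat_lit 93) (nat_lit 21174440283894445886278688)) (.cons (.br (nat_lit 16) (nat_lit 1) (.cons (.rf (nat_lit 60) (nat_lit 631047424642746400)) (.cons (.ev (nat_lit 349129718865838529043216074908254089576708) (nat_lit 3)) .nil))) .nil))),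
 (.br (nat_lit 8) (nat_lit 1) (.cons (.rf (nat_lit 89) (nat_lit 583706118939841765935136)) (.cons (.rf (nat_lit 92) (nat_lit 583706118939841765935136)) (.cons (.br (nat_lit 14) (nat_lit 1) (.cons (.rf (nat_lit 92) (nat_lit 349948978255394553989155)) (.cons (.rf (nat_lit 89) (nat_lit 349948978255394553989155)) (.cons (.ev (nat_lit 5212658496301012010037210362413313) (nat_lit 1)) (.cons (.br (nat_lit 9) (nat_lit 1) (.cons (.rf (nat_lit 93) (nat_lit 21174440283894445886278688)) (.cons (.rf (nat_lit 94) (nat_lit 677582165103132179601393696)) (.cons (.br (nat_lit 9) (nat_lit 1) (.cons (.ev (nat_lit 5192297169233485708312137183592448) (nat_lit 1)) (.cons (.rf (nat_lit 94) (nat_lit 677582165103132179601393696)) .nil))) .nil)))) .nil))))) .nil)))),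
 (.br (nat_lit 9) (nat_lit 1) (.cons (.rf (nat_lit 95) (nat_lit 583706118905756905474080)) (.cons (.rf (nat_lit 95) (nat_lit 547107778663517155067936)) (.cons (.ev (nat_lit 20362569857454484940054235119874) (nat_lit 2)) .nil)))),
 (.br (nat_lit 11) (nat_lit 0) (.cons (.kr (nat_lit 1208925819614629174706176) (nat_lit 309485009821345068724781056) (nat_lit 10) (nat_lit 0)) (.cons (.br (nat_lit 12) (nat_lit 0) (.cons (.br (nat_lit 8) (nat_lit 1) (.cons (.rf (nat_lit 89) (nat_lit 583706118939841765935136)) (.cons (.rf (nat_lit 95) (nat_lit 583706118939841765935136)) (.cons (.rf (nat_lit 95) (nat_lit 547107778697602015528992)) (.cons (.br (nat_lit 8) (nat_lit 1) (.cons (.rf (nat_lit 89) (nat_lit 583706118939841765935136)) (.cons (.rf (nat_lit 95) (nat_lit 583706118939841765935136)) (.cons (.rf (nat_lit 95) (nat_lit 547107778697602015528992)) (.cons (.br (nat_lit 9) (nat_lit 1) (.cons (.rf (nat_lit 95) (nat_lit 583706118905756905474080)) (.cons (.rf (nat_lit 95) (nat_lit 547107778663517155067936))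 (.cons (.rf (nat_lit 96) (nat_lit 677582165103132179601393696)) (.cons (.rf (nat_lit 96) (nat_lit 640105464695078675185502240)) .nil))))) .nil))))) .nil))))) .nil)) .nil))),
 (.br (nat_lit 10) (nat_lit 0) (.cons (.rf (nat_lit 97) (nat_lit 583706118939841765935136)) (.cons (.rf (nat_lit 97) (nat_lit 583670378373198953678880)) .nil))),
 (.br (nat_lit 9) (nat_lit 1) (.cons (.ev (nat_lit 5192297169228781716235367466664193) (nat_lit 1)) (.cons (.ev (nat_lit 20362569857454628494482824299264) (nat_lit 2)) (.cons (.br (nat_lit 14) (nat_lit 1) (.cons (.br (nat_lit 15) (nat_lit 1) (.cons (.ev (nat_lit 1329248357422686761277390544030466048) (nat_lit 1)) (.cons (.rf (nat_lit 49) (nat_lit 616257250627680)) .nil))) (.cons (.br (nat_lit 15) (nat_lit 1) (.cons (.ev (nat_lit 680575138797542475684162151469576945922) (nat_lit 3)) (.cons (.br (nat_lit 15) (nat_lit 1) (.cons (.ev (nat_lit 680575138797542475684162151469576945922) (nat_lit 3)) .nil)) .nil))) (.cons (.rf (nat_lit 51) (nat_lit 631047424642746400))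 .nil)))) .nil)))),
 (.br (nat_lit 14) (nat_lit 1) (.cons (.ev (nat_lit 5212658496301012082375184143679488) (nat_lit 1)) (.cons (.br (nat_lit 16) (nat_lit 1) (.cons (.br (nat_lit 15) (nat_lit 1) (.cons (.ev (nat_lit 2668860947856749374066715709333897984) (nat_lit 2)) .nil)) (.cons (.ev (nat_lit 174905136617724940068147406145345455981314) (nat_lit 2)) .nil))) .nil))),
 (.br (nat_lit 8) (nat_lit 1) (.cons (.rf (nat_lit 99) (nat_lit 583706118939841765935136)) (.cons (.rf (nat_lit 99) (nat_lit 547107778697602015528992)) (.cons (.br (nat_lit 9) (nat_lit 1) (.cons (.rf (nat_lit 99) (nat_lit 583706118905756905474080)) (.cons (.rf (nat_lit 99) (nat_lit 547107778663517155067936)) (.cons (.kr (nat_lit 18446744073709551616) (nat_lit 4722366482869645213696) (nat_lit 8) (nat_lit 0)) (.cons (.br (nat_lit 14) (nat_lit 1) (.cons (.br (nat_lit 14) (nat_lit 1) (.cons (.ev (nat_lit 5212658496301012082375184143679488) (nat_lit 1)) (.cons (.ev (nat_lit 5212658496305716002113980079341568) (nat_lit 1)) .nil)))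 (.cons (.rf (nat_lit 100) (nat_lit 677582165103132179601393696)) (.cons (.rf (nat_lit 100) (nat_lit 640105464695044590325041184)) .nil)))) .nil))))) .nil)))),
 (.br (nat_lit 8) (nat_lit 1) (.cons (.ev (nat_lit 5212579270565831227838131364430339) (nat_lit 2)) (.cons (.br (nat_lit 14) (nat_lit 1) (.cons (.ev (nat_lit 5192296859748494261654647641997568) (nat_lit 1)) (.cons (.rf (nat_lit 55) (nat_lit 579937898795104)) .nil))) .nil))),
 (.br (nat_lit 9) (nat_lit 1) (.cons (.ev (nat_lit 2668860947856758855549054416523952898) (nat_lit 2)) .nil)),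
 (.br (nat_lit 14) (nat_lit 1) (.cons (.rf (nat_lit 102) (nat_lit 18240816216870020548640)) (.cons (.ev (nat_lit 5192297169228781716235367466664193) (nat_lit 1)) (.cons (.br (nat_lit 15) (nat_lit 1) (.cons (.rf (nat_lit 102) (nat_lit 17097118084300028348448)) (.cons (.ev (nat_lit 2668860947856749374066715709333897984) (nat_lit 2)) (.cons (.br (nat_lit 9) (nat_lit 1) (.cons (.rf (nat_lit 103) (nat_lit 677582165103132179601393696)) (.cons (.rf (nat_lit 103) (nat_lit 640068866354836435435096096)) .nil))) .nil)))) .nil)))),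
 (.br (nat_lit 7) (nat_lit 1) (.cons (.br (nat_lit 13) (nat_lit 1) (.cons (.ev (nat_lit 20282409608392483933469406134528) (nat_lit 1)) (.cons (.kr (nat_lit 20282409603651670705422227996672) (nat_lit 79228162514336395187581878272) (nat_lit 6) (nat_lit 0)) .nil))) (.cons (.ev (nat_lit 79228167255149623234760016128) (nat_lit 1)) .nil))),
 (.br (nat_lit 9) (nat_lit 1) (.cons (.rf (nat_lit 105) (nat_lit 661701333108527518059552)) (.cons (.br (nat_lit 16) (nat_lit 1) (.cons (.rf (nat_lit 60) (nat_lit 631047424642746400)) (.cons (.ev (nat_lit 349129718865838529043216074908254089576708) (nat_lit 3)) .nil))) .nil))),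
 (.br (nat_lit 8) (nat_lit 1) (.cons (.rf (nat_lit 101) (nat_lit 583706118939841765935136)) (.cons (.rf (nat_lit 104) (nat_lit 583706118939841765935136)) (.cons (.br (nat_lit 14) (nat_lit 1) (.cons (.rf (nat_lit 104) (nat_lit 349948978255394553989155)) (.cons (.rf (nat_lit 101) (nat_lit 349948978255394553989155)) (.cons (.ev (nat_lit 5192297169228781716235367466664193) (nat_lit 1)) (.cons (.br (nat_lit 9) (nat_lit 1) (.cons (.rf (nat_lit 105) (nat_lit 661701333108527518059552)) (.cons (.rf (nat_lit 106) (nat_lit 677582165103132179601393696)) (.cons (.br (nat_lit 9) (nat_lit 1) (.cons (.ev (nat_lit 5212658496305716002113980079341568) (nat_lit 1)) (.cons (.rf (nat_lit 106) (nat_lit 677582165103132179601393696)) .nil))) .nil)))) .nil))))) .nil)))),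
 (.br (nat_lit 9) (nat_lit 1) (.cons (.rf (nat_lit 107) (nat_lit 583706118905756905474080)) (.cons (.rf (nat_lit 107) (nat_lit 547107778663517155067936)) (.cons (.ev (nat_lit 20362569857454484379303304823554) (nat_lit 2)) .nil)))),
 (.br (nat_lit 10) (nat_lit 0) (.cons (.rf (nat_lit 98) (nat_lit 583706118939841765935136)) (.cons (.br (nat_lit 12) (nat_lit 0) (.cons (.br (nat_lit 11) (nat_lit 0) (.cons (.br (nat_lit 8) (nat_lit 1) (.cons (.rf (nat_lit 101) (nat_lit 583706118939841765935136)) (.cons (.rf (nat_lit 107) (nat_lit 583706118939841765935136)) (.cons (.rf (nat_lit 107) (nat_lit 547107778697602015528992)) (.cons (.br (nat_lit 8) (nat_lit 1) (.cons (.rf (nat_lit 101) (nat_lit 583706118939841765935136)) (.cons (.rf (nat_lit 107) (nat_lit 583706118939841765935136)) (.cons (.rf (nat_lit 107) (nat_lit 547107778697602015528992)) (.cons (.br (nat_lit 9) (nat_lit 1) (.cons (.rf (nat_lit 107) (nat_lit 583706118905756905474080)) (.cons (.rf (nat_lit 107) (nat_lit 547107778663517155067936))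 (.cons (.rf (nat_lit 108) (nat_lit 677582165103132179601393696)) (.cons (.rf (nat_lit 108) (nat_lit 640105464695078675185502240)) .nil))))) .nil))))) .nil))))) .nil)) (.cons (.kr (nat_lit 79228162514264337593543950336) (nat_lit 20282409603651670423947251286016) (nat_lit 12) (nat_lit 0)) .nil))) .nil)))]

theorem c2 : chkAll C T R L2 (nat_lit 81) = true := by decide +kernel

theorem l2 : (nat_lit 81) + L2.length = (nat_lit 110) := by decide +kernel

/-- part of the certificates -/
def L3 : List Prf := [(.br (nat_lit 0) (nat_lit 0) (.cons (.br (nat_lit 0) (nat_lit 0) (.cons (.br (nat_lit 1) (nat_lit 1) (.cons (.br (nat_lit 2) (nat_lit 1) (.cons (.br (nat_lit 0) (nat_lit 1) (.cons (.kr (nat_lit 1) (nat_lit 16777216) (nat_lit 0) (nat_lit 1)) (.cons (.br (nat_lit 1) (nat_lit 0) (.cons (.kr (nat_lit 256) (nat_lit 65536) (nat_lit 1) (nat_lit 0)) (.cons (.br (nat_lit 2) (nat_lit 0) (.cons (.br (nat_lit 5) (nat_lit 0) (.cons (.br (nat_lit 6) (nat_lit 0) (.cons (.br (nat_lit 6) (nat_lit 0) (.cons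 (.br (nat_lit 7) (nat_lit 0) (.cons (.rf (nat_lit 0) (nat_lit 275977281)) (.cons (.br (nat_lit 7) (nat_lit 0) (.cons (.rf (nat_lit 0) (nat_lit 275977281)) (.cons (.br (nat_lit 8) (nat_lit 0) (.cons (.rf (nat_lit 1) (nat_lit 353537037377)) (.cons (.rf (nat_lit 1) (nat_lit 320251040833)) .nil))) .nil))) .nil))) .nil)) .nil)) .nil)) (.cons (.br (nat_lit 3) (nat_lit 1) (.cons (.br (nat_lit 5) (nat_lit 0) (.cons (.rf (nat_lit 13) (nat_lit 201793)) (.cons (.br (nat_lit 5) (nat_lit 0) (.cons (.rf (nat_lit 13) (nat_lit 201793)) (.cons (.br (nat_lit 6) (nat_lit 0) (.cons (.rf (nat_lit 8) (nat_lit 9043225708576)) (.cons (.rf (nat_lit 8) (nat_lit 7978073819168)) (.cons (.br (nat_lit 6) (nat_lit 0) (.cons (.rf (nat_lit 8) (nat_lit 9043225708576)) (.cons (.rf (nat_lit 8) (nat_lit 7978073819168)) (.cons (.br (nat_lit 7) (nat_lit 0) (.cons (.rf (nat_lit 10) (nat_lit 11584701642934304)) (.cons (.rf (nat_lit 11) (nat_lit 11584701642934304)) (.cons (.rf (nat_lit 11) (nat_lit 10493986108180512)) .nil))))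 .nil)))) .nil)))) .nil))) .nil))) (.cons (.br (nat_lit 4) (nat_lit 1) (.cons (.rf (nat_lit 39) (nat_lit 247132686368)) (.cons (.br (nat_lit 4) (nat_lit 1) (.cons (.rf (nat_lit 39) (nat_lit 247132686368)) (.cons (.br (nat_lit 5) (nat_lit 0) (.cons (.rf (nat_lit 13) (nat_lit 201793)) (.cons (.br (nat_lit 5) (nat_lit 0) (.cons (.rf (nat_lit 13) (nat_lit 201793)) (.cons (.br (nat_lit 6) (nat_lit 0) (.cons (.rf (nat_lit 65) (nat_lit 407901468851537952)) (.cons (.rf (nat_lit 65) (nat_lit 372998571739416608)) (.cons (.br (nat_lit 6) (nat_lit 0) (.cons (.rf (nat_lit 65) (nat_lit 407901468851537952)) (.cons (.rf (nat_lit 65) (nat_lit 372998571739416608)) (.cons (.br (nat_lit 7) (nat_lit 1) (.cons (.rf (nat_lit 86) (nat_lit 493858305440582043680)) (.cons (.rf (nat_lit 86) (nat_lit 493858271355721582624)) (.cons (.br (nat_lit 7) (nat_lit 1) (.cons (.rf (nat_lit 86) (nat_lit 493858305440582043680)) (.cons (.rf (nat_lit 86) (nat_lit 493858271355721582624)) (.cons (.br (nat_lit 10) (nat_lit 0) (.cons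 (.rf (nat_lit 98) (nat_lit 583706118939841765935136)) (.cons (.rf (nat_lit 109) (nat_lit 583706118939841765935136)) (.cons (.rf (nat_lit 109) (nat_lit 583670378373198953678880)) .nil)))) .nil)))) .nil)))) .nil)))) .nil)))) .nil))) .nil))) .nil))) .nil))) .nil))) .nil))) .nil))) .nil))) .nil)) .nil)) .nil)) .nil))]

theorem c3 : chkAll C T R L3 (nat_lit 110) = true := by decide +kernel

theorem l3 : (nat_lit 110) + L3.length = (nat_lit 111) := by decide +kernel

end Pool.Agent.H93.Neg.N18_2_8
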