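import Pool.Agent.H93.Neg.TabN18_4_0

/-!
Certificates.
-/

set_option autoImplicit false
set_option maxRecDepth 100000
set_option linter.all false

namespace Pool.Agent.H93.Neg.N18_4_0

/-- part of the certificates -/
def L0 : List Prf := [(.br (nat_lit 2) (nat_lit 1) (.cons (.kr (nat_lit 1) (nat_lit 16777216) (nat_lit 0) (nat_lit 1)) (.cons (.br (nat_lit 3) (nat_lit 0) (.cons (.br (nat_lit 4) (nat_lit 1) (.cons (.br (nat_lit 4) (nat_lit 0) (.cons (.br (nat_lit 6) (nat_lit 0) (.cons (.br (nat_lit 6) (nat_lit 0) .nil) .nil)) (.cons (.br (nat_lit 5) (nat_lit 1) (.cons (.br (nat_lit 6) (nat_lit 0) (.cons (.kr (nat_lit 281474976710657) (nat_lit 4311744512) (nat_lit 0) (nat_lit 1)) .nil)) .nil)) .nil))) .nil)) .nil)) .nil))),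
 (.br (nat_lit 12) (nat_lit 0) (.cons (.br (nat_lit 12) (nat_lit 0) .nil) .nil)),
 (.br (nat_lit 14) (nat_lit 0) (.cons (.br (nat_lit 15) (nat_lit 0) (.cons (.ev (nat_lit 2668840585908289272491273750870753283) (nat_lit 2)) (.cons (.rf (nat_lit 1) (nat_lit 646192708113796405313)) .nil))) .nil)),
 (.br (nat_lit 15) (nat_lit 0) (.cons (.ev (nat_lit 1344865813747162558128278241126974209) (nat_lit 2)) .nil)),
 (.br (nat_lit 12) (nat_lit 0) (.cons (.br (nat_lit 13) (nat_lit 0) (.cons (.ev (nat_lit 40723275541813495978072123507203) (nat_lit 2)) (.cons (.br (nat_lit 14) (nat_lit 0) (.cons (.rf (nat_lit 2) (nat_lit 583706118939841765935136)) (.cons (.br (nat_lit 14) (nat_lit 0) (.cons (.rf (nat_lit 2) (nat_lit 583706118939841765935136)) (.cons (.br (nat_lit 15) (nat_lit 0) (.cons (.rf (nat_lit 3) (nat_lit 677582165103132179601393696)) (.cons (.rf (nat_lit 3) (nat_lit 640105464695078675185502240)) .nil))) .nil))) .nil))) .nil))) .nil)),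
 (.br (nat_lit 15) (nat_lit 0) (.cons (.br (nat_lit 16) (nat_lit 0) (.cons (.ev (nat_lit 88137125929169845172174251161290029465858) (nat_lit 2)) .nil)) .nil)),
 (.br (nat_lit 13) (nat_lit 0) (.cons (.kr (nat_lit 20282410812596008840244173472000) (nat_lit 79537652246452447006890721280) (nat_lit 1) (nat_lit 0)) (.cons (.br (nat_lit 14) (nat_lit 0) (.cons (.ev (nat_lit 10385707244144511844067280595059721) (nat_lit 4)) (.cons (.ev (nat_lit 10668547468464667200975432545731081) (nat_lit 4)) (.cons (.br (nat_lit 15) (nat_lit 0) (.cons (.rf (nat_lit 5) (nat_lit 677582165103132179601393696)) (.cons (.br (nat_lit 15) (nat_lit 0) (.cons (.rf (nat_lit 5) (nat_lit 677582165103132179601393696)) .nil)) .nil))) .nil)))) .nil))),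
 (.br (nat_lit 14) (nat_lit 0) (.cons (.kr (nat_lit 20282409603651670423947251286016) (nat_lit 5192296858534827628530496329220096) (nat_lit 13) (nat_lit 0)) (.cons (.ev (nat_lit 5212658497509919454965359848718593) (nat_lit 1)) .nil))),
 (.br (nat_lit 13) (nat_lit 0) (.cons (.rf (nat_lit 7) (nat_lit 19926519232773908561233952)) (.cons (.rf (nat_lit 7) (nat_lit 18755372345022236548237344)) .nil))),
 (.br (nat_lit 14) (nat_lit 0) (.cons (.rf (nat_lit 8) (nat_lit 21174442659472880611461152)) (.cons (.br (nat_lit 16) (nat_lit 0) (.cons (.br (nat_lit 15) (nat_lit 0) (.cons (.ev (nat_lit 1334420371872826863054830243011428353) (nat_lit 1)) .nil)) (.cons (.kr (nat_lit 340282366920938463463374607431768211456) (nat_lit 87112285931760246646623899502532662132736) (nat_lit 16) (nat_lit 0)) .nil))) .nil))),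
 (.br (nat_lit 10) (nat_lit 0) (.cons (.br (nat_lit 11) (nat_lit 0) (.cons (.ev (nat_lit 621387871426598637651623939) (nat_lit 2)) (.cons (.br (nat_lit 12) (nat_lit 0) (.cons (.rf (nat_lit 4) (nat_lit 493858305440582043680)) (.cons (.br (nat_lit 12) (nat_lit 0) (.cons (.rf (nat_lit 4) (nat_lit 493858305440582043680)) (.cons (.br (nat_lit 13) (nat_lit 0) (.cons (.rf (nat_lit 6) (nat_lit 583706118939841765935136)) (.cons (.rf (nat_lit 6) (nat_lit 547107778697602015528992)) (.cons (.br (nat_lit 13) (nat_lit 0) (.cons (.rf (nat_lit 6) (nat_lit 583706118939841765935136)) (.cons (.rf (nat_lit 6) (nat_lit 547107778697602015528992)) (.cons (.br (nat_lit 14) (nat_lit 0) (.cons (.rf (nat_lit 8) (nat_lit 21174442659472880611461152)) (.cons (.rf (nat_lit 9) (nat_lit 677582165103132179601393696)) (.cons (.rf (nat_lit 9) (nat_lit 640105464695078675185502240)) .nil)))) .nil)))) .nil)))) .nil))) .nil))) .nil))) .nil)),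
 (.br (nat_lit 12) (nat_lit 0) (.cons (.br (nat_lit 12) (nat_lit 0) .nil) .nil)),
 (.br (nat_lit 14) (nat_lit 0) (.cons (.ev (nat_lit 10425158536286440224363877694046723) (nat_lit 2)) (.cons (.br (nat_lit 15) (nat_lit 0) (.cons (.ev (nat_lit 1334440575054268000460917700542136320) (nat_lit 1)) (.cons (.rf (nat_lit 11) (nat_lit 646192708113796405313)) .nil))) .nil))),
 (.br (nat_lit 15) (nat_lit 0) (.cons (.ev (nat_lit 1344865971895206725020284016952082433) (nat_lit 2)) .nil)),
 (.br (nat_lit 13) (nat_lit 0) (.cons (.rf (nat_lit 12) (nat_lit 583706118939841765935136)) (.cons (.br (nat_lit 14) (nat_lit 0) (.cons (.rf (nat_lit 12) (nat_lit 582562385870256482649152)) (.cons (.ev (nat_lit 10425158536286440224363877694046723) (nat_lit 2)) (.cons (.br (nat_lit 15) (nat_lit 0) (.cons (.rf (nat_lit 13) (nat_lit 677582165103132179601393696)) (.cons (.rf (nat_lit 13) (nat_lit 640104320962009089902216256)) .nil))) .nil)))) .nil))),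
 (.br (nat_lit 14) (nat_lit 0) (.cons (.ev (nat_lit 10425159157664830024507524812636163) (nat_lit 2)) (.cons (.br (nat_lit 15) (nat_lit 0) (.cons (.ev (nat_lit 683223433226694802149488196329433859081) (nat_lit 4)) (.cons (.ev (nat_lit 1334440575362539380471132121271894273) (nat_lit 1)) .nil))) .nil))),
 (.br (nat_lit 13) (nat_lit 0) (.cons (.rf (nat_lit 14) (nat_lit 583706118939841765935136)) (.cons (.br (nat_lit 14) (nat_lit 0) (.cons (.ev (nat_lit 2658456150647544645762887945300213763) (nat_lit 2)) (.cons (.rf (nat_lit 15) (nat_lit 19926519232773908561233952)) (.cons (.br (nat_lit 14) (nat_lit 0) (.cons (.ev (nat_lit 2658456150647544645762887945300213763) (nat_lit 2)) (.cons (.rf (nat_lit 15) (nat_lit 19926519232773908561233952)) .nil))) .nil)))) .nil))),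
 (.br (nat_lit 14) (nat_lit 0) (.cons (.rf (nat_lit 16) (nat_lit 582562385870256482649152)) (.cons (.ev (nat_lit 10425159157664830024507524812636163) (nat_lit 2)) .nil))),
 (.br (nat_lit 11) (nat_lit 0) (.cons (.ev (nat_lit 313125973042839207454900481) (nat_lit 2)) (.cons (.br (nat_lit 12) (nat_lit 0) (.cons (.ev (nat_lit 79229376162522492686401863681) (nat_lit 1)) (.cons (.ev (nat_lit 79537647542532709314778366208) (nat_lit 1)) (.cons (.br (nat_lit 13) (nat_lit 0) (.cons (.rf (nat_lit 14) (nat_lit 583706118939841765935136)) (.cons (.rf (nat_lit 16) (nat_lit 583706118939841765935136)) (.cons (.br (nat_lit 13) (nat_lit 0) (.cons (.rf (nat_lit 14) (nat_lit 583706118939841765935136)) (.cons (.rf (nat_lit 16) (nat_lit 583706118939841765935136)) (.cons (.br (nat_lit 14) (nat_lit 0) (.cons (.rf (nat_lit 16) (nat_lit 582562385870256482649152)) (.cons (.rf (nat_lit 17) (nat_lit 677582165103132179601393696)) (.cons (.rf (nat_lit 17) (nat_lit 640105464695078675185502240)) .nil)))) .nil)))) .nil)))) .nil)))) .nil))),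
 (.br (nat_lit 12) (nat_lit 0) (.cons (.br (nat_lit 12) (nat_lit 0) .nil) .nil)),
 (.br (nat_lit 16) (nat_lit 0) (.cons (.ev (nat_lit 340287579500516086970941933596583133440) (nat_lit 1)) .nil)),
 (.br (nat_lit 13) (nat_lit 0) (.cons (.ev (nat_lit 10384752173404165412191170279375363) (nat_lit 2)) (.cons (.kr (nat_lit 623805722921149757971759105) (nat_lit 40723275541776603051770834452480) (nat_lit 0) (nat_lit 1)) (.cons (.br (nat_lit 14) (nat_lit 0) (.cons (.br (nat_lit 15) (nat_lit 0) (.cons (.ev (nat_lit 2658496557010426920575060652714885123) (nat_lit 2)) (.cons (.rf (nat_lit 19) (nat_lit 646192708113796405313)) .nil))) (.cons (.br (nat_lit 15) (nat_lit 0) (.cons (.ev (nat_lit 340287559297334645833535846139052425473) (nat_lit 1)) (.cons (.br (nat_lit 15) (nat_lit 0) (.cons (.ev (nat_lit 340287559297334645833535847242875797760) (nat_lit 1)) .nil)) .nil))) (.cons (.br (nat_lit 15) (nat_lit 0) (.cons (.rf (nat_lit 20) (nat_lit 677582165103132179601393696)) (.cons (.br (nat_lit 15) (nat_lit 0) (.cons (.rf (nat_lit 20) (nat_lit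 677582165103132179601393696)) .nil)) .nil))) .nil)))) .nil)))),
 (.br (nat_lit 14) (nat_lit 0) (.cons (.ev (nat_lit 10384594336039675044430371960651779) (nat_lit 2)) (.cons (.kr (nat_lit 309485009821345068724781056) (nat_lit 5192296858534827628530496329220096) (nat_lit 11) (nat_lit 0)) (.cons (.ev (nat_lit 10384752794782555212334817397964803) (nat_lit 2)) (.cons (.ev (nat_lit 10425159157664830024507524812636163) (nat_lit 2)) .nil))))),
 (.br (nat_lit 14) (nat_lit 0) (.cons (.ev (nat_lit 10384752794782555212334817397964803) (nat_lit 2)) (.cons (.br (nat_lit 16) (nat_lit 0) (.cons (.br (nat_lit 15) (nat_lit 0) (.cons (.ev (nat_lit 8006603203030748331598647709413801989) (nat_lit 3)) .nil)) (.cons (.ev (nat_lit 174905198904924689581994648565063180616201) (nat_lit 4)) .nil))) .nil))),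
 (.br (nat_lit 12) (nat_lit 0) (.cons (.rf (nat_lit 21) (nat_lit 583706118939841765935136)) (.cons (.rf (nat_lit 21) (nat_lit 547107778697602015528992)) (.cons (.br (nat_lit 13) (nat_lit 0) (.cons (.rf (nat_lit 21) (nat_lit 583670378373198953678880)) (.cons (.rf (nat_lit 21) (nat_lit 547072038130959203272736)) (.cons (.kr (nat_lit 79228162514264337593543950336) (nat_lit 20282409603651670423947251286016) (nat_lit 12) (nat_lit 0)) (.cons (.br (nat_lit 14) (nat_lit 0) (.cons (.rf (nat_lit 22) (nat_lit 677582165103132179601393696)) (.cons (.rf (nat_lit 23) (nat_lit 677582165103132179601393696)) (.cons (.rf (nat_lit 23) (nat_lit 640105428954512032373245984)) .nil)))) .nil))))) .nil)))),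
 (.br (nat_lit 12) (nat_lit 0) (.cons (.br (nat_lit 12) (nat_lit 0) .nil) .nil)),
 (.br (nat_lit 13) (nat_lit 0) (.cons (.ev (nat_lit 40724520744926363103344275490309) (nat_lit 3)) (.cons (.br (nat_lit 15) (nat_lit 0) (.cons (.ev (nat_lit 2658496557010426920575060652714885123) (nat_lit 2)) (.cons (.rf (nat_lit 25) (nat_lit 646192708113796405313)) .nil))) .nil))),
 (.br (nat_lit 13) (nat_lit 0) (.cons (.ev (nat_lit 10425159157664830024507524812636163) (nat_lit 2)) (.cons (.br (nat_lit 15) (nat_lit 0) (.cons (.ev (nat_lit 1369135989441476332226885421562264421381) (nat_lit 3)) (.cons (.ev (nat_lit 13344324780598521278974747660484349449) (nat_lit 4)) .nil))) .nil))),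
 (.br (nat_lit 14) (nat_lit 0) (.cons (.rf (nat_lit 26) (nat_lit 583706118939841765935136)) (.cons (.ev (nat_lit 10384752173404165412191170279375363) (nat_lit 2)) (.cons (.br (nat_lit 13) (nat_lit 0) (.cons (.rf (nat_lit 26) (nat_lit 547107778697602015528992)) (.cons (.rf (nat_lit 27) (nat_lit 19926519232773908561233952)) (.cons (.br (nat_lit 13) (nat_lit 0) (.cons (.rf (nat_lit 25) (nat_lit 610417238573872027713)) (.cons (.rf (nat_lit 27) (nat_lit 19926519232773908561233952)) .nil))) .nil)))) .nil)))),
 (.br (nat_lit 13) (nat_lit 0) (.cons (.br (nat_lit 15) (nat_lit 0) (.cons (.ev (nat_lit 2658456150647544645762887945300213763) (nat_lit 2)) (.cons (.kr (nat_lit 1329228075013078387168144653824294912) (nat_lit 5212579268138479298954443580506112) (nat_lit 12) (nat_lit 0)) .nil))) (.cons (.ev (nat_lit 10425159157664830024507524812636163) (nat_lit 2)) .nil))),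
 (.br (nat_lit 13) (nat_lit 0) (.cons (.rf (nat_lit 29) (nat_lit 677582165103132179601393696)) (.cons (.br (nat_lit 16) (nat_lit 0) (.cons (.ev (nat_lit 340287579500516086970941933596583133440) (nat_lit 1)) (.cons (.ev (nat_lit 340287559297026374453525631718322667520) (nat_lit 1)) .nil))) .nil))),
 (.br (nat_lit 12) (nat_lit 0) (.cons (.rf (nat_lit 24) (nat_lit 583706118939841765935136)) (.cons (.rf (nat_lit 28) (nat_lit 583706118939841765935136)) (.cons (.br (nat_lit 14) (nat_lit 0) (.cons (.rf (nat_lit 28) (nat_lit 505863129854781380723776)) (.cons (.rf (nat_lit 24) (nat_lit 505863129854781380723776)) (.cons (.ev (nat_lit 10384752173404165412191170279375363) (nat_lit 2)) (.cons (.br (nat_lit 13) (nat_lit 0) (.cons (.rf (nat_lit 29) (nat_lit 677582165103132179601393696)) (.cons (.rf (nat_lit 30) (nat_lit 677582165103132179601393696)) (.cons (.br (nat_lit 13) (nat_lit 0) (.cons (.ev (nat_lit 10425159157664830024507524812636163) (nat_lit 2)) (.cons (.rf (nat_lit 30) (nat_lit 677582165103132179601393696)) .nil))) .nil)))) .nil)))))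 .nil)))),
 (.br (nat_lit 14) (nat_lit 0) (.cons (.rf (nat_lit 24) (nat_lit 505863129854781380723776)) (.cons (.ev (nat_lit 349810273316894569455233671199076219093509) (nat_lit 3)) .nil))),
 (.br (nat_lit 13) (nat_lit 0) (.cons (.rf (nat_lit 31) (nat_lit 583670378373198953678880)) (.cons (.rf (nat_lit 31) (nat_lit 547072038130959203272736)) (.cons (.br (nat_lit 14) (nat_lit 0) (.cons (.rf (nat_lit 24) (nat_lit 505863129854781380723776)) (.cons (.rf (nat_lit 32) (nat_lit 677582165103132179601393696)) (.cons (.rf (nat_lit 32) (nat_lit 640105464695078675185502240)) .nil)))) .nil))))]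

theorem c0 : chkAll C T R L0 (nat_lit 0) = true := by decide +kernel

theorem l0 : (nat_lit 0) + L0.length = (nat_lit 34) := by decide +kernel

/-- part of the certificates -/
def L1 : List Prf := [(.br (nat_lit 8) (nat_lit 0) (.cons (.br (nat_lit 9) (nat_lit 0) (.cons (.ev (nat_lit 9481626454990533034499) (nat_lit 2)) (.cons (.br (nat_lit 10) (nat_lit 0) (.cons (.rf (nat_lit 10) (nat_lit 407901468851537952)) (.cons (.br (nat_lit 10) (nat_lit 0) (.cons (.rf (nat_lit 10) (nat_lit 407901468851537952)) (.cons (.br (nat_lit 11) (nat_lit 0) (.cons (.rf (nat_lit 18) (nat_lit 493858305440582043680)) (.cons (.rf (nat_lit 18) (nat_lit 458117738797769787424)) (.cons (.br (nat_lit 11) (nat_lit 0) (.cons (.rf (nat_lit 18) (nat_lit 493858305440582043680)) (.cons (.rf (nat_lit 18) (nat_lit 458117738797769787424)) (.cons (.br (nat_lit 12) (nat_lit 0) (.cons (.rf (nat_lit 24) (nat_lit 583706118939841765935136)) (.cons (.rf (nat_lit 31) (nat_lit 583706118939841765935136)) (.cons (.rf (nat_lit 31) (nat_lit 547107778697602015528992)) (.cons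 (.br (nat_lit 12) (nat_lit 0) (.cons (.rf (nat_lit 24) (nat_lit 583706118939841765935136)) (.cons (.rf (nat_lit 31) (nat_lit 583706118939841765935136)) (.cons (.rf (nat_lit 31) (nat_lit 547107778697602015528992)) (.cons (.br (nat_lit 13) (nat_lit 0) (.cons (.rf (nat_lit 31) (nat_lit 583670378373198953678880)) (.cons (.rf (nat_lit 31) (nat_lit 547072038130959203272736)) (.cons (.rf (nat_lit 33) (nat_lit 677582165103132179601393696)) (.cons (.rf (nat_lit 33) (nat_lit 640105464695078675185502240)) .nil))))) .nil))))) .nil))))) .nil)))) .nil)))) .nil))) .nil))) .nil))) .nil)),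
 (.br (nat_lit 12) (nat_lit 0) (.cons (.br (nat_lit 12) (nat_lit 0) .nil) .nil)),
 (.br (nat_lit 14) (nat_lit 0) (.cons (.br (nat_lit 15) (nat_lit 0) (.cons (.kr (nat_lit 10384593719487506896291354831224833) (nat_lit 2658455991569841190541142809804668928) (nat_lit 0) (nat_lit 1)) (.cons (.rf (nat_lit 35) (nat_lit 646192708113796405313)) .nil))) .nil)),
 (.br (nat_lit 15) (nat_lit 0) (.cons (.ev (nat_lit 1344865813130619834857216839893844738) (nat_lit 2)) .nil)),
 (.br (nat_lit 12) (nat_lit 0) (.cons (.ev (nat_lit 159075295048316044566390112259) (nat_lit 2)) (.cons (.br (nat_lit 13) (nat_lit 0) (.cons (.ev (nat_lit 121853532935958484421220782835205) (nat_lit 3)) (.cons (.br (nat_lit 14) (nat_lit 0) (.cons (.rf (nat_lit 36) (nat_lit 583706118939841765935136)) (.cons (.br (nat_lit 14) (nat_lit 0) (.cons (.rf (nat_lit 36) (nat_lit 583706118939841765935136)) (.cons (.br (nat_lit 15) (nat_lit 0) (.cons (.rf (nat_lit 37) (nat_lit 677582165103132179601393696)) (.cons (.rf (nat_lit 37) (nat_lit 640105464695078675185502240)) .nil)))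 .nil))) .nil))) .nil))) .nil))),
 (.br (nat_lit 15) (nat_lit 0) (.cons (.br (nat_lit 16) (nat_lit 0) (.cons (.zr (nat_lit 3992896646160547789196351320556240896) (nat_lit 261677140162201679612316449134662171755264) (nat_lit 8) (nat_lit 12)) .nil)) .nil)),
 (.br (nat_lit 13) (nat_lit 0) (.cons (.ev (nat_lit 20521026182483012773019761377793) (nat_lit 2)) (.cons (.br (nat_lit 14) (nat_lit 0) (.cons (.ev (nat_lit 5192376397391295980853336458920193) (nat_lit 1)) (.cons (.ev (nat_lit 5212579268138497745981096090140928) (nat_lit 1)) (.cons (.br (nat_lit 15) (nat_lit 0) (.cons (.rf (nat_lit 39) (nat_lit 677582165103132179601393696)) (.cons (.br (nat_lit 15) (nat_lit 0) (.cons (.rf (nat_lit 39) (nat_lit 677582165103132179601393696)) .nil)) .nil))) .nil)))) .nil))),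
 (.br (nat_lit 15) (nat_lit 0) (.cons (.kr (nat_lit 1329227995784915891422608728027824384) (nat_lit 5192296858539549995294840951209984) (nat_lit 1) (nat_lit 0)) (.cons (.ev (nat_lit 2668881150108536037671207256604148227) (nat_lit 2)) .nil))),
 (.br (nat_lit 14) (nat_lit 0) (.cons (.rf (nat_lit 41) (nat_lit 677582165103132179601393696)) (.cons (.rf (nat_lit 41) (nat_lit 640105464695078675185502240)) .nil))),
 (.br (nat_lit 14) (nat_lit 0) (.cons (.rf (nat_lit 42) (nat_lit 677582165103132179601393696)) (.cons (.br (nat_lit 16) (nat_lit 0) (.cons (.br (nat_lit 15) (nat_lit 0) (.cons (.ev (nat_lit 2668840744362205930862495428289626627) (nat_lit 2)) .nil)) (.cons (.kr (nat_lit 340282366920938463463374607431768211456) (nat_lit 87112285931760246646623899502532662132736) (nat_lit 16) (nat_lit 0)) .nil))) .nil))),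
 (.br (nat_lit 11) (nat_lit 0) (.cons (.rf (nat_lit 38) (nat_lit 493858305440582043680)) (.cons (.br (nat_lit 12) (nat_lit 0) (.cons (.rf (nat_lit 38) (nat_lit 492741378614815196224)) (.cons (.ev (nat_lit 159075295048316044566390112259) (nat_lit 2)) (.cons (.br (nat_lit 13) (nat_lit 0) (.cons (.rf (nat_lit 40) (nat_lit 583706118939841765935136)) (.cons (.rf (nat_lit 40) (nat_lit 547106661770776248681536)) (.cons (.br (nat_lit 13) (nat_lit 0) (.cons (.rf (nat_lit 40) (nat_lit 583706118939841765935136)) (.cons (.rf (nat_lit 40) (nat_lit 547106661770776248681536)) (.cons (.br (nat_lit 14) (nat_lit 0) (.cons (.rf (nat_lit 42) (nat_lit 677582165103132179601393696)) (.cons (.rf (nat_lit 43) (nat_lit 677582165103132179601393696)) (.cons (.rf (nat_lit 43) (nat_lit 640105464695078675185502240)) .nil)))) .nil)))) .nil)))) .nil)))) .nil))),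
 (.br (nat_lit 15) (nat_lit 0) (.cons (.br (nat_lit 16) (nat_lit 0) (.cons (.zr (nat_lit 3992896646160547789196351320556240896) (nat_lit 261677140162201679612316449134662171755264) (nat_lit 8) (nat_lit 12)) .nil)) .nil)),
 (.br (nat_lit 12) (nat_lit 0) (.cons (.ev (nat_lit 159075304529797820315070497283) (nat_lit 2)) (.cons (.br (nat_lit 13) (nat_lit 0) (.cons (.ev (nat_lit 5212579268143201737494907263713281) (nat_lit 1)) (.cons (.br (nat_lit 14) (nat_lit 0) (.cons (.kr (nat_lit 1334420292644659644870753853531750656) (nat_lit 20361947255898122870954142007296) (nat_lit 1) (nat_lit 0)) (.cons (.br (nat_lit 15) (nat_lit 0) (.cons (.ev (nat_lit 5379422528613479248739601712516302857) (nat_lit 4)) (.cons (.br (nat_lit 16) (nat_lit 0) (.cons (.br (nat_lit 16) (nat_lit 0) .nil) .nil)) .nil))) .nil))) (.cons (.br (nat_lit 14) (nat_lit 0) (.cons (.br (nat_lit 15) (nat_lit 0) (.cons (.ev (nat_lit 2668881150108526556189431507923763203) (nat_lit 2)) (.cons (.br (nat_lit 16) (nat_lit 0) (.cons (.br (nat_lit 16) (nat_lit 0) .nil) .nil))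 .nil))) (.cons (.br (nat_lit 15) (nat_lit 0) (.cons (.ev (nat_lit 680575118594669291630322320422584975363) (nat_lit 2)) (.cons (.br (nat_lit 15) (nat_lit 0) (.cons (.ev (nat_lit 680575118594669291630322320422584975363) (nat_lit 2)) .nil)) .nil))) (.cons (.br (nat_lit 15) (nat_lit 0) (.cons (.rf (nat_lit 45) (nat_lit 677582165103132179601393696)) (.cons (.br (nat_lit 15) (nat_lit 0) (.cons (.rf (nat_lit 45) (nat_lit 677582165103132179601393696)) .nil)) .nil))) .nil)))) .nil)))) .nil))),
 (.br (nat_lit 12) (nat_lit 0) (.cons (.br (nat_lit 12) (nat_lit 0) .nil) .nil)),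
 (.br (nat_lit 15) (nat_lit 0) (.cons (.ev (nat_lit 1329228075323772341256131004233416960) (nat_lit 1)) (.cons (.rf (nat_lit 47) (nat_lit 646192708113796405313)) .nil))),
 (.br (nat_lit 12) (nat_lit 0) (.cons (.br (nat_lit 12) (nat_lit 0) .nil) .nil)),
 (.br (nat_lit 14) (nat_lit 0) (.cons (.ev (nat_lit 5192376397395999972369355279237120) (nat_lit 1)) (.cons (.br (nat_lit 15) (nat_lit 0) (.cons (.ev (nat_lit 340282367000477319931726931375721283840) (nat_lit 1)) (.cons (.ev (nat_lit 2668840744362196449380719679609241603) (nat_lit 2)) .nil))) .nil))),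
 (.br (nat_lit 14) (nat_lit 0) (.cons (.br (nat_lit 14) (nat_lit 0) (.cons (.ev (nat_lit 5192376397395999972369355279237120) (nat_lit 1)) (.cons (.rf (nat_lit 49) (nat_lit 646192708113796405313)) .nil))) (.cons (.rf (nat_lit 50) (nat_lit 19926519232773908561233952)) (.cons (.br (nat_lit 14) (nat_lit 0) (.cons (.rf (nat_lit 49) (nat_lit 646192708113796405313)) (.cons (.rf (nat_lit 50) (nat_lit 19926519232773908561233952)) .nil))) .nil)))),
 (.br (nat_lit 14) (nat_lit 0) (.cons (.ev (nat_lit 5192376397395999972368251455864833) (nat_lit 1)) (.cons (.br (nat_lit 15) (nat_lit 0) (.cons (.ev (nat_lit 1329228075323772341256129900410044673) (nat_lit 1)) (.cons (.kr (nat_lit 1329227995784915891422608728027824384) (nat_lit 5192296858539549995294840951209984) (nat_lit 1) (nat_lit 0)) .nil))) .nil))),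
 (.br (nat_lit 11) (nat_lit 0) (.cons (.rf (nat_lit 44) (nat_lit 493858305440582043680)) (.cons (.br (nat_lit 12) (nat_lit 0) (.cons (.ev (nat_lit 40564821634636606532143385018883) (nat_lit 2)) (.cons (.rf (nat_lit 46) (nat_lit 17022140995484340291616)) (.cons (.br (nat_lit 12) (nat_lit 0) (.cons (.ev (nat_lit 40564821634636606532143385018883) (nat_lit 2)) (.cons (.rf (nat_lit 46) (nat_lit 17022140995484340291616)) (.cons (.br (nat_lit 13) (nat_lit 0) (.cons (.br (nat_lit 14) (nat_lit 0) (.cons (.rf (nat_lit 48) (nat_lit 19926519232773908561233952)) (.cons (.rf (nat_lit 48) (nat_lit 18755372345022236548237344)) (.cons (.br (nat_lit 15) (nat_lit 0) (.cons (.rf (nat_lit 22) (nat_lit 670367607792492428077926432)) (.cons (.br (nat_lit 15) (nat_lit 0) (.cons (.ev (nat_lit 2668840744362196449380719679609241603) (nat_lit 2)) .nil)) .nil))) .nil)))) (.cons (.rf (nat_lit 51) (nat_lit 19926519232773908561233952)) (.cons (.rf (nat_lit 51) (nat_lit 18755372345022236548237344)) (.cons (.br (nat_lit 14) (nat_lit 0) (.cons (.rf (nat_lit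 52) (nat_lit 677582165103132179601393696)) (.cons (.rf (nat_lit 52) (nat_lit 676411018215380507588397088)) (.cons (.br (nat_lit 14) (nat_lit 0) (.cons (.rf (nat_lit 52) (nat_lit 677582165103132179601393696)) (.cons (.rf (nat_lit 52) (nat_lit 676411018215380507588397088)) .nil))) .nil)))) .nil))))) .nil)))) .nil)))) .nil))),
 (.br (nat_lit 12) (nat_lit 0) (.cons (.br (nat_lit 12) (nat_lit 0) .nil) .nil)),
 (.br (nat_lit 15) (nat_lit 0) (.cons (.ev (nat_lit 1329228075323777045247645919230361600) (nat_lit 1)) (.cons (.rf (nat_lit 54) (nat_lit 646192708113796405313)) .nil))),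
 (.br (nat_lit 13) (nat_lit 0) (.cons (.rf (nat_lit 55) (nat_lit 19926519232773908561233952)) (.cons (.rf (nat_lit 55) (nat_lit 18755371228095410781389888)) (.cons (.br (nat_lit 15) (nat_lit 0) (.cons (.br (nat_lit 15) (nat_lit 0) (.cons (.zr (nat_lit 122171683507091574244096438436353) (nat_lit 7985752568431419485425419249527291904) (nat_lit 16) (nat_lit 14)) .nil)) (.cons (.br (nat_lit 15) (nat_lit 0) (.cons (.zr (nat_lit 122171683507091574244096438436353) (nat_lit 7985752568431419485425419249527291904) (nat_lit 16) (nat_lit 14)) .nil)) .nil))) .nil)))),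
 (.br (nat_lit 15) (nat_lit 0) (.cons (.kr (nat_lit 10384593719487506896291354831224833) (nat_lit 2658455991569841190541142809804668928) (nat_lit 0) (nat_lit 1)) (.cons (.ev (nat_lit 1329228075323777045247645919230361600) (nat_lit 1)) (.cons (.br (nat_lit 13) (nat_lit 0) (.cons (.rf (nat_lit 54) (nat_lit 646192708113796405313)) (.cons (.br (nat_lit 16) (nat_lit 0) (.cons (.kr (nat_lit 10384593719487506896291354831224833) (nat_lit 680564733841876926963786818199031382528) (nat_lit 0) (nat_lit 2)) (.cons (.ev (nat_lit 683223189992522053720872873550487224323) (nat_lit 2)) .nil))) (.cons (.ev (nat_lit 1329248278194519543021257660041265408) (nat_lit 1)) .nil)))) .nil)))),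
 (.br (nat_lit 12) (nat_lit 0) (.cons (.rf (nat_lit 53) (nat_lit 492741378614815196224)) (.cons (.ev (nat_lit 159075304529797820315070497283) (nat_lit 2)) (.cons (.br (nat_lit 13) (nat_lit 0) (.cons (.rf (nat_lit 56) (nat_lit 19926519232773908561233952)) (.cons (.rf (nat_lit 57) (nat_lit 19926519232773908561233952)) (.cons (.rf (nat_lit 57) (nat_lit 18755371228095410781389888)) (.cons (.br (nat_lit 13) (nat_lit 0) (.cons (.rf (nat_lit 56) (nat_lit 19926519232773908561233952)) (.cons (.rf (nat_lit 57) (nat_lit 19926519232773908561233952)) (.cons (.rf (nat_lit 57) (nat_lit 18755371228095410781389888)) .nil)))) .nil))))) .nil)))),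
 (.br (nat_lit 15) (nat_lit 0) (.cons (.ev (nat_lit 2668881150108526556189431507923763203) (nat_lit 2)) (.cons (.ev (nat_lit 2668840744362205930862495428289626627) (nat_lit 2)) .nil))),
 (.br (nat_lit 14) (nat_lit 0) (.cons (.br (nat_lit 16) (nat_lit 0) (.cons (.ev (nat_lit 680575159000415631218612807999579881987) (nat_lit 2)) (.cons (.ev (nat_lit 680575118594669291630322320422584975363) (nat_lit 2)) .nil))) (.cons (.ev (nat_lit 5212579268138497745981096090140928) (nat_lit 1)) (.cons (.br (nat_lit 16) (nat_lit 0) (.cons (.ev (nat_lit 680575118594669291630322320422584975363) (nat_lit 2)) (.cons (.ev (nat_lit 680575159000415631218612807999579881987) (nat_lit 2)) .nil))) .nil)))),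
 (.br (nat_lit 13) (nat_lit 0) (.cons (.br (nat_lit 14) (nat_lit 0) (.cons (.ev (nat_lit 5212579268138497745981096090140928) (nat_lit 1)) (.cons (.rf (nat_lit 59) (nat_lit 677582165103132179601393696)) (.cons (.rf (nat_lit 59) (nat_lit 640105464695078675185502240)) .nil)))) (.cons (.rf (nat_lit 60) (nat_lit 677582165103132179601393696)) (.cons (.rf (nat_lit 60) (nat_lit 640105464695078675185502240)) .nil)))),
 (.br (nat_lit 9) (nat_lit 0) (.cons (.kr (nat_lit 18518801667747479808) (nat_lit 4722366764344621989888) (nat_lit 1) (nat_lit 0)) (.cons (.br (nat_lit 10) (nat_lit 0) (.cons (.kr (nat_lit 2417851639230362172784641) (nat_lit 37037603335494959616) (nat_lit 0) (nat_lit 2)) (.cons (.kr (nat_lit 2417851639230362172784641) (nat_lit 9444733528689243979776) (nat_lit 0) (nat_lit 1)) (.cons (.br (nat_lit 11) (nat_lit 0) (.cons (.rf (nat_lit 44) (nat_lit 493858305440582043680)) (.cons (.rf (nat_lit 53) (nat_lit 493858305440582043680)) (.cons (.br (nat_lit 11) (nat_lit 0) (.cons (.rf (nat_lit 44) (nat_lit 493858305440582043680))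 (.cons (.rf (nat_lit 53) (nat_lit 493858305440582043680)) (.cons (.br (nat_lit 12) (nat_lit 0) (.cons (.rf (nat_lit 53) (nat_lit 492741378614815196224)) (.cons (.rf (nat_lit 58) (nat_lit 583706118939841765935136)) (.cons (.rf (nat_lit 58) (nat_lit 547107778697602015528992)) (.cons (.br (nat_lit 12) (nat_lit 0) (.cons (.rf (nat_lit 53) (nat_lit 492741378614815196224)) (.cons (.rf (nat_lit 58) (nat_lit 583706118939841765935136)) (.cons (.rf (nat_lit 58) (nat_lit 547107778697602015528992)) (.cons (.br (nat_lit 13) (nat_lit 0) (.cons (.rf (nat_lit 61) (nat_lit 677582165103132179601393696)) (.cons (.rf (nat_lit 61) (nat_lit 677545566762889939850987552)) (.cons (.rf (nat_lit 61) (nat_lit 597870978938607177449964608)) (.cons (.rf (nat_lit 61) (nat_lit 597834380598364937699558464)) .nil))))) .nil))))) .nil))))) .nil)))) .nil)))) .nil)))) .nil)))]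

theorem c1 : chkAll C T R L1 (nat_lit 34) = true := by decide +kernel

theorem l1 : (nat_lit 34) + L1.length = (nat_lit 63) := by decide +kernel

/-- part of the certificates -/
def L2 : List Prf := [(.br (nat_lit 12) (nat_lit 0) (.cons (.br (nat_lit 12) (nat_lit 0) .nil) .nil)),
 (.br (nat_lit 14) (nat_lit 0) (.cons (.br (nat_lit 15) (nat_lit 0) (.cons (.ev (nat_lit 2668840743745644281377258800509091843) (nat_lit 2)) (.cons (.rf (nat_lit 63) (nat_lit 646192708113796405313)) .nil))) .nil)),
 (.br (nat_lit 15) (nat_lit 0) (.cons (.ev (nat_lit 1344865971584517567014263290765312769) (nat_lit 2)) .nil)),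
 (.br (nat_lit 12) (nat_lit 0) (.cons (.br (nat_lit 12) (nat_lit 0) .nil) .nil)),
 (.br (nat_lit 15) (nat_lit 0) (.cons (.kr (nat_lit 40565438177322983539135775506433) (nat_lit 2658455991569831782845217456055648768) (nat_lit 0) (nat_lit 2)) (.cons (.rf (nat_lit 66) (nat_lit 646192708113796405313)) .nil))),
 (.br (nat_lit 13) (nat_lit 0) (.cons (.br (nat_lit 14) (nat_lit 0) (.cons (.kr (nat_lit 1329248278195728468912647304453816576) (nat_lit 5192376396187074080977503219941376) (nat_lit 1) (nat_lit 0)) (.cons (.br (nat_lit 15) (nat_lit 0) (.cons (.ev (nat_lit 2668840744362196449380719679609241603) (nat_lit 2)) (.cons (.br (nat_lit 16) (nat_lit 0) (.cons (.br (nat_lit 16) (nat_lit 0) .nil) .nil)) .nil))) .nil))) (.cons (.br (nat_lit 14) (nat_lit 0) (.cons (.br (nat_lit 15) (nat_lit 0) (.cons (.ev (nat_lit 5348309631679679128494294586415253513) (nat_lit 4)) (.cons (.br (nat_lit 16) (nat_lit 0) (.cons (.br (nat_lit 16) (nat_lit 0) .nil) .nil)) .nil))) (.cons (.br (nat_lit 15) (nat_lit 0) (.cons (.ev (nat_lit 680575118594052739462318859543484825603)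 (nat_lit 2)) (.cons (.br (nat_lit 15) (nat_lit 0) (.cons (.ev (nat_lit 680575118594052739462318859543484825603) (nat_lit 2)) .nil)) .nil))) (.cons (.br (nat_lit 15) (nat_lit 0) (.cons (.br (nat_lit 15) (nat_lit 0) (.cons (.ev (nat_lit 1334440654281216884914124646091063553) (nat_lit 1)) .nil)) (.cons (.br (nat_lit 15) (nat_lit 0) (.cons (.ev (nat_lit 1334440654281216884914124646091063553) (nat_lit 1)) .nil)) .nil))) .nil)))) .nil))),
 (.br (nat_lit 12) (nat_lit 0) (.cons (.br (nat_lit 12) (nat_lit 0) .nil) .nil)),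
 (.br (nat_lit 16) (nat_lit 0) (.cons (.ev (nat_lit 683223230398884945477166822006582280707) (nat_lit 2)) .nil)),
 (.br (nat_lit 13) (nat_lit 0) (.cons (.rf (nat_lit 68) (nat_lit 583706118939841765935136)) (.cons (.br (nat_lit 15) (nat_lit 0) (.cons (.br (nat_lit 14) (nat_lit 0) (.cons (.ev (nat_lit 1334440654281216884914125749914435840) (nat_lit 1)) (.cons (.rf (nat_lit 69) (nat_lit 646192708113796405313)) .nil))) (.cons (.kr (nat_lit 40564821625154980078256675356673) (nat_lit 2658455991569831782845217456055648768) (nat_lit 0) (nat_lit 2)) (.cons (.br (nat_lit 14) (nat_lit 0) (.cons (.rf (nat_lit 70) (nat_lit 677582165103132179601393696)) (.cons (.br (nat_lit 14) (nat_lit 0) (.cons (.rf (nat_lit 70) (nat_lit 677582165103132179601393696)) .nil)) .nil))) .nil)))) .nil))),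
 (.br (nat_lit 16) (nat_lit 0) (.cons (.ev (nat_lit 341611594916723384058716954955731763201) (nat_lit 1)) (.cons (.kr (nat_lit 40565438177322983539135775506433) (nat_lit 680564733841876926963786818199031382528) (nat_lit 0) (nat_lit 2)) .nil))),
 (.br (nat_lit 14) (nat_lit 0) (.cons (.rf (nat_lit 72) (nat_lit 677582165103132179601393696)) (.cons (.rf (nat_lit 72) (nat_lit 640105464695078675185502240)) .nil))),
 (.br (nat_lit 14) (nat_lit 0) (.cons (.rf (nat_lit 73) (nat_lit 677582165103132179601393696)) (.cons (.br (nat_lit 16) (nat_lit 0) (.cons (.br (nat_lit 15) (nat_lit 0) (.cons (.ev (nat_lit 2668840744362196449380719679609241603) (nat_lit 2)) .nil)) (.cons (.kr (nat_lit 340282366920938463463374607431768211456) (nat_lit 87112285931760246646623899502532662132736) (nat_lit 16) (nat_lit 0)) .nil))) .nil))),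
 (.br (nat_lit 11) (nat_lit 0) (.cons (.ev (nat_lit 158458742880312583687289962499) (nat_lit 2)) (.cons (.ev (nat_lit 310698658079500161582694401) (nat_lit 1)) (.cons (.br (nat_lit 12) (nat_lit 0) (.cons (.br (nat_lit 13) (nat_lit 0) (.cons (.ev (nat_lit 40565438186804609993022485168643) (nat_lit 2)) (.cons (.br (nat_lit 14) (nat_lit 0) (.cons (.rf (nat_lit 64) (nat_lit 583706118939841765935136)) (.cons (.br (nat_lit 14) (nat_lit 0) (.cons (.rf (nat_lit 64) (nat_lit 583706118939841765935136)) (.cons (.br (nat_lit 15) (nat_lit 0) (.cons (.rf (nat_lit 65) (nat_lit 677582165103132179601393696)) (.cons (.rf (nat_lit 65) (nat_lit 640105464695078675185502240)) .nil))) .nil))) .nil))) .nil))) (.cons (.br (nat_lit 13) (nat_lit 0) (.cons (.ev (nat_lit 10384753418616685975241796180378629) (nat_lit 3)) (.cons (.br (nat_lit 13) (nat_lit 0) (.cons (.ev (nat_lit 10384753418616685975241796180378629) (nat_lit 3)) (.cons (.br (nat_lit 14) (nat_lit 0) (.cons (.rf (nat_lit 67) (nat_lit 19926519232773908561233952)) (.cons (.rf (nat_lit 67) (nat_lit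 18755372345022236548237344)) (.cons (.br (nat_lit 15) (nat_lit 0) (.cons (.br (nat_lit 15) (nat_lit 0) (.cons (.ev (nat_lit 1334440654281216884914124646091063553) (nat_lit 1)) .nil)) (.cons (.br (nat_lit 15) (nat_lit 0) (.cons (.ev (nat_lit 1334440654281216884914124646091063553) (nat_lit 1)) .nil)) .nil))) .nil)))) .nil))) .nil))) (.cons (.br (nat_lit 13) (nat_lit 0) (.cons (.rf (nat_lit 68) (nat_lit 583706118939841765935136)) (.cons (.rf (nat_lit 71) (nat_lit 583706118939841765935136)) (.cons (.br (nat_lit 13) (nat_lit 0) (.cons (.rf (nat_lit 68) (nat_lit 583706118939841765935136)) (.cons (.rf (nat_lit 71) (nat_lit 583706118939841765935136)) (.cons (.br (nat_lit 14) (nat_lit 0) (.cons (.rf (nat_lit 73) (nat_lit 677582165103132179601393696)) (.cons (.rf (nat_lit 74) (nat_lit 677582165103132179601393696)) (.cons (.rf (nat_lit 74) (nat_lit 640105464695078675185502240)) .nil)))) .nil)))) .nil)))) .nil)))) .nil)))),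
 (.br (nat_lit 14) (nat_lit 0) (.cons (.ev (nat_lit 5212579268138479371013137130062081) (nat_lit 1)) (.cons (.ev (nat_lit 5212658805786003456695799398793473) (nat_lit 1)) .nil))),
 (.br (nat_lit 13) (nat_lit 0) (.cons (.rf (nat_lit 76) (nat_lit 19926519232773908561233952)) (.cons (.rf (nat_lit 76) (nat_lit 18755371228129528960354336)) .nil))),
 (.br (nat_lit 14) (nat_lit 0) (.cons (.rf (nat_lit 77) (nat_lit 21174442659472880611461152)) (.cons (.br (nat_lit 16) (nat_lit 0) (.cons (.br (nat_lit 15) (nat_lit 0) (.cons (.ev (nat_lit 1334420292954144654620322803195314433) (nat_lit 1)) .nil)) (.cons (.ev (nat_lit 87452568298681185114809712650428113551361) (nat_lit 1)) .nil))) .nil))),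
 (.br (nat_lit 12) (nat_lit 0) (.cons (.ev (nat_lit 158458752361794359435970347523) (nat_lit 2)) (.cons (.ev (nat_lit 159075304529797820315070497283) (nat_lit 2)) (.cons (.br (nat_lit 13) (nat_lit 0) (.cons (.ev (nat_lit 40564821634636606532143385018883) (nat_lit 2)) (.cons (.ev (nat_lit 40565438186804609993022485168643) (nat_lit 2)) (.cons (.kr (nat_lit 79228162514264337593543950336) (nat_lit 20282409603651670423947251286016) (nat_lit 12) (nat_lit 0)) (.cons (.br (nat_lit 14) (nat_lit 0) (.cons (.rf (nat_lit 77) (nat_lit 21174442659472880611461152)) (.cons (.rf (nat_lit 78) (nat_lit 677582165103132179601393696)) (.cons (.rf (nat_lit 78) (nat_lit 640105428954512032373245984)) .nil)))) .nil))))) .nil)))),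
 (.br (nat_lit 12) (nat_lit 0) (.cons (.br (nat_lit 12) (nat_lit 0) .nil) .nil)),
 (.br (nat_lit 13) (nat_lit 0) (.cons (.ev (nat_lit 20361637770888373303108301815808) (nat_lit 1)) (.cons (.br (nat_lit 15) (nat_lit 0) (.cons (.ev (nat_lit 2668881150725078724192892387023912963) (nat_lit 2)) (.cons (.rf (nat_lit 80) (nat_lit 646192708113796405313)) .nil))) .nil))),
 (.br (nat_lit 13) (nat_lit 0) (.cons (.zr (nat_lit 4003260877930366287216107371442143488) (nat_lit 60927078361340557531038743527426) (nat_lit 8) (nat_lit 12)) .nil)),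
 (.br (nat_lit 14) (nat_lit 0) (.cons (.rf (nat_lit 81) (nat_lit 583706118939841765935136)) (.cons (.ev (nat_lit 1334420292643450718979364209119199488) (nat_lit 1)) (.cons (.br (nat_lit 15) (nat_lit 0) (.cons (.rf (nat_lit 81) (nat_lit 547107743794704903407648)) (.cons (.ev (nat_lit 1334420292954144654620323907018686720) (nat_lit 1)) (.cons (.br (nat_lit 13) (nat_lit 0) (.cons (.rf (nat_lit 82) (nat_lit 677582165103132179601393696)) (.cons (.rf (nat_lit 82) (nat_lit 640068866319933538322974752)) .nil))) .nil)))) .nil)))),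
 (.br (nat_lit 14) (nat_lit 0) (.cons (.ev (nat_lit 5212658806999651642793298218713345) (nat_lit 1)) .nil)),
 (.br (nat_lit 13) (nat_lit 0) (.cons (.rf (nat_lit 83) (nat_lit 583670378373198953678880)) (.cons (.ev (nat_lit 20361637770888373303108301815808) (nat_lit 1)) (.cons (.br (nat_lit 15) (nat_lit 0) (.cons (.rf (nat_lit 84) (nat_lit 21174442659472880611461152)) (.cons (.rf (nat_lit 84) (nat_lit 20003294654828501010581536)) .nil))) .nil)))),
 (.br (nat_lit 13) (nat_lit 0) (.cons (.rf (nat_lit 83) (nat_lit 583670378373198953678880)) (.cons (.ev (nat_lit 20361948464824014262806201303040) (nat_lit 1)) (.cons (.br (nat_lit 14) (nat_lit 0) (.cons (.ev (nat_lit 1334420293264852794326276851487671042) (nat_lit 2)) (.cons (.br (nat_lit 15) (nat_lit 0) (.cons (.kr (nat_lit 159075295048171366428360835073) (nat_lit 680564733841876926963786818199031382528) (nat_lit 0) (nat_lit 2)) (.cons (.ev (nat_lit 1334440654281216884914125749914435840) (nat_lit 1)) .nil))) (.cons (.br (nat_lit 15) (nat_lit 0) (.cons (.ev (nat_lit 1334440654281216884914125749914435840)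 (nat_lit 1)) (.cons (.kr (nat_lit 40564821625154980078256675356673) (nat_lit 174224571863520493293284836608400819225088) (nat_lit 0) (nat_lit 2)) .nil))) .nil)))) .nil)))),
 (.br (nat_lit 11) (nat_lit 0) (.cons (.br (nat_lit 11) (nat_lit 0) .nil) .nil)),
 (.br (nat_lit 13) (nat_lit 0) (.cons (.ev (nat_lit 20361637770888373303108301815808) (nat_lit 1)) (.cons (.ev (nat_lit 20361948464824014262806201303040) (nat_lit 1)) (.cons (.br (nat_lit 14) (nat_lit 0) (.cons (.br (nat_lit 15) (nat_lit 0) (.cons (.ev (nat_lit 2668840743745644281377258800509091843) (nat_lit 2)) (.cons (.br (nat_lit 16) (nat_lit 0) (.cons (.zr (nat_lit 2668921873381650628582530679702683651) (nat_lit 2041694201526875974375027173392860055552) (nat_lit 16) (nat_lit 6)) .nil)) .nil))) (.cons (.rf (nat_lit 87) (nat_lit 646192708113796405313)) (.cons (.br (nat_lit 16) (nat_lit 0) (.cons (.br (nat_lit 15) (nat_lit 0) (.cons (.ev (nat_lit 2668840744362196449380719679609241603) (nat_lit 2)) .nil)) (.cons (.kr (nat_lit 40564821625154980078256675356673) (nat_lit 174224571863520493293284836608400819225088)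 (nat_lit 0) (nat_lit 2)) .nil))) .nil)))) .nil)))),
 (.br (nat_lit 12) (nat_lit 0) (.cons (.ev (nat_lit 158458752361794359435970347523) (nat_lit 2)) (.cons (.rf (nat_lit 83) (nat_lit 583706118939841765935136)) (.cons (.br (nat_lit 13) (nat_lit 0) (.cons (.rf (nat_lit 85) (nat_lit 19926519232773908561233952)) (.cons (.rf (nat_lit 86) (nat_lit 19926519232773908561233952)) (.cons (.rf (nat_lit 88) (nat_lit 19926519232773908561233952)) (.cons (.br (nat_lit 13) (nat_lit 0) (.cons (.rf (nat_lit 85) (nat_lit 19926519232773908561233952)) (.cons (.rf (nat_lit 86) (nat_lit 19926519232773908561233952)) (.cons (.rf (nat_lit 88) (nat_lit 19926519232773908561233952)) .nil)))) .nil))))) .nil)))),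
 (.br (nat_lit 13) (nat_lit 0) (.cons (.rf (nat_lit 89) (nat_lit 583670378373198953678880)) (.cons (.rf (nat_lit 89) (nat_lit 547072003228062091151392)) (.cons (.ev (nat_lit 20361637770888373303108301815808) (nat_lit 1)) .nil)))),
 (.br (nat_lit 10) (nat_lit 0) (.cons (.rf (nat_lit 75) (nat_lit 493858305440582043680)) (.cons (.rf (nat_lit 75) (nat_lit 458117738797769787424)) (.cons (.br (nat_lit 11) (nat_lit 0) (.cons (.rf (nat_lit 75) (nat_lit 493823402543469922336)) (.cons (.rf (nat_lit 75) (nat_lit 458082835900657666080)) (.cons (.kr (nat_lit 1208925819614629174706176) (nat_lit 309485009821345068724781056) (nat_lit 10) (nat_lit 0)) (.cons (.br (nat_lit 12) (nat_lit 0) (.cons (.rf (nat_lit 79) (nat_lit 583706118939841765935136)) (.cons (.rf (nat_lit 89) (nat_lit 583706118939841765935136)) (.cons (.rf (nat_lit 89) (nat_lit 547107743794704903407648)) (.cons (.br (nat_lit 12) (nat_lit 0) (.cons (.rf (nat_lit 79) (nat_lit 583706118939841765935136)) (.cons (.rf (nat_lit 89) (nat_lit 583706118939841765935136)) (.cons (.rf (nat_lit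 89) (nat_lit 547107743794704903407648)) (.cons (.br (nat_lit 13) (nat_lit 0) (.cons (.rf (nat_lit 89) (nat_lit 583670378373198953678880)) (.cons (.rf (nat_lit 89) (nat_lit 547072003228062091151392)) (.cons (.rf (nat_lit 90) (nat_lit 677582165103132179601393696)) (.cons (.rf (nat_lit 90) (nat_lit 640105464695078675185502240)) .nil))))) .nil))))) .nil))))) .nil))))) .nil)))),
 (.br (nat_lit 12) (nat_lit 0) (.cons (.br (nat_lit 12) (nat_lit 0) .nil) .nil)),
 (.br (nat_lit 14) (nat_lit 0) (.cons (.br (nat_lit 15) (nat_lit 0) (.cons (.ev (nat_lit 2668840743745644281377258800509091843) (nat_lit 2)) (.cons (.rf (nat_lit 92) (nat_lit 646192708113796405313)) .nil))) .nil))]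

theorem c2 : chkAll C T R L2 (nat_lit 63) = true := by decide +kernel

theorem l2 : (nat_lit 63) + L2.length = (nat_lit 94) := by decide +kernel

/-- part of the certificates -/
def L3 : List Prf := [(.br (nat_lit 15) (nat_lit 0) (.cons (.ev (nat_lit 1344865971584526974997293120759202049) (nat_lit 2)) .nil)),
 (.br (nat_lit 11) (nat_lit 0) (.cons (.ev (nat_lit 310693954087986350409122048) (nat_lit 1)) (.cons (.br (nat_lit 13) (nat_lit 0) (.cons (.ev (nat_lit 40565438186804609993022485168643) (nat_lit 2)) (.cons (.br (nat_lit 14) (nat_lit 0) (.cons (.rf (nat_lit 93) (nat_lit 583706118939841765935136)) (.cons (.br (nat_lit 14) (nat_lit 0) (.cons (.rf (nat_lit 93) (nat_lit 583706118939841765935136)) (.cons (.br (nat_lit 15) (nat_lit 0) (.cons (.rf (nat_lit 94) (nat_lit 677582165103132179601393696)) (.cons (.rf (nat_lit 94) (nat_lit 640105464695078675185502240)) .nil))) .nil))) .nil))) .nil))) .nil))),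
 (.br (nat_lit 12) (nat_lit 0) (.cons (.br (nat_lit 12) (nat_lit 0) .nil) .nil)),
 (.br (nat_lit 16) (nat_lit 0) (.cons (.ev (nat_lit 680575159001032183386616268878680031747) (nat_lit 2)) .nil)),
 (.br (nat_lit 11) (nat_lit 0) (.cons (.ev (nat_lit 20361948460120022747891204358400) (nat_lit 1)) (.cons (.br (nat_lit 14) (nat_lit 0) (.cons (.br (nat_lit 15) (nat_lit 0) (.cons (.kr (nat_lit 40565438177322983539135775506433) (nat_lit 2658455991569831782845217456055648768) (nat_lit 0) (nat_lit 2)) (.cons (.rf (nat_lit 96) (nat_lit 646192708113796405313)) .nil))) (.cons (.br (nat_lit 15) (nat_lit 0) (.cons (.ev (nat_lit 680575159000415621737131032250899496963) (nat_lit 2)) (.cons (.br (nat_lit 15) (nat_lit 0) (.cons (.ev (nat_lit 680575159000415621737131032250899496963) (nat_lit 2)) .nil)) .nil))) (.cons (.br (nat_lit 15) (nat_lit 0) (.cons (.rf (nat_lit 97) (nat_lit 677582165103132179601393696)) (.cons (.br (nat_lit 15) (nat_lit 0) (.cons (.rf (nat_lit 97) (nat_lit 677582165103132179601393696)) .nil)) .nil))) .nil)))) .nil))),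
 (.br (nat_lit 15) (nat_lit 0) (.cons (.ev (nat_lit 1334420292643455422970878020292771841) (nat_lit 1)) (.cons (.ev (nat_lit 1334420292954144654620322803195314433) (nat_lit 1)) .nil))),
 (.br (nat_lit 14) (nat_lit 0) (.cons (.rf (nat_lit 99) (nat_lit 677582165103132179601393696)) (.cons (.rf (nat_lit 99) (nat_lit 640105464695078675185502240)) .nil))),
 (.br (nat_lit 14) (nat_lit 0) (.cons (.rf (nat_lit 100) (nat_lit 677582165103132179601393696)) (.cons (.kr (nat_lit 159075295048171366428360835073) (nat_lit 10384593717069692294664328153399808) (nat_lit 0) (nat_lit 2)) .nil))),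
 (.br (nat_lit 12) (nat_lit 0) (.cons (.rf (nat_lit 95) (nat_lit 493858305440582043680)) (.cons (.ev (nat_lit 158458742880312583687289962499) (nat_lit 2)) (.cons (.br (nat_lit 13) (nat_lit 0) (.cons (.rf (nat_lit 95) (nat_lit 458117738797769787424)) (.cons (.ev (nat_lit 20361637770888373303108301815808) (nat_lit 1)) (.cons (.br (nat_lit 11) (nat_lit 0) (.cons (.rf (nat_lit 98) (nat_lit 583706118939841765935136)) (.cons (.rf (nat_lit 98) (nat_lit 547072038130959203272736)) (.cons (.br (nat_lit 11) (nat_lit 0) (.cons (.rf (nat_lit 98) (nat_lit 583706118939841765935136)) (.cons (.rf (nat_lit 98) (nat_lit 547072038130959203272736)) (.cons (.br (nat_lit 14) (nat_lit 0) (.cons (.rf (nat_lit 100) (nat_lit 677582165103132179601393696)) (.cons (.rf (nat_lit 101) (nat_lit 677582165103132179601393696)) (.cons (.rf (nat_lit 101) (nat_lit 640105464695078675185502240)) .nil)))) .nil)))) .nil)))) .nil)))) .nil)))),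
 (.br (nat_lit 14) (nat_lit 0) (.cons (.br (nat_lit 15) (nat_lit 0) (.cons (.ev (nat_lit 1334420292643450718979363105295892481) (nat_lit 1)) .nil)) .nil)),
 (.br (nat_lit 13) (nat_lit 0) (.cons (.ev (nat_lit 40564821634636606532143385018883) (nat_lit 2)) (.cons (.kr (nat_lit 20282410812577490038576425992192) (nat_lit 79537647524085682662268731392) (nat_lit 10) (nat_lit 0)) (.cons (.br (nat_lit 14) (nat_lit 0) (.cons (.kr (nat_lit 159075295048171366428360835073) (nat_lit 10384593717079099990589681902419968) (nat_lit 0) (nat_lit 1)) (.cons (.kr (nat_lit 40564821625154980078256675356673) (nat_lit 10384593717079099990589681902419968) (nat_lit 0) (nat_lit 1)) (.cons (.br (nat_lit 15) (nat_lit 0) (.cons (.rf (nat_lit 103) (nat_lit 21174442659472880612509728)) (.cons (.br (nat_lit 15) (nat_lit 0) (.cons (.rf (nat_lit 103) (nat_lit 21174442659472880612509728)) .nil)) .nil))) .nil)))) .nil)))),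
 (.br (nat_lit 14) (nat_lit 0) (.cons (.br (nat_lit 16) (nat_lit 0) (.cons (.ev (nat_lit 340287559217796998309450163476783694081) (nat_lit 1)) (.cons (.ev (nat_lit 340287579579434769179376439932575875073) (nat_lit 1)) .nil))) (.cons (.br (nat_lit 15) (nat_lit 0) (.cons (.br (nat_lit 16) (nat_lit 0) (.cons (.ev (nat_lit 340287559218107696949082638089680125953) (nat_lit 1)) .nil)) (.cons (.ev (nat_lit 87113615159756031567219241850056625684481) (nat_lit 1)) .nil))) .nil))),
 (.br (nat_lit 14) (nat_lit 0) (.cons (.rf (nat_lit 105) (nat_lit 677582165103132179601393696)) (.cons (.br (nat_lit 16) (nat_lit 0) (.cons (.ev (nat_lit 340287579579434769179376439932575875073) (nat_lit 1)) (.cons (.ev (nat_lit 340287559217796998309450163476783694081) (nat_lit 1)) .nil))) .nil))),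
 (.br (nat_lit 11) (nat_lit 0) (.cons (.rf (nat_lit 104) (nat_lit 583706118939841765935136)) (.cons (.ev (nat_lit 159075304529797820315070497283) (nat_lit 2)) (.cons (.br (nat_lit 13) (nat_lit 0) (.cons (.ev (nat_lit 40564821634636606532143385018883) (nat_lit 2)) (.cons (.rf (nat_lit 104) (nat_lit 547031760153573636277312)) (.cons (.ev (nat_lit 40565438177323128217273804783619) (nat_lit 2)) (.cons (.br (nat_lit 14) (nat_lit 0) (.cons (.rf (nat_lit 105) (nat_lit 677582165103132179601393696)) (.cons (.rf (nat_lit 106) (nat_lit 677582165103132179601393696)) (.cons (.br (nat_lit 14) (nat_lit 0) (.cons (.rf (nat_lit 105) (nat_lit 677582165103132179601393696)) (.cons (.rf (nat_lit 106) (nat_lit 677582165103132179601393696)) .nil))) .nil)))) .nil))))) .nil)))),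
 (.br (nat_lit 13) (nat_lit 0) (.cons (.ev (nat_lit 2668881150108526556189431507923763203) (nat_lit 2)) (.cons (.br (nat_lit 16) (nat_lit 0) (.cons (.br (nat_lit 16) (nat_lit 0) .nil) .nil)) .nil))),
 (.br (nat_lit 13) (nat_lit 0) (.cons (.ev (nat_lit 2668881150108526556189431507923763203) (nat_lit 2)) (.cons (.br (nat_lit 15) (nat_lit 0) (.cons (.ev (nat_lit 340287559218107696949082639193503498240) (nat_lit 1)) (.cons (.ev (nat_lit 2668881150725088205674668135704297987) (nat_lit 2)) .nil))) .nil))),
 (.br (nat_lit 14) (nat_lit 0) (.cons (.br (nat_lit 13) (nat_lit 0) (.cons (.ev (nat_lit 114394859386216458099225418109422609) (nat_lit 5)) (.cons (.br (nat_lit 15) (nat_lit 0) (.cons (.ev (nat_lit 13333940981017540455418726116292166665) (nat_lit 4)) (.cons (.br (nat_lit 16) (nat_lit 0) (.cons (.br (nat_lit 16) (nat_lit 0) .nil) .nil)) .nil))) .nil))) (.cons (.ev (nat_lit 5327296735315476064367154394594017797) (nat_lit 3)) (.cons (.br (nat_lit 13) (nat_lit 0) (.cons (.rf (nat_lit 108) (nat_lit 19926519232773908561233952)) (.cons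 (.rf (nat_lit 109) (nat_lit 19926519232773908561233952)) (.cons (.br (nat_lit 13) (nat_lit 0) (.cons (.rf (nat_lit 108) (nat_lit 19926519232773908561233952)) (.cons (.rf (nat_lit 109) (nat_lit 19926519232773908561233952)) .nil))) .nil)))) .nil)))),
 (.br (nat_lit 15) (nat_lit 0) (.cons (.ev (nat_lit 1329248357733380696918069862169837825) (nat_lit 1)) .nil)),
 (.br (nat_lit 13) (nat_lit 0) (.cons (.rf (nat_lit 110) (nat_lit 547031760153573636277312)) (.cons (.br (nat_lit 15) (nat_lit 0) (.cons (.ev (nat_lit 340287579579434769179376441036399247360) (nat_lit 1)) (.cons (.br (nat_lit 15) (nat_lit 0) (.cons (.ev (nat_lit 340287579579434769179376439932575875073) (nat_lit 1)) .nil)) .nil))) (.cons (.br (nat_lit 15) (nat_lit 0) (.cons (.rf (nat_lit 111) (nat_lit 21174442659472880611461152)) (.cons (.br (nat_lit 15) (nat_lit 0) (.cons (.rf (nat_lit 111) (nat_lit 21174442659472880611461152)) .nil)) .nil))) .nil)))),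
 (.br (nat_lit 13) (nat_lit 0) (.cons (.rf (nat_lit 110) (nat_lit 547031760153573636277312)) (.cons (.br (nat_lit 14) (nat_lit 0) (.cons (.ev (nat_lit 31235387403811252532484590929184261) (nat_lit 3)) (.cons (.ev (nat_lit 340287579579745458411025884715478417665) (nat_lit 1)) (.cons (.br (nat_lit 15) (nat_lit 0) (.cons (.ev (nat_lit 341611615278671844160292677298249859072) (nat_lit 1)) (.cons (.ev (nat_lit 2668840743745653762859034549189476867) (nat_lit 2)) .nil))) .nil)))) (.cons (.br (nat_lit 14) (nat_lit 0) (.cons (.kr (nat_lit 1329227995784915891422608728027824384) (nat_lit 5192296858539549995294840951209984) (nat_lit 1) (nat_lit 0)) (.cons (.br (nat_lit 16) (nat_lit 0) (.cons (.ev (nat_lit 2668840743745653762859034549189476867) (nat_lit 2)) (.cons (.ev (nat_lit 340287579579434769179376439932575875073) (nat_lit 1)) .nil))) (.cons (.br (nat_lit 17) (nat_lit 0) (.cons (.ev (nat_lit 2668840743745653762859034549189476867) (nat_lit 2)) (.cons (.ev (nat_lit 87112291124057415880109607533190574047233) (nat_lit 1)) .nil))) .nil))))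 .nil)))),
 (.br (nat_lit 11) (nat_lit 0) (.cons (.br (nat_lit 11) (nat_lit 0) .nil) .nil)),
 (.br (nat_lit 13) (nat_lit 0) (.cons (.rf (nat_lit 112) (nat_lit 19926519232773908561233952)) (.cons (.rf (nat_lit 113) (nat_lit 19926519232773908561233952)) (.cons (.br (nat_lit 14) (nat_lit 0) (.cons (.br (nat_lit 15) (nat_lit 0) (.cons (.kr (nat_lit 159075295048171366428360835073) (nat_lit 2658455991569831782845217456055648768) (nat_lit 0) (nat_lit 2)) (.cons (.br (nat_lit 16) (nat_lit 0) (.cons (.ev (nat_lit 1366456764420312124623392974410625582597) (nat_lit 3)) .nil)) .nil))) (.cons (.rf (nat_lit 114) (nat_lit 646192708113796405313)) (.cons (.br (nat_lit 16) (nat_lit 0) (.cons (.br (nat_lit 15) (nat_lit 0) (.cons (.ev (nat_lit 2668840744362196449380719679609241603) (nat_lit 2)) .nil)) (.cons (.ev (nat_lit 87112291124057415880109607533190574047233) (nat_lit 1)) .nil))) .nil)))) .nil)))),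
 (.br (nat_lit 11) (nat_lit 0) (.cons (.rf (nat_lit 107) (nat_lit 583706118939841765935136)) (.cons (.rf (nat_lit 110) (nat_lit 583706118939841765935136)) (.cons (.br (nat_lit 13) (nat_lit 0) (.cons (.rf (nat_lit 112) (nat_lit 19926519232773908561233952)) (.cons (.rf (nat_lit 113) (nat_lit 19926519232773908561233952)) (.cons (.rf (nat_lit 115) (nat_lit 19926519232773908561233952)) (.cons (.br (nat_lit 13) (nat_lit 0) (.cons (.rf (nat_lit 112) (nat_lit 19926519232773908561233952)) (.cons (.rf (nat_lit 113) (nat_lit 19926519232773908561233952)) (.cons (.rf (nat_lit 115) (nat_lit 19926519232773908561233952)) .nil)))) .nil))))) .nil)))),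
 (.br (nat_lit 13) (nat_lit 0) (.cons (.rf (nat_lit 116) (nat_lit 547031760153573636277312)) (.cons (.br (nat_lit 14) (nat_lit 0) (.cons (.ev (nat_lit 1344926739900724017772997807394194692) (nat_lit 3)) (.cons (.ev (nat_lit 340287559217796998309450164580607066368) (nat_lit 1)) (.cons (.br (nat_lit 15) (nat_lit 0) (.cons (.ev (nat_lit 341611594916723384058716954955731763201) (nat_lit 1)) (.cons (.ev (nat_lit 2668840743745653762859034549189476867) (nat_lit 2)) .nil))) .nil)))) (.cons (.br (nat_lit 14) (nat_lit 0) (.cons (.ev (nat_lit 1355189638536347187659169738334078721) (nat_lit 3)) (.cons (.br (nat_lit 15) (nat_lit 0) (.cons (.ev (nat_lit 2668840743745653762859034549189476867) (nat_lit 2)) (.cons (.br (nat_lit 16) (nat_lit 0) (.cons (.ev (nat_lit 341611594917034073290366399738634305793) (nat_lit 1)) .nil)) .nil))) (.cons (.br (nat_lit 15) (nat_lit 0) (.cons (.br (nat_lit 16) (nat_lit 0) (.cons (.ev (nat_lit 340287559218107696949082638089680125953) (nat_lit 1)) .nil)) (.cons (.ev (nat_lit 2668840743745653762859034549189476867)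 (nat_lit 2)) .nil))) .nil)))) .nil)))),
 (.br (nat_lit 13) (nat_lit 0) (.cons (.rf (nat_lit 117) (nat_lit 19926519232773908561233952)) (.cons (.rf (nat_lit 116) (nat_lit 547031760153573636277312)) (.cons (.br (nat_lit 15) (nat_lit 0) (.cons (.br (nat_lit 14) (nat_lit 0) (.cons (.ev (nat_lit 2668840744362196449380719679609241603) (nat_lit 2)) (.cons (.br (nat_lit 16) (nat_lit 0) (.cons (.ev (nat_lit 340287559218107696949082638089680125953) (nat_lit 1)) .nil)) .nil))) (.cons (.ev (nat_lit 341611594916723384058716954955731763201) (nat_lit 1)) (.cons (.br (nat_lit 16) (nat_lit 0) (.cons (.br (nat_lit 14) (nat_lit 0) (.cons (.zr (nat_lit 174224571863522355057936510194708354695680) (nat_lit 2044352657992569587611641287583903776771) (nat_lit 16) (nat_lit 8)) .nil)) (.cons (.ev (nat_lit 2724917514004892091073029207534365443081) (nat_lit 4)) .nil))) .nil)))) .nil)))),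
 (.br (nat_lit 11) (nat_lit 0) (.cons (.ev (nat_lit 159075304529797820315070497283) (nat_lit 2)) (.cons (.rf (nat_lit 116) (nat_lit 583706118939841765935136)) (.cons (.br (nat_lit 13) (nat_lit 0) (.cons (.rf (nat_lit 117) (nat_lit 19926519232773908561233952)) (.cons (.rf (nat_lit 116) (nat_lit 547031760153573636277312)) (.cons (.rf (nat_lit 118) (nat_lit 19926519232773908561233952)) (.cons (.br (nat_lit 13) (nat_lit 0) (.cons (.rf (nat_lit 117) (nat_lit 19926519232773908561233952)) (.cons (.rf (nat_lit 116) (nat_lit 547031760153573636277312)) (.cons (.rf (nat_lit 118) (nat_lit 19926519232773908561233952)) .nil)))) .nil))))) .nil)))),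
 (.br (nat_lit 14) (nat_lit 0) (.cons (.br (nat_lit 15) (nat_lit 0) (.cons (.ev (nat_lit 341611615278361145520660201581530054913) (nat_lit 1)) .nil)) (.cons (.kr (nat_lit 40564821625154980078256675356673) (nat_lit 10384593717079099990589681902419968) (nat_lit 0) (nat_lit 1)) .nil)))]

theorem c3 : chkAll C T R L3 (nat_lit 94) = true := by decide +kernel

theorem l3 : (nat_lit 94) + L3.length = (nat_lit 121) := by decide +kernel

/-- part of the certificates -/
def L4 : List Prf := [(.br (nat_lit 13) (nat_lit 0) (.cons (.rf (nat_lit 119) (nat_lit 547031760153573636277312)) (.cons (.rf (nat_lit 116) (nat_lit 547031760153573636277312)) (.cons (.br (nat_lit 16) (nat_lit 0) (.cons (.rf (nat_lit 120) (nat_lit 677582165103132179601393696)) (.cons (.rf (nat_lit 120) (nat_lit 677545490744345911471735872)) (.cons (.kr (nat_lit 340282366920938463463374607431768211456) (nat_lit 87112285931760246646623899502532662132736) (nat_lit 16) (nat_lit 0)) .nil)))) .nil)))),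
 (.br (nat_lit 10) (nat_lit 0) (.cons (.rf (nat_lit 91) (nat_lit 493858305440582043680)) (.cons (.rf (nat_lit 102) (nat_lit 493858305440582043680)) (.cons (.br (nat_lit 12) (nat_lit 0) (.cons (.rf (nat_lit 102) (nat_lit 417839761412202792000)) (.cons (.rf (nat_lit 91) (nat_lit 417839761412202792000)) (.cons (.ev (nat_lit 158458742880312583687289962499) (nat_lit 2)) (.cons (.br (nat_lit 11) (nat_lit 0) (.cons (.rf (nat_lit 107) (nat_lit 583706118939841765935136)) (.cons (.rf (nat_lit 116) (nat_lit 583706118939841765935136)) (.cons (.rf (nat_lit 119) (nat_lit 583706118939841765935136)) (.cons (.br (nat_lit 11) (nat_lit 0) (.cons (.rf (nat_lit 107) (nat_lit 583706118939841765935136)) (.cons (.rf (nat_lit 116) (nat_lit 583706118939841765935136)) (.cons (.rf (nat_lit 119) (nat_lit 583706118939841765935136)) (.cons (.br (nat_lit 13) (nat_lit 0) (.cons (.rf (nat_lit 119) (nat_lit 547031760153573636277312)) (.cons (.rf (nat_lit 116) (nat_lit 547031760153573636277312)) (.cons (.rf (nat_lit 121) (nat_lit 677582165103132179601393696))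 (.cons (.rf (nat_lit 121) (nat_lit 640105464695078675185502240)) .nil))))) .nil))))) .nil))))) .nil))))) .nil)))),
 (.br (nat_lit 12) (nat_lit 0) (.cons (.br (nat_lit 12) (nat_lit 0) .nil) .nil)),
 (.br (nat_lit 13) (nat_lit 0) (.cons (.ev (nat_lit 2668881150725078724192892387023912963) (nat_lit 2)) (.cons (.br (nat_lit 15) (nat_lit 0) (.cons (.ev (nat_lit 3418836712882666917908212467628402671625) (nat_lit 4)) (.cons (.br (nat_lit 16) (nat_lit 0) (.cons (.ev (nat_lit 341611594917034077994357914653631250433) (nat_lit 1)) .nil)) .nil))) .nil))),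
 (.br (nat_lit 13) (nat_lit 0) (.cons (.br (nat_lit 13) (nat_lit 0) (.cons (.ev (nat_lit 2668881150725078724192892387023912963) (nat_lit 2)) (.cons (.rf (nat_lit 123) (nat_lit 646192708113796405313)) .nil))) (.cons (.rf (nat_lit 124) (nat_lit 19926519232773908561233952)) (.cons (.br (nat_lit 13) (nat_lit 0) (.cons (.rf (nat_lit 123) (nat_lit 646192708113796405313)) (.cons (.rf (nat_lit 124) (nat_lit 19926519232773908561233952)) .nil))) .nil)))),
 (.br (nat_lit 15) (nat_lit 0) (.cons (.br (nat_lit 13) (nat_lit 0) (.cons (.ev (nat_lit 341611594916723379354725440040734818561) (nat_lit 1)) (.cons (.br (nat_lit 16) (nat_lit 0) (.cons (.ev (nat_lit 680575159001032183386616268878680031747) (nat_lit 2)) .nil)) .nil))) (.cons (.ev (nat_lit 18671499661749992551751018261487158281) (nat_lit 4)) .nil))),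
 (.br (nat_lit 12) (nat_lit 0) (.cons (.rf (nat_lit 91) (nat_lit 417839761412202792000)) (.cons (.rf (nat_lit 125) (nat_lit 19926519232773908561233952)) (.cons (.rf (nat_lit 125) (nat_lit 18755372310119339436116000)) (.cons (.br (nat_lit 13) (nat_lit 0) (.cons (.rf (nat_lit 126) (nat_lit 677582165103132179601393696)) (.cons (.rf (nat_lit 126) (nat_lit 676411018180477610476275744)) (.cons (.br (nat_lit 13) (nat_lit 0) (.cons (.rf (nat_lit 126) (nat_lit 677582165103132179601393696)) (.cons (.rf (nat_lit 126) (nat_lit 676411018180477610476275744)) .nil))) .nil)))) .nil))))),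
 (.br (nat_lit 13) (nat_lit 0) (.cons (.ev (nat_lit 40564821625155124756394704633859) (nat_lit 2)) (.cons (.rf (nat_lit 127) (nat_lit 17547551098484296405582912)) (.cons (.ev (nat_lit 20361637770888373303108301815808) (nat_lit 1)) (.cons (.rf (nat_lit 127) (nat_lit 21174328557328183929701440)) .nil))))),
 (.br (nat_lit 13) (nat_lit 0) (.cons (.rf (nat_lit 127) (nat_lit 19926483492207265748977696)) (.cons (.rf (nat_lit 127) (nat_lit 20003181669576511916704832)) (.cons (.br (nat_lit 14) (nat_lit 0) (.cons (.ev (nat_lit 2668861106310670773323781575530447618) (nat_lit 2)) (.cons (.ev (nat_lit 680575138956617756472783606569825796354) (nat_lit 2)) (.cons (.kr (nat_lit 87112285931760246646642418304200409612544) (nat_lit 5192296858539549995294840951209984) (nat_lit 1) (nat_lit 0)) .nil)))) .nil)))),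
 (.br (nat_lit 12) (nat_lit 0) (.cons (.rf (nat_lit 91) (nat_lit 417839761412202792000)) (.cons (.rf (nat_lit 127) (nat_lit 19926519232773908561233952)) (.cons (.br (nat_lit 13) (nat_lit 0) (.cons (.rf (nat_lit 127) (nat_lit 19926483492207265748977696)) (.cons (.rf (nat_lit 128) (nat_lit 19926519232773908561233952)) (.cons (.rf (nat_lit 128) (nat_lit 18755372310119339436116000)) (.cons (.br (nat_lit 13) (nat_lit 0) (.cons (.rf (nat_lit 127) (nat_lit 19926483492207265748977696)) (.cons (.rf (nat_lit 127) (nat_lit 21174328557328183929701440)) (.cons (.rf (nat_lit 127) (nat_lit 21137694476519301367039040)) .nil)))) .nil))))) (.cons (.br (nat_lit 13) (nat_lit 0) (.cons (.rf (nat_lit 127) (nat_lit 19926483492207265748977696)) (.cons (.br (nat_lit 13) (nat_lit 0) (.cons (.rf (nat_lit 123) (nat_lit 646192674028935944257)) (.cons (.rf (nat_lit 127) (nat_lit 20003181669576511916704832)) (.cons (.ev (nat_lit 20361637770888373303108301815808) (nat_lit 1)) .nil)))) (.cons (.rf (nat_lit 129) (nat_lit 677582165103132179601393696)) (.cons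 (.br (nat_lit 13) (nat_lit 0) (.cons (.rf (nat_lit 127) (nat_lit 19926483492207265748977696)) (.cons (.ev (nat_lit 20361637770888373303108301815808) (nat_lit 1)) (.cons (.rf (nat_lit 129) (nat_lit 677582165103132179601393696)) .nil)))) .nil))))) .nil))))),
 (.br (nat_lit 11) (nat_lit 0) (.cons (.rf (nat_lit 122) (nat_lit 493823402543469922336)) (.cons (.rf (nat_lit 122) (nat_lit 458082835900657666080)) (.cons (.ev (nat_lit 310693954087985246585749761) (nat_lit 1)) (.cons (.br (nat_lit 12) (nat_lit 0) (.cons (.rf (nat_lit 91) (nat_lit 417839761412202792000)) (.cons (.rf (nat_lit 127) (nat_lit 19926519232773908561233952)) (.cons (.rf (nat_lit 130) (nat_lit 19926519232773908561233952)) (.cons (.rf (nat_lit 130) (nat_lit 18755372310119339436116000)) (.cons (.br (nat_lit 12) (nat_lit 0) (.cons (.rf (nat_lit 91) (nat_lit 417839761412202792000)) (.cons (.rf (nat_lit 127) (nat_lit 19926519232773908561233952)) (.cons (.rf (nat_lit 130) (nat_lit 19926519232773908561233952)) (.cons (.rf (nat_lit 130) (nat_lit 18755372310119339436116000))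 .nil))))) .nil)))))) .nil))))),
 (.br (nat_lit 13) (nat_lit 0) (.cons (.rf (nat_lit 131) (nat_lit 583630100395813386683456)) (.cons (.rf (nat_lit 131) (nat_lit 547031760153573636277312)) (.cons (.ev (nat_lit 20362569862158620290885699698945) (nat_lit 2)) .nil)))),
 (.br (nat_lit 13) (nat_lit 0) (.cons (.rf (nat_lit 131) (nat_lit 621409032258770548393024)) (.cons (.rf (nat_lit 131) (nat_lit 548212351774291047580736)) (.cons (.ev (nat_lit 20362569862158620290885699698945) (nat_lit 2)) .nil)))),
 (.br (nat_lit 13) (nat_lit 0) (.cons (.rf (nat_lit 131) (nat_lit 621409032258770548393024)) (.cons (.rf (nat_lit 133) (nat_lit 677582165103132179601393696)) (.cons (.rf (nat_lit 131) (nat_lit 548212351774291047580736)) (.cons (.rf (nat_lit 133) (nat_lit 597870980020631106104690720)) .nil))))),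
 (.br (nat_lit 12) (nat_lit 0) (.cons (.rf (nat_lit 91) (nat_lit 417839761412202792000)) (.cons (.br (nat_lit 13) (nat_lit 0) (.cons (.rf (nat_lit 131) (nat_lit 583630100395813386683456)) (.cons (.rf (nat_lit 131) (nat_lit 547031760153573636277312)) (.cons (.rf (nat_lit 132) (nat_lit 677582165103132179601393696)) (.cons (.rf (nat_lit 132) (nat_lit 640105464695078675185502240)) .nil))))) (.cons (.rf (nat_lit 134) (nat_lit 677582165103132179601393696)) (.cons (.rf (nat_lit 134) (nat_lit 640105464695078675185502240)) .nil))))),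
 (.br (nat_lit 6) (nat_lit 0) (.cons (.kr (nat_lit 72057594037928192) (nat_lit 281474976776192) (nat_lit 1) (nat_lit 0)) (.cons (.br (nat_lit 7) (nat_lit 0) (.cons (.ev (nat_lit 144679241852649475) (nat_lit 2)) (.cons (.br (nat_lit 8) (nat_lit 0) (.cons (.rf (nat_lit 34) (nat_lit 325702574508064)) (.cons (.br (nat_lit 8) (nat_lit 0) (.cons (.rf (nat_lit 34) (nat_lit 325702574508064)) (.cons (.br (nat_lit 9) (nat_lit 0) (.cons (.rf (nat_lit 62) (nat_lit 407901468851537952)) (.cons (.rf (nat_lit 62) (nat_lit 372998571739416608)) (.cons (.br (nat_lit 9) (nat_lit 0) (.cons (.rf (nat_lit 62) (nat_lit 407901468851537952)) (.cons (.rf (nat_lit 62) (nat_lit 372998571739416608)) (.cons (.br (nat_lit 10) (nat_lit 0) (.cons (.rf (nat_lit 91) (nat_lit 493858305440582043680)) (.cons (.rf (nat_lit 122) (nat_lit 493858305440582043680)) (.cons (.rf (nat_lit 122) (nat_lit 458117738797769787424)) (.cons (.br (nat_lit 10) (nat_lit 0) (.cons (.rf (nat_lit 91) (nat_lit 493858305440582043680)) (.cons (.rf (nat_lit 122) (nat_lit 493858305440582043680))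 (.cons (.rf (nat_lit 122) (nat_lit 458117738797769787424)) (.cons (.br (nat_lit 11) (nat_lit 0) (.cons (.rf (nat_lit 122) (nat_lit 493823402543469922336)) (.cons (.rf (nat_lit 122) (nat_lit 458082835900657666080)) (.cons (.rf (nat_lit 131) (nat_lit 583706118939841765935136)) (.cons (.rf (nat_lit 131) (nat_lit 547107778697602015528992)) (.cons (.br (nat_lit 11) (nat_lit 0) (.cons (.rf (nat_lit 122) (nat_lit 493823402543469922336)) (.cons (.rf (nat_lit 122) (nat_lit 458082835900657666080)) (.cons (.rf (nat_lit 131) (nat_lit 583706118939841765935136)) (.cons (.rf (nat_lit 131) (nat_lit 547107778697602015528992)) (.cons (.br (nat_lit 12) (nat_lit 0) (.cons (.rf (nat_lit 91) (nat_lit 417839761412202792000)) (.cons (.rf (nat_lit 135) (nat_lit 677582165103132179601393696)) (.cons (.rf (nat_lit 135) (nat_lit 677545566762889939850987552)) (.cons (.rf (nat_lit 135) (nat_lit 597870980020631106104690720)) (.cons (.rf (nat_lit 135) (nat_lit 597834381680388866354284576)) .nil)))))) .nil)))))) .nil)))))) .nil))))) .nil))))) .nil)))) .nil))))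 .nil))) .nil))) .nil))) .nil))),
 (.br (nat_lit 14) (nat_lit 0) (.cons (.br (nat_lit 15) (nat_lit 0) (.cons (.ev (nat_lit 1344804887290184311073329863922483713) (nat_lit 2)) (.cons (.rf (nat_lit 1) (nat_lit 646192708113796368609)) .nil))) .nil)),
 (.br (nat_lit 15) (nat_lit 0) (.cons (.ev (nat_lit 7985793609240999227549460417763999747) (nat_lit 3)) .nil)),
 (.br (nat_lit 12) (nat_lit 0) (.cons (.br (nat_lit 13) (nat_lit 0) (.cons (.kr (nat_lit 158456334473261642025889955841) (nat_lit 40564819207340234336046233419776) (nat_lit 0) (nat_lit 1)) (.cons (.br (nat_lit 14) (nat_lit 0) (.cons (.rf (nat_lit 137) (nat_lit 583706118939841765935136)) (.cons (.br (nat_lit 14) (nat_lit 0) (.cons (.rf (nat_lit 137) (nat_lit 583706118939841765935136)) (.cons (.br (nat_lit 15) (nat_lit 0) (.cons (.rf (nat_lit 138) (nat_lit 677582165103132179601393696)) (.cons (.rf (nat_lit 138) (nat_lit 640105464695078675185502240)) .nil))) .nil))) .nil))) .nil))) .nil)),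
 (.br (nat_lit 15) (nat_lit 0) (.cons (.br (nat_lit 16) (nat_lit 0) (.cons (.ev (nat_lit 344270050909222875037369959927263724033) (nat_lit 2)) .nil)) .nil)),
 (.br (nat_lit 13) (nat_lit 0) (.cons (.ev (nat_lit 41042047538670875352938897080327) (nat_lit 3)) (.cons (.br (nat_lit 14) (nat_lit 0) (.cons (.ev (nat_lit 20769505584748296755130798304395779) (nat_lit 3)) (.cons (.ev (nat_lit 20850317077389694406494794945660419) (nat_lit 3)) (.cons (.br (nat_lit 15) (nat_lit 0) (.cons (.rf (nat_lit 140) (nat_lit 677582165103132179601393696)) (.cons (.br (nat_lit 15) (nat_lit 0) (.cons (.rf (nat_lit 140) (nat_lit 677582165103132179601393696)) .nil)) .nil))) .nil)))) .nil))),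
 (.br (nat_lit 15) (nat_lit 0) (.cons (.ev (nat_lit 340297943812443731901544130235410350593) (nat_lit 2)) (.cons (.ev (nat_lit 5337762301450157522027518877180888583) (nat_lit 3)) .nil))),
 (.br (nat_lit 14) (nat_lit 0) (.cons (.rf (nat_lit 142) (nat_lit 677582165103132179601393696)) (.cons (.rf (nat_lit 142) (nat_lit 640105464695078675185502240)) .nil))),
 (.br (nat_lit 15) (nat_lit 0) (.cons (.ev (nat_lit 5253382081318335255004625288364547) (nat_lit 2)) (.cons (.ev (nat_lit 1366467229983966090152208879789155549703) (nat_lit 3)) (.cons (.ev (nat_lit 5337681487491307452364563163952185863) (nat_lit 3)) .nil)))),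
 (.br (nat_lit 14) (nat_lit 0) (.cons (.rf (nat_lit 143) (nat_lit 677582165103132179601393696)) (.cons (.br (nat_lit 16) (nat_lit 0) (.cons (.rf (nat_lit 144) (nat_lit 677582165103132179601393696)) (.cons (.ev (nat_lit 340297943812443731901544130235410350593) (nat_lit 2)) .nil))) .nil)))]

theorem c4 : chkAll C T R L4 (nat_lit 121) = true := by decide +kernel

theorem l4 : (nat_lit 121) + L4.length = (nat_lit 146) := by decide +kernel

/-- part of the certificates -/
def L5 : List Prf := [(.br (nat_lit 10) (nat_lit 0) (.cons (.br (nat_lit 11) (nat_lit 0) (.cons (.ev (nat_lit 313111787281033394097553923) (nat_lit 2)) (.cons (.br (nat_lit 12) (nat_lit 0) (.cons (.rf (nat_lit 139) (nat_lit 493858305440582043680)) (.cons (.br (nat_lit 12) (nat_lit 0) (.cons (.rf (nat_lit 139) (nat_lit 493858305440582043680)) (.cons (.br (nat_lit 13) (nat_lit 0) (.cons (.rf (nat_lit 141) (nat_lit 583706118939841765935136)) (.cons (.rf (nat_lit 141) (nat_lit 547107778697602015528992)) (.cons (.br (nat_lit 13) (nat_lit 0) (.cons (.rf (nat_lit 141)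 (nat_lit 583706118939841765935136)) (.cons (.rf (nat_lit 141) (nat_lit 547107778697602015528992)) (.cons (.br (nat_lit 14) (nat_lit 0) (.cons (.rf (nat_lit 143) (nat_lit 677582165103132179601393696)) (.cons (.rf (nat_lit 145) (nat_lit 677582165103132179601393696)) (.cons (.rf (nat_lit 145) (nat_lit 640105464695078675185502240)) .nil)))) .nil)))) .nil)))) .nil))) .nil))) .nil))) .nil)),
 (.br (nat_lit 14) (nat_lit 0) (.cons (.zr (nat_lit 7975367974709514274895072041411544585) (nat_lit 81288716127506495112818325061632) (nat_lit 32) (nat_lit 1)) (.cons (.br (nat_lit 15) (nat_lit 0) (.cons (.ev (nat_lit 5337762300217072001988908578781528583) (nat_lit 3)) (.cons (.rf (nat_lit 11) (nat_lit 646192708113796368609)) .nil))) .nil))),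
 (.br (nat_lit 16) (nat_lit 0) (.cons (.ev (nat_lit 1361150318317743893604962274896194307587) (nat_lit 3)) .nil)),
 (.br (nat_lit 13) (nat_lit 0) (.cons (.rf (nat_lit 147) (nat_lit 583706118939841765935136)) (.cons (.br (nat_lit 14) (nat_lit 0) (.cons (.rf (nat_lit 147) (nat_lit 582562385870079315155171)) (.cons (.kr (nat_lit 40564819216748073814733304627201) (nat_lit 10384593717069692150549144389287936) (nat_lit 0) (nat_lit 1)) (.cons (.br (nat_lit 15) (nat_lit 0) (.cons (.rf (nat_lit 148) (nat_lit 677582165103132179601393696)) (.cons (.rf (nat_lit 148) (nat_lit 640104320962008912734722275)) .nil))) .nil)))) .nil))),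
 (.br (nat_lit 14) (nat_lit 0) (.cons (.ev (nat_lit 5253145017009737923733652737556993) (nat_lit 2)) (.cons (.br (nat_lit 16) (nat_lit 0) (.cons (.br (nat_lit 16) (nat_lit 0) .nil) .nil)) .nil))),
 (.br (nat_lit 14) (nat_lit 0) (.cons (.ev (nat_lit 5253145017009737923733652737556993) (nat_lit 2)) (.cons (.br (nat_lit 15) (nat_lit 0) (.cons (.ev (nat_lit 1366446379668131476274297316407005938179) (nat_lit 3)) (.cons (.ev (nat_lit 5337762301450157522027518877180888583) (nat_lit 3)) .nil))) .nil))),
 (.br (nat_lit 13) (nat_lit 0) (.cons (.rf (nat_lit 149) (nat_lit 583706118939841765935136)) (.cons (.br (nat_lit 14) (nat_lit 0) (.cons (.rf (nat_lit 150) (nat_lit 19926519232773908561233952)) (.cons (.rf (nat_lit 151) (nat_lit 19926519232773908561233952)) (.cons (.br (nat_lit 14) (nat_lit 0) (.cons (.rf (nat_lit 150) (nat_lit 19926519232773908561233952)) (.cons (.rf (nat_lit 151) (nat_lit 19926519232773908561233952)) .nil))) .nil)))) .nil))),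
 (.br (nat_lit 14) (nat_lit 0) (.cons (.rf (nat_lit 152) (nat_lit 582562385870079315155171)) (.cons (.ev (nat_lit 5253145017009737923733652737556993) (nat_lit 2)) .nil))),
 (.br (nat_lit 11) (nat_lit 0) (.cons (.ev (nat_lit 1859337465981293906056578051) (nat_lit 3)) (.cons (.br (nat_lit 12) (nat_lit 0) (.cons (.ev (nat_lit 316917504650235212937513927175) (nat_lit 3)) (.cons (.ev (nat_lit 318150590170273823235913287175) (nat_lit 3)) (.cons (.br (nat_lit 13) (nat_lit 0) (.cons (.rf (nat_lit 149) (nat_lit 583706118939841765935136)) (.cons (.rf (nat_lit 152) (nat_lit 583706118939841765935136)) (.cons (.br (nat_lit 13) (nat_lit 0) (.cons (.rf (nat_lit 149) (nat_lit 583706118939841765935136)) (.cons (.rf (nat_lit 152) (nat_lit 583706118939841765935136)) (.cons (.br (nat_lit 14) (nat_lit 0) (.cons (.rf (nat_lit 152) (nat_lit 582562385870079315155171)) (.cons (.rf (nat_lit 153) (nat_lit 677582165103132179601393696)) (.cons (.rf (nat_lit 153) (nat_lit 640105464695078675185502240)) .nil)))) .nil)))) .nil)))) .nil)))) .nil))),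
 (.br (nat_lit 16) (nat_lit 0) (.cons (.ev (nat_lit 1361150318002064347883910720363132356103) (nat_lit 3)) .nil)),
 (.br (nat_lit 13) (nat_lit 0) (.cons (.kr (nat_lit 79228162514264337593543950336) (nat_lit 20282409603651670423947251286016) (nat_lit 12) (nat_lit 0)) (.cons (.ev (nat_lit 81447789023592922704601992659459) (nat_lit 3)) (.cons (.br (nat_lit 14) (nat_lit 0) (.cons (.br (nat_lit 15) (nat_lit 0) (.cons (.ev (nat_lit 1329288843943390783199010216688681473) (nat_lit 2)) (.cons (.rf (nat_lit 19) (nat_lit 646192708113796368609)) .nil))) (.cons (.br (nat_lit 15) (nat_lit 0) (.cons (.ev (nat_lit 1361150237189338583334286374948303013383) (nat_lit 3)) (.cons (.br (nat_lit 15) (nat_lit 0) (.cons (.ev (nat_lit 1361150237189338583334286374948303013383) (nat_lit 3)) .nil)) .nil))) (.cons (.br (nat_lit 15) (nat_lit 0) (.cons (.rf (nat_lit 155) (nat_lit 677582165103132179601393696)) (.cons (.br (nat_lit 15) (nat_lit 0) (.cons (.rf (nat_lit 155) (nat_lit 677582165103132179601393696)) .nil)) .nil))) .nil)))) .nil)))),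
 (.br (nat_lit 14) (nat_lit 0) (.cons (.ev (nat_lit 5192297786989857092847181808992769) (nat_lit 2)) (.cons (.kr (nat_lit 309485009821345068724781056) (nat_lit 5192296858534827628530496329220096) (nat_lit 11) (nat_lit 0)) (.cons (.ev (nat_lit 5192535472686325705474591615549953) (nat_lit 2)) (.cons (.ev (nat_lit 5253145017009737923733652737556993) (nat_lit 2)) .nil))))),
 (.br (nat_lit 14) (nat_lit 0) (.cons (.ev (nat_lit 5192535472686325705474591615549953) (nat_lit 2)) (.cons (.br (nat_lit 16) (nat_lit 0) (.cons (.br (nat_lit 15) (nat_lit 0) (.cons (.ev (nat_lit 5337681171811761731313008665249972739) (nat_lit 3)) .nil)) (.cons (.ev (nat_lit 349810273194724745276126307116878345012739) (nat_lit 3)) .nil))) .nil))),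
 (.br (nat_lit 12) (nat_lit 0) (.cons (.rf (nat_lit 156) (nat_lit 583706118939841765935136)) (.cons (.rf (nat_lit 156) (nat_lit 547107778697602015528992)) (.cons (.br (nat_lit 13) (nat_lit 0) (.cons (.rf (nat_lit 156) (nat_lit 583670378373198953678880)) (.cons (.rf (nat_lit 156) (nat_lit 547072038130959203272736)) (.cons (.kr (nat_lit 79228162514264337593543950336) (nat_lit 20282409603651670423947251286016) (nat_lit 12) (nat_lit 0)) (.cons (.br (nat_lit 14) (nat_lit 0) (.cons (.rf (nat_lit 157) (nat_lit 677582165103132179601393696)) (.cons (.rf (nat_lit 158) (nat_lit 677582165103132179601393696)) (.cons (.rf (nat_lit 158) (nat_lit 640105428954512032373245984)) .nil)))) .nil))))) .nil)))),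
 (.br (nat_lit 13) (nat_lit 0) (.cons (.ev (nat_lit 81446555900440949723183804581379) (nat_lit 3)) (.cons (.br (nat_lit 15) (nat_lit 0) (.cons (.ev (nat_lit 1339673595500233298981848475878097411) (nat_lit 2)) (.cons (.rf (nat_lit 25) (nat_lit 646192708113796368609)) .nil))) .nil))),
 (.br (nat_lit 13) (nat_lit 0) (.cons (.ev (nat_lit 5337762617129703243079073410242840067) (nat_lit 3)) .nil)),
 (.br (nat_lit 14) (nat_lit 0) (.cons (.rf (nat_lit 160) (nat_lit 583706118939841765935136)) (.cons (.kr (nat_lit 5192296858534827628530496329220096) (nat_lit 1329227995784915872903807060280344576) (nat_lit 14) (nat_lit 0)) (.cons (.br (nat_lit 15) (nat_lit 0) (.cons (.rf (nat_lit 160) (nat_lit 547107778697602015528992)) (.cons (.ev (nat_lit 5337681171811761731313008665249972739) (nat_lit 3)) (.cons (.br (nat_lit 13) (nat_lit 0) (.cons (.rf (nat_lit 161) (nat_lit 677582165103132179601393696)) (.cons (.rf (nat_lit 161) (nat_lit 640068866354836435435096096)) .nil))) .nil)))) .nil)))),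
 (.br (nat_lit 15) (nat_lit 0) (.cons (.kr (nat_lit 20282720307032044350483952828418) (nat_lit 2663648288428366610329914239302565888) (nat_lit 0) (nat_lit 1)) (.cons (.kr (nat_lit 20282720307032044351583464456193) (nat_lit 2663648288428366610329914243580755968) (nat_lit 0) (nat_lit 1)) (.cons (.kr (nat_lit 20361637775610667728379597291521) (nat_lit 1334420292643450737425825708340412416) (nat_lit 0) (nat_lit 1)) (.cons (.kr (nat_lit 40564819216748073814733304627201) (nat_lit 2658455991569831782701102272291536896) (nat_lit 0) (nat_lit 1)) .nil))))),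
 (.br (nat_lit 13) (nat_lit 0) (.cons (.br (nat_lit 15) (nat_lit 0) (.cons (.kr (nat_lit 40564819216748073814733304627201) (nat_lit 2658455991569831782701102272291536896) (nat_lit 0) (nat_lit 1)) (.cons (.kr (nat_lit 1329228075013078387168144653824294912) (nat_lit 5212579268138479298954443580506112) (nat_lit 12) (nat_lit 0)) .nil))) (.cons (.rf (nat_lit 163) (nat_lit 677582165103132179601393696)) .nil))),
 (.br (nat_lit 13) (nat_lit 0) (.cons (.rf (nat_lit 164) (nat_lit 677582165103132179601393696)) (.cons (.br (nat_lit 16) (nat_lit 0) (.cons (.ev (nat_lit 1361150318002064347883910720363132356103) (nat_lit 3)) (.cons (.ev (nat_lit 1361150237188105497814247764649903653383) (nat_lit 3)) .nil))) .nil))),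
 (.br (nat_lit 12) (nat_lit 0) (.cons (.rf (nat_lit 159) (nat_lit 583706118939841765935136)) (.cons (.rf (nat_lit 162) (nat_lit 583706118939841765935136)) (.cons (.br (nat_lit 14) (nat_lit 0) (.cons (.rf (nat_lit 162) (nat_lit 505863129854604213229795)) (.cons (.rf (nat_lit 159) (nat_lit 505863129854604213229795)) (.cons (.kr (nat_lit 158456334473261642025889955841) (nat_lit 10384593717069692150549144389287936) (nat_lit 0) (nat_lit 1)) (.cons (.br (nat_lit 13) (nat_lit 0) (.cons (.rf (nat_lit 164) (nat_lit 677582165103132179601393696)) (.cons (.rf (nat_lit 165) (nat_lit 677582165103132179601393696)) (.cons (.br (nat_lit 13) (nat_lit 0) (.cons (.rf (nat_lit 163) (nat_lit 677582165103132179601393696)) (.cons (.rf (nat_lit 165) (nat_lit 677582165103132179601393696)) .nil))) .nil)))) .nil))))) .nil)))),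
 (.br (nat_lit 13) (nat_lit 0) (.cons (.rf (nat_lit 166) (nat_lit 583670378373198953678880)) (.cons (.rf (nat_lit 166) (nat_lit 547072038130959203272736)) (.cons (.ev (nat_lit 81446555900440949723183804581379) (nat_lit 3)) .nil)))),
 (.br (nat_lit 8) (nat_lit 0) (.cons (.br (nat_lit 9) (nat_lit 0) (.cons (.kr (nat_lit 9444732966838802055169) (nat_lit 36893488151730847744) (nat_lit 0) (nat_lit 1)) (.cons (.br (nat_lit 10) (nat_lit 0) (.cons (.rf (nat_lit 146) (nat_lit 407901468851537952)) (.cons (.br (nat_lit 10) (nat_lit 0) (.cons (.rf (nat_lit 146) (nat_lit 407901468851537952)) (.cons (.br (nat_lit 11) (nat_lit 0) (.cons (.rf (nat_lit 154) (nat_lit 493858305440582043680)) (.cons (.rf (nat_lit 154) (nat_lit 458117738797769787424)) (.cons (.br (nat_lit 11) (nat_lit 0) (.cons (.rf (nat_lit 154) (nat_lit 493858305440582043680)) (.cons (.rf (nat_lit 154) (nat_lit 458117738797769787424)) (.cons (.br (nat_lit 12) (nat_lit 0) (.cons (.rf (nat_lit 159) (nat_lit 583706118939841765935136)) (.cons (.rf (nat_lit 166) (nat_lit 583706118939841765935136))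 (.cons (.rf (nat_lit 166) (nat_lit 547107778697602015528992)) (.cons (.br (nat_lit 12) (nat_lit 0) (.cons (.rf (nat_lit 159) (nat_lit 583706118939841765935136)) (.cons (.rf (nat_lit 166) (nat_lit 583706118939841765935136)) (.cons (.rf (nat_lit 166) (nat_lit 547107778697602015528992)) (.cons (.br (nat_lit 13) (nat_lit 0) (.cons (.rf (nat_lit 166) (nat_lit 583670378373198953678880)) (.cons (.rf (nat_lit 166) (nat_lit 547072038130959203272736)) (.cons (.rf (nat_lit 167) (nat_lit 677582165103132179601393696)) (.cons (.rf (nat_lit 167) (nat_lit 640105464695078675185502240)) .nil))))) .nil))))) .nil))))) .nil)))) .nil)))) .nil))) .nil))) .nil))) .nil)),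
 (.br (nat_lit 14) (nat_lit 0) (.cons (.br (nat_lit 15) (nat_lit 0) (.cons (.ev (nat_lit 5337681170578657395306086907049673219) (nat_lit 3)) (.cons (.rf (nat_lit 35) (nat_lit 646192708113796368609)) .nil))) .nil)),
 (.br (nat_lit 15) (nat_lit 0) (.cons (.ev (nat_lit 1365716131441113791770768171516363521) (nat_lit 3)) .nil)),
 (.br (nat_lit 12) (nat_lit 0) (.cons (.ev (nat_lit 80156617543729217237566947843) (nat_lit 2)) (.cons (.br (nat_lit 13) (nat_lit 0) (.cons (.ev (nat_lit 81447789004776956644942004880899) (nat_lit 3)) (.cons (.br (nat_lit 14) (nat_lit 0) (.cons (.rf (nat_lit 169) (nat_lit 583706118939841765935136)) (.cons (.br (nat_lit 14) (nat_lit 0) (.cons (.rf (nat_lit 169) (nat_lit 583706118939841765935136)) (.cons (.br (nat_lit 15) (nat_lit 0) (.cons (.rf (nat_lit 170) (nat_lit 677582165103132179601393696)) (.cons (.rf (nat_lit 170) (nat_lit 640105464695078675185502240)) .nil))) .nil))) .nil))) .nil))) .nil))),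
 (.br (nat_lit 16) (nat_lit 0) (.cons (.ev (nat_lit 1361150318318976997940969196654394607107) (nat_lit 3)) .nil)),
 (.br (nat_lit 14) (nat_lit 0) (.cons (.ev (nat_lit 20769505589565184066403737928992263) (nat_lit 3)) (.cons (.br (nat_lit 13) (nat_lit 0) (.cons (.br (nat_lit 15) (nat_lit 0) (.cons (.ev (nat_lit 8027291737433426050204726376010088453) (nat_lit 4)) (.cons (.br (nat_lit 16) (nat_lit 0) (.cons (.br (nat_lit 16) (nat_lit 0) .nil) .nil)) .nil))) (.cons (.ev (nat_lit 20850317072553991126910361160386055) (nat_lit 3)) (.cons (.br (nat_lit 15) (nat_lit 0) (.cons (.rf (nat_lit 172) (nat_lit 677582165103132179601393696)) (.cons (.br (nat_lit 15) (nat_lit 0) (.cons (.rf (nat_lit 172) (nat_lit 677582165103132179601393696)) .nil)) .nil))) .nil)))) .nil)))]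

theorem c5 : chkAll C T R L5 (nat_lit 146) = true := by decide +kernel

theorem l5 : (nat_lit 146) + L5.length = (nat_lit 174) := by decide +kernel

/-- part of the certificates -/
def L6 : List Prf := [(.br (nat_lit 15) (nat_lit 0) (.cons (.ev (nat_lit 1361150236871192828941223228733013362179) (nat_lit 3)) (.cons (.br (nat_lit 16) (nat_lit 0) (.cons (.ev (nat_lit 681899174575387519974329665922013462785) (nat_lit 2)) .nil)) .nil))),
 (.br (nat_lit 14) (nat_lit 0) (.cons (.rf (nat_lit 174) (nat_lit 677582165103132179601393696)) (.cons (.rf (nat_lit 174) (nat_lit 640105464695078675185502240)) .nil))),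
 (.br (nat_lit 14) (nat_lit 0) (.cons (.rf (nat_lit 175) (nat_lit 677582165103132179601393696)) (.cons (.br (nat_lit 16) (nat_lit 0) (.cons (.br (nat_lit 15) (nat_lit 0) (.cons (.ev (nat_lit 8027291737433426050204726376010088453) (nat_lit 4)) .nil)) (.cons (.ev (nat_lit 1361150236871192828941223228733013362179) (nat_lit 3)) .nil))) .nil))),
 (.br (nat_lit 11) (nat_lit 0) (.cons (.rf (nat_lit 171) (nat_lit 493858305440582043680)) (.cons (.br (nat_lit 12) (nat_lit 0) (.cons (.rf (nat_lit 171) (nat_lit 492741378437647702243)) (.cons (.ev (nat_lit 80156617543729217237566947843) (nat_lit 2)) (.cons (.br (nat_lit 13) (nat_lit 0) (.cons (.rf (nat_lit 173) (nat_lit 583706118939841765935136)) (.cons (.rf (nat_lit 173) (nat_lit 547106661770599081187555)) (.cons (.br (nat_lit 13) (nat_lit 0) (.cons (.rf (nat_lit 173) (nat_lit 583706118939841765935136)) (.cons (.rf (nat_lit 173) (nat_lit 547106661770599081187555)) (.cons (.br (nat_lit 14) (nat_lit 0) (.cons (.rf (nat_lit 175) (nat_lit 677582165103132179601393696)) (.cons (.rf (nat_lit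 176) (nat_lit 677582165103132179601393696)) (.cons (.rf (nat_lit 176) (nat_lit 640105464695078675185502240)) .nil)))) .nil)))) .nil)))) .nil)))) .nil))),
 (.br (nat_lit 14) (nat_lit 0) (.cons (.br (nat_lit 15) (nat_lit 0) (.cons (.ev (nat_lit 7985833698069843574022363355203895299) (nat_lit 3)) (.cons (.br (nat_lit 16) (nat_lit 0) (.cons (.br (nat_lit 16) (nat_lit 0) .nil) .nil)) .nil))) .nil)),
 (.br (nat_lit 15) (nat_lit 0) (.cons (.ev (nat_lit 1344805124354492908404037877930066433) (nat_lit 2)) .nil)),
 (.br (nat_lit 12) (nat_lit 0) (.cons (.kr (nat_lit 618979464375656976251617281) (nat_lit 158456325065422163338818748416) (nat_lit 0) (nat_lit 1)) (.cons (.br (nat_lit 14) (nat_lit 0) (.cons (.rf (nat_lit 178) (nat_lit 583706118939841765935136)) (.cons (.br (nat_lit 14) (nat_lit 0) (.cons (.rf (nat_lit 178) (nat_lit 583706118939841765935136)) (.cons (.br (nat_lit 15) (nat_lit 0) (.cons (.rf (nat_lit 179) (nat_lit 677582165103132179601393696)) (.cons (.rf (nat_lit 179) (nat_lit 640105464695078675185502240)) .nil))) .nil)))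 .nil))) .nil))),
 (.br (nat_lit 15) (nat_lit 0) (.cons (.ev (nat_lit 1334481298329795609892180693931459073) (nat_lit 2)) (.cons (.br (nat_lit 16) (nat_lit 0) (.cons (.kr (nat_lit 10384752178230387064195808892026881) (nat_lit 680564733842495915836002514617596248576) (nat_lit 0) (nat_lit 8)) (.cons (.ev (nat_lit 1366446379666898371938290394648805638659) (nat_lit 3)) .nil))) .nil))),
 (.br (nat_lit 12) (nat_lit 0) (.cons (.kr (nat_lit 618979464375656976251617281) (nat_lit 158456325065422163338818748416) (nat_lit 0) (nat_lit 1)) (.cons (.br (nat_lit 13) (nat_lit 0) (.cons (.ev (nat_lit 20850317072572807095221820961325575) (nat_lit 3)) (.cons (.ev (nat_lit 81447789023592922704601992659459) (nat_lit 3)) (.cons (.br (nat_lit 14) (nat_lit 0) (.cons (.br (nat_lit 15) (nat_lit 0) (.cons (.ev (nat_lit 1334481298329795609892180693931459073) (nat_lit 2)) (.cons (.br (nat_lit 16) (nat_lit 0) (.cons (.br (nat_lit 16) (nat_lit 0) .nil) .nil)) .nil))) (.cons (.br (nat_lit 15) (nat_lit 0) (.cons (.kr (nat_lit 10384752178230387064195808892026881)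 (nat_lit 680564733842495915836002514617596248576) (nat_lit 0) (nat_lit 8)) (.cons (.br (nat_lit 15) (nat_lit 0) (.cons (.kr (nat_lit 10384752178230387064195808892026881) (nat_lit 680564733842495915836002514617596248576) (nat_lit 0) (nat_lit 8)) .nil)) .nil))) (.cons (.br (nat_lit 15) (nat_lit 0) (.cons (.rf (nat_lit 181) (nat_lit 19926519232773908561233952)) (.cons (.br (nat_lit 15) (nat_lit 0) (.cons (.rf (nat_lit 181) (nat_lit 19926519232773908561233952)) .nil)) .nil))) .nil)))) .nil)))) .nil))),
 (.br (nat_lit 15) (nat_lit 0) (.cons (.ev (nat_lit 5316912301295089365167509993733490183) (nat_lit 3)) (.cons (.rf (nat_lit 47) (nat_lit 646192708113796368609)) .nil))),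
 (.br (nat_lit 14) (nat_lit 0) (.cons (.ev (nat_lit 20769505589584000034715197729931783) (nat_lit 3)) (.cons (.rf (nat_lit 49) (nat_lit 646192708113796368609)) .nil))),
 (.br (nat_lit 14) (nat_lit 0) (.cons (.ev (nat_lit 20769505589584000034715197729931783) (nat_lit 3)) (.cons (.br (nat_lit 16) (nat_lit 0) (.cons (.ev (nat_lit 1361129468001909279727050711479684957703) (nat_lit 3)) (.cons (.ev (nat_lit 2041704586119347859990919825735712637959) (nat_lit 3)) .nil))) .nil))),
 (.br (nat_lit 14) (nat_lit 0) (.cons (.rf (nat_lit 184) (nat_lit 19926519232773908561233952)) (.cons (.rf (nat_lit 185) (nat_lit 19926519232773908561233952)) (.cons (.br (nat_lit 14) (nat_lit 0) (.cons (.rf (nat_lit 49) (nat_lit 646192708113796368609)) (.cons (.rf (nat_lit 185) (nat_lit 19926519232773908561233952)) .nil))) .nil)))),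
 (.br (nat_lit 14) (nat_lit 0) (.cons (.ev (nat_lit 20769505589584000034715197729931783) (nat_lit 3)) (.cons (.br (nat_lit 15) (nat_lit 0) (.cons (.ev (nat_lit 5316912301295089365167509993733490183) (nat_lit 3)) (.cons (.ev (nat_lit 348449164496228425561583322809136589047299) (nat_lit 3)) .nil))) .nil))),
 (.br (nat_lit 11) (nat_lit 0) (.cons (.rf (nat_lit 177) (nat_lit 493858305440582043680)) (.cons (.br (nat_lit 12) (nat_lit 0) (.cons (.rf (nat_lit 180) (nat_lit 17022140995484340291616)) (.cons (.rf (nat_lit 182) (nat_lit 17022140995484340291616)) (.cons (.br (nat_lit 12) (nat_lit 0) (.cons (.rf (nat_lit 180) (nat_lit 17022140995484340291616)) (.cons (.rf (nat_lit 182) (nat_lit 17022140995484340291616)) (.cons (.br (nat_lit 13) (nat_lit 0) (.cons (.br (nat_lit 14) (nat_lit 0) (.cons (.rf (nat_lit 183) (nat_lit 19926519232773908561233952)) (.cons (.rf (nat_lit 183) (nat_lit 18755372345022236548237344)) (.cons (.br (nat_lit 15) (nat_lit 0) (.cons (.rf (nat_lit 157) (nat_lit 670367607792492428077926432)) (.cons (.br (nat_lit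 15) (nat_lit 0) (.cons (.ev (nat_lit 1344805124354492908404037877930066433) (nat_lit 2)) .nil)) .nil))) .nil)))) (.cons (.rf (nat_lit 186) (nat_lit 19926519232773908561233952)) (.cons (.rf (nat_lit 186) (nat_lit 18755372345022236548237344)) (.cons (.br (nat_lit 14) (nat_lit 0) (.cons (.rf (nat_lit 187) (nat_lit 677582165103132179601393696)) (.cons (.rf (nat_lit 187) (nat_lit 676411018215380507588397088)) (.cons (.br (nat_lit 14) (nat_lit 0) (.cons (.rf (nat_lit 187) (nat_lit 677582165103132179601393696)) (.cons (.rf (nat_lit 187) (nat_lit 676411018215380507588397088)) .nil))) .nil)))) .nil))))) .nil)))) .nil)))) .nil))),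
 (.br (nat_lit 15) (nat_lit 0) (.cons (.ev (nat_lit 5316912301295108181135821453534429703) (nat_lit 3)) (.cons (.rf (nat_lit 54) (nat_lit 646192708113796368609)) .nil))),
 (.br (nat_lit 13) (nat_lit 0) (.cons (.rf (nat_lit 189) (nat_lit 19926519232773908561233952)) (.cons (.rf (nat_lit 189) (nat_lit 18755371228095233613895907)) (.cons (.br (nat_lit 15) (nat_lit 0) (.cons (.br (nat_lit 15) (nat_lit 0) (.cons (.ev (nat_lit 5337762618362807579085995168443139587) (nat_lit 3)) .nil)) (.cons (.br (nat_lit 15) (nat_lit 0) (.cons (.ev (nat_lit 5337762618362807579085995168443139587) (nat_lit 3)) .nil)) .nil))) .nil)))),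
 (.br (nat_lit 15) (nat_lit 0) (.cons (.ev (nat_lit 5337681170578657395306086907049673219) (nat_lit 3)) (.cons (.ev (nat_lit 5316912301295108181135821453534429703) (nat_lit 3)) (.cons (.br (nat_lit 13) (nat_lit 0) (.cons (.rf (nat_lit 54) (nat_lit 646192708113796368609)) (.cons (.br (nat_lit 16) (nat_lit 0) (.cons (.ev (nat_lit 1361150236871192828941223228733013362179) (nat_lit 3)) (.cons (.ev (nat_lit 344270051146287183634700667941271306753) (nat_lit 2)) .nil))) (.cons (.ev (nat_lit 5316993112778078172228016616964883975) (nat_lit 3)) .nil)))) .nil)))),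
 (.br (nat_lit 12) (nat_lit 0) (.cons (.rf (nat_lit 188) (nat_lit 492741378437647702243)) (.cons (.kr (nat_lit 618979464375656976251617281) (nat_lit 158456325065422163338818748416) (nat_lit 0) (nat_lit 1)) (.cons (.br (nat_lit 13) (nat_lit 0) (.cons (.rf (nat_lit 190) (nat_lit 19926519232773908561233952)) (.cons (.rf (nat_lit 191) (nat_lit 19926519232773908561233952)) (.cons (.rf (nat_lit 191) (nat_lit 18755371228095233613895907)) (.cons (.br (nat_lit 13) (nat_lit 0) (.cons (.rf (nat_lit 190) (nat_lit 19926519232773908561233952)) (.cons (.rf (nat_lit 191) (nat_lit 19926519232773908561233952)) (.cons (.rf (nat_lit 191) (nat_lit 18755371228095233613895907)) .nil)))) .nil))))) .nil)))),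
 (.br (nat_lit 15) (nat_lit 0) (.cons (.ev (nat_lit 1369136030005674179920365077326469924357) (nat_lit 4)) (.cons (.ev (nat_lit 1334461095456635297516943038822351105) (nat_lit 2)) .nil))),
 (.br (nat_lit 14) (nat_lit 0) (.cons (.br (nat_lit 16) (nat_lit 0) (.cons (.ev (nat_lit 4769280717427445920429988860240918218765) (nat_lit 4)) (.cons (.ev (nat_lit 340297944049508040498874838249417933313) (nat_lit 2)) .nil))) (.cons (.ev (nat_lit 20850317072553991126910361160386055) (nat_lit 3)) (.cons (.br (nat_lit 16) (nat_lit 0) (.cons (.ev (nat_lit 340297984456492320126740062377370255361) (nat_lit 2)) (.cons (.ev (nat_lit 1050111394743491564109654159160124301903885) (nat_lit 4)) .nil))) .nil)))),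
 (.br (nat_lit 13) (nat_lit 0) (.cons (.br (nat_lit 14) (nat_lit 0) (.cons (.ev (nat_lit 20850317072553991126910361160386055) (nat_lit 3)) (.cons (.rf (nat_lit 193) (nat_lit 677582165103132179601393696)) (.cons (.rf (nat_lit 193) (nat_lit 640105464695078675185502240)) .nil)))) (.cons (.rf (nat_lit 194) (nat_lit 677582165103132179601393696)) (.cons (.rf (nat_lit 194) (nat_lit 640105464695078675185502240)) .nil)))),
 (.br (nat_lit 9) (nat_lit 0) (.cons (.ev (nat_lit 9555415120152444929031) (nat_lit 3)) (.cons (.br (nat_lit 10) (nat_lit 0) (.cons (.ev (nat_lit 4835777210677020623635971) (nat_lit 3)) (.cons (.ev (nat_lit 4854593176736680611414531) (nat_lit 3)) (.cons (.br (nat_lit 11) (nat_lit 0) (.cons (.rf (nat_lit 177) (nat_lit 493858305440582043680)) (.cons (.rf (nat_lit 188) (nat_lit 493858305440582043680)) (.cons (.br (nat_lit 11) (nat_lit 0) (.cons (.rf (nat_lit 177) (nat_lit 493858305440582043680)) (.cons (.rf (nat_lit 188) (nat_lit 493858305440582043680)) (.cons (.br (nat_lit 12) (nat_lit 0) (.cons (.rf (nat_lit 188)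 (nat_lit 492741378437647702243)) (.cons (.rf (nat_lit 192) (nat_lit 583706118939841765935136)) (.cons (.rf (nat_lit 192) (nat_lit 547107778697602015528992)) (.cons (.br (nat_lit 12) (nat_lit 0) (.cons (.rf (nat_lit 188) (nat_lit 492741378437647702243)) (.cons (.rf (nat_lit 192) (nat_lit 583706118939841765935136)) (.cons (.rf (nat_lit 192) (nat_lit 547107778697602015528992)) (.cons (.br (nat_lit 13) (nat_lit 0) (.cons (.rf (nat_lit 195) (nat_lit 677582165103132179601393696)) (.cons (.rf (nat_lit 195) (nat_lit 677545566762889939850987552)) (.cons (.rf (nat_lit 195) (nat_lit 597870978938607000282470627)) (.cons (.rf (nat_lit 195) (nat_lit 597834380598364760532064483)) .nil))))) .nil))))) .nil))))) .nil)))) .nil)))) .nil)))) .nil))),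
 (.br (nat_lit 14) (nat_lit 0) (.cons (.br (nat_lit 15) (nat_lit 0) (.cons (.ev (nat_lit 1344805124046216824402307438379991553) (nat_lit 2)) (.cons (.rf (nat_lit 63) (nat_lit 646192708113796368609)) .nil))) .nil)),
 (.br (nat_lit 15) (nat_lit 0) (.cons (.ev (nat_lit 7985793293566289209777490318487322627) (nat_lit 3)) .nil)),
 (.br (nat_lit 15) (nat_lit 0) (.cons (.ev (nat_lit 5316993114016018211514522808950457859) (nat_lit 3)) (.cons (.rf (nat_lit 66) (nat_lit 646192708113796368609)) .nil))),
 (.br (nat_lit 15) (nat_lit 0) (.cons (.ev (nat_lit 79231789291724025918916723203) (nat_lit 2)) (.cons (.ev (nat_lit 5316993114016037027480582468938236419) (nat_lit 3)) (.cons (.ev (nat_lit 5337762617124867539799488976457565703) (nat_lit 3)) .nil)))),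
 (.br (nat_lit 14) (nat_lit 0) (.cons (.ev (nat_lit 20769505584748296755130798304395779) (nat_lit 3)) (.cons (.br (nat_lit 13) (nat_lit 0) (.cons (.br (nat_lit 15) (nat_lit 0) (.cons (.ev (nat_lit 1344805124354492908404037877930066433) (nat_lit 2)) (.cons (.br (nat_lit 16) (nat_lit 0) (.cons (.br (nat_lit 16) (nat_lit 0) .nil) .nil)) .nil))) (.cons (.br (nat_lit 15) (nat_lit 0) (.cons (.ev (nat_lit 340297944049199764414873107809867858433) (nat_lit 2)) (.cons (.br (nat_lit 15) (nat_lit 0) (.cons (.ev (nat_lit 340297944049199764414873107809867858433) (nat_lit 2)) .nil)) .nil))) (.cons (.br (nat_lit 15) (nat_lit 0) (.cons (.br (nat_lit 15) (nat_lit 0) (.cons (.ev (nat_lit 5337762617124867539799488976457565703) (nat_lit 3)) .nil)) (.cons (.rf (nat_lit 200) (nat_lit 677582165103132179601393696)) .nil))) .nil)))) .nil)))]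

theorem c6 : chkAll C T R L6 (nat_lit 174) = true := by decide +kernel

theorem l6 : (nat_lit 174) + L6.length = (nat_lit 202) := by decide +kernel

/-- part of the certificates -/
def L7 : List Prf := [(.br (nat_lit 16) (nat_lit 0) (.cons (.ev (nat_lit 1344805124354492908404037877930066433) (nat_lit 2)) (.cons (.ev (nat_lit 87112301508888507947575398002910761779713) (nat_lit 2)) .nil))),
 (.br (nat_lit 13) (nat_lit 0) (.cons (.rf (nat_lit 201) (nat_lit 583706118939841765935136)) (.cons (.br (nat_lit 15) (nat_lit 0) (.cons (.br (nat_lit 14) (nat_lit 0) (.cons (.ev (nat_lit 5337762617124867539799488976457565703) (nat_lit 3)) (.cons (.rf (nat_lit 69) (nat_lit 646192708113796368609)) .nil))) (.cons (.ev (nat_lit 5316993112782913875507601050750158339) (nat_lit 3)) (.cons (.br (nat_lit 14) (nat_lit 0) (.cons (.br (nat_lit 14) (nat_lit 0) (.cons (.rf (nat_lit 202) (nat_lit 677582165103132179601393696)) .nil)) (.cons (.br (nat_lit 14) (nat_lit 0) (.cons (.rf (nat_lit 202) (nat_lit 677582165103132179601393696)) .nil)) .nil))) .nil))))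 .nil))),
 (.br (nat_lit 16) (nat_lit 0) (.cons (.ev (nat_lit 1366446379666893536235013062014833525255) (nat_lit 3)) (.cons (.ev (nat_lit 1361129548814630208573397724294901925379) (nat_lit 3)) .nil))),
 (.br (nat_lit 14) (nat_lit 0) (.cons (.rf (nat_lit 204) (nat_lit 677582165103132179601393696)) (.cons (.rf (nat_lit 204) (nat_lit 640105464695078675185502240)) .nil))),
 (.br (nat_lit 14) (nat_lit 0) (.cons (.rf (nat_lit 205) (nat_lit 677582165103132179601393696)) (.cons (.br (nat_lit 15) (nat_lit 0) (.cons (.rf (nat_lit 202) (nat_lit 640105464695078675185502240)) (.cons (.rf (nat_lit 202) (nat_lit 677582165103132179601393696)) .nil))) .nil))),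
 (.br (nat_lit 11) (nat_lit 0) (.cons (.ev (nat_lit 79231789291724025918916723203) (nat_lit 2)) (.cons (.ev (nat_lit 1242794632463242838237250055) (nat_lit 3)) (.cons (.br (nat_lit 12) (nat_lit 0) (.cons (.br (nat_lit 13) (nat_lit 0) (.cons (.kr (nat_lit 618979464375656976251617281) (nat_lit 40564819207340234336046233419776) (nat_lit 0) (nat_lit 1)) (.cons (.br (nat_lit 14) (nat_lit 0) (.cons (.rf (nat_lit 197) (nat_lit 583706118939841765935136)) (.cons (.br (nat_lit 14) (nat_lit 0) (.cons (.rf (nat_lit 197) (nat_lit 583706118939841765935136)) (.cons (.br (nat_lit 15) (nat_lit 0) (.cons (.rf (nat_lit 198) (nat_lit 677582165103132179601393696)) (.cons (.rf (nat_lit 198) (nat_lit 640105464695078675185502240)) .nil))) .nil))) .nil))) .nil))) (.cons (.br (nat_lit 13) (nat_lit 0) (.cons (.ev (nat_lit 20769504351643960748209040104096259) (nat_lit 3)) (.cons (.br (nat_lit 13) (nat_lit 0) (.cons (.ev (nat_lit 20769504351643960748209040104096259) (nat_lit 3)) (.cons (.br (nat_lit 14) (nat_lit 0) (.cons (.rf (nat_lit 199) (nat_lit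 19926519232773908561233952)) (.cons (.rf (nat_lit 199) (nat_lit 18755372345022236548237344)) (.cons (.br (nat_lit 15) (nat_lit 0) (.cons (.br (nat_lit 15) (nat_lit 0) (.cons (.ev (nat_lit 5337762617124867539799488976457565703) (nat_lit 3)) .nil)) (.cons (.br (nat_lit 15) (nat_lit 0) (.cons (.ev (nat_lit 5337762617124867539799488976457565703) (nat_lit 3)) .nil)) .nil))) .nil)))) .nil))) .nil))) (.cons (.br (nat_lit 13) (nat_lit 0) (.cons (.rf (nat_lit 201) (nat_lit 583706118939841765935136)) (.cons (.rf (nat_lit 203) (nat_lit 583706118939841765935136)) (.cons (.br (nat_lit 13) (nat_lit 0) (.cons (.rf (nat_lit 201) (nat_lit 583706118939841765935136)) (.cons (.rf (nat_lit 203) (nat_lit 583706118939841765935136)) (.cons (.br (nat_lit 14) (nat_lit 0) (.cons (.rf (nat_lit 205) (nat_lit 677582165103132179601393696)) (.cons (.rf (nat_lit 206) (nat_lit 677582165103132179601393696)) (.cons (.rf (nat_lit 206) (nat_lit 640105464695078675185502240)) .nil)))) .nil)))) .nil)))) .nil)))) .nil)))),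
 (.br (nat_lit 15) (nat_lit 0) (.cons (.ev (nat_lit 20769504351643960748209040104096259) (nat_lit 3)) (.cons (.ev (nat_lit 5337681170573802876060442813276620295) (nat_lit 3)) (.cons (.ev (nat_lit 5337762617124867539799488976457565703) (nat_lit 3)) .nil)))),
 (.br (nat_lit 14) (nat_lit 0) (.cons (.rf (nat_lit 208) (nat_lit 677582165103132179601393696)) (.cons (.rf (nat_lit 208) (nat_lit 640105428954512032373245984)) .nil))),
 (.br (nat_lit 14) (nat_lit 0) (.cons (.rf (nat_lit 208) (nat_lit 677582165103132179601393696)) (.cons (.br (nat_lit 16) (nat_lit 0) (.cons (.br (nat_lit 15) (nat_lit 0) (.cons (.ev (nat_lit 5337681171816578618624281604874569223) (nat_lit 3)) .nil)) (.cons (.ev (nat_lit 349810273194724740459238995843904360677895) (nat_lit 3)) .nil))) .nil))),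
 (.br (nat_lit 12) (nat_lit 0) (.cons (.kr (nat_lit 2427296372196097151467521) (nat_lit 158456325065422163338818748416) (nat_lit 0) (nat_lit 1)) (.cons (.kr (nat_lit 618979464375656976251617281) (nat_lit 158456325065422163338818748416) (nat_lit 0) (nat_lit 1)) (.cons (.br (nat_lit 13) (nat_lit 0) (.cons (.kr (nat_lit 2427296372196097151467521) (nat_lit 40564819207340234336046233419776) (nat_lit 0) (nat_lit 1)) (.cons (.kr (nat_lit 618979464375656976251617281) (nat_lit 40564819207340234336046233419776) (nat_lit 0) (nat_lit 1)) (.cons (.kr (nat_lit 79228162514264337593543950336) (nat_lit 20282409603651670423947251286016) (nat_lit 12) (nat_lit 0)) (.cons (.br (nat_lit 14) (nat_lit 0) (.cons (.rf (nat_lit 209) (nat_lit 677582165103132179601393696)) (.cons (.rf (nat_lit 210) (nat_lit 677582165103132179601393696)) (.cons (.rf (nat_lit 210) (nat_lit 640105428954512032373245984)) .nil)))) .nil))))) .nil)))),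
 (.br (nat_lit 13) (nat_lit 0) (.cons (.ev (nat_lit 81446551083553638450209820246535) (nat_lit 3)) (.cons (.br (nat_lit 15) (nat_lit 0) (.cons (.ev (nat_lit 1334481298640489545533703350374171139) (nat_lit 2)) (.cons (.rf (nat_lit 80) (nat_lit 646192708113796368609)) .nil))) .nil))),
 (.br (nat_lit 13) (nat_lit 0) (.cons (.ev (nat_lit 8006562797291690706065917399454318599) (nat_lit 3)) .nil)),
 (.br (nat_lit 14) (nat_lit 0) (.cons (.rf (nat_lit 212) (nat_lit 583706118939841765935136)) (.cons (.ev (nat_lit 5337681170573802876060442813276620295) (nat_lit 3)) (.cons (.br (nat_lit 15) (nat_lit 0) (.cons (.rf (nat_lit 212) (nat_lit 547107743794704903407648)) (.cons (.ev (nat_lit 5337681171816578618624281604874569223) (nat_lit 3)) (.cons (.br (nat_lit 13) (nat_lit 0) (.cons (.rf (nat_lit 213) (nat_lit 677582165103132179601393696)) (.cons (.rf (nat_lit 213) (nat_lit 640068866319933538322974752)) .nil))) .nil)))) .nil)))),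
 (.br (nat_lit 15) (nat_lit 0) (.cons (.ev (nat_lit 5337762618367643282363327768055514631) (nat_lit 3)) .nil)),
 (.br (nat_lit 13) (nat_lit 0) (.cons (.rf (nat_lit 214) (nat_lit 583670378373198953678880)) (.cons (.ev (nat_lit 81446551083553638450209820246535) (nat_lit 3)) (.cons (.br (nat_lit 15) (nat_lit 0) (.cons (.rf (nat_lit 215) (nat_lit 677582165103132179601393696)) (.cons (.rf (nat_lit 215) (nat_lit 640105428954512032373245984)) .nil))) .nil)))),
 (.br (nat_lit 13) (nat_lit 0) (.cons (.rf (nat_lit 214) (nat_lit 583670378373198953678880)) (.cons (.ev (nat_lit 81447793859296202289001418195463) (nat_lit 3)) (.cons (.br (nat_lit 14) (nat_lit 0) (.cons (.kr (nat_lit 621392593648404464467443714) (nat_lit 1334420292643450755944908846752923904) (nat_lit 0) (nat_lit 3)) (.cons (.br (nat_lit 15) (nat_lit 0) (.cons (.ev (nat_lit 1361129468001904444023773378880072582659) (nat_lit 3)) (.cons (.ev (nat_lit 5337762617124867539799488976457565703) (nat_lit 3)) .nil))) (.cons (.br (nat_lit 15) (nat_lit 0) (.cons (.ev (nat_lit 5337762617124867539799488976457565703)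 (nat_lit 3)) (.cons (.ev (nat_lit 348449143808170629836879490382940277310979) (nat_lit 3)) .nil))) .nil)))) .nil)))),
 (.br (nat_lit 13) (nat_lit 0) (.cons (.ev (nat_lit 81446551083553638450209820246535) (nat_lit 3)) (.cons (.ev (nat_lit 81447793859296202289001418195463) (nat_lit 3)) (.cons (.br (nat_lit 14) (nat_lit 0) (.cons (.br (nat_lit 15) (nat_lit 0) (.cons (.kr (nat_lit 159696682919453288023183065091) (nat_lit 2668840585286901474996329546086744576) (nat_lit 0) (nat_lit 9)) (.cons (.br (nat_lit 16) (nat_lit 0) (.cons (.ev (nat_lit 1366467149171245161305861867008298320387) (nat_lit 3)) .nil)) .nil))) (.cons (.rf (nat_lit 87) (nat_lit 646192708113796368609)) (.cons (.br (nat_lit 16) (nat_lit 0) (.cons (.br (nat_lit 15) (nat_lit 0) (.cons (.ev (nat_lit 1334460937621702881012201013223948289) (nat_lit 2)) .nil)) (.cons (.ev (nat_lit 348449143808170629836879490382940277310979) (nat_lit 3)) .nil))) .nil)))) .nil)))),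
 (.br (nat_lit 12) (nat_lit 0) (.cons (.kr (nat_lit 2427296372196097151467521) (nat_lit 158456325065422163338818748416) (nat_lit 0) (nat_lit 1)) (.cons (.rf (nat_lit 214) (nat_lit 583706118939841765935136)) (.cons (.br (nat_lit 13) (nat_lit 0) (.cons (.rf (nat_lit 216) (nat_lit 19926519232773908561233952)) (.cons (.rf (nat_lit 217) (nat_lit 19926519232773908561233952)) (.cons (.rf (nat_lit 218) (nat_lit 19926519232773908561233952)) (.cons (.br (nat_lit 13) (nat_lit 0) (.cons (.rf (nat_lit 216) (nat_lit 19926519232773908561233952)) (.cons (.rf (nat_lit 217) (nat_lit 19926519232773908561233952)) (.cons (.rf (nat_lit 218) (nat_lit 19926519232773908561233952)) .nil)))) .nil))))) .nil)))),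
 (.br (nat_lit 13) (nat_lit 0) (.cons (.rf (nat_lit 219) (nat_lit 583670378373198953678880)) (.cons (.rf (nat_lit 219) (nat_lit 547072003228062091151392)) (.cons (.ev (nat_lit 81446551083553638450209820246535) (nat_lit 3)) .nil)))),
 (.br (nat_lit 10) (nat_lit 0) (.cons (.rf (nat_lit 207) (nat_lit 493858305440582043680)) (.cons (.rf (nat_lit 207) (nat_lit 458117738797769787424)) (.cons (.br (nat_lit 11) (nat_lit 0) (.cons (.rf (nat_lit 207) (nat_lit 493823402543469922336)) (.cons (.rf (nat_lit 207) (nat_lit 458082835900657666080)) (.cons (.kr (nat_lit 1208925819614629174706176) (nat_lit 309485009821345068724781056) (nat_lit 10) (nat_lit 0)) (.cons (.br (nat_lit 12) (nat_lit 0) (.cons (.rf (nat_lit 211) (nat_lit 583706118939841765935136)) (.cons (.rf (nat_lit 219) (nat_lit 583706118939841765935136)) (.cons (.rf (nat_lit 219) (nat_lit 547107743794704903407648)) (.cons (.br (nat_lit 12) (nat_lit 0) (.cons (.rf (nat_lit 211) (nat_lit 583706118939841765935136)) (.cons (.rf (nat_lit 219) (nat_lit 583706118939841765935136)) (.cons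 (.rf (nat_lit 219) (nat_lit 547107743794704903407648)) (.cons (.br (nat_lit 13) (nat_lit 0) (.cons (.rf (nat_lit 219) (nat_lit 583670378373198953678880)) (.cons (.rf (nat_lit 219) (nat_lit 547072003228062091151392)) (.cons (.rf (nat_lit 220) (nat_lit 677582165103132179601393696)) (.cons (.rf (nat_lit 220) (nat_lit 640105464695078675185502240)) .nil))))) .nil))))) .nil))))) .nil))))) .nil)))),
 (.br (nat_lit 14) (nat_lit 0) (.cons (.br (nat_lit 15) (nat_lit 0) (.cons (.ev (nat_lit 1344804965592309647513424468184728067) (nat_lit 2)) (.cons (.rf (nat_lit 92) (nat_lit 646192708113796368609)) .nil))) .nil)),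
 (.br (nat_lit 15) (nat_lit 0) (.cons (.ev (nat_lit 7985793293566270393809178858686383107) (nat_lit 3)) .nil)),
 (.br (nat_lit 11) (nat_lit 0) (.cons (.ev (nat_lit 1242775816494931378436310535) (nat_lit 3)) (.cons (.br (nat_lit 13) (nat_lit 0) (.cons (.ev (nat_lit 365404652241109583808723161710601) (nat_lit 5)) (.cons (.br (nat_lit 14) (nat_lit 0) (.cons (.rf (nat_lit 222) (nat_lit 583706118939841765935136)) (.cons (.br (nat_lit 14) (nat_lit 0) (.cons (.rf (nat_lit 222) (nat_lit 583706118939841765935136)) (.cons (.br (nat_lit 15) (nat_lit 0) (.cons (.rf (nat_lit 223) (nat_lit 677582165103132179601393696)) (.cons (.rf (nat_lit 223) (nat_lit 640105464695078675185502240)) .nil))) .nil))) .nil))) .nil))) .nil))),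
 (.br (nat_lit 15) (nat_lit 0) (.cons (.br (nat_lit 16) (nat_lit 0) (.cons (.ev (nat_lit 87116273615985287090711223834810194788867) (nat_lit 2)) .nil)) .nil)),
 (.br (nat_lit 11) (nat_lit 0) (.cons (.ev (nat_lit 81447793840480233977541617255943) (nat_lit 3)) (.cons (.br (nat_lit 14) (nat_lit 0) (.cons (.br (nat_lit 15) (nat_lit 0) (.cons (.ev (nat_lit 5316993114016018211514522808950457859) (nat_lit 3)) (.cons (.rf (nat_lit 96) (nat_lit 646192708113796368609)) .nil))) (.cons (.br (nat_lit 15) (nat_lit 0) (.cons (.ev (nat_lit 340298004658744087827091366870989865473) (nat_lit 2)) (.cons (.br (nat_lit 15) (nat_lit 0) (.cons (.ev (nat_lit 340298004658744087827091366870989865473) (nat_lit 2)) .nil)) .nil))) (.cons (.br (nat_lit 15) (nat_lit 0) (.cons (.rf (nat_lit 225) (nat_lit 677582165103132179601393696)) (.cons (.br (nat_lit 15) (nat_lit 0) (.cons (.rf (nat_lit 225) (nat_lit 677582165103132179601393696)) .nil)) .nil))) .nil)))) .nil))),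
 (.br (nat_lit 15) (nat_lit 0) (.cons (.ev (nat_lit 5337681170573821692028754273077559815) (nat_lit 3)) (.cons (.ev (nat_lit 5337681171816578618624281604874569223) (nat_lit 3)) .nil))),
 (.br (nat_lit 14) (nat_lit 0) (.cons (.rf (nat_lit 227) (nat_lit 677582165103132179601393696)) (.cons (.rf (nat_lit 227) (nat_lit 640105464695078675185502240)) .nil)))]

theorem c7 : chkAll C T R L7 (nat_lit 202) = true := by decide +kernel

theorem l7 : (nat_lit 202) + L7.length = (nat_lit 229) := by decide +kernel

/-- part of the certificates -/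
def L8 : List Prf := [(.br (nat_lit 14) (nat_lit 0) (.cons (.rf (nat_lit 228) (nat_lit 677582165103132179601393696)) (.cons (.ev (nat_lit 20769505584729480789071138316617219) (nat_lit 3)) .nil))),
 (.br (nat_lit 12) (nat_lit 0) (.cons (.rf (nat_lit 224) (nat_lit 493858305440582043680)) (.cons (.ev (nat_lit 79231789291724025918916723203) (nat_lit 2)) (.cons (.br (nat_lit 13) (nat_lit 0) (.cons (.rf (nat_lit 224) (nat_lit 458117738797769787424)) (.cons (.ev (nat_lit 81446551083553638450209820246535) (nat_lit 3)) (.cons (.br (nat_lit 11) (nat_lit 0) (.cons (.rf (nat_lit 226) (nat_lit 583706118939841765935136)) (.cons (.rf (nat_lit 226) (nat_lit 547072038130959203272736)) (.cons (.br (nat_lit 11) (nat_lit 0) (.cons (.rf (nat_lit 226) (nat_lit 583706118939841765935136)) (.cons (.rf (nat_lit 226) (nat_lit 547072038130959203272736)) (.cons (.br (nat_lit 14) (nat_lit 0) (.cons (.rf (nat_lit 228) (nat_lit 677582165103132179601393696)) (.cons (.rf (nat_lit 229) (nat_lit 677582165103132179601393696)) (.cons (.rf (nat_lit 229) (nat_lit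 640105464695078675185502240)) .nil)))) .nil)))) .nil)))) .nil)))) .nil)))),
 (.br (nat_lit 15) (nat_lit 0) (.cons (.ev (nat_lit 20769504351625144782149380116317699) (nat_lit 3)) (.cons (.br (nat_lit 16) (nat_lit 0) (.cons (.ev (nat_lit 20850317077408510372554454933438979) (nat_lit 3)) (.cons (.ev (nat_lit 1366446379666893536235013062014833525255) (nat_lit 3)) .nil))) .nil))),
 (.br (nat_lit 13) (nat_lit 0) (.cons (.ev (nat_lit 20283338058681135303591274283523) (nat_lit 2)) (.cons (.kr (nat_lit 20282410812577490038576425992192) (nat_lit 79537647524085682662268731392) (nat_lit 10) (nat_lit 0)) (.cons (.br (nat_lit 15) (nat_lit 0) (.cons (.ev (nat_lit 20769504351625144782149380116317699) (nat_lit 3)) (.cons (.rf (nat_lit 231) (nat_lit 19926519232773908561233952)) (.cons (.br (nat_lit 15) (nat_lit 0) (.cons (.ev (nat_lit 20769504351625144782149380116317699) (nat_lit 3)) (.cons (.rf (nat_lit 231) (nat_lit 19926519232773908561233952)) .nil))) .nil)))) .nil)))),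
 (.br (nat_lit 14) (nat_lit 0) (.cons (.ev (nat_lit 5358612776364930449413765271755686917) (nat_lit 4)) (.cons (.br (nat_lit 16) (nat_lit 0) (.cons (.br (nat_lit 16) (nat_lit 0) .nil) .nil)) .nil))),
 (.br (nat_lit 14) (nat_lit 0) (.cons (.ev (nat_lit 5358612776364930449413765271755686917) (nat_lit 4)) (.cons (.br (nat_lit 16) (nat_lit 0) (.cons (.ev (nat_lit 2738209915183077526924917973957742691341) (nat_lit 4)) (.cons (.kr (nat_lit 20769188053118774889778961568497665) (nat_lit 1361129467842210178918920593065891594240) (nat_lit 0) (nat_lit 1)) .nil))) .nil))),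
 (.br (nat_lit 13) (nat_lit 0) (.cons (.ev (nat_lit 20679487352696736276533456535554) (nat_lit 3)) (.cons (.ev (nat_lit 20283338058681135303591274283523) (nat_lit 2)) (.cons (.br (nat_lit 14) (nat_lit 0) (.cons (.rf (nat_lit 233) (nat_lit 19926519232773908561233952)) (.cons (.rf (nat_lit 234) (nat_lit 19926519232773908561233952)) (.cons (.br (nat_lit 14) (nat_lit 0) (.cons (.rf (nat_lit 233) (nat_lit 19926519232773908561233952)) (.cons (.rf (nat_lit 234) (nat_lit 19926519232773908561233952)) .nil))) .nil)))) .nil)))),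
 (.br (nat_lit 14) (nat_lit 0) (.cons (.br (nat_lit 16) (nat_lit 0) (.cons (.ev (nat_lit 1361150236871187993237943644299228087815) (nat_lit 3)) (.cons (.ev (nat_lit 1361150318317739076717651001922209972743) (nat_lit 3)) .nil))) (.cons (.br (nat_lit 15) (nat_lit 0) (.cons (.br (nat_lit 16) (nat_lit 0) (.cons (.ev (nat_lit 1361150236872430787796475794550626976263) (nat_lit 3)) .nil)) (.cons (.ev (nat_lit 348454460639024126268877112642418409210375) (nat_lit 3)) .nil))) .nil))),
 (.br (nat_lit 14) (nat_lit 0) (.cons (.rf (nat_lit 236) (nat_lit 677582165103132179601393696)) (.cons (.br (nat_lit 16) (nat_lit 0) (.cons (.ev (nat_lit 1361150318317739076717651001922209972743) (nat_lit 3)) (.cons (.ev (nat_lit 1361150236871187993237943644299228087815) (nat_lit 3)) .nil))) .nil))),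
 (.br (nat_lit 11) (nat_lit 0) (.cons (.rf (nat_lit 232) (nat_lit 583706118939841765935136)) (.cons (.rf (nat_lit 235) (nat_lit 583706118939841765935136)) (.cons (.br (nat_lit 13) (nat_lit 0) (.cons (.rf (nat_lit 235) (nat_lit 548252594848779502454816)) (.cons (.rf (nat_lit 232) (nat_lit 547031760153396468783331)) (.cons (.ev (nat_lit 20283338058681135303591274283523) (nat_lit 2)) (.cons (.br (nat_lit 14) (nat_lit 0) (.cons (.rf (nat_lit 236) (nat_lit 677582165103132179601393696)) (.cons (.rf (nat_lit 237) (nat_lit 677582165103132179601393696)) (.cons (.br (nat_lit 14) (nat_lit 0) (.cons (.rf (nat_lit 236) (nat_lit 677582165103132179601393696)) (.cons (.rf (nat_lit 237) (nat_lit 677582165103132179601393696)) .nil))) .nil)))) .nil))))) .nil)))),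
 (.br (nat_lit 13) (nat_lit 0) (.cons (.ev (nat_lit 1334481298948765629535433789924246019) (nat_lit 2)) (.cons (.br (nat_lit 16) (nat_lit 0) (.cons (.br (nat_lit 16) (nat_lit 0) .nil) .nil)) .nil))),
 (.br (nat_lit 13) (nat_lit 0) (.cons (.ev (nat_lit 1334481298948765629535433789924246019) (nat_lit 2)) (.cons (.br (nat_lit 15) (nat_lit 0) (.cons (.ev (nat_lit 1361150236872430787796475794550626976263) (nat_lit 3)) (.cons (.br (nat_lit 16) (nat_lit 0) (.cons (.ev (nat_lit 681899174575695796058331396361563537665) (nat_lit 2)) .nil)) .nil))) .nil))),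
 (.br (nat_lit 14) (nat_lit 0) (.cons (.ev (nat_lit 20769505584748296755130798304395779) (nat_lit 3)) (.cons (.ev (nat_lit 20769504351625144782149380116317699) (nat_lit 3)) (.cons (.br (nat_lit 13) (nat_lit 0) (.cons (.rf (nat_lit 239) (nat_lit 19926519232773908561233952)) (.cons (.rf (nat_lit 240) (nat_lit 19926519232773908561233952)) (.cons (.br (nat_lit 13) (nat_lit 0) (.cons (.rf (nat_lit 239) (nat_lit 19926519232773908561233952)) (.cons (.rf (nat_lit 240) (nat_lit 19926519232773908561233952)) .nil))) .nil)))) .nil)))),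
 (.br (nat_lit 16) (nat_lit 0) (.cons (.ev (nat_lit 1361150318318981833644246529254006982151) (nat_lit 3)) .nil)),
 (.br (nat_lit 13) (nat_lit 0) (.cons (.ev (nat_lit 1361150318318981833644246529254006982151) (nat_lit 3)) (.cons (.br (nat_lit 16) (nat_lit 0) (.cons (.ev (nat_lit 18619576693179151568904401449935702029) (nat_lit 4)) (.cons (.ev (nat_lit 1361150318317739076717651001922209972743) (nat_lit 3)) .nil))) .nil))),
 (.br (nat_lit 13) (nat_lit 0) (.cons (.ev (nat_lit 1361150318318981833644246529254006982151) (nat_lit 3)) (.cons (.rf (nat_lit 114) (nat_lit 646192708113796368609)) .nil))),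
 (.br (nat_lit 15) (nat_lit 0) (.cons (.br (nat_lit 16) (nat_lit 0) (.cons (.ev (nat_lit 1366446461114687376641315946969612419591) (nat_lit 3)) (.cons (.rf (nat_lit 144) (nat_lit 327065587476638851307505696)) .nil))) (.cons (.ev (nat_lit 18619576693179151568904401449935702029) (nat_lit 4)) .nil))),
 (.br (nat_lit 13) (nat_lit 0) (.cons (.rf (nat_lit 245) (nat_lit 677582165103132179601393696)) (.cons (.br (nat_lit 16) (nat_lit 0) (.cons (.br (nat_lit 15) (nat_lit 0) (.cons (.ev (nat_lit 1334461095459057889897623121498931203) (nat_lit 2)) .nil)) (.cons (.ev (nat_lit 348449164496229663520438575374954202661383) (nat_lit 3)) .nil))) .nil))),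
 (.br (nat_lit 11) (nat_lit 0) (.cons (.rf (nat_lit 238) (nat_lit 583706118939841765935136)) (.cons (.rf (nat_lit 241) (nat_lit 583706118939841765935136)) (.cons (.br (nat_lit 14) (nat_lit 0) (.cons (.br (nat_lit 13) (nat_lit 0) (.cons (.rf (nat_lit 241) (nat_lit 547031760153396468783331)) (.cons (.br (nat_lit 15) (nat_lit 0) (.cons (.ev (nat_lit 1361150318317739076717651001922209972743) (nat_lit 3)) (.cons (.br (nat_lit 15) (nat_lit 0) (.cons (.ev (nat_lit 1361150318317739076717651001922209972743) (nat_lit 3)) .nil)) .nil))) (.cons (.br (nat_lit 15) (nat_lit 0) (.cons (.rf (nat_lit 242) (nat_lit 677582165103132179601393696)) (.cons (.br (nat_lit 15) (nat_lit 0) (.cons (.rf (nat_lit 242) (nat_lit 677582165103132179601393696)) .nil)) .nil))) .nil)))) (.cons (.ev (nat_lit 20769504351625144782149380116317699) (nat_lit 3)) (.cons (.br (nat_lit 13) (nat_lit 0) (.cons (.rf (nat_lit 243) (nat_lit 19926519232773908561233952)) (.cons (.rf (nat_lit 244) (nat_lit 19926519232773908561233952)) (.cons (.br (nat_lit 13) (nat_lit 0) (.cons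 (.rf (nat_lit 243) (nat_lit 19926519232773908561233952)) (.cons (.rf (nat_lit 114) (nat_lit 646192708113796368609)) .nil))) .nil)))) (.cons (.br (nat_lit 13) (nat_lit 0) (.cons (.rf (nat_lit 245) (nat_lit 677582165103132179601393696)) (.cons (.rf (nat_lit 246) (nat_lit 677582165103132179601393696)) (.cons (.br (nat_lit 13) (nat_lit 0) (.cons (.rf (nat_lit 245) (nat_lit 677582165103132179601393696)) (.cons (.rf (nat_lit 246) (nat_lit 677582165103132179601393696)) .nil))) .nil)))) .nil))))) .nil)))),
 (.br (nat_lit 13) (nat_lit 0) (.cons (.ev (nat_lit 5316993112782913875507601050750158339) (nat_lit 3)) (.cons (.br (nat_lit 14) (nat_lit 0) (.cons (.ev (nat_lit 20850318310494030413416553145959939) (nat_lit 3)) (.cons (.ev (nat_lit 1361150236871187993237943644299228087815) (nat_lit 3)) (.cons (.br (nat_lit 15) (nat_lit 0) (.cons (.ev (nat_lit 1366446379666893536235013062014833525255) (nat_lit 3)) (.cons (.ev (nat_lit 18619821034055778489569292830108289029) (nat_lit 4)) .nil))) .nil)))) (.cons (.br (nat_lit 14) (nat_lit 0) (.cons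 (.ev (nat_lit 1355189638536347187513923131268334850) (nat_lit 3)) (.cons (.br (nat_lit 15) (nat_lit 0) (.cons (.zr (nat_lit 2689610248090015907845287114992254976) (nat_lit 1361129467684994240078621939776727547907) (nat_lit 16) (nat_lit 10)) (.cons (.br (nat_lit 16) (nat_lit 0) (.cons (.ev (nat_lit 1366446379668136293161608589346630534663) (nat_lit 3)) .nil)) .nil))) (.cons (.br (nat_lit 15) (nat_lit 0) (.cons (.br (nat_lit 16) (nat_lit 0) (.cons (.ev (nat_lit 1361150236872430787796475794550626976263) (nat_lit 3)) .nil)) (.cons (.zr (nat_lit 7985752568433846781796491645794910211) (nat_lit 348449143808329081326241488845561934118912) (nat_lit 16) (nat_lit 12)) .nil))) .nil)))) .nil)))),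
 (.br (nat_lit 13) (nat_lit 0) (.cons (.rf (nat_lit 248) (nat_lit 19926519232773908561233952)) (.cons (.rf (nat_lit 247) (nat_lit 547031760153396468783331)) (.cons (.br (nat_lit 15) (nat_lit 0) (.cons (.br (nat_lit 16) (nat_lit 0) (.cons (.ev (nat_lit 2730244688096247545687572105451522624005) (nat_lit 4)) (.cons (.rf (nat_lit 200) (nat_lit 601384344700244813709056227)) .nil))) (.cons (.ev (nat_lit 1366446379666893536235013062014833525255) (nat_lit 3)) (.cons (.ev (nat_lit 5316993114016037027480582468938236419) (nat_lit 3)) .nil)))) .nil)))),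
 (.br (nat_lit 11) (nat_lit 0) (.cons (.rf (nat_lit 238) (nat_lit 583706118939841765935136)) (.cons (.rf (nat_lit 247) (nat_lit 583706118939841765935136)) (.cons (.br (nat_lit 13) (nat_lit 0) (.cons (.rf (nat_lit 248) (nat_lit 19926519232773908561233952)) (.cons (.rf (nat_lit 247) (nat_lit 547031760153396468783331)) (.cons (.rf (nat_lit 249) (nat_lit 19926519232773908561233952)) (.cons (.br (nat_lit 13) (nat_lit 0) (.cons (.rf (nat_lit 248) (nat_lit 19926519232773908561233952)) (.cons (.rf (nat_lit 247) (nat_lit 547031760153396468783331)) (.cons (.rf (nat_lit 249) (nat_lit 19926519232773908561233952)) .nil)))) .nil))))) .nil)))),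
 (.br (nat_lit 16) (nat_lit 0) (.cons (.ev (nat_lit 1366446379668136293161608589346630534663) (nat_lit 3)) (.cons (.ev (nat_lit 20850317077408510372554454933438979) (nat_lit 3)) (.cons (.rf (nat_lit 200) (nat_lit 601384344700244813709056227)) .nil)))),
 (.br (nat_lit 13) (nat_lit 0) (.cons (.rf (nat_lit 250) (nat_lit 547031760153396468783331)) (.cons (.rf (nat_lit 247) (nat_lit 547031760153396468783331)) (.cons (.br (nat_lit 16) (nat_lit 0) (.cons (.rf (nat_lit 251) (nat_lit 21173223984251494897649696)) (.cons (.rf (nat_lit 251) (nat_lit 21174328557328006762207459)) (.cons (.kr (nat_lit 340282366920938463463374607431768211456) (nat_lit 87112285931760246646623899502532662132736) (nat_lit 16) (nat_lit 0)) .nil)))) .nil)))),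
 (.br (nat_lit 10) (nat_lit 0) (.cons (.rf (nat_lit 221) (nat_lit 493858305440582043680)) (.cons (.rf (nat_lit 230) (nat_lit 493858305440582043680)) (.cons (.br (nat_lit 12) (nat_lit 0) (.cons (.rf (nat_lit 230) (nat_lit 417839761235035298019)) (.cons (.rf (nat_lit 221) (nat_lit 417839761235035298019)) (.cons (.ev (nat_lit 79231789291724025918916723203) (nat_lit 2)) (.cons (.br (nat_lit 11) (nat_lit 0) (.cons (.rf (nat_lit 238) (nat_lit 583706118939841765935136)) (.cons (.rf (nat_lit 247) (nat_lit 583706118939841765935136)) (.cons (.rf (nat_lit 250) (nat_lit 583706118939841765935136)) (.cons (.br (nat_lit 11) (nat_lit 0) (.cons (.rf (nat_lit 238) (nat_lit 583706118939841765935136)) (.cons (.rf (nat_lit 247) (nat_lit 583706118939841765935136)) (.cons (.rf (nat_lit 250) (nat_lit 583706118939841765935136)) (.cons (.br (nat_lit 13) (nat_lit 0) (.cons (.rf (nat_lit 250) (nat_lit 547031760153396468783331)) (.cons (.rf (nat_lit 247) (nat_lit 547031760153396468783331)) (.cons (.rf (nat_lit 252) (nat_lit 677582165103132179601393696))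 (.cons (.rf (nat_lit 252) (nat_lit 640105464695078675185502240)) .nil))))) .nil))))) .nil))))) .nil))))) .nil))))]

theorem c8 : chkAll C T R L8 (nat_lit 229) = true := by decide +kernel

theorem l8 : (nat_lit 229) + L8.length = (nat_lit 254) := by decide +kernel

/-- part of the certificates -/
def L9 : List Prf := [(.br (nat_lit 16) (nat_lit 0) (.cons (.ev (nat_lit 1366446379668136311977576900806431474183) (nat_lit 3)) .nil)),
 (.br (nat_lit 15) (nat_lit 0) (.cons (.br (nat_lit 13) (nat_lit 0) (.cons (.ev (nat_lit 1344865733898816320622296939052073473) (nat_lit 2)) (.cons (.rf (nat_lit 123) (nat_lit 646192708113796368609)) .nil))) (.cons (.ev (nat_lit 5316912301290253661890177394121115139) (nat_lit 3)) (.cons (.br (nat_lit 13) (nat_lit 0) (.cons (.rf (nat_lit 254) (nat_lit 677582165103132179601393696)) (.cons (.br (nat_lit 13) (nat_lit 0) (.cons (.rf (nat_lit 254) (nat_lit 677582165103132179601393696)) .nil)) .nil))) .nil)))),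
 (.br (nat_lit 15) (nat_lit 0) (.cons (.br (nat_lit 13) (nat_lit 0) (.cons (.ev (nat_lit 1366446379666893517419044750555032585735) (nat_lit 3)) (.cons (.br (nat_lit 16) (nat_lit 0) (.cons (.ev (nat_lit 342946035650542248467860595990075670785) (nat_lit 2)) .nil)) .nil))) (.cons (.ev (nat_lit 5316912300057168141849315295908594179) (nat_lit 3)) .nil))),
 (.br (nat_lit 12) (nat_lit 0) (.cons (.rf (nat_lit 221) (nat_lit 417839761235035298019)) (.cons (.rf (nat_lit 255) (nat_lit 19926519232773908561233952)) (.cons (.rf (nat_lit 255) (nat_lit 18755372310119339436116000)) (.cons (.br (nat_lit 13) (nat_lit 0) (.cons (.rf (nat_lit 256) (nat_lit 677582165103132179601393696)) (.cons (.rf (nat_lit 256) (nat_lit 676411018180477610476275744)) (.cons (.br (nat_lit 13) (nat_lit 0) (.cons (.rf (nat_lit 256) (nat_lit 677582165103132179601393696)) (.cons (.rf (nat_lit 256) (nat_lit 676411018180477610476275744)) .nil))) .nil)))) .nil))))),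
 (.br (nat_lit 13) (nat_lit 0) (.cons (.rf (nat_lit 257) (nat_lit 19926483492207265748977696)) (.cons (.rf (nat_lit 257) (nat_lit 20003181669576334749210851)) (.cons (.br (nat_lit 14) (nat_lit 0) (.cons (.ev (nat_lit 2668861424466115536342001403793049349) (nat_lit 3)) (.cons (.ev (nat_lit 2041725376144718399693710527086329005317) (nat_lit 3)) (.cons (.ev (nat_lit 522673725975155196958954069196341076165639) (nat_lit 3)) .nil)))) .nil)))),
 (.br (nat_lit 12) (nat_lit 0) (.cons (.rf (nat_lit 221) (nat_lit 417839761235035298019)) (.cons (.rf (nat_lit 257) (nat_lit 19926519232773908561233952)) (.cons (.br (nat_lit 14) (nat_lit 0) (.cons (.rf (nat_lit 257) (nat_lit 19926483492207265748977696)) (.cons (.ev (nat_lit 5316912301290253661890177394121115139) (nat_lit 3)) (.cons (.ev (nat_lit 1361129468000671339687766457121872283139) (nat_lit 3)) (.cons (.br (nat_lit 15) (nat_lit 0) (.cons (.br (nat_lit 13) (nat_lit 0) (.cons (.ev (nat_lit 81446551083553638450209820246535) (nat_lit 3)) (.cons (.rf (nat_lit 257) (nat_lit 21174328557328006762207459))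 .nil))) (.cons (.ev (nat_lit 1366446379666893517419044750555032585735) (nat_lit 3)) (.cons (.ev (nat_lit 1344805124354492908404037877930066433) (nat_lit 2)) .nil)))) .nil))))) (.cons (.br (nat_lit 13) (nat_lit 0) (.cons (.rf (nat_lit 257) (nat_lit 19926483492207265748977696)) (.cons (.br (nat_lit 13) (nat_lit 0) (.cons (.rf (nat_lit 123) (nat_lit 646192674028935907553)) (.cons (.rf (nat_lit 257) (nat_lit 20003181669576334749210851)) (.cons (.ev (nat_lit 81446551083553638450209820246535) (nat_lit 3)) .nil)))) (.cons (.rf (nat_lit 258) (nat_lit 677582165103132179601393696)) (.cons (.br (nat_lit 13) (nat_lit 0) (.cons (.rf (nat_lit 257) (nat_lit 19926483492207265748977696)) (.cons (.ev (nat_lit 81446551083553638450209820246535) (nat_lit 3)) (.cons (.rf (nat_lit 258) (nat_lit 677582165103132179601393696)) .nil)))) .nil))))) .nil))))),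
 (.br (nat_lit 11) (nat_lit 0) (.cons (.rf (nat_lit 253) (nat_lit 493823402543469922336)) (.cons (.rf (nat_lit 253) (nat_lit 458082835900657666080)) (.cons (.ev (nat_lit 1242775816494931378436310535) (nat_lit 3)) (.cons (.br (nat_lit 12) (nat_lit 0) (.cons (.rf (nat_lit 221) (nat_lit 417839761235035298019)) (.cons (.rf (nat_lit 257) (nat_lit 19926519232773908561233952)) (.cons (.rf (nat_lit 259) (nat_lit 19926519232773908561233952)) (.cons (.rf (nat_lit 259) (nat_lit 18755372310119339436116000)) (.cons (.br (nat_lit 12) (nat_lit 0) (.cons (.rf (nat_lit 221) (nat_lit 417839761235035298019)) (.cons (.rf (nat_lit 257) (nat_lit 19926519232773908561233952)) (.cons (.rf (nat_lit 259) (nat_lit 19926519232773908561233952)) (.cons (.rf (nat_lit 259) (nat_lit 18755372310119339436116000)) .nil))))) .nil)))))) .nil))))),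
 (.br (nat_lit 13) (nat_lit 0) (.cons (.rf (nat_lit 260) (nat_lit 583630100395636219189475)) (.cons (.rf (nat_lit 260) (nat_lit 547031760153396468783331)) (.cons (.ev (nat_lit 40725139724317097586964146814979) (nat_lit 3)) .nil)))),
 (.br (nat_lit 14) (nat_lit 0) (.cons (.rf (nat_lit 260) (nat_lit 621409032258593380899043)) (.cons (.br (nat_lit 16) (nat_lit 0) (.cons (.rf (nat_lit 260) (nat_lit 548212351774113880086755)) (.cons (.ev (nat_lit 1361129468000671339687766457121872283139) (nat_lit 3)) (.cons (.kr (nat_lit 340282366920939672389194222060942917632) (nat_lit 5192297168019837449875565054001152) (nat_lit 10) (nat_lit 0)) .nil)))) (.cons (.ev (nat_lit 1361150236871187993237943644299228087815) (nat_lit 3)) (.cons (.ev (nat_lit 20769505584729480789071138316617219) (nat_lit 3)) .nil))))),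
 (.br (nat_lit 12) (nat_lit 0) (.cons (.rf (nat_lit 221) (nat_lit 417839761235035298019)) (.cons (.br (nat_lit 13) (nat_lit 0) (.cons (.rf (nat_lit 260) (nat_lit 583630100395636219189475)) (.cons (.rf (nat_lit 260) (nat_lit 547031760153396468783331)) (.cons (.rf (nat_lit 261) (nat_lit 677582165103132179601393696)) (.cons (.rf (nat_lit 261) (nat_lit 640105464695078675185502240)) .nil))))) (.cons (.rf (nat_lit 262) (nat_lit 677582165103132179601393696)) (.cons (.rf (nat_lit 262) (nat_lit 640105464695078675185502240)) .nil))))),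
 (.br (nat_lit 2) (nat_lit 0) (.cons (.ev (nat_lit 1689970897191943) (nat_lit 3)) (.cons (.br (nat_lit 6) (nat_lit 0) (.cons (.ev (nat_lit 281479305429505) (nat_lit 2)) (.cons (.br (nat_lit 8) (nat_lit 0) (.cons (.rf (nat_lit 168) (nat_lit 325702574508064)) (.cons (.br (nat_lit 8) (nat_lit 0) (.cons (.rf (nat_lit 168) (nat_lit 325702574508064)) (.cons (.br (nat_lit 9) (nat_lit 0) (.cons (.rf (nat_lit 196) (nat_lit 407901468851537952)) (.cons (.rf (nat_lit 196) (nat_lit 372998571739416608)) (.cons (.br (nat_lit 9) (nat_lit 0) (.cons (.rf (nat_lit 196) (nat_lit 407901468851537952)) (.cons (.rf (nat_lit 196) (nat_lit 372998571739416608)) (.cons (.br (nat_lit 10) (nat_lit 0) (.cons (.rf (nat_lit 221) (nat_lit 493858305440582043680)) (.cons (.rf (nat_lit 253) (nat_lit 493858305440582043680)) (.cons (.rf (nat_lit 253) (nat_lit 458117738797769787424)) (.cons (.br (nat_lit 10) (nat_lit 0) (.cons (.rf (nat_lit 221) (nat_lit 493858305440582043680)) (.cons (.rf (nat_lit 253) (nat_lit 493858305440582043680)) (.cons (.rf (nat_lit 253)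 (nat_lit 458117738797769787424)) (.cons (.br (nat_lit 11) (nat_lit 0) (.cons (.rf (nat_lit 253) (nat_lit 493823402543469922336)) (.cons (.rf (nat_lit 253) (nat_lit 458082835900657666080)) (.cons (.rf (nat_lit 260) (nat_lit 583706118939841765935136)) (.cons (.rf (nat_lit 260) (nat_lit 547107778697602015528992)) (.cons (.br (nat_lit 11) (nat_lit 0) (.cons (.rf (nat_lit 253) (nat_lit 493823402543469922336)) (.cons (.rf (nat_lit 253) (nat_lit 458082835900657666080)) (.cons (.rf (nat_lit 260) (nat_lit 583706118939841765935136)) (.cons (.rf (nat_lit 260) (nat_lit 547107778697602015528992)) (.cons (.br (nat_lit 12) (nat_lit 0) (.cons (.rf (nat_lit 221) (nat_lit 417839761235035298019)) (.cons (.rf (nat_lit 263) (nat_lit 677582165103132179601393696)) (.cons (.rf (nat_lit 263) (nat_lit 677545566762889939850987552)) (.cons (.rf (nat_lit 263) (nat_lit 597870980020631106104690720)) (.cons (.rf (nat_lit 263) (nat_lit 597834381680388866354284576)) .nil)))))) .nil)))))) .nil)))))) .nil))))) .nil))))) .nil)))) .nil)))) .nil))) .nil))) .nil)))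 .nil))),
 (.br (nat_lit 14) (nat_lit 0) (.cons (.br (nat_lit 15) (nat_lit 0) (.cons (.ev (nat_lit 2668840585908289272346595612875162113) (nat_lit 2)) (.cons (.br (nat_lit 16) (nat_lit 0) (.cons (.br (nat_lit 16) (nat_lit 0) .nil) .nil)) .nil))) .nil)),
 (.br (nat_lit 15) (nat_lit 0) (.cons (.ev (nat_lit 1344865813747171966111871012450664705) (nat_lit 2)) .nil)),
 (.br (nat_lit 12) (nat_lit 0) (.cons (.br (nat_lit 13) (nat_lit 0) (.cons (.ev (nat_lit 40723275541813495978072123507203) (nat_lit 2)) (.cons (.br (nat_lit 14) (nat_lit 0) (.cons (.rf (nat_lit 265) (nat_lit 583706118939841765935136)) (.cons (.br (nat_lit 14) (nat_lit 0) (.cons (.rf (nat_lit 265) (nat_lit 583706118939841765935136)) (.cons (.br (nat_lit 15) (nat_lit 0) (.cons (.rf (nat_lit 266) (nat_lit 677582165103132179601393696)) (.cons (.rf (nat_lit 266) (nat_lit 640105464695078675185502240)) .nil))) .nil))) .nil))) .nil))) .nil)),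
 (.br (nat_lit 15) (nat_lit 0) (.cons (.br (nat_lit 16) (nat_lit 0) (.cons (.ev (nat_lit 88137125929169845172174251161290029465858) (nat_lit 2)) .nil)) .nil)),
 (.br (nat_lit 13) (nat_lit 0) (.cons (.kr (nat_lit 20282410817299928579040109134080) (nat_lit 79537647542532708210955059200) (nat_lit 1) (nat_lit 0)) (.cons (.br (nat_lit 14) (nat_lit 0) (.cons (.ev (nat_lit 10385707244153919104832320484019201) (nat_lit 4)) (.cons (.ev (nat_lit 10668547468455258782785288692042241) (nat_lit 4)) (.cons (.br (nat_lit 15) (nat_lit 0) (.cons (.rf (nat_lit 268) (nat_lit 677582165103132179601393696)) (.cons (.br (nat_lit 15) (nat_lit 0) (.cons (.rf (nat_lit 268) (nat_lit 677582165103132179601393696)) .nil)) .nil))) .nil)))) .nil))),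
 (.br (nat_lit 14) (nat_lit 0) (.cons (.kr (nat_lit 20282409603651670423947251286016) (nat_lit 5192296858534827628530496329220096) (nat_lit 13) (nat_lit 0)) (.cons (.ev (nat_lit 5212658497509937829651839520342273) (nat_lit 1)) .nil))),
 (.br (nat_lit 13) (nat_lit 0) (.cons (.rf (nat_lit 270) (nat_lit 19926519232773908561233952)) (.cons (.rf (nat_lit 270) (nat_lit 18755372345022236548237344)) .nil))),
 (.br (nat_lit 13) (nat_lit 0) (.cons (.rf (nat_lit 271) (nat_lit 19926519232773908561233952)) (.cons (.br (nat_lit 15) (nat_lit 0) (.cons (.br (nat_lit 14) (nat_lit 0) (.cons (.ev (nat_lit 5212579577628211558841075516834048) (nat_lit 1)) .nil)) (.cons (.kr (nat_lit 1329227995784915872903807060280344576) (nat_lit 340282366920938463463374607431768211456) (nat_lit 15) (nat_lit 0)) .nil))) .nil))),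
 (.br (nat_lit 10) (nat_lit 0) (.cons (.br (nat_lit 11) (nat_lit 0) (.cons (.ev (nat_lit 621387871281920499656032769) (nat_lit 2)) (.cons (.br (nat_lit 12) (nat_lit 0) (.cons (.rf (nat_lit 267) (nat_lit 493858305440582043680)) (.cons (.br (nat_lit 12) (nat_lit 0) (.cons (.rf (nat_lit 267) (nat_lit 493858305440582043680)) (.cons (.br (nat_lit 13) (nat_lit 0) (.cons (.rf (nat_lit 269) (nat_lit 583706118939841765935136)) (.cons (.rf (nat_lit 269) (nat_lit 547107778697602015528992)) (.cons (.br (nat_lit 13) (nat_lit 0) (.cons (.rf (nat_lit 269) (nat_lit 583706118939841765935136)) (.cons (.rf (nat_lit 269) (nat_lit 547107778697602015528992)) (.cons (.br (nat_lit 14) (nat_lit 0) (.cons (.rf (nat_lit 271) (nat_lit 21174442659472880611461152)) (.cons (.rf (nat_lit 272) (nat_lit 21174442659472880611461152)) (.cons (.rf (nat_lit 272) (nat_lit 20003295771721208598464544)) .nil)))) .nil)))) .nil)))) .nil))) .nil))) .nil))) .nil)),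
 (.br (nat_lit 14) (nat_lit 0) (.cons (.ev (nat_lit 1344865813128201983362665719607132416) (nat_lit 2)) (.cons (.br (nat_lit 15) (nat_lit 0) (.cons (.ev (nat_lit 1334440575054263296541177800783101953) (nat_lit 1)) (.cons (.br (nat_lit 16) (nat_lit 0) (.cons (.br (nat_lit 16) (nat_lit 0) .nil) .nil)) .nil))) .nil))),
 (.br (nat_lit 15) (nat_lit 0) (.cons (.ev (nat_lit 1344865971895206724875605878889382403) (nat_lit 2)) .nil)),
 (.br (nat_lit 13) (nat_lit 0) (.cons (.rf (nat_lit 274) (nat_lit 583706118939841765935136)) (.cons (.br (nat_lit 14) (nat_lit 0) (.cons (.rf (nat_lit 274) (nat_lit 582562385870256482649152)) (.cons (.ev (nat_lit 10425158536286440224363877694046723) (nat_lit 2)) (.cons (.br (nat_lit 15) (nat_lit 0) (.cons (.rf (nat_lit 275) (nat_lit 677582165103132179601393696)) (.cons (.rf (nat_lit 275) (nat_lit 640104320962009089902216256)) .nil))) .nil)))) .nil))),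
 (.br (nat_lit 14) (nat_lit 0) (.cons (.ev (nat_lit 10425159157664829879829386817044993) (nat_lit 2)) (.cons (.br (nat_lit 15) (nat_lit 0) (.cons (.ev (nat_lit 683223433226694811557325422155851760641) (nat_lit 4)) (.cons (.ev (nat_lit 1334440575362544084390589446525878528) (nat_lit 1)) .nil))) .nil))),
 (.br (nat_lit 13) (nat_lit 0) (.cons (.rf (nat_lit 274) (nat_lit 583706118939841765935136)) (.cons (.br (nat_lit 14) (nat_lit 0) (.cons (.ev (nat_lit 2658456150647544645618209807304622593) (nat_lit 2)) (.cons (.rf (nat_lit 277) (nat_lit 19926519232773908561233952)) (.cons (.br (nat_lit 14) (nat_lit 0) (.cons (.ev (nat_lit 2658456150647544645618209807304622593) (nat_lit 2)) (.cons (.rf (nat_lit 277) (nat_lit 19926519232773908561233952)) .nil))) .nil)))) .nil))),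
 (.br (nat_lit 14) (nat_lit 0) (.cons (.rf (nat_lit 278) (nat_lit 582562385870256482649152)) (.cons (.ev (nat_lit 10425159157664829879829386817044993) (nat_lit 2)) .nil)))]

theorem c9 : chkAll C T R L9 (nat_lit 254) = true := by decide +kernel

theorem l9 : (nat_lit 254) + L9.length = (nat_lit 280) := by decide +kernel

/-- part of the certificates -/
def L10 : List Prf := [(.br (nat_lit 11) (nat_lit 0) (.cons (.ev (nat_lit 313116565203922366480056577) (nat_lit 2)) (.cons (.br (nat_lit 12) (nat_lit 0) (.cons (.ev (nat_lit 79229371458603035369737814016) (nat_lit 1)) (.cons (.ev (nat_lit 79537652246452166631442415873) (nat_lit 1)) (.cons (.br (nat_lit 13) (nat_lit 0) (.cons (.rf (nat_lit 276) (nat_lit 583706118939841765935136)) (.cons (.rf (nat_lit 278) (nat_lit 583706118939841765935136)) (.cons (.br (nat_lit 13) (nat_lit 0) (.cons (.rf (nat_lit 276) (nat_lit 583706118939841765935136)) (.cons (.rf (nat_lit 278) (nat_lit 583706118939841765935136)) (.cons (.br (nat_lit 14) (nat_lit 0) (.cons (.rf (nat_lit 278) (nat_lit 582562385870256482649152))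 (.cons (.rf (nat_lit 279) (nat_lit 677582165103132179601393696)) (.cons (.rf (nat_lit 279) (nat_lit 640105464695078675185502240)) .nil)))) .nil)))) .nil)))) .nil)))) .nil))),
 (.br (nat_lit 15) (nat_lit 0) (.cons (.ev (nat_lit 1329248357423890983104928403471466753) (nat_lit 1)) .nil)),
 (.br (nat_lit 13) (nat_lit 0) (.cons (.ev (nat_lit 10384752173404165412191170279375363) (nat_lit 2)) (.cons (.kr (nat_lit 623805722921149757971759105) (nat_lit 40723275532368763574178963128320) (nat_lit 0) (nat_lit 1)) (.cons (.br (nat_lit 14) (nat_lit 0) (.cons (.br (nat_lit 15) (nat_lit 0) (.cons (.ev (nat_lit 2658496557010426920430382514719293953) (nat_lit 2)) (.cons (.br (nat_lit 16) (nat_lit 0) (.cons (.br (nat_lit 16) (nat_lit 0) .nil) .nil)) .nil))) (.cons (.br (nat_lit 15) (nat_lit 0) (.cons (.ev (nat_lit 340287559297334650537455303464306409728) (nat_lit 1)) (.cons (.br (nat_lit 15) (nat_lit 0) (.cons (.ev (nat_lit 340287559297334650537455304559539847425) (nat_lit 1)) .nil)) .nil))) (.cons (.br (nat_lit 15) (nat_lit 0) (.cons (.rf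 (nat_lit 281) (nat_lit 21174442659472880611461152)) (.cons (.br (nat_lit 15) (nat_lit 0) (.cons (.rf (nat_lit 281) (nat_lit 21174442659472880611461152)) .nil)) .nil))) .nil)))) .nil)))),
 (.br (nat_lit 14) (nat_lit 0) (.cons (.kr (nat_lit 10384593717069655329118586696368384) (nat_lit 618970019642690141761306624) (nat_lit 1) (nat_lit 0)) (.cons (.ev (nat_lit 10384594336039674899752233965060609) (nat_lit 2)) (.cons (.ev (nat_lit 10384752794782555067656679402373633) (nat_lit 2)) (.cons (.ev (nat_lit 10425159157664829879829386817044993) (nat_lit 2)) .nil))))),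
 (.br (nat_lit 14) (nat_lit 0) (.cons (.ev (nat_lit 10384752794782555067656679402373633) (nat_lit 2)) (.cons (.br (nat_lit 16) (nat_lit 0) (.cons (.br (nat_lit 15) (nat_lit 0) (.cons (.ev (nat_lit 8006603203030738923470939758637745157) (nat_lit 3)) .nil)) (.cons (.ev (nat_lit 174905198904924689572586809087471309292041) (nat_lit 4)) .nil))) .nil))),
 (.br (nat_lit 12) (nat_lit 0) (.cons (.rf (nat_lit 282) (nat_lit 583706118939841765935136)) (.cons (.rf (nat_lit 282) (nat_lit 547107778697602015528992)) (.cons (.br (nat_lit 13) (nat_lit 0) (.cons (.rf (nat_lit 282) (nat_lit 583670378373198953678880)) (.cons (.rf (nat_lit 282) (nat_lit 547072038130959203272736)) (.cons (.kr (nat_lit 79228162514264337593543950336) (nat_lit 20282409603651670423947251286016) (nat_lit 12) (nat_lit 0)) (.cons (.br (nat_lit 14) (nat_lit 0) (.cons (.rf (nat_lit 283) (nat_lit 677582165103132179601393696)) (.cons (.rf (nat_lit 284) (nat_lit 677582165103132179601393696)) (.cons (.rf (nat_lit 284) (nat_lit 640105428954512032373245984)) .nil)))) .nil)))))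 .nil)))),
 (.br (nat_lit 13) (nat_lit 0) (.cons (.ev (nat_lit 40724520754334202580936146814469) (nat_lit 3)) (.cons (.br (nat_lit 15) (nat_lit 0) (.cons (.ev (nat_lit 2658496557010426920430382514719293953) (nat_lit 2)) (.cons (.br (nat_lit 16) (nat_lit 0) (.cons (.br (nat_lit 16) (nat_lit 0) .nil) .nil)) .nil))) .nil))),
 (.br (nat_lit 13) (nat_lit 0) (.cons (.ev (nat_lit 10425159157664829879829386817044993) (nat_lit 2)) (.cons (.br (nat_lit 15) (nat_lit 0) (.cons (.ev (nat_lit 1369135989441476322819045943970393097221) (nat_lit 3)) (.cons (.ev (nat_lit 13344324780598549503069641222895699465) (nat_lit 4)) .nil))) .nil))),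
 (.br (nat_lit 14) (nat_lit 0) (.cons (.rf (nat_lit 286) (nat_lit 583706118939841765935136)) (.cons (.ev (nat_lit 10384752173404165412191170279375363) (nat_lit 2)) (.cons (.br (nat_lit 13) (nat_lit 0) (.cons (.rf (nat_lit 286) (nat_lit 547107778697602015528992)) (.cons (.rf (nat_lit 287) (nat_lit 19926519232773908561233952)) (.cons (.br (nat_lit 13) (nat_lit 0) (.cons (.rf (nat_lit 286) (nat_lit 547107778697602015528992)) (.cons (.rf (nat_lit 287) (nat_lit 19926519232773908561233952)) .nil))) .nil)))) .nil)))),
 (.br (nat_lit 13) (nat_lit 0) (.cons (.br (nat_lit 15) (nat_lit 0) (.cons (.ev (nat_lit 2658456150647544645618209807304622593) (nat_lit 2)) (.cons (.kr (nat_lit 1329228075013078387168144653824294912) (nat_lit 5212579268138479298954443580506112) (nat_lit 12) (nat_lit 0)) .nil))) (.cons (.ev (nat_lit 10425159157664829879829386817044993) (nat_lit 2)) .nil))),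
 (.br (nat_lit 13) (nat_lit 0) (.cons (.rf (nat_lit 289) (nat_lit 677582165103132179601393696)) (.cons (.br (nat_lit 16) (nat_lit 0) (.cons (.ev (nat_lit 340287579500516091674861390913247183105) (nat_lit 1)) (.cons (.ev (nat_lit 340287559297026369749606174393068683265) (nat_lit 1)) .nil))) .nil))),
 (.br (nat_lit 12) (nat_lit 0) (.cons (.rf (nat_lit 285) (nat_lit 583706118939841765935136)) (.cons (.rf (nat_lit 288) (nat_lit 583706118939841765935136)) (.cons (.br (nat_lit 14) (nat_lit 0) (.cons (.rf (nat_lit 288) (nat_lit 505863129854781380723776)) (.cons (.rf (nat_lit 285) (nat_lit 505863129854781380723776)) (.cons (.ev (nat_lit 10384752173404165412191170279375363) (nat_lit 2)) (.cons (.br (nat_lit 13) (nat_lit 0) (.cons (.rf (nat_lit 289) (nat_lit 677582165103132179601393696)) (.cons (.rf (nat_lit 290) (nat_lit 677582165103132179601393696)) (.cons (.br (nat_lit 13) (nat_lit 0) (.cons (.ev (nat_lit 10425159157664829879829386817044993) (nat_lit 2)) (.cons (.rf (nat_lit 290) (nat_lit 677582165103132179601393696)) .nil))) .nil))))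 .nil))))) .nil)))),
 (.br (nat_lit 14) (nat_lit 0) (.cons (.rf (nat_lit 285) (nat_lit 505863129854781380723776)) (.cons (.ev (nat_lit 349810273316894569464641510676668090417669) (nat_lit 3)) .nil))),
 (.br (nat_lit 13) (nat_lit 0) (.cons (.rf (nat_lit 291) (nat_lit 583670378373198953678880)) (.cons (.rf (nat_lit 291) (nat_lit 547072038130959203272736)) (.cons (.br (nat_lit 14) (nat_lit 0) (.cons (.rf (nat_lit 285) (nat_lit 505863129854781380723776)) (.cons (.rf (nat_lit 292) (nat_lit 677582165103132179601393696)) (.cons (.rf (nat_lit 292) (nat_lit 640105464695078675185502240)) .nil)))) .nil)))),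
 (.br (nat_lit 14) (nat_lit 0) (.cons (.br (nat_lit 15) (nat_lit 0) (.cons (.kr (nat_lit 10384593719487506896291354831224833) (nat_lit 2658455991569841190684695047926972928) (nat_lit 0) (nat_lit 2)) (.cons (.br (nat_lit 16) (nat_lit 0) (.cons (.br (nat_lit 16) (nat_lit 0) .nil) .nil)) .nil))) .nil)),
 (.br (nat_lit 15) (nat_lit 0) (.cons (.ev (nat_lit 1344865813130619835001053851544584448) (nat_lit 2)) .nil)),
 (.br (nat_lit 13) (nat_lit 0) (.cons (.ev (nat_lit 41042052364966314056773875859458) (nat_lit 3)) (.cons (.br (nat_lit 14) (nat_lit 0) (.cons (.ev (nat_lit 10384752794791999945021276440166400) (nat_lit 2)) (.cons (.ev (nat_lit 5212579268143201737494907280490496) (nat_lit 1)) (.cons (.br (nat_lit 15) (nat_lit 0) (.cons (.br (nat_lit 15) (nat_lit 0) (.cons (.ev (nat_lit 1334440654281221588833581971345047808) (nat_lit 1)) .nil)) (.cons (.br (nat_lit 15) (nat_lit 0) (.cons (.ev (nat_lit 1334440654281221588833581971345047808) (nat_lit 1)) .nil)) .nil))) .nil)))) .nil))),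
 (.br (nat_lit 14) (nat_lit 0) (.cons (.ev (nat_lit 1334440654281221588833864545850097920) (nat_lit 1)) (.cons (.br (nat_lit 16) (nat_lit 0) (.cons (.ev (nat_lit 683223189834065728692343915797484339201) (nat_lit 2)) (.cons (.kr (nat_lit 10384593719487506896291354831224833) (nat_lit 680564733841876936371626295790902706688) (nat_lit 0) (nat_lit 2)) .nil))) .nil))),
 (.br (nat_lit 13) (nat_lit 0) (.cons (.ev (nat_lit 41042052364966314056773875859458) (nat_lit 3)) (.cons (.br (nat_lit 14) (nat_lit 0) (.cons (.ev (nat_lit 1329228075323772341255848429745144065) (nat_lit 1)) (.cons (.rf (nat_lit 297) (nat_lit 19926519232773908561233952)) (.cons (.br (nat_lit 14) (nat_lit 0) (.cons (.ev (nat_lit 1329228075323772341255848429745144065) (nat_lit 1)) (.cons (.rf (nat_lit 297) (nat_lit 19926519232773908561233952)) .nil))) .nil)))) .nil))),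
 (.br (nat_lit 15) (nat_lit 0) (.cons (.ev (nat_lit 2658455992188811247076759248543285763) (nat_lit 2)) (.cons (.kr (nat_lit 2658455991572249597446843383205068801) (nat_lit 680564733841876926963642984485932302336) (nat_lit 0) (nat_lit 1)) (.cons (.ev (nat_lit 2668881150108536037815602828751863811) (nat_lit 2)) .nil)))),
 (.br (nat_lit 14) (nat_lit 0) (.cons (.rf (nat_lit 299) (nat_lit 677582165103132179601393696)) (.cons (.rf (nat_lit 299) (nat_lit 640105464695078675185502240)) .nil))),
 (.br (nat_lit 14) (nat_lit 0) (.cons (.rf (nat_lit 299) (nat_lit 677582165103132179601393696)) (.cons (.br (nat_lit 16) (nat_lit 0) (.cons (.br (nat_lit 15) (nat_lit 0) (.cons (.ev (nat_lit 2658496714847781929460482760989868033) (nat_lit 2)) .nil)) (.cons (.kr (nat_lit 340282366920938463463374607431768211456) (nat_lit 87112285931760246646623899502532662132736) (nat_lit 16) (nat_lit 0)) .nil))) .nil))),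
 (.br (nat_lit 11) (nat_lit 0) (.cons (.ev (nat_lit 310693954159761365647032321) (nat_lit 1)) (.cons (.br (nat_lit 12) (nat_lit 0) (.cons (.br (nat_lit 13) (nat_lit 0) (.cons (.ev (nat_lit 41042045111374502594999927177223) (nat_lit 3)) (.cons (.br (nat_lit 14) (nat_lit 0) (.cons (.rf (nat_lit 294) (nat_lit 583706118939841765935136)) (.cons (.br (nat_lit 14) (nat_lit 0) (.cons (.rf (nat_lit 294) (nat_lit 583706118939841765935136)) (.cons (.br (nat_lit 15) (nat_lit 0) (.cons (.rf (nat_lit 295) (nat_lit 677582165103132179601393696)) (.cons (.rf (nat_lit 295) (nat_lit 640105464695078675185502240)) .nil))) .nil))) .nil))) .nil))) (.cons (.ev (nat_lit 159075295048171646803842892289) (nat_lit 2)) (.cons (.br (nat_lit 13) (nat_lit 0) (.cons (.rf (nat_lit 296) (nat_lit 583706118939841765935136)) (.cons (.rf (nat_lit 298) (nat_lit 583706118939841765935136)) (.cons (.br (nat_lit 13) (nat_lit 0) (.cons (.rf (nat_lit 296) (nat_lit 583706118939841765935136)) (.cons (.rf (nat_lit 298) (nat_lit 583706118939841765935136)) (.cons (.br (nat_lit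 14) (nat_lit 0) (.cons (.rf (nat_lit 300) (nat_lit 677582165103132179601393696)) (.cons (.rf (nat_lit 301) (nat_lit 677582165103132179601393696)) (.cons (.rf (nat_lit 301) (nat_lit 640105464695078675185502240)) .nil)))) .nil)))) .nil)))) .nil)))) .nil))),
 (.br (nat_lit 12) (nat_lit 0) (.cons (.ev (nat_lit 159075304529941935511769841667) (nat_lit 2)) (.cons (.br (nat_lit 13) (nat_lit 0) (.cons (.ev (nat_lit 10384594336049156526206120641036803) (nat_lit 2)) (.cons (.br (nat_lit 14) (nat_lit 0) (.cons (.kr (nat_lit 1334420292644664348790492649467412736) (nat_lit 20361947251194203132158206345216) (nat_lit 1) (nat_lit 0)) (.cons (.br (nat_lit 15) (nat_lit 0) (.cons (.ev (nat_lit 15971627944837854848983720684922863631) (nat_lit 4)) (.cons (.br (nat_lit 16) (nat_lit 0) (.cons (.br (nat_lit 16) (nat_lit 0) .nil) .nil)) .nil))) .nil))) (.cons (.br (nat_lit 14) (nat_lit 0) (.cons (.br (nat_lit 15) (nat_lit 0) (.cons (.ev (nat_lit 2658496714847781929460482760989868033) (nat_lit 2)) (.cons (.br (nat_lit 16) (nat_lit 0) (.cons (.br (nat_lit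 16) (nat_lit 0) .nil) .nil)) .nil))) (.cons (.br (nat_lit 15) (nat_lit 0) (.cons (.ev (nat_lit 680575118594669291630177922660037755393) (nat_lit 2)) (.cons (.br (nat_lit 15) (nat_lit 0) (.cons (.ev (nat_lit 680575118594669291630177922660037755393) (nat_lit 2)) .nil)) .nil))) (.cons (.br (nat_lit 15) (nat_lit 0) (.cons (.br (nat_lit 15) (nat_lit 0) (.cons (.ev (nat_lit 2668881308564861066200162819140420099) (nat_lit 2)) .nil)) (.cons (.br (nat_lit 15) (nat_lit 0) (.cons (.ev (nat_lit 2668881308564861066200162819140420099) (nat_lit 2)) .nil)) .nil))) .nil)))) .nil)))) .nil))),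
 (.br (nat_lit 15) (nat_lit 0) (.cons (.ev (nat_lit 2658456150647554090495574404342415360) (nat_lit 2)) (.cons (.br (nat_lit 16) (nat_lit 0) (.cons (.br (nat_lit 16) (nat_lit 0) .nil) .nil)) .nil))),
 (.br (nat_lit 13) (nat_lit 0) (.cons (.ev (nat_lit 20282720302309749924113128947968) (nat_lit 1)) (.cons (.br (nat_lit 15) (nat_lit 0) (.cons (.br (nat_lit 15) (nat_lit 0) .nil) .nil)) .nil))),
 (.br (nat_lit 14) (nat_lit 0) (.cons (.ev (nat_lit 5192376397391295980572960993902848) (nat_lit 1)) (.cons (.br (nat_lit 15) (nat_lit 0) (.cons (.ev (nat_lit 683223189834065728692343915797484339201) (nat_lit 2)) (.cons (.ev (nat_lit 2668840744362196449236321917062021633) (nat_lit 2)) .nil))) .nil))),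
 (.br (nat_lit 14) (nat_lit 0) (.cons (.rf (nat_lit 305) (nat_lit 622703726024184642537504)) (.cons (.rf (nat_lit 306) (nat_lit 19926519232773908561233952)) (.cons (.br (nat_lit 14) (nat_lit 0) (.cons (.rf (nat_lit 305) (nat_lit 622703726024184642537504)) (.cons (.rf (nat_lit 306) (nat_lit 19926519232773908561233952)) .nil))) .nil))))]

theorem c10 : chkAll C T R L10 (nat_lit 280) = true := by decide +kernel

theorem l10 : (nat_lit 280) + L10.length = (nat_lit 308) := by decide +kernel

/-- part of the certificates -/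
def L11 : List Prf := [(.br (nat_lit 14) (nat_lit 0) (.cons (.ev (nat_lit 5192376397391295980572960993902848) (nat_lit 1)) (.cons (.br (nat_lit 15) (nat_lit 0) (.cons (.ev (nat_lit 2658456150647554090495574404342415360) (nat_lit 2)) (.cons (.kr (nat_lit 2658455991572249597446843383205068801) (nat_lit 174224571863520493293284692774687720144896) (nat_lit 0) (nat_lit 1)) .nil))) .nil))),
 (.br (nat_lit 11) (nat_lit 0) (.cons (.ev (nat_lit 310693954159761365647032321) (nat_lit 1)) (.cons (.br (nat_lit 12) (nat_lit 0) (.cons (.ev (nat_lit 40564821634636750927715532734467) (nat_lit 2)) (.cons (.rf (nat_lit 303) (nat_lit 17022140995484340291616)) (.cons (.br (nat_lit 12) (nat_lit 0) (.cons (.ev (nat_lit 40564821634636750927715532734467) (nat_lit 2)) (.cons (.rf (nat_lit 303) (nat_lit 17022140995484340291616)) (.cons (.br (nat_lit 13) (nat_lit 0) (.cons (.br (nat_lit 14) (nat_lit 0) (.cons (.rf (nat_lit 304) (nat_lit 19926519232773908561233952)) (.cons (.rf (nat_lit 304) (nat_lit 18755372345022236548237344)) (.cons (.br (nat_lit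 15) (nat_lit 0) (.cons (.br (nat_lit 15) (nat_lit 0) (.cons (.ev (nat_lit 1334440654281221588833581971345047808) (nat_lit 1)) .nil)) (.cons (.br (nat_lit 15) (nat_lit 0) (.cons (.ev (nat_lit 1334440654281221588833581971345047808) (nat_lit 1)) .nil)) .nil))) .nil)))) (.cons (.rf (nat_lit 307) (nat_lit 19926519232773908561233952)) (.cons (.rf (nat_lit 307) (nat_lit 18755372345022236548237344)) (.cons (.br (nat_lit 14) (nat_lit 0) (.cons (.rf (nat_lit 308) (nat_lit 677582165103132179601393696)) (.cons (.rf (nat_lit 308) (nat_lit 676411018215380507588397088)) (.cons (.br (nat_lit 14) (nat_lit 0) (.cons (.rf (nat_lit 308) (nat_lit 677582165103132179601393696)) (.cons (.rf (nat_lit 308) (nat_lit 676411018215380507588397088)) .nil))) .nil)))) .nil))))) .nil)))) .nil)))) .nil))),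
 (.br (nat_lit 15) (nat_lit 0) (.cons (.ev (nat_lit 10384594336049156526206120641036803) (nat_lit 2)) (.cons (.br (nat_lit 16) (nat_lit 0) (.cons (.ev (nat_lit 680575118594669291630177922660037755393) (nat_lit 2)) (.cons (.kr (nat_lit 2658455991572249597446844482733473793) (nat_lit 680564733841876936371626295790902706688) (nat_lit 0) (nat_lit 2)) .nil))) .nil))),
 (.br (nat_lit 13) (nat_lit 0) (.cons (.ev (nat_lit 20361637770888301244414735483136) (nat_lit 1)) (.cons (.ev (nat_lit 40725137306502206322190695335429) (nat_lit 3)) (.cons (.br (nat_lit 15) (nat_lit 0) (.cons (.ev (nat_lit 10384594336049156526206120641036803) (nat_lit 2)) (.cons (.rf (nat_lit 310) (nat_lit 19926519232773908561233952)) (.cons (.br (nat_lit 15) (nat_lit 0) (.cons (.ev (nat_lit 10384594336049156526206120641036803) (nat_lit 2)) (.cons (.rf (nat_lit 310) (nat_lit 19926519232773908561233952)) .nil))) .nil)))) .nil)))),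
 (.br (nat_lit 14) (nat_lit 0) (.cons (.ev (nat_lit 10384594338466971272230909899899392) (nat_lit 2)) (.cons (.ev (nat_lit 10425316995019838909929633087619073) (nat_lit 2)) (.cons (.br (nat_lit 15) (nat_lit 0) (.cons (.br (nat_lit 15) (nat_lit 0) (.cons (.ev (nat_lit 2668840744362205931006610624988971011) (nat_lit 2)) .nil)) (.cons (.br (nat_lit 15) (nat_lit 0) (.cons (.ev (nat_lit 2668840744362205931006610624988971011) (nat_lit 2)) .nil)) .nil))) .nil)))),
 (.br (nat_lit 13) (nat_lit 0) (.cons (.ev (nat_lit 20282720302309749924113128947968) (nat_lit 1)) (.cons (.br (nat_lit 14) (nat_lit 0) (.cons (.ev (nat_lit 5192297169233485708030662206882048) (nat_lit 1)) (.cons (.kr (nat_lit 20282409603651670423947251286016) (nat_lit 5192296858534827628530496329220096) (nat_lit 13) (nat_lit 0)) .nil))) .nil))),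
 (.br (nat_lit 14) (nat_lit 0) (.cons (.ev (nat_lit 10425316995019838909929633087619073) (nat_lit 2)) (.cons (.ev (nat_lit 5192376397391295980572960993902848) (nat_lit 1)) (.cons (.br (nat_lit 16) (nat_lit 0) (.cons (.ev (nat_lit 20361637770888301525885417160961) (nat_lit 1)) (.cons (.ev (nat_lit 680564734000954649271437175147318149120) (nat_lit 2)) (.cons (.kr (nat_lit 680564733841876936371626295790902706688) (nat_lit 10384593717069692150831714582724608) (nat_lit 1) (nat_lit 0)) .nil)))) .nil)))),
 (.br (nat_lit 12) (nat_lit 0) (.cons (.rf (nat_lit 311) (nat_lit 583706118939841765935136)) (.cons (.rf (nat_lit 311) (nat_lit 547107778697602015528992)) (.cons (.br (nat_lit 13) (nat_lit 0) (.cons (.rf (nat_lit 312) (nat_lit 19926519232773908561233952)) (.cons (.rf (nat_lit 312) (nat_lit 19889920892531668810827808)) (.cons (.ev (nat_lit 20361637770888301525885417160961) (nat_lit 1)) (.cons (.br (nat_lit 14) (nat_lit 0) (.cons (.rf (nat_lit 313) (nat_lit 21174442659472880612542496)) (.cons (.rf (nat_lit 314) (nat_lit 19926519232773908561233952))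 (.cons (.br (nat_lit 14) (nat_lit 0) (.cons (.rf (nat_lit 313) (nat_lit 21174442659472880612542496)) (.cons (.rf (nat_lit 314) (nat_lit 19926519232773908561233952)) .nil))) .nil)))) .nil))))) .nil)))),
 (.br (nat_lit 13) (nat_lit 0) (.cons (.kr (nat_lit 10384593719487506896291354831224833) (nat_lit 680564733841876936371626295790902706688) (nat_lit 0) (nat_lit 2)) (.cons (.br (nat_lit 15) (nat_lit 0) (.cons (.ev (nat_lit 1334420292954144654692381496761647105) (nat_lit 1)) (.cons (.ev (nat_lit 1334440654281221588833583066578485505) (nat_lit 1)) .nil))) .nil))),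
 (.br (nat_lit 15) (nat_lit 0) (.cons (.ev (nat_lit 1329228075323772341255849524945027328) (nat_lit 1)) (.cons (.ev (nat_lit 1334420292954144654692098922256596993) (nat_lit 1)) .nil))),
 (.br (nat_lit 12) (nat_lit 0) (.cons (.rf (nat_lit 315) (nat_lit 583706118939841765935136)) (.cons (.ev (nat_lit 159075304529941935511769841667) (nat_lit 2)) (.cons (.br (nat_lit 14) (nat_lit 0) (.cons (.br (nat_lit 13) (nat_lit 0) (.cons (.br (nat_lit 15) (nat_lit 0) (.cons (.ev (nat_lit 1329228075323772341255849524945027328) (nat_lit 1)) (.cons (.br (nat_lit 16) (nat_lit 0) (.cons (.br (nat_lit 16) (nat_lit 0) .nil) .nil)) .nil))) (.cons (.ev (nat_lit 40723277959665135487705921290755) (nat_lit 2)) (.cons (.br (nat_lit 15) (nat_lit 0) (.cons (.br (nat_lit 15) (nat_lit 0) (.cons (.zr (nat_lit 122171683516499414002063758131713) (nat_lit 7985752568431400669745342563991158784) (nat_lit 16) (nat_lit 14)) .nil)) (.cons (.br (nat_lit 15) (nat_lit 0) (.cons (.zr (nat_lit 122171683516499414002063758131713) (nat_lit 7985752568431400669745342563991158784)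 (nat_lit 16) (nat_lit 14)) .nil)) .nil))) .nil)))) (.cons (.ev (nat_lit 10384594336049156526206120641036803) (nat_lit 2)) (.cons (.br (nat_lit 13) (nat_lit 0) (.cons (.rf (nat_lit 316) (nat_lit 19926519232773908561233952)) (.cons (.kr (nat_lit 10384593719487506896291354831224833) (nat_lit 680564733841876936371626295790902706688) (nat_lit 0) (nat_lit 2)) (.cons (.br (nat_lit 13) (nat_lit 0) (.cons (.rf (nat_lit 316) (nat_lit 19926519232773908561233952)) (.cons (.kr (nat_lit 10384593719487506896291354831224833) (nat_lit 680564733841876936371626295790902706688) (nat_lit 0) (nat_lit 2)) .nil))) .nil)))) (.cons (.br (nat_lit 13) (nat_lit 0) (.cons (.rf (nat_lit 317) (nat_lit 677582165103132179601393696)) (.cons (.br (nat_lit 13) (nat_lit 0) (.cons (.rf (nat_lit 317) (nat_lit 677582165103132179601393696)) (.cons (.ev (nat_lit 10425316995019838909929633087619073) (nat_lit 2)) .nil))) (.cons (.br (nat_lit 13) (nat_lit 0) (.cons (.rf (nat_lit 317) (nat_lit 677582165103132179601393696)) (.cons (.ev (nat_lit 10425316995019838909929633087619073)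 (nat_lit 2)) .nil))) .nil)))) .nil))))) .nil)))),
 (.br (nat_lit 13) (nat_lit 0) (.cons (.br (nat_lit 15) (nat_lit 0) (.cons (.ev (nat_lit 2668881150108526556044753369928172033) (nat_lit 2)) (.cons (.ev (nat_lit 2668840744362205931006610624988971011) (nat_lit 2)) .nil))) (.cons (.ev (nat_lit 5212579268143201737494907280490496) (nat_lit 1)) (.cons (.ev (nat_lit 10425316992602024164472183305994242) (nat_lit 2)) .nil)))),
 (.br (nat_lit 14) (nat_lit 0) (.cons (.ev (nat_lit 10384594338466971272230909899899392) (nat_lit 2)) (.cons (.rf (nat_lit 319) (nat_lit 677582165103132179601393696)) (.cons (.rf (nat_lit 319) (nat_lit 640105464695078675185502240)) .nil)))),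
 (.br (nat_lit 13) (nat_lit 0) (.cons (.rf (nat_lit 320) (nat_lit 677582165103132179601393696)) (.cons (.rf (nat_lit 320) (nat_lit 677545566762889939850987552)) (.cons (.ev (nat_lit 40723277959665135487705921290755) (nat_lit 2)) .nil)))),
 (.br (nat_lit 8) (nat_lit 0) (.cons (.kr (nat_lit 9444877080927366283776) (nat_lit 36893770721924284416) (nat_lit 1) (nat_lit 0)) (.cons (.br (nat_lit 10) (nat_lit 0) (.cons (.kr (nat_lit 2417851639230362172784641) (nat_lit 9444877080927366283776) (nat_lit 0) (nat_lit 2)) (.cons (.kr (nat_lit 2417851639229262644379649) (nat_lit 36893769622395879424) (nat_lit 0) (nat_lit 1)) (.cons (.br (nat_lit 11) (nat_lit 0) (.cons (.rf (nat_lit 302) (nat_lit 493858305440582043680)) (.cons (.rf (nat_lit 309) (nat_lit 493858305440582043680)) (.cons (.br (nat_lit 11) (nat_lit 0) (.cons (.rf (nat_lit 302) (nat_lit 493858305440582043680)) (.cons (.rf (nat_lit 309) (nat_lit 493858305440582043680)) (.cons (.br (nat_lit 12) (nat_lit 0) (.cons (.rf (nat_lit 315) (nat_lit 583706118939841765935136)) (.cons (.rf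 (nat_lit 318) (nat_lit 583706118939841765935136)) (.cons (.rf (nat_lit 318) (nat_lit 547107778697602015528992)) (.cons (.br (nat_lit 12) (nat_lit 0) (.cons (.rf (nat_lit 315) (nat_lit 583706118939841765935136)) (.cons (.rf (nat_lit 318) (nat_lit 583706118939841765935136)) (.cons (.rf (nat_lit 318) (nat_lit 547107778697602015528992)) (.cons (.br (nat_lit 13) (nat_lit 0) (.cons (.rf (nat_lit 320) (nat_lit 677582165103132179601393696)) (.cons (.rf (nat_lit 320) (nat_lit 677545566762889939850987552)) (.cons (.rf (nat_lit 321) (nat_lit 677582165103132179601393696)) (.cons (.rf (nat_lit 321) (nat_lit 640105464695078675185502240)) .nil))))) .nil))))) .nil))))) .nil)))) .nil)))) .nil)))) .nil))),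
 (.br (nat_lit 14) (nat_lit 0) (.cons (.br (nat_lit 15) (nat_lit 0) (.cons (.kr (nat_lit 10384594336039674899751134402969601) (nat_lit 2658455991569831782701103367508197376) (nat_lit 0) (nat_lit 1)) (.cons (.br (nat_lit 16) (nat_lit 0) (.cons (.br (nat_lit 16) (nat_lit 0) .nil) .nil)) .nil))) .nil)),
 (.br (nat_lit 15) (nat_lit 0) (.cons (.ev (nat_lit 1344865813747172003005355857056694528) (nat_lit 2)) .nil)),
 (.br (nat_lit 13) (nat_lit 0) (.cons (.ev (nat_lit 41042052364966314056773875859458) (nat_lit 3)) (.cons (.br (nat_lit 14) (nat_lit 0) (.cons (.ev (nat_lit 5192376397391295980571865794019585) (nat_lit 1)) (.cons (.ev (nat_lit 10425158536276995491681816698618370) (nat_lit 2)) (.cons (.br (nat_lit 15) (nat_lit 0) (.cons (.br (nat_lit 15) (nat_lit 0) (.cons (.ev (nat_lit 2668881150108526556188868566560407553) (nat_lit 2)) .nil)) (.cons (.br (nat_lit 15) (nat_lit 0) (.cons (.ev (nat_lit 2668881150108526556188868566560407553) (nat_lit 2)) .nil)) .nil))) .nil)))) .nil))),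
 (.br (nat_lit 14) (nat_lit 0) (.cons (.rf (nat_lit 163) (nat_lit 669158678551338317434160192)) .nil)),
 (.br (nat_lit 13) (nat_lit 0) (.cons (.ev (nat_lit 41042052364966314056773875859458) (nat_lit 3)) (.cons (.br (nat_lit 15) (nat_lit 0) (.cons (.ev (nat_lit 2658456150647554090495574404342415360) (nat_lit 2)) (.cons (.ev (nat_lit 1329248278194524247012771471231614976) (nat_lit 1)) (.cons (.br (nat_lit 14) (nat_lit 0) (.cons (.rf (nat_lit 326) (nat_lit 677582165103132179601393696)) (.cons (.br (nat_lit 14) (nat_lit 0) (.cons (.rf (nat_lit 163) (nat_lit 669158678551338317434160192)) .nil)) .nil))) .nil)))) .nil))),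
 (.br (nat_lit 15) (nat_lit 0) (.cons (.ev (nat_lit 1329228075013083109534908998446219521) (nat_lit 1)) (.cons (.kr (nat_lit 10384594336039674899751134402969601) (nat_lit 680564733841876926963642704110483931136) (nat_lit 0) (nat_lit 1)) (.cons (.ev (nat_lit 2668881150725088205818783332403642371) (nat_lit 2)) .nil)))),
 (.br (nat_lit 14) (nat_lit 0) (.cons (.rf (nat_lit 328) (nat_lit 677582165103132179601393696)) (.cons (.rf (nat_lit 328) (nat_lit 640105464695078675185502240)) .nil))),
 (.br (nat_lit 14) (nat_lit 0) (.cons (.rf (nat_lit 328) (nat_lit 677582165103132179601393696)) (.cons (.br (nat_lit 16) (nat_lit 0) (.cons (.br (nat_lit 15) (nat_lit 0) (.cons (.ev (nat_lit 1329248278505213478733993477002035200) (nat_lit 1)) .nil)) (.cons (.kr (nat_lit 340282366920938463463374607431768211456) (nat_lit 87112285931760246646623899502532662132736) (nat_lit 16) (nat_lit 0)) .nil))) .nil))),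
 (.br (nat_lit 12) (nat_lit 0) (.cons (.ev (nat_lit 159075304529797820315070497283) (nat_lit 2)) (.cons (.br (nat_lit 10) (nat_lit 0) (.cons (.br (nat_lit 13) (nat_lit 0) (.cons (.ev (nat_lit 41040195445462510308415359813123) (nat_lit 3)) (.cons (.br (nat_lit 14) (nat_lit 0) (.cons (.rf (nat_lit 323) (nat_lit 583706118939841765935136)) (.cons (.br (nat_lit 14) (nat_lit 0) (.cons (.rf (nat_lit 323) (nat_lit 583706118939841765935136)) (.cons (.br (nat_lit 15) (nat_lit 0) (.cons (.rf (nat_lit 324) (nat_lit 677582165103132179601393696)) (.cons (.rf (nat_lit 324) (nat_lit 640105464695078675185502240)) .nil))) .nil))) .nil))) .nil))) (.cons (.ev (nat_lit 158458742880167905549294371329) (nat_lit 2)) (.cons (.br (nat_lit 13) (nat_lit 0) (.cons (.rf (nat_lit 325) (nat_lit 583706118939841765935136)) (.cons (.rf (nat_lit 327) (nat_lit 583706118939841765935136)) (.cons (.br (nat_lit 13) (nat_lit 0) (.cons (.rf (nat_lit 325) (nat_lit 583706118939841765935136)) (.cons (.rf (nat_lit 327) (nat_lit 583706118939841765935136)) (.cons (.br (nat_lit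 14) (nat_lit 0) (.cons (.rf (nat_lit 329) (nat_lit 677582165103132179601393696)) (.cons (.rf (nat_lit 330) (nat_lit 677582165103132179601393696)) (.cons (.rf (nat_lit 330) (nat_lit 640105464695078675185502240)) .nil)))) .nil)))) .nil)))) .nil)))) .nil))),
 (.br (nat_lit 13) (nat_lit 0) (.cons (.ev (nat_lit 5192376086702064259350963813417216) (nat_lit 1)) (.cons (.br (nat_lit 14) (nat_lit 0) (.cons (.kr (nat_lit 20361638979814192916633653084416) (nat_lit 1334420292952935728800708174020673536) (nat_lit 1) (nat_lit 0)) (.cons (.br (nat_lit 15) (nat_lit 0) (.cons (.ev (nat_lit 15971546496432326275120504906755345933) (nat_lit 4)) (.cons (.br (nat_lit 16) (nat_lit 0) (.cons (.br (nat_lit 16) (nat_lit 0) .nil) .nil)) .nil))) .nil))) (.cons (.br (nat_lit 14) (nat_lit 0) (.cons (.br (nat_lit 15) (nat_lit 0) (.cons (.ev (nat_lit 1329248278505213478733993477002035200) (nat_lit 1)) (.cons (.br (nat_lit 16) (nat_lit 0) (.cons (.br (nat_lit 16) (nat_lit 0) .nil) .nil)) .nil))) (.cons (.br (nat_lit 15) (nat_lit 0) (.cons (.ev (nat_lit 680575118594052739462174181405489234433)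 (nat_lit 2)) (.cons (.br (nat_lit 15) (nat_lit 0) (.cons (.ev (nat_lit 680575118594052739462174181405489234433) (nat_lit 2)) .nil)) .nil))) (.cons (.br (nat_lit 15) (nat_lit 0) (.cons (.br (nat_lit 15) (nat_lit 0) (.cons (.ev (nat_lit 2668881150727506020420692924963160576) (nat_lit 2)) .nil)) (.cons (.br (nat_lit 15) (nat_lit 0) (.cons (.ev (nat_lit 2668881150727506020420692924963160576) (nat_lit 2)) .nil)) .nil))) .nil)))) .nil))))]

theorem c11 : chkAll C T R L11 (nat_lit 308) = true := by decide +kernel

theorem l11 : (nat_lit 308) + L11.length = (nat_lit 333) := by decide +kernel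

/-- part of the certificates -/
def L12 : List Prf := [(.br (nat_lit 16) (nat_lit 0) (.cons (.ev (nat_lit 5212579578832433458998383732588545) (nat_lit 1)) (.cons (.ev (nat_lit 1329248278505213478734274947683713025) (nat_lit 1)) (.cons (.rf (nat_lit 283) (nat_lit 671537647804633865207776320)) .nil)))),
 (.br (nat_lit 14) (nat_lit 0) (.cons (.ev (nat_lit 5212579578832433458998383732588545) (nat_lit 1)) (.cons (.br (nat_lit 15) (nat_lit 0) (.cons (.br (nat_lit 15) (nat_lit 0) .nil) .nil)) .nil))),
 (.br (nat_lit 14) (nat_lit 0) (.cons (.ev (nat_lit 5192376397391295980853336475697408) (nat_lit 1)) (.cons (.br (nat_lit 15) (nat_lit 0) (.cons (.ev (nat_lit 680564734000954649271437175147318149120) (nat_lit 2)) (.cons (.ev (nat_lit 174224571904085314927884405817584157655555) (nat_lit 2)) .nil))) .nil))),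
 (.br (nat_lit 12) (nat_lit 0) (.cons (.rf (nat_lit 332) (nat_lit 583706118939841765935136)) (.cons (.rf (nat_lit 332) (nat_lit 547107778697602015528992)) (.cons (.br (nat_lit 13) (nat_lit 0) (.cons (.rf (nat_lit 332) (nat_lit 583670270289895945672931)) (.cons (.rf (nat_lit 332) (nat_lit 547071930047656195266787)) (.cons (.br (nat_lit 14) (nat_lit 0) (.cons (.rf (nat_lit 333) (nat_lit 19926519232773908561233952)) (.cons (.rf (nat_lit 334) (nat_lit 19926519232773908561233952)) (.cons (.br (nat_lit 14) (nat_lit 0) (.cons (.rf (nat_lit 333) (nat_lit 19926519232773908561233952)) (.cons (.rf (nat_lit 334) (nat_lit 19926519232773908561233952)) .nil))) .nil)))) (.cons (.br (nat_lit 14) (nat_lit 0) (.cons (.br (nat_lit 14) (nat_lit 0) (.cons (.ev (nat_lit 5192376397391295980853336475697408) (nat_lit 1)) (.cons (.ev (nat_lit 5212579578832433458998383732588545) (nat_lit 1)) .nil))) (.cons (.rf (nat_lit 335) (nat_lit 677582165103132179601393696)) (.cons (.rf (nat_lit 335) (nat_lit 640105428846428729365240035)) .nil)))) .nil))))) .nil)))),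
 (.br (nat_lit 15) (nat_lit 0) (.cons (.zr (nat_lit 122169833859995403339051009311233) (nat_lit 7985752569664505005753385823984943104) (nat_lit 16) (nat_lit 14)) .nil)),
 (.br (nat_lit 16) (nat_lit 0) (.cons (.ev (nat_lit 158458752361938755008118063107) (nat_lit 2)) (.cons (.ev (nat_lit 680575118594669301111804096171265360387) (nat_lit 2)) (.cons (.ev (nat_lit 680564774406696134266983835687576601090) (nat_lit 2)) .nil)))),
 (.br (nat_lit 16) (nat_lit 0) (.cons (.ev (nat_lit 680564734000954649271437175147318149120) (nat_lit 2)) (.cons (.ev (nat_lit 680575118594669301111804096171265360387) (nat_lit 2)) .nil))),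
 (.br (nat_lit 12) (nat_lit 0) (.cons (.rf (nat_lit 336) (nat_lit 583706118939841765935136)) (.cons (.ev (nat_lit 158458752361938755008118063107) (nat_lit 2)) (.cons (.br (nat_lit 14) (nat_lit 0) (.cons (.br (nat_lit 13) (nat_lit 0) (.cons (.ev (nat_lit 40565440604619356017811744031232) (nat_lit 2)) (.cons (.br (nat_lit 15) (nat_lit 0) (.cons (.ev (nat_lit 680564774406698561563356027382369812995) (nat_lit 2)) (.cons (.br (nat_lit 15) (nat_lit 0) (.cons (.ev (nat_lit 680564774406698561563356027382369812995) (nat_lit 2)) .nil)) .nil))) (.cons (.br (nat_lit 15) (nat_lit 0) (.cons (.rf (nat_lit 337) (nat_lit 677582165103132179601393696)) (.cons (.rf (nat_lit 337) (nat_lit 640105428846428729365240035)) .nil))) .nil)))) (.cons (.br (nat_lit 13) (nat_lit 0) (.cons (.kr (nat_lit 10384594336039674899751134402969601) (nat_lit 2658455991569831782701103367508197376) (nat_lit 0) (nat_lit 1)) (.cons (.br (nat_lit 13) (nat_lit 0) (.cons (.kr (nat_lit 10384594336039674899751134402969601) (nat_lit 2658455991569831782701103367508197376) (nat_lit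 0) (nat_lit 1)) (.cons (.rf (nat_lit 338) (nat_lit 677582165103132179601393696)) .nil))) (.cons (.br (nat_lit 13) (nat_lit 0) (.cons (.kr (nat_lit 10384594336039674899751134402969601) (nat_lit 2658455991569831782701103367508197376) (nat_lit 0) (nat_lit 1)) (.cons (.rf (nat_lit 338) (nat_lit 677582165103132179601393696)) .nil))) .nil)))) (.cons (.ev (nat_lit 5192376086702064259632434495095041) (nat_lit 1)) (.cons (.br (nat_lit 13) (nat_lit 0) (.cons (.br (nat_lit 13) (nat_lit 0) (.cons (.rf (nat_lit 338) (nat_lit 600286470511521826743617568)) (.cons (.ev (nat_lit 5212579578832433458998383732588545) (nat_lit 1)) .nil))) (.cons (.rf (nat_lit 339) (nat_lit 677582165103132179601393696)) (.cons (.br (nat_lit 13) (nat_lit 0) (.cons (.ev (nat_lit 5212579578832433458998383732588545) (nat_lit 1)) (.cons (.rf (nat_lit 339) (nat_lit 677582165103132179601393696)) .nil))) .nil)))) .nil))))) .nil)))),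
 (.br (nat_lit 17) (nat_lit 0) (.cons (.ev (nat_lit 174905136637927808397497532039440118252033) (nat_lit 2)) (.cons (.ev (nat_lit 174905136597520828972536486974936978751491) (nat_lit 2)) .nil))),
 (.br (nat_lit 13) (nat_lit 0) (.cons (.rf (nat_lit 340) (nat_lit 583670270289895945672931)) (.cons (.rf (nat_lit 340) (nat_lit 547071930047656195266787)) (.cons (.br (nat_lit 16) (nat_lit 0) (.cons (.rf (nat_lit 341) (nat_lit 677582165103132179601393696)) (.cons (.rf (nat_lit 341) (nat_lit 677545566762889939850987552)) (.cons (.ev (nat_lit 680564734000952221975064976864011550721) (nat_lit 2)) .nil)))) .nil)))),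
 (.br (nat_lit 8) (nat_lit 0) (.cons (.kr (nat_lit 9444877080927366283776) (nat_lit 36893770721924284416) (nat_lit 1) (nat_lit 0)) (.cons (.br (nat_lit 11) (nat_lit 0) (.cons (.kr (nat_lit 618970019642971616721305601) (nat_lit 9444877080927366283776) (nat_lit 0) (nat_lit 3)) (.cons (.kr (nat_lit 618970019642690141744529409) (nat_lit 36893489246947508224) (nat_lit 0) (nat_lit 1)) (.cons (.br (nat_lit 10) (nat_lit 0) (.cons (.rf (nat_lit 331) (nat_lit 493858305440582043680)) (.cons (.rf (nat_lit 331) (nat_lit 458009655494761781475)) (.cons (.br (nat_lit 10) (nat_lit 0) (.cons (.rf (nat_lit 331) (nat_lit 493858305440582043680)) (.cons (.rf (nat_lit 331) (nat_lit 458009655494761781475)) (.cons (.br (nat_lit 12) (nat_lit 0) (.cons (.rf (nat_lit 336) (nat_lit 583706118939841765935136)) (.cons (.rf (nat_lit 340) (nat_lit 583706118939841765935136)) (.cons (.rf (nat_lit 340) (nat_lit 547107778697602015528992)) (.cons (.br (nat_lit 12) (nat_lit 0) (.cons (.rf (nat_lit 336) (nat_lit 583706118939841765935136)) (.cons (.rf (nat_lit 340)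 (nat_lit 583706118939841765935136)) (.cons (.rf (nat_lit 340) (nat_lit 547107778697602015528992)) (.cons (.br (nat_lit 13) (nat_lit 0) (.cons (.rf (nat_lit 340) (nat_lit 583670270289895945672931)) (.cons (.rf (nat_lit 340) (nat_lit 547071930047656195266787)) (.cons (.rf (nat_lit 342) (nat_lit 677582165103132179601393696)) (.cons (.rf (nat_lit 342) (nat_lit 640105464695078675185502240)) .nil))))) .nil))))) .nil))))) .nil)))) .nil)))) .nil)))) .nil))),
 (.br (nat_lit 14) (nat_lit 0) (.cons (.br (nat_lit 15) (nat_lit 0) (.cons (.ev (nat_lit 2668840744362196449236321917062021633) (nat_lit 2)) (.cons (.br (nat_lit 16) (nat_lit 0) (.cons (.br (nat_lit 16) (nat_lit 0) .nil) .nil)) .nil))) .nil)),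
 (.br (nat_lit 15) (nat_lit 0) (.cons (.ev (nat_lit 1344865972203487549906736031056658690) (nat_lit 2)) .nil)),
 (.br (nat_lit 13) (nat_lit 0) (.cons (.ev (nat_lit 20361948460120022747891187581185) (nat_lit 1)) (.cons (.br (nat_lit 14) (nat_lit 0) (.cons (.br (nat_lit 15) (nat_lit 0) (.cons (.kr (nat_lit 40565438177322983538036247101441) (nat_lit 2658455991569831782701103367508197376) (nat_lit 0) (nat_lit 1)) (.cons (.br (nat_lit 16) (nat_lit 0) (.cons (.br (nat_lit 16) (nat_lit 0) .nil) .nil)) .nil))) (.cons (.ev (nat_lit 5212579268143201665718788202430721) (nat_lit 1)) (.cons (.br (nat_lit 15) (nat_lit 0) (.cons (.br (nat_lit 15) (nat_lit 0) (.cons (.ev (nat_lit 2668881309181403752721285008196829185) (nat_lit 2)) .nil)) (.cons (.br (nat_lit 15) (nat_lit 0) (.cons (.ev (nat_lit 2668881309181403752721285008196829185) (nat_lit 2)) .nil)) .nil))) .nil)))) .nil))),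
 (.br (nat_lit 14) (nat_lit 0) (.cons (.ev (nat_lit 621397316159285096693825536) (nat_lit 2)) (.cons (.kr (nat_lit 40564821625154980077157146951681) (nat_lit 10384593717069692150830615054319616) (nat_lit 0) (nat_lit 1)) (.cons (.br (nat_lit 16) (nat_lit 0) (.cons (.ev (nat_lit 340282367000477319931798706390959194113) (nat_lit 1)) (.cons (.ev (nat_lit 680564774565154877110402083503965601793) (nat_lit 2)) (.cons (.ev (nat_lit 680575118594050321647572839152339845122) (nat_lit 2)) .nil)))) .nil)))),
 (.br (nat_lit 14) (nat_lit 0) (.cons (.ev (nat_lit 621397316159285096693825536) (nat_lit 2)) (.cons (.rf (nat_lit 347) (nat_lit 18755372345022236548237344)) (.cons (.rf (nat_lit 347) (nat_lit 19926519232773908561233952)) (.cons (.br (nat_lit 14) (nat_lit 0) (.cons (.ev (nat_lit 621397316159285096693825536) (nat_lit 2)) (.cons (.rf (nat_lit 347) (nat_lit 18755372345022236548237344)) (.cons (.rf (nat_lit 347) (nat_lit 19926519232773908561233952)) .nil)))) .nil))))),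
 (.br (nat_lit 13) (nat_lit 0) (.cons (.ev (nat_lit 20361948460120022747891187581185) (nat_lit 1)) (.cons (.rf (nat_lit 348) (nat_lit 19926519232773908561233952)) .nil))),
 (.br (nat_lit 15) (nat_lit 0) (.cons (.ev (nat_lit 1334420372181098243137104461130891265) (nat_lit 1)) (.cons (.ev (nat_lit 2668840585905871420851761926606356481) (nat_lit 2)) (.cons (.ev (nat_lit 2668881309181403752721285008196829185) (nat_lit 2)) .nil)))),
 (.br (nat_lit 11) (nat_lit 0) (.cons (.ev (nat_lit 20361637770888373302004495220736) (nat_lit 1)) (.cons (.br (nat_lit 14) (nat_lit 0) (.cons (.ev (nat_lit 10465881814236587271973651622396417) (nat_lit 3)) (.cons (.kr (nat_lit 159075295048171365328832430081) (nat_lit 10384593717069692150550239605948416) (nat_lit 0) (nat_lit 1)) (.cons (.br (nat_lit 13) (nat_lit 0) (.cons (.br (nat_lit 15) (nat_lit 0) (.cons (.ev (nat_lit 2668881150108526556044753369928172033) (nat_lit 2)) (.cons (.br (nat_lit 16) (nat_lit 0) (.cons (.br (nat_lit 16) (nat_lit 0) .nil) .nil)) .nil))) (.cons (.br (nat_lit 15) (nat_lit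 0) (.cons (.ev (nat_lit 340287559218107692245090842799218163968) (nat_lit 1)) (.cons (.br (nat_lit 15) (nat_lit 0) (.cons (.ev (nat_lit 340287559218107692245090842799218163968) (nat_lit 1)) .nil)) .nil))) (.cons (.br (nat_lit 15) (nat_lit 0) (.cons (.rf (nat_lit 350) (nat_lit 677582165103132179601393696)) (.cons (.br (nat_lit 15) (nat_lit 0) (.cons (.ev (nat_lit 2668881150725088205818783332403642371) (nat_lit 2)) .nil)) .nil))) .nil)))) .nil)))) .nil))),
 (.br (nat_lit 15) (nat_lit 0) (.cons (.kr (nat_lit 40565438177322983538036247101441) (nat_lit 2658455991569831782701103367508197376) (nat_lit 0) (nat_lit 1)) (.cons (.br (nat_lit 16) (nat_lit 0) (.cons (.rf (nat_lit 350) (nat_lit 408030631116490505030043680)) .nil)) .nil))),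
 (.br (nat_lit 14) (nat_lit 0) (.cons (.ev (nat_lit 2721047508847068137116882413128122891) (nat_lit 4)) (.cons (.br (nat_lit 16) (nat_lit 0) (.cons (.br (nat_lit 16) (nat_lit 0) .nil) .nil)) .nil))),
 (.br (nat_lit 14) (nat_lit 0) (.cons (.ev (nat_lit 2721047508847068137116882413128122891) (nat_lit 4)) (.cons (.br (nat_lit 15) (nat_lit 0) (.cons (.ev (nat_lit 683223189991905501552724734533391483393) (nat_lit 2)) (.cons (.ev (nat_lit 1334420292954144654620041332530413825) (nat_lit 1)) .nil))) .nil))),
 (.br (nat_lit 14) (nat_lit 0) (.cons (.rf (nat_lit 353) (nat_lit 19926519232773908561233952)) (.cons (.rf (nat_lit 354) (nat_lit 19926519232773908561233952)) (.cons (.br (nat_lit 14) (nat_lit 0) (.cons (.rf (nat_lit 353) (nat_lit 19926519232773908561233952)) (.cons (.rf (nat_lit 354) (nat_lit 19926519232773908561233952)) .nil))) .nil)))),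
 (.br (nat_lit 14) (nat_lit 0) (.cons (.br (nat_lit 15) (nat_lit 0) (.cons (.ev (nat_lit 1334420292643455422970878020309549056) (nat_lit 1)) (.cons (.rf (nat_lit 350) (nat_lit 404403853661024317226453024)) .nil))) (.cons (.br (nat_lit 15) (nat_lit 0) (.cons (.br (nat_lit 16) (nat_lit 0) (.cons (.zr (nat_lit 7975449104347938178303443065139888133) (nat_lit 174224582248273907045822654028929250230784) (nat_lit 16) (nat_lit 2)) .nil)) (.cons (.ev (nat_lit 1334420292643455422970878020309549056) (nat_lit 1)) .nil))) .nil))),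
 (.br (nat_lit 11) (nat_lit 0) (.cons (.ev (nat_lit 20361637770888373302004495220736) (nat_lit 1)) (.cons (.rf (nat_lit 351) (nat_lit 17022140995484340291616)) (.cons (.br (nat_lit 11) (nat_lit 0) (.cons (.ev (nat_lit 20361637770888373302004495220736) (nat_lit 1)) (.cons (.rf (nat_lit 351) (nat_lit 17022140995484340291616)) (.cons (.br (nat_lit 13) (nat_lit 0) (.cons (.br (nat_lit 14) (nat_lit 0) (.cons (.rf (nat_lit 352) (nat_lit 19926519232773908561233952)) (.cons (.rf (nat_lit 352) (nat_lit 18755372345022236548237344)) (.cons (.br (nat_lit 15) (nat_lit 0) (.cons (.br (nat_lit 15) (nat_lit 0) (.cons (.ev (nat_lit 1334420292954144654620041332530413825) (nat_lit 1)) .nil)) (.cons (.br (nat_lit 15) (nat_lit 0) (.cons (.ev (nat_lit 1334420292954144654620041332530413825) (nat_lit 1)) .nil)) .nil))) .nil)))) (.cons (.rf (nat_lit 355) (nat_lit 19926519232773908561233952)) (.cons (.rf (nat_lit 355) (nat_lit 18755372345022236548237344)) (.cons (.br (nat_lit 14) (nat_lit 0) (.cons (.rf (nat_lit 356) (nat_lit 677582165103132179601393696))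 (.cons (.rf (nat_lit 356) (nat_lit 676411018215380507588397088)) (.cons (.br (nat_lit 14) (nat_lit 0) (.cons (.rf (nat_lit 356) (nat_lit 677582165103132179601393696)) (.cons (.rf (nat_lit 356) (nat_lit 676411018215380507588397088)) .nil))) .nil)))) .nil))))) .nil)))) .nil)))),
 (.br (nat_lit 15) (nat_lit 0) (.cons (.ev (nat_lit 1329228075323772341327906019471327233) (nat_lit 1)) (.cons (.br (nat_lit 17) (nat_lit 0) (.cons (.ev (nat_lit 174224571904243771243431451873705753444353) (nat_lit 2)) (.cons (.ev (nat_lit 174224571904244387805080937673274897334787) (nat_lit 2)) .nil))) .nil)))]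

theorem c12 : chkAll C T R L12 (nat_lit 333) = true := by decide +kernel

theorem l12 : (nat_lit 333) + L12.length = (nat_lit 359) := by decide +kernel

/-- part of the certificates -/
def L13 : List Prf := [(.br (nat_lit 14) (nat_lit 0) (.cons (.rf (nat_lit 358) (nat_lit 677582165103132179601393696)) (.cons (.br (nat_lit 15) (nat_lit 0) (.cons (.ev (nat_lit 680575159158869528950769571867322941954) (nat_lit 2)) (.cons (.ev (nat_lit 174224571904243771243431451873705753444353) (nat_lit 2)) .nil))) .nil))),
 (.br (nat_lit 11) (nat_lit 0) (.cons (.br (nat_lit 13) (nat_lit 0) (.cons (.ev (nat_lit 5212579578832433458716913050910720) (nat_lit 1)) (.cons (.kr (nat_lit 159075295048171646799514238976) (nat_lit 40564821625154980078252380389376) (nat_lit 2) (nat_lit 0)) (.cons (.br (nat_lit 14) (nat_lit 0) (.cons (.kr (nat_lit 159075295048171365328832430081) (nat_lit 10384593717069692150550239605948416) (nat_lit 0) (nat_lit 1)) (.cons (.kr (nat_lit 40564821625154980077157146951681) (nat_lit 10384593717069692150830615054319616) (nat_lit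 0) (nat_lit 1)) (.cons (.br (nat_lit 15) (nat_lit 0) (.cons (.br (nat_lit 15) (nat_lit 0) (.cons (.ev (nat_lit 2668881308564861066200162819140420099) (nat_lit 2)) .nil)) (.cons (.br (nat_lit 15) (nat_lit 0) (.cons (.ev (nat_lit 2668881308564861066200162819140420099) (nat_lit 2)) .nil)) .nil))) .nil)))) .nil)))) (.cons (.ev (nat_lit 159075304529941935511769841667) (nat_lit 2)) (.cons (.br (nat_lit 13) (nat_lit 0) (.cons (.ev (nat_lit 40564821634636750927715532734467) (nat_lit 2)) (.cons (.br (nat_lit 15) (nat_lit 0) (.cons (.kr (nat_lit 40564821625154980078256675356673) (nat_lit 2658455991569841190684695047926972928) (nat_lit 0) (nat_lit 2)) (.cons (.kr (nat_lit 159075295048171646803809206273) (nat_lit 2658455991569841190684695047926972928) (nat_lit 0) (nat_lit 3)) (.cons (.br (nat_lit 14) (nat_lit 0) (.cons (.br (nat_lit 14) (nat_lit 0) (.cons (.ev (nat_lit 5337721895092139321586475937630062080) (nat_lit 3)) .nil)) (.cons (.br (nat_lit 14) (nat_lit 0) (.cons (.ev (nat_lit 5337721895092139321586475937630062080) (nat_lit 3))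 .nil)) .nil))) .nil)))) (.cons (.ev (nat_lit 40565438177322983819511257563649) (nat_lit 2)) (.cons (.br (nat_lit 14) (nat_lit 0) (.cons (.rf (nat_lit 358) (nat_lit 677582165103132179601393696)) (.cons (.rf (nat_lit 359) (nat_lit 677582165103132179601393696)) (.cons (.br (nat_lit 14) (nat_lit 0) (.cons (.rf (nat_lit 358) (nat_lit 677582165103132179601393696)) (.cons (.rf (nat_lit 359) (nat_lit 677582165103132179601393696)) .nil))) .nil)))) .nil))))) .nil)))),
 (.br (nat_lit 12) (nat_lit 0) (.cons (.br (nat_lit 12) (nat_lit 0) .nil) .nil)),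
 (.br (nat_lit 15) (nat_lit 0) (.cons (.ev (nat_lit 340287559218107692245090841704018280705) (nat_lit 1)) (.cons (.ev (nat_lit 2668881308564861066200162819140420099) (nat_lit 2)) .nil))),
 (.br (nat_lit 14) (nat_lit 0) (.cons (.br (nat_lit 13) (nat_lit 0) (.cons (.ev (nat_lit 93950501238366468965210335004857355) (nat_lit 5)) (.cons (.br (nat_lit 15) (nat_lit 0) (.cons (.ev (nat_lit 13333940344706698264013573611162567681) (nat_lit 4)) (.cons (.br (nat_lit 16) (nat_lit 0) (.cons (.br (nat_lit 16) (nat_lit 0) .nil) .nil)) .nil))) .nil))) (.cons (.ev (nat_lit 5327296735315485471917275710474159617) (nat_lit 3)) (.cons (.br (nat_lit 13) (nat_lit 0) (.cons (.br (nat_lit 13) (nat_lit 0) (.cons (.ev (nat_lit 2668881150108526556044753369928172033) (nat_lit 2)) (.cons (.rf (nat_lit 361) (nat_lit 646192708113796405313)) .nil))) (.cons (.br (nat_lit 13) (nat_lit 0) (.cons (.ev (nat_lit 2668881150108526556044753369928172033) (nat_lit 2)) (.cons (.rf (nat_lit 362) (nat_lit 677582165103132179601393696)) .nil))) (.cons (.br (nat_lit 13) (nat_lit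 0) (.cons (.rf (nat_lit 361) (nat_lit 646192708113796405313)) (.cons (.rf (nat_lit 362) (nat_lit 677582165103132179601393696)) .nil))) .nil)))) .nil)))),
 (.br (nat_lit 15) (nat_lit 0) (.cons (.ev (nat_lit 1329228075323772341328187498742939648) (nat_lit 1)) (.cons (.ev (nat_lit 2668840743745653763003430121337192451) (nat_lit 2)) .nil))),
 (.br (nat_lit 13) (nat_lit 0) (.cons (.rf (nat_lit 364) (nat_lit 677582165103132179601393696)) (.cons (.br (nat_lit 17) (nat_lit 0) (.cons (.ev (nat_lit 174224582248272666687968622629354127687682) (nat_lit 2)) (.cons (.ev (nat_lit 87452573511260763942520733107252929495040) (nat_lit 1)) .nil))) .nil))),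
 (.br (nat_lit 11) (nat_lit 0) (.cons (.rf (nat_lit 360) (nat_lit 583706118939841765935136)) (.cons (.rf (nat_lit 363) (nat_lit 583706118939841765935136)) (.cons (.br (nat_lit 14) (nat_lit 0) (.cons (.rf (nat_lit 363) (nat_lit 505899950196641082906851)) (.cons (.br (nat_lit 15) (nat_lit 0) (.cons (.kr (nat_lit 2658455991569841190684695047926972928) (nat_lit 10384593717069692150831714582724608) (nat_lit 1) (nat_lit 0)) (.cons (.kr (nat_lit 159075295048171646803809206273) (nat_lit 2658455991569841190684695047926972928) (nat_lit 0) (nat_lit 3)) (.cons (.br (nat_lit 13) (nat_lit 0) (.cons (.br (nat_lit 13) (nat_lit 0) (.cons (.ev (nat_lit 5327377866196694784415718064429204997) (nat_lit 3)) .nil)) (.cons (.br (nat_lit 13) (nat_lit 0) (.cons (.ev (nat_lit 5327377866196694784415718064429204997) (nat_lit 3)) .nil)) .nil))) .nil)))) (.cons (.rf (nat_lit 357) (nat_lit 14773835978197980682467)) (.cons (.br (nat_lit 13) (nat_lit 0) (.cons (.rf (nat_lit 364) (nat_lit 677582165103132179601393696)) (.cons (.rf (nat_lit 365) (nat_lit 677582165103132179601393696))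 (.cons (.br (nat_lit 13) (nat_lit 0) (.cons (.rf (nat_lit 364) (nat_lit 677582165103132179601393696)) (.cons (.rf (nat_lit 365) (nat_lit 677582165103132179601393696)) .nil))) .nil)))) .nil))))) .nil)))),
 (.br (nat_lit 14) (nat_lit 0) (.cons (.ev (nat_lit 8048061081481487366508886795064246798) (nat_lit 4)) (.cons (.br (nat_lit 13) (nat_lit 0) (.cons (.ev (nat_lit 10644249762988248601449935092614496781) (nat_lit 4)) (.cons (.ev (nat_lit 5212579268143201665718788202430721) (nat_lit 1)) (.cons (.br (nat_lit 16) (nat_lit 0) (.cons (.ev (nat_lit 2668840743745653763003430121337192451) (nat_lit 2)) (.cons (.ev (nat_lit 680564774565771438759887883073109492227) (nat_lit 2)) .nil))) .nil)))) (.cons (.br (nat_lit 17) (nat_lit 0) (.cons (.ev (nat_lit 5212579268143201665718788202430721) (nat_lit 1)) (.cons (.ev (nat_lit 2668840743745653763003430121337192451) (nat_lit 2)) (.cons (.br (nat_lit 16) (nat_lit 0) (.cons (.ev (nat_lit 680575118594671718926550120960524222976) (nat_lit 2)) (.cons (.ev (nat_lit 340287559218107692245091124278489776385)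 (nat_lit 1)) .nil))) .nil)))) .nil)))),
 (.br (nat_lit 13) (nat_lit 0) (.cons (.rf (nat_lit 367) (nat_lit 19926519232773908561233952)) (.cons (.br (nat_lit 14) (nat_lit 0) (.cons (.ev (nat_lit 680564774565154877110402083503965601793) (nat_lit 2)) (.cons (.br (nat_lit 14) (nat_lit 0) (.cons (.ev (nat_lit 680564774565154877110402083503965601793) (nat_lit 2)) .nil)) .nil))) (.cons (.br (nat_lit 14) (nat_lit 0) (.cons (.br (nat_lit 14) (nat_lit 0) (.cons (.ev (nat_lit 5212579578832433458715809227538433) (nat_lit 1)) .nil)) (.cons (.br (nat_lit 14) (nat_lit 0) (.cons (.ev (nat_lit 5212579578832433458715809227538433) (nat_lit 1)) .nil)) .nil))) .nil)))),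
 (.br (nat_lit 13) (nat_lit 0) (.cons (.rf (nat_lit 367) (nat_lit 19926519232773908561233952)) (.cons (.rf (nat_lit 368) (nat_lit 19926519232773908561233952)) (.cons (.br (nat_lit 15) (nat_lit 0) (.cons (.br (nat_lit 14) (nat_lit 0) (.cons (.ev (nat_lit 2668840744362196449236321917062021633) (nat_lit 2)) (.cons (.ev (nat_lit 5212579578832433458997288499150848) (nat_lit 1)) .nil))) (.cons (.ev (nat_lit 683223189833446758709450601913634718210) (nat_lit 2)) (.cons (.ev (nat_lit 2658740896661221987235217250101363721) (nat_lit 4)) .nil)))) .nil)))),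
 (.br (nat_lit 11) (nat_lit 0) (.cons (.ev (nat_lit 159075304529941935511769841667) (nat_lit 2)) (.cons (.rf (nat_lit 366) (nat_lit 583706118939841765935136)) (.cons (.br (nat_lit 13) (nat_lit 0) (.cons (.rf (nat_lit 367) (nat_lit 19926519232773908561233952)) (.cons (.rf (nat_lit 368) (nat_lit 19926519232773908561233952)) (.cons (.rf (nat_lit 369) (nat_lit 19926519232773908561233952)) (.cons (.br (nat_lit 13) (nat_lit 0) (.cons (.rf (nat_lit 367) (nat_lit 19926519232773908561233952)) (.cons (.rf (nat_lit 368) (nat_lit 19926519232773908561233952)) (.cons (.rf (nat_lit 369) (nat_lit 19926519232773908561233952)) .nil)))) .nil))))) .nil)))),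
 (.br (nat_lit 15) (nat_lit 0) (.cons (.ev (nat_lit 341611615278361150224651717600333594625) (nat_lit 1)) (.cons (.ev (nat_lit 2668881150725088205818783332403642371) (nat_lit 2)) .nil))),
 (.br (nat_lit 16) (nat_lit 0) (.cons (.ev (nat_lit 5212579268143201665437317520752896) (nat_lit 1)) (.cons (.ev (nat_lit 680564774565154877110402083503965601793) (nat_lit 2)) (.cons (.br (nat_lit 14) (nat_lit 0) (.cons (.ev (nat_lit 680575118594671718926550120960524222976) (nat_lit 2)) (.cons (.ev (nat_lit 87452573511260763942520732825773657882625) (nat_lit 1)) .nil))) .nil)))),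
 (.br (nat_lit 13) (nat_lit 0) (.cons (.br (nat_lit 14) (nat_lit 0) (.cons (.ev (nat_lit 5212579268143201665437317520752896) (nat_lit 1)) (.cons (.rf (nat_lit 371) (nat_lit 677582165103132179601393696)) (.cons (.rf (nat_lit 371) (nat_lit 640105464695078675185502240)) .nil)))) (.cons (.rf (nat_lit 372) (nat_lit 677582165103132179601393696)) (.cons (.rf (nat_lit 372) (nat_lit 640105464695078675185502240)) .nil)))),
 (.br (nat_lit 14) (nat_lit 0) (.cons (.br (nat_lit 14) (nat_lit 0) (.cons (.ev (nat_lit 680564774565154877110402083503965601793) (nat_lit 2)) (.cons (.ev (nat_lit 5212579578832433458715809227538433) (nat_lit 1)) .nil))) (.cons (.ev (nat_lit 680564774565154877110402083503965601793) (nat_lit 2)) (.cons (.br (nat_lit 14) (nat_lit 0) (.cons (.ev (nat_lit 5212579578832433458715809227538433) (nat_lit 1)) (.cons (.ev (nat_lit 680564774565154877110402083503965601793) (nat_lit 2)) .nil))) .nil)))),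
 (.br (nat_lit 13) (nat_lit 0) (.cons (.rf (nat_lit 373) (nat_lit 677582165103132179601393696)) (.cons (.rf (nat_lit 374) (nat_lit 677582165103132179601393696)) (.cons (.rf (nat_lit 374) (nat_lit 640105464695078675185502240)) .nil)))),
 (.br (nat_lit 14) (nat_lit 0) (.cons (.ev (nat_lit 680575118594050321647572839152339845122) (nat_lit 2)) (.cons (.ev (nat_lit 87452573511260763942520732825773657882625) (nat_lit 1)) .nil))),
 (.br (nat_lit 13) (nat_lit 0) (.cons (.rf (nat_lit 373) (nat_lit 677582165103132179601393696)) (.cons (.rf (nat_lit 375) (nat_lit 677582165103132179601393696)) (.cons (.br (nat_lit 16) (nat_lit 0) (.cons (.rf (nat_lit 376) (nat_lit 677582165103132179601393696)) (.cons (.br (nat_lit 14) (nat_lit 0) (.cons (.ev (nat_lit 683223230398887363291912846795841143296) (nat_lit 2)) (.cons (.rf (nat_lit 376) (nat_lit 640105464695078675185502240)) .nil))) (.cons (.kr (nat_lit 340282366920938463463374607431768211456) (nat_lit 87112285931760246646623899502532662132736) (nat_lit 16) (nat_lit 0)) .nil)))) .nil)))),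
 (.br (nat_lit 10) (nat_lit 0) (.cons (.rf (nat_lit 322) (nat_lit 299818165843532003)) (.cons (.ev (nat_lit 2427333265964624330818051) (nat_lit 2)) (.cons (.br (nat_lit 12) (nat_lit 0) (.cons (.br (nat_lit 11) (nat_lit 0) (.cons (.br (nat_lit 13) (nat_lit 0) (.cons (.ev (nat_lit 40564821634636750927715532734467) (nat_lit 2)) (.cons (.br (nat_lit 14) (nat_lit 0) (.cons (.rf (nat_lit 344) (nat_lit 583706118939841765935136)) (.cons (.br (nat_lit 14) (nat_lit 0) (.cons (.rf (nat_lit 344) (nat_lit 583706118939841765935136)) (.cons (.br (nat_lit 15) (nat_lit 0) (.cons (.rf (nat_lit 345) (nat_lit 677582165103132179601393696)) (.cons (.rf (nat_lit 345) (nat_lit 640105464695078675185502240)) .nil))) .nil))) .nil))) .nil))) (.cons (.ev (nat_lit 621397316159285096693825536) (nat_lit 2)) (.cons (.br (nat_lit 13) (nat_lit 0) (.cons (.rf (nat_lit 346) (nat_lit 583706118939841765935136)) (.cons (.rf (nat_lit 349) (nat_lit 583706118939841765935136)) (.cons (.br (nat_lit 13) (nat_lit 0) (.cons (.rf (nat_lit 346) (nat_lit 583706118939841765935136))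 (.cons (.rf (nat_lit 349) (nat_lit 583706118939841765935136)) (.cons (.rf (nat_lit 348) (nat_lit 21173223984251494897649696)) .nil)))) .nil)))) .nil)))) (.cons (.rf (nat_lit 357) (nat_lit 17022140995484340291616)) (.cons (.ev (nat_lit 158458742880167905549294371329) (nat_lit 2)) (.cons (.br (nat_lit 11) (nat_lit 0) (.cons (.rf (nat_lit 360) (nat_lit 583706118939841765935136)) (.cons (.rf (nat_lit 366) (nat_lit 583706118939841765935136)) (.cons (.rf (nat_lit 370) (nat_lit 583706118939841765935136)) (.cons (.br (nat_lit 11) (nat_lit 0) (.cons (.rf (nat_lit 360) (nat_lit 583706118939841765935136)) (.cons (.rf (nat_lit 366) (nat_lit 583706118939841765935136)) (.cons (.rf (nat_lit 370) (nat_lit 583706118939841765935136)) (.cons (.br (nat_lit 13) (nat_lit 0) (.cons (.rf (nat_lit 373) (nat_lit 677582165103132179601393696)) (.cons (.rf (nat_lit 375) (nat_lit 677582165103132179601393696)) (.cons (.rf (nat_lit 377) (nat_lit 677582165103132179601393696)) (.cons (.rf (nat_lit 377) (nat_lit 640105464695078675185502240)) .nil))))) .nil)))))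 .nil))))) .nil))))) .nil)))),
 (.br (nat_lit 13) (nat_lit 0) (.cons (.ev (nat_lit 40723894502351656609894977699841) (nat_lit 2)) (.cons (.ev (nat_lit 40723277959665135487705921290755) (nat_lit 2)) (.cons (.br (nat_lit 14) (nat_lit 0) (.cons (.br (nat_lit 15) (nat_lit 0) (.cons (.ev (nat_lit 2668881150725078724048494624476692993) (nat_lit 2)) (.cons (.br (nat_lit 16) (nat_lit 0) (.cons (.br (nat_lit 16) (nat_lit 0) .nil) .nil)) .nil))) (.cons (.br (nat_lit 15) (nat_lit 0) (.cons (.kr (nat_lit 40564821625154980078256675356673) (nat_lit 680564733841876936371626295790902706688) (nat_lit 0) (nat_lit 2)) (.cons (.br (nat_lit 15) (nat_lit 0) (.cons (.kr (nat_lit 40564821625154980078256675356673) (nat_lit 680564733841876936371626295790902706688) (nat_lit 0) (nat_lit 2)) .nil)) .nil))) (.cons (.br (nat_lit 15) (nat_lit 0) (.cons (.br (nat_lit 15) (nat_lit 0) (.cons (.ev (nat_lit 2668881150108536037815602828751863811) (nat_lit 2)) .nil)) (.cons (.br (nat_lit 15) (nat_lit 0) (.cons (.ev (nat_lit 2668881150108536037815602828751863811)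 (nat_lit 2)) .nil)) .nil))) .nil)))) .nil)))),
 (.br (nat_lit 15) (nat_lit 0) (.cons (.kr (nat_lit 5192296858534827628530496329220096) (nat_lit 1329227995784915872903807060280344576) (nat_lit 14) (nat_lit 0)) (.cons (.ev (nat_lit 2668881309181403752721285008196829185) (nat_lit 2)) .nil)))]

theorem c13 : chkAll C T R L13 (nat_lit 359) = true := by decide +kernel

theorem l13 : (nat_lit 359) + L13.length = (nat_lit 381) := by decide +kernel

/-- part of the certificates -/
def L14 : List Prf := [(.br (nat_lit 14) (nat_lit 0) (.cons (.rf (nat_lit 380) (nat_lit 677582165103132179601393696)) (.cons (.rf (nat_lit 380) (nat_lit 640105428954512032373245984)) .nil))),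
 (.br (nat_lit 14) (nat_lit 0) (.cons (.rf (nat_lit 381) (nat_lit 677582165103132179601393696)) (.cons (.br (nat_lit 15) (nat_lit 0) (.cons (.kr (nat_lit 158458742880167905549260685313) (nat_lit 680564733841876936371626295790902706688) (nat_lit 0) (nat_lit 2)) (.cons (.kr (nat_lit 40564821625154980078256675356673) (nat_lit 174224571863520493302692676085992690549248) (nat_lit 0) (nat_lit 2)) .nil))) .nil))),
 (.br (nat_lit 13) (nat_lit 0) (.cons (.ev (nat_lit 10425316995019838909929633087619073) (nat_lit 2)) (.cons (.ev (nat_lit 51963854650024183177297727456871951) (nat_lit 4)) (.cons (.br (nat_lit 15) (nat_lit 0) (.cons (.br (nat_lit 15) (nat_lit 0) (.cons (.ev (nat_lit 1329248278505213478733992373178662913) (nat_lit 1)) .nil)) (.cons (.br (nat_lit 15) (nat_lit 0) (.cons (.ev (nat_lit 1329248278505213478733992373178662913) (nat_lit 1)) .nil)) .nil))) .nil)))),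
 (.br (nat_lit 14) (nat_lit 0) (.cons (.ev (nat_lit 10425316995019838909929633087619073) (nat_lit 2)) (.cons (.ev (nat_lit 2668840585286901437958448042756735490) (nat_lit 2)) (.cons (.rf (nat_lit 383) (nat_lit 16299852346311160286419171)) (.cons (.br (nat_lit 13) (nat_lit 0) (.cons (.br (nat_lit 15) (nat_lit 0) (.cons (.ev (nat_lit 1329248278194524246940713881471877376) (nat_lit 1)) (.cons (.ev (nat_lit 2668840585289328734330639737549947395) (nat_lit 2)) .nil))) (.cons (.zr (nat_lit 40881731876249864136344328994823) (nat_lit 10384593719487544078290253883966464) (nat_lit 16) (nat_lit 2)) .nil))) .nil))))),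
 (.br (nat_lit 13) (nat_lit 0) (.cons (.ev (nat_lit 51963854650024183177297727456871951) (nat_lit 4)) (.cons (.rf (nat_lit 384) (nat_lit 19926519232773908561233952)) (.cons (.br (nat_lit 14) (nat_lit 0) (.cons (.br (nat_lit 15) (nat_lit 0) (.cons (.ev (nat_lit 680575118594669301111948211367964704771) (nat_lit 2)) (.cons (.ev (nat_lit 1329248278505213478734273852450275328) (nat_lit 1)) .nil))) (.cons (.ev (nat_lit 680616657128612893892263208266295217666) (nat_lit 4)) (.cons (.ev (nat_lit 10425317611581488395729202231509507) (nat_lit 2)) .nil)))) .nil)))),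
 (.br (nat_lit 13) (nat_lit 0) (.cons (.rf (nat_lit 383) (nat_lit 19926519232773908561233952)) (.cons (.rf (nat_lit 384) (nat_lit 19926519232773908561233952)) (.cons (.rf (nat_lit 385) (nat_lit 19926519232773908561233952)) (.cons (.br (nat_lit 13) (nat_lit 0) (.cons (.rf (nat_lit 383) (nat_lit 19926519232773908561233952)) (.cons (.rf (nat_lit 384) (nat_lit 19926519232773908561233952)) (.cons (.rf (nat_lit 385) (nat_lit 19926519232773908561233952)) .nil)))) .nil))))),
 (.br (nat_lit 14) (nat_lit 0) (.cons (.ev (nat_lit 5212579268143201665718788202430721) (nat_lit 1)) (.cons (.br (nat_lit 15) (nat_lit 0) (.cons (.kr (nat_lit 40565438177322983538036247101441) (nat_lit 680564733841876926963642704110483931136) (nat_lit 0) (nat_lit 1)) (.cons (.ev (nat_lit 2668840744364623745608520217548489216) (nat_lit 2)) .nil))) (.cons (.br (nat_lit 15) (nat_lit 0) (.cons (.ev (nat_lit 2668840744364623745608520217548489216) (nat_lit 2)) (.cons (.kr (nat_lit 158458742880167905549260685313) (nat_lit 174224571863520493302692676085992690549248)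 (nat_lit 0) (nat_lit 2)) .nil))) .nil)))),
 (.br (nat_lit 13) (nat_lit 0) (.cons (.rf (nat_lit 387) (nat_lit 677582165103132179601393696)) (.cons (.br (nat_lit 14) (nat_lit 0) (.cons (.br (nat_lit 15) (nat_lit 0) (.cons (.ev (nat_lit 3402865410412079742148981685481139339789) (nat_lit 4)) (.cons (.ev (nat_lit 2668840743743226466631238409364111362) (nat_lit 2)) .nil))) (.cons (.ev (nat_lit 5212579268143201665437317520752896) (nat_lit 1)) (.cons (.br (nat_lit 17) (nat_lit 0) (.cons (.kr (nat_lit 158458742880167905549260685313) (nat_lit 174224571863520493302692676085992690549248) (nat_lit 0) (nat_lit 2)) (.cons (.ev (nat_lit 87452573491057271812151533460928243761408) (nat_lit 1)) .nil))) .nil)))) (.cons (.br (nat_lit 14) (nat_lit 0) (.cons (.br (nat_lit 17) (nat_lit 0) (.cons (.ev (nat_lit 87113615180117669333385176612701227515905) (nat_lit 1)) (.cons (.ev (nat_lit 522673736359907994149916329656970528423939) (nat_lit 3)) .nil))) (.cons (.br (nat_lit 16) (nat_lit 0) (.cons (.rf (nat_lit 387) (nat_lit 673955498216669431326578915))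 (.cons (.kr (nat_lit 40565438177322983538036247101441) (nat_lit 680564733841876926963642704110483931136) (nat_lit 0) (nat_lit 1)) .nil))) (.cons (.ev (nat_lit 5212579268143201665437317520752896) (nat_lit 1)) .nil)))) .nil)))),
 (.br (nat_lit 13) (nat_lit 0) (.cons (.rf (nat_lit 388) (nat_lit 677582165103132179601393696)) (.cons (.rf (nat_lit 388) (nat_lit 677545566762889939850987552)) (.cons (.br (nat_lit 16) (nat_lit 0) (.cons (.rf (nat_lit 388) (nat_lit 673955498216669431326578915)) (.cons (.rf (nat_lit 388) (nat_lit 673918899876427191576172771)) (.cons (.ev (nat_lit 174224571944809207002939835474656121454597) (nat_lit 3)) .nil)))) .nil)))),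
 (.br (nat_lit 11) (nat_lit 0) (.cons (.br (nat_lit 12) (nat_lit 0) (.cons (.ev (nat_lit 159075295048171646803842892289) (nat_lit 2)) (.cons (.rf (nat_lit 379) (nat_lit 583706118939841765935136)) (.cons (.rf (nat_lit 379) (nat_lit 547107778697602015528992)) (.cons (.br (nat_lit 13) (nat_lit 0) (.cons (.rf (nat_lit 379) (nat_lit 583670378373198953678880)) (.cons (.rf (nat_lit 379) (nat_lit 547072038130959203272736)) (.cons (.ev (nat_lit 40723894502351656609894977699841) (nat_lit 2)) (.cons (.br (nat_lit 14) (nat_lit 0) (.cons (.rf (nat_lit 381) (nat_lit 677582165103132179601393696)) (.cons (.rf (nat_lit 382) (nat_lit 677582165103132179601393696)) (.cons (.rf (nat_lit 382) (nat_lit 640105428954512032373245984)) .nil)))) .nil))))) .nil))))) (.cons (.rf (nat_lit 378) (nat_lit 459162576999368628451)) (.cons (.rf (nat_lit 378) (nat_lit 460315498503975475427)) (.cons (.br (nat_lit 12) (nat_lit 0) (.cons (.ev (nat_lit 158456325065566563296144982018) (nat_lit 2)) (.cons (.rf (nat_lit 386) (nat_lit 19926519232773908561233952)) (.cons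 (.rf (nat_lit 386) (nat_lit 19889920892531668810827808)) (.cons (.ev (nat_lit 159075295048171646803842892289) (nat_lit 2)) (.cons (.br (nat_lit 13) (nat_lit 0) (.cons (.rf (nat_lit 388) (nat_lit 677582165103132179601393696)) (.cons (.rf (nat_lit 388) (nat_lit 677545566762889939850987552)) (.cons (.rf (nat_lit 389) (nat_lit 677582165103132179601393696)) (.cons (.br (nat_lit 13) (nat_lit 0) (.cons (.rf (nat_lit 388) (nat_lit 677582165103132179601393696)) (.cons (.rf (nat_lit 388) (nat_lit 677545566762889939850987552)) (.cons (.rf (nat_lit 389) (nat_lit 677582165103132179601393696)) .nil)))) .nil))))) .nil)))))) .nil))))),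
 (.br (nat_lit 11) (nat_lit 0) (.cons (.kr (nat_lit 618970019642971612426338304) (nat_lit 2417851639230357877817344) (nat_lit 2) (nat_lit 0)) (.cons (.rf (nat_lit 378) (nat_lit 459162576999368628451)) (.cons (.rf (nat_lit 378) (nat_lit 496056065146787731683)) (.cons (.rf (nat_lit 378) (nat_lit 569843041441625938147)) .nil))))),
 (.br (nat_lit 15) (nat_lit 0) (.cons (.ev (nat_lit 2668840585289328734330639737549947395) (nat_lit 2)) (.cons (.zr (nat_lit 4003260877930366287359378134587671296) (nat_lit 40724205196287153454400506232834) (nat_lit 8) (nat_lit 10)) .nil))),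
 (.br (nat_lit 14) (nat_lit 0) (.cons (.br (nat_lit 15) (nat_lit 0) (.cons (.ev (nat_lit 683233655715260995259828802635719508481) (nat_lit 3)) (.cons (.ev (nat_lit 1329248278505213478734273852450275328) (nat_lit 1)) .nil))) (.cons (.ev (nat_lit 2041725436753333063891528729796282746372) (nat_lit 3)) (.cons (.br (nat_lit 16) (nat_lit 0) (.cons (.ev (nat_lit 340287559218107692245091124278489776385) (nat_lit 1)) (.cons (.kr (nat_lit 159075295048171365328832430081) (nat_lit 174224571863520493293284692494312271773696) (nat_lit 0) (nat_lit 1)) .nil))) .nil)))),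
 (.br (nat_lit 13) (nat_lit 0) (.cons (.ev (nat_lit 5192376086702064259632434495095041) (nat_lit 1)) (.cons (.br (nat_lit 14) (nat_lit 0) (.cons (.ev (nat_lit 2668881308564861066200162819140420099) (nat_lit 2)) (.cons (.rf (nat_lit 392) (nat_lit 677582165103132179601393696)) (.cons (.rf (nat_lit 392) (nat_lit 640105464695078675185502240)) .nil)))) (.cons (.rf (nat_lit 393) (nat_lit 677582165103132179601393696)) (.cons (.rf (nat_lit 393) (nat_lit 640105464695078675185502240)) .nil))))),
 (.br (nat_lit 13) (nat_lit 0) (.cons (.rf (nat_lit 394) (nat_lit 677582129362565536789137440)) (.cons (.rf (nat_lit 394) (nat_lit 677545531022323297038731296)) (.cons (.kr (nat_lit 79228162514264337593543950336) (nat_lit 20282409603651670423947251286016) (nat_lit 12) (nat_lit 0)) (.cons (.ev (nat_lit 40723894502351656609894977699841) (nat_lit 2)) .nil))))),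
 (.br (nat_lit 12) (nat_lit 0) (.cons (.rf (nat_lit 394) (nat_lit 677582165103132179601393696)) (.cons (.rf (nat_lit 394) (nat_lit 677545566762889939850987552)) (.cons (.rf (nat_lit 395) (nat_lit 677582165103132179601393696)) (.cons (.rf (nat_lit 395) (nat_lit 640105464695078675185502240)) .nil))))),
 (.br (nat_lit 15) (nat_lit 0) (.cons (.ev (nat_lit 3418836916179029825857223538362267733505) (nat_lit 4)) (.cons (.ev (nat_lit 1329248278505213478733992373178662913) (nat_lit 1)) .nil))),
 (.br (nat_lit 13) (nat_lit 0) (.cons (.ev (nat_lit 2668881308564861066200162819140420099) (nat_lit 2)) (.cons (.rf (nat_lit 397) (nat_lit 677582165103132179601393696)) (.cons (.rf (nat_lit 397) (nat_lit 640105464695078675185502240)) .nil)))),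
 (.br (nat_lit 13) (nat_lit 0) (.cons (.rf (nat_lit 398) (nat_lit 677545566762889939850987552)) (.cons (.zr (nat_lit 680564734158789605318005467953141645318) (nat_lit 10384593721905395573404328469266944) (nat_lit 16) (nat_lit 2)) (.cons (.br (nat_lit 13) (nat_lit 0) (.cons (.ev (nat_lit 5212579578832433458997288499150848) (nat_lit 1)) (.cons (.ev (nat_lit 680575138798163858740626281968366125315) (nat_lit 2)) .nil))) .nil)))),
 (.br (nat_lit 16) (nat_lit 0) (.cons (.br (nat_lit 13) (nat_lit 0) (.cons (.ev (nat_lit 40723275532368763296011128078850) (nat_lit 2)) (.cons (.ev (nat_lit 40723277959665135487705921290755) (nat_lit 2)) (.cons (.br (nat_lit 14) (nat_lit 0) (.cons (.ev (nat_lit 5212579578832433458997288499150848) (nat_lit 1)) (.cons (.ev (nat_lit 1049430871670194984122033855606448861023745) (nat_lit 4)) .nil))) .nil)))) (.cons (.ev (nat_lit 5192376086702064259350963813417216) (nat_lit 1)) (.cons (.br (nat_lit 13) (nat_lit 0) (.cons (.ev (nat_lit 3402844438872195031140760023068146273795) (nat_lit 4)) (.cons (.br (nat_lit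 13) (nat_lit 0) (.cons (.ev (nat_lit 3418836875772666943582411365654853062145) (nat_lit 4)) (.cons (.ev (nat_lit 683223210196016620831176835096268374275) (nat_lit 2)) .nil))) (.cons (.br (nat_lit 13) (nat_lit 0) (.cons (.ev (nat_lit 3402844438872195031140757771302692851211) (nat_lit 4)) (.cons (.ev (nat_lit 683223210196016620831176835096268374275) (nat_lit 2)) .nil))) .nil)))) (.cons (.rf (nat_lit 396) (nat_lit 518004108991556433635973347)) .nil))))),
 (.br (nat_lit 12) (nat_lit 0) (.cons (.rf (nat_lit 396) (nat_lit 677582165103132179601393696)) (.cons (.br (nat_lit 14) (nat_lit 0) (.cons (.rf (nat_lit 398) (nat_lit 677582165103132179601393696)) (.cons (.ev (nat_lit 5192376086702064259632434495095041) (nat_lit 1)) (.cons (.rf (nat_lit 399) (nat_lit 677582165103132179601393696)) (.cons (.rf (nat_lit 399) (nat_lit 640105464695078675185502240)) .nil))))) (.cons (.rf (nat_lit 400) (nat_lit 677582165103132179601393696)) (.cons (.rf (nat_lit 400) (nat_lit 640105464695078675185502240)) .nil))))),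
 (.br (nat_lit 9) (nat_lit 0) (.cons (.ev (nat_lit 144116300489293825) (nat_lit 2)) (.cons (.ev (nat_lit 4722366483969173684481) (nat_lit 1)) (.cons (.br (nat_lit 7) (nat_lit 0) (.cons (.br (nat_lit 8) (nat_lit 0) (.cons (.ev (nat_lit 9481626454990533034499) (nat_lit 2)) (.cons (.br (nat_lit 10) (nat_lit 0) (.cons (.rf (nat_lit 273) (nat_lit 407901468851537952)) (.cons (.br (nat_lit 10) (nat_lit 0) (.cons (.rf (nat_lit 273) (nat_lit 407901468851537952)) (.cons (.br (nat_lit 11) (nat_lit 0) (.cons (.rf (nat_lit 280) (nat_lit 493858305440582043680)) (.cons (.rf (nat_lit 280) (nat_lit 458117738797769787424)) (.cons (.br (nat_lit 11) (nat_lit 0) (.cons (.rf (nat_lit 280) (nat_lit 493858305440582043680)) (.cons (.rf (nat_lit 280) (nat_lit 458117738797769787424)) (.cons (.br (nat_lit 12) (nat_lit 0) (.cons (.rf (nat_lit 285) (nat_lit 583706118939841765935136)) (.cons (.rf (nat_lit 291) (nat_lit 583706118939841765935136)) (.cons (.rf (nat_lit 291) (nat_lit 547107778697602015528992)) (.cons (.br (nat_lit 12) (nat_lit 0) (.cons (.rf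 (nat_lit 285) (nat_lit 583706118939841765935136)) (.cons (.rf (nat_lit 291) (nat_lit 583706118939841765935136)) (.cons (.rf (nat_lit 291) (nat_lit 547107778697602015528992)) (.cons (.br (nat_lit 13) (nat_lit 0) (.cons (.rf (nat_lit 291) (nat_lit 583670378373198953678880)) (.cons (.rf (nat_lit 291) (nat_lit 547072038130959203272736)) (.cons (.rf (nat_lit 293) (nat_lit 677582165103132179601393696)) (.cons (.rf (nat_lit 293) (nat_lit 640105464695078675185502240)) .nil))))) .nil))))) .nil))))) .nil)))) .nil)))) .nil))) .nil))) .nil))) (.cons (.ev (nat_lit 4722438540463699984384) (nat_lit 1)) (.cons (.br (nat_lit 8) (nat_lit 0) (.cons (.rf (nat_lit 322) (nat_lit 407901468851537952)) (.cons (.rf (nat_lit 343) (nat_lit 407901468851537952)) (.cons (.br (nat_lit 8) (nat_lit 0) (.cons (.rf (nat_lit 322) (nat_lit 407901468851537952)) (.cons (.rf (nat_lit 343) (nat_lit 407901468851537952)) (.cons (.br (nat_lit 10) (nat_lit 0) (.cons (.rf (nat_lit 322) (nat_lit 299818165843532003)) (.cons (.rf (nat_lit 378) (nat_lit 493858305440582043680))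 (.cons (.rf (nat_lit 378) (nat_lit 458117738797769787424)) (.cons (.br (nat_lit 10) (nat_lit 0) (.cons (.rf (nat_lit 322) (nat_lit 299818165843532003)) (.cons (.rf (nat_lit 378) (nat_lit 493858305440582043680)) (.cons (.rf (nat_lit 378) (nat_lit 458117738797769787424)) (.cons (.br (nat_lit 11) (nat_lit 0) (.cons (.rf (nat_lit 390) (nat_lit 583706118939841765935136)) (.cons (.rf (nat_lit 390) (nat_lit 583670378373198953678880)) (.cons (.rf (nat_lit 391) (nat_lit 17022140995484340291616)) (.cons (.rf (nat_lit 391) (nat_lit 18202732616201751595040)) (.cons (.br (nat_lit 11) (nat_lit 0) (.cons (.rf (nat_lit 390) (nat_lit 583706118939841765935136)) (.cons (.rf (nat_lit 390) (nat_lit 583670378373198953678880)) (.cons (.rf (nat_lit 378) (nat_lit 606736529589045041379)) (.cons (.rf (nat_lit 378) (nat_lit 607889451093651888355)) (.cons (.br (nat_lit 14) (nat_lit 0) (.cons (.rf (nat_lit 401) (nat_lit 677582165103132179601393696)) (.cons (.rf (nat_lit 401) (nat_lit 677582129362565536789137440)) (.cons (.br (nat_lit 14) (nat_lit 0) (.cons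 (.rf (nat_lit 401) (nat_lit 677582165103132179601393696)) (.cons (.rf (nat_lit 401) (nat_lit 677582129362565536789137440)) (.cons (.rf (nat_lit 401) (nat_lit 518004108991556433635973347)) (.cons (.rf (nat_lit 401) (nat_lit 518004073250989790823717091)) .nil))))) (.cons (.rf (nat_lit 401) (nat_lit 518004108991556433635973347)) (.cons (.rf (nat_lit 401) (nat_lit 518004073250989790823717091)) .nil)))))) .nil)))))) .nil)))))) .nil))))) .nil))))) .nil)))) .nil)))) .nil)))) .nil))))]

theorem c14 : chkAll C T R L14 (nat_lit 381) = true := by decide +kernel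

theorem l14 : (nat_lit 381) + L14.length = (nat_lit 403) := by decide +kernel

/-- part of the certificates -/
def L15 : List Prf := [(.br (nat_lit 12) (nat_lit 0) (.cons (.br (nat_lit 12) (nat_lit 0) .nil) .nil)),
 (.br (nat_lit 14) (nat_lit 0) (.cons (.br (nat_lit 15) (nat_lit 0) (.cons (.ev (nat_lit 2668840585908298753973049499551138307) (nat_lit 2)) (.cons (.rf (nat_lit 403) (nat_lit 646192708113796405313)) .nil))) .nil)),
 (.br (nat_lit 15) (nat_lit 0) (.cons (.ev (nat_lit 1344865813747162558128278241093419779) (nat_lit 2)) .nil)),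
 (.br (nat_lit 12) (nat_lit 0) (.cons (.br (nat_lit 13) (nat_lit 0) (.cons (.ev (nat_lit 40723275532332014202323443122179) (nat_lit 2)) (.cons (.br (nat_lit 14) (nat_lit 0) (.cons (.rf (nat_lit 404) (nat_lit 583706118939841765935136)) (.cons (.br (nat_lit 14) (nat_lit 0) (.cons (.rf (nat_lit 404) (nat_lit 583706118939841765935136)) (.cons (.br (nat_lit 15) (nat_lit 0) (.cons (.rf (nat_lit 405) (nat_lit 677582165103132179601393696)) (.cons (.rf (nat_lit 405) (nat_lit 640105464695078675185502240)) .nil))) .nil))) .nil))) .nil))) .nil)),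
 (.br (nat_lit 15) (nat_lit 0) (.cons (.br (nat_lit 16) (nat_lit 0) (.cons (.ev (nat_lit 88137125929169845181655732937038709850882) (nat_lit 2)) .nil)) .nil)),
 (.br (nat_lit 13) (nat_lit 0) (.cons (.ev (nat_lit 20839174368913480043955939772162) (nat_lit 3)) (.cons (.br (nat_lit 14) (nat_lit 0) (.cons (.ev (nat_lit 10385070942973726562923277535412743) (nat_lit 3)) (.cons (.ev (nat_lit 10506288181954638718924456307328003) (nat_lit 3)) (.cons (.br (nat_lit 15) (nat_lit 0) (.cons (.rf (nat_lit 407) (nat_lit 677582165103132179601393696)) (.cons (.br (nat_lit 15) (nat_lit 0) (.cons (.rf (nat_lit 407) (nat_lit 677582165103132179601393696)) .nil)) .nil))) .nil)))) .nil))),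
 (.br (nat_lit 14) (nat_lit 0) (.cons (.kr (nat_lit 20282409603651670423947251286016) (nat_lit 5192296858534827628530496329220096) (nat_lit 13) (nat_lit 0)) (.cons (.ev (nat_lit 5212658497509919454965359865495808) (nat_lit 1)) .nil))),
 (.br (nat_lit 13) (nat_lit 0) (.cons (.rf (nat_lit 409) (nat_lit 19926519232773908561233952)) (.cons (.rf (nat_lit 409) (nat_lit 18755372345022236548237344)) .nil))),
 (.br (nat_lit 14) (nat_lit 0) (.cons (.rf (nat_lit 410) (nat_lit 21174442659472880611461152)) (.cons (.br (nat_lit 16) (nat_lit 0) (.cons (.br (nat_lit 15) (nat_lit 0) (.cons (.ev (nat_lit 1334420371872826863054830243028205568) (nat_lit 1)) .nil)) (.cons (.kr (nat_lit 340282366920938463463374607431768211456) (nat_lit 87112285931760246646623899502532662132736) (nat_lit 16) (nat_lit 0)) .nil))) .nil))),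
 (.br (nat_lit 10) (nat_lit 0) (.cons (.ev (nat_lit 7263073439319780141171715) (nat_lit 3)) (.cons (.br (nat_lit 11) (nat_lit 0) (.cons (.ev (nat_lit 621397352908374386332008963) (nat_lit 2)) (.cons (.br (nat_lit 12) (nat_lit 0) (.cons (.rf (nat_lit 406) (nat_lit 493858305440582043680)) (.cons (.br (nat_lit 12) (nat_lit 0) (.cons (.rf (nat_lit 406) (nat_lit 493858305440582043680)) (.cons (.br (nat_lit 13) (nat_lit 0) (.cons (.rf (nat_lit 408) (nat_lit 583706118939841765935136)) (.cons (.rf (nat_lit 408) (nat_lit 547107778697602015528992)) (.cons (.br (nat_lit 13) (nat_lit 0) (.cons (.rf (nat_lit 408) (nat_lit 583706118939841765935136)) (.cons (.rf (nat_lit 408) (nat_lit 547107778697602015528992)) (.cons (.br (nat_lit 14) (nat_lit 0) (.cons (.rf (nat_lit 410) (nat_lit 21174442659472880611461152)) (.cons (.rf (nat_lit 411) (nat_lit 677582165103132179601393696)) (.cons (.rf (nat_lit 411) (nat_lit 640105464695078675185502240)) .nil)))) .nil)))) .nil)))) .nil))) .nil))) .nil))) .nil))),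
 (.br (nat_lit 12) (nat_lit 0) (.cons (.br (nat_lit 12) (nat_lit 0) .nil) .nil)),
 (.br (nat_lit 12) (nat_lit 0) (.cons (.br (nat_lit 12) (nat_lit 0) .nil) .nil)),
 (.br (nat_lit 13) (nat_lit 0) (.cons (.br (nat_lit 14) (nat_lit 0) (.cons (.ev (nat_lit 10425158536276958742588129013661699) (nat_lit 2)) (.cons (.br (nat_lit 15) (nat_lit 0) (.cons (.ev (nat_lit 1334440575054268000460917700525359105) (nat_lit 1)) (.cons (.rf (nat_lit 413) (nat_lit 646192708113796405313)) .nil))) .nil))) (.cons (.br (nat_lit 14) (nat_lit 0) (.cons (.br (nat_lit 15) (nat_lit 0) (.cons (.ev (nat_lit 1334440575362539380470851745806876928) (nat_lit 1)) (.cons (.rf (nat_lit 414) (nat_lit 646192708113796405313)) .nil))) (.cons (.ev (nat_lit 10425158536276958742588129013661699) (nat_lit 2)) (.cons (.br (nat_lit 15) (nat_lit 0) (.cons (.br (nat_lit 15) (nat_lit 0) (.cons (.ev (nat_lit 1365716605880439107115490882745730049) (nat_lit 3)) .nil)) (.cons (.br (nat_lit 15) (nat_lit 0) (.cons (.ev (nat_lit 1365716605880439107115490882745730049) (nat_lit 3))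 .nil)) .nil))) .nil)))) .nil))),
 (.br (nat_lit 14) (nat_lit 0) (.cons (.ev (nat_lit 10425159157674311506846232036246017) (nat_lit 2)) (.cons (.br (nat_lit 15) (nat_lit 0) (.cons (.ev (nat_lit 688540101818443351223391202826128852485) (nat_lit 3)) (.cons (.ev (nat_lit 1334440575362539380470850650606993665) (nat_lit 1)) .nil))) .nil))),
 (.br (nat_lit 13) (nat_lit 0) (.cons (.rf (nat_lit 415) (nat_lit 583706118939841765935136)) (.cons (.br (nat_lit 14) (nat_lit 0) (.cons (.ev (nat_lit 2658456150647554127244663693980598787) (nat_lit 2)) (.cons (.rf (nat_lit 416) (nat_lit 19926519232773908561233952)) (.cons (.br (nat_lit 14) (nat_lit 0) (.cons (.ev (nat_lit 2658456150647554127244663693980598787) (nat_lit 2)) (.cons (.rf (nat_lit 416) (nat_lit 19926519232773908561233952)) .nil))) .nil)))) .nil))),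
 (.br (nat_lit 15) (nat_lit 0) (.cons (.ev (nat_lit 688540101816593685237611377005359662083) (nat_lit 3)) (.cons (.ev (nat_lit 1334440575054268000460916596735541248) (nat_lit 1)) .nil))),
 (.br (nat_lit 14) (nat_lit 0) (.cons (.rf (nat_lit 418) (nat_lit 677582165103132179601393696)) (.cons (.rf (nat_lit 418) (nat_lit 640105464695078675185502240)) .nil))),
 (.br (nat_lit 14) (nat_lit 0) (.cons (.rf (nat_lit 419) (nat_lit 677582165103132179601393696)) (.cons (.ev (nat_lit 10425159157674311506846232036246017) (nat_lit 2)) .nil))),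
 (.br (nat_lit 11) (nat_lit 0) (.cons (.zr (nat_lit 309485065161577302738337795) (nat_lit 1213648258718042811400448) (nat_lit 8) (nat_lit 1)) (.cons (.br (nat_lit 12) (nat_lit 0) (.cons (.ev (nat_lit 79229376162522774165690253313) (nat_lit 1)) (.cons (.ev (nat_lit 79537647542532708210971771136) (nat_lit 1)) (.cons (.br (nat_lit 13) (nat_lit 0) (.cons (.rf (nat_lit 415) (nat_lit 583706118939841765935136)) (.cons (.rf (nat_lit 417) (nat_lit 583706118939841765935136)) (.cons (.br (nat_lit 13) (nat_lit 0) (.cons (.rf (nat_lit 415) (nat_lit 583706118939841765935136)) (.cons (.rf (nat_lit 417) (nat_lit 583706118939841765935136)) (.cons (.br (nat_lit 14) (nat_lit 0) (.cons (.rf (nat_lit 419) (nat_lit 677582165103132179601393696)) (.cons (.rf (nat_lit 420) (nat_lit 677582165103132179601393696)) (.cons (.rf (nat_lit 420) (nat_lit 640105464695078675185502240)) .nil)))) .nil)))) .nil)))) .nil)))) .nil))),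
 (.br (nat_lit 12) (nat_lit 0) (.cons (.br (nat_lit 12) (nat_lit 0) .nil) .nil)),
 (.br (nat_lit 12) (nat_lit 0) (.cons (.br (nat_lit 12) (nat_lit 0) .nil) .nil)),
 (.br (nat_lit 15) (nat_lit 0) (.cons (.ev (nat_lit 1329248357423890964730240828583248128) (nat_lit 1)) .nil)),
 (.br (nat_lit 13) (nat_lit 0) (.cons (.ev (nat_lit 10384752173394683929852480235634689) (nat_lit 2)) (.cons (.br (nat_lit 14) (nat_lit 0) (.cons (.ev (nat_lit 20809911333477476130500372332545543) (nat_lit 3)) (.cons (.br (nat_lit 15) (nat_lit 0) (.cons (.ev (nat_lit 8027494242771972855968535470601406477) (nat_lit 4)) (.cons (.rf (nat_lit 422) (nat_lit 646192708113796405313)) .nil))) .nil))) (.cons (.br (nat_lit 14) (nat_lit 0) (.cons (.br (nat_lit 15) (nat_lit 0) (.cons (.ev (nat_lit 2658496557010436402057399359938494977) (nat_lit 2)) (.cons (.rf (nat_lit 423) (nat_lit 646192708113796405313)) .nil))) (.cons (.br (nat_lit 15) (nat_lit 0) (.cons (.ev (nat_lit 340287559297334645833535846139069202688) (nat_lit 1)) (.cons (.br (nat_lit 15) (nat_lit 0) (.cons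 (.ev (nat_lit 340287559297334645833535847242859020545) (nat_lit 1)) .nil)) .nil))) (.cons (.br (nat_lit 15) (nat_lit 0) (.cons (.rf (nat_lit 424) (nat_lit 21174442659472880612542496)) (.cons (.br (nat_lit 15) (nat_lit 0) (.cons (.rf (nat_lit 424) (nat_lit 21174442659472880612542496)) .nil)) .nil))) .nil)))) .nil)))),
 (.br (nat_lit 14) (nat_lit 0) (.cons (.ev (nat_lit 10384752794792036694110566078349827) (nat_lit 2)) (.cons (.br (nat_lit 16) (nat_lit 0) (.cons (.br (nat_lit 15) (nat_lit 0) (.cons (.ev (nat_lit 4091395006574923644215308237614799785485) (nat_lit 4)) .nil)) (.cons (.ev (nat_lit 176266266065046131337101485969436074705923) (nat_lit 3)) .nil))) .nil))),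
 (.br (nat_lit 12) (nat_lit 0) (.cons (.rf (nat_lit 425) (nat_lit 583706118939841765935136)) (.cons (.rf (nat_lit 425) (nat_lit 547107778697602015528992)) (.cons (.br (nat_lit 13) (nat_lit 0) (.cons (.rf (nat_lit 425) (nat_lit 583670377282479052724260)) (.cons (.rf (nat_lit 425) (nat_lit 547072037040239302318116)) (.cons (.ev (nat_lit 20520094091231357209657420743170) (nat_lit 2)) (.cons (.br (nat_lit 14) (nat_lit 0) (.cons (.br (nat_lit 14) (nat_lit 0) (.cons (.ev (nat_lit 10384752794792036694110566078349827) (nat_lit 2)) (.cons (.ev (nat_lit 10425159157674311506846232036246017) (nat_lit 2)) .nil))) (.cons (.rf (nat_lit 426) (nat_lit 677582165103132179601393696)) (.cons (.rf (nat_lit 426) (nat_lit 640105428953421312472291364)) .nil)))) .nil))))) .nil)))),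
 (.br (nat_lit 12) (nat_lit 0) (.cons (.br (nat_lit 12) (nat_lit 0) .nil) .nil)),
 (.br (nat_lit 13) (nat_lit 0) (.cons (.zr (nat_lit 6813619256145337658479345689) (nat_lit 2668842169850151872115904414094463488) (nat_lit 64) (nat_lit 2)) (.cons (.br (nat_lit 15) (nat_lit 0) (.cons (.ev (nat_lit 2658496557010436402057399359938494977) (nat_lit 2)) (.cons (.rf (nat_lit 428) (nat_lit 646192708113796405313)) .nil))) .nil))),
 (.br (nat_lit 13) (nat_lit 0) (.cons (.ev (nat_lit 10425159157674311506846232036246017) (nat_lit 2)) (.cons (.br (nat_lit 15) (nat_lit 0) (.cons (.ev (nat_lit 4086057243957798776897593632249566594561) (nat_lit 4)) (.cons (.ev (nat_lit 8006562479143499535002433441365229569) (nat_lit 3)) .nil))) .nil))),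
 (.br (nat_lit 14) (nat_lit 0) (.cons (.rf (nat_lit 429) (nat_lit 583706118939841765935136)) (.cons (.ev (nat_lit 10384752173394683929852480235634689) (nat_lit 2)) (.cons (.br (nat_lit 13) (nat_lit 0) (.cons (.rf (nat_lit 429) (nat_lit 547107778697602015528992)) (.cons (.rf (nat_lit 430) (nat_lit 19926519232773908561233952)) (.cons (.br (nat_lit 13) (nat_lit 0) (.cons (.rf (nat_lit 428) (nat_lit 610417238573872027713)) (.cons (.rf (nat_lit 430) (nat_lit 19926519232773908561233952)) .nil))) .nil)))) .nil)))),
 (.br (nat_lit 15) (nat_lit 0) (.cons (.br (nat_lit 16) (nat_lit 0) (.cons (.ev (nat_lit 1363798348992940093420179483227307640327) (nat_lit 3)) .nil)) .nil)),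
 (.br (nat_lit 13) (nat_lit 0) (.cons (.ev (nat_lit 2689609772728303785018116878677181443) (nat_lit 3)) (.cons (.br (nat_lit 16) (nat_lit 0) (.cons (.ev (nat_lit 340287559297026374453525913188987568128) (nat_lit 1)) (.cons (.ev (nat_lit 340287579500516086970941652117294743808) (nat_lit 1)) .nil))) .nil))),
 (.br (nat_lit 13) (nat_lit 0) (.cons (.br (nat_lit 15) (nat_lit 0) (.cons (.ev (nat_lit 2658456150647554127244663693980598787) (nat_lit 2)) (.cons (.ev (nat_lit 1344865812817493861959343855466775040) (nat_lit 2)) .nil))) (.cons (.ev (nat_lit 10425159157674311506846232036246017) (nat_lit 2)) .nil))),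
 (.br (nat_lit 13) (nat_lit 0) (.cons (.rf (nat_lit 434) (nat_lit 677582165103132179601393696)) (.cons (.br (nat_lit 16) (nat_lit 0) (.cons (.ev (nat_lit 340287579500516086970941652117294743808) (nat_lit 1)) (.cons (.ev (nat_lit 340287559297026374453525913188987568128) (nat_lit 1)) .nil))) .nil))),
 (.br (nat_lit 12) (nat_lit 0) (.cons (.rf (nat_lit 427) (nat_lit 583706118939841765935136)) (.cons (.rf (nat_lit 431) (nat_lit 583706118939841765935136)) (.cons (.br (nat_lit 14) (nat_lit 0) (.cons (.br (nat_lit 13) (nat_lit 0) (.cons (.rf (nat_lit 431) (nat_lit 583670377282479052724260)) (.cons (.kr (nat_lit 158458742880167905544948940801) (nat_lit 40564819216748073813638104743936) (nat_lit 0) (nat_lit 1)) (.cons (.br (nat_lit 15) (nat_lit 0) (.cons (.rf (nat_lit 432) (nat_lit 677582165103132179601393696)) (.cons (.rf (nat_lit 432) (nat_lit 640105428953421312472291364)) .nil))) .nil)))) (.cons (.br (nat_lit 13) (nat_lit 0) (.cons (.ev (nat_lit 2689609772728303785018116878677181443) (nat_lit 3)) (.cons (.rf (nat_lit 433) (nat_lit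 19926519232773908561233952)) (.cons (.br (nat_lit 13) (nat_lit 0) (.cons (.ev (nat_lit 2689609772728303785018116878677181443) (nat_lit 3)) (.cons (.rf (nat_lit 433) (nat_lit 19926519232773908561233952)) .nil))) .nil)))) (.cons (.ev (nat_lit 10384752173394683929852480235634689) (nat_lit 2)) (.cons (.br (nat_lit 13) (nat_lit 0) (.cons (.rf (nat_lit 434) (nat_lit 677582165103132179601393696)) (.cons (.rf (nat_lit 435) (nat_lit 677582165103132179601393696)) (.cons (.br (nat_lit 13) (nat_lit 0) (.cons (.ev (nat_lit 10425159157674311506846232036246017) (nat_lit 2)) (.cons (.rf (nat_lit 435) (nat_lit 677582165103132179601393696)) .nil))) .nil)))) .nil))))) .nil))))]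

theorem c15 : chkAll C T R L15 (nat_lit 403) = true := by decide +kernel

theorem l15 : (nat_lit 403) + L15.length = (nat_lit 437) := by decide +kernel

/-- part of the certificates -/
def L16 : List Prf := [(.br (nat_lit 13) (nat_lit 0) (.cons (.rf (nat_lit 436) (nat_lit 583670377282479052724260)) (.cons (.rf (nat_lit 436) (nat_lit 547072037040239302318116)) (.cons (.kr (nat_lit 158458742880167905544948940801) (nat_lit 40564819216748073813638104743936) (nat_lit 0) (nat_lit 1)) .nil)))),
 (.br (nat_lit 9) (nat_lit 0) (.cons (.kr (nat_lit 2417851639230357861040129) (nat_lit 9444732965743602171904) (nat_lit 0) (nat_lit 1)) (.cons (.rf (nat_lit 412) (nat_lit 407901468851537952)) (.cons (.br (nat_lit 10) (nat_lit 0) (.cons (.rf (nat_lit 412) (nat_lit 406810748950583332)) (.cons (.ev (nat_lit 7263073439319780141171715) (nat_lit 3)) (.cons (.br (nat_lit 11) (nat_lit 0) (.cons (.rf (nat_lit 421) (nat_lit 493858305440582043680)) (.cons (.rf (nat_lit 421) (nat_lit 458116648077868832804)) (.cons (.br (nat_lit 11) (nat_lit 0) (.cons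 (.rf (nat_lit 421) (nat_lit 493858305440582043680)) (.cons (.rf (nat_lit 421) (nat_lit 458116648077868832804)) (.cons (.br (nat_lit 12) (nat_lit 0) (.cons (.rf (nat_lit 427) (nat_lit 583706118939841765935136)) (.cons (.rf (nat_lit 436) (nat_lit 583706118939841765935136)) (.cons (.rf (nat_lit 436) (nat_lit 547107778697602015528992)) (.cons (.br (nat_lit 12) (nat_lit 0) (.cons (.rf (nat_lit 427) (nat_lit 583706118939841765935136)) (.cons (.rf (nat_lit 436) (nat_lit 583706118939841765935136)) (.cons (.rf (nat_lit 436) (nat_lit 547107778697602015528992)) (.cons (.br (nat_lit 13) (nat_lit 0) (.cons (.rf (nat_lit 436) (nat_lit 583670377282479052724260)) (.cons (.rf (nat_lit 436) (nat_lit 547072037040239302318116)) (.cons (.rf (nat_lit 437) (nat_lit 677582165103132179601393696)) (.cons (.rf (nat_lit 437) (nat_lit 640105464695078675185502240)) .nil))))) .nil))))) .nil))))) .nil)))) .nil)))) .nil)))) .nil)))),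
 (.br (nat_lit 14) (nat_lit 0) (.cons (.br (nat_lit 15) (nat_lit 0) (.cons (.ev (nat_lit 2668840585908298753973049499551138307) (nat_lit 2)) (.cons (.rf (nat_lit 403) (nat_lit 610417204455725538369)) .nil))) .nil)),
 (.br (nat_lit 15) (nat_lit 0) (.cons (.ev (nat_lit 1344865813747162558271830479249539329) (nat_lit 2)) .nil)),
 (.br (nat_lit 12) (nat_lit 0) (.cons (.br (nat_lit 13) (nat_lit 0) (.cons (.ev (nat_lit 40723275532332014202323443122179) (nat_lit 2)) (.cons (.br (nat_lit 14) (nat_lit 0) (.cons (.rf (nat_lit 439) (nat_lit 583706118939841765935136)) (.cons (.br (nat_lit 14) (nat_lit 0) (.cons (.rf (nat_lit 439) (nat_lit 583706118939841765935136)) (.cons (.br (nat_lit 15) (nat_lit 0) (.cons (.rf (nat_lit 440) (nat_lit 677582165103132179601393696)) (.cons (.rf (nat_lit 440) (nat_lit 640105464695078675185502240)) .nil))) .nil))) .nil))) .nil))) .nil)),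
 (.br (nat_lit 15) (nat_lit 0) (.cons (.br (nat_lit 16) (nat_lit 0) (.cons (.ev (nat_lit 88137125929169845181655732937038709850882) (nat_lit 2)) .nil)) .nil)),
 (.br (nat_lit 13) (nat_lit 0) (.cons (.kr (nat_lit 20282410817299928579040109134080) (nat_lit 79537647542532708210955059200) (nat_lit 1) (nat_lit 0)) (.cons (.br (nat_lit 14) (nat_lit 0) (.cons (.ev (nat_lit 10385707244172882936452645952553989) (nat_lit 4)) (.cons (.ev (nat_lit 10668547468474222614405614160577029) (nat_lit 4)) (.cons (.br (nat_lit 15) (nat_lit 0) (.cons (.rf (nat_lit 442) (nat_lit 677582165103132179601393696)) (.cons (.br (nat_lit 15) (nat_lit 0) (.cons (.rf (nat_lit 442) (nat_lit 677582165103132179601393696)) .nil)) .nil))) .nil)))) .nil))),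
 (.br (nat_lit 15) (nat_lit 0) (.cons (.kr (nat_lit 5192296858534827628530496329220096) (nat_lit 1329227995784915872903807060280344576) (nat_lit 14) (nat_lit 0)) (.cons (.ev (nat_lit 1334440575362539380542909344156549120) (nat_lit 1)) .nil))),
 (.br (nat_lit 14) (nat_lit 0) (.cons (.rf (nat_lit 444) (nat_lit 677582165103132179601393696)) (.cons (.rf (nat_lit 444) (nat_lit 640105464695078675185502240)) .nil))),
 (.br (nat_lit 14) (nat_lit 0) (.cons (.rf (nat_lit 445) (nat_lit 677582165103132179601393696)) (.cons (.br (nat_lit 16) (nat_lit 0) (.cons (.br (nat_lit 17) (nat_lit 0) (.cons (.ev (nat_lit 1334420371872826862983054123950145793) (nat_lit 1)) .nil)) (.cons (.ev (nat_lit 680575118436215393934914650242526872067) (nat_lit 2)) .nil))) .nil))),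
 (.br (nat_lit 14) (nat_lit 0) (.cons (.br (nat_lit 15) (nat_lit 0) (.cons (.ev (nat_lit 15971505139952872440293975943287537673) (nat_lit 4)) (.cons (.rf (nat_lit 403) (nat_lit 646192708078429997281)) .nil))) .nil)),
 (.br (nat_lit 15) (nat_lit 0) (.cons (.ev (nat_lit 15971587220329237070000687195246430221) (nat_lit 4)) .nil)),
 (.br (nat_lit 12) (nat_lit 0) (.cons (.br (nat_lit 13) (nat_lit 0) (.cons (.kr (nat_lit 159075295048171365328832430081) (nat_lit 40564819207340234337141450080256) (nat_lit 0) (nat_lit 1)) (.cons (.br (nat_lit 14) (nat_lit 0) (.cons (.rf (nat_lit 447) (nat_lit 583706118939841765935136)) (.cons (.br (nat_lit 14) (nat_lit 0) (.cons (.rf (nat_lit 447) (nat_lit 583706118939841765935136)) (.cons (.br (nat_lit 15) (nat_lit 0) (.cons (.rf (nat_lit 448) (nat_lit 677582165103132179601393696)) (.cons (.rf (nat_lit 448) (nat_lit 640105464695078675185502240)) .nil))) .nil))) .nil))) .nil))) .nil)),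
 (.br (nat_lit 15) (nat_lit 0) (.cons (.br (nat_lit 16) (nat_lit 0) (.cons (.zr (nat_lit 6651352637422094006340482431384027392) (nat_lit 262357704896043864815290090700510702141440) (nat_lit 8) (nat_lit 12)) .nil)) .nil)),
 (.br (nat_lit 13) (nat_lit 0) (.cons (.ev (nat_lit 82081009860981845587320623202309) (nat_lit 4)) (.cons (.br (nat_lit 14) (nat_lit 0) (.cons (.ev (nat_lit 41539010560160459171143626661694469) (nat_lit 4)) (.cons (.ev (nat_lit 41700638477935862370300892322857989) (nat_lit 4)) (.cons (.br (nat_lit 15) (nat_lit 0) (.cons (.rf (nat_lit 450) (nat_lit 677582165103132179601393696)) (.cons (.br (nat_lit 15) (nat_lit 0) (.cons (.rf (nat_lit 450) (nat_lit 677582165103132179601393696)) .nil)) .nil))) .nil)))) .nil))),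
 (.br (nat_lit 15) (nat_lit 0) (.cons (.ev (nat_lit 1361191775246689767840878845067728128001) (nat_lit 4)) (.cons (.ev (nat_lit 10675524602291016541652542772736035853) (nat_lit 4)) .nil))),
 (.br (nat_lit 14) (nat_lit 0) (.cons (.rf (nat_lit 452) (nat_lit 677582165103132179601393696)) (.cons (.rf (nat_lit 452) (nat_lit 640105464695078675185502240)) .nil))),
 (.br (nat_lit 14) (nat_lit 0) (.cons (.rf (nat_lit 453) (nat_lit 677582165103132179601393696)) (.cons (.br (nat_lit 16) (nat_lit 0) (.cons (.br (nat_lit 15) (nat_lit 0) (.cons (.ev (nat_lit 10675362979305733746349814779453506573) (nat_lit 4)) .nil)) (.cons (.ev (nat_lit 1361191775246689767840878845067728128001) (nat_lit 4)) .nil))) .nil))),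
 (.br (nat_lit 10) (nat_lit 0) (.cons (.ev (nat_lit 633496055838049384704641025) (nat_lit 4)) (.cons (.br (nat_lit 12) (nat_lit 0) (.cons (.rf (nat_lit 449) (nat_lit 493858305440582043680)) (.cons (.br (nat_lit 12) (nat_lit 0) (.cons (.rf (nat_lit 449) (nat_lit 493858305440582043680)) (.cons (.br (nat_lit 13) (nat_lit 0) (.cons (.rf (nat_lit 451) (nat_lit 583706118939841765935136)) (.cons (.rf (nat_lit 451) (nat_lit 547107778697602015528992)) (.cons (.br (nat_lit 13) (nat_lit 0) (.cons (.rf (nat_lit 451) (nat_lit 583706118939841765935136)) (.cons (.rf (nat_lit 451) (nat_lit 547107778697602015528992)) (.cons (.br (nat_lit 14) (nat_lit 0) (.cons (.rf (nat_lit 453) (nat_lit 677582165103132179601393696)) (.cons (.rf (nat_lit 454) (nat_lit 677582165103132179601393696)) (.cons (.rf (nat_lit 454) (nat_lit 640105464695078675185502240)) .nil)))) .nil)))) .nil)))) .nil))) .nil))) .nil))),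
 (.br (nat_lit 12) (nat_lit 0) (.cons (.br (nat_lit 12) (nat_lit 0) .nil) .nil)),
 (.br (nat_lit 14) (nat_lit 0) (.cons (.br (nat_lit 15) (nat_lit 0) (.cons (.ev (nat_lit 2689610089636118139228228391784546823) (nat_lit 3)) (.cons (.rf (nat_lit 456) (nat_lit 646192708113796405313)) .nil))) .nil)),
 (.br (nat_lit 15) (nat_lit 0) (.cons (.ev (nat_lit 1344865971584517530264324078588592384) (nat_lit 2)) .nil)),
 (.br (nat_lit 12) (nat_lit 0) (.cons (.br (nat_lit 12) (nat_lit 0) .nil) .nil)),
 (.br (nat_lit 15) (nat_lit 0) (.cons (.ev (nat_lit 13292402290464908781151728612888151053) (nat_lit 4)) (.cons (.rf (nat_lit 459) (nat_lit 646192708113796405313)) .nil))),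
 (.br (nat_lit 13) (nat_lit 0) (.cons (.br (nat_lit 14) (nat_lit 0) (.cons (.ev (nat_lit 10425158536276958742588129013661699) (nat_lit 2)) (.cons (.br (nat_lit 15) (nat_lit 0) (.cons (.ev (nat_lit 1334420372181098243137104461130891265) (nat_lit 1)) (.cons (.rf (nat_lit 414) (nat_lit 646191617364975623233)) .nil))) .nil))) (.cons (.br (nat_lit 14) (nat_lit 0) (.cons (.br (nat_lit 15) (nat_lit 0) (.cons (.ev (nat_lit 1329248357423895687024947574872211713) (nat_lit 1)) (.cons (.rf (nat_lit 413) (nat_lit 646191617364975623233)) .nil))) (.cons (.ev (nat_lit 10425158536276958742588129013661699) (nat_lit 2)) (.cons (.br (nat_lit 15) (nat_lit 0) (.cons (.br (nat_lit 15) (nat_lit 0) (.cons (.ev (nat_lit 2668881308562433733078314495298895873) (nat_lit 2)) .nil)) (.cons (.br (nat_lit 15) (nat_lit 0) (.cons (.ev (nat_lit 2668881308562433733078314495298895873) (nat_lit 2)) .nil)) .nil))) .nil)))) .nil))),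
 (.br (nat_lit 14) (nat_lit 0) (.cons (.ev (nat_lit 2658456150647554127244663693980598787) (nat_lit 2)) (.cons (.br (nat_lit 15) (nat_lit 0) (.cons (.ev (nat_lit 691198679506946703847980880372965704709) (nat_lit 4)) (.cons (.br (nat_lit 16) (nat_lit 0) (.cons (.ev (nat_lit 685892111549617296608850970304489588231) (nat_lit 3)) .nil)) .nil))) .nil))),
 (.br (nat_lit 13) (nat_lit 0) (.cons (.rf (nat_lit 461) (nat_lit 583706118939841765935136)) (.cons (.br (nat_lit 14) (nat_lit 0) (.cons (.ev (nat_lit 2658456150647554127244663693980598787) (nat_lit 2)) (.cons (.rf (nat_lit 462) (nat_lit 19926519232773908561233952)) (.cons (.br (nat_lit 14) (nat_lit 0) (.cons (.ev (nat_lit 2658456150647554127244663693980598787) (nat_lit 2)) (.cons (.rf (nat_lit 462) (nat_lit 19926519232773908561233952)) .nil))) .nil)))) .nil))),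
 (.br (nat_lit 16) (nat_lit 0) (.cons (.ev (nat_lit 1329248357423895687024947574872211713) (nat_lit 1)) (.cons (.ev (nat_lit 697578852310256465849970058893134918190093) (nat_lit 4)) .nil))),
 (.br (nat_lit 15) (nat_lit 0) (.cons (.ev (nat_lit 2047042267289924080608227262645865153027) (nat_lit 3)) (.cons (.rf (nat_lit 464) (nat_lit 677582165103132179601393696)) .nil))),
 (.br (nat_lit 14) (nat_lit 0) (.cons (.rf (nat_lit 465) (nat_lit 677582165103132179601393696)) (.cons (.rf (nat_lit 465) (nat_lit 640105464695078675185502240)) .nil))),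
 (.br (nat_lit 14) (nat_lit 0) (.cons (.rf (nat_lit 466) (nat_lit 677582165103132179601393696)) (.cons (.br (nat_lit 15) (nat_lit 0) (.cons (.rf (nat_lit 464) (nat_lit 640105464695078675185502240)) (.cons (.rf (nat_lit 464) (nat_lit 677582165103132179601393696)) .nil))) .nil))),
 (.br (nat_lit 10) (nat_lit 0) (.cons (.ev (nat_lit 633496055838049384704641025) (nat_lit 4)) (.cons (.br (nat_lit 11) (nat_lit 0) (.cons (.ev (nat_lit 79537647542604766904521326593) (nat_lit 1)) (.cons (.ev (nat_lit 621397352908937344875233793) (nat_lit 2)) (.cons (.br (nat_lit 12) (nat_lit 0) (.cons (.br (nat_lit 13) (nat_lit 0) (.cons (.kr (nat_lit 159075295048171365328832430081) (nat_lit 40564819207340234337141450080256) (nat_lit 0) (nat_lit 1)) (.cons (.br (nat_lit 14) (nat_lit 0) (.cons (.rf (nat_lit 457) (nat_lit 583706118939841765935136)) (.cons (.br (nat_lit 14) (nat_lit 0) (.cons (.rf (nat_lit 457) (nat_lit 583706118939841765935136)) (.cons (.br (nat_lit 15) (nat_lit 0) (.cons (.rf (nat_lit 458) (nat_lit 677582165103132179601393696)) (.cons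 (.rf (nat_lit 458) (nat_lit 640105464695078675185502240)) .nil))) .nil))) .nil))) .nil))) (.cons (.br (nat_lit 13) (nat_lit 0) (.cons (.ev (nat_lit 10384753418616686407024427701371397) (nat_lit 3)) (.cons (.br (nat_lit 13) (nat_lit 0) (.cons (.ev (nat_lit 10384753418616686407024427701371397) (nat_lit 3)) (.cons (.br (nat_lit 14) (nat_lit 0) (.cons (.rf (nat_lit 460) (nat_lit 19926519232773908561233952)) (.cons (.rf (nat_lit 460) (nat_lit 18755372345022236548237344)) (.cons (.br (nat_lit 15) (nat_lit 0) (.cons (.br (nat_lit 15) (nat_lit 0) (.cons (.ev (nat_lit 2668881308562433733078314495298895873) (nat_lit 2)) .nil)) (.cons (.br (nat_lit 15) (nat_lit 0) (.cons (.ev (nat_lit 2668881308562433733078314495298895873) (nat_lit 2)) .nil)) .nil))) .nil)))) .nil))) .nil))) (.cons (.br (nat_lit 13) (nat_lit 0) (.cons (.rf (nat_lit 461) (nat_lit 583706118939841765935136)) (.cons (.rf (nat_lit 463) (nat_lit 583706118939841765935136)) (.cons (.br (nat_lit 13) (nat_lit 0) (.cons (.rf (nat_lit 461) (nat_lit 583706118939841765935136)) (.cons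 (.rf (nat_lit 463) (nat_lit 583706118939841765935136)) (.cons (.br (nat_lit 14) (nat_lit 0) (.cons (.rf (nat_lit 466) (nat_lit 677582165103132179601393696)) (.cons (.rf (nat_lit 467) (nat_lit 677582165103132179601393696)) (.cons (.rf (nat_lit 467) (nat_lit 640105464695078675185502240)) .nil)))) .nil)))) .nil)))) .nil)))) .nil)))) .nil)))]

theorem c16 : chkAll C T R L16 (nat_lit 437) = true := by decide +kernel

theorem l16 : (nat_lit 437) + L16.length = (nat_lit 469) := by decide +kernel

/-- part of the certificates -/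
def L17 : List Prf := [(.br (nat_lit 14) (nat_lit 0) (.cons (.br (nat_lit 15) (nat_lit 0) (.cons (.ev (nat_lit 1334420372181098243137104461130891265) (nat_lit 1)) (.cons (.br (nat_lit 16) (nat_lit 0) (.cons (.br (nat_lit 16) (nat_lit 0) .nil) .nil)) .nil))) .nil)),
 (.br (nat_lit 15) (nat_lit 0) (.cons (.ev (nat_lit 1344865971584517530264324078588592384) (nat_lit 2)) .nil)),
 (.br (nat_lit 13) (nat_lit 0) (.cons (.ev (nat_lit 20282410817299856521450366238976) (nat_lit 1)) (.cons (.br (nat_lit 14) (nat_lit 0) (.cons (.rf (nat_lit 469) (nat_lit 583706118939841765935136)) (.cons (.br (nat_lit 14) (nat_lit 0) (.cons (.rf (nat_lit 469) (nat_lit 583706118939841765935136)) (.cons (.br (nat_lit 15) (nat_lit 0) (.cons (.rf (nat_lit 470) (nat_lit 677582165103132179601393696)) (.cons (.rf (nat_lit 470) (nat_lit 640105464695078675185502240)) .nil))) .nil))) .nil))) .nil))),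
 (.br (nat_lit 15) (nat_lit 0) (.cons (.ev (nat_lit 79537647542604485433839648768) (nat_lit 1)) (.cons (.kr (nat_lit 2658455991572249597446844478421729281) (nat_lit 40564819216748073813638104743936) (nat_lit 0) (nat_lit 1)) (.cons (.ev (nat_lit 2668881308562433733078314495298895873) (nat_lit 2)) .nil)))),
 (.br (nat_lit 13) (nat_lit 0) (.cons (.ev (nat_lit 122487989286016673687477517028869) (nat_lit 4)) (.cons (.br (nat_lit 14) (nat_lit 0) (.cons (.ev (nat_lit 31154574682873072422326771984633349) (nat_lit 4)) (.cons (.kr (nat_lit 20282409603651670423947251286016) (nat_lit 5192296858534827628530496329220096) (nat_lit 13) (nat_lit 0)) (.cons (.br (nat_lit 15) (nat_lit 0) (.cons (.rf (nat_lit 472) (nat_lit 677582165103132179601393696)) (.cons (.rf (nat_lit 472) (nat_lit 640104320996946105193302048)) .nil))) .nil)))) .nil))),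
 (.br (nat_lit 15) (nat_lit 0) (.cons (.ev (nat_lit 1334420371871617955609902093525123328) (nat_lit 1)) .nil)),
 (.br (nat_lit 13) (nat_lit 0) (.cons (.ev (nat_lit 122487989286016673687477517028869) (nat_lit 4)) (.cons (.br (nat_lit 15) (nat_lit 0) (.cons (.kr (nat_lit 79229376162522492686401798400) (nat_lit 1329227996094400901172177677691453440) (nat_lit 1) (nat_lit 0)) (.cons (.ev (nat_lit 13292401656639608667039279629989970949) (nat_lit 4)) (.cons (.br (nat_lit 14) (nat_lit 0) (.cons (.rf (nat_lit 474) (nat_lit 21174442659472880612542496)) (.cons (.br (nat_lit 14) (nat_lit 0) (.cons (.rf (nat_lit 474) (nat_lit 21174442659472880612542496)) .nil)) .nil))) .nil)))) .nil))),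
 (.br (nat_lit 14) (nat_lit 0) (.cons (.rf (nat_lit 475) (nat_lit 582562420807271773734944)) (.cons (.ev (nat_lit 10425159157674311506846232036246017) (nat_lit 2)) .nil))),
 (.br (nat_lit 13) (nat_lit 0) (.cons (.br (nat_lit 14) (nat_lit 0) (.cons (.ev (nat_lit 5212658497509919455245735313866753) (nat_lit 1)) (.cons (.rf (nat_lit 459) (nat_lit 608106891860910347457)) .nil))) .nil)),
 (.br (nat_lit 15) (nat_lit 0) (.cons (.ev (nat_lit 1344865971584517530264324078588592384) (nat_lit 2)) .nil)),
 (.br (nat_lit 12) (nat_lit 0) (.cons (.ev (nat_lit 79229376162450716567340581121) (nat_lit 1)) (.cons (.br (nat_lit 14) (nat_lit 0) (.cons (.rf (nat_lit 477) (nat_lit 18240816216870055151648)) (.cons (.br (nat_lit 14) (nat_lit 0) (.cons (.rf (nat_lit 477) (nat_lit 18240816216870055151648)) (.cons (.br (nat_lit 15) (nat_lit 0) (.cons (.rf (nat_lit 478) (nat_lit 677582165103132179601393696)) (.cons (.rf (nat_lit 478) (nat_lit 640105464695078675185502240)) .nil))) .nil))) .nil))) .nil))),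
 (.br (nat_lit 16) (nat_lit 0) (.cons (.ev (nat_lit 680575159158869528914019915238274629633) (nat_lit 2)) .nil)),
 (.br (nat_lit 12) (nat_lit 0) (.cons (.ev (nat_lit 79229376162450716567340581121) (nat_lit 1)) (.cons (.br (nat_lit 13) (nat_lit 0) (.cons (.ev (nat_lit 5192296859748475814627999444173056) (nat_lit 1)) (.cons (.br (nat_lit 14) (nat_lit 0) (.cons (.kr (nat_lit 20361638979814192916633653084416) (nat_lit 1334420292952935728800708174020673536) (nat_lit 1) (nat_lit 0)) (.cons (.br (nat_lit 15) (nat_lit 0) (.cons (.ev (nat_lit 10675566275687956137675068173422691841) (nat_lit 4)) (.cons (.rf (nat_lit 413) (nat_lit 646192673993569536225)) .nil))) .nil))) (.cons (.br (nat_lit 14) (nat_lit 0) (.cons (.br (nat_lit 15) (nat_lit 0) (.cons (.ev (nat_lit 1329248357732167067178997912052957185) (nat_lit 1)) (.cons (.br (nat_lit 16) (nat_lit 0) (.cons (.br (nat_lit 16) (nat_lit 0) .nil) .nil)) .nil))) (.cons (.kr (nat_lit 10384594955009694543004221806084097) (nat_lit 40564821634599857159179746673152) (nat_lit 0) (nat_lit 8)) (.cons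 (.br (nat_lit 15) (nat_lit 0) (.cons (.rf (nat_lit 480) (nat_lit 677582165103132179601393696)) (.cons (.br (nat_lit 15) (nat_lit 0) (.cons (.rf (nat_lit 480) (nat_lit 677582165103132179601393696)) .nil)) .nil))) .nil)))) .nil)))) .nil))),
 (.br (nat_lit 15) (nat_lit 0) (.cons (.ev (nat_lit 1329248357732167067178997912052957185) (nat_lit 1)) (.cons (.rf (nat_lit 456) (nat_lit 646190492529213905121)) .nil))),
 (.br (nat_lit 15) (nat_lit 0) (.cons (.ev (nat_lit 1334420292952940451166910668200739073) (nat_lit 1)) .nil)),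
 (.br (nat_lit 15) (nat_lit 0) (.cons (.br (nat_lit 14) (nat_lit 0) (.cons (.ev (nat_lit 10384752794792036694110566078349827) (nat_lit 2)) (.cons (.br (nat_lit 16) (nat_lit 0) (.cons (.br (nat_lit 16) (nat_lit 0) .nil) .nil)) .nil))) (.cons (.kr (nat_lit 159075295048171365328832430081) (nat_lit 2658455991569831782701103367508197376) (nat_lit 0) (nat_lit 1)) (.cons (.br (nat_lit 14) (nat_lit 0) (.cons (.rf (nat_lit 483) (nat_lit 21174442659472880611461152)) (.cons (.br (nat_lit 14) (nat_lit 0) (.cons (.rf (nat_lit 483) (nat_lit 21174442659472880611461152)) .nil)) .nil))) .nil)))),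
 (.br (nat_lit 14) (nat_lit 0) (.cons (.ev (nat_lit 10384752794792036694110566078349827) (nat_lit 2)) (.cons (.br (nat_lit 15) (nat_lit 0) (.cons (.br (nat_lit 16) (nat_lit 0) (.cons (.ev (nat_lit 340282387282885714657649798283540824065) (nat_lit 1)) .nil)) (.cons (.ev (nat_lit 174235236841272256657224779309869221151749) (nat_lit 4)) .nil))) .nil))),
 (.br (nat_lit 12) (nat_lit 0) (.cons (.rf (nat_lit 479) (nat_lit 17022140995484340291616)) (.cons (.rf (nat_lit 481) (nat_lit 17022140995484340291616)) (.cons (.br (nat_lit 12) (nat_lit 0) (.cons (.rf (nat_lit 479) (nat_lit 17022140995484340291616)) (.cons (.rf (nat_lit 481) (nat_lit 17022140995484340291616)) (.cons (.br (nat_lit 13) (nat_lit 0) (.cons (.br (nat_lit 14) (nat_lit 0) (.cons (.rf (nat_lit 482) (nat_lit 19926519232773908561233952)) (.cons (.rf (nat_lit 482) (nat_lit 18755372345022236548237344)) (.cons (.br (nat_lit 15) (nat_lit 0) (.cons (.br (nat_lit 15) (nat_lit 0) (.cons (.ev (nat_lit 2668881308562433733078314495298895873) (nat_lit 2)) .nil)) (.cons (.br (nat_lit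 15) (nat_lit 0) (.cons (.ev (nat_lit 2668881308562433733078314495298895873) (nat_lit 2)) .nil)) .nil))) .nil)))) (.cons (.rf (nat_lit 484) (nat_lit 19926519232773908561233952)) (.cons (.rf (nat_lit 484) (nat_lit 18755372345022236548237344)) (.cons (.br (nat_lit 14) (nat_lit 0) (.cons (.rf (nat_lit 485) (nat_lit 677582165103132179601393696)) (.cons (.rf (nat_lit 485) (nat_lit 676411018215380507588397088)) (.cons (.br (nat_lit 14) (nat_lit 0) (.cons (.rf (nat_lit 485) (nat_lit 677582165103132179601393696)) (.cons (.rf (nat_lit 485) (nat_lit 676411018215380507588397088)) .nil))) .nil)))) .nil))))) .nil)))) .nil)))),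
 (.br (nat_lit 14) (nat_lit 0) (.cons (.ev (nat_lit 10425159157674311506846232036246017) (nat_lit 2)) (.cons (.rf (nat_lit 422) (nat_lit 646155623752328748097)) .nil))),
 (.br (nat_lit 14) (nat_lit 0) (.cons (.ev (nat_lit 10425159157674311506846232036246017) (nat_lit 2)) (.cons (.br (nat_lit 15) (nat_lit 0) (.cons (.ev (nat_lit 2049669650946893768052001614034545017351) (nat_lit 3)) (.cons (.br (nat_lit 16) (nat_lit 0) (.cons (.ev (nat_lit 3405502935115380423289895567799722444293) (nat_lit 4)) .nil)) .nil))) .nil))),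
 (.br (nat_lit 14) (nat_lit 0) (.cons (.ev (nat_lit 10384752794792036694110566078349827) (nat_lit 2)) (.cons (.rf (nat_lit 428) (nat_lit 646155521495666985185)) .nil))),
 (.br (nat_lit 14) (nat_lit 0) (.cons (.ev (nat_lit 10384752794792036694110566078349827) (nat_lit 2)) (.cons (.br (nat_lit 15) (nat_lit 0) (.cons (.ev (nat_lit 2049669650946893768052001614034545017351) (nat_lit 3)) (.cons (.br (nat_lit 16) (nat_lit 0) (.cons (.ev (nat_lit 693877824345511096376293399140168633861) (nat_lit 4)) .nil)) .nil))) .nil))),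
 (.br (nat_lit 14) (nat_lit 0) (.cons (.ev (nat_lit 10384752794792036694110566078349827) (nat_lit 2)) (.cons (.br (nat_lit 15) (nat_lit 0) (.cons (.kr (nat_lit 159075295048171365328832430081) (nat_lit 680564733841876926963642704110483931136) (nat_lit 0) (nat_lit 1)) (.cons (.ev (nat_lit 2668840585286901401209354355071778819) (nat_lit 2)) .nil))) .nil))),
 (.br (nat_lit 14) (nat_lit 0) (.cons (.ev (nat_lit 10384752794792036694110566078349827) (nat_lit 2)) (.cons (.br (nat_lit 16) (nat_lit 0) (.cons (.br (nat_lit 15) (nat_lit 0) (.cons (.ev (nat_lit 1329248357732167067178997912052957185) (nat_lit 1)) .nil)) (.cons (.ev (nat_lit 87452573511339682624729023782079174803712) (nat_lit 1)) .nil))) .nil))),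
 (.br (nat_lit 12) (nat_lit 0) (.cons (.ev (nat_lit 79229376162450716567340581121) (nat_lit 1)) (.cons (.br (nat_lit 13) (nat_lit 0) (.cons (.ev (nat_lit 20282410817299856521450366238976) (nat_lit 1)) (.cons (.ev (nat_lit 2658456150026156774480405608137883649) (nat_lit 2)) (.cons (.br (nat_lit 14) (nat_lit 0) (.cons (.rf (nat_lit 487) (nat_lit 19926519232773908561233952)) (.cons (.rf (nat_lit 488) (nat_lit 19926519232773908561233952)) (.cons (.br (nat_lit 14) (nat_lit 0) (.cons (.rf (nat_lit 422) (nat_lit 646155623752328748097)) (.cons (.rf (nat_lit 488) (nat_lit 19926519232773908561233952)) .nil))) .nil)))) .nil)))) (.cons (.br (nat_lit 13) (nat_lit 0) (.cons (.ev (nat_lit 20282410817299856521450366238976) (nat_lit 1)) (.cons (.br (nat_lit 14) (nat_lit 0) (.cons (.rf (nat_lit 489) (nat_lit 19926519232773908561233952)) (.cons (.rf (nat_lit 490) (nat_lit 19926519232773908561233952)) (.cons (.br (nat_lit 14) (nat_lit 0) (.cons (.rf (nat_lit 428) (nat_lit 646155521495666985185)) (.cons (.rf (nat_lit 490) (nat_lit 19926519232773908561233952))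 .nil))) .nil)))) (.cons (.br (nat_lit 15) (nat_lit 0) (.cons (.rf (nat_lit 491) (nat_lit 19926519232773908561233952)) (.cons (.kr (nat_lit 159075295048171365328832430081) (nat_lit 680564733841876926963642704110483931136) (nat_lit 0) (nat_lit 1)) (.cons (.br (nat_lit 15) (nat_lit 0) (.cons (.rf (nat_lit 491) (nat_lit 19926519232773908561233952)) (.cons (.kr (nat_lit 159075295048171365328832430081) (nat_lit 680564733841876926963642704110483931136) (nat_lit 0) (nat_lit 1)) .nil))) .nil)))) (.cons (.br (nat_lit 14) (nat_lit 0) (.cons (.br (nat_lit 14) (nat_lit 0) (.cons (.ev (nat_lit 10384752794792036694110566078349827) (nat_lit 2)) (.cons (.ev (nat_lit 10425159157674311506846232036246017) (nat_lit 2)) .nil))) (.cons (.rf (nat_lit 492) (nat_lit 677582165103132179601393696)) (.cons (.br (nat_lit 14) (nat_lit 0) (.cons (.ev (nat_lit 10425159157674311506846232036246017) (nat_lit 2)) (.cons (.rf (nat_lit 492) (nat_lit 677582165103132179601393696)) .nil))) .nil)))) .nil))))) .nil)))),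
 (.br (nat_lit 13) (nat_lit 0) (.cons (.br (nat_lit 14) (nat_lit 0) (.cons (.ev (nat_lit 10384752794792036694110566078349827) (nat_lit 2)) (.cons (.rf (nat_lit 423) (nat_lit 646155521495666985185)) .nil))) (.cons (.ev (nat_lit 1329248357732167067178996816819519488) (nat_lit 1)) (.cons (.br (nat_lit 14) (nat_lit 0) (.cons (.br (nat_lit 14) (nat_lit 0) (.cons (.ev (nat_lit 5212658497514641749672114744459520) (nat_lit 1)) .nil)) (.cons (.br (nat_lit 14) (nat_lit 0) (.cons (.ev (nat_lit 5212658497514641749672114744459520) (nat_lit 1)) .nil)) .nil))) .nil)))),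
 (.br (nat_lit 13) (nat_lit 0) (.cons (.ev (nat_lit 40723896929684777897467922481667) (nat_lit 2)) (.cons (.br (nat_lit 14) (nat_lit 0) (.cons (.ev (nat_lit 10384752794792036694110566078349827) (nat_lit 2)) (.cons (.ev (nat_lit 174229888978330828735911052642013565026313) (nat_lit 4)) .nil))) .nil))),
 (.br (nat_lit 13) (nat_lit 0) (.cons (.ev (nat_lit 40723896929684777897467922481667) (nat_lit 2)) (.cons (.br (nat_lit 16) (nat_lit 0) (.cons (.br (nat_lit 14) (nat_lit 0) (.cons (.ev (nat_lit 685912921459700716453299356921407471623) (nat_lit 3)) .nil)) (.cons (.ev (nat_lit 176946830920586791450892797073546656482309) (nat_lit 4)) .nil))) .nil))),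
 (.br (nat_lit 12) (nat_lit 0) (.cons (.rf (nat_lit 493) (nat_lit 583706118939841765935136)) (.cons (.rf (nat_lit 493) (nat_lit 582562420807271773734944)) (.cons (.br (nat_lit 15) (nat_lit 0) (.cons (.rf (nat_lit 494) (nat_lit 19926519232773908561233952)) (.cons (.rf (nat_lit 494) (nat_lit 19925375534641338569033760)) (.cons (.ev (nat_lit 2658456150026156774480405608137883649) (nat_lit 2)) (.cons (.br (nat_lit 13) (nat_lit 0) (.cons (.rf (nat_lit 495) (nat_lit 677582165103132179601393696)) (.cons (.rf (nat_lit 496) (nat_lit 677582165103132179601393696)) (.cons (.br (nat_lit 13) (nat_lit 0) (.cons (.rf (nat_lit 495) (nat_lit 677582165103132179601393696)) (.cons (.rf (nat_lit 496) (nat_lit 677582165103132179601393696)) .nil))) .nil)))) .nil))))) .nil))))]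

theorem c17 : chkAll C T R L17 (nat_lit 469) = true := by decide +kernel

theorem l17 : (nat_lit 469) + L17.length = (nat_lit 498) := by decide +kernel

/-- part of the certificates -/
def L18 : List Prf := [(.br (nat_lit 15) (nat_lit 0) (.cons (.ev (nat_lit 2049690419817415257305459511562772546051) (nat_lit 3)) (.cons (.br (nat_lit 16) (nat_lit 0) (.cons (.zr (nat_lit 683233574428404195663472033696806207495) (nat_lit 122011370271967512239626256385536) (nat_lit 16) (nat_lit 2)) .nil)) .nil))),
 (.br (nat_lit 14) (nat_lit 0) (.cons (.ev (nat_lit 2658496556389039049293141256915910659) (nat_lit 2)) (.cons (.rf (nat_lit 498) (nat_lit 677582165103132179601393696)) (.cons (.rf (nat_lit 498) (nat_lit 640105464695078675185502240)) .nil)))),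
 (.br (nat_lit 14) (nat_lit 0) (.cons (.rf (nat_lit 499) (nat_lit 677581021404999609609193504)) (.cons (.kr (nat_lit 20282409603651670423947251286016) (nat_lit 5192296858534827628530496329220096) (nat_lit 13) (nat_lit 0)) (.cons (.br (nat_lit 16) (nat_lit 0) (.cons (.br (nat_lit 15) (nat_lit 0) (.cons (.ev (nat_lit 1334440575362539380542909344156549120) (nat_lit 1)) .nil)) (.cons (.ev (nat_lit 87452573511339682624729023782079174803712) (nat_lit 1)) .nil))) .nil)))),
 (.br (nat_lit 13) (nat_lit 0) (.cons (.rf (nat_lit 499) (nat_lit 677582165103132179601393696)) (.cons (.rf (nat_lit 500) (nat_lit 677582165103132179601393696)) (.cons (.rf (nat_lit 500) (nat_lit 640105464695078675185502240)) .nil)))),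
 (.br (nat_lit 15) (nat_lit 0) (.cons (.br (nat_lit 14) (nat_lit 0) (.cons (.ev (nat_lit 1334440575362539380542908240333176833) (nat_lit 1)) (.cons (.ev (nat_lit 5212658497514641749672114744459520) (nat_lit 1)) .nil))) (.cons (.ev (nat_lit 2658496556389039049293141256915910659) (nat_lit 2)) (.cons (.br (nat_lit 16) (nat_lit 0) (.cons (.br (nat_lit 14) (nat_lit 0) (.cons (.ev (nat_lit 685912840646974951903673885623851417603) (nat_lit 3)) .nil)) (.cons (.kr (nat_lit 159075295048171365328832430081) (nat_lit 174224571863520493293284692494312271773696) (nat_lit 0) (nat_lit 1)) .nil))) .nil)))),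
 (.br (nat_lit 13) (nat_lit 0) (.cons (.rf (nat_lit 501) (nat_lit 677582165103132179601393696)) (.cons (.rf (nat_lit 502) (nat_lit 677582165103132179601393696)) (.cons (.rf (nat_lit 502) (nat_lit 640105464695078675185502240)) .nil)))),
 (.br (nat_lit 14) (nat_lit 0) (.cons (.rf (nat_lit 503) (nat_lit 677581021404999609609193504)) (.cons (.ev (nat_lit 87452573511339682624729023782079174803712) (nat_lit 1)) .nil))),
 (.br (nat_lit 13) (nat_lit 0) (.cons (.rf (nat_lit 501) (nat_lit 677582165103132179601393696)) (.cons (.rf (nat_lit 503) (nat_lit 677582165103132179601393696)) (.cons (.br (nat_lit 14) (nat_lit 0) (.cons (.rf (nat_lit 503) (nat_lit 677581021404999609609193504)) (.cons (.rf (nat_lit 504) (nat_lit 677582165103132179601393696)) (.cons (.rf (nat_lit 504) (nat_lit 640105464695078675185502240)) .nil)))) .nil)))),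
 (.br (nat_lit 9) (nat_lit 0) (.cons (.br (nat_lit 10) (nat_lit 0) (.cons (.ev (nat_lit 16953443971409359984132613) (nat_lit 4)) (.cons (.br (nat_lit 11) (nat_lit 0) (.cons (.ev (nat_lit 621397352908374386332008963) (nat_lit 2)) (.cons (.br (nat_lit 12) (nat_lit 0) (.cons (.rf (nat_lit 441) (nat_lit 493858305440582043680)) (.cons (.br (nat_lit 12) (nat_lit 0) (.cons (.rf (nat_lit 441) (nat_lit 493858305440582043680)) (.cons (.br (nat_lit 13) (nat_lit 0) (.cons (.rf (nat_lit 443) (nat_lit 583706118939841765935136)) (.cons (.rf (nat_lit 443) (nat_lit 547107778697602015528992)) (.cons (.br (nat_lit 13) (nat_lit 0) (.cons (.rf (nat_lit 443) (nat_lit 583706118939841765935136)) (.cons (.rf (nat_lit 443) (nat_lit 547107778697602015528992)) (.cons (.br (nat_lit 14) (nat_lit 0) (.cons (.rf (nat_lit 445) (nat_lit 677582165103132179601393696)) (.cons (.rf (nat_lit 446) (nat_lit 677582165103132179601393696)) (.cons (.rf (nat_lit 446) (nat_lit 640105464695078675185502240)) .nil)))) .nil)))) .nil)))) .nil))) .nil))) .nil))) .nil))) (.cons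 (.kr (nat_lit 618970019642690141744529409) (nat_lit 36893489246947508224) (nat_lit 0) (nat_lit 1)) (.cons (.br (nat_lit 10) (nat_lit 0) (.cons (.rf (nat_lit 455) (nat_lit 14242959524133701664)) (.cons (.rf (nat_lit 468) (nat_lit 14242959524133701664)) (.cons (.br (nat_lit 10) (nat_lit 0) (.cons (.rf (nat_lit 455) (nat_lit 14242959524133701664)) (.cons (.rf (nat_lit 468) (nat_lit 14242959524133701664)) (.cons (.br (nat_lit 11) (nat_lit 0) (.cons (.br (nat_lit 12) (nat_lit 0) (.cons (.rf (nat_lit 471) (nat_lit 17022140995484340291616)) (.cons (.rf (nat_lit 471) (nat_lit 15878442862914348091424)) (.cons (.br (nat_lit 13) (nat_lit 0) (.cons (.rf (nat_lit 473) (nat_lit 583706118939841765935136)) (.cons (.rf (nat_lit 475) (nat_lit 583706118939841765935136)) (.cons (.br (nat_lit 13) (nat_lit 0) (.cons (.rf (nat_lit 473) (nat_lit 583706118939841765935136)) (.cons (.rf (nat_lit 475) (nat_lit 583706118939841765935136)) (.cons (.br (nat_lit 14) (nat_lit 0) (.cons (.rf (nat_lit 475) (nat_lit 582562420807271773734944)) (.cons (.rf (nat_lit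 476) (nat_lit 677582165103132179601393696)) (.cons (.rf (nat_lit 476) (nat_lit 640105464695078675185502240)) .nil)))) .nil)))) .nil)))) .nil)))) (.cons (.rf (nat_lit 486) (nat_lit 17022140995484340291616)) (.cons (.rf (nat_lit 486) (nat_lit 15878442862914348091424)) (.cons (.br (nat_lit 12) (nat_lit 0) (.cons (.rf (nat_lit 493) (nat_lit 583706118939841765935136)) (.cons (.rf (nat_lit 493) (nat_lit 582562420807271773734944)) (.cons (.rf (nat_lit 497) (nat_lit 583706118939841765935136)) (.cons (.br (nat_lit 12) (nat_lit 0) (.cons (.rf (nat_lit 493) (nat_lit 583706118939841765935136)) (.cons (.rf (nat_lit 493) (nat_lit 582562420807271773734944)) (.cons (.rf (nat_lit 497) (nat_lit 583706118939841765935136)) (.cons (.br (nat_lit 13) (nat_lit 0) (.cons (.rf (nat_lit 501) (nat_lit 677582165103132179601393696)) (.cons (.rf (nat_lit 503) (nat_lit 677582165103132179601393696)) (.cons (.rf (nat_lit 505) (nat_lit 677582165103132179601393696)) (.cons (.rf (nat_lit 505) (nat_lit 640105464695078675185502240)) .nil))))) .nil))))) .nil)))))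 .nil))))) .nil)))) .nil)))) .nil)))),
 (.br (nat_lit 14) (nat_lit 0) (.cons (.ev (nat_lit 10425158536276958742588129013661699) (nat_lit 2)) (.cons (.br (nat_lit 15) (nat_lit 0) (.cons (.ev (nat_lit 1334440575054268000388860102209241345) (nat_lit 1)) (.cons (.br (nat_lit 16) (nat_lit 0) (.cons (.br (nat_lit 16) (nat_lit 0) .nil) .nil)) .nil))) .nil))),
 (.br (nat_lit 15) (nat_lit 0) (.cons (.ev (nat_lit 1365716605880410699490471580123857154) (nat_lit 3)) .nil)),
 (.br (nat_lit 13) (nat_lit 0) (.cons (.rf (nat_lit 507) (nat_lit 583706118939841765935136)) (.cons (.br (nat_lit 14) (nat_lit 0) (.cons (.rf (nat_lit 507) (nat_lit 582562385870256482649152)) (.cons (.ev (nat_lit 10425158536276958742588129013661699) (nat_lit 2)) (.cons (.br (nat_lit 15) (nat_lit 0) (.cons (.rf (nat_lit 508) (nat_lit 677582165103132179601393696)) (.cons (.rf (nat_lit 508) (nat_lit 640104320962009089902216256)) .nil))) .nil)))) .nil))),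
 (.br (nat_lit 14) (nat_lit 0) (.cons (.ev (nat_lit 10425159157674311650961411555721217) (nat_lit 2)) (.cons (.br (nat_lit 15) (nat_lit 0) (.cons (.ev (nat_lit 688540101818443351223391202826128852485) (nat_lit 3)) (.cons (.ev (nat_lit 1334440575362539380470850650606993665) (nat_lit 1)) .nil))) .nil))),
 (.br (nat_lit 13) (nat_lit 0) (.cons (.rf (nat_lit 509) (nat_lit 583706118939841765935136)) (.cons (.br (nat_lit 14) (nat_lit 0) (.cons (.ev (nat_lit 2658456150647554127244663693980598787) (nat_lit 2)) (.cons (.rf (nat_lit 510) (nat_lit 19926519232773908561233952)) (.cons (.br (nat_lit 14) (nat_lit 0) (.cons (.ev (nat_lit 2658456150647554127244663693980598787) (nat_lit 2)) (.cons (.rf (nat_lit 510) (nat_lit 19926519232773908561233952)) .nil))) .nil)))) .nil))),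
 (.br (nat_lit 14) (nat_lit 0) (.cons (.rf (nat_lit 511) (nat_lit 582562385870256482649152)) (.cons (.ev (nat_lit 10425159157674311650961411555721217) (nat_lit 2)) .nil))),
 (.br (nat_lit 10) (nat_lit 0) (.cons (.ev (nat_lit 2427370593206836159185411) (nat_lit 3)) (.cons (.br (nat_lit 11) (nat_lit 0) (.cons (.ev (nat_lit 1856929059219145600910362117) (nat_lit 3)) (.cons (.kr (nat_lit 309489732187827942664962048) (nat_lit 1208944266359802395885568) (nat_lit 4) (nat_lit 0)) (.cons (.br (nat_lit 12) (nat_lit 0) (.cons (.ev (nat_lit 79229376162522774165690253313) (nat_lit 1)) (.cons (.ev (nat_lit 79537647542604766904521326593) (nat_lit 1)) (.cons (.br (nat_lit 13) (nat_lit 0) (.cons (.rf (nat_lit 509) (nat_lit 583706118939841765935136)) (.cons (.rf (nat_lit 511) (nat_lit 583706118939841765935136)) (.cons (.br (nat_lit 13) (nat_lit 0) (.cons (.rf (nat_lit 509) (nat_lit 583706118939841765935136)) (.cons (.rf (nat_lit 511) (nat_lit 583706118939841765935136)) (.cons (.br (nat_lit 14) (nat_lit 0) (.cons (.rf (nat_lit 511) (nat_lit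 582562385870256482649152)) (.cons (.rf (nat_lit 512) (nat_lit 677582165103132179601393696)) (.cons (.rf (nat_lit 512) (nat_lit 640105464695078675185502240)) .nil)))) .nil)))) .nil)))) .nil)))) .nil)))) .nil))),
 (.br (nat_lit 14) (nat_lit 0) (.cons (.br (nat_lit 15) (nat_lit 0) (.cons (.ev (nat_lit 7985752568428992263273110190499693059) (nat_lit 3)) (.cons (.br (nat_lit 16) (nat_lit 0) (.cons (.br (nat_lit 16) (nat_lit 0) .nil) .nil)) .nil))) .nil)),
 (.br (nat_lit 15) (nat_lit 0) (.cons (.ev (nat_lit 1344865813130619797963731995354923779) (nat_lit 2)) .nil)),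
 (.br (nat_lit 11) (nat_lit 0) (.cons (.br (nat_lit 13) (nat_lit 0) (.cons (.kr (nat_lit 159075295048171365328832430081) (nat_lit 40564819207340234337141450080256) (nat_lit 0) (nat_lit 1)) (.cons (.br (nat_lit 14) (nat_lit 0) (.cons (.rf (nat_lit 514) (nat_lit 583706118939841765935136)) (.cons (.br (nat_lit 14) (nat_lit 0) (.cons (.rf (nat_lit 514) (nat_lit 583706118939841765935136)) (.cons (.br (nat_lit 15) (nat_lit 0) (.cons (.rf (nat_lit 515) (nat_lit 677582165103132179601393696)) (.cons (.rf (nat_lit 515) (nat_lit 640105464695078675185502240)) .nil))) .nil))) .nil))) .nil))) .nil)),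
 (.br (nat_lit 15) (nat_lit 0) (.cons (.ev (nat_lit 10384752794792036694110566078349827) (nat_lit 2)) (.cons (.br (nat_lit 16) (nat_lit 0) (.cons (.ev (nat_lit 10425158536276958742588129013661699) (nat_lit 2)) (.cons (.ev (nat_lit 2044352657517203039896648465547329143299) (nat_lit 3)) .nil))) .nil))),
 (.br (nat_lit 13) (nat_lit 0) (.cons (.ev (nat_lit 20521026187223898335720660730626) (nat_lit 2)) (.cons (.br (nat_lit 15) (nat_lit 0) (.cons (.ev (nat_lit 10384752794792036694110566078349827) (nat_lit 2)) (.cons (.rf (nat_lit 517) (nat_lit 19926519232773908561233952)) (.cons (.br (nat_lit 15) (nat_lit 0) (.cons (.ev (nat_lit 10384752794792036694110566078349827) (nat_lit 2)) (.cons (.rf (nat_lit 517) (nat_lit 19926519232773908561233952)) .nil))) .nil)))) .nil))),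
 (.br (nat_lit 15) (nat_lit 0) (.cons (.kr (nat_lit 5192296858534827628530496329220096) (nat_lit 1329227995784915872903807060280344576) (nat_lit 14) (nat_lit 0)) (.cons (.ev (nat_lit 1334440575054268000388860102209241345) (nat_lit 1)) .nil))),
 (.br (nat_lit 14) (nat_lit 0) (.cons (.rf (nat_lit 519) (nat_lit 677582165103132179601393696)) (.cons (.rf (nat_lit 519) (nat_lit 640105464695078675185502240)) .nil))),
 (.br (nat_lit 14) (nat_lit 0) (.cons (.rf (nat_lit 520) (nat_lit 677582165103132179601393696)) (.cons (.br (nat_lit 16) (nat_lit 0) (.cons (.br (nat_lit 15) (nat_lit 0) (.cons (.ev (nat_lit 1334420372181098243137104461130891265) (nat_lit 1)) .nil)) (.cons (.ev (nat_lit 2041704586119350277806097912419426894339) (nat_lit 3)) .nil))) .nil))),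
 (.br (nat_lit 10) (nat_lit 0) (.cons (.ev (nat_lit 2427370593206836159185411) (nat_lit 3)) (.cons (.br (nat_lit 11) (nat_lit 0) (.cons (.rf (nat_lit 516) (nat_lit 493858305440582043680)) (.cons (.br (nat_lit 11) (nat_lit 0) (.cons (.rf (nat_lit 516) (nat_lit 493858305440582043680)) (.cons (.br (nat_lit 13) (nat_lit 0) (.cons (.rf (nat_lit 518) (nat_lit 583706118939841765935136)) (.cons (.rf (nat_lit 518) (nat_lit 547107778697602015528992)) (.cons (.br (nat_lit 13) (nat_lit 0) (.cons (.rf (nat_lit 518) (nat_lit 583706118939841765935136)) (.cons (.rf (nat_lit 518) (nat_lit 547107778697602015528992)) (.cons (.br (nat_lit 14) (nat_lit 0) (.cons (.rf (nat_lit 520) (nat_lit 677582165103132179601393696)) (.cons (.rf (nat_lit 521) (nat_lit 677582165103132179601393696)) (.cons (.rf (nat_lit 521) (nat_lit 640105464695078675185502240)) .nil)))) .nil)))) .nil)))) .nil))) .nil))) .nil))),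
 (.br (nat_lit 16) (nat_lit 0) (.cons (.kr (nat_lit 40723275532331869524185413844993) (nat_lit 2427296516310185715696128) (nat_lit 0) (nat_lit 2)) (.cons (.ev (nat_lit 341616787213583127812165101185042284545) (nat_lit 1)) (.cons (.ev (nat_lit 341611594995952755498801188657738809345) (nat_lit 1)) .nil))))]

theorem c18 : chkAll C T R L18 (nat_lit 498) = true := by decide +kernel

theorem l18 : (nat_lit 498) + L18.length = (nat_lit 524) := by decide +kernel

/-- part of the certificates -/
def L19 : List Prf := [(.br (nat_lit 13) (nat_lit 0) (.cons (.ev (nat_lit 5192296859748475814627999444173056) (nat_lit 1)) (.cons (.br (nat_lit 14) (nat_lit 0) (.cons (.kr (nat_lit 159075295048171365328832430081) (nat_lit 2658455991569831782701103367508197376) (nat_lit 0) (nat_lit 1)) (.cons (.br (nat_lit 15) (nat_lit 0) (.cons (.ev (nat_lit 2668881308562433732934199298666660353) (nat_lit 2)) (.cons (.br (nat_lit 16) (nat_lit 0) (.cons (.br (nat_lit 16) (nat_lit 0) .nil) .nil)) .nil))) .nil))) (.cons (.br (nat_lit 14) (nat_lit 0) (.cons (.br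 (nat_lit 15) (nat_lit 0) (.cons (.ev (nat_lit 1329248357732167067178997912052957185) (nat_lit 1)) (.cons (.br (nat_lit 16) (nat_lit 0) (.cons (.br (nat_lit 16) (nat_lit 0) .nil) .nil)) .nil))) (.cons (.br (nat_lit 15) (nat_lit 0) (.cons (.ev (nat_lit 680595887624885064951739543442422105605) (nat_lit 3)) (.cons (.br (nat_lit 15) (nat_lit 0) (.cons (.ev (nat_lit 2041725436437044210112659839426813625857) (nat_lit 3)) .nil)) .nil))) (.cons (.br (nat_lit 15) (nat_lit 0) (.cons (.br (nat_lit 15) (nat_lit 0) (.cons (.rf (nat_lit 523) (nat_lit 677582165103132179601393696)) .nil)) (.cons (.br (nat_lit 15) (nat_lit 0) (.cons (.rf (nat_lit 523) (nat_lit 677582165103132179601393696)) .nil)) .nil))) .nil)))) .nil)))),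
 (.br (nat_lit 15) (nat_lit 0) (.cons (.br (nat_lit 16) (nat_lit 0) (.cons (.ev (nat_lit 341611615199134196636134937037648232705) (nat_lit 1)) .nil)) .nil)),
 (.br (nat_lit 14) (nat_lit 0) (.cons (.br (nat_lit 15) (nat_lit 0) (.cons (.ev (nat_lit 1329248357732167067178997912052957185) (nat_lit 1)) (.cons (.br (nat_lit 16) (nat_lit 0) (.cons (.br (nat_lit 16) (nat_lit 0) .nil) .nil)) .nil))) (.cons (.kr (nat_lit 158458742880167905544948940801) (nat_lit 10384593717079099990026736260612096) (nat_lit 0) (nat_lit 1)) (.cons (.br (nat_lit 15) (nat_lit 0) (.cons (.rf (nat_lit 525) (nat_lit 677582165103132179601393696)) (.cons (.br (nat_lit 15) (nat_lit 0) (.cons (.rf (nat_lit 525) (nat_lit 677582165103132179601393696)) .nil)) .nil))) .nil)))),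
 (.br (nat_lit 14) (nat_lit 0) (.cons (.ev (nat_lit 2041725436437044210112659839426813625857) (nat_lit 3)) (.cons (.br (nat_lit 15) (nat_lit 0) (.cons (.ev (nat_lit 683223270964330395208074525584669147655) (nat_lit 3)) (.cons (.ev (nat_lit 2668840585286901401209354355071778819) (nat_lit 2)) .nil))) .nil))),
 (.br (nat_lit 14) (nat_lit 0) (.cons (.ev (nat_lit 2041725436437044210112659839426813625857) (nat_lit 3)) (.cons (.br (nat_lit 15) (nat_lit 0) (.cons (.br (nat_lit 15) (nat_lit 0) .nil) .nil)) .nil))),
 (.br (nat_lit 16) (nat_lit 0) (.cons (.ev (nat_lit 2668840585286901401209354355071778819) (nat_lit 2)) (.cons (.ev (nat_lit 340287579500516086970941652117294743808) (nat_lit 1)) .nil))),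
 (.br (nat_lit 14) (nat_lit 0) (.cons (.rf (nat_lit 529) (nat_lit 677582165103132179601393696)) (.cons (.br (nat_lit 15) (nat_lit 0) (.cons (.rf (nat_lit 529) (nat_lit 677545566727952924559901760)) (.cons (.ev (nat_lit 2668840585286901401209354355071778819) (nat_lit 2)) .nil))) .nil))),
 (.br (nat_lit 11) (nat_lit 0) (.cons (.rf (nat_lit 522) (nat_lit 14208022508842615872)) (.cons (.ev (nat_lit 621397353053052524394708993) (nat_lit 2)) (.cons (.br (nat_lit 12) (nat_lit 0) (.cons (.ev (nat_lit 20520094100676306907821653426433) (nat_lit 2)) (.cons (.rf (nat_lit 524) (nat_lit 583706118939841765935136)) (.cons (.rf (nat_lit 524) (nat_lit 547107743760586724443200)) (.cons (.br (nat_lit 13) (nat_lit 0) (.cons (.rf (nat_lit 526) (nat_lit 19926519232773908561233952)) (.cons (.rf (nat_lit 526) (nat_lit 19889920857594653519742016)) (.cons (.br (nat_lit 14) (nat_lit 0) (.cons (.rf (nat_lit 527) (nat_lit 19926519232773908561233952)) (.cons (.rf (nat_lit 528) (nat_lit 19926519232773908561233952)) (.cons (.br (nat_lit 14) (nat_lit 0) (.cons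 (.rf (nat_lit 527) (nat_lit 19926519232773908561233952)) (.cons (.rf (nat_lit 528) (nat_lit 19926519232773908561233952)) .nil))) .nil)))) (.cons (.br (nat_lit 14) (nat_lit 0) (.cons (.rf (nat_lit 530) (nat_lit 677582165103132179601393696)) (.cons (.br (nat_lit 14) (nat_lit 0) (.cons (.rf (nat_lit 530) (nat_lit 677582165103132179601393696)) (.cons (.ev (nat_lit 5212658497514641821729704470642688) (nat_lit 1)) .nil))) (.cons (.br (nat_lit 14) (nat_lit 0) (.cons (.rf (nat_lit 530) (nat_lit 677582165103132179601393696)) (.cons (.ev (nat_lit 5212658497514641821729704470642688) (nat_lit 1)) .nil))) .nil)))) .nil))))) .nil))))) .nil)))),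
 (.br (nat_lit 16) (nat_lit 0) (.cons (.ev (nat_lit 683223189834068156025609881508491821057) (nat_lit 2)) .nil)),
 (.br (nat_lit 15) (nat_lit 0) (.cons (.br (nat_lit 14) (nat_lit 0) (.cons (.ev (nat_lit 1334440575362539380470851745806876928) (nat_lit 1)) (.cons (.br (nat_lit 16) (nat_lit 0) (.cons (.br (nat_lit 16) (nat_lit 0) .nil) .nil)) .nil))) (.cons (.kr (nat_lit 159075295048171365328832430081) (nat_lit 2658455991569831782701103367508197376) (nat_lit 0) (nat_lit 1)) (.cons (.br (nat_lit 14) (nat_lit 0) (.cons (.rf (nat_lit 532) (nat_lit 677582165103132179601393696)) (.cons (.br (nat_lit 14) (nat_lit 0) (.cons (.rf (nat_lit 532) (nat_lit 677582165103132179601393696)) .nil)) .nil))) .nil)))),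
 (.br (nat_lit 14) (nat_lit 0) (.cons (.br (nat_lit 15) (nat_lit 0) (.cons (.ev (nat_lit 2668840585286901401209354355071778819) (nat_lit 2)) (.cons (.br (nat_lit 16) (nat_lit 0) (.cons (.ev (nat_lit 683233655716498954261934745111253746693) (nat_lit 3)) .nil)) .nil))) (.cons (.br (nat_lit 17) (nat_lit 0) (.cons (.ev (nat_lit 2668840585286901401209354355071778819) (nat_lit 2)) (.cons (.ev (nat_lit 87112291124136642828994132798838279241728) (nat_lit 1)) .nil))) .nil))),
 (.br (nat_lit 13) (nat_lit 0) (.cons (.ev (nat_lit 20282410817299856521450366238976) (nat_lit 1)) (.cons (.rf (nat_lit 533) (nat_lit 19926519232773908561233952)) (.cons (.rf (nat_lit 533) (nat_lit 18755372345022236548237344)) (.cons (.br (nat_lit 14) (nat_lit 0) (.cons (.rf (nat_lit 534) (nat_lit 677582165103132179601393696)) (.cons (.rf (nat_lit 534) (nat_lit 676411018215380507588397088)) (.cons (.br (nat_lit 14) (nat_lit 0) (.cons (.rf (nat_lit 534) (nat_lit 677582165103132179601393696)) (.cons (.rf (nat_lit 534) (nat_lit 676411018215380507588397088)) .nil)))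 .nil)))) .nil))))),
 (.br (nat_lit 14) (nat_lit 0) (.cons (.ev (nat_lit 2658496556389039049293141256915910659) (nat_lit 2)) (.cons (.br (nat_lit 15) (nat_lit 0) (.cons (.ev (nat_lit 683233614992604432984207790395652833281) (nat_lit 2)) (.cons (.br (nat_lit 16) (nat_lit 0) (.cons (.ev (nat_lit 683223189834068156025609881508491821057) (nat_lit 2)) .nil)) .nil))) (.cons (.kr (nat_lit 158458742880167905544948940801) (nat_lit 10384593717079099990026736260612096) (nat_lit 0) (nat_lit 1)) .nil)))),
 (.br (nat_lit 13) (nat_lit 0) (.cons (.rf (nat_lit 536) (nat_lit 677582165103132179601393696)) (.cons (.rf (nat_lit 536) (nat_lit 676411018215380507588397088)) (.cons (.kr (nat_lit 158458742880167905544948940801) (nat_lit 40564819216748073813638104743936) (nat_lit 0) (nat_lit 1)) .nil)))),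
 (.br (nat_lit 15) (nat_lit 0) (.cons (.br (nat_lit 14) (nat_lit 0) (.cons (.ev (nat_lit 683233614992604432984207790395652833281) (nat_lit 2)) (.cons (.ev (nat_lit 2689731626253957780742527937310359559) (nat_lit 3)) .nil))) (.cons (.ev (nat_lit 2658496556389039049293141256915910659) (nat_lit 2)) (.cons (.br (nat_lit 14) (nat_lit 0) (.cons (.ev (nat_lit 683223312003280618668105409131712610309) (nat_lit 3)) (.cons (.ev (nat_lit 174232547312626086425020739544027578368519) (nat_lit 3)) .nil))) .nil)))),
 (.br (nat_lit 13) (nat_lit 0) (.cons (.rf (nat_lit 537) (nat_lit 677582165103132179601393696)) (.cons (.rf (nat_lit 538) (nat_lit 677582165103132179601393696)) (.cons (.br (nat_lit 15) (nat_lit 0) (.cons (.rf (nat_lit 538) (nat_lit 675091190535457721298289728)) (.cons (.rf (nat_lit 537) (nat_lit 675091190535457721298289728)) (.cons (.ev (nat_lit 2658496556389039049293141256915910659) (nat_lit 2)) .nil)))) .nil)))),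
 (.br (nat_lit 10) (nat_lit 0) (.cons (.rf (nat_lit 513) (nat_lit 14242959524133701664)) (.cons (.rf (nat_lit 522) (nat_lit 14242959524133701664)) (.cons (.br (nat_lit 10) (nat_lit 0) (.cons (.rf (nat_lit 513) (nat_lit 14242959524133701664)) (.cons (.rf (nat_lit 522) (nat_lit 14242959524133701664)) (.cons (.br (nat_lit 11) (nat_lit 0) (.cons (.rf (nat_lit 522) (nat_lit 14208022508842615872)) (.cons (.rf (nat_lit 531) (nat_lit 17022140995484340291616)) (.cons (.rf (nat_lit 531) (nat_lit 15878442862914348091424)) (.cons (.br (nat_lit 11) (nat_lit 0) (.cons (.rf (nat_lit 522) (nat_lit 14208022508842615872)) (.cons (.rf (nat_lit 531) (nat_lit 17022140995484340291616)) (.cons (.rf (nat_lit 531) (nat_lit 15878442862914348091424)) (.cons (.br (nat_lit 12) (nat_lit 0) (.cons (.rf (nat_lit 535) (nat_lit 19926519232773908561233952)) (.cons (.rf (nat_lit 535) (nat_lit 19925375534641338569033760)) (.cons (.rf (nat_lit 535) (nat_lit 17435544665099450258129984)) (.cons (.rf (nat_lit 535) (nat_lit 17434400966966880265929792)) (.cons (.br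 (nat_lit 13) (nat_lit 0) (.cons (.rf (nat_lit 537) (nat_lit 677582165103132179601393696)) (.cons (.rf (nat_lit 539) (nat_lit 677582165103132179601393696)) (.cons (.rf (nat_lit 539) (nat_lit 676411018215380507588397088)) (.cons (.br (nat_lit 13) (nat_lit 0) (.cons (.kr (nat_lit 158458742880167905544948940801) (nat_lit 40564819216748073813638104743936) (nat_lit 0) (nat_lit 1)) (.cons (.rf (nat_lit 539) (nat_lit 677582165103132179601393696)) (.cons (.rf (nat_lit 539) (nat_lit 676411018215380507588397088)) .nil)))) .nil))))) .nil)))))) .nil))))) .nil))))) .nil)))) .nil)))),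
 (.br (nat_lit 12) (nat_lit 0) (.cons (.br (nat_lit 12) (nat_lit 0) .nil) .nil)),
 (.br (nat_lit 14) (nat_lit 0) (.cons (.ev (nat_lit 10425158536276958742025187650306049) (nat_lit 2)) (.cons (.br (nat_lit 15) (nat_lit 0) (.cons (.ev (nat_lit 1334440575054268000389141581480853760) (nat_lit 1)) (.cons (.rf (nat_lit 541) (nat_lit 646192708113796405313)) .nil))) .nil))),
 (.br (nat_lit 15) (nat_lit 0) (.cons (.zr (nat_lit 15637975493738757755317519996944385) (nat_lit 3987683989211686011910727897255575808) (nat_lit 8) (nat_lit 12)) .nil)),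
 (.br (nat_lit 13) (nat_lit 0) (.cons (.rf (nat_lit 542) (nat_lit 583706118939841765935136)) (.cons (.br (nat_lit 14) (nat_lit 0) (.cons (.rf (nat_lit 542) (nat_lit 582562346570268522060995)) (.cons (.ev (nat_lit 10425158536276958742025187650306049) (nat_lit 2)) (.cons (.br (nat_lit 15) (nat_lit 0) (.cons (.rf (nat_lit 543) (nat_lit 677582165103132179601393696)) (.cons (.rf (nat_lit 543) (nat_lit 640104320922709101941628099)) .nil))) .nil)))) .nil))),
 (.br (nat_lit 14) (nat_lit 0) (.cons (.ev (nat_lit 10425159157674311650398470192365571) (nat_lit 2)) (.cons (.br (nat_lit 15) (nat_lit 0) (.cons (.ev (nat_lit 2044352657517824418286014574780393850369) (nat_lit 3)) (.cons (.ev (nat_lit 1334440575362539380471132121288671488) (nat_lit 1)) .nil))) .nil))),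
 (.br (nat_lit 13) (nat_lit 0) (.cons (.rf (nat_lit 544) (nat_lit 583706118939841765935136)) (.cons (.br (nat_lit 14) (nat_lit 0) (.cons (.ev (nat_lit 2658456150647554127245226652523823617) (nat_lit 2)) (.cons (.rf (nat_lit 545) (nat_lit 19926519232773908561233952)) (.cons (.br (nat_lit 14) (nat_lit 0) (.cons (.ev (nat_lit 2658456150647554127245226652523823617) (nat_lit 2)) (.cons (.rf (nat_lit 545) (nat_lit 19926519232773908561233952)) .nil))) .nil)))) .nil))),
 (.br (nat_lit 14) (nat_lit 0) (.cons (.rf (nat_lit 546) (nat_lit 582562346570268522060995)) (.cons (.ev (nat_lit 10425159157674311650398470192365571) (nat_lit 2)) .nil))),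
 (.br (nat_lit 11) (nat_lit 0) (.cons (.ev (nat_lit 623805759959316069223892481) (nat_lit 3)) (.cons (.ev (nat_lit 315562750969710886116525569) (nat_lit 3)) (.cons (.br (nat_lit 12) (nat_lit 0) (.cons (.ev (nat_lit 79229376162522492686418640896) (nat_lit 1)) (.cons (.ev (nat_lit 79537647542604484330016276481) (nat_lit 1)) (.cons (.br (nat_lit 13) (nat_lit 0) (.cons (.rf (nat_lit 544) (nat_lit 583706118939841765935136)) (.cons (.rf (nat_lit 546) (nat_lit 583706118939841765935136)) (.cons (.br (nat_lit 13) (nat_lit 0) (.cons (.rf (nat_lit 544) (nat_lit 583706118939841765935136)) (.cons (.rf (nat_lit 546) (nat_lit 583706118939841765935136)) (.cons (.br (nat_lit 14) (nat_lit 0) (.cons (.rf (nat_lit 546) (nat_lit 582562346570268522060995)) (.cons (.rf (nat_lit 547) (nat_lit 677582165103132179601393696)) (.cons (.rf (nat_lit 547) (nat_lit 640105464695078675185502240)) .nil)))) .nil)))) .nil)))) .nil)))) .nil)))),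
 (.br (nat_lit 14) (nat_lit 0) (.cons (.ev (nat_lit 5232941527292553625859264006324480) (nat_lit 2)) (.cons (.br (nat_lit 15) (nat_lit 0) (.cons (.ev (nat_lit 5337681487488880229491677043508774403) (nat_lit 3)) (.cons (.rf (nat_lit 541) (nat_lit 646192674028903438370)) .nil))) .nil)))]

theorem c19 : chkAll C T R L19 (nat_lit 524) = true := by decide +kernel

theorem l19 : (nat_lit 524) + L19.length = (nat_lit 550) := by decide +kernel

/-- part of the certificates -/
def L20 : List Prf := [(.br (nat_lit 15) (nat_lit 0) (.cons (.ev (nat_lit 2689731943788024006387206777837977601) (nat_lit 3)) .nil)),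
 (.br (nat_lit 12) (nat_lit 0) (.cons (.rf (nat_lit 549) (nat_lit 583706118939841765935136)) (.cons (.br (nat_lit 14) (nat_lit 0) (.cons (.rf (nat_lit 549) (nat_lit 581347132367397614262499)) (.cons (.br (nat_lit 15) (nat_lit 0) (.cons (.ev (nat_lit 680569966782782841016932632323581542658) (nat_lit 2)) (.cons (.br (nat_lit 15) (nat_lit 0) (.cons (.ev (nat_lit 680569966782782841016932632323581542658) (nat_lit 2)) .nil)) .nil))) (.cons (.br (nat_lit 15) (nat_lit 0) (.cons (.rf (nat_lit 550) (nat_lit 677582165103132179601393696)) (.cons (.rf (nat_lit 550) (nat_lit 640103105708506231033829603)) .nil))) .nil)))) .nil))),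
 (.br (nat_lit 14) (nat_lit 0) (.cons (.ev (nat_lit 1329288843943405005638691046736200194) (nat_lit 2)) (.cons (.br (nat_lit 15) (nat_lit 0) (.cons (.ev (nat_lit 1366446379668138739273949658779761115655) (nat_lit 3)) (.cons (.ev (nat_lit 5337681488731674787734471018782262791) (nat_lit 3)) .nil))) .nil))),
 (.br (nat_lit 12) (nat_lit 0) (.cons (.rf (nat_lit 551) (nat_lit 583706118939841765935136)) (.cons (.br (nat_lit 14) (nat_lit 0) (.cons (.ev (nat_lit 1329288843943405005638691046736200194) (nat_lit 2)) (.cons (.rf (nat_lit 552) (nat_lit 19926519232773908561233952)) (.cons (.br (nat_lit 14) (nat_lit 0) (.cons (.ev (nat_lit 1329288843943405005638691046736200194) (nat_lit 2)) (.cons (.rf (nat_lit 552) (nat_lit 19926519232773908561233952)) .nil))) .nil)))) .nil))),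
 (.br (nat_lit 14) (nat_lit 0) (.cons (.rf (nat_lit 553) (nat_lit 581347132367397614262499)) (.cons (.br (nat_lit 16) (nat_lit 0) (.cons (.br (nat_lit 15) (nat_lit 0) (.cons (.zr (nat_lit 10547013307134066757662676787134479) (nat_lit 349810273194724745294942131876078448935936) (nat_lit 32) (nat_lit 1)) .nil)) (.cons (.ev (nat_lit 4083398787804068452300119074745669519361) (nat_lit 4)) .nil))) .nil))),
 (.br (nat_lit 11) (nat_lit 0) (.cons (.kr (nat_lit 309489732187827942664962048) (nat_lit 1208944266359802395885568) (nat_lit 4) (nat_lit 0)) (.cons (.ev (nat_lit 1245221928836000811566891527) (nat_lit 3)) (.cons (.br (nat_lit 13) (nat_lit 0) (.cons (.ev (nat_lit 81129640841977273776708077879815) (nat_lit 3)) (.cons (.ev (nat_lit 81130883636535516570683485585923) (nat_lit 3)) (.cons (.br (nat_lit 12) (nat_lit 0) (.cons (.rf (nat_lit 551) (nat_lit 583706118939841765935136)) (.cons (.rf (nat_lit 553) (nat_lit 583706118939841765935136)) (.cons (.br (nat_lit 12) (nat_lit 0) (.cons (.rf (nat_lit 551) (nat_lit 583706118939841765935136))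 (.cons (.rf (nat_lit 553) (nat_lit 583706118939841765935136)) (.cons (.br (nat_lit 14) (nat_lit 0) (.cons (.rf (nat_lit 553) (nat_lit 581347132367397614262499)) (.cons (.rf (nat_lit 554) (nat_lit 677582165103132179601393696)) (.cons (.rf (nat_lit 554) (nat_lit 640105464695078675185502240)) .nil)))) .nil)))) .nil)))) .nil)))) .nil)))),
 (.br (nat_lit 12) (nat_lit 0) (.cons (.br (nat_lit 12) (nat_lit 0) .nil) .nil)),
 (.br (nat_lit 12) (nat_lit 0) (.cons (.br (nat_lit 12) (nat_lit 0) .nil) .nil)),
 (.br (nat_lit 13) (nat_lit 0) (.cons (.ev (nat_lit 40723275532331869524185447531009) (nat_lit 2)) (.cons (.br (nat_lit 14) (nat_lit 0) (.cons (.ev (nat_lit 114353494265408049422180895562666521) (nat_lit 5)) (.cons (.br (nat_lit 15) (nat_lit 0) (.cons (.ev (nat_lit 2668840585908298754117727637613838337) (nat_lit 2)) (.cons (.rf (nat_lit 556) (nat_lit 646192708113796405313)) .nil))) .nil))) (.cons (.br (nat_lit 14) (nat_lit 0) (.cons (.br (nat_lit 15) (nat_lit 0) (.cons (.ev (nat_lit 2658496557010436402200951598094614531) (nat_lit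 2)) (.cons (.rf (nat_lit 557) (nat_lit 646192708113796405313)) .nil))) (.cons (.br (nat_lit 15) (nat_lit 0) (.cons (.ev (nat_lit 4083398828211038206076834531086629339661) (nat_lit 4)) (.cons (.br (nat_lit 15) (nat_lit 0) (.cons (.ev (nat_lit 4083398828211038206076834531086629339661) (nat_lit 4)) .nil)) .nil))) (.cons (.br (nat_lit 15) (nat_lit 0) (.cons (.br (nat_lit 15) (nat_lit 0) (.cons (.ev (nat_lit 7985793609233717411931058419380782087) (nat_lit 3)) .nil)) (.cons (.br (nat_lit 15) (nat_lit 0) (.cons (.ev (nat_lit 7985793609233717411931058419380782087) (nat_lit 3)) .nil)) .nil))) .nil)))) .nil)))),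
 (.br (nat_lit 16) (nat_lit 0) (.cons (.ev (nat_lit 340282387282577443277567806639909634048) (nat_lit 1)) (.cons (.ev (nat_lit 340287559297334645833607622258113708033) (nat_lit 1)) .nil))),
 (.br (nat_lit 13) (nat_lit 0) (.cons (.br (nat_lit 14) (nat_lit 0) (.cons (.ev (nat_lit 31194664739995311602113494088943107) (nat_lit 3)) (.cons (.br (nat_lit 15) (nat_lit 0) (.cons (.ev (nat_lit 2668840585908298754117727637613838337) (nat_lit 2)) (.cons (.rf (nat_lit 556) (nat_lit 610417238540585999425)) .nil))) .nil))) (.cons (.ev (nat_lit 40723275532331869524185447531009) (nat_lit 2)) (.cons (.br (nat_lit 14) (nat_lit 0) (.cons (.br (nat_lit 14) (nat_lit 0) (.cons (.ev (nat_lit 8027412800541618406450492303046870023) (nat_lit 4)) (.cons (.rf (nat_lit 557) (nat_lit 646157805183398255681)) .nil))) (.cons (.br (nat_lit 14) (nat_lit 0) (.cons (.ev (nat_lit 8027412800541618406450492303046870023) (nat_lit 4)) (.cons (.rf (nat_lit 559) (nat_lit 677582165103132179601393696)) .nil))) (.cons (.br (nat_lit 14) (nat_lit 0) (.cons (.rf (nat_lit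 557) (nat_lit 646157805183398255681)) (.cons (.rf (nat_lit 559) (nat_lit 677582165103132179601393696)) .nil))) .nil)))) .nil)))),
 (.br (nat_lit 14) (nat_lit 0) (.cons (.ev (nat_lit 10384752794792036694673524621574657) (nat_lit 2)) (.cons (.br (nat_lit 17) (nat_lit 0) (.cons (.ev (nat_lit 2658496557010436402200951598094614531) (nat_lit 2)) (.cons (.ev (nat_lit 87112291124136642828994132517359007629313) (nat_lit 1)) .nil))) .nil))),
 (.br (nat_lit 14) (nat_lit 0) (.cons (.ev (nat_lit 10384752794792036694673524621574657) (nat_lit 2)) (.cons (.br (nat_lit 17) (nat_lit 0) (.cons (.ev (nat_lit 87112291124136642828994132518462831001600) (nat_lit 1)) (.cons (.ev (nat_lit 87112285952121885626438092700645603672065) (nat_lit 1)) .nil))) .nil))),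
 (.br (nat_lit 12) (nat_lit 0) (.cons (.rf (nat_lit 558) (nat_lit 583706118939841765935136)) (.cons (.rf (nat_lit 560) (nat_lit 583706118939841765935136)) (.cons (.br (nat_lit 13) (nat_lit 0) (.cons (.rf (nat_lit 560) (nat_lit 547072003193943912186944)) (.cons (.rf (nat_lit 558) (nat_lit 547072003193943912186944)) (.cons (.ev (nat_lit 40723275532331869524185447531009) (nat_lit 2)) (.cons (.br (nat_lit 14) (nat_lit 0) (.cons (.rf (nat_lit 561) (nat_lit 677582165103132179601393696)) (.cons (.rf (nat_lit 562) (nat_lit 677582165103132179601393696)) (.cons (.br (nat_lit 14) (nat_lit 0) (.cons (.rf (nat_lit 561) (nat_lit 677582165103132179601393696)) (.cons (.rf (nat_lit 562) (nat_lit 677582165103132179601393696)) .nil))) .nil)))) .nil))))) .nil)))),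
 (.br (nat_lit 12) (nat_lit 0) (.cons (.br (nat_lit 12) (nat_lit 0) .nil) .nil)),
 (.br (nat_lit 16) (nat_lit 0) (.cons (.ev (nat_lit 340287559297026374453525630614516072448) (nat_lit 1)) (.cons (.ev (nat_lit 340282387282885714657649798283540824065) (nat_lit 1)) .nil))),
 (.br (nat_lit 14) (nat_lit 0) (.cons (.br (nat_lit 13) (nat_lit 0) (.cons (.ev (nat_lit 31194663506872159916236552078886407) (nat_lit 3)) (.cons (.br (nat_lit 15) (nat_lit 0) (.cons (.ev (nat_lit 2658496557010436402200951598094614531) (nat_lit 2)) (.cons (.rf (nat_lit 564) (nat_lit 646192708113796405313)) .nil))) .nil))) (.cons (.ev (nat_lit 10384752173394683786300242146624003) (nat_lit 2)) (.cons (.br (nat_lit 13) (nat_lit 0) (.cons (.br (nat_lit 13) (nat_lit 0) (.cons (.ev (nat_lit 8027412796832615323189094848932613123) (nat_lit 4)) (.cons (.rf (nat_lit 564) (nat_lit 610417238540585999425)) .nil))) (.cons (.br (nat_lit 13) (nat_lit 0) (.cons (.ev (nat_lit 8027412796832615323189094848932613123) (nat_lit 4)) (.cons (.rf (nat_lit 565) (nat_lit 677582165103132179601393696))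 .nil))) (.cons (.br (nat_lit 13) (nat_lit 0) (.cons (.rf (nat_lit 564) (nat_lit 610417238540585999425)) (.cons (.rf (nat_lit 565) (nat_lit 677582165103132179601393696)) .nil))) .nil)))) .nil)))),
 (.br (nat_lit 13) (nat_lit 0) (.cons (.ev (nat_lit 40723896929684777897467922481667) (nat_lit 2)) (.cons (.br (nat_lit 17) (nat_lit 0) (.cons (.ev (nat_lit 2658496556389039049292578315552555009) (nat_lit 2)) (.cons (.ev (nat_lit 87112291124136334557614050526819199811585) (nat_lit 1)) .nil))) .nil))),
 (.br (nat_lit 13) (nat_lit 0) (.cons (.ev (nat_lit 40723896929684777897467922481667) (nat_lit 2)) (.cons (.br (nat_lit 17) (nat_lit 0) (.cons (.ev (nat_lit 87112285952122193897818174692289201307648) (nat_lit 1)) (.cons (.ev (nat_lit 87112291124136334557614050525715409993728) (nat_lit 1)) .nil))) .nil))),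
 (.br (nat_lit 12) (nat_lit 0) (.cons (.rf (nat_lit 563) (nat_lit 583706118939841765935136)) (.cons (.rf (nat_lit 566) (nat_lit 583706118939841765935136)) (.cons (.br (nat_lit 14) (nat_lit 0) (.cons (.rf (nat_lit 566) (nat_lit 505863090554793420135619)) (.cons (.rf (nat_lit 563) (nat_lit 505863090554793420135619)) (.cons (.ev (nat_lit 10384752173394683786300242146624003) (nat_lit 2)) (.cons (.br (nat_lit 13) (nat_lit 0) (.cons (.rf (nat_lit 567) (nat_lit 677582165103132179601393696)) (.cons (.rf (nat_lit 568) (nat_lit 677582165103132179601393696)) (.cons (.br (nat_lit 13) (nat_lit 0) (.cons (.rf (nat_lit 567) (nat_lit 677582165103132179601393696)) (.cons (.rf (nat_lit 568) (nat_lit 677582165103132179601393696)) .nil))) .nil)))) .nil))))) .nil)))),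
 (.br (nat_lit 13) (nat_lit 0) (.cons (.ev (nat_lit 40723896929684777897467922481667) (nat_lit 2)) (.cons (.br (nat_lit 16) (nat_lit 0) (.cons (.br (nat_lit 14) (nat_lit 0) (.cons (.zr (nat_lit 1708073551474502000359645483184200679424) (nat_lit 261336857896930478490302013773053809393922) (nat_lit 8) (nat_lit 12)) .nil)) (.cons (.ev (nat_lit 174910453509664279462782728174503972962821) (nat_lit 3)) .nil))) .nil))),
 (.br (nat_lit 12) (nat_lit 0) (.cons (.rf (nat_lit 563) (nat_lit 583706118939841765935136)) (.cons (.rf (nat_lit 569) (nat_lit 583706118939841765935136)) (.cons (.br (nat_lit 15) (nat_lit 0) (.cons (.rf (nat_lit 569) (nat_lit 547072003193943912186944)) (.cons (.rf (nat_lit 563) (nat_lit 505863090554793420135619)) (.cons (.br (nat_lit 16) (nat_lit 0) (.cons (.ev (nat_lit 681893961916890014758866498051666739456) (nat_lit 2)) (.cons (.ev (nat_lit 681893961916892423165629212618236363521) (nat_lit 2)) (.cons (.br (nat_lit 13) (nat_lit 0) (.cons (.br (nat_lit 13) (nat_lit 0) (.cons (.ev (nat_lit 341611615199134196636135218516919845120)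 (nat_lit 1)) .nil)) (.cons (.br (nat_lit 13) (nat_lit 0) (.cons (.ev (nat_lit 341611615199134196636135218516919845120) (nat_lit 1)) .nil)) .nil))) .nil)))) (.cons (.br (nat_lit 13) (nat_lit 0) (.cons (.br (nat_lit 13) (nat_lit 0) (.cons (.ev (nat_lit 40723896929684777897467922481667) (nat_lit 2)) (.cons (.ev (nat_lit 2658496557010436402200951598094614531) (nat_lit 2)) .nil))) (.cons (.rf (nat_lit 570) (nat_lit 677582165103132179601393696)) (.cons (.br (nat_lit 13) (nat_lit 0) (.cons (.ev (nat_lit 2658496557010436402200951598094614531) (nat_lit 2)) (.cons (.rf (nat_lit 570) (nat_lit 677582165103132179601393696)) .nil))) .nil)))) .nil))))) .nil)))),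
 (.br (nat_lit 14) (nat_lit 0) (.cons (.rf (nat_lit 563) (nat_lit 505863090554793420135619)) (.cons (.ev (nat_lit 1049430830498012071305953398112637422144009) (nat_lit 5)) .nil))),
 (.br (nat_lit 13) (nat_lit 0) (.cons (.rf (nat_lit 571) (nat_lit 547072003193943912186944)) (.cons (.rf (nat_lit 569) (nat_lit 547072003193943912186944)) (.cons (.br (nat_lit 14) (nat_lit 0) (.cons (.rf (nat_lit 563) (nat_lit 505863090554793420135619)) (.cons (.rf (nat_lit 572) (nat_lit 677582165103132179601393696)) (.cons (.rf (nat_lit 572) (nat_lit 640105464695078675185502240)) .nil)))) .nil)))),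
 (.br (nat_lit 10) (nat_lit 0) (.cons (.rf (nat_lit 548) (nat_lit 493858305440582043680)) (.cons (.rf (nat_lit 555) (nat_lit 493858305440582043680)) (.cons (.br (nat_lit 11) (nat_lit 0) (.cons (.rf (nat_lit 555) (nat_lit 458082801782478701632)) (.cons (.rf (nat_lit 548) (nat_lit 458082801782478701632)) (.cons (.rf (nat_lit 540) (nat_lit 16474565530095721667)) (.cons (.br (nat_lit 12) (nat_lit 0) (.cons (.rf (nat_lit 563) (nat_lit 583706118939841765935136)) (.cons (.rf (nat_lit 569) (nat_lit 583706118939841765935136)) (.cons (.rf (nat_lit 571) (nat_lit 583706118939841765935136)) (.cons (.br (nat_lit 12) (nat_lit 0) (.cons (.rf (nat_lit 563) (nat_lit 583706118939841765935136)) (.cons (.rf (nat_lit 569) (nat_lit 583706118939841765935136)) (.cons (.rf (nat_lit 571) (nat_lit 583706118939841765935136)) (.cons (.br (nat_lit 13) (nat_lit 0) (.cons (.rf (nat_lit 571) (nat_lit 547072003193943912186944)) (.cons (.rf (nat_lit 569) (nat_lit 547072003193943912186944)) (.cons (.rf (nat_lit 573) (nat_lit 677582165103132179601393696)) (.cons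 (.rf (nat_lit 573) (nat_lit 640105464695078675185502240)) .nil))))) .nil))))) .nil))))) .nil))))) .nil)))),
 (.br (nat_lit 12) (nat_lit 0) (.cons (.br (nat_lit 12) (nat_lit 0) .nil) .nil)),
 (.br (nat_lit 14) (nat_lit 0) (.cons (.br (nat_lit 15) (nat_lit 0) (.cons (.ev (nat_lit 7985833698067406869953680062418387463) (nat_lit 3)) (.cons (.rf (nat_lit 575) (nat_lit 646192708113796405313)) .nil))) .nil))]

theorem c20 : chkAll C T R L20 (nat_lit 550) = true := by decide +kernel

theorem l20 : (nat_lit 550) + L20.length = (nat_lit 577) := by decide +kernel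

/-- part of the certificates -/
def L21 : List Prf := [(.br (nat_lit 15) (nat_lit 0) (.cons (.ev (nat_lit 1344865813747162558128278241093419779) (nat_lit 2)) .nil)),
 (.br (nat_lit 11) (nat_lit 0) (.cons (.ev (nat_lit 122172926339576178738456378738699) (nat_lit 4)) (.cons (.br (nat_lit 14) (nat_lit 0) (.cons (.rf (nat_lit 576) (nat_lit 583706118939841765935136)) (.cons (.br (nat_lit 14) (nat_lit 0) (.cons (.rf (nat_lit 576) (nat_lit 583706118939841765935136)) (.cons (.br (nat_lit 15) (nat_lit 0) (.cons (.rf (nat_lit 577) (nat_lit 677582165103132179601393696)) (.cons (.rf (nat_lit 577) (nat_lit 640105464695078675185502240)) .nil))) .nil))) .nil))) .nil))),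
 (.br (nat_lit 12) (nat_lit 0) (.cons (.br (nat_lit 12) (nat_lit 0) .nil) .nil)),
 (.br (nat_lit 14) (nat_lit 0) (.cons (.br (nat_lit 15) (nat_lit 0) (.cons (.ev (nat_lit 340282387282577438555201042295304487168) (nat_lit 1)) .nil)) .nil)),
 (.br (nat_lit 11) (nat_lit 0) (.cons (.ev (nat_lit 122172926339576178738456378738699) (nat_lit 4)) (.cons (.br (nat_lit 14) (nat_lit 0) (.cons (.ev (nat_lit 10425475451354312459800944207725057) (nat_lit 3)) (.cons (.ev (nat_lit 5192297168019855896619643075363073) (nat_lit 1)) (.cons (.br (nat_lit 13) (nat_lit 0) (.cons (.br (nat_lit 15) (nat_lit 0) (.cons (.ev (nat_lit 2668881308562433732934199298666660353) (nat_lit 2)) (.cons (.rf (nat_lit 579) (nat_lit 646192708113796405313)) .nil))) (.cons (.br (nat_lit 15) (nat_lit 0) (.cons (.ev (nat_lit 680564774407317531583142552341070348291) (nat_lit 2)) (.cons (.br (nat_lit 15) (nat_lit 0) (.cons (.ev (nat_lit 680564774407317531583142552341070348291) (nat_lit 2)) .nil)) .nil))) (.cons (.br (nat_lit 15) (nat_lit 0) (.cons (.rf (nat_lit 580) (nat_lit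 21174442659472880611461152)) (.cons (.br (nat_lit 15) (nat_lit 0) (.cons (.rf (nat_lit 580) (nat_lit 21174442659472880611461152)) .nil)) .nil))) .nil)))) .nil)))) .nil))),
 (.br (nat_lit 15) (nat_lit 0) (.cons (.ev (nat_lit 18609192100078643305020023415717365761) (nat_lit 4)) (.cons (.br (nat_lit 16) (nat_lit 0) (.cons (.br (nat_lit 16) (nat_lit 0) .nil) .nil)) .nil))),
 (.br (nat_lit 16) (nat_lit 0) (.cons (.ev (nat_lit 2668881308562433732934199298666660353) (nat_lit 2)) (.cons (.ev (nat_lit 349129718926606221425054878062694921273863) (nat_lit 3)) .nil))),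
 (.br (nat_lit 14) (nat_lit 0) (.cons (.ev (nat_lit 1334440575362539380471133225078489345) (nat_lit 1)) (.cons (.br (nat_lit 15) (nat_lit 0) (.cons (.ev (nat_lit 4763953137052228309571611228616547502081) (nat_lit 4)) (.cons (.rf (nat_lit 583) (nat_lit 677582165103132179601393696)) .nil))) .nil))),
 (.br (nat_lit 14) (nat_lit 0) (.cons (.ev (nat_lit 1329248357423895687097005173221883905) (nat_lit 1)) (.cons (.rf (nat_lit 584) (nat_lit 19926519232773908561233952)) (.cons (.br (nat_lit 14) (nat_lit 0) (.cons (.ev (nat_lit 1329248357423895687097005173221883905) (nat_lit 1)) (.cons (.rf (nat_lit 584) (nat_lit 19926519232773908561233952)) .nil))) .nil)))),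
 (.br (nat_lit 15) (nat_lit 0) (.cons (.ev (nat_lit 18609192100078643305020023415717365761) (nat_lit 4)) (.cons (.br (nat_lit 14) (nat_lit 0) (.cons (.rf (nat_lit 583) (nat_lit 600286470511521826743617568)) (.cons (.ev (nat_lit 348451812567626275915267255892080026845699) (nat_lit 3)) .nil))) .nil))),
 (.br (nat_lit 12) (nat_lit 0) (.cons (.ev (nat_lit 79229376162522493790208458753) (nat_lit 1)) (.cons (.ev (nat_lit 40723275532331869524185447531009) (nat_lit 2)) (.cons (.br (nat_lit 11) (nat_lit 0) (.cons (.rf (nat_lit 578) (nat_lit 17022140995484340291616)) (.cons (.rf (nat_lit 581) (nat_lit 17022140995484340291616)) (.cons (.br (nat_lit 11) (nat_lit 0) (.cons (.rf (nat_lit 578) (nat_lit 17022140995484340291616)) (.cons (.rf (nat_lit 581) (nat_lit 17022140995484340291616)) (.cons (.br (nat_lit 13) (nat_lit 0) (.cons (.br (nat_lit 14) (nat_lit 0) (.cons (.rf (nat_lit 582) (nat_lit 19926519232773908561233952)) (.cons (.rf (nat_lit 582) (nat_lit 18755372345022236548237344)) (.cons (.br (nat_lit 15) (nat_lit 0) (.cons (.br (nat_lit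 15) (nat_lit 0) (.cons (.ev (nat_lit 1334440575362539380471132121288671488) (nat_lit 1)) .nil)) (.cons (.br (nat_lit 15) (nat_lit 0) (.cons (.ev (nat_lit 1334440575362539380471132121288671488) (nat_lit 1)) .nil)) .nil))) .nil)))) (.cons (.rf (nat_lit 585) (nat_lit 19926519232773908561233952)) (.cons (.rf (nat_lit 585) (nat_lit 18755372345022236548237344)) (.cons (.br (nat_lit 14) (nat_lit 0) (.cons (.rf (nat_lit 586) (nat_lit 677582165103132179601393696)) (.cons (.rf (nat_lit 586) (nat_lit 676411018215380507588397088)) (.cons (.br (nat_lit 14) (nat_lit 0) (.cons (.rf (nat_lit 586) (nat_lit 677582165103132179601393696)) (.cons (.rf (nat_lit 586) (nat_lit 676411018215380507588397088)) .nil))) .nil)))) .nil))))) .nil)))) .nil)))) .nil)))),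
 (.br (nat_lit 15) (nat_lit 0) (.cons (.ev (nat_lit 2658578003563909546633237566582949379) (nat_lit 3)) (.cons (.br (nat_lit 16) (nat_lit 0) (.cons (.br (nat_lit 16) (nat_lit 0) .nil) .nil)) .nil))),
 (.br (nat_lit 13) (nat_lit 0) (.cons (.ev (nat_lit 40723896929684777897467922481667) (nat_lit 2)) (.cons (.br (nat_lit 14) (nat_lit 0) (.cons (.ev (nat_lit 10384752794792036694673524621574657) (nat_lit 2)) (.cons (.ev (nat_lit 5253302543670848206365634228060162) (nat_lit 2)) (.cons (.br (nat_lit 15) (nat_lit 0) (.cons (.br (nat_lit 15) (nat_lit 0) (.cons (.ev (nat_lit 1334440575362539380471133225078489345) (nat_lit 1)) .nil)) (.cons (.br (nat_lit 15) (nat_lit 0) (.cons (.ev (nat_lit 1334440575362539380471133225078489345) (nat_lit 1)) .nil)) .nil))) .nil)))) .nil))),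
 (.br (nat_lit 16) (nat_lit 0) (.cons (.ev (nat_lit 2044352698558629181214180846718740070405) (nat_lit 3)) .nil)),
 (.br (nat_lit 13) (nat_lit 0) (.cons (.ev (nat_lit 40723896929684777897467922481667) (nat_lit 2)) (.cons (.br (nat_lit 15) (nat_lit 0) (.cons (.kr (nat_lit 310698658079500161582629120) (nat_lit 1329228075013078405614889827062251520) (nat_lit 1) (nat_lit 0)) (.cons (.ev (nat_lit 2658496556389039049292578315552555009) (nat_lit 2)) (.cons (.br (nat_lit 14) (nat_lit 0) (.cons (.rf (nat_lit 590) (nat_lit 677582165103132179601393696)) (.cons (.br (nat_lit 14) (nat_lit 0) (.cons (.rf (nat_lit 590) (nat_lit 677582165103132179601393696)) .nil)) .nil))) .nil)))) .nil))),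
 (.br (nat_lit 15) (nat_lit 0) (.cons (.ev (nat_lit 2668840585286901401209354355071778819) (nat_lit 2)) (.cons (.br (nat_lit 16) (nat_lit 0) (.cons (.ev (nat_lit 688571255757434342383885342471337672711) (nat_lit 3)) .nil)) .nil))),
 (.br (nat_lit 14) (nat_lit 0) (.cons (.rf (nat_lit 592) (nat_lit 677582165103132179601393696)) (.cons (.rf (nat_lit 592) (nat_lit 640105464695078675185502240)) .nil))),
 (.br (nat_lit 14) (nat_lit 0) (.cons (.rf (nat_lit 593) (nat_lit 677582165103132179601393696)) (.cons (.ev (nat_lit 5212658497514641821729704470642688) (nat_lit 1)) .nil))),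
 (.br (nat_lit 11) (nat_lit 0) (.cons (.rf (nat_lit 587) (nat_lit 458082801782478701632)) (.cons (.br (nat_lit 13) (nat_lit 0) (.cons (.ev (nat_lit 72692632643337266032758428019326983) (nat_lit 4)) (.cons (.br (nat_lit 13) (nat_lit 0) (.cons (.ev (nat_lit 72692632643337266032758428019326983) (nat_lit 4)) (.cons (.br (nat_lit 14) (nat_lit 0) (.cons (.rf (nat_lit 588) (nat_lit 19926519232773908561233952)) (.cons (.rf (nat_lit 588) (nat_lit 18755372345022236548237344)) (.cons (.br (nat_lit 15) (nat_lit 0) (.cons (.br (nat_lit 15) (nat_lit 0) (.cons (.ev (nat_lit 1334440575362539380471132121288671488) (nat_lit 1)) .nil)) (.cons (.br (nat_lit 15) (nat_lit 0) (.cons (.ev (nat_lit 1334440575362539380471132121288671488) (nat_lit 1)) .nil)) .nil))) .nil)))) .nil))) .nil))) (.cons (.br (nat_lit 13) (nat_lit 0) (.cons (.rf (nat_lit 589) (nat_lit 583706118939841765935136)) (.cons (.rf (nat_lit 591) (nat_lit 583706118939841765935136)) (.cons (.br (nat_lit 13) (nat_lit 0) (.cons (.rf (nat_lit 589) (nat_lit 583706118939841765935136)) (.cons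 (.rf (nat_lit 591) (nat_lit 583706118939841765935136)) (.cons (.br (nat_lit 14) (nat_lit 0) (.cons (.rf (nat_lit 593) (nat_lit 677582165103132179601393696)) (.cons (.rf (nat_lit 594) (nat_lit 677582165103132179601393696)) (.cons (.rf (nat_lit 594) (nat_lit 640105464695078675185502240)) .nil)))) .nil)))) .nil)))) .nil)))),
 (.br (nat_lit 12) (nat_lit 0) (.cons (.br (nat_lit 12) (nat_lit 0) .nil) .nil)),
 (.br (nat_lit 12) (nat_lit 0) (.cons (.br (nat_lit 12) (nat_lit 0) .nil) .nil)),
 (.br (nat_lit 14) (nat_lit 0) (.cons (.br (nat_lit 15) (nat_lit 0) (.cons (.ev (nat_lit 1334420292952940451167191043682664448) (nat_lit 1)) .nil)) .nil)),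
 (.br (nat_lit 13) (nat_lit 0) (.cons (.ev (nat_lit 5192296859748475814627999444173056) (nat_lit 1)) (.cons (.br (nat_lit 14) (nat_lit 0) (.cons (.kr (nat_lit 5212579269352127557109536438354176) (nat_lit 1329228075322563415436515271235403776) (nat_lit 1) (nat_lit 0)) (.cons (.br (nat_lit 15) (nat_lit 0) (.cons (.ev (nat_lit 2668881308562433732934199298666660353) (nat_lit 2)) (.cons (.rf (nat_lit 596) (nat_lit 646192708113796405313)) .nil))) .nil))) (.cons (.br (nat_lit 14) (nat_lit 0) (.cons (.br (nat_lit 15) (nat_lit 0) (.cons (.ev (nat_lit 1329248357732167067178997912052957185) (nat_lit 1)) (.cons (.rf (nat_lit 597) (nat_lit 646192708113796405313)) .nil))) (.cons (.kr (nat_lit 40881731857360398199372501745665) (nat_lit 10384593719496951773371178374136320) (nat_lit 0) (nat_lit 2)) (.cons (.br (nat_lit 15) (nat_lit 0) (.cons (.rf (nat_lit 598) (nat_lit 21174442659472880612509728)) (.cons (.br (nat_lit 15) (nat_lit 0) (.cons (.rf (nat_lit 598) (nat_lit 21174442659472880612509728)) .nil)) .nil))) .nil)))) .nil)))),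
 (.br (nat_lit 12) (nat_lit 0) (.cons (.br (nat_lit 12) (nat_lit 0) .nil) .nil)),
 (.br (nat_lit 12) (nat_lit 0) (.cons (.br (nat_lit 12) (nat_lit 0) .nil) .nil)),
 (.br (nat_lit 14) (nat_lit 0) (.cons (.ev (nat_lit 5212658497514641821729704470642688) (nat_lit 1)) (.cons (.br (nat_lit 16) (nat_lit 0) (.cons (.ev (nat_lit 683223270964330395208073399667582697987) (nat_lit 3)) (.cons (.ev (nat_lit 340287559297334645833607622258113708033) (nat_lit 1)) .nil))) .nil))),
 (.br (nat_lit 13) (nat_lit 0) (.cons (.br (nat_lit 14) (nat_lit 0) (.cons (.ev (nat_lit 51923128286876492192599463021642759) (nat_lit 4)) (.cons (.br (nat_lit 15) (nat_lit 0) (.cons (.ev (nat_lit 2668881308562433732934199298666660353) (nat_lit 2)) (.cons (.rf (nat_lit 600) (nat_lit 646192708113796405313)) .nil))) .nil))) (.cons (.ev (nat_lit 1329227996094400901171897302226370816) (nat_lit 1)) (.cons (.br (nat_lit 14) (nat_lit 0) (.cons (.br (nat_lit 14) (nat_lit 0) (.cons (.ev (nat_lit 5212658497514641821729704470642688) (nat_lit 1)) (.cons (.rf (nat_lit 601) (nat_lit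 646192708113796405313)) .nil))) (.cons (.rf (nat_lit 602) (nat_lit 19926519232773908561233952)) (.cons (.br (nat_lit 14) (nat_lit 0) (.cons (.rf (nat_lit 601) (nat_lit 646192708113796405313)) (.cons (.rf (nat_lit 602) (nat_lit 19926519232773908561233952)) .nil))) .nil)))) .nil)))),
 (.br (nat_lit 14) (nat_lit 0) (.cons (.ev (nat_lit 2041725355624318445563323724371023233537) (nat_lit 3)) (.cons (.br (nat_lit 15) (nat_lit 0) (.cons (.ev (nat_lit 683223270964330395208073399667582697987) (nat_lit 3)) (.cons (.ev (nat_lit 2668840585286901401209354355071778819) (nat_lit 2)) .nil))) .nil))),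
 (.br (nat_lit 11) (nat_lit 0) (.cons (.br (nat_lit 11) (nat_lit 0) .nil) .nil)),
 (.br (nat_lit 14) (nat_lit 0) (.cons (.br (nat_lit 16) (nat_lit 0) (.cons (.ev (nat_lit 2668840585286901401209354355071778819) (nat_lit 2)) (.cons (.ev (nat_lit 340287579500516086970941932492776538368) (nat_lit 1)) .nil))) (.cons (.br (nat_lit 17) (nat_lit 0) (.cons (.ev (nat_lit 2668840585286901401209354355071778819) (nat_lit 2)) (.cons (.ev (nat_lit 87112291124136642828994132517359007629313) (nat_lit 1)) .nil))) .nil))),
 (.br (nat_lit 11) (nat_lit 0) (.cons (.rf (nat_lit 587) (nat_lit 458082801782478701632)) (.cons (.ev (nat_lit 621397353053052524394708993) (nat_lit 2)) (.cons (.br (nat_lit 12) (nat_lit 0) (.cons (.ev (nat_lit 20361637794611320504410706215680) (nat_lit 3)) (.cons (.rf (nat_lit 599) (nat_lit 583706118939841765935136)) (.cons (.rf (nat_lit 603) (nat_lit 583706118939841765935136)) (.cons (.br (nat_lit 13) (nat_lit 0) (.cons (.rf (nat_lit 603) (nat_lit 547072003193943912186944)) (.cons (.rf (nat_lit 599) (nat_lit 547072003193943912186944))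 (.cons (.br (nat_lit 14) (nat_lit 0) (.cons (.rf (nat_lit 604) (nat_lit 19926519232773908561233952)) (.cons (.br (nat_lit 14) (nat_lit 0) (.cons (.ev (nat_lit 2041725355624318445563323724371023233537) (nat_lit 3)) (.cons (.rf (nat_lit 605) (nat_lit 646192708113796405313)) .nil))) (.cons (.br (nat_lit 14) (nat_lit 0) (.cons (.rf (nat_lit 604) (nat_lit 19926519232773908561233952)) (.cons (.rf (nat_lit 605) (nat_lit 646192708113796405313)) .nil))) .nil)))) (.cons (.br (nat_lit 14) (nat_lit 0) (.cons (.rf (nat_lit 606) (nat_lit 677582165103132179601393696)) (.cons (.br (nat_lit 14) (nat_lit 0) (.cons (.rf (nat_lit 606) (nat_lit 677582165103132179601393696)) (.cons (.ev (nat_lit 5212658497514641821729704470642688) (nat_lit 1)) .nil))) (.cons (.br (nat_lit 14) (nat_lit 0) (.cons (.rf (nat_lit 606) (nat_lit 677582165103132179601393696)) (.cons (.ev (nat_lit 5212658497514641821729704470642688) (nat_lit 1)) .nil))) .nil)))) .nil))))) .nil))))) .nil))))]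

theorem c21 : chkAll C T R L21 (nat_lit 577) = true := by decide +kernel

theorem l21 : (nat_lit 577) + L21.length = (nat_lit 608) := by decide +kernel

/-- part of the certificates -/
def L22 : List Prf := [(.br (nat_lit 12) (nat_lit 0) (.cons (.br (nat_lit 12) (nat_lit 0) .nil) .nil)),
 (.br (nat_lit 12) (nat_lit 0) (.cons (.br (nat_lit 12) (nat_lit 0) .nil) .nil)),
 (.br (nat_lit 15) (nat_lit 0) (.cons (.ev (nat_lit 1329248357423890964730241923816620288) (nat_lit 1)) .nil)),
 (.br (nat_lit 12) (nat_lit 0) (.cons (.br (nat_lit 12) (nat_lit 0) .nil) .nil)),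
 (.br (nat_lit 12) (nat_lit 0) (.cons (.br (nat_lit 12) (nat_lit 0) .nil) .nil)),
 (.br (nat_lit 13) (nat_lit 0) (.cons (.ev (nat_lit 5212658497514641821729704470642688) (nat_lit 1)) (.cons (.br (nat_lit 16) (nat_lit 0) (.cons (.ev (nat_lit 683243959022126119911906951780980883975) (nat_lit 3)) (.cons (.ev (nat_lit 340282387282885714657649798283540824065) (nat_lit 1)) .nil))) .nil))),
 (.br (nat_lit 12) (nat_lit 0) (.cons (.br (nat_lit 12) (nat_lit 0) .nil) .nil)),
 (.br (nat_lit 14) (nat_lit 0) (.cons (.br (nat_lit 15) (nat_lit 0) (.cons (.ev (nat_lit 340282367000477319913352244891754692608) (nat_lit 1)) .nil)) .nil)),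
 (.br (nat_lit 13) (nat_lit 0) (.cons (.br (nat_lit 15) (nat_lit 0) (.cons (.ev (nat_lit 1334420372181098243136822990449213440) (nat_lit 1)) (.cons (.rf (nat_lit 614) (nat_lit 646192708113796405313)) .nil))) (.cons (.br (nat_lit 15) (nat_lit 0) (.cons (.ev (nat_lit 2041694242091073793917623578149575983623) (nat_lit 3)) (.cons (.br (nat_lit 15) (nat_lit 0) (.cons (.ev (nat_lit 680564774725465713272580145379650045443) (nat_lit 3)) .nil)) .nil))) (.cons (.br (nat_lit 15) (nat_lit 0) (.cons (.rf (nat_lit 615) (nat_lit 21174442659472880612543553)) (.cons (.br (nat_lit 15) (nat_lit 0) (.cons (.rf (nat_lit 615) (nat_lit 21174442659472880612543553)) .nil)) .nil))) .nil)))),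
 (.br (nat_lit 12) (nat_lit 0) (.cons (.br (nat_lit 12) (nat_lit 0) .nil) .nil)),
 (.br (nat_lit 13) (nat_lit 0) (.cons (.rf (nat_lit 616) (nat_lit 19926519232773908561233952)) (.cons (.br (nat_lit 14) (nat_lit 0) (.cons (.ev (nat_lit 5212658497514641821729704470642688) (nat_lit 1)) (.cons (.ev (nat_lit 680564774725465713272580145379650045443) (nat_lit 3)) (.cons (.br (nat_lit 16) (nat_lit 0) (.cons (.ev (nat_lit 2658496556389039049292578315552555009) (nat_lit 2)) (.cons (.ev (nat_lit 340287579500516086970941932492776538368) (nat_lit 1)) .nil))) .nil)))) (.cons (.br (nat_lit 15) (nat_lit 0) (.cons (.rf (nat_lit 617) (nat_lit 646192708113796405313)) (.cons (.br (nat_lit 14) (nat_lit 0) (.cons (.ev (nat_lit 683243959022126119911906951780980883975) (nat_lit 3)) (.cons (.br (nat_lit 16) (nat_lit 0) (.cons (.ev (nat_lit 341616787213583127812093042491492729088) (nat_lit 1)) .nil)) .nil))) (.cons (.ev (nat_lit 2658496556389039049292578315552555009) (nat_lit 2)) .nil)))) .nil)))),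
 (.br (nat_lit 11) (nat_lit 0) (.cons (.br (nat_lit 11) (nat_lit 0) .nil) .nil)),
 (.br (nat_lit 13) (nat_lit 0) (.cons (.rf (nat_lit 616) (nat_lit 19926519232773908561233952)) (.cons (.rf (nat_lit 618) (nat_lit 19926519232773908561233952)) (.cons (.br (nat_lit 14) (nat_lit 0) (.cons (.br (nat_lit 16) (nat_lit 0) (.cons (.kr (nat_lit 160313235087457308553685106689) (nat_lit 2679225179003971093215227551881887744) (nat_lit 0) (nat_lit 1)) (.cons (.ev (nat_lit 340287579500516086970941932492776538368) (nat_lit 1)) .nil))) (.cons (.rf (nat_lit 619) (nat_lit 646192708113796405313)) (.cons (.ev (nat_lit 5212658497514641821729704470642688) (nat_lit 1)) .nil)))) .nil)))),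
 (.br (nat_lit 11) (nat_lit 0) (.cons (.rf (nat_lit 595) (nat_lit 17022140995484340291616)) (.cons (.ev (nat_lit 621397353053052524394708993) (nat_lit 2)) (.cons (.br (nat_lit 12) (nat_lit 0) (.cons (.br (nat_lit 13) (nat_lit 0) (.cons (.ev (nat_lit 20282410817299856802921047916801) (nat_lit 1)) (.cons (.br (nat_lit 14) (nat_lit 0) (.cons (.kr (nat_lit 5212579269352127557109536438354176) (nat_lit 1329228075322563415436515271235403776) (nat_lit 1) (nat_lit 0)) (.cons (.br (nat_lit 15) (nat_lit 0) (.cons (.ev (nat_lit 1334420372181098243136822990449213440) (nat_lit 1)) (.cons (.rf (nat_lit 608) (nat_lit 646192708113796405313)) .nil))) .nil))) (.cons (.br (nat_lit 14) (nat_lit 0) (.cons (.br (nat_lit 15) (nat_lit 0) (.cons (.ev (nat_lit 2668881308562433732934199298666660353) (nat_lit 2)) (.cons (.rf (nat_lit 609) (nat_lit 646192708113796405313)) .nil))) (.cons (.br (nat_lit 15) (nat_lit 0) (.cons (.ev (nat_lit 9527979412473480143252749954759594352137) (nat_lit 5)) (.cons (.br (nat_lit 15) (nat_lit 0) (.cons (.ev (nat_lit 4083544618493133777687556231560610717209)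 (nat_lit 5)) .nil)) .nil))) (.cons (.br (nat_lit 15) (nat_lit 0) (.cons (.rf (nat_lit 610) (nat_lit 21174442659472880611461152)) (.cons (.br (nat_lit 15) (nat_lit 0) (.cons (.rf (nat_lit 610) (nat_lit 21174442659472880611461152)) .nil)) .nil))) .nil)))) .nil)))) (.cons (.kr (nat_lit 2417851711286852387340544) (nat_lit 5192376086697341892868094184914944) (nat_lit 1) (nat_lit 0)) (.cons (.br (nat_lit 14) (nat_lit 0) (.cons (.br (nat_lit 13) (nat_lit 0) (.cons (.ev (nat_lit 41822807702497355222526165582087177) (nat_lit 4)) (.cons (.br (nat_lit 15) (nat_lit 0) (.cons (.ev (nat_lit 2668881308562433732934199298666660353) (nat_lit 2)) (.cons (.rf (nat_lit 611) (nat_lit 646192708113796405313)) .nil))) .nil))) (.cons (.ev (nat_lit 1329227996094400901171897302226370816) (nat_lit 1)) (.cons (.br (nat_lit 13) (nat_lit 0) (.cons (.br (nat_lit 13) (nat_lit 0) (.cons (.ev (nat_lit 5212658497514641821729704470642688) (nat_lit 1)) (.cons (.rf (nat_lit 612) (nat_lit 646192708113796405313)) .nil))) (.cons (.rf (nat_lit 613) (nat_lit 19926519232773908561233952))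 (.cons (.br (nat_lit 13) (nat_lit 0) (.cons (.rf (nat_lit 612) (nat_lit 646192708113796405313)) (.cons (.rf (nat_lit 613) (nat_lit 19926519232773908561233952)) .nil))) .nil)))) .nil)))) (.cons (.br (nat_lit 13) (nat_lit 0) (.cons (.rf (nat_lit 616) (nat_lit 19926519232773908561233952)) (.cons (.rf (nat_lit 618) (nat_lit 19926519232773908561233952)) (.cons (.rf (nat_lit 620) (nat_lit 19926519232773908561233952)) (.cons (.br (nat_lit 13) (nat_lit 0) (.cons (.rf (nat_lit 616) (nat_lit 19926519232773908561233952)) (.cons (.rf (nat_lit 618) (nat_lit 19926519232773908561233952)) (.cons (.rf (nat_lit 620) (nat_lit 19926519232773908561233952)) .nil)))) .nil))))) .nil))))) .nil)))),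
 (.br (nat_lit 12) (nat_lit 0) (.cons (.br (nat_lit 12) (nat_lit 0) .nil) .nil)),
 (.br (nat_lit 14) (nat_lit 0) (.cons (.ev (nat_lit 1334440575362539380471133225078489345) (nat_lit 1)) (.cons (.br (nat_lit 15) (nat_lit 0) (.cons (.ev (nat_lit 1374421747800692833666903224901668833281) (nat_lit 4)) (.cons (.ev (nat_lit 1344845609946760845884243608304877570) (nat_lit 2)) .nil))) .nil))),
 (.br (nat_lit 14) (nat_lit 0) (.cons (.br (nat_lit 14) (nat_lit 0) (.cons (.ev (nat_lit 1334440575362539380471133225078489345) (nat_lit 1)) (.cons (.rf (nat_lit 622) (nat_lit 646192708113796405313)) .nil))) (.cons (.rf (nat_lit 623) (nat_lit 19926519232773908561233952)) (.cons (.br (nat_lit 14) (nat_lit 0) (.cons (.rf (nat_lit 622) (nat_lit 646192708113796405313)) (.cons (.rf (nat_lit 623) (nat_lit 19926519232773908561233952)) .nil))) .nil)))),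
 (.br (nat_lit 14) (nat_lit 0) (.cons (.br (nat_lit 15) (nat_lit 0) (.cons (.ev (nat_lit 2668840585286901401209354355071778819) (nat_lit 2)) (.cons (.br (nat_lit 16) (nat_lit 0) (.cons (.ev (nat_lit 683254424902699970347264807194484670471) (nat_lit 3)) .nil)) .nil))) (.cons (.br (nat_lit 17) (nat_lit 0) (.cons (.ev (nat_lit 2668840585286901401209354355071778819) (nat_lit 2)) (.cons (.ev (nat_lit 87112291124136642828994132518462831001600) (nat_lit 1)) .nil))) .nil))),
 (.br (nat_lit 12) (nat_lit 0) (.cons (.br (nat_lit 12) (nat_lit 0) .nil) .nil)),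
 (.br (nat_lit 13) (nat_lit 0) (.cons (.ev (nat_lit 5192296859748475814627999444173056) (nat_lit 1)) (.cons (.br (nat_lit 14) (nat_lit 0) (.cons (.ev (nat_lit 1334440575362539380471133225078489345) (nat_lit 1)) (.cons (.ev (nat_lit 340287579500516086970941932492776538368) (nat_lit 1)) (.cons (.br (nat_lit 15) (nat_lit 0) (.cons (.ev (nat_lit 2658496556389039049292578315552555009) (nat_lit 2)) (.cons (.br (nat_lit 16) (nat_lit 0) (.cons (.ev (nat_lit 2049690379727969860717050367413491859457) (nat_lit 3)) .nil)) .nil))) .nil)))) (.cons (.br (nat_lit 15) (nat_lit 0) (.cons (.rf (nat_lit 626) (nat_lit 646192708113796405313)) (.cons (.br (nat_lit 14) (nat_lit 0) (.cons (.ev (nat_lit 696515469950385738485961624158693099521) (nat_lit 4)) (.cons (.br (nat_lit 16) (nat_lit 0) (.cons (.ev (nat_lit 341616787213583127812093042491492729088) (nat_lit 1)) .nil)) .nil))) (.cons (.ev (nat_lit 2658496556389039049292578315552555009) (nat_lit 2)) .nil)))) .nil)))),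
 (.br (nat_lit 12) (nat_lit 0) (.cons (.br (nat_lit 12) (nat_lit 0) .nil) .nil)),
 (.br (nat_lit 12) (nat_lit 0) (.cons (.br (nat_lit 12) (nat_lit 0) .nil) .nil)),
 (.br (nat_lit 13) (nat_lit 0) (.cons (.zr (nat_lit 31153782391567004269745113785171973) (nat_lit 5316993588147062628616479380196163584) (nat_lit 16) (nat_lit 1)) (.cons (.br (nat_lit 14) (nat_lit 0) (.cons (.ev (nat_lit 341616787213583127812093043586726166785) (nat_lit 1)) (.cons (.ev (nat_lit 10425159157674311650398470192365571) (nat_lit 2)) .nil))) .nil))),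
 (.br (nat_lit 13) (nat_lit 0) (.cons (.br (nat_lit 14) (nat_lit 0) (.cons (.ev (nat_lit 680564774406696134230234179058528288769) (nat_lit 2)) (.cons (.ev (nat_lit 1334440575362539380471133225078489345) (nat_lit 1)) .nil))) (.cons (.br (nat_lit 14) (nat_lit 0) (.cons (.ev (nat_lit 1334440575362539380471133225078489345) (nat_lit 1)) (.cons (.ev (nat_lit 522676374046553052138859797836152692670979) (nat_lit 3)) .nil))) .nil))),
 (.br (nat_lit 13) (nat_lit 0) (.cons (.rf (nat_lit 631) (nat_lit 677582165103132179601393696)) (.cons (.br (nat_lit 17) (nat_lit 0) (.cons (.ev (nat_lit 522676374046553052138859797836152692670979) (nat_lit 3)) (.cons (.ev (nat_lit 680564774406696134230234179058528288769) (nat_lit 2)) .nil))) .nil))),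
 (.br (nat_lit 15) (nat_lit 0) (.cons (.br (nat_lit 13) (nat_lit 0) (.cons (.br (nat_lit 14) (nat_lit 0) (.cons (.ev (nat_lit 16055191154890176761327025872366213145) (nat_lit 5)) (.cons (.rf (nat_lit 628) (nat_lit 646192708113796405313)) .nil))) (.cons (.br (nat_lit 14) (nat_lit 0) (.cons (.ev (nat_lit 341611615199134196636135217413096472833) (nat_lit 1)) (.cons (.br (nat_lit 14) (nat_lit 0) (.cons (.ev (nat_lit 341611615199134196636135218516919845120) (nat_lit 1)) .nil)) .nil))) (.cons (.br (nat_lit 14) (nat_lit 0) (.cons (.br (nat_lit 14) (nat_lit 0) (.cons (.ev (nat_lit 10425159157674311650398470192365571) (nat_lit 2)) .nil)) (.cons (.br (nat_lit 14) (nat_lit 0) (.cons (.ev (nat_lit 10425159157674311650398470192365571) (nat_lit 2)) .nil)) .nil))) .nil)))) (.cons (.br (nat_lit 13) (nat_lit 0) (.cons (.br (nat_lit 13) (nat_lit 0) (.cons (.zr (nat_lit 31153782391567004269745113785171973) (nat_lit 5316993588147062628616479380196163584) (nat_lit 16) (nat_lit 1)) (.cons (.rf (nat_lit 629) (nat_lit 646192708113796405313)) .nil)))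 (.cons (.rf (nat_lit 630) (nat_lit 19926519232773908561233952)) (.cons (.br (nat_lit 13) (nat_lit 0) (.cons (.rf (nat_lit 629) (nat_lit 646192708113796405313)) (.cons (.rf (nat_lit 630) (nat_lit 19926519232773908561233952)) .nil))) .nil)))) (.cons (.ev (nat_lit 1329227996094400901171896207026487553) (nat_lit 1)) (.cons (.br (nat_lit 13) (nat_lit 0) (.cons (.rf (nat_lit 631) (nat_lit 677582165103132179601393696)) (.cons (.rf (nat_lit 632) (nat_lit 677582165103132179601393696)) (.cons (.br (nat_lit 13) (nat_lit 0) (.cons (.rf (nat_lit 631) (nat_lit 677582165103132179601393696)) (.cons (.rf (nat_lit 632) (nat_lit 677582165103132179601393696)) .nil))) .nil)))) .nil))))),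
 (.br (nat_lit 14) (nat_lit 0) (.cons (.ev (nat_lit 2658496556389039049292578315552555009) (nat_lit 2)) (.cons (.br (nat_lit 15) (nat_lit 0) (.cons (.ev (nat_lit 683233614992604432984207227454289477635) (nat_lit 2)) (.cons (.br (nat_lit 16) (nat_lit 0) (.cons (.ev (nat_lit 683223189834068156025609881508491821057) (nat_lit 2)) .nil)) .nil))) (.cons (.br (nat_lit 15) (nat_lit 0) (.cons (.br (nat_lit 16) (nat_lit 0) (.cons (.ev (nat_lit 342946015368136271630326894232772542979) (nat_lit 2)) .nil)) (.cons (.ev (nat_lit 16002740839926824760372210446429719559) (nat_lit 4)) .nil))) .nil)))),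
 (.br (nat_lit 15) (nat_lit 0) (.cons (.br (nat_lit 16) (nat_lit 0) (.cons (.ev (nat_lit 342940883760050222692287190773008630272) (nat_lit 2)) .nil)) (.cons (.ev (nat_lit 1045358127354008654454440522582086056935425) (nat_lit 4)) .nil))),
 (.br (nat_lit 13) (nat_lit 0) (.cons (.rf (nat_lit 634) (nat_lit 677582165103132179601393696)) (.cons (.rf (nat_lit 634) (nat_lit 676411018215380507588397088)) (.cons (.br (nat_lit 14) (nat_lit 0) (.cons (.rf (nat_lit 635) (nat_lit 677582165103132179601393696)) (.cons (.rf (nat_lit 635) (nat_lit 676411018215380507588397088)) (.cons (.ev (nat_lit 174224577116823039391392234010173369287169) (nat_lit 2)) .nil)))) .nil)))),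
 (.br (nat_lit 13) (nat_lit 0) (.cons (.rf (nat_lit 636) (nat_lit 677582165103132179601393696)) (.cons (.br (nat_lit 15) (nat_lit 0) (.cons (.br (nat_lit 14) (nat_lit 0) (.cons (.ev (nat_lit 683233614992604432984207227454289477635) (nat_lit 2)) (.cons (.ev (nat_lit 2689731626253957780741402054583648259) (nat_lit 3)) .nil))) (.cons (.ev (nat_lit 2658496556389039049292578315552555009) (nat_lit 2)) (.cons (.br (nat_lit 14) (nat_lit 0) (.cons (.ev (nat_lit 2049669691354494609255133315898378552321) (nat_lit 3)) (.cons (.ev (nat_lit 174232547312626086425020738418110491918851) (nat_lit 3)) .nil))) .nil)))) (.cons (.br (nat_lit 17) (nat_lit 0) (.cons (.br (nat_lit 14) (nat_lit 0) (.cons (.ev (nat_lit 174224582288837485895234925590243430236673) (nat_lit 2)) (.cons (.ev (nat_lit 10425159157674311650398470192365571) (nat_lit 2)) .nil))) (.cons (.ev (nat_lit 2658496556389039049292578315552555009) (nat_lit 2)) (.cons (.ev (nat_lit 174224571904404082079593629935581437888003) (nat_lit 3)) .nil)))) .nil))))]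

theorem c22 : chkAll C T R L22 (nat_lit 608) = true := by decide +kernel

theorem l22 : (nat_lit 608) + L22.length = (nat_lit 638) := by decide +kernel

/-- part of the certificates -/
def L23 : List Prf := [(.br (nat_lit 10) (nat_lit 0) (.cons (.rf (nat_lit 574) (nat_lit 493858305440582043680)) (.cons (.rf (nat_lit 587) (nat_lit 493858305440582043680)) (.cons (.br (nat_lit 11) (nat_lit 0) (.cons (.rf (nat_lit 595) (nat_lit 17022140995484340291616)) (.cons (.rf (nat_lit 607) (nat_lit 17022140995484340291616)) (.cons (.rf (nat_lit 621) (nat_lit 17022140995484340291616)) (.cons (.br (nat_lit 11) (nat_lit 0) (.cons (.rf (nat_lit 595) (nat_lit 17022140995484340291616)) (.cons (.rf (nat_lit 607) (nat_lit 17022140995484340291616)) (.cons (.rf (nat_lit 621) (nat_lit 17022140995484340291616)) (.cons (.br (nat_lit 12) (nat_lit 0) (.cons (.br (nat_lit 13) (nat_lit 0) (.cons (.ev (nat_lit 20282410817299856802921047916801) (nat_lit 1)) (.cons (.rf (nat_lit 624) (nat_lit 19926519232773908561233952)) (.cons (.rf (nat_lit 624) (nat_lit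 18755372345022236548237344)) (.cons (.br (nat_lit 14) (nat_lit 0) (.cons (.rf (nat_lit 625) (nat_lit 677582165103132179601393696)) (.cons (.rf (nat_lit 625) (nat_lit 676411018215380507588397088)) (.cons (.br (nat_lit 14) (nat_lit 0) (.cons (.rf (nat_lit 625) (nat_lit 677582165103132179601393696)) (.cons (.rf (nat_lit 625) (nat_lit 676411018215380507588397088)) .nil))) .nil)))) .nil))))) (.cons (.br (nat_lit 13) (nat_lit 0) (.cons (.ev (nat_lit 5192296859748475814629094677610753) (nat_lit 1)) (.cons (.rf (nat_lit 627) (nat_lit 19926519232773908561233952)) (.cons (.rf (nat_lit 627) (nat_lit 18755372345022236548237344)) (.cons (.br (nat_lit 13) (nat_lit 0) (.cons (.ev (nat_lit 5192296859748475814627999444173056) (nat_lit 1)) (.cons (.rf (nat_lit 627) (nat_lit 19926519232773908561233952)) (.cons (.rf (nat_lit 627) (nat_lit 18755372345022236548237344)) .nil)))) .nil))))) (.cons (.rf (nat_lit 633) (nat_lit 19926519232773908561233952)) (.cons (.rf (nat_lit 633) (nat_lit 18755372345022236548237344)) (.cons (.br (nat_lit 13) (nat_lit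 0) (.cons (.rf (nat_lit 636) (nat_lit 677582165103132179601393696)) (.cons (.rf (nat_lit 637) (nat_lit 677582165103132179601393696)) (.cons (.rf (nat_lit 637) (nat_lit 676411018215380507588397088)) (.cons (.br (nat_lit 13) (nat_lit 0) (.cons (.rf (nat_lit 636) (nat_lit 677582165103132179601393696)) (.cons (.rf (nat_lit 637) (nat_lit 677582165103132179601393696)) (.cons (.rf (nat_lit 637) (nat_lit 676411018215380507588397088)) .nil)))) .nil))))) .nil)))))) .nil))))) .nil))))) .nil)))),
 (.br (nat_lit 15) (nat_lit 0) (.cons (.br (nat_lit 16) (nat_lit 0) (.cons (.ev (nat_lit 2049690419818658051863701179621093802499) (nat_lit 3)) .nil)) .nil)),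
 (.br (nat_lit 14) (nat_lit 0) (.cons (.ev (nat_lit 5212658497514641821729704470642688) (nat_lit 1)) (.cons (.ev (nat_lit 10384754035159446139225083409204229) (nat_lit 3)) (.cons (.br (nat_lit 13) (nat_lit 0) (.cons (.br (nat_lit 15) (nat_lit 0) (.cons (.ev (nat_lit 2668881308562433732934199298666660353) (nat_lit 2)) (.cons (.rf (nat_lit 600) (nat_lit 610417238540585999425)) .nil))) (.cons (.br (nat_lit 15) (nat_lit 0) (.cons (.ev (nat_lit 680564774407317531583142552341070348291) (nat_lit 2)) (.cons (.br (nat_lit 15) (nat_lit 0) (.cons (.ev (nat_lit 680564774407317531583142552341070348291) (nat_lit 2)) .nil)) .nil))) (.cons (.br (nat_lit 15) (nat_lit 0) (.cons (.rf (nat_lit 639) (nat_lit 677582165103132179601393696)) (.cons (.br (nat_lit 15) (nat_lit 0) (.cons (.rf (nat_lit 639) (nat_lit 677582165103132179601393696)) .nil)) .nil))) .nil)))) .nil)))),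
 (.br (nat_lit 14) (nat_lit 0) (.cons (.br (nat_lit 16) (nat_lit 0) (.cons (.ev (nat_lit 685892111548995880440263641838271989253) (nat_lit 3)) .nil)) .nil)),
 (.br (nat_lit 15) (nat_lit 0) (.cons (.ev (nat_lit 1329248357732167067178996816819519488) (nat_lit 1)) (.cons (.ev (nat_lit 7975368451318856548134064644962780167) (nat_lit 3)) (.cons (.br (nat_lit 13) (nat_lit 0) (.cons (.br (nat_lit 14) (nat_lit 0) (.cons (.ev (nat_lit 2668881308562433732934199298666660353) (nat_lit 2)) (.cons (.rf (nat_lit 596) (nat_lit 646157805183398255681)) .nil))) (.cons (.br (nat_lit 14) (nat_lit 0) (.cons (.ev (nat_lit 680564774407317531583142552341070348291) (nat_lit 2)) (.cons (.br (nat_lit 14) (nat_lit 0) (.cons (.ev (nat_lit 680564774407317531583142552341070348291) (nat_lit 2)) .nil)) .nil))) (.cons (.br (nat_lit 14) (nat_lit 0) (.cons (.rf (nat_lit 641) (nat_lit 677582165103132179601393696)) (.cons (.br (nat_lit 14) (nat_lit 0) (.cons (.rf (nat_lit 641) (nat_lit 677582165103132179601393696)) .nil)) .nil))) .nil)))) .nil)))),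
 (.br (nat_lit 14) (nat_lit 0) (.cons (.ev (nat_lit 4764026032666159462456748448416449432591) (nat_lit 4)) (.cons (.br (nat_lit 15) (nat_lit 0) (.cons (.ev (nat_lit 683223312007004148193389971435208049665) (nat_lit 4)) (.cons (.ev (nat_lit 2668840585286901401209354355071778819) (nat_lit 2)) .nil))) .nil))),
 (.br (nat_lit 14) (nat_lit 0) (.cons (.br (nat_lit 15) (nat_lit 0) (.cons (.ev (nat_lit 2668840585286901401209354355071778819) (nat_lit 2)) (.cons (.br (nat_lit 16) (nat_lit 0) (.cons (.ev (nat_lit 341611594996261026878882898822064832513) (nat_lit 1)) .nil)) .nil))) (.cons (.br (nat_lit 15) (nat_lit 0) (.cons (.br (nat_lit 17) (nat_lit 0) (.cons (.ev (nat_lit 340287559297026374453525630614516072448) (nat_lit 1)) .nil)) (.cons (.ev (nat_lit 2668840585286901401209354355071778819) (nat_lit 2)) .nil))) .nil))),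
 (.br (nat_lit 14) (nat_lit 0) (.cons (.rf (nat_lit 644) (nat_lit 677582165103132179601393696)) (.cons (.br (nat_lit 15) (nat_lit 0) (.cons (.ev (nat_lit 680564734000954649308186827395499557377) (nat_lit 2)) (.cons (.ev (nat_lit 174224571904085933897904192342542858190851) (nat_lit 2)) .nil))) .nil))),
 (.br (nat_lit 11) (nat_lit 0) (.cons (.ev (nat_lit 20282719088679938794564679106816) (nat_lit 1)) (.cons (.ev (nat_lit 621397353053052524394708993) (nat_lit 2)) (.cons (.br (nat_lit 12) (nat_lit 0) (.cons (.ev (nat_lit 20361637794611320504410706215680) (nat_lit 3)) (.cons (.rf (nat_lit 640) (nat_lit 583706118939841765935136)) (.cons (.rf (nat_lit 642) (nat_lit 583706118939841765935136)) (.cons (.br (nat_lit 13) (nat_lit 0) (.cons (.rf (nat_lit 642) (nat_lit 547072003193943912186944)) (.cons (.rf (nat_lit 640) (nat_lit 547072003193943912186944)) (.cons (.br (nat_lit 14) (nat_lit 0) (.cons (.rf (nat_lit 643) (nat_lit 19926519232773908561233952)) (.cons (.br (nat_lit 14) (nat_lit 0) (.cons (.ev (nat_lit 4764026032666159462456748448416449432591)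 (nat_lit 4)) (.cons (.rf (nat_lit 605) (nat_lit 646192674028903438370)) .nil))) (.cons (.br (nat_lit 14) (nat_lit 0) (.cons (.rf (nat_lit 643) (nat_lit 19926519232773908561233952)) (.cons (.rf (nat_lit 605) (nat_lit 646192674028903438370)) .nil))) .nil)))) (.cons (.br (nat_lit 14) (nat_lit 0) (.cons (.rf (nat_lit 644) (nat_lit 677582165103132179601393696)) (.cons (.rf (nat_lit 645) (nat_lit 677582165103132179601393696)) (.cons (.br (nat_lit 14) (nat_lit 0) (.cons (.rf (nat_lit 644) (nat_lit 677582165103132179601393696)) (.cons (.rf (nat_lit 645) (nat_lit 677582165103132179601393696)) .nil))) .nil)))) .nil))))) .nil))))) .nil)))),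
 (.br (nat_lit 15) (nat_lit 0) (.cons (.br (nat_lit 16) (nat_lit 0) (.cons (.ev (nat_lit 2047042308331971600315128004850019730435) (nat_lit 3)) .nil)) .nil)),
 (.br (nat_lit 12) (nat_lit 0) (.cons (.br (nat_lit 16) (nat_lit 0) (.cons (.ev (nat_lit 2047031964301219236348082910030371095559) (nat_lit 3)) .nil)) .nil)),
 (.br (nat_lit 16) (nat_lit 0) (.cons (.ev (nat_lit 340282387282885714657649798283540824065) (nat_lit 1)) .nil)),
 (.br (nat_lit 12) (nat_lit 0) (.cons (.ev (nat_lit 79537647542604484330016276481) (nat_lit 1)) (.cons (.br (nat_lit 15) (nat_lit 0) (.cons (.ev (nat_lit 680564774407317531583142552341070348291) (nat_lit 2)) (.cons (.br (nat_lit 15) (nat_lit 0) (.cons (.ev (nat_lit 680564774407317531583142552341070348291) (nat_lit 2)) .nil)) .nil))) (.cons (.br (nat_lit 15) (nat_lit 0) (.cons (.rf (nat_lit 649) (nat_lit 677582165103132179601393696)) (.cons (.br (nat_lit 15) (nat_lit 0) (.cons (.rf (nat_lit 649) (nat_lit 677582165103132179601393696)) .nil)) .nil))) .nil)))),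
 (.br (nat_lit 12) (nat_lit 0) (.cons (.ev (nat_lit 79537647542604484330016276481) (nat_lit 1)) (.cons (.br (nat_lit 14) (nat_lit 0) (.cons (.ev (nat_lit 1329227996094400901171896207026487553) (nat_lit 1)) (.cons (.ev (nat_lit 52086337680277338921037395302419465) (nat_lit 4)) (.cons (.br (nat_lit 15) (nat_lit 0) (.cons (.ev (nat_lit 680564774407317531583142552341070348291) (nat_lit 2)) (.cons (.br (nat_lit 16) (nat_lit 0) (.cons (.ev (nat_lit 8180225100581488497046631807785256226317) (nat_lit 5)) .nil)) .nil))) .nil)))) (.cons (.br (nat_lit 14) (nat_lit 0) (.cons (.ev (nat_lit 1329227996094400901171896207026487553) (nat_lit 1)) (.cons (.br (nat_lit 16) (nat_lit 0) (.cons (.ev (nat_lit 2730307076633474982242112344284643854877) (nat_lit 5)) (.cons (.ev (nat_lit 340282387282885714657649797188307386368) (nat_lit 1)) .nil))) (.cons (.br (nat_lit 15) (nat_lit 0) (.cons (.ev (nat_lit 10685909670134304208613253847003038729) (nat_lit 4)) (.cons (.ev (nat_lit 5327297369771854345930175340452904961) (nat_lit 4)) .nil))) .nil)))) .nil)))),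
 (.br (nat_lit 12) (nat_lit 0) (.cons (.rf (nat_lit 650) (nat_lit 19926519232773908561233952)) (.cons (.rf (nat_lit 651) (nat_lit 19926519232773908561233952)) (.cons (.br (nat_lit 16) (nat_lit 0) (.cons (.rf (nat_lit 619) (nat_lit 646192674028903438370)) (.cons (.ev (nat_lit 680564774407317531583142552341070348291) (nat_lit 2)) (.cons (.br (nat_lit 14) (nat_lit 0) (.cons (.br (nat_lit 15) (nat_lit 0) (.cons (.ev (nat_lit 341611615199442468016217209056727662848) (nat_lit 1)) .nil)) (.cons (.ev (nat_lit 524034865908720769875616346362140774760455) (nat_lit 3)) .nil))) .nil)))) .nil)))),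
 (.br (nat_lit 11) (nat_lit 0) (.cons (.ev (nat_lit 621397353053052524394708993) (nat_lit 2)) (.cons (.rf (nat_lit 638) (nat_lit 458082801782478701632)) (.cons (.br (nat_lit 13) (nat_lit 0) (.cons (.br (nat_lit 12) (nat_lit 0) (.cons (.ev (nat_lit 121852921209938202999414534964229) (nat_lit 3)) (.cons (.br (nat_lit 14) (nat_lit 0) (.cons (.ev (nat_lit 5212658497514641821728609270759425) (nat_lit 1)) (.cons (.br (nat_lit 15) (nat_lit 0) (.cons (.ev (nat_lit 13323434056541678105435001148114863617) (nat_lit 4)) (.cons (.rf (nat_lit 608) (nat_lit 646192674028903438370)) .nil))) .nil))) (.cons (.br (nat_lit 14) (nat_lit 0) (.cons (.br (nat_lit 15) (nat_lit 0) (.cons (.ev (nat_lit 2668881308562433732934199298666660353) (nat_lit 2)) (.cons (.rf (nat_lit 609) (nat_lit 646192674028903438370)) .nil))) (.cons (.ev (nat_lit 5212658497514641821728609270759425) (nat_lit 1)) (.cons (.br (nat_lit 15) (nat_lit 0) (.cons (.rf (nat_lit 647) (nat_lit 677582165103132179601393696)) (.cons (.br (nat_lit 15) (nat_lit 0) (.cons (.rf (nat_lit 647)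 (nat_lit 677582165103132179601393696)) .nil)) .nil))) .nil)))) .nil)))) (.cons (.ev (nat_lit 10425158536276958742025187650306049) (nat_lit 2)) (.cons (.br (nat_lit 14) (nat_lit 0) (.cons (.br (nat_lit 12) (nat_lit 0) (.cons (.ev (nat_lit 79537647542604484330016276481) (nat_lit 1)) (.cons (.br (nat_lit 15) (nat_lit 0) (.cons (.ev (nat_lit 2668881308562433732934199298666660353) (nat_lit 2)) (.cons (.rf (nat_lit 611) (nat_lit 646192674028903438370)) .nil))) .nil))) (.cons (.ev (nat_lit 2679265743825605656178895289986582017) (nat_lit 3)) (.cons (.br (nat_lit 15) (nat_lit 0) (.cons (.br (nat_lit 12) (nat_lit 0) (.cons (.ev (nat_lit 10685747410857474995247610503539328001) (nat_lit 4)) (.cons (.rf (nat_lit 612) (nat_lit 646192674028903438370)) .nil))) (.cons (.ev (nat_lit 1334440575054268000389140477657481473) (nat_lit 1)) (.cons (.br (nat_lit 12) (nat_lit 0) (.cons (.rf (nat_lit 648) (nat_lit 677582165103132179601393696)) (.cons (.br (nat_lit 12) (nat_lit 0) (.cons (.rf (nat_lit 648) (nat_lit 677582165103132179601393696)) .nil))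 .nil))) .nil)))) .nil)))) (.cons (.br (nat_lit 12) (nat_lit 0) (.cons (.rf (nat_lit 650) (nat_lit 19926519232773908561233952)) (.cons (.rf (nat_lit 651) (nat_lit 19926519232773908561233952)) (.cons (.rf (nat_lit 652) (nat_lit 19926519232773908561233952)) (.cons (.br (nat_lit 12) (nat_lit 0) (.cons (.rf (nat_lit 650) (nat_lit 19926519232773908561233952)) (.cons (.rf (nat_lit 651) (nat_lit 19926519232773908561233952)) (.cons (.rf (nat_lit 652) (nat_lit 19926519232773908561233952)) .nil)))) .nil))))) .nil))))) .nil)))),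
 (.br (nat_lit 15) (nat_lit 0) (.cons (.br (nat_lit 14) (nat_lit 0) (.cons (.ev (nat_lit 18661236764354699086309194901537948687) (nat_lit 4)) (.cons (.rf (nat_lit 622) (nat_lit 646192674028903438370)) .nil))) (.cons (.ev (nat_lit 1329227996094400901171897302226370816) (nat_lit 1)) (.cons (.br (nat_lit 14) (nat_lit 0) (.cons (.br (nat_lit 14) (nat_lit 0) (.cons (.ev (nat_lit 1344845609946760845884243608304877570) (nat_lit 2)) .nil)) (.cons (.br (nat_lit 14) (nat_lit 0) (.cons (.ev (nat_lit 1344845609946760845884243608304877570) (nat_lit 2)) .nil)) .nil))) .nil)))),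
 (.br (nat_lit 16) (nat_lit 0) (.cons (.ev (nat_lit 680575118437455761344359764759857726469) (nat_lit 3)) (.cons (.ev (nat_lit 2668881308562433733078314495298895873) (nat_lit 2)) (.cons (.ev (nat_lit 341616787213583127812093042491492729088) (nat_lit 1)) .nil)))),
 (.br (nat_lit 14) (nat_lit 0) (.cons (.br (nat_lit 15) (nat_lit 0) (.cons (.ev (nat_lit 2668840585286901401209354355071778819) (nat_lit 2)) (.cons (.rf (nat_lit 655) (nat_lit 677582165103132179601393696)) .nil))) (.cons (.br (nat_lit 15) (nat_lit 0) (.cons (.br (nat_lit 16) (nat_lit 0) (.cons (.ev (nat_lit 2044352779370121822464258258125704922117) (nat_lit 3)) .nil)) (.cons (.ev (nat_lit 2668840585286901401209354355071778819) (nat_lit 2)) .nil))) .nil))),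
 (.br (nat_lit 12) (nat_lit 0) (.cons (.ev (nat_lit 121852921209938202999414534964229) (nat_lit 3)) (.cons (.rf (nat_lit 654) (nat_lit 19926519232773908561233952)) (.cons (.rf (nat_lit 654) (nat_lit 18755372345022236548237344)) (.cons (.br (nat_lit 14) (nat_lit 0) (.cons (.rf (nat_lit 656) (nat_lit 677582165103132179601393696)) (.cons (.rf (nat_lit 656) (nat_lit 676411018215380507588397088)) (.cons (.br (nat_lit 14) (nat_lit 0) (.cons (.rf (nat_lit 656) (nat_lit 677582165103132179601393696)) (.cons (.rf (nat_lit 656) (nat_lit 676411018215380507588397088)) .nil))) .nil)))) .nil)))))]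

theorem c23 : chkAll C T R L23 (nat_lit 638) = true := by decide +kernel

theorem l23 : (nat_lit 638) + L23.length = (nat_lit 658) := by decide +kernel

/-- part of the certificates -/
def L24 : List Prf := [(.br (nat_lit 16) (nat_lit 0) (.cons (.ev (nat_lit 688540223669507632102375056639753454597) (nat_lit 3)) (.cons (.ev (nat_lit 683223189834068156025609881508491821057) (nat_lit 2)) .nil))),
 (.br (nat_lit 15) (nat_lit 0) (.cons (.br (nat_lit 14) (nat_lit 0) (.cons (.zr (nat_lit 40565443013136942462103304798215) (nat_lit 2668840743743245319060407678845321216) (nat_lit 16) (nat_lit 1)) (.cons (.rf (nat_lit 628) (nat_lit 646192674028903438370)) .nil))) (.cons (.ev (nat_lit 10384752173394683786300242146624003) (nat_lit 2)) (.cons (.ev (nat_lit 1329227996094400901171897302226370816) (nat_lit 1)) (.cons (.br (nat_lit 13) (nat_lit 0) (.cons (.br (nat_lit 16) (nat_lit 0) (.cons (.rf (nat_lit 658) (nat_lit 677582165103132179601393696)) .nil)) (.cons (.br (nat_lit 16) (nat_lit 0) (.cons (.ev (nat_lit 2041694323538246274749949952778974528001)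 (nat_lit 3)) (.cons (.ev (nat_lit 688540223669507632102375056639753454597) (nat_lit 3)) .nil))) (.cons (.br (nat_lit 17) (nat_lit 0) (.cons (.ev (nat_lit 174227240744670599401952348644373535260673) (nat_lit 2)) (.cons (.rf (nat_lit 658) (nat_lit 677582165103132179601393696)) .nil))) .nil)))) .nil))))),
 (.br (nat_lit 15) (nat_lit 0) (.cons (.rf (nat_lit 629) (nat_lit 646192674028903438370)) (.cons (.br (nat_lit 16) (nat_lit 0) (.cons (.ev (nat_lit 2060376369580711205368697753682835932687) (nat_lit 4)) (.cons (.ev (nat_lit 680564734000954649308186827395499557377) (nat_lit 2)) .nil))) (.cons (.ev (nat_lit 1334420371872826863054831346818023425) (nat_lit 1)) .nil)))),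
 (.br (nat_lit 12) (nat_lit 0) (.cons (.ev (nat_lit 121852921209938202999414534964229) (nat_lit 3)) (.cons (.rf (nat_lit 659) (nat_lit 19926519232773908561233952)) (.cons (.rf (nat_lit 659) (nat_lit 18755372345022236548237344)) (.cons (.br (nat_lit 14) (nat_lit 0) (.cons (.br (nat_lit 15) (nat_lit 0) (.cons (.br (nat_lit 15) (nat_lit 0) (.cons (.ev (nat_lit 2658456150647554127245226652523823617) (nat_lit 2)) .nil)) (.cons (.br (nat_lit 15) (nat_lit 0) (.cons (.ev (nat_lit 2658456150647554127245226652523823617) (nat_lit 2)) .nil)) .nil))) (.cons (.rf (nat_lit 660) (nat_lit 677582165103132179601393696)) (.cons (.rf (nat_lit 660) (nat_lit 676411018215380507588397088)) (.cons (.ev (nat_lit 10384752173394683786300242146624003) (nat_lit 2)) .nil))))) .nil))))),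
 (.br (nat_lit 16) (nat_lit 0) (.cons (.ev (nat_lit 680564734000954649308186827395499557377) (nat_lit 2)) .nil)),
 (.br (nat_lit 12) (nat_lit 0) (.cons (.rf (nat_lit 657) (nat_lit 19926519232773908561233952)) (.cons (.rf (nat_lit 661) (nat_lit 19926519232773908561233952)) (.cons (.ev (nat_lit 79537647542604484330016276481) (nat_lit 1)) (.cons (.br (nat_lit 15) (nat_lit 0) (.cons (.br (nat_lit 14) (nat_lit 0) (.cons (.rf (nat_lit 662) (nat_lit 677582165103132179601393696)) (.cons (.br (nat_lit 14) (nat_lit 0) (.cons (.rf (nat_lit 662) (nat_lit 677582165103132179601393696)) .nil)) .nil))) (.cons (.br (nat_lit 13) (nat_lit 0) (.cons (.rf (nat_lit 626) (nat_lit 646192674028903438370)) (.cons (.br (nat_lit 16) (nat_lit 0) (.cons (.ev (nat_lit 2047011235204473288184219600286881154561) (nat_lit 3)) (.cons (.ev (nat_lit 683223312003280618668105409131712610309) (nat_lit 3)) .nil))) (.cons (.br (nat_lit 14) (nat_lit 0) (.cons (.rf (nat_lit 655) (nat_lit 484154039729399034682640416)) (.cons (.ev (nat_lit 174224582288837485895234925590243430236673)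 (nat_lit 2)) .nil))) .nil)))) (.cons (.ev (nat_lit 1329227996094400901171897302226370816) (nat_lit 1)) (.cons (.br (nat_lit 13) (nat_lit 0) (.cons (.ev (nat_lit 1329268798291028570893073074446532867) (nat_lit 2)) (.cons (.br (nat_lit 16) (nat_lit 0) (.cons (.ev (nat_lit 683223312003280618668105409131712610309) (nat_lit 3)) (.cons (.ev (nat_lit 87452568318963904198767212904529109451008) (nat_lit 1)) .nil))) (.cons (.ev (nat_lit 174225901091595506381079916288253454582016) (nat_lit 2)) .nil)))) .nil))))) .nil))))),
 (.br (nat_lit 10) (nat_lit 0) (.cons (.rf (nat_lit 574) (nat_lit 493858305440582043680)) (.cons (.rf (nat_lit 638) (nat_lit 493858305440582043680)) (.cons (.br (nat_lit 11) (nat_lit 0) (.cons (.rf (nat_lit 646) (nat_lit 17022140995484340291616)) (.cons (.rf (nat_lit 638) (nat_lit 458082801782478701632)) (.cons (.rf (nat_lit 653) (nat_lit 17022140995484340291616)) (.cons (.br (nat_lit 11) (nat_lit 0) (.cons (.rf (nat_lit 646) (nat_lit 17022140995484340291616)) (.cons (.rf (nat_lit 638) (nat_lit 458082801782478701632))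 (.cons (.rf (nat_lit 653) (nat_lit 17022140995484340291616)) (.cons (.br (nat_lit 12) (nat_lit 0) (.cons (.rf (nat_lit 657) (nat_lit 19926519232773908561233952)) (.cons (.rf (nat_lit 661) (nat_lit 19926519232773908561233952)) (.cons (.rf (nat_lit 663) (nat_lit 19926519232773908561233952)) (.cons (.rf (nat_lit 663) (nat_lit 18755372345022236548237344)) (.cons (.br (nat_lit 12) (nat_lit 0) (.cons (.rf (nat_lit 657) (nat_lit 19926519232773908561233952)) (.cons (.rf (nat_lit 661) (nat_lit 19926519232773908561233952)) (.cons (.rf (nat_lit 663) (nat_lit 19926519232773908561233952)) (.cons (.rf (nat_lit 663) (nat_lit 18755372345022236548237344)) .nil))))) .nil)))))) .nil))))) .nil))))) .nil)))),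
 (.br (nat_lit 12) (nat_lit 0) (.cons (.br (nat_lit 12) (nat_lit 0) .nil) .nil)),
 (.br (nat_lit 13) (nat_lit 0) (.cons (.ev (nat_lit 2668881308562433732934199298666660353) (nat_lit 2)) (.cons (.br (nat_lit 15) (nat_lit 0) (.cons (.zr (nat_lit 2722321242929810125638539225410416548864) (nat_lit 2658456468795754927799045143446683653) (nat_lit 64) (nat_lit 0)) (.cons (.br (nat_lit 16) (nat_lit 0) (.cons (.ev (nat_lit 341611594995952755498800907178467196928) (nat_lit 1)) .nil)) .nil))) .nil))),
 (.br (nat_lit 12) (nat_lit 0) (.cons (.br (nat_lit 13) (nat_lit 0) (.cons (.zr (nat_lit 72894980117941955142895679824731648) (nat_lit 320626498878195896405284880387) (nat_lit 64) (nat_lit 0)) (.cons (.br (nat_lit 15) (nat_lit 0) (.cons (.ev (nat_lit 1334440575054268000389141581480853760) (nat_lit 1)) (.cons (.br (nat_lit 16) (nat_lit 0) (.cons (.br (nat_lit 16) (nat_lit 0) .nil) .nil)) .nil))) .nil))) (.cons (.ev (nat_lit 79537647542604484330016276481) (nat_lit 1)) (.cons (.br (nat_lit 13) (nat_lit 0) (.cons (.br (nat_lit 13) (nat_lit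 0) (.cons (.ev (nat_lit 2668881308562433732934199298666660353) (nat_lit 2)) (.cons (.rf (nat_lit 665) (nat_lit 646192708113796405313)) .nil))) (.cons (.rf (nat_lit 666) (nat_lit 19926519232773908561233952)) (.cons (.br (nat_lit 13) (nat_lit 0) (.cons (.rf (nat_lit 665) (nat_lit 646192708113796405313)) (.cons (.rf (nat_lit 666) (nat_lit 19926519232773908561233952)) .nil))) .nil)))) .nil)))),
 (.br (nat_lit 12) (nat_lit 0) (.cons (.ev (nat_lit 2047031882855901294836319097085191389191) (nat_lit 3)) (.cons (.br (nat_lit 13) (nat_lit 0) (.cons (.ev (nat_lit 2047031923261647596719752928376014242311) (nat_lit 3)) (.cons (.ev (nat_lit 40723275532331869524185447531009) (nat_lit 2)) .nil))) .nil))),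
 (.br (nat_lit 9) (nat_lit 0) (.cons (.br (nat_lit 9) (nat_lit 0) .nil) .nil)),
 (.br (nat_lit 16) (nat_lit 0) (.cons (.ev (nat_lit 40723275532331869524185447531009) (nat_lit 2)) (.cons (.ev (nat_lit 341611594995952755498800907178467196928) (nat_lit 1)) .nil))),
 (.br (nat_lit 12) (nat_lit 0) (.cons (.rf (nat_lit 670) (nat_lit 677582165103132179601393696)) (.cons (.rf (nat_lit 670) (nat_lit 640068866354836435435096096)) .nil))),
 (.br (nat_lit 12) (nat_lit 0) (.cons (.rf (nat_lit 671) (nat_lit 677582165103132179601393696)) (.cons (.ev (nat_lit 1334420372181098243136822990449213440) (nat_lit 1)) .nil))),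
 (.br (nat_lit 13) (nat_lit 0) (.cons (.br (nat_lit 15) (nat_lit 0) (.cons (.ev (nat_lit 5368875520270175745468302067981353477) (nat_lit 4)) (.cons (.br (nat_lit 16) (nat_lit 0) (.cons (.br (nat_lit 16) (nat_lit 0) .nil) .nil)) .nil))) (.cons (.br (nat_lit 15) (nat_lit 0) (.cons (.ev (nat_lit 340282387282577443277567805544709750785) (nat_lit 1)) (.cons (.br (nat_lit 15) (nat_lit 0) (.cons (.ev (nat_lit 340282387282577443277567806639909634048) (nat_lit 1)) .nil)) .nil))) (.cons (.br (nat_lit 15) (nat_lit 0) (.cons (.br (nat_lit 15) (nat_lit 0) (.cons (.ev (nat_lit 2658496557010436402200951598094614531) (nat_lit 2)) .nil)) (.cons (.br (nat_lit 15) (nat_lit 0) (.cons (.ev (nat_lit 2658496557010436402200951598094614531) (nat_lit 2)) .nil)) .nil))) .nil)))),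
 (.br (nat_lit 12) (nat_lit 0) (.cons (.br (nat_lit 12) (nat_lit 0) .nil) .nil)),
 (.br (nat_lit 13) (nat_lit 0) (.cons (.rf (nat_lit 673) (nat_lit 18755336569518578444895296)) (.cons (.ev (nat_lit 40723275532331869524185447531009) (nat_lit 2)) (.cons (.br (nat_lit 14) (nat_lit 0) (.cons (.ev (nat_lit 1329248357732167067178997912052957185) (nat_lit 1)) (.cons (.ev (nat_lit 340282387282577443277567805544709750785) (nat_lit 1)) (.cons (.br (nat_lit 15) (nat_lit 0) (.cons (.ev (nat_lit 683223230557343688357334726452019593731) (nat_lit 2)) (.cons (.ev (nat_lit 2689650497858337732303626123712921603) (nat_lit 3)) .nil))) .nil)))) (.cons (.br (nat_lit 14) (nat_lit 0) (.cons (.rf (nat_lit 674) (nat_lit 646192708113796405313)) (.cons (.br (nat_lit 15) (nat_lit 0) (.cons (.ev (nat_lit 341611594995952755498800908282257014785) (nat_lit 1)) (.cons (.br (nat_lit 16) (nat_lit 0) (.cons (.ev (nat_lit 1363798349309847907773814259905332249607) (nat_lit 3)) .nil)) .nil))) (.cons (.br (nat_lit 15) (nat_lit 0) (.cons (.ev (nat_lit 2689650497858337732303626123712921603)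 (nat_lit 3)) (.cons (.ev (nat_lit 174227240744670599401952348644373535260673) (nat_lit 2)) .nil))) .nil)))) .nil))))),
 (.br (nat_lit 13) (nat_lit 0) (.cons (.rf (nat_lit 673) (nat_lit 18755336569518578444895296)) (.cons (.br (nat_lit 14) (nat_lit 0) (.cons (.ev (nat_lit 1329227995786129521089904563395297536) (nat_lit 1)) (.cons (.ev (nat_lit 340282366921247948491642697673714237696) (nat_lit 1)) (.cons (.br (nat_lit 15) (nat_lit 0) (.cons (.ev (nat_lit 683223230557343688357334726452019593731) (nat_lit 2)) (.cons (.br (nat_lit 16) (nat_lit 0) (.cons (.ev (nat_lit 346938932218404311901852179106093073413) (nat_lit 3)) .nil)) .nil))) .nil)))) (.cons (.ev (nat_lit 40723275532331869524185447531009) (nat_lit 2)) (.cons (.br (nat_lit 14) (nat_lit 0) (.cons (.br (nat_lit 15) (nat_lit 0) (.cons (.ev (nat_lit 680595888574394746416684385439121542657) (nat_lit 4)) (.cons (.br (nat_lit 16) (nat_lit 0) (.cons (.ev (nat_lit 341611594995952755498800907178467196928) (nat_lit 1)) .nil)) .nil))) (.cons (.ev (nat_lit 340282366921247948491642696578514354433)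 (nat_lit 1)) (.cons (.br (nat_lit 16) (nat_lit 0) (.cons (.br (nat_lit 15) (nat_lit 0) (.cons (.ev (nat_lit 2658496557010436402200951598094614531) (nat_lit 2)) .nil)) (.cons (.ev (nat_lit 1047389177387066821860011004794940534164997) (nat_lit 4)) .nil))) .nil)))) .nil))))),
 (.br (nat_lit 12) (nat_lit 0) (.cons (.rf (nat_lit 673) (nat_lit 19926519232773908561233952)) (.cons (.rf (nat_lit 675) (nat_lit 19926519232773908561233952)) (.cons (.rf (nat_lit 676) (nat_lit 19926519232773908561233952)) (.cons (.br (nat_lit 13) (nat_lit 0) (.cons (.rf (nat_lit 673) (nat_lit 18755336569518578444895296)) (.cons (.rf (nat_lit 676) (nat_lit 18755336569518578444895296)) (.cons (.rf (nat_lit 675) (nat_lit 18755336569518578444895296)) (.cons (.ev (nat_lit 40723275532331869524185447531009) (nat_lit 2)) .nil))))) .nil))))),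
 (.br (nat_lit 13) (nat_lit 0) (.cons (.ev (nat_lit 13344202926441789116234925004525800971) (nat_lit 4)) (.cons (.br (nat_lit 15) (nat_lit 0) (.cons (.ev (nat_lit 341611594995952755498800908282257014785) (nat_lit 1)) (.cons (.ev (nat_lit 2658496557010436402200951598094614531) (nat_lit 2)) .nil))) .nil))),
 (.br (nat_lit 13) (nat_lit 0) (.cons (.br (nat_lit 15) (nat_lit 0) (.cons (.ev (nat_lit 680564774406696134230234179058528288769) (nat_lit 2)) (.cons (.ev (nat_lit 1329248357732167067178996816819519488) (nat_lit 1)) .nil))) (.cons (.br (nat_lit 15) (nat_lit 0) (.cons (.ev (nat_lit 1329248357732167067178996816819519488) (nat_lit 1)) (.cons (.ev (nat_lit 1329248436653271886368870818950349315) (nat_lit 2)) .nil))) .nil))),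
 (.br (nat_lit 13) (nat_lit 0) (.cons (.rf (nat_lit 679) (nat_lit 677582165103132179601393696)) (.cons (.br (nat_lit 17) (nat_lit 0) (.cons (.ev (nat_lit 522673736441355161794971302929336489083907) (nat_lit 3)) (.cons (.ev (nat_lit 680564774406696134230234179058528288769) (nat_lit 2)) .nil))) .nil))),
 (.br (nat_lit 12) (nat_lit 0) (.cons (.rf (nat_lit 677) (nat_lit 19926519232773908561233952)) (.cons (.br (nat_lit 13) (nat_lit 0) (.cons (.ev (nat_lit 13344202926441789116234925004525800971) (nat_lit 4)) (.cons (.rf (nat_lit 678) (nat_lit 19926519232773908561233952)) (.cons (.br (nat_lit 13) (nat_lit 0) (.cons (.ev (nat_lit 13344202926441789116234925004525800971) (nat_lit 4)) (.cons (.rf (nat_lit 678) (nat_lit 19926519232773908561233952)) .nil))) .nil)))) (.cons (.ev (nat_lit 79537647542604484330016276481) (nat_lit 1)) (.cons (.br (nat_lit 13) (nat_lit 0) (.cons (.rf (nat_lit 679) (nat_lit 677582165103132179601393696)) (.cons (.rf (nat_lit 680) (nat_lit 677582165103132179601393696)) (.cons (.br (nat_lit 13) (nat_lit 0) (.cons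 (.rf (nat_lit 679) (nat_lit 677582165103132179601393696)) (.cons (.rf (nat_lit 680) (nat_lit 677582165103132179601393696)) .nil))) .nil)))) .nil))))),
 (.br (nat_lit 14) (nat_lit 0) (.cons (.rf (nat_lit 681) (nat_lit 18755336569518578444895296)) (.cons (.br (nat_lit 13) (nat_lit 0) (.cons (.ev (nat_lit 4083398787804068452300119074745669519361) (nat_lit 4)) (.cons (.br (nat_lit 13) (nat_lit 0) (.cons (.ev (nat_lit 4083398787804068452300119074745669519361) (nat_lit 4)) .nil)) .nil))) (.cons (.ev (nat_lit 340282366921247948491642696578514354433) (nat_lit 1)) (.cons (.br (nat_lit 15) (nat_lit 0) (.cons (.br (nat_lit 13) (nat_lit 0) (.cons (.ev (nat_lit 683223230557343688357334726452019593731) (nat_lit 2)) (.cons (.br (nat_lit 16) (nat_lit 0) (.cons (.ev (nat_lit 340282427926936715975152367036168077312) (nat_lit 2)) .nil)) .nil))) (.cons (.ev (nat_lit 2658456150026156774336853370048872963) (nat_lit 2)) (.cons (.br (nat_lit 16) (nat_lit 0) (.cons (.br (nat_lit 13) (nat_lit 0) (.cons (.ev (nat_lit 2658496557010436402200951598094614531)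 (nat_lit 2)) .nil)) (.cons (.ev (nat_lit 522681711727724247320051293295612195636737) (nat_lit 3)) .nil))) .nil)))) .nil)))))]

theorem c24 : chkAll C T R L24 (nat_lit 658) = true := by decide +kernel

theorem l24 : (nat_lit 658) + L24.length = (nat_lit 683) := by decide +kernel

/-- part of the certificates -/
def L25 : List Prf := [(.br (nat_lit 13) (nat_lit 0) (.cons (.ev (nat_lit 20282410817299856802921047916801) (nat_lit 1)) (.cons (.rf (nat_lit 682) (nat_lit 18755336569518578444895296)) (.cons (.br (nat_lit 14) (nat_lit 0) (.cons (.br (nat_lit 16) (nat_lit 0) (.cons (.ev (nat_lit 341611615199442468016217209056727662848) (nat_lit 1)) .nil)) (.cons (.ev (nat_lit 174229888775979009194898439578647850517507) (nat_lit 3)) .nil))) .nil)))),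
 (.br (nat_lit 13) (nat_lit 0) (.cons (.rf (nat_lit 681) (nat_lit 18755336569518578444895296)) (.cons (.rf (nat_lit 682) (nat_lit 18755336569518578444895296)) (.cons (.br (nat_lit 14) (nat_lit 0) (.cons (.ev (nat_lit 2658476512596018969706512799764644608) (nat_lit 2)) (.cons (.ev (nat_lit 680564754362281716797739740260265427714) (nat_lit 2)) (.cons (.ev (nat_lit 10404956286931850771399664293970176) (nat_lit 2)) .nil)))) .nil)))),
 (.br (nat_lit 12) (nat_lit 0) (.cons (.rf (nat_lit 677) (nat_lit 19926519232773908561233952)) (.cons (.rf (nat_lit 681) (nat_lit 19926519232773908561233952)) (.cons (.rf (nat_lit 682) (nat_lit 19926519232773908561233952)) (.cons (.br (nat_lit 13) (nat_lit 0) (.cons (.rf (nat_lit 681) (nat_lit 18755336569518578444895296)) (.cons (.rf (nat_lit 683) (nat_lit 677582165103132179601393696)) (.cons (.rf (nat_lit 684) (nat_lit 677582165103132179601393696)) (.cons (.br (nat_lit 13) (nat_lit 0) (.cons (.rf (nat_lit 681) (nat_lit 18755336569518578444895296)) (.cons (.rf (nat_lit 683) (nat_lit 677582165103132179601393696))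 (.cons (.rf (nat_lit 684) (nat_lit 677582165103132179601393696)) .nil)))) .nil))))) .nil))))),
 (.br (nat_lit 12) (nat_lit 0) (.cons (.rf (nat_lit 677) (nat_lit 19926519232773908561233952)) (.cons (.ev (nat_lit 79537647542604484330016276481) (nat_lit 1)) (.cons (.rf (nat_lit 685) (nat_lit 19926519232773908561233952)) (.cons (.br (nat_lit 13) (nat_lit 0) (.cons (.rf (nat_lit 681) (nat_lit 18755336569518578444895296)) (.cons (.br (nat_lit 13) (nat_lit 0) (.cons (.ev (nat_lit 20282410817299856802921047916801) (nat_lit 1)) (.cons (.rf (nat_lit 685) (nat_lit 18755336569518578444895296)) (.cons (.ev (nat_lit 20520407217167506275935304483075) (nat_lit 2)) .nil)))) (.cons (.rf (nat_lit 685) (nat_lit 18755336569518578444895296)) (.cons (.br (nat_lit 13) (nat_lit 0) (.cons (.rf (nat_lit 681) (nat_lit 18755336569518578444895296)) (.cons (.ev (nat_lit 20520407217167506275935304483075) (nat_lit 2)) (.cons (.rf (nat_lit 685) (nat_lit 18755336569518578444895296)) .nil)))) .nil))))) .nil))))),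
 (.br (nat_lit 11) (nat_lit 0) (.cons (.rf (nat_lit 664) (nat_lit 458082801782478701632)) (.cons (.rf (nat_lit 638) (nat_lit 458082801782478701632)) (.cons (.br (nat_lit 14) (nat_lit 0) (.cons (.rf (nat_lit 667) (nat_lit 583706118939841765935136)) (.cons (.rf (nat_lit 667) (nat_lit 583670343436183662593088)) (.cons (.kr (nat_lit 5192296858534827628530496329220096) (nat_lit 1329227995784915872903807060280344576) (nat_lit 14) (nat_lit 0)) (.cons (.br (nat_lit 15) (nat_lit 0) (.cons (.rf (nat_lit 667) (nat_lit 547107778697602015528992)) (.cons (.rf (nat_lit 667) (nat_lit 547072003193943912186944)) (.cons (.br (nat_lit 12) (nat_lit 0) (.cons (.rf (nat_lit 668) (nat_lit 19926519232773908561233952)) (.cons (.br (nat_lit 12) (nat_lit 0) (.cons (.ev (nat_lit 2047031882855901294836319097085191389191) (nat_lit 3)) (.cons (.rf (nat_lit 669) (nat_lit 646192708113796405313)) .nil))) (.cons (.br (nat_lit 12) (nat_lit 0) (.cons (.rf (nat_lit 668) (nat_lit 19926519232773908561233952)) (.cons (.rf (nat_lit 669) (nat_lit 646192708113796405313))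 .nil))) .nil)))) (.cons (.br (nat_lit 12) (nat_lit 0) (.cons (.rf (nat_lit 671) (nat_lit 677582165103132179601393696)) (.cons (.rf (nat_lit 672) (nat_lit 677582165103132179601393696)) (.cons (.rf (nat_lit 672) (nat_lit 640068866354836435435096096)) .nil)))) .nil))))) .nil))))) (.cons (.br (nat_lit 12) (nat_lit 0) (.cons (.rf (nat_lit 677) (nat_lit 19926519232773908561233952)) (.cons (.rf (nat_lit 681) (nat_lit 19926519232773908561233952)) (.cons (.rf (nat_lit 685) (nat_lit 19926519232773908561233952)) (.cons (.rf (nat_lit 686) (nat_lit 19926519232773908561233952)) (.cons (.br (nat_lit 12) (nat_lit 0) (.cons (.rf (nat_lit 677) (nat_lit 19926519232773908561233952)) (.cons (.rf (nat_lit 681) (nat_lit 19926519232773908561233952)) (.cons (.rf (nat_lit 685) (nat_lit 19926519232773908561233952)) (.cons (.rf (nat_lit 686) (nat_lit 19926519232773908561233952)) .nil))))) .nil)))))) .nil))))),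
 (.br (nat_lit 15) (nat_lit 0) (.cons (.ev (nat_lit 340287559297026374453525631718305890305) (nat_lit 1)) (.cons (.ev (nat_lit 2668840585908298754117727637613838337) (nat_lit 2)) .nil))),
 (.br (nat_lit 14) (nat_lit 0) (.cons (.br (nat_lit 15) (nat_lit 0) (.cons (.ev (nat_lit 340282387282577443277567806639909634048) (nat_lit 1)) (.cons (.ev (nat_lit 2658496557010436402200951598094614531) (nat_lit 2)) .nil))) (.cons (.br (nat_lit 15) (nat_lit 0) (.cons (.br (nat_lit 15) (nat_lit 0) .nil) .nil)) (.cons (.ev (nat_lit 5212658805786021903721348101832705) (nat_lit 1)) .nil)))),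
 (.br (nat_lit 13) (nat_lit 0) (.cons (.ev (nat_lit 40723275532331869524185447531009) (nat_lit 2)) (.cons (.br (nat_lit 14) (nat_lit 0) (.cons (.ev (nat_lit 1329227995786129521089905658628735233) (nat_lit 1)) (.cons (.rf (nat_lit 688) (nat_lit 677582165103132179601393696)) (.cons (.rf (nat_lit 688) (nat_lit 640105464695078675185502240)) .nil)))) (.cons (.rf (nat_lit 689) (nat_lit 677582165103132179601393696)) (.cons (.rf (nat_lit 689) (nat_lit 640105464695078675185502240)) .nil))))),
 (.br (nat_lit 14) (nat_lit 0) (.cons (.ev (nat_lit 5192296859748475814627999444173056) (nat_lit 1)) (.cons (.br (nat_lit 15) (nat_lit 0) (.cons (.br (nat_lit 15) (nat_lit 0) .nil) .nil)) (.cons (.br (nat_lit 17) (nat_lit 0) (.cons (.ev (nat_lit 174224571863679571015629236617597287399937) (nat_lit 2)) (.cons (.ev (nat_lit 340282366921247948491642696578514354433) (nat_lit 1)) .nil))) .nil)))),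
 (.br (nat_lit 13) (nat_lit 0) (.cons (.rf (nat_lit 691) (nat_lit 677582165103132179601393696)) (.cons (.rf (nat_lit 691) (nat_lit 677545566762889939850987552)) (.cons (.ev (nat_lit 40723275532331869524185447531009) (nat_lit 2)) (.cons (.rf (nat_lit 690) (nat_lit 597834345939788105363063872)) .nil))))),
 (.br (nat_lit 12) (nat_lit 0) (.cons (.rf (nat_lit 690) (nat_lit 677582165103132179601393696)) (.cons (.rf (nat_lit 690) (nat_lit 677545566762889939850987552)) (.cons (.rf (nat_lit 692) (nat_lit 677582165103132179601393696)) (.cons (.rf (nat_lit 692) (nat_lit 640105464695078675185502240)) .nil))))),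
 (.br (nat_lit 15) (nat_lit 0) (.cons (.ev (nat_lit 341611594995952755498800908282257014785) (nat_lit 1)) (.cons (.ev (nat_lit 2658496557010436402200951598094614531) (nat_lit 2)) .nil))),
 (.br (nat_lit 13) (nat_lit 0) (.cons (.ev (nat_lit 20282410817299856802921047916801) (nat_lit 1)) (.cons (.rf (nat_lit 694) (nat_lit 677582165103132179601393696)) (.cons (.rf (nat_lit 694) (nat_lit 640105464695078675185502240)) .nil)))),
 (.br (nat_lit 13) (nat_lit 0) (.cons (.ev (nat_lit 5212658805786021903721348101832705) (nat_lit 1)) (.cons (.ev (nat_lit 10425159157674311650398470192365571) (nat_lit 2)) (.cons (.ev (nat_lit 340287579500516086970941932492776538368) (nat_lit 1)) .nil)))),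
 (.br (nat_lit 13) (nat_lit 0) (.cons (.rf (nat_lit 695) (nat_lit 677545566762889939850987552)) (.cons (.ev (nat_lit 340287559297026374453525631718305890305) (nat_lit 1)) (.cons (.rf (nat_lit 696) (nat_lit 677582165103132179601393696)) .nil)))),
 (.br (nat_lit 14) (nat_lit 0) (.cons (.rf (nat_lit 695) (nat_lit 677582165103132179601393696)) (.cons (.ev (nat_lit 10384752173394683786300242146624003) (nat_lit 2)) (.cons (.rf (nat_lit 697) (nat_lit 677582165103132179601393696)) (.cons (.rf (nat_lit 697) (nat_lit 640105464695078675185502240)) .nil))))),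
 (.br (nat_lit 16) (nat_lit 0) (.cons (.br (nat_lit 17) (nat_lit 0) (.cons (.rf (nat_lit 698) (nat_lit 597870944280030345113470016)) (.cons (.rf (nat_lit 696) (nat_lit 640105464695078675185502240)) (.cons (.br (nat_lit 15) (nat_lit 0) (.cons (.ev (nat_lit 1329268799218279415207168356661592832) (nat_lit 2)) (.cons (.kr (nat_lit 10384594026559387444888935323402240) (nat_lit 341611594916724588280544774294444441600) (nat_lit 4) (nat_lit 0)) .nil))) .nil)))) (.cons (.ev (nat_lit 10384752173394683786300242146624003) (nat_lit 2)) (.cons (.br (nat_lit 13) (nat_lit 0) (.cons (.br (nat_lit 13) (nat_lit 0) (.cons (.ev (nat_lit 20282410817299856802921047916801) (nat_lit 1)) (.cons (.ev (nat_lit 340282427926936715975152367036168077312) (nat_lit 2)) .nil))) (.cons (.br (nat_lit 13) (nat_lit 0) (.cons (.ev (nat_lit 20282410817299856802921047916801) (nat_lit 1)) (.cons (.ev (nat_lit 1366446400030706155283336519088573841671) (nat_lit 3)) .nil))) (.cons (.br (nat_lit 13) (nat_lit 0) (.cons (.ev (nat_lit 340282427926936715975152367036168077312)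 (nat_lit 2)) (.cons (.ev (nat_lit 1366446400030706155283336519088573841671) (nat_lit 3)) .nil))) .nil)))) (.cons (.ev (nat_lit 340282366921247948491642697673714237696) (nat_lit 1)) .nil))))),
 (.br (nat_lit 12) (nat_lit 0) (.cons (.rf (nat_lit 693) (nat_lit 677582165103132179601393696)) (.cons (.rf (nat_lit 698) (nat_lit 677582165103132179601393696)) (.cons (.rf (nat_lit 699) (nat_lit 677582165103132179601393696)) (.cons (.rf (nat_lit 699) (nat_lit 640105464695078675185502240)) .nil))))),
 (.br (nat_lit 12) (nat_lit 0) (.cons (.rf (nat_lit 693) (nat_lit 677582165103132179601393696)) (.cons (.rf (nat_lit 700) (nat_lit 677582165103132179601393696)) (.cons (.rf (nat_lit 700) (nat_lit 677545566762889939850987552)) (.cons (.ev (nat_lit 79537647542604484330016276481) (nat_lit 1)) .nil))))),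
 (.br (nat_lit 8) (nat_lit 0) (.cons (.rf (nat_lit 438) (nat_lit 407901468851537952)) (.cons (.rf (nat_lit 506) (nat_lit 407901468851537952)) (.cons (.br (nat_lit 9) (nat_lit 0) (.cons (.rf (nat_lit 506) (nat_lit 372964453560452160)) (.cons (.rf (nat_lit 438) (nat_lit 372964453560452160)) (.cons (.rf (nat_lit 540) (nat_lit 14242959524133701664)) (.cons (.br (nat_lit 10) (nat_lit 0) (.cons (.rf (nat_lit 574) (nat_lit 493858305440582043680)) (.cons (.rf (nat_lit 638) (nat_lit 493858305440582043680)) (.cons (.rf (nat_lit 664) (nat_lit 493858305440582043680)) (.cons (.br (nat_lit 10) (nat_lit 0) (.cons (.rf (nat_lit 574) (nat_lit 493858305440582043680)) (.cons (.rf (nat_lit 638) (nat_lit 493858305440582043680)) (.cons (.rf (nat_lit 664) (nat_lit 493858305440582043680)) (.cons (.br (nat_lit 11) (nat_lit 0) (.cons (.rf (nat_lit 664) (nat_lit 458082801782478701632)) (.cons (.rf (nat_lit 638) (nat_lit 458082801782478701632)) (.cons (.rf (nat_lit 687) (nat_lit 583706118939841765935136)) (.cons (.rf (nat_lit 687) (nat_lit 547107778697602015528992))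 (.cons (.br (nat_lit 11) (nat_lit 0) (.cons (.rf (nat_lit 664) (nat_lit 458082801782478701632)) (.cons (.rf (nat_lit 638) (nat_lit 458082801782478701632)) (.cons (.rf (nat_lit 687) (nat_lit 583706118939841765935136)) (.cons (.rf (nat_lit 687) (nat_lit 547107778697602015528992)) (.cons (.br (nat_lit 12) (nat_lit 0) (.cons (.rf (nat_lit 693) (nat_lit 677582165103132179601393696)) (.cons (.rf (nat_lit 700) (nat_lit 677582165103132179601393696)) (.cons (.rf (nat_lit 700) (nat_lit 677545566762889939850987552)) (.cons (.rf (nat_lit 701) (nat_lit 677582165103132179601393696)) (.cons (.rf (nat_lit 701) (nat_lit 640105464695078675185502240)) .nil)))))) .nil)))))) .nil)))))) .nil))))) .nil))))) .nil))))) .nil)))),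
 (.br (nat_lit 14) (nat_lit 0) (.cons (.ev (nat_lit 10425158536276958742588129013661699) (nat_lit 2)) (.cons (.br (nat_lit 15) (nat_lit 0) (.cons (.ev (nat_lit 1334440575362539380543189719604789248) (nat_lit 1)) (.cons (.rf (nat_lit 541) (nat_lit 646192708078429997281)) .nil))) .nil))),
 (.br (nat_lit 15) (nat_lit 0) (.cons (.zr (nat_lit 1329227996406322633867830738248794884) (nat_lit 5212658496301067351679005414981632) (nat_lit 8) (nat_lit 1)) .nil)),
 (.br (nat_lit 13) (nat_lit 0) (.cons (.rf (nat_lit 703) (nat_lit 583706118939841765935136)) (.cons (.br (nat_lit 14) (nat_lit 0) (.cons (.rf (nat_lit 703) (nat_lit 582562385870256482649152)) (.cons (.ev (nat_lit 10425158536276958742588129013661699) (nat_lit 2)) (.cons (.br (nat_lit 15) (nat_lit 0) (.cons (.rf (nat_lit 704) (nat_lit 677582165103132179601393696)) (.cons (.rf (nat_lit 704) (nat_lit 640104320962009089902216256)) .nil))) .nil)))) .nil))),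
 (.br (nat_lit 15) (nat_lit 0) (.cons (.ev (nat_lit 1329228075322563397061548420410441728) (nat_lit 1)) (.cons (.ev (nat_lit 158456325065566279634996297729) (nat_lit 2)) (.cons (.kr (nat_lit 2658455991572249597446844478421729281) (nat_lit 680564733841876936371482180607138594816) (nat_lit 0) (nat_lit 1)) (.cons (.ev (nat_lit 1334440575054268000461198076007153665) (nat_lit 1)) .nil)))))]

theorem c25 : chkAll C T R L25 (nat_lit 683) = true := by decide +kernel

theorem l25 : (nat_lit 683) + L25.length = (nat_lit 707) := by decide +kernel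

/-- part of the certificates -/
def L26 : List Prf := [(.br (nat_lit 13) (nat_lit 0) (.cons (.rf (nat_lit 705) (nat_lit 583706118939841765935136)) (.cons (.br (nat_lit 14) (nat_lit 0) (.cons (.ev (nat_lit 2658456150647554127244663693980598787) (nat_lit 2)) (.cons (.br (nat_lit 14) (nat_lit 0) (.cons (.ev (nat_lit 10425159157674311650961411555721217) (nat_lit 2)) (.cons (.rf (nat_lit 706) (nat_lit 677582165103132179601393696)) .nil))) (.cons (.br (nat_lit 14) (nat_lit 0) (.cons (.ev (nat_lit 2658456150647554127244663693980598787) (nat_lit 2)) (.cons (.rf (nat_lit 706) (nat_lit 677582165103132179601393696)) .nil))) .nil)))) .nil))),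
 (.br (nat_lit 14) (nat_lit 0) (.cons (.rf (nat_lit 707) (nat_lit 582562385870256482649152)) (.cons (.ev (nat_lit 10425159157674311650961411555721217) (nat_lit 2)) .nil))),
 (.br (nat_lit 10) (nat_lit 0) (.cons (.kr (nat_lit 2417851639230357861040129) (nat_lit 9444732965743602171904) (nat_lit 0) (nat_lit 1)) (.cons (.kr (nat_lit 309489732187827942664962048) (nat_lit 1208944266359802395885568) (nat_lit 4) (nat_lit 0)) (.cons (.br (nat_lit 12) (nat_lit 0) (.cons (.ev (nat_lit 79537647542532426740290093313) (nat_lit 1)) (.cons (.ev (nat_lit 79229376162450436191892340993) (nat_lit 1)) (.cons (.br (nat_lit 13) (nat_lit 0) (.cons (.rf (nat_lit 705) (nat_lit 583706118939841765935136)) (.cons (.rf (nat_lit 707) (nat_lit 583706118939841765935136)) (.cons (.br (nat_lit 13) (nat_lit 0) (.cons (.rf (nat_lit 705) (nat_lit 583706118939841765935136)) (.cons (.rf (nat_lit 707) (nat_lit 583706118939841765935136)) (.cons (.br (nat_lit 14) (nat_lit 0) (.cons (.rf (nat_lit 707) (nat_lit 582562385870256482649152)) (.cons (.rf (nat_lit 708) (nat_lit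 677582165103132179601393696)) (.cons (.rf (nat_lit 708) (nat_lit 640105464695078675185502240)) .nil)))) .nil)))) .nil)))) .nil)))) .nil)))),
 (.br (nat_lit 15) (nat_lit 0) (.cons (.ev (nat_lit 1329248357422686779652077019423899648) (nat_lit 1)) .nil)),
 (.br (nat_lit 13) (nat_lit 0) (.cons (.ev (nat_lit 10384752173394683785737283603399169) (nat_lit 2)) (.cons (.br (nat_lit 14) (nat_lit 0) (.cons (.ev (nat_lit 83523439386232368891830242133148169) (nat_lit 5)) (.cons (.br (nat_lit 15) (nat_lit 0) (.cons (.ev (nat_lit 10758562537048786235164172253854433801) (nat_lit 5)) (.cons (.rf (nat_lit 556) (nat_lit 646192708078429997281)) .nil))) .nil))) (.cons (.br (nat_lit 14) (nat_lit 0) (.cons (.br (nat_lit 15) (nat_lit 0) (.cons (.ev (nat_lit 2658496557010436402201514539457970177) (nat_lit 2)) (.cons (.rf (nat_lit 557) (nat_lit 646192708078429997281)) .nil))) (.cons (.br (nat_lit 15) (nat_lit 0) (.cons (.ev (nat_lit 340287559297026374453453574119989772545) (nat_lit 1)) (.cons (.br (nat_lit 15) (nat_lit 0) (.cons (.ev (nat_lit 340287559297026374453453573024756334848)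 (nat_lit 1)) .nil)) .nil))) (.cons (.br (nat_lit 15) (nat_lit 0) (.cons (.rf (nat_lit 710) (nat_lit 21174442659472880612509728)) (.cons (.br (nat_lit 15) (nat_lit 0) (.cons (.rf (nat_lit 710) (nat_lit 21174442659472880612509728)) .nil)) .nil))) .nil)))) .nil)))),
 (.br (nat_lit 14) (nat_lit 0) (.cons (.ev (nat_lit 10384752794792036694110566078349827) (nat_lit 2)) (.cons (.br (nat_lit 16) (nat_lit 0) (.cons (.ev (nat_lit 2658456150647554127245226652523823617) (nat_lit 2)) (.cons (.ev (nat_lit 340287559297026374453453574119989772545) (nat_lit 1)) .nil))) .nil))),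
 (.br (nat_lit 14) (nat_lit 0) (.cons (.ev (nat_lit 680575138956309475684861855863708582144) (nat_lit 2)) (.cons (.br (nat_lit 15) (nat_lit 0) (.cons (.br (nat_lit 15) (nat_lit 0) .nil) .nil)) .nil))),
 (.br (nat_lit 14) (nat_lit 0) (.cons (.ev (nat_lit 10384752794792036694110566078349827) (nat_lit 2)) (.cons (.br (nat_lit 16) (nat_lit 0) (.cons (.br (nat_lit 15) (nat_lit 0) (.cons (.ev (nat_lit 1363819077774627930847548004280840617991) (nat_lit 3)) .nil)) (.cons (.kr (nat_lit 680564733842495896946391905005280952321) (nat_lit 174224571863520493293284692494312271773696) (nat_lit 0) (nat_lit 1)) .nil))) .nil))),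
 (.br (nat_lit 12) (nat_lit 0) (.cons (.rf (nat_lit 711) (nat_lit 583706118939841765935136)) (.cons (.rf (nat_lit 711) (nat_lit 547107777606882114574372)) (.cons (.br (nat_lit 13) (nat_lit 0) (.cons (.rf (nat_lit 711) (nat_lit 583670270289900104452325)) (.cons (.rf (nat_lit 711) (nat_lit 547071928956940660512995)) (.cons (.br (nat_lit 14) (nat_lit 0) (.cons (.rf (nat_lit 712) (nat_lit 19926519232773908561233952)) (.cons (.rf (nat_lit 713) (nat_lit 19926519232773908561233952)) (.cons (.br (nat_lit 14) (nat_lit 0) (.cons (.rf (nat_lit 712) (nat_lit 19926519232773908561233952)) (.cons (.rf (nat_lit 713) (nat_lit 19926519232773908561233952)) .nil))) .nil)))) (.cons (.br (nat_lit 14) (nat_lit 0) (.cons (.br (nat_lit 14) (nat_lit 0) (.cons (.ev (nat_lit 10384752794792036694110566078349827) (nat_lit 2)) (.cons (.ev (nat_lit 10425159157674311650398470192365571) (nat_lit 2)) .nil))) (.cons (.rf (nat_lit 714) (nat_lit 677582165103132179601393696)) (.cons (.rf (nat_lit 714) (nat_lit 640105428846428733524019429)) .nil)))) .nil))))) .nil)))),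
 (.br (nat_lit 13) (nat_lit 0) (.cons (.ev (nat_lit 20891042205015234498073103347746307) (nat_lit 3)) (.cons (.br (nat_lit 15) (nat_lit 0) (.cons (.ev (nat_lit 2658496557010436402201514539457970177) (nat_lit 2)) (.cons (.rf (nat_lit 564) (nat_lit 646192708078429997281)) .nil))) .nil))),
 (.br (nat_lit 13) (nat_lit 0) (.cons (.br (nat_lit 16) (nat_lit 0) (.cons (.zr (nat_lit 1363798308269664561014521856851410158087) (nat_lit 122169826596995610259194194034688) (nat_lit 16) (nat_lit 1)) .nil)) .nil)),
 (.br (nat_lit 14) (nat_lit 0) (.cons (.rf (nat_lit 716) (nat_lit 583706118939841765935136)) (.cons (.ev (nat_lit 10384752173394683785737283603399169) (nat_lit 2)) (.cons (.br (nat_lit 15) (nat_lit 0) (.cons (.rf (nat_lit 716) (nat_lit 547107777606882114574372)) (.cons (.ev (nat_lit 7985752885346478023463677984835502087) (nat_lit 3)) (.cons (.br (nat_lit 13) (nat_lit 0) (.cons (.rf (nat_lit 717) (nat_lit 677582165103132179601393696)) (.cons (.rf (nat_lit 717) (nat_lit 640068866353745715534141476)) .nil))) .nil)))) .nil)))),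
 (.br (nat_lit 13) (nat_lit 0) (.cons (.br (nat_lit 16) (nat_lit 0) (.cons (.ev (nat_lit 2658456150647554127245226652523823617) (nat_lit 2)) (.cons (.ev (nat_lit 340287579500207815590931718072013225985) (nat_lit 1)) .nil))) (.cons (.ev (nat_lit 10425159157674311650398470192365571) (nat_lit 2)) .nil))),
 (.br (nat_lit 13) (nat_lit 0) (.cons (.rf (nat_lit 719) (nat_lit 677582165103132179601393696)) (.cons (.br (nat_lit 16) (nat_lit 0) (.cons (.ev (nat_lit 340287579500207815590931718072013225985) (nat_lit 1)) (.cons (.ev (nat_lit 340287559297334645833535564668387524865) (nat_lit 1)) .nil))) .nil))),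
 (.br (nat_lit 12) (nat_lit 0) (.cons (.rf (nat_lit 715) (nat_lit 583706118939841765935136)) (.cons (.rf (nat_lit 718) (nat_lit 583706118939841765935136)) (.cons (.br (nat_lit 14) (nat_lit 0) (.cons (.rf (nat_lit 718) (nat_lit 505863129854781380723776)) (.cons (.rf (nat_lit 715) (nat_lit 505863129854781380723776)) (.cons (.ev (nat_lit 10384752173394683785737283603399169) (nat_lit 2)) (.cons (.br (nat_lit 13) (nat_lit 0) (.cons (.rf (nat_lit 719) (nat_lit 677582165103132179601393696)) (.cons (.rf (nat_lit 720) (nat_lit 677582165103132179601393696)) (.cons (.br (nat_lit 13) (nat_lit 0) (.cons (.ev (nat_lit 10425159157674311650398470192365571) (nat_lit 2)) (.cons (.rf (nat_lit 720) (nat_lit 677582165103132179601393696)) .nil))) .nil)))) .nil))))) .nil)))),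
 (.br (nat_lit 14) (nat_lit 0) (.cons (.ev (nat_lit 1361150277911999981386974510832620143111) (nat_lit 3)) (.cons (.ev (nat_lit 349810294004954219691034258397905144513027) (nat_lit 3)) .nil))),
 (.br (nat_lit 13) (nat_lit 0) (.cons (.rf (nat_lit 721) (nat_lit 469264786340388544846917)) (.cons (.rf (nat_lit 721) (nat_lit 469229009745910857473219)) (.cons (.br (nat_lit 14) (nat_lit 0) (.cons (.rf (nat_lit 715) (nat_lit 505863129854781380723776)) (.cons (.rf (nat_lit 722) (nat_lit 677582165103132179601393696)) (.cons (.rf (nat_lit 722) (nat_lit 640105464695078675185502240)) .nil)))) .nil)))),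
 (.br (nat_lit 9) (nat_lit 0) (.cons (.rf (nat_lit 709) (nat_lit 493858305440582043680)) (.cons (.rf (nat_lit 709) (nat_lit 458009655498920560869)) (.cons (.br (nat_lit 10) (nat_lit 0) (.cons (.rf (nat_lit 709) (nat_lit 493857214720681089060)) (.cons (.rf (nat_lit 709) (nat_lit 531830478089356319939)) (.cons (.kr (nat_lit 2417851639230357861040129) (nat_lit 9444732965743602171904) (nat_lit 0) (nat_lit 1)) (.cons (.br (nat_lit 12) (nat_lit 0) (.cons (.rf (nat_lit 715) (nat_lit 583706118939841765935136)) (.cons (.rf (nat_lit 721) (nat_lit 583706118939841765935136)) (.cons (.rf (nat_lit 721) (nat_lit 547107777606882114574372)) (.cons (.br (nat_lit 12) (nat_lit 0) (.cons (.rf (nat_lit 715) (nat_lit 583706118939841765935136)) (.cons (.rf (nat_lit 721) (nat_lit 583706118939841765935136)) (.cons (.rf (nat_lit 721) (nat_lit 547107777606882114574372)) (.cons (.br (nat_lit 13) (nat_lit 0) (.cons (.rf (nat_lit 721) (nat_lit 469264786340388544846917)) (.cons (.rf (nat_lit 721) (nat_lit 469229009745910857473219)) (.cons (.rf (nat_lit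 723) (nat_lit 677582165103132179601393696)) (.cons (.rf (nat_lit 723) (nat_lit 640105464695078675185502240)) .nil))))) .nil))))) .nil))))) .nil))))) .nil)))),
 (.br (nat_lit 13) (nat_lit 0) (.cons (.br (nat_lit 14) (nat_lit 0) (.cons (.ev (nat_lit 5212579578832415011971739812954368) (nat_lit 1)) (.cons (.rf (nat_lit 575) (nat_lit 572333603785244051494)) .nil))) .nil)),
 (.br (nat_lit 15) (nat_lit 0) (.cons (.ev (nat_lit 1365716289276060467538586403527000832) (nat_lit 3)) .nil)),
 (.br (nat_lit 10) (nat_lit 0) (.cons (.ev (nat_lit 316919913130784900513221705731) (nat_lit 3)) (.cons (.br (nat_lit 13) (nat_lit 0) (.cons (.ev (nat_lit 20282410817299928860519397588993) (nat_lit 1)) (.cons (.br (nat_lit 14) (nat_lit 0) (.cons (.rf (nat_lit 725) (nat_lit 18240816216870055184416)) (.cons (.br (nat_lit 14) (nat_lit 0) (.cons (.rf (nat_lit 725) (nat_lit 18240816216870055184416)) (.cons (.br (nat_lit 15) (nat_lit 0) (.cons (.rf (nat_lit 726) (nat_lit 677582165103132179601393696)) (.cons (.rf (nat_lit 726) (nat_lit 640105464695078675185502240))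 .nil))) .nil))) .nil))) .nil))) .nil))),
 (.br (nat_lit 16) (nat_lit 0) (.cons (.ev (nat_lit 340287579500207815590931998447495020545) (nat_lit 1)) .nil)),
 (.br (nat_lit 10) (nat_lit 0) (.cons (.br (nat_lit 14) (nat_lit 0) (.cons (.kr (nat_lit 10384594336039674899751134402969601) (nat_lit 2658455991569831782701103367508197376) (nat_lit 0) (nat_lit 1)) (.cons (.br (nat_lit 15) (nat_lit 0) (.cons (.ev (nat_lit 1344825407075999458644978556781723904) (nat_lit 2)) (.cons (.rf (nat_lit 579) (nat_lit 646192708078429997281)) .nil))) .nil))) (.cons (.br (nat_lit 14) (nat_lit 0) (.cons (.br (nat_lit 15) (nat_lit 0) (.cons (.ev (nat_lit 2658496557010436402201514539457970177) (nat_lit 2)) (.cons (.br (nat_lit 16) (nat_lit 0) (.cons (.br (nat_lit 16) (nat_lit 0) .nil) .nil)) .nil))) (.cons (.br (nat_lit 15) (nat_lit 0) (.cons (.ev (nat_lit 340287579500516086971013708611821043713) (nat_lit 1)) (.cons (.br (nat_lit 15) (nat_lit 0) (.cons (.ev (nat_lit 340287579500516086971013709715644416000) (nat_lit 1)) .nil)) .nil))) (.cons (.br (nat_lit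 15) (nat_lit 0) (.cons (.rf (nat_lit 728) (nat_lit 677582165103132179601393696)) (.cons (.br (nat_lit 15) (nat_lit 0) (.cons (.rf (nat_lit 728) (nat_lit 677582165103132179601393696)) .nil)) .nil))) .nil)))) .nil))),
 (.br (nat_lit 15) (nat_lit 0) (.cons (.kr (nat_lit 10384594336039674899751134402969601) (nat_lit 2658455991569831782701103367508197376) (nat_lit 0) (nat_lit 1)) (.cons (.br (nat_lit 16) (nat_lit 0) (.cons (.ev (nat_lit 1363798389399919556086368871434227680259) (nat_lit 3)) .nil)) .nil))),
 (.br (nat_lit 14) (nat_lit 0) (.cons (.rf (nat_lit 730) (nat_lit 677582165103132179601393696)) (.cons (.rf (nat_lit 730) (nat_lit 640105464695078675185502240)) .nil))),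
 (.br (nat_lit 14) (nat_lit 0) (.cons (.rf (nat_lit 731) (nat_lit 677582165103132179601393696)) (.cons (.ev (nat_lit 10384752794792036694673524621574657) (nat_lit 2)) .nil))),
 (.br (nat_lit 12) (nat_lit 0) (.cons (.rf (nat_lit 727) (nat_lit 493858305440582043680)) (.cons (.ev (nat_lit 79537647542532427835489976576) (nat_lit 1)) (.cons (.br (nat_lit 13) (nat_lit 0) (.cons (.rf (nat_lit 727) (nat_lit 458009655498920560869)) (.cons (.ev (nat_lit 121854770875923982825200944416263) (nat_lit 3)) (.cons (.br (nat_lit 10) (nat_lit 0) (.cons (.rf (nat_lit 729) (nat_lit 583706118939841765935136)) (.cons (.rf (nat_lit 729) (nat_lit 547071930047660354046181)) (.cons (.br (nat_lit 10) (nat_lit 0) (.cons (.rf (nat_lit 729) (nat_lit 583706118939841765935136)) (.cons (.rf (nat_lit 729) (nat_lit 547071930047660354046181)) (.cons (.br (nat_lit 14) (nat_lit 0) (.cons (.rf (nat_lit 731) (nat_lit 677582165103132179601393696)) (.cons (.rf (nat_lit 732) (nat_lit 677582165103132179601393696)) (.cons (.rf (nat_lit 732) (nat_lit 640105464695078675185502240))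 .nil)))) .nil)))) .nil)))) .nil)))) .nil))))]

theorem c26 : chkAll C T R L26 (nat_lit 707) = true := by decide +kernel

theorem l26 : (nat_lit 707) + L26.length = (nat_lit 734) := by decide +kernel

/-- part of the certificates -/
def L27 : List Prf := [(.br (nat_lit 14) (nat_lit 0) (.cons (.br (nat_lit 15) (nat_lit 0) (.cons (.ev (nat_lit 340282387282576234370122878494701518848) (nat_lit 1)) .nil)) .nil)),
 (.br (nat_lit 13) (nat_lit 0) (.cons (.kr (nat_lit 310698658079500161582629120) (nat_lit 20361637766184381506714033192960) (nat_lit 1) (nat_lit 0)) (.cons (.br (nat_lit 14) (nat_lit 0) (.cons (.ev (nat_lit 10384752794792036694110566078349827) (nat_lit 2)) (.cons (.ev (nat_lit 10425158536276958742025187650306049) (nat_lit 2)) (.cons (.br (nat_lit 15) (nat_lit 0) (.cons (.rf (nat_lit 734) (nat_lit 21174442659472880612543553)) (.cons (.br (nat_lit 15) (nat_lit 0) (.cons (.rf (nat_lit 734) (nat_lit 21174442659472880612543553)) .nil)) .nil))) .nil)))) .nil))),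
 (.br (nat_lit 15) (nat_lit 0) (.cons (.ev (nat_lit 340287559297334645833535846139069202688) (nat_lit 1)) (.cons (.br (nat_lit 16) (nat_lit 0) (.cons (.ev (nat_lit 88823038769817436695061318668521126037254) (nat_lit 3)) .nil)) .nil))),
 (.br (nat_lit 14) (nat_lit 0) (.cons (.rf (nat_lit 736) (nat_lit 677582165103132179601393696)) (.cons (.rf (nat_lit 736) (nat_lit 640105464695078675185502240)) .nil))),
 (.br (nat_lit 14) (nat_lit 0) (.cons (.rf (nat_lit 737) (nat_lit 677582165103132179601393696)) (.cons (.br (nat_lit 16) (nat_lit 0) (.cons (.br (nat_lit 15) (nat_lit 0) (.cons (.zr (nat_lit 3402844479120094306460597730768303816704) (nat_lit 522673715590563341663284967752659294488065) (nat_lit 16) (nat_lit 16)) .nil)) (.cons (.ev (nat_lit 340287559297334645833535847242859020545) (nat_lit 1)) .nil))) .nil))),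
 (.br (nat_lit 15) (nat_lit 0) (.cons (.ev (nat_lit 1329248357423895687097005173221883905) (nat_lit 1)) (.cons (.ev (nat_lit 1329248357423895687024947574872211713) (nat_lit 1)) (.cons (.ev (nat_lit 1334440575054268000461198076007153665) (nat_lit 1)) .nil)))),
 (.br (nat_lit 10) (nat_lit 0) (.cons (.ev (nat_lit 10384752173394683786300242146624003) (nat_lit 2)) (.cons (.br (nat_lit 13) (nat_lit 0) (.cons (.ev (nat_lit 20891042205015308572716815727591941) (nat_lit 3)) (.cons (.kr (nat_lit 40723275532331869524185413844993) (nat_lit 2427296516310185715696128) (nat_lit 0) (nat_lit 2)) (.cons (.br (nat_lit 14) (nat_lit 0) (.cons (.br (nat_lit 15) (nat_lit 0) (.cons (.ev (nat_lit 1334440575362539380542909344156549120) (nat_lit 1)) (.cons (.rf (nat_lit 597) (nat_lit 646192708078429997281)) .nil))) (.cons (.br (nat_lit 15) (nat_lit 0) (.cons (.ev (nat_lit 680564774407317531583142552341070348291) (nat_lit 2)) (.cons (.br (nat_lit 15) (nat_lit 0) (.cons (.ev (nat_lit 680564774407317531583142552341070348291) (nat_lit 2)) .nil)) .nil)))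 (.cons (.br (nat_lit 15) (nat_lit 0) (.cons (.rf (nat_lit 739) (nat_lit 677582165103132179601393696)) (.cons (.br (nat_lit 15) (nat_lit 0) (.cons (.ev (nat_lit 1334440575054268000461199171207036928) (nat_lit 1)) .nil)) .nil))) .nil)))) .nil)))) .nil))),
 (.br (nat_lit 15) (nat_lit 0) (.cons (.kr (nat_lit 10384593719487506896291350519480321) (nat_lit 2658455991569841190540579864162861056) (nat_lit 0) (nat_lit 1)) (.cons (.br (nat_lit 16) (nat_lit 0) (.cons (.br (nat_lit 16) (nat_lit 0) .nil) .nil)) .nil))),
 (.br (nat_lit 13) (nat_lit 0) (.cons (.rf (nat_lit 741) (nat_lit 19926519232773908561233952)) (.cons (.rf (nat_lit 741) (nat_lit 18755372345022236548237344)) (.cons (.br (nat_lit 15) (nat_lit 0) (.cons (.br (nat_lit 15) (nat_lit 0) (.cons (.ev (nat_lit 2658496557010436402200951598094614531) (nat_lit 2)) .nil)) (.cons (.br (nat_lit 15) (nat_lit 0) (.cons (.ev (nat_lit 2658496557010436402200951598094614531) (nat_lit 2)) .nil)) .nil))) .nil)))),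
 (.br (nat_lit 13) (nat_lit 0) (.cons (.rf (nat_lit 742) (nat_lit 19926519232773908561233952)) (.cons (.br (nat_lit 14) (nat_lit 0) (.cons (.ev (nat_lit 13323677447928004226269399769779144713) (nat_lit 4)) (.cons (.ev (nat_lit 3402855066699463480130977403484657813513) (nat_lit 4)) (.cons (.br (nat_lit 15) (nat_lit 0) (.cons (.ev (nat_lit 2658496556389039049293141256915910659) (nat_lit 2)) (.cons (.br (nat_lit 16) (nat_lit 0) (.cons (.ev (nat_lit 341611594995952755498729132163212509440) (nat_lit 1)) .nil)) .nil))) .nil)))) (.cons (.br (nat_lit 15) (nat_lit 0) (.cons (.rf (nat_lit 626) (nat_lit 646192708078429997281)) (.cons (.br (nat_lit 14) (nat_lit 0) (.cons (.ev (nat_lit 341611594996261026878810842327538532608) (nat_lit 1)) (.cons (.br (nat_lit 16) (nat_lit 0) (.cons (.zr (nat_lit 174224571904244392631339483727919994503168) (nat_lit 7996137162143634548369311010738144769) (nat_lit 16) (nat_lit 6)) .nil)) .nil))) (.cons (.ev (nat_lit 2658496556389039049293141256915910659) (nat_lit 2)) .nil)))) .nil)))),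
 (.br (nat_lit 10) (nat_lit 0) (.cons (.rf (nat_lit 740) (nat_lit 17022140995484340291616)) (.cons (.ev (nat_lit 10384752173394683786300242146624003) (nat_lit 2)) (.cons (.br (nat_lit 10) (nat_lit 0) (.cons (.rf (nat_lit 740) (nat_lit 17022140995484340291616)) (.cons (.ev (nat_lit 10384752173394683786300242146624003) (nat_lit 2)) (.cons (.br (nat_lit 13) (nat_lit 0) (.cons (.rf (nat_lit 742) (nat_lit 19926519232773908561233952)) (.cons (.rf (nat_lit 743) (nat_lit 19926519232773908561233952)) (.cons (.rf (nat_lit 743) (nat_lit 18755372345022236548237344)) (.cons (.br (nat_lit 13) (nat_lit 0) (.cons (.rf (nat_lit 742) (nat_lit 19926519232773908561233952)) (.cons (.rf (nat_lit 743) (nat_lit 19926519232773908561233952)) (.cons (.rf (nat_lit 743) (nat_lit 18755372345022236548237344)) .nil)))) .nil))))) .nil)))) .nil)))),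
 (.br (nat_lit 14) (nat_lit 0) (.cons (.ev (nat_lit 5212658497509919455245735313866753) (nat_lit 1)) (.cons (.br (nat_lit 15) (nat_lit 0) (.cons (.br (nat_lit 15) (nat_lit 0) .nil) .nil)) .nil))),
 (.br (nat_lit 15) (nat_lit 0) (.cons (.ev (nat_lit 1334440575054268000461198076007153665) (nat_lit 1)) (.cons (.br (nat_lit 16) (nat_lit 0) (.cons (.ev (nat_lit 340287559297334645833535847242859020545) (nat_lit 1)) (.cons (.kr (nat_lit 2658455992188801765450304262305218561) (nat_lit 680564733841876926963642704110483931136) (nat_lit 0) (nat_lit 1)) .nil))) .nil))),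
 (.br (nat_lit 13) (nat_lit 0) (.cons (.ev (nat_lit 5212658497509919455245735313866753) (nat_lit 1)) (.cons (.rf (nat_lit 601) (nat_lit 608109107410126407873)) .nil))),
 (.br (nat_lit 14) (nat_lit 0) (.cons (.ev (nat_lit 1334440575362539380542909344156549120) (nat_lit 1)) (.cons (.br (nat_lit 15) (nat_lit 0) (.cons (.ev (nat_lit 680564774407317531583142552341070348291) (nat_lit 2)) (.cons (.ev (nat_lit 1334440575054268000461199171207036928) (nat_lit 1)) .nil))) .nil))),
 (.br (nat_lit 13) (nat_lit 0) (.cons (.kr (nat_lit 40723275532331869524185413844993) (nat_lit 2427296516310185715696128) (nat_lit 0) (nat_lit 2)) (.cons (.ev (nat_lit 5317033836677416190413993539979837953) (nat_lit 3)) (.cons (.br (nat_lit 14) (nat_lit 0) (.cons (.rf (nat_lit 747) (nat_lit 622703726024184642504736)) (.cons (.rf (nat_lit 748) (nat_lit 19926519232773908561233952)) (.cons (.br (nat_lit 14) (nat_lit 0) (.cons (.rf (nat_lit 601) (nat_lit 646192708078429997281)) (.cons (.rf (nat_lit 748) (nat_lit 19926519232773908561233952)) .nil))) .nil)))) .nil)))),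
 (.br (nat_lit 14) (nat_lit 0) (.cons (.ev (nat_lit 5337803024111555500929241442383168005) (nat_lit 3)) (.cons (.rf (nat_lit 605) (nat_lit 645075815370842114273)) .nil))),
 (.br (nat_lit 14) (nat_lit 0) (.cons (.ev (nat_lit 5337803024111555500929241442383168005) (nat_lit 3)) (.cons (.br (nat_lit 15) (nat_lit 0) (.cons (.ev (nat_lit 1366446501521664393343173378715691385345) (nat_lit 3)) (.cons (.br (nat_lit 16) (nat_lit 0) (.cons (.ev (nat_lit 342946015367825582398749507056776183811) (nat_lit 2)) .nil)) .nil))) .nil))),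
 (.br (nat_lit 15) (nat_lit 0) (.cons (.ev (nat_lit 2658456150647554127245226652523823617) (nat_lit 2)) (.cons (.br (nat_lit 14) (nat_lit 0) (.cons (.br (nat_lit 16) (nat_lit 0) (.cons (.ev (nat_lit 685912840648212910758783462144739377667) (nat_lit 3)) .nil)) (.cons (.kr (nat_lit 2658455992188801765450304262305218561) (nat_lit 174224571863520493293284692494312271773696) (nat_lit 0) (nat_lit 1)) .nil))) .nil))),
 (.br (nat_lit 14) (nat_lit 0) (.cons (.rf (nat_lit 752) (nat_lit 677582165103132179601393696)) (.cons (.br (nat_lit 16) (nat_lit 0) (.cons (.br (nat_lit 15) (nat_lit 0) (.cons (.ev (nat_lit 2047021539143299502150081892944619504135) (nat_lit 3)) .nil)) (.cons (.ev (nat_lit 174224571904085933897904192342542858190851) (nat_lit 2)) .nil))) .nil))),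
 (.br (nat_lit 10) (nat_lit 0) (.cons (.br (nat_lit 13) (nat_lit 0) (.cons (.ev (nat_lit 10425158536276958742025187650306049) (nat_lit 2)) (.cons (.br (nat_lit 14) (nat_lit 0) (.cons (.ev (nat_lit 20972169993782893449759399128335877) (nat_lit 4)) (.cons (.br (nat_lit 15) (nat_lit 0) (.cons (.ev (nat_lit 26647477065704375263212822905274243609) (nat_lit 5)) (.cons (.br (nat_lit 16) (nat_lit 0) (.cons (.br (nat_lit 16) (nat_lit 0) .nil) .nil)) .nil))) .nil))) (.cons (.br (nat_lit 14) (nat_lit 0) (.cons (.rf (nat_lit 745) (nat_lit 622703726024184642504736)) (.cons (.rf (nat_lit 745) (nat_lit 586104265477549224630499)) (.cons (.br (nat_lit 15) (nat_lit 0) (.cons (.rf (nat_lit 746) (nat_lit 19926519232773908561233952)) (.cons (.br (nat_lit 15) (nat_lit 0) (.cons (.rf (nat_lit 746) (nat_lit 19926519232773908561233952)) .nil)) .nil))) .nil)))) .nil)))) (.cons (.rf (nat_lit 749) (nat_lit 583706118939841765935136)) (.cons (.br (nat_lit 13) (nat_lit 0) (.cons (.rf (nat_lit 749) (nat_lit 548252520577658071816419)) (.cons (.br (nat_lit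 14) (nat_lit 0) (.cons (.rf (nat_lit 750) (nat_lit 19926519232773908561233952)) (.cons (.rf (nat_lit 751) (nat_lit 19926519232773908561233952)) (.cons (.br (nat_lit 14) (nat_lit 0) (.cons (.rf (nat_lit 605) (nat_lit 645075815370842114273)) (.cons (.rf (nat_lit 751) (nat_lit 19926519232773908561233952)) .nil))) .nil)))) (.cons (.rf (nat_lit 744) (nat_lit 19347474496257807882467)) (.cons (.br (nat_lit 14) (nat_lit 0) (.cons (.rf (nat_lit 752) (nat_lit 677582165103132179601393696)) (.cons (.rf (nat_lit 753) (nat_lit 677582165103132179601393696)) (.cons (.br (nat_lit 14) (nat_lit 0) (.cons (.rf (nat_lit 752) (nat_lit 677582165103132179601393696)) (.cons (.rf (nat_lit 753) (nat_lit 677582165103132179601393696)) .nil))) .nil)))) .nil))))) .nil)))),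
 (.br (nat_lit 16) (nat_lit 0) (.cons (.rf (nat_lit 706) (nat_lit 366961537937839237248457797)) .nil)),
 (.br (nat_lit 13) (nat_lit 0) (.cons (.br (nat_lit 15) (nat_lit 0) (.cons (.ev (nat_lit 2658456150647554127245226652523823617) (nat_lit 2)) (.cons (.br (nat_lit 16) (nat_lit 0) (.cons (.br (nat_lit 16) (nat_lit 0) .nil) .nil)) .nil))) (.cons (.br (nat_lit 16) (nat_lit 0) (.cons (.kr (nat_lit 10425316992602024020075520219676673) (nat_lit 680564733842495915836001951671937663488) (nat_lit 0) (nat_lit 2)) (.cons (.rf (nat_lit 614) (nat_lit 645075815370842114273)) .nil))) (.cons (.br (nat_lit 15) (nat_lit 0) (.cons (.rf (nat_lit 755) (nat_lit 677582165103132179601393696)) (.cons (.br (nat_lit 15) (nat_lit 0) (.cons (.rf (nat_lit 755) (nat_lit 677582165103132179601393696)) .nil)) .nil))) .nil)))),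
 (.br (nat_lit 13) (nat_lit 0) (.cons (.rf (nat_lit 756) (nat_lit 19926519232773908561233952)) (.cons (.br (nat_lit 14) (nat_lit 0) (.cons (.ev (nat_lit 2689772033864451648970387584222628869) (nat_lit 4)) (.cons (.ev (nat_lit 2041725477160941158613406047250747097607) (nat_lit 3)) (.cons (.br (nat_lit 15) (nat_lit 0) (.cons (.ev (nat_lit 2658456150647554127245226652523823617) (nat_lit 2)) (.cons (.br (nat_lit 16) (nat_lit 0) (.cons (.ev (nat_lit 341611615199442468016289266655043780608) (nat_lit 1)) .nil)) .nil))) .nil)))) (.cons (.br (nat_lit 15) (nat_lit 0) (.cons (.rf (nat_lit 619) (nat_lit 645075815370842114273)) (.cons (.ev (nat_lit 2658456150647554127245226652523823617) (nat_lit 2)) (.cons (.br (nat_lit 17) (nat_lit 0) (.cons (.ev (nat_lit 87112291124136642828994060741239963123968) (nat_lit 1)) (.cons (.ev (nat_lit 174227230400641708802673726508837944820743) (nat_lit 3)) .nil))) .nil)))) .nil)))),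
 (.br (nat_lit 13) (nat_lit 0) (.cons (.rf (nat_lit 756) (nat_lit 19926519232773908561233952)) (.cons (.rf (nat_lit 757) (nat_lit 19926519232773908561233952)) (.cons (.br (nat_lit 14) (nat_lit 0) (.cons (.br (nat_lit 16) (nat_lit 0) (.cons (.ev (nat_lit 1363819077774627930921046187275276256257) (nat_lit 3)) (.cons (.ev (nat_lit 680564774406696134230234741999891644419) (nat_lit 2)) .nil))) (.cons (.rf (nat_lit 617) (nat_lit 645075815370842114273)) (.cons (.rf (nat_lit 706) (nat_lit 591821666599186167928855621)) .nil)))) .nil)))),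
 (.br (nat_lit 10) (nat_lit 0) (.cons (.rf (nat_lit 754) (nat_lit 583706118939841765935136)) (.cons (.ev (nat_lit 79229376162450716567340581121) (nat_lit 1)) (.cons (.br (nat_lit 13) (nat_lit 0) (.cons (.rf (nat_lit 756) (nat_lit 19926519232773908561233952)) (.cons (.rf (nat_lit 757) (nat_lit 19926519232773908561233952)) (.cons (.rf (nat_lit 758) (nat_lit 19926519232773908561233952)) (.cons (.br (nat_lit 13) (nat_lit 0) (.cons (.rf (nat_lit 756) (nat_lit 19926519232773908561233952)) (.cons (.rf (nat_lit 757) (nat_lit 19926519232773908561233952)) (.cons (.rf (nat_lit 758) (nat_lit 19926519232773908561233952)) .nil)))) .nil))))) .nil))))]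

theorem c27 : chkAll C T R L27 (nat_lit 734) = true := by decide +kernel

theorem l27 : (nat_lit 734) + L27.length = (nat_lit 760) := by decide +kernel

/-- part of the certificates -/
def L28 : List Prf := [(.br (nat_lit 13) (nat_lit 0) (.cons (.br (nat_lit 14) (nat_lit 0) (.cons (.ev (nat_lit 8006765464176633678056314175702436873) (nat_lit 4)) (.cons (.rf (nat_lit 628) (nat_lit 646192708078429997281)) .nil))) (.cons (.br (nat_lit 14) (nat_lit 0) (.cons (.ev (nat_lit 18661358618501806881404635841519026189) (nat_lit 4)) (.cons (.ev (nat_lit 10425158536276958742025187650306049) (nat_lit 2)) (.cons (.br (nat_lit 16) (nat_lit 0) (.cons (.kr (nat_lit 2658455992188801765450304262305218561) (nat_lit 680564733841876926963642704110483931136) (nat_lit 0) (nat_lit 1)) (.cons (.ev (nat_lit 340287559297026374453453574119989772545) (nat_lit 1)) .nil))) .nil)))) (.cons (.br (nat_lit 14) (nat_lit 0) (.cons (.rf (nat_lit 629) (nat_lit 646192708078429997281)) (.cons (.br (nat_lit 15) (nat_lit 0) (.cons (.ev (nat_lit 340287559297334645833535847242859020545)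 (nat_lit 1)) (.cons (.br (nat_lit 16) (nat_lit 0) (.cons (.zr (nat_lit 680564815288430409515915030650962444288) (nat_lit 7996137162143643993246390838592800769) (nat_lit 16) (nat_lit 6)) .nil)) .nil))) (.cons (.ev (nat_lit 10425158536276958742025187650306049) (nat_lit 2)) .nil)))) .nil)))),
 (.br (nat_lit 13) (nat_lit 0) (.cons (.rf (nat_lit 760) (nat_lit 19926519232773908561233952)) (.cons (.br (nat_lit 14) (nat_lit 0) (.cons (.zr (nat_lit 2044352738964989617229080249220240375811) (nat_lit 12117592971504261921769472) (nat_lit 16) (nat_lit 13)) (.cons (.br (nat_lit 14) (nat_lit 0) (.cons (.zr (nat_lit 2044352738964989617229080249220240375811) (nat_lit 12117592971504261921769472) (nat_lit 16) (nat_lit 13)) .nil)) .nil))) (.cons (.br (nat_lit 14) (nat_lit 0) (.cons (.br (nat_lit 14) (nat_lit 0) (.cons (.ev (nat_lit 10425159157674311650961411555721217) (nat_lit 2)) .nil)) (.cons (.br (nat_lit 14) (nat_lit 0) (.cons (.ev (nat_lit 10425159157674311650961411555721217) (nat_lit 2)) .nil)) .nil))) .nil)))),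
 (.br (nat_lit 13) (nat_lit 0) (.cons (.rf (nat_lit 760) (nat_lit 19926519232773908561233952)) (.cons (.rf (nat_lit 761) (nat_lit 19926519232773908561233952)) (.cons (.br (nat_lit 16) (nat_lit 0) (.cons (.br (nat_lit 14) (nat_lit 0) (.cons (.ev (nat_lit 340287559297334645833535847242859020545) (nat_lit 1)) (.cons (.br (nat_lit 15) (nat_lit 0) (.cons (.ev (nat_lit 8048303837802079814913535293749199873) (nat_lit 4)) .nil)) .nil))) (.cons (.kr (nat_lit 2658455992188801765450304262305218561) (nat_lit 680564733841876926963642704110483931136) (nat_lit 0) (nat_lit 1)) (.cons (.ev (nat_lit 680564774406696134230234741999891644419) (nat_lit 2)) .nil)))) .nil)))),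
 (.br (nat_lit 10) (nat_lit 0) (.cons (.rf (nat_lit 754) (nat_lit 583706118939841765935136)) (.cons (.ev (nat_lit 79229376162450716567340581121) (nat_lit 1)) (.cons (.br (nat_lit 13) (nat_lit 0) (.cons (.rf (nat_lit 760) (nat_lit 19926519232773908561233952)) (.cons (.rf (nat_lit 761) (nat_lit 19926519232773908561233952)) (.cons (.rf (nat_lit 762) (nat_lit 19926519232773908561233952)) (.cons (.br (nat_lit 13) (nat_lit 0) (.cons (.rf (nat_lit 760) (nat_lit 19926519232773908561233952)) (.cons (.rf (nat_lit 761) (nat_lit 19926519232773908561233952)) (.cons (.rf (nat_lit 762) (nat_lit 19926519232773908561233952)) .nil)))) .nil))))) .nil)))),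
 (.br (nat_lit 15) (nat_lit 0) (.cons (.ev (nat_lit 1334440575362539380542908240333176833) (nat_lit 1)) (.cons (.br (nat_lit 16) (nat_lit 0) (.cons (.ev (nat_lit 683233574585620153356343129226243736067) (nat_lit 2)) .nil)) .nil))),
 (.br (nat_lit 14) (nat_lit 0) (.cons (.br (nat_lit 15) (nat_lit 0) (.cons (.ev (nat_lit 683233574585620153356343129226243736067) (nat_lit 2)) (.cons (.ev (nat_lit 1334440575054268000461199171207036928) (nat_lit 1)) .nil))) (.cons (.ev (nat_lit 10425158536276958742025187650306049) (nat_lit 2)) (.cons (.br (nat_lit 15) (nat_lit 0) (.cons (.ev (nat_lit 340287559297026374453453574119989772545) (nat_lit 1)) (.cons (.ev (nat_lit 87112291124136642828994060741239963123968) (nat_lit 1)) .nil))) .nil)))),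
 (.br (nat_lit 13) (nat_lit 0) (.cons (.br (nat_lit 14) (nat_lit 0) (.cons (.ev (nat_lit 10425158536276958742025187650306049) (nat_lit 2)) (.cons (.rf (nat_lit 764) (nat_lit 677582165103132179601393696)) (.cons (.rf (nat_lit 764) (nat_lit 640105464695078675185502240)) .nil)))) (.cons (.rf (nat_lit 765) (nat_lit 677582165103132179601393696)) (.cons (.rf (nat_lit 765) (nat_lit 640105464695078675185502240)) .nil)))),
 (.br (nat_lit 15) (nat_lit 0) (.cons (.br (nat_lit 14) (nat_lit 0) (.cons (.ev (nat_lit 340287559297334645833535847242859020545) (nat_lit 1)) (.cons (.ev (nat_lit 10425159157674311650961411555721217) (nat_lit 2)) .nil))) (.cons (.ev (nat_lit 680564774406696134230234741999891644419) (nat_lit 2)) (.cons (.br (nat_lit 17) (nat_lit 0) (.cons (.ev (nat_lit 174224571904085933897904192342542858190851) (nat_lit 2)) (.cons (.ev (nat_lit 341611615199442468016289266655043780608) (nat_lit 1)) .nil))) .nil)))),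
 (.br (nat_lit 13) (nat_lit 0) (.cons (.rf (nat_lit 766) (nat_lit 677582165103132179601393696)) (.cons (.rf (nat_lit 767) (nat_lit 677582165103132179601393696)) (.cons (.rf (nat_lit 767) (nat_lit 640105464695078675185502240)) .nil)))),
 (.br (nat_lit 13) (nat_lit 0) (.cons (.rf (nat_lit 766) (nat_lit 677582165103132179601393696)) (.cons (.rf (nat_lit 768) (nat_lit 677582165103132179601393696)) (.cons (.br (nat_lit 16) (nat_lit 0) (.cons (.br (nat_lit 14) (nat_lit 0) (.cons (.ev (nat_lit 340287559297334645833535846139069202688) (nat_lit 1)) (.cons (.ev (nat_lit 174905147022521527894486199181340416409601) (nat_lit 2)) .nil))) (.cons (.br (nat_lit 14) (nat_lit 0) (.cons (.ev (nat_lit 341611615199134196636206994635964350465) (nat_lit 1)) (.cons (.ev (nat_lit 87452568298760414486249724826531770925313) (nat_lit 1)) .nil))) (.cons (.ev (nat_lit 680564774406696134230234741999891644419) (nat_lit 2)) .nil)))) .nil)))),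
 (.br (nat_lit 9) (nat_lit 0) (.cons (.rf (nat_lit 724) (nat_lit 493858305440582043680)) (.cons (.rf (nat_lit 733) (nat_lit 493858305440582043680)) (.cons (.br (nat_lit 12) (nat_lit 0) (.cons (.br (nat_lit 10) (nat_lit 0) (.cons (.rf (nat_lit 733) (nat_lit 458008564779227027683)) (.cons (.ev (nat_lit 316919913130784900513221705731) (nat_lit 3)) (.cons (.br (nat_lit 13) (nat_lit 0) (.cons (.rf (nat_lit 735) (nat_lit 583706118939841765935136)) (.cons (.rf (nat_lit 735) (nat_lit 547107777606882114574372)) (.cons (.br (nat_lit 13) (nat_lit 0) (.cons (.rf (nat_lit 735) (nat_lit 583706118939841765935136)) (.cons (.rf (nat_lit 735) (nat_lit 547107777606882114574372)) (.cons (.br (nat_lit 14) (nat_lit 0) (.cons (.rf (nat_lit 737) (nat_lit 677582165103132179601393696)) (.cons (.rf (nat_lit 738) (nat_lit 677582165103132179601393696)) (.cons (.rf (nat_lit 738) (nat_lit 640105464695078675185502240)) .nil)))) .nil)))) .nil)))) .nil)))) (.cons (.ev (nat_lit 79537647542532427835489976576) (nat_lit 1)) (.cons (.rf (nat_lit 744) (nat_lit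 17022140995484340291616)) (.cons (.br (nat_lit 10) (nat_lit 0) (.cons (.rf (nat_lit 754) (nat_lit 583706118939841765935136)) (.cons (.rf (nat_lit 759) (nat_lit 583706118939841765935136)) (.cons (.rf (nat_lit 763) (nat_lit 583706118939841765935136)) (.cons (.br (nat_lit 10) (nat_lit 0) (.cons (.rf (nat_lit 754) (nat_lit 583706118939841765935136)) (.cons (.rf (nat_lit 759) (nat_lit 583706118939841765935136)) (.cons (.rf (nat_lit 763) (nat_lit 583706118939841765935136)) (.cons (.br (nat_lit 13) (nat_lit 0) (.cons (.rf (nat_lit 766) (nat_lit 677582165103132179601393696)) (.cons (.rf (nat_lit 768) (nat_lit 677582165103132179601393696)) (.cons (.rf (nat_lit 769) (nat_lit 677582165103132179601393696)) (.cons (.rf (nat_lit 769) (nat_lit 640105464695078675185502240)) .nil))))) .nil))))) .nil))))) .nil))))) .nil)))),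
 (.br (nat_lit 13) (nat_lit 0) (.cons (.ev (nat_lit 1344825407073591051738155381959033089) (nat_lit 2)) (.cons (.rf (nat_lit 665) (nat_lit 646192708078429997281)) .nil))),
 (.br (nat_lit 13) (nat_lit 0) (.cons (.ev (nat_lit 1344825407075999458644978556781723904) (nat_lit 2)) (.cons (.br (nat_lit 16) (nat_lit 0) (.cons (.ev (nat_lit 688540102454744550306265423317248902149) (nat_lit 4)) (.cons (.ev (nat_lit 1361129548813399531533618319379132711943) (nat_lit 3)) .nil))) .nil))),
 (.br (nat_lit 12) (nat_lit 0) (.cons (.ev (nat_lit 20769505587175592983773557821931523) (nat_lit 3)) (.cons (.ev (nat_lit 5337681487493715932913124856933253127) (nat_lit 3)) (.cons (.br (nat_lit 13) (nat_lit 0) (.cons (.rf (nat_lit 771) (nat_lit 19926519232773908561233952)) (.cons (.rf (nat_lit 772) (nat_lit 19926519232773908561233952)) (.cons (.br (nat_lit 13) (nat_lit 0) (.cons (.rf (nat_lit 665) (nat_lit 646192708078429997281)) (.cons (.rf (nat_lit 772) (nat_lit 19926519232773908561233952)) .nil))) .nil)))) .nil)))),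
 (.br (nat_lit 12) (nat_lit 0) (.cons (.ev (nat_lit 1366467149172480692938098557408742866951) (nat_lit 3)) (.cons (.br (nat_lit 13) (nat_lit 0) (.cons (.ev (nat_lit 1366467229983973334335747669605570970631) (nat_lit 3)) (.cons (.ev (nat_lit 2668861105381002040477250375408288000) (nat_lit 2)) .nil))) .nil))),
 (.br (nat_lit 12) (nat_lit 0) (.cons (.ev (nat_lit 1366467149172480692938098557408742866951) (nat_lit 3)) (.cons (.rf (nat_lit 669) (nat_lit 646192708078429997281)) .nil))),
 (.br (nat_lit 13) (nat_lit 0) (.cons (.ev (nat_lit 5316993112785341171736243810267694083) (nat_lit 3)) (.cons (.ev (nat_lit 2041746206577692236489320865700040540169) (nat_lit 4)) (.cons (.br (nat_lit 16) (nat_lit 0) (.cons (.ev (nat_lit 1366467149172480692938098557408742866951) (nat_lit 3)) (.cons (.ev (nat_lit 1361150318002066793995818318306325431299) (nat_lit 3)) .nil))) .nil)))),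
 (.br (nat_lit 12) (nat_lit 0) (.cons (.rf (nat_lit 776) (nat_lit 19926519232773908561233952)) (.cons (.rf (nat_lit 776) (nat_lit 21098846712146297985533984)) .nil))),
 (.br (nat_lit 12) (nat_lit 0) (.cons (.rf (nat_lit 776) (nat_lit 19926519232773908561233952)) (.cons (.br (nat_lit 13) (nat_lit 0) (.cons (.ev (nat_lit 691229712227465591017841968650331489293) (nat_lit 4)) (.cons (.ev (nat_lit 174232588770508229195248341205724217082893) (nat_lit 4)) .nil))) .nil))),
 (.br (nat_lit 15) (nat_lit 0) (.cons (.ev (nat_lit 1334420371872826862982773748501905665) (nat_lit 1)) (.cons (.br (nat_lit 16) (nat_lit 0) (.cons (.br (nat_lit 16) (nat_lit 0) .nil) .nil)) .nil))),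
 (.br (nat_lit 13) (nat_lit 0) (.cons (.rf (nat_lit 779) (nat_lit 19926519232773908561233952)) (.cons (.rf (nat_lit 779) (nat_lit 18755372343931516647282724)) (.cons (.br (nat_lit 15) (nat_lit 0) (.cons (.br (nat_lit 15) (nat_lit 0) (.cons (.ev (nat_lit 2658496557010436402201514539457970177) (nat_lit 2)) .nil)) (.cons (.br (nat_lit 15) (nat_lit 0) (.cons (.ev (nat_lit 2658496557010436402201514539457970177) (nat_lit 2)) .nil)) .nil))) .nil)))),
 (.br (nat_lit 13) (nat_lit 0) (.cons (.rf (nat_lit 779) (nat_lit 19926483384123966899751141)) (.cons (.ev (nat_lit 2658456150026156774336290411505648129) (nat_lit 2)) (.cons (.br (nat_lit 14) (nat_lit 0) (.cons (.ev (nat_lit 5317033836056037800759653947876180483) (nat_lit 3)) (.cons (.ev (nat_lit 1361129589537913022720885649409235354119) (nat_lit 3)) (.cons (.br (nat_lit 15) (nat_lit 0) (.cons (.ev (nat_lit 683223272549534385733891037117447274497) (nat_lit 5)) (.cons (.ev (nat_lit 5337803023490177111272650016106611207) (nat_lit 3)) .nil))) .nil)))) (.cons (.br (nat_lit 14) (nat_lit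 0) (.cons (.rf (nat_lit 674) (nat_lit 646192708078429997281)) (.cons (.br (nat_lit 16) (nat_lit 0) (.cons (.ev (nat_lit 340287559297334645833535565763587408128) (nat_lit 1)) (.cons (.ev (nat_lit 340287579500516086971013708611821043713) (nat_lit 1)) .nil))) (.cons (.br (nat_lit 15) (nat_lit 0) (.cons (.br (nat_lit 16) (nat_lit 0) (.cons (.ev (nat_lit 680564774407317531583142552341070348291) (nat_lit 2)) .nil)) (.cons (.ev (nat_lit 174227240744670599401952349207314898616323) (nat_lit 2)) .nil))) .nil)))) .nil))))),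
 (.br (nat_lit 12) (nat_lit 0) (.cons (.rf (nat_lit 780) (nat_lit 19926519232773908561233952)) (.cons (.rf (nat_lit 781) (nat_lit 19926519232773908561233952)) (.cons (.rf (nat_lit 781) (nat_lit 18755372343931516647282724)) (.cons (.br (nat_lit 13) (nat_lit 0) (.cons (.rf (nat_lit 780) (nat_lit 18755336495281575193221347)) (.cons (.rf (nat_lit 781) (nat_lit 19926483384123966899751141)) (.cons (.rf (nat_lit 781) (nat_lit 18755336495281575193221347)) (.cons (.br (nat_lit 14) (nat_lit 0) (.cons (.ev (nat_lit 10405113811170294670199196210954498) (nat_lit 2)) (.cons (.ev (nat_lit 10405113813578701575903059573342467) (nat_lit 2)) (.cons (.br (nat_lit 15) (nat_lit 0) (.cons (.br (nat_lit 15) (nat_lit 0) .nil) .nil)) .nil)))) .nil))))) .nil))))),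
 (.br (nat_lit 13) (nat_lit 0) (.cons (.ev (nat_lit 1334420372181098243065045767581335808) (nat_lit 1)) (.cons (.br (nat_lit 15) (nat_lit 0) (.cons (.zr (nat_lit 623824796856224013336576009) (nat_lit 683264728208315037294449764113301113856) (nat_lit 32) (nat_lit 2)) (.cons (.ev (nat_lit 2658496557010436402201514539457970177) (nat_lit 2)) .nil))) .nil))),
 (.br (nat_lit 13) (nat_lit 0) (.cons (.ev (nat_lit 1334420372181098243065046871371153665) (nat_lit 1)) (.cons (.rf (nat_lit 783) (nat_lit 19926519232773908561233952)) (.cons (.br (nat_lit 13) (nat_lit 0) (.cons (.ev (nat_lit 1334420372181098243065045767581335808) (nat_lit 1)) (.cons (.rf (nat_lit 783) (nat_lit 19926519232773908561233952)) .nil))) .nil))))]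

theorem c28 : chkAll C T R L28 (nat_lit 760) = true := by decide +kernel

theorem l28 : (nat_lit 760) + L28.length = (nat_lit 785) := by decide +kernel

/-- part of the certificates -/
def L29 : List Prf := [(.br (nat_lit 13) (nat_lit 0) (.cons (.br (nat_lit 15) (nat_lit 0) (.cons (.ev (nat_lit 2658496556389039049292578315552555009) (nat_lit 2)) (.cons (.br (nat_lit 16) (nat_lit 0) (.cons (.zr (nat_lit 174229899160097973832154630046310222266887) (nat_lit 122169826596995610259194194034688) (nat_lit 16) (nat_lit 1)) .nil)) .nil))) (.cons (.br (nat_lit 15) (nat_lit 0) (.cons (.br (nat_lit 16) (nat_lit 0) (.cons (.ev (nat_lit 340287559297026374453453854495438012673) (nat_lit 1)) .nil)) (.cons (.ev (nat_lit 2658496556389039049292578315552555009) (nat_lit 2)) .nil))) .nil))),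
 (.br (nat_lit 12) (nat_lit 0) (.cons (.rf (nat_lit 782) (nat_lit 19926519232773908561233952)) (.cons (.rf (nat_lit 784) (nat_lit 19926519232773908561233952)) (.cons (.rf (nat_lit 784) (nat_lit 18755372343931516647282724)) (.cons (.br (nat_lit 13) (nat_lit 0) (.cons (.rf (nat_lit 785) (nat_lit 677582165103132179601393696)) (.cons (.rf (nat_lit 785) (nat_lit 676411018214289787687442468)) (.cons (.br (nat_lit 13) (nat_lit 0) (.cons (.rf (nat_lit 785) (nat_lit 677582165103132179601393696)) (.cons (.rf (nat_lit 785) (nat_lit 676411018214289787687442468)) .nil))) .nil)))) .nil))))),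
 (.br (nat_lit 13) (nat_lit 0) (.cons (.kr (nat_lit 2658455991572249597446844478421729281) (nat_lit 680564733841876936371482180607138594816) (nat_lit 0) (nat_lit 1)) (.cons (.br (nat_lit 16) (nat_lit 0) (.cons (.ev (nat_lit 680564774407317531583142552341070348291) (nat_lit 2)) .nil)) .nil))),
 (.br (nat_lit 14) (nat_lit 0) (.cons (.rf (nat_lit 786) (nat_lit 18755336495281575193221347)) (.cons (.ev (nat_lit 1334420371872826862982773748501905665) (nat_lit 1)) (.cons (.ev (nat_lit 340287559297026374453453854495438012673) (nat_lit 1)) (.cons (.br (nat_lit 15) (nat_lit 0) (.cons (.rf (nat_lit 787) (nat_lit 677582165103132179601393696)) (.cons (.ev (nat_lit 2658456150026156774336290411505648129) (nat_lit 2)) (.cons (.br (nat_lit 16) (nat_lit 0) (.cons (.rf (nat_lit 787) (nat_lit 676411018214289787687442468)) (.cons (.kr (nat_lit 2658455991572249597446844478421729281) (nat_lit 680564733841876936371482180607138594816) (nat_lit 0) (nat_lit 1)) .nil))) .nil)))) .nil))))),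
 (.br (nat_lit 13) (nat_lit 0) (.cons (.ev (nat_lit 1334440575362539380543189719604789248) (nat_lit 1)) (.cons (.rf (nat_lit 788) (nat_lit 18755336495281575193221347)) (.cons (.br (nat_lit 14) (nat_lit 0) (.cons (.ev (nat_lit 20891040971892082811070244251239939) (nat_lit 3)) (.cons (.ev (nat_lit 871122932172022095611066557796644937141261) (nat_lit 4)) .nil))) .nil)))),
 (.br (nat_lit 13) (nat_lit 0) (.cons (.rf (nat_lit 786) (nat_lit 18755336495281575193221347)) (.cons (.rf (nat_lit 788) (nat_lit 18755336495281575193221347)) (.cons (.br (nat_lit 14) (nat_lit 0) (.cons (.ev (nat_lit 2658476512596018969705949841221419778) (nat_lit 2)) (.cons (.ev (nat_lit 680564754362281716797739177301722202880) (nat_lit 2)) (.cons (.ev (nat_lit 174224603017939802630355663554135329997829) (nat_lit 4)) .nil)))) .nil)))),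
 (.br (nat_lit 12) (nat_lit 0) (.cons (.rf (nat_lit 782) (nat_lit 19926519232773908561233952)) (.cons (.rf (nat_lit 786) (nat_lit 19926519232773908561233952)) (.cons (.rf (nat_lit 788) (nat_lit 19926519232773908561233952)) (.cons (.br (nat_lit 13) (nat_lit 0) (.cons (.rf (nat_lit 786) (nat_lit 18755336495281575193221347)) (.cons (.rf (nat_lit 789) (nat_lit 677582165103132179601393696)) (.cons (.rf (nat_lit 790) (nat_lit 677582165103132179601393696)) (.cons (.br (nat_lit 13) (nat_lit 0) (.cons (.rf (nat_lit 786) (nat_lit 18755336495281575193221347)) (.cons (.rf (nat_lit 789) (nat_lit 677582165103132179601393696)) (.cons (.rf (nat_lit 790) (nat_lit 677582165103132179601393696)) .nil)))) .nil))))) .nil))))),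
 (.br (nat_lit 10) (nat_lit 0) (.cons (.rf (nat_lit 770) (nat_lit 493857214720681089060)) (.cons (.rf (nat_lit 770) (nat_lit 458008564779227027683)) (.cons (.br (nat_lit 14) (nat_lit 0) (.cons (.rf (nat_lit 773) (nat_lit 583706118939841765935136)) (.cons (.rf (nat_lit 773) (nat_lit 583670269199180410919139)) (.cons (.kr (nat_lit 5192296858534827628530496329220096) (nat_lit 1329227995784915872903807060280344576) (nat_lit 14) (nat_lit 0)) (.cons (.br (nat_lit 15) (nat_lit 0) (.cons (.rf (nat_lit 773) (nat_lit 547107778697602015528992)) (.cons (.rf (nat_lit 773) (nat_lit 547071928956940660512995)) (.cons (.br (nat_lit 12) (nat_lit 0) (.cons (.rf (nat_lit 774) (nat_lit 19926519232773908561233952)) (.cons (.rf (nat_lit 775) (nat_lit 19926519232773908561233952)) (.cons (.br (nat_lit 12) (nat_lit 0) (.cons (.rf (nat_lit 774) (nat_lit 19926519232773908561233952)) (.cons (.rf (nat_lit 669) (nat_lit 646192708078429997281)) .nil))) .nil)))) (.cons (.br (nat_lit 12) (nat_lit 0) (.cons (.rf (nat_lit 777) (nat_lit 677582165103132179601393696))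 (.cons (.rf (nat_lit 778) (nat_lit 677582165103132179601393696)) (.cons (.rf (nat_lit 778) (nat_lit 640068866354836435435096096)) .nil)))) .nil))))) .nil))))) (.cons (.br (nat_lit 12) (nat_lit 0) (.cons (.rf (nat_lit 782) (nat_lit 19926519232773908561233952)) (.cons (.rf (nat_lit 786) (nat_lit 19926519232773908561233952)) (.cons (.rf (nat_lit 791) (nat_lit 19926519232773908561233952)) (.cons (.rf (nat_lit 791) (nat_lit 18755372343931516647282724)) (.cons (.br (nat_lit 12) (nat_lit 0) (.cons (.rf (nat_lit 782) (nat_lit 19926519232773908561233952)) (.cons (.rf (nat_lit 786) (nat_lit 19926519232773908561233952)) (.cons (.rf (nat_lit 791) (nat_lit 19926519232773908561233952)) (.cons (.rf (nat_lit 791) (nat_lit 18755372343931516647282724)) .nil))))) .nil)))))) .nil))))),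
 (.br (nat_lit 16) (nat_lit 0) (.cons (.ev (nat_lit 2689650814766152086225507277915554311) (nat_lit 3)) (.cons (.ev (nat_lit 680564774407317531583142552341070348291) (nat_lit 2)) .nil))),
 (.br (nat_lit 14) (nat_lit 0) (.cons (.br (nat_lit 15) (nat_lit 0) (.cons (.ev (nat_lit 680575240290364872580065996603692024321) (nat_lit 3)) (.cons (.ev (nat_lit 2658496557010436402201514539457970177) (nat_lit 2)) .nil))) (.cons (.br (nat_lit 15) (nat_lit 0) (.cons (.br (nat_lit 15) (nat_lit 0) .nil) .nil)) (.cons (.br (nat_lit 15) (nat_lit 0) (.cons (.ev (nat_lit 340297984853874723181978347298439431684) (nat_lit 3)) (.cons (.ev (nat_lit 174224571904085933897904192342542858190851) (nat_lit 2)) .nil))) .nil)))),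
 (.br (nat_lit 13) (nat_lit 0) (.cons (.ev (nat_lit 10384752173394683785737283603399169) (nat_lit 2)) (.cons (.br (nat_lit 14) (nat_lit 0) (.cons (.kr (nat_lit 10384594336039674899751134402969601) (nat_lit 2658455991569831782701103367508197376) (nat_lit 0) (nat_lit 1)) (.cons (.rf (nat_lit 793) (nat_lit 677582165103132179601393696)) (.cons (.rf (nat_lit 793) (nat_lit 640105464695078675185502240)) .nil)))) (.cons (.rf (nat_lit 794) (nat_lit 677582165103132179601393696)) (.cons (.rf (nat_lit 794) (nat_lit 640105464695078675185502240)) .nil))))),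
 (.br (nat_lit 12) (nat_lit 0) (.cons (.rf (nat_lit 795) (nat_lit 677582165103132179601393696)) (.cons (.rf (nat_lit 795) (nat_lit 677545566762889939850987552)) (.cons (.rf (nat_lit 795) (nat_lit 597870980054443283315857444)) (.cons (.rf (nat_lit 795) (nat_lit 597834381714201043565451300)) .nil))))),
 (.br (nat_lit 15) (nat_lit 0) (.cons (.zr (nat_lit 2658537441215746544655300062897111055) (nat_lit 2041735739900499059402428810070228733952) (nat_lit 32) (nat_lit 2)) (.cons (.ev (nat_lit 2658496557010436402201514539457970177) (nat_lit 2)) .nil))),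
 (.br (nat_lit 13) (nat_lit 0) (.cons (.ev (nat_lit 5337722212618914176776060405817803271) (nat_lit 3)) (.cons (.rf (nat_lit 797) (nat_lit 677582165103132179601393696)) (.cons (.rf (nat_lit 797) (nat_lit 640105464695078675185502240)) .nil)))),
 (.br (nat_lit 13) (nat_lit 0) (.cons (.rf (nat_lit 798) (nat_lit 677545566762889939850987552)) (.cons (.br (nat_lit 13) (nat_lit 0) (.cons (.zr (nat_lit 10466043362984454104746934994862095) (nat_lit 2052328025491910107764631022581837729792) (nat_lit 32) (nat_lit 2)) (.cons (.ev (nat_lit 1361150257550675341193794361417216884997) (nat_lit 3)) .nil))) (.cons (.br (nat_lit 13) (nat_lit 0) (.cons (.ev (nat_lit 10425159157674311650961411555721217) (nat_lit 2)) (.cons (.ev (nat_lit 1361150257550675341193794361417216884997) (nat_lit 3)) .nil))) .nil)))),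
 (.br (nat_lit 14) (nat_lit 0) (.cons (.rf (nat_lit 798) (nat_lit 677582165103132179601393696)) (.cons (.ev (nat_lit 10384752173394683785737283603399169) (nat_lit 2)) (.cons (.rf (nat_lit 799) (nat_lit 677582165103132179601393696)) (.cons (.rf (nat_lit 799) (nat_lit 640105464695078675185502240)) .nil))))),
 (.br (nat_lit 13) (nat_lit 0) (.cons (.rf (nat_lit 800) (nat_lit 677582129254482237939910885)) (.cons (.br (nat_lit 15) (nat_lit 0) (.cons (.br (nat_lit 15) (nat_lit 0) .nil) .nil)) (.cons (.br (nat_lit 15) (nat_lit 0) (.cons (.ev (nat_lit 680564774407317531583142552341070348291) (nat_lit 2)) (.cons (.ev (nat_lit 174224571863679571015629236054638744175107) (nat_lit 2)) .nil))) .nil)))),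
 (.br (nat_lit 13) (nat_lit 0) (.cons (.kr (nat_lit 10384594336039674899751134402969601) (nat_lit 2658455991569831782701103367508197376) (nat_lit 0) (nat_lit 1)) (.cons (.rf (nat_lit 801) (nat_lit 597870980054443283315857444)) (.cons (.br (nat_lit 13) (nat_lit 0) (.cons (.zr (nat_lit 20361637780388374727144387969025) (nat_lit 20769187744833246371254469625119488) (nat_lit 8) (nat_lit 2)) (.cons (.ev (nat_lit 10425159157674311650961411555721217) (nat_lit 2)) .nil))) .nil)))),
 (.br (nat_lit 14) (nat_lit 0) (.cons (.rf (nat_lit 801) (nat_lit 677582165103132179601393696)) (.cons (.rf (nat_lit 802) (nat_lit 677582165103132179601393696)) (.cons (.ev (nat_lit 10384752173394683785737283603399169) (nat_lit 2)) (.cons (.br (nat_lit 16) (nat_lit 0) (.cons (.rf (nat_lit 801) (nat_lit 597870980054443283315857444)) (.cons (.br (nat_lit 13) (nat_lit 0) (.cons (.ev (nat_lit 1344805045746523562186364019120603136) (nat_lit 2)) (.cons (.ev (nat_lit 87452578683434288182948927573485578027010) (nat_lit 2)) .nil))) (.cons (.rf (nat_lit 802) (nat_lit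 597870980054443283315857444)) .nil)))) .nil))))),
 (.br (nat_lit 12) (nat_lit 0) (.cons (.rf (nat_lit 796) (nat_lit 677582165103132179601393696)) (.cons (.rf (nat_lit 800) (nat_lit 677582165103132179601393696)) (.cons (.rf (nat_lit 803) (nat_lit 677582165103132179601393696)) (.cons (.rf (nat_lit 803) (nat_lit 640105464695078675185502240)) .nil))))),
 (.br (nat_lit 8) (nat_lit 0) (.cons (.rf (nat_lit 702) (nat_lit 407901468851537952)) (.cons (.rf (nat_lit 702) (nat_lit 406810748950583332)) (.cons (.br (nat_lit 11) (nat_lit 0) (.cons (.rf (nat_lit 702) (nat_lit 369692300474981445)) (.cons (.rf (nat_lit 702) (nat_lit 333664465599864003)) (.cons (.kr (nat_lit 618970019642690141744529409) (nat_lit 36893489246947508224) (nat_lit 0) (nat_lit 1)) (.cons (.br (nat_lit 9) (nat_lit 0) (.cons (.rf (nat_lit 724) (nat_lit 493858305440582043680)) (.cons (.rf (nat_lit 770) (nat_lit 493858305440582043680)) (.cons (.rf (nat_lit 770) (nat_lit 458009655498920560869)) (.cons (.br (nat_lit 9) (nat_lit 0) (.cons (.rf (nat_lit 724) (nat_lit 493858305440582043680))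 (.cons (.rf (nat_lit 770) (nat_lit 493858305440582043680)) (.cons (.rf (nat_lit 770) (nat_lit 458009655498920560869)) (.cons (.br (nat_lit 10) (nat_lit 0) (.cons (.rf (nat_lit 770) (nat_lit 493857214720681089060)) (.cons (.rf (nat_lit 770) (nat_lit 458008564779227027683)) (.cons (.rf (nat_lit 792) (nat_lit 583706118939841765935136)) (.cons (.rf (nat_lit 792) (nat_lit 547107778697602015528992)) (.cons (.br (nat_lit 10) (nat_lit 0) (.cons (.rf (nat_lit 770) (nat_lit 493857214720681089060)) (.cons (.rf (nat_lit 770) (nat_lit 458008564779227027683)) (.cons (.rf (nat_lit 792) (nat_lit 583706118939841765935136)) (.cons (.rf (nat_lit 792) (nat_lit 547107778697602015528992)) (.cons (.br (nat_lit 12) (nat_lit 0) (.cons (.rf (nat_lit 796) (nat_lit 677582165103132179601393696)) (.cons (.rf (nat_lit 804) (nat_lit 677582165103132179601393696)) (.cons (.rf (nat_lit 804) (nat_lit 677545566762889939850987552)) (.cons (.rf (nat_lit 804) (nat_lit 597870980054443283315857444)) (.cons (.rf (nat_lit 804) (nat_lit 597834381714201043565451300))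 .nil)))))) .nil)))))) .nil)))))) .nil))))) .nil))))) .nil))))) .nil)))),
 (.br (nat_lit 12) (nat_lit 0) (.cons (.br (nat_lit 12) (nat_lit 0) .nil) .nil)),
 (.br (nat_lit 14) (nat_lit 0) (.cons (.br (nat_lit 15) (nat_lit 0) (.cons (.ev (nat_lit 2668840585286901401209354355071778819) (nat_lit 2)) (.cons (.rf (nat_lit 806) (nat_lit 646192708113796405313)) .nil))) .nil)),
 (.br (nat_lit 15) (nat_lit 0) (.cons (.ev (nat_lit 1344825407384280283459657771834867969) (nat_lit 2)) .nil))]

theorem c29 : chkAll C T R L29 (nat_lit 785) = true := by decide +kernel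

theorem l29 : (nat_lit 785) + L29.length = (nat_lit 809) := by decide +kernel

end Pool.Agent.H93.Neg.N18_4_0
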