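import Pool.Agent.H93.Neg.TabN18_4_0

/-!
Certificates.
-/

set_option autoImplicit false
set_option maxRecDepth 100000
set_option linter.all false

namespace Pool.Agent.H93.Neg.N18_4_0

/-- part of the certificates -/
def L30 : List Prf := [(.br (nat_lit 12) (nat_lit 0) (.cons (.br (nat_lit 12) (nat_lit 0) .nil) .nil)),
 (.br (nat_lit 15) (nat_lit 0) (.cons (.ev (nat_lit 20282410817299856802921047916801) (nat_lit 1)) (.cons (.ev (nat_lit 5212658805786021831663758342095105) (nat_lit 1)) (.cons (.ev (nat_lit 340282387282885714657577740693781086465) (nat_lit 1)) (.cons (.br (nat_lit 15) (nat_lit 0) (.cons (.ev (nat_lit 20282410817299856802921047916801) (nat_lit 1)) (.cons (.ev (nat_lit 5212658805786021831663758342095105) (nat_lit 1)) (.cons (.ev (nat_lit 340282387282885714657577740693781086465) (nat_lit 1)) .nil)))) .nil))))),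
 (.br (nat_lit 16) (nat_lit 0) (.cons (.ev (nat_lit 2041704627160159838658466664703498125831) (nat_lit 3)) .nil)),
 (.br (nat_lit 11) (nat_lit 0) (.cons (.br (nat_lit 14) (nat_lit 0) (.cons (.kr (nat_lit 5212579269352127557109536438354176) (nat_lit 1329228075322563415436515271235403776) (nat_lit 1) (nat_lit 0)) (.cons (.br (nat_lit 15) (nat_lit 0) (.cons (.ev (nat_lit 1334420372181098243136822990449213440) (nat_lit 1)) (.cons (.rf (nat_lit 809) (nat_lit 646192708113796405313)) .nil))) .nil))) (.cons (.br (nat_lit 14) (nat_lit 0) (.cons (.br (nat_lit 15) (nat_lit 0) (.cons (.ev (nat_lit 5389888096609887469180112193838386701) (nat_lit 4)) (.cons (.br (nat_lit 16) (nat_lit 0) (.cons (.br (nat_lit 16) (nat_lit 0) .nil) .nil)) .nil))) (.cons (.rf (nat_lit 810) (nat_lit 19926519232773908561233952)) (.cons (.br (nat_lit 15) (nat_lit 0) (.cons (.rf (nat_lit 811) (nat_lit 677582165103132179601393696)) (.cons (.br (nat_lit 15) (nat_lit 0) (.cons (.rf (nat_lit 811) (nat_lit 677582165103132179601393696)) .nil)) .nil))) .nil)))) .nil))),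
 (.br (nat_lit 14) (nat_lit 0) (.cons (.br (nat_lit 16) (nat_lit 0) (.cons (.ev (nat_lit 680575118435593996582150955098047512579) (nat_lit 2)) .nil)) .nil)),
 (.br (nat_lit 11) (nat_lit 0) (.cons (.rf (nat_lit 812) (nat_lit 583706118939841765935136)) (.cons (.br (nat_lit 15) (nat_lit 0) (.cons (.br (nat_lit 14) (nat_lit 0) (.cons (.ev (nat_lit 10384752794792036838788704141049857) (nat_lit 2)) (.cons (.br (nat_lit 16) (nat_lit 0) (.cons (.br (nat_lit 16) (nat_lit 0) .nil) .nil)) .nil))) (.cons (.kr (nat_lit 2658456150026156774336290411471962113) (nat_lit 618970056536741234822217728) (nat_lit 0) (nat_lit 1)) (.cons (.br (nat_lit 14) (nat_lit 0) (.cons (.rf (nat_lit 813) (nat_lit 677582165103132179601393696)) (.cons (.br (nat_lit 14) (nat_lit 0) (.cons (.rf (nat_lit 813) (nat_lit 677582165103132179601393696)) .nil)) .nil))) .nil)))) .nil))),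
 (.br (nat_lit 14) (nat_lit 0) (.cons (.br (nat_lit 15) (nat_lit 0) (.cons (.ev (nat_lit 680575118435593996582150955098047512579) (nat_lit 2)) (.cons (.ev (nat_lit 1334420372181098243136821886625841153) (nat_lit 1)) .nil))) (.cons (.ev (nat_lit 10384752794792036838788704141049857) (nat_lit 2)) .nil))),
 (.br (nat_lit 10) (nat_lit 0) (.cons (.rf (nat_lit 702) (nat_lit 333664465599864003)) (.cons (.ev (nat_lit 81446558327737177240026235667463) (nat_lit 3)) (.cons (.br (nat_lit 13) (nat_lit 0) (.cons (.br (nat_lit 11) (nat_lit 0) (.cons (.ev (nat_lit 40723896929684777897467922481667) (nat_lit 2)) (.cons (.br (nat_lit 14) (nat_lit 0) (.cons (.rf (nat_lit 807) (nat_lit 583706118939841765935136)) (.cons (.br (nat_lit 14) (nat_lit 0) (.cons (.rf (nat_lit 807) (nat_lit 583706118939841765935136)) (.cons (.br (nat_lit 15) (nat_lit 0) (.cons (.rf (nat_lit 808) (nat_lit 677582165103132179601393696)) (.cons (.rf (nat_lit 808) (nat_lit 640105464695078675185502240)) .nil))) .nil))) .nil))) .nil))) (.cons (.ev (nat_lit 20282410817299856802921047916801)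 (nat_lit 1)) (.cons (.br (nat_lit 11) (nat_lit 0) (.cons (.rf (nat_lit 812) (nat_lit 583706118939841765935136)) (.cons (.rf (nat_lit 814) (nat_lit 583706118939841765935136)) (.cons (.br (nat_lit 11) (nat_lit 0) (.cons (.rf (nat_lit 812) (nat_lit 583706118939841765935136)) (.cons (.rf (nat_lit 814) (nat_lit 583706118939841765935136)) (.cons (.br (nat_lit 16) (nat_lit 0) (.cons (.rf (nat_lit 815) (nat_lit 677582165103132179601393696)) (.cons (.br (nat_lit 16) (nat_lit 0) (.cons (.rf (nat_lit 815) (nat_lit 677582165103132179601393696)) (.cons (.ev (nat_lit 340282387282885714657577739589991268608) (nat_lit 1)) .nil))) (.cons (.rf (nat_lit 810) (nat_lit 21137806235629972558546976)) .nil)))) .nil)))) .nil)))) .nil)))) .nil)))),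
 (.br (nat_lit 14) (nat_lit 0) (.cons (.br (nat_lit 15) (nat_lit 0) (.cons (.ev (nat_lit 344285668442917399086319873244994207744) (nat_lit 2)) .nil)) .nil)),
 (.br (nat_lit 13) (nat_lit 0) (.cons (.kr (nat_lit 10425158536276958597909990984384513) (nat_lit 2427296516310185715696128) (nat_lit 0) (nat_lit 2)) (.cons (.kr (nat_lit 10425158536276958597909990984384513) (nat_lit 618970056536741234822217728) (nat_lit 0) (nat_lit 1)) (.cons (.br (nat_lit 15) (nat_lit 0) (.cons (.rf (nat_lit 817) (nat_lit 21174442659472880612543553)) (.cons (.br (nat_lit 15) (nat_lit 0) (.cons (.rf (nat_lit 817) (nat_lit 21174442659472880612543553)) .nil)) .nil))) .nil)))),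
 (.br (nat_lit 13) (nat_lit 0) (.cons (.kr (nat_lit 10384752173394683785737283569713153) (nat_lit 2427296516310185715696128) (nat_lit 0) (nat_lit 2)) (.cons (.br (nat_lit 14) (nat_lit 0) (.cons (.ev (nat_lit 5212658805786021831663758342095105) (nat_lit 1)) (.cons (.br (nat_lit 16) (nat_lit 0) (.cons (.br (nat_lit 16) (nat_lit 0) .nil) .nil)) .nil))) (.cons (.br (nat_lit 14) (nat_lit 0) (.cons (.ev (nat_lit 5212658805786021831663758342095105) (nat_lit 1)) (.cons (.ev (nat_lit 5212658497514641821448233788964865) (nat_lit 1)) (.cons (.br (nat_lit 15) (nat_lit 0) (.cons (.ev (nat_lit 683223230557343688357334726452019593731) (nat_lit 2)) (.cons (.br (nat_lit 16) (nat_lit 0) (.cons (.ev (nat_lit 683223230556722291004571031307540234243) (nat_lit 2)) .nil)) .nil))) .nil)))) (.cons (.br (nat_lit 14) (nat_lit 0) (.cons (.br (nat_lit 16) (nat_lit 0) (.cons (.br (nat_lit 16) (nat_lit 0) .nil) .nil)) (.cons (.br (nat_lit 15) (nat_lit 0) (.cons (.ev (nat_lit 683233574586241550709395617688238161921) (nat_lit 2)) (.cons (.br (nat_lit 16) (nat_lit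 0) (.cons (.ev (nat_lit 683233574585620153356342566267700511233) (nat_lit 2)) .nil)) .nil))) (.cons (.ev (nat_lit 5212658497514641821448233788964865) (nat_lit 1)) .nil)))) .nil))))),
 (.br (nat_lit 11) (nat_lit 0) (.cons (.rf (nat_lit 816) (nat_lit 493823368425290957888)) (.cons (.rf (nat_lit 816) (nat_lit 458082801782478701632)) (.cons (.kr (nat_lit 1213648258155092857848064) (nat_lit 309485028268370617411108864) (nat_lit 1) (nat_lit 0)) (.cons (.br (nat_lit 12) (nat_lit 0) (.cons (.kr (nat_lit 79228162514264337593543950336) (nat_lit 20282409603651670423947251286016) (nat_lit 12) (nat_lit 0)) (.cons (.rf (nat_lit 818) (nat_lit 19926519232773908561233952)) (.cons (.rf (nat_lit 819) (nat_lit 19926519232773908561233952)) (.cons (.rf (nat_lit 819) (nat_lit 18755372310085221257151552)) (.cons (.br (nat_lit 13) (nat_lit 0) (.cons (.rf (nat_lit 818) (nat_lit 19926483492207265748977696)) (.cons (.rf (nat_lit 819) (nat_lit 19926483492207265748977696)) (.cons (.rf (nat_lit 819) (nat_lit 18755336569518578444895296)) (.cons (.br (nat_lit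 14) (nat_lit 0) (.cons (.ev (nat_lit 5212658497514641821448233788964865) (nat_lit 1)) (.cons (.ev (nat_lit 5212658805786021831663758342095105) (nat_lit 1)) (.cons (.ev (nat_lit 174224582288837485895235070268381425827843) (nat_lit 2)) .nil)))) .nil))))) .nil)))))) .nil))))),
 (.br (nat_lit 15) (nat_lit 0) (.cons (.ev (nat_lit 1344865972205914883028582164431307522) (nat_lit 2)) .nil)),
 (.br (nat_lit 15) (nat_lit 0) (.cons (.ev (nat_lit 2722300758171491530351333439147595923459) (nat_lit 4)) (.cons (.ev (nat_lit 10675484513452566717575398481702813707) (nat_lit 4)) .nil))),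
 (.br (nat_lit 11) (nat_lit 0) (.cons (.br (nat_lit 11) (nat_lit 0) .nil) .nil)),
 (.br (nat_lit 14) (nat_lit 0) (.cons (.br (nat_lit 15) (nat_lit 0) (.cons (.ev (nat_lit 680575159158869528914020478179637985283) (nat_lit 2)) (.cons (.ev (nat_lit 1334440575362539380542908240333176833) (nat_lit 1)) .nil))) (.cons (.rf (nat_lit 823) (nat_lit 646192708113796405313)) (.cons (.br (nat_lit 16) (nat_lit 0) (.cons (.br (nat_lit 15) (nat_lit 0) (.cons (.ev (nat_lit 1334440575054268000389141581480853760) (nat_lit 1)) .nil)) (.cons (.ev (nat_lit 680575159158869528914020478179637985283) (nat_lit 2)) .nil))) .nil)))),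
 (.br (nat_lit 13) (nat_lit 0) (.cons (.br (nat_lit 15) (nat_lit 0) (.cons (.rf (nat_lit 821) (nat_lit 677582165103132179601393696)) (.cons (.rf (nat_lit 821) (nat_lit 640105464695078675185502240)) .nil))) (.cons (.br (nat_lit 14) (nat_lit 0) (.cons (.ev (nat_lit 10675484510986320413624932045700335627) (nat_lit 4)) (.cons (.rf (nat_lit 822) (nat_lit 677582165103132179601393696)) (.cons (.rf (nat_lit 822) (nat_lit 640105464695078675185502240)) .nil)))) (.cons (.rf (nat_lit 824) (nat_lit 677582165103132179601393696)) (.cons (.rf (nat_lit 824) (nat_lit 640105464695078675185502240)) .nil))))),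
 (.br (nat_lit 10) (nat_lit 0) (.cons (.rf (nat_lit 702) (nat_lit 333664465599864003)) (.cons (.rf (nat_lit 816) (nat_lit 493858305440582043680)) (.cons (.rf (nat_lit 816) (nat_lit 458117738797769787424)) (.cons (.br (nat_lit 10) (nat_lit 0) (.cons (.rf (nat_lit 702) (nat_lit 333664465599864003)) (.cons (.rf (nat_lit 816) (nat_lit 493858305440582043680)) (.cons (.rf (nat_lit 816) (nat_lit 458117738797769787424)) (.cons (.br (nat_lit 11) (nat_lit 0) (.cons (.rf (nat_lit 816) (nat_lit 493823368425290957888)) (.cons (.rf (nat_lit 816) (nat_lit 458082801782478701632)) (.cons (.rf (nat_lit 820) (nat_lit 583706118939841765935136)) (.cons (.rf (nat_lit 820) (nat_lit 547107778697602015528992)) (.cons (.br (nat_lit 11) (nat_lit 0) (.cons (.rf (nat_lit 816) (nat_lit 493823368425290957888)) (.cons (.rf (nat_lit 816) (nat_lit 458082801782478701632)) (.cons (.rf (nat_lit 820) (nat_lit 583706118939841765935136)) (.cons (.rf (nat_lit 820) (nat_lit 547107778697602015528992)) (.cons (.br (nat_lit 12) (nat_lit 0) (.cons (.kr (nat_lit 79228162514264337593543950336)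 (nat_lit 20282409603651670423947251286016) (nat_lit 12) (nat_lit 0)) (.cons (.rf (nat_lit 825) (nat_lit 677582165103132179601393696)) (.cons (.rf (nat_lit 825) (nat_lit 677545566762889939850987552)) (.cons (.rf (nat_lit 825) (nat_lit 597870980020596987925726272)) (.cons (.rf (nat_lit 825) (nat_lit 597834381680354748175320128)) .nil)))))) .nil)))))) .nil)))))) .nil))))) .nil))))),
 (.br (nat_lit 15) (nat_lit 0) (.cons (.br (nat_lit 16) (nat_lit 0) (.cons (.ev (nat_lit 1366446379983813430475898558481415929859) (nat_lit 3)) .nil)) .nil)),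
 (.br (nat_lit 11) (nat_lit 0) (.cons (.kr (nat_lit 159075295048171365328832430081) (nat_lit 10384593717069692150550239605948416) (nat_lit 0) (nat_lit 1)) (.cons (.br (nat_lit 13) (nat_lit 0) (.cons (.ev (nat_lit 5212579268147961142425537350795521) (nat_lit 2)) (.cons (.ev (nat_lit 81130878800831806892511022154759) (nat_lit 3)) (.cons (.br (nat_lit 14) (nat_lit 0) (.cons (.br (nat_lit 15) (nat_lit 0) (.cons (.ev (nat_lit 5337762617132130539306590252673926151) (nat_lit 3)) (.cons (.rf (nat_lit 809) (nat_lit 646191617396148765890)) .nil))) (.cons (.br (nat_lit 15) (nat_lit 0) (.cons (.ev (nat_lit 1361150236872428379389424852910718976003) (nat_lit 3)) (.cons (.br (nat_lit 15) (nat_lit 0) (.cons (.ev (nat_lit 1361150236872428379389424852910718976003) (nat_lit 3)) .nil)) .nil))) (.cons (.br (nat_lit 15) (nat_lit 0) (.cons (.rf (nat_lit 827) (nat_lit 677582165103132179601393696)) (.cons (.br (nat_lit 15) (nat_lit 0) (.cons (.rf (nat_lit 827) (nat_lit 677582165103132179601393696)) .nil)) .nil))) .nil)))) .nil)))) .nil))),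
 (.br (nat_lit 13) (nat_lit 0) (.cons (.br (nat_lit 15) (nat_lit 0) (.cons (.ev (nat_lit 1339673595187130956505838419454329600) (nat_lit 2)) (.cons (.rf (nat_lit 806) (nat_lit 646191617396148765890)) .nil))) .nil)),
 (.br (nat_lit 15) (nat_lit 0) (.cons (.ev (nat_lit 7985793609238553115641862474570924551) (nat_lit 3)) .nil)),
 (.br (nat_lit 11) (nat_lit 0) (.cons (.kr (nat_lit 159075295048171365328832430081) (nat_lit 10384593717069692150550239605948416) (nat_lit 0) (nat_lit 1)) (.cons (.br (nat_lit 13) (nat_lit 0) (.cons (.rf (nat_lit 829) (nat_lit 583706118939841765935136)) (.cons (.br (nat_lit 13) (nat_lit 0) (.cons (.rf (nat_lit 829) (nat_lit 583706118939841765935136)) (.cons (.br (nat_lit 15) (nat_lit 0) (.cons (.rf (nat_lit 830) (nat_lit 677582165103132179601393696)) (.cons (.rf (nat_lit 830) (nat_lit 640105464695078675185502240)) .nil))) .nil))) .nil))) .nil))),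
 (.br (nat_lit 15) (nat_lit 0) (.cons (.kr (nat_lit 2658456150026156774336290411471962113) (nat_lit 618970056536741234822217728) (nat_lit 0) (nat_lit 1)) (.cons (.br (nat_lit 16) (nat_lit 0) (.cons (.br (nat_lit 16) (nat_lit 0) .nil) .nil)) .nil))),
 (.br (nat_lit 13) (nat_lit 0) (.cons (.rf (nat_lit 832) (nat_lit 19926519232773908561233952)) (.cons (.rf (nat_lit 832) (nat_lit 18755372345022236548237344)) (.cons (.br (nat_lit 15) (nat_lit 0) (.cons (.br (nat_lit 15) (nat_lit 0) (.cons (.ev (nat_lit 5337762301452603633935116820373963779) (nat_lit 3)) .nil)) (.cons (.br (nat_lit 15) (nat_lit 0) (.cons (.ev (nat_lit 5337762301452603633935116820373963779) (nat_lit 3)) .nil)) .nil))) .nil)))),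
 (.br (nat_lit 15) (nat_lit 0) (.cons (.ev (nat_lit 5337681487493715932913124856933253127) (nat_lit 3)) (.cons (.kr (nat_lit 2658456150026156774336290411471962113) (nat_lit 618970056536741234822217728) (nat_lit 0) (nat_lit 1)) (.cons (.br (nat_lit 13) (nat_lit 0) (.cons (.rf (nat_lit 833) (nat_lit 19926519232773908561233952)) (.cons (.br (nat_lit 16) (nat_lit 0) (.cons (.ev (nat_lit 1361150237188107906294796326342884720647) (nat_lit 3)) (.cons (.ev (nat_lit 1366446379668133903570527085049250185223) (nat_lit 3)) .nil))) (.cons (.br (nat_lit 14) (nat_lit 0) (.cons (.br (nat_lit 16) (nat_lit 0) (.cons (.ev (nat_lit 681893982120692834359715589150698635520) (nat_lit 2)) .nil)) (.cons (.ev (nat_lit 174225901111957144147245851612735613174018) (nat_lit 2)) .nil))) .nil)))) .nil))))]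

theorem c30 : chkAll C T R L30 (nat_lit 809) = true := by decide +kernel

theorem l30 : (nat_lit 809) + L30.length = (nat_lit 835) := by decide +kernel

/-- part of the certificates -/
def L31 : List Prf := [(.br (nat_lit 12) (nat_lit 0) (.cons (.br (nat_lit 12) (nat_lit 0) .nil) .nil)),
 (.br (nat_lit 14) (nat_lit 0) (.cons (.br (nat_lit 15) (nat_lit 0) (.cons (.ev (nat_lit 1334420292954144636245636323523756033) (nat_lit 1)) .nil)) .nil)),
 (.br (nat_lit 14) (nat_lit 0) (.cons (.ev (nat_lit 10425158536276958597909991018070529) (nat_lit 2)) (.cons (.ev (nat_lit 5192296859748475886967068475523073) (nat_lit 1)) (.cons (.br (nat_lit 13) (nat_lit 0) (.cons (.br (nat_lit 15) (nat_lit 0) (.cons (.ev (nat_lit 8027332620412904448894003696051683847) (nat_lit 4)) (.cons (.rf (nat_lit 835) (nat_lit 646192708113796405313)) .nil))) (.cons (.br (nat_lit 15) (nat_lit 0) (.cons (.ev (nat_lit 680585543912288145526497535929098568199) (nat_lit 3)) (.cons (.br (nat_lit 15) (nat_lit 0) (.cons (.ev (nat_lit 680585543912288145526497535929098568199)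 (nat_lit 3)) .nil)) .nil))) (.cons (.br (nat_lit 15) (nat_lit 0) (.cons (.rf (nat_lit 836) (nat_lit 21174442659472880612509728)) (.cons (.br (nat_lit 15) (nat_lit 0) (.cons (.rf (nat_lit 836) (nat_lit 21174442659472880612509728)) .nil)) .nil))) .nil)))) .nil)))),
 (.br (nat_lit 12) (nat_lit 0) (.cons (.br (nat_lit 12) (nat_lit 0) .nil) .nil)),
 (.br (nat_lit 16) (nat_lit 0) (.cons (.ev (nat_lit 680564733842498314834925186469121229313) (nat_lit 2)) (.cons (.ev (nat_lit 683233614991983035631155301933658407427) (nat_lit 2)) (.cons (.ev (nat_lit 79537647542604765809287888896) (nat_lit 1)) (.cons (.ev (nat_lit 683223189833446758672701508225949761539) (nat_lit 2)) .nil))))),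
 (.br (nat_lit 14) (nat_lit 0) (.cons (.br (nat_lit 15) (nat_lit 0) (.cons (.ev (nat_lit 2658456150647554127389341832043298817) (nat_lit 2)) (.cons (.rf (nat_lit 838) (nat_lit 646192708113796405313)) .nil))) (.cons (.ev (nat_lit 5212658805786021831662654552277248) (nat_lit 1)) (.cons (.br (nat_lit 15) (nat_lit 0) (.cons (.br (nat_lit 15) (nat_lit 0) (.cons (.rf (nat_lit 839) (nat_lit 677582165103132179601393696)) .nil)) (.cons (.br (nat_lit 15) (nat_lit 0) (.cons (.rf (nat_lit 839) (nat_lit 677582165103132179601393696)) .nil)) .nil))) .nil)))),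
 (.br (nat_lit 14) (nat_lit 0) (.cons (.ev (nat_lit 10384752794792036838225762777694211) (nat_lit 2)) (.cons (.br (nat_lit 15) (nat_lit 0) (.cons (.ev (nat_lit 2658456150647554127389341832043298817) (nat_lit 2)) (.cons (.ev (nat_lit 1344845451798697678773781019068793347) (nat_lit 2)) .nil))) .nil))),
 (.br (nat_lit 14) (nat_lit 0) (.cons (.ev (nat_lit 10384752794792036838225762777694211) (nat_lit 2)) (.cons (.br (nat_lit 15) (nat_lit 0) (.cons (.br (nat_lit 15) (nat_lit 0) .nil) .nil)) .nil))),
 (.br (nat_lit 14) (nat_lit 0) (.cons (.ev (nat_lit 10384752794792036838225762777694211) (nat_lit 2)) (.cons (.br (nat_lit 15) (nat_lit 0) (.cons (.ev (nat_lit 2658456150647554127389341832043298817) (nat_lit 2)) (.cons (.ev (nat_lit 174224592673272749067232247181781302903299) (nat_lit 3)) .nil))) .nil))),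
 (.br (nat_lit 14) (nat_lit 0) (.cons (.ev (nat_lit 10384752794792036838225762777694211) (nat_lit 2)) (.cons (.br (nat_lit 16) (nat_lit 0) (.cons (.br (nat_lit 15) (nat_lit 0) (.cons (.zr (nat_lit 522673715590563336789913007238900439449600) (nat_lit 680585543752591434272555436938065084931) (nat_lit 16) (nat_lit 13)) .nil)) (.cons (.ev (nat_lit 680575118435593996582150392156684156929) (nat_lit 2)) .nil))) .nil))),
 (.br (nat_lit 11) (nat_lit 0) (.cons (.rf (nat_lit 837) (nat_lit 583706118939841765935136)) (.cons (.rf (nat_lit 837) (nat_lit 547107777606882114574372)) (.cons (.br (nat_lit 13) (nat_lit 0) (.cons (.rf (nat_lit 840) (nat_lit 19926519232773908561233952)) (.cons (.rf (nat_lit 840) (nat_lit 19889920891440948909873188)) (.cons (.br (nat_lit 14) (nat_lit 0) (.cons (.rf (nat_lit 841) (nat_lit 19926519232773908561233952)) (.cons (.rf (nat_lit 842) (nat_lit 19926519232773908561233952)) (.cons (.br (nat_lit 14) (nat_lit 0) (.cons (.rf (nat_lit 841) (nat_lit 19926519232773908561233952)) (.cons (.rf (nat_lit 842) (nat_lit 19926519232773908561233952))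 .nil))) .nil)))) (.cons (.br (nat_lit 14) (nat_lit 0) (.cons (.rf (nat_lit 843) (nat_lit 677582165103132179601393696)) (.cons (.rf (nat_lit 844) (nat_lit 677582165103132179601393696)) (.cons (.br (nat_lit 14) (nat_lit 0) (.cons (.rf (nat_lit 843) (nat_lit 677582165103132179601393696)) (.cons (.rf (nat_lit 844) (nat_lit 677582165103132179601393696)) .nil))) .nil)))) .nil))))) .nil)))),
 (.br (nat_lit 13) (nat_lit 0) (.cons (.kr (nat_lit 10384593719487506896291350519480321) (nat_lit 2658455991569841190540579864162861056) (nat_lit 0) (nat_lit 1)) (.cons (.br (nat_lit 15) (nat_lit 0) (.cons (.ev (nat_lit 1329248357732167067106658843021607168) (nat_lit 1)) (.cons (.rf (nat_lit 835) (nat_lit 610381244959112266946)) .nil))) .nil))),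
 (.br (nat_lit 13) (nat_lit 0) (.cons (.br (nat_lit 16) (nat_lit 0) (.cons (.ev (nat_lit 1363798348994173216572153590528222429699) (nat_lit 3)) .nil)) .nil)),
 (.br (nat_lit 15) (nat_lit 0) (.cons (.br (nat_lit 16) (nat_lit 0) (.cons (.ev (nat_lit 88137125929169223784302969241894230491394) (nat_lit 2)) .nil)) .nil)),
 (.br (nat_lit 15) (nat_lit 0) (.cons (.ev (nat_lit 5192296859748475886967068475523073) (nat_lit 1)) (.cons (.ev (nat_lit 2658456150647554127389341832043298817) (nat_lit 2)) (.cons (.ev (nat_lit 2658496556389039049149026077463544323) (nat_lit 2)) .nil)))),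
 (.br (nat_lit 13) (nat_lit 0) (.cons (.br (nat_lit 16) (nat_lit 0) (.cons (.ev (nat_lit 2658456150647554127389341832043298817) (nat_lit 2)) (.cons (.ev (nat_lit 340287559297334645833607904832618758145) (nat_lit 1)) .nil))) (.cons (.rf (nat_lit 849) (nat_lit 677582165103132179601393696)) .nil))),
 (.br (nat_lit 11) (nat_lit 0) (.cons (.rf (nat_lit 845) (nat_lit 583706118939841765935136)) (.cons (.br (nat_lit 14) (nat_lit 0) (.cons (.rf (nat_lit 846) (nat_lit 583706118939841765935136)) (.cons (.ev (nat_lit 5192296859748475886967068475523073) (nat_lit 1)) (.cons (.br (nat_lit 15) (nat_lit 0) (.cons (.rf (nat_lit 846) (nat_lit 547107777606882114574372)) (.cons (.kr (nat_lit 10384593719487506896291350519480321) (nat_lit 2658455991569841190540579864162861056) (nat_lit 0) (nat_lit 1)) (.cons (.br (nat_lit 13) (nat_lit 0) (.cons (.rf (nat_lit 847) (nat_lit 677582165103132179601393696)) (.cons (.rf (nat_lit 847) (nat_lit 640068866353745715534141476)) .nil))) .nil)))) .nil)))) (.cons (.br (nat_lit 14) (nat_lit 0) (.cons (.br (nat_lit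 13) (nat_lit 0) (.cons (.br (nat_lit 15) (nat_lit 0) (.cons (.ev (nat_lit 2658456150647554127389341832043298817) (nat_lit 2)) (.cons (.rf (nat_lit 838) (nat_lit 646191617398229145634)) .nil))) (.cons (.br (nat_lit 15) (nat_lit 0) (.cons (.ev (nat_lit 2041715011277886554764695821306587906563) (nat_lit 3)) (.cons (.br (nat_lit 15) (nat_lit 0) (.cons (.ev (nat_lit 680585543912288145526497535929098568199) (nat_lit 3)) .nil)) .nil))) (.cons (.br (nat_lit 15) (nat_lit 0) (.cons (.rf (nat_lit 848) (nat_lit 677582165103132179601393696)) (.cons (.br (nat_lit 15) (nat_lit 0) (.cons (.rf (nat_lit 848) (nat_lit 677582165103132179601393696)) .nil)) .nil))) .nil)))) (.cons (.ev (nat_lit 5192296859748475886967068475523073) (nat_lit 1)) (.cons (.br (nat_lit 13) (nat_lit 0) (.cons (.br (nat_lit 13) (nat_lit 0) (.cons (.kr (nat_lit 680564734000333251955277891154447695873) (nat_lit 618970056536741234822217728) (nat_lit 0) (nat_lit 1)) (.cons (.rf (nat_lit 849) (nat_lit 677582165103132179601393696)) .nil))) (.cons (.kr (nat_lit 680564734000333251955277891154447695873)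 (nat_lit 618970056536741234822217728) (nat_lit 0) (nat_lit 1)) (.cons (.br (nat_lit 13) (nat_lit 0) (.cons (.rf (nat_lit 849) (nat_lit 677582165103132179601393696)) (.cons (.kr (nat_lit 680564734000333251955277891154447695873) (nat_lit 618970056536741234822217728) (nat_lit 0) (nat_lit 1)) .nil))) .nil)))) (.cons (.br (nat_lit 13) (nat_lit 0) (.cons (.rf (nat_lit 850) (nat_lit 677582165103132179601393696)) (.cons (.br (nat_lit 13) (nat_lit 0) (.cons (.rf (nat_lit 850) (nat_lit 677582165103132179601393696)) (.cons (.ev (nat_lit 5212658805786021831662654552277248) (nat_lit 1)) .nil))) (.cons (.br (nat_lit 13) (nat_lit 0) (.cons (.rf (nat_lit 849) (nat_lit 677582165103132179601393696)) (.cons (.ev (nat_lit 5212658805786021831662654552277248) (nat_lit 1)) .nil))) .nil)))) .nil))))) .nil)))),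
 (.br (nat_lit 15) (nat_lit 0) (.cons (.kr (nat_lit 10384593719487506896291350519480321) (nat_lit 2658455991569841190540579864162861056) (nat_lit 0) (nat_lit 1)) (.cons (.br (nat_lit 16) (nat_lit 0) (.cons (.ev (nat_lit 1369136030164747019374281814871933977095) (nat_lit 3)) .nil)) .nil))),
 (.br (nat_lit 16) (nat_lit 0) (.cons (.ev (nat_lit 10425158536276958597909991018070529) (nat_lit 2)) (.cons (.br (nat_lit 15) (nat_lit 0) (.cons (.ev (nat_lit 685881686389838225092297371918233108999) (nat_lit 3)) (.cons (.ev (nat_lit 2047011154391747523561095945994889462275) (nat_lit 3)) .nil))) (.cons (.kr (nat_lit 680564734000333251955277891154447695873) (nat_lit 618970056536741234822217728) (nat_lit 0) (nat_lit 1)) .nil)))),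
 (.br (nat_lit 13) (nat_lit 0) (.cons (.br (nat_lit 14) (nat_lit 0) (.cons (.ev (nat_lit 10425158536276958597909991018070529) (nat_lit 2)) (.cons (.rf (nat_lit 852) (nat_lit 677582165103132179601393696)) (.cons (.rf (nat_lit 852) (nat_lit 640105464695078675185502240)) .nil)))) (.cons (.rf (nat_lit 853) (nat_lit 677582165103132179601393696)) (.cons (.rf (nat_lit 853) (nat_lit 640105464695078675185502240)) .nil)))),
 (.br (nat_lit 14) (nat_lit 0) (.cons (.br (nat_lit 15) (nat_lit 0) (.cons (.ev (nat_lit 4088747138476535893727050201286127521285) (nat_lit 4)) .nil)) (.cons (.ev (nat_lit 349810335624143051712023707506067756156429) (nat_lit 4)) .nil))),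
 (.br (nat_lit 13) (nat_lit 0) (.cons (.rf (nat_lit 854) (nat_lit 677582165103132179601393696)) (.cons (.rf (nat_lit 854) (nat_lit 677545566761799219950032932)) (.cons (.br (nat_lit 16) (nat_lit 0) (.cons (.rf (nat_lit 855) (nat_lit 677582165103132179601393696)) (.cons (.rf (nat_lit 855) (nat_lit 677545566761799219950032932)) (.cons (.kr (nat_lit 340282366920938463463374607431768211456) (nat_lit 87112285931760246646623899502532662132736) (nat_lit 16) (nat_lit 0)) .nil)))) .nil)))),
 (.br (nat_lit 10) (nat_lit 0) (.cons (.rf (nat_lit 702) (nat_lit 333664465599864003)) (.cons (.rf (nat_lit 826) (nat_lit 493857214720681089060)) (.cons (.br (nat_lit 11) (nat_lit 0) (.cons (.rf (nat_lit 828) (nat_lit 17022140995484340291616)) (.cons (.rf (nat_lit 831) (nat_lit 17022140995484340291616)) (.cons (.br (nat_lit 11) (nat_lit 0) (.cons (.rf (nat_lit 828) (nat_lit 17022140995484340291616)) (.cons (.rf (nat_lit 831) (nat_lit 17022140995484340291616)) (.cons (.br (nat_lit 13) (nat_lit 0) (.cons (.rf (nat_lit 833) (nat_lit 19926519232773908561233952))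 (.cons (.rf (nat_lit 834) (nat_lit 19926519232773908561233952)) (.cons (.rf (nat_lit 834) (nat_lit 18755372345022236548237344)) (.cons (.br (nat_lit 13) (nat_lit 0) (.cons (.rf (nat_lit 833) (nat_lit 19926519232773908561233952)) (.cons (.rf (nat_lit 834) (nat_lit 19926519232773908561233952)) (.cons (.rf (nat_lit 834) (nat_lit 18755372345022236548237344)) .nil)))) .nil))))) .nil)))) .nil)))) (.cons (.br (nat_lit 11) (nat_lit 0) (.cons (.rf (nat_lit 845) (nat_lit 583706118939841765935136)) (.cons (.rf (nat_lit 851) (nat_lit 583706118939841765935136)) (.cons (.rf (nat_lit 851) (nat_lit 547107777606882114574372)) (.cons (.br (nat_lit 11) (nat_lit 0) (.cons (.rf (nat_lit 845) (nat_lit 583706118939841765935136)) (.cons (.rf (nat_lit 851) (nat_lit 583706118939841765935136)) (.cons (.rf (nat_lit 851) (nat_lit 547107777606882114574372)) (.cons (.br (nat_lit 13) (nat_lit 0) (.cons (.rf (nat_lit 854) (nat_lit 677582165103132179601393696)) (.cons (.rf (nat_lit 854) (nat_lit 677545566761799219950032932)) (.cons (.rf (nat_lit 856) (nat_lit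 677582165103132179601393696)) (.cons (.rf (nat_lit 856) (nat_lit 640105464695078675185502240)) .nil))))) .nil))))) .nil))))) .nil))))),
 (.br (nat_lit 11) (nat_lit 0) (.cons (.rf (nat_lit 857) (nat_lit 15917533020052438128867)) (.cons (.br (nat_lit 14) (nat_lit 0) (.cons (.ev (nat_lit 10696416275226481681371400348090371589) (nat_lit 4)) (.cons (.ev (nat_lit 2722279826412203129093732126024381104645) (nat_lit 4)) (.cons (.br (nat_lit 15) (nat_lit 0) (.cons (.ev (nat_lit 2044352657517207875599493452574224679943) (nat_lit 3)) (.cons (.br (nat_lit 16) (nat_lit 0) (.cons (.ev (nat_lit 344270111834752611884628165630781096449) (nat_lit 2)) .nil)) .nil))) .nil)))) (.cons (.br (nat_lit 14) (nat_lit 0) (.cons (.br (nat_lit 16) (nat_lit 0) (.cons (.br (nat_lit 16) (nat_lit 0) .nil) .nil)) (.cons (.br (nat_lit 15) (nat_lit 0) (.cons (.ev (nat_lit 340287559297026374453453573024756334848) (nat_lit 1)) (.cons (.rf (nat_lit 523) (nat_lit 368057018587246860429302853)) .nil))) (.cons (.br (nat_lit 15) (nat_lit 0) (.cons (.br (nat_lit 16) (nat_lit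 0) (.cons (.ev (nat_lit 680564774407317531583142552341070348291) (nat_lit 2)) .nil)) (.cons (.ev (nat_lit 174227240704264857917030444844948662648835) (nat_lit 2)) .nil))) .nil)))) .nil)))),
 (.br (nat_lit 12) (nat_lit 0) (.cons (.br (nat_lit 12) (nat_lit 0) .nil) .nil))]

theorem c31 : chkAll C T R L31 (nat_lit 835) = true := by decide +kernel

theorem l31 : (nat_lit 835) + L31.length = (nat_lit 860) := by decide +kernel

/-- part of the certificates -/
def L32 : List Prf := [(.br (nat_lit 13) (nat_lit 0) (.cons (.ev (nat_lit 5212579268147961142425537350795521) (nat_lit 2)) (.cons (.br (nat_lit 14) (nat_lit 0) (.cons (.ev (nat_lit 5212658805786021831663758342095105) (nat_lit 1)) (.cons (.br (nat_lit 16) (nat_lit 0) (.cons (.br (nat_lit 16) (nat_lit 0) .nil) .nil)) .nil))) (.cons (.br (nat_lit 14) (nat_lit 0) (.cons (.ev (nat_lit 5212658805786021831663758342095105) (nat_lit 1)) (.cons (.ev (nat_lit 5212658497514641821448233788964865) (nat_lit 1)) (.cons (.br (nat_lit 15) (nat_lit 0) (.cons (.ev (nat_lit 683223230557343688357335289410562818561)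 (nat_lit 2)) (.cons (.br (nat_lit 16) (nat_lit 0) (.cons (.ev (nat_lit 683223230556722291004570468366176878593) (nat_lit 2)) .nil)) .nil))) .nil)))) (.cons (.br (nat_lit 14) (nat_lit 0) (.cons (.rf (nat_lit 859) (nat_lit 646192708113796405313)) (.cons (.br (nat_lit 15) (nat_lit 0) (.cons (.ev (nat_lit 683233574586241550709395054746874806275) (nat_lit 2)) (.cons (.br (nat_lit 16) (nat_lit 0) (.cons (.ev (nat_lit 683233574585620153356343129226243736067) (nat_lit 2)) .nil)) .nil))) (.cons (.ev (nat_lit 5212658497514641821448233788964865) (nat_lit 1)) .nil)))) .nil))))),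
 (.br (nat_lit 12) (nat_lit 0) (.cons (.br (nat_lit 12) (nat_lit 0) .nil) .nil)),
 (.br (nat_lit 11) (nat_lit 0) (.cons (.rf (nat_lit 826) (nat_lit 530713584419624590405)) (.cons (.rf (nat_lit 857) (nat_lit 17097006656280533671107)) (.cons (.kr (nat_lit 1213648258155092857848064) (nat_lit 309485028268370617411108864) (nat_lit 1) (nat_lit 0)) (.cons (.br (nat_lit 12) (nat_lit 0) (.cons (.kr (nat_lit 20361637766165934761545090203649) (nat_lit 36893769622395879424) (nat_lit 0) (nat_lit 1)) (.cons (.kr (nat_lit 5192376086697341892869189384798209) (nat_lit 9444805023333328355584) (nat_lit 0) (nat_lit 2)) (.cons (.rf (nat_lit 860) (nat_lit 19926519232773908561233952)) (.cons (.rf (nat_lit 860) (nat_lit 18754228611952651264951360)) (.cons (.br (nat_lit 13) (nat_lit 0) (.cons (.ev (nat_lit 5212579268147961142425537350795521) (nat_lit 2)) (.cons (.br (nat_lit 14) (nat_lit 0) (.cons (.rf (nat_lit 861) (nat_lit 646192708113796405313)) (.cons (.br (nat_lit 15) (nat_lit 0) (.cons (.ev (nat_lit 683233614992604432984207790395652833281) (nat_lit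 2)) (.cons (.br (nat_lit 16) (nat_lit 0) (.cons (.ev (nat_lit 683233614991983035631154738975115182593) (nat_lit 2)) .nil)) .nil))) (.cons (.ev (nat_lit 5212658497514641821448233788964865) (nat_lit 1)) .nil)))) (.cons (.br (nat_lit 14) (nat_lit 0) (.cons (.br (nat_lit 15) (nat_lit 0) (.cons (.ev (nat_lit 683233614992604432984207790395652833281) (nat_lit 2)) (.cons (.br (nat_lit 16) (nat_lit 0) (.cons (.ev (nat_lit 683233614991983035631154738975115182593) (nat_lit 2)) .nil)) .nil))) (.cons (.rf (nat_lit 861) (nat_lit 645074724657355234338)) (.cons (.ev (nat_lit 5212658805786021831663758342095105) (nat_lit 1)) .nil)))) (.cons (.br (nat_lit 14) (nat_lit 0) (.cons (.ev (nat_lit 5212658497514641821448233788964865) (nat_lit 1)) (.cons (.ev (nat_lit 5212658805786021831663758342095105) (nat_lit 1)) (.cons (.ev (nat_lit 174224582288837485895235070268381425827843) (nat_lit 2)) .nil)))) .nil))))) .nil)))))) .nil))))),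
 (.br (nat_lit 15) (nat_lit 0) (.cons (.ev (nat_lit 1344865972205914883028582164431307522) (nat_lit 2)) .nil)),
 (.br (nat_lit 11) (nat_lit 0) (.cons (.br (nat_lit 11) (nat_lit 0) .nil) .nil)),
 (.br (nat_lit 14) (nat_lit 0) (.cons (.br (nat_lit 15) (nat_lit 0) (.cons (.ev (nat_lit 680575159158869528914020478179637985283) (nat_lit 2)) (.cons (.ev (nat_lit 1334440575362539380542908240333176833) (nat_lit 1)) .nil))) (.cons (.rf (nat_lit 864) (nat_lit 646192708113796405313)) (.cons (.br (nat_lit 16) (nat_lit 0) (.cons (.br (nat_lit 15) (nat_lit 0) (.cons (.ev (nat_lit 1334440575054268000389141581480853760) (nat_lit 1)) .nil)) (.cons (.ev (nat_lit 680575159158869528914020478179637985283) (nat_lit 2)) .nil))) .nil)))),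
 (.br (nat_lit 13) (nat_lit 0) (.cons (.br (nat_lit 15) (nat_lit 0) (.cons (.rf (nat_lit 863) (nat_lit 677582165103132179601393696)) (.cons (.rf (nat_lit 863) (nat_lit 640105464695078675185502240)) .nil))) (.cons (.kr (nat_lit 158458742880167905544948940801) (nat_lit 40564819216748073813638104743936) (nat_lit 0) (nat_lit 1)) (.cons (.rf (nat_lit 865) (nat_lit 677582165103132179601393696)) (.cons (.rf (nat_lit 865) (nat_lit 640105464695078675185502240)) .nil))))),
 (.br (nat_lit 15) (nat_lit 0) (.cons (.ev (nat_lit 1362474374536764384734311596692191969282) (nat_lit 3)) (.cons (.br (nat_lit 16) (nat_lit 0) (.cons (.zr (nat_lit 2722258976408941093208647868941324255232) (nat_lit 16013043511721408407252745106304797699) (nat_lit 32) (nat_lit 6)) .nil)) .nil))),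
 (.br (nat_lit 14) (nat_lit 0) (.cons (.ev (nat_lit 5212658497514641821448233788964865) (nat_lit 1)) (.cons (.ev (nat_lit 683223230556722291004570468366176878593) (nat_lit 2)) (.cons (.br (nat_lit 15) (nat_lit 0) (.cons (.ev (nat_lit 1329268798909998590392489158788580099) (nat_lit 2)) (.cons (.ev (nat_lit 1334440575054268000389140477657481473) (nat_lit 1)) .nil))) .nil)))),
 (.br (nat_lit 14) (nat_lit 0) (.cons (.br (nat_lit 14) (nat_lit 0) (.cons (.ev (nat_lit 683223230556722291004570468366176878593) (nat_lit 2)) (.cons (.ev (nat_lit 1334440575362539380542908240333176833) (nat_lit 1)) .nil))) (.cons (.rf (nat_lit 868) (nat_lit 19926519232773908561233952)) (.cons (.br (nat_lit 14) (nat_lit 0) (.cons (.ev (nat_lit 1334440575362539380542908240333176833) (nat_lit 1)) (.cons (.rf (nat_lit 868) (nat_lit 19926519232773908561233952)) .nil))) .nil)))),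
 (.br (nat_lit 13) (nat_lit 0) (.cons (.br (nat_lit 14) (nat_lit 0) (.cons (.ev (nat_lit 26647233670589703392420846131138269209) (nat_lit 5)) (.cons (.rf (nat_lit 867) (nat_lit 677582165103132179601393696)) (.cons (.rf (nat_lit 867) (nat_lit 640105464695078675185502240)) .nil)))) (.cons (.rf (nat_lit 866) (nat_lit 677545531021232577137776676)) (.cons (.rf (nat_lit 869) (nat_lit 677582165103132179601393696)) (.cons (.rf (nat_lit 869) (nat_lit 640105464695078675185502240)) .nil))))),
 (.br (nat_lit 14) (nat_lit 0) (.cons (.br (nat_lit 15) (nat_lit 0) (.cons (.ev (nat_lit 4099339261174844812761774321471374626309) (nat_lit 4)) .nil)) (.cons (.ev (nat_lit 1045347493691672152202694391837564064108045) (nat_lit 4)) .nil))),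
 (.br (nat_lit 13) (nat_lit 0) (.cons (.rf (nat_lit 870) (nat_lit 677545531021232577137776676)) (.cons (.rf (nat_lit 866) (nat_lit 677545531021232577137776676)) (.cons (.br (nat_lit 14) (nat_lit 0) (.cons (.br (nat_lit 14) (nat_lit 0) (.cons (.ev (nat_lit 680575159159490926266784173324117344771) (nat_lit 2)) .nil)) (.cons (.br (nat_lit 14) (nat_lit 0) (.cons (.ev (nat_lit 680575159159490926266784173324117344771) (nat_lit 2)) .nil)) .nil))) (.cons (.br (nat_lit 14) (nat_lit 0) (.cons (.rf (nat_lit 871) (nat_lit 677582165103132179601393696)) (.cons (.br (nat_lit 14) (nat_lit 0) (.cons (.rf (nat_lit 871) (nat_lit 677582165103132179601393696)) (.cons (.ev (nat_lit 87452578744360434448259978427196229485057) (nat_lit 2)) .nil))) (.cons (.br (nat_lit 14) (nat_lit 0) (.cons (.ev (nat_lit 1045347493691672152202694391837564064108045) (nat_lit 4)) (.cons (.ev (nat_lit 87452578744360434448259978427196229485057) (nat_lit 2)) .nil))) .nil)))) .nil))))),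
 (.br (nat_lit 10) (nat_lit 0) (.cons (.rf (nat_lit 702) (nat_lit 333664465599864003)) (.cons (.rf (nat_lit 826) (nat_lit 493857214720681089060)) (.cons (.br (nat_lit 12) (nat_lit 0) (.cons (.rf (nat_lit 857) (nat_lit 15878407925899057005632)) (.cons (.ev (nat_lit 79229376162450716567340581121) (nat_lit 1)) (.cons (.ev (nat_lit 10384752173394683786300242146624003) (nat_lit 2)) (.cons (.br (nat_lit 13) (nat_lit 0) (.cons (.rf (nat_lit 857) (nat_lit 14698933198851170010308)) (.cons (.ev (nat_lit 10425158536276958597909991018070529) (nat_lit 2)) (.cons (.kr (nat_lit 158458742880167905544948940801) (nat_lit 40564819216748073813638104743936) (nat_lit 0) (nat_lit 1)) (.cons (.br (nat_lit 11) (nat_lit 0) (.cons (.br (nat_lit 11) (nat_lit 0) (.cons (.rf (nat_lit 857) (nat_lit 15917533020052438128867)) (.cons (.rf (nat_lit 857) (nat_lit 15954426508199857232099)) (.cons (.rf (nat_lit 857) (nat_lit 15991319996347276335331)) .nil)))) (.cons (.rf (nat_lit 858) (nat_lit 19926519232773908561233952)) (.cons (.rf (nat_lit 858) (nat_lit 18755336603364873835026468))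 (.cons (.br (nat_lit 11) (nat_lit 0) (.cons (.rf (nat_lit 857) (nat_lit 15991319996347276335331)) (.cons (.rf (nat_lit 858) (nat_lit 19926519232773908561233952)) (.cons (.rf (nat_lit 858) (nat_lit 18755336603364873835026468)) .nil)))) .nil))))) .nil))))) .nil))))) (.cons (.br (nat_lit 11) (nat_lit 0) (.cons (.rf (nat_lit 857) (nat_lit 15878407925899057005632)) (.cons (.rf (nat_lit 857) (nat_lit 14735826686998589113540)) (.cons (.rf (nat_lit 862) (nat_lit 583706118939841765935136)) (.cons (.rf (nat_lit 862) (nat_lit 547072037040239302318116)) (.cons (.br (nat_lit 11) (nat_lit 0) (.cons (.rf (nat_lit 857) (nat_lit 15878407925899057005632)) (.cons (.rf (nat_lit 857) (nat_lit 19458189897715356277955)) (.cons (.rf (nat_lit 862) (nat_lit 583706118939841765935136)) (.cons (.rf (nat_lit 862) (nat_lit 547072037040239302318116)) (.cons (.br (nat_lit 12) (nat_lit 0) (.cons (.kr (nat_lit 20361637766165934761545090203649) (nat_lit 36893769622395879424) (nat_lit 0) (nat_lit 1)) (.cons (.rf (nat_lit 866) (nat_lit 677582165103132179601393696))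 (.cons (.rf (nat_lit 870) (nat_lit 677582165103132179601393696)) (.cons (.rf (nat_lit 872) (nat_lit 677582165103132179601393696)) (.cons (.rf (nat_lit 872) (nat_lit 640105464695078675185502240)) .nil)))))) .nil)))))) .nil)))))) .nil))))),
 (.br (nat_lit 11) (nat_lit 0) (.cons (.ev (nat_lit 40723275532332013639382079766529) (nat_lit 2)) (.cons (.rf (nat_lit 826) (nat_lit 569876887741382270147)) (.cons (.br (nat_lit 15) (nat_lit 0) (.cons (.br (nat_lit 14) (nat_lit 0) (.cons (.ev (nat_lit 2720926606671071591095828842757489157) (nat_lit 4)) (.cons (.rf (nat_lit 861) (nat_lit 646121743432203601090)) .nil))) (.cons (.ev (nat_lit 2668840585286901401208791413708423169) (nat_lit 2)) (.cons (.kr (nat_lit 2658456150026156774336290411471962113) (nat_lit 618970056536741234822217728) (nat_lit 0) (nat_lit 1)) (.cons (.br (nat_lit 13) (nat_lit 0) (.cons (.br (nat_lit 16) (nat_lit 0) (.cons (.rf (nat_lit 739) (nat_lit 562770884332023927301833792)) .nil)) (.cons (.br (nat_lit 16) (nat_lit 0) (.cons (.ev (nat_lit 680575159159490926266784173324117344771)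 (nat_lit 2)) (.cons (.ev (nat_lit 341611615199134196636134935942414795008) (nat_lit 1)) .nil))) (.cons (.br (nat_lit 17) (nat_lit 0) (.cons (.ev (nat_lit 87112291124136334557613978469220883693825) (nat_lit 1)) (.cons (.ev (nat_lit 174227230319512684522346514993572216963587) (nat_lit 2)) .nil))) .nil)))) .nil))))) .nil)))),
 (.br (nat_lit 15) (nat_lit 0) (.cons (.ev (nat_lit 1344865972205914883028582164431307522) (nat_lit 2)) .nil)),
 (.br (nat_lit 15) (nat_lit 0) (.cons (.ev (nat_lit 680575159158869528914020478179637985283) (nat_lit 2)) (.cons (.br (nat_lit 16) (nat_lit 0) (.cons (.zr (nat_lit 2668840744983593765395046258563875328) (nat_lit 2041694282655269195386931029233770037249) (nat_lit 16) (nat_lit 7)) .nil)) .nil))),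
 (.br (nat_lit 14) (nat_lit 0) (.cons (.br (nat_lit 15) (nat_lit 0) (.cons (.ev (nat_lit 680585625040683765574935311825609556487) (nat_lit 3)) (.cons (.ev (nat_lit 1334440575362539380542908240333176833) (nat_lit 1)) .nil))) (.cons (.rf (nat_lit 864) (nat_lit 646191617398229145634)) (.cons (.br (nat_lit 16) (nat_lit 0) (.cons (.br (nat_lit 15) (nat_lit 0) (.cons (.ev (nat_lit 685902455577272364402812619820636439043) (nat_lit 3)) .nil)) (.cons (.ev (nat_lit 174224582288837485895235070268381425827843) (nat_lit 2)) .nil))) .nil)))),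
 (.br (nat_lit 11) (nat_lit 0) (.cons (.ev (nat_lit 40723275532332013639382079766529) (nat_lit 2)) (.cons (.rf (nat_lit 873) (nat_lit 15878407925899057005632)) (.cons (.rf (nat_lit 874) (nat_lit 583706118939841765935136)) (.cons (.br (nat_lit 11) (nat_lit 0) (.cons (.ev (nat_lit 40723275532332013639382079766529) (nat_lit 2)) (.cons (.rf (nat_lit 857) (nat_lit 18315609749634679838947)) (.cons (.rf (nat_lit 874) (nat_lit 583706118939841765935136)) (.cons (.br (nat_lit 13) (nat_lit 0) (.cons (.br (nat_lit 15) (nat_lit 0) (.cons (.rf (nat_lit 875) (nat_lit 677582165103132179601393696)) (.cons (.rf (nat_lit 875) (nat_lit 640105464695078675185502240)) .nil))) (.cons (.br (nat_lit 14) (nat_lit 0) (.cons (.ev (nat_lit 1334440575054268000389140477657481473) (nat_lit 1)) (.cons (.rf (nat_lit 876) (nat_lit 677582165103132179601393696)) (.cons (.rf (nat_lit 876) (nat_lit 640105464695078675185502240)) .nil)))) (.cons (.rf (nat_lit 877) (nat_lit 677582165103132179601393696)) (.cons (.rf (nat_lit 877) (nat_lit 640105464695078675185502240))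 .nil))))) .nil))))) .nil))))),
 (.br (nat_lit 14) (nat_lit 0) (.cons (.ev (nat_lit 2668840585286901401208791413708423169) (nat_lit 2)) (.cons (.ev (nat_lit 680575159158869528914020478179637985283) (nat_lit 2)) (.cons (.br (nat_lit 15) (nat_lit 0) (.cons (.ev (nat_lit 4091363933763716603604228891209831940101) (nat_lit 4)) (.cons (.ev (nat_lit 7985793608925464921820252434545705729) (nat_lit 3)) .nil))) .nil)))),
 (.br (nat_lit 14) (nat_lit 0) (.cons (.rf (nat_lit 861) (nat_lit 610451050755416889378)) (.cons (.br (nat_lit 15) (nat_lit 0) (.cons (.ev (nat_lit 685912881052726127047813557265931436033) (nat_lit 3)) (.cons (.br (nat_lit 16) (nat_lit 0) (.cons (.ev (nat_lit 685892030736270115890927526816841335301) (nat_lit 3)) .nil)) .nil))) (.cons (.br (nat_lit 15) (nat_lit 0) (.cons (.rf (nat_lit 839) (nat_lit 407955108987948020223088676)) (.cons (.ev (nat_lit 174227240744671220799305257580597440675841) (nat_lit 2)) .nil))) .nil)))),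
 (.br (nat_lit 14) (nat_lit 0) (.cons (.br (nat_lit 15) (nat_lit 0) (.cons (.ev (nat_lit 685881686389838225092297371918233108999) (nat_lit 3)) (.cons (.br (nat_lit 16) (nat_lit 0) (.cons (.ev (nat_lit 685902536707527321769224264465669948419) (nat_lit 3)) .nil)) .nil))) (.cons (.ev (nat_lit 680575159158869528914020478179637985283) (nat_lit 2)) (.cons (.rf (nat_lit 880) (nat_lit 600285326778452241460331584)) .nil))))]

theorem c32 : chkAll C T R L32 (nat_lit 860) = true := by decide +kernel

theorem l32 : (nat_lit 860) + L32.length = (nat_lit 882) := by decide +kernel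

/-- part of the certificates -/
def L33 : List Prf := [(.br (nat_lit 11) (nat_lit 0) (.cons (.rf (nat_lit 857) (nat_lit 18204929285192422529251)) (.cons (.br (nat_lit 13) (nat_lit 0) (.cons (.ev (nat_lit 5212579268147961142425537350795521) (nat_lit 2)) (.cons (.ev (nat_lit 2658496556389039049149026077463544323) (nat_lit 2)) (.cons (.rf (nat_lit 879) (nat_lit 19926519232773908561233952)) (.cons (.br (nat_lit 14) (nat_lit 0) (.cons (.ev (nat_lit 2668840585286901401208791413708423169) (nat_lit 2)) (.cons (.rf (nat_lit 879) (nat_lit 19925375499704323277947968)) (.cons (.ev (nat_lit 31194346288378019364979735242670342) (nat_lit 3)) .nil)))) .nil))))) (.cons (.ev (nat_lit 79537647542604484330016276481) (nat_lit 1)) (.cons (.br (nat_lit 13) (nat_lit 0) (.cons (.ev (nat_lit 5212579268147961142425537350795521) (nat_lit 2)) (.cons (.rf (nat_lit 880) (nat_lit 677582165103132179601393696)) (.cons (.rf (nat_lit 881) (nat_lit 677582165103132179601393696)) (.cons (.br (nat_lit 14) (nat_lit 0) (.cons (.br (nat_lit 15) (nat_lit 0) (.cons (.br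 (nat_lit 16) (nat_lit 0) (.cons (.ev (nat_lit 680564734000954649308330942575019032577) (nat_lit 2)) .nil)) (.cons (.ev (nat_lit 174227240744671220799305257580597440675841) (nat_lit 2)) .nil))) (.cons (.rf (nat_lit 881) (nat_lit 600285326778452241460331584)) (.cons (.rf (nat_lit 861) (nat_lit 608218356022522354753)) .nil)))) .nil))))) .nil))))),
 (.br (nat_lit 15) (nat_lit 0) (.cons (.kr (nat_lit 2658456150026156774336290411471962113) (nat_lit 618970056536741234822217728) (nat_lit 0) (nat_lit 1)) (.cons (.ev (nat_lit 2668840585286901401208791413708423169) (nat_lit 2)) (.cons (.rf (nat_lit 878) (nat_lit 470483353405907815897315)) (.cons (.br (nat_lit 14) (nat_lit 0) (.cons (.br (nat_lit 13) (nat_lit 0) (.cons (.ev (nat_lit 680575159159490926266784173324117344771) (nat_lit 2)) (.cons (.br (nat_lit 16) (nat_lit 0) (.cons (.ev (nat_lit 680575159158869528914020478179637985283) (nat_lit 2)) .nil)) .nil))) (.cons (.rf (nat_lit 859) (nat_lit 642767793062945004614)) (.cons (.br (nat_lit 17) (nat_lit 0) (.cons (.ev (nat_lit 87112291124136642828994132799933512679425)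 (nat_lit 1)) (.cons (.ev (nat_lit 87112291124136334557613978469220883693825) (nat_lit 1)) .nil))) .nil)))) .nil))))),
 (.br (nat_lit 13) (nat_lit 0) (.cons (.zr (nat_lit 2720764346156292671632588633259638803) (nat_lit 1361129629943030711401209337310675468800) (nat_lit 32) (nat_lit 1)) (.cons (.br (nat_lit 16) (nat_lit 0) (.cons (.zr (nat_lit 13292442376820281418202529150045257739) (nat_lit 4083450710613566397344685690716361330176) (nat_lit 32) (nat_lit 2)) .nil)) .nil))),
 (.br (nat_lit 14) (nat_lit 0) (.cons (.zr (nat_lit 2720764346156292671632588633259638803) (nat_lit 1361129629943030711401209337310675468800) (nat_lit 32) (nat_lit 1)) (.cons (.rf (nat_lit 884) (nat_lit 522726474320413858708068579)) .nil))),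
 (.br (nat_lit 11) (nat_lit 0) (.cons (.rf (nat_lit 882) (nat_lit 19926519232773908561233952)) (.cons (.rf (nat_lit 826) (nat_lit 569876887741382270147)) (.cons (.rf (nat_lit 883) (nat_lit 19926519232773908561233952)) (.cons (.br (nat_lit 15) (nat_lit 0) (.cons (.rf (nat_lit 883) (nat_lit 16186555901884234506180835)) (.cons (.ev (nat_lit 2668840585286901401208791413708423169) (nat_lit 2)) (.cons (.br (nat_lit 13) (nat_lit 0) (.cons (.rf (nat_lit 884) (nat_lit 677582165103132179601393696)) (.cons (.rf (nat_lit 885) (nat_lit 677582165103132179601393696)) (.cons (.br (nat_lit 13) (nat_lit 0) (.cons (.rf (nat_lit 884) (nat_lit 677582165103132179601393696)) (.cons (.rf (nat_lit 885) (nat_lit 677582165103132179601393696)) .nil))) .nil)))) (.cons (.rf (nat_lit 878) (nat_lit 470520246894055235000547)) .nil))))) .nil))))),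
 (.br (nat_lit 13) (nat_lit 0) (.cons (.br (nat_lit 15) (nat_lit 0) (.cons (.ev (nat_lit 680575159158869528914020478179637985283) (nat_lit 2)) (.cons (.ev (nat_lit 2689731627491916635561622299480425991) (nat_lit 3)) .nil))) (.cons (.br (nat_lit 15) (nat_lit 0) (.cons (.br (nat_lit 15) (nat_lit 0) .nil) .nil)) (.cons (.br (nat_lit 16) (nat_lit 0) (.cons (.br (nat_lit 15) (nat_lit 0) (.cons (.ev (nat_lit 1390424528413766539386971212643301984267) (nat_lit 5)) .nil)) (.cons (.ev (nat_lit 680575159158869528914020478179637985283) (nat_lit 2)) .nil))) .nil)))),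
 (.br (nat_lit 13) (nat_lit 0) (.cons (.rf (nat_lit 887) (nat_lit 677582165103132179601393696)) (.cons (.br (nat_lit 14) (nat_lit 0) (.cons (.ev (nat_lit 341616827857629293426461831952093675778) (nat_lit 2)) (.cons (.ev (nat_lit 2041715011596041999379995965656171414023) (nat_lit 3)) .nil))) (.cons (.br (nat_lit 16) (nat_lit 0) (.cons (.ev (nat_lit 680575159159490926266784173324117344771) (nat_lit 2)) (.cons (.ev (nat_lit 685881687344916247400333520823810525195) (nat_lit 4)) (.cons (.ev (nat_lit 87112285952121885626438092701740803555328) (nat_lit 1)) .nil)))) .nil)))),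
 (.br (nat_lit 13) (nat_lit 0) (.cons (.rf (nat_lit 887) (nat_lit 677582165103132179601393696)) (.cons (.rf (nat_lit 888) (nat_lit 677582165103132179601393696)) (.cons (.br (nat_lit 17) (nat_lit 0) (.cons (.ev (nat_lit 174905146982114543614858334520171007312387) (nat_lit 2)) (.cons (.ev (nat_lit 87112285952121885626438092701740803555328) (nat_lit 1)) .nil))) .nil)))),
 (.br (nat_lit 11) (nat_lit 0) (.cons (.ev (nat_lit 79537647542604484330016276481) (nat_lit 1)) (.cons (.rf (nat_lit 857) (nat_lit 18315609749634679838947)) (.cons (.rf (nat_lit 886) (nat_lit 19926519232773908561233952)) (.cons (.br (nat_lit 13) (nat_lit 0) (.cons (.rf (nat_lit 887) (nat_lit 677582165103132179601393696)) (.cons (.rf (nat_lit 888) (nat_lit 677582165103132179601393696)) (.cons (.rf (nat_lit 889) (nat_lit 677582165103132179601393696)) (.cons (.br (nat_lit 13) (nat_lit 0) (.cons (.rf (nat_lit 887) (nat_lit 677582165103132179601393696)) (.cons (.rf (nat_lit 888) (nat_lit 677582165103132179601393696)) (.cons (.rf (nat_lit 889) (nat_lit 677582165103132179601393696))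 .nil)))) .nil))))) .nil))))),
 (.br (nat_lit 10) (nat_lit 0) (.cons (.rf (nat_lit 702) (nat_lit 333664465599864003)) (.cons (.rf (nat_lit 857) (nat_lit 17022140995484340291616)) (.cons (.rf (nat_lit 873) (nat_lit 17022140995484340291616)) (.cons (.br (nat_lit 12) (nat_lit 0) (.cons (.rf (nat_lit 857) (nat_lit 15878407925899057005632)) (.cons (.rf (nat_lit 878) (nat_lit 583706118939841765935136)) (.cons (.ev (nat_lit 10384752173394683786300242146624003) (nat_lit 2)) (.cons (.ev (nat_lit 79229376162450716567340581121) (nat_lit 1)) (.cons (.br (nat_lit 11) (nat_lit 0) (.cons (.rf (nat_lit 882) (nat_lit 19926519232773908561233952)) (.cons (.rf (nat_lit 873) (nat_lit 15878407925899057005632)) (.cons (.rf (nat_lit 886) (nat_lit 19926519232773908561233952)) (.cons (.rf (nat_lit 890) (nat_lit 19926519232773908561233952)) (.cons (.br (nat_lit 11) (nat_lit 0) (.cons (.rf (nat_lit 882) (nat_lit 19926519232773908561233952)) (.cons (.rf (nat_lit 857) (nat_lit 18352503237782098942179)) (.cons (.rf (nat_lit 886) (nat_lit 19926519232773908561233952))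 (.cons (.rf (nat_lit 890) (nat_lit 19926519232773908561233952)) .nil))))) .nil)))))) .nil)))))) .nil))))),
 (.br (nat_lit 12) (nat_lit 0) (.cons (.br (nat_lit 12) (nat_lit 0) .nil) .nil)),
 (.br (nat_lit 10) (nat_lit 0) (.cons (.br (nat_lit 10) (nat_lit 0) .nil) .nil)),
 (.br (nat_lit 15) (nat_lit 0) (.cons (.br (nat_lit 14) (nat_lit 0) (.cons (.br (nat_lit 14) (nat_lit 0) (.cons (.ev (nat_lit 2668881309183831085842572581141611011) (nat_lit 2)) .nil)) (.cons (.br (nat_lit 14) (nat_lit 0) (.cons (.ev (nat_lit 2668881309183831085842572581141611011) (nat_lit 2)) .nil)) .nil))) (.cons (.br (nat_lit 13) (nat_lit 0) (.cons (.rf (nat_lit 892) (nat_lit 646192708113796405313)) (.cons (.br (nat_lit 14) (nat_lit 0) (.cons (.ev (nat_lit 2668881308562433733078877436662251523) (nat_lit 2)) (.cons (.rf (nat_lit 739) (nat_lit 636553138260379264120620096)) .nil))) (.cons (.br (nat_lit 17) (nat_lit 0) (.cons (.ev (nat_lit 2668881308562433733078877436662251523) (nat_lit 2)) (.cons (.ev (nat_lit 87113615180038442379796659831043308716288) (nat_lit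 1)) .nil))) .nil)))) (.cons (.br (nat_lit 13) (nat_lit 0) (.cons (.br (nat_lit 16) (nat_lit 0) (.cons (.ev (nat_lit 683223230556722291004570468366176878593) (nat_lit 2)) (.cons (.rf (nat_lit 739) (nat_lit 561599737444272255288837184)) .nil))) (.cons (.rf (nat_lit 893) (nat_lit 646192708113796405313)) (.cons (.br (nat_lit 17) (nat_lit 0) (.cons (.ev (nat_lit 87113615180038442379796659831043308716288) (nat_lit 1)) (.cons (.ev (nat_lit 683223230556722291004570468366176878593) (nat_lit 2)) .nil))) .nil)))) (.cons (.kr (nat_lit 2658456150026156774336290411471962113) (nat_lit 618970056536741234822217728) (nat_lit 0) (nat_lit 1)) .nil))))),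
 (.br (nat_lit 13) (nat_lit 0) (.cons (.br (nat_lit 14) (nat_lit 0) (.cons (.ev (nat_lit 10425158536276958597909991018070529) (nat_lit 2)) (.cons (.ev (nat_lit 1339653392627068245648987192903795457) (nat_lit 2)) .nil))) (.cons (.br (nat_lit 14) (nat_lit 0) (.cons (.ev (nat_lit 1339653392627068245648987192903795457) (nat_lit 2)) (.cons (.ev (nat_lit 10425158536276958597909991018070529) (nat_lit 2)) .nil))) .nil))),
 (.br (nat_lit 13) (nat_lit 0) (.cons (.rf (nat_lit 895) (nat_lit 677582165103132179601393696)) (.cons (.br (nat_lit 14) (nat_lit 0) (.cons (.ev (nat_lit 681894002800483636844580299305417770245) (nat_lit 3)) (.cons (.ev (nat_lit 87112285952121885626438092701740803555328) (nat_lit 1)) .nil))) .nil))),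
 (.br (nat_lit 10) (nat_lit 0) (.cons (.br (nat_lit 10) (nat_lit 0) .nil) .nil)),
 (.br (nat_lit 15) (nat_lit 0) (.cons (.br (nat_lit 13) (nat_lit 0) (.cons (.br (nat_lit 14) (nat_lit 0) (.cons (.ev (nat_lit 683223230556722291004570468366176878593) (nat_lit 2)) (.cons (.br (nat_lit 16) (nat_lit 0) (.cons (.ev (nat_lit 341616787213583127812165382655723962368) (nat_lit 1)) .nil)) .nil))) (.cons (.rf (nat_lit 897) (nat_lit 646192708113796405313)) (.cons (.br (nat_lit 17) (nat_lit 0) (.cons (.ev (nat_lit 87112285952121885626438092700645603672065) (nat_lit 1)) (.cons (.ev (nat_lit 683223230556722291004570468366176878593) (nat_lit 2)) .nil))) .nil)))) (.cons (.kr (nat_lit 2658456150026156774336290411471962113) (nat_lit 2427296516310185715696128) (nat_lit 0) (nat_lit 2)) (.cons (.rf (nat_lit 894) (nat_lit 557788828005549124880440515)) (.cons (.rf (nat_lit 894) (nat_lit 520310983864426035181263075)) .nil))))),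
 (.br (nat_lit 11) (nat_lit 0) (.cons (.rf (nat_lit 857) (nat_lit 15878407925899057005632)) (.cons (.rf (nat_lit 891) (nat_lit 15878407925899057005632)) (.cons (.rf (nat_lit 873) (nat_lit 15878407925899057005632)) (.cons (.rf (nat_lit 826) (nat_lit 607923297393408220355)) (.cons (.br (nat_lit 12) (nat_lit 0) (.cons (.rf (nat_lit 894) (nat_lit 677582165103132179601393696)) (.cons (.rf (nat_lit 894) (nat_lit 640104320962009089902216256)) (.cons (.br (nat_lit 13) (nat_lit 0) (.cons (.rf (nat_lit 895) (nat_lit 677582165103132179601393696)) (.cons (.rf (nat_lit 896) (nat_lit 677582165103132179601393696)) (.cons (.br (nat_lit 13) (nat_lit 0) (.cons (.rf (nat_lit 895) (nat_lit 677582165103132179601393696)) (.cons (.rf (nat_lit 896) (nat_lit 677582165103132179601393696)) .nil))) .nil)))) (.cons (.rf (nat_lit 898) (nat_lit 677582165103132179601393696)) (.cons (.rf (nat_lit 898) (nat_lit 640104320962009089902216256)) .nil)))))) .nil)))))),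
 (.br (nat_lit 9) (nat_lit 0) (.cons (.rf (nat_lit 805) (nat_lit 372964453560452160)) (.cons (.rf (nat_lit 702) (nat_lit 369692300474981445)) (.cons (.rf (nat_lit 826) (nat_lit 493858305440582043680)) (.cons (.br (nat_lit 10) (nat_lit 0) (.cons (.rf (nat_lit 702) (nat_lit 333664465599864003)) (.cons (.rf (nat_lit 857) (nat_lit 17022140995484340291616)) (.cons (.rf (nat_lit 873) (nat_lit 17022140995484340291616)) (.cons (.rf (nat_lit 891) (nat_lit 17022140995484340291616)) (.cons (.br (nat_lit 10) (nat_lit 0) (.cons (.rf (nat_lit 702) (nat_lit 333664465599864003)) (.cons (.rf (nat_lit 857) (nat_lit 17022140995484340291616)) (.cons (.rf (nat_lit 873) (nat_lit 17022140995484340291616)) (.cons (.rf (nat_lit 891) (nat_lit 17022140995484340291616)) (.cons (.br (nat_lit 11) (nat_lit 0) (.cons (.rf (nat_lit 857) (nat_lit 15878407925899057005632)) (.cons (.rf (nat_lit 891) (nat_lit 15878407925899057005632)) (.cons (.rf (nat_lit 873) (nat_lit 15878407925899057005632)) (.cons (.rf (nat_lit 899) (nat_lit 19926519232773908561233952)) (.cons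 (.rf (nat_lit 899) (nat_lit 18755372345022236548237344)) (.cons (.br (nat_lit 11) (nat_lit 0) (.cons (.rf (nat_lit 857) (nat_lit 15878407925899057005632)) (.cons (.rf (nat_lit 891) (nat_lit 15878407925899057005632)) (.cons (.rf (nat_lit 873) (nat_lit 15878407925899057005632)) (.cons (.rf (nat_lit 899) (nat_lit 19926519232773908561233952)) (.cons (.rf (nat_lit 899) (nat_lit 18755372345022236548237344)) .nil)))))) .nil))))))) .nil)))))) .nil)))))) .nil))))),
 (.br (nat_lit 15) (nat_lit 0) (.cons (.ev (nat_lit 5337681172430731787560956556787058183) (nat_lit 3)) (.cons (.ev (nat_lit 13344325096588756120853418059487316740) (nat_lit 4)) .nil))),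
 (.br (nat_lit 13) (nat_lit 0) (.cons (.ev (nat_lit 2663648367656538569543390362840793347) (nat_lit 2)) (.cons (.br (nat_lit 16) (nat_lit 0) (.cons (.ev (nat_lit 2663648368277916959055303633807672067) (nat_lit 2)) (.cons (.ev (nat_lit 680575240605427856577265499727819179009) (nat_lit 3)) .nil))) .nil))),
 (.br (nat_lit 13) (nat_lit 0) (.cons (.ev (nat_lit 2663648367656538569543390362840793347) (nat_lit 2)) (.cons (.rf (nat_lit 902) (nat_lit 19926519232773908561233952)) (.cons (.br (nat_lit 13) (nat_lit 0) (.cons (.ev (nat_lit 2663648367656538569543390362840793347) (nat_lit 2)) (.cons (.rf (nat_lit 902) (nat_lit 19926519232773908561233952)) .nil))) .nil))))]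

theorem c33 : chkAll C T R L33 (nat_lit 882) = true := by decide +kernel

theorem l33 : (nat_lit 882) + L33.length = (nat_lit 904) := by decide +kernel

/-- part of the certificates -/
def L34 : List Prf := [(.br (nat_lit 13) (nat_lit 0) (.cons (.br (nat_lit 16) (nat_lit 0) (.cons (.br (nat_lit 16) (nat_lit 0) .nil) .nil)) (.cons (.br (nat_lit 16) (nat_lit 0) (.cons (.ev (nat_lit 2044425552501648964583747799474315461647) (nat_lit 4)) (.cons (.ev (nat_lit 1361150318317746320901190917655711843331) (nat_lit 3)) .nil))) (.cons (.br (nat_lit 17) (nat_lit 0) (.cons (.ev (nat_lit 348454460639024133513060652558151911080963) (nat_lit 3)) (.cons (.ev (nat_lit 87112296356998940764274485361158069092866) (nat_lit 2)) .nil))) .nil)))),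
 (.br (nat_lit 11) (nat_lit 0) (.cons (.br (nat_lit 12) (nat_lit 0) (.cons (.ev (nat_lit 316919913130783774630494994439) (nat_lit 3)) (.cons (.ev (nat_lit 5192535472700511396063941624856577) (nat_lit 2)) (.cons (.ev (nat_lit 1329228234399081556671340505575981057) (nat_lit 2)) (.cons (.br (nat_lit 13) (nat_lit 0) (.cons (.ev (nat_lit 5253145017023923614323002746863617) (nat_lit 2)) (.cons (.ev (nat_lit 1329288843943404968889599566697988097) (nat_lit 2)) (.cons (.ev (nat_lit 81446558327737177240026235667463) (nat_lit 3)) (.cons (.br (nat_lit 14) (nat_lit 0) (.cons (.ev (nat_lit 20769189291068295946854232752129539) (nat_lit 3)) (.cons (.rf (nat_lit 901) (nat_lit 677582165103132179601393696)) (.cons (.rf (nat_lit 901) (nat_lit 640105428954512032373245984)) .nil)))) .nil))))) .nil))))) (.cons (.rf (nat_lit 900) (nat_lit 569876887741382270147)) (.cons (.rf (nat_lit 900) (nat_lit 534136321098570013891)) (.cons (.br (nat_lit 12) (nat_lit 0) (.cons (.ev (nat_lit 316919913130783774630494994439) (nat_lit 3)) (.cons (.rf (nat_lit 903) (nat_lit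 19926519232773908561233952)) (.cons (.rf (nat_lit 903) (nat_lit 19889920892531668810827808)) (.cons (.ev (nat_lit 318153036282182547096192812039) (nat_lit 3)) (.cons (.br (nat_lit 14) (nat_lit 0) (.cons (.rf (nat_lit 904) (nat_lit 677582165103132179601393696)) (.cons (.kr (nat_lit 5192296858534827628530496329220096) (nat_lit 1329227995784915872903807060280344576) (nat_lit 14) (nat_lit 0)) (.cons (.rf (nat_lit 904) (nat_lit 673955498215578715791825123)) (.cons (.br (nat_lit 13) (nat_lit 0) (.cons (.rf (nat_lit 904) (nat_lit 677545566762889939850987552)) (.cons (.br (nat_lit 13) (nat_lit 0) (.cons (.rf (nat_lit 904) (nat_lit 677545566762889939850987552)) (.cons (.ev (nat_lit 348449164496228427988879551451896106583043) (nat_lit 3)) .nil))) (.cons (.ev (nat_lit 348449164496228427988879551451896106583043) (nat_lit 3)) .nil)))) .nil))))) .nil)))))) .nil))))),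
 (.br (nat_lit 16) (nat_lit 0) (.cons (.ev (nat_lit 341616827857629293426461831952093675778) (nat_lit 2)) (.cons (.ev (nat_lit 1361150237189341029446193972891496088579) (nat_lit 3)) .nil))),
 (.br (nat_lit 13) (nat_lit 0) (.cons (.ev (nat_lit 1334481220653898662829410677581743875) (nat_lit 3)) .nil)),
 (.br (nat_lit 16) (nat_lit 0) (.cons (.ev (nat_lit 1361150237188107906294797452225611431939) (nat_lit 3)) (.cons (.rf (nat_lit 823) (nat_lit 646118471285599339714)) (.cons (.br (nat_lit 17) (nat_lit 0) (.cons (.ev (nat_lit 349810273194724747703422534633720776098823) (nat_lit 3)) (.cons (.ev (nat_lit 87794185085973995196210250978842569081602) (nat_lit 2)) .nil))) .nil)))),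
 (.br (nat_lit 12) (nat_lit 0) (.cons (.br (nat_lit 13) (nat_lit 0) (.cons (.ev (nat_lit 5337762617132130539306590252673926151) (nat_lit 3)) (.cons (.rf (nat_lit 906) (nat_lit 677582165103132179601393696)) (.cons (.rf (nat_lit 906) (nat_lit 640105464695078675185502240)) .nil)))) (.cons (.br (nat_lit 13) (nat_lit 0) (.cons (.rf (nat_lit 907) (nat_lit 677582165103132179601393696)) (.cons (.rf (nat_lit 907) (nat_lit 640105464695078675185502240)) .nil))) (.cons (.rf (nat_lit 908) (nat_lit 677582165103132179601393696)) (.cons (.rf (nat_lit 908) (nat_lit 640105464695078675185502240)) .nil))))),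
 (.br (nat_lit 11) (nat_lit 0) (.cons (.rf (nat_lit 905) (nat_lit 583706118939841765935136)) (.cons (.rf (nat_lit 905) (nat_lit 583670378373198953678880)) (.cons (.rf (nat_lit 900) (nat_lit 569876887741382270147)) (.cons (.rf (nat_lit 900) (nat_lit 534136321098570013891)) (.cons (.br (nat_lit 11) (nat_lit 0) (.cons (.rf (nat_lit 905) (nat_lit 583706118939841765935136)) (.cons (.rf (nat_lit 905) (nat_lit 583670378373198953678880)) (.cons (.rf (nat_lit 900) (nat_lit 569876887741382270147)) (.cons (.rf (nat_lit 900) (nat_lit 534136321098570013891)) (.cons (.br (nat_lit 14) (nat_lit 0) (.cons (.rf (nat_lit 909) (nat_lit 677582165103132179601393696)) (.cons (.rf (nat_lit 909) (nat_lit 677582129362565536789137440)) (.cons (.kr (nat_lit 5192296858534827628530496329220096) (nat_lit 1329227995784915872903807060280344576) (nat_lit 14) (nat_lit 0)) (.cons (.rf (nat_lit 909) (nat_lit 518004108990465718101219555)) (.cons (.rf (nat_lit 909) (nat_lit 518004073249899075288963299)) .nil)))))) .nil)))))) .nil)))))),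
 (.br (nat_lit 15) (nat_lit 0) (.cons (.rf (nat_lit 893) (nat_lit 608113647329105610977)) (.cons (.br (nat_lit 14) (nat_lit 0) (.cons (.ev (nat_lit 680575159158869528914019915238274629633) (nat_lit 2)) (.cons (.br (nat_lit 16) (nat_lit 0) (.cons (.ev (nat_lit 683244040151143118350001319103768429061) (nat_lit 3)) .nil)) .nil))) (.cons (.ev (nat_lit 1329248357732167067106658843021607168) (nat_lit 1)) .nil)))),
 (.br (nat_lit 15) (nat_lit 0) (.cons (.ev (nat_lit 2668840585286901401209354355071778819) (nat_lit 2)) (.cons (.br (nat_lit 16) (nat_lit 0) (.cons (.ev (nat_lit 340282366920939677111632762524642902016) (nat_lit 1)) (.cons (.ev (nat_lit 340282387282577443277567524065438138368) (nat_lit 1)) .nil))) (.cons (.ev (nat_lit 2668881308562433733078877436662251523) (nat_lit 2)) .nil)))),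
 (.br (nat_lit 13) (nat_lit 0) (.cons (.br (nat_lit 15) (nat_lit 0) (.cons (.br (nat_lit 15) (nat_lit 0) (.cons (.ev (nat_lit 2668881309183831085842572581141611011) (nat_lit 2)) .nil)) (.cons (.br (nat_lit 15) (nat_lit 0) (.cons (.ev (nat_lit 2668881309183831085842572581141611011) (nat_lit 2)) .nil)) .nil))) (.cons (.rf (nat_lit 911) (nat_lit 677582165103132179601393696)) (.cons (.rf (nat_lit 911) (nat_lit 676411018214289787687442468)) (.cons (.br (nat_lit 14) (nat_lit 0) (.cons (.rf (nat_lit 912) (nat_lit 677582165103132179601393696)) (.cons (.rf (nat_lit 912) (nat_lit 676411018214289787687442468)) (.cons (.rf (nat_lit 892) (nat_lit 608113647329105610977)) .nil)))) .nil))))),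
 (.br (nat_lit 13) (nat_lit 0) (.cons (.br (nat_lit 15) (nat_lit 0) (.cons (.ev (nat_lit 2658496556389039049148463118920319489) (nat_lit 2)) (.cons (.zr (nat_lit 621406834750999955626787584) (nat_lit 2663689249388386448098965252657446912) (nat_lit 8) (nat_lit 1)) .nil))) (.cons (.br (nat_lit 15) (nat_lit 0) (.cons (.zr (nat_lit 621406834750999955626787584) (nat_lit 2663689249388386448098965252657446912) (nat_lit 8) (nat_lit 1)) (.cons (.ev (nat_lit 2658496556389039049148463118920319489) (nat_lit 2)) .nil))) .nil))),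
 (.br (nat_lit 13) (nat_lit 0) (.cons (.rf (nat_lit 897) (nat_lit 608113647329105610977)) (.cons (.br (nat_lit 16) (nat_lit 0) (.cons (.ev (nat_lit 2668881308562433733078877436662251523) (nat_lit 2)) (.cons (.ev (nat_lit 340287579500516086971013709715644416000) (nat_lit 1)) .nil))) (.cons (.br (nat_lit 15) (nat_lit 0) (.cons (.br (nat_lit 16) (nat_lit 0) (.cons (.ev (nat_lit 340287579500207815590859940849145348353) (nat_lit 1)) .nil)) (.cons (.ev (nat_lit 2668881308562433733078877436662251523) (nat_lit 2)) .nil))) .nil)))),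
 (.br (nat_lit 14) (nat_lit 0) (.cons (.rf (nat_lit 915) (nat_lit 677582165103132179601393696)) (.cons (.rf (nat_lit 913) (nat_lit 640027621705993614800290880)) (.cons (.rf (nat_lit 913) (nat_lit 596657444781506952616221891)) (.cons (.rf (nat_lit 915) (nat_lit 635343034151714773662833733)) .nil))))),
 (.br (nat_lit 11) (nat_lit 0) (.cons (.rf (nat_lit 910) (nat_lit 505863129854781380723776)) (.cons (.rf (nat_lit 900) (nat_lit 606770375888801373379)) (.cons (.rf (nat_lit 900) (nat_lit 534172348933445131333)) (.cons (.rf (nat_lit 900) (nat_lit 535289242603176860867)) (.cons (.br (nat_lit 12) (nat_lit 0) (.cons (.rf (nat_lit 913) (nat_lit 677582165103132179601393696)) (.cons (.br (nat_lit 13) (nat_lit 0) (.cons (.rf (nat_lit 914) (nat_lit 677582165103132179601393696)) (.cons (.rf (nat_lit 914) (nat_lit 676411018214289787687442468)) (.cons (.br (nat_lit 13) (nat_lit 0) (.cons (.rf (nat_lit 914) (nat_lit 677582165103132179601393696)) (.cons (.rf (nat_lit 914) (nat_lit 676411018214289787687442468)) .nil))) .nil)))) (.cons (.rf (nat_lit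 916) (nat_lit 677582165103132179601393696)) (.cons (.rf (nat_lit 916) (nat_lit 521668660769486544359659747)) (.cons (.rf (nat_lit 913) (nat_lit 521668660769486544359659747)) .nil)))))) .nil)))))),
 (.br (nat_lit 10) (nat_lit 0) (.cons (.rf (nat_lit 702) (nat_lit 333664465599864003)) (.cons (.rf (nat_lit 900) (nat_lit 493857214720681089060)) (.cons (.rf (nat_lit 900) (nat_lit 458116648077868832804)) (.cons (.rf (nat_lit 910) (nat_lit 583706118939841765935136)) (.cons (.br (nat_lit 11) (nat_lit 0) (.cons (.rf (nat_lit 917) (nat_lit 19926519232773908561233952)) (.cons (.rf (nat_lit 917) (nat_lit 19926483492207265748977696)) (.cons (.rf (nat_lit 900) (nat_lit 606770375888801373379)) (.cons (.rf (nat_lit 900) (nat_lit 534172348933445131333)) (.cons (.rf (nat_lit 900) (nat_lit 535289242603176860867)) (.cons (.br (nat_lit 11) (nat_lit 0) (.cons (.rf (nat_lit 917) (nat_lit 19926519232773908561233952)) (.cons (.rf (nat_lit 917) (nat_lit 19926483492207265748977696)) (.cons (.rf (nat_lit 900) (nat_lit 606770375888801373379)) (.cons (.rf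 (nat_lit 900) (nat_lit 534172348933445131333)) (.cons (.rf (nat_lit 900) (nat_lit 535289242603176860867)) .nil)))))) .nil))))))) .nil)))))),
 (.br (nat_lit 5) (nat_lit 0) (.cons (.br (nat_lit 1) (nat_lit 0) (.cons (.rf (nat_lit 136) (nat_lit 247132686368)) (.cons (.rf (nat_lit 136) (nat_lit 242766485540)) (.cons (.rf (nat_lit 264) (nat_lit 247132686368)) (.cons (.br (nat_lit 2) (nat_lit 0) (.cons (.rf (nat_lit 264) (nat_lit 213814182976)) (.cons (.rf (nat_lit 136) (nat_lit 207332973637)) (.cons (.ev (nat_lit 1103857058305) (nat_lit 2)) (.cons (.br (nat_lit 6) (nat_lit 0) (.cons (.rf (nat_lit 136) (nat_lit 69965192387)) (.cons (.ev (nat_lit 564062400283139) (nat_lit 2)) (.cons (.rf (nat_lit 402) (nat_lit 325702574508064)) (.cons (.br (nat_lit 7) (nat_lit 0) (.cons (.rf (nat_lit 402) (nat_lit 291584395543616)) (.cons (.ev (nat_lit 144116300489293825) (nat_lit 2)) (.cons (.ev (nat_lit 144679241852649475) (nat_lit 2)) (.cons (.br (nat_lit 8) (nat_lit 0) (.cons (.rf (nat_lit 702) (nat_lit 407901468851537952)) (.cons (.rf (nat_lit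 702) (nat_lit 406810748950583332)) (.cons (.rf (nat_lit 805) (nat_lit 407901468851537952)) (.cons (.br (nat_lit 8) (nat_lit 0) (.cons (.rf (nat_lit 702) (nat_lit 407901468851537952)) (.cons (.rf (nat_lit 702) (nat_lit 406810748950583332)) (.cons (.rf (nat_lit 805) (nat_lit 407901468851537952)) (.cons (.br (nat_lit 9) (nat_lit 0) (.cons (.rf (nat_lit 805) (nat_lit 372964453560452160)) (.cons (.rf (nat_lit 702) (nat_lit 369692300474981445)) (.cons (.rf (nat_lit 900) (nat_lit 493858305440582043680)) (.cons (.rf (nat_lit 900) (nat_lit 458117738797769787424)) (.cons (.br (nat_lit 9) (nat_lit 0) (.cons (.rf (nat_lit 805) (nat_lit 372964453560452160)) (.cons (.rf (nat_lit 702) (nat_lit 369692300474981445)) (.cons (.rf (nat_lit 900) (nat_lit 493858305440582043680)) (.cons (.rf (nat_lit 900) (nat_lit 458117738797769787424)) (.cons (.br (nat_lit 10) (nat_lit 0) (.cons (.rf (nat_lit 702) (nat_lit 333664465599864003)) (.cons (.rf (nat_lit 900) (nat_lit 493857214720681089060)) (.cons (.rf (nat_lit 900) (nat_lit 458116648077868832804)) (.cons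 (.rf (nat_lit 918) (nat_lit 583706118939841765935136)) (.cons (.rf (nat_lit 918) (nat_lit 547107778697602015528992)) (.cons (.br (nat_lit 10) (nat_lit 0) (.cons (.rf (nat_lit 702) (nat_lit 333664465599864003)) (.cons (.rf (nat_lit 900) (nat_lit 493857214720681089060)) (.cons (.rf (nat_lit 900) (nat_lit 458116648077868832804)) (.cons (.rf (nat_lit 918) (nat_lit 583706118939841765935136)) (.cons (.rf (nat_lit 918) (nat_lit 547107778697602015528992)) (.cons (.br (nat_lit 11) (nat_lit 0) (.cons (.rf (nat_lit 918) (nat_lit 505863129854781380723776)) (.cons (.rf (nat_lit 918) (nat_lit 469264789612541630317632)) (.cons (.rf (nat_lit 900) (nat_lit 569912915576257387589)) (.cons (.rf (nat_lit 900) (nat_lit 534172348933445131333)) (.cons (.rf (nat_lit 900) (nat_lit 645969707045434170563)) (.cons (.rf (nat_lit 900) (nat_lit 610229140402621914307)) .nil))))))) .nil))))))) .nil))))))) .nil)))))) .nil)))))) .nil))))) .nil))))) .nil))))) .nil))))) .nil))))) .nil))))) .nil)),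
 (.br (nat_lit 0) (nat_lit 0) (.cons (.br (nat_lit 0) (nat_lit 0) (.cons (.br (nat_lit 0) (nat_lit 1) (.cons (.br (nat_lit 1) (nat_lit 1) (.cons (.rf (nat_lit 0) (nat_lit 100384)) (.cons (.br (nat_lit 4) (nat_lit 1) (.cons (.br (nat_lit 3) (nat_lit 0) (.cons (.rf (nat_lit 0) (nat_lit 99392)) (.cons (.br (nat_lit 3) (nat_lit 0) (.cons (.rf (nat_lit 0) (nat_lit 99392)) (.cons (.br (nat_lit 2) (nat_lit 1) (.cons (.br (nat_lit 6) (nat_lit 1) (.cons (.br (nat_lit 5) (nat_lit 0) (.cons (.kr (nat_lit 1099511627777) (nat_lit 4311744512) (nat_lit 0) (nat_lit 1)) .nil)) .nil)) (.cons (.br (nat_lit 4) (nat_lit 0) (.cons (.rf (nat_lit 919) (nat_lit 247132686368)) (.cons (.rf (nat_lit 919) (nat_lit 213846689824)) .nil))) .nil))) .nil))) .nil))) .nil)) .nil))) .nil)) .nil)) .nil))]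

theorem c34 : chkAll C T R L34 (nat_lit 904) = true := by decide +kernel

theorem l34 : (nat_lit 904) + L34.length = (nat_lit 921) := by decide +kernel

end Pool.Agent.H93.Neg.N18_4_0
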