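import Pool.Agent.H93.Neg.TabN18_4_4

/-!
Certificates.
-/

set_option autoImplicit false
set_option maxRecDepth 100000
set_option linter.all false

namespace Pool.Agent.H93.Neg.N18_4_4

/-- part of the certificates -/
def L0 : List Prf := [(.br (nat_lit 4) (nat_lit 1) (.cons (.br (nat_lit 5) (nat_lit 1) (.cons (.br (nat_lit 6) (nat_lit 1) (.cons (.br (nat_lit 6) (nat_lit 1) .nil) .nil)) .nil)) .nil)),
 (.br (nat_lit 4) (nat_lit 1) (.cons (.br (nat_lit 5) (nat_lit 1) (.cons (.br (nat_lit 6) (nat_lit 1) (.cons (.br (nat_lit 7) (nat_lit 1) .nil) .nil)) (.cons (.br (nat_lit 6) (nat_lit 1) (.cons (.br (nat_lit 6) (nat_lit 1) .nil) .nil)) .nil))) .nil)),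
 (.br (nat_lit 9) (nat_lit 1) (.cons (.kr (nat_lit 18518801667747479553) (nat_lit 4722366482873956958208) (nat_lit 0) (nat_lit 1)) .nil)),
 (.br (nat_lit 4) (nat_lit 0) (.cons (.br (nat_lit 4) (nat_lit 0) (.cons (.br (nat_lit 5) (nat_lit 1) (.cons (.br (nat_lit 6) (nat_lit 1) (.cons (.br (nat_lit 3) (nat_lit 1) (.cons (.kr (nat_lit 72057594037927937) (nat_lit 4311744512) (nat_lit 0) (nat_lit 1)) (.cons (.br (nat_lit 7) (nat_lit 1) (.cons (.rf (nat_lit 0) (nat_lit 8622176)) (.cons (.br (nat_lit 8) (nat_lit 1) (.cons (.rf (nat_lit 1) (nat_lit 310612064)) (.cons (.br (nat_lit 8) (nat_lit 1) (.cons (.rf (nat_lit 1) (nat_lit 310612064)) (.cons (.br (nat_lit 9) (nat_lit 1) (.cons (.rf (nat_lit 2) (nat_lit 407901468851537952)) (.cons (.rf (nat_lit 2) (nat_lit 372998571739416608)) .nil))) .nil))) .nil))) .nil))) .nil))) .nil)) .nil)) .nil)) .nil)),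
 (.br (nat_lit 4) (nat_lit 1) (.cons (.br (nat_lit 5) (nat_lit 1) (.cons (.br (nat_lit 6) (nat_lit 1) (.cons (.br (nat_lit 6) (nat_lit 1) .nil) .nil)) .nil)) .nil)),
 (.br (nat_lit 5) (nat_lit 1) (.cons (.br (nat_lit 6) (nat_lit 1) (.cons (.br (nat_lit 7) (nat_lit 1) .nil) .nil)) (.cons (.br (nat_lit 6) (nat_lit 1) (.cons (.br (nat_lit 6) (nat_lit 1) .nil) .nil)) .nil))),
 (.br (nat_lit 5) (nat_lit 1) (.cons (.br (nat_lit 6) (nat_lit 1) (.cons (.br (nat_lit 7) (nat_lit 1) .nil) .nil)) (.cons (.br (nat_lit 6) (nat_lit 1) (.cons (.br (nat_lit 6) (nat_lit 1) .nil) .nil)) .nil))),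
 (.br (nat_lit 10) (nat_lit 1) (.cons (.br (nat_lit 11) (nat_lit 1) (.cons (.ev (nat_lit 80157826506658494995314638851) (nat_lit 2)) .nil)) .nil)),
 (.br (nat_lit 6) (nat_lit 0) (.cons (.br (nat_lit 7) (nat_lit 0) (.cons (.br (nat_lit 8) (nat_lit 0) (.cons (.br (nat_lit 8) (nat_lit 0) .nil) .nil)) .nil)) .nil)),
 (.br (nat_lit 8) (nat_lit 0) (.cons (.br (nat_lit 8) (nat_lit 0) .nil) .nil)),
 (.br (nat_lit 14) (nat_lit 0) (.cons (.br (nat_lit 15) (nat_lit 0) (.cons (.ev (nat_lit 2668840665444727907723170108533768195) (nat_lit 2)) (.cons (.rf (nat_lit 9) (nat_lit 616257385927745)) .nil))) .nil)),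
 (.br (nat_lit 15) (nat_lit 0) (.cons (.ev (nat_lit 1344865971586935418652927391514558721) (nat_lit 2)) .nil)),
 (.br (nat_lit 10) (nat_lit 1) (.cons (.br (nat_lit 11) (nat_lit 1) (.cons (.br (nat_lit 14) (nat_lit 0) (.cons (.rf (nat_lit 10) (nat_lit 583706118939841765935136)) (.cons (.br (nat_lit 14) (nat_lit 0) (.cons (.rf (nat_lit 10) (nat_lit 583706118939841765935136)) (.cons (.br (nat_lit 15) (nat_lit 0) (.cons (.rf (nat_lit 11) (nat_lit 677582165103132179601393696)) (.cons (.rf (nat_lit 11) (nat_lit 640105464695078675185502240)) .nil))) .nil))) .nil))) .nil)) .nil)),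
 (.br (nat_lit 9) (nat_lit 0) (.cons (.br (nat_lit 13) (nat_lit 0) (.cons (.rf (nat_lit 8) (nat_lit 15478297665)) (.cons (.br (nat_lit 10) (nat_lit 1) (.cons (.rf (nat_lit 12) (nat_lit 583706118939841765935136)) (.cons (.br (nat_lit 10) (nat_lit 1) (.cons (.rf (nat_lit 12) (nat_lit 583706118939841765935136)) .nil)) .nil))) .nil))) .nil)),
 (.br (nat_lit 12) (nat_lit 0) (.cons (.br (nat_lit 13) (nat_lit 0) (.cons (.ev (nat_lit 5253382082532038780491006933664514) (nat_lit 2)) .nil)) .nil)),
 (.br (nat_lit 13) (nat_lit 0) (.cons (.kr (nat_lit 4740813226943354765568) (nat_lit 20282409603651670425046762979328) (nat_lit 1) (nat_lit 0)) (.cons (.br (nat_lit 14) (nat_lit 0) (.cons (.kr (nat_lit 10384672946441095413352288703479809) (nat_lit 928464511090489092883874304) (nat_lit 0) (nat_lit 2)) (.cons (.kr (nat_lit 10384672946441095413352288703479809) (nat_lit 40565747662332804885299700301824) (nat_lit 0) (nat_lit 1)) (.cons (.br (nat_lit 15) (nat_lit 0) (.cons (.rf (nat_lit 14) (nat_lit 20678166550683429472288))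 (.cons (.br (nat_lit 15) (nat_lit 0) (.cons (.rf (nat_lit 14) (nat_lit 20678166550683429472288)) .nil)) .nil))) .nil)))) .nil))),
 (.br (nat_lit 12) (nat_lit 0) (.cons (.kr (nat_lit 309485009821345068724781056) (nat_lit 79228162514264337593543950336) (nat_lit 11) (nat_lit 0)) (.cons (.ev (nat_lit 79538856468352042464681394433) (nat_lit 1)) .nil))),
 (.br (nat_lit 11) (nat_lit 0) (.cons (.rf (nat_lit 16) (nat_lit 17022140995484340291616)) (.cons (.rf (nat_lit 16) (nat_lit 15878442862914348091424)) .nil))),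
 (.br (nat_lit 11) (nat_lit 0) (.cons (.rf (nat_lit 17) (nat_lit 17022140995484340291616)) (.cons (.br (nat_lit 13) (nat_lit 0) (.cons (.br (nat_lit 12) (nat_lit 0) (.cons (.ev (nat_lit 79537652246452165531930787841) (nat_lit 1)) .nil)) (.cons (.kr (nat_lit 20282409603651670423947251286016) (nat_lit 5192296858534827628530496329220096) (nat_lit 13) (nat_lit 0)) .nil))) .nil))),
 (.br (nat_lit 10) (nat_lit 1) (.cons (.br (nat_lit 11) (nat_lit 1) (.cons (.br (nat_lit 13) (nat_lit 0) (.cons (.rf (nat_lit 15) (nat_lit 583706118939841765935136)) (.cons (.rf (nat_lit 15) (nat_lit 547107778697602015528992)) (.cons (.br (nat_lit 13) (nat_lit 0) (.cons (.rf (nat_lit 15) (nat_lit 583706118939841765935136)) (.cons (.rf (nat_lit 15) (nat_lit 547107778697602015528992)) (.cons (.br (nat_lit 14) (nat_lit 0) (.cons (.rf (nat_lit 17) (nat_lit 20678166550683429472288)) (.cons (.rf (nat_lit 18) (nat_lit 20678166550683429472288)) (.cons (.rf (nat_lit 18) (nat_lit 19534468418113437272096)) .nil)))) .nil))))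 .nil)))) .nil)) .nil)),
 (.br (nat_lit 6) (nat_lit 1) (.cons (.rf (nat_lit 4) (nat_lit 7540832)) (.cons (.kr (nat_lit 281474976710656) (nat_lit 72057594037927936) (nat_lit 6) (nat_lit 0)) (.cons (.br (nat_lit 4) (nat_lit 1) (.cons (.rf (nat_lit 4) (nat_lit 6525024)) (.cons (.br (nat_lit 7) (nat_lit 1) (.cons (.kr (nat_lit 1208925819614629174706432) (nat_lit 1103806595072) (nat_lit 1) (nat_lit 0)) (.cons (.rf (nat_lit 5) (nat_lit 12154245216)) .nil))) (.cons (.br (nat_lit 7) (nat_lit 1) (.cons (.rf (nat_lit 6) (nat_lit 12154245216)) (.cons (.rf (nat_lit 5) (nat_lit 11113042016)) (.cons (.br (nat_lit 8) (nat_lit 0) (.cons (.br (nat_lit 10) (nat_lit 1) (.cons (.rf (nat_lit 7) (nat_lit 14242959524133701664)) (.cons (.br (nat_lit 10) (nat_lit 1) (.cons (.rf (nat_lit 7) (nat_lit 14242959524133701664)) .nil)) .nil))) (.cons (.br (nat_lit 9) (nat_lit 0) (.cons (.rf (nat_lit 13) (nat_lit 493858305440582043680)) (.cons (.br (nat_lit 9) (nat_lit 0) (.cons (.rf (nat_lit 13) (nat_lit 493858305440582043680))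 (.cons (.br (nat_lit 10) (nat_lit 1) (.cons (.rf (nat_lit 19) (nat_lit 583706118939841765935136)) (.cons (.br (nat_lit 10) (nat_lit 1) (.cons (.rf (nat_lit 19) (nat_lit 583706118939841765935136)) .nil)) .nil))) .nil))) .nil))) .nil))) .nil)))) .nil)))) .nil)))),
 (.br (nat_lit 7) (nat_lit 0) (.cons (.br (nat_lit 8) (nat_lit 0) (.cons (.kr (nat_lit 281474976710656) (nat_lit 72057594037927936) (nat_lit 6) (nat_lit 0)) (.cons (.br (nat_lit 8) (nat_lit 0) (.cons (.kr (nat_lit 281474976710656) (nat_lit 72057594037927936) (nat_lit 6) (nat_lit 0)) .nil)) .nil))) .nil)),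
 (.br (nat_lit 7) (nat_lit 0) (.cons (.br (nat_lit 8) (nat_lit 0) (.cons (.kr (nat_lit 18446744073709551616) (nat_lit 4722366482869645213696) (nat_lit 8) (nat_lit 0)) .nil)) .nil)),
 (.br (nat_lit 6) (nat_lit 0) (.cons (.br (nat_lit 7) (nat_lit 0) (.cons (.br (nat_lit 8) (nat_lit 0) (.cons (.br (nat_lit 9) (nat_lit 0) .nil) .nil)) (.cons (.rf (nat_lit 9) (nat_lit 325702574508064)) .nil))) .nil)),
 (.br (nat_lit 7) (nat_lit 0) (.cons (.br (nat_lit 8) (nat_lit 0) (.cons (.kr (nat_lit 18446744073709551616) (nat_lit 4722366482869645213696) (nat_lit 8) (nat_lit 0)) .nil)) .nil)),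
 (.br (nat_lit 4) (nat_lit 0) (.cons (.br (nat_lit 5) (nat_lit 0) (.cons (.rf (nat_lit 8) (nat_lit 6614517792)) (.cons (.br (nat_lit 6) (nat_lit 0) (.cons (.rf (nat_lit 23) (nat_lit 247132686368)) (.cons (.br (nat_lit 6) (nat_lit 0) (.cons (.rf (nat_lit 23) (nat_lit 247132686368)) (.cons (.br (nat_lit 7) (nat_lit 0) (.cons (.rf (nat_lit 24) (nat_lit 325702574508064)) (.cons (.rf (nat_lit 24) (nat_lit 291617714047008)) .nil))) .nil))) .nil))) .nil))) .nil)),
 (.br (nat_lit 13) (nat_lit 0) (.cons (.br (nat_lit 14) (nat_lit 0) (.cons (.ev (nat_lit 5212579268138497817756115623018753) (nat_lit 1)) .nil)) .nil)),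
 (.br (nat_lit 11) (nat_lit 0) (.cons (.kr (nat_lit 4740813226943354765568) (nat_lit 309485009821346168236474368) (nat_lit 1) (nat_lit 0)) (.cons (.br (nat_lit 12) (nat_lit 0) (.cons (.ev (nat_lit 158457562399732901280135250951) (nat_lit 3)) (.cons (.ev (nat_lit 160314444013781607833332483591) (nat_lit 3)) (.cons (.br (nat_lit 13) (nat_lit 0) (.cons (.rf (nat_lit 26) (nat_lit 583706118939841765935136)) (.cons (.br (nat_lit 13) (nat_lit 0) (.cons (.rf (nat_lit 26) (nat_lit 583706118939841765935136)) .nil)) .nil))) .nil)))) .nil))),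
 (.br (nat_lit 13) (nat_lit 0) (.cons (.ev (nat_lit 5192376086697360411669761915683073) (nat_lit 1)) (.cons (.ev (nat_lit 40723894502388478604493545538307) (nat_lit 2)) .nil))),
 (.br (nat_lit 12) (nat_lit 0) (.cons (.rf (nat_lit 28) (nat_lit 583706118939841765935136)) (.cons (.rf (nat_lit 28) (nat_lit 547107778697602015528992)) .nil))),
 (.br (nat_lit 12) (nat_lit 0) (.cons (.rf (nat_lit 29) (nat_lit 583706118939841765935136)) (.cons (.br (nat_lit 14) (nat_lit 0) (.cons (.br (nat_lit 13) (nat_lit 0) (.cons (.ev (nat_lit 40723275541776675394146990686467) (nat_lit 2)) .nil)) (.cons (.ev (nat_lit 5192376086697360411669761915683073) (nat_lit 1)) .nil))) .nil))),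
 (.br (nat_lit 9) (nat_lit 1) (.cons (.br (nat_lit 10) (nat_lit 1) (.cons (.kr (nat_lit 309489732188109413346705409) (nat_lit 1208925891672227524378624) (nat_lit 0) (nat_lit 1)) .nil)) .nil)),
 (.br (nat_lit 7) (nat_lit 1) (.cons (.rf (nat_lit 6) (nat_lit 11046850752)) (.cons (.rf (nat_lit 5) (nat_lit 10002600128)) (.cons (.br (nat_lit 9) (nat_lit 1) (.cons (.rf (nat_lit 31) (nat_lit 407901468851537952)) (.cons (.br (nat_lit 9) (nat_lit 1) (.cons (.rf (nat_lit 31) (nat_lit 407901468851537952)) .nil)) .nil))) .nil)))),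
 (.br (nat_lit 4) (nat_lit 1) (.cons (.rf (nat_lit 4) (nat_lit 3379392)) (.cons (.br (nat_lit 7) (nat_lit 1) (.cons (.br (nat_lit 11) (nat_lit 0) (.cons (.rf (nat_lit 27) (nat_lit 493858305440582043680)) (.cons (.rf (nat_lit 27) (nat_lit 458117738797769787424)) (.cons (.br (nat_lit 11) (nat_lit 0) (.cons (.rf (nat_lit 27) (nat_lit 493858305440582043680)) (.cons (.rf (nat_lit 27) (nat_lit 458117738797769787424)) (.cons (.br (nat_lit 12) (nat_lit 0) (.cons (.rf (nat_lit 29) (nat_lit 583706118939841765935136)) (.cons (.rf (nat_lit 30) (nat_lit 583706118939841765935136)) (.cons (.rf (nat_lit 30) (nat_lit 547107778697602015528992)) .nil)))) .nil)))) .nil)))) (.cons (.rf (nat_lit 5) (nat_lit 15375372480)) .nil))) (.cons (.rf (nat_lit 32) (nat_lit 16123485642393632)) .nil)))),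
 (.br (nat_lit 7) (nat_lit 1) .nil),
 (.br (nat_lit 9) (nat_lit 1) (.cons (.rf (nat_lit 34) (nat_lit 389004071008)) (.cons (.br (nat_lit 10) (nat_lit 1) (.cons (.kr (nat_lit 309489732188109413346705409) (nat_lit 1208925891672227524378624) (nat_lit 0) (nat_lit 1)) .nil)) .nil))),
 (.br (nat_lit 4) (nat_lit 1) (.cons (.rf (nat_lit 35) (nat_lit 407901468851537952)) (.cons (.rf (nat_lit 35) (nat_lit 372998538453420064)) .nil))),
 (.br (nat_lit 4) (nat_lit 1) (.cons (.rf (nat_lit 36) (nat_lit 407901468851537952)) (.cons (.br (nat_lit 10) (nat_lit 1) (.cons (.br (nat_lit 9) (nat_lit 1) (.cons (.kr (nat_lit 4722366482869645213697) (nat_lit 4311744512) (nat_lit 0) (nat_lit 1)) .nil)) (.cons (.rf (nat_lit 34) (nat_lit 321387729088)) .nil))) .nil))),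
 (.br (nat_lit 4) (nat_lit 1) (.cons (.rf (nat_lit 36) (nat_lit 407901468851537952)) (.cons (.rf (nat_lit 37) (nat_lit 407901468851537952)) (.cons (.rf (nat_lit 37) (nat_lit 372998538453420064)) .nil)))),
 (.br (nat_lit 5) (nat_lit 1) (.cons (.br (nat_lit 5) (nat_lit 1) (.cons (.br (nat_lit 6) (nat_lit 0) (.cons (.br (nat_lit 7) (nat_lit 0) (.cons (.br (nat_lit 2) (nat_lit 0) (.cons (.kr (nat_lit 18446744073709551872) (nat_lit 1099511693312) (nat_lit 1) (nat_lit 0)) (.cons (.br (nat_lit 3) (nat_lit 1) (.cons (.rf (nat_lit 20) (nat_lit 325702574508064)) (.cons (.rf (nat_lit 3) (nat_lit 6293539)) (.cons (.rf (nat_lit 3) (nat_lit 7342115)) (.cons (.br (nat_lit 8) (nat_lit 0) (.cons (.br (nat_lit 9) (nat_lit 0) (.cons (.br (nat_lit 11) (nat_lit 0) (.cons (.br (nat_lit 11) (nat_lit 0) (.cons (.br (nat_lit 12) (nat_lit 0) (.cons (.rf (nat_lit 21) (nat_lit 459940303937)) (.cons (.br (nat_lit 12) (nat_lit 0) (.cons (.rf (nat_lit 21) (nat_lit 459940303937)) (.cons (.br (nat_lit 13) (nat_lit 0)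 (.cons (.rf (nat_lit 22) (nat_lit 543618684425281)) (.cons (.rf (nat_lit 22) (nat_lit 509533823964225)) .nil))) .nil))) .nil))) .nil)) .nil)) .nil)) (.cons (.br (nat_lit 9) (nat_lit 0) (.cons (.rf (nat_lit 25) (nat_lit 378803265)) (.cons (.br (nat_lit 9) (nat_lit 0) (.cons (.rf (nat_lit 25) (nat_lit 378803265)) (.cons (.br (nat_lit 6) (nat_lit 1) (.cons (.rf (nat_lit 33) (nat_lit 493858305440582043680)) (.cons (.kr (nat_lit 281474976710656) (nat_lit 72057594037927936) (nat_lit 6) (nat_lit 0)) (.cons (.rf (nat_lit 33) (nat_lit 493851550041147181091)) (.cons (.br (nat_lit 7) (nat_lit 1) (.cons (.rf (nat_lit 33) (nat_lit 493858305407296047136)) (.cons (.rf (nat_lit 33) (nat_lit 493851550007861184547)) (.cons (.rf (nat_lit 20) (nat_lit 389330243920038)) (.cons (.rf (nat_lit 38) (nat_lit 556555440926853152)) .nil))))) .nil))))) .nil))) .nil))) .nil))) .nil))))) .nil))) .nil)) .nil)) .nil)) .nil)),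
 (.br (nat_lit 5) (nat_lit 0) (.cons (.br (nat_lit 6) (nat_lit 1) (.cons (.rf (nat_lit 4) (nat_lit 7508064)) .nil)) .nil)),
 (.br (nat_lit 6) (nat_lit 1) (.cons (.ev (nat_lit 4740885567116192841985) (nat_lit 1)) .nil)),
 (.br (nat_lit 8) (nat_lit 0) (.cons (.br (nat_lit 8) (nat_lit 0) .nil) .nil)),
 (.br (nat_lit 12) (nat_lit 0) (.cons (.br (nat_lit 13) (nat_lit 0) (.cons (.ev (nat_lit 40723585026804870859442637373955) (nat_lit 2)) (.cons (.rf (nat_lit 42) (nat_lit 543618650838081)) .nil))) .nil)),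
 (.br (nat_lit 13) (nat_lit 0) (.cons (.ev (nat_lit 20837015236788896091263138727684) (nat_lit 3)) .nil)),
 (.br (nat_lit 7) (nat_lit 0) (.cons (.ev (nat_lit 1213648692197212184183044) (nat_lit 3)) (.cons (.br (nat_lit 10) (nat_lit 0) (.cons (.ev (nat_lit 311902880051717267204866051) (nat_lit 2)) (.cons (.br (nat_lit 12) (nat_lit 0) (.cons (.rf (nat_lit 43) (nat_lit 493858305440582043680)) (.cons (.br (nat_lit 12) (nat_lit 0) (.cons (.rf (nat_lit 43) (nat_lit 493858305440582043680)) (.cons (.br (nat_lit 13) (nat_lit 0) (.cons (.rf (nat_lit 44) (nat_lit 583706118939841765935136)) (.cons (.rf (nat_lit 44) (nat_lit 547107778697602015528992)) .nil))) .nil))) .nil))) .nil))) .nil))),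
 (.br (nat_lit 8) (nat_lit 0) (.cons (.br (nat_lit 8) (nat_lit 0) .nil) .nil)),
 (.br (nat_lit 7) (nat_lit 0) (.cons (.br (nat_lit 13) (nat_lit 0) (.cons (.zr (nat_lit 81129947899634950629356386387457) (nat_lit 2427296660425395266519040) (nat_lit 8) (nat_lit 1)) (.cons (.rf (nat_lit 46) (nat_lit 543618650838081)) .nil))) .nil)),
 (.br (nat_lit 13) (nat_lit 0) (.cons (.zr (nat_lit 40565128692331608939235976938497) (nat_lit 158456325028673071854435696640) (nat_lit 8) (nat_lit 1)) .nil)),
 (.br (nat_lit 8) (nat_lit 0) (.cons (.br (nat_lit 8) (nat_lit 0) .nil) .nil)),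
 (.br (nat_lit 12) (nat_lit 0) (.cons (.ev (nat_lit 79229376162522774165673541888) (nat_lit 1)) (.cons (.rf (nat_lit 49) (nat_lit 507299299004481)) .nil))),
 (.br (nat_lit 7) (nat_lit 0) (.cons (.br (nat_lit 7) (nat_lit 0) .nil) .nil)),
 (.br (nat_lit 14) (nat_lit 0) (.cons (.ev (nat_lit 10384752485297563837453446951206915) (nat_lit 2)) .nil))]

theorem c0 : chkAll C T R L0 (nat_lit 0) = true := by decide +kernel

theorem l0 : (nat_lit 0) + L0.length = (nat_lit 53) := by decide +kernel

/-- part of the certificates -/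
def L1 : List Prf := [(.br (nat_lit 7) (nat_lit 0) (.cons (.ev (nat_lit 316766917529640358398394373) (nat_lit 3)) (.cons (.br (nat_lit 12) (nat_lit 0) (.cons (.rf (nat_lit 50) (nat_lit 531941906108885600288)) (.cons (.br (nat_lit 14) (nat_lit 0) (.cons (.ev (nat_lit 10384752485297563693336059852227075) (nat_lit 2)) (.cons (.rf (nat_lit 51) (nat_lit 543618650838081)) .nil))) (.cons (.br (nat_lit 13) (nat_lit 0) (.cons (.rf (nat_lit 52) (nat_lit 583706118939841765935136)) (.cons (.br (nat_lit 13) (nat_lit 0) (.cons (.rf (nat_lit 52) (nat_lit 583706118939841765935136)) .nil)) .nil))) .nil)))) .nil))),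
 (.br (nat_lit 13) (nat_lit 0) (.cons (.ev (nat_lit 20891357570221334392755125554905605) (nat_lit 3)) (.cons (.zr (nat_lit 4854592888511819080007680) (nat_lit 40723585017360139582548878820353) (nat_lit 8) (nat_lit 7)) .nil))),
 (.br (nat_lit 12) (nat_lit 0) (.cons (.rf (nat_lit 54) (nat_lit 583706118939841765935136)) (.cons (.rf (nat_lit 54) (nat_lit 547107778697602015528992)) .nil))),
 (.br (nat_lit 12) (nat_lit 0) (.cons (.rf (nat_lit 55) (nat_lit 583706118939841765935136)) (.cons (.ev (nat_lit 79537652264970968299173118208) (nat_lit 1)) .nil))),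
 (.br (nat_lit 8) (nat_lit 0) (.cons (.br (nat_lit 8) (nat_lit 0) (.cons (.br (nat_lit 9) (nat_lit 1) (.cons (.br (nat_lit 10) (nat_lit 1) (.cons (.br (nat_lit 11) (nat_lit 1) (.cons (.br (nat_lit 9) (nat_lit 0) (.cons (.rf (nat_lit 45) (nat_lit 407901468851537952)) (.cons (.ev (nat_lit 309494473001336361046901251) (nat_lit 2)) (.cons (.br (nat_lit 10) (nat_lit 0) (.cons (.rf (nat_lit 45) (nat_lit 406810753316784160)) (.cons (.br (nat_lit 12) (nat_lit 0) (.cons (.zr (nat_lit 311912324640288551022363137) (nat_lit 316912650057058757749059747840) (nat_lit 8) (nat_lit 1)) (.cons (.br (nat_lit 7) (nat_lit 0) (.cons (.rf (nat_lit 47) (nat_lit 493858305440582043680)) (.cons (.br (nat_lit 7) (nat_lit 0) (.cons (.rf (nat_lit 47) (nat_lit 493858305440582043680)) (.cons (.br (nat_lit 13) (nat_lit 0) (.cons (.rf (nat_lit 48) (nat_lit 583706118939841765935136)) (.cons (.rf (nat_lit 48) (nat_lit 547107778697602015528992)) .nil))) .nil))) .nil))) .nil))) (.cons (.br (nat_lit 7) (nat_lit 0) (.cons (.rf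 (nat_lit 53) (nat_lit 493858305440582043680)) (.cons (.rf (nat_lit 53) (nat_lit 458116648082235033632)) (.cons (.br (nat_lit 7) (nat_lit 0) (.cons (.rf (nat_lit 53) (nat_lit 493858305440582043680)) (.cons (.rf (nat_lit 53) (nat_lit 458116648082235033632)) (.cons (.br (nat_lit 12) (nat_lit 0) (.cons (.rf (nat_lit 55) (nat_lit 583706118939841765935136)) (.cons (.rf (nat_lit 56) (nat_lit 583706118939841765935136)) (.cons (.rf (nat_lit 56) (nat_lit 547107778697602015528992)) .nil)))) .nil)))) .nil)))) .nil)))) .nil)))) (.cons (.rf (nat_lit 5) (nat_lit 13098029152)) .nil))) .nil)) .nil)) .nil)) .nil)),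
 (.br (nat_lit 12) (nat_lit 1) (.cons (.ev (nat_lit 20441486107699664556293663817986) (nat_lit 3)) (.cons (.zr (nat_lit 159075295048171370830685537024) (nat_lit 20282410812577706774308493524992) (nat_lit 8) (nat_lit 1)) .nil))),
 (.br (nat_lit 14) (nat_lit 0) (.cons (.br (nat_lit 15) (nat_lit 0) (.cons (.ev (nat_lit 2668840664826971517603095456514179587) (nat_lit 2)) (.cons (.rf (nat_lit 42) (nat_lit 616257386943553)) .nil))) .nil)),
 (.br (nat_lit 15) (nat_lit 0) (.cons (.zr (nat_lit 1329227995784925354602319640572986114) (nat_lit 5212579269347405119694972662382592) (nat_lit 8) (nat_lit 1)) .nil)),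
 (.br (nat_lit 8) (nat_lit 1) (.cons (.br (nat_lit 9) (nat_lit 1) (.cons (.br (nat_lit 13) (nat_lit 0) (.cons (.ev (nat_lit 40644356859568384156366547189763) (nat_lit 2)) (.cons (.br (nat_lit 14) (nat_lit 0) (.cons (.rf (nat_lit 59) (nat_lit 583706118939841765935136)) (.cons (.br (nat_lit 14) (nat_lit 0) (.cons (.rf (nat_lit 59) (nat_lit 583706118939841765935136)) (.cons (.br (nat_lit 15) (nat_lit 0) (.cons (.rf (nat_lit 60) (nat_lit 677582165103132179601393696)) (.cons (.rf (nat_lit 60) (nat_lit 640105464695078675185502240)) .nil))) .nil))) .nil))) .nil))) .nil)) (.cons (.rf (nat_lit 6) (nat_lit 6723833952)) .nil))),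
 (.br (nat_lit 10) (nat_lit 1) (.cons (.br (nat_lit 10) (nat_lit 1) (.cons (.br (nat_lit 11) (nat_lit 0) (.cons (.br (nat_lit 12) (nat_lit 0) (.cons (.br (nat_lit 7) (nat_lit 0) (.cons (.br (nat_lit 11) (nat_lit 1) (.cons (.rf (nat_lit 58) (nat_lit 493858305440582043680)) (.cons (.rf (nat_lit 58) (nat_lit 493858271355721582624)) (.cons (.ev (nat_lit 20283029782597204787407458861826) (nat_lit 2)) .nil)))) (.cons (.br (nat_lit 11) (nat_lit 1) (.cons (.rf (nat_lit 61) (nat_lit 17022140995484340291616)) (.cons (.rf (nat_lit 61) (nat_lit 17022140961399479830560)) (.cons (.kr (nat_lit 309485009821345068724781056) (nat_lit 79228162514264337593543950336) (nat_lit 11) (nat_lit 0)) .nil)))) .nil))) .nil)) .nil)) .nil)) .nil)),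
 (.br (nat_lit 15) (nat_lit 0) (.cons (.ev (nat_lit 2668860946939226825782846258195858947) (nat_lit 4)) (.cons (.ev (nat_lit 8006542117498484591712870975051924487) (nat_lit 3)) (.cons (.br (nat_lit 10) (nat_lit 0) (.cons (.br (nat_lit 11) (nat_lit 0) (.cons (.ev (nat_lit 2658476353828990523837803479831806467) (nat_lit 2)) (.cons (.rf (nat_lit 51) (nat_lit 610789964878913)) .nil))) (.cons (.br (nat_lit 16) (nat_lit 0) (.cons (.ev (nat_lit 341611594916723384077163700128952942848) (nat_lit 1)) (.cons (.rf (nat_lit 49) (nat_lit 610789964878913)) .nil))) (.cons (.br (nat_lit 11) (nat_lit 0) (.cons (.br (nat_lit 11) (nat_lit 0) (.cons (.ev (nat_lit 2658476353828990523981920866930786307) (nat_lit 2)) .nil)) (.cons (.br (nat_lit 11) (nat_lit 0) (.cons (.ev (nat_lit 2658476353828990523981920866930786307) (nat_lit 2)) .nil)) .nil))) .nil)))) .nil)))),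
 (.br (nat_lit 10) (nat_lit 0) (.cons (.ev (nat_lit 18681904458650925899972851087817968139) (nat_lit 4)) (.cons (.rf (nat_lit 46) (nat_lit 610590248899649)) .nil))),
 (.br (nat_lit 11) (nat_lit 0) (.cons (.ev (nat_lit 340287579579434764457010239641730744577) (nat_lit 1)) (.cons (.ev (nat_lit 18681904459267478067976311966918117899) (nat_lit 4)) .nil))),
 (.br (nat_lit 10) (nat_lit 0) (.cons (.rf (nat_lit 65) (nat_lit 677582165103132179601393696)) (.cons (.rf (nat_lit 65) (nat_lit 640068866354836435435096096)) .nil))),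
 (.br (nat_lit 10) (nat_lit 0) (.cons (.rf (nat_lit 66) (nat_lit 677582165103132179601393696)) (.cons (.br (nat_lit 16) (nat_lit 0) (.cons (.ev (nat_lit 340287579579434764457010239641730744577) (nat_lit 1)) (.cons (.ev (nat_lit 524715409812448753295578550754324928398851) (nat_lit 3)) .nil))) .nil))),
 (.br (nat_lit 8) (nat_lit 1) (.cons (.br (nat_lit 9) (nat_lit 1) (.cons (.br (nat_lit 12) (nat_lit 0) (.cons (.br (nat_lit 12) (nat_lit 0) (.cons (.br (nat_lit 14) (nat_lit 1) (.cons (.br (nat_lit 13) (nat_lit 0) (.cons (.br (nat_lit 14) (nat_lit 0) (.cons (.rf (nat_lit 63) (nat_lit 583706118939841765935136)) (.cons (.rf (nat_lit 63) (nat_lit 583706084036944653813792)) (.cons (.ev (nat_lit 10404955354840562005330956130583043) (nat_lit 2)) (.cons (.br (nat_lit 15) (nat_lit 0) (.cons (.rf (nat_lit 63) (nat_lit 547107778697602015528992)) (.cons (.rf (nat_lit 63) (nat_lit 547107743794704903407648)) (.cons (.br (nat_lit 16) (nat_lit 0) (.cons (.rf (nat_lit 64) (nat_lit 19926519232773908561233952))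 (.cons (.rf (nat_lit 64) (nat_lit 19926519197871011449112608)) (.cons (.br (nat_lit 10) (nat_lit 0) (.cons (.br (nat_lit 10) (nat_lit 0) (.cons (.zr (nat_lit 1361129467683753877557852794820082271749) (nat_lit 2668860946929503270280428449799208960) (nat_lit 16) (nat_lit 1)) .nil)) (.cons (.br (nat_lit 10) (nat_lit 0) (.cons (.zr (nat_lit 1361129467683753877557852794820082271749) (nat_lit 2668860946929503270280428449799208960) (nat_lit 16) (nat_lit 1)) .nil)) .nil))) .nil)))) (.cons (.br (nat_lit 10) (nat_lit 0) (.cons (.rf (nat_lit 66) (nat_lit 677582165103132179601393696)) (.cons (.rf (nat_lit 67) (nat_lit 677582165103132179601393696)) (.cons (.rf (nat_lit 67) (nat_lit 640068866354836435435096096)) .nil)))) .nil))))) .nil))))) .nil)) .nil)) .nil)) .nil)) .nil)) .nil)),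
 (.br (nat_lit 4) (nat_lit 1) (.cons (.rf (nat_lit 40) (nat_lit 205621280)) (.cons (.br (nat_lit 5) (nat_lit 0) (.cons (.br (nat_lit 7) (nat_lit 1) (.cons (.br (nat_lit 7) (nat_lit 1) (.cons (.br (nat_lit 8) (nat_lit 0) (.cons (.br (nat_lit 9) (nat_lit 0) (.cons (.br (nat_lit 8) (nat_lit 1) (.cons (.br (nat_lit 9) (nat_lit 1) (.cons (.ev (nat_lit 72340172838076673) (nat_lit 1)) (.cons (.rf (nat_lit 5) (nat_lit 12022190176)) .nil))) (.cons (.kr (nat_lit 18446744073709551616) (nat_lit 4722366482869645213696) (nat_lit 8) (nat_lit 0)) (.cons (.br (nat_lit 9) (nat_lit 1) (.cons (.rf (nat_lit 5) (nat_lit 12021174368)) (.cons (.ev (nat_lit 4740885285636904386816) (nat_lit 1)) (.cons (.br (nat_lit 6) (nat_lit 1) (.cons (.rf (nat_lit 41) (nat_lit 14242959524133701664)) (.cons (.rf (nat_lit 41) (nat_lit 13126032731685357600)) .nil))) .nil)))) .nil)))) .nil)) .nil)) .nil)) .nil)) (.cons (.br (nat_lit 6) (nat_lit 1) (.cons (.rf (nat_lit 57) (nat_lit 9043225708576)) (.cons (.br (nat_lit 6) (nat_lit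 1) (.cons (.rf (nat_lit 57) (nat_lit 10142737336352)) (.cons (.br (nat_lit 7) (nat_lit 0) (.cons (.rf (nat_lit 62) (nat_lit 11584701642934304)) (.cons (.br (nat_lit 7) (nat_lit 0) (.cons (.rf (nat_lit 62) (nat_lit 12710601549776928)) (.cons (.br (nat_lit 8) (nat_lit 1) (.cons (.rf (nat_lit 68) (nat_lit 407901468851537952)) (.cons (.br (nat_lit 8) (nat_lit 1) (.cons (.rf (nat_lit 68) (nat_lit 407901468851537952)) (.cons (.rf (nat_lit 6) (nat_lit 6724915296)) .nil))) .nil))) .nil))) .nil))) .nil))) .nil))) .nil))) .nil))),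
 (.br (nat_lit 7) (nat_lit 0) (.cons (.br (nat_lit 8) (nat_lit 0) (.cons (.kr (nat_lit 281474976710656) (nat_lit 72057594037927936) (nat_lit 6) (nat_lit 0)) (.cons (.br (nat_lit 8) (nat_lit 0) (.cons (.kr (nat_lit 281474976710656) (nat_lit 72057594037927936) (nat_lit 6) (nat_lit 0)) .nil)) .nil))) .nil)),
 (.br (nat_lit 7) (nat_lit 0) (.cons (.br (nat_lit 8) (nat_lit 0) (.cons (.kr (nat_lit 18446744073709551616) (nat_lit 4722366482869645213696) (nat_lit 8) (nat_lit 0)) .nil)) .nil)),
 (.br (nat_lit 4) (nat_lit 1) (.cons (.br (nat_lit 10) (nat_lit 1) (.cons (.ev (nat_lit 309503917951885560114118916) (nat_lit 3)) (.cons (.rf (nat_lit 5) (nat_lit 13096816928)) .nil))) (.cons (.ev (nat_lit 1213648186097503114952961) (nat_lit 1)) (.cons (.rf (nat_lit 32) (nat_lit 13734353276340256)) .nil)))),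
 (.br (nat_lit 6) (nat_lit 0) (.cons (.br (nat_lit 7) (nat_lit 0) (.cons (.br (nat_lit 8) (nat_lit 0) (.cons (.br (nat_lit 9) (nat_lit 0) .nil) .nil)) (.cons (.rf (nat_lit 42) (nat_lit 325702574508064)) .nil))) .nil)),
 (.br (nat_lit 7) (nat_lit 0) (.cons (.br (nat_lit 8) (nat_lit 0) (.cons (.kr (nat_lit 18446744073709551616) (nat_lit 4722366482869645213696) (nat_lit 8) (nat_lit 0)) .nil)) .nil)),
 (.br (nat_lit 5) (nat_lit 0) (.cons (.br (nat_lit 6) (nat_lit 0) (.cons (.br (nat_lit 7) (nat_lit 0) (.cons (.br (nat_lit 8) (nat_lit 0) (.cons (.br (nat_lit 8) (nat_lit 0) .nil) .nil)) .nil)) .nil)) (.cons (.br (nat_lit 6) (nat_lit 0) (.cons (.rf (nat_lit 73) (nat_lit 247132686368)) (.cons (.br (nat_lit 6) (nat_lit 0) (.cons (.rf (nat_lit 73) (nat_lit 247132686368)) (.cons (.br (nat_lit 7) (nat_lit 0) (.cons (.rf (nat_lit 74) (nat_lit 325702574508064)) (.cons (.rf (nat_lit 74) (nat_lit 291617714047008)) .nil))) .nil))) .nil))) .nil))),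
 (.br (nat_lit 8) (nat_lit 1) (.cons (.br (nat_lit 8) (nat_lit 1) (.cons (.br (nat_lit 9) (nat_lit 0) (.cons (.br (nat_lit 10) (nat_lit 0) (.cons (.br (nat_lit 7) (nat_lit 0) (.cons (.br (nat_lit 9) (nat_lit 1) (.cons (.rf (nat_lit 72) (nat_lit 407901468851537952)) (.cons (.rf (nat_lit 72) (nat_lit 407901466706053155)) (.cons (.kr (nat_lit 4722366482869645213696) (nat_lit 1208925819614629174706176) (nat_lit 9) (nat_lit 0)) (.cons (.br (nat_lit 10) (nat_lit 1) (.cons (.rf (nat_lit 72) (nat_lit 406810753316784160)) (.cons (.rf (nat_lit 72) (nat_lit 406810751171299363)) (.cons (.rf (nat_lit 69) (nat_lit 247803145)) (.cons (.rf (nat_lit 38) (nat_lit 482108714522871840)) .nil))))) .nil))))) (.cons (.rf (nat_lit 75) (nat_lit 13262623809)) .nil))) .nil)) .nil)) .nil)) .nil)),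
 (.br (nat_lit 12) (nat_lit 0) (.cons (.zr (nat_lit 20441486107625661408299160965641) (nat_lit 73788383691198038016) (nat_lit 40) (nat_lit 1)) (.cons (.ev (nat_lit 20441490943329373054635991891969) (nat_lit 3)) (.cons (.br (nat_lit 8) (nat_lit 0) (.cons (.br (nat_lit 9) (nat_lit 0) (.cons (.ev (nat_lit 79229376180897460641066975488) (nat_lit 1)) (.cons (.rf (nat_lit 51) (nat_lit 538151226676289)) .nil))) (.cons (.br (nat_lit 14) (nat_lit 0) (.cons (.ev (nat_lit 10405034586625113059402889532932609) (nat_lit 2)) (.cons (.rf (nat_lit 49) (nat_lit 538151226676289)) .nil))) (.cons (.br (nat_lit 9) (nat_lit 0) (.cons (.br (nat_lit 9) (nat_lit 0) (.cons (.ev (nat_lit 79229376180969519334616465408) (nat_lit 1)) .nil)) (.cons (.br (nat_lit 9) (nat_lit 0) (.cons (.ev (nat_lit 79229376180969519334616465408) (nat_lit 1)) .nil)) .nil))) .nil)))) .nil)))),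
 (.br (nat_lit 8) (nat_lit 0) (.cons (.zr (nat_lit 159075295048459595700806617607) (nat_lit 20282410812651277859309080150016) (nat_lit 24) (nat_lit 1)) (.cons (.rf (nat_lit 46) (nat_lit 537951510697025)) .nil))),
 (.br (nat_lit 4) (nat_lit 0) (.cons (.br (nat_lit 5) (nat_lit 0) (.cons (.kr (nat_lit 4294967296) (nat_lit 1099511627776) (nat_lit 4) (nat_lit 0)) .nil)) .nil)),
 (.br (nat_lit 4) (nat_lit 0) (.cons (.rf (nat_lit 79) (nat_lit 325702574508064)) (.cons (.br (nat_lit 4) (nat_lit 0) (.cons (.rf (nat_lit 79) (nat_lit 325702574508064)) .nil)) .nil))),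
 (.br (nat_lit 9) (nat_lit 0) (.cons (.ev (nat_lit 10404876749270104173417839894594049) (nat_lit 2)) (.cons (.zr (nat_lit 159075295048459595700806617607) (nat_lit 20282410822059117336900951474176) (nat_lit 24) (nat_lit 1)) .nil))),
 (.br (nat_lit 8) (nat_lit 0) (.cons (.rf (nat_lit 81) (nat_lit 583706118939841765935136)) (.cons (.rf (nat_lit 81) (nat_lit 547106661804894427645984)) .nil))),
 (.br (nat_lit 8) (nat_lit 0) (.cons (.rf (nat_lit 82) (nat_lit 583706118939841765935136)) (.cons (.br (nat_lit 14) (nat_lit 0) (.cons (.ev (nat_lit 10404876749270104173417839894594049) (nat_lit 2)) (.cons (.ev (nat_lit 2668860867702549755622123237034821121) (nat_lit 3)) .nil))) .nil))),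
 (.br (nat_lit 10) (nat_lit 0) (.cons (.br (nat_lit 10) (nat_lit 0) (.cons (.br (nat_lit 11) (nat_lit 1) (.cons (.br (nat_lit 12) (nat_lit 1) (.cons (.br (nat_lit 13) (nat_lit 1) (.cons (.br (nat_lit 11) (nat_lit 0) (.cons (.rf (nat_lit 77) (nat_lit 493858305440582043680)) (.cons (.rf (nat_lit 77) (nat_lit 493858271355721582624)) (.cons (.ev (nat_lit 310693935641241172893040896) (nat_lit 1)) (.cons (.br (nat_lit 12) (nat_lit 0) (.cons (.rf (nat_lit 77) (nat_lit 492741412732994160672)) (.cons (.rf (nat_lit 77) (nat_lit 492741378648133699616)) (.cons (.br (nat_lit 14) (nat_lit 0) (.cons (.rf (nat_lit 78) (nat_lit 17022140995484340291616)) (.cons (.rf (nat_lit 78) (nat_lit 17022140961399479830560)) (.cons (.rf (nat_lit 80) (nat_lit 543583182754881)) .nil)))) (.cons (.br (nat_lit 8) (nat_lit 0) (.cons (.rf (nat_lit 82) (nat_lit 583706118939841765935136)) (.cons (.rf (nat_lit 83) (nat_lit 583706118939841765935136)) (.cons (.rf (nat_lit 83) (nat_lit 547106661804894427645984)) .nil)))) .nil)))))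 .nil))))) (.cons (.rf (nat_lit 5) (nat_lit 15247446336)) .nil))) .nil)) .nil)) .nil)) .nil)),
 (.br (nat_lit 6) (nat_lit 1) (.cons (.rf (nat_lit 34) (nat_lit 244920256544)) .nil)),
 (.br (nat_lit 7) (nat_lit 0) (.cons (.br (nat_lit 8) (nat_lit 1) (.cons (.rf (nat_lit 85) (nat_lit 9905016928)) .nil)) .nil)),
 (.br (nat_lit 15) (nat_lit 0) (.cons (.ev (nat_lit 2668860950332629673856542893702252043) (nat_lit 4)) (.cons (.ev (nat_lit 8006542118430552176197195155705693187) (nat_lit 3)) (.cons (.br (nat_lit 8) (nat_lit 0) (.cons (.br (nat_lit 9) (nat_lit 0) (.cons (.ev (nat_lit 2658476353518301329010633683796886017) (nat_lit 2)) (.cons (.rf (nat_lit 51) (nat_lit 608588794139713)) .nil))) (.cons (.rf (nat_lit 50) (nat_lit 350791548054373763104)) (.cons (.br (nat_lit 9) (nat_lit 0) (.cons (.br (nat_lit 9) (nat_lit 0) (.cons (.ev (nat_lit 2658476353518301329154751070895865857) (nat_lit 2)) .nil)) (.cons (.br (nat_lit 9) (nat_lit 0) (.cons (.ev (nat_lit 2658476353518301329154751070895865857) (nat_lit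 2)) .nil)) .nil))) .nil)))) .nil))))]

theorem c1 : chkAll C T R L1 (nat_lit 53) = true := by decide +kernel

theorem l1 : (nat_lit 53) + L1.length = (nat_lit 88) := by decide +kernel

/-- part of the certificates -/
def L2 : List Prf := [(.br (nat_lit 9) (nat_lit 0) (.cons (.ev (nat_lit 340287559218107692226716437798834995457) (nat_lit 1)) (.cons (.ev (nat_lit 18681904459587838669360961789086009859) (nat_lit 4)) .nil))),
 (.br (nat_lit 8) (nat_lit 0) (.cons (.rf (nat_lit 88) (nat_lit 677582165103132179601393696)) (.cons (.rf (nat_lit 88) (nat_lit 640068866354836435435096096)) .nil))),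
 (.br (nat_lit 8) (nat_lit 0) (.cons (.rf (nat_lit 89) (nat_lit 677582165103132179601393696)) (.cons (.br (nat_lit 16) (nat_lit 0) (.cons (.ev (nat_lit 340287559218107692226716437798834995457) (nat_lit 1)) (.cons (.ev (nat_lit 524715409812450923284312854527302034654727) (nat_lit 3)) .nil))) .nil))),
 (.br (nat_lit 6) (nat_lit 1) (.cons (.br (nat_lit 7) (nat_lit 1) (.cons (.br (nat_lit 8) (nat_lit 0) (.cons (.br (nat_lit 8) (nat_lit 0) (.cons (.br (nat_lit 10) (nat_lit 1) (.cons (.br (nat_lit 9) (nat_lit 0) (.cons (.kr (nat_lit 18518802767259107329) (nat_lit 4722366764348933668864) (nat_lit 0) (nat_lit 1)) .nil)) .nil)) .nil)) .nil)) .nil)) .nil)),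
 (.br (nat_lit 6) (nat_lit 1) (.cons (.rf (nat_lit 91) (nat_lit 247132686368)) (.cons (.br (nat_lit 6) (nat_lit 1) (.cons (.rf (nat_lit 91) (nat_lit 247132686368)) (.cons (.rf (nat_lit 5) (nat_lit 5506079016)) .nil))) .nil))),
 (.br (nat_lit 4) (nat_lit 1) (.cons (.rf (nat_lit 84) (nat_lit 11584701642934304)) (.cons (.br (nat_lit 6) (nat_lit 1) (.cons (.br (nat_lit 10) (nat_lit 1) (.cons (.rf (nat_lit 86) (nat_lit 388900161568)) (.cons (.br (nat_lit 11) (nat_lit 1) (.cons (.br (nat_lit 11) (nat_lit 1) (.cons (.br (nat_lit 12) (nat_lit 0) (.cons (.br (nat_lit 12) (nat_lit 0) (.cons (.br (nat_lit 14) (nat_lit 1) (.cons (.br (nat_lit 13) (nat_lit 0) (.cons (.br (nat_lit 14) (nat_lit 0) (.cons (.rf (nat_lit 87) (nat_lit 583706118939841765935136)) (.cons (.rf (nat_lit 87) (nat_lit 583706118905756905474080)) (.cons (.ev (nat_lit 10404955665529756833626669185106433) (nat_lit 2)) (.cons (.br (nat_lit 15) (nat_lit 0) (.cons (.rf (nat_lit 87) (nat_lit 547107778697602015528992)) (.cons (.rf (nat_lit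 87) (nat_lit 547107778663517155067936)) (.cons (.rf (nat_lit 69) (nat_lit 548847052)) (.cons (.br (nat_lit 8) (nat_lit 0) (.cons (.rf (nat_lit 89) (nat_lit 677582165103132179601393696)) (.cons (.rf (nat_lit 90) (nat_lit 677582165103132179601393696)) (.cons (.rf (nat_lit 90) (nat_lit 640068866354836435435096096)) .nil)))) .nil))))) .nil))))) .nil)) .nil)) .nil)) .nil)) .nil)) .nil)) .nil))) (.cons (.rf (nat_lit 84) (nat_lit 12710599404292131)) (.cons (.rf (nat_lit 92) (nat_lit 388900161568)) .nil)))) .nil))),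
 (.br (nat_lit 6) (nat_lit 0) (.cons (.br (nat_lit 6) (nat_lit 0) (.cons (.br (nat_lit 8) (nat_lit 1) (.cons (.br (nat_lit 9) (nat_lit 1) (.cons (.rf (nat_lit 32) (nat_lit 8067467125557280)) .nil)) .nil)) .nil)) .nil)),
 (.br (nat_lit 4) (nat_lit 1) (.cons (.rf (nat_lit 93) (nat_lit 325702574508064)) (.cons (.rf (nat_lit 4) (nat_lit 3510592)) (.cons (.rf (nat_lit 94) (nat_lit 388900161568)) .nil)))),
 (.br (nat_lit 5) (nat_lit 1) (.cons (.kr (nat_lit 1099511627777) (nat_lit 4311744512) (nat_lit 0) (nat_lit 1)) (.cons (.rf (nat_lit 94) (nat_lit 214887827491)) .nil))),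
 (.br (nat_lit 3) (nat_lit 1) (.cons (.rf (nat_lit 69) (nat_lit 172066848)) (.cons (.rf (nat_lit 3) (nat_lit 6293539)) (.cons (.br (nat_lit 5) (nat_lit 0) (.cons (.br (nat_lit 7) (nat_lit 1) (.cons (.br (nat_lit 8) (nat_lit 0) (.cons (.br (nat_lit 9) (nat_lit 0) (.cons (.br (nat_lit 10) (nat_lit 0) (.cons (.br (nat_lit 10) (nat_lit 0) (.cons (.br (nat_lit 11) (nat_lit 0) (.cons (.rf (nat_lit 70) (nat_lit 424473236545)) (.cons (.br (nat_lit 11) (nat_lit 0) (.cons (.rf (nat_lit 70) (nat_lit 424473236545)) (.cons (.br (nat_lit 12) (nat_lit 0) (.cons (.rf (nat_lit 71) (nat_lit 507299333641281)) (.cons (.rf (nat_lit 71) (nat_lit 473214473180225)) .nil))) .nil))) .nil))) .nil)) .nil)) .nil)) .nil)) .nil)) (.cons (.br (nat_lit 7) (nat_lit 0) (.cons (.rf (nat_lit 76) (nat_lit 9043225708576)) (.cons (.br (nat_lit 7) (nat_lit 0) (.cons (.rf (nat_lit 76) (nat_lit 10142737336352)) (.cons (.br (nat_lit 4) (nat_lit 1) (.cons (.rf (nat_lit 93) (nat_lit 325702574508064)) (.cons (.rf (nat_lit 95) (nat_lit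 11584701642934304)) (.cons (.br (nat_lit 4) (nat_lit 1) (.cons (.rf (nat_lit 93) (nat_lit 325702574508064)) (.cons (.rf (nat_lit 94) (nat_lit 355614165024)) (.cons (.br (nat_lit 6) (nat_lit 1) (.cons (.rf (nat_lit 96) (nat_lit 388900161568)) (.cons (.rf (nat_lit 96) (nat_lit 355614165024)) (.cons (.rf (nat_lit 95) (nat_lit 13836499311134755)) .nil)))) .nil)))) .nil)))) .nil))) .nil))) .nil))) .nil)))),
 (.br (nat_lit 6) (nat_lit 0) (.cons (.ev (nat_lit 1213648620421093122965764) (nat_lit 3)) (.cons (.rf (nat_lit 75) (nat_lit 13222745377)) .nil))),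
 (.br (nat_lit 12) (nat_lit 0) (.cons (.br (nat_lit 13) (nat_lit 0) (.cons (.zr (nat_lit 81129947899635165957713570039297) (nat_lit 316915077353429545393290608640) (nat_lit 8) (nat_lit 1)) (.cons (.rf (nat_lit 46) (nat_lit 543612201211169)) .nil))) .nil)),
 (.br (nat_lit 12) (nat_lit 0) (.cons (.ev (nat_lit 79537652264898910705151901953) (nat_lit 1)) (.cons (.rf (nat_lit 49) (nat_lit 507293924168961)) .nil))),
 (.br (nat_lit 14) (nat_lit 0) (.cons (.ev (nat_lit 10384752485297563765677327889989635) (nat_lit 2)) .nil)),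
 (.br (nat_lit 12) (nat_lit 0) (.cons (.ev (nat_lit 158773063611786516317237280773) (nat_lit 3)) (.cons (.br (nat_lit 6) (nat_lit 0) (.cons (.rf (nat_lit 100) (nat_lit 531941906107777255456)) (.cons (.br (nat_lit 14) (nat_lit 0) (.cons (.ev (nat_lit 10384594028981980114080877735051779) (nat_lit 2)) (.cons (.rf (nat_lit 51) (nat_lit 543612201211169)) .nil))) (.cons (.br (nat_lit 13) (nat_lit 0) (.cons (.rf (nat_lit 101) (nat_lit 583706118939841765935136)) (.cons (.br (nat_lit 13) (nat_lit 0) (.cons (.rf (nat_lit 101) (nat_lit 583706118939841765935136)) .nil)) .nil))) .nil)))) .nil))),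
 (.br (nat_lit 6) (nat_lit 0) (.cons (.br (nat_lit 6) (nat_lit 0) .nil) .nil)),
 (.br (nat_lit 12) (nat_lit 0) (.cons (.zr (nat_lit 158461160731879197899189649408) (nat_lit 40565128711221075431465487959041) (nat_lit 8) (nat_lit 12)) .nil)),
 (.br (nat_lit 6) (nat_lit 0) (.cons (.rf (nat_lit 102) (nat_lit 493858305440582043680)) (.cons (.br (nat_lit 13) (nat_lit 0) (.cons (.rf (nat_lit 102) (nat_lit 235306360466612529448)) (.cons (.br (nat_lit 14) (nat_lit 0) (.cons (.ev (nat_lit 20890882201255693899701773024625157) (nat_lit 3)) (.cons (.rf (nat_lit 103) (nat_lit 543618650805313)) .nil))) (.cons (.br (nat_lit 12) (nat_lit 0) (.cons (.rf (nat_lit 104) (nat_lit 583706118939841765935136)) (.cons (.rf (nat_lit 104) (nat_lit 546849226752628046014760)) .nil))) .nil)))) .nil))),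
 (.br (nat_lit 12) (nat_lit 0) (.cons (.rf (nat_lit 102) (nat_lit 235306360466612529448)) (.cons (.ev (nat_lit 79537652264899192180111900928) (nat_lit 1)) .nil))),
 (.br (nat_lit 5) (nat_lit 0) (.cons (.rf (nat_lit 98) (nat_lit 407901468851537952)) (.cons (.ev (nat_lit 1213648186098598348325121) (nat_lit 1)) (.cons (.br (nat_lit 10) (nat_lit 0) (.cons (.br (nat_lit 6) (nat_lit 0) (.cons (.zr (nat_lit 311902880123495580960948737) (nat_lit 28334200023139252961280) (nat_lit 8) (nat_lit 1)) (.cons (.br (nat_lit 12) (nat_lit 0) (.cons (.rf (nat_lit 99) (nat_lit 493858305440582043680)) (.cons (.br (nat_lit 12) (nat_lit 0) (.cons (.rf (nat_lit 99) (nat_lit 493858305440582043680)) (.cons (.rf (nat_lit 80) (nat_lit 464340170183969)) .nil))) .nil))) .nil))) (.cons (.rf (nat_lit 98) (nat_lit 110373525742004520)) (.cons (.br (nat_lit 6) (nat_lit 0) (.cons (.rf (nat_lit 102) (nat_lit 493858305440582043680)) (.cons (.rf (nat_lit 105) (nat_lit 493858305440582043680)) (.cons (.br (nat_lit 6) (nat_lit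 0) (.cons (.rf (nat_lit 102) (nat_lit 493858305440582043680)) (.cons (.rf (nat_lit 105) (nat_lit 493858305440582043680)) (.cons (.br (nat_lit 12) (nat_lit 0) (.cons (.rf (nat_lit 102) (nat_lit 235306360466612529448)) (.cons (.rf (nat_lit 106) (nat_lit 583706118939841765935136)) (.cons (.rf (nat_lit 106) (nat_lit 547107778697602015528992)) .nil)))) .nil)))) .nil)))) .nil)))) .nil)))),
 (.br (nat_lit 6) (nat_lit 0) (.cons (.ev (nat_lit 79228167236703160636027240705) (nat_lit 1)) (.cons (.ev (nat_lit 316766917601412079413363717) (nat_lit 3)) (.cons (.br (nat_lit 12) (nat_lit 0) (.cons (.ev (nat_lit 158773082501540673756743468037) (nat_lit 3)) (.cons (.kr (nat_lit 79228162514336395187581943808) (nat_lit 4722366764348916891648) (nat_lit 2) (nat_lit 0)) (.cons (.br (nat_lit 13) (nat_lit 0) (.cons (.br (nat_lit 13) (nat_lit 0) (.cons (.ev (nat_lit 20361948464842461287255359160320) (nat_lit 1)) .nil)) (.cons (.br (nat_lit 13) (nat_lit 0) (.cons (.ev (nat_lit 20361948464842461287255359160320) (nat_lit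 1)) .nil)) .nil))) .nil)))) .nil)))),
 (.br (nat_lit 7) (nat_lit 0) (.cons (.br (nat_lit 7) (nat_lit 0) .nil) .nil)),
 (.br (nat_lit 12) (nat_lit 0) (.cons (.ev (nat_lit 10384752485297563765112178913444355) (nat_lit 2)) (.cons (.rf (nat_lit 109) (nat_lit 543618650805313)) .nil))),
 (.br (nat_lit 12) (nat_lit 0) (.cons (.br (nat_lit 13) (nat_lit 0) (.cons (.ev (nat_lit 1334562824109027510696089435299184900) (nat_lit 3)) .nil)) .nil)),
 (.br (nat_lit 13) (nat_lit 0) (.cons (.ev (nat_lit 10384594028981980113520126805016579) (nat_lit 2)) (.cons (.br (nat_lit 14) (nat_lit 0) (.cons (.ev (nat_lit 1334562824109027510696089435299184900) (nat_lit 3)) .nil)) .nil))),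
 (.br (nat_lit 12) (nat_lit 0) (.cons (.rf (nat_lit 112) (nat_lit 583706118939841765935136)) (.cons (.rf (nat_lit 112) (nat_lit 547107778697600975340608)) .nil))),
 (.br (nat_lit 12) (nat_lit 0) (.cons (.rf (nat_lit 113) (nat_lit 583706118939841765935136)) (.cons (.br (nat_lit 14) (nat_lit 0) (.cons (.ev (nat_lit 10384594028981980113520126805016579) (nat_lit 2)) (.cons (.ev (nat_lit 1334420372181102965431529736721465600) (nat_lit 1)) .nil))) .nil))),
 (.br (nat_lit 5) (nat_lit 0) (.cons (.rf (nat_lit 108) (nat_lit 493858305440582043680)) (.cons (.rf (nat_lit 108) (nat_lit 458116648082235033632)) (.cons (.br (nat_lit 6) (nat_lit 0) (.cons (.rf (nat_lit 108) (nat_lit 493858305439541855296)) (.cons (.rf (nat_lit 108) (nat_lit 458116648081194845248)) (.cons (.br (nat_lit 14) (nat_lit 0) (.cons (.rf (nat_lit 110) (nat_lit 17022140995484340291616)) (.cons (.rf (nat_lit 110) (nat_lit 16986399338125993281568)) (.cons (.br (nat_lit 12) (nat_lit 0) (.cons (.rf (nat_lit 111) (nat_lit 583706118939841765935136))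 (.cons (.br (nat_lit 12) (nat_lit 0) (.cons (.rf (nat_lit 111) (nat_lit 583706118939841765935136)) .nil)) .nil))) .nil)))) (.cons (.br (nat_lit 12) (nat_lit 0) (.cons (.rf (nat_lit 113) (nat_lit 583706118939841765935136)) (.cons (.rf (nat_lit 114) (nat_lit 583706118939841765935136)) (.cons (.rf (nat_lit 114) (nat_lit 547107778697600975340608)) .nil)))) .nil))))) .nil)))),
 (.br (nat_lit 6) (nat_lit 0) (.cons (.ev (nat_lit 79537652264899191080617050113) (nat_lit 1)) .nil)),
 (.br (nat_lit 6) (nat_lit 0) (.cons (.rf (nat_lit 116) (nat_lit 17022140995484340291616)) (.cons (.rf (nat_lit 116) (nat_lit 15877325936121899747360)) .nil))),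
 (.br (nat_lit 12) (nat_lit 0) (.cons (.ev (nat_lit 158773082501540673756743468037) (nat_lit 3)) (.cons (.ev (nat_lit 20361948464842461006879894012160) (nat_lit 1)) (.cons (.br (nat_lit 13) (nat_lit 0) (.cons (.ev (nat_lit 40565133556369446582945099154437) (nat_lit 3)) (.cons (.kr (nat_lit 20282409608374036906816896499712) (nat_lit 79229371440083952222718656512) (nat_lit 9) (nat_lit 0)) (.cons (.rf (nat_lit 117) (nat_lit 18240816216868946806816)) .nil)))) .nil)))),
 (.br (nat_lit 6) (nat_lit 0) (.cons (.ev (nat_lit 10384594028981980114080877735051779) (nat_lit 2)) (.cons (.rf (nat_lit 109) (nat_lit 543612201211169)) .nil))),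
 (.br (nat_lit 6) (nat_lit 0) (.cons (.br (nat_lit 13) (nat_lit 0) (.cons (.ev (nat_lit 1334562824109027510696089435299184900) (nat_lit 3)) .nil)) .nil)),
 (.br (nat_lit 6) (nat_lit 0) (.cons (.br (nat_lit 13) (nat_lit 0) (.cons (.ev (nat_lit 10384594028981980113520126805016579) (nat_lit 2)) (.cons (.br (nat_lit 14) (nat_lit 0) (.cons (.ev (nat_lit 1334562824109027510696089435299184900) (nat_lit 3)) .nil)) .nil))) (.cons (.br (nat_lit 13) (nat_lit 0) (.cons (.br (nat_lit 14) (nat_lit 0) (.cons (.ev (nat_lit 1334562824109027510696089435299184900) (nat_lit 3)) .nil)) (.cons (.ev (nat_lit 2658456150338059654315665306815693315) (nat_lit 2)) .nil))) .nil))),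
 (.br (nat_lit 6) (nat_lit 0) (.cons (.rf (nat_lit 121) (nat_lit 583706118939841765935136)) (.cons (.br (nat_lit 14) (nat_lit 0) (.cons (.ev (nat_lit 10384594028981980113520126805016579) (nat_lit 2)) (.cons (.ev (nat_lit 1334420372181102965431529736721465600) (nat_lit 1)) .nil))) .nil))),
 (.br (nat_lit 5) (nat_lit 0) (.cons (.rf (nat_lit 115) (nat_lit 493858305440582043680)) (.cons (.rf (nat_lit 118) (nat_lit 493858305440582043680)) (.cons (.br (nat_lit 12) (nat_lit 0) (.cons (.rf (nat_lit 118) (nat_lit 227235909934599481640)) (.cons (.rf (nat_lit 115) (nat_lit 227235909934599481640)) (.cons (.br (nat_lit 14) (nat_lit 0) (.cons (.rf (nat_lit 119) (nat_lit 17022140995484340291616)) (.cons (.rf (nat_lit 119) (nat_lit 16755518599978357729576)) (.cons (.br (nat_lit 6) (nat_lit 0) (.cons (.rf (nat_lit 120) (nat_lit 583706118939841765935136)) (.cons (.br (nat_lit 6) (nat_lit 0) (.cons (.rf (nat_lit 120) (nat_lit 583706118939841765935136)) .nil)) .nil))) .nil)))) (.cons (.br (nat_lit 6) (nat_lit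 0) (.cons (.rf (nat_lit 121) (nat_lit 583706118939841765935136)) (.cons (.rf (nat_lit 122) (nat_lit 583706118939841765935136)) (.cons (.br (nat_lit 6) (nat_lit 0) (.cons (.rf (nat_lit 121) (nat_lit 583706118939841765935136)) (.cons (.rf (nat_lit 122) (nat_lit 583706118939841765935136)) .nil))) .nil)))) .nil))))) .nil)))),
 (.br (nat_lit 6) (nat_lit 0) (.cons (.rf (nat_lit 123) (nat_lit 493858305439541855296)) (.cons (.rf (nat_lit 123) (nat_lit 458116648081194845248)) (.cons (.kr (nat_lit 281474976710912) (nat_lit 1099511693312) (nat_lit 1) (nat_lit 0)) .nil)))),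
 (.br (nat_lit 8) (nat_lit 0) (.cons (.br (nat_lit 8) (nat_lit 0) (.cons (.br (nat_lit 9) (nat_lit 1) (.cons (.br (nat_lit 10) (nat_lit 1) (.cons (.br (nat_lit 11) (nat_lit 1) (.cons (.br (nat_lit 9) (nat_lit 0) (.cons (.rf (nat_lit 107) (nat_lit 407901468851537952)) (.cons (.rf (nat_lit 107) (nat_lit 407901467811349568)) (.cons (.kr (nat_lit 4722366482869645213696) (nat_lit 1208925819614629174706176) (nat_lit 9) (nat_lit 0)) (.cons (.br (nat_lit 10) (nat_lit 0) (.cons (.rf (nat_lit 107) (nat_lit 406810753316784160)) (.cons (.rf (nat_lit 107) (nat_lit 406810752276595776)) (.cons (.rf (nat_lit 97) (nat_lit 410364200)) (.cons (.br (nat_lit 5) (nat_lit 0) (.cons (.rf (nat_lit 115) (nat_lit 493858305440582043680)) (.cons (.rf (nat_lit 123) (nat_lit 493858305440582043680)) (.cons (.rf (nat_lit 123) (nat_lit 458116648082235033632)) (.cons (.br (nat_lit 5) (nat_lit 0) (.cons (.rf (nat_lit 115) (nat_lit 493858305440582043680)) (.cons (.rf (nat_lit 123) (nat_lit 493858305440582043680)) (.cons (.rf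 (nat_lit 123) (nat_lit 458116648082235033632)) (.cons (.br (nat_lit 6) (nat_lit 0) (.cons (.rf (nat_lit 123) (nat_lit 493858305439541855296)) (.cons (.rf (nat_lit 123) (nat_lit 458116648081194845248)) (.cons (.rf (nat_lit 124) (nat_lit 583706118939841765935136)) (.cons (.rf (nat_lit 124) (nat_lit 547107778697602015528992)) .nil))))) .nil))))) .nil))))) .nil))))) .nil))))) (.cons (.rf (nat_lit 5) (nat_lit 13131583584)) .nil))) .nil)) .nil)) .nil)) .nil))]

theorem c2 : chkAll C T R L2 (nat_lit 88) = true := by decide +kernel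

theorem l2 : (nat_lit 88) + L2.length = (nat_lit 126) := by decide +kernel

/-- part of the certificates -/
def L3 : List Prf := [(.br (nat_lit 14) (nat_lit 0) (.cons (.br (nat_lit 15) (nat_lit 0) (.cons (.ev (nat_lit 10675647404387040086074520902795135499) (nat_lit 4)) (.cons (.rf (nat_lit 46) (nat_lit 616248788850049)) .nil))) .nil)),
 (.br (nat_lit 16) (nat_lit 0) (.cons (.ev (nat_lit 680575159000723902561873933139311591427) (nat_lit 2)) .nil)),
 (.br (nat_lit 14) (nat_lit 0) (.cons (.kr (nat_lit 10384594027768331711247638224437249) (nat_lit 40564819207303557022875639742464) (nat_lit 0) (nat_lit 1)) (.cons (.br (nat_lit 6) (nat_lit 0) (.cons (.rf (nat_lit 100) (nat_lit 608106891926237710368)) (.cons (.br (nat_lit 16) (nat_lit 0) (.cons (.ev (nat_lit 680564774565463167416771999021393773057) (nat_lit 2)) (.cons (.rf (nat_lit 51) (nat_lit 616248788850049)) .nil))) (.cons (.br (nat_lit 15) (nat_lit 0) (.cons (.rf (nat_lit 127) (nat_lit 677582165103132179601393696)) (.cons (.br (nat_lit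 15) (nat_lit 0) (.cons (.rf (nat_lit 127) (nat_lit 677582165103132179601393696)) .nil)) .nil))) .nil)))) .nil))),
 (.br (nat_lit 14) (nat_lit 0) (.cons (.br (nat_lit 16) (nat_lit 0) (.cons (.zr (nat_lit 261338187023514830731158677529417775841280) (nat_lit 340298045223562086204756433845088223488) (nat_lit 8) (nat_lit 12)) .nil)) .nil)),
 (.br (nat_lit 6) (nat_lit 0) (.cons (.rf (nat_lit 128) (nat_lit 583706118939841765935136)) (.cons (.br (nat_lit 15) (nat_lit 0) (.cons (.br (nat_lit 14) (nat_lit 0) (.cons (.ev (nat_lit 5192376397391277606167960610734337) (nat_lit 1)) (.cons (.rf (nat_lit 49) (nat_lit 581863996855681)) .nil))) (.cons (.br (nat_lit 16) (nat_lit 0) (.cons (.ev (nat_lit 4101997595784842726563861039597865665037) (nat_lit 4)) (.cons (.rf (nat_lit 103) (nat_lit 616257389007937)) .nil))) (.cons (.br (nat_lit 14) (nat_lit 0) (.cons (.rf (nat_lit 129) (nat_lit 677582165103132179601393696)) (.cons (.br (nat_lit 14) (nat_lit 0) (.cons (.rf (nat_lit 129) (nat_lit 677582165103132179601393696))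 .nil)) .nil))) .nil)))) .nil))),
 (.br (nat_lit 15) (nat_lit 0) (.cons (.ev (nat_lit 683223189992213782377611748410822623747) (nat_lit 2)) (.cons (.br (nat_lit 16) (nat_lit 0) (.cons (.ev (nat_lit 683233574427474536485966590302092394497) (nat_lit 2)) .nil)) .nil))),
 (.br (nat_lit 14) (nat_lit 0) (.cons (.rf (nat_lit 131) (nat_lit 677582165103132179601393696)) (.cons (.rf (nat_lit 131) (nat_lit 640105464695078675185502240)) .nil))),
 (.br (nat_lit 14) (nat_lit 0) (.cons (.rf (nat_lit 132) (nat_lit 677582165103132179601393696)) (.cons (.ev (nat_lit 5192376086702082706377607716339968) (nat_lit 1)) .nil))),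
 (.br (nat_lit 5) (nat_lit 0) (.cons (.br (nat_lit 6) (nat_lit 0) (.cons (.ev (nat_lit 310765047915377489508303879) (nat_lit 4)) (.cons (.rf (nat_lit 75) (nat_lit 15470892417)) .nil))) (.cons (.ev (nat_lit 20361948464842461006879894012160) (nat_lit 1)) (.cons (.br (nat_lit 13) (nat_lit 0) (.cons (.br (nat_lit 6) (nat_lit 0) (.cons (.ev (nat_lit 122170137305154339988719462908427) (nat_lit 4)) (.cons (.br (nat_lit 14) (nat_lit 0) (.cons (.rf (nat_lit 126) (nat_lit 583706118939841765935136)) (.cons (.br (nat_lit 14) (nat_lit 0) (.cons (.rf (nat_lit 126) (nat_lit 583706118939841765935136)) (.cons (.rf (nat_lit 80) (nat_lit 534812062848385)) .nil))) .nil))) .nil))) (.cons (.br (nat_lit 14) (nat_lit 0) (.cons (.ev (nat_lit 10384594027777813409761317995282433) (nat_lit 2)) (.cons (.rf (nat_lit 75) (nat_lit 16187331969)) .nil))) (.cons (.br (nat_lit 6) (nat_lit 0) (.cons (.rf (nat_lit 128) (nat_lit 583706118939841765935136)) (.cons (.rf (nat_lit 130) (nat_lit 583706118939841765935136)) (.cons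 (.br (nat_lit 6) (nat_lit 0) (.cons (.rf (nat_lit 128) (nat_lit 583706118939841765935136)) (.cons (.rf (nat_lit 130) (nat_lit 583706118939841765935136)) (.cons (.br (nat_lit 14) (nat_lit 0) (.cons (.rf (nat_lit 132) (nat_lit 677582165103132179601393696)) (.cons (.rf (nat_lit 133) (nat_lit 677582165103132179601393696)) (.cons (.rf (nat_lit 133) (nat_lit 640105464695078675185502240)) .nil)))) .nil)))) .nil)))) .nil)))) .nil)))),
 (.br (nat_lit 8) (nat_lit 0) (.cons (.br (nat_lit 8) (nat_lit 0) .nil) .nil)),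
 (.br (nat_lit 7) (nat_lit 0) (.cons (.br (nat_lit 7) (nat_lit 0) .nil) .nil)),
 (.br (nat_lit 6) (nat_lit 0) (.cons (.ev (nat_lit 5192376397391277606167960610734337) (nat_lit 1)) (.cons (.br (nat_lit 14) (nat_lit 0) (.cons (.ev (nat_lit 31438369021696807171949801486027777) (nat_lit 4)) (.cons (.br (nat_lit 15) (nat_lit 0) (.cons (.ev (nat_lit 5337721894160043292152136583419527175) (nat_lit 3)) (.cons (.rf (nat_lit 135) (nat_lit 616257389007937)) .nil))) .nil))) (.cons (.br (nat_lit 14) (nat_lit 0) (.cons (.br (nat_lit 15) (nat_lit 0) (.cons (.ev (nat_lit 10644331205502724286257573011947129861) (nat_lit 4)) (.cons (.rf (nat_lit 135) (nat_lit 616248788850049)) .nil))) (.cons (.br (nat_lit 16) (nat_lit 0) (.cons (.ev (nat_lit 680564774565463167416771999021393773057) (nat_lit 2)) (.cons (.rf (nat_lit 136) (nat_lit 616257389007937)) .nil))) (.cons (.br (nat_lit 15) (nat_lit 0) (.cons (.br (nat_lit 15) (nat_lit 0) (.cons (.ev (nat_lit 1334440654281216866467380572398354433) (nat_lit 1)) .nil))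 (.cons (.br (nat_lit 15) (nat_lit 0) (.cons (.ev (nat_lit 1334440654281216866467380572398354433) (nat_lit 1)) .nil)) .nil))) .nil)))) .nil)))),
 (.br (nat_lit 14) (nat_lit 0) (.cons (.ev (nat_lit 680575159000723902561873367990335046147) (nat_lit 2)) (.cons (.rf (nat_lit 109) (nat_lit 616257389007937)) .nil))),
 (.br (nat_lit 14) (nat_lit 0) (.cons (.br (nat_lit 15) (nat_lit 0) (.cons (.zr (nat_lit 25961484914062009424854460523347968) (nat_lit 87456556003030177623872064407874142535936) (nat_lit 8) (nat_lit 12)) .nil)) .nil)),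
 (.br (nat_lit 15) (nat_lit 0) (.cons (.ev (nat_lit 680564774565463167416771438270463737857) (nat_lit 2)) (.cons (.br (nat_lit 16) (nat_lit 0) (.cons (.ev (nat_lit 5468454604860475567976544465112823759879) (nat_lit 5)) .nil)) .nil))),
 (.br (nat_lit 14) (nat_lit 0) (.cons (.rf (nat_lit 140) (nat_lit 677582165103132179601393696)) (.cons (.rf (nat_lit 140) (nat_lit 640105464695078674145313856)) .nil))),
 (.br (nat_lit 14) (nat_lit 0) (.cons (.rf (nat_lit 141) (nat_lit 677582165103132179601393696)) (.cons (.br (nat_lit 16) (nat_lit 0) (.cons (.ev (nat_lit 680564774565463167416771438270463737857) (nat_lit 2)) (.cons (.ev (nat_lit 87452573491057271812169980487572146684160) (nat_lit 1)) .nil))) .nil))),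
 (.br (nat_lit 5) (nat_lit 0) (.cons (.rf (nat_lit 137) (nat_lit 583706118939841765935136)) (.cons (.rf (nat_lit 137) (nat_lit 547072038130959203272736)) (.cons (.br (nat_lit 6) (nat_lit 0) (.cons (.rf (nat_lit 137) (nat_lit 583706118939840725746752)) (.cons (.rf (nat_lit 137) (nat_lit 547072038130958163084352)) (.cons (.br (nat_lit 16) (nat_lit 0) (.cons (.rf (nat_lit 138) (nat_lit 19926519232773908561233952)) (.cons (.rf (nat_lit 138) (nat_lit 19889885151965025998571552)) (.cons (.br (nat_lit 14) (nat_lit 0) (.cons (.rf (nat_lit 139) (nat_lit 677582165103132179601393696)) (.cons (.br (nat_lit 14) (nat_lit 0) (.cons (.rf (nat_lit 139) (nat_lit 677582165103132179601393696)) .nil)) .nil))) .nil)))) (.cons (.br (nat_lit 14) (nat_lit 0) (.cons (.rf (nat_lit 141) (nat_lit 677582165103132179601393696)) (.cons (.rf (nat_lit 142) (nat_lit 677582165103132179601393696)) (.cons (.rf (nat_lit 142) (nat_lit 640105464695078674145313856)) .nil)))) .nil))))) .nil)))),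
 (.br (nat_lit 14) (nat_lit 0) (.cons (.ev (nat_lit 5192376086697360411670861427310848) (nat_lit 1)) .nil)),
 (.br (nat_lit 6) (nat_lit 0) (.cons (.br (nat_lit 15) (nat_lit 0) (.cons (.zr (nat_lit 87112301508730671801492332195444512784640) (nat_lit 1022176389605829117218183017484926517248) (nat_lit 8) (nat_lit 12)) .nil)) .nil)),
 (.br (nat_lit 6) (nat_lit 0) (.cons (.br (nat_lit 15) (nat_lit 0) (.cons (.ev (nat_lit 680564774565463167416771438270463737857) (nat_lit 2)) (.cons (.br (nat_lit 16) (nat_lit 0) (.cons (.ev (nat_lit 4086057487976512384074183273832924577807) (nat_lit 4)) .nil)) .nil))) (.cons (.br (nat_lit 15) (nat_lit 0) (.cons (.kr (nat_lit 2668840585286906141877902056590671873) (nat_lit 310693935713582445209059328) (nat_lit 0) (nat_lit 1)) (.cons (.ev (nat_lit 174224582288679340268882923158192122888707) (nat_lit 2)) .nil))) .nil))),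
 (.br (nat_lit 6) (nat_lit 0) (.cons (.rf (nat_lit 146) (nat_lit 677582165103132179601393696)) (.cons (.br (nat_lit 16) (nat_lit 0) (.cons (.ev (nat_lit 680564774565463167416771438270463737857) (nat_lit 2)) (.cons (.ev (nat_lit 87452573491057271812169980487572146684160) (nat_lit 1)) .nil))) .nil))),
 (.br (nat_lit 5) (nat_lit 0) (.cons (.rf (nat_lit 143) (nat_lit 583706118939841765935136)) (.cons (.br (nat_lit 14) (nat_lit 0) (.cons (.ev (nat_lit 52207239543205023301790734089585669) (nat_lit 4)) (.cons (.ev (nat_lit 1334440654591915542993344436503576832) (nat_lit 1)) (.cons (.br (nat_lit 15) (nat_lit 0) (.cons (.ev (nat_lit 13292362196992604101993692836527473669) (nat_lit 4)) (.cons (.kr (nat_lit 1329228075013078387168144653824294912) (nat_lit 5212579268138479298954443580506112) (nat_lit 12) (nat_lit 0)) (.cons (.rf (nat_lit 117) (nat_lit 20678164444122229868576)) .nil)))) .nil)))) (.cons (.br (nat_lit 14) (nat_lit 0) (.cons (.br (nat_lit 6) (nat_lit 0) (.cons (.ev (nat_lit 52207239543205023302351485019620869)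 (nat_lit 4)) (.cons (.kr (nat_lit 281474976710912) (nat_lit 1099511693312) (nat_lit 1) (nat_lit 0)) (.cons (.br (nat_lit 15) (nat_lit 0) (.cons (.rf (nat_lit 144) (nat_lit 21174442659472880612509728)) (.cons (.rf (nat_lit 144) (nat_lit 20003295771721208567006272)) .nil))) .nil)))) (.cons (.br (nat_lit 15) (nat_lit 0) (.cons (.br (nat_lit 6) (nat_lit 0) (.cons (.ev (nat_lit 8006521756171431324600761537377207811) (nat_lit 3)) (.cons (.rf (nat_lit 135) (nat_lit 615938107357612)) .nil))) (.cons (.br (nat_lit 16) (nat_lit 0) (.cons (.ev (nat_lit 680564774565463167416771438270463737857) (nat_lit 2)) (.cons (.rf (nat_lit 136) (nat_lit 615948857030700)) .nil))) (.cons (.br (nat_lit 6) (nat_lit 0) (.cons (.br (nat_lit 6) (nat_lit 0) (.cons (.ev (nat_lit 1329248278194524265387740525374800128) (nat_lit 1)) .nil)) (.cons (.br (nat_lit 6) (nat_lit 0) (.cons (.ev (nat_lit 1329248278194524265387740525374800128) (nat_lit 1)) .nil)) .nil))) .nil)))) (.cons (.br (nat_lit 16) (nat_lit 0) (.cons (.br (nat_lit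 6) (nat_lit 0) (.cons (.ev (nat_lit 680564774565463167416771999021393773057) (nat_lit 2)) (.cons (.rf (nat_lit 109) (nat_lit 616248788850049)) .nil))) (.cons (.br (nat_lit 15) (nat_lit 0) (.cons (.ev (nat_lit 683223189992213782377611748410822623747) (nat_lit 2)) (.cons (.rf (nat_lit 109) (nat_lit 615948857316737)) .nil))) (.cons (.br (nat_lit 6) (nat_lit 0) (.cons (.rf (nat_lit 145) (nat_lit 677582165103132179601393696)) (.cons (.br (nat_lit 6) (nat_lit 0) (.cons (.rf (nat_lit 145) (nat_lit 677582165103132179601393696)) .nil)) .nil))) .nil)))) (.cons (.br (nat_lit 6) (nat_lit 0) (.cons (.rf (nat_lit 146) (nat_lit 677582165103132179601393696)) (.cons (.rf (nat_lit 147) (nat_lit 677582165103132179601393696)) (.cons (.br (nat_lit 6) (nat_lit 0) (.cons (.rf (nat_lit 146) (nat_lit 677582165103132179601393696)) (.cons (.rf (nat_lit 147) (nat_lit 677582165103132179601393696)) .nil))) .nil)))) .nil))))) .nil)))),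
 (.br (nat_lit 6) (nat_lit 0) (.cons (.rf (nat_lit 148) (nat_lit 583706118939840725746752)) (.cons (.rf (nat_lit 148) (nat_lit 547072038130958163084352)) (.cons (.kr (nat_lit 281474976710912) (nat_lit 1099511693312) (nat_lit 1) (nat_lit 0)) .nil)))),
 (.br (nat_lit 8) (nat_lit 1) (.cons (.br (nat_lit 9) (nat_lit 1) (.cons (.br (nat_lit 10) (nat_lit 0) (.cons (.br (nat_lit 10) (nat_lit 0) (.cons (.br (nat_lit 12) (nat_lit 1) (.cons (.br (nat_lit 11) (nat_lit 0) (.cons (.br (nat_lit 12) (nat_lit 0) (.cons (.rf (nat_lit 134) (nat_lit 493858305440582043680)) (.cons (.rf (nat_lit 134) (nat_lit 493858305439541855296)) (.cons (.kr (nat_lit 79228162514264337593543950336) (nat_lit 20282409603651670423947251286016) (nat_lit 12) (nat_lit 0)) (.cons (.br (nat_lit 13) (nat_lit 0) (.cons (.rf (nat_lit 134) (nat_lit 458117738797769787424)) (.cons (.rf (nat_lit 134) (nat_lit 458117738796729599040)) (.cons (.rf (nat_lit 97) (nat_lit 478524810)) (.cons (.br (nat_lit 5) (nat_lit 0) (.cons (.rf (nat_lit 143)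 (nat_lit 583706118939841765935136)) (.cons (.rf (nat_lit 148) (nat_lit 583706118939841765935136)) (.cons (.rf (nat_lit 148) (nat_lit 547072038130959203272736)) (.cons (.br (nat_lit 5) (nat_lit 0) (.cons (.rf (nat_lit 143) (nat_lit 583706118939841765935136)) (.cons (.rf (nat_lit 148) (nat_lit 583706118939841765935136)) (.cons (.rf (nat_lit 148) (nat_lit 547072038130959203272736)) (.cons (.br (nat_lit 6) (nat_lit 0) (.cons (.rf (nat_lit 148) (nat_lit 583706118939840725746752)) (.cons (.rf (nat_lit 148) (nat_lit 547072038130958163084352)) (.cons (.rf (nat_lit 149) (nat_lit 677582165103132179601393696)) (.cons (.rf (nat_lit 149) (nat_lit 640105464695078675185502240)) .nil))))) .nil))))) .nil))))) .nil))))) .nil))))) .nil)) .nil)) .nil)) .nil)) .nil)) .nil)),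
 (.br (nat_lit 4) (nat_lit 1) (.cons (.rf (nat_lit 40) (nat_lit 239175712)) (.cons (.br (nat_lit 7) (nat_lit 1) (.cons (.rf (nat_lit 125) (nat_lit 9043225708576)) (.cons (.br (nat_lit 7) (nat_lit 1) (.cons (.rf (nat_lit 125) (nat_lit 10142737336352)) (.cons (.br (nat_lit 8) (nat_lit 1) (.cons (.rf (nat_lit 150) (nat_lit 325702574508064)) (.cons (.br (nat_lit 8) (nat_lit 1) (.cons (.rf (nat_lit 150) (nat_lit 325702574508064)) (.cons (.rf (nat_lit 6) (nat_lit 7796494432)) .nil))) .nil))) .nil))) .nil))) .nil)))]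

theorem c3 : chkAll C T R L3 (nat_lit 126) = true := by decide +kernel

theorem l3 : (nat_lit 126) + L3.length = (nat_lit 152) := by decide +kernel

/-- part of the certificates -/
def L4 : List Prf := [(.br (nat_lit 6) (nat_lit 0) (.cons (.ev (nat_lit 1213722406267089940709636) (nat_lit 3)) (.cons (.rf (nat_lit 75) (nat_lit 13222745377)) .nil))),
 (.br (nat_lit 12) (nat_lit 0) (.cons (.br (nat_lit 13) (nat_lit 0) (.cons (.zr (nat_lit 243388917671116417282364772715015) (nat_lit 951047435199656313059961339904) (nat_lit 24) (nat_lit 1)) (.cons (.rf (nat_lit 46) (nat_lit 543612201211169)) .nil))) .nil)),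
 (.br (nat_lit 13) (nat_lit 0) (.cons (.ev (nat_lit 20282720302309677867618619359233) (nat_lit 1)) .nil)),
 (.br (nat_lit 12) (nat_lit 0) (.cons (.rf (nat_lit 154) (nat_lit 17022140995484340291616)) (.cons (.br (nat_lit 12) (nat_lit 0) (.cons (.rf (nat_lit 154) (nat_lit 17022140995484340291616)) .nil)) .nil))),
 (.br (nat_lit 12) (nat_lit 0) (.cons (.ev (nat_lit 475680878039640610430410424325) (nat_lit 3)) (.cons (.br (nat_lit 6) (nat_lit 0) (.cons (.br (nat_lit 13) (nat_lit 0) (.cons (.ev (nat_lit 40723587444693619470354566087169) (nat_lit 2)) (.cons (.rf (nat_lit 49) (nat_lit 543612201211169)) .nil))) (.cons (.br (nat_lit 14) (nat_lit 0) (.cons (.ev (nat_lit 5192296859748494261653548147147008) (nat_lit 1)) (.cons (.rf (nat_lit 51) (nat_lit 543612201211169)) .nil))) (.cons (.rf (nat_lit 155) (nat_lit 18240816216870055184416)) .nil)))) .nil))),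
 (.br (nat_lit 12) (nat_lit 0) (.cons (.zr (nat_lit 158461160731879197899189649408) (nat_lit 40565128711221075431465487959041) (nat_lit 8) (nat_lit 12)) .nil)),
 (.br (nat_lit 6) (nat_lit 0) (.cons (.rf (nat_lit 156) (nat_lit 493858305440582043680)) (.cons (.br (nat_lit 13) (nat_lit 0) (.cons (.rf (nat_lit 156) (nat_lit 235306360569688598824)) (.cons (.br (nat_lit 14) (nat_lit 0) (.cons (.ev (nat_lit 20809752562860050181557498492749317) (nat_lit 3)) (.cons (.rf (nat_lit 103) (nat_lit 543618650805313)) .nil))) (.cons (.br (nat_lit 12) (nat_lit 0) (.cons (.rf (nat_lit 157) (nat_lit 583706118939841765935136)) (.cons (.rf (nat_lit 157) (nat_lit 546849226752731122084136)) .nil))) .nil)))) .nil))),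
 (.br (nat_lit 12) (nat_lit 0) (.cons (.rf (nat_lit 156) (nat_lit 235306360569688598824)) (.cons (.ev (nat_lit 158765819538495840972181733889) (nat_lit 2)) .nil))),
 (.br (nat_lit 5) (nat_lit 0) (.cons (.rf (nat_lit 152) (nat_lit 407901468851537952)) (.cons (.ev (nat_lit 311912361749947272975614465) (nat_lit 2)) (.cons (.br (nat_lit 10) (nat_lit 0) (.cons (.br (nat_lit 6) (nat_lit 0) (.cons (.zr (nat_lit 16924961474618002702860295) (nat_lit 309532252152468333605814784) (nat_lit 24) (nat_lit 1)) (.cons (.br (nat_lit 12) (nat_lit 0) (.cons (.rf (nat_lit 153) (nat_lit 493858305440582043680)) (.cons (.br (nat_lit 12) (nat_lit 0) (.cons (.rf (nat_lit 153) (nat_lit 493858305440582043680)) (.cons (.rf (nat_lit 80) (nat_lit 464340170183969)) .nil))) .nil))) .nil))) (.cons (.rf (nat_lit 152) (nat_lit 110373628818073896)) (.cons (.br (nat_lit 6) (nat_lit 0) (.cons (.rf (nat_lit 156) (nat_lit 493858305440582043680)) (.cons (.rf (nat_lit 158) (nat_lit 493858305440582043680)) (.cons (.br (nat_lit 6)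 (nat_lit 0) (.cons (.rf (nat_lit 156) (nat_lit 493858305440582043680)) (.cons (.rf (nat_lit 158) (nat_lit 493858305440582043680)) (.cons (.br (nat_lit 12) (nat_lit 0) (.cons (.rf (nat_lit 156) (nat_lit 235306360569688598824)) (.cons (.rf (nat_lit 159) (nat_lit 583706118939841765935136)) (.cons (.rf (nat_lit 159) (nat_lit 547107778697602015528992)) .nil)))) .nil)))) .nil)))) .nil)))) .nil)))),
 (.br (nat_lit 6) (nat_lit 0) (.cons (.ev (nat_lit 158765819538495840972181733889) (nat_lit 2)) (.cons (.ev (nat_lit 311912398645128694105113601) (nat_lit 3)) (.cons (.br (nat_lit 12) (nat_lit 0) (.cons (.ev (nat_lit 475680896928818315948065948677) (nat_lit 3)) (.cons (.br (nat_lit 14) (nat_lit 0) (.cons (.ev (nat_lit 5192296859748494261653548147147008) (nat_lit 1)) (.cons (.rf (nat_lit 136) (nat_lit 543618650805313)) .nil))) (.cons (.br (nat_lit 13) (nat_lit 0) (.cons (.br (nat_lit 13) (nat_lit 0) (.cons (.ev (nat_lit 40723587444693620031105496383489) (nat_lit 2)) .nil)) (.cons (.br (nat_lit 13)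 (nat_lit 0) (.cons (.ev (nat_lit 40723587444693620031105496383489) (nat_lit 2)) .nil)) .nil))) .nil)))) .nil)))),
 (.br (nat_lit 12) (nat_lit 0) (.cons (.ev (nat_lit 5192376397391277533827792067690753) (nat_lit 1)) (.cons (.rf (nat_lit 109) (nat_lit 543618650805313)) .nil))),
 (.br (nat_lit 12) (nat_lit 0) (.cons (.br (nat_lit 13) (nat_lit 0) (.cons (.ev (nat_lit 1334481377557962920742889268935983364) (nat_lit 3)) .nil)) .nil)),
 (.br (nat_lit 13) (nat_lit 0) (.cons (.ev (nat_lit 5192297169233485708031757423542273) (nat_lit 1)) (.cons (.br (nat_lit 14) (nat_lit 0) (.cons (.ev (nat_lit 1334481377557962920742889268935983364) (nat_lit 3)) .nil)) .nil))),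
 (.br (nat_lit 12) (nat_lit 0) (.cons (.rf (nat_lit 164) (nat_lit 583706118939841765935136)) (.cons (.rf (nat_lit 164) (nat_lit 547107778697600975340608)) .nil))),
 (.br (nat_lit 12) (nat_lit 0) (.cons (.rf (nat_lit 165) (nat_lit 583706118939841765935136)) (.cons (.br (nat_lit 14) (nat_lit 0) (.cons (.ev (nat_lit 5192297169233485708031757423542273) (nat_lit 1)) (.cons (.ev (nat_lit 2668840744052720939560516085400863233) (nat_lit 2)) .nil))) .nil))),
 (.br (nat_lit 5) (nat_lit 0) (.cons (.rf (nat_lit 161) (nat_lit 493858305440582043680)) (.cons (.rf (nat_lit 161) (nat_lit 458116648082235033632)) (.cons (.br (nat_lit 6) (nat_lit 0) (.cons (.rf (nat_lit 161) (nat_lit 493858305439541855296)) (.cons (.rf (nat_lit 161) (nat_lit 458116648081194845248)) (.cons (.br (nat_lit 14) (nat_lit 0) (.cons (.rf (nat_lit 162) (nat_lit 17022140995484340291616)) (.cons (.rf (nat_lit 162) (nat_lit 16986399338125993281568)) (.cons (.br (nat_lit 12) (nat_lit 0) (.cons (.rf (nat_lit 163) (nat_lit 583706118939841765935136))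 (.cons (.br (nat_lit 12) (nat_lit 0) (.cons (.rf (nat_lit 163) (nat_lit 583706118939841765935136)) .nil)) .nil))) .nil)))) (.cons (.br (nat_lit 12) (nat_lit 0) (.cons (.rf (nat_lit 165) (nat_lit 583706118939841765935136)) (.cons (.rf (nat_lit 166) (nat_lit 583706118939841765935136)) (.cons (.rf (nat_lit 166) (nat_lit 547107778697600975340608)) .nil)))) .nil))))) .nil)))),
 (.br (nat_lit 6) (nat_lit 0) (.cons (.ev (nat_lit 40723587444693620031105496383489) (nat_lit 2)) .nil)),
 (.br (nat_lit 12) (nat_lit 0) (.cons (.ev (nat_lit 475680896928818315948065948677) (nat_lit 3)) (.cons (.ev (nat_lit 40723587444693619470354566087169) (nat_lit 2)) (.cons (.br (nat_lit 13) (nat_lit 0) (.cons (.ev (nat_lit 121694771952160161097589368947717) (nat_lit 3)) (.cons (.kr (nat_lit 20282409608374036906816896499712) (nat_lit 79229371440083952222718656512) (nat_lit 9) (nat_lit 0)) (.cons (.br (nat_lit 6) (nat_lit 0) (.cons (.rf (nat_lit 168) (nat_lit 583706118939841765935136)) (.cons (.rf (nat_lit 168) (nat_lit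 547072037040243668518944)) .nil))) .nil)))) .nil)))),
 (.br (nat_lit 6) (nat_lit 0) (.cons (.ev (nat_lit 5192296859748494261653548147147008) (nat_lit 1)) (.cons (.rf (nat_lit 109) (nat_lit 543612201211169)) .nil))),
 (.br (nat_lit 6) (nat_lit 0) (.cons (.br (nat_lit 13) (nat_lit 0) (.cons (.ev (nat_lit 1334481377557962920742889268935983364) (nat_lit 3)) .nil)) .nil)),
 (.br (nat_lit 6) (nat_lit 0) (.cons (.br (nat_lit 13) (nat_lit 0) (.cons (.ev (nat_lit 5192297169233485708031757423542273) (nat_lit 1)) (.cons (.br (nat_lit 14) (nat_lit 0) (.cons (.ev (nat_lit 1334481377557962920742889268935983364) (nat_lit 3)) .nil)) .nil))) (.cons (.br (nat_lit 13) (nat_lit 0) (.cons (.br (nat_lit 14) (nat_lit 0) (.cons (.ev (nat_lit 1334481377557962920742889268935983364) (nat_lit 3)) .nil)) (.cons (.ev (nat_lit 1329228075014287331506560950763323648) (nat_lit 1)) .nil))) .nil))),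
 (.br (nat_lit 6) (nat_lit 0) (.cons (.rf (nat_lit 172) (nat_lit 583706118939841765935136)) (.cons (.br (nat_lit 14) (nat_lit 0) (.cons (.ev (nat_lit 5192297169233485708031757423542273) (nat_lit 1)) (.cons (.ev (nat_lit 2668840744052720939560516085400863233) (nat_lit 2)) .nil))) .nil))),
 (.br (nat_lit 5) (nat_lit 0) (.cons (.rf (nat_lit 167) (nat_lit 493858305440582043680)) (.cons (.rf (nat_lit 169) (nat_lit 493858305440582043680)) (.cons (.br (nat_lit 12) (nat_lit 0) (.cons (.rf (nat_lit 169) (nat_lit 227235910037675551016)) (.cons (.rf (nat_lit 167) (nat_lit 227235910037675551016)) (.cons (.br (nat_lit 14) (nat_lit 0) (.cons (.rf (nat_lit 170) (nat_lit 17022140995484340291616)) (.cons (.rf (nat_lit 170) (nat_lit 16755518600081433798952)) (.cons (.br (nat_lit 6) (nat_lit 0) (.cons (.rf (nat_lit 171) (nat_lit 583706118939841765935136)) (.cons (.br (nat_lit 6) (nat_lit 0) (.cons (.rf (nat_lit 171) (nat_lit 583706118939841765935136)) .nil)) .nil))) .nil)))) (.cons (.br (nat_lit 6) (nat_lit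 0) (.cons (.rf (nat_lit 172) (nat_lit 583706118939841765935136)) (.cons (.rf (nat_lit 173) (nat_lit 583706118939841765935136)) (.cons (.br (nat_lit 6) (nat_lit 0) (.cons (.rf (nat_lit 172) (nat_lit 583706118939841765935136)) (.cons (.rf (nat_lit 173) (nat_lit 583706118939841765935136)) .nil))) .nil)))) .nil))))) .nil)))),
 (.br (nat_lit 6) (nat_lit 0) (.cons (.rf (nat_lit 174) (nat_lit 493858305439541855296)) (.cons (.rf (nat_lit 174) (nat_lit 458116648081194845248)) (.cons (.kr (nat_lit 281474976710912) (nat_lit 1099511693312) (nat_lit 1) (nat_lit 0)) .nil)))),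
 (.br (nat_lit 8) (nat_lit 0) (.cons (.br (nat_lit 8) (nat_lit 0) (.cons (.br (nat_lit 9) (nat_lit 1) (.cons (.br (nat_lit 10) (nat_lit 1) (.cons (.br (nat_lit 11) (nat_lit 1) (.cons (.br (nat_lit 9) (nat_lit 0) (.cons (.rf (nat_lit 160) (nat_lit 407901468851537952)) (.cons (.rf (nat_lit 160) (nat_lit 407901467811349568)) (.cons (.kr (nat_lit 4722366482869645213696) (nat_lit 1208925819614629174706176) (nat_lit 9) (nat_lit 0)) (.cons (.br (nat_lit 10) (nat_lit 0) (.cons (.rf (nat_lit 160) (nat_lit 406810753316784160)) (.cons (.rf (nat_lit 160) (nat_lit 406810752276595776)) (.cons (.rf (nat_lit 97) (nat_lit 407218472)) (.cons (.br (nat_lit 5) (nat_lit 0) (.cons (.rf (nat_lit 167) (nat_lit 493858305440582043680)) (.cons (.rf (nat_lit 174) (nat_lit 493858305440582043680)) (.cons (.rf (nat_lit 174) (nat_lit 458116648082235033632)) (.cons (.br (nat_lit 5) (nat_lit 0) (.cons (.rf (nat_lit 167) (nat_lit 493858305440582043680)) (.cons (.rf (nat_lit 174) (nat_lit 493858305440582043680)) (.cons (.rf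 (nat_lit 174) (nat_lit 458116648082235033632)) (.cons (.br (nat_lit 6) (nat_lit 0) (.cons (.rf (nat_lit 174) (nat_lit 493858305439541855296)) (.cons (.rf (nat_lit 174) (nat_lit 458116648081194845248)) (.cons (.rf (nat_lit 175) (nat_lit 583706118939841765935136)) (.cons (.rf (nat_lit 175) (nat_lit 547107778697602015528992)) .nil))))) .nil))))) .nil))))) .nil))))) .nil))))) (.cons (.rf (nat_lit 5) (nat_lit 13131419904)) .nil))) .nil)) .nil)) .nil)) .nil)),
 (.br (nat_lit 12) (nat_lit 0) (.cons (.ev (nat_lit 620183686348433741848904193) (nat_lit 2)) (.cons (.ev (nat_lit 79537647524085965241052037376) (nat_lit 1)) (.cons (.rf (nat_lit 151) (nat_lit 14135144809)) .nil)))),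
 (.br (nat_lit 4) (nat_lit 1) (.cons (.rf (nat_lit 176) (nat_lit 9043225708576)) (.cons (.br (nat_lit 7) (nat_lit 1) (.cons (.br (nat_lit 8) (nat_lit 1) (.cons (.rf (nat_lit 86) (nat_lit 318066755616)) (.cons (.br (nat_lit 9) (nat_lit 1) (.cons (.br (nat_lit 9) (nat_lit 1) (.cons (.br (nat_lit 10) (nat_lit 0) (.cons (.br (nat_lit 10) (nat_lit 0) (.cons (.br (nat_lit 12) (nat_lit 1) (.cons (.br (nat_lit 11) (nat_lit 0) (.cons (.br (nat_lit 12) (nat_lit 0) (.cons (.rf (nat_lit 177) (nat_lit 15433072044983552032)) (.cons (.rf (nat_lit 177) (nat_lit 15433072045017105472)) (.cons (.kr (nat_lit 79228162514264337593543950336) (nat_lit 20282409603651670423947251286016) (nat_lit 12) (nat_lit 0)) (.cons (.br (nat_lit 13) (nat_lit 0) (.cons (.rf (nat_lit 151) (nat_lit 5848282506)) (.cons (.rf (nat_lit 151) (nat_lit 6922024330)) (.cons (.rf (nat_lit 97) (nat_lit 479573386)) (.cons (.rf (nat_lit 151) (nat_lit 16585700746)) .nil))))) .nil))))) .nil)) .nil)) .nil)) .nil)) .nil)) .nil)) .nil))) (.cons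 (.rf (nat_lit 176) (nat_lit 10039661168675)) (.cons (.rf (nat_lit 92) (nat_lit 318066755616)) .nil)))) .nil))),
 (.br (nat_lit 4) (nat_lit 1) (.cons (.rf (nat_lit 178) (nat_lit 247132686368)) (.cons (.rf (nat_lit 4) (nat_lit 3444992)) (.cons (.rf (nat_lit 94) (nat_lit 318066755616)) .nil)))),
 (.br (nat_lit 6) (nat_lit 0) (.cons (.br (nat_lit 6) (nat_lit 0) .nil) .nil)),
 (.br (nat_lit 4) (nat_lit 1) (.cons (.rf (nat_lit 1) (nat_lit 137561152)) (.cons (.br (nat_lit 5) (nat_lit 1) (.cons (.kr (nat_lit 4294967296) (nat_lit 1099511627776) (nat_lit 4) (nat_lit 0)) (.cons (.rf (nat_lit 1) (nat_lit 171148352)) .nil))) .nil))),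
 (.br (nat_lit 3) (nat_lit 1) (.cons (.rf (nat_lit 0) (nat_lit 3277888)) (.cons (.br (nat_lit 3) (nat_lit 1) (.cons (.rf (nat_lit 0) (nat_lit 3310656)) (.cons (.br (nat_lit 4) (nat_lit 1) (.cons (.rf (nat_lit 181) (nat_lit 172066848)) (.cons (.rf (nat_lit 1) (nat_lit 137561152)) (.cons (.br (nat_lit 4) (nat_lit 1) (.cons (.rf (nat_lit 181) (nat_lit 172066848)) (.cons (.rf (nat_lit 1) (nat_lit 137593920)) .nil))) .nil)))) .nil))) .nil))),
 (.br (nat_lit 4) (nat_lit 1) (.cons (.rf (nat_lit 180) (nat_lit 6614517792)) (.cons (.rf (nat_lit 182) (nat_lit 200800)) .nil))),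
 (.br (nat_lit 7) (nat_lit 1) (.cons (.rf (nat_lit 6) (nat_lit 8834390112)) (.cons (.br (nat_lit 8) (nat_lit 1) (.cons (.br (nat_lit 9) (nat_lit 1) (.cons (.rf (nat_lit 180) (nat_lit 10909485088)) .nil)) (.cons (.rf (nat_lit 5) (nat_lit 7789156448)) .nil))) .nil))),
 (.br (nat_lit 4) (nat_lit 1) (.cons (.ev (nat_lit 281479288455169) (nat_lit 1)) (.cons (.rf (nat_lit 182) (nat_lit 196836)) (.cons (.br (nat_lit 6) (nat_lit 1) (.cons (.br (nat_lit 7) (nat_lit 1) (.cons (.rf (nat_lit 180) (nat_lit 8762001440)) (.cons (.br (nat_lit 8) (nat_lit 1) (.cons (.rf (nat_lit 5) (nat_lit 8834390112)) (.cons (.br (nat_lit 8) (nat_lit 1) (.cons (.rf (nat_lit 5) (nat_lit 8835438688)) .nil)) .nil))) .nil))) (.cons (.rf (nat_lit 4) (nat_lit 4462688)) (.cons (.br (nat_lit 7) (nat_lit 1) (.cons (.rf (nat_lit 184) (nat_lit 9043225708576)) (.cons (.rf (nat_lit 6) (nat_lit 8834390112)) (.cons (.br (nat_lit 7) (nat_lit 1) (.cons (.rf (nat_lit 184) (nat_lit 9043225708576)) (.cons (.rf (nat_lit 6) (nat_lit 8835438688))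 .nil))) .nil)))) .nil)))) .nil)))),
 (.br (nat_lit 7) (nat_lit 1) (.cons (.ev (nat_lit 18519083147035934721) (nat_lit 1)) (.cons (.rf (nat_lit 5) (nat_lit 8795462947)) (.cons (.br (nat_lit 8) (nat_lit 1) (.cons (.br (nat_lit 9) (nat_lit 1) (.cons (.rf (nat_lit 180) (nat_lit 10909485088)) .nil)) (.cons (.rf (nat_lit 5) (nat_lit 7720673604)) .nil))) .nil)))),
 (.br (nat_lit 6) (nat_lit 1) (.cons (.rf (nat_lit 186) (nat_lit 9043225708576)) (.cons (.rf (nat_lit 5) (nat_lit 8829114656)) (.cons (.br (nat_lit 7) (nat_lit 1) (.cons (.rf (nat_lit 186) (nat_lit 9009838953507)) (.cons (.br (nat_lit 9) (nat_lit 1) (.cons (.br (nat_lit 8) (nat_lit 1) (.cons (.rf (nat_lit 180) (nat_lit 10909485088)) .nil)) (.cons (.rf (nat_lit 85) (nat_lit 4640184416)) .nil))) (.cons (.rf (nat_lit 5) (nat_lit 8795462979)) .nil)))) .nil)))),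
 (.br (nat_lit 4) (nat_lit 1) (.cons (.kr (nat_lit 72057594037927937) (nat_lit 4311744512) (nat_lit 0) (nat_lit 1)) (.cons (.rf (nat_lit 182) (nat_lit 266336)) .nil))),
 (.br (nat_lit 11) (nat_lit 0) (.cons (.br (nat_lit 12) (nat_lit 0) (.cons (.ev (nat_lit 20521023759890561161230052032770) (nat_lit 2)) .nil)) .nil)),
 (.br (nat_lit 9) (nat_lit 0) (.cons (.kr (nat_lit 18447025548686262528) (nat_lit 4722366483969156907008) (nat_lit 1) (nat_lit 0)) (.cons (.br (nat_lit 10) (nat_lit 0) (.cons (.kr (nat_lit 2417851711286856699084801) (nat_lit 36894051097372525056) (nat_lit 0) (nat_lit 2)) (.cons (.kr (nat_lit 2417851711286856699084801) (nat_lit 9444732967938313814016) (nat_lit 0) (nat_lit 1)) (.cons (.br (nat_lit 11) (nat_lit 0) (.cons (.rf (nat_lit 189) (nat_lit 493858305440582043680)) (.cons (.br (nat_lit 11) (nat_lit 0) (.cons (.rf (nat_lit 189) (nat_lit 493858305440582043680)) .nil)) .nil))) .nil)))) .nil))),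
 (.br (nat_lit 11) (nat_lit 0) (.cons (.kr (nat_lit 1208925819614629174706176) (nat_lit 309485009821345068724781056) (nat_lit 10) (nat_lit 0)) (.cons (.ev (nat_lit 310698658079781640871149568) (nat_lit 1)) .nil)))]

theorem c4 : chkAll C T R L4 (nat_lit 152) = true := by decide +kernel

theorem l4 : (nat_lit 152) + L4.length = (nat_lit 192) := by decide +kernel

/-- part of the certificates -/
def L5 : List Prf := [(.br (nat_lit 10) (nat_lit 0) (.cons (.rf (nat_lit 191) (nat_lit 493858305440582043680)) (.cons (.rf (nat_lit 191) (nat_lit 458117738797769787424)) .nil))),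
 (.br (nat_lit 10) (nat_lit 0) (.cons (.rf (nat_lit 192) (nat_lit 493858305440582043680)) (.cons (.br (nat_lit 12) (nat_lit 0) (.cons (.br (nat_lit 11) (nat_lit 0) (.cons (.ev (nat_lit 310693954159762469470339328) (nat_lit 1)) .nil)) (.cons (.ev (nat_lit 158458742880240527192763662339) (nat_lit 2)) .nil))) .nil))),
 (.br (nat_lit 5) (nat_lit 0) (.cons (.kr (nat_lit 281474976710912) (nat_lit 1099511693312) (nat_lit 1) (nat_lit 0)) (.cons (.br (nat_lit 6) (nat_lit 0) (.cons (.ev (nat_lit 72622747326349315) (nat_lit 2)) (.cons (.br (nat_lit 8) (nat_lit 0) (.cons (.rf (nat_lit 25) (nat_lit 310577313)) (.cons (.br (nat_lit 8) (nat_lit 0) (.cons (.rf (nat_lit 25) (nat_lit 310577313)) (.cons (.br (nat_lit 9) (nat_lit 0) (.cons (.rf (nat_lit 190) (nat_lit 407901468851537952)) (.cons (.rf (nat_lit 190) (nat_lit 372998571739416608)) (.cons (.br (nat_lit 9) (nat_lit 0) (.cons (.rf (nat_lit 190) (nat_lit 407901468851537952)) (.cons (.rf (nat_lit 190) (nat_lit 372998571739416608)) (.cons (.br (nat_lit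 10) (nat_lit 0) (.cons (.rf (nat_lit 192) (nat_lit 493858305440582043680)) (.cons (.rf (nat_lit 193) (nat_lit 493858305440582043680)) (.cons (.rf (nat_lit 193) (nat_lit 458117738797769787424)) .nil)))) .nil)))) .nil)))) .nil))) .nil))) .nil))) .nil))),
 (.br (nat_lit 11) (nat_lit 0) (.cons (.br (nat_lit 12) (nat_lit 0) (.cons (.ev (nat_lit 80156617543872491286379430403) (nat_lit 2)) .nil)) .nil)),
 (.br (nat_lit 9) (nat_lit 0) (.cons (.ev (nat_lit 9555486620285564747781) (nat_lit 3)) (.cons (.br (nat_lit 10) (nat_lit 0) (.cons (.ev (nat_lit 4835777139185683596837381) (nat_lit 3)) (.cons (.ev (nat_lit 4854592817010569386395141) (nat_lit 3)) (.cons (.br (nat_lit 11) (nat_lit 0) (.cons (.rf (nat_lit 195) (nat_lit 493858305440582043680)) (.cons (.br (nat_lit 11) (nat_lit 0) (.cons (.rf (nat_lit 195) (nat_lit 493858305440582043680)) .nil)) .nil))) .nil)))) .nil))),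
 (.br (nat_lit 11) (nat_lit 0) (.cons (.ev (nat_lit 79231789291723184788209730049) (nat_lit 2)) (.cons (.ev (nat_lit 1242794632102395242398877185) (nat_lit 3)) .nil))),
 (.br (nat_lit 10) (nat_lit 0) (.cons (.rf (nat_lit 197) (nat_lit 493858305440582043680)) (.cons (.rf (nat_lit 197) (nat_lit 458117738797769787424)) .nil))),
 (.br (nat_lit 10) (nat_lit 0) (.cons (.rf (nat_lit 198) (nat_lit 493858305440582043680)) (.cons (.br (nat_lit 12) (nat_lit 0) (.cons (.br (nat_lit 11) (nat_lit 0) (.cons (.ev (nat_lit 1242775816424561560516821505) (nat_lit 3)) .nil)) (.cons (.ev (nat_lit 79231789291723184788209730049) (nat_lit 2)) .nil))) .nil))),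
 (.br (nat_lit 2) (nat_lit 0) (.cons (.ev (nat_lit 284782202651908) (nat_lit 3)) (.cons (.br (nat_lit 5) (nat_lit 0) (.cons (.ev (nat_lit 1108152091139) (nat_lit 2)) (.cons (.br (nat_lit 8) (nat_lit 0) (.cons (.rf (nat_lit 25) (nat_lit 310548545)) (.cons (.br (nat_lit 8) (nat_lit 0) (.cons (.rf (nat_lit 25) (nat_lit 310548545)) (.cons (.br (nat_lit 9) (nat_lit 0) (.cons (.rf (nat_lit 196) (nat_lit 407901468851537952)) (.cons (.rf (nat_lit 196) (nat_lit 372998571739416608)) (.cons (.br (nat_lit 9) (nat_lit 0) (.cons (.rf (nat_lit 196) (nat_lit 407901468851537952)) (.cons (.rf (nat_lit 196) (nat_lit 372998571739416608)) (.cons (.br (nat_lit 10) (nat_lit 0) (.cons (.rf (nat_lit 198) (nat_lit 493858305440582043680)) (.cons (.rf (nat_lit 199) (nat_lit 493858305440582043680)) (.cons (.rf (nat_lit 199) (nat_lit 458117738797769787424)) .nil)))) .nil)))) .nil)))) .nil))) .nil))) .nil))) .nil))),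
 (.br (nat_lit 10) (nat_lit 0) (.cons (.br (nat_lit 11) (nat_lit 0) (.cons (.ev (nat_lit 621387871353977002772267523) (nat_lit 2)) (.cons (.rf (nat_lit 46) (nat_lit 436859547525313)) .nil))) .nil)),
 (.br (nat_lit 8) (nat_lit 0) (.cons (.kr (nat_lit 9444733528689243849216) (nat_lit 36965546845263691776) (nat_lit 1) (nat_lit 0)) (.cons (.br (nat_lit 10) (nat_lit 0) (.cons (.kr (nat_lit 2417851711286856699084801) (nat_lit 9444733528689243849216) (nat_lit 0) (nat_lit 2)) (.cons (.kr (nat_lit 2417851639229258366189569) (nat_lit 36893489246930796544) (nat_lit 0) (nat_lit 1)) (.cons (.br (nat_lit 11) (nat_lit 0) (.cons (.br (nat_lit 11) (nat_lit 0) (.cons (.ev (nat_lit 310693954087986346114154496) (nat_lit 1)) .nil)) (.cons (.br (nat_lit 11) (nat_lit 0) (.cons (.ev (nat_lit 310693954087986346114154496) (nat_lit 1)) .nil)) .nil))) .nil)))) .nil))),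
 (.br (nat_lit 12) (nat_lit 0) (.cons (.ev (nat_lit 159075304529869876809596797443) (nat_lit 2)) .nil)),
 (.br (nat_lit 8) (nat_lit 0) (.cons (.kr (nat_lit 9444733528689243849216) (nat_lit 36965546845263691776) (nat_lit 1) (nat_lit 0)) (.cons (.br (nat_lit 11) (nat_lit 0) (.cons (.kr (nat_lit 618970019642691236978032641) (nat_lit 9444733528689243849216) (nat_lit 0) (nat_lit 4)) (.cons (.kr (nat_lit 618970019642690137466339329) (nat_lit 36965545745751998464) (nat_lit 0) (nat_lit 1)) (.cons (.br (nat_lit 10) (nat_lit 0) (.cons (.rf (nat_lit 203) (nat_lit 493858305440582043680)) (.cons (.rf (nat_lit 203) (nat_lit 458009655562436053188)) .nil))) .nil)))) .nil))),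
 (.br (nat_lit 10) (nat_lit 0) (.cons (.rf (nat_lit 202) (nat_lit 299818233517803716)) (.cons (.ev (nat_lit 2427333265684244587545091) (nat_lit 2)) .nil))),
 (.br (nat_lit 9) (nat_lit 0) (.cons (.ev (nat_lit 72620548336779265) (nat_lit 2)) (.cons (.ev (nat_lit 4722438541567506514176) (nat_lit 1)) (.cons (.br (nat_lit 6) (nat_lit 0) (.cons (.br (nat_lit 8) (nat_lit 0) (.cons (.ev (nat_lit 9481698511485059334659) (nat_lit 2)) (.cons (.br (nat_lit 10) (nat_lit 0) (.cons (.rf (nat_lit 201) (nat_lit 407901468851537952)) (.cons (.br (nat_lit 10) (nat_lit 0) (.cons (.rf (nat_lit 201) (nat_lit 407901468851537952)) (.cons (.rf (nat_lit 80) (nat_lit 396031867298978)) .nil))) .nil))) .nil))) (.cons (.ev (nat_lit 4722438823038188257281) (nat_lit 1)) (.cons (.br (nat_lit 8) (nat_lit 0) (.cons (.rf (nat_lit 202) (nat_lit 407901468851537952)) (.cons (.rf (nat_lit 204) (nat_lit 407901468851537952)) (.cons (.br (nat_lit 8) (nat_lit 0) (.cons (.rf (nat_lit 202) (nat_lit 407901468851537952)) (.cons (.rf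 (nat_lit 204) (nat_lit 407901468851537952)) (.cons (.br (nat_lit 10) (nat_lit 0) (.cons (.rf (nat_lit 202) (nat_lit 299818233517803716)) (.cons (.rf (nat_lit 205) (nat_lit 493858305440582043680)) (.cons (.rf (nat_lit 205) (nat_lit 458117738797769787424)) .nil)))) .nil)))) .nil)))) .nil)))) .nil)))),
 (.br (nat_lit 10) (nat_lit 0) (.cons (.ev (nat_lit 2446259697162594235581445) (nat_lit 3)) (.cons (.br (nat_lit 11) (nat_lit 0) (.cons (.ev (nat_lit 621397352980430880858309123) (nat_lit 2)) (.cons (.rf (nat_lit 135) (nat_lit 470979878101057)) .nil))) .nil))),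
 (.br (nat_lit 11) (nat_lit 0) (.cons (.zr (nat_lit 309485065161577289903767555) (nat_lit 1213648186381172820017408) (nat_lit 8) (nat_lit 1)) .nil)),
 (.br (nat_lit 9) (nat_lit 0) (.cons (.kr (nat_lit 2417851639229262644379649) (nat_lit 9444805023333345132544) (nat_lit 0) (nat_lit 1)) (.cons (.rf (nat_lit 207) (nat_lit 407901468851537952)) (.cons (.br (nat_lit 10) (nat_lit 0) (.cons (.rf (nat_lit 207) (nat_lit 406810650139956259)) (.cons (.ev (nat_lit 2446259697162594235581445) (nat_lit 3)) (.cons (.br (nat_lit 11) (nat_lit 0) (.cons (.rf (nat_lit 208) (nat_lit 493858305440582043680)) (.cons (.rf (nat_lit 208) (nat_lit 458116647979058205731)) .nil))) .nil)))) .nil)))),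
 (.br (nat_lit 9) (nat_lit 0) (.cons (.br (nat_lit 10) (nat_lit 0) (.cons (.ev (nat_lit 7319815695034333941467649) (nat_lit 4)) (.cons (.br (nat_lit 11) (nat_lit 0) (.cons (.ev (nat_lit 621397352980430880858309123) (nat_lit 2)) (.cons (.rf (nat_lit 135) (nat_lit 436861699137601)) .nil))) .nil))) (.cons (.kr (nat_lit 618970019642690137466339329) (nat_lit 36965545745751998464) (nat_lit 0) (nat_lit 1)) (.cons (.br (nat_lit 11) (nat_lit 0) (.cons (.br (nat_lit 10) (nat_lit 0) (.cons (.ev (nat_lit 623862428286751647769690125) (nat_lit 4)) (.cons (.rf (nat_lit 135) (nat_lit 470944407986369)) .nil))) (.cons (.br (nat_lit 12) (nat_lit 0) (.cons (.ev (nat_lit 79537647542532709310483398656) (nat_lit 1)) (.cons (.rf (nat_lit 136) (nat_lit 470946559598657)) .nil))) (.cons (.br (nat_lit 10) (nat_lit 0) (.cons (.br (nat_lit 10) (nat_lit 0) (.cons (.ev (nat_lit 621397352980433079914988033) (nat_lit 2)) .nil)) (.cons (.br (nat_lit 10) (nat_lit 0) (.cons (.ev (nat_lit 621397352980433079914988033) (nat_lit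 2)) .nil)) .nil))) .nil)))) .nil)))),
 (.br (nat_lit 10) (nat_lit 0) (.cons (.ev (nat_lit 2427370232924337858544131) (nat_lit 3)) (.cons (.rf (nat_lit 109) (nat_lit 470979878101057)) .nil))),
 (.br (nat_lit 10) (nat_lit 0) (.cons (.br (nat_lit 11) (nat_lit 0) (.cons (.ev (nat_lit 1861745872960746425241698819) (nat_lit 3)) (.cons (.ev (nat_lit 315562751329998856289388037) (nat_lit 3)) .nil))) (.cons (.br (nat_lit 11) (nat_lit 0) (.cons (.kr (nat_lit 309489732187827938386771968) (nat_lit 1208944266358707179225088) (nat_lit 3) (nat_lit 0)) (.cons (.ev (nat_lit 1245221928475718330311901699) (nat_lit 3)) .nil))) .nil))),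
 (.br (nat_lit 10) (nat_lit 0) (.cons (.rf (nat_lit 212) (nat_lit 493858305440582043680)) (.cons (.br (nat_lit 12) (nat_lit 0) (.cons (.ev (nat_lit 79229376162522774161378574336) (nat_lit 1)) (.cons (.ev (nat_lit 40723275532331941580688563765763) (nat_lit 2)) .nil))) .nil))),
 (.br (nat_lit 8) (nat_lit 0) (.cons (.rf (nat_lit 209) (nat_lit 407901468851537952)) (.cons (.rf (nat_lit 210) (nat_lit 407901468851537952)) (.cons (.br (nat_lit 9) (nat_lit 0) (.cons (.rf (nat_lit 210) (nat_lit 372964485837751360)) (.cons (.rf (nat_lit 209) (nat_lit 372964485837751360)) (.cons (.br (nat_lit 12) (nat_lit 0) (.cons (.rf (nat_lit 211) (nat_lit 14242959524133701664)) (.cons (.rf (nat_lit 211) (nat_lit 14208022541119915072)) (.cons (.br (nat_lit 10) (nat_lit 0) (.cons (.br (nat_lit 10) (nat_lit 0) (.cons (.ev (nat_lit 79229376162450717671147175936) (nat_lit 1)) .nil)) (.cons (.br (nat_lit 10) (nat_lit 0) (.cons (.ev (nat_lit 79229376162450717671147175936) (nat_lit 1)) .nil)) .nil))) .nil)))) (.cons (.br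 (nat_lit 10) (nat_lit 0) (.cons (.rf (nat_lit 212) (nat_lit 493858305440582043680)) (.cons (.rf (nat_lit 213) (nat_lit 493858305440582043680)) (.cons (.br (nat_lit 10) (nat_lit 0) (.cons (.rf (nat_lit 212) (nat_lit 493858305440582043680)) (.cons (.rf (nat_lit 213) (nat_lit 493858305440582043680)) .nil))) .nil)))) .nil))))) .nil)))),
 (.br (nat_lit 10) (nat_lit 0) (.cons (.kr (nat_lit 2417851639229262644379649) (nat_lit 9444805023333345132544) (nat_lit 0) (nat_lit 1)) (.cons (.kr (nat_lit 309489732187827938386771968) (nat_lit 1208944266358707179225088) (nat_lit 3) (nat_lit 0)) .nil))),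
 (.br (nat_lit 9) (nat_lit 0) (.cons (.rf (nat_lit 215) (nat_lit 493858305440582043680)) (.cons (.rf (nat_lit 215) (nat_lit 458009655562436053188)) .nil))),
 (.br (nat_lit 9) (nat_lit 0) (.cons (.rf (nat_lit 216) (nat_lit 493858305440582043680)) (.cons (.br (nat_lit 12) (nat_lit 0) (.cons (.br (nat_lit 10) (nat_lit 0) (.cons (.ev (nat_lit 316915096316755638851138355201) (nat_lit 3)) .nil)) (.cons (.ev (nat_lit 79537647542532426740273316096) (nat_lit 1)) .nil))) .nil))),
 (.br (nat_lit 8) (nat_lit 0) (.cons (.rf (nat_lit 214) (nat_lit 407901468851537952)) (.cons (.rf (nat_lit 214) (nat_lit 406810650139956259)) (.cons (.br (nat_lit 11) (nat_lit 0) (.cons (.rf (nat_lit 214) (nat_lit 369692201630832708)) (.cons (.rf (nat_lit 214) (nat_lit 333664397820008615)) (.cons (.kr (nat_lit 618970019642690137466339329) (nat_lit 36965545745751998464) (nat_lit 0) (nat_lit 1)) (.cons (.br (nat_lit 9) (nat_lit 0) (.cons (.rf (nat_lit 216) (nat_lit 493858305440582043680)) (.cons (.rf (nat_lit 217) (nat_lit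 493858305440582043680)) (.cons (.rf (nat_lit 217) (nat_lit 458009655562436053188)) .nil)))) .nil))))) .nil)))),
 (.br (nat_lit 10) (nat_lit 0) (.cons (.rf (nat_lit 214) (nat_lit 333664397820008615)) (.cons (.ev (nat_lit 81446553510923436213155529884673) (nat_lit 3)) .nil))),
 (.br (nat_lit 9) (nat_lit 0) (.cons (.rf (nat_lit 218) (nat_lit 372964485837751360)) (.cons (.rf (nat_lit 214) (nat_lit 369692201630832708)) (.cons (.br (nat_lit 12) (nat_lit 0) (.cons (.rf (nat_lit 219) (nat_lit 493858305440582043680)) (.cons (.rf (nat_lit 219) (nat_lit 493823368457568257088)) (.cons (.kr (nat_lit 79228162514264337593543950336) (nat_lit 20282409603651670423947251286016) (nat_lit 12) (nat_lit 0)) .nil)))) .nil)))),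
 (.br (nat_lit 3) (nat_lit 1) (.cons (.br (nat_lit 1) (nat_lit 0) (.cons (.rf (nat_lit 194) (nat_lit 247132686368)) (.cons (.rf (nat_lit 194) (nat_lit 143955858467)) (.cons (.rf (nat_lit 200) (nat_lit 247132686368)) (.cons (.br (nat_lit 2) (nat_lit 0) (.cons (.rf (nat_lit 200) (nat_lit 246091482176)) (.cons (.rf (nat_lit 194) (nat_lit 108488824900)) (.cons (.ev (nat_lit 72057606973293059) (nat_lit 2)) (.cons (.br (nat_lit 5) (nat_lit 0) (.cons (.rf (nat_lit 194) (nat_lit 2185336999)) (.cons (.ev (nat_lit 72059805962863105) (nat_lit 2)) (.cons (.rf (nat_lit 206) (nat_lit 325702574508064)) (.cons (.br (nat_lit 6) (nat_lit 0) (.cons (.rf (nat_lit 206) (nat_lit 291616672842816)) (.cons (.ev (nat_lit 72620548336779265) (nat_lit 2)) (.cons (.ev (nat_lit 72622747326349315) (nat_lit 2)) (.cons (.br (nat_lit 8) (nat_lit 0) (.cons (.rf (nat_lit 214) (nat_lit 407901468851537952)) (.cons (.rf (nat_lit 214) (nat_lit 406810650139956259)) (.cons (.rf (nat_lit 218) (nat_lit 407901468851537952)) (.cons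 (.br (nat_lit 8) (nat_lit 0) (.cons (.rf (nat_lit 214) (nat_lit 407901468851537952)) (.cons (.rf (nat_lit 214) (nat_lit 406810650139956259)) (.cons (.rf (nat_lit 218) (nat_lit 407901468851537952)) (.cons (.br (nat_lit 9) (nat_lit 0) (.cons (.rf (nat_lit 218) (nat_lit 372964485837751360)) (.cons (.rf (nat_lit 214) (nat_lit 369692201630832708)) (.cons (.rf (nat_lit 220) (nat_lit 493858305440582043680)) (.cons (.rf (nat_lit 220) (nat_lit 458117738797769787424)) .nil))))) .nil))))) .nil))))) .nil))))) .nil))))) .nil))))) .nil))))) (.cons (.rf (nat_lit 182) (nat_lit 265440)) .nil))),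
 (.br (nat_lit 12) (nat_lit 0) (.cons (.br (nat_lit 13) (nat_lit 0) (.cons (.ev (nat_lit 5192297169233485708030662223659008) (nat_lit 1)) .nil)) .nil)),
 (.br (nat_lit 11) (nat_lit 0) (.cons (.kr (nat_lit 1208925819896104151417088) (nat_lit 309485009821346168236474368) (nat_lit 1) (nat_lit 0)) (.cons (.br (nat_lit 12) (nat_lit 0) (.cons (.ev (nat_lit 475371397678399332687422948869) (nat_lit 3)) (.cons (.ev (nat_lit 475987949846402232815593063429) (nat_lit 3)) (.cons (.br (nat_lit 13) (nat_lit 0) (.cons (.rf (nat_lit 222) (nat_lit 18240816216868946806816)) (.cons (.br (nat_lit 13) (nat_lit 0) (.cons (.rf (nat_lit 222) (nat_lit 18240816216868946806816)) .nil)) .nil))) .nil)))) .nil))),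
 (.br (nat_lit 13) (nat_lit 0) (.cons (.ev (nat_lit 5192376086702064331691128044650753) (nat_lit 1)) (.cons (.ev (nat_lit 40723894507129291548866740617729) (nat_lit 2)) .nil))),
 (.br (nat_lit 12) (nat_lit 0) (.cons (.rf (nat_lit 224) (nat_lit 583706118939841765935136)) (.cons (.rf (nat_lit 224) (nat_lit 547107778697602015528992)) .nil))),
 (.br (nat_lit 12) (nat_lit 0) (.cons (.rf (nat_lit 225) (nat_lit 583706118939841765935136)) (.cons (.br (nat_lit 14) (nat_lit 0) (.cons (.br (nat_lit 13) (nat_lit 0) (.cons (.ev (nat_lit 40723277954961287527236710170625) (nat_lit 2)) .nil)) (.cons (.ev (nat_lit 5192376086702064331691128044650753) (nat_lit 1)) .nil))) .nil))),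
 (.br (nat_lit 5) (nat_lit 0) (.cons (.ev (nat_lit 4741173517116879799301) (nat_lit 3)) (.cons (.br (nat_lit 6) (nat_lit 0) (.cons (.ev (nat_lit 18447026652509634816) (nat_lit 1)) (.cons (.br (nat_lit 10) (nat_lit 0) (.cons (.rf (nat_lit 25) (nat_lit 379783329)) (.cons (.br (nat_lit 10) (nat_lit 0) (.cons (.rf (nat_lit 25) (nat_lit 379783329)) (.cons (.br (nat_lit 11) (nat_lit 0) (.cons (.rf (nat_lit 223) (nat_lit 493858305440582043680)) (.cons (.rf (nat_lit 223) (nat_lit 458117738797769787424)) (.cons (.br (nat_lit 11) (nat_lit 0) (.cons (.rf (nat_lit 223) (nat_lit 493858305440582043680)) (.cons (.rf (nat_lit 223) (nat_lit 458117738797769787424)) (.cons (.br (nat_lit 12) (nat_lit 0) (.cons (.rf (nat_lit 225) (nat_lit 583706118939841765935136)) (.cons (.rf (nat_lit 226) (nat_lit 583706118939841765935136)) (.cons (.rf (nat_lit 226) (nat_lit 547107778697602015528992)) .nil)))) .nil)))) .nil)))) .nil))) .nil))) .nil))) .nil))),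
 (.br (nat_lit 12) (nat_lit 0) (.cons (.br (nat_lit 13) (nat_lit 0) (.cons (.zr (nat_lit 81129638428773853201996290459137) (nat_lit 316912650149291635891700367360) (nat_lit 8) (nat_lit 1)) (.cons (.rf (nat_lit 46) (nat_lit 543617438853185)) .nil))) .nil))]

theorem c5 : chkAll C T R L5 (nat_lit 192) = true := by decide +kernel

theorem l5 : (nat_lit 192) + L5.length = (nat_lit 229) := by decide +kernel

/-- part of the certificates -/
def L6 : List Prf := [(.br (nat_lit 13) (nat_lit 0) (.cons (.br (nat_lit 14) (nat_lit 0) (.cons (.ev (nat_lit 1355331695561384996386697511155597574) (nat_lit 3)) .nil)) .nil)),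
 (.br (nat_lit 11) (nat_lit 0) (.cons (.ev (nat_lit 621392612311884283146010625) (nat_lit 2)) (.cons (.br (nat_lit 12) (nat_lit 0) (.cons (.br (nat_lit 13) (nat_lit 0) (.cons (.ev (nat_lit 41042045097299421260225913946115) (nat_lit 3)) (.cons (.rf (nat_lit 49) (nat_lit 509464900184129)) .nil))) (.cons (.br (nat_lit 14) (nat_lit 0) (.cons (.ev (nat_lit 5192297169228763269490194245484801) (nat_lit 1)) (.cons (.rf (nat_lit 103) (nat_lit 543585223420065)) .nil))) (.cons (.br (nat_lit 13) (nat_lit 0) (.cons (.rf (nat_lit 229) (nat_lit 583706118939841765935136)) (.cons (.br (nat_lit 13) (nat_lit 0) (.cons (.rf (nat_lit 229) (nat_lit 583706118939841765935136)) .nil)) .nil))) .nil)))) .nil))),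
 (.br (nat_lit 8) (nat_lit 0) (.cons (.br (nat_lit 8) (nat_lit 0) .nil) .nil)),
 (.br (nat_lit 11) (nat_lit 0) (.cons (.ev (nat_lit 621392612311884283146010625) (nat_lit 2)) (.cons (.br (nat_lit 13) (nat_lit 0) (.cons (.br (nat_lit 12) (nat_lit 0) (.cons (.ev (nat_lit 41040814410778303631816799551491) (nat_lit 3)) (.cons (.rf (nat_lit 231) (nat_lit 543618685408321)) .nil))) (.cons (.br (nat_lit 14) (nat_lit 0) (.cons (.ev (nat_lit 5192297168019855968958707778257153) (nat_lit 1)) (.cons (.rf (nat_lit 51) (nat_lit 543583079147585)) .nil))) (.cons (.br (nat_lit 12) (nat_lit 0) (.cons (.br (nat_lit 12) (nat_lit 0) (.cons (.zr (nat_lit 158461160750253882179837886465) (nat_lit 40565438182045422641445605475328) (nat_lit 8) (nat_lit 2)) .nil)) (.cons (.br (nat_lit 12) (nat_lit 0) (.cons (.zr (nat_lit 158461160750253882179837886465) (nat_lit 40565438182045422641445605475328) (nat_lit 8) (nat_lit 2)) .nil)) .nil))) .nil)))) .nil))),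
 (.br (nat_lit 13) (nat_lit 0) (.cons (.ev (nat_lit 40723275537072898922819960701441) (nat_lit 2)) (.cons (.kr (nat_lit 20361637770888301245514247045377) (nat_lit 311902898354625424446717952) (nat_lit 0) (nat_lit 2)) .nil))),
 (.br (nat_lit 12) (nat_lit 0) (.cons (.rf (nat_lit 233) (nat_lit 583706118939841765935136)) (.cons (.rf (nat_lit 233) (nat_lit 547107778697602015528992)) .nil))),
 (.br (nat_lit 12) (nat_lit 0) (.cons (.rf (nat_lit 234) (nat_lit 583706118939841765935136)) (.cons (.br (nat_lit 14) (nat_lit 0) (.cons (.br (nat_lit 13) (nat_lit 0) (.cons (.ev (nat_lit 40723277954961288087987640467969) (nat_lit 2)) .nil)) (.cons (.ev (nat_lit 5192297168024559816639913987735808) (nat_lit 1)) .nil))) .nil))),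
 (.br (nat_lit 5) (nat_lit 0) (.cons (.ev (nat_lit 18519083142724256001) (nat_lit 1)) (.cons (.ev (nat_lit 1208925819614629191483649) (nat_lit 1)) (.cons (.br (nat_lit 6) (nat_lit 0) (.cons (.ev (nat_lit 2422629418564906049995265) (nat_lit 2)) (.cons (.br (nat_lit 10) (nat_lit 0) (.cons (.ev (nat_lit 1208981232748869321818626) (nat_lit 2)) (.cons (.br (nat_lit 11) (nat_lit 0) (.cons (.zr (nat_lit 4835758691313485153959937) (nat_lit 1237963651117794623125194240) (nat_lit 8) (nat_lit 2)) (.cons (.br (nat_lit 12) (nat_lit 0) (.cons (.rf (nat_lit 228) (nat_lit 493858305440582043680)) (.cons (.br (nat_lit 12) (nat_lit 0) (.cons (.rf (nat_lit 228) (nat_lit 493858305440582043680)) (.cons (.rf (nat_lit 80) (nat_lit 469703510599745)) .nil))) .nil))) .nil))) .nil))) (.cons (.br (nat_lit 10) (nat_lit 0) (.cons (.br (nat_lit 11) (nat_lit 0) (.cons (.zr (nat_lit 1237944761723922950507201027) (nat_lit 7253647152534043502837760) (nat_lit 8) (nat_lit 5)) (.cons (.rf (nat_lit 75) (nat_lit 14165583937))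 .nil))) (.cons (.ev (nat_lit 1208981232748869321818626) (nat_lit 2)) (.cons (.br (nat_lit 11) (nat_lit 0) (.cons (.rf (nat_lit 230) (nat_lit 493858305440582043680)) (.cons (.rf (nat_lit 232) (nat_lit 493858305440582043680)) (.cons (.br (nat_lit 11) (nat_lit 0) (.cons (.rf (nat_lit 230) (nat_lit 493858305440582043680)) (.cons (.rf (nat_lit 232) (nat_lit 493858305440582043680)) (.cons (.br (nat_lit 12) (nat_lit 0) (.cons (.rf (nat_lit 234) (nat_lit 583706118939841765935136)) (.cons (.rf (nat_lit 235) (nat_lit 583706118939841765935136)) (.cons (.rf (nat_lit 235) (nat_lit 547107778697602015528992)) .nil)))) .nil)))) .nil)))) .nil)))) .nil)))) .nil)))),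
 (.br (nat_lit 12) (nat_lit 0) (.cons (.br (nat_lit 13) (nat_lit 0) (.cons (.zr (nat_lit 81129638428773853201996290459137) (nat_lit 316912650149291635891700367360) (nat_lit 8) (nat_lit 1)) (.cons (.rf (nat_lit 46) (nat_lit 543617402153153)) .nil))) .nil)),
 (.br (nat_lit 10) (nat_lit 0) (.cons (.ev (nat_lit 310694009861133704280605442) (nat_lit 3)) (.cons (.rf (nat_lit 75) (nat_lit 13087616162)) .nil))),
 (.br (nat_lit 11) (nat_lit 0) (.cons (.kr (nat_lit 79229371440084233697695367424) (nat_lit 309489732187829037881688064) (nat_lit 1) (nat_lit 0)) (.cons (.br (nat_lit 12) (nat_lit 0) (.cons (.ev (nat_lit 79538856449977636364753043456) (nat_lit 1)) (.cons (.rf (nat_lit 49) (nat_lit 473177823520930)) .nil))) .nil))),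
 (.br (nat_lit 13) (nat_lit 0) (.cons (.zr (nat_lit 40566676122103083271150112867328) (nat_lit 158458742880239966441833758721) (nat_lit 8) (nat_lit 13)) .nil)),
 (.br (nat_lit 10) (nat_lit 0) (.cons (.rf (nat_lit 239) (nat_lit 15433072009550071840)) (.cons (.br (nat_lit 12) (nat_lit 0) (.cons (.rf (nat_lit 239) (nat_lit 15361083541932968132)) (.cons (.br (nat_lit 14) (nat_lit 0) (.cons (.ev (nat_lit 20769664048312804975483030207856645) (nat_lit 3)) (.cons (.rf (nat_lit 103) (nat_lit 543585226533922)) .nil))) (.cons (.br (nat_lit 13) (nat_lit 0) (.cons (.rf (nat_lit 240) (nat_lit 583706118939841765935136)) (.cons (.rf (nat_lit 240) (nat_lit 547105475072164943333572)) .nil))) .nil)))) .nil))),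
 (.br (nat_lit 11) (nat_lit 0) (.cons (.br (nat_lit 13) (nat_lit 0) (.cons (.ev (nat_lit 5253224245176974698670407775486720) (nat_lit 2)) .nil)) .nil)),
 (.br (nat_lit 10) (nat_lit 0) (.cons (.rf (nat_lit 239) (nat_lit 15433072009550071840)) (.cons (.br (nat_lit 13) (nat_lit 0) (.cons (.ev (nat_lit 40566676122177231102784632522241) (nat_lit 3)) (.cons (.br (nat_lit 14) (nat_lit 0) (.cons (.ev (nat_lit 10384593719492247782137742699266051) (nat_lit 2)) (.cons (.rf (nat_lit 51) (nat_lit 543582001212578)) .nil))) (.cons (.br (nat_lit 12) (nat_lit 0) (.cons (.rf (nat_lit 242) (nat_lit 18240816216834587068448)) (.cons (.br (nat_lit 12) (nat_lit 0) (.cons (.rf (nat_lit 242) (nat_lit 18240816216834587068448)) .nil)) .nil))) .nil)))) .nil))),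
 (.br (nat_lit 12) (nat_lit 0) (.cons (.rf (nat_lit 243) (nat_lit 491554680003509848260)) (.cons (.kr (nat_lit 79228167236630820463189164288) (nat_lit 1208944266640177860968448) (nat_lit 1) (nat_lit 0)) .nil))),
 (.br (nat_lit 11) (nat_lit 0) (.cons (.ev (nat_lit 310694009861133704280605442) (nat_lit 3)) (.cons (.rf (nat_lit 75) (nat_lit 13055142081)) .nil))),
 (.br (nat_lit 12) (nat_lit 0) (.cons (.ev (nat_lit 477230725662465382674921161221) (nat_lit 3)) (.cons (.br (nat_lit 13) (nat_lit 0) (.cons (.ev (nat_lit 40723277954961432205366115959299) (nat_lit 2)) (.cons (.rf (nat_lit 49) (nat_lit 509498181986497)) .nil))) .nil))),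
 (.br (nat_lit 13) (nat_lit 0) (.cons (.zr (nat_lit 40564826465599071767010952347648) (nat_lit 159075295048244548822793978881) (nat_lit 8) (nat_lit 13)) .nil)),
 (.br (nat_lit 11) (nat_lit 0) (.cons (.rf (nat_lit 246) (nat_lit 493858305440582043680)) (.cons (.br (nat_lit 12) (nat_lit 0) (.cons (.rf (nat_lit 246) (nat_lit 492741412629817332771)) (.cons (.br (nat_lit 14) (nat_lit 0) (.cons (.ev (nat_lit 20769346514274876925000006380814849) (nat_lit 3)) (.cons (.rf (nat_lit 103) (nat_lit 543585194059841)) .nil))) (.cons (.br (nat_lit 13) (nat_lit 0) (.cons (.rf (nat_lit 247) (nat_lit 583706118939841765935136)) (.cons (.rf (nat_lit 247) (nat_lit 547106661804791250818083)) .nil))) .nil)))) .nil))),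
 (.br (nat_lit 11) (nat_lit 0) (.cons (.rf (nat_lit 248) (nat_lit 493858305440582043680)) (.cons (.br (nat_lit 13) (nat_lit 0) (.cons (.ev (nat_lit 121694460044576335161877397111813) (nat_lit 3)) (.cons (.br (nat_lit 14) (nat_lit 0) (.cons (.ev (nat_lit 5192297168019855896902217563635968) (nat_lit 1)) (.cons (.rf (nat_lit 51) (nat_lit 543583042447553)) .nil))) (.cons (.rf (nat_lit 155) (nat_lit 17095996508602974341152)) .nil)))) .nil))),
 (.br (nat_lit 12) (nat_lit 0) (.cons (.rf (nat_lit 249) (nat_lit 492741412629817332771)) (.cons (.br (nat_lit 14) (nat_lit 0) (.cons (.br (nat_lit 13) (nat_lit 0) (.cons (.ev (nat_lit 40565440599952402102938002129409) (nat_lit 2)) .nil)) (.cons (.ev (nat_lit 5192297168024559888698603225481473) (nat_lit 1)) .nil))) .nil))),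
 (.br (nat_lit 11) (nat_lit 0) (.cons (.kr (nat_lit 310693935641241172876198144) (nat_lit 79228167236630821562700857344) (nat_lit 1) (nat_lit 0)) (.cons (.br (nat_lit 12) (nat_lit 0) (.cons (.ev (nat_lit 79538856449977636364753043456) (nat_lit 1)) (.cons (.rf (nat_lit 135) (nat_lit 473181016368193)) .nil))) .nil))),
 (.br (nat_lit 12) (nat_lit 0) (.cons (.br (nat_lit 14) (nat_lit 0) (.cons (.ev (nat_lit 1365716132062487477435000219026916612) (nat_lit 3)) .nil)) .nil)),
 (.br (nat_lit 12) (nat_lit 0) (.cons (.ev (nat_lit 40723277954961432205366115959299) (nat_lit 2)) .nil)),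
 (.br (nat_lit 12) (nat_lit 0) (.cons (.br (nat_lit 14) (nat_lit 0) (.cons (.ev (nat_lit 10425158536281699627308625531240961) (nat_lit 2)) (.cons (.ev (nat_lit 31153781772601688907083941501208071) (nat_lit 3)) .nil))) (.cons (.br (nat_lit 13) (nat_lit 0) (.cons (.br (nat_lit 14) (nat_lit 0) (.cons (.ev (nat_lit 1334562508132081389440390335708857602) (nat_lit 3)) .nil)) (.cons (.ev (nat_lit 1329227996094400901172178781514760448) (nat_lit 1)) .nil))) .nil))),
 (.br (nat_lit 12) (nat_lit 0) (.cons (.rf (nat_lit 254) (nat_lit 583706118939841765935136)) (.cons (.br (nat_lit 15) (nat_lit 0) (.cons (.ev (nat_lit 1329227996094405605163975167176605953) (nat_lit 1)) (.cons (.ev (nat_lit 31153781772601688907083941501208071) (nat_lit 3)) .nil))) .nil))),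
 (.br (nat_lit 10) (nat_lit 0) (.cons (.ev (nat_lit 1208925891673327019294976) (nat_lit 1)) (.cons (.br (nat_lit 11) (nat_lit 0) (.cons (.rf (nat_lit 251) (nat_lit 15433072009550071840)) (.cons (.ev (nat_lit 40565440599952402102938002129409) (nat_lit 2)) (.cons (.br (nat_lit 13) (nat_lit 0) (.cons (.br (nat_lit 12) (nat_lit 0) (.cons (.ev (nat_lit 122012615470375955229541310791685) (nat_lit 3)) (.cons (.rf (nat_lit 135) (nat_lit 543583042447553)) .nil))) (.cons (.br (nat_lit 14) (nat_lit 0) (.cons (.ev (nat_lit 5192297168019855896902217563635968) (nat_lit 1)) (.cons (.rf (nat_lit 136) (nat_lit 543585194059841)) .nil))) (.cons (.br (nat_lit 12) (nat_lit 0) (.cons (.rf (nat_lit 252) (nat_lit 583706118939841765935136)) (.cons (.br (nat_lit 12) (nat_lit 0) (.cons (.rf (nat_lit 252) (nat_lit 583706118939841765935136)) .nil)) .nil))) .nil)))) .nil)))) (.cons (.br (nat_lit 11) (nat_lit 0) (.cons (.br (nat_lit 12) (nat_lit 0) (.cons (.br (nat_lit 13) (nat_lit 0) (.cons (.ev (nat_lit 81288718550173092573810069078529)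 (nat_lit 3)) (.cons (.rf (nat_lit 135) (nat_lit 543616360918178)) .nil))) (.cons (.br (nat_lit 14) (nat_lit 0) (.cons (.ev (nat_lit 5192376086697360411951232597426433) (nat_lit 1)) (.cons (.rf (nat_lit 136) (nat_lit 543618512530466)) .nil))) (.cons (.br (nat_lit 13) (nat_lit 0) (.cons (.br (nat_lit 13) (nat_lit 0) (.cons (.ev (nat_lit 40723277954961432205366115959299) (nat_lit 2)) .nil)) (.cons (.br (nat_lit 13) (nat_lit 0) (.cons (.ev (nat_lit 40723277954961432205366115959299) (nat_lit 2)) .nil)) .nil))) .nil)))) (.cons (.br (nat_lit 13) (nat_lit 0) (.cons (.ev (nat_lit 20282409608392555991063427350528) (nat_lit 1)) (.cons (.kr (nat_lit 20282409608374036906816896499968) (nat_lit 1208944266640177860968448) (nat_lit 1) (nat_lit 0)) (.cons (.br (nat_lit 12) (nat_lit 0) (.cons (.rf (nat_lit 253) (nat_lit 583706118939841765935136)) (.cons (.rf (nat_lit 253) (nat_lit 546997101576631806560452)) .nil))) .nil)))) (.cons (.br (nat_lit 14) (nat_lit 0) (.cons (.br (nat_lit 12) (nat_lit 0) (.cons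 (.ev (nat_lit 5192376086697360411951232597426433) (nat_lit 1)) (.cons (.rf (nat_lit 109) (nat_lit 543618512562241)) .nil))) (.cons (.ev (nat_lit 10384593719492247782137742699266051) (nat_lit 2)) (.cons (.br (nat_lit 12) (nat_lit 0) (.cons (.br (nat_lit 12) (nat_lit 0) (.cons (.ev (nat_lit 5192535163215520093240156558983170) (nat_lit 2)) .nil)) (.cons (.br (nat_lit 12) (nat_lit 0) (.cons (.ev (nat_lit 5192535163215520093240156558983170) (nat_lit 2)) .nil)) .nil))) .nil)))) (.cons (.br (nat_lit 12) (nat_lit 0) (.cons (.rf (nat_lit 254) (nat_lit 583706118939841765935136)) (.cons (.rf (nat_lit 255) (nat_lit 583706118939841765935136)) (.cons (.br (nat_lit 12) (nat_lit 0) (.cons (.rf (nat_lit 254) (nat_lit 583706118939841765935136)) (.cons (.rf (nat_lit 255) (nat_lit 583706118939841765935136)) .nil))) .nil)))) .nil))))) .nil)))),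
 (.br (nat_lit 11) (nat_lit 0) (.cons (.ev (nat_lit 5192297168019855896902217563635968) (nat_lit 1)) (.cons (.rf (nat_lit 109) (nat_lit 543583042447553)) .nil))),
 (.br (nat_lit 11) (nat_lit 0) (.cons (.br (nat_lit 12) (nat_lit 0) (.cons (.ev (nat_lit 1334481696639421175821836381126197506) (nat_lit 3)) .nil)) .nil)),
 (.br (nat_lit 12) (nat_lit 0) (.cons (.ev (nat_lit 10384752794787296097620462892351489) (nat_lit 2)) (.cons (.br (nat_lit 14) (nat_lit 0) (.cons (.ev (nat_lit 5192535163201371369043189139898881) (nat_lit 2)) .nil)) .nil))),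
 (.br (nat_lit 11) (nat_lit 0) (.cons (.rf (nat_lit 259) (nat_lit 583706118939841765935136)) (.cons (.rf (nat_lit 259) (nat_lit 546997101576631806560452)) .nil))),
 (.br (nat_lit 11) (nat_lit 0) (.cons (.rf (nat_lit 260) (nat_lit 583706118939841765935136)) (.cons (.br (nat_lit 14) (nat_lit 0) (.cons (.br (nat_lit 12) (nat_lit 0) (.cons (.ev (nat_lit 40644359272716031308859458125827) (nat_lit 2)) .nil)) (.cons (.ev (nat_lit 2668881150727501353466778051221258753) (nat_lit 2)) .nil))) .nil))),
 (.br (nat_lit 10) (nat_lit 0) (.cons (.rf (nat_lit 256) (nat_lit 493858305440582043680)) (.cons (.rf (nat_lit 256) (nat_lit 492741412629817332771)) (.cons (.br (nat_lit 13) (nat_lit 0) (.cons (.rf (nat_lit 256) (nat_lit 383181184470373075140)) (.cons (.rf (nat_lit 256) (nat_lit 382064291659608364231)) (.cons (.br (nat_lit 14) (nat_lit 0) (.cons (.rf (nat_lit 257) (nat_lit 17022140995484340291616)) (.cons (.rf (nat_lit 257) (nat_lit 17021024102673575580707)) (.cons (.br (nat_lit 11) (nat_lit 0) (.cons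 (.rf (nat_lit 258) (nat_lit 583706118939841765935136)) (.cons (.br (nat_lit 11) (nat_lit 0) (.cons (.rf (nat_lit 258) (nat_lit 583706118939841765935136)) .nil)) .nil))) .nil)))) (.cons (.br (nat_lit 11) (nat_lit 0) (.cons (.rf (nat_lit 260) (nat_lit 583706118939841765935136)) (.cons (.rf (nat_lit 261) (nat_lit 583706118939841765935136)) (.cons (.rf (nat_lit 261) (nat_lit 546997101576631806560452)) .nil)))) .nil))))) .nil))))]

theorem c6 : chkAll C T R L6 (nat_lit 229) = true := by decide +kernel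

theorem l6 : (nat_lit 229) + L6.length = (nat_lit 263) := by decide +kernel

/-- part of the certificates -/
def L7 : List Prf := [(.br (nat_lit 13) (nat_lit 0) (.cons (.rf (nat_lit 256) (nat_lit 383181184470373075140)) (.cons (.rf (nat_lit 256) (nat_lit 382064291659608364231)) (.cons (.kr (nat_lit 20282409608374036906816896499968) (nat_lit 1208944266640177860968448) (nat_lit 1) (nat_lit 0)) .nil)))),
 (.br (nat_lit 14) (nat_lit 0) (.cons (.kr (nat_lit 5212579268138479299235918557217024) (nat_lit 1329228075013078387168145753335988224) (nat_lit 1) (nat_lit 0)) (.cons (.br (nat_lit 15) (nat_lit 0) (.cons (.ev (nat_lit 1334440575054263296541177805078069505) (nat_lit 1)) (.cons (.rf (nat_lit 49) (nat_lit 582136816447681)) .nil))) .nil))),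
 (.br (nat_lit 15) (nat_lit 0) (.cons (.ev (nat_lit 1344865971277459835189862686215242497) (nat_lit 2)) .nil)),
 (.br (nat_lit 13) (nat_lit 0) (.cons (.rf (nat_lit 264) (nat_lit 583706118939841765935136)) (.cons (.br (nat_lit 14) (nat_lit 0) (.cons (.rf (nat_lit 264) (nat_lit 582562419716453062153251)) (.cons (.br (nat_lit 16) (nat_lit 0) (.cons (.ev (nat_lit 4083440529161166295309294611245400328713) (nat_lit 4)) (.cons (.rf (nat_lit 103) (nat_lit 616223828521025)) .nil))) (.cons (.br (nat_lit 15) (nat_lit 0) (.cons (.rf (nat_lit 265) (nat_lit 677582165103132179601393696)) (.cons (.rf (nat_lit 265) (nat_lit 640104320995855286481720355)) .nil))) .nil)))) .nil))),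
 (.br (nat_lit 13) (nat_lit 0) (.cons (.rf (nat_lit 264) (nat_lit 583706118939841765935136)) (.cons (.br (nat_lit 15) (nat_lit 0) (.cons (.kr (nat_lit 2658455991571045412512513291439833089) (nat_lit 159384780057992712592285630464) (nat_lit 0) (nat_lit 1)) (.cons (.br (nat_lit 16) (nat_lit 0) (.cons (.ev (nat_lit 683223189833757466830854207456086589441) (nat_lit 2)) (.cons (.rf (nat_lit 51) (nat_lit 616221676908737)) .nil))) (.cons (.br (nat_lit 14) (nat_lit 0) (.cons (.br (nat_lit 14) (nat_lit 0) (.cons (.ev (nat_lit 1334440575053059093088047145076916480) (nat_lit 1)) .nil)) (.cons (.br (nat_lit 14) (nat_lit 0) (.cons (.ev (nat_lit 1334440575053059093088047145076916480) (nat_lit 1)) .nil)) .nil))) .nil)))) .nil))),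
 (.br (nat_lit 14) (nat_lit 0) (.cons (.rf (nat_lit 267) (nat_lit 582562419716453062153251)) (.cons (.br (nat_lit 16) (nat_lit 0) (.cons (.br (nat_lit 15) (nat_lit 0) (.cons (.ev (nat_lit 5348187775974270397365309663101453831) (nat_lit 3)) .nil)) (.cons (.ev (nat_lit 1361139892842608111377740858895674507779) (nat_lit 3)) .nil))) .nil))),
 (.br (nat_lit 16) (nat_lit 0) (.cons (.ev (nat_lit 340287559297334645833607623361937080577) (nat_lit 1)) .nil)),
 (.br (nat_lit 5) (nat_lit 0) (.cons (.ev (nat_lit 10425158845771431671024665787171328) (nat_lit 2)) (.cons (.kr (nat_lit 40564819221470440298702461468675) (nat_lit 158767018982688436557046743040) (nat_lit 0) (nat_lit 1)) (.cons (.br (nat_lit 14) (nat_lit 0) (.cons (.br (nat_lit 15) (nat_lit 0) (.cons (.ev (nat_lit 2658456150339282747235293693869162497) (nat_lit 2)) (.cons (.rf (nat_lit 136) (nat_lit 615191958402086)) .nil))) (.cons (.rf (nat_lit 251) (nat_lit 14427747703532521668)) (.cons (.br (nat_lit 15) (nat_lit 0) (.cons (.rf (nat_lit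 269) (nat_lit 677582165103132179601393696)) (.cons (.br (nat_lit 15) (nat_lit 0) (.cons (.rf (nat_lit 269) (nat_lit 677582165103132179601393696)) .nil)) .nil))) .nil)))) .nil)))),
 (.br (nat_lit 16) (nat_lit 0) (.cons (.ev (nat_lit 683223230557035407569629431106749071875) (nat_lit 2)) .nil)),
 (.br (nat_lit 5) (nat_lit 0) (.cons (.kr (nat_lit 158765814779235306996523597825) (nat_lit 40564822834080799691782077153280) (nat_lit 0) (nat_lit 1)) (.cons (.ev (nat_lit 1329227996094405605091634998667182336) (nat_lit 1)) (.cons (.br (nat_lit 15) (nat_lit 0) (.cons (.br (nat_lit 14) (nat_lit 0) (.cons (.ev (nat_lit 5212658805790725751402549999566848) (nat_lit 1)) (.cons (.rf (nat_lit 136) (nat_lit 614093520548033)) .nil))) (.cons (.br (nat_lit 16) (nat_lit 0) (.cons (.ev (nat_lit 683223230557032999162723165388700516865) (nat_lit 2)) (.cons (.rf (nat_lit 135) (nat_lit 614091377324097)) .nil))) (.cons (.br (nat_lit 14) (nat_lit 0) (.cons (.rf (nat_lit 271) (nat_lit 677582165103132179601393696)) (.cons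 (.br (nat_lit 14) (nat_lit 0) (.cons (.rf (nat_lit 271) (nat_lit 677582165103132179601393696)) .nil)) .nil))) .nil)))) .nil)))),
 (.br (nat_lit 14) (nat_lit 0) (.cons (.ev (nat_lit 5212658806994929204533210000719873) (nat_lit 1)) (.cons (.br (nat_lit 16) (nat_lit 0) (.cons (.br (nat_lit 15) (nat_lit 0) (.cons (.ev (nat_lit 2658456150339282747235293693869162497) (nat_lit 2)) .nil)) (.cons (.ev (nat_lit 174905147022521217195809672375254682567171) (nat_lit 2)) .nil))) .nil))),
 (.br (nat_lit 13) (nat_lit 0) (.cons (.ev (nat_lit 313116565203639791991783427) (nat_lit 2)) (.cons (.ev (nat_lit 310708158297378471989477377) (nat_lit 2)) (.cons (.br (nat_lit 12) (nat_lit 0) (.cons (.rf (nat_lit 75) (nat_lit 15206887489)) (.cons (.rf (nat_lit 75) (nat_lit 15106224289)) (.cons (.kr (nat_lit 40564820420951526945393339269121) (nat_lit 158765810056868821927855128576) (nat_lit 0) (nat_lit 1)) (.cons (.br (nat_lit 2) (nat_lit 0) (.cons (.rf (nat_lit 25) (nat_lit 448992290)) (.cons (.rf (nat_lit 270) (nat_lit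 583706118939841765935136)) (.cons (.rf (nat_lit 272) (nat_lit 583706118939841765935136)) (.cons (.br (nat_lit 5) (nat_lit 0) (.cons (.rf (nat_lit 270) (nat_lit 583706117849023054353443)) (.cons (.rf (nat_lit 272) (nat_lit 583706117849023054353443)) (.cons (.kr (nat_lit 4722366483969156841473) (nat_lit 1208925819614629191548928) (nat_lit 0) (nat_lit 1)) (.cons (.br (nat_lit 14) (nat_lit 0) (.cons (.br (nat_lit 14) (nat_lit 0) (.cons (.ev (nat_lit 5212658806994929204533210000719873) (nat_lit 1)) (.cons (.ev (nat_lit 5212658805790725751402549999566848) (nat_lit 1)) .nil))) (.cons (.rf (nat_lit 273) (nat_lit 677582165103132179601393696)) (.cons (.rf (nat_lit 273) (nat_lit 640105464693987856473920547)) .nil)))) .nil))))) .nil))))) .nil))))) .nil)))),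
 (.br (nat_lit 15) (nat_lit 0) (.cons (.br (nat_lit 16) (nat_lit 0) (.cons (.ev (nat_lit 88142463691786656923222923908228694868740) (nat_lit 3)) .nil)) .nil)),
 (.br (nat_lit 12) (nat_lit 0) (.cons (.ev (nat_lit 20520094091194464282252358516994) (nat_lit 2)) (.cons (.br (nat_lit 14) (nat_lit 0) (.cons (.ev (nat_lit 10425158846975635124155325821878787) (nat_lit 2)) (.cons (.ev (nat_lit 10384752484093360312543369337241603) (nat_lit 2)) (.cons (.br (nat_lit 15) (nat_lit 0) (.cons (.rf (nat_lit 275) (nat_lit 677582165103132179601393696)) (.cons (.br (nat_lit 15) (nat_lit 0) (.cons (.rf (nat_lit 275) (nat_lit 677582165103132179601393696)) .nil)) .nil))) .nil)))) .nil))),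
 (.br (nat_lit 14) (nat_lit 0) (.cons (.kr (nat_lit 20282409603651670423947251286016) (nat_lit 5192296858534827628530496329220096) (nat_lit 13) (nat_lit 0)) (.cons (.ev (nat_lit 5212579577628229933527555171746048) (nat_lit 1)) .nil))),
 (.br (nat_lit 13) (nat_lit 0) (.cons (.rf (nat_lit 277) (nat_lit 19926519232773908561233952)) (.cons (.rf (nat_lit 277) (nat_lit 18755372345022236548237344)) .nil))),
 (.br (nat_lit 13) (nat_lit 0) (.cons (.rf (nat_lit 278) (nat_lit 19926519232773908561233952)) (.cons (.br (nat_lit 15) (nat_lit 0) (.cons (.br (nat_lit 14) (nat_lit 0) (.cons (.ev (nat_lit 5212658496305734376800455455932416) (nat_lit 1)) .nil)) (.cons (.kr (nat_lit 1329227995784915872903807060280344576) (nat_lit 340282366920938463463374607431768211456) (nat_lit 15) (nat_lit 0)) .nil))) .nil))),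
 (.br (nat_lit 12) (nat_lit 0) (.cons (.ev (nat_lit 31154256838155209305242724590814721) (nat_lit 3)) (.cons (.br (nat_lit 14) (nat_lit 0) (.cons (.kr (nat_lit 2658455991569836486692898662248349697) (nat_lit 40565129901238981807592418967552) (nat_lit 0) (nat_lit 1)) (.cons (.br (nat_lit 15) (nat_lit 0) (.cons (.ev (nat_lit 1334420372181098243136822990449213697) (nat_lit 1)) (.cons (.rf (nat_lit 49) (nat_lit 582136820641857)) .nil))) .nil))) (.cons (.br (nat_lit 14) (nat_lit 0) (.cons (.br (nat_lit 15) (nat_lit 0) (.cons (.ev (nat_lit 1334420372182311891322919389740663040) (nat_lit 1)) (.cons (.rf (nat_lit 103) (nat_lit 615125386440897)) .nil))) (.cons (.br (nat_lit 16) (nat_lit 0) (.cons (.ev (nat_lit 1361160865329514516030653211006180787727) (nat_lit 4)) (.cons (.rf (nat_lit 49) (nat_lit 546919195095105)) .nil))) (.cons (.br (nat_lit 15) (nat_lit 0) (.cons (.br (nat_lit 15) (nat_lit 0) (.cons (.ev (nat_lit 1344865971277459835189862686215242497) (nat_lit 2)) .nil)) (.cons (.br (nat_lit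 15) (nat_lit 0) (.cons (.ev (nat_lit 1344865971277459835189862686215242497) (nat_lit 2)) .nil)) .nil))) .nil)))) .nil)))),
 (.br (nat_lit 14) (nat_lit 0) (.cons (.kr (nat_lit 10384593717074396142345534346100737) (nat_lit 40565129901238981807592418967552) (nat_lit 0) (nat_lit 1)) (.cons (.br (nat_lit 16) (nat_lit 0) (.cons (.ev (nat_lit 680575159159180237072172612260798267905) (nat_lit 2)) (.cons (.rf (nat_lit 231) (nat_lit 615125665093697)) .nil))) (.cons (.br (nat_lit 15) (nat_lit 0) (.cons (.br (nat_lit 15) (nat_lit 0) (.cons (.ev (nat_lit 1334440575363753028729288317936402432) (nat_lit 1)) .nil)) (.cons (.br (nat_lit 15) (nat_lit 0) (.cons (.ev (nat_lit 1334440575363753028729288317936402432) (nat_lit 1)) .nil)) .nil))) .nil)))),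
 (.br (nat_lit 6) (nat_lit 0) (.cons (.rf (nat_lit 75) (nat_lit 5471670304)) (.cons (.rf (nat_lit 75) (nat_lit 7619153952)) .nil))),
 (.br (nat_lit 14) (nat_lit 0) (.cons (.kr (nat_lit 40564820420951526945393339269121) (nat_lit 10384594026554683597207733425668096) (nat_lit 0) (nat_lit 1)) (.cons (.kr (nat_lit 10384593717074396142345534346100737) (nat_lit 40565129901238981807592418967552) (nat_lit 0) (nat_lit 1)) (.cons (.kr (nat_lit 40565128697035528678031895822337) (nat_lit 10384593718278599595477293892370432) (nat_lit 0) (nat_lit 1)) (.cons (.br (nat_lit 15) (nat_lit 0) (.cons (.kr (nat_lit 40564820420951526945393339269121) (nat_lit 2658455991879316774147760861327917056) (nat_lit 0) (nat_lit 1)) (.cons (.kr (nat_lit 2658455991569836486692898662248349697) (nat_lit 40565129901238981807592418967552) (nat_lit 0) (nat_lit 1)) (.cons (.kr (nat_lit 40565128697035528678031895822337) (nat_lit 2658455991571040690146030421794619392) (nat_lit 0) (nat_lit 1)) (.cons (.kr (nat_lit 5192296858534827628530496329220096)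 (nat_lit 1329227995784915872903807060280344576) (nat_lit 14) (nat_lit 0)) .nil))))) .nil))))),
 (.br (nat_lit 14) (nat_lit 0) (.cons (.kr (nat_lit 40565128697035528678031895822337) (nat_lit 10384593718278599595477293892370432) (nat_lit 0) (nat_lit 1)) (.cons (.br (nat_lit 16) (nat_lit 0) (.cons (.br (nat_lit 15) (nat_lit 0) (.cons (.ev (nat_lit 1334440575362539380543189719621566465) (nat_lit 1)) .nil)) (.cons (.ev (nat_lit 174224582248114523479468259705849974489091) (nat_lit 2)) .nil))) .nil))),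
 (.br (nat_lit 5) (nat_lit 0) (.cons (.ev (nat_lit 79537647542604485433839649025) (nat_lit 1)) (.cons (.rf (nat_lit 280) (nat_lit 583706118939841765935136)) (.cons (.rf (nat_lit 280) (nat_lit 547107778697602015528992)) (.cons (.br (nat_lit 12) (nat_lit 0) (.cons (.rf (nat_lit 281) (nat_lit 19926519232773908561233952)) (.cons (.rf (nat_lit 281) (nat_lit 19889920892531668810827808)) (.cons (.rf (nat_lit 282) (nat_lit 17628861505)) (.cons (.br (nat_lit 14) (nat_lit 0) (.cons (.rf (nat_lit 283) (nat_lit 19926519232773908561233952)) (.cons (.rf (nat_lit 284) (nat_lit 677582165103132179601393696)) (.cons (.br (nat_lit 14) (nat_lit 0) (.cons (.rf (nat_lit 283) (nat_lit 19926519232773908561233952)) (.cons (.rf (nat_lit 284) (nat_lit 677582165103132179601393696)) .nil))) .nil)))) .nil))))) .nil))))),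
 (.br (nat_lit 15) (nat_lit 0) (.cons (.br (nat_lit 16) (nat_lit 0) (.cons (.ev (nat_lit 87112285952121885621734172962949162860545) (nat_lit 1)) .nil)) .nil)),
 (.br (nat_lit 15) (nat_lit 0) (.cons (.ev (nat_lit 1334440575054268000388859006975738113) (nat_lit 1)) .nil)),
 (.br (nat_lit 12) (nat_lit 0) (.cons (.br (nat_lit 15) (nat_lit 0) (.cons (.ev (nat_lit 2658456150336855450863096497239490563) (nat_lit 2)) (.cons (.br (nat_lit 16) (nat_lit 0) (.cons (.ev (nat_lit 2047042348419878029594568421189834114567) (nat_lit 3)) .nil)) .nil))) (.cons (.br (nat_lit 17) (nat_lit 0) (.cons (.ev (nat_lit 2658456150336855450863096497239490563) (nat_lit 2)) (.cons (.ev (nat_lit 87112285952122193902522022374586332479488) (nat_lit 1)) .nil))) .nil))),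
 (.br (nat_lit 12) (nat_lit 0) (.cons (.rf (nat_lit 288) (nat_lit 677582165103132179601393696)) (.cons (.br (nat_lit 17) (nat_lit 0) (.cons (.ev (nat_lit 87112285952122193902522022374586332479488) (nat_lit 1)) (.cons (.ev (nat_lit 680575118752819791575504894683349647875) (nat_lit 3)) .nil))) .nil))),
 (.br (nat_lit 5) (nat_lit 0) (.cons (.rf (nat_lit 285) (nat_lit 583706117849023054353443)) (.cons (.kr (nat_lit 4722366483969156841473) (nat_lit 1208925819614629191548928) (nat_lit 0) (nat_lit 1)) (.cons (.ev (nat_lit 20282409603651670706521756467201) (nat_lit 1)) (.cons (.br (nat_lit 14) (nat_lit 0) (.cons (.br (nat_lit 12) (nat_lit 0) (.cons (.br (nat_lit 15) (nat_lit 0) (.cons (.ev (nat_lit 2658456150339282747235293693869162497) (nat_lit 2)) (.cons (.rf (nat_lit 136) (nat_lit 615190888855586)) .nil))) (.cons (.br (nat_lit 16) (nat_lit 0) (.cons (.ev (nat_lit 680575159159180237072172612260798267905) (nat_lit 2)) (.cons (.rf (nat_lit 135) (nat_lit 546921342513217)) .nil))) (.cons (.br (nat_lit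 15) (nat_lit 0) (.cons (.rf (nat_lit 286) (nat_lit 677582165103132179601393696)) (.cons (.br (nat_lit 15) (nat_lit 0) (.cons (.rf (nat_lit 286) (nat_lit 677582165103132179601393696)) .nil)) .nil))) .nil)))) (.cons (.br (nat_lit 15) (nat_lit 0) (.cons (.br (nat_lit 12) (nat_lit 0) (.cons (.ev (nat_lit 2658456150339282747235293693869162497) (nat_lit 2)) (.cons (.rf (nat_lit 109) (nat_lit 615189809935430)) .nil))) (.cons (.kr (nat_lit 40565128697035528678031895822337) (nat_lit 2658455991571040690146030421794619392) (nat_lit 0) (nat_lit 1)) (.cons (.br (nat_lit 12) (nat_lit 0) (.cons (.rf (nat_lit 287) (nat_lit 21174442659472880612509728)) (.cons (.br (nat_lit 12) (nat_lit 0) (.cons (.rf (nat_lit 287) (nat_lit 21174442659472880612509728)) .nil)) .nil))) .nil)))) (.cons (.br (nat_lit 16) (nat_lit 0) (.cons (.br (nat_lit 12) (nat_lit 0) (.cons (.ev (nat_lit 3402875674258666717845044057103632173577) (nat_lit 4)) (.cons (.rf (nat_lit 135) (nat_lit 615053315815586)) .nil))) (.cons (.br (nat_lit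 15) (nat_lit 0) (.cons (.ev (nat_lit 341616787213581918904792230629593841920) (nat_lit 1)) (.cons (.rf (nat_lit 136) (nat_lit 615056535894210)) .nil))) (.cons (.br (nat_lit 12) (nat_lit 0) (.cons (.br (nat_lit 12) (nat_lit 0) (.cons (.ev (nat_lit 680575159159180237072172612260798267905) (nat_lit 2)) .nil)) (.cons (.br (nat_lit 12) (nat_lit 0) (.cons (.ev (nat_lit 680575159159180237072172612260798267905) (nat_lit 2)) .nil)) .nil))) .nil)))) (.cons (.br (nat_lit 12) (nat_lit 0) (.cons (.rf (nat_lit 288) (nat_lit 677582165103132179601393696)) (.cons (.rf (nat_lit 289) (nat_lit 677582165103132179601393696)) (.cons (.br (nat_lit 12) (nat_lit 0) (.cons (.rf (nat_lit 288) (nat_lit 677582165103132179601393696)) (.cons (.rf (nat_lit 289) (nat_lit 677582165103132179601393696)) .nil))) .nil)))) .nil))))) .nil)))))]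

theorem c7 : chkAll C T R L7 (nat_lit 263) = true := by decide +kernel

theorem l7 : (nat_lit 263) + L7.length = (nat_lit 291) := by decide +kernel

/-- part of the certificates -/
def L8 : List Prf := [(.br (nat_lit 12) (nat_lit 0) (.cons (.br (nat_lit 15) (nat_lit 0) (.cons (.ev (nat_lit 1334440575362539380543189719621566465) (nat_lit 1)) (.cons (.ev (nat_lit 1334440575363753028729288317936402432) (nat_lit 1)) .nil))) (.cons (.ev (nat_lit 10384752484093360312543369337241603) (nat_lit 2)) (.cons (.ev (nat_lit 10384752486520656684740565966913537) (nat_lit 2)) .nil)))),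
 (.br (nat_lit 14) (nat_lit 0) (.cons (.rf (nat_lit 283) (nat_lit 21135449664074556163328032)) (.cons (.rf (nat_lit 291) (nat_lit 677582165103132179601393696)) (.cons (.rf (nat_lit 291) (nat_lit 640105464693987856473920547)) .nil)))),
 (.br (nat_lit 14) (nat_lit 0) (.cons (.rf (nat_lit 292) (nat_lit 677582165103132179601393696)) (.cons (.kr (nat_lit 10384593717074396142345534346100737) (nat_lit 40565129901238981807592418967552) (nat_lit 0) (nat_lit 1)) (.cons (.br (nat_lit 16) (nat_lit 0) (.cons (.br (nat_lit 12) (nat_lit 0) (.cons (.rf (nat_lit 292) (nat_lit 677545566762889939850987552)) (.cons (.ev (nat_lit 87452568298760723971278064691797561442560) (nat_lit 1)) .nil))) (.cons (.br (nat_lit 15) (nat_lit 0) (.cons (.rf (nat_lit 292) (nat_lit 677545566762889939850987552)) (.cons (.ev (nat_lit 1334440575362539380543189719621566465) (nat_lit 1)) .nil))) (.cons (.rf (nat_lit 109) (nat_lit 543585060044962)) .nil)))) .nil)))),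
 (.br (nat_lit 9) (nat_lit 1) (.cons (.br (nat_lit 10) (nat_lit 1) (.cons (.br (nat_lit 1) (nat_lit 0) (.cons (.kr (nat_lit 4722366482869645213697) (nat_lit 309485009821345068724846592) (nat_lit 0) (nat_lit 1)) (.cons (.kr (nat_lit 1208925819614629191483392) (nat_lit 309485009821346168236408832) (nat_lit 3) (nat_lit 0)) (.cons (.ev (nat_lit 310698676526807189590900739) (nat_lit 2)) (.cons (.br (nat_lit 6) (nat_lit 0) (.cons (.kr (nat_lit 4740885284541687660545) (nat_lit 310693935640959697916395520) (nat_lit 0) (nat_lit 1)) (.cons (.kr (nat_lit 309489732187830137393250305) (nat_lit 1208944338416301233930240) (nat_lit 0) (nat_lit 1)) (.cons (.br (nat_lit 2) (nat_lit 0) (.cons (.ev (nat_lit 317980565644520281440649731) (nat_lit 3)) (.cons (.ev (nat_lit 313116565203639791991783427) (nat_lit 2)) (.cons (.br (nat_lit 5) (nat_lit 0) (.cons (.ev (nat_lit 310708158297378471989477377) (nat_lit 2)) (.cons (.kr (nat_lit 4722366483969156841473) (nat_lit 1208925819614629191548928) (nat_lit 0) (nat_lit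 1)) (.cons (.br (nat_lit 12) (nat_lit 0) (.cons (.ev (nat_lit 79228167255149903610225164288) (nat_lit 1)) (.cons (.ev (nat_lit 79229371458603036469249441793) (nat_lit 1)) (.cons (.br (nat_lit 13) (nat_lit 0) (.cons (.rf (nat_lit 266) (nat_lit 583706118939841765935136)) (.cons (.rf (nat_lit 267) (nat_lit 583706118939841765935136)) (.cons (.br (nat_lit 13) (nat_lit 0) (.cons (.rf (nat_lit 266) (nat_lit 583706118939841765935136)) (.cons (.rf (nat_lit 267) (nat_lit 583706118939841765935136)) (.cons (.br (nat_lit 14) (nat_lit 0) (.cons (.rf (nat_lit 267) (nat_lit 582562419716453062153251)) (.cons (.rf (nat_lit 268) (nat_lit 677582165103132179601393696)) (.cons (.rf (nat_lit 268) (nat_lit 640105464695078675185502240)) .nil)))) .nil)))) .nil)))) .nil)))) .nil)))) .nil)))) (.cons (.br (nat_lit 13) (nat_lit 0) (.cons (.ev (nat_lit 313116565203639791991783427) (nat_lit 2)) (.cons (.ev (nat_lit 310708158297378471989477377) (nat_lit 2)) (.cons (.rf (nat_lit 274) (nat_lit 493858305440582043680)) (.cons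 (.br (nat_lit 13) (nat_lit 0) (.cons (.ev (nat_lit 313116565203639791991783427) (nat_lit 2)) (.cons (.ev (nat_lit 310708158297378471989477377) (nat_lit 2)) (.cons (.rf (nat_lit 274) (nat_lit 493858305440582043680)) (.cons (.br (nat_lit 2) (nat_lit 0) (.cons (.br (nat_lit 12) (nat_lit 0) (.cons (.rf (nat_lit 276) (nat_lit 583706118939841765935136)) (.cons (.rf (nat_lit 276) (nat_lit 547107778697602015528992)) (.cons (.br (nat_lit 12) (nat_lit 0) (.cons (.rf (nat_lit 276) (nat_lit 583706118939841765935136)) (.cons (.rf (nat_lit 276) (nat_lit 547107778697602015528992)) (.cons (.br (nat_lit 14) (nat_lit 0) (.cons (.rf (nat_lit 278) (nat_lit 21174442659472845144426528)) (.cons (.rf (nat_lit 279) (nat_lit 21174442659472845144426528)) (.cons (.rf (nat_lit 279) (nat_lit 20003295771721173131429920)) .nil)))) .nil)))) .nil)))) (.cons (.rf (nat_lit 285) (nat_lit 583706118939841765935136)) (.cons (.rf (nat_lit 290) (nat_lit 583706118939841765935136)) (.cons (.rf (nat_lit 290) (nat_lit 547107778697602015528992))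 (.cons (.br (nat_lit 5) (nat_lit 0) (.cons (.rf (nat_lit 285) (nat_lit 583706117849023054353443)) (.cons (.rf (nat_lit 290) (nat_lit 583706117849023054353443)) (.cons (.rf (nat_lit 290) (nat_lit 547107777606783303947299)) (.cons (.kr (nat_lit 4722366483969156841473) (nat_lit 1208925819614629191548928) (nat_lit 0) (nat_lit 1)) (.cons (.br (nat_lit 14) (nat_lit 0) (.cons (.rf (nat_lit 292) (nat_lit 677582165103132179601393696)) (.cons (.rf (nat_lit 283) (nat_lit 21135449664074556163328032)) (.cons (.rf (nat_lit 293) (nat_lit 677582165103132179601393696)) (.cons (.rf (nat_lit 293) (nat_lit 640105464693987856473920547)) .nil))))) .nil)))))) .nil)))))) .nil))))) .nil))))) .nil))))) .nil))))) .nil)) .nil)),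
 (.br (nat_lit 4) (nat_lit 1) (.cons (.rf (nat_lit 182) (nat_lit 262372)) (.cons (.rf (nat_lit 4) (nat_lit 7479392)) (.cons (.br (nat_lit 7) (nat_lit 1) (.cons (.rf (nat_lit 4) (nat_lit 4431968)) (.cons (.br (nat_lit 8) (nat_lit 1) (.cons (.br (nat_lit 1) (nat_lit 0) (.cons (.rf (nat_lit 227) (nat_lit 325702574508064)) (.cons (.rf (nat_lit 227) (nat_lit 325599397680163)) (.cons (.ev (nat_lit 36966390170732462851) (nat_lit 2)) (.cons (.br (nat_lit 2) (nat_lit 0) (.cons (.ev (nat_lit 4777706718389342502914) (nat_lit 2)) (.cons (.rf (nat_lit 227) (nat_lit 291474902321348)) (.cons (.rf (nat_lit 236) (nat_lit 11584701642934304)) (.cons (.br (nat_lit 5) (nat_lit 0) (.cons (.rf (nat_lit 227) (nat_lit 291371725493447)) (.cons (.rf (nat_lit 236) (nat_lit 11584598466106403)) (.cons (.br (nat_lit 6) (nat_lit 0) (.cons (.br (nat_lit 10) (nat_lit 0) (.cons (.ev (nat_lit 310694009861133704280605442) (nat_lit 3)) (.cons (.br (nat_lit 11) (nat_lit 0) (.cons (.zr (nat_lit 4849870449966923007525377) (nat_lit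 1237940131520789493307146240) (nat_lit 8) (nat_lit 1)) (.cons (.br (nat_lit 12) (nat_lit 0) (.cons (.rf (nat_lit 237) (nat_lit 493858305440582043680)) (.cons (.br (nat_lit 12) (nat_lit 0) (.cons (.rf (nat_lit 237) (nat_lit 493858305440582043680)) (.cons (.rf (nat_lit 80) (nat_lit 469665929636033)) .nil))) .nil))) .nil))) .nil))) (.cons (.ev (nat_lit 309485009893684142034386944) (nat_lit 1)) (.cons (.br (nat_lit 11) (nat_lit 0) (.cons (.rf (nat_lit 282) (nat_lit 11151803554)) (.cons (.rf (nat_lit 282) (nat_lit 13232019618)) (.cons (.br (nat_lit 10) (nat_lit 0) (.cons (.rf (nat_lit 241) (nat_lit 493858305440582043680)) (.cons (.rf (nat_lit 243) (nat_lit 493858305440582043680)) (.cons (.br (nat_lit 10) (nat_lit 0) (.cons (.rf (nat_lit 241) (nat_lit 493858305440582043680)) (.cons (.rf (nat_lit 243) (nat_lit 493858305440582043680)) (.cons (.br (nat_lit 12) (nat_lit 0) (.cons (.rf (nat_lit 243) (nat_lit 491554680003509848260)) (.cons (.rf (nat_lit 244) (nat_lit 583706118939841765935136)) (.cons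 (.rf (nat_lit 244) (nat_lit 547107778697602015528992)) .nil)))) .nil)))) .nil)))) .nil)))) .nil)))) (.cons (.br (nat_lit 6) (nat_lit 0) (.cons (.br (nat_lit 10) (nat_lit 0) (.cons (.rf (nat_lit 282) (nat_lit 12224465089)) (.cons (.rf (nat_lit 282) (nat_lit 13264557249)) (.cons (.br (nat_lit 11) (nat_lit 0) (.cons (.rf (nat_lit 248) (nat_lit 493858305440582043680)) (.cons (.rf (nat_lit 249) (nat_lit 493858305440582043680)) (.cons (.br (nat_lit 11) (nat_lit 0) (.cons (.rf (nat_lit 248) (nat_lit 493858305440582043680)) (.cons (.rf (nat_lit 249) (nat_lit 493858305440582043680)) (.cons (.br (nat_lit 12) (nat_lit 0) (.cons (.rf (nat_lit 249) (nat_lit 492741412629817332771)) (.cons (.rf (nat_lit 250) (nat_lit 583706118939841765935136)) (.cons (.rf (nat_lit 250) (nat_lit 547107778697602015528992)) .nil)))) .nil)))) .nil)))) .nil)))) (.cons (.rf (nat_lit 236) (nat_lit 12676373877590212)) (.cons (.rf (nat_lit 236) (nat_lit 13802170607604935)) (.cons (.br (nat_lit 10) (nat_lit 0) (.cons (.rf (nat_lit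 256) (nat_lit 493858305440582043680)) (.cons (.rf (nat_lit 256) (nat_lit 492741412629817332771)) (.cons (.rf (nat_lit 262) (nat_lit 493858305440582043680)) (.cons (.br (nat_lit 10) (nat_lit 0) (.cons (.rf (nat_lit 256) (nat_lit 493858305440582043680)) (.cons (.rf (nat_lit 256) (nat_lit 492741412629817332771)) (.cons (.rf (nat_lit 262) (nat_lit 493858305440582043680)) (.cons (.br (nat_lit 13) (nat_lit 0) (.cons (.rf (nat_lit 256) (nat_lit 383181184470373075140)) (.cons (.rf (nat_lit 256) (nat_lit 382064291659608364231)) (.cons (.rf (nat_lit 263) (nat_lit 583706118939841765935136)) (.cons (.rf (nat_lit 263) (nat_lit 547107778697602015528992)) .nil))))) .nil))))) .nil))))) .nil))))) .nil))))) .nil))))) .nil))))) (.cons (.rf (nat_lit 6) (nat_lit 11046887520)) .nil))) (.cons (.br (nat_lit 8) (nat_lit 1) (.cons (.rf (nat_lit 5) (nat_lit 11046887520)) (.cons (.rf (nat_lit 5) (nat_lit 10003652704)) (.cons (.br (nat_lit 9) (nat_lit 1) (.cons (.rf (nat_lit 294) (nat_lit 407901468851537952)) (.cons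 (.br (nat_lit 9) (nat_lit 1) (.cons (.rf (nat_lit 294) (nat_lit 407901468851537952)) .nil)) .nil))) .nil)))) .nil)))) .nil)))),
 (.br (nat_lit 12) (nat_lit 0) (.cons (.br (nat_lit 13) (nat_lit 0) (.cons (.zr (nat_lit 316912650057059039224119951365) (nat_lit 81129638419347711097726381982208) (nat_lit 8) (nat_lit 1)) (.cons (.rf (nat_lit 46) (nat_lit 543617438853185)) .nil))) .nil)),
 (.br (nat_lit 13) (nat_lit 0) (.cons (.br (nat_lit 14) (nat_lit 0) (.cons (.ev (nat_lit 1334562826282671485493760310745563394) (nat_lit 3)) .nil)) .nil)),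
 (.br (nat_lit 11) (nat_lit 0) (.cons (.ev (nat_lit 310693954160043940152147968) (nat_lit 1)) (.cons (.br (nat_lit 12) (nat_lit 0) (.cons (.ev (nat_lit 79229371458603036469249442048) (nat_lit 1)) (.cons (.kr (nat_lit 309485009821345073019748608) (nat_lit 79228162514264337593560793088) (nat_lit 1) (nat_lit 0)) (.cons (.br (nat_lit 13) (nat_lit 0) (.cons (.rf (nat_lit 297) (nat_lit 583706118939841765935136)) (.cons (.rf (nat_lit 297) (nat_lit 547106661804893386441792)) .nil))) .nil)))) .nil))),
 (.br (nat_lit 14) (nat_lit 0) (.cons (.ev (nat_lit 10425159155251756019936862744347139) (nat_lit 2)) .nil)),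
 (.br (nat_lit 11) (nat_lit 0) (.cons (.ev (nat_lit 310693954160043940152147968) (nat_lit 1)) (.cons (.br (nat_lit 13) (nat_lit 0) (.cons (.ev (nat_lit 20282413244614748365834923672067) (nat_lit 2)) (.cons (.ev (nat_lit 20282719093383858251885638123521) (nat_lit 1)) (.cons (.br (nat_lit 12) (nat_lit 0) (.cons (.rf (nat_lit 299) (nat_lit 583706118939841765935136)) (.cons (.br (nat_lit 12) (nat_lit 0) (.cons (.rf (nat_lit 299) (nat_lit 583706118939841765935136)) .nil)) .nil))) .nil)))) .nil))),
 (.br (nat_lit 12) (nat_lit 0) (.cons (.rf (nat_lit 300) (nat_lit 492741412731952956480)) (.cons (.br (nat_lit 14) (nat_lit 0) (.cons (.br (nat_lit 13) (nat_lit 0) (.cons (.ev (nat_lit 81288718550173237821477941673987) (nat_lit 3)) .nil)) (.cons (.ev (nat_lit 20769346509439173790658876848209923) (nat_lit 3)) .nil))) .nil))),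
 (.br (nat_lit 5) (nat_lit 0) (.cons (.ev (nat_lit 4815105171566993866755) (nat_lit 3)) (.cons (.ev (nat_lit 2422629418001956062888451) (nat_lit 2)) (.cons (.br (nat_lit 6) (nat_lit 0) (.cons (.ev (nat_lit 2422629418001947506638851) (nat_lit 2)) (.cons (.br (nat_lit 10) (nat_lit 0) (.cons (.ev (nat_lit 310694009862259587007579910) (nat_lit 3)) (.cons (.br (nat_lit 11) (nat_lit 0) (.cons (.zr (nat_lit 4835703282399166624432135) (nat_lit 1237954261797129732772463104) (nat_lit 24) (nat_lit 1)) (.cons (.br (nat_lit 12) (nat_lit 0) (.cons (.rf (nat_lit 296) (nat_lit 493858305440582043680)) (.cons (.br (nat_lit 12) (nat_lit 0) (.cons (.rf (nat_lit 296) (nat_lit 493858305440582043680)) (.cons (.rf (nat_lit 80) (nat_lit 469703510599745)) .nil))) .nil))) .nil))) .nil))) (.cons (.br (nat_lit 10) (nat_lit 0) (.cons (.rf (nat_lit 282) (nat_lit 12224500801)) (.cons (.rf (nat_lit 282) (nat_lit 13264656449)) (.cons (.br (nat_lit 11) (nat_lit 0) (.cons (.rf (nat_lit 298) (nat_lit 493858305440582043680))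 (.cons (.rf (nat_lit 300) (nat_lit 493858305440582043680)) (.cons (.br (nat_lit 11) (nat_lit 0) (.cons (.rf (nat_lit 298) (nat_lit 493858305440582043680)) (.cons (.rf (nat_lit 300) (nat_lit 493858305440582043680)) (.cons (.br (nat_lit 12) (nat_lit 0) (.cons (.rf (nat_lit 300) (nat_lit 492741412731952956480)) (.cons (.rf (nat_lit 301) (nat_lit 583706118939841765935136)) (.cons (.rf (nat_lit 301) (nat_lit 547107778697602015528992)) .nil)))) .nil)))) .nil)))) .nil)))) .nil)))) .nil)))),
 (.br (nat_lit 12) (nat_lit 0) (.cons (.br (nat_lit 13) (nat_lit 0) (.cons (.zr (nat_lit 81129638414606683384638949294085) (nat_lit 316912654798086752311552639488) (nat_lit 8) (nat_lit 1)) (.cons (.rf (nat_lit 46) (nat_lit 543617402153153)) .nil))) .nil)),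
 (.br (nat_lit 12) (nat_lit 0) (.cons (.ev (nat_lit 476614173494462486961977689089) (nat_lit 3)) (.cons (.br (nat_lit 13) (nat_lit 0) (.cons (.ev (nat_lit 40723894507129435664046226407425) (nat_lit 2)) (.cons (.rf (nat_lit 49) (nat_lit 509497140751522)) .nil))) .nil))),
 (.br (nat_lit 13) (nat_lit 0) (.cons (.zr (nat_lit 40566676122103083271150112867328) (nat_lit 158458742880239966441833758721) (nat_lit 8) (nat_lit 13)) .nil)),
 (.br (nat_lit 10) (nat_lit 0) (.cons (.rf (nat_lit 304) (nat_lit 493858305440582043680)) (.cons (.br (nat_lit 12) (nat_lit 0) (.cons (.rf (nat_lit 304) (nat_lit 491554680003509848260)) (.cons (.br (nat_lit 14) (nat_lit 0) (.cons (.ev (nat_lit 20769347130827044927904515417833477) (nat_lit 3)) (.cons (.rf (nat_lit 103) (nat_lit 543585226533922)) .nil))) (.cons (.br (nat_lit 13) (nat_lit 0) (.cons (.rf (nat_lit 305) (nat_lit 583706118939841765935136)) (.cons (.rf (nat_lit 305) (nat_lit 547105475072164943333572)) .nil))) .nil)))) .nil))),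
 (.br (nat_lit 11) (nat_lit 0) (.cons (.br (nat_lit 13) (nat_lit 0) (.cons (.ev (nat_lit 20282719088679938513093980586241) (nat_lit 1)) .nil)) .nil)),
 (.br (nat_lit 10) (nat_lit 0) (.cons (.rf (nat_lit 306) (nat_lit 493858305440582043680)) (.cons (.br (nat_lit 13) (nat_lit 0) (.cons (.ev (nat_lit 121695076596744338057624700322305) (nat_lit 3)) (.cons (.br (nat_lit 14) (nat_lit 0) (.cons (.ev (nat_lit 5192296859748475886967064180555776) (nat_lit 1)) (.cons (.rf (nat_lit 51) (nat_lit 543582001212578)) .nil))) (.cons (.br (nat_lit 12) (nat_lit 0) (.cons (.rf (nat_lit 307) (nat_lit 18240816216868946806816)) (.cons (.br (nat_lit 12) (nat_lit 0) (.cons (.rf (nat_lit 307) (nat_lit 18240816216868946806816)) .nil)) .nil))) .nil)))) .nil))),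
 (.br (nat_lit 12) (nat_lit 0) (.cons (.rf (nat_lit 308) (nat_lit 491554680003509848260)) (.cons (.br (nat_lit 14) (nat_lit 0) (.cons (.br (nat_lit 13) (nat_lit 0) (.cons (.ev (nat_lit 40565440599952401539988015022595) (nat_lit 2)) .nil)) (.cons (.ev (nat_lit 5192296859743771895170678485155841) (nat_lit 1)) .nil))) .nil))),
 (.br (nat_lit 6) (nat_lit 0) (.cons (.br (nat_lit 10) (nat_lit 0) (.cons (.ev (nat_lit 310694009862259587007579910) (nat_lit 3)) (.cons (.br (nat_lit 11) (nat_lit 0) (.cons (.zr (nat_lit 4835703279023665759518725) (nat_lit 1237944780314780013252576768) (nat_lit 8) (nat_lit 1)) (.cons (.br (nat_lit 12) (nat_lit 0) (.cons (.rf (nat_lit 303) (nat_lit 493858305440582043680)) (.cons (.br (nat_lit 12) (nat_lit 0) (.cons (.rf (nat_lit 303) (nat_lit 493858305440582043680)) (.cons (.rf (nat_lit 80) (nat_lit 469665929636033)) .nil))) .nil))) .nil))) .nil))) (.cons (.ev (nat_lit 618974797566140964635934721) (nat_lit 2)) (.cons (.br (nat_lit 11) (nat_lit 0) (.cons (.rf (nat_lit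 282) (nat_lit 11151803554)) (.cons (.rf (nat_lit 282) (nat_lit 13232019618)) (.cons (.br (nat_lit 10) (nat_lit 0) (.cons (.rf (nat_lit 306) (nat_lit 493858305440582043680)) (.cons (.rf (nat_lit 308) (nat_lit 493858305440582043680)) (.cons (.br (nat_lit 10) (nat_lit 0) (.cons (.rf (nat_lit 306) (nat_lit 493858305440582043680)) (.cons (.rf (nat_lit 308) (nat_lit 493858305440582043680)) (.cons (.br (nat_lit 12) (nat_lit 0) (.cons (.rf (nat_lit 308) (nat_lit 491554680003509848260)) (.cons (.rf (nat_lit 309) (nat_lit 583706118939841765935136)) (.cons (.rf (nat_lit 309) (nat_lit 547107778697602015528992)) .nil)))) .nil)))) .nil)))) .nil)))) .nil))))]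

theorem c8 : chkAll C T R L8 (nat_lit 291) = true := by decide +kernel

theorem l8 : (nat_lit 291) + L8.length = (nat_lit 311) := by decide +kernel

/-- part of the certificates -/
def L9 : List Prf := [(.br (nat_lit 11) (nat_lit 0) (.cons (.br (nat_lit 13) (nat_lit 0) (.cons (.ev (nat_lit 20282719088679938513089702461441) (nat_lit 1)) .nil)) .nil)),
 (.br (nat_lit 11) (nat_lit 0) (.cons (.kr (nat_lit 309485009821626543718268928) (nat_lit 1208925819615732981301248) (nat_lit 3) (nat_lit 0)) (.cons (.ev (nat_lit 618974797566140973192446465) (nat_lit 2)) (.cons (.br (nat_lit 13) (nat_lit 0) (.cons (.ev (nat_lit 121694464880279901850770180539397) (nat_lit 3)) (.cons (.ev (nat_lit 121695081432447905872426014213125) (nat_lit 3)) (.cons (.br (nat_lit 12) (nat_lit 0) (.cons (.rf (nat_lit 311) (nat_lit 18240816216868946806816)) (.cons (.br (nat_lit 12) (nat_lit 0) (.cons (.rf (nat_lit 311) (nat_lit 18240816216868946806816)) .nil)) .nil))) .nil)))) .nil)))),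
 (.br (nat_lit 12) (nat_lit 0) (.cons (.br (nat_lit 13) (nat_lit 0) (.cons (.ev (nat_lit 1334562826282671485493760310745563394) (nat_lit 3)) .nil)) .nil)),
 (.br (nat_lit 12) (nat_lit 0) (.cons (.br (nat_lit 13) (nat_lit 0) (.cons (.ev (nat_lit 5212579268138497817756111344763136) (nat_lit 1)) (.cons (.br (nat_lit 14) (nat_lit 0) (.cons (.ev (nat_lit 1334562826282671485493760310745563394) (nat_lit 3)) .nil)) .nil))) (.cons (.br (nat_lit 13) (nat_lit 0) (.cons (.br (nat_lit 14) (nat_lit 0) (.cons (.ev (nat_lit 1334562826282671485493760310745563394) (nat_lit 3)) .nil)) (.cons (.ev (nat_lit 1329228075013083109534627523486351361) (nat_lit 1)) .nil))) .nil))),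
 (.br (nat_lit 12) (nat_lit 0) (.cons (.rf (nat_lit 314) (nat_lit 583706118939841765935136)) (.cons (.br (nat_lit 14) (nat_lit 0) (.cons (.br (nat_lit 13) (nat_lit 0) (.cons (.ev (nat_lit 40724518312889539663720888664067) (nat_lit 3)) .nil)) (.cons (.ev (nat_lit 1329228075013083109534627523486351361) (nat_lit 1)) .nil))) .nil))),
 (.br (nat_lit 10) (nat_lit 0) (.cons (.ev (nat_lit 2422629562119334605750785) (nat_lit 2)) (.cons (.rf (nat_lit 312) (nat_lit 493858305440582043680)) (.cons (.br (nat_lit 11) (nat_lit 0) (.cons (.rf (nat_lit 312) (nat_lit 458082835899616461888)) (.cons (.ev (nat_lit 618974797566140973192446465) (nat_lit 2)) (.cons (.br (nat_lit 14) (nat_lit 0) (.cons (.ev (nat_lit 5192297168024559888417132543737856) (nat_lit 1)) (.cons (.ev (nat_lit 5192296859748475886967064180555776) (nat_lit 1)) (.cons (.br (nat_lit 12) (nat_lit 0) (.cons (.rf (nat_lit 313) (nat_lit 583706118939841765935136)) (.cons (.br (nat_lit 12) (nat_lit 0) (.cons (.rf (nat_lit 313) (nat_lit 583706118939841765935136))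 .nil)) .nil))) .nil)))) (.cons (.br (nat_lit 12) (nat_lit 0) (.cons (.rf (nat_lit 314) (nat_lit 583706118939841765935136)) (.cons (.rf (nat_lit 315) (nat_lit 583706118939841765935136)) (.cons (.br (nat_lit 12) (nat_lit 0) (.cons (.rf (nat_lit 314) (nat_lit 583706118939841765935136)) (.cons (.rf (nat_lit 315) (nat_lit 583706118939841765935136)) .nil))) .nil)))) .nil))))) .nil)))),
 (.br (nat_lit 11) (nat_lit 0) (.cons (.ev (nat_lit 5212579578837137306679585630322945) (nat_lit 1)) (.cons (.rf (nat_lit 109) (nat_lit 543583042447553)) .nil))),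
 (.br (nat_lit 11) (nat_lit 0) (.cons (.br (nat_lit 12) (nat_lit 0) (.cons (.ev (nat_lit 1334562826282671485493760310745563394) (nat_lit 3)) .nil)) .nil)),
 (.br (nat_lit 12) (nat_lit 0) (.cons (.ev (nat_lit 5192376397395999900593236201242625) (nat_lit 1)) (.cons (.br (nat_lit 14) (nat_lit 0) (.cons (.ev (nat_lit 1334562826282671485493760310745563394) (nat_lit 3)) .nil)) .nil))),
 (.br (nat_lit 11) (nat_lit 0) (.cons (.rf (nat_lit 319) (nat_lit 583706118939841765935136)) (.cons (.rf (nat_lit 319) (nat_lit 546997101576631806560452)) .nil))),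
 (.br (nat_lit 11) (nat_lit 0) (.cons (.rf (nat_lit 320) (nat_lit 583706118939841765935136)) (.cons (.ev (nat_lit 40565440599952401539979458772995) (nat_lit 2)) .nil))),
 (.br (nat_lit 10) (nat_lit 0) (.cons (.rf (nat_lit 316) (nat_lit 493858305440582043680)) (.cons (.rf (nat_lit 316) (nat_lit 492741378544956871715)) (.cons (.br (nat_lit 13) (nat_lit 0) (.cons (.rf (nat_lit 316) (nat_lit 454732123554389694532)) (.cons (.rf (nat_lit 316) (nat_lit 417839795285434407079)) (.cons (.br (nat_lit 14) (nat_lit 0) (.cons (.rf (nat_lit 317) (nat_lit 17022140995484340291616)) (.cons (.rf (nat_lit 317) (nat_lit 17021024068588715119651)) (.cons (.br (nat_lit 11) (nat_lit 0) (.cons (.rf (nat_lit 318) (nat_lit 583706118939841765935136)) (.cons (.br (nat_lit 11) (nat_lit 0) (.cons (.rf (nat_lit 318) (nat_lit 583706118939841765935136)) .nil)) .nil))) .nil)))) (.cons (.br (nat_lit 11) (nat_lit 0) (.cons (.rf (nat_lit 320) (nat_lit 583706118939841765935136)) (.cons (.rf (nat_lit 321) (nat_lit 583706118939841765935136))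 (.cons (.rf (nat_lit 321) (nat_lit 546997101576631806560452)) .nil)))) .nil))))) .nil)))),
 (.br (nat_lit 12) (nat_lit 0) (.cons (.rf (nat_lit 316) (nat_lit 417839795285434407079)) (.cons (.ev (nat_lit 2668840664824548962260022007867572227) (nat_lit 2)) .nil))),
 (.br (nat_lit 11) (nat_lit 0) (.cons (.rf (nat_lit 322) (nat_lit 458082835899616461888)) (.cons (.rf (nat_lit 316) (nat_lit 454732123554389694532)) (.cons (.br (nat_lit 14) (nat_lit 0) (.cons (.rf (nat_lit 323) (nat_lit 583706118939841765935136)) (.cons (.rf (nat_lit 323) (nat_lit 583670343470300800353344)) (.cons (.ev (nat_lit 20769188055531996612417422981464583) (nat_lit 3)) .nil)))) .nil)))),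
 (.br (nat_lit 8) (nat_lit 1) (.cons (.br (nat_lit 10) (nat_lit 1) (.cons (.kr (nat_lit 309489732259885532407922689) (nat_lit 1208944266358707196002304) (nat_lit 0) (nat_lit 1)) .nil)) .nil)),
 (.br (nat_lit 7) (nat_lit 1) (.cons (.br (nat_lit 8) (nat_lit 1) (.cons (.br (nat_lit 1) (nat_lit 0) (.cons (.ev (nat_lit 4814816376041865609735) (nat_lit 3)) (.cons (.ev (nat_lit 4814672263061369258497) (nat_lit 3)) (.cons (.ev (nat_lit 18518801667764257024) (nat_lit 1)) (.cons (.br (nat_lit 2) (nat_lit 0) (.cons (.ev (nat_lit 18518801672042512384) (nat_lit 1)) (.cons (.ev (nat_lit 4814672823795186794497) (nat_lit 3)) (.cons (.rf (nat_lit 302) (nat_lit 11584701642934304)) (.cons (.br (nat_lit 5) (nat_lit 0) (.cons (.ev (nat_lit 4815105171566993866755) (nat_lit 3)) (.cons (.rf (nat_lit 302) (nat_lit 11550513605645347)) (.cons (.rf (nat_lit 310) (nat_lit 407901468851537952)) (.cons (.br (nat_lit 6) (nat_lit 0) (.cons (.rf (nat_lit 310) (nat_lit 372998570698212416)) (.cons (.rf (nat_lit 302) (nat_lit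 12676378045454404)) (.cons (.rf (nat_lit 302) (nat_lit 13836256509270183)) (.cons (.br (nat_lit 10) (nat_lit 0) (.cons (.rf (nat_lit 316) (nat_lit 493858305440582043680)) (.cons (.rf (nat_lit 316) (nat_lit 492741378544956871715)) (.cons (.rf (nat_lit 322) (nat_lit 493858305440582043680)) (.cons (.br (nat_lit 10) (nat_lit 0) (.cons (.rf (nat_lit 316) (nat_lit 493858305440582043680)) (.cons (.rf (nat_lit 316) (nat_lit 492741378544956871715)) (.cons (.rf (nat_lit 322) (nat_lit 493858305440582043680)) (.cons (.br (nat_lit 11) (nat_lit 0) (.cons (.rf (nat_lit 322) (nat_lit 458082835899616461888)) (.cons (.rf (nat_lit 316) (nat_lit 454732123554389694532)) (.cons (.rf (nat_lit 324) (nat_lit 583706118939841765935136)) (.cons (.rf (nat_lit 324) (nat_lit 547107778697602015528992)) .nil))))) .nil))))) .nil))))) .nil))))) .nil))))) .nil))))) .nil))))) (.cons (.rf (nat_lit 6) (nat_lit 11043709152)) .nil))) (.cons (.rf (nat_lit 4) (nat_lit 238723)) (.cons (.br (nat_lit 9) (nat_lit 1) (.cons (.rf (nat_lit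 5) (nat_lit 11013203075)) (.cons (.rf (nat_lit 5) (nat_lit 8925717635)) (.cons (.br (nat_lit 8) (nat_lit 1) (.cons (.rf (nat_lit 325) (nat_lit 407901468851537952)) (.cons (.br (nat_lit 8) (nat_lit 1) (.cons (.rf (nat_lit 325) (nat_lit 407901468851537952)) .nil)) .nil))) .nil)))) .nil)))),
 (.br (nat_lit 14) (nat_lit 0) (.cons (.br (nat_lit 15) (nat_lit 0) (.cons (.ev (nat_lit 1334420292644664367165461707922341888) (nat_lit 1)) .nil)) .nil)),
 (.br (nat_lit 13) (nat_lit 0) (.cons (.kr (nat_lit 79228162514264619068520661248) (nat_lit 20282409603651670425046762979328) (nat_lit 1) (nat_lit 0)) (.cons (.br (nat_lit 14) (nat_lit 0) (.cons (.ev (nat_lit 31154573758096563465018264777130501) (nat_lit 4)) (.cons (.ev (nat_lit 31356605572507937523078047199266821) (nat_lit 4)) (.cons (.br (nat_lit 15) (nat_lit 0) (.cons (.rf (nat_lit 327) (nat_lit 21174442659472880612543553)) (.cons (.br (nat_lit 15) (nat_lit 0) (.cons (.rf (nat_lit 327) (nat_lit 21174442659472880612543553)) .nil)) .nil))) .nil))))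 .nil))),
 (.br (nat_lit 15) (nat_lit 0) (.cons (.ev (nat_lit 340287559217796998309450164580607066113) (nat_lit 1)) (.cons (.ev (nat_lit 2668881150416807417825818353321771011) (nat_lit 2)) .nil))),
 (.br (nat_lit 14) (nat_lit 0) (.cons (.rf (nat_lit 329) (nat_lit 677582165103132179601393696)) (.cons (.rf (nat_lit 329) (nat_lit 640105464695078675185502240)) .nil))),
 (.br (nat_lit 14) (nat_lit 0) (.cons (.rf (nat_lit 330) (nat_lit 677582165103132179601393696)) (.cons (.br (nat_lit 16) (nat_lit 0) (.cons (.br (nat_lit 15) (nat_lit 0) (.cons (.ev (nat_lit 2668840744053925143013084894976803331) (nat_lit 2)) .nil)) (.cons (.ev (nat_lit 340287559217796998309450164580607066113) (nat_lit 1)) .nil))) .nil))),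
 (.br (nat_lit 5) (nat_lit 0) (.cons (.ev (nat_lit 325262455047655596711086085) (nat_lit 4)) (.cons (.br (nat_lit 6) (nat_lit 0) (.cons (.ev (nat_lit 18447026652509634561) (nat_lit 1)) (.cons (.br (nat_lit 12) (nat_lit 0) (.cons (.rf (nat_lit 25) (nat_lit 448989345)) (.cons (.br (nat_lit 12) (nat_lit 0) (.cons (.rf (nat_lit 25) (nat_lit 448989345)) (.cons (.br (nat_lit 13) (nat_lit 0) (.cons (.rf (nat_lit 328) (nat_lit 583706118939841765935136)) (.cons (.rf (nat_lit 328) (nat_lit 547107778697602015528992)) (.cons (.br (nat_lit 13) (nat_lit 0) (.cons (.rf (nat_lit 328) (nat_lit 583706118939841765935136)) (.cons (.rf (nat_lit 328) (nat_lit 547107778697602015528992)) (.cons (.br (nat_lit 14) (nat_lit 0) (.cons (.rf (nat_lit 330) (nat_lit 677582165103132179601393696)) (.cons (.rf (nat_lit 331) (nat_lit 677582165103132179601393696)) (.cons (.rf (nat_lit 331) (nat_lit 640105464695078675185502240)) .nil)))) .nil)))) .nil)))) .nil))) .nil))) .nil))) .nil))),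
 (.br (nat_lit 15) (nat_lit 0) (.cons (.br (nat_lit 16) (nat_lit 0) (.cons (.ev (nat_lit 87114949600410312793548888942653915267840) (nat_lit 2)) .nil)) .nil)),
 (.br (nat_lit 13) (nat_lit 0) (.cons (.ev (nat_lit 41040501327325367583365360910337) (nat_lit 3)) (.cons (.br (nat_lit 14) (nat_lit 0) (.cons (.ev (nat_lit 20769504664751117825270041022562817) (nat_lit 3)) (.cons (.ev (nat_lit 20850317390515667448485157898814977) (nat_lit 3)) (.cons (.br (nat_lit 15) (nat_lit 0) (.cons (.rf (nat_lit 333) (nat_lit 677582165103132179601393696)) (.cons (.br (nat_lit 15) (nat_lit 0) (.cons (.rf (nat_lit 333) (nat_lit 677582165103132179601393696)) .nil)) .nil))) .nil)))) .nil))),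
 (.br (nat_lit 15) (nat_lit 0) (.cons (.ev (nat_lit 340297943811516500020555848052690190336) (nat_lit 2)) (.cons (.ev (nat_lit 5337762300530197974454442621837248001) (nat_lit 3)) .nil))),
 (.br (nat_lit 14) (nat_lit 0) (.cons (.rf (nat_lit 335) (nat_lit 677582165103132179601393696)) (.cons (.rf (nat_lit 335) (nat_lit 640105464695078675185502240)) .nil))),
 (.br (nat_lit 14) (nat_lit 0) (.cons (.rf (nat_lit 336) (nat_lit 677582165103132179601393696)) (.cons (.br (nat_lit 16) (nat_lit 0) (.cons (.br (nat_lit 15) (nat_lit 0) (.cons (.ev (nat_lit 5337681487804433424831218708868497921) (nat_lit 3)) .nil)) (.cons (.ev (nat_lit 340297943811516500020555848052690190336) (nat_lit 2)) .nil))) .nil))),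
 (.br (nat_lit 2) (nat_lit 0) (.cons (.ev (nat_lit 2446259625391951307801860) (nat_lit 3)) (.cons (.br (nat_lit 5) (nat_lit 0) (.cons (.ev (nat_lit 2422592525077849535873024) (nat_lit 2)) (.cons (.br (nat_lit 12) (nat_lit 0) (.cons (.rf (nat_lit 25) (nat_lit 448960577)) (.cons (.br (nat_lit 12) (nat_lit 0) (.cons (.rf (nat_lit 25) (nat_lit 448960577)) (.cons (.br (nat_lit 13) (nat_lit 0) (.cons (.rf (nat_lit 334) (nat_lit 583706118939841765935136)) (.cons (.rf (nat_lit 334) (nat_lit 547107778697602015528992)) (.cons (.br (nat_lit 13) (nat_lit 0) (.cons (.rf (nat_lit 334) (nat_lit 583706118939841765935136)) (.cons (.rf (nat_lit 334) (nat_lit 547107778697602015528992)) (.cons (.br (nat_lit 14) (nat_lit 0) (.cons (.rf (nat_lit 336) (nat_lit 677582165103132179601393696)) (.cons (.rf (nat_lit 337) (nat_lit 677582165103132179601393696)) (.cons (.rf (nat_lit 337) (nat_lit 640105464695078675185502240)) .nil)))) .nil)))) .nil)))) .nil))) .nil))) .nil))) .nil))),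
 (.br (nat_lit 13) (nat_lit 0) (.cons (.br (nat_lit 14) (nat_lit 0) (.cons (.ev (nat_lit 5212579268138497745981096090140673) (nat_lit 1)) (.cons (.rf (nat_lit 46) (nat_lit 545817499217089)) .nil))) .nil)),
 (.br (nat_lit 12) (nat_lit 0) (.cons (.br (nat_lit 14) (nat_lit 0) (.cons (.kr (nat_lit 5212579268138479299235918557217024) (nat_lit 1329228075013078387168145753335988224) (nat_lit 1) (nat_lit 0)) (.cons (.br (nat_lit 15) (nat_lit 0) (.cons (.ev (nat_lit 2668881150106113482328977133392691200) (nat_lit 2)) (.cons (.rf (nat_lit 49) (nat_lit 616254995379362)) .nil))) .nil))) (.cons (.br (nat_lit 14) (nat_lit 0) (.cons (.br (nat_lit 15) (nat_lit 0) (.cons (.ev (nat_lit 15961404814103588283964944079706130957) (nat_lit 4)) (.cons (.rf (nat_lit 231) (nat_lit 616224070501538)) .nil))) (.cons (.br (nat_lit 16) (nat_lit 0) (.cons (.ev (nat_lit 340287559218107692245091123178978213888) (nat_lit 1)) (.cons (.rf (nat_lit 51) (nat_lit 616254995379362)) .nil))) (.cons (.br (nat_lit 15) (nat_lit 0)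 (.cons (.br (nat_lit 15) (nat_lit 0) (.cons (.ev (nat_lit 2668840744053934550997240616287469571) (nat_lit 2)) .nil)) (.cons (.br (nat_lit 15) (nat_lit 0) (.cons (.ev (nat_lit 2668840744053934550997240616287469571) (nat_lit 2)) .nil)) .nil))) .nil)))) .nil)))]

theorem c9 : chkAll C T R L9 (nat_lit 311) = true := by decide +kernel

theorem l9 : (nat_lit 311) + L9.length = (nat_lit 341) := by decide +kernel

/-- part of the certificates -/
def L10 : List Prf := [(.br (nat_lit 14) (nat_lit 0) (.cons (.ev (nat_lit 5212579578832415011971739829731585) (nat_lit 1)) .nil)),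
 (.br (nat_lit 12) (nat_lit 0) (.cons (.rf (nat_lit 340) (nat_lit 583706118939841765935136)) (.cons (.br (nat_lit 15) (nat_lit 0) (.cons (.rf (nat_lit 340) (nat_lit 470372707878515205441732)) (.cons (.kr (nat_lit 2658455991880525681448573818476953601) (nat_lit 158456329769413959728775561216) (nat_lit 0) (nat_lit 1)) (.cons (.br (nat_lit 14) (nat_lit 0) (.cons (.rf (nat_lit 341) (nat_lit 661701333072207058929696)) (.cons (.rf (nat_lit 341) (nat_lit 624992315675118397524164)) .nil))) .nil)))) .nil))),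
 (.br (nat_lit 14) (nat_lit 0) (.cons (.rf (nat_lit 340) (nat_lit 470372707878515205441732)) (.cons (.ev (nat_lit 10425317305713774406776329083093505) (nat_lit 2)) .nil))),
 (.br (nat_lit 13) (nat_lit 0) (.cons (.ev (nat_lit 18447026652509634561) (nat_lit 1)) (.cons (.ev (nat_lit 40565129915424744173061506466307) (nat_lit 2)) (.cons (.br (nat_lit 6) (nat_lit 0) (.cons (.br (nat_lit 12) (nat_lit 0) (.cons (.ev (nat_lit 20361948464824014261702377931008) (nat_lit 1)) (.cons (.br (nat_lit 14) (nat_lit 0) (.cons (.rf (nat_lit 339) (nat_lit 18240815054650796509216)) (.cons (.br (nat_lit 14) (nat_lit 0) (.cons (.rf (nat_lit 339) (nat_lit 18240815054650796509216)) (.cons (.rf (nat_lit 80) (nat_lit 541167540712610)) .nil))) .nil))) .nil))) (.cons (.ev (nat_lit 40565132333313133338229118992387) (nat_lit 2)) (.cons (.br (nat_lit 12) (nat_lit 0) (.cons (.rf (nat_lit 340) (nat_lit 583706118939841765935136)) (.cons (.rf (nat_lit 342) (nat_lit 583706118939841765935136)) (.cons (.br (nat_lit 12) (nat_lit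 0) (.cons (.rf (nat_lit 340) (nat_lit 583706118939841765935136)) (.cons (.rf (nat_lit 342) (nat_lit 583706118939841765935136)) (.cons (.br (nat_lit 14) (nat_lit 0) (.cons (.rf (nat_lit 340) (nat_lit 470372707878515205441732)) (.cons (.rf (nat_lit 343) (nat_lit 677582165103132179601393696)) (.cons (.rf (nat_lit 343) (nat_lit 640105464695078675185502240)) .nil)))) .nil)))) .nil)))) .nil)))) .nil)))),
 (.br (nat_lit 14) (nat_lit 0) (.cons (.ev (nat_lit 1365635317166729452262993797226889476) (nat_lit 3)) (.cons (.br (nat_lit 15) (nat_lit 0) (.cons (.ev (nat_lit 1334440654281216884913843175426162945) (nat_lit 1)) (.cons (.rf (nat_lit 135) (nat_lit 616257147023425)) .nil))) .nil))),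
 (.br (nat_lit 16) (nat_lit 0) (.cons (.ev (nat_lit 680575159000726320413657277594293239811) (nat_lit 2)) .nil)),
 (.br (nat_lit 13) (nat_lit 0) (.cons (.kr (nat_lit 10384594026559387444888935323402241) (nat_lit 40564820416247679264191441534976) (nat_lit 0) (nat_lit 1)) (.cons (.rf (nat_lit 345) (nat_lit 583706118939841765935136)) (.cons (.br (nat_lit 14) (nat_lit 0) (.cons (.rf (nat_lit 345) (nat_lit 582562385870186624324643)) (.cons (.ev (nat_lit 10506605405303372589061682988712961) (nat_lit 3)) (.cons (.br (nat_lit 15) (nat_lit 0) (.cons (.rf (nat_lit 346) (nat_lit 677582165103132179601393696)) (.cons (.rf (nat_lit 346) (nat_lit 640104320962009020043891747)) .nil))) .nil)))) .nil)))),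
 (.br (nat_lit 13) (nat_lit 0) (.cons (.br (nat_lit 14) (nat_lit 0) (.cons (.zr (nat_lit 43100136185721823045642811867145) (nat_lit 155768916588020172603555275379843584) (nat_lit 64) (nat_lit 8)) (.cons (.br (nat_lit 15) (nat_lit 0) (.cons (.ev (nat_lit 1334440654591915524546599258987495680) (nat_lit 1)) (.cons (.rf (nat_lit 135) (nat_lit 582138968059969)) .nil))) .nil))) (.cons (.kr (nat_lit 2658455991880525681448573818476953601) (nat_lit 158456329769413959728775561216) (nat_lit 0) (nat_lit 1)) (.cons (.br (nat_lit 15) (nat_lit 0) (.cons (.br (nat_lit 14) (nat_lit 0) (.cons (.zr (nat_lit 2658780668605226642564470259402670097) (nat_lit 83076758092652507232804861262304256) (nat_lit 64) (nat_lit 8)) (.cons (.rf (nat_lit 135) (nat_lit 616221676908737)) .nil))) (.cons (.br (nat_lit 16) (nat_lit 0) (.cons (.ev (nat_lit 683223189992213791822489394487165452291) (nat_lit 2)) (.cons (.rf (nat_lit 136) (nat_lit 616223828521025)) .nil))) (.cons (.br (nat_lit 14) (nat_lit 0) (.cons (.br (nat_lit 14)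 (nat_lit 0) (.cons (.ev (nat_lit 1334440654281221588905640660616347905) (nat_lit 1)) .nil)) (.cons (.br (nat_lit 14) (nat_lit 0) (.cons (.ev (nat_lit 1334440654281221588905640660616347905) (nat_lit 1)) .nil)) .nil))) .nil)))) .nil)))),
 (.br (nat_lit 14) (nat_lit 0) (.cons (.ev (nat_lit 10425475759635247740744343331406341) (nat_lit 3)) (.cons (.rf (nat_lit 109) (nat_lit 616257147023425)) .nil))),
 (.br (nat_lit 14) (nat_lit 0) (.cons (.br (nat_lit 15) (nat_lit 0) (.cons (.ev (nat_lit 7996137637830580865259128478792548869) (nat_lit 3)) (.cons (.ev (nat_lit 1355331696795717092555384105914992131) (nat_lit 3)) .nil))) (.cons (.br (nat_lit 15) (nat_lit 0) (.cons (.kr (nat_lit 1329248278195728450393845636723113984) (nat_lit 5192376086702064259350963813351424) (nat_lit 3) (nat_lit 0)) (.cons (.ev (nat_lit 5348187459064057192238829962631709189) (nat_lit 3)) .nil))) .nil))),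
 (.br (nat_lit 14) (nat_lit 0) (.cons (.rf (nat_lit 350) (nat_lit 677582165103132179601393696)) (.cons (.br (nat_lit 16) (nat_lit 0) (.cons (.ev (nat_lit 680575159000726329895139614085313855491) (nat_lit 2)) (.cons (.ev (nat_lit 87452568298681494595097167512631504863488) (nat_lit 1)) .nil))) .nil))),
 (.br (nat_lit 12) (nat_lit 0) (.cons (.rf (nat_lit 347) (nat_lit 583706118939841765935136)) (.cons (.rf (nat_lit 348) (nat_lit 583706118939841765935136)) (.cons (.br (nat_lit 13) (nat_lit 0) (.cons (.rf (nat_lit 348) (nat_lit 547072037040242627314752)) (.cons (.rf (nat_lit 347) (nat_lit 547072037040242627314752)) (.cons (.br (nat_lit 16) (nat_lit 0) (.cons (.rf (nat_lit 349) (nat_lit 19926519232773908561233952)) (.cons (.rf (nat_lit 349) (nat_lit 19889885150874309422613568)) (.cons (.br (nat_lit 14) (nat_lit 0) (.cons (.br (nat_lit 14) (nat_lit 0) (.cons (.ev (nat_lit 680575159000726320413657277594293239811) (nat_lit 2)) .nil)) (.cons (.br (nat_lit 14) (nat_lit 0) (.cons (.ev (nat_lit 680575159000726320413657277594293239811)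 (nat_lit 2)) .nil)) .nil))) .nil)))) (.cons (.br (nat_lit 14) (nat_lit 0) (.cons (.rf (nat_lit 350) (nat_lit 677582165103132179601393696)) (.cons (.rf (nat_lit 351) (nat_lit 677582165103132179601393696)) (.cons (.br (nat_lit 14) (nat_lit 0) (.cons (.rf (nat_lit 350) (nat_lit 677582165103132179601393696)) (.cons (.rf (nat_lit 351) (nat_lit 677582165103132179601393696)) .nil))) .nil)))) .nil))))) .nil)))),
 (.br (nat_lit 14) (nat_lit 0) (.cons (.kr (nat_lit 10384594026559387444888935323402241) (nat_lit 40564820416247679264191441534976) (nat_lit 0) (nat_lit 1)) (.cons (.kr (nat_lit 1329248278195728450393845636723113984) (nat_lit 5192376086702064259350963813351424) (nat_lit 3) (nat_lit 0)) .nil))),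
 (.br (nat_lit 13) (nat_lit 0) (.cons (.rf (nat_lit 353) (nat_lit 677582165103132179601393696)) (.cons (.rf (nat_lit 353) (nat_lit 639992131284017348625008836)) .nil))),
 (.br (nat_lit 13) (nat_lit 0) (.cons (.rf (nat_lit 354) (nat_lit 677582165103132179601393696)) (.cons (.br (nat_lit 16) (nat_lit 0) (.cons (.br (nat_lit 14) (nat_lit 0) (.cons (.ev (nat_lit 1361139974289154321448734952122212548609) (nat_lit 3)) .nil)) (.cons (.ev (nat_lit 683223189992216200229395092865804272131) (nat_lit 2)) .nil))) .nil))),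
 (.br (nat_lit 12) (nat_lit 0) (.cons (.rf (nat_lit 352) (nat_lit 583706118939841765935136)) (.cons (.rf (nat_lit 352) (nat_lit 582562385870186624324643)) (.cons (.br (nat_lit 15) (nat_lit 0) (.cons (.rf (nat_lit 352) (nat_lit 543640872768431102892100)) (.cons (.rf (nat_lit 352) (nat_lit 505863056708459202451623)) (.cons (.kr (nat_lit 2658455991880525681448573818476953601) (nat_lit 158456329769413959728775561216) (nat_lit 0) (nat_lit 1)) (.cons (.br (nat_lit 13) (nat_lit 0) (.cons (.rf (nat_lit 354) (nat_lit 677582165103132179601393696)) (.cons (.rf (nat_lit 355) (nat_lit 677582165103132179601393696)) (.cons (.rf (nat_lit 355) (nat_lit 639992131284017348625008836)) .nil)))) .nil))))) .nil)))),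
 (.br (nat_lit 14) (nat_lit 0) (.cons (.rf (nat_lit 352) (nat_lit 505863056708459202451623)) (.cons (.ev (nat_lit 349810283701330145762537076230763527144449) (nat_lit 3)) .nil))),
 (.br (nat_lit 13) (nat_lit 0) (.cons (.rf (nat_lit 356) (nat_lit 547072037040242627314752)) (.cons (.rf (nat_lit 352) (nat_lit 543640872768431102892100)) (.cons (.br (nat_lit 16) (nat_lit 0) (.cons (.rf (nat_lit 357) (nat_lit 677582165103132179601393696)) (.cons (.rf (nat_lit 357) (nat_lit 677545531021232580462773312)) (.cons (.kr (nat_lit 340282366920938463463374607431768211456) (nat_lit 87112285931760246646623899502532662132736) (nat_lit 16) (nat_lit 0)) .nil)))) .nil)))),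
 (.br (nat_lit 9) (nat_lit 1) (.cons (.rf (nat_lit 85) (nat_lit 7661199456)) (.cons (.br (nat_lit 10) (nat_lit 1) (.cons (.br (nat_lit 1) (nat_lit 0) (.cons (.rf (nat_lit 332) (nat_lit 407901468851537952)) (.cons (.rf (nat_lit 332) (nat_lit 372964383702127651)) (.cons (.rf (nat_lit 338) (nat_lit 407901468851537952)) (.cons (.br (nat_lit 2) (nat_lit 0) (.cons (.rf (nat_lit 338) (nat_lit 406810752275579968)) (.cons (.rf (nat_lit 332) (nat_lit 336936650727757892)) (.cons (.ev (nat_lit 1213666632841572529537281) (nat_lit 1)) (.cons (.br (nat_lit 5) (nat_lit 0) (.cons (.rf (nat_lit 332) (nat_lit 299818131382180007)) (.cons (.ev (nat_lit 1208925891673327019229441) (nat_lit 1)) (.cons (.rf (nat_lit 344) (nat_lit 493858305440582043680)) (.cons (.br (nat_lit 6) (nat_lit 0) (.cons (.rf (nat_lit 344) (nat_lit 458116648081193829440)) (.cons (.ev (nat_lit 4722438821938676695041) (nat_lit 1)) (.cons (.ev (nat_lit 18447026652509634561) (nat_lit 1)) (.cons (.br (nat_lit 12) (nat_lit 0) (.cons (.rf (nat_lit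 352) (nat_lit 583706118939841765935136)) (.cons (.rf (nat_lit 352) (nat_lit 582562385870186624324643)) (.cons (.rf (nat_lit 356) (nat_lit 583706118939841765935136)) (.cons (.br (nat_lit 12) (nat_lit 0) (.cons (.rf (nat_lit 352) (nat_lit 583706118939841765935136)) (.cons (.rf (nat_lit 352) (nat_lit 582562385870186624324643)) (.cons (.rf (nat_lit 356) (nat_lit 583706118939841765935136)) (.cons (.br (nat_lit 13) (nat_lit 0) (.cons (.rf (nat_lit 356) (nat_lit 547072037040242627314752)) (.cons (.rf (nat_lit 352) (nat_lit 543640872768431102892100)) (.cons (.rf (nat_lit 358) (nat_lit 677582165103132179601393696)) (.cons (.rf (nat_lit 358) (nat_lit 640105464695078675185502240)) .nil))))) .nil))))) .nil))))) .nil))))) .nil))))) .nil))))) .nil))))) .nil)) .nil))),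
 (.br (nat_lit 8) (nat_lit 1) (.cons (.rf (nat_lit 359) (nat_lit 407901468851537952)) (.cons (.br (nat_lit 9) (nat_lit 1) (.cons (.br (nat_lit 10) (nat_lit 1) (.cons (.kr (nat_lit 1213648258155092857847809) (nat_lit 309485028268089146746077184) (nat_lit 0) (nat_lit 1)) .nil)) (.cons (.rf (nat_lit 85) (nat_lit 4541685856)) .nil))) .nil))),
 (.br (nat_lit 0) (nat_lit 0) (.cons (.br (nat_lit 0) (nat_lit 0) (.cons (.br (nat_lit 1) (nat_lit 1) (.cons (.br (nat_lit 2) (nat_lit 1) (.cons (.br (nat_lit 0) (nat_lit 1) (.cons (.kr (nat_lit 1) (nat_lit 16777216) (nat_lit 0) (nat_lit 1)) (.cons (.rf (nat_lit 3) (nat_lit 4294688)) (.cons (.br (nat_lit 1) (nat_lit 0) (.cons (.kr (nat_lit 256) (nat_lit 65536) (nat_lit 1) (nat_lit 0)) (.cons (.rf (nat_lit 39) (nat_lit 172066848)) (.cons (.br (nat_lit 2) (nat_lit 0) (.cons (.rf (nat_lit 97) (nat_lit 172066848)) (.cons (.rf (nat_lit 39) (nat_lit 205620288)) (.cons (.br (nat_lit 3) (nat_lit 1) (.cons (.rf (nat_lit 151) (nat_lit 6614517792)) (.cons (.rf (nat_lit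 182) (nat_lit 131299)) (.cons (.br (nat_lit 4) (nat_lit 1) (.cons (.rf (nat_lit 178) (nat_lit 247132686368)) (.cons (.rf (nat_lit 179) (nat_lit 9043225708576)) (.cons (.br (nat_lit 4) (nat_lit 1) (.cons (.rf (nat_lit 178) (nat_lit 247132686368)) (.cons (.rf (nat_lit 94) (nat_lit 284780759072)) (.cons (.br (nat_lit 7) (nat_lit 1) (.cons (.rf (nat_lit 96) (nat_lit 318066755616)) (.cons (.rf (nat_lit 96) (nat_lit 284780759072)) (.cons (.rf (nat_lit 179) (nat_lit 11139172796451)) .nil)))) .nil)))) .nil)))) .nil)))) .nil)))) .nil)))) .nil)))) (.cons (.br (nat_lit 3) (nat_lit 0) (.cons (.br (nat_lit 4) (nat_lit 0) (.cons (.br (nat_lit 0) (nat_lit 1) (.cons (.rf (nat_lit 183) (nat_lit 172066848)) (.cons (.rf (nat_lit 183) (nat_lit 171050048)) (.cons (.rf (nat_lit 180) (nat_lit 6614517792)) (.cons (.br (nat_lit 3) (nat_lit 1) (.cons (.rf (nat_lit 182) (nat_lit 196739)) (.cons (.rf (nat_lit 185) (nat_lit 6614517792)) (.cons (.rf (nat_lit 182) (nat_lit 196835)) (.cons (.br (nat_lit 4) (nat_lit 1)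 (.cons (.rf (nat_lit 185) (nat_lit 6613500992)) (.cons (.rf (nat_lit 185) (nat_lit 7583433891)) (.cons (.rf (nat_lit 182) (nat_lit 196868)) (.cons (.br (nat_lit 6) (nat_lit 1) (.cons (.rf (nat_lit 187) (nat_lit 9043225708576)) (.cons (.rf (nat_lit 187) (nat_lit 7978072802368)) (.cons (.rf (nat_lit 180) (nat_lit 9835743264)) (.cons (.br (nat_lit 6) (nat_lit 1) (.cons (.rf (nat_lit 187) (nat_lit 9043225708576)) (.cons (.rf (nat_lit 187) (nat_lit 7978072802368)) (.cons (.rf (nat_lit 180) (nat_lit 10909485088)) .nil)))) .nil))))) .nil))))) .nil))))) .nil))))) (.cons (.br (nat_lit 5) (nat_lit 1) (.cons (.br (nat_lit 6) (nat_lit 1) (.cons (.br (nat_lit 0) (nat_lit 1) (.cons (.rf (nat_lit 188) (nat_lit 247132686368)) (.cons (.rf (nat_lit 188) (nat_lit 246091482176)) (.cons (.rf (nat_lit 221) (nat_lit 247132686368)) (.cons (.br (nat_lit 3) (nat_lit 1) (.cons (.rf (nat_lit 182) (nat_lit 262275)) (.cons (.rf (nat_lit 182) (nat_lit 262371)) (.cons (.rf (nat_lit 295) (nat_lit 9043225708576)) (.cons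 (.br (nat_lit 4) (nat_lit 1) (.cons (.rf (nat_lit 182) (nat_lit 262372)) (.cons (.rf (nat_lit 295) (nat_lit 9042184504384)) (.cons (.rf (nat_lit 326) (nat_lit 325702574508064)) (.cons (.br (nat_lit 7) (nat_lit 1) (.cons (.rf (nat_lit 326) (nat_lit 291514537219107)) (.cons (.rf (nat_lit 295) (nat_lit 10035392644259)) (.cons (.rf (nat_lit 295) (nat_lit 11099437238468)) (.cons (.br (nat_lit 8) (nat_lit 1) (.cons (.rf (nat_lit 360) (nat_lit 407901468851537952)) (.cons (.rf (nat_lit 360) (nat_lit 406810752275579968)) (.cons (.br (nat_lit 8) (nat_lit 1) (.cons (.rf (nat_lit 360) (nat_lit 407901468851537952)) (.cons (.rf (nat_lit 360) (nat_lit 406810752275579968)) .nil))) .nil)))) .nil))))) .nil))))) .nil))))) .nil))))) .nil)) .nil)) .nil))) .nil)) .nil))) .nil)) .nil)) .nil))]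

theorem c10 : chkAll C T R L10 (nat_lit 341) = true := by decide +kernel

theorem l10 : (nat_lit 341) + L10.length = (nat_lit 362) := by decide +kernel

end Pool.Agent.H93.Neg.N18_4_4
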