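import Pool.Agent.H93.Neg.TabN18_4_8

/-!
Certificates.
-/

set_option autoImplicit false
set_option maxRecDepth 100000
set_option linter.all false

namespace Pool.Agent.H93.Neg.N18_4_8

/-- part of the certificates -/
def L0 : List Prf := [(.br (nat_lit 4) (nat_lit 0) (.cons (.br (nat_lit 5) (nat_lit 0) .nil) .nil)),
 (.br (nat_lit 0) (nat_lit 0) (.cons (.rf (nat_lit 0) (nat_lit 7540768)) (.cons (.rf (nat_lit 0) (nat_lit 4429856)) (.cons (.br (nat_lit 10) (nat_lit 0) (.cons (.ev (nat_lit 18447026652509634561) (nat_lit 1)) (.cons (.ev (nat_lit 18518801667764322561) (nat_lit 1)) .nil))) .nil)))),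
 (.br (nat_lit 0) (nat_lit 0) (.cons (.br (nat_lit 0) (nat_lit 0) .nil) .nil)),
 (.br (nat_lit 6) (nat_lit 0) (.cons (.kr (nat_lit 4294967297) (nat_lit 72057594037993472) (nat_lit 0) (nat_lit 1)) .nil)),
 (.br (nat_lit 9) (nat_lit 1) (.cons (.br (nat_lit 10) (nat_lit 1) (.cons (.kr (nat_lit 18446744073709551616) (nat_lit 4722366482869645213696) (nat_lit 8) (nat_lit 0)) (.cons (.br (nat_lit 10) (nat_lit 1) (.cons (.kr (nat_lit 18446744073709551616) (nat_lit 4722366482869645213696) (nat_lit 8) (nat_lit 0)) .nil)) .nil))) .nil)),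
 (.br (nat_lit 9) (nat_lit 1) (.cons (.br (nat_lit 10) (nat_lit 1) (.cons (.kr (nat_lit 1208925819614629174706176) (nat_lit 309485009821345068724781056) (nat_lit 10) (nat_lit 0)) .nil)) .nil)),
 (.br (nat_lit 8) (nat_lit 1) (.cons (.br (nat_lit 9) (nat_lit 1) (.cons (.br (nat_lit 10) (nat_lit 1) (.cons (.br (nat_lit 11) (nat_lit 1) .nil) .nil)) (.cons (.br (nat_lit 10) (nat_lit 1) (.cons (.br (nat_lit 10) (nat_lit 1) .nil) .nil)) .nil))) .nil)),
 (.br (nat_lit 13) (nat_lit 1) (.cons (.kr (nat_lit 20282410812596008840244173472000) (nat_lit 79537652246452165536208977920) (nat_lit 1) (nat_lit 0)) .nil)),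
 (.br (nat_lit 10) (nat_lit 1) (.cons (.br (nat_lit 11) (nat_lit 1) (.cons (.br (nat_lit 12) (nat_lit 1) (.cons (.br (nat_lit 13) (nat_lit 1) (.cons (.br (nat_lit 14) (nat_lit 1) (.cons (.br (nat_lit 14) (nat_lit 1) .nil) .nil)) .nil)) .nil)) (.cons (.br (nat_lit 12) (nat_lit 1) (.cons (.rf (nat_lit 6) (nat_lit 470979981840449)) (.cons (.br (nat_lit 12) (nat_lit 1) (.cons (.rf (nat_lit 6) (nat_lit 470979981840449)) (.cons (.br (nat_lit 13) (nat_lit 1) (.cons (.rf (nat_lit 7) (nat_lit 583706118939841765935136)) (.cons (.rf (nat_lit 7) (nat_lit 547107778697602015528992)) .nil))) .nil))) .nil))) .nil))) .nil)),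
 (.br (nat_lit 5) (nat_lit 0) .nil),
 (.br (nat_lit 13) (nat_lit 1) (.cons (.br (nat_lit 15) (nat_lit 1) (.cons (.ev (nat_lit 1334440575053059093015989551038988288) (nat_lit 1)) .nil)) .nil)),
 (.br (nat_lit 13) (nat_lit 1) (.cons (.rf (nat_lit 10) (nat_lit 19834506838397120501980334)) (.cons (.br (nat_lit 13) (nat_lit 1) (.cons (.rf (nat_lit 10) (nat_lit 19834506838397120501980334)) .nil)) .nil))),
 (.br (nat_lit 12) (nat_lit 1) (.cons (.ev (nat_lit 80160249098894495836088107010) (nat_lit 2)) (.cons (.br (nat_lit 13) (nat_lit 1) (.cons (.ev (nat_lit 40565440595211589158560495502082) (nat_lit 2)) (.cons (.ev (nat_lit 40723275541776675394142712431362) (nat_lit 2)) (.cons (.rf (nat_lit 11) (nat_lit 21174442659472879504164896)) .nil)))) .nil))),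
 (.br (nat_lit 14) (nat_lit 1) (.cons (.ev (nat_lit 340282387203349280763231410357111160833) (nat_lit 1)) (.cons (.zr (nat_lit 3987684147049012686526321067758191360) (nat_lit 10425158538694810309197942900129793) (nat_lit 8) (nat_lit 0)) .nil))),
 (.br (nat_lit 13) (nat_lit 1) (.cons (.rf (nat_lit 13) (nat_lit 677582165103132179601393696)) (.cons (.rf (nat_lit 13) (nat_lit 640105464695078675185502240)) .nil))),
 (.br (nat_lit 13) (nat_lit 1) (.cons (.rf (nat_lit 14) (nat_lit 677582165103132179601393696)) (.cons (.br (nat_lit 16) (nat_lit 1) (.cons (.br (nat_lit 14) (nat_lit 1) (.cons (.ev (nat_lit 1360503788930212084595838643825805057) (nat_lit 3)) .nil)) (.cons (.ev (nat_lit 340282387203349280763231410357111160833) (nat_lit 1)) .nil))) .nil))),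
 (.br (nat_lit 0) (nat_lit 0) (.cons (.rf (nat_lit 0) (nat_lit 7540768)) (.cons (.rf (nat_lit 0) (nat_lit 4429856)) (.cons (.br (nat_lit 4) (nat_lit 0) (.cons (.rf (nat_lit 9) (nat_lit 510857248)) (.cons (.br (nat_lit 7) (nat_lit 0) (.cons (.br (nat_lit 12) (nat_lit 1) (.cons (.rf (nat_lit 12) (nat_lit 583706118939841765935136)) (.cons (.rf (nat_lit 12) (nat_lit 582562420807271773734944)) (.cons (.br (nat_lit 12) (nat_lit 1) (.cons (.rf (nat_lit 12) (nat_lit 583706118939841765935136)) (.cons (.rf (nat_lit 12) (nat_lit 582562420807271773734944)) (.cons (.br (nat_lit 13) (nat_lit 1) (.cons (.rf (nat_lit 14) (nat_lit 677582165103132179601393696)) (.cons (.rf (nat_lit 15) (nat_lit 677582165103132179601393696)) (.cons (.rf (nat_lit 15) (nat_lit 640105464695078675185502240)) .nil)))) .nil)))) .nil)))) .nil)) .nil))) .nil)))),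
 (.br (nat_lit 9) (nat_lit 1) (.cons (.br (nat_lit 10) (nat_lit 1) (.cons (.br (nat_lit 11) (nat_lit 1) (.cons (.br (nat_lit 12) (nat_lit 1) (.cons (.br (nat_lit 12) (nat_lit 1) (.cons (.br (nat_lit 13) (nat_lit 1) (.cons (.rf (nat_lit 4) (nat_lit 507299333674082)) (.cons (.br (nat_lit 13) (nat_lit 1) (.cons (.rf (nat_lit 4) (nat_lit 507299333674082)) (.cons (.br (nat_lit 14) (nat_lit 1) (.cons (.rf (nat_lit 5) (nat_lit 593856550239736930)) (.cons (.rf (nat_lit 5) (nat_lit 558953653127615586)) .nil))) .nil))) .nil))) .nil)) .nil)) .nil)) (.cons (.br (nat_lit 11) (nat_lit 1) (.cons (.rf (nat_lit 8) (nat_lit 445092485129178177)) (.cons (.br (nat_lit 11) (nat_lit 1) (.cons (.rf (nat_lit 8) (nat_lit 445092485129178177)) (.cons (.br (nat_lit 6) (nat_lit 0) (.cons (.rf (nat_lit 16) (nat_lit 17022140995484340291616)) (.cons (.br (nat_lit 7) (nat_lit 0) (.cons (.rf (nat_lit 16) (nat_lit 17022140995451054295072)) (.cons (.rf (nat_lit 2) (nat_lit 510857248)) .nil))) (.cons (.kr (nat_lit 281474976710656) (nat_lit 72057594037927936)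 (nat_lit 6) (nat_lit 0)) (.cons (.br (nat_lit 4) (nat_lit 0) (.cons (.br (nat_lit 0) (nat_lit 0) (.cons (.rf (nat_lit 0) (nat_lit 6524960)) (.cons (.rf (nat_lit 3) (nat_lit 523118970912)) .nil))) (.cons (.rf (nat_lit 2) (nat_lit 509841440)) (.cons (.rf (nat_lit 16) (nat_lit 17022140995484337145999)) .nil)))) .nil))))) .nil))) .nil))) .nil))) .nil)),
 (.br (nat_lit 10) (nat_lit 1) (.cons (.br (nat_lit 10) (nat_lit 1) .nil) .nil)),
 (.br (nat_lit 14) (nat_lit 1) (.cons (.ev (nat_lit 5192376086697360411669757637492993) (nat_lit 1)) (.cons (.br (nat_lit 15) (nat_lit 1) (.cons (.ev (nat_lit 2689630530504464708033511017488058113) (nat_lit 3)) (.cons (.rf (nat_lit 18) (nat_lit 631047531049260130)) .nil))) .nil))),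
 (.br (nat_lit 14) (nat_lit 1) (.cons (.ev (nat_lit 5253145019437071189698277034557442) (nat_lit 2)) .nil)),
 (.br (nat_lit 12) (nat_lit 1) (.cons (.rf (nat_lit 19) (nat_lit 583706118939841765935136)) (.cons (.br (nat_lit 14) (nat_lit 1) (.cons (.rf (nat_lit 19) (nat_lit 581347240445094518854848)) (.cons (.ev (nat_lit 5192376086697360411669757637492993) (nat_lit 1)) (.cons (.br (nat_lit 15) (nat_lit 1) (.cons (.rf (nat_lit 20) (nat_lit 21174442659472879504164896)) (.cons (.rf (nat_lit 20) (nat_lit 20003222056768244565677248)) .nil))) .nil)))) .nil))),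
 (.br (nat_lit 8) (nat_lit 1) (.cons (.br (nat_lit 8) (nat_lit 1) .nil) .nil)),
 (.br (nat_lit 12) (nat_lit 1) (.cons (.br (nat_lit 14) (nat_lit 1) (.cons (.kr (nat_lit 1334420292644659644870753853531750656) (nat_lit 20361947255898122589483460263936) (nat_lit 1) (nat_lit 0)) .nil)) .nil)),
 (.br (nat_lit 12) (nat_lit 1) (.cons (.rf (nat_lit 21) (nat_lit 583706118939841765935136)) (.cons (.br (nat_lit 15) (nat_lit 1) (.cons (.ev (nat_lit 1329227996095614530911531107096788993) (nat_lit 1)) (.cons (.br (nat_lit 16) (nat_lit 1) (.cons (.ev (nat_lit 683223189833449176561162449512640480002) (nat_lit 2)) (.cons (.rf (nat_lit 22) (nat_lit 631047531049260130)) .nil))) (.cons (.br (nat_lit 14) (nat_lit 1) (.cons (.rf (nat_lit 23) (nat_lit 661701295917511241501761)) (.cons (.br (nat_lit 14) (nat_lit 1) (.cons (.rf (nat_lit 23) (nat_lit 661701295917511241501761)) .nil)) .nil))) .nil)))) .nil))),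
 (.br (nat_lit 14) (nat_lit 1) (.cons (.rf (nat_lit 24) (nat_lit 581347240445094518854848)) (.cons (.ev (nat_lit 5192376087910990079247067964833793) (nat_lit 1)) .nil))),
 (.br (nat_lit 10) (nat_lit 1) (.cons (.kr (nat_lit 4740813226943354830848) (nat_lit 1208925819615728703111168) (nat_lit 2) (nat_lit 0)) (.cons (.br (nat_lit 11) (nat_lit 1) (.cons (.zr (nat_lit 60847847780974654806404133552896) (nat_lit 9481698511485042556929) (nat_lit 8) (nat_lit 0)) (.cons (.zr (nat_lit 60847847780974654806404133552896) (nat_lit 2417851711289055739117569) (nat_lit 8) (nat_lit 0)) (.cons (.br (nat_lit 12) (nat_lit 1) (.cons (.rf (nat_lit 21) (nat_lit 583706118939841765935136)) (.cons (.rf (nat_lit 24) (nat_lit 583706118939841765935136)) (.cons (.br (nat_lit 12) (nat_lit 1) (.cons (.rf (nat_lit 21) (nat_lit 583706118939841765935136)) (.cons (.rf (nat_lit 24) (nat_lit 583706118939841765935136)) (.cons (.br (nat_lit 14) (nat_lit 1) (.cons (.rf (nat_lit 24) (nat_lit 581347240445094518854848)) (.cons (.rf (nat_lit 25) (nat_lit 677582165103132179601393696))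 (.cons (.rf (nat_lit 25) (nat_lit 640105464695078675185502240)) .nil)))) .nil)))) .nil)))) .nil)))) .nil))),
 (.br (nat_lit 14) (nat_lit 1) (.cons (.ev (nat_lit 5192297168024578263383987680444673) (nat_lit 1)) (.cons (.br (nat_lit 15) (nat_lit 1) (.cons (.br (nat_lit 15) (nat_lit 1) .nil) .nil)) .nil))),
 (.br (nat_lit 9) (nat_lit 1) (.cons (.br (nat_lit 9) (nat_lit 1) .nil) .nil)),
 (.br (nat_lit 13) (nat_lit 1) (.cons (.br (nat_lit 14) (nat_lit 1) (.cons (.kr (nat_lit 1329248278195728468912647304453816576) (nat_lit 5192376396187074080696032538198016) (nat_lit 1) (nat_lit 0)) .nil)) .nil)),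
 (.br (nat_lit 12) (nat_lit 1) (.cons (.ev (nat_lit 5192297168019855968677232818323713) (nat_lit 1)) (.cons (.ev (nat_lit 159077712936776985853080830722) (nat_lit 2)) (.cons (.br (nat_lit 14) (nat_lit 1) (.cons (.rf (nat_lit 27) (nat_lit 622703726024184642504736)) (.cons (.br (nat_lit 16) (nat_lit 1) (.cons (.ev (nat_lit 2041725375906725650216000826277659543297) (nat_lit 3)) (.cons (.rf (nat_lit 28) (nat_lit 631047531049260130)) .nil))) (.cons (.br (nat_lit 15) (nat_lit 1) (.cons (.rf (nat_lit 29) (nat_lit 661701295917511241501761)) (.cons (.br (nat_lit 15) (nat_lit 1) (.cons (.rf (nat_lit 29) (nat_lit 661701295917511241501761)) .nil)) .nil))) .nil)))) .nil)))),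
 (.br (nat_lit 13) (nat_lit 1) (.cons (.ev (nat_lit 20282410817318303546999052435713) (nat_lit 1)) (.cons (.ev (nat_lit 20282719093402305277438602510593) (nat_lit 1)) .nil))),
 (.br (nat_lit 14) (nat_lit 1) (.cons (.ev (nat_lit 5192297169233485636254543145664513) (nat_lit 1)) (.cons (.br (nat_lit 16) (nat_lit 1) (.cons (.br (nat_lit 15) (nat_lit 1) (.cons (.ev (nat_lit 2668840585289319289670295641762497282) (nat_lit 2)) .nil)) (.cons (.ev (nat_lit 174905136597362370229619354090989982647042) (nat_lit 2)) .nil))) .nil))),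
 (.br (nat_lit 11) (nat_lit 1) (.cons (.rf (nat_lit 30) (nat_lit 583706118939841765935136)) (.cons (.rf (nat_lit 30) (nat_lit 547107778697602015528992)) (.cons (.br (nat_lit 12) (nat_lit 1) (.cons (.rf (nat_lit 30) (nat_lit 583705002047134178052128)) (.cons (.rf (nat_lit 30) (nat_lit 547106661804894427645984)) (.cons (.kr (nat_lit 309485009821345068724781056) (nat_lit 79228162514264337593543950336) (nat_lit 11) (nat_lit 0)) (.cons (.br (nat_lit 14) (nat_lit 1) (.cons (.rf (nat_lit 31) (nat_lit 21174442659472880612509728)) (.cons (.rf (nat_lit 32) (nat_lit 677582165103132179601393696)) (.cons (.rf (nat_lit 32) (nat_lit 640105463578185967597619232)) .nil)))) .nil))))) .nil)))),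
 (.br (nat_lit 14) (nat_lit 1) (.cons (.ev (nat_lit 5192297168024578263383987680444673) (nat_lit 1)) (.cons (.br (nat_lit 15) (nat_lit 1) (.cons (.br (nat_lit 15) (nat_lit 1) .nil) .nil)) .nil))),
 (.br (nat_lit 12) (nat_lit 1) (.cons (.ev (nat_lit 2668840744362205894041911498878550786) (nat_lit 2)) .nil)),
 (.br (nat_lit 14) (nat_lit 1) (.cons (.br (nat_lit 12) (nat_lit 1) (.cons (.ev (nat_lit 159075304492977236385659421442) (nat_lit 2)) (.cons (.rf (nat_lit 34) (nat_lit 622703726024184642504736)) .nil))) (.cons (.ev (nat_lit 5192297168019855968677232818323713) (nat_lit 1)) (.cons (.br (nat_lit 15) (nat_lit 1) (.cons (.rf (nat_lit 34) (nat_lit 619051347224523765454016)) (.cons (.ev (nat_lit 2668840585289319289670295641762497282) (nat_lit 2)) (.cons (.br (nat_lit 12) (nat_lit 1) (.cons (.rf (nat_lit 35) (nat_lit 677582165103132179601393696)) (.cons (.rf (nat_lit 35) (nat_lit 640068866354836435435096096)) .nil))) .nil)))) .nil)))),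
 (.br (nat_lit 11) (nat_lit 1) (.cons (.br (nat_lit 14) (nat_lit 1) (.cons (.ev (nat_lit 5192376087911008525710766226014208) (nat_lit 1)) (.cons (.kr (nat_lit 5192296859743753448145125503926272) (nat_lit 20282719088661491769015976067072) (nat_lit 10) (nat_lit 0)) .nil))) (.cons (.ev (nat_lit 20361947255916569334656698155008) (nat_lit 1)) .nil))),
 (.br (nat_lit 12) (nat_lit 1) (.cons (.rf (nat_lit 37) (nat_lit 21174427671493319683247181)) (.cons (.br (nat_lit 16) (nat_lit 1) (.cons (.br (nat_lit 15) (nat_lit 1) (.cons (.zr (nat_lit 3402854823148992168702481427124160170251) (nat_lit 10634006509206174407589776646530400256) (nat_lit 40) (nat_lit 1)) .nil)) (.cons (.ev (nat_lit 350490869102632035118323814097534427858689) (nat_lit 3)) .nil))) .nil))),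
 (.br (nat_lit 11) (nat_lit 1) (.cons (.rf (nat_lit 33) (nat_lit 583706118939841765935136)) (.cons (.rf (nat_lit 36) (nat_lit 583706118939841765935136)) (.cons (.br (nat_lit 14) (nat_lit 1) (.cons (.rf (nat_lit 36) (nat_lit 466831114243401286161600)) (.cons (.rf (nat_lit 33) (nat_lit 466831114243401286161600)) (.cons (.ev (nat_lit 5192297168019855968677232818323713) (nat_lit 1)) (.cons (.br (nat_lit 12) (nat_lit 1) (.cons (.rf (nat_lit 37) (nat_lit 21174427671493319683247181)) (.cons (.rf (nat_lit 38) (nat_lit 677582165103132179601393696)) (.cons (.br (nat_lit 12) (nat_lit 1) (.cons (.ev (nat_lit 5192376087910990079247067964833793) (nat_lit 1)) (.cons (.rf (nat_lit 38) (nat_lit 677582165103132179601393696)) .nil))) .nil)))) .nil))))) .nil))))]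

theorem c0 : chkAll C T R L0 (nat_lit 0) = true := by decide +kernel

theorem l0 : (nat_lit 0) + L0.length = (nat_lit 40) := by decide +kernel

/-- part of the certificates -/
def L1 : List Prf := [(.br (nat_lit 12) (nat_lit 1) (.cons (.rf (nat_lit 39) (nat_lit 583705002047134178052128)) (.cons (.rf (nat_lit 39) (nat_lit 547106661804894427645984)) (.cons (.ev (nat_lit 159075304492977236385659421442) (nat_lit 2)) .nil)))),
 (.br (nat_lit 0) (nat_lit 0) (.cons (.rf (nat_lit 0) (nat_lit 7540768)) (.cons (.rf (nat_lit 0) (nat_lit 4429856)) (.cons (.br (nat_lit 4) (nat_lit 0) (.cons (.rf (nat_lit 9) (nat_lit 443748384)) (.cons (.br (nat_lit 7) (nat_lit 0) (.cons (.br (nat_lit 10) (nat_lit 1) (.cons (.rf (nat_lit 26) (nat_lit 493858305440582043680)) (.cons (.rf (nat_lit 26) (nat_lit 492741412732994160672)) (.cons (.br (nat_lit 10) (nat_lit 1) (.cons (.rf (nat_lit 26) (nat_lit 493858305440582043680)) (.cons (.rf (nat_lit 26) (nat_lit 492741412732994160672)) (.cons (.br (nat_lit 11) (nat_lit 1) (.cons (.rf (nat_lit 33)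 (nat_lit 583706118939841765935136)) (.cons (.rf (nat_lit 39) (nat_lit 583706118939841765935136)) (.cons (.rf (nat_lit 39) (nat_lit 547107778697602015528992)) (.cons (.br (nat_lit 11) (nat_lit 1) (.cons (.rf (nat_lit 33) (nat_lit 583706118939841765935136)) (.cons (.rf (nat_lit 39) (nat_lit 583706118939841765935136)) (.cons (.rf (nat_lit 39) (nat_lit 547107778697602015528992)) (.cons (.br (nat_lit 12) (nat_lit 1) (.cons (.rf (nat_lit 39) (nat_lit 583705002047134178052128)) (.cons (.rf (nat_lit 39) (nat_lit 547106661804894427645984)) (.cons (.rf (nat_lit 40) (nat_lit 677582165103132179601393696)) (.cons (.rf (nat_lit 40) (nat_lit 640105464695078675185502240)) .nil))))) .nil))))) .nil))))) .nil)))) .nil)))) .nil)) .nil))) .nil)))),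
 (.br (nat_lit 5) (nat_lit 0) (.cons (.br (nat_lit 5) (nat_lit 0) (.cons (.br (nat_lit 6) (nat_lit 1) (.cons (.br (nat_lit 7) (nat_lit 1) (.cons (.br (nat_lit 3) (nat_lit 1) (.cons (.kr (nat_lit 18446744073709617152) (nat_lit 1099528404992) (nat_lit 2) (nat_lit 0)) (.cons (.br (nat_lit 8) (nat_lit 1) (.cons (.br (nat_lit 6) (nat_lit 0) (.cons (.rf (nat_lit 1) (nat_lit 325702574508064)) (.cons (.br (nat_lit 7) (nat_lit 0) (.cons (.rf (nat_lit 1) (nat_lit 325669288511520)) (.cons (.rf (nat_lit 2) (nat_lit 343085088)) .nil))) (.cons (.kr (nat_lit 281474976710656) (nat_lit 72057594037927936) (nat_lit 6) (nat_lit 0)) (.cons (.br (nat_lit 4) (nat_lit 0) (.cons (.br (nat_lit 0) (nat_lit 0) (.cons (.rf (nat_lit 0) (nat_lit 6524960)) (.cons (.rf (nat_lit 3) (nat_lit 351320279072)) .nil))) (.cons (.rf (nat_lit 2) (nat_lit 342069280)) (.cons (.rf (nat_lit 1) (nat_lit 325702571362442)) .nil)))) .nil))))) (.cons (.br (nat_lit 9) (nat_lit 1) (.cons (.rf (nat_lit 17) (nat_lit 11584701642934304)) (.cons (.br (nat_lit 9) (nat_lit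 1) (.cons (.rf (nat_lit 17) (nat_lit 11584701642934304)) (.cons (.br (nat_lit 6) (nat_lit 0) (.cons (.rf (nat_lit 41) (nat_lit 14242959524133701664)) (.cons (.br (nat_lit 7) (nat_lit 0) (.cons (.rf (nat_lit 41) (nat_lit 14242959490847705120)) (.cons (.rf (nat_lit 2) (nat_lit 443748384)) .nil))) (.cons (.kr (nat_lit 281474976710656) (nat_lit 72057594037927936) (nat_lit 6) (nat_lit 0)) (.cons (.br (nat_lit 4) (nat_lit 0) (.cons (.br (nat_lit 0) (nat_lit 0) (.cons (.rf (nat_lit 0) (nat_lit 6524960)) (.cons (.rf (nat_lit 3) (nat_lit 454399494176)) .nil))) (.cons (.rf (nat_lit 2) (nat_lit 442732576)) (.cons (.rf (nat_lit 41) (nat_lit 14242959524130556045)) .nil)))) .nil))))) .nil))) .nil))) .nil))) .nil))) .nil)) .nil)) .nil)) .nil)),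
 (.br (nat_lit 0) (nat_lit 0) (.cons (.rf (nat_lit 0) (nat_lit 8622112)) (.cons (.ev (nat_lit 18518801667764322561) (nat_lit 1)) (.cons (.br (nat_lit 4) (nat_lit 0) (.cons (.rf (nat_lit 9) (nat_lit 344166432)) (.cons (.br (nat_lit 8) (nat_lit 0) (.cons (.ev (nat_lit 1208944483096646893306115) (nat_lit 2)) .nil)) .nil))) .nil)))),
 (.br (nat_lit 0) (nat_lit 0) (.cons (.ev (nat_lit 4740813226943371608321) (nat_lit 1)) (.cons (.br (nat_lit 9) (nat_lit 0) (.cons (.ev (nat_lit 309518195514503249363470081) (nat_lit 3)) .nil)) .nil))),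
 (.br (nat_lit 9) (nat_lit 1) (.cons (.br (nat_lit 10) (nat_lit 1) (.cons (.kr (nat_lit 18446744073709551616) (nat_lit 4722366482869645213696) (nat_lit 8) (nat_lit 0)) (.cons (.br (nat_lit 10) (nat_lit 1) (.cons (.kr (nat_lit 18446744073709551616) (nat_lit 4722366482869645213696) (nat_lit 8) (nat_lit 0)) .nil)) .nil))) .nil)),
 (.br (nat_lit 9) (nat_lit 1) (.cons (.br (nat_lit 10) (nat_lit 1) (.cons (.kr (nat_lit 1208925819614629174706176) (nat_lit 309485009821345068724781056) (nat_lit 10) (nat_lit 0)) .nil)) .nil)),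
 (.br (nat_lit 8) (nat_lit 1) (.cons (.br (nat_lit 9) (nat_lit 1) (.cons (.br (nat_lit 10) (nat_lit 1) (.cons (.br (nat_lit 11) (nat_lit 1) .nil) .nil)) (.cons (.br (nat_lit 10) (nat_lit 1) (.cons (.br (nat_lit 10) (nat_lit 1) .nil) .nil)) .nil))) .nil)),
 (.br (nat_lit 9) (nat_lit 1) (.cons (.br (nat_lit 10) (nat_lit 1) (.cons (.kr (nat_lit 1208925819614629174706176) (nat_lit 309485009821345068724781056) (nat_lit 10) (nat_lit 0)) .nil)) .nil)),
 (.br (nat_lit 6) (nat_lit 1) (.cons (.br (nat_lit 7) (nat_lit 1) (.cons (.br (nat_lit 8) (nat_lit 1) (.cons (.br (nat_lit 9) (nat_lit 1) (.cons (.br (nat_lit 10) (nat_lit 1) (.cons (.br (nat_lit 10) (nat_lit 1) .nil) .nil)) .nil)) .nil)) (.cons (.br (nat_lit 8) (nat_lit 1) (.cons (.rf (nat_lit 47) (nat_lit 325702574508064)) (.cons (.br (nat_lit 8) (nat_lit 1) (.cons (.rf (nat_lit 47) (nat_lit 325702574508064)) (.cons (.br (nat_lit 9) (nat_lit 1) (.cons (.rf (nat_lit 48) (nat_lit 407901468851537952)) (.cons (.rf (nat_lit 48) (nat_lit 372998571739416608)) .nil))) .nil)))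 .nil))) .nil))) .nil)),
 (.br (nat_lit 13) (nat_lit 1) (.cons (.br (nat_lit 15) (nat_lit 1) (.cons (.ev (nat_lit 1329248278194524265387459054692991233) (nat_lit 1)) .nil)) .nil)),
 (.br (nat_lit 12) (nat_lit 1) (.cons (.zr (nat_lit 5316912062367826042773336556572770816) (nat_lit 310703380445983039834619904) (nat_lit 8) (nat_lit 0)) (.cons (.br (nat_lit 13) (nat_lit 1) (.cons (.ev (nat_lit 1329349690863939876792070568759657217) (nat_lit 3)) (.cons (.ev (nat_lit 1329349848698895997148184111514650369) (nat_lit 3)) (.cons (.br (nat_lit 14) (nat_lit 1) (.cons (.rf (nat_lit 50) (nat_lit 21174442659472880612509728)) (.cons (.br (nat_lit 14) (nat_lit 1) (.cons (.rf (nat_lit 50) (nat_lit 21174442659472880612509728)) .nil)) .nil))) .nil)))) .nil))),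
 (.br (nat_lit 14) (nat_lit 1) (.cons (.ev (nat_lit 340282387203349280763231411452327756033) (nat_lit 1)) (.cons (.ev (nat_lit 1339653312779940489376335496537440515) (nat_lit 2)) .nil))),
 (.br (nat_lit 13) (nat_lit 1) (.cons (.rf (nat_lit 52) (nat_lit 677582165103132179601393696)) (.cons (.rf (nat_lit 52) (nat_lit 640105464695078675185502240)) .nil))),
 (.br (nat_lit 13) (nat_lit 1) (.cons (.rf (nat_lit 53) (nat_lit 677582165103132179601393696)) (.cons (.br (nat_lit 16) (nat_lit 1) (.cons (.br (nat_lit 14) (nat_lit 1) (.cons (.ev (nat_lit 1339653154940167628995801525635907843) (nat_lit 2)) .nil)) (.cons (.ev (nat_lit 340282387203349280763231411452327756033) (nat_lit 1)) .nil))) .nil))),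
 (.br (nat_lit 0) (nat_lit 0) (.cons (.rf (nat_lit 0) (nat_lit 9703456)) (.cons (.ev (nat_lit 4740813226943371608321) (nat_lit 1)) (.cons (.br (nat_lit 4) (nat_lit 0) (.cons (.rf (nat_lit 9) (nat_lit 513019936)) (.cons (.br (nat_lit 9) (nat_lit 0) (.cons (.br (nat_lit 12) (nat_lit 1) (.cons (.rf (nat_lit 51) (nat_lit 583706118939841765935136)) (.cons (.rf (nat_lit 51) (nat_lit 582562420807271773734944)) (.cons (.br (nat_lit 12) (nat_lit 1) (.cons (.rf (nat_lit 51) (nat_lit 583706118939841765935136)) (.cons (.rf (nat_lit 51) (nat_lit 582562420807271773734944)) (.cons (.br (nat_lit 13) (nat_lit 1) (.cons (.rf (nat_lit 53) (nat_lit 677582165103132179601393696)) (.cons (.rf (nat_lit 54) (nat_lit 677582165103132179601393696)) (.cons (.rf (nat_lit 54) (nat_lit 640105464695078675185502240)) .nil)))) .nil)))) .nil)))) .nil)) .nil))) .nil)))),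
 (.br (nat_lit 14) (nat_lit 1) (.cons (.br (nat_lit 15) (nat_lit 1) (.cons (.ev (nat_lit 344285648160819693518259475924750762496) (nat_lit 2)) .nil)) .nil)),
 (.br (nat_lit 12) (nat_lit 1) (.cons (.zr (nat_lit 310693935713017291954258946) (nat_lit 2658456070797994260072234305772847104) (nat_lit 8) (nat_lit 1)) (.cons (.br (nat_lit 13) (nat_lit 1) (.cons (.ev (nat_lit 1329349690863939876792070568759657217) (nat_lit 3)) (.cons (.ev (nat_lit 1329349848698895997148184111514650369) (nat_lit 3)) (.cons (.br (nat_lit 14) (nat_lit 1) (.cons (.rf (nat_lit 56) (nat_lit 21173223984251494897649696)) (.cons (.br (nat_lit 14) (nat_lit 1) (.cons (.rf (nat_lit 56) (nat_lit 21173223984251494897649696)) .nil)) .nil))) .nil)))) .nil))),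
 (.br (nat_lit 11) (nat_lit 1) (.cons (.kr (nat_lit 1208925819614629174706176) (nat_lit 309485009821345068724781056) (nat_lit 10) (nat_lit 0)) (.cons (.ev (nat_lit 310698658079782736070967296) (nat_lit 1)) .nil))),
 (.br (nat_lit 10) (nat_lit 1) (.cons (.rf (nat_lit 58) (nat_lit 17022140995484340291616)) (.cons (.rf (nat_lit 58) (nat_lit 15878442862914348091424)) .nil))),
 (.br (nat_lit 10) (nat_lit 1) (.cons (.rf (nat_lit 59) (nat_lit 17022140995484340291616)) (.cons (.br (nat_lit 13) (nat_lit 1) (.cons (.br (nat_lit 11) (nat_lit 1) (.cons (.ev (nat_lit 5212579268143201737777481751986176) (nat_lit 1)) .nil)) (.cons (.kr (nat_lit 20282409603651670423947251286016) (nat_lit 5192296858534827628530496329220096) (nat_lit 13) (nat_lit 0)) .nil))) .nil))),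
 (.br (nat_lit 7) (nat_lit 0) (.cons (.br (nat_lit 7) (nat_lit 0) (.cons (.br (nat_lit 8) (nat_lit 1) (.cons (.br (nat_lit 9) (nat_lit 1) (.cons (.br (nat_lit 6) (nat_lit 1) (.cons (.br (nat_lit 4) (nat_lit 0) (.cons (.br (nat_lit 0) (nat_lit 0) (.cons (.ev (nat_lit 18447026652509700353) (nat_lit 1)) (.cons (.ev (nat_lit 4722366765448445362433) (nat_lit 1)) (.cons (.br (nat_lit 8) (nat_lit 0) (.cons (.ev (nat_lit 1208962785442953760539136) (nat_lit 2)) (.cons (.br (nat_lit 9) (nat_lit 0) (.cons (.ev (nat_lit 309518195514503249363470081) (nat_lit 3)) .nil)) .nil))) .nil)))) (.cons (.kr (nat_lit 281479271677952) (nat_lit 18446745173221179392) (nat_lit 4) (nat_lit 0)) (.cons (.kr (nat_lit 281479271677952) (nat_lit 4722366483969156841472) (nat_lit 4) (nat_lit 0)) (.cons (.br (nat_lit 8) (nat_lit 0) (.cons (.rf (nat_lit 44) (nat_lit 407901468851537952)) (.cons (.kr (nat_lit 18446744073709551616) (nat_lit 4722366482869645213696) (nat_lit 8) (nat_lit 0)) (.cons (.rf (nat_lit 44) (nat_lit 11584701639788683)) .nil)))) .nil)))))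 (.cons (.br (nat_lit 10) (nat_lit 1) (.cons (.br (nat_lit 11) (nat_lit 1) (.cons (.br (nat_lit 12) (nat_lit 1) (.cons (.br (nat_lit 12) (nat_lit 1) (.cons (.br (nat_lit 13) (nat_lit 1) (.cons (.rf (nat_lit 45) (nat_lit 507299331511394)) (.cons (.br (nat_lit 13) (nat_lit 1) (.cons (.rf (nat_lit 45) (nat_lit 507299331511394)) (.cons (.br (nat_lit 14) (nat_lit 1) (.cons (.rf (nat_lit 46) (nat_lit 593856550237574242)) (.cons (.rf (nat_lit 46) (nat_lit 558953653125452898)) .nil))) .nil))) .nil))) .nil)) .nil)) .nil)) (.cons (.br (nat_lit 11) (nat_lit 1) (.cons (.rf (nat_lit 49) (nat_lit 424471106658)) (.cons (.br (nat_lit 11) (nat_lit 1) (.cons (.rf (nat_lit 49) (nat_lit 424471106658)) (.cons (.br (nat_lit 8) (nat_lit 0) (.cons (.rf (nat_lit 55) (nat_lit 17022140995484340291616)) (.cons (.br (nat_lit 9) (nat_lit 0) (.cons (.rf (nat_lit 55) (nat_lit 17022140961399479830560)) (.cons (.rf (nat_lit 2) (nat_lit 513019936)) .nil))) (.cons (.kr (nat_lit 18446744073709551616) (nat_lit 4722366482869645213696) (nat_lit 8) (nat_lit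 0)) (.cons (.br (nat_lit 4) (nat_lit 0) (.cons (.br (nat_lit 0) (nat_lit 0) (.cons (.rf (nat_lit 0) (nat_lit 8687648)) (.cons (.br (nat_lit 9) (nat_lit 0) (.cons (.br (nat_lit 12) (nat_lit 1) (.cons (.rf (nat_lit 57) (nat_lit 583706118939841765935136)) (.cons (.rf (nat_lit 57) (nat_lit 582562420807271773734944)) (.cons (.br (nat_lit 12) (nat_lit 1) (.cons (.rf (nat_lit 57) (nat_lit 583706118939841765935136)) (.cons (.rf (nat_lit 57) (nat_lit 582562420807271773734944)) (.cons (.br (nat_lit 13) (nat_lit 1) (.cons (.rf (nat_lit 59) (nat_lit 20678166659641484973154)) (.cons (.rf (nat_lit 60) (nat_lit 20678166659641484973154)) (.cons (.rf (nat_lit 60) (nat_lit 19534468527071492772962)) .nil)))) .nil)))) .nil)))) .nil)) .nil))) (.cons (.rf (nat_lit 2) (nat_lit 512004128)) (.cons (.rf (nat_lit 55) (nat_lit 17022140995484337145999)) .nil)))) .nil))))) .nil))) .nil))) .nil))) .nil))) .nil)) .nil)) .nil)) .nil)),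
 (.br (nat_lit 5) (nat_lit 1) (.cons (.br (nat_lit 6) (nat_lit 0) (.cons (.rf (nat_lit 0) (nat_lit 7508000)) .nil)) .nil)),
 (.br (nat_lit 10) (nat_lit 1) (.cons (.br (nat_lit 10) (nat_lit 1) .nil) .nil)),
 (.br (nat_lit 14) (nat_lit 1) (.cons (.br (nat_lit 15) (nat_lit 1) (.cons (.ev (nat_lit 2668840744053925087601358029713310465) (nat_lit 2)) (.cons (.rf (nat_lit 63) (nat_lit 631047566413468770)) .nil))) .nil)),
 (.br (nat_lit 15) (nat_lit 1) (.cons (.kr (nat_lit 1329248357422682038838851175563919362) (nat_lit 5192296858544290880297903383969792) (nat_lit 0) (nat_lit 1)) .nil)),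
 (.br (nat_lit 10) (nat_lit 1) (.cons (.br (nat_lit 10) (nat_lit 1) .nil) .nil)),
 (.br (nat_lit 5) (nat_lit 1) (.cons (.br (nat_lit 12) (nat_lit 1) (.cons (.ev (nat_lit 79228167255149623234743238656) (nat_lit 1)) (.cons (.rf (nat_lit 66) (nat_lit 519474517580548128)) .nil))) .nil)),
 (.br (nat_lit 15) (nat_lit 1) (.cons (.kr (nat_lit 1329248357422682038838851175563919362) (nat_lit 5192296858544290880297903383969792) (nat_lit 0) (nat_lit 1)) .nil)),
 (.br (nat_lit 10) (nat_lit 1) (.cons (.br (nat_lit 10) (nat_lit 1) .nil) .nil)),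
 (.br (nat_lit 9) (nat_lit 1) (.cons (.br (nat_lit 9) (nat_lit 1) .nil) .nil)),
 (.br (nat_lit 15) (nat_lit 1) (.cons (.br (nat_lit 16) (nat_lit 1) (.cons (.zr (nat_lit 1361129549130308545294696324175824420869) (nat_lit 2668840586834340654308452405602287872) (nat_lit 8) (nat_lit 10)) .nil)) .nil)),
 (.br (nat_lit 8) (nat_lit 1) (.cons (.ev (nat_lit 40565129905998386458959403811585) (nat_lit 2)) (.cons (.br (nat_lit 14) (nat_lit 1) (.cons (.br (nat_lit 15) (nat_lit 1) (.cons (.ev (nat_lit 1329228075013083128053711770017136897) (nat_lit 1)) (.cons (.rf (nat_lit 69) (nat_lit 631047566413468770)) .nil))) (.cons (.br (nat_lit 16) (nat_lit 1) (.cons (.ev (nat_lit 340282367000166630718524229566999822593) (nat_lit 1)) (.cons (.rf (nat_lit 70) (nat_lit 631047566413468770)) .nil))) (.cons (.br (nat_lit 15) (nat_lit 1) (.cons (.rf (nat_lit 71) (nat_lit 677582165103132179601393696)) (.cons (.br (nat_lit 15) (nat_lit 1) (.cons (.rf (nat_lit 71) (nat_lit 677582165103132179601393696)) .nil)) .nil))) .nil)))) .nil))),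
 (.br (nat_lit 10) (nat_lit 1) (.cons (.br (nat_lit 10) (nat_lit 1) .nil) .nil)),
 (.br (nat_lit 13) (nat_lit 1) (.cons (.br (nat_lit 15) (nat_lit 1) (.cons (.ev (nat_lit 344275304132537174426973853150229889536) (nat_lit 2)) .nil)) .nil)),
 (.br (nat_lit 8) (nat_lit 1) (.cons (.ev (nat_lit 40565129905998386458959403811585) (nat_lit 2)) (.cons (.br (nat_lit 15) (nat_lit 1) (.cons (.br (nat_lit 14) (nat_lit 1) (.cons (.ev (nat_lit 2668921715236024221599593617919443203) (nat_lit 3)) (.cons (.rf (nat_lit 73) (nat_lit 631047566413468770)) .nil))) (.cons (.br (nat_lit 16) (nat_lit 1) (.cons (.ev (nat_lit 683223312003584063844692787232917029123) (nat_lit 3)) (.cons (.br (nat_lit 14) (nat_lit 1) (.cons (.br (nat_lit 14) (nat_lit 1) .nil) .nil)) .nil))) (.cons (.br (nat_lit 14) (nat_lit 1) (.cons (.rf (nat_lit 74) (nat_lit 21174442659471745632798752)) (.cons (.br (nat_lit 14) (nat_lit 1) (.cons (.rf (nat_lit 74) (nat_lit 21174442659471745632798752)) .nil)) .nil))) .nil)))) .nil)))]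

theorem c1 : chkAll C T R L1 (nat_lit 40) = true := by decide +kernel

theorem l1 : (nat_lit 40) + L1.length = (nat_lit 76) := by decide +kernel

/-- part of the certificates -/
def L2 : List Prf := [(.br (nat_lit 15) (nat_lit 1) (.cons (.ev (nat_lit 2668840744053925087600792880770319105) (nat_lit 2)) (.cons (.br (nat_lit 16) (nat_lit 1) (.cons (.ev (nat_lit 341616807496302211751218611208033730560) (nat_lit 1)) .nil)) .nil))),
 (.br (nat_lit 14) (nat_lit 1) (.cons (.rf (nat_lit 76) (nat_lit 677582165103132179601393696)) (.cons (.rf (nat_lit 76) (nat_lit 640105464695078675185502240)) .nil))),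
 (.br (nat_lit 14) (nat_lit 1) (.cons (.rf (nat_lit 77) (nat_lit 677582165103132179601393696)) (.cons (.br (nat_lit 16) (nat_lit 1) (.cons (.br (nat_lit 15) (nat_lit 1) (.cons (.ev (nat_lit 1329228075013083128053711770017136897) (nat_lit 1)) .nil)) (.cons (.ev (nat_lit 680575118594361020268542958772689044225) (nat_lit 2)) .nil))) .nil))),
 (.br (nat_lit 13) (nat_lit 1) (.cons (.ev (nat_lit 40723586240434898166166952476931) (nat_lit 3)) (.cons (.zr (nat_lit 40723275532331869525280613729029) (nat_lit 310708102740971278263386112) (nat_lit 8) (nat_lit 1)) (.cons (.br (nat_lit 7) (nat_lit 1) (.cons (.br (nat_lit 8) (nat_lit 1) (.cons (.ev (nat_lit 40565129905998385893810460820225) (nat_lit 2)) (.cons (.br (nat_lit 14) (nat_lit 1) (.cons (.rf (nat_lit 64) (nat_lit 583706118939841765935136)) (.cons (.br (nat_lit 14) (nat_lit 1) (.cons (.rf (nat_lit 64) (nat_lit 583706118939841765935136)) (.cons (.br (nat_lit 15) (nat_lit 1) (.cons (.rf (nat_lit 65) (nat_lit 677582165103132179601393696)) (.cons (.rf (nat_lit 65) (nat_lit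 640105464695078675185502240)) .nil))) .nil))) .nil))) .nil))) (.cons (.br (nat_lit 14) (nat_lit 1) (.cons (.ev (nat_lit 5212579578832414940196715985174528) (nat_lit 1)) (.cons (.br (nat_lit 8) (nat_lit 1) (.cons (.rf (nat_lit 67) (nat_lit 17813297086787163234)) (.cons (.br (nat_lit 8) (nat_lit 1) (.cons (.rf (nat_lit 67) (nat_lit 17813297086787163234)) (.cons (.br (nat_lit 15) (nat_lit 1) (.cons (.rf (nat_lit 68) (nat_lit 677582165103132179601393696)) (.cons (.rf (nat_lit 68) (nat_lit 640105464695078675185502240)) .nil))) .nil))) .nil))) .nil))) (.cons (.br (nat_lit 8) (nat_lit 1) (.cons (.rf (nat_lit 72) (nat_lit 583706118939841765935136)) (.cons (.rf (nat_lit 75) (nat_lit 583706118939841765935136)) (.cons (.br (nat_lit 8) (nat_lit 1) (.cons (.rf (nat_lit 72) (nat_lit 583706118939841765935136)) (.cons (.rf (nat_lit 75) (nat_lit 583706118939841765935136)) (.cons (.br (nat_lit 14) (nat_lit 1) (.cons (.rf (nat_lit 77) (nat_lit 677582165103132179601393696)) (.cons (.rf (nat_lit 78) (nat_lit 677582165103132179601393696))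 (.cons (.rf (nat_lit 78) (nat_lit 640105464695078675185502240)) .nil)))) .nil)))) .nil)))) .nil)))) .nil)))),
 (.br (nat_lit 10) (nat_lit 1) (.cons (.br (nat_lit 10) (nat_lit 1) .nil) .nil)),
 (.br (nat_lit 8) (nat_lit 1) (.cons (.br (nat_lit 15) (nat_lit 1) (.cons (.ev (nat_lit 5337721894160043310526262312077230339) (nat_lit 3)) (.cons (.rf (nat_lit 80) (nat_lit 631047566413468770)) .nil))) .nil)),
 (.br (nat_lit 15) (nat_lit 1) (.cons (.kr (nat_lit 1329248357422682038838851175563919362) (nat_lit 5192296858544290880297903383969792) (nat_lit 0) (nat_lit 1)) .nil)),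
 (.br (nat_lit 7) (nat_lit 1) (.cons (.ev (nat_lit 122170137305098638333832061124867) (nat_lit 3)) (.cons (.br (nat_lit 8) (nat_lit 1) (.cons (.rf (nat_lit 81) (nat_lit 583706118939841765935136)) (.cons (.br (nat_lit 8) (nat_lit 1) (.cons (.rf (nat_lit 81) (nat_lit 583706118939841765935136)) (.cons (.br (nat_lit 15) (nat_lit 1) (.cons (.rf (nat_lit 82) (nat_lit 677582165103132179601393696)) (.cons (.rf (nat_lit 82) (nat_lit 640105464695078675185502240)) .nil))) .nil))) .nil))) .nil))),
 (.br (nat_lit 15) (nat_lit 1) (.cons (.zr (nat_lit 10384593717074414661147197832299265) (nat_lit 2658455991880525681449699739841855488) (nat_lit 8) (nat_lit 1)) .nil)),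
 (.br (nat_lit 7) (nat_lit 1) (.cons (.ev (nat_lit 20809911020379745413409654197059843) (nat_lit 3)) (.cons (.br (nat_lit 8) (nat_lit 1) (.cons (.ev (nat_lit 20809911020379818912155572883554563) (nat_lit 3)) (.cons (.kr (nat_lit 72057594037927936) (nat_lit 18446744073709551616) (nat_lit 7) (nat_lit 0)) (.cons (.br (nat_lit 15) (nat_lit 1) (.cons (.rf (nat_lit 84) (nat_lit 677582165103132179601393696)) (.cons (.rf (nat_lit 84) (nat_lit 640105464695077610033612832)) .nil))) .nil)))) .nil))),
 (.br (nat_lit 16) (nat_lit 1) (.cons (.ev (nat_lit 1366446501837030822443751991800255348995) (nat_lit 3)) .nil)),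
 (.br (nat_lit 7) (nat_lit 1) (.cons (.ev (nat_lit 20809911020379745413409654197059843) (nat_lit 3)) (.cons (.br (nat_lit 15) (nat_lit 1) (.cons (.ev (nat_lit 7985834015288356548625858854255591687) (nat_lit 3)) (.cons (.ev (nat_lit 5317034153276968590252440571254800643) (nat_lit 3)) (.cons (.br (nat_lit 8) (nat_lit 1) (.cons (.rf (nat_lit 86) (nat_lit 677582165103132179601393696)) (.cons (.br (nat_lit 8) (nat_lit 1) (.cons (.rf (nat_lit 86) (nat_lit 677582165103132179601393696)) .nil)) .nil))) .nil)))) .nil))),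
 (.br (nat_lit 8) (nat_lit 1) (.cons (.rf (nat_lit 87) (nat_lit 583706118938776614045728)) (.cons (.br (nat_lit 16) (nat_lit 1) (.cons (.br (nat_lit 15) (nat_lit 1) (.cons (.ev (nat_lit 2668881308562433751453847594628874752) (nat_lit 2)) .nil)) (.cons (.ev (nat_lit 680564733841876926945268299114412704256) (nat_lit 2)) .nil))) .nil))),
 (.br (nat_lit 10) (nat_lit 1) (.cons (.br (nat_lit 10) (nat_lit 1) .nil) .nil)),
 (.br (nat_lit 9) (nat_lit 1) (.cons (.br (nat_lit 9) (nat_lit 1) .nil) .nil)),
 (.br (nat_lit 16) (nat_lit 1) (.cons (.ev (nat_lit 680575159000723902580392734815598674689) (nat_lit 2)) .nil)),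
 (.br (nat_lit 8) (nat_lit 1) (.cons (.ev (nat_lit 5192376086702064259633538318532865) (nat_lit 1)) (.cons (.ev (nat_lit 122170137305135387706791404372227) (nat_lit 3)) (.cons (.br (nat_lit 14) (nat_lit 1) (.cons (.br (nat_lit 15) (nat_lit 1) (.cons (.ev (nat_lit 1329248278505213478733992373178597376) (nat_lit 1)) (.cons (.rf (nat_lit 89) (nat_lit 631047566413468770)) .nil))) (.cons (.br (nat_lit 16) (nat_lit 1) (.cons (.ev (nat_lit 680575159000723902543355131480103715585) (nat_lit 2)) (.cons (.rf (nat_lit 90) (nat_lit 631047566413468770)) .nil))) (.cons (.br (nat_lit 15) (nat_lit 1) (.cons (.rf (nat_lit 91) (nat_lit 677582165103132179601393696)) (.cons (.br (nat_lit 15) (nat_lit 1) (.cons (.rf (nat_lit 91) (nat_lit 677582165103132179601393696)) .nil)) .nil))) .nil)))) .nil)))),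
 (.br (nat_lit 15) (nat_lit 1) (.cons (.zr (nat_lit 81446551064664027276539366345481) (nat_lit 2668840585597628393272140854376529920) (nat_lit 24) (nat_lit 1)) (.cons (.zr (nat_lit 81446551064700776649498709592841) (nat_lit 2668840585597628393272140854376529920) (nat_lit 24) (nat_lit 1)) .nil))),
 (.br (nat_lit 14) (nat_lit 1) (.cons (.rf (nat_lit 93) (nat_lit 677582165103132179601393696)) (.cons (.rf (nat_lit 93) (nat_lit 640105464695077610033612832)) .nil))),
 (.br (nat_lit 14) (nat_lit 1) (.cons (.rf (nat_lit 94) (nat_lit 677582165103132179601393696)) (.cons (.ev (nat_lit 5192376397391296052629455520137216) (nat_lit 1)) .nil))),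
 (.br (nat_lit 7) (nat_lit 1) (.cons (.rf (nat_lit 92) (nat_lit 583706118939841765935136)) (.cons (.rf (nat_lit 92) (nat_lit 547072038130959203272736)) (.cons (.br (nat_lit 8) (nat_lit 1) (.cons (.rf (nat_lit 92) (nat_lit 583706118938776614045728)) (.cons (.rf (nat_lit 92) (nat_lit 547072038129894051383328)) (.cons (.kr (nat_lit 72057594037927936) (nat_lit 18446744073709551616) (nat_lit 7) (nat_lit 0)) (.cons (.br (nat_lit 14) (nat_lit 1) (.cons (.rf (nat_lit 94) (nat_lit 677582165103132179601393696)) (.cons (.rf (nat_lit 95) (nat_lit 677582165103132179601393696)) (.cons (.rf (nat_lit 95) (nat_lit 640105464695077610033612832)) .nil)))) .nil))))) .nil)))),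
 (.br (nat_lit 8) (nat_lit 1) (.cons (.ev (nat_lit 2668922032148693167835210243467378951) (nat_lit 3)) .nil)),
 (.br (nat_lit 5) (nat_lit 1) (.cons (.br (nat_lit 5) (nat_lit 1) .nil) .nil)),
 (.br (nat_lit 9) (nat_lit 1) (.cons (.br (nat_lit 9) (nat_lit 1) .nil) .nil)),
 (.br (nat_lit 8) (nat_lit 1) (.cons (.ev (nat_lit 1361150358724412667132096513631366152455) (nat_lit 3)) (.cons (.br (nat_lit 15) (nat_lit 1) (.cons (.ev (nat_lit 680575159000723902543354566331160724225) (nat_lit 2)) (.cons (.zr (nat_lit 310693972678563033428133120) (nat_lit 2668840585286906123431162393795756033) (nat_lit 8) (nat_lit 1)) .nil))) .nil))),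
 (.br (nat_lit 8) (nat_lit 1) (.cons (.br (nat_lit 15) (nat_lit 1) (.cons (.ev (nat_lit 1366446420707392426837072020391027802375) (nat_lit 3)) (.cons (.br (nat_lit 16) (nat_lit 1) (.cons (.zr (nat_lit 1361129549130308545294696324175824420869) (nat_lit 2668840586834340654308452405602287872) (nat_lit 8) (nat_lit 10)) .nil)) .nil))) (.cons (.br (nat_lit 15) (nat_lit 1) (.cons (.zr (nat_lit 310693972678563033428133120) (nat_lit 2668840585286906123431162393795756033) (nat_lit 8) (nat_lit 1)) (.cons (.ev (nat_lit 174224582288679340268864404921681891558145) (nat_lit 2)) .nil))) .nil))),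
 (.br (nat_lit 8) (nat_lit 1) (.cons (.rf (nat_lit 101) (nat_lit 677582165103132179601393696)) (.cons (.br (nat_lit 17) (nat_lit 1) (.cons (.ev (nat_lit 174224582288679340268864404921681891558145) (nat_lit 2)) (.cons (.ev (nat_lit 87452573491057582501383327021994455662592) (nat_lit 1)) .nil))) .nil))),
 (.br (nat_lit 7) (nat_lit 1) (.cons (.rf (nat_lit 96) (nat_lit 583706118939841765935136)) (.cons (.br (nat_lit 14) (nat_lit 1) (.cons (.ev (nat_lit 5192376086702064259633538318532865) (nat_lit 1)) (.cons (.zr (nat_lit 310693935929190074084885760) (nat_lit 2668840585286906123431162393795756033) (nat_lit 8) (nat_lit 1)) (.cons (.br (nat_lit 15) (nat_lit 1) (.cons (.ev (nat_lit 1329248278194524246940996455976993025) (nat_lit 1)) (.cons (.kr (nat_lit 1329228075013078387168144653824294912) (nat_lit 5212579268138479298954443580506112) (nat_lit 12) (nat_lit 0)) (.cons (.br (nat_lit 8) (nat_lit 1) (.cons (.rf (nat_lit 97) (nat_lit 677582165103132179601393696)) (.cons (.rf (nat_lit 97) (nat_lit 640068830614269792622839840))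 .nil))) .nil)))) .nil)))) (.cons (.br (nat_lit 14) (nat_lit 1) (.cons (.ev (nat_lit 5192376086702064259633538318532865) (nat_lit 1)) (.cons (.br (nat_lit 15) (nat_lit 1) (.cons (.ev (nat_lit 2668922032148693057011752115061915911) (nat_lit 3)) (.cons (.br (nat_lit 16) (nat_lit 1) (.cons (.ev (nat_lit 683223189992213782359093511900591293185) (nat_lit 2)) (.cons (.rf (nat_lit 98) (nat_lit 631047566413468770)) .nil))) (.cons (.br (nat_lit 8) (nat_lit 1) (.cons (.br (nat_lit 8) (nat_lit 1) (.cons (.ev (nat_lit 1329248278505213478734274947683778560) (nat_lit 1)) .nil)) (.cons (.br (nat_lit 8) (nat_lit 1) (.cons (.ev (nat_lit 1329248278505213478734274947683778560) (nat_lit 1)) .nil)) .nil))) .nil)))) (.cons (.br (nat_lit 16) (nat_lit 1) (.cons (.br (nat_lit 8) (nat_lit 1) (.cons (.ev (nat_lit 1361150358724412667132096513631366152455) (nat_lit 3)) (.cons (.rf (nat_lit 99) (nat_lit 631047566413468770)) .nil))) (.cons (.ev (nat_lit 680575159000723902543354566331160724225) (nat_lit 2)) (.cons (.br (nat_lit 8) (nat_lit 1) (.cons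 (.rf (nat_lit 100) (nat_lit 19926519232773908561233952)) (.cons (.br (nat_lit 8) (nat_lit 1) (.cons (.rf (nat_lit 100) (nat_lit 19926519232773908561233952)) .nil)) .nil))) .nil)))) (.cons (.br (nat_lit 8) (nat_lit 1) (.cons (.rf (nat_lit 101) (nat_lit 677582165103132179601393696)) (.cons (.rf (nat_lit 102) (nat_lit 677582165103132179601393696)) (.cons (.br (nat_lit 8) (nat_lit 1) (.cons (.rf (nat_lit 101) (nat_lit 677582165103132179601393696)) (.cons (.rf (nat_lit 102) (nat_lit 677582165103132179601393696)) .nil))) .nil)))) .nil))))) .nil)))),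
 (.br (nat_lit 14) (nat_lit 1) (.cons (.ev (nat_lit 340287559297335854759427237986816819200) (nat_lit 1)) (.cons (.ev (nat_lit 340287559297335854740908716694517579776) (nat_lit 1)) (.cons (.ev (nat_lit 680575159000723902580392169666655683329) (nat_lit 2)) (.cons (.ev (nat_lit 87452573491057582501364807937752203001856) (nat_lit 1)) .nil))))),
 (.br (nat_lit 8) (nat_lit 1) (.cons (.rf (nat_lit 103) (nat_lit 583706118938776614045728)) (.cons (.rf (nat_lit 103) (nat_lit 547072038129894051383328)) (.cons (.br (nat_lit 16) (nat_lit 1) (.cons (.rf (nat_lit 104) (nat_lit 677582165103132179601393696)) (.cons (.rf (nat_lit 104) (nat_lit 677545531022323297038731296)) (.cons (.ev (nat_lit 680564733841876926945268299114412704256) (nat_lit 2)) .nil)))) .nil)))),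
 (.br (nat_lit 4) (nat_lit 0) (.cons (.br (nat_lit 0) (nat_lit 0) (.cons (.rf (nat_lit 9) (nat_lit 171051040)) .nil)) (.cons (.rf (nat_lit 2) (nat_lit 172066848)) .nil))),
 (.br (nat_lit 5) (nat_lit 1) (.cons (.br (nat_lit 6) (nat_lit 0) (.cons (.rf (nat_lit 106) (nat_lit 7508000)) .nil)) .nil))]

theorem c2 : chkAll C T R L2 (nat_lit 76) = true := by decide +kernel

theorem l2 : (nat_lit 76) + L2.length = (nat_lit 108) := by decide +kernel

/-- part of the certificates -/
def L3 : List Prf := [(.br (nat_lit 13) (nat_lit 1) (.cons (.br (nat_lit 14) (nat_lit 1) (.cons (.ev (nat_lit 5212579578832414939915245286588673) (nat_lit 1)) (.cons (.rf (nat_lit 63) (nat_lit 593856550135828578)) .nil))) .nil)),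
 (.br (nat_lit 15) (nat_lit 1) (.cons (.ev (nat_lit 1407132810300770844179593829045175310) (nat_lit 4)) .nil)),
 (.br (nat_lit 8) (nat_lit 1) (.cons (.br (nat_lit 15) (nat_lit 1) (.cons (.ev (nat_lit 2658456150339273321020564481922564355) (nat_lit 2)) (.cons (.rf (nat_lit 66) (nat_lit 631047566413468770)) .nil))) .nil)),
 (.br (nat_lit 15) (nat_lit 1) (.cons (.ev (nat_lit 1407132810300770844179593829045175310) (nat_lit 4)) .nil)),
 (.br (nat_lit 15) (nat_lit 1) (.cons (.br (nat_lit 16) (nat_lit 1) (.cons (.ev (nat_lit 90184209734833703083875875666205344728078) (nat_lit 4)) .nil)) .nil)),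
 (.br (nat_lit 8) (nat_lit 1) (.cons (.ev (nat_lit 20282719088680010853258211885313) (nat_lit 1)) (.cons (.br (nat_lit 14) (nat_lit 1) (.cons (.br (nat_lit 15) (nat_lit 1) (.cons (.ev (nat_lit 2658456150339273321021129630932926723) (nat_lit 2)) (.cons (.rf (nat_lit 69) (nat_lit 631047566413468770)) .nil))) (.cons (.br (nat_lit 16) (nat_lit 1) (.cons (.ev (nat_lit 680564734000646368501962165224898298115) (nat_lit 2)) (.cons (.rf (nat_lit 70) (nat_lit 631047566413468770)) .nil))) (.cons (.br (nat_lit 15) (nat_lit 1) (.cons (.rf (nat_lit 112) (nat_lit 677582165103132179601393696)) (.cons (.br (nat_lit 15) (nat_lit 1) (.cons (.rf (nat_lit 112) (nat_lit 677582165103132179601393696)) .nil)) .nil))) .nil)))) .nil))),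
 (.br (nat_lit 13) (nat_lit 1) (.cons (.br (nat_lit 15) (nat_lit 1) (.cons (.ev (nat_lit 1329248278505213460215191809237713153) (nat_lit 1)) .nil)) .nil)),
 (.br (nat_lit 13) (nat_lit 1) (.cons (.rf (nat_lit 114) (nat_lit 19926519232773908561233952)) (.cons (.br (nat_lit 13) (nat_lit 1) (.cons (.rf (nat_lit 114) (nat_lit 19926519232773908561233952)) .nil)) .nil))),
 (.br (nat_lit 8) (nat_lit 1) (.cons (.ev (nat_lit 20282719088680010853258211885313) (nat_lit 1)) (.cons (.br (nat_lit 15) (nat_lit 1) (.cons (.br (nat_lit 14) (nat_lit 1) (.cons (.ev (nat_lit 2668921715236024221599593617919443203) (nat_lit 3)) (.cons (.rf (nat_lit 73) (nat_lit 631047566413468770)) .nil))) (.cons (.br (nat_lit 16) (nat_lit 1) (.cons (.ev (nat_lit 683223312003584063844692787232917029123) (nat_lit 3)) (.cons (.br (nat_lit 14) (nat_lit 1) (.cons (.br (nat_lit 14) (nat_lit 1) .nil) .nil)) .nil))) (.cons (.rf (nat_lit 115) (nat_lit 21174442659472880612509728)) .nil)))) .nil))),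
 (.br (nat_lit 15) (nat_lit 1) (.cons (.ev (nat_lit 1334420372181098224618020218895139073) (nat_lit 1)) (.cons (.br (nat_lit 16) (nat_lit 1) (.cons (.ev (nat_lit 683233614992296152140801974859047502083) (nat_lit 2)) .nil)) .nil))),
 (.br (nat_lit 14) (nat_lit 1) (.cons (.rf (nat_lit 117) (nat_lit 677582165103132179601393696)) (.cons (.rf (nat_lit 117) (nat_lit 640105464695078675185502240)) .nil))),
 (.br (nat_lit 14) (nat_lit 1) (.cons (.rf (nat_lit 118) (nat_lit 677582165103132179601393696)) (.cons (.br (nat_lit 16) (nat_lit 1) (.cons (.br (nat_lit 15) (nat_lit 1) (.cons (.ev (nat_lit 2658456150339273321021129630932926723) (nat_lit 2)) .nil)) (.cons (.ev (nat_lit 340287559297026374453453855599244607488) (nat_lit 1)) .nil))) .nil))),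
 (.br (nat_lit 13) (nat_lit 1) (.cons (.ev (nat_lit 40723586240434898166166952476931) (nat_lit 3)) (.cons (.zr (nat_lit 40723276741257689139914083401731) (nat_lit 928459751831081025772978944) (nat_lit 8) (nat_lit 10)) (.cons (.br (nat_lit 7) (nat_lit 1) (.cons (.br (nat_lit 8) (nat_lit 1) (.cons (.ev (nat_lit 20282719088680010570683740389633) (nat_lit 1)) (.cons (.br (nat_lit 14) (nat_lit 1) (.cons (.rf (nat_lit 108) (nat_lit 18240816216870055151648)) (.cons (.br (nat_lit 14) (nat_lit 1) (.cons (.rf (nat_lit 108) (nat_lit 18240816216870055151648)) (.cons (.br (nat_lit 15) (nat_lit 1) (.cons (.rf (nat_lit 109) (nat_lit 677582165103132179601393696)) (.cons (.rf (nat_lit 109) (nat_lit 640105464695078675185502240)) .nil))) .nil))) .nil))) .nil))) (.cons (.br (nat_lit 14) (nat_lit 1) (.cons (.ev (nat_lit 10425158849393468245145874950390019) (nat_lit 2)) (.cons (.br (nat_lit 8) (nat_lit 1) (.cons (.rf (nat_lit 110) (nat_lit 583706118939841765935136)) (.cons (.br (nat_lit 8) (nat_lit 1) (.cons (.rf (nat_lit 110) (nat_lit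 583706118939841765935136)) (.cons (.br (nat_lit 15) (nat_lit 1) (.cons (.rf (nat_lit 111) (nat_lit 677582165103132179601393696)) (.cons (.rf (nat_lit 111) (nat_lit 640105464695078675185502240)) .nil))) .nil))) .nil))) .nil))) (.cons (.br (nat_lit 8) (nat_lit 1) (.cons (.rf (nat_lit 113) (nat_lit 583706118939841765935136)) (.cons (.rf (nat_lit 116) (nat_lit 583706118939841765935136)) (.cons (.br (nat_lit 8) (nat_lit 1) (.cons (.rf (nat_lit 113) (nat_lit 583706118939841765935136)) (.cons (.rf (nat_lit 116) (nat_lit 583706118939841765935136)) (.cons (.br (nat_lit 14) (nat_lit 1) (.cons (.rf (nat_lit 118) (nat_lit 677582165103132179601393696)) (.cons (.rf (nat_lit 119) (nat_lit 677582165103132179601393696)) (.cons (.rf (nat_lit 119) (nat_lit 640105464695078675185502240)) .nil)))) .nil)))) .nil)))) .nil)))) .nil)))),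
 (.br (nat_lit 8) (nat_lit 1) (.cons (.br (nat_lit 15) (nat_lit 1) (.cons (.ev (nat_lit 5337721894160043310526262312077230339) (nat_lit 3)) (.cons (.rf (nat_lit 80) (nat_lit 631047566413468770)) .nil))) .nil)),
 (.br (nat_lit 15) (nat_lit 1) (.cons (.ev (nat_lit 1407132810300770844179593829045175310) (nat_lit 4)) .nil)),
 (.br (nat_lit 7) (nat_lit 1) (.cons (.ev (nat_lit 122170137305098638333832061124867) (nat_lit 3)) (.cons (.br (nat_lit 8) (nat_lit 1) (.cons (.rf (nat_lit 121) (nat_lit 583706118939841765935136)) (.cons (.br (nat_lit 8) (nat_lit 1) (.cons (.rf (nat_lit 121) (nat_lit 583706118939841765935136)) (.cons (.br (nat_lit 15) (nat_lit 1) (.cons (.rf (nat_lit 122) (nat_lit 677582165103132179601393696)) (.cons (.rf (nat_lit 122) (nat_lit 640105464695078675185502240)) .nil))) .nil))) .nil))) .nil))),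
 (.br (nat_lit 15) (nat_lit 1) (.cons (.zr (nat_lit 10384594026554702116009396911866115) (nat_lit 2658455991573463245634066790521765888) (nat_lit 8) (nat_lit 1)) .nil)),
 (.br (nat_lit 7) (nat_lit 1) (.cons (.ev (nat_lit 20809911020379745413409654197059843) (nat_lit 3)) (.cons (.br (nat_lit 8) (nat_lit 1) (.cons (.ev (nat_lit 20809911020379818912155572883554563) (nat_lit 3)) (.cons (.kr (nat_lit 72057594037927936) (nat_lit 18446744073709551616) (nat_lit 7) (nat_lit 0)) (.cons (.br (nat_lit 15) (nat_lit 1) (.cons (.rf (nat_lit 124) (nat_lit 677582165103132179601393696)) (.cons (.rf (nat_lit 124) (nat_lit 640105464695077610033612832)) .nil))) .nil)))) .nil))),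
 (.br (nat_lit 16) (nat_lit 1) (.cons (.ev (nat_lit 1366446501837030822443751991800255348995) (nat_lit 3)) .nil)),
 (.br (nat_lit 7) (nat_lit 1) (.cons (.ev (nat_lit 20809911020379745413409654197059843) (nat_lit 3)) (.cons (.br (nat_lit 15) (nat_lit 1) (.cons (.ev (nat_lit 7985834015288356548625858854255591687) (nat_lit 3)) (.cons (.ev (nat_lit 5317034153276968590252440571254800643) (nat_lit 3)) (.cons (.br (nat_lit 8) (nat_lit 1) (.cons (.rf (nat_lit 126) (nat_lit 677582165103132179601393696)) (.cons (.br (nat_lit 8) (nat_lit 1) (.cons (.rf (nat_lit 126) (nat_lit 677582165103132179601393696)) .nil)) .nil))) .nil)))) .nil))),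
 (.br (nat_lit 8) (nat_lit 1) (.cons (.rf (nat_lit 127) (nat_lit 583706118938776614045728)) (.cons (.br (nat_lit 16) (nat_lit 1) (.cons (.br (nat_lit 15) (nat_lit 1) (.cons (.ev (nat_lit 2668840585289319271223553771421499394) (nat_lit 2)) .nil)) (.cons (.ev (nat_lit 680564774565154877128777051454318903298) (nat_lit 2)) .nil))) .nil))),
 (.br (nat_lit 15) (nat_lit 1) (.cons (.ev (nat_lit 1329248357423890964730523403071521025) (nat_lit 1)) .nil)),
 (.br (nat_lit 8) (nat_lit 1) (.cons (.ev (nat_lit 10384752486511193432973167535718659) (nat_lit 2)) (.cons (.ev (nat_lit 122170137305135387706791404372227) (nat_lit 3)) (.cons (.br (nat_lit 14) (nat_lit 1) (.cons (.br (nat_lit 15) (nat_lit 1) (.cons (.ev (nat_lit 2658496556702155595832737189337235715) (nat_lit 2)) (.cons (.rf (nat_lit 89) (nat_lit 631047566413468770)) .nil))) (.cons (.br (nat_lit 16) (nat_lit 1) (.cons (.ev (nat_lit 340287579500516086952495189518561837313) (nat_lit 1)) (.cons (.rf (nat_lit 90) (nat_lit 631047566413468770)) .nil))) (.cons (.br (nat_lit 15)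 (nat_lit 1) (.cons (.rf (nat_lit 129) (nat_lit 21174442659472880612509728)) (.cons (.br (nat_lit 15) (nat_lit 1) (.cons (.rf (nat_lit 129) (nat_lit 21174442659472880612509728)) .nil)) .nil))) .nil)))) .nil)))),
 (.br (nat_lit 15) (nat_lit 1) (.cons (.br (nat_lit 17) (nat_lit 1) .nil) (.cons (.br (nat_lit 16) (nat_lit 1) (.cons (.ev (nat_lit 87472584623432474703152107002637400343566) (nat_lit 4)) .nil)) .nil))),
 (.br (nat_lit 14) (nat_lit 1) (.cons (.rf (nat_lit 131) (nat_lit 677582165103132179601393696)) (.cons (.rf (nat_lit 131) (nat_lit 640105464695077610033612832)) .nil))),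
 (.br (nat_lit 14) (nat_lit 1) (.cons (.rf (nat_lit 132) (nat_lit 677582165103132179601393696)) (.cons (.ev (nat_lit 10384752486511230470011354020315395) (nat_lit 2)) .nil))),
 (.br (nat_lit 7) (nat_lit 1) (.cons (.rf (nat_lit 130) (nat_lit 583706118939841765935136)) (.cons (.rf (nat_lit 130) (nat_lit 547072038130959203272736)) (.cons (.br (nat_lit 8) (nat_lit 1) (.cons (.rf (nat_lit 130) (nat_lit 583706118938776614045728)) (.cons (.rf (nat_lit 130) (nat_lit 547072038129894051383328)) (.cons (.kr (nat_lit 72057594037927936) (nat_lit 18446744073709551616) (nat_lit 7) (nat_lit 0)) (.cons (.br (nat_lit 14) (nat_lit 1) (.cons (.rf (nat_lit 132) (nat_lit 677582165103132179601393696)) (.cons (.rf (nat_lit 133) (nat_lit 677582165103132179601393696)) (.cons (.rf (nat_lit 133) (nat_lit 640105464695077610033612832)) .nil)))) .nil))))) .nil)))),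
 (.br (nat_lit 8) (nat_lit 1) (.cons (.ev (nat_lit 2668922032148693167835210243467378951) (nat_lit 3)) .nil)),
 (.br (nat_lit 8) (nat_lit 1) (.cons (.ev (nat_lit 1361150358724412667132096513631366152455) (nat_lit 3)) (.cons (.br (nat_lit 15) (nat_lit 1) (.cons (.ev (nat_lit 341611594995952755498729132163195731968) (nat_lit 1)) (.cons (.zr (nat_lit 928455066501638541702988545) (nat_lit 2668840585288124493983742753670955008) (nat_lit 8) (nat_lit 1)) .nil))) .nil))),
 (.br (nat_lit 8) (nat_lit 1) (.cons (.br (nat_lit 15) (nat_lit 1) (.cons (.ev (nat_lit 1366446420707392426837072020391027802375) (nat_lit 3)) (.cons (.br (nat_lit 16) (nat_lit 1) (.cons (.ev (nat_lit 87472584623432474703152107002637400343566) (nat_lit 4)) .nil)) .nil))) (.cons (.br (nat_lit 15) (nat_lit 1) (.cons (.zr (nat_lit 928455066501638541702988545) (nat_lit 2668840585288124493983742753670955008) (nat_lit 8) (nat_lit 1)) (.cons (.ev (nat_lit 87112291144339824270113020084619455758593) (nat_lit 1)) .nil))) .nil))),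
 (.br (nat_lit 8) (nat_lit 1) (.cons (.rf (nat_lit 137) (nat_lit 677582165103132179601393696)) (.cons (.br (nat_lit 17) (nat_lit 1) (.cons (.ev (nat_lit 87112291144339824270113020084619455758593) (nat_lit 1)) (.cons (.ev (nat_lit 174905146982114856731405018796431891366147) (nat_lit 2)) .nil))) .nil))),
 (.br (nat_lit 7) (nat_lit 1) (.cons (.rf (nat_lit 134) (nat_lit 583706118939841765935136)) (.cons (.br (nat_lit 14) (nat_lit 1) (.cons (.ev (nat_lit 10384752486511193432973167535718659) (nat_lit 2)) (.cons (.zr (nat_lit 928455029752265582359741185) (nat_lit 2668840585288124493983742753670955008) (nat_lit 8) (nat_lit 1)) (.cons (.br (nat_lit 15) (nat_lit 1) (.cons (.ev (nat_lit 2658496556702155558795699002852638979) (nat_lit 2)) (.cons (.kr (nat_lit 1329228075013078387168144653824294912) (nat_lit 5212579268138479298954443580506112) (nat_lit 12) (nat_lit 0)) (.cons (.br (nat_lit 8) (nat_lit 1) (.cons (.rf (nat_lit 135) (nat_lit 677582165103132179601393696)) (.cons (.rf (nat_lit 135) (nat_lit 640068830614269792622839840))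 .nil))) .nil)))) .nil)))) (.cons (.br (nat_lit 14) (nat_lit 1) (.cons (.ev (nat_lit 10384752486511193432973167535718659) (nat_lit 2)) (.cons (.br (nat_lit 15) (nat_lit 1) (.cons (.ev (nat_lit 2668922032148693057011752115061915911) (nat_lit 3)) (.cons (.br (nat_lit 16) (nat_lit 1) (.cons (.ev (nat_lit 341611594996261026860364379728805626113) (nat_lit 1)) (.cons (.rf (nat_lit 98) (nat_lit 631047566413468770)) .nil))) (.cons (.br (nat_lit 8) (nat_lit 1) (.cons (.br (nat_lit 8) (nat_lit 1) (.cons (.ev (nat_lit 2658496556702155595833302338347598083) (nat_lit 2)) .nil)) (.cons (.br (nat_lit 8) (nat_lit 1) (.cons (.ev (nat_lit 2658496556702155595833302338347598083) (nat_lit 2)) .nil)) .nil))) .nil)))) (.cons (.br (nat_lit 16) (nat_lit 1) (.cons (.br (nat_lit 8) (nat_lit 1) (.cons (.ev (nat_lit 1361150358724412667132096513631366152455) (nat_lit 3)) (.cons (.rf (nat_lit 99) (nat_lit 631047566413468770)) .nil))) (.cons (.ev (nat_lit 340287579500516086952494906944090341633) (nat_lit 1)) (.cons (.br (nat_lit 8) (nat_lit 1)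 (.cons (.rf (nat_lit 136) (nat_lit 19926519232773908561233952)) (.cons (.br (nat_lit 8) (nat_lit 1) (.cons (.rf (nat_lit 136) (nat_lit 19926519232773908561233952)) .nil)) .nil))) .nil)))) (.cons (.br (nat_lit 8) (nat_lit 1) (.cons (.rf (nat_lit 137) (nat_lit 677582165103132179601393696)) (.cons (.rf (nat_lit 138) (nat_lit 677582165103132179601393696)) (.cons (.br (nat_lit 8) (nat_lit 1) (.cons (.rf (nat_lit 137) (nat_lit 677582165103132179601393696)) (.cons (.rf (nat_lit 138) (nat_lit 677582165103132179601393696)) .nil))) .nil)))) .nil))))) .nil))))]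

theorem c3 : chkAll C T R L3 (nat_lit 108) = true := by decide +kernel

theorem l3 : (nat_lit 108) + L3.length = (nat_lit 140) := by decide +kernel

/-- part of the certificates -/
def L4 : List Prf := [(.br (nat_lit 14) (nat_lit 1) (.cons (.ev (nat_lit 680575118594363438157219228416613679363) (nat_lit 2)) (.cons (.ev (nat_lit 680575118594363438120182185832015200515) (nat_lit 2)) (.cons (.ev (nat_lit 340287579500207815609378461046227927040) (nat_lit 1)) (.cons (.ev (nat_lit 174905146982114856731367980627947386044675) (nat_lit 2)) .nil))))),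
 (.br (nat_lit 8) (nat_lit 1) (.cons (.rf (nat_lit 139) (nat_lit 583706118938776614045728)) (.cons (.rf (nat_lit 139) (nat_lit 547072038129894051383328)) (.cons (.br (nat_lit 16) (nat_lit 1) (.cons (.rf (nat_lit 140) (nat_lit 677582165103132179601393696)) (.cons (.rf (nat_lit 140) (nat_lit 677545531022323297038731296)) (.cons (.ev (nat_lit 680564733842190052936686105168330162433) (nat_lit 2)) .nil)))) .nil)))),
 (.br (nat_lit 0) (nat_lit 0) (.cons (.br (nat_lit 9) (nat_lit 0) (.cons (.br (nat_lit 10) (nat_lit 1) (.cons (.br (nat_lit 10) (nat_lit 1) (.cons (.br (nat_lit 12) (nat_lit 0) (.cons (.br (nat_lit 11) (nat_lit 1) (.cons (.br (nat_lit 12) (nat_lit 1) (.cons (.rf (nat_lit 120) (nat_lit 493858305440582043680)) (.cons (.rf (nat_lit 120) (nat_lit 493858304375430154272)) (.cons (.ev (nat_lit 79537647524085682662285574401) (nat_lit 1)) (.cons (.br (nat_lit 13) (nat_lit 1) (.cons (.rf (nat_lit 120) (nat_lit 458117738797769787424)) (.cons (.rf (nat_lit 120) (nat_lit 458117737732617898016)) (.cons (.br (nat_lit 14)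 (nat_lit 1) (.cons (.rf (nat_lit 123) (nat_lit 17022140995484340291616)) (.cons (.rf (nat_lit 123) (nat_lit 17022140994419188402208)) (.cons (.br (nat_lit 7) (nat_lit 1) (.cons (.rf (nat_lit 125) (nat_lit 583706118939841765935136)) (.cons (.rf (nat_lit 127) (nat_lit 583706118939841765935136)) (.cons (.br (nat_lit 7) (nat_lit 1) (.cons (.rf (nat_lit 125) (nat_lit 583706118939841765935136)) (.cons (.rf (nat_lit 127) (nat_lit 583706118939841765935136)) (.cons (.br (nat_lit 8) (nat_lit 1) (.cons (.rf (nat_lit 127) (nat_lit 583706118938776614045728)) (.cons (.rf (nat_lit 128) (nat_lit 677582165103132179601393696)) (.cons (.rf (nat_lit 128) (nat_lit 640105464695078675185502240)) .nil)))) .nil)))) .nil)))) .nil)))) (.cons (.br (nat_lit 7) (nat_lit 1) (.cons (.rf (nat_lit 134) (nat_lit 583706118939841765935136)) (.cons (.rf (nat_lit 139) (nat_lit 583706118939841765935136)) (.cons (.rf (nat_lit 139) (nat_lit 547072038130959203272736)) (.cons (.br (nat_lit 7) (nat_lit 1) (.cons (.rf (nat_lit 134) (nat_lit 583706118939841765935136))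 (.cons (.rf (nat_lit 139) (nat_lit 583706118939841765935136)) (.cons (.rf (nat_lit 139) (nat_lit 547072038130959203272736)) (.cons (.br (nat_lit 8) (nat_lit 1) (.cons (.rf (nat_lit 139) (nat_lit 583706118938776614045728)) (.cons (.rf (nat_lit 139) (nat_lit 547072038129894051383328)) (.cons (.rf (nat_lit 141) (nat_lit 677582165103132179601393696)) (.cons (.rf (nat_lit 141) (nat_lit 640105464695078675185502240)) .nil))))) .nil))))) .nil))))) .nil))))) .nil))))) .nil)) .nil)) .nil)) .nil)) .nil)) .nil)),
 (.br (nat_lit 5) (nat_lit 1) (.cons (.br (nat_lit 6) (nat_lit 0) (.cons (.br (nat_lit 6) (nat_lit 0) (.cons (.br (nat_lit 7) (nat_lit 1) (.cons (.br (nat_lit 8) (nat_lit 1) (.cons (.br (nat_lit 7) (nat_lit 0) (.cons (.rf (nat_lit 43) (nat_lit 325702574508064)) (.cons (.rf (nat_lit 106) (nat_lit 8622112)) (.cons (.kr (nat_lit 72057594037927936) (nat_lit 18446744073709551616) (nat_lit 7) (nat_lit 0)) (.cons (.br (nat_lit 8) (nat_lit 0) (.cons (.rf (nat_lit 43) (nat_lit 324637422618656)) (.cons (.rf (nat_lit 106) (nat_lit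 7606304)) (.cons (.ev (nat_lit 18519084242252660736) (nat_lit 1)) .nil)))) .nil))))) .nil)) .nil)) .nil)) .nil)) (.cons (.br (nat_lit 6) (nat_lit 1) (.cons (.rf (nat_lit 61) (nat_lit 247132686368)) (.cons (.br (nat_lit 6) (nat_lit 1) (.cons (.rf (nat_lit 61) (nat_lit 281492424736)) (.cons (.br (nat_lit 4) (nat_lit 0) (.cons (.br (nat_lit 0) (nat_lit 0) (.cons (.rf (nat_lit 62) (nat_lit 306284576)) (.cons (.br (nat_lit 9) (nat_lit 0) (.cons (.br (nat_lit 9) (nat_lit 0) (.cons (.br (nat_lit 10) (nat_lit 1) (.cons (.br (nat_lit 10) (nat_lit 1) (.cons (.br (nat_lit 12) (nat_lit 0) (.cons (.br (nat_lit 11) (nat_lit 1) (.cons (.br (nat_lit 12) (nat_lit 1) (.cons (.rf (nat_lit 79) (nat_lit 493858305440582043680)) (.cons (.rf (nat_lit 79) (nat_lit 493858304375430154272)) (.cons (.ev (nat_lit 158767023686536117767551189761) (nat_lit 2)) (.cons (.br (nat_lit 13) (nat_lit 1) (.cons (.rf (nat_lit 79) (nat_lit 458117738797769787424)) (.cons (.rf (nat_lit 79) (nat_lit 458117737732617898016)) (.cons (.br (nat_lit 14) (nat_lit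 1) (.cons (.rf (nat_lit 83) (nat_lit 17022140995484340291616)) (.cons (.rf (nat_lit 83) (nat_lit 17022140994419188402208)) (.cons (.br (nat_lit 7) (nat_lit 1) (.cons (.rf (nat_lit 85) (nat_lit 583706118939841765935136)) (.cons (.rf (nat_lit 87) (nat_lit 583706118939841765935136)) (.cons (.br (nat_lit 7) (nat_lit 1) (.cons (.rf (nat_lit 85) (nat_lit 583706118939841765935136)) (.cons (.rf (nat_lit 87) (nat_lit 583706118939841765935136)) (.cons (.br (nat_lit 8) (nat_lit 1) (.cons (.rf (nat_lit 87) (nat_lit 583706118938776614045728)) (.cons (.rf (nat_lit 88) (nat_lit 677582165103132179601393696)) (.cons (.rf (nat_lit 88) (nat_lit 640105464695078675185502240)) .nil)))) .nil)))) .nil)))) .nil)))) (.cons (.br (nat_lit 7) (nat_lit 1) (.cons (.rf (nat_lit 96) (nat_lit 583706118939841765935136)) (.cons (.rf (nat_lit 103) (nat_lit 583706118939841765935136)) (.cons (.rf (nat_lit 103) (nat_lit 547072038130959203272736)) (.cons (.br (nat_lit 7) (nat_lit 1) (.cons (.rf (nat_lit 96) (nat_lit 583706118939841765935136)) (.cons (.rf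 (nat_lit 103) (nat_lit 583706118939841765935136)) (.cons (.rf (nat_lit 103) (nat_lit 547072038130959203272736)) (.cons (.br (nat_lit 8) (nat_lit 1) (.cons (.rf (nat_lit 103) (nat_lit 583706118938776614045728)) (.cons (.rf (nat_lit 103) (nat_lit 547072038129894051383328)) (.cons (.rf (nat_lit 105) (nat_lit 677582165103132179601393696)) (.cons (.rf (nat_lit 105) (nat_lit 640105464695078675185502240)) .nil))))) .nil))))) .nil))))) .nil))))) .nil))))) .nil)) .nil)) .nil)) .nil)) .nil)) .nil)) .nil))) (.cons (.rf (nat_lit 107) (nat_lit 306284576)) (.cons (.br (nat_lit 0) (nat_lit 0) (.cons (.rf (nat_lit 142) (nat_lit 325702574508064)) (.cons (.br (nat_lit 0) (nat_lit 0) (.cons (.rf (nat_lit 142) (nat_lit 325702574508064)) (.cons (.rf (nat_lit 0) (nat_lit 4565024)) .nil))) .nil))) .nil)))) .nil))) .nil))) .nil))),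
 (.br (nat_lit 14) (nat_lit 1) (.cons (.br (nat_lit 15) (nat_lit 1) (.cons (.ev (nat_lit 344285648160819698240553901200358048256) (nat_lit 2)) .nil)) .nil)),
 (.br (nat_lit 13) (nat_lit 1) (.cons (.zr (nat_lit 79538856449905297291460281346) (nat_lit 20282409603651814821726995349504) (nat_lit 8) (nat_lit 1)) (.cons (.br (nat_lit 14) (nat_lit 1) (.cons (.ev (nat_lit 10385070945377392728020728682774791) (nat_lit 3)) (.cons (.ev (nat_lit 10506288179532009589153971512279299) (nat_lit 3)) (.cons (.br (nat_lit 15) (nat_lit 1) (.cons (.rf (nat_lit 144) (nat_lit 21174442659472879504164896)) (.cons (.br (nat_lit 15) (nat_lit 1) (.cons (.rf (nat_lit 144) (nat_lit 21174442659472879504164896)) .nil)) .nil))) .nil)))) .nil))),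
 (.br (nat_lit 12) (nat_lit 1) (.cons (.kr (nat_lit 309485009821345068724781056) (nat_lit 79228162514264337593543950336) (nat_lit 11) (nat_lit 0)) (.cons (.ev (nat_lit 79538856468352323939641327616) (nat_lit 1)) .nil))),
 (.br (nat_lit 11) (nat_lit 1) (.cons (.rf (nat_lit 146) (nat_lit 17022140995484340291616)) (.cons (.rf (nat_lit 146) (nat_lit 15878442862914348091424)) .nil))),
 (.br (nat_lit 11) (nat_lit 1) (.cons (.rf (nat_lit 147) (nat_lit 17022140995484340291616)) (.cons (.br (nat_lit 13) (nat_lit 1) (.cons (.br (nat_lit 12) (nat_lit 1) (.cons (.ev (nat_lit 5212579269347423565595720953102336) (nat_lit 1)) .nil)) (.cons (.kr (nat_lit 20282409603651670423947251286016) (nat_lit 5192296858534827628530496329220096) (nat_lit 13) (nat_lit 0)) .nil))) .nil))),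
 (.br (nat_lit 6) (nat_lit 1) (.cons (.ev (nat_lit 4840444309549295346123011) (nat_lit 3)) (.cons (.br (nat_lit 11) (nat_lit 1) (.cons (.ev (nat_lit 618974760528539836703834881) (nat_lit 2)) (.cons (.br (nat_lit 12) (nat_lit 1) (.cons (.rf (nat_lit 49) (nat_lit 459933947202)) (.cons (.br (nat_lit 12) (nat_lit 1) (.cons (.rf (nat_lit 49) (nat_lit 459933947202)) (.cons (.br (nat_lit 13) (nat_lit 1) (.cons (.rf (nat_lit 145) (nat_lit 583706118939841765935136)) (.cons (.rf (nat_lit 145) (nat_lit 547107778697602015528992)) (.cons (.br (nat_lit 13) (nat_lit 1) (.cons (.rf (nat_lit 145) (nat_lit 583706118939841765935136)) (.cons (.rf (nat_lit 145) (nat_lit 547107778697602015528992)) (.cons (.br (nat_lit 14) (nat_lit 1) (.cons (.rf (nat_lit 147) (nat_lit 20678166659641484973154)) (.cons (.rf (nat_lit 148) (nat_lit 20678166659641484973154)) (.cons (.rf (nat_lit 148) (nat_lit 19534468527071492772962)) .nil)))) .nil)))) .nil)))) .nil))) .nil))) .nil))) .nil))),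
 (.br (nat_lit 14) (nat_lit 1) (.cons (.br (nat_lit 15) (nat_lit 1) (.cons (.ev (nat_lit 5337681171195195414441799649987789059) (nat_lit 3)) (.cons (.rf (nat_lit 80) (nat_lit 631038692145108290)) .nil))) .nil)),
 (.br (nat_lit 13) (nat_lit 1) (.cons (.kr (nat_lit 79537647542532427835489911040) (nat_lit 20282410817299856521450366238720) (nat_lit 1) (nat_lit 0)) .nil)),
 (.br (nat_lit 13) (nat_lit 1) (.cons (.rf (nat_lit 151) (nat_lit 583706118939841765935136)) (.cons (.rf (nat_lit 151) (nat_lit 547107778697602015528992)) .nil))),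
 (.br (nat_lit 12) (nat_lit 1) (.cons (.br (nat_lit 13) (nat_lit 1) (.cons (.ev (nat_lit 81448415233018614204080442441987) (nat_lit 3)) (.cons (.br (nat_lit 14) (nat_lit 1) (.cons (.rf (nat_lit 150) (nat_lit 583706118939841765935136)) (.cons (.br (nat_lit 14) (nat_lit 1) (.cons (.rf (nat_lit 150) (nat_lit 583706118939841765935136)) (.cons (.rf (nat_lit 152) (nat_lit 661701333108527484505153)) .nil))) .nil))) .nil))) .nil)),
 (.br (nat_lit 15) (nat_lit 1) (.cons (.ev (nat_lit 20769504973017683450606277846499591) (nat_lit 3)) (.cons (.br (nat_lit 16) (nat_lit 1) (.cons (.ev (nat_lit 20850318931886569080751949082657031) (nat_lit 3)) (.cons (.ev (nat_lit 1366446379667514909957426107391743754499) (nat_lit 3)) .nil))) .nil))),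
 (.br (nat_lit 13) (nat_lit 1) (.cons (.ev (nat_lit 41040193022833236422751112397059) (nat_lit 3)) (.cons (.br (nat_lit 15) (nat_lit 1) (.cons (.ev (nat_lit 20769504973017683450606277846499591) (nat_lit 3)) (.cons (.rf (nat_lit 154) (nat_lit 19926519232773908561233952)) (.cons (.br (nat_lit 15) (nat_lit 1) (.cons (.ev (nat_lit 20769504973017683450606277846499591) (nat_lit 3)) (.cons (.rf (nat_lit 154) (nat_lit 19926519232773908561233952)) .nil))) .nil)))) .nil))),
 (.br (nat_lit 15) (nat_lit 1) (.cons (.ev (nat_lit 1361150236871809385776325001135939256579) (nat_lit 3)) (.cons (.zr (nat_lit 2668840585289319252704467321522094851) (nat_lit 40881731862101283482827545903104) (nat_lit 8) (nat_lit 1)) .nil))),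
 (.br (nat_lit 14) (nat_lit 1) (.cons (.rf (nat_lit 156) (nat_lit 677582165103132179601393696)) (.cons (.rf (nat_lit 156) (nat_lit 640105464695078675185502240)) .nil))),
 (.br (nat_lit 14) (nat_lit 1) (.cons (.rf (nat_lit 157) (nat_lit 677582165103132179601393696)) (.cons (.br (nat_lit 16) (nat_lit 1) (.cons (.br (nat_lit 15) (nat_lit 1) (.cons (.ev (nat_lit 1334461095767324492201126849518043651) (nat_lit 2)) .nil)) (.cons (.ev (nat_lit 1361150236871809385776325001135939256579) (nat_lit 3)) .nil))) .nil))),
 (.br (nat_lit 11) (nat_lit 1) (.cons (.br (nat_lit 12) (nat_lit 1) (.cons (.ev (nat_lit 79537647524085964141557186816) (nat_lit 1)) (.cons (.rf (nat_lit 66) (nat_lit 519473343110616290)) .nil))) .nil)),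
 (.br (nat_lit 13) (nat_lit 1) (.cons (.kr (nat_lit 79537647542532427835489911040) (nat_lit 20282410817299856521450366238720) (nat_lit 1) (nat_lit 0)) .nil)),
 (.br (nat_lit 13) (nat_lit 1) (.cons (.rf (nat_lit 160) (nat_lit 583706118939841765935136)) (.cons (.rf (nat_lit 160) (nat_lit 547107778697602015528992)) .nil))),
 (.br (nat_lit 13) (nat_lit 1) (.cons (.br (nat_lit 15) (nat_lit 1) (.cons (.ev (nat_lit 2658496714845368818706539139561423619) (nat_lit 2)) (.cons (.rf (nat_lit 63) (nat_lit 631046388719162690)) .nil))) .nil)),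
 (.br (nat_lit 13) (nat_lit 1) (.cons (.kr (nat_lit 79537647542532427835489911040) (nat_lit 20282410817299856521450366238720) (nat_lit 1) (nat_lit 0)) .nil)),
 (.br (nat_lit 13) (nat_lit 1) (.cons (.rf (nat_lit 163) (nat_lit 583706118939841765935136)) (.cons (.rf (nat_lit 163) (nat_lit 547107778697602015528992)) .nil))),
 (.br (nat_lit 14) (nat_lit 1) (.cons (.ev (nat_lit 10384752792369444314276016450175745) (nat_lit 2)) (.cons (.br (nat_lit 13) (nat_lit 1) (.cons (.br (nat_lit 15) (nat_lit 1) (.cons (.ev (nat_lit 1334420371872822140688629952166297857) (nat_lit 1)) (.cons (.rf (nat_lit 69) (nat_lit 631046388719162690)) .nil))) (.cons (.br (nat_lit 16) (nat_lit 1) (.cons (.ev (nat_lit 340287559217796998291003419407385886976) (nat_lit 1)) (.cons (.rf (nat_lit 70) (nat_lit 631046388719162690)) .nil))) (.cons (.br (nat_lit 15) (nat_lit 1) (.cons (.br (nat_lit 15) (nat_lit 1) (.cons (.zr (nat_lit 2658456309722839693789574040869929735) (nat_lit 10425158536281699771986750726340608) (nat_lit 8) (nat_lit 0)) .nil)) (.cons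 (.br (nat_lit 15) (nat_lit 1) (.cons (.zr (nat_lit 2658456309722839693789574040869929735) (nat_lit 10425158536281699771986750726340608) (nat_lit 8) (nat_lit 0)) .nil)) .nil))) .nil)))) .nil))),
 (.br (nat_lit 16) (nat_lit 1) (.cons (.ev (nat_lit 341611615278671844178739421367647666177) (nat_lit 1)) .nil)),
 (.br (nat_lit 13) (nat_lit 1) (.cons (.rf (nat_lit 165) (nat_lit 583706118939841765935136)) (.cons (.br (nat_lit 15) (nat_lit 1) (.cons (.br (nat_lit 14) (nat_lit 1) (.cons (.ev (nat_lit 2689650338780610646731232315881685253) (nat_lit 3)) (.cons (.rf (nat_lit 73) (nat_lit 596143491607041346)) .nil))) (.cons (.ev (nat_lit 2658496556391461641672975823723954945) (nat_lit 2)) (.cons (.br (nat_lit 14) (nat_lit 1) (.cons (.rf (nat_lit 166) (nat_lit 677582165103132179601393696)) (.cons (.br (nat_lit 14) (nat_lit 1) (.cons (.rf (nat_lit 166) (nat_lit 677582165103132179601393696)) .nil)) .nil))) .nil)))) .nil)))]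

theorem c4 : chkAll C T R L4 (nat_lit 140) = true := by decide +kernel

theorem l4 : (nat_lit 140) + L4.length = (nat_lit 168) := by decide +kernel

/-- part of the certificates -/
def L5 : List Prf := [(.br (nat_lit 16) (nat_lit 1) (.cons (.ev (nat_lit 683243959022740230634955885144174625031) (nat_lit 3)) (.cons (.ev (nat_lit 680564774565152463999648139882537157379) (nat_lit 2)) .nil))),
 (.br (nat_lit 14) (nat_lit 1) (.cons (.rf (nat_lit 168) (nat_lit 677582165103132179601393696)) (.cons (.rf (nat_lit 168) (nat_lit 640105464695078675185502240)) .nil))),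
 (.br (nat_lit 14) (nat_lit 1) (.cons (.rf (nat_lit 169) (nat_lit 677582165103132179601393696)) (.cons (.br (nat_lit 16) (nat_lit 1) (.cons (.br (nat_lit 15) (nat_lit 1) (.cons (.ev (nat_lit 1334420371872822140688629952166297857) (nat_lit 1)) .nil)) (.cons (.ev (nat_lit 680564774565152463999648139882537157379) (nat_lit 2)) .nil))) .nil))),
 (.br (nat_lit 12) (nat_lit 1) (.cons (.zr (nat_lit 618970019642692336506372867) (nat_lit 158456329769413959745955430400) (nat_lit 8) (nat_lit 1)) (.cons (.br (nat_lit 6) (nat_lit 1) (.cons (.br (nat_lit 13) (nat_lit 1) (.cons (.ev (nat_lit 20361948460101575722342501384448) (nat_lit 1)) (.cons (.br (nat_lit 14) (nat_lit 1) (.cons (.rf (nat_lit 159) (nat_lit 17813297083462027296)) (.cons (.br (nat_lit 14) (nat_lit 1) (.cons (.rf (nat_lit 159) (nat_lit 17813297083462027296)) (.cons (.rf (nat_lit 161) (nat_lit 661701333108527484505153)) .nil))) .nil))) .nil))) (.cons (.br (nat_lit 14) (nat_lit 1) (.cons (.ev (nat_lit 10384594338462267568943076764418819) (nat_lit 2)) (.cons (.br (nat_lit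 13) (nat_lit 1) (.cons (.rf (nat_lit 162) (nat_lit 583706118939841765935136)) (.cons (.br (nat_lit 13) (nat_lit 1) (.cons (.rf (nat_lit 162) (nat_lit 583706118939841765935136)) (.cons (.rf (nat_lit 164) (nat_lit 661701333108527484505153)) .nil))) .nil))) .nil))) (.cons (.br (nat_lit 13) (nat_lit 1) (.cons (.rf (nat_lit 165) (nat_lit 583706118939841765935136)) (.cons (.rf (nat_lit 167) (nat_lit 583706118939841765935136)) (.cons (.br (nat_lit 13) (nat_lit 1) (.cons (.rf (nat_lit 165) (nat_lit 583706118939841765935136)) (.cons (.rf (nat_lit 167) (nat_lit 583706118939841765935136)) (.cons (.br (nat_lit 14) (nat_lit 1) (.cons (.rf (nat_lit 169) (nat_lit 677582165103132179601393696)) (.cons (.rf (nat_lit 170) (nat_lit 677582165103132179601393696)) (.cons (.rf (nat_lit 170) (nat_lit 640105464695078675185502240)) .nil)))) .nil)))) .nil)))) .nil)))) .nil))),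
 (.br (nat_lit 10) (nat_lit 1) (.cons (.br (nat_lit 10) (nat_lit 1) .nil) .nil)),
 (.br (nat_lit 12) (nat_lit 1) (.cons (.br (nat_lit 15) (nat_lit 1) (.cons (.zr (nat_lit 5316911984380021382539837774437157639) (nat_lit 40881731862101572276188010774528) (nat_lit 24) (nat_lit 1)) (.cons (.rf (nat_lit 172) (nat_lit 631047566517277794)) .nil))) .nil)),
 (.br (nat_lit 15) (nat_lit 1) (.cons (.ev (nat_lit 10384594338462267568943076764418819) (nat_lit 2)) (.cons (.ev (nat_lit 10425158538699551122422695821705985) (nat_lit 2)) (.cons (.zr (nat_lit 2658455992188801765450306457067062019) (nat_lit 10384752173399424671020738613870592) (nat_lit 8) (nat_lit 1)) .nil)))),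
 (.br (nat_lit 15) (nat_lit 1) (.cons (.ev (nat_lit 10384594338462267568943076764418819) (nat_lit 2)) (.cons (.ev (nat_lit 10425158538699551122422695821705985) (nat_lit 2)) (.cons (.rf (nat_lit 174) (nat_lit 677582165103132179601393696)) (.cons (.rf (nat_lit 174) (nat_lit 640105464695078675185502240)) .nil))))),
 (.br (nat_lit 15) (nat_lit 1) (.cons (.ev (nat_lit 1329248357733380696846012272426942720) (nat_lit 1)) .nil)),
 (.br (nat_lit 12) (nat_lit 1) (.cons (.ev (nat_lit 41041430962872808907502323499271) (nat_lit 3)) (.cons (.br (nat_lit 14) (nat_lit 1) (.cons (.br (nat_lit 15) (nat_lit 1) (.cons (.ev (nat_lit 2658496714845368818706539139561423619) (nat_lit 2)) (.cons (.rf (nat_lit 98) (nat_lit 629842423562245442)) .nil))) (.cons (.br (nat_lit 16) (nat_lit 1) (.cons (.ev (nat_lit 340287579500516086952566964542406394113) (nat_lit 1)) (.cons (.rf (nat_lit 89) (nat_lit 560036629338002754)) .nil))) (.cons (.br (nat_lit 15) (nat_lit 1) (.cons (.rf (nat_lit 176) (nat_lit 21174442659472879504164896)) (.cons (.br (nat_lit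 15) (nat_lit 1) (.cons (.rf (nat_lit 176) (nat_lit 21174442659472879504164896)) .nil)) .nil))) .nil)))) .nil))),
 (.br (nat_lit 15) (nat_lit 1) (.cons (.ev (nat_lit 1363798308270900087906448039015052607751) (nat_lit 3)) (.cons (.zr (nat_lit 2668840587143811459992747724691737351) (nat_lit 81288094744376385011845378867200) (nat_lit 24) (nat_lit 1)) .nil))),
 (.br (nat_lit 14) (nat_lit 1) (.cons (.rf (nat_lit 178) (nat_lit 677582165103132179601393696)) (.cons (.rf (nat_lit 178) (nat_lit 640105464695078675185502240)) .nil))),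
 (.br (nat_lit 14) (nat_lit 1) (.cons (.rf (nat_lit 179) (nat_lit 677582165103132179601393696)) (.cons (.ev (nat_lit 10384752792369444314276016450175745) (nat_lit 2)) .nil))),
 (.br (nat_lit 6) (nat_lit 1) (.cons (.rf (nat_lit 171) (nat_lit 493858305440582043680)) (.cons (.br (nat_lit 13) (nat_lit 1) (.cons (.rf (nat_lit 171) (nat_lit 235306466981803567367)) (.cons (.br (nat_lit 14) (nat_lit 1) (.cons (.zr (nat_lit 20769187436561902966578187021190401) (nat_lit 40564819207303557588037501190144) (nat_lit 8) (nat_lit 1)) (.cons (.br (nat_lit 12) (nat_lit 1) (.cons (.rf (nat_lit 173) (nat_lit 583706118939841765935136)) (.cons (.br (nat_lit 12) (nat_lit 1) (.cons (.rf (nat_lit 173) (nat_lit 583706118939841765935136)) (.cons (.rf (nat_lit 175) (nat_lit 677582165103132179601393696)) .nil))) .nil))) .nil))) (.cons (.br (nat_lit 12) (nat_lit 1) (.cons (.rf (nat_lit 177) (nat_lit 583706118939841765935136)) (.cons (.rf (nat_lit 177) (nat_lit 546849226859143237052679)) (.cons (.br (nat_lit 12) (nat_lit 1) (.cons (.rf (nat_lit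 177) (nat_lit 583706118939841765935136)) (.cons (.rf (nat_lit 177) (nat_lit 546849226859143237052679)) (.cons (.br (nat_lit 14) (nat_lit 1) (.cons (.rf (nat_lit 179) (nat_lit 677582165103132179601393696)) (.cons (.rf (nat_lit 180) (nat_lit 677582165103132179601393696)) (.cons (.rf (nat_lit 180) (nat_lit 640105464695078675185502240)) .nil)))) .nil)))) .nil)))) .nil)))) .nil))),
 (.br (nat_lit 16) (nat_lit 1) (.cons (.ev (nat_lit 2041704626843861327547689578216611119363) (nat_lit 3)) .nil)),
 (.br (nat_lit 11) (nat_lit 1) (.cons (.br (nat_lit 14) (nat_lit 1) (.cons (.kr (nat_lit 5192376396182370160958331819131136) (nat_lit 1329248278195733172760328510646583296) (nat_lit 1) (nat_lit 0)) .nil)) .nil)),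
 (.br (nat_lit 11) (nat_lit 1) (.cons (.rf (nat_lit 183) (nat_lit 583706118939841765935136)) (.cons (.br (nat_lit 11) (nat_lit 1) (.cons (.rf (nat_lit 183) (nat_lit 583706118939841765935136)) .nil)) .nil))),
 (.br (nat_lit 15) (nat_lit 1) (.cons (.ev (nat_lit 2658455992191224358119496204666667779) (nat_lit 2)) (.cons (.ev (nat_lit 2658456150645131534864829144352424705) (nat_lit 2)) (.cons (.rf (nat_lit 175) (nat_lit 636555425691581419396106272)) .nil)))),
 (.br (nat_lit 13) (nat_lit 1) (.cons (.rf (nat_lit 185) (nat_lit 19926519232773908561233952)) (.cons (.br (nat_lit 16) (nat_lit 1) (.cons (.zr (nat_lit 680575118435596419174458732057899173121) (nat_lit 40564819207303557588037501190144) (nat_lit 8) (nat_lit 1)) (.cons (.ev (nat_lit 350490848394449048151327129298342468649217) (nat_lit 3)) .nil))) .nil))),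
 (.br (nat_lit 12) (nat_lit 1) (.cons (.rf (nat_lit 171) (nat_lit 235306466981803567367)) (.cons (.ev (nat_lit 79229376180897461740578603008) (nat_lit 1)) (.cons (.br (nat_lit 14) (nat_lit 1) (.cons (.br (nat_lit 13) (nat_lit 1) (.cons (.kr (nat_lit 309485009821626543701491713) (nat_lit 20282409603651742481541305991168) (nat_lit 0) (nat_lit 1)) (.cons (.ev (nat_lit 20361948460101575722342501384448) (nat_lit 1)) (.cons (.br (nat_lit 15) (nat_lit 1) (.cons (.rf (nat_lit 182) (nat_lit 677582165103132179601393696)) (.cons (.br (nat_lit 15) (nat_lit 1) (.cons (.rf (nat_lit 182) (nat_lit 677582165103132179601393696)) .nil)) .nil))) .nil)))) (.cons (.br (nat_lit 15) (nat_lit 1) (.cons (.ev (nat_lit 2658455992191224358119496204666667779) (nat_lit 2)) (.cons (.br (nat_lit 16) (nat_lit 1) (.cons (.ev (nat_lit 685912799766481039212478788720767533317) (nat_lit 3)) (.cons (.rf (nat_lit 99) (nat_lit 629842423562245442)) .nil))) (.cons (.rf (nat_lit 184) (nat_lit 661701333108527484505153)) .nil)))) (.cons (.br (nat_lit 13) (nat_lit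 1) (.cons (.rf (nat_lit 185) (nat_lit 19926519232773908561233952)) (.cons (.ev (nat_lit 680575118754370814993938784147632161027) (nat_lit 3)) (.cons (.br (nat_lit 13) (nat_lit 1) (.cons (.rf (nat_lit 185) (nat_lit 19926519232773908561233952)) (.cons (.ev (nat_lit 680575118754370814993938784147632161027) (nat_lit 3)) .nil))) .nil)))) (.cons (.br (nat_lit 13) (nat_lit 1) (.cons (.rf (nat_lit 185) (nat_lit 19926519232773908561233952)) (.cons (.rf (nat_lit 186) (nat_lit 677582165103132179601393696)) (.cons (.br (nat_lit 13) (nat_lit 1) (.cons (.rf (nat_lit 185) (nat_lit 19926519232773908561233952)) (.cons (.rf (nat_lit 186) (nat_lit 677582165103132179601393696)) .nil))) .nil)))) .nil))))) .nil)))),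
 (.br (nat_lit 13) (nat_lit 1) (.cons (.kr (nat_lit 309485009821626543701491713) (nat_lit 20282409603651742481541305991168) (nat_lit 0) (nat_lit 1)) (.cons (.rf (nat_lit 187) (nat_lit 548029818479860648356103)) (.cons (.rf (nat_lit 187) (nat_lit 549210410100578059659527)) .nil)))),
 (.br (nat_lit 13) (nat_lit 1) (.cons (.rf (nat_lit 187) (nat_lit 548029818479860648356103)) (.cons (.rf (nat_lit 187) (nat_lit 585808750342817810065671)) (.cons (.ev (nat_lit 20361948464842461006875599110145) (nat_lit 1)) .nil)))),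
 (.br (nat_lit 5) (nat_lit 1) (.cons (.rf (nat_lit 149) (nat_lit 407901468851537952)) (.cons (.ev (nat_lit 310698676526245334803873793) (nat_lit 1)) (.cons (.br (nat_lit 11) (nat_lit 1) (.cons (.br (nat_lit 6) (nat_lit 1) (.cons (.ev (nat_lit 621392612312449423549530371) (nat_lit 3)) (.cons (.br (nat_lit 12) (nat_lit 1) (.cons (.rf (nat_lit 153) (nat_lit 493858305440582043680)) (.cons (.br (nat_lit 12) (nat_lit 1) (.cons (.rf (nat_lit 153) (nat_lit 493858305440582043680)) (.cons (.br (nat_lit 13) (nat_lit 1) (.cons (.rf (nat_lit 155) (nat_lit 583706118939841765935136)) (.cons (.rf (nat_lit 155) (nat_lit 547107778697602015528992)) (.cons (.br (nat_lit 13) (nat_lit 1) (.cons (.rf (nat_lit 155) (nat_lit 583706118939841765935136)) (.cons (.rf (nat_lit 155) (nat_lit 547107778697602015528992)) (.cons (.br (nat_lit 14) (nat_lit 1) (.cons (.rf (nat_lit 157) (nat_lit 677582165103132179601393696)) (.cons (.rf (nat_lit 158) (nat_lit 677582165103132179601393696)) (.cons (.rf (nat_lit 158) (nat_lit 640105464695078675185502240))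 .nil)))) .nil)))) .nil)))) .nil))) .nil))) .nil))) (.cons (.rf (nat_lit 149) (nat_lit 110480040933042439)) (.cons (.br (nat_lit 6) (nat_lit 1) (.cons (.rf (nat_lit 171) (nat_lit 493858305440582043680)) (.cons (.rf (nat_lit 181) (nat_lit 493858305440582043680)) (.cons (.br (nat_lit 6) (nat_lit 1) (.cons (.rf (nat_lit 171) (nat_lit 493858305440582043680)) (.cons (.rf (nat_lit 181) (nat_lit 493858305440582043680)) (.cons (.br (nat_lit 12) (nat_lit 1) (.cons (.rf (nat_lit 171) (nat_lit 235306466981803567367)) (.cons (.rf (nat_lit 187) (nat_lit 583706118939841765935136)) (.cons (.rf (nat_lit 187) (nat_lit 547107778697602015528992)) (.cons (.br (nat_lit 12) (nat_lit 1) (.cons (.rf (nat_lit 171) (nat_lit 235306466981803567367)) (.cons (.rf (nat_lit 187) (nat_lit 583706118939841765935136)) (.cons (.rf (nat_lit 187) (nat_lit 547107778697602015528992)) (.cons (.br (nat_lit 13) (nat_lit 1) (.cons (.rf (nat_lit 188) (nat_lit 677582165103132179601393696)) (.cons (.rf (nat_lit 188) (nat_lit 677545566762889939850987552)) (.cons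 (.rf (nat_lit 189) (nat_lit 677582165103132179601393696)) (.cons (.rf (nat_lit 189) (nat_lit 640105464695078675185502240)) .nil))))) .nil))))) .nil))))) .nil)))) .nil)))) .nil)))) .nil)))),
 (.br (nat_lit 10) (nat_lit 1) (.cons (.br (nat_lit 10) (nat_lit 1) .nil) .nil)),
 (.br (nat_lit 9) (nat_lit 1) (.cons (.br (nat_lit 9) (nat_lit 1) .nil) .nil)),
 (.br (nat_lit 15) (nat_lit 1) (.cons (.br (nat_lit 16) (nat_lit 1) (.cons (.zr (nat_lit 2668881308562433733006255788948589313) (nat_lit 1361129467683753858594312787024215539712) (nat_lit 24) (nat_lit 1)) .nil)) .nil)),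
 (.br (nat_lit 13) (nat_lit 1) (.cons (.ev (nat_lit 20361948464842461287251080904705) (nat_lit 1)) (.cons (.br (nat_lit 14) (nat_lit 1) (.cons (.br (nat_lit 15) (nat_lit 1) (.cons (.ev (nat_lit 2668962596659595960959002196952088833) (nat_lit 3)) (.cons (.rf (nat_lit 191) (nat_lit 631047566517277794)) .nil))) (.cons (.br (nat_lit 16) (nat_lit 1) (.cons (.ev (nat_lit 680564774565152463999648139882537157379) (nat_lit 2)) (.cons (.rf (nat_lit 192) (nat_lit 631047566517277794)) .nil))) (.cons (.br (nat_lit 15) (nat_lit 1) (.cons (.rf (nat_lit 193) (nat_lit 677582165103132179601393696)) (.cons (.br (nat_lit 15) (nat_lit 1) (.cons (.rf (nat_lit 193) (nat_lit 677582165103132179601393696)) .nil)) .nil))) .nil)))) .nil)))]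

theorem c5 : chkAll C T R L5 (nat_lit 168) = true := by decide +kernel

theorem l5 : (nat_lit 168) + L5.length = (nat_lit 195) := by decide +kernel

/-- part of the certificates -/
def L6 : List Prf := [(.br (nat_lit 12) (nat_lit 1) (.cons (.br (nat_lit 14) (nat_lit 1) (.cons (.kr (nat_lit 20361947251194202851782741197056) (nat_lit 1334420292644664348718435059724517376) (nat_lit 1) (nat_lit 0)) .nil)) .nil)),
 (.br (nat_lit 12) (nat_lit 1) (.cons (.rf (nat_lit 195) (nat_lit 583706118939841765935136)) (.cons (.br (nat_lit 12) (nat_lit 1) (.cons (.rf (nat_lit 195) (nat_lit 583706118939841765935136)) .nil)) .nil))),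
 (.br (nat_lit 13) (nat_lit 1) (.cons (.ev (nat_lit 20361948464842461287251080904705) (nat_lit 1)) (.cons (.br (nat_lit 15) (nat_lit 1) (.cons (.br (nat_lit 14) (nat_lit 1) (.cons (.ev (nat_lit 2668962755113503137992000363846566151) (nat_lit 3)) (.cons (.rf (nat_lit 191) (nat_lit 631013475207222594)) .nil))) (.cons (.br (nat_lit 16) (nat_lit 1) (.cons (.ev (nat_lit 680564774406698556822615141715642680065) (nat_lit 2)) (.cons (.rf (nat_lit 192) (nat_lit 631013475207222594)) .nil))) (.cons (.rf (nat_lit 196) (nat_lit 661701333108527484505153)) .nil)))) .nil))),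
 (.br (nat_lit 15) (nat_lit 1) (.cons (.ev (nat_lit 1334420292643455441417623193513951233) (nat_lit 1)) (.cons (.ev (nat_lit 1334481298640489545605482763675304451) (nat_lit 2)) .nil))),
 (.br (nat_lit 14) (nat_lit 1) (.cons (.rf (nat_lit 198) (nat_lit 677582165103132179601393696)) (.cons (.rf (nat_lit 198) (nat_lit 640105464695078675185502240)) .nil))),
 (.br (nat_lit 14) (nat_lit 1) (.cons (.rf (nat_lit 199) (nat_lit 677582165103132179601393696)) (.cons (.br (nat_lit 16) (nat_lit 1) (.cons (.br (nat_lit 15) (nat_lit 1) (.cons (.ev (nat_lit 1334420371872822140688629952166297857) (nat_lit 1)) .nil)) (.cons (.ev (nat_lit 680564774406698556822615141715642680065) (nat_lit 2)) .nil))) .nil))),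
 (.br (nat_lit 6) (nat_lit 1) (.cons (.ev (nat_lit 79229371440156292395556733185) (nat_lit 1)) (.cons (.zr (nat_lit 621387871281919395866348293) (nat_lit 4741029964930279800832) (nat_lit 24) (nat_lit 1)) (.cons (.br (nat_lit 12) (nat_lit 1) (.cons (.zr (nat_lit 623805722921148654182206215) (nat_lit 158456329769702192355490136064) (nat_lit 24) (nat_lit 1)) (.cons (.kr (nat_lit 1208925819896104151416833) (nat_lit 79228162514336395187598655488) (nat_lit 0) (nat_lit 1)) (.cons (.br (nat_lit 13) (nat_lit 1) (.cons (.rf (nat_lit 194) (nat_lit 583706118939841765935136)) (.cons (.rf (nat_lit 197) (nat_lit 583706118939841765935136)) (.cons (.br (nat_lit 13) (nat_lit 1) (.cons (.rf (nat_lit 194) (nat_lit 583706118939841765935136)) (.cons (.rf (nat_lit 197) (nat_lit 583706118939841765935136)) (.cons (.br (nat_lit 14) (nat_lit 1) (.cons (.rf (nat_lit 199) (nat_lit 677582165103132179601393696)) (.cons (.rf (nat_lit 200) (nat_lit 677582165103132179601393696)) (.cons (.rf (nat_lit 200) (nat_lit 640105464695078675185502240)) .nil))))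 .nil)))) .nil)))) .nil)))) .nil)))),
 (.br (nat_lit 10) (nat_lit 1) (.cons (.br (nat_lit 10) (nat_lit 1) .nil) .nil)),
 (.br (nat_lit 13) (nat_lit 1) (.cons (.br (nat_lit 15) (nat_lit 1) (.cons (.ev (nat_lit 2658496556391461641673540972666946305) (nat_lit 2)) (.cons (.rf (nat_lit 202) (nat_lit 631047566517277794)) .nil))) .nil)),
 (.br (nat_lit 15) (nat_lit 1) (.cons (.kr (nat_lit 1329227996095609808545049332668170242) (nat_lit 5212658496300993707407225217155072) (nat_lit 0) (nat_lit 1)) .nil)),
 (.br (nat_lit 12) (nat_lit 1) (.cons (.ev (nat_lit 10384752792369444313710867507184385) (nat_lit 2)) (.cons (.br (nat_lit 13) (nat_lit 1) (.cons (.rf (nat_lit 203) (nat_lit 583706118939841765935136)) (.cons (.br (nat_lit 13) (nat_lit 1) (.cons (.rf (nat_lit 203) (nat_lit 583706118939841765935136)) (.cons (.br (nat_lit 15) (nat_lit 1) (.cons (.rf (nat_lit 204) (nat_lit 677582165103132179601393696)) (.cons (.rf (nat_lit 204) (nat_lit 640105464695078675185502240)) .nil))) .nil))) .nil))) .nil))),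
 (.br (nat_lit 10) (nat_lit 1) (.cons (.br (nat_lit 10) (nat_lit 1) .nil) .nil)),
 (.br (nat_lit 13) (nat_lit 1) (.cons (.ev (nat_lit 20809911952452126266809411350561031) (nat_lit 3)) (.cons (.br (nat_lit 15) (nat_lit 1) (.cons (.ev (nat_lit 1334440575362539362096446745423708417) (nat_lit 1)) (.cons (.rf (nat_lit 206) (nat_lit 631047566517277794)) .nil))) .nil))),
 (.br (nat_lit 9) (nat_lit 1) (.cons (.br (nat_lit 9) (nat_lit 1) .nil) .nil)),
 (.br (nat_lit 15) (nat_lit 1) (.cons (.zr (nat_lit 2658455992812607488371452912192326409) (nat_lit 10425316992606728444214231703748608) (nat_lit 24) (nat_lit 1)) .nil)),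
 (.br (nat_lit 12) (nat_lit 1) (.cons (.rf (nat_lit 207) (nat_lit 583706118939841765935136)) (.cons (.br (nat_lit 13) (nat_lit 1) (.cons (.rf (nat_lit 207) (nat_lit 583670343470301841557536)) (.cons (.br (nat_lit 16) (nat_lit 1) (.cons (.ev (nat_lit 1361150359041014594900940446510006403335) (nat_lit 3)) (.cons (.rf (nat_lit 208) (nat_lit 631047566517277794)) .nil))) (.cons (.br (nat_lit 15) (nat_lit 1) (.cons (.rf (nat_lit 209) (nat_lit 677582165103132179601393696)) (.cons (.rf (nat_lit 209) (nat_lit 640105428919609135261124640)) .nil))) .nil)))) .nil))),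
 (.br (nat_lit 7) (nat_lit 1) (.cons (.br (nat_lit 7) (nat_lit 1) .nil) .nil)),
 (.br (nat_lit 12) (nat_lit 1) (.cons (.br (nat_lit 15) (nat_lit 1) (.cons (.ev (nat_lit 344275263725556545206919251875728523776) (nat_lit 2)) .nil)) .nil)),
 (.br (nat_lit 12) (nat_lit 1) (.cons (.rf (nat_lit 210) (nat_lit 583706118939841765935136)) (.cons (.br (nat_lit 15) (nat_lit 1) (.cons (.ev (nat_lit 2689609774585209066455085313683489027) (nat_lit 3)) (.cons (.br (nat_lit 16) (nat_lit 1) (.cons (.ev (nat_lit 680564734000952226715806429887328158465) (nat_lit 2)) (.cons (.rf (nat_lit 211) (nat_lit 631047566517277794)) .nil))) (.cons (.br (nat_lit 13) (nat_lit 1) (.cons (.rf (nat_lit 212) (nat_lit 21174442659472879504164896)) (.cons (.br (nat_lit 13) (nat_lit 1) (.cons (.rf (nat_lit 212) (nat_lit 21174442659472879504164896)) .nil)) .nil))) .nil)))) .nil))),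
 (.br (nat_lit 13) (nat_lit 1) (.cons (.rf (nat_lit 213) (nat_lit 583670343470301841557536)) (.cons (.kr (nat_lit 20282410812577490038576425992192) (nat_lit 79537647524085682662268731392) (nat_lit 10) (nat_lit 0)) .nil))),
 (.br (nat_lit 14) (nat_lit 1) (.cons (.rf (nat_lit 205) (nat_lit 17022140995484340291616)) (.cons (.rf (nat_lit 205) (nat_lit 16986365525944415914016)) (.cons (.br (nat_lit 12) (nat_lit 1) (.cons (.rf (nat_lit 210) (nat_lit 583706118939841765935136)) (.cons (.rf (nat_lit 213) (nat_lit 583706118939841765935136)) (.cons (.br (nat_lit 12) (nat_lit 1) (.cons (.rf (nat_lit 210) (nat_lit 583706118939841765935136)) (.cons (.rf (nat_lit 213) (nat_lit 583706118939841765935136)) (.cons (.br (nat_lit 13) (nat_lit 1) (.cons (.rf (nat_lit 213) (nat_lit 583670343470301841557536)) (.cons (.rf (nat_lit 214) (nat_lit 677582165103132179601393696)) (.cons (.rf (nat_lit 214) (nat_lit 640105464695078675185502240)) .nil)))) .nil)))) .nil)))) .nil)))),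
 (.br (nat_lit 10) (nat_lit 1) (.cons (.br (nat_lit 10) (nat_lit 1) .nil) .nil)),
 (.br (nat_lit 10) (nat_lit 1) (.cons (.br (nat_lit 10) (nat_lit 1) .nil) .nil)),
 (.br (nat_lit 15) (nat_lit 1) (.cons (.ev (nat_lit 2658496714845368818707099890458166019) (nat_lit 2)) (.cons (.rf (nat_lit 217) (nat_lit 631047566517277794)) .nil))),
 (.br (nat_lit 13) (nat_lit 1) (.cons (.ev (nat_lit 10384594338462267568382325867676419) (nat_lit 2)) (.cons (.br (nat_lit 14) (nat_lit 1) (.cons (.ev (nat_lit 20891040352926693374890151258620163) (nat_lit 3)) (.cons (.br (nat_lit 15) (nat_lit 1) (.cons (.ev (nat_lit 5337803340400404539057245024054935815) (nat_lit 3)) (.cons (.rf (nat_lit 216) (nat_lit 631047566517277794)) .nil))) .nil))) (.cons (.br (nat_lit 14) (nat_lit 1) (.cons (.rf (nat_lit 218) (nat_lit 19926519232773908561233952)) (.cons (.rf (nat_lit 218) (nat_lit 18755105722733245756713223)) (.cons (.br (nat_lit 15) (nat_lit 1) (.cons (.br (nat_lit 15) (nat_lit 1) (.cons (.ev (nat_lit 1334440575362544102837616090445578240) (nat_lit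 1)) .nil)) (.cons (.br (nat_lit 15) (nat_lit 1) (.cons (.ev (nat_lit 1334440575362544102837616090445578240) (nat_lit 1)) .nil)) .nil))) .nil)))) .nil)))),
 (.br (nat_lit 15) (nat_lit 1) (.cons (.ev (nat_lit 680564734000952226715806429887328158465) (nat_lit 2)) (.cons (.zr (nat_lit 2668840586529677143628513904918139657) (nat_lit 40723275537073188283571358400512) (nat_lit 40) (nat_lit 1)) .nil))),
 (.br (nat_lit 14) (nat_lit 1) (.cons (.rf (nat_lit 220) (nat_lit 677582165103132179601393696)) (.cons (.rf (nat_lit 220) (nat_lit 640105428919609135261124640)) .nil))),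
 (.br (nat_lit 14) (nat_lit 1) (.cons (.rf (nat_lit 221) (nat_lit 677582165103132179601393696)) (.cons (.ev (nat_lit 10425316992606728155986011659174659) (nat_lit 2)) .nil))),
 (.br (nat_lit 12) (nat_lit 1) (.cons (.rf (nat_lit 219) (nat_lit 583706118939841765935136)) (.cons (.rf (nat_lit 219) (nat_lit 547107778697600975309856)) (.cons (.br (nat_lit 13) (nat_lit 1) (.cons (.rf (nat_lit 219) (nat_lit 583670343470301841557536)) (.cons (.rf (nat_lit 219) (nat_lit 547072003228061050932256)) (.cons (.rf (nat_lit 215) (nat_lit 19116701947928371374343)) (.cons (.br (nat_lit 14) (nat_lit 1) (.cons (.rf (nat_lit 221) (nat_lit 677582165103132179601393696)) (.cons (.rf (nat_lit 222) (nat_lit 677582165103132179601393696)) (.cons (.rf (nat_lit 222) (nat_lit 640105428919609135261124640)) .nil)))) .nil))))) .nil)))),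
 (.br (nat_lit 12) (nat_lit 1) (.cons (.ev (nat_lit 5212658497509937901709437853303040) (nat_lit 1)) .nil)),
 (.br (nat_lit 10) (nat_lit 1) (.cons (.br (nat_lit 10) (nat_lit 1) .nil) .nil)),
 (.br (nat_lit 7) (nat_lit 1) (.cons (.br (nat_lit 7) (nat_lit 1) .nil) .nil)),
 (.br (nat_lit 16) (nat_lit 1) (.cons (.zr (nat_lit 2658456150645126793978979445165656835) (nat_lit 680564733841876931667635066804763623424) (nat_lit 24) (nat_lit 1)) .nil)),
 (.br (nat_lit 9) (nat_lit 1) (.cons (.br (nat_lit 9) (nat_lit 1) .nil) .nil)),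
 (.br (nat_lit 13) (nat_lit 1) (.cons (.br (nat_lit 13) (nat_lit 1) (.cons (.kr (nat_lit 340282366921247948473196233975469703169) (nat_lit 5212579268138479371012037635211264) (nat_lit 0) (nat_lit 1)) .nil)) (.cons (.br (nat_lit 13) (nat_lit 1) (.cons (.kr (nat_lit 340282366921247948473196233975469703169) (nat_lit 5212579268138479371012037635211264) (nat_lit 0) (nat_lit 1)) .nil)) .nil))),
 (.br (nat_lit 13) (nat_lit 1) (.cons (.br (nat_lit 15) (nat_lit 1) (.cons (.ev (nat_lit 680564734000952226715806429887328158465) (nat_lit 2)) (.cons (.br (nat_lit 16) (nat_lit 1) (.cons (.zr (nat_lit 2668881308562433733006255788948589313) (nat_lit 1361129467683753858594312787024215539712) (nat_lit 24) (nat_lit 1)) .nil)) .nil))) (.cons (.br (nat_lit 15) (nat_lit 1) (.cons (.zr (nat_lit 40723275532331941580675662086913) (nat_lit 2668840585286906141877902078048731136) (nat_lit 8) (nat_lit 1)) (.cons (.ev (nat_lit 87113615159756031562496803310696749138176) (nat_lit 1)) .nil))) .nil))),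
 (.br (nat_lit 13) (nat_lit 1) (.cons (.rf (nat_lit 230) (nat_lit 677582165103132179601393696)) (.cons (.br (nat_lit 16) (nat_lit 1) (.cons (.ev (nat_lit 680564734000952226715806429887328158465) (nat_lit 2)) (.cons (.ev (nat_lit 174224582329402928913002072872429035979013) (nat_lit 3)) .nil))) .nil))),
 (.br (nat_lit 12) (nat_lit 1) (.cons (.rf (nat_lit 223) (nat_lit 583706118939841765935136)) (.cons (.br (nat_lit 14) (nat_lit 1) (.cons (.ev (nat_lit 10384594338462267568382325867676419) (nat_lit 2)) (.cons (.ev (nat_lit 1334420371872826881429799297188167680) (nat_lit 1)) (.cons (.br (nat_lit 15) (nat_lit 1) (.cons (.ev (nat_lit 2658455992191224358119496204666667779) (nat_lit 2)) (.cons (.ev (nat_lit 1344805044819263236101702964933100034) (nat_lit 2)) (.cons (.br (nat_lit 13) (nat_lit 1) (.cons (.rf (nat_lit 224) (nat_lit 21174442659472880612543553)) (.cons (.rf (nat_lit 224) (nat_lit 20002152073588638574839905)) .nil))) .nil)))) .nil)))) (.cons (.br (nat_lit 14) (nat_lit 1) (.cons (.ev (nat_lit 10384594338462267568382325867676419)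 (nat_lit 2)) (.cons (.br (nat_lit 15) (nat_lit 1) (.cons (.br (nat_lit 13) (nat_lit 1) (.cons (.ev (nat_lit 2668922032459358677115040402063622403) (nat_lit 3)) (.cons (.rf (nat_lit 225) (nat_lit 631047566517277794)) .nil))) (.cons (.br (nat_lit 16) (nat_lit 1) (.cons (.ev (nat_lit 680564734000952226715806429887328158465) (nat_lit 2)) (.cons (.rf (nat_lit 226) (nat_lit 631047566517277794)) .nil))) (.cons (.br (nat_lit 13) (nat_lit 1) (.cons (.rf (nat_lit 227) (nat_lit 677582165103132179601393696)) (.cons (.br (nat_lit 13) (nat_lit 1) (.cons (.rf (nat_lit 227) (nat_lit 677582165103132179601393696)) .nil)) .nil))) .nil)))) (.cons (.br (nat_lit 16) (nat_lit 1) (.cons (.br (nat_lit 13) (nat_lit 1) (.cons (.ev (nat_lit 680564774406698556822615141715642680065) (nat_lit 2)) (.cons (.rf (nat_lit 228) (nat_lit 631047566517277794)) .nil))) (.cons (.ev (nat_lit 340287559217797003031888703940483612673) (nat_lit 1)) (.cons (.rf (nat_lit 229) (nat_lit 677582165103132179601393696)) .nil)))) (.cons (.br (nat_lit 13) (nat_lit 1)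 (.cons (.rf (nat_lit 230) (nat_lit 677582165103132179601393696)) (.cons (.rf (nat_lit 231) (nat_lit 677582165103132179601393696)) (.cons (.br (nat_lit 13) (nat_lit 1) (.cons (.rf (nat_lit 230) (nat_lit 677582165103132179601393696)) (.cons (.rf (nat_lit 231) (nat_lit 677582165103132179601393696)) .nil))) .nil)))) .nil))))) .nil))))]

theorem c6 : chkAll C T R L6 (nat_lit 195) = true := by decide +kernel

theorem l6 : (nat_lit 195) + L6.length = (nat_lit 233) := by decide +kernel

/-- part of the certificates -/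
def L7 : List Prf := [(.br (nat_lit 13) (nat_lit 1) (.cons (.rf (nat_lit 232) (nat_lit 583670343470301841557536)) (.cons (.rf (nat_lit 232) (nat_lit 547072003228061050932256)) (.cons (.kr (nat_lit 20282410812577490038576425992192) (nat_lit 79537647524085682662268731392) (nat_lit 10) (nat_lit 0)) .nil)))),
 (.br (nat_lit 5) (nat_lit 1) (.cons (.rf (nat_lit 201) (nat_lit 493858305440582043680)) (.cons (.rf (nat_lit 201) (nat_lit 458082835900657666080)) (.cons (.br (nat_lit 6) (nat_lit 1) (.cons (.rf (nat_lit 201) (nat_lit 493858305439541824544)) (.cons (.rf (nat_lit 201) (nat_lit 458082835899617446944)) (.cons (.rf (nat_lit 215) (nat_lit 17022140995484340291616)) (.cons (.br (nat_lit 12) (nat_lit 1) (.cons (.rf (nat_lit 223) (nat_lit 583706118939841765935136)) (.cons (.rf (nat_lit 232) (nat_lit 583706118939841765935136)) (.cons (.rf (nat_lit 232) (nat_lit 547107778697600975309856)) (.cons (.br (nat_lit 12) (nat_lit 1) (.cons (.rf (nat_lit 223) (nat_lit 583706118939841765935136)) (.cons (.rf (nat_lit 232) (nat_lit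 583706118939841765935136)) (.cons (.rf (nat_lit 232) (nat_lit 547107778697600975309856)) (.cons (.br (nat_lit 13) (nat_lit 1) (.cons (.rf (nat_lit 232) (nat_lit 583670343470301841557536)) (.cons (.rf (nat_lit 232) (nat_lit 547072003228061050932256)) (.cons (.rf (nat_lit 233) (nat_lit 677582165103132179601393696)) (.cons (.rf (nat_lit 233) (nat_lit 640105464695078675185502240)) .nil))))) .nil))))) .nil))))) .nil))))) .nil)))),
 (.br (nat_lit 13) (nat_lit 1) (.cons (.br (nat_lit 14) (nat_lit 1) (.cons (.kr (nat_lit 20361947251194202851782741197056) (nat_lit 1334420292644664348718435059724517376) (nat_lit 1) (nat_lit 0)) .nil)) .nil)),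
 (.br (nat_lit 13) (nat_lit 1) (.cons (.rf (nat_lit 235) (nat_lit 583706118939841765935136)) (.cons (.br (nat_lit 13) (nat_lit 1) (.cons (.rf (nat_lit 235) (nat_lit 583706118939841765935136)) .nil)) .nil))),
 (.br (nat_lit 6) (nat_lit 1) (.cons (.ev (nat_lit 20361948464842461287251080904705) (nat_lit 1)) (.cons (.br (nat_lit 14) (nat_lit 1) (.cons (.br (nat_lit 15) (nat_lit 1) (.cons (.ev (nat_lit 2668922190913265854150290368637567233) (nat_lit 3)) (.cons (.rf (nat_lit 191) (nat_lit 631047326805660994)) .nil))) (.cons (.br (nat_lit 16) (nat_lit 1) (.cons (.ev (nat_lit 680564774406698556822615141715642680065) (nat_lit 2)) (.cons (.rf (nat_lit 192) (nat_lit 631047326805660994)) .nil))) (.cons (.rf (nat_lit 236) (nat_lit 661701333108527484505153)) .nil)))) .nil))),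
 (.br (nat_lit 14) (nat_lit 1) (.cons (.ev (nat_lit 5212579268138479298955547387166976) (nat_lit 1)) (.cons (.ev (nat_lit 5212738345860823843362497829601792) (nat_lit 2)) .nil))),
 (.br (nat_lit 13) (nat_lit 1) (.cons (.rf (nat_lit 238) (nat_lit 19926519232773908561233952)) (.cons (.rf (nat_lit 238) (nat_lit 18755372345022236548237344)) .nil))),
 (.br (nat_lit 13) (nat_lit 1) (.cons (.rf (nat_lit 239) (nat_lit 19926519232773908561233952)) (.cons (.br (nat_lit 15) (nat_lit 1) (.cons (.br (nat_lit 14) (nat_lit 1) (.cons (.ev (nat_lit 5212658806999651570735708475818240) (nat_lit 1)) .nil)) (.cons (.kr (nat_lit 1329227995784915872903807060280344576) (nat_lit 340282366920938463463374607431768211456) (nat_lit 15) (nat_lit 0)) .nil))) .nil))),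
 (.br (nat_lit 12) (nat_lit 1) (.cons (.zr (nat_lit 623805722921148654182206215) (nat_lit 158456329769702192355490136064) (nat_lit 24) (nat_lit 1)) (.cons (.ev (nat_lit 20361948464842461006875599110145) (nat_lit 1)) (.cons (.br (nat_lit 13) (nat_lit 1) (.cons (.zr (nat_lit 1240357890924609533282355975) (nat_lit 40564819212044514365062904807424) (nat_lit 24) (nat_lit 1)) (.cons (.kr (nat_lit 20282410812577490038576425992192) (nat_lit 79537647524085682662268731392) (nat_lit 10) (nat_lit 0)) (.cons (.br (nat_lit 6) (nat_lit 1) (.cons (.rf (nat_lit 237) (nat_lit 583706118939841765935136)) (.cons (.rf (nat_lit 237) (nat_lit 547072003228062091151392)) (.cons (.br (nat_lit 6) (nat_lit 1) (.cons (.rf (nat_lit 237) (nat_lit 583706118939841765935136)) (.cons (.rf (nat_lit 237) (nat_lit 547072003228062091151392)) (.cons (.br (nat_lit 14) (nat_lit 1) (.cons (.rf (nat_lit 239) (nat_lit 21174442659472879504164896)) (.cons (.rf (nat_lit 240) (nat_lit 21174442659472879504164896)) (.cons (.rf (nat_lit 240) (nat_lit 20003295771721207491168288))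 .nil)))) .nil)))) .nil)))) .nil)))) .nil)))),
 (.br (nat_lit 13) (nat_lit 1) (.cons (.br (nat_lit 15) (nat_lit 1) (.cons (.ev (nat_lit 2658496714845368818706539139561423619) (nat_lit 2)) (.cons (.rf (nat_lit 202) (nat_lit 631047560067683650)) .nil))) .nil)),
 (.br (nat_lit 13) (nat_lit 1) (.cons (.kr (nat_lit 79537647542532427835489911040) (nat_lit 20282410817299856521450366238720) (nat_lit 1) (nat_lit 0)) .nil)),
 (.br (nat_lit 13) (nat_lit 1) (.cons (.rf (nat_lit 243) (nat_lit 583706118939841765935136)) (.cons (.rf (nat_lit 243) (nat_lit 547107778697602015528992)) .nil))),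
 (.br (nat_lit 6) (nat_lit 1) (.cons (.ev (nat_lit 10384594338462267568943076764418819) (nat_lit 2)) (.cons (.br (nat_lit 13) (nat_lit 1) (.cons (.rf (nat_lit 242) (nat_lit 583706118939841765935136)) (.cons (.br (nat_lit 13) (nat_lit 1) (.cons (.rf (nat_lit 242) (nat_lit 583706118939841765935136)) (.cons (.rf (nat_lit 244) (nat_lit 661701333108527484505153)) .nil))) .nil))) .nil))),
 (.br (nat_lit 13) (nat_lit 1) (.cons (.ev (nat_lit 20810228860266479756344992836092163) (nat_lit 3)) (.cons (.br (nat_lit 15) (nat_lit 1) (.cons (.ev (nat_lit 1334440654591910802108059899110949120) (nat_lit 1)) (.cons (.rf (nat_lit 206) (nat_lit 631047560067683650)) .nil))) .nil))),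
 (.br (nat_lit 15) (nat_lit 1) (.cons (.zr (nat_lit 2658455992810189636732223653876468487) (nat_lit 10425158536281699771986806493413376) (nat_lit 24) (nat_lit 1)) .nil)),
 (.br (nat_lit 6) (nat_lit 1) (.cons (.rf (nat_lit 246) (nat_lit 583706118939841765935136)) (.cons (.br (nat_lit 13) (nat_lit 1) (.cons (.rf (nat_lit 246) (nat_lit 583439496650850974411015)) (.cons (.br (nat_lit 16) (nat_lit 1) (.cons (.ev (nat_lit 1361150359041014594900940446510006403335) (nat_lit 3)) (.cons (.rf (nat_lit 208) (nat_lit 631047560067683650)) .nil))) (.cons (.br (nat_lit 15) (nat_lit 1) (.cons (.rf (nat_lit 247) (nat_lit 677582165103132179601393696)) (.cons (.rf (nat_lit 247) (nat_lit 640105198072789684393978119)) .nil))) .nil)))) .nil))),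
 (.br (nat_lit 12) (nat_lit 1) (.cons (.br (nat_lit 15) (nat_lit 1) (.cons (.ev (nat_lit 344275263726175505818865732989707550976) (nat_lit 2)) .nil)) .nil)),
 (.br (nat_lit 6) (nat_lit 1) (.cons (.rf (nat_lit 248) (nat_lit 583706118939841765935136)) (.cons (.br (nat_lit 15) (nat_lit 1) (.cons (.ev (nat_lit 2689610091493023420521081647472443655) (nat_lit 3)) (.cons (.br (nat_lit 16) (nat_lit 1) (.cons (.ev (nat_lit 680564734000952226715806429887328158465) (nat_lit 2)) (.cons (.rf (nat_lit 211) (nat_lit 631047560067683650)) .nil))) (.cons (.br (nat_lit 13) (nat_lit 1) (.cons (.rf (nat_lit 249) (nat_lit 21174442659472880612543553)) (.cons (.br (nat_lit 13) (nat_lit 1) (.cons (.rf (nat_lit 249) (nat_lit 21174442659472880612543553)) .nil)) .nil))) .nil)))) .nil))),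
 (.br (nat_lit 13) (nat_lit 1) (.cons (.rf (nat_lit 250) (nat_lit 583439496650850974411015)) (.cons (.kr (nat_lit 309485009821626543701491713) (nat_lit 20282409603651742481541305991168) (nat_lit 0) (nat_lit 1)) .nil))),
 (.br (nat_lit 14) (nat_lit 1) (.cons (.rf (nat_lit 245) (nat_lit 17022140995484340291616)) (.cons (.rf (nat_lit 245) (nat_lit 16755518706493548767495)) (.cons (.br (nat_lit 6) (nat_lit 1) (.cons (.rf (nat_lit 248) (nat_lit 583706118939841765935136)) (.cons (.rf (nat_lit 250) (nat_lit 583706118939841765935136)) (.cons (.br (nat_lit 6) (nat_lit 1) (.cons (.rf (nat_lit 248) (nat_lit 583706118939841765935136)) (.cons (.rf (nat_lit 250) (nat_lit 583706118939841765935136)) (.cons (.br (nat_lit 13) (nat_lit 1) (.cons (.rf (nat_lit 250) (nat_lit 583439496650850974411015)) (.cons (.rf (nat_lit 251) (nat_lit 677582165103132179601393696)) (.cons (.rf (nat_lit 251) (nat_lit 640105464695078675185502240)) .nil)))) .nil)))) .nil)))) .nil)))),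
 (.br (nat_lit 15) (nat_lit 1) (.cons (.ev (nat_lit 2658496714845368818707099890458166019) (nat_lit 2)) (.cons (.rf (nat_lit 217) (nat_lit 631047560067683650)) .nil))),
 (.br (nat_lit 13) (nat_lit 1) (.cons (.ev (nat_lit 10384594338462267568382325867676419) (nat_lit 2)) (.cons (.br (nat_lit 14) (nat_lit 1) (.cons (.ev (nat_lit 20891357260741047440886485047574791) (nat_lit 3)) (.cons (.br (nat_lit 15) (nat_lit 1) (.cons (.ev (nat_lit 5337803340400404539057245024054935815) (nat_lit 3)) (.cons (.rf (nat_lit 216) (nat_lit 631047560067683650)) .nil))) .nil))) (.cons (.br (nat_lit 14) (nat_lit 1) (.cons (.rf (nat_lit 253) (nat_lit 19926519232773908561233952)) (.cons (.rf (nat_lit 253) (nat_lit 18755336569552695583640608)) (.cons (.br (nat_lit 15) (nat_lit 1) (.cons (.br (nat_lit 15) (nat_lit 1) (.cons (.ev (nat_lit 1334440654591915542993344432208674817) (nat_lit 1)) .nil)) (.cons (.br (nat_lit 15) (nat_lit 1) (.cons (.ev (nat_lit 1334440654591915542993344432208674817) (nat_lit 1)) .nil)) .nil))) .nil)))) .nil)))),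
 (.br (nat_lit 14) (nat_lit 1) (.cons (.ev (nat_lit 10425158538699551122987844764697345) (nat_lit 2)) (.cons (.rf (nat_lit 217) (nat_lit 631013475207000138)) .nil))),
 (.br (nat_lit 13) (nat_lit 1) (.cons (.br (nat_lit 14) (nat_lit 1) (.cons (.ev (nat_lit 20810228860266479757466494629576963) (nat_lit 3)) (.cons (.br (nat_lit 15) (nat_lit 1) (.cons (.ev (nat_lit 5337803340400404539057245024054935815) (nat_lit 3)) (.cons (.rf (nat_lit 216) (nat_lit 631047326805660994)) .nil))) .nil))) (.cons (.ev (nat_lit 2658456150645131534864263995409433345) (nat_lit 2)) (.cons (.br (nat_lit 15) (nat_lit 1) (.cons (.rf (nat_lit 255) (nat_lit 19926519232773908561233952)) (.cons (.rf (nat_lit 255) (nat_lit 17510726379027553278307591)) (.cons (.br (nat_lit 14) (nat_lit 1) (.cons (.br (nat_lit 14) (nat_lit 1) (.cons (.ev (nat_lit 1334440654591915542993344432208674817) (nat_lit 1)) .nil)) (.cons (.br (nat_lit 14) (nat_lit 1) (.cons (.ev (nat_lit 1334440654591915542993344432208674817) (nat_lit 1)) .nil)) .nil))) .nil)))) .nil)))),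
 (.br (nat_lit 14) (nat_lit 1) (.cons (.br (nat_lit 15) (nat_lit 1) (.cons (.ev (nat_lit 680564734000952226715806429887328158465) (nat_lit 2)) (.cons (.zr (nat_lit 2668840586532094995267743163233997579) (nat_lit 40881731862101860510996568735744) (nat_lit 40) (nat_lit 1)) .nil))) (.cons (.br (nat_lit 15) (nat_lit 1) (.cons (.zr (nat_lit 2668840586532094995267743163233997579) (nat_lit 40881731862101860510996568735744) (nat_lit 40) (nat_lit 1)) (.cons (.ev (nat_lit 174224571904243768830320697930084324999939) (nat_lit 2)) .nil))) .nil))),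
 (.br (nat_lit 6) (nat_lit 1) (.cons (.rf (nat_lit 254) (nat_lit 583706118939841765935136)) (.cons (.rf (nat_lit 256) (nat_lit 583706118939841765935136)) (.cons (.br (nat_lit 13) (nat_lit 1) (.cons (.rf (nat_lit 256) (nat_lit 548252594848778462235680)) (.cons (.rf (nat_lit 254) (nat_lit 546841156408611224004871)) (.cons (.rf (nat_lit 252) (nat_lit 19347548767378198301728)) (.cons (.br (nat_lit 14) (nat_lit 1) (.cons (.rf (nat_lit 257) (nat_lit 677582165103132179601393696)) (.cons (.br (nat_lit 14) (nat_lit 1) (.cons (.rf (nat_lit 257) (nat_lit 677582165103132179601393696)) (.cons (.ev (nat_lit 10425158538699551122987844764697345) (nat_lit 2)) .nil))) (.cons (.br (nat_lit 14) (nat_lit 1) (.cons (.rf (nat_lit 257) (nat_lit 677582165103132179601393696)) (.cons (.ev (nat_lit 10425158538699551122987844764697345) (nat_lit 2)) .nil))) .nil)))) .nil))))) .nil)))),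
 (.br (nat_lit 16) (nat_lit 1) (.cons (.zr (nat_lit 2658455992193637468729325724662893319) (nat_lit 680564734000333256696451409418049814528) (nat_lit 24) (nat_lit 1)) .nil)),
 (.br (nat_lit 9) (nat_lit 1) (.cons (.br (nat_lit 9) (nat_lit 1) (.cons (.kr (nat_lit 1213648186378973796630528) (nat_lit 79228162532783139261291429888) (nat_lit 6) (nat_lit 0)) .nil)) (.cons (.br (nat_lit 9) (nat_lit 1) (.cons (.kr (nat_lit 1213648186378973796630528) (nat_lit 79228162532783139261291429888) (nat_lit 6) (nat_lit 0)) .nil)) .nil))),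
 (.br (nat_lit 14) (nat_lit 1) (.cons (.kr (nat_lit 20361947251194202851782741197056) (nat_lit 1334420292644664348718435059724517376) (nat_lit 1) (nat_lit 0)) .nil)),
 (.br (nat_lit 13) (nat_lit 1) (.cons (.br (nat_lit 15) (nat_lit 1) (.cons (.ev (nat_lit 680564734000952226715806429887328158465) (nat_lit 2)) (.cons (.rf (nat_lit 261) (nat_lit 661701333108527484505153)) .nil))) (.cons (.br (nat_lit 15) (nat_lit 1) (.cons (.zr (nat_lit 40564821625154980640102805537539) (nat_lit 2668840585286906141949959672086659072) (nat_lit 8) (nat_lit 1)) (.cons (.ev (nat_lit 87113615159756031562496803310696749138176) (nat_lit 1)) .nil))) .nil)))]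

theorem c7 : chkAll C T R L7 (nat_lit 233) = true := by decide +kernel

theorem l7 : (nat_lit 233) + L7.length = (nat_lit 263) := by decide +kernel

/-- part of the certificates -/
def L8 : List Prf := [(.br (nat_lit 13) (nat_lit 1) (.cons (.rf (nat_lit 262) (nat_lit 677582165103132179601393696)) (.cons (.br (nat_lit 16) (nat_lit 1) (.cons (.ev (nat_lit 680564734000952226715806429887328158465) (nat_lit 2)) (.cons (.ev (nat_lit 174224582329244475005825616335014444925191) (nat_lit 3)) .nil))) .nil))),
 (.br (nat_lit 6) (nat_lit 1) (.cons (.rf (nat_lit 258) (nat_lit 583706118939841765935136)) (.cons (.br (nat_lit 14) (nat_lit 1) (.cons (.ev (nat_lit 10384594338462267568382325867676419) (nat_lit 2)) (.cons (.ev (nat_lit 1334420371872826881429799297188167680) (nat_lit 1)) (.cons (.br (nat_lit 15) (nat_lit 1) (.cons (.ev (nat_lit 2658456150645131534864263995409433345) (nat_lit 2)) (.cons (.ev (nat_lit 1344804965592309647585203881485861379) (nat_lit 2)) (.cons (.br (nat_lit 13) (nat_lit 1) (.cons (.br (nat_lit 13) (nat_lit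 1) (.cons (.ev (nat_lit 1334440654591915542993344432208674817) (nat_lit 1)) .nil)) (.cons (.br (nat_lit 13) (nat_lit 1) (.cons (.ev (nat_lit 1334440654591915542993344432208674817) (nat_lit 1)) .nil)) .nil))) .nil)))) .nil)))) (.cons (.br (nat_lit 14) (nat_lit 1) (.cons (.ev (nat_lit 10384594338462267568382325867676419) (nat_lit 2)) (.cons (.br (nat_lit 15) (nat_lit 1) (.cons (.br (nat_lit 13) (nat_lit 1) (.cons (.ev (nat_lit 2668921715551544323625504820578091271) (nat_lit 3)) (.cons (.rf (nat_lit 225) (nat_lit 631047560067683650)) .nil))) (.cons (.br (nat_lit 16) (nat_lit 1) (.cons (.ev (nat_lit 680564734000952226715806429887328158465) (nat_lit 2)) (.cons (.rf (nat_lit 226) (nat_lit 631047560067683650)) .nil))) (.cons (.br (nat_lit 13) (nat_lit 1) (.cons (.rf (nat_lit 259) (nat_lit 677582165103132179601393696)) (.cons (.br (nat_lit 13) (nat_lit 1) (.cons (.rf (nat_lit 259) (nat_lit 677582165103132179601393696)) .nil)) .nil))) .nil)))) (.cons (.br (nat_lit 16) (nat_lit 1) (.cons (.br (nat_lit 13) (nat_lit 1) (.cons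 (.ev (nat_lit 680564774565152463999648139882537157379) (nat_lit 2)) (.cons (.rf (nat_lit 228) (nat_lit 631047560067683650)) .nil))) (.cons (.ev (nat_lit 340287559297026374471900317094170853376) (nat_lit 1)) (.cons (.rf (nat_lit 260) (nat_lit 646192708113796371554)) .nil)))) (.cons (.br (nat_lit 13) (nat_lit 1) (.cons (.rf (nat_lit 262) (nat_lit 677582165103132179601393696)) (.cons (.rf (nat_lit 263) (nat_lit 677582165103132179601393696)) (.cons (.br (nat_lit 13) (nat_lit 1) (.cons (.rf (nat_lit 262) (nat_lit 677582165103132179601393696)) (.cons (.rf (nat_lit 263) (nat_lit 677582165103132179601393696)) .nil))) .nil)))) .nil))))) .nil)))),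
 (.br (nat_lit 16) (nat_lit 1) (.cons (.zr (nat_lit 10384594343293229818001855109925641) (nat_lit 680564734158789581725124197594190315520) (nat_lit 24) (nat_lit 1)) .nil)),
 (.br (nat_lit 14) (nat_lit 1) (.cons (.kr (nat_lit 20361947251194202851782741197056) (nat_lit 1334420292644664348718435059724517376) (nat_lit 1) (nat_lit 0)) .nil)),
 (.br (nat_lit 13) (nat_lit 1) (.cons (.br (nat_lit 14) (nat_lit 1) (.cons (.ev (nat_lit 680564734000952226715806429887328158465) (nat_lit 2)) (.cons (.rf (nat_lit 266) (nat_lit 661701333108527484505153)) .nil))) (.cons (.br (nat_lit 14) (nat_lit 1) (.cons (.zr (nat_lit 40564821625154980640102805537539) (nat_lit 2668840585286906141949959672086659072) (nat_lit 8) (nat_lit 1)) (.cons (.ev (nat_lit 87112291124136334552891684042850042904833) (nat_lit 1)) .nil))) .nil))),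
 (.br (nat_lit 13) (nat_lit 1) (.cons (.rf (nat_lit 267) (nat_lit 677582165103132179601393696)) (.cons (.br (nat_lit 16) (nat_lit 1) (.cons (.ev (nat_lit 680564734000952226715806429887328158465) (nat_lit 2)) (.cons (.ev (nat_lit 174227230400800781675092623986307834970373) (nat_lit 3)) .nil))) .nil))),
 (.br (nat_lit 6) (nat_lit 1) (.cons (.rf (nat_lit 258) (nat_lit 583706118939841765935136)) (.cons (.rf (nat_lit 264) (nat_lit 583706118939841765935136)) (.cons (.br (nat_lit 15) (nat_lit 1) (.cons (.ev (nat_lit 2658456150645131534864263995409433345) (nat_lit 2)) (.cons (.br (nat_lit 14) (nat_lit 1) (.cons (.br (nat_lit 13) (nat_lit 1) (.cons (.ev (nat_lit 2668921715551544323625504820578091271) (nat_lit 3)) (.cons (.rf (nat_lit 225) (nat_lit 596144429693539650)) .nil))) (.cons (.br (nat_lit 16) (nat_lit 1) (.cons (.ev (nat_lit 680564734000952226715806429887328158465) (nat_lit 2)) (.cons (.rf (nat_lit 226) (nat_lit 631013475207000138)) .nil))) (.cons (.br (nat_lit 13) (nat_lit 1) (.cons (.rf (nat_lit 265) (nat_lit 677582165103132179601393696))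 (.cons (.br (nat_lit 13) (nat_lit 1) (.cons (.rf (nat_lit 265) (nat_lit 677582165103132179601393696)) .nil)) .nil))) .nil)))) (.cons (.br (nat_lit 16) (nat_lit 1) (.cons (.br (nat_lit 13) (nat_lit 1) (.cons (.ev (nat_lit 680564774565152463999648139882537157379) (nat_lit 2)) (.cons (.rf (nat_lit 228) (nat_lit 631013475207000138)) .nil))) (.cons (.ev (nat_lit 341611594916723384077163700128952942593) (nat_lit 1)) (.cons (.rf (nat_lit 229) (nat_lit 677545559837479612023121952)) .nil)))) (.cons (.br (nat_lit 13) (nat_lit 1) (.cons (.rf (nat_lit 267) (nat_lit 677582165103132179601393696)) (.cons (.rf (nat_lit 268) (nat_lit 677582165103132179601393696)) (.cons (.br (nat_lit 13) (nat_lit 1) (.cons (.rf (nat_lit 267) (nat_lit 677582165103132179601393696)) (.cons (.rf (nat_lit 268) (nat_lit 677582165103132179601393696)) .nil))) .nil)))) .nil))))) .nil)))),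
 (.br (nat_lit 13) (nat_lit 1) (.cons (.rf (nat_lit 269) (nat_lit 546841156408611224004871)) (.cons (.rf (nat_lit 264) (nat_lit 546841156408611224004871)) (.cons (.kr (nat_lit 309485009821626543701491713) (nat_lit 20282409603651742481541305991168) (nat_lit 0) (nat_lit 1)) .nil)))),
 (.br (nat_lit 5) (nat_lit 1) (.cons (.rf (nat_lit 234) (nat_lit 493858305440582043680)) (.cons (.rf (nat_lit 241) (nat_lit 493858305440582043680)) (.cons (.br (nat_lit 12) (nat_lit 1) (.cons (.rf (nat_lit 241) (nat_lit 227236016449790519559)) (.cons (.rf (nat_lit 234) (nat_lit 227236016449790519559)) (.cons (.rf (nat_lit 252) (nat_lit 17022140995484340291616)) (.cons (.br (nat_lit 6) (nat_lit 1) (.cons (.rf (nat_lit 258) (nat_lit 583706118939841765935136)) (.cons (.rf (nat_lit 264) (nat_lit 583706118939841765935136)) (.cons (.rf (nat_lit 269) (nat_lit 583706118939841765935136)) (.cons (.br (nat_lit 6) (nat_lit 1) (.cons (.rf (nat_lit 258) (nat_lit 583706118939841765935136)) (.cons (.rf (nat_lit 264) (nat_lit 583706118939841765935136))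 (.cons (.rf (nat_lit 269) (nat_lit 583706118939841765935136)) (.cons (.br (nat_lit 13) (nat_lit 1) (.cons (.rf (nat_lit 269) (nat_lit 546841156408611224004871)) (.cons (.rf (nat_lit 264) (nat_lit 546841156408611224004871)) (.cons (.rf (nat_lit 270) (nat_lit 677582165103132179601393696)) (.cons (.rf (nat_lit 270) (nat_lit 640105464695078675185502240)) .nil))))) .nil))))) .nil))))) .nil))))) .nil)))),
 (.br (nat_lit 13) (nat_lit 1) (.cons (.ev (nat_lit 20282719093402305278533836013568) (nat_lit 1)) (.cons (.ev (nat_lit 20361948460101575722342501384448) (nat_lit 1)) .nil))),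
 (.br (nat_lit 12) (nat_lit 1) (.cons (.ev (nat_lit 10384752792369444313710867507184385) (nat_lit 2)) (.cons (.kr (nat_lit 1208925819615728686333953) (nat_lit 79228162514336395187581943808) (nat_lit 0) (nat_lit 1)) (.cons (.kr (nat_lit 1208925819896104151416833) (nat_lit 79228162514336395187598655488) (nat_lit 0) (nat_lit 1)) (.cons (.br (nat_lit 13) (nat_lit 1) (.cons (.rf (nat_lit 272) (nat_lit 677582165103132179601393696)) (.cons (.rf (nat_lit 272) (nat_lit 676411018215380506548177952)) (.cons (.br (nat_lit 13) (nat_lit 1) (.cons (.ev (nat_lit 20361948464842461006875599110145) (nat_lit 1)) (.cons (.ev (nat_lit 20361948464842461287251080904705) (nat_lit 1)) .nil))) .nil)))) .nil))))),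
 (.br (nat_lit 11) (nat_lit 1) (.cons (.br (nat_lit 11) (nat_lit 1) (.cons (.kr (nat_lit 1213648186098598331547904) (nat_lit 309485028268089146729365504) (nat_lit 1) (nat_lit 0)) .nil)) (.cons (.br (nat_lit 11) (nat_lit 1) (.cons (.kr (nat_lit 1213648186098598331547904) (nat_lit 309485028268089146729365504) (nat_lit 1) (nat_lit 0)) .nil)) .nil))),
 (.br (nat_lit 9) (nat_lit 1) (.cons (.br (nat_lit 9) (nat_lit 1) .nil) .nil)),
 (.br (nat_lit 13) (nat_lit 1) (.cons (.ev (nat_lit 10425316992606728156546762555917059) (nat_lit 2)) (.cons (.ev (nat_lit 20282719093402305278533836013568) (nat_lit 1)) (.cons (.ev (nat_lit 174224582329244475005825616895765341667591) (nat_lit 3)) .nil)))),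
 (.br (nat_lit 12) (nat_lit 1) (.cons (.rf (nat_lit 234) (nat_lit 227236016449790519559)) (.cons (.kr (nat_lit 1208925819615728686333953) (nat_lit 79228162514336395187581943808) (nat_lit 0) (nat_lit 1)) (.cons (.ev (nat_lit 79229376180897461740578603008) (nat_lit 1)) (.cons (.br (nat_lit 14) (nat_lit 1) (.cons (.rf (nat_lit 273) (nat_lit 19926483457304368636856352)) (.cons (.rf (nat_lit 274) (nat_lit 661701333108527484505153)) (.cons (.br (nat_lit 15) (nat_lit 1) (.cons (.br (nat_lit 13) (nat_lit 1) (.cons (.ev (nat_lit 20282719093402305278533836013568) (nat_lit 1)) (.cons (.kr (nat_lit 20282410812577490038576425992192) (nat_lit 79537647524085682662268731392) (nat_lit 10) (nat_lit 0)) .nil))) (.cons (.rf (nat_lit 275) (nat_lit 646192708113796371554)) (.cons (.br (nat_lit 16) (nat_lit 1) (.cons (.zr (nat_lit 159075295048171928274491015939) (nat_lit 683223189833446763413442113542964641792) (nat_lit 8) (nat_lit 1)) (.cons (.ev (nat_lit 87453902719053057936968703909261618511872) (nat_lit 1)) .nil))) .nil)))) (.cons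 (.br (nat_lit 13) (nat_lit 1) (.cons (.rf (nat_lit 276) (nat_lit 676411018215380506548177952)) (.cons (.rf (nat_lit 276) (nat_lit 677582165103132179601393696)) (.cons (.ev (nat_lit 174224582248432982345611998350606919139591) (nat_lit 3)) .nil)))) .nil))))) .nil))))),
 (.br (nat_lit 6) (nat_lit 1) (.cons (.rf (nat_lit 271) (nat_lit 493858305439541824544)) (.cons (.rf (nat_lit 271) (nat_lit 458082835899617446944)) (.cons (.kr (nat_lit 281474976776192) (nat_lit 1099528404992) (nat_lit 2) (nat_lit 0)) (.cons (.br (nat_lit 12) (nat_lit 1) (.cons (.rf (nat_lit 234) (nat_lit 227236016449790519559)) (.cons (.rf (nat_lit 273) (nat_lit 19926519232773908561233952)) (.cons (.rf (nat_lit 277) (nat_lit 19926519232773908561233952)) (.cons (.rf (nat_lit 277) (nat_lit 18755372345022235508018208)) (.cons (.br (nat_lit 12) (nat_lit 1) (.cons (.rf (nat_lit 234) (nat_lit 227236016449790519559)) (.cons (.rf (nat_lit 273) (nat_lit 19926519232773908561233952)) (.cons (.rf (nat_lit 277) (nat_lit 19926519232773908561233952)) (.cons (.rf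 (nat_lit 277) (nat_lit 18755372345022235508018208)) .nil))))) .nil)))))) .nil))))),
 (.br (nat_lit 13) (nat_lit 1) (.cons (.kr (nat_lit 309485009821346168236408833) (nat_lit 20282409603651742481541289279488) (nat_lit 0) (nat_lit 1)) (.cons (.ev (nat_lit 20361948464842461006875599110145) (nat_lit 1)) (.cons (.kr (nat_lit 310693935641242272387825666) (nat_lit 20361637766166078876728887934976) (nat_lit 0) (nat_lit 1)) .nil)))),
 (.br (nat_lit 13) (nat_lit 1) (.cons (.rf (nat_lit 278) (nat_lit 621218428513808136120583)) (.cons (.rf (nat_lit 279) (nat_lit 677582165103132179601393696)) (.cons (.rf (nat_lit 278) (nat_lit 548021748029328635308295)) (.cons (.rf (nat_lit 279) (nat_lit 597870980055534002176592928)) .nil))))),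
 (.br (nat_lit 12) (nat_lit 1) (.cons (.rf (nat_lit 234) (nat_lit 227236016449790519559)) (.cons (.kr (nat_lit 1208925819615728686333953) (nat_lit 79228162514336395187581943808) (nat_lit 0) (nat_lit 1)) (.cons (.rf (nat_lit 280) (nat_lit 677582165103132179601393696)) (.cons (.rf (nat_lit 280) (nat_lit 640105464695078675185502240)) .nil))))),
 (.br (nat_lit 14) (nat_lit 1) (.cons (.br (nat_lit 15) (nat_lit 1) (.cons (.ev (nat_lit 1334420292644659644798697363300417793) (nat_lit 1)) .nil)) .nil)),
 (.br (nat_lit 14) (nat_lit 1) (.cons (.rf (nat_lit 282) (nat_lit 19926519232772836966859878)) (.cons (.br (nat_lit 14) (nat_lit 1) (.cons (.rf (nat_lit 282) (nat_lit 19926519232772836966859878)) .nil)) .nil))),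
 (.br (nat_lit 13) (nat_lit 1) (.cons (.zr (nat_lit 20282409603688852425045310439936) (nat_lit 79538865894638263039340642304) (nat_lit 8) (nat_lit 0)) (.cons (.br (nat_lit 14) (nat_lit 1) (.cons (.ev (nat_lit 10385070945377392728020728682774791) (nat_lit 3)) (.cons (.ev (nat_lit 10506288179532009589153971512279299) (nat_lit 3)) (.cons (.rf (nat_lit 283) (nat_lit 21174442659471807944363079)) .nil)))) .nil))),
 (.br (nat_lit 15) (nat_lit 1) (.cons (.ev (nat_lit 340287559218106483319343567243352997888) (nat_lit 1)) (.cons (.ev (nat_lit 2668881150725083501826985842867962115) (nat_lit 2)) .nil))),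
 (.br (nat_lit 14) (nat_lit 1) (.cons (.rf (nat_lit 285) (nat_lit 677582165103132179601393696)) (.cons (.rf (nat_lit 285) (nat_lit 640105464695078675185502240)) .nil))),
 (.br (nat_lit 14) (nat_lit 1) (.cons (.rf (nat_lit 286) (nat_lit 677582165103132179601393696)) (.cons (.br (nat_lit 16) (nat_lit 1) (.cons (.br (nat_lit 15) (nat_lit 1) (.cons (.ev (nat_lit 2668840743745649059011917405363503363) (nat_lit 2)) .nil)) (.cons (.ev (nat_lit 340287559218106483319343567243352997888) (nat_lit 1)) .nil))) .nil))),
 (.br (nat_lit 6) (nat_lit 1) (.cons (.ev (nat_lit 4840444309549295346123011) (nat_lit 3)) (.cons (.br (nat_lit 11) (nat_lit 1) (.cons (.ev (nat_lit 309485028340429315255566336) (nat_lit 1)) (.cons (.br (nat_lit 12) (nat_lit 1) (.cons (.rf (nat_lit 49) (nat_lit 459933947202)) (.cons (.br (nat_lit 12) (nat_lit 1) (.cons (.rf (nat_lit 49) (nat_lit 459933947202)) (.cons (.br (nat_lit 13) (nat_lit 1) (.cons (.rf (nat_lit 284) (nat_lit 583706118939841765935136)) (.cons (.rf (nat_lit 284) (nat_lit 547107778697602015528992))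 (.cons (.br (nat_lit 13) (nat_lit 1) (.cons (.rf (nat_lit 284) (nat_lit 583706118939841765935136)) (.cons (.rf (nat_lit 284) (nat_lit 547107778697602015528992)) (.cons (.br (nat_lit 14) (nat_lit 1) (.cons (.rf (nat_lit 286) (nat_lit 677582165103132179601393696)) (.cons (.rf (nat_lit 287) (nat_lit 677582165103132179601393696)) (.cons (.rf (nat_lit 287) (nat_lit 640105464695078675185502240)) .nil)))) .nil)))) .nil)))) .nil))) .nil))) .nil))) .nil)))]

theorem c8 : chkAll C T R L8 (nat_lit 263) = true := by decide +kernel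

theorem l8 : (nat_lit 263) + L8.length = (nat_lit 289) := by decide +kernel

/-- part of the certificates -/
def L9 : List Prf := [(.br (nat_lit 14) (nat_lit 1) (.cons (.br (nat_lit 15) (nat_lit 1) (.cons (.ev (nat_lit 5337681171195195414441799649987789059) (nat_lit 3)) (.cons (.rf (nat_lit 80) (nat_lit 631038692145108290)) .nil))) .nil)),
 (.br (nat_lit 12) (nat_lit 1) (.cons (.br (nat_lit 13) (nat_lit 1) (.cons (.ev (nat_lit 81448415233018614204080442441987) (nat_lit 3)) (.cons (.br (nat_lit 14) (nat_lit 1) (.cons (.rf (nat_lit 289) (nat_lit 583706118939841765935136)) (.cons (.br (nat_lit 14) (nat_lit 1) (.cons (.rf (nat_lit 289) (nat_lit 583706118939841765935136)) (.cons (.rf (nat_lit 152) (nat_lit 661701333108527484505153)) .nil))) .nil))) .nil))) .nil)),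
 (.br (nat_lit 15) (nat_lit 1) (.cons (.ev (nat_lit 20769504973017683450606277846499591) (nat_lit 3)) (.cons (.br (nat_lit 16) (nat_lit 1) (.cons (.ev (nat_lit 20850318931886569080751949082657031) (nat_lit 3)) (.cons (.ev (nat_lit 1366446379667514909957426107391743754499) (nat_lit 3)) .nil))) .nil))),
 (.br (nat_lit 13) (nat_lit 1) (.cons (.ev (nat_lit 41040193022833236422751112397059) (nat_lit 3)) (.cons (.br (nat_lit 15) (nat_lit 1) (.cons (.ev (nat_lit 20769504973017683450606277846499591) (nat_lit 3)) (.cons (.rf (nat_lit 291) (nat_lit 19926519232773908561233952)) (.cons (.br (nat_lit 15) (nat_lit 1) (.cons (.ev (nat_lit 20769504973017683450606277846499591) (nat_lit 3)) (.cons (.rf (nat_lit 291) (nat_lit 19926519232773908561233952)) .nil))) .nil)))) .nil))),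
 (.br (nat_lit 15) (nat_lit 1) (.cons (.ev (nat_lit 1361150236871809385776325001135939256579) (nat_lit 3)) (.cons (.zr (nat_lit 40881731857415954603271920812800) (nat_lit 2668840585289323975070950195462275073) (nat_lit 8) (nat_lit 0)) .nil))),
 (.br (nat_lit 14) (nat_lit 1) (.cons (.rf (nat_lit 293) (nat_lit 677582165103132179601393696)) (.cons (.rf (nat_lit 293) (nat_lit 640105464695078675185502240)) .nil))),
 (.br (nat_lit 16) (nat_lit 1) (.cons (.br (nat_lit 17) (nat_lit 1) (.cons (.ev (nat_lit 87452568359687798701137244484564907196931) (nat_lit 2)) .nil)) (.cons (.kr (nat_lit 340282366920938463463374607431768211456) (nat_lit 87112285931760246646623899502532662132736) (nat_lit 16) (nat_lit 0)) .nil))),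
 (.br (nat_lit 14) (nat_lit 1) (.cons (.rf (nat_lit 294) (nat_lit 677582165103132179601393696)) (.cons (.rf (nat_lit 295) (nat_lit 677582165103132179601393696)) .nil))),
 (.br (nat_lit 14) (nat_lit 1) (.cons (.br (nat_lit 15) (nat_lit 1) (.cons (.ev (nat_lit 2668840585286906178988125948978659585) (nat_lit 2)) (.cons (.rf (nat_lit 66) (nat_lit 631046388719162690)) .nil))) .nil)),
 (.br (nat_lit 12) (nat_lit 1) (.cons (.br (nat_lit 14) (nat_lit 1) (.cons (.ev (nat_lit 5192376396182370233015925873836288) (nat_lit 1)) (.cons (.rf (nat_lit 63) (nat_lit 593855373516313890)) .nil))) .nil)),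
 (.br (nat_lit 13) (nat_lit 1) (.cons (.br (nat_lit 14) (nat_lit 1) (.cons (.kr (nat_lit 20361947251194202851782741197056) (nat_lit 1334420292644664348718435059724517376) (nat_lit 1) (nat_lit 0)) .nil)) .nil)),
 (.br (nat_lit 14) (nat_lit 1) (.cons (.ev (nat_lit 5192376396182370233297405128736768) (nat_lit 1)) (.cons (.br (nat_lit 13) (nat_lit 1) (.cons (.br (nat_lit 15) (nat_lit 1) (.cons (.ev (nat_lit 2668840743745649059011917405363503363) (nat_lit 2)) (.cons (.rf (nat_lit 69) (nat_lit 631046388719162690)) .nil))) (.cons (.br (nat_lit 16) (nat_lit 1) (.cons (.ev (nat_lit 680575118435594001359929726691954393345) (nat_lit 2)) (.cons (.rf (nat_lit 70) (nat_lit 631046388719162690)) .nil))) (.cons (.br (nat_lit 15) (nat_lit 1) (.cons (.rf (nat_lit 299) (nat_lit 661701333108527484505153)) (.cons (.br (nat_lit 15) (nat_lit 1) (.cons (.rf (nat_lit 299) (nat_lit 661701333108527484505153)) .nil)) .nil))) .nil)))) .nil))),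
 (.br (nat_lit 16) (nat_lit 1) (.cons (.ev (nat_lit 683223230557343683653631161546282500353) (nat_lit 2)) .nil)),
 (.br (nat_lit 13) (nat_lit 1) (.cons (.rf (nat_lit 300) (nat_lit 583706118939841765935136)) (.cons (.br (nat_lit 15) (nat_lit 1) (.cons (.br (nat_lit 14) (nat_lit 1) (.cons (.ev (nat_lit 2689650338780610646731232333061555457) (nat_lit 3)) (.cons (.rf (nat_lit 73) (nat_lit 596143491607041346)) .nil))) (.cons (.ev (nat_lit 1329248278195733172760328506368393473) (nat_lit 1)) (.cons (.br (nat_lit 14) (nat_lit 1) (.cons (.rf (nat_lit 301) (nat_lit 677582165103132179601393696)) (.cons (.br (nat_lit 14) (nat_lit 1) (.cons (.rf (nat_lit 301) (nat_lit 677582165103132179601393696)) .nil)) .nil))) .nil)))) .nil))),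
 (.br (nat_lit 16) (nat_lit 1) (.cons (.ev (nat_lit 683243959022740230634955885144174625031) (nat_lit 3)) (.cons (.ev (nat_lit 340282387282576229647756114150096371713) (nat_lit 1)) .nil))),
 (.br (nat_lit 14) (nat_lit 1) (.cons (.rf (nat_lit 303) (nat_lit 677582165103132179601393696)) (.cons (.rf (nat_lit 303) (nat_lit 640105464695078675185502240)) .nil))),
 (.br (nat_lit 14) (nat_lit 1) (.cons (.rf (nat_lit 304) (nat_lit 677582165103132179601393696)) (.cons (.br (nat_lit 16) (nat_lit 1) (.cons (.br (nat_lit 15) (nat_lit 1) (.cons (.ev (nat_lit 2668840743745649059011917405363503363) (nat_lit 2)) .nil)) (.cons (.ev (nat_lit 340282387282576229647756114150096371713) (nat_lit 1)) .nil))) .nil))),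
 (.br (nat_lit 12) (nat_lit 1) (.cons (.zr (nat_lit 158456325084085080190330340096) (nat_lit 618974742009175210446553089) (nat_lit 8) (nat_lit 0)) (.cons (.br (nat_lit 6) (nat_lit 1) (.cons (.br (nat_lit 13) (nat_lit 1) (.cons (.ev (nat_lit 40723896924981074332562185388289) (nat_lit 2)) (.cons (.br (nat_lit 14) (nat_lit 1) (.cons (.rf (nat_lit 297) (nat_lit 583706118939841765935136)) (.cons (.br (nat_lit 14) (nat_lit 1) (.cons (.rf (nat_lit 297) (nat_lit 583706118939841765935136)) (.cons (.rf (nat_lit 161) (nat_lit 661701333108527484505153)) .nil))) .nil))) .nil))) (.cons (.br (nat_lit 14) (nat_lit 1) (.cons (.ev (nat_lit 5192297169228781716515747210002433) (nat_lit 1)) (.cons (.br (nat_lit 13) (nat_lit 1) (.cons (.rf (nat_lit 298) (nat_lit 18240816216834587068448)) (.cons (.br (nat_lit 13) (nat_lit 1) (.cons (.rf (nat_lit 298) (nat_lit 18240816216834587068448)) (.cons (.rf (nat_lit 164) (nat_lit 661701333108527484505153)) .nil))) .nil))) .nil))) (.cons (.br (nat_lit 13) (nat_lit 1) (.cons (.rf (nat_lit 300) (nat_lit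 583706118939841765935136)) (.cons (.rf (nat_lit 302) (nat_lit 583706118939841765935136)) (.cons (.br (nat_lit 13) (nat_lit 1) (.cons (.rf (nat_lit 300) (nat_lit 583706118939841765935136)) (.cons (.rf (nat_lit 302) (nat_lit 583706118939841765935136)) (.cons (.br (nat_lit 14) (nat_lit 1) (.cons (.rf (nat_lit 304) (nat_lit 677582165103132179601393696)) (.cons (.rf (nat_lit 305) (nat_lit 677582165103132179601393696)) (.cons (.rf (nat_lit 305) (nat_lit 640105464695078675185502240)) .nil)))) .nil)))) .nil)))) .nil)))) .nil))),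
 (.br (nat_lit 12) (nat_lit 1) (.cons (.br (nat_lit 15) (nat_lit 1) (.cons (.zr (nat_lit 40881731857490318603269015865088) (nat_lit 5316911984380044994372252144138059777) (nat_lit 24) (nat_lit 0)) (.cons (.rf (nat_lit 172) (nat_lit 631047566517277794)) .nil))) .nil)),
 (.br (nat_lit 15) (nat_lit 1) (.cons (.ev (nat_lit 5192297169233485708312132888625408) (nat_lit 1)) (.cons (.ev (nat_lit 5212579269352127485051942417268993) (nat_lit 1)) (.cons (.zr (nat_lit 10384752173394739342141182988780288) (nat_lit 2658455992188806487816789331007242241) (nat_lit 8) (nat_lit 0)) .nil)))),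
 (.br (nat_lit 15) (nat_lit 1) (.cons (.ev (nat_lit 5192297169233485708312132888625408) (nat_lit 1)) (.cons (.ev (nat_lit 5212579269352127485051942417268993) (nat_lit 1)) (.cons (.rf (nat_lit 308) (nat_lit 677582165103132179601393696)) (.cons (.rf (nat_lit 308) (nat_lit 640105464695078675185502240)) .nil))))),
 (.br (nat_lit 14) (nat_lit 1) (.cons (.ev (nat_lit 5192376396182370233015925873836288) (nat_lit 1)) (.cons (.rf (nat_lit 98) (nat_lit 592652507869975842)) .nil))),
 (.br (nat_lit 16) (nat_lit 1) (.cons (.ev (nat_lit 680575159159490921563080608418380251393) (nat_lit 2)) .nil)),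
 (.br (nat_lit 12) (nat_lit 1) (.cons (.ev (nat_lit 41041430962872808907502323499271) (nat_lit 3)) (.cons (.br (nat_lit 14) (nat_lit 1) (.cons (.rf (nat_lit 310) (nat_lit 622703726024149174421536)) (.cons (.br (nat_lit 16) (nat_lit 1) (.cons (.ev (nat_lit 680575159001032178682768586585843695875) (nat_lit 2)) (.cons (.rf (nat_lit 89) (nat_lit 560036629338002754)) .nil))) (.cons (.br (nat_lit 15) (nat_lit 1) (.cons (.rf (nat_lit 311) (nat_lit 677582165103132179601393696)) (.cons (.br (nat_lit 15) (nat_lit 1) (.cons (.rf (nat_lit 311) (nat_lit 677582165103132179601393696)) .nil)) .nil))) .nil)))) .nil))),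
 (.br (nat_lit 15) (nat_lit 1) (.cons (.ev (nat_lit 1363798308270900087906448039015052607751) (nat_lit 3)) (.cons (.zr (nat_lit 81288094739765131338926383957760) (nat_lit 2668840587143835071825162094392639489) (nat_lit 24) (nat_lit 0)) .nil))),
 (.br (nat_lit 14) (nat_lit 1) (.cons (.rf (nat_lit 313) (nat_lit 677582165103132179601393696)) (.cons (.rf (nat_lit 313) (nat_lit 640105464695078675185502240)) .nil))),
 (.br (nat_lit 14) (nat_lit 1) (.cons (.rf (nat_lit 314) (nat_lit 677582165103132179601393696)) (.cons (.ev (nat_lit 5192376396182370233297405128736768) (nat_lit 1)) .nil))),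
 (.br (nat_lit 6) (nat_lit 1) (.cons (.rf (nat_lit 306) (nat_lit 493858305440582043680)) (.cons (.br (nat_lit 13) (nat_lit 1) (.cons (.rf (nat_lit 306) (nat_lit 235306467222321735936)) (.cons (.br (nat_lit 14) (nat_lit 1) (.cons (.zr (nat_lit 40564819207322148447286401696001) (nat_lit 20769187436571329252799865486966784) (nat_lit 8) (nat_lit 0)) (.cons (.br (nat_lit 12) (nat_lit 1) (.cons (.rf (nat_lit 307) (nat_lit 583706118939841765935136)) (.cons (.br (nat_lit 12) (nat_lit 1) (.cons (.rf (nat_lit 307) (nat_lit 583706118939841765935136)) (.cons (.rf (nat_lit 309) (nat_lit 677582165103132179601393696)) .nil))) .nil))) .nil))) (.cons (.br (nat_lit 12) (nat_lit 1) (.cons (.rf (nat_lit 312) (nat_lit 583706118939841765935136)) (.cons (.rf (nat_lit 312) (nat_lit 546849226859383755221248)) (.cons (.br (nat_lit 12) (nat_lit 1) (.cons (.rf (nat_lit 312) (nat_lit 583706118939841765935136)) (.cons (.rf (nat_lit 312) (nat_lit 546849226859383755221248)) (.cons (.br (nat_lit 14) (nat_lit 1) (.cons (.rf (nat_lit 314) (nat_lit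 677582165103132179601393696)) (.cons (.rf (nat_lit 315) (nat_lit 677582165103132179601393696)) (.cons (.rf (nat_lit 315) (nat_lit 640105464695078675185502240)) .nil)))) .nil)))) .nil)))) .nil)))) .nil))),
 (.br (nat_lit 15) (nat_lit 1) (.cons (.ev (nat_lit 1329227996095614530983588696839749888) (nat_lit 1)) (.cons (.ev (nat_lit 1329228075322563415508573969079861248) (nat_lit 1)) (.cons (.rf (nat_lit 309) (nat_lit 636555425691581419396106272)) .nil)))),
 (.br (nat_lit 16) (nat_lit 1) (.cons (.ev (nat_lit 2041704626843861327547689578216611119363) (nat_lit 3)) .nil)),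
 (.br (nat_lit 13) (nat_lit 1) (.cons (.rf (nat_lit 317) (nat_lit 19926519232773908561233952)) (.cons (.br (nat_lit 16) (nat_lit 1) (.cons (.zr (nat_lit 40564819207322148447286401696001) (nat_lit 680575118435596428600744953736364949504) (nat_lit 8) (nat_lit 0)) (.cons (.ev (nat_lit 350490848394449048151327129298359648519429) (nat_lit 3)) .nil))) .nil))),
 (.br (nat_lit 12) (nat_lit 1) (.cons (.rf (nat_lit 306) (nat_lit 235306467222321735936)) (.cons (.ev (nat_lit 158458747657947242292144374019) (nat_lit 2)) (.cons (.br (nat_lit 14) (nat_lit 1) (.cons (.br (nat_lit 13) (nat_lit 1) (.cons (.rf (nat_lit 317) (nat_lit 19926519232773908561233952)) (.cons (.ev (nat_lit 40723896924981074332562185388289) (nat_lit 2)) (.cons (.br (nat_lit 15) (nat_lit 1) (.cons (.rf (nat_lit 318) (nat_lit 677582165103132179601393696)) (.cons (.br (nat_lit 15) (nat_lit 1) (.cons (.rf (nat_lit 318) (nat_lit 677582165103132179601393696)) .nil)) .nil))) .nil)))) (.cons (.br (nat_lit 15) (nat_lit 1) (.cons (.ev (nat_lit 1329227996095614530983588696839749888)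 (nat_lit 1)) (.cons (.br (nat_lit 16) (nat_lit 1) (.cons (.ev (nat_lit 685912799766481039212478788737947403521) (nat_lit 3)) (.cons (.rf (nat_lit 99) (nat_lit 629842423562245442)) .nil))) (.cons (.rf (nat_lit 184) (nat_lit 661701333108527484505153)) .nil)))) (.cons (.br (nat_lit 13) (nat_lit 1) (.cons (.rf (nat_lit 317) (nat_lit 19926519232773908561233952)) (.cons (.ev (nat_lit 680575118754370814993938784147632161027) (nat_lit 3)) (.cons (.br (nat_lit 13) (nat_lit 1) (.cons (.rf (nat_lit 317) (nat_lit 19926519232773908561233952)) (.cons (.ev (nat_lit 680575118754370814993938784147632161027) (nat_lit 3)) .nil))) .nil)))) (.cons (.br (nat_lit 13) (nat_lit 1) (.cons (.rf (nat_lit 317) (nat_lit 19926519232773908561233952)) (.cons (.rf (nat_lit 319) (nat_lit 677582165103132179601393696)) (.cons (.br (nat_lit 13) (nat_lit 1) (.cons (.rf (nat_lit 317) (nat_lit 19926519232773908561233952)) (.cons (.rf (nat_lit 319) (nat_lit 677582165103132179601393696)) .nil))) .nil)))) .nil))))) .nil))))]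

theorem c9 : chkAll C T R L9 (nat_lit 289) = true := by decide +kernel

theorem l9 : (nat_lit 289) + L9.length = (nat_lit 321) := by decide +kernel

/-- part of the certificates -/
def L10 : List Prf := [(.br (nat_lit 15) (nat_lit 1) (.cons (.ev (nat_lit 2668840585286906178988125948978659585) (nat_lit 2)) (.cons (.ev (nat_lit 2668840743745649059011917405363503363) (nat_lit 2)) .nil))),
 (.br (nat_lit 13) (nat_lit 1) (.cons (.br (nat_lit 14) (nat_lit 1) (.cons (.ev (nat_lit 5192297169233485708312132888625408) (nat_lit 1)) (.cons (.rf (nat_lit 321) (nat_lit 677582165103132179601393696)) (.cons (.rf (nat_lit 321) (nat_lit 640105464695078675185502240)) .nil)))) (.cons (.rf (nat_lit 320) (nat_lit 548029818480101166524672)) (.cons (.rf (nat_lit 320) (nat_lit 549210410100818577828096)) .nil)))),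
 (.br (nat_lit 13) (nat_lit 1) (.cons (.rf (nat_lit 320) (nat_lit 548029818480101166524672)) (.cons (.rf (nat_lit 320) (nat_lit 585808750343058328234240)) (.cons (.ev (nat_lit 40723896924981074332562185388289) (nat_lit 2)) .nil)))),
 (.br (nat_lit 5) (nat_lit 1) (.cons (.rf (nat_lit 288) (nat_lit 407901468851537952)) (.cons (.ev (nat_lit 621392649204809480594915585) (nat_lit 2)) (.cons (.br (nat_lit 11) (nat_lit 1) (.cons (.br (nat_lit 6) (nat_lit 1) (.cons (.ev (nat_lit 621392612312449423549530371) (nat_lit 3)) (.cons (.br (nat_lit 12) (nat_lit 1) (.cons (.rf (nat_lit 290) (nat_lit 493858305440582043680)) (.cons (.br (nat_lit 12) (nat_lit 1) (.cons (.rf (nat_lit 290) (nat_lit 493858305440582043680)) (.cons (.br (nat_lit 13) (nat_lit 1) (.cons (.rf (nat_lit 292) (nat_lit 583706118939841765935136)) (.cons (.rf (nat_lit 292) (nat_lit 547107778697602015528992)) (.cons (.br (nat_lit 13) (nat_lit 1) (.cons (.rf (nat_lit 292) (nat_lit 583706118939841765935136)) (.cons (.rf (nat_lit 292) (nat_lit 547107778697602015528992))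 (.cons (.br (nat_lit 14) (nat_lit 1) (.cons (.rf (nat_lit 294) (nat_lit 677582165103132179601393696)) (.cons (.rf (nat_lit 296) (nat_lit 677582165103132179601393696)) (.cons (.rf (nat_lit 296) (nat_lit 640105464695078675185502240)) .nil)))) .nil)))) .nil)))) .nil))) .nil))) .nil))) (.cons (.rf (nat_lit 288) (nat_lit 110480281451211008)) (.cons (.br (nat_lit 6) (nat_lit 1) (.cons (.rf (nat_lit 306) (nat_lit 493858305440582043680)) (.cons (.rf (nat_lit 316) (nat_lit 493858305440582043680)) (.cons (.br (nat_lit 6) (nat_lit 1) (.cons (.rf (nat_lit 306) (nat_lit 493858305440582043680)) (.cons (.rf (nat_lit 316) (nat_lit 493858305440582043680)) (.cons (.br (nat_lit 12) (nat_lit 1) (.cons (.rf (nat_lit 306) (nat_lit 235306467222321735936)) (.cons (.rf (nat_lit 320) (nat_lit 583706118939841765935136)) (.cons (.rf (nat_lit 320) (nat_lit 547107778697602015528992)) (.cons (.br (nat_lit 12) (nat_lit 1) (.cons (.rf (nat_lit 306) (nat_lit 235306467222321735936)) (.cons (.rf (nat_lit 320) (nat_lit 583706118939841765935136)) (.cons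 (.rf (nat_lit 320) (nat_lit 547107778697602015528992)) (.cons (.br (nat_lit 13) (nat_lit 1) (.cons (.rf (nat_lit 322) (nat_lit 677582165103132179601393696)) (.cons (.rf (nat_lit 322) (nat_lit 677545566762889939850987552)) (.cons (.rf (nat_lit 323) (nat_lit 677582165103132179601393696)) (.cons (.rf (nat_lit 323) (nat_lit 640105464695078675185502240)) .nil))))) .nil))))) .nil))))) .nil)))) .nil)))) .nil)))) .nil)))),
 (.br (nat_lit 8) (nat_lit 1) (.cons (.br (nat_lit 9) (nat_lit 1) (.cons (.br (nat_lit 10) (nat_lit 1) (.cons (.br (nat_lit 11) (nat_lit 1) .nil) .nil)) (.cons (.br (nat_lit 10) (nat_lit 1) (.cons (.br (nat_lit 10) (nat_lit 1) .nil) .nil)) .nil))) .nil)),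
 (.br (nat_lit 13) (nat_lit 1) (.cons (.kr (nat_lit 79537647542532427835489911040) (nat_lit 20282410817299856521450366238720) (nat_lit 1) (nat_lit 0)) .nil)),
 (.br (nat_lit 10) (nat_lit 1) (.cons (.br (nat_lit 10) (nat_lit 1) .nil) .nil)),
 (.br (nat_lit 12) (nat_lit 1) (.cons (.br (nat_lit 14) (nat_lit 1) (.cons (.ev (nat_lit 5192376086702082706096137034531073) (nat_lit 1)) (.cons (.rf (nat_lit 327) (nat_lit 593856550239637602)) .nil))) .nil)),
 (.br (nat_lit 13) (nat_lit 1) (.cons (.kr (nat_lit 79537647542532427835489911040) (nat_lit 20282410817299856521450366238720) (nat_lit 1) (nat_lit 0)) .nil)),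
 (.br (nat_lit 15) (nat_lit 1) (.cons (.ev (nat_lit 1329228075013083127981372700985655553) (nat_lit 1)) (.cons (.rf (nat_lit 192) (nat_lit 593856543791092002)) .nil))),
 (.br (nat_lit 13) (nat_lit 1) (.cons (.ev (nat_lit 40723896924981074893313148977409) (nat_lit 2)) (.cons (.br (nat_lit 14) (nat_lit 1) (.cons (.br (nat_lit 15) (nat_lit 1) (.cons (.ev (nat_lit 2668962755113503137992000363846566151) (nat_lit 3)) (.cons (.rf (nat_lit 191) (nat_lit 631047560067683650)) .nil))) (.cons (.rf (nat_lit 330) (nat_lit 622703726024184642504736)) (.cons (.rf (nat_lit 196) (nat_lit 661665592541884672248897)) .nil)))) .nil))),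
 (.br (nat_lit 15) (nat_lit 1) (.cons (.ev (nat_lit 1329228075322563415508292489824960768) (nat_lit 1)) (.cons (.rf (nat_lit 192) (nat_lit 593822465379210338)) .nil))),
 (.br (nat_lit 14) (nat_lit 1) (.cons (.br (nat_lit 16) (nat_lit 1) (.cons (.ev (nat_lit 90184209857006325859902346633260455887886) (nat_lit 4)) .nil)) .nil)),
 (.br (nat_lit 13) (nat_lit 1) (.cons (.ev (nat_lit 40723896924981074893313148977409) (nat_lit 2)) (.cons (.br (nat_lit 15) (nat_lit 1) (.cons (.br (nat_lit 14) (nat_lit 1) (.cons (.ev (nat_lit 2668962596659595960959002214131959045) (nat_lit 3)) (.cons (.rf (nat_lit 191) (nat_lit 631013481656816738)) .nil))) (.cons (.rf (nat_lit 332) (nat_lit 622703726024149174421536)) (.cons (.br (nat_lit 14) (nat_lit 1) (.cons (.rf (nat_lit 333) (nat_lit 677582165103132179601393696)) (.cons (.br (nat_lit 14) (nat_lit 1) (.cons (.rf (nat_lit 333) (nat_lit 677582165103132179601393696)) .nil)) .nil))) .nil)))) .nil))),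
 (.br (nat_lit 15) (nat_lit 1) (.cons (.ev (nat_lit 2668840585286906178987565198015070465) (nat_lit 2)) (.cons (.ev (nat_lit 1334481298640503731223733044653392128) (nat_lit 2)) .nil))),
 (.br (nat_lit 14) (nat_lit 1) (.cons (.rf (nat_lit 335) (nat_lit 677582165103132179601393696)) (.cons (.rf (nat_lit 335) (nat_lit 640105464695078675185502240)) .nil))),
 (.br (nat_lit 14) (nat_lit 1) (.cons (.rf (nat_lit 336) (nat_lit 677582165103132179601393696)) (.cons (.br (nat_lit 16) (nat_lit 1) (.cons (.br (nat_lit 15) (nat_lit 1) (.cons (.ev (nat_lit 2668840743745649059011917405363503363) (nat_lit 2)) .nil)) (.cons (.ev (nat_lit 340282387282576229647756114150096371713) (nat_lit 1)) .nil))) .nil))),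
 (.br (nat_lit 12) (nat_lit 1) (.cons (.ev (nat_lit 158458747657947242292144374019) (nat_lit 2)) (.cons (.zr (nat_lit 158456325158448519436495226624) (nat_lit 623829334753563023883108353) (nat_lit 24) (nat_lit 0)) (.cons (.br (nat_lit 6) (nat_lit 1) (.cons (.br (nat_lit 13) (nat_lit 1) (.cons (.br (nat_lit 14) (nat_lit 1) (.cons (.br (nat_lit 15) (nat_lit 1) (.cons (.br (nat_lit 16) (nat_lit 1) (.cons (.br (nat_lit 16) (nat_lit 1) .nil) .nil)) .nil)) .nil)) (.cons (.br (nat_lit 14) (nat_lit 1) (.cons (.rf (nat_lit 325) (nat_lit 543618685408354)) (.cons (.br (nat_lit 14) (nat_lit 1) (.cons (.rf (nat_lit 325) (nat_lit 543618685408354)) (.cons (.br (nat_lit 15) (nat_lit 1) (.cons (.rf (nat_lit 326) (nat_lit 661701333108527484505153)) (.cons (.rf (nat_lit 326) (nat_lit 625102992866287734099009)) .nil))) .nil))) .nil))) .nil))) (.cons (.br (nat_lit 14) (nat_lit 1) (.cons (.ev (nat_lit 5192297169228781716515747210002433) (nat_lit 1)) (.cons (.br (nat_lit 13) (nat_lit 1) (.cons (.rf (nat_lit 328) (nat_lit 18240816216870055151648))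 (.cons (.br (nat_lit 13) (nat_lit 1) (.cons (.rf (nat_lit 328) (nat_lit 18240816216870055151648)) (.cons (.br (nat_lit 15) (nat_lit 1) (.cons (.rf (nat_lit 329) (nat_lit 661701333108527484505153)) (.cons (.rf (nat_lit 329) (nat_lit 625102992866287734099009)) .nil))) .nil))) .nil))) .nil))) (.cons (.br (nat_lit 13) (nat_lit 1) (.cons (.rf (nat_lit 331) (nat_lit 583706118939841765935136)) (.cons (.rf (nat_lit 334) (nat_lit 583706118939841765935136)) (.cons (.br (nat_lit 13) (nat_lit 1) (.cons (.rf (nat_lit 331) (nat_lit 583706118939841765935136)) (.cons (.rf (nat_lit 334) (nat_lit 583706118939841765935136)) (.cons (.br (nat_lit 14) (nat_lit 1) (.cons (.rf (nat_lit 336) (nat_lit 677582165103132179601393696)) (.cons (.rf (nat_lit 337) (nat_lit 677582165103132179601393696)) (.cons (.rf (nat_lit 337) (nat_lit 640105464695078675185502240)) .nil)))) .nil)))) .nil)))) .nil)))) .nil)))),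
 (.br (nat_lit 12) (nat_lit 1) (.cons (.br (nat_lit 14) (nat_lit 1) (.cons (.ev (nat_lit 5192376086702082706096137034531073) (nat_lit 1)) (.cons (.rf (nat_lit 202) (nat_lit 593856550239637602)) .nil))) .nil)),
 (.br (nat_lit 15) (nat_lit 1) (.cons (.ev (nat_lit 1407417873540124713005496819405227022) (nat_lit 4)) .nil)),
 (.br (nat_lit 12) (nat_lit 1) (.cons (.ev (nat_lit 5192376396182370233014830657241088) (nat_lit 1)) (.cons (.br (nat_lit 13) (nat_lit 1) (.cons (.rf (nat_lit 339) (nat_lit 18240816216870055151648)) (.cons (.br (nat_lit 13) (nat_lit 1) (.cons (.rf (nat_lit 339) (nat_lit 18240816216870055151648)) (.cons (.br (nat_lit 15) (nat_lit 1) (.cons (.rf (nat_lit 340) (nat_lit 677582165103132179601393696)) (.cons (.rf (nat_lit 340) (nat_lit 640105464695078675185502240)) .nil))) .nil))) .nil))) .nil))),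
 (.br (nat_lit 13) (nat_lit 1) (.cons (.ev (nat_lit 20809911952452126266809411350561031) (nat_lit 3)) (.cons (.br (nat_lit 15) (nat_lit 1) (.cons (.ev (nat_lit 2668881150725083501827550991878324483) (nat_lit 2)) (.cons (.rf (nat_lit 206) (nat_lit 631047566517277794)) .nil))) .nil))),
 (.br (nat_lit 15) (nat_lit 1) (.cons (.br (nat_lit 16) (nat_lit 1) (.cons (.ev (nat_lit 87472584908495714057020932905627760395278) (nat_lit 4)) .nil)) .nil)),
 (.br (nat_lit 12) (nat_lit 1) (.cons (.rf (nat_lit 342) (nat_lit 583706118939841765935136)) (.cons (.br (nat_lit 13) (nat_lit 1) (.cons (.rf (nat_lit 342) (nat_lit 583670343470301841557536)) (.cons (.br (nat_lit 16) (nat_lit 1) (.cons (.ev (nat_lit 1361150359041014594900940446510006403335) (nat_lit 3)) (.cons (.rf (nat_lit 208) (nat_lit 631047566517277794)) .nil))) (.cons (.br (nat_lit 15) (nat_lit 1) (.cons (.rf (nat_lit 343) (nat_lit 677582165103132179601393696)) (.cons (.rf (nat_lit 343) (nat_lit 640105428919609135261124640)) .nil))) .nil)))) .nil))),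
 (.br (nat_lit 12) (nat_lit 1) (.cons (.br (nat_lit 15) (nat_lit 1) (.cons (.ev (nat_lit 1329228075013083127981372700985655553) (nat_lit 1)) .nil)) .nil)),
 (.br (nat_lit 12) (nat_lit 1) (.cons (.rf (nat_lit 344) (nat_lit 583706118939841765935136)) (.cons (.br (nat_lit 15) (nat_lit 1) (.cons (.ev (nat_lit 2689609774585209066455085313683489027) (nat_lit 3)) (.cons (.br (nat_lit 16) (nat_lit 1) (.cons (.ev (nat_lit 340282367000476115709827055538170495233) (nat_lit 1)) (.cons (.rf (nat_lit 211) (nat_lit 631047566517277794)) .nil))) (.cons (.br (nat_lit 13) (nat_lit 1) (.cons (.rf (nat_lit 345) (nat_lit 21174442659472880612509728)) (.cons (.br (nat_lit 13) (nat_lit 1) (.cons (.rf (nat_lit 345) (nat_lit 21174442659472880612509728)) .nil)) .nil))) .nil)))) .nil))),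
 (.br (nat_lit 13) (nat_lit 1) (.cons (.rf (nat_lit 346) (nat_lit 583670343470301841557536)) (.cons (.kr (nat_lit 20282410812577490038576425992192) (nat_lit 79537647524085682662268731392) (nat_lit 10) (nat_lit 0)) .nil))),
 (.br (nat_lit 14) (nat_lit 1) (.cons (.rf (nat_lit 341) (nat_lit 17022140995484340291616)) (.cons (.rf (nat_lit 341) (nat_lit 16986365525944415914016)) (.cons (.br (nat_lit 12) (nat_lit 1) (.cons (.rf (nat_lit 344) (nat_lit 583706118939841765935136)) (.cons (.rf (nat_lit 346) (nat_lit 583706118939841765935136)) (.cons (.br (nat_lit 12) (nat_lit 1) (.cons (.rf (nat_lit 344) (nat_lit 583706118939841765935136)) (.cons (.rf (nat_lit 346) (nat_lit 583706118939841765935136)) (.cons (.br (nat_lit 13) (nat_lit 1) (.cons (.rf (nat_lit 346) (nat_lit 583670343470301841557536)) (.cons (.rf (nat_lit 347) (nat_lit 677582165103132179601393696)) (.cons (.rf (nat_lit 347) (nat_lit 640105464695078675185502240)) .nil)))) .nil)))) .nil)))) .nil)))),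
 (.br (nat_lit 14) (nat_lit 1) (.cons (.ev (nat_lit 5192376396182370161238711579246593) (nat_lit 1)) (.cons (.rf (nat_lit 217) (nat_lit 593856550239671394)) .nil))),
 (.br (nat_lit 13) (nat_lit 1) (.cons (.ev (nat_lit 5192297169233485708031757440254208) (nat_lit 1)) (.cons (.br (nat_lit 14) (nat_lit 1) (.cons (.ev (nat_lit 20891040352926693374890151258620163) (nat_lit 3)) (.cons (.br (nat_lit 15) (nat_lit 1) (.cons (.ev (nat_lit 5337803340400404539057245024054935815) (nat_lit 3)) (.cons (.rf (nat_lit 216) (nat_lit 631047566517277794)) .nil))) .nil))) (.cons (.br (nat_lit 14) (nat_lit 1) (.cons (.rf (nat_lit 349) (nat_lit 622703726023049662793760)) (.cons (.rf (nat_lit 349) (nat_lit 586097053832335475452160)) (.cons (.br (nat_lit 15) (nat_lit 1) (.cons (.br (nat_lit 15) (nat_lit 1) (.cons (.ev (nat_lit 2668881150725083501827550991878324483) (nat_lit 2)) .nil)) (.cons (.br (nat_lit 15) (nat_lit 1) (.cons (.ev (nat_lit 2668881150725083501827550991878324483) (nat_lit 2)) .nil)) .nil))) .nil)))) .nil))))]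

theorem c10 : chkAll C T R L10 (nat_lit 321) = true := by decide +kernel

theorem l10 : (nat_lit 321) + L10.length = (nat_lit 351) := by decide +kernel

/-- part of the certificates -/
def L11 : List Prf := [(.br (nat_lit 15) (nat_lit 1) (.cons (.ev (nat_lit 340282367000476115709827055538170495233) (nat_lit 1)) (.cons (.br (nat_lit 16) (nat_lit 1) (.cons (.kr (nat_lit 341611594996261026860364378629294063616) (nat_lit 87112291144339515994029018072704945750016) (nat_lit 2) (nat_lit 0)) .nil)) .nil))),
 (.br (nat_lit 14) (nat_lit 1) (.cons (.rf (nat_lit 351) (nat_lit 677582165103132179601393696)) (.cons (.rf (nat_lit 351) (nat_lit 640105428919609135261124640)) .nil))),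
 (.br (nat_lit 14) (nat_lit 1) (.cons (.rf (nat_lit 352) (nat_lit 677582165103132179601393696)) (.cons (.ev (nat_lit 5212658496301012010037214657380353) (nat_lit 1)) .nil))),
 (.br (nat_lit 12) (nat_lit 1) (.cons (.rf (nat_lit 350) (nat_lit 583706118939841765935136)) (.cons (.rf (nat_lit 350) (nat_lit 547107778697600975309856)) (.cons (.br (nat_lit 13) (nat_lit 1) (.cons (.rf (nat_lit 350) (nat_lit 583670343470301841557536)) (.cons (.rf (nat_lit 350) (nat_lit 547072003228061050932256)) (.cons (.rf (nat_lit 348) (nat_lit 19116701948168889542912)) (.cons (.br (nat_lit 14) (nat_lit 1) (.cons (.rf (nat_lit 352) (nat_lit 677582165103132179601393696)) (.cons (.rf (nat_lit 353) (nat_lit 677582165103132179601393696)) (.cons (.rf (nat_lit 353) (nat_lit 640105428919609135261124640)) .nil)))) .nil))))) .nil)))),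
 (.br (nat_lit 13) (nat_lit 1) (.cons (.ev (nat_lit 2668881150725083501827550991878324483) (nat_lit 2)) .nil)),
 (.br (nat_lit 11) (nat_lit 1) (.cons (.br (nat_lit 14) (nat_lit 1) (.cons (.kr (nat_lit 5212579269352127485053041912054016) (nat_lit 1329228075322563415436233800553660416) (nat_lit 1) (nat_lit 0)) .nil)) .nil)),
 (.br (nat_lit 12) (nat_lit 1) (.cons (.ev (nat_lit 1329228075013083127981372700985655553) (nat_lit 1)) (.cons (.rf (nat_lit 228) (nat_lit 593856550239637602)) .nil))),
 (.br (nat_lit 15) (nat_lit 1) (.cons (.zr (nat_lit 2679225179003971111878141109120008960) (nat_lit 680564734000952226697287626011967619073) (nat_lit 8) (nat_lit 0)) .nil)),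
 (.br (nat_lit 13) (nat_lit 1) (.cons (.br (nat_lit 15) (nat_lit 1) (.cons (.ev (nat_lit 340282367000476111005979374340567728128) (nat_lit 1)) (.cons (.br (nat_lit 16) (nat_lit 1) (.cons (.ev (nat_lit 87472584745605097479178582490884594402318) (nat_lit 4)) .nil)) .nil))) (.cons (.br (nat_lit 15) (nat_lit 1) (.cons (.zr (nat_lit 40723275537054236005951269372163) (nat_lit 2668840585286901456476964941270614016) (nat_lit 8) (nat_lit 1)) (.cons (.ev (nat_lit 174227230319512063129771529509270680895745) (nat_lit 2)) .nil))) .nil))),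
 (.br (nat_lit 13) (nat_lit 1) (.cons (.rf (nat_lit 359) (nat_lit 677582165103132179601393696)) (.cons (.br (nat_lit 16) (nat_lit 1) (.cons (.ev (nat_lit 340282367000476111005979374340567728128) (nat_lit 1)) (.cons (.ev (nat_lit 174224582329402928913002072872446215849217) (nat_lit 3)) .nil))) .nil))),
 (.br (nat_lit 12) (nat_lit 1) (.cons (.rf (nat_lit 354) (nat_lit 583706118939841765935136)) (.cons (.br (nat_lit 14) (nat_lit 1) (.cons (.ev (nat_lit 5192297169233485708031757440254208) (nat_lit 1)) (.cons (.ev (nat_lit 2668840743745649059011917405363503363) (nat_lit 2)) (.cons (.br (nat_lit 15) (nat_lit 1) (.cons (.ev (nat_lit 1329227996095609826991792311161126913) (nat_lit 1)) (.cons (.ev (nat_lit 1344805044819277421719953237321253633) (nat_lit 2)) (.cons (.br (nat_lit 13) (nat_lit 1) (.cons (.rf (nat_lit 355) (nat_lit 677582165103132179601393696)) (.cons (.rf (nat_lit 355) (nat_lit 640068866354836434394876960)) .nil))) .nil)))) .nil)))) (.cons (.br (nat_lit 14) (nat_lit 1) (.cons (.ev (nat_lit 5192297169233485708031757440254208)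 (nat_lit 1)) (.cons (.br (nat_lit 15) (nat_lit 1) (.cons (.br (nat_lit 13) (nat_lit 1) (.cons (.ev (nat_lit 2668922032459358677115040402063622403) (nat_lit 3)) (.cons (.rf (nat_lit 225) (nat_lit 631047566517277794)) .nil))) (.cons (.br (nat_lit 16) (nat_lit 1) (.cons (.ev (nat_lit 340282367000476115709827055538170495233) (nat_lit 1)) (.cons (.rf (nat_lit 226) (nat_lit 631047566517277794)) .nil))) (.cons (.br (nat_lit 13) (nat_lit 1) (.cons (.rf (nat_lit 356) (nat_lit 661701333108527484505153)) (.cons (.br (nat_lit 13) (nat_lit 1) (.cons (.rf (nat_lit 356) (nat_lit 661701333108527484505153)) .nil)) .nil))) .nil)))) (.cons (.br (nat_lit 16) (nat_lit 1) (.cons (.rf (nat_lit 357) (nat_lit 622703726024184642504736)) (.cons (.ev (nat_lit 680575118435594001359929726691954393345) (nat_lit 2)) (.cons (.br (nat_lit 13) (nat_lit 1) (.cons (.rf (nat_lit 358) (nat_lit 677582165103132179601393696)) (.cons (.br (nat_lit 13) (nat_lit 1) (.cons (.rf (nat_lit 358) (nat_lit 677582165103132179601393696)) .nil)) .nil))) .nil)))) (.cons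 (.br (nat_lit 13) (nat_lit 1) (.cons (.rf (nat_lit 359) (nat_lit 677582165103132179601393696)) (.cons (.rf (nat_lit 360) (nat_lit 677582165103132179601393696)) (.cons (.br (nat_lit 13) (nat_lit 1) (.cons (.rf (nat_lit 359) (nat_lit 677582165103132179601393696)) (.cons (.rf (nat_lit 360) (nat_lit 677582165103132179601393696)) .nil))) .nil)))) .nil))))) .nil)))),
 (.br (nat_lit 13) (nat_lit 1) (.cons (.rf (nat_lit 361) (nat_lit 583670343470301841557536)) (.cons (.rf (nat_lit 361) (nat_lit 547072003228061050932256)) (.cons (.kr (nat_lit 20282410812577490038576425992192) (nat_lit 79537647524085682662268731392) (nat_lit 10) (nat_lit 0)) .nil)))),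
 (.br (nat_lit 5) (nat_lit 1) (.cons (.rf (nat_lit 338) (nat_lit 493858305440582043680)) (.cons (.rf (nat_lit 338) (nat_lit 458082835900657666080)) (.cons (.br (nat_lit 6) (nat_lit 1) (.cons (.rf (nat_lit 338) (nat_lit 493858305439541824544)) (.cons (.rf (nat_lit 338) (nat_lit 458082835899617446944)) (.cons (.rf (nat_lit 348) (nat_lit 17022140995484340291616)) (.cons (.br (nat_lit 12) (nat_lit 1) (.cons (.rf (nat_lit 354) (nat_lit 583706118939841765935136)) (.cons (.rf (nat_lit 361) (nat_lit 583706118939841765935136)) (.cons (.rf (nat_lit 361) (nat_lit 547107778697600975309856)) (.cons (.br (nat_lit 12) (nat_lit 1) (.cons (.rf (nat_lit 354) (nat_lit 583706118939841765935136)) (.cons (.rf (nat_lit 361) (nat_lit 583706118939841765935136)) (.cons (.rf (nat_lit 361) (nat_lit 547107778697600975309856)) (.cons (.br (nat_lit 13) (nat_lit 1) (.cons (.rf (nat_lit 361) (nat_lit 583670343470301841557536)) (.cons (.rf (nat_lit 361) (nat_lit 547072003228061050932256)) (.cons (.rf (nat_lit 362) (nat_lit 677582165103132179601393696))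 (.cons (.rf (nat_lit 362) (nat_lit 640105464695078675185502240)) .nil))))) .nil))))) .nil))))) .nil))))) .nil)))),
 (.br (nat_lit 6) (nat_lit 1) (.cons (.ev (nat_lit 40723896924981074893313148977409) (nat_lit 2)) (.cons (.br (nat_lit 14) (nat_lit 1) (.cons (.br (nat_lit 15) (nat_lit 1) (.cons (.ev (nat_lit 2668922190913265854150290385817437445) (nat_lit 3)) (.cons (.rf (nat_lit 191) (nat_lit 631047326805660994)) .nil))) (.cons (.br (nat_lit 16) (nat_lit 1) (.cons (.ev (nat_lit 340282387203349280763231411452327756033) (nat_lit 1)) (.cons (.rf (nat_lit 192) (nat_lit 631047326805660994)) .nil))) (.cons (.rf (nat_lit 236) (nat_lit 661701333108527484505153)) .nil)))) .nil))),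
 (.br (nat_lit 15) (nat_lit 1) (.cons (.ev (nat_lit 2668840585286906178987565198015070465) (nat_lit 2)) (.cons (.ev (nat_lit 1334461016540385089302878038458958595) (nat_lit 2)) .nil))),
 (.br (nat_lit 14) (nat_lit 1) (.cons (.rf (nat_lit 365) (nat_lit 677582165103132179601393696)) (.cons (.rf (nat_lit 365) (nat_lit 640105464695078675185502240)) .nil))),
 (.br (nat_lit 14) (nat_lit 1) (.cons (.rf (nat_lit 366) (nat_lit 677582165103132179601393696)) (.cons (.br (nat_lit 16) (nat_lit 1) (.cons (.br (nat_lit 15) (nat_lit 1) (.cons (.ev (nat_lit 2668881309183826382139007675404517633) (nat_lit 2)) .nil)) (.cons (.ev (nat_lit 340282367000476111005979374340567728128) (nat_lit 1)) .nil))) .nil))),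
 (.br (nat_lit 12) (nat_lit 1) (.cons (.zr (nat_lit 158456325158448519436495226624) (nat_lit 623829334753563023883108353) (nat_lit 24) (nat_lit 0)) (.cons (.ev (nat_lit 40723896924981074332562185388289) (nat_lit 2)) (.cons (.br (nat_lit 13) (nat_lit 1) (.cons (.zr (nat_lit 40564819207433260692143909897984) (nat_lit 1240381502757023902983258113) (nat_lit 24) (nat_lit 0)) (.cons (.kr (nat_lit 20282410812577490038576425992192) (nat_lit 79537647524085682662268731392) (nat_lit 10) (nat_lit 0)) (.cons (.br (nat_lit 6) (nat_lit 1) (.cons (.rf (nat_lit 364) (nat_lit 583706118939841765935136)) (.cons (.rf (nat_lit 364) (nat_lit 547072003228062091151392)) (.cons (.br (nat_lit 6) (nat_lit 1) (.cons (.rf (nat_lit 364) (nat_lit 583706118939841765935136)) (.cons (.rf (nat_lit 364) (nat_lit 547072003228062091151392)) (.cons (.br (nat_lit 14) (nat_lit 1) (.cons (.rf (nat_lit 366) (nat_lit 677582165103132179601393696)) (.cons (.rf (nat_lit 367) (nat_lit 677582165103132179601393696)) (.cons (.rf (nat_lit 367) (nat_lit 640105464695078675185502240))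 .nil)))) .nil)))) .nil)))) .nil)))) .nil)))),
 (.br (nat_lit 12) (nat_lit 1) (.cons (.br (nat_lit 14) (nat_lit 1) (.cons (.ev (nat_lit 5192376396182370233015925873836288) (nat_lit 1)) (.cons (.rf (nat_lit 202) (nat_lit 593856544864834850)) .nil))) .nil)),
 (.br (nat_lit 6) (nat_lit 1) (.cons (.ev (nat_lit 5192297169228781716515747210002433) (nat_lit 1)) (.cons (.br (nat_lit 13) (nat_lit 1) (.cons (.rf (nat_lit 369) (nat_lit 18240816215494554126471)) (.cons (.br (nat_lit 13) (nat_lit 1) (.cons (.rf (nat_lit 369) (nat_lit 18240816215494554126471)) (.cons (.rf (nat_lit 244) (nat_lit 661701333108527484505153)) .nil))) .nil))) .nil))),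
 (.br (nat_lit 13) (nat_lit 1) (.cons (.ev (nat_lit 20810228860266479756344992836092163) (nat_lit 3)) (.cons (.br (nat_lit 15) (nat_lit 1) (.cons (.ev (nat_lit 2668881309183826382139007675404517633) (nat_lit 2)) (.cons (.rf (nat_lit 206) (nat_lit 631047560067683650)) .nil))) .nil))),
 (.br (nat_lit 15) (nat_lit 1) (.cons (.zr (nat_lit 10425158536277088518313887498503936) (nat_lit 2658455992810213248564638023577370625) (nat_lit 24) (nat_lit 0)) .nil)),
 (.br (nat_lit 6) (nat_lit 1) (.cons (.rf (nat_lit 371) (nat_lit 583706118939841765935136)) (.cons (.br (nat_lit 13) (nat_lit 1) (.cons (.rf (nat_lit 371) (nat_lit 583439496651091492579584)) (.cons (.br (nat_lit 16) (nat_lit 1) (.cons (.ev (nat_lit 1361150359041014594900940446510006403335) (nat_lit 3)) (.cons (.rf (nat_lit 208) (nat_lit 631047560067683650)) .nil))) (.cons (.br (nat_lit 15) (nat_lit 1) (.cons (.rf (nat_lit 372) (nat_lit 677582165103132179601393696)) (.cons (.rf (nat_lit 372) (nat_lit 640105198072789924912146688)) .nil))) .nil)))) .nil))),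
 (.br (nat_lit 15) (nat_lit 1) (.cons (.ev (nat_lit 1329227996095609808617106931017842688) (nat_lit 1)) (.cons (.rf (nat_lit 211) (nat_lit 593856543790043425)) .nil))),
 (.br (nat_lit 12) (nat_lit 1) (.cons (.br (nat_lit 15) (nat_lit 1) (.cons (.ev (nat_lit 1329228075322563415508292489824960768) (nat_lit 1)) .nil)) .nil)),
 (.br (nat_lit 12) (nat_lit 1) (.cons (.rf (nat_lit 375) (nat_lit 19926519232773908561233952)) (.cons (.br (nat_lit 12) (nat_lit 1) (.cons (.rf (nat_lit 375) (nat_lit 19926519232773908561233952)) .nil)) .nil))),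
 (.br (nat_lit 6) (nat_lit 1) (.cons (.rf (nat_lit 373) (nat_lit 583706118939841765935136)) (.cons (.br (nat_lit 15) (nat_lit 1) (.cons (.ev (nat_lit 2689610091493023420521081647472443655) (nat_lit 3)) (.cons (.rf (nat_lit 374) (nat_lit 622703726023111974358087)) (.cons (.rf (nat_lit 376) (nat_lit 21174442659472845144426528)) .nil)))) .nil))),
 (.br (nat_lit 13) (nat_lit 1) (.cons (.rf (nat_lit 377) (nat_lit 583439496651091492579584)) (.cons (.br (nat_lit 16) (nat_lit 1) (.cons (.br (nat_lit 15) (nat_lit 1) (.cons (.ev (nat_lit 2668840743745649059011917405363503363) (nat_lit 2)) .nil)) (.cons (.ev (nat_lit 340282367000476111005979374340567728128) (nat_lit 1)) .nil))) .nil))),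
 (.br (nat_lit 14) (nat_lit 1) (.cons (.rf (nat_lit 370) (nat_lit 17022140995484340291616)) (.cons (.rf (nat_lit 370) (nat_lit 16755518706734066936064)) (.cons (.br (nat_lit 6) (nat_lit 1) (.cons (.rf (nat_lit 373) (nat_lit 583706118939841765935136)) (.cons (.rf (nat_lit 377) (nat_lit 583706118939841765935136)) (.cons (.br (nat_lit 6) (nat_lit 1) (.cons (.rf (nat_lit 373) (nat_lit 583706118939841765935136)) (.cons (.rf (nat_lit 377) (nat_lit 583706118939841765935136)) (.cons (.br (nat_lit 13) (nat_lit 1) (.cons (.rf (nat_lit 377) (nat_lit 583439496651091492579584)) (.cons (.rf (nat_lit 378) (nat_lit 677582165103132179601393696)) (.cons (.rf (nat_lit 378) (nat_lit 640105464695078675185502240)) .nil)))) .nil)))) .nil)))) .nil))))]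

theorem c11 : chkAll C T R L11 (nat_lit 351) = true := by decide +kernel

theorem l11 : (nat_lit 351) + L11.length = (nat_lit 380) := by decide +kernel

/-- part of the certificates -/
def L12 : List Prf := [(.br (nat_lit 14) (nat_lit 1) (.cons (.ev (nat_lit 5192376396182370161238711579246593) (nat_lit 1)) (.cons (.rf (nat_lit 217) (nat_lit 593856544864834850)) .nil))),
 (.br (nat_lit 13) (nat_lit 1) (.cons (.ev (nat_lit 5192297169233485708031757440254208) (nat_lit 1)) (.cons (.br (nat_lit 14) (nat_lit 1) (.cons (.ev (nat_lit 20891357260741047440886485047574791) (nat_lit 3)) (.cons (.br (nat_lit 15) (nat_lit 1) (.cons (.ev (nat_lit 5337803340400404539057245024054935815) (nat_lit 3)) (.cons (.rf (nat_lit 216) (nat_lit 631047560067683650)) .nil))) .nil))) (.cons (.br (nat_lit 14) (nat_lit 1) (.cons (.rf (nat_lit 380) (nat_lit 622703726023049662793760)) (.cons (.rf (nat_lit 380) (nat_lit 586104267797385749531680)) (.cons (.br (nat_lit 15) (nat_lit 1) (.cons (.br (nat_lit 15) (nat_lit 1) (.cons (.ev (nat_lit 2668881309183826382139007675404517633)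 (nat_lit 2)) .nil)) (.cons (.br (nat_lit 15) (nat_lit 1) (.cons (.ev (nat_lit 2668881309183826382139007675404517633) (nat_lit 2)) .nil)) .nil))) .nil)))) .nil)))),
 (.br (nat_lit 13) (nat_lit 1) (.cons (.ev (nat_lit 20361637770888373584583278460928) (nat_lit 1)) (.cons (.rf (nat_lit 217) (nat_lit 593822458929359913)) .nil))),
 (.br (nat_lit 13) (nat_lit 1) (.cons (.br (nat_lit 14) (nat_lit 1) (.cons (.ev (nat_lit 20810228860266479757466494629576963) (nat_lit 3)) (.cons (.br (nat_lit 15) (nat_lit 1) (.cons (.ev (nat_lit 5337803340400404539057245024054935815) (nat_lit 3)) (.cons (.rf (nat_lit 216) (nat_lit 631047326805660994)) .nil))) .nil))) (.cons (.ev (nat_lit 1329228075322563415508291394608365568) (nat_lit 1)) (.cons (.br (nat_lit 15) (nat_lit 1) (.cons (.rf (nat_lit 382) (nat_lit 622703726023111974358087)) (.cons (.rf (nat_lit 382) (nat_lit 547210199341415584246119)) (.cons (.br (nat_lit 14) (nat_lit 1) (.cons (.br (nat_lit 14) (nat_lit 1) (.cons (.ev (nat_lit 2668881309183826382139007675404517633) (nat_lit 2))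 .nil)) (.cons (.br (nat_lit 14) (nat_lit 1) (.cons (.ev (nat_lit 2668881309183826382139007675404517633) (nat_lit 2)) .nil)) .nil))) .nil)))) .nil)))),
 (.br (nat_lit 14) (nat_lit 1) (.cons (.br (nat_lit 15) (nat_lit 1) (.cons (.ev (nat_lit 340282367000476111005979374340567728128) (nat_lit 1)) (.cons (.zr (nat_lit 40881731857564682044714204007168) (nat_lit 2668840586532137496566089028695621633) (nat_lit 40) (nat_lit 0)) .nil))) (.cons (.br (nat_lit 15) (nat_lit 1) (.cons (.zr (nat_lit 40881731857564682044714204007168) (nat_lit 2668840586532137496566089028695621633) (nat_lit 40) (nat_lit 0)) (.cons (.ev (nat_lit 87112285952121884417512272805636668915968) (nat_lit 1)) .nil))) .nil))),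
 (.br (nat_lit 6) (nat_lit 1) (.cons (.rf (nat_lit 381) (nat_lit 583706118939841765935136)) (.cons (.rf (nat_lit 383) (nat_lit 583706118939841765935136)) (.cons (.br (nat_lit 13) (nat_lit 1) (.cons (.rf (nat_lit 383) (nat_lit 548252594848778462235680)) (.cons (.rf (nat_lit 381) (nat_lit 546841156408851742173440)) (.cons (.rf (nat_lit 379) (nat_lit 19347548767378198301728)) (.cons (.br (nat_lit 14) (nat_lit 1) (.cons (.rf (nat_lit 384) (nat_lit 677582165103132179601393696)) (.cons (.br (nat_lit 14) (nat_lit 1) (.cons (.rf (nat_lit 384) (nat_lit 677582165103132179601393696)) (.cons (.ev (nat_lit 5212579269347423637653319285997568) (nat_lit 1)) .nil))) (.cons (.br (nat_lit 14) (nat_lit 1) (.cons (.rf (nat_lit 384) (nat_lit 677582165103132179601393696)) (.cons (.ev (nat_lit 5212579269347423637653319285997568) (nat_lit 1)) .nil))) .nil)))) .nil))))) .nil)))),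
 (.br (nat_lit 16) (nat_lit 1) (.cons (.zr (nat_lit 680564734000333252085197736499054905088) (nat_lit 2658455992193661080561740094363795457) (nat_lit 24) (nat_lit 0)) .nil)),
 (.br (nat_lit 12) (nat_lit 1) (.cons (.ev (nat_lit 1329228075322563415508292489824960768) (nat_lit 1)) (.cons (.rf (nat_lit 228) (nat_lit 593856544864834850)) .nil))),
 (.br (nat_lit 13) (nat_lit 1) (.cons (.br (nat_lit 15) (nat_lit 1) (.cons (.ev (nat_lit 340282367000476111005979374340567728128) (nat_lit 1)) (.cons (.rf (nat_lit 261) (nat_lit 661701333108527484505153)) .nil))) (.cons (.br (nat_lit 15) (nat_lit 1) (.cons (.zr (nat_lit 2668840585286901456621080116461568768) (nat_lit 40564821629877347122976745717761) (nat_lit 8) (nat_lit 0)) (.cons (.ev (nat_lit 174227230319512063129771529509270680895745) (nat_lit 2)) .nil))) .nil))),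
 (.br (nat_lit 13) (nat_lit 1) (.cons (.rf (nat_lit 388) (nat_lit 677582165103132179601393696)) (.cons (.br (nat_lit 16) (nat_lit 1) (.cons (.ev (nat_lit 340282367000476111005979374340567728128) (nat_lit 1)) (.cons (.ev (nat_lit 174224582329244475005825616335014444925191) (nat_lit 3)) .nil))) .nil))),
 (.br (nat_lit 6) (nat_lit 1) (.cons (.rf (nat_lit 385) (nat_lit 583706118939841765935136)) (.cons (.br (nat_lit 14) (nat_lit 1) (.cons (.ev (nat_lit 5192297169233485708031757440254208) (nat_lit 1)) (.cons (.ev (nat_lit 2668840743745649059011917405363503363) (nat_lit 2)) (.cons (.br (nat_lit 15) (nat_lit 1) (.cons (.ev (nat_lit 1329228075322563415508291394608365568) (nat_lit 1)) (.cons (.ev (nat_lit 1344804965592323833203454162463949056) (nat_lit 2)) (.cons (.br (nat_lit 13) (nat_lit 1) (.cons (.br (nat_lit 13) (nat_lit 1) (.cons (.ev (nat_lit 2668881309183826382139007675404517633) (nat_lit 2)) .nil)) (.cons (.br (nat_lit 13) (nat_lit 1) (.cons (.ev (nat_lit 2668881309183826382139007675404517633) (nat_lit 2)) .nil))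 .nil))) .nil)))) .nil)))) (.cons (.br (nat_lit 14) (nat_lit 1) (.cons (.ev (nat_lit 5192297169233485708031757440254208) (nat_lit 1)) (.cons (.br (nat_lit 15) (nat_lit 1) (.cons (.br (nat_lit 13) (nat_lit 1) (.cons (.ev (nat_lit 2668921715551544323625504820578091271) (nat_lit 3)) (.cons (.rf (nat_lit 225) (nat_lit 631047560067683650)) .nil))) (.cons (.br (nat_lit 16) (nat_lit 1) (.cons (.ev (nat_lit 340282367000476115709827055538170495233) (nat_lit 1)) (.cons (.rf (nat_lit 226) (nat_lit 631047560067683650)) .nil))) (.cons (.br (nat_lit 13) (nat_lit 1) (.cons (.rf (nat_lit 386) (nat_lit 677582165103132179601393696)) (.cons (.br (nat_lit 13) (nat_lit 1) (.cons (.rf (nat_lit 386) (nat_lit 677582165103132179601393696)) .nil)) .nil))) .nil)))) (.cons (.br (nat_lit 16) (nat_lit 1) (.cons (.rf (nat_lit 387) (nat_lit 622703726024149174421536)) (.cons (.ev (nat_lit 680575118594052744239952952999328874755) (nat_lit 2)) (.cons (.rf (nat_lit 260) (nat_lit 646192708113796371554)) .nil)))) (.cons (.br (nat_lit 13) (nat_lit 1)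 (.cons (.rf (nat_lit 388) (nat_lit 677582165103132179601393696)) (.cons (.rf (nat_lit 389) (nat_lit 677582165103132179601393696)) (.cons (.br (nat_lit 13) (nat_lit 1) (.cons (.rf (nat_lit 388) (nat_lit 677582165103132179601393696)) (.cons (.rf (nat_lit 389) (nat_lit 677582165103132179601393696)) .nil))) .nil)))) .nil))))) .nil)))),
 (.br (nat_lit 13) (nat_lit 1) (.cons (.br (nat_lit 16) (nat_lit 1) (.cons (.ev (nat_lit 92228562392989379667753912581534190210058) (nat_lit 4)) .nil)) .nil)),
 (.br (nat_lit 14) (nat_lit 1) (.cons (.zr (nat_lit 680564733842498314816478443486316593155) (nat_lit 5327296576856747314043795436753388288) (nat_lit 8) (nat_lit 8)) .nil)),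
 (.br (nat_lit 13) (nat_lit 1) (.cons (.br (nat_lit 14) (nat_lit 1) (.cons (.ev (nat_lit 340282367000476111005979374340567728128) (nat_lit 1)) (.cons (.rf (nat_lit 266) (nat_lit 661701333108527484505153)) .nil))) (.cons (.br (nat_lit 14) (nat_lit 1) (.cons (.zr (nat_lit 2668840585286901456621080116461568768) (nat_lit 40564821629877347122976745717761) (nat_lit 8) (nat_lit 0)) (.cons (.ev (nat_lit 174224582248272669110561002743201116717315) (nat_lit 2)) .nil))) .nil))),
 (.br (nat_lit 13) (nat_lit 1) (.cons (.rf (nat_lit 393) (nat_lit 677582165103132179601393696)) (.cons (.br (nat_lit 16) (nat_lit 1) (.cons (.ev (nat_lit 340282367000476111005979374340567728128) (nat_lit 1)) (.cons (.ev (nat_lit 174227230400800781675092623986325014840577) (nat_lit 3)) .nil))) .nil))),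
 (.br (nat_lit 6) (nat_lit 1) (.cons (.rf (nat_lit 385) (nat_lit 583706118939841765935136)) (.cons (.rf (nat_lit 390) (nat_lit 583706118939841765935136)) (.cons (.br (nat_lit 15) (nat_lit 1) (.cons (.ev (nat_lit 1329228075322568119355972592211132673) (nat_lit 1)) (.cons (.br (nat_lit 14) (nat_lit 1) (.cons (.br (nat_lit 13) (nat_lit 1) (.cons (.ev (nat_lit 2668921715551544323625504820578091271) (nat_lit 3)) (.cons (.rf (nat_lit 225) (nat_lit 596144429693539650)) .nil))) (.cons (.br (nat_lit 16) (nat_lit 1) (.cons (.ev (nat_lit 340282367000476115709827055538170495233) (nat_lit 1)) (.cons (.rf (nat_lit 226) (nat_lit 631013475207000138)) .nil))) (.cons (.br (nat_lit 13) (nat_lit 1) (.cons (.rf (nat_lit 391) (nat_lit 677582165103132179601393696)) (.cons (.br (nat_lit 13) (nat_lit 1) (.cons (.rf (nat_lit 391) (nat_lit 677582165103132179601393696)) .nil)) .nil))) .nil)))) (.cons (.br (nat_lit 16) (nat_lit 1) (.cons (.br (nat_lit 13) (nat_lit 1) (.cons (.ev (nat_lit 340282387282576234351747910535774994688) (nat_lit 1))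 (.cons (.rf (nat_lit 228) (nat_lit 631013475207000138)) .nil))) (.cons (.ev (nat_lit 683223189833446763450479719068893053185) (nat_lit 2)) (.cons (.br (nat_lit 13) (nat_lit 1) (.cons (.rf (nat_lit 392) (nat_lit 677582165103132179601393696)) (.cons (.br (nat_lit 13) (nat_lit 1) (.cons (.rf (nat_lit 392) (nat_lit 677582165103132179601393696)) .nil)) .nil))) .nil)))) (.cons (.br (nat_lit 13) (nat_lit 1) (.cons (.rf (nat_lit 393) (nat_lit 677582165103132179601393696)) (.cons (.rf (nat_lit 394) (nat_lit 677582165103132179601393696)) (.cons (.br (nat_lit 13) (nat_lit 1) (.cons (.rf (nat_lit 393) (nat_lit 677582165103132179601393696)) (.cons (.rf (nat_lit 394) (nat_lit 677582165103132179601393696)) .nil))) .nil)))) .nil))))) .nil)))),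
 (.br (nat_lit 14) (nat_lit 1) (.cons (.br (nat_lit 15) (nat_lit 1) (.cons (.zr (nat_lit 2679225182727462746757742465827340299) (nat_lit 680564937141341990475719314207898864384) (nat_lit 40) (nat_lit 8)) .nil)) (.cons (.ev (nat_lit 174905136597362370224952471670764620218625) (nat_lit 2)) .nil))),
 (.br (nat_lit 13) (nat_lit 1) (.cons (.rf (nat_lit 395) (nat_lit 546841156408851742173440)) (.cons (.rf (nat_lit 390) (nat_lit 546841156408851742173440)) (.cons (.br (nat_lit 16) (nat_lit 1) (.cons (.rf (nat_lit 396) (nat_lit 677582165103132179601393696)) (.cons (.rf (nat_lit 396) (nat_lit 677545300140601189577632000)) (.cons (.kr (nat_lit 340282366920938463463374607431768211456) (nat_lit 87112285931760246646623899502532662132736) (nat_lit 16) (nat_lit 0)) .nil)))) .nil)))),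
 (.br (nat_lit 5) (nat_lit 1) (.cons (.rf (nat_lit 363) (nat_lit 493858305440582043680)) (.cons (.rf (nat_lit 368) (nat_lit 493858305440582043680)) (.cons (.br (nat_lit 12) (nat_lit 1) (.cons (.rf (nat_lit 368) (nat_lit 227236016690308688128)) (.cons (.rf (nat_lit 363) (nat_lit 227236016690308688128)) (.cons (.rf (nat_lit 379) (nat_lit 17022140995484340291616)) (.cons (.br (nat_lit 6) (nat_lit 1) (.cons (.rf (nat_lit 385) (nat_lit 583706118939841765935136)) (.cons (.rf (nat_lit 390) (nat_lit 583706118939841765935136)) (.cons (.rf (nat_lit 395) (nat_lit 583706118939841765935136)) (.cons (.br (nat_lit 6) (nat_lit 1) (.cons (.rf (nat_lit 385) (nat_lit 583706118939841765935136)) (.cons (.rf (nat_lit 390) (nat_lit 583706118939841765935136)) (.cons (.rf (nat_lit 395) (nat_lit 583706118939841765935136)) (.cons (.br (nat_lit 13) (nat_lit 1) (.cons (.rf (nat_lit 395) (nat_lit 546841156408851742173440)) (.cons (.rf (nat_lit 390) (nat_lit 546841156408851742173440)) (.cons (.rf (nat_lit 397) (nat_lit 677582165103132179601393696))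 (.cons (.rf (nat_lit 397) (nat_lit 640105464695078675185502240)) .nil))))) .nil))))) .nil))))) .nil))))) .nil)))),
 (.br (nat_lit 10) (nat_lit 1) (.cons (.br (nat_lit 10) (nat_lit 1) .nil) .nil)),
 (.br (nat_lit 7) (nat_lit 1) (.cons (.br (nat_lit 7) (nat_lit 1) .nil) .nil)),
 (.br (nat_lit 11) (nat_lit 1) (.cons (.br (nat_lit 14) (nat_lit 1) (.cons (.kr (nat_lit 5212579269352127485053041912054016) (nat_lit 1329228075322563415436233800553660416) (nat_lit 1) (nat_lit 0)) .nil)) .nil)),
 (.br (nat_lit 15) (nat_lit 1) (.cons (.br (nat_lit 13) (nat_lit 1) (.cons (.ev (nat_lit 40565438182100762875878659195139) (nat_lit 2)) (.cons (.rf (nat_lit 399) (nat_lit 631047566517277794)) .nil))) (.cons (.br (nat_lit 16) (nat_lit 1) (.cons (.ev (nat_lit 683223189835310927027433117199244591363) (nat_lit 3)) (.cons (.rf (nat_lit 400) (nat_lit 631047566517277794)) .nil))) (.cons (.br (nat_lit 13) (nat_lit 1) (.cons (.rf (nat_lit 401) (nat_lit 661701333108527484505153)) (.cons (.br (nat_lit 13) (nat_lit 1) (.cons (.rf (nat_lit 401)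 (nat_lit 661701333108527484505153)) .nil)) .nil))) .nil)))),
 (.br (nat_lit 13) (nat_lit 1) (.cons (.ev (nat_lit 40565438182100762875878659195139) (nat_lit 2)) (.cons (.ev (nat_lit 40723896924981074332562185388289) (nat_lit 2)) .nil))),
 (.br (nat_lit 12) (nat_lit 1) (.cons (.ev (nat_lit 5192376396187074080696028260008193) (nat_lit 1)) (.cons (.rf (nat_lit 402) (nat_lit 19926519232773908561233952)) (.cons (.rf (nat_lit 402) (nat_lit 18755372345022235508018208)) (.cons (.br (nat_lit 13) (nat_lit 1) (.cons (.rf (nat_lit 403) (nat_lit 677582165103132179601393696)) (.cons (.rf (nat_lit 403) (nat_lit 676411018215380506548177952)) (.cons (.br (nat_lit 13) (nat_lit 1) (.cons (.ev (nat_lit 40723896924981074332562185388289) (nat_lit 2)) (.cons (.ev (nat_lit 40723896924981074893313148977409) (nat_lit 2)) .nil))) .nil)))) .nil)))))]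

theorem c12 : chkAll C T R L12 (nat_lit 380) = true := by decide +kernel

theorem l12 : (nat_lit 380) + L12.length = (nat_lit 405) := by decide +kernel

/-- part of the certificates -/
def L13 : List Prf := [(.br (nat_lit 13) (nat_lit 1) (.cons (.ev (nat_lit 5212658496301012010317590105751553) (nat_lit 1)) (.cons (.ev (nat_lit 40565438182100762875878659195139) (nat_lit 2)) (.cons (.ev (nat_lit 174224582329244475005825616895765341667591) (nat_lit 3)) .nil)))),
 (.br (nat_lit 12) (nat_lit 1) (.cons (.rf (nat_lit 363) (nat_lit 227236016690308688128)) (.cons (.rf (nat_lit 404) (nat_lit 19926519232773908561233952)) (.cons (.ev (nat_lit 158458747657947242292144374019) (nat_lit 2)) (.cons (.br (nat_lit 14) (nat_lit 1) (.cons (.rf (nat_lit 404) (nat_lit 19926483457304368636856352)) (.cons (.rf (nat_lit 274) (nat_lit 661701333108527484505153)) (.cons (.br (nat_lit 15) (nat_lit 1) (.cons (.br (nat_lit 13) (nat_lit 1) (.cons (.ev (nat_lit 40565438182100762875878659195139) (nat_lit 2)) (.cons (.kr (nat_lit 20282410812577490038576425992192)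 (nat_lit 79537647524085682662268731392) (nat_lit 10) (nat_lit 0)) .nil))) (.cons (.rf (nat_lit 275) (nat_lit 646192708113796371554)) (.cons (.br (nat_lit 16) (nat_lit 1) (.cons (.zr (nat_lit 683223189833446758728113233987339551488) (nat_lit 159075299770538411148431196161) (nat_lit 8) (nat_lit 0)) (.cons (.ev (nat_lit 174907805438106115869233560137334224191747) (nat_lit 2)) .nil))) .nil)))) (.cons (.br (nat_lit 13) (nat_lit 1) (.cons (.rf (nat_lit 405) (nat_lit 676411018215380506548177952)) (.cons (.rf (nat_lit 405) (nat_lit 677582165103132179601393696)) (.cons (.ev (nat_lit 174224582248432982345611998350606919139591) (nat_lit 3)) .nil)))) .nil))))) .nil))))),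
 (.br (nat_lit 6) (nat_lit 1) (.cons (.rf (nat_lit 398) (nat_lit 493858305439541824544)) (.cons (.rf (nat_lit 398) (nat_lit 458082835899617446944)) (.cons (.kr (nat_lit 281474976776192) (nat_lit 1099528404992) (nat_lit 2) (nat_lit 0)) (.cons (.br (nat_lit 12) (nat_lit 1) (.cons (.rf (nat_lit 363) (nat_lit 227236016690308688128)) (.cons (.rf (nat_lit 404) (nat_lit 19926519232773908561233952)) (.cons (.rf (nat_lit 406) (nat_lit 19926519232773908561233952)) (.cons (.rf (nat_lit 406) (nat_lit 18755372345022235508018208)) (.cons (.br (nat_lit 12) (nat_lit 1) (.cons (.rf (nat_lit 363) (nat_lit 227236016690308688128)) (.cons (.rf (nat_lit 404) (nat_lit 19926519232773908561233952)) (.cons (.rf (nat_lit 406) (nat_lit 19926519232773908561233952)) (.cons (.rf (nat_lit 406) (nat_lit 18755372345022235508018208)) .nil))))) .nil)))))) .nil))))),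
 (.br (nat_lit 15) (nat_lit 1) (.cons (.rf (nat_lit 407) (nat_lit 546841156408851742173440)) (.cons (.ev (nat_lit 2668840585286906178987565198015070465) (nat_lit 2)) (.cons (.br (nat_lit 16) (nat_lit 1) (.cons (.zr (nat_lit 683223189833446758728113233987339551488) (nat_lit 159075299770538411148431196161) (nat_lit 8) (nat_lit 0)) (.cons (.ev (nat_lit 174905136597362370224952471110013656629505) (nat_lit 2)) .nil))) .nil)))),
 (.br (nat_lit 13) (nat_lit 1) (.cons (.rf (nat_lit 407) (nat_lit 621218428514048654289152)) (.cons (.ev (nat_lit 40723896924981074332562185388289) (nat_lit 2)) (.cons (.br (nat_lit 14) (nat_lit 1) (.cons (.ev (nat_lit 10675382704960248283946132586260135950) (nat_lit 4)) (.cons (.ev (nat_lit 2722300494108674161528722614291159124994) (nat_lit 4)) (.cons (.ev (nat_lit 174224582248432982345611999472108712624391) (nat_lit 3)) .nil)))) .nil)))),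
 (.br (nat_lit 13) (nat_lit 1) (.cons (.rf (nat_lit 407) (nat_lit 621218428514048654289152)) (.cons (.rf (nat_lit 409) (nat_lit 677582165103132179601393696)) (.cons (.rf (nat_lit 407) (nat_lit 548021748029569153476864)) (.cons (.rf (nat_lit 409) (nat_lit 597870980055534002176592928)) .nil))))),
 (.br (nat_lit 12) (nat_lit 1) (.cons (.rf (nat_lit 363) (nat_lit 227236016690308688128)) (.cons (.br (nat_lit 14) (nat_lit 1) (.cons (.rf (nat_lit 407) (nat_lit 583439496651091492579584)) (.cons (.kr (nat_lit 5192296858534827628530496329220096) (nat_lit 1329227995784915872903807060280344576) (nat_lit 14) (nat_lit 0)) (.cons (.rf (nat_lit 408) (nat_lit 677582165103132179601393696)) (.cons (.rf (nat_lit 408) (nat_lit 640105464695078675185502240)) .nil))))) (.cons (.rf (nat_lit 410) (nat_lit 677582165103132179601393696)) (.cons (.rf (nat_lit 410) (nat_lit 640105464695078675185502240)) .nil))))),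
 (.br (nat_lit 0) (nat_lit 0) (.cons (.br (nat_lit 7) (nat_lit 0) (.cons (.br (nat_lit 8) (nat_lit 1) (.cons (.br (nat_lit 8) (nat_lit 1) (.cons (.br (nat_lit 10) (nat_lit 0) (.cons (.br (nat_lit 9) (nat_lit 1) (.cons (.br (nat_lit 10) (nat_lit 1) (.cons (.rf (nat_lit 324) (nat_lit 407901468851537952)) (.cons (.rf (nat_lit 324) (nat_lit 407901467811318816)) (.cons (.kr (nat_lit 1208925819614629174706176) (nat_lit 309485009821345068724781056) (nat_lit 10) (nat_lit 0)) (.cons (.br (nat_lit 11) (nat_lit 1) (.cons (.rf (nat_lit 324) (nat_lit 372998571739416608)) (.cons (.rf (nat_lit 324) (nat_lit 372998570699197472)) (.cons (.rf (nat_lit 143) (nat_lit 412461312)) (.cons (.br (nat_lit 5) (nat_lit 1) (.cons (.rf (nat_lit 363) (nat_lit 493858305440582043680)) (.cons (.rf (nat_lit 398) (nat_lit 493858305440582043680)) (.cons (.rf (nat_lit 398) (nat_lit 458082835900657666080)) (.cons (.br (nat_lit 5) (nat_lit 1) (.cons (.rf (nat_lit 363) (nat_lit 493858305440582043680)) (.cons (.rf (nat_lit 398) (nat_lit 493858305440582043680))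 (.cons (.rf (nat_lit 398) (nat_lit 458082835900657666080)) (.cons (.br (nat_lit 6) (nat_lit 1) (.cons (.rf (nat_lit 398) (nat_lit 493858305439541824544)) (.cons (.rf (nat_lit 398) (nat_lit 458082835899617446944)) (.cons (.rf (nat_lit 407) (nat_lit 583706118939841765935136)) (.cons (.rf (nat_lit 407) (nat_lit 547107778697602015528992)) (.cons (.br (nat_lit 6) (nat_lit 1) (.cons (.rf (nat_lit 398) (nat_lit 493858305439541824544)) (.cons (.rf (nat_lit 398) (nat_lit 458082835899617446944)) (.cons (.rf (nat_lit 407) (nat_lit 583706118939841765935136)) (.cons (.rf (nat_lit 407) (nat_lit 547107778697602015528992)) (.cons (.br (nat_lit 12) (nat_lit 1) (.cons (.rf (nat_lit 363) (nat_lit 227236016690308688128)) (.cons (.rf (nat_lit 411) (nat_lit 677582165103132179601393696)) (.cons (.rf (nat_lit 411) (nat_lit 677545566762889939850987552)) (.cons (.rf (nat_lit 411) (nat_lit 597870980055534002176592928)) (.cons (.rf (nat_lit 411) (nat_lit 597834381715291762426186784)) .nil)))))) .nil)))))) .nil)))))) .nil))))) .nil))))) .nil)))))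 .nil))))) .nil)) .nil)) .nil)) .nil)) .nil)) .nil)),
 (.br (nat_lit 0) (nat_lit 0) (.cons (.ev (nat_lit 1103806595329) (nat_lit 1)) (.cons (.rf (nat_lit 0) (nat_lit 5476384)) (.cons (.br (nat_lit 5) (nat_lit 0) (.cons (.br (nat_lit 7) (nat_lit 0) (.cons (.br (nat_lit 8) (nat_lit 1) (.cons (.br (nat_lit 8) (nat_lit 1) .nil) .nil)) .nil)) (.cons (.rf (nat_lit 106) (nat_lit 4461600)) .nil))) .nil)))),
 (.br (nat_lit 13) (nat_lit 1) (.cons (.kr (nat_lit 20282410812595937064125112254720) (nat_lit 79537652246452166631425638400) (nat_lit 1) (nat_lit 0)) .nil)),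
 (.br (nat_lit 12) (nat_lit 1) (.cons (.br (nat_lit 13) (nat_lit 1) (.cons (.ev (nat_lit 20361637770906820327553164706048) (nat_lit 1)) (.cons (.br (nat_lit 14) (nat_lit 1) (.cons (.rf (nat_lit 6) (nat_lit 543618685439170)) (.cons (.br (nat_lit 14) (nat_lit 1) (.cons (.rf (nat_lit 6) (nat_lit 543618685439170)) (.cons (.br (nat_lit 15) (nat_lit 1) (.cons (.rf (nat_lit 414) (nat_lit 661701333108492051024961)) (.cons (.rf (nat_lit 414) (nat_lit 625102992866252300618817)) .nil))) .nil))) .nil))) .nil))) .nil)),
 (.br (nat_lit 13) (nat_lit 1) (.cons (.ev (nat_lit 20521023755149963543027986399234) (nat_lit 2)) (.cons (.br (nat_lit 14) (nat_lit 1) (.cons (.ev (nat_lit 10384752792369444385771760079995139) (nat_lit 2)) (.cons (.ev (nat_lit 10425158538699551050931350238396675) (nat_lit 2)) (.cons (.rf (nat_lit 11) (nat_lit 21129655120037345190186016)) .nil)))) .nil))),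
 (.br (nat_lit 15) (nat_lit 1) (.cons (.ev (nat_lit 340287559218107692226644098729820291073) (nat_lit 1)) (.cons (.zr (nat_lit 2668840585905876143074412174074183681) (nat_lit 40881731857415738430489840583424) (nat_lit 8) (nat_lit 4)) .nil))),
 (.br (nat_lit 14) (nat_lit 1) (.cons (.rf (nat_lit 417) (nat_lit 677582165103132179601393696)) (.cons (.rf (nat_lit 417) (nat_lit 640105464695078675185502240)) .nil))),
 (.br (nat_lit 14) (nat_lit 1) (.cons (.rf (nat_lit 418) (nat_lit 677582165103132179601393696)) (.cons (.br (nat_lit 16) (nat_lit 1) (.cons (.br (nat_lit 15) (nat_lit 1) (.cons (.ev (nat_lit 2668922191539489502279788458737534213) (nat_lit 3)) .nil)) (.cons (.ev (nat_lit 340287559218107692226644098729820291073) (nat_lit 1)) .nil))) .nil))),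
 (.br (nat_lit 10) (nat_lit 1) (.cons (.br (nat_lit 11) (nat_lit 1) (.cons (.ev (nat_lit 310693935640960801722859521) (nat_lit 1)) (.cons (.br (nat_lit 12) (nat_lit 1) (.cons (.rf (nat_lit 415) (nat_lit 493858305440582043680)) (.cons (.br (nat_lit 12) (nat_lit 1) (.cons (.rf (nat_lit 415) (nat_lit 493858305440582043680)) (.cons (.br (nat_lit 13) (nat_lit 1) (.cons (.rf (nat_lit 416) (nat_lit 583706118939841765935136)) (.cons (.rf (nat_lit 416) (nat_lit 547107778697602015528992)) (.cons (.br (nat_lit 13) (nat_lit 1) (.cons (.rf (nat_lit 416) (nat_lit 583706118939841765935136)) (.cons (.rf (nat_lit 416) (nat_lit 547107778697602015528992)) (.cons (.br (nat_lit 14) (nat_lit 1) (.cons (.rf (nat_lit 418) (nat_lit 677582165103132179601393696)) (.cons (.rf (nat_lit 419) (nat_lit 677582165103132179601393696)) (.cons (.rf (nat_lit 419) (nat_lit 640105464695078675185502240)) .nil)))) .nil)))) .nil)))) .nil))) .nil))) .nil))) .nil)),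
 (.br (nat_lit 13) (nat_lit 1) (.cons (.br (nat_lit 14) (nat_lit 1) (.cons (.ev (nat_lit 5212579268143220184520455949975808) (nat_lit 1)) (.cons (.br (nat_lit 15) (nat_lit 1) (.cons (.ev (nat_lit 7985793134490970604968143244092638469) (nat_lit 3)) (.cons (.rf (nat_lit 18) (nat_lit 631047566517308610)) .nil))) .nil))) (.cons (.br (nat_lit 14) (nat_lit 1) (.cons (.br (nat_lit 15) (nat_lit 1) (.cons (.ev (nat_lit 7985793135107522772828051885103777029) (nat_lit 3)) (.cons (.rf (nat_lit 18) (nat_lit 631046501332880610)) .nil))) (.cons (.ev (nat_lit 5212579268143220184520455949975808) (nat_lit 1)) (.cons (.br (nat_lit 15) (nat_lit 1) (.cons (.br (nat_lit 15) (nat_lit 1) (.cons (.ev (nat_lit 1344865971895206724875604775099432962) (nat_lit 2)) .nil)) (.cons (.rf (nat_lit 20) (nat_lit 20003254339732663646260256)) .nil))) .nil)))) .nil))),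
 (.br (nat_lit 12) (nat_lit 1) (.cons (.br (nat_lit 14) (nat_lit 1) (.cons (.kr (nat_lit 1334420292644659644798977734470533376) (nat_lit 20361947255898122590578676924416) (nat_lit 1) (nat_lit 0)) .nil)) .nil)),
 (.br (nat_lit 12) (nat_lit 1) (.cons (.rf (nat_lit 422) (nat_lit 583706118939841765935136)) (.cons (.br (nat_lit 12) (nat_lit 1) (.cons (.rf (nat_lit 422) (nat_lit 583706118939841765935136)) .nil)) .nil))),
 (.br (nat_lit 13) (nat_lit 1) (.cons (.rf (nat_lit 421) (nat_lit 583706118939841765935136)) (.cons (.br (nat_lit 15) (nat_lit 1) (.cons (.ev (nat_lit 1329228075323772322809105455547154433) (nat_lit 1)) (.cons (.br (nat_lit 16) (nat_lit 1) (.cons (.ev (nat_lit 683223189834065733433156864564430766339) (nat_lit 2)) (.cons (.rf (nat_lit 22) (nat_lit 631047566517308610)) .nil))) (.cons (.rf (nat_lit 423) (nat_lit 661701333108492051024961)) .nil)))) .nil))),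
 (.br (nat_lit 15) (nat_lit 1) (.cons (.ev (nat_lit 5212579578832414939915245303365633) (nat_lit 1)) (.cons (.ev (nat_lit 683223189833449181265009851447174496515) (nat_lit 2)) (.cons (.rf (nat_lit 423) (nat_lit 661700216181698561476705)) .nil)))),
 (.br (nat_lit 14) (nat_lit 1) (.cons (.rf (nat_lit 425) (nat_lit 19926519232773908561233952)) (.cons (.rf (nat_lit 425) (nat_lit 21135445052388537735940128)) .nil))),
 (.br (nat_lit 14) (nat_lit 1) (.cons (.rf (nat_lit 425) (nat_lit 19926519232773908561233952)) (.cons (.ev (nat_lit 5212579578832414939915245303365633) (nat_lit 1)) .nil))),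
 (.br (nat_lit 11) (nat_lit 1) (.cons (.kr (nat_lit 1208925891672223212699648) (nat_lit 309485009821626543718268928) (nat_lit 2) (nat_lit 0)) (.cons (.br (nat_lit 12) (nat_lit 1) (.cons (.zr (nat_lit 2422574149828419944185857) (nat_lit 158456325083868907408216687360) (nat_lit 8) (nat_lit 5)) (.cons (.zr (nat_lit 618974742009737060855054337) (nat_lit 158456325083868907408250110720) (nat_lit 8) (nat_lit 4)) (.cons (.br (nat_lit 13) (nat_lit 1) (.cons (.rf (nat_lit 421) (nat_lit 583706118939841765935136)) (.cons (.rf (nat_lit 424) (nat_lit 583706118939841765935136)) (.cons (.br (nat_lit 13) (nat_lit 1) (.cons (.rf (nat_lit 421) (nat_lit 583706118939841765935136)) (.cons (.rf (nat_lit 424) (nat_lit 583706118939841765935136)) (.cons (.br (nat_lit 14) (nat_lit 1) (.cons (.rf (nat_lit 426) (nat_lit 677582165103132179601393696)) (.cons (.rf (nat_lit 427) (nat_lit 677582165103132179601393696)) (.cons (.rf (nat_lit 427) (nat_lit 640105464695078675185502240)) .nil)))) .nil)))) .nil)))) .nil)))) .nil))),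
 (.br (nat_lit 13) (nat_lit 1) (.cons (.br (nat_lit 14) (nat_lit 1) (.cons (.kr (nat_lit 1329248278195728468840871185392599296) (nat_lit 5192376396187074080697127754858496) (nat_lit 1) (nat_lit 0)) .nil)) .nil)),
 (.br (nat_lit 13) (nat_lit 1) (.cons (.rf (nat_lit 429) (nat_lit 583706118939841765935136)) (.cons (.br (nat_lit 13) (nat_lit 1) (.cons (.rf (nat_lit 429) (nat_lit 583706118939841765935136)) .nil)) .nil))),
 (.br (nat_lit 13) (nat_lit 1) (.cons (.ev (nat_lit 5192376086702082778434102242640128) (nat_lit 1)) (.cons (.ev (nat_lit 40723894507092469558661924126979) (nat_lit 2)) (.cons (.br (nat_lit 14) (nat_lit 1) (.cons (.rf (nat_lit 27) (nat_lit 622699151529110347647104)) (.cons (.br (nat_lit 16) (nat_lit 1) (.cons (.ev (nat_lit 680575200042463136851081297842724406533) (nat_lit 3)) (.cons (.rf (nat_lit 28) (nat_lit 631047566517308610)) .nil))) (.cons (.rf (nat_lit 430) (nat_lit 661701333108492051024961)) .nil)))) .nil))))]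

theorem c13 : chkAll C T R L13 (nat_lit 405) = true := by decide +kernel

theorem l13 : (nat_lit 405) + L13.length = (nat_lit 432) := by decide +kernel

/-- part of the certificates -/
def L14 : List Prf := [(.br (nat_lit 14) (nat_lit 1) (.cons (.ev (nat_lit 5192376397391277533828891596029953) (nat_lit 1)) (.cons (.br (nat_lit 16) (nat_lit 1) (.cons (.br (nat_lit 15) (nat_lit 1) (.cons (.ev (nat_lit 2668840585905876161664710693552783619) (nat_lit 2)) .nil)) (.cons (.ev (nat_lit 174905136597362372642767001242391938072835) (nat_lit 2)) .nil))) .nil))),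
 (.br (nat_lit 12) (nat_lit 1) (.cons (.rf (nat_lit 431) (nat_lit 583706118939841765935136)) (.cons (.rf (nat_lit 431) (nat_lit 547107778697602015528992)) (.cons (.br (nat_lit 13) (nat_lit 1) (.cons (.rf (nat_lit 431) (nat_lit 583670378373198953678880)) (.cons (.rf (nat_lit 431) (nat_lit 547072038130959203272736)) (.cons (.kr (nat_lit 79228162514264337593543950336) (nat_lit 20282409603651670423947251286016) (nat_lit 12) (nat_lit 0)) (.cons (.br (nat_lit 14) (nat_lit 1) (.cons (.rf (nat_lit 31) (nat_lit 21174438084977806317652096)) (.cons (.rf (nat_lit 432) (nat_lit 677582165103132179601393696)) (.cons (.rf (nat_lit 432) (nat_lit 640105428954512032373245984)) .nil)))) .nil))))) .nil)))),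
 (.br (nat_lit 13) (nat_lit 1) (.cons (.ev (nat_lit 1334481377869860985689715361842266114) (nat_lit 2)) (.cons (.rf (nat_lit 34) (nat_lit 622699151529110347647104)) .nil))),
 (.br (nat_lit 13) (nat_lit 1) (.cons (.ev (nat_lit 2668881308564856325387220657886986499) (nat_lit 2)) .nil)),
 (.br (nat_lit 14) (nat_lit 1) (.cons (.rf (nat_lit 434) (nat_lit 583706118939841765935136)) (.cons (.ev (nat_lit 5192376086702082778434102242640128) (nat_lit 1)) (.cons (.br (nat_lit 15) (nat_lit 1) (.cons (.rf (nat_lit 434) (nat_lit 547107778697602015528992)) (.cons (.ev (nat_lit 2668840585905876161664710693552783619) (nat_lit 2)) (.cons (.br (nat_lit 13) (nat_lit 1) (.cons (.rf (nat_lit 435) (nat_lit 677582165103132179601393696)) (.cons (.rf (nat_lit 435) (nat_lit 640068866354836435435096096)) .nil))) .nil)))) .nil)))),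
 (.br (nat_lit 15) (nat_lit 1) (.cons (.ev (nat_lit 2668881309181408493534233775143256323) (nat_lit 2)) .nil)),
 (.br (nat_lit 13) (nat_lit 1) (.cons (.rf (nat_lit 37) (nat_lit 21174427708684260695218249)) (.cons (.br (nat_lit 16) (nat_lit 1) (.cons (.br (nat_lit 15) (nat_lit 1) (.cons (.zr (nat_lit 3402854863555355050903150286150245548041) (nat_lit 10633824283825487429245437442386823936) (nat_lit 40) (nat_lit 4)) .nil)) (.cons (.ev (nat_lit 349129718845635039330772805870653708305669) (nat_lit 3)) .nil))) .nil))),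
 (.br (nat_lit 12) (nat_lit 1) (.cons (.rf (nat_lit 433) (nat_lit 583706118939841765935136)) (.cons (.rf (nat_lit 436) (nat_lit 583706118939841765935136)) (.cons (.br (nat_lit 14) (nat_lit 1) (.cons (.br (nat_lit 13) (nat_lit 1) (.cons (.rf (nat_lit 34) (nat_lit 622699116626213235525760)) (.cons (.ev (nat_lit 40723277954924322545544667857155) (nat_lit 2)) (.cons (.br (nat_lit 15) (nat_lit 1) (.cons (.rf (nat_lit 437) (nat_lit 677582165103132179601393696)) (.cons (.rf (nat_lit 437) (nat_lit 640105428954512032373245984)) .nil))) .nil)))) (.cons (.br (nat_lit 15) (nat_lit 1) (.cons (.ev (nat_lit 2668840585289323993517697576296513795) (nat_lit 2)) (.cons (.br (nat_lit 16) (nat_lit 1) (.cons (.ev (nat_lit 685912799765869322821611693264970581253) (nat_lit 3)) (.cons (.rf (nat_lit 28) (nat_lit 630975069584297186)) .nil))) (.cons (.rf (nat_lit 430) (nat_lit 625026974322256198666337)) .nil)))) (.cons (.ev (nat_lit 5192376086702082778434102242640128) (nat_lit 1)) (.cons (.br (nat_lit 13) (nat_lit 1) (.cons (.rf (nat_lit 37)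 (nat_lit 21174427708684260695218249)) (.cons (.rf (nat_lit 438) (nat_lit 677582165103132179601393696)) (.cons (.br (nat_lit 13) (nat_lit 1) (.cons (.ev (nat_lit 5212579578832414939915245303365633) (nat_lit 1)) (.cons (.rf (nat_lit 438) (nat_lit 677582165103132179601393696)) .nil))) .nil)))) .nil))))) .nil)))),
 (.br (nat_lit 13) (nat_lit 1) (.cons (.rf (nat_lit 439) (nat_lit 583670378373198953678880)) (.cons (.rf (nat_lit 439) (nat_lit 547072038130959203272736)) (.cons (.ev (nat_lit 40723277954924322545544667857155) (nat_lit 2)) .nil)))),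
 (.br (nat_lit 6) (nat_lit 1) (.cons (.zr (nat_lit 4722367046923405492225) (nat_lit 55340232221162210048) (nat_lit 8) (nat_lit 4)) (.cons (.br (nat_lit 7) (nat_lit 1) (.cons (.ev (nat_lit 72340172821299201) (nat_lit 1)) (.cons (.br (nat_lit 10) (nat_lit 1) (.cons (.rf (nat_lit 420) (nat_lit 407901468851537952)) (.cons (.br (nat_lit 10) (nat_lit 1) (.cons (.rf (nat_lit 420) (nat_lit 407901468851537952)) (.cons (.br (nat_lit 11) (nat_lit 1) (.cons (.rf (nat_lit 428) (nat_lit 493858305440582043680)) (.cons (.rf (nat_lit 428) (nat_lit 458117738797769787424)) (.cons (.br (nat_lit 11) (nat_lit 1) (.cons (.rf (nat_lit 428) (nat_lit 493858305440582043680)) (.cons (.rf (nat_lit 428) (nat_lit 458117738797769787424)) (.cons (.br (nat_lit 12) (nat_lit 1) (.cons (.rf (nat_lit 433) (nat_lit 583706118939841765935136)) (.cons (.rf (nat_lit 439) (nat_lit 583706118939841765935136)) (.cons (.rf (nat_lit 439) (nat_lit 547107778697602015528992)) (.cons (.br (nat_lit 12) (nat_lit 1) (.cons (.rf (nat_lit 433) (nat_lit 583706118939841765935136))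 (.cons (.rf (nat_lit 439) (nat_lit 583706118939841765935136)) (.cons (.rf (nat_lit 439) (nat_lit 547107778697602015528992)) (.cons (.br (nat_lit 13) (nat_lit 1) (.cons (.rf (nat_lit 439) (nat_lit 583670378373198953678880)) (.cons (.rf (nat_lit 439) (nat_lit 547072038130959203272736)) (.cons (.rf (nat_lit 440) (nat_lit 677582165103132179601393696)) (.cons (.rf (nat_lit 440) (nat_lit 640105464695078675185502240)) .nil))))) .nil))))) .nil))))) .nil)))) .nil)))) .nil))) .nil))) .nil))) .nil))),
 (.br (nat_lit 14) (nat_lit 1) (.cons (.br (nat_lit 15) (nat_lit 1) (.cons (.ev (nat_lit 5337681171816583322833941834418750209) (nat_lit 3)) (.cons (.rf (nat_lit 80) (nat_lit 631044055485524066)) .nil))) .nil)),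
 (.br (nat_lit 15) (nat_lit 1) (.cons (.ev (nat_lit 7985793609240975634162107899063568133) (nat_lit 3)) .nil)),
 (.br (nat_lit 12) (nat_lit 1) (.cons (.br (nat_lit 13) (nat_lit 1) (.cons (.ev (nat_lit 81446551069441590442703437562625) (nat_lit 3)) (.cons (.br (nat_lit 14) (nat_lit 1) (.cons (.rf (nat_lit 442) (nat_lit 583706118939841765935136)) (.cons (.br (nat_lit 14) (nat_lit 1) (.cons (.rf (nat_lit 442) (nat_lit 583706118939841765935136)) (.cons (.br (nat_lit 15) (nat_lit 1) (.cons (.rf (nat_lit 443) (nat_lit 677582165103132179601393696)) (.cons (.rf (nat_lit 443) (nat_lit 640105464695078675185502240)) .nil))) .nil))) .nil))) .nil))) .nil)),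
 (.br (nat_lit 15) (nat_lit 1) (.cons (.ev (nat_lit 5192535471477455226094382592753667) (nat_lit 2)) (.cons (.br (nat_lit 16) (nat_lit 1) (.cons (.ev (nat_lit 5253144090972615510936045119209985) (nat_lit 2)) (.cons (.ev (nat_lit 1366446379668136297865818249576174715649) (nat_lit 3)) .nil))) .nil))),
 (.br (nat_lit 13) (nat_lit 1) (.cons (.kr (nat_lit 20282410812596008840248485216257) (nat_lit 79537652246452448106402349312) (nat_lit 0) (nat_lit 14)) (.cons (.br (nat_lit 15) (nat_lit 1) (.cons (.ev (nat_lit 5192535471477455226094382592753667) (nat_lit 2)) (.cons (.rf (nat_lit 445) (nat_lit 19926519232773908561233952)) (.cons (.br (nat_lit 15) (nat_lit 1) (.cons (.ev (nat_lit 5192535471477455226094382592753667) (nat_lit 2)) (.cons (.rf (nat_lit 445) (nat_lit 19926519232773908561233952)) .nil))) .nil)))) .nil))),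
 (.br (nat_lit 15) (nat_lit 1) (.cons (.ev (nat_lit 1361150236872430773684717143320370217729) (nat_lit 3)) (.cons (.ev (nat_lit 5337762301450162299735925042524324613) (nat_lit 3)) .nil))),
 (.br (nat_lit 14) (nat_lit 1) (.cons (.rf (nat_lit 447) (nat_lit 677582165103132179601393696)) (.cons (.rf (nat_lit 447) (nat_lit 640105464695078675185502240)) .nil))),
 (.br (nat_lit 14) (nat_lit 1) (.cons (.rf (nat_lit 448) (nat_lit 677582165103132179601393696)) (.cons (.br (nat_lit 16) (nat_lit 1) (.cons (.br (nat_lit 15) (nat_lit 1) (.cons (.ev (nat_lit 5337681487491293414391762345806398213) (nat_lit 3)) .nil)) (.cons (.ev (nat_lit 1361150236872430773684717143320370217729) (nat_lit 3)) .nil))) .nil))),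
 (.br (nat_lit 15) (nat_lit 1) (.cons (.br (nat_lit 16) (nat_lit 1) (.cons (.ev (nat_lit 1366446379668133879977140291073732641539) (nat_lit 3)) .nil)) .nil)),
 (.br (nat_lit 13) (nat_lit 1) (.cons (.kr (nat_lit 20282410812596008840248485216257) (nat_lit 79537652246452448106402349312) (nat_lit 0) (nat_lit 14)) (.cons (.br (nat_lit 14) (nat_lit 1) (.cons (.ev (nat_lit 5192535471477455226094382592753667) (nat_lit 2)) (.cons (.ev (nat_lit 5253144088554727122333835982930435) (nat_lit 2)) (.cons (.br (nat_lit 15) (nat_lit 1) (.cons (.rf (nat_lit 450) (nat_lit 677582165103132179601393696)) (.cons (.br (nat_lit 15) (nat_lit 1) (.cons (.rf (nat_lit 450) (nat_lit 677582165103132179601393696)) .nil)) .nil))) .nil)))) .nil))),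
 (.br (nat_lit 15) (nat_lit 1) (.cons (.ev (nat_lit 1361150236872428355796039184817928143619) (nat_lit 3)) (.cons (.ev (nat_lit 5337762301457415817614883573614117639) (nat_lit 3)) .nil))),
 (.br (nat_lit 14) (nat_lit 1) (.cons (.rf (nat_lit 452) (nat_lit 677582165103132179601393696)) (.cons (.rf (nat_lit 452) (nat_lit 640105464695078675185502240)) .nil))),
 (.br (nat_lit 14) (nat_lit 1) (.cons (.rf (nat_lit 453) (nat_lit 677582165103132179601393696)) (.cons (.br (nat_lit 16) (nat_lit 1) (.cons (.br (nat_lit 15) (nat_lit 1) (.cons (.ev (nat_lit 5337681487488875525716055643178533639) (nat_lit 3)) .nil)) (.cons (.ev (nat_lit 1361150236872428355796039184817928143619) (nat_lit 3)) .nil))) .nil))),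
 (.br (nat_lit 14) (nat_lit 1) (.cons (.br (nat_lit 15) (nat_lit 1) (.cons (.ev (nat_lit 2689610089636113435165502515276284679) (nat_lit 3)) (.cons (.rf (nat_lit 66) (nat_lit 596105940747855970)) .nil))) .nil)),
 (.br (nat_lit 14) (nat_lit 1) (.cons (.ev (nat_lit 5253382701502003227345594863387392) (nat_lit 2)) .nil)),
 (.br (nat_lit 12) (nat_lit 1) (.cons (.br (nat_lit 14) (nat_lit 1) (.cons (.ev (nat_lit 5192376396182351786552231924334848) (nat_lit 1)) (.cons (.rf (nat_lit 172) (nat_lit 593856516846855362)) .nil))) .nil)),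
 (.br (nat_lit 14) (nat_lit 1) (.cons (.ev (nat_lit 5253382701502003227345594863387392) (nat_lit 2)) .nil)),
 (.br (nat_lit 13) (nat_lit 1) (.cons (.ev (nat_lit 41042052350854555687031547365121) (nat_lit 3)) (.cons (.br (nat_lit 14) (nat_lit 1) (.cons (.rf (nat_lit 310) (nat_lit 622702604377227568285824)) (.cons (.br (nat_lit 16) (nat_lit 1) (.cons (.ev (nat_lit 340282387282576234370194936084461256705) (nat_lit 1)) (.cons (.rf (nat_lit 89) (nat_lit 560006808306362466)) .nil))) (.cons (.br (nat_lit 15) (nat_lit 1) (.cons (.br (nat_lit 15) (nat_lit 1) (.cons (.ev (nat_lit 2668881308562438510640916588413452545) (nat_lit 2)) .nil)) (.cons (.br (nat_lit 15) (nat_lit 1) (.cons (.ev (nat_lit 2668881308562438510640916588413452545) (nat_lit 2)) .nil)) .nil))) .nil)))) .nil))),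
 (.br (nat_lit 14) (nat_lit 1) (.cons (.br (nat_lit 16) (nat_lit 1) (.cons (.ev (nat_lit 685892111549617273089107037444492100359) (nat_lit 3)) .nil)) .nil)),
 (.br (nat_lit 13) (nat_lit 1) (.cons (.ev (nat_lit 41042052350854555687031547365121) (nat_lit 3)) (.cons (.br (nat_lit 15) (nat_lit 1) (.cons (.br (nat_lit 14) (nat_lit 1) (.cons (.ev (nat_lit 2668881308562438510640916588413452545) (nat_lit 2)) (.cons (.rf (nat_lit 98) (nat_lit 628652584478353506)) .nil))) (.cons (.br (nat_lit 16) (nat_lit 1) (.cons (.ev (nat_lit 683223189834065733433013312326274646275) (nat_lit 2)) (.cons (.rf (nat_lit 89) (nat_lit 523943893141989474)) .nil))) (.cons (.br (nat_lit 14) (nat_lit 1) (.cons (.rf (nat_lit 460) (nat_lit 677582165103132179601393696)) (.cons (.br (nat_lit 14) (nat_lit 1) (.cons (.rf (nat_lit 460) (nat_lit 677582165103132179601393696)) .nil)) .nil))) .nil)))) .nil))),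
 (.br (nat_lit 15) (nat_lit 1) (.cons (.ev (nat_lit 2668881308562438510640916588413452545) (nat_lit 2)) (.cons (.ev (nat_lit 344270050908296837914957162319645377025) (nat_lit 2)) (.cons (.br (nat_lit 16) (nat_lit 1) (.cons (.ev (nat_lit 341616787213892608099547904690572296448) (nat_lit 1)) .nil)) .nil))))]

theorem c14 : chkAll C T R L14 (nat_lit 432) = true := by decide +kernel

theorem l14 : (nat_lit 432) + L14.length = (nat_lit 463) := by decide +kernel

/-- part of the certificates -/
def L15 : List Prf := [(.br (nat_lit 14) (nat_lit 1) (.cons (.rf (nat_lit 462) (nat_lit 19926519232773908561233952)) (.cons (.rf (nat_lit 462) (nat_lit 21135445052388537735940128)) .nil))),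
 (.br (nat_lit 14) (nat_lit 1) (.cons (.rf (nat_lit 462) (nat_lit 19926519232773908561233952)) (.cons (.br (nat_lit 16) (nat_lit 1) (.cons (.br (nat_lit 15) (nat_lit 1) (.cons (.ev (nat_lit 1329248357423890983105208778936549633) (nat_lit 1)) .nil)) (.cons (.ev (nat_lit 680575199566472773820714604750738424579) (nat_lit 3)) .nil))) .nil))),
 (.br (nat_lit 11) (nat_lit 1) (.cons (.ev (nat_lit 621392649133315927465525505) (nat_lit 2)) (.cons (.br (nat_lit 12) (nat_lit 1) (.cons (.br (nat_lit 13) (nat_lit 1) (.cons (.zr (nat_lit 40564819207303486092285315121155) (nat_lit 159075309270611046154635313408) (nat_lit 8) (nat_lit 4)) (.cons (.br (nat_lit 14) (nat_lit 1) (.cons (.rf (nat_lit 455) (nat_lit 583706118939841765935136)) (.cons (.br (nat_lit 14) (nat_lit 1) (.cons (.rf (nat_lit 455) (nat_lit 583706118939841765935136)) (.cons (.br (nat_lit 15) (nat_lit 1) (.cons (.rf (nat_lit 456) (nat_lit 21174442659472880612543553)) (.cons (.rf (nat_lit 456) (nat_lit 20003295771721208599546945)) .nil))) .nil))) .nil))) .nil))) (.cons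 (.br (nat_lit 14) (nat_lit 1) (.cons (.ev (nat_lit 5192297169228763269490198523740416) (nat_lit 1)) (.cons (.br (nat_lit 13) (nat_lit 1) (.cons (.rf (nat_lit 457) (nat_lit 18240816215735075440672)) (.cons (.br (nat_lit 13) (nat_lit 1) (.cons (.rf (nat_lit 457) (nat_lit 18240816215735075440672)) (.cons (.br (nat_lit 15) (nat_lit 1) (.cons (.rf (nat_lit 458) (nat_lit 21174442659472880612543553)) (.cons (.rf (nat_lit 458) (nat_lit 20003295771721208599546945)) .nil))) .nil))) .nil))) .nil))) (.cons (.br (nat_lit 13) (nat_lit 1) (.cons (.rf (nat_lit 459) (nat_lit 583706118939841765935136)) (.cons (.rf (nat_lit 461) (nat_lit 583706118939841765935136)) (.cons (.br (nat_lit 13) (nat_lit 1) (.cons (.rf (nat_lit 459) (nat_lit 583706118939841765935136)) (.cons (.rf (nat_lit 461) (nat_lit 583706118939841765935136)) (.cons (.br (nat_lit 14) (nat_lit 1) (.cons (.rf (nat_lit 463) (nat_lit 677582165103132179601393696)) (.cons (.rf (nat_lit 464) (nat_lit 677582165103132179601393696)) (.cons (.rf (nat_lit 464) (nat_lit 640105464695078675185502240))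 .nil)))) .nil)))) .nil)))) .nil)))) .nil))),
 (.br (nat_lit 14) (nat_lit 1) (.cons (.br (nat_lit 15) (nat_lit 1) (.cons (.ev (nat_lit 7985833698069820054566660888537989893) (nat_lit 3)) (.cons (.br (nat_lit 16) (nat_lit 1) (.cons (.br (nat_lit 16) (nat_lit 1) .nil) .nil)) .nil))) .nil)),
 (.br (nat_lit 14) (nat_lit 1) (.cons (.ev (nat_lit 5253382701502003227345594863387392) (nat_lit 2)) .nil)),
 (.br (nat_lit 14) (nat_lit 1) (.cons (.ev (nat_lit 5253382701502003227345594863387392) (nat_lit 2)) .nil)),
 (.br (nat_lit 9) (nat_lit 1) (.cons (.br (nat_lit 9) (nat_lit 1) .nil) .nil)),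
 (.br (nat_lit 12) (nat_lit 1) (.cons (.ev (nat_lit 41040811992852806497842229413639) (nat_lit 3)) (.cons (.br (nat_lit 14) (nat_lit 1) (.cons (.br (nat_lit 15) (nat_lit 1) (.cons (.ev (nat_lit 1329248357422682038910907674401964288) (nat_lit 1)) (.cons (.rf (nat_lit 73) (nat_lit 596107073544431714)) .nil))) (.cons (.br (nat_lit 16) (nat_lit 1) (.cons (.ev (nat_lit 340282387282577443277495749050166673408) (nat_lit 1)) (.cons (.rf (nat_lit 469) (nat_lit 631047566517311586)) .nil))) (.cons (.br (nat_lit 15) (nat_lit 1) (.cons (.br (nat_lit 15) (nat_lit 1) (.cons (.ev (nat_lit 2668881308562438510640916588413452545) (nat_lit 2)) .nil)) (.cons (.br (nat_lit 15) (nat_lit 1) (.cons (.ev (nat_lit 2668881308562438510640916588413452545) (nat_lit 2)) .nil)) .nil))) .nil)))) .nil))),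
 (.br (nat_lit 10) (nat_lit 1) (.cons (.br (nat_lit 10) (nat_lit 1) .nil) .nil)),
 (.br (nat_lit 14) (nat_lit 1) (.cons (.br (nat_lit 16) (nat_lit 1) (.cons (.ev (nat_lit 2047042267608072248185616285210962690821) (nat_lit 3)) .nil)) .nil)),
 (.br (nat_lit 12) (nat_lit 1) (.cons (.ev (nat_lit 41040811992852806497842229413639) (nat_lit 3)) (.cons (.br (nat_lit 15) (nat_lit 1) (.cons (.br (nat_lit 14) (nat_lit 1) (.cons (.ev (nat_lit 2668881308562438510640916588413452545) (nat_lit 2)) (.cons (.rf (nat_lit 471) (nat_lit 631047566517311586)) .nil))) (.cons (.br (nat_lit 16) (nat_lit 1) (.cons (.ev (nat_lit 683223189834065733433013312326274646275) (nat_lit 2)) (.cons (.rf (nat_lit 70) (nat_lit 631009970656553058)) .nil))) (.cons (.br (nat_lit 14) (nat_lit 1) (.cons (.rf (nat_lit 472) (nat_lit 677582165103132179601393696)) (.cons (.br (nat_lit 14) (nat_lit 1) (.cons (.rf (nat_lit 472) (nat_lit 677582165103132179601393696)) .nil)) .nil))) .nil)))) .nil))),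
 (.br (nat_lit 15) (nat_lit 1) (.cons (.ev (nat_lit 344270050908294420026568560110509097475) (nat_lit 2)) (.cons (.rf (nat_lit 115) (nat_lit 20002034255833825695336480)) .nil))),
 (.br (nat_lit 14) (nat_lit 1) (.cons (.rf (nat_lit 474) (nat_lit 677582165103132179601393696)) (.cons (.rf (nat_lit 474) (nat_lit 640105464695078675185502240)) .nil))),
 (.br (nat_lit 14) (nat_lit 1) (.cons (.rf (nat_lit 475) (nat_lit 677582165103132179601393696)) (.cons (.br (nat_lit 16) (nat_lit 1) (.cons (.br (nat_lit 15) (nat_lit 1) (.cons (.ev (nat_lit 1329248357422682038910907674401964288) (nat_lit 1)) .nil)) (.cons (.kr (nat_lit 340282366920938463463374607431768211456) (nat_lit 87112285931760246646623899502532662132736) (nat_lit 16) (nat_lit 0)) .nil))) .nil))),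
 (.br (nat_lit 11) (nat_lit 1) (.cons (.ev (nat_lit 621392649133315927465525505) (nat_lit 2)) (.cons (.br (nat_lit 13) (nat_lit 1) (.cons (.br (nat_lit 12) (nat_lit 1) (.cons (.zr (nat_lit 158458742880169031449150750723) (nat_lit 40565438182100690253122726003456) (nat_lit 8) (nat_lit 4)) (.cons (.br (nat_lit 14) (nat_lit 1) (.cons (.rf (nat_lit 466) (nat_lit 583706118939841765935136)) (.cons (.br (nat_lit 14) (nat_lit 1) (.cons (.rf (nat_lit 466) (nat_lit 583706118939841765935136)) (.cons (.br (nat_lit 15) (nat_lit 1) (.cons (.rf (nat_lit 467) (nat_lit 21174442659472880612543553)) (.cons (.rf (nat_lit 467) (nat_lit 20003295771721208599546945)) .nil))) .nil))) .nil))) .nil))) (.cons (.br (nat_lit 14) (nat_lit 1) (.cons (.ev (nat_lit 5192297168019855968677232818323713) (nat_lit 1)) (.cons (.br (nat_lit 12) (nat_lit 1) (.cons (.rf (nat_lit 108) (nat_lit 18159891950170202540064)) (.cons (.br (nat_lit 12) (nat_lit 1) (.cons (.rf (nat_lit 108) (nat_lit 18159891950170202540064)) (.cons (.br (nat_lit 15) (nat_lit 1) (.cons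 (.rf (nat_lit 468) (nat_lit 21174442659472880612543553)) (.cons (.rf (nat_lit 468) (nat_lit 20003295771721208599546945)) .nil))) .nil))) .nil))) .nil))) (.cons (.br (nat_lit 12) (nat_lit 1) (.cons (.rf (nat_lit 470) (nat_lit 583706118939841765935136)) (.cons (.rf (nat_lit 473) (nat_lit 583706118939841765935136)) (.cons (.br (nat_lit 12) (nat_lit 1) (.cons (.rf (nat_lit 470) (nat_lit 583706118939841765935136)) (.cons (.rf (nat_lit 473) (nat_lit 583706118939841765935136)) (.cons (.br (nat_lit 14) (nat_lit 1) (.cons (.rf (nat_lit 475) (nat_lit 677582165103132179601393696)) (.cons (.rf (nat_lit 476) (nat_lit 677582165103132179601393696)) (.cons (.rf (nat_lit 476) (nat_lit 640105464695078675185502240)) .nil)))) .nil)))) .nil)))) .nil)))) .nil))),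
 (.br (nat_lit 15) (nat_lit 1) (.cons (.br (nat_lit 16) (nat_lit 1) (.cons (.ev (nat_lit 2049690419818658028343670142284784075527) (nat_lit 3)) .nil)) .nil)),
 (.br (nat_lit 13) (nat_lit 1) (.cons (.ev (nat_lit 40723275537109576241475194323201) (nat_lit 2)) (.cons (.kr (nat_lit 311902861604689515150049282) (nat_lit 20361637770888301526984928854272) (nat_lit 0) (nat_lit 3)) (.cons (.br (nat_lit 14) (nat_lit 1) (.cons (.ev (nat_lit 5192297168024559888417132560580608) (nat_lit 1)) (.cons (.ev (nat_lit 5212658496300993635631110450839808) (nat_lit 1)) (.cons (.br (nat_lit 15) (nat_lit 1) (.cons (.rf (nat_lit 478) (nat_lit 677582165103132179601393696)) (.cons (.br (nat_lit 15) (nat_lit 1) (.cons (.rf (nat_lit 478) (nat_lit 677582165103132179601393696)) .nil)) .nil))) .nil)))) .nil)))),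
 (.br (nat_lit 15) (nat_lit 1) (.cons (.br (nat_lit 16) (nat_lit 1) (.cons (.ev (nat_lit 683243959339031492931053180370670715653) (nat_lit 3)) .nil)) .nil)),
 (.br (nat_lit 14) (nat_lit 1) (.cons (.ev (nat_lit 5192297169233504082718237095165953) (nat_lit 1)) (.cons (.ev (nat_lit 5212658497509937829932214985425153) (nat_lit 1)) (.cons (.br (nat_lit 15) (nat_lit 1) (.cons (.rf (nat_lit 480) (nat_lit 677582165103132179601393696)) (.cons (.br (nat_lit 15) (nat_lit 1) (.cons (.rf (nat_lit 480) (nat_lit 677582165103132179601393696)) .nil)) .nil))) .nil)))),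
 (.br (nat_lit 14) (nat_lit 1) (.cons (.br (nat_lit 15) (nat_lit 1) (.cons (.ev (nat_lit 2041725355624937420323780769550740882177) (nat_lit 3)) (.cons (.ev (nat_lit 2668881308562438510640916588413452545) (nat_lit 2)) .nil))) (.cons (.br (nat_lit 15) (nat_lit 1) (.cons (.ev (nat_lit 2668881308562438510640916588413452545) (nat_lit 2)) (.cons (.ev (nat_lit 174224582329245089140141764394952526267139) (nat_lit 3)) .nil))) .nil))),
 (.br (nat_lit 14) (nat_lit 1) (.cons (.rf (nat_lit 482) (nat_lit 677582165103132179601393696)) (.cons (.br (nat_lit 16) (nat_lit 1) (.cons (.br (nat_lit 15) (nat_lit 1) (.cons (.ev (nat_lit 2668840585905876161521158455396663555) (nat_lit 2)) .nil)) (.cons (.ev (nat_lit 88133133032523065663846894458535002898945) (nat_lit 2)) .nil))) .nil))),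
 (.br (nat_lit 12) (nat_lit 1) (.cons (.rf (nat_lit 479) (nat_lit 583706118939841765935136)) (.cons (.rf (nat_lit 479) (nat_lit 547107778697602015528992)) (.cons (.br (nat_lit 13) (nat_lit 1) (.cons (.rf (nat_lit 481) (nat_lit 19926519232773908561233952)) (.cons (.rf (nat_lit 481) (nat_lit 19889920892531668810827808)) (.cons (.ev (nat_lit 40723275537109576241475194323201) (nat_lit 2)) (.cons (.br (nat_lit 14) (nat_lit 1) (.cons (.rf (nat_lit 482) (nat_lit 677582165103132179601393696)) (.cons (.rf (nat_lit 483) (nat_lit 677582165103132179601393696)) (.cons (.br (nat_lit 14) (nat_lit 1) (.cons (.rf (nat_lit 482) (nat_lit 677582165103132179601393696)) (.cons (.rf (nat_lit 483) (nat_lit 677582165103132179601393696)) .nil))) .nil)))) .nil))))) .nil)))),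
 (.br (nat_lit 10) (nat_lit 1) (.cons (.br (nat_lit 10) (nat_lit 1) .nil) .nil)),
 (.br (nat_lit 14) (nat_lit 1) (.cons (.ev (nat_lit 5192376396187092527441205776089088) (nat_lit 1)) (.cons (.rf (nat_lit 485) (nat_lit 593856550239671361)) .nil))),
 (.br (nat_lit 13) (nat_lit 1) (.cons (.ev (nat_lit 40723277954924466097782823977219) (nat_lit 2)) (.cons (.rf (nat_lit 486) (nat_lit 622703726024184642538560)) .nil))),
 (.br (nat_lit 13) (nat_lit 1) (.cons (.ev (nat_lit 2668881308564856325530772896043106563) (nat_lit 2)) .nil)),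
 (.br (nat_lit 10) (nat_lit 1) (.cons (.br (nat_lit 10) (nat_lit 1) .nil) .nil)),
 (.br (nat_lit 7) (nat_lit 1) (.cons (.br (nat_lit 7) (nat_lit 1) .nil) .nil)),
 (.br (nat_lit 12) (nat_lit 1) (.cons (.br (nat_lit 14) (nat_lit 1) (.cons (.ev (nat_lit 341627232893141950994762821079570383616) (nat_lit 2)) .nil)) .nil)),
 (.br (nat_lit 15) (nat_lit 1) (.cons (.br (nat_lit 13) (nat_lit 1) (.cons (.ev (nat_lit 2049669569818495706595432428934447629057) (nat_lit 3)) (.cons (.ev (nat_lit 2668881308562438510640916588413452545) (nat_lit 2)) .nil))) (.cons (.ev (nat_lit 2668840585908294050197991040684654849) (nat_lit 2)) .nil))),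
 (.br (nat_lit 12) (nat_lit 1) (.cons (.rf (nat_lit 484) (nat_lit 583706118939841765935136)) (.cons (.br (nat_lit 14) (nat_lit 1) (.cons (.rf (nat_lit 487) (nat_lit 583706118939841765935136)) (.cons (.ev (nat_lit 5192297168024559888417132560580608) (nat_lit 1)) (.cons (.br (nat_lit 15) (nat_lit 1) (.cons (.rf (nat_lit 487) (nat_lit 547107778697602015528992)) (.cons (.ev (nat_lit 2668840585905876161521158455396663555) (nat_lit 2)) (.cons (.br (nat_lit 13) (nat_lit 1) (.cons (.rf (nat_lit 488) (nat_lit 677582165103132179601393696)) (.cons (.rf (nat_lit 488) (nat_lit 640068866354836435435096096)) .nil))) .nil)))) .nil)))) (.cons (.br (nat_lit 14) (nat_lit 1) (.cons (.br (nat_lit 13) (nat_lit 1) (.cons (.br (nat_lit 15) (nat_lit 1) (.cons (.ev (nat_lit 1329248357422682038910907674401964288) (nat_lit 1)) (.cons (.rf (nat_lit 489) (nat_lit 631047566517311586)) .nil))) (.cons (.ev (nat_lit 40723277954924466097782823977219) (nat_lit 2)) (.cons (.br (nat_lit 15) (nat_lit 1) (.cons (.br (nat_lit 15) (nat_lit 1) (.cons (.ev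 (nat_lit 1344865972204691753288090584847941633) (nat_lit 2)) .nil)) (.cons (.br (nat_lit 15) (nat_lit 1) (.cons (.ev (nat_lit 1344865972204691753288090584847941633) (nat_lit 2)) .nil)) .nil))) .nil)))) (.cons (.ev (nat_lit 5192297168024559888417132560580608) (nat_lit 1)) (.cons (.br (nat_lit 16) (nat_lit 1) (.cons (.ev (nat_lit 680575118752513904934796233101531284227) (nat_lit 3)) (.cons (.br (nat_lit 15) (nat_lit 1) (.cons (.ev (nat_lit 2668840585908294050197991040684654849) (nat_lit 2)) (.cons (.rf (nat_lit 490) (nat_lit 631047566517311586)) .nil))) (.cons (.br (nat_lit 13) (nat_lit 1) (.cons (.rf (nat_lit 491) (nat_lit 21174442659472880612543553)) (.cons (.br (nat_lit 13) (nat_lit 1) (.cons (.rf (nat_lit 491) (nat_lit 21174442659472880612543553)) .nil)) .nil))) .nil)))) (.cons (.br (nat_lit 13) (nat_lit 1) (.cons (.rf (nat_lit 492) (nat_lit 677582165103132179601393696)) (.cons (.br (nat_lit 13) (nat_lit 1) (.cons (.rf (nat_lit 492) (nat_lit 677582165103132179601393696)) (.cons (.ev (nat_lit 5212658497509937829932214985425153)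 (nat_lit 1)) .nil))) (.cons (.br (nat_lit 13) (nat_lit 1) (.cons (.rf (nat_lit 492) (nat_lit 677582165103132179601393696)) (.cons (.ev (nat_lit 5212658497509937829932214985425153) (nat_lit 1)) .nil))) .nil)))) .nil))))) .nil))))]

theorem c15 : chkAll C T R L15 (nat_lit 463) = true := by decide +kernel

theorem l15 : (nat_lit 463) + L15.length = (nat_lit 494) := by decide +kernel

/-- part of the certificates -/
def L16 : List Prf := [(.br (nat_lit 13) (nat_lit 1) (.cons (.br (nat_lit 15) (nat_lit 1) (.cons (.ev (nat_lit 2668840585905876161521158455396663555) (nat_lit 2)) (.cons (.ev (nat_lit 2668881308564856325530772896043106563) (nat_lit 2)) .nil))) (.cons (.ev (nat_lit 2041725436436420409130551919897846350593) (nat_lit 3)) (.cons (.ev (nat_lit 5212658496300993635631110450839808) (nat_lit 1)) .nil)))),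
 (.br (nat_lit 14) (nat_lit 1) (.cons (.ev (nat_lit 5192297169233504082718237095165953) (nat_lit 1)) (.cons (.rf (nat_lit 494) (nat_lit 677582165103132179601393696)) (.cons (.rf (nat_lit 494) (nat_lit 640105464695078675185502240)) .nil)))),
 (.br (nat_lit 13) (nat_lit 1) (.cons (.rf (nat_lit 495) (nat_lit 677582165103132179601393696)) (.cons (.rf (nat_lit 495) (nat_lit 677545566762889939850987552)) (.cons (.ev (nat_lit 40723277954924466097782823977219) (nat_lit 2)) .nil)))),
 (.br (nat_lit 6) (nat_lit 1) (.cons (.ev (nat_lit 18518801667764322561) (nat_lit 1)) (.cons (.ev (nat_lit 1208925819614633469739264) (nat_lit 1)) (.cons (.br (nat_lit 7) (nat_lit 1) (.cons (.ev (nat_lit 2422592596574701233504515) (nat_lit 2)) (.cons (.br (nat_lit 10) (nat_lit 1) (.cons (.ev (nat_lit 1208944482531497899852291) (nat_lit 2)) (.cons (.br (nat_lit 11) (nat_lit 1) (.cons (.ev (nat_lit 1242780520704591607980491521) (nat_lit 3)) (.cons (.br (nat_lit 12) (nat_lit 1) (.cons (.rf (nat_lit 444) (nat_lit 493858305440582043680)) (.cons (.br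 (nat_lit 12) (nat_lit 1) (.cons (.rf (nat_lit 444) (nat_lit 493858305440582043680)) (.cons (.br (nat_lit 13) (nat_lit 1) (.cons (.rf (nat_lit 446) (nat_lit 583706118939841765935136)) (.cons (.rf (nat_lit 446) (nat_lit 547107778697602015528992)) (.cons (.br (nat_lit 13) (nat_lit 1) (.cons (.rf (nat_lit 446) (nat_lit 583706118939841765935136)) (.cons (.rf (nat_lit 446) (nat_lit 547107778697602015528992)) (.cons (.br (nat_lit 14) (nat_lit 1) (.cons (.rf (nat_lit 448) (nat_lit 677582165103132179601393696)) (.cons (.rf (nat_lit 449) (nat_lit 677582165103132179601393696)) (.cons (.rf (nat_lit 449) (nat_lit 640105464695078675185502240)) .nil)))) .nil)))) .nil)))) .nil))) .nil))) .nil))) .nil))) (.cons (.br (nat_lit 10) (nat_lit 1) (.cons (.br (nat_lit 11) (nat_lit 1) (.cons (.ev (nat_lit 1240362632026633105538417411) (nat_lit 3)) (.cons (.br (nat_lit 12) (nat_lit 1) (.cons (.rf (nat_lit 49) (nat_lit 426517047394)) (.cons (.br (nat_lit 12) (nat_lit 1) (.cons (.rf (nat_lit 49) (nat_lit 426517047394)) (.cons (.br (nat_lit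 13) (nat_lit 1) (.cons (.rf (nat_lit 451) (nat_lit 583706118939841765935136)) (.cons (.rf (nat_lit 451) (nat_lit 547107778697602015528992)) (.cons (.br (nat_lit 13) (nat_lit 1) (.cons (.rf (nat_lit 451) (nat_lit 583706118939841765935136)) (.cons (.rf (nat_lit 451) (nat_lit 547107778697602015528992)) (.cons (.br (nat_lit 14) (nat_lit 1) (.cons (.rf (nat_lit 453) (nat_lit 677582165103132179601393696)) (.cons (.rf (nat_lit 454) (nat_lit 677582165103132179601393696)) (.cons (.rf (nat_lit 454) (nat_lit 640105464695078675185502240)) .nil)))) .nil)))) .nil)))) .nil))) .nil))) .nil))) (.cons (.ev (nat_lit 1208944482531497899852291) (nat_lit 2)) (.cons (.br (nat_lit 11) (nat_lit 1) (.cons (.rf (nat_lit 465) (nat_lit 493858305440582043680)) (.cons (.rf (nat_lit 477) (nat_lit 493858305440582043680)) (.cons (.br (nat_lit 11) (nat_lit 1) (.cons (.rf (nat_lit 465) (nat_lit 493858305440582043680)) (.cons (.rf (nat_lit 477) (nat_lit 493858305440582043680)) (.cons (.br (nat_lit 12) (nat_lit 1) (.cons (.rf (nat_lit 484) (nat_lit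 583706118939841765935136)) (.cons (.rf (nat_lit 493) (nat_lit 583706118939841765935136)) (.cons (.rf (nat_lit 493) (nat_lit 547107778697602015528992)) (.cons (.br (nat_lit 12) (nat_lit 1) (.cons (.rf (nat_lit 484) (nat_lit 583706118939841765935136)) (.cons (.rf (nat_lit 493) (nat_lit 583706118939841765935136)) (.cons (.rf (nat_lit 493) (nat_lit 547107778697602015528992)) (.cons (.br (nat_lit 13) (nat_lit 1) (.cons (.rf (nat_lit 495) (nat_lit 677582165103132179601393696)) (.cons (.rf (nat_lit 495) (nat_lit 677545566762889939850987552)) (.cons (.rf (nat_lit 496) (nat_lit 677582165103132179601393696)) (.cons (.rf (nat_lit 496) (nat_lit 640105464695078675185502240)) .nil))))) .nil))))) .nil))))) .nil)))) .nil)))) .nil)))) .nil)))) .nil)))),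
 (.br (nat_lit 14) (nat_lit 1) (.cons (.br (nat_lit 15) (nat_lit 1) (.cons (.ev (nat_lit 5337681171816583322833941834418750209) (nat_lit 3)) (.cons (.rf (nat_lit 80) (nat_lit 631044017904560354)) .nil))) .nil)),
 (.br (nat_lit 13) (nat_lit 1) (.cons (.kr (nat_lit 79537652246452447006890656000) (nat_lit 20282410812595936783749647237120) (nat_lit 1) (nat_lit 0)) .nil)),
 (.br (nat_lit 13) (nat_lit 1) (.cons (.rf (nat_lit 499) (nat_lit 583706118939841765935136)) (.cons (.rf (nat_lit 499) (nat_lit 547107778697602015528992)) .nil))),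
 (.br (nat_lit 12) (nat_lit 1) (.cons (.br (nat_lit 13) (nat_lit 1) (.cons (.ev (nat_lit 81446551069441590442703437562625) (nat_lit 3)) (.cons (.br (nat_lit 14) (nat_lit 1) (.cons (.rf (nat_lit 498) (nat_lit 583706118939841765935136)) (.cons (.br (nat_lit 14) (nat_lit 1) (.cons (.rf (nat_lit 498) (nat_lit 583706118939841765935136)) (.cons (.rf (nat_lit 500) (nat_lit 661701333108492051024961)) .nil))) .nil))) .nil))) .nil)),
 (.br (nat_lit 15) (nat_lit 1) (.cons (.ev (nat_lit 20769505584734258496355784686962433) (nat_lit 3)) (.cons (.br (nat_lit 16) (nat_lit 1) (.cons (.ev (nat_lit 20850317077394472400883917494028033) (nat_lit 3)) (.cons (.ev (nat_lit 1366446379668136297865818249576174715649) (nat_lit 3)) .nil))) .nil))),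
 (.br (nat_lit 13) (nat_lit 1) (.cons (.ev (nat_lit 41042047515077202017428631978753) (nat_lit 3)) (.cons (.br (nat_lit 15) (nat_lit 1) (.cons (.ev (nat_lit 20769505584734258496355784686962433) (nat_lit 3)) (.cons (.rf (nat_lit 502) (nat_lit 19926519232773908561233952)) (.cons (.br (nat_lit 15) (nat_lit 1) (.cons (.ev (nat_lit 20769505584734258496355784686962433) (nat_lit 3)) (.cons (.rf (nat_lit 502) (nat_lit 19926519232773908561233952)) .nil))) .nil)))) .nil))),
 (.br (nat_lit 15) (nat_lit 1) (.cons (.ev (nat_lit 1361150236872430773684717143320370217729) (nat_lit 3)) (.cons (.zr (nat_lit 2668840585905871476191712659940442115) (nat_lit 40881731862082765812540083536128) (nat_lit 8) (nat_lit 1)) .nil))),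
 (.br (nat_lit 14) (nat_lit 1) (.cons (.rf (nat_lit 504) (nat_lit 677582165103132179601393696)) (.cons (.rf (nat_lit 504) (nat_lit 640105464695078675185502240)) .nil))),
 (.br (nat_lit 14) (nat_lit 1) (.cons (.rf (nat_lit 505) (nat_lit 677582165103132179601393696)) (.cons (.br (nat_lit 16) (nat_lit 1) (.cons (.br (nat_lit 15) (nat_lit 1) (.cons (.ev (nat_lit 1334461095769742399324703512777130242) (nat_lit 2)) .nil)) (.cons (.ev (nat_lit 1361150236872430773684717143320370217729) (nat_lit 3)) .nil))) .nil))),
 (.br (nat_lit 14) (nat_lit 1) (.cons (.br (nat_lit 15) (nat_lit 1) (.cons (.ev (nat_lit 344285648160819707685430982127707685120) (nat_lit 2)) .nil)) .nil)),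
 (.br (nat_lit 13) (nat_lit 1) (.cons (.zr (nat_lit 20282409603725529457836211372034) (nat_lit 79538865894639111853710508032) (nat_lit 8) (nat_lit 1)) (.cons (.br (nat_lit 14) (nat_lit 1) (.cons (.ev (nat_lit 31153941466866682575002137928925953) (nat_lit 3)) (.cons (.ev (nat_lit 31194347208361160036914297672173313) (nat_lit 3)) (.cons (.br (nat_lit 15) (nat_lit 1) (.cons (.rf (nat_lit 507) (nat_lit 21174442659472880612543553)) (.cons (.br (nat_lit 15) (nat_lit 1) (.cons (.rf (nat_lit 507) (nat_lit 21174442659472880612543553)) .nil)) .nil))) .nil)))) .nil))),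
 (.br (nat_lit 15) (nat_lit 1) (.cons (.kr (nat_lit 5192296858534827628530496329220096) (nat_lit 1329227995784915872903807060280344576) (nat_lit 14) (nat_lit 0)) (.cons (.ev (nat_lit 1334440575363753028656949244626796545) (nat_lit 1)) .nil))),
 (.br (nat_lit 14) (nat_lit 1) (.cons (.rf (nat_lit 509) (nat_lit 677582165103132179601393696)) (.cons (.rf (nat_lit 509) (nat_lit 640105464695078675185502240)) .nil))),
 (.br (nat_lit 14) (nat_lit 1) (.cons (.rf (nat_lit 510) (nat_lit 677582165103132179601393696)) (.cons (.br (nat_lit 16) (nat_lit 1) (.cons (.br (nat_lit 15) (nat_lit 1) (.cons (.ev (nat_lit 87452568318963905412415398721652447576065) (nat_lit 1)) .nil)) (.cons (.kr (nat_lit 340282366920938463463374607431768211456) (nat_lit 87112285931760246646623899502532662132736) (nat_lit 16) (nat_lit 0)) .nil))) .nil))),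
 (.br (nat_lit 10) (nat_lit 1) (.cons (.ev (nat_lit 621392649133315927465525505) (nat_lit 2)) (.cons (.br (nat_lit 12) (nat_lit 1) (.cons (.rf (nat_lit 49) (nat_lit 426512821443)) (.cons (.br (nat_lit 12) (nat_lit 1) (.cons (.rf (nat_lit 49) (nat_lit 426512821443)) (.cons (.br (nat_lit 13) (nat_lit 1) (.cons (.rf (nat_lit 508) (nat_lit 583706118939841765935136)) (.cons (.rf (nat_lit 508) (nat_lit 547107778697602015528992)) (.cons (.br (nat_lit 13) (nat_lit 1) (.cons (.rf (nat_lit 508) (nat_lit 583706118939841765935136)) (.cons (.rf (nat_lit 508) (nat_lit 547107778697602015528992)) (.cons (.br (nat_lit 14) (nat_lit 1) (.cons (.rf (nat_lit 510) (nat_lit 677582165103132179601393696)) (.cons (.rf (nat_lit 511) (nat_lit 677582165103132179601393696)) (.cons (.rf (nat_lit 511) (nat_lit 640105464695078675185502240)) .nil)))) .nil)))) .nil)))) .nil))) .nil))) .nil))),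
 (.br (nat_lit 13) (nat_lit 1) (.cons (.br (nat_lit 14) (nat_lit 1) (.cons (.ev (nat_lit 5212579268143201737496011070308608) (nat_lit 1)) (.cons (.rf (nat_lit 66) (nat_lit 558916052970776738)) .nil))) .nil)),
 (.br (nat_lit 13) (nat_lit 1) (.cons (.kr (nat_lit 79537652246452447006890656000) (nat_lit 20282410812595936783749647237120) (nat_lit 1) (nat_lit 0)) .nil)),
 (.br (nat_lit 13) (nat_lit 1) (.cons (.rf (nat_lit 514) (nat_lit 583706118939841765935136)) (.cons (.rf (nat_lit 514) (nat_lit 547107778697602015528992)) .nil))),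
 (.br (nat_lit 11) (nat_lit 1) (.cons (.kr (nat_lit 79229371440084233697695367424) (nat_lit 309489732187829037881688064) (nat_lit 1) (nat_lit 0)) (.cons (.br (nat_lit 12) (nat_lit 1) (.cons (.ev (nat_lit 79538856449977636364753043456) (nat_lit 1)) (.cons (.br (nat_lit 13) (nat_lit 1) (.cons (.rf (nat_lit 513) (nat_lit 17022140995484340291616)) (.cons (.br (nat_lit 13) (nat_lit 1) (.cons (.rf (nat_lit 513) (nat_lit 17022140995484340291616)) (.cons (.rf (nat_lit 515) (nat_lit 622703726024149174421536)) .nil))) .nil))) .nil))) .nil))),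
 (.br (nat_lit 13) (nat_lit 1) (.cons (.br (nat_lit 15) (nat_lit 1) (.cons (.zr (nat_lit 82238832741752413733694782572288) (nat_lit 5316911983151752842333893725113286657) (nat_lit 24) (nat_lit 0)) (.cons (.rf (nat_lit 172) (nat_lit 631047533093006403)) .nil))) .nil)),
 (.br (nat_lit 15) (nat_lit 1) (.cons (.ev (nat_lit 10384593719492247853633494835004161) (nat_lit 2)) (.cons (.ev (nat_lit 10384752173399461492454573350191361) (nat_lit 2)) (.cons (.zr (nat_lit 2658455992188801820934651667282001923) (nat_lit 10425158536281680965523158566174976) (nat_lit 8) (nat_lit 1)) .nil)))),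
 (.br (nat_lit 15) (nat_lit 1) (.cons (.ev (nat_lit 10384593719492247853633494835004161) (nat_lit 2)) (.cons (.ev (nat_lit 10384752173399461492454573350191361) (nat_lit 2)) (.cons (.rf (nat_lit 518) (nat_lit 677582165103132179601393696)) (.cons (.rf (nat_lit 518) (nat_lit 640105464695078675185502240)) .nil))))),
 (.br (nat_lit 13) (nat_lit 1) (.cons (.ev (nat_lit 20282720302328124611692312199168) (nat_lit 1)) .nil)),
 (.br (nat_lit 13) (nat_lit 1) (.cons (.ev (nat_lit 41042052350854555687031547365121) (nat_lit 3)) (.cons (.br (nat_lit 14) (nat_lit 1) (.cons (.br (nat_lit 15) (nat_lit 1) (.cons (.ev (nat_lit 2658496715464338838133618345339126529) (nat_lit 2)) (.cons (.rf (nat_lit 98) (nat_lit 629811498724011203)) .nil))) (.cons (.br (nat_lit 16) (nat_lit 1) (.cons (.ev (nat_lit 340287559297025165546153042633539190785) (nat_lit 1)) (.cons (.rf (nat_lit 89) (nat_lit 560005704499768515)) .nil))) (.cons (.br (nat_lit 15) (nat_lit 1) (.cons (.rf (nat_lit 520) (nat_lit 20678166659641484973154)) (.cons (.br (nat_lit 15)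 (nat_lit 1) (.cons (.rf (nat_lit 520) (nat_lit 20678166659641484973154)) .nil)) .nil))) .nil)))) .nil))),
 (.br (nat_lit 15) (nat_lit 1) (.cons (.ev (nat_lit 1369135989440852502947617338491924514561) (nat_lit 3)) (.cons (.zr (nat_lit 2668840585905871624053895625903046663) (nat_lit 40881736716675512463131269923072) (nat_lit 24) (nat_lit 1)) .nil))),
 (.br (nat_lit 14) (nat_lit 1) (.cons (.rf (nat_lit 522) (nat_lit 677582165103132179601393696)) (.cons (.rf (nat_lit 522) (nat_lit 640105464695078675185502240)) .nil)))]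

theorem c16 : chkAll C T R L16 (nat_lit 494) = true := by decide +kernel

theorem l16 : (nat_lit 494) + L16.length = (nat_lit 524) := by decide +kernel

/-- part of the certificates -/
def L17 : List Prf := [(.br (nat_lit 14) (nat_lit 1) (.cons (.rf (nat_lit 523) (nat_lit 677582165103132179601393696)) (.cons (.ev (nat_lit 10425159157669607731224814626537729) (nat_lit 2)) .nil))),
 (.br (nat_lit 10) (nat_lit 1) (.cons (.rf (nat_lit 516) (nat_lit 15433072045018188865)) (.cons (.br (nat_lit 12) (nat_lit 1) (.cons (.rf (nat_lit 516) (nat_lit 15361074781308062949)) (.cons (.br (nat_lit 14) (nat_lit 1) (.cons (.zr (nat_lit 476606938736703820188683862273) (nat_lit 20769187436557217494149713316806656) (nat_lit 8) (nat_lit 0)) (.cons (.br (nat_lit 13) (nat_lit 1) (.cons (.rf (nat_lit 517) (nat_lit 583706118939841765935136)) (.cons (.br (nat_lit 13) (nat_lit 1) (.cons (.rf (nat_lit 517) (nat_lit 583706118939841765935136)) (.cons (.rf (nat_lit 519) (nat_lit 677582165103132179601393696)) .nil))) .nil))) .nil))) (.cons (.br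 (nat_lit 13) (nat_lit 1) (.cons (.rf (nat_lit 521) (nat_lit 583706118939841765935136)) (.cons (.rf (nat_lit 521) (nat_lit 547105474785163291499689)) (.cons (.br (nat_lit 13) (nat_lit 1) (.cons (.rf (nat_lit 521) (nat_lit 583706118939841765935136)) (.cons (.rf (nat_lit 521) (nat_lit 547105474785163291499689)) (.cons (.br (nat_lit 14) (nat_lit 1) (.cons (.rf (nat_lit 523) (nat_lit 677582165103132179601393696)) (.cons (.rf (nat_lit 524) (nat_lit 677582165103132179601393696)) (.cons (.rf (nat_lit 524) (nat_lit 640105464695078675185502240)) .nil)))) .nil)))) .nil)))) .nil)))) .nil))),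
 (.br (nat_lit 12) (nat_lit 1) (.cons (.br (nat_lit 15) (nat_lit 1) (.cons (.ev (nat_lit 2658496715464338838133618345339126529) (nat_lit 2)) (.cons (.rf (nat_lit 63) (nat_lit 631045150699072707)) .nil))) .nil)),
 (.br (nat_lit 13) (nat_lit 1) (.cons (.kr (nat_lit 20282719093383858533360597991680) (nat_lit 79229371458530697395939901440) (nat_lit 1) (nat_lit 0)) .nil)),
 (.br (nat_lit 13) (nat_lit 1) (.cons (.rf (nat_lit 527) (nat_lit 583706118939841765935136)) (.cons (.rf (nat_lit 527) (nat_lit 547107778697602015528992)) .nil))),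
 (.br (nat_lit 13) (nat_lit 1) (.cons (.ev (nat_lit 20282720302328124611692312199168) (nat_lit 1)) .nil)),
 (.br (nat_lit 12) (nat_lit 1) (.cons (.br (nat_lit 14) (nat_lit 1) (.cons (.ev (nat_lit 10384752173399461492454573350191361) (nat_lit 2)) (.cons (.br (nat_lit 15) (nat_lit 1) (.cons (.ev (nat_lit 1334440575363753028656949244626796545) (nat_lit 1)) (.cons (.rf (nat_lit 69) (nat_lit 596107069248416963)) .nil))) .nil))) (.cons (.br (nat_lit 14) (nat_lit 1) (.cons (.br (nat_lit 15) (nat_lit 1) (.cons (.ev (nat_lit 7985752728128088256513667964675817733) (nat_lit 3)) (.cons (.rf (nat_lit 73) (nat_lit 596107069248416963)) .nil))) (.cons (.ev (nat_lit 10384752173399461492454573350191361) (nat_lit 2)) (.cons (.br (nat_lit 15) (nat_lit 1) (.cons (.rf (nat_lit 529) (nat_lit 20678166659641484973154)) (.cons (.br (nat_lit 15) (nat_lit 1) (.cons (.rf (nat_lit 529) (nat_lit 20678166659641484973154)) .nil)) .nil))) .nil)))) .nil))),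
 (.br (nat_lit 12) (nat_lit 1) (.cons (.rf (nat_lit 530) (nat_lit 583706118939841765935136)) (.cons (.br (nat_lit 15) (nat_lit 1) (.cons (.ev (nat_lit 2658496557010431698281777942528786689) (nat_lit 2)) (.cons (.br (nat_lit 16) (nat_lit 1) (.cons (.ev (nat_lit 341611594916724592984464793470156996865) (nat_lit 1)) (.cons (.rf (nat_lit 70) (nat_lit 631009966360538307)) .nil))) (.cons (.br (nat_lit 14) (nat_lit 1) (.cons (.br (nat_lit 14) (nat_lit 1) (.cons (.zr (nat_lit 10465723355484262226987170700198659) (nat_lit 2658456150028579366789309558851633152) (nat_lit 8) (nat_lit 0)) .nil)) (.cons (.br (nat_lit 14) (nat_lit 1) (.cons (.zr (nat_lit 10465723355484262226987170700198659) (nat_lit 2658456150028579366789309558851633152) (nat_lit 8) (nat_lit 0)) .nil)) .nil))) .nil)))) .nil))),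
 (.br (nat_lit 15) (nat_lit 1) (.cons (.ev (nat_lit 2047042267291159598128558939234900248321) (nat_lit 3)) (.cons (.br (nat_lit 16) (nat_lit 1) (.cons (.ev (nat_lit 683233574427166250920410462478932116225) (nat_lit 2)) .nil)) .nil))),
 (.br (nat_lit 14) (nat_lit 1) (.cons (.rf (nat_lit 532) (nat_lit 677582165103132179601393696)) (.cons (.rf (nat_lit 532) (nat_lit 640105464695078675185502240)) .nil))),
 (.br (nat_lit 14) (nat_lit 1) (.cons (.rf (nat_lit 533) (nat_lit 677582165103132179601393696)) (.cons (.br (nat_lit 16) (nat_lit 1) (.cons (.br (nat_lit 15) (nat_lit 1) (.cons (.ev (nat_lit 1334440575363753028656949244626796545) (nat_lit 1)) .nil)) (.cons (.ev (nat_lit 2041725355624937420323780769550740882177) (nat_lit 3)) .nil))) .nil))),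
 (.br (nat_lit 10) (nat_lit 1) (.cons (.rf (nat_lit 516) (nat_lit 15433072045018188865)) (.cons (.br (nat_lit 13) (nat_lit 1) (.cons (.zr (nat_lit 618970075127037546721312771) (nat_lit 40564819212025708462165907734784) (nat_lit 8) (nat_lit 1)) (.cons (.br (nat_lit 14) (nat_lit 1) (.cons (.ev (nat_lit 10384593719492247853633494835004161) (nat_lit 2)) (.cons (.br (nat_lit 12) (nat_lit 1) (.cons (.rf (nat_lit 526) (nat_lit 583706118939841765935136)) (.cons (.br (nat_lit 12) (nat_lit 1) (.cons (.rf (nat_lit 526) (nat_lit 583706118939841765935136)) (.cons (.rf (nat_lit 528) (nat_lit 661701333108492051024961)) .nil))) .nil))) .nil))) (.cons (.br (nat_lit 12) (nat_lit 1) (.cons (.rf (nat_lit 530) (nat_lit 583706118939841765935136)) (.cons (.rf (nat_lit 531) (nat_lit 583706118939841765935136)) (.cons (.br (nat_lit 12) (nat_lit 1) (.cons (.rf (nat_lit 530) (nat_lit 583706118939841765935136)) (.cons (.rf (nat_lit 531) (nat_lit 583706118939841765935136)) (.cons (.br (nat_lit 14) (nat_lit 1) (.cons (.rf (nat_lit 533) (nat_lit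 677582165103132179601393696)) (.cons (.rf (nat_lit 534) (nat_lit 677582165103132179601393696)) (.cons (.rf (nat_lit 534) (nat_lit 640105464695078675185502240)) .nil)))) .nil)))) .nil)))) .nil)))) .nil))),
 (.br (nat_lit 15) (nat_lit 1) (.cons (.br (nat_lit 16) (nat_lit 1) (.cons (.ev (nat_lit 683244040467436803202015063275766941441) (nat_lit 3)) .nil)) .nil)),
 (.br (nat_lit 13) (nat_lit 1) (.cons (.rf (nat_lit 519) (nat_lit 637763170919575331159509024)) (.cons (.ev (nat_lit 10425159157669607731224814626537729) (nat_lit 2)) .nil))),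
 (.br (nat_lit 12) (nat_lit 1) (.cons (.rf (nat_lit 535) (nat_lit 491554393001858014377)) (.cons (.kr (nat_lit 1208925891672223212634113) (nat_lit 79228167236630820463189229568) (nat_lit 0) (nat_lit 1)) (.cons (.br (nat_lit 14) (nat_lit 1) (.cons (.br (nat_lit 13) (nat_lit 1) (.cons (.ev (nat_lit 20282720302328124611688017231873) (nat_lit 1)) (.cons (.ev (nat_lit 20361947251194274909376779124736) (nat_lit 1)) (.cons (.br (nat_lit 15) (nat_lit 1) (.cons (.rf (nat_lit 536) (nat_lit 677582165103132179601393696)) (.cons (.br (nat_lit 15) (nat_lit 1) (.cons (.rf (nat_lit 536) (nat_lit 677582165103132179601393696)) .nil)) .nil))) .nil)))) (.cons (.ev (nat_lit 10384593719492247853633494835004161) (nat_lit 2)) (.cons (.ev (nat_lit 10384752173399461492454573350191361) (nat_lit 2)) (.cons (.br (nat_lit 13) (nat_lit 1) (.cons (.rf (nat_lit 537) (nat_lit 677582165103132179601393696)) (.cons (.rf (nat_lit 537) (nat_lit 676411015911468068864367785)) (.cons (.br (nat_lit 13) (nat_lit 1) (.cons (.ev (nat_lit 10425159157669607731224814626537729)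 (nat_lit 2)) (.cons (.ev (nat_lit 10425317611576747583065217436877569) (nat_lit 2)) .nil))) .nil)))) .nil))))) .nil)))),
 (.br (nat_lit 14) (nat_lit 1) (.cons (.br (nat_lit 16) (nat_lit 1) (.cons (.ev (nat_lit 685912840172848757190928576517572264197) (nat_lit 3)) (.cons (.zr (nat_lit 10385070324008391960881181342302465) (nat_lit 2041694201525633198687227672318609195008) (nat_lit 8) (nat_lit 0)) .nil))) (.cons (.ev (nat_lit 2041725436436420409130551919897846350593) (nat_lit 3)) (.cons (.br (nat_lit 16) (nat_lit 1) (.cons (.zr (nat_lit 680575118435593996674239996229138252033) (nat_lit 159696697086553299577760382976) (nat_lit 8) (nat_lit 1)) (.cons (.ev (nat_lit 350490848354043923209165173308340245497093) (nat_lit 3)) .nil))) .nil)))),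
 (.br (nat_lit 13) (nat_lit 1) (.cons (.ev (nat_lit 20282720302328124611688017231873) (nat_lit 1)) (.cons (.rf (nat_lit 539) (nat_lit 677582165103132179601393696)) (.cons (.rf (nat_lit 539) (nat_lit 640105464695078675185502240)) .nil)))),
 (.br (nat_lit 13) (nat_lit 1) (.cons (.zr (nat_lit 79538856450121470082147156484) (nat_lit 20282409603688564195768687460352) (nat_lit 8) (nat_lit 0)) (.cons (.br (nat_lit 14) (nat_lit 1) (.cons (.ev (nat_lit 31153940233762346855184855906648833) (nat_lit 3)) (.cons (.ev (nat_lit 31194345975256824317097015649896193) (nat_lit 3)) (.cons (.rf (nat_lit 283) (nat_lit 21137843196597375722359881)) .nil)))) .nil))),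
 (.br (nat_lit 15) (nat_lit 1) (.cons (.ev (nat_lit 340287559218107692245091123174683181313) (nat_lit 1)) (.cons (.ev (nat_lit 2668881150727501316644787846404768003) (nat_lit 2)) .nil))),
 (.br (nat_lit 14) (nat_lit 1) (.cons (.rf (nat_lit 542) (nat_lit 677582165103132179601393696)) (.cons (.rf (nat_lit 542) (nat_lit 640105464695078675185502240)) .nil))),
 (.br (nat_lit 14) (nat_lit 1) (.cons (.rf (nat_lit 543) (nat_lit 677582165103132179601393696)) (.cons (.br (nat_lit 16) (nat_lit 1) (.cons (.br (nat_lit 15) (nat_lit 1) (.cons (.ev (nat_lit 2668840743743231170407143505035002115) (nat_lit 2)) .nil)) (.cons (.ev (nat_lit 340287559218107692245091123174683181313) (nat_lit 1)) .nil))) .nil))),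
 (.br (nat_lit 11) (nat_lit 1) (.cons (.ev (nat_lit 310693954087985246585749761) (nat_lit 1)) (.cons (.br (nat_lit 12) (nat_lit 1) (.cons (.rf (nat_lit 49) (nat_lit 426480347362)) (.cons (.br (nat_lit 12) (nat_lit 1) (.cons (.rf (nat_lit 49) (nat_lit 426480347362)) (.cons (.br (nat_lit 13) (nat_lit 1) (.cons (.rf (nat_lit 541) (nat_lit 583706118939841765935136)) (.cons (.rf (nat_lit 541) (nat_lit 547107778697602015528992)) (.cons (.br (nat_lit 13) (nat_lit 1) (.cons (.rf (nat_lit 541) (nat_lit 583706118939841765935136)) (.cons (.rf (nat_lit 541) (nat_lit 547107778697602015528992)) (.cons (.br (nat_lit 14) (nat_lit 1) (.cons (.rf (nat_lit 543) (nat_lit 677582165103132179601393696)) (.cons (.rf (nat_lit 544) (nat_lit 677582165103132179601393696)) (.cons (.rf (nat_lit 544) (nat_lit 640105464695078675185502240)) .nil)))) .nil)))) .nil)))) .nil))) .nil))) .nil))),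
 (.br (nat_lit 14) (nat_lit 1) (.cons (.br (nat_lit 15) (nat_lit 1) (.cons (.ev (nat_lit 2668840585905876198414081445282710275) (nat_lit 2)) (.cons (.rf (nat_lit 66) (nat_lit 596107035963468002)) .nil))) .nil)),
 (.br (nat_lit 12) (nat_lit 1) (.cons (.zr (nat_lit 159075295048603710901649933059) (nat_lit 4840444092812459539300352) (nat_lit 8) (nat_lit 0)) (.cons (.br (nat_lit 13) (nat_lit 1) (.cons (.ev (nat_lit 40723277954961360146672549757699) (nat_lit 2)) (.cons (.br (nat_lit 14) (nat_lit 1) (.cons (.rf (nat_lit 546) (nat_lit 583706118939841765935136)) (.cons (.br (nat_lit 14) (nat_lit 1) (.cons (.rf (nat_lit 546) (nat_lit 583706118939841765935136)) (.cons (.rf (nat_lit 515) (nat_lit 661701333074406149359713)) .nil))) .nil))) .nil))) .nil))),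
 (.br (nat_lit 13) (nat_lit 1) (.cons (.br (nat_lit 15) (nat_lit 1) (.cons (.zr (nat_lit 81288713709655573637083986659083) (nat_lit 5316911983139668306216562876847357952) (nat_lit 24) (nat_lit 0)) (.cons (.rf (nat_lit 172) (nat_lit 631047533060532322)) .nil))) .nil)),
 (.br (nat_lit 15) (nat_lit 1) (.cons (.ev (nat_lit 5192297168024578335441577423470848) (nat_lit 1)) (.cons (.ev (nat_lit 5192376086702064331409657379749888) (nat_lit 1)) (.cons (.zr (nat_lit 10425158536276958886139276197626627) (nat_lit 2658455991572254338260634371763732480) (nat_lit 8) (nat_lit 0)) .nil)))),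
 (.br (nat_lit 15) (nat_lit 1) (.cons (.ev (nat_lit 5192297168024578335441577423470848) (nat_lit 1)) (.cons (.ev (nat_lit 5192376086697360411669757637492993) (nat_lit 1)) (.cons (.rf (nat_lit 549) (nat_lit 677582165103132179601393696)) (.cons (.rf (nat_lit 549) (nat_lit 640105464695078675185502240)) .nil))))),
 (.br (nat_lit 16) (nat_lit 1) (.cons (.ev (nat_lit 680575159158871951543366422528744620803) (nat_lit 2)) .nil)),
 (.br (nat_lit 13) (nat_lit 1) (.cons (.ev (nat_lit 41042052350854555687031547365121) (nat_lit 3)) (.cons (.br (nat_lit 14) (nat_lit 1) (.cons (.rf (nat_lit 310) (nat_lit 622702603395363681437728)) (.cons (.br (nat_lit 16) (nat_lit 1) (.cons (.ev (nat_lit 680575118594050326351348744248010735875) (nat_lit 2)) (.cons (.rf (nat_lit 89) (nat_lit 560006770725398754)) .nil))) (.cons (.br (nat_lit 15) (nat_lit 1) (.cons (.rf (nat_lit 551) (nat_lit 677582165103132179601393696)) (.cons (.br (nat_lit 15) (nat_lit 1) (.cons (.rf (nat_lit 551) (nat_lit 677582165103132179601393696)) .nil)) .nil))) .nil))))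 .nil)))]

theorem c17 : chkAll C T R L17 (nat_lit 524) = true := by decide +kernel

theorem l17 : (nat_lit 524) + L17.length = (nat_lit 553) := by decide +kernel

/-- part of the certificates -/
def L18 : List Prf := [(.br (nat_lit 15) (nat_lit 1) (.cons (.ev (nat_lit 1369135989439619398611897521209902237441) (nat_lit 3)) (.cons (.zr (nat_lit 40882969797400548269702097405707) (nat_lit 2668840585289324067305801957281366016) (nat_lit 24) (nat_lit 0)) .nil))),
 (.br (nat_lit 14) (nat_lit 1) (.cons (.rf (nat_lit 553) (nat_lit 677582165103132179601393696)) (.cons (.rf (nat_lit 553) (nat_lit 640105464695078675185502240)) .nil))),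
 (.br (nat_lit 14) (nat_lit 1) (.cons (.rf (nat_lit 554) (nat_lit 677582165103132179601393696)) (.cons (.ev (nat_lit 5212579578837137306679589908512768) (nat_lit 1)) .nil))),
 (.br (nat_lit 11) (nat_lit 1) (.cons (.rf (nat_lit 547) (nat_lit 493858305440582043680)) (.cons (.br (nat_lit 12) (nat_lit 1) (.cons (.rf (nat_lit 547) (nat_lit 492741409431335667840)) (.cons (.br (nat_lit 14) (nat_lit 1) (.cons (.zr (nat_lit 159080135473960421903252324613) (nat_lit 20769187434139365854357504980811776) (nat_lit 8) (nat_lit 0)) (.cons (.br (nat_lit 13) (nat_lit 1) (.cons (.rf (nat_lit 548) (nat_lit 583706118939841765935136)) (.cons (.br (nat_lit 13) (nat_lit 1) (.cons (.rf (nat_lit 548) (nat_lit 583706118939841765935136)) (.cons (.rf (nat_lit 550) (nat_lit 677582165103132179601393696)) .nil))) .nil))) .nil))) (.cons (.br (nat_lit 13) (nat_lit 1) (.cons (.rf (nat_lit 552) (nat_lit 583706118939841765935136)) (.cons (.rf (nat_lit 552) (nat_lit 547106661801592769153152)) (.cons (.br (nat_lit 13) (nat_lit 1) (.cons (.rf (nat_lit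 552) (nat_lit 583706118939841765935136)) (.cons (.rf (nat_lit 552) (nat_lit 547106661801592769153152)) (.cons (.br (nat_lit 14) (nat_lit 1) (.cons (.rf (nat_lit 554) (nat_lit 677582165103132179601393696)) (.cons (.rf (nat_lit 555) (nat_lit 677582165103132179601393696)) (.cons (.rf (nat_lit 555) (nat_lit 640105464695078675185502240)) .nil)))) .nil)))) .nil)))) .nil)))) .nil))),
 (.br (nat_lit 16) (nat_lit 1) (.cons (.ev (nat_lit 680575159158871951543366422528744620803) (nat_lit 2)) .nil)),
 (.br (nat_lit 12) (nat_lit 1) (.cons (.br (nat_lit 14) (nat_lit 1) (.cons (.ev (nat_lit 5192376086702064331409657379749888) (nat_lit 1)) (.cons (.br (nat_lit 15) (nat_lit 1) (.cons (.ev (nat_lit 2668881150727501316644787846404768003) (nat_lit 2)) (.cons (.rf (nat_lit 69) (nat_lit 596107035963468002)) .nil))) .nil))) (.cons (.br (nat_lit 14) (nat_lit 1) (.cons (.br (nat_lit 15) (nat_lit 1) (.cons (.ev (nat_lit 7985752728744640498448783293790159105) (nat_lit 3)) (.cons (.rf (nat_lit 73) (nat_lit 596107035963468002)) .nil))) (.cons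 (.ev (nat_lit 5192376086702064331409657379749888) (nat_lit 1)) (.cons (.br (nat_lit 15) (nat_lit 1) (.cons (.rf (nat_lit 557) (nat_lit 677582165103132179601393696)) (.cons (.br (nat_lit 15) (nat_lit 1) (.cons (.rf (nat_lit 557) (nat_lit 677582165103132179601393696)) .nil)) .nil))) .nil)))) .nil))),
 (.br (nat_lit 12) (nat_lit 1) (.cons (.rf (nat_lit 558) (nat_lit 583706118939841765935136)) (.cons (.br (nat_lit 15) (nat_lit 1) (.cons (.ev (nat_lit 1329248278505218182581956153859637248) (nat_lit 1)) (.cons (.br (nat_lit 16) (nat_lit 1) (.cons (.ev (nat_lit 683223189834065733469906235316160692995) (nat_lit 2)) (.cons (.rf (nat_lit 70) (nat_lit 631009933075589346)) .nil))) (.cons (.br (nat_lit 14) (nat_lit 1) (.cons (.br (nat_lit 14) (nat_lit 1) (.cons (.zr (nat_lit 2658456150645126849463326854369902595) (nat_lit 10465723355488984306371053068747008) (nat_lit 8) (nat_lit 1)) .nil)) (.cons (.br (nat_lit 14) (nat_lit 1) (.cons (.zr (nat_lit 2658456150645126849463326854369902595) (nat_lit 10465723355488984306371053068747008)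 (nat_lit 8) (nat_lit 1)) .nil)) .nil))) .nil)))) .nil))),
 (.br (nat_lit 15) (nat_lit 1) (.cons (.ev (nat_lit 2047042267289926493792839121952877971201) (nat_lit 3)) (.cons (.br (nat_lit 16) (nat_lit 1) (.cons (.ev (nat_lit 341616787213891399173800630229923856385) (nat_lit 1)) .nil)) .nil))),
 (.br (nat_lit 14) (nat_lit 1) (.cons (.rf (nat_lit 560) (nat_lit 677582165103132179601393696)) (.cons (.rf (nat_lit 560) (nat_lit 640105464695078675185502240)) .nil))),
 (.br (nat_lit 14) (nat_lit 1) (.cons (.rf (nat_lit 561) (nat_lit 677582165103132179601393696)) (.cons (.br (nat_lit 16) (nat_lit 1) (.cons (.br (nat_lit 15) (nat_lit 1) (.cons (.ev (nat_lit 2668881150727501316644787846404768003) (nat_lit 2)) .nil)) (.cons (.ev (nat_lit 2041725355624937420323780769550740882177) (nat_lit 3)) .nil))) .nil))),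
 (.br (nat_lit 11) (nat_lit 1) (.cons (.rf (nat_lit 556) (nat_lit 493858305440582043680)) (.cons (.br (nat_lit 13) (nat_lit 1) (.cons (.zr (nat_lit 40564819207303629078283539186435) (nat_lit 2422592453020251203043328) (nat_lit 8) (nat_lit 0)) (.cons (.br (nat_lit 14) (nat_lit 1) (.cons (.ev (nat_lit 5192297168019837522215737875300353) (nat_lit 1)) (.cons (.br (nat_lit 12) (nat_lit 1) (.cons (.rf (nat_lit 298) (nat_lit 18239693588049094084640)) (.cons (.br (nat_lit 12) (nat_lit 1) (.cons (.rf (nat_lit 298) (nat_lit 18239693588049094084640)) (.cons (.rf (nat_lit 528) (nat_lit 661701333074406149359713)) .nil))) .nil))) .nil))) (.cons (.br (nat_lit 12) (nat_lit 1) (.cons (.rf (nat_lit 558) (nat_lit 583706118939841765935136)) (.cons (.rf (nat_lit 559) (nat_lit 583706118939841765935136)) (.cons (.br (nat_lit 12) (nat_lit 1) (.cons (.rf (nat_lit 558) (nat_lit 583706118939841765935136)) (.cons (.rf (nat_lit 559) (nat_lit 583706118939841765935136)) (.cons (.br (nat_lit 14) (nat_lit 1) (.cons (.rf (nat_lit 561) (nat_lit 677582165103132179601393696))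 (.cons (.rf (nat_lit 562) (nat_lit 677582165103132179601393696)) (.cons (.rf (nat_lit 562) (nat_lit 640105464695078675185502240)) .nil)))) .nil)))) .nil)))) .nil)))) .nil))),
 (.br (nat_lit 13) (nat_lit 1) (.cons (.ev (nat_lit 1334481220032505976947282550360047618) (nat_lit 2)) (.cons (.rf (nat_lit 486) (nat_lit 622703726014047344298217)) .nil))),
 (.br (nat_lit 13) (nat_lit 1) (.cons (.ev (nat_lit 2668881150727501316644787846404768003) (nat_lit 2)) .nil)),
 (.br (nat_lit 15) (nat_lit 1) (.cons (.br (nat_lit 16) (nat_lit 1) (.cons (.ev (nat_lit 683244040468669907537734880557789218561) (nat_lit 3)) .nil)) .nil)),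
 (.br (nat_lit 13) (nat_lit 1) (.cons (.rf (nat_lit 550) (nat_lit 637763170919575331159509024)) (.cons (.ev (nat_lit 5212579578837137306679589908512768) (nat_lit 1)) .nil))),
 (.br (nat_lit 12) (nat_lit 1) (.cons (.rf (nat_lit 563) (nat_lit 492741409431335667840)) (.cons (.br (nat_lit 14) (nat_lit 1) (.cons (.rf (nat_lit 564) (nat_lit 583706118939841765935136)) (.cons (.ev (nat_lit 5192297168024578335441577423470848) (nat_lit 1)) (.cons (.br (nat_lit 15) (nat_lit 1) (.cons (.rf (nat_lit 564) (nat_lit 547107778697602015528992)) (.cons (.ev (nat_lit 2668840585905876198414081445282710275) (nat_lit 2)) (.cons (.br (nat_lit 13) (nat_lit 1) (.cons (.rf (nat_lit 565) (nat_lit 677582165103132179601393696)) (.cons (.rf (nat_lit 565) (nat_lit 640068866354836435435096096)) .nil))) .nil)))) .nil)))) (.cons (.br (nat_lit 14) (nat_lit 1) (.cons (.br (nat_lit 13) (nat_lit 1) (.cons (.ev (nat_lit 40565440599915580112733185638659) (nat_lit 2)) (.cons (.ev (nat_lit 40723277954961360146672549757699) (nat_lit 2)) (.cons (.br (nat_lit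 15) (nat_lit 1) (.cons (.rf (nat_lit 566) (nat_lit 677582165103132179601393696)) (.cons (.br (nat_lit 15) (nat_lit 1) (.cons (.rf (nat_lit 566) (nat_lit 677582165103132179601393696)) .nil)) .nil))) .nil)))) (.cons (.ev (nat_lit 5192297168024578335441577423470848) (nat_lit 1)) (.cons (.ev (nat_lit 5192376086697360411669757637492993) (nat_lit 1)) (.cons (.br (nat_lit 13) (nat_lit 1) (.cons (.rf (nat_lit 567) (nat_lit 677582165103132179601393696)) (.cons (.rf (nat_lit 567) (nat_lit 676411017098484498342021248)) (.cons (.br (nat_lit 13) (nat_lit 1) (.cons (.ev (nat_lit 5212579578837137306679589908512768) (nat_lit 1)) (.cons (.ev (nat_lit 5212658497509919382907770122534913) (nat_lit 1)) .nil))) .nil)))) .nil))))) .nil)))),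
 (.br (nat_lit 14) (nat_lit 1) (.cons (.br (nat_lit 16) (nat_lit 1) (.cons (.ev (nat_lit 685912840172232205096569665612308283649) (nat_lit 3)) (.cons (.zr (nat_lit 159080135473960421903252324613) (nat_lit 680575118435593996637346511375858794496) (nat_lit 8) (nat_lit 0)) .nil))) (.cons (.ev (nat_lit 2041725436436420409130551919897846350593) (nat_lit 3)) (.cons (.br (nat_lit 16) (nat_lit 1) (.cons (.zr (nat_lit 159080135473960421903252324613) (nat_lit 680575118435593996637346511375858794496) (nat_lit 8) (nat_lit 0)) (.cons (.ev (nat_lit 350490848354042073552587520627529056781569) (nat_lit 3)) .nil))) .nil)))),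
 (.br (nat_lit 13) (nat_lit 1) (.cons (.ev (nat_lit 40565440599915580112733185638659) (nat_lit 2)) (.cons (.rf (nat_lit 569) (nat_lit 677582165103132179601393696)) (.cons (.rf (nat_lit 569) (nat_lit 640105464695078675185502240)) .nil)))),
 (.br (nat_lit 13) (nat_lit 1) (.cons (.kr (nat_lit 20282410817299856802921047916800) (nat_lit 79537647542532427835489976320) (nat_lit 1) (nat_lit 0)) .nil)),
 (.br (nat_lit 15) (nat_lit 1) (.cons (.zr (nat_lit 31235386158603472639107566572012801) (nat_lit 7975367976576076703053078622057267200) (nat_lit 24) (nat_lit 1)) .nil)),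
 (.br (nat_lit 11) (nat_lit 1) (.cons (.br (nat_lit 14) (nat_lit 1) (.cons (.ev (nat_lit 5192376396187074080697132066537473) (nat_lit 1)) (.cons (.rf (nat_lit 327) (nat_lit 593856516817495138)) .nil))) .nil)),
 (.br (nat_lit 13) (nat_lit 1) (.cons (.kr (nat_lit 79229376162450716567340581120) (nat_lit 20282719088679938514189197312000) (nat_lit 1) (nat_lit 0)) .nil)),
 (.br (nat_lit 13) (nat_lit 1) (.cons (.rf (nat_lit 574) (nat_lit 583706118939841765935136)) (.cons (.rf (nat_lit 574) (nat_lit 547107778697602015528992)) .nil))),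
 (.br (nat_lit 10) (nat_lit 1) (.cons (.br (nat_lit 10) (nat_lit 1) .nil) .nil)),
 (.br (nat_lit 13) (nat_lit 1) (.cons (.ev (nat_lit 20282720302328124611692312199168) (nat_lit 1)) .nil)),
 (.br (nat_lit 14) (nat_lit 1) (.cons (.ev (nat_lit 31194346594226769884573867893063939) (nat_lit 3)) (.cons (.br (nat_lit 12) (nat_lit 1) (.cons (.br (nat_lit 15) (nat_lit 1) (.cons (.ev (nat_lit 2668881150727501316644787846404768003) (nat_lit 2)) (.cons (.rf (nat_lit 576) (nat_lit 631047566517311586)) .nil))) (.cons (.rf (nat_lit 332) (nat_lit 621558905262793689237536)) (.cons (.br (nat_lit 15) (nat_lit 1) (.cons (.rf (nat_lit 577) (nat_lit 20678166659641484973154)) (.cons (.br (nat_lit 15) (nat_lit 1) (.cons (.rf (nat_lit 577) (nat_lit 20678166659641484973154)) .nil)) .nil))) .nil)))) .nil))),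
 (.br (nat_lit 12) (nat_lit 1) (.cons (.br (nat_lit 14) (nat_lit 1) (.cons (.kr (nat_lit 20361638979814121140514591867136) (nat_lit 1334420292952935728800427798555590656) (nat_lit 1) (nat_lit 0)) .nil)) .nil)),
 (.br (nat_lit 12) (nat_lit 1) (.cons (.rf (nat_lit 579) (nat_lit 583706118939841765935136)) (.cons (.br (nat_lit 12) (nat_lit 1) (.cons (.rf (nat_lit 579) (nat_lit 583706118939841765935136)) .nil)) .nil))),
 (.br (nat_lit 12) (nat_lit 1) (.cons (.rf (nat_lit 578) (nat_lit 583706118939841765935136)) (.cons (.br (nat_lit 15) (nat_lit 1) (.cons (.br (nat_lit 14) (nat_lit 1) (.cons (.ev (nat_lit 10384752794787332919052107211866369) (nat_lit 2)) (.cons (.rf (nat_lit 191) (nat_lit 631013446048458978)) .nil))) (.cons (.br (nat_lit 16) (nat_lit 1) (.cons (.ev (nat_lit 1363787923835020373296754275147325767939) (nat_lit 3)) (.cons (.rf (nat_lit 192) (nat_lit 631013446048458978)) .nil))) (.cons (.rf (nat_lit 580) (nat_lit 661701333108492051024961)) .nil)))) .nil))),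
 (.br (nat_lit 15) (nat_lit 1) (.cons (.ev (nat_lit 341611594916724588280545055769437995008) (nat_lit 1)) (.cons (.br (nat_lit 16) (nat_lit 1) (.cons (.ev (nat_lit 341616787213891403914613856069472026880) (nat_lit 1)) .nil)) .nil))),
 (.br (nat_lit 14) (nat_lit 1) (.cons (.rf (nat_lit 582) (nat_lit 677582165103132179601393696)) (.cons (.rf (nat_lit 582) (nat_lit 640105464695078675185502240)) .nil))),
 (.br (nat_lit 14) (nat_lit 1) (.cons (.rf (nat_lit 583) (nat_lit 677582165103132179601393696)) (.cons (.ev (nat_lit 10384752794787332919052107211866369) (nat_lit 2)) .nil)))]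

theorem c18 : chkAll C T R L18 (nat_lit 553) = true := by decide +kernel

theorem l18 : (nat_lit 553) + L18.length = (nat_lit 585) := by decide +kernel

/-- part of the certificates -/
def L19 : List Prf := [(.br (nat_lit 15) (nat_lit 1) (.cons (.zr (nat_lit 31275792521485747451280274020107521) (nat_lit 7975367977192628871200091739279851520) (nat_lit 24) (nat_lit 1)) .nil)),
 (.br (nat_lit 13) (nat_lit 1) (.cons (.ev (nat_lit 20282720302328124611692312199168) (nat_lit 1)) .nil)),
 (.br (nat_lit 13) (nat_lit 1) (.cons (.ev (nat_lit 40723277954961360146672549757699) (nat_lit 2)) (.cons (.br (nat_lit 14) (nat_lit 1) (.cons (.ev (nat_lit 5192534546663333643034117139333632) (nat_lit 2)) (.cons (.ev (nat_lit 10425158536281736304627280764862721) (nat_lit 2)) (.cons (.br (nat_lit 15) (nat_lit 1) (.cons (.rf (nat_lit 586) (nat_lit 20678166659641484973154)) (.cons (.br (nat_lit 15) (nat_lit 1) (.cons (.rf (nat_lit 586) (nat_lit 20678166659641484973154)) .nil)) .nil))) .nil)))) .nil))),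
 (.br (nat_lit 13) (nat_lit 1) (.cons (.ev (nat_lit 40723277954961360146672549757699) (nat_lit 2)) (.cons (.br (nat_lit 15) (nat_lit 1) (.cons (.ev (nat_lit 2658456150647549423469605235114115329) (nat_lit 2)) (.cons (.rf (nat_lit 330) (nat_lit 621560023246042871958560)) (.cons (.rf (nat_lit 580) (nat_lit 661701298171509037238369)) .nil)))) .nil))),
 (.br (nat_lit 16) (nat_lit 1) (.cons (.ev (nat_lit 2668840585905876198414081445282710275) (nat_lit 2)) (.cons (.ev (nat_lit 340282387203658765773052756525347504128) (nat_lit 1)) .nil))),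
 (.br (nat_lit 14) (nat_lit 1) (.cons (.rf (nat_lit 589) (nat_lit 677582165103132179601393696)) (.cons (.rf (nat_lit 589) (nat_lit 640105464695078675185502240)) .nil))),
 (.br (nat_lit 14) (nat_lit 1) (.cons (.rf (nat_lit 590) (nat_lit 677582165103132179601393696)) (.cons (.br (nat_lit 16) (nat_lit 1) (.cons (.br (nat_lit 15) (nat_lit 1) (.cons (.ev (nat_lit 7996259016300361970010497741507266311) (nat_lit 3)) .nil)) (.cons (.ev (nat_lit 340282387203658761069133016625605247233) (nat_lit 1)) .nil))) .nil))),
 (.br (nat_lit 12) (nat_lit 1) (.cons (.ev (nat_lit 40723277954961360146672549757699) (nat_lit 2)) (.cons (.br (nat_lit 14) (nat_lit 1) (.cons (.br (nat_lit 15) (nat_lit 1) (.cons (.ev (nat_lit 1334420372182311891250862890919460865) (nat_lit 1)) (.cons (.rf (nat_lit 191) (nat_lit 631047533060500547)) .nil))) (.cons (.br (nat_lit 16) (nat_lit 1) (.cons (.ev (nat_lit 680564856012941468702888740193720075011) (nat_lit 3)) (.cons (.rf (nat_lit 192) (nat_lit 631047533060500547)) .nil))) (.cons (.br (nat_lit 15) (nat_lit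 1) (.cons (.br (nat_lit 15) (nat_lit 1) (.cons (.ev (nat_lit 1334440654590701894807246933388689408) (nat_lit 1)) .nil)) (.cons (.br (nat_lit 15) (nat_lit 1) (.cons (.ev (nat_lit 1334440654590701894807246933388689408) (nat_lit 1)) .nil)) .nil))) .nil)))) .nil))),
 (.br (nat_lit 15) (nat_lit 1) (.cons (.ev (nat_lit 2668840585905876198414081445282710275) (nat_lit 2)) (.cons (.ev (nat_lit 1334542542014972423870461235139970049) (nat_lit 3)) .nil))),
 (.br (nat_lit 14) (nat_lit 1) (.cons (.rf (nat_lit 593) (nat_lit 677582165103132179601393696)) (.cons (.rf (nat_lit 593) (nat_lit 640105464695078675185502240)) .nil))),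
 (.br (nat_lit 14) (nat_lit 1) (.cons (.rf (nat_lit 594) (nat_lit 677582165103132179601393696)) (.cons (.br (nat_lit 16) (nat_lit 1) (.cons (.br (nat_lit 15) (nat_lit 1) (.cons (.ev (nat_lit 2668881150727501316644787846404768003) (nat_lit 2)) .nil)) (.cons (.ev (nat_lit 2041694201685327468477695875890301501699) (nat_lit 3)) .nil))) .nil))),
 (.br (nat_lit 14) (nat_lit 1) (.cons (.ev (nat_lit 5212817884712551454231215164555776) (nat_lit 2)) .nil)),
 (.br (nat_lit 12) (nat_lit 1) (.cons (.br (nat_lit 13) (nat_lit 1) (.cons (.ev (nat_lit 5192297169233504082718241390133248) (nat_lit 1)) .nil)) .nil)),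
 (.br (nat_lit 12) (nat_lit 1) (.cons (.ev (nat_lit 5192535163215538395867946959241730) (nat_lit 2)) (.cons (.br (nat_lit 13) (nat_lit 1) (.cons (.br (nat_lit 15) (nat_lit 1) (.cons (.ev (nat_lit 5348187776284954999026950484120568071) (nat_lit 3)) (.cons (.rf (nat_lit 206) (nat_lit 631047533060532322)) .nil))) (.cons (.br (nat_lit 16) (nat_lit 1) (.cons (.ev (nat_lit 1361150277595084918218657693302037415681) (nat_lit 3)) (.cons (.rf (nat_lit 208) (nat_lit 631047566379034722)) .nil))) (.cons (.br (nat_lit 15) (nat_lit 1) (.cons (.rf (nat_lit 597) (nat_lit 20678166659641484973154)) (.cons (.br (nat_lit 15) (nat_lit 1) (.cons (.rf (nat_lit 597) (nat_lit 20678166659641484973154)) .nil)) .nil))) .nil)))) .nil))),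
 (.br (nat_lit 12) (nat_lit 1) (.cons (.ev (nat_lit 5192535163215538395867946959241730) (nat_lit 2)) (.cons (.br (nat_lit 15) (nat_lit 1) (.cons (.br (nat_lit 13) (nat_lit 1) (.cons (.ev (nat_lit 7985834016220410077123541125501944577) (nat_lit 3)) (.cons (.br (nat_lit 16) (nat_lit 1) (.cons (.br (nat_lit 16) (nat_lit 1) .nil) .nil)) .nil))) (.cons (.br (nat_lit 16) (nat_lit 1) (.cons (.ev (nat_lit 1363787923835020373296754275147325767939) (nat_lit 3)) (.cons (.rf (nat_lit 211) (nat_lit 631047566379034722)) .nil))) (.cons (.rf (nat_lit 376) (nat_lit 21174442618689835180951680)) .nil)))) .nil))),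
 (.br (nat_lit 15) (nat_lit 1) (.cons (.ev (nat_lit 340282387203658761069133016625605247233) (nat_lit 1)) (.cons (.ev (nat_lit 2658496715464338838133618345339126529) (nat_lit 2)) .nil))),
 (.br (nat_lit 13) (nat_lit 1) (.cons (.rf (nat_lit 600) (nat_lit 677582165103132179601393696)) (.cons (.rf (nat_lit 600) (nat_lit 640105464695078675185502240)) .nil))),
 (.br (nat_lit 13) (nat_lit 1) (.cons (.rf (nat_lit 601) (nat_lit 677582165103132179601393696)) (.cons (.br (nat_lit 16) (nat_lit 1) (.cons (.br (nat_lit 15) (nat_lit 1) (.cons (.ev (nat_lit 2668881150727501316644787846404768003) (nat_lit 2)) .nil)) (.cons (.ev (nat_lit 340282387203658761069133016625605247233) (nat_lit 1)) .nil))) .nil))),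
 (.br (nat_lit 14) (nat_lit 1) (.cons (.br (nat_lit 12) (nat_lit 1) (.cons (.ev (nat_lit 5192376086697360411669757637492993) (nat_lit 1)) (.cons (.br (nat_lit 13) (nat_lit 1) (.cons (.rf (nat_lit 339) (nat_lit 18240811571298309343264)) (.cons (.br (nat_lit 13) (nat_lit 1) (.cons (.rf (nat_lit 339) (nat_lit 18240811571298309343264)) (.cons (.br (nat_lit 15) (nat_lit 1) (.cons (.rf (nat_lit 596) (nat_lit 21174442659471745632798752)) (.cons (.rf (nat_lit 596) (nat_lit 20003295771720073619802144)) .nil))) .nil))) .nil))) .nil))) (.cons (.ev (nat_lit 10384593719492247853633494835004161) (nat_lit 2)) (.cons (.br (nat_lit 12) (nat_lit 1) (.cons (.rf (nat_lit 598) (nat_lit 583706118939841765935136)) (.cons (.rf (nat_lit 599) (nat_lit 583706118939841765935136)) (.cons (.br (nat_lit 12) (nat_lit 1) (.cons (.rf (nat_lit 598) (nat_lit 583706118939841765935136)) (.cons (.rf (nat_lit 599) (nat_lit 583706118939841765935136)) (.cons (.br (nat_lit 13) (nat_lit 1) (.cons (.rf (nat_lit 601) (nat_lit 677582165103132179601393696)) (.cons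 (.rf (nat_lit 602) (nat_lit 677582165103132179601393696)) (.cons (.rf (nat_lit 602) (nat_lit 640105464695078675185502240)) .nil)))) .nil)))) .nil)))) .nil)))),
 (.br (nat_lit 14) (nat_lit 1) (.cons (.ev (nat_lit 10425158536281736304627280764862721) (nat_lit 2)) (.cons (.zr (nat_lit 10384593717069710597293213854335233) (nat_lit 621392593648968518227460096) (nat_lit 8) (nat_lit 1)) (.cons (.br (nat_lit 13) (nat_lit 1) (.cons (.br (nat_lit 15) (nat_lit 1) (.cons (.ev (nat_lit 5337721894470727856774491816085948161) (nat_lit 3)) (.cons (.rf (nat_lit 216) (nat_lit 631047566379034722)) .nil))) (.cons (.rf (nat_lit 349) (nat_lit 586102998583912322799744)) (.cons (.br (nat_lit 15) (nat_lit 1) (.cons (.br (nat_lit 15) (nat_lit 1) (.cons (.ev (nat_lit 2668881150727501316644787846404768003) (nat_lit 2)) .nil)) (.cons (.br (nat_lit 15) (nat_lit 1) (.cons (.ev (nat_lit 2668881150727501316644787846404768003) (nat_lit 2)) .nil)) .nil))) .nil)))) .nil)))),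
 (.br (nat_lit 15) (nat_lit 1) (.cons (.ev (nat_lit 2658456150647549423469605235114115329) (nat_lit 2)) (.cons (.rf (nat_lit 217) (nat_lit 631047533060532322)) .nil))),
 (.br (nat_lit 15) (nat_lit 1) (.cons (.ev (nat_lit 2658456150647549423469605235114115329) (nat_lit 2)) (.cons (.br (nat_lit 14) (nat_lit 1) (.cons (.br (nat_lit 16) (nat_lit 1) (.cons (.zr (nat_lit 2762626447294191613493312636506736897) (nat_lit 6125082604742162173289628477445963251712) (nat_lit 40) (nat_lit 1)) .nil)) (.cons (.ev (nat_lit 87112285952042966948933577651626241425408) (nat_lit 1)) .nil))) .nil))),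
 (.br (nat_lit 12) (nat_lit 1) (.cons (.rf (nat_lit 604) (nat_lit 583706118939841765935136)) (.cons (.br (nat_lit 13) (nat_lit 1) (.cons (.br (nat_lit 14) (nat_lit 1) (.cons (.ev (nat_lit 20891040974314601620667546755924737) (nat_lit 3)) (.cons (.br (nat_lit 15) (nat_lit 1) (.cons (.ev (nat_lit 5337721894470727856774491816085948161) (nat_lit 3)) (.cons (.rf (nat_lit 216) (nat_lit 631047533060532322)) .nil))) .nil))) (.cons (.ev (nat_lit 1329227996094400882797492301826424833) (nat_lit 1)) (.cons (.br (nat_lit 15) (nat_lit 1) (.cons (.rf (nat_lit 349) (nat_lit 621560023245906529815721)) (.cons (.rf (nat_lit 349) (nat_lit 548359842225679457556608)) (.cons (.br (nat_lit 14) (nat_lit 1) (.cons (.br (nat_lit 14) (nat_lit 1) (.cons (.ev (nat_lit 2668881150727501316644787846404768003) (nat_lit 2)) .nil)) (.cons (.br (nat_lit 14) (nat_lit 1) (.cons (.ev (nat_lit 2668881150727501316644787846404768003) (nat_lit 2)) .nil)) .nil))) .nil)))) .nil)))) (.cons (.br (nat_lit 13) (nat_lit 1) (.cons (.br (nat_lit 14) (nat_lit 1) (.cons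 (.rf (nat_lit 605) (nat_lit 19926519232773908561233952)) (.cons (.rf (nat_lit 605) (nat_lit 18755260550718255441059081)) (.cons (.br (nat_lit 15) (nat_lit 1) (.cons (.br (nat_lit 16) (nat_lit 1) (.cons (.ev (nat_lit 340287559297335859481721663262407327745) (nat_lit 1)) .nil)) (.cons (.br (nat_lit 15) (nat_lit 1) (.cons (.ev (nat_lit 1334440654590701894807246933388689408) (nat_lit 1)) .nil)) .nil))) .nil)))) (.cons (.rf (nat_lit 604) (nat_lit 622553848119535231769865)) (.cons (.rf (nat_lit 603) (nat_lit 19271529932938055720201)) (.cons (.br (nat_lit 14) (nat_lit 1) (.cons (.rf (nat_lit 606) (nat_lit 677582165103132179601393696)) (.cons (.br (nat_lit 14) (nat_lit 1) (.cons (.rf (nat_lit 606) (nat_lit 677582165103132179601393696)) (.cons (.ev (nat_lit 5212658497509919382907770122534913) (nat_lit 1)) .nil))) (.cons (.br (nat_lit 14) (nat_lit 1) (.cons (.rf (nat_lit 606) (nat_lit 677582165103132179601393696)) (.cons (.ev (nat_lit 5212658497509919382907770122534913) (nat_lit 1)) .nil))) .nil)))) .nil))))) .nil)))),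
 (.br (nat_lit 10) (nat_lit 1) (.cons (.br (nat_lit 10) (nat_lit 1) .nil) .nil)),
 (.br (nat_lit 7) (nat_lit 1) (.cons (.br (nat_lit 7) (nat_lit 1) .nil) .nil)),
 (.br (nat_lit 14) (nat_lit 1) (.cons (.br (nat_lit 15) (nat_lit 1) (.cons (.ev (nat_lit 344285688725636497137204092109427114496) (nat_lit 2)) .nil)) .nil)),
 (.br (nat_lit 11) (nat_lit 1) (.cons (.br (nat_lit 13) (nat_lit 1) (.cons (.kr (nat_lit 5212579269352127485333417377136896) (nat_lit 1329228075322563415436234895770320896) (nat_lit 1) (nat_lit 0)) .nil)) .nil)),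
 (.br (nat_lit 11) (nat_lit 1) (.cons (.rf (nat_lit 611) (nat_lit 583706118939841765935136)) (.cons (.br (nat_lit 11) (nat_lit 1) (.cons (.rf (nat_lit 611) (nat_lit 583706118939841765935136)) .nil)) .nil))),
 (.br (nat_lit 15) (nat_lit 1) (.cons (.ev (nat_lit 2658456150647549423469605235114115329) (nat_lit 2)) (.cons (.br (nat_lit 17) (nat_lit 1) (.cons (.zr (nat_lit 10425159155251700751197095216546051) (nat_lit 174227230319512063125012053929508083073024) (nat_lit 8) (nat_lit 0)) (.cons (.ev (nat_lit 87112291124136644037901433330324729823488) (nat_lit 1)) .nil))) .nil))),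
 (.br (nat_lit 13) (nat_lit 1) (.cons (.rf (nat_lit 613) (nat_lit 677582165103132179601393696)) (.cons (.br (nat_lit 17) (nat_lit 1) (.cons (.ev (nat_lit 174224571904244387800340125009290102702849) (nat_lit 2)) (.cons (.ev (nat_lit 87452568298681186323735460488942538785025) (nat_lit 1)) .nil))) .nil))),
 (.br (nat_lit 12) (nat_lit 1) (.cons (.rf (nat_lit 607) (nat_lit 583706118939841765935136)) (.cons (.br (nat_lit 15) (nat_lit 1) (.cons (.ev (nat_lit 1329227996094405623610718141374595328) (nat_lit 1)) (.cons (.zr (nat_lit 10384593717069710597293213854335233) (nat_lit 621392593648968518227460096) (nat_lit 8) (nat_lit 1)) (.cons (.br (nat_lit 14) (nat_lit 1) (.cons (.br (nat_lit 13) (nat_lit 1) (.cons (.ev (nat_lit 2658578161401269259438963628343296775) (nat_lit 3)) (.cons (.rf (nat_lit 608) (nat_lit 631047566517311586)) .nil))) (.cons (.br (nat_lit 16) (nat_lit 1) (.cons (.ev (nat_lit 2044352657677513852354470477843797247233) (nat_lit 3)) (.cons (.rf (nat_lit 609) (nat_lit 631047566517311586)) .nil))) (.cons (.br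 (nat_lit 13) (nat_lit 1) (.cons (.br (nat_lit 13) (nat_lit 1) (.cons (.ev (nat_lit 2668881150727501316644787846404768003) (nat_lit 2)) .nil)) (.cons (.br (nat_lit 13) (nat_lit 1) (.cons (.ev (nat_lit 2668881150727501316644787846404768003) (nat_lit 2)) .nil)) .nil))) .nil)))) .nil)))) (.cons (.br (nat_lit 14) (nat_lit 1) (.cons (.br (nat_lit 13) (nat_lit 1) (.cons (.br (nat_lit 15) (nat_lit 1) (.cons (.ev (nat_lit 2658456150647549423469605235114115329) (nat_lit 2)) (.cons (.rf (nat_lit 608) (nat_lit 596144636119161954)) .nil))) (.cons (.ev (nat_lit 5212658497514660196133609670705408) (nat_lit 1)) (.cons (.br (nat_lit 15) (nat_lit 1) (.cons (.rf (nat_lit 610) (nat_lit 21174442659471745632798752)) (.cons (.br (nat_lit 15) (nat_lit 1) (.cons (.rf (nat_lit 610) (nat_lit 21174442659471745632798752)) .nil)) .nil))) .nil)))) (.cons (.zr (nat_lit 10384593717069710597293213854335233) (nat_lit 621392593648968518227460096) (nat_lit 8) (nat_lit 1)) (.cons (.br (nat_lit 16) (nat_lit 1) (.cons (.rf (nat_lit 357) (nat_lit 622703721378612896696352))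 (.cons (.ev (nat_lit 680575118436212971379355682188258444035) (nat_lit 2)) (.cons (.rf (nat_lit 612) (nat_lit 661701333108492051024961)) .nil)))) (.cons (.br (nat_lit 13) (nat_lit 1) (.cons (.rf (nat_lit 613) (nat_lit 677582165103132179601393696)) (.cons (.rf (nat_lit 614) (nat_lit 677582165103132179601393696)) (.cons (.br (nat_lit 13) (nat_lit 1) (.cons (.rf (nat_lit 613) (nat_lit 677582165103132179601393696)) (.cons (.rf (nat_lit 614) (nat_lit 677582165103132179601393696)) .nil))) .nil)))) .nil))))) .nil))))]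

theorem c19 : chkAll C T R L19 (nat_lit 585) = true := by decide +kernel

theorem l19 : (nat_lit 585) + L19.length = (nat_lit 616) := by decide +kernel

/-- part of the certificates -/
def L20 : List Prf := [(.br (nat_lit 13) (nat_lit 1) (.cons (.br (nat_lit 14) (nat_lit 1) (.cons (.ev (nat_lit 10425158536281736304627280764862721) (nat_lit 2)) (.cons (.br (nat_lit 16) (nat_lit 1) (.cons (.ev (nat_lit 340287559297335854740908435223835902208) (nat_lit 1)) .nil)) .nil))) (.cons (.br (nat_lit 17) (nat_lit 1) (.cons (.ev (nat_lit 10425158536281736304627280764862721) (nat_lit 2)) (.cons (.ev (nat_lit 522676374046713362951317619848449160774913) (nat_lit 3)) .nil))) .nil))),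
 (.br (nat_lit 13) (nat_lit 1) (.cons (.rf (nat_lit 616) (nat_lit 677582165103132179601393696)) (.cons (.br (nat_lit 17) (nat_lit 1) (.cons (.ev (nat_lit 348451802224073987381187640662642999166723) (nat_lit 3)) (.cons (.ev (nat_lit 1369104957829527890867060797418938565379) (nat_lit 3)) .nil))) .nil))),
 (.br (nat_lit 12) (nat_lit 1) (.cons (.rf (nat_lit 607) (nat_lit 583706118939841765935136)) (.cons (.rf (nat_lit 615) (nat_lit 583706118939841765935136)) (.cons (.br (nat_lit 15) (nat_lit 1) (.cons (.ev (nat_lit 1329227996094405623610718141374595328) (nat_lit 1)) (.cons (.br (nat_lit 14) (nat_lit 1) (.cons (.br (nat_lit 13) (nat_lit 1) (.cons (.ev (nat_lit 5212816955043892322337232242409987) (nat_lit 2)) (.cons (.rf (nat_lit 225) (nat_lit 596144635948410978)) .nil))) (.cons (.br (nat_lit 16) (nat_lit 1) (.cons (.ev (nat_lit 683233574427166250920410462478932116225) (nat_lit 2)) (.cons (.rf (nat_lit 226) (nat_lit 631013481518541891)) .nil))) (.cons (.br (nat_lit 13) (nat_lit 1) (.cons (.br (nat_lit 13) (nat_lit 1)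 (.cons (.ev (nat_lit 1334440654590701894807246933388689408) (nat_lit 1)) .nil)) (.cons (.br (nat_lit 13) (nat_lit 1) (.cons (.ev (nat_lit 1334440654590701894807246933388689408) (nat_lit 1)) .nil)) .nil))) .nil)))) (.cons (.br (nat_lit 16) (nat_lit 1) (.cons (.rf (nat_lit 357) (nat_lit 621560023246042871958560)) (.cons (.ev (nat_lit 685881645983480173853304498582083207431) (nat_lit 3)) (.cons (.rf (nat_lit 229) (nat_lit 677545566614232742456527904)) .nil)))) (.cons (.br (nat_lit 13) (nat_lit 1) (.cons (.rf (nat_lit 616) (nat_lit 677582165103132179601393696)) (.cons (.rf (nat_lit 617) (nat_lit 677582165103132179601393696)) (.cons (.br (nat_lit 13) (nat_lit 1) (.cons (.rf (nat_lit 616) (nat_lit 677582165103132179601393696)) (.cons (.rf (nat_lit 617) (nat_lit 677582165103132179601393696)) .nil))) .nil)))) .nil))))) .nil)))),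
 (.br (nat_lit 15) (nat_lit 1) (.cons (.ev (nat_lit 685892152114436480392737239415996547329) (nat_lit 3)) (.cons (.br (nat_lit 16) (nat_lit 1) (.cons (.ev (nat_lit 2047031883172818757039873934929416029447) (nat_lit 3)) .nil)) .nil))),
 (.br (nat_lit 14) (nat_lit 1) (.cons (.br (nat_lit 16) (nat_lit 1) (.cons (.ev (nat_lit 340282387203658761069133016625605247233) (nat_lit 1)) (.cons (.ev (nat_lit 340287559297335854740908435223835902208) (nat_lit 1)) .nil))) (.cons (.ev (nat_lit 10425158536281736304627280764862721) (nat_lit 2)) (.cons (.ev (nat_lit 5212816955043892322337232242409987) (nat_lit 2)) .nil)))),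
 (.br (nat_lit 13) (nat_lit 1) (.cons (.br (nat_lit 14) (nat_lit 1) (.cons (.ev (nat_lit 10425158536281736304627280764862721) (nat_lit 2)) (.cons (.rf (nat_lit 619) (nat_lit 677582165103132179601393696)) (.cons (.rf (nat_lit 619) (nat_lit 640105464695078675185502240)) .nil)))) (.cons (.rf (nat_lit 620) (nat_lit 677582165103132179601393696)) (.cons (.rf (nat_lit 620) (nat_lit 640105464695078675185502240)) .nil)))),
 (.br (nat_lit 16) (nat_lit 1) (.cons (.ev (nat_lit 340282387203658761069133016625605247233) (nat_lit 1)) (.cons (.rf (nat_lit 228) (nat_lit 631013448200039491)) (.cons (.br (nat_lit 15) (nat_lit 1) (.cons (.br (nat_lit 14) (nat_lit 1) (.cons (.kr (nat_lit 87113615159835569210020961049849249202176) (nat_lit 340287579500207810868493457979516911616) (nat_lit 2) (nat_lit 0)) .nil)) (.cons (.ev (nat_lit 341611615199132982988021177512626225408) (nat_lit 1)) .nil))) .nil)))),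
 (.br (nat_lit 13) (nat_lit 1) (.cons (.rf (nat_lit 621) (nat_lit 677582165103132179601393696)) (.cons (.rf (nat_lit 622) (nat_lit 677582165103132179601393696)) (.cons (.rf (nat_lit 622) (nat_lit 640105464695078675185502240)) .nil)))),
 (.br (nat_lit 13) (nat_lit 1) (.cons (.kr (nat_lit 5212579269352127485333417377136896) (nat_lit 1329228075322563415436234895770320896) (nat_lit 1) (nat_lit 0)) .nil)),
 (.br (nat_lit 13) (nat_lit 1) (.cons (.rf (nat_lit 621) (nat_lit 677582165103132179601393696)) (.cons (.rf (nat_lit 622) (nat_lit 677582165103132179601393696)) (.cons (.br (nat_lit 16) (nat_lit 1) (.cons (.br (nat_lit 14) (nat_lit 1) (.cons (.rf (nat_lit 624) (nat_lit 661701333108492051024961)) (.cons (.ev (nat_lit 174905136597520826549943890688320676561155) (nat_lit 2)) .nil))) (.cons (.br (nat_lit 15) (nat_lit 1) (.cons (.rf (nat_lit 624) (nat_lit 661665557604866224982113)) (.cons (.ev (nat_lit 174905136597520826549943890688320676561155) (nat_lit 2)) .nil))) (.cons (.kr (nat_lit 340282366920938463463374607431768211456)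 (nat_lit 87112285931760246646623899502532662132736) (nat_lit 16) (nat_lit 0)) .nil)))) .nil)))),
 (.br (nat_lit 10) (nat_lit 1) (.cons (.ev (nat_lit 1208944266641277389438976) (nat_lit 1)) (.cons (.br (nat_lit 11) (nat_lit 1) (.cons (.br (nat_lit 12) (nat_lit 1) (.cons (.zr (nat_lit 792281629957387694361776358657) (nat_lit 633477129480325214005886976) (nat_lit 24) (nat_lit 1)) (.cons (.br (nat_lit 13) (nat_lit 1) (.cons (.ev (nat_lit 20361947255898194647077498126593) (nat_lit 1)) (.cons (.br (nat_lit 14) (nat_lit 1) (.cons (.rf (nat_lit 325) (nat_lit 509500368201826)) (.cons (.br (nat_lit 14) (nat_lit 1) (.cons (.rf (nat_lit 325) (nat_lit 509500368201826)) (.cons (.br (nat_lit 15) (nat_lit 1) (.cons (.rf (nat_lit 571) (nat_lit 661701333108492051024961)) (.cons (.rf (nat_lit 571) (nat_lit 625102992866252300618817)) .nil))) .nil))) .nil))) .nil))) .nil))) (.cons (.ev (nat_lit 40565440599915580112733185638659) (nat_lit 2)) (.cons (.br (nat_lit 13) (nat_lit 1) (.cons (.br (nat_lit 12) (nat_lit 1) (.cons (.zr (nat_lit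 40881731857489525406784813531907) (nat_lit 1245198316571249686532325376) (nat_lit 24) (nat_lit 1)) (.cons (.br (nat_lit 14) (nat_lit 1) (.cons (.rf (nat_lit 325) (nat_lit 543583077050594)) (.cons (.br (nat_lit 14) (nat_lit 1) (.cons (.rf (nat_lit 325) (nat_lit 543583077050594)) (.cons (.br (nat_lit 15) (nat_lit 1) (.cons (.rf (nat_lit 572) (nat_lit 677582165103132179601393696)) (.cons (.rf (nat_lit 572) (nat_lit 640105464695078675185502240)) .nil))) .nil))) .nil))) .nil))) (.cons (.br (nat_lit 14) (nat_lit 1) (.cons (.ev (nat_lit 5192297168019837522215737875300353) (nat_lit 1)) (.cons (.br (nat_lit 12) (nat_lit 1) (.cons (.rf (nat_lit 573) (nat_lit 18240816216834587068448)) (.cons (.br (nat_lit 12) (nat_lit 1) (.cons (.rf (nat_lit 573) (nat_lit 18240816216834587068448)) (.cons (.rf (nat_lit 575) (nat_lit 661701333108492051024961)) .nil))) .nil))) .nil))) (.cons (.br (nat_lit 12) (nat_lit 1) (.cons (.rf (nat_lit 578) (nat_lit 583706118939841765935136)) (.cons (.rf (nat_lit 581) (nat_lit 583706118939841765935136))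 (.cons (.br (nat_lit 12) (nat_lit 1) (.cons (.rf (nat_lit 578) (nat_lit 583706118939841765935136)) (.cons (.rf (nat_lit 581) (nat_lit 583706118939841765935136)) (.cons (.br (nat_lit 14) (nat_lit 1) (.cons (.rf (nat_lit 583) (nat_lit 677582165103132179601393696)) (.cons (.rf (nat_lit 584) (nat_lit 677582165103132179601393696)) (.cons (.rf (nat_lit 584) (nat_lit 640105464695078675185502240)) .nil)))) .nil)))) .nil)))) .nil)))) .nil)))) (.cons (.br (nat_lit 11) (nat_lit 1) (.cons (.br (nat_lit 12) (nat_lit 1) (.cons (.br (nat_lit 13) (nat_lit 1) (.cons (.zr (nat_lit 243388915277079524652265606348800) (nat_lit 159089802158729582912773030149) (nat_lit 24) (nat_lit 1)) (.cons (.br (nat_lit 14) (nat_lit 1) (.cons (.rf (nat_lit 325) (nat_lit 543616395521219)) (.cons (.br (nat_lit 14) (nat_lit 1) (.cons (.rf (nat_lit 325) (nat_lit 543616395521219)) (.cons (.br (nat_lit 15) (nat_lit 1) (.cons (.rf (nat_lit 585) (nat_lit 677582165103132179601393696)) (.cons (.rf (nat_lit 585) (nat_lit 640105464695078675185502240)) .nil)))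 .nil))) .nil))) .nil))) (.cons (.br (nat_lit 14) (nat_lit 1) (.cons (.ev (nat_lit 5192376086697360411669757637492993) (nat_lit 1)) (.cons (.br (nat_lit 13) (nat_lit 1) (.cons (.rf (nat_lit 328) (nat_lit 18240811571298276805664)) (.cons (.br (nat_lit 13) (nat_lit 1) (.cons (.rf (nat_lit 328) (nat_lit 18240811571298276805664)) (.cons (.rf (nat_lit 575) (nat_lit 661701298171509037238369)) .nil))) .nil))) .nil))) (.cons (.br (nat_lit 13) (nat_lit 1) (.cons (.rf (nat_lit 587) (nat_lit 583706118939841765935136)) (.cons (.rf (nat_lit 588) (nat_lit 583706118939841765935136)) (.cons (.br (nat_lit 13) (nat_lit 1) (.cons (.rf (nat_lit 587) (nat_lit 583706118939841765935136)) (.cons (.rf (nat_lit 588) (nat_lit 583706118939841765935136)) (.cons (.br (nat_lit 14) (nat_lit 1) (.cons (.rf (nat_lit 590) (nat_lit 677582165103132179601393696)) (.cons (.rf (nat_lit 591) (nat_lit 677582165103132179601393696)) (.cons (.rf (nat_lit 591) (nat_lit 640105464695078675185502240)) .nil)))) .nil)))) .nil)))) .nil)))) (.cons (.br (nat_lit 13)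 (nat_lit 1) (.cons (.ev (nat_lit 20282409608392555991059149094913) (nat_lit 1)) (.cons (.kr (nat_lit 1208925891672223212634113) (nat_lit 20282409608374036906816896565248) (nat_lit 0) (nat_lit 1)) (.cons (.br (nat_lit 12) (nat_lit 1) (.cons (.rf (nat_lit 592) (nat_lit 583706118939841765935136)) (.cons (.rf (nat_lit 592) (nat_lit 546997101289630154726569)) (.cons (.br (nat_lit 12) (nat_lit 1) (.cons (.rf (nat_lit 592) (nat_lit 583706118939841765935136)) (.cons (.rf (nat_lit 592) (nat_lit 546997101289630154726569)) (.cons (.br (nat_lit 14) (nat_lit 1) (.cons (.rf (nat_lit 594) (nat_lit 677582165103132179601393696)) (.cons (.rf (nat_lit 595) (nat_lit 677582165103132179601393696)) (.cons (.rf (nat_lit 595) (nat_lit 640105464695078675185502240)) .nil)))) .nil)))) .nil)))) .nil)))) (.cons (.rf (nat_lit 603) (nat_lit 17022140995484340291616)) (.cons (.br (nat_lit 12) (nat_lit 1) (.cons (.rf (nat_lit 607) (nat_lit 583706118939841765935136)) (.cons (.rf (nat_lit 615) (nat_lit 583706118939841765935136)) (.cons (.rf (nat_lit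 618) (nat_lit 583706118939841765935136)) (.cons (.br (nat_lit 12) (nat_lit 1) (.cons (.rf (nat_lit 607) (nat_lit 583706118939841765935136)) (.cons (.rf (nat_lit 615) (nat_lit 583706118939841765935136)) (.cons (.rf (nat_lit 618) (nat_lit 583706118939841765935136)) (.cons (.br (nat_lit 13) (nat_lit 1) (.cons (.rf (nat_lit 621) (nat_lit 677582165103132179601393696)) (.cons (.rf (nat_lit 623) (nat_lit 677582165103132179601393696)) (.cons (.rf (nat_lit 625) (nat_lit 677582165103132179601393696)) (.cons (.rf (nat_lit 625) (nat_lit 640105464695078675185502240)) .nil))))) .nil))))) .nil))))) .nil))))) .nil)))),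
 (.br (nat_lit 13) (nat_lit 1) (.cons (.kr (nat_lit 79229376162450716567340581120) (nat_lit 20282719088679938514189197312000) (nat_lit 1) (nat_lit 0)) .nil)),
 (.br (nat_lit 13) (nat_lit 1) (.cons (.rf (nat_lit 627) (nat_lit 583706118939841765935136)) (.cons (.rf (nat_lit 627) (nat_lit 547107778697602015528992)) .nil))),
 (.br (nat_lit 11) (nat_lit 1) (.cons (.ev (nat_lit 5192297168019837522215737875300353) (nat_lit 1)) (.cons (.br (nat_lit 12) (nat_lit 1) (.cons (.rf (nat_lit 369) (nat_lit 18239585321028989066409)) (.cons (.br (nat_lit 12) (nat_lit 1) (.cons (.rf (nat_lit 369) (nat_lit 18239585321028989066409)) (.cons (.rf (nat_lit 628) (nat_lit 661701333108492051024961)) .nil))) .nil))) .nil))),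
 (.br (nat_lit 12) (nat_lit 1) (.cons (.ev (nat_lit 20810229481654387716139413948859137) (nat_lit 3)) (.cons (.br (nat_lit 15) (nat_lit 1) (.cons (.ev (nat_lit 2668881308564856362424821785768887043) (nat_lit 2)) (.cons (.rf (nat_lit 206) (nat_lit 631047530908920034)) .nil))) .nil))),
 (.br (nat_lit 15) (nat_lit 1) (.cons (.zr (nat_lit 10628141707660469504825280373458688) (nat_lit 2658455991584338948021956624812998657) (nat_lit 24) (nat_lit 0)) .nil)),
 (.br (nat_lit 11) (nat_lit 1) (.cons (.rf (nat_lit 630) (nat_lit 583706118939841765935136)) (.cons (.br (nat_lit 12) (nat_lit 1) (.cons (.rf (nat_lit 630) (nat_lit 583705002043832519559296)) (.cons (.br (nat_lit 16) (nat_lit 1) (.cons (.ev (nat_lit 1361150277595084918218657693302037415681) (nat_lit 3)) (.cons (.rf (nat_lit 208) (nat_lit 631047530908920034)) .nil))) (.cons (.br (nat_lit 15) (nat_lit 1) (.cons (.rf (nat_lit 631) (nat_lit 677582165103132179601393696)) (.cons (.rf (nat_lit 631) (nat_lit 640105463578182665939126400)) .nil))) .nil)))) .nil))),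
 (.br (nat_lit 11) (nat_lit 1) (.cons (.rf (nat_lit 632) (nat_lit 583706118939841765935136)) (.cons (.br (nat_lit 15) (nat_lit 1) (.cons (.ev (nat_lit 7985833698069820054566665286517655297) (nat_lit 3)) (.cons (.rf (nat_lit 374) (nat_lit 622702603390919502761033)) (.cons (.rf (nat_lit 376) (nat_lit 21174441536844059651442720)) .nil)))) .nil))),
 (.br (nat_lit 12) (nat_lit 1) (.cons (.rf (nat_lit 633) (nat_lit 583705002043832519559296)) (.cons (.br (nat_lit 16) (nat_lit 1) (.cons (.br (nat_lit 15) (nat_lit 1) (.cons (.ev (nat_lit 2668881150727501316644787846404768003) (nat_lit 2)) .nil)) (.cons (.ev (nat_lit 340282387203658761069133016625605247233) (nat_lit 1)) .nil))) .nil))),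
 (.br (nat_lit 12) (nat_lit 1) (.cons (.ev (nat_lit 10384752794787332919052107211866369) (nat_lit 2)) (.cons (.br (nat_lit 14) (nat_lit 1) (.cons (.ev (nat_lit 5192535163201352994356696616927491) (nat_lit 2)) (.cons (.br (nat_lit 15) (nat_lit 1) (.cons (.ev (nat_lit 5337721894470727856774491816085948161) (nat_lit 3)) (.cons (.rf (nat_lit 216) (nat_lit 631047530908920034)) .nil))) .nil))) (.cons (.br (nat_lit 14) (nat_lit 1) (.cons (.br (nat_lit 15) (nat_lit 1) (.cons (.ev (nat_lit 5348187777518059261535126306387394819) (nat_lit 3)) (.cons (.rf (nat_lit 217) (nat_lit 631047530908920034)) .nil))) (.cons (.ev (nat_lit 5192535163201352994356696616927491) (nat_lit 2)) (.cons (.br (nat_lit 15) (nat_lit 1) (.cons (.br (nat_lit 15) (nat_lit 1) (.cons (.ev (nat_lit 2668881308564856362424821785768887043) (nat_lit 2)) .nil)) (.cons (.br (nat_lit 15) (nat_lit 1) (.cons (.ev (nat_lit 2668881308564856362424821785768887043) (nat_lit 2)) .nil)) .nil))) .nil)))) .nil))))]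

theorem c20 : chkAll C T R L20 (nat_lit 616) = true := by decide +kernel

theorem l20 : (nat_lit 616) + L20.length = (nat_lit 636) := by decide +kernel

/-- part of the certificates -/
def L21 : List Prf := [(.br (nat_lit 13) (nat_lit 1) (.cons (.ev (nat_lit 1329248357422682038910907674401964288) (nat_lit 1)) (.cons (.rf (nat_lit 206) (nat_lit 592697662728677571)) .nil))),
 (.br (nat_lit 12) (nat_lit 1) (.cons (.br (nat_lit 13) (nat_lit 1) (.cons (.kr (nat_lit 20361638979814121140514591867136) (nat_lit 1334420292952935728800427798555590656) (nat_lit 1) (nat_lit 0)) .nil)) .nil)),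
 (.br (nat_lit 12) (nat_lit 1) (.cons (.rf (nat_lit 637) (nat_lit 583706118939841765935136)) (.cons (.br (nat_lit 12) (nat_lit 1) (.cons (.rf (nat_lit 637) (nat_lit 583706118939841765935136)) .nil)) .nil))),
 (.br (nat_lit 15) (nat_lit 1) (.cons (.ev (nat_lit 340282387203658765773052756525347504128) (nat_lit 1)) (.cons (.br (nat_lit 16) (nat_lit 1) (.cons (.kr (nat_lit 1334420372181098224690077812916289536) (nat_lit 87452568318963595922664764430015849824256) (nat_lit 2) (nat_lit 0)) .nil)) .nil))),
 (.br (nat_lit 14) (nat_lit 1) (.cons (.rf (nat_lit 639) (nat_lit 677582165103132179601393696)) (.cons (.rf (nat_lit 639) (nat_lit 640105463578182665939126400)) .nil))),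
 (.br (nat_lit 14) (nat_lit 1) (.cons (.rf (nat_lit 639) (nat_lit 677582165103132179601393696)) (.cons (.br (nat_lit 16) (nat_lit 1) (.cons (.ev (nat_lit 340282387203658761069133016625605247233) (nat_lit 1)) (.cons (.ev (nat_lit 174905146982115165007507467272036072554753) (nat_lit 2)) .nil))) .nil))),
 (.br (nat_lit 11) (nat_lit 1) (.cons (.rf (nat_lit 635) (nat_lit 583706118939841765935136)) (.cons (.rf (nat_lit 635) (nat_lit 546997101289630154726569)) (.cons (.br (nat_lit 12) (nat_lit 1) (.cons (.rf (nat_lit 635) (nat_lit 583705002043832519559296)) (.cons (.rf (nat_lit 635) (nat_lit 546995984393620908350729)) (.cons (.br (nat_lit 16) (nat_lit 1) (.cons (.rf (nat_lit 636) (nat_lit 622703726023049662793760)) (.cons (.rf (nat_lit 636) (nat_lit 621556569226948991098025)) (.cons (.rf (nat_lit 638) (nat_lit 661701333108492051024961)) .nil)))) (.cons (.br (nat_lit 14) (nat_lit 1) (.cons (.rf (nat_lit 640) (nat_lit 677582165103132179601393696)) (.cons (.rf (nat_lit 641) (nat_lit 677582165103132179601393696)) (.cons (.rf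 (nat_lit 641) (nat_lit 640105463578182665939126400)) .nil)))) .nil))))) .nil)))),
 (.br (nat_lit 12) (nat_lit 1) (.cons (.ev (nat_lit 40644359272697513349426207261442) (nat_lit 2)) (.cons (.br (nat_lit 15) (nat_lit 1) (.cons (.ev (nat_lit 5348187777518059261535126306387394819) (nat_lit 3)) (.cons (.rf (nat_lit 608) (nat_lit 596144634038783202)) .nil))) .nil))),
 (.br (nat_lit 12) (nat_lit 1) (.cons (.ev (nat_lit 2668881308564856362424821785768887043) (nat_lit 2)) .nil)),
 (.br (nat_lit 14) (nat_lit 1) (.cons (.rf (nat_lit 643) (nat_lit 583706118939841765935136)) (.cons (.ev (nat_lit 2668881150727501316644787846404768003) (nat_lit 2)) (.cons (.br (nat_lit 15) (nat_lit 1) (.cons (.rf (nat_lit 643) (nat_lit 546997101289630154726569)) (.cons (.ev (nat_lit 1344825169392720823224276688769712384) (nat_lit 2)) (.cons (.br (nat_lit 12) (nat_lit 1) (.cons (.rf (nat_lit 644) (nat_lit 677582165103132179601393696)) (.cons (.rf (nat_lit 644) (nat_lit 640068755677428463574293673)) .nil))) .nil)))) .nil)))),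
 (.br (nat_lit 15) (nat_lit 1) (.cons (.ev (nat_lit 2658496715464338838133618345339126529) (nat_lit 2)) .nil)),
 (.br (nat_lit 10) (nat_lit 1) (.cons (.br (nat_lit 13) (nat_lit 1) (.cons (.kr (nat_lit 20361638979814121140514591867136) (nat_lit 1334420292952935728800427798555590656) (nat_lit 1) (nat_lit 0)) .nil)) .nil)),
 (.br (nat_lit 10) (nat_lit 1) (.cons (.rf (nat_lit 647) (nat_lit 583706118939841765935136)) (.cons (.br (nat_lit 10) (nat_lit 1) (.cons (.rf (nat_lit 647) (nat_lit 583706118939841765935136)) .nil)) .nil))),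
 (.br (nat_lit 14) (nat_lit 1) (.cons (.kr (nat_lit 20361638979814121140514591867136) (nat_lit 1334420292952935728800427798555590656) (nat_lit 1) (nat_lit 0)) .nil)),
 (.br (nat_lit 14) (nat_lit 1) (.cons (.kr (nat_lit 20361638979814121140514591867136) (nat_lit 1334420292952935728800427798555590656) (nat_lit 1) (nat_lit 0)) .nil)),
 (.br (nat_lit 12) (nat_lit 1) (.cons (.br (nat_lit 15) (nat_lit 1) (.cons (.ev (nat_lit 340282387203658761069133016625605247233) (nat_lit 1)) (.cons (.rf (nat_lit 649) (nat_lit 661701333108492051024961)) .nil))) (.cons (.br (nat_lit 15) (nat_lit 1) (.cons (.rf (nat_lit 650) (nat_lit 661701333108492051024961)) (.cons (.ev (nat_lit 87112291144339514789844084024088140447745) (nat_lit 1)) .nil))) .nil))),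
 (.br (nat_lit 12) (nat_lit 1) (.cons (.rf (nat_lit 651) (nat_lit 677582165103132179601393696)) (.cons (.br (nat_lit 16) (nat_lit 1) (.cons (.ev (nat_lit 340282387203658761069133016625605247233) (nat_lit 1)) (.cons (.ev (nat_lit 174905146982115165007507467272036072554753) (nat_lit 2)) .nil))) .nil))),
 (.br (nat_lit 11) (nat_lit 1) (.cons (.rf (nat_lit 642) (nat_lit 583706118939841765935136)) (.cons (.rf (nat_lit 645) (nat_lit 583706118939841765935136)) (.cons (.br (nat_lit 14) (nat_lit 1) (.cons (.br (nat_lit 12) (nat_lit 1) (.cons (.rf (nat_lit 645) (nat_lit 583705002043832519559296)) (.cons (.ev (nat_lit 10384673876119254761996470183789059) (nat_lit 2)) (.cons (.br (nat_lit 15) (nat_lit 1) (.cons (.rf (nat_lit 646) (nat_lit 677582165103132179601393696)) (.cons (.rf (nat_lit 646) (nat_lit 640105463578182665939126400)) .nil))) .nil)))) (.cons (.br (nat_lit 15) (nat_lit 1) (.cons (.br (nat_lit 12) (nat_lit 1) (.cons (.ev (nat_lit 8006522074011299151176259139027470081) (nat_lit 3)) (.cons (.rf (nat_lit 225) (nat_lit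 631047530908920034)) .nil))) (.cons (.ev (nat_lit 1339632872842476246480751359317704706) (nat_lit 2)) (.cons (.br (nat_lit 12) (nat_lit 1) (.cons (.br (nat_lit 12) (nat_lit 1) (.cons (.ev (nat_lit 2658496715464338838133618345339126529) (nat_lit 2)) .nil)) (.cons (.br (nat_lit 12) (nat_lit 1) (.cons (.ev (nat_lit 2658496715464338838133618345339126529) (nat_lit 2)) .nil)) .nil))) .nil)))) (.cons (.br (nat_lit 16) (nat_lit 1) (.cons (.rf (nat_lit 387) (nat_lit 622702603395363681437728)) (.cons (.br (nat_lit 15) (nat_lit 1) (.cons (.ev (nat_lit 341611594916724592984464793470156996865) (nat_lit 1)) (.cons (.br (nat_lit 12) (nat_lit 1) (.cons (.br (nat_lit 12) (nat_lit 1) .nil) .nil)) .nil))) (.cons (.rf (nat_lit 648) (nat_lit 661701333108492051024961)) .nil)))) (.cons (.br (nat_lit 12) (nat_lit 1) (.cons (.rf (nat_lit 651) (nat_lit 677582165103132179601393696)) (.cons (.rf (nat_lit 652) (nat_lit 677582165103132179601393696)) (.cons (.br (nat_lit 12) (nat_lit 1) (.cons (.rf (nat_lit 651) (nat_lit 677582165103132179601393696))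 (.cons (.rf (nat_lit 652) (nat_lit 677582165103132179601393696)) .nil))) .nil)))) .nil))))) .nil)))),
 (.br (nat_lit 14) (nat_lit 1) (.cons (.ev (nat_lit 340287579500206601942745900948675100928) (nat_lit 1)) (.cons (.ev (nat_lit 174905136597362989194971897626260924269315) (nat_lit 2)) .nil))),
 (.br (nat_lit 12) (nat_lit 1) (.cons (.rf (nat_lit 653) (nat_lit 583705002043832519559296)) (.cons (.rf (nat_lit 653) (nat_lit 546995984393620908350729)) (.cons (.br (nat_lit 16) (nat_lit 1) (.cons (.rf (nat_lit 654) (nat_lit 677582165103132179601393696)) (.cons (.rf (nat_lit 654) (nat_lit 677545456085481967990185129)) (.cons (.ev (nat_lit 680564733921414588617934627618324218369) (nat_lit 2)) .nil)))) .nil)))),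
 (.br (nat_lit 10) (nat_lit 1) (.cons (.rf (nat_lit 626) (nat_lit 493858305440582043680)) (.cons (.rf (nat_lit 626) (nat_lit 492741409431335667840)) (.cons (.br (nat_lit 13) (nat_lit 1) (.cons (.rf (nat_lit 626) (nat_lit 383180897468721241257)) (.cons (.rf (nat_lit 626) (nat_lit 382064001459474865417)) (.cons (.br (nat_lit 14) (nat_lit 1) (.cons (.rf (nat_lit 629) (nat_lit 17022140995484340291616)) (.cons (.rf (nat_lit 629) (nat_lit 17021024099475093915776)) (.cons (.br (nat_lit 11) (nat_lit 1) (.cons (.rf (nat_lit 632) (nat_lit 583706118939841765935136)) (.cons (.rf (nat_lit 633) (nat_lit 583706118939841765935136)) (.cons (.br (nat_lit 11) (nat_lit 1) (.cons (.rf (nat_lit 632) (nat_lit 583706118939841765935136)) (.cons (.rf (nat_lit 633) (nat_lit 583706118939841765935136)) (.cons (.br (nat_lit 12) (nat_lit 1) (.cons (.rf (nat_lit 633) (nat_lit 583705002043832519559296)) (.cons (.rf (nat_lit 634) (nat_lit 677582165103132179601393696)) (.cons (.rf (nat_lit 634) (nat_lit 640105464695078675185502240)) .nil)))) .nil))))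 .nil)))) .nil)))) (.cons (.br (nat_lit 11) (nat_lit 1) (.cons (.rf (nat_lit 642) (nat_lit 583706118939841765935136)) (.cons (.rf (nat_lit 653) (nat_lit 583706118939841765935136)) (.cons (.rf (nat_lit 653) (nat_lit 546997101289630154726569)) (.cons (.br (nat_lit 11) (nat_lit 1) (.cons (.rf (nat_lit 642) (nat_lit 583706118939841765935136)) (.cons (.rf (nat_lit 653) (nat_lit 583706118939841765935136)) (.cons (.rf (nat_lit 653) (nat_lit 546997101289630154726569)) (.cons (.br (nat_lit 12) (nat_lit 1) (.cons (.rf (nat_lit 653) (nat_lit 583705002043832519559296)) (.cons (.rf (nat_lit 653) (nat_lit 546995984393620908350729)) (.cons (.rf (nat_lit 655) (nat_lit 677582165103132179601393696)) (.cons (.rf (nat_lit 655) (nat_lit 640105464695078675185502240)) .nil))))) .nil))))) .nil))))) .nil))))) .nil)))),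
 (.br (nat_lit 10) (nat_lit 1) (.cons (.br (nat_lit 14) (nat_lit 1) (.cons (.kr (nat_lit 1329228075014292035354523627620925696) (nat_lit 5212579577623507567044685526532096) (nat_lit 1) (nat_lit 0)) .nil)) .nil)),
 (.br (nat_lit 10) (nat_lit 1) (.cons (.rf (nat_lit 657) (nat_lit 583706118939841765935136)) (.cons (.br (nat_lit 10) (nat_lit 1) (.cons (.rf (nat_lit 657) (nat_lit 583706118939841765935136)) .nil)) .nil))),
 (.br (nat_lit 15) (nat_lit 1) (.cons (.br (nat_lit 12) (nat_lit 1) (.cons (.ev (nat_lit 40723277954961360146672549757699) (nat_lit 2)) (.cons (.rf (nat_lit 399) (nat_lit 631047530908920034)) .nil))) (.cons (.br (nat_lit 16) (nat_lit 1) (.cons (.ev (nat_lit 2049669650629983531179557248884468483841) (nat_lit 3)) (.cons (.rf (nat_lit 400) (nat_lit 631047530908920034)) .nil))) (.cons (.rf (nat_lit 658) (nat_lit 661701333108492051024961)) .nil)))),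
 (.br (nat_lit 12) (nat_lit 1) (.cons (.ev (nat_lit 40723277954961360146672549757699) (nat_lit 2)) (.cons (.br (nat_lit 17) (nat_lit 1) (.cons (.ev (nat_lit 174224592633025461475227754420392905802499) (nat_lit 3)) (.cons (.ev (nat_lit 522673736400632507627028155365330186667267) (nat_lit 3)) .nil))) .nil))),
 (.br (nat_lit 11) (nat_lit 1) (.cons (.ev (nat_lit 5192297168024578335441577423470848) (nat_lit 1)) (.cons (.rf (nat_lit 659) (nat_lit 19926519232773908561233952)) (.cons (.rf (nat_lit 659) (nat_lit 18755261667614264687434921)) (.cons (.br (nat_lit 12) (nat_lit 1) (.cons (.rf (nat_lit 660) (nat_lit 677582165103132179601393696)) (.cons (.rf (nat_lit 660) (nat_lit 676410907537972535727594665)) (.cons (.br (nat_lit 12) (nat_lit 1) (.cons (.rf (nat_lit 660) (nat_lit 677582165103132179601393696)) (.cons (.rf (nat_lit 660) (nat_lit 676410907537972535727594665)) .nil))) .nil)))) .nil))))),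
 (.br (nat_lit 12) (nat_lit 1) (.cons (.rf (nat_lit 202) (nat_lit 631013479366929603)) (.cons (.br (nat_lit 15) (nat_lit 1) (.cons (.ev (nat_lit 2049669650629983531179557248884468483841) (nat_lit 3)) (.cons (.br (nat_lit 16) (nat_lit 1) (.cons (.zr (nat_lit 683223473789657122931080593780136214528) (nat_lit 20770455096828816251106075443465477) (nat_lit 24) (nat_lit 4)) .nil)) .nil))) (.cons (.br (nat_lit 17) (nat_lit 1) (.cons (.ev (nat_lit 174224592632867624120255761358350333378819) (nat_lit 3)) (.cons (.ev (nat_lit 522673736400790344982000146175573079623427) (nat_lit 3)) .nil))) .nil)))),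
 (.br (nat_lit 11) (nat_lit 1) (.cons (.rf (nat_lit 662) (nat_lit 677582165103132179601393696)) (.cons (.rf (nat_lit 662) (nat_lit 676410907537972535727594665)) (.cons (.br (nat_lit 12) (nat_lit 1) (.cons (.rf (nat_lit 662) (nat_lit 677582163986236170355017856)) (.cons (.rf (nat_lit 662) (nat_lit 676410906421076526481218825)) (.cons (.ev (nat_lit 174224603017619795097161552421842669668097) (nat_lit 3)) .nil)))) .nil)))),
 (.br (nat_lit 11) (nat_lit 1) (.cons (.rf (nat_lit 663) (nat_lit 677582165103132179601393696)) (.cons (.ev (nat_lit 40565440599915580112733185638659) (nat_lit 2)) (.cons (.br (nat_lit 17) (nat_lit 1) (.cons (.br (nat_lit 12) (nat_lit 1) (.cons (.ev (nat_lit 174224582248273290498469539570120646591749) (nat_lit 3)) (.cons (.ev (nat_lit 522673726016196011360213924378547165594373) (nat_lit 3)) .nil))) (.cons (.ev (nat_lit 174224577055817662522029731412128278118915) (nat_lit 2)) (.cons (.ev (nat_lit 174224577096382484147221460864430906540035) (nat_lit 2)) .nil)))) .nil))))]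

theorem c21 : chkAll C T R L21 (nat_lit 636) = true := by decide +kernel

theorem l21 : (nat_lit 636) + L21.length = (nat_lit 665) := by decide +kernel

/-- part of the certificates -/
def L22 : List Prf := [(.br (nat_lit 13) (nat_lit 1) (.cons (.rf (nat_lit 626) (nat_lit 383180897468721241257)) (.cons (.rf (nat_lit 626) (nat_lit 382064001459474865417)) (.cons (.kr (nat_lit 1208925891672223212634113) (nat_lit 20282409608374036906816896565248) (nat_lit 0) (nat_lit 1)) (.cons (.br (nat_lit 14) (nat_lit 1) (.cons (.rf (nat_lit 661) (nat_lit 19926519232773908561233952)) (.cons (.rf (nat_lit 661) (nat_lit 19926518115877899314858112)) (.cons (.ev (nat_lit 10384593719492247853633494835004161) (nat_lit 2)) (.cons (.ev (nat_lit 10425158536281736304627280764862721) (nat_lit 2)) (.cons (.br (nat_lit 11) (nat_lit 1) (.cons (.rf (nat_lit 663) (nat_lit 677582165103132179601393696)) (.cons (.rf (nat_lit 664) (nat_lit 677582165103132179601393696)) (.cons (.rf (nat_lit 664) (nat_lit 676410907537972535727594665)) (.cons (.br (nat_lit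 11) (nat_lit 1) (.cons (.rf (nat_lit 663) (nat_lit 677582165103132179601393696)) (.cons (.rf (nat_lit 664) (nat_lit 677582165103132179601393696)) (.cons (.rf (nat_lit 664) (nat_lit 676410907537972535727594665)) .nil)))) .nil))))) .nil)))))) .nil))))),
 (.br (nat_lit 14) (nat_lit 1) (.cons (.br (nat_lit 15) (nat_lit 1) (.cons (.ev (nat_lit 2668840743743231170407143505035002115) (nat_lit 2)) (.cons (.rf (nat_lit 648) (nat_lit 660557600038939045038177)) .nil))) (.cons (.rf (nat_lit 225) (nat_lit 629956848692636867)) (.cons (.br (nat_lit 16) (nat_lit 1) (.cons (.rf (nat_lit 650) (nat_lit 660557600038939045038177)) (.cons (.ev (nat_lit 174905136597362989194971897626260924269315) (nat_lit 2)) .nil))) .nil)))),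
 (.br (nat_lit 12) (nat_lit 1) (.cons (.rf (nat_lit 628) (nat_lit 661701298171509037238369)) (.cons (.ev (nat_lit 79538861190718525334309896193) (nat_lit 1)) (.cons (.rf (nat_lit 666) (nat_lit 677582165103132179601393696)) (.cons (.rf (nat_lit 666) (nat_lit 640105464695078675185502240)) .nil))))),
 (.br (nat_lit 11) (nat_lit 1) (.cons (.rf (nat_lit 667) (nat_lit 677582165103132179601393696)) (.cons (.rf (nat_lit 667) (nat_lit 677545566762889939850987552)) (.cons (.rf (nat_lit 667) (nat_lit 597870869378126031356009641)) (.cons (.rf (nat_lit 667) (nat_lit 597834271037883791605603497)) .nil))))),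
 (.br (nat_lit 15) (nat_lit 1) (.cons (.ev (nat_lit 40723277954961360146672549757699) (nat_lit 2)) (.cons (.ev (nat_lit 2049669569818490870965652720751661418241) (nat_lit 3)) (.cons (.rf (nat_lit 658) (nat_lit 661701298171509037238369)) .nil)))),
 (.br (nat_lit 12) (nat_lit 1) (.cons (.ev (nat_lit 2668840585905876198414081445282710275) (nat_lit 2)) (.cons (.rf (nat_lit 669) (nat_lit 19926519232773908561233952)) (.cons (.rf (nat_lit 669) (nat_lit 21135445052388537735940128)) .nil)))),
 (.br (nat_lit 15) (nat_lit 1) (.cons (.rf (nat_lit 670) (nat_lit 677545566762889939850987552)) (.cons (.ev (nat_lit 2668840585905876198414081445282710275) (nat_lit 2)) (.cons (.br (nat_lit 16) (nat_lit 1) (.cons (.zr (nat_lit 40566057152064993275092807188481) (nat_lit 683223189833449176579536290463608734464) (nat_lit 8) (nat_lit 4)) (.cons (.ev (nat_lit 174905136597362989194971897626260924269315) (nat_lit 2)) .nil))) .nil)))),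
 (.br (nat_lit 14) (nat_lit 1) (.cons (.rf (nat_lit 670) (nat_lit 677582165103132179601393696)) (.cons (.kr (nat_lit 5192296858534827628530496329220096) (nat_lit 1329227995784915872903807060280344576) (nat_lit 14) (nat_lit 0)) (.cons (.rf (nat_lit 671) (nat_lit 677582165103132179601393696)) (.cons (.rf (nat_lit 671) (nat_lit 640105464695078675185502240)) .nil))))),
 (.br (nat_lit 12) (nat_lit 1) (.cons (.rf (nat_lit 669) (nat_lit 19926518115877899314858112)) (.cons (.ev (nat_lit 680575118515131644161577153655478550786) (nat_lit 2)) (.cons (.br (nat_lit 16) (nat_lit 1) (.cons (.br (nat_lit 15) (nat_lit 1) (.cons (.ev (nat_lit 1334420372182311891250862890919460865) (nat_lit 1)) .nil)) (.cons (.ev (nat_lit 87452568319043132365985468757041928470785) (nat_lit 1)) .nil))) .nil)))),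
 (.br (nat_lit 6) (nat_lit 1) (.cons (.br (nat_lit 6) (nat_lit 1) .nil) .nil)),
 (.br (nat_lit 10) (nat_lit 1) (.cons (.kr (nat_lit 1213648186378973796630784) (nat_lit 309485028268090241946025984) (nat_lit 1) (nat_lit 0)) .nil)),
 (.br (nat_lit 10) (nat_lit 1) (.cons (.rf (nat_lit 675) (nat_lit 583706118939841765935136)) (.cons (.rf (nat_lit 675) (nat_lit 505863056708561338075332)) .nil))),
 (.br (nat_lit 14) (nat_lit 1) (.cons (.rf (nat_lit 673) (nat_lit 677582165103132179601393696)) (.cons (.br (nat_lit 16) (nat_lit 1) (.cons (.rf (nat_lit 673) (nat_lit 597870869378126031356009641)) (.cons (.rf (nat_lit 674) (nat_lit 631047566517311586)) (.cons (.br (nat_lit 15) (nat_lit 1) (.cons (.zr (nat_lit 2679265743823192526762032622200685312) (nat_lit 680564733841884180500114210761792815105) (nat_lit 8) (nat_lit 0)) (.cons (.ev (nat_lit 174907805478513097721491193007775265456387) (nat_lit 2)) .nil))) .nil)))) (.cons (.rf (nat_lit 676) (nat_lit 661701333108492051024961)) (.cons (.br (nat_lit 16) (nat_lit 1) (.cons (.rf (nat_lit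 673) (nat_lit 597870869378126031356009641)) (.cons (.br (nat_lit 15) (nat_lit 1) (.cons (.ev (nat_lit 688560952134896920898504656212810139397) (nat_lit 3)) (.cons (.ev (nat_lit 174907805478513097721491193007775265456387) (nat_lit 2)) .nil))) (.cons (.rf (nat_lit 674) (nat_lit 556810637356898407)) .nil)))) .nil))))),
 (.br (nat_lit 11) (nat_lit 1) (.cons (.rf (nat_lit 668) (nat_lit 677582165103132179601393696)) (.cons (.rf (nat_lit 672) (nat_lit 677582165103132179601393696)) (.cons (.rf (nat_lit 677) (nat_lit 677582165103132179601393696)) (.cons (.rf (nat_lit 677) (nat_lit 640105464695078675185502240)) .nil))))),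
 (.br (nat_lit 0) (nat_lit 0) (.cons (.rf (nat_lit 0) (nat_lit 8556576)) (.cons (.rf (nat_lit 0) (nat_lit 5509152)) (.cons (.br (nat_lit 5) (nat_lit 0) (.cons (.rf (nat_lit 106) (nat_lit 4461600)) (.cons (.br (nat_lit 8) (nat_lit 0) (.cons (.br (nat_lit 2) (nat_lit 1) (.cons (.rf (nat_lit 441) (nat_lit 325702574508064)) (.cons (.rf (nat_lit 441) (nat_lit 322400916015232)) (.cons (.ev (nat_lit 18662917968220062466) (nat_lit 2)) (.cons (.br (nat_lit 3) (nat_lit 1) (.cons (.ev (nat_lit 4722367327303215612419) (nat_lit 2)) (.cons (.rf (nat_lit 441) (nat_lit 4473250487465)) (.cons (.rf (nat_lit 497) (nat_lit 11584701642934304)) (.cons (.br (nat_lit 6) (nat_lit 1) (.cons (.rf (nat_lit 441) (nat_lit 1171591994633)) (.cons (.rf (nat_lit 497) (nat_lit 11581399984441472)) (.cons (.br (nat_lit 7) (nat_lit 1) (.cons (.br (nat_lit 10) (nat_lit 1) (.cons (.ev (nat_lit 4840555205066143172003585) (nat_lit 3)) (.cons (.br (nat_lit 11) (nat_lit 1) (.cons (.ev (nat_lit 1242780520704591607980491521) (nat_lit 3)) (.cons (.br (nat_lit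 12) (nat_lit 1) (.cons (.rf (nat_lit 501) (nat_lit 493858305440582043680)) (.cons (.br (nat_lit 12) (nat_lit 1) (.cons (.rf (nat_lit 501) (nat_lit 493858305440582043680)) (.cons (.br (nat_lit 13) (nat_lit 1) (.cons (.rf (nat_lit 503) (nat_lit 583706118939841765935136)) (.cons (.rf (nat_lit 503) (nat_lit 547107778697602015528992)) (.cons (.br (nat_lit 13) (nat_lit 1) (.cons (.rf (nat_lit 503) (nat_lit 583706118939841765935136)) (.cons (.rf (nat_lit 503) (nat_lit 547107778697602015528992)) (.cons (.br (nat_lit 14) (nat_lit 1) (.cons (.rf (nat_lit 505) (nat_lit 677582165103132179601393696)) (.cons (.rf (nat_lit 506) (nat_lit 677582165103132179601393696)) (.cons (.rf (nat_lit 506) (nat_lit 640105464695078675185502240)) .nil)))) .nil)))) .nil)))) .nil))) .nil))) .nil))) .nil))) (.cons (.ev (nat_lit 309485028340147835983888384) (nat_lit 1)) (.cons (.br (nat_lit 11) (nat_lit 1) (.cons (.rf (nat_lit 512) (nat_lit 14242959524133701664)) (.cons (.rf (nat_lit 512) (nat_lit 11939047085409672361)) (.cons (.br (nat_lit 10) (nat_lit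 1) (.cons (.rf (nat_lit 525) (nat_lit 493858305440582043680)) (.cons (.rf (nat_lit 535) (nat_lit 493858305440582043680)) (.cons (.br (nat_lit 10) (nat_lit 1) (.cons (.rf (nat_lit 525) (nat_lit 493858305440582043680)) (.cons (.rf (nat_lit 535) (nat_lit 493858305440582043680)) (.cons (.br (nat_lit 12) (nat_lit 1) (.cons (.rf (nat_lit 535) (nat_lit 491554393001858014377)) (.cons (.rf (nat_lit 538) (nat_lit 583706118939841765935136)) (.cons (.rf (nat_lit 538) (nat_lit 547107778697602015528992)) (.cons (.br (nat_lit 12) (nat_lit 1) (.cons (.rf (nat_lit 535) (nat_lit 491554393001858014377)) (.cons (.rf (nat_lit 538) (nat_lit 583706118939841765935136)) (.cons (.rf (nat_lit 538) (nat_lit 547107778697602015528992)) (.cons (.br (nat_lit 13) (nat_lit 1) (.cons (.rf (nat_lit 540) (nat_lit 677582165103132179601393696)) (.cons (.rf (nat_lit 540) (nat_lit 677545566762889939850987552)) (.cons (.rf (nat_lit 540) (nat_lit 597870977751621564492782761)) (.cons (.rf (nat_lit 540) (nat_lit 597834379411379324742376617)) .nil))))) .nil)))))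 .nil))))) .nil)))) .nil)))) .nil)))) .nil)))) (.cons (.br (nat_lit 7) (nat_lit 1) (.cons (.br (nat_lit 10) (nat_lit 1) (.cons (.rf (nat_lit 545) (nat_lit 14242959524133701664)) (.cons (.rf (nat_lit 545) (nat_lit 13126063514887325824)) (.cons (.br (nat_lit 11) (nat_lit 1) (.cons (.rf (nat_lit 556) (nat_lit 493858305440582043680)) (.cons (.rf (nat_lit 563) (nat_lit 493858305440582043680)) (.cons (.br (nat_lit 11) (nat_lit 1) (.cons (.rf (nat_lit 556) (nat_lit 493858305440582043680)) (.cons (.rf (nat_lit 563) (nat_lit 493858305440582043680)) (.cons (.br (nat_lit 12) (nat_lit 1) (.cons (.rf (nat_lit 563) (nat_lit 492741409431335667840)) (.cons (.rf (nat_lit 568) (nat_lit 583706118939841765935136)) (.cons (.rf (nat_lit 568) (nat_lit 547107778697602015528992)) (.cons (.br (nat_lit 12) (nat_lit 1) (.cons (.rf (nat_lit 563) (nat_lit 492741409431335667840)) (.cons (.rf (nat_lit 568) (nat_lit 583706118939841765935136)) (.cons (.rf (nat_lit 568) (nat_lit 547107778697602015528992)) (.cons (.br (nat_lit 13) (nat_lit 1) (.cons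 (.rf (nat_lit 570) (nat_lit 677582165103132179601393696)) (.cons (.rf (nat_lit 570) (nat_lit 677545566762889939850987552)) (.cons (.rf (nat_lit 570) (nat_lit 597870978938637993970436224)) (.cons (.rf (nat_lit 570) (nat_lit 597834380598395754220030080)) .nil))))) .nil))))) .nil))))) .nil)))) .nil)))) .nil)))) (.cons (.rf (nat_lit 497) (nat_lit 12389372225756329)) (.cons (.rf (nat_lit 497) (nat_lit 13511970474106121)) (.cons (.br (nat_lit 10) (nat_lit 1) (.cons (.rf (nat_lit 626) (nat_lit 493858305440582043680)) (.cons (.rf (nat_lit 626) (nat_lit 492741409431335667840)) (.cons (.rf (nat_lit 656) (nat_lit 493858305440582043680)) (.cons (.br (nat_lit 10) (nat_lit 1) (.cons (.rf (nat_lit 626) (nat_lit 493858305440582043680)) (.cons (.rf (nat_lit 626) (nat_lit 492741409431335667840)) (.cons (.rf (nat_lit 656) (nat_lit 493858305440582043680)) (.cons (.br (nat_lit 13) (nat_lit 1) (.cons (.rf (nat_lit 626) (nat_lit 383180897468721241257)) (.cons (.rf (nat_lit 626) (nat_lit 382064001459474865417)) (.cons (.rf (nat_lit 665)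 (nat_lit 583706118939841765935136)) (.cons (.rf (nat_lit 665) (nat_lit 547107778697602015528992)) (.cons (.br (nat_lit 13) (nat_lit 1) (.cons (.rf (nat_lit 626) (nat_lit 383180897468721241257)) (.cons (.rf (nat_lit 626) (nat_lit 382064001459474865417)) (.cons (.rf (nat_lit 665) (nat_lit 583706118939841765935136)) (.cons (.rf (nat_lit 665) (nat_lit 547107778697602015528992)) (.cons (.br (nat_lit 11) (nat_lit 1) (.cons (.rf (nat_lit 668) (nat_lit 677582165103132179601393696)) (.cons (.rf (nat_lit 678) (nat_lit 677582165103132179601393696)) (.cons (.rf (nat_lit 678) (nat_lit 677545566762889939850987552)) (.cons (.rf (nat_lit 678) (nat_lit 597870869378126031356009641)) (.cons (.rf (nat_lit 678) (nat_lit 597834271037883791605603497)) .nil)))))) .nil)))))) .nil)))))) .nil))))) .nil))))) .nil))))) .nil))))) .nil))))) .nil))))) .nil)) .nil))) .nil)))),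
 (.br (nat_lit 14) (nat_lit 1) (.cons (.br (nat_lit 15) (nat_lit 1) (.cons (.ev (nat_lit 5337681171816583322833941834418750209) (nat_lit 3)) (.cons (.rf (nat_lit 80) (nat_lit 631044055485524066)) .nil))) .nil)),
 (.br (nat_lit 15) (nat_lit 1) (.cons (.ev (nat_lit 1365716132057684922884145336843436807) (nat_lit 3)) .nil)),
 (.br (nat_lit 12) (nat_lit 1) (.cons (.br (nat_lit 13) (nat_lit 1) (.cons (.ev (nat_lit 81446551069441590442703437562625) (nat_lit 3)) (.cons (.br (nat_lit 14) (nat_lit 1) (.cons (.rf (nat_lit 680) (nat_lit 583706118939841765935136)) (.cons (.br (nat_lit 14) (nat_lit 1) (.cons (.rf (nat_lit 680) (nat_lit 583706118939841765935136)) (.cons (.br (nat_lit 15) (nat_lit 1) (.cons (.rf (nat_lit 681) (nat_lit 677582165103132179601393696)) (.cons (.rf (nat_lit 681) (nat_lit 640105464695078675185502240)) .nil))) .nil))) .nil))) .nil))) .nil)),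
 (.br (nat_lit 15) (nat_lit 1) (.cons (.ev (nat_lit 20769505584734184708253589942174465) (nat_lit 3)) (.cons (.br (nat_lit 16) (nat_lit 1) (.cons (.ev (nat_lit 20850317077394398615033522562401025) (nat_lit 3)) (.cons (.ev (nat_lit 1366446379668136297865818249576174715649) (nat_lit 3)) .nil))) .nil))),
 (.br (nat_lit 13) (nat_lit 1) (.cons (.ev (nat_lit 121853540175364894647756183832321) (nat_lit 3)) (.cons (.br (nat_lit 15) (nat_lit 1) (.cons (.ev (nat_lit 20769505584734184708253589942174465) (nat_lit 3)) (.cons (.rf (nat_lit 683) (nat_lit 19926519232773908561233952)) (.cons (.br (nat_lit 15) (nat_lit 1) (.cons (.ev (nat_lit 20769505584734184708253589942174465) (nat_lit 3)) (.cons (.rf (nat_lit 683) (nat_lit 19926519232773908561233952)) .nil))) .nil)))) .nil))),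
 (.br (nat_lit 14) (nat_lit 1) (.cons (.kr (nat_lit 20282409603651670423947251286016) (nat_lit 5192296858534827628530496329220096) (nat_lit 13) (nat_lit 0)) (.cons (.ev (nat_lit 5212817572805004447763449726042624) (nat_lit 2)) .nil))),
 (.br (nat_lit 13) (nat_lit 1) (.cons (.rf (nat_lit 685) (nat_lit 19926519232773908561233952)) (.cons (.rf (nat_lit 685) (nat_lit 18755372345022236548237344)) .nil)))]

theorem c22 : chkAll C T R L22 (nat_lit 665) = true := by decide +kernel

theorem l22 : (nat_lit 665) + L22.length = (nat_lit 687) := by decide +kernel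

/-- part of the certificates -/
def L23 : List Prf := [(.br (nat_lit 14) (nat_lit 1) (.cons (.rf (nat_lit 686) (nat_lit 21174442659472845144426528)) (.cons (.br (nat_lit 16) (nat_lit 1) (.cons (.br (nat_lit 15) (nat_lit 1) (.cons (.ev (nat_lit 87467247104681189875842132208450129297928) (nat_lit 4)) .nil)) (.cons (.ev (nat_lit 1361150236872430773684717143320370217729) (nat_lit 3)) .nil))) .nil))),
 (.br (nat_lit 15) (nat_lit 1) (.cons (.br (nat_lit 16) (nat_lit 1) (.cons (.ev (nat_lit 88137125929169842759063425161174074982400) (nat_lit 2)) .nil)) .nil)),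
 (.br (nat_lit 13) (nat_lit 1) (.cons (.zr (nat_lit 79538875376264716917443396096) (nat_lit 20282409603651742765223895957504) (nat_lit 8) (nat_lit 0)) (.cons (.br (nat_lit 14) (nat_lit 1) (.cons (.ev (nat_lit 10385070945377502904080921719473921) (nat_lit 3)) (.cons (.ev (nat_lit 10506288179532046698820424406532865) (nat_lit 3)) (.cons (.br (nat_lit 15) (nat_lit 1) (.cons (.rf (nat_lit 688) (nat_lit 677582165103132179601393696)) (.cons (.br (nat_lit 15) (nat_lit 1) (.cons (.rf (nat_lit 688) (nat_lit 677582165103132179601393696)) .nil)) .nil))) .nil)))) .nil))),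
 (.br (nat_lit 14) (nat_lit 1) (.cons (.kr (nat_lit 20282409603651670423947251286016) (nat_lit 5192296858534827628530496329220096) (nat_lit 13) (nat_lit 0)) (.cons (.ev (nat_lit 5212658497509919454964264648835073) (nat_lit 1)) .nil))),
 (.br (nat_lit 13) (nat_lit 1) (.cons (.rf (nat_lit 690) (nat_lit 19926519232773908561233952)) (.cons (.rf (nat_lit 690) (nat_lit 18755372345022236548237344)) .nil))),
 (.br (nat_lit 13) (nat_lit 1) (.cons (.rf (nat_lit 691) (nat_lit 19926519232773908561233952)) (.cons (.br (nat_lit 15) (nat_lit 1) (.cons (.br (nat_lit 14) (nat_lit 1) (.cons (.ev (nat_lit 341611594995952750776434424313116884993) (nat_lit 1)) .nil)) (.cons (.kr (nat_lit 1329227995784915872903807060280344576) (nat_lit 340282366920938463463374607431768211456) (nat_lit 15) (nat_lit 0)) .nil))) .nil))),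
 (.br (nat_lit 11) (nat_lit 1) (.cons (.ev (nat_lit 618974760600596331230266115) (nat_lit 2)) (.cons (.br (nat_lit 12) (nat_lit 1) (.cons (.rf (nat_lit 49) (nat_lit 426517047394)) (.cons (.br (nat_lit 12) (nat_lit 1) (.cons (.rf (nat_lit 49) (nat_lit 426517047394)) (.cons (.br (nat_lit 13) (nat_lit 1) (.cons (.rf (nat_lit 689) (nat_lit 583706118939841765935136)) (.cons (.rf (nat_lit 689) (nat_lit 547107778697602015528992)) (.cons (.br (nat_lit 13) (nat_lit 1) (.cons (.rf (nat_lit 689) (nat_lit 583706118939841765935136)) (.cons (.rf (nat_lit 689) (nat_lit 547107778697602015528992)) (.cons (.br (nat_lit 14) (nat_lit 1) (.cons (.rf (nat_lit 691) (nat_lit 21174442659472880612509728)) (.cons (.rf (nat_lit 692) (nat_lit 21174442659472880612509728)) (.cons (.rf (nat_lit 692) (nat_lit 20003295771721208599513120)) .nil)))) .nil)))) .nil)))) .nil))) .nil))) .nil))),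
 (.br (nat_lit 13) (nat_lit 1) (.cons (.ev (nat_lit 41042052350854555687031547365121) (nat_lit 3)) (.cons (.br (nat_lit 14) (nat_lit 1) (.cons (.br (nat_lit 15) (nat_lit 1) (.cons (.ev (nat_lit 1334440575362544084390589446542590208) (nat_lit 1)) (.cons (.rf (nat_lit 98) (nat_lit 629812602530605154)) .nil))) (.cons (.br (nat_lit 16) (nat_lit 1) (.cons (.ev (nat_lit 680564774565152463999576646329374343939) (nat_lit 2)) (.cons (.rf (nat_lit 89) (nat_lit 560006808306362466)) .nil))) (.cons (.br (nat_lit 15) (nat_lit 1) (.cons (.br (nat_lit 15) (nat_lit 1) (.cons (.ev (nat_lit 1334440654281216884913843175409385473) (nat_lit 1)) .nil)) (.cons (.br (nat_lit 15) (nat_lit 1) (.cons (.ev (nat_lit 1334440654281216884913843175409385473) (nat_lit 1)) .nil)) .nil))) .nil)))) .nil))),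
 (.br (nat_lit 15) (nat_lit 1) (.cons (.ev (nat_lit 1363798308269045595735982320588532351745) (nat_lit 3)) (.cons (.ev (nat_lit 1334481298948765629751609870572978690) (nat_lit 2)) .nil))),
 (.br (nat_lit 14) (nat_lit 1) (.cons (.rf (nat_lit 695) (nat_lit 677582165103132179601393696)) (.cons (.rf (nat_lit 695) (nat_lit 640105464695078675185502240)) .nil))),
 (.br (nat_lit 14) (nat_lit 1) (.cons (.rf (nat_lit 696) (nat_lit 677582165103132179601393696)) (.cons (.br (nat_lit 16) (nat_lit 1) (.cons (.br (nat_lit 15) (nat_lit 1) (.cons (.ev (nat_lit 87477922792176571073829634994322912907278) (nat_lit 5)) .nil)) (.cons (.ev (nat_lit 680564774407315108990690659089269261059) (nat_lit 2)) .nil))) .nil))),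
 (.br (nat_lit 11) (nat_lit 1) (.cons (.ev (nat_lit 310693954160042844935421953) (nat_lit 1)) (.cons (.br (nat_lit 12) (nat_lit 1) (.cons (.ev (nat_lit 79229371458603036464954540033) (nat_lit 1)) (.cons (.kr (nat_lit 309485009821346168236474368) (nat_lit 79228162514264337597855694848) (nat_lit 2) (nat_lit 0)) (.cons (.br (nat_lit 13) (nat_lit 1) (.cons (.rf (nat_lit 694) (nat_lit 583706118939841765935136)) (.cons (.rf (nat_lit 694) (nat_lit 547106661804861109111840)) (.cons (.br (nat_lit 13) (nat_lit 1) (.cons (.rf (nat_lit 694) (nat_lit 583706118939841765935136)) (.cons (.rf (nat_lit 694) (nat_lit 547106661804861109111840)) (.cons (.br (nat_lit 14) (nat_lit 1) (.cons (.rf (nat_lit 696) (nat_lit 677582165103132179601393696)) (.cons (.rf (nat_lit 697) (nat_lit 677582165103132179601393696)) (.cons (.rf (nat_lit 697) (nat_lit 640105464695078675185502240)) .nil)))) .nil)))) .nil)))) .nil)))) .nil))),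
 (.br (nat_lit 14) (nat_lit 1) (.cons (.ev (nat_lit 10425159155251719198505218391278339) (nat_lit 2)) (.cons (.br (nat_lit 12) (nat_lit 1) (.cons (.br (nat_lit 15) (nat_lit 1) (.cons (.ev (nat_lit 1334420371872826863055111722283106560) (nat_lit 1)) (.cons (.rf (nat_lit 69) (nat_lit 596107073544431714)) .nil))) (.cons (.br (nat_lit 16) (nat_lit 1) (.cons (.ev (nat_lit 680575240446966691252219096059726923521) (nat_lit 3)) (.cons (.rf (nat_lit 469) (nat_lit 631047566517311586)) .nil))) (.cons (.br (nat_lit 15) (nat_lit 1) (.cons (.br (nat_lit 15) (nat_lit 1) (.cons (.ev (nat_lit 1334440654281216884913843175409385473) (nat_lit 1)) .nil)) (.cons (.br (nat_lit 15) (nat_lit 1) (.cons (.ev (nat_lit 1334440654281216884913843175409385473) (nat_lit 1)) .nil)) .nil))) .nil)))) .nil))),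
 (.br (nat_lit 12) (nat_lit 1) (.cons (.rf (nat_lit 699) (nat_lit 583706118939841765935136)) (.cons (.br (nat_lit 15) (nat_lit 1) (.cons (.br (nat_lit 14) (nat_lit 1) (.cons (.ev (nat_lit 1334440654281221588833583066561708288) (nat_lit 1)) (.cons (.rf (nat_lit 471) (nat_lit 631047566517311586)) .nil))) (.cons (.ev (nat_lit 2658456150028579366788746621782852355) (nat_lit 2)) (.cons (.br (nat_lit 14) (nat_lit 1) (.cons (.br (nat_lit 14) (nat_lit 1) (.cons (.ev (nat_lit 1344845530717389405800290281762914561) (nat_lit 2)) .nil)) (.cons (.br (nat_lit 14) (nat_lit 1) (.cons (.ev (nat_lit 1344845530717389405800290281762914561) (nat_lit 2)) .nil)) .nil))) .nil)))) .nil))),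
 (.br (nat_lit 15) (nat_lit 1) (.cons (.ev (nat_lit 2658455992191224357902763762544411395) (nat_lit 2)) (.cons (.ev (nat_lit 685892030418738500555040719845556617985) (nat_lit 3)) (.cons (.ev (nat_lit 1334420371872822159135374021564104705) (nat_lit 1)) .nil)))),
 (.br (nat_lit 14) (nat_lit 1) (.cons (.rf (nat_lit 701) (nat_lit 677582165103132179601393696)) (.cons (.br (nat_lit 16) (nat_lit 1) (.cons (.br (nat_lit 15) (nat_lit 1) (.cons (.ev (nat_lit 2658496714845368818635045586398610179) (nat_lit 2)) .nil)) (.cons (.ev (nat_lit 2041725355624937420323780769550740882177) (nat_lit 3)) .nil))) .nil))),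
 (.br (nat_lit 11) (nat_lit 1) (.cons (.ev (nat_lit 310693954160042844935421953) (nat_lit 1)) (.cons (.br (nat_lit 13) (nat_lit 1) (.cons (.ev (nat_lit 20282413244614892477724498199297) (nat_lit 2)) (.cons (.ev (nat_lit 20282719093383858251889933025536) (nat_lit 1)) (.cons (.br (nat_lit 12) (nat_lit 1) (.cons (.rf (nat_lit 699) (nat_lit 583706118939841765935136)) (.cons (.rf (nat_lit 700) (nat_lit 583706118939841765935136)) (.cons (.br (nat_lit 12) (nat_lit 1) (.cons (.rf (nat_lit 699) (nat_lit 583706118939841765935136)) (.cons (.rf (nat_lit 700) (nat_lit 583706118939841765935136)) (.cons (.br (nat_lit 14) (nat_lit 1) (.cons (.br (nat_lit 14) (nat_lit 1) (.cons (.rf (nat_lit 701) (nat_lit 677582165103132179601393696)) (.cons (.rf (nat_lit 701) (nat_lit 640105464695078675185502240)) .nil))) (.cons (.rf (nat_lit 702) (nat_lit 677582165103132179601393696)) (.cons (.rf (nat_lit 702) (nat_lit 640105464695078675185502240)) .nil)))) .nil)))) .nil)))) .nil)))) .nil))),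
 (.br (nat_lit 9) (nat_lit 1) (.cons (.br (nat_lit 10) (nat_lit 1) (.cons (.br (nat_lit 11) (nat_lit 1) .nil) .nil)) (.cons (.rf (nat_lit 485) (nat_lit 407901468851537952)) .nil))),
 (.br (nat_lit 12) (nat_lit 1) (.cons (.ev (nat_lit 5212659428406449429090833596220928) (nat_lit 3)) (.cons (.rf (nat_lit 704) (nat_lit 17395797936281698)) .nil))),
 (.br (nat_lit 13) (nat_lit 1) (.cons (.zr (nat_lit 5337681170578638523854560543492800523) (nat_lit 81288713714377653578397275654912) (nat_lit 24) (nat_lit 9)) .nil)),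
 (.br (nat_lit 15) (nat_lit 1) (.cons (.ev (nat_lit 2658496714845368818635045586398610179) (nat_lit 2)) (.cons (.rf (nat_lit 489) (nat_lit 631047566517311586)) .nil))),
 (.br (nat_lit 15) (nat_lit 1) (.cons (.ev (nat_lit 2658455992191224357902763762544411395) (nat_lit 2)) (.cons (.br (nat_lit 16) (nat_lit 1) (.cons (.ev (nat_lit 340287559297026369749606174393051971585) (nat_lit 1)) (.cons (.rf (nat_lit 490) (nat_lit 629956849942338658)) .nil))) (.cons (.br (nat_lit 13) (nat_lit 1) (.cons (.br (nat_lit 13) (nat_lit 1) (.cons (.rf (nat_lit 701) (nat_lit 636555425691581419396106272)) .nil)) (.cons (.rf (nat_lit 701) (nat_lit 636555425691581419396106272)) .nil))) .nil)))),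
 (.br (nat_lit 15) (nat_lit 1) (.cons (.br (nat_lit 13) (nat_lit 1) (.cons (.ev (nat_lit 2049669569818495706595432428934447629057) (nat_lit 3)) (.cons (.ev (nat_lit 1334440654281221588833583066561708288) (nat_lit 1)) .nil))) (.cons (.ev (nat_lit 1334420292954149358612120292697309440) (nat_lit 1)) .nil))),
 (.br (nat_lit 12) (nat_lit 1) (.cons (.rf (nat_lit 703) (nat_lit 492741412699675626528)) (.cons (.br (nat_lit 14) (nat_lit 1) (.cons (.rf (nat_lit 705) (nat_lit 18240816215735075440672)) (.cons (.zr (nat_lit 20769187434139328960869370446217219) (nat_lit 159075299770682526332211954432) (nat_lit 8) (nat_lit 9)) (.cons (.br (nat_lit 15) (nat_lit 1) (.cons (.rf (nat_lit 705) (nat_lit 17097118083165083240480)) (.cons (.br (nat_lit 16) (nat_lit 1) (.cons (.zr (nat_lit 5337681329658897148134295612694726912) (nat_lit 2722258935367507707707720264493845184513) (nat_lit 56) (nat_lit 0)) (.cons (.br (nat_lit 13) (nat_lit 1) (.cons (.br (nat_lit 13) (nat_lit 1) .nil) .nil)) .nil))) (.cons (.br (nat_lit 13) (nat_lit 1) (.cons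 (.rf (nat_lit 706) (nat_lit 677582165103132179601393696)) (.cons (.rf (nat_lit 706) (nat_lit 640068866354836435435096096)) .nil))) .nil)))) .nil)))) (.cons (.br (nat_lit 14) (nat_lit 1) (.cons (.br (nat_lit 13) (nat_lit 1) (.cons (.rf (nat_lit 707) (nat_lit 19926519232773908561233952)) (.cons (.rf (nat_lit 707) (nat_lit 18755371228129495641820192)) (.cons (.br (nat_lit 15) (nat_lit 1) (.cons (.br (nat_lit 15) (nat_lit 1) (.cons (.rf (nat_lit 701) (nat_lit 561602024875474410564323360)) .nil)) (.cons (.br (nat_lit 15) (nat_lit 1) (.cons (.rf (nat_lit 701) (nat_lit 561602024875474410564323360)) .nil)) .nil))) .nil)))) (.cons (.rf (nat_lit 708) (nat_lit 19926519232773908561233952)) (.cons (.rf (nat_lit 708) (nat_lit 18755371228129495641820192)) (.cons (.br (nat_lit 13) (nat_lit 1) (.cons (.rf (nat_lit 709) (nat_lit 677582165103132179601393696)) (.cons (.rf (nat_lit 709) (nat_lit 676411017098487766681979936)) (.cons (.br (nat_lit 13) (nat_lit 1) (.cons (.rf (nat_lit 709) (nat_lit 677582165103132179601393696)) (.cons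 (.rf (nat_lit 709) (nat_lit 676411017098487766681979936)) .nil))) .nil)))) .nil))))) .nil)))),
 (.br (nat_lit 13) (nat_lit 1) (.cons (.br (nat_lit 15) (nat_lit 1) (.cons (.br (nat_lit 17) (nat_lit 1) .nil) (.cons (.ev (nat_lit 2668922190913265890826485331594052353) (nat_lit 3)) .nil))) (.cons (.ev (nat_lit 2041725436436420409130551919897846350593) (nat_lit 3)) (.cons (.ev (nat_lit 10425316992606728084492458496361219) (nat_lit 2)) .nil)))),
 (.br (nat_lit 14) (nat_lit 1) (.cons (.ev (nat_lit 10384594338462267352210634642162435) (nat_lit 2)) (.cons (.rf (nat_lit 711) (nat_lit 677582165103132179601393696)) (.cons (.rf (nat_lit 711) (nat_lit 640105464695078675185502240)) .nil)))),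
 (.br (nat_lit 6) (nat_lit 1) (.cons (.zr (nat_lit 18446747385129336835) (nat_lit 4722511161007674491648) (nat_lit 8) (nat_lit 9)) (.cons (.ev (nat_lit 2422592452459504534160131) (nat_lit 2)) (.cons (.br (nat_lit 7) (nat_lit 1) (.cons (.ev (nat_lit 2422592452457314134262531) (nat_lit 2)) (.cons (.br (nat_lit 10) (nat_lit 1) (.cons (.ev (nat_lit 4840481419215748240376577) (nat_lit 3)) (.cons (.br (nat_lit 11) (nat_lit 1) (.cons (.ev (nat_lit 1242780520704591607980491521) (nat_lit 3)) (.cons (.br (nat_lit 12) (nat_lit 1) (.cons (.rf (nat_lit 682) (nat_lit 493858305440582043680)) (.cons (.br (nat_lit 12) (nat_lit 1) (.cons (.rf (nat_lit 682) (nat_lit 493858305440582043680)) (.cons (.br (nat_lit 13) (nat_lit 1) (.cons (.rf (nat_lit 684) (nat_lit 583706118939841765935136)) (.cons (.rf (nat_lit 684) (nat_lit 547107778697602015528992)) (.cons (.br (nat_lit 13) (nat_lit 1) (.cons (.rf (nat_lit 684) (nat_lit 583706118939841765935136)) (.cons (.rf (nat_lit 684) (nat_lit 547107778697602015528992)) (.cons (.br (nat_lit 14)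 (nat_lit 1) (.cons (.rf (nat_lit 686) (nat_lit 21174442659472845144426528)) (.cons (.rf (nat_lit 687) (nat_lit 677582165103132179601393696)) (.cons (.rf (nat_lit 687) (nat_lit 640105464695078675185502240)) .nil)))) .nil)))) .nil)))) .nil))) .nil))) .nil))) .nil))) (.cons (.br (nat_lit 10) (nat_lit 1) (.cons (.rf (nat_lit 693) (nat_lit 14242959524133701664)) (.cons (.rf (nat_lit 693) (nat_lit 13126066783227284512)) (.cons (.br (nat_lit 11) (nat_lit 1) (.cons (.rf (nat_lit 698) (nat_lit 493858305440582043680)) (.cons (.rf (nat_lit 703) (nat_lit 493858305440582043680)) (.cons (.br (nat_lit 11) (nat_lit 1) (.cons (.rf (nat_lit 698) (nat_lit 493858305440582043680)) (.cons (.rf (nat_lit 703) (nat_lit 493858305440582043680)) (.cons (.br (nat_lit 12) (nat_lit 1) (.cons (.rf (nat_lit 703) (nat_lit 492741412699675626528)) (.cons (.rf (nat_lit 710) (nat_lit 583706118939841765935136)) (.cons (.rf (nat_lit 710) (nat_lit 547107778697602015528992)) (.cons (.br (nat_lit 12) (nat_lit 1) (.cons (.rf (nat_lit 703) (nat_lit 492741412699675626528))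 (.cons (.rf (nat_lit 710) (nat_lit 583706118939841765935136)) (.cons (.rf (nat_lit 710) (nat_lit 547107778697602015528992)) (.cons (.br (nat_lit 13) (nat_lit 1) (.cons (.rf (nat_lit 712) (nat_lit 677582165103132179601393696)) (.cons (.rf (nat_lit 712) (nat_lit 677545566762889939850987552)) (.cons (.rf (nat_lit 712) (nat_lit 597870978938641262310394912)) (.cons (.rf (nat_lit 712) (nat_lit 597834380598399022559988768)) .nil))))) .nil))))) .nil))))) .nil)))) .nil)))) .nil)))) .nil)))) .nil))))]

theorem c23 : chkAll C T R L23 (nat_lit 687) = true := by decide +kernel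

theorem l23 : (nat_lit 687) + L23.length = (nat_lit 714) := by decide +kernel

/-- part of the certificates -/
def L24 : List Prf := [(.br (nat_lit 14) (nat_lit 1) (.cons (.br (nat_lit 15) (nat_lit 1) (.cons (.ev (nat_lit 5337681171816583322833941834418750209) (nat_lit 3)) (.cons (.rf (nat_lit 80) (nat_lit 631044017904560354)) .nil))) .nil)),
 (.br (nat_lit 12) (nat_lit 1) (.cons (.br (nat_lit 13) (nat_lit 1) (.cons (.ev (nat_lit 81446551069441590442703437562625) (nat_lit 3)) (.cons (.br (nat_lit 14) (nat_lit 1) (.cons (.rf (nat_lit 714) (nat_lit 583706118939841765935136)) (.cons (.br (nat_lit 14) (nat_lit 1) (.cons (.rf (nat_lit 714) (nat_lit 583706118939841765935136)) (.cons (.rf (nat_lit 500) (nat_lit 661701333108492051024961)) .nil))) .nil))) .nil))) .nil)),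
 (.br (nat_lit 15) (nat_lit 1) (.cons (.ev (nat_lit 20769505584734258496355784686962433) (nat_lit 3)) (.cons (.br (nat_lit 16) (nat_lit 1) (.cons (.ev (nat_lit 20850317077394472400883917494028033) (nat_lit 3)) (.cons (.ev (nat_lit 1366446379668136297865818249576174715649) (nat_lit 3)) .nil))) .nil))),
 (.br (nat_lit 13) (nat_lit 1) (.cons (.ev (nat_lit 41042047515077202017428631978753) (nat_lit 3)) (.cons (.br (nat_lit 15) (nat_lit 1) (.cons (.ev (nat_lit 20769505584734258496355784686962433) (nat_lit 3)) (.cons (.rf (nat_lit 716) (nat_lit 19926519232773908561233952)) (.cons (.br (nat_lit 15) (nat_lit 1) (.cons (.ev (nat_lit 20769505584734258496355784686962433) (nat_lit 3)) (.cons (.rf (nat_lit 716) (nat_lit 19926519232773908561233952)) .nil))) .nil)))) .nil))),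
 (.br (nat_lit 15) (nat_lit 1) (.cons (.ev (nat_lit 1361150236872430773684717143320370217729) (nat_lit 3)) (.cons (.zr (nat_lit 40881731871582837879098742670080) (nat_lit 2668840585905871420851481542551273473) (nat_lit 8) (nat_lit 0)) .nil))),
 (.br (nat_lit 14) (nat_lit 1) (.cons (.rf (nat_lit 718) (nat_lit 677582165103132179601393696)) (.cons (.rf (nat_lit 718) (nat_lit 640105464695078675185502240)) .nil))),
 (.br (nat_lit 14) (nat_lit 1) (.cons (.rf (nat_lit 719) (nat_lit 677582165103132179601393696)) (.cons (.rf (nat_lit 295) (nat_lit 677582164919434647182608416)) .nil))),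
 (.br (nat_lit 14) (nat_lit 1) (.cons (.br (nat_lit 15) (nat_lit 1) (.cons (.ev (nat_lit 340282387282885714657577459214509474048) (nat_lit 1)) .nil)) .nil)),
 (.br (nat_lit 13) (nat_lit 1) (.cons (.zr (nat_lit 79538875376264716917443396096) (nat_lit 20282409603651742765223895957504) (nat_lit 8) (nat_lit 0)) (.cons (.br (nat_lit 14) (nat_lit 1) (.cons (.ev (nat_lit 31153941466866682575002137928925953) (nat_lit 3)) (.cons (.ev (nat_lit 31194347208361160036914297672173313) (nat_lit 3)) (.cons (.br (nat_lit 15) (nat_lit 1) (.cons (.rf (nat_lit 721) (nat_lit 21174442659472845144426528)) (.cons (.br (nat_lit 15) (nat_lit 1) (.cons (.rf (nat_lit 721) (nat_lit 21174442659472845144426528)) .nil)) .nil))) .nil)))) .nil))),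
 (.br (nat_lit 15) (nat_lit 1) (.cons (.ev (nat_lit 340287559218107696949082920664185176320) (nat_lit 1)) (.cons (.ev (nat_lit 2668881150727501316500672649705423619) (nat_lit 2)) .nil))),
 (.br (nat_lit 14) (nat_lit 1) (.cons (.rf (nat_lit 723) (nat_lit 677582165103132179601393696)) (.cons (.rf (nat_lit 723) (nat_lit 640105464695078675185502240)) .nil))),
 (.br (nat_lit 14) (nat_lit 1) (.cons (.rf (nat_lit 724) (nat_lit 677582165103132179601393696)) (.cons (.br (nat_lit 16) (nat_lit 1) (.cons (.br (nat_lit 15) (nat_lit 1) (.cons (.ev (nat_lit 2668840743743231170551258684554478339) (nat_lit 2)) .nil)) (.cons (.ev (nat_lit 340287559218107696949082920664185176320) (nat_lit 1)) .nil))) .nil))),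
 (.br (nat_lit 10) (nat_lit 1) (.cons (.ev (nat_lit 310698658079782736087744768) (nat_lit 1)) (.cons (.br (nat_lit 12) (nat_lit 1) (.cons (.rf (nat_lit 49) (nat_lit 426512821443)) (.cons (.br (nat_lit 12) (nat_lit 1) (.cons (.rf (nat_lit 49) (nat_lit 426512821443)) (.cons (.br (nat_lit 13) (nat_lit 1) (.cons (.rf (nat_lit 722) (nat_lit 583706118939841765935136)) (.cons (.rf (nat_lit 722) (nat_lit 547107778697602015528992)) (.cons (.br (nat_lit 13) (nat_lit 1) (.cons (.rf (nat_lit 722) (nat_lit 583706118939841765935136)) (.cons (.rf (nat_lit 722) (nat_lit 547107778697602015528992)) (.cons (.br (nat_lit 14) (nat_lit 1) (.cons (.rf (nat_lit 724) (nat_lit 677582165103132179601393696)) (.cons (.rf (nat_lit 725) (nat_lit 677582165103132179601393696)) (.cons (.rf (nat_lit 725) (nat_lit 640105464695078675185502240)) .nil)))) .nil)))) .nil)))) .nil))) .nil))) .nil))),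
 (.br (nat_lit 14) (nat_lit 1) (.cons (.br (nat_lit 15) (nat_lit 1) (.cons (.ev (nat_lit 2668840585289324030411183524726046979) (nat_lit 2)) (.cons (.rf (nat_lit 66) (nat_lit 596107069248416963)) .nil))) .nil)),
 (.br (nat_lit 12) (nat_lit 1) (.cons (.zr (nat_lit 158458757102608148225488585472) (nat_lit 1237940039573611754857693185) (nat_lit 8) (nat_lit 0)) (.cons (.br (nat_lit 13) (nat_lit 1) (.cons (.ev (nat_lit 40723894507129363044610286289155) (nat_lit 2)) (.cons (.br (nat_lit 14) (nat_lit 1) (.cons (.rf (nat_lit 727) (nat_lit 583706118939841765935136)) (.cons (.br (nat_lit 14) (nat_lit 1) (.cons (.rf (nat_lit 727) (nat_lit 583706118939841765935136)) (.cons (.rf (nat_lit 515) (nat_lit 661701333108492051024961)) .nil))) .nil))) .nil))) .nil))),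
 (.br (nat_lit 13) (nat_lit 1) (.cons (.br (nat_lit 15) (nat_lit 1) (.cons (.zr (nat_lit 81288097209562008120316506670848) (nat_lit 5316911983139663491904027086293303297) (nat_lit 24) (nat_lit 0)) (.cons (.rf (nat_lit 172) (nat_lit 631047533093006403)) .nil))) .nil)),
 (.br (nat_lit 15) (nat_lit 1) (.cons (.ev (nat_lit 5192296859743753520203819053482241) (nat_lit 1)) (.cons (.ev (nat_lit 5192376086697360339612167877754881) (nat_lit 1)) (.cons (.zr (nat_lit 10425158536291181037589717225308928) (nat_lit 2658455992188801765594420549892833281) (nat_lit 8) (nat_lit 0)) .nil)))),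
 (.br (nat_lit 15) (nat_lit 1) (.cons (.ev (nat_lit 5192296859743753520203819053482241) (nat_lit 1)) (.cons (.ev (nat_lit 5192376086702064259352059030077696) (nat_lit 1)) (.cons (.rf (nat_lit 730) (nat_lit 677582165103132179601393696)) (.cons (.rf (nat_lit 730) (nat_lit 640105464695078675185502240)) .nil))))),
 (.br (nat_lit 16) (nat_lit 1) (.cons (.ev (nat_lit 680575159159488503711369320466481152259) (nat_lit 2)) .nil)),
 (.br (nat_lit 13) (nat_lit 1) (.cons (.ev (nat_lit 41042052350854555687031547365121) (nat_lit 3)) (.cons (.br (nat_lit 14) (nat_lit 1) (.cons (.br (nat_lit 15) (nat_lit 1) (.cons (.ev (nat_lit 1329248357732171789473422092443648000) (nat_lit 1)) (.cons (.rf (nat_lit 98) (nat_lit 629811498724011203)) .nil))) (.cons (.br (nat_lit 16) (nat_lit 1) (.cons (.ev (nat_lit 680575118594050326351492859427530212099) (nat_lit 2)) (.cons (.rf (nat_lit 89) (nat_lit 560005704499768515)) .nil))) (.cons (.br (nat_lit 15) (nat_lit 1) (.cons (.rf (nat_lit 732) (nat_lit 677582165103132179601393696)) (.cons (.br (nat_lit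 15) (nat_lit 1) (.cons (.rf (nat_lit 732) (nat_lit 677582165103132179601393696)) .nil)) .nil))) .nil)))) .nil))),
 (.br (nat_lit 15) (nat_lit 1) (.cons (.ev (nat_lit 1369135989440852502947617338491924514561) (nat_lit 3)) (.cons (.zr (nat_lit 40881736745138835176867441411840) (nat_lit 2668840585905871421139716333929627649) (nat_lit 24) (nat_lit 0)) .nil))),
 (.br (nat_lit 14) (nat_lit 1) (.cons (.rf (nat_lit 734) (nat_lit 677582165103132179601393696)) (.cons (.rf (nat_lit 734) (nat_lit 640105464695078675185502240)) .nil))),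
 (.br (nat_lit 14) (nat_lit 1) (.cons (.rf (nat_lit 735) (nat_lit 677582165103132179601393696)) (.cons (.ev (nat_lit 5212579578832433458997288515928065) (nat_lit 1)) .nil))),
 (.br (nat_lit 10) (nat_lit 1) (.cons (.rf (nat_lit 728) (nat_lit 493858305440582043680)) (.cons (.br (nat_lit 12) (nat_lit 1) (.cons (.rf (nat_lit 728) (nat_lit 491554706359548321024)) (.cons (.br (nat_lit 14) (nat_lit 1) (.cons (.zr (nat_lit 159696706549732443142272057601) (nat_lit 20769187434139310514688246723641344) (nat_lit 8) (nat_lit 0)) (.cons (.br (nat_lit 13) (nat_lit 1) (.cons (.rf (nat_lit 729) (nat_lit 583706118939841765935136)) (.cons (.br (nat_lit 13) (nat_lit 1) (.cons (.rf (nat_lit 729) (nat_lit 583706118939841765935136)) (.cons (.rf (nat_lit 731) (nat_lit 677582165103132179601393696)) .nil))) .nil))) .nil))) (.cons (.br (nat_lit 13) (nat_lit 1) (.cons (.rf (nat_lit 733) (nat_lit 583706118939841765935136)) (.cons (.rf (nat_lit 733) (nat_lit 547105475098520981806336)) (.cons (.br (nat_lit 13) (nat_lit 1) (.cons (.rf (nat_lit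 733) (nat_lit 583706118939841765935136)) (.cons (.rf (nat_lit 733) (nat_lit 547105475098520981806336)) (.cons (.br (nat_lit 14) (nat_lit 1) (.cons (.rf (nat_lit 735) (nat_lit 677582165103132179601393696)) (.cons (.rf (nat_lit 736) (nat_lit 677582165103132179601393696)) (.cons (.rf (nat_lit 736) (nat_lit 640105464695078675185502240)) .nil)))) .nil)))) .nil)))) .nil)))) .nil))),
 (.br (nat_lit 12) (nat_lit 1) (.cons (.br (nat_lit 15) (nat_lit 1) (.cons (.ev (nat_lit 1329248357732167048660196244305543425) (nat_lit 1)) (.cons (.rf (nat_lit 63) (nat_lit 631045150699072707)) .nil))) .nil)),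
 (.br (nat_lit 16) (nat_lit 1) (.cons (.ev (nat_lit 680575159159488503711369320466481152259) (nat_lit 2)) .nil)),
 (.br (nat_lit 12) (nat_lit 1) (.cons (.br (nat_lit 14) (nat_lit 1) (.cons (.ev (nat_lit 5192376086697360339612167877754881) (nat_lit 1)) (.cons (.br (nat_lit 15) (nat_lit 1) (.cons (.ev (nat_lit 2668881150727501316500672649705423619) (nat_lit 2)) (.cons (.rf (nat_lit 69) (nat_lit 596107069248416963)) .nil))) .nil))) (.cons (.br (nat_lit 14) (nat_lit 1) (.cons (.br (nat_lit 15) (nat_lit 1) (.cons (.ev (nat_lit 7985752728128088330301774557534486785) (nat_lit 3)) (.cons (.rf (nat_lit 73) (nat_lit 596107069248416963)) .nil))) (.cons (.ev (nat_lit 5192376086697360339612167877754881) (nat_lit 1)) (.cons (.br (nat_lit 15) (nat_lit 1) (.cons (.rf (nat_lit 739) (nat_lit 677582165103132179601393696)) (.cons (.br (nat_lit 15) (nat_lit 1) (.cons (.rf (nat_lit 739) (nat_lit 677582165103132179601393696)) .nil)) .nil))) .nil)))) .nil))),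
 (.br (nat_lit 12) (nat_lit 1) (.cons (.rf (nat_lit 740) (nat_lit 583706118939841765935136)) (.cons (.br (nat_lit 15) (nat_lit 1) (.cons (.ev (nat_lit 1329248278505213478734273852467052545) (nat_lit 1)) (.cons (.br (nat_lit 16) (nat_lit 1) (.cons (.ev (nat_lit 683223189833449181301903337395604029699) (nat_lit 2)) (.cons (.rf (nat_lit 70) (nat_lit 631009966360538307)) .nil))) (.cons (.br (nat_lit 14) (nat_lit 1) (.cons (.br (nat_lit 14) (nat_lit 1) (.cons (.zr (nat_lit 2658456150028574681315750787227582467) (nat_lit 10465723355488984594034081220527360) (nat_lit 8) (nat_lit 1)) .nil)) (.cons (.br (nat_lit 14) (nat_lit 1) (.cons (.zr (nat_lit 2658456150028574681315750787227582467) (nat_lit 10465723355488984594034081220527360) (nat_lit 8) (nat_lit 1)) .nil)) .nil))) .nil)))) .nil))),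
 (.br (nat_lit 15) (nat_lit 1) (.cons (.ev (nat_lit 2047042267291159598128558939234900248321) (nat_lit 3)) (.cons (.br (nat_lit 16) (nat_lit 1) (.cons (.ev (nat_lit 341616787213583127830611844159240142848) (nat_lit 1)) .nil)) .nil))),
 (.br (nat_lit 14) (nat_lit 1) (.cons (.rf (nat_lit 742) (nat_lit 677582165103132179601393696)) (.cons (.rf (nat_lit 742) (nat_lit 640105464695078675185502240)) .nil))),
 (.br (nat_lit 14) (nat_lit 1) (.cons (.rf (nat_lit 743) (nat_lit 677582165103132179601393696)) (.cons (.br (nat_lit 16) (nat_lit 1) (.cons (.br (nat_lit 15) (nat_lit 1) (.cons (.ev (nat_lit 2668881150727501316500672649705423619) (nat_lit 2)) .nil)) (.cons (.ev (nat_lit 2041725355624937420323780769550740882177) (nat_lit 3)) .nil))) .nil))),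
 (.br (nat_lit 10) (nat_lit 1) (.cons (.rf (nat_lit 737) (nat_lit 493858305440582043680)) (.cons (.br (nat_lit 13) (nat_lit 1) (.cons (.zr (nat_lit 40564819221525780528724566868736) (nat_lit 618970019786806429332144129) (nat_lit 8) (nat_lit 0)) (.cons (.br (nat_lit 14) (nat_lit 1) (.cons (.ev (nat_lit 5192296859748494333429667191586816) (nat_lit 1)) (.cons (.br (nat_lit 12) (nat_lit 1) (.cons (.rf (nat_lit 738) (nat_lit 583706118939841765935136)) (.cons (.br (nat_lit 12) (nat_lit 1) (.cons (.rf (nat_lit 738) (nat_lit 583706118939841765935136)) (.cons (.rf (nat_lit 528) (nat_lit 661701333108492051024961)) .nil))) .nil))) .nil))) (.cons (.br (nat_lit 12) (nat_lit 1) (.cons (.rf (nat_lit 740) (nat_lit 583706118939841765935136)) (.cons (.rf (nat_lit 741) (nat_lit 583706118939841765935136)) (.cons (.br (nat_lit 12) (nat_lit 1) (.cons (.rf (nat_lit 740) (nat_lit 583706118939841765935136)) (.cons (.rf (nat_lit 741) (nat_lit 583706118939841765935136)) (.cons (.br (nat_lit 14) (nat_lit 1) (.cons (.rf (nat_lit 743) (nat_lit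 677582165103132179601393696)) (.cons (.rf (nat_lit 744) (nat_lit 677582165103132179601393696)) (.cons (.rf (nat_lit 744) (nat_lit 640105464695078675185502240)) .nil)))) .nil)))) .nil)))) .nil)))) .nil)))]

theorem c24 : chkAll C T R L24 (nat_lit 714) = true := by decide +kernel

theorem l24 : (nat_lit 714) + L24.length = (nat_lit 746) := by decide +kernel

/-- part of the certificates -/
def L25 : List Prf := [(.br (nat_lit 13) (nat_lit 1) (.cons (.ev (nat_lit 1334481378486413190730214427460698114) (nat_lit 2)) (.cons (.rf (nat_lit 704) (nat_lit 18558017162414275)) .nil))),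
 (.br (nat_lit 13) (nat_lit 1) (.cons (.ev (nat_lit 2668881150727501316500672649705423619) (nat_lit 2)) .nil)),
 (.br (nat_lit 15) (nat_lit 1) (.cons (.br (nat_lit 16) (nat_lit 1) (.cons (.ev (nat_lit 683244040467436803202015063275766941441) (nat_lit 3)) .nil)) .nil)),
 (.br (nat_lit 13) (nat_lit 1) (.cons (.rf (nat_lit 731) (nat_lit 637763170919575331159509024)) (.cons (.ev (nat_lit 5212579578832433458997288515928065) (nat_lit 1)) .nil))),
 (.br (nat_lit 12) (nat_lit 1) (.cons (.rf (nat_lit 745) (nat_lit 491554706359548321024)) (.cons (.br (nat_lit 14) (nat_lit 1) (.cons (.rf (nat_lit 746) (nat_lit 583706118939841765935136)) (.cons (.ev (nat_lit 5192296859743753520203819053482241) (nat_lit 1)) (.cons (.br (nat_lit 15) (nat_lit 1) (.cons (.rf (nat_lit 746) (nat_lit 547107778697602015528992)) (.cons (.ev (nat_lit 2668840585289324030411183524726046979) (nat_lit 2)) (.cons (.br (nat_lit 13) (nat_lit 1) (.cons (.rf (nat_lit 747) (nat_lit 677582165103132179601393696)) (.cons (.rf (nat_lit 747) (nat_lit 640068866354836435435096096))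 .nil))) .nil)))) .nil)))) (.cons (.br (nat_lit 14) (nat_lit 1) (.cons (.br (nat_lit 13) (nat_lit 1) (.cons (.ev (nat_lit 40565440599915435997536486294275) (nat_lit 2)) (.cons (.ev (nat_lit 40723894507129363044610286289155) (nat_lit 2)) (.cons (.br (nat_lit 15) (nat_lit 1) (.cons (.rf (nat_lit 748) (nat_lit 677582165103132179601393696)) (.cons (.br (nat_lit 15) (nat_lit 1) (.cons (.rf (nat_lit 748) (nat_lit 677582165103132179601393696)) .nil)) .nil))) .nil)))) (.cons (.ev (nat_lit 5192296859743753520203819053482241) (nat_lit 1)) (.cons (.ev (nat_lit 5192376086702064259352059030077696) (nat_lit 1)) (.cons (.br (nat_lit 13) (nat_lit 1) (.cons (.rf (nat_lit 749) (nat_lit 677582165103132179601393696)) (.cons (.rf (nat_lit 749) (nat_lit 676411015911781426554674432)) (.cons (.br (nat_lit 13) (nat_lit 1) (.cons (.ev (nat_lit 5212579578832433458997288515928065) (nat_lit 1)) (.cons (.ev (nat_lit 5212658805790744198145528492523520) (nat_lit 1)) .nil))) .nil)))) .nil))))) .nil)))),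
 (.br (nat_lit 14) (nat_lit 1) (.cons (.br (nat_lit 16) (nat_lit 1) (.cons (.ev (nat_lit 685912840172848757264716683110430933249) (nat_lit 3)) (.cons (.zr (nat_lit 159696706549732443142272057601) (nat_lit 680575118435593996582006842117601624064) (nat_lit 8) (nat_lit 0)) .nil))) (.cons (.ev (nat_lit 2041725436436420409130551919897846350593) (nat_lit 3)) (.cons (.br (nat_lit 16) (nat_lit 1) (.cons (.zr (nat_lit 159696706549732443142272057601) (nat_lit 680575118435593996582006842117601624064) (nat_lit 8) (nat_lit 0)) (.cons (.ev (nat_lit 350490848354043923209091387453547334731009) (nat_lit 3)) .nil))) .nil)))),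
 (.br (nat_lit 13) (nat_lit 1) (.cons (.ev (nat_lit 40565440599915435997536486294275) (nat_lit 2)) (.cons (.rf (nat_lit 751) (nat_lit 677582165103132179601393696)) (.cons (.rf (nat_lit 751) (nat_lit 640105464695078675185502240)) .nil)))),
 (.br (nat_lit 7) (nat_lit 1) (.cons (.br (nat_lit 10) (nat_lit 1) (.cons (.ev (nat_lit 4840555205066143172003585) (nat_lit 3)) (.cons (.br (nat_lit 11) (nat_lit 1) (.cons (.ev (nat_lit 1242780520704591607980491521) (nat_lit 3)) (.cons (.br (nat_lit 12) (nat_lit 1) (.cons (.rf (nat_lit 715) (nat_lit 493858305440582043680)) (.cons (.br (nat_lit 12) (nat_lit 1) (.cons (.rf (nat_lit 715) (nat_lit 493858305440582043680)) (.cons (.br (nat_lit 13) (nat_lit 1) (.cons (.rf (nat_lit 717) (nat_lit 583706118939841765935136)) (.cons (.rf (nat_lit 717) (nat_lit 547107778697602015528992)) (.cons (.br (nat_lit 13) (nat_lit 1) (.cons (.rf (nat_lit 717) (nat_lit 583706118939841765935136)) (.cons (.rf (nat_lit 717) (nat_lit 547107778697602015528992)) (.cons (.br (nat_lit 14) (nat_lit 1) (.cons (.rf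 (nat_lit 719) (nat_lit 677582165103132179601393696)) (.cons (.rf (nat_lit 720) (nat_lit 677582165103132179601393696)) (.cons (.rf (nat_lit 720) (nat_lit 640105464695078675185502240)) .nil)))) .nil)))) .nil)))) .nil))) .nil))) .nil))) .nil))) (.cons (.ev (nat_lit 618974797493521528695816451) (nat_lit 2)) (.cons (.br (nat_lit 11) (nat_lit 1) (.cons (.rf (nat_lit 726) (nat_lit 14242959524133701664)) (.cons (.rf (nat_lit 726) (nat_lit 11939360443099979008)) (.cons (.br (nat_lit 10) (nat_lit 1) (.cons (.rf (nat_lit 737) (nat_lit 493858305440582043680)) (.cons (.rf (nat_lit 745) (nat_lit 493858305440582043680)) (.cons (.br (nat_lit 10) (nat_lit 1) (.cons (.rf (nat_lit 737) (nat_lit 493858305440582043680)) (.cons (.rf (nat_lit 745) (nat_lit 493858305440582043680)) (.cons (.br (nat_lit 12) (nat_lit 1) (.cons (.rf (nat_lit 745) (nat_lit 491554706359548321024)) (.cons (.rf (nat_lit 750) (nat_lit 583706118939841765935136)) (.cons (.rf (nat_lit 750) (nat_lit 547107778697602015528992)) (.cons (.br (nat_lit 12) (nat_lit 1) (.cons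 (.rf (nat_lit 745) (nat_lit 491554706359548321024)) (.cons (.rf (nat_lit 750) (nat_lit 583706118939841765935136)) (.cons (.rf (nat_lit 750) (nat_lit 547107778697602015528992)) (.cons (.br (nat_lit 13) (nat_lit 1) (.cons (.rf (nat_lit 752) (nat_lit 677582165103132179601393696)) (.cons (.rf (nat_lit 752) (nat_lit 677545566762889939850987552)) (.cons (.rf (nat_lit 752) (nat_lit 597870977751934922183089408)) (.cons (.rf (nat_lit 752) (nat_lit 597834379411692682432683264)) .nil))))) .nil))))) .nil))))) .nil)))) .nil)))) .nil)))) .nil)))),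
 (.br (nat_lit 12) (nat_lit 1) (.cons (.br (nat_lit 14) (nat_lit 1) (.cons (.ev (nat_lit 5192376086697360339613263111127041) (nat_lit 1)) (.cons (.br (nat_lit 15) (nat_lit 1) (.cons (.ev (nat_lit 7985752728123252552948111594538272001) (nat_lit 3)) (.cons (.rf (nat_lit 576) (nat_lit 631047566517311586)) .nil))) .nil))) (.cons (.br (nat_lit 14) (nat_lit 1) (.cons (.br (nat_lit 15) (nat_lit 1) (.cons (.ev (nat_lit 7985752728739804721095122486967796993) (nat_lit 3)) (.cons (.rf (nat_lit 191) (nat_lit 631047533060532322)) .nil))) (.cons (.ev (nat_lit 5192376086697360339613263111127041) (nat_lit 1)) (.cons (.br (nat_lit 15) (nat_lit 1) (.cons (.br (nat_lit 15) (nat_lit 1) (.cons (.ev (nat_lit 1344865971895206761913769956724506626) (nat_lit 2)) .nil)) (.cons (.br (nat_lit 15) (nat_lit 1) (.cons (.ev (nat_lit 1344865971895206761913769956724506626) (nat_lit 2)) .nil)) .nil))) .nil)))) .nil))),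
 (.br (nat_lit 12) (nat_lit 1) (.cons (.rf (nat_lit 754) (nat_lit 583706118939841765935136)) (.cons (.br (nat_lit 15) (nat_lit 1) (.cons (.ev (nat_lit 1329248278505218182654012648386003200) (nat_lit 1)) (.cons (.br (nat_lit 16) (nat_lit 1) (.cons (.ev (nat_lit 683223189834065733470050352703259934979) (nat_lit 2)) (.cons (.rf (nat_lit 192) (nat_lit 631013446048458978)) .nil))) (.cons (.rf (nat_lit 580) (nat_lit 661701333108492051024961)) .nil)))) .nil))),
 (.br (nat_lit 15) (nat_lit 1) (.cons (.ev (nat_lit 683223189833449181301903337395604029699) (nat_lit 2)) (.cons (.br (nat_lit 16) (nat_lit 1) (.cons (.zr (nat_lit 1361129548813394738386977874856491616000) (nat_lit 2668840743743226429882151335878852609) (nat_lit 24) (nat_lit 0)) .nil)) .nil))),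
 (.br (nat_lit 14) (nat_lit 1) (.cons (.rf (nat_lit 756) (nat_lit 677582165103132179601393696)) (.cons (.rf (nat_lit 756) (nat_lit 640105464695078675185502240)) .nil))),
 (.br (nat_lit 14) (nat_lit 1) (.cons (.rf (nat_lit 757) (nat_lit 677582165103132179601393696)) (.cons (.ev (nat_lit 5192376397395999972650825960915200) (nat_lit 1)) .nil))),
 (.br (nat_lit 11) (nat_lit 1) (.cons (.kr (nat_lit 309485009893402667057676288) (nat_lit 1208925819897203663044608) (nat_lit 4) (nat_lit 0)) (.cons (.ev (nat_lit 618974797493523719162822915) (nat_lit 2)) (.cons (.br (nat_lit 13) (nat_lit 1) (.cons (.zr (nat_lit 40564821677230138597234916198144) (nat_lit 288798845171924993) (nat_lit 24) (nat_lit 0)) (.cons (.zr (nat_lit 40564824095081777826493265610496) (nat_lit 618970020075039030310600705) (nat_lit 24) (nat_lit 0)) (.cons (.br (nat_lit 12) (nat_lit 1) (.cons (.rf (nat_lit 754) (nat_lit 583706118939841765935136)) (.cons (.rf (nat_lit 755) (nat_lit 583706118939841765935136)) (.cons (.br (nat_lit 12) (nat_lit 1) (.cons (.rf (nat_lit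 754) (nat_lit 583706118939841765935136)) (.cons (.rf (nat_lit 755) (nat_lit 583706118939841765935136)) (.cons (.br (nat_lit 14) (nat_lit 1) (.cons (.rf (nat_lit 757) (nat_lit 677582165103132179601393696)) (.cons (.rf (nat_lit 758) (nat_lit 677582165103132179601393696)) (.cons (.rf (nat_lit 758) (nat_lit 640105464695078675185502240)) .nil)))) .nil)))) .nil)))) .nil)))) .nil)))),
 (.br (nat_lit 13) (nat_lit 1) (.cons (.ev (nat_lit 20809912573840108012454227394692865) (nat_lit 3)) (.cons (.br (nat_lit 15) (nat_lit 1) (.cons (.ev (nat_lit 1329248357732171789473422092443648000) (nat_lit 1)) (.cons (.rf (nat_lit 206) (nat_lit 631047566379034722)) .nil))) .nil))),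
 (.br (nat_lit 15) (nat_lit 1) (.cons (.ev (nat_lit 1344865971895216169753249756209021440) (nat_lit 2)) .nil)),
 (.br (nat_lit 12) (nat_lit 1) (.cons (.rf (nat_lit 760) (nat_lit 583706118939841765935136)) (.cons (.br (nat_lit 13) (nat_lit 1) (.cons (.rf (nat_lit 760) (nat_lit 583670343470268523023392)) (.cons (.br (nat_lit 16) (nat_lit 1) (.cons (.ev (nat_lit 1361150277595084918218657693302037415681) (nat_lit 3)) (.cons (.rf (nat_lit 208) (nat_lit 631047566379034722)) .nil))) (.cons (.br (nat_lit 15) (nat_lit 1) (.cons (.rf (nat_lit 761) (nat_lit 677582165103132179601393696)) (.cons (.rf (nat_lit 761) (nat_lit 640105428919609101942590496)) .nil))) .nil)))) .nil))),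
 (.br (nat_lit 12) (nat_lit 1) (.cons (.rf (nat_lit 762) (nat_lit 583706118939841765935136)) (.cons (.br (nat_lit 15) (nat_lit 1) (.cons (.ev (nat_lit 2689609773963821232283393121675510529) (nat_lit 3)) (.cons (.br (nat_lit 16) (nat_lit 1) (.cons (.ev (nat_lit 683223189834065733470050352703259934979) (nat_lit 2)) (.cons (.rf (nat_lit 211) (nat_lit 631047566379034722)) .nil))) (.cons (.br (nat_lit 13) (nat_lit 1) (.cons (.br (nat_lit 13) (nat_lit 1) (.cons (.ev (nat_lit 1329248357423890964730240828600025345) (nat_lit 1)) .nil)) (.cons (.br (nat_lit 13) (nat_lit 1) (.cons (.ev (nat_lit 1329248357423890964730240828600025345) (nat_lit 1)) .nil)) .nil))) .nil)))) .nil))),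
 (.br (nat_lit 13) (nat_lit 1) (.cons (.rf (nat_lit 763) (nat_lit 583670343470268523023392)) (.cons (.br (nat_lit 16) (nat_lit 1) (.cons (.br (nat_lit 15) (nat_lit 1) (.cons (.zr (nat_lit 20809910709723680648677001552464128) (nat_lit 5316911983139663491759911898251001857) (nat_lit 24) (nat_lit 0)) .nil)) (.cons (.zr (nat_lit 1361129467683753853871945177112202182659) (nat_lit 40723275537054380684089264964352) (nat_lit 8) (nat_lit 9)) .nil))) .nil))),
 (.br (nat_lit 14) (nat_lit 1) (.cons (.ev (nat_lit 5192297168024578263385082897104896) (nat_lit 1)) (.cons (.ev (nat_lit 5192296859748494333429667191586816) (nat_lit 1)) (.cons (.br (nat_lit 12) (nat_lit 1) (.cons (.rf (nat_lit 762) (nat_lit 583706118939841765935136)) (.cons (.rf (nat_lit 763) (nat_lit 583706118939841765935136)) (.cons (.br (nat_lit 12) (nat_lit 1) (.cons (.rf (nat_lit 762) (nat_lit 583706118939841765935136)) (.cons (.rf (nat_lit 763) (nat_lit 583706118939841765935136)) (.cons (.br (nat_lit 13) (nat_lit 1) (.cons (.rf (nat_lit 763) (nat_lit 583670343470268523023392))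 (.cons (.rf (nat_lit 764) (nat_lit 677582165103132179601393696)) (.cons (.rf (nat_lit 764) (nat_lit 640105464695078675185502240)) .nil)))) .nil)))) .nil)))) .nil)))),
 (.br (nat_lit 15) (nat_lit 1) (.cons (.ev (nat_lit 2668881308564856362280708796716155139) (nat_lit 2)) (.cons (.rf (nat_lit 217) (nat_lit 631047566379034722)) .nil))),
 (.br (nat_lit 14) (nat_lit 1) (.cons (.br (nat_lit 15) (nat_lit 1) (.cons (.kr (nat_lit 1334420292952940432720166603081122048) (nat_lit 340282387282577438555129265076748484608) (nat_lit 1) (nat_lit 0)) .nil)) .nil)),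
 (.br (nat_lit 13) (nat_lit 1) (.cons (.ev (nat_lit 5212579268138497745698521585090561) (nat_lit 1)) (.cons (.br (nat_lit 14) (nat_lit 1) (.cons (.ev (nat_lit 20891042207418937340489243937735425) (nat_lit 3)) (.cons (.br (nat_lit 15) (nat_lit 1) (.cons (.ev (nat_lit 5337721894470727856774491816085948161) (nat_lit 3)) (.cons (.rf (nat_lit 216) (nat_lit 631047566379034722)) .nil))) .nil))) (.cons (.br (nat_lit 14) (nat_lit 1) (.cons (.rf (nat_lit 766) (nat_lit 19926519232773908561233952)) (.cons (.rf (nat_lit 766) (nat_lit 18755296326504488032770304)) (.cons (.br (nat_lit 15) (nat_lit 1) (.cons (.rf (nat_lit 767) (nat_lit 21174442659472880612543553)) (.cons (.br (nat_lit 15) (nat_lit 1) (.cons (.rf (nat_lit 767) (nat_lit 21174442659472880612543553)) .nil)) .nil))) .nil)))) .nil)))),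
 (.br (nat_lit 14) (nat_lit 1) (.cons (.ev (nat_lit 5212579578837137378736084434878720) (nat_lit 1)) (.cons (.rf (nat_lit 217) (nat_lit 631013481518541891)) .nil))),
 (.br (nat_lit 13) (nat_lit 1) (.cons (.br (nat_lit 14) (nat_lit 1) (.cons (.ev (nat_lit 20891040974314601620667546755924737) (nat_lit 3)) (.cons (.br (nat_lit 15) (nat_lit 1) (.cons (.ev (nat_lit 5337721894470727856774491816085948161) (nat_lit 3)) (.cons (.rf (nat_lit 216) (nat_lit 631047533060532322)) .nil))) .nil))) (.cons (.ev (nat_lit 1329228075013083109534627527781253376) (nat_lit 1)) (.cons (.br (nat_lit 15) (nat_lit 1) (.cons (.rf (nat_lit 769) (nat_lit 19926519232773908561233952)) (.cons (.rf (nat_lit 769) (nat_lit 17510916982798763276049664)) (.cons (.br (nat_lit 14) (nat_lit 1) (.cons (.br (nat_lit 14) (nat_lit 1) (.cons (.ev (nat_lit 2668881308564856362280708796716155139) (nat_lit 2)) .nil)) (.cons (.br (nat_lit 14) (nat_lit 1) (.cons (.ev (nat_lit 2668881308564856362280708796716155139) (nat_lit 2)) .nil)) .nil))) .nil)))) .nil))))]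

theorem c25 : chkAll C T R L25 (nat_lit 746) = true := by decide +kernel

theorem l25 : (nat_lit 746) + L25.length = (nat_lit 771) := by decide +kernel

/-- part of the certificates -/
def L26 : List Prf := [(.br (nat_lit 14) (nat_lit 1) (.cons (.br (nat_lit 15) (nat_lit 1) (.cons (.ev (nat_lit 1329228075323777045247927389912039680) (nat_lit 1)) (.cons (.kr (nat_lit 1329228075013078387168145753335988224) (nat_lit 5212579268138479298954447892250624) (nat_lit 2) (nat_lit 0)) .nil))) (.cons (.ev (nat_lit 5212579578837137378736084434878720) (nat_lit 1)) .nil))),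
 (.br (nat_lit 14) (nat_lit 1) (.cons (.rf (nat_lit 771) (nat_lit 677582165103132179601393696)) (.cons (.br (nat_lit 16) (nat_lit 1) (.cons (.zr (nat_lit 40882355753011196706256890891008) (nat_lit 680575118435593996582439755064256233473) (nat_lit 40) (nat_lit 0)) (.cons (.ev (nat_lit 87112285952121885621715725936300981813505) (nat_lit 1)) .nil))) .nil))),
 (.br (nat_lit 12) (nat_lit 1) (.cons (.rf (nat_lit 768) (nat_lit 583706118939841765935136)) (.cons (.rf (nat_lit 770) (nat_lit 583706118939841765935136)) (.cons (.br (nat_lit 13) (nat_lit 1) (.cons (.rf (nat_lit 770) (nat_lit 547072003228028772617248)) (.cons (.rf (nat_lit 768) (nat_lit 547072003228028772617248)) (.cons (.rf (nat_lit 765) (nat_lit 19307305719170647431424)) (.cons (.br (nat_lit 14) (nat_lit 1) (.cons (.rf (nat_lit 771) (nat_lit 677582165103132179601393696)) (.cons (.rf (nat_lit 772) (nat_lit 677582165103132179601393696)) (.cons (.br (nat_lit 14) (nat_lit 1) (.cons (.ev (nat_lit 5212579578837137378736084434878720) (nat_lit 1)) (.cons (.rf (nat_lit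 772) (nat_lit 677582165103132179601393696)) .nil))) .nil)))) .nil))))) .nil)))),
 (.br (nat_lit 12) (nat_lit 1) (.cons (.br (nat_lit 15) (nat_lit 1) (.cons (.ev (nat_lit 340287579500206606665040326224265609473) (nat_lit 1)) .nil)) .nil)),
 (.br (nat_lit 14) (nat_lit 1) (.cons (.br (nat_lit 13) (nat_lit 1) (.cons (.ev (nat_lit 1355250883452172652020146536756609536) (nat_lit 3)) (.cons (.br (nat_lit 15) (nat_lit 1) (.cons (.ev (nat_lit 2668881308564856362280708796716155139) (nat_lit 2)) (.cons (.rf (nat_lit 608) (nat_lit 596144669405190242)) .nil))) .nil))) (.cons (.ev (nat_lit 1329228075013083109534627527781253376) (nat_lit 1)) (.cons (.br (nat_lit 15) (nat_lit 1) (.cons (.br (nat_lit 13) (nat_lit 1) (.cons (.ev (nat_lit 5212579578837137378736084434878720) (nat_lit 1)) (.cons (.rf (nat_lit 608) (nat_lit 631013481624344643)) .nil))) (.cons (.br (nat_lit 16) (nat_lit 1) (.cons (.ev (nat_lit 683243959498111623645897185663972933889) (nat_lit 3)) (.cons (.rf (nat_lit 609) (nat_lit 631047566517311586)) .nil))) (.cons (.br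 (nat_lit 13) (nat_lit 1) (.cons (.rf (nat_lit 774) (nat_lit 21174442659472880612509728)) (.cons (.br (nat_lit 13) (nat_lit 1) (.cons (.rf (nat_lit 774) (nat_lit 21174442659472880612509728)) .nil)) .nil))) .nil)))) .nil)))),
 (.br (nat_lit 15) (nat_lit 1) (.cons (.br (nat_lit 16) (nat_lit 1) (.cons (.ev (nat_lit 87112285952122193902540469117564825436160) (nat_lit 1)) .nil)) .nil)),
 (.br (nat_lit 11) (nat_lit 1) (.cons (.br (nat_lit 14) (nat_lit 1) (.cons (.kr (nat_lit 5212579269352127485333417377136896) (nat_lit 1329228075322563415436234895770320896) (nat_lit 1) (nat_lit 0)) .nil)) .nil)),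
 (.br (nat_lit 7) (nat_lit 1) (.cons (.br (nat_lit 7) (nat_lit 1) .nil) .nil)),
 (.br (nat_lit 13) (nat_lit 1) (.cons (.br (nat_lit 15) (nat_lit 1) (.cons (.ev (nat_lit 1329228075323777045247927389912039680) (nat_lit 1)) (.cons (.kr (nat_lit 1329228075013078387168145753335988224) (nat_lit 5212579268138479298954447892250624) (nat_lit 2) (nat_lit 0)) .nil))) (.cons (.ev (nat_lit 5212579578837137378736084434878720) (nat_lit 1)) .nil))),
 (.br (nat_lit 13) (nat_lit 1) (.cons (.rf (nat_lit 779) (nat_lit 677582165103132179601393696)) (.cons (.br (nat_lit 17) (nat_lit 1) (.cons (.ev (nat_lit 87112285952122193897799655891716687331585) (nat_lit 1)) (.cons (.ev (nat_lit 680575118594050326351492857237063467779) (nat_lit 2)) .nil))) .nil))),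
 (.br (nat_lit 12) (nat_lit 1) (.cons (.rf (nat_lit 773) (nat_lit 583706118939841765935136)) (.cons (.rf (nat_lit 775) (nat_lit 583706118939841765935136)) (.cons (.br (nat_lit 14) (nat_lit 1) (.cons (.br (nat_lit 13) (nat_lit 1) (.cons (.rf (nat_lit 775) (nat_lit 547072003228028772617248)) (.cons (.br (nat_lit 16) (nat_lit 1) (.cons (.ev (nat_lit 2041704626684790868203012282366180721921) (nat_lit 3)) (.cons (.br (nat_lit 15) (nat_lit 1) (.cons (.br (nat_lit 15) (nat_lit 1) .nil) .nil)) .nil))) (.cons (.br (nat_lit 15) (nat_lit 1) (.cons (.rf (nat_lit 776) (nat_lit 677582165103132179601393696)) (.cons (.br (nat_lit 15) (nat_lit 1) (.cons (.rf (nat_lit 776) (nat_lit 677582165103132179601393696)) .nil)) .nil))) .nil)))) (.cons (.br (nat_lit 15) (nat_lit 1) (.cons (.br (nat_lit 13) (nat_lit 1) (.cons (.ev (nat_lit 2668922031837970842655122231950443265) (nat_lit 3)) (.cons (.rf (nat_lit 225) (nat_lit 631047566379034722)) .nil))) (.cons (.br (nat_lit 16) (nat_lit 1) (.cons (.ev (nat_lit 680575118594050326351492857237063467779)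 (nat_lit 2)) (.cons (.rf (nat_lit 226) (nat_lit 631047566379034722)) .nil))) (.cons (.br (nat_lit 13) (nat_lit 1) (.cons (.rf (nat_lit 777) (nat_lit 661701333108492051024961)) (.cons (.br (nat_lit 13) (nat_lit 1) (.cons (.rf (nat_lit 777) (nat_lit 661701333108492051024961)) .nil)) .nil))) .nil)))) (.cons (.br (nat_lit 16) (nat_lit 1) (.cons (.br (nat_lit 13) (nat_lit 1) (.cons (.ev (nat_lit 5212579578837137378736084434878720) (nat_lit 1)) (.cons (.rf (nat_lit 228) (nat_lit 631047566379034722)) .nil))) (.cons (.br (nat_lit 15) (nat_lit 1) (.cons (.ev (nat_lit 1329228075323777045247927389912039680) (nat_lit 1)) (.cons (.rf (nat_lit 778) (nat_lit 631047566517311586)) .nil))) (.cons (.rf (nat_lit 612) (nat_lit 661701333108492051024961)) .nil)))) (.cons (.br (nat_lit 13) (nat_lit 1) (.cons (.rf (nat_lit 779) (nat_lit 677582165103132179601393696)) (.cons (.rf (nat_lit 780) (nat_lit 677582165103132179601393696)) (.cons (.br (nat_lit 13) (nat_lit 1) (.cons (.ev (nat_lit 5212579578837137378736084434878720) (nat_lit 1)) (.cons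 (.rf (nat_lit 780) (nat_lit 677582165103132179601393696)) .nil))) .nil)))) .nil))))) .nil)))),
 (.br (nat_lit 13) (nat_lit 1) (.cons (.br (nat_lit 16) (nat_lit 1) (.cons (.ev (nat_lit 5212579268138497745698521585090561) (nat_lit 1)) (.cons (.ev (nat_lit 683223230398887358587992824330183508739) (nat_lit 2)) .nil))) (.cons (.br (nat_lit 14) (nat_lit 1) (.cons (.ev (nat_lit 1344947259994791545423795590829245958) (nat_lit 3)) (.cons (.ev (nat_lit 5212579268138497745698521585090561) (nat_lit 1)) .nil))) .nil))),
 (.br (nat_lit 13) (nat_lit 1) (.cons (.rf (nat_lit 782) (nat_lit 677582165103132179601393696)) (.cons (.br (nat_lit 16) (nat_lit 1) (.cons (.ev (nat_lit 683223230398887358587992824330183508739) (nat_lit 2)) (.cons (.ev (nat_lit 522676374046713362951317619848449160774913) (nat_lit 3)) .nil))) .nil))),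
 (.br (nat_lit 12) (nat_lit 1) (.cons (.rf (nat_lit 773) (nat_lit 583706118939841765935136)) (.cons (.rf (nat_lit 781) (nat_lit 583706118939841765935136)) (.cons (.br (nat_lit 15) (nat_lit 1) (.cons (.rf (nat_lit 781) (nat_lit 547072003228028772617248)) (.cons (.br (nat_lit 14) (nat_lit 1) (.cons (.br (nat_lit 13) (nat_lit 1) (.cons (.ev (nat_lit 2668922031837970842655122231950443265) (nat_lit 3)) (.cons (.rf (nat_lit 225) (nat_lit 596144635948410978)) .nil))) (.cons (.br (nat_lit 16) (nat_lit 1) (.cons (.ev (nat_lit 341616787213583123089798618311102038273) (nat_lit 1)) (.cons (.rf (nat_lit 226) (nat_lit 631013481518541891)) .nil))) (.cons (.br (nat_lit 13) (nat_lit 1) (.cons (.br (nat_lit 13) (nat_lit 1) (.cons (.ev (nat_lit 2668881309181408530427719723505418499) (nat_lit 2)) .nil)) (.cons (.br (nat_lit 13) (nat_lit 1) (.cons (.ev (nat_lit 2668881309181408530427719723505418499) (nat_lit 2)) .nil)) .nil))) .nil)))) (.cons (.ev (nat_lit 1329228075013083109534627527781253376) (nat_lit 1)) (.cons (.br (nat_lit 13)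 (nat_lit 1) (.cons (.rf (nat_lit 782) (nat_lit 677582165103132179601393696)) (.cons (.rf (nat_lit 783) (nat_lit 677582165103132179601393696)) (.cons (.br (nat_lit 13) (nat_lit 1) (.cons (.rf (nat_lit 782) (nat_lit 677582165103132179601393696)) (.cons (.rf (nat_lit 783) (nat_lit 677582165103132179601393696)) .nil))) .nil)))) .nil))))) .nil)))),
 (.br (nat_lit 14) (nat_lit 1) (.cons (.zr (nat_lit 1361129467843448171033364493418543187200) (nat_lit 20809752253346614000779436855656449) (nat_lit 24) (nat_lit 0)) (.cons (.br (nat_lit 15) (nat_lit 1) .nil) .nil))),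
 (.br (nat_lit 13) (nat_lit 1) (.cons (.rf (nat_lit 784) (nat_lit 547072003228028772617248)) (.cons (.rf (nat_lit 781) (nat_lit 547072003228028772617248)) (.cons (.br (nat_lit 16) (nat_lit 1) (.cons (.rf (nat_lit 785) (nat_lit 677582165103132179601393696)) (.cons (.rf (nat_lit 785) (nat_lit 677545530987420366608075808)) (.cons (.zr (nat_lit 1361129467683753853871945177112202182659) (nat_lit 40723275537054380684089264964352) (nat_lit 8) (nat_lit 9)) .nil)))) .nil)))),
 (.br (nat_lit 10) (nat_lit 1) (.cons (.ev (nat_lit 2422629346508411506917635) (nat_lit 2)) (.cons (.rf (nat_lit 759) (nat_lit 493858305440582043680)) (.cons (.br (nat_lit 11) (nat_lit 1) (.cons (.rf (nat_lit 759) (nat_lit 458082835867339131936)) (.cons (.ev (nat_lit 618974797493523719162822915) (nat_lit 2)) (.cons (.rf (nat_lit 765) (nat_lit 17022140995484340291616)) (.cons (.br (nat_lit 12) (nat_lit 1) (.cons (.rf (nat_lit 773) (nat_lit 583706118939841765935136)) (.cons (.rf (nat_lit 781) (nat_lit 583706118939841765935136)) (.cons (.rf (nat_lit 784)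 (nat_lit 583706118939841765935136)) (.cons (.br (nat_lit 12) (nat_lit 1) (.cons (.rf (nat_lit 773) (nat_lit 583706118939841765935136)) (.cons (.rf (nat_lit 781) (nat_lit 583706118939841765935136)) (.cons (.rf (nat_lit 784) (nat_lit 583706118939841765935136)) (.cons (.br (nat_lit 13) (nat_lit 1) (.cons (.rf (nat_lit 784) (nat_lit 547072003228028772617248)) (.cons (.rf (nat_lit 781) (nat_lit 547072003228028772617248)) (.cons (.rf (nat_lit 786) (nat_lit 677582165103132179601393696)) (.cons (.rf (nat_lit 786) (nat_lit 640105464695078675185502240)) .nil))))) .nil))))) .nil))))) .nil))))) .nil)))),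
 (.br (nat_lit 11) (nat_lit 1) (.cons (.br (nat_lit 14) (nat_lit 1) (.cons (.ev (nat_lit 5192297168019855896619643075297536) (nat_lit 1)) (.cons (.rf (nat_lit 202) (nat_lit 593856514665882850)) .nil))) .nil)),
 (.br (nat_lit 11) (nat_lit 1) (.cons (.ev (nat_lit 5212579578832433458998383715876865) (nat_lit 1)) (.cons (.br (nat_lit 12) (nat_lit 1) (.cons (.rf (nat_lit 788) (nat_lit 18237357547806349434025)) (.cons (.br (nat_lit 12) (nat_lit 1) (.cons (.rf (nat_lit 788) (nat_lit 18237357547806349434025)) (.cons (.rf (nat_lit 628) (nat_lit 661701333108492051024961)) .nil))) .nil))) .nil))),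
 (.br (nat_lit 12) (nat_lit 1) (.cons (.ev (nat_lit 20810229481654387716139413948859137) (nat_lit 3)) (.cons (.br (nat_lit 15) (nat_lit 1) (.cons (.ev (nat_lit 2668840743743231170551256494087734019) (nat_lit 2)) (.cons (.rf (nat_lit 206) (nat_lit 631047530908920034)) .nil))) .nil))),
 (.br (nat_lit 11) (nat_lit 1) (.cons (.rf (nat_lit 790) (nat_lit 583706118939841765935136)) (.cons (.br (nat_lit 12) (nat_lit 1) (.cons (.rf (nat_lit 790) (nat_lit 583594324952520007556352)) (.cons (.br (nat_lit 16) (nat_lit 1) (.cons (.ev (nat_lit 1361150277595084918218657693302037415681) (nat_lit 3)) (.cons (.rf (nat_lit 208) (nat_lit 631047530908920034)) .nil))) (.cons (.rf (nat_lit 638) (nat_lit 583858344023463943112801)) .nil)))) .nil))),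
 (.br (nat_lit 11) (nat_lit 1) (.cons (.br (nat_lit 15) (nat_lit 1) (.cons (.ev (nat_lit 1329227996094400901171896207026422016) (nat_lit 1)) .nil)) .nil)),
 (.br (nat_lit 11) (nat_lit 1) (.cons (.rf (nat_lit 791) (nat_lit 583706118939841765935136)) (.cons (.br (nat_lit 15) (nat_lit 1) (.cons (.ev (nat_lit 7985833698069820054566665286517655297) (nat_lit 3)) (.cons (.br (nat_lit 16) (nat_lit 1) (.cons (.ev (nat_lit 340282366921247953214009462018336096256) (nat_lit 1)) (.cons (.rf (nat_lit 211) (nat_lit 631047530908920034)) .nil))) (.cons (.br (nat_lit 12) (nat_lit 1) (.cons (.rf (nat_lit 792) (nat_lit 21174442659472845144426528)) (.cons (.br (nat_lit 12) (nat_lit 1) (.cons (.rf (nat_lit 792) (nat_lit 21174442659472845144426528)) .nil)) .nil))) .nil)))) .nil))),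
 (.br (nat_lit 12) (nat_lit 1) (.cons (.rf (nat_lit 793) (nat_lit 583594324952520007556352)) (.cons (.br (nat_lit 16) (nat_lit 1) (.cons (.br (nat_lit 15) (nat_lit 1) (.cons (.ev (nat_lit 2668840585905876198558198832381952259) (nat_lit 2)) .nil)) (.cons (.ev (nat_lit 340282366921247948473196233979764670721) (nat_lit 1)) .nil))) .nil))),
 (.br (nat_lit 14) (nat_lit 1) (.cons (.rf (nat_lit 789) (nat_lit 17022140995484340291616)) (.cons (.rf (nat_lit 789) (nat_lit 16910347008162581912832)) (.cons (.br (nat_lit 11) (nat_lit 1) (.cons (.rf (nat_lit 791) (nat_lit 583706118939841765935136)) (.cons (.rf (nat_lit 793) (nat_lit 583706118939841765935136)) (.cons (.br (nat_lit 11) (nat_lit 1) (.cons (.rf (nat_lit 791) (nat_lit 583706118939841765935136)) (.cons (.rf (nat_lit 793) (nat_lit 583706118939841765935136)) (.cons (.br (nat_lit 12) (nat_lit 1) (.cons (.rf (nat_lit 793) (nat_lit 583594324952520007556352)) (.cons (.rf (nat_lit 794) (nat_lit 677582165103132179601393696)) (.cons (.rf (nat_lit 794) (nat_lit 640105464695078675185502240))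 .nil)))) .nil)))) .nil)))) .nil))))]

theorem c26 : chkAll C T R L26 (nat_lit 771) = true := by decide +kernel

theorem l26 : (nat_lit 771) + L26.length = (nat_lit 796) := by decide +kernel

/-- part of the certificates -/
def L27 : List Prf := [(.br (nat_lit 15) (nat_lit 1) (.cons (.ev (nat_lit 2668840743743231170551256494087734019) (nat_lit 2)) (.cons (.rf (nat_lit 217) (nat_lit 631047530908920034)) .nil))),
 (.br (nat_lit 14) (nat_lit 1) (.cons (.br (nat_lit 15) (nat_lit 1) (.cons (.kr (nat_lit 340282387282885714639203053110302867968) (nat_lit 1334420292644664385611923202865430528) (nat_lit 1) (nat_lit 0)) .nil)) .nil)),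
 (.br (nat_lit 12) (nat_lit 1) (.cons (.ev (nat_lit 5192376397395999972650825960915200) (nat_lit 1)) (.cons (.br (nat_lit 14) (nat_lit 1) (.cons (.ev (nat_lit 20891357882129028898305322986505985) (nat_lit 3)) (.cons (.br (nat_lit 15) (nat_lit 1) (.cons (.ev (nat_lit 5337721894470727856774491816085948161) (nat_lit 3)) (.cons (.rf (nat_lit 216) (nat_lit 631047530908920034)) .nil))) .nil))) (.cons (.br (nat_lit 14) (nat_lit 1) (.cons (.rf (nat_lit 796) (nat_lit 19926519232773908561233952)) (.cons (.rf (nat_lit 796) (nat_lit 18755336569552663305325600)) (.cons (.br (nat_lit 15) (nat_lit 1) (.cons (.rf (nat_lit 797) (nat_lit 21174442659471745632798752)) (.cons (.br (nat_lit 15) (nat_lit 1) (.cons (.rf (nat_lit 797) (nat_lit 21174442659471745632798752)) .nil)) .nil))) .nil)))) .nil)))),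
 (.br (nat_lit 15) (nat_lit 1) (.cons (.ev (nat_lit 341616807496302216473657150576483434752) (nat_lit 1)) (.cons (.zr (nat_lit 81288718635286008878964305562368) (nat_lit 2668840585286901401498156511680397313) (nat_lit 40) (nat_lit 0)) .nil))),
 (.br (nat_lit 14) (nat_lit 1) (.cons (.rf (nat_lit 799) (nat_lit 677582165103132179601393696)) (.cons (.rf (nat_lit 799) (nat_lit 640105463577866006590326921)) .nil))),
 (.br (nat_lit 14) (nat_lit 1) (.cons (.rf (nat_lit 800) (nat_lit 677582165103132179601393696)) (.cons (.br (nat_lit 16) (nat_lit 1) (.cons (.zr (nat_lit 40724518398039204209354671655168) (nat_lit 680575118435593996582440320204609421313) (nat_lit 40) (nat_lit 0)) (.cons (.ev (nat_lit 87452573491057582501383327020899238936577) (nat_lit 1)) .nil))) .nil))),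
 (.br (nat_lit 11) (nat_lit 1) (.cons (.rf (nat_lit 798) (nat_lit 583706118939841765935136)) (.cons (.rf (nat_lit 798) (nat_lit 546997101289630154726569)) (.cons (.br (nat_lit 12) (nat_lit 1) (.cons (.rf (nat_lit 798) (nat_lit 583705001727173170759817)) (.cons (.rf (nat_lit 798) (nat_lit 622589623905767823481088)) (.cons (.rf (nat_lit 795) (nat_lit 19347548767345919986720)) (.cons (.br (nat_lit 14) (nat_lit 1) (.cons (.rf (nat_lit 800) (nat_lit 677582165103132179601393696)) (.cons (.rf (nat_lit 801) (nat_lit 677582165103132179601393696)) (.cons (.rf (nat_lit 801) (nat_lit 640105463577866006590326921)) .nil)))) .nil))))) .nil)))),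
 (.br (nat_lit 15) (nat_lit 1) (.cons (.ev (nat_lit 1329248357732167048660196244305543425) (nat_lit 1)) .nil)),
 (.br (nat_lit 12) (nat_lit 1) (.cons (.br (nat_lit 15) (nat_lit 1) (.cons (.ev (nat_lit 340282367000166625996085690198550118401) (nat_lit 1)) (.cons (.rf (nat_lit 649) (nat_lit 661701333108492051024961)) .nil))) (.cons (.br (nat_lit 15) (nat_lit 1) (.cons (.zr (nat_lit 2668840585286915623504355943283426048) (nat_lit 159075295048315481616420044801) (nat_lit 8) (nat_lit 0)) (.cons (.ev (nat_lit 174224582288679029574947354822336732726019) (nat_lit 2)) .nil))) .nil))),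
 (.br (nat_lit 12) (nat_lit 1) (.cons (.rf (nat_lit 804) (nat_lit 677582165103132179601393696)) (.cons (.br (nat_lit 17) (nat_lit 1) (.cons (.ev (nat_lit 174224582288679029574947354822336732726019) (nat_lit 2)) (.cons (.ev (nat_lit 340282367000166625996085690198550118401) (nat_lit 1)) .nil))) .nil))),
 (.br (nat_lit 11) (nat_lit 1) (.cons (.rf (nat_lit 802) (nat_lit 583706118939841765935136)) (.cons (.ev (nat_lit 40565440599915435995346086396675) (nat_lit 2)) (.cons (.br (nat_lit 14) (nat_lit 1) (.cons (.br (nat_lit 12) (nat_lit 1) (.cons (.ev (nat_lit 40723277954961216033683497025795) (nat_lit 2)) (.cons (.ev (nat_lit 10384673876105106109295246377485058) (nat_lit 2)) (.cons (.br (nat_lit 15) (nat_lit 1) (.cons (.rf (nat_lit 803) (nat_lit 677582165103132179601393696)) (.cons (.rf (nat_lit 803) (nat_lit 640105463577866006590326921)) .nil))) .nil)))) (.cons (.br (nat_lit 15) (nat_lit 1) (.cons (.br (nat_lit 12) (nat_lit 1) (.cons (.ev (nat_lit 8006522074011299151176259139027470081) (nat_lit 3)) (.cons (.rf (nat_lit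 225) (nat_lit 631047530908920034)) .nil))) (.cons (.br (nat_lit 16) (nat_lit 1) (.cons (.ev (nat_lit 683223189833449181301903337395604029699) (nat_lit 2)) (.cons (.rf (nat_lit 226) (nat_lit 631047530908920034)) .nil))) (.cons (.br (nat_lit 12) (nat_lit 1) (.cons (.br (nat_lit 12) (nat_lit 1) (.cons (.ev (nat_lit 1329248357732167048660196244305543425) (nat_lit 1)) .nil)) (.cons (.br (nat_lit 12) (nat_lit 1) (.cons (.ev (nat_lit 1329248357732167048660196244305543425) (nat_lit 1)) .nil)) .nil))) .nil)))) (.cons (.br (nat_lit 16) (nat_lit 1) (.cons (.ev (nat_lit 340282366921247948473196233979764670721) (nat_lit 1)) (.cons (.br (nat_lit 15) (nat_lit 1) (.cons (.ev (nat_lit 683223189833449181301903337395604029699) (nat_lit 2)) (.cons (.rf (nat_lit 778) (nat_lit 631047531150904546)) .nil))) (.cons (.rf (nat_lit 648) (nat_lit 661701333108492051024961)) .nil)))) (.cons (.br (nat_lit 12) (nat_lit 1) (.cons (.rf (nat_lit 804) (nat_lit 677582165103132179601393696)) (.cons (.rf (nat_lit 805) (nat_lit 677582165103132179601393696))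 (.cons (.br (nat_lit 12) (nat_lit 1) (.cons (.rf (nat_lit 804) (nat_lit 677582165103132179601393696)) (.cons (.rf (nat_lit 805) (nat_lit 677582165103132179601393696)) .nil))) .nil)))) .nil))))) .nil)))),
 (.br (nat_lit 14) (nat_lit 1) (.cons (.ev (nat_lit 680575159000413208626305032134944883459) (nat_lit 2)) (.cons (.ev (nat_lit 87452573490978044853840794313783483826433) (nat_lit 1)) .nil))),
 (.br (nat_lit 12) (nat_lit 1) (.cons (.rf (nat_lit 806) (nat_lit 583705001727173170759817)) (.cons (.rf (nat_lit 806) (nat_lit 546995984710280257150208)) (.cons (.br (nat_lit 16) (nat_lit 1) (.cons (.rf (nat_lit 807) (nat_lit 677582165103132179601393696)) (.cons (.rf (nat_lit 807) (nat_lit 677545454968902618092608768)) (.cons (.ev (nat_lit 340282366921247948473196233979764670721) (nat_lit 1)) .nil)))) .nil)))),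
 (.br (nat_lit 10) (nat_lit 1) (.cons (.rf (nat_lit 787) (nat_lit 493858305440582043680)) (.cons (.rf (nat_lit 787) (nat_lit 492741092771986868361)) (.cons (.br (nat_lit 13) (nat_lit 1) (.cons (.rf (nat_lit 787) (nat_lit 454731836681941650601)) (.cons (.rf (nat_lit 787) (nat_lit 417839787692066576640)) (.cons (.rf (nat_lit 795) (nat_lit 17022140995484340291616)) (.cons (.br (nat_lit 11) (nat_lit 1) (.cons (.rf (nat_lit 802) (nat_lit 583706118939841765935136)) (.cons (.rf (nat_lit 806) (nat_lit 583706118939841765935136)) (.cons (.rf (nat_lit 806) (nat_lit 546997101289630154726569)) (.cons (.br (nat_lit 11) (nat_lit 1) (.cons (.rf (nat_lit 802) (nat_lit 583706118939841765935136)) (.cons (.rf (nat_lit 806) (nat_lit 583706118939841765935136)) (.cons (.rf (nat_lit 806) (nat_lit 546997101289630154726569)) (.cons (.br (nat_lit 12) (nat_lit 1) (.cons (.rf (nat_lit 806) (nat_lit 583705001727173170759817)) (.cons (.rf (nat_lit 806) (nat_lit 546995984710280257150208)) (.cons (.rf (nat_lit 808) (nat_lit 677582165103132179601393696))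 (.cons (.rf (nat_lit 808) (nat_lit 640105464695078675185502240)) .nil))))) .nil))))) .nil))))) .nil))))) .nil)))),
 (.br (nat_lit 12) (nat_lit 1) (.cons (.rf (nat_lit 787) (nat_lit 417839787692066576640)) (.cons (.ev (nat_lit 2668840664824548980491435525403575042) (nat_lit 2)) (.cons (.br (nat_lit 15) (nat_lit 1) (.cons (.zr (nat_lit 5337681170573883285273743821211963136) (nat_lit 621387871571283398604750851) (nat_lit 40) (nat_lit 0)) (.cons (.br (nat_lit 16) (nat_lit 1) (.cons (.ev (nat_lit 683223190150364249284819241086285383425) (nat_lit 3)) (.cons (.rf (nat_lit 400) (nat_lit 631047565302180034)) .nil))) (.cons (.rf (nat_lit 658) (nat_lit 661701298171509037238369)) .nil)))) .nil)))),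
 (.br (nat_lit 12) (nat_lit 1) (.cons (.rf (nat_lit 787) (nat_lit 417839787692066576640)) (.cons (.br (nat_lit 13) (nat_lit 1) (.cons (.br (nat_lit 13) (nat_lit 1) .nil) .nil)) .nil))),
 (.br (nat_lit 12) (nat_lit 1) (.cons (.rf (nat_lit 787) (nat_lit 417839787692066576640)) (.cons (.br (nat_lit 16) (nat_lit 1) (.cons (.zr (nat_lit 683223189833446772894996509814161408768) (nat_lit 159075295048315481616420044801) (nat_lit 8) (nat_lit 0)) (.cons (.ev (nat_lit 349818279716640297832212558673437576529153) (nat_lit 3)) .nil))) .nil))),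
 (.br (nat_lit 14) (nat_lit 1) (.cons (.rf (nat_lit 810) (nat_lit 583706118939841765935136)) (.cons (.rf (nat_lit 810) (nat_lit 583670343470268523023392)) (.cons (.zr (nat_lit 20769187434139310514125296736665859) (nat_lit 621392648988634486606528512) (nat_lit 8) (nat_lit 9)) (.cons (.br (nat_lit 15) (nat_lit 1) (.cons (.rf (nat_lit 810) (nat_lit 547107778697602015528992)) (.cons (.rf (nat_lit 810) (nat_lit 547072003228028772617248)) (.cons (.br (nat_lit 12) (nat_lit 1) (.cons (.rf (nat_lit 787) (nat_lit 417839787692066576640)) (.cons (.rf (nat_lit 811) (nat_lit 19926519232773908561233952)) (.cons (.br (nat_lit 12) (nat_lit 1) (.cons (.rf (nat_lit 787) (nat_lit 417839787692066576640)) (.cons (.rf (nat_lit 811) (nat_lit 19926519232773908561233952)) .nil))) .nil)))) (.cons (.br (nat_lit 12) (nat_lit 1) (.cons (.rf (nat_lit 787) (nat_lit 417839787692066576640)) (.cons (.rf (nat_lit 812) (nat_lit 677582165103132179601393696)) (.cons (.rf (nat_lit 812) (nat_lit 640068866354836435435096096)) .nil)))) .nil))))) .nil))))),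
 (.br (nat_lit 15) (nat_lit 1) (.cons (.ev (nat_lit 1329248278194524246940714976688537856) (nat_lit 1)) (.cons (.ev (nat_lit 1329248357732167048660196244305543425) (nat_lit 1)) .nil))),
 (.br (nat_lit 13) (nat_lit 1) (.cons (.rf (nat_lit 814) (nat_lit 677582165103132179601393696)) (.cons (.rf (nat_lit 814) (nat_lit 640105463577866006590326921)) .nil))),
 (.br (nat_lit 13) (nat_lit 1) (.cons (.rf (nat_lit 814) (nat_lit 677582165103132179601393696)) (.cons (.br (nat_lit 16) (nat_lit 1) (.cons (.br (nat_lit 15) (nat_lit 1) (.cons (.ev (nat_lit 2668840744364619041688499942290752259) (nat_lit 2)) .nil)) (.cons (.ev (nat_lit 174905136638086264727303911264539146977539) (nat_lit 2)) .nil))) .nil))),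
 (.br (nat_lit 12) (nat_lit 1) (.cons (.rf (nat_lit 787) (nat_lit 417839787692066576640)) (.cons (.rf (nat_lit 813) (nat_lit 583705001727173170759817)) (.cons (.br (nat_lit 16) (nat_lit 1) (.cons (.ev (nat_lit 680575118436212971379499799575357686019) (nat_lit 2)) (.cons (.ev (nat_lit 680585503110093940485904729825121534467) (nat_lit 3)) (.cons (.br (nat_lit 13) (nat_lit 1) (.cons (.br (nat_lit 13) (nat_lit 1) (.cons (.ev (nat_lit 340282387282577443296014269238659317760) (nat_lit 1)) .nil)) (.cons (.br (nat_lit 13) (nat_lit 1) (.cons (.ev (nat_lit 340282387282577443296014269238659317760) (nat_lit 1)) .nil)) .nil))) .nil)))) (.cons (.br (nat_lit 13) (nat_lit 1) (.cons (.rf (nat_lit 815) (nat_lit 677582165103132179601393696)) (.cons (.rf (nat_lit 816) (nat_lit 677582165103132179601393696)) (.cons (.rf (nat_lit 816) (nat_lit 640105463577866006590326921)) .nil)))) .nil))))),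
 (.br (nat_lit 12) (nat_lit 1) (.cons (.rf (nat_lit 787) (nat_lit 417839787692066576640)) (.cons (.rf (nat_lit 813) (nat_lit 583705001727173170759817)) (.cons (.br (nat_lit 14) (nat_lit 1) (.cons (.rf (nat_lit 817) (nat_lit 18755336569552663305325600)) (.cons (.ev (nat_lit 2668840744364619041688499942290752259) (nat_lit 2)) (.cons (.ev (nat_lit 340282366921247948473196233979764670721) (nat_lit 1)) (.cons (.br (nat_lit 15) (nat_lit 1) (.cons (.rf (nat_lit 817) (nat_lit 17547554448876442969249929)) (.cons (.ev (nat_lit 340282367000166625996085690198550118401) (nat_lit 1)) (.cons (.ev (nat_lit 2668840585289324030411183524726046979) (nat_lit 2)) .nil)))) .nil))))) (.cons (.br (nat_lit 14) (nat_lit 1) (.cons (.rf (nat_lit 817) (nat_lit 18755336569552663305325600)) (.cons (.rf (nat_lit 676) (nat_lit 660557600038939045038177)) (.cons (.br (nat_lit 15) (nat_lit 1) (.cons (.rf (nat_lit 817) (nat_lit 17585333380739400130959497)) (.cons (.ev (nat_lit 2668840585289324030411183524726046979) (nat_lit 2)) (.cons (.br (nat_lit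 16) (nat_lit 1) (.cons (.zr (nat_lit 683223189833446772894996509814161408768) (nat_lit 159075295048315481616420044801) (nat_lit 8) (nat_lit 0)) (.cons (.ev (nat_lit 174905136597362372642803894728340367606019) (nat_lit 2)) .nil))) .nil)))) (.cons (.br (nat_lit 15) (nat_lit 1) (.cons (.rf (nat_lit 817) (nat_lit 17585333380739400130959497)) (.cons (.br (nat_lit 16) (nat_lit 1) (.cons (.ev (nat_lit 683223189834689539193261425007236612865) (nat_lit 3)) (.cons (.ev (nat_lit 174905136597362372642803894728340367606019) (nat_lit 2)) .nil))) (.cons (.ev (nat_lit 2668840585289324030411183524726046979) (nat_lit 2)) .nil)))) .nil))))) .nil))))),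
 (.br (nat_lit 12) (nat_lit 1) (.cons (.rf (nat_lit 787) (nat_lit 417839787692066576640)) (.cons (.rf (nat_lit 817) (nat_lit 19926519232773908561233952)) (.cons (.rf (nat_lit 818) (nat_lit 19926519232773908561233952)) (.cons (.br (nat_lit 16) (nat_lit 1) (.cons (.rf (nat_lit 818) (nat_lit 18755336569552663305325600)) (.cons (.ev (nat_lit 340282366921247953214009462018336096256) (nat_lit 1)) (.cons (.br (nat_lit 14) (nat_lit 1) (.cons (.rf (nat_lit 817) (nat_lit 18755336569552663305325600)) (.cons (.rf (nat_lit 674) (nat_lit 631047533231283298)) (.cons (.br (nat_lit 15) (nat_lit 1) (.cons (.ev (nat_lit 683223189834689539193261425007236612865) (nat_lit 3)) (.cons (.ev (nat_lit 87113620352132118259857142922856053604353) (nat_lit 1)) .nil))) .nil)))) (.cons (.ev (nat_lit 340282367000166625996085690198550118401) (nat_lit 1)) .nil))))) .nil)))))]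

theorem c27 : chkAll C T R L27 (nat_lit 796) = true := by decide +kernel

theorem l27 : (nat_lit 796) + L27.length = (nat_lit 820) := by decide +kernel

/-- part of the certificates -/
def L28 : List Prf := [(.br (nat_lit 11) (nat_lit 1) (.cons (.rf (nat_lit 809) (nat_lit 458082835867339131936)) (.cons (.rf (nat_lit 787) (nat_lit 454731836681941650601)) (.cons (.rf (nat_lit 813) (nat_lit 583706118939841765935136)) (.cons (.br (nat_lit 12) (nat_lit 1) (.cons (.rf (nat_lit 787) (nat_lit 417839787692066576640)) (.cons (.rf (nat_lit 817) (nat_lit 19926519232773908561233952)) (.cons (.rf (nat_lit 818) (nat_lit 19926519232773908561233952)) (.cons (.rf (nat_lit 819) (nat_lit 19926519232773908561233952)) (.cons (.br (nat_lit 12) (nat_lit 1) (.cons (.rf (nat_lit 787) (nat_lit 417839787692066576640)) (.cons (.rf (nat_lit 817) (nat_lit 19926519232773908561233952)) (.cons (.rf (nat_lit 818) (nat_lit 19926519232773908561233952)) (.cons (.rf (nat_lit 819) (nat_lit 19926519232773908561233952)) .nil))))) .nil)))))) .nil))))),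
 (.br (nat_lit 14) (nat_lit 1) (.cons (.ev (nat_lit 680595888099016085812493433087547539713) (nat_lit 3)) (.cons (.br (nat_lit 15) (nat_lit 1) (.cons (.ev (nat_lit 1329228075323772341328187498759716865) (nat_lit 1)) (.cons (.ev (nat_lit 2668840664824548980491435525403575042) (nat_lit 2)) .nil))) (.cons (.ev (nat_lit 174905136597441907867753974980341045134082) (nat_lit 2)) .nil)))),
 (.br (nat_lit 12) (nat_lit 1) (.cons (.rf (nat_lit 787) (nat_lit 417839787692066576640)) (.cons (.rf (nat_lit 820) (nat_lit 583705001727173170759817)) (.cons (.rf (nat_lit 820) (nat_lit 547106661484933420353673)) (.cons (.br (nat_lit 16) (nat_lit 1) (.cons (.rf (nat_lit 820) (nat_lit 661549147389442396494080)) (.cons (.rf (nat_lit 821) (nat_lit 677582165103132179601393696)) (.cons (.rf (nat_lit 821) (nat_lit 677545566762889939850987552)) (.cons (.ev (nat_lit 340282366921247948473196233979764670721) (nat_lit 1)) .nil))))) .nil))))),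
 (.br (nat_lit 1) (nat_lit 1) (.cons (.br (nat_lit 1) (nat_lit 1) (.cons (.br (nat_lit 2) (nat_lit 0) (.cons (.br (nat_lit 3) (nat_lit 0) (.cons (.br (nat_lit 2) (nat_lit 1) (.cons (.kr (nat_lit 65536) (nat_lit 16777216) (nat_lit 2) (nat_lit 0)) (.cons (.rf (nat_lit 42) (nat_lit 172066848)) (.cons (.br (nat_lit 3) (nat_lit 1) (.cons (.rf (nat_lit 143) (nat_lit 172066848)) (.cons (.rf (nat_lit 42) (nat_lit 205589536)) (.cons (.br (nat_lit 4) (nat_lit 0) (.cons (.br (nat_lit 0) (nat_lit 0) (.cons (.rf (nat_lit 62) (nat_lit 239175712)) (.cons (.br (nat_lit 7) (nat_lit 0) (.cons (.br (nat_lit 7) (nat_lit 0) (.cons (.br (nat_lit 8) (nat_lit 1) (.cons (.br (nat_lit 8) (nat_lit 1) (.cons (.br (nat_lit 10) (nat_lit 0) (.cons (.br (nat_lit 9) (nat_lit 1) (.cons (.br (nat_lit 10) (nat_lit 1) (.cons (.rf (nat_lit 190) (nat_lit 407901468851537952)) (.cons (.rf (nat_lit 190) (nat_lit 407901467811318816)) (.cons (.kr (nat_lit 1208925819614629174706176) (nat_lit 309485009821345068724781056) (nat_lit 10) (nat_lit 0)) (.cons (.br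 (nat_lit 11) (nat_lit 1) (.cons (.rf (nat_lit 190) (nat_lit 372998571739416608)) (.cons (.rf (nat_lit 190) (nat_lit 372998570699197472)) (.cons (.rf (nat_lit 143) (nat_lit 412461319)) (.cons (.br (nat_lit 5) (nat_lit 1) (.cons (.rf (nat_lit 234) (nat_lit 493858305440582043680)) (.cons (.rf (nat_lit 271) (nat_lit 493858305440582043680)) (.cons (.rf (nat_lit 271) (nat_lit 458082835900657666080)) (.cons (.br (nat_lit 5) (nat_lit 1) (.cons (.rf (nat_lit 234) (nat_lit 493858305440582043680)) (.cons (.rf (nat_lit 271) (nat_lit 493858305440582043680)) (.cons (.rf (nat_lit 271) (nat_lit 458082835900657666080)) (.cons (.br (nat_lit 6) (nat_lit 1) (.cons (.rf (nat_lit 271) (nat_lit 493858305439541824544)) (.cons (.rf (nat_lit 271) (nat_lit 458082835899617446944)) (.cons (.rf (nat_lit 278) (nat_lit 583706118939841765935136)) (.cons (.rf (nat_lit 278) (nat_lit 547107778697602015528992)) (.cons (.br (nat_lit 6) (nat_lit 1) (.cons (.rf (nat_lit 271) (nat_lit 493858305439541824544)) (.cons (.rf (nat_lit 271) (nat_lit 458082835899617446944))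 (.cons (.rf (nat_lit 278) (nat_lit 583706118939841765935136)) (.cons (.rf (nat_lit 278) (nat_lit 547107778697602015528992)) (.cons (.br (nat_lit 12) (nat_lit 1) (.cons (.rf (nat_lit 234) (nat_lit 227236016449790519559)) (.cons (.rf (nat_lit 281) (nat_lit 677582165103132179601393696)) (.cons (.rf (nat_lit 281) (nat_lit 677545566762889939850987552)) (.cons (.rf (nat_lit 281) (nat_lit 597870980055534002176592928)) (.cons (.rf (nat_lit 281) (nat_lit 597834381715291762426186784)) .nil)))))) .nil)))))) .nil)))))) .nil))))) .nil))))) .nil))))) .nil))))) .nil)) .nil)) .nil)) .nil)) .nil)) .nil)) .nil))) (.cons (.rf (nat_lit 107) (nat_lit 239175712)) (.cons (.br (nat_lit 0) (nat_lit 0) (.cons (.rf (nat_lit 412) (nat_lit 247132686368)) (.cons (.br (nat_lit 0) (nat_lit 0) (.cons (.rf (nat_lit 412) (nat_lit 247132686368)) (.cons (.rf (nat_lit 0) (nat_lit 4497440)) .nil))) .nil))) .nil)))) .nil)))) .nil)))) (.cons (.br (nat_lit 4) (nat_lit 1) (.cons (.br (nat_lit 5) (nat_lit 1) (.cons (.br (nat_lit 4) (nat_lit 0) (.cons (.rf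 (nat_lit 413) (nat_lit 6614517792)) (.cons (.br (nat_lit 0) (nat_lit 0) (.cons (.rf (nat_lit 106) (nat_lit 7508000)) (.cons (.br (nat_lit 0) (nat_lit 0) (.cons (.rf (nat_lit 106) (nat_lit 8556576)) .nil)) .nil))) (.cons (.rf (nat_lit 106) (nat_lit 5476384)) (.cons (.br (nat_lit 5) (nat_lit 0) (.cons (.rf (nat_lit 413) (nat_lit 6581980192)) (.cons (.rf (nat_lit 413) (nat_lit 3260094599)) (.cons (.rf (nat_lit 106) (nat_lit 4461600)) .nil)))) .nil))))) (.cons (.br (nat_lit 6) (nat_lit 0) (.cons (.br (nat_lit 7) (nat_lit 0) (.cons (.br (nat_lit 4) (nat_lit 0) (.cons (.rf (nat_lit 679) (nat_lit 9043225708576)) (.cons (.rf (nat_lit 106) (nat_lit 8556576)) (.cons (.rf (nat_lit 106) (nat_lit 5509152)) (.cons (.br (nat_lit 5) (nat_lit 0) (.cons (.rf (nat_lit 679) (nat_lit 9009907174432)) (.cons (.rf (nat_lit 106) (nat_lit 4461600)) (.cons (.br (nat_lit 8) (nat_lit 0) (.cons (.br (nat_lit 0) (nat_lit 0) (.cons (.br (nat_lit 2) (nat_lit 1) (.cons (.zr (nat_lit 3311419785475) (nat_lit 4777706715090807554048) (nat_lit 8) (nat_lit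 9)) (.cons (.zr (nat_lit 14222439680834359264000) (nat_lit 566248488435713) (nat_lit 8) (nat_lit 0)) (.cons (.ev (nat_lit 72058693549555969) (nat_lit 1)) (.cons (.br (nat_lit 3) (nat_lit 1) (.cons (.ev (nat_lit 281479271678209) (nat_lit 1)) (.cons (.zr (nat_lit 14222439681929575924480) (nat_lit 144115200994312193) (nat_lit 8) (nat_lit 0)) (.cons (.rf (nat_lit 713) (nat_lit 11584701642934304)) (.cons (.br (nat_lit 6) (nat_lit 1) (.cons (.zr (nat_lit 18446747385129336835) (nat_lit 4722511161007674491648) (nat_lit 8) (nat_lit 9)) (.cons (.rf (nat_lit 713) (nat_lit 11264740635641993)) (.cons (.rf (nat_lit 753) (nat_lit 407901468851537952)) (.cons (.br (nat_lit 7) (nat_lit 1) (.cons (.rf (nat_lit 753) (nat_lit 372998538420882464)) (.cons (.rf (nat_lit 713) (nat_lit 12389505597410473)) (.cons (.rf (nat_lit 713) (nat_lit 13828663141439744)) (.cons (.br (nat_lit 10) (nat_lit 1) (.cons (.rf (nat_lit 787) (nat_lit 493858305440582043680)) (.cons (.rf (nat_lit 787) (nat_lit 492741092771986868361)) (.cons (.rf (nat_lit 809)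 (nat_lit 493858305440582043680)) (.cons (.br (nat_lit 10) (nat_lit 1) (.cons (.rf (nat_lit 787) (nat_lit 493858305440582043680)) (.cons (.rf (nat_lit 787) (nat_lit 492741092771986868361)) (.cons (.rf (nat_lit 809) (nat_lit 493858305440582043680)) (.cons (.br (nat_lit 11) (nat_lit 1) (.cons (.rf (nat_lit 809) (nat_lit 458082835867339131936)) (.cons (.rf (nat_lit 787) (nat_lit 454731836681941650601)) (.cons (.rf (nat_lit 820) (nat_lit 583706118939841765935136)) (.cons (.rf (nat_lit 820) (nat_lit 547107778697602015528992)) (.cons (.br (nat_lit 11) (nat_lit 1) (.cons (.rf (nat_lit 809) (nat_lit 458082835867339131936)) (.cons (.rf (nat_lit 787) (nat_lit 454731836681941650601)) (.cons (.rf (nat_lit 820) (nat_lit 583706118939841765935136)) (.cons (.rf (nat_lit 820) (nat_lit 547107778697602015528992)) (.cons (.br (nat_lit 12) (nat_lit 1) (.cons (.rf (nat_lit 787) (nat_lit 417839787692066576640)) (.cons (.rf (nat_lit 820) (nat_lit 583705001727173170759817)) (.cons (.rf (nat_lit 820) (nat_lit 547106661484933420353673)) (.cons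 (.rf (nat_lit 822) (nat_lit 677582165103132179601393696)) (.cons (.rf (nat_lit 822) (nat_lit 640105464695078675185502240)) .nil)))))) .nil)))))) .nil)))))) .nil))))) .nil))))) .nil))))) .nil))))) .nil))))) .nil))))) .nil)) (.cons (.rf (nat_lit 0) (nat_lit 1315977)) .nil))) .nil)))) .nil))))) .nil)) .nil)) .nil))) .nil)) .nil))) .nil)) .nil)) .nil)),
 (.br (nat_lit 0) (nat_lit 0) (.cons (.rf (nat_lit 823) (nat_lit 32)) (.cons (.br (nat_lit 0) (nat_lit 0) (.cons (.rf (nat_lit 823) (nat_lit 64)) .nil)) .nil)))]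

theorem c28 : chkAll C T R L28 (nat_lit 820) = true := by decide +kernel

theorem l28 : (nat_lit 820) + L28.length = (nat_lit 825) := by decide +kernel

end Pool.Agent.H93.Neg.N18_4_8
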