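import Pool.Agent.H93.Neg.TabN18_6_0

/-!
Certificates.
-/

set_option autoImplicit false
set_option maxRecDepth 100000
set_option linter.all false

namespace Pool.Agent.H93.Neg.N18_6_0

/-- part of the certificates -/
def L0 : List Prf := [(.br (nat_lit 10) (nat_lit 0) (.cons (.br (nat_lit 10) (nat_lit 0) .nil) .nil)),
 (.br (nat_lit 10) (nat_lit 0) (.cons (.br (nat_lit 10) (nat_lit 0) .nil) .nil)),
 (.br (nat_lit 14) (nat_lit 0) (.cons (.br (nat_lit 15) (nat_lit 0) (.cons (.ev (nat_lit 2689609773341252824719575646096983557) (nat_lit 3)) (.cons (.rf (nat_lit 1) (nat_lit 631047566515213377)) .nil))) .nil)),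
 (.br (nat_lit 15) (nat_lit 0) (.cons (.ev (nat_lit 1344865813130610390268930351079424769) (nat_lit 2)) .nil)),
 (.br (nat_lit 12) (nat_lit 0) (.cons (.br (nat_lit 13) (nat_lit 0) (.cons (.kr (nat_lit 158457533954348571291239317505) (nat_lit 40564819212025707330768459530240) (nat_lit 0) (nat_lit 1)) (.cons (.br (nat_lit 14) (nat_lit 0) (.cons (.rf (nat_lit 2) (nat_lit 583706118939841765935136)) (.cons (.br (nat_lit 14) (nat_lit 0) (.cons (.rf (nat_lit 2) (nat_lit 583706118939841765935136)) (.cons (.br (nat_lit 15) (nat_lit 0) (.cons (.rf (nat_lit 3) (nat_lit 677582165103132179601393696)) (.cons (.rf (nat_lit 3) (nat_lit 640105464695078675185502240)) .nil))) .nil))) .nil))) .nil))) .nil)),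
 (.br (nat_lit 15) (nat_lit 0) (.cons (.ev (nat_lit 10384752174608369009718501973164547) (nat_lit 2)) (.cons (.br (nat_lit 16) (nat_lit 0) (.cons (.ev (nat_lit 10425159156460626426980210365825027) (nat_lit 2)) (.cons (.ev (nat_lit 688540101817206634277312835772779464197) (nat_lit 3)) .nil))) .nil))),
 (.br (nat_lit 13) (nat_lit 0) (.cons (.ev (nat_lit 20520403576259841187907985539842) (nat_lit 2)) (.cons (.br (nat_lit 15) (nat_lit 0) (.cons (.ev (nat_lit 10384752174608369009718501973164547) (nat_lit 2)) (.cons (.rf (nat_lit 5) (nat_lit 19926519232773908561233952)) (.cons (.br (nat_lit 15) (nat_lit 0) (.cons (.ev (nat_lit 10384752174608369009718501973164547) (nat_lit 2)) (.cons (.rf (nat_lit 5) (nat_lit 19926519232773908561233952)) .nil))) .nil)))) .nil))),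
 (.br (nat_lit 15) (nat_lit 0) (.cons (.kr (nat_lit 5192296858534827628530496329220096) (nat_lit 1329227995784915872903807060280344576) (nat_lit 14) (nat_lit 0)) (.cons (.ev (nat_lit 1334440575054263296541459280071491840) (nat_lit 1)) .nil))),
 (.br (nat_lit 14) (nat_lit 0) (.cons (.rf (nat_lit 7) (nat_lit 677582165103132179601393696)) (.cons (.rf (nat_lit 7) (nat_lit 640105464695078675185502240)) .nil))),
 (.br (nat_lit 14) (nat_lit 0) (.cons (.rf (nat_lit 8) (nat_lit 677582165103132179601393696)) (.cons (.br (nat_lit 16) (nat_lit 0) (.cons (.br (nat_lit 15) (nat_lit 0) (.cons (.ev (nat_lit 87452568318963595922683283231687892271360) (nat_lit 1)) .nil)) (.cons (.kr (nat_lit 340282366920938463463374607431768211456) (nat_lit 87112285931760246646623899502532662132736) (nat_lit 16) (nat_lit 0)) .nil))) .nil))),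
 (.br (nat_lit 5) (nat_lit 0) (.cons (.ev (nat_lit 1213685223982322226823683) (nat_lit 2)) (.cons (.br (nat_lit 8) (nat_lit 0) (.cons (.ev (nat_lit 620212113140778547560973829) (nat_lit 3)) (.cons (.br (nat_lit 12) (nat_lit 0) (.cons (.rf (nat_lit 4) (nat_lit 493858305440582043680)) (.cons (.br (nat_lit 12) (nat_lit 0) (.cons (.rf (nat_lit 4) (nat_lit 493858305440582043680)) (.cons (.br (nat_lit 13) (nat_lit 0) (.cons (.rf (nat_lit 6) (nat_lit 583706118939841765935136)) (.cons (.rf (nat_lit 6) (nat_lit 547107778697602015528992)) (.cons (.br (nat_lit 13) (nat_lit 0) (.cons (.rf (nat_lit 6) (nat_lit 583706118939841765935136)) (.cons (.rf (nat_lit 6) (nat_lit 547107778697602015528992)) (.cons (.br (nat_lit 14) (nat_lit 0) (.cons (.rf (nat_lit 8) (nat_lit 677582165103132179601393696)) (.cons (.rf (nat_lit 9) (nat_lit 677582165103132179601393696)) (.cons (.rf (nat_lit 9) (nat_lit 640105464695078675185502240)) .nil)))) .nil)))) .nil)))) .nil))) .nil))) .nil))) .nil))),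
 (.br (nat_lit 10) (nat_lit 0) (.cons (.br (nat_lit 10) (nat_lit 0) .nil) .nil)),
 (.br (nat_lit 14) (nat_lit 0) (.cons (.kr (nat_lit 40564820416229160743998653988865) (nat_lit 10384593717074377623543866615398400) (nat_lit 0) (nat_lit 1)) (.cons (.br (nat_lit 15) (nat_lit 0) (.cons (.ev (nat_lit 1334440575363748287843722301272031233) (nat_lit 1)) (.cons (.rf (nat_lit 11) (nat_lit 631047566515213377)) .nil))) .nil))),
 (.br (nat_lit 16) (nat_lit 0) (.cons (.ev (nat_lit 680575159159489712581704870260956594177) (nat_lit 2)) .nil)),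
 (.br (nat_lit 13) (nat_lit 0) (.cons (.rf (nat_lit 12) (nat_lit 583706118939841765935136)) (.cons (.br (nat_lit 14) (nat_lit 0) (.cons (.rf (nat_lit 12) (nat_lit 582562052317870509333865)) (.cons (.kr (nat_lit 40564820416229160743998653988865) (nat_lit 10384593717074377623543866615398400) (nat_lit 0) (nat_lit 1)) (.cons (.br (nat_lit 15) (nat_lit 0) (.cons (.rf (nat_lit 13) (nat_lit 677582165103132179601393696)) (.cons (.rf (nat_lit 13) (nat_lit 640104320628456703928900969)) .nil))) .nil)))) .nil))),
 (.br (nat_lit 10) (nat_lit 0) (.cons (.br (nat_lit 10) (nat_lit 0) .nil) .nil)),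
 (.br (nat_lit 14) (nat_lit 0) (.cons (.ev (nat_lit 31194347828568347464676280445043205) (nat_lit 3)) (.cons (.br (nat_lit 15) (nat_lit 0) (.cons (.ev (nat_lit 683223189833447972357780811306290381313) (nat_lit 2)) (.cons (.ev (nat_lit 1334440575053059093088046041270321408) (nat_lit 1)) .nil))) .nil))),
 (.br (nat_lit 13) (nat_lit 0) (.cons (.rf (nat_lit 14) (nat_lit 583706118939841765935136)) (.cons (.br (nat_lit 14) (nat_lit 0) (.cons (.br (nat_lit 14) (nat_lit 0) (.cons (.ev (nat_lit 31194347828568347464676280445043205) (nat_lit 3)) (.cons (.rf (nat_lit 15) (nat_lit 631047566515213377)) .nil))) (.cons (.rf (nat_lit 16) (nat_lit 19926519232773908561233952)) (.cons (.br (nat_lit 14) (nat_lit 0) (.cons (.rf (nat_lit 15) (nat_lit 631047566515213377)) (.cons (.rf (nat_lit 16) (nat_lit 19926519232773908561233952)) .nil))) .nil)))) .nil))),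
 (.br (nat_lit 14) (nat_lit 0) (.cons (.rf (nat_lit 17) (nat_lit 582562052317870509333865)) (.cons (.ev (nat_lit 31194347828568347464676280445043205) (nat_lit 3)) .nil))),
 (.br (nat_lit 8) (nat_lit 0) (.cons (.ev (nat_lit 1213685223982322193269249) (nat_lit 2)) (.cons (.ev (nat_lit 309485065378032650784146178) (nat_lit 2)) (.cons (.br (nat_lit 12) (nat_lit 0) (.cons (.ev (nat_lit 79537652246452166631442415616) (nat_lit 1)) (.cons (.ev (nat_lit 79228167255149903610225099008) (nat_lit 1)) (.cons (.br (nat_lit 13) (nat_lit 0) (.cons (.rf (nat_lit 14) (nat_lit 583706118939841765935136)) (.cons (.rf (nat_lit 17) (nat_lit 583706118939841765935136)) (.cons (.br (nat_lit 13) (nat_lit 0) (.cons (.rf (nat_lit 14) (nat_lit 583706118939841765935136)) (.cons (.rf (nat_lit 17) (nat_lit 583706118939841765935136)) (.cons (.br (nat_lit 14) (nat_lit 0) (.cons (.rf (nat_lit 17) (nat_lit 582562052317870509333865)) (.cons (.rf (nat_lit 18) (nat_lit 677582165103132179601393696)) (.cons (.rf (nat_lit 18) (nat_lit 640105464695078675185502240)) .nil))))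 .nil)))) .nil)))) .nil)))) .nil)))),
 (.br (nat_lit 10) (nat_lit 0) (.cons (.br (nat_lit 10) (nat_lit 0) .nil) .nil)),
 (.br (nat_lit 14) (nat_lit 0) (.cons (.ev (nat_lit 1329248278504009256834398014916264193) (nat_lit 1)) (.cons (.br (nat_lit 14) (nat_lit 0) (.cons (.ev (nat_lit 1329248278504009256834398014916264193) (nat_lit 1)) .nil)) .nil))),
 (.br (nat_lit 15) (nat_lit 0) (.cons (.ev (nat_lit 1329248357422686761277390539752210688) (nat_lit 1)) .nil)),
 (.br (nat_lit 14) (nat_lit 0) (.cons (.rf (nat_lit 22) (nat_lit 19926519232773908561233952)) (.cons (.br (nat_lit 14) (nat_lit 0) (.cons (.rf (nat_lit 22) (nat_lit 19926519232773908561233952)) .nil)) .nil))),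
 (.br (nat_lit 13) (nat_lit 0) (.cons (.kr (nat_lit 20282409603651670423947251286017) (nat_lit 79228162514264337593560727552) (nat_lit 0) (nat_lit 1)) (.cons (.ev (nat_lit 40723276746017093505403817296387) (nat_lit 2)) (.cons (.br (nat_lit 14) (nat_lit 0) (.cons (.br (nat_lit 15) (nat_lit 0) (.cons (.ev (nat_lit 7975408541386854619116335664151790085) (nat_lit 3)) (.cons (.rf (nat_lit 20) (nat_lit 631047566515213377)) .nil))) (.cons (.rf (nat_lit 21) (nat_lit 622703726024184642504736)) (.cons (.rf (nat_lit 23) (nat_lit 21174442659472880612509728)) .nil)))) .nil)))),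
 (.br (nat_lit 14) (nat_lit 0) (.cons (.ev (nat_lit 10385069706256853983865101483116037) (nat_lit 3)) (.cons (.br (nat_lit 16) (nat_lit 0) (.cons (.br (nat_lit 15) (nat_lit 0) (.cons (.ev (nat_lit 2668840585288115086289220376809439747) (nat_lit 2)) .nil)) (.cons (.ev (nat_lit 174905136597362990403842377854193395433473) (nat_lit 2)) .nil))) .nil))),
 (.br (nat_lit 12) (nat_lit 0) (.cons (.rf (nat_lit 24) (nat_lit 583706118939841765935136)) (.cons (.rf (nat_lit 24) (nat_lit 547107777605821328885792)) (.cons (.br (nat_lit 13) (nat_lit 0) (.cons (.rf (nat_lit 24) (nat_lit 583670378373198852920355)) (.cons (.rf (nat_lit 24) (nat_lit 547072037039178415871011)) (.cons (.kr (nat_lit 20282409603651670423947251286017) (nat_lit 79228162514264337593560727552) (nat_lit 0) (nat_lit 1)) (.cons (.br (nat_lit 14) (nat_lit 0) (.cons (.br (nat_lit 14) (nat_lit 0) (.cons (.ev (nat_lit 10385069706256853983865101483116037) (nat_lit 3)) (.cons (.ev (nat_lit 10506288794903678420383223760684547) (nat_lit 3)) .nil))) (.cons (.rf (nat_lit 25) (nat_lit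 677582165103132179601393696)) (.cons (.rf (nat_lit 25) (nat_lit 640105428954512032272487459)) .nil)))) .nil))))) .nil)))),
 (.br (nat_lit 13) (nat_lit 0) (.cons (.ev (nat_lit 40723895715999699157346158772227) (nat_lit 2)) (.cons (.br (nat_lit 15) (nat_lit 0) (.cons (.ev (nat_lit 2679347192232395101753149654441525765) (nat_lit 3)) (.cons (.rf (nat_lit 20) (nat_lit 596074369375248449)) .nil))) .nil))),
 (.br (nat_lit 13) (nat_lit 0) (.cons (.ev (nat_lit 2668881309182617400763269517980860417) (nat_lit 2)) .nil)),
 (.br (nat_lit 14) (nat_lit 0) (.cons (.rf (nat_lit 27) (nat_lit 583706118939841765935136)) (.cons (.kr (nat_lit 1329227995784920595270289929925558272) (nat_lit 5192296859743753448145125503926272) (nat_lit 9) (nat_lit 0)) (.cons (.br (nat_lit 15) (nat_lit 0) (.cons (.rf (nat_lit 27) (nat_lit 547107777605821328885792)) (.cons (.ev (nat_lit 2668840585288115086289220376809439747) (nat_lit 2)) (.cons (.br (nat_lit 13) (nat_lit 0) (.cons (.rf (nat_lit 28) (nat_lit 677582165103132179601393696)) (.cons (.rf (nat_lit 28) (nat_lit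 640068866353744654748452896)) .nil))) .nil)))) .nil)))),
 (.br (nat_lit 13) (nat_lit 0) (.cons (.br (nat_lit 15) (nat_lit 0) (.cons (.kr (nat_lit 40564820416229160743998653988865) (nat_lit 2658455991569836468174096994517647360) (nat_lit 0) (nat_lit 1)) (.cons (.kr (nat_lit 5212579269347405118569072755212289) (nat_lit 1329228075013083109534627523486285824) (nat_lit 0) (nat_lit 1)) .nil))) (.cons (.br (nat_lit 15) (nat_lit 0) (.cons (.kr (nat_lit 1334420292643450700532337560904531968) (nat_lit 20361637766165935043015771947008) (nat_lit 4) (nat_lit 0)) (.cons (.kr (nat_lit 40564820416229160743998653988865) (nat_lit 2658455991569836468174096994517647360) (nat_lit 0) (nat_lit 1)) .nil))) .nil))),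
 (.br (nat_lit 13) (nat_lit 0) (.cons (.rf (nat_lit 30) (nat_lit 677582165103132179601393696)) (.cons (.br (nat_lit 16) (nat_lit 0) (.cons (.ev (nat_lit 340287579500206606683559127892013089025) (nat_lit 1)) (.cons (.ev (nat_lit 340287559297335854740908717798324240385) (nat_lit 1)) .nil))) .nil))),
 (.br (nat_lit 12) (nat_lit 0) (.cons (.rf (nat_lit 26) (nat_lit 583706118939841765935136)) (.cons (.rf (nat_lit 29) (nat_lit 583706118939841765935136)) (.cons (.br (nat_lit 14) (nat_lit 0) (.cons (.rf (nat_lit 29) (nat_lit 505862796302395407408489)) (.cons (.rf (nat_lit 26) (nat_lit 505862796302395407408489)) (.cons (.kr (nat_lit 10384593718278581076675626128113665) (nat_lit 158456329750895439531726602240) (nat_lit 0) (nat_lit 1)) (.cons (.br (nat_lit 13) (nat_lit 0) (.cons (.rf (nat_lit 30) (nat_lit 677582165103132179601393696)) (.cons (.rf (nat_lit 31) (nat_lit 677582165103132179601393696)) (.cons (.br (nat_lit 13) (nat_lit 0) (.cons (.rf (nat_lit 30) (nat_lit 677582165103132179601393696)) (.cons (.rf (nat_lit 31) (nat_lit 677582165103132179601393696))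 .nil))) .nil)))) .nil))))) .nil)))),
 (.br (nat_lit 13) (nat_lit 0) (.cons (.rf (nat_lit 32) (nat_lit 583670378373198852920355)) (.cons (.rf (nat_lit 32) (nat_lit 547072037039178415871011)) (.cons (.ev (nat_lit 40723895715999699157346158772227) (nat_lit 2)) .nil)))),
 (.br (nat_lit 14) (nat_lit 0) (.cons (.br (nat_lit 15) (nat_lit 0) (.cons (.kr (nat_lit 10384594336039674900032605101490177) (nat_lit 2658455991571045393993711623675576832) (nat_lit 0) (nat_lit 2)) (.cons (.rf (nat_lit 1) (nat_lit 631047566317061346)) .nil))) .nil))]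

theorem c0 : chkAll C T R L0 (nat_lit 0) = true := by decide +kernel

theorem l0 : (nat_lit 0) + L0.length = (nat_lit 35) := by decide +kernel

/-- part of the certificates -/
def L1 : List Prf := [(.br (nat_lit 15) (nat_lit 0) (.cons (.ev (nat_lit 1344865813749589854644586227819413763) (nat_lit 2)) .nil)),
 (.br (nat_lit 12) (nat_lit 0) (.cons (.br (nat_lit 13) (nat_lit 0) (.cons (.ev (nat_lit 121852915160697850973004199231491) (nat_lit 3)) (.cons (.br (nat_lit 14) (nat_lit 0) (.cons (.rf (nat_lit 34) (nat_lit 583706118939841765935136)) (.cons (.br (nat_lit 14) (nat_lit 0) (.cons (.rf (nat_lit 34) (nat_lit 583706118939841765935136)) (.cons (.br (nat_lit 15) (nat_lit 0) (.cons (.rf (nat_lit 35) (nat_lit 677582165103132179601393696)) (.cons (.rf (nat_lit 35) (nat_lit 640105464695078675185502240)) .nil))) .nil))) .nil))) .nil))) .nil)),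
 (.br (nat_lit 15) (nat_lit 0) (.cons (.br (nat_lit 16) (nat_lit 0) (.cons (.zr (nat_lit 1020852313422240146431669952305862606848) (nat_lit 261338187023276527283040974509664496517376) (nat_lit 8) (nat_lit 13)) .nil)) .nil)),
 (.br (nat_lit 13) (nat_lit 0) (.cons (.ev (nat_lit 20521022546242446839850327015682) (nat_lit 2)) (.cons (.br (nat_lit 14) (nat_lit 0) (.cons (.ev (nat_lit 10384752793578351615370444314640387) (nat_lit 2)) (.cons (.ev (nat_lit 10425158537490643822454150751322627) (nat_lit 2)) (.cons (.br (nat_lit 15) (nat_lit 0) (.cons (.rf (nat_lit 37) (nat_lit 677582165103132179601393696)) (.cons (.br (nat_lit 15) (nat_lit 0) (.cons (.rf (nat_lit 37) (nat_lit 677582165103132179601393696)) .nil)) .nil))) .nil)))) .nil))),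
 (.br (nat_lit 12) (nat_lit 0) (.cons (.kr (nat_lit 309485009821345068724781056) (nat_lit 79228162514264337593543950336) (nat_lit 11) (nat_lit 0)) (.cons (.ev (nat_lit 79538856468352042468959584256) (nat_lit 1)) .nil))),
 (.br (nat_lit 11) (nat_lit 0) (.cons (.rf (nat_lit 39) (nat_lit 17022140995484340291616)) (.cons (.rf (nat_lit 39) (nat_lit 15878442862914348091424)) .nil))),
 (.br (nat_lit 11) (nat_lit 0) (.cons (.rf (nat_lit 40) (nat_lit 17022140995484340291616)) (.cons (.br (nat_lit 13) (nat_lit 0) (.cons (.br (nat_lit 14) (nat_lit 0) (.cons (.ev (nat_lit 5212579269347423565314250271358976) (nat_lit 1)) .nil)) (.cons (.kr (nat_lit 20282409603651670423947251286016) (nat_lit 5192296858534827628530496329220096) (nat_lit 13) (nat_lit 0)) .nil))) .nil))),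
 (.br (nat_lit 11) (nat_lit 0) (.cons (.rf (nat_lit 40) (nat_lit 17022140995484340291616)) (.cons (.rf (nat_lit 41) (nat_lit 17022140995484340291616)) (.cons (.rf (nat_lit 41) (nat_lit 15878442862914348091424)) .nil)))),
 (.br (nat_lit 10) (nat_lit 0) (.cons (.br (nat_lit 10) (nat_lit 0) .nil) .nil)),
 (.br (nat_lit 14) (nat_lit 0) (.cons (.br (nat_lit 15) (nat_lit 0) (.cons (.kr (nat_lit 10384594336039674900032605101490177) (nat_lit 2658455991571045393993711623675576832) (nat_lit 0) (nat_lit 2)) (.cons (.rf (nat_lit 43) (nat_lit 631047566515213377)) .nil))) .nil)),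
 (.br (nat_lit 15) (nat_lit 0) (.cons (.ev (nat_lit 1344865813130610390268930351079424259) (nat_lit 2)) .nil)),
 (.br (nat_lit 15) (nat_lit 0) (.cons (.ev (nat_lit 2658496556390252734372444337256530433) (nat_lit 2)) (.cons (.br (nat_lit 16) (nat_lit 0) (.cons (.br (nat_lit 16) (nat_lit 0) .nil) .nil)) .nil))),
 (.br (nat_lit 12) (nat_lit 0) (.cons (.br (nat_lit 12) (nat_lit 0) (.cons (.ev (nat_lit 79538856449905579870226743296) (nat_lit 1)) .nil)) (.cons (.br (nat_lit 12) (nat_lit 0) (.cons (.ev (nat_lit 79538856449905579870226743296) (nat_lit 1)) .nil)) .nil))),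
 (.br (nat_lit 12) (nat_lit 0) (.cons (.br (nat_lit 12) (nat_lit 0) (.cons (.ev (nat_lit 79538856449905579870226743296) (nat_lit 1)) .nil)) (.cons (.br (nat_lit 12) (nat_lit 0) (.cons (.ev (nat_lit 79538856449905579870226743296) (nat_lit 1)) .nil)) .nil))),
 (.br (nat_lit 13) (nat_lit 0) (.cons (.br (nat_lit 14) (nat_lit 0) (.cons (.kr (nat_lit 1334420292643460145265303304489926912) (nat_lit 20361947251194274909376779190272) (nat_lit 1) (nat_lit 0)) (.cons (.br (nat_lit 15) (nat_lit 0) (.cons (.ev (nat_lit 5379503975165757672355991981671186445) (nat_lit 4)) (.cons (.rf (nat_lit 11) (nat_lit 596110584341310498)) .nil))) .nil))) (.cons (.br (nat_lit 14) (nat_lit 0) (.cons (.br (nat_lit 15) (nat_lit 0) (.cons (.ev (nat_lit 2658496557009232198748663155393561091) (nat_lit 2)) (.cons (.rf (nat_lit 15) (nat_lit 631013481453431842)) .nil))) (.cons (.br (nat_lit 15) (nat_lit 0) (.cons (.ev (nat_lit 680564774406697347915314045080232264193) (nat_lit 2)) (.cons (.br (nat_lit 15) (nat_lit 0) (.cons (.ev (nat_lit 680564774406697347915314045080232264193)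 (nat_lit 2)) .nil)) .nil))) (.cons (.rf (nat_lit 48) (nat_lit 20678166659641484973121)) .nil)))) .nil))),
 (.br (nat_lit 11) (nat_lit 0) (.cons (.ev (nat_lit 79538856449905579870226743296) (nat_lit 1)) (.cons (.rf (nat_lit 11) (nat_lit 519438302319875073)) .nil))),
 (.br (nat_lit 14) (nat_lit 0) (.cons (.ev (nat_lit 1334440575054263296541459280071491585) (nat_lit 1)) (.cons (.br (nat_lit 16) (nat_lit 0) (.cons (.ev (nat_lit 341611594995951541850543034664392655105) (nat_lit 1)) (.cons (.kr (nat_lit 10384594336039674900032605101490177) (nat_lit 680564733841878140574935312366651310592) (nat_lit 0) (nat_lit 2)) .nil))) .nil))),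
 (.br (nat_lit 13) (nat_lit 0) (.cons (.rf (nat_lit 49) (nat_lit 583706118939841765935136)) (.cons (.br (nat_lit 14) (nat_lit 0) (.cons (.rf (nat_lit 50) (nat_lit 608109107445492814913)) (.cons (.rf (nat_lit 51) (nat_lit 19926519232773908561233952)) (.cons (.br (nat_lit 14) (nat_lit 0) (.cons (.rf (nat_lit 11) (nat_lit 631011351152795682)) (.cons (.rf (nat_lit 51) (nat_lit 19926519232773908561233952)) .nil))) .nil)))) .nil))),
 (.br (nat_lit 16) (nat_lit 0) (.cons (.ev (nat_lit 341611615199132987728834122976692535553) (nat_lit 1)) (.cons (.ev (nat_lit 341611615199132987728834122976709312768) (nat_lit 1)) (.cons (.ev (nat_lit 341611615199132987728834122976692535296) (nat_lit 1)) (.cons (.ev (nat_lit 174224571904085313714236363835282020106753) (nat_lit 2)) .nil))))),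
 (.br (nat_lit 15) (nat_lit 0) (.cons (.kr (nat_lit 340282366920939672389194222060942917632) (nat_lit 1329227996094400882725152129005125632) (nat_lit 10) (nat_lit 0)) (.cons (.rf (nat_lit 53) (nat_lit 677582165103132179601393696)) .nil))),
 (.br (nat_lit 14) (nat_lit 0) (.cons (.rf (nat_lit 54) (nat_lit 677582165103132179601393696)) (.cons (.rf (nat_lit 54) (nat_lit 640105464695078675185502240)) .nil))),
 (.br (nat_lit 14) (nat_lit 0) (.cons (.rf (nat_lit 55) (nat_lit 677582165103132179601393696)) (.cons (.br (nat_lit 16) (nat_lit 0) (.cons (.br (nat_lit 15) (nat_lit 0) (.cons (.ev (nat_lit 2658496557009232198748663155393561091) (nat_lit 2)) .nil)) (.cons (.kr (nat_lit 340282366920938463463374607431768211456) (nat_lit 87112285931760246646623899502532662132736) (nat_lit 16) (nat_lit 0)) .nil))) .nil))),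
 (.br (nat_lit 12) (nat_lit 0) (.cons (.ev (nat_lit 79228162514264620172344099073) (nat_lit 1)) (.cons (.ev (nat_lit 79538856449905579870243586305) (nat_lit 1)) (.cons (.br (nat_lit 8) (nat_lit 0) (.cons (.br (nat_lit 13) (nat_lit 0) (.cons (.ev (nat_lit 121854153119626602284757679210499) (nat_lit 3)) (.cons (.br (nat_lit 14) (nat_lit 0) (.cons (.rf (nat_lit 44) (nat_lit 583706118939841765935136)) (.cons (.br (nat_lit 14) (nat_lit 0) (.cons (.rf (nat_lit 44) (nat_lit 583706118939841765935136)) (.cons (.br (nat_lit 15) (nat_lit 0) (.cons (.rf (nat_lit 45) (nat_lit 677582165103132179601393696)) (.cons (.rf (nat_lit 45) (nat_lit 640105464695078675185502240)) .nil))) .nil))) .nil))) .nil))) (.cons (.br (nat_lit 13) (nat_lit 0) (.cons (.ev (nat_lit 10384752793578351614807502917599233) (nat_lit 2)) (.cons (.br (nat_lit 13) (nat_lit 0) (.cons (.ev (nat_lit 10384752793578351614807502917599233) (nat_lit 2)) (.cons (.br (nat_lit 14) (nat_lit 0) (.cons (.rf (nat_lit 46) (nat_lit 19926519232773908561233952)) (.cons (.rf (nat_lit 46) (nat_lit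 18755372345022236548237344)) (.cons (.rf (nat_lit 47) (nat_lit 20678166659641484973121)) .nil)))) .nil))) .nil))) (.cons (.br (nat_lit 13) (nat_lit 0) (.cons (.rf (nat_lit 49) (nat_lit 583706118939841765935136)) (.cons (.rf (nat_lit 52) (nat_lit 583706118939841765935136)) (.cons (.br (nat_lit 13) (nat_lit 0) (.cons (.rf (nat_lit 49) (nat_lit 583706118939841765935136)) (.cons (.rf (nat_lit 52) (nat_lit 583706118939841765935136)) (.cons (.br (nat_lit 14) (nat_lit 0) (.cons (.rf (nat_lit 55) (nat_lit 677582165103132179601393696)) (.cons (.rf (nat_lit 56) (nat_lit 677582165103132179601393696)) (.cons (.rf (nat_lit 56) (nat_lit 640105464695078675185502240)) .nil)))) .nil)))) .nil)))) .nil)))) .nil)))),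
 (.br (nat_lit 10) (nat_lit 0) (.cons (.br (nat_lit 10) (nat_lit 0) .nil) .nil)),
 (.br (nat_lit 14) (nat_lit 0) (.cons (.br (nat_lit 15) (nat_lit 0) (.cons (.kr (nat_lit 2658455991571040671627510224728883201) (nat_lit 10384593717074377623543866598621696) (nat_lit 0) (nat_lit 2)) (.cons (.rf (nat_lit 58) (nat_lit 631047566515213377)) .nil))) .nil)),
 (.br (nat_lit 15) (nat_lit 0) (.cons (.ev (nat_lit 1344825407386698098061283686065832705) (nat_lit 2)) .nil)),
 (.br (nat_lit 15) (nat_lit 0) (.cons (.br (nat_lit 16) (nat_lit 0) (.cons (.zr (nat_lit 1020852313421311691402205917099688264448) (nat_lit 261338187023276834340754424222676978499586) (nat_lit 8) (nat_lit 12)) .nil)) .nil)),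
 (.br (nat_lit 12) (nat_lit 0) (.cons (.ev (nat_lit 20520716697454816741467019739392) (nat_lit 2)) (.cons (.br (nat_lit 14) (nat_lit 0) (.cons (.ev (nat_lit 10425158537490643822454150751322627) (nat_lit 2)) (.cons (.ev (nat_lit 10384752174617776705083104758464513) (nat_lit 2)) (.cons (.br (nat_lit 15) (nat_lit 0) (.cons (.rf (nat_lit 61) (nat_lit 677582165103132179601393696)) (.cons (.br (nat_lit 15) (nat_lit 0) (.cons (.rf (nat_lit 61) (nat_lit 677582165103132179601393696)) .nil)) .nil))) .nil)))) .nil))),
 (.br (nat_lit 14) (nat_lit 0) (.cons (.br (nat_lit 16) (nat_lit 0) (.cons (.zr (nat_lit 1344825248003122243521421374021238784) (nat_lit 261677140162202606867809270115983809315072) (nat_lit 8) (nat_lit 8)) .nil)) .nil)),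
 (.br (nat_lit 12) (nat_lit 0) (.cons (.ev (nat_lit 20520716697454816741467019739392) (nat_lit 2)) (.cons (.br (nat_lit 15) (nat_lit 0) (.cons (.ev (nat_lit 2658496557009232198748100213996519937) (nat_lit 2)) (.cons (.ev (nat_lit 2658456150646340442165923572216889347) (nat_lit 2)) (.cons (.br (nat_lit 14) (nat_lit 0) (.cons (.rf (nat_lit 63) (nat_lit 677582165103132179601393696)) (.cons (.br (nat_lit 14) (nat_lit 0) (.cons (.rf (nat_lit 63) (nat_lit 677582165103132179601393696)) .nil)) .nil))) .nil)))) .nil))),
 (.br (nat_lit 14) (nat_lit 0) (.cons (.kr (nat_lit 5192296858539549995013365974433792) (nat_lit 20282410812577490038576425992192) (nat_lit 9) (nat_lit 0)) (.cons (.ev (nat_lit 5212579578837137306398110636900608) (nat_lit 1)) .nil))),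
 (.br (nat_lit 13) (nat_lit 0) (.cons (.rf (nat_lit 65) (nat_lit 19926519232773908561233952)) (.cons (.rf (nat_lit 65) (nat_lit 18755372345022236548237344)) .nil))),
 (.br (nat_lit 13) (nat_lit 0) (.cons (.br (nat_lit 12) (nat_lit 0) (.cons (.ev (nat_lit 79538856468352042468959584256) (nat_lit 1)) .nil)) (.cons (.kr (nat_lit 20282409603651670423947251286016) (nat_lit 5192296858534827628530496329220096) (nat_lit 13) (nat_lit 0)) .nil))),
 (.br (nat_lit 14) (nat_lit 0) (.cons (.rf (nat_lit 66) (nat_lit 21174442659472880577906720)) (.cons (.rf (nat_lit 67) (nat_lit 20678166659641484973121)) .nil))),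
 (.br (nat_lit 8) (nat_lit 0) (.cons (.rf (nat_lit 57) (nat_lit 493857213659895400480)) (.cons (.ev (nat_lit 20282719088680010570683723546624) (nat_lit 1)) (.cons (.br (nat_lit 13) (nat_lit 0) (.cons (.br (nat_lit 12) (nat_lit 0) (.cons (.ev (nat_lit 41042046334467278955922403491845) (nat_lit 3)) (.cons (.br (nat_lit 14) (nat_lit 0) (.cons (.rf (nat_lit 59) (nat_lit 583706118939841765935136)) (.cons (.br (nat_lit 14) (nat_lit 0) (.cons (.rf (nat_lit 59) (nat_lit 583706118939841765935136)) (.cons (.br (nat_lit 15) (nat_lit 0) (.cons (.rf (nat_lit 60) (nat_lit 677582165103132179601393696)) (.cons (.rf (nat_lit 60) (nat_lit 640105464695078675185502240)) .nil))) .nil))) .nil))) .nil))) (.cons (.ev (nat_lit 20282410812596008840244173471744) (nat_lit 1)) (.cons (.br (nat_lit 12) (nat_lit 0) (.cons (.rf (nat_lit 62) (nat_lit 583706118939841765935136)) (.cons (.rf (nat_lit 64) (nat_lit 583706118939841765935136)) (.cons (.br (nat_lit 12) (nat_lit 0) (.cons (.rf (nat_lit 62) (nat_lit 583706118939841765935136)) (.cons (.rf (nat_lit 64)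 (nat_lit 583706118939841765935136)) (.cons (.br (nat_lit 14) (nat_lit 0) (.cons (.rf (nat_lit 66) (nat_lit 21174442659472880577906720)) (.cons (.rf (nat_lit 68) (nat_lit 677582165103132179601393696)) (.cons (.rf (nat_lit 68) (nat_lit 640105464695078675185502240)) .nil)))) .nil)))) .nil)))) .nil)))) .nil))))]

theorem c1 : chkAll C T R L1 (nat_lit 35) = true := by decide +kernel

theorem l1 : (nat_lit 35) + L1.length = (nat_lit 70) := by decide +kernel

/-- part of the certificates -/
def L2 : List Prf := [(.br (nat_lit 10) (nat_lit 0) (.cons (.br (nat_lit 10) (nat_lit 0) .nil) .nil)),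
 (.br (nat_lit 12) (nat_lit 0) (.cons (.ev (nat_lit 79538856468352042468959584256) (nat_lit 1)) (.cons (.rf (nat_lit 11) (nat_lit 519473385760260225)) .nil))),
 (.br (nat_lit 15) (nat_lit 0) (.cons (.br (nat_lit 16) (nat_lit 0) (.cons (.zr (nat_lit 1020852313422240146431669952305862606848) (nat_lit 261338187023276527283040974509664496517376) (nat_lit 8) (nat_lit 13)) .nil)) .nil)),
 (.br (nat_lit 12) (nat_lit 0) (.cons (.ev (nat_lit 10384752793578351614807502917599233) (nat_lit 2)) (.cons (.br (nat_lit 13) (nat_lit 0) (.cons (.ev (nat_lit 10425158537490643822454150751322627) (nat_lit 2)) (.cons (.br (nat_lit 14) (nat_lit 0) (.cons (.kr (nat_lit 1334420292952935710353682633924280576) (nat_lit 20361637766184453564308054409216) (nat_lit 1) (nat_lit 0)) (.cons (.br (nat_lit 15) (nat_lit 0) (.cons (.ev (nat_lit 15971789565957769901784754180797628429) (nat_lit 4)) (.cons (.rf (nat_lit 70) (nat_lit 631047566515213377)) .nil))) .nil))) (.cons (.br (nat_lit 14) (nat_lit 0) (.cons (.rf (nat_lit 71) (nat_lit 608109107445492814913)) (.cons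 (.br (nat_lit 16) (nat_lit 0) (.cons (.ev (nat_lit 340287559297026374453453574119972995328) (nat_lit 1)) (.cons (.rf (nat_lit 11) (nat_lit 629954653896060130)) .nil))) (.cons (.br (nat_lit 15) (nat_lit 0) (.cons (.rf (nat_lit 72) (nat_lit 677582165103132179601393696)) (.cons (.br (nat_lit 15) (nat_lit 0) (.cons (.rf (nat_lit 72) (nat_lit 677582165103132179601393696)) .nil)) .nil))) .nil)))) .nil)))) .nil))),
 (.br (nat_lit 13) (nat_lit 0) (.cons (.br (nat_lit 15) (nat_lit 0) (.cons (.ev (nat_lit 2658496556390252734372444337256530433) (nat_lit 2)) (.cons (.rf (nat_lit 58) (nat_lit 631046501265806401)) .nil))) .nil)),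
 (.br (nat_lit 15) (nat_lit 0) (.cons (.zr (nat_lit 61084913298553360692924163227904) (nat_lit 3992876285141737475804549850511441922) (nat_lit 8) (nat_lit 14)) .nil)),
 (.br (nat_lit 12) (nat_lit 0) (.cons (.ev (nat_lit 10384752793578351614807502917599233) (nat_lit 2)) (.cons (.br (nat_lit 13) (nat_lit 0) (.cons (.rf (nat_lit 74) (nat_lit 583706118939841765935136)) (.cons (.br (nat_lit 13) (nat_lit 0) (.cons (.rf (nat_lit 74) (nat_lit 583706118939841765935136)) (.cons (.br (nat_lit 15) (nat_lit 0) (.cons (.rf (nat_lit 75) (nat_lit 677582165103132179601393696)) (.cons (.rf (nat_lit 75) (nat_lit 640105464695078675185502240)) .nil))) .nil))) .nil))) .nil))),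
 (.br (nat_lit 15) (nat_lit 0) (.cons (.ev (nat_lit 2658456150646340442165923572216889347) (nat_lit 2)) (.cons (.rf (nat_lit 58) (nat_lit 631045402817434699)) .nil))),
 (.br (nat_lit 13) (nat_lit 0) (.cons (.rf (nat_lit 77) (nat_lit 19926519232773908561233952)) (.cons (.rf (nat_lit 77) (nat_lit 18755372345022236548237344)) (.cons (.br (nat_lit 15) (nat_lit 0) (.cons (.br (nat_lit 15) (nat_lit 0) (.cons (.zr (nat_lit 122169826597106721385848326455296) (nat_lit 7985752569665718580152225591694721027) (nat_lit 16) (nat_lit 14)) .nil)) (.cons (.br (nat_lit 15) (nat_lit 0) (.cons (.zr (nat_lit 122169826597106721385848326455296) (nat_lit 7985752569665718580152225591694721027) (nat_lit 16) (nat_lit 14)) .nil)) .nil))) .nil)))),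
 (.br (nat_lit 15) (nat_lit 0) (.cons (.kr (nat_lit 2658455991571045393993993094374096897) (nat_lit 10384594336039674899751134402970112) (nat_lit 0) (nat_lit 2)) (.cons (.ev (nat_lit 2658456150646340442165923572216889347) (nat_lit 2)) (.cons (.br (nat_lit 13) (nat_lit 0) (.cons (.rf (nat_lit 58) (nat_lit 631045402817434699)) (.cons (.br (nat_lit 14) (nat_lit 0) (.cons (.kr (nat_lit 680564733841878140574935593837349830657) (nat_lit 10384594336039674899751134402970112) (nat_lit 0) (nat_lit 2)) (.cons (.rf (nat_lit 67) (nat_lit 19462952487587100791873)) .nil))) (.cons (.ev (nat_lit 2658496556390252734372444337256530433) (nat_lit 2)) .nil)))) .nil)))),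
 (.br (nat_lit 12) (nat_lit 0) (.cons (.ev (nat_lit 79538856468352042468959584256) (nat_lit 1)) .nil)),
 (.br (nat_lit 12) (nat_lit 0) (.cons (.rf (nat_lit 80) (nat_lit 17022140995484340291616)) (.cons (.rf (nat_lit 80) (nat_lit 15878407955481754830880)) .nil))),
 (.br (nat_lit 13) (nat_lit 0) (.cons (.ev (nat_lit 10384752174617776705646046155505667) (nat_lit 2)) (.cons (.br (nat_lit 14) (nat_lit 0) (.cons (.kr (nat_lit 1334420292952935710353682633924280576) (nat_lit 20361637766184453564308054409216) (nat_lit 1) (nat_lit 0)) (.cons (.br (nat_lit 15) (nat_lit 0) (.cons (.ev (nat_lit 5379503977022639397085165176148590605) (nat_lit 4)) (.cons (.rf (nat_lit 20) (nat_lit 631046501162130466)) .nil))) .nil))) (.cons (.br (nat_lit 14) (nat_lit 0) (.cons (.br (nat_lit 15) (nat_lit 0) (.cons (.ev (nat_lit 2658496557009232198748663155393561091) (nat_lit 2)) (.cons (.rf (nat_lit 20) (nat_lit 631047566313892898)) .nil))) (.cons (.br (nat_lit 15) (nat_lit 0) (.cons (.ev (nat_lit 680564774406697347915314045080232264193) (nat_lit 2)) (.cons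 (.br (nat_lit 15) (nat_lit 0) (.cons (.ev (nat_lit 680564774406697347915314045080232264193) (nat_lit 2)) .nil)) .nil))) (.cons (.rf (nat_lit 81) (nat_lit 20678166659641484973121)) .nil)))) .nil)))),
 (.br (nat_lit 12) (nat_lit 0) (.cons (.ev (nat_lit 20282720297587383442342995296256) (nat_lit 1)) (.cons (.br (nat_lit 12) (nat_lit 0) (.cons (.ev (nat_lit 20282720297587383442342995296256) (nat_lit 1)) .nil)) .nil))),
 (.br (nat_lit 15) (nat_lit 0) (.cons (.br (nat_lit 16) (nat_lit 0) (.cons (.zr (nat_lit 3992896645855884334071974501923487744) (nat_lit 261677140162202606867809270115983809315072) (nat_lit 8) (nat_lit 8)) .nil)) .nil)),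
 (.br (nat_lit 14) (nat_lit 0) (.cons (.br (nat_lit 15) (nat_lit 0) (.cons (.ev (nat_lit 1334420371872826862982773748485128448) (nat_lit 1)) (.cons (.rf (nat_lit 20) (nat_lit 631047533027886434)) .nil))) (.cons (.rf (nat_lit 83) (nat_lit 608109107445492814913)) (.cons (.br (nat_lit 15) (nat_lit 0) (.cons (.rf (nat_lit 84) (nat_lit 677582165103132179601393696)) (.cons (.br (nat_lit 15) (nat_lit 0) (.cons (.rf (nat_lit 84) (nat_lit 677582165103132179601393696)) .nil)) .nil))) .nil)))),
 (.br (nat_lit 14) (nat_lit 0) (.cons (.ev (nat_lit 10425159156470108197547086094270977) (nat_lit 2)) (.cons (.br (nat_lit 15) (nat_lit 0) (.cons (.ev (nat_lit 2658496557009232198748663155393561091) (nat_lit 2)) (.cons (.kr (nat_lit 1329227995784920595270289929925558272) (nat_lit 5192296859743753448145125503926272) (nat_lit 9) (nat_lit 0)) .nil))) .nil))),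
 (.br (nat_lit 9) (nat_lit 0) (.cons (.br (nat_lit 9) (nat_lit 0) .nil) .nil)),
 (.br (nat_lit 14) (nat_lit 0) (.cons (.br (nat_lit 15) (nat_lit 0) (.cons (.kr (nat_lit 1329227995784920595270289929925558272) (nat_lit 5192296859743753448145125503926272) (nat_lit 9) (nat_lit 0)) (.cons (.ev (nat_lit 2658496557009232198748663155393561091) (nat_lit 2)) .nil))) (.cons (.ev (nat_lit 10425159156470108197547086094270977) (nat_lit 2)) .nil))),
 (.br (nat_lit 14) (nat_lit 0) (.cons (.rf (nat_lit 88) (nat_lit 677582165103132179601393696)) (.cons (.br (nat_lit 17) (nat_lit 0) (.cons (.ev (nat_lit 174224571904085313714236363835282020106753) (nat_lit 2)) (.cons (.kr (nat_lit 87112285931760246651346265985402307346432) (nat_lit 5192297168019837449875565054001152) (nat_lit 9) (nat_lit 0)) .nil))) .nil))),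
 (.br (nat_lit 12) (nat_lit 0) (.cons (.rf (nat_lit 82) (nat_lit 583706118939841765935136)) (.cons (.rf (nat_lit 82) (nat_lit 547107777605821328885792)) (.cons (.br (nat_lit 13) (nat_lit 0) (.cons (.rf (nat_lit 85) (nat_lit 19926519232773908561233952)) (.cons (.rf (nat_lit 85) (nat_lit 19889920891439888124184608)) (.cons (.br (nat_lit 14) (nat_lit 0) (.cons (.rf (nat_lit 86) (nat_lit 19926519232773908561233952)) (.cons (.br (nat_lit 14) (nat_lit 0) (.cons (.ev (nat_lit 10425159156470108197547086094270977) (nat_lit 2)) (.cons (.rf (nat_lit 87) (nat_lit 631047566515213377)) .nil))) (.cons (.br (nat_lit 14) (nat_lit 0) (.cons (.rf (nat_lit 86) (nat_lit 19926519232773908561233952)) (.cons (.rf (nat_lit 87) (nat_lit 631047566515213377)) .nil))) .nil)))) (.cons (.br (nat_lit 14) (nat_lit 0) (.cons (.rf (nat_lit 88) (nat_lit 677582165103132179601393696)) (.cons (.rf (nat_lit 89) (nat_lit 677582165103132179601393696)) (.cons (.br (nat_lit 14) (nat_lit 0) (.cons (.ev (nat_lit 10425159156470108197547086094270977) (nat_lit 2)) (.cons (.rf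 (nat_lit 89) (nat_lit 677582165103132179601393696)) .nil))) .nil)))) .nil))))) .nil)))),
 (.br (nat_lit 13) (nat_lit 0) (.cons (.ev (nat_lit 20282720302328196668182543466496) (nat_lit 1)) (.cons (.br (nat_lit 15) (nat_lit 0) (.cons (.ev (nat_lit 2658496557009232198748663155393561091) (nat_lit 2)) (.cons (.rf (nat_lit 20) (nat_lit 596074369180213282)) .nil))) .nil))),
 (.br (nat_lit 13) (nat_lit 0) (.cons (.kr (nat_lit 10384594337248600719647234276196353) (nat_lit 2658455991569845912907062733791298048) (nat_lit 0) (nat_lit 2)) (.cons (.br (nat_lit 16) (nat_lit 0) (.cons (.ev (nat_lit 340287559297335854740908717798341017857) (nat_lit 1)) (.cons (.ev (nat_lit 340287579500206606683559127892029865985) (nat_lit 1)) .nil))) .nil))),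
 (.br (nat_lit 13) (nat_lit 0) (.cons (.br (nat_lit 16) (nat_lit 0) (.cons (.kr (nat_lit 680564733841878135852569110967704616961) (nat_lit 2658455991569836468174096994500870656) (nat_lit 0) (nat_lit 2)) (.cons (.ev (nat_lit 340287579500206606683559127892029865985) (nat_lit 1)) .nil))) (.cons (.ev (nat_lit 10425159156470108197547086094270977) (nat_lit 2)) .nil))),
 (.br (nat_lit 13) (nat_lit 0) (.cons (.rf (nat_lit 93) (nat_lit 677582165103132179601393696)) (.cons (.br (nat_lit 16) (nat_lit 0) (.cons (.ev (nat_lit 340287579500206606683559127892029865985) (nat_lit 1)) (.cons (.ev (nat_lit 340287559297335854740908717798341017857) (nat_lit 1)) .nil))) .nil))),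
 (.br (nat_lit 12) (nat_lit 0) (.cons (.rf (nat_lit 90) (nat_lit 583706118939841765935136)) (.cons (.br (nat_lit 14) (nat_lit 0) (.cons (.rf (nat_lit 91) (nat_lit 583706118939841765935136)) (.cons (.ev (nat_lit 10384752174617776705646046155505667) (nat_lit 2)) (.cons (.br (nat_lit 15) (nat_lit 0) (.cons (.rf (nat_lit 91) (nat_lit 547107777605821328885792)) (.cons (.ev (nat_lit 1334420371872826862982773748485128448) (nat_lit 1)) (.cons (.rf (nat_lit 81) (nat_lit 19532164932560437417025)) .nil)))) .nil)))) (.cons (.br (nat_lit 14) (nat_lit 0) (.cons (.br (nat_lit 13) (nat_lit 0) (.cons (.ev (nat_lit 20282720302328196668182543466496) (nat_lit 1)) (.cons (.br (nat_lit 15) (nat_lit 0) (.cons (.ev (nat_lit 680564774406697347915314045080232264193) (nat_lit 2)) (.cons (.br (nat_lit 15) (nat_lit 0) (.cons (.ev (nat_lit 680564774406697347915314045080232264193) (nat_lit 2)) .nil)) .nil))) (.cons (.br (nat_lit 15) (nat_lit 0) (.cons (.br (nat_lit 15) (nat_lit 0) (.cons (.zr (nat_lit 2689609772721083212877987354618363907) (nat_lit 40724517099185651352778532062208)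 (nat_lit 16) (nat_lit 7)) .nil)) (.cons (.br (nat_lit 15) (nat_lit 0) (.cons (.zr (nat_lit 2689609772721083212877987354618363907) (nat_lit 40724517099185651352778532062208) (nat_lit 16) (nat_lit 7)) .nil)) .nil))) .nil)))) (.cons (.br (nat_lit 13) (nat_lit 0) (.cons (.kr (nat_lit 10384594337248600719647234276196353) (nat_lit 2658455991569845912907062733791298048) (nat_lit 0) (nat_lit 2)) (.cons (.rf (nat_lit 92) (nat_lit 19926519232773908561233952)) (.cons (.br (nat_lit 13) (nat_lit 0) (.cons (.kr (nat_lit 10384594337248600719647234276196353) (nat_lit 2658455991569845912907062733791298048) (nat_lit 0) (nat_lit 2)) (.cons (.rf (nat_lit 92) (nat_lit 19926519232773908561233952)) .nil))) .nil)))) (.cons (.ev (nat_lit 10384752174617776705646046155505667) (nat_lit 2)) (.cons (.br (nat_lit 13) (nat_lit 0) (.cons (.rf (nat_lit 93) (nat_lit 677582165103132179601393696)) (.cons (.rf (nat_lit 94) (nat_lit 677582165103132179601393696)) (.cons (.br (nat_lit 13) (nat_lit 0) (.cons (.ev (nat_lit 10425159156470108197547086094270977) (nat_lit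 2)) (.cons (.rf (nat_lit 94) (nat_lit 677582165103132179601393696)) .nil))) .nil)))) .nil))))) .nil)))),
 (.br (nat_lit 16) (nat_lit 0) (.cons (.kr (nat_lit 680564733841876931649115979208175124481) (nat_lit 10384593718278581076675626128114176) (nat_lit 0) (nat_lit 2)) (.cons (.ev (nat_lit 680564774406697347915314045080232264193) (nat_lit 2)) (.cons (.ev (nat_lit 680564734000953435623107524315192623107) (nat_lit 2)) .nil)))),
 (.br (nat_lit 13) (nat_lit 0) (.cons (.ev (nat_lit 20282720302328196668182543466496) (nat_lit 1)) (.cons (.rf (nat_lit 96) (nat_lit 677582165103132179601393696)) (.cons (.rf (nat_lit 96) (nat_lit 640105464695078675185502240)) .nil)))),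
 (.br (nat_lit 17) (nat_lit 0) (.cons (.ev (nat_lit 87452568298760413272601538448657485988096) (nat_lit 1)) (.cons (.ev (nat_lit 87452568318963905412415470778146973810688) (nat_lit 1)) .nil))),
 (.br (nat_lit 13) (nat_lit 0) (.cons (.rf (nat_lit 97) (nat_lit 677582165103132179601393696)) (.cons (.rf (nat_lit 97) (nat_lit 677545566761798159164344352)) (.cons (.br (nat_lit 16) (nat_lit 0) (.cons (.rf (nat_lit 98) (nat_lit 677582165103132179601393696)) (.cons (.rf (nat_lit 98) (nat_lit 677545566761798159164344352)) (.cons (.ev (nat_lit 680564734000953435623107524315192623107) (nat_lit 2)) .nil)))) .nil)))),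
 (.br (nat_lit 7) (nat_lit 0) (.cons (.br (nat_lit 12) (nat_lit 0) (.cons (.rf (nat_lit 36) (nat_lit 493858305440582043680)) (.cons (.br (nat_lit 12) (nat_lit 0) (.cons (.rf (nat_lit 36) (nat_lit 493858305440582043680)) (.cons (.br (nat_lit 13) (nat_lit 0) (.cons (.rf (nat_lit 38) (nat_lit 583706118939841765935136)) (.cons (.rf (nat_lit 38) (nat_lit 547107778697602015528992)) (.cons (.br (nat_lit 13) (nat_lit 0) (.cons (.rf (nat_lit 38) (nat_lit 583706118939841765935136)) (.cons (.rf (nat_lit 38) (nat_lit 547107778697602015528992)) (.cons (.rf (nat_lit 42) (nat_lit 18245573240554136936683)) .nil)))) .nil)))) .nil))) .nil))) (.cons (.rf (nat_lit 57) (nat_lit 493858305440582043680)) (.cons (.rf (nat_lit 69) (nat_lit 493858305440582043680)) (.cons (.br (nat_lit 8) (nat_lit 0) (.cons (.rf (nat_lit 57) (nat_lit 493857213659895400480)) (.cons (.rf (nat_lit 69) (nat_lit 493857213659895400480)) (.cons (.br (nat_lit 12) (nat_lit 0) (.cons (.rf (nat_lit 73) (nat_lit 17022140995484340291616)) (.cons (.rf (nat_lit 76) (nat_lit 17022140995484340291616))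 (.cons (.br (nat_lit 12) (nat_lit 0) (.cons (.rf (nat_lit 73) (nat_lit 17022140995484340291616)) (.cons (.rf (nat_lit 76) (nat_lit 17022140995484340291616)) (.cons (.br (nat_lit 13) (nat_lit 0) (.cons (.rf (nat_lit 78) (nat_lit 19926519232773908561233952)) (.cons (.rf (nat_lit 79) (nat_lit 19926519232773908561233952)) (.cons (.rf (nat_lit 79) (nat_lit 18755372345022236548237344)) (.cons (.br (nat_lit 13) (nat_lit 0) (.cons (.rf (nat_lit 78) (nat_lit 19926519232773908561233952)) (.cons (.rf (nat_lit 79) (nat_lit 19926519232773908561233952)) (.cons (.rf (nat_lit 79) (nat_lit 18755372345022236548237344)) .nil)))) .nil))))) .nil)))) .nil)))) (.cons (.br (nat_lit 12) (nat_lit 0) (.cons (.rf (nat_lit 90) (nat_lit 583706118939841765935136)) (.cons (.rf (nat_lit 95) (nat_lit 583706118939841765935136)) (.cons (.rf (nat_lit 95) (nat_lit 547107777605821328885792)) (.cons (.br (nat_lit 12) (nat_lit 0) (.cons (.rf (nat_lit 90) (nat_lit 583706118939841765935136)) (.cons (.rf (nat_lit 95) (nat_lit 583706118939841765935136)) (.cons (.rf (nat_lit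 95) (nat_lit 547107777605821328885792)) (.cons (.br (nat_lit 13) (nat_lit 0) (.cons (.rf (nat_lit 97) (nat_lit 677582165103132179601393696)) (.cons (.rf (nat_lit 97) (nat_lit 677545566761798159164344352)) (.cons (.rf (nat_lit 99) (nat_lit 677582165103132179601393696)) (.cons (.rf (nat_lit 99) (nat_lit 640105464695078675185502240)) .nil))))) .nil))))) .nil))))) .nil))))) .nil)))))]

theorem c2 : chkAll C T R L2 (nat_lit 70) = true := by decide +kernel

theorem l2 : (nat_lit 70) + L2.length = (nat_lit 101) := by decide +kernel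

/-- part of the certificates -/
def L3 : List Prf := [(.br (nat_lit 14) (nat_lit 0) (.cons (.br (nat_lit 15) (nat_lit 0) (.cons (.kr (nat_lit 10384594336039674900032605101490177) (nat_lit 2658455991571045393993711623675576832) (nat_lit 0) (nat_lit 2)) (.cons (.rf (nat_lit 1) (nat_lit 631047566384170146)) .nil))) .nil)),
 (.br (nat_lit 15) (nat_lit 0) (.cons (.ev (nat_lit 1344865813749589854644023269276057859) (nat_lit 2)) .nil)),
 (.br (nat_lit 12) (nat_lit 0) (.cons (.br (nat_lit 13) (nat_lit 0) (.cons (.ev (nat_lit 121852915160697852098921285943299) (nat_lit 3)) (.cons (.br (nat_lit 14) (nat_lit 0) (.cons (.rf (nat_lit 101) (nat_lit 583706118939841765935136)) (.cons (.br (nat_lit 14) (nat_lit 0) (.cons (.rf (nat_lit 101) (nat_lit 583706118939841765935136)) (.cons (.br (nat_lit 15) (nat_lit 0) (.cons (.rf (nat_lit 102) (nat_lit 677582165103132179601393696)) (.cons (.rf (nat_lit 102) (nat_lit 640105464695078675185502240)) .nil))) .nil))) .nil))) .nil))) .nil)),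
 (.br (nat_lit 15) (nat_lit 0) (.cons (.br (nat_lit 16) (nat_lit 0) (.cons (.zr (nat_lit 5327337300133479163965515353003526144) (nat_lit 522673715590562717819782683802845839360005) (nat_lit 16) (nat_lit 12)) .nil)) .nil)),
 (.br (nat_lit 13) (nat_lit 0) (.cons (.ev (nat_lit 20521022546242446276908963528962) (nat_lit 2)) (.cons (.br (nat_lit 14) (nat_lit 0) (.cons (.ev (nat_lit 10384752793578351614807502951153667) (nat_lit 2)) (.cons (.ev (nat_lit 10425158537490643821891209387835907) (nat_lit 2)) (.cons (.br (nat_lit 15) (nat_lit 0) (.cons (.rf (nat_lit 104) (nat_lit 677582165103132179601393696)) (.cons (.br (nat_lit 15) (nat_lit 0) (.cons (.rf (nat_lit 104) (nat_lit 677582165103132179601393696)) .nil)) .nil))) .nil)))) .nil))),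
 (.br (nat_lit 14) (nat_lit 0) (.cons (.kr (nat_lit 20282409603651670423947251286016) (nat_lit 5192296858534827628530496329220096) (nat_lit 13) (nat_lit 0)) (.cons (.ev (nat_lit 5212658497514660268472678685343745) (nat_lit 1)) .nil))),
 (.br (nat_lit 13) (nat_lit 0) (.cons (.rf (nat_lit 106) (nat_lit 19926519232773908561233952)) (.cons (.rf (nat_lit 106) (nat_lit 18755372345022236548237344)) .nil))),
 (.br (nat_lit 13) (nat_lit 0) (.cons (.rf (nat_lit 107) (nat_lit 19926519232773908561233952)) (.cons (.br (nat_lit 15) (nat_lit 0) (.cons (.br (nat_lit 16) (nat_lit 0) (.cons (.ev (nat_lit 341611594995952755517247932727153393665) (nat_lit 1)) .nil)) (.cons (.kr (nat_lit 1329227995784915872903807060280344576) (nat_lit 340282366920938463463374607431768211456) (nat_lit 15) (nat_lit 0)) .nil))) .nil))),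
 (.br (nat_lit 14) (nat_lit 0) (.cons (.br (nat_lit 15) (nat_lit 0) (.cons (.kr (nat_lit 10384594336039674900032605101490177) (nat_lit 2658455991571045393993711623675576832) (nat_lit 0) (nat_lit 2)) (.cons (.rf (nat_lit 43) (nat_lit 631047566515149889)) .nil))) .nil)),
 (.br (nat_lit 15) (nat_lit 0) (.cons (.ev (nat_lit 1344865813130610390268930351079424769) (nat_lit 2)) .nil)),
 (.br (nat_lit 15) (nat_lit 0) (.cons (.ev (nat_lit 2658496556390252734372444337256529923) (nat_lit 2)) (.cons (.rf (nat_lit 58) (nat_lit 631046434592955464)) .nil))),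
 (.br (nat_lit 14) (nat_lit 0) (.cons (.br (nat_lit 14) (nat_lit 0) (.cons (.ev (nat_lit 5212658496301012082375179848646913) (nat_lit 1)) .nil)) (.cons (.br (nat_lit 14) (nat_lit 0) (.cons (.ev (nat_lit 5212658496301012082375179848646913) (nat_lit 1)) .nil)) .nil))),
 (.br (nat_lit 13) (nat_lit 0) (.cons (.br (nat_lit 14) (nat_lit 0) (.cons (.kr (nat_lit 1334420292643460145265303304489926912) (nat_lit 20361947251194274909376779190272) (nat_lit 1) (nat_lit 0)) (.cons (.br (nat_lit 15) (nat_lit 0) (.cons (.ev (nat_lit 5379503975165757672355991981671188485) (nat_lit 4)) (.cons (.rf (nat_lit 11) (nat_lit 596110584408353826)) .nil))) .nil))) (.cons (.br (nat_lit 14) (nat_lit 0) (.cons (.br (nat_lit 15) (nat_lit 0) (.cons (.ev (nat_lit 2658496557009232198748663155393560577) (nat_lit 2)) (.cons (.rf (nat_lit 15) (nat_lit 631013481520475170)) .nil))) (.cons (.br (nat_lit 15) (nat_lit 0) (.cons (.ev (nat_lit 680564774406697347915314045080232263683) (nat_lit 2)) (.cons (.br (nat_lit 15) (nat_lit 0) (.cons (.ev (nat_lit 680564774406697347915314045080232263683)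 (nat_lit 2)) .nil)) .nil))) (.cons (.rf (nat_lit 112) (nat_lit 21174442659472880612509728)) .nil)))) .nil))),
 (.br (nat_lit 14) (nat_lit 0) (.cons (.ev (nat_lit 1334440575054263296541459280071491840) (nat_lit 1)) (.cons (.br (nat_lit 16) (nat_lit 0) (.cons (.ev (nat_lit 341611594995951541850543034664392654848) (nat_lit 1)) (.cons (.kr (nat_lit 10384594336039674900032605101490177) (nat_lit 680564733841878140574935312366651310592) (nat_lit 0) (nat_lit 2)) .nil))) .nil))),
 (.br (nat_lit 13) (nat_lit 0) (.cons (.rf (nat_lit 113) (nat_lit 583706118939841765935136)) (.cons (.br (nat_lit 14) (nat_lit 0) (.cons (.br (nat_lit 14) (nat_lit 0) (.cons (.ev (nat_lit 1334440575054263296541459280071491840) (nat_lit 1)) (.cons (.rf (nat_lit 11) (nat_lit 631011351219839010)) .nil))) (.cons (.rf (nat_lit 114) (nat_lit 19926519232773908561233952)) (.cons (.br (nat_lit 14) (nat_lit 0) (.cons (.rf (nat_lit 11) (nat_lit 631011351219839010)) (.cons (.rf (nat_lit 114) (nat_lit 19926519232773908561233952)) .nil))) .nil)))) .nil))),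
 (.br (nat_lit 15) (nat_lit 0) (.cons (.kr (nat_lit 340282366920939672389194222060942917632) (nat_lit 1329227996094400882725152129005125632) (nat_lit 10) (nat_lit 0)) (.cons (.br (nat_lit 16) (nat_lit 0) (.cons (.ev (nat_lit 683233574586240337024171636487014711811) (nat_lit 2)) .nil)) .nil))),
 (.br (nat_lit 14) (nat_lit 0) (.cons (.rf (nat_lit 116) (nat_lit 677582165103132179601393696)) (.cons (.rf (nat_lit 116) (nat_lit 640105464695078675185502240)) .nil))),
 (.br (nat_lit 14) (nat_lit 0) (.cons (.rf (nat_lit 117) (nat_lit 677582165103132179601393696)) (.cons (.br (nat_lit 16) (nat_lit 0) (.cons (.br (nat_lit 15) (nat_lit 0) (.cons (.ev (nat_lit 2658496557009232198748663155393560577) (nat_lit 2)) .nil)) (.cons (.kr (nat_lit 340282366920938463463374607431768211456) (nat_lit 87112285931760246646623899502532662132736) (nat_lit 16) (nat_lit 0)) .nil))) .nil))),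
 (.br (nat_lit 12) (nat_lit 0) (.cons (.ev (nat_lit 79228162514264620172344098816) (nat_lit 1)) (.cons (.ev (nat_lit 79538856449905579870243586048) (nat_lit 1)) (.cons (.br (nat_lit 8) (nat_lit 0) (.cons (.br (nat_lit 13) (nat_lit 0) (.cons (.ev (nat_lit 121854153119626602284757679211527) (nat_lit 3)) (.cons (.br (nat_lit 14) (nat_lit 0) (.cons (.rf (nat_lit 109) (nat_lit 583706118939841765935136)) (.cons (.br (nat_lit 14) (nat_lit 0) (.cons (.rf (nat_lit 109) (nat_lit 583706118939841765935136)) (.cons (.br (nat_lit 15) (nat_lit 0) (.cons (.rf (nat_lit 110) (nat_lit 677582165103132179601393696)) (.cons (.rf (nat_lit 110) (nat_lit 640105464695078675185502240)) .nil))) .nil))) .nil))) .nil))) (.cons (.br (nat_lit 13) (nat_lit 0) (.cons (.ev (nat_lit 10384752793578351614807502917599747) (nat_lit 2)) (.cons (.br (nat_lit 13) (nat_lit 0) (.cons (.ev (nat_lit 10384752793578351614807502917599747) (nat_lit 2)) (.cons (.br (nat_lit 14) (nat_lit 0) (.cons (.rf (nat_lit 111) (nat_lit 19926519232773908561233952)) (.cons (.rf (nat_lit 111)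 (nat_lit 18755372345022236548237344)) (.cons (.br (nat_lit 15) (nat_lit 0) (.cons (.br (nat_lit 15) (nat_lit 0) (.cons (.ev (nat_lit 1334440575053059093088046041253544193) (nat_lit 1)) .nil)) (.cons (.br (nat_lit 15) (nat_lit 0) (.cons (.ev (nat_lit 1334440575053059093088046041253544193) (nat_lit 1)) .nil)) .nil))) .nil)))) .nil))) .nil))) (.cons (.br (nat_lit 13) (nat_lit 0) (.cons (.rf (nat_lit 113) (nat_lit 583706118939841765935136)) (.cons (.rf (nat_lit 115) (nat_lit 583706118939841765935136)) (.cons (.br (nat_lit 13) (nat_lit 0) (.cons (.rf (nat_lit 113) (nat_lit 583706118939841765935136)) (.cons (.rf (nat_lit 115) (nat_lit 583706118939841765935136)) (.cons (.br (nat_lit 14) (nat_lit 0) (.cons (.rf (nat_lit 117) (nat_lit 677582165103132179601393696)) (.cons (.rf (nat_lit 118) (nat_lit 677582165103132179601393696)) (.cons (.rf (nat_lit 118) (nat_lit 640105464695078675185502240)) .nil)))) .nil)))) .nil)))) .nil)))) .nil)))),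
 (.br (nat_lit 14) (nat_lit 0) (.cons (.br (nat_lit 15) (nat_lit 0) (.cons (.kr (nat_lit 10384594336039674900032605101490177) (nat_lit 2658455991571045393993711623675576832) (nat_lit 0) (nat_lit 2)) (.cons (.rf (nat_lit 43) (nat_lit 631047566512102465)) .nil))) .nil)),
 (.br (nat_lit 15) (nat_lit 0) (.cons (.ev (nat_lit 1344865813749589854644023269276057859) (nat_lit 2)) .nil)),
 (.br (nat_lit 14) (nat_lit 0) (.cons (.br (nat_lit 15) (nat_lit 0) (.cons (.kr (nat_lit 2658455991571040671627510224728883201) (nat_lit 10384593717074377623543866598621696) (nat_lit 0) (nat_lit 2)) (.cons (.rf (nat_lit 58) (nat_lit 631047566515149889)) .nil))) .nil)),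
 (.br (nat_lit 15) (nat_lit 0) (.cons (.ev (nat_lit 1344825406767737523151559287940252419) (nat_lit 2)) .nil)),
 (.br (nat_lit 15) (nat_lit 0) (.cons (.br (nat_lit 16) (nat_lit 0) (.cons (.zr (nat_lit 5327337302608145594350459874680373249) (nat_lit 522673715590561485947984327502711547233280) (nat_lit 16) (nat_lit 13)) .nil)) .nil)),
 (.br (nat_lit 12) (nat_lit 0) (.cons (.ev (nat_lit 20520097717990441085590313304322) (nat_lit 2)) (.cons (.br (nat_lit 14) (nat_lit 0) (.cons (.ev (nat_lit 10425159156470108198110027457757697) (nat_lit 2)) (.cons (.ev (nat_lit 10384752793578351614807502951153667) (nat_lit 2)) (.cons (.br (nat_lit 15) (nat_lit 0) (.cons (.rf (nat_lit 124) (nat_lit 677582165103132179601393696)) (.cons (.br (nat_lit 15) (nat_lit 0) (.cons (.rf (nat_lit 124) (nat_lit 677582165103132179601393696)) .nil)) .nil))) .nil)))) .nil))),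
 (.br (nat_lit 14) (nat_lit 0) (.cons (.br (nat_lit 16) (nat_lit 0) (.cons (.zr (nat_lit 2679265902280726518147927972981637129) (nat_lit 522673715590563336789802327055933275898880) (nat_lit 16) (nat_lit 2)) .nil)) .nil)),
 (.br (nat_lit 12) (nat_lit 0) (.cons (.ev (nat_lit 20520097717990441085590313304322) (nat_lit 2)) (.cons (.br (nat_lit 15) (nat_lit 0) (.cons (.ev (nat_lit 2658496556390252734372444337290084867) (nat_lit 2)) (.cons (.ev (nat_lit 2658456150027379867256199174024200193) (nat_lit 2)) (.cons (.br (nat_lit 14) (nat_lit 0) (.cons (.rf (nat_lit 126) (nat_lit 677582165103132179601393696)) (.cons (.br (nat_lit 14) (nat_lit 0) (.cons (.rf (nat_lit 126) (nat_lit 677582165103132179601393696)) .nil)) .nil))) .nil)))) .nil))),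
 (.br (nat_lit 15) (nat_lit 0) (.cons (.kr (nat_lit 1329227995786124798723421689455050752) (nat_lit 5192297168019837449875565054001152) (nat_lit 10) (nat_lit 0)) (.cons (.ev (nat_lit 1334420371871613214796957728936886528) (nat_lit 1)) .nil))),
 (.br (nat_lit 14) (nat_lit 0) (.cons (.rf (nat_lit 128) (nat_lit 677582165103132179601393696)) (.cons (.rf (nat_lit 128) (nat_lit 640105464695078675185502240)) .nil))),
 (.br (nat_lit 14) (nat_lit 0) (.cons (.rf (nat_lit 129) (nat_lit 677582165103132179601393696)) (.cons (.br (nat_lit 16) (nat_lit 0) (.cons (.br (nat_lit 15) (nat_lit 0) (.cons (.ev (nat_lit 1334440575053059093088046041270321153) (nat_lit 1)) .nil)) (.cons (.kr (nat_lit 340282366920938463463374607431768211456) (nat_lit 87112285931760246646623899502532662132736) (nat_lit 16) (nat_lit 0)) .nil))) .nil))),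
 (.br (nat_lit 8) (nat_lit 0) (.cons (.br (nat_lit 12) (nat_lit 0) (.cons (.ev (nat_lit 79229376162450436191892340993) (nat_lit 1)) (.cons (.br (nat_lit 13) (nat_lit 0) (.cons (.ev (nat_lit 121852915160697852098921285943299) (nat_lit 3)) (.cons (.br (nat_lit 14) (nat_lit 0) (.cons (.rf (nat_lit 120) (nat_lit 583706118939841765935136)) (.cons (.br (nat_lit 14) (nat_lit 0) (.cons (.rf (nat_lit 120) (nat_lit 583706118939841765935136)) (.cons (.br (nat_lit 15) (nat_lit 0) (.cons (.rf (nat_lit 121) (nat_lit 677582165103132179601393696)) (.cons (.rf (nat_lit 121) (nat_lit 640105464695078675185502240)) .nil))) .nil))) .nil))) .nil))) .nil))) (.cons (.ev (nat_lit 20282410812596009121723445149696) (nat_lit 1)) (.cons (.br (nat_lit 13) (nat_lit 0) (.cons (.br (nat_lit 12) (nat_lit 0) (.cons (.ev (nat_lit 41040808375538527644168856403969) (nat_lit 3)) (.cons (.br (nat_lit 14) (nat_lit 0) (.cons (.rf (nat_lit 122) (nat_lit 583706118939841765935136)) (.cons (.br (nat_lit 14) (nat_lit 0) (.cons (.rf (nat_lit 122) (nat_lit 583706118939841765935136))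 (.cons (.br (nat_lit 15) (nat_lit 0) (.cons (.rf (nat_lit 123) (nat_lit 677582165103132179601393696)) (.cons (.rf (nat_lit 123) (nat_lit 640105464695078675185502240)) .nil))) .nil))) .nil))) .nil))) (.cons (.ev (nat_lit 20282719088680010852162995224576) (nat_lit 1)) (.cons (.br (nat_lit 12) (nat_lit 0) (.cons (.rf (nat_lit 125) (nat_lit 583706118939841765935136)) (.cons (.rf (nat_lit 127) (nat_lit 583706118939841765935136)) (.cons (.br (nat_lit 12) (nat_lit 0) (.cons (.rf (nat_lit 125) (nat_lit 583706118939841765935136)) (.cons (.rf (nat_lit 127) (nat_lit 583706118939841765935136)) (.cons (.br (nat_lit 14) (nat_lit 0) (.cons (.rf (nat_lit 129) (nat_lit 677582165103132179601393696)) (.cons (.rf (nat_lit 130) (nat_lit 677582165103132179601393696)) (.cons (.rf (nat_lit 130) (nat_lit 640105464695078675185502240)) .nil)))) .nil)))) .nil)))) .nil)))) .nil))))]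

theorem c3 : chkAll C T R L3 (nat_lit 101) = true := by decide +kernel

theorem l3 : (nat_lit 101) + L3.length = (nat_lit 132) := by decide +kernel

/-- part of the certificates -/
def L4 : List Prf := [(.br (nat_lit 15) (nat_lit 0) (.cons (.br (nat_lit 16) (nat_lit 0) (.cons (.zr (nat_lit 5327337300133479163965515353003526144) (nat_lit 522673715590562717819782683802845839360005) (nat_lit 16) (nat_lit 12)) .nil)) .nil)),
 (.br (nat_lit 12) (nat_lit 0) (.cons (.ev (nat_lit 79538856449905579870226809088) (nat_lit 1)) (.cons (.br (nat_lit 13) (nat_lit 0) (.cons (.ev (nat_lit 20282720302328196668182543466753) (nat_lit 1)) (.cons (.ev (nat_lit 20520097717990441085590330081282) (nat_lit 2)) (.cons (.br (nat_lit 14) (nat_lit 0) (.cons (.ev (nat_lit 10384752793578351614807502917599747) (nat_lit 2)) (.cons (.ev (nat_lit 10425159156470108198110027457757697) (nat_lit 2)) (.cons (.br (nat_lit 15) (nat_lit 0) (.cons (.rf (nat_lit 132) (nat_lit 677582165103132179601393696)) (.cons (.br (nat_lit 15) (nat_lit 0) (.cons (.rf (nat_lit 132) (nat_lit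 677582165103132179601393696)) .nil)) .nil))) .nil)))) .nil)))) .nil))),
 (.br (nat_lit 12) (nat_lit 0) (.cons (.br (nat_lit 14) (nat_lit 0) (.cons (.ev (nat_lit 5212658496301012082375179865423873) (nat_lit 1)) (.cons (.rf (nat_lit 58) (nat_lit 593855484988102721)) .nil))) .nil)),
 (.br (nat_lit 15) (nat_lit 0) (.cons (.zr (nat_lit 1344804886670014810343709365940256768) (nat_lit 20361640184036092793566403822336) (nat_lit 8) (nat_lit 5)) .nil)),
 (.br (nat_lit 12) (nat_lit 0) (.cons (.ev (nat_lit 79538856449905579870226809088) (nat_lit 1)) (.cons (.br (nat_lit 13) (nat_lit 0) (.cons (.rf (nat_lit 134) (nat_lit 18240816216870055151648)) (.cons (.br (nat_lit 13) (nat_lit 0) (.cons (.rf (nat_lit 134) (nat_lit 18240816216870055151648)) (.cons (.br (nat_lit 15) (nat_lit 0) (.cons (.rf (nat_lit 135) (nat_lit 677582165103132179601393696)) (.cons (.rf (nat_lit 135) (nat_lit 640105464695078675185502240)) .nil))) .nil))) .nil))) .nil))),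
 (.br (nat_lit 15) (nat_lit 0) (.cons (.ev (nat_lit 680564734000334475048197799916999933953) (nat_lit 2)) (.cons (.br (nat_lit 16) (nat_lit 0) (.cons (.ev (nat_lit 341611594996261031582730581123490971905) (nat_lit 1)) .nil)) .nil))),
 (.br (nat_lit 13) (nat_lit 0) (.cons (.rf (nat_lit 134) (nat_lit 18239687808868677918057)) (.cons (.ev (nat_lit 121853534159051691997418156590597) (nat_lit 3)) (.cons (.br (nat_lit 14) (nat_lit 0) (.cons (.kr (nat_lit 5192297168019837449875565054001408) (nat_lit 1329227995786124798723421689471827968) (nat_lit 1) (nat_lit 0)) (.cons (.rf (nat_lit 137) (nat_lit 677582165103132179601393696)) (.cons (.rf (nat_lit 137) (nat_lit 640105428586022631108844905)) .nil)))) .nil)))),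
 (.br (nat_lit 14) (nat_lit 0) (.cons (.br (nat_lit 16) (nat_lit 0) (.cons (.zr (nat_lit 2679265902280717073414962225252270080) (nat_lit 522673715590562717819782683802845755475461) (nat_lit 16) (nat_lit 5)) .nil)) .nil)),
 (.br (nat_lit 13) (nat_lit 0) (.cons (.ev (nat_lit 20520097717990441085590330081282) (nat_lit 2)) (.cons (.ev (nat_lit 20282720302328196668182543466753) (nat_lit 1)) (.cons (.br (nat_lit 15) (nat_lit 0) (.cons (.ev (nat_lit 2658456150646340442165360630853402627) (nat_lit 2)) (.cons (.ev (nat_lit 2658496557009232198748663155393560577) (nat_lit 2)) (.cons (.br (nat_lit 14) (nat_lit 0) (.cons (.rf (nat_lit 139) (nat_lit 677582165103132179601393696)) (.cons (.br (nat_lit 14) (nat_lit 0) (.cons (.rf (nat_lit 139) (nat_lit 677582165103132179601393696)) .nil)) .nil))) .nil)))) .nil)))),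
 (.br (nat_lit 14) (nat_lit 0) (.cons (.br (nat_lit 15) (nat_lit 0) (.cons (.zr (nat_lit 680585543752590230105995792226577416192) (nat_lit 522673715590563336789802326492983205037573) (nat_lit 16) (nat_lit 5)) .nil)) .nil)),
 (.br (nat_lit 16) (nat_lit 0) (.cons (.kr (nat_lit 5192296858534827628530496329220352) (nat_lit 340282366920938463463374607431784988672) (nat_lit 1) (nat_lit 0)) (.cons (.ev (nat_lit 340287579500516086971013990091092656128) (nat_lit 1)) .nil))),
 (.br (nat_lit 16) (nat_lit 0) (.cons (.ev (nat_lit 340287559297335854740908717798341017600) (nat_lit 1)) .nil)),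
 (.br (nat_lit 14) (nat_lit 0) (.cons (.rf (nat_lit 142) (nat_lit 677582165103132179601393696)) (.cons (.br (nat_lit 15) (nat_lit 0) (.cons (.rf (nat_lit 143) (nat_lit 640068830245780391358438761)) (.cons (.kr (nat_lit 87112285931760247855549719117161836838912) (nat_lit 1329227996094400882725152129005125632) (nat_lit 10) (nat_lit 0)) .nil))) .nil))),
 (.br (nat_lit 14) (nat_lit 0) (.cons (.rf (nat_lit 142) (nat_lit 677582165103132179601393696)) (.cons (.br (nat_lit 16) (nat_lit 0) (.cons (.ev (nat_lit 340287579500516086971013990091092656128) (nat_lit 1)) (.cons (.kr (nat_lit 5192296858534827628530496329220352) (nat_lit 340282366920938463463374607431784988672) (nat_lit 1) (nat_lit 0)) .nil))) .nil))),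
 (.br (nat_lit 12) (nat_lit 0) (.cons (.ev (nat_lit 79538856449905579870226809088) (nat_lit 1)) (.cons (.rf (nat_lit 140) (nat_lit 583706118939841765935136)) (.cons (.br (nat_lit 13) (nat_lit 0) (.cons (.rf (nat_lit 140) (nat_lit 547071669641557938871657)) (.cons (.ev (nat_lit 20282719088680010852163012002048) (nat_lit 1)) (.cons (.br (nat_lit 16) (nat_lit 0) (.cons (.ev (nat_lit 680564734000334475048197799916999933953) (nat_lit 2)) (.cons (.ev (nat_lit 680564774406697347915314045080232263683) (nat_lit 2)) (.cons (.br (nat_lit 14) (nat_lit 0) (.cons (.rf (nat_lit 141) (nat_lit 677582165103132179601393696)) (.cons (.br (nat_lit 14) (nat_lit 0) (.cons (.rf (nat_lit 141) (nat_lit 677582165103132179601393696)) .nil)) .nil))) .nil)))) (.cons (.br (nat_lit 14) (nat_lit 0) (.cons (.rf (nat_lit 144) (nat_lit 677582165103132179601393696)) (.cons (.rf (nat_lit 145) (nat_lit 677582165103132179601393696)) (.cons (.br (nat_lit 14) (nat_lit 0) (.cons (.rf (nat_lit 144) (nat_lit 677582165103132179601393696)) (.cons (.rf (nat_lit 145) (nat_lit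 677582165103132179601393696)) .nil))) .nil)))) .nil))))) .nil)))),
 (.br (nat_lit 11) (nat_lit 0) (.cons (.ev (nat_lit 20361947251194203133262012940288) (nat_lit 1)) (.cons (.rf (nat_lit 20) (nat_lit 556595233804097537)) .nil))),
 (.br (nat_lit 13) (nat_lit 0) (.cons (.ev (nat_lit 1334440575053059093088046041270321153) (nat_lit 1)) (.cons (.br (nat_lit 16) (nat_lit 0) (.cons (.ev (nat_lit 340287559297335854740908717798341017600) (nat_lit 1)) (.cons (.ev (nat_lit 680564774406697347915314045080232263683) (nat_lit 2)) .nil))) .nil))),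
 (.br (nat_lit 13) (nat_lit 0) (.cons (.ev (nat_lit 5192376396187074080978607026536448) (nat_lit 1)) (.cons (.br (nat_lit 13) (nat_lit 0) (.cons (.ev (nat_lit 5192376396187074080978607026536448) (nat_lit 1)) .nil)) .nil))),
 (.br (nat_lit 13) (nat_lit 0) (.cons (.ev (nat_lit 10425158537490643821891209387835907) (nat_lit 2)) (.cons (.rf (nat_lit 149) (nat_lit 19459491438255770079297)) (.cons (.br (nat_lit 15) (nat_lit 0) (.cons (.br (nat_lit 15) (nat_lit 0) (.cons (.zr (nat_lit 2689609772722273249230826097529061376) (nat_lit 40724513472408192790365984654337) (nat_lit 16) (nat_lit 5)) .nil)) (.cons (.br (nat_lit 15) (nat_lit 0) (.cons (.zr (nat_lit 2689609772722273249230826097529061376) (nat_lit 40724513472408192790365984654337) (nat_lit 16) (nat_lit 5)) .nil)) .nil))) .nil)))),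
 (.br (nat_lit 13) (nat_lit 0) (.cons (.ev (nat_lit 10425158537490643821891209387835907) (nat_lit 2)) (.cons (.br (nat_lit 14) (nat_lit 0) (.cons (.ev (nat_lit 20891040968298362206119403540578821) (nat_lit 3)) (.cons (.kr (nat_lit 10384594336039674900032605084712961) (nat_lit 680564733841878140574935312366668087296) (nat_lit 0) (nat_lit 1)) (.cons (.br (nat_lit 15) (nat_lit 0) (.cons (.kr (nat_lit 680564733841878135852569110967704616961) (nat_lit 2658455991569836468174096994500870656) (nat_lit 0) (nat_lit 2)) (.cons (.ev (nat_lit 5337803025345883003641922357999829505) (nat_lit 3)) .nil))) .nil)))) (.cons (.br (nat_lit 14) (nat_lit 0) (.cons (.kr (nat_lit 5192297168019837450157040030711809) (nat_lit 1329227995784920595270289934220525824) (nat_lit 0) (nat_lit 2)) (.cons (.br (nat_lit 16) (nat_lit 0) (.cons (.ev (nat_lit 683233574586240337024171636487014711811) (nat_lit 2)) (.cons (.ev (nat_lit 340287579500517300619199806110657675265) (nat_lit 1)) .nil))) (.cons (.br (nat_lit 17) (nat_lit 0) (.cons (.ev (nat_lit 174227240744671219595101804729213342712321)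 (nat_lit 2)) (.cons (.ev (nat_lit 87112291124136644037901433612899234938880) (nat_lit 1)) .nil))) .nil)))) .nil)))),
 (.br (nat_lit 13) (nat_lit 0) (.cons (.rf (nat_lit 149) (nat_lit 19459491438255770079297)) (.cons (.rf (nat_lit 151) (nat_lit 19926519232773908561233952)) (.cons (.br (nat_lit 14) (nat_lit 0) (.cons (.br (nat_lit 15) (nat_lit 0) (.cons (.ev (nat_lit 1334420371872826862982773748485128193) (nat_lit 1)) (.cons (.br (nat_lit 16) (nat_lit 0) (.cons (.ev (nat_lit 683233574586240337024171636487014711811) (nat_lit 2)) .nil)) .nil))) (.cons (.kr (nat_lit 10384594336039674900032605084712961) (nat_lit 680564733841878140574935312366668087296) (nat_lit 0) (nat_lit 1)) (.cons (.br (nat_lit 16) (nat_lit 0) (.cons (.br (nat_lit 15) (nat_lit 0) (.cons (.ev (nat_lit 2658496557009232198748663155393560577) (nat_lit 2)) .nil)) (.cons (.ev (nat_lit 87112291124136642833697980199660416991233) (nat_lit 1)) .nil))) .nil)))) .nil)))),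
 (.br (nat_lit 12) (nat_lit 0) (.cons (.ev (nat_lit 79538856449905579870226809088) (nat_lit 1)) (.cons (.br (nat_lit 15) (nat_lit 0) (.cons (.ev (nat_lit 2658456150646340442165360630853402627) (nat_lit 2)) (.cons (.kr (nat_lit 10384593718278581076957096809857025) (nat_lit 2658455991569836468174096994517647360) (nat_lit 0) (nat_lit 1)) (.cons (.br (nat_lit 13) (nat_lit 0) (.cons (.rf (nat_lit 147) (nat_lit 19459491438255770079297)) (.cons (.rf (nat_lit 148) (nat_lit 19926519232773908561233952)) (.cons (.br (nat_lit 13) (nat_lit 0) (.cons (.rf (nat_lit 20) (nat_lit 630977266359377954)) (.cons (.rf (nat_lit 148) (nat_lit 19926519232773908561233952)) .nil))) .nil)))) .nil)))) (.cons (.br (nat_lit 13) (nat_lit 0) (.cons (.rf (nat_lit 150) (nat_lit 19926519232773908561233952)) (.cons (.rf (nat_lit 151) (nat_lit 19926519232773908561233952)) (.cons (.rf (nat_lit 152) (nat_lit 19926519232773908561233952)) (.cons (.br (nat_lit 13) (nat_lit 0) (.cons (.rf (nat_lit 150) (nat_lit 19926519232773908561233952)) (.cons (.rf (nat_lit 151) (nat_lit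 19926519232773908561233952)) (.cons (.rf (nat_lit 152) (nat_lit 19926519232773908561233952)) .nil)))) .nil))))) .nil)))),
 (.br (nat_lit 14) (nat_lit 0) (.cons (.ev (nat_lit 5212579269347405118851651538583808) (nat_lit 1)) .nil)),
 (.br (nat_lit 13) (nat_lit 0) (.cons (.rf (nat_lit 153) (nat_lit 547071669641557938871657)) (.cons (.ev (nat_lit 121853534159051691997418156590597) (nat_lit 3)) (.cons (.br (nat_lit 14) (nat_lit 0) (.cons (.kr (nat_lit 5192296859743753448145125503926528) (nat_lit 1329227996094400882725152129021902848) (nat_lit 1) (nat_lit 0)) (.cons (.br (nat_lit 15) (nat_lit 0) (.cons (.ev (nat_lit 680564734000334475048197799916999933953) (nat_lit 2)) (.cons (.rf (nat_lit 154) (nat_lit 661701333106257559652384)) .nil))) (.cons (.br (nat_lit 15) (nat_lit 0) (.cons (.br (nat_lit 16) (nat_lit 0) (.cons (.ev (nat_lit 340287559297334650537455304559523069953) (nat_lit 1)) .nil)) (.cons (.ev (nat_lit 174224571904085313714236363835282020106243) (nat_lit 2)) .nil))) .nil)))) .nil)))),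
 (.br (nat_lit 15) (nat_lit 0) (.cons (.ev (nat_lit 340287559297025160823786558664365572353) (nat_lit 1)) .nil)),
 (.br (nat_lit 12) (nat_lit 0) (.cons (.ev (nat_lit 20361638975091754658748770091008) (nat_lit 1)) .nil)),
 (.br (nat_lit 13) (nat_lit 0) (.cons (.ev (nat_lit 121853534159051691997418156590597) (nat_lit 3)) (.cons (.rf (nat_lit 149) (nat_lit 19423715608862914779371)) (.cons (.br (nat_lit 15) (nat_lit 0) (.cons (.br (nat_lit 14) (nat_lit 0) (.cons (.ev (nat_lit 10384752174617776705646046155506177) (nat_lit 2)) (.cons (.rf (nat_lit 156) (nat_lit 21174442659472880612509728)) .nil))) (.cons (.kr (nat_lit 340282366920939672389194222060942917632) (nat_lit 1329227996094400882725152129005125632) (nat_lit 10) (nat_lit 0)) (.cons (.br (nat_lit 16) (nat_lit 0) (.cons (.rf (nat_lit 157) (nat_lit 661701333106257559652384)) (.cons (.ev (nat_lit 174224571904085313714236363835282020106243) (nat_lit 2)) .nil))) .nil)))) .nil)))),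
 (.br (nat_lit 12) (nat_lit 0) (.cons (.rf (nat_lit 146) (nat_lit 583706118939841765935136)) (.cons (.rf (nat_lit 153) (nat_lit 583706118939841765935136)) (.cons (.br (nat_lit 13) (nat_lit 0) (.cons (.rf (nat_lit 155) (nat_lit 19926519232773908561233952)) (.cons (.rf (nat_lit 153) (nat_lit 547071669641557938871657)) (.cons (.rf (nat_lit 158) (nat_lit 19926519232773908561233952)) (.cons (.br (nat_lit 13) (nat_lit 0) (.cons (.rf (nat_lit 155) (nat_lit 19926519232773908561233952)) (.cons (.rf (nat_lit 153) (nat_lit 547071669641557938871657)) (.cons (.rf (nat_lit 158) (nat_lit 19926519232773908561233952)) .nil)))) .nil))))) .nil)))),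
 (.br (nat_lit 14) (nat_lit 0) (.cons (.br (nat_lit 15) (nat_lit 0) (.cons (.ev (nat_lit 341611615199132987728834122976692535553) (nat_lit 1)) .nil)) (.cons (.ev (nat_lit 10384752174617776705646046155506177) (nat_lit 2)) .nil))),
 (.br (nat_lit 13) (nat_lit 0) (.cons (.rf (nat_lit 159) (nat_lit 547071669641557938871657)) (.cons (.rf (nat_lit 153) (nat_lit 547071669641557938871657)) (.cons (.br (nat_lit 16) (nat_lit 0) (.cons (.rf (nat_lit 160) (nat_lit 677582165103132179601393696)) (.cons (.rf (nat_lit 160) (nat_lit 677545530653833895774330217)) (.cons (.kr (nat_lit 340282366920938463463374607431768211456) (nat_lit 87112285931760246646623899502532662132736) (nat_lit 16) (nat_lit 0)) .nil)))) .nil))))]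

theorem c4 : chkAll C T R L4 (nat_lit 132) = true := by decide +kernel

theorem l4 : (nat_lit 132) + L4.length = (nat_lit 162) := by decide +kernel

/-- part of the certificates -/
def L5 : List Prf := [(.br (nat_lit 5) (nat_lit 0) (.cons (.br (nat_lit 12) (nat_lit 0) (.cons (.rf (nat_lit 103) (nat_lit 493858305440582043680)) (.cons (.br (nat_lit 12) (nat_lit 0) (.cons (.rf (nat_lit 103) (nat_lit 493858305440582043680)) (.cons (.br (nat_lit 13) (nat_lit 0) (.cons (.rf (nat_lit 105) (nat_lit 583706118939841765935136)) (.cons (.rf (nat_lit 105) (nat_lit 547107778697602015528992)) (.cons (.br (nat_lit 13) (nat_lit 0) (.cons (.rf (nat_lit 105) (nat_lit 583706118939841765935136)) (.cons (.rf (nat_lit 105) (nat_lit 547107778697602015528992)) (.cons (.br (nat_lit 14) (nat_lit 0) (.cons (.rf (nat_lit 107) (nat_lit 21174442659472880612509728)) (.cons (.rf (nat_lit 108) (nat_lit 21174442659472880612509728)) (.cons (.rf (nat_lit 108) (nat_lit 20003295771721208599513120)) .nil)))) .nil)))) .nil)))) .nil))) .nil))) (.cons (.rf (nat_lit 119)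 (nat_lit 493858305440582043680)) (.cons (.rf (nat_lit 131) (nat_lit 493858305440582043680)) (.cons (.br (nat_lit 8) (nat_lit 0) (.cons (.rf (nat_lit 131) (nat_lit 457749249396505386345)) (.cons (.rf (nat_lit 119) (nat_lit 457749249396505386345)) (.cons (.br (nat_lit 12) (nat_lit 0) (.cons (.rf (nat_lit 133) (nat_lit 17022140995484340291616)) (.cons (.rf (nat_lit 136) (nat_lit 17022140995484340291616)) (.cons (.br (nat_lit 12) (nat_lit 0) (.cons (.rf (nat_lit 133) (nat_lit 17022140995484340291616)) (.cons (.rf (nat_lit 136) (nat_lit 17022140995484340291616)) (.cons (.br (nat_lit 13) (nat_lit 0) (.cons (.rf (nat_lit 136) (nat_lit 16986031939440263634281)) (.cons (.rf (nat_lit 138) (nat_lit 19926519232773908561233952)) (.cons (.rf (nat_lit 138) (nat_lit 18755372345022236548237344)) (.cons (.br (nat_lit 13) (nat_lit 0) (.cons (.rf (nat_lit 136) (nat_lit 16986031939440263634281)) (.cons (.rf (nat_lit 138) (nat_lit 19926519232773908561233952)) (.cons (.rf (nat_lit 138) (nat_lit 18755372345022236548237344)) .nil)))) .nil))))) .nil))))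 .nil)))) (.cons (.br (nat_lit 12) (nat_lit 0) (.cons (.rf (nat_lit 146) (nat_lit 583706118939841765935136)) (.cons (.rf (nat_lit 153) (nat_lit 583706118939841765935136)) (.cons (.rf (nat_lit 159) (nat_lit 583706118939841765935136)) (.cons (.br (nat_lit 12) (nat_lit 0) (.cons (.rf (nat_lit 146) (nat_lit 583706118939841765935136)) (.cons (.rf (nat_lit 153) (nat_lit 583706118939841765935136)) (.cons (.rf (nat_lit 159) (nat_lit 583706118939841765935136)) (.cons (.br (nat_lit 13) (nat_lit 0) (.cons (.rf (nat_lit 159) (nat_lit 547071669641557938871657)) (.cons (.rf (nat_lit 153) (nat_lit 547071669641557938871657)) (.cons (.rf (nat_lit 161) (nat_lit 677582165103132179601393696)) (.cons (.rf (nat_lit 161) (nat_lit 640105464695078675185502240)) .nil))))) .nil))))) .nil))))) .nil))))) .nil))))),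
 (.br (nat_lit 14) (nat_lit 0) (.cons (.br (nat_lit 15) (nat_lit 0) (.cons (.kr (nat_lit 10384593718278581076957096826634241) (nat_lit 2658455991569836468174096994500870656) (nat_lit 0) (nat_lit 2)) (.cons (.br (nat_lit 16) (nat_lit 0) (.cons (.br (nat_lit 16) (nat_lit 0) .nil) .nil)) .nil))) .nil)),
 (.br (nat_lit 15) (nat_lit 0) (.cons (.ev (nat_lit 1344865813130610390268367392536068865) (nat_lit 2)) .nil)),
 (.br (nat_lit 8) (nat_lit 0) (.cons (.ev (nat_lit 41042046334467278955922336384005) (nat_lit 3)) (.cons (.br (nat_lit 14) (nat_lit 0) (.cons (.rf (nat_lit 163) (nat_lit 583706118939841765935136)) (.cons (.br (nat_lit 14) (nat_lit 0) (.cons (.rf (nat_lit 163) (nat_lit 583706118939841765935136)) (.cons (.br (nat_lit 15) (nat_lit 0) (.cons (.rf (nat_lit 164) (nat_lit 677582165103132179601393696)) (.cons (.rf (nat_lit 164) (nat_lit 640105464695078675185502240)) .nil))) .nil))) .nil))) .nil))),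
 (.br (nat_lit 10) (nat_lit 0) (.cons (.br (nat_lit 10) (nat_lit 0) .nil) .nil)),
 (.br (nat_lit 10) (nat_lit 0) (.cons (.br (nat_lit 10) (nat_lit 0) .nil) .nil)),
 (.br (nat_lit 14) (nat_lit 0) (.cons (.ev (nat_lit 5212658497509919455245735330578688) (nat_lit 1)) .nil)),
 (.br (nat_lit 8) (nat_lit 0) (.cons (.ev (nat_lit 121853534159051692560359587185667) (nat_lit 3)) (.cons (.ev (nat_lit 10384752793578351614807502951154177) (nat_lit 2)) (.cons (.br (nat_lit 13) (nat_lit 0) (.cons (.ev (nat_lit 10384752174617776705646046121951747) (nat_lit 2)) (.cons (.br (nat_lit 14) (nat_lit 0) (.cons (.kr (nat_lit 1334420292952935710353682633924280576) (nat_lit 20361637766184453564308054409216) (nat_lit 1) (nat_lit 0)) (.cons (.br (nat_lit 15) (nat_lit 0) (.cons (.ev (nat_lit 5379503977022639397085165176014374925) (nat_lit 4)) (.cons (.rf (nat_lit 166) (nat_lit 631047566515213377)) .nil))) .nil))) (.cons (.br (nat_lit 14) (nat_lit 0) (.cons (.br (nat_lit 15) (nat_lit 0) (.cons (.ev (nat_lit 2658496557009232198748663155360006147) (nat_lit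 2)) (.cons (.rf (nat_lit 167) (nat_lit 631047566515213377)) .nil))) (.cons (.br (nat_lit 15) (nat_lit 0) (.cons (.ev (nat_lit 680564774406697347915314045080265818113) (nat_lit 2)) (.cons (.br (nat_lit 15) (nat_lit 0) (.cons (.ev (nat_lit 680564774406697347915314045080265818113) (nat_lit 2)) .nil)) .nil))) (.cons (.br (nat_lit 15) (nat_lit 0) (.cons (.rf (nat_lit 168) (nat_lit 21174442659472880612509728)) (.cons (.br (nat_lit 15) (nat_lit 0) (.cons (.ev (nat_lit 1334440575362539380542908240349888768) (nat_lit 1)) .nil)) .nil))) .nil)))) .nil)))) .nil)))),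
 (.br (nat_lit 10) (nat_lit 0) (.cons (.br (nat_lit 10) (nat_lit 0) .nil) .nil)),
 (.br (nat_lit 14) (nat_lit 0) (.cons (.ev (nat_lit 1334440575363753028729287218424709377) (nat_lit 1)) (.cons (.br (nat_lit 16) (nat_lit 0) (.cons (.ev (nat_lit 341611594995951541850543034664375877633) (nat_lit 1)) (.cons (.kr (nat_lit 10384594336039674900032605101490177) (nat_lit 680564733841878140574935312366651310592) (nat_lit 0) (nat_lit 2)) .nil))) .nil))),
 (.br (nat_lit 10) (nat_lit 0) (.cons (.br (nat_lit 10) (nat_lit 0) .nil) .nil)),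
 (.br (nat_lit 15) (nat_lit 0) (.cons (.ev (nat_lit 2658496557009232198748100214030073857) (nat_lit 2)) (.cons (.rf (nat_lit 172) (nat_lit 631047566515213377)) .nil))),
 (.br (nat_lit 15) (nat_lit 0) (.cons (.br (nat_lit 15) (nat_lit 0) (.cons (.ev (nat_lit 1334440575053059093088327520525222145) (nat_lit 1)) .nil)) (.cons (.br (nat_lit 15) (nat_lit 0) (.cons (.ev (nat_lit 1334440575053059093088327520525222145) (nat_lit 1)) .nil)) .nil))),
 (.br (nat_lit 10) (nat_lit 0) (.cons (.br (nat_lit 10) (nat_lit 0) .nil) .nil)),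
 (.br (nat_lit 14) (nat_lit 0) (.cons (.ev (nat_lit 1334440575054263296541177800799813888) (nat_lit 1)) (.cons (.br (nat_lit 16) (nat_lit 0) (.cons (.ev (nat_lit 341611594995951541850543034664375877633) (nat_lit 1)) (.cons (.kr (nat_lit 10384593718278581076957096826634241) (nat_lit 680564733841876931649115697737476604416) (nat_lit 0) (nat_lit 2)) .nil))) .nil))),
 (.br (nat_lit 14) (nat_lit 0) (.cons (.br (nat_lit 14) (nat_lit 0) (.cons (.ev (nat_lit 1334440575054263296541177800799813888) (nat_lit 1)) (.cons (.rf (nat_lit 175) (nat_lit 631047566515213377)) .nil))) (.cons (.rf (nat_lit 176) (nat_lit 19926519232773908561233952)) (.cons (.br (nat_lit 14) (nat_lit 0) (.cons (.rf (nat_lit 175) (nat_lit 631047566515213377)) (.cons (.rf (nat_lit 176) (nat_lit 19926519232773908561233952)) .nil))) .nil)))),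
 (.br (nat_lit 14) (nat_lit 0) (.cons (.br (nat_lit 15) (nat_lit 0) (.cons (.kr (nat_lit 340282366920938468185741090301413425152) (nat_lit 1329227995786124798723421689455050752) (nat_lit 9) (nat_lit 0)) (.cons (.br (nat_lit 16) (nat_lit 0) (.cons (.ev (nat_lit 683233574586240337024171636487048266241) (nat_lit 2)) .nil)) .nil))) (.cons (.br (nat_lit 15) (nat_lit 0) (.cons (.br (nat_lit 16) (nat_lit 0) (.cons (.ev (nat_lit 680564774407316327379690263898335739907) (nat_lit 2)) .nil)) (.cons (.kr (nat_lit 87112285931760246651346265985402307346432) (nat_lit 1329227996094400882725152129005125632) (nat_lit 9) (nat_lit 0)) .nil))) .nil))),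
 (.br (nat_lit 12) (nat_lit 0) (.cons (.ev (nat_lit 79538856449905579870226808833) (nat_lit 1)) (.cons (.ev (nat_lit 79537652246452448110697316353) (nat_lit 1)) (.cons (.ev (nat_lit 79228162514264338693072420864) (nat_lit 1)) (.cons (.br (nat_lit 7) (nat_lit 0) (.cons (.rf (nat_lit 100) (nat_lit 457749249396505386345)) (.cons (.rf (nat_lit 165) (nat_lit 17022140995484340291616)) (.cons (.rf (nat_lit 169) (nat_lit 17022140995484340291616)) (.cons (.br (nat_lit 8) (nat_lit 0) (.cons (.rf (nat_lit 165) (nat_lit 17022139903703653648416)) (.cons (.rf (nat_lit 169) (nat_lit 17022139903703653648416)) (.cons (.br (nat_lit 13) (nat_lit 0) (.cons (.br (nat_lit 14) (nat_lit 0) (.cons (.kr (nat_lit 1334420292952935710353682633924280576) (nat_lit 20361637766184453564308054409216) (nat_lit 1) (nat_lit 0)) (.cons (.br (nat_lit 15) (nat_lit 0) (.cons (.ev (nat_lit 5379503974546721539582541669054416909) (nat_lit 4)) (.cons (.rf (nat_lit 170) (nat_lit 631047566515213377)) .nil))) .nil))) (.cons (.ev (nat_lit 2658496556390252734373007278620016643)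 (nat_lit 2)) (.cons (.br (nat_lit 14) (nat_lit 0) (.cons (.br (nat_lit 14) (nat_lit 0) (.cons (.ev (nat_lit 1334440575363753028729287218424709377) (nat_lit 1)) (.cons (.rf (nat_lit 170) (nat_lit 596074369280810049)) .nil))) (.cons (.rf (nat_lit 171) (nat_lit 19926519232773908561233952)) (.cons (.br (nat_lit 14) (nat_lit 0) (.cons (.rf (nat_lit 170) (nat_lit 596074369280810049)) (.cons (.rf (nat_lit 171) (nat_lit 19926519232773908561233952)) .nil))) .nil)))) .nil)))) (.cons (.br (nat_lit 13) (nat_lit 0) (.cons (.br (nat_lit 14) (nat_lit 0) (.cons (.rf (nat_lit 173) (nat_lit 19926519232773908561233952)) (.cons (.rf (nat_lit 173) (nat_lit 18755372343930455861594144)) (.cons (.rf (nat_lit 174) (nat_lit 677582165103132179601393696)) .nil)))) (.cons (.rf (nat_lit 177) (nat_lit 19926519232773908561233952)) (.cons (.rf (nat_lit 177) (nat_lit 18755372343930455861594144)) (.cons (.br (nat_lit 14) (nat_lit 0) (.cons (.rf (nat_lit 178) (nat_lit 677582165103132179601393696)) (.cons (.rf (nat_lit 178) (nat_lit 676411018214288726901753888))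 (.cons (.br (nat_lit 14) (nat_lit 0) (.cons (.rf (nat_lit 178) (nat_lit 677582165103132179601393696)) (.cons (.rf (nat_lit 178) (nat_lit 676411018214288726901753888)) .nil))) .nil)))) .nil))))) .nil))))) .nil))))) .nil))))),
 (.br (nat_lit 10) (nat_lit 0) (.cons (.br (nat_lit 10) (nat_lit 0) .nil) .nil)),
 (.br (nat_lit 15) (nat_lit 0) (.cons (.ev (nat_lit 2658496556390252734372444337256530433) (nat_lit 2)) (.cons (.rf (nat_lit 180) (nat_lit 631047566515213377)) .nil))),
 (.br (nat_lit 14) (nat_lit 0) (.cons (.ev (nat_lit 5212658496301012082375179865424128) (nat_lit 1)) .nil)),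
 (.br (nat_lit 13) (nat_lit 0) (.cons (.br (nat_lit 14) (nat_lit 0) (.cons (.kr (nat_lit 10384593718278581076957096809857025) (nat_lit 2658455991569836468174096994517647360) (nat_lit 0) (nat_lit 1)) (.cons (.br (nat_lit 15) (nat_lit 0) (.cons (.ev (nat_lit 5379503975165757672355991981570524685) (nat_lit 4)) (.cons (.br (nat_lit 16) (nat_lit 0) (.cons (.br (nat_lit 16) (nat_lit 0) .nil) .nil)) .nil))) .nil))) (.cons (.br (nat_lit 14) (nat_lit 0) (.cons (.br (nat_lit 15) (nat_lit 0) (.cons (.ev (nat_lit 2658496557009232198748663155393561091) (nat_lit 2)) (.cons (.br (nat_lit 16) (nat_lit 0) (.cons (.rf (nat_lit 53) (nat_lit 561528828194989931063511072)) .nil)) .nil))) (.cons (.br (nat_lit 15) (nat_lit 0) (.cons (.ev (nat_lit 680564774406697347915314045080232264193) (nat_lit 2)) (.cons (.br (nat_lit 15) (nat_lit 0) (.cons (.ev (nat_lit 680564774406697347915314045080232264193) (nat_lit 2)) .nil)) .nil))) (.cons (.br (nat_lit 15) (nat_lit 0) (.cons (.br (nat_lit 15) (nat_lit 0) (.cons (.ev (nat_lit 1334440575053059093088046041270321408)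 (nat_lit 1)) .nil)) (.cons (.rf (nat_lit 182) (nat_lit 21174442659472880612509728)) .nil))) .nil)))) .nil))),
 (.br (nat_lit 14) (nat_lit 0) (.cons (.ev (nat_lit 1334440575054263296541459280054714625) (nat_lit 1)) (.cons (.br (nat_lit 16) (nat_lit 0) (.cons (.br (nat_lit 16) (nat_lit 0) .nil) .nil)) .nil))),
 (.br (nat_lit 14) (nat_lit 0) (.cons (.ev (nat_lit 1334440575054263296541459280054714625) (nat_lit 1)) (.cons (.br (nat_lit 16) (nat_lit 0) (.cons (.ev (nat_lit 341611594995951541850543034664375877633) (nat_lit 1)) (.cons (.kr (nat_lit 10384594336039674900032605084712961) (nat_lit 680564733841878140574935312366668087296) (nat_lit 0) (nat_lit 1)) .nil))) .nil))),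
 (.br (nat_lit 13) (nat_lit 0) (.cons (.rf (nat_lit 183) (nat_lit 583706118939841765935136)) (.cons (.br (nat_lit 14) (nat_lit 0) (.cons (.rf (nat_lit 184) (nat_lit 19926519232773908561233952)) (.cons (.rf (nat_lit 185) (nat_lit 19926519232773908561233952)) (.cons (.br (nat_lit 14) (nat_lit 0) (.cons (.rf (nat_lit 184) (nat_lit 19926519232773908561233952)) (.cons (.rf (nat_lit 185) (nat_lit 19926519232773908561233952)) .nil))) .nil)))) .nil))),
 (.br (nat_lit 15) (nat_lit 0) (.cons (.kr (nat_lit 340282366920939672389194222060942917632) (nat_lit 1329227996094400882725152129005125632) (nat_lit 10) (nat_lit 0)) (.cons (.rf (nat_lit 53) (nat_lit 677582165103132179601393696)) .nil))),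
 (.br (nat_lit 14) (nat_lit 0) (.cons (.rf (nat_lit 187) (nat_lit 677582165103132179601393696)) (.cons (.rf (nat_lit 187) (nat_lit 640105464695078675185502240)) .nil))),
 (.br (nat_lit 14) (nat_lit 0) (.cons (.rf (nat_lit 188) (nat_lit 677582165103132179601393696)) (.cons (.br (nat_lit 16) (nat_lit 0) (.cons (.br (nat_lit 15) (nat_lit 0) (.cons (.ev (nat_lit 2658496557009232198748663155393561091) (nat_lit 2)) .nil)) (.cons (.kr (nat_lit 340282366920938463463374607431768211456) (nat_lit 87112285931760246646623899502532662132736) (nat_lit 16) (nat_lit 0)) .nil))) .nil)))]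

theorem c5 : chkAll C T R L5 (nat_lit 162) = true := by decide +kernel

theorem l5 : (nat_lit 162) + L5.length = (nat_lit 190) := by decide +kernel

/-- part of the certificates -/
def L6 : List Prf := [(.br (nat_lit 8) (nat_lit 0) (.cons (.rf (nat_lit 179) (nat_lit 457749249396471800170)) (.cons (.br (nat_lit 13) (nat_lit 0) (.cons (.ev (nat_lit 10384752793578351614807502917599233) (nat_lit 2)) (.cons (.br (nat_lit 13) (nat_lit 0) (.cons (.ev (nat_lit 10384752793578351614807502917599233) (nat_lit 2)) (.cons (.br (nat_lit 14) (nat_lit 0) (.cons (.rf (nat_lit 181) (nat_lit 19926519232773908561233952)) (.cons (.rf (nat_lit 181) (nat_lit 18755372345022236548237344)) (.cons (.br (nat_lit 15) (nat_lit 0) (.cons (.br (nat_lit 15) (nat_lit 0) (.cons (.ev (nat_lit 1334440575053059093088046041270321408) (nat_lit 1)) .nil)) (.cons (.br (nat_lit 15) (nat_lit 0) (.cons (.ev (nat_lit 1334440575053059093088046041270321408) (nat_lit 1)) .nil)) .nil))) .nil)))) .nil))) .nil))) (.cons (.br (nat_lit 13) (nat_lit 0) (.cons (.rf (nat_lit 183) (nat_lit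 583706118939841765935136)) (.cons (.rf (nat_lit 186) (nat_lit 583706118939841765935136)) (.cons (.br (nat_lit 13) (nat_lit 0) (.cons (.rf (nat_lit 183) (nat_lit 583706118939841765935136)) (.cons (.rf (nat_lit 186) (nat_lit 583706118939841765935136)) (.cons (.br (nat_lit 14) (nat_lit 0) (.cons (.rf (nat_lit 188) (nat_lit 677582165103132179601393696)) (.cons (.rf (nat_lit 189) (nat_lit 677582165103132179601393696)) (.cons (.rf (nat_lit 189) (nat_lit 640105464695078675185502240)) .nil)))) .nil)))) .nil)))) .nil)))),
 (.br (nat_lit 15) (nat_lit 0) (.cons (.br (nat_lit 16) (nat_lit 0) (.cons (.zr (nat_lit 1020852313422240146431669952305862606848) (nat_lit 261338187023276527283040974509664496517376) (nat_lit 8) (nat_lit 13)) .nil)) .nil)),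
 (.br (nat_lit 14) (nat_lit 0) (.cons (.br (nat_lit 15) (nat_lit 0) (.cons (.kr (nat_lit 10384593718278581076957096809857025) (nat_lit 2658455991569836468174096994517647360) (nat_lit 0) (nat_lit 1)) (.cons (.br (nat_lit 16) (nat_lit 0) (.cons (.br (nat_lit 16) (nat_lit 0) .nil) .nil)) .nil))) .nil)),
 (.br (nat_lit 15) (nat_lit 0) (.cons (.ev (nat_lit 1344865813130610390268367392536068865) (nat_lit 2)) .nil)),
 (.br (nat_lit 16) (nat_lit 0) (.cons (.ev (nat_lit 20282409608392555989963932434433) (nat_lit 1)) (.cons (.ev (nat_lit 1334420371872826862983055227773583617) (nat_lit 1)) (.cons (.kr (nat_lit 10384594336039674900032605084712961) (nat_lit 680564733841878140574935312366668087296) (nat_lit 0) (nat_lit 1)) .nil)))),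
 (.br (nat_lit 13) (nat_lit 0) (.cons (.ev (nat_lit 20520716697454816741467070071296) (nat_lit 2)) (.cons (.ev (nat_lit 20282409608392555989963932434433) (nat_lit 1)) (.cons (.br (nat_lit 15) (nat_lit 0) (.cons (.ev (nat_lit 2658456150027379867255636232694268417) (nat_lit 2)) (.cons (.ev (nat_lit 2658496556390252734373007278653571587) (nat_lit 2)) (.cons (.br (nat_lit 14) (nat_lit 0) (.cons (.br (nat_lit 14) (nat_lit 0) (.cons (.rf (nat_lit 194) (nat_lit 677582165103132179601393696)) .nil)) (.cons (.br (nat_lit 14) (nat_lit 0) (.cons (.rf (nat_lit 194) (nat_lit 677582165103132179601393696)) .nil)) .nil))) .nil)))) .nil)))),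
 (.br (nat_lit 14) (nat_lit 0) (.cons (.br (nat_lit 15) (nat_lit 0) (.cons (.zr (nat_lit 680585543752590230105995792226577416192) (nat_lit 522673715590563336789802326492983205037573) (nat_lit 16) (nat_lit 5)) .nil)) .nil)),
 (.br (nat_lit 15) (nat_lit 0) (.cons (.kr (nat_lit 20282409603651670423947251286272) (nat_lit 1329227995784915872903807060297121792) (nat_lit 1) (nat_lit 0)) (.cons (.ev (nat_lit 1329248357422686761277390539752210688) (nat_lit 1)) .nil))),
 (.br (nat_lit 14) (nat_lit 0) (.cons (.rf (nat_lit 197) (nat_lit 21174442659472880612509728)) (.cons (.br (nat_lit 15) (nat_lit 0) (.cons (.rf (nat_lit 194) (nat_lit 601457617399273498756614176)) (.cons (.kr (nat_lit 87112285931760247855549719117161836838912) (nat_lit 1329227996094400882725152129005125632) (nat_lit 10) (nat_lit 0)) .nil))) .nil))),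
 (.br (nat_lit 14) (nat_lit 0) (.cons (.rf (nat_lit 197) (nat_lit 21174442659472880612509728)) (.cons (.br (nat_lit 16) (nat_lit 0) (.cons (.ev (nat_lit 340287579500206606683559127892013089025) (nat_lit 1)) (.cons (.kr (nat_lit 5192296858534827628530496329220352) (nat_lit 340282366920938463463374607431784988672) (nat_lit 1) (nat_lit 0)) .nil))) .nil))),
 (.br (nat_lit 8) (nat_lit 0) (.cons (.rf (nat_lit 179) (nat_lit 457749249396505386345)) (.cons (.ev (nat_lit 20282719088680010570683723546624) (nat_lit 1)) (.cons (.br (nat_lit 12) (nat_lit 0) (.cons (.ev (nat_lit 41042046334467278955922369937925) (nat_lit 3)) (.cons (.ev (nat_lit 79228162514264338693072420864) (nat_lit 1)) (.cons (.br (nat_lit 13) (nat_lit 0) (.cons (.ev (nat_lit 20282409608392555989963932434433) (nat_lit 1)) (.cons (.ev (nat_lit 20520716697454816741467070071296) (nat_lit 2)) (.cons (.br (nat_lit 14) (nat_lit 0) (.cons (.ev (nat_lit 10384752174617776705083104758464513) (nat_lit 2)) (.cons (.ev (nat_lit 10425158537490643822454150717767683) (nat_lit 2)) (.cons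 (.br (nat_lit 15) (nat_lit 0) (.cons (.rf (nat_lit 191) (nat_lit 677582165103132179601393696)) (.cons (.br (nat_lit 15) (nat_lit 0) (.cons (.rf (nat_lit 191) (nat_lit 677582165103132179601393696)) .nil)) .nil))) .nil)))) .nil)))) .nil)))) (.cons (.br (nat_lit 12) (nat_lit 0) (.cons (.br (nat_lit 14) (nat_lit 0) (.cons (.rf (nat_lit 192) (nat_lit 583706118939841765935136)) (.cons (.br (nat_lit 14) (nat_lit 0) (.cons (.rf (nat_lit 192) (nat_lit 583706118939841765935136)) (.cons (.br (nat_lit 15) (nat_lit 0) (.cons (.rf (nat_lit 193) (nat_lit 677582165103132179601393696)) (.cons (.rf (nat_lit 193) (nat_lit 640105464695078675185502240)) .nil))) .nil))) .nil))) (.cons (.ev (nat_lit 79228162514264338693072420864) (nat_lit 1)) (.cons (.rf (nat_lit 195) (nat_lit 583706118939841765935136)) (.cons (.br (nat_lit 13) (nat_lit 0) (.cons (.rf (nat_lit 195) (nat_lit 547071669641557938871657)) (.cons (.ev (nat_lit 20282410812596008840244173471744) (nat_lit 1)) (.cons (.br (nat_lit 16) (nat_lit 0) (.cons (.ev (nat_lit 680564734000953435623107524315159069187)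 (nat_lit 2)) (.cons (.ev (nat_lit 680564774407316327379689700956972253697) (nat_lit 2)) (.cons (.br (nat_lit 14) (nat_lit 0) (.cons (.rf (nat_lit 196) (nat_lit 677582165103132179601393696)) (.cons (.br (nat_lit 14) (nat_lit 0) (.cons (.rf (nat_lit 196) (nat_lit 677582165103132179601393696)) .nil)) .nil))) .nil)))) (.cons (.br (nat_lit 14) (nat_lit 0) (.cons (.rf (nat_lit 198) (nat_lit 677582165103132179601393696)) (.cons (.rf (nat_lit 199) (nat_lit 677582165103132179601393696)) (.cons (.br (nat_lit 14) (nat_lit 0) (.cons (.rf (nat_lit 198) (nat_lit 677582165103132179601393696)) (.cons (.rf (nat_lit 199) (nat_lit 677582165103132179601393696)) .nil))) .nil)))) .nil))))) .nil))))) .nil))))),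
 (.br (nat_lit 13) (nat_lit 0) (.cons (.br (nat_lit 15) (nat_lit 0) (.cons (.ev (nat_lit 2658496556390252734372444337256530433) (nat_lit 2)) (.cons (.rf (nat_lit 180) (nat_lit 631045369633178853)) .nil))) .nil)),
 (.br (nat_lit 15) (nat_lit 0) (.cons (.zr (nat_lit 1344804886670005365610743635206209792) (nat_lit 20361637766184454127258007830530) (nat_lit 8) (nat_lit 5)) .nil)),
 (.br (nat_lit 13) (nat_lit 0) (.cons (.kr (nat_lit 10384594337248600719647234259419137) (nat_lit 2658455991569845912907062733808074752) (nat_lit 0) (nat_lit 1)) (.cons (.br (nat_lit 16) (nat_lit 0) (.cons (.ev (nat_lit 340287559297335854740908717798341017857) (nat_lit 1)) (.cons (.ev (nat_lit 340287579500206606683559127892013089025) (nat_lit 1)) .nil))) .nil))),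
 (.br (nat_lit 13) (nat_lit 0) (.cons (.br (nat_lit 16) (nat_lit 0) (.cons (.kr (nat_lit 680564733841878135852569110967704616961) (nat_lit 2658455991569836468174096994500870656) (nat_lit 0) (nat_lit 2)) (.cons (.ev (nat_lit 340287579500206606683559127892013089025) (nat_lit 1)) .nil))) (.cons (.ev (nat_lit 10425159156470108197547086127824897) (nat_lit 2)) .nil))),
 (.br (nat_lit 13) (nat_lit 0) (.cons (.rf (nat_lit 204) (nat_lit 677582165103132179601393696)) (.cons (.br (nat_lit 16) (nat_lit 0) (.cons (.ev (nat_lit 340287579500206606683559127892013089025) (nat_lit 1)) (.cons (.ev (nat_lit 340287559297335854740908717798341017857) (nat_lit 1)) .nil))) .nil))),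
 (.br (nat_lit 8) (nat_lit 0) (.cons (.rf (nat_lit 190) (nat_lit 17022139903703653648416)) (.cons (.rf (nat_lit 200) (nat_lit 17022139903703653648416)) (.cons (.br (nat_lit 12) (nat_lit 0) (.cons (.ev (nat_lit 10384752793578351614807502917599233) (nat_lit 2)) (.cons (.br (nat_lit 13) (nat_lit 0) (.cons (.rf (nat_lit 201) (nat_lit 583706118939841765935136)) (.cons (.br (nat_lit 13) (nat_lit 0) (.cons (.rf (nat_lit 201) (nat_lit 583706118939841765935136)) (.cons (.br (nat_lit 15) (nat_lit 0) (.cons (.rf (nat_lit 202) (nat_lit 677582165103132179601393696)) (.cons (.rf (nat_lit 202) (nat_lit 640105464695078675185502240)) .nil))) .nil))) .nil))) .nil))) (.cons (.br (nat_lit 12) (nat_lit 0) (.cons (.br (nat_lit 13) (nat_lit 0) (.cons (.ev (nat_lit 10384752174617776705646046155505667) (nat_lit 2)) (.cons (.br (nat_lit 14) (nat_lit 0) (.cons (.kr (nat_lit 10384594337248600719647234259419137) (nat_lit 2658455991569845912907062733808074752) (nat_lit 0) (nat_lit 1)) (.cons (.br (nat_lit 15) (nat_lit 0) (.cons (.ev (nat_lit 5379503977022639397085165176047928845)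 (nat_lit 4)) (.cons (.rf (nat_lit 167) (nat_lit 631046501229237313)) .nil))) .nil))) (.cons (.br (nat_lit 14) (nat_lit 0) (.cons (.br (nat_lit 15) (nat_lit 0) (.cons (.ev (nat_lit 2658496557009232198748663155393561091) (nat_lit 2)) (.cons (.rf (nat_lit 166) (nat_lit 631046501229237313)) .nil))) (.cons (.br (nat_lit 16) (nat_lit 0) (.cons (.ev (nat_lit 680564774406697347915314045080232264193) (nat_lit 2)) (.cons (.rf (nat_lit 175) (nat_lit 629853464373331173)) .nil))) (.cons (.br (nat_lit 15) (nat_lit 0) (.cons (.br (nat_lit 15) (nat_lit 0) (.cons (.ev (nat_lit 1334440575362539380542908240349888768) (nat_lit 1)) .nil)) (.cons (.rf (nat_lit 168) (nat_lit 20003260026510233100716064)) .nil))) .nil)))) .nil)))) (.cons (.ev (nat_lit 79228162514264338693072420864) (nat_lit 1)) (.cons (.br (nat_lit 14) (nat_lit 0) (.cons (.br (nat_lit 13) (nat_lit 0) (.cons (.ev (nat_lit 20282720302328196668182543466496) (nat_lit 1)) (.cons (.br (nat_lit 15) (nat_lit 0) (.cons (.ev (nat_lit 2658496557009232198748663155393561091) (nat_lit 2)) (.cons (.rf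 (nat_lit 166) (nat_lit 596075434399241281)) .nil))) .nil))) (.cons (.ev (nat_lit 10384752174617776705646046155505667) (nat_lit 2)) (.cons (.br (nat_lit 15) (nat_lit 0) (.cons (.br (nat_lit 13) (nat_lit 0) (.cons (.ev (nat_lit 10425159156470108197547086127824897) (nat_lit 2)) (.cons (.rf (nat_lit 167) (nat_lit 630978331511362625)) .nil))) (.cons (.ev (nat_lit 1334420371872826862982773748485128448) (nat_lit 1)) (.cons (.br (nat_lit 13) (nat_lit 0) (.cons (.rf (nat_lit 168) (nat_lit 21172119518099119568685088)) (.cons (.br (nat_lit 13) (nat_lit 0) (.cons (.ev (nat_lit 1334440575362539380542908240349888768) (nat_lit 1)) .nil)) .nil))) .nil)))) .nil)))) (.cons (.br (nat_lit 14) (nat_lit 0) (.cons (.br (nat_lit 13) (nat_lit 0) (.cons (.ev (nat_lit 20282720302328196668182543466496) (nat_lit 1)) (.cons (.br (nat_lit 16) (nat_lit 0) (.cons (.ev (nat_lit 680564774406697347915314045080232264193) (nat_lit 2)) (.cons (.rf (nat_lit 175) (nat_lit 629853531113100353)) .nil))) (.cons (.br (nat_lit 15) (nat_lit 0) (.cons (.br (nat_lit 15) (nat_lit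 0) (.cons (.zr (nat_lit 2689609772727090063043353152759792640) (nat_lit 40724513472408193916265891495941) (nat_lit 16) (nat_lit 5)) .nil)) (.cons (.br (nat_lit 15) (nat_lit 0) (.cons (.zr (nat_lit 2689609772727090063043353152759792640) (nat_lit 40724513472408193916265891495941) (nat_lit 16) (nat_lit 5)) .nil)) .nil))) .nil)))) (.cons (.br (nat_lit 13) (nat_lit 0) (.cons (.kr (nat_lit 10384594337248600719647234259419137) (nat_lit 2658455991569845912907062733808074752) (nat_lit 0) (nat_lit 1)) (.cons (.rf (nat_lit 203) (nat_lit 19926519232773908561233952)) (.cons (.br (nat_lit 13) (nat_lit 0) (.cons (.kr (nat_lit 10384594337248600719647234259419137) (nat_lit 2658455991569845912907062733808074752) (nat_lit 0) (nat_lit 1)) (.cons (.rf (nat_lit 203) (nat_lit 19926519232773908561233952)) .nil))) .nil)))) (.cons (.ev (nat_lit 10384752174617776705646046155505667) (nat_lit 2)) (.cons (.br (nat_lit 13) (nat_lit 0) (.cons (.rf (nat_lit 204) (nat_lit 677582165103132179601393696)) (.cons (.rf (nat_lit 205) (nat_lit 677582165103132179601393696))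 (.cons (.br (nat_lit 13) (nat_lit 0) (.cons (.ev (nat_lit 10425159156470108197547086127824897) (nat_lit 2)) (.cons (.rf (nat_lit 205) (nat_lit 677582165103132179601393696)) .nil))) .nil)))) .nil))))) .nil))))) .nil))))),
 (.br (nat_lit 14) (nat_lit 0) (.cons (.ev (nat_lit 1334440575363753028729287218424709377) (nat_lit 1)) (.cons (.br (nat_lit 16) (nat_lit 0) (.cons (.ev (nat_lit 341611594995951541850543034664375877633) (nat_lit 1)) (.cons (.kr (nat_lit 10384594336039674900032605084712961) (nat_lit 680564733841878140574935312366668087296) (nat_lit 0) (nat_lit 1)) .nil))) .nil))),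
 (.br (nat_lit 16) (nat_lit 0) (.cons (.ev (nat_lit 340287579500516086971013990091092656128) (nat_lit 1)) (.cons (.ev (nat_lit 340287579500517300619199806110657675520) (nat_lit 1)) .nil))),
 (.br (nat_lit 13) (nat_lit 0) (.cons (.br (nat_lit 14) (nat_lit 0) (.cons (.ev (nat_lit 10425158537490643821891209387835393) (nat_lit 2)) (.cons (.br (nat_lit 16) (nat_lit 0) (.cons (.rf (nat_lit 208) (nat_lit 677582165103132179601393696)) .nil)) .nil))) .nil)),
 (.br (nat_lit 14) (nat_lit 0) (.cons (.zr (nat_lit 3992876284522767456161296763142012928) (nat_lit 20361637766184454127258007830786) (nat_lit 8) (nat_lit 5)) .nil)),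
 (.br (nat_lit 14) (nat_lit 0) (.cons (.kr (nat_lit 10384593718283303443439966455070721) (nat_lit 2658455992188801765450304262321995776) (nat_lit 0) (nat_lit 1)) (.cons (.ev (nat_lit 10384752793578351615370444314640387) (nat_lit 2)) (.cons (.br (nat_lit 13) (nat_lit 0) (.cons (.rf (nat_lit 167) (nat_lit 631011251187975431)) (.cons (.br (nat_lit 16) (nat_lit 0) (.cons (.kr (nat_lit 680564733841878140574935593837349830657) (nat_lit 2658455992188801765450304262305219072) (nat_lit 0) (nat_lit 2)) (.cons (.ev (nat_lit 340287579500516086971013990091092656385) (nat_lit 1)) .nil))) (.cons (.ev (nat_lit 10425158537490643821891209387835393) (nat_lit 2)) .nil)))) .nil)))),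
 (.br (nat_lit 13) (nat_lit 0) (.cons (.rf (nat_lit 211) (nat_lit 19926519232773908561233952)) (.cons (.br (nat_lit 16) (nat_lit 0) (.cons (.ev (nat_lit 680564734000953435623107524315159069187) (nat_lit 2)) (.cons (.rf (nat_lit 175) (nat_lit 628727665596406849)) .nil))) (.cons (.br (nat_lit 14) (nat_lit 0) (.cons (.br (nat_lit 14) (nat_lit 0) (.cons (.zr (nat_lit 7985752568430205837238195898044908553) (nat_lit 40724513472408194479216029466624) (nat_lit 16) (nat_lit 2)) .nil)) (.cons (.br (nat_lit 14) (nat_lit 0) (.cons (.zr (nat_lit 7985752568430205837238195898044908553) (nat_lit 40724513472408194479216029466624) (nat_lit 16) (nat_lit 2)) .nil)) .nil))) .nil))))]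

theorem c6 : chkAll C T R L6 (nat_lit 190) = true := by decide +kernel

theorem l6 : (nat_lit 190) + L6.length = (nat_lit 213) := by decide +kernel

/-- part of the certificates -/
def L7 : List Prf := [(.br (nat_lit 13) (nat_lit 0) (.cons (.rf (nat_lit 211) (nat_lit 19926519232773908561233952)) (.cons (.rf (nat_lit 212) (nat_lit 19926519232773908561233952)) (.cons (.br (nat_lit 16) (nat_lit 0) (.cons (.ev (nat_lit 680564734000953435623107524315159069187) (nat_lit 2)) (.cons (.kr (nat_lit 680564733841878140574935593837349830657) (nat_lit 2658455992188801765450304262305219072) (nat_lit 0) (nat_lit 2)) (.cons (.ev (nat_lit 680564774406697347915314045080232264193) (nat_lit 2)) .nil)))) .nil)))),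
 (.br (nat_lit 10) (nat_lit 0) (.cons (.br (nat_lit 10) (nat_lit 0) .nil) .nil)),
 (.br (nat_lit 15) (nat_lit 0) (.cons (.ev (nat_lit 2658496557009232198748100213996519937) (nat_lit 2)) (.cons (.rf (nat_lit 214) (nat_lit 631047566515213377)) .nil))),
 (.br (nat_lit 15) (nat_lit 0) (.cons (.ev (nat_lit 1334440575053059093088327520525222145) (nat_lit 1)) .nil)),
 (.br (nat_lit 14) (nat_lit 0) (.cons (.ev (nat_lit 5212658496305716002113975801086208) (nat_lit 1)) .nil)),
 (.br (nat_lit 14) (nat_lit 0) (.cons (.ev (nat_lit 1334440575054263296541177800799813888) (nat_lit 1)) (.cons (.br (nat_lit 16) (nat_lit 0) (.cons (.ev (nat_lit 341611594995951541850543034664375877633) (nat_lit 1)) (.cons (.kr (nat_lit 10384593718278581076957096809857025) (nat_lit 680564733841876931649115697737493381120) (nat_lit 0) (nat_lit 1)) .nil))) .nil))),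
 (.br (nat_lit 14) (nat_lit 0) (.cons (.br (nat_lit 14) (nat_lit 0) (.cons (.ev (nat_lit 1334440575054263296541177800799813888) (nat_lit 1)) (.cons (.rf (nat_lit 214) (nat_lit 631013481654688833)) .nil))) (.cons (.rf (nat_lit 218) (nat_lit 19926519232773908561233952)) (.cons (.br (nat_lit 14) (nat_lit 0) (.cons (.rf (nat_lit 214) (nat_lit 631013481654688833)) (.cons (.rf (nat_lit 218) (nat_lit 19926519232773908561233952)) .nil))) .nil)))),
 (.br (nat_lit 15) (nat_lit 0) (.cons (.br (nat_lit 16) (nat_lit 0) (.cons (.ev (nat_lit 88134467513743093334120490942395741963008) (nat_lit 2)) .nil)) (.cons (.kr (nat_lit 87112285931760246651346265985402307346432) (nat_lit 1329227996094400882725152129005125632) (nat_lit 9) (nat_lit 0)) .nil))),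
 (.br (nat_lit 14) (nat_lit 0) (.cons (.br (nat_lit 15) (nat_lit 0) (.cons (.kr (nat_lit 340282366920938468185741090301413425152) (nat_lit 1329227995786124798723421689455050752) (nat_lit 9) (nat_lit 0)) (.cons (.br (nat_lit 16) (nat_lit 0) (.cons (.ev (nat_lit 683233574586240337024171636487014711297) (nat_lit 2)) .nil)) .nil))) (.cons (.rf (nat_lit 220) (nat_lit 677582165103132179601393696)) .nil))),
 (.br (nat_lit 14) (nat_lit 0) (.cons (.ev (nat_lit 10384752793578351615370444314640387) (nat_lit 2)) (.cons (.br (nat_lit 13) (nat_lit 0) (.cons (.ev (nat_lit 10425158537490643821891209387835393) (nat_lit 2)) (.cons (.kr (nat_lit 10384593718278581076957096809857025) (nat_lit 680564733841876931649115697737493381120) (nat_lit 0) (nat_lit 1)) (.cons (.br (nat_lit 15) (nat_lit 0) (.cons (.ev (nat_lit 1334420372182307150437917426853150977) (nat_lit 1)) (.cons (.ev (nat_lit 1334440575053059093088327520525222145) (nat_lit 1)) .nil))) .nil)))) (.cons (.br (nat_lit 15) (nat_lit 0) (.cons (.rf (nat_lit 214) (nat_lit 631011351216696385)) (.cons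 (.br (nat_lit 13) (nat_lit 0) (.cons (.kr (nat_lit 2658455992190010691270200362178445313) (nat_lit 680564733841876941093848663476767031808) (nat_lit 0) (nat_lit 2)) (.cons (.ev (nat_lit 1334440575053059093088327520525222145) (nat_lit 1)) .nil))) (.cons (.ev (nat_lit 1334420372182307150437917426853150977) (nat_lit 1)) .nil)))) .nil)))),
 (.br (nat_lit 14) (nat_lit 0) (.cons (.rf (nat_lit 222) (nat_lit 19926519232773908561233952)) (.cons (.ev (nat_lit 2658456150027379867256199174024200707) (nat_lit 2)) (.cons (.br (nat_lit 16) (nat_lit 0) (.cons (.br (nat_lit 13) (nat_lit 0) (.cons (.ev (nat_lit 20282720302328196668182543466496) (nat_lit 1)) (.cons (.br (nat_lit 15) (nat_lit 0) (.cons (.ev (nat_lit 2658496557009232198748100213996519937) (nat_lit 2)) .nil)) .nil))) (.cons (.rf (nat_lit 214) (nat_lit 627636950034194497)) (.cons (.kr (nat_lit 10384593718278581076957096809857025) (nat_lit 680564733841876931649115697737493381120) (nat_lit 0) (nat_lit 1)) .nil)))) .nil)))),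
 (.br (nat_lit 14) (nat_lit 0) (.cons (.rf (nat_lit 222) (nat_lit 19926519232773908561233952)) (.cons (.ev (nat_lit 2658456150027379867256199174024200707) (nat_lit 2)) (.cons (.rf (nat_lit 223) (nat_lit 19926519232773908561233952)) (.cons (.br (nat_lit 14) (nat_lit 0) (.cons (.rf (nat_lit 222) (nat_lit 19926519232773908561233952)) (.cons (.ev (nat_lit 2658456150027379867256199174024200707) (nat_lit 2)) (.cons (.rf (nat_lit 223) (nat_lit 19926519232773908561233952)) .nil)))) .nil))))),
 (.br (nat_lit 13) (nat_lit 0) (.cons (.kr (nat_lit 10384593717074377623825337280364545) (nat_lit 2658455991571040671627228754047139840) (nat_lit 0) (nat_lit 1)) (.cons (.ev (nat_lit 10425158537490643821891209387835393) (nat_lit 2)) (.cons (.br (nat_lit 17) (nat_lit 0) (.cons (.ev (nat_lit 87112291124136333343965792371722046996736) (nat_lit 1)) (.cons (.ev (nat_lit 87112291144339825483779724701211551596800) (nat_lit 1)) .nil))) .nil)))),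
 (.br (nat_lit 14) (nat_lit 0) (.cons (.rf (nat_lit 225) (nat_lit 677582165103132179601393696)) (.cons (.rf (nat_lit 225) (nat_lit 676411018214288726901753888)) (.cons (.ev (nat_lit 10384752793578351615370444314640387) (nat_lit 2)) .nil)))),
 (.br (nat_lit 13) (nat_lit 0) (.cons (.rf (nat_lit 226) (nat_lit 677582165103132179601393696)) (.cons (.ev (nat_lit 20282720302328196668182543466496) (nat_lit 1)) (.cons (.br (nat_lit 17) (nat_lit 0) (.cons (.ev (nat_lit 174224571863679569801944157314516946911747) (nat_lit 2)) (.cons (.kr (nat_lit 174224571863520493297970165769409962967041) (nat_lit 2658455991571040671627228754030363136) (nat_lit 0) (nat_lit 2)) (.cons (.ev (nat_lit 174224571904085313714236363835282020106753) (nat_lit 2)) .nil)))) .nil)))),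
 (.br (nat_lit 5) (nat_lit 0) (.cons (.rf (nat_lit 162) (nat_lit 493858305440481285155)) (.cons (.rf (nat_lit 162) (nat_lit 493857213659794641955)) (.cons (.ev (nat_lit 79229376162450717671164018945) (nat_lit 1)) (.cons (.rf (nat_lit 179) (nat_lit 493858305440582043680)) (.cons (.br (nat_lit 7) (nat_lit 0) (.cons (.rf (nat_lit 100) (nat_lit 457749249396505386345)) (.cons (.rf (nat_lit 190) (nat_lit 17022140995484340291616)) (.cons (.rf (nat_lit 200) (nat_lit 17022140995484340291616)) (.cons (.rf (nat_lit 206) (nat_lit 17022140995484340291616)) (.cons (.br (nat_lit 8) (nat_lit 0) (.cons (.rf (nat_lit 190) (nat_lit 17022139903703653648416)) (.cons (.rf (nat_lit 200) (nat_lit 17022139903703653648416)) (.cons (.rf (nat_lit 206) (nat_lit 17022139903703653648416)) (.cons (.br (nat_lit 12) (nat_lit 0) (.cons (.br (nat_lit 13) (nat_lit 0) (.cons (.br (nat_lit 14) (nat_lit 0) (.cons (.kr (nat_lit 10384593718283303443439966455070721) (nat_lit 2658455992188801765450304262321995776) (nat_lit 0) (nat_lit 1)) (.cons (.br (nat_lit 15) (nat_lit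 0) (.cons (.ev (nat_lit 5379503974546721539582541669087970829) (nat_lit 4)) (.cons (.rf (nat_lit 167) (nat_lit 596108454135176257)) .nil))) .nil))) (.cons (.ev (nat_lit 2658496556390252734373007278653571587) (nat_lit 2)) (.cons (.br (nat_lit 14) (nat_lit 0) (.cons (.br (nat_lit 14) (nat_lit 0) (.cons (.ev (nat_lit 1334440575363753028729287218424709377) (nat_lit 1)) (.cons (.rf (nat_lit 166) (nat_lit 631011351247297601)) .nil))) (.cons (.rf (nat_lit 207) (nat_lit 19926519232773908561233952)) (.cons (.br (nat_lit 14) (nat_lit 0) (.cons (.rf (nat_lit 166) (nat_lit 631011351247297601)) (.cons (.rf (nat_lit 207) (nat_lit 19926519232773908561233952)) .nil))) .nil)))) .nil)))) (.cons (.ev (nat_lit 79228162514264338693072420864) (nat_lit 1)) (.cons (.br (nat_lit 13) (nat_lit 0) (.cons (.rf (nat_lit 209) (nat_lit 583706118939841765935136)) (.cons (.br (nat_lit 13) (nat_lit 0) (.cons (.rf (nat_lit 209) (nat_lit 583706118939841765935136)) (.cons (.br (nat_lit 14) (nat_lit 0) (.cons (.rf (nat_lit 210) (nat_lit 677582165103132179601393696))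 (.cons (.rf (nat_lit 210) (nat_lit 640105464695078675185502240)) .nil))) .nil))) .nil))) (.cons (.br (nat_lit 13) (nat_lit 0) (.cons (.rf (nat_lit 211) (nat_lit 19926519232773908561233952)) (.cons (.rf (nat_lit 212) (nat_lit 19926519232773908561233952)) (.cons (.rf (nat_lit 213) (nat_lit 19926519232773908561233952)) (.cons (.br (nat_lit 13) (nat_lit 0) (.cons (.rf (nat_lit 211) (nat_lit 19926519232773908561233952)) (.cons (.rf (nat_lit 212) (nat_lit 19926519232773908561233952)) (.cons (.rf (nat_lit 213) (nat_lit 19926519232773908561233952)) .nil)))) .nil))))) .nil))))) (.cons (.br (nat_lit 12) (nat_lit 0) (.cons (.br (nat_lit 13) (nat_lit 0) (.cons (.br (nat_lit 14) (nat_lit 0) (.cons (.rf (nat_lit 215) (nat_lit 19926519232773908561233952)) (.cons (.rf (nat_lit 215) (nat_lit 18755372343930455861594144)) (.cons (.br (nat_lit 15) (nat_lit 0) (.cons (.rf (nat_lit 216) (nat_lit 677582165103132179601393696)) (.cons (.rf (nat_lit 217) (nat_lit 21174442659472880612509728)) .nil))) .nil)))) (.cons (.rf (nat_lit 219) (nat_lit 19926519232773908561233952))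 (.cons (.rf (nat_lit 219) (nat_lit 18755372343930455861594144)) (.cons (.br (nat_lit 14) (nat_lit 0) (.cons (.rf (nat_lit 221) (nat_lit 677582165103132179601393696)) (.cons (.rf (nat_lit 221) (nat_lit 676411018214288726901753888)) (.cons (.br (nat_lit 14) (nat_lit 0) (.cons (.rf (nat_lit 220) (nat_lit 677582165103132179601393696)) (.cons (.rf (nat_lit 220) (nat_lit 676411018214288726901753888)) .nil))) .nil)))) .nil))))) (.cons (.ev (nat_lit 79228162514264338693072420864) (nat_lit 1)) (.cons (.rf (nat_lit 224) (nat_lit 19926519232773908561233952)) (.cons (.rf (nat_lit 224) (nat_lit 18755372343930455861594144)) (.cons (.br (nat_lit 13) (nat_lit 0) (.cons (.rf (nat_lit 226) (nat_lit 677582165103132179601393696)) (.cons (.rf (nat_lit 227) (nat_lit 677582165103132179601393696)) (.cons (.rf (nat_lit 227) (nat_lit 676411018214288726901753888)) (.cons (.br (nat_lit 13) (nat_lit 0) (.cons (.rf (nat_lit 226) (nat_lit 677582165103132179601393696)) (.cons (.rf (nat_lit 227) (nat_lit 677582165103132179601393696)) (.cons (.rf (nat_lit 227)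 (nat_lit 676411018214288726901753888)) .nil)))) .nil))))) .nil)))))) .nil)))))) .nil)))))) .nil)))))),
 (.br (nat_lit 14) (nat_lit 0) (.cons (.br (nat_lit 15) (nat_lit 0) (.cons (.kr (nat_lit 2658455991571040671627510224728883201) (nat_lit 10384593717074377623543866598621696) (nat_lit 0) (nat_lit 2)) (.cons (.rf (nat_lit 180) (nat_lit 631045402823853218)) .nil))) .nil)),
 (.br (nat_lit 15) (nat_lit 0) (.cons (.ev (nat_lit 1344825406767737523151559287940252419) (nat_lit 2)) .nil)),
 (.br (nat_lit 8) (nat_lit 0) (.cons (.ev (nat_lit 79229376162450436191892340993) (nat_lit 1)) (.cons (.br (nat_lit 12) (nat_lit 0) (.cons (.ev (nat_lit 41040808375538527644168856403969) (nat_lit 3)) (.cons (.br (nat_lit 14) (nat_lit 0) (.cons (.rf (nat_lit 229) (nat_lit 583706118939841765935136)) (.cons (.br (nat_lit 14) (nat_lit 0) (.cons (.rf (nat_lit 229) (nat_lit 583706118939841765935136)) (.cons (.br (nat_lit 15) (nat_lit 0) (.cons (.rf (nat_lit 230) (nat_lit 677582165103132179601393696)) (.cons (.rf (nat_lit 230) (nat_lit 640105464695078675185502240))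 .nil))) .nil))) .nil))) .nil))) .nil))),
 (.br (nat_lit 15) (nat_lit 0) (.cons (.br (nat_lit 16) (nat_lit 0) (.cons (.zr (nat_lit 5327337300133488608698481100883886089) (nat_lit 522673715590563336789802327055933275898880) (nat_lit 16) (nat_lit 2)) .nil)) .nil)),
 (.br (nat_lit 12) (nat_lit 0) (.cons (.ev (nat_lit 20520407217167361879267973726466) (nat_lit 2)) (.cons (.br (nat_lit 14) (nat_lit 0) (.cons (.ev (nat_lit 10425159156470108197547086127825411) (nat_lit 2)) (.cons (.ev (nat_lit 10384752174617776705646046121951233) (nat_lit 2)) (.cons (.br (nat_lit 15) (nat_lit 0) (.cons (.rf (nat_lit 232) (nat_lit 677582165103132179601393696)) (.cons (.br (nat_lit 15) (nat_lit 0) (.cons (.rf (nat_lit 232) (nat_lit 677582165103132179601393696)) .nil)) .nil))) .nil)))) .nil))),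
 (.br (nat_lit 15) (nat_lit 0) (.cons (.kr (nat_lit 1329227995784920595270289929925558272) (nat_lit 5192296859743753448145125503926272) (nat_lit 9) (nat_lit 0)) (.cons (.ev (nat_lit 1334420371871613214796957728936886528) (nat_lit 1)) .nil))),
 (.br (nat_lit 14) (nat_lit 0) (.cons (.rf (nat_lit 234) (nat_lit 677582165103132179601393696)) (.cons (.rf (nat_lit 234) (nat_lit 640105464695078675185502240)) .nil))),
 (.br (nat_lit 14) (nat_lit 0) (.cons (.rf (nat_lit 235) (nat_lit 677582165103132179601393696)) (.cons (.br (nat_lit 16) (nat_lit 0) (.cons (.br (nat_lit 15) (nat_lit 0) (.cons (.ev (nat_lit 1334440575363753028729287218424709120) (nat_lit 1)) .nil)) (.cons (.kr (nat_lit 340282366920938463463374607431768211456) (nat_lit 87112285931760246646623899502532662132736) (nat_lit 16) (nat_lit 0)) .nil))) .nil))),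
 (.br (nat_lit 7) (nat_lit 0) (.cons (.ev (nat_lit 20282720302328196949661815144448) (nat_lit 1)) (.cons (.rf (nat_lit 231) (nat_lit 493858305440582043680)) (.cons (.br (nat_lit 8) (nat_lit 0) (.cons (.rf (nat_lit 231) (nat_lit 493857213659895400480)) (.cons (.ev (nat_lit 20282719088680010852162995224576) (nat_lit 1)) (.cons (.br (nat_lit 12) (nat_lit 0) (.cons (.rf (nat_lit 233) (nat_lit 583706118939841765935136)) (.cons (.rf (nat_lit 233) (nat_lit 547107777605821328885792)) (.cons (.br (nat_lit 12) (nat_lit 0) (.cons (.rf (nat_lit 233) (nat_lit 583706118939841765935136)) (.cons (.rf (nat_lit 233) (nat_lit 547107777605821328885792)) (.cons (.br (nat_lit 14) (nat_lit 0) (.cons (.rf (nat_lit 235) (nat_lit 677582165103132179601393696)) (.cons (.rf (nat_lit 236) (nat_lit 677582165103132179601393696)) (.cons (.rf (nat_lit 236) (nat_lit 640105464695078675185502240)) .nil)))) .nil)))) .nil)))) .nil)))) .nil))))]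

theorem c7 : chkAll C T R L7 (nat_lit 213) = true := by decide +kernel

theorem l7 : (nat_lit 213) + L7.length = (nat_lit 238) := by decide +kernel

/-- part of the certificates -/
def L8 : List Prf := [(.br (nat_lit 16) (nat_lit 0) (.cons (.ev (nat_lit 20282720302328196668182543466753) (nat_lit 1)) (.cons (.ev (nat_lit 1334420372181102946984504188035203073) (nat_lit 1)) (.cons (.kr (nat_lit 2658455992188801765450585733003739137) (nat_lit 680564733841878140574935312366651310592) (nat_lit 0) (nat_lit 2)) .nil)))),
 (.br (nat_lit 10) (nat_lit 0) (.cons (.br (nat_lit 10) (nat_lit 0) .nil) .nil)),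
 (.br (nat_lit 14) (nat_lit 0) (.cons (.br (nat_lit 15) (nat_lit 0) (.cons (.kr (nat_lit 10384593718278581076957096809857025) (nat_lit 2658455991569836468174096994517647360) (nat_lit 0) (nat_lit 1)) (.cons (.rf (nat_lit 239) (nat_lit 631047566515213377)) .nil))) .nil)),
 (.br (nat_lit 15) (nat_lit 0) (.cons (.ev (nat_lit 1344865813749589854644023269276057859) (nat_lit 2)) .nil)),
 (.br (nat_lit 14) (nat_lit 0) (.cons (.br (nat_lit 16) (nat_lit 0) (.cons (.zr (nat_lit 2679265902280717073414962225252270080) (nat_lit 522673715590562717819782683802845755475461) (nat_lit 16) (nat_lit 5)) .nil)) .nil)),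
 (.br (nat_lit 13) (nat_lit 0) (.cons (.ev (nat_lit 20520097717990441085590330081282) (nat_lit 2)) (.cons (.ev (nat_lit 20282720302328196668182543466753) (nat_lit 1)) (.cons (.br (nat_lit 15) (nat_lit 0) (.cons (.ev (nat_lit 2658456150646340442165360630853402627) (nat_lit 2)) (.cons (.ev (nat_lit 2658496557009232198748663155393560577) (nat_lit 2)) (.cons (.br (nat_lit 14) (nat_lit 0) (.cons (.rf (nat_lit 242) (nat_lit 677582165103132179601393696)) (.cons (.br (nat_lit 14) (nat_lit 0) (.cons (.rf (nat_lit 242) (nat_lit 677582165103132179601393696)) .nil)) .nil))) .nil)))) .nil)))),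
 (.br (nat_lit 14) (nat_lit 0) (.cons (.br (nat_lit 15) (nat_lit 0) (.cons (.zr (nat_lit 680585543752590230105995792226577416192) (nat_lit 522673715590563336789802326492983205037573) (nat_lit 16) (nat_lit 5)) .nil)) .nil)),
 (.br (nat_lit 16) (nat_lit 0) (.cons (.kr (nat_lit 5192296858534827628530496329220352) (nat_lit 340282366920938463463374607431784988672) (nat_lit 1) (nat_lit 0)) (.cons (.ev (nat_lit 340287579500516086971013990091092656128) (nat_lit 1)) .nil))),
 (.br (nat_lit 14) (nat_lit 0) (.cons (.rf (nat_lit 245) (nat_lit 677582165103132179601393696)) (.cons (.br (nat_lit 17) (nat_lit 0) (.cons (.kr (nat_lit 87112285931760247855549719117161836838912) (nat_lit 1329227996094400882725152129005125632) (nat_lit 10) (nat_lit 0)) (.cons (.rf (nat_lit 238) (nat_lit 561601988766418366487666025)) .nil))) .nil))),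
 (.br (nat_lit 14) (nat_lit 0) (.cons (.rf (nat_lit 245) (nat_lit 677582165103132179601393696)) (.cons (.br (nat_lit 16) (nat_lit 0) (.cons (.ev (nat_lit 340287579500516086971013990091092656128) (nat_lit 1)) (.cons (.kr (nat_lit 5192296858534827628530496329220352) (nat_lit 340282366920938463463374607431784988672) (nat_lit 1) (nat_lit 0)) .nil))) .nil))),
 (.br (nat_lit 8) (nat_lit 0) (.cons (.rf (nat_lit 237) (nat_lit 457749249396505386345)) (.cons (.ev (nat_lit 20282410812596009121723461927168) (nat_lit 1)) (.cons (.br (nat_lit 12) (nat_lit 0) (.cons (.ev (nat_lit 41040808375538527644168889959937) (nat_lit 3)) (.cons (.ev (nat_lit 79538856449905579870226809088) (nat_lit 1)) (.cons (.br (nat_lit 13) (nat_lit 0) (.cons (.ev (nat_lit 20282720302328196668182543466753) (nat_lit 1)) (.cons (.ev (nat_lit 20520097717990441085590330081282) (nat_lit 2)) (.cons (.br (nat_lit 14) (nat_lit 0) (.cons (.ev (nat_lit 10384752793578351614807502917599747) (nat_lit 2)) (.cons (.ev (nat_lit 10425159156470108198110027457757697) (nat_lit 2)) (.cons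 (.br (nat_lit 15) (nat_lit 0) (.cons (.br (nat_lit 15) (nat_lit 0) (.cons (.rf (nat_lit 238) (nat_lit 677582165103132179601393696)) .nil)) (.cons (.br (nat_lit 15) (nat_lit 0) (.cons (.rf (nat_lit 238) (nat_lit 677582165103132179601393696)) .nil)) .nil))) .nil)))) .nil)))) .nil)))) (.cons (.br (nat_lit 12) (nat_lit 0) (.cons (.br (nat_lit 14) (nat_lit 0) (.cons (.rf (nat_lit 240) (nat_lit 583706118939841765935136)) (.cons (.br (nat_lit 14) (nat_lit 0) (.cons (.rf (nat_lit 240) (nat_lit 583706118939841765935136)) (.cons (.br (nat_lit 15) (nat_lit 0) (.cons (.rf (nat_lit 241) (nat_lit 677582165103132179601393696)) (.cons (.rf (nat_lit 241) (nat_lit 640105464695078675185502240)) .nil))) .nil))) .nil))) (.cons (.ev (nat_lit 79538856449905579870226809088) (nat_lit 1)) (.cons (.rf (nat_lit 243) (nat_lit 583706118939841765935136)) (.cons (.br (nat_lit 13) (nat_lit 0) (.cons (.rf (nat_lit 243) (nat_lit 547071669641557938871657)) (.cons (.ev (nat_lit 20282719088680010852163012002048) (nat_lit 1)) (.cons (.br (nat_lit 16) (nat_lit 0) (.cons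 (.ev (nat_lit 680564734000334475048197799916999933953) (nat_lit 2)) (.cons (.ev (nat_lit 680564774406697347915314045080232263683) (nat_lit 2)) (.cons (.br (nat_lit 14) (nat_lit 0) (.cons (.rf (nat_lit 244) (nat_lit 677582165103132179601393696)) (.cons (.br (nat_lit 14) (nat_lit 0) (.cons (.rf (nat_lit 244) (nat_lit 677582165103132179601393696)) .nil)) .nil))) .nil)))) (.cons (.br (nat_lit 14) (nat_lit 0) (.cons (.rf (nat_lit 246) (nat_lit 677582165103132179601393696)) (.cons (.rf (nat_lit 247) (nat_lit 677582165103132179601393696)) (.cons (.br (nat_lit 14) (nat_lit 0) (.cons (.rf (nat_lit 246) (nat_lit 677582165103132179601393696)) (.cons (.rf (nat_lit 247) (nat_lit 677582165103132179601393696)) .nil))) .nil)))) .nil))))) .nil))))) .nil))))),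
 (.br (nat_lit 14) (nat_lit 0) (.cons (.ev (nat_lit 5212579577628229933527555171745793) (nat_lit 1)) (.cons (.rf (nat_lit 180) (nat_lit 593855418214877381)) .nil))),
 (.br (nat_lit 16) (nat_lit 0) (.cons (.ev (nat_lit 79229376162450717671147241728) (nat_lit 1)) (.cons (.ev (nat_lit 1334440575362539380542908240333111553) (nat_lit 1)) (.cons (.kr (nat_lit 680564733841878135852569110967704616961) (nat_lit 2658455991569836468174096994500870656) (nat_lit 0) (nat_lit 2)) .nil)))),
 (.br (nat_lit 12) (nat_lit 0) (.cons (.ev (nat_lit 79229376162450717671147241728) (nat_lit 1)) (.cons (.ev (nat_lit 20520407217167361879267990503426) (nat_lit 2)) (.cons (.br (nat_lit 14) (nat_lit 0) (.cons (.ev (nat_lit 10425159156470108197547086127825411) (nat_lit 2)) (.cons (.ev (nat_lit 10384752174617776705646046155506177) (nat_lit 2)) (.cons (.br (nat_lit 15) (nat_lit 0) (.cons (.br (nat_lit 15) (nat_lit 0) (.cons (.rf (nat_lit 250) (nat_lit 677582165103132179601393696)) .nil)) (.cons (.br (nat_lit 15) (nat_lit 0) (.cons (.rf (nat_lit 250) (nat_lit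 677582165103132179601393696)) .nil)) .nil))) .nil)))) .nil)))),
 (.br (nat_lit 14) (nat_lit 0) (.cons (.ev (nat_lit 5212658497509919455245735330578433) (nat_lit 1)) (.cons (.rf (nat_lit 167) (nat_lit 593854353361635524)) .nil))),
 (.br (nat_lit 13) (nat_lit 0) (.cons (.ev (nat_lit 79229376162450717671147241728) (nat_lit 1)) (.cons (.ev (nat_lit 10425159156470108197547086127825411) (nat_lit 2)) (.cons (.br (nat_lit 12) (nat_lit 0) (.cons (.rf (nat_lit 252) (nat_lit 622703726024184642504736)) (.cons (.br (nat_lit 16) (nat_lit 0) (.cons (.ev (nat_lit 340287579500207810887011978172287680513) (nat_lit 1)) (.cons (.rf (nat_lit 175) (nat_lit 629818347814425954)) .nil))) (.cons (.br (nat_lit 15) (nat_lit 0) (.cons (.br (nat_lit 15) (nat_lit 0) (.cons (.zr (nat_lit 2689609773960189676683792024202117120) (nat_lit 40723275546536006858700021171201) (nat_lit 16) (nat_lit 5)) .nil)) (.cons (.br (nat_lit 15) (nat_lit 0) (.cons (.zr (nat_lit 2689609773960189676683792024202117120) (nat_lit 40723275546536006858700021171201) (nat_lit 16) (nat_lit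 5)) .nil)) .nil))) .nil)))) .nil)))),
 (.br (nat_lit 13) (nat_lit 0) (.cons (.ev (nat_lit 20361638975091754658748770091008) (nat_lit 1)) (.cons (.rf (nat_lit 239) (nat_lit 556663370305275042)) .nil))),
 (.br (nat_lit 14) (nat_lit 0) (.cons (.ev (nat_lit 1329228075322563397061829895370375168) (nat_lit 1)) .nil)),
 (.br (nat_lit 12) (nat_lit 0) (.cons (.ev (nat_lit 20520407217167361879267990503426) (nat_lit 2)) (.cons (.rf (nat_lit 253) (nat_lit 583706118939841765935136)) (.cons (.br (nat_lit 13) (nat_lit 0) (.cons (.rf (nat_lit 254) (nat_lit 19459491435985810589728)) (.cons (.br (nat_lit 14) (nat_lit 0) (.cons (.ev (nat_lit 1334420371871613214796957728953663488) (nat_lit 1)) (.cons (.rf (nat_lit 167) (nat_lit 596040251090408802)) .nil))) (.cons (.ev (nat_lit 121852915160697850410062835746309) (nat_lit 3)) (.cons (.br (nat_lit 14) (nat_lit 0) (.cons (.kr (nat_lit 5192296859743753448145125503926528) (nat_lit 1329227995784920595270289929942335488) (nat_lit 1) (nat_lit 0)) (.cons (.br (nat_lit 15) (nat_lit 0) (.cons (.ev (nat_lit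 680564734000953435623107524315159068673) (nat_lit 2)) (.cons (.rf (nat_lit 255) (nat_lit 661701333108527519141953)) .nil))) (.cons (.br (nat_lit 15) (nat_lit 0) (.cons (.br (nat_lit 16) (nat_lit 0) (.cons (.ev (nat_lit 340287559297334650537455304559523069953) (nat_lit 1)) .nil)) (.cons (.ev (nat_lit 174224571904085313714236363835282020106243) (nat_lit 2)) .nil))) .nil)))) .nil))))) .nil)))),
 (.br (nat_lit 15) (nat_lit 0) (.cons (.zr (nat_lit 1344804886362938207428627824830841088) (nat_lit 20361947251194275472326732611586) (nat_lit 8) (nat_lit 5)) .nil)),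
 (.br (nat_lit 16) (nat_lit 0) (.cons (.ev (nat_lit 341611615199134191932287536215510483200) (nat_lit 1)) (.cons (.ev (nat_lit 680564734000953435623107524315159068673) (nat_lit 2)) .nil))),
 (.br (nat_lit 15) (nat_lit 0) (.cons (.ev (nat_lit 340282387203658761069132736250140229633) (nat_lit 1)) .nil)),
 (.br (nat_lit 14) (nat_lit 0) (.cons (.br (nat_lit 15) (nat_lit 0) (.cons (.ev (nat_lit 2658496557009232198748663155393560577) (nat_lit 2)) (.cons (.rf (nat_lit 259) (nat_lit 21174442659472880577906720)) .nil))) (.cons (.kr (nat_lit 5192297168019837449875565054001408) (nat_lit 340282366920938468185741090301430202368) (nat_lit 1) (nat_lit 0)) (.cons (.br (nat_lit 16) (nat_lit 0) (.cons (.br (nat_lit 15) (nat_lit 0) (.cons (.ev (nat_lit 1334440575362539380542908240349888513) (nat_lit 1)) .nil)) (.cons (.ev (nat_lit 174224571863679569801944157314516946911233) (nat_lit 2)) .nil))) .nil)))),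
 (.br (nat_lit 8) (nat_lit 0) (.cons (.rf (nat_lit 248) (nat_lit 17022139903703653648416)) (.cons (.rf (nat_lit 228) (nat_lit 457749249396471800170)) (.cons (.br (nat_lit 12) (nat_lit 0) (.cons (.ev (nat_lit 20282720302328196668182543466753) (nat_lit 1)) (.cons (.br (nat_lit 12) (nat_lit 0) (.cons (.ev (nat_lit 20282720302328196668182543466753) (nat_lit 1)) (.cons (.br (nat_lit 13) (nat_lit 0) (.cons (.rf (nat_lit 249) (nat_lit 622703726024184607901728)) (.cons (.rf (nat_lit 249) (nat_lit 586105385781944857495584)) (.cons (.br (nat_lit 15) (nat_lit 0) (.cons (.br (nat_lit 15) (nat_lit 0) (.cons (.zr (nat_lit 2689609773958980750864177403583791104) (nat_lit 40723276746017094070539858870275) (nat_lit 16) (nat_lit 5)) .nil)) (.cons (.br (nat_lit 15) (nat_lit 0) (.cons (.zr (nat_lit 2689609773958980750864177403583791104) (nat_lit 40723276746017094070539858870275) (nat_lit 16) (nat_lit 5)) .nil)) .nil))) .nil)))) .nil))) .nil))) (.cons (.br (nat_lit 12) (nat_lit 0) (.cons (.rf (nat_lit 251) (nat_lit 583706118939841765935136)) (.cons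 (.rf (nat_lit 253) (nat_lit 583706118939841765935136)) (.cons (.rf (nat_lit 256) (nat_lit 583706118939841765935136)) (.cons (.br (nat_lit 12) (nat_lit 0) (.cons (.rf (nat_lit 251) (nat_lit 583706118939841765935136)) (.cons (.rf (nat_lit 253) (nat_lit 583706118939841765935136)) (.cons (.rf (nat_lit 256) (nat_lit 583706118939841765935136)) (.cons (.br (nat_lit 13) (nat_lit 0) (.cons (.br (nat_lit 15) (nat_lit 0) (.cons (.rf (nat_lit 257) (nat_lit 677582165103132179601393696)) (.cons (.rf (nat_lit 257) (nat_lit 640105464695078675185502240)) .nil))) (.cons (.br (nat_lit 14) (nat_lit 0) (.cons (.kr (nat_lit 10384594337248600719647234259419137) (nat_lit 2658455991569845912907062733808074752) (nat_lit 0) (nat_lit 1)) (.cons (.rf (nat_lit 258) (nat_lit 677582165103132179601393696)) (.cons (.rf (nat_lit 258) (nat_lit 640105464695078675185502240)) .nil)))) (.cons (.rf (nat_lit 260) (nat_lit 677582165103132179601393696)) (.cons (.rf (nat_lit 260) (nat_lit 640105464695078675185502240)) .nil))))) .nil))))) .nil))))) .nil))))),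
 (.br (nat_lit 10) (nat_lit 0) (.cons (.ev (nat_lit 20361638975091754658748770091008) (nat_lit 1)) (.cons (.rf (nat_lit 166) (nat_lit 556560050598092066)) .nil))),
 (.br (nat_lit 12) (nat_lit 0) (.cons (.ev (nat_lit 1334420371871613214796957728953663488) (nat_lit 1)) (.cons (.br (nat_lit 16) (nat_lit 0) (.cons (.ev (nat_lit 341611615199443681664475364153880477952) (nat_lit 1)) (.cons (.ev (nat_lit 680564734000953435623107524315159068673) (nat_lit 2)) .nil))) .nil))),
 (.br (nat_lit 12) (nat_lit 0) (.cons (.ev (nat_lit 2658456150646340442165360630853402627) (nat_lit 2)) (.cons (.br (nat_lit 14) (nat_lit 0) (.cons (.ev (nat_lit 20891040349300008364532048219734533) (nat_lit 3)) (.cons (.kr (nat_lit 10384594336039674900032605084712961) (nat_lit 680564733841878140574935312366668087296) (nat_lit 0) (nat_lit 1)) (.cons (.br (nat_lit 15) (nat_lit 0) (.cons (.kr (nat_lit 680564733841878140574935593837349830657) (nat_lit 2658455992188801765450304262305219072) (nat_lit 0) (nat_lit 2)) (.cons (.ev (nat_lit 5337803023488963499980886206360715777)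 (nat_lit 3)) .nil))) .nil)))) (.cons (.br (nat_lit 14) (nat_lit 0) (.cons (.kr (nat_lit 5192296858534827628811971305930753) (nat_lit 1329227995784915872903807064575312128) (nat_lit 0) (nat_lit 2)) (.cons (.br (nat_lit 16) (nat_lit 0) (.cons (.ev (nat_lit 683233614991984249316379283134814880257) (nat_lit 2)) (.cons (.ev (nat_lit 340287559297026374453453855599261450240) (nat_lit 1)) .nil))) (.cons (.br (nat_lit 17) (nat_lit 0) (.cons (.ev (nat_lit 174227240704264856703345221426688802554371) (nat_lit 2)) (.cons (.ev (nat_lit 87112291144339824270131538885191986577408) (nat_lit 1)) .nil))) .nil)))) .nil)))),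
 (.br (nat_lit 12) (nat_lit 0) (.cons (.ev (nat_lit 2658456150646340442165360630853402627) (nat_lit 2)) (.cons (.br (nat_lit 16) (nat_lit 0) (.cons (.ev (nat_lit 341611594995952755498728850683940897025) (nat_lit 1)) (.cons (.rf (nat_lit 175) (nat_lit 628692482297732450)) .nil))) (.cons (.br (nat_lit 14) (nat_lit 0) (.cons (.br (nat_lit 14) (nat_lit 0) (.cons (.zr (nat_lit 7985752569664504931965283659455397888) (nat_lit 40723276746017094070539858871299) (nat_lit 16) (nat_lit 5)) .nil)) (.cons (.br (nat_lit 14) (nat_lit 0) (.cons (.zr (nat_lit 7985752569664504931965283659455397888) (nat_lit 40723276746017094070539858871299) (nat_lit 16) (nat_lit 5)) .nil)) .nil))) .nil))))]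

theorem c8 : chkAll C T R L8 (nat_lit 238) = true := by decide +kernel

theorem l8 : (nat_lit 238) + L8.length = (nat_lit 266) := by decide +kernel

/-- part of the certificates -/
def L9 : List Prf := [(.br (nat_lit 16) (nat_lit 0) (.cons (.zr (nat_lit 2041704586119356312916243415362390982661) (nat_lit 40723894516555649267366788989952) (nat_lit 16) (nat_lit 8)) (.cons (.ev (nat_lit 340287559297025160805267476621153075201) (nat_lit 1)) (.cons (.ev (nat_lit 174224571863679569801944157314516946911233) (nat_lit 2)) .nil)))),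
 (.br (nat_lit 12) (nat_lit 0) (.cons (.rf (nat_lit 264) (nat_lit 19926519232773908561233952)) (.cons (.rf (nat_lit 265) (nat_lit 19926519232773908561233952)) (.cons (.br (nat_lit 15) (nat_lit 0) (.cons (.br (nat_lit 14) (nat_lit 0) (.cons (.ev (nat_lit 1334440575363753028729287218424709120) (nat_lit 1)) (.cons (.rf (nat_lit 266) (nat_lit 677582165103132179601393696)) .nil))) (.cons (.kr (nat_lit 680564733841878140574935593837349830657) (nat_lit 2658455992188801765450304262305219072) (nat_lit 0) (nat_lit 2)) (.cons (.br (nat_lit 16) (nat_lit 0) (.cons (.br (nat_lit 14) (nat_lit 0) (.cons (.ev (nat_lit 10384752793578351615370444314640897) (nat_lit 2)) .nil)) (.cons (.ev (nat_lit 87113615180038750651176813880276666024193) (nat_lit 1)) .nil))) .nil)))) .nil)))),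
 (.br (nat_lit 14) (nat_lit 0) (.cons (.br (nat_lit 16) (nat_lit 0) (.cons (.zr (nat_lit 2679265902283134925054191483601682432) (nat_lit 522673715590563336789802326492983205037573) (nat_lit 16) (nat_lit 5)) .nil)) .nil)),
 (.br (nat_lit 15) (nat_lit 0) (.cons (.ev (nat_lit 2658456150027379867256199174024200193) (nat_lit 2)) (.cons (.ev (nat_lit 2658496557009232198748100213996519427) (nat_lit 2)) (.cons (.br (nat_lit 14) (nat_lit 0) (.cons (.rf (nat_lit 268) (nat_lit 677582165103132179601393696)) (.cons (.br (nat_lit 14) (nat_lit 0) (.cons (.rf (nat_lit 268) (nat_lit 677582165103132179601393696)) .nil)) .nil))) .nil)))),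
 (.br (nat_lit 17) (nat_lit 0) (.cons (.kr (nat_lit 5192296858534827628530496329220352) (nat_lit 87112285931760246646623899502532678909952) (nat_lit 1) (nat_lit 0)) (.cons (.ev (nat_lit 87112291144339824270131538885191986577408) (nat_lit 1)) .nil))),
 (.br (nat_lit 14) (nat_lit 0) (.cons (.br (nat_lit 15) (nat_lit 0) (.cons (.kr (nat_lit 340282366920938468185741090301413425152) (nat_lit 1329227995786124798723421689455050752) (nat_lit 9) (nat_lit 0)) (.cons (.rf (nat_lit 250) (nat_lit 562736573421892062140270624)) .nil))) (.cons (.rf (nat_lit 270) (nat_lit 677582165103132179601393696)) .nil))),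
 (.br (nat_lit 12) (nat_lit 0) (.cons (.ev (nat_lit 79229376162450717671147241728) (nat_lit 1)) (.cons (.rf (nat_lit 269) (nat_lit 19926519232773908561233952)) (.cons (.rf (nat_lit 269) (nat_lit 18755372343930455861594144)) (.cons (.br (nat_lit 14) (nat_lit 0) (.cons (.rf (nat_lit 271) (nat_lit 677582165103132179601393696)) (.cons (.rf (nat_lit 271) (nat_lit 676411018214288726901753888)) (.cons (.br (nat_lit 14) (nat_lit 0) (.cons (.rf (nat_lit 270) (nat_lit 677582165103132179601393696)) (.cons (.rf (nat_lit 270) (nat_lit 676411018214288726901753888)) .nil))) .nil)))) .nil))))),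
 (.br (nat_lit 15) (nat_lit 0) (.cons (.ev (nat_lit 2658456150027379867256199174024200193) (nat_lit 2)) (.cons (.kr (nat_lit 10384593717074377623825337280364545) (nat_lit 2658455991571040671627228754047139840) (nat_lit 0) (nat_lit 1)) (.cons (.br (nat_lit 13) (nat_lit 0) (.cons (.ev (nat_lit 1334440575053059093088327520525221888) (nat_lit 1)) (.cons (.kr (nat_lit 2658455992190010691270200362178445313) (nat_lit 680564733841876941093848663476767031808) (nat_lit 0) (nat_lit 2)) (.cons (.br (nat_lit 16) (nat_lit 0) (.cons (.ev (nat_lit 340287559297335854740908436319052562433) (nat_lit 1)) (.cons (.ev (nat_lit 680564774407316327379690263898369294337) (nat_lit 2)) .nil))) .nil)))) (.cons (.br (nat_lit 13) (nat_lit 0) (.cons (.rf (nat_lit 214) (nat_lit 631045402724107618)) (.cons (.br (nat_lit 14) (nat_lit 0) (.cons (.ev (nat_lit 20891040349300008364532048219734533) (nat_lit 3)) (.cons (.br (nat_lit 16) (nat_lit 0) (.cons (.ev (nat_lit 1361150358725341112790615399445792162305) (nat_lit 3)) .nil)) .nil))) (.cons (.br (nat_lit 17) (nat_lit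 0) (.cons (.ev (nat_lit 87112291124136333343965792371722046996481) (nat_lit 1)) (.cons (.ev (nat_lit 174224571904085313714236363835282020106243) (nat_lit 2)) .nil))) .nil)))) .nil))))),
 (.br (nat_lit 14) (nat_lit 0) (.cons (.kr (nat_lit 5192297168019837450157040030711809) (nat_lit 1329227995786124798723421693750018304) (nat_lit 0) (nat_lit 2)) (.cons (.br (nat_lit 16) (nat_lit 0) (.cons (.ev (nat_lit 683233614991984249316379283134814880257) (nat_lit 2)) (.cons (.ev (nat_lit 340287559297335854740908436319052562433) (nat_lit 1)) .nil))) (.cons (.br (nat_lit 17) (nat_lit 0) (.cons (.ev (nat_lit 174227240704264237742770312265232040460801) (nat_lit 2)) (.cons (.ev (nat_lit 87112291144339825483779724701211551596545) (nat_lit 1)) .nil))) .nil)))),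
 (.br (nat_lit 15) (nat_lit 0) (.cons (.br (nat_lit 16) (nat_lit 0) (.cons (.ev (nat_lit 680564774407316327379690263898369294337) (nat_lit 2)) .nil)) (.cons (.ev (nat_lit 1334420372182307150437917426853150720) (nat_lit 1)) .nil))),
 (.br (nat_lit 12) (nat_lit 0) (.cons (.ev (nat_lit 79229376162450717671147241728) (nat_lit 1)) (.cons (.rf (nat_lit 273) (nat_lit 19926519232773908561233952)) (.cons (.rf (nat_lit 273) (nat_lit 18755372343930455861594144)) (.cons (.br (nat_lit 13) (nat_lit 0) (.cons (.br (nat_lit 15) (nat_lit 0) (.cons (.br (nat_lit 15) (nat_lit 0) (.cons (.zr (nat_lit 2689609772724672211404123877297618944) (nat_lit 40723894502388550100228535092225) (nat_lit 16) (nat_lit 5)) .nil)) (.cons (.br (nat_lit 15) (nat_lit 0) (.cons (.zr (nat_lit 2689609772724672211404123877297618944) (nat_lit 40723894502388550100228535092225) (nat_lit 16) (nat_lit 5)) .nil)) .nil))) (.cons (.rf (nat_lit 274) (nat_lit 677582165103132179601393696)) (.cons (.rf (nat_lit 274) (nat_lit 676411018214288726901753888)) (.cons (.br (nat_lit 14) (nat_lit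 0) (.cons (.rf (nat_lit 275) (nat_lit 677582165103132179601393696)) (.cons (.rf (nat_lit 275) (nat_lit 676411018214288726901753888)) (.cons (.kr (nat_lit 10384594336039674900032605084712961) (nat_lit 174224571863520494506895985102568455929856) (nat_lit 0) (nat_lit 1)) .nil)))) .nil))))) .nil))))),
 (.br (nat_lit 14) (nat_lit 0) (.cons (.ev (nat_lit 5212579269347405118851651538583808) (nat_lit 1)) (.cons (.rf (nat_lit 214) (nat_lit 554446789220238626)) .nil))),
 (.br (nat_lit 14) (nat_lit 0) (.cons (.ev (nat_lit 121852915160697850410062835746309) (nat_lit 3)) (.cons (.ev (nat_lit 10384752793578351615370444314640897) (nat_lit 2)) (.cons (.br (nat_lit 16) (nat_lit 0) (.cons (.ev (nat_lit 341611594995951541850543034664375877888) (nat_lit 1)) (.cons (.ev (nat_lit 340287559297334650537455586038811525120) (nat_lit 1)) .nil))) .nil)))),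
 (.br (nat_lit 16) (nat_lit 0) (.cons (.kr (nat_lit 2658455992190010691270200362178445313) (nat_lit 680564733841876941093848663476767031808) (nat_lit 0) (nat_lit 2)) (.cons (.ev (nat_lit 1334420372182307150437917426853150720) (nat_lit 1)) (.cons (.ev (nat_lit 87113615159835570418946708889463169286400) (nat_lit 1)) .nil)))),
 (.br (nat_lit 12) (nat_lit 0) (.cons (.rf (nat_lit 272) (nat_lit 19926519232773908561233952)) (.cons (.rf (nat_lit 276) (nat_lit 19926519232773908561233952)) (.cons (.br (nat_lit 13) (nat_lit 0) (.cons (.ev (nat_lit 121852915160697850410062835746309) (nat_lit 3)) (.cons (.rf (nat_lit 277) (nat_lit 19459491435985810589728)) (.cons (.rf (nat_lit 277) (nat_lit 18315793302350666500128)) (.cons (.br (nat_lit 15) (nat_lit 0) (.cons (.rf (nat_lit 278) (nat_lit 19926519232773908561233952)) (.cons (.kr (nat_lit 340282366920938468185741090301413425152) (nat_lit 1329227995786124798723421689455050752) (nat_lit 9) (nat_lit 0)) (.cons (.br (nat_lit 16) (nat_lit 0) (.cons (.rf (nat_lit 278) (nat_lit 18755372343930455861594144))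 (.cons (.ev (nat_lit 174224571904085313714236363835282020106243) (nat_lit 2)) .nil))) .nil)))) .nil))))) (.cons (.br (nat_lit 13) (nat_lit 0) (.cons (.br (nat_lit 14) (nat_lit 0) (.cons (.kr (nat_lit 5192296858539549995013365974434048) (nat_lit 1329227996094400882725152129021902848) (nat_lit 1) (nat_lit 0)) (.cons (.br (nat_lit 15) (nat_lit 0) (.cons (.ev (nat_lit 680564774407316327379690263898369294337) (nat_lit 2)) (.cons (.br (nat_lit 16) (nat_lit 0) (.cons (.ev (nat_lit 341611615199442468016288985175772102913) (nat_lit 1)) .nil)) .nil))) (.cons (.br (nat_lit 15) (nat_lit 0) (.cons (.rf (nat_lit 279) (nat_lit 677582165103132179601393696)) (.cons (.ev (nat_lit 174224571863679569801944157314516946911233) (nat_lit 2)) .nil))) .nil)))) (.cons (.br (nat_lit 14) (nat_lit 0) (.cons (.br (nat_lit 14) (nat_lit 0) (.cons (.zr (nat_lit 7985752568426597949246690816757334021) (nat_lit 40723898129166008662645377467392) (nat_lit 16) (nat_lit 7)) .nil)) (.cons (.br (nat_lit 14) (nat_lit 0) (.cons (.zr (nat_lit 7985752568426597949246690816757334021)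 (nat_lit 40723898129166008662645377467392) (nat_lit 16) (nat_lit 7)) .nil)) .nil))) (.cons (.br (nat_lit 15) (nat_lit 0) (.cons (.br (nat_lit 14) (nat_lit 0) (.cons (.ev (nat_lit 340287579500207810887012259651542581248) (nat_lit 1)) (.cons (.ev (nat_lit 10384752793578351615370444314640897) (nat_lit 2)) .nil))) (.cons (.kr (nat_lit 2658455992190010691270200362178445313) (nat_lit 680564733841876941093848663476767031808) (nat_lit 0) (nat_lit 2)) (.cons (.br (nat_lit 17) (nat_lit 0) (.cons (.ev (nat_lit 174224571863679569801944157314516946911233) (nat_lit 2)) (.cons (.ev (nat_lit 87452568318963594718479829818449074323713) (nat_lit 1)) .nil))) .nil)))) (.cons (.br (nat_lit 15) (nat_lit 0) (.cons (.br (nat_lit 14) (nat_lit 0) (.cons (.rf (nat_lit 266) (nat_lit 601457617398181718069970976)) (.cons (.ev (nat_lit 10384752793578351615370444314640897) (nat_lit 2)) .nil))) (.cons (.br (nat_lit 17) (nat_lit 0) (.cons (.rf (nat_lit 279) (nat_lit 677582165103132179601393696)) (.cons (.ev (nat_lit 680564774407316327379690263898369294337) (nat_lit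 2)) .nil))) (.cons (.kr (nat_lit 87112285931760246651346265985402307346432) (nat_lit 1329227996094400882725152129005125632) (nat_lit 9) (nat_lit 0)) .nil)))) .nil))))) .nil))))),
 (.br (nat_lit 5) (nat_lit 0) (.cons (.rf (nat_lit 162) (nat_lit 493858305440481285155)) (.cons (.rf (nat_lit 162) (nat_lit 493857213659794641955)) (.cons (.rf (nat_lit 228) (nat_lit 493858305440481285155)) (.cons (.rf (nat_lit 237) (nat_lit 493858305440582043680)) (.cons (.br (nat_lit 7) (nat_lit 0) (.cons (.rf (nat_lit 100) (nat_lit 457749249396505386345)) (.cons (.rf (nat_lit 248) (nat_lit 17022140995484340291616)) (.cons (.rf (nat_lit 228) (nat_lit 457749249396505386345)) (.cons (.rf (nat_lit 261) (nat_lit 17022140995484340291616)) (.cons (.br (nat_lit 8) (nat_lit 0) (.cons (.rf (nat_lit 248) (nat_lit 17022139903703653648416)) (.cons (.rf (nat_lit 228) (nat_lit 457749249396471800170)) (.cons (.rf (nat_lit 261) (nat_lit 17022139903703653648416)) (.cons (.br (nat_lit 13) (nat_lit 0) (.cons (.ev (nat_lit 20282719088680010852163012002048) (nat_lit 1))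 (.cons (.br (nat_lit 14) (nat_lit 0) (.cons (.ev (nat_lit 10425158537490643821891209387835907) (nat_lit 2)) (.cons (.kr (nat_lit 10384593718283303443439966455070721) (nat_lit 2658455992188801765450304262321995776) (nat_lit 0) (nat_lit 1)) (.cons (.br (nat_lit 12) (nat_lit 0) (.cons (.rf (nat_lit 262) (nat_lit 19459491435985810589728)) (.cons (.rf (nat_lit 263) (nat_lit 19926519232773908561233952)) (.cons (.br (nat_lit 12) (nat_lit 0) (.cons (.rf (nat_lit 166) (nat_lit 630942083084098914)) (.cons (.rf (nat_lit 263) (nat_lit 19926519232773908561233952)) .nil))) .nil)))) .nil)))) (.cons (.ev (nat_lit 2658496556390252734373007278653571073) (nat_lit 2)) (.cons (.br (nat_lit 12) (nat_lit 0) (.cons (.rf (nat_lit 264) (nat_lit 19926519232773908561233952)) (.cons (.rf (nat_lit 265) (nat_lit 19926519232773908561233952)) (.cons (.rf (nat_lit 267) (nat_lit 19926519232773908561233952)) (.cons (.br (nat_lit 12) (nat_lit 0) (.cons (.rf (nat_lit 264) (nat_lit 19926519232773908561233952)) (.cons (.rf (nat_lit 265) (nat_lit 19926519232773908561233952))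 (.cons (.rf (nat_lit 267) (nat_lit 19926519232773908561233952)) .nil)))) .nil))))) .nil))))) (.cons (.br (nat_lit 12) (nat_lit 0) (.cons (.rf (nat_lit 272) (nat_lit 19926519232773908561233952)) (.cons (.rf (nat_lit 276) (nat_lit 19926519232773908561233952)) (.cons (.rf (nat_lit 280) (nat_lit 19926519232773908561233952)) (.cons (.rf (nat_lit 280) (nat_lit 18755372343930455861594144)) (.cons (.br (nat_lit 12) (nat_lit 0) (.cons (.rf (nat_lit 272) (nat_lit 19926519232773908561233952)) (.cons (.rf (nat_lit 276) (nat_lit 19926519232773908561233952)) (.cons (.rf (nat_lit 280) (nat_lit 19926519232773908561233952)) (.cons (.rf (nat_lit 280) (nat_lit 18755372343930455861594144)) .nil))))) .nil)))))) .nil)))))) .nil)))))) .nil)))))),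
 (.br (nat_lit 13) (nat_lit 0) (.cons (.ev (nat_lit 5192376396182351786553331419250688) (nat_lit 1)) (.cons (.br (nat_lit 13) (nat_lit 0) (.cons (.ev (nat_lit 5192376396182351786553331419250688) (nat_lit 1)) .nil)) .nil))),
 (.br (nat_lit 13) (nat_lit 0) (.cons (.ev (nat_lit 10425159156470108197547086127825411) (nat_lit 2)) (.cons (.br (nat_lit 12) (nat_lit 0) (.cons (.br (nat_lit 15) (nat_lit 0) (.cons (.ev (nat_lit 1334440575362539380542908240349888513) (nat_lit 1)) (.cons (.br (nat_lit 16) (nat_lit 0) (.cons (.br (nat_lit 16) (nat_lit 0) .nil) .nil)) .nil))) (.cons (.rf (nat_lit 282) (nat_lit 19459491438255770079297)) (.cons (.br (nat_lit 15) (nat_lit 0) (.cons (.br (nat_lit 15) (nat_lit 0) (.cons (.zr (nat_lit 2689609773959004362698562046498178048) (nat_lit 40723283994849644431033233440769) (nat_lit 16) (nat_lit 7)) .nil)) (.cons (.br (nat_lit 15) (nat_lit 0) (.cons (.zr (nat_lit 2689609773959004362698562046498178048) (nat_lit 40723283994849644431033233440769) (nat_lit 16) (nat_lit 7)) .nil)) .nil))) .nil)))) .nil))),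
 (.br (nat_lit 10) (nat_lit 0) (.cons (.br (nat_lit 10) (nat_lit 0) .nil) .nil)),
 (.br (nat_lit 15) (nat_lit 0) (.cons (.ev (nat_lit 1334420292954149358539781223682736385) (nat_lit 1)) .nil)),
 (.br (nat_lit 12) (nat_lit 0) (.cons (.rf (nat_lit 283) (nat_lit 583706118939841765935136)) (.cons (.br (nat_lit 15) (nat_lit 0) (.cons (.br (nat_lit 13) (nat_lit 0) (.cons (.ev (nat_lit 7985793608615979856298386066434819075) (nat_lit 3)) (.cons (.rf (nat_lit 284) (nat_lit 631047566515213377)) .nil))) (.cons (.ev (nat_lit 2658456150027379867255636232694267907) (nat_lit 2)) (.cons (.br (nat_lit 13) (nat_lit 0) (.cons (.rf (nat_lit 285) (nat_lit 21174442659472880577906720)) (.cons (.br (nat_lit 13) (nat_lit 0) (.cons (.rf (nat_lit 285) (nat_lit 21174442659472880577906720)) .nil)) .nil))) .nil)))) .nil))),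
 (.br (nat_lit 16) (nat_lit 0) (.cons (.ev (nat_lit 20282720302328196668182543466496) (nat_lit 1)) (.cons (.kr (nat_lit 680564733841878140574935312366668087297) (nat_lit 10384594336039674900032605084713472) (nat_lit 0) (nat_lit 2)) (.cons (.kr (nat_lit 680564733841878135852569110967704616961) (nat_lit 2658455991569836468174096994500870656) (nat_lit 0) (nat_lit 2)) (.cons (.ev (nat_lit 680564734000953435623107524315159068673) (nat_lit 2)) .nil)))))]

theorem c9 : chkAll C T R L9 (nat_lit 266) = true := by decide +kernel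

theorem l9 : (nat_lit 266) + L9.length = (nat_lit 288) := by decide +kernel

/-- part of the certificates -/
def L10 : List Prf := [(.br (nat_lit 13) (nat_lit 0) (.cons (.rf (nat_lit 287) (nat_lit 677582165103132179601393696)) (.cons (.br (nat_lit 16) (nat_lit 0) (.cons (.br (nat_lit 15) (nat_lit 0) (.cons (.ev (nat_lit 1334440575362539380542908240349888513) (nat_lit 1)) .nil)) (.cons (.ev (nat_lit 680564734000953435623107524315159068673) (nat_lit 2)) .nil))) .nil))),
 (.br (nat_lit 8) (nat_lit 0) (.cons (.rf (nat_lit 281) (nat_lit 457749249396471800170)) (.cons (.rf (nat_lit 228) (nat_lit 457749249396471800170)) (.cons (.br (nat_lit 12) (nat_lit 0) (.cons (.rf (nat_lit 283) (nat_lit 583706118939841765935136)) (.cons (.rf (nat_lit 286) (nat_lit 583706118939841765935136)) (.cons (.br (nat_lit 12) (nat_lit 0) (.cons (.rf (nat_lit 283) (nat_lit 583706118939841765935136)) (.cons (.rf (nat_lit 286) (nat_lit 583706118939841765935136)) (.cons (.br (nat_lit 13) (nat_lit 0) (.cons (.br (nat_lit 13) (nat_lit 0) (.cons (.rf (nat_lit 287)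 (nat_lit 677582165103132179601393696)) (.cons (.rf (nat_lit 287) (nat_lit 640105464695078675185502240)) .nil))) (.cons (.rf (nat_lit 288) (nat_lit 677582165103132179601393696)) (.cons (.rf (nat_lit 288) (nat_lit 640105464695078675185502240)) .nil)))) .nil)))) .nil)))) .nil)))),
 (.br (nat_lit 13) (nat_lit 0) (.cons (.ev (nat_lit 2689650814148376825015602689861878787) (nat_lit 3)) (.cons (.rf (nat_lit 287) (nat_lit 677545530653833895774330217)) .nil))),
 (.br (nat_lit 12) (nat_lit 0) (.cons (.ev (nat_lit 10384752793578351615370444314640387) (nat_lit 2)) (.cons (.ev (nat_lit 1334420371872826862982773748485128448) (nat_lit 1)) (.cons (.br (nat_lit 13) (nat_lit 0) (.cons (.br (nat_lit 13) (nat_lit 0) (.cons (.ev (nat_lit 2689650814148376825015602689861878787) (nat_lit 3)) (.cons (.rf (nat_lit 166) (nat_lit 630975069517028514)) .nil))) (.cons (.rf (nat_lit 290) (nat_lit 19926519232773908561233952)) (.cons (.br (nat_lit 13) (nat_lit 0) (.cons (.rf (nat_lit 166) (nat_lit 630975069517028514)) (.cons (.rf (nat_lit 290) (nat_lit 19926519232773908561233952))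 .nil))) .nil)))) .nil)))),
 (.br (nat_lit 12) (nat_lit 0) (.cons (.ev (nat_lit 7985793609853901006117834862753088515) (nat_lit 3)) (.cons (.br (nat_lit 16) (nat_lit 0) (.cons (.kr (nat_lit 680564733841878140574935593837349830657) (nat_lit 2658455992188801765450304262305219072) (nat_lit 0) (nat_lit 2)) (.cons (.ev (nat_lit 680564734000953435623107524315159068673) (nat_lit 2)) .nil))) .nil))),
 (.br (nat_lit 13) (nat_lit 0) (.cons (.ev (nat_lit 10425158537490643821891209387835907) (nat_lit 2)) (.cons (.ev (nat_lit 1334440575363753028729287218424709120) (nat_lit 1)) (.cons (.br (nat_lit 12) (nat_lit 0) (.cons (.br (nat_lit 12) (nat_lit 0) (.cons (.ev (nat_lit 7985793609853901006117834862753088515) (nat_lit 3)) (.cons (.rf (nat_lit 166) (nat_lit 630940984646409378)) .nil))) (.cons (.rf (nat_lit 292) (nat_lit 19926519232773908561233952)) (.cons (.br (nat_lit 12) (nat_lit 0) (.cons (.rf (nat_lit 166) (nat_lit 630940984646409378)) (.cons (.rf (nat_lit 292) (nat_lit 19926519232773908561233952)) .nil))) .nil)))) .nil)))),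
 (.br (nat_lit 12) (nat_lit 0) (.cons (.ev (nat_lit 683233574586240337024171636487014711297) (nat_lit 2)) (.cons (.br (nat_lit 13) (nat_lit 0) (.cons (.ev (nat_lit 683233614991984249316379283134814880257) (nat_lit 2)) (.cons (.ev (nat_lit 5337803023488963499980886206360715267) (nat_lit 3)) .nil))) .nil))),
 (.br (nat_lit 14) (nat_lit 0) (.cons (.ev (nat_lit 1329248278195728450394128215489708288) (nat_lit 1)) .nil)),
 (.br (nat_lit 13) (nat_lit 0) (.cons (.ev (nat_lit 20282719093383858252985132974336) (nat_lit 1)) .nil)),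
 (.br (nat_lit 12) (nat_lit 0) (.cons (.br (nat_lit 13) (nat_lit 0) (.cons (.kr (nat_lit 680564733841878140574935312366668087297) (nat_lit 10384594336039674900032605084713472) (nat_lit 0) (nat_lit 2)) (.cons (.rf (nat_lit 295) (nat_lit 661701333106257559652384)) .nil))) (.cons (.br (nat_lit 13) (nat_lit 0) (.cons (.rf (nat_lit 296) (nat_lit 20678166659570514102304)) (.cons (.kr (nat_lit 174224571863520494506895985384039137673217) (nat_lit 2658455992188801765450304262305219072) (nat_lit 0) (nat_lit 2)) .nil))) .nil))),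
 (.br (nat_lit 12) (nat_lit 0) (.cons (.rf (nat_lit 297) (nat_lit 677582165103132179601393696)) (.cons (.br (nat_lit 13) (nat_lit 0) (.cons (.kr (nat_lit 680564733841878140574935312366668087297) (nat_lit 10384594336039674900032605084713472) (nat_lit 0) (nat_lit 2)) (.cons (.kr (nat_lit 174224571863520494506895985384039137673217) (nat_lit 2658455992188801765450304262305219072) (nat_lit 0) (nat_lit 2)) .nil))) .nil))),
 (.br (nat_lit 15) (nat_lit 0) (.cons (.ev (nat_lit 2658456150027379867256199174024200193) (nat_lit 2)) (.cons (.kr (nat_lit 2658455991571040671627228754047139841) (nat_lit 10384593717074377623825337280365056) (nat_lit 0) (nat_lit 2)) (.cons (.br (nat_lit 13) (nat_lit 0) (.cons (.ev (nat_lit 1334440575053059093088327520525221888) (nat_lit 1)) (.cons (.kr (nat_lit 2658455992190010691270200362178445313) (nat_lit 680564733841876941093848663476767031808) (nat_lit 0) (nat_lit 2)) (.cons (.br (nat_lit 16) (nat_lit 0) (.cons (.ev (nat_lit 340287559297335854740908436319052562688) (nat_lit 1)) (.cons (.ev (nat_lit 680564774407316327379690263898369294851)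 (nat_lit 2)) .nil))) .nil)))) (.cons (.br (nat_lit 13) (nat_lit 0) (.cons (.rf (nat_lit 214) (nat_lit 631045369639437474)) (.cons (.br (nat_lit 14) (nat_lit 0) (.cons (.ev (nat_lit 20891040349300008364532048219734023) (nat_lit 3)) (.cons (.br (nat_lit 16) (nat_lit 0) (.cons (.ev (nat_lit 1361150358725341112790615399445792161795) (nat_lit 3)) .nil)) .nil))) (.cons (.br (nat_lit 17) (nat_lit 0) (.cons (.ev (nat_lit 87112291124136333343965792371722046996736) (nat_lit 1)) (.cons (.ev (nat_lit 174224571904085313714236363835282020106753) (nat_lit 2)) .nil))) .nil)))) .nil))))),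
 (.br (nat_lit 14) (nat_lit 0) (.cons (.kr (nat_lit 1329227995786124798723421693750018048) (nat_lit 5192297168019837450157040030711808) (nat_lit 4) (nat_lit 0)) (.cons (.br (nat_lit 16) (nat_lit 0) (.cons (.ev (nat_lit 683233614991984249316379283134814880257) (nat_lit 2)) (.cons (.ev (nat_lit 340287559297335854740908436319052562688) (nat_lit 1)) .nil))) (.cons (.br (nat_lit 17) (nat_lit 0) (.cons (.ev (nat_lit 174227240704264237742770312265232040460291) (nat_lit 2)) (.cons (.ev (nat_lit 87112291144339825483779724701211551596545) (nat_lit 1)) .nil))) .nil)))),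
 (.br (nat_lit 15) (nat_lit 0) (.cons (.br (nat_lit 16) (nat_lit 0) (.cons (.ev (nat_lit 680564774407316327379690263898369294851) (nat_lit 2)) .nil)) (.cons (.ev (nat_lit 1334420372182307150437917426853150977) (nat_lit 1)) .nil))),
 (.br (nat_lit 12) (nat_lit 0) (.cons (.ev (nat_lit 10384752793578351615370444314640387) (nat_lit 2)) (.cons (.rf (nat_lit 299) (nat_lit 19926519232773908561233952)) (.cons (.rf (nat_lit 299) (nat_lit 18755372343930455861594144)) (.cons (.br (nat_lit 13) (nat_lit 0) (.cons (.br (nat_lit 15) (nat_lit 0) (.cons (.br (nat_lit 15) (nat_lit 0) (.cons (.zr (nat_lit 2689609772724672211404123877180179463) (nat_lit 40723894502388550100228686086144) (nat_lit 16) (nat_lit 2)) .nil)) (.cons (.br (nat_lit 15) (nat_lit 0) (.cons (.zr (nat_lit 2689609772724672211404123877180179463) (nat_lit 40723894502388550100228686086144) (nat_lit 16) (nat_lit 2)) .nil)) .nil))) (.cons (.rf (nat_lit 300) (nat_lit 677582165103132179601393696)) (.cons (.rf (nat_lit 300) (nat_lit 676411018214288726901753888)) (.cons (.br (nat_lit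 14) (nat_lit 0) (.cons (.rf (nat_lit 301) (nat_lit 677582165103132179601393696)) (.cons (.rf (nat_lit 301) (nat_lit 676411018214288726901753888)) (.cons (.kr (nat_lit 174224571863520494506895985102568455929857) (nat_lit 10384594336039674900032605084713472) (nat_lit 0) (nat_lit 2)) .nil)))) .nil))))) .nil))))),
 (.br (nat_lit 15) (nat_lit 0) (.cons (.ev (nat_lit 79229376162450717671147241728) (nat_lit 1)) (.cons (.kr (nat_lit 2658455991571040671627228754030362625) (nat_lit 10384593717074377623825337297141760) (nat_lit 0) (nat_lit 1)) (.cons (.kr (nat_lit 2658455992190010691270200362178445313) (nat_lit 680564733841876941093848663476767031808) (nat_lit 0) (nat_lit 2)) (.cons (.ev (nat_lit 2658496557009232198748100213996519937) (nat_lit 2)) .nil))))),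
 (.br (nat_lit 13) (nat_lit 0) (.cons (.ev (nat_lit 1334420372181102946984504188035203328) (nat_lit 1)) (.cons (.br (nat_lit 13) (nat_lit 0) (.cons (.ev (nat_lit 20282720302328196668182543466496) (nat_lit 1)) (.cons (.rf (nat_lit 303) (nat_lit 677582165103132179601393696)) .nil))) (.cons (.br (nat_lit 13) (nat_lit 0) (.cons (.ev (nat_lit 1334420372181102946984504188035203328) (nat_lit 1)) (.cons (.rf (nat_lit 303) (nat_lit 677582165103132179601393696)) .nil))) .nil)))),
 (.br (nat_lit 17) (nat_lit 0) (.cons (.ev (nat_lit 79229376162450717671147241728) (nat_lit 1)) (.cons (.kr (nat_lit 174224571863520494506895985102568439152641) (nat_lit 10384594336039674900032605101490176) (nat_lit 0) (nat_lit 1)) (.cons (.kr (nat_lit 174224571863520493297970165769409962967041) (nat_lit 2658455991571040671627228754030363136) (nat_lit 0) (nat_lit 2)) (.cons (.ev (nat_lit 174224571904085313714236363835282020106753) (nat_lit 2)) .nil))))),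
 (.br (nat_lit 13) (nat_lit 0) (.cons (.ev (nat_lit 20282720302328196668182543466496) (nat_lit 1)) (.cons (.rf (nat_lit 305) (nat_lit 677582165103132179601393696)) .nil))),
 (.br (nat_lit 12) (nat_lit 0) (.cons (.ev (nat_lit 10384752793578351615370444314640387) (nat_lit 2)) (.cons (.rf (nat_lit 304) (nat_lit 19926519232773908561233952)) (.cons (.rf (nat_lit 304) (nat_lit 18755372343930455861594144)) (.cons (.br (nat_lit 13) (nat_lit 0) (.cons (.rf (nat_lit 306) (nat_lit 677582165103132179601393696)) (.cons (.rf (nat_lit 306) (nat_lit 676411018214288726901753888)) (.cons (.br (nat_lit 13) (nat_lit 0) (.cons (.rf (nat_lit 305) (nat_lit 677582165103132179601393696)) (.cons (.rf (nat_lit 305) (nat_lit 676411018214288726901753888)) .nil))) .nil)))) .nil))))),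
 (.br (nat_lit 16) (nat_lit 0) (.cons (.ev (nat_lit 2658496557009232198748100213996519937) (nat_lit 2)) (.cons (.kr (nat_lit 680564733841876931649115697737493381121) (nat_lit 10384593718278581076957096809857536) (nat_lit 0) (nat_lit 2)) (.cons (.ev (nat_lit 341611594995951541850543034664375877888) (nat_lit 1)) .nil)))),
 (.br (nat_lit 13) (nat_lit 0) (.cons (.ev (nat_lit 2689731626255199763270794516726154245) (nat_lit 3)) (.cons (.ev (nat_lit 20282720302328196668182543466496) (nat_lit 1)) (.cons (.br (nat_lit 16) (nat_lit 0) (.cons (.kr (nat_lit 680564733841876931649115697737493381121) (nat_lit 10384593718278581076957096809857536) (nat_lit 0) (nat_lit 2)) (.cons (.ev (nat_lit 680564774407316327379690263898369294851) (nat_lit 2)) .nil))) .nil)))),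
 (.br (nat_lit 12) (nat_lit 0) (.cons (.rf (nat_lit 302) (nat_lit 19926519232773908561233952)) (.cons (.rf (nat_lit 307) (nat_lit 19926519232773908561233952)) (.cons (.br (nat_lit 14) (nat_lit 0) (.cons (.br (nat_lit 13) (nat_lit 0) (.cons (.ev (nat_lit 2689731626255199763270794516726154245) (nat_lit 3)) (.cons (.ev (nat_lit 2041704627161394184902784224447001134083) (nat_lit 3)) (.cons (.br (nat_lit 15) (nat_lit 0) (.cons (.ev (nat_lit 2658456150027379867256199174024200193) (nat_lit 2)) (.cons (.rf (nat_lit 308) (nat_lit 677582165103132179601393696)) .nil))) .nil)))) (.cons (.kr (nat_lit 2658455991571040671627228754047139841) (nat_lit 10384593717074377623825337280365056) (nat_lit 0) (nat_lit 2)) (.cons (.kr (nat_lit 680564733841876931649115697737493381121) (nat_lit 10384593718278581076957096809857536) (nat_lit 0) (nat_lit 2)) (.cons (.br (nat_lit 15) (nat_lit 0) (.cons (.rf (nat_lit 309) (nat_lit 19926519232773908561233952)) (.cons (.ev (nat_lit 2658456150027379867256199174024200193) (nat_lit 2)) (.cons (.br (nat_lit 13) (nat_lit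 0) (.cons (.rf (nat_lit 309) (nat_lit 18755372343930455861594144)) (.cons (.rf (nat_lit 308) (nat_lit 677582165103132179601393696)) .nil))) .nil)))) .nil))))) (.cons (.br (nat_lit 15) (nat_lit 0) (.cons (.br (nat_lit 13) (nat_lit 0) (.cons (.rf (nat_lit 214) (nat_lit 630943115057863842)) (.cons (.ev (nat_lit 20282720302328196668182543466496) (nat_lit 1)) (.cons (.br (nat_lit 17) (nat_lit 0) (.cons (.kr (nat_lit 174224571863520494506895985102568455929857) (nat_lit 10384594336039674900032605084713472) (nat_lit 0) (nat_lit 2)) (.cons (.ev (nat_lit 174224571904085313714236363835282020106753) (nat_lit 2)) .nil))) .nil)))) (.cons (.kr (nat_lit 2658455991571040671627228754047139841) (nat_lit 10384593717074377623825337280365056) (nat_lit 0) (nat_lit 2)) (.cons (.br (nat_lit 16) (nat_lit 0) (.cons (.kr (nat_lit 2658455992190010691270200362178445313) (nat_lit 680564733841876941093848663476767031808) (nat_lit 0) (nat_lit 2)) (.cons (.rf (nat_lit 214) (nat_lit 627565518319033506)) (.cons (.br (nat_lit 13) (nat_lit 0) (.cons (.rf (nat_lit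 208) (nat_lit 640068830245780391324852586)) (.cons (.ev (nat_lit 87113615159835569214743255476224384893185) (nat_lit 1)) .nil))) .nil)))) (.cons (.ev (nat_lit 2658456150027379867256199174024200193) (nat_lit 2)) .nil))))) .nil))))),
 (.br (nat_lit 7) (nat_lit 0) (.cons (.rf (nat_lit 100) (nat_lit 457749249396505386345)) (.cons (.rf (nat_lit 281) (nat_lit 457749249396505386345)) (.cons (.rf (nat_lit 228) (nat_lit 457749249396505386345)) (.cons (.rf (nat_lit 289) (nat_lit 17022140995484340291616)) (.cons (.br (nat_lit 8) (nat_lit 0) (.cons (.rf (nat_lit 281) (nat_lit 457749249396471800170)) (.cons (.rf (nat_lit 228) (nat_lit 457749249396471800170)) (.cons (.rf (nat_lit 289) (nat_lit 17022139903703653648416)) (.cons (.br (nat_lit 14) (nat_lit 0) (.cons (.rf (nat_lit 291) (nat_lit 583706118939841765935136)) (.cons (.rf (nat_lit 293) (nat_lit 583706118939841765935136)) (.cons (.kr (nat_lit 1329227995784915872903807064575311872) (nat_lit 5192296858534827628811971305930752) (nat_lit 4) (nat_lit 0)) (.cons (.br (nat_lit 15) (nat_lit 0)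 (.cons (.rf (nat_lit 293) (nat_lit 547071669641557938871657)) (.cons (.rf (nat_lit 291) (nat_lit 547071669641557938871657)) (.cons (.br (nat_lit 12) (nat_lit 0) (.cons (.rf (nat_lit 294) (nat_lit 19926519232773908561233952)) (.cons (.br (nat_lit 12) (nat_lit 0) (.cons (.ev (nat_lit 683233574586240337024171636487014711297) (nat_lit 2)) (.cons (.rf (nat_lit 172) (nat_lit 627566583470922914)) .nil))) (.cons (.br (nat_lit 12) (nat_lit 0) (.cons (.rf (nat_lit 294) (nat_lit 19926519232773908561233952)) (.cons (.rf (nat_lit 172) (nat_lit 627566583470922914)) .nil))) .nil)))) (.cons (.br (nat_lit 12) (nat_lit 0) (.cons (.rf (nat_lit 297) (nat_lit 677582165103132179601393696)) (.cons (.rf (nat_lit 298) (nat_lit 677582165103132179601393696)) (.cons (.br (nat_lit 12) (nat_lit 0) (.cons (.rf (nat_lit 297) (nat_lit 677582165103132179601393696)) (.cons (.rf (nat_lit 298) (nat_lit 677582165103132179601393696)) .nil))) .nil)))) .nil))))) .nil))))) (.cons (.br (nat_lit 12) (nat_lit 0) (.cons (.rf (nat_lit 302) (nat_lit 19926519232773908561233952))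 (.cons (.rf (nat_lit 307) (nat_lit 19926519232773908561233952)) (.cons (.rf (nat_lit 310) (nat_lit 19926519232773908561233952)) (.cons (.rf (nat_lit 310) (nat_lit 18755372343930455861594144)) (.cons (.br (nat_lit 12) (nat_lit 0) (.cons (.rf (nat_lit 302) (nat_lit 19926519232773908561233952)) (.cons (.rf (nat_lit 307) (nat_lit 19926519232773908561233952)) (.cons (.rf (nat_lit 310) (nat_lit 19926519232773908561233952)) (.cons (.rf (nat_lit 310) (nat_lit 18755372343930455861594144)) .nil))))) .nil)))))) .nil)))))) .nil))))))]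

theorem c10 : chkAll C T R L10 (nat_lit 288) = true := by decide +kernel

theorem l10 : (nat_lit 288) + L10.length = (nat_lit 312) := by decide +kernel

/-- part of the certificates -/
def L11 : List Prf := [(.br (nat_lit 15) (nat_lit 0) (.cons (.ev (nat_lit 1334420292954149358539781223665958913) (nat_lit 1)) .nil)),
 (.br (nat_lit 12) (nat_lit 0) (.cons (.rf (nat_lit 312) (nat_lit 19926519232773908561233952)) (.cons (.br (nat_lit 12) (nat_lit 0) (.cons (.rf (nat_lit 312) (nat_lit 19926519232773908561233952)) .nil)) .nil))),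
 (.br (nat_lit 12) (nat_lit 0) (.cons (.br (nat_lit 15) (nat_lit 0) (.cons (.ev (nat_lit 10425159156470108197547086094270467) (nat_lit 2)) (.cons (.rf (nat_lit 252) (nat_lit 620344845244863954818083)) .nil))) (.cons (.ev (nat_lit 79229376162450717671147241728) (nat_lit 1)) (.cons (.br (nat_lit 15) (nat_lit 0) (.cons (.br (nat_lit 13) (nat_lit 0) (.cons (.ev (nat_lit 7985793608615979856298386066501926915) (nat_lit 3)) (.cons (.rf (nat_lit 166) (nat_lit 630975069517026530)) .nil))) (.cons (.ev (nat_lit 2658456150027379867255636232660713987) (nat_lit 2)) (.cons (.rf (nat_lit 313) (nat_lit 21174442659472880577906720)) .nil)))) .nil)))),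
 (.br (nat_lit 12) (nat_lit 0) (.cons (.ev (nat_lit 680564734000953435623107524315159068673) (nat_lit 2)) (.cons (.br (nat_lit 13) (nat_lit 0) (.cons (.ev (nat_lit 680564774406697347915314045080232264193) (nat_lit 2)) (.cons (.ev (nat_lit 121852915160697850410062835744771) (nat_lit 3)) .nil))) .nil))),
 (.br (nat_lit 16) (nat_lit 0) (.cons (.kr (nat_lit 340282366920938468185741090301413425153) (nat_lit 5192297168019837449875565054001408) (nat_lit 0) (nat_lit 2)) (.cons (.ev (nat_lit 341611594996261031582730862602762649600) (nat_lit 1)) .nil))),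
 (.br (nat_lit 12) (nat_lit 0) (.cons (.rf (nat_lit 316) (nat_lit 677582165103132179601393696)) (.cons (.ev (nat_lit 1334420371871613214796957728953663745) (nat_lit 1)) .nil))),
 (.br (nat_lit 13) (nat_lit 0) (.cons (.ev (nat_lit 20361947251175828446782341316608) (nat_lit 1)) (.cons (.rf (nat_lit 214) (nat_lit 556664401934001313)) .nil))),
 (.br (nat_lit 13) (nat_lit 0) (.cons (.rf (nat_lit 318) (nat_lit 19459491438255770079297)) (.cons (.ev (nat_lit 10425159156470108197547086094270467) (nat_lit 2)) (.cons (.br (nat_lit 15) (nat_lit 0) (.cons (.br (nat_lit 15) (nat_lit 0) (.cons (.zr (nat_lit 1344804886980699301251703324482207748) (nat_lit 20361637775629186530047378391296) (nat_lit 8) (nat_lit 2)) .nil)) (.cons (.br (nat_lit 15) (nat_lit 0) (.cons (.zr (nat_lit 1344804886980699301251703324482207748) (nat_lit 20361637775629186530047378391296) (nat_lit 8) (nat_lit 2)) .nil)) .nil))) .nil)))),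
 (.br (nat_lit 16) (nat_lit 0) (.cons (.ev (nat_lit 121852915160697850410062835744771) (nat_lit 3)) (.cons (.ev (nat_lit 340287579500517300619200087589929353472) (nat_lit 1)) .nil))),
 (.br (nat_lit 14) (nat_lit 0) (.cons (.ev (nat_lit 10384752174617776705646046121951747) (nat_lit 2)) (.cons (.kr (nat_lit 2658455991569836468174378465182613507) (nat_lit 10384593718278581076675626144891392) (nat_lit 0) (nat_lit 2)) (.cons (.br (nat_lit 13) (nat_lit 0) (.cons (.ev (nat_lit 1334440575053059093088327520525221888) (nat_lit 1)) (.cons (.kr (nat_lit 680564733841876941093848663476767031297) (nat_lit 10384594337248600719647234276196352) (nat_lit 0) (nat_lit 1)) (.cons (.br (nat_lit 16) (nat_lit 0) (.cons (.ev (nat_lit 341611594996262235786183712883003686913) (nat_lit 1)) (.cons (.ev (nat_lit 680564774407316327379690263898369294851) (nat_lit 2)) .nil))) .nil)))) (.cons (.br (nat_lit 13) (nat_lit 0) (.cons (.br (nat_lit 16) (nat_lit 0) (.cons (.rf (nat_lit 320) (nat_lit 677582165103132179601393696)) .nil)) (.cons (.br (nat_lit 15) (nat_lit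 0) (.cons (.ev (nat_lit 5317033836054824189465638304024232963) (nat_lit 3)) (.cons (.br (nat_lit 16) (nat_lit 0) (.cons (.ev (nat_lit 1366446501521046636971716505701596660743) (nat_lit 3)) .nil)) .nil))) (.cons (.br (nat_lit 17) (nat_lit 0) (.cons (.ev (nat_lit 87113615159835259725011067648285998120961) (nat_lit 1)) (.cons (.ev (nat_lit 174224571904085313714236363835282020106753) (nat_lit 2)) .nil))) .nil)))) .nil))))),
 (.br (nat_lit 16) (nat_lit 0) (.cons (.zr (nat_lit 2044352657518438552565340639016284848128) (nat_lit 40723276746017094070539858870789) (nat_lit 16) (nat_lit 5)) (.cons (.ev (nat_lit 10384752793578351615370444281086467) (nat_lit 2)) (.cons (.ev (nat_lit 341611594996262235786183712883003686913) (nat_lit 1)) .nil)))),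
 (.br (nat_lit 13) (nat_lit 0) (.cons (.rf (nat_lit 318) (nat_lit 18315758042935734835435)) (.cons (.ev (nat_lit 121852915160697850410062835744771) (nat_lit 3)) (.cons (.rf (nat_lit 321) (nat_lit 18755336235966192471580009)) (.cons (.br (nat_lit 14) (nat_lit 0) (.cons (.br (nat_lit 15) (nat_lit 0) (.cons (.ev (nat_lit 2658456150646340442165923572216889857) (nat_lit 2)) (.cons (.rf (nat_lit 322) (nat_lit 677582165103132179601393696)) .nil))) (.cons (.kr (nat_lit 340282366920938468185741090301413425153) (nat_lit 5192296859743753448145125503926528) (nat_lit 0) (nat_lit 2)) (.cons (.br (nat_lit 17) (nat_lit 0) (.cons (.rf (nat_lit 320) (nat_lit 676410982106324463511739753)) (.cons (.ev (nat_lit 174224571904085313714236363835282020106753) (nat_lit 2)) .nil))) .nil)))) .nil))))),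
 (.br (nat_lit 15) (nat_lit 0) (.cons (.br (nat_lit 16) (nat_lit 0) (.cons (.ev (nat_lit 340287579500516086971013708611820978433) (nat_lit 1)) .nil)) (.cons (.ev (nat_lit 2658456150646340442165923572216889857) (nat_lit 2)) .nil))),
 (.br (nat_lit 12) (nat_lit 0) (.cons (.rf (nat_lit 319) (nat_lit 19926519232773908561233952)) (.cons (.rf (nat_lit 321) (nat_lit 19926519232773908561233952)) (.cons (.rf (nat_lit 323) (nat_lit 19926519232773908561233952)) (.cons (.br (nat_lit 13) (nat_lit 0) (.cons (.rf (nat_lit 319) (nat_lit 18755336235966192471580009)) (.cons (.rf (nat_lit 323) (nat_lit 18755336235966192471580009)) (.cons (.rf (nat_lit 321) (nat_lit 18755336235966192471580009)) (.cons (.br (nat_lit 14) (nat_lit 0) (.cons (.rf (nat_lit 324) (nat_lit 677582165103132179601393696)) (.cons (.rf (nat_lit 324) (nat_lit 676410982106324463511739753)) (.cons (.kr (nat_lit 87112285931760246651346265985402307346433) (nat_lit 5192297168019837449875565054001408) (nat_lit 0) (nat_lit 2)) .nil)))) .nil))))) .nil))))),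
 (.br (nat_lit 15) (nat_lit 0) (.cons (.ev (nat_lit 2658456150646340442165923572216889857) (nat_lit 2)) (.cons (.br (nat_lit 16) (nat_lit 0) (.cons (.ev (nat_lit 2041704627159537265399123188295395574275) (nat_lit 3)) (.cons (.ev (nat_lit 341611594996261031582730862602762649600) (nat_lit 1)) .nil))) .nil))),
 (.br (nat_lit 13) (nat_lit 0) (.cons (.rf (nat_lit 303) (nat_lit 675166638534812969904415082)) (.cons (.br (nat_lit 15) (nat_lit 0) (.cons (.br (nat_lit 16) (nat_lit 0) (.cons (.ev (nat_lit 340287579500516086971013708611820978433) (nat_lit 1)) .nil)) (.cons (.ev (nat_lit 2658456150646340442165923572216889857) (nat_lit 2)) .nil))) .nil))),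
 (.br (nat_lit 13) (nat_lit 0) (.cons (.rf (nat_lit 303) (nat_lit 675166638534812969904415082)) (.cons (.rf (nat_lit 305) (nat_lit 676337785425839983977341290)) .nil))),
 (.br (nat_lit 12) (nat_lit 0) (.cons (.rf (nat_lit 325) (nat_lit 19926519232773908561233952)) (.cons (.ev (nat_lit 79229376162450717671147241728) (nat_lit 1)) (.cons (.br (nat_lit 15) (nat_lit 0) (.cons (.rf (nat_lit 326) (nat_lit 19926519232773908561233952)) (.cons (.ev (nat_lit 680564734000334475048197236975670001667) (nat_lit 2)) (.cons (.br (nat_lit 15) (nat_lit 0) (.cons (.rf (nat_lit 326) (nat_lit 19926519232773908561233952)) (.cons (.ev (nat_lit 680564734000334475048197236975670001667) (nat_lit 2)) .nil))) .nil)))) (.cons (.br (nat_lit 13) (nat_lit 0) (.cons (.rf (nat_lit 327) (nat_lit 677582165103132179601393696)) (.cons (.rf (nat_lit 328) (nat_lit 677582165103132179601393696)) (.cons (.br (nat_lit 13) (nat_lit 0) (.cons (.rf (nat_lit 327) (nat_lit 677582165103132179601393696)) (.cons (.rf (nat_lit 305) (nat_lit 676337785425839983977341290)) .nil)))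 .nil)))) .nil))))),
 (.br (nat_lit 12) (nat_lit 0) (.cons (.rf (nat_lit 325) (nat_lit 19926519232773908561233952)) (.cons (.ev (nat_lit 79229376162450717671147241728) (nat_lit 1)) (.cons (.br (nat_lit 14) (nat_lit 0) (.cons (.rf (nat_lit 329) (nat_lit 18755336235966192471580009)) (.cons (.kr (nat_lit 2658455991569836468174378465182613507) (nat_lit 10384593718278581076675626144891392) (nat_lit 0) (nat_lit 2)) (.cons (.ev (nat_lit 10384752174617776705646046121951747) (nat_lit 2)) (.cons (.br (nat_lit 16) (nat_lit 0) (.cons (.br (nat_lit 13) (nat_lit 0) (.cons (.ev (nat_lit 2044352698559246946993334777574903382533) (nat_lit 3)) (.cons (.ev (nat_lit 10425159156470108197547086094270467) (nat_lit 2)) .nil))) (.cons (.kr (nat_lit 2658455991571040671627510224712105985) (nat_lit 680564733841876931649115697737493381120) (nat_lit 0) (nat_lit 1)) (.cons (.ev (nat_lit 340287559297025160805267758100424753153) (nat_lit 1)) .nil)))) .nil))))) (.cons (.br (nat_lit 14) (nat_lit 0) (.cons (.rf (nat_lit 329) (nat_lit 18755336235966192471580009))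 (.cons (.kr (nat_lit 2658455991569836468174378465182613507) (nat_lit 10384593718278581076675626144891392) (nat_lit 0) (nat_lit 2)) (.cons (.br (nat_lit 16) (nat_lit 0) (.cons (.kr (nat_lit 680564733841876941093848663476767031297) (nat_lit 10384594337248600719647234276196352) (nat_lit 0) (nat_lit 1)) (.cons (.rf (nat_lit 214) (nat_lit 627565518319031522)) (.cons (.br (nat_lit 17) (nat_lit 0) (.cons (.ev (nat_lit 87112291124136642833697980199660433768448) (nat_lit 1)) (.cons (.ev (nat_lit 174907795053512397600041803856161521402371) (nat_lit 2)) .nil))) .nil)))) (.cons (.ev (nat_lit 10384752174617776705646046121951747) (nat_lit 2)) .nil))))) .nil))))),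
 (.br (nat_lit 12) (nat_lit 0) (.cons (.rf (nat_lit 325) (nat_lit 19926519232773908561233952)) (.cons (.rf (nat_lit 329) (nat_lit 19926519232773908561233952)) (.cons (.rf (nat_lit 330) (nat_lit 19926519232773908561233952)) (.cons (.br (nat_lit 13) (nat_lit 0) (.cons (.rf (nat_lit 329) (nat_lit 18755336235966192471580009)) (.cons (.br (nat_lit 13) (nat_lit 0) (.cons (.rf (nat_lit 329) (nat_lit 18755336235966192471580009)) (.cons (.rf (nat_lit 330) (nat_lit 18755336235966192471580009)) (.cons (.ev (nat_lit 20521022546242447121338188628226) (nat_lit 2)) .nil)))) (.cons (.rf (nat_lit 330) (nat_lit 18755336235966192471580009)) (.cons (.br (nat_lit 13) (nat_lit 0) (.cons (.rf (nat_lit 329) (nat_lit 18755336235966192471580009)) (.cons (.ev (nat_lit 20521022546242447121338188628226) (nat_lit 2)) (.cons (.rf (nat_lit 330) (nat_lit 18755336235966192471580009)) .nil)))) .nil))))) .nil))))),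
 (.br (nat_lit 8) (nat_lit 0) (.cons (.rf (nat_lit 281) (nat_lit 457749249396471800170)) (.cons (.rf (nat_lit 228) (nat_lit 457749249396471800170)) (.cons (.rf (nat_lit 311) (nat_lit 16986031939440263634281)) (.cons (.br (nat_lit 14) (nat_lit 0) (.cons (.rf (nat_lit 314) (nat_lit 583706118939841765935136)) (.cons (.rf (nat_lit 314) (nat_lit 583670009883797689277801)) (.cons (.kr (nat_lit 1329227995784920595270289929925558273) (nat_lit 5192296859743753448145125520703488) (nat_lit 0) (nat_lit 1)) (.cons (.br (nat_lit 15) (nat_lit 0) (.cons (.rf (nat_lit 314) (nat_lit 547107777605821228127267)) (.cons (.rf (nat_lit 314) (nat_lit 547071666366215845355882)) (.cons (.br (nat_lit 12) (nat_lit 0) (.cons (.rf (nat_lit 315) (nat_lit 19926519232773908561233952)) (.cons (.br (nat_lit 12) (nat_lit 0) (.cons (.ev (nat_lit 680564734000953435623107524315159068673) (nat_lit 2)) (.cons (.rf (nat_lit 172) (nat_lit 627566583470920930)) .nil))) (.cons (.br (nat_lit 12) (nat_lit 0) (.cons (.rf (nat_lit 315) (nat_lit 19926519232773908561233952)) (.cons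 (.rf (nat_lit 172) (nat_lit 627566583470920930)) .nil))) .nil)))) (.cons (.br (nat_lit 12) (nat_lit 0) (.cons (.br (nat_lit 12) (nat_lit 0) (.cons (.rf (nat_lit 317) (nat_lit 677582165103132179601393696)) (.cons (.rf (nat_lit 317) (nat_lit 640068866353744654647694371)) .nil))) (.cons (.rf (nat_lit 317) (nat_lit 677582165103132179601393696)) (.cons (.rf (nat_lit 317) (nat_lit 640068866353744654647694371)) .nil)))) .nil))))) .nil))))) (.cons (.br (nat_lit 12) (nat_lit 0) (.cons (.rf (nat_lit 325) (nat_lit 19926519232773908561233952)) (.cons (.rf (nat_lit 329) (nat_lit 19926519232773908561233952)) (.cons (.rf (nat_lit 330) (nat_lit 19926519232773908561233952)) (.cons (.rf (nat_lit 331) (nat_lit 19926519232773908561233952)) (.cons (.br (nat_lit 12) (nat_lit 0) (.cons (.rf (nat_lit 325) (nat_lit 19926519232773908561233952)) (.cons (.rf (nat_lit 329) (nat_lit 19926519232773908561233952)) (.cons (.rf (nat_lit 330) (nat_lit 19926519232773908561233952)) (.cons (.rf (nat_lit 331) (nat_lit 19926519232773908561233952)) .nil))))) .nil))))))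 .nil)))))),
 (.br (nat_lit 15) (nat_lit 0) (.cons (.zr (nat_lit 1344804886361734003975496056677859332) (nat_lit 20361947251194274909376812744960) (nat_lit 8) (nat_lit 2)) .nil)),
 (.br (nat_lit 16) (nat_lit 0) (.cons (.ev (nat_lit 340287559297335854740908717798324240385) (nat_lit 1)) (.cons (.rf (nat_lit 322) (nat_lit 560357645198182214940270954)) .nil))),
 (.br (nat_lit 14) (nat_lit 0) (.cons (.br (nat_lit 15) (nat_lit 0) (.cons (.ev (nat_lit 683233574585621376449262475030252617731) (nat_lit 2)) (.cons (.ev (nat_lit 1334440575363753028729005739169808385) (nat_lit 1)) .nil))) (.cons (.kr (nat_lit 340282366920939672389194222065237885184) (nat_lit 5192297168019837450157040047489024) (nat_lit 1) (nat_lit 0)) (.cons (.br (nat_lit 17) (nat_lit 0) (.cons (.ev (nat_lit 87112291124136642833697980481139688669185) (nat_lit 1)) (.cons (.ev (nat_lit 174905147022520907710818370674079612010497) (nat_lit 2)) .nil))) .nil)))),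
 (.br (nat_lit 13) (nat_lit 0) (.cons (.br (nat_lit 15) (nat_lit 0) (.cons (.rf (nat_lit 333) (nat_lit 677582165103132179601393696)) (.cons (.rf (nat_lit 333) (nat_lit 640105464693986894498859040)) .nil))) (.cons (.br (nat_lit 14) (nat_lit 0) (.cons (.kr (nat_lit 2658455991571045393993711623675576833) (nat_lit 10384594336039674900032605135044608) (nat_lit 0) (nat_lit 2)) (.cons (.rf (nat_lit 334) (nat_lit 677582165103132179601393696)) (.cons (.rf (nat_lit 334) (nat_lit 640105464693986894498859040)) .nil)))) (.cons (.rf (nat_lit 335) (nat_lit 677582165103132179601393696)) (.cons (.rf (nat_lit 335) (nat_lit 640105464693986894498859040)) .nil)))))]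

theorem c11 : chkAll C T R L11 (nat_lit 312) = true := by decide +kernel

theorem l11 : (nat_lit 312) + L11.length = (nat_lit 337) := by decide +kernel

/-- part of the certificates -/
def L12 : List Prf := [(.br (nat_lit 14) (nat_lit 0) (.cons (.br (nat_lit 15) (nat_lit 0) (.cons (.ev (nat_lit 2658456150646340442165923572216889857) (nat_lit 2)) (.cons (.br (nat_lit 16) (nat_lit 0) (.cons (.ev (nat_lit 341611594996261031582730581123474194433) (nat_lit 1)) .nil)) .nil))) (.cons (.kr (nat_lit 340282366921247948473195952500492992513) (nat_lit 5192296858539549995013365974434048) (nat_lit 0) (nat_lit 2)) (.cons (.br (nat_lit 16) (nat_lit 0) (.cons (.br (nat_lit 15) (nat_lit 0) (.cons (.ev (nat_lit 1334420371871613214796676249665208576) (nat_lit 1)) .nil)) (.cons (.ev (nat_lit 174224571904085932693700740054100157137411) (nat_lit 2)) .nil))) .nil)))),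
 (.br (nat_lit 13) (nat_lit 0) (.cons (.rf (nat_lit 337) (nat_lit 677582165103132179601393696)) (.cons (.rf (nat_lit 337) (nat_lit 677545566762889939750229027)) (.cons (.rf (nat_lit 336) (nat_lit 597870943946477959140154729)) (.cons (.rf (nat_lit 336) (nat_lit 597834345606235719356162410)) .nil))))),
 (.br (nat_lit 12) (nat_lit 0) (.cons (.rf (nat_lit 336) (nat_lit 677582165103132179601393696)) (.cons (.rf (nat_lit 336) (nat_lit 677545566762889939750229027)) (.cons (.rf (nat_lit 338) (nat_lit 677582165103132179601393696)) (.cons (.rf (nat_lit 338) (nat_lit 640105464693986894498859040)) .nil))))),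
 (.br (nat_lit 13) (nat_lit 0) (.cons (.br (nat_lit 15) (nat_lit 0) (.cons (.ev (nat_lit 341611594996261031582730581123474194433) (nat_lit 1)) .nil)) (.cons (.kr (nat_lit 680564733842497105872211801105154179073) (nat_lit 174224571863520493307414898453678554874368) (nat_lit 0) (nat_lit 2)) .nil))),
 (.br (nat_lit 16) (nat_lit 0) (.cons (.br (nat_lit 13) (nat_lit 0) (.cons (.br (nat_lit 15) (nat_lit 0) (.cons (.br (nat_lit 15) (nat_lit 0) .nil) .nil)) (.cons (.br (nat_lit 15) (nat_lit 0) (.cons (.kr (nat_lit 2658455991571045393993711623675576833) (nat_lit 10384594336039674900032605135044608) (nat_lit 0) (nat_lit 2)) (.cons (.ev (nat_lit 2658496556390252734372444337290084353) (nat_lit 2)) .nil))) (.cons (.ev (nat_lit 20282720302328196668182543466496) (nat_lit 1)) .nil)))) (.cons (.kr (nat_lit 680564733841878135852568829497006096385) (nat_lit 10384593717074377623825337297141760) (nat_lit 0) (nat_lit 1)) (.cons (.ev (nat_lit 680564734000334475048197799916999933953) (nat_lit 2)) (.cons (.br (nat_lit 13) (nat_lit 0) (.cons (.rf (nat_lit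 340) (nat_lit 677582165103132179601393696)) (.cons (.br (nat_lit 13) (nat_lit 0) (.cons (.rf (nat_lit 340) (nat_lit 677582165103132179601393696)) (.cons (.kr (nat_lit 680564733842497105872211801105154179073) (nat_lit 174224571863520493307414898453678554874368) (nat_lit 0) (nat_lit 2)) .nil))) (.cons (.kr (nat_lit 680564733842497105872211801105154179073) (nat_lit 174224571863520493307414898453678554874368) (nat_lit 0) (nat_lit 2)) .nil)))) .nil))))),
 (.br (nat_lit 12) (nat_lit 0) (.cons (.rf (nat_lit 339) (nat_lit 677582165103132179601393696)) (.cons (.ev (nat_lit 79229376162450717671147241728) (nat_lit 1)) (.cons (.rf (nat_lit 341) (nat_lit 677582165103132179601393696)) (.cons (.rf (nat_lit 341) (nat_lit 640105464693986894498859040)) .nil))))),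
 (.br (nat_lit 13) (nat_lit 0) (.cons (.ev (nat_lit 20521022546242447121338188628226) (nat_lit 2)) (.cons (.rf (nat_lit 342) (nat_lit 597870943946477959140154729)) (.cons (.rf (nat_lit 342) (nat_lit 597834345606235719356162410)) .nil)))),
 (.br (nat_lit 12) (nat_lit 0) (.cons (.rf (nat_lit 339) (nat_lit 677582165103132179601393696)) (.cons (.rf (nat_lit 342) (nat_lit 677582165103132179601393696)) (.cons (.rf (nat_lit 342) (nat_lit 677545566762889939750229027)) (.cons (.br (nat_lit 13) (nat_lit 0) (.cons (.rf (nat_lit 343) (nat_lit 677582165103132179601393696)) (.cons (.rf (nat_lit 343) (nat_lit 677545566762889939750229027)) (.cons (.rf (nat_lit 342) (nat_lit 597870943946477959140154729)) (.cons (.rf (nat_lit 342) (nat_lit 597834345606235719356162410)) .nil))))) .nil))))),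
 (.br (nat_lit 10) (nat_lit 0) (.cons (.br (nat_lit 10) (nat_lit 0) .nil) .nil)),
 (.br (nat_lit 6) (nat_lit 0) (.cons (.br (nat_lit 8) (nat_lit 0) (.cons (.rf (nat_lit 345) (nat_lit 10355449790564384)) (.cons (.br (nat_lit 10) (nat_lit 1) (.cons (.br (nat_lit 9) (nat_lit 0) (.cons (.kr (nat_lit 18447025548686262273) (nat_lit 4722366482873956958208) (nat_lit 0) (nat_lit 1)) .nil)) .nil)) .nil))) .nil)),
 (.br (nat_lit 14) (nat_lit 0) (.cons (.br (nat_lit 15) (nat_lit 0) (.cons (.ev (nat_lit 2689609774585209177062645546623304197) (nat_lit 3)) (.cons (.rf (nat_lit 1) (nat_lit 631047566384239681)) .nil))) .nil)),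
 (.br (nat_lit 15) (nat_lit 0) (.cons (.ev (nat_lit 1344865813749589817606982892290900225) (nat_lit 2)) .nil)),
 (.br (nat_lit 12) (nat_lit 0) (.cons (.br (nat_lit 13) (nat_lit 0) (.cons (.kr (nat_lit 158456329750895439531709825025) (nat_lit 40564819207321787591972523868160) (nat_lit 0) (nat_lit 1)) (.cons (.br (nat_lit 14) (nat_lit 0) (.cons (.rf (nat_lit 347) (nat_lit 583706118939841765935136)) (.cons (.br (nat_lit 14) (nat_lit 0) (.cons (.rf (nat_lit 347) (nat_lit 583706118939841765935136)) (.cons (.br (nat_lit 15) (nat_lit 0) (.cons (.rf (nat_lit 348) (nat_lit 677582165103132179601393696)) (.cons (.rf (nat_lit 348) (nat_lit 640105464695078675185502240)) .nil))) .nil))) .nil))) .nil))) .nil)),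
 (.br (nat_lit 15) (nat_lit 0) (.cons (.ev (nat_lit 10384752794787295881164006778470403) (nat_lit 2)) (.cons (.br (nat_lit 16) (nat_lit 0) (.cons (.ev (nat_lit 10425158536281699555534705493410307) (nat_lit 2)) (.cons (.ev (nat_lit 688540101818450590629655905673305784837) (nat_lit 3)) .nil))) .nil))),
 (.br (nat_lit 13) (nat_lit 0) (.cons (.ev (nat_lit 20521026173001458374523721154818) (nat_lit 2)) (.cons (.br (nat_lit 15) (nat_lit 0) (.cons (.ev (nat_lit 10384752794787295881164006778470403) (nat_lit 2)) (.cons (.rf (nat_lit 350) (nat_lit 19926519232773908561233952)) (.cons (.br (nat_lit 15) (nat_lit 0) (.cons (.ev (nat_lit 10384752794787295881164006778470403) (nat_lit 2)) (.cons (.rf (nat_lit 350) (nat_lit 19926519232773908561233952)) .nil))) .nil)))) .nil))),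
 (.br (nat_lit 14) (nat_lit 0) (.cons (.kr (nat_lit 20282409603651670423947251286016) (nat_lit 5192296858534827628530496329220096) (nat_lit 13) (nat_lit 0)) (.cons (.ev (nat_lit 5212658497514641821447129999081473) (nat_lit 1)) .nil))),
 (.br (nat_lit 13) (nat_lit 0) (.cons (.rf (nat_lit 352) (nat_lit 19926519232773908561233952)) (.cons (.rf (nat_lit 352) (nat_lit 18755372345022236548237344)) .nil))),
 (.br (nat_lit 13) (nat_lit 0) (.cons (.rf (nat_lit 353) (nat_lit 19926519232773908561233952)) (.cons (.br (nat_lit 15) (nat_lit 0) (.cons (.br (nat_lit 14) (nat_lit 0) (.cons (.ev (nat_lit 341611594995952755498800907178467131393) (nat_lit 1)) .nil)) (.cons (.kr (nat_lit 1329227995784915872903807060280344576) (nat_lit 340282366920938463463374607431768211456) (nat_lit 15) (nat_lit 0)) .nil))) .nil))),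
 (.br (nat_lit 14) (nat_lit 0) (.cons (.br (nat_lit 15) (nat_lit 0) (.cons (.ev (nat_lit 7985752569047957615889836643411428355) (nat_lit 3)) (.cons (.rf (nat_lit 1) (nat_lit 631047566383223873)) .nil))) .nil)),
 (.br (nat_lit 15) (nat_lit 0) (.cons (.ev (nat_lit 1344865813749589817606419933747544835) (nat_lit 2)) .nil)),
 (.br (nat_lit 12) (nat_lit 0) (.cons (.br (nat_lit 13) (nat_lit 0) (.cons (.kr (nat_lit 158456325046975700735774163457) (nat_lit 40564819212025707330768493084672) (nat_lit 0) (nat_lit 2)) (.cons (.br (nat_lit 14) (nat_lit 0) (.cons (.rf (nat_lit 355) (nat_lit 583706118939841765935136)) (.cons (.br (nat_lit 14) (nat_lit 0) (.cons (.rf (nat_lit 355) (nat_lit 583706118939841765935136)) (.cons (.br (nat_lit 15) (nat_lit 0) (.cons (.rf (nat_lit 356) (nat_lit 677582165103132179601393696)) (.cons (.rf (nat_lit 356) (nat_lit 640105464695078675185502240)) .nil))) .nil))) .nil))) .nil))) .nil)),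
 (.br (nat_lit 15) (nat_lit 0) (.cons (.br (nat_lit 16) (nat_lit 0) (.cons (.ev (nat_lit 88142463691786970044418114792343902552320) (nat_lit 3)) .nil)) .nil)),
 (.br (nat_lit 13) (nat_lit 0) (.cons (.ev (nat_lit 20521026173001458374523721154818) (nat_lit 2)) (.cons (.br (nat_lit 14) (nat_lit 0) (.cons (.ev (nat_lit 10384752794787295881164006778470403) (nat_lit 2)) (.cons (.ev (nat_lit 10425158536281699555534705493410307) (nat_lit 2)) (.cons (.br (nat_lit 15) (nat_lit 0) (.cons (.rf (nat_lit 358) (nat_lit 677582165103132179601393696)) (.cons (.br (nat_lit 15) (nat_lit 0) (.cons (.rf (nat_lit 358) (nat_lit 677582165103132179601393696)) .nil)) .nil))) .nil)))) .nil))),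
 (.br (nat_lit 14) (nat_lit 0) (.cons (.kr (nat_lit 20282409603651670423947251286016) (nat_lit 5192296858534827628530496329220096) (nat_lit 13) (nat_lit 0)) (.cons (.ev (nat_lit 5212658497514660196133609653928193) (nat_lit 1)) .nil))),
 (.br (nat_lit 13) (nat_lit 0) (.cons (.rf (nat_lit 360) (nat_lit 19926519232773908561233952)) (.cons (.rf (nat_lit 360) (nat_lit 18755372345022236548237344)) .nil))),
 (.br (nat_lit 13) (nat_lit 0) (.cons (.rf (nat_lit 361) (nat_lit 19926519232773908561233952)) (.cons (.br (nat_lit 15) (nat_lit 0) (.cons (.br (nat_lit 14) (nat_lit 0) (.cons (.ev (nat_lit 341611594995952755517175593658121978113) (nat_lit 1)) .nil)) (.cons (.kr (nat_lit 1329227995784915872903807060280344576) (nat_lit 340282366920938463463374607431768211456) (nat_lit 15) (nat_lit 0)) .nil))) .nil))),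
 (.br (nat_lit 13) (nat_lit 0) (.cons (.rf (nat_lit 361) (nat_lit 19926519232773908561233952)) (.cons (.rf (nat_lit 362) (nat_lit 19926519232773908561233952)) (.cons (.rf (nat_lit 362) (nat_lit 18755372345022236548237344)) .nil)))),
 (.br (nat_lit 14) (nat_lit 0) (.cons (.br (nat_lit 15) (nat_lit 0) (.cons (.ev (nat_lit 2689609774585209177062645546522640899) (nat_lit 3)) (.cons (.rf (nat_lit 1) (nat_lit 631047566384236705)) .nil))) .nil)),
 (.br (nat_lit 15) (nat_lit 0) (.cons (.ev (nat_lit 1344865813749589817606982892324454659) (nat_lit 2)) .nil)),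
 (.br (nat_lit 12) (nat_lit 0) (.cons (.br (nat_lit 13) (nat_lit 0) (.cons (.kr (nat_lit 40564819207321787591972507090945) (nat_lit 158456329750895439531726602240) (nat_lit 0) (nat_lit 1)) (.cons (.br (nat_lit 14) (nat_lit 0) (.cons (.rf (nat_lit 364) (nat_lit 583706118939841765935136)) (.cons (.br (nat_lit 14) (nat_lit 0) (.cons (.rf (nat_lit 364) (nat_lit 583706118939841765935136)) (.cons (.br (nat_lit 15) (nat_lit 0) (.cons (.rf (nat_lit 365) (nat_lit 677582165103132179601393696)) (.cons (.rf (nat_lit 365) (nat_lit 640105464695078675185502240)) .nil))) .nil))) .nil))) .nil))) .nil)),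
 (.br (nat_lit 15) (nat_lit 0) (.cons (.ev (nat_lit 10384752794787295881164006778470403) (nat_lit 2)) (.cons (.br (nat_lit 16) (nat_lit 0) (.cons (.ev (nat_lit 10425158536281699555534705493410307) (nat_lit 2)) (.cons (.ev (nat_lit 688540101818450590629655905673205121539) (nat_lit 3)) .nil))) .nil))),
 (.br (nat_lit 13) (nat_lit 0) (.cons (.ev (nat_lit 20521026173001458374523721154818) (nat_lit 2)) (.cons (.br (nat_lit 15) (nat_lit 0) (.cons (.ev (nat_lit 10384752794787295881164006778470403) (nat_lit 2)) (.cons (.rf (nat_lit 367) (nat_lit 19926519232773908561233952)) (.cons (.br (nat_lit 15) (nat_lit 0) (.cons (.ev (nat_lit 10384752794787295881164006778470403) (nat_lit 2)) (.cons (.rf (nat_lit 367) (nat_lit 19926519232773908561233952)) .nil))) .nil)))) .nil))),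
 (.br (nat_lit 15) (nat_lit 0) (.cons (.kr (nat_lit 5192296858534827628530496329220096) (nat_lit 1329227995784915872903807060280344576) (nat_lit 14) (nat_lit 0)) (.cons (.ev (nat_lit 1334440575363753010210485550694006785) (nat_lit 1)) .nil))),
 (.br (nat_lit 14) (nat_lit 0) (.cons (.rf (nat_lit 369) (nat_lit 677582165103132179601393696)) (.cons (.rf (nat_lit 369) (nat_lit 640105464695078675185502240)) .nil))),
 (.br (nat_lit 14) (nat_lit 0) (.cons (.rf (nat_lit 370) (nat_lit 677582165103132179601393696)) (.cons (.br (nat_lit 16) (nat_lit 0) (.cons (.br (nat_lit 15) (nat_lit 0) (.cons (.ev (nat_lit 1334420371871617937235498192636805377) (nat_lit 1)) .nil)) (.cons (.ev (nat_lit 680595887624892304358004246289498374659) (nat_lit 3)) .nil))) .nil)))]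

theorem c12 : chkAll C T R L12 (nat_lit 337) = true := by decide +kernel

theorem l12 : (nat_lit 337) + L12.length = (nat_lit 372) := by decide +kernel

/-- part of the certificates -/
def L13 : List Prf := [(.br (nat_lit 14) (nat_lit 0) (.cons (.br (nat_lit 15) (nat_lit 0) (.cons (.ev (nat_lit 7985752569047957615889836643377873925) (nat_lit 3)) (.cons (.rf (nat_lit 1) (nat_lit 631047566383220897)) .nil))) .nil)),
 (.br (nat_lit 15) (nat_lit 0) (.cons (.ev (nat_lit 1344865813749589817606419933781099265) (nat_lit 2)) .nil)),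
 (.br (nat_lit 12) (nat_lit 0) (.cons (.br (nat_lit 13) (nat_lit 0) (.cons (.kr (nat_lit 40564819212025707330768459530241) (nat_lit 158456325046975700735774163456) (nat_lit 0) (nat_lit 2)) (.cons (.br (nat_lit 14) (nat_lit 0) (.cons (.rf (nat_lit 372) (nat_lit 583706118939841765935136)) (.cons (.br (nat_lit 14) (nat_lit 0) (.cons (.rf (nat_lit 372) (nat_lit 583706118939841765935136)) (.cons (.br (nat_lit 15) (nat_lit 0) (.cons (.rf (nat_lit 373) (nat_lit 677582165103132179601393696)) (.cons (.rf (nat_lit 373) (nat_lit 640105464695078675185502240)) .nil))) .nil))) .nil))) .nil))) .nil)),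
 (.br (nat_lit 15) (nat_lit 0) (.cons (.ev (nat_lit 10384752794787295881164006778470403) (nat_lit 2)) (.cons (.br (nat_lit 16) (nat_lit 0) (.cons (.ev (nat_lit 10425158536281699555534705493410307) (nat_lit 2)) (.cons (.ev (nat_lit 2044352657517822005249265192000207324165) (nat_lit 3)) .nil))) .nil))),
 (.br (nat_lit 13) (nat_lit 0) (.cons (.ev (nat_lit 20521026173001458374523721154818) (nat_lit 2)) (.cons (.br (nat_lit 15) (nat_lit 0) (.cons (.ev (nat_lit 10384752794787295881164006778470403) (nat_lit 2)) (.cons (.rf (nat_lit 375) (nat_lit 19926519232773908561233952)) (.cons (.br (nat_lit 15) (nat_lit 0) (.cons (.ev (nat_lit 10384752794787295881164006778470403) (nat_lit 2)) (.cons (.rf (nat_lit 375) (nat_lit 19926519232773908561233952)) .nil))) .nil)))) .nil))),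
 (.br (nat_lit 16) (nat_lit 0) (.cons (.ev (nat_lit 680575159158869533654833424756151288321) (nat_lit 2)) .nil)),
 (.br (nat_lit 13) (nat_lit 0) (.cons (.br (nat_lit 14) (nat_lit 0) (.cons (.kr (nat_lit 40564819212025707612239124496385) (nat_lit 10384593717069673703805070679736320) (nat_lit 0) (nat_lit 1)) (.cons (.br (nat_lit 15) (nat_lit 0) (.cons (.ev (nat_lit 1334440575053059074641303067055685633) (nat_lit 1)) (.cons (.rf (nat_lit 11) (nat_lit 631047566384239681)) .nil))) .nil))) (.cons (.br (nat_lit 14) (nat_lit 0) (.cons (.rf (nat_lit 50) (nat_lit 606992208105505496098)) (.cons (.kr (nat_lit 40564819212025707612239124496385) (nat_lit 10384593717069673703805070679736320) (nat_lit 0) (nat_lit 1)) (.cons (.br (nat_lit 15) (nat_lit 0) (.cons (.rf (nat_lit 377) (nat_lit 677582165103132179601393696)) (.cons (.br (nat_lit 15) (nat_lit 0) (.cons (.rf (nat_lit 377) (nat_lit 677582165103132179601393696)) .nil)) .nil))) .nil)))) .nil))),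
 (.br (nat_lit 13) (nat_lit 0) (.cons (.rf (nat_lit 378) (nat_lit 583706118939841765935136)) (.cons (.br (nat_lit 15) (nat_lit 0) (.cons (.br (nat_lit 14) (nat_lit 0) (.cons (.ev (nat_lit 31194346591808992321964161515258885) (nat_lit 3)) (.cons (.rf (nat_lit 15) (nat_lit 631047566384239681)) .nil))) (.cons (.br (nat_lit 14) (nat_lit 0) (.cons (.ev (nat_lit 683223189834068151284652256811162796033) (nat_lit 2)) (.cons (.br (nat_lit 14) (nat_lit 0) (.cons (.ev (nat_lit 683223189834068151284652256811162796033) (nat_lit 2)) .nil)) .nil))) (.cons (.rf (nat_lit 48) (nat_lit 20677049760301497654306)) .nil)))) .nil))),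
 (.br (nat_lit 15) (nat_lit 0) (.cons (.ev (nat_lit 683223189833446763413515017743792996353) (nat_lit 2)) (.cons (.ev (nat_lit 1334440575053054370721845750408478720) (nat_lit 1)) .nil))),
 (.br (nat_lit 14) (nat_lit 0) (.cons (.rf (nat_lit 380) (nat_lit 677582165103132179601393696)) (.cons (.rf (nat_lit 380) (nat_lit 640105464695078675185502240)) .nil))),
 (.br (nat_lit 14) (nat_lit 0) (.cons (.rf (nat_lit 381) (nat_lit 677582165103132179601393696)) (.cons (.ev (nat_lit 31194346591808992321964161515258885) (nat_lit 3)) .nil))),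
 (.br (nat_lit 16) (nat_lit 0) (.cons (.ev (nat_lit 680575159158869533654833424756151288321) (nat_lit 2)) .nil)),
 (.br (nat_lit 12) (nat_lit 0) (.cons (.br (nat_lit 14) (nat_lit 0) (.cons (.kr (nat_lit 10384593717069673703805070662959105) (nat_lit 158456329750895439531726602240) (nat_lit 0) (nat_lit 1)) (.cons (.br (nat_lit 15) (nat_lit 0) (.cons (.ev (nat_lit 1334420371871617937235216713365127168) (nat_lit 1)) (.cons (.rf (nat_lit 11) (nat_lit 631047533098240161)) .nil))) .nil))) (.cons (.br (nat_lit 14) (nat_lit 0) (.cons (.br (nat_lit 15) (nat_lit 0) (.cons (.ev (nat_lit 1334420372182311872804399196969893888) (nat_lit 1)) (.cons (.rf (nat_lit 11) (nat_lit 631045402785033377)) .nil))) (.cons (.kr (nat_lit 10384593717069673703805070662959105) (nat_lit 158456329750895439531726602240) (nat_lit 0) (nat_lit 1)) (.cons (.br (nat_lit 15) (nat_lit 0) (.cons (.rf (nat_lit 383) (nat_lit 677582165103132179601393696)) (.cons (.br (nat_lit 15) (nat_lit 0) (.cons (.rf (nat_lit 383) (nat_lit 677582165103132179601393696)) .nil)) .nil))) .nil))))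 .nil))),
 (.br (nat_lit 14) (nat_lit 0) (.cons (.ev (nat_lit 31153940228926717509791454134141955) (nat_lit 3)) (.cons (.br (nat_lit 15) (nat_lit 0) (.cons (.ev (nat_lit 683223189834068151284652256811162796033) (nat_lit 2)) (.cons (.ev (nat_lit 1334420372182307168884378921779331073) (nat_lit 1)) .nil))) .nil))),
 (.br (nat_lit 12) (nat_lit 0) (.cons (.rf (nat_lit 384) (nat_lit 583706118939841765935136)) (.cons (.br (nat_lit 14) (nat_lit 0) (.cons (.br (nat_lit 14) (nat_lit 0) (.cons (.ev (nat_lit 31153940228926717509791454134141955) (nat_lit 3)) (.cons (.rf (nat_lit 15) (nat_lit 631047533098240161)) .nil))) (.cons (.rf (nat_lit 385) (nat_lit 19926519232773908561233952)) (.cons (.br (nat_lit 14) (nat_lit 0) (.cons (.rf (nat_lit 15) (nat_lit 631047533098240161)) (.cons (.rf (nat_lit 385) (nat_lit 19926519232773908561233952)) .nil))) .nil)))) .nil))),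
 (.br (nat_lit 15) (nat_lit 0) (.cons (.ev (nat_lit 683223189833446763413515017743792996353) (nat_lit 2)) (.cons (.ev (nat_lit 1334420371871613233315759396684365825) (nat_lit 1)) .nil))),
 (.br (nat_lit 14) (nat_lit 0) (.cons (.rf (nat_lit 387) (nat_lit 677582165103132179601393696)) (.cons (.rf (nat_lit 387) (nat_lit 640105464695078675185502240)) .nil))),
 (.br (nat_lit 14) (nat_lit 0) (.cons (.rf (nat_lit 388) (nat_lit 677582165103132179601393696)) (.cons (.ev (nat_lit 31153940228926717509791454134141955) (nat_lit 3)) .nil))),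
 (.br (nat_lit 16) (nat_lit 0) (.cons (.ev (nat_lit 680575159158869533654833424756151288321) (nat_lit 2)) .nil)),
 (.br (nat_lit 13) (nat_lit 0) (.cons (.br (nat_lit 14) (nat_lit 0) (.cons (.kr (nat_lit 60926767667404988627826746917632) (nat_lit 3992876284213291891072917425117724672) (nat_lit 1) (nat_lit 0)) (.cons (.br (nat_lit 15) (nat_lit 0) (.cons (.ev (nat_lit 1334440575053059074641584546327363840) (nat_lit 1)) (.cons (.rf (nat_lit 11) (nat_lit 631047566383223873)) .nil))) .nil))) (.cons (.br (nat_lit 14) (nat_lit 0) (.cons (.br (nat_lit 15) (nat_lit 0) (.cons (.ev (nat_lit 1334440575363753010210204071422329088) (nat_lit 1)) (.cons (.rf (nat_lit 11) (nat_lit 631046501226096705)) .nil))) (.cons (.kr (nat_lit 40564819207321787873443188834817) (nat_lit 10384593717074377623543866648952832) (nat_lit 0) (nat_lit 2)) (.cons (.br (nat_lit 15) (nat_lit 0) (.cons (.rf (nat_lit 390) (nat_lit 677582165103132179601393696)) (.cons (.br (nat_lit 15) (nat_lit 0) (.cons (.rf (nat_lit 390) (nat_lit 677582165103132179601393696)) .nil)) .nil)))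 .nil)))) .nil))),
 (.br (nat_lit 14) (nat_lit 0) (.cons (.ev (nat_lit 10506290038860030763453124152787459) (nat_lit 3)) (.cons (.br (nat_lit 15) (nat_lit 0) (.cons (.ev (nat_lit 683223189834068151284652256811162796033) (nat_lit 2)) (.cons (.ev (nat_lit 1334440575363748306290746754741567745) (nat_lit 1)) .nil))) .nil))),
 (.br (nat_lit 13) (nat_lit 0) (.cons (.rf (nat_lit 391) (nat_lit 583706118939841765935136)) (.cons (.br (nat_lit 14) (nat_lit 0) (.cons (.br (nat_lit 14) (nat_lit 0) (.cons (.ev (nat_lit 10506290038860030763453124152787459) (nat_lit 3)) (.cons (.rf (nat_lit 15) (nat_lit 631047566383223873)) .nil))) (.cons (.rf (nat_lit 392) (nat_lit 19926519232773908561233952)) (.cons (.br (nat_lit 14) (nat_lit 0) (.cons (.rf (nat_lit 15) (nat_lit 631047566383223873)) (.cons (.rf (nat_lit 392) (nat_lit 19926519232773908561233952)) .nil))) .nil)))) .nil))),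
 (.br (nat_lit 15) (nat_lit 0) (.cons (.ev (nat_lit 683223189833446763413515017743792996353) (nat_lit 2)) (.cons (.ev (nat_lit 1334440575053054370721564271136801025) (nat_lit 1)) .nil))),
 (.br (nat_lit 14) (nat_lit 0) (.cons (.rf (nat_lit 394) (nat_lit 677582165103132179601393696)) (.cons (.rf (nat_lit 394) (nat_lit 640105464695078675185502240)) .nil))),
 (.br (nat_lit 14) (nat_lit 0) (.cons (.rf (nat_lit 395) (nat_lit 677582165103132179601393696)) (.cons (.ev (nat_lit 10506290038860030763453124152787459) (nat_lit 3)) .nil))),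
 (.br (nat_lit 16) (nat_lit 0) (.cons (.ev (nat_lit 680575159158869533654833424756151288321) (nat_lit 2)) .nil)),
 (.br (nat_lit 12) (nat_lit 0) (.cons (.br (nat_lit 14) (nat_lit 0) (.cons (.kr (nat_lit 3987684066582910169869809871757508864) (nat_lit 15597173295902070269033827688054784) (nat_lit 1) (nat_lit 0)) (.cons (.br (nat_lit 15) (nat_lit 0) (.cons (.ev (nat_lit 1334420371871617937235498192636805377) (nat_lit 1)) (.cons (.rf (nat_lit 11) (nat_lit 631047533097224353)) .nil))) .nil))) (.cons (.br (nat_lit 14) (nat_lit 0) (.cons (.br (nat_lit 15) (nat_lit 0) (.cons (.ev (nat_lit 1334420372182311872804117717698216193) (nat_lit 1)) (.cons (.rf (nat_lit 11) (nat_lit 631045402785065121)) .nil))) (.cons (.kr (nat_lit 10384593717074377623543866615398401) (nat_lit 158456325046975700735774163456) (nat_lit 0) (nat_lit 2)) (.cons (.br (nat_lit 15) (nat_lit 0) (.cons (.rf (nat_lit 397) (nat_lit 677582165103132179601393696)) (.cons (.br (nat_lit 15) (nat_lit 0) (.cons (.rf (nat_lit 397) (nat_lit 677582165103132179601393696)) .nil)) .nil)))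 .nil)))) .nil))),
 (.br (nat_lit 14) (nat_lit 0) (.cons (.ev (nat_lit 10385070950213206326935002009436677) (nat_lit 3)) (.cons (.br (nat_lit 15) (nat_lit 0) (.cons (.ev (nat_lit 683223189834068151284652256811162796033) (nat_lit 2)) (.cons (.ev (nat_lit 1334420372182307168884660401051009280) (nat_lit 1)) .nil))) .nil))),
 (.br (nat_lit 12) (nat_lit 0) (.cons (.rf (nat_lit 398) (nat_lit 583706118939841765935136)) (.cons (.br (nat_lit 14) (nat_lit 0) (.cons (.br (nat_lit 14) (nat_lit 0) (.cons (.ev (nat_lit 10385070950213206326935002009436677) (nat_lit 3)) (.cons (.rf (nat_lit 15) (nat_lit 631047533097224353)) .nil))) (.cons (.rf (nat_lit 399) (nat_lit 19926519232773908561233952)) (.cons (.br (nat_lit 14) (nat_lit 0) (.cons (.rf (nat_lit 15) (nat_lit 631047533097224353)) (.cons (.rf (nat_lit 399) (nat_lit 19926519232773908561233952)) .nil))) .nil)))) .nil))),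
 (.br (nat_lit 15) (nat_lit 0) (.cons (.ev (nat_lit 683223189833446763413515017743792996353) (nat_lit 2)) (.cons (.ev (nat_lit 1334420371871613233315477917412688128) (nat_lit 1)) .nil))),
 (.br (nat_lit 14) (nat_lit 0) (.cons (.rf (nat_lit 401) (nat_lit 677582165103132179601393696)) (.cons (.rf (nat_lit 401) (nat_lit 640105464695078675185502240)) .nil))),
 (.br (nat_lit 14) (nat_lit 0) (.cons (.rf (nat_lit 402) (nat_lit 677582165103132179601393696)) (.cons (.ev (nat_lit 10385070950213206326935002009436677) (nat_lit 3)) .nil))),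
 (.br (nat_lit 13) (nat_lit 0) (.cons (.ev (nat_lit 20361638975110273178937229049856) (nat_lit 1)) .nil)),
 (.br (nat_lit 15) (nat_lit 0) (.cons (.ev (nat_lit 10506290038860030763453124152787459) (nat_lit 3)) (.cons (.ev (nat_lit 341611594996262235804630455857218322433) (nat_lit 1)) (.cons (.rf (nat_lit 404) (nat_lit 20678166659641484973121)) .nil))))]

theorem c13 : chkAll C T R L13 (nat_lit 372) = true := by decide +kernel

theorem l13 : (nat_lit 372) + L13.length = (nat_lit 406) := by decide +kernel

/-- part of the certificates -/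
def L14 : List Prf := [(.br (nat_lit 15) (nat_lit 0) (.cons (.ev (nat_lit 1334420292954149358611837718208970753) (nat_lit 1)) .nil)),
 (.br (nat_lit 14) (nat_lit 0) (.cons (.ev (nat_lit 10385070950213206326935002009436677) (nat_lit 3)) (.cons (.br (nat_lit 16) (nat_lit 0) (.cons (.br (nat_lit 15) (nat_lit 0) (.cons (.ev (nat_lit 2668840585908294013160665881648300547) (nat_lit 2)) .nil)) (.cons (.ev (nat_lit 174905136597362370224915506408688556572673) (nat_lit 2)) .nil))) .nil))),
 (.br (nat_lit 12) (nat_lit 0) (.cons (.br (nat_lit 13) (nat_lit 0) (.cons (.kr (nat_lit 20282409603651670423947251286017) (nat_lit 79228162514264337593560727552) (nat_lit 0) (nat_lit 1)) (.cons (.ev (nat_lit 40723896924943964950908622602243) (nat_lit 2)) (.cons (.br (nat_lit 14) (nat_lit 0) (.cons (.br (nat_lit 15) (nat_lit 0) (.cons (.ev (nat_lit 7975408540150095263973623545222005765) (nat_lit 3)) (.cons (.rf (nat_lit 20) (nat_lit 631047566384239681)) .nil))) (.cons (.rf (nat_lit 21) (nat_lit 622703721484407431858208)) (.cons (.rf (nat_lit 23) (nat_lit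 21174442654933103401863200)) .nil)))) .nil)))) (.cons (.br (nat_lit 13) (nat_lit 0) (.cons (.ev (nat_lit 40723896924943964950908622602243) (nat_lit 2)) (.cons (.kr (nat_lit 20282409603651670423947251286017) (nat_lit 79228162514264337593560727552) (nat_lit 0) (nat_lit 1)) (.cons (.br (nat_lit 14) (nat_lit 0) (.cons (.br (nat_lit 14) (nat_lit 0) (.cons (.ev (nat_lit 10506290038860030763453124152787459) (nat_lit 3)) (.cons (.rf (nat_lit 20) (nat_lit 631013481522762817)) .nil))) (.cons (.rf (nat_lit 405) (nat_lit 19926519232773908561233952)) (.cons (.br (nat_lit 14) (nat_lit 0) (.cons (.rf (nat_lit 20) (nat_lit 631013481522762817)) (.cons (.rf (nat_lit 405) (nat_lit 19926519232773908561233952)) .nil))) .nil)))) .nil)))) (.cons (.br (nat_lit 13) (nat_lit 0) (.cons (.br (nat_lit 14) (nat_lit 0) (.cons (.br (nat_lit 15) (nat_lit 0) (.cons (.ev (nat_lit 7975368133787212989161450837840888835) (nat_lit 3)) (.cons (.rf (nat_lit 20) (nat_lit 631047533098240161)) .nil))) (.cons (.rf (nat_lit 21) (nat_lit 622702604591699840734243)) (.cons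 (.rf (nat_lit 23) (nat_lit 21174441538040395810739235)) .nil)))) (.cons (.br (nat_lit 15) (nat_lit 0) (.cons (.br (nat_lit 14) (nat_lit 0) (.cons (.ev (nat_lit 10385070950213206326935002009436677) (nat_lit 3)) (.cons (.rf (nat_lit 20) (nat_lit 631013448236763297)) .nil))) (.cons (.rf (nat_lit 83) (nat_lit 606992208072186993698)) (.cons (.br (nat_lit 14) (nat_lit 0) (.cons (.rf (nat_lit 406) (nat_lit 21174442659472880612509728)) (.cons (.br (nat_lit 14) (nat_lit 0) (.cons (.rf (nat_lit 406) (nat_lit 21174442659472880612509728)) .nil)) .nil))) .nil)))) (.cons (.kr (nat_lit 20282409603651670423947251286017) (nat_lit 79228162514264337593560727552) (nat_lit 0) (nat_lit 1)) (.cons (.br (nat_lit 14) (nat_lit 0) (.cons (.br (nat_lit 14) (nat_lit 0) (.cons (.ev (nat_lit 10385070950213206326935002009436677) (nat_lit 3)) (.cons (.ev (nat_lit 10506290038860030763453124152787459) (nat_lit 3)) .nil))) (.cons (.rf (nat_lit 407) (nat_lit 677582165103132179601393696)) (.cons (.br (nat_lit 14) (nat_lit 0) (.cons (.ev (nat_lit 10506290038860030763453124152787459)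 (nat_lit 3)) (.cons (.rf (nat_lit 407) (nat_lit 677582165103132179601393696)) .nil))) .nil)))) .nil))))) .nil)))),
 (.br (nat_lit 13) (nat_lit 0) (.cons (.ev (nat_lit 2668840585286906142022300931551527427) (nat_lit 2)) (.cons (.br (nat_lit 16) (nat_lit 0) (.cons (.ev (nat_lit 340287559297025165527706298564124672257) (nat_lit 1)) (.cons (.ev (nat_lit 340287579500517295896761547126229434625) (nat_lit 1)) .nil))) .nil))),
 (.br (nat_lit 13) (nat_lit 0) (.cons (.br (nat_lit 15) (nat_lit 0) (.cons (.kr (nat_lit 40564819212025707612239124496385) (nat_lit 2658455991569831764254358198581985280) (nat_lit 0) (nat_lit 1)) (.cons (.kr (nat_lit 5212579268143201665437313225719809) (nat_lit 1329228075013078405614888727533846784) (nat_lit 0) (nat_lit 2)) .nil))) (.cons (.br (nat_lit 15) (nat_lit 0) (.cons (.kr (nat_lit 20361637766165935043015771947264) (nat_lit 1334420292643450700532337560921309184) (nat_lit 1) (nat_lit 0)) (.cons (.kr (nat_lit 40564819212025707612239124496385) (nat_lit 2658455991569831764254358198581985280) (nat_lit 0) (nat_lit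 1)) .nil))) .nil))),
 (.br (nat_lit 13) (nat_lit 0) (.cons (.rf (nat_lit 410) (nat_lit 677582165103132179601393696)) (.cons (.br (nat_lit 16) (nat_lit 0) (.cons (.ev (nat_lit 340287579500517295896761547126229434625) (nat_lit 1)) (.cons (.ev (nat_lit 340287559297025165527706298564124672257) (nat_lit 1)) .nil))) .nil))),
 (.br (nat_lit 12) (nat_lit 0) (.cons (.rf (nat_lit 408) (nat_lit 583706118939841765935136)) (.cons (.br (nat_lit 14) (nat_lit 0) (.cons (.br (nat_lit 13) (nat_lit 0) (.cons (.ev (nat_lit 40723275537072827711841319911427) (nat_lit 2)) (.cons (.br (nat_lit 15) (nat_lit 0) (.cons (.ev (nat_lit 2679347190995635746610437535578849285) (nat_lit 3)) (.cons (.rf (nat_lit 20) (nat_lit 596074369241132097)) .nil))) .nil))) (.cons (.kr (nat_lit 1329227995784915891350551133989896448) (nat_lit 5192296858539549995013365991211008) (nat_lit 1) (nat_lit 0)) (.cons (.br (nat_lit 15) (nat_lit 0) (.cons (.br (nat_lit 13) (nat_lit 0) (.cons (.ev (nat_lit 5348106647886898283269583852915525123) (nat_lit 3)) (.cons (.rf (nat_lit 20) (nat_lit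 630978331505174593)) .nil))) (.cons (.ev (nat_lit 2668840585908294013160665881648300547) (nat_lit 2)) (.cons (.br (nat_lit 13) (nat_lit 0) (.cons (.br (nat_lit 13) (nat_lit 0) (.cons (.ev (nat_lit 2668881308562438473891824013175554561) (nat_lit 2)) .nil)) (.cons (.br (nat_lit 13) (nat_lit 0) (.cons (.ev (nat_lit 2668881308562438473891824013175554561) (nat_lit 2)) .nil)) .nil))) .nil)))) .nil)))) (.cons (.br (nat_lit 14) (nat_lit 0) (.cons (.br (nat_lit 13) (nat_lit 0) (.cons (.br (nat_lit 15) (nat_lit 0) (.cons (.ev (nat_lit 2679306784632753471798264828197732355) (nat_lit 3)) (.cons (.rf (nat_lit 20) (nat_lit 596039185939639457)) .nil))) (.cons (.ev (nat_lit 40723275537072827711841319911427) (nat_lit 2)) (.cons (.br (nat_lit 15) (nat_lit 0) (.cons (.br (nat_lit 15) (nat_lit 0) (.cons (.ev (nat_lit 2668881309183826345030188963205218817) (nat_lit 2)) .nil)) (.cons (.br (nat_lit 15) (nat_lit 0) (.cons (.ev (nat_lit 2668881309183826345030188963205218817) (nat_lit 2)) .nil)) .nil))) .nil)))) (.cons (.br (nat_lit 13) (nat_lit 0) (.cons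 (.ev (nat_lit 2668840585286906142022300931551527427) (nat_lit 2)) (.cons (.rf (nat_lit 409) (nat_lit 19926519232773908561233952)) (.cons (.br (nat_lit 13) (nat_lit 0) (.cons (.ev (nat_lit 2668840585286906142022300931551527427) (nat_lit 2)) (.cons (.rf (nat_lit 409) (nat_lit 19926519232773908561233952)) .nil))) .nil)))) (.cons (.kr (nat_lit 10384593717074377623543866615398401) (nat_lit 158456325046975700735774163456) (nat_lit 0) (nat_lit 2)) (.cons (.br (nat_lit 13) (nat_lit 0) (.cons (.rf (nat_lit 410) (nat_lit 677582165103132179601393696)) (.cons (.rf (nat_lit 411) (nat_lit 677582165103132179601393696)) (.cons (.br (nat_lit 13) (nat_lit 0) (.cons (.rf (nat_lit 410) (nat_lit 677582165103132179601393696)) (.cons (.rf (nat_lit 411) (nat_lit 677582165103132179601393696)) .nil))) .nil)))) .nil))))) .nil)))),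
 (.br (nat_lit 13) (nat_lit 0) (.cons (.ev (nat_lit 2668840585286906142022300931551527427) (nat_lit 2)) (.cons (.br (nat_lit 16) (nat_lit 0) (.cons (.ev (nat_lit 341611594995951546572981293648804118528) (nat_lit 1)) (.cons (.ev (nat_lit 341611615199443676942036542210908880896) (nat_lit 1)) .nil))) .nil))),
 (.br (nat_lit 13) (nat_lit 0) (.cons (.br (nat_lit 14) (nat_lit 0) (.cons (.kr (nat_lit 40564819207321787873443188834817) (nat_lit 10384593717074377623543866648952832) (nat_lit 0) (nat_lit 2)) (.cons (.kr (nat_lit 1329248278194519543020975081241182465) (nat_lit 5192376086702064259350959551938560) (nat_lit 0) (nat_lit 2)) .nil))) (.cons (.br (nat_lit 14) (nat_lit 0) (.cons (.kr (nat_lit 20361637766165935043015771947264) (nat_lit 1334420292643450700532337560921309184) (nat_lit 1) (nat_lit 0)) (.cons (.kr (nat_lit 40564819207321787873443188834817) (nat_lit 10384593717074377623543866648952832) (nat_lit 0) (nat_lit 2)) .nil))) .nil))),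
 (.br (nat_lit 13) (nat_lit 0) (.cons (.rf (nat_lit 414) (nat_lit 677582165103132179601393696)) (.cons (.br (nat_lit 16) (nat_lit 0) (.cons (.ev (nat_lit 341611615199443676942036542210908880896) (nat_lit 1)) (.cons (.ev (nat_lit 341611594995951546572981293648804118528) (nat_lit 1)) .nil))) .nil))),
 (.br (nat_lit 12) (nat_lit 0) (.cons (.rf (nat_lit 408) (nat_lit 583706118939841765935136)) (.cons (.rf (nat_lit 412) (nat_lit 583706118939841765935136)) (.cons (.br (nat_lit 15) (nat_lit 0) (.cons (.br (nat_lit 13) (nat_lit 0) (.cons (.br (nat_lit 14) (nat_lit 0) (.cons (.ev (nat_lit 5348147054249780558081756560296642053) (nat_lit 3)) (.cons (.rf (nat_lit 20) (nat_lit 596040251091560609)) .nil))) (.cons (.ev (nat_lit 40723275537072827711841319911427) (nat_lit 2)) (.cons (.br (nat_lit 14) (nat_lit 0) (.cons (.br (nat_lit 14) (nat_lit 0) (.cons (.ev (nat_lit 2668881309183826345030188963205218817) (nat_lit 2)) .nil)) (.cons (.br (nat_lit 14) (nat_lit 0) (.cons (.ev (nat_lit 2668881309183826345030188963205218817) (nat_lit 2)) .nil))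 .nil))) .nil)))) (.cons (.br (nat_lit 13) (nat_lit 0) (.cons (.ev (nat_lit 2668840585286906142022300931551527427) (nat_lit 2)) (.cons (.rf (nat_lit 413) (nat_lit 19926519232773908561233952)) (.cons (.br (nat_lit 13) (nat_lit 0) (.cons (.ev (nat_lit 2668840585286906142022300931551527427) (nat_lit 2)) (.cons (.rf (nat_lit 413) (nat_lit 19926519232773908561233952)) .nil))) .nil)))) (.cons (.kr (nat_lit 2658455991569831764254358198565208065) (nat_lit 158456329750895439531726602240) (nat_lit 0) (nat_lit 1)) (.cons (.br (nat_lit 13) (nat_lit 0) (.cons (.rf (nat_lit 414) (nat_lit 677582165103132179601393696)) (.cons (.rf (nat_lit 415) (nat_lit 677582165103132179601393696)) (.cons (.br (nat_lit 13) (nat_lit 0) (.cons (.rf (nat_lit 414) (nat_lit 677582165103132179601393696)) (.cons (.rf (nat_lit 415) (nat_lit 677582165103132179601393696)) .nil))) .nil)))) .nil))))) .nil)))),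
 (.br (nat_lit 15) (nat_lit 0) (.cons (.ev (nat_lit 2668840585908294013160665881648300547) (nat_lit 2)) (.cons (.ev (nat_lit 2668881308562438473891824013175554561) (nat_lit 2)) .nil))),
 (.br (nat_lit 14) (nat_lit 0) (.cons (.br (nat_lit 16) (nat_lit 0) (.cons (.ev (nat_lit 340287579500206606665112384917815230720) (nat_lit 1)) (.cons (.ev (nat_lit 340287559297335854759355460772538876160) (nat_lit 1)) .nil))) (.cons (.kr (nat_lit 40564819207321787873443188834817) (nat_lit 10384593717074377623543866648952832) (nat_lit 0) (nat_lit 2)) (.cons (.br (nat_lit 16) (nat_lit 0) (.cons (.ev (nat_lit 340287559297335854759355460772538876160) (nat_lit 1)) (.cons (.ev (nat_lit 340287579500206606665112384917815230720) (nat_lit 1)) .nil))) .nil)))),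
 (.br (nat_lit 13) (nat_lit 0) (.cons (.br (nat_lit 14) (nat_lit 0) (.cons (.kr (nat_lit 1329227995784915891350551133989896448) (nat_lit 5192296858539549995013365991211008) (nat_lit 1) (nat_lit 0)) (.cons (.rf (nat_lit 417) (nat_lit 677582165103132179601393696)) (.cons (.rf (nat_lit 417) (nat_lit 640105464695078675185502240)) .nil)))) (.cons (.rf (nat_lit 418) (nat_lit 677582165103132179601393696)) (.cons (.rf (nat_lit 418) (nat_lit 640105464695078675185502240)) .nil)))),
 (.br (nat_lit 15) (nat_lit 0) (.cons (.br (nat_lit 16) (nat_lit 0) (.cons (.ev (nat_lit 341611615199132987710387380002494676993) (nat_lit 1)) (.cons (.ev (nat_lit 341611594996262235804630455857218322433) (nat_lit 1)) .nil))) (.cons (.kr (nat_lit 40564819212025707612239124496385) (nat_lit 2658455991569831764254358198581985280) (nat_lit 0) (nat_lit 1)) (.cons (.br (nat_lit 16) (nat_lit 0) (.cons (.ev (nat_lit 341611594996262235804630455857218322433) (nat_lit 1)) (.cons (.ev (nat_lit 341611615199132987710387380002494676993) (nat_lit 1)) .nil))) .nil)))),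
 (.br (nat_lit 13) (nat_lit 0) (.cons (.rf (nat_lit 419) (nat_lit 677582165103132179601393696)) (.cons (.rf (nat_lit 420) (nat_lit 677582165103132179601393696)) (.cons (.rf (nat_lit 420) (nat_lit 640105464695078675185502240)) .nil)))),
 (.br (nat_lit 13) (nat_lit 0) (.cons (.rf (nat_lit 419) (nat_lit 677582165103132179601393696)) (.cons (.rf (nat_lit 421) (nat_lit 677582165103132179601393696)) (.cons (.ev (nat_lit 40723275537072827711841319911427) (nat_lit 2)) .nil)))),
 (.br (nat_lit 2) (nat_lit 0) (.cons (.ev (nat_lit 4740958188759729438723) (nat_lit 2)) (.cons (.br (nat_lit 5) (nat_lit 0) (.cons (.ev (nat_lit 4740957625818332398083) (nat_lit 2)) (.cons (.br (nat_lit 11) (nat_lit 0) (.cons (.ev (nat_lit 1864168465483848448087294469) (nat_lit 3)) (.cons (.br (nat_lit 12) (nat_lit 0) (.cons (.rf (nat_lit 349) (nat_lit 493858305440582043680)) (.cons (.br (nat_lit 12) (nat_lit 0) (.cons (.rf (nat_lit 349) (nat_lit 493858305440582043680)) (.cons (.br (nat_lit 13) (nat_lit 0) (.cons (.rf (nat_lit 351) (nat_lit 583706118939841765935136))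 (.cons (.rf (nat_lit 351) (nat_lit 547107778697602015528992)) (.cons (.br (nat_lit 13) (nat_lit 0) (.cons (.rf (nat_lit 351) (nat_lit 583706118939841765935136)) (.cons (.rf (nat_lit 351) (nat_lit 547107778697602015528992)) (.cons (.br (nat_lit 14) (nat_lit 0) (.cons (.rf (nat_lit 353) (nat_lit 21174442659472880612509728)) (.cons (.rf (nat_lit 354) (nat_lit 21174442659472880612509728)) (.cons (.rf (nat_lit 354) (nat_lit 20003295771721208599513120)) .nil)))) .nil)))) .nil)))) .nil))) .nil))) .nil))) .nil))) (.cons (.br (nat_lit 5) (nat_lit 0) (.cons (.ev (nat_lit 4740957625818332398083) (nat_lit 2)) (.cons (.br (nat_lit 10) (nat_lit 0) (.cons (.ev (nat_lit 621392723209933289070920707) (nat_lit 3)) (.cons (.br (nat_lit 12) (nat_lit 0) (.cons (.rf (nat_lit 357) (nat_lit 493858305440582043680)) (.cons (.br (nat_lit 12) (nat_lit 0) (.cons (.rf (nat_lit 357) (nat_lit 493858305440582043680)) (.cons (.br (nat_lit 13) (nat_lit 0) (.cons (.rf (nat_lit 359) (nat_lit 583706118939841765935136)) (.cons (.rf (nat_lit 359) (nat_lit 547107778697602015528992))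 (.cons (.br (nat_lit 13) (nat_lit 0) (.cons (.rf (nat_lit 359) (nat_lit 583706118939841765935136)) (.cons (.rf (nat_lit 359) (nat_lit 547107778697602015528992)) (.cons (.rf (nat_lit 363) (nat_lit 21174442659472880612509728)) .nil)))) .nil)))) .nil))) .nil))) .nil))) .nil))) (.cons (.br (nat_lit 5) (nat_lit 0) (.cons (.br (nat_lit 11) (nat_lit 0) (.cons (.ev (nat_lit 1864168465483848447986631171) (nat_lit 3)) (.cons (.br (nat_lit 12) (nat_lit 0) (.cons (.rf (nat_lit 366) (nat_lit 493858305440582043680)) (.cons (.br (nat_lit 12) (nat_lit 0) (.cons (.rf (nat_lit 366) (nat_lit 493858305440582043680)) (.cons (.br (nat_lit 13) (nat_lit 0) (.cons (.rf (nat_lit 368) (nat_lit 583706118939841765935136)) (.cons (.rf (nat_lit 368) (nat_lit 547107778697602015528992)) (.cons (.br (nat_lit 13) (nat_lit 0) (.cons (.rf (nat_lit 368) (nat_lit 583706118939841765935136)) (.cons (.rf (nat_lit 368) (nat_lit 547107778697602015528992)) (.cons (.br (nat_lit 14) (nat_lit 0) (.cons (.rf (nat_lit 370) (nat_lit 677582165103132179601393696)) (.cons (.rf (nat_lit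 371) (nat_lit 677582165103132179601393696)) (.cons (.rf (nat_lit 371) (nat_lit 640105464695078675185502240)) .nil)))) .nil)))) .nil)))) .nil))) .nil))) .nil))) (.cons (.br (nat_lit 10) (nat_lit 0) (.cons (.ev (nat_lit 621392723209933289037366277) (nat_lit 3)) (.cons (.br (nat_lit 12) (nat_lit 0) (.cons (.rf (nat_lit 374) (nat_lit 493858305440582043680)) (.cons (.br (nat_lit 12) (nat_lit 0) (.cons (.rf (nat_lit 374) (nat_lit 493858305440582043680)) (.cons (.br (nat_lit 13) (nat_lit 0) (.cons (.rf (nat_lit 376) (nat_lit 583706118939841765935136)) (.cons (.rf (nat_lit 376) (nat_lit 547107778697602015528992)) (.cons (.br (nat_lit 13) (nat_lit 0) (.cons (.rf (nat_lit 376) (nat_lit 583706118939841765935136)) (.cons (.rf (nat_lit 376) (nat_lit 547107778697602015528992)) (.cons (.rf (nat_lit 363) (nat_lit 21174442659472880609268771)) .nil)))) .nil)))) .nil))) .nil))) .nil))) (.cons (.ev (nat_lit 4740958188759695884289) (nat_lit 2)) (.cons (.br (nat_lit 10) (nat_lit 0) (.cons (.ev (nat_lit 621392612095990768429171203) (nat_lit 2)) (.cons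 (.br (nat_lit 11) (nat_lit 0) (.cons (.ev (nat_lit 621392612095427827065683969) (nat_lit 2)) (.cons (.ev (nat_lit 310693935857980216380162562) (nat_lit 2)) (.cons (.br (nat_lit 12) (nat_lit 0) (.cons (.ev (nat_lit 79228162532783140360803123456) (nat_lit 1)) (.cons (.ev (nat_lit 79538856468352322844441444608) (nat_lit 1)) (.cons (.br (nat_lit 13) (nat_lit 0) (.cons (.rf (nat_lit 378) (nat_lit 583706118939841765935136)) (.cons (.rf (nat_lit 379) (nat_lit 583706118939841765935136)) (.cons (.br (nat_lit 13) (nat_lit 0) (.cons (.rf (nat_lit 378) (nat_lit 583706118939841765935136)) (.cons (.rf (nat_lit 379) (nat_lit 583706118939841765935136)) (.cons (.br (nat_lit 14) (nat_lit 0) (.cons (.rf (nat_lit 381) (nat_lit 677582165103132179601393696)) (.cons (.rf (nat_lit 382) (nat_lit 677582165103132179601393696)) (.cons (.rf (nat_lit 382) (nat_lit 640105464695078675185502240)) .nil)))) .nil)))) .nil)))) .nil)))) .nil)))) (.cons (.br (nat_lit 11) (nat_lit 0) (.cons (.ev (nat_lit 310693935857980216380162562) (nat_lit 2)) (.cons (.ev (nat_lit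 621392612095427827065683969) (nat_lit 2)) (.cons (.br (nat_lit 13) (nat_lit 0) (.cons (.ev (nat_lit 20282409603670189226714527236353) (nat_lit 1)) (.cons (.ev (nat_lit 20282720297605758409198132003073) (nat_lit 1)) (.cons (.br (nat_lit 12) (nat_lit 0) (.cons (.rf (nat_lit 384) (nat_lit 583706118939841765935136)) (.cons (.rf (nat_lit 386) (nat_lit 583706118939841765935136)) (.cons (.br (nat_lit 12) (nat_lit 0) (.cons (.rf (nat_lit 384) (nat_lit 583706118939841765935136)) (.cons (.rf (nat_lit 386) (nat_lit 583706118939841765935136)) (.cons (.br (nat_lit 14) (nat_lit 0) (.cons (.rf (nat_lit 388) (nat_lit 677582165103132179601393696)) (.cons (.rf (nat_lit 389) (nat_lit 677582165103132179601393696)) (.cons (.rf (nat_lit 389) (nat_lit 640105464695078675185502240)) .nil)))) .nil)))) .nil)))) .nil)))) .nil)))) (.cons (.br (nat_lit 11) (nat_lit 0) (.cons (.br (nat_lit 12) (nat_lit 0) (.cons (.ev (nat_lit 79228162532783421840074801153) (nat_lit 1)) (.cons (.ev (nat_lit 79538856468352041365169766401) (nat_lit 1)) (.cons (.br (nat_lit 13)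 (nat_lit 0) (.cons (.rf (nat_lit 391) (nat_lit 583706118939841765935136)) (.cons (.rf (nat_lit 393) (nat_lit 583706118939841765935136)) (.cons (.br (nat_lit 13) (nat_lit 0) (.cons (.rf (nat_lit 391) (nat_lit 583706118939841765935136)) (.cons (.rf (nat_lit 393) (nat_lit 583706118939841765935136)) (.cons (.br (nat_lit 14) (nat_lit 0) (.cons (.rf (nat_lit 395) (nat_lit 677582165103132179601393696)) (.cons (.rf (nat_lit 396) (nat_lit 677582165103132179601393696)) (.cons (.rf (nat_lit 396) (nat_lit 640105464695078675185502240)) .nil)))) .nil)))) .nil)))) .nil)))) (.cons (.br (nat_lit 13) (nat_lit 0) (.cons (.ev (nat_lit 20282409603670189508193798914048) (nat_lit 1)) (.cons (.ev (nat_lit 20282720297605758127718860324864) (nat_lit 1)) (.cons (.br (nat_lit 12) (nat_lit 0) (.cons (.rf (nat_lit 398) (nat_lit 583706118939841765935136)) (.cons (.rf (nat_lit 400) (nat_lit 583706118939841765935136)) (.cons (.br (nat_lit 12) (nat_lit 0) (.cons (.rf (nat_lit 398) (nat_lit 583706118939841765935136)) (.cons (.rf (nat_lit 400) (nat_lit 583706118939841765935136))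 (.cons (.br (nat_lit 14) (nat_lit 0) (.cons (.rf (nat_lit 402) (nat_lit 677582165103132179601393696)) (.cons (.rf (nat_lit 403) (nat_lit 677582165103132179601393696)) (.cons (.rf (nat_lit 403) (nat_lit 640105464695078675185502240)) .nil)))) .nil)))) .nil)))) .nil)))) (.cons (.ev (nat_lit 621392612095427827065683969) (nat_lit 2)) (.cons (.br (nat_lit 12) (nat_lit 0) (.cons (.rf (nat_lit 408) (nat_lit 583706118939841765935136)) (.cons (.rf (nat_lit 412) (nat_lit 583706118939841765935136)) (.cons (.rf (nat_lit 416) (nat_lit 583706118939841765935136)) (.cons (.br (nat_lit 12) (nat_lit 0) (.cons (.rf (nat_lit 408) (nat_lit 583706118939841765935136)) (.cons (.rf (nat_lit 412) (nat_lit 583706118939841765935136)) (.cons (.rf (nat_lit 416) (nat_lit 583706118939841765935136)) (.cons (.br (nat_lit 13) (nat_lit 0) (.cons (.rf (nat_lit 419) (nat_lit 677582165103132179601393696)) (.cons (.rf (nat_lit 421) (nat_lit 677582165103132179601393696)) (.cons (.rf (nat_lit 422) (nat_lit 677582165103132179601393696)) (.cons (.rf (nat_lit 422) (nat_lit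 640105464695078675185502240)) .nil))))) .nil))))) .nil))))) .nil))))) .nil))))) .nil))))) .nil)))))]

theorem c14 : chkAll C T R L14 (nat_lit 406) = true := by decide +kernel

theorem l14 : (nat_lit 406) + L14.length = (nat_lit 424) := by decide +kernel

/-- part of the certificates -/
def L15 : List Prf := [(.br (nat_lit 14) (nat_lit 0) (.cons (.br (nat_lit 15) (nat_lit 0) (.cons (.ev (nat_lit 5337681171814165508087353017152570369) (nat_lit 3)) (.cons (.rf (nat_lit 1) (nat_lit 631047566317126882)) .nil))) .nil)),
 (.br (nat_lit 15) (nat_lit 0) (.cons (.ev (nat_lit 2689731627496738153150618478422655489) (nat_lit 3)) .nil)),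
 (.br (nat_lit 12) (nat_lit 0) (.cons (.br (nat_lit 13) (nat_lit 0) (.cons (.ev (nat_lit 81446558323033401901217590018049) (nat_lit 3)) (.cons (.br (nat_lit 14) (nat_lit 0) (.cons (.rf (nat_lit 424) (nat_lit 583706118939841765935136)) (.cons (.br (nat_lit 14) (nat_lit 0) (.cons (.rf (nat_lit 424) (nat_lit 583706118939841765935136)) (.cons (.br (nat_lit 15) (nat_lit 0) (.cons (.rf (nat_lit 425) (nat_lit 677582165103132179601393696)) (.cons (.rf (nat_lit 425) (nat_lit 640105464695078675185502240)) .nil))) .nil))) .nil))) .nil))) .nil)),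
 (.br (nat_lit 15) (nat_lit 0) (.cons (.kr (nat_lit 10384593717074432964057571310698497) (nat_lit 159077712899954711969986117632) (nat_lit 0) (nat_lit 1)) (.cons (.br (nat_lit 16) (nat_lit 0) (.cons (.kr (nat_lit 10384593717074377623825337297141761) (nat_lit 40564819207321787591972507091456) (nat_lit 0) (nat_lit 2)) (.cons (.ev (nat_lit 1366446379668133880051071660758908535809) (nat_lit 3)) .nil))) .nil))),
 (.br (nat_lit 13) (nat_lit 0) (.cons (.kr (nat_lit 20282409603688563912103260324096) (nat_lit 79538856449977355984993058816) (nat_lit 1) (nat_lit 0)) (.cons (.br (nat_lit 15) (nat_lit 0) (.cons (.kr (nat_lit 10384593717074432964057571310698497) (nat_lit 159077712899954711969986117632) (nat_lit 0) (nat_lit 1)) (.cons (.rf (nat_lit 427) (nat_lit 19926519232773908561233952)) (.cons (.br (nat_lit 15) (nat_lit 0) (.cons (.kr (nat_lit 10384593717074432964057571310698497) (nat_lit 159077712899954711969986117632) (nat_lit 0) (nat_lit 1)) (.cons (.rf (nat_lit 427) (nat_lit 19926519232773908561233952)) .nil))) .nil)))) .nil))),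
 (.br (nat_lit 15) (nat_lit 0) (.cons (.ev (nat_lit 1361150236872428355869970554503104037889) (nat_lit 3)) (.cons (.ev (nat_lit 5337762301457415743973426551840571393) (nat_lit 3)) .nil))),
 (.br (nat_lit 14) (nat_lit 0) (.cons (.rf (nat_lit 429) (nat_lit 677582165103132179601393696)) (.cons (.rf (nat_lit 429) (nat_lit 640105464695078675185502240)) .nil))),
 (.br (nat_lit 14) (nat_lit 0) (.cons (.rf (nat_lit 430) (nat_lit 677582165103132179601393696)) (.cons (.br (nat_lit 16) (nat_lit 0) (.cons (.br (nat_lit 15) (nat_lit 0) (.cons (.ev (nat_lit 5337681487488875452073477119611765761) (nat_lit 3)) .nil)) (.cons (.ev (nat_lit 1361150236872428355869970554503104037889) (nat_lit 3)) .nil))) .nil))),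
 (.br (nat_lit 14) (nat_lit 0) (.cons (.br (nat_lit 15) (nat_lit 0) (.cons (.kr (nat_lit 10384593719487507040405439100485633) (nat_lit 2658455991569836486621122543187132928) (nat_lit 0) (nat_lit 2)) (.cons (.rf (nat_lit 1) (nat_lit 631047566316111074)) .nil))) .nil)),
 (.br (nat_lit 15) (nat_lit 0) (.cons (.ev (nat_lit 1344865813749589817606419933747544321) (nat_lit 2)) .nil)),
 (.br (nat_lit 12) (nat_lit 0) (.cons (.br (nat_lit 13) (nat_lit 0) (.cons (.ev (nat_lit 121854770861812369132492788203527) (nat_lit 3)) (.cons (.br (nat_lit 14) (nat_lit 0) (.cons (.rf (nat_lit 432) (nat_lit 583706118939841765935136)) (.cons (.br (nat_lit 14) (nat_lit 0) (.cons (.rf (nat_lit 432) (nat_lit 583706118939841765935136)) (.cons (.br (nat_lit 15) (nat_lit 0) (.cons (.rf (nat_lit 433) (nat_lit 677582165103132179601393696)) (.cons (.rf (nat_lit 433) (nat_lit 640105464695078675185502240)) .nil))) .nil))) .nil))) .nil))) .nil)),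
 (.br (nat_lit 15) (nat_lit 0) (.cons (.br (nat_lit 16) (nat_lit 0) (.cons (.zr (nat_lit 1020852313421624803171183477170303467520) (nat_lit 261338187023276524865226229331503519629568) (nat_lit 8) (nat_lit 13)) .nil)) .nil)),
 (.br (nat_lit 13) (nat_lit 0) (.cons (.ev (nat_lit 20520407203018709737682667503872) (nat_lit 2)) (.cons (.br (nat_lit 14) (nat_lit 0) (.cons (.ev (nat_lit 10384752175817313132527165724819457) (nat_lit 2)) (.cons (.ev (nat_lit 10425159155251756092273741292110337) (nat_lit 2)) (.cons (.br (nat_lit 15) (nat_lit 0) (.cons (.rf (nat_lit 435) (nat_lit 677582165103132179601393696)) (.cons (.br (nat_lit 15) (nat_lit 0) (.cons (.rf (nat_lit 435) (nat_lit 677582165103132179601393696)) .nil)) .nil))) .nil)))) .nil))),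
 (.br (nat_lit 15) (nat_lit 0) (.cons (.kr (nat_lit 5192296858534827628530496329220096) (nat_lit 1329227995784915872903807060280344576) (nat_lit 14) (nat_lit 0)) (.cons (.ev (nat_lit 1334440575363748306290746754758344705) (nat_lit 1)) .nil))),
 (.br (nat_lit 14) (nat_lit 0) (.cons (.rf (nat_lit 437) (nat_lit 677582165103132179601393696)) (.cons (.rf (nat_lit 437) (nat_lit 640105464695078675185502240)) .nil))),
 (.br (nat_lit 14) (nat_lit 0) (.cons (.rf (nat_lit 438) (nat_lit 677582165103132179601393696)) (.cons (.br (nat_lit 16) (nat_lit 0) (.cons (.br (nat_lit 15) (nat_lit 0) (.cons (.ev (nat_lit 87452568318963905407693032519162579124225) (nat_lit 1)) .nil)) (.cons (.kr (nat_lit 340282366920938463463374607431768211456) (nat_lit 87112285931760246646623899502532662132736) (nat_lit 16) (nat_lit 0)) .nil))) .nil))),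
 (.br (nat_lit 10) (nat_lit 0) (.cons (.kr (nat_lit 2417851783344446442045441) (nat_lit 4740813508422626443776) (nat_lit 0) (nat_lit 2)) (.cons (.br (nat_lit 12) (nat_lit 0) (.cons (.rf (nat_lit 434) (nat_lit 493858305440582043680)) (.cons (.br (nat_lit 12) (nat_lit 0) (.cons (.rf (nat_lit 434) (nat_lit 493858305440582043680)) (.cons (.br (nat_lit 13) (nat_lit 0) (.cons (.rf (nat_lit 436) (nat_lit 583706118939841765935136)) (.cons (.rf (nat_lit 436) (nat_lit 547107778697602015528992)) (.cons (.br (nat_lit 13) (nat_lit 0) (.cons (.rf (nat_lit 436) (nat_lit 583706118939841765935136)) (.cons (.rf (nat_lit 436) (nat_lit 547107778697602015528992)) (.cons (.br (nat_lit 14) (nat_lit 0) (.cons (.rf (nat_lit 438) (nat_lit 677582165103132179601393696)) (.cons (.rf (nat_lit 439) (nat_lit 677582165103132179601393696)) (.cons (.rf (nat_lit 439) (nat_lit 640105464695078675185502240)) .nil)))) .nil)))) .nil)))) .nil))) .nil))) .nil))),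
 (.br (nat_lit 14) (nat_lit 0) (.cons (.br (nat_lit 15) (nat_lit 0) (.cons (.kr (nat_lit 10384593719487507040405439100485633) (nat_lit 2658455991569836486621122543187132928) (nat_lit 0) (nat_lit 2)) (.cons (.rf (nat_lit 58) (nat_lit 631047533097948234)) .nil))) .nil)),
 (.br (nat_lit 15) (nat_lit 0) (.cons (.ev (nat_lit 1344865971584512789450818958825554688) (nat_lit 2)) .nil)),
 (.br (nat_lit 14) (nat_lit 0) (.cons (.ev (nat_lit 5192376396182351786553327141060608) (nat_lit 1)) (.cons (.rf (nat_lit 58) (nat_lit 593855418381407306)) .nil))),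
 (.br (nat_lit 14) (nat_lit 0) (.cons (.ev (nat_lit 5192376396187074080697132049825793) (nat_lit 1)) (.cons (.rf (nat_lit 11) (nat_lit 593855484920047650)) .nil))),
 (.br (nat_lit 15) (nat_lit 0) (.cons (.ev (nat_lit 1329228075322563397061829891092185088) (nat_lit 1)) (.cons (.rf (nat_lit 70) (nat_lit 592763671111832649)) .nil))),
 (.br (nat_lit 13) (nat_lit 0) (.cons (.br (nat_lit 14) (nat_lit 0) (.cons (.kr (nat_lit 1334420292643450737425825712618602752) (nat_lit 20361948460101647779932244344832) (nat_lit 1) (nat_lit 0)) (.cons (.br (nat_lit 15) (nat_lit 0) (.cons (.ev (nat_lit 15971545863240442176417658529764215813) (nat_lit 4)) (.cons (.rf (nat_lit 11) (nat_lit 631047566317037602)) .nil))) .nil))) (.cons (.br (nat_lit 14) (nat_lit 0) (.cons (.rf (nat_lit 444) (nat_lit 622703726023049662793760)) (.cons (.rf (nat_lit 445) (nat_lit 622703726024184607901728)) (.cons (.br (nat_lit 15) (nat_lit 0) (.cons (.br (nat_lit 15) (nat_lit 0) (.cons (.ev (nat_lit 2668881308562438473891824013175554561) (nat_lit 2)) .nil)) (.cons (.br (nat_lit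 15) (nat_lit 0) (.cons (.ev (nat_lit 2668881308562438473891824013175554561) (nat_lit 2)) .nil)) .nil))) .nil)))) .nil))),
 (.br (nat_lit 14) (nat_lit 0) (.cons (.ev (nat_lit 2668881308562438473891824013175554561) (nat_lit 2)) (.cons (.br (nat_lit 16) (nat_lit 0) (.cons (.ev (nat_lit 683223189834065733470050630879684853763) (nat_lit 2)) (.cons (.kr (nat_lit 10384593719487507040405439100485633) (nat_lit 680564733841876931667562723286162866688) (nat_lit 0) (nat_lit 2)) .nil))) .nil))),
 (.br (nat_lit 13) (nat_lit 0) (.cons (.rf (nat_lit 446) (nat_lit 583706118939841765935136)) (.cons (.br (nat_lit 14) (nat_lit 0) (.cons (.br (nat_lit 14) (nat_lit 0) (.cons (.ev (nat_lit 2668881308562438473891824013175554561) (nat_lit 2)) (.cons (.rf (nat_lit 15) (nat_lit 631047566317037602)) .nil))) (.cons (.rf (nat_lit 447) (nat_lit 19926519232773908561233952)) (.cons (.br (nat_lit 14) (nat_lit 0) (.cons (.rf (nat_lit 15) (nat_lit 631047566317037602)) (.cons (.rf (nat_lit 447) (nat_lit 19926519232773908561233952)) .nil))) .nil)))) .nil))),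
 (.br (nat_lit 15) (nat_lit 0) (.cons (.ev (nat_lit 1334440575054268000460916596735475968) (nat_lit 1)) .nil)),
 (.br (nat_lit 15) (nat_lit 0) (.cons (.ev (nat_lit 2668881308562438473891824013175554561) (nat_lit 2)) (.cons (.kr (nat_lit 1329227995786124798795479283509755905) (nat_lit 340282366920938463481821351509772730880) (nat_lit 0) (nat_lit 2)) (.cons (.rf (nat_lit 449) (nat_lit 21174442659472880612509728)) .nil)))),
 (.br (nat_lit 14) (nat_lit 0) (.cons (.rf (nat_lit 450) (nat_lit 19926519232773908561233952)) (.cons (.rf (nat_lit 450) (nat_lit 21135445052388537735940128)) .nil))),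
 (.br (nat_lit 14) (nat_lit 0) (.cons (.rf (nat_lit 450) (nat_lit 19926519232773908561233952)) (.cons (.br (nat_lit 16) (nat_lit 0) (.cons (.br (nat_lit 15) (nat_lit 0) (.cons (.ev (nat_lit 1329248357423895705471692748110233600) (nat_lit 1)) .nil)) (.cons (.kr (nat_lit 340282366920938463463374607431768211456) (nat_lit 87112285931760246646623899502532662132736) (nat_lit 16) (nat_lit 0)) .nil))) .nil))),
 (.br (nat_lit 10) (nat_lit 0) (.cons (.kr (nat_lit 2417851783344446442045441) (nat_lit 4740813508422626443776) (nat_lit 0) (nat_lit 2)) (.cons (.ev (nat_lit 79228162532783140360819900416) (nat_lit 1)) (.cons (.br (nat_lit 11) (nat_lit 0) (.cons (.ev (nat_lit 618974797493801895587741699) (nat_lit 2)) (.cons (.ev (nat_lit 621392612095427827065683969) (nat_lit 2)) (.cons (.br (nat_lit 12) (nat_lit 0) (.cons (.br (nat_lit 13) (nat_lit 0) (.cons (.ev (nat_lit 40725137282834889562649518015495) (nat_lit 3)) (.cons (.br (nat_lit 14) (nat_lit 0) (.cons (.rf (nat_lit 441) (nat_lit 583706118939841765935136)) (.cons (.br (nat_lit 14) (nat_lit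 0) (.cons (.rf (nat_lit 441) (nat_lit 583706118939841765935136)) (.cons (.br (nat_lit 15) (nat_lit 0) (.cons (.rf (nat_lit 442) (nat_lit 677582165103132179601393696)) (.cons (.rf (nat_lit 442) (nat_lit 640105464695078675185502240)) .nil))) .nil))) .nil))) .nil))) (.cons (.br (nat_lit 13) (nat_lit 0) (.cons (.ev (nat_lit 5192297169233485636254543145599233) (nat_lit 1)) (.cons (.br (nat_lit 13) (nat_lit 0) (.cons (.ev (nat_lit 5192297169228781716234267955036416) (nat_lit 1)) (.cons (.br (nat_lit 14) (nat_lit 0) (.cons (.rf (nat_lit 443) (nat_lit 622703726024184607901728)) (.cons (.rf (nat_lit 443) (nat_lit 586105385781944857495584)) (.cons (.br (nat_lit 15) (nat_lit 0) (.cons (.br (nat_lit 15) (nat_lit 0) (.cons (.ev (nat_lit 2668881308562438473891824013175554561) (nat_lit 2)) .nil)) (.cons (.br (nat_lit 15) (nat_lit 0) (.cons (.ev (nat_lit 2668881308562438473891824013175554561) (nat_lit 2)) .nil)) .nil))) .nil)))) .nil))) .nil))) (.cons (.br (nat_lit 13) (nat_lit 0) (.cons (.rf (nat_lit 446) (nat_lit 583706118939841765935136))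 (.cons (.rf (nat_lit 448) (nat_lit 583706118939841765935136)) (.cons (.br (nat_lit 13) (nat_lit 0) (.cons (.rf (nat_lit 446) (nat_lit 583706118939841765935136)) (.cons (.rf (nat_lit 448) (nat_lit 583706118939841765935136)) (.cons (.br (nat_lit 14) (nat_lit 0) (.cons (.rf (nat_lit 451) (nat_lit 677582165103132179601393696)) (.cons (.rf (nat_lit 452) (nat_lit 677582165103132179601393696)) (.cons (.rf (nat_lit 452) (nat_lit 640105464695078675185502240)) .nil)))) .nil)))) .nil)))) .nil)))) .nil)))) .nil)))),
 (.br (nat_lit 14) (nat_lit 0) (.cons (.br (nat_lit 15) (nat_lit 0) (.cons (.kr (nat_lit 2658455991569836468174378465199390721) (nat_lit 10384593717069673703805070662959616) (nat_lit 0) (nat_lit 2)) (.cons (.rf (nat_lit 58) (nat_lit 631047566484804673)) .nil))) .nil)),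
 (.br (nat_lit 15) (nat_lit 0) (.cons (.ev (nat_lit 1344865971585721770394493022736941313) (nat_lit 2)) .nil))]

theorem c15 : chkAll C T R L15 (nat_lit 424) = true := by decide +kernel

theorem l15 : (nat_lit 424) + L15.length = (nat_lit 456) := by decide +kernel

/-- part of the certificates -/
def L16 : List Prf := [(.br (nat_lit 12) (nat_lit 0) (.cons (.ev (nat_lit 41040808385020369144924871197184) (nat_lit 3)) (.cons (.br (nat_lit 14) (nat_lit 0) (.cons (.ev (nat_lit 10425159155251756092273741292110337) (nat_lit 2)) (.cons (.ev (nat_lit 10384752174603628268832818066489347) (nat_lit 2)) (.cons (.br (nat_lit 15) (nat_lit 0) (.cons (.br (nat_lit 15) (nat_lit 0) (.cons (.ev (nat_lit 2668881308563656862963768986439909376) (nat_lit 2)) .nil)) (.cons (.br (nat_lit 15) (nat_lit 0) (.cons (.ev (nat_lit 2668881308563656862963768986439909376) (nat_lit 2)) .nil)) .nil))) .nil)))) .nil))),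
 (.br (nat_lit 14) (nat_lit 0) (.cons (.br (nat_lit 16) (nat_lit 0) (.cons (.zr (nat_lit 1022176349120547557438783737064616690432) (nat_lit 261336862987577599683625218710317561806850) (nat_lit 8) (nat_lit 12)) .nil)) .nil)),
 (.br (nat_lit 12) (nat_lit 0) (.cons (.ev (nat_lit 41040808385020369144924871197184) (nat_lit 3)) (.cons (.br (nat_lit 15) (nat_lit 0) (.cons (.ev (nat_lit 2658496557009218050167734747785069057) (nat_lit 2)) (.cons (.ev (nat_lit 2658456150026161515294478067378028547) (nat_lit 2)) (.cons (.br (nat_lit 14) (nat_lit 0) (.cons (.rf (nat_lit 457) (nat_lit 677582165103132179601393696)) (.cons (.br (nat_lit 14) (nat_lit 0) (.cons (.rf (nat_lit 457) (nat_lit 677582165103132179601393696)) .nil)) .nil))) .nil)))) .nil))),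
 (.br (nat_lit 15) (nat_lit 0) (.cons (.kr (nat_lit 2658455991569836468174378465182613504) (nat_lit 10384593718278581148733215871074304) (nat_lit 6) (nat_lit 0)) (.cons (.ev (nat_lit 1334420371872822140616572353816625408) (nat_lit 1)) .nil))),
 (.br (nat_lit 14) (nat_lit 0) (.cons (.rf (nat_lit 459) (nat_lit 677582165103132179601393696)) (.cons (.rf (nat_lit 459) (nat_lit 640105464695078675185502240)) .nil))),
 (.br (nat_lit 14) (nat_lit 0) (.cons (.rf (nat_lit 460) (nat_lit 677582165103132179601393696)) (.cons (.br (nat_lit 16) (nat_lit 0) (.cons (.br (nat_lit 15) (nat_lit 0) (.cons (.ev (nat_lit 2668881150726301817183730640372105216) (nat_lit 2)) .nil)) (.cons (.kr (nat_lit 340282366920938463463374607431768211456) (nat_lit 87112285931760246646623899502532662132736) (nat_lit 16) (nat_lit 0)) .nil))) .nil))),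
 (.br (nat_lit 15) (nat_lit 0) (.cons (.zr (nat_lit 5212658805800170484931239226703872) (nat_lit 1329227995787333761580639662714650880) (nat_lit 8) (nat_lit 11)) .nil)),
 (.br (nat_lit 13) (nat_lit 0) (.cons (.br (nat_lit 14) (nat_lit 0) (.cons (.kr (nat_lit 40564819207321787873443188834305) (nat_lit 10384593717074377623543866615398400) (nat_lit 0) (nat_lit 1)) (.cons (.rf (nat_lit 50) (nat_lit 605840417824284382273)) .nil))) (.cons (.br (nat_lit 14) (nat_lit 0) (.cons (.rf (nat_lit 50) (nat_lit 606992210271210247233)) (.cons (.kr (nat_lit 40564819207321787873443188834305) (nat_lit 10384593717074377623543866615398400) (nat_lit 0) (nat_lit 1)) (.cons (.br (nat_lit 15) (nat_lit 0) (.cons (.rf (nat_lit 462) (nat_lit 677582165103132179601393696)) (.cons (.rf (nat_lit 462) (nat_lit 640104320993458560513872931)) .nil))) .nil)))) .nil))),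
 (.br (nat_lit 13) (nat_lit 0) (.cons (.rf (nat_lit 463) (nat_lit 583706118939841765935136)) (.cons (.br (nat_lit 15) (nat_lit 0) (.cons (.br (nat_lit 14) (nat_lit 0) (.cons (.ev (nat_lit 31194347210778975070033663192204289) (nat_lit 3)) (.cons (.rf (nat_lit 15) (nat_lit 631047566316117026)) .nil))) (.cons (.br (nat_lit 14) (nat_lit 0) (.cons (.ev (nat_lit 683223189834068151284652256811162796033) (nat_lit 2)) (.cons (.br (nat_lit 14) (nat_lit 0) (.cons (.ev (nat_lit 683223189834068151284652256811162796033) (nat_lit 2)) .nil)) .nil))) (.cons (.rf (nat_lit 48) (nat_lit 20677049762467202405441)) .nil)))) .nil))),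
 (.br (nat_lit 14) (nat_lit 0) (.cons (.rf (nat_lit 464) (nat_lit 582562417319727094305827)) (.cons (.ev (nat_lit 31194347210778975070033663192204289) (nat_lit 3)) .nil))),
 (.br (nat_lit 14) (nat_lit 0) (.cons (.ev (nat_lit 31194662890324695833362183789741061) (nat_lit 3)) (.cons (.br (nat_lit 15) (nat_lit 0) (.cons (.ev (nat_lit 2668881308562438473891824013175554561) (nat_lit 2)) (.cons (.rf (nat_lit 20) (nat_lit 631046501165148194)) .nil))) .nil))),
 (.br (nat_lit 15) (nat_lit 0) (.cons (.br (nat_lit 16) (nat_lit 0) (.cons (.zr (nat_lit 174224582288838104870032275278054681608201) (nat_lit 5316911983146917046965261580514624512) (nat_lit 16) (nat_lit 2)) .nil)) .nil)),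
 (.br (nat_lit 14) (nat_lit 0) (.cons (.ev (nat_lit 5212658497514660196416184159109120) (nat_lit 1)) (.cons (.rf (nat_lit 20) (nat_lit 631013448169653474)) .nil))),
 (.br (nat_lit 13) (nat_lit 0) (.cons (.br (nat_lit 15) (nat_lit 0) (.cons (.ev (nat_lit 340287559218106488023191248440955830528) (nat_lit 1)) .nil)) .nil)),
 (.br (nat_lit 13) (nat_lit 0) (.cons (.rf (nat_lit 469) (nat_lit 19926519232773908561233952)) (.cons (.br (nat_lit 13) (nat_lit 0) (.cons (.rf (nat_lit 469) (nat_lit 19926519232773908561233952)) .nil)) .nil))),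
 (.br (nat_lit 14) (nat_lit 0) (.cons (.ev (nat_lit 680564734000335674584624681036602802177) (nat_lit 2)) (.cons (.br (nat_lit 16) (nat_lit 0) (.cons (.ev (nat_lit 7975449580338277652900497001055389191) (nat_lit 3)) (.cons (.ev (nat_lit 340287579500517300600681004442893418496) (nat_lit 1)) .nil))) .nil))),
 (.br (nat_lit 14) (nat_lit 0) (.cons (.br (nat_lit 16) (nat_lit 0) (.cons (.kr (nat_lit 680564733841876931649115979208175124481) (nat_lit 2658455991569831764254358198565208576) (nat_lit 0) (nat_lit 2)) (.cons (.ev (nat_lit 340287579500516091693380191485777936385) (nat_lit 1)) .nil))) (.cons (.br (nat_lit 15) (nat_lit 0) (.cons (.br (nat_lit 16) (nat_lit 0) (.cons (.ev (nat_lit 1363808693023073482627057173873909957123) (nat_lit 3)) .nil)) (.cons (.ev (nat_lit 174227240744671220794564300518841475138051) (nat_lit 2)) .nil))) .nil))),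
 (.br (nat_lit 12) (nat_lit 0) (.cons (.br (nat_lit 13) (nat_lit 0) (.cons (.kr (nat_lit 40564819207321787873443188834305) (nat_lit 10384593717074377623543866615398400) (nat_lit 0) (nat_lit 1)) (.cons (.rf (nat_lit 466) (nat_lit 583706118939841765935136)) (.cons (.br (nat_lit 14) (nat_lit 0) (.cons (.rf (nat_lit 466) (nat_lit 582562417319727094305827)) (.cons (.ev (nat_lit 31194662890324695833362183789741061) (nat_lit 3)) (.cons (.br (nat_lit 15) (nat_lit 0) (.cons (.rf (nat_lit 404) (nat_lit 20677049765867702918178)) (.cons (.rf (nat_lit 404) (nat_lit 19532199834390080301090)) .nil))) .nil)))) .nil)))) (.cons (.br (nat_lit 15) (nat_lit 0) (.cons (.ev (nat_lit 1329227996094405623610718141391307008) (nat_lit 1)) (.cons (.ev (nat_lit 1329227996095614530911531107096723713) (nat_lit 1)) (.cons (.br (nat_lit 13) (nat_lit 0) (.cons (.br (nat_lit 14) (nat_lit 0) (.cons (.ev (nat_lit 2668881308562438473891824013175554561) (nat_lit 2)) (.cons (.rf (nat_lit 20) (nat_lit 631011351151750178)) .nil))) (.cons (.br (nat_lit 14) (nat_lit 0)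 (.cons (.kr (nat_lit 2658455991572249597590958567002734593) (nat_lit 680564733841876931667562723286162866688) (nat_lit 0) (nat_lit 2)) (.cons (.br (nat_lit 14) (nat_lit 0) (.cons (.kr (nat_lit 2658455991572249597590958567002734593) (nat_lit 680564733841876931667562723286162866688) (nat_lit 0) (nat_lit 2)) .nil)) .nil))) (.cons (.br (nat_lit 14) (nat_lit 0) (.cons (.br (nat_lit 14) (nat_lit 0) (.cons (.ev (nat_lit 2668881308564856362280426222244725251) (nat_lit 2)) .nil)) (.cons (.br (nat_lit 14) (nat_lit 0) (.cons (.ev (nat_lit 2668881308564856362280426222244725251) (nat_lit 2)) .nil)) .nil))) .nil)))) .nil)))) (.cons (.br (nat_lit 13) (nat_lit 0) (.cons (.br (nat_lit 14) (nat_lit 0) (.cons (.br (nat_lit 15) (nat_lit 0) (.cons (.ev (nat_lit 2679225654994338865116569039159034371) (nat_lit 3)) (.cons (.rf (nat_lit 20) (nat_lit 631047533031130338)) .nil))) (.cons (.ev (nat_lit 5212658496301012082094804400406528) (nat_lit 1)) (.cons (.br (nat_lit 15) (nat_lit 0) (.cons (.rf (nat_lit 467) (nat_lit 677582165103132179601393696)) (.cons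 (.br (nat_lit 15) (nat_lit 0) (.cons (.rf (nat_lit 467) (nat_lit 677582165103132179601393696)) .nil)) .nil))) .nil)))) (.cons (.br (nat_lit 15) (nat_lit 0) (.cons (.rf (nat_lit 468) (nat_lit 19926519232773908561233952)) (.cons (.ev (nat_lit 7975449264661149746450564018604212741) (nat_lit 3)) (.cons (.rf (nat_lit 470) (nat_lit 21174442659471745632798752)) .nil)))) (.cons (.br (nat_lit 14) (nat_lit 0) (.cons (.rf (nat_lit 471) (nat_lit 19926519232773908561233952)) (.cons (.ev (nat_lit 680564734000335674584624681036602802177) (nat_lit 2)) (.cons (.br (nat_lit 14) (nat_lit 0) (.cons (.rf (nat_lit 471) (nat_lit 19926519232773908561233952)) (.cons (.ev (nat_lit 680564734000335674584624681036602802177) (nat_lit 2)) .nil))) .nil)))) (.cons (.br (nat_lit 14) (nat_lit 0) (.cons (.rf (nat_lit 472) (nat_lit 677582165103132179601393696)) (.cons (.br (nat_lit 14) (nat_lit 0) (.cons (.rf (nat_lit 472) (nat_lit 677582165103132179601393696)) (.cons (.ev (nat_lit 5212658497514660196416184159109120) (nat_lit 1)) .nil))) (.cons (.br (nat_lit 14)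 (nat_lit 0) (.cons (.rf (nat_lit 472) (nat_lit 677582165103132179601393696)) (.cons (.ev (nat_lit 5212658497514660196416184159109120) (nat_lit 1)) .nil))) .nil)))) .nil))))) .nil)))),
 (.br (nat_lit 13) (nat_lit 0) (.cons (.ev (nat_lit 618974797493801895587741699) (nat_lit 2)) (.cons (.ev (nat_lit 2658456150026161515294478067378028547) (nat_lit 2)) (.cons (.ev (nat_lit 680564734000333256696236078810353762307) (nat_lit 2)) (.cons (.br (nat_lit 14) (nat_lit 0) (.cons (.ev (nat_lit 621392612095427827065683969) (nat_lit 2)) (.cons (.ev (nat_lit 2658456150028579403683080293627068417) (nat_lit 2)) (.cons (.ev (nat_lit 680564734000335674584624681036602802177) (nat_lit 2)) (.cons (.kr (nat_lit 40564819207321787873443188834305) (nat_lit 10384593717074377623543866615398400) (nat_lit 0) (nat_lit 1)) .nil))))) .nil))))),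
 (.br (nat_lit 13) (nat_lit 0) (.cons (.ev (nat_lit 618974797493801895587741699) (nat_lit 2)) (.cons (.rf (nat_lit 474) (nat_lit 19926519232773908561233952)) (.cons (.ev (nat_lit 2658456150026161515294478067378028547) (nat_lit 2)) (.cons (.ev (nat_lit 680564734000333256696236078810353762307) (nat_lit 2)) (.cons (.br (nat_lit 13) (nat_lit 0) (.cons (.ev (nat_lit 618974797493801895587741699) (nat_lit 2)) (.cons (.rf (nat_lit 474) (nat_lit 19926519232773908561233952)) (.cons (.ev (nat_lit 2658456150026161515294478067378028547) (nat_lit 2)) (.cons (.ev (nat_lit 680564734000333256696236078810353762307) (nat_lit 2)) .nil))))) .nil)))))),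
 (.br (nat_lit 16) (nat_lit 0) (.cons (.kr (nat_lit 40564819207321787873443188834305) (nat_lit 10384593717074377623543866615398400) (nat_lit 0) (nat_lit 1)) (.cons (.ev (nat_lit 341611594995951541869061836332140134657) (nat_lit 1)) .nil))),
 (.br (nat_lit 13) (nat_lit 0) (.cons (.rf (nat_lit 476) (nat_lit 677582165103132179601393696)) (.cons (.br (nat_lit 14) (nat_lit 0) (.cons (.rf (nat_lit 476) (nat_lit 677581021401512064929764387)) (.cons (.kr (nat_lit 87112285952042656250294016952028599681280) (nat_lit 1334420292644659626424009779838976000) (nat_lit 1) (nat_lit 0)) .nil))) .nil))),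
 (.br (nat_lit 13) (nat_lit 0) (.cons (.rf (nat_lit 477) (nat_lit 677582165103132179601393696)) (.cons (.br (nat_lit 17) (nat_lit 0) (.cons (.kr (nat_lit 2658455991572249597590958567002734593) (nat_lit 174224571863520493297988612513487950709248) (nat_lit 0) (nat_lit 2)) (.cons (.ev (nat_lit 341611594995951546572981293648787341568) (nat_lit 1)) .nil))) .nil))),
 (.br (nat_lit 12) (nat_lit 0) (.cons (.rf (nat_lit 473) (nat_lit 583706118939841765935136)) (.cons (.rf (nat_lit 473) (nat_lit 582562417319727094305827)) (.cons (.br (nat_lit 15) (nat_lit 0) (.cons (.ev (nat_lit 1329227996094400882797209727338021121) (nat_lit 1)) (.cons (.ev (nat_lit 1329227996095614530911531107096723713) (nat_lit 1)) (.cons (.rf (nat_lit 475) (nat_lit 19926519232773908561233952)) (.cons (.br (nat_lit 13) (nat_lit 0) (.cons (.rf (nat_lit 477) (nat_lit 677582165103132179601393696)) (.cons (.rf (nat_lit 478) (nat_lit 677582165103132179601393696)) (.cons (.br (nat_lit 13) (nat_lit 0) (.cons (.rf (nat_lit 477) (nat_lit 677582165103132179601393696)) (.cons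 (.rf (nat_lit 478) (nat_lit 677582165103132179601393696)) .nil))) .nil)))) .nil))))) .nil)))),
 (.br (nat_lit 13) (nat_lit 0) (.cons (.kr (nat_lit 40564819207321787873443188834305) (nat_lit 10384593717074377623543866615398400) (nat_lit 0) (nat_lit 1)) (.cons (.br (nat_lit 14) (nat_lit 0) (.cons (.ev (nat_lit 5327418272554717762853961590728818693) (nat_lit 3)) (.cons (.ev (nat_lit 3402896483221422595478468700708404331523) (nat_lit 4)) .nil))) (.cons (.br (nat_lit 14) (nat_lit 0) (.cons (.ev (nat_lit 680637548485254636401037585733265261579) (nat_lit 4)) (.cons (.ev (nat_lit 349810304389387625929268152597623372776449) (nat_lit 3)) .nil))) .nil)))),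
 (.br (nat_lit 16) (nat_lit 0) (.cons (.rf (nat_lit 480) (nat_lit 677582165103132179601393696)) (.cons (.br (nat_lit 13) (nat_lit 0) (.cons (.br (nat_lit 15) (nat_lit 0) (.cons (.ev (nat_lit 3405544513895388108699070095445635106315) (nat_lit 4)) (.cons (.ev (nat_lit 1369104916948419839229152245574138987009) (nat_lit 3)) .nil))) (.cons (.kr (nat_lit 680564733841876931649115979208175124481) (nat_lit 2658455991569831764254358198565208576) (nat_lit 0) (nat_lit 2)) (.cons (.br (nat_lit 17) (nat_lit 0) (.cons (.rf (nat_lit 480) (nat_lit 640105464695078675185502240)) (.cons (.ev (nat_lit 7975449580335859690436688120929190405) (nat_lit 3)) .nil))) .nil)))) (.cons (.ev (nat_lit 680564734000333256696236078810353762307) (nat_lit 2)) .nil)))),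
 (.br (nat_lit 14) (nat_lit 0) (.cons (.br (nat_lit 15) (nat_lit 0) (.cons (.kr (nat_lit 2658455991569836486621122543187132417) (nat_lit 10384593719487507040405439100485632) (nat_lit 0) (nat_lit 1)) (.cons (.rf (nat_lit 58) (nat_lit 631047533030841418)) .nil))) .nil))]

theorem c16 : chkAll C T R L16 (nat_lit 456) = true := by decide +kernel

theorem l16 : (nat_lit 456) + L16.length = (nat_lit 483) := by decide +kernel

/-- part of the certificates -/
def L17 : List Prf := [(.br (nat_lit 15) (nat_lit 0) (.cons (.ev (nat_lit 1344865971584512789450818958825554688) (nat_lit 2)) .nil)),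
 (.br (nat_lit 14) (nat_lit 0) (.cons (.ev (nat_lit 5192376396182351786553327141060608) (nat_lit 1)) (.cons (.rf (nat_lit 58) (nat_lit 593855418347853898)) .nil))),
 (.br (nat_lit 15) (nat_lit 0) (.cons (.ev (nat_lit 1329228075322563397061829891092185088) (nat_lit 1)) (.cons (.rf (nat_lit 70) (nat_lit 592763671110785097)) .nil))),
 (.br (nat_lit 13) (nat_lit 0) (.cons (.br (nat_lit 14) (nat_lit 0) (.cons (.kr (nat_lit 1334420292643450737425825712618602752) (nat_lit 20361948460101647779932244344832) (nat_lit 1) (nat_lit 0)) (.cons (.br (nat_lit 15) (nat_lit 0) (.cons (.ev (nat_lit 15971545863240442176417658529764212737) (nat_lit 4)) (.cons (.rf (nat_lit 11) (nat_lit 631047566384080930)) .nil))) .nil))) (.cons (.br (nat_lit 14) (nat_lit 0) (.cons (.br (nat_lit 15) (nat_lit 0) (.cons (.ev (nat_lit 1329248357423895705471692748110233857) (nat_lit 1)) (.cons (.rf (nat_lit 11) (nat_lit 631046501231143970)) .nil))) (.cons (.rf (nat_lit 485) (nat_lit 622703726024184607901728)) (.cons (.br (nat_lit 15) (nat_lit 0) (.cons (.br (nat_lit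 15) (nat_lit 0) (.cons (.ev (nat_lit 2668881308562438473891824013175554561) (nat_lit 2)) .nil)) (.cons (.br (nat_lit 15) (nat_lit 0) (.cons (.ev (nat_lit 2668881308562438473891824013175554561) (nat_lit 2)) .nil)) .nil))) .nil)))) .nil))),
 (.br (nat_lit 14) (nat_lit 0) (.cons (.ev (nat_lit 2668881308562438473891824013175554561) (nat_lit 2)) (.cons (.br (nat_lit 16) (nat_lit 0) (.cons (.ev (nat_lit 683223189834065733470050630879684854273) (nat_lit 2)) (.cons (.kr (nat_lit 680564733841876931667562723286162866177) (nat_lit 10384593719487507040405439100485632) (nat_lit 0) (nat_lit 1)) .nil))) .nil))),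
 (.br (nat_lit 13) (nat_lit 0) (.cons (.rf (nat_lit 486) (nat_lit 583706118939841765935136)) (.cons (.br (nat_lit 14) (nat_lit 0) (.cons (.br (nat_lit 14) (nat_lit 0) (.cons (.ev (nat_lit 2668881308562438473891824013175554561) (nat_lit 2)) (.cons (.rf (nat_lit 15) (nat_lit 631047566384080930)) .nil))) (.cons (.rf (nat_lit 487) (nat_lit 19926519232773908561233952)) (.cons (.br (nat_lit 14) (nat_lit 0) (.cons (.rf (nat_lit 15) (nat_lit 631047566384080930)) (.cons (.rf (nat_lit 487) (nat_lit 19926519232773908561233952)) .nil))) .nil)))) .nil))),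
 (.br (nat_lit 15) (nat_lit 0) (.cons (.kr (nat_lit 341611594916723384058645178836670480385) (nat_lit 10384593718278581148733215871074560) (nat_lit 0) (nat_lit 2)) (.cons (.br (nat_lit 16) (nat_lit 0) (.cons (.ev (nat_lit 341616787213892608117994648760003592448) (nat_lit 1)) .nil)) .nil))),
 (.br (nat_lit 14) (nat_lit 0) (.cons (.rf (nat_lit 489) (nat_lit 677582165103132179601393696)) (.cons (.rf (nat_lit 489) (nat_lit 640105464695078675185502240)) .nil))),
 (.br (nat_lit 14) (nat_lit 0) (.cons (.rf (nat_lit 490) (nat_lit 677582165103132179601393696)) (.cons (.br (nat_lit 16) (nat_lit 0) (.cons (.br (nat_lit 15) (nat_lit 0) (.cons (.ev (nat_lit 1329248357423895705471692748110233857) (nat_lit 1)) .nil)) (.cons (.kr (nat_lit 340282366920938463463374607431768211456) (nat_lit 87112285931760246646623899502532662132736) (nat_lit 16) (nat_lit 0)) .nil))) .nil))),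
 (.br (nat_lit 14) (nat_lit 0) (.cons (.br (nat_lit 15) (nat_lit 0) (.cons (.kr (nat_lit 2658455991569836468174378465199390721) (nat_lit 10384593717069673703805070662959616) (nat_lit 0) (nat_lit 2)) (.cons (.rf (nat_lit 58) (nat_lit 631047566484741185)) .nil))) .nil)),
 (.br (nat_lit 15) (nat_lit 0) (.cons (.ev (nat_lit 1344865971586930677839421167894724864) (nat_lit 2)) .nil)),
 (.br (nat_lit 15) (nat_lit 0) (.cons (.rf (nat_lit 493) (nat_lit 677582165103132179601393696)) (.cons (.rf (nat_lit 493) (nat_lit 640105464695078675185502240)) .nil))),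
 (.br (nat_lit 12) (nat_lit 0) (.cons (.ev (nat_lit 40725134865020576167111371654145) (nat_lit 3)) (.cons (.br (nat_lit 14) (nat_lit 0) (.cons (.rf (nat_lit 492) (nat_lit 583706118939841765935136)) (.cons (.br (nat_lit 14) (nat_lit 0) (.cons (.rf (nat_lit 492) (nat_lit 583706118939841765935136)) (.cons (.rf (nat_lit 494) (nat_lit 677582165103132179601393696)) .nil))) .nil))) .nil))),
 (.br (nat_lit 12) (nat_lit 0) (.cons (.ev (nat_lit 40725134865020576167111371654145) (nat_lit 3)) (.cons (.br (nat_lit 13) (nat_lit 0) (.cons (.ev (nat_lit 5192297169228781716234267955036416) (nat_lit 1)) (.cons (.br (nat_lit 14) (nat_lit 0) (.cons (.kr (nat_lit 2658455991569836486621122543187132417) (nat_lit 10384593719487507040405439100485632) (nat_lit 0) (nat_lit 1)) (.cons (.br (nat_lit 15) (nat_lit 0) (.cons (.ev (nat_lit 15971545863223517178193680753418702337) (nat_lit 4)) (.cons (.rf (nat_lit 11) (nat_lit 631047533098239138)) .nil))) .nil))) (.cons (.br (nat_lit 14) (nat_lit 0) (.cons (.rf (nat_lit 485) (nat_lit 586104268562505148931401))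 (.cons (.br (nat_lit 16) (nat_lit 0) (.cons (.ev (nat_lit 340282387282577438555128984705544814848) (nat_lit 1)) (.cons (.rf (nat_lit 11) (nat_lit 629954687249231010)) .nil))) (.cons (.br (nat_lit 15) (nat_lit 0) (.cons (.br (nat_lit 15) (nat_lit 0) (.cons (.ev (nat_lit 2668881308562438473891824013175554561) (nat_lit 2)) .nil)) (.cons (.br (nat_lit 15) (nat_lit 0) (.cons (.ev (nat_lit 2668881308562438473891824013175554561) (nat_lit 2)) .nil)) .nil))) .nil)))) .nil)))) .nil))),
 (.br (nat_lit 14) (nat_lit 0) (.cons (.ev (nat_lit 2668881308564856362280426222244724737) (nat_lit 2)) (.cons (.br (nat_lit 16) (nat_lit 0) (.cons (.ev (nat_lit 683223189834068151284652256811162796033) (nat_lit 2)) (.cons (.kr (nat_lit 680564733841876931649115979208175124481) (nat_lit 10384593717069673703805070662959616) (nat_lit 0) (nat_lit 2)) .nil))) .nil))),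
 (.br (nat_lit 14) (nat_lit 0) (.cons (.br (nat_lit 14) (nat_lit 0) (.cons (.ev (nat_lit 2668881308564856362280426222244724737) (nat_lit 2)) (.cons (.rf (nat_lit 15) (nat_lit 631047533098239138)) .nil))) (.cons (.rf (nat_lit 497) (nat_lit 19926519232773908561233952)) (.cons (.br (nat_lit 14) (nat_lit 0) (.cons (.rf (nat_lit 15) (nat_lit 631047533098239138)) (.cons (.rf (nat_lit 497) (nat_lit 19926519232773908561233952)) .nil))) .nil)))),
 (.br (nat_lit 12) (nat_lit 0) (.cons (.kr (nat_lit 79228162514264337593543950336) (nat_lit 20282409603651670423947251286016) (nat_lit 12) (nat_lit 0)) (.cons (.br (nat_lit 13) (nat_lit 0) (.cons (.ev (nat_lit 20361947251194202851782741262336) (nat_lit 1)) .nil)) .nil))),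
 (.br (nat_lit 16) (nat_lit 0) (.cons (.kr (nat_lit 1329227995784915872903807060280344576) (nat_lit 340282366920938463463374607431768211456) (nat_lit 15) (nat_lit 0)) (.cons (.ev (nat_lit 340282387282576234351748192015029960705) (nat_lit 1)) .nil))),
 (.br (nat_lit 14) (nat_lit 0) (.cons (.rf (nat_lit 499) (nat_lit 20678166659641450336321)) (.cons (.br (nat_lit 15) (nat_lit 0) (.cons (.rf (nat_lit 500) (nat_lit 677582165103132179601393696)) (.cons (.kr (nat_lit 87112285931760246646642346246610666651904) (nat_lit 1329227995786124798795479283509755904) (nat_lit 1) (nat_lit 0)) .nil))) .nil))),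
 (.br (nat_lit 15) (nat_lit 0) (.cons (.ev (nat_lit 1329248357423895705471692748093456385) (nat_lit 1)) (.cons (.rf (nat_lit 11) (nat_lit 631045369498020002)) .nil))),
 (.br (nat_lit 12) (nat_lit 0) (.cons (.br (nat_lit 13) (nat_lit 0) (.cons (.kr (nat_lit 1334420292644659626424009779822199040) (nat_lit 20361947251175756107709031710720) (nat_lit 1) (nat_lit 0)) (.cons (.br (nat_lit 15) (nat_lit 0) (.cons (.ev (nat_lit 1329248357422686761277391643558871297) (nat_lit 1)) (.cons (.rf (nat_lit 11) (nat_lit 631046434659337378)) .nil))) .nil))) (.cons (.br (nat_lit 13) (nat_lit 0) (.cons (.rf (nat_lit 502) (nat_lit 19926519232773908561233952)) (.cons (.br (nat_lit 16) (nat_lit 0) (.cons (.ev (nat_lit 4083409212965066088263843285211239546881) (nat_lit 4)) (.cons (.rf (nat_lit 70) (nat_lit 629956850949987393)) .nil))) (.cons (.br (nat_lit 15) (nat_lit 0) (.cons (.br (nat_lit 15) (nat_lit 0) (.cons (.ev (nat_lit 1344865971585721770394493022736941568) (nat_lit 2)) .nil)) (.cons (.br (nat_lit 15) (nat_lit 0) (.cons (.ev (nat_lit 1344865971585721770394493022736941568)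 (nat_lit 2)) .nil)) .nil))) .nil)))) .nil))),
 (.br (nat_lit 13) (nat_lit 0) (.cons (.kr (nat_lit 2658455991569836486621122543203909633) (nat_lit 10384593719487507040405439083708928) (nat_lit 0) (nat_lit 2)) (.cons (.br (nat_lit 15) (nat_lit 0) (.cons (.ev (nat_lit 683223189834068151284652256811162796033) (nat_lit 2)) (.cons (.ev (nat_lit 1329248357423890964658184334073724928) (nat_lit 1)) .nil))) .nil))),
 (.br (nat_lit 12) (nat_lit 0) (.cons (.rf (nat_lit 503) (nat_lit 583706118939841765935136)) (.cons (.br (nat_lit 13) (nat_lit 0) (.cons (.kr (nat_lit 2658455991569836486621122543203909633) (nat_lit 10384593719487507040405439083708928) (nat_lit 0) (nat_lit 2)) (.cons (.rf (nat_lit 504) (nat_lit 19926519232773908561233952)) (.cons (.br (nat_lit 13) (nat_lit 0) (.cons (.kr (nat_lit 2658455991569836486621122543203909633) (nat_lit 10384593719487507040405439083708928) (nat_lit 0) (nat_lit 2)) (.cons (.rf (nat_lit 504) (nat_lit 19926519232773908561233952)) .nil))) .nil)))) .nil))),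
 (.br (nat_lit 15) (nat_lit 0) (.cons (.ev (nat_lit 683223189834065733470050630879684854273) (nat_lit 2)) (.cons (.ev (nat_lit 1329248357422682057357371368334754048) (nat_lit 1)) .nil))),
 (.br (nat_lit 13) (nat_lit 0) (.cons (.rf (nat_lit 506) (nat_lit 677582165103132179601393696)) (.cons (.rf (nat_lit 506) (nat_lit 640105464695078675185502240)) .nil))),
 (.br (nat_lit 13) (nat_lit 0) (.cons (.rf (nat_lit 507) (nat_lit 677582165103132179601393696)) (.cons (.br (nat_lit 16) (nat_lit 0) (.cons (.br (nat_lit 15) (nat_lit 0) (.cons (.ev (nat_lit 5337803341021792520946163901897507329) (nat_lit 3)) .nil)) (.cons (.ev (nat_lit 1361129508408888718874074596838478053889) (nat_lit 3)) .nil))) .nil))),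
 (.br (nat_lit 14) (nat_lit 0) (.cons (.ev (nat_lit 5192376396182351786553327141060608) (nat_lit 1)) (.cons (.rf (nat_lit 20) (nat_lit 593856550101394466)) .nil))),
 (.br (nat_lit 14) (nat_lit 0) (.cons (.ev (nat_lit 2668881308562438473891824013175554561) (nat_lit 2)) (.cons (.br (nat_lit 16) (nat_lit 0) (.cons (.ev (nat_lit 683223189834068151284652256811129242113) (nat_lit 2)) (.cons (.kr (nat_lit 680564733841876931667562723286162866177) (nat_lit 10384593719487507040405439100485632) (nat_lit 0) (nat_lit 1)) .nil))) .nil))),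
 (.br (nat_lit 14) (nat_lit 0) (.cons (.ev (nat_lit 1329228075322563397061829891075408128) (nat_lit 1)) (.cons (.br (nat_lit 14) (nat_lit 0) (.cons (.ev (nat_lit 1329228075322563397061829891075408128) (nat_lit 1)) .nil)) .nil))),
 (.br (nat_lit 14) (nat_lit 0) (.cons (.ev (nat_lit 2668881308564856362280426222244724737) (nat_lit 2)) (.cons (.br (nat_lit 16) (nat_lit 0) (.cons (.ev (nat_lit 683223189834068151284652256811129242113) (nat_lit 2)) (.cons (.kr (nat_lit 680564733841876931649115979208175124481) (nat_lit 10384593717069673703805070662959616) (nat_lit 0) (nat_lit 2)) .nil))) .nil))),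
 (.br (nat_lit 14) (nat_lit 0) (.cons (.ev (nat_lit 680575159158871951543222026965254013441) (nat_lit 2)) (.cons (.br (nat_lit 15) (nat_lit 0) (.cons (.ev (nat_lit 683223189834068151284652256811129242113) (nat_lit 2)) (.cons (.kr (nat_lit 2658455991569836468174378465182613505) (nat_lit 10384593717069673703805070679736320) (nat_lit 0) (nat_lit 1)) .nil))) .nil))),
 (.br (nat_lit 16) (nat_lit 0) (.cons (.ev (nat_lit 87112285952121885626456467388220475244545) (nat_lit 1)) .nil)),
 (.br (nat_lit 13) (nat_lit 0) (.cons (.ev (nat_lit 5192376396182370233015925857058816) (nat_lit 1)) .nil)),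
 (.br (nat_lit 15) (nat_lit 0) (.cons (.rf (nat_lit 515) (nat_lit 20678166659641484973121)) (.cons (.kr (nat_lit 87113615159756031567219170073937564401665) (nat_lit 10384593718278581148733215887851520) (nat_lit 0) (nat_lit 1)) .nil))),
 (.br (nat_lit 14) (nat_lit 0) (.cons (.br (nat_lit 15) (nat_lit 0) (.cons (.kr (nat_lit 1329227995784915872903807060280344832) (nat_lit 340282366920938463463374607431784988672) (nat_lit 1) (nat_lit 0)) (.cons (.rf (nat_lit 514) (nat_lit 677582165103132179601393696)) .nil))) (.cons (.rf (nat_lit 516) (nat_lit 677582165103132179601393696)) .nil))),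
 (.br (nat_lit 16) (nat_lit 0) (.cons (.br (nat_lit 15) (nat_lit 0) (.cons (.ev (nat_lit 87452573490978354338868990344232385380608) (nat_lit 1)) .nil)) (.cons (.kr (nat_lit 87452568298681185114809640874309052268545) (nat_lit 10384593718278581148733215871074560) (nat_lit 0) (nat_lit 2)) .nil)))]

theorem c17 : chkAll C T R L17 (nat_lit 483) = true := by decide +kernel

theorem l17 : (nat_lit 483) + L17.length = (nat_lit 519) := by decide +kernel

/-- part of the certificates -/
def L18 : List Prf := [(.br (nat_lit 12) (nat_lit 0) (.cons (.br (nat_lit 13) (nat_lit 0) (.cons (.ev (nat_lit 5192297169228781716234267955036416) (nat_lit 1)) (.cons (.br (nat_lit 14) (nat_lit 0) (.cons (.kr (nat_lit 1334420292644659626424009779822199040) (nat_lit 20361947251175756107709031710720) (nat_lit 1) (nat_lit 0)) (.cons (.br (nat_lit 15) (nat_lit 0) (.cons (.ev (nat_lit 15971545863223517178193680753250928641) (nat_lit 4)) (.cons (.rf (nat_lit 20) (nat_lit 631046501226064930)) .nil))) .nil))) (.cons (.br (nat_lit 14) (nat_lit 0) (.cons (.rf (nat_lit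 509) (nat_lit 622703726024184607901728)) (.cons (.br (nat_lit 15) (nat_lit 0) (.cons (.ev (nat_lit 340282387282577438555128984705561591808) (nat_lit 1)) (.cons (.br (nat_lit 15) (nat_lit 0) (.cons (.ev (nat_lit 340282387282577443295942493119581323265) (nat_lit 1)) .nil)) .nil))) (.cons (.br (nat_lit 15) (nat_lit 0) (.cons (.br (nat_lit 15) (nat_lit 0) (.cons (.ev (nat_lit 2668881308562438473891824013175554561) (nat_lit 2)) .nil)) (.cons (.br (nat_lit 15) (nat_lit 0) (.cons (.ev (nat_lit 2668881308562438473891824013175554561) (nat_lit 2)) .nil)) .nil))) .nil)))) .nil)))) (.cons (.br (nat_lit 13) (nat_lit 0) (.cons (.br (nat_lit 14) (nat_lit 0) (.cons (.kr (nat_lit 1334420292644659626424009779822199040) (nat_lit 20361947251175756107709031710720) (nat_lit 1) (nat_lit 0)) (.cons (.br (nat_lit 15) (nat_lit 0) (.cons (.ev (nat_lit 15971545863233188436600184479162695681) (nat_lit 4)) (.cons (.rf (nat_lit 20) (nat_lit 596108454107878434)) .nil))) .nil))) (.cons (.ev (nat_lit 1329248357423890964658184334056947968) (nat_lit 1)) (.cons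 (.br (nat_lit 14) (nat_lit 0) (.cons (.br (nat_lit 14) (nat_lit 0) (.cons (.ev (nat_lit 2668881308562438473891824013175554561) (nat_lit 2)) (.cons (.rf (nat_lit 20) (nat_lit 631013481523619874)) .nil))) (.cons (.rf (nat_lit 510) (nat_lit 19926519232773908561233952)) (.cons (.br (nat_lit 14) (nat_lit 0) (.cons (.rf (nat_lit 20) (nat_lit 631013481523619874)) (.cons (.rf (nat_lit 510) (nat_lit 19926519232773908561233952)) .nil))) .nil)))) .nil)))) (.cons (.br (nat_lit 13) (nat_lit 0) (.cons (.br (nat_lit 14) (nat_lit 0) (.cons (.rf (nat_lit 509) (nat_lit 622702608804744899337545)) (.cons (.rf (nat_lit 511) (nat_lit 622703726024184607901728)) (.cons (.br (nat_lit 15) (nat_lit 0) (.cons (.br (nat_lit 15) (nat_lit 0) (.cons (.ev (nat_lit 2668881308564856362280426222244724737) (nat_lit 2)) .nil)) (.cons (.br (nat_lit 15) (nat_lit 0) (.cons (.ev (nat_lit 2668881308564856362280426222244724737) (nat_lit 2)) .nil)) .nil))) .nil)))) (.cons (.br (nat_lit 14) (nat_lit 0) (.cons (.br (nat_lit 14) (nat_lit 0) (.cons (.ev (nat_lit 2668881308564856362280426222244724737)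 (nat_lit 2)) (.cons (.rf (nat_lit 20) (nat_lit 631013448237614402)) .nil))) (.cons (.rf (nat_lit 512) (nat_lit 19926519232773908561233952)) (.cons (.br (nat_lit 14) (nat_lit 0) (.cons (.rf (nat_lit 20) (nat_lit 631013448237614402)) (.cons (.rf (nat_lit 512) (nat_lit 19926519232773908561233952)) .nil))) .nil)))) (.cons (.br (nat_lit 14) (nat_lit 0) (.cons (.rf (nat_lit 513) (nat_lit 19926519232773908561233952)) (.cons (.br (nat_lit 14) (nat_lit 0) (.cons (.ev (nat_lit 680575159158871951543222026965254013441) (nat_lit 2)) (.cons (.rf (nat_lit 87) (nat_lit 631047566478646337)) .nil))) (.cons (.br (nat_lit 14) (nat_lit 0) (.cons (.rf (nat_lit 513) (nat_lit 19926519232773908561233952)) (.cons (.rf (nat_lit 87) (nat_lit 631047566478646337)) .nil))) .nil)))) (.cons (.br (nat_lit 14) (nat_lit 0) (.cons (.rf (nat_lit 517) (nat_lit 677582165103132179601393696)) (.cons (.br (nat_lit 14) (nat_lit 0) (.cons (.rf (nat_lit 517) (nat_lit 677582165103132179601393696)) (.cons (.rf (nat_lit 518) (nat_lit 677582165103132179601393696)) .nil))) (.cons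 (.br (nat_lit 14) (nat_lit 0) (.cons (.rf (nat_lit 516) (nat_lit 677582165103132179601393696)) (.cons (.rf (nat_lit 518) (nat_lit 677582165103132179601393696)) .nil))) .nil)))) .nil))))) .nil)))),
 (.br (nat_lit 13) (nat_lit 0) (.cons (.ev (nat_lit 2668881308562438473891824013175554561) (nat_lit 2)) (.cons (.br (nat_lit 15) (nat_lit 0) (.cons (.ev (nat_lit 683223189834068151284652256811129242113) (nat_lit 2)) (.cons (.rf (nat_lit 404) (nat_lit 19533281828569680647202)) .nil))) .nil))),
 (.br (nat_lit 13) (nat_lit 0) (.cons (.ev (nat_lit 5192297169228781716234267955036416) (nat_lit 1)) (.cons (.br (nat_lit 14) (nat_lit 0) (.cons (.kr (nat_lit 2658455991569836486621122543187132929) (nat_lit 10384593719487507040405439134040064) (nat_lit 0) (nat_lit 2)) (.cons (.kr (nat_lit 680564733841876931667562723286162866177) (nat_lit 10384593719487507040405439100485632) (nat_lit 0) (nat_lit 1)) (.cons (.br (nat_lit 15) (nat_lit 0) (.cons (.ev (nat_lit 5316952708274528512191395352593696257) (nat_lit 3)) (.cons (.br (nat_lit 16) (nat_lit 0) (.cons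 (.ev (nat_lit 1366446420392033218142467029497804882433) (nat_lit 3)) .nil)) .nil))) .nil)))) (.cons (.br (nat_lit 14) (nat_lit 0) (.cons (.kr (nat_lit 2658455991569836486621122543187132929) (nat_lit 10384593719487507040405439134040064) (nat_lit 0) (nat_lit 2)) (.cons (.br (nat_lit 16) (nat_lit 0) (.cons (.ev (nat_lit 683223189834068151284652256811129242113) (nat_lit 2)) (.cons (.ev (nat_lit 340282387282577438555128984705561591808) (nat_lit 1)) .nil))) (.cons (.br (nat_lit 17) (nat_lit 0) (.cons (.ev (nat_lit 174227230319512682099791100421081506250753) (nat_lit 2)) (.cons (.ev (nat_lit 87112285952121884412808353066840716542208) (nat_lit 1)) .nil))) .nil)))) .nil)))),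
 (.br (nat_lit 13) (nat_lit 0) (.cons (.ev (nat_lit 5192297169228781716234267955036416) (nat_lit 1)) (.cons (.rf (nat_lit 521) (nat_lit 19926519232773908561233952)) (.cons (.br (nat_lit 14) (nat_lit 0) (.cons (.br (nat_lit 15) (nat_lit 0) (.cons (.ev (nat_lit 683223189834068151284652256811129242113) (nat_lit 2)) (.cons (.ev (nat_lit 1329248357423890964658184334056947968) (nat_lit 1)) .nil))) (.cons (.kr (nat_lit 680564733841876931667562723286162866177) (nat_lit 10384593719487507040405439100485632) (nat_lit 0) (nat_lit 1)) (.cons (.br (nat_lit 17) (nat_lit 0) (.cons (.ev (nat_lit 87112285952121884412808353066840716542208) (nat_lit 1)) (.cons (.ev (nat_lit 174905136597362989194972042021824448430593) (nat_lit 2)) .nil))) .nil)))) .nil)))),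
 (.br (nat_lit 12) (nat_lit 0) (.cons (.rf (nat_lit 519) (nat_lit 583706118939841765935136)) (.cons (.br (nat_lit 14) (nat_lit 0) (.cons (.ev (nat_lit 5192297169233485636254543145599233) (nat_lit 1)) (.cons (.kr (nat_lit 2658455991569836468174378465182613505) (nat_lit 10384593717069673703805070679736320) (nat_lit 0) (nat_lit 1)) (.cons (.br (nat_lit 13) (nat_lit 0) (.cons (.br (nat_lit 13) (nat_lit 0) (.cons (.ev (nat_lit 2668881308562438473891824013175554561) (nat_lit 2)) (.cons (.rf (nat_lit 20) (nat_lit 630978331510221858)) .nil))) (.cons (.rf (nat_lit 520) (nat_lit 19926519232773908561233952)) (.cons (.br (nat_lit 13) (nat_lit 0) (.cons (.rf (nat_lit 20) (nat_lit 630978331510221858)) (.cons (.rf (nat_lit 520) (nat_lit 19926519232773908561233952)) .nil))) .nil)))) .nil)))) (.cons (.br (nat_lit 13) (nat_lit 0) (.cons (.ev (nat_lit 5192297169233485636254543145599233) (nat_lit 1)) (.cons (.rf (nat_lit 521) (nat_lit 19926519232773908561233952)) (.cons (.rf (nat_lit 522) (nat_lit 19926519232773908561233952)) (.cons (.br (nat_lit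 13) (nat_lit 0) (.cons (.ev (nat_lit 5192297169228781716234267955036416) (nat_lit 1)) (.cons (.rf (nat_lit 521) (nat_lit 19926519232773908561233952)) (.cons (.rf (nat_lit 522) (nat_lit 19926519232773908561233952)) .nil)))) .nil))))) .nil)))),
 (.br (nat_lit 14) (nat_lit 0) (.cons (.kr (nat_lit 2658455991572254319957722911624658945) (nat_lit 10384593717069710597293226671997440) (nat_lit 0) (nat_lit 2)) (.cons (.br (nat_lit 13) (nat_lit 0) (.cons (.ev (nat_lit 2668881308564856362280426222244724737) (nat_lit 2)) (.cons (.kr (nat_lit 680564733841876931649115979208175124481) (nat_lit 10384593717069673703805070662959616) (nat_lit 0) (nat_lit 2)) (.cons (.br (nat_lit 16) (nat_lit 0) (.cons (.ev (nat_lit 683223189834065733470050630879718408193) (nat_lit 2)) (.cons (.ev (nat_lit 340282387282577438555128984705561591808) (nat_lit 1)) .nil))) .nil)))) (.cons (.br (nat_lit 13) (nat_lit 0) (.cons (.rf (nat_lit 20) (nat_lit 596040251090316610)) (.cons (.br (nat_lit 15) (nat_lit 0) (.cons (.ev (nat_lit 5316952708279364288968599770732036609)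 (nat_lit 3)) (.cons (.br (nat_lit 16) (nat_lit 0) (.cons (.ev (nat_lit 1366446420392028382365689825079666542081) (nat_lit 3)) .nil)) .nil))) (.cons (.br (nat_lit 17) (nat_lit 0) (.cons (.ev (nat_lit 174227230319512684517605702047012917084673) (nat_lit 2)) (.cons (.ev (nat_lit 87112285952121884412808353066840716542208) (nat_lit 1)) .nil))) .nil)))) .nil)))),
 (.br (nat_lit 13) (nat_lit 0) (.cons (.rf (nat_lit 524) (nat_lit 19926519232773908561233952)) (.cons (.ev (nat_lit 1329248357422682057357371368351531008) (nat_lit 1)) (.cons (.br (nat_lit 14) (nat_lit 0) (.cons (.br (nat_lit 14) (nat_lit 0) (.cons (.zr (nat_lit 3992876284213282501680183911234142208) (nat_lit 20361949669027539452155456979456) (nat_lit 8) (nat_lit 5)) .nil)) (.cons (.br (nat_lit 14) (nat_lit 0) (.cons (.zr (nat_lit 3992876284213282501680183911234142208) (nat_lit 20361949669027539452155456979456) (nat_lit 8) (nat_lit 5)) .nil)) .nil))) .nil)))),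
 (.br (nat_lit 13) (nat_lit 0) (.cons (.rf (nat_lit 524) (nat_lit 19926519232773908561233952)) (.cons (.ev (nat_lit 1329248357422682057357371368351531008) (nat_lit 1)) (.cons (.br (nat_lit 15) (nat_lit 0) (.cons (.br (nat_lit 14) (nat_lit 0) (.cons (.ev (nat_lit 341616787213892612821914669035210932225) (nat_lit 1)) (.cons (.ev (nat_lit 2668881308564856362280426222244724737) (nat_lit 2)) .nil))) (.cons (.kr (nat_lit 340282366920938463481821351509772730368) (nat_lit 1329227995786124798795479283492978688) (nat_lit 4) (nat_lit 0)) (.cons (.br (nat_lit 17) (nat_lit 0) (.cons (.ev (nat_lit 174227230319512684517605702047012917084673) (nat_lit 2)) (.cons (.ev (nat_lit 87453897547038609001051932294298487292160) (nat_lit 1)) .nil))) .nil)))) .nil)))),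
 (.br (nat_lit 12) (nat_lit 0) (.cons (.rf (nat_lit 519) (nat_lit 583706118939841765935136)) (.cons (.rf (nat_lit 523) (nat_lit 583706118939841765935136)) (.cons (.br (nat_lit 13) (nat_lit 0) (.cons (.rf (nat_lit 524) (nat_lit 19926519232773908561233952)) (.cons (.rf (nat_lit 525) (nat_lit 19926519232773908561233952)) (.cons (.rf (nat_lit 526) (nat_lit 19926519232773908561233952)) (.cons (.br (nat_lit 13) (nat_lit 0) (.cons (.rf (nat_lit 524) (nat_lit 19926519232773908561233952)) (.cons (.rf (nat_lit 525) (nat_lit 19926519232773908561233952)) (.cons (.rf (nat_lit 526) (nat_lit 19926519232773908561233952)) .nil)))) .nil))))) .nil)))),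
 (.br (nat_lit 16) (nat_lit 0) (.cons (.ev (nat_lit 683223189834068151284652256811129242113) (nat_lit 2)) (.cons (.ev (nat_lit 340282387282577438555128984705561591808) (nat_lit 1)) .nil))),
 (.br (nat_lit 14) (nat_lit 0) (.cons (.br (nat_lit 15) (nat_lit 0) (.cons (.ev (nat_lit 683223189834068151284652256811129242113) (nat_lit 2)) (.cons (.ev (nat_lit 1329248357423890964658184334056947968) (nat_lit 1)) .nil))) (.cons (.kr (nat_lit 680564733841876931649115979208175124481) (nat_lit 10384593717069673703805070662959616) (nat_lit 0) (nat_lit 2)) (.cons (.br (nat_lit 17) (nat_lit 0) (.cons (.ev (nat_lit 87112285952121885621715653879806455513088) (nat_lit 1)) (.cons (.ev (nat_lit 174905136597362991612786643647755926372353) (nat_lit 2)) .nil))) .nil)))),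
 (.br (nat_lit 13) (nat_lit 0) (.cons (.br (nat_lit 14) (nat_lit 0) (.cons (.kr (nat_lit 2658455991569836468174378465182613505) (nat_lit 10384593717069673703805070679736320) (nat_lit 0) (nat_lit 1)) (.cons (.rf (nat_lit 528) (nat_lit 677582165103132179601393696)) (.cons (.rf (nat_lit 528) (nat_lit 640105464695078675185502240)) .nil)))) (.cons (.rf (nat_lit 529) (nat_lit 677582165103132179601393696)) (.cons (.rf (nat_lit 529) (nat_lit 640105464695078675185502240)) .nil)))),
 (.br (nat_lit 15) (nat_lit 0) (.cons (.br (nat_lit 14) (nat_lit 0) (.cons (.ev (nat_lit 341616787213891403914613856069471961345) (nat_lit 1)) (.cons (.ev (nat_lit 2668881308562438473891824013175554561) (nat_lit 2)) .nil))) (.cons (.kr (nat_lit 1329227995784915872903807060280344832) (nat_lit 340282366920938463463374607431784988672) (nat_lit 1) (nat_lit 0)) (.cons (.br (nat_lit 17) (nat_lit 0) (.cons (.ev (nat_lit 174227230319512684517605702047012917084673) (nat_lit 2)) (.cons (.ev (nat_lit 87453897547038609001051932294298487292160) (nat_lit 1)) .nil))) .nil)))),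
 (.br (nat_lit 13) (nat_lit 0) (.cons (.rf (nat_lit 530) (nat_lit 677582165103132179601393696)) (.cons (.rf (nat_lit 531) (nat_lit 677582165103132179601393696)) (.cons (.rf (nat_lit 531) (nat_lit 640105464695078675185502240)) .nil)))),
 (.br (nat_lit 14) (nat_lit 0) (.cons (.ev (nat_lit 680575159158869533654833424756117733377) (nat_lit 2)) (.cons (.ev (nat_lit 87452573490978353129924796043127817240576) (nat_lit 1)) .nil))),
 (.br (nat_lit 13) (nat_lit 0) (.cons (.rf (nat_lit 530) (nat_lit 677582165103132179601393696)) (.cons (.rf (nat_lit 532) (nat_lit 677582165103132179601393696)) (.cons (.br (nat_lit 16) (nat_lit 0) (.cons (.rf (nat_lit 533) (nat_lit 677582165103132179601393696)) (.cons (.br (nat_lit 14) (nat_lit 0) (.cons (.ev (nat_lit 683223189834068151284652256811129242113) (nat_lit 2)) (.cons (.rf (nat_lit 533) (nat_lit 640105464695078675185502240)) .nil))) (.cons (.kr (nat_lit 340282366920938463463374607431768211456) (nat_lit 87112285931760246646623899502532662132736) (nat_lit 16) (nat_lit 0)) .nil)))) .nil)))),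
 (.br (nat_lit 10) (nat_lit 0) (.cons (.kr (nat_lit 18446744078004518912) (nat_lit 1208925891672223212634112) (nat_lit 4) (nat_lit 0)) (.cons (.kr (nat_lit 4740813508422626443265) (nat_lit 2417851783344446442045440) (nat_lit 0) (nat_lit 1)) (.cons (.kr (nat_lit 18446744078004519168) (nat_lit 1208925891672223229411328) (nat_lit 1) (nat_lit 0)) (.cons (.br (nat_lit 11) (nat_lit 0) (.cons (.ev (nat_lit 618974797493801895621296129) (nat_lit 2)) (.cons (.ev (nat_lit 618974797493801895587742209) (nat_lit 2)) (.cons (.ev (nat_lit 621392612095427827065683969) (nat_lit 2)) (.cons (.br (nat_lit 5) (nat_lit 0) (.cons (.br (nat_lit 12) (nat_lit 0) (.cons (.br (nat_lit 13) (nat_lit 0) (.cons (.ev (nat_lit 40725137282834889562649518014977) (nat_lit 3)) (.cons (.br (nat_lit 14) (nat_lit 0) (.cons (.rf (nat_lit 482) (nat_lit 583706118939841765935136)) (.cons (.br (nat_lit 14) (nat_lit 0) (.cons (.rf (nat_lit 482) (nat_lit 583706118939841765935136)) (.cons (.br (nat_lit 15) (nat_lit 0) (.cons (.rf (nat_lit 483) (nat_lit 677582165103132179601393696))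 (.cons (.rf (nat_lit 483) (nat_lit 640105464695078675185502240)) .nil))) .nil))) .nil))) .nil))) (.cons (.br (nat_lit 13) (nat_lit 0) (.cons (.ev (nat_lit 5192297169233485636254543145599233) (nat_lit 1)) (.cons (.br (nat_lit 13) (nat_lit 0) (.cons (.ev (nat_lit 5192297169228781716234267955036416) (nat_lit 1)) (.cons (.br (nat_lit 14) (nat_lit 0) (.cons (.rf (nat_lit 484) (nat_lit 622703726024184607901728)) (.cons (.rf (nat_lit 484) (nat_lit 586105385781944857495584)) (.cons (.br (nat_lit 15) (nat_lit 0) (.cons (.br (nat_lit 15) (nat_lit 0) (.cons (.ev (nat_lit 2668881308562438473891824013175554561) (nat_lit 2)) .nil)) (.cons (.br (nat_lit 15) (nat_lit 0) (.cons (.ev (nat_lit 2668881308562438473891824013175554561) (nat_lit 2)) .nil)) .nil))) .nil)))) .nil))) .nil))) (.cons (.br (nat_lit 13) (nat_lit 0) (.cons (.rf (nat_lit 486) (nat_lit 583706118939841765935136)) (.cons (.rf (nat_lit 488) (nat_lit 583706118939841765935136)) (.cons (.br (nat_lit 13) (nat_lit 0) (.cons (.rf (nat_lit 486) (nat_lit 583706118939841765935136)) (.cons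 (.rf (nat_lit 488) (nat_lit 583706118939841765935136)) (.cons (.br (nat_lit 14) (nat_lit 0) (.cons (.rf (nat_lit 490) (nat_lit 677582165103132179601393696)) (.cons (.rf (nat_lit 491) (nat_lit 677582165103132179601393696)) (.cons (.rf (nat_lit 491) (nat_lit 640105464695078675185502240)) .nil)))) .nil)))) .nil)))) .nil)))) (.cons (.br (nat_lit 12) (nat_lit 0) (.cons (.rf (nat_lit 495) (nat_lit 17022140995484340291616)) (.cons (.rf (nat_lit 496) (nat_lit 17022140995484340291616)) (.cons (.br (nat_lit 12) (nat_lit 0) (.cons (.rf (nat_lit 495) (nat_lit 17022140995484340291616)) (.cons (.rf (nat_lit 496) (nat_lit 17022140995484340291616)) (.cons (.br (nat_lit 13) (nat_lit 0) (.cons (.br (nat_lit 14) (nat_lit 0) (.cons (.rf (nat_lit 484) (nat_lit 622702608804744899337545)) (.cons (.rf (nat_lit 484) (nat_lit 586104268562505148931401)) (.cons (.br (nat_lit 15) (nat_lit 0) (.cons (.br (nat_lit 15) (nat_lit 0) (.cons (.ev (nat_lit 2668881308564856362280426222244724737) (nat_lit 2)) .nil)) (.cons (.br (nat_lit 15) (nat_lit 0) (.cons (.ev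 (nat_lit 2668881308564856362280426222244724737) (nat_lit 2)) .nil)) .nil))) .nil)))) (.cons (.rf (nat_lit 498) (nat_lit 19926519232773908561233952)) (.cons (.rf (nat_lit 498) (nat_lit 18755372345022236548237344)) (.cons (.br (nat_lit 14) (nat_lit 0) (.cons (.rf (nat_lit 501) (nat_lit 677582165103132179601393696)) (.cons (.rf (nat_lit 501) (nat_lit 676411018215380507588397088)) (.cons (.br (nat_lit 14) (nat_lit 0) (.cons (.rf (nat_lit 501) (nat_lit 677582165103132179601393696)) (.cons (.rf (nat_lit 501) (nat_lit 676411018215380507588397088)) .nil))) .nil)))) .nil))))) .nil)))) .nil)))) (.cons (.br (nat_lit 14) (nat_lit 0) (.cons (.ev (nat_lit 5192297168024578335441577423405313) (nat_lit 1)) (.cons (.ev (nat_lit 5192297169233485636254543162376193) (nat_lit 1)) (.cons (.br (nat_lit 12) (nat_lit 0) (.cons (.rf (nat_lit 503) (nat_lit 583706118939841765935136)) (.cons (.rf (nat_lit 505) (nat_lit 583706118939841765935136)) (.cons (.br (nat_lit 12) (nat_lit 0) (.cons (.rf (nat_lit 503) (nat_lit 583706118939841765935136)) (.cons (.rf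 (nat_lit 505) (nat_lit 583706118939841765935136)) (.cons (.br (nat_lit 13) (nat_lit 0) (.cons (.rf (nat_lit 507) (nat_lit 677582165103132179601393696)) (.cons (.rf (nat_lit 508) (nat_lit 677582165103132179601393696)) (.cons (.rf (nat_lit 508) (nat_lit 640105464695078675185502240)) .nil)))) .nil)))) .nil)))) .nil)))) (.cons (.br (nat_lit 12) (nat_lit 0) (.cons (.rf (nat_lit 519) (nat_lit 583706118939841765935136)) (.cons (.rf (nat_lit 523) (nat_lit 583706118939841765935136)) (.cons (.rf (nat_lit 527) (nat_lit 583706118939841765935136)) (.cons (.br (nat_lit 12) (nat_lit 0) (.cons (.rf (nat_lit 519) (nat_lit 583706118939841765935136)) (.cons (.rf (nat_lit 523) (nat_lit 583706118939841765935136)) (.cons (.rf (nat_lit 527) (nat_lit 583706118939841765935136)) (.cons (.br (nat_lit 13) (nat_lit 0) (.cons (.rf (nat_lit 530) (nat_lit 677582165103132179601393696)) (.cons (.rf (nat_lit 532) (nat_lit 677582165103132179601393696)) (.cons (.rf (nat_lit 534) (nat_lit 677582165103132179601393696)) (.cons (.rf (nat_lit 534) (nat_lit 640105464695078675185502240))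 .nil))))) .nil))))) .nil))))) .nil))))) .nil))))) .nil)))))]

theorem c18 : chkAll C T R L18 (nat_lit 519) = true := by decide +kernel

theorem l18 : (nat_lit 519) + L18.length = (nat_lit 536) := by decide +kernel

/-- part of the certificates -/
def L19 : List Prf := [(.br (nat_lit 14) (nat_lit 0) (.cons (.br (nat_lit 15) (nat_lit 0) (.cons (.kr (nat_lit 2658455991569836486621122543187132417) (nat_lit 10384593719487507040405439100485632) (nat_lit 0) (nat_lit 1)) (.cons (.rf (nat_lit 58) (nat_lit 631047533030844487)) .nil))) .nil)),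
 (.br (nat_lit 15) (nat_lit 0) (.cons (.ev (nat_lit 1344865971586930677839421167894725378) (nat_lit 2)) .nil)),
 (.br (nat_lit 14) (nat_lit 0) (.cons (.ev (nat_lit 5192376396187074080697132049825793) (nat_lit 1)) (.cons (.rf (nat_lit 58) (nat_lit 593855418345759818)) .nil))),
 (.br (nat_lit 15) (nat_lit 0) (.cons (.ev (nat_lit 1329228075322568119355973696000950273) (nat_lit 1)) (.cons (.rf (nat_lit 70) (nat_lit 592763671110788167)) .nil))),
 (.br (nat_lit 13) (nat_lit 0) (.cons (.br (nat_lit 14) (nat_lit 0) (.cons (.kr (nat_lit 1334420292643450737425825712618602752) (nat_lit 20361948460101647779932244344832) (nat_lit 1) (nat_lit 0)) (.cons (.br (nat_lit 15) (nat_lit 0) (.cons (.ev (nat_lit 15971545863230770622863249693219094537) (nat_lit 4)) (.cons (.rf (nat_lit 11) (nat_lit 631047566484741154)) .nil))) .nil))) (.cons (.br (nat_lit 14) (nat_lit 0) (.cons (.br (nat_lit 15) (nat_lit 0) (.cons (.ev (nat_lit 1329248357422686761277391643542094080) (nat_lit 1)) (.cons (.rf (nat_lit 11) (nat_lit 631046501328661538)) .nil))) (.cons (.rf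 (nat_lit 539) (nat_lit 622703726023049662793760)) (.cons (.br (nat_lit 15) (nat_lit 0) (.cons (.br (nat_lit 15) (nat_lit 0) (.cons (.ev (nat_lit 2668881308564856362280426222244725251) (nat_lit 2)) .nil)) (.cons (.br (nat_lit 15) (nat_lit 0) (.cons (.ev (nat_lit 2668881308564856362280426222244725251) (nat_lit 2)) .nil)) .nil))) .nil)))) .nil))),
 (.br (nat_lit 14) (nat_lit 0) (.cons (.ev (nat_lit 2668881308564856362280426222244725251) (nat_lit 2)) (.cons (.br (nat_lit 16) (nat_lit 0) (.cons (.ev (nat_lit 683223189834068151284652256811162796547) (nat_lit 2)) (.cons (.kr (nat_lit 680564733841876931667562723286162866177) (nat_lit 10384593719487507040405439100485632) (nat_lit 0) (nat_lit 1)) .nil))) .nil))),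
 (.br (nat_lit 13) (nat_lit 0) (.cons (.rf (nat_lit 540) (nat_lit 583706118939841765935136)) (.cons (.br (nat_lit 14) (nat_lit 0) (.cons (.br (nat_lit 14) (nat_lit 0) (.cons (.ev (nat_lit 2668881308564856362280426222244725251) (nat_lit 2)) (.cons (.rf (nat_lit 15) (nat_lit 631047566484741154)) .nil))) (.cons (.rf (nat_lit 541) (nat_lit 19926519232773908561233952)) (.cons (.br (nat_lit 14) (nat_lit 0) (.cons (.rf (nat_lit 15) (nat_lit 631047566484741154)) (.cons (.rf (nat_lit 541) (nat_lit 19926519232773908561233952)) .nil))) .nil)))) .nil))),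
 (.br (nat_lit 15) (nat_lit 0) (.cons (.ev (nat_lit 2668881308564856362280426222244725251) (nat_lit 2)) (.cons (.kr (nat_lit 340282366920938463481821351509772730624) (nat_lit 1329227995786124798795479283509755904) (nat_lit 1) (nat_lit 0)) (.cons (.rf (nat_lit 449) (nat_lit 21174442659363889472350243)) .nil)))),
 (.br (nat_lit 14) (nat_lit 0) (.cons (.rf (nat_lit 543) (nat_lit 19926519232773908561233952)) (.cons (.rf (nat_lit 543) (nat_lit 21135445052388537735940128)) .nil))),
 (.br (nat_lit 14) (nat_lit 0) (.cons (.rf (nat_lit 543) (nat_lit 19926519232773908561233952)) (.cons (.br (nat_lit 16) (nat_lit 0) (.cons (.br (nat_lit 15) (nat_lit 0) (.cons (.ev (nat_lit 1329248357422686761277391643542094080) (nat_lit 1)) .nil)) (.cons (.kr (nat_lit 340282366920938463463374607431768211456) (nat_lit 87112285931760246646623899502532662132736) (nat_lit 16) (nat_lit 0)) .nil))) .nil))),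
 (.br (nat_lit 14) (nat_lit 0) (.cons (.br (nat_lit 15) (nat_lit 0) (.cons (.kr (nat_lit 2658455991569836468174378465199390721) (nat_lit 10384593717069673703805070662959616) (nat_lit 0) (nat_lit 2)) (.cons (.rf (nat_lit 58) (nat_lit 631047566384080961)) .nil))) .nil)),
 (.br (nat_lit 15) (nat_lit 0) (.cons (.ev (nat_lit 1344865971584512789450818958825554178) (nat_lit 2)) .nil)),
 (.br (nat_lit 12) (nat_lit 0) (.cons (.ev (nat_lit 40725139700797353371529644213253) (nat_lit 3)) (.cons (.br (nat_lit 14) (nat_lit 0) (.cons (.rf (nat_lit 546) (nat_lit 583706118939841765935136)) (.cons (.br (nat_lit 14) (nat_lit 0) (.cons (.rf (nat_lit 546) (nat_lit 583706118939841765935136)) (.cons (.br (nat_lit 15) (nat_lit 0) (.cons (.rf (nat_lit 547) (nat_lit 677582165103132179601393696)) (.cons (.rf (nat_lit 547) (nat_lit 640105464695078675185502240)) .nil))) .nil))) .nil))) .nil))),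
 (.br (nat_lit 12) (nat_lit 0) (.cons (.ev (nat_lit 40725139700797353371529644213253) (nat_lit 3)) (.cons (.br (nat_lit 13) (nat_lit 0) (.cons (.ev (nat_lit 5192297168019837521933163386896641) (nat_lit 1)) (.cons (.br (nat_lit 14) (nat_lit 0) (.cons (.kr (nat_lit 2658455991569836486621122543187132417) (nat_lit 10384593719487507040405439100485632) (nat_lit 0) (nat_lit 1)) (.cons (.br (nat_lit 15) (nat_lit 0) (.cons (.ev (nat_lit 15971545863233188436600184479062035977) (nat_lit 4)) (.cons (.rf (nat_lit 11) (nat_lit 631047533198804130)) .nil))) .nil))) (.cons (.br (nat_lit 14) (nat_lit 0) (.cons (.rf (nat_lit 445) (nat_lit 586104268565703729228006)) (.cons (.br (nat_lit 16) (nat_lit 0) (.cons (.ev (nat_lit 340282387282576229647828171739839398145) (nat_lit 1)) (.cons (.rf (nat_lit 11) (nat_lit 629954687349796002)) .nil))) (.cons (.br (nat_lit 15) (nat_lit 0) (.cons (.br (nat_lit 15) (nat_lit 0) (.cons (.ev (nat_lit 2668881308564856362280426222244725251) (nat_lit 2)) .nil)) (.cons (.br (nat_lit 15) (nat_lit 0) (.cons (.ev (nat_lit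 2668881308564856362280426222244725251) (nat_lit 2)) .nil)) .nil))) .nil)))) .nil)))) .nil))),
 (.br (nat_lit 14) (nat_lit 0) (.cons (.ev (nat_lit 2668881308562438473891824013175554051) (nat_lit 2)) (.cons (.br (nat_lit 16) (nat_lit 0) (.cons (.ev (nat_lit 683223189834065733470050630879684853763) (nat_lit 2)) (.cons (.kr (nat_lit 680564733841876931649115979208175124481) (nat_lit 10384593717069673703805070662959616) (nat_lit 0) (nat_lit 2)) .nil))) .nil))),
 (.br (nat_lit 14) (nat_lit 0) (.cons (.br (nat_lit 14) (nat_lit 0) (.cons (.ev (nat_lit 2668881308562438473891824013175554051) (nat_lit 2)) (.cons (.rf (nat_lit 15) (nat_lit 631047533198804130)) .nil))) (.cons (.rf (nat_lit 550) (nat_lit 19926519232773908561233952)) (.cons (.br (nat_lit 14) (nat_lit 0) (.cons (.rf (nat_lit 15) (nat_lit 631047533198804130)) (.cons (.rf (nat_lit 550) (nat_lit 19926519232773908561233952)) .nil))) .nil)))),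
 (.br (nat_lit 14) (nat_lit 0) (.cons (.br (nat_lit 15) (nat_lit 0) (.cons (.kr (nat_lit 1329227995784915872903807060280344576) (nat_lit 340282366920938463463374607431768211456) (nat_lit 15) (nat_lit 0)) (.cons (.br (nat_lit 16) (nat_lit 0) (.cons (.ev (nat_lit 341616787213892612821914669035194155008) (nat_lit 1)) .nil)) .nil))) (.cons (.br (nat_lit 15) (nat_lit 0) (.cons (.br (nat_lit 16) (nat_lit 0) (.cons (.ev (nat_lit 340282387282577443295942493119598100480) (nat_lit 1)) .nil)) (.cons (.kr (nat_lit 87112285931760246646642346246610666651904) (nat_lit 1329227995786124798795479283509755904) (nat_lit 1) (nat_lit 0)) .nil))) .nil))),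
 (.br (nat_lit 15) (nat_lit 0) (.cons (.ev (nat_lit 1329248357422686761277391643558871040) (nat_lit 1)) (.cons (.rf (nat_lit 11) (nat_lit 631045369598680226)) .nil))),
 (.br (nat_lit 12) (nat_lit 0) (.cons (.br (nat_lit 13) (nat_lit 0) (.cons (.kr (nat_lit 1334420292644659626424009779822199040) (nat_lit 20361947251175756107709031710720) (nat_lit 1) (nat_lit 0)) (.cons (.br (nat_lit 15) (nat_lit 0) (.cons (.ev (nat_lit 1329248357423895705471692748093456640) (nat_lit 1)) (.cons (.rf (nat_lit 11) (nat_lit 631046434756854946)) .nil))) .nil))) (.cons (.br (nat_lit 13) (nat_lit 0) (.cons (.rf (nat_lit 553) (nat_lit 19926519232773908561233952)) (.cons (.br (nat_lit 16) (nat_lit 0) (.cons (.ev (nat_lit 4083409212965075759522249788936882880521) (nat_lit 4)) (.cons (.rf (nat_lit 70) (nat_lit 629956850849327169)) .nil))) (.cons (.br (nat_lit 15) (nat_lit 0) (.cons (.br (nat_lit 15) (nat_lit 0) (.cons (.ev (nat_lit 1344865971583303882005890813600662018) (nat_lit 2)) .nil)) (.cons (.br (nat_lit 15) (nat_lit 0) (.cons (.ev (nat_lit 1344865971583303882005890813600662018)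 (nat_lit 2)) .nil)) .nil))) .nil)))) .nil))),
 (.br (nat_lit 13) (nat_lit 0) (.cons (.kr (nat_lit 2658455991569836486621122543203909633) (nat_lit 10384593719487507040405439083708928) (nat_lit 0) (nat_lit 2)) (.cons (.br (nat_lit 15) (nat_lit 0) (.cons (.ev (nat_lit 683223189834065733470050630879684853763) (nat_lit 2)) (.cons (.ev (nat_lit 1329248357422682057357371368334753793) (nat_lit 1)) .nil))) .nil))),
 (.br (nat_lit 12) (nat_lit 0) (.cons (.rf (nat_lit 554) (nat_lit 583706118939841765935136)) (.cons (.br (nat_lit 13) (nat_lit 0) (.cons (.kr (nat_lit 2658455991569836486621122543203909633) (nat_lit 10384593719487507040405439083708928) (nat_lit 0) (nat_lit 2)) (.cons (.rf (nat_lit 555) (nat_lit 19926519232773908561233952)) (.cons (.br (nat_lit 13) (nat_lit 0) (.cons (.kr (nat_lit 2658455991569836486621122543203909633) (nat_lit 10384593719487507040405439083708928) (nat_lit 0) (nat_lit 2)) (.cons (.rf (nat_lit 555) (nat_lit 19926519232773908561233952)) .nil))) .nil)))) .nil))),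
 (.br (nat_lit 15) (nat_lit 0) (.cons (.ev (nat_lit 683223189834068151284652256811162796547) (nat_lit 2)) (.cons (.ev (nat_lit 1329248357423890964658184334073725185) (nat_lit 1)) .nil))),
 (.br (nat_lit 13) (nat_lit 0) (.cons (.rf (nat_lit 557) (nat_lit 677582165103132179601393696)) (.cons (.rf (nat_lit 557) (nat_lit 640105464695078675185502240)) .nil))),
 (.br (nat_lit 13) (nat_lit 0) (.cons (.rf (nat_lit 558) (nat_lit 677582165103132179601393696)) (.cons (.br (nat_lit 16) (nat_lit 0) (.cons (.br (nat_lit 15) (nat_lit 0) (.cons (.ev (nat_lit 5337803341026628150149415764719174149) (nat_lit 3)) .nil)) (.cons (.ev (nat_lit 1361129508408893554650851801256750612997) (nat_lit 3)) .nil))) .nil))),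
 (.br (nat_lit 15) (nat_lit 0) (.cons (.ev (nat_lit 1329248357423895705471692748110233600) (nat_lit 1)) (.cons (.rf (nat_lit 20) (nat_lit 631047566478646306)) .nil))),
 (.br (nat_lit 14) (nat_lit 0) (.cons (.ev (nat_lit 1329228075322563397061829891075407873) (nat_lit 1)) (.cons (.br (nat_lit 14) (nat_lit 0) (.cons (.ev (nat_lit 1329228075322563397061829891075407873) (nat_lit 1)) .nil)) .nil))),
 (.br (nat_lit 14) (nat_lit 0) (.cons (.ev (nat_lit 2668881308564856362280426222244725251) (nat_lit 2)) (.cons (.br (nat_lit 16) (nat_lit 0) (.cons (.ev (nat_lit 683223189834065733470050630879718408707) (nat_lit 2)) (.cons (.kr (nat_lit 680564733841876931667562723286162866177) (nat_lit 10384593719487507040405439100485632) (nat_lit 0) (nat_lit 1)) .nil))) .nil))),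
 (.br (nat_lit 14) (nat_lit 0) (.cons (.ev (nat_lit 2668881308562438473891824013175554051) (nat_lit 2)) (.cons (.br (nat_lit 16) (nat_lit 0) (.cons (.ev (nat_lit 683223189834065733470050630879718408707) (nat_lit 2)) (.cons (.kr (nat_lit 680564733841876931649115979208175124481) (nat_lit 10384593717069673703805070662959616) (nat_lit 0) (nat_lit 2)) .nil))) .nil))),
 (.br (nat_lit 14) (nat_lit 0) (.cons (.ev (nat_lit 680575159158869533654833424756117733891) (nat_lit 2)) (.cons (.br (nat_lit 15) (nat_lit 0) (.cons (.ev (nat_lit 683223189834065733470050630879718408707) (nat_lit 2)) (.cons (.kr (nat_lit 2658455991569836468174378465182613505) (nat_lit 10384593717069673703805070679736320) (nat_lit 0) (nat_lit 1)) .nil))) .nil))),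
 (.br (nat_lit 14) (nat_lit 0) (.cons (.br (nat_lit 15) (nat_lit 0) (.cons (.kr (nat_lit 1329227995784915872903807060280344832) (nat_lit 340282366920938463463374607431784988672) (nat_lit 1) (nat_lit 0)) (.cons (.br (nat_lit 16) (nat_lit 0) (.cons (.ev (nat_lit 341616787213892612821914669035210932480) (nat_lit 1)) .nil)) .nil))) (.cons (.br (nat_lit 15) (nat_lit 0) (.cons (.br (nat_lit 16) (nat_lit 0) (.cons (.ev (nat_lit 340282387282577443295942493119581323520) (nat_lit 1)) .nil)) (.cons (.kr (nat_lit 87112285931760246646642346246610666651648) (nat_lit 1329227995786124798795479283492978688) (nat_lit 4) (nat_lit 0)) .nil))) .nil))),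
 (.br (nat_lit 14) (nat_lit 0) (.cons (.rf (nat_lit 565) (nat_lit 677582165103132179601393696)) (.cons (.br (nat_lit 16) (nat_lit 0) (.cons (.br (nat_lit 15) (nat_lit 0) (.cons (.ev (nat_lit 1329248357423895705471692748110233600) (nat_lit 1)) .nil)) (.cons (.kr (nat_lit 87112285931760246646642346246610666651904) (nat_lit 340282366920939672389266279654997622784) (nat_lit 1) (nat_lit 0)) .nil))) .nil))),
 (.br (nat_lit 12) (nat_lit 0) (.cons (.br (nat_lit 13) (nat_lit 0) (.cons (.ev (nat_lit 5192297168019837521933163386896641) (nat_lit 1)) (.cons (.br (nat_lit 14) (nat_lit 0) (.cons (.kr (nat_lit 1334420292644659626424009779822199040) (nat_lit 20361947251175756107709031710720) (nat_lit 1) (nat_lit 0)) (.cons (.br (nat_lit 15) (nat_lit 0) (.cons (.ev (nat_lit 15971545863233188436600184479162697737) (nat_lit 4)) (.cons (.rf (nat_lit 20) (nat_lit 631046501326629922)) .nil))) .nil))) (.cons (.br (nat_lit 14) (nat_lit 0) (.cons (.rf (nat_lit 560) (nat_lit 19926519232773908561233952)) (.cons (.rf (nat_lit 561) (nat_lit 622703726024184607901728))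 (.cons (.br (nat_lit 15) (nat_lit 0) (.cons (.br (nat_lit 15) (nat_lit 0) (.cons (.ev (nat_lit 2668881308564856362280426222244725251) (nat_lit 2)) .nil)) (.cons (.br (nat_lit 15) (nat_lit 0) (.cons (.ev (nat_lit 2668881308564856362280426222244725251) (nat_lit 2)) .nil)) .nil))) .nil)))) .nil)))) (.cons (.br (nat_lit 13) (nat_lit 0) (.cons (.br (nat_lit 14) (nat_lit 0) (.cons (.kr (nat_lit 1334420292644659626424009779822199040) (nat_lit 20361947251175756107709031710720) (nat_lit 1) (nat_lit 0)) (.cons (.br (nat_lit 15) (nat_lit 0) (.cons (.ev (nat_lit 15971545863223517178193680753250926601) (nat_lit 4)) (.cons (.rf (nat_lit 20) (nat_lit 596108454208443426)) .nil))) .nil))) (.cons (.ev (nat_lit 1329248357422682057357371368351531265) (nat_lit 1)) (.cons (.br (nat_lit 14) (nat_lit 0) (.cons (.br (nat_lit 14) (nat_lit 0) (.cons (.ev (nat_lit 2668881308564856362280426222244725251) (nat_lit 2)) (.cons (.rf (nat_lit 20) (nat_lit 631013481624280098)) .nil))) (.cons (.rf (nat_lit 562) (nat_lit 19926519232773908561233952)) (.cons (.br (nat_lit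 14) (nat_lit 0) (.cons (.rf (nat_lit 20) (nat_lit 631013481624280098)) (.cons (.rf (nat_lit 562) (nat_lit 19926519232773908561233952)) .nil))) .nil)))) .nil)))) (.cons (.br (nat_lit 13) (nat_lit 0) (.cons (.br (nat_lit 14) (nat_lit 0) (.cons (.br (nat_lit 15) (nat_lit 0) (.cons (.ev (nat_lit 1329248357423895705471692748110233600) (nat_lit 1)) (.cons (.rf (nat_lit 20) (nat_lit 631047533192643810)) .nil))) (.cons (.br (nat_lit 15) (nat_lit 0) (.cons (.ev (nat_lit 340282387282577438555128984705561592065) (nat_lit 1)) (.cons (.br (nat_lit 15) (nat_lit 0) (.cons (.ev (nat_lit 340282387282577443295942493119581323520) (nat_lit 1)) .nil)) .nil))) (.cons (.br (nat_lit 15) (nat_lit 0) (.cons (.br (nat_lit 15) (nat_lit 0) (.cons (.ev (nat_lit 2668881308562438473891824013175554051) (nat_lit 2)) .nil)) (.cons (.br (nat_lit 15) (nat_lit 0) (.cons (.ev (nat_lit 2668881308562438473891824013175554051) (nat_lit 2)) .nil)) .nil))) .nil)))) (.cons (.br (nat_lit 14) (nat_lit 0) (.cons (.br (nat_lit 14) (nat_lit 0) (.cons (.ev (nat_lit 2668881308562438473891824013175554051)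 (nat_lit 2)) (.cons (.rf (nat_lit 20) (nat_lit 631013448338277602)) .nil))) (.cons (.rf (nat_lit 563) (nat_lit 19926519232773908561233952)) (.cons (.br (nat_lit 14) (nat_lit 0) (.cons (.rf (nat_lit 20) (nat_lit 631013448338277602)) (.cons (.rf (nat_lit 563) (nat_lit 19926519232773908561233952)) .nil))) .nil)))) (.cons (.br (nat_lit 14) (nat_lit 0) (.cons (.rf (nat_lit 564) (nat_lit 19926519232773908561233952)) (.cons (.br (nat_lit 14) (nat_lit 0) (.cons (.ev (nat_lit 680575159158869533654833424756117733891) (nat_lit 2)) (.cons (.rf (nat_lit 87) (nat_lit 631047566377986113)) .nil))) (.cons (.br (nat_lit 14) (nat_lit 0) (.cons (.rf (nat_lit 564) (nat_lit 19926519232773908561233952)) (.cons (.rf (nat_lit 87) (nat_lit 631047566377986113)) .nil))) .nil)))) (.cons (.br (nat_lit 14) (nat_lit 0) (.cons (.rf (nat_lit 565) (nat_lit 677582165103132179601393696)) (.cons (.rf (nat_lit 566) (nat_lit 677582165103132179601393696)) (.cons (.br (nat_lit 14) (nat_lit 0) (.cons (.rf (nat_lit 565) (nat_lit 677582165103132179601393696)) (.cons (.rf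 (nat_lit 566) (nat_lit 677582165103132179601393696)) .nil))) .nil)))) .nil))))) .nil))))]

theorem c19 : chkAll C T R L19 (nat_lit 536) = true := by decide +kernel

theorem l19 : (nat_lit 536) + L19.length = (nat_lit 568) := by decide +kernel

/-- part of the certificates -/
def L20 : List Prf := [(.br (nat_lit 13) (nat_lit 0) (.cons (.ev (nat_lit 2668881308564856362280426222244725251) (nat_lit 2)) (.cons (.br (nat_lit 16) (nat_lit 0) (.cons (.ev (nat_lit 683223189834065733470050630879718408707) (nat_lit 2)) (.cons (.ev (nat_lit 340282387282577438555128984705561592065) (nat_lit 1)) .nil))) .nil))),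
 (.br (nat_lit 13) (nat_lit 0) (.cons (.ev (nat_lit 5192297168019837521933163386896641) (nat_lit 1)) (.cons (.br (nat_lit 14) (nat_lit 0) (.cons (.kr (nat_lit 2658455991569836486621122543187132929) (nat_lit 10384593719487507040405439134040064) (nat_lit 0) (nat_lit 2)) (.cons (.kr (nat_lit 680564733841876931667562723286162866177) (nat_lit 10384593719487507040405439100485632) (nat_lit 0) (nat_lit 1)) (.cons (.br (nat_lit 15) (nat_lit 0) (.cons (.ev (nat_lit 5316952708279364288968599770732037637) (nat_lit 3)) (.cons (.br (nat_lit 16) (nat_lit 0) (.cons (.ev (nat_lit 1366446420392028382365689825079666541061) (nat_lit 3)) .nil)) .nil))) .nil)))) (.cons (.br (nat_lit 14) (nat_lit 0) (.cons (.kr (nat_lit 2658455991569836486621122543187132929) (nat_lit 10384593719487507040405439134040064) (nat_lit 0) (nat_lit 2)) (.cons (.br (nat_lit 16) (nat_lit 0) (.cons (.ev (nat_lit 683223189834065733470050630879718408707) (nat_lit 2)) (.cons (.ev (nat_lit 340282387282576229647828171739822620673) (nat_lit 1)) .nil))) (.cons (.br (nat_lit 17) (nat_lit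 0) (.cons (.ev (nat_lit 174227230319512684517605702047012917084163) (nat_lit 2)) (.cons (.ev (nat_lit 87112285952121885621715653879806455513345) (nat_lit 1)) .nil))) .nil)))) .nil)))),
 (.br (nat_lit 13) (nat_lit 0) (.cons (.ev (nat_lit 5192297168019837521933163386896641) (nat_lit 1)) (.cons (.rf (nat_lit 569) (nat_lit 19926519232773908561233952)) (.cons (.br (nat_lit 14) (nat_lit 0) (.cons (.br (nat_lit 15) (nat_lit 0) (.cons (.ev (nat_lit 683223189834065733470050630879718408707) (nat_lit 2)) (.cons (.ev (nat_lit 1329248357422682057357371368351531265) (nat_lit 1)) .nil))) (.cons (.kr (nat_lit 680564733841876931667562723286162866177) (nat_lit 10384593719487507040405439100485632) (nat_lit 0) (nat_lit 1)) (.cons (.br (nat_lit 17) (nat_lit 0) (.cons (.ev (nat_lit 87112285952121885621715653879806455513345) (nat_lit 1)) (.cons (.ev (nat_lit 174905136597362991612786643647755926372867) (nat_lit 2)) .nil))) .nil)))) .nil)))),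
 (.br (nat_lit 12) (nat_lit 0) (.cons (.rf (nat_lit 567) (nat_lit 583706118939841765935136)) (.cons (.br (nat_lit 14) (nat_lit 0) (.cons (.ev (nat_lit 5192297168024578335441577440182528) (nat_lit 1)) (.cons (.kr (nat_lit 2658455991569836468174378465182613505) (nat_lit 10384593717069673703805070679736320) (nat_lit 0) (nat_lit 1)) (.cons (.br (nat_lit 13) (nat_lit 0) (.cons (.br (nat_lit 13) (nat_lit 0) (.cons (.ev (nat_lit 2668881308564856362280426222244725251) (nat_lit 2)) (.cons (.rf (nat_lit 20) (nat_lit 630978331607739426)) .nil))) (.cons (.rf (nat_lit 568) (nat_lit 19926519232773908561233952)) (.cons (.br (nat_lit 13) (nat_lit 0) (.cons (.rf (nat_lit 20) (nat_lit 630978331607739426)) (.cons (.rf (nat_lit 568) (nat_lit 19926519232773908561233952)) .nil))) .nil)))) .nil)))) (.cons (.br (nat_lit 13) (nat_lit 0) (.cons (.ev (nat_lit 5192297168024578335441577440182528) (nat_lit 1)) (.cons (.rf (nat_lit 569) (nat_lit 19926519232773908561233952)) (.cons (.rf (nat_lit 570) (nat_lit 19926519232773908561233952)) (.cons (.br (nat_lit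 13) (nat_lit 0) (.cons (.ev (nat_lit 5192297168019837521933163386896641) (nat_lit 1)) (.cons (.rf (nat_lit 569) (nat_lit 19926519232773908561233952)) (.cons (.rf (nat_lit 570) (nat_lit 19926519232773908561233952)) .nil)))) .nil))))) .nil)))),
 (.br (nat_lit 14) (nat_lit 0) (.cons (.kr (nat_lit 2658455991572254319957722911624658945) (nat_lit 10384593717069710597293226671997440) (nat_lit 0) (nat_lit 2)) (.cons (.br (nat_lit 13) (nat_lit 0) (.cons (.ev (nat_lit 2668881308562438473891824013175554051) (nat_lit 2)) (.cons (.kr (nat_lit 680564733841876931649115979208175124481) (nat_lit 10384593717069673703805070662959616) (nat_lit 0) (nat_lit 2)) (.cons (.br (nat_lit 16) (nat_lit 0) (.cons (.ev (nat_lit 683223189834068151284652256811129241603) (nat_lit 2)) (.cons (.ev (nat_lit 340282387282576229647828171739822620673) (nat_lit 1)) .nil))) .nil)))) (.cons (.br (nat_lit 13) (nat_lit 0) (.cons (.rf (nat_lit 20) (nat_lit 596040251190979810)) (.cons (.br (nat_lit 15) (nat_lit 0) (.cons (.ev (nat_lit 5316952708274528512191395352593695237)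 (nat_lit 3)) (.cons (.br (nat_lit 16) (nat_lit 0) (.cons (.ev (nat_lit 1366446420392033218142467029497804883461) (nat_lit 3)) .nil)) .nil))) (.cons (.br (nat_lit 17) (nat_lit 0) (.cons (.ev (nat_lit 174227230319512682099791100421081506251267) (nat_lit 2)) (.cons (.ev (nat_lit 87112285952121885621715653879806455513345) (nat_lit 1)) .nil))) .nil)))) .nil)))),
 (.br (nat_lit 13) (nat_lit 0) (.cons (.rf (nat_lit 572) (nat_lit 19926519232773908561233952)) (.cons (.ev (nat_lit 1329248357423890964658184334056947713) (nat_lit 1)) (.cons (.br (nat_lit 14) (nat_lit 0) (.cons (.br (nat_lit 14) (nat_lit 0) (.cons (.zr (nat_lit 3992876284213282501680183911234142208) (nat_lit 20361949669027539452155456979456) (nat_lit 8) (nat_lit 5)) .nil)) (.cons (.br (nat_lit 14) (nat_lit 0) (.cons (.zr (nat_lit 3992876284213282501680183911234142208) (nat_lit 20361949669027539452155456979456) (nat_lit 8) (nat_lit 5)) .nil)) .nil))) .nil)))),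
 (.br (nat_lit 13) (nat_lit 0) (.cons (.rf (nat_lit 572) (nat_lit 19926519232773908561233952)) (.cons (.ev (nat_lit 1329248357423890964658184334056947713) (nat_lit 1)) (.cons (.br (nat_lit 15) (nat_lit 0) (.cons (.br (nat_lit 14) (nat_lit 0) (.cons (.ev (nat_lit 341616787213891403914613856069471961088) (nat_lit 1)) (.cons (.ev (nat_lit 2668881308562438473891824013175554051) (nat_lit 2)) .nil))) (.cons (.kr (nat_lit 340282366920938463481821351509772730368) (nat_lit 1329227995786124798795479283492978688) (nat_lit 4) (nat_lit 0)) (.cons (.br (nat_lit 17) (nat_lit 0) (.cons (.ev (nat_lit 174227230319512682099791100421081506251267) (nat_lit 2)) (.cons (.ev (nat_lit 87453897547038607792144631481332781875457) (nat_lit 1)) .nil))) .nil)))) .nil)))),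
 (.br (nat_lit 12) (nat_lit 0) (.cons (.rf (nat_lit 567) (nat_lit 583706118939841765935136)) (.cons (.rf (nat_lit 571) (nat_lit 583706118939841765935136)) (.cons (.br (nat_lit 13) (nat_lit 0) (.cons (.rf (nat_lit 572) (nat_lit 19926519232773908561233952)) (.cons (.rf (nat_lit 573) (nat_lit 19926519232773908561233952)) (.cons (.rf (nat_lit 574) (nat_lit 19926519232773908561233952)) (.cons (.br (nat_lit 13) (nat_lit 0) (.cons (.rf (nat_lit 572) (nat_lit 19926519232773908561233952)) (.cons (.rf (nat_lit 573) (nat_lit 19926519232773908561233952)) (.cons (.rf (nat_lit 574) (nat_lit 19926519232773908561233952)) .nil)))) .nil))))) .nil)))),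
 (.br (nat_lit 16) (nat_lit 0) (.cons (.ev (nat_lit 683223189834065733470050630879718408707) (nat_lit 2)) (.cons (.ev (nat_lit 340282387282576229647828171739822620673) (nat_lit 1)) .nil))),
 (.br (nat_lit 14) (nat_lit 0) (.cons (.br (nat_lit 15) (nat_lit 0) (.cons (.ev (nat_lit 683223189834065733470050630879718408707) (nat_lit 2)) (.cons (.ev (nat_lit 1329248357422682057357371368351531265) (nat_lit 1)) .nil))) (.cons (.kr (nat_lit 680564733841876931649115979208175124481) (nat_lit 10384593717069673703805070662959616) (nat_lit 0) (nat_lit 2)) (.cons (.br (nat_lit 17) (nat_lit 0) (.cons (.ev (nat_lit 87112285952121884412808353066840716541953) (nat_lit 1)) (.cons (.ev (nat_lit 174905136597362989194972042021824448430083) (nat_lit 2)) .nil))) .nil)))),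
 (.br (nat_lit 13) (nat_lit 0) (.cons (.br (nat_lit 14) (nat_lit 0) (.cons (.kr (nat_lit 2658455991569836468174378465182613505) (nat_lit 10384593717069673703805070679736320) (nat_lit 0) (nat_lit 1)) (.cons (.rf (nat_lit 576) (nat_lit 677582165103132179601393696)) (.cons (.rf (nat_lit 576) (nat_lit 640105464695078675185502240)) .nil)))) (.cons (.rf (nat_lit 577) (nat_lit 677582165103132179601393696)) (.cons (.rf (nat_lit 577) (nat_lit 640105464695078675185502240)) .nil)))),
 (.br (nat_lit 15) (nat_lit 0) (.cons (.br (nat_lit 14) (nat_lit 0) (.cons (.ev (nat_lit 341616787213892612821914669035210932480) (nat_lit 1)) (.cons (.ev (nat_lit 2668881308564856362280426222244725251) (nat_lit 2)) .nil))) (.cons (.kr (nat_lit 1329227995784915872903807060280344832) (nat_lit 340282366920938463463374607431784988672) (nat_lit 1) (nat_lit 0)) (.cons (.br (nat_lit 17) (nat_lit 0) (.cons (.ev (nat_lit 174227230319512682099791100421081506251267) (nat_lit 2)) (.cons (.ev (nat_lit 87453897547038607792144631481332781875457) (nat_lit 1)) .nil))) .nil)))),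
 (.br (nat_lit 13) (nat_lit 0) (.cons (.rf (nat_lit 578) (nat_lit 677582165103132179601393696)) (.cons (.rf (nat_lit 579) (nat_lit 677582165103132179601393696)) (.cons (.rf (nat_lit 579) (nat_lit 640105464695078675185502240)) .nil)))),
 (.br (nat_lit 14) (nat_lit 0) (.cons (.ev (nat_lit 680575159158871951543222026965254012931) (nat_lit 2)) (.cons (.ev (nat_lit 87452573490978354338868990344232385380353) (nat_lit 1)) .nil))),
 (.br (nat_lit 13) (nat_lit 0) (.cons (.rf (nat_lit 578) (nat_lit 677582165103132179601393696)) (.cons (.rf (nat_lit 580) (nat_lit 677582165103132179601393696)) (.cons (.br (nat_lit 16) (nat_lit 0) (.cons (.rf (nat_lit 581) (nat_lit 677582165103132179601393696)) (.cons (.br (nat_lit 14) (nat_lit 0) (.cons (.ev (nat_lit 683223189834065733470050630879718408707) (nat_lit 2)) (.cons (.rf (nat_lit 581) (nat_lit 640105464695078675185502240)) .nil))) (.cons (.kr (nat_lit 340282366920938463463374607431768211456) (nat_lit 87112285931760246646623899502532662132736) (nat_lit 16) (nat_lit 0)) .nil)))) .nil)))),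
 (.br (nat_lit 7) (nat_lit 0) (.cons (.kr (nat_lit 18446744078004518912) (nat_lit 1208925891672223212634112) (nat_lit 4) (nat_lit 0)) (.cons (.kr (nat_lit 4740813508422626443265) (nat_lit 2417851783344446442045440) (nat_lit 0) (nat_lit 1)) (.cons (.kr (nat_lit 18446744078004519168) (nat_lit 1208925891672223229411328) (nat_lit 1) (nat_lit 0)) (.cons (.br (nat_lit 11) (nat_lit 0) (.cons (.ev (nat_lit 621392612095427827032129539) (nat_lit 2)) (.cons (.ev (nat_lit 621392612095427827065684483) (nat_lit 2)) (.cons (.ev (nat_lit 618974797493801895587741699) (nat_lit 2)) (.cons (.br (nat_lit 5) (nat_lit 0) (.cons (.br (nat_lit 12) (nat_lit 0) (.cons (.br (nat_lit 13) (nat_lit 0) (.cons (.ev (nat_lit 40725132447205686310786696348165) (nat_lit 3)) (.cons (.br (nat_lit 14) (nat_lit 0) (.cons (.rf (nat_lit 536) (nat_lit 583706118939841765935136)) (.cons (.br (nat_lit 14) (nat_lit 0) (.cons (.rf (nat_lit 536) (nat_lit 583706118939841765935136)) (.cons (.br (nat_lit 15) (nat_lit 0) (.cons (.rf (nat_lit 537) (nat_lit 677582165103132179601393696))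 (.cons (.rf (nat_lit 537) (nat_lit 640105464695078675185502240)) .nil))) .nil))) .nil))) .nil))) (.cons (.br (nat_lit 13) (nat_lit 0) (.cons (.ev (nat_lit 5192297168024578335441577440182528) (nat_lit 1)) (.cons (.br (nat_lit 13) (nat_lit 0) (.cons (.ev (nat_lit 5192297168019837521933163386896641) (nat_lit 1)) (.cons (.br (nat_lit 14) (nat_lit 0) (.cons (.rf (nat_lit 538) (nat_lit 622703726023049662793760)) (.cons (.rf (nat_lit 538) (nat_lit 586105385780809912387616)) (.cons (.br (nat_lit 15) (nat_lit 0) (.cons (.br (nat_lit 15) (nat_lit 0) (.cons (.ev (nat_lit 2668881308564856362280426222244725251) (nat_lit 2)) .nil)) (.cons (.br (nat_lit 15) (nat_lit 0) (.cons (.ev (nat_lit 2668881308564856362280426222244725251) (nat_lit 2)) .nil)) .nil))) .nil)))) .nil))) .nil))) (.cons (.br (nat_lit 13) (nat_lit 0) (.cons (.rf (nat_lit 540) (nat_lit 583706118939841765935136)) (.cons (.rf (nat_lit 542) (nat_lit 583706118939841765935136)) (.cons (.br (nat_lit 13) (nat_lit 0) (.cons (.rf (nat_lit 540) (nat_lit 583706118939841765935136)) (.cons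 (.rf (nat_lit 542) (nat_lit 583706118939841765935136)) (.cons (.br (nat_lit 14) (nat_lit 0) (.cons (.rf (nat_lit 544) (nat_lit 677582165103132179601393696)) (.cons (.rf (nat_lit 545) (nat_lit 677582165103132179601393696)) (.cons (.rf (nat_lit 545) (nat_lit 640105464695078675185502240)) .nil)))) .nil)))) .nil)))) .nil)))) (.cons (.br (nat_lit 12) (nat_lit 0) (.cons (.rf (nat_lit 548) (nat_lit 17022140995484340291616)) (.cons (.rf (nat_lit 549) (nat_lit 17022140995484340291616)) (.cons (.br (nat_lit 12) (nat_lit 0) (.cons (.rf (nat_lit 548) (nat_lit 17022140995484340291616)) (.cons (.rf (nat_lit 549) (nat_lit 17022140995484340291616)) (.cons (.br (nat_lit 13) (nat_lit 0) (.cons (.br (nat_lit 14) (nat_lit 0) (.cons (.rf (nat_lit 443) (nat_lit 622702608807943479634150)) (.cons (.rf (nat_lit 443) (nat_lit 586104268565703729228006)) (.cons (.br (nat_lit 15) (nat_lit 0) (.cons (.br (nat_lit 15) (nat_lit 0) (.cons (.ev (nat_lit 2668881308562438473891824013175554051) (nat_lit 2)) .nil)) (.cons (.br (nat_lit 15) (nat_lit 0) (.cons (.ev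 (nat_lit 2668881308562438473891824013175554051) (nat_lit 2)) .nil)) .nil))) .nil)))) (.cons (.rf (nat_lit 551) (nat_lit 19926519232773908561233952)) (.cons (.rf (nat_lit 551) (nat_lit 18755372345022236548237344)) (.cons (.br (nat_lit 14) (nat_lit 0) (.cons (.rf (nat_lit 552) (nat_lit 677582165103132179601393696)) (.cons (.rf (nat_lit 552) (nat_lit 676411018215380507588397088)) (.cons (.br (nat_lit 14) (nat_lit 0) (.cons (.rf (nat_lit 552) (nat_lit 677582165103132179601393696)) (.cons (.rf (nat_lit 552) (nat_lit 676411018215380507588397088)) .nil))) .nil)))) .nil))))) .nil)))) .nil)))) (.cons (.br (nat_lit 14) (nat_lit 0) (.cons (.ev (nat_lit 5192297169233485636254543162376448) (nat_lit 1)) (.cons (.ev (nat_lit 5192297168024578335441577423405056) (nat_lit 1)) (.cons (.br (nat_lit 12) (nat_lit 0) (.cons (.rf (nat_lit 554) (nat_lit 583706118939841765935136)) (.cons (.rf (nat_lit 556) (nat_lit 583706118939841765935136)) (.cons (.br (nat_lit 12) (nat_lit 0) (.cons (.rf (nat_lit 554) (nat_lit 583706118939841765935136)) (.cons (.rf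 (nat_lit 556) (nat_lit 583706118939841765935136)) (.cons (.br (nat_lit 13) (nat_lit 0) (.cons (.rf (nat_lit 558) (nat_lit 677582165103132179601393696)) (.cons (.rf (nat_lit 559) (nat_lit 677582165103132179601393696)) (.cons (.rf (nat_lit 559) (nat_lit 640105464695078675185502240)) .nil)))) .nil)))) .nil)))) .nil)))) (.cons (.br (nat_lit 12) (nat_lit 0) (.cons (.rf (nat_lit 567) (nat_lit 583706118939841765935136)) (.cons (.rf (nat_lit 571) (nat_lit 583706118939841765935136)) (.cons (.rf (nat_lit 575) (nat_lit 583706118939841765935136)) (.cons (.br (nat_lit 12) (nat_lit 0) (.cons (.rf (nat_lit 567) (nat_lit 583706118939841765935136)) (.cons (.rf (nat_lit 571) (nat_lit 583706118939841765935136)) (.cons (.rf (nat_lit 575) (nat_lit 583706118939841765935136)) (.cons (.br (nat_lit 13) (nat_lit 0) (.cons (.rf (nat_lit 578) (nat_lit 677582165103132179601393696)) (.cons (.rf (nat_lit 580) (nat_lit 677582165103132179601393696)) (.cons (.rf (nat_lit 582) (nat_lit 677582165103132179601393696)) (.cons (.rf (nat_lit 582) (nat_lit 640105464695078675185502240))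 .nil))))) .nil))))) .nil))))) .nil))))) .nil))))) .nil))))),
 (.br (nat_lit 13) (nat_lit 0) (.cons (.br (nat_lit 14) (nat_lit 0) (.cons (.kr (nat_lit 40564819207321787873443188834305) (nat_lit 10384593717074377623543866615398400) (nat_lit 0) (nat_lit 1)) (.cons (.br (nat_lit 15) (nat_lit 0) (.cons (.ev (nat_lit 1334440575362544102909391114290069760) (nat_lit 1)) (.cons (.rf (nat_lit 11) (nat_lit 631047566517247010)) .nil))) .nil))) (.cons (.br (nat_lit 14) (nat_lit 0) (.cons (.br (nat_lit 15) (nat_lit 0) (.cons (.ev (nat_lit 1334440575363753010210204071405551873) (nat_lit 1)) (.cons (.rf (nat_lit 11) (nat_lit 631046501362214946)) .nil))) (.cons (.kr (nat_lit 40564819207321787873443188834305) (nat_lit 10384593717074377623543866615398400) (nat_lit 0) (nat_lit 1)) (.cons (.br (nat_lit 15) (nat_lit 0) (.cons (.br (nat_lit 15) (nat_lit 0) (.cons (.zr (nat_lit 5212658805800170484931239226703872) (nat_lit 1329227995787333761580639662714650880) (nat_lit 8) (nat_lit 11)) .nil)) (.cons (.br (nat_lit 15) (nat_lit 0) (.cons (.zr (nat_lit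 5212658805800170484931239226703872) (nat_lit 1329227995787333761580639662714650880) (nat_lit 8) (nat_lit 11)) .nil)) .nil))) .nil)))) .nil)))]

theorem c20 : chkAll C T R L20 (nat_lit 568) = true := by decide +kernel

theorem l20 : (nat_lit 568) + L20.length = (nat_lit 585) := by decide +kernel

/-- part of the certificates -/
def L21 : List Prf := [(.br (nat_lit 13) (nat_lit 0) (.cons (.rf (nat_lit 584) (nat_lit 583706118939841765935136)) (.cons (.br (nat_lit 15) (nat_lit 0) (.cons (.br (nat_lit 14) (nat_lit 0) (.cons (.ev (nat_lit 31194347210778975070033663192203269) (nat_lit 3)) (.cons (.rf (nat_lit 15) (nat_lit 631047566517247010)) .nil))) (.cons (.br (nat_lit 14) (nat_lit 0) (.cons (.ev (nat_lit 683223189834068151284652256811162796547) (nat_lit 2)) (.cons (.br (nat_lit 14) (nat_lit 0) (.cons (.ev (nat_lit 683223189834068151284652256811162796547) (nat_lit 2)) .nil)) .nil))) (.cons (.rf (nat_lit 112) (nat_lit 21173298956766415263205408)) .nil)))) .nil))),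
 (.br (nat_lit 15) (nat_lit 0) (.cons (.ev (nat_lit 683223189834065733470050630879684854273) (nat_lit 2)) (.cons (.ev (nat_lit 1334440575362539362096445641600270593) (nat_lit 1)) .nil))),
 (.br (nat_lit 14) (nat_lit 0) (.cons (.rf (nat_lit 586) (nat_lit 677582165103132179601393696)) (.cons (.rf (nat_lit 586) (nat_lit 640105464695078675185502240)) .nil))),
 (.br (nat_lit 14) (nat_lit 0) (.cons (.rf (nat_lit 587) (nat_lit 677582165103132179601393696)) (.cons (.ev (nat_lit 31194347210778975070033663192203269) (nat_lit 3)) .nil))),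
 (.br (nat_lit 15) (nat_lit 0) (.cons (.ev (nat_lit 1344865971584512789450818958825554178) (nat_lit 2)) .nil)),
 (.br (nat_lit 12) (nat_lit 0) (.cons (.ev (nat_lit 79229371440084234797223837953) (nat_lit 1)) (.cons (.br (nat_lit 14) (nat_lit 0) (.cons (.rf (nat_lit 134) (nat_lit 18205074309892604528672)) (.cons (.br (nat_lit 14) (nat_lit 0) (.cons (.rf (nat_lit 134) (nat_lit 18205074309892604528672)) (.cons (.br (nat_lit 15) (nat_lit 0) (.cons (.rf (nat_lit 589) (nat_lit 677582165103132179601393696)) (.cons (.rf (nat_lit 589) (nat_lit 640105464695078675185502240)) .nil))) .nil))) .nil))) .nil))),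
 (.br (nat_lit 14) (nat_lit 0) (.cons (.ev (nat_lit 5212658497514660196133609670705153) (nat_lit 1)) (.cons (.rf (nat_lit 11) (nat_lit 593856516953670786)) .nil))),
 (.br (nat_lit 14) (nat_lit 0) (.cons (.ev (nat_lit 5212658497509919455245735330578433) (nat_lit 1)) (.cons (.rf (nat_lit 70) (nat_lit 593855485052102721)) .nil))),
 (.br (nat_lit 12) (nat_lit 0) (.cons (.ev (nat_lit 79229376180897180269880082688) (nat_lit 1)) (.cons (.br (nat_lit 13) (nat_lit 0) (.cons (.kr (nat_lit 40564819207321787873443188834817) (nat_lit 10384593717074377623543866648952832) (nat_lit 0) (nat_lit 2)) (.cons (.br (nat_lit 14) (nat_lit 0) (.cons (.ev (nat_lit 31194347210778975070033663158649349) (nat_lit 3)) (.cons (.rf (nat_lit 591) (nat_lit 622703726024184642504736)) .nil))) (.cons (.br (nat_lit 14) (nat_lit 0) (.cons (.rf (nat_lit 592) (nat_lit 622703726024149174421536)) (.cons (.ev (nat_lit 31194347210778975070033663158649349) (nat_lit 3)) (.cons (.br (nat_lit 15) (nat_lit 0) (.cons (.br (nat_lit 15) (nat_lit 0) (.cons (.zr (nat_lit 5212658805800170484931239226703872)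 (nat_lit 1329227995787333761580639662714650880) (nat_lit 8) (nat_lit 11)) .nil)) (.cons (.br (nat_lit 15) (nat_lit 0) (.cons (.zr (nat_lit 5212658805800170484931239226703872) (nat_lit 1329227995787333761580639662714650880) (nat_lit 8) (nat_lit 11)) .nil)) .nil))) .nil)))) .nil)))) .nil))),
 (.br (nat_lit 15) (nat_lit 0) (.cons (.ev (nat_lit 2658537597198614161285268759967563779) (nat_lit 3)) (.cons (.rf (nat_lit 58) (nat_lit 631045369497824330)) .nil))),
 (.br (nat_lit 15) (nat_lit 0) (.cons (.ev (nat_lit 2668881308562438473891824013175554051) (nat_lit 2)) (.cons (.ev (nat_lit 341611595075183331197678788543739199491) (nat_lit 2)) (.cons (.br (nat_lit 16) (nat_lit 0) (.cons (.ev (nat_lit 341611594995952750776362649289272393985) (nat_lit 1)) .nil)) .nil)))),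
 (.br (nat_lit 14) (nat_lit 0) (.cons (.br (nat_lit 14) (nat_lit 0) (.cons (.ev (nat_lit 2668881308562438473891824013175554051) (nat_lit 2)) (.cons (.rf (nat_lit 15) (nat_lit 631047533231309986)) .nil))) (.cons (.rf (nat_lit 595) (nat_lit 19926519232773908561233952)) (.cons (.br (nat_lit 14) (nat_lit 0) (.cons (.rf (nat_lit 15) (nat_lit 631047533231309986)) (.cons (.rf (nat_lit 595) (nat_lit 19926519232773908561233952)) .nil))) .nil)))),
 (.br (nat_lit 13) (nat_lit 0) (.cons (.kr (nat_lit 20282409603651670423947251286016) (nat_lit 5192296858534827628530496329220096) (nat_lit 13) (nat_lit 0)) (.cons (.br (nat_lit 14) (nat_lit 0) (.cons (.ev (nat_lit 1329228075322568137802998145175584768) (nat_lit 1)) .nil)) .nil))),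
 (.br (nat_lit 14) (nat_lit 0) (.cons (.rf (nat_lit 597) (nat_lit 661701333108527519141953)) (.cons (.br (nat_lit 15) (nat_lit 0) (.cons (.br (nat_lit 16) (nat_lit 0) (.cons (.ev (nat_lit 1369104917264092131506398926728161787907) (nat_lit 3)) .nil)) (.cons (.ev (nat_lit 174227230319512682099791100421081472696833) (nat_lit 2)) .nil))) .nil))),
 (.br (nat_lit 12) (nat_lit 0) (.cons (.ev (nat_lit 79228167236702879156755562753) (nat_lit 1)) (.cons (.br (nat_lit 13) (nat_lit 0) (.cons (.kr (nat_lit 40564819207321787873443205611521) (nat_lit 10384593717074377623543866598621696) (nat_lit 0) (nat_lit 2)) (.cons (.br (nat_lit 14) (nat_lit 0) (.cons (.ev (nat_lit 31194347210778975070033663225759237) (nat_lit 3)) (.cons (.rf (nat_lit 592) (nat_lit 622667985348761015650336)) .nil))) (.cons (.br (nat_lit 14) (nat_lit 0) (.cons (.rf (nat_lit 591) (nat_lit 622667985348556062033952)) (.cons (.ev (nat_lit 31194347210778975070033663225759237) (nat_lit 3)) (.cons (.br (nat_lit 15) (nat_lit 0) (.cons (.br (nat_lit 15) (nat_lit 0) (.cons (.zr (nat_lit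 5212658805800170484931239226703872) (nat_lit 1329227995787333761580639662714650880) (nat_lit 8) (nat_lit 11)) .nil)) (.cons (.br (nat_lit 15) (nat_lit 0) (.cons (.zr (nat_lit 5212658805800170484931239226703872) (nat_lit 1329227995787333761580639662714650880) (nat_lit 8) (nat_lit 11)) .nil)) .nil))) .nil)))) .nil)))) .nil))),
 (.br (nat_lit 15) (nat_lit 0) (.cons (.ev (nat_lit 1344865971586930677839421167894724864) (nat_lit 2)) .nil)),
 (.br (nat_lit 15) (nat_lit 0) (.cons (.rf (nat_lit 600) (nat_lit 677582165103132179601393696)) (.cons (.rf (nat_lit 600) (nat_lit 640105464695078675185502240)) .nil))),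
 (.br (nat_lit 12) (nat_lit 0) (.cons (.ev (nat_lit 79228167236702879156755562753) (nat_lit 1)) (.cons (.br (nat_lit 13) (nat_lit 0) (.cons (.rf (nat_lit 134) (nat_lit 18240811642974698047520)) (.cons (.br (nat_lit 13) (nat_lit 0) (.cons (.rf (nat_lit 134) (nat_lit 18240811642974698047520)) (.cons (.rf (nat_lit 601) (nat_lit 677582165103132179601393696)) .nil))) .nil))) .nil))),
 (.br (nat_lit 15) (nat_lit 0) (.cons (.ev (nat_lit 7996137322459292265173972388059152391) (nat_lit 3)) (.cons (.rf (nat_lit 58) (nat_lit 631045402884484167)) .nil))),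
 (.br (nat_lit 13) (nat_lit 0) (.cons (.rf (nat_lit 603) (nat_lit 19926519232773908561233952)) (.cons (.rf (nat_lit 603) (nat_lit 18755372345022236548237344)) (.cons (.br (nat_lit 15) (nat_lit 0) (.cons (.br (nat_lit 15) (nat_lit 0) (.cons (.ev (nat_lit 2668881308564856362280426222244724737) (nat_lit 2)) .nil)) (.cons (.br (nat_lit 15) (nat_lit 0) (.cons (.ev (nat_lit 2668881308564856362280426222244724737) (nat_lit 2)) .nil)) .nil))) .nil)))),
 (.br (nat_lit 13) (nat_lit 0) (.cons (.rf (nat_lit 604) (nat_lit 19926519232773908561233952)) (.cons (.br (nat_lit 14) (nat_lit 0) (.cons (.ev (nat_lit 2668881308564856362280426222244724737) (nat_lit 2)) (.cons (.ev (nat_lit 680575159158871951543222026965220458497) (nat_lit 2)) (.cons (.br (nat_lit 15) (nat_lit 0) (.cons (.ev (nat_lit 7975449580338277652900497001021834243) (nat_lit 3)) (.cons (.br (nat_lit 16) (nat_lit 0) (.cons (.ev (nat_lit 341611594995952750776362649289272393985) (nat_lit 1)) .nil)) .nil))) .nil)))) (.cons (.br (nat_lit 14) (nat_lit 0) (.cons (.rf (nat_lit 15) (nat_lit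 631046434790376610)) (.cons (.br (nat_lit 15) (nat_lit 0) (.cons (.ev (nat_lit 341611595075180913309290186317423050753) (nat_lit 2)) (.cons (.br (nat_lit 16) (nat_lit 0) (.cons (.ev (nat_lit 341611594995951541869061836332123357440) (nat_lit 1)) .nil)) .nil))) (.cons (.br (nat_lit 15) (nat_lit 0) (.cons (.br (nat_lit 16) (nat_lit 0) (.cons (.ev (nat_lit 1363808693023073482627057173874010619911) (nat_lit 3)) .nil)) (.cons (.ev (nat_lit 174227230319512684517605702047012950639107) (nat_lit 2)) .nil))) .nil)))) .nil)))),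
 (.br (nat_lit 15) (nat_lit 0) (.cons (.ev (nat_lit 344270050908915822083253401412956062466) (nat_lit 2)) (.cons (.rf (nat_lit 156) (nat_lit 21172119521300763177486368)) .nil))),
 (.br (nat_lit 15) (nat_lit 0) (.cons (.ev (nat_lit 341611595075183331197678788543722422531) (nat_lit 2)) (.cons (.br (nat_lit 16) (nat_lit 0) (.cons (.ev (nat_lit 680575159158869533654833424756117733891) (nat_lit 2)) (.cons (.ev (nat_lit 341611594995952750776362649289255616513) (nat_lit 1)) .nil))) .nil))),
 (.br (nat_lit 16) (nat_lit 0) (.cons (.ev (nat_lit 341611594995951541869061836332140134400) (nat_lit 1)) .nil)),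
 (.br (nat_lit 14) (nat_lit 0) (.cons (.br (nat_lit 15) (nat_lit 0) (.cons (.ev (nat_lit 2679225339319628773558744146837112327) (nat_lit 3)) (.cons (.rf (nat_lit 608) (nat_lit 677582165103132179601393696)) .nil))) (.cons (.br (nat_lit 15) (nat_lit 0) (.cons (.br (nat_lit 16) (nat_lit 0) (.cons (.ev (nat_lit 1369104917264092131506398926728128233987) (nat_lit 3)) .nil)) (.cons (.ev (nat_lit 174227230319512682099791100421081506250753) (nat_lit 2)) .nil))) .nil))),
 (.br (nat_lit 14) (nat_lit 0) (.cons (.rf (nat_lit 609) (nat_lit 677582165103132179601393696)) (.cons (.br (nat_lit 16) (nat_lit 0) (.cons (.br (nat_lit 15) (nat_lit 0) (.cons (.ev (nat_lit 2047011195114399226687340527471137521667) (nat_lit 3)) .nil)) (.cons (.ev (nat_lit 174905136597362989194972042021824448430593) (nat_lit 2)) .nil))) .nil))),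
 (.br (nat_lit 12) (nat_lit 0) (.cons (.br (nat_lit 13) (nat_lit 0) (.cons (.kr (nat_lit 40564819207321787873443188834305) (nat_lit 10384593717074377623543866615398400) (nat_lit 0) (nat_lit 1)) (.cons (.br (nat_lit 14) (nat_lit 0) (.cons (.ev (nat_lit 31194347210778975070033663192203269) (nat_lit 3)) (.cons (.rf (nat_lit 147) (nat_lit 19421516872894808035393)) .nil))) (.cons (.br (nat_lit 14) (nat_lit 0) (.cons (.br (nat_lit 15) (nat_lit 0) (.cons (.ev (nat_lit 1334440575362539362096445641617047553) (nat_lit 1)) (.cons (.rf (nat_lit 20) (nat_lit 631047566512167970)) .nil))) (.cons (.ev (nat_lit 31194347210778975070033663192203269) (nat_lit 3)) (.cons (.br (nat_lit 15) (nat_lit 0) (.cons (.br (nat_lit 15) (nat_lit 0) (.cons (.zr (nat_lit 5212658805800170484931239260258304) (nat_lit 1329227995787333761580639662714651392) (nat_lit 8) (nat_lit 11)) .nil)) (.cons (.br (nat_lit 15) (nat_lit 0) (.cons (.zr (nat_lit 5212658805800170484931239260258304) (nat_lit 1329227995787333761580639662714651392) (nat_lit 8) (nat_lit 11)) .nil)) .nil)))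 .nil)))) .nil)))) (.cons (.ev (nat_lit 79228167236702879156755562753) (nat_lit 1)) (.cons (.br (nat_lit 13) (nat_lit 0) (.cons (.br (nat_lit 14) (nat_lit 0) (.cons (.br (nat_lit 15) (nat_lit 0) (.cons (.ev (nat_lit 2658537597198614161285268759866902019) (nat_lit 3)) (.cons (.rf (nat_lit 20) (nat_lit 631047533226165474)) .nil))) (.cons (.br (nat_lit 15) (nat_lit 0) (.cons (.ev (nat_lit 680564815447505709342226869502876189699) (nat_lit 3)) (.cons (.br (nat_lit 15) (nat_lit 0) (.cons (.ev (nat_lit 680564815447505709342226869502876189699) (nat_lit 3)) .nil)) .nil))) (.cons (.br (nat_lit 15) (nat_lit 0) (.cons (.br (nat_lit 15) (nat_lit 0) (.cons (.ev (nat_lit 2668881308562438473891824013175554051) (nat_lit 2)) .nil)) (.cons (.br (nat_lit 15) (nat_lit 0) (.cons (.ev (nat_lit 2668881308562438473891824013175554051) (nat_lit 2)) .nil)) .nil))) .nil)))) (.cons (.br (nat_lit 14) (nat_lit 0) (.cons (.br (nat_lit 14) (nat_lit 0) (.cons (.ev (nat_lit 2668881308562438473891824013175554051) (nat_lit 2)) (.cons (.rf (nat_lit 20) (nat_lit 631013448370783458))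 .nil))) (.cons (.br (nat_lit 14) (nat_lit 0) (.cons (.ev (nat_lit 2668881308562438473891824013175554051) (nat_lit 2)) (.cons (.rf (nat_lit 606) (nat_lit 677582165103132179601393696)) .nil))) (.cons (.br (nat_lit 14) (nat_lit 0) (.cons (.rf (nat_lit 20) (nat_lit 631013448370783458)) (.cons (.rf (nat_lit 606) (nat_lit 677582165103132179601393696)) .nil))) .nil)))) (.cons (.br (nat_lit 14) (nat_lit 0) (.cons (.rf (nat_lit 607) (nat_lit 19926519232773908561233952)) (.cons (.br (nat_lit 14) (nat_lit 0) (.cons (.ev (nat_lit 680575159158869533654833424756117733891) (nat_lit 2)) (.cons (.rf (nat_lit 87) (nat_lit 631047566377954369)) .nil))) (.cons (.br (nat_lit 14) (nat_lit 0) (.cons (.rf (nat_lit 607) (nat_lit 19926519232773908561233952)) (.cons (.rf (nat_lit 87) (nat_lit 631047566377954369)) .nil))) .nil)))) (.cons (.br (nat_lit 14) (nat_lit 0) (.cons (.rf (nat_lit 609) (nat_lit 677582165103132179601393696)) (.cons (.rf (nat_lit 610) (nat_lit 677582165103132179601393696)) (.cons (.br (nat_lit 14) (nat_lit 0) (.cons (.rf (nat_lit 609)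 (nat_lit 677582165103132179601393696)) (.cons (.rf (nat_lit 610) (nat_lit 677582165103132179601393696)) .nil))) .nil)))) .nil))))) .nil)))),
 (.br (nat_lit 13) (nat_lit 0) (.cons (.br (nat_lit 15) (nat_lit 0) (.cons (.ev (nat_lit 7996137322459292265173972388025598471) (nat_lit 3)) (.cons (.rf (nat_lit 20) (nat_lit 596039186072802530)) .nil))) (.cons (.br (nat_lit 15) (nat_lit 0) (.cons (.ev (nat_lit 2041714970873380577807998774616919245831) (nat_lit 3)) (.cons (.br (nat_lit 15) (nat_lit 0) (.cons (.ev (nat_lit 2041714970873380577807998774616919245831) (nat_lit 3)) .nil)) .nil))) (.cons (.br (nat_lit 15) (nat_lit 0) (.cons (.br (nat_lit 15) (nat_lit 0) (.cons (.ev (nat_lit 2668881308564856362280426222244724737) (nat_lit 2)) .nil)) (.cons (.br (nat_lit 15) (nat_lit 0) (.cons (.ev (nat_lit 2668881308564856362280426222244724737) (nat_lit 2)) .nil)) .nil))) .nil))))]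

theorem c21 : chkAll C T R L21 (nat_lit 585) = true := by decide +kernel

theorem l21 : (nat_lit 585) + L21.length = (nat_lit 613) := by decide +kernel

/-- part of the certificates -/
def L22 : List Prf := [(.br (nat_lit 16) (nat_lit 0) (.cons (.ev (nat_lit 341611594995952755517175594761945415680) (nat_lit 1)) .nil)),
 (.br (nat_lit 13) (nat_lit 0) (.cons (.rf (nat_lit 612) (nat_lit 19926519232773908561233952)) (.cons (.br (nat_lit 14) (nat_lit 0) (.cons (.ev (nat_lit 2668881308564856362280426222244724737) (nat_lit 2)) (.cons (.ev (nat_lit 680575159158871951543222026965254013441) (nat_lit 2)) (.cons (.br (nat_lit 15) (nat_lit 0) (.cons (.ev (nat_lit 7975449580338277652900497001055388163) (nat_lit 3)) (.cons (.rf (nat_lit 613) (nat_lit 677582165103132179601393696)) .nil))) .nil)))) (.cons (.br (nat_lit 14) (nat_lit 0) (.cons (.rf (nat_lit 20) (nat_lit 630978265069290818)) (.cons (.br (nat_lit 15) (nat_lit 0) (.cons (.ev (nat_lit 341611595075180913309290186317406273793) (nat_lit 2)) (.cons (.br (nat_lit 16) (nat_lit 0) (.cons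 (.ev (nat_lit 341611594995951541869061836332140134400) (nat_lit 1)) .nil)) .nil))) (.cons (.br (nat_lit 15) (nat_lit 0) (.cons (.br (nat_lit 16) (nat_lit 0) (.cons (.ev (nat_lit 1363808693023073482627057173873909958151) (nat_lit 3)) .nil)) (.cons (.ev (nat_lit 174227230319512684517605702047012917084163) (nat_lit 2)) .nil))) .nil)))) .nil)))),
 (.br (nat_lit 13) (nat_lit 0) (.cons (.rf (nat_lit 612) (nat_lit 19926519232773908561233952)) (.cons (.rf (nat_lit 614) (nat_lit 19926519232773908561233952)) (.cons (.br (nat_lit 14) (nat_lit 0) (.cons (.br (nat_lit 15) (nat_lit 0) (.cons (.ev (nat_lit 341611595075180913309290186317406273793) (nat_lit 2)) (.cons (.rf (nat_lit 156) (nat_lit 21173298956766415263205408)) .nil))) (.cons (.rf (nat_lit 87) (nat_lit 631046501326629953)) (.cons (.br (nat_lit 16) (nat_lit 0) (.cons (.br (nat_lit 15) (nat_lit 0) (.cons (.ev (nat_lit 685902415172766387446115573131034886151) (nat_lit 3)) .nil)) (.cons (.ev (nat_lit 174905136597362991612786643647755926372867) (nat_lit 2)) .nil))) .nil)))) .nil)))),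
 (.br (nat_lit 12) (nat_lit 0) (.cons (.rf (nat_lit 611) (nat_lit 583706118939841765935136)) (.cons (.ev (nat_lit 79229371440084234797223837953) (nat_lit 1)) (.cons (.br (nat_lit 13) (nat_lit 0) (.cons (.rf (nat_lit 612) (nat_lit 19926519232773908561233952)) (.cons (.rf (nat_lit 614) (nat_lit 19926519232773908561233952)) (.cons (.rf (nat_lit 615) (nat_lit 19926519232773908561233952)) (.cons (.br (nat_lit 13) (nat_lit 0) (.cons (.rf (nat_lit 612) (nat_lit 19926519232773908561233952)) (.cons (.rf (nat_lit 614) (nat_lit 19926519232773908561233952)) (.cons (.rf (nat_lit 615) (nat_lit 19926519232773908561233952)) .nil)))) .nil))))) .nil)))),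
 (.br (nat_lit 13) (nat_lit 0) (.cons (.br (nat_lit 14) (nat_lit 0) (.cons (.ev (nat_lit 2668881308562438473891824013175554051) (nat_lit 2)) (.cons (.rf (nat_lit 20) (nat_lit 596040251224533218)) .nil))) (.cons (.br (nat_lit 14) (nat_lit 0) (.cons (.ev (nat_lit 2668881308564856362280426222244724737) (nat_lit 2)) (.cons (.kr (nat_lit 40564819207321787873443188834305) (nat_lit 10384593717074377623543866615398400) (nat_lit 0) (nat_lit 1)) (.cons (.br (nat_lit 16) (nat_lit 0) (.cons (.ev (nat_lit 683223189834065733470050630879718408193) (nat_lit 2)) (.cons (.ev (nat_lit 340287579500516091693380191485777936640) (nat_lit 1)) .nil))) .nil)))) (.cons (.br (nat_lit 14) (nat_lit 0) (.cons (.rf (nat_lit 20) (nat_lit 596040217938533698)) (.cons (.br (nat_lit 16) (nat_lit 0) (.cons (.ev (nat_lit 683223189834068151284652256811129241603) (nat_lit 2)) (.cons (.ev (nat_lit 340287579500517300600681004442893418753) (nat_lit 1)) .nil))) (.cons (.kr (nat_lit 40564819207321787873443188834305) (nat_lit 10384593717074377623543866615398400) (nat_lit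 0) (nat_lit 1)) .nil)))) .nil)))),
 (.br (nat_lit 13) (nat_lit 0) (.cons (.rf (nat_lit 617) (nat_lit 19926519232773908561233952)) (.cons (.br (nat_lit 14) (nat_lit 0) (.cons (.ev (nat_lit 2041694283131259563195725299229949035523) (nat_lit 3)) (.cons (.br (nat_lit 14) (nat_lit 0) (.cons (.ev (nat_lit 2041694283131259563195725299229949035523) (nat_lit 3)) .nil)) .nil))) (.cons (.br (nat_lit 14) (nat_lit 0) (.cons (.br (nat_lit 14) (nat_lit 0) (.cons (.ev (nat_lit 2668881308564856362280426222244724737) (nat_lit 2)) .nil)) (.cons (.br (nat_lit 14) (nat_lit 0) (.cons (.ev (nat_lit 2668881308564856362280426222244724737) (nat_lit 2)) .nil)) .nil))) .nil)))),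
 (.br (nat_lit 13) (nat_lit 0) (.cons (.rf (nat_lit 617) (nat_lit 19926519232773908561233952)) (.cons (.rf (nat_lit 618) (nat_lit 19926519232773908561233952)) (.cons (.br (nat_lit 15) (nat_lit 0) (.cons (.br (nat_lit 14) (nat_lit 0) (.cons (.ev (nat_lit 680585503189626723954500344889846400007) (nat_lit 3)) (.cons (.ev (nat_lit 2668881308562438473891824013175554051) (nat_lit 2)) .nil))) (.cons (.ev (nat_lit 683223189834065733470050630879718408193) (nat_lit 2)) (.cons (.br (nat_lit 14) (nat_lit 0) (.cons (.ev (nat_lit 2047011195114399226687340527471137521667) (nat_lit 3)) (.cons (.kr (nat_lit 1329227995786124798795479283492978689) (nat_lit 87112285931760246646642346246610666651904) (nat_lit 0) (nat_lit 2)) .nil))) .nil)))) .nil)))),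
 (.br (nat_lit 12) (nat_lit 0) (.cons (.ev (nat_lit 79228167236702879156755562753) (nat_lit 1)) (.cons (.ev (nat_lit 79229371440084234797223837953) (nat_lit 1)) (.cons (.br (nat_lit 13) (nat_lit 0) (.cons (.rf (nat_lit 617) (nat_lit 19926519232773908561233952)) (.cons (.rf (nat_lit 618) (nat_lit 19926519232773908561233952)) (.cons (.rf (nat_lit 619) (nat_lit 19926519232773908561233952)) (.cons (.br (nat_lit 13) (nat_lit 0) (.cons (.rf (nat_lit 617) (nat_lit 19926519232773908561233952)) (.cons (.rf (nat_lit 618) (nat_lit 19926519232773908561233952)) (.cons (.rf (nat_lit 619) (nat_lit 19926519232773908561233952)) .nil)))) .nil))))) .nil)))),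
 (.br (nat_lit 15) (nat_lit 0) (.cons (.ev (nat_lit 1334440575362544102909391114273292288) (nat_lit 1)) (.cons (.br (nat_lit 16) (nat_lit 0) (.cons (.ev (nat_lit 89498265903458072247482375868912998089472) (nat_lit 3)) .nil)) .nil))),
 (.br (nat_lit 14) (nat_lit 0) (.cons (.br (nat_lit 15) (nat_lit 0) (.cons (.ev (nat_lit 1334440575363753010210204071422328833) (nat_lit 1)) (.cons (.br (nat_lit 16) (nat_lit 0) (.cons (.ev (nat_lit 2044383851864416227130328544202924753409) (nat_lit 3)) .nil)) .nil))) (.cons (.kr (nat_lit 40564819207321787873443188834305) (nat_lit 10384593717074377623543866615398400) (nat_lit 0) (nat_lit 1)) (.cons (.br (nat_lit 16) (nat_lit 0) (.cons (.br (nat_lit 15) (nat_lit 0) (.cons (.ev (nat_lit 1363808693023075900441370569446416056833) (nat_lit 3)) .nil)) (.cons (.ev (nat_lit 340287579500516091693380191485777936640) (nat_lit 1)) .nil))) .nil)))),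
 (.br (nat_lit 13) (nat_lit 0) (.cons (.br (nat_lit 14) (nat_lit 0) (.cons (.kr (nat_lit 40564819207321787873443188834305) (nat_lit 10384593717074377623543866615398400) (nat_lit 0) (nat_lit 1)) (.cons (.rf (nat_lit 621) (nat_lit 677582165103132179601393696)) (.cons (.rf (nat_lit 621) (nat_lit 640105464695078675185502240)) .nil)))) (.cons (.rf (nat_lit 622) (nat_lit 677582165103132179601393696)) (.cons (.rf (nat_lit 622) (nat_lit 640105464695078675185502240)) .nil)))),
 (.br (nat_lit 15) (nat_lit 0) (.cons (.br (nat_lit 16) (nat_lit 0) (.cons (.ev (nat_lit 31194347210778975070033663192203269) (nat_lit 3)) (.cons (.ev (nat_lit 341611594995952750776362649289255616513) (nat_lit 1)) .nil))) (.cons (.kr (nat_lit 1329227995784915872903807060280344832) (nat_lit 340282366920938463463374607431784988672) (nat_lit 1) (nat_lit 0)) (.cons (.br (nat_lit 14) (nat_lit 0) (.cons (.ev (nat_lit 341611594995952750776362649289255616513) (nat_lit 1)) (.cons (.ev (nat_lit 87116273615748224005243778296513849983746) (nat_lit 2)) .nil))) .nil)))),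
 (.br (nat_lit 13) (nat_lit 0) (.cons (.rf (nat_lit 623) (nat_lit 677582165103132179601393696)) (.cons (.rf (nat_lit 624) (nat_lit 677582165103132179601393696)) (.cons (.rf (nat_lit 624) (nat_lit 640105464695078675185502240)) .nil)))),
 (.br (nat_lit 13) (nat_lit 0) (.cons (.rf (nat_lit 623) (nat_lit 677582165103132179601393696)) (.cons (.rf (nat_lit 625) (nat_lit 677582165103132179601393696)) (.cons (.br (nat_lit 16) (nat_lit 0) (.cons (.br (nat_lit 17) (nat_lit 0) (.cons (.ev (nat_lit 31194347210778975070033663192203269) (nat_lit 3)) (.cons (.ev (nat_lit 87452568298760414486268171290234310426880) (nat_lit 1)) .nil))) (.cons (.br (nat_lit 14) (nat_lit 0) (.cons (.ev (nat_lit 344270050908913404194864799203819782912) (nat_lit 2)) (.cons (.ev (nat_lit 87452568298760414486268171290234310426880) (nat_lit 1)) .nil))) (.cons (.kr (nat_lit 340282366920938463463374607431768211456) (nat_lit 87112285931760246646623899502532662132736) (nat_lit 16) (nat_lit 0)) .nil)))) .nil)))),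
 (.br (nat_lit 7) (nat_lit 0) (.cons (.ev (nat_lit 618974797493801895621296129) (nat_lit 2)) (.cons (.ev (nat_lit 1240362705958002790714310661) (nat_lit 3)) (.cons (.ev (nat_lit 618974797493801895587742209) (nat_lit 2)) (.cons (.br (nat_lit 10) (nat_lit 0) (.cons (.ev (nat_lit 621392612095427827032129539) (nat_lit 2)) (.cons (.ev (nat_lit 621392612095427827065684483) (nat_lit 2)) (.cons (.ev (nat_lit 620193112778770591193759744) (nat_lit 2)) (.cons (.br (nat_lit 5) (nat_lit 0) (.cons (.br (nat_lit 12) (nat_lit 0) (.cons (.ev (nat_lit 79228162532783421840091578368) (nat_lit 1)) (.cons (.ev (nat_lit 79229376180897180269896859648) (nat_lit 1)) (.cons (.br (nat_lit 13) (nat_lit 0) (.cons (.rf (nat_lit 584) (nat_lit 583706118939841765935136)) (.cons (.rf (nat_lit 585) (nat_lit 583706118939841765935136)) (.cons (.br (nat_lit 13) (nat_lit 0) (.cons (.rf (nat_lit 584) (nat_lit 583706118939841765935136)) (.cons (.rf (nat_lit 585) (nat_lit 583706118939841765935136)) (.cons (.br (nat_lit 14) (nat_lit 0) (.cons (.rf (nat_lit 587) (nat_lit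 677582165103132179601393696)) (.cons (.rf (nat_lit 588) (nat_lit 677582165103132179601393696)) (.cons (.rf (nat_lit 588) (nat_lit 640105464695078675185502240)) .nil)))) .nil)))) .nil)))) .nil)))) (.cons (.br (nat_lit 12) (nat_lit 0) (.cons (.rf (nat_lit 590) (nat_lit 17022140995484340291616)) (.cons (.rf (nat_lit 593) (nat_lit 17022140995484340291616)) (.cons (.br (nat_lit 12) (nat_lit 0) (.cons (.rf (nat_lit 590) (nat_lit 17022140995484340291616)) (.cons (.rf (nat_lit 593) (nat_lit 17022140995484340291616)) (.cons (.br (nat_lit 13) (nat_lit 0) (.cons (.br (nat_lit 14) (nat_lit 0) (.cons (.rf (nat_lit 594) (nat_lit 19926519232773908561233952)) (.cons (.rf (nat_lit 594) (nat_lit 18755372345022236548237344)) (.cons (.br (nat_lit 15) (nat_lit 0) (.cons (.br (nat_lit 15) (nat_lit 0) (.cons (.ev (nat_lit 2668881308562438473891824013175554051) (nat_lit 2)) .nil)) (.cons (.br (nat_lit 15) (nat_lit 0) (.cons (.ev (nat_lit 2668881308562438473891824013175554051) (nat_lit 2)) .nil)) .nil))) .nil)))) (.cons (.rf (nat_lit 596) (nat_lit 19926519232773908561233952))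 (.cons (.rf (nat_lit 596) (nat_lit 18755372345022236548237344)) (.cons (.br (nat_lit 14) (nat_lit 0) (.cons (.rf (nat_lit 598) (nat_lit 677582165103132179601393696)) (.cons (.rf (nat_lit 598) (nat_lit 676411018215380507588397088)) (.cons (.br (nat_lit 14) (nat_lit 0) (.cons (.rf (nat_lit 598) (nat_lit 677582165103132179601393696)) (.cons (.rf (nat_lit 598) (nat_lit 676411018215380507588397088)) .nil))) .nil)))) .nil))))) .nil)))) .nil)))) (.cons (.br (nat_lit 12) (nat_lit 0) (.cons (.rf (nat_lit 599) (nat_lit 17022140995484340291616)) (.cons (.rf (nat_lit 602) (nat_lit 17022140995484340291616)) (.cons (.br (nat_lit 12) (nat_lit 0) (.cons (.rf (nat_lit 599) (nat_lit 17022140995484340291616)) (.cons (.rf (nat_lit 602) (nat_lit 17022140995484340291616)) (.cons (.br (nat_lit 13) (nat_lit 0) (.cons (.rf (nat_lit 604) (nat_lit 19926519232773908561233952)) (.cons (.rf (nat_lit 605) (nat_lit 19926519232773908561233952)) (.cons (.rf (nat_lit 605) (nat_lit 18755372345022236548237344)) (.cons (.br (nat_lit 13) (nat_lit 0) (.cons (.rf (nat_lit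 604) (nat_lit 19926519232773908561233952)) (.cons (.rf (nat_lit 605) (nat_lit 19926519232773908561233952)) (.cons (.rf (nat_lit 605) (nat_lit 18755372345022236548237344)) .nil)))) .nil))))) .nil)))) .nil)))) (.cons (.br (nat_lit 12) (nat_lit 0) (.cons (.rf (nat_lit 611) (nat_lit 583706118939841765935136)) (.cons (.rf (nat_lit 616) (nat_lit 583706118939841765935136)) (.cons (.rf (nat_lit 620) (nat_lit 583706118939841765935136)) (.cons (.br (nat_lit 12) (nat_lit 0) (.cons (.rf (nat_lit 611) (nat_lit 583706118939841765935136)) (.cons (.rf (nat_lit 616) (nat_lit 583706118939841765935136)) (.cons (.rf (nat_lit 620) (nat_lit 583706118939841765935136)) (.cons (.br (nat_lit 13) (nat_lit 0) (.cons (.rf (nat_lit 623) (nat_lit 677582165103132179601393696)) (.cons (.rf (nat_lit 625) (nat_lit 677582165103132179601393696)) (.cons (.rf (nat_lit 626) (nat_lit 677582165103132179601393696)) (.cons (.rf (nat_lit 626) (nat_lit 640105464695078675185502240)) .nil))))) .nil))))) .nil))))) .nil))))) .nil))))) .nil))))),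
 (.br (nat_lit 14) (nat_lit 0) (.cons (.kr (nat_lit 40564819207321787873443188834305) (nat_lit 10384593717074377623543866615398400) (nat_lit 0) (nat_lit 1)) (.cons (.br (nat_lit 15) (nat_lit 0) (.cons (.ev (nat_lit 2668881308562438473891824013175554561) (nat_lit 2)) (.cons (.rf (nat_lit 284) (nat_lit 630975069613623338)) .nil))) .nil))),
 (.br (nat_lit 15) (nat_lit 0) (.cons (.zr (nat_lit 5212658805804892851695583865405441) (nat_lit 1329227995787333780027383740719170304) (nat_lit 8) (nat_lit 11)) .nil)),
 (.br (nat_lit 13) (nat_lit 0) (.cons (.rf (nat_lit 628) (nat_lit 583706118939841765935136)) (.cons (.br (nat_lit 14) (nat_lit 0) (.cons (.rf (nat_lit 628) (nat_lit 582562417319727094305827)) (.cons (.kr (nat_lit 40564819207321787873443188834305) (nat_lit 10384593717074377623543866615398400) (nat_lit 0) (nat_lit 1)) (.cons (.br (nat_lit 15) (nat_lit 0) (.cons (.rf (nat_lit 629) (nat_lit 677582165103132179601393696)) (.cons (.rf (nat_lit 629) (nat_lit 640104320993458560513872931)) .nil))) .nil)))) .nil))),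
 (.br (nat_lit 14) (nat_lit 0) (.cons (.ev (nat_lit 31194662885488919056157765651399681) (nat_lit 3)) (.cons (.br (nat_lit 15) (nat_lit 0) (.cons (.ev (nat_lit 341611594995952755517175594761945415937) (nat_lit 1)) (.cons (.ev (nat_lit 2668881308564856362280426222244725251) (nat_lit 2)) .nil))) .nil))),
 (.br (nat_lit 13) (nat_lit 0) (.cons (.rf (nat_lit 630) (nat_lit 583706118939841765935136)) (.cons (.br (nat_lit 14) (nat_lit 0) (.cons (.br (nat_lit 14) (nat_lit 0) (.cons (.ev (nat_lit 31194662885488919056157765651399681) (nat_lit 3)) (.cons (.rf (nat_lit 284) (nat_lit 631045402894960679)) .nil))) (.cons (.rf (nat_lit 631) (nat_lit 19926519232773908561233952)) (.cons (.br (nat_lit 14) (nat_lit 0) (.cons (.rf (nat_lit 284) (nat_lit 631045402894960679)) (.cons (.rf (nat_lit 631) (nat_lit 19926519232773908561233952)) .nil))) .nil)))) .nil)))]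

theorem c22 : chkAll C T R L22 (nat_lit 613) = true := by decide +kernel

theorem l22 : (nat_lit 613) + L22.length = (nat_lit 633) := by decide +kernel

/-- part of the certificates -/
def L23 : List Prf := [(.br (nat_lit 14) (nat_lit 0) (.cons (.rf (nat_lit 632) (nat_lit 582562417319727094305827)) (.cons (.ev (nat_lit 31194662885488919056157765651399681) (nat_lit 3)) .nil))),
 (.br (nat_lit 14) (nat_lit 0) (.cons (.br (nat_lit 15) (nat_lit 0) (.cons (.ev (nat_lit 5337681171814165508087353017152570369) (nat_lit 3)) (.cons (.rf (nat_lit 43) (nat_lit 631047566511909089)) .nil))) .nil)),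
 (.br (nat_lit 15) (nat_lit 0) (.cons (.ev (nat_lit 2689731627496738153150618478489765377) (nat_lit 3)) .nil)),
 (.br (nat_lit 15) (nat_lit 0) (.cons (.ev (nat_lit 5316993114018440804254926820907941889) (nat_lit 3)) (.cons (.rf (nat_lit 58) (nat_lit 631046434486003947)) .nil))),
 (.br (nat_lit 13) (nat_lit 0) (.cons (.kr (nat_lit 40564819212081047844473138054145) (nat_lit 159077712899954711970036449280) (nat_lit 0) (nat_lit 14)) (.cons (.br (nat_lit 14) (nat_lit 0) (.cons (.kr (nat_lit 10384593717074432964057571293921793) (nat_lit 159077712899954711970002894848) (nat_lit 0) (nat_lit 13)) (.cons (.kr (nat_lit 20282409603651670423947251286272) (nat_lit 5192296858534827628530496345997312) (nat_lit 1) (nat_lit 0)) (.cons (.br (nat_lit 15) (nat_lit 0) (.cons (.br (nat_lit 15) (nat_lit 0) (.cons (.ev (nat_lit 5337762301457415743973426551773463553) (nat_lit 3)) .nil)) (.cons (.br (nat_lit 15) (nat_lit 0) (.cons (.ev (nat_lit 5337762301457415743973426551773463553) (nat_lit 3)) .nil)) .nil))) .nil)))) .nil))),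
 (.br (nat_lit 16) (nat_lit 0) (.cons (.ev (nat_lit 1366446461113451840378515559185784242177) (nat_lit 3)) .nil)),
 (.br (nat_lit 13) (nat_lit 0) (.cons (.kr (nat_lit 40564819212081047844473138054145) (nat_lit 159077712899954711970036449280) (nat_lit 0) (nat_lit 14)) (.cons (.br (nat_lit 15) (nat_lit 0) (.cons (.kr (nat_lit 1329227995784915909797295216289382912) (nat_lit 79538856449977355985009836032) (nat_lit 1) (nat_lit 0)) (.cons (.kr (nat_lit 40564819212025707612239124496385) (nat_lit 2658455991569831764254358198581985280) (nat_lit 0) (nat_lit 1)) (.cons (.br (nat_lit 14) (nat_lit 0) (.cons (.rf (nat_lit 638) (nat_lit 677582165103132179601393696)) (.cons (.br (nat_lit 14) (nat_lit 0) (.cons (.rf (nat_lit 638) (nat_lit 677582165103132179601393696)) .nil)) .nil))) .nil)))) .nil))),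
 (.br (nat_lit 15) (nat_lit 0) (.cons (.kr (nat_lit 10384593717074377623825337297141761) (nat_lit 2658455991569831764254358198565208576) (nat_lit 0) (nat_lit 2)) (.cons (.br (nat_lit 16) (nat_lit 0) (.cons (.ev (nat_lit 1366467149171247565082347985382163088385) (nat_lit 3)) .nil)) .nil))),
 (.br (nat_lit 14) (nat_lit 0) (.cons (.rf (nat_lit 640) (nat_lit 677582165103132179601393696)) (.cons (.rf (nat_lit 640) (nat_lit 640105464695078675185502240)) .nil))),
 (.br (nat_lit 14) (nat_lit 0) (.cons (.rf (nat_lit 641) (nat_lit 677582165103132179601393696)) (.cons (.ev (nat_lit 20850633987626567139944667495531521) (nat_lit 3)) .nil))),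
 (.br (nat_lit 14) (nat_lit 0) (.cons (.br (nat_lit 15) (nat_lit 0) (.cons (.kr (nat_lit 10384593719487507040405439100485633) (nat_lit 2658455991569836486621122543187132928) (nat_lit 0) (nat_lit 2)) (.cons (.rf (nat_lit 43) (nat_lit 631047566478355681)) .nil))) .nil)),
 (.br (nat_lit 15) (nat_lit 0) (.cons (.ev (nat_lit 1344865813749589817606419933781099265) (nat_lit 2)) .nil)),
 (.br (nat_lit 15) (nat_lit 0) (.cons (.kr (nat_lit 40564821625155124192340927840257) (nat_lit 2658455991569836486621122543203909632) (nat_lit 0) (nat_lit 1)) (.cons (.rf (nat_lit 58) (nat_lit 631046434486004970)) .nil))),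
 (.br (nat_lit 14) (nat_lit 0) (.cons (.br (nat_lit 14) (nat_lit 0) (.cons (.ev (nat_lit 5212658497514660196133609670705408) (nat_lit 1)) .nil)) (.cons (.br (nat_lit 14) (nat_lit 0) (.cons (.ev (nat_lit 5212658497514660196133609670705408) (nat_lit 1)) .nil)) .nil))),
 (.br (nat_lit 14) (nat_lit 0) (.cons (.br (nat_lit 14) (nat_lit 0) (.cons (.ev (nat_lit 5212658497514660196133609670705408) (nat_lit 1)) .nil)) (.cons (.br (nat_lit 14) (nat_lit 0) (.cons (.ev (nat_lit 5212658497514660196133609670705408) (nat_lit 1)) .nil)) .nil))),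
 (.br (nat_lit 13) (nat_lit 0) (.cons (.ev (nat_lit 40723277954961216314067568951297) (nat_lit 2)) (.cons (.br (nat_lit 14) (nat_lit 0) (.cons (.ev (nat_lit 10384752175817313132527165758374401) (nat_lit 2)) (.cons (.kr (nat_lit 20282409603651670423947251286272) (nat_lit 5192296858534827628530496345997312) (nat_lit 1) (nat_lit 0)) (.cons (.rf (nat_lit 647) (nat_lit 21174442659472880612509728)) .nil)))) .nil))),
 (.br (nat_lit 14) (nat_lit 0) (.cons (.br (nat_lit 16) (nat_lit 0) (.cons (.zr (nat_lit 1344825248307771531545506258299716352) (nat_lit 88133133032523063245939914997051212955650) (nat_lit 8) (nat_lit 12)) .nil)) .nil)),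
 (.br (nat_lit 13) (nat_lit 0) (.cons (.ev (nat_lit 40723277954961216314067568951297) (nat_lit 2)) (.cons (.br (nat_lit 15) (nat_lit 0) (.cons (.ev (nat_lit 1329228233782515239943120795746894336) (nat_lit 2)) (.cons (.ev (nat_lit 2658496557008013846642826869227913217) (nat_lit 2)) (.cons (.br (nat_lit 14) (nat_lit 0) (.cons (.rf (nat_lit 649) (nat_lit 677582165103132179601393696)) (.cons (.br (nat_lit 14) (nat_lit 0) (.cons (.rf (nat_lit 649) (nat_lit 677582165103132179601393696)) .nil)) .nil))) .nil)))) .nil))),
 (.br (nat_lit 15) (nat_lit 0) (.cons (.ev (nat_lit 2668840585905876198559039967350227457) (nat_lit 2)) (.cons (.br (nat_lit 16) (nat_lit 0) (.cons (.zr (nat_lit 2668921874000615796731246848562561024) (nat_lit 2041694201525635616483814333483459806725) (nat_lit 16) (nat_lit 5)) .nil)) .nil))),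
 (.br (nat_lit 14) (nat_lit 0) (.cons (.rf (nat_lit 651) (nat_lit 677582165103132179601393696)) (.cons (.rf (nat_lit 651) (nat_lit 640105464695078675185502240)) .nil))),
 (.br (nat_lit 14) (nat_lit 0) (.cons (.rf (nat_lit 652) (nat_lit 677582165103132179601393696)) (.cons (.ev (nat_lit 5212658496305716001833600319291648) (nat_lit 1)) .nil))),
 (.br (nat_lit 14) (nat_lit 0) (.cons (.br (nat_lit 15) (nat_lit 0) (.cons (.kr (nat_lit 10384593719487507040405439100485633) (nat_lit 2658455991569836486621122543187132928) (nat_lit 0) (nat_lit 2)) (.cons (.rf (nat_lit 180) (nat_lit 631046501365421121)) .nil))) .nil)),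
 (.br (nat_lit 15) (nat_lit 0) (.cons (.ev (nat_lit 1344865971584512789450818958825554688) (nat_lit 2)) .nil)),
 (.br (nat_lit 13) (nat_lit 0) (.cons (.br (nat_lit 14) (nat_lit 0) (.cons (.ev (nat_lit 5212579577623489192639680831619328) (nat_lit 1)) (.cons (.rf (nat_lit 180) (nat_lit 593855485055276097)) .nil))) .nil)),
 (.br (nat_lit 15) (nat_lit 0) (.cons (.ev (nat_lit 1344865971584512789450818958825554688) (nat_lit 2)) .nil)),
 (.br (nat_lit 15) (nat_lit 0) (.cons (.ev (nat_lit 621392612095427827065683969) (nat_lit 2)) (.cons (.ev (nat_lit 10425159155251756091710782782308867) (nat_lit 2)) (.cons (.ev (nat_lit 680564774407315109027583864653660291587) (nat_lit 2)) (.cons (.br (nat_lit 15) (nat_lit 0) (.cons (.ev (nat_lit 621392612095427827065683969) (nat_lit 2)) (.cons (.ev (nat_lit 10425159155251756091710782782308867) (nat_lit 2)) (.cons (.ev (nat_lit 680564774407315109027583864653660291587) (nat_lit 2)) .nil)))) .nil))))),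
 (.br (nat_lit 15) (nat_lit 0) (.cons (.br (nat_lit 16) (nat_lit 0) (.cons (.zr (nat_lit 5327337300751259110218326374952861696) (nat_lit 2041694201525635616539154565717490139137) (nat_lit 16) (nat_lit 11)) .nil)) .nil)),
 (.br (nat_lit 13) (nat_lit 0) (.cons (.br (nat_lit 14) (nat_lit 0) (.cons (.kr (nat_lit 40564819212025707612239124496385) (nat_lit 2658455991569831764254358198581985280) (nat_lit 0) (nat_lit 1)) (.cons (.br (nat_lit 15) (nat_lit 0) (.cons (.ev (nat_lit 2668881308562438473891824013175554561) (nat_lit 2)) (.cons (.rf (nat_lit 284) (nat_lit 630975069611591722)) .nil))) .nil))) (.cons (.br (nat_lit 14) (nat_lit 0) (.cons (.br (nat_lit 15) (nat_lit 0) (.cons (.ev (nat_lit 5327540127340082054634380527208105477) (nat_lit 4)) (.cons (.rf (nat_lit 284) (nat_lit 631010252915181605)) .nil))) (.cons (.rf (nat_lit 658) (nat_lit 19926519232773908561233952)) (.cons (.br (nat_lit 15) (nat_lit 0) (.cons (.rf (nat_lit 659) (nat_lit 677582165103132179601393696)) (.cons (.br (nat_lit 15) (nat_lit 0) (.cons (.rf (nat_lit 659) (nat_lit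 677582165103132179601393696)) .nil)) .nil))) .nil)))) .nil))),
 (.br (nat_lit 14) (nat_lit 0) (.cons (.br (nat_lit 16) (nat_lit 0) (.cons (.ev (nat_lit 340287559297025165527706298564124672257) (nat_lit 1)) .nil)) .nil)),
 (.br (nat_lit 13) (nat_lit 0) (.cons (.rf (nat_lit 660) (nat_lit 583706118939841765935136)) (.cons (.br (nat_lit 15) (nat_lit 0) (.cons (.br (nat_lit 14) (nat_lit 0) (.cons (.ev (nat_lit 5212658497514660196416184159109120) (nat_lit 1)) (.cons (.rf (nat_lit 284) (nat_lit 631045402895026213)) .nil))) (.cons (.kr (nat_lit 40564819212025707612239124496385) (nat_lit 2658455991569831764254358198581985280) (nat_lit 0) (nat_lit 1)) (.cons (.br (nat_lit 14) (nat_lit 0) (.cons (.rf (nat_lit 661) (nat_lit 677582165103132179601393696)) (.cons (.br (nat_lit 14) (nat_lit 0) (.cons (.rf (nat_lit 661) (nat_lit 677582165103132179601393696)) .nil)) .nil))) .nil)))) .nil))),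
 (.br (nat_lit 14) (nat_lit 0) (.cons (.br (nat_lit 15) (nat_lit 0) (.cons (.ev (nat_lit 340287559297025165527706298564124672257) (nat_lit 1)) (.cons (.ev (nat_lit 2668881308562438473891824013175554561) (nat_lit 2)) .nil))) (.cons (.ev (nat_lit 5212658497514660196416184159109120) (nat_lit 1)) .nil))),
 (.br (nat_lit 14) (nat_lit 0) (.cons (.br (nat_lit 15) (nat_lit 0) (.cons (.kr (nat_lit 10384593719487507040405439100485633) (nat_lit 2658455991569836486621122543187132928) (nat_lit 0) (nat_lit 2)) (.cons (.rf (nat_lit 43) (nat_lit 631047566377692481)) .nil))) .nil)),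
 (.br (nat_lit 15) (nat_lit 0) (.cons (.ev (nat_lit 1344865813747172003004794019483026179) (nat_lit 2)) .nil)),
 (.br (nat_lit 14) (nat_lit 0) (.cons (.br (nat_lit 15) (nat_lit 0) (.cons (.kr (nat_lit 10384593719487507040405439100485633) (nat_lit 2658455991569836486621122543187132928) (nat_lit 0) (nat_lit 2)) (.cons (.rf (nat_lit 180) (nat_lit 631046501362373697)) .nil))) .nil)),
 (.br (nat_lit 15) (nat_lit 0) (.cons (.ev (nat_lit 1344865971586930677839421167894725378) (nat_lit 2)) .nil)),
 (.br (nat_lit 14) (nat_lit 0) (.cons (.br (nat_lit 15) (nat_lit 0) (.cons (.kr (nat_lit 2658455991569836468174378465199390721) (nat_lit 10384593717069673703805070662959616) (nat_lit 0) (nat_lit 2)) (.cons (.rf (nat_lit 180) (nat_lit 631045402919240933)) .nil))) .nil)),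
 (.br (nat_lit 15) (nat_lit 0) (.cons (.ev (nat_lit 1344865971583303882005890813600661763) (nat_lit 2)) .nil)),
 (.br (nat_lit 14) (nat_lit 0) (.cons (.br (nat_lit 15) (nat_lit 0) (.cons (.ev (nat_lit 2668881308562438473891824013175554561) (nat_lit 2)) (.cons (.rf (nat_lit 239) (nat_lit 631047566382935201)) .nil))) .nil)),
 (.br (nat_lit 15) (nat_lit 0) (.cons (.ev (nat_lit 1344825406767737560045047443915735299) (nat_lit 2)) .nil))]

theorem c23 : chkAll C T R L23 (nat_lit 633) = true := by decide +kernel

theorem l23 : (nat_lit 633) + L23.length = (nat_lit 672) := by decide +kernel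

/-- part of the certificates -/
def L24 : List Prf := [(.br (nat_lit 15) (nat_lit 0) (.cons (.ev (nat_lit 1329248357423895705471692748110233600) (nat_lit 1)) (.cons (.rf (nat_lit 167) (nat_lit 631047532929451237)) .nil))),
 (.br (nat_lit 14) (nat_lit 0) (.cons (.br (nat_lit 15) (nat_lit 0) (.cons (.ev (nat_lit 340282387203657556847233141891894673408) (nat_lit 1)) .nil)) .nil)),
 (.br (nat_lit 14) (nat_lit 0) (.cons (.rf (nat_lit 673) (nat_lit 19926519232773908561233952)) (.cons (.br (nat_lit 14) (nat_lit 0) (.cons (.rf (nat_lit 673) (nat_lit 19926519232773908561233952)) .nil)) .nil))),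
 (.br (nat_lit 14) (nat_lit 0) (.cons (.br (nat_lit 16) (nat_lit 0) (.cons (.zr (nat_lit 87113615180117978832562026474680461885440) (nat_lit 340287559217800625105571642753744371968) (nat_lit 8) (nat_lit 11)) .nil)) .nil)),
 (.br (nat_lit 14) (nat_lit 0) (.cons (.br (nat_lit 15) (nat_lit 0) (.cons (.kr (nat_lit 680564733841876931649115979208175124481) (nat_lit 10384593717069673703805070662959616) (nat_lit 0) (nat_lit 2)) (.cons (.br (nat_lit 16) (nat_lit 0) (.cons (.ev (nat_lit 1366456764420926244717607727001845760003) (nat_lit 3)) .nil)) .nil))) (.cons (.br (nat_lit 17) (nat_lit 0) (.cons (.ev (nat_lit 174227240744671220794564300518841441583107) (nat_lit 2)) (.cons (.ev (nat_lit 87112291124136334557632425213298871435265) (nat_lit 1)) .nil))) .nil))),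
 (.br (nat_lit 14) (nat_lit 0) (.cons (.rf (nat_lit 676) (nat_lit 677582165103132179601393696)) (.cons (.br (nat_lit 17) (nat_lit 0) (.cons (.ev (nat_lit 87112291124136334552891612267826215190528) (nat_lit 1)) (.cons (.kr (nat_lit 680564733841876931649115979208175124481) (nat_lit 10384593717069673703805070662959616) (nat_lit 0) (nat_lit 2)) .nil))) .nil))),
 (.br (nat_lit 15) (nat_lit 0) (.cons (.kr (nat_lit 40564821625155124192340927840257) (nat_lit 2658455991569836486621122543203909632) (nat_lit 0) (nat_lit 1)) (.cons (.rf (nat_lit 58) (nat_lit 631046434486005063)) .nil))),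
 (.br (nat_lit 15) (nat_lit 0) (.cons (.br (nat_lit 16) (nat_lit 0) (.cons (.zr (nat_lit 3992896646160533622096059386201965312) (nat_lit 88133133032523063245939914997051212955650) (nat_lit 8) (nat_lit 12)) .nil)) .nil)),
 (.br (nat_lit 13) (nat_lit 0) (.cons (.ev (nat_lit 40723275537072827711841319911427) (nat_lit 2)) (.cons (.br (nat_lit 14) (nat_lit 0) (.cons (.ev (nat_lit 5192534853716306279242005479621122) (nat_lit 2)) (.cons (.ev (nat_lit 10425159157669570693899655556628483) (nat_lit 2)) (.cons (.br (nat_lit 15) (nat_lit 0) (.cons (.rf (nat_lit 679) (nat_lit 677582165103132179601393696)) (.cons (.br (nat_lit 15) (nat_lit 0) (.cons (.rf (nat_lit 679) (nat_lit 677582165103132179601393696)) .nil)) .nil))) .nil)))) .nil))),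
 (.br (nat_lit 13) (nat_lit 0) (.cons (.ev (nat_lit 40723275537072827711841319911427) (nat_lit 2)) (.cons (.br (nat_lit 15) (nat_lit 0) (.cons (.ev (nat_lit 2658456150026161515294478067344474627) (nat_lit 2)) (.cons (.kr (nat_lit 20282409603651670423947251286272) (nat_lit 1329227995784915872903807060297121792) (nat_lit 1) (nat_lit 0)) (.cons (.rf (nat_lit 647) (nat_lit 21173298961231324852095008)) .nil)))) .nil))),
 (.br (nat_lit 16) (nat_lit 0) (.cons (.ev (nat_lit 2668840585908294013160665881648300547) (nat_lit 2)) (.cons (.kr (nat_lit 40564821625155124192340927840257) (nat_lit 680564733841876931667562723286179643392) (nat_lit 0) (nat_lit 1)) .nil))),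
 (.br (nat_lit 14) (nat_lit 0) (.cons (.rf (nat_lit 682) (nat_lit 677582165103132179601393696)) (.cons (.rf (nat_lit 682) (nat_lit 640105464695078675185502240)) .nil))),
 (.br (nat_lit 14) (nat_lit 0) (.cons (.rf (nat_lit 683) (nat_lit 677582165103132179601393696)) (.cons (.rf (nat_lit 499) (nat_lit 18355028732470326499653)) .nil))),
 (.br (nat_lit 14) (nat_lit 0) (.cons (.ev (nat_lit 5212658497509919455245735330578688) (nat_lit 1)) (.cons (.rf (nat_lit 284) (nat_lit 593819236602021925)) .nil))),
 (.br (nat_lit 15) (nat_lit 0) (.cons (.ev (nat_lit 620193112778770591193760258) (nat_lit 2)) (.cons (.ev (nat_lit 10425159157669570693336714193142273) (nat_lit 2)) (.cons (.ev (nat_lit 680564774407317526842185490585071124993) (nat_lit 2)) (.cons (.br (nat_lit 15) (nat_lit 0) (.cons (.ev (nat_lit 620193112778770591193760258) (nat_lit 2)) (.cons (.ev (nat_lit 10425159157669570693336714193142273) (nat_lit 2)) (.cons (.ev (nat_lit 680564774407317526842185490585071124993) (nat_lit 2)) .nil)))) .nil))))),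
 (.br (nat_lit 14) (nat_lit 0) (.cons (.rf (nat_lit 182) (nat_lit 18755336599881698378876960)) (.cons (.br (nat_lit 14) (nat_lit 0) (.cons (.ev (nat_lit 5212658497514660196133609670705408) (nat_lit 1)) .nil)) .nil))),
 (.br (nat_lit 13) (nat_lit 0) (.cons (.br (nat_lit 14) (nat_lit 0) (.cons (.kr (nat_lit 10384593717069673704086541344702465) (nat_lit 2658455991569836468174096994517647360) (nat_lit 0) (nat_lit 1)) (.cons (.br (nat_lit 15) (nat_lit 0) (.cons (.ev (nat_lit 7985752569666927598637906145054819329) (nat_lit 3)) (.cons (.rf (nat_lit 284) (nat_lit 630975069578168359)) .nil))) .nil))) (.cons (.br (nat_lit 14) (nat_lit 0) (.cons (.rf (nat_lit 685) (nat_lit 622703726024149174421536)) (.cons (.rf (nat_lit 686) (nat_lit 19926519232773908561233952)) (.cons (.rf (nat_lit 687) (nat_lit 21174442659472880612509728)) .nil)))) .nil))),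
 (.br (nat_lit 13) (nat_lit 0) (.cons (.rf (nat_lit 688) (nat_lit 583706118939841765935136)) (.cons (.br (nat_lit 15) (nat_lit 0) (.cons (.rf (nat_lit 685) (nat_lit 621560027782833835706400)) (.cons (.br (nat_lit 14) (nat_lit 0) (.cons (.ev (nat_lit 680564774407315109027583864653660291587) (nat_lit 2)) (.cons (.br (nat_lit 14) (nat_lit 0) (.cons (.ev (nat_lit 680564774407315109027583864653660291587) (nat_lit 2)) .nil)) .nil))) (.cons (.rf (nat_lit 687) (nat_lit 21173298961231324852095008)) .nil)))) .nil))),
 (.br (nat_lit 16) (nat_lit 0) (.cons (.br (nat_lit 14) (nat_lit 0) (.cons (.kr (nat_lit 10384593717069673704086541344702465) (nat_lit 2658455991569836468174096994517647360) (nat_lit 0) (nat_lit 1)) (.cons (.br (nat_lit 15) (nat_lit 0) (.cons (.ev (nat_lit 7985752569666927598637906145054819329) (nat_lit 3)) .nil)) .nil))) (.cons (.ev (nat_lit 680564774407315109027583864653660291587) (nat_lit 2)) .nil))),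
 (.br (nat_lit 14) (nat_lit 0) (.cons (.br (nat_lit 15) (nat_lit 0) (.cons (.kr (nat_lit 10384593717069673704086541344702465) (nat_lit 2658455991569836468174096994517647360) (nat_lit 0) (nat_lit 1)) (.cons (.rf (nat_lit 239) (nat_lit 631047566517148833)) .nil))) .nil)),
 (.br (nat_lit 15) (nat_lit 0) (.cons (.ev (nat_lit 2689690903604653653422873423871214593) (nat_lit 3)) .nil)),
 (.br (nat_lit 14) (nat_lit 0) (.cons (.br (nat_lit 15) (nat_lit 0) (.cons (.ev (nat_lit 1334420371872826881429799297171390720) (nat_lit 1)) (.cons (.rf (nat_lit 180) (nat_lit 631046501232350273)) .nil))) .nil)),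
 (.br (nat_lit 15) (nat_lit 0) (.cons (.ev (nat_lit 1344865971586930677839421167894725378) (nat_lit 2)) .nil)),
 (.br (nat_lit 16) (nat_lit 0) (.cons (.ev (nat_lit 680575159158871951543222026965220459011) (nat_lit 2)) .nil)),
 (.br (nat_lit 14) (nat_lit 0) (.cons (.br (nat_lit 16) (nat_lit 0) (.cons (.zr (nat_lit 174224592673431821958521659727141767610880) (nat_lit 7975367974716748811219619787602657281) (nat_lit 16) (nat_lit 11)) .nil)) .nil)),
 (.br (nat_lit 14) (nat_lit 0) (.cons (.ev (nat_lit 680575159158871951543222026965220459011) (nat_lit 2)) (.cons (.br (nat_lit 16) (nat_lit 0) (.cons (.kr (nat_lit 40564821625155124192340927840257) (nat_lit 2658455991569836486621122543203909632) (nat_lit 0) (nat_lit 1)) (.cons (.ev (nat_lit 680575159158869533654833424756151288321) (nat_lit 2)) .nil))) .nil))),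
 (.br (nat_lit 15) (nat_lit 0) (.cons (.kr (nat_lit 40564821625155124192340927840257) (nat_lit 2658455991569836486621122543203909632) (nat_lit 0) (nat_lit 1)) (.cons (.br (nat_lit 17) (nat_lit 0) (.cons (.ev (nat_lit 87112285952121884412808353348320004997377) (nat_lit 1)) (.cons (.ev (nat_lit 87112285952121885621715654161277120479488) (nat_lit 1)) .nil))) .nil))),
 (.br (nat_lit 14) (nat_lit 0) (.cons (.rf (nat_lit 698) (nat_lit 677582165103132179601393696)) (.cons (.br (nat_lit 17) (nat_lit 0) (.cons (.ev (nat_lit 87112285952121884412808353348320004997377) (nat_lit 1)) (.cons (.kr (nat_lit 10384593717069673704086541344702465) (nat_lit 680564733841876931649115697737493381120) (nat_lit 0) (nat_lit 1)) .nil))) .nil))),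
 (.br (nat_lit 15) (nat_lit 0) (.cons (.ev (nat_lit 618974797493801895587741699) (nat_lit 2)) (.cons (.ev (nat_lit 10425159157669570693336714193142273) (nat_lit 2)) (.cons (.ev (nat_lit 680564774407317526842185490585071124993) (nat_lit 2)) (.cons (.br (nat_lit 15) (nat_lit 0) (.cons (.ev (nat_lit 618974797493801895587741699) (nat_lit 2)) (.cons (.ev (nat_lit 10425159157669570693336714193142273) (nat_lit 2)) (.cons (.ev (nat_lit 680564774407317526842185490585071124993) (nat_lit 2)) .nil)))) .nil))))),
 (.br (nat_lit 15) (nat_lit 0) (.cons (.br (nat_lit 16) (nat_lit 0) (.cons (.zr (nat_lit 5327337300751259110218326374952861696) (nat_lit 2041694201525635616539154565717490139137) (nat_lit 16) (nat_lit 11)) .nil)) .nil)),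
 (.br (nat_lit 13) (nat_lit 0) (.cons (.br (nat_lit 14) (nat_lit 0) (.cons (.kr (nat_lit 40564819212025707612239124496385) (nat_lit 2658455991569831764254358198581985280) (nat_lit 0) (nat_lit 1)) (.cons (.br (nat_lit 15) (nat_lit 0) (.cons (.ev (nat_lit 2668881308564856362280426222244725251) (nat_lit 2)) (.cons (.rf (nat_lit 284) (nat_lit 630975069611690023)) .nil))) .nil))) (.cons (.br (nat_lit 14) (nat_lit 0) (.cons (.br (nat_lit 15) (nat_lit 0) (.cons (.ev (nat_lit 5327540127330410501079971690931422733) (nat_lit 4)) (.cons (.rf (nat_lit 284) (nat_lit 631010252912134181)) .nil))) (.cons (.rf (nat_lit 700) (nat_lit 19926519232773908561233952)) (.cons (.br (nat_lit 15) (nat_lit 0) (.cons (.rf (nat_lit 701) (nat_lit 677582165103132179601393696)) (.cons (.br (nat_lit 15) (nat_lit 0) (.cons (.rf (nat_lit 701) (nat_lit 677582165103132179601393696)) .nil)) .nil))) .nil)))) .nil))),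
 (.br (nat_lit 14) (nat_lit 0) (.cons (.ev (nat_lit 5212658496305716002115079590969345) (nat_lit 1)) (.cons (.rf (nat_lit 284) (nat_lit 631045402794461221)) .nil))),
 (.br (nat_lit 14) (nat_lit 0) (.cons (.br (nat_lit 16) (nat_lit 0) (.cons (.ev (nat_lit 340287559297026374471900599668659257600) (nat_lit 1)) .nil)) .nil)),
 (.br (nat_lit 13) (nat_lit 0) (.cons (.rf (nat_lit 702) (nat_lit 583706118939841765935136)) (.cons (.br (nat_lit 15) (nat_lit 0) (.cons (.rf (nat_lit 703) (nat_lit 19926519232773908561233952)) (.cons (.kr (nat_lit 40564819212025707612239124496385) (nat_lit 2658455991569831764254358198581985280) (nat_lit 0) (nat_lit 1)) (.cons (.br (nat_lit 14) (nat_lit 0) (.cons (.rf (nat_lit 704) (nat_lit 677582165103132179601393696)) (.cons (.br (nat_lit 14) (nat_lit 0) (.cons (.rf (nat_lit 704) (nat_lit 677582165103132179601393696)) .nil)) .nil))) .nil)))) .nil))),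
 (.br (nat_lit 14) (nat_lit 0) (.cons (.br (nat_lit 15) (nat_lit 0) (.cons (.ev (nat_lit 340287559297026374471900599668659257600) (nat_lit 1)) (.cons (.ev (nat_lit 2668881308564856362280426222244725251) (nat_lit 2)) .nil))) (.cons (.ev (nat_lit 5212658496305716002115079590969345) (nat_lit 1)) .nil))),
 (.br (nat_lit 14) (nat_lit 0) (.cons (.br (nat_lit 15) (nat_lit 0) (.cons (.ev (nat_lit 2668881308564856362280426222244725251) (nat_lit 2)) (.cons (.rf (nat_lit 239) (nat_lit 631047566484642977)) .nil))) .nil)),
 (.br (nat_lit 15) (nat_lit 0) (.cons (.ev (nat_lit 1344865813749589817606419933781099265) (nat_lit 2)) .nil))]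

theorem c24 : chkAll C T R L24 (nat_lit 672) = true := by decide +kernel

theorem l24 : (nat_lit 672) + L24.length = (nat_lit 709) := by decide +kernel

/-- part of the certificates -/
def L25 : List Prf := [(.br (nat_lit 15) (nat_lit 0) (.cons (.br (nat_lit 16) (nat_lit 0) (.cons (.zr (nat_lit 87112291144419052451516751198116510760960) (nat_lit 341611594916727006150846919317695496448) (nat_lit 8) (nat_lit 11)) .nil)) .nil)),
 (.br (nat_lit 13) (nat_lit 0) (.cons (.br (nat_lit 15) (nat_lit 0) (.cons (.ev (nat_lit 340287559218106483319271509645036945408) (nat_lit 1)) .nil)) .nil)),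
 (.br (nat_lit 13) (nat_lit 0) (.cons (.rf (nat_lit 710) (nat_lit 19926519232773908561233952)) (.cons (.br (nat_lit 13) (nat_lit 0) (.cons (.rf (nat_lit 710) (nat_lit 19926519232773908561233952)) .nil)) .nil))),
 (.br (nat_lit 14) (nat_lit 0) (.cons (.ev (nat_lit 680564734000333256696236078810320208387) (nat_lit 2)) (.cons (.br (nat_lit 16) (nat_lit 0) (.cons (.ev (nat_lit 2658537281523904069726317950626038787) (nat_lit 3)) (.cons (.ev (nat_lit 340287579500516086952567246013104914688) (nat_lit 1)) .nil))) .nil))),
 (.br (nat_lit 14) (nat_lit 0) (.cons (.br (nat_lit 16) (nat_lit 0) (.cons (.kr (nat_lit 680564733841876931649115979208175124481) (nat_lit 2658455991569831764254358198565208576) (nat_lit 0) (nat_lit 2)) (.cons (.ev (nat_lit 340287579500517295896761547126229434625) (nat_lit 1)) .nil))) (.cons (.br (nat_lit 15) (nat_lit 0) (.cons (.br (nat_lit 16) (nat_lit 0) (.cons (.ev (nat_lit 1369125605321887856210231352924406415367) (nat_lit 3)) .nil)) (.cons (.ev (nat_lit 174227240744671218376749698892927210618881) (nat_lit 2))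 .nil))) .nil))),
 (.br (nat_lit 13) (nat_lit 0) (.cons (.br (nat_lit 15) (nat_lit 0) (.cons (.kr (nat_lit 40564819212025707612239124496385) (nat_lit 2658455991569831764254358198581985280) (nat_lit 0) (nat_lit 1)) (.cons (.rf (nat_lit 239) (nat_lit 631046501332751585)) .nil))) .nil)),
 (.br (nat_lit 15) (nat_lit 0) (.cons (.ev (nat_lit 1334481220031297069357956642587607299) (nat_lit 2)) .nil)),
 (.br (nat_lit 15) (nat_lit 0) (.cons (.ev (nat_lit 2668840585905876198559039967350227457) (nat_lit 2)) (.cons (.ev (nat_lit 2668881308562438473891824013175554561) (nat_lit 2)) .nil))),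
 (.br (nat_lit 15) (nat_lit 0) (.cons (.br (nat_lit 16) (nat_lit 0) (.cons (.zr (nat_lit 1020852313421621176393508460500665565952) (nat_lit 261338187023276526064670493986881512931330) (nat_lit 8) (nat_lit 12)) .nil)) .nil)),
 (.br (nat_lit 13) (nat_lit 0) (.cons (.br (nat_lit 15) (nat_lit 0) (.cons (.zr (nat_lit 31234910789647184285293145271305728) (nat_lit 174905136597521447933092950520397503266819) (nat_lit 16) (nat_lit 7)) .nil)) .nil)),
 (.br (nat_lit 17) (nat_lit 0) (.cons (.kr (nat_lit 40564820416229232520117715206145) (nat_lit 174224571863520493293266245749143345561600) (nat_lit 0) (nat_lit 1)) (.cons (.ev (nat_lit 174224582248272667896876067274941993713665) (nat_lit 2)) .nil))),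
 (.br (nat_lit 15) (nat_lit 0) (.cons (.ev (nat_lit 1329248357423890964730522299281703168) (nat_lit 1)) (.cons (.rf (nat_lit 214) (nat_lit 592765834538294337)) .nil))),
 (.br (nat_lit 14) (nat_lit 0) (.cons (.br (nat_lit 16) (nat_lit 0) (.cons (.zr (nat_lit 174224592673431821939687532901988854530048) (nat_lit 7975367974716748792772875700957873669) (nat_lit 16) (nat_lit 5)) .nil)) .nil)),
 (.br (nat_lit 14) (nat_lit 0) (.cons (.ev (nat_lit 340287579500517295896761547126229434625) (nat_lit 1)) (.cons (.br (nat_lit 16) (nat_lit 0) (.cons (.ev (nat_lit 1363787924151314053408100876780881445891) (nat_lit 3)) (.cons (.ev (nat_lit 340287579500516091693380191485761159425) (nat_lit 1)) .nil))) .nil))),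
 (.br (nat_lit 16) (nat_lit 0) (.cons (.ev (nat_lit 88137136313921397174245940910012816883968) (nat_lit 2)) .nil)),
 (.br (nat_lit 14) (nat_lit 0) (.cons (.br (nat_lit 15) (nat_lit 0) (.cons (.kr (nat_lit 10384593717069673704086541344702465) (nat_lit 680564733841876931649115697737493381120) (nat_lit 0) (nat_lit 1)) (.cons (.rf (nat_lit 723) (nat_lit 677582165103132179601393696)) .nil))) (.cons (.br (nat_lit 15) (nat_lit 0) (.cons (.ev (nat_lit 7996218452097706871854542294337323015) (nat_lit 3)) (.cons (.ev (nat_lit 174224571904085931475348633654855448134147) (nat_lit 2)) .nil))) .nil))),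
 (.br (nat_lit 17) (nat_lit 0) (.cons (.ev (nat_lit 174224571904085931475348633654855448134147) (nat_lit 2)) (.cons (.kr (nat_lit 20282410812577562096170463920129) (nat_lit 87112285931760246646642346246610666651904) (nat_lit 0) (nat_lit 2)) .nil))),
 (.br (nat_lit 15) (nat_lit 0) (.cons (.br (nat_lit 15) (nat_lit 0) (.cons (.ev (nat_lit 1329248357423895705471410173621829888) (nat_lit 1)) .nil)) (.cons (.rf (nat_lit 217) (nat_lit 19889885147425248787925024)) .nil))),
 (.br (nat_lit 13) (nat_lit 0) (.cons (.br (nat_lit 15) (nat_lit 0) (.cons (.ev (nat_lit 7996137638134002356732923197333569543) (nat_lit 3)) (.cons (.rf (nat_lit 214) (nat_lit 631046501231334465)) .nil))) (.cons (.ev (nat_lit 40723277954961216314067568951297) (nat_lit 2)) (.cons (.rf (nat_lit 726) (nat_lit 21174442659472880612509728)) .nil)))),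
 (.br (nat_lit 13) (nat_lit 0) (.cons (.rf (nat_lit 727) (nat_lit 19926519232773908561233952)) (.cons (.br (nat_lit 14) (nat_lit 0) (.cons (.ev (nat_lit 7996137322456874450282990214815285253) (nat_lit 3)) (.cons (.ev (nat_lit 340287579500517295896761547126229434625) (nat_lit 1)) (.cons (.br (nat_lit 16) (nat_lit 0) (.cons (.kr (nat_lit 40564819212025707612239124496385) (nat_lit 2658455991569831764254358198581985280) (nat_lit 0) (nat_lit 1)) (.cons (.ev (nat_lit 340287559297026374471900599668659257600) (nat_lit 1)) .nil))) .nil)))) (.cons (.br (nat_lit 15) (nat_lit 0) (.cons (.ev (nat_lit 7996137322456874450282990214815285253) (nat_lit 3)) (.cons (.br (nat_lit 16) (nat_lit 0) (.cons (.ev (nat_lit 1363787924151314053408100876780881445891) (nat_lit 3)) (.cons (.ev (nat_lit 1363788004965277757923224747677698884611) (nat_lit 3)) .nil))) (.cons (.kr (nat_lit 40564819212025707612239124496385) (nat_lit 2658455991569831764254358198581985280) (nat_lit 0) (nat_lit 1)) .nil)))) .nil)))),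
 (.br (nat_lit 13) (nat_lit 0) (.cons (.ev (nat_lit 40723277954961216314067568951297) (nat_lit 2)) (.cons (.rf (nat_lit 728) (nat_lit 19926519232773908561233952)) (.cons (.br (nat_lit 14) (nat_lit 0) (.cons (.br (nat_lit 16) (nat_lit 0) (.cons (.ev (nat_lit 340287559297026374471900599668659257600) (nat_lit 1)) (.cons (.ev (nat_lit 340287579500516091693380191485761159425) (nat_lit 1)) .nil))) (.cons (.ev (nat_lit 340287559297025160823786278288900555008) (nat_lit 1)) (.cons (.br (nat_lit 16) (nat_lit 0) (.cons (.ev (nat_lit 340287579500516091693380191485761159425) (nat_lit 1)) (.cons (.ev (nat_lit 340287559297026374471900599668659257600) (nat_lit 1)) .nil))) .nil)))) .nil)))),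
 (.br (nat_lit 14) (nat_lit 0) (.cons (.br (nat_lit 16) (nat_lit 0) (.cons (.zr (nat_lit 174227251088858572559481419317232204382215) (nat_lit 121694464889632472307106746205696) (nat_lit 16) (nat_lit 2)) .nil)) .nil)),
 (.br (nat_lit 13) (nat_lit 0) (.cons (.br (nat_lit 14) (nat_lit 0) (.cons (.kr (nat_lit 10384593717069673704086541344702465) (nat_lit 680564733841876931649115697737493381120) (nat_lit 0) (nat_lit 1)) (.cons (.br (nat_lit 16) (nat_lit 0) (.cons (.zr (nat_lit 5317033677597285530764980470744612864) (nat_lit 680575118594674132056111096617228173315) (nat_lit 16) (nat_lit 5)) .nil)) .nil))) (.cons (.ev (nat_lit 1329248357422686761277110164270416128) (nat_lit 1)) .nil))),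
 (.br (nat_lit 13) (nat_lit 0) (.cons (.br (nat_lit 14) (nat_lit 0) (.cons (.kr (nat_lit 40564819212025707612239124496385) (nat_lit 2658455991569831764254358198581985280) (nat_lit 0) (nat_lit 1)) (.cons (.ev (nat_lit 340287559297026374471900599668659257600) (nat_lit 1)) (.cons (.br (nat_lit 16) (nat_lit 0) (.cons (.ev (nat_lit 1363787924151316471222414272353387544581) (nat_lit 3)) (.cons (.ev (nat_lit 340287579500517300600681004442910195968) (nat_lit 1)) .nil))) .nil)))) (.cons (.ev (nat_lit 40723275537072827711841319911427) (nat_lit 2)) (.cons (.br (nat_lit 14) (nat_lit 0) (.cons (.br (nat_lit 16) (nat_lit 0) (.cons (.ev (nat_lit 340287559297025165527706298564124672257) (nat_lit 1)) (.cons (.ev (nat_lit 340287579500517295896761547126229434625) (nat_lit 1)) .nil))) (.cons (.ev (nat_lit 340287559297026369731087091254639526145) (nat_lit 1)) (.cons (.br (nat_lit 16) (nat_lit 0) (.cons (.ev (nat_lit 340287579500517295896761547126229434625) (nat_lit 1)) (.cons (.ev (nat_lit 340287559297025165527706298564124672257) (nat_lit 1)) .nil)))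 .nil)))) .nil)))),
 (.br (nat_lit 13) (nat_lit 0) (.cons (.rf (nat_lit 732) (nat_lit 19926519232773908561233952)) (.cons (.br (nat_lit 15) (nat_lit 0) (.cons (.ev (nat_lit 1363787923835639343316543051888626630659) (nat_lit 3)) (.cons (.rf (nat_lit 214) (nat_lit 628794770234643521)) .nil))) (.cons (.br (nat_lit 15) (nat_lit 0) (.cons (.br (nat_lit 14) (nat_lit 0) (.cons (.ev (nat_lit 7996137322459292265172846505265071111) (nat_lit 3)) (.cons (.ev (nat_lit 7996218767772416963414618986405823495) (nat_lit 3)) .nil))) (.cons (.ev (nat_lit 1363787924151316471222414272353387544581) (nat_lit 3)) (.cons (.kr (nat_lit 40564819212025707612239124496385) (nat_lit 2658455991569831764254358198581985280) (nat_lit 0) (nat_lit 1)) .nil)))) .nil)))),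
 (.br (nat_lit 13) (nat_lit 0) (.cons (.br (nat_lit 14) (nat_lit 0) (.cons (.kr (nat_lit 40564819212025707612239124496385) (nat_lit 2658455991569831764254358198581985280) (nat_lit 0) (nat_lit 1)) (.cons (.br (nat_lit 15) (nat_lit 0) (.cons (.ev (nat_lit 4086067831056854378914813610021877710859) (nat_lit 4)) (.cons (.ev (nat_lit 7996218452100124686167937832349467649) (nat_lit 3)) .nil))) (.cons (.br (nat_lit 15) (nat_lit 0) (.cons (.br (nat_lit 16) (nat_lit 0) (.cons (.ev (nat_lit 1374484258030479769923891486548239056903) (nat_lit 4)) .nil)) (.cons (.ev (nat_lit 7996137638131584394269114317207372805) (nat_lit 3)) .nil))) .nil)))) (.cons (.br (nat_lit 14) (nat_lit 0) (.cons (.br (nat_lit 16) (nat_lit 0) (.cons (.ev (nat_lit 685912799607408162090094754756074405893) (nat_lit 3)) (.cons (.ev (nat_lit 4763984493659946585317620582253982780419) (nat_lit 4)) .nil))) (.cons (.kr (nat_lit 10384593717069673704086541344702465) (nat_lit 680564733841876931649115697737493381120) (nat_lit 0) (nat_lit 1)) (.cons (.br (nat_lit 16) (nat_lit 0) (.cons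 (.ev (nat_lit 4763984332032009504733822935154979113995) (nat_lit 4)) (.cons (.ev (nat_lit 350490848394606887924187728538396094891009) (nat_lit 3)) .nil))) .nil)))) (.cons (.ev (nat_lit 40723275537072827711841319911427) (nat_lit 2)) .nil)))),
 (.br (nat_lit 13) (nat_lit 0) (.cons (.rf (nat_lit 734) (nat_lit 677582165103132179601393696)) (.cons (.br (nat_lit 15) (nat_lit 0) (.cons (.br (nat_lit 14) (nat_lit 0) (.cons (.ev (nat_lit 1374484095771217447598714311276905889795) (nat_lit 4)) (.cons (.br (nat_lit 16) (nat_lit 0) (.cons (.ev (nat_lit 4086067668797563042813264002137190301711) (nat_lit 4)) .nil)) .nil))) (.cons (.kr (nat_lit 40564819212025707612239124496385) (nat_lit 2658455991569831764254358198581985280) (nat_lit 0) (nat_lit 1)) (.cons (.br (nat_lit 16) (nat_lit 0) (.cons (.ev (nat_lit 1363788005280950050052318763689827501057) (nat_lit 3)) (.cons (.ev (nat_lit 1363787923835641761130856447461132731397) (nat_lit 3)) .nil))) .nil)))) (.cons (.br (nat_lit 17) (nat_lit 0) (.cons (.ev (nat_lit 174224571863678949623017285869012108050947)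 (nat_lit 2)) (.cons (.kr (nat_lit 20282409603651670423947251286272) (nat_lit 87112285931760246646623899502532678909952) (nat_lit 1) (nat_lit 0)) (.cons (.ev (nat_lit 174224571863678952040905674471238424199681) (nat_lit 2)) .nil)))) .nil)))),
 (.br (nat_lit 5) (nat_lit 0) (.cons (.rf (nat_lit 583) (nat_lit 14239471979454272547)) (.cons (.rf (nat_lit 535) (nat_lit 14239471979454272547)) (.cons (.rf (nat_lit 627) (nat_lit 14239471979454272547)) (.cons (.br (nat_lit 7) (nat_lit 0) (.cons (.ev (nat_lit 316915072649944126893173507073) (nat_lit 3)) (.cons (.ev (nat_lit 79228162532783421840091578625) (nat_lit 1)) (.cons (.br (nat_lit 10) (nat_lit 0) (.cons (.ev (nat_lit 79229376180897180269896859905) (nat_lit 1)) (.cons (.ev (nat_lit 158457548158557683037354721794) (nat_lit 2)) (.cons (.br (nat_lit 11) (nat_lit 0) (.cons (.ev (nat_lit 618974797493801895587741699) (nat_lit 2)) (.cons (.ev (nat_lit 621392612095427827065683969) (nat_lit 2)) (.cons (.br (nat_lit 13) (nat_lit 0) (.cons (.rf (nat_lit 630) (nat_lit 583706118939841765935136))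 (.cons (.rf (nat_lit 632) (nat_lit 583706118939841765935136)) (.cons (.br (nat_lit 13) (nat_lit 0) (.cons (.rf (nat_lit 630) (nat_lit 583706118939841765935136)) (.cons (.rf (nat_lit 632) (nat_lit 583706118939841765935136)) (.cons (.br (nat_lit 14) (nat_lit 0) (.cons (.rf (nat_lit 632) (nat_lit 582562417319727094305827)) (.cons (.rf (nat_lit 633) (nat_lit 677582165103132179601393696)) (.cons (.rf (nat_lit 633) (nat_lit 640105464695078675185502240)) .nil)))) .nil)))) .nil)))) .nil)))) .nil)))) .nil)))) (.cons (.br (nat_lit 7) (nat_lit 0) (.cons (.br (nat_lit 12) (nat_lit 0) (.cons (.ev (nat_lit 1240362705958002790714311681) (nat_lit 3)) (.cons (.ev (nat_lit 316915072649944126893106397185) (nat_lit 3)) (.cons (.br (nat_lit 11) (nat_lit 0) (.cons (.br (nat_lit 13) (nat_lit 0) (.cons (.ev (nat_lit 81446558323033401901217590018049) (nat_lit 3)) (.cons (.br (nat_lit 14) (nat_lit 0) (.cons (.rf (nat_lit 634) (nat_lit 583706118939841765935136)) (.cons (.br (nat_lit 14) (nat_lit 0) (.cons (.rf (nat_lit 634) (nat_lit 583706118939841765935136))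 (.cons (.br (nat_lit 15) (nat_lit 0) (.cons (.rf (nat_lit 635) (nat_lit 677582165103132179601393696)) (.cons (.rf (nat_lit 635) (nat_lit 640105464695078675185502240)) .nil))) .nil))) .nil))) .nil))) (.cons (.br (nat_lit 13) (nat_lit 0) (.cons (.ev (nat_lit 20769504354047737234327413968864257) (nat_lit 3)) (.cons (.br (nat_lit 13) (nat_lit 0) (.cons (.ev (nat_lit 20769504354047737234327413968864257) (nat_lit 3)) (.cons (.br (nat_lit 14) (nat_lit 0) (.cons (.rf (nat_lit 636) (nat_lit 19926519232773908561233952)) (.cons (.rf (nat_lit 636) (nat_lit 18755372345022236548237344)) (.cons (.br (nat_lit 15) (nat_lit 0) (.cons (.br (nat_lit 15) (nat_lit 0) (.cons (.ev (nat_lit 5337762301457415743973426551773463553) (nat_lit 3)) .nil)) (.cons (.br (nat_lit 15) (nat_lit 0) (.cons (.ev (nat_lit 5337762301457415743973426551773463553) (nat_lit 3)) .nil)) .nil))) .nil)))) .nil))) .nil))) (.cons (.br (nat_lit 13) (nat_lit 0) (.cons (.rf (nat_lit 637) (nat_lit 583706118939841765935136)) (.cons (.rf (nat_lit 639) (nat_lit 583706118939841765935136))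 (.cons (.br (nat_lit 13) (nat_lit 0) (.cons (.rf (nat_lit 637) (nat_lit 583706118939841765935136)) (.cons (.rf (nat_lit 639) (nat_lit 583706118939841765935136)) (.cons (.br (nat_lit 14) (nat_lit 0) (.cons (.rf (nat_lit 641) (nat_lit 677582165103132179601393696)) (.cons (.rf (nat_lit 642) (nat_lit 677582165103132179601393696)) (.cons (.rf (nat_lit 642) (nat_lit 640105464695078675185502240)) .nil)))) .nil)))) .nil)))) .nil)))) .nil)))) (.cons (.br (nat_lit 12) (nat_lit 0) (.cons (.kr (nat_lit 2417851783344446442045441) (nat_lit 4740813508422626443776) (nat_lit 0) (nat_lit 2)) (.cons (.ev (nat_lit 79228162532783421840074801153) (nat_lit 1)) (.cons (.br (nat_lit 10) (nat_lit 0) (.cons (.br (nat_lit 13) (nat_lit 0) (.cons (.ev (nat_lit 121854770861812369132492721095687) (nat_lit 3)) (.cons (.br (nat_lit 14) (nat_lit 0) (.cons (.rf (nat_lit 643) (nat_lit 583706118939841765935136)) (.cons (.br (nat_lit 14) (nat_lit 0) (.cons (.rf (nat_lit 643) (nat_lit 583706118939841765935136)) (.cons (.br (nat_lit 15) (nat_lit 0) (.cons (.rf (nat_lit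 644) (nat_lit 677582165103132179601393696)) (.cons (.rf (nat_lit 644) (nat_lit 640105464695078675185502240)) .nil))) .nil))) .nil))) .nil))) (.cons (.br (nat_lit 13) (nat_lit 0) (.cons (.ev (nat_lit 31153941464448868117771787155146247) (nat_lit 3)) (.cons (.br (nat_lit 13) (nat_lit 0) (.cons (.ev (nat_lit 31153941464448868117771787155146247) (nat_lit 3)) (.cons (.br (nat_lit 14) (nat_lit 0) (.cons (.rf (nat_lit 645) (nat_lit 19926519232773908561233952)) (.cons (.rf (nat_lit 645) (nat_lit 18755372345022236548237344)) (.cons (.rf (nat_lit 646) (nat_lit 21174442659472880612509728)) .nil)))) .nil))) .nil))) (.cons (.br (nat_lit 13) (nat_lit 0) (.cons (.rf (nat_lit 648) (nat_lit 583706118939841765935136)) (.cons (.rf (nat_lit 650) (nat_lit 583706118939841765935136)) (.cons (.br (nat_lit 13) (nat_lit 0) (.cons (.rf (nat_lit 648) (nat_lit 583706118939841765935136)) (.cons (.rf (nat_lit 650) (nat_lit 583706118939841765935136)) (.cons (.br (nat_lit 14) (nat_lit 0) (.cons (.rf (nat_lit 652) (nat_lit 677582165103132179601393696)) (.cons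 (.rf (nat_lit 653) (nat_lit 677582165103132179601393696)) (.cons (.rf (nat_lit 653) (nat_lit 640105464695078675185502240)) .nil)))) .nil)))) .nil)))) .nil)))) .nil)))) (.cons (.br (nat_lit 10) (nat_lit 0) (.cons (.kr (nat_lit 2417851783344446442045441) (nat_lit 4740813508422626443776) (nat_lit 0) (nat_lit 2)) (.cons (.br (nat_lit 11) (nat_lit 0) (.cons (.ev (nat_lit 621392612095427827065683969) (nat_lit 2)) (.cons (.br (nat_lit 13) (nat_lit 0) (.cons (.ev (nat_lit 40725137282834889562649518015495) (nat_lit 3)) (.cons (.br (nat_lit 14) (nat_lit 0) (.cons (.rf (nat_lit 654) (nat_lit 583706118939841765935136)) (.cons (.br (nat_lit 14) (nat_lit 0) (.cons (.rf (nat_lit 654) (nat_lit 583706118939841765935136)) (.cons (.br (nat_lit 15) (nat_lit 0) (.cons (.rf (nat_lit 655) (nat_lit 677582165103132179601393696)) (.cons (.rf (nat_lit 655) (nat_lit 640105464695078675185502240)) .nil))) .nil))) .nil))) .nil))) .nil))) (.cons (.br (nat_lit 11) (nat_lit 0) (.cons (.br (nat_lit 13) (nat_lit 0) (.cons (.ev (nat_lit 20282720297605758127718860324864)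 (nat_lit 1)) (.cons (.br (nat_lit 14) (nat_lit 0) (.cons (.rf (nat_lit 656) (nat_lit 18240816216870020548640)) (.cons (.br (nat_lit 14) (nat_lit 0) (.cons (.rf (nat_lit 656) (nat_lit 18240816216870020548640)) (.cons (.br (nat_lit 15) (nat_lit 0) (.cons (.rf (nat_lit 657) (nat_lit 677582165103132179601393696)) (.cons (.rf (nat_lit 657) (nat_lit 640105464695078675185502240)) .nil))) .nil))) .nil))) .nil))) (.cons (.ev (nat_lit 621392612095427827065683969) (nat_lit 2)) (.cons (.br (nat_lit 13) (nat_lit 0) (.cons (.rf (nat_lit 660) (nat_lit 583706118939841765935136)) (.cons (.rf (nat_lit 662) (nat_lit 583706118939841765935136)) (.cons (.br (nat_lit 13) (nat_lit 0) (.cons (.rf (nat_lit 660) (nat_lit 583706118939841765935136)) (.cons (.rf (nat_lit 662) (nat_lit 583706118939841765935136)) (.cons (.br (nat_lit 16) (nat_lit 0) (.cons (.rf (nat_lit 663) (nat_lit 677582165103132179601393696)) (.cons (.br (nat_lit 16) (nat_lit 0) (.cons (.rf (nat_lit 663) (nat_lit 677582165103132179601393696)) (.cons (.ev (nat_lit 680564774407315109027583864653660291587)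 (nat_lit 2)) .nil))) (.cons (.rf (nat_lit 658) (nat_lit 21137806235629972558546976)) .nil)))) .nil)))) .nil)))) .nil)))) .nil)))) (.cons (.br (nat_lit 11) (nat_lit 0) (.cons (.br (nat_lit 12) (nat_lit 0) (.cons (.ev (nat_lit 79229371440084234797223837696) (nat_lit 1)) (.cons (.br (nat_lit 13) (nat_lit 0) (.cons (.ev (nat_lit 121854775697441572384321317241859) (nat_lit 3)) (.cons (.br (nat_lit 14) (nat_lit 0) (.cons (.rf (nat_lit 664) (nat_lit 583706118939841765935136)) (.cons (.br (nat_lit 14) (nat_lit 0) (.cons (.rf (nat_lit 664) (nat_lit 583706118939841765935136)) (.cons (.br (nat_lit 15) (nat_lit 0) (.cons (.rf (nat_lit 665) (nat_lit 677582165103132179601393696)) (.cons (.rf (nat_lit 665) (nat_lit 640105464695078675185502240)) .nil))) .nil))) .nil))) .nil))) .nil))) (.cons (.ev (nat_lit 79228162532783421840074801153) (nat_lit 1)) (.cons (.ev (nat_lit 618974797493801895587741699) (nat_lit 2)) (.cons (.br (nat_lit 10) (nat_lit 0) (.cons (.br (nat_lit 13) (nat_lit 0) (.cons (.ev (nat_lit 40725132447205686310786696348675) (nat_lit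 3)) (.cons (.br (nat_lit 14) (nat_lit 0) (.cons (.rf (nat_lit 666) (nat_lit 583706118939841765935136)) (.cons (.br (nat_lit 14) (nat_lit 0) (.cons (.rf (nat_lit 666) (nat_lit 583706118939841765935136)) (.cons (.br (nat_lit 15) (nat_lit 0) (.cons (.rf (nat_lit 667) (nat_lit 677582165103132179601393696)) (.cons (.rf (nat_lit 667) (nat_lit 640105464695078675185502240)) .nil))) .nil))) .nil))) .nil))) (.cons (.br (nat_lit 12) (nat_lit 0) (.cons (.ev (nat_lit 40725132447205686310786696348675) (nat_lit 3)) (.cons (.br (nat_lit 14) (nat_lit 0) (.cons (.rf (nat_lit 668) (nat_lit 583706118939841765935136)) (.cons (.br (nat_lit 14) (nat_lit 0) (.cons (.rf (nat_lit 668) (nat_lit 583706118939841765935136)) (.cons (.br (nat_lit 15) (nat_lit 0) (.cons (.rf (nat_lit 669) (nat_lit 677582165103132179601393696)) (.cons (.rf (nat_lit 669) (nat_lit 640105464695078675185502240)) .nil))) .nil))) .nil))) .nil))) (.cons (.ev (nat_lit 621392612095427827065683969) (nat_lit 2)) (.cons (.br (nat_lit 12) (nat_lit 0) (.cons (.br (nat_lit 14) (nat_lit 0) (.cons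 (.rf (nat_lit 670) (nat_lit 583706118939841765935136)) (.cons (.br (nat_lit 14) (nat_lit 0) (.cons (.rf (nat_lit 670) (nat_lit 583706118939841765935136)) (.cons (.br (nat_lit 15) (nat_lit 0) (.cons (.rf (nat_lit 671) (nat_lit 677582165103132179601393696)) (.cons (.rf (nat_lit 671) (nat_lit 640105464695078675185502240)) .nil))) .nil))) .nil))) (.cons (.br (nat_lit 14) (nat_lit 0) (.cons (.ev (nat_lit 5192297168019837521933163386896641) (nat_lit 1)) (.cons (.ev (nat_lit 5192297169228781716234267955036416) (nat_lit 1)) (.cons (.br (nat_lit 13) (nat_lit 0) (.cons (.br (nat_lit 15) (nat_lit 0) (.cons (.ev (nat_lit 2668881308562438473891824013175554561) (nat_lit 2)) (.cons (.rf (nat_lit 166) (nat_lit 631047566383223873)) .nil))) (.cons (.br (nat_lit 16) (nat_lit 0) (.cons (.kr (nat_lit 10384593719487507040405439100485633) (nat_lit 680564733841876931667562723286162866688) (nat_lit 0) (nat_lit 2)) (.cons (.rf (nat_lit 175) (nat_lit 629888647673775333)) .nil))) (.cons (.br (nat_lit 15) (nat_lit 0) (.cons (.br (nat_lit 15) (nat_lit 0)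 (.cons (.ev (nat_lit 2668881308564856362280426222244725251) (nat_lit 2)) .nil)) (.cons (.br (nat_lit 15) (nat_lit 0) (.cons (.ev (nat_lit 2668881308564856362280426222244725251) (nat_lit 2)) .nil)) .nil))) .nil)))) .nil)))) (.cons (.br (nat_lit 13) (nat_lit 0) (.cons (.br (nat_lit 14) (nat_lit 0) (.cons (.ev (nat_lit 31235071102863474798904634863911941) (nat_lit 3)) (.cons (.br (nat_lit 15) (nat_lit 0) (.cons (.ev (nat_lit 2668881308562438473891824013175554561) (nat_lit 2)) (.cons (.rf (nat_lit 166) (nat_lit 596110584411657281)) .nil))) .nil))) (.cons (.kr (nat_lit 40564819207321787873443188834817) (nat_lit 2658455991569836468174096994551201792) (nat_lit 0) (nat_lit 2)) (.cons (.br (nat_lit 15) (nat_lit 0) (.cons (.br (nat_lit 14) (nat_lit 0) (.cons (.ev (nat_lit 2668881308564856362280426222244725251) (nat_lit 2)) (.cons (.rf (nat_lit 167) (nat_lit 631013481523778625)) .nil))) (.cons (.ev (nat_lit 7975408856448610967485021567530041861) (nat_lit 3)) (.cons (.br (nat_lit 14) (nat_lit 0) (.cons (.br (nat_lit 14) (nat_lit 0) (.cons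 (.zr (nat_lit 1329248357732185938126972147816529921) (nat_lit 5192296860952734752107176768045824) (nat_lit 8) (nat_lit 11)) .nil)) (.cons (.br (nat_lit 14) (nat_lit 0) (.cons (.zr (nat_lit 1329248357732185938126972147816529921) (nat_lit 5192296860952734752107176768045824) (nat_lit 8) (nat_lit 11)) .nil)) .nil))) .nil)))) .nil)))) (.cons (.br (nat_lit 13) (nat_lit 0) (.cons (.br (nat_lit 14) (nat_lit 0) (.cons (.rf (nat_lit 672) (nat_lit 19926519232773908561233952)) (.cons (.ev (nat_lit 31235071102863474798904634863911941) (nat_lit 3)) (.cons (.rf (nat_lit 674) (nat_lit 21174442659471745632798752)) .nil)))) (.cons (.br (nat_lit 15) (nat_lit 0) (.cons (.br (nat_lit 14) (nat_lit 0) (.cons (.ev (nat_lit 5327297052847100955667122167027729411) (nat_lit 3)) (.cons (.rf (nat_lit 167) (nat_lit 631013448070005989)) .nil))) (.cons (.ev (nat_lit 1329248357422682057357371368351531008) (nat_lit 1)) (.cons (.br (nat_lit 14) (nat_lit 0) (.cons (.rf (nat_lit 675) (nat_lit 677582165103132179601393696)) (.cons (.br (nat_lit 14) (nat_lit 0) (.cons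 (.rf (nat_lit 675) (nat_lit 677582165103132179601393696)) .nil)) .nil))) .nil)))) (.cons (.br (nat_lit 16) (nat_lit 0) (.cons (.br (nat_lit 14) (nat_lit 0) (.cons (.ev (nat_lit 31235386779991381248837617382196231) (nat_lit 3)) (.cons (.rf (nat_lit 172) (nat_lit 629888681127547969)) .nil))) (.cons (.ev (nat_lit 680564734000335674584624681036636357121) (nat_lit 2)) (.cons (.rf (nat_lit 174) (nat_lit 675166674429813891363080224)) .nil)))) (.cons (.br (nat_lit 14) (nat_lit 0) (.cons (.rf (nat_lit 676) (nat_lit 677582165103132179601393696)) (.cons (.rf (nat_lit 677) (nat_lit 677582165103132179601393696)) (.cons (.br (nat_lit 14) (nat_lit 0) (.cons (.rf (nat_lit 676) (nat_lit 677582165103132179601393696)) (.cons (.rf (nat_lit 677) (nat_lit 677582165103132179601393696)) .nil))) .nil)))) .nil))))) .nil))))) .nil))))) .nil))))) (.cons (.br (nat_lit 11) (nat_lit 0) (.cons (.br (nat_lit 12) (nat_lit 0) (.cons (.ev (nat_lit 79229371440084234797223837696) (nat_lit 1)) (.cons (.br (nat_lit 13) (nat_lit 0) (.cons (.ev (nat_lit 31153941469284497321023615751292419)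 (nat_lit 3)) (.cons (.br (nat_lit 13) (nat_lit 0) (.cons (.ev (nat_lit 31153941469284497321023615751292419) (nat_lit 3)) (.cons (.br (nat_lit 14) (nat_lit 0) (.cons (.rf (nat_lit 678) (nat_lit 19926519232773908561233952)) (.cons (.rf (nat_lit 678) (nat_lit 18755372345022236548237344)) (.cons (.rf (nat_lit 646) (nat_lit 21174442659363894844295200)) .nil)))) .nil))) .nil))) (.cons (.br (nat_lit 13) (nat_lit 0) (.cons (.rf (nat_lit 680) (nat_lit 583706118939841765935136)) (.cons (.rf (nat_lit 681) (nat_lit 583706118939841765935136)) (.cons (.br (nat_lit 13) (nat_lit 0) (.cons (.rf (nat_lit 680) (nat_lit 583706118939841765935136)) (.cons (.rf (nat_lit 681) (nat_lit 583706118939841765935136)) (.cons (.br (nat_lit 14) (nat_lit 0) (.cons (.rf (nat_lit 683) (nat_lit 677582165103132179601393696)) (.cons (.rf (nat_lit 684) (nat_lit 677582165103132179601393696)) (.cons (.rf (nat_lit 684) (nat_lit 640105464695078675185502240)) .nil)))) .nil)))) .nil)))) .nil)))) (.cons (.br (nat_lit 10) (nat_lit 0) (.cons (.ev (nat_lit 79229376180897180269880082433)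 (nat_lit 1)) (.cons (.ev (nat_lit 620193112778770591193760258) (nat_lit 2)) (.cons (.br (nat_lit 13) (nat_lit 0) (.cons (.rf (nat_lit 688) (nat_lit 583706118939841765935136)) (.cons (.rf (nat_lit 689) (nat_lit 583706118939841765935136)) (.cons (.br (nat_lit 13) (nat_lit 0) (.cons (.rf (nat_lit 688) (nat_lit 583706118939841765935136)) (.cons (.rf (nat_lit 689) (nat_lit 583706118939841765935136)) (.cons (.br (nat_lit 16) (nat_lit 0) (.cons (.rf (nat_lit 690) (nat_lit 677582165103132179601393696)) (.cons (.br (nat_lit 16) (nat_lit 0) (.cons (.rf (nat_lit 690) (nat_lit 677582165103132179601393696)) (.cons (.ev (nat_lit 680564774407317526842185490585071124993) (nat_lit 2)) .nil))) (.cons (.rf (nat_lit 686) (nat_lit 21137806235629972558546976)) .nil)))) .nil)))) .nil)))) .nil)))) (.cons (.br (nat_lit 13) (nat_lit 0) (.cons (.ev (nat_lit 621392612095427827065683969) (nat_lit 2)) (.cons (.br (nat_lit 10) (nat_lit 0) (.cons (.ev (nat_lit 40565439386304359557668714578435) (nat_lit 2)) (.cons (.br (nat_lit 14) (nat_lit 0) (.cons (.rf (nat_lit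 691) (nat_lit 583706118939841765935136)) (.cons (.br (nat_lit 14) (nat_lit 0) (.cons (.rf (nat_lit 691) (nat_lit 583706118939841765935136)) (.cons (.br (nat_lit 15) (nat_lit 0) (.cons (.rf (nat_lit 692) (nat_lit 677582165103132179601393696)) (.cons (.rf (nat_lit 692) (nat_lit 640105464695078675185502240)) .nil))) .nil))) .nil))) .nil))) (.cons (.ev (nat_lit 20282719088661563826614325739521) (nat_lit 1)) (.cons (.br (nat_lit 10) (nat_lit 0) (.cons (.br (nat_lit 14) (nat_lit 0) (.cons (.rf (nat_lit 693) (nat_lit 583706118939841765935136)) (.cons (.br (nat_lit 14) (nat_lit 0) (.cons (.rf (nat_lit 693) (nat_lit 583706118939841765935136)) (.cons (.br (nat_lit 15) (nat_lit 0) (.cons (.rf (nat_lit 694) (nat_lit 677582165103132179601393696)) (.cons (.rf (nat_lit 694) (nat_lit 640105464695078675185502240)) .nil))) .nil))) .nil))) (.cons (.br (nat_lit 12) (nat_lit 0) (.cons (.ev (nat_lit 10384754030309557602523884751553027) (nat_lit 3)) (.cons (.ev (nat_lit 40723276741276352619719910621187) (nat_lit 2)) (.cons (.br (nat_lit 14) (nat_lit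 0) (.cons (.ev (nat_lit 10425159155251756092273741325664257) (nat_lit 2)) (.cons (.ev (nat_lit 10385069706247372285358023127729152) (nat_lit 3)) (.cons (.br (nat_lit 15) (nat_lit 0) (.cons (.br (nat_lit 15) (nat_lit 0) (.cons (.ev (nat_lit 7985793293560216301891122019627566083) (nat_lit 3)) .nil)) (.cons (.br (nat_lit 15) (nat_lit 0) (.cons (.ev (nat_lit 7985793293560216301891122019627566083) (nat_lit 3)) .nil)) .nil))) .nil)))) .nil)))) (.cons (.ev (nat_lit 20282720297605758127718860324864) (nat_lit 1)) (.cons (.br (nat_lit 12) (nat_lit 0) (.cons (.br (nat_lit 14) (nat_lit 0) (.cons (.br (nat_lit 15) (nat_lit 0) (.cons (.kr (nat_lit 40564821625155124192340927840257) (nat_lit 2658455991569836486621122543203909632) (nat_lit 0) (nat_lit 1)) (.cons (.rf (nat_lit 175) (nat_lit 631013448068859237)) .nil))) (.cons (.br (nat_lit 16) (nat_lit 0) (.cons (.ev (nat_lit 680575159158869533654833424756151288321) (nat_lit 2)) (.cons (.rf (nat_lit 167) (nat_lit 629956850982556737)) .nil))) (.cons (.br (nat_lit 15) (nat_lit 0) (.cons (.rf (nat_lit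 695) (nat_lit 677582165103132179601393696)) (.cons (.br (nat_lit 15) (nat_lit 0) (.cons (.rf (nat_lit 695) (nat_lit 677582165103132179601393696)) .nil)) .nil))) .nil)))) (.cons (.br (nat_lit 15) (nat_lit 0) (.cons (.ev (nat_lit 2658456150026161515294478067344474627) (nat_lit 2)) (.cons (.ev (nat_lit 2658456150028579403683080293660623361) (nat_lit 2)) (.cons (.br (nat_lit 14) (nat_lit 0) (.cons (.rf (nat_lit 696) (nat_lit 677582165103132179601393696)) (.cons (.br (nat_lit 14) (nat_lit 0) (.cons (.rf (nat_lit 696) (nat_lit 677582165103132179601393696)) .nil)) .nil))) .nil)))) (.cons (.br (nat_lit 14) (nat_lit 0) (.cons (.rf (nat_lit 697) (nat_lit 19926519232773908561233952)) (.cons (.br (nat_lit 14) (nat_lit 0) (.cons (.ev (nat_lit 680575159158871951543222026965220459011) (nat_lit 2)) (.cons (.rf (nat_lit 167) (nat_lit 629888681258587201)) .nil))) (.cons (.br (nat_lit 14) (nat_lit 0) (.cons (.rf (nat_lit 697) (nat_lit 19926519232773908561233952)) (.cons (.rf (nat_lit 167) (nat_lit 629888681258587201)) .nil))) .nil)))) (.cons (.br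 (nat_lit 14) (nat_lit 0) (.cons (.rf (nat_lit 698) (nat_lit 677582165103132179601393696)) (.cons (.rf (nat_lit 699) (nat_lit 677582165103132179601393696)) (.cons (.br (nat_lit 14) (nat_lit 0) (.cons (.rf (nat_lit 698) (nat_lit 677582165103132179601393696)) (.cons (.rf (nat_lit 699) (nat_lit 677582165103132179601393696)) .nil))) .nil)))) .nil))))) .nil))))) .nil))))) (.cons (.ev (nat_lit 618974797493801895587741699) (nat_lit 2)) (.cons (.br (nat_lit 10) (nat_lit 0) (.cons (.br (nat_lit 13) (nat_lit 0) (.cons (.rf (nat_lit 702) (nat_lit 583706118939841765935136)) (.cons (.rf (nat_lit 705) (nat_lit 583706118939841765935136)) (.cons (.br (nat_lit 13) (nat_lit 0) (.cons (.rf (nat_lit 702) (nat_lit 583706118939841765935136)) (.cons (.rf (nat_lit 705) (nat_lit 583706118939841765935136)) (.cons (.br (nat_lit 16) (nat_lit 0) (.cons (.rf (nat_lit 706) (nat_lit 677582165103132179601393696)) (.cons (.br (nat_lit 16) (nat_lit 0) (.cons (.rf (nat_lit 706) (nat_lit 677582165103132179601393696)) (.cons (.ev (nat_lit 680564774407317526842185490585071124993)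 (nat_lit 2)) .nil))) (.cons (.rf (nat_lit 700) (nat_lit 21137806235629972558546976)) .nil)))) .nil)))) .nil)))) (.cons (.br (nat_lit 12) (nat_lit 0) (.cons (.br (nat_lit 14) (nat_lit 0) (.cons (.rf (nat_lit 707) (nat_lit 583706118939841765935136)) (.cons (.br (nat_lit 14) (nat_lit 0) (.cons (.rf (nat_lit 707) (nat_lit 583706118939841765935136)) (.cons (.br (nat_lit 15) (nat_lit 0) (.cons (.rf (nat_lit 708) (nat_lit 677582165103132179601393696)) (.cons (.rf (nat_lit 708) (nat_lit 640105464695078675185502240)) .nil))) .nil))) .nil))) (.cons (.br (nat_lit 13) (nat_lit 0) (.cons (.kr (nat_lit 10384593717069673704086541361479681) (nat_lit 40564819212025707330768442753536) (nat_lit 0) (nat_lit 2)) (.cons (.br (nat_lit 14) (nat_lit 0) (.cons (.ev (nat_lit 10506605094599992000935987444450821) (nat_lit 3)) (.cons (.br (nat_lit 15) (nat_lit 0) (.cons (.ev (nat_lit 2668881308564856362280426222244725251) (nat_lit 2)) (.cons (.rf (nat_lit 166) (nat_lit 631047566484804673)) .nil))) .nil))) (.cons (.br (nat_lit 14) (nat_lit 0) (.cons (.br (nat_lit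 15) (nat_lit 0) (.cons (.ev (nat_lit 2668881308562438473891824013175554561) (nat_lit 2)) (.cons (.rf (nat_lit 167) (nat_lit 631047566484804673)) .nil))) (.cons (.ev (nat_lit 10506605094599992000935987444450821) (nat_lit 3)) (.cons (.br (nat_lit 15) (nat_lit 0) (.cons (.br (nat_lit 15) (nat_lit 0) (.cons (.zr (nat_lit 5212658805804892851695583865405441) (nat_lit 1329227995787333780027383740719170304) (nat_lit 8) (nat_lit 11)) .nil)) (.cons (.br (nat_lit 15) (nat_lit 0) (.cons (.zr (nat_lit 5212658805804892851695583865405441) (nat_lit 1329227995787333780027383740719170304) (nat_lit 8) (nat_lit 11)) .nil)) .nil))) .nil)))) .nil)))) (.cons (.br (nat_lit 15) (nat_lit 0) (.cons (.ev (nat_lit 1329227996095614530911531107096723713) (nat_lit 1)) (.cons (.ev (nat_lit 1329227996094405623610718141391307008) (nat_lit 1)) (.cons (.br (nat_lit 13) (nat_lit 0) (.cons (.br (nat_lit 14) (nat_lit 0) (.cons (.ev (nat_lit 2668881308564856362280426222244725251) (nat_lit 2)) (.cons (.rf (nat_lit 166) (nat_lit 631013481620280385)) .nil))) (.cons (.br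 (nat_lit 16) (nat_lit 0) (.cons (.kr (nat_lit 2658455991572249597590958567002734593) (nat_lit 680564733841876931667562723286162866688) (nat_lit 0) (nat_lit 2)) (.cons (.rf (nat_lit 175) (nat_lit 628797932135875909)) .nil))) (.cons (.br (nat_lit 14) (nat_lit 0) (.cons (.br (nat_lit 14) (nat_lit 0) (.cons (.ev (nat_lit 2668881308562438473891824013175554561) (nat_lit 2)) .nil)) (.cons (.br (nat_lit 14) (nat_lit 0) (.cons (.ev (nat_lit 2668881308562438473891824013175554561) (nat_lit 2)) .nil)) .nil))) .nil)))) .nil)))) (.cons (.br (nat_lit 13) (nat_lit 0) (.cons (.br (nat_lit 14) (nat_lit 0) (.cons (.br (nat_lit 15) (nat_lit 0) (.cons (.ev (nat_lit 7996137322459292265172846505265071111) (nat_lit 3)) (.cons (.rf (nat_lit 167) (nat_lit 631047532930368837)) .nil))) (.cons (.ev (nat_lit 5212658497509919382907770105823233) (nat_lit 1)) (.cons (.br (nat_lit 15) (nat_lit 0) (.cons (.rf (nat_lit 709) (nat_lit 677582165103132179601393696)) (.cons (.br (nat_lit 15) (nat_lit 0) (.cons (.rf (nat_lit 709) (nat_lit 677582165103132179601393696))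 .nil)) .nil))) .nil)))) (.cons (.br (nat_lit 15) (nat_lit 0) (.cons (.br (nat_lit 14) (nat_lit 0) (.cons (.ev (nat_lit 5212658496305716002115079590969345) (nat_lit 1)) (.cons (.rf (nat_lit 167) (nat_lit 631013448065844549)) .nil))) (.cons (.ev (nat_lit 2658537597201031975597538415252734981) (nat_lit 3)) (.cons (.rf (nat_lit 711) (nat_lit 21174442659472880577906720)) .nil)))) (.cons (.br (nat_lit 14) (nat_lit 0) (.cons (.rf (nat_lit 712) (nat_lit 19926519232773908561233952)) (.cons (.ev (nat_lit 680564734000333256696236078810320208387) (nat_lit 2)) (.cons (.br (nat_lit 14) (nat_lit 0) (.cons (.rf (nat_lit 712) (nat_lit 19926519232773908561233952)) (.cons (.ev (nat_lit 680564734000333256696236078810320208387) (nat_lit 2)) .nil))) .nil)))) (.cons (.br (nat_lit 14) (nat_lit 0) (.cons (.rf (nat_lit 713) (nat_lit 677582165103132179601393696)) (.cons (.br (nat_lit 14) (nat_lit 0) (.cons (.rf (nat_lit 713) (nat_lit 677582165103132179601393696)) (.cons (.ev (nat_lit 5212658496305716002115079590969345) (nat_lit 1)) .nil))) (.cons (.br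 (nat_lit 14) (nat_lit 0) (.cons (.rf (nat_lit 713) (nat_lit 677582165103132179601393696)) (.cons (.ev (nat_lit 5212658496305716002115079590969345) (nat_lit 1)) .nil))) .nil)))) .nil))))) .nil))))) (.cons (.br (nat_lit 12) (nat_lit 0) (.cons (.ev (nat_lit 158457548158557683037321166850) (nat_lit 2)) (.cons (.br (nat_lit 13) (nat_lit 0) (.cons (.rf (nat_lit 714) (nat_lit 583706118939841765935136)) (.cons (.br (nat_lit 13) (nat_lit 0) (.cons (.rf (nat_lit 714) (nat_lit 583706118939841765935136)) (.cons (.br (nat_lit 15) (nat_lit 0) (.cons (.rf (nat_lit 715) (nat_lit 677582165103132179601393696)) (.cons (.rf (nat_lit 715) (nat_lit 640105464695078675185502240)) .nil))) .nil))) .nil))) (.cons (.br (nat_lit 13) (nat_lit 0) (.cons (.ev (nat_lit 10385069706247372285358023127729152) (nat_lit 3)) (.cons (.ev (nat_lit 2658456150027365718819385945935184387) (nat_lit 2)) (.cons (.br (nat_lit 13) (nat_lit 0) (.cons (.ev (nat_lit 10385069706247372285358023127729152) (nat_lit 3)) (.cons (.ev (nat_lit 2658456150027365718819385945935184387) (nat_lit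 2)) (.cons (.br (nat_lit 14) (nat_lit 0) (.cons (.ev (nat_lit 5192297168019837522214634068639744) (nat_lit 1)) (.cons (.rf (nat_lit 716) (nat_lit 677582165103132179601393696)) (.cons (.rf (nat_lit 716) (nat_lit 640105464695078675185502240)) .nil)))) .nil)))) .nil)))) (.cons (.br (nat_lit 14) (nat_lit 0) (.cons (.br (nat_lit 13) (nat_lit 0) (.cons (.ev (nat_lit 10425159156455959617181619916374017) (nat_lit 2)) (.cons (.ev (nat_lit 40723275537072827711841319911427) (nat_lit 2)) (.cons (.br (nat_lit 15) (nat_lit 0) (.cons (.rf (nat_lit 717) (nat_lit 677582165103132179601393696)) (.cons (.br (nat_lit 15) (nat_lit 0) (.cons (.rf (nat_lit 717) (nat_lit 677582165103132179601393696)) .nil)) .nil))) .nil)))) (.cons (.ev (nat_lit 5192297168019837522214634068639744) (nat_lit 1)) (.cons (.br (nat_lit 16) (nat_lit 0) (.cons (.ev (nat_lit 680564734000333256696236078810320208387) (nat_lit 2)) (.cons (.ev (nat_lit 680575118436214175583025548588916670977) (nat_lit 2)) (.cons (.br (nat_lit 13) (nat_lit 0) (.cons (.rf (nat_lit 718) (nat_lit 677582165103132179601393696))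 (.cons (.br (nat_lit 13) (nat_lit 0) (.cons (.rf (nat_lit 718) (nat_lit 677582165103132179601393696)) .nil)) .nil))) .nil)))) (.cons (.br (nat_lit 13) (nat_lit 0) (.cons (.br (nat_lit 13) (nat_lit 0) (.cons (.rf (nat_lit 197) (nat_lit 21174406914366460589606944)) (.cons (.rf (nat_lit 719) (nat_lit 677582165103132179601393696)) .nil))) (.cons (.br (nat_lit 13) (nat_lit 0) (.cons (.rf (nat_lit 197) (nat_lit 21174406914366460589606944)) (.cons (.ev (nat_lit 5212658497514660196416184159109120) (nat_lit 1)) .nil))) (.cons (.br (nat_lit 13) (nat_lit 0) (.cons (.rf (nat_lit 719) (nat_lit 677582165103132179601393696)) (.cons (.ev (nat_lit 5212658497514660196416184159109120) (nat_lit 1)) .nil))) .nil)))) .nil))))) .nil))))) (.cons (.ev (nat_lit 621392612095427827065683969) (nat_lit 2)) (.cons (.br (nat_lit 12) (nat_lit 0) (.cons (.br (nat_lit 13) (nat_lit 0) (.cons (.br (nat_lit 14) (nat_lit 0) (.cons (.br (nat_lit 15) (nat_lit 0) (.cons (.ev (nat_lit 7996137322459292265172846505265071111) (nat_lit 3)) (.cons (.rf (nat_lit 214) (nat_lit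 631047566316117057)) .nil))) (.cons (.rf (nat_lit 720) (nat_lit 622703726024149174421536)) (.cons (.br (nat_lit 15) (nat_lit 0) (.cons (.rf (nat_lit 216) (nat_lit 676411017998050042876889120)) (.cons (.br (nat_lit 15) (nat_lit 0) (.cons (.rf (nat_lit 216) (nat_lit 676411017998050042876889120)) .nil)) .nil))) .nil)))) (.cons (.br (nat_lit 15) (nat_lit 0) (.cons (.ev (nat_lit 1329248357422682057357652847623209217) (nat_lit 1)) (.cons (.ev (nat_lit 1329248357423895705471411277428490497) (nat_lit 1)) (.cons (.br (nat_lit 14) (nat_lit 0) (.cons (.rf (nat_lit 721) (nat_lit 677582165103132179601393696)) (.cons (.br (nat_lit 14) (nat_lit 0) (.cons (.rf (nat_lit 721) (nat_lit 677582165103132179601393696)) .nil)) .nil))) .nil)))) (.cons (.br (nat_lit 14) (nat_lit 0) (.cons (.rf (nat_lit 722) (nat_lit 19926519232773908561233952)) (.cons (.rf (nat_lit 720) (nat_lit 547219649165784342693920)) (.cons (.br (nat_lit 14) (nat_lit 0) (.cons (.rf (nat_lit 722) (nat_lit 19926519232773908561233952)) (.cons (.rf (nat_lit 214) (nat_lit 629888681061361729))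 .nil))) .nil)))) (.cons (.br (nat_lit 14) (nat_lit 0) (.cons (.rf (nat_lit 724) (nat_lit 677582165103132179601393696)) (.cons (.br (nat_lit 14) (nat_lit 0) (.cons (.rf (nat_lit 724) (nat_lit 677582165103132179601393696)) (.cons (.rf (nat_lit 725) (nat_lit 677582165103132179601393696)) .nil))) (.cons (.rf (nat_lit 725) (nat_lit 677582165103132179601393696)) .nil)))) .nil))))) (.cons (.br (nat_lit 13) (nat_lit 0) (.cons (.rf (nat_lit 727) (nat_lit 19926519232773908561233952)) (.cons (.rf (nat_lit 728) (nat_lit 19926519232773908561233952)) (.cons (.rf (nat_lit 729) (nat_lit 19926519232773908561233952)) (.cons (.br (nat_lit 13) (nat_lit 0) (.cons (.rf (nat_lit 726) (nat_lit 21174442659472880612509728)) (.cons (.rf (nat_lit 728) (nat_lit 19926519232773908561233952)) (.cons (.rf (nat_lit 729) (nat_lit 19926519232773908561233952)) .nil)))) .nil))))) (.cons (.br (nat_lit 15) (nat_lit 0) (.cons (.br (nat_lit 13) (nat_lit 0) (.cons (.ev (nat_lit 40723275537072827711841319911427) (nat_lit 2)) (.cons (.ev (nat_lit 40723277954961216314067568951297)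 (nat_lit 2)) (.cons (.br (nat_lit 14) (nat_lit 0) (.cons (.rf (nat_lit 730) (nat_lit 677582165103132179601393696)) (.cons (.br (nat_lit 14) (nat_lit 0) (.cons (.rf (nat_lit 730) (nat_lit 677582165103132179601393696)) .nil)) .nil))) .nil)))) (.cons (.ev (nat_lit 1329227996094400882797209727338021121) (nat_lit 1)) (.cons (.ev (nat_lit 1329227996095609826991510831906160896) (nat_lit 1)) (.cons (.br (nat_lit 13) (nat_lit 0) (.cons (.rf (nat_lit 731) (nat_lit 677582165103132179601393696)) (.cons (.br (nat_lit 13) (nat_lit 0) (.cons (.rf (nat_lit 731) (nat_lit 677582165103132179601393696)) (.cons (.ev (nat_lit 1329248357423895705471411277428490497) (nat_lit 1)) .nil))) (.cons (.br (nat_lit 13) (nat_lit 0) (.cons (.ev (nat_lit 1329248357422686761277110164270416128) (nat_lit 1)) (.cons (.ev (nat_lit 1329248357423895705471411277428490497) (nat_lit 1)) .nil))) .nil)))) .nil))))) (.cons (.br (nat_lit 13) (nat_lit 0) (.cons (.rf (nat_lit 732) (nat_lit 19926519232773908561233952)) (.cons (.rf (nat_lit 733) (nat_lit 19926519232773908561233952))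 (.cons (.br (nat_lit 13) (nat_lit 0) (.cons (.ev (nat_lit 40723275537072827711841319911427) (nat_lit 2)) (.cons (.rf (nat_lit 733) (nat_lit 19926519232773908561233952)) (.cons (.rf (nat_lit 726) (nat_lit 21098958582614275359082528)) .nil)))) (.cons (.br (nat_lit 13) (nat_lit 0) (.cons (.rf (nat_lit 732) (nat_lit 19926519232773908561233952)) (.cons (.rf (nat_lit 733) (nat_lit 19926519232773908561233952)) (.cons (.rf (nat_lit 726) (nat_lit 21098958582614275359082528)) .nil)))) .nil))))) (.cons (.br (nat_lit 13) (nat_lit 0) (.cons (.rf (nat_lit 734) (nat_lit 677582165103132179601393696)) (.cons (.rf (nat_lit 735) (nat_lit 677582165103132179601393696)) (.cons (.br (nat_lit 13) (nat_lit 0) (.cons (.rf (nat_lit 734) (nat_lit 677582165103132179601393696)) (.cons (.rf (nat_lit 735) (nat_lit 677582165103132179601393696)) (.cons (.ev (nat_lit 40723277954961216314067568951297) (nat_lit 2)) .nil)))) (.cons (.br (nat_lit 13) (nat_lit 0) (.cons (.ev (nat_lit 40723275537072827711841319911427) (nat_lit 2)) (.cons (.rf (nat_lit 735) (nat_lit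 677582165103132179601393696)) (.cons (.ev (nat_lit 40723277954961216314067568951297) (nat_lit 2)) .nil)))) .nil))))) .nil)))))) .nil)))))) .nil)))))) .nil)))))) .nil))))))]

theorem c25 : chkAll C T R L25 (nat_lit 709) = true := by decide +kernel

theorem l25 : (nat_lit 709) + L25.length = (nat_lit 737) := by decide +kernel

/-- part of the certificates -/
def L26 : List Prf := [(.br (nat_lit 14) (nat_lit 0) (.cons (.br (nat_lit 15) (nat_lit 0) (.cons (.kr (nat_lit 2658455991569836468174378465199390721) (nat_lit 10384593717069673703805070662959616) (nat_lit 0) (nat_lit 2)) (.cons (.rf (nat_lit 58) (nat_lit 631047566316873953)) .nil))) .nil)),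
 (.br (nat_lit 15) (nat_lit 0) (.cons (.ev (nat_lit 2689731943171448244710695170558263809) (nat_lit 3)) .nil)),
 (.br (nat_lit 12) (nat_lit 0) (.cons (.ev (nat_lit 20362568639065485052662123659776) (nat_lit 2)) (.cons (.br (nat_lit 14) (nat_lit 0) (.cons (.rf (nat_lit 737) (nat_lit 583706118939841765935136)) (.cons (.br (nat_lit 14) (nat_lit 0) (.cons (.rf (nat_lit 737) (nat_lit 583706118939841765935136)) (.cons (.br (nat_lit 15) (nat_lit 0) (.cons (.rf (nat_lit 738) (nat_lit 677582165103132179601393696)) (.cons (.rf (nat_lit 738) (nat_lit 640105464695078675185502240)) .nil))) .nil))) .nil))) .nil))),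
 (.br (nat_lit 15) (nat_lit 0) (.cons (.ev (nat_lit 5337762301457415743973426551773462533) (nat_lit 3)) (.cons (.br (nat_lit 16) (nat_lit 0) (.cons (.ev (nat_lit 1361129549130307341110124252409251496961) (nat_lit 3)) (.cons (.ev (nat_lit 1366446379668133880051071660758908535809) (nat_lit 3)) .nil))) .nil))),
 (.br (nat_lit 12) (nat_lit 0) (.cons (.ev (nat_lit 20362568639065485052662123659776) (nat_lit 2)) (.cons (.br (nat_lit 14) (nat_lit 0) (.cons (.kr (nat_lit 10384593717069673703805070679736321) (nat_lit 40564819212025707612239124496896) (nat_lit 0) (nat_lit 2)) (.cons (.ev (nat_lit 20769504354047737234327413968863237) (nat_lit 3)) (.cons (.br (nat_lit 13) (nat_lit 0) (.cons (.br (nat_lit 15) (nat_lit 0) (.cons (.ev (nat_lit 5337762301457415743973426551773462533) (nat_lit 3)) (.cons (.rf (nat_lit 11) (nat_lit 631047533198738503)) .nil))) (.cons (.br (nat_lit 16) (nat_lit 0) (.cons (.ev (nat_lit 1361129549130307341110124252409251496961) (nat_lit 3)) (.cons (.rf (nat_lit 11) (nat_lit 629954687349730375)) .nil))) (.cons (.br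 (nat_lit 15) (nat_lit 0) (.cons (.rf (nat_lit 740) (nat_lit 19926519232773908561233952)) (.cons (.br (nat_lit 15) (nat_lit 0) (.cons (.rf (nat_lit 740) (nat_lit 19926519232773908561233952)) .nil)) .nil))) .nil)))) .nil)))) .nil))),
 (.br (nat_lit 15) (nat_lit 0) (.cons (.ev (nat_lit 1329268798598100451370177114694418434) (nat_lit 2)) (.cons (.rf (nat_lit 58) (nat_lit 631045369430616299)) .nil))),
 (.br (nat_lit 14) (nat_lit 0) (.cons (.ev (nat_lit 5316993114018440804254926820907942917) (nat_lit 3)) (.cons (.br (nat_lit 16) (nat_lit 0) (.cons (.ev (nat_lit 342940822992667330622996850267218051073) (nat_lit 2)) (.cons (.kr (nat_lit 680564733841876931649115979208175124481) (nat_lit 10384593717069673703805070662959616) (nat_lit 0) (nat_lit 2)) .nil))) .nil))),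
 (.br (nat_lit 14) (nat_lit 0) (.cons (.ev (nat_lit 5316993114018440804254926820907942917) (nat_lit 3)) (.cons (.rf (nat_lit 743) (nat_lit 19926519232773908561233952)) (.cons (.br (nat_lit 14) (nat_lit 0) (.cons (.ev (nat_lit 5316993114018440804254926820907942917) (nat_lit 3)) (.cons (.rf (nat_lit 743) (nat_lit 19926519232773908561233952)) .nil))) .nil)))),
 (.br (nat_lit 14) (nat_lit 0) (.cons (.br (nat_lit 15) (nat_lit 0) (.cons (.kr (nat_lit 1329227995784915872903807060280344576) (nat_lit 340282366920938463463374607431768211456) (nat_lit 15) (nat_lit 0)) (.cons (.br (nat_lit 16) (nat_lit 0) (.cons (.ev (nat_lit 1366446379983808589995057784861300622341) (nat_lit 3)) .nil)) .nil))) (.cons (.br (nat_lit 15) (nat_lit 0) (.cons (.br (nat_lit 16) (nat_lit 0) (.cons (.ev (nat_lit 681894002482640085516808498533174935555) (nat_lit 2)) .nil)) (.cons (.kr (nat_lit 2658455991569836468174378465199390721) (nat_lit 10384593717069673703805070662959616) (nat_lit 0) (nat_lit 2)) .nil))) .nil))),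
 (.br (nat_lit 14) (nat_lit 0) (.cons (.br (nat_lit 15) (nat_lit 0) (.cons (.ev (nat_lit 2668840585905876198559039967350227457) (nat_lit 2)) (.cons (.rf (nat_lit 58) (nat_lit 631047566315826401)) .nil))) .nil)),
 (.br (nat_lit 15) (nat_lit 0) (.cons (.zr (nat_lit 15577129188547055142642774328934656) (nat_lit 3987704269767978048056861797763776514) (nat_lit 8) (nat_lit 13)) .nil)),
 (.br (nat_lit 12) (nat_lit 0) (.cons (.ev (nat_lit 40723277954961216314067568951297) (nat_lit 2)) (.cons (.br (nat_lit 14) (nat_lit 0) (.cons (.rf (nat_lit 746) (nat_lit 583706118939841765935136)) (.cons (.br (nat_lit 14) (nat_lit 0) (.cons (.rf (nat_lit 746) (nat_lit 583706118939841765935136)) (.cons (.br (nat_lit 15) (nat_lit 0) (.cons (.rf (nat_lit 747) (nat_lit 677582165103132179601393696)) (.cons (.rf (nat_lit 747) (nat_lit 640105464695078675185502240)) .nil))) .nil))) .nil))) .nil))),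
 (.br (nat_lit 13) (nat_lit 0) (.cons (.ev (nat_lit 20361947255916569615032146526208) (nat_lit 1)) (.cons (.rf (nat_lit 11) (nat_lit 556665500675964965)) .nil))),
 (.br (nat_lit 15) (nat_lit 0) (.cons (.br (nat_lit 16) (nat_lit 0) (.cons (.zr (nat_lit 3992896646160533622096059386201965312) (nat_lit 88133133032523063245939914997051212955650) (nat_lit 8) (nat_lit 12)) .nil)) .nil)),
 (.br (nat_lit 12) (nat_lit 0) (.cons (.ev (nat_lit 40723277954961216314067568951297) (nat_lit 2)) (.cons (.br (nat_lit 13) (nat_lit 0) (.cons (.ev (nat_lit 10425159155251756092273741325664771) (nat_lit 2)) (.cons (.br (nat_lit 14) (nat_lit 0) (.cons (.kr (nat_lit 1329248278195728450465903230744264960) (nat_lit 5192376396182351714214258109644800) (nat_lit 1) (nat_lit 0)) (.cons (.rf (nat_lit 749) (nat_lit 19459491438255770079297)) .nil))) (.cons (.br (nat_lit 14) (nat_lit 0) (.cons (.br (nat_lit 15) (nat_lit 0) (.cons (.ev (nat_lit 16023509714778662780377844180456964109) (nat_lit 4)) (.cons (.rf (nat_lit 70) (nat_lit 631046501326466273)) .nil))) (.cons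 (.br (nat_lit 16) (nat_lit 0) (.cons (.ev (nat_lit 340282387282576229647828453219111076097) (nat_lit 1)) (.cons (.rf (nat_lit 11) (nat_lit 629954687383283783)) .nil))) (.cons (.br (nat_lit 15) (nat_lit 0) (.cons (.rf (nat_lit 750) (nat_lit 677582165103132179601393696)) (.cons (.br (nat_lit 15) (nat_lit 0) (.cons (.rf (nat_lit 750) (nat_lit 677582165103132179601393696)) .nil)) .nil))) .nil)))) .nil)))) .nil))),
 (.br (nat_lit 15) (nat_lit 0) (.cons (.ev (nat_lit 2658456150028579403683080293660622851) (nat_lit 2)) (.cons (.rf (nat_lit 58) (nat_lit 631045369430617322)) .nil))),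
 (.br (nat_lit 16) (nat_lit 0) (.cons (.kr (nat_lit 680564733841876931667562723286179643393) (nat_lit 40564821625155124192340927840768) (nat_lit 0) (nat_lit 2)) (.cons (.ev (nat_lit 680564734000335674584624681036636356611) (nat_lit 2)) (.cons (.ev (nat_lit 680575118436212971379500640710325961217) (nat_lit 2)) .nil)))),
 (.br (nat_lit 14) (nat_lit 0) (.cons (.kr (nat_lit 2658455991569836486621122543203909633) (nat_lit 40564821625155124192340927840768) (nat_lit 0) (nat_lit 2)) (.cons (.br (nat_lit 14) (nat_lit 0) (.cons (.kr (nat_lit 2658455991569836486621122543203909633) (nat_lit 40564821625155124192340927840768) (nat_lit 0) (nat_lit 2)) (.cons (.rf (nat_lit 753) (nat_lit 677582165103132179601393696)) .nil))) (.cons (.br (nat_lit 14) (nat_lit 0) (.cons (.kr (nat_lit 2658455991569836486621122543203909633) (nat_lit 40564821625155124192340927840768) (nat_lit 0) (nat_lit 2)) (.cons (.rf (nat_lit 753) (nat_lit 677582165103132179601393696)) .nil))) .nil)))),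
 (.br (nat_lit 14) (nat_lit 0) (.cons (.rf (nat_lit 499) (nat_lit 20678166658367055013089)) (.cons (.rf (nat_lit 753) (nat_lit 676411018215380507588397088)) .nil))),
 (.br (nat_lit 10) (nat_lit 0) (.cons (.kr (nat_lit 2417851783344446442045441) (nat_lit 4740813508422626443776) (nat_lit 0) (nat_lit 2)) (.cons (.ev (nat_lit 20282720302309677866514812764161) (nat_lit 1)) (.cons (.br (nat_lit 12) (nat_lit 0) (.cons (.rf (nat_lit 748) (nat_lit 17022140995484340291616)) (.cons (.rf (nat_lit 751) (nat_lit 17022140995484340291616)) (.cons (.br (nat_lit 12) (nat_lit 0) (.cons (.rf (nat_lit 748) (nat_lit 17022140995484340291616)) (.cons (.rf (nat_lit 751) (nat_lit 17022140995484340291616)) (.cons (.br (nat_lit 13) (nat_lit 0) (.cons (.br (nat_lit 14) (nat_lit 0) (.cons (.rf (nat_lit 752) (nat_lit 19926519232773908561233952)) (.cons (.rf (nat_lit 752) (nat_lit 18755372345022236548237344)) (.cons (.br (nat_lit 15) (nat_lit 0) (.cons (.br (nat_lit 15) (nat_lit 0) (.cons (.zr (nat_lit 31154258377094110285285548657868800) (nat_lit 7975408539533542985143887571711950851)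 (nat_lit 16) (nat_lit 13)) .nil)) (.cons (.br (nat_lit 15) (nat_lit 0) (.cons (.zr (nat_lit 31154258377094110285285548657868800) (nat_lit 7975408539533542985143887571711950851) (nat_lit 16) (nat_lit 13)) .nil)) .nil))) .nil)))) (.cons (.rf (nat_lit 754) (nat_lit 19926519232773908561233952)) (.cons (.rf (nat_lit 754) (nat_lit 18755372345022236548237344)) (.cons (.br (nat_lit 14) (nat_lit 0) (.cons (.rf (nat_lit 755) (nat_lit 677582165103132179601393696)) (.cons (.rf (nat_lit 755) (nat_lit 676411018215380507588397088)) (.cons (.br (nat_lit 14) (nat_lit 0) (.cons (.rf (nat_lit 753) (nat_lit 676411018215380507588397088)) (.cons (.rf (nat_lit 753) (nat_lit 677582165103132179601393696)) .nil))) .nil)))) .nil))))) .nil)))) .nil)))) .nil)))),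
 (.br (nat_lit 14) (nat_lit 0) (.cons (.br (nat_lit 15) (nat_lit 0) (.cons (.kr (nat_lit 2658455991569836468174378465199390721) (nat_lit 10384593717069673703805070662959616) (nat_lit 0) (nat_lit 2)) (.cons (.rf (nat_lit 180) (nat_lit 631045402924483746)) .nil))) .nil)),
 (.br (nat_lit 15) (nat_lit 0) (.cons (.ev (nat_lit 1344865971586930677839421167894725378) (nat_lit 2)) .nil)),
 (.br (nat_lit 14) (nat_lit 0) (.cons (.br (nat_lit 15) (nat_lit 0) (.cons (.ev (nat_lit 2668881308562438473891824013175554561) (nat_lit 2)) (.cons (.rf (nat_lit 239) (nat_lit 631047566315990081)) .nil))) .nil)),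
 (.br (nat_lit 15) (nat_lit 0) (.cons (.zr (nat_lit 3987684225967690190968472466182308096) (nat_lit 15597172988834912231032105910403074) (nat_lit 8) (nat_lit 13)) .nil)),
 (.br (nat_lit 14) (nat_lit 0) (.cons (.br (nat_lit 15) (nat_lit 0) (.cons (.ev (nat_lit 340282387282577443277567524065421295873) (nat_lit 1)) .nil)) .nil)),
 (.br (nat_lit 16) (nat_lit 0) (.cons (.ev (nat_lit 680564774407315109027583864653660291073) (nat_lit 2)) (.cons (.ev (nat_lit 680564774407317526842185490585071124483) (nat_lit 2)) (.cons (.kr (nat_lit 10384593719487507040405439100485633) (nat_lit 174224571863520493297988612513487950709248) (nat_lit 0) (nat_lit 2)) .nil)))),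
 (.br (nat_lit 14) (nat_lit 0) (.cons (.ev (nat_lit 2679468729480066224266353348872113157) (nat_lit 4)) (.cons (.br (nat_lit 15) (nat_lit 0) (.cons (.ev (nat_lit 680564774407317526842185490585071124483) (nat_lit 2)) (.cons (.rf (nat_lit 762) (nat_lit 677582165103132179601393696)) .nil))) .nil))),
 (.br (nat_lit 15) (nat_lit 0) (.cons (.ev (nat_lit 340282387282577438555201041200087826688) (nat_lit 1)) .nil)),
 (.br (nat_lit 14) (nat_lit 0) (.cons (.br (nat_lit 15) (nat_lit 0) (.cons (.kr (nat_lit 680564733841876931649115979208175124481) (nat_lit 10384593717069673703805070662959616) (nat_lit 0) (nat_lit 2)) (.cons (.rf (nat_lit 764) (nat_lit 21174442659472845144426528)) .nil))) (.cons (.br (nat_lit 15) (nat_lit 0) (.cons (.br (nat_lit 16) (nat_lit 0) (.cons (.ev (nat_lit 1363788004965277757923223058853608424451) (nat_lit 3)) .nil)) (.cons (.ev (nat_lit 174224571904085933893163235280786858967043) (nat_lit 2)) .nil))) .nil))),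
 (.br (nat_lit 14) (nat_lit 0) (.cons (.rf (nat_lit 765) (nat_lit 677582165103132179601393696)) (.cons (.br (nat_lit 15) (nat_lit 0) (.cons (.rf (nat_lit 762) (nat_lit 640105464695078675185502240)) (.cons (.ev (nat_lit 174224571904085933893163235280786858967043) (nat_lit 2)) .nil))) .nil))),
 (.br (nat_lit 11) (nat_lit 0) (.cons (.kr (nat_lit 2417851783344446442045441) (nat_lit 4740813508422626443776) (nat_lit 0) (nat_lit 2)) (.cons (.ev (nat_lit 618974797493801895587741699) (nat_lit 2)) (.cons (.ev (nat_lit 20282719093402377335028345471233) (nat_lit 1)) (.cons (.br (nat_lit 10) (nat_lit 0) (.cons (.ev (nat_lit 79228162532783140360803123201) (nat_lit 1)) (.cons (.br (nat_lit 12) (nat_lit 0) (.cons (.ev (nat_lit 40725134865020576167111371653125) (nat_lit 3)) (.cons (.br (nat_lit 14) (nat_lit 0) (.cons (.rf (nat_lit 757) (nat_lit 583706118939841765935136)) (.cons (.br (nat_lit 14) (nat_lit 0) (.cons (.rf (nat_lit 757) (nat_lit 583706118939841765935136)) (.cons (.br (nat_lit 15) (nat_lit 0) (.cons (.rf (nat_lit 758) (nat_lit 677582165103132179601393696))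 (.cons (.rf (nat_lit 758) (nat_lit 640105464695078675185502240)) .nil))) .nil))) .nil))) .nil))) (.cons (.ev (nat_lit 621392612095427827065683969) (nat_lit 2)) (.cons (.br (nat_lit 12) (nat_lit 0) (.cons (.br (nat_lit 14) (nat_lit 0) (.cons (.rf (nat_lit 759) (nat_lit 583706118939841765935136)) (.cons (.br (nat_lit 14) (nat_lit 0) (.cons (.rf (nat_lit 759) (nat_lit 583706118939841765935136)) (.cons (.br (nat_lit 15) (nat_lit 0) (.cons (.rf (nat_lit 760) (nat_lit 677582165103132179601393696)) (.cons (.rf (nat_lit 760) (nat_lit 640105464695078675185502240)) .nil))) .nil))) .nil))) (.cons (.br (nat_lit 14) (nat_lit 0) (.cons (.kr (nat_lit 10384593717069673703805070679736321) (nat_lit 40564819212025707612239124496896) (nat_lit 0) (nat_lit 2)) (.cons (.ev (nat_lit 5192297169228781716234267955036416) (nat_lit 1)) (.cons (.br (nat_lit 13) (nat_lit 0) (.cons (.br (nat_lit 15) (nat_lit 0) (.cons (.ev (nat_lit 2668881308562438473891824013175554561) (nat_lit 2)) (.cons (.rf (nat_lit 166) (nat_lit 631047566316112097)) .nil))) (.cons (.br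 (nat_lit 16) (nat_lit 0) (.cons (.ev (nat_lit 680564774407317526842185490585071124483) (nat_lit 2)) (.cons (.rf (nat_lit 175) (nat_lit 629888647841547426)) .nil))) (.cons (.br (nat_lit 15) (nat_lit 0) (.cons (.rf (nat_lit 761) (nat_lit 21174442659472880612509728)) (.cons (.br (nat_lit 15) (nat_lit 0) (.cons (.rf (nat_lit 761) (nat_lit 21174442659472880612509728)) .nil)) .nil))) .nil)))) .nil)))) (.cons (.br (nat_lit 13) (nat_lit 0) (.cons (.br (nat_lit 14) (nat_lit 0) (.cons (.kr (nat_lit 5212579269347405190626666793140480) (nat_lit 1329228075322563396989490822060769280) (nat_lit 1) (nat_lit 0)) (.cons (.br (nat_lit 15) (nat_lit 0) (.cons (.ev (nat_lit 2668881308562438473891824013175554561) (nat_lit 2)) (.cons (.rf (nat_lit 166) (nat_lit 596110584344545505)) .nil))) .nil))) (.cons (.ev (nat_lit 1329248357423890964658184334056947713) (nat_lit 1)) (.cons (.br (nat_lit 14) (nat_lit 0) (.cons (.br (nat_lit 14) (nat_lit 0) (.cons (.ev (nat_lit 2679468729480066224266353348872113157) (nat_lit 4)) (.cons (.rf (nat_lit 167) (nat_lit 631013481456666849))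 .nil))) (.cons (.rf (nat_lit 763) (nat_lit 19926519232773908561233952)) (.cons (.br (nat_lit 14) (nat_lit 0) (.cons (.rf (nat_lit 167) (nat_lit 631013481456666849)) (.cons (.rf (nat_lit 763) (nat_lit 19926519232773908561233952)) .nil))) .nil)))) .nil)))) (.cons (.br (nat_lit 13) (nat_lit 0) (.cons (.br (nat_lit 14) (nat_lit 0) (.cons (.kr (nat_lit 40564821629877490956685566541825) (nat_lit 10384593717069710597293226671997440) (nat_lit 0) (nat_lit 2)) (.cons (.br (nat_lit 16) (nat_lit 0) (.cons (.ev (nat_lit 340287579500517295896761265646957756673) (nat_lit 1)) (.cons (.rf (nat_lit 175) (nat_lit 629888681060436193)) .nil))) (.cons (.br (nat_lit 15) (nat_lit 0) (.cons (.br (nat_lit 15) (nat_lit 0) (.cons (.ev (nat_lit 2668881308564856362280426222244725251) (nat_lit 2)) .nil)) (.cons (.br (nat_lit 15) (nat_lit 0) (.cons (.ev (nat_lit 2668881308564856362280426222244725251) (nat_lit 2)) .nil)) .nil))) .nil)))) (.cons (.br (nat_lit 15) (nat_lit 0) (.cons (.br (nat_lit 14) (nat_lit 0) (.cons (.ev (nat_lit 2668881308564856362280426222244725251)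 (nat_lit 2)) (.cons (.rf (nat_lit 167) (nat_lit 631013448237778082)) .nil))) (.cons (.ev (nat_lit 1329248357422682057357371368351531008) (nat_lit 1)) (.cons (.br (nat_lit 14) (nat_lit 0) (.cons (.br (nat_lit 14) (nat_lit 0) (.cons (.zr (nat_lit 3987684225967690190968472466182307840) (nat_lit 15597172987626004786103960685510913) (nat_lit 8) (nat_lit 13)) .nil)) (.cons (.br (nat_lit 14) (nat_lit 0) (.cons (.zr (nat_lit 3987684225967690190968472466182307840) (nat_lit 15597172987626004786103960685510913) (nat_lit 8) (nat_lit 13)) .nil)) .nil))) .nil)))) (.cons (.br (nat_lit 16) (nat_lit 0) (.cons (.ev (nat_lit 680564774407315109027583864653660291073) (nat_lit 2)) (.cons (.kr (nat_lit 340282366920938463481821351509772730368) (nat_lit 20282410812577562096170463920128) (nat_lit 4) (nat_lit 0)) (.cons (.br (nat_lit 14) (nat_lit 0) (.cons (.br (nat_lit 14) (nat_lit 0) (.cons (.ev (nat_lit 340287579500517295896761265646957756673) (nat_lit 1)) .nil)) (.cons (.br (nat_lit 14) (nat_lit 0) (.cons (.ev (nat_lit 340287579500517295896761265646957756673)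 (nat_lit 1)) .nil)) .nil))) .nil)))) (.cons (.br (nat_lit 14) (nat_lit 0) (.cons (.rf (nat_lit 765) (nat_lit 677582165103132179601393696)) (.cons (.rf (nat_lit 766) (nat_lit 677582165103132179601393696)) (.cons (.br (nat_lit 14) (nat_lit 0) (.cons (.rf (nat_lit 765) (nat_lit 677582165103132179601393696)) (.cons (.rf (nat_lit 766) (nat_lit 677582165103132179601393696)) .nil))) .nil)))) .nil))))) .nil))))) .nil))))) .nil)))))]

theorem c26 : chkAll C T R L26 (nat_lit 737) = true := by decide +kernel

theorem l26 : (nat_lit 737) + L26.length = (nat_lit 768) := by decide +kernel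

end Pool.Agent.H93.Neg.N18_6_0
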