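import Pool.Agent.H93.Neg.TabN18_6_0

/-!
Certificates.
-/

set_option autoImplicit false
set_option maxRecDepth 100000
set_option linter.all false

namespace Pool.Agent.H93.Neg.N18_6_0

/-- part of the certificates -/
def L27 : List Prf := [(.br (nat_lit 13) (nat_lit 0) (.cons (.rf (nat_lit 249) (nat_lit 583668134234709347674406)) .nil)),
 (.br (nat_lit 15) (nat_lit 0) (.cons (.ev (nat_lit 1344865971584512789450818958825554688) (nat_lit 2)) .nil)),
 (.br (nat_lit 15) (nat_lit 0) (.cons (.br (nat_lit 16) (nat_lit 0) (.cons (.zr (nat_lit 87112291144419052451516751198116510760960) (nat_lit 341611594916727006150846919317695496448) (nat_lit 8) (nat_lit 11)) .nil)) .nil)),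
 (.br (nat_lit 12) (nat_lit 0) (.cons (.br (nat_lit 14) (nat_lit 0) (.cons (.ev (nat_lit 5212658496301012082094804400406528) (nat_lit 1)) (.cons (.br (nat_lit 15) (nat_lit 0) (.cons (.ev (nat_lit 2668881308562438473891824013175554561) (nat_lit 2)) (.cons (.rf (nat_lit 284) (nat_lit 630940984746939466)) .nil))) .nil))) (.cons (.br (nat_lit 14) (nat_lit 0) (.cons (.br (nat_lit 15) (nat_lit 0) (.cons (.ev (nat_lit 2700076607137386527092432933921622531) (nat_lit 4)) (.cons (.rf (nat_lit 284) (nat_lit 631011351353070657)) .nil))) (.cons (.ev (nat_lit 5212658496301012082094804400406528) (nat_lit 1)) (.cons (.br (nat_lit 15) (nat_lit 0) (.cons (.rf (nat_lit 770) (nat_lit 677582165103132179601393696)) (.cons (.br (nat_lit 15) (nat_lit 0) (.cons (.rf (nat_lit 770) (nat_lit 677582165103132179601393696)) .nil)) .nil))) .nil)))) .nil))),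
 (.br (nat_lit 15) (nat_lit 0) (.cons (.ev (nat_lit 1329227996095609826991510831906160896) (nat_lit 1)) (.cons (.ev (nat_lit 680564734000335674584624681036636356611) (nat_lit 2)) (.cons (.br (nat_lit 16) (nat_lit 0) (.cons (.ev (nat_lit 341611594995952750776362649289272393985) (nat_lit 1)) .nil)) .nil)))),
 (.br (nat_lit 12) (nat_lit 0) (.cons (.rf (nat_lit 771) (nat_lit 583706118939841765935136)) (.cons (.br (nat_lit 14) (nat_lit 0) (.cons (.ev (nat_lit 1329227996095614530911531107096723713) (nat_lit 1)) (.cons (.rf (nat_lit 772) (nat_lit 19926519232773908561233952)) (.cons (.br (nat_lit 14) (nat_lit 0) (.cons (.ev (nat_lit 1329227996095609826991510831906160896) (nat_lit 1)) (.cons (.rf (nat_lit 772) (nat_lit 19926519232773908561233952)) .nil))) .nil)))) .nil))),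
 (.br (nat_lit 15) (nat_lit 0) (.cons (.kr (nat_lit 680564733841876931649115979208175124481) (nat_lit 2658455991569831764254358198565208576) (nat_lit 0) (nat_lit 2)) (.cons (.ev (nat_lit 2668881308562438473891824013175554561) (nat_lit 2)) .nil))),
 (.br (nat_lit 14) (nat_lit 0) (.cons (.rf (nat_lit 774) (nat_lit 677582165103132179601393696)) (.cons (.rf (nat_lit 774) (nat_lit 640105464695078675185502240)) .nil))),
 (.br (nat_lit 14) (nat_lit 0) (.cons (.rf (nat_lit 775) (nat_lit 677582165103132179601393696)) (.cons (.br (nat_lit 16) (nat_lit 0) (.cons (.br (nat_lit 15) (nat_lit 0) (.cons (.ev (nat_lit 2700075975787966343976783149411994123) (nat_lit 4)) .nil)) (.cons (.ev (nat_lit 680564734000335674584624681036636356611) (nat_lit 2)) .nil))) .nil))),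
 (.br (nat_lit 10) (nat_lit 0) (.cons (.ev (nat_lit 20282719093402377053557663727616) (nat_lit 1)) (.cons (.rf (nat_lit 767) (nat_lit 493854817895902614563)) (.cons (.br (nat_lit 11) (nat_lit 0) (.cons (.br (nat_lit 12) (nat_lit 0) (.cons (.ev (nat_lit 79229376180897180269880082688) (nat_lit 1)) (.cons (.br (nat_lit 14) (nat_lit 0) (.cons (.rf (nat_lit 768) (nat_lit 18240816216834587068448)) (.cons (.br (nat_lit 14) (nat_lit 0) (.cons (.rf (nat_lit 768) (nat_lit 18240816216834587068448)) (.cons (.br (nat_lit 15) (nat_lit 0) (.cons (.rf (nat_lit 769) (nat_lit 677582165103132179601393696)) (.cons (.rf (nat_lit 769) (nat_lit 640105464695078675185502240)) .nil))) .nil))) .nil))) .nil))) (.cons (.ev (nat_lit 621392612095427827065683969) (nat_lit 2)) (.cons (.br (nat_lit 12) (nat_lit 0) (.cons (.rf (nat_lit 771) (nat_lit 583706118939841765935136)) (.cons (.rf (nat_lit 773) (nat_lit 583706118939841765935136)) (.cons (.br (nat_lit 12) (nat_lit 0) (.cons (.rf (nat_lit 771) (nat_lit 583706118939841765935136)) (.cons (.rf (nat_lit 773)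 (nat_lit 583706118939841765935136)) (.cons (.br (nat_lit 14) (nat_lit 0) (.cons (.rf (nat_lit 775) (nat_lit 677582165103132179601393696)) (.cons (.rf (nat_lit 776) (nat_lit 677582165103132179601393696)) (.cons (.rf (nat_lit 776) (nat_lit 640105464695078675185502240)) .nil)))) .nil)))) .nil)))) .nil)))) .nil)))),
 (.br (nat_lit 15) (nat_lit 0) (.cons (.br (nat_lit 16) (nat_lit 0) (.cons (.zr (nat_lit 1020852313421621176393508460500665565952) (nat_lit 261338187023276526064670493986881512931330) (nat_lit 8) (nat_lit 12)) .nil)) .nil)),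
 (.br (nat_lit 12) (nat_lit 0) (.cons (.br (nat_lit 15) (nat_lit 0) (.cons (.ev (nat_lit 2668881308563647381336752158333337602) (nat_lit 2)) (.cons (.rf (nat_lit 239) (nat_lit 631045402894959842)) .nil))) .nil)),
 (.br (nat_lit 15) (nat_lit 0) (.cons (.zr (nat_lit 15577129188547055142642774328934400) (nat_lit 3987704269765560233167005507313992448) (nat_lit 8) (nat_lit 13)) .nil)),
 (.br (nat_lit 12) (nat_lit 0) (.cons (.br (nat_lit 15) (nat_lit 0) (.cons (.ev (nat_lit 2668840585905876198559039967350227457) (nat_lit 2)) (.cons (.rf (nat_lit 167) (nat_lit 631045402894834850)) .nil))) (.cons (.ev (nat_lit 5212658496301012082094804400406528) (nat_lit 1)) (.cons (.br (nat_lit 15) (nat_lit 0) (.cons (.br (nat_lit 15) (nat_lit 0) (.cons (.zr (nat_lit 31154258377094110285285548657868800) (nat_lit 7975408539532329373778939159852876801) (nat_lit 16) (nat_lit 13)) .nil)) (.cons (.br (nat_lit 15) (nat_lit 0) (.cons (.zr (nat_lit 31154258377094110285285548657868800) (nat_lit 7975408539532329373778939159852876801) (nat_lit 16) (nat_lit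 13)) .nil)) .nil))) .nil)))),
 (.br (nat_lit 15) (nat_lit 0) (.cons (.kr (nat_lit 2658455991569831764254358198581985281) (nat_lit 40564819212025707612239124496896) (nat_lit 0) (nat_lit 2)) (.cons (.ev (nat_lit 2668840585905876198559039967350227457) (nat_lit 2)) (.cons (.br (nat_lit 12) (nat_lit 0) (.cons (.rf (nat_lit 167) (nat_lit 631045402894834850)) (.cons (.br (nat_lit 13) (nat_lit 0) (.cons (.ev (nat_lit 680575159160726443787692586642891211779) (nat_lit 3)) (.cons (.rf (nat_lit 255) (nat_lit 661701332896290737197121)) .nil))) (.cons (.ev (nat_lit 2658456150027365718819385945935183873) (nat_lit 2)) .nil)))) .nil)))),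
 (.br (nat_lit 12) (nat_lit 0) (.cons (.ev (nat_lit 5212658496301012082094804400406528) (nat_lit 1)) (.cons (.rf (nat_lit 782) (nat_lit 19926519232773908561233952)) (.cons (.br (nat_lit 16) (nat_lit 0) (.cons (.kr (nat_lit 680564733841876926945195958941557719041) (nat_lit 40564820416229232520117715206656) (nat_lit 0) (nat_lit 2)) (.cons (.ev (nat_lit 680575118436214175583025548588916670977) (nat_lit 2)) (.cons (.ev (nat_lit 680564734000333256696236078810320207873) (nat_lit 2)) .nil)))) .nil)))),
 (.br (nat_lit 14) (nat_lit 0) (.cons (.br (nat_lit 15) (nat_lit 0) (.cons (.kr (nat_lit 10384593717069673704086541344702465) (nat_lit 2658455991569836468174096994517647360) (nat_lit 0) (nat_lit 1)) (.cons (.rf (nat_lit 239) (nat_lit 631047566316117057)) .nil))) .nil)),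
 (.br (nat_lit 15) (nat_lit 0) (.cons (.ev (nat_lit 2689691219279363744980698316126027777) (nat_lit 3)) .nil)),
 (.br (nat_lit 14) (nat_lit 0) (.cons (.br (nat_lit 15) (nat_lit 0) (.cons (.ev (nat_lit 2668881308562438473891824013175554561) (nat_lit 2)) (.cons (.rf (nat_lit 167) (nat_lit 631047533231309986)) .nil))) (.cons (.br (nat_lit 16) (nat_lit 0) (.cons (.ev (nat_lit 2041714971189055287899557725426260771333) (nat_lit 3)) (.cons (.rf (nat_lit 175) (nat_lit 629888681060305249)) .nil))) (.cons (.br (nat_lit 15) (nat_lit 0) (.cons (.br (nat_lit 15) (nat_lit 0) (.cons (.ev (nat_lit 2668881308564856362280426222244725251) (nat_lit 2)) .nil)) (.cons (.br (nat_lit 15) (nat_lit 0) (.cons (.ev (nat_lit 2668881308564856362280426222244725251) (nat_lit 2)) .nil)) .nil))) .nil)))),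
 (.br (nat_lit 14) (nat_lit 0) (.cons (.br (nat_lit 15) (nat_lit 0) (.cons (.zr (nat_lit 174224592673431821958521659727141767610880) (nat_lit 2041694201525638034354044422016529858561) (nat_lit 16) (nat_lit 11)) .nil)) .nil)),
 (.br (nat_lit 13) (nat_lit 0) (.cons (.ev (nat_lit 20361947251194202851787036164096) (nat_lit 1)) .nil)),
 (.br (nat_lit 14) (nat_lit 0) (.cons (.br (nat_lit 15) (nat_lit 0) (.cons (.kr (nat_lit 10384593717069673704086541344702465) (nat_lit 2658455991569836468174096994517647360) (nat_lit 0) (nat_lit 1)) (.cons (.rf (nat_lit 788) (nat_lit 20678166659641450336321)) .nil))) (.cons (.br (nat_lit 15) (nat_lit 0) (.cons (.rf (nat_lit 788) (nat_lit 20677049766827665825857)) (.cons (.kr (nat_lit 87112285931760246646642346246610666651648) (nat_lit 20282410812577562096170463920128) (nat_lit 4) (nat_lit 0)) .nil))) .nil))),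
 (.br (nat_lit 14) (nat_lit 0) (.cons (.rf (nat_lit 789) (nat_lit 677582165103132179601393696)) (.cons (.br (nat_lit 15) (nat_lit 0) (.cons (.ev (nat_lit 2041715052318693702506239421215333024257) (nat_lit 3)) (.cons (.kr (nat_lit 87112285931760246646642346246610666651648) (nat_lit 20282410812577562096170463920128) (nat_lit 4) (nat_lit 0)) .nil))) .nil))),
 (.br (nat_lit 14) (nat_lit 0) (.cons (.ev (nat_lit 5212579577623489192639680831619073) (nat_lit 1)) (.cons (.rf (nat_lit 284) (nat_lit 593820335038862401)) .nil))),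
 (.br (nat_lit 15) (nat_lit 0) (.cons (.ev (nat_lit 40565439386304359557668714577921) (nat_lit 2)) (.cons (.ev (nat_lit 10384752175817313132527165758373891) (nat_lit 2)) (.cons (.ev (nat_lit 680564734000335674584624681036636356611) (nat_lit 2)) (.cons (.br (nat_lit 15) (nat_lit 0) (.cons (.ev (nat_lit 40565439386304359557668714577921) (nat_lit 2)) (.cons (.ev (nat_lit 10384752175817313132527165758373891) (nat_lit 2)) (.cons (.ev (nat_lit 680564734000335674584624681036636356611) (nat_lit 2)) .nil)))) .nil))))),
 (.br (nat_lit 14) (nat_lit 0) (.cons (.br (nat_lit 14) (nat_lit 0) (.cons (.ev (nat_lit 5212579577628211486783485773938688) (nat_lit 1)) .nil)) (.cons (.br (nat_lit 14) (nat_lit 0) (.cons (.ev (nat_lit 5212579577628211486783485773938688) (nat_lit 1)) .nil)) .nil))),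
 (.br (nat_lit 12) (nat_lit 0) (.cons (.br (nat_lit 14) (nat_lit 0) (.cons (.kr (nat_lit 10384593717069673704086541344702465) (nat_lit 2658455991569836468174096994517647360) (nat_lit 0) (nat_lit 1)) (.cons (.br (nat_lit 15) (nat_lit 0) (.cons (.ev (nat_lit 2689690903604653653422873423871213573) (nat_lit 3)) (.cons (.rf (nat_lit 284) (nat_lit 630940984713516103)) .nil))) .nil))) (.cons (.br (nat_lit 14) (nat_lit 0) (.cons (.rf (nat_lit 791) (nat_lit 622703726024184607901728)) (.cons (.rf (nat_lit 792) (nat_lit 19926519232773908561233952)) (.cons (.rf (nat_lit 793) (nat_lit 21174442659471745632798752)) .nil)))) .nil))),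
 (.br (nat_lit 16) (nat_lit 0) (.cons (.br (nat_lit 14) (nat_lit 0) (.cons (.kr (nat_lit 10384593717069673704086541344702465) (nat_lit 2658455991569836468174096994517647360) (nat_lit 0) (nat_lit 1)) (.cons (.br (nat_lit 15) (nat_lit 0) (.cons (.ev (nat_lit 2689690903604653653422873423871213573) (nat_lit 3)) .nil)) .nil))) (.cons (.ev (nat_lit 680564734000333256696236078810320207873) (nat_lit 2)) .nil))),
 (.br (nat_lit 15) (nat_lit 0) (.cons (.kr (nat_lit 10384593717069673704086541344702465) (nat_lit 2658455991569836468174096994517647360) (nat_lit 0) (nat_lit 1)) (.cons (.br (nat_lit 16) (nat_lit 0) (.cons (.ev (nat_lit 2730307198483898414025605988410493895687) (nat_lit 4)) .nil)) .nil))),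
 (.br (nat_lit 14) (nat_lit 0) (.cons (.rf (nat_lit 796) (nat_lit 677582165103132179601393696)) (.cons (.br (nat_lit 15) (nat_lit 0) (.cons (.rf (nat_lit 796) (nat_lit 677545566759402395171558435)) (.cons (.kr (nat_lit 10384593717069673704086541344702465) (nat_lit 2658455991569836468174096994517647360) (nat_lit 0) (nat_lit 1)) .nil))) .nil))),
 (.br (nat_lit 14) (nat_lit 0) (.cons (.rf (nat_lit 797) (nat_lit 677582165103132179601393696)) (.cons (.br (nat_lit 16) (nat_lit 0) (.cons (.br (nat_lit 15) (nat_lit 0) (.cons (.ev (nat_lit 1363819077457715257271036355499050139653) (nat_lit 3)) .nil)) (.cons (.kr (nat_lit 174224571863520493297970165769409962967041) (nat_lit 680564733841876926945195958941540942336) (nat_lit 0) (nat_lit 2)) .nil))) .nil))),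
 (.br (nat_lit 12) (nat_lit 0) (.cons (.ev (nat_lit 40723275537072827711841319911427) (nat_lit 2)) (.cons (.ev (nat_lit 40723277954961216314067568951297) (nat_lit 2)) (.cons (.br (nat_lit 16) (nat_lit 0) (.cons (.ev (nat_lit 340282366921247948473268010098825888001) (nat_lit 1)) (.cons (.ev (nat_lit 340282366921249162121382331478584590593) (nat_lit 1)) (.cons (.br (nat_lit 14) (nat_lit 0) (.cons (.br (nat_lit 14) (nat_lit 0) (.cons (.zr (nat_lit 680564794689108155733543831151715550208) (nat_lit 10384673254717197789770303141904386) (nat_lit 8) (nat_lit 12)) .nil)) (.cons (.br (nat_lit 14) (nat_lit 0) (.cons (.zr (nat_lit 680564794689108155733543831151715550208) (nat_lit 10384673254717197789770303141904386) (nat_lit 8) (nat_lit 12)) .nil)) .nil))) .nil)))) (.cons (.br (nat_lit 14) (nat_lit 0) (.cons (.rf (nat_lit 797) (nat_lit 677582165103132179601393696)) (.cons (.rf (nat_lit 798) (nat_lit 677582165103132179601393696)) (.cons (.br (nat_lit 14) (nat_lit 0) (.cons (.rf (nat_lit 797) (nat_lit 677582165103132179601393696)) (.cons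 (.rf (nat_lit 798) (nat_lit 677582165103132179601393696)) .nil))) .nil)))) .nil)))))]

theorem c27 : chkAll C T R L27 (nat_lit 768) = true := by decide +kernel

theorem l27 : (nat_lit 768) + L27.length = (nat_lit 800) := by decide +kernel

/-- part of the certificates -/
def L28 : List Prf := [(.br (nat_lit 15) (nat_lit 0) (.cons (.ev (nat_lit 1334440575362539362096445641617047553) (nat_lit 1)) (.cons (.ev (nat_lit 7985752885346473319401234665719464961) (nat_lit 3)) (.cons (.br (nat_lit 16) (nat_lit 0) (.cons (.ev (nat_lit 340282387282577443295942211648916357377) (nat_lit 1)) (.cons (.ev (nat_lit 683233574585620158097300190982175851011) (nat_lit 2)) .nil))) .nil)))),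
 (.br (nat_lit 15) (nat_lit 0) (.cons (.ev (nat_lit 681899215219436103439976833707919016705) (nat_lit 2)) .nil)),
 (.br (nat_lit 9) (nat_lit 0) (.cons (.br (nat_lit 9) (nat_lit 0) .nil) .nil)),
 (.br (nat_lit 12) (nat_lit 0) (.cons (.ev (nat_lit 40723275537072827711841319911427) (nat_lit 2)) (.cons (.br (nat_lit 14) (nat_lit 0) (.cons (.br (nat_lit 15) (nat_lit 0) (.cons (.ev (nat_lit 1334440575363748306290746754741567488) (nat_lit 1)) (.cons (.rf (nat_lit 214) (nat_lit 631045402794460322)) .nil))) (.cons (.kr (nat_lit 10384593717069673704086541344702465) (nat_lit 2658455991569836468174096994517647360) (nat_lit 0) (nat_lit 1)) (.cons (.rf (nat_lit 800) (nat_lit 19926519232773908561233952)) (.cons (.br (nat_lit 15) (nat_lit 0) (.cons (.rf (nat_lit 214) (nat_lit 631010252882674850)) (.cons (.rf (nat_lit 800) (nat_lit 19889920889044124131398691)) (.cons (.ev (nat_lit 7985752885346473319401234665719464961) (nat_lit 3)) .nil)))) .nil))))) (.cons (.br (nat_lit 16) (nat_lit 0) (.cons (.kr (nat_lit 680564733841876926945195958941557719041)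 (nat_lit 40564819212025707612239124496896) (nat_lit 0) (nat_lit 2)) (.cons (.ev (nat_lit 340282366921247953214081518512879173888) (nat_lit 1)) (.cons (.ev (nat_lit 340282366921249162121382331478584590593) (nat_lit 1)) (.cons (.br (nat_lit 13) (nat_lit 0) (.cons (.rf (nat_lit 214) (nat_lit 629954687258690722)) (.cons (.br (nat_lit 14) (nat_lit 0) (.cons (.ev (nat_lit 2668881626096476513200918916659281921) (nat_lit 3)) (.cons (.br (nat_lit 15) (nat_lit 0) (.cons (.zr (nat_lit 51963692484686331365616649089712135) (nat_lit 1369104835658463363313360952966080628736) (nat_lit 16) (nat_lit 14)) .nil)) .nil))) (.cons (.br (nat_lit 17) (nat_lit 0) (.cons (.ev (nat_lit 174224571904085931475348633654855448133633) (nat_lit 2)) (.cons (.ev (nat_lit 174224571904085933893163235280786858967043) (nat_lit 2)) .nil))) .nil)))) .nil))))) (.cons (.br (nat_lit 13) (nat_lit 0) (.cons (.br (nat_lit 15) (nat_lit 0) (.cons (.br (nat_lit 15) (nat_lit 0) (.cons (.zr (nat_lit 2658658815665882448058046297193580547) (nat_lit 31153940228921865726176423089143808)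 (nat_lit 16) (nat_lit 2)) .nil)) (.cons (.br (nat_lit 15) (nat_lit 0) (.cons (.zr (nat_lit 2658658815665882448058046297193580547) (nat_lit 31153940228921865726176423089143808) (nat_lit 16) (nat_lit 2)) .nil)) .nil))) (.cons (.br (nat_lit 14) (nat_lit 0) (.cons (.rf (nat_lit 214) (nat_lit 630942083161562274)) (.cons (.br (nat_lit 15) (nat_lit 0) (.cons (.ev (nat_lit 683233614992604428243250728639653741057) (nat_lit 2)) (.cons (.rf (nat_lit 801) (nat_lit 21174442659472880612509728)) .nil))) (.cons (.br (nat_lit 17) (nat_lit 0) (.cons (.ev (nat_lit 174224571863678952040905674471238424199171) (nat_lit 2)) (.cons (.ev (nat_lit 87112296356998941958996312040134678740995) (nat_lit 2)) .nil))) .nil)))) (.cons (.br (nat_lit 16) (nat_lit 0) (.cons (.rf (nat_lit 214) (nat_lit 629816217646963874)) (.cons (.br (nat_lit 14) (nat_lit 0) (.cons (.ev (nat_lit 683233614992604428243250728639653741057) (nat_lit 2)) (.cons (.br (nat_lit 15) (nat_lit 0) (.cons (.ev (nat_lit 683233614992602010428649102725422776835) (nat_lit 2)) .nil)) .nil))) (.cons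 (.ev (nat_lit 340282387282576229647828453219111076097) (nat_lit 1)) .nil)))) (.cons (.br (nat_lit 14) (nat_lit 0) (.cons (.br (nat_lit 15) (nat_lit 0) (.cons (.br (nat_lit 16) (nat_lit 0) (.cons (.zr (nat_lit 680606272375820500761969804508978611712) (nat_lit 5316993112785355265479371717745836033) (nat_lit 16) (nat_lit 12)) .nil)) (.cons (.ev (nat_lit 1334420371871617937235498192636805120) (nat_lit 1)) .nil))) (.cons (.br (nat_lit 16) (nat_lit 0) (.cons (.br (nat_lit 15) (nat_lit 0) (.cons (.ev (nat_lit 1334420371872822140616290883151659008) (nat_lit 1)) .nil)) (.cons (.ev (nat_lit 680585746579777490146802013307299564047) (nat_lit 4)) .nil))) (.cons (.rf (nat_lit 802) (nat_lit 631047566517310529)) .nil)))) .nil))))) .nil))))),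
 (.br (nat_lit 12) (nat_lit 0) (.cons (.rf (nat_lit 799) (nat_lit 19926519232773908561233952)) (.cons (.rf (nat_lit 803) (nat_lit 19926519232773908561233952)) (.cons (.rf (nat_lit 803) (nat_lit 19889920889044124131398691)) (.cons (.br (nat_lit 16) (nat_lit 0) (.cons (.kr (nat_lit 680564733841876926945195958941557719041) (nat_lit 40564819212025707612239124496896) (nat_lit 0) (nat_lit 2)) (.cons (.ev (nat_lit 340282366921247948473268010098825888001) (nat_lit 1)) (.cons (.ev (nat_lit 340282366921249162121382331478584590593) (nat_lit 1)) (.cons (.br (nat_lit 17) (nat_lit 0) (.cons (.rf (nat_lit 802) (nat_lit 629888681225065537)) (.cons (.ev (nat_lit 174224571863678949623017285869012108050433) (nat_lit 2)) (.cons (.ev (nat_lit 174224571863678952040905674471238424199171) (nat_lit 2)) .nil)))) .nil))))) .nil))))),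
 (.br (nat_lit 15) (nat_lit 0) (.cons (.ev (nat_lit 5337762301457415743973426551773462533) (nat_lit 3)) (.cons (.br (nat_lit 16) (nat_lit 0) (.cons (.ev (nat_lit 1361150237188103065813956678605563232261) (nat_lit 3)) (.cons (.ev (nat_lit 1366446379668133880051071660758908535809) (nat_lit 3)) .nil))) .nil))),
 (.br (nat_lit 12) (nat_lit 0) (.cons (.ev (nat_lit 316915072649944126893106398213) (nat_lit 3)) (.cons (.br (nat_lit 13) (nat_lit 0) (.cons (.kr (nat_lit 10384593717074377623825337280364547) (nat_lit 40564819207321787591972523868672) (nat_lit 0) (nat_lit 2)) (.cons (.ev (nat_lit 81446558323033401901217657127937) (nat_lit 3)) (.cons (.br (nat_lit 14) (nat_lit 0) (.cons (.br (nat_lit 15) (nat_lit 0) (.cons (.ev (nat_lit 5337762301457415743973426551773462533) (nat_lit 3)) (.cons (.rf (nat_lit 70) (nat_lit 631046501164984545)) .nil))) (.cons (.br (nat_lit 16) (nat_lit 0) (.cons (.ev (nat_lit 1361150237188103065813956678605563232261) (nat_lit 3)) (.cons (.rf (nat_lit 11) (nat_lit 629954687349920839)) .nil))) (.cons (.br (nat_lit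 15) (nat_lit 0) (.cons (.rf (nat_lit 805) (nat_lit 19926519232773908561233952)) (.cons (.br (nat_lit 15) (nat_lit 0) (.cons (.rf (nat_lit 805) (nat_lit 19926519232773908561233952)) .nil)) .nil))) .nil)))) .nil)))) .nil))),
 (.br (nat_lit 15) (nat_lit 0) (.cons (.ev (nat_lit 1329228233781306332498474121203744771) (nat_lit 2)) (.cons (.rf (nat_lit 58) (nat_lit 631045369631942885)) .nil))),
 (.br (nat_lit 14) (nat_lit 0) (.cons (.ev (nat_lit 5192534854925287223197557235843331) (nat_lit 2)) (.cons (.br (nat_lit 15) (nat_lit 0) (.cons (.ev (nat_lit 340282367158934853922969274492691611651) (nat_lit 2)) (.cons (.ev (nat_lit 5337681487488875452073477119611764741) (nat_lit 3)) .nil))) .nil))),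
 (.br (nat_lit 14) (nat_lit 0) (.cons (.br (nat_lit 14) (nat_lit 0) (.cons (.ev (nat_lit 5192534854925287223197557235843331) (nat_lit 2)) (.cons (.rf (nat_lit 15) (nat_lit 631047533192643655)) .nil))) (.cons (.rf (nat_lit 808) (nat_lit 19926519232773908561233952)) (.cons (.br (nat_lit 14) (nat_lit 0) (.cons (.rf (nat_lit 15) (nat_lit 631047533192643655)) (.cons (.rf (nat_lit 808) (nat_lit 19926519232773908561233952)) .nil))) .nil)))),
 (.br (nat_lit 14) (nat_lit 0) (.cons (.ev (nat_lit 5192534854934695062112190597366017) (nat_lit 2)) (.cons (.br (nat_lit 15) (nat_lit 0) (.cons (.ev (nat_lit 1329228233781315740337388754498158593) (nat_lit 2)) (.cons (.kr (nat_lit 5192296858534827628530496329220352) (nat_lit 1329227995784915872903807060297121792) (nat_lit 1) (nat_lit 0)) .nil))) .nil))),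
 (.br (nat_lit 12) (nat_lit 0) (.cons (.ev (nat_lit 81130883612941844076325402313733) (nat_lit 3)) (.cons (.rf (nat_lit 806) (nat_lit 17022140995484340291616)) (.cons (.br (nat_lit 12) (nat_lit 0) (.cons (.ev (nat_lit 81130883612941844076325402313733) (nat_lit 3)) (.cons (.rf (nat_lit 806) (nat_lit 17022140995484340291616)) (.cons (.br (nat_lit 13) (nat_lit 0) (.cons (.br (nat_lit 14) (nat_lit 0) (.cons (.rf (nat_lit 807) (nat_lit 19926519232773908561233952)) (.cons (.rf (nat_lit 807) (nat_lit 18755372345022236548237344)) (.cons (.br (nat_lit 15) (nat_lit 0) (.cons (.br (nat_lit 15) (nat_lit 0) (.cons (.ev (nat_lit 5337681487488875452073477119611764741) (nat_lit 3)) .nil)) (.cons (.br (nat_lit 15) (nat_lit 0) (.cons (.ev (nat_lit 5337681487488875452073477119611764741) (nat_lit 3)) .nil)) .nil))) .nil)))) (.cons (.rf (nat_lit 809) (nat_lit 19926519232773908561233952)) (.cons (.rf (nat_lit 809) (nat_lit 18755372345022236548237344)) (.cons (.br (nat_lit 14) (nat_lit 0) (.cons (.rf (nat_lit 810) (nat_lit 677582165103132179601393696))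 (.cons (.rf (nat_lit 810) (nat_lit 676411018215380507588397088)) (.cons (.br (nat_lit 14) (nat_lit 0) (.cons (.rf (nat_lit 810) (nat_lit 677582165103132179601393696)) (.cons (.rf (nat_lit 810) (nat_lit 676411018215380507588397088)) .nil))) .nil)))) .nil))))) .nil)))) .nil)))),
 (.br (nat_lit 14) (nat_lit 0) (.cons (.ev (nat_lit 5337762301457415743973426551773462533) (nat_lit 3)) (.cons (.br (nat_lit 16) (nat_lit 0) (.cons (.ev (nat_lit 1361129549130307341110124252409184387073) (nat_lit 3)) (.cons (.ev (nat_lit 1361150236872428355869970554503171145729) (nat_lit 3)) .nil))) .nil))),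
 (.br (nat_lit 15) (nat_lit 0) (.cons (.ev (nat_lit 618974797493801895587741699) (nat_lit 2)) (.cons (.ev (nat_lit 621392612095427827065683969) (nat_lit 2)) (.cons (.br (nat_lit 16) (nat_lit 0) (.cons (.ev (nat_lit 1334440575362539362096164170935304448) (nat_lit 1)) (.cons (.ev (nat_lit 1334440575363748306290465275469889793) (nat_lit 1)) (.cons (.kr (nat_lit 680564733841876931649115979208175124481) (nat_lit 2658455991569831764254358198565208576) (nat_lit 0) (nat_lit 2)) .nil)))) .nil)))),
 (.br (nat_lit 15) (nat_lit 0) (.cons (.ev (nat_lit 618974797493801895587741699) (nat_lit 2)) (.cons (.ev (nat_lit 621392612095427827065683969) (nat_lit 2)) (.cons (.rf (nat_lit 813) (nat_lit 677582165103132179601393696)) (.cons (.br (nat_lit 15) (nat_lit 0) (.cons (.ev (nat_lit 618974797493801895587741699) (nat_lit 2)) (.cons (.ev (nat_lit 621392612095427827065683969) (nat_lit 2)) (.cons (.rf (nat_lit 813) (nat_lit 677582165103132179601393696)) .nil)))) .nil))))),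
 (.br (nat_lit 14) (nat_lit 0) (.cons (.ev (nat_lit 5233099674132590564045451738415873) (nat_lit 2)) (.cons (.br (nat_lit 15) (nat_lit 0) (.cons (.ev (nat_lit 340282407723754061226310122387194184193) (nat_lit 2)) (.cons (.ev (nat_lit 5337762617132125835531251444028276737) (nat_lit 3)) .nil))) .nil))),
 (.br (nat_lit 14) (nat_lit 0) (.cons (.ev (nat_lit 680569926218894497168192374074738016513) (nat_lit 2)) (.cons (.br (nat_lit 15) (nat_lit 0) (.cons (.ev (nat_lit 1361129548814632631166138128306792300549) (nat_lit 3)) (.cons (.kr (nat_lit 10384593717074377623825337280364545) (nat_lit 2658455991569831764254358198581985280) (nat_lit 0) (nat_lit 1)) .nil))) .nil))),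
 (.br (nat_lit 16) (nat_lit 0) (.cons (.kr (nat_lit 5192296858534827628530496329220352) (nat_lit 340282366920938463463374607431784988672) (nat_lit 1) (nat_lit 0)) (.cons (.ev (nat_lit 680569966783713704471533221969240589059) (nat_lit 2)) .nil))),
 (.br (nat_lit 14) (nat_lit 0) (.cons (.rf (nat_lit 817) (nat_lit 677582165103132179601393696)) (.cons (.br (nat_lit 17) (nat_lit 0) (.cons (.kr (nat_lit 10384593717074377623825337280364545) (nat_lit 2658455991569831764254358198581985280) (nat_lit 0) (nat_lit 1)) (.cons (.ev (nat_lit 348449143808487540073752223832812760072193) (nat_lit 3)) .nil))) .nil))),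
 (.br (nat_lit 14) (nat_lit 0) (.cons (.rf (nat_lit 817) (nat_lit 677582165103132179601393696)) (.cons (.br (nat_lit 16) (nat_lit 0) (.cons (.ev (nat_lit 340292792159633775835787145033784819715) (nat_lit 2)) (.cons (.kr (nat_lit 5192296858534827628530496329220352) (nat_lit 340282366920938463463374607431784988672) (nat_lit 1) (nat_lit 0)) .nil))) .nil))),
 (.br (nat_lit 12) (nat_lit 0) (.cons (.ev (nat_lit 316915072649944126893106398213) (nat_lit 3)) (.cons (.br (nat_lit 15) (nat_lit 0) (.cons (.kr (nat_lit 2658455991569831764254358198565208065) (nat_lit 40564819212025707612239141273600) (nat_lit 0) (nat_lit 1)) (.cons (.ev (nat_lit 5316912300059571918335433669773361157) (nat_lit 3)) (.cons (.br (nat_lit 13) (nat_lit 0) (.cons (.br (nat_lit 14) (nat_lit 0) (.cons (.ev (nat_lit 5337762301457415743973426551773462533) (nat_lit 3)) (.cons (.rf (nat_lit 20) (nat_lit 631011351314115623)) .nil))) (.cons (.br (nat_lit 14) (nat_lit 0) (.cons (.ev (nat_lit 1361129549130307341110124252409184387073) (nat_lit 3)) (.cons (.br (nat_lit 14)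 (nat_lit 0) (.cons (.ev (nat_lit 1361129549130307341110124252409184387073) (nat_lit 3)) .nil)) .nil))) (.cons (.br (nat_lit 14) (nat_lit 0) (.cons (.rf (nat_lit 812) (nat_lit 19926519232773908561233952)) (.cons (.br (nat_lit 14) (nat_lit 0) (.cons (.rf (nat_lit 812) (nat_lit 19926519232773908561233952)) .nil)) .nil))) .nil)))) .nil)))) (.cons (.br (nat_lit 13) (nat_lit 0) (.cons (.br (nat_lit 14) (nat_lit 0) (.cons (.ev (nat_lit 20850318312916623153820565103444997) (nat_lit 3)) (.cons (.br (nat_lit 15) (nat_lit 0) (.cons (.ev (nat_lit 340292751594814568532446297139282248193) (nat_lit 2)) (.cons (.br (nat_lit 15) (nat_lit 0) (.cons (.ev (nat_lit 340292751594814568532446297139282248193) (nat_lit 2)) .nil)) .nil))) (.cons (.rf (nat_lit 814) (nat_lit 677582165103132179601393696)) .nil)))) (.cons (.br (nat_lit 14) (nat_lit 0) (.cons (.br (nat_lit 14) (nat_lit 0) (.cons (.ev (nat_lit 5233099674132590564045451738415873) (nat_lit 2)) (.cons (.rf (nat_lit 20) (nat_lit 631013448332182599)) .nil))) (.cons (.rf (nat_lit 815) (nat_lit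 19926519232773908561233952)) (.cons (.br (nat_lit 14) (nat_lit 0) (.cons (.rf (nat_lit 20) (nat_lit 631013448332182599)) (.cons (.rf (nat_lit 815) (nat_lit 19926519232773908561233952)) .nil))) .nil)))) (.cons (.br (nat_lit 15) (nat_lit 0) (.cons (.rf (nat_lit 816) (nat_lit 19926519232773908561233952)) (.cons (.ev (nat_lit 1361129548814632631166138128306792300549) (nat_lit 3)) (.cons (.br (nat_lit 15) (nat_lit 0) (.cons (.rf (nat_lit 816) (nat_lit 19926519232773908561233952)) (.cons (.ev (nat_lit 1361129548814632631166138128306792300549) (nat_lit 3)) .nil))) .nil)))) (.cons (.br (nat_lit 14) (nat_lit 0) (.cons (.rf (nat_lit 818) (nat_lit 677582165103132179601393696)) (.cons (.rf (nat_lit 819) (nat_lit 677582165103132179601393696)) (.cons (.br (nat_lit 14) (nat_lit 0) (.cons (.rf (nat_lit 818) (nat_lit 677582165103132179601393696)) (.cons (.rf (nat_lit 819) (nat_lit 677582165103132179601393696)) .nil))) .nil)))) .nil))))) .nil)))),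
 (.br (nat_lit 13) (nat_lit 0) (.cons (.br (nat_lit 14) (nat_lit 0) (.cons (.ev (nat_lit 5192534854925287223197557235843331) (nat_lit 2)) (.cons (.rf (nat_lit 20) (nat_lit 596040251191170119)) .nil))) (.cons (.ev (nat_lit 20520405994111265091008174686466) (nat_lit 2)) (.cons (.br (nat_lit 14) (nat_lit 0) (.cons (.rf (nat_lit 20) (nat_lit 596040217905170599)) (.cons (.ev (nat_lit 5192534854925287223197557235843331) (nat_lit 2)) (.cons (.kr (nat_lit 5192296858534827628530496329220097) (nat_lit 20282409603651670423947268063232) (nat_lit 0) (nat_lit 1)) .nil)))) .nil))))]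

theorem c28 : chkAll C T R L28 (nat_lit 800) = true := by decide +kernel

theorem l28 : (nat_lit 800) + L28.length = (nat_lit 822) := by decide +kernel

/-- part of the certificates -/
def L29 : List Prf := [(.br (nat_lit 13) (nat_lit 0) (.cons (.rf (nat_lit 821) (nat_lit 19926519232773908561233952)) (.cons (.br (nat_lit 14) (nat_lit 0) (.cons (.ev (nat_lit 340282367158934853922969274492691611651) (nat_lit 2)) (.cons (.br (nat_lit 14) (nat_lit 0) (.cons (.ev (nat_lit 340282367158934853922969274492691611651) (nat_lit 2)) .nil)) .nil))) (.cons (.br (nat_lit 14) (nat_lit 0) (.cons (.br (nat_lit 14) (nat_lit 0) (.cons (.ev (nat_lit 20850633987626567139944667495531521) (nat_lit 3)) .nil)) (.cons (.br (nat_lit 14) (nat_lit 0) (.cons (.ev (nat_lit 20850633987626567139944667495531521) (nat_lit 3)) .nil)) .nil))) .nil)))),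
 (.br (nat_lit 13) (nat_lit 0) (.cons (.ev (nat_lit 20520405994111265091008174686466) (nat_lit 2)) (.cons (.rf (nat_lit 822) (nat_lit 19926519232773908561233952)) (.cons (.br (nat_lit 16) (nat_lit 0) (.cons (.ev (nat_lit 340282367158934853922969274492691611651) (nat_lit 2)) (.cons (.rf (nat_lit 87) (nat_lit 631011351347669217)) (.cons (.kr (nat_lit 340282366920938463463374607431768211457) (nat_lit 20282409603651670423947251286272) (nat_lit 0) (nat_lit 2)) .nil)))) .nil)))),
 (.br (nat_lit 12) (nat_lit 0) (.cons (.rf (nat_lit 820) (nat_lit 583706118939841765935136)) (.cons (.rf (nat_lit 820) (nat_lit 582562417319727094305827)) (.cons (.br (nat_lit 13) (nat_lit 0) (.cons (.rf (nat_lit 821) (nat_lit 19926519232773908561233952)) (.cons (.rf (nat_lit 822) (nat_lit 19926519232773908561233952)) (.cons (.rf (nat_lit 823) (nat_lit 19926519232773908561233952)) (.cons (.br (nat_lit 13) (nat_lit 0) (.cons (.rf (nat_lit 821) (nat_lit 19926519232773908561233952)) (.cons (.rf (nat_lit 822) (nat_lit 19926519232773908561233952)) (.cons (.rf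 (nat_lit 823) (nat_lit 19926519232773908561233952)) .nil)))) .nil))))) .nil)))),
 (.br (nat_lit 15) (nat_lit 0) (.cons (.ev (nat_lit 5192534854925287223197557235843331) (nat_lit 2)) (.cons (.ev (nat_lit 1366446460797777130286957734293596537861) (nat_lit 3)) (.cons (.br (nat_lit 16) (nat_lit 0) (.cons (.ev (nat_lit 1366467148855572854990790160489841165313) (nat_lit 3)) .nil)) .nil)))),
 (.br (nat_lit 14) (nat_lit 0) (.cons (.kr (nat_lit 5192296858534827628530496329220097) (nat_lit 20282409603651670423947268063232) (nat_lit 0) (nat_lit 1)) (.cons (.rf (nat_lit 825) (nat_lit 19926519232773908561233952)) (.cons (.rf (nat_lit 825) (nat_lit 21135445052388537735940128)) .nil)))),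
 (.br (nat_lit 14) (nat_lit 0) (.cons (.rf (nat_lit 825) (nat_lit 19925375531153793889604643)) (.cons (.kr (nat_lit 5192296858534827628530496329220097) (nat_lit 20282409603651670423947268063232) (nat_lit 0) (nat_lit 1)) (.cons (.br (nat_lit 16) (nat_lit 0) (.cons (.br (nat_lit 15) (nat_lit 0) (.cons (.ev (nat_lit 5337762301457415743973426551773462533) (nat_lit 3)) .nil)) (.cons (.ev (nat_lit 349810294045358728066916236384525216908289) (nat_lit 3)) .nil))) .nil)))),
 (.br (nat_lit 13) (nat_lit 0) (.cons (.rf (nat_lit 826) (nat_lit 677582165103132179601393696)) (.cons (.rf (nat_lit 827) (nat_lit 677582165103132179601393696)) (.cons (.rf (nat_lit 827) (nat_lit 640105464695078675185502240)) .nil)))),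
 (.br (nat_lit 15) (nat_lit 0) (.cons (.br (nat_lit 14) (nat_lit 0) (.cons (.ev (nat_lit 5337762301457415743973426551773462533) (nat_lit 3)) (.cons (.ev (nat_lit 20850633987626567139944667495531521) (nat_lit 3)) .nil))) (.cons (.kr (nat_lit 2658455991569831764254358198565208065) (nat_lit 40564819212025707612239141273600) (nat_lit 0) (nat_lit 1)) (.cons (.br (nat_lit 17) (nat_lit 0) (.cons (.ev (nat_lit 348449143808487540073752223832812760072193) (nat_lit 3)) (.cons (.ev (nat_lit 348454460720155009862929057314697172222981) (nat_lit 3)) .nil))) .nil)))),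
 (.br (nat_lit 13) (nat_lit 0) (.cons (.rf (nat_lit 828) (nat_lit 677582165103132179601393696)) (.cons (.rf (nat_lit 829) (nat_lit 677582165103132179601393696)) (.cons (.rf (nat_lit 829) (nat_lit 640105464695078675185502240)) .nil)))),
 (.br (nat_lit 14) (nat_lit 0) (.cons (.rf (nat_lit 830) (nat_lit 677581021401512064929764387)) (.cons (.ev (nat_lit 349810294045358728066916236384525216908289) (nat_lit 3)) .nil))),
 (.br (nat_lit 13) (nat_lit 0) (.cons (.rf (nat_lit 828) (nat_lit 677582165103132179601393696)) (.cons (.rf (nat_lit 830) (nat_lit 677582165103132179601393696)) (.cons (.br (nat_lit 14) (nat_lit 0) (.cons (.rf (nat_lit 830) (nat_lit 677581021401512064929764387)) (.cons (.rf (nat_lit 831) (nat_lit 677582165103132179601393696)) (.cons (.rf (nat_lit 831) (nat_lit 640105464695078675185502240)) .nil)))) .nil)))),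
 (.br (nat_lit 14) (nat_lit 0) (.cons (.ev (nat_lit 5212658497514660196133609670705153) (nat_lit 1)) (.cons (.rf (nat_lit 70) (nat_lit 593855484886329537)) .nil))),
 (.br (nat_lit 15) (nat_lit 0) (.cons (.br (nat_lit 16) (nat_lit 0) (.cons (.zr (nat_lit 3992896646160533622096059386201965312) (nat_lit 261677140162201679612260964787253000798210) (nat_lit 8) (nat_lit 12)) .nil)) .nil)),
 (.br (nat_lit 12) (nat_lit 0) (.cons (.ev (nat_lit 79228167236702879156755562753) (nat_lit 1)) (.cons (.br (nat_lit 13) (nat_lit 0) (.cons (.ev (nat_lit 10425159155251756092273741325664771) (nat_lit 2)) (.cons (.br (nat_lit 14) (nat_lit 0) (.cons (.kr (nat_lit 10384593719487507040405439083708417) (nat_lit 2658455991569836486621122543203909632) (nat_lit 0) (nat_lit 1)) (.cons (.br (nat_lit 15) (nat_lit 0) (.cons (.ev (nat_lit 15971789570289351020796778689677625859) (nat_lit 4)) (.cons (.rf (nat_lit 11) (nat_lit 631047533226165319)) .nil))) .nil))) (.cons (.br (nat_lit 14) (nat_lit 0) (.cons (.rf (nat_lit 833) (nat_lit 622703726024184642504736))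 (.cons (.br (nat_lit 16) (nat_lit 0) (.cons (.ev (nat_lit 340287559297025160823786559768189009920) (nat_lit 1)) (.cons (.rf (nat_lit 11) (nat_lit 629954687383442503)) .nil))) (.cons (.br (nat_lit 15) (nat_lit 0) (.cons (.rf (nat_lit 834) (nat_lit 677582165103132179601393696)) (.cons (.br (nat_lit 15) (nat_lit 0) (.cons (.rf (nat_lit 834) (nat_lit 677582165103132179601393696)) .nil)) .nil))) .nil)))) .nil)))) .nil))),
 (.br (nat_lit 15) (nat_lit 0) (.cons (.ev (nat_lit 2658456150028579403683080293660622851) (nat_lit 2)) (.cons (.rf (nat_lit 58) (nat_lit 631045369598389477)) .nil))),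
 (.br (nat_lit 15) (nat_lit 0) (.cons (.br (nat_lit 15) (nat_lit 0) (.cons (.ev (nat_lit 1334420371871613233315759396701143040) (nat_lit 1)) .nil)) (.cons (.br (nat_lit 15) (nat_lit 0) (.cons (.ev (nat_lit 1334420371871613233315759396701143040) (nat_lit 1)) .nil)) .nil))),
 (.br (nat_lit 14) (nat_lit 0) (.cons (.ev (nat_lit 10384752175817313132527165724819971) (nat_lit 2)) (.cons (.br (nat_lit 15) (nat_lit 0) (.cons (.ev (nat_lit 680564734000335674584624681036636356611) (nat_lit 2)) (.cons (.ev (nat_lit 1334420371871613233315759396701143040) (nat_lit 1)) .nil))) .nil))),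
 (.br (nat_lit 14) (nat_lit 0) (.cons (.br (nat_lit 14) (nat_lit 0) (.cons (.ev (nat_lit 10384752175817313132527165724819971) (nat_lit 2)) (.cons (.rf (nat_lit 15) (nat_lit 631047533226165319)) .nil))) (.cons (.rf (nat_lit 838) (nat_lit 19926519232773908561233952)) (.cons (.br (nat_lit 14) (nat_lit 0) (.cons (.rf (nat_lit 15) (nat_lit 631047533226165319)) (.cons (.rf (nat_lit 838) (nat_lit 19926519232773908561233952)) .nil))) .nil)))),
 (.br (nat_lit 14) (nat_lit 0) (.cons (.ev (nat_lit 10384752175817313132527165724819971) (nat_lit 2)) (.cons (.br (nat_lit 15) (nat_lit 0) (.cons (.ev (nat_lit 2658456150028579403683080293660622851) (nat_lit 2)) (.cons (.kr (nat_lit 5192296858534827628530496329220352) (nat_lit 1329227995784915872903807060297121792) (nat_lit 1) (nat_lit 0)) .nil))) .nil))),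
 (.br (nat_lit 15) (nat_lit 0) (.cons (.br (nat_lit 16) (nat_lit 0) (.cons (.zr (nat_lit 3992896646160533622096059386201965312) (nat_lit 88133133032523063245939914997051212955650) (nat_lit 8) (nat_lit 12)) .nil)) .nil)),
 (.br (nat_lit 12) (nat_lit 0) (.cons (.ev (nat_lit 79228167236702879156755562753) (nat_lit 1)) (.cons (.br (nat_lit 13) (nat_lit 0) (.cons (.ev (nat_lit 10425159155251756092273741325664771) (nat_lit 2)) (.cons (.br (nat_lit 14) (nat_lit 0) (.cons (.kr (nat_lit 2658455991569836486621122543187132417) (nat_lit 40564821625155124192340944617472) (nat_lit 0) (nat_lit 1)) (.cons (.rf (nat_lit 833) (nat_lit 622667985457541827007523)) .nil))) (.cons (.br (nat_lit 14) (nat_lit 0) (.cons (.br (nat_lit 15) (nat_lit 0) (.cons (.ev (nat_lit 16023509714778662780377844180289194509) (nat_lit 4)) (.cons (.rf (nat_lit 11) (nat_lit 631046434785133735)) .nil))) (.cons (.br (nat_lit 16) (nat_lit 0) (.cons (.ev (nat_lit 340282387282576229647828453219094298625) (nat_lit 1)) (.cons (.rf (nat_lit 11) (nat_lit 629954654097442983))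 .nil))) (.cons (.br (nat_lit 15) (nat_lit 0) (.cons (.rf (nat_lit 841) (nat_lit 677582165103132179601393696)) (.cons (.br (nat_lit 15) (nat_lit 0) (.cons (.rf (nat_lit 841) (nat_lit 677582165103132179601393696)) .nil)) .nil))) .nil)))) .nil)))) .nil))),
 (.br (nat_lit 15) (nat_lit 0) (.cons (.ev (nat_lit 2658456150028579403683080293660622851) (nat_lit 2)) (.cons (.rf (nat_lit 58) (nat_lit 631045402884484322)) .nil))),
 (.br (nat_lit 15) (nat_lit 0) (.cons (.br (nat_lit 15) (nat_lit 0) (.cons (.ev (nat_lit 1329248357422682057357652847606431745) (nat_lit 1)) .nil)) (.cons (.br (nat_lit 15) (nat_lit 0) (.cons (.ev (nat_lit 1329248357422682057357652847606431745) (nat_lit 1)) .nil)) .nil))),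
 (.br (nat_lit 13) (nat_lit 0) (.cons (.rf (nat_lit 843) (nat_lit 19926519232773908561233952)) (.cons (.rf (nat_lit 843) (nat_lit 18755372345022236548237344)) (.cons (.rf (nat_lit 844) (nat_lit 677582165103132179601393696)) .nil)))),
 (.br (nat_lit 13) (nat_lit 0) (.cons (.rf (nat_lit 845) (nat_lit 19926519232773908561233952)) (.cons (.ev (nat_lit 40723277954961216314067602506241) (nat_lit 2)) (.cons (.br (nat_lit 15) (nat_lit 0) (.cons (.rf (nat_lit 15) (nat_lit 631046434785133735)) (.cons (.ev (nat_lit 2658456150028579403683080293660622851) (nat_lit 2)) (.cons (.kr (nat_lit 1329227995784915872903807060280344577) (nat_lit 20282409603651670423947251286272) (nat_lit 0) (nat_lit 2)) .nil)))) .nil)))),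
 (.br (nat_lit 15) (nat_lit 0) (.cons (.ev (nat_lit 340282387282576234351747910535775059968) (nat_lit 1)) (.cons (.br (nat_lit 16) (nat_lit 0) (.cons (.zr (nat_lit 1344825248307771531545506258366824448) (nat_lit 88133133032523063245939914997051179401986) (nat_lit 8) (nat_lit 5)) .nil)) .nil))),
 (.br (nat_lit 15) (nat_lit 0) (.cons (.br (nat_lit 16) (nat_lit 0) (.cons (.ev (nat_lit 683223189834065733470051193838228210177) (nat_lit 2)) .nil)) .nil)),
 (.br (nat_lit 14) (nat_lit 0) (.cons (.ev (nat_lit 10384752175817313132527165724819971) (nat_lit 2)) (.cons (.br (nat_lit 15) (nat_lit 0) (.cons (.ev (nat_lit 680564734000335674584624681036636356611) (nat_lit 2)) (.cons (.zr (nat_lit 7975368451935380381936944932381392896) (nat_lit 31194345975256713492228187954873347) (nat_lit 16) (nat_lit 13)) .nil))) .nil))),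
 (.br (nat_lit 14) (nat_lit 0) (.cons (.ev (nat_lit 10384752175817313132527165724819971) (nat_lit 2)) (.cons (.br (nat_lit 15) (nat_lit 0) (.cons (.kr (nat_lit 680564733841876931667562723286162866177) (nat_lit 40564821625155124192340944617472) (nat_lit 0) (nat_lit 1)) (.cons (.ev (nat_lit 2668840585905876198559039967383781377) (nat_lit 2)) .nil))) .nil))),
 (.br (nat_lit 14) (nat_lit 0) (.cons (.ev (nat_lit 10384752175817313132527165724819971) (nat_lit 2)) (.cons (.br (nat_lit 17) (nat_lit 0) (.cons (.ev (nat_lit 2668840585905876198559039967383781377) (nat_lit 2)) (.cons (.ev (nat_lit 87112285952121884412808353348319988219905) (nat_lit 1)) .nil))) .nil))),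
 (.br (nat_lit 14) (nat_lit 0) (.cons (.ev (nat_lit 10384752175817313132527165724819971) (nat_lit 2)) (.cons (.br (nat_lit 16) (nat_lit 0) (.cons (.ev (nat_lit 680564734000335674584624681036636356611) (nat_lit 2)) (.cons (.ev (nat_lit 87112285952121884412808353348319988219905) (nat_lit 1)) .nil))) .nil))),
 (.br (nat_lit 12) (nat_lit 0) (.cons (.ev (nat_lit 79228167236702879156755562753) (nat_lit 1)) (.cons (.br (nat_lit 13) (nat_lit 0) (.cons (.br (nat_lit 15) (nat_lit 0) (.cons (.kr (nat_lit 5212579269347405190626666793140480) (nat_lit 1329228075322563396989490822060769280) (nat_lit 1) (nat_lit 0)) (.cons (.rf (nat_lit 147) (nat_lit 19458374332245208010977)) .nil))) (.cons (.ev (nat_lit 2658496557008013846642826869194358787) (nat_lit 2)) (.cons (.br (nat_lit 14) (nat_lit 0) (.cons (.br (nat_lit 14) (nat_lit 0) (.cons (.ev (nat_lit 18671581112631424870928397308224997389) (nat_lit 4)) (.cons (.rf (nat_lit 20) (nat_lit 631013481651701799)) .nil))) (.cons (.br (nat_lit 14) (nat_lit 0) (.cons (.ev (nat_lit 18671581112631424870928397308224997389)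 (nat_lit 4)) (.cons (.rf (nat_lit 847) (nat_lit 677582165103132179601393696)) .nil))) (.cons (.br (nat_lit 14) (nat_lit 0) (.cons (.rf (nat_lit 20) (nat_lit 631013481651701799)) (.cons (.rf (nat_lit 847) (nat_lit 677582165103132179601393696)) .nil))) .nil)))) .nil)))) (.cons (.br (nat_lit 13) (nat_lit 0) (.cons (.br (nat_lit 14) (nat_lit 0) (.cons (.kr (nat_lit 10384593717074396070569415284883969) (nat_lit 40564821625155124192340978171904) (nat_lit 0) (nat_lit 2)) (.cons (.br (nat_lit 15) (nat_lit 0) (.cons (.ev (nat_lit 680564734000335674584624681036636356611) (nat_lit 2)) (.cons (.br (nat_lit 15) (nat_lit 0) (.cons (.ev (nat_lit 680564734000335674584624681036636356611) (nat_lit 2)) .nil)) .nil))) (.cons (.br (nat_lit 15) (nat_lit 0) (.cons (.rf (nat_lit 848) (nat_lit 677582165103132179601393696)) (.cons (.br (nat_lit 15) (nat_lit 0) (.cons (.rf (nat_lit 848) (nat_lit 677582165103132179601393696)) .nil)) .nil))) .nil)))) (.cons (.br (nat_lit 14) (nat_lit 0) (.cons (.br (nat_lit 14) (nat_lit 0) (.cons (.ev (nat_lit 10384752175817313132527165724819971)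 (nat_lit 2)) (.cons (.rf (nat_lit 20) (nat_lit 631013448365704263)) .nil))) (.cons (.rf (nat_lit 849) (nat_lit 19926519232773908561233952)) (.cons (.br (nat_lit 14) (nat_lit 0) (.cons (.rf (nat_lit 20) (nat_lit 631013448365704263)) (.cons (.rf (nat_lit 849) (nat_lit 19926519232773908561233952)) .nil))) .nil)))) (.cons (.br (nat_lit 15) (nat_lit 0) (.cons (.rf (nat_lit 850) (nat_lit 19926519232773908561233952)) (.cons (.kr (nat_lit 680564733841876931667562723286162866177) (nat_lit 40564821625155124192340944617472) (nat_lit 0) (nat_lit 1)) (.cons (.br (nat_lit 15) (nat_lit 0) (.cons (.rf (nat_lit 850) (nat_lit 19926519232773908561233952)) (.cons (.kr (nat_lit 680564733841876931667562723286162866177) (nat_lit 40564821625155124192340944617472) (nat_lit 0) (nat_lit 1)) .nil))) .nil)))) (.cons (.br (nat_lit 14) (nat_lit 0) (.cons (.rf (nat_lit 851) (nat_lit 677582165103132179601393696)) (.cons (.rf (nat_lit 852) (nat_lit 677582165103132179601393696)) (.cons (.br (nat_lit 14) (nat_lit 0) (.cons (.rf (nat_lit 851) (nat_lit 677582165103132179601393696))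 (.cons (.rf (nat_lit 852) (nat_lit 677582165103132179601393696)) .nil))) .nil)))) .nil))))) .nil))))]

theorem c29 : chkAll C T R L29 (nat_lit 822) = true := by decide +kernel

theorem l29 : (nat_lit 822) + L29.length = (nat_lit 854) := by decide +kernel

/-- part of the certificates -/
def L30 : List Prf := [(.br (nat_lit 15) (nat_lit 0) (.cons (.ev (nat_lit 340287559297025165527706017084836216833) (nat_lit 1)) (.cons (.br (nat_lit 16) (nat_lit 0) (.cons (.zr (nat_lit 1334481219409909179629293160143847428) (nat_lit 88133133032523063245939914997051212956416) (nat_lit 8) (nat_lit 2)) .nil)) .nil))),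
 (.br (nat_lit 15) (nat_lit 0) (.cons (.br (nat_lit 16) (nat_lit 0) (.cons (.ev (nat_lit 683223189834065733470051193838228210177) (nat_lit 2)) .nil)) .nil)),
 (.br (nat_lit 13) (nat_lit 0) (.cons (.kr (nat_lit 10384593719487507040405439083708419) (nat_lit 40564819212044154356317145793024) (nat_lit 0) (nat_lit 2)) (.cons (.br (nat_lit 15) (nat_lit 0) (.cons (.ev (nat_lit 680564734000335674584624681036636356611) (nat_lit 2)) (.cons (.br (nat_lit 15) (nat_lit 0) (.cons (.ev (nat_lit 680564734000335674584624681036636356611) (nat_lit 2)) .nil)) .nil))) (.cons (.br (nat_lit 15) (nat_lit 0) (.cons (.rf (nat_lit 855) (nat_lit 677582165103132179601393696)) (.cons (.br (nat_lit 15) (nat_lit 0) (.cons (.rf (nat_lit 855) (nat_lit 677582165103132179601393696)) .nil)) .nil))) .nil)))),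
 (.br (nat_lit 13) (nat_lit 0) (.cons (.kr (nat_lit 10384593719487507040405439083708419) (nat_lit 40564819212044154356317145793024) (nat_lit 0) (nat_lit 2)) (.cons (.ev (nat_lit 40723277954961216314067602506241) (nat_lit 2)) (.cons (.br (nat_lit 15) (nat_lit 0) (.cons (.rf (nat_lit 20) (nat_lit 630978265064211623)) (.cons (.br (nat_lit 14) (nat_lit 0) (.cons (.kr (nat_lit 10384593719487507040405439083708417) (nat_lit 680564733841876931667562723286179643392) (nat_lit 0) (nat_lit 1)) (.cons (.rf (nat_lit 143) (nat_lit 640031052463563665530170537)) .nil))) (.cons (.ev (nat_lit 2658496557008013846642826869194358787) (nat_lit 2)) .nil)))) .nil)))),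
 (.br (nat_lit 13) (nat_lit 0) (.cons (.rf (nat_lit 856) (nat_lit 19926519232773908561233952)) (.cons (.ev (nat_lit 40723277954961216314067602506241) (nat_lit 2)) (.cons (.br (nat_lit 16) (nat_lit 0) (.cons (.rf (nat_lit 87) (nat_lit 631046501163936993)) (.cons (.ev (nat_lit 680564734000335674584624681036636356611) (nat_lit 2)) (.cons (.kr (nat_lit 340282366920938463463374607431768211457) (nat_lit 20282409603651670423947251286272) (nat_lit 0) (nat_lit 2)) .nil)))) .nil)))),
 (.br (nat_lit 12) (nat_lit 0) (.cons (.ev (nat_lit 79228167236702879156755562753) (nat_lit 1)) (.cons (.br (nat_lit 14) (nat_lit 0) (.cons (.br (nat_lit 13) (nat_lit 0) (.cons (.kr (nat_lit 5212579269347405190626666793140480) (nat_lit 1329228075322563396989490822060769280) (nat_lit 1) (nat_lit 0)) (.cons (.br (nat_lit 15) (nat_lit 0) (.cons (.ev (nat_lit 1334440575363748306290746754741567488) (nat_lit 1)) (.cons (.rf (nat_lit 20) (nat_lit 596074369372039207)) .nil))) .nil))) (.cons (.ev (nat_lit 2668840585905876198559039967383781377) (nat_lit 2)) (.cons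 (.br (nat_lit 13) (nat_lit 0) (.cons (.br (nat_lit 13) (nat_lit 0) (.cons (.ev (nat_lit 18630204997039975463263544915735742469) (nat_lit 4)) (.cons (.rf (nat_lit 20) (nat_lit 630978331636208679)) .nil))) (.cons (.br (nat_lit 13) (nat_lit 0) (.cons (.ev (nat_lit 18630204997039975463263544915735742469) (nat_lit 4)) (.cons (.rf (nat_lit 854) (nat_lit 677582165103132179601393696)) .nil))) (.cons (.br (nat_lit 13) (nat_lit 0) (.cons (.rf (nat_lit 20) (nat_lit 630978331636208679)) (.cons (.rf (nat_lit 854) (nat_lit 677582165103132179601393696)) .nil))) .nil)))) .nil)))) (.cons (.br (nat_lit 13) (nat_lit 0) (.cons (.rf (nat_lit 856) (nat_lit 19926519232773908561233952)) (.cons (.rf (nat_lit 857) (nat_lit 19926519232773908561233952)) (.cons (.rf (nat_lit 858) (nat_lit 19926519232773908561233952)) (.cons (.br (nat_lit 13) (nat_lit 0) (.cons (.rf (nat_lit 856) (nat_lit 19926519232773908561233952)) (.cons (.rf (nat_lit 857) (nat_lit 19926519232773908561233952)) (.cons (.rf (nat_lit 858) (nat_lit 19926519232773908561233952)) .nil))))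 .nil))))) .nil)))),
 (.br (nat_lit 13) (nat_lit 0) (.cons (.br (nat_lit 14) (nat_lit 0) (.cons (.ev (nat_lit 10384752175817313132527165724819971) (nat_lit 2)) (.cons (.rf (nat_lit 20) (nat_lit 596040251224691783)) .nil))) (.cons (.ev (nat_lit 40723277954961216314067602506241) (nat_lit 2)) (.cons (.br (nat_lit 14) (nat_lit 0) (.cons (.rf (nat_lit 20) (nat_lit 596040217938692263)) (.cons (.ev (nat_lit 10384752175817313132527165724819971) (nat_lit 2)) (.cons (.kr (nat_lit 5192296858534827628530496329220097) (nat_lit 20282409603651670423947268063232) (nat_lit 0) (nat_lit 1)) .nil)))) .nil)))),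
 (.br (nat_lit 13) (nat_lit 0) (.cons (.br (nat_lit 13) (nat_lit 0) (.cons (.ev (nat_lit 20361947251194203133257717973248) (nat_lit 1)) .nil)) (.cons (.br (nat_lit 13) (nat_lit 0) (.cons (.ev (nat_lit 20361947251194203133257717973248) (nat_lit 1)) .nil)) .nil))),
 (.br (nat_lit 13) (nat_lit 0) (.cons (.rf (nat_lit 860) (nat_lit 19926519232773908561233952)) (.cons (.br (nat_lit 14) (nat_lit 0) (.cons (.ev (nat_lit 680564734000335674584624681036636356611) (nat_lit 2)) (.cons (.br (nat_lit 14) (nat_lit 0) (.cons (.ev (nat_lit 680564734000335674584624681036636356611) (nat_lit 2)) .nil)) .nil))) (.cons (.rf (nat_lit 861) (nat_lit 21174442659472880577906720)) .nil)))),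
 (.br (nat_lit 13) (nat_lit 0) (.cons (.ev (nat_lit 40723277954961216314067602506241) (nat_lit 2)) (.cons (.rf (nat_lit 862) (nat_lit 19926519232773908561233952)) (.cons (.br (nat_lit 16) (nat_lit 0) (.cons (.ev (nat_lit 680564734000335674584624681036636356611) (nat_lit 2)) (.cons (.rf (nat_lit 87) (nat_lit 631011351314115809)) (.cons (.kr (nat_lit 340282366920938463463374607431768211457) (nat_lit 20282409603651670423947251286272) (nat_lit 0) (nat_lit 2)) .nil)))) .nil)))),
 (.br (nat_lit 12) (nat_lit 0) (.cons (.rf (nat_lit 853) (nat_lit 583706118939841765935136)) (.cons (.rf (nat_lit 859) (nat_lit 583706118939841765935136)) (.cons (.br (nat_lit 13) (nat_lit 0) (.cons (.rf (nat_lit 860) (nat_lit 19926519232773908561233952)) (.cons (.rf (nat_lit 862) (nat_lit 19926519232773908561233952)) (.cons (.rf (nat_lit 863) (nat_lit 19926519232773908561233952)) (.cons (.br (nat_lit 13) (nat_lit 0) (.cons (.rf (nat_lit 860) (nat_lit 19926519232773908561233952)) (.cons (.rf (nat_lit 861) (nat_lit 21174442659472880577906720)) (.cons (.rf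 (nat_lit 863) (nat_lit 19926519232773908561233952)) .nil)))) .nil))))) .nil)))),
 (.br (nat_lit 15) (nat_lit 0) (.cons (.ev (nat_lit 340282367000476111005907316742251675648) (nat_lit 1)) .nil)),
 (.br (nat_lit 15) (nat_lit 0) (.cons (.ev (nat_lit 341611615199443681645956281006844543233) (nat_lit 1)) (.cons (.rf (nat_lit 865) (nat_lit 21174442659472880577906720)) .nil))),
 (.br (nat_lit 14) (nat_lit 0) (.cons (.kr (nat_lit 5192296858534827628530496329220097) (nat_lit 20282409603651670423947268063232) (nat_lit 0) (nat_lit 1)) (.cons (.rf (nat_lit 866) (nat_lit 677582165103132179601393696)) (.cons (.rf (nat_lit 866) (nat_lit 640105464695078675185502240)) .nil)))),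
 (.br (nat_lit 14) (nat_lit 0) (.cons (.br (nat_lit 15) (nat_lit 0) (.cons (.ev (nat_lit 341616787213892612821914387555939254528) (nat_lit 1)) (.cons (.br (nat_lit 16) (nat_lit 0) (.cons (.ev (nat_lit 341611615199443676942036823690197336320) (nat_lit 1)) .nil)) .nil))) (.cons (.kr (nat_lit 5192296858534827628530496329220097) (nat_lit 20282409603651670423947268063232) (nat_lit 0) (nat_lit 1)) (.cons (.br (nat_lit 17) (nat_lit 0) (.cons (.rf (nat_lit 157) (nat_lit 625030324673787604511913)) (.cons (.ev (nat_lit 87452573511339681411099356486248102428929) (nat_lit 1)) .nil))) .nil)))),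
 (.br (nat_lit 13) (nat_lit 0) (.cons (.rf (nat_lit 867) (nat_lit 677582165103132179601393696)) (.cons (.rf (nat_lit 868) (nat_lit 677582165103132179601393696)) (.cons (.rf (nat_lit 868) (nat_lit 640105464695078675185502240)) .nil)))),
 (.br (nat_lit 15) (nat_lit 0) (.cons (.br (nat_lit 14) (nat_lit 0) (.cons (.ev (nat_lit 1334440575363753010210204071422328833) (nat_lit 1)) (.cons (.ev (nat_lit 5212658496305716001833600319291648) (nat_lit 1)) .nil))) (.cons (.kr (nat_lit 340282366920938463463374607431768211457) (nat_lit 20282409603651670423947251286272) (nat_lit 0) (nat_lit 2)) (.cons (.br (nat_lit 17) (nat_lit 0) (.cons (.ev (nat_lit 87112285952121884417512272805636668981248) (nat_lit 1)) (.cons (.ev (nat_lit 87113615180038751864806481176107738464513) (nat_lit 1)) .nil))) .nil)))),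
 (.br (nat_lit 13) (nat_lit 0) (.cons (.rf (nat_lit 867) (nat_lit 677582165103132179601393696)) (.cons (.rf (nat_lit 870) (nat_lit 677582165103132179601393696)) (.cons (.rf (nat_lit 870) (nat_lit 640105464695078675185502240)) .nil)))),
 (.br (nat_lit 14) (nat_lit 0) (.cons (.br (nat_lit 15) (nat_lit 0) (.cons (.ev (nat_lit 341611615199443676942036823690197336320) (nat_lit 1)) .nil)) (.cons (.ev (nat_lit 87452573511339681411099356486248102428929) (nat_lit 1)) .nil))),
 (.br (nat_lit 13) (nat_lit 0) (.cons (.rf (nat_lit 869) (nat_lit 677582165103132179601393696)) (.cons (.rf (nat_lit 871) (nat_lit 677582165103132179601393696)) (.cons (.br (nat_lit 16) (nat_lit 0) (.cons (.rf (nat_lit 872) (nat_lit 677582165103132179601393696)) (.cons (.br (nat_lit 17) (nat_lit 0) (.cons (.rf (nat_lit 872) (nat_lit 640105464695078675185502240)) (.cons (.ev (nat_lit 87453897526677280719914265902275608182785) (nat_lit 1)) .nil))) (.cons (.kr (nat_lit 87112285931760246646623899502532662132737) (nat_lit 20282409603651670423947251286272) (nat_lit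 0) (nat_lit 2)) .nil)))) .nil)))),
 (.br (nat_lit 10) (nat_lit 0) (.cons (.kr (nat_lit 2417851783344446442045441) (nat_lit 4740813508422626443776) (nat_lit 0) (nat_lit 2)) (.cons (.br (nat_lit 12) (nat_lit 0) (.cons (.ev (nat_lit 20282720302309677866514795987201) (nat_lit 1)) (.cons (.rf (nat_lit 835) (nat_lit 17022140995484340291616)) (.cons (.br (nat_lit 12) (nat_lit 0) (.cons (.ev (nat_lit 20282720302309677866514795987201) (nat_lit 1)) (.cons (.rf (nat_lit 835) (nat_lit 17022140995484340291616)) (.cons (.br (nat_lit 13) (nat_lit 0) (.cons (.br (nat_lit 14) (nat_lit 0) (.cons (.rf (nat_lit 836) (nat_lit 19926519232773908561233952)) (.cons (.rf (nat_lit 836) (nat_lit 18755372345022236548237344)) (.cons (.rf (nat_lit 837) (nat_lit 677582165103132179601393696)) .nil)))) (.cons (.rf (nat_lit 839) (nat_lit 19926519232773908561233952)) (.cons (.rf (nat_lit 839) (nat_lit 18755372345022236548237344)) (.cons (.br (nat_lit 14) (nat_lit 0) (.cons (.rf (nat_lit 840) (nat_lit 677582165103132179601393696)) (.cons (.rf (nat_lit 840) (nat_lit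 676411018215380507588397088)) (.cons (.br (nat_lit 14) (nat_lit 0) (.cons (.rf (nat_lit 840) (nat_lit 677582165103132179601393696)) (.cons (.rf (nat_lit 840) (nat_lit 676411018215380507588397088)) .nil))) .nil)))) .nil))))) .nil)))) .nil)))) (.cons (.br (nat_lit 12) (nat_lit 0) (.cons (.rf (nat_lit 842) (nat_lit 17022140995484340291616)) (.cons (.ev (nat_lit 5192297169233485635973063890698496) (nat_lit 1)) (.cons (.br (nat_lit 12) (nat_lit 0) (.cons (.rf (nat_lit 842) (nat_lit 17022140995484340291616)) (.cons (.ev (nat_lit 5192297169233485635973063890698496) (nat_lit 1)) (.cons (.br (nat_lit 13) (nat_lit 0) (.cons (.rf (nat_lit 845) (nat_lit 19926519232773908561233952)) (.cons (.rf (nat_lit 846) (nat_lit 19926519232773908561233952)) (.cons (.rf (nat_lit 846) (nat_lit 18755372345022236548237344)) (.cons (.br (nat_lit 13) (nat_lit 0) (.cons (.rf (nat_lit 845) (nat_lit 19926519232773908561233952)) (.cons (.rf (nat_lit 846) (nat_lit 19926519232773908561233952)) (.cons (.rf (nat_lit 846) (nat_lit 18755372345022236548237344)) .nil))))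 .nil))))) .nil)))) .nil)))) (.cons (.br (nat_lit 12) (nat_lit 0) (.cons (.rf (nat_lit 853) (nat_lit 583706118939841765935136)) (.cons (.rf (nat_lit 859) (nat_lit 583706118939841765935136)) (.cons (.rf (nat_lit 864) (nat_lit 583706118939841765935136)) (.cons (.br (nat_lit 12) (nat_lit 0) (.cons (.rf (nat_lit 853) (nat_lit 583706118939841765935136)) (.cons (.rf (nat_lit 859) (nat_lit 583706118939841765935136)) (.cons (.rf (nat_lit 864) (nat_lit 583706118939841765935136)) (.cons (.br (nat_lit 13) (nat_lit 0) (.cons (.rf (nat_lit 869) (nat_lit 677582165103132179601393696)) (.cons (.rf (nat_lit 871) (nat_lit 677582165103132179601393696)) (.cons (.rf (nat_lit 873) (nat_lit 677582165103132179601393696)) (.cons (.rf (nat_lit 873) (nat_lit 640105464695078675185502240)) .nil))))) .nil))))) .nil))))) .nil))))),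
 (.br (nat_lit 14) (nat_lit 0) (.cons (.br (nat_lit 15) (nat_lit 0) (.cons (.kr (nat_lit 10384593717074377623825337280364545) (nat_lit 2658455991569831764254358198581985280) (nat_lit 0) (nat_lit 1)) (.cons (.rf (nat_lit 239) (nat_lit 631047566484804673)) .nil))) .nil)),
 (.br (nat_lit 15) (nat_lit 0) (.cons (.ev (nat_lit 1344825248927959921957512504871551744) (nat_lit 2)) .nil)),
 (.br (nat_lit 15) (nat_lit 0) (.cons (.br (nat_lit 16) (nat_lit 0) (.cons (.zr (nat_lit 3992896646160543066829588075445813248) (nat_lit 261677140162201679612297858275408976281856) (nat_lit 8) (nat_lit 11)) .nil)) .nil)),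
 (.br (nat_lit 13) (nat_lit 0) (.cons (.ev (nat_lit 20361947251175828446778063126528) (nat_lit 1)) (.cons (.rf (nat_lit 167) (nat_lit 593822465341589697)) .nil))),
 (.br (nat_lit 14) (nat_lit 0) (.cons (.ev (nat_lit 5212658496305716002115079590969345) (nat_lit 1)) (.cons (.br (nat_lit 15) (nat_lit 0) (.cons (.ev (nat_lit 340282387282577443295942493119581323520) (nat_lit 1)) (.cons (.ev (nat_lit 2668881308562438473891824013175554561) (nat_lit 2)) .nil))) .nil)))]

theorem c30 : chkAll C T R L30 (nat_lit 854) = true := by decide +kernel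

theorem l30 : (nat_lit 854) + L30.length = (nat_lit 880) := by decide +kernel

/-- part of the certificates -/
def L31 : List Prf := [(.br (nat_lit 15) (nat_lit 0) (.cons (.br (nat_lit 16) (nat_lit 0) (.cons (.zr (nat_lit 5327337300751259110218326374952862720) (nat_lit 522673715590561487133317193792613303451651) (nat_lit 16) (nat_lit 11)) .nil)) .nil)),
 (.br (nat_lit 14) (nat_lit 0) (.cons (.ev (nat_lit 5212658496305716002115079590969345) (nat_lit 1)) (.cons (.br (nat_lit 15) (nat_lit 0) (.cons (.ev (nat_lit 340282387282576234351748192015046738177) (nat_lit 1)) (.cons (.ev (nat_lit 2668881308564856362280426222244725251) (nat_lit 2)) .nil))) .nil))),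
 (.br (nat_lit 14) (nat_lit 0) (.cons (.ev (nat_lit 680575118436215389194101703683226993153) (nat_lit 2)) (.cons (.br (nat_lit 15) (nat_lit 0) (.cons (.ev (nat_lit 683223230556724713633772580093156261891) (nat_lit 2)) (.cons (.kr (nat_lit 10384593717074377623825337280364545) (nat_lit 2658455991569831764254358198581985280) (nat_lit 0) (nat_lit 1)) .nil))) .nil))),
 (.br (nat_lit 14) (nat_lit 0) (.cons (.kr (nat_lit 20282409603651670423947251286272) (nat_lit 1329227995784915872903807060297121792) (nat_lit 1) (nat_lit 0)) (.cons (.rf (nat_lit 788) (nat_lit 18314675320988225445922)) .nil))),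
 (.br (nat_lit 17) (nat_lit 0) (.cons (.kr (nat_lit 5192296859743753520202719541854209) (nat_lit 87112285931760246646642346246610666651904) (nat_lit 0) (nat_lit 2)) (.cons (.ev (nat_lit 87112285952121885621715653879806455513345) (nat_lit 1)) .nil))),
 (.br (nat_lit 15) (nat_lit 0) (.cons (.ev (nat_lit 1329248278504009256762060049708286208) (nat_lit 1)) (.cons (.rf (nat_lit 170) (nat_lit 522821537413240130)) .nil))),
 (.br (nat_lit 16) (nat_lit 0) (.cons (.ev (nat_lit 680564774407315109027583864653660291073) (nat_lit 2)) (.cons (.ev (nat_lit 680564774407317526842185490585104679427) (nat_lit 2)) (.cons (.kr (nat_lit 2658455991572249597590958567002734593) (nat_lit 174224571863520493297988612513487950709248) (nat_lit 0) (nat_lit 2)) .nil)))),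
 (.br (nat_lit 13) (nat_lit 0) (.cons (.br (nat_lit 15) (nat_lit 0) (.cons (.kr (nat_lit 2658455991569831764254358198565208065) (nat_lit 40564819212025707612239141273600) (nat_lit 0) (nat_lit 1)) (.cons (.rf (nat_lit 239) (nat_lit 631046501332912289)) .nil))) .nil)),
 (.br (nat_lit 15) (nat_lit 0) (.cons (.ev (nat_lit 1334481220030088162201258856301003520) (nat_lit 2)) .nil)),
 (.br (nat_lit 15) (nat_lit 0) (.cons (.rf (nat_lit 888) (nat_lit 677582165103132179601393696)) (.cons (.rf (nat_lit 888) (nat_lit 640105464695078675185502240)) .nil))),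
 (.br (nat_lit 13) (nat_lit 0) (.cons (.ev (nat_lit 5212658496305716002115079590969345) (nat_lit 1)) (.cons (.rf (nat_lit 167) (nat_lit 630978331602687201)) .nil))),
 (.br (nat_lit 13) (nat_lit 0) (.cons (.ev (nat_lit 5212658496305716002115079590969345) (nat_lit 1)) (.cons (.br (nat_lit 15) (nat_lit 0) (.cons (.ev (nat_lit 340287559297026374471900599668676034817) (nat_lit 1)) (.cons (.ev (nat_lit 2668881308562438473891824013175554561) (nat_lit 2)) .nil))) .nil))),
 (.br (nat_lit 15) (nat_lit 0) (.cons (.br (nat_lit 16) (nat_lit 0) (.cons (.zr (nat_lit 5327337300751259110218326374952862720) (nat_lit 522673715590561487133317193792613303451651) (nat_lit 16) (nat_lit 11)) .nil)) .nil)),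
 (.br (nat_lit 13) (nat_lit 0) (.cons (.br (nat_lit 15) (nat_lit 0) (.cons (.ev (nat_lit 2668881308564856362280426222244725251) (nat_lit 2)) (.cons (.rf (nat_lit 167) (nat_lit 631046434660091205)) .nil))) (.cons (.br (nat_lit 16) (nat_lit 0) (.cons (.ev (nat_lit 680564774407317526842185490585104679427) (nat_lit 2)) (.cons (.rf (nat_lit 175) (nat_lit 629853531216614625)) .nil))) (.cons (.br (nat_lit 15) (nat_lit 0) (.cons (.rf (nat_lit 892) (nat_lit 677582165103132179601393696)) (.cons (.br (nat_lit 15) (nat_lit 0) (.cons (.rf (nat_lit 892) (nat_lit 677582165103132179601393696)) .nil)) .nil))) .nil)))),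
 (.br (nat_lit 13) (nat_lit 0) (.cons (.rf (nat_lit 893) (nat_lit 19926519232773908561233952)) (.cons (.br (nat_lit 14) (nat_lit 0) (.cons (.ev (nat_lit 5212658496305716002115079590969345) (nat_lit 1)) (.cons (.ev (nat_lit 680564774407317526842185490585104679427) (nat_lit 2)) (.cons (.br (nat_lit 16) (nat_lit 0) (.cons (.kr (nat_lit 2658455991569831764254358198565208065) (nat_lit 40564819212025707612239141273600) (nat_lit 0) (nat_lit 1)) (.cons (.ev (nat_lit 340287559297025165527706298564107895040) (nat_lit 1)) .nil))) .nil)))) (.cons (.br (nat_lit 15) (nat_lit 0) (.cons (.rf (nat_lit 167) (nat_lit 630978264930026821)) (.cons (.br (nat_lit 14) (nat_lit 0) (.cons (.ev (nat_lit 683233574585622575985688793191278575617) (nat_lit 2)) (.cons (.rf (nat_lit 788) (nat_lit 20675897966656370317473)) .nil))) (.cons (.kr (nat_lit 2658455991569831764254358198565208065) (nat_lit 40564819212025707612239141273600) (nat_lit 0) (nat_lit 1)) .nil)))) .nil)))),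
 (.br (nat_lit 13) (nat_lit 0) (.cons (.rf (nat_lit 893) (nat_lit 19926519232773908561233952)) (.cons (.rf (nat_lit 894) (nat_lit 19926519232773908561233952)) (.cons (.br (nat_lit 14) (nat_lit 0) (.cons (.br (nat_lit 15) (nat_lit 0) (.cons (.ev (nat_lit 340287559297025165527706298564107895040) (nat_lit 1)) (.cons (.ev (nat_lit 2668881308564856362280426222244725251) (nat_lit 2)) .nil))) (.cons (.rf (nat_lit 172) (nat_lit 629853531216614625)) (.cons (.ev (nat_lit 5212658496305716002115079590969345) (nat_lit 1)) .nil)))) .nil)))),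
 (.br (nat_lit 15) (nat_lit 0) (.cons (.br (nat_lit 16) (nat_lit 0) (.cons (.ev (nat_lit 341611594995951541869061554852851679233) (nat_lit 1)) .nil)) .nil)),
 (.br (nat_lit 14) (nat_lit 0) (.cons (.ev (nat_lit 2720844845061844373524702015583814661) (nat_lit 4)) (.cons (.br (nat_lit 15) (nat_lit 0) (.cons (.ev (nat_lit 341611594995952755517175876232610381825) (nat_lit 1)) (.cons (.ev (nat_lit 2668881308562438473891824013175554561) (nat_lit 2)) .nil))) .nil))),
 (.br (nat_lit 15) (nat_lit 0) (.cons (.kr (nat_lit 680564733841876931667562723286162866177) (nat_lit 40564821625155124192340944617472) (nat_lit 0) (nat_lit 1)) (.cons (.br (nat_lit 16) (nat_lit 0) (.cons (.ev (nat_lit 680575118436215389194101703683226993153) (nat_lit 2)) (.cons (.ev (nat_lit 341611594995952750776362367818590650368) (nat_lit 1)) .nil))) .nil))),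
 (.br (nat_lit 14) (nat_lit 0) (.cons (.br (nat_lit 15) (nat_lit 0) (.cons (.ev (nat_lit 680575118436212971379500077751816159747) (nat_lit 2)) (.cons (.br (nat_lit 16) (nat_lit 0) (.cons (.ev (nat_lit 1369104917264092131506397237869644481539) (nat_lit 3)) .nil)) .nil))) (.cons (.br (nat_lit 17) (nat_lit 0) (.cons (.ev (nat_lit 2679225339319628773557055322847313927) (nat_lit 3)) (.cons (.ev (nat_lit 87112291144339825479057286160747851677953) (nat_lit 1)) .nil))) .nil))),
 (.br (nat_lit 14) (nat_lit 0) (.cons (.rf (nat_lit 899) (nat_lit 677582165103132179601393696)) (.cons (.br (nat_lit 17) (nat_lit 0) (.cons (.ev (nat_lit 87112291144339825479057286160747851677953) (nat_lit 1)) (.cons (.ev (nat_lit 680575118436212971379500077751816159747) (nat_lit 2)) .nil))) .nil))),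
 (.br (nat_lit 14) (nat_lit 0) (.cons (.ev (nat_lit 5192376396182351786553327124283648) (nat_lit 1)) (.cons (.rf (nat_lit 166) (nat_lit 558884418247496897)) .nil))),
 (.br (nat_lit 15) (nat_lit 0) (.cons (.br (nat_lit 16) (nat_lit 0) (.cons (.ev (nat_lit 341611594995951541869061554852851679233) (nat_lit 1)) .nil)) .nil)),
 (.br (nat_lit 13) (nat_lit 0) (.cons (.ev (nat_lit 2679468729470394965859849623094559757) (nat_lit 4)) (.cons (.br (nat_lit 15) (nat_lit 0) (.cons (.ev (nat_lit 341611594995952755517175876232610381825) (nat_lit 1)) (.cons (.ev (nat_lit 2668881308562438473891824013175554561) (nat_lit 2)) .nil))) .nil))),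
 (.br (nat_lit 15) (nat_lit 0) (.cons (.kr (nat_lit 10384593719487507040405439083708417) (nat_lit 680564733841876931667562723286179643392) (nat_lit 0) (nat_lit 1)) (.cons (.br (nat_lit 16) (nat_lit 0) (.cons (.ev (nat_lit 680564774407317526842185490585104679427) (nat_lit 2)) (.cons (.ev (nat_lit 341611594995952750776362367818590650368) (nat_lit 1)) .nil))) .nil))),
 (.br (nat_lit 13) (nat_lit 0) (.cons (.br (nat_lit 15) (nat_lit 0) (.cons (.ev (nat_lit 680564774407315109027583864653626737153) (nat_lit 2)) (.cons (.br (nat_lit 16) (nat_lit 0) (.cons (.ev (nat_lit 1369125605321887856210229664066023326727) (nat_lit 3)) .nil)) .nil))) (.cons (.rf (nat_lit 197) (nat_lit 20003260024328870613228579)) .nil))),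
 (.br (nat_lit 13) (nat_lit 0) (.cons (.rf (nat_lit 905) (nat_lit 677582165103132179601393696)) (.cons (.br (nat_lit 17) (nat_lit 0) (.cons (.ev (nat_lit 87112291144339825479057286160747851677953) (nat_lit 1)) (.cons (.ev (nat_lit 680564774407315109027583864653626737153) (nat_lit 2)) .nil))) .nil))),
 (.br (nat_lit 15) (nat_lit 0) (.cons (.ev (nat_lit 1329248357423895687096723693933428993) (nat_lit 1)) .nil)),
 (.br (nat_lit 14) (nat_lit 0) (.cons (.ev (nat_lit 1329248357422682057357371368334754048) (nat_lit 1)) (.cons (.br (nat_lit 15) (nat_lit 0) (.cons (.ev (nat_lit 683223230556724713633772580093156261891) (nat_lit 2)) (.cons (.zr (nat_lit 7975368451935380400383689010369134592) (nat_lit 31194345975266139779012799210979333) (nat_lit 16) (nat_lit 13)) .nil))) .nil))),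
 (.br (nat_lit 15) (nat_lit 0) (.cons (.ev (nat_lit 683223230556724713633772580093156261891) (nat_lit 2)) .nil)),
 (.br (nat_lit 14) (nat_lit 0) (.cons (.br (nat_lit 16) (nat_lit 0) (.cons (.kr (nat_lit 10384593717074377623825337280364545) (nat_lit 680564733841876926945195958941557719040) (nat_lit 0) (nat_lit 1)) (.cons (.rf (nat_lit 886) (nat_lit 562773171763226082577319968)) .nil))) (.cons (.br (nat_lit 15) (nat_lit 0) (.cons (.ev (nat_lit 2679306468958043380238751111852459011) (nat_lit 3)) (.cons (.ev (nat_lit 87113620372414529072416186217363048300545) (nat_lit 1)) .nil))) .nil))),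
 (.br (nat_lit 12) (nat_lit 0) (.cons (.ev (nat_lit 5212579269347423565314245976457216) (nat_lit 1)) .nil)),
 (.br (nat_lit 14) (nat_lit 0) (.cons (.rf (nat_lit 910) (nat_lit 677582165103132179601393696)) (.cons (.br (nat_lit 16) (nat_lit 0) (.cons (.rf (nat_lit 911) (nat_lit 20678166659641450336321)) (.cons (.kr (nat_lit 10384593717074377623825337280364545) (nat_lit 680564733841876926945195958941557719040) (nat_lit 0) (nat_lit 1)) .nil))) .nil))),
 (.br (nat_lit 13) (nat_lit 0) (.cons (.kr (nat_lit 5192296859743753520202719541854210) (nat_lit 20282409603670117168025255805440) (nat_lit 0) (nat_lit 2)) (.cons (.ev (nat_lit 10425159155251756091710782782308353) (nat_lit 2)) (.cons (.rf (nat_lit 726) (nat_lit 21174442658381097775143971)) .nil)))),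
 (.br (nat_lit 13) (nat_lit 0) (.cons (.kr (nat_lit 5192296859743753520202719541854210) (nat_lit 20282409603670117168025255805440) (nat_lit 0) (nat_lit 2)) (.cons (.br (nat_lit 15) (nat_lit 0) (.cons (.ev (nat_lit 1334420371871613233315477917429465345) (nat_lit 1)) (.cons (.kr (nat_lit 680564733841876926945195958941540941825) (nat_lit 40564819212025707612239141273600) (nat_lit 0) (nat_lit 1)) (.cons (.br (nat_lit 16) (nat_lit 0) (.cons (.ev (nat_lit 340287579500517300600681285922181873920) (nat_lit 1)) (.cons (.ev (nat_lit 683223230556722295745383977884019982337) (nat_lit 2)) .nil))) .nil)))) (.cons (.br (nat_lit 14) (nat_lit 0) (.cons (.ev (nat_lit 1334420371871613233315477917429465345) (nat_lit 1)) (.cons (.br (nat_lit 15) (nat_lit 0) (.cons (.kr (nat_lit 10384593719492229407169783722409987) (nat_lit 680564733841876926982089447097549980672) (nat_lit 0) (nat_lit 2)) (.cons (.br (nat_lit 16) (nat_lit 0) (.cons (.ev (nat_lit 683233574585622575985688793191278575617) (nat_lit 2)) .nil)) .nil))) (.cons (.br (nat_lit 15) (nat_lit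 0) (.cons (.ev (nat_lit 2679306468958043380238751111852459011) (nat_lit 3)) (.cons (.ev (nat_lit 87113620372414529072416186217363048300545) (nat_lit 1)) .nil))) .nil)))) .nil)))),
 (.br (nat_lit 13) (nat_lit 0) (.cons (.ev (nat_lit 10425159155251756091710782782308353) (nat_lit 2)) (.cons (.rf (nat_lit 914) (nat_lit 19926519232773908561233952)) (.cons (.br (nat_lit 16) (nat_lit 0) (.cons (.rf (nat_lit 214) (nat_lit 629853531047800033)) (.cons (.br (nat_lit 15) (nat_lit 0) (.cons (.ev (nat_lit 683233574585622575985688793191278575617) (nat_lit 2)) (.cons (.ev (nat_lit 1329248357423890964658184334073725185) (nat_lit 1)) .nil))) (.cons (.kr (nat_lit 680564733841876926945195958941540941825) (nat_lit 40564819212025707612239141273600) (nat_lit 0) (nat_lit 1)) .nil)))) .nil))))]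

theorem c31 : chkAll C T R L31 (nat_lit 880) = true := by decide +kernel

theorem l31 : (nat_lit 880) + L31.length = (nat_lit 916) := by decide +kernel

/-- part of the certificates -/
def L32 : List Prf := [(.br (nat_lit 15) (nat_lit 0) (.cons (.ev (nat_lit 621392612095427827065683969) (nat_lit 2)) (.cons (.ev (nat_lit 1329248357422682057357371368334754048) (nat_lit 1)) (.cons (.ev (nat_lit 1334420371871613233315477917429465345) (nat_lit 1)) .nil)))),
 (.br (nat_lit 13) (nat_lit 0) (.cons (.br (nat_lit 14) (nat_lit 0) (.cons (.ev (nat_lit 10425159157669570693336714193141763) (nat_lit 2)) (.cons (.rf (nat_lit 214) (nat_lit 631011351320496353)) .nil))) (.cons (.br (nat_lit 14) (nat_lit 0) (.cons (.ev (nat_lit 10425159157669570693336714193141763) (nat_lit 2)) (.cons (.kr (nat_lit 5192296858534827628530496329220097) (nat_lit 20282409603651670423947268063232) (nat_lit 0) (nat_lit 1)) (.cons (.rf (nat_lit 916) (nat_lit 677582165103132179601393696)) .nil)))) (.cons (.br (nat_lit 14) (nat_lit 0) (.cons (.rf (nat_lit 214) (nat_lit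 630977266459940065)) (.cons (.rf (nat_lit 916) (nat_lit 640105464695078675185502240)) (.cons (.kr (nat_lit 5192296858534827628530496329220097) (nat_lit 20282409603651670423947268063232) (nat_lit 0) (nat_lit 1)) .nil)))) .nil)))),
 (.br (nat_lit 14) (nat_lit 0) (.cons (.ev (nat_lit 10425159157669570693336714193141763) (nat_lit 2)) (.cons (.br (nat_lit 16) (nat_lit 0) (.cons (.ev (nat_lit 683223230556724713633772580093156261891) (nat_lit 2)) (.cons (.kr (nat_lit 10384593717074377623825337280364545) (nat_lit 680564733841876926945195958941557719040) (nat_lit 0) (nat_lit 1)) .nil))) .nil))),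
 (.br (nat_lit 13) (nat_lit 0) (.cons (.rf (nat_lit 917) (nat_lit 19926519232773908561233952)) (.cons (.br (nat_lit 16) (nat_lit 0) (.cons (.ev (nat_lit 683223230556724713633772580093156261891) (nat_lit 2)) (.cons (.rf (nat_lit 214) (nat_lit 628829920244893921)) .nil))) (.cons (.br (nat_lit 14) (nat_lit 0) (.cons (.rf (nat_lit 918) (nat_lit 19926519232773908561233952)) (.cons (.br (nat_lit 14) (nat_lit 0) (.cons (.rf (nat_lit 918) (nat_lit 19926519232773908561233952)) .nil)) .nil))) .nil)))),
 (.br (nat_lit 13) (nat_lit 0) (.cons (.rf (nat_lit 917) (nat_lit 19926519232773908561233952)) (.cons (.rf (nat_lit 919) (nat_lit 19926519232773908561233952)) (.cons (.br (nat_lit 16) (nat_lit 0) (.cons (.br (nat_lit 14) (nat_lit 0) (.cons (.ev (nat_lit 683233574585622575985688793191278575617) (nat_lit 2)) (.cons (.ev (nat_lit 340287579500516091693380472956442902785) (nat_lit 1)) .nil))) (.cons (.rf (nat_lit 214) (nat_lit 628727665663225057)) (.cons (.kr (nat_lit 680564733841876926945195958941540941825) (nat_lit 40564819212025707612239141273600)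 (nat_lit 0) (nat_lit 1)) .nil)))) .nil)))),
 (.br (nat_lit 13) (nat_lit 0) (.cons (.br (nat_lit 14) (nat_lit 0) (.cons (.ev (nat_lit 2658537281523904069724629126468468739) (nat_lit 3)) (.cons (.ev (nat_lit 10425159157669570693336714193141763) (nat_lit 2)) (.cons (.br (nat_lit 16) (nat_lit 0) (.cons (.ev (nat_lit 340282366921249157417462311203394027776) (nat_lit 1)) (.cons (.ev (nat_lit 340287579500517295896761265646957756673) (nat_lit 1)) .nil))) .nil)))) (.cons (.kr (nat_lit 680564733841879344778532559309978468355) (nat_lit 40564819212044154356317129016320) (nat_lit 0) (nat_lit 2)) (.cons (.br (nat_lit 15) (nat_lit 0) (.cons (.br (nat_lit 14) (nat_lit 0) (.cons (.kr (nat_lit 680564733841879344778532559310012022785) (nat_lit 10384593717074396070569415284884480) (nat_lit 0) (nat_lit 2)) (.cons (.ev (nat_lit 2679306468962879157015955529990800391) (nat_lit 3)) .nil))) (.cons (.ev (nat_lit 340282366921249162121382331478584590593) (nat_lit 1)) (.cons (.br (nat_lit 16) (nat_lit 0) (.cons (.br (nat_lit 14) (nat_lit 0) (.cons (.ev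 (nat_lit 1334420371872822140616290883134882048) (nat_lit 1)) .nil)) (.cons (.ev (nat_lit 174224571904085931475348633654855414579713) (nat_lit 2)) .nil))) .nil)))) .nil)))),
 (.br (nat_lit 16) (nat_lit 0) (.cons (.ev (nat_lit 1329248357423890964658184334073725185) (nat_lit 1)) (.cons (.kr (nat_lit 680564733841879344778532559310012022785) (nat_lit 10384593717074396070569415284884480) (nat_lit 0) (nat_lit 2)) (.cons (.ev (nat_lit 87113615159835259725029586449953745600513) (nat_lit 1)) .nil)))),
 (.br (nat_lit 15) (nat_lit 0) (.cons (.rf (nat_lit 921) (nat_lit 19926519232773908561233952)) (.cons (.ev (nat_lit 340282366921249162121382331478584590593) (nat_lit 1)) (.cons (.br (nat_lit 14) (nat_lit 0) (.cons (.br (nat_lit 13) (nat_lit 0) (.cons (.ev (nat_lit 10425159157669570693336714193141763) (nat_lit 2)) (.cons (.rf (nat_lit 922) (nat_lit 677582165103132179601393696)) .nil))) (.cons (.kr (nat_lit 680564733841879344778532559310012022785) (nat_lit 10384593717074396070569415284884480) (nat_lit 0) (nat_lit 2)) (.cons (.br (nat_lit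 17) (nat_lit 0) (.cons (.rf (nat_lit 922) (nat_lit 677582165103132179601393696)) (.cons (.ev (nat_lit 174224582248114829337700549867953604002307) (nat_lit 2)) .nil))) .nil)))) .nil)))),
 (.br (nat_lit 16) (nat_lit 0) (.cons (.ev (nat_lit 87113615159835260938677700771333504303105) (nat_lit 1)) .nil)),
 (.br (nat_lit 15) (nat_lit 0) (.cons (.ev (nat_lit 340287559218106488023190966970290864128) (nat_lit 1)) .nil)),
 (.br (nat_lit 12) (nat_lit 0) (.cons (.ev (nat_lit 5212579269347423565314245976457216) (nat_lit 1)) .nil)),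
 (.br (nat_lit 13) (nat_lit 0) (.cons (.br (nat_lit 14) (nat_lit 0) (.cons (.kr (nat_lit 5192296858534827628530496329220097) (nat_lit 20282409603651670423947268063232) (nat_lit 0) (nat_lit 1)) (.cons (.ev (nat_lit 10425159157669570693336714193141763) (nat_lit 2)) (.cons (.br (nat_lit 15) (nat_lit 0) (.cons (.rf (nat_lit 924) (nat_lit 677582165103132179601393696)) (.cons (.ev (nat_lit 87113620372414529072416186217363048300545) (nat_lit 1)) .nil))) .nil)))) (.cons (.br (nat_lit 14) (nat_lit 0) (.cons (.ev (nat_lit 10425159157669570693336714193141763) (nat_lit 2)) (.cons (.kr (nat_lit 5192296858534827628530496329220097) (nat_lit 20282409603651670423947268063232) (nat_lit 0) (nat_lit 1)) (.cons (.br (nat_lit 16) (nat_lit 0) (.cons (.br (nat_lit 15) (nat_lit 0) (.cons (.ev (nat_lit 1329248357423890964658184334073725185) (nat_lit 1)) .nil)) (.cons (.ev (nat_lit 87452568318963904198748837936578739306496) (nat_lit 1)) .nil))) .nil)))) (.cons (.br (nat_lit 14) (nat_lit 0) (.cons (.br (nat_lit 15) (nat_lit 0) (.cons (.rf (nat_lit 925)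 (nat_lit 21174442659471745632798752)) (.cons (.ev (nat_lit 87113620372414529072416186217363048300545) (nat_lit 1)) .nil))) (.cons (.br (nat_lit 16) (nat_lit 0) (.cons (.rf (nat_lit 926) (nat_lit 20678166659641450336321)) (.cons (.ev (nat_lit 87452573490978353129924796043127834017793) (nat_lit 1)) .nil))) (.cons (.kr (nat_lit 5192296858534827628530496329220097) (nat_lit 20282409603651670423947268063232) (nat_lit 0) (nat_lit 1)) .nil)))) .nil)))),
 (.br (nat_lit 12) (nat_lit 0) (.cons (.ev (nat_lit 5212579269347423565314245976457216) (nat_lit 1)) .nil)),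
 (.br (nat_lit 13) (nat_lit 0) (.cons (.rf (nat_lit 927) (nat_lit 677582165103132179601393696)) (.cons (.br (nat_lit 15) (nat_lit 0) (.cons (.br (nat_lit 16) (nat_lit 0) (.cons (.ev (nat_lit 340287579500516091693380472956442902785) (nat_lit 1)) (.cons (.ev (nat_lit 683223230556722295745383977884019982337) (nat_lit 2)) .nil))) (.cons (.kr (nat_lit 680564733841876926945195958941540941825) (nat_lit 40564819212025707612239141273600) (nat_lit 0) (nat_lit 1)) (.cons (.br (nat_lit 16) (nat_lit 0) (.cons (.ev (nat_lit 683223230556722295745383977884019982337) (nat_lit 2)) (.cons (.ev (nat_lit 87452568318963904198748837936578739306496) (nat_lit 1)) .nil))) .nil)))) (.cons (.br (nat_lit 17) (nat_lit 0) (.cons (.br (nat_lit 14) (nat_lit 0) (.cons (.ev (nat_lit 87113620372414529072416186217363048300545) (nat_lit 1)) (.cons (.rf (nat_lit 928) (nat_lit 20678166659641450336321)) .nil))) (.cons (.kr (nat_lit 87112285931760246646623899502532662132737) (nat_lit 20282409603651670423947251286272) (nat_lit 0) (nat_lit 2)) (.cons (.ev (nat_lit 174224571904085933893163235280786892521987)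 (nat_lit 2)) .nil)))) .nil)))),
 (.br (nat_lit 13) (nat_lit 0) (.cons (.rf (nat_lit 927) (nat_lit 677582165103132179601393696)) (.cons (.rf (nat_lit 929) (nat_lit 677582165103132179601393696)) (.cons (.br (nat_lit 17) (nat_lit 0) (.cons (.br (nat_lit 14) (nat_lit 0) (.cons (.br (nat_lit 15) (nat_lit 0) (.cons (.ev (nat_lit 1329248357423890964658184334073725185) (nat_lit 1)) .nil)) (.cons (.ev (nat_lit 340287579500516091693380472956442902785) (nat_lit 1)) .nil))) (.cons (.ev (nat_lit 174224571904085933893163235280786892521987) (nat_lit 2)) (.cons (.kr (nat_lit 680564733841876926945195958941540941825) (nat_lit 40564819212025707612239141273600) (nat_lit 0) (nat_lit 1)) .nil)))) .nil)))),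
 (.br (nat_lit 10) (nat_lit 0) (.cons (.kr (nat_lit 2417851783344446442045441) (nat_lit 4740813508422626443776) (nat_lit 0) (nat_lit 2)) (.cons (.kr (nat_lit 1208925891672223229411329) (nat_lit 18446744078004519424) (nat_lit 0) (nat_lit 2)) (.cons (.br (nat_lit 11) (nat_lit 0) (.cons (.ev (nat_lit 618974797493801895587741699) (nat_lit 2)) (.cons (.ev (nat_lit 621392612095427827065683969) (nat_lit 2)) (.cons (.br (nat_lit 12) (nat_lit 0) (.cons (.ev (nat_lit 40725134865020576167111405209093) (nat_lit 3)) (.cons (.ev (nat_lit 5192297168024578335441577423405056) (nat_lit 1)) (.cons (.br (nat_lit 13) (nat_lit 0) (.cons (.ev (nat_lit 5192297169228781716234267938258944) (nat_lit 1)) (.cons (.br (nat_lit 14) (nat_lit 0) (.cons (.kr (nat_lit 10384593719487507040405439083708417) (nat_lit 2658455991569836486621122543203909632) (nat_lit 0) (nat_lit 1)) (.cons (.br (nat_lit 15) (nat_lit 0) (.cons (.ev (nat_lit 15971545863223517178193680753385146887) (nat_lit 4)) (.cons (.rf (nat_lit 170) (nat_lit 596110584512153825)) .nil))) .nil))) (.cons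 (.br (nat_lit 14) (nat_lit 0) (.cons (.br (nat_lit 15) (nat_lit 0) (.cons (.ev (nat_lit 1329248357422686761277391643558871297) (nat_lit 1)) (.cons (.rf (nat_lit 170) (nat_lit 596075434532213985)) .nil))) (.cons (.br (nat_lit 16) (nat_lit 0) (.cons (.ev (nat_lit 340282387282577438555128984705561592065) (nat_lit 1)) (.cons (.rf (nat_lit 170) (nat_lit 560012553723352386)) .nil))) (.cons (.br (nat_lit 15) (nat_lit 0) (.cons (.br (nat_lit 15) (nat_lit 0) (.cons (.ev (nat_lit 2668881308562438473891824013175554561) (nat_lit 2)) .nil)) (.cons (.br (nat_lit 15) (nat_lit 0) (.cons (.ev (nat_lit 2668881308562438473891824013175554561) (nat_lit 2)) .nil)) .nil))) .nil)))) .nil)))) .nil)))) (.cons (.br (nat_lit 12) (nat_lit 0) (.cons (.br (nat_lit 14) (nat_lit 0) (.cons (.rf (nat_lit 875) (nat_lit 583706118939841765935136)) (.cons (.br (nat_lit 14) (nat_lit 0) (.cons (.rf (nat_lit 875) (nat_lit 583706118939841765935136)) (.cons (.br (nat_lit 15) (nat_lit 0) (.cons (.rf (nat_lit 876) (nat_lit 677582165103132179601393696)) (.cons (.rf (nat_lit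 876) (nat_lit 640105464695078675185502240)) .nil))) .nil))) .nil))) (.cons (.br (nat_lit 13) (nat_lit 0) (.cons (.ev (nat_lit 5212658497514660196416184159109120) (nat_lit 1)) (.cons (.br (nat_lit 14) (nat_lit 0) (.cons (.kr (nat_lit 7985752568428982799803480034779332613) (nat_lit 81447789009425391195180765544448) (nat_lit 0) (nat_lit 1)) (.cons (.br (nat_lit 15) (nat_lit 0) (.cons (.ev (nat_lit 5379260271822140074397971967553700367) (nat_lit 4)) (.cons (.rf (nat_lit 166) (nat_lit 631047566484736225)) .nil))) .nil))) (.cons (.br (nat_lit 14) (nat_lit 0) (.cons (.br (nat_lit 15) (nat_lit 0) (.cons (.ev (nat_lit 2668881308562438473891824013175554561) (nat_lit 2)) (.cons (.rf (nat_lit 167) (nat_lit 631047566484736225)) .nil))) (.cons (.br (nat_lit 16) (nat_lit 0) (.cons (.ev (nat_lit 680575118436215389194101703683226993153) (nat_lit 2)) (.cons (.rf (nat_lit 175) (nat_lit 629888647842399554)) .nil))) (.cons (.br (nat_lit 15) (nat_lit 0) (.cons (.rf (nat_lit 877) (nat_lit 677582165103132179601393696)) (.cons (.br (nat_lit 15) (nat_lit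 0) (.cons (.rf (nat_lit 877) (nat_lit 677582165103132179601393696)) .nil)) .nil))) .nil)))) .nil)))) (.cons (.br (nat_lit 13) (nat_lit 0) (.cons (.br (nat_lit 14) (nat_lit 0) (.cons (.kr (nat_lit 2689609772723463304175649967587721223) (nat_lit 81447789004703024430836177174528) (nat_lit 0) (nat_lit 1)) (.cons (.br (nat_lit 15) (nat_lit 0) (.cons (.ev (nat_lit 5379260271812468815991468241641931271) (nat_lit 4)) (.cons (.rf (nat_lit 166) (nat_lit 596110584506058977)) .nil))) .nil))) (.cons (.ev (nat_lit 1329227996095614530911531107096723713) (nat_lit 1)) (.cons (.br (nat_lit 14) (nat_lit 0) (.cons (.rf (nat_lit 878) (nat_lit 622703726024184607901728)) (.cons (.rf (nat_lit 879) (nat_lit 19926519232773908561233952)) (.cons (.br (nat_lit 14) (nat_lit 0) (.cons (.rf (nat_lit 167) (nat_lit 631013481618180321)) (.cons (.rf (nat_lit 879) (nat_lit 19926519232773908561233952)) .nil))) .nil)))) .nil)))) (.cons (.br (nat_lit 13) (nat_lit 0) (.cons (.br (nat_lit 14) (nat_lit 0) (.cons (.br (nat_lit 15) (nat_lit 0) (.cons (.ev (nat_lit 2668881308564856362280426222244725251)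 (nat_lit 2)) (.cons (.rf (nat_lit 167) (nat_lit 631047533098075458)) .nil))) (.cons (.br (nat_lit 16) (nat_lit 0) (.cons (.ev (nat_lit 680575118436215389194101703683226993153) (nat_lit 2)) (.cons (.rf (nat_lit 175) (nat_lit 629888681229060321)) .nil))) (.cons (.br (nat_lit 15) (nat_lit 0) (.cons (.rf (nat_lit 880) (nat_lit 677582165103132179601393696)) (.cons (.br (nat_lit 15) (nat_lit 0) (.cons (.rf (nat_lit 880) (nat_lit 677582165103132179601393696)) .nil)) .nil))) .nil)))) (.cons (.br (nat_lit 14) (nat_lit 0) (.cons (.rf (nat_lit 878) (nat_lit 622702608804744899337545)) (.cons (.rf (nat_lit 881) (nat_lit 19926519232773908561233952)) (.cons (.br (nat_lit 14) (nat_lit 0) (.cons (.rf (nat_lit 167) (nat_lit 631013448231519554)) (.cons (.rf (nat_lit 881) (nat_lit 19926519232773908561233952)) .nil))) .nil)))) (.cons (.br (nat_lit 14) (nat_lit 0) (.cons (.rf (nat_lit 882) (nat_lit 19926519232773908561233952)) (.cons (.br (nat_lit 14) (nat_lit 0) (.cons (.ev (nat_lit 680575118436215389194101703683226993153) (nat_lit 2)) (.cons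 (.rf (nat_lit 172) (nat_lit 629888681229060321)) .nil))) (.cons (.br (nat_lit 14) (nat_lit 0) (.cons (.rf (nat_lit 882) (nat_lit 19926519232773908561233952)) (.cons (.rf (nat_lit 172) (nat_lit 629888681229060321)) .nil))) .nil)))) (.cons (.br (nat_lit 14) (nat_lit 0) (.cons (.br (nat_lit 14) (nat_lit 0) (.cons (.rf (nat_lit 883) (nat_lit 21174442659472880612509728)) (.cons (.rf (nat_lit 884) (nat_lit 677582165103132179601393696)) .nil))) (.cons (.br (nat_lit 14) (nat_lit 0) (.cons (.rf (nat_lit 883) (nat_lit 21174442659472880612509728)) (.cons (.ev (nat_lit 5212658496305716002115079590969345) (nat_lit 1)) .nil))) (.cons (.br (nat_lit 14) (nat_lit 0) (.cons (.rf (nat_lit 884) (nat_lit 677582165103132179601393696)) (.cons (.ev (nat_lit 5212658496305716002115079590969345) (nat_lit 1)) .nil))) .nil)))) .nil))))) .nil))))) .nil))))) (.cons (.br (nat_lit 11) (nat_lit 0) (.cons (.ev (nat_lit 618974797493801895587741699) (nat_lit 2)) (.cons (.br (nat_lit 12) (nat_lit 0) (.cons (.ev (nat_lit 20282719088661563826614308962304) (nat_lit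 1)) (.cons (.ev (nat_lit 10384754032727372492380209527522823) (nat_lit 3)) (.cons (.br (nat_lit 13) (nat_lit 0) (.cons (.ev (nat_lit 20282720297605758127718877102081) (nat_lit 1)) (.cons (.br (nat_lit 14) (nat_lit 0) (.cons (.kr (nat_lit 2658455991569836486621122543187132417) (nat_lit 40564821625155124192340944617472) (nat_lit 0) (nat_lit 1)) (.cons (.br (nat_lit 15) (nat_lit 0) (.cons (.ev (nat_lit 1334420371871617937235498192620028160) (nat_lit 1)) (.cons (.rf (nat_lit 170) (nat_lit 596110584544659681)) .nil))) .nil))) (.cons (.br (nat_lit 14) (nat_lit 0) (.cons (.br (nat_lit 15) (nat_lit 0) (.cons (.ev (nat_lit 15961201834325654826277467655262833157) (nat_lit 4)) (.cons (.rf (nat_lit 170) (nat_lit 596075434499708129)) .nil))) (.cons (.rf (nat_lit 885) (nat_lit 622703726023049662793760)) (.cons (.br (nat_lit 15) (nat_lit 0) (.cons (.br (nat_lit 15) (nat_lit 0) (.cons (.ev (nat_lit 2668881308562438473891824013175554561) (nat_lit 2)) .nil)) (.cons (.br (nat_lit 15) (nat_lit 0) (.cons (.ev (nat_lit 2668881308562438473891824013175554561)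 (nat_lit 2)) .nil)) .nil))) .nil)))) .nil)))) .nil)))) (.cons (.ev (nat_lit 621392612095427827065683969) (nat_lit 2)) (.cons (.br (nat_lit 12) (nat_lit 0) (.cons (.br (nat_lit 13) (nat_lit 0) (.cons (.ev (nat_lit 5212658497514660196416184159109120) (nat_lit 1)) (.cons (.br (nat_lit 14) (nat_lit 0) (.cons (.kr (nat_lit 5192376396182351714214258109645056) (nat_lit 1329248278195728450465903230777819136) (nat_lit 1) (nat_lit 0)) (.cons (.br (nat_lit 15) (nat_lit 0) (.cons (.ev (nat_lit 2668881308562438473891824013175554561) (nat_lit 2)) (.cons (.rf (nat_lit 167) (nat_lit 631046501332751585)) .nil))) .nil))) (.cons (.br (nat_lit 14) (nat_lit 0) (.cons (.br (nat_lit 15) (nat_lit 0) (.cons (.ev (nat_lit 5327540127332828314816906476673696261) (nat_lit 4)) (.cons (.rf (nat_lit 166) (nat_lit 631046501332751585)) .nil))) (.cons (.br (nat_lit 16) (nat_lit 0) (.cons (.ev (nat_lit 680564774407317526842185490585104679427) (nat_lit 2)) (.cons (.rf (nat_lit 175) (nat_lit 629853464543954245)) .nil))) (.cons (.br (nat_lit 15) (nat_lit 0) (.cons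 (.br (nat_lit 15) (nat_lit 0) (.cons (.rf (nat_lit 886) (nat_lit 677582165103132179601393696)) .nil)) (.cons (.br (nat_lit 15) (nat_lit 0) (.cons (.rf (nat_lit 886) (nat_lit 677582165103132179601393696)) .nil)) .nil))) .nil)))) .nil)))) (.cons (.br (nat_lit 13) (nat_lit 0) (.cons (.rf (nat_lit 887) (nat_lit 583706118939841765935136)) (.cons (.br (nat_lit 13) (nat_lit 0) (.cons (.rf (nat_lit 887) (nat_lit 583706118939841765935136)) (.cons (.rf (nat_lit 889) (nat_lit 677582165103132179601393696)) .nil))) .nil))) (.cons (.br (nat_lit 14) (nat_lit 0) (.cons (.br (nat_lit 13) (nat_lit 0) (.cons (.kr (nat_lit 5192376396182351714214258109645056) (nat_lit 1329248278195728450465903230777819136) (nat_lit 1) (nat_lit 0)) (.cons (.br (nat_lit 15) (nat_lit 0) (.cons (.ev (nat_lit 5327540127323157056410402751030362637) (nat_lit 4)) (.cons (.rf (nat_lit 166) (nat_lit 596075434490565857)) .nil))) .nil))) (.cons (.ev (nat_lit 1329227996095614530911531107096723713) (nat_lit 1)) (.cons (.br (nat_lit 13) (nat_lit 0) (.cons (.rf (nat_lit 890)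 (nat_lit 19926519232773908561233952)) (.cons (.rf (nat_lit 891) (nat_lit 19926519232773908561233952)) (.cons (.br (nat_lit 13) (nat_lit 0) (.cons (.rf (nat_lit 167) (nat_lit 630978331602687201)) (.cons (.rf (nat_lit 891) (nat_lit 19926519232773908561233952)) .nil))) .nil)))) .nil)))) (.cons (.br (nat_lit 13) (nat_lit 0) (.cons (.rf (nat_lit 893) (nat_lit 19926519232773908561233952)) (.cons (.rf (nat_lit 894) (nat_lit 19926519232773908561233952)) (.cons (.rf (nat_lit 895) (nat_lit 19926519232773908561233952)) (.cons (.br (nat_lit 13) (nat_lit 0) (.cons (.rf (nat_lit 893) (nat_lit 19926519232773908561233952)) (.cons (.rf (nat_lit 894) (nat_lit 19926519232773908561233952)) (.cons (.rf (nat_lit 895) (nat_lit 19926519232773908561233952)) .nil)))) .nil))))) .nil))))) .nil))))) (.cons (.br (nat_lit 11) (nat_lit 0) (.cons (.ev (nat_lit 618974797493801895587741699) (nat_lit 2)) (.cons (.br (nat_lit 13) (nat_lit 0) (.cons (.ev (nat_lit 20282719088661563826614308962304) (nat_lit 1)) (.cons (.br (nat_lit 14) (nat_lit 0) (.cons (.kr (nat_lit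 10384593717074377623825337280364547) (nat_lit 40564819207321787591972523868672) (nat_lit 0) (nat_lit 2)) (.cons (.kr (nat_lit 10384593717074396070569415284883969) (nat_lit 40564821625155124192340978171904) (nat_lit 0) (nat_lit 2)) (.cons (.br (nat_lit 12) (nat_lit 0) (.cons (.br (nat_lit 15) (nat_lit 0) (.cons (.ev (nat_lit 1334420371871617937235498192620028160) (nat_lit 1)) (.cons (.rf (nat_lit 166) (nat_lit 596110584539580641)) .nil))) (.cons (.br (nat_lit 16) (nat_lit 0) (.cons (.ev (nat_lit 680575118436215389194101703683226993153) (nat_lit 2)) (.cons (.rf (nat_lit 175) (nat_lit 629888681261566177)) .nil))) (.cons (.br (nat_lit 15) (nat_lit 0) (.cons (.br (nat_lit 15) (nat_lit 0) (.cons (.ev (nat_lit 1334420371872822140616290883134882048) (nat_lit 1)) .nil)) (.cons (.br (nat_lit 15) (nat_lit 0) (.cons (.ev (nat_lit 1334420371872822140616290883134882048) (nat_lit 1)) .nil)) .nil))) .nil)))) .nil)))) (.cons (.ev (nat_lit 20282720297605758127718877102081) (nat_lit 1)) (.cons (.br (nat_lit 12) (nat_lit 0) (.cons (.br (nat_lit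 14) (nat_lit 0) (.cons (.br (nat_lit 15) (nat_lit 0) (.cons (.ev (nat_lit 2668881308562438473891824013175554561) (nat_lit 2)) (.cons (.rf (nat_lit 167) (nat_lit 631047566517242081)) .nil))) (.cons (.br (nat_lit 16) (nat_lit 0) (.cons (.ev (nat_lit 680575118436215389194101703683226993153) (nat_lit 2)) (.cons (.rf (nat_lit 175) (nat_lit 629888647841351010)) .nil))) (.cons (.br (nat_lit 15) (nat_lit 0) (.cons (.rf (nat_lit 896) (nat_lit 677582165103132179601393696)) (.cons (.br (nat_lit 15) (nat_lit 0) (.cons (.rf (nat_lit 896) (nat_lit 677582165103132179601393696)) .nil)) .nil))) .nil)))) (.cons (.br (nat_lit 14) (nat_lit 0) (.cons (.br (nat_lit 14) (nat_lit 0) (.cons (.ev (nat_lit 2720844845061844373524702015583814661) (nat_lit 4)) (.cons (.rf (nat_lit 167) (nat_lit 631013481651701985)) .nil))) (.cons (.rf (nat_lit 897) (nat_lit 19926519232773908561233952)) (.cons (.br (nat_lit 14) (nat_lit 0) (.cons (.rf (nat_lit 167) (nat_lit 631013481651701985)) (.cons (.rf (nat_lit 897) (nat_lit 19926519232773908561233952)) .nil))) .nil))))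 (.cons (.br (nat_lit 15) (nat_lit 0) (.cons (.rf (nat_lit 898) (nat_lit 19926519232773908561233952)) (.cons (.kr (nat_lit 680564733841876931667562723286162866177) (nat_lit 40564821625155124192340944617472) (nat_lit 0) (nat_lit 1)) (.cons (.br (nat_lit 15) (nat_lit 0) (.cons (.rf (nat_lit 898) (nat_lit 19926519232773908561233952)) (.cons (.kr (nat_lit 680564733841876931667562723286162866177) (nat_lit 40564821625155124192340944617472) (nat_lit 0) (nat_lit 1)) .nil))) .nil)))) (.cons (.br (nat_lit 14) (nat_lit 0) (.cons (.rf (nat_lit 899) (nat_lit 677582165103132179601393696)) (.cons (.rf (nat_lit 900) (nat_lit 677582165103132179601393696)) (.cons (.br (nat_lit 14) (nat_lit 0) (.cons (.rf (nat_lit 899) (nat_lit 677582165103132179601393696)) (.cons (.rf (nat_lit 900) (nat_lit 677582165103132179601393696)) .nil))) .nil)))) .nil))))) .nil))))) (.cons (.br (nat_lit 14) (nat_lit 0) (.cons (.ev (nat_lit 5192297168019837521933163403673601) (nat_lit 1)) (.cons (.br (nat_lit 13) (nat_lit 0) (.cons (.kr (nat_lit 10384593717069673703805070662959617)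 (nat_lit 40564819212025707612239174828032) (nat_lit 0) (nat_lit 2)) (.cons (.kr (nat_lit 10384593719487507040405439083708419) (nat_lit 40564819212044154356317145793024) (nat_lit 0) (nat_lit 2)) (.cons (.br (nat_lit 12) (nat_lit 0) (.cons (.rf (nat_lit 901) (nat_lit 622703726024184607901728)) (.cons (.br (nat_lit 16) (nat_lit 0) (.cons (.ev (nat_lit 680564774407317526842185490585104679427) (nat_lit 2)) (.cons (.rf (nat_lit 175) (nat_lit 629853531249120481)) .nil))) (.cons (.br (nat_lit 15) (nat_lit 0) (.cons (.br (nat_lit 15) (nat_lit 0) (.cons (.ev (nat_lit 1329248357423890964658184334073725185) (nat_lit 1)) .nil)) (.cons (.br (nat_lit 15) (nat_lit 0) (.cons (.ev (nat_lit 1329248357423890964658184334073725185) (nat_lit 1)) .nil)) .nil))) .nil)))) .nil)))) (.cons (.ev (nat_lit 5192297169228781716234267938258944) (nat_lit 1)) (.cons (.br (nat_lit 12) (nat_lit 0) (.cons (.br (nat_lit 13) (nat_lit 0) (.cons (.br (nat_lit 15) (nat_lit 0) (.cons (.ev (nat_lit 2668881308562438473891824013175554561) (nat_lit 2)) (.cons (.rf (nat_lit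 167) (nat_lit 631046501365257441)) .nil))) (.cons (.br (nat_lit 16) (nat_lit 0) (.cons (.ev (nat_lit 680564774407317526842185490585104679427) (nat_lit 2)) (.cons (.rf (nat_lit 175) (nat_lit 629853464542905701)) .nil))) (.cons (.br (nat_lit 15) (nat_lit 0) (.cons (.rf (nat_lit 902) (nat_lit 677582165103132179601393696)) (.cons (.br (nat_lit 15) (nat_lit 0) (.cons (.rf (nat_lit 902) (nat_lit 677582165103132179601393696)) .nil)) .nil))) .nil)))) (.cons (.br (nat_lit 13) (nat_lit 0) (.cons (.br (nat_lit 13) (nat_lit 0) (.cons (.ev (nat_lit 2679468729470394965859849623094559757) (nat_lit 4)) (.cons (.rf (nat_lit 167) (nat_lit 630978331636208865)) .nil))) (.cons (.rf (nat_lit 903) (nat_lit 19926519232773908561233952)) (.cons (.br (nat_lit 13) (nat_lit 0) (.cons (.rf (nat_lit 167) (nat_lit 630978331636208865)) (.cons (.rf (nat_lit 903) (nat_lit 19926519232773908561233952)) .nil))) .nil)))) (.cons (.br (nat_lit 15) (nat_lit 0) (.cons (.rf (nat_lit 904) (nat_lit 19926519232773908561233952)) (.cons (.kr (nat_lit 10384593719487507040405439083708417)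 (nat_lit 680564733841876931667562723286179643392) (nat_lit 0) (nat_lit 1)) (.cons (.br (nat_lit 15) (nat_lit 0) (.cons (.rf (nat_lit 904) (nat_lit 19926519232773908561233952)) (.cons (.kr (nat_lit 10384593719487507040405439083708417) (nat_lit 680564733841876931667562723286179643392) (nat_lit 0) (nat_lit 1)) .nil))) .nil)))) (.cons (.br (nat_lit 13) (nat_lit 0) (.cons (.rf (nat_lit 905) (nat_lit 677582165103132179601393696)) (.cons (.rf (nat_lit 906) (nat_lit 677582165103132179601393696)) (.cons (.br (nat_lit 13) (nat_lit 0) (.cons (.rf (nat_lit 197) (nat_lit 20003260024328870613228579)) (.cons (.rf (nat_lit 906) (nat_lit 677582165103132179601393696)) .nil))) .nil)))) .nil))))) .nil))))) (.cons (.ev (nat_lit 621392612095427827065683969) (nat_lit 2)) (.cons (.br (nat_lit 12) (nat_lit 0) (.cons (.br (nat_lit 13) (nat_lit 0) (.cons (.br (nat_lit 14) (nat_lit 0) (.cons (.kr (nat_lit 5192296858534846075274574333739520) (nat_lit 20282410812577562096170497474560) (nat_lit 1) (nat_lit 0)) (.cons (.ev (nat_lit 10425159155251756091710782782308353)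 (nat_lit 2)) (.cons (.br (nat_lit 15) (nat_lit 0) (.cons (.rf (nat_lit 907) (nat_lit 21174442659472880612509728)) (.cons (.br (nat_lit 15) (nat_lit 0) (.cons (.rf (nat_lit 907) (nat_lit 21174442659472880612509728)) .nil)) .nil))) .nil)))) (.cons (.br (nat_lit 14) (nat_lit 0) (.cons (.ev (nat_lit 1329248357422682057357371368334754048) (nat_lit 1)) (.cons (.rf (nat_lit 908) (nat_lit 19926519232773908561233952)) (.cons (.br (nat_lit 14) (nat_lit 0) (.cons (.ev (nat_lit 1329248357422682057357371368334754048) (nat_lit 1)) (.cons (.rf (nat_lit 908) (nat_lit 19926519232773908561233952)) .nil))) .nil)))) (.cons (.br (nat_lit 16) (nat_lit 0) (.cons (.rf (nat_lit 720) (nat_lit 547219647969548877962275)) (.cons (.kr (nat_lit 40564821629877490956685600096257) (nat_lit 680564733841876926982089447097549980672) (nat_lit 0) (nat_lit 2)) (.cons (.br (nat_lit 14) (nat_lit 0) (.cons (.rf (nat_lit 909) (nat_lit 677582165103132179601393696)) (.cons (.br (nat_lit 14) (nat_lit 0) (.cons (.rf (nat_lit 909) (nat_lit 677582165103132179601393696)) .nil))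 .nil))) .nil)))) (.cons (.br (nat_lit 14) (nat_lit 0) (.cons (.rf (nat_lit 910) (nat_lit 677582165103132179601393696)) (.cons (.rf (nat_lit 912) (nat_lit 677582165103132179601393696)) (.cons (.br (nat_lit 14) (nat_lit 0) (.cons (.rf (nat_lit 910) (nat_lit 677582165103132179601393696)) (.cons (.rf (nat_lit 912) (nat_lit 677582165103132179601393696)) .nil))) .nil)))) .nil))))) (.cons (.br (nat_lit 13) (nat_lit 0) (.cons (.rf (nat_lit 913) (nat_lit 19926519232773908561233952)) (.cons (.rf (nat_lit 914) (nat_lit 19926519232773908561233952)) (.cons (.rf (nat_lit 915) (nat_lit 19926519232773908561233952)) (.cons (.br (nat_lit 13) (nat_lit 0) (.cons (.rf (nat_lit 726) (nat_lit 21174442658381097775143971)) (.cons (.rf (nat_lit 914) (nat_lit 19926519232773908561233952)) (.cons (.rf (nat_lit 915) (nat_lit 19926519232773908561233952)) .nil)))) .nil))))) (.cons (.br (nat_lit 13) (nat_lit 0) (.cons (.rf (nat_lit 917) (nat_lit 19926519232773908561233952)) (.cons (.rf (nat_lit 919) (nat_lit 19926519232773908561233952)) (.cons (.rf (nat_lit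 920) (nat_lit 19926519232773908561233952)) (.cons (.br (nat_lit 13) (nat_lit 0) (.cons (.rf (nat_lit 917) (nat_lit 19926519232773908561233952)) (.cons (.rf (nat_lit 919) (nat_lit 19926519232773908561233952)) (.cons (.rf (nat_lit 920) (nat_lit 19926519232773908561233952)) .nil)))) .nil))))) (.cons (.br (nat_lit 15) (nat_lit 0) (.cons (.rf (nat_lit 921) (nat_lit 19926519232773908561233952)) (.cons (.rf (nat_lit 923) (nat_lit 19926519232773908561233952)) (.cons (.ev (nat_lit 340282366921249162121382331478584590593) (nat_lit 1)) (.cons (.br (nat_lit 15) (nat_lit 0) (.cons (.rf (nat_lit 921) (nat_lit 19926519232773908561233952)) (.cons (.rf (nat_lit 923) (nat_lit 19926519232773908561233952)) (.cons (.ev (nat_lit 340282366921249162121382331478584590593) (nat_lit 1)) .nil)))) .nil))))) (.cons (.br (nat_lit 13) (nat_lit 0) (.cons (.rf (nat_lit 927) (nat_lit 677582165103132179601393696)) (.cons (.rf (nat_lit 929) (nat_lit 677582165103132179601393696)) (.cons (.rf (nat_lit 930) (nat_lit 677582165103132179601393696)) (.cons (.br (nat_lit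 13) (nat_lit 0) (.cons (.rf (nat_lit 927) (nat_lit 677582165103132179601393696)) (.cons (.rf (nat_lit 929) (nat_lit 677582165103132179601393696)) (.cons (.rf (nat_lit 930) (nat_lit 677582165103132179601393696)) .nil)))) .nil))))) .nil)))))) .nil)))))) .nil))))))]

theorem c32 : chkAll C T R L32 (nat_lit 916) = true := by decide +kernel

theorem l32 : (nat_lit 916) + L32.length = (nat_lit 932) := by decide +kernel

/-- part of the certificates -/
def L33 : List Prf := [(.br (nat_lit 15) (nat_lit 0) (.cons (.ev (nat_lit 2658496714846573022159670899074269185) (nat_lit 2)) (.cons (.rf (nat_lit 180) (nat_lit 631047532896916706)) .nil))),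
 (.br (nat_lit 14) (nat_lit 0) (.cons (.br (nat_lit 14) (nat_lit 0) (.cons (.ev (nat_lit 5212579577628211487064956438904833) (nat_lit 1)) .nil)) (.cons (.br (nat_lit 14) (nat_lit 0) (.cons (.ev (nat_lit 5212579577628211487064956438904833) (nat_lit 1)) .nil)) .nil))),
 (.br (nat_lit 15) (nat_lit 0) (.cons (.ev (nat_lit 2658456150027365718819385945935184387) (nat_lit 2)) (.cons (.ev (nat_lit 20282719088661564108084990705664) (nat_lit 1)) (.cons (.br (nat_lit 16) (nat_lit 0) (.cons (.ev (nat_lit 158457548158557683037321167360) (nat_lit 2)) (.cons (.ev (nat_lit 680564774407316313231109335490760802817) (nat_lit 2)) (.cons (.kr (nat_lit 680564733841876931649115979208175124481) (nat_lit 2658455991569831764254358198565208576) (nat_lit 0) (nat_lit 2)) .nil)))) .nil)))),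
 (.br (nat_lit 12) (nat_lit 0) (.cons (.br (nat_lit 14) (nat_lit 0) (.cons (.kr (nat_lit 10384593717074377623825337280364545) (nat_lit 2658455991569831764254358198581985280) (nat_lit 0) (nat_lit 1)) (.cons (.br (nat_lit 15) (nat_lit 0) (.cons (.ev (nat_lit 5379260271824557889287828258003488257) (nat_lit 4)) (.cons (.rf (nat_lit 284) (nat_lit 630940984747039813)) .nil))) .nil))) (.cons (.br (nat_lit 14) (nat_lit 0) (.cons (.br (nat_lit 15) (nat_lit 0) (.cons (.ev (nat_lit 1334420371871617937235216713348349953) (nat_lit 1)) (.cons (.rf (nat_lit 284) (nat_lit 631011351347928129)) .nil))) (.cons (.rf (nat_lit 282) (nat_lit 19458374333311400251457)) (.cons (.br (nat_lit 15) (nat_lit 0) (.cons (.rf (nat_lit 934) (nat_lit 677582165103132179601393696)) (.cons (.br (nat_lit 15) (nat_lit 0) (.cons (.rf (nat_lit 934) (nat_lit 677582165103132179601393696)) .nil)) .nil))) .nil)))) .nil))),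
 (.br (nat_lit 12) (nat_lit 0) (.cons (.rf (nat_lit 935) (nat_lit 583706118939841765935136)) (.cons (.br (nat_lit 15) (nat_lit 0) (.cons (.br (nat_lit 14) (nat_lit 0) (.cons (.ev (nat_lit 10384752173399424743924939475780097) (nat_lit 2)) (.cons (.rf (nat_lit 284) (nat_lit 631046501165243457)) .nil))) (.cons (.br (nat_lit 14) (nat_lit 0) (.cons (.ev (nat_lit 680564734000333256696236078810320207873) (nat_lit 2)) (.cons (.br (nat_lit 14) (nat_lit 0) (.cons (.ev (nat_lit 680564734000333256696236078810320207873) (nat_lit 2)) .nil)) .nil))) (.cons (.rf (nat_lit 793) (nat_lit 20002041496529721723390308)) .nil)))) .nil))),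
 (.br (nat_lit 16) (nat_lit 0) (.cons (.kr (nat_lit 5192296858534827628530496329220352) (nat_lit 340282366920938463463374607431784988672) (nat_lit 1) (nat_lit 0)) (.cons (.ev (nat_lit 680564774565153668203101271642050002945) (nat_lit 2)) .nil))),
 (.br (nat_lit 14) (nat_lit 0) (.cons (.rf (nat_lit 937) (nat_lit 677582165103132179601393696)) (.cons (.rf (nat_lit 937) (nat_lit 640105464695078675185502240)) .nil))),
 (.br (nat_lit 14) (nat_lit 0) (.cons (.rf (nat_lit 938) (nat_lit 677582165103132179601393696)) (.cons (.ev (nat_lit 10425316993810931609117771205575169) (nat_lit 2)) .nil))),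
 (.br (nat_lit 14) (nat_lit 0) (.cons (.ev (nat_lit 5212658497514660196133609670705153) (nat_lit 1)) (.cons (.rf (nat_lit 170) (nat_lit 558919568132802881)) .nil))),
 (.br (nat_lit 15) (nat_lit 0) (.cons (.zr (nat_lit 5212658805800170484931239226703872) (nat_lit 1329227995787333761580639662714650880) (nat_lit 8) (nat_lit 11)) .nil)),
 (.br (nat_lit 15) (nat_lit 0) (.cons (.br (nat_lit 16) (nat_lit 0) (.cons (.zr (nat_lit 87112291144419052451516751198116510760960) (nat_lit 341611594916727006150846919317695496448) (nat_lit 8) (nat_lit 11)) .nil)) .nil)),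
 (.br (nat_lit 12) (nat_lit 0) (.cons (.ev (nat_lit 31194662885488919056157765617845251) (nat_lit 3)) (.cons (.br (nat_lit 14) (nat_lit 0) (.cons (.ev (nat_lit 5212658496301012082094804400406528) (nat_lit 1)) (.cons (.br (nat_lit 15) (nat_lit 0) (.cons (.ev (nat_lit 2668881308562438473891824013175554561) (nat_lit 2)) (.cons (.rf (nat_lit 167) (nat_lit 631045402894832866)) .nil))) .nil))) (.cons (.br (nat_lit 14) (nat_lit 0) (.cons (.br (nat_lit 15) (nat_lit 0) (.cons (.ev (nat_lit 2700076607137386527092432933854514691) (nat_lit 4)) (.cons (.rf (nat_lit 166) (nat_lit 631045402894832866)) .nil))) (.cons (.ev (nat_lit 5212658496301012082094804400406528) (nat_lit 1)) (.cons (.br (nat_lit 15) (nat_lit 0) (.cons (.rf (nat_lit 942) (nat_lit 677582165103132179601393696)) (.cons (.br (nat_lit 15) (nat_lit 0) (.cons (.rf (nat_lit 942) (nat_lit 677582165103132179601393696)) .nil)) .nil))) .nil)))) .nil)))),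
 (.br (nat_lit 15) (nat_lit 0) (.cons (.ev (nat_lit 683285578527865894103887019684745186827) (nat_lit 4)) (.cons (.ev (nat_lit 2668881308562438473891824013175554561) (nat_lit 2)) .nil))),
 (.br (nat_lit 12) (nat_lit 0) (.cons (.rf (nat_lit 943) (nat_lit 582562417319727094305827)) (.cons (.ev (nat_lit 1329227996094400882797209727338021121) (nat_lit 1)) (.cons (.br (nat_lit 12) (nat_lit 0) (.cons (.rf (nat_lit 943) (nat_lit 582562417319727094305827)) (.cons (.ev (nat_lit 1329227996094400882797209727338021121) (nat_lit 1)) (.cons (.br (nat_lit 14) (nat_lit 0) (.cons (.ev (nat_lit 5327418272554717762853961590695264263) (nat_lit 3)) (.cons (.rf (nat_lit 944) (nat_lit 677582165103132179601393696)) (.cons (.rf (nat_lit 944) (nat_lit 640105464695078675185502240)) .nil)))) .nil)))) .nil)))),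
 (.br (nat_lit 12) (nat_lit 0) (.cons (.ev (nat_lit 340282407565916706180530084041159934467) (nat_lit 2)) (.cons (.br (nat_lit 15) (nat_lit 0) (.cons (.kr (nat_lit 2658455991572249597590958567002734593) (nat_lit 680564733841876931667562723286162866688) (nat_lit 0) (nat_lit 2)) (.cons (.ev (nat_lit 5327418588229427706837833893273665539) (nat_lit 3)) .nil))) .nil))),
 (.br (nat_lit 15) (nat_lit 0) (.cons (.ev (nat_lit 680564734000335674584624681036636356611) (nat_lit 2)) (.cons (.br (nat_lit 16) (nat_lit 0) (.cons (.ev (nat_lit 341611594995952750776362649289272393985) (nat_lit 1)) .nil)) .nil))),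
 (.br (nat_lit 12) (nat_lit 0) (.cons (.rf (nat_lit 947) (nat_lit 677582165103132179601393696)) (.cons (.rf (nat_lit 947) (nat_lit 640104320993458560513872931)) .nil))),
 (.br (nat_lit 12) (nat_lit 0) (.cons (.rf (nat_lit 948) (nat_lit 677582165103132179601393696)) (.cons (.br (nat_lit 16) (nat_lit 0) (.cons (.br (nat_lit 15) (nat_lit 0) (.cons (.zr (nat_lit 1363808692862760275818168890397040837120) (nat_lit 477225885199855179216741335041) (nat_lit 16) (nat_lit 7)) .nil)) (.cons (.ev (nat_lit 680564734000335674584624681036636356611) (nat_lit 2)) .nil))) .nil))),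
 (.br (nat_lit 12) (nat_lit 0) (.cons (.br (nat_lit 13) (nat_lit 0) (.cons (.ev (nat_lit 20361947255898194929647691563008) (nat_lit 1)) (.cons (.rf (nat_lit 239) (nat_lit 556665533827943456)) .nil))) .nil)),
 (.br (nat_lit 15) (nat_lit 0) (.cons (.ev (nat_lit 1344825248930368328719097885901259520) (nat_lit 2)) .nil)),
 (.br (nat_lit 15) (nat_lit 0) (.cons (.rf (nat_lit 951) (nat_lit 677582165103132179601393696)) (.cons (.rf (nat_lit 951) (nat_lit 640105464695078675185502240)) .nil))),
 (.br (nat_lit 13) (nat_lit 0) (.cons (.ev (nat_lit 5212658497509919455245735330578433) (nat_lit 1)) (.cons (.rf (nat_lit 167) (nat_lit 593822465274448193)) .nil))),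
 (.br (nat_lit 14) (nat_lit 0) (.cons (.rf (nat_lit 259) (nat_lit 19925300692476855750633766)) .nil)),
 (.br (nat_lit 14) (nat_lit 0) (.cons (.rf (nat_lit 954) (nat_lit 19926519232773908561233952)) (.cons (.br (nat_lit 14) (nat_lit 0) (.cons (.rf (nat_lit 954) (nat_lit 19926519232773908561233952)) .nil)) .nil))),
 (.br (nat_lit 14) (nat_lit 0) (.cons (.ev (nat_lit 10466199345852070734715631964651521) (nat_lit 3)) (.cons (.br (nat_lit 15) (nat_lit 0) (.cons (.ev (nat_lit 680564815447505709342226869502876190209) (nat_lit 3)) (.cons (.ev (nat_lit 2668881308562438473891824013175554561) (nat_lit 2)) .nil))) .nil))),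
 (.br (nat_lit 14) (nat_lit 0) (.cons (.ev (nat_lit 340287559376256950152403511979771298051) (nat_lit 2)) (.cons (.br (nat_lit 16) (nat_lit 0) (.cons (.ev (nat_lit 683223230556722295745383977884019982337) (nat_lit 2)) (.cons (.ev (nat_lit 340287559297026369731087372725304492033) (nat_lit 1)) .nil))) .nil))),
 (.br (nat_lit 14) (nat_lit 0) (.cons (.br (nat_lit 16) (nat_lit 0) (.cons (.ev (nat_lit 5327296737172390864109297274739359749) (nat_lit 3)) (.cons (.ev (nat_lit 1361160703070533845234747267344421487617) (nat_lit 3)) .nil))) (.cons (.br (nat_lit 15) (nat_lit 0) (.cons (.rf (nat_lit 764) (nat_lit 21173298960035294340979747)) (.cons (.ev (nat_lit 174224582248114829337700549867953604002307) (nat_lit 2)) .nil))) .nil))),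
 (.br (nat_lit 14) (nat_lit 0) (.cons (.rf (nat_lit 958) (nat_lit 677582165103132179601393696)) (.cons (.br (nat_lit 16) (nat_lit 0) (.cons (.ev (nat_lit 2041715052318693702506239421215333024257) (nat_lit 3)) (.cons (.ev (nat_lit 174224582248114829337700549867953604002307) (nat_lit 2)) .nil))) .nil))),
 (.br (nat_lit 14) (nat_lit 0) (.cons (.br (nat_lit 15) (nat_lit 0) (.cons (.ev (nat_lit 1334420371872822140688628848342860033) (nat_lit 1)) .nil)) .nil)),
 (.br (nat_lit 14) (nat_lit 0) (.cons (.rf (nat_lit 960) (nat_lit 19926519232773908561233952)) (.cons (.br (nat_lit 14) (nat_lit 0) (.cons (.rf (nat_lit 960) (nat_lit 19926519232773908561233952)) .nil)) .nil))),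
 (.br (nat_lit 12) (nat_lit 0) (.cons (.br (nat_lit 15) (nat_lit 0) (.cons (.ev (nat_lit 2668881308562438473891824013175554561) (nat_lit 2)) (.cons (.rf (nat_lit 167) (nat_lit 631045402927338722)) .nil))) (.cons (.br (nat_lit 16) (nat_lit 0) (.cons (.ev (nat_lit 680564734000335674584624681036636356611) (nat_lit 2)) (.cons (.rf (nat_lit 175) (nat_lit 629818314530523493)) .nil))) (.cons (.rf (nat_lit 961) (nat_lit 21174442659472845144426528)) .nil)))),
 (.br (nat_lit 12) (nat_lit 0) (.cons (.rf (nat_lit 962) (nat_lit 19926519232773908561233952)) (.cons (.br (nat_lit 13) (nat_lit 0) (.cons (.kr (nat_lit 2658455991569836468174096994517647361) (nat_lit 40564819207321787873443188834816) (nat_lit 0) (nat_lit 2)) (.cons (.ev (nat_lit 680564734000335674584624681036636356611) (nat_lit 2)) (.cons (.br (nat_lit 15) (nat_lit 0) (.cons (.ev (nat_lit 680564734000333256696236078810320207873) (nat_lit 2)) (.cons (.ev (nat_lit 2679347190376665616287280765472080387) (nat_lit 3)) .nil))) .nil)))) (.cons (.br (nat_lit 13) (nat_lit 0) (.cons (.kr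 (nat_lit 2658455991569836468174096994517647361) (nat_lit 40564819207321787873443188834816) (nat_lit 0) (nat_lit 2)) (.cons (.br (nat_lit 15) (nat_lit 0) (.cons (.kr (nat_lit 10384593719487507040405439083708417) (nat_lit 680564733841876931667562723286179643392) (nat_lit 0) (nat_lit 1)) (.cons (.br (nat_lit 16) (nat_lit 0) (.cons (.ev (nat_lit 341611615199443676942036823690197336320) (nat_lit 1)) .nil)) .nil))) (.cons (.br (nat_lit 17) (nat_lit 0) (.cons (.ev (nat_lit 87112285972405224889341054979142053855747) (nat_lit 2)) (.cons (.ev (nat_lit 87112291124136334552891612267826198413313) (nat_lit 1)) .nil))) .nil)))) .nil)))),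
 (.br (nat_lit 15) (nat_lit 0) (.cons (.ev (nat_lit 2668840585905876198559039967383781377) (nat_lit 2)) (.cons (.ev (nat_lit 5212658497509919383189240787566848) (nat_lit 1)) (.cons (.ev (nat_lit 87112291124136334557632425213298888212480) (nat_lit 1)) .nil)))),
 (.br (nat_lit 12) (nat_lit 0) (.cons (.rf (nat_lit 962) (nat_lit 19926519232773908561233952)) (.cons (.rf (nat_lit 963) (nat_lit 19926519232773908561233952)) (.cons (.br (nat_lit 16) (nat_lit 0) (.cons (.rf (nat_lit 172) (nat_lit 629818347950740706)) (.cons (.br (nat_lit 13) (nat_lit 0) (.cons (.ev (nat_lit 341611615199443681645956281006844543233) (nat_lit 1)) (.cons (.rf (nat_lit 964) (nat_lit 677582165103132179601393696)) .nil))) (.cons (.ev (nat_lit 680564734000333256696236078810320207873) (nat_lit 2)) .nil)))) .nil)))),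
 (.br (nat_lit 13) (nat_lit 0) (.cons (.ev (nat_lit 20361947255898194929647691563008) (nat_lit 1)) (.cons (.rf (nat_lit 214) (nat_lit 556665500375190689)) .nil)))]

theorem c33 : chkAll C T R L33 (nat_lit 932) = true := by decide +kernel

theorem l33 : (nat_lit 932) + L33.length = (nat_lit 967) := by decide +kernel

/-- part of the certificates -/
def L34 : List Prf := [(.br (nat_lit 15) (nat_lit 0) (.cons (.br (nat_lit 16) (nat_lit 0) (.cons (.ev (nat_lit 88137125969892499311894024696914661015808) (nat_lit 2)) .nil)) .nil)),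
 (.br (nat_lit 15) (nat_lit 0) (.cons (.rf (nat_lit 967) (nat_lit 677582165103132179601393696)) (.cons (.br (nat_lit 15) (nat_lit 0) (.cons (.rf (nat_lit 967) (nat_lit 677582165103132179601393696)) .nil)) .nil))),
 (.br (nat_lit 14) (nat_lit 0) (.cons (.ev (nat_lit 1329248357422682057357371368334754048) (nat_lit 1)) (.cons (.br (nat_lit 16) (nat_lit 0) (.cons (.ev (nat_lit 691198640048855530070236246188573459971) (nat_lit 4)) (.cons (.kr (nat_lit 10384593717074377623825337280364545) (nat_lit 680564733841876926945195958941557719040) (nat_lit 0) (nat_lit 1)) .nil))) .nil))),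
 (.br (nat_lit 14) (nat_lit 0) (.cons (.ev (nat_lit 10384752175817313132527165724819971) (nat_lit 2)) (.cons (.br (nat_lit 16) (nat_lit 0) (.cons (.ev (nat_lit 340282366921249157417462311203394027776) (nat_lit 1)) (.cons (.ev (nat_lit 340287559297026369731087372725304492033) (nat_lit 1)) .nil))) .nil))),
 (.br (nat_lit 14) (nat_lit 0) (.cons (.br (nat_lit 15) (nat_lit 0) (.cons (.kr (nat_lit 10384593717074377623825337280364545) (nat_lit 680564733841876926945195958941557719040) (nat_lit 0) (nat_lit 1)) (.cons (.br (nat_lit 16) (nat_lit 0) (.cons (.ev (nat_lit 691198639417506109887120596404063831563) (nat_lit 4)) .nil)) .nil))) (.cons (.ev (nat_lit 10384752175817313132527165724819971) (nat_lit 2)) .nil))),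
 (.br (nat_lit 14) (nat_lit 0) (.cons (.rf (nat_lit 971) (nat_lit 677582165103132179601393696)) (.cons (.br (nat_lit 17) (nat_lit 0) (.cons (.ev (nat_lit 174224571863678952040905674471238424199171) (nat_lit 2)) (.cons (.kr (nat_lit 5192296858534827628530496329220352) (nat_lit 87112285931760246646623899502532678909952) (nat_lit 1) (nat_lit 0)) .nil))) .nil))),
 (.br (nat_lit 12) (nat_lit 0) (.cons (.br (nat_lit 14) (nat_lit 0) (.cons (.rf (nat_lit 966) (nat_lit 19459491438255770079297)) (.cons (.br (nat_lit 16) (nat_lit 0) (.cons (.ev (nat_lit 340287559297026369731087372725304492033) (nat_lit 1)) (.cons (.rf (nat_lit 214) (nat_lit 629956817361147106)) .nil))) (.cons (.rf (nat_lit 968) (nat_lit 677582165103132179601393696)) .nil)))) (.cons (.br (nat_lit 14) (nat_lit 0) (.cons (.ev (nat_lit 1329248357422682057357371368334754048) (nat_lit 1)) (.cons (.rf (nat_lit 969) (nat_lit 19926519232773908561233952)) (.cons (.br (nat_lit 14) (nat_lit 0) (.cons (.ev (nat_lit 1329248357422682057357371368334754048) (nat_lit 1)) (.cons (.rf (nat_lit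 969) (nat_lit 19926519232773908561233952)) .nil))) .nil)))) (.cons (.br (nat_lit 15) (nat_lit 0) (.cons (.rf (nat_lit 970) (nat_lit 19926519232773908561233952)) (.cons (.ev (nat_lit 340282366921249162121382331478584590593) (nat_lit 1)) (.cons (.br (nat_lit 15) (nat_lit 0) (.cons (.rf (nat_lit 970) (nat_lit 19926519232773908561233952)) (.cons (.ev (nat_lit 340282366921249157417462311203394027776) (nat_lit 1)) .nil))) .nil)))) (.cons (.br (nat_lit 14) (nat_lit 0) (.cons (.rf (nat_lit 971) (nat_lit 677582165103132179601393696)) (.cons (.rf (nat_lit 972) (nat_lit 677582165103132179601393696)) (.cons (.br (nat_lit 14) (nat_lit 0) (.cons (.ev (nat_lit 10384752175817313132527165724819971) (nat_lit 2)) (.cons (.rf (nat_lit 972) (nat_lit 677582165103132179601393696)) .nil))) .nil)))) .nil))))),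
 (.br (nat_lit 13) (nat_lit 0) (.cons (.ev (nat_lit 20361947255916569615032146526208) (nat_lit 1)) (.cons (.rf (nat_lit 214) (nat_lit 556663370172072097)) .nil))),
 (.br (nat_lit 10) (nat_lit 0) (.cons (.br (nat_lit 10) (nat_lit 0) .nil) .nil)),
 (.br (nat_lit 17) (nat_lit 0) (.cons (.ev (nat_lit 174224571863678949623017285869012108050947) (nat_lit 2)) (.cons (.ev (nat_lit 174224582248114829337700549867953604002307) (nat_lit 2)) (.cons (.kr (nat_lit 680564733841879344778532559309978468353) (nat_lit 174224571863520493297988612513487950709248) (nat_lit 0) (nat_lit 2)) .nil)))),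
 (.br (nat_lit 12) (nat_lit 0) (.cons (.rf (nat_lit 973) (nat_lit 19926519232773908561233952)) (.cons (.br (nat_lit 13) (nat_lit 0) (.cons (.rf (nat_lit 974) (nat_lit 19459491438255770079297)) (.cons (.kr (nat_lit 2658455991569836468174096994517647361) (nat_lit 40564819207321787873443188834816) (nat_lit 0) (nat_lit 2)) (.cons (.br (nat_lit 15) (nat_lit 0) (.cons (.ev (nat_lit 1334440575362539362096445641617047553) (nat_lit 1)) (.cons (.ev (nat_lit 7975408856448610967485021567563597319) (nat_lit 3)) (.cons (.br (nat_lit 16) (nat_lit 0) (.cons (.ev (nat_lit 340287559297026374471900318197994291200) (nat_lit 1)) (.cons (.ev (nat_lit 683223230556722295745383977884019982337) (nat_lit 2)) .nil))) .nil)))) (.cons (.br (nat_lit 15) (nat_lit 0) (.cons (.rf (nat_lit 975) (nat_lit 631047566517310529)) (.cons (.br (nat_lit 16) (nat_lit 0) (.cons (.ev (nat_lit 340287559297025165527706017084836216833) (nat_lit 1)) (.cons (.ev (nat_lit 683223230556724713633772580093156261891) (nat_lit 2)) .nil))) (.cons (.ev (nat_lit 7975408856448610967485021567563597319)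 (nat_lit 3)) .nil)))) .nil))))) (.cons (.br (nat_lit 16) (nat_lit 0) (.cons (.ev (nat_lit 340282366921247953214081518512879173888) (nat_lit 1)) (.cons (.kr (nat_lit 10384593717074377623825337280364545) (nat_lit 680564733841876926945195958941557719040) (nat_lit 0) (nat_lit 1)) (.cons (.ev (nat_lit 340282366921249162121382331478584590593) (nat_lit 1)) (.cons (.br (nat_lit 13) (nat_lit 0) (.cons (.rf (nat_lit 214) (nat_lit 629954687191581922)) (.cons (.br (nat_lit 15) (nat_lit 0) (.cons (.ev (nat_lit 2668881626096476513200918916659281921) (nat_lit 3)) (.cons (.ev (nat_lit 683223230556722295745383977884019982337) (nat_lit 2)) .nil))) (.cons (.rf (nat_lit 976) (nat_lit 677582165103132179601393696)) .nil)))) .nil))))) (.cons (.br (nat_lit 13) (nat_lit 0) (.cons (.br (nat_lit 15) (nat_lit 0) (.cons (.br (nat_lit 15) (nat_lit 0) (.cons (.zr (nat_lit 2710378960155194207639111788090359811) (nat_lit 121853535334809977537128470546432) (nat_lit 16) (nat_lit 5)) .nil)) (.cons (.br (nat_lit 15) (nat_lit 0) (.cons (.zr (nat_lit 2710378960155194207639111788090359811)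 (nat_lit 121853535334809977537128470546432) (nat_lit 16) (nat_lit 5)) .nil)) .nil))) (.cons (.br (nat_lit 15) (nat_lit 0) (.cons (.rf (nat_lit 214) (nat_lit 630942083161560290)) (.cons (.br (nat_lit 14) (nat_lit 0) (.cons (.ev (nat_lit 683233614992604428243250728639653741057) (nat_lit 2)) (.cons (.br (nat_lit 16) (nat_lit 0) (.cons (.zr (nat_lit 680564896260229051354304952116355138051) (nat_lit 5337681170581079969311797914057572352) (nat_lit 16) (nat_lit 2)) .nil)) .nil))) (.cons (.ev (nat_lit 1329248357422686761277391643558871297) (nat_lit 1)) .nil)))) (.cons (.br (nat_lit 14) (nat_lit 0) (.cons (.br (nat_lit 16) (nat_lit 0) (.cons (.ev (nat_lit 683233614992604428243250728639653741057) (nat_lit 2)) (.cons (.rf (nat_lit 801) (nat_lit 21137844318138858030073888)) .nil))) (.cons (.rf (nat_lit 214) (nat_lit 629816217646961890)) (.cons (.br (nat_lit 16) (nat_lit 0) (.cons (.br (nat_lit 15) (nat_lit 0) (.cons (.ev (nat_lit 1329248357423890964658184334073725185) (nat_lit 1)) .nil)) (.cons (.ev (nat_lit 680627122695368939554466865699923034631)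 (nat_lit 4)) .nil))) .nil)))) (.cons (.br (nat_lit 17) (nat_lit 0) (.cons (.rf (nat_lit 802) (nat_lit 631047566517247041)) (.cons (.ev (nat_lit 174224571863678952040905674471238424199171) (nat_lit 2)) (.cons (.br (nat_lit 14) (nat_lit 0) (.cons (.ev (nat_lit 87112296356998941958996312040134678740995) (nat_lit 2)) (.cons (.ev (nat_lit 340287559297025165527706017084836216833) (nat_lit 1)) .nil))) .nil)))) .nil))))) .nil))))),
 (.br (nat_lit 16) (nat_lit 0) (.cons (.ev (nat_lit 618974797493801895587741699) (nat_lit 2)) (.cons (.ev (nat_lit 40723277954961216314067602506241) (nat_lit 2)) (.cons (.ev (nat_lit 340282366921249157417462311203394027776) (nat_lit 1)) (.cons (.ev (nat_lit 340287559297026374471900318197994291200) (nat_lit 1)) .nil))))),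
 (.br (nat_lit 12) (nat_lit 0) (.cons (.rf (nat_lit 973) (nat_lit 19926519232773908561233952)) (.cons (.rf (nat_lit 977) (nat_lit 19926519232773908561233952)) (.cons (.br (nat_lit 13) (nat_lit 0) (.cons (.br (nat_lit 14) (nat_lit 0) (.cons (.ev (nat_lit 5232941836777544784007105704166147) (nat_lit 2)) (.cons (.ev (nat_lit 10384752175817313132527165724819971) (nat_lit 2)) (.cons (.rf (nat_lit 978) (nat_lit 677582165103132179601393696)) .nil)))) (.cons (.kr (nat_lit 2658455991569836468174096994517647361) (nat_lit 40564819207321787873443188834816) (nat_lit 0) (nat_lit 2)) (.cons (.ev (nat_lit 340282366921247948473268010098825888001) (nat_lit 1)) (.cons (.br (nat_lit 15) (nat_lit 0) (.cons (.br (nat_lit 14) (nat_lit 0) (.cons (.ev (nat_lit 10384752173399424743924939475780097) (nat_lit 2)) (.cons (.br (nat_lit 16) (nat_lit 0) (.cons (.ev (nat_lit 340287559297025160823786559768189009920) (nat_lit 1)) .nil)) .nil))) (.cons (.ev (nat_lit 340282366921249157417462311203394027776) (nat_lit 1)) (.cons (.br (nat_lit 16) (nat_lit 0) (.cons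 (.ev (nat_lit 1363788045686696380159271588507160937987) (nat_lit 3)) (.cons (.kr (nat_lit 680564733841879344778532559309978468353) (nat_lit 174224571863520493297988612513487950709248) (nat_lit 0) (nat_lit 2)) .nil))) .nil)))) .nil))))) (.cons (.br (nat_lit 13) (nat_lit 0) (.cons (.br (nat_lit 14) (nat_lit 0) (.cons (.rf (nat_lit 214) (nat_lit 630943148145682658)) (.cons (.br (nat_lit 15) (nat_lit 0) (.cons (.ev (nat_lit 3408192747552503193114800075679010393099) (nat_lit 4)) (.cons (.br (nat_lit 16) (nat_lit 0) (.cons (.zr (nat_lit 685902415012453180637227289654065103360) (nat_lit 477225885199855179216741335041) (nat_lit 16) (nat_lit 7)) .nil)) .nil))) (.cons (.ev (nat_lit 10384752175817313132527165724819971) (nat_lit 2)) .nil)))) (.cons (.kr (nat_lit 2658455991569836468174096994517647361) (nat_lit 40564819207321787873443188834816) (nat_lit 0) (nat_lit 2)) (.cons (.br (nat_lit 15) (nat_lit 0) (.cons (.br (nat_lit 14) (nat_lit 0) (.cons (.ev (nat_lit 696525935517129704556639785324155765771) (nat_lit 4)) (.cons (.ev (nat_lit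 10384752173399424743924939475780097) (nat_lit 2)) .nil))) (.cons (.ev (nat_lit 1363788045371021670215287716204582536711) (nat_lit 3)) (.cons (.br (nat_lit 14) (nat_lit 0) (.cons (.ev (nat_lit 683223230556722295745383977884019982337) (nat_lit 2)) (.cons (.ev (nat_lit 174224571863678949623017285869012108050433) (nat_lit 2)) .nil))) .nil)))) (.cons (.br (nat_lit 17) (nat_lit 0) (.cons (.ev (nat_lit 174224571863678952040905674471238424199171) (nat_lit 2)) (.cons (.rf (nat_lit 802) (nat_lit 631013481651706945)) (.cons (.br (nat_lit 15) (nat_lit 0) (.cons (.br (nat_lit 14) (nat_lit 0) (.cons (.zr (nat_lit 680585584158951922307560791454034953728) (nat_lit 477225885162961128119368810499) (nat_lit 16) (nat_lit 7)) .nil)) (.cons (.ev (nat_lit 874531000142186384311077509796042238853643) (nat_lit 4)) .nil))) .nil)))) .nil))))) .nil))))),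
 (.br (nat_lit 15) (nat_lit 0) (.cons (.ev (nat_lit 683223189834065733470051193838228210177) (nat_lit 2)) (.cons (.ev (nat_lit 340282387282577438555129266176243335168) (nat_lit 1)) (.cons (.ev (nat_lit 87452568298760414486268171290234310426880) (nat_lit 1)) .nil)))),
 (.br (nat_lit 12) (nat_lit 0) (.cons (.rf (nat_lit 973) (nat_lit 19926519232773908561233952)) (.cons (.rf (nat_lit 977) (nat_lit 19926519232773908561233952)) (.cons (.rf (nat_lit 979) (nat_lit 19926519232773908561233952)) (.cons (.br (nat_lit 16) (nat_lit 0) (.cons (.ev (nat_lit 340282366921247953214081518512879173888) (nat_lit 1)) (.cons (.br (nat_lit 14) (nat_lit 0) (.cons (.rf (nat_lit 214) (nat_lit 629818347749420258)) (.cons (.br (nat_lit 13) (nat_lit 0) (.cons (.ev (nat_lit 1334440575363753010210204071422328833) (nat_lit 1)) (.cons (.rf (nat_lit 980) (nat_lit 677582165103132179601393696)) .nil))) (.cons (.ev (nat_lit 10384752173399424743924939475780097) (nat_lit 2)) .nil)))) (.cons (.ev (nat_lit 340282366921249162121382331478584590593) (nat_lit 1)) (.cons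 (.br (nat_lit 17) (nat_lit 0) (.cons (.rf (nat_lit 802) (nat_lit 629888681222970433)) (.cons (.ev (nat_lit 174224571863678949623017285869012108050433) (nat_lit 2)) (.cons (.br (nat_lit 13) (nat_lit 0) (.cons (.br (nat_lit 14) (nat_lit 0) (.cons (.ev (nat_lit 340287559297026369731087372725304492033) (nat_lit 1)) .nil)) (.cons (.ev (nat_lit 87113615180038751860102561718791091257600) (nat_lit 1)) .nil))) .nil)))) .nil))))) .nil))))),
 (.br (nat_lit 10) (nat_lit 0) (.cons (.rf (nat_lit 874) (nat_lit 15878439375369668662307)) (.cons (.rf (nat_lit 931) (nat_lit 15878439375369668662307)) (.cons (.br (nat_lit 11) (nat_lit 0) (.cons (.ev (nat_lit 20282719088661564108084990705921) (nat_lit 1)) (.cons (.br (nat_lit 12) (nat_lit 0) (.cons (.ev (nat_lit 10425159155251756092273741325664771) (nat_lit 2)) (.cons (.br (nat_lit 12) (nat_lit 0) (.cons (.ev (nat_lit 10425159155251756092273741325664771) (nat_lit 2)) (.cons (.br (nat_lit 14) (nat_lit 0) (.cons (.rf (nat_lit 932) (nat_lit 19926519232773908561233952)) (.cons (.rf (nat_lit 932) (nat_lit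 18755372345022236548237344)) (.cons (.rf (nat_lit 933) (nat_lit 21174442659471745632798752)) .nil)))) .nil))) .nil))) (.cons (.br (nat_lit 12) (nat_lit 0) (.cons (.rf (nat_lit 935) (nat_lit 583706118939841765935136)) (.cons (.rf (nat_lit 936) (nat_lit 583706118939841765935136)) (.cons (.br (nat_lit 12) (nat_lit 0) (.cons (.rf (nat_lit 935) (nat_lit 583706118939841765935136)) (.cons (.rf (nat_lit 936) (nat_lit 583706118939841765935136)) (.cons (.br (nat_lit 14) (nat_lit 0) (.cons (.rf (nat_lit 938) (nat_lit 677582165103132179601393696)) (.cons (.rf (nat_lit 939) (nat_lit 677582165103132179601393696)) (.cons (.rf (nat_lit 939) (nat_lit 640105464695078675185502240)) .nil)))) .nil)))) .nil)))) .nil)))) (.cons (.br (nat_lit 11) (nat_lit 0) (.cons (.br (nat_lit 12) (nat_lit 0) (.cons (.ev (nat_lit 79229376180897180269880082688) (nat_lit 1)) (.cons (.ev (nat_lit 79228167236702879156755562753) (nat_lit 1)) (.cons (.br (nat_lit 13) (nat_lit 0) (.cons (.kr (nat_lit 10384593717074377623543866598621185) (nat_lit 40564819207321787873443205611520)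 (nat_lit 0) (nat_lit 1)) (.cons (.br (nat_lit 14) (nat_lit 0) (.cons (.ev (nat_lit 31194347210778975070033663225758727) (nat_lit 3)) (.cons (.rf (nat_lit 940) (nat_lit 622703726024184642504736)) .nil))) (.cons (.br (nat_lit 14) (nat_lit 0) (.cons (.rf (nat_lit 940) (nat_lit 622667985348556058792995)) (.cons (.ev (nat_lit 31194347210778975070033663225758727) (nat_lit 3)) (.cons (.br (nat_lit 15) (nat_lit 0) (.cons (.rf (nat_lit 941) (nat_lit 677582165103132179601393696)) (.cons (.rf (nat_lit 941) (nat_lit 640104320993458560513872931)) .nil))) .nil)))) .nil)))) .nil)))) (.cons (.ev (nat_lit 618974797493801895587741699) (nat_lit 2)) (.cons (.ev (nat_lit 621392612095427827065683969) (nat_lit 2)) (.cons (.br (nat_lit 13) (nat_lit 0) (.cons (.rf (nat_lit 943) (nat_lit 583706118939841765935136)) (.cons (.kr (nat_lit 10384593717074377623543866598621185) (nat_lit 40564819207321787873443205611520) (nat_lit 0) (nat_lit 1)) (.cons (.rf (nat_lit 945) (nat_lit 583706118939841765935136)) (.cons (.br (nat_lit 14) (nat_lit 0) (.cons (.rf (nat_lit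 943) (nat_lit 582562417319727094305827)) (.cons (.rf (nat_lit 945) (nat_lit 582562417319727094305827)) (.cons (.br (nat_lit 12) (nat_lit 0) (.cons (.rf (nat_lit 946) (nat_lit 19926519232773908561233952)) (.cons (.br (nat_lit 12) (nat_lit 0) (.cons (.ev (nat_lit 340282407565916706180530084041159934467) (nat_lit 2)) (.cons (.rf (nat_lit 172) (nat_lit 629818347918234850)) .nil))) (.cons (.br (nat_lit 12) (nat_lit 0) (.cons (.rf (nat_lit 946) (nat_lit 19926519232773908561233952)) (.cons (.rf (nat_lit 172) (nat_lit 629818347918234850)) .nil))) .nil)))) (.cons (.br (nat_lit 12) (nat_lit 0) (.cons (.rf (nat_lit 948) (nat_lit 677582165103132179601393696)) (.cons (.rf (nat_lit 949) (nat_lit 677582165103132179601393696)) (.cons (.rf (nat_lit 949) (nat_lit 640104320993458560513872931)) .nil)))) .nil))))) .nil))))) .nil))))) (.cons (.br (nat_lit 11) (nat_lit 0) (.cons (.br (nat_lit 12) (nat_lit 0) (.cons (.br (nat_lit 14) (nat_lit 0) (.cons (.rf (nat_lit 950) (nat_lit 570025506777189224513)) (.cons (.br (nat_lit 14) (nat_lit 0) (.cons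 (.rf (nat_lit 950) (nat_lit 570025506777189224513)) (.cons (.rf (nat_lit 952) (nat_lit 677582165103132179601393696)) .nil))) .nil))) (.cons (.ev (nat_lit 79228167236702879156755562753) (nat_lit 1)) (.cons (.br (nat_lit 13) (nat_lit 0) (.cons (.br (nat_lit 15) (nat_lit 0) (.cons (.ev (nat_lit 31235386782409195562233155495002115) (nat_lit 3)) (.cons (.rf (nat_lit 262) (nat_lit 19386823251081365302441)) .nil))) (.cons (.kr (nat_lit 2658455991569836468174096994517647361) (nat_lit 40564819207321787873443188834816) (nat_lit 0) (nat_lit 2)) (.cons (.br (nat_lit 15) (nat_lit 0) (.cons (.rf (nat_lit 953) (nat_lit 622703726024149174421536)) (.cons (.ev (nat_lit 7975408540769065246721693046898951687) (nat_lit 3)) (.cons (.br (nat_lit 14) (nat_lit 0) (.cons (.br (nat_lit 14) (nat_lit 0) (.cons (.zr (nat_lit 1329248357732181215760207803211382784) (nat_lit 5192296860952716305363098763526912) (nat_lit 8) (nat_lit 11)) .nil)) (.cons (.br (nat_lit 14) (nat_lit 0) (.cons (.zr (nat_lit 1329248357732181215760207803211382784) (nat_lit 5192296860952716305363098763526912)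 (nat_lit 8) (nat_lit 11)) .nil)) .nil))) .nil)))) .nil)))) (.cons (.br (nat_lit 13) (nat_lit 0) (.cons (.br (nat_lit 14) (nat_lit 0) (.cons (.br (nat_lit 15) (nat_lit 0) (.cons (.ev (nat_lit 2668881308562438473891824013175554561) (nat_lit 2)) (.cons (.rf (nat_lit 167) (nat_lit 631047533231244514)) .nil))) (.cons (.br (nat_lit 16) (nat_lit 0) (.cons (.ev (nat_lit 340287559376256950152403511979771298051) (nat_lit 2)) (.cons (.rf (nat_lit 175) (nat_lit 629888681127348577)) .nil))) (.cons (.rf (nat_lit 955) (nat_lit 21174442659472845144426528)) .nil)))) (.cons (.br (nat_lit 14) (nat_lit 0) (.cons (.br (nat_lit 14) (nat_lit 0) (.cons (.ev (nat_lit 10466199345852070734715631964651521) (nat_lit 3)) (.cons (.rf (nat_lit 167) (nat_lit 631013448365704418)) .nil))) (.cons (.rf (nat_lit 956) (nat_lit 19926519232773908561233952)) (.cons (.br (nat_lit 14) (nat_lit 0) (.cons (.rf (nat_lit 167) (nat_lit 631013448365704418)) (.cons (.rf (nat_lit 956) (nat_lit 19926519232773908561233952)) .nil))) .nil)))) (.cons (.br (nat_lit 14) (nat_lit 0)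 (.cons (.rf (nat_lit 957) (nat_lit 19926519232773908561233952)) (.cons (.br (nat_lit 14) (nat_lit 0) (.cons (.ev (nat_lit 340287559376256950152403511979771298051) (nat_lit 2)) (.cons (.rf (nat_lit 172) (nat_lit 629888681127348577)) .nil))) (.cons (.br (nat_lit 14) (nat_lit 0) (.cons (.rf (nat_lit 957) (nat_lit 19926519232773908561233952)) (.cons (.rf (nat_lit 172) (nat_lit 629888681127348577)) .nil))) .nil)))) (.cons (.br (nat_lit 14) (nat_lit 0) (.cons (.rf (nat_lit 958) (nat_lit 677582165103132179601393696)) (.cons (.rf (nat_lit 959) (nat_lit 677582165103132179601393696)) (.cons (.br (nat_lit 14) (nat_lit 0) (.cons (.rf (nat_lit 958) (nat_lit 677582165103132179601393696)) (.cons (.rf (nat_lit 959) (nat_lit 677582165103132179601393696)) .nil))) .nil)))) .nil))))) .nil))))) (.cons (.ev (nat_lit 618974797493801895587741699) (nat_lit 2)) (.cons (.br (nat_lit 14) (nat_lit 0) (.cons (.br (nat_lit 12) (nat_lit 0) (.cons (.ev (nat_lit 10465884906664351432345873262184455) (nat_lit 4)) (.cons (.br (nat_lit 13) (nat_lit 0) (.cons (.kr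 (nat_lit 31153781158462521121216317251125253) (nat_lit 5316912142214972725333069935239364608) (nat_lit 0) (nat_lit 1)) (.cons (.br (nat_lit 15) (nat_lit 0) (.cons (.ev (nat_lit 2679346874706791301506660325715345923) (nat_lit 3)) (.cons (.rf (nat_lit 167) (nat_lit 631045369507121509)) .nil))) .nil))) (.cons (.br (nat_lit 13) (nat_lit 0) (.cons (.br (nat_lit 15) (nat_lit 0) (.cons (.ev (nat_lit 1329248357422686761277391643558871297) (nat_lit 1)) (.cons (.rf (nat_lit 166) (nat_lit 596040251224691938)) .nil))) (.cons (.br (nat_lit 16) (nat_lit 0) (.cons (.ev (nat_lit 680564734000335674584624681036636356611) (nat_lit 2)) (.cons (.rf (nat_lit 175) (nat_lit 629818347950740706)) .nil))) (.cons (.br (nat_lit 15) (nat_lit 0) (.cons (.br (nat_lit 15) (nat_lit 0) (.cons (.ev (nat_lit 1329248357423890964658184334073725185) (nat_lit 1)) .nil)) (.cons (.br (nat_lit 15) (nat_lit 0) (.cons (.ev (nat_lit 1329248357423890964658184334073725185) (nat_lit 1)) .nil)) .nil))) .nil)))) .nil)))) (.cons (.ev (nat_lit 5192297168019837521933163403673601)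 (nat_lit 1)) (.cons (.ev (nat_lit 5192297169228781716234267938258944) (nat_lit 1)) (.cons (.br (nat_lit 12) (nat_lit 0) (.cons (.rf (nat_lit 962) (nat_lit 19926519232773908561233952)) (.cons (.rf (nat_lit 963) (nat_lit 19926519232773908561233952)) (.cons (.rf (nat_lit 965) (nat_lit 19926519232773908561233952)) (.cons (.br (nat_lit 12) (nat_lit 0) (.cons (.rf (nat_lit 961) (nat_lit 21174442659472845144426528)) (.cons (.rf (nat_lit 963) (nat_lit 19926519232773908561233952)) (.cons (.rf (nat_lit 965) (nat_lit 19926519232773908561233952)) .nil)))) .nil))))) .nil))))) (.cons (.ev (nat_lit 621392612095427827065683969) (nat_lit 2)) (.cons (.br (nat_lit 12) (nat_lit 0) (.cons (.rf (nat_lit 973) (nat_lit 19926519232773908561233952)) (.cons (.rf (nat_lit 977) (nat_lit 19926519232773908561233952)) (.cons (.rf (nat_lit 979) (nat_lit 19926519232773908561233952)) (.cons (.rf (nat_lit 981) (nat_lit 19926519232773908561233952)) (.cons (.br (nat_lit 12) (nat_lit 0) (.cons (.rf (nat_lit 973) (nat_lit 19926519232773908561233952)) (.cons (.rf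 (nat_lit 977) (nat_lit 19926519232773908561233952)) (.cons (.rf (nat_lit 979) (nat_lit 19926519232773908561233952)) (.cons (.rf (nat_lit 981) (nat_lit 19926519232773908561233952)) .nil))))) .nil)))))) .nil)))))) .nil))))))]

theorem c34 : chkAll C T R L34 (nat_lit 967) = true := by decide +kernel

theorem l34 : (nat_lit 967) + L34.length = (nat_lit 983) := by decide +kernel

/-- part of the certificates -/
def L35 : List Prf := [(.br (nat_lit 14) (nat_lit 0) (.cons (.ev (nat_lit 10506289415054271237607466846913539) (nat_lit 3)) (.cons (.rf (nat_lit 940) (nat_lit 622703725915198874290208)) .nil))),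
 (.br (nat_lit 15) (nat_lit 0) (.cons (.zr (nat_lit 5212658805800170484931239226703872) (nat_lit 1329227995787333761580639662714650880) (nat_lit 8) (nat_lit 11)) .nil)),
 (.br (nat_lit 15) (nat_lit 0) (.cons (.br (nat_lit 16) (nat_lit 0) (.cons (.zr (nat_lit 87112291144419052451516751198116510760960) (nat_lit 341611594916727006150846919317695496448) (nat_lit 8) (nat_lit 11)) .nil)) .nil)),
 (.br (nat_lit 12) (nat_lit 0) (.cons (.ev (nat_lit 10506605089764215223731569239000071) (nat_lit 3)) (.cons (.br (nat_lit 14) (nat_lit 0) (.cons (.ev (nat_lit 5212658497509919382907770105823233) (nat_lit 1)) (.cons (.br (nat_lit 15) (nat_lit 0) (.cons (.ev (nat_lit 2668881308564856362280426222244725251) (nat_lit 2)) (.cons (.rf (nat_lit 167) (nat_lit 631045402794169666)) .nil))) .nil))) (.cons (.br (nat_lit 14) (nat_lit 0) (.cons (.br (nat_lit 15) (nat_lit 0) (.cons (.ev (nat_lit 18650973866323524751221345224518402563) (nat_lit 4)) (.cons (.rf (nat_lit 166) (nat_lit 631045402794169666)) .nil))) (.cons (.ev (nat_lit 5212658497509919382907770105823233)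 (nat_lit 1)) (.cons (.br (nat_lit 15) (nat_lit 0) (.cons (.rf (nat_lit 985) (nat_lit 677582165103132179601393696)) (.cons (.br (nat_lit 15) (nat_lit 0) (.cons (.rf (nat_lit 985) (nat_lit 677582165103132179601393696)) .nil)) .nil))) .nil)))) .nil)))),
 (.br (nat_lit 15) (nat_lit 0) (.cons (.ev (nat_lit 3416178337861652928794116587455307056643) (nat_lit 4)) (.cons (.ev (nat_lit 2668881308564856362280426222244725251) (nat_lit 2)) .nil))),
 (.br (nat_lit 12) (nat_lit 0) (.cons (.rf (nat_lit 986) (nat_lit 582562417319727094305827)) (.cons (.ev (nat_lit 1329227996095614530911531107096723713) (nat_lit 1)) (.cons (.br (nat_lit 12) (nat_lit 0) (.cons (.rf (nat_lit 986) (nat_lit 582562417319727094305827)) (.cons (.ev (nat_lit 1329227996095614530911531107096723713) (nat_lit 1)) (.cons (.br (nat_lit 14) (nat_lit 0) (.cons (.ev (nat_lit 5348106330350442466686387787074109443) (nat_lit 3)) (.cons (.rf (nat_lit 987) (nat_lit 677582165103132179601393696)) (.cons (.rf (nat_lit 987) (nat_lit 640105464695078675185502240)) .nil)))) .nil)))) .nil)))),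
 (.br (nat_lit 12) (nat_lit 0) (.cons (.ev (nat_lit 340292751594814568532446297139282248193) (nat_lit 2)) (.cons (.br (nat_lit 15) (nat_lit 0) (.cons (.kr (nat_lit 2658455991572249597590958567002734593) (nat_lit 680564733841876931667562723286162866688) (nat_lit 0) (nat_lit 2)) (.cons (.ev (nat_lit 5348106646025152410670260089652510727) (nat_lit 3)) .nil))) .nil))),
 (.br (nat_lit 15) (nat_lit 0) (.cons (.ev (nat_lit 680564734000333256696236078810320207873) (nat_lit 2)) (.cons (.rf (nat_lit 255) (nat_lit 661700216003583149150433)) .nil))),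
 (.br (nat_lit 12) (nat_lit 0) (.cons (.rf (nat_lit 990) (nat_lit 677582165103132179601393696)) (.cons (.rf (nat_lit 990) (nat_lit 640104320993458560513872931)) .nil))),
 (.br (nat_lit 12) (nat_lit 0) (.cons (.rf (nat_lit 991) (nat_lit 677582165103132179601393696)) (.cons (.br (nat_lit 16) (nat_lit 0) (.cons (.br (nat_lit 15) (nat_lit 0) (.cons (.zr (nat_lit 1363808692862760266373435924649126920705) (nat_lit 477225885162961128119368810496) (nat_lit 16) (nat_lit 7)) .nil)) (.cons (.ev (nat_lit 680564734000333256696236078810320207873) (nat_lit 2)) .nil))) .nil))),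
 (.br (nat_lit 11) (nat_lit 0) (.cons (.rf (nat_lit 254) (nat_lit 17022105775790443537444)) .nil)),
 (.br (nat_lit 15) (nat_lit 0) (.cons (.ev (nat_lit 1334481220032515458429901615818408704) (nat_lit 2)) .nil)),
 (.br (nat_lit 13) (nat_lit 0) (.cons (.ev (nat_lit 20361947255916569615032146526208) (nat_lit 1)) (.cons (.rf (nat_lit 166) (nat_lit 521693401835638048)) .nil))),
 (.br (nat_lit 13) (nat_lit 0) (.cons (.br (nat_lit 15) (nat_lit 0) (.cons (.ev (nat_lit 2668881308562438473891824013175554561) (nat_lit 2)) (.cons (.rf (nat_lit 167) (nat_lit 631046434793260261)) .nil))) (.cons (.br (nat_lit 16) (nat_lit 0) (.cons (.ev (nat_lit 340282387361808018976445405430710141186) (nat_lit 2)) (.cons (.rf (nat_lit 175) (nat_lit 629853531114902881)) .nil))) (.cons (.rf (nat_lit 955) (nat_lit 21174406918906202231411747)) .nil)))),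
 (.br (nat_lit 13) (nat_lit 0) (.cons (.rf (nat_lit 996) (nat_lit 19926519232773908561233952)) (.cons (.br (nat_lit 14) (nat_lit 0) (.cons (.ev (nat_lit 20810228243714422650928730221182979) (nat_lit 3)) (.cons (.ev (nat_lit 340282387361808018976445405430710141186) (nat_lit 2)) (.cons (.br (nat_lit 16) (nat_lit 0) (.cons (.ev (nat_lit 5316952708274528512193084176617046019) (nat_lit 3)) (.cons (.ev (nat_lit 1361150359041635982882831054246299173895) (nat_lit 3)) .nil))) .nil)))) (.cons (.br (nat_lit 14) (nat_lit 0) (.cons (.rf (nat_lit 167) (nat_lit 630978265064211685)) (.cons (.br (nat_lit 16) (nat_lit 0) (.cons (.ev (nat_lit 683233574585620158097300190982209404931) (nat_lit 2)) (.cons (.ev (nat_lit 340282387282577438555129266176243335168) (nat_lit 1)) .nil))) (.cons (.br (nat_lit 15) (nat_lit 0) (.cons (.rf (nat_lit 764) (nat_lit 21172119521230528521018400)) (.cons (.ev (nat_lit 174224571904085931475348633654855414579713) (nat_lit 2)) .nil))) .nil)))) .nil)))),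
 (.br (nat_lit 13) (nat_lit 0) (.cons (.rf (nat_lit 996) (nat_lit 19926519232773908561233952)) (.cons (.rf (nat_lit 997) (nat_lit 19926519232773908561233952)) (.cons (.br (nat_lit 16) (nat_lit 0) (.cons (.rf (nat_lit 172) (nat_lit 629853531114902881)) (.cons (.br (nat_lit 14) (nat_lit 0) (.cons (.ev (nat_lit 680585503505301434046059295699255035397) (nat_lit 3)) (.cons (.ev (nat_lit 2041715052318693702506239421215333024257) (nat_lit 3)) .nil))) (.cons (.kr (nat_lit 340282366920938463463374607431768211457) (nat_lit 20282409603651670423947251286272) (nat_lit 0) (nat_lit 2)) .nil)))) .nil)))),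
 (.br (nat_lit 12) (nat_lit 0) (.cons (.br (nat_lit 15) (nat_lit 0) (.cons (.ev (nat_lit 2668881308562438473891824013175554561) (nat_lit 2)) (.cons (.rf (nat_lit 167) (nat_lit 631045369641339109)) .nil))) (.cons (.br (nat_lit 16) (nat_lit 0) (.cons (.ev (nat_lit 680564734000335674584624681036636356611) (nat_lit 2)) (.cons (.rf (nat_lit 175) (nat_lit 629818347816523106)) .nil))) (.cons (.rf (nat_lit 961) (nat_lit 21174406918906202231411747)) .nil)))),
 (.br (nat_lit 12) (nat_lit 0) (.cons (.rf (nat_lit 999) (nat_lit 19926519232773908561233952)) (.cons (.br (nat_lit 14) (nat_lit 0) (.cons (.kr (nat_lit 10384593717069673704086541344702977) (nat_lit 2658455991569836468174096994551201792) (nat_lit 0) (nat_lit 2)) (.cons (.ev (nat_lit 680564734000335674584624681036636356611) (nat_lit 2)) (.cons (.br (nat_lit 15) (nat_lit 0) (.cons (.ev (nat_lit 680564734000333256696236078810320207873) (nat_lit 2)) (.cons (.ev (nat_lit 2689691219274527968203493863594394117) (nat_lit 3)) .nil))) .nil)))) (.cons (.br (nat_lit 14) (nat_lit 0) (.cons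 (.kr (nat_lit 10384593717069673704086541344702977) (nat_lit 2658455991569836468174096994551201792) (nat_lit 0) (nat_lit 2)) (.cons (.br (nat_lit 15) (nat_lit 0) (.cons (.kr (nat_lit 680564733841876931667562723286162866177) (nat_lit 40564821625155124192340944617472) (nat_lit 0) (nat_lit 1)) (.cons (.br (nat_lit 16) (nat_lit 0) (.cons (.ev (nat_lit 341616787213892608117994930239258493185) (nat_lit 1)) .nil)) .nil))) (.cons (.br (nat_lit 17) (nat_lit 0) (.cons (.ev (nat_lit 87112296316434122751692971192240176169473) (nat_lit 2)) (.cons (.ev (nat_lit 87112285952121885621715654161277137256448) (nat_lit 1)) .nil))) .nil)))) .nil)))),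
 (.br (nat_lit 15) (nat_lit 0) (.cons (.ev (nat_lit 2658496557008013846642826869194358787) (nat_lit 2)) (.cons (.ev (nat_lit 5212658497509919383189240787566848) (nat_lit 1)) (.cons (.ev (nat_lit 87112285952121885626456467106749793501185) (nat_lit 1)) .nil)))),
 (.br (nat_lit 12) (nat_lit 0) (.cons (.rf (nat_lit 999) (nat_lit 19926519232773908561233952)) (.cons (.rf (nat_lit 1000) (nat_lit 19926519232773908561233952)) (.cons (.br (nat_lit 16) (nat_lit 0) (.cons (.rf (nat_lit 172) (nat_lit 629818347816523106)) (.cons (.br (nat_lit 14) (nat_lit 0) (.cons (.ev (nat_lit 341616787213892612821914387555939254528) (nat_lit 1)) (.cons (.rf (nat_lit 1001) (nat_lit 677582165103132179601393696)) .nil))) (.cons (.ev (nat_lit 680564734000333256696236078810320207873) (nat_lit 2)) .nil)))) .nil)))),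
 (.br (nat_lit 15) (nat_lit 0) (.cons (.br (nat_lit 16) (nat_lit 0) (.cons (.ev (nat_lit 88137136313921397183727567926840889901312) (nat_lit 2)) .nil)) .nil)),
 (.br (nat_lit 13) (nat_lit 0) (.cons (.ev (nat_lit 20361947255916569615032146526208) (nat_lit 1)) (.cons (.rf (nat_lit 214) (nat_lit 556663336818966691)) .nil))),
 (.br (nat_lit 12) (nat_lit 0) (.cons (.br (nat_lit 13) (nat_lit 0) (.cons (.rf (nat_lit 318) (nat_lit 19459491117029800616097)) (.cons (.br (nat_lit 16) (nat_lit 0) (.cons (.ev (nat_lit 340282387282577438555129266176243335168) (nat_lit 1)) (.cons (.rf (nat_lit 214) (nat_lit 629955718923258085)) .nil))) (.cons (.br (nat_lit 15) (nat_lit 0) (.cons (.rf (nat_lit 1003) (nat_lit 677582165103132179601393696)) (.cons (.br (nat_lit 15) (nat_lit 0) (.cons (.rf (nat_lit 1003) (nat_lit 677582165103132179601393696)) .nil)) .nil))) .nil)))) (.cons (.br (nat_lit 14) (nat_lit 0) (.cons (.rf (nat_lit 1004) (nat_lit 19459491438255770079297)) (.cons (.kr (nat_lit 10384593717069673704086541344702977) (nat_lit 2658455991569836468174096994551201792)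 (nat_lit 0) (nat_lit 2)) (.cons (.br (nat_lit 15) (nat_lit 0) (.cons (.ev (nat_lit 1334440575362539362096445641617047553) (nat_lit 1)) (.cons (.ev (nat_lit 7985752885346473319401234665685911041) (nat_lit 3)) (.cons (.br (nat_lit 16) (nat_lit 0) (.cons (.ev (nat_lit 340282387282577443295942211648899579905) (nat_lit 1)) (.cons (.ev (nat_lit 683233574585620158097300190982209404931) (nat_lit 2)) .nil))) .nil)))) (.cons (.br (nat_lit 15) (nat_lit 0) (.cons (.rf (nat_lit 975) (nat_lit 631046501365418145)) (.cons (.br (nat_lit 16) (nat_lit 0) (.cons (.ev (nat_lit 340282387282576234351747910535775059968) (nat_lit 1)) (.cons (.ev (nat_lit 683233574585622575985688793191278575617) (nat_lit 2)) .nil))) (.cons (.ev (nat_lit 7985752885346473319401234665685911041) (nat_lit 3)) .nil)))) .nil))))) (.cons (.br (nat_lit 16) (nat_lit 0) (.cons (.kr (nat_lit 680564733841876926945195958941540941825) (nat_lit 40564819212025707612239141273600) (nat_lit 0) (nat_lit 1)) (.cons (.ev (nat_lit 340282366921247953214081518512879173888) (nat_lit 1)) (.cons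 (.ev (nat_lit 340282366921249162121382331478584590593) (nat_lit 1)) (.cons (.br (nat_lit 13) (nat_lit 0) (.cons (.rf (nat_lit 214) (nat_lit 629954653804922085)) (.cons (.br (nat_lit 15) (nat_lit 0) (.cons (.ev (nat_lit 2668881626096476513200918916659281921) (nat_lit 3)) (.cons (.rf (nat_lit 976) (nat_lit 677543279363137255187158051)) .nil))) (.cons (.br (nat_lit 17) (nat_lit 0) (.cons (.ev (nat_lit 174224571904085931475348633654855414579713) (nat_lit 2)) (.cons (.ev (nat_lit 174224571904085933893163235280786892521987) (nat_lit 2)) .nil))) .nil)))) .nil))))) (.cons (.br (nat_lit 13) (nat_lit 0) (.cons (.br (nat_lit 15) (nat_lit 0) (.cons (.br (nat_lit 15) (nat_lit 0) (.cons (.zr (nat_lit 2658658815665882448058046297311019011) (nat_lit 31153940228921865726176422938150912) (nat_lit 16) (nat_lit 2)) .nil)) (.cons (.br (nat_lit 15) (nat_lit 0) (.cons (.zr (nat_lit 2658658815665882448058046297311019011) (nat_lit 31153940228921865726176422938150912) (nat_lit 16) (nat_lit 2)) .nil)) .nil))) (.cons (.br (nat_lit 14) (nat_lit 0) (.cons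 (.rf (nat_lit 214) (nat_lit 630940984723671269)) (.cons (.br (nat_lit 15) (nat_lit 0) (.cons (.ev (nat_lit 683233614992604428243250728639653741057) (nat_lit 2)) (.cons (.br (nat_lit 16) (nat_lit 0) (.cons (.ev (nat_lit 344275263488180319581172069861037179650) (nat_lit 2)) .nil)) .nil))) (.cons (.br (nat_lit 17) (nat_lit 0) (.cons (.ev (nat_lit 174224571863678952040905674471238424199171) (nat_lit 2)) (.cons (.ev (nat_lit 87112296356998941958996312040134678740995) (nat_lit 2)) .nil))) .nil)))) (.cons (.br (nat_lit 16) (nat_lit 0) (.cons (.rf (nat_lit 214) (nat_lit 629815119209072869)) (.cons (.br (nat_lit 14) (nat_lit 0) (.cons (.ev (nat_lit 683233614992604428243250728639653741057) (nat_lit 2)) (.cons (.br (nat_lit 15) (nat_lit 0) (.cons (.ev (nat_lit 683233614992602010428649102725422776835) (nat_lit 2)) .nil)) .nil))) (.cons (.ev (nat_lit 340282387282576229647828453219094298625) (nat_lit 1)) .nil)))) (.cons (.br (nat_lit 14) (nat_lit 0) (.cons (.br (nat_lit 15) (nat_lit 0) (.cons (.br (nat_lit 16) (nat_lit 0) (.cons (.zr (nat_lit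 680606272375820500761969804508978610688) (nat_lit 5316993112785355265479371717678727169) (nat_lit 16) (nat_lit 5)) .nil)) (.cons (.ev (nat_lit 1334420371871617937235498192620028160) (nat_lit 1)) .nil))) (.cons (.br (nat_lit 16) (nat_lit 0) (.cons (.br (nat_lit 15) (nat_lit 0) (.cons (.ev (nat_lit 1334420371872822140616290883134882048) (nat_lit 1)) .nil)) (.cons (.ev (nat_lit 680585746579777490146802013307433779727) (nat_lit 4)) .nil))) (.cons (.rf (nat_lit 802) (nat_lit 631046501365259425)) .nil)))) .nil))))) .nil))))),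
 (.br (nat_lit 13) (nat_lit 0) (.cons (.ev (nat_lit 1334420371871613233315477917429465345) (nat_lit 1)) (.cons (.br (nat_lit 16) (nat_lit 0) (.cons (.ev (nat_lit 691219328106651254774068672384818087431) (nat_lit 4)) (.cons (.kr (nat_lit 680564733841876926945195958941540941825) (nat_lit 40564819212025707612239141273600) (nat_lit 0) (nat_lit 1)) .nil))) .nil))),
 (.br (nat_lit 13) (nat_lit 0) (.cons (.ev (nat_lit 40723277954961216314067602506241) (nat_lit 2)) (.cons (.br (nat_lit 16) (nat_lit 0) (.cons (.ev (nat_lit 340282366921249157417462311203394027776) (nat_lit 1)) (.cons (.ev (nat_lit 340282387282577438555129266176243335168) (nat_lit 1)) .nil))) .nil))),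
 (.br (nat_lit 13) (nat_lit 0) (.cons (.br (nat_lit 15) (nat_lit 0) (.cons (.kr (nat_lit 680564733841876926945195958941540941825) (nat_lit 40564819212025707612239141273600) (nat_lit 0) (nat_lit 1)) (.cons (.br (nat_lit 16) (nat_lit 0) (.cons (.ev (nat_lit 691219327475301834590953022600308459023) (nat_lit 4)) .nil)) .nil))) (.cons (.ev (nat_lit 40723277954961216314067602506241) (nat_lit 2)) .nil)))]

theorem c35 : chkAll C T R L35 (nat_lit 983) = true := by decide +kernel

theorem l35 : (nat_lit 983) + L35.length = (nat_lit 1009) := by decide +kernel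

/-- part of the certificates -/
def L36 : List Prf := [(.br (nat_lit 13) (nat_lit 0) (.cons (.rf (nat_lit 1008) (nat_lit 677582165103132179601393696)) (.cons (.br (nat_lit 17) (nat_lit 0) (.cons (.ev (nat_lit 174224571863678952040905674471238424199171) (nat_lit 2)) (.cons (.kr (nat_lit 680564733841876926945195958941540941825) (nat_lit 40564819212025707612239141273600) (nat_lit 0) (nat_lit 1)) .nil))) .nil))),
 (.br (nat_lit 12) (nat_lit 0) (.cons (.rf (nat_lit 1005) (nat_lit 19926519232773908561233952)) (.cons (.br (nat_lit 13) (nat_lit 0) (.cons (.ev (nat_lit 1334420371871613233315477917429465345) (nat_lit 1)) (.cons (.rf (nat_lit 1006) (nat_lit 19926519232773908561233952)) (.cons (.br (nat_lit 13) (nat_lit 0) (.cons (.ev (nat_lit 1334420371871613233315477917429465345) (nat_lit 1)) (.cons (.rf (nat_lit 1006) (nat_lit 19926519232773908561233952)) .nil))) .nil)))) (.cons (.br (nat_lit 15) (nat_lit 0) (.cons (.rf (nat_lit 1007) (nat_lit 19926519232773908561233952)) (.cons (.ev (nat_lit 340282366921249162121382331478584590593)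 (nat_lit 1)) (.cons (.br (nat_lit 15) (nat_lit 0) (.cons (.rf (nat_lit 1007) (nat_lit 19926519232773908561233952)) (.cons (.ev (nat_lit 340282366921249157417462311203394027776) (nat_lit 1)) .nil))) .nil)))) (.cons (.br (nat_lit 13) (nat_lit 0) (.cons (.rf (nat_lit 1008) (nat_lit 677582165103132179601393696)) (.cons (.rf (nat_lit 1009) (nat_lit 677582165103132179601393696)) (.cons (.br (nat_lit 13) (nat_lit 0) (.cons (.ev (nat_lit 40723277954961216314067602506241) (nat_lit 2)) (.cons (.rf (nat_lit 1009) (nat_lit 677582165103132179601393696)) .nil))) .nil)))) .nil))))),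
 (.br (nat_lit 12) (nat_lit 0) (.cons (.rf (nat_lit 1005) (nat_lit 19926519232773908561233952)) (.cons (.rf (nat_lit 1010) (nat_lit 19926519232773908561233952)) (.cons (.br (nat_lit 14) (nat_lit 0) (.cons (.br (nat_lit 13) (nat_lit 0) (.cons (.ev (nat_lit 10404956285708720742113654765323008) (nat_lit 2)) (.cons (.ev (nat_lit 40723277954961216314067602506241) (nat_lit 2)) (.cons (.br (nat_lit 16) (nat_lit 0) (.cons (.ev (nat_lit 340282366921249157417462311203394027776) (nat_lit 1)) (.cons (.ev (nat_lit 340282387282577438555129266176243335168) (nat_lit 1)) .nil))) .nil)))) (.cons (.kr (nat_lit 10384593717069673704086541344702977) (nat_lit 2658455991569836468174096994551201792) (nat_lit 0) (nat_lit 2)) (.cons (.ev (nat_lit 340282366921247948473268010098825888001) (nat_lit 1)) (.cons (.br (nat_lit 15) (nat_lit 0) (.cons (.br (nat_lit 13) (nat_lit 0) (.cons (.ev (nat_lit 40723275537072827711841286357507) (nat_lit 2)) (.cons (.br (nat_lit 16) (nat_lit 0) (.cons (.ev (nat_lit 340282387282576229647828453219094298625) (nat_lit 1))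 .nil)) .nil))) (.cons (.ev (nat_lit 340282366921249157417462311203394027776) (nat_lit 1)) (.cons (.br (nat_lit 16) (nat_lit 0) (.cons (.ev (nat_lit 1363819077773389967215020227801662096897) (nat_lit 3)) (.cons (.kr (nat_lit 680564733841879344778532559309978468353) (nat_lit 174224571863520493297988612513487950709248) (nat_lit 0) (nat_lit 2)) .nil))) .nil)))) .nil))))) (.cons (.br (nat_lit 14) (nat_lit 0) (.cons (.br (nat_lit 13) (nat_lit 0) (.cons (.rf (nat_lit 214) (nat_lit 630943114759022821)) (.cons (.br (nat_lit 15) (nat_lit 0) (.cons (.ev (nat_lit 3408203091581401055466716288777132706829) (nat_lit 4)) (.cons (.br (nat_lit 16) (nat_lit 0) (.cons (.zr (nat_lit 685881726954657422969064611083536302595) (nat_lit 477225889866880585444622729216) (nat_lit 16) (nat_lit 10)) .nil)) .nil))) (.cons (.ev (nat_lit 40723277954961216314067602506241) (nat_lit 2)) .nil)))) (.cons (.kr (nat_lit 10384593717069673704086541344702977) (nat_lit 2658455991569836468174096994551201792) (nat_lit 0) (nat_lit 2)) (.cons (.br (nat_lit 15) (nat_lit 0)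 (.cons (.br (nat_lit 13) (nat_lit 0) (.cons (.ev (nat_lit 696536279546027566908555998422546514957) (nat_lit 4)) (.cons (.ev (nat_lit 40723275537072827711841286357507) (nat_lit 2)) .nil))) (.cons (.ev (nat_lit 1363819077457715257271036355499083695621) (nat_lit 3)) (.cons (.br (nat_lit 13) (nat_lit 0) (.cons (.ev (nat_lit 683233574585620158097300190982209404931) (nat_lit 2)) (.cons (.ev (nat_lit 174224571863678949623017285869012108050433) (nat_lit 2)) .nil))) .nil)))) (.cons (.br (nat_lit 17) (nat_lit 0) (.cons (.ev (nat_lit 174224571863678952040905674471238424199171) (nat_lit 2)) (.cons (.rf (nat_lit 802) (nat_lit 630978331636210849)) (.cons (.br (nat_lit 15) (nat_lit 0) (.cons (.br (nat_lit 13) (nat_lit 0) (.cons (.zr (nat_lit 680585584158951922307560791454034953728) (nat_lit 477225885162961128119368810499) (nat_lit 16) (nat_lit 7)) .nil)) (.cons (.ev (nat_lit 874531062206359771485189007074631241171463) (nat_lit 4)) .nil))) .nil)))) .nil))))) .nil))))),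
 (.br (nat_lit 15) (nat_lit 0) (.cons (.ev (nat_lit 683223189834065733470051193838228210177) (nat_lit 2)) (.cons (.ev (nat_lit 340287559297026369731087372725304492033) (nat_lit 1)) (.cons (.ev (nat_lit 87452568298760414486268171290234310426880) (nat_lit 1)) .nil)))),
 (.br (nat_lit 12) (nat_lit 0) (.cons (.rf (nat_lit 1005) (nat_lit 19926519232773908561233952)) (.cons (.rf (nat_lit 1010) (nat_lit 19926519232773908561233952)) (.cons (.rf (nat_lit 1011) (nat_lit 19926519232773908561233952)) (.cons (.br (nat_lit 16) (nat_lit 0) (.cons (.br (nat_lit 13) (nat_lit 0) (.cons (.rf (nat_lit 214) (nat_lit 629818314362760421)) (.cons (.br (nat_lit 14) (nat_lit 0) (.cons (.ev (nat_lit 1334440575363753010210204071422328833) (nat_lit 1)) (.cons (.rf (nat_lit 1012) (nat_lit 677582165103132179601393696)) .nil))) (.cons (.ev (nat_lit 40723275537072827711841286357507) (nat_lit 2)) .nil)))) (.cons (.ev (nat_lit 340282366921247953214081518512879173888) (nat_lit 1)) (.cons (.ev (nat_lit 340282366921249162121382331478584590593) (nat_lit 1)) (.cons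 (.br (nat_lit 17) (nat_lit 0) (.cons (.ev (nat_lit 174224571863678949623017285869012108050433) (nat_lit 2)) (.cons (.rf (nat_lit 802) (nat_lit 629853531207474337)) (.cons (.br (nat_lit 14) (nat_lit 0) (.cons (.br (nat_lit 13) (nat_lit 0) (.cons (.ev (nat_lit 340282387282577438555129266176243335168) (nat_lit 1)) .nil)) (.cons (.ev (nat_lit 87113620352053200791278519825340152414465) (nat_lit 1)) .nil))) .nil)))) .nil))))) .nil))))),
 (.br (nat_lit 10) (nat_lit 0) (.cons (.rf (nat_lit 874) (nat_lit 15878439375369668662307)) (.cons (.rf (nat_lit 931) (nat_lit 15878439375369668662307)) (.cons (.br (nat_lit 11) (nat_lit 0) (.cons (.br (nat_lit 12) (nat_lit 0) (.cons (.ev (nat_lit 79228167236702879156755562753) (nat_lit 1)) (.cons (.ev (nat_lit 79229376180897180269880082688) (nat_lit 1)) (.cons (.br (nat_lit 13) (nat_lit 0) (.cons (.kr (nat_lit 10384593717069673704086541344702467) (nat_lit 40564819212025707330768493084672) (nat_lit 0) (nat_lit 1)) (.cons (.rf (nat_lit 983) (nat_lit 583706118939841765935136)) (.cons (.br (nat_lit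 14) (nat_lit 0) (.cons (.rf (nat_lit 940) (nat_lit 622667985457541827007523)) (.cons (.ev (nat_lit 10506289415054271237607466846913539) (nat_lit 3)) (.cons (.br (nat_lit 15) (nat_lit 0) (.cons (.rf (nat_lit 984) (nat_lit 677582165103132179601393696)) (.cons (.rf (nat_lit 984) (nat_lit 640104320993458560513872931)) .nil))) .nil)))) .nil)))) .nil)))) (.cons (.ev (nat_lit 621392612095427827065683969) (nat_lit 2)) (.cons (.ev (nat_lit 618974797493801895587741699) (nat_lit 2)) (.cons (.br (nat_lit 13) (nat_lit 0) (.cons (.rf (nat_lit 986) (nat_lit 583706118939841765935136)) (.cons (.kr (nat_lit 10384593717069673704086541344702467) (nat_lit 40564819212025707330768493084672) (nat_lit 0) (nat_lit 1)) (.cons (.rf (nat_lit 988) (nat_lit 583706118939841765935136)) (.cons (.br (nat_lit 14) (nat_lit 0) (.cons (.rf (nat_lit 986) (nat_lit 582562417319727094305827)) (.cons (.rf (nat_lit 988) (nat_lit 582562417319727094305827)) (.cons (.br (nat_lit 12) (nat_lit 0) (.cons (.rf (nat_lit 989) (nat_lit 19926519232773908561233952)) (.cons (.br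 (nat_lit 12) (nat_lit 0) (.cons (.ev (nat_lit 340292751594814568532446297139282248193) (nat_lit 2)) (.cons (.rf (nat_lit 172) (nat_lit 629818347817571650)) .nil))) (.cons (.br (nat_lit 12) (nat_lit 0) (.cons (.rf (nat_lit 989) (nat_lit 19926519232773908561233952)) (.cons (.rf (nat_lit 172) (nat_lit 629818347817571650)) .nil))) .nil)))) (.cons (.br (nat_lit 12) (nat_lit 0) (.cons (.rf (nat_lit 991) (nat_lit 677582165103132179601393696)) (.cons (.rf (nat_lit 992) (nat_lit 677582165103132179601393696)) (.cons (.rf (nat_lit 992) (nat_lit 640104320993458560513872931)) .nil)))) .nil))))) .nil))))) .nil))))) (.cons (.rf (nat_lit 982) (nat_lit 15878439375369668662307)) (.cons (.br (nat_lit 11) (nat_lit 0) (.cons (.br (nat_lit 12) (nat_lit 0) (.cons (.ev (nat_lit 79228167236702879156755562753) (nat_lit 1)) (.cons (.br (nat_lit 13) (nat_lit 0) (.cons (.rf (nat_lit 993) (nat_lit 570025506777189224513)) (.cons (.br (nat_lit 13) (nat_lit 0) (.cons (.rf (nat_lit 993) (nat_lit 570025506777189224513)) (.cons (.br (nat_lit 15) (nat_lit 0)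 (.cons (.rf (nat_lit 994) (nat_lit 677582165103132179601393696)) (.cons (.rf (nat_lit 994) (nat_lit 640105464695078675185502240)) .nil))) .nil))) .nil))) (.cons (.br (nat_lit 14) (nat_lit 0) (.cons (.br (nat_lit 13) (nat_lit 0) (.cons (.ev (nat_lit 20891357884546843646020057238470657) (nat_lit 3)) (.cons (.rf (nat_lit 995) (nat_lit 19459491438255770079297)) .nil))) (.cons (.kr (nat_lit 10384593717069673704086541344702977) (nat_lit 2658455991569836468174096994551201792) (nat_lit 0) (nat_lit 2)) (.cons (.br (nat_lit 15) (nat_lit 0) (.cons (.rf (nat_lit 953) (nat_lit 622667985457506261406755)) (.cons (.ev (nat_lit 7985752569666927598637906145021265409) (nat_lit 3)) (.cons (.br (nat_lit 13) (nat_lit 0) (.cons (.br (nat_lit 13) (nat_lit 0) (.cons (.zr (nat_lit 1334420372181112391718314352255762434) (nat_lit 20282412021540347256549685592832) (nat_lit 8) (nat_lit 11)) .nil)) (.cons (.br (nat_lit 13) (nat_lit 0) (.cons (.zr (nat_lit 1334420372181112391718314352255762434) (nat_lit 20282412021540347256549685592832) (nat_lit 8) (nat_lit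 11)) .nil)) .nil))) .nil)))) .nil)))) (.cons (.br (nat_lit 13) (nat_lit 0) (.cons (.rf (nat_lit 996) (nat_lit 19926519232773908561233952)) (.cons (.rf (nat_lit 997) (nat_lit 19926519232773908561233952)) (.cons (.rf (nat_lit 998) (nat_lit 19926519232773908561233952)) (.cons (.br (nat_lit 13) (nat_lit 0) (.cons (.rf (nat_lit 955) (nat_lit 21174406918906202231411747)) (.cons (.rf (nat_lit 997) (nat_lit 19926519232773908561233952)) (.cons (.rf (nat_lit 998) (nat_lit 19926519232773908561233952)) .nil)))) .nil))))) .nil))))) (.cons (.br (nat_lit 13) (nat_lit 0) (.cons (.br (nat_lit 12) (nat_lit 0) (.cons (.ev (nat_lit 20809913804526703348558971384498185) (nat_lit 4)) (.cons (.br (nat_lit 14) (nat_lit 0) (.cons (.kr (nat_lit 5253144090972560314819007720980736) (nat_lit 3987684066892404587530070690501820416) (nat_lit 1) (nat_lit 0)) (.cons (.br (nat_lit 15) (nat_lit 0) (.cons (.ev (nat_lit 2689690903604653653422873423837659653) (nat_lit 3)) (.cons (.rf (nat_lit 167) (nat_lit 631045402793121122)) .nil))) .nil))) (.cons (.br (nat_lit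 14) (nat_lit 0) (.cons (.br (nat_lit 15) (nat_lit 0) (.cons (.ev (nat_lit 1334420371871617937235498192620028160) (nat_lit 1)) (.cons (.rf (nat_lit 166) (nat_lit 631045402793121122)) .nil))) (.cons (.br (nat_lit 16) (nat_lit 0) (.cons (.ev (nat_lit 680564734000335674584624681036636356611) (nat_lit 2)) (.cons (.rf (nat_lit 175) (nat_lit 629818314664741093)) .nil))) (.cons (.br (nat_lit 15) (nat_lit 0) (.cons (.br (nat_lit 15) (nat_lit 0) (.cons (.ev (nat_lit 1334420371872822140616290883134882048) (nat_lit 1)) .nil)) (.cons (.br (nat_lit 15) (nat_lit 0) (.cons (.ev (nat_lit 1334420371872822140616290883134882048) (nat_lit 1)) .nil)) .nil))) .nil)))) .nil)))) (.cons (.ev (nat_lit 20282719088661563826614308962304) (nat_lit 1)) (.cons (.ev (nat_lit 20282720297605758127718877102081) (nat_lit 1)) (.cons (.br (nat_lit 12) (nat_lit 0) (.cons (.rf (nat_lit 999) (nat_lit 19926519232773908561233952)) (.cons (.rf (nat_lit 1000) (nat_lit 19926519232773908561233952)) (.cons (.rf (nat_lit 1002) (nat_lit 19926519232773908561233952)) (.cons (.br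 (nat_lit 12) (nat_lit 0) (.cons (.rf (nat_lit 961) (nat_lit 21174406918906202231411747)) (.cons (.rf (nat_lit 1000) (nat_lit 19926519232773908561233952)) (.cons (.rf (nat_lit 1002) (nat_lit 19926519232773908561233952)) .nil)))) .nil))))) .nil))))) (.cons (.ev (nat_lit 618974797493801895587741699) (nat_lit 2)) (.cons (.ev (nat_lit 621392612095427827065683969) (nat_lit 2)) (.cons (.br (nat_lit 12) (nat_lit 0) (.cons (.rf (nat_lit 1005) (nat_lit 19926519232773908561233952)) (.cons (.rf (nat_lit 1010) (nat_lit 19926519232773908561233952)) (.cons (.rf (nat_lit 1011) (nat_lit 19926519232773908561233952)) (.cons (.rf (nat_lit 1013) (nat_lit 19926519232773908561233952)) (.cons (.br (nat_lit 12) (nat_lit 0) (.cons (.rf (nat_lit 1005) (nat_lit 19926519232773908561233952)) (.cons (.rf (nat_lit 1010) (nat_lit 19926519232773908561233952)) (.cons (.rf (nat_lit 1011) (nat_lit 19926519232773908561233952)) (.cons (.rf (nat_lit 1013) (nat_lit 19926519232773908561233952)) .nil))))) .nil)))))) .nil)))))) .nil)))))),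
 (.br (nat_lit 12) (nat_lit 0) (.cons (.ev (nat_lit 10384752173399424743924939475780097) (nat_lit 2)) (.cons (.br (nat_lit 15) (nat_lit 0) (.cons (.ev (nat_lit 680575118436212971379500077751816159747) (nat_lit 2)) (.cons (.ev (nat_lit 1334420371871613233315477917429465345) (nat_lit 1)) .nil))) .nil))),
 (.br (nat_lit 12) (nat_lit 0) (.cons (.ev (nat_lit 40723276741276352619719877067267) (nat_lit 2)) (.cons (.br (nat_lit 17) (nat_lit 0) (.cons (.kr (nat_lit 10384593718278581148733215871074305) (nat_lit 174224571863520493293266245749143345561600) (nat_lit 0) (nat_lit 1)) (.cons (.ev (nat_lit 87112285952121884412808353348319988219905) (nat_lit 1)) .nil))) .nil))),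
 (.br (nat_lit 12) (nat_lit 0) (.cons (.ev (nat_lit 40723276741276352619719877067267) (nat_lit 2)) (.cons (.br (nat_lit 14) (nat_lit 0) (.cons (.ev (nat_lit 341611594995951541869061554852851679233) (nat_lit 1)) (.cons (.ev (nat_lit 87112285952121885626456467106749793501185) (nat_lit 1)) .nil))) .nil))),
 (.br (nat_lit 13) (nat_lit 0) (.cons (.ev (nat_lit 40565439386304359557668681024001) (nat_lit 2)) (.cons (.br (nat_lit 14) (nat_lit 0) (.cons (.kr (nat_lit 10384593717074377623825337280364547) (nat_lit 40564819207321787591972523868672) (nat_lit 0) (nat_lit 2)) (.cons (.ev (nat_lit 2658496557008013846642826869194358787) (nat_lit 2)) (.cons (.br (nat_lit 12) (nat_lit 0) (.cons (.br (nat_lit 12) (nat_lit 0) (.cons (.ev (nat_lit 10384752173399424743924939475780097) (nat_lit 2)) (.cons (.rf (nat_lit 166) (nat_lit 630942083151207778)) .nil))) (.cons (.rf (nat_lit 1015) (nat_lit 19926519232773908561233952)) (.cons (.br (nat_lit 12) (nat_lit 0) (.cons (.rf (nat_lit 166) (nat_lit 630942083151207778)) (.cons (.rf (nat_lit 1015) (nat_lit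 19926519232773908561233952)) .nil))) .nil)))) .nil)))) (.cons (.ev (nat_lit 20282720297605758127718877102081) (nat_lit 1)) (.cons (.br (nat_lit 15) (nat_lit 0) (.cons (.br (nat_lit 12) (nat_lit 0) (.cons (.br (nat_lit 14) (nat_lit 0) (.cons (.ev (nat_lit 2720844845073933446821062031945367567) (nat_lit 4)) (.cons (.rf (nat_lit 167) (nat_lit 631010186337749319)) .nil))) (.cons (.br (nat_lit 16) (nat_lit 0) (.cons (.ev (nat_lit 680564734000333256696236078810320207873) (nat_lit 2)) (.cons (.rf (nat_lit 175) (nat_lit 628692482364841314)) .nil))) (.cons (.rf (nat_lit 674) (nat_lit 21173190611311615629527396)) .nil)))) (.cons (.br (nat_lit 14) (nat_lit 0) (.cons (.br (nat_lit 12) (nat_lit 0) (.cons (.ev (nat_lit 40723276741276352619719877067267) (nat_lit 2)) (.cons (.rf (nat_lit 167) (nat_lit 630942016612763975)) .nil))) (.cons (.ev (nat_lit 2668881150726301817183730640405659650) (nat_lit 2)) (.cons (.rf (nat_lit 313) (nat_lit 20000970389486364778604712)) .nil)))) (.cons (.ev (nat_lit 2658496557008013846642826869194358787) (nat_lit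 2)) (.cons (.br (nat_lit 12) (nat_lit 0) (.cons (.rf (nat_lit 1016) (nat_lit 677582165103132179601393696)) (.cons (.rf (nat_lit 1017) (nat_lit 677582165103132179601393696)) (.cons (.br (nat_lit 12) (nat_lit 0) (.cons (.rf (nat_lit 1016) (nat_lit 677582165103132179601393696)) (.cons (.rf (nat_lit 1017) (nat_lit 677582165103132179601393696)) .nil))) .nil)))) .nil))))) .nil))))),
 (.br (nat_lit 16) (nat_lit 0) (.cons (.ev (nat_lit 340282387282576229647828453219094298625) (nat_lit 1)) (.cons (.rf (nat_lit 214) (nat_lit 628829820084914503)) .nil))),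
 (.br (nat_lit 14) (nat_lit 0) (.cons (.ev (nat_lit 158457548158557683037321167360) (nat_lit 2)) (.cons (.ev (nat_lit 2668840585907080402083947845974491137) (nat_lit 2)) (.cons (.br (nat_lit 16) (nat_lit 0) (.cons (.ev (nat_lit 680564734000334460899760986688910917633) (nat_lit 2)) (.cons (.ev (nat_lit 1329227996094400882797491198019764224) (nat_lit 1)) (.cons (.kr (nat_lit 10384593717074377623825337280364545) (nat_lit 680564733841876926945195958941557719040) (nat_lit 0) (nat_lit 1)) .nil)))) .nil))))]

theorem c36 : chkAll C T R L36 (nat_lit 1009) = true := by decide +kernel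

theorem l36 : (nat_lit 1009) + L36.length = (nat_lit 1021) := by decide +kernel

/-- part of the certificates -/
def L37 : List Prf := [(.br (nat_lit 13) (nat_lit 0) (.cons (.rf (nat_lit 318) (nat_lit 19423750550386988196161)) (.cons (.rf (nat_lit 1019) (nat_lit 19926519232773908561233952)) (.cons (.br (nat_lit 14) (nat_lit 0) (.cons (.rf (nat_lit 1020) (nat_lit 677582165103132179601393696)) (.cons (.br (nat_lit 14) (nat_lit 0) (.cons (.rf (nat_lit 1020) (nat_lit 677582165103132179601393696)) .nil)) .nil))) .nil)))),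
 (.br (nat_lit 13) (nat_lit 0) (.cons (.ev (nat_lit 40723275537072827711841286357507) (nat_lit 2)) (.cons (.rf (nat_lit 978) (nat_lit 677581021401512064929764387)) .nil))),
 (.br (nat_lit 13) (nat_lit 0) (.cons (.br (nat_lit 14) (nat_lit 0) (.cons (.kr (nat_lit 5192296858534827628530496329220097) (nat_lit 20282409603651670423947268063232) (nat_lit 0) (nat_lit 1)) (.cons (.ev (nat_lit 2668840743744435374075883997263691779) (nat_lit 2)) .nil))) (.cons (.ev (nat_lit 2658496714846573022159670899074269185) (nat_lit 2)) .nil))),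
 (.br (nat_lit 13) (nat_lit 0) (.cons (.rf (nat_lit 1023) (nat_lit 677582165103132179601393696)) (.cons (.br (nat_lit 17) (nat_lit 0) (.cons (.ev (nat_lit 174227230319670520658966617828069895963139) (nat_lit 2)) (.cons (.kr (nat_lit 87112285931760246646623899502532662132737) (nat_lit 20282409603651670423947251286272) (nat_lit 0) (nat_lit 2)) .nil))) .nil))),
 (.br (nat_lit 16) (nat_lit 0) (.cons (.ev (nat_lit 621392612095427827065683969) (nat_lit 2)) (.cons (.ev (nat_lit 340282366921247948473268010098825888001) (nat_lit 1)) (.cons (.ev (nat_lit 340287579500516086952566964542423171328) (nat_lit 1)) .nil)))),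
 (.br (nat_lit 12) (nat_lit 0) (.cons (.br (nat_lit 14) (nat_lit 0) (.cons (.kr (nat_lit 10384593717074377623825337280364545) (nat_lit 680564733841876926945195958941557719040) (nat_lit 0) (nat_lit 1)) (.cons (.ev (nat_lit 7996218767771236279488123616761349632) (nat_lit 3)) .nil))) (.cons (.ev (nat_lit 40723275537072827711841286357507) (nat_lit 2)) .nil))),
 (.br (nat_lit 12) (nat_lit 0) (.cons (.rf (nat_lit 1026) (nat_lit 677582165103132179601393696)) (.cons (.br (nat_lit 16) (nat_lit 0) (.cons (.ev (nat_lit 340282387282577443295942211648899579905) (nat_lit 1)) (.cons (.ev (nat_lit 174224571904085931475348633654855414579713) (nat_lit 2)) .nil))) .nil))),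
 (.br (nat_lit 13) (nat_lit 0) (.cons (.br (nat_lit 12) (nat_lit 0) (.cons (.ev (nat_lit 2658496714846573022159670899074269185) (nat_lit 2)) (.cons (.br (nat_lit 16) (nat_lit 0) (.cons (.ev (nat_lit 680564734000334460899760986688910917633) (nat_lit 2)) (.cons (.rf (nat_lit 214) (nat_lit 628828754966578503)) .nil))) (.cons (.br (nat_lit 14) (nat_lit 0) (.cons (.br (nat_lit 14) (nat_lit 0) (.cons (.zr (nat_lit 7975368451935380381936944932381392896) (nat_lit 31194345972848306442412430773453827) (nat_lit 16) (nat_lit 13)) .nil)) (.cons (.br (nat_lit 14) (nat_lit 0) (.cons (.zr (nat_lit 7975368451935380381936944932381392896) (nat_lit 31194345972848306442412430773453827) (nat_lit 16) (nat_lit 13)) .nil)) .nil))) .nil)))) (.cons (.br (nat_lit 14) (nat_lit 0) (.cons (.kr (nat_lit 10384593718278581148733215871074307) (nat_lit 40564819207321787591972523868672) (nat_lit 0) (nat_lit 2)) (.cons (.ev (nat_lit 10425159155251756091710782782308353) (nat_lit 2)) (.cons (.br (nat_lit 12) (nat_lit 0) (.cons (.rf (nat_lit 1025) (nat_lit 677582165103132179601393696))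 (.cons (.br (nat_lit 12) (nat_lit 0) (.cons (.rf (nat_lit 1025) (nat_lit 677582165103132179601393696)) .nil)) .nil))) .nil)))) (.cons (.ev (nat_lit 2658496557009218050167734747785068547) (nat_lit 2)) (.cons (.br (nat_lit 12) (nat_lit 0) (.cons (.rf (nat_lit 1026) (nat_lit 677582165103132179601393696)) (.cons (.rf (nat_lit 1027) (nat_lit 677582165103132179601393696)) (.cons (.br (nat_lit 12) (nat_lit 0) (.cons (.ev (nat_lit 40723275537072827711841286357507) (nat_lit 2)) (.cons (.rf (nat_lit 1027) (nat_lit 677582165103132179601393696)) .nil))) .nil)))) .nil))))),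
 (.br (nat_lit 12) (nat_lit 0) (.cons (.ev (nat_lit 158457548158557683037321167360) (nat_lit 2)) (.cons (.br (nat_lit 16) (nat_lit 0) (.cons (.kr (nat_lit 680564733841876926945195958941540941825) (nat_lit 40564819212025707612239141273600) (nat_lit 0) (nat_lit 1)) (.cons (.ev (nat_lit 680564734000334460899760986688910917633) (nat_lit 2)) (.cons (.ev (nat_lit 683223189834065733470051193838228210177) (nat_lit 2)) .nil)))) (.cons (.br (nat_lit 17) (nat_lit 0) (.cons (.kr (nat_lit 174224571863520493293266245749143328784385) (nat_lit 40564820416229232520117731983360) (nat_lit 0) (nat_lit 1)) (.cons (.ev (nat_lit 174224571863678949623017285869012108050433) (nat_lit 2)) (.cons (.ev (nat_lit 174227230319512683303994625891918606762497) (nat_lit 2)) .nil)))) .nil)))),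
 (.br (nat_lit 13) (nat_lit 0) (.cons (.ev (nat_lit 1329248357422682057357371368334754048) (nat_lit 1)) (.cons (.ev (nat_lit 174907795053354560245033134041682071781376) (nat_lit 2)) .nil))),
 (.br (nat_lit 12) (nat_lit 0) (.cons (.rf (nat_lit 1029) (nat_lit 677582165103132179601393696)) (.cons (.rf (nat_lit 1029) (nat_lit 677581021401512064929764387)) (.cons (.br (nat_lit 16) (nat_lit 0) (.cons (.rf (nat_lit 1030) (nat_lit 677582165103132179601393696)) (.cons (.rf (nat_lit 1030) (nat_lit 677581021401512064929764387)) (.cons (.ev (nat_lit 683223189834065733470051193838228210177) (nat_lit 2)) .nil)))) .nil)))),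
 (.br (nat_lit 16) (nat_lit 0) (.cons (.ev (nat_lit 341616787213583123089726560721359143168) (nat_lit 1)) (.cons (.ev (nat_lit 621392612095427827065683969) (nat_lit 2)) (.cons (.kr (nat_lit 680575118435594001304372758730135044097) (nat_lit 2658496556389039067595487563766300672) (nat_lit 0) (nat_lit 1)) (.cons (.kr (nat_lit 2658455991569831764254639669246951425) (nat_lit 680564733841876931649115697737493381120) (nat_lit 0) (nat_lit 1)) .nil))))),
 (.br (nat_lit 14) (nat_lit 0) (.cons (.ev (nat_lit 5348066240281240266182370069464875013) (nat_lit 3)) (.cons (.br (nat_lit 15) (nat_lit 0) (.cons (.ev (nat_lit 683223230556722295745383977884019982337) (nat_lit 2)) (.cons (.br (nat_lit 16) (nat_lit 0) (.cons (.ev (nat_lit 683223230556724713633772580093156261891) (nat_lit 2)) .nil)) .nil))) .nil))),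
 (.br (nat_lit 15) (nat_lit 0) (.cons (.ev (nat_lit 683223230556724713633772580093156261891) (nat_lit 2)) (.cons (.br (nat_lit 16) (nat_lit 0) (.cons (.ev (nat_lit 1361139852437786581225992498760690827269) (nat_lit 3)) (.cons (.ev (nat_lit 683223230556722295745383977884019982337) (nat_lit 2)) .nil))) .nil))),
 (.br (nat_lit 17) (nat_lit 0) (.cons (.ev (nat_lit 87112285952121884412808353348319988219905) (nat_lit 1)) (.cons (.ev (nat_lit 87112285952121885621715654161277137256448) (nat_lit 1)) .nil))),
 (.br (nat_lit 14) (nat_lit 0) (.cons (.br (nat_lit 15) (nat_lit 0) (.cons (.kr (nat_lit 2658455991569831764254639669246951425) (nat_lit 680564733841876931649115697737493381120) (nat_lit 0) (nat_lit 1)) (.cons (.ev (nat_lit 5348147369919654872864065858470020097) (nat_lit 3)) .nil))) (.cons (.rf (nat_lit 1035) (nat_lit 677582165103132179601393696)) .nil))),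
 (.br (nat_lit 13) (nat_lit 0) (.cons (.br (nat_lit 14) (nat_lit 0) (.cons (.ev (nat_lit 10425159155251756091710782782308353) (nat_lit 2)) (.cons (.ev (nat_lit 10425159157669570693336714193141763) (nat_lit 2)) (.cons (.br (nat_lit 15) (nat_lit 0) (.cons (.br (nat_lit 15) (nat_lit 0) (.cons (.rf (nat_lit 1032) (nat_lit 677582165103132179601393696)) .nil)) (.cons (.br (nat_lit 15) (nat_lit 0) (.cons (.rf (nat_lit 1032) (nat_lit 677582165103132179601393696)) .nil)) .nil))) .nil)))) (.cons (.br (nat_lit 14) (nat_lit 0) (.cons (.br (nat_lit 14) (nat_lit 0) (.cons (.ev (nat_lit 5348066240281240266182370069464875013) (nat_lit 3)) (.cons (.rf (nat_lit 214) (nat_lit 631013481354796385)) .nil))) (.cons (.rf (nat_lit 1033) (nat_lit 19926519232773908561233952)) (.cons (.br (nat_lit 14) (nat_lit 0) (.cons (.rf (nat_lit 214) (nat_lit 631013481354796385)) (.cons (.rf (nat_lit 1033) (nat_lit 19926519232773908561233952)) .nil))) .nil)))) (.cons (.br (nat_lit 14) (nat_lit 0) (.cons (.rf (nat_lit 1034) (nat_lit 19926519232773908561233952)) (.cons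 (.br (nat_lit 14) (nat_lit 0) (.cons (.ev (nat_lit 1361139852437786581225992498760690827269) (nat_lit 3)) (.cons (.rf (nat_lit 214) (nat_lit 629888680956438881)) .nil))) (.cons (.br (nat_lit 14) (nat_lit 0) (.cons (.rf (nat_lit 1034) (nat_lit 19926519232773908561233952)) (.cons (.rf (nat_lit 214) (nat_lit 629888680956438881)) .nil))) .nil)))) (.cons (.br (nat_lit 14) (nat_lit 0) (.cons (.rf (nat_lit 1036) (nat_lit 677582165103132179601393696)) (.cons (.br (nat_lit 14) (nat_lit 0) (.cons (.rf (nat_lit 1036) (nat_lit 677582165103132179601393696)) (.cons (.rf (nat_lit 1035) (nat_lit 677582165103132179601393696)) .nil))) (.cons (.rf (nat_lit 1035) (nat_lit 677582165103132179601393696)) .nil)))) .nil))))),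
 (.br (nat_lit 13) (nat_lit 0) (.cons (.br (nat_lit 14) (nat_lit 0) (.cons (.ev (nat_lit 5212737728090340699328495254372866) (nat_lit 2)) (.cons (.rf (nat_lit 214) (nat_lit 631011351218784609)) .nil))) (.cons (.br (nat_lit 14) (nat_lit 0) (.cons (.ev (nat_lit 5212737728090340699328495254372866) (nat_lit 2)) (.cons (.ev (nat_lit 1361129508408888718874076285662568513539) (nat_lit 3)) (.cons (.br (nat_lit 15) (nat_lit 0) (.cons (.ev (nat_lit 5316953023949238603752034985958573059) (nat_lit 3)) (.cons (.ev (nat_lit 5337803341021792520947852760347706375) (nat_lit 3)) .nil))) .nil)))) (.cons (.br (nat_lit 14) (nat_lit 0) (.cons (.rf (nat_lit 214) (nat_lit 630977266358228321)) (.cons (.br (nat_lit 15) (nat_lit 0) (.cons (.ev (nat_lit 5327297052847100955668248084080886789) (nat_lit 3)) (.cons (.ev (nat_lit 5348147369919654872864065858470020097) (nat_lit 3)) .nil))) (.cons (.kr (nat_lit 5192296858534827628530496329220097) (nat_lit 20282409603651670423947268063232) (nat_lit 0) (nat_lit 1)) .nil)))) .nil)))),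
 (.br (nat_lit 13) (nat_lit 0) (.cons (.ev (nat_lit 20361947255898122872053653635328) (nat_lit 1)) .nil)),
 (.br (nat_lit 13) (nat_lit 0) (.cons (.rf (nat_lit 1038) (nat_lit 19926519232773908561233952)) (.cons (.br (nat_lit 16) (nat_lit 0) (.cons (.ev (nat_lit 683223230556722295745383977884019982337) (nat_lit 2)) (.cons (.rf (nat_lit 214) (nat_lit 628829920144197985)) .nil))) (.cons (.br (nat_lit 14) (nat_lit 0) (.cons (.rf (nat_lit 1039) (nat_lit 21174442659471745632798752)) (.cons (.br (nat_lit 14) (nat_lit 0) (.cons (.ev (nat_lit 5212658497509919383189240787566848) (nat_lit 1)) .nil)) .nil))) .nil)))),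
 (.br (nat_lit 13) (nat_lit 0) (.cons (.rf (nat_lit 1038) (nat_lit 19926519232773908561233952)) (.cons (.rf (nat_lit 1040) (nat_lit 19926519232773908561233952)) (.cons (.br (nat_lit 15) (nat_lit 0) (.cons (.br (nat_lit 14) (nat_lit 0) (.cons (.ev (nat_lit 683233574585620158097300190982209404931) (nat_lit 2)) (.cons (.ev (nat_lit 5212658497509919383189240787566848) (nat_lit 1)) .nil))) (.cons (.rf (nat_lit 214) (nat_lit 628727665562560865)) (.cons (.br (nat_lit 16) (nat_lit 0) (.cons (.rf (nat_lit 911) (nat_lit 20676979959865242887393)) (.cons (.ev (nat_lit 174224571904085931475348633654855414579713) (nat_lit 2)) .nil))) .nil)))) .nil)))),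
 (.br (nat_lit 13) (nat_lit 0) (.cons (.rf (nat_lit 1038) (nat_lit 19926519232773908561233952)) (.cons (.rf (nat_lit 1040) (nat_lit 19926519232773908561233952)) (.cons (.rf (nat_lit 1041) (nat_lit 19926519232773908561233952)) (.cons (.br (nat_lit 13) (nat_lit 0) (.cons (.rf (nat_lit 1038) (nat_lit 19926519232773908561233952)) (.cons (.rf (nat_lit 1040) (nat_lit 19926519232773908561233952)) (.cons (.rf (nat_lit 1041) (nat_lit 19926519232773908561233952)) .nil)))) .nil))))),
 (.br (nat_lit 14) (nat_lit 0) (.cons (.kr (nat_lit 5192296858534827628530496329220097) (nat_lit 20282409603651670423947268063232) (nat_lit 0) (nat_lit 1)) (.cons (.ev (nat_lit 5253144709956783807175138396340737) (nat_lit 2)) (.cons (.br (nat_lit 15) (nat_lit 0) (.cons (.br (nat_lit 16) (nat_lit 0) (.cons (.ev (nat_lit 1361139933567427413646987590122202071043) (nat_lit 3)) .nil)) (.cons (.ev (nat_lit 348454471105223469684095484145123742581767) (nat_lit 3)) .nil))) .nil)))),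
 (.br (nat_lit 14) (nat_lit 0) (.cons (.ev (nat_lit 5253144707538895418572929327170051) (nat_lit 2)) (.cons (.kr (nat_lit 5192296858534827628530496329220097) (nat_lit 20282409603651670423947268063232) (nat_lit 0) (nat_lit 1)) (.cons (.br (nat_lit 16) (nat_lit 0) (.cons (.br (nat_lit 15) (nat_lit 0) (.cons (.ev (nat_lit 5348147369917236910400256978343821319) (nat_lit 3)) .nil)) (.cons (.ev (nat_lit 349810304429795848139453099722238234592259) (nat_lit 3)) .nil))) .nil)))),
 (.br (nat_lit 13) (nat_lit 0) (.cons (.rf (nat_lit 1043) (nat_lit 677582165103132179601393696)) (.cons (.rf (nat_lit 1044) (nat_lit 677582165103132179601393696)) (.cons (.br (nat_lit 14) (nat_lit 0) (.cons (.rf (nat_lit 1044) (nat_lit 676409874513760392916767779)) (.cons (.rf (nat_lit 1043) (nat_lit 676409874513760392916767779)) (.cons (.kr (nat_lit 5192296858534827628530496329220097) (nat_lit 20282409603651670423947268063232) (nat_lit 0) (nat_lit 1)) .nil)))) .nil)))),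
 (.br (nat_lit 13) (nat_lit 0) (.cons (.rf (nat_lit 1045) (nat_lit 677582165103132179601393696)) (.cons (.br (nat_lit 15) (nat_lit 0) (.cons (.br (nat_lit 14) (nat_lit 0) (.cons (.ev (nat_lit 2044352657518440975232013261501884269569) (nat_lit 3)) (.cons (.ev (nat_lit 5212658497509919383189240787566848) (nat_lit 1)) .nil))) (.cons (.kr (nat_lit 2658455991569831764254639669246951425) (nat_lit 680564733841876931649115697737493381120) (nat_lit 0) (nat_lit 1)) (.cons (.br (nat_lit 14) (nat_lit 0) (.cons (.rf (nat_lit 926) (nat_lit 20676979959865242887393)) (.cons (.ev (nat_lit 87112285952121885626456467106749793501185) (nat_lit 1)) .nil))) .nil)))) (.cons (.br (nat_lit 17) (nat_lit 0) (.cons (.br (nat_lit 14) (nat_lit 0) (.cons (.ev (nat_lit 174229909626296693460502942201051043202567) (nat_lit 3)) (.cons (.br (nat_lit 15) (nat_lit 0) (.cons (.ev (nat_lit 2044363163806620502426496118006613017607) (nat_lit 3)) .nil)) .nil))) (.cons (.kr (nat_lit 87112285931760246646623899502532662132737) (nat_lit 20282409603651670423947251286272)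 (nat_lit 0) (nat_lit 2)) (.cons (.ev (nat_lit 87112285992608098068580078147174746030337) (nat_lit 2)) .nil)))) .nil))))]

theorem c37 : chkAll C T R L37 (nat_lit 1021) = true := by decide +kernel

theorem l37 : (nat_lit 1021) + L37.length = (nat_lit 1047) := by decide +kernel

/-- part of the certificates -/
def L38 : List Prf := [(.br (nat_lit 13) (nat_lit 0) (.cons (.rf (nat_lit 1045) (nat_lit 677582165103132179601393696)) (.cons (.rf (nat_lit 1046) (nat_lit 677582165103132179601393696)) (.cons (.br (nat_lit 16) (nat_lit 0) (.cons (.rf (nat_lit 1046) (nat_lit 676409874513760392916767779)) (.cons (.br (nat_lit 15) (nat_lit 0) (.cons (.br (nat_lit 14) (nat_lit 0) (.cons (.ev (nat_lit 2044383851864416227130328544202857645059) (nat_lit 3)) .nil)) (.cons (.ev (nat_lit 341611615199443681645956281006844543233) (nat_lit 1)) .nil))) (.cons (.kr (nat_lit 87112285931760246646623899502532662132737) (nat_lit 20282409603651670423947251286272) (nat_lit 0) (nat_lit 2)) .nil)))) .nil)))),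
 (.br (nat_lit 15) (nat_lit 0) (.cons (.ev (nat_lit 341611594995951546572981575128075796480) (nat_lit 1)) (.cons (.br (nat_lit 16) (nat_lit 0) (.cons (.ev (nat_lit 87112291144339824270113091859643317092608) (nat_lit 1)) .nil)) .nil))),
 (.br (nat_lit 15) (nat_lit 0) (.cons (.ev (nat_lit 341611594995952750776362367818590650368) (nat_lit 1)) (.cons (.br (nat_lit 16) (nat_lit 0) (.cons (.ev (nat_lit 10384752173399424743924939475780097) (nat_lit 2)) (.cons (.ev (nat_lit 341611594995951541869061554852851679233) (nat_lit 1)) .nil))) .nil))),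
 (.br (nat_lit 14) (nat_lit 0) (.cons (.br (nat_lit 15) (nat_lit 0) (.cons (.kr (nat_lit 2658455991569831764254639669246951425) (nat_lit 680564733841876931649115697737493381120) (nat_lit 0) (nat_lit 1)) (.cons (.br (nat_lit 16) (nat_lit 0) (.cons (.ev (nat_lit 688540182947470035106016133550620804101) (nat_lit 3)) .nil)) .nil))) (.cons (.ev (nat_lit 10384752173399424743924939475780097) (nat_lit 2)) .nil))),
 (.br (nat_lit 12) (nat_lit 0) (.cons (.kr (nat_lit 10384593717074377623825337280364547) (nat_lit 40564819207321787591972523868672) (nat_lit 0) (nat_lit 2)) (.cons (.br (nat_lit 15) (nat_lit 0) (.cons (.ev (nat_lit 10384752175817313132527165724819971) (nat_lit 2)) (.cons (.kr (nat_lit 2658455991569831764254639669246951425) (nat_lit 680564733841876931649115697737493381120) (nat_lit 0) (nat_lit 1)) (.cons (.br (nat_lit 16) (nat_lit 0) (.cons (.ev (nat_lit 10384752173399424743924939475780097) (nat_lit 2)) (.cons (.ev (nat_lit 688540183263139909420796753990243320837) (nat_lit 3)) .nil))) .nil)))) (.cons (.br (nat_lit 14) (nat_lit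 0) (.cons (.rf (nat_lit 214) (nat_lit 630943148144631138)) (.cons (.br (nat_lit 15) (nat_lit 0) (.cons (.ev (nat_lit 341616787213892612821914387555939254528) (nat_lit 1)) (.cons (.br (nat_lit 16) (nat_lit 0) (.cons (.ev (nat_lit 341616787213891399173800629126133973248) (nat_lit 1)) .nil)) .nil))) (.cons (.ev (nat_lit 10384752173399424743924939475780097) (nat_lit 2)) .nil)))) .nil)))),
 (.br (nat_lit 12) (nat_lit 0) (.cons (.kr (nat_lit 10384593717074377623825337280364547) (nat_lit 40564819207321787591972523868672) (nat_lit 0) (nat_lit 2)) (.cons (.rf (nat_lit 1051) (nat_lit 19926519232773908561233952)) (.cons (.br (nat_lit 14) (nat_lit 0) (.cons (.br (nat_lit 15) (nat_lit 0) (.cons (.ev (nat_lit 341616787213891403914613574598790217985) (nat_lit 1)) (.cons (.br (nat_lit 16) (nat_lit 0) (.cons (.ev (nat_lit 341616787213892608117994930239258493185) (nat_lit 1)) .nil)) .nil))) (.cons (.rf (nat_lit 214) (nat_lit 629818347746273634)) (.cons (.ev (nat_lit 10384752175817313132527165724819971) (nat_lit 2)) .nil)))) .nil)))),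
 (.br (nat_lit 12) (nat_lit 0) (.cons (.br (nat_lit 14) (nat_lit 0) (.cons (.rf (nat_lit 975) (nat_lit 631047566480741441)) (.cons (.br (nat_lit 15) (nat_lit 0) (.cons (.ev (nat_lit 683233574903154196136609285885693134339) (nat_lit 3)) (.cons (.br (nat_lit 16) (nat_lit 0) (.cons (.zr (nat_lit 13302664710646359136034595386756825101) (nat_lit 2041694282655269209609369021256940129792) (nat_lit 16) (nat_lit 15)) .nil)) .nil))) (.cons (.br (nat_lit 17) (nat_lit 0) (.cons (.ev (nat_lit 174224582248114829337700549867953604002307) (nat_lit 2)) (.cons (.ev (nat_lit 174224582248114831755515151493885014835713) (nat_lit 2)) .nil))) .nil)))) (.cons (.br (nat_lit 14) (nat_lit 0) (.cons (.br (nat_lit 15) (nat_lit 0) (.cons (.ev (nat_lit 683233574903159031765812537714289280519) (nat_lit 3)) (.cons (.br (nat_lit 16) (nat_lit 0) (.cons (.zr (nat_lit 2658700172771536578083744458574137856) (nat_lit 4763984290676146640568509144119665623047) (nat_lit 16) (nat_lit 1)) .nil)) .nil))) (.cons (.rf (nat_lit 975) (nat_lit 629956850848470081)) (.cons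 (.br (nat_lit 17) (nat_lit 0) (.cons (.ev (nat_lit 174224582248114829337700549867953604002307) (nat_lit 2)) (.cons (.ev (nat_lit 174224582248114831755515151493885014835713) (nat_lit 2)) .nil))) .nil)))) (.cons (.br (nat_lit 17) (nat_lit 0) (.cons (.rf (nat_lit 802) (nat_lit 631047566480550977)) (.cons (.ev (nat_lit 174224571863678949623017285869012108050433) (nat_lit 2)) (.cons (.ev (nat_lit 174224571863678952040905674471238424199171) (nat_lit 2)) .nil)))) .nil)))),
 (.br (nat_lit 12) (nat_lit 0) (.cons (.rf (nat_lit 1053) (nat_lit 677582165103132179601393696)) (.cons (.br (nat_lit 15) (nat_lit 0) (.cons (.br (nat_lit 14) (nat_lit 0) (.cons (.ev (nat_lit 2663648368587401987250773331762282753) (nat_lit 2)) (.cons (.ev (nat_lit 5212658497509919383189240787566848) (nat_lit 1)) .nil))) (.cons (.kr (nat_lit 2658455991569831764254639669246951425) (nat_lit 680564733841876931649115697737493381120) (nat_lit 0) (nat_lit 1)) (.cons (.br (nat_lit 16) (nat_lit 0) (.cons (.rf (nat_lit 926) (nat_lit 20676943966252595979490)) (.cons (.kr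 (nat_lit 174224571863520493297988612513487950708737) (nat_lit 40564821625155124192340944617472) (nat_lit 0) (nat_lit 1)) .nil))) .nil)))) (.cons (.br (nat_lit 17) (nat_lit 0) (.cons (.ev (nat_lit 174224571863678949623017285869012108050433) (nat_lit 2)) (.cons (.rf (nat_lit 802) (nat_lit 631013481618058305)) (.cons (.br (nat_lit 14) (nat_lit 0) (.cons (.rf (nat_lit 1001) (nat_lit 601457617399273498756614176)) (.cons (.rf (nat_lit 928) (nat_lit 20640051600709765863746)) .nil))) .nil)))) .nil)))),
 (.br (nat_lit 12) (nat_lit 0) (.cons (.rf (nat_lit 1053) (nat_lit 677582165103132179601393696)) (.cons (.rf (nat_lit 1054) (nat_lit 677582165103132179601393696)) (.cons (.br (nat_lit 17) (nat_lit 0) (.cons (.ev (nat_lit 174224571863678952040905674471238424199171) (nat_lit 2)) (.cons (.br (nat_lit 14) (nat_lit 0) (.cons (.rf (nat_lit 928) (nat_lit 20676943966252595979490)) (.cons (.rf (nat_lit 964) (nat_lit 640104320993458560513872931)) .nil))) (.cons (.rf (nat_lit 802) (nat_lit 629888681122278465)) .nil)))) .nil)))),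
 (.br (nat_lit 13) (nat_lit 0) (.cons (.br (nat_lit 12) (nat_lit 0) (.cons (.br (nat_lit 14) (nat_lit 0) (.cons (.br (nat_lit 15) (nat_lit 0) (.cons (.ev (nat_lit 5358491084392836393664125504298550277) (nat_lit 4)) (.cons (.rf (nat_lit 214) (nat_lit 631047532895769954)) .nil))) (.cons (.br (nat_lit 16) (nat_lit 0) (.cons (.ev (nat_lit 4083430063600303739386931797982030728201) (nat_lit 4)) (.cons (.rf (nat_lit 214) (nat_lit 629956817357968738)) .nil))) (.cons (.br (nat_lit 15) (nat_lit 0) (.cons (.br (nat_lit 15) (nat_lit 0) (.cons (.zr (nat_lit 20890881896596924103354565970102272) (nat_lit 5316912142214963280600667132983902213) (nat_lit 16) (nat_lit 12)) .nil)) (.cons (.br (nat_lit 15) (nat_lit 0) (.cons (.zr (nat_lit 20890881896596924103354565970102272) (nat_lit 5316912142214963280600667132983902213) (nat_lit 16) (nat_lit 12)) .nil)) .nil))) .nil)))) (.cons (.br (nat_lit 14) (nat_lit 0) (.cons (.br (nat_lit 14) (nat_lit 0) (.cons (.ev (nat_lit 10384752175817313132527165724819971) (nat_lit 2)) (.cons (.rf (nat_lit 214) (nat_lit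 631013448035245410)) .nil))) (.cons (.br (nat_lit 14) (nat_lit 0) (.cons (.ev (nat_lit 10384752175817313132527165724819971) (nat_lit 2)) (.cons (.rf (nat_lit 1048) (nat_lit 677582165103132179601393696)) .nil))) (.cons (.br (nat_lit 14) (nat_lit 0) (.cons (.rf (nat_lit 214) (nat_lit 631013448035245410)) (.cons (.rf (nat_lit 1048) (nat_lit 677582165103132179601393696)) .nil))) .nil)))) (.cons (.br (nat_lit 14) (nat_lit 0) (.cons (.rf (nat_lit 1049) (nat_lit 19926519232773908561233952)) (.cons (.br (nat_lit 14) (nat_lit 0) (.cons (.ev (nat_lit 10384752173399424743924939475780097) (nat_lit 2)) (.cons (.rf (nat_lit 214) (nat_lit 629888647636887906)) .nil))) (.cons (.br (nat_lit 14) (nat_lit 0) (.cons (.rf (nat_lit 1049) (nat_lit 19926519232773908561233952)) (.cons (.rf (nat_lit 214) (nat_lit 629888647636887906)) .nil))) .nil)))) (.cons (.br (nat_lit 14) (nat_lit 0) (.cons (.rf (nat_lit 1050) (nat_lit 677582165103132179601393696)) (.cons (.br (nat_lit 14) (nat_lit 0) (.cons (.rf (nat_lit 1050) (nat_lit 677582165103132179601393696))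 (.cons (.ev (nat_lit 10384752175817313132527165724819971) (nat_lit 2)) .nil))) (.cons (.br (nat_lit 14) (nat_lit 0) (.cons (.ev (nat_lit 10384752173399424743924939475780097) (nat_lit 2)) (.cons (.ev (nat_lit 10384752175817313132527165724819971) (nat_lit 2)) .nil))) .nil)))) .nil))))) (.cons (.br (nat_lit 12) (nat_lit 0) (.cons (.kr (nat_lit 10384593717074377623825337280364547) (nat_lit 40564819207321787591972523868672) (nat_lit 0) (nat_lit 2)) (.cons (.rf (nat_lit 1051) (nat_lit 19926519232773908561233952)) (.cons (.rf (nat_lit 1052) (nat_lit 19926519232773908561233952)) (.cons (.br (nat_lit 12) (nat_lit 0) (.cons (.kr (nat_lit 10384593717074377623825337280364547) (nat_lit 40564819207321787591972523868672) (nat_lit 0) (nat_lit 2)) (.cons (.rf (nat_lit 1051) (nat_lit 19926519232773908561233952)) (.cons (.rf (nat_lit 1052) (nat_lit 19926519232773908561233952)) .nil)))) .nil))))) (.cons (.ev (nat_lit 20282719088661563826614308962304) (nat_lit 1)) (.cons (.ev (nat_lit 20282720297605758127718877102081) (nat_lit 1)) (.cons (.br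 (nat_lit 12) (nat_lit 0) (.cons (.rf (nat_lit 1053) (nat_lit 677582165103132179601393696)) (.cons (.rf (nat_lit 1054) (nat_lit 677582165103132179601393696)) (.cons (.rf (nat_lit 1055) (nat_lit 677582165103132179601393696)) (.cons (.br (nat_lit 12) (nat_lit 0) (.cons (.rf (nat_lit 1053) (nat_lit 677582165103132179601393696)) (.cons (.rf (nat_lit 1054) (nat_lit 677582165103132179601393696)) (.cons (.rf (nat_lit 1055) (nat_lit 677582165103132179601393696)) .nil)))) .nil))))) .nil)))))),
 (.br (nat_lit 14) (nat_lit 0) (.cons (.br (nat_lit 16) (nat_lit 0) (.cons (.br (nat_lit 16) (nat_lit 0) .nil) .nil)) (.cons (.br (nat_lit 15) (nat_lit 0) (.cons (.ev (nat_lit 2044363164122295212518056194698681517059) (nat_lit 3)) (.cons (.br (nat_lit 16) (nat_lit 0) (.cons (.zr (nat_lit 871128176229744681424981695805940763331072) (nat_lit 20931446718255135794334365154017283) (nat_lit 16) (nat_lit 17)) .nil)) .nil))) (.cons (.br (nat_lit 17) (nat_lit 0) (.cons (.ev (nat_lit 87112291124136333343984311454869082931200) (nat_lit 1)) (.cons (.ev (nat_lit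 87112291124136334552891612267826198413313) (nat_lit 1)) .nil))) .nil)))),
 (.br (nat_lit 14) (nat_lit 0) (.cons (.br (nat_lit 15) (nat_lit 0) (.cons (.ev (nat_lit 2044383852180090937221888620894926144519) (nat_lit 3)) (.cons (.br (nat_lit 16) (nat_lit 0) (.cons (.zr (nat_lit 871128176229744681424981695805940763331072) (nat_lit 41619504513979839626760561398644743) (nat_lit 16) (nat_lit 17)) .nil)) .nil))) (.cons (.rf (nat_lit 1057) (nat_lit 676409874513760392916767779)) (.cons (.br (nat_lit 17) (nat_lit 0) (.cons (.ev (nat_lit 87112291124136333348688230912185730138113) (nat_lit 1)) (.cons (.ev (nat_lit 87112291124136334552891612267826198413313) (nat_lit 1)) .nil))) .nil)))),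
 (.br (nat_lit 9) (nat_lit 0) (.cons (.br (nat_lit 9) (nat_lit 0) .nil) .nil)),
 (.br (nat_lit 12) (nat_lit 0) (.cons (.br (nat_lit 13) (nat_lit 0) (.cons (.kr (nat_lit 5192296858534827628530496329220097) (nat_lit 20282409603651670423947268063232) (nat_lit 0) (nat_lit 1)) (.cons (.rf (nat_lit 1057) (nat_lit 677582165103132179601393696)) (.cons (.rf (nat_lit 1058) (nat_lit 677582165103132179601393696)) (.cons (.br (nat_lit 14) (nat_lit 0) (.cons (.rf (nat_lit 1058) (nat_lit 676409874513760392916767779)) (.cons (.rf (nat_lit 1057) (nat_lit 676409874513760392916767779)) (.cons (.rf (nat_lit 1059) (nat_lit 592770268180753473)) .nil)))) .nil))))) (.cons (.br (nat_lit 13) (nat_lit 0) (.cons (.br (nat_lit 14) (nat_lit 0) (.cons (.rf (nat_lit 1059) (nat_lit 629956850979509313)) (.cons (.rf (nat_lit 814) (nat_lit 637763170919575331159509024)) (.cons (.br (nat_lit 15) (nat_lit 0) (.cons (.br (nat_lit 16) (nat_lit 0) (.cons (.zr (nat_lit 174229888775662708275399419985503119867905) (nat_lit 20769187441392884310899411187140096) (nat_lit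 16) (nat_lit 11)) .nil)) (.cons (.ev (nat_lit 174229889019054099380648952909764824796687) (nat_lit 4)) .nil))) .nil)))) (.cons (.br (nat_lit 14) (nat_lit 0) (.cons (.br (nat_lit 14) (nat_lit 0) (.cons (.zr (nat_lit 5273426496954175123453237279064067) (nat_lit 2658456071108688195784970105570525440) (nat_lit 8) (nat_lit 2)) .nil)) (.cons (.br (nat_lit 14) (nat_lit 0) (.cons (.zr (nat_lit 5273426496954175123453237279064067) (nat_lit 2658456071108688195784970105570525440) (nat_lit 8) (nat_lit 2)) .nil)) .nil))) (.cons (.br (nat_lit 14) (nat_lit 0) (.cons (.br (nat_lit 14) (nat_lit 0) (.cons (.ev (nat_lit 10384752175817313132527165724819971) (nat_lit 2)) (.cons (.ev (nat_lit 2663688933406609290591621226264855299) (nat_lit 2)) .nil))) (.cons (.br (nat_lit 14) (nat_lit 0) (.cons (.ev (nat_lit 10384752175817313132527165724819971) (nat_lit 2)) (.cons (.ev (nat_lit 680569926218893302446582150459042104065) (nat_lit 2)) .nil))) (.cons (.br (nat_lit 14) (nat_lit 0) (.cons (.ev (nat_lit 2663688933406609290591621226264855299) (nat_lit 2))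 (.cons (.ev (nat_lit 680569926218893302446582150459042104065) (nat_lit 2)) .nil))) .nil)))) (.cons (.br (nat_lit 14) (nat_lit 0) (.cons (.br (nat_lit 14) (nat_lit 0) (.cons (.ev (nat_lit 10384752175817313132527165724819971) (nat_lit 2)) (.cons (.ev (nat_lit 87112285952121884417512272805636668981248) (nat_lit 1)) .nil))) (.cons (.br (nat_lit 14) (nat_lit 0) (.cons (.ev (nat_lit 10384752175817313132527165724819971) (nat_lit 2)) (.cons (.ev (nat_lit 87112291144339825479057286160747851677953) (nat_lit 1)) .nil))) (.cons (.ev (nat_lit 87112285952121884412808353348319988219905) (nat_lit 1)) .nil)))) .nil))))) (.cons (.br (nat_lit 13) (nat_lit 0) (.cons (.br (nat_lit 14) (nat_lit 0) (.cons (.rf (nat_lit 814) (nat_lit 600286470511521826743617568)) (.cons (.rf (nat_lit 1059) (nat_lit 631047566517310529)) (.cons (.br (nat_lit 16) (nat_lit 0) (.cons (.rf (nat_lit 1032) (nat_lit 482981749140027247998014499)) (.cons (.ev (nat_lit 526757104075222091297281032103552749013511) (nat_lit 4)) .nil))) .nil)))) (.cons (.br (nat_lit 15) (nat_lit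 0) (.cons (.br (nat_lit 14) (nat_lit 0) (.cons (.ev (nat_lit 10384752173399424743924939475780097) (nat_lit 2)) (.cons (.ev (nat_lit 2663648368588610894695701476987175682) (nat_lit 2)) .nil))) (.cons (.rf (nat_lit 1059) (nat_lit 631013481656785985)) (.cons (.br (nat_lit 16) (nat_lit 0) (.cons (.br (nat_lit 14) (nat_lit 0) (.cons (.ev (nat_lit 2663648526422339144642209451547492609) (nat_lit 2)) .nil)) (.cons (.ev (nat_lit 174907795093919378234021191046798055047171) (nat_lit 2)) .nil))) .nil)))) (.cons (.br (nat_lit 14) (nat_lit 0) (.cons (.br (nat_lit 14) (nat_lit 0) (.cons (.zr (nat_lit 5273426496949471203995912025145348) (nat_lit 680564733921415783376726570848563036416) (nat_lit 8) (nat_lit 2)) .nil)) (.cons (.br (nat_lit 14) (nat_lit 0) (.cons (.zr (nat_lit 5273426496949471203995912025145348) (nat_lit 680564733921415783376726570848563036416) (nat_lit 8) (nat_lit 2)) .nil)) .nil))) (.cons (.br (nat_lit 17) (nat_lit 0) (.cons (.ev (nat_lit 87112285952121885621715654161277137256448) (nat_lit 1)) (.cons (.br (nat_lit 15) (nat_lit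 0) (.cons (.br (nat_lit 14) (nat_lit 0) (.cons (.ev (nat_lit 10384752173399424743924939475780097) (nat_lit 2)) .nil)) (.cons (.ev (nat_lit 174907795093919378234021191046798055047171) (nat_lit 2)) .nil))) (.cons (.rf (nat_lit 1059) (nat_lit 558958086507899969)) .nil)))) .nil))))) (.cons (.br (nat_lit 17) (nat_lit 0) (.cons (.kr (nat_lit 174224571863520493293266245749143328784385) (nat_lit 40564819212025707612239141273600) (nat_lit 0) (nat_lit 1)) (.cons (.br (nat_lit 14) (nat_lit 0) (.cons (.rf (nat_lit 1059) (nat_lit 596144669372683329)) (.cons (.ev (nat_lit 10384752173399424743924939475780097) (nat_lit 2)) (.cons (.ev (nat_lit 10384752175817313132527165724819971) (nat_lit 2)) .nil)))) (.cons (.ev (nat_lit 87112285931760556131633792905199719809281) (nat_lit 1)) (.cons (.ev (nat_lit 87112285931760557345281907226579478511873) (nat_lit 1)) .nil))))) .nil)))))]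

theorem c38 : chkAll C T R L38 (nat_lit 1047) = true := by decide +kernel

theorem l38 : (nat_lit 1047) + L38.length = (nat_lit 1061) := by decide +kernel

/-- part of the certificates -/
def L39 : List Prf := [(.br (nat_lit 13) (nat_lit 0) (.cons (.ev (nat_lit 40723277954961216314067602506241) (nat_lit 2)) (.cons (.rf (nat_lit 1059) (nat_lit 631011351353002209)) (.cons (.br (nat_lit 16) (nat_lit 0) (.cons (.br (nat_lit 14) (nat_lit 0) (.cons (.zr (nat_lit 174229909544691069537513544114107939029505) (nat_lit 477225885162961128119368810496) (nat_lit 16) (nat_lit 7)) .nil)) (.cons (.ev (nat_lit 872499939724062213649977151760039369768973) (nat_lit 4)) .nil))) .nil)))),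
 (.br (nat_lit 14) (nat_lit 0) (.cons (.ev (nat_lit 10384752175817313132527165724819971) (nat_lit 2)) (.cons (.rf (nat_lit 1059) (nat_lit 630977266492445921)) (.cons (.br (nat_lit 16) (nat_lit 0) (.cons (.br (nat_lit 13) (nat_lit 0) (.cons (.zr (nat_lit 174229888856633273812809711687911694402048) (nat_lit 477225885162961128119368810499) (nat_lit 16) (nat_lit 7)) .nil)) (.cons (.ev (nat_lit 872499991444206702961736732825530249773063) (nat_lit 4)) .nil))) .nil)))),
 (.br (nat_lit 12) (nat_lit 0) (.cons (.rf (nat_lit 1060) (nat_lit 677582165103132179601393696)) (.cons (.rf (nat_lit 1060) (nat_lit 676409874513760392916767779)) (.cons (.br (nat_lit 15) (nat_lit 0) (.cons (.rf (nat_lit 1061) (nat_lit 677582165103132179601393696)) (.cons (.rf (nat_lit 1062) (nat_lit 677582165103132179601393696)) (.cons (.kr (nat_lit 2658455991569831764254639669246951425) (nat_lit 680564733841876931649115697737493381120) (nat_lit 0) (nat_lit 1)) (.cons (.br (nat_lit 16) (nat_lit 0) (.cons (.rf (nat_lit 1062) (nat_lit 676409874513760392916767779))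 (.cons (.rf (nat_lit 1061) (nat_lit 676409874513760392916767779)) (.cons (.ev (nat_lit 349137683828858813371365729196029308305413) (nat_lit 3)) .nil)))) .nil))))) (.cons (.br (nat_lit 17) (nat_lit 0) (.cons (.br (nat_lit 13) (nat_lit 0) (.cons (.ev (nat_lit 40723275537072827711841286357507) (nat_lit 2)) (.cons (.rf (nat_lit 1059) (nat_lit 596108454208375009)) (.cons (.br (nat_lit 15) (nat_lit 0) (.cons (.rf (nat_lit 1012) (nat_lit 601457617399273498756614176)) (.cons (.ev (nat_lit 341611615199443681645956281006844543233) (nat_lit 1)) .nil))) .nil)))) (.cons (.br (nat_lit 14) (nat_lit 0) (.cons (.ev (nat_lit 10384752173399424743924939475780097) (nat_lit 2)) (.cons (.rf (nat_lit 1059) (nat_lit 596074369347818721)) (.cons (.br (nat_lit 15) (nat_lit 0) (.cons (.rf (nat_lit 980) (nat_lit 601457617399273498756614176)) (.cons (.ev (nat_lit 341616787213892612821914387555939254528) (nat_lit 1)) .nil))) .nil)))) (.cons (.ev (nat_lit 87112285931760556136374606413613773095168) (nat_lit 1)) (.cons (.ev (nat_lit 87112285931760557345281907226579478511873)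 (nat_lit 1)) .nil))))) .nil))))),
 (.br (nat_lit 9) (nat_lit 0) (.cons (.br (nat_lit 1) (nat_lit 0) (.cons (.kr (nat_lit 1) (nat_lit 256) (nat_lit 0) (nat_lit 2)) (.cons (.kr (nat_lit 256) (nat_lit 16777216) (nat_lit 1) (nat_lit 0)) (.cons (.rf (nat_lit 423) (nat_lit 407901468851537952)) (.cons (.rf (nat_lit 423) (nat_lit 404413924172108835)) (.cons (.kr (nat_lit 4722366764344638701569) (nat_lit 18446744078004519424) (nat_lit 0) (nat_lit 2)) (.cons (.br (nat_lit 2) (nat_lit 0) (.cons (.br (nat_lit 7) (nat_lit 0) (.cons (.br (nat_lit 11) (nat_lit 0) (.cons (.ev (nat_lit 1240362705958002790714311681) (nat_lit 3)) (.cons (.br (nat_lit 12) (nat_lit 0) (.cons (.rf (nat_lit 426) (nat_lit 493858305440582043680)) (.cons (.br (nat_lit 12) (nat_lit 0) (.cons (.rf (nat_lit 426) (nat_lit 493858305440582043680)) (.cons (.br (nat_lit 13) (nat_lit 0) (.cons (.rf (nat_lit 428) (nat_lit 583706118939841765935136)) (.cons (.rf (nat_lit 428) (nat_lit 547107778697602015528992)) (.cons (.br (nat_lit 13) (nat_lit 0) (.cons (.rf (nat_lit 428) (nat_lit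 583706118939841765935136)) (.cons (.rf (nat_lit 428) (nat_lit 547107778697602015528992)) (.cons (.br (nat_lit 14) (nat_lit 0) (.cons (.rf (nat_lit 430) (nat_lit 677582165103132179601393696)) (.cons (.rf (nat_lit 431) (nat_lit 677582165103132179601393696)) (.cons (.rf (nat_lit 431) (nat_lit 640105464695078675185502240)) .nil)))) .nil)))) .nil)))) .nil))) .nil))) .nil))) (.cons (.rf (nat_lit 440) (nat_lit 14242959524133701664)) (.cons (.rf (nat_lit 453) (nat_lit 14242959524133701664)) (.cons (.br (nat_lit 10) (nat_lit 0) (.cons (.rf (nat_lit 440) (nat_lit 14239471979454272547)) (.cons (.rf (nat_lit 453) (nat_lit 14239471979454272547)) (.cons (.br (nat_lit 11) (nat_lit 0) (.cons (.ev (nat_lit 620193112778770591193760258) (nat_lit 2)) (.cons (.ev (nat_lit 618974797493801895587741699) (nat_lit 2)) (.cons (.br (nat_lit 13) (nat_lit 0) (.cons (.br (nat_lit 12) (nat_lit 0) (.cons (.ev (nat_lit 40725132447205686310786696348675) (nat_lit 3)) (.cons (.br (nat_lit 14) (nat_lit 0) (.cons (.rf (nat_lit 454) (nat_lit 583706118939841765935136))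 (.cons (.br (nat_lit 14) (nat_lit 0) (.cons (.rf (nat_lit 454) (nat_lit 583706118939841765935136)) (.cons (.br (nat_lit 15) (nat_lit 0) (.cons (.rf (nat_lit 455) (nat_lit 677582165103132179601393696)) (.cons (.rf (nat_lit 455) (nat_lit 640105464695078675185502240)) .nil))) .nil))) .nil))) .nil))) (.cons (.ev (nat_lit 20282719088661564108084990705664) (nat_lit 1)) (.cons (.br (nat_lit 12) (nat_lit 0) (.cons (.rf (nat_lit 456) (nat_lit 583706118939841765935136)) (.cons (.rf (nat_lit 458) (nat_lit 583706118939841765935136)) (.cons (.br (nat_lit 12) (nat_lit 0) (.cons (.rf (nat_lit 456) (nat_lit 583706118939841765935136)) (.cons (.rf (nat_lit 458) (nat_lit 583706118939841765935136)) (.cons (.br (nat_lit 14) (nat_lit 0) (.cons (.rf (nat_lit 460) (nat_lit 677582165103132179601393696)) (.cons (.rf (nat_lit 461) (nat_lit 677582165103132179601393696)) (.cons (.rf (nat_lit 461) (nat_lit 640105464695078675185502240)) .nil)))) .nil)))) .nil)))) .nil)))) .nil)))) (.cons (.br (nat_lit 11) (nat_lit 0) (.cons (.br (nat_lit 12) (nat_lit 0)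 (.cons (.ev (nat_lit 79228162532783421840091578625) (nat_lit 1)) (.cons (.ev (nat_lit 79229376180897180269896859905) (nat_lit 1)) (.cons (.br (nat_lit 13) (nat_lit 0) (.cons (.rf (nat_lit 463) (nat_lit 583706118939841765935136)) (.cons (.rf (nat_lit 464) (nat_lit 583706118939841765935136)) (.cons (.br (nat_lit 13) (nat_lit 0) (.cons (.rf (nat_lit 463) (nat_lit 583706118939841765935136)) (.cons (.rf (nat_lit 464) (nat_lit 583706118939841765935136)) (.cons (.br (nat_lit 14) (nat_lit 0) (.cons (.rf (nat_lit 464) (nat_lit 582562417319727094305827)) (.cons (.rf (nat_lit 465) (nat_lit 677582165103132179601393696)) (.cons (.rf (nat_lit 465) (nat_lit 640105464695078675185502240)) .nil)))) .nil)))) .nil)))) .nil)))) (.cons (.ev (nat_lit 618974797493801895587741699) (nat_lit 2)) (.cons (.ev (nat_lit 621392612095427827065683969) (nat_lit 2)) (.cons (.br (nat_lit 12) (nat_lit 0) (.cons (.rf (nat_lit 473) (nat_lit 583706118939841765935136)) (.cons (.rf (nat_lit 473) (nat_lit 582562417319727094305827)) (.cons (.rf (nat_lit 479) (nat_lit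 583706118939841765935136)) (.cons (.br (nat_lit 12) (nat_lit 0) (.cons (.rf (nat_lit 473) (nat_lit 583706118939841765935136)) (.cons (.rf (nat_lit 473) (nat_lit 582562417319727094305827)) (.cons (.rf (nat_lit 479) (nat_lit 583706118939841765935136)) (.cons (.br (nat_lit 16) (nat_lit 0) (.cons (.rf (nat_lit 481) (nat_lit 677582165103132179601393696)) (.cons (.rf (nat_lit 481) (nat_lit 677581021401512064929764387)) (.cons (.br (nat_lit 16) (nat_lit 0) (.cons (.rf (nat_lit 481) (nat_lit 677582165103132179601393696)) (.cons (.rf (nat_lit 481) (nat_lit 677581021401512064929764387)) (.cons (.rf (nat_lit 475) (nat_lit 21173223984251494897649696)) .nil)))) (.cons (.rf (nat_lit 475) (nat_lit 21173223984251494897649696)) .nil))))) .nil))))) .nil))))) .nil))))) .nil))))) .nil))))) (.cons (.rf (nat_lit 535) (nat_lit 14242959524133701664)) (.cons (.rf (nat_lit 583) (nat_lit 14242959524133701664)) (.cons (.rf (nat_lit 627) (nat_lit 14242959524133701664)) (.cons (.rf (nat_lit 736) (nat_lit 14242959524133701664)) (.cons (.br (nat_lit 5) (nat_lit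 0) (.cons (.rf (nat_lit 583) (nat_lit 14239471979454272547)) (.cons (.rf (nat_lit 535) (nat_lit 14239471979454272547)) (.cons (.rf (nat_lit 627) (nat_lit 14239471979454272547)) (.cons (.rf (nat_lit 736) (nat_lit 14239471979454272547)) (.cons (.br (nat_lit 7) (nat_lit 0) (.cons (.br (nat_lit 11) (nat_lit 0) (.cons (.ev (nat_lit 1240362705958002790714311681) (nat_lit 3)) (.cons (.ev (nat_lit 81130883612941844076325335203845) (nat_lit 3)) (.cons (.br (nat_lit 12) (nat_lit 0) (.cons (.rf (nat_lit 739) (nat_lit 17022140995484340291616)) (.cons (.rf (nat_lit 741) (nat_lit 17022140995484340291616)) (.cons (.br (nat_lit 12) (nat_lit 0) (.cons (.rf (nat_lit 739) (nat_lit 17022140995484340291616)) (.cons (.rf (nat_lit 741) (nat_lit 17022140995484340291616)) (.cons (.br (nat_lit 13) (nat_lit 0) (.cons (.br (nat_lit 14) (nat_lit 0) (.cons (.rf (nat_lit 742) (nat_lit 19926519232773908561233952)) (.cons (.rf (nat_lit 742) (nat_lit 18755372345022236548237344)) (.cons (.br (nat_lit 15) (nat_lit 0) (.cons (.br (nat_lit 15) (nat_lit 0) (.cons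 (.ev (nat_lit 5337762617132125835531251444028276737) (nat_lit 3)) .nil)) (.cons (.br (nat_lit 15) (nat_lit 0) (.cons (.ev (nat_lit 5337762617132125835531251444028276737) (nat_lit 3)) .nil)) .nil))) .nil)))) (.cons (.rf (nat_lit 744) (nat_lit 19926519232773908561233952)) (.cons (.rf (nat_lit 744) (nat_lit 18755372345022236548237344)) (.cons (.br (nat_lit 14) (nat_lit 0) (.cons (.rf (nat_lit 745) (nat_lit 677582165103132179601393696)) (.cons (.rf (nat_lit 745) (nat_lit 676411018215380507588397088)) (.cons (.br (nat_lit 14) (nat_lit 0) (.cons (.rf (nat_lit 745) (nat_lit 677582165103132179601393696)) (.cons (.rf (nat_lit 745) (nat_lit 676411018215380507588397088)) .nil))) .nil)))) .nil))))) .nil)))) .nil)))) .nil)))) (.cons (.rf (nat_lit 756) (nat_lit 493858305440582043680)) (.cons (.rf (nat_lit 767) (nat_lit 493858305440582043680)) (.cons (.rf (nat_lit 777) (nat_lit 493858305440582043680)) (.cons (.br (nat_lit 10) (nat_lit 0) (.cons (.rf (nat_lit 756) (nat_lit 493854817895902614563)) (.cons (.rf (nat_lit 767) (nat_lit 493854817895902614563))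 (.cons (.rf (nat_lit 777) (nat_lit 493854817895902614563)) (.cons (.br (nat_lit 11) (nat_lit 0) (.cons (.ev (nat_lit 620193112778770591193760258) (nat_lit 2)) (.cons (.ev (nat_lit 40565439386304359557668714577921) (nat_lit 2)) (.cons (.ev (nat_lit 618974797493801895587741699) (nat_lit 2)) (.cons (.br (nat_lit 14) (nat_lit 0) (.cons (.br (nat_lit 12) (nat_lit 0) (.cons (.ev (nat_lit 40723275537072827711841319911427) (nat_lit 2)) (.cons (.br (nat_lit 13) (nat_lit 0) (.cons (.kr (nat_lit 1329248278195728450465903230744264960) (nat_lit 5192376396182351714214258109644800) (nat_lit 1) (nat_lit 0)) (.cons (.br (nat_lit 15) (nat_lit 0) (.cons (.ev (nat_lit 5327540127335246129706762767224145927) (nat_lit 4)) (.cons (.rf (nat_lit 167) (nat_lit 631045369441061191)) .nil))) .nil))) (.cons (.br (nat_lit 13) (nat_lit 0) (.cons (.rf (nat_lit 901) (nat_lit 622702608039694251983936)) (.cons (.br (nat_lit 16) (nat_lit 0) (.cons (.ev (nat_lit 340287579500516086952567246013104914433) (nat_lit 1)) (.cons (.rf (nat_lit 175) (nat_lit 629818347918236834))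 .nil))) (.cons (.br (nat_lit 15) (nat_lit 0) (.cons (.rf (nat_lit 778) (nat_lit 677582165103132179601393696)) (.cons (.br (nat_lit 15) (nat_lit 0) (.cons (.rf (nat_lit 778) (nat_lit 677582165103132179601393696)) .nil)) .nil))) .nil)))) .nil)))) (.cons (.br (nat_lit 12) (nat_lit 0) (.cons (.rf (nat_lit 779) (nat_lit 583706118939841765935136)) (.cons (.br (nat_lit 12) (nat_lit 0) (.cons (.rf (nat_lit 779) (nat_lit 583706118939841765935136)) (.cons (.br (nat_lit 15) (nat_lit 0) (.cons (.rf (nat_lit 780) (nat_lit 677582165103132179601393696)) (.cons (.rf (nat_lit 780) (nat_lit 640105464695078675185502240)) .nil))) .nil))) .nil))) (.cons (.ev (nat_lit 5192297168019837522214634068639744) (nat_lit 1)) (.cons (.br (nat_lit 12) (nat_lit 0) (.cons (.rf (nat_lit 781) (nat_lit 19926519232773908561233952)) (.cons (.rf (nat_lit 782) (nat_lit 19926519232773908561233952)) (.cons (.rf (nat_lit 783) (nat_lit 19926519232773908561233952)) (.cons (.br (nat_lit 12) (nat_lit 0) (.cons (.rf (nat_lit 781) (nat_lit 19926519232773908561233952)) (.cons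 (.rf (nat_lit 782) (nat_lit 19926519232773908561233952)) (.cons (.rf (nat_lit 783) (nat_lit 19926519232773908561233952)) .nil)))) .nil))))) .nil))))) .nil))))) (.cons (.br (nat_lit 11) (nat_lit 0) (.cons (.br (nat_lit 12) (nat_lit 0) (.cons (.br (nat_lit 14) (nat_lit 0) (.cons (.rf (nat_lit 784) (nat_lit 583706118939841765935136)) (.cons (.br (nat_lit 14) (nat_lit 0) (.cons (.rf (nat_lit 784) (nat_lit 583706118939841765935136)) (.cons (.br (nat_lit 15) (nat_lit 0) (.cons (.rf (nat_lit 785) (nat_lit 677582165103132179601393696)) (.cons (.rf (nat_lit 785) (nat_lit 640105464695078675185502240)) .nil))) .nil))) .nil))) (.cons (.ev (nat_lit 79228167236702879156755562753) (nat_lit 1)) (.cons (.ev (nat_lit 79229371440084234797223837953) (nat_lit 1)) (.cons (.br (nat_lit 13) (nat_lit 0) (.cons (.rf (nat_lit 786) (nat_lit 19926519232773908561233952)) (.cons (.rf (nat_lit 786) (nat_lit 19889920889044124131398691)) (.cons (.br (nat_lit 16) (nat_lit 0) (.cons (.ev (nat_lit 680564774407315109027583864653660291073) (nat_lit 2)) (.cons (.ev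 (nat_lit 680564774407317526842185490585071124483) (nat_lit 2)) (.cons (.br (nat_lit 14) (nat_lit 0) (.cons (.rf (nat_lit 787) (nat_lit 677582165103132179601393696)) (.cons (.br (nat_lit 14) (nat_lit 0) (.cons (.rf (nat_lit 787) (nat_lit 677582165103132179601393696)) .nil)) .nil))) .nil)))) (.cons (.br (nat_lit 14) (nat_lit 0) (.cons (.rf (nat_lit 789) (nat_lit 677582165103132179601393696)) (.cons (.rf (nat_lit 790) (nat_lit 677582165103132179601393696)) (.cons (.br (nat_lit 14) (nat_lit 0) (.cons (.rf (nat_lit 789) (nat_lit 677582165103132179601393696)) (.cons (.rf (nat_lit 790) (nat_lit 677582165103132179601393696)) .nil))) .nil)))) .nil))))) .nil))))) (.cons (.br (nat_lit 12) (nat_lit 0) (.cons (.rf (nat_lit 794) (nat_lit 583706118939841765935136)) (.cons (.rf (nat_lit 794) (nat_lit 547107775210057336099875)) (.cons (.br (nat_lit 12) (nat_lit 0) (.cons (.rf (nat_lit 794) (nat_lit 583706118939841765935136)) (.cons (.rf (nat_lit 794) (nat_lit 547107775210057336099875)) (.cons (.br (nat_lit 16) (nat_lit 0) (.cons (.rf (nat_lit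 795) (nat_lit 677582165103132179601393696)) (.cons (.rf (nat_lit 795) (nat_lit 677545566759402395171558435)) (.cons (.rf (nat_lit 792) (nat_lit 21137806235629972558546976)) .nil)))) .nil)))) .nil)))) (.cons (.ev (nat_lit 618974797493801895587741699) (nat_lit 2)) (.cons (.ev (nat_lit 621392612095427827065683969) (nat_lit 2)) (.cons (.br (nat_lit 12) (nat_lit 0) (.cons (.rf (nat_lit 799) (nat_lit 19926519232773908561233952)) (.cons (.rf (nat_lit 803) (nat_lit 19926519232773908561233952)) (.cons (.rf (nat_lit 803) (nat_lit 19889920889044124131398691)) (.cons (.rf (nat_lit 804) (nat_lit 19926519232773908561233952)) (.cons (.br (nat_lit 12) (nat_lit 0) (.cons (.rf (nat_lit 799) (nat_lit 19926519232773908561233952)) (.cons (.rf (nat_lit 803) (nat_lit 19926519232773908561233952)) (.cons (.rf (nat_lit 803) (nat_lit 19889920889044124131398691)) (.cons (.rf (nat_lit 804) (nat_lit 19926519232773908561233952)) .nil))))) .nil)))))) .nil)))))) .nil)))))) .nil)))))) (.cons (.br (nat_lit 7) (nat_lit 0) (.cons (.br (nat_lit 11) (nat_lit 0)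 (.cons (.ev (nat_lit 1240362705958002790714311681) (nat_lit 3)) (.cons (.rf (nat_lit 811) (nat_lit 17022140995484340291616)) (.cons (.rf (nat_lit 811) (nat_lit 15878439375369668662307)) (.cons (.br (nat_lit 12) (nat_lit 0) (.cons (.rf (nat_lit 820) (nat_lit 583706118939841765935136)) (.cons (.rf (nat_lit 820) (nat_lit 582562417319727094305827)) (.cons (.rf (nat_lit 824) (nat_lit 583706118939841765935136)) (.cons (.br (nat_lit 12) (nat_lit 0) (.cons (.rf (nat_lit 820) (nat_lit 583706118939841765935136)) (.cons (.rf (nat_lit 820) (nat_lit 582562417319727094305827)) (.cons (.rf (nat_lit 824) (nat_lit 583706118939841765935136)) (.cons (.br (nat_lit 13) (nat_lit 0) (.cons (.rf (nat_lit 828) (nat_lit 677582165103132179601393696)) (.cons (.rf (nat_lit 830) (nat_lit 677582165103132179601393696)) (.cons (.rf (nat_lit 832) (nat_lit 677582165103132179601393696)) (.cons (.rf (nat_lit 832) (nat_lit 640105464695078675185502240)) .nil))))) .nil))))) .nil))))) .nil))))) (.cons (.rf (nat_lit 874) (nat_lit 17022140995484340291616)) (.cons (.rf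 (nat_lit 931) (nat_lit 17022140995484340291616)) (.cons (.rf (nat_lit 982) (nat_lit 17022140995484340291616)) (.cons (.rf (nat_lit 1014) (nat_lit 17022140995484340291616)) (.cons (.br (nat_lit 10) (nat_lit 0) (.cons (.rf (nat_lit 874) (nat_lit 15878439375369668662307)) (.cons (.rf (nat_lit 931) (nat_lit 15878439375369668662307)) (.cons (.rf (nat_lit 1014) (nat_lit 15878439375369668662307)) (.cons (.rf (nat_lit 982) (nat_lit 15878439375369668662307)) (.cons (.br (nat_lit 11) (nat_lit 0) (.cons (.ev (nat_lit 620193112778770591193760258) (nat_lit 2)) (.cons (.rf (nat_lit 1018) (nat_lit 583706118939841765935136)) (.cons (.rf (nat_lit 1018) (nat_lit 582562417319727094305827)) (.cons (.ev (nat_lit 618974797493801895587741699) (nat_lit 2)) (.cons (.br (nat_lit 15) (nat_lit 0) (.cons (.br (nat_lit 12) (nat_lit 0) (.cons (.rf (nat_lit 1021) (nat_lit 19926519232773908561233952)) (.cons (.rf (nat_lit 1021) (nat_lit 19925375531153793889604643)) (.cons (.br (nat_lit 13) (nat_lit 0) (.cons (.rf (nat_lit 1022) (nat_lit 19926519232773908561233952))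 (.cons (.br (nat_lit 13) (nat_lit 0) (.cons (.ev (nat_lit 40723275537072827711841286357507) (nat_lit 2)) (.cons (.rf (nat_lit 214) (nat_lit 628727565503245639)) .nil))) (.cons (.br (nat_lit 13) (nat_lit 0) (.cons (.rf (nat_lit 1022) (nat_lit 19926519232773908561233952)) (.cons (.rf (nat_lit 214) (nat_lit 628727565503245639)) .nil))) .nil)))) (.cons (.br (nat_lit 13) (nat_lit 0) (.cons (.rf (nat_lit 1023) (nat_lit 677582165103132179601393696)) (.cons (.rf (nat_lit 1024) (nat_lit 677582165103132179601393696)) (.cons (.br (nat_lit 13) (nat_lit 0) (.cons (.ev (nat_lit 40723275537072827711841286357507) (nat_lit 2)) (.cons (.rf (nat_lit 1024) (nat_lit 677582165103132179601393696)) .nil))) .nil)))) .nil))))) (.cons (.rf (nat_lit 1028) (nat_lit 19926519232773908561233952)) (.cons (.rf (nat_lit 1028) (nat_lit 19925375531153793889604643)) (.cons (.ev (nat_lit 1329227996094400882797491198019764224) (nat_lit 1)) (.cons (.br (nat_lit 12) (nat_lit 0) (.cons (.rf (nat_lit 1029) (nat_lit 677582165103132179601393696)) (.cons (.rf (nat_lit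 1029) (nat_lit 677581021401512064929764387)) (.cons (.rf (nat_lit 1031) (nat_lit 677582165103132179601393696)) (.cons (.br (nat_lit 12) (nat_lit 0) (.cons (.rf (nat_lit 1029) (nat_lit 677582165103132179601393696)) (.cons (.rf (nat_lit 1029) (nat_lit 677581021401512064929764387)) (.cons (.rf (nat_lit 1031) (nat_lit 677582165103132179601393696)) .nil)))) .nil))))) .nil)))))) .nil)))))) (.cons (.br (nat_lit 11) (nat_lit 0) (.cons (.br (nat_lit 12) (nat_lit 0) (.cons (.rf (nat_lit 1037) (nat_lit 19926519232773908561233952)) (.cons (.rf (nat_lit 1037) (nat_lit 18754228643402121876608035)) (.cons (.rf (nat_lit 1042) (nat_lit 19926519232773908561233952)) (.cons (.rf (nat_lit 1042) (nat_lit 18754228643402121876608035)) (.cons (.br (nat_lit 13) (nat_lit 0) (.cons (.rf (nat_lit 1045) (nat_lit 677582165103132179601393696)) (.cons (.rf (nat_lit 1046) (nat_lit 677582165103132179601393696)) (.cons (.rf (nat_lit 1047) (nat_lit 677582165103132179601393696)) (.cons (.br (nat_lit 13) (nat_lit 0) (.cons (.rf (nat_lit 1045) (nat_lit 677582165103132179601393696))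 (.cons (.rf (nat_lit 1046) (nat_lit 677582165103132179601393696)) (.cons (.rf (nat_lit 1047) (nat_lit 677582165103132179601393696)) .nil)))) .nil))))) .nil)))))) (.cons (.rf (nat_lit 1056) (nat_lit 19926519232773908561233952)) (.cons (.rf (nat_lit 1056) (nat_lit 18754228643402121876608035)) (.cons (.ev (nat_lit 618974797493801895587741699) (nat_lit 2)) (.cons (.ev (nat_lit 621392612095427827065683969) (nat_lit 2)) (.cons (.br (nat_lit 12) (nat_lit 0) (.cons (.rf (nat_lit 1060) (nat_lit 677582165103132179601393696)) (.cons (.rf (nat_lit 1060) (nat_lit 676409874513760392916767779)) (.cons (.rf (nat_lit 1063) (nat_lit 677582165103132179601393696)) (.cons (.rf (nat_lit 1063) (nat_lit 676409874513760392916767779)) (.cons (.br (nat_lit 12) (nat_lit 0) (.cons (.rf (nat_lit 1060) (nat_lit 677582165103132179601393696)) (.cons (.rf (nat_lit 1060) (nat_lit 676409874513760392916767779)) (.cons (.rf (nat_lit 1063) (nat_lit 677582165103132179601393696)) (.cons (.rf (nat_lit 1063) (nat_lit 676409874513760392916767779)) .nil))))) .nil))))))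 .nil))))))) .nil))))))) .nil))))))) .nil))))))) .nil))))))) .nil))))))) .nil))]

theorem c39 : chkAll C T R L39 (nat_lit 1061) = true := by decide +kernel

theorem l39 : (nat_lit 1061) + L39.length = (nat_lit 1065) := by decide +kernel

/-- part of the certificates -/
def L40 : List Prf := [(.br (nat_lit 2) (nat_lit 1) (.cons (.kr (nat_lit 1) (nat_lit 16777216) (nat_lit 0) (nat_lit 1)) (.cons (.br (nat_lit 3) (nat_lit 0) (.cons (.br (nat_lit 4) (nat_lit 1) (.cons (.br (nat_lit 4) (nat_lit 0) (.cons (.br (nat_lit 6) (nat_lit 0) (.cons (.br (nat_lit 6) (nat_lit 0) (.cons (.br (nat_lit 7) (nat_lit 1) (.cons (.br (nat_lit 9) (nat_lit 1) (.cons (.br (nat_lit 8) (nat_lit 1) (.cons (.rf (nat_lit 0) (nat_lit 11584701642934304)) (.cons (.br (nat_lit 9) (nat_lit 0) (.cons (.br (nat_lit 10) (nat_lit 0) (.cons (.br (nat_lit 1) (nat_lit 0) (.cons (.kr (nat_lit 1) (nat_lit 256) (nat_lit 0) (nat_lit 2)) (.cons (.kr (nat_lit 256) (nat_lit 16777216) (nat_lit 1) (nat_lit 0)) (.cons (.kr (nat_lit 4722366764344638701569) (nat_lit 1208925819614633469673984)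 (nat_lit 0) (nat_lit 2)) (.cons (.kr (nat_lit 1208925819896104168194049) (nat_lit 4722366482873940181504) (nat_lit 0) (nat_lit 2)) (.cons (.br (nat_lit 2) (nat_lit 0) (.cons (.ev (nat_lit 620183667829634264568299523) (nat_lit 2)) (.cons (.rf (nat_lit 10) (nat_lit 407901468851537952)) (.cons (.rf (nat_lit 10) (nat_lit 406809688164894752)) (.cons (.br (nat_lit 5) (nat_lit 0) (.cons (.rf (nat_lit 10) (nat_lit 407901468750779427)) (.cons (.rf (nat_lit 10) (nat_lit 406809688064136227)) (.cons (.ev (nat_lit 620183667829634264534745089) (nat_lit 2)) (.cons (.br (nat_lit 7) (nat_lit 0) (.cons (.ev (nat_lit 1213685224545263590310403) (nat_lit 2)) (.cons (.rf (nat_lit 19) (nat_lit 493858305440582043680)) (.cons (.rf (nat_lit 19) (nat_lit 458117738797669028899)) (.cons (.br (nat_lit 8) (nat_lit 0) (.cons (.rf (nat_lit 19) (nat_lit 493857213659895400480)) (.cons (.rf (nat_lit 19) (nat_lit 458116647016982385699)) (.cons (.ev (nat_lit 1213685223982322193269249) (nat_lit 2)) (.cons (.br (nat_lit 12) (nat_lit 0) (.cons (.rf (nat_lit 26) (nat_lit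 583706118939841765935136)) (.cons (.rf (nat_lit 32) (nat_lit 583706118939841765935136)) (.cons (.rf (nat_lit 32) (nat_lit 547107777605821328885792)) (.cons (.br (nat_lit 12) (nat_lit 0) (.cons (.rf (nat_lit 26) (nat_lit 583706118939841765935136)) (.cons (.rf (nat_lit 32) (nat_lit 583706118939841765935136)) (.cons (.rf (nat_lit 32) (nat_lit 547107777605821328885792)) (.cons (.br (nat_lit 13) (nat_lit 0) (.cons (.rf (nat_lit 32) (nat_lit 583670378373198852920355)) (.cons (.rf (nat_lit 32) (nat_lit 547072037039178415871011)) (.cons (.rf (nat_lit 33) (nat_lit 677582165103132179601393696)) (.cons (.rf (nat_lit 33) (nat_lit 640105464695078675185502240)) .nil))))) .nil))))) .nil))))) .nil))))) .nil))))) .nil))))) .nil))))) (.cons (.br (nat_lit 11) (nat_lit 0) (.cons (.kr (nat_lit 1213648186097503114887169) (nat_lit 618970019642971612443049984) (nat_lit 0) (nat_lit 1)) (.cons (.kr (nat_lit 618970019642971612426272769) (nat_lit 1213648186097503131664384) (nat_lit 0) (nat_lit 1)) (.cons (.kr (nat_lit 4722366482869645213696) (nat_lit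 309485009821345068724781056) (nat_lit 9) (nat_lit 0)) (.cons (.kr (nat_lit 1208925819614629174706176) (nat_lit 309485009821345068724781056) (nat_lit 10) (nat_lit 0)) (.cons (.kr (nat_lit 618970019642971612443049985) (nat_lit 1213648186097503114887680) (nat_lit 0) (nat_lit 2)) (.cons (.br (nat_lit 2) (nat_lit 0) (.cons (.rf (nat_lit 100) (nat_lit 493858305440582043680)) (.cons (.rf (nat_lit 162) (nat_lit 493858305440582043680)) (.cons (.rf (nat_lit 162) (nat_lit 493857213659895400480)) (.cons (.rf (nat_lit 228) (nat_lit 493858305440582043680)) (.cons (.rf (nat_lit 281) (nat_lit 493858305440582043680)) (.cons (.br (nat_lit 5) (nat_lit 0) (.cons (.rf (nat_lit 162) (nat_lit 493858305440481285155)) (.cons (.rf (nat_lit 162) (nat_lit 493857213659794641955)) (.cons (.rf (nat_lit 228) (nat_lit 493858305440481285155)) (.cons (.rf (nat_lit 281) (nat_lit 493858305440481285155)) (.cons (.rf (nat_lit 311) (nat_lit 17022140995484340291616)) (.cons (.br (nat_lit 7) (nat_lit 0) (.cons (.rf (nat_lit 100) (nat_lit 457749249396505386345)) (.cons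 (.rf (nat_lit 281) (nat_lit 457749249396505386345)) (.cons (.rf (nat_lit 228) (nat_lit 457749249396505386345)) (.cons (.rf (nat_lit 332) (nat_lit 583706118939841765935136)) (.cons (.rf (nat_lit 332) (nat_lit 547107778697601914770467)) (.cons (.br (nat_lit 8) (nat_lit 0) (.cons (.rf (nat_lit 281) (nat_lit 457749249396471800170)) (.cons (.rf (nat_lit 228) (nat_lit 457749249396471800170)) (.cons (.rf (nat_lit 332) (nat_lit 583706117848061079291936)) (.cons (.rf (nat_lit 332) (nat_lit 547107777605821228127267)) (.cons (.rf (nat_lit 311) (nat_lit 19347215180875086241129)) (.cons (.br (nat_lit 12) (nat_lit 0) (.cons (.rf (nat_lit 339) (nat_lit 677582165103132179601393696)) (.cons (.rf (nat_lit 342) (nat_lit 677582165103132179601393696)) (.cons (.rf (nat_lit 342) (nat_lit 677545566762889939750229027)) (.cons (.rf (nat_lit 344) (nat_lit 677582165103132179601393696)) (.cons (.rf (nat_lit 344) (nat_lit 640105464693986894498859040)) .nil)))))) .nil))))))) .nil))))))) .nil))))))) .nil))))))) .nil))))))) .nil))))))) .nil)) .nil)) .nil)))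 .nil)) .nil)) .nil)) .nil)) (.cons (.br (nat_lit 5) (nat_lit 1) (.cons (.br (nat_lit 6) (nat_lit 0) (.cons (.kr (nat_lit 281474976710657) (nat_lit 4311744512) (nat_lit 0) (nat_lit 1)) (.cons (.br (nat_lit 7) (nat_lit 1) (.cons (.br (nat_lit 9) (nat_lit 1) (.cons (.br (nat_lit 8) (nat_lit 1) (.cons (.rf (nat_lit 345) (nat_lit 11584701642934304)) (.cons (.br (nat_lit 9) (nat_lit 0) (.cons (.br (nat_lit 10) (nat_lit 0) (.cons (.kr (nat_lit 4722366764344621924353) (nat_lit 1208925819614633486450688) (nat_lit 0) (nat_lit 1)) .nil)) .nil)) .nil))) .nil)) .nil)) .nil))) (.cons (.br (nat_lit 8) (nat_lit 1) (.cons (.br (nat_lit 6) (nat_lit 0) (.cons (.rf (nat_lit 346) (nat_lit 325702574508064)) (.cons (.br (nat_lit 6) (nat_lit 0) (.cons (.rf (nat_lit 346) (nat_lit 325702574508064)) (.cons (.br (nat_lit 7) (nat_lit 1) (.cons (.br (nat_lit 10) (nat_lit 1) (.cons (.br (nat_lit 9) (nat_lit 0) (.cons (.kr (nat_lit 18447025548686262273) (nat_lit 4722366482873956958208) (nat_lit 0) (nat_lit 1)) .nil)) .nil)) (.cons (.br (nat_lit 8) (nat_lit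 0) (.cons (.rf (nat_lit 1064) (nat_lit 407901468851537952)) (.cons (.rf (nat_lit 1064) (nat_lit 372998571739416608)) .nil))) .nil))) .nil))) .nil))) .nil)) .nil))) .nil))) .nil)) .nil)) .nil))),
 (.br (nat_lit 5) (nat_lit 0) (.cons (.kr (nat_lit 1099511627777) (nat_lit 4311744512) (nat_lit 0) (nat_lit 1)) (.cons (.br (nat_lit 7) (nat_lit 1) (.cons (.br (nat_lit 9) (nat_lit 1) (.cons (.br (nat_lit 8) (nat_lit 1) (.cons (.rf (nat_lit 0) (nat_lit 11401970217819331)) (.cons (.br (nat_lit 9) (nat_lit 0) (.cons (.br (nat_lit 10) (nat_lit 0) (.cons (.kr (nat_lit 4722366483969156841473) (nat_lit 1208925819614633486450688) (nat_lit 0) (nat_lit 1)) .nil)) .nil)) .nil))) .nil)) .nil)) .nil))),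
 (.br (nat_lit 14) (nat_lit 0) (.cons (.br (nat_lit 15) (nat_lit 0) (.cons (.ev (nat_lit 2668840585908294013159822564819730433) (nat_lit 2)) (.cons (.rf (nat_lit 1) (nat_lit 631047566350592065)) .nil))) .nil)),
 (.br (nat_lit 15) (nat_lit 0) (.cons (.ev (nat_lit 1344865813747172003004796209916347139) (nat_lit 2)) .nil)),
 (.br (nat_lit 12) (nat_lit 0) (.cons (.br (nat_lit 13) (nat_lit 0) (.cons (.ev (nat_lit 40723275537072827429275421508097) (nat_lit 2)) (.cons (.br (nat_lit 14) (nat_lit 0) (.cons (.rf (nat_lit 1067) (nat_lit 583706118939841765935136)) (.cons (.br (nat_lit 14) (nat_lit 0) (.cons (.rf (nat_lit 1067) (nat_lit 583706118939841765935136)) (.cons (.br (nat_lit 15) (nat_lit 0) (.cons (.rf (nat_lit 1068) (nat_lit 677582165103132179601393696)) (.cons (.rf (nat_lit 1068) (nat_lit 640105464695078675185502240)) .nil))) .nil))) .nil))) .nil))) .nil)),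
 (.br (nat_lit 15) (nat_lit 0) (.cons (.br (nat_lit 16) (nat_lit 0) (.cons (.ev (nat_lit 88137125929169845167433293256217235489538) (nat_lit 2)) .nil)) .nil)),
 (.br (nat_lit 13) (nat_lit 0) (.cons (.kr (nat_lit 20282410812577562096170463920384) (nat_lit 79537647524085964137245507584) (nat_lit 1) (nat_lit 0)) (.cons (.br (nat_lit 14) (nat_lit 0) (.cons (.kr (nat_lit 10384593717074396070289039836577793) (nat_lit 159075295048171928274491015168) (nat_lit 0) (nat_lit 1)) (.cons (.kr (nat_lit 10384593717074396070289039836577793) (nat_lit 40564821625155124192340927840768) (nat_lit 0) (nat_lit 2)) (.cons (.br (nat_lit 15) (nat_lit 0) (.cons (.rf (nat_lit 1070) (nat_lit 677582165103132179601393696)) (.cons (.br (nat_lit 15) (nat_lit 0) (.cons (.rf (nat_lit 1070) (nat_lit 677582165103132179601393696)) .nil)) .nil))) .nil)))) .nil))),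
 (.br (nat_lit 14) (nat_lit 0) (.cons (.kr (nat_lit 20282409603651670423947251286016) (nat_lit 5192296858534827628530496329220096) (nat_lit 13) (nat_lit 0)) (.cons (.ev (nat_lit 5212658497509919454964264648835328) (nat_lit 1)) .nil))),
 (.br (nat_lit 13) (nat_lit 0) (.cons (.rf (nat_lit 1072) (nat_lit 19926519232773908561233952)) (.cons (.rf (nat_lit 1072) (nat_lit 18755372345022236548237344)) .nil))),
 (.br (nat_lit 14) (nat_lit 0) (.cons (.rf (nat_lit 1073) (nat_lit 21174442659472845144426528)) (.cons (.br (nat_lit 16) (nat_lit 0) (.cons (.br (nat_lit 15) (nat_lit 0) (.cons (.ev (nat_lit 1334420371872826881429799297188102400) (nat_lit 1)) .nil)) (.cons (.kr (nat_lit 340282366920938463463374607431768211456) (nat_lit 87112285931760246646623899502532662132736) (nat_lit 16) (nat_lit 0)) .nil))) .nil))),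
 (.br (nat_lit 14) (nat_lit 0) (.cons (.br (nat_lit 15) (nat_lit 0) (.cons (.ev (nat_lit 2668840585289324030411185723766079491) (nat_lit 2)) (.cons (.rf (nat_lit 1) (nat_lit 631047566349666529)) .nil))) .nil)),
 (.br (nat_lit 15) (nat_lit 0) (.cons (.ev (nat_lit 1344865813749589817606419933747544321) (nat_lit 2)) .nil)),
 (.br (nat_lit 12) (nat_lit 0) (.cons (.br (nat_lit 13) (nat_lit 0) (.cons (.ev (nat_lit 40723275537072827429275387822083) (nat_lit 2)) (.cons (.br (nat_lit 14) (nat_lit 0) (.cons (.rf (nat_lit 1075) (nat_lit 583706118939841765935136)) (.cons (.br (nat_lit 14) (nat_lit 0) (.cons (.rf (nat_lit 1075) (nat_lit 583706118939841765935136)) (.cons (.br (nat_lit 15) (nat_lit 0) (.cons (.rf (nat_lit 1076) (nat_lit 677582165103132179601393696)) (.cons (.rf (nat_lit 1076) (nat_lit 640105464695078675185502240)) .nil))) .nil))) .nil))) .nil))) .nil)),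
 (.br (nat_lit 15) (nat_lit 0) (.cons (.br (nat_lit 16) (nat_lit 0) (.cons (.ev (nat_lit 88137125929169226206858384094760439841024) (nat_lit 2)) .nil)) .nil)),
 (.br (nat_lit 13) (nat_lit 0) (.cons (.kr (nat_lit 79229371440156009816756584704) (nat_lit 20282719088661492050490952843264) (nat_lit 1) (nat_lit 0)) (.cons (.br (nat_lit 14) (nat_lit 0) (.cons (.kr (nat_lit 10384593717074396070289039836577793) (nat_lit 158458742880312019633513169408) (nat_lit 0) (nat_lit 2)) (.cons (.kr (nat_lit 10384593717074396070289039836577793) (nat_lit 40565438177322984100981905686528) (nat_lit 0) (nat_lit 1)) (.cons (.br (nat_lit 15) (nat_lit 0) (.cons (.rf (nat_lit 1078) (nat_lit 677582165103132179601393696)) (.cons (.br (nat_lit 15) (nat_lit 0) (.cons (.rf (nat_lit 1078) (nat_lit 677582165103132179601393696)) .nil)) .nil))) .nil)))) .nil))),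
 (.br (nat_lit 14) (nat_lit 0) (.cons (.kr (nat_lit 20282409603651670423947251286016) (nat_lit 5192296858534827628530496329220096) (nat_lit 13) (nat_lit 0)) (.cons (.ev (nat_lit 5212658496305715930056386041348353) (nat_lit 1)) .nil))),
 (.br (nat_lit 13) (nat_lit 0) (.cons (.rf (nat_lit 1080) (nat_lit 19926519232773908561233952)) (.cons (.rf (nat_lit 1080) (nat_lit 18755372345022236548237344)) .nil))),
 (.br (nat_lit 13) (nat_lit 0) (.cons (.rf (nat_lit 1081) (nat_lit 19926519232773908561233952)) (.cons (.br (nat_lit 15) (nat_lit 0) (.cons (.br (nat_lit 14) (nat_lit 0) (.cons (.ev (nat_lit 341611594995951546572909516434509398273) (nat_lit 1)) .nil)) (.cons (.kr (nat_lit 1329227995784915872903807060280344576) (nat_lit 340282366920938463463374607431768211456) (nat_lit 15) (nat_lit 0)) .nil))) .nil))),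
 (.br (nat_lit 14) (nat_lit 0) (.cons (.br (nat_lit 15) (nat_lit 0) (.cons (.ev (nat_lit 5337681171811747693196655565981746689) (nat_lit 3)) (.cons (.rf (nat_lit 1) (nat_lit 631047566350687297)) .nil))) .nil)),
 (.br (nat_lit 15) (nat_lit 0) (.cons (.ev (nat_lit 2689731627499156115614146983050085377) (nat_lit 3)) .nil)),
 (.br (nat_lit 12) (nat_lit 0) (.cons (.br (nat_lit 13) (nat_lit 0) (.cons (.ev (nat_lit 81446555905218512325268279001601) (nat_lit 3)) (.cons (.br (nat_lit 14) (nat_lit 0) (.cons (.rf (nat_lit 1083) (nat_lit 583706118939841765935136)) (.cons (.br (nat_lit 14) (nat_lit 0) (.cons (.rf (nat_lit 1083) (nat_lit 583706118939841765935136)) (.cons (.br (nat_lit 15) (nat_lit 0) (.cons (.rf (nat_lit 1084) (nat_lit 677582165103132179601393696)) (.cons (.rf (nat_lit 1084) (nat_lit 640105464695078675185502240)) .nil))) .nil))) .nil))) .nil))) .nil)),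
 (.br (nat_lit 15) (nat_lit 0) (.cons (.kr (nat_lit 10384593717074396070289039836577793) (nat_lit 159075295048171928274491015168) (nat_lit 0) (nat_lit 1)) (.cons (.br (nat_lit 16) (nat_lit 0) (.cons (.kr (nat_lit 10384593717074396070289039836577793) (nat_lit 40564821625155124192340927840768) (nat_lit 0) (nat_lit 2)) (.cons (.ev (nat_lit 1366446379668131462236180963307737712129) (nat_lit 3)) .nil))) .nil))),
 (.br (nat_lit 13) (nat_lit 0) (.cons (.kr (nat_lit 20282410812577562096170463920384) (nat_lit 79537647524085964137245507584) (nat_lit 1) (nat_lit 0)) (.cons (.br (nat_lit 15) (nat_lit 0) (.cons (.kr (nat_lit 10384593717074396070289039836577793) (nat_lit 159075295048171928274491015168) (nat_lit 0) (nat_lit 1)) (.cons (.rf (nat_lit 1086) (nat_lit 19926519232773908561233952)) (.cons (.br (nat_lit 15) (nat_lit 0) (.cons (.kr (nat_lit 10384593717074396070289039836577793) (nat_lit 159075295048171928274491015168) (nat_lit 0) (nat_lit 1)) (.cons (.rf (nat_lit 1086) (nat_lit 19926519232773908561233952)) .nil))) .nil)))) .nil))),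
 (.br (nat_lit 15) (nat_lit 0) (.cons (.ev (nat_lit 1361150236872425938055079857051933214209) (nat_lit 3)) (.cons (.ev (nat_lit 5337762301454997929081607598809155073) (nat_lit 3)) .nil))),
 (.br (nat_lit 14) (nat_lit 0) (.cons (.rf (nat_lit 1088) (nat_lit 677582165103132179601393696)) (.cons (.rf (nat_lit 1088) (nat_lit 640105464695078675185502240)) .nil))),
 (.br (nat_lit 14) (nat_lit 0) (.cons (.rf (nat_lit 1089) (nat_lit 677582165103132179601393696)) (.cons (.br (nat_lit 16) (nat_lit 0) (.cons (.br (nat_lit 15) (nat_lit 0) (.cons (.ev (nat_lit 5337681487486457637182779668440678913) (nat_lit 3)) .nil)) (.cons (.ev (nat_lit 1361150236872425938055079857051933214209) (nat_lit 3)) .nil))) .nil))),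
 (.br (nat_lit 14) (nat_lit 0) (.cons (.br (nat_lit 15) (nat_lit 0) (.cons (.ev (nat_lit 7985752570285897581386829950020354567) (nat_lit 3)) (.cons (.rf (nat_lit 1) (nat_lit 631047566349671489)) .nil))) .nil))]

theorem c40 : chkAll C T R L40 (nat_lit 1065) = true := by decide +kernel

theorem l40 : (nat_lit 1065) + L40.length = (nat_lit 1092) := by decide +kernel

/-- part of the certificates -/
def L41 : List Prf := [(.br (nat_lit 15) (nat_lit 0) (.cons (.ev (nat_lit 1344865813130619834857783092727317249) (nat_lit 2)) .nil)),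
 (.br (nat_lit 12) (nat_lit 0) (.cons (.br (nat_lit 13) (nat_lit 0) (.cons (.kr (nat_lit 158456325046975420360309080065) (nat_lit 40564819212025707330768459530240) (nat_lit 0) (nat_lit 1)) (.cons (.br (nat_lit 14) (nat_lit 0) (.cons (.rf (nat_lit 1091) (nat_lit 583706118939841765935136)) (.cons (.br (nat_lit 14) (nat_lit 0) (.cons (.rf (nat_lit 1091) (nat_lit 583706118939841765935136)) (.cons (.br (nat_lit 15) (nat_lit 0) (.cons (.rf (nat_lit 1092) (nat_lit 677582165103132179601393696)) (.cons (.rf (nat_lit 1092) (nat_lit 640105464695078675185502240)) .nil))) .nil))) .nil))) .nil))) .nil)),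
 (.br (nat_lit 15) (nat_lit 0) (.cons (.ev (nat_lit 10384752175817313132246790259606017) (nat_lit 2)) (.cons (.br (nat_lit 16) (nat_lit 0) (.cons (.ev (nat_lit 10425159155251756091432614896992257) (nat_lit 2)) (.cons (.ev (nat_lit 2044352657519059945214762185306849804807) (nat_lit 3)) .nil))) .nil))),
 (.br (nat_lit 13) (nat_lit 0) (.cons (.ev (nat_lit 20520407203018710018058132456192) (nat_lit 2)) (.cons (.br (nat_lit 15) (nat_lit 0) (.cons (.ev (nat_lit 10384752175817313132246790259606017) (nat_lit 2)) (.cons (.rf (nat_lit 1094) (nat_lit 19926519232773908561233952)) (.cons (.br (nat_lit 15) (nat_lit 0) (.cons (.ev (nat_lit 10384752175817313132246790259606017) (nat_lit 2)) (.cons (.rf (nat_lit 1094) (nat_lit 19926519232773908561233952)) .nil))) .nil)))) .nil))),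
 (.br (nat_lit 15) (nat_lit 0) (.cons (.kr (nat_lit 5192296858534827628530496329220096) (nat_lit 1329227995784915872903807060280344576) (nat_lit 14) (nat_lit 0)) (.cons (.ev (nat_lit 1334440575054268018835885650895438080) (nat_lit 1)) .nil))),
 (.br (nat_lit 14) (nat_lit 0) (.cons (.rf (nat_lit 1096) (nat_lit 677582165103132179601393696)) (.cons (.rf (nat_lit 1096) (nat_lit 640105464695078675185502240)) .nil))),
 (.br (nat_lit 14) (nat_lit 0) (.cons (.rf (nat_lit 1097) (nat_lit 677582165103132179601393696)) (.cons (.br (nat_lit 16) (nat_lit 0) (.cons (.br (nat_lit 15) (nat_lit 0) (.cons (.ev (nat_lit 87452568318963595927405577658058716217600) (nat_lit 1)) .nil)) (.cons (.kr (nat_lit 340282366920938463463374607431768211456) (nat_lit 87112285931760246646623899502532662132736) (nat_lit 16) (nat_lit 0)) .nil))) .nil))),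
 (.br (nat_lit 12) (nat_lit 0) (.cons (.br (nat_lit 13) (nat_lit 0) (.cons (.ev (nat_lit 20361638975091826434867831242753) (nat_lit 1)) (.cons (.rf (nat_lit 58) (nat_lit 556665500542767144)) .nil))) .nil)),
 (.br (nat_lit 15) (nat_lit 0) (.cons (.ev (nat_lit 1344865971584512789451660085220803328) (nat_lit 2)) .nil)),
 (.br (nat_lit 15) (nat_lit 0) (.cons (.ev (nat_lit 7975408540147677301509532064904644099) (nat_lit 3)) (.cons (.rf (nat_lit 58) (nat_lit 631046434659047467)) .nil))),
 (.br (nat_lit 13) (nat_lit 0) (.cons (.br (nat_lit 14) (nat_lit 0) (.cons (.ev (nat_lit 10465882433202013677080467197658117) (nat_lit 3)) (.cons (.br (nat_lit 15) (nat_lit 0) (.cons (.ev (nat_lit 1334420372181098224690077817211256833) (nat_lit 1)) (.cons (.rf (nat_lit 11) (nat_lit 631047566350592065)) .nil))) .nil))) (.cons (.br (nat_lit 14) (nat_lit 0) (.cons (.br (nat_lit 15) (nat_lit 0) (.cons (.ev (nat_lit 5327377866810805470789591186519884801) (nat_lit 3)) (.cons (.rf (nat_lit 11) (nat_lit 631046501197655105)) .nil))) (.cons (.br (nat_lit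 16) (nat_lit 0) (.cons (.ev (nat_lit 340287559297025165527706297460318011393) (nat_lit 1)) (.cons (.rf (nat_lit 70) (nat_lit 629954687389472810)) .nil))) (.cons (.br (nat_lit 15) (nat_lit 0) (.cons (.br (nat_lit 15) (nat_lit 0) (.cons (.ev (nat_lit 2668881308562438473892104388640637441) (nat_lit 2)) .nil)) (.cons (.br (nat_lit 15) (nat_lit 0) (.cons (.ev (nat_lit 2668881308562438473892104388640637441) (nat_lit 2)) .nil)) .nil))) .nil)))) .nil))),
 (.br (nat_lit 15) (nat_lit 0) (.cons (.ev (nat_lit 1334420371872826863054830247323173120) (nat_lit 1)) .nil)),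
 (.br (nat_lit 13) (nat_lit 0) (.cons (.rf (nat_lit 1102) (nat_lit 583706118939841765935136)) (.cons (.br (nat_lit 15) (nat_lit 0) (.cons (.br (nat_lit 14) (nat_lit 0) (.cons (.ev (nat_lit 2668881308562438473892104388640637441) (nat_lit 2)) (.cons (.rf (nat_lit 15) (nat_lit 631047566350592065)) .nil))) (.cons (.ev (nat_lit 2658577686027458433826236871827654149) (nat_lit 3)) (.cons (.br (nat_lit 14) (nat_lit 0) (.cons (.rf (nat_lit 1103) (nat_lit 21174442659472880612542496)) (.cons (.br (nat_lit 14) (nat_lit 0) (.cons (.rf (nat_lit 1103) (nat_lit 21174442659472880612542496)) .nil)) .nil))) .nil)))) .nil))),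
 (.br (nat_lit 16) (nat_lit 0) (.cons (.ev (nat_lit 683223189833449181301903339594644062211) (nat_lit 2)) (.cons (.ev (nat_lit 2041694242091068962844334334293831845379) (nat_lit 3)) .nil))),
 (.br (nat_lit 14) (nat_lit 0) (.cons (.rf (nat_lit 1105) (nat_lit 677582165103132179601393696)) (.cons (.rf (nat_lit 1105) (nat_lit 640105464695078675185502240)) .nil))),
 (.br (nat_lit 14) (nat_lit 0) (.cons (.rf (nat_lit 1106) (nat_lit 677582165103132179601393696)) (.cons (.br (nat_lit 16) (nat_lit 0) (.cons (.br (nat_lit 15) (nat_lit 0) (.cons (.ev (nat_lit 1334420372181098224690077817211256833) (nat_lit 1)) .nil)) (.cons (.ev (nat_lit 2041694242091068962844334334293831845379) (nat_lit 3)) .nil))) .nil))),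
 (.br (nat_lit 14) (nat_lit 0) (.cons (.br (nat_lit 15) (nat_lit 0) (.cons (.ev (nat_lit 5337681171192777562875192035158263299) (nat_lit 3)) (.cons (.rf (nat_lit 1) (nat_lit 631047566341283137)) .nil))) .nil)),
 (.br (nat_lit 15) (nat_lit 0) (.cons (.ev (nat_lit 2689731626880185985290431652413441027) (nat_lit 3)) .nil)),
 (.br (nat_lit 12) (nat_lit 0) (.cons (.br (nat_lit 13) (nat_lit 0) (.cons (.ev (nat_lit 81448412815166759370487440081411) (nat_lit 3)) (.cons (.br (nat_lit 14) (nat_lit 0) (.cons (.rf (nat_lit 1108) (nat_lit 583706118939841765935136)) (.cons (.br (nat_lit 14) (nat_lit 0) (.cons (.rf (nat_lit 1108) (nat_lit 583706118939841765935136)) (.cons (.br (nat_lit 15) (nat_lit 0) (.cons (.rf (nat_lit 1109) (nat_lit 677582165103132179601393696)) (.cons (.rf (nat_lit 1109) (nat_lit 640105464695078675185502240)) .nil))) .nil))) .nil))) .nil))) .nil)),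
 (.br (nat_lit 15) (nat_lit 0) (.cons (.br (nat_lit 16) (nat_lit 0) (.cons (.ev (nat_lit 88820369969638517487971028430222522385154) (nat_lit 3)) .nil)) .nil)),
 (.br (nat_lit 13) (nat_lit 0) (.cons (.kr (nat_lit 20282410812577562096170463920384) (nat_lit 79537647524085964137245507584) (nat_lit 1) (nat_lit 0)) (.cons (.br (nat_lit 14) (nat_lit 0) (.cons (.kr (nat_lit 10384593717074396070289039836577793) (nat_lit 159075295048171928274491015168) (nat_lit 0) (nat_lit 1)) (.cons (.kr (nat_lit 10384593717074396070289039836577793) (nat_lit 40564821625155124192340927840768) (nat_lit 0) (nat_lit 2)) (.cons (.br (nat_lit 15) (nat_lit 0) (.cons (.rf (nat_lit 1111) (nat_lit 677582165103132179601393696)) (.cons (.br (nat_lit 15) (nat_lit 0) (.cons (.rf (nat_lit 1111) (nat_lit 677582165103132179601393696)) .nil)) .nil))) .nil)))) .nil))),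
 (.br (nat_lit 15) (nat_lit 0) (.cons (.ev (nat_lit 1361150236871806967924758393521109730819) (nat_lit 3)) (.cons (.ev (nat_lit 5337762302073967911831370339769910791) (nat_lit 3)) .nil))),
 (.br (nat_lit 14) (nat_lit 0) (.cons (.rf (nat_lit 1113) (nat_lit 677582165103132179601393696)) (.cons (.rf (nat_lit 1113) (nat_lit 640105464695078675185502240)) .nil))),
 (.br (nat_lit 14) (nat_lit 0) (.cons (.rf (nat_lit 1114) (nat_lit 677582165103132179601393696)) (.cons (.br (nat_lit 16) (nat_lit 0) (.cons (.br (nat_lit 15) (nat_lit 0) (.cons (.ev (nat_lit 5337681488105427619932542409400910343) (nat_lit 3)) .nil)) (.cons (.ev (nat_lit 1361150236871806967924758393521109730819) (nat_lit 3)) .nil))) .nil))),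
 (.br (nat_lit 14) (nat_lit 0) (.cons (.br (nat_lit 15) (nat_lit 0) (.cons (.ev (nat_lit 2668840585598804317866329393476993537) (nat_lit 2)) (.cons (.rf (nat_lit 43) (nat_lit 631047566509021223)) .nil))) .nil)),
 (.br (nat_lit 15) (nat_lit 0) (.cons (.ev (nat_lit 1344865813437672826083721061557469441) (nat_lit 2)) .nil)),
 (.br (nat_lit 14) (nat_lit 0) (.cons (.kr (nat_lit 10384593717074396070289039836577793) (nat_lit 159075295048171928274491015168) (nat_lit 0) (nat_lit 1)) (.cons (.br (nat_lit 13) (nat_lit 0) (.cons (.br (nat_lit 15) (nat_lit 0) (.cons (.ev (nat_lit 1334440575053059074641583442520768768) (nat_lit 1)) (.cons (.rf (nat_lit 11) (nat_lit 596110584378099937)) .nil))) (.cons (.br (nat_lit 15) (nat_lit 0) (.cons (.ev (nat_lit 680575118436215389194101423307795464193) (nat_lit 2)) (.cons (.br (nat_lit 15) (nat_lit 0) (.cons (.ev (nat_lit 680575118436215389194101423307795464193) (nat_lit 2)) .nil)) .nil))) (.cons (.br (nat_lit 15) (nat_lit 0) (.cons (.br (nat_lit 15) (nat_lit 0) (.cons (.ev (nat_lit 1334440575362539362096164170935304448)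 (nat_lit 1)) .nil)) (.cons (.br (nat_lit 15) (nat_lit 0) (.cons (.ev (nat_lit 1334440575362539362096164170935304448) (nat_lit 1)) .nil)) .nil))) .nil)))) .nil))),
 (.br (nat_lit 14) (nat_lit 0) (.cons (.ev (nat_lit 1334440575362544102909392209489953025) (nat_lit 1)) (.cons (.br (nat_lit 15) (nat_lit 0) (.cons (.ev (nat_lit 4096680886150121829530257215403675615757) (nat_lit 4)) (.cons (.ev (nat_lit 1344825248620897522890690668798280448) (nat_lit 2)) .nil))) .nil))),
 (.br (nat_lit 13) (nat_lit 0) (.cons (.rf (nat_lit 1118) (nat_lit 583706118939841765935136)) (.cons (.br (nat_lit 14) (nat_lit 0) (.cons (.rf (nat_lit 502) (nat_lit 19886454022630298683016256)) (.cons (.rf (nat_lit 1119) (nat_lit 19926519232773908561233952)) (.cons (.br (nat_lit 14) (nat_lit 0) (.cons (.rf (nat_lit 11) (nat_lit 631011351177014497)) (.cons (.rf (nat_lit 1119) (nat_lit 19926519232773908561233952)) .nil))) .nil)))) .nil))),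
 (.br (nat_lit 15) (nat_lit 0) (.cons (.ev (nat_lit 680575118435596419211352786466741813251) (nat_lit 2)) (.cons (.ev (nat_lit 1334440575053054370721845750408478977) (nat_lit 1)) .nil))),
 (.br (nat_lit 14) (nat_lit 0) (.cons (.rf (nat_lit 1121) (nat_lit 677582165103132179601393696)) (.cons (.rf (nat_lit 1121) (nat_lit 640105464695078675185502240)) .nil))),
 (.br (nat_lit 14) (nat_lit 0) (.cons (.rf (nat_lit 1122) (nat_lit 677582165103132179601393696)) (.cons (.br (nat_lit 16) (nat_lit 0) (.cons (.br (nat_lit 15) (nat_lit 0) (.cons (.ev (nat_lit 2679266062599996882204069803667621379) (nat_lit 3)) .nil)) (.cons (.ev (nat_lit 680575118435596419211352786466741813251) (nat_lit 2)) .nil))) .nil))),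
 (.br (nat_lit 14) (nat_lit 0) (.cons (.br (nat_lit 15) (nat_lit 0) (.cons (.ev (nat_lit 2689609773958985602646102438079497729) (nat_lit 3)) (.cons (.rf (nat_lit 58) (nat_lit 631047533231314978)) .nil))) .nil)),
 (.br (nat_lit 15) (nat_lit 0) (.cons (.ev (nat_lit 1344865972203492253826753003383751424) (nat_lit 2)) .nil)),
 (.br (nat_lit 14) (nat_lit 0) (.cons (.ev (nat_lit 5192376396182351786553331435962368) (nat_lit 1)) (.cons (.rf (nat_lit 58) (nat_lit 593855418507400201)) .nil))),
 (.br (nat_lit 15) (nat_lit 0) (.cons (.ev (nat_lit 1329228075322563397061829895387086848) (nat_lit 1)) (.cons (.rf (nat_lit 70) (nat_lit 592763671082636289)) .nil))),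
 (.br (nat_lit 13) (nat_lit 0) (.cons (.br (nat_lit 14) (nat_lit 0) (.cons (.ev (nat_lit 20891357267994675785824435236634627) (nat_lit 3)) (.cons (.br (nat_lit 15) (nat_lit 0) (.cons (.ev (nat_lit 5337803341645598132898335154558337031) (nat_lit 3)) (.cons (.rf (nat_lit 11) (nat_lit 631047566349666529)) .nil))) .nil))) (.cons (.br (nat_lit 14) (nat_lit 0) (.cons (.br (nat_lit 15) (nat_lit 0) (.cons (.ev (nat_lit 1329248357732167048731971268133322753) (nat_lit 1)) (.cons (.rf (nat_lit 11) (nat_lit 631046501189396705)) .nil))) (.cons (.rf (nat_lit 1127) (nat_lit 622703726024184642538561)) (.cons (.br (nat_lit 15) (nat_lit 0) (.cons (.br (nat_lit 15) (nat_lit 0) (.cons (.ev (nat_lit 2668881309181408530427721922579005955) (nat_lit 2)) .nil)) (.cons (.br (nat_lit 15) (nat_lit 0) (.cons (.ev (nat_lit 2668881309181408530427721922579005955) (nat_lit 2)) .nil)) .nil))) .nil)))) .nil)))]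

theorem c41 : chkAll C T R L41 (nat_lit 1092) = true := by decide +kernel

theorem l41 : (nat_lit 1092) + L41.length = (nat_lit 1129) := by decide +kernel

/-- part of the certificates -/
def L42 : List Prf := [(.br (nat_lit 14) (nat_lit 0) (.cons (.ev (nat_lit 2668881309181408530427721922579005955) (nat_lit 2)) (.cons (.br (nat_lit 16) (nat_lit 0) (.cons (.ev (nat_lit 683223189834068151284651976435697713153) (nat_lit 2)) (.cons (.ev (nat_lit 680595887624266080783587703181055231489) (nat_lit 3)) .nil))) .nil))),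
 (.br (nat_lit 13) (nat_lit 0) (.cons (.rf (nat_lit 1128) (nat_lit 583706118939841765935136)) (.cons (.br (nat_lit 14) (nat_lit 0) (.cons (.br (nat_lit 14) (nat_lit 0) (.cons (.ev (nat_lit 2668881309181408530427721922579005955) (nat_lit 2)) (.cons (.rf (nat_lit 15) (nat_lit 631047566349666529)) .nil))) (.cons (.rf (nat_lit 1129) (nat_lit 19926519232773908561233952)) (.cons (.br (nat_lit 14) (nat_lit 0) (.cons (.rf (nat_lit 15) (nat_lit 631047566349666529)) (.cons (.rf (nat_lit 1129) (nat_lit 19926519232773908561233952)) .nil))) .nil)))) .nil))),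
 (.br (nat_lit 15) (nat_lit 0) (.cons (.ev (nat_lit 340282367000476110987532630266874953728) (nat_lit 1)) .nil)),
 (.br (nat_lit 15) (nat_lit 0) (.cons (.ev (nat_lit 7985752570283479766496971434844227079) (nat_lit 3)) (.cons (.rf (nat_lit 1131) (nat_lit 21174442659472880612543553)) .nil))),
 (.br (nat_lit 14) (nat_lit 0) (.cons (.rf (nat_lit 1132) (nat_lit 677582165103132179601393696)) (.cons (.rf (nat_lit 1132) (nat_lit 640105464695078675185502240)) .nil))),
 (.br (nat_lit 14) (nat_lit 0) (.cons (.rf (nat_lit 1133) (nat_lit 677582165103132179601393696)) (.cons (.br (nat_lit 16) (nat_lit 0) (.cons (.br (nat_lit 15) (nat_lit 0) (.cons (.ev (nat_lit 1329248357732167048731971268133322753) (nat_lit 1)) .nil)) (.cons (.ev (nat_lit 680595887624266080783587703181055231489) (nat_lit 3)) .nil))) .nil))),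
 (.br (nat_lit 16) (nat_lit 0) (.cons (.ev (nat_lit 680575159159179023423915304878503690241) (nat_lit 2)) .nil)),
 (.br (nat_lit 12) (nat_lit 0) (.cons (.kr (nat_lit 158765810056797046904010637313) (nat_lit 40564821625155124192340927840768) (nat_lit 0) (nat_lit 3)) (.cons (.br (nat_lit 14) (nat_lit 0) (.cons (.kr (nat_lit 40564821625155124192340927840768) (nat_lit 10384594026559387445170410316955648) (nat_lit 1) (nat_lit 0)) (.cons (.kr (nat_lit 158456325046975420360309080065) (nat_lit 10384593717074377623543866615398400) (nat_lit 0) (nat_lit 1)) (.cons (.br (nat_lit 15) (nat_lit 0) (.cons (.rf (nat_lit 1135) (nat_lit 677582165103132179601393696)) (.cons (.br (nat_lit 15) (nat_lit 0) (.cons (.rf (nat_lit 1135) (nat_lit 677582165103132179601393696)) .nil)) .nil))) .nil)))) .nil))),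
 (.br (nat_lit 12) (nat_lit 0) (.cons (.kr (nat_lit 158765810056797046904010637313) (nat_lit 40564821625155124192340927840768) (nat_lit 0) (nat_lit 3)) (.cons (.br (nat_lit 15) (nat_lit 0) (.cons (.kr (nat_lit 2658455991569836486620842167738826753) (nat_lit 40564821625155124192340927840768) (nat_lit 0) (nat_lit 2)) (.cons (.kr (nat_lit 158765810038350301730789457920) (nat_lit 2658455991569836468174096994517647360) (nat_lit 2) (nat_lit 0)) (.cons (.rf (nat_lit 48) (nat_lit 20677048671751667619874)) .nil)))) .nil))),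
 (.br (nat_lit 15) (nat_lit 0) (.cons (.ev (nat_lit 1361150236871497492341222987552034062854) (nat_lit 3)) (.cons (.ev (nat_lit 5337681487795952036397136440325244418) (nat_lit 3)) .nil))),
 (.br (nat_lit 14) (nat_lit 0) (.cons (.rf (nat_lit 1138) (nat_lit 677582165103132179601393696)) (.cons (.rf (nat_lit 1138) (nat_lit 640105464695078675185502240)) .nil))),
 (.br (nat_lit 14) (nat_lit 0) (.cons (.rf (nat_lit 1139) (nat_lit 677582165103132179601393696)) (.cons (.rf (nat_lit 597) (nat_lit 587358650721014774071338)) .nil))),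
 (.br (nat_lit 12) (nat_lit 0) (.cons (.rf (nat_lit 404) (nat_lit 17021023010995024498720)) (.cons (.br (nat_lit 12) (nat_lit 0) (.cons (.rf (nat_lit 404) (nat_lit 17021023010995024498720)) .nil)) .nil))),
 (.br (nat_lit 14) (nat_lit 0) (.cons (.ev (nat_lit 13313252922595587620533219092013779469) (nat_lit 4)) (.cons (.br (nat_lit 15) (nat_lit 0) (.cons (.ev (nat_lit 680564734000954644567373037502191501827) (nat_lit 2)) (.cons (.br (nat_lit 16) (nat_lit 0) (.cons (.ev (nat_lit 2044352698241716507563881941232353674243) (nat_lit 3)) .nil)) .nil))) .nil))),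
 (.br (nat_lit 14) (nat_lit 0) (.cons (.ev (nat_lit 680564734000335674584624400661137588737) (nat_lit 2)) (.cons (.br (nat_lit 16) (nat_lit 0) (.cons (.ev (nat_lit 7975489986701159927712389333004977671) (nat_lit 3)) (.cons (.ev (nat_lit 340287559297335859463274918089186082816) (nat_lit 1)) .nil))) .nil))),
 (.br (nat_lit 14) (nat_lit 0) (.cons (.br (nat_lit 15) (nat_lit 0) (.cons (.ev (nat_lit 680564734000954644567373037502191501827) (nat_lit 2)) (.cons (.br (nat_lit 16) (nat_lit 0) (.cons (.ev (nat_lit 1363808733428203260565573914088754774531) (nat_lit 3)) .nil)) .nil))) (.cons (.br (nat_lit 15) (nat_lit 0) (.cons (.br (nat_lit 16) (nat_lit 0) (.cons (.ev (nat_lit 340287559297026369731087371630104608768) (nat_lit 1)) .nil)) (.cons (.ev (nat_lit 87113620372335610394911960243140506550273) (nat_lit 2)) .nil))) .nil))),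
 (.br (nat_lit 14) (nat_lit 0) (.cons (.rf (nat_lit 1144) (nat_lit 677582165103132179601393696)) (.cons (.br (nat_lit 16) (nat_lit 0) (.cons (.ev (nat_lit 680564734000954644567373037502191501827) (nat_lit 2)) (.cons (.ev (nat_lit 524034876212026384947340662706968780211717) (nat_lit 3)) .nil))) .nil))),
 (.br (nat_lit 12) (nat_lit 0) (.cons (.br (nat_lit 13) (nat_lit 0) (.cons (.kr (nat_lit 158456325046975420360309080065) (nat_lit 10384593717074377623543866615398400) (nat_lit 0) (nat_lit 1)) (.cons (.br (nat_lit 14) (nat_lit 0) (.cons (.ev (nat_lit 31479728916319413085195349432079385) (nat_lit 5)) (.cons (.br (nat_lit 15) (nat_lit 0) (.cons (.ev (nat_lit 2668881308562438473892104388640637441) (nat_lit 2)) (.cons (.rf (nat_lit 20) (nat_lit 631046501198538977)) .nil))) .nil))) (.cons (.br (nat_lit 14) (nat_lit 0) (.cons (.br (nat_lit 15) (nat_lit 0) (.cons (.ev (nat_lit 10707004963175725602075561519118945281) (nat_lit 5)) (.cons (.rf (nat_lit 20) (nat_lit 631047566350682337)) .nil))) (.cons (.rf (nat_lit 83) (nat_lit 608108012296581847074))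 (.cons (.br (nat_lit 15) (nat_lit 0) (.cons (.br (nat_lit 15) (nat_lit 0) (.cons (.ev (nat_lit 2668881309181408530427721922579005955) (nat_lit 2)) .nil)) (.cons (.br (nat_lit 15) (nat_lit 0) (.cons (.ev (nat_lit 2668881309181408530427721922579005955) (nat_lit 2)) .nil)) .nil))) .nil)))) .nil)))) (.cons (.br (nat_lit 13) (nat_lit 0) (.cons (.br (nat_lit 14) (nat_lit 0) (.cons (.ev (nat_lit 5192297169233485635973063890764033) (nat_lit 1)) (.cons (.br (nat_lit 15) (nat_lit 0) (.cons (.ev (nat_lit 2668881308562438473892104388640637441) (nat_lit 2)) (.cons (.rf (nat_lit 20) (nat_lit 596108454073019617)) .nil))) .nil))) (.cons (.ev (nat_lit 1329248357732171789545199306721525760) (nat_lit 1)) (.cons (.br (nat_lit 15) (nat_lit 0) (.cons (.br (nat_lit 14) (nat_lit 0) (.cons (.ev (nat_lit 2668881309181408530427721922579005955) (nat_lit 2)) (.cons (.rf (nat_lit 20) (nat_lit 631013481489205473)) .nil))) (.cons (.ev (nat_lit 1329248357422682057357652847606366208) (nat_lit 1)) (.cons (.br (nat_lit 14) (nat_lit 0) (.cons (.br (nat_lit 14)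 (nat_lit 0) (.cons (.zr (nat_lit 5192534543036537520991898831945728) (nat_lit 1329248278814698470109156318147379456) (nat_lit 8) (nat_lit 7)) .nil)) (.cons (.br (nat_lit 14) (nat_lit 0) (.cons (.zr (nat_lit 5192534543036537520991898831945728) (nat_lit 1329248278814698470109156318147379456) (nat_lit 8) (nat_lit 7)) .nil)) .nil))) .nil)))) .nil)))) (.cons (.br (nat_lit 13) (nat_lit 0) (.cons (.br (nat_lit 14) (nat_lit 0) (.cons (.ev (nat_lit 5192297169233485635973063890764033) (nat_lit 1)) (.cons (.br (nat_lit 15) (nat_lit 0) (.cons (.ev (nat_lit 680564734000954644567373037502191501827) (nat_lit 2)) (.cons (.br (nat_lit 15) (nat_lit 0) (.cons (.ev (nat_lit 680564734000954644567373037502191501827) (nat_lit 2)) .nil)) .nil))) (.cons (.rf (nat_lit 1141) (nat_lit 20678166659641484973121)) .nil)))) (.cons (.br (nat_lit 14) (nat_lit 0) (.cons (.br (nat_lit 14) (nat_lit 0) (.cons (.ev (nat_lit 13313252922595587620533219092013779469) (nat_lit 4)) (.cons (.rf (nat_lit 20) (nat_lit 631013448203213889)) .nil))) (.cons (.rf (nat_lit 1142)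 (nat_lit 19926519232773908561233952)) (.cons (.br (nat_lit 14) (nat_lit 0) (.cons (.rf (nat_lit 20) (nat_lit 631013448203213889)) (.cons (.rf (nat_lit 1142) (nat_lit 19926519232773908561233952)) .nil))) .nil)))) (.cons (.br (nat_lit 14) (nat_lit 0) (.cons (.rf (nat_lit 1143) (nat_lit 19926519232773908561233952)) (.cons (.ev (nat_lit 680564734000335674584624400661137588737) (nat_lit 2)) (.cons (.br (nat_lit 14) (nat_lit 0) (.cons (.rf (nat_lit 1143) (nat_lit 19926519232773908561233952)) (.cons (.ev (nat_lit 680564734000335674584624400661137588737) (nat_lit 2)) .nil))) .nil)))) (.cons (.br (nat_lit 14) (nat_lit 0) (.cons (.rf (nat_lit 1144) (nat_lit 677582165103132179601393696)) (.cons (.rf (nat_lit 1145) (nat_lit 677582165103132179601393696)) (.cons (.br (nat_lit 14) (nat_lit 0) (.cons (.rf (nat_lit 1144) (nat_lit 677582165103132179601393696)) (.cons (.rf (nat_lit 1145) (nat_lit 677582165103132179601393696)) .nil))) .nil)))) .nil))))) .nil)))),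
 (.br (nat_lit 13) (nat_lit 0) (.cons (.ev (nat_lit 1329248357422682057357652847606366208) (nat_lit 1)) (.cons (.br (nat_lit 15) (nat_lit 0) (.cons (.ev (nat_lit 680564734000954644567373037502191501827) (nat_lit 2)) (.cons (.ev (nat_lit 1329248357732171789545199306721525760) (nat_lit 1)) .nil))) .nil))),
 (.br (nat_lit 13) (nat_lit 0) (.cons (.br (nat_lit 15) (nat_lit 0) (.cons (.ev (nat_lit 680564734000954644567373037502191501827) (nat_lit 2)) (.cons (.rf (nat_lit 515) (nat_lit 20674710181045657050146)) .nil))) (.cons (.br (nat_lit 15) (nat_lit 0) (.cons (.rf (nat_lit 514) (nat_lit 639992202804450585806472256)) (.cons (.ev (nat_lit 174227240744671218376749698051800781946881) (nat_lit 2)) .nil))) .nil))),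
 (.br (nat_lit 13) (nat_lit 0) (.cons (.rf (nat_lit 1148) (nat_lit 677582165103132179601393696)) (.cons (.br (nat_lit 16) (nat_lit 0) (.cons (.ev (nat_lit 680564734000954644567373037502191501827) (nat_lit 2)) (.cons (.ev (nat_lit 87112291124136334552891612266730998530048) (nat_lit 1)) .nil))) .nil))),
 (.br (nat_lit 12) (nat_lit 0) (.cons (.rf (nat_lit 1146) (nat_lit 583706118939841765935136)) (.cons (.br (nat_lit 14) (nat_lit 0) (.cons (.br (nat_lit 13) (nat_lit 0) (.cons (.ev (nat_lit 156095491079617803587204570443553813) (nat_lit 5)) (.cons (.br (nat_lit 15) (nat_lit 0) (.cons (.ev (nat_lit 10665464690526024018379777098517713949) (nat_lit 5)) (.cons (.rf (nat_lit 20) (nat_lit 596074369204432097)) .nil))) .nil))) (.cons (.kr (nat_lit 158456325046975420360309080065) (nat_lit 10384593717074377623543866615398400) (nat_lit 0) (nat_lit 1)) (.cons (.br (nat_lit 15) (nat_lit 0) (.cons (.br (nat_lit 13) (nat_lit 0) (.cons (.ev (nat_lit 2668881309181408530427721922579005955) (nat_lit 2)) (.cons (.rf (nat_lit 20) (nat_lit 630978331468474593))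 .nil))) (.cons (.rf (nat_lit 561) (nat_lit 620380588871210101643491)) (.cons (.br (nat_lit 13) (nat_lit 0) (.cons (.br (nat_lit 13) (nat_lit 0) (.cons (.ev (nat_lit 2668881308562438473892104388640637441) (nat_lit 2)) .nil)) (.cons (.br (nat_lit 13) (nat_lit 0) (.cons (.ev (nat_lit 2668881308562438473892104388640637441) (nat_lit 2)) .nil)) .nil))) .nil)))) .nil)))) (.cons (.br (nat_lit 14) (nat_lit 0) (.cons (.br (nat_lit 13) (nat_lit 0) (.cons (.rf (nat_lit 147) (nat_lit 19347732360567775625258)) (.cons (.br (nat_lit 15) (nat_lit 0) (.cons (.ev (nat_lit 680564734000954644567373037502191501827) (nat_lit 2)) (.cons (.br (nat_lit 15) (nat_lit 0) (.cons (.ev (nat_lit 680564734000954644567373037502191501827) (nat_lit 2)) .nil)) .nil))) (.cons (.br (nat_lit 15) (nat_lit 0) (.cons (.br (nat_lit 15) (nat_lit 0) (.cons (.ev (nat_lit 1329248357732171789545199306721525760) (nat_lit 1)) .nil)) (.cons (.br (nat_lit 15) (nat_lit 0) (.cons (.ev (nat_lit 1329248357732171789545199306721525760) (nat_lit 1)) .nil)) .nil))) .nil)))) (.cons (.br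 (nat_lit 13) (nat_lit 0) (.cons (.br (nat_lit 13) (nat_lit 0) (.cons (.ev (nat_lit 1329248357422682057357652847606366208) (nat_lit 1)) (.cons (.rf (nat_lit 20) (nat_lit 630978264896478529)) .nil))) (.cons (.rf (nat_lit 1147) (nat_lit 19926519232773908561233952)) (.cons (.br (nat_lit 13) (nat_lit 0) (.cons (.rf (nat_lit 20) (nat_lit 630978264896478529)) (.cons (.rf (nat_lit 1147) (nat_lit 19926519232773908561233952)) .nil))) .nil)))) (.cons (.kr (nat_lit 158456325046975420360309080065) (nat_lit 10384593717074377623543866615398400) (nat_lit 0) (nat_lit 1)) (.cons (.br (nat_lit 13) (nat_lit 0) (.cons (.rf (nat_lit 1148) (nat_lit 677582165103132179601393696)) (.cons (.rf (nat_lit 1149) (nat_lit 677582165103132179601393696)) (.cons (.br (nat_lit 13) (nat_lit 0) (.cons (.rf (nat_lit 1148) (nat_lit 677582165103132179601393696)) (.cons (.rf (nat_lit 1149) (nat_lit 677582165103132179601393696)) .nil))) .nil)))) .nil))))) .nil)))),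
 (.br (nat_lit 14) (nat_lit 0) (.cons (.ev (nat_lit 5192297169233485635973063890764033) (nat_lit 1)) (.cons (.br (nat_lit 13) (nat_lit 0) (.cons (.ev (nat_lit 13313252920119707394390748956260305413) (nat_lit 4)) (.cons (.ev (nat_lit 680564734000954644567373037502191501827) (nat_lit 2)) (.cons (.br (nat_lit 15) (nat_lit 0) (.cons (.ev (nat_lit 680564734000335674584624400661137588737) (nat_lit 2)) (.cons (.br (nat_lit 16) (nat_lit 0) (.cons (.ev (nat_lit 1363808733429441200678645149156631511559) (nat_lit 3)) .nil)) .nil))) .nil)))) (.cons (.br (nat_lit 13) (nat_lit 0) (.cons (.rf (nat_lit 20) (nat_lit 596040251063248961)) (.cons (.br (nat_lit 16) (nat_lit 0) (.cons (.ev (nat_lit 7975489987939099893209663015112279555) (nat_lit 3)) (.cons (.ev (nat_lit 340287559297335854759355180397073793025) (nat_lit 1)) .nil))) (.cons (.br (nat_lit 15) (nat_lit 0) (.cons (.br (nat_lit 16) (nat_lit 0) (.cons (.ev (nat_lit 340287559297026369731087371630104608768) (nat_lit 1)) .nil)) (.cons (.ev (nat_lit 87116278868891692366858122423803792523266)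 (nat_lit 2)) .nil))) .nil)))) .nil))))]

theorem c42 : chkAll C T R L42 (nat_lit 1129) = true := by decide +kernel

theorem l42 : (nat_lit 1129) + L42.length = (nat_lit 1152) := by decide +kernel

/-- part of the certificates -/
def L43 : List Prf := [(.br (nat_lit 16) (nat_lit 0) (.cons (.ev (nat_lit 688540223988277187625264757483975737349) (nat_lit 3)) .nil)),
 (.br (nat_lit 13) (nat_lit 0) (.cons (.rf (nat_lit 1151) (nat_lit 19926519232773908561233952)) (.cons (.br (nat_lit 14) (nat_lit 0) (.cons (.ev (nat_lit 680564734000954644567373037502191501827) (nat_lit 2)) (.cons (.br (nat_lit 14) (nat_lit 0) (.cons (.ev (nat_lit 680564734000954644567373037502191501827) (nat_lit 2)) .nil)) .nil))) (.cons (.br (nat_lit 14) (nat_lit 0) (.cons (.rf (nat_lit 1152) (nat_lit 677582165103132179601393696)) (.cons (.br (nat_lit 14) (nat_lit 0) (.cons (.rf (nat_lit 1152) (nat_lit 677582165103132179601393696)) .nil)) .nil))) .nil)))),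
 (.br (nat_lit 13) (nat_lit 0) (.cons (.rf (nat_lit 1151) (nat_lit 19926519232773908561233952)) (.cons (.rf (nat_lit 1153) (nat_lit 19926519232773908561233952)) (.cons (.br (nat_lit 16) (nat_lit 0) (.cons (.ev (nat_lit 680564734000954644567373037502191501827) (nat_lit 2)) (.cons (.rf (nat_lit 87) (nat_lit 631011351352907815)) (.cons (.br (nat_lit 15) (nat_lit 0) (.cons (.br (nat_lit 14) (nat_lit 0) (.cons (.ev (nat_lit 340287559297026369731087371630104608768) (nat_lit 1)) .nil)) (.cons (.ev (nat_lit 87453897547038917281876819309271151869952) (nat_lit 1)) .nil))) .nil)))) .nil)))),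
 (.br (nat_lit 12) (nat_lit 0) (.cons (.rf (nat_lit 1146) (nat_lit 583706118939841765935136)) (.cons (.rf (nat_lit 1150) (nat_lit 583706118939841765935136)) (.cons (.br (nat_lit 13) (nat_lit 0) (.cons (.rf (nat_lit 1151) (nat_lit 19926519232773908561233952)) (.cons (.rf (nat_lit 1153) (nat_lit 19926519232773908561233952)) (.cons (.rf (nat_lit 1154) (nat_lit 19926519232773908561233952)) (.cons (.br (nat_lit 13) (nat_lit 0) (.cons (.rf (nat_lit 1151) (nat_lit 19926519232773908561233952)) (.cons (.rf (nat_lit 1153) (nat_lit 19926519232773908561233952)) (.cons (.rf (nat_lit 1154) (nat_lit 19926519232773908561233952)) .nil)))) .nil))))) .nil)))),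
 (.br (nat_lit 12) (nat_lit 0) (.cons (.ev (nat_lit 5192297168024578335441577423405056) (nat_lit 1)) .nil)),
 (.br (nat_lit 16) (nat_lit 0) (.cons (.rf (nat_lit 87) (nat_lit 631045402895030306)) (.cons (.br (nat_lit 13) (nat_lit 0) (.cons (.ev (nat_lit 341611615199442472738655469144928944385) (nat_lit 1)) (.cons (.rf (nat_lit 1156) (nat_lit 20678166659641484973121)) .nil))) (.cons (.ev (nat_lit 680564734000335674584624400661137588737) (nat_lit 2)) .nil)))),
 (.br (nat_lit 14) (nat_lit 0) (.cons (.ev (nat_lit 5192297169228781716235371744919808) (nat_lit 1)) (.cons (.rf (nat_lit 1157) (nat_lit 677582165103132179601393696)) (.cons (.rf (nat_lit 1157) (nat_lit 640105464695078675185502240)) .nil)))),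
 (.br (nat_lit 15) (nat_lit 0) (.cons (.br (nat_lit 14) (nat_lit 0) (.cons (.ev (nat_lit 341611615199132987710387660377959760128) (nat_lit 1)) (.cons (.ev (nat_lit 2668881309181408530427721922579005955) (nat_lit 2)) .nil))) (.cons (.rf (nat_lit 87) (nat_lit 631010252915185698)) (.cons (.ev (nat_lit 1329248357422682057357652847606366208) (nat_lit 1)) .nil)))),
 (.br (nat_lit 13) (nat_lit 0) (.cons (.rf (nat_lit 1158) (nat_lit 677582165103132179601393696)) (.cons (.rf (nat_lit 1159) (nat_lit 677582165103132179601393696)) (.cons (.rf (nat_lit 1159) (nat_lit 640105464695078675185502240)) .nil)))),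
 (.br (nat_lit 14) (nat_lit 0) (.cons (.br (nat_lit 15) (nat_lit 0) (.cons (.ev (nat_lit 341611615199442467997842241106374295808) (nat_lit 1)) .nil)) (.cons (.ev (nat_lit 87452573490978044858581535764607794151680) (nat_lit 1)) .nil))),
 (.br (nat_lit 13) (nat_lit 0) (.cons (.rf (nat_lit 1158) (nat_lit 677582165103132179601393696)) (.cons (.rf (nat_lit 1160) (nat_lit 677582165103132179601393696)) (.cons (.br (nat_lit 16) (nat_lit 0) (.cons (.rf (nat_lit 1161) (nat_lit 677582165103132179601393696)) (.cons (.br (nat_lit 17) (nat_lit 0) (.cons (.rf (nat_lit 1161) (nat_lit 640105464695078675185502240)) (.cons (.ev (nat_lit 87453897547038917281876819309271151869952) (nat_lit 1)) .nil))) (.cons (.kr (nat_lit 340282366920938463463374607431768211456) (nat_lit 87112285931760246646623899502532662132736) (nat_lit 16) (nat_lit 0)) .nil)))) .nil)))),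
 (.br (nat_lit 7) (nat_lit 0) (.cons (.br (nat_lit 10) (nat_lit 0) (.cons (.kr (nat_lit 1208925891672223212634368) (nat_lit 309485009821626543701557248) (nat_lit 1) (nat_lit 0)) (.cons (.br (nat_lit 11) (nat_lit 0) (.cons (.ev (nat_lit 621392612095147451600601089) (nat_lit 2)) (.cons (.br (nat_lit 12) (nat_lit 0) (.cons (.rf (nat_lit 1069) (nat_lit 493858305440582043680)) (.cons (.br (nat_lit 12) (nat_lit 0) (.cons (.rf (nat_lit 1069) (nat_lit 493858305440582043680)) (.cons (.br (nat_lit 13) (nat_lit 0) (.cons (.rf (nat_lit 1071) (nat_lit 583706118939841765935136)) (.cons (.rf (nat_lit 1071) (nat_lit 547107778697602015528992)) (.cons (.br (nat_lit 13) (nat_lit 0) (.cons (.rf (nat_lit 1071) (nat_lit 583706118939841765935136)) (.cons (.rf (nat_lit 1071) (nat_lit 547107778697602015528992)) (.cons (.br (nat_lit 14) (nat_lit 0) (.cons (.rf (nat_lit 1073) (nat_lit 21174442659472845144426528)) (.cons (.rf (nat_lit 1074) (nat_lit 677582165103132179601393696)) (.cons (.rf (nat_lit 1074) (nat_lit 640105464695078675185502240)) .nil))))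 .nil)))) .nil)))) .nil))) .nil))) .nil))) .nil))) (.cons (.ev (nat_lit 2422629346510610513265153) (nat_lit 2)) (.cons (.br (nat_lit 2) (nat_lit 0) (.cons (.kr (nat_lit 1208925891672223212634368) (nat_lit 309485009821626543701557248) (nat_lit 1) (nat_lit 0)) (.cons (.br (nat_lit 10) (nat_lit 0) (.cons (.ev (nat_lit 2422629346510610546950147) (nat_lit 2)) (.cons (.br (nat_lit 12) (nat_lit 0) (.cons (.rf (nat_lit 1077) (nat_lit 493858305440582043680)) (.cons (.br (nat_lit 12) (nat_lit 0) (.cons (.rf (nat_lit 1077) (nat_lit 493858305440582043680)) (.cons (.br (nat_lit 13) (nat_lit 0) (.cons (.rf (nat_lit 1079) (nat_lit 583706118939841765935136)) (.cons (.rf (nat_lit 1079) (nat_lit 547107778697602015528992)) (.cons (.br (nat_lit 13) (nat_lit 0) (.cons (.rf (nat_lit 1079) (nat_lit 583706118939841765935136)) (.cons (.rf (nat_lit 1079) (nat_lit 547107778697602015528992)) (.cons (.br (nat_lit 14) (nat_lit 0) (.cons (.rf (nat_lit 1081) (nat_lit 21174442659471745632798752)) (.cons (.rf (nat_lit 1082) (nat_lit 21174442659471745632798752))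 (.cons (.rf (nat_lit 1082) (nat_lit 20003295771720073619802144)) .nil)))) .nil)))) .nil)))) .nil))) .nil))) .nil))) .nil))) (.cons (.br (nat_lit 2) (nat_lit 0) (.cons (.br (nat_lit 11) (nat_lit 0) (.cons (.ev (nat_lit 1237944891067305339543488001) (nat_lit 3)) (.cons (.br (nat_lit 12) (nat_lit 0) (.cons (.rf (nat_lit 1085) (nat_lit 493858305440582043680)) (.cons (.br (nat_lit 12) (nat_lit 0) (.cons (.rf (nat_lit 1085) (nat_lit 493858305440582043680)) (.cons (.br (nat_lit 13) (nat_lit 0) (.cons (.rf (nat_lit 1087) (nat_lit 583706118939841765935136)) (.cons (.rf (nat_lit 1087) (nat_lit 547107778697602015528992)) (.cons (.br (nat_lit 13) (nat_lit 0) (.cons (.rf (nat_lit 1087) (nat_lit 583706118939841765935136)) (.cons (.rf (nat_lit 1087) (nat_lit 547107778697602015528992)) (.cons (.br (nat_lit 14) (nat_lit 0) (.cons (.rf (nat_lit 1089) (nat_lit 677582165103132179601393696)) (.cons (.rf (nat_lit 1090) (nat_lit 677582165103132179601393696)) (.cons (.rf (nat_lit 1090) (nat_lit 640105464695078675185502240)) .nil)))) .nil)))) .nil))))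 .nil))) .nil))) .nil))) (.cons (.br (nat_lit 10) (nat_lit 0) (.cons (.ev (nat_lit 1859332688706926595679846919) (nat_lit 3)) (.cons (.br (nat_lit 12) (nat_lit 0) (.cons (.rf (nat_lit 1093) (nat_lit 493858305440582043680)) (.cons (.br (nat_lit 12) (nat_lit 0) (.cons (.rf (nat_lit 1093) (nat_lit 493858305440582043680)) (.cons (.br (nat_lit 13) (nat_lit 0) (.cons (.rf (nat_lit 1095) (nat_lit 583706118939841765935136)) (.cons (.rf (nat_lit 1095) (nat_lit 547107778697602015528992)) (.cons (.br (nat_lit 13) (nat_lit 0) (.cons (.rf (nat_lit 1095) (nat_lit 583706118939841765935136)) (.cons (.rf (nat_lit 1095) (nat_lit 547107778697602015528992)) (.cons (.br (nat_lit 14) (nat_lit 0) (.cons (.rf (nat_lit 1097) (nat_lit 677582165103132179601393696)) (.cons (.rf (nat_lit 1098) (nat_lit 677582165103132179601393696)) (.cons (.rf (nat_lit 1098) (nat_lit 640105464695078675185502240)) .nil)))) .nil)))) .nil)))) .nil))) .nil))) .nil))) (.cons (.br (nat_lit 10) (nat_lit 0) (.cons (.ev (nat_lit 618974760745841808720004611) (nat_lit 3)) (.cons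 (.ev (nat_lit 2422629346510610546950147) (nat_lit 2)) (.cons (.br (nat_lit 11) (nat_lit 0) (.cons (.ev (nat_lit 79228162532783421840074735616) (nat_lit 1)) (.cons (.ev (nat_lit 621392612095147451600601089) (nat_lit 2)) (.cons (.br (nat_lit 12) (nat_lit 0) (.cons (.br (nat_lit 13) (nat_lit 0) (.cons (.ev (nat_lit 20282720302309677866514812829953) (nat_lit 1)) (.cons (.br (nat_lit 14) (nat_lit 0) (.cons (.rf (nat_lit 1099) (nat_lit 570025506777189156896)) (.cons (.br (nat_lit 14) (nat_lit 0) (.cons (.rf (nat_lit 1099) (nat_lit 570025506777189156896)) (.cons (.br (nat_lit 15) (nat_lit 0) (.cons (.rf (nat_lit 1100) (nat_lit 677582165103132179601393696)) (.cons (.rf (nat_lit 1100) (nat_lit 640105464695078675185502240)) .nil))) .nil))) .nil))) .nil))) (.cons (.br (nat_lit 13) (nat_lit 0) (.cons (.zr (nat_lit 475371416549201785459771966464) (nat_lit 10384594955009749883799388593455105) (nat_lit 16) (nat_lit 7)) (.cons (.br (nat_lit 13) (nat_lit 0) (.cons (.zr (nat_lit 475371416549201785459771966464) (nat_lit 10384594955009749883799388593455105)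 (nat_lit 16) (nat_lit 7)) (.cons (.br (nat_lit 14) (nat_lit 0) (.cons (.rf (nat_lit 1101) (nat_lit 19926519232773908561233952)) (.cons (.rf (nat_lit 1101) (nat_lit 18755372345022236548237344)) (.cons (.br (nat_lit 15) (nat_lit 0) (.cons (.br (nat_lit 15) (nat_lit 0) (.cons (.ev (nat_lit 2668881308562438473892104388640637441) (nat_lit 2)) .nil)) (.cons (.br (nat_lit 15) (nat_lit 0) (.cons (.ev (nat_lit 2668881308562438473892104388640637441) (nat_lit 2)) .nil)) .nil))) .nil)))) .nil))) .nil))) (.cons (.br (nat_lit 13) (nat_lit 0) (.cons (.rf (nat_lit 1102) (nat_lit 583706118939841765935136)) (.cons (.rf (nat_lit 1104) (nat_lit 583706118939841765935136)) (.cons (.br (nat_lit 13) (nat_lit 0) (.cons (.rf (nat_lit 1102) (nat_lit 583706118939841765935136)) (.cons (.rf (nat_lit 1104) (nat_lit 583706118939841765935136)) (.cons (.br (nat_lit 14) (nat_lit 0) (.cons (.rf (nat_lit 1106) (nat_lit 677582165103132179601393696)) (.cons (.rf (nat_lit 1107) (nat_lit 677582165103132179601393696)) (.cons (.rf (nat_lit 1107) (nat_lit 640105464695078675185502240))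 .nil)))) .nil)))) .nil)))) .nil)))) .nil)))) .nil)))) (.cons (.br (nat_lit 10) (nat_lit 0) (.cons (.br (nat_lit 12) (nat_lit 0) (.cons (.rf (nat_lit 1110) (nat_lit 493858305440582043680)) (.cons (.br (nat_lit 12) (nat_lit 0) (.cons (.rf (nat_lit 1110) (nat_lit 493858305440582043680)) (.cons (.br (nat_lit 13) (nat_lit 0) (.cons (.rf (nat_lit 1112) (nat_lit 583706118939841765935136)) (.cons (.rf (nat_lit 1112) (nat_lit 547107778697602015528992)) (.cons (.br (nat_lit 13) (nat_lit 0) (.cons (.rf (nat_lit 1112) (nat_lit 583706118939841765935136)) (.cons (.rf (nat_lit 1112) (nat_lit 547107778697602015528992)) (.cons (.br (nat_lit 14) (nat_lit 0) (.cons (.rf (nat_lit 1114) (nat_lit 677582165103132179601393696)) (.cons (.rf (nat_lit 1115) (nat_lit 677582165103132179601393696)) (.cons (.rf (nat_lit 1115) (nat_lit 640105464695078675185502240)) .nil)))) .nil)))) .nil)))) .nil))) .nil))) (.cons (.br (nat_lit 12) (nat_lit 0) (.cons (.ev (nat_lit 621392612095147451600601089) (nat_lit 2)) (.cons (.ev (nat_lit 79229371440084233702007177216)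 (nat_lit 1)) (.cons (.br (nat_lit 11) (nat_lit 0) (.cons (.br (nat_lit 13) (nat_lit 0) (.cons (.ev (nat_lit 40723275537072827429275421508097) (nat_lit 2)) (.cons (.br (nat_lit 14) (nat_lit 0) (.cons (.rf (nat_lit 1116) (nat_lit 583706118939841765935136)) (.cons (.br (nat_lit 14) (nat_lit 0) (.cons (.rf (nat_lit 1116) (nat_lit 583706118939841765935136)) (.cons (.br (nat_lit 15) (nat_lit 0) (.cons (.rf (nat_lit 1117) (nat_lit 677582165103132179601393696)) (.cons (.rf (nat_lit 1117) (nat_lit 640105464695078675185502240)) .nil))) .nil))) .nil))) .nil))) (.cons (.ev (nat_lit 79538861172271780161088651264) (nat_lit 1)) (.cons (.br (nat_lit 13) (nat_lit 0) (.cons (.rf (nat_lit 1118) (nat_lit 583706118939841765935136)) (.cons (.rf (nat_lit 1120) (nat_lit 583706118939841765935136)) (.cons (.br (nat_lit 13) (nat_lit 0) (.cons (.rf (nat_lit 1118) (nat_lit 583706118939841765935136)) (.cons (.rf (nat_lit 1120) (nat_lit 583706118939841765935136)) (.cons (.br (nat_lit 14) (nat_lit 0) (.cons (.rf (nat_lit 1122) (nat_lit 677582165103132179601393696))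 (.cons (.rf (nat_lit 1123) (nat_lit 677582165103132179601393696)) (.cons (.rf (nat_lit 1123) (nat_lit 640105464695078675185502240)) .nil)))) .nil)))) .nil)))) .nil)))) .nil)))) (.cons (.ev (nat_lit 2422629346510610546950147) (nat_lit 2)) (.cons (.br (nat_lit 11) (nat_lit 0) (.cons (.br (nat_lit 12) (nat_lit 0) (.cons (.br (nat_lit 13) (nat_lit 0) (.cons (.zr (nat_lit 475371407122915562720482820096) (nat_lit 40566676117362270610455246667777) (nat_lit 16) (nat_lit 7)) (.cons (.br (nat_lit 14) (nat_lit 0) (.cons (.rf (nat_lit 1124) (nat_lit 583706118939841765935136)) (.cons (.br (nat_lit 14) (nat_lit 0) (.cons (.rf (nat_lit 1124) (nat_lit 583706118939841765935136)) (.cons (.br (nat_lit 15) (nat_lit 0) (.cons (.rf (nat_lit 1125) (nat_lit 677582165103132179601393696)) (.cons (.rf (nat_lit 1125) (nat_lit 640105464695078675185502240)) .nil))) .nil))) .nil))) .nil))) (.cons (.br (nat_lit 13) (nat_lit 0) (.cons (.ev (nat_lit 5192297169228781716235371744919808) (nat_lit 1)) (.cons (.br (nat_lit 13) (nat_lit 0) (.cons (.ev (nat_lit 5192297169233485635973063890764033)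 (nat_lit 1)) (.cons (.br (nat_lit 14) (nat_lit 0) (.cons (.rf (nat_lit 1126) (nat_lit 622703726024184642538561)) (.cons (.rf (nat_lit 1126) (nat_lit 586105385781944892132417)) (.cons (.br (nat_lit 15) (nat_lit 0) (.cons (.br (nat_lit 15) (nat_lit 0) (.cons (.ev (nat_lit 2668881309181408530427721922579005955) (nat_lit 2)) .nil)) (.cons (.br (nat_lit 15) (nat_lit 0) (.cons (.ev (nat_lit 2668881309181408530427721922579005955) (nat_lit 2)) .nil)) .nil))) .nil)))) .nil))) .nil))) (.cons (.br (nat_lit 13) (nat_lit 0) (.cons (.rf (nat_lit 1128) (nat_lit 583706118939841765935136)) (.cons (.rf (nat_lit 1130) (nat_lit 583706118939841765935136)) (.cons (.br (nat_lit 13) (nat_lit 0) (.cons (.rf (nat_lit 1128) (nat_lit 583706118939841765935136)) (.cons (.rf (nat_lit 1130) (nat_lit 583706118939841765935136)) (.cons (.br (nat_lit 14) (nat_lit 0) (.cons (.rf (nat_lit 1133) (nat_lit 677582165103132179601393696)) (.cons (.rf (nat_lit 1134) (nat_lit 677582165103132179601393696)) (.cons (.rf (nat_lit 1134) (nat_lit 640105464695078675185502240))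 .nil)))) .nil)))) .nil)))) .nil)))) (.cons (.br (nat_lit 13) (nat_lit 0) (.cons (.ev (nat_lit 20282409603670189508193798914305) (nat_lit 1)) (.cons (.ev (nat_lit 81129952768376348291264957055490) (nat_lit 3)) (.cons (.br (nat_lit 12) (nat_lit 0) (.cons (.rf (nat_lit 1136) (nat_lit 583706118939841765935136)) (.cons (.rf (nat_lit 1137) (nat_lit 583706118939841765935136)) (.cons (.br (nat_lit 12) (nat_lit 0) (.cons (.rf (nat_lit 1136) (nat_lit 583706118939841765935136)) (.cons (.rf (nat_lit 1137) (nat_lit 583706118939841765935136)) (.cons (.br (nat_lit 14) (nat_lit 0) (.cons (.rf (nat_lit 1139) (nat_lit 677582165103132179601393696)) (.cons (.rf (nat_lit 1140) (nat_lit 677582165103132179601393696)) (.cons (.rf (nat_lit 1140) (nat_lit 640105464695078675185502240)) .nil)))) .nil)))) .nil)))) .nil)))) (.cons (.ev (nat_lit 621392612095147451600601089) (nat_lit 2)) (.cons (.br (nat_lit 12) (nat_lit 0) (.cons (.rf (nat_lit 1146) (nat_lit 583706118939841765935136)) (.cons (.rf (nat_lit 1150) (nat_lit 583706118939841765935136)) (.cons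 (.rf (nat_lit 1155) (nat_lit 583706118939841765935136)) (.cons (.br (nat_lit 12) (nat_lit 0) (.cons (.rf (nat_lit 1146) (nat_lit 583706118939841765935136)) (.cons (.rf (nat_lit 1150) (nat_lit 583706118939841765935136)) (.cons (.rf (nat_lit 1155) (nat_lit 583706118939841765935136)) (.cons (.br (nat_lit 13) (nat_lit 0) (.cons (.rf (nat_lit 1158) (nat_lit 677582165103132179601393696)) (.cons (.rf (nat_lit 1160) (nat_lit 677582165103132179601393696)) (.cons (.rf (nat_lit 1162) (nat_lit 677582165103132179601393696)) (.cons (.rf (nat_lit 1162) (nat_lit 640105464695078675185502240)) .nil))))) .nil))))) .nil))))) .nil))))) .nil))))) .nil))))) .nil)))))]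

theorem c43 : chkAll C T R L43 (nat_lit 1152) = true := by decide +kernel

theorem l43 : (nat_lit 1152) + L43.length = (nat_lit 1164) := by decide +kernel

/-- part of the certificates -/
def L44 : List Prf := [(.br (nat_lit 14) (nat_lit 0) (.cons (.br (nat_lit 15) (nat_lit 0) (.cons (.ev (nat_lit 5379219549782129894291324338206018059) (nat_lit 4)) (.cons (.rf (nat_lit 43) (nat_lit 631047566514006209)) .nil))) .nil)),
 (.br (nat_lit 15) (nat_lit 0) (.cons (.ev (nat_lit 20282409608374109245885927981313) (nat_lit 1)) (.cons (.ev (nat_lit 20282720302309677867618602647808) (nat_lit 1)) (.cons (.kr (nat_lit 10425158536276977044652965165531137) (nat_lit 2658456150026161496702773276822208512) (nat_lit 0) (nat_lit 1)) .nil)))),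
 (.br (nat_lit 15) (nat_lit 0) (.cons (.ev (nat_lit 20282409608374109245885927981313) (nat_lit 1)) (.cons (.ev (nat_lit 20282720297605758127718877167873) (nat_lit 1)) (.cons (.rf (nat_lit 1165) (nat_lit 677582165103132179601393696)) (.cons (.rf (nat_lit 1165) (nat_lit 640105464695078675185502240)) .nil))))),
 (.br (nat_lit 14) (nat_lit 0) (.cons (.br (nat_lit 15) (nat_lit 0) (.cons (.ev (nat_lit 2668840585286906142022581307016610307) (nat_lit 2)) (.cons (.rf (nat_lit 58) (nat_lit 631047532930181319)) .nil))) .nil)),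
 (.br (nat_lit 15) (nat_lit 0) (.cons (.zr (nat_lit 5212658496301030456780193133495042) (nat_lit 1329227996095609808617105827194798080) (nat_lit 8) (nat_lit 1)) .nil)),
 (.br (nat_lit 13) (nat_lit 0) (.cons (.ev (nat_lit 40723896924943964670533157519363) (nat_lit 2)) (.cons (.br (nat_lit 14) (nat_lit 0) (.cons (.rf (nat_lit 1167) (nat_lit 583706118939841765935136)) (.cons (.br (nat_lit 14) (nat_lit 0) (.cons (.rf (nat_lit 1167) (nat_lit 583706118939841765935136)) (.cons (.br (nat_lit 15) (nat_lit 0) (.cons (.rf (nat_lit 1168) (nat_lit 677582165103132179601393696)) (.cons (.rf (nat_lit 1168) (nat_lit 640105464695078675185502240)) .nil))) .nil))) .nil))) .nil))),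
 (.br (nat_lit 14) (nat_lit 0) (.cons (.ev (nat_lit 10425476686871906722562410413426179) (nat_lit 3)) (.cons (.br (nat_lit 15) (nat_lit 0) (.cons (.ev (nat_lit 1334420372182311872804118821521654017) (nat_lit 1)) (.cons (.rf (nat_lit 11) (nat_lit 631047566484642854)) .nil))) .nil))),
 (.br (nat_lit 15) (nat_lit 0) (.cons (.ev (nat_lit 18619617261700084881273991837496901647) (nat_lit 4)) .nil)),
 (.br (nat_lit 13) (nat_lit 0) (.cons (.rf (nat_lit 1170) (nat_lit 583706118939841765935136)) (.cons (.br (nat_lit 14) (nat_lit 0) (.cons (.rf (nat_lit 1170) (nat_lit 582562272188625733191716)) (.cons (.br (nat_lit 16) (nat_lit 0) (.cons (.ev (nat_lit 1361160743476280175341122783677363127811) (nat_lit 3)) (.cons (.rf (nat_lit 70) (nat_lit 629954687384201415)) .nil))) (.cons (.br (nat_lit 15) (nat_lit 0) (.cons (.rf (nat_lit 1171) (nat_lit 677582165103132179601393696)) (.cons (.rf (nat_lit 1171) (nat_lit 640104320848327459152758820)) .nil))) .nil)))) .nil))),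
 (.br (nat_lit 14) (nat_lit 0) (.cons (.ev (nat_lit 2658456468798139520100564087070786567) (nat_lit 3)) (.cons (.br (nat_lit 16) (nat_lit 0) (.cons (.ev (nat_lit 680564774407317526842185210209606173187) (nat_lit 2)) (.cons (.ev (nat_lit 680575118435594001322964182049992344067) (nat_lit 2)) .nil))) .nil))),
 (.br (nat_lit 13) (nat_lit 0) (.cons (.rf (nat_lit 1172) (nat_lit 583706118939841765935136)) (.cons (.br (nat_lit 14) (nat_lit 0) (.cons (.ev (nat_lit 2658456468798139520100564087070786567) (nat_lit 3)) (.cons (.rf (nat_lit 1173) (nat_lit 19926519232773908561233952)) (.cons (.br (nat_lit 14) (nat_lit 0) (.cons (.ev (nat_lit 2658456468798139520100564087070786567) (nat_lit 3)) (.cons (.rf (nat_lit 1173) (nat_lit 19926519232773908561233952)) .nil))) .nil)))) .nil))),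
 (.br (nat_lit 14) (nat_lit 0) (.cons (.rf (nat_lit 1174) (nat_lit 582562272188625733191716)) (.cons (.kr (nat_lit 20282719088661492050490952777728) (nat_lit 5192296859743753520202719541854208) (nat_lit 6) (nat_lit 0)) .nil))),
 (.br (nat_lit 7) (nat_lit 0) (.cons (.ev (nat_lit 4740957906193797480963) (nat_lit 2)) (.cons (.ev (nat_lit 79228162532783420736268206336) (nat_lit 1)) (.cons (.br (nat_lit 11) (nat_lit 0) (.cons (.ev (nat_lit 79538861172271781264912089345) (nat_lit 1)) (.cons (.br (nat_lit 12) (nat_lit 0) (.cons (.zr (nat_lit 316912654834764066577362978307) (nat_lit 621387871426597533828907008) (nat_lit 16) (nat_lit 1)) (.cons (.br (nat_lit 13) (nat_lit 0) (.cons (.ev (nat_lit 243706458958080368872901094802947) (nat_lit 4)) (.cons (.br (nat_lit 14) (nat_lit 0) (.cons (.rf (nat_lit 1164) (nat_lit 583706118939841765935136)) (.cons (.br (nat_lit 14) (nat_lit 0) (.cons (.rf (nat_lit 1164) (nat_lit 583706118939841765935136)) (.cons (.rf (nat_lit 1166) (nat_lit 677582165103132179601393696)) .nil))) .nil))) .nil))) .nil)))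 (.cons (.br (nat_lit 12) (nat_lit 0) (.cons (.rf (nat_lit 1169) (nat_lit 17022140995484340291616)) (.cons (.rf (nat_lit 1169) (nat_lit 15878294244268307548196)) (.cons (.br (nat_lit 13) (nat_lit 0) (.cons (.rf (nat_lit 1172) (nat_lit 583706118939841765935136)) (.cons (.rf (nat_lit 1174) (nat_lit 583706118939841765935136)) (.cons (.br (nat_lit 13) (nat_lit 0) (.cons (.rf (nat_lit 1172) (nat_lit 583706118939841765935136)) (.cons (.rf (nat_lit 1174) (nat_lit 583706118939841765935136)) (.cons (.br (nat_lit 14) (nat_lit 0) (.cons (.rf (nat_lit 1174) (nat_lit 582562272188625733191716)) (.cons (.rf (nat_lit 1175) (nat_lit 677582165103132179601393696)) (.cons (.rf (nat_lit 1175) (nat_lit 640105464695078675185502240)) .nil)))) .nil)))) .nil)))) .nil)))) .nil)))) .nil)))),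
 (.br (nat_lit 14) (nat_lit 0) (.cons (.br (nat_lit 15) (nat_lit 0) (.cons (.ev (nat_lit 2668840585286906142022581307016610307) (nat_lit 2)) (.cons (.rf (nat_lit 58) (nat_lit 631047532929133767)) .nil))) .nil)),
 (.br (nat_lit 15) (nat_lit 0) (.cons (.ev (nat_lit 1365716289895006856756877005288834822) (nat_lit 3)) .nil)),
 (.br (nat_lit 13) (nat_lit 0) (.cons (.ev (nat_lit 40723896924943964670533157519363) (nat_lit 2)) (.cons (.br (nat_lit 14) (nat_lit 0) (.cons (.rf (nat_lit 1177) (nat_lit 583706118939841765935136)) (.cons (.br (nat_lit 14) (nat_lit 0) (.cons (.rf (nat_lit 1177) (nat_lit 583706118939841765935136)) (.cons (.br (nat_lit 15) (nat_lit 0) (.cons (.rf (nat_lit 1178) (nat_lit 677582165103132179601393696)) (.cons (.rf (nat_lit 1178) (nat_lit 640105464695078675185502240)) .nil))) .nil))) .nil))) .nil))),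
 (.br (nat_lit 14) (nat_lit 0) (.cons (.kr (nat_lit 40564819207321787593067723751425) (nat_lit 10384593717074377623543866615398400) (nat_lit 0) (nat_lit 1)) (.cons (.br (nat_lit 15) (nat_lit 0) (.cons (.ev (nat_lit 1334420372182307168884380025569148928) (nat_lit 1)) (.cons (.rf (nat_lit 11) (nat_lit 631047566517148710)) .nil))) .nil))),
 (.br (nat_lit 15) (nat_lit 0) (.cons (.br (nat_lit 16) (nat_lit 0) (.cons (.ev (nat_lit 1363798348992321128141205907027014321671) (nat_lit 3)) .nil)) .nil)),
 (.br (nat_lit 13) (nat_lit 0) (.cons (.rf (nat_lit 1180) (nat_lit 583706118939841765935136)) (.cons (.br (nat_lit 14) (nat_lit 0) (.cons (.rf (nat_lit 1180) (nat_lit 582562237251610474612772)) (.cons (.kr (nat_lit 40564819207321787593067723751425) (nat_lit 10384593717074377623543866615398400) (nat_lit 0) (nat_lit 1)) (.cons (.br (nat_lit 15) (nat_lit 0) (.cons (.rf (nat_lit 1181) (nat_lit 677582165103132179601393696)) (.cons (.rf (nat_lit 1181) (nat_lit 640104320813390443894179876)) .nil))) .nil)))) .nil))),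
 (.br (nat_lit 14) (nat_lit 0) (.cons (.ev (nat_lit 2663709295043166549369683885623869442) (nat_lit 2)) (.cons (.br (nat_lit 16) (nat_lit 0) (.cons (.ev (nat_lit 680564774407317526842185210209606173187) (nat_lit 2)) (.cons (.ev (nat_lit 680575118435594001322964182049992344067) (nat_lit 2)) .nil))) .nil))),
 (.br (nat_lit 13) (nat_lit 0) (.cons (.rf (nat_lit 1182) (nat_lit 583706118939841765935136)) (.cons (.br (nat_lit 14) (nat_lit 0) (.cons (.br (nat_lit 14) (nat_lit 0) (.cons (.ev (nat_lit 2663709295043166549369683885623869442) (nat_lit 2)) (.cons (.rf (nat_lit 15) (nat_lit 631047566517148710)) .nil))) (.cons (.rf (nat_lit 1183) (nat_lit 19926519232773908561233952)) (.cons (.br (nat_lit 14) (nat_lit 0) (.cons (.rf (nat_lit 15) (nat_lit 631047566517148710)) (.cons (.rf (nat_lit 1183) (nat_lit 19926519232773908561233952)) .nil))) .nil)))) .nil))),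
 (.br (nat_lit 14) (nat_lit 0) (.cons (.rf (nat_lit 1184) (nat_lit 582562237251610474612772)) (.cons (.ev (nat_lit 5253144400471792432575255777772035) (nat_lit 2)) .nil))),
 (.br (nat_lit 7) (nat_lit 0) (.cons (.ev (nat_lit 4740957906193797480963) (nat_lit 2)) (.cons (.ev (nat_lit 79228167236703159532220579841) (nat_lit 1)) (.cons (.br (nat_lit 10) (nat_lit 0) (.cons (.ev (nat_lit 79538856468352042468959584256) (nat_lit 1)) (.cons (.ev (nat_lit 626228352412904742168298499) (nat_lit 3)) (.cons (.br (nat_lit 12) (nat_lit 0) (.cons (.rf (nat_lit 1179) (nat_lit 17022140995484340291616)) (.cons (.rf (nat_lit 1179) (nat_lit 15878259307253048969252)) (.cons (.br (nat_lit 13) (nat_lit 0) (.cons (.rf (nat_lit 1182) (nat_lit 583706118939841765935136)) (.cons (.rf (nat_lit 1184) (nat_lit 583706118939841765935136)) (.cons (.br (nat_lit 13) (nat_lit 0) (.cons (.rf (nat_lit 1182) (nat_lit 583706118939841765935136)) (.cons (.rf (nat_lit 1184) (nat_lit 583706118939841765935136)) (.cons (.br (nat_lit 14) (nat_lit 0) (.cons (.rf (nat_lit 1184)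 (nat_lit 582562237251610474612772)) (.cons (.rf (nat_lit 1185) (nat_lit 677582165103132179601393696)) (.cons (.rf (nat_lit 1185) (nat_lit 640105464695078675185502240)) .nil)))) .nil)))) .nil)))) .nil)))) .nil)))) .nil)))),
 (.br (nat_lit 13) (nat_lit 0) (.cons (.br (nat_lit 14) (nat_lit 0) (.cons (.ev (nat_lit 5212579577623507567326160503243008) (nat_lit 1)) (.cons (.rf (nat_lit 180) (nat_lit 593855485087750209)) .nil))) .nil)),
 (.br (nat_lit 15) (nat_lit 0) (.cons (.ev (nat_lit 1344865971584512789451660085220803328) (nat_lit 2)) .nil)),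
 (.br (nat_lit 12) (nat_lit 0) (.cons (.br (nat_lit 13) (nat_lit 0) (.cons (.ev (nat_lit 20361638975091754658748770025473) (nat_lit 1)) (.cons (.rf (nat_lit 180) (nat_lit 556664468777604161)) .nil))) .nil)),
 (.br (nat_lit 15) (nat_lit 0) (.cons (.ev (nat_lit 1344865971584512789451660085220803328) (nat_lit 2)) .nil)),
 (.br (nat_lit 12) (nat_lit 0) (.cons (.br (nat_lit 13) (nat_lit 0) (.cons (.ev (nat_lit 5192297169228781788573336952897536) (nat_lit 1)) .nil)) .nil)),
 (.br (nat_lit 12) (nat_lit 0) (.cons (.rf (nat_lit 1191) (nat_lit 17022140995484340291616)) (.cons (.br (nat_lit 12) (nat_lit 0) (.cons (.rf (nat_lit 1191) (nat_lit 17022140995484340291616)) .nil)) .nil))),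
 (.br (nat_lit 13) (nat_lit 0) (.cons (.br (nat_lit 14) (nat_lit 0) (.cons (.zr (nat_lit 18609192416357849252270645866940858369) (nat_lit 243389536631820598893438285513216) (nat_lit 32) (nat_lit 11)) (.cons (.br (nat_lit 15) (nat_lit 0) (.cons (.ev (nat_lit 2668840585908294013159824755253182977) (nat_lit 2)) (.cons (.rf (nat_lit 284) (nat_lit 630975069613656106)) .nil))) .nil))) (.cons (.br (nat_lit 14) (nat_lit 0) (.cons (.br (nat_lit 15) (nat_lit 0) (.cons (.ev (nat_lit 5348147371157594838361061355545691139) (nat_lit 3)) (.cons (.rf (nat_lit 284) (nat_lit 631010252915148839)) .nil))) (.cons (.kr (nat_lit 40564819207321787593067723751425) (nat_lit 10384593717074377623543866615398400) (nat_lit 0) (nat_lit 1)) (.cons (.rf (nat_lit 1192) (nat_lit 20678166659641484973121)) .nil)))) .nil))),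
 (.br (nat_lit 14) (nat_lit 0) (.cons (.ev (nat_lit 34684707019182893328761736607505713683) (nat_lit 5)) (.cons (.br (nat_lit 16) (nat_lit 0) (.cons (.ev (nat_lit 1363787964240147733457420173072060776967) (nat_lit 3)) (.cons (.ev (nat_lit 340287559297025160823786558664382349313) (nat_lit 1)) .nil))) .nil))),
 (.br (nat_lit 13) (nat_lit 0) (.cons (.rf (nat_lit 1193) (nat_lit 583706118939841765935136)) (.cons (.br (nat_lit 14) (nat_lit 0) (.cons (.br (nat_lit 14) (nat_lit 0) (.cons (.ev (nat_lit 34684707019182893328761736607505713683) (nat_lit 5)) (.cons (.rf (nat_lit 284) (nat_lit 631045402894993447)) .nil))) (.cons (.rf (nat_lit 1194) (nat_lit 19926519232773908561233952)) (.cons (.br (nat_lit 14) (nat_lit 0) (.cons (.rf (nat_lit 284) (nat_lit 631045402894993447)) (.cons (.rf (nat_lit 1194) (nat_lit 19926519232773908561233952)) .nil))) .nil)))) .nil))),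
 (.br (nat_lit 15) (nat_lit 0) (.cons (.ev (nat_lit 340287559297025160823786558664382349313) (nat_lit 1)) (.cons (.ev (nat_lit 2668881308562438473892104388640637441) (nat_lit 2)) .nil)))]

theorem c44 : chkAll C T R L44 (nat_lit 1164) = true := by decide +kernel

theorem l44 : (nat_lit 1164) + L44.length = (nat_lit 1197) := by decide +kernel

/-- part of the certificates -/
def L45 : List Prf := [(.br (nat_lit 14) (nat_lit 0) (.cons (.rf (nat_lit 1196) (nat_lit 677582165103132179601393696)) (.cons (.rf (nat_lit 1196) (nat_lit 640105464695078675185502240)) .nil))),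
 (.br (nat_lit 14) (nat_lit 0) (.cons (.rf (nat_lit 1197) (nat_lit 677582165103132179601393696)) (.cons (.br (nat_lit 16) (nat_lit 0) (.cons (.br (nat_lit 15) (nat_lit 0) (.cons (.ev (nat_lit 2668840585908294013159824755253182977) (nat_lit 2)) .nil)) (.cons (.ev (nat_lit 340287559297025160823786558664382349313) (nat_lit 1)) .nil))) .nil))),
 (.br (nat_lit 7) (nat_lit 0) (.cons (.ev (nat_lit 79228167236703160636010397696) (nat_lit 1)) (.cons (.ev (nat_lit 79228162532783421840091578625) (nat_lit 1)) (.cons (.br (nat_lit 10) (nat_lit 0) (.cons (.ev (nat_lit 621392612095149642034053633) (nat_lit 2)) (.cons (.br (nat_lit 11) (nat_lit 0) (.cons (.ev (nat_lit 621392612095147451600601089) (nat_lit 2)) (.cons (.br (nat_lit 13) (nat_lit 0) (.cons (.ev (nat_lit 20282720297605758128822683697153) (nat_lit 1)) (.cons (.br (nat_lit 14) (nat_lit 0) (.cons (.rf (nat_lit 1187) (nat_lit 18240816216870054103072)) (.cons (.br (nat_lit 14) (nat_lit 0) (.cons (.rf (nat_lit 1187) (nat_lit 18240816216870054103072)) (.cons (.br (nat_lit 15) (nat_lit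 0) (.cons (.rf (nat_lit 1188) (nat_lit 677582165103132179601393696)) (.cons (.rf (nat_lit 1188) (nat_lit 640105464695078675185502240)) .nil))) .nil))) .nil))) .nil))) .nil))) (.cons (.br (nat_lit 11) (nat_lit 0) (.cons (.br (nat_lit 13) (nat_lit 0) (.cons (.ev (nat_lit 20282720302309677867618602647808) (nat_lit 1)) (.cons (.br (nat_lit 14) (nat_lit 0) (.cons (.rf (nat_lit 1189) (nat_lit 570025506777189156896)) (.cons (.br (nat_lit 14) (nat_lit 0) (.cons (.rf (nat_lit 1189) (nat_lit 570025506777189156896)) (.cons (.br (nat_lit 15) (nat_lit 0) (.cons (.rf (nat_lit 1190) (nat_lit 677582165103132179601393696)) (.cons (.rf (nat_lit 1190) (nat_lit 640105464695078675185502240)) .nil))) .nil))) .nil))) .nil))) (.cons (.ev (nat_lit 621392612095147451600601089) (nat_lit 2)) (.cons (.br (nat_lit 13) (nat_lit 0) (.cons (.rf (nat_lit 1193) (nat_lit 583706118939841765935136)) (.cons (.rf (nat_lit 1195) (nat_lit 583706118939841765935136)) (.cons (.br (nat_lit 13) (nat_lit 0) (.cons (.rf (nat_lit 1193) (nat_lit 583706118939841765935136))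 (.cons (.rf (nat_lit 1195) (nat_lit 583706118939841765935136)) (.cons (.br (nat_lit 14) (nat_lit 0) (.cons (.rf (nat_lit 1197) (nat_lit 677582165103132179601393696)) (.cons (.rf (nat_lit 1198) (nat_lit 677582165103132179601393696)) (.cons (.rf (nat_lit 1198) (nat_lit 640105464695078675185502240)) .nil)))) .nil)))) .nil)))) .nil)))) .nil)))) .nil)))),
 (.br (nat_lit 15) (nat_lit 0) (.cons (.ev (nat_lit 1334420371871613233315759396684300288) (nat_lit 1)) (.cons (.rf (nat_lit 170) (nat_lit 596110584512223297)) .nil))),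
 (.br (nat_lit 15) (nat_lit 0) (.cons (.br (nat_lit 16) (nat_lit 0) (.cons (.ev (nat_lit 88137125929169845167433293256217268912384) (nat_lit 2)) .nil)) .nil)),
 (.br (nat_lit 16) (nat_lit 0) (.cons (.ev (nat_lit 680575159159490921525970948579785835011) (nat_lit 2)) .nil)),
 (.br (nat_lit 14) (nat_lit 0) (.cons (.br (nat_lit 15) (nat_lit 0) (.cons (.ev (nat_lit 7975408857062745321030691353499140611) (nat_lit 3)) (.cons (.rf (nat_lit 175) (nat_lit 631013448069907782)) .nil))) (.cons (.br (nat_lit 16) (nat_lit 0) (.cons (.ev (nat_lit 680575159158869533654833705131616371201) (nat_lit 2)) (.cons (.rf (nat_lit 167) (nat_lit 629956850950051905)) .nil))) (.cons (.br (nat_lit 15) (nat_lit 0) (.cons (.rf (nat_lit 1202) (nat_lit 677582165103132179601393696)) (.cons (.br (nat_lit 15) (nat_lit 0) (.cons (.rf (nat_lit 1202) (nat_lit 677582165103132179601393696)) .nil)) .nil))) .nil)))),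
 (.br (nat_lit 14) (nat_lit 0) (.cons (.br (nat_lit 16) (nat_lit 0) (.cons (.ev (nat_lit 2047042348420798012735383059163080950279) (nat_lit 3)) .nil)) .nil)),
 (.br (nat_lit 14) (nat_lit 0) (.cons (.ev (nat_lit 1334440654282439996279935256445845504) (nat_lit 2)) (.cons (.br (nat_lit 15) (nat_lit 0) (.cons (.ev (nat_lit 340282367000477324635718445191206535168) (nat_lit 1)) .nil)) .nil))),
 (.br (nat_lit 14) (nat_lit 0) (.cons (.rf (nat_lit 1205) (nat_lit 21174442659472880612543553)) (.cons (.br (nat_lit 17) (nat_lit 0) (.cons (.ev (nat_lit 87112285952121884417512273087115923816448) (nat_lit 1)) (.cons (.rf (nat_lit 1166) (nat_lit 636482228976159924636715040)) .nil))) .nil))),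
 (.br (nat_lit 14) (nat_lit 0) (.cons (.rf (nat_lit 1205) (nat_lit 21174442659472880612543553)) (.cons (.br (nat_lit 15) (nat_lit 0) (.cons (.rf (nat_lit 1205) (nat_lit 21098958578078928438563905)) (.cons (.ev (nat_lit 87112285952121884417512273087115923816448) (nat_lit 1)) .nil))) .nil))),
 (.br (nat_lit 13) (nat_lit 0) (.cons (.ev (nat_lit 621392612095147451600601089) (nat_lit 2)) (.cons (.kr (nat_lit 40564819212025707330768442753025) (nat_lit 158456325046975420360325857280) (nat_lit 0) (nat_lit 1)) (.cons (.ev (nat_lit 20282409608374109246989717799168) (nat_lit 1)) (.cons (.br (nat_lit 11) (nat_lit 0) (.cons (.rf (nat_lit 1199) (nat_lit 14059403862834579492)) (.cons (.br (nat_lit 14) (nat_lit 0) (.cons (.kr (nat_lit 10384593717069673703805070662959105) (nat_lit 158456329750895159156261519360) (nat_lit 0) (nat_lit 1)) (.cons (.ev (nat_lit 10425158536281699555815080991916033) (nat_lit 2)) (.cons (.br (nat_lit 12) (nat_lit 0) (.cons (.rf (nat_lit 1200) (nat_lit 19926519232773908561233952)) (.cons (.rf (nat_lit 1200) (nat_lit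 18754228611952651297458208)) (.cons (.br (nat_lit 15) (nat_lit 0) (.cons (.rf (nat_lit 1201) (nat_lit 677582165103132179601393696)) (.cons (.br (nat_lit 15) (nat_lit 0) (.cons (.rf (nat_lit 1201) (nat_lit 677582165103132179601393696)) .nil)) .nil))) .nil)))) .nil)))) (.cons (.ev (nat_lit 20282720297605758128822666985728) (nat_lit 1)) (.cons (.br (nat_lit 12) (nat_lit 0) (.cons (.rf (nat_lit 1203) (nat_lit 19926519232773908561233952)) (.cons (.br (nat_lit 15) (nat_lit 0) (.cons (.ev (nat_lit 2658456150026161515294197691879391747) (nat_lit 2)) (.cons (.ev (nat_lit 2658456150647549386431436759249322497) (nat_lit 2)) (.cons (.br (nat_lit 14) (nat_lit 0) (.cons (.rf (nat_lit 1204) (nat_lit 677582165103132179601393696)) (.cons (.br (nat_lit 14) (nat_lit 0) (.cons (.rf (nat_lit 1204) (nat_lit 677582165103132179601393696)) .nil)) .nil))) .nil)))) (.cons (.rf (nat_lit 1203) (nat_lit 17511028628167438993885220)) (.cons (.br (nat_lit 14) (nat_lit 0) (.cons (.rf (nat_lit 1206) (nat_lit 677582165103132179601393696)) (.cons (.rf (nat_lit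 1207) (nat_lit 677582165103132179601393696)) (.cons (.br (nat_lit 14) (nat_lit 0) (.cons (.rf (nat_lit 1206) (nat_lit 677582165103132179601393696)) (.cons (.rf (nat_lit 1207) (nat_lit 677582165103132179601393696)) .nil))) .nil)))) .nil))))) .nil))))) .nil))))),
 (.br (nat_lit 13) (nat_lit 0) (.cons (.br (nat_lit 15) (nat_lit 0) (.cons (.kr (nat_lit 40564819212025707331863659413505) (nat_lit 2658455991569831764254358198581985280) (nat_lit 0) (nat_lit 1)) (.cons (.rf (nat_lit 239) (nat_lit 631046501332752609)) .nil))) .nil)),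
 (.br (nat_lit 15) (nat_lit 0) (.cons (.ev (nat_lit 2679347192233575712108561140174290947) (nat_lit 3)) .nil)),
 (.br (nat_lit 13) (nat_lit 0) (.cons (.br (nat_lit 15) (nat_lit 0) (.cons (.ev (nat_lit 2668881308562438473892104388640637441) (nat_lit 2)) (.cons (.rf (nat_lit 167) (nat_lit 631046501332884545)) .nil))) (.cons (.br (nat_lit 16) (nat_lit 0) (.cons (.ev (nat_lit 4764025910496335269312422634451576294405) (nat_lit 4)) (.cons (.rf (nat_lit 175) (nat_lit 629853464376313159)) .nil))) (.cons (.br (nat_lit 15) (nat_lit 0) (.cons (.br (nat_lit 15) (nat_lit 0) (.cons (.ev (nat_lit 2668881309183826345029347836810101251) (nat_lit 2)) .nil)) (.cons (.br (nat_lit 15) (nat_lit 0) (.cons (.ev (nat_lit 2668881309183826345029347836810101251) (nat_lit 2)) .nil)) .nil))) .nil)))),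
 (.br (nat_lit 13) (nat_lit 0) (.cons (.br (nat_lit 15) (nat_lit 0) (.cons (.zr (nat_lit 174224571946076250722370155507466912268800) (nat_lit 2041766893683507183203683545939445809161) (nat_lit 16) (nat_lit 12)) .nil)) .nil)),
 (.br (nat_lit 13) (nat_lit 0) (.cons (.br (nat_lit 15) (nat_lit 0) (.cons (.kr (nat_lit 340287559218106483300824764471798923264) (nat_lit 1329248278195728450465903230744264704) (nat_lit 6) (nat_lit 0)) (.cons (.rf (nat_lit 788) (nat_lit 20678129570943108980778)) .nil))) (.cons (.br (nat_lit 15) (nat_lit 0) (.cons (.rf (nat_lit 788) (nat_lit 20675895788656983614503)) (.cons (.kr (nat_lit 40564819212025707331863659413505) (nat_lit 2658455991569831764254358198581985280) (nat_lit 0) (nat_lit 1)) .nil))) .nil))),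
 (.br (nat_lit 13) (nat_lit 0) (.cons (.rf (nat_lit 1213) (nat_lit 677582165103132179601393696)) (.cons (.br (nat_lit 16) (nat_lit 0) (.cons (.br (nat_lit 15) (nat_lit 0) (.cons (.ev (nat_lit 7975408540154930893176594998352937987) (nat_lit 3)) .nil)) (.cons (.ev (nat_lit 87112291124136333343984311453765259559168) (nat_lit 1)) .nil))) .nil))),
 (.br (nat_lit 11) (nat_lit 0) (.cons (.rf (nat_lit 1199) (nat_lit 14059403862834579492)) (.cons (.ev (nat_lit 313111824246582425516376577) (nat_lit 2)) (.cons (.ev (nat_lit 621392612095147451600601089) (nat_lit 2)) (.cons (.br (nat_lit 14) (nat_lit 0) (.cons (.br (nat_lit 13) (nat_lit 0) (.cons (.rf (nat_lit 1209) (nat_lit 583706118939841765935136)) (.cons (.br (nat_lit 13) (nat_lit 0) (.cons (.rf (nat_lit 1209) (nat_lit 583706118939841765935136)) (.cons (.br (nat_lit 15) (nat_lit 0) (.cons (.rf (nat_lit 1210) (nat_lit 677582165103132179601393696)) (.cons (.rf (nat_lit 1210) (nat_lit 640105464695078675185502240)) .nil))) .nil))) .nil))) (.cons (.ev (nat_lit 5192296858534846147613639053410304)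 (nat_lit 1)) (.cons (.ev (nat_lit 5192297169228781716235371761631233) (nat_lit 1)) (.cons (.br (nat_lit 12) (nat_lit 0) (.cons (.rf (nat_lit 1211) (nat_lit 19926519232773908561233952)) (.cons (.rf (nat_lit 1211) (nat_lit 19851034972468627776899108)) (.cons (.br (nat_lit 16) (nat_lit 0) (.cons (.ev (nat_lit 680564734000333256696235798434855125507) (nat_lit 2)) (.cons (.ev (nat_lit 680564734000954644567373037502225056257) (nat_lit 2)) (.cons (.br (nat_lit 13) (nat_lit 0) (.cons (.rf (nat_lit 1212) (nat_lit 677582165103132179601393696)) (.cons (.br (nat_lit 13) (nat_lit 0) (.cons (.rf (nat_lit 1212) (nat_lit 677582165103132179601393696)) .nil)) .nil))) .nil)))) (.cons (.br (nat_lit 13) (nat_lit 0) (.cons (.rf (nat_lit 1213) (nat_lit 677582165103132179601393696)) (.cons (.rf (nat_lit 1214) (nat_lit 677582165103132179601393696)) (.cons (.br (nat_lit 13) (nat_lit 0) (.cons (.rf (nat_lit 1213) (nat_lit 677582165103132179601393696)) (.cons (.rf (nat_lit 1214) (nat_lit 677582165103132179601393696)) .nil))) .nil)))) .nil))))) .nil)))))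 .nil))))),
 (.br (nat_lit 15) (nat_lit 0) (.cons (.ev (nat_lit 1329227996095609826991511935712755713) (nat_lit 1)) (.cons (.ev (nat_lit 1329248357733375992926273476491214848) (nat_lit 1)) (.cons (.br (nat_lit 16) (nat_lit 0) (.cons (.ev (nat_lit 340282366921249162121382051103119573248) (nat_lit 1)) (.cons (.ev (nat_lit 340282387282886928287316812643931586817) (nat_lit 1)) (.cons (.kr (nat_lit 2658496556389043771514944889003442177) (nat_lit 174224571863678949618294774425425650122752) (nat_lit 0) (nat_lit 1)) .nil)))) .nil)))),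
 (.br (nat_lit 14) (nat_lit 0) (.cons (.ev (nat_lit 1329248357422686761277391643542028288) (nat_lit 1)) (.cons (.br (nat_lit 15) (nat_lit 0) (.cons (.ev (nat_lit 683223189833446763413514735177894593027) (nat_lit 2)) (.cons (.ev (nat_lit 2689609773347269063991699650304541697) (nat_lit 3)) .nil))) .nil))),
 (.br (nat_lit 14) (nat_lit 0) (.cons (.ev (nat_lit 340282387282576234351748190911223365888) (nat_lit 1)) (.cons (.br (nat_lit 15) (nat_lit 0) (.cons (.ev (nat_lit 683223189833446763413514735177894593027) (nat_lit 2)) (.cons (.kr (nat_lit 10384593717069673703806165879619585) (nat_lit 2658455991569836468174096994517647360) (nat_lit 0) (nat_lit 1)) .nil))) .nil))),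
 (.br (nat_lit 14) (nat_lit 0) (.cons (.br (nat_lit 15) (nat_lit 0) (.cons (.kr (nat_lit 10384593717069673703806165879619585) (nat_lit 2658455991569836468174096994517647360) (nat_lit 0) (nat_lit 1)) (.cons (.br (nat_lit 16) (nat_lit 0) (.cons (.ev (nat_lit 683223189834068151284651978626131165697) (nat_lit 2)) .nil)) .nil))) (.cons (.br (nat_lit 15) (nat_lit 0) (.cons (.rf (nat_lit 1216) (nat_lit 561528828194989931063511072)) (.cons (.kr (nat_lit 10384593717069673703806165879619585) (nat_lit 2658455991569836468174096994517647360) (nat_lit 0) (nat_lit 1)) .nil))) .nil))),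
 (.br (nat_lit 14) (nat_lit 0) (.cons (.rf (nat_lit 1219) (nat_lit 677582165103132179601393696)) (.cons (.br (nat_lit 16) (nat_lit 0) (.cons (.rf (nat_lit 1216) (nat_lit 561528828194989931063511072)) (.cons (.ev (nat_lit 349129739695794891081885867406910309139975) (nat_lit 3)) .nil))) .nil))),
 (.br (nat_lit 13) (nat_lit 0) (.cons (.br (nat_lit 14) (nat_lit 0) (.cons (.rf (nat_lit 974) (nat_lit 19458304739753789165607)) (.cons (.br (nat_lit 16) (nat_lit 0) (.cons (.ev (nat_lit 340282387282886923583397072744172552448) (nat_lit 1)) (.cons (.rf (nat_lit 214) (nat_lit 629956850814917697)) .nil))) (.cons (.br (nat_lit 15) (nat_lit 0) (.cons (.rf (nat_lit 1216) (nat_lit 677582165103132179601393696)) (.cons (.br (nat_lit 15) (nat_lit 0) (.cons (.rf (nat_lit 1216) (nat_lit 677582165103132179601393696)) .nil)) .nil))) .nil)))) (.cons (.br (nat_lit 14) (nat_lit 0) (.cons (.ev (nat_lit 1329248357422686761277391643542028288) (nat_lit 1)) (.cons (.rf (nat_lit 1217) (nat_lit 19926519232773908561233952)) (.cons (.br (nat_lit 14) (nat_lit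 0) (.cons (.ev (nat_lit 1329248357422686761277391643542028288) (nat_lit 1)) (.cons (.rf (nat_lit 1217) (nat_lit 19926519232773908561233952)) .nil))) .nil)))) (.cons (.br (nat_lit 14) (nat_lit 0) (.cons (.rf (nat_lit 1218) (nat_lit 19926519232773908561233952)) (.cons (.ev (nat_lit 340282387282576229647828453219111076097) (nat_lit 1)) (.cons (.br (nat_lit 14) (nat_lit 0) (.cons (.rf (nat_lit 1218) (nat_lit 19926519232773908561233952)) (.cons (.ev (nat_lit 340282387282576229647828453219111076097) (nat_lit 1)) .nil))) .nil)))) (.cons (.br (nat_lit 14) (nat_lit 0) (.cons (.rf (nat_lit 1219) (nat_lit 677582165103132179601393696)) (.cons (.rf (nat_lit 1220) (nat_lit 677582165103132179601393696)) (.cons (.br (nat_lit 14) (nat_lit 0) (.cons (.rf (nat_lit 1219) (nat_lit 677582165103132179601393696)) (.cons (.rf (nat_lit 1220) (nat_lit 677582165103132179601393696)) .nil))) .nil)))) .nil)))))]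

theorem c45 : chkAll C T R L45 (nat_lit 1197) = true := by decide +kernel

theorem l45 : (nat_lit 1197) + L45.length = (nat_lit 1222) := by decide +kernel

/-- part of the certificates -/
def L46 : List Prf := [(.br (nat_lit 14) (nat_lit 0) (.cons (.kr (nat_lit 10384593717069673703806165879619585) (nat_lit 2658455991569836468174096994517647360) (nat_lit 0) (nat_lit 1)) (.cons (.ev (nat_lit 10425159157669570693056338728190467) (nat_lit 2)) (.cons (.br (nat_lit 15) (nat_lit 0) (.cons (.br (nat_lit 16) (nat_lit 0) (.cons (.ev (nat_lit 691209105613761942748317859282619599365) (nat_lit 4)) .nil)) (.cons (.zr (nat_lit 174224571944808588032975243097522479038464) (nat_lit 2668840585291741826997846875715011075) (nat_lit 16) (nat_lit 6)) .nil))) .nil)))),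
 (.br (nat_lit 14) (nat_lit 0) (.cons (.ev (nat_lit 10425159157669570693056338728190467) (nat_lit 2)) (.cons (.kr (nat_lit 40564819212025707331863659413505) (nat_lit 680564733841876926945195958941557719040) (nat_lit 0) (nat_lit 1)) (.cons (.br (nat_lit 16) (nat_lit 0) (.cons (.br (nat_lit 15) (nat_lit 0) (.cons (.ev (nat_lit 1369115301382445061705272927041253278725) (nat_lit 3)) .nil)) (.cons (.ev (nat_lit 174905167832748528823610583201134464467971) (nat_lit 3)) .nil))) .nil)))),
 (.br (nat_lit 13) (nat_lit 0) (.cons (.rf (nat_lit 1222) (nat_lit 677582165103132179601393696)) (.cons (.rf (nat_lit 1223) (nat_lit 677582165103132179601393696)) (.cons (.br (nat_lit 14) (nat_lit 0) (.cons (.rf (nat_lit 1223) (nat_lit 676409874482310922337617952)) (.cons (.rf (nat_lit 1222) (nat_lit 676409874482310922337617952)) (.cons (.ev (nat_lit 174224571863678949623017285588636642968067) (nat_lit 2)) .nil)))) .nil)))),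
 (.br (nat_lit 16) (nat_lit 0) (.cons (.ev (nat_lit 683223189833446763413514735177894593027) (nat_lit 2)) (.cons (.ev (nat_lit 700301163046581195854429418486628981277189) (nat_lit 4)) .nil))),
 (.br (nat_lit 15) (nat_lit 0) (.cons (.br (nat_lit 14) (nat_lit 0) (.cons (.ev (nat_lit 10425158536281699555817271425368577) (nat_lit 2)) (.cons (.rf (nat_lit 1225) (nat_lit 677582165103132179601393696)) .nil))) (.cons (.kr (nat_lit 40564819212025707331863659413505) (nat_lit 680564733841876926945195958941557719040) (nat_lit 0) (nat_lit 1)) (.cons (.br (nat_lit 16) (nat_lit 0) (.cons (.br (nat_lit 14) (nat_lit 0) (.cons (.ev (nat_lit 2689609773347269063991699650304541697) (nat_lit 3)) .nil)) (.cons (.ev (nat_lit 683223189834068151284651978626131165697) (nat_lit 2)) .nil))) .nil)))),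
 (.br (nat_lit 13) (nat_lit 0) (.cons (.rf (nat_lit 1224) (nat_lit 677582165103132179601393696)) (.cons (.rf (nat_lit 1226) (nat_lit 677582165103132179601393696)) (.cons (.br (nat_lit 15) (nat_lit 0) (.cons (.rf (nat_lit 1226) (nat_lit 675091190421776090548832292)) (.cons (.rf (nat_lit 1224) (nat_lit 675091190421776090548832292)) (.cons (.ev (nat_lit 7975489986084607759276019939757130245) (nat_lit 3)) .nil)))) .nil)))),
 (.br (nat_lit 13) (nat_lit 0) (.cons (.rf (nat_lit 1224) (nat_lit 677582165103132179601393696)) (.cons (.rf (nat_lit 1227) (nat_lit 677582165103132179601393696)) (.cons (.br (nat_lit 14) (nat_lit 0) (.cons (.rf (nat_lit 1225) (nat_lit 676409874482310922337617952)) (.cons (.rf (nat_lit 1227) (nat_lit 676409874482310922337617952)) (.cons (.ev (nat_lit 174224571863678949623017285588636642968067) (nat_lit 2)) .nil)))) .nil)))),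
 (.br (nat_lit 14) (nat_lit 0) (.cons (.br (nat_lit 15) (nat_lit 0) (.cons (.ev (nat_lit 2668840585597595336922655329615937792) (nat_lit 2)) (.cons (.rf (nat_lit 43) (nat_lit 631047566509022401)) .nil))) .nil)),
 (.br (nat_lit 14) (nat_lit 0) (.cons (.ev (nat_lit 5253382083736187037507945318449152) (nat_lit 2)) .nil)),
 (.br (nat_lit 14) (nat_lit 0) (.cons (.rf (nat_lit 1230) (nat_lit 19926519232773908561233952)) (.cons (.rf (nat_lit 1230) (nat_lit 18755372345022236548237344)) .nil))),
 (.br (nat_lit 14) (nat_lit 0) (.cons (.ev (nat_lit 5212658497509919454964264648835328) (nat_lit 1)) .nil)),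
 (.br (nat_lit 14) (nat_lit 0) (.cons (.kr (nat_lit 10384593717074396070289039836577793) (nat_lit 159075295048171928274491015168) (nat_lit 0) (nat_lit 1)) (.cons (.br (nat_lit 13) (nat_lit 0) (.cons (.br (nat_lit 15) (nat_lit 0) (.cons (.ev (nat_lit 1334440575054268018835884555662065665) (nat_lit 1)) (.cons (.rf (nat_lit 11) (nat_lit 596110584411654182)) .nil))) (.cons (.br (nat_lit 15) (nat_lit 0) (.cons (.ev (nat_lit 680575118436215389194101423307795464193) (nat_lit 2)) (.cons (.br (nat_lit 15) (nat_lit 0) (.cons (.ev (nat_lit 680575118436215389194101423307795464193) (nat_lit 2)) .nil)) .nil))) (.cons (.br (nat_lit 15) (nat_lit 0) (.cons (.rf (nat_lit 1232) (nat_lit 21174442659472845144426528)) (.cons (.br (nat_lit 15) (nat_lit 0) (.cons (.ev (nat_lit 1334440575362539362096164170935304448) (nat_lit 1)) .nil)) .nil))) .nil)))) .nil))),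
 (.br (nat_lit 14) (nat_lit 0) (.cons (.ev (nat_lit 1334440575362544102909392209489953025) (nat_lit 1)) (.cons (.br (nat_lit 15) (nat_lit 0) (.cons (.ev (nat_lit 4096680886150126665160036927984642295297) (nat_lit 4)) (.cons (.ev (nat_lit 1344825248619688615445762523556610563) (nat_lit 2)) .nil))) .nil))),
 (.br (nat_lit 13) (nat_lit 0) (.cons (.rf (nat_lit 1233) (nat_lit 583706118939841765935136)) (.cons (.br (nat_lit 14) (nat_lit 0) (.cons (.rf (nat_lit 553) (nat_lit 19886454016889923298139203)) (.cons (.rf (nat_lit 1234) (nat_lit 19926519232773908561233952)) (.cons (.br (nat_lit 14) (nat_lit 0) (.cons (.rf (nat_lit 11) (nat_lit 631011351210568742)) (.cons (.rf (nat_lit 1234) (nat_lit 19926519232773908561233952)) .nil))) .nil)))) .nil))),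
 (.br (nat_lit 15) (nat_lit 0) (.cons (.ev (nat_lit 680575118435594001322964184240459219457) (nat_lit 2)) (.cons (.ev (nat_lit 1334440575054263278022658707540738048) (nat_lit 1)) .nil))),
 (.br (nat_lit 14) (nat_lit 0) (.cons (.rf (nat_lit 1236) (nat_lit 677582165103132179601393696)) (.cons (.rf (nat_lit 1236) (nat_lit 640105464695078675185502240)) .nil))),
 (.br (nat_lit 14) (nat_lit 0) (.cons (.rf (nat_lit 1237) (nat_lit 677582165103132179601393696)) (.cons (.br (nat_lit 16) (nat_lit 0) (.cons (.br (nat_lit 15) (nat_lit 0) (.cons (.ev (nat_lit 2679266062597578919740260923642086401) (nat_lit 3)) .nil)) (.cons (.ev (nat_lit 680575118435594001322964184240459219457) (nat_lit 2)) .nil))) .nil))),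
 (.br (nat_lit 12) (nat_lit 0) (.cons (.ev (nat_lit 621392612095147451600601089) (nat_lit 2)) (.cons (.ev (nat_lit 79229371440084233702007177216) (nat_lit 1)) (.cons (.br (nat_lit 11) (nat_lit 0) (.cons (.br (nat_lit 13) (nat_lit 0) (.cons (.ev (nat_lit 40723275537072827429275421508097) (nat_lit 2)) (.cons (.br (nat_lit 14) (nat_lit 0) (.cons (.rf (nat_lit 1229) (nat_lit 583706118939841765935136)) (.cons (.br (nat_lit 14) (nat_lit 0) (.cons (.rf (nat_lit 1229) (nat_lit 583706118939841765935136)) (.cons (.rf (nat_lit 1231) (nat_lit 21174442659472845144426528)) .nil))) .nil))) .nil))) (.cons (.ev (nat_lit 79537652264970967203956392193) (nat_lit 1)) (.cons (.br (nat_lit 13) (nat_lit 0) (.cons (.rf (nat_lit 1233) (nat_lit 583706118939841765935136)) (.cons (.rf (nat_lit 1235) (nat_lit 583706118939841765935136)) (.cons (.br (nat_lit 13) (nat_lit 0) (.cons (.rf (nat_lit 1233) (nat_lit 583706118939841765935136)) (.cons (.rf (nat_lit 1235) (nat_lit 583706118939841765935136)) (.cons (.br (nat_lit 14) (nat_lit 0) (.cons (.rf (nat_lit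 1237) (nat_lit 677582165103132179601393696)) (.cons (.rf (nat_lit 1238) (nat_lit 677582165103132179601393696)) (.cons (.rf (nat_lit 1238) (nat_lit 640105464695078675185502240)) .nil)))) .nil)))) .nil)))) .nil)))) .nil)))),
 (.br (nat_lit 16) (nat_lit 0) (.cons (.ev (nat_lit 340287579500516091693380191485761224705) (nat_lit 1)) .nil)),
 (.br (nat_lit 15) (nat_lit 0) (.cons (.rf (nat_lit 1240) (nat_lit 677582165103132179601393696)) (.cons (.br (nat_lit 15) (nat_lit 0) (.cons (.rf (nat_lit 1240) (nat_lit 677582165103132179601393696)) .nil)) .nil))),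
 (.br (nat_lit 14) (nat_lit 0) (.cons (.ev (nat_lit 40723275537072827431465854697473) (nat_lit 2)) (.cons (.ev (nat_lit 72693265837573251102049083586642945) (nat_lit 4)) (.cons (.br (nat_lit 13) (nat_lit 0) (.cons (.br (nat_lit 15) (nat_lit 0) (.cons (.ev (nat_lit 2668840585908294013159824755253182977) (nat_lit 2)) (.cons (.rf (nat_lit 20) (nat_lit 631046501232093222)) .nil))) (.cons (.br (nat_lit 15) (nat_lit 0) (.cons (.ev (nat_lit 1361160743160607883064452569881437930497) (nat_lit 3)) (.cons (.br (nat_lit 15) (nat_lit 0) (.cons (.ev (nat_lit 1361160743160607883064452569881437930497) (nat_lit 3)) .nil)) .nil))) (.cons (.rf (nat_lit 1241) (nat_lit 677582165103132179601393696)) .nil)))) .nil)))),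
 (.br (nat_lit 16) (nat_lit 0) (.cons (.ev (nat_lit 2668840585286906142022581307050033153) (nat_lit 2)) (.cons (.ev (nat_lit 340287579500516086952566965637639897088) (nat_lit 1)) .nil))),
 (.br (nat_lit 14) (nat_lit 0) (.cons (.rf (nat_lit 1243) (nat_lit 677582165103132179601393696)) (.cons (.rf (nat_lit 1243) (nat_lit 640105428954512032373244992)) .nil))),
 (.br (nat_lit 14) (nat_lit 0) (.cons (.rf (nat_lit 1244) (nat_lit 677582165103132179601393696)) (.cons (.br (nat_lit 15) (nat_lit 0) (.cons (.ev (nat_lit 340287579500516086952566965637639897088) (nat_lit 1)) (.cons (.ev (nat_lit 87112291124136642833716499000232947745025) (nat_lit 1)) .nil))) .nil))),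
 (.br (nat_lit 12) (nat_lit 0) (.cons (.rf (nat_lit 1242) (nat_lit 583706118939841765935136)) (.cons (.rf (nat_lit 1242) (nat_lit 547107743760586756950048)) (.cons (.br (nat_lit 13) (nat_lit 0) (.cons (.rf (nat_lit 1242) (nat_lit 583670378373198953677888)) (.cons (.rf (nat_lit 1242) (nat_lit 547072003193943944692800)) (.cons (.ev (nat_lit 40723275537072827431465854697473) (nat_lit 2)) (.cons (.br (nat_lit 14) (nat_lit 0) (.cons (.rf (nat_lit 1244) (nat_lit 677582165103132179601393696)) (.cons (.rf (nat_lit 1245) (nat_lit 677582165103132179601393696)) (.cons (.rf (nat_lit 1245) (nat_lit 640105428954512032373244992)) .nil)))) .nil))))) .nil)))),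
 (.br (nat_lit 15) (nat_lit 0) (.cons (.ev (nat_lit 340287559297026374471900599668659257345) (nat_lit 1)) (.cons (.ev (nat_lit 2668881308562438473892104388640637441) (nat_lit 2)) .nil))),
 (.br (nat_lit 15) (nat_lit 0) (.cons (.ev (nat_lit 2668881309183826345029347836843524097) (nat_lit 2)) .nil)),
 (.br (nat_lit 13) (nat_lit 0) (.cons (.ev (nat_lit 72976110377749174787258035489473025) (nat_lit 4)) (.cons (.kr (nat_lit 20282409603651670423947251286272) (nat_lit 79228162514264337593544015872) (nat_lit 1) (nat_lit 0)) (.cons (.br (nat_lit 15) (nat_lit 0) (.cons (.rf (nat_lit 1248) (nat_lit 677582165103132179601393696)) (.cons (.rf (nat_lit 1248) (nat_lit 640105428954512032373244992)) .nil))) .nil)))),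
 (.br (nat_lit 13) (nat_lit 0) (.cons (.ev (nat_lit 72976110377749174787258035489473025) (nat_lit 4)) (.cons (.ev (nat_lit 40723896924943964670533191205377) (nat_lit 2)) (.cons (.br (nat_lit 14) (nat_lit 0) (.cons (.rf (nat_lit 20) (nat_lit 630978264930026822)) (.cons (.br (nat_lit 15) (nat_lit 0) (.cons (.ev (nat_lit 2668840585908294013159824755253182977) (nat_lit 2)) (.cons (.kr (nat_lit 1334420292643450700532337560904531968) (nat_lit 20361637766165934762640306864128) (nat_lit 4) (nat_lit 0)) .nil))) (.cons (.br (nat_lit 15) (nat_lit 0) (.cons (.kr (nat_lit 1334420292643450700532337560904531968) (nat_lit 20361637766165934762640306864128) (nat_lit 4) (nat_lit 0)) (.cons (.ev (nat_lit 2668840585908294013159824755253182977) (nat_lit 2)) .nil))) .nil)))) .nil)))),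
 (.br (nat_lit 13) (nat_lit 0) (.cons (.kr (nat_lit 20282409603651670423947251286272) (nat_lit 79228162514264337593544015872) (nat_lit 1) (nat_lit 0)) (.cons (.ev (nat_lit 40723896924943964670533191205377) (nat_lit 2)) (.cons (.br (nat_lit 14) (nat_lit 0) (.cons (.br (nat_lit 15) (nat_lit 0) (.cons (.ev (nat_lit 1369104836135694074679527619783878247937) (nat_lit 3)) (.cons (.rf (nat_lit 865) (nat_lit 21174370056971598958831685)) .nil))) (.cons (.rf (nat_lit 87) (nat_lit 631046501332753601)) (.cons (.br (nat_lit 16) (nat_lit 0) (.cons (.br (nat_lit 15) (nat_lit 0) (.cons (.ev (nat_lit 1369104876542056956954339792491292786689) (nat_lit 3)) .nil)) (.cons (.ev (nat_lit 87112291124136334552891612266730998530048) (nat_lit 1)) .nil))) .nil)))) .nil)))),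
 (.br (nat_lit 12) (nat_lit 0) (.cons (.rf (nat_lit 1246) (nat_lit 583706118939841765935136)) (.cons (.br (nat_lit 13) (nat_lit 0) (.cons (.ev (nat_lit 72693265837573251102049083586642945) (nat_lit 4)) (.cons (.ev (nat_lit 18609193051423460052815829619880100865) (nat_lit 4)) (.cons (.br (nat_lit 13) (nat_lit 0) (.cons (.ev (nat_lit 72693265837573251102049083586642945) (nat_lit 4)) (.cons (.ev (nat_lit 18609193051423460052815829619880100865) (nat_lit 4)) (.cons (.br (nat_lit 14) (nat_lit 0) (.cons (.ev (nat_lit 2668840585286906142022581307050033153) (nat_lit 2)) (.cons (.rf (nat_lit 1247) (nat_lit 677582165103132179601393696)) (.cons (.rf (nat_lit 1247) (nat_lit 640105464695078675185502240)) .nil)))) .nil)))) .nil)))) (.cons (.br (nat_lit 13) (nat_lit 0) (.cons (.rf (nat_lit 1249) (nat_lit 19926519232773908561233952)) (.cons (.rf (nat_lit 1250) (nat_lit 19926519232773908561233952)) (.cons (.rf (nat_lit 1251) (nat_lit 19926519232773908561233952)) (.cons (.br (nat_lit 13) (nat_lit 0) (.cons (.rf (nat_lit 1249) (nat_lit 19926519232773908561233952))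 (.cons (.rf (nat_lit 1250) (nat_lit 19926519232773908561233952)) (.cons (.rf (nat_lit 1251) (nat_lit 19926519232773908561233952)) .nil)))) .nil))))) .nil))))]

theorem c46 : chkAll C T R L46 (nat_lit 1222) = true := by decide +kernel

theorem l46 : (nat_lit 1222) + L46.length = (nat_lit 1253) := by decide +kernel

/-- part of the certificates -/
def L47 : List Prf := [(.br (nat_lit 13) (nat_lit 0) (.cons (.rf (nat_lit 1252) (nat_lit 583670378373198953677888)) (.cons (.rf (nat_lit 1252) (nat_lit 547072003193943944692800)) (.cons (.kr (nat_lit 20282409603651670423947251286272) (nat_lit 79228162514264337593544015872) (nat_lit 1) (nat_lit 0)) .nil)))),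
 (.br (nat_lit 10) (nat_lit 0) (.cons (.kr (nat_lit 309485009821626543701491712) (nat_lit 1208925891672223212634112) (nat_lit 6) (nat_lit 0)) (.cons (.rf (nat_lit 1239) (nat_lit 493858305440582043680)) (.cons (.rf (nat_lit 1239) (nat_lit 458117738797769786432)) (.cons (.br (nat_lit 11) (nat_lit 0) (.cons (.rf (nat_lit 1239) (nat_lit 493823368425323464736)) (.cons (.rf (nat_lit 1239) (nat_lit 458082801782511207488)) (.cons (.ev (nat_lit 621392612095147451600601089) (nat_lit 2)) (.cons (.br (nat_lit 12) (nat_lit 0) (.cons (.rf (nat_lit 1246) (nat_lit 583706118939841765935136)) (.cons (.rf (nat_lit 1252) (nat_lit 583706118939841765935136)) (.cons (.rf (nat_lit 1252) (nat_lit 547107743760586756950048)) (.cons (.br (nat_lit 12) (nat_lit 0) (.cons (.rf (nat_lit 1246) (nat_lit 583706118939841765935136)) (.cons (.rf (nat_lit 1252) (nat_lit 583706118939841765935136)) (.cons (.rf (nat_lit 1252) (nat_lit 547107743760586756950048)) (.cons (.br (nat_lit 13) (nat_lit 0) (.cons (.rf (nat_lit 1252) (nat_lit 583670378373198953677888)) (.cons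 (.rf (nat_lit 1252) (nat_lit 547072003193943944692800)) (.cons (.rf (nat_lit 1253) (nat_lit 677582165103132179601393696)) (.cons (.rf (nat_lit 1253) (nat_lit 640105464695078675185502240)) .nil))))) .nil))))) .nil))))) .nil))))) .nil))))),
 (.br (nat_lit 14) (nat_lit 0) (.cons (.br (nat_lit 15) (nat_lit 0) (.cons (.ev (nat_lit 10675362345487654075392430594010515979) (nat_lit 4)) (.cons (.rf (nat_lit 43) (nat_lit 631047566508927169)) .nil))) .nil)),
 (.br (nat_lit 15) (nat_lit 0) (.cons (.ev (nat_lit 5379463251891367949972058261756446219) (nat_lit 4)) .nil)),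
 (.br (nat_lit 14) (nat_lit 0) (.cons (.br (nat_lit 15) (nat_lit 0) (.cons (.ev (nat_lit 2668840585286906142022581307016610307) (nat_lit 2)) (.cons (.rf (nat_lit 58) (nat_lit 631047533097953474)) .nil))) .nil)),
 (.br (nat_lit 15) (nat_lit 0) (.cons (.zr (nat_lit 1329228233778888462411934540622725378) (nat_lit 5212579271765256973971113218605056) (nat_lit 8) (nat_lit 1)) .nil)),
 (.br (nat_lit 15) (nat_lit 0) (.cons (.ev (nat_lit 2658496557008013846641983535185920513) (nat_lit 2)) (.cons (.rf (nat_lit 58) (nat_lit 631046434650630347)) .nil))),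
 (.br (nat_lit 15) (nat_lit 0) (.cons (.br (nat_lit 16) (nat_lit 0) (.cons (.ev (nat_lit 4086057284363542655966923596295351304207) (nat_lit 4)) .nil)) .nil)),
 (.br (nat_lit 13) (nat_lit 0) (.cons (.br (nat_lit 14) (nat_lit 0) (.cons (.kr (nat_lit 5212579269347405190626666793140480) (nat_lit 1329228075322563396989771197525852160) (nat_lit 1) (nat_lit 0)) (.cons (.br (nat_lit 15) (nat_lit 0) (.cons (.ev (nat_lit 1334420372181098224690077817211191553) (nat_lit 1)) (.cons (.rf (nat_lit 11) (nat_lit 631047566484801574)) .nil))) .nil))) (.cons (.br (nat_lit 14) (nat_lit 0) (.cons (.br (nat_lit 15) (nat_lit 0) (.cons (.ev (nat_lit 1329248357422686761277391643558871297) (nat_lit 1)) (.cons (.rf (nat_lit 11) (nat_lit 631046501323484198)) .nil))) (.cons (.br (nat_lit 16) (nat_lit 0) (.cons (.ev (nat_lit 4083461217218653743781336871579609465357) (nat_lit 4)) (.cons (.rf (nat_lit 70) (nat_lit 629954687389444290)) .nil))) (.cons (.br (nat_lit 15) (nat_lit 0) (.cons (.rf (nat_lit 1260) (nat_lit 677582165103132179601393696)) (.cons (.br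 (nat_lit 15) (nat_lit 0) (.cons (.rf (nat_lit 1260) (nat_lit 677582165103132179601393696)) .nil)) .nil))) .nil)))) .nil))),
 (.br (nat_lit 16) (nat_lit 0) (.cons (.kr (nat_lit 680564733841876931667562442910714560513) (nat_lit 159075295048171928274491015168) (nat_lit 0) (nat_lit 1)) (.cons (.ev (nat_lit 680564774407315109027583584278161654273) (nat_lit 2)) (.cons (.ev (nat_lit 680575118435594001322964182049992344067) (nat_lit 2)) .nil)))),
 (.br (nat_lit 13) (nat_lit 0) (.cons (.rf (nat_lit 1261) (nat_lit 583706118939841765935136)) (.cons (.br (nat_lit 14) (nat_lit 0) (.cons (.kr (nat_lit 2658455991569836486620842167738826753) (nat_lit 159075295048171928274491015168) (nat_lit 0) (nat_lit 1)) (.cons (.br (nat_lit 14) (nat_lit 0) (.cons (.kr (nat_lit 2658455991569836486620842167738826753) (nat_lit 159075295048171928274491015168) (nat_lit 0) (nat_lit 1)) (.cons (.rf (nat_lit 1262) (nat_lit 677582165103132179601393696)) .nil))) (.cons (.br (nat_lit 14) (nat_lit 0) (.cons (.kr (nat_lit 2658455991569836486620842167738826753) (nat_lit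 159075295048171928274491015168) (nat_lit 0) (nat_lit 1)) (.cons (.rf (nat_lit 1262) (nat_lit 677582165103132179601393696)) .nil))) .nil)))) .nil))),
 (.br (nat_lit 14) (nat_lit 0) (.cons (.rf (nat_lit 1262) (nat_lit 600286470511521826743617568)) (.cons (.rf (nat_lit 1262) (nat_lit 601457617399273498756614176)) .nil))),
 (.br (nat_lit 14) (nat_lit 0) (.cons (.rf (nat_lit 1262) (nat_lit 600286470511521826743617568)) (.cons (.rf (nat_lit 499) (nat_lit 18355028737035848425666)) .nil))),
 (.br (nat_lit 11) (nat_lit 0) (.cons (.ev (nat_lit 79537647524157740260601626881) (nat_lit 1)) (.cons (.br (nat_lit 12) (nat_lit 0) (.cons (.ev (nat_lit 638175020138802839725896499715) (nat_lit 4)) (.cons (.br (nat_lit 13) (nat_lit 0) (.cons (.ev (nat_lit 162894975969126023769998605025803) (nat_lit 4)) (.cons (.br (nat_lit 14) (nat_lit 0) (.cons (.rf (nat_lit 1255) (nat_lit 583706118939841765935136)) (.cons (.br (nat_lit 14) (nat_lit 0) (.cons (.rf (nat_lit 1255) (nat_lit 583706118939841765935136)) (.cons (.br (nat_lit 15) (nat_lit 0) (.cons (.rf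 (nat_lit 1256) (nat_lit 677582165103132179601393696)) (.cons (.rf (nat_lit 1256) (nat_lit 640105464695078675185502240)) .nil))) .nil))) .nil))) .nil))) .nil))) (.cons (.br (nat_lit 12) (nat_lit 0) (.cons (.br (nat_lit 13) (nat_lit 0) (.cons (.ev (nat_lit 40723896924943964670533157519363) (nat_lit 2)) (.cons (.br (nat_lit 14) (nat_lit 0) (.cons (.rf (nat_lit 1257) (nat_lit 583706118939841765935136)) (.cons (.br (nat_lit 14) (nat_lit 0) (.cons (.rf (nat_lit 1257) (nat_lit 583706118939841765935136)) (.cons (.br (nat_lit 15) (nat_lit 0) (.cons (.rf (nat_lit 1258) (nat_lit 677582165103132179601393696)) (.cons (.rf (nat_lit 1258) (nat_lit 640105464695078675185502240)) .nil))) .nil))) .nil))) .nil))) (.cons (.br (nat_lit 13) (nat_lit 0) (.cons (.ev (nat_lit 10384752175817313132244582646546433) (nat_lit 2)) (.cons (.br (nat_lit 13) (nat_lit 0) (.cons (.ev (nat_lit 10384752175817313132244582646546433) (nat_lit 2)) (.cons (.br (nat_lit 14) (nat_lit 0) (.cons (.rf (nat_lit 1259) (nat_lit 19926519232773908561233952)) (.cons (.rf (nat_lit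 1259) (nat_lit 18755372345022236548237344)) (.cons (.br (nat_lit 15) (nat_lit 0) (.cons (.br (nat_lit 15) (nat_lit 0) (.cons (.ev (nat_lit 18619617261700084881273991837496901647) (nat_lit 4)) .nil)) (.cons (.br (nat_lit 15) (nat_lit 0) (.cons (.ev (nat_lit 18619617261700084881273991837496901647) (nat_lit 4)) .nil)) .nil))) .nil)))) .nil))) .nil))) (.cons (.br (nat_lit 13) (nat_lit 0) (.cons (.rf (nat_lit 1261) (nat_lit 583706118939841765935136)) (.cons (.rf (nat_lit 1263) (nat_lit 583706118939841765935136)) (.cons (.br (nat_lit 13) (nat_lit 0) (.cons (.rf (nat_lit 1261) (nat_lit 583706118939841765935136)) (.cons (.rf (nat_lit 1263) (nat_lit 583706118939841765935136)) (.cons (.br (nat_lit 14) (nat_lit 0) (.cons (.rf (nat_lit 1264) (nat_lit 677582165103132179601393696)) (.cons (.rf (nat_lit 1265) (nat_lit 677582165103132179601393696)) (.cons (.rf (nat_lit 1265) (nat_lit 640105464695078675185502240)) .nil)))) .nil)))) .nil)))) .nil)))) .nil)))),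
 (.br (nat_lit 14) (nat_lit 0) (.cons (.ev (nat_lit 5212658497509919454964264632123393) (nat_lit 1)) (.cons (.rf (nat_lit 11) (nat_lit 593855418475021542)) .nil))),
 (.br (nat_lit 15) (nat_lit 0) (.cons (.ev (nat_lit 2658496557008013846641983535185920513) (nat_lit 2)) (.cons (.br (nat_lit 16) (nat_lit 0) (.cons (.ev (nat_lit 680564734000952226752771411570747113473) (nat_lit 2)) (.cons (.ev (nat_lit 350498813296545666910984402227224073865739) (nat_lit 4)) .nil))) .nil))),
 (.br (nat_lit 12) (nat_lit 0) (.cons (.ev (nat_lit 10384752175817313132244582646546433) (nat_lit 2)) (.cons (.br (nat_lit 13) (nat_lit 0) (.cons (.ev (nat_lit 10425158538699587944417290061087233) (nat_lit 2)) (.cons (.br (nat_lit 14) (nat_lit 0) (.cons (.ev (nat_lit 20891357886964658535589400889525255) (nat_lit 3)) (.cons (.br (nat_lit 15) (nat_lit 0) (.cons (.ev (nat_lit 5337721894475563486411771478829694983) (nat_lit 3)) (.cons (.rf (nat_lit 70) (nat_lit 631047566216374465)) .nil))) .nil))) (.cons (.br (nat_lit 14) (nat_lit 0) (.cons (.rf (nat_lit 1267)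 (nat_lit 622703726024149174421536)) (.cons (.rf (nat_lit 1267) (nat_lit 586104268889201836131392)) (.cons (.br (nat_lit 15) (nat_lit 0) (.cons (.rf (nat_lit 1268) (nat_lit 677582165103132179601393696)) (.cons (.br (nat_lit 15) (nat_lit 0) (.cons (.rf (nat_lit 1268) (nat_lit 677582165103132179601393696)) .nil)) .nil))) .nil)))) .nil)))) .nil))),
 (.br (nat_lit 13) (nat_lit 0) (.cons (.br (nat_lit 15) (nat_lit 0) (.cons (.ev (nat_lit 2658496557008013846641983535185920513) (nat_lit 2)) (.cons (.rf (nat_lit 58) (nat_lit 631046501357037761)) .nil))) .nil)),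
 (.br (nat_lit 15) (nat_lit 0) (.cons (.zr (nat_lit 101808188840274406775642323419904) (nat_lit 6661716869810877783117925557303836672) (nat_lit 8) (nat_lit 1)) .nil)),
 (.br (nat_lit 12) (nat_lit 0) (.cons (.ev (nat_lit 10384752175817313132244582646546433) (nat_lit 2)) (.cons (.br (nat_lit 13) (nat_lit 0) (.cons (.rf (nat_lit 1270) (nat_lit 583706118939841765935136)) (.cons (.br (nat_lit 13) (nat_lit 0) (.cons (.rf (nat_lit 1270) (nat_lit 583706118939841765935136)) (.cons (.br (nat_lit 15) (nat_lit 0) (.cons (.rf (nat_lit 1271) (nat_lit 677582165103132179601393696)) (.cons (.rf (nat_lit 1271) (nat_lit 640105464695078675185502240)) .nil))) .nil))) .nil))) .nil))),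
 (.br (nat_lit 13) (nat_lit 0) (.cons (.rf (nat_lit 1272) (nat_lit 16986400428841528034368)) (.cons (.kr (nat_lit 20282409603651670423947251286272) (nat_lit 79228162514264337593544015872) (nat_lit 1) (nat_lit 0)) (.cons (.br (nat_lit 15) (nat_lit 0) (.cons (.ev (nat_lit 7985752569664509783747206503416857091) (nat_lit 3)) (.cons (.ev (nat_lit 2658456150645131571829810827771379713) (nat_lit 2)) (.cons (.ev (nat_lit 2658496557008013846641983535185920513) (nat_lit 2)) .nil)))) .nil)))),
 (.br (nat_lit 13) (nat_lit 0) (.cons (.ev (nat_lit 5212658496305716002115079607746817) (nat_lit 1)) (.cons (.br (nat_lit 14) (nat_lit 0) (.cons (.ev (nat_lit 31397332855572840809106733243960321) (nat_lit 4)) (.cons (.br (nat_lit 15) (nat_lit 0) (.cons (.ev (nat_lit 5337721894475563486411771478829694983) (nat_lit 3)) (.cons (.rf (nat_lit 20) (nat_lit 631046501332753446)) .nil))) .nil))) (.cons (.br (nat_lit 14) (nat_lit 0) (.cons (.br (nat_lit 15) (nat_lit 0) (.cons (.ev (nat_lit 10644371613416601719743602644401130501) (nat_lit 4)) (.cons (.rf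 (nat_lit 20) (nat_lit 631047566484801574)) .nil))) (.cons (.br (nat_lit 15) (nat_lit 0) (.cons (.ev (nat_lit 680564774407315109027583584278161654273) (nat_lit 2)) (.cons (.br (nat_lit 15) (nat_lit 0) (.cons (.ev (nat_lit 680564774407315109027583584278161654273) (nat_lit 2)) .nil)) .nil))) (.cons (.br (nat_lit 15) (nat_lit 0) (.cons (.br (nat_lit 15) (nat_lit 0) (.cons (.ev (nat_lit 1334440575362539362096164170918592513) (nat_lit 1)) .nil)) (.cons (.br (nat_lit 15) (nat_lit 0) (.cons (.ev (nat_lit 1334440575362539362096164170918592513) (nat_lit 1)) .nil)) .nil))) .nil)))) .nil)))),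
 (.br (nat_lit 14) (nat_lit 0) (.cons (.ev (nat_lit 680575118436215389194101423307762041347) (nat_lit 2)) (.cons (.br (nat_lit 15) (nat_lit 0) (.cons (.ev (nat_lit 683223189833446763413514735177894593027) (nat_lit 2)) (.cons (.br (nat_lit 16) (nat_lit 0) (.cons (.ev (nat_lit 4086057284363542655966923596295351304207) (nat_lit 4)) .nil)) .nil))) .nil))),
 (.br (nat_lit 15) (nat_lit 0) (.cons (.ev (nat_lit 680564734000952226752771411570747113473) (nat_lit 2)) (.cons (.br (nat_lit 16) (nat_lit 0) (.cons (.ev (nat_lit 5468454968838071687907691359714913027079) (nat_lit 5)) .nil)) .nil))),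
 (.br (nat_lit 14) (nat_lit 0) (.cons (.rf (nat_lit 1276) (nat_lit 677582165103132179601393696)) (.cons (.rf (nat_lit 1276) (nat_lit 640105428954512032373244992)) .nil))),
 (.br (nat_lit 14) (nat_lit 0) (.cons (.rf (nat_lit 1277) (nat_lit 677582165103132179601393696)) (.cons (.br (nat_lit 15) (nat_lit 0) (.cons (.ev (nat_lit 680564734000952226752771411570747113473) (nat_lit 2)) (.cons (.ev (nat_lit 174224571904085931475348633374479949496833) (nat_lit 2)) .nil))) .nil))),
 (.br (nat_lit 12) (nat_lit 0) (.cons (.rf (nat_lit 1274) (nat_lit 583706118939841765935136)) (.cons (.rf (nat_lit 1274) (nat_lit 547107630078955974985764)) (.cons (.br (nat_lit 13) (nat_lit 0) (.cons (.rf (nat_lit 1274) (nat_lit 583670378373198953677888)) (.cons (.rf (nat_lit 1274) (nat_lit 547071889512313162728516)) (.cons (.br (nat_lit 14) (nat_lit 0) (.cons (.rf (nat_lit 1275) (nat_lit 19926519232773908561233952)) (.cons (.br (nat_lit 14) (nat_lit 0) (.cons (.ev (nat_lit 680575118436215389194101423307762041347) (nat_lit 2)) (.cons (.rf (nat_lit 87) (nat_lit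 631047566216374465)) .nil))) (.cons (.br (nat_lit 14) (nat_lit 0) (.cons (.rf (nat_lit 1275) (nat_lit 19926519232773908561233952)) (.cons (.rf (nat_lit 87) (nat_lit 631047566216374465)) .nil))) .nil)))) (.cons (.br (nat_lit 14) (nat_lit 0) (.cons (.rf (nat_lit 1277) (nat_lit 677582165103132179601393696)) (.cons (.rf (nat_lit 1278) (nat_lit 677582165103132179601393696)) (.cons (.rf (nat_lit 1278) (nat_lit 640105428954512032373244992)) .nil)))) .nil))))) .nil))))]

theorem c47 : chkAll C T R L47 (nat_lit 1253) = true := by decide +kernel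

theorem l47 : (nat_lit 1253) + L47.length = (nat_lit 1280) := by decide +kernel

/-- part of the certificates -/
def L48 : List Prf := [(.br (nat_lit 15) (nat_lit 0) (.cons (.kr (nat_lit 5192297168019837450157040030711808) (nat_lit 1329227995786124798795479283492978688) (nat_lit 6) (nat_lit 0)) (.cons (.ev (nat_lit 1334440575362539362096164170918592513) (nat_lit 1)) .nil))),
 (.br (nat_lit 14) (nat_lit 0) (.cons (.ev (nat_lit 5192376397395999972368251455865088) (nat_lit 1)) .nil)),
 (.br (nat_lit 13) (nat_lit 0) (.cons (.ev (nat_lit 51963537751857789424435544923047429) (nat_lit 4)) (.cons (.kr (nat_lit 20282409603651670423947251286272) (nat_lit 79228162514264337593544015872) (nat_lit 1) (nat_lit 0)) (.cons (.br (nat_lit 15) (nat_lit 0) (.cons (.rf (nat_lit 1281) (nat_lit 21174442659472880612542496)) (.cons (.rf (nat_lit 1281) (nat_lit 20003294654828501011661888)) .nil))) .nil)))),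
 (.br (nat_lit 13) (nat_lit 0) (.cons (.ev (nat_lit 51963537751857789424435544923047429) (nat_lit 4)) (.cons (.br (nat_lit 14) (nat_lit 0) (.cons (.ev (nat_lit 8006603202416609421706348417469777411) (nat_lit 3)) (.cons (.ev (nat_lit 680564774407315109027583584278161654273) (nat_lit 2)) (.cons (.br (nat_lit 15) (nat_lit 0) (.cons (.ev (nat_lit 680564734000952226752771411570747113473) (nat_lit 2)) (.cons (.br (nat_lit 16) (nat_lit 0) (.cons (.ev (nat_lit 4086057284363542655966923596295351304207) (nat_lit 4)) .nil)) .nil))) .nil)))) (.cons (.br (nat_lit 14) (nat_lit 0) (.cons (.rf (nat_lit 20) (nat_lit 630978265030690022)) (.cons (.br (nat_lit 15) (nat_lit 0) (.cons (.ev (nat_lit 683223189833446763413514735177894593027) (nat_lit 2)) (.cons (.kr (nat_lit 2668840585286901419511419191223648257) (nat_lit 40723275537054236007050764091392) (nat_lit 0) (nat_lit 1)) .nil))) (.cons (.br (nat_lit 15) (nat_lit 0) (.cons (.kr (nat_lit 2668840585286901419511419191223648257) (nat_lit 40723275537054236007050764091392) (nat_lit 0) (nat_lit 1))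 (.cons (.ev (nat_lit 174224582248114831755515151213509549883907) (nat_lit 2)) .nil))) .nil)))) .nil)))),
 (.br (nat_lit 13) (nat_lit 0) (.cons (.kr (nat_lit 20282409603651670423947251286272) (nat_lit 79228162514264337593544015872) (nat_lit 1) (nat_lit 0)) (.cons (.rf (nat_lit 1283) (nat_lit 19926519232773908561233952)) (.cons (.br (nat_lit 16) (nat_lit 0) (.cons (.rf (nat_lit 87) (nat_lit 631046501232093377)) (.cons (.ev (nat_lit 680564734000952226752771411570747113473) (nat_lit 2)) (.cons (.br (nat_lit 14) (nat_lit 0) (.cons (.br (nat_lit 15) (nat_lit 0) (.cons (.ev (nat_lit 1329248357733375992926272372684685568) (nat_lit 1)) .nil)) (.cons (.ev (nat_lit 87452573511339681411099356485144279056640) (nat_lit 1)) .nil))) .nil)))) .nil)))),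
 (.br (nat_lit 12) (nat_lit 0) (.cons (.rf (nat_lit 1279) (nat_lit 583706118939841765935136)) (.cons (.br (nat_lit 13) (nat_lit 0) (.cons (.ev (nat_lit 51923131388975514612262837508506629) (nat_lit 4)) (.cons (.ev (nat_lit 13292280117550682314956154804963247109) (nat_lit 4)) (.cons (.br (nat_lit 13) (nat_lit 0) (.cons (.ev (nat_lit 51923131388975514612262837508506629) (nat_lit 4)) (.cons (.ev (nat_lit 13292280117550682314956154804963247109) (nat_lit 4)) (.cons (.br (nat_lit 14) (nat_lit 0) (.cons (.ev (nat_lit 1334420372181102965503305855799394560) (nat_lit 1)) (.cons (.rf (nat_lit 1280) (nat_lit 677582165103132179601393696)) (.cons (.rf (nat_lit 1280) (nat_lit 640105464695078675185502240)) .nil)))) .nil)))) .nil)))) (.cons (.br (nat_lit 13) (nat_lit 0) (.cons (.rf (nat_lit 1282) (nat_lit 19926519232773908561233952)) (.cons (.rf (nat_lit 1283) (nat_lit 19926519232773908561233952)) (.cons (.rf (nat_lit 1284) (nat_lit 19926519232773908561233952)) (.cons (.br (nat_lit 13) (nat_lit 0) (.cons (.rf (nat_lit 1282) (nat_lit 19926519232773908561233952))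 (.cons (.rf (nat_lit 1283) (nat_lit 19926519232773908561233952)) (.cons (.rf (nat_lit 1284) (nat_lit 19926519232773908561233952)) .nil)))) .nil))))) .nil)))),
 (.br (nat_lit 13) (nat_lit 0) (.cons (.rf (nat_lit 1285) (nat_lit 583670378373198953677888)) (.cons (.rf (nat_lit 1285) (nat_lit 547071889512313162728516)) (.cons (.kr (nat_lit 20282409603651670423947251286272) (nat_lit 79228162514264337593544015872) (nat_lit 1) (nat_lit 0)) .nil)))),
 (.br (nat_lit 7) (nat_lit 0) (.cons (.kr (nat_lit 309485009821626543701491712) (nat_lit 1208925891672223212634112) (nat_lit 6) (nat_lit 0)) (.cons (.rf (nat_lit 1266) (nat_lit 493858305440582043680)) (.cons (.rf (nat_lit 1266) (nat_lit 458117738797769786432)) (.cons (.br (nat_lit 11) (nat_lit 0) (.cons (.rf (nat_lit 1266) (nat_lit 493709686794541500452)) (.cons (.rf (nat_lit 1266) (nat_lit 457969120151729243204)) (.cons (.br (nat_lit 12) (nat_lit 0) (.cons (.rf (nat_lit 1269) (nat_lit 17022140995484340291616)) (.cons (.rf (nat_lit 1272) (nat_lit 17022140995484340291616)) (.cons (.br (nat_lit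 12) (nat_lit 0) (.cons (.rf (nat_lit 1269) (nat_lit 17022140995484340291616)) (.cons (.rf (nat_lit 1272) (nat_lit 17022140995484340291616)) (.cons (.br (nat_lit 13) (nat_lit 0) (.cons (.rf (nat_lit 1272) (nat_lit 16986400428841528034368)) (.cons (.rf (nat_lit 1273) (nat_lit 19926519232773908561233952)) (.cons (.rf (nat_lit 1273) (nat_lit 18755372345022236548237344)) (.cons (.br (nat_lit 13) (nat_lit 0) (.cons (.rf (nat_lit 1272) (nat_lit 16986400428841528034368)) (.cons (.rf (nat_lit 1273) (nat_lit 19926519232773908561233952)) (.cons (.rf (nat_lit 1273) (nat_lit 18755372345022236548237344)) .nil)))) .nil))))) .nil)))) .nil)))) (.cons (.br (nat_lit 12) (nat_lit 0) (.cons (.rf (nat_lit 1279) (nat_lit 583706118939841765935136)) (.cons (.rf (nat_lit 1285) (nat_lit 583706118939841765935136)) (.cons (.rf (nat_lit 1285) (nat_lit 547107630078955974985764)) (.cons (.br (nat_lit 12) (nat_lit 0) (.cons (.rf (nat_lit 1279) (nat_lit 583706118939841765935136)) (.cons (.rf (nat_lit 1285) (nat_lit 583706118939841765935136)) (.cons (.rf (nat_lit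 1285) (nat_lit 547107630078955974985764)) (.cons (.br (nat_lit 13) (nat_lit 0) (.cons (.rf (nat_lit 1285) (nat_lit 583670378373198953677888)) (.cons (.rf (nat_lit 1285) (nat_lit 547071889512313162728516)) (.cons (.rf (nat_lit 1286) (nat_lit 677582165103132179601393696)) (.cons (.rf (nat_lit 1286) (nat_lit 640105464695078675185502240)) .nil))))) .nil))))) .nil))))) .nil))))) .nil))))),
 (.br (nat_lit 14) (nat_lit 0) (.cons (.br (nat_lit 15) (nat_lit 0) (.cons (.ev (nat_lit 7985752569052793245092808096508806147) (nat_lit 3)) (.cons (.rf (nat_lit 43) (nat_lit 631047566475373761)) .nil))) .nil)),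
 (.br (nat_lit 15) (nat_lit 0) (.cons (.ev (nat_lit 1344865813747172003004794019483156739) (nat_lit 2)) .nil)),
 (.br (nat_lit 14) (nat_lit 0) (.cons (.br (nat_lit 15) (nat_lit 0) (.cons (.ev (nat_lit 2668840585286906142022581307016610307) (nat_lit 2)) (.cons (.rf (nat_lit 58) (nat_lit 631047533096905922)) .nil))) .nil)),
 (.br (nat_lit 15) (nat_lit 0) (.cons (.ev (nat_lit 1344865813747172003004794019483156739) (nat_lit 2)) .nil)),
 (.br (nat_lit 14) (nat_lit 0) (.cons (.ev (nat_lit 5212658497509919454965359865561088) (nat_lit 1)) (.cons (.rf (nat_lit 11) (nat_lit 593856550239701030)) .nil))),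
 (.br (nat_lit 15) (nat_lit 0) (.cons (.ev (nat_lit 1329228075322563397061829895387086848) (nat_lit 1)) (.cons (.rf (nat_lit 70) (nat_lit 592763671078250657)) .nil))),
 (.br (nat_lit 15) (nat_lit 0) (.cons (.br (nat_lit 16) (nat_lit 0) (.cons (.ev (nat_lit 2049690420136184812680630586077402365955) (nat_lit 3)) .nil)) .nil)),
 (.br (nat_lit 14) (nat_lit 0) (.cons (.ev (nat_lit 10385069093303110506221983863537667) (nat_lit 3)) (.cons (.br (nat_lit 13) (nat_lit 0) (.cons (.rf (nat_lit 1292) (nat_lit 622703726024149174421536)) (.cons (.rf (nat_lit 1293) (nat_lit 622703726024184642538561)) (.cons (.br (nat_lit 15) (nat_lit 0) (.cons (.rf (nat_lit 1294) (nat_lit 677582165103132179601393696)) (.cons (.br (nat_lit 15) (nat_lit 0) (.cons (.rf (nat_lit 1294) (nat_lit 677582165103132179601393696)) .nil)) .nil))) .nil)))) .nil))),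
 (.br (nat_lit 14) (nat_lit 0) (.cons (.ev (nat_lit 10425158538699587944417290094772227) (nat_lit 2)) (.cons (.br (nat_lit 16) (nat_lit 0) (.cons (.ev (nat_lit 340282427768170901251257578138124681986) (nat_lit 2)) (.cons (.ev (nat_lit 680575118435594001322964182049992344067) (nat_lit 2)) .nil))) .nil))),
 (.br (nat_lit 13) (nat_lit 0) (.cons (.rf (nat_lit 1295) (nat_lit 583706118939841765935136)) (.cons (.br (nat_lit 14) (nat_lit 0) (.cons (.br (nat_lit 14) (nat_lit 0) (.cons (.ev (nat_lit 10425158538699587944417290094772227) (nat_lit 2)) (.cons (.rf (nat_lit 15) (nat_lit 631047566517307430)) .nil))) (.cons (.rf (nat_lit 1296) (nat_lit 19926519232773908561233952)) (.cons (.br (nat_lit 14) (nat_lit 0) (.cons (.rf (nat_lit 15) (nat_lit 631047566517307430)) (.cons (.rf (nat_lit 1296) (nat_lit 19926519232773908561233952)) .nil))) .nil)))) .nil))),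
 (.br (nat_lit 15) (nat_lit 0) (.cons (.ev (nat_lit 680575118435594001322964182049992344067) (nat_lit 2)) (.cons (.ev (nat_lit 1334440575362539362096165266152030208) (nat_lit 1)) .nil))),
 (.br (nat_lit 14) (nat_lit 0) (.cons (.rf (nat_lit 1298) (nat_lit 677582165103132179601393696)) (.cons (.rf (nat_lit 1298) (nat_lit 640105464695078675185502240)) .nil))),
 (.br (nat_lit 14) (nat_lit 0) (.cons (.rf (nat_lit 1299) (nat_lit 677582165103132179601393696)) (.cons (.ev (nat_lit 10425158538699587944417290094772227) (nat_lit 2)) .nil))),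
 (.br (nat_lit 10) (nat_lit 0) (.cons (.ev (nat_lit 318776818522541485803287086083) (nat_lit 3)) (.cons (.br (nat_lit 12) (nat_lit 0) (.cons (.ev (nat_lit 79229371440084234797223772416) (nat_lit 1)) (.cons (.br (nat_lit 13) (nat_lit 0) (.cons (.kr (nat_lit 158456325046975420360309211137) (nat_lit 40564819212025707330768459530752) (nat_lit 0) (nat_lit 6)) (.cons (.br (nat_lit 14) (nat_lit 0) (.cons (.rf (nat_lit 1288) (nat_lit 583706118939841765935136)) (.cons (.br (nat_lit 14) (nat_lit 0) (.cons (.rf (nat_lit 1288) (nat_lit 583706118939841765935136)) (.cons (.br (nat_lit 15) (nat_lit 0) (.cons (.rf (nat_lit 1289) (nat_lit 677582165103132179601393696)) (.cons (.rf (nat_lit 1289) (nat_lit 640105464695078675185502240)) .nil))) .nil))) .nil))) .nil))) .nil))) (.cons (.br (nat_lit 12) (nat_lit 0) (.cons (.br (nat_lit 13) (nat_lit 0) (.cons (.ev (nat_lit 40723896924943964670533157519363) (nat_lit 2)) (.cons (.br (nat_lit 14) (nat_lit 0) (.cons (.rf (nat_lit 1290) (nat_lit 583706118939841765935136)) (.cons (.br (nat_lit 14) (nat_lit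 0) (.cons (.rf (nat_lit 1290) (nat_lit 583706118939841765935136)) (.cons (.br (nat_lit 15) (nat_lit 0) (.cons (.rf (nat_lit 1291) (nat_lit 677582165103132179601393696)) (.cons (.rf (nat_lit 1291) (nat_lit 640105464695078675185502240)) .nil))) .nil))) .nil))) .nil))) (.cons (.ev (nat_lit 79229371440084234797223772416) (nat_lit 1)) (.cons (.br (nat_lit 13) (nat_lit 0) (.cons (.rf (nat_lit 1295) (nat_lit 583706118939841765935136)) (.cons (.rf (nat_lit 1297) (nat_lit 583706118939841765935136)) (.cons (.br (nat_lit 13) (nat_lit 0) (.cons (.rf (nat_lit 1295) (nat_lit 583706118939841765935136)) (.cons (.rf (nat_lit 1297) (nat_lit 583706118939841765935136)) (.cons (.br (nat_lit 14) (nat_lit 0) (.cons (.rf (nat_lit 1299) (nat_lit 677582165103132179601393696)) (.cons (.rf (nat_lit 1300) (nat_lit 677582165103132179601393696)) (.cons (.rf (nat_lit 1300) (nat_lit 640105464695078675185502240)) .nil)))) .nil)))) .nil)))) .nil)))) .nil)))),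
 (.br (nat_lit 15) (nat_lit 0) (.cons (.ev (nat_lit 5337762302076385874295181444554948611) (nat_lit 3)) (.cons (.rf (nat_lit 11) (nat_lit 631046434785133798)) .nil))),
 (.br (nat_lit 15) (nat_lit 0) (.cons (.ev (nat_lit 5337762302076385874295181444554948611) (nat_lit 3)) (.cons (.br (nat_lit 16) (nat_lit 0) (.cons (.ev (nat_lit 1361150237189964811686554037515676812291) (nat_lit 3)) (.cons (.ev (nat_lit 1366446379667519745697526562710362522627) (nat_lit 3)) .nil))) .nil))),
 (.br (nat_lit 12) (nat_lit 0) (.cons (.zr (nat_lit 10384752173427740351117388400295936) (nat_lit 1240357909516594694940918787) (nat_lit 16) (nat_lit 7)) (.cons (.br (nat_lit 13) (nat_lit 0) (.cons (.zr (nat_lit 10425158536310015163290095814967296) (nat_lit 1240357909516594694941049347) (nat_lit 16) (nat_lit 7)) (.cons (.ev (nat_lit 81447177293016151950905348980739) (nat_lit 3)) (.cons (.br (nat_lit 14) (nat_lit 0) (.cons (.rf (nat_lit 1302) (nat_lit 19926519232773908561233952)) (.cons (.rf (nat_lit 1302) (nat_lit 18755336604455593735980096)) (.cons (.br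 (nat_lit 15) (nat_lit 0) (.cons (.rf (nat_lit 1303) (nat_lit 19926519232773908561233952)) (.cons (.br (nat_lit 15) (nat_lit 0) (.cons (.rf (nat_lit 1303) (nat_lit 19926519232773908561233952)) .nil)) .nil))) .nil)))) .nil)))) .nil))),
 (.br (nat_lit 13) (nat_lit 0) (.cons (.br (nat_lit 15) (nat_lit 0) (.cons (.ev (nat_lit 1329288843017353660786777766636815106) (nat_lit 2)) (.cons (.rf (nat_lit 58) (nat_lit 631046501323484353)) .nil))) .nil)),
 (.br (nat_lit 15) (nat_lit 0) (.cons (.ev (nat_lit 7985793291706937779322705541062854151) (nat_lit 3)) .nil))]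

theorem c48 : chkAll C T R L48 (nat_lit 1280) = true := by decide +kernel

theorem l48 : (nat_lit 1280) + L48.length = (nat_lit 1307) := by decide +kernel

/-- part of the certificates -/
def L49 : List Prf := [(.br (nat_lit 12) (nat_lit 0) (.cons (.zr (nat_lit 10384752173427740351117388400295936) (nat_lit 1240357909516594694940918787) (nat_lit 16) (nat_lit 7)) (.cons (.br (nat_lit 13) (nat_lit 0) (.cons (.rf (nat_lit 1305) (nat_lit 583706118939841765935136)) (.cons (.br (nat_lit 13) (nat_lit 0) (.cons (.rf (nat_lit 1305) (nat_lit 583706118939841765935136)) (.cons (.br (nat_lit 15) (nat_lit 0) (.cons (.rf (nat_lit 1306) (nat_lit 677582165103132179601393696)) (.cons (.rf (nat_lit 1306) (nat_lit 640105464695078675185502240)) .nil))) .nil))) .nil))) .nil))),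
 (.br (nat_lit 13) (nat_lit 0) (.cons (.rf (nat_lit 1307) (nat_lit 16986400428841528034368)) (.cons (.kr (nat_lit 20282409603651670423947251286272) (nat_lit 79228162514264337593544015872) (nat_lit 1) (nat_lit 0)) (.cons (.br (nat_lit 15) (nat_lit 0) (.cons (.ev (nat_lit 5337681172433135490836281203051725827) (nat_lit 3)) (.cons (.ev (nat_lit 1329228233473030248568518705515003906) (nat_lit 2)) (.cons (.ev (nat_lit 1329288843017353660786777766636815106) (nat_lit 2)) .nil)))) .nil)))),
 (.br (nat_lit 13) (nat_lit 0) (.cons (.ev (nat_lit 5192296858539550067352435005915393) (nat_lit 1)) (.cons (.br (nat_lit 14) (nat_lit 0) (.cons (.ev (nat_lit 10425159155251756091430407317356547) (nat_lit 2)) (.cons (.br (nat_lit 15) (nat_lit 0) (.cons (.ev (nat_lit 18619699022697590929482351239130910215) (nat_lit 4)) (.cons (.rf (nat_lit 20) (nat_lit 631046501365259302)) .nil))) .nil))) (.cons (.br (nat_lit 14) (nat_lit 0) (.cons (.br (nat_lit 15) (nat_lit 0) (.cons (.ev (nat_lit 1329248357733375992926273476491214848) (nat_lit 1)) (.cons (.rf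 (nat_lit 20) (nat_lit 631047566517307430)) .nil))) (.cons (.ev (nat_lit 10425159155251756091430407317356547) (nat_lit 2)) (.cons (.rf (nat_lit 1241) (nat_lit 640105464655638064594520096)) .nil)))) .nil)))),
 (.br (nat_lit 14) (nat_lit 0) (.cons (.ev (nat_lit 680575118436215389194101423307762041347) (nat_lit 2)) (.cons (.br (nat_lit 15) (nat_lit 0) (.cons (.ev (nat_lit 683223189833446763413514735177894593027) (nat_lit 2)) (.cons (.kr (nat_lit 10384593717069673703806165879619585) (nat_lit 2658455991569836468174096994517647360) (nat_lit 0) (nat_lit 1)) .nil))) .nil))),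
 (.br (nat_lit 16) (nat_lit 0) (.cons (.kr (nat_lit 10384593717069673703806165879619585) (nat_lit 2658455991569836468174096994517647360) (nat_lit 0) (nat_lit 1)) (.cons (.ev (nat_lit 340287579500207810868493459079028604928) (nat_lit 1)) .nil))),
 (.br (nat_lit 14) (nat_lit 0) (.cons (.rf (nat_lit 1311) (nat_lit 677582165103132179601393696)) (.cons (.rf (nat_lit 1311) (nat_lit 640105428954512032373244992)) .nil))),
 (.br (nat_lit 14) (nat_lit 0) (.cons (.rf (nat_lit 1312) (nat_lit 677582165103132179601393696)) (.cons (.ev (nat_lit 5212658496301012082376283655241728) (nat_lit 1)) .nil))),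
 (.br (nat_lit 12) (nat_lit 0) (.cons (.rf (nat_lit 1309) (nat_lit 583706118939841765935136)) (.cons (.rf (nat_lit 1309) (nat_lit 547107595141940716406820)) (.cons (.br (nat_lit 13) (nat_lit 0) (.cons (.rf (nat_lit 1309) (nat_lit 583670378373198953677888)) (.cons (.rf (nat_lit 1309) (nat_lit 547071854575297904149572)) (.cons (.br (nat_lit 14) (nat_lit 0) (.cons (.rf (nat_lit 1310) (nat_lit 19926519232773908561233952)) (.cons (.br (nat_lit 14) (nat_lit 0) (.cons (.ev (nat_lit 680575118436215389194101423307762041347) (nat_lit 2)) (.cons (.rf (nat_lit 87) (nat_lit 631047566215326913)) .nil))) (.cons (.br (nat_lit 14) (nat_lit 0) (.cons (.rf (nat_lit 1310) (nat_lit 19926519232773908561233952)) (.cons (.rf (nat_lit 87) (nat_lit 631047566215326913)) .nil))) .nil)))) (.cons (.br (nat_lit 14) (nat_lit 0) (.cons (.rf (nat_lit 1312) (nat_lit 677582165103132179601393696)) (.cons (.rf (nat_lit 1313) (nat_lit 677582165103132179601393696)) (.cons (.rf (nat_lit 1313) (nat_lit 640105428954512032373244992)) .nil)))) .nil))))) .nil)))),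
 (.br (nat_lit 15) (nat_lit 0) (.cons (.ev (nat_lit 680575118436215389194101423307762041347) (nat_lit 2)) (.cons (.br (nat_lit 16) (nat_lit 0) (.cons (.ev (nat_lit 1363798349309228942421486052982917301767) (nat_lit 3)) .nil)) .nil))),
 (.br (nat_lit 15) (nat_lit 0) (.cons (.ev (nat_lit 1329248278504009256762341520406741248) (nat_lit 1)) .nil)),
 (.br (nat_lit 13) (nat_lit 0) (.cons (.ev (nat_lit 5192296858539550067352435005915393) (nat_lit 1)) (.cons (.br (nat_lit 14) (nat_lit 0) (.cons (.ev (nat_lit 5337803025347082429387500073647473155) (nat_lit 3)) (.cons (.ev (nat_lit 340282387361808018976445405430710141186) (nat_lit 2)) (.cons (.br (nat_lit 15) (nat_lit 0) (.cons (.ev (nat_lit 340282367158626577839039319077002870786) (nat_lit 2)) (.cons (.ev (nat_lit 5337722212621317879763154658817869315) (nat_lit 3)) .nil))) .nil)))) (.cons (.br (nat_lit 14) (nat_lit 0) (.cons (.rf (nat_lit 20) (nat_lit 630978265064211686)) (.cons (.br (nat_lit 16) (nat_lit 0) (.cons (.ev (nat_lit 683223189833446763413514735177894593027) (nat_lit 2))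 (.cons (.ev (nat_lit 340287579500207810868493459079028604928) (nat_lit 1)) .nil))) (.cons (.br (nat_lit 15) (nat_lit 0) (.cons (.rf (nat_lit 1316) (nat_lit 21174442659471745632798752)) (.cons (.ev (nat_lit 174224582248114831755515151213509549883907) (nat_lit 2)) .nil))) .nil)))) .nil)))),
 (.br (nat_lit 13) (nat_lit 0) (.cons (.ev (nat_lit 5192296858539550067352435005915393) (nat_lit 1)) (.cons (.rf (nat_lit 1317) (nat_lit 19926519232773908561233952)) (.cons (.br (nat_lit 16) (nat_lit 0) (.cons (.rf (nat_lit 87) (nat_lit 631046501231045825)) (.cons (.ev (nat_lit 340282367158626577839039319077002870786) (nat_lit 2)) (.cons (.br (nat_lit 14) (nat_lit 0) (.cons (.br (nat_lit 15) (nat_lit 0) (.cons (.ev (nat_lit 2047011235522002466741963093438533731847) (nat_lit 3)) .nil)) (.cons (.ev (nat_lit 349129729352082286899460687085070765524487) (nat_lit 3)) .nil))) .nil)))) .nil)))),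
 (.br (nat_lit 12) (nat_lit 0) (.cons (.rf (nat_lit 1314) (nat_lit 583706118939841765935136)) (.cons (.br (nat_lit 13) (nat_lit 0) (.cons (.ev (nat_lit 5192296858539550067352435005915393) (nat_lit 1)) (.cons (.ev (nat_lit 1329227996095609826991511935696044288) (nat_lit 1)) (.cons (.br (nat_lit 13) (nat_lit 0) (.cons (.ev (nat_lit 5192296858539550067352435005915393) (nat_lit 1)) (.cons (.ev (nat_lit 1329227996095614530911249627841888513) (nat_lit 1)) (.cons (.br (nat_lit 14) (nat_lit 0) (.cons (.kr (nat_lit 10384593717069673703806165879619585) (nat_lit 2658455991569836468174096994517647360) (nat_lit 0) (nat_lit 1)) (.cons (.rf (nat_lit 1315) (nat_lit 677582165103132179601393696)) (.cons (.rf (nat_lit 1315) (nat_lit 640105464695078675185502240)) .nil)))) .nil)))) .nil)))) (.cons (.br (nat_lit 13) (nat_lit 0) (.cons (.ev (nat_lit 5192296858539550067352435005915393) (nat_lit 1)) (.cons (.rf (nat_lit 1317) (nat_lit 19926519232773908561233952)) (.cons (.rf (nat_lit 1318) (nat_lit 19926519232773908561233952)) (.cons (.br (nat_lit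 13) (nat_lit 0) (.cons (.ev (nat_lit 5192296858539550067352435005915393) (nat_lit 1)) (.cons (.rf (nat_lit 1317) (nat_lit 19926519232773908561233952)) (.cons (.rf (nat_lit 1318) (nat_lit 19926519232773908561233952)) .nil)))) .nil))))) .nil)))),
 (.br (nat_lit 13) (nat_lit 0) (.cons (.rf (nat_lit 1319) (nat_lit 583670378373198953677888)) (.cons (.rf (nat_lit 1319) (nat_lit 547071854575297904149572)) (.cons (.kr (nat_lit 20282409603651670423947251286272) (nat_lit 79228162514264337593544015872) (nat_lit 1) (nat_lit 0)) .nil)))),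
 (.br (nat_lit 7) (nat_lit 0) (.cons (.ev (nat_lit 317947564563206149676990466) (nat_lit 3)) (.cons (.rf (nat_lit 1301) (nat_lit 493858305440582043680)) (.cons (.rf (nat_lit 1301) (nat_lit 458117738797769786432)) (.cons (.br (nat_lit 10) (nat_lit 0) (.cons (.rf (nat_lit 1301) (nat_lit 493674749779282921508)) (.cons (.rf (nat_lit 1301) (nat_lit 457934183136470664260)) (.cons (.br (nat_lit 12) (nat_lit 0) (.cons (.rf (nat_lit 1304) (nat_lit 17022140995484340291616)) (.cons (.rf (nat_lit 1307) (nat_lit 17022140995484340291616)) (.cons (.br (nat_lit 12) (nat_lit 0) (.cons (.rf (nat_lit 1304) (nat_lit 17022140995484340291616)) (.cons (.rf (nat_lit 1307) (nat_lit 17022140995484340291616)) (.cons (.br (nat_lit 13) (nat_lit 0) (.cons (.rf (nat_lit 1307) (nat_lit 16986400428841528034368)) (.cons (.rf (nat_lit 1308) (nat_lit 19926519232773908561233952)) (.cons (.rf (nat_lit 1308) (nat_lit 18755372345022236548237344)) (.cons (.br (nat_lit 13) (nat_lit 0) (.cons (.rf (nat_lit 1307) (nat_lit 16986400428841528034368)) (.cons (.rf (nat_lit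 1308) (nat_lit 19926519232773908561233952)) (.cons (.rf (nat_lit 1308) (nat_lit 18755372345022236548237344)) .nil)))) .nil))))) .nil)))) .nil)))) (.cons (.br (nat_lit 12) (nat_lit 0) (.cons (.rf (nat_lit 1314) (nat_lit 583706118939841765935136)) (.cons (.rf (nat_lit 1319) (nat_lit 583706118939841765935136)) (.cons (.rf (nat_lit 1319) (nat_lit 547107595141940716406820)) (.cons (.br (nat_lit 12) (nat_lit 0) (.cons (.rf (nat_lit 1314) (nat_lit 583706118939841765935136)) (.cons (.rf (nat_lit 1319) (nat_lit 583706118939841765935136)) (.cons (.rf (nat_lit 1319) (nat_lit 547107595141940716406820)) (.cons (.br (nat_lit 13) (nat_lit 0) (.cons (.rf (nat_lit 1319) (nat_lit 583670378373198953677888)) (.cons (.rf (nat_lit 1319) (nat_lit 547071854575297904149572)) (.cons (.rf (nat_lit 1320) (nat_lit 677582165103132179601393696)) (.cons (.rf (nat_lit 1320) (nat_lit 640105464695078675185502240)) .nil))))) .nil))))) .nil))))) .nil))))) .nil))))),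
 (.br (nat_lit 13) (nat_lit 0) (.cons (.br (nat_lit 14) (nat_lit 0) (.cons (.ev (nat_lit 10425238073924501202958370499198976) (nat_lit 2)) (.cons (.rf (nat_lit 239) (nat_lit 593856550106473504)) .nil))) .nil)),
 (.br (nat_lit 15) (nat_lit 0) (.cons (.ev (nat_lit 1344805045746514080631408074980262144) (nat_lit 2)) .nil)),
 (.br (nat_lit 13) (nat_lit 0) (.cons (.ev (nat_lit 40723275537072827431465854697473) (nat_lit 2)) (.cons (.br (nat_lit 14) (nat_lit 0) (.cons (.ev (nat_lit 31275476849193581750888325802361351) (nat_lit 3)) (.cons (.br (nat_lit 15) (nat_lit 0) (.cons (.ev (nat_lit 2668840585908294013159824755253182977) (nat_lit 2)) (.cons (.rf (nat_lit 166) (nat_lit 631047566384236737)) .nil))) .nil))) (.cons (.br (nat_lit 14) (nat_lit 0) (.cons (.br (nat_lit 15) (nat_lit 0) (.cons (.ev (nat_lit 16002740526111419134143063786822569475) (nat_lit 4)) (.cons (.rf (nat_lit 167) (nat_lit 631047566384236737)) .nil))) (.cons (.ev (nat_lit 31194662890324695832521057394491911) (nat_lit 3)) (.cons (.rf (nat_lit 711) (nat_lit 21173297843176434283060291))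 .nil)))) .nil)))),
 (.br (nat_lit 13) (nat_lit 0) (.cons (.br (nat_lit 14) (nat_lit 0) (.cons (.ev (nat_lit 31356924016810339854481482463055373) (nat_lit 4)) (.cons (.br (nat_lit 15) (nat_lit 0) (.cons (.ev (nat_lit 2668840585908294013159824755253182977) (nat_lit 2)) (.cons (.rf (nat_lit 166) (nat_lit 596110584410638529)) .nil))) .nil))) (.cons (.ev (nat_lit 40723275537072827431465854697473) (nat_lit 2)) (.cons (.br (nat_lit 15) (nat_lit 0) (.cons (.br (nat_lit 14) (nat_lit 0) (.cons (.ev (nat_lit 8017069087939821016004769243298922501) (nat_lit 4)) (.cons (.rf (nat_lit 167) (nat_lit 631013481522759873)) .nil))) (.cons (.br (nat_lit 16) (nat_lit 0) (.cons (.ev (nat_lit 1369104957670457431595524214598123520001) (nat_lit 3)) (.cons (.rf (nat_lit 175) (nat_lit 628797932273239266)) .nil))) (.cons (.rf (nat_lit 674) (nat_lit 21173297844446260854098144)) .nil)))) .nil)))),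
 (.br (nat_lit 14) (nat_lit 0) (.cons (.br (nat_lit 15) (nat_lit 0) (.cons (.ev (nat_lit 2668840585286906142022581307016610307) (nat_lit 2)) (.cons (.ev (nat_lit 1344865812817493862103177572894572801) (nat_lit 2)) .nil))) (.cons (.br (nat_lit 15) (nat_lit 0) (.cons (.kr (nat_lit 1329248278194519543020975081241182464) (nat_lit 5192376086702064259350959518449664) (nat_lit 1) (nat_lit 0)) (.cons (.ev (nat_lit 2668840585286906142022581307016610307) (nat_lit 2)) .nil))) .nil))),
 (.br (nat_lit 14) (nat_lit 0) (.cons (.rf (nat_lit 1326) (nat_lit 677582165103132179601393696)) (.cons (.br (nat_lit 15) (nat_lit 0) (.cons (.ev (nat_lit 340287579500516086952566965637623054593) (nat_lit 1)) (.cons (.ev (nat_lit 87112291124136642828975685774384826417408) (nat_lit 1)) .nil))) .nil))),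
 (.br (nat_lit 14) (nat_lit 0) (.cons (.ev (nat_lit 5192376397396018347054731144200193) (nat_lit 1)) (.cons (.rf (nat_lit 170) (nat_lit 558884418254608545)) .nil))),
 (.br (nat_lit 14) (nat_lit 0) (.cons (.br (nat_lit 15) (nat_lit 0) (.cons (.ev (nat_lit 340282387282577438555201042295287709953) (nat_lit 1)) .nil)) .nil)),
 (.br (nat_lit 14) (nat_lit 0) (.cons (.rf (nat_lit 1329) (nat_lit 19926519232773908561233952)) (.cons (.br (nat_lit 14) (nat_lit 0) (.cons (.rf (nat_lit 1329) (nat_lit 19926519232773908561233952)) .nil)) .nil))),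
 (.br (nat_lit 14) (nat_lit 0) (.cons (.ev (nat_lit 10384752175817313132246790259606017) (nat_lit 2)) (.cons (.ev (nat_lit 5192535473895269971834398323114752) (nat_lit 2)) (.cons (.br (nat_lit 13) (nat_lit 0) (.cons (.br (nat_lit 15) (nat_lit 0) (.cons (.ev (nat_lit 5337803342259732486444848257389822979) (nat_lit 3)) (.cons (.rf (nat_lit 166) (nat_lit 631047566484801729)) .nil))) (.cons (.br (nat_lit 16) (nat_lit 0) (.cons (.ev (nat_lit 1361160743160603047435249318052875207175) (nat_lit 3)) (.cons (.rf (nat_lit 175) (nat_lit 629888647808910658)) .nil))) (.cons (.rf (nat_lit 1330) (nat_lit 21174442659472845144426528)) .nil)))) .nil)))),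
 (.br (nat_lit 15) (nat_lit 0) (.cons (.ev (nat_lit 2658496556391461678494970417997021187) (nat_lit 2)) (.cons (.ev (nat_lit 18609193051433131606370238456358373381) (nat_lit 4)) (.cons (.br (nat_lit 13) (nat_lit 0) (.cons (.br (nat_lit 14) (nat_lit 0) (.cons (.ev (nat_lit 5337803342259732486444848257389822979) (nat_lit 3)) (.cons (.rf (nat_lit 166) (nat_lit 631013481620277441)) .nil))) (.cons (.br (nat_lit 16) (nat_lit 0) (.cons (.ev (nat_lit 341611594996261026860436154752667025408) (nat_lit 1)) (.cons (.rf (nat_lit 175) (nat_lit 628797932270093634)) .nil))) (.cons (.br (nat_lit 14) (nat_lit 0) (.cons (.br (nat_lit 14) (nat_lit 0) (.cons (.ev (nat_lit 2668881308562438473892104388640637441) (nat_lit 2)) .nil)) (.cons (.br (nat_lit 14) (nat_lit 0) (.cons (.ev (nat_lit 2668881308562438473892104388640637441) (nat_lit 2)) .nil)) .nil))) .nil)))) .nil))))]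

theorem c49 : chkAll C T R L49 (nat_lit 1307) = true := by decide +kernel

theorem l49 : (nat_lit 1307) + L49.length = (nat_lit 1333) := by decide +kernel

/-- part of the certificates -/
def L50 : List Prf := [(.br (nat_lit 14) (nat_lit 0) (.cons (.ev (nat_lit 10384752792369481279257699902554627) (nat_lit 2)) (.cons (.br (nat_lit 15) (nat_lit 0) (.cons (.ev (nat_lit 2658496557008013846641985742799241217) (nat_lit 2)) (.cons (.kr (nat_lit 5192376086697341892869189384863745) (nat_lit 1329248278194519524574231011843375360) (nat_lit 0) (nat_lit 6)) .nil))) .nil))),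
 (.br (nat_lit 14) (nat_lit 0) (.cons (.ev (nat_lit 10384752792369481279257699902554627) (nat_lit 2)) (.cons (.br (nat_lit 15) (nat_lit 0) (.cons (.kr (nat_lit 5192376086697341892869189384863745) (nat_lit 1329248278194519524574231011843375360) (nat_lit 0) (nat_lit 6)) (.cons (.ev (nat_lit 2658496557008013846641985742799241217) (nat_lit 2)) .nil))) .nil))),
 (.br (nat_lit 14) (nat_lit 0) (.cons (.ev (nat_lit 10384752792369481279257699902554627) (nat_lit 2)) (.cons (.br (nat_lit 16) (nat_lit 0) (.cons (.br (nat_lit 15) (nat_lit 0) (.cons (.ev (nat_lit 2618164474141973869714680504667173967631389) (nat_lit 5)) .nil)) (.cons (.ev (nat_lit 87112285952121884417512273087115923816448) (nat_lit 1)) .nil))) .nil))),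
 (.br (nat_lit 15) (nat_lit 0) (.cons (.ev (nat_lit 1329248357422682057357652847623209217) (nat_lit 1)) (.cons (.rf (nat_lit 170) (nat_lit 596075434499710145)) .nil))),
 (.br (nat_lit 14) (nat_lit 0) (.cons (.br (nat_lit 15) (nat_lit 0) (.cons (.ev (nat_lit 1334420292952940432720448069467963393) (nat_lit 1)) .nil)) .nil)),
 (.br (nat_lit 14) (nat_lit 0) (.cons (.rf (nat_lit 1337) (nat_lit 19926519232773908561233952)) (.cons (.br (nat_lit 14) (nat_lit 0) (.cons (.rf (nat_lit 1337) (nat_lit 19926519232773908561233952)) .nil)) .nil))),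
 (.br (nat_lit 13) (nat_lit 0) (.cons (.ev (nat_lit 2720844844459799093851294437682580493) (nat_lit 4)) (.cons (.br (nat_lit 15) (nat_lit 0) (.cons (.ev (nat_lit 341611594996261031601249382791221673985) (nat_lit 1)) (.cons (.ev (nat_lit 2668881308562438473892104388640637441) (nat_lit 2)) .nil))) .nil))),
 (.br (nat_lit 15) (nat_lit 0) (.cons (.ev (nat_lit 2679225339322046587870737842018059267) (nat_lit 3)) (.cons (.br (nat_lit 16) (nat_lit 0) (.cons (.ev (nat_lit 680564774407315109027583584278161654273) (nat_lit 2)) (.cons (.ev (nat_lit 341611594996261026860436154752667025408) (nat_lit 1)) .nil))) .nil))),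
 (.br (nat_lit 13) (nat_lit 0) (.cons (.br (nat_lit 15) (nat_lit 0) (.cons (.ev (nat_lit 680564774406698556859436573368585814531) (nat_lit 2)) (.cons (.br (nat_lit 16) (nat_lit 0) (.cons (.ev (nat_lit 1369104917265332489286209315572916813831) (nat_lit 3)) .nil)) .nil))) (.cons (.br (nat_lit 17) (nat_lit 0) (.cons (.ev (nat_lit 87114944408034227290965860637238760571138) (nat_lit 2)) (.cons (.ev (nat_lit 87112291144339824274853905086586671857920) (nat_lit 1)) .nil))) .nil))),
 (.br (nat_lit 13) (nat_lit 0) (.cons (.rf (nat_lit 1341) (nat_lit 677582165103132179601393696)) (.cons (.br (nat_lit 17) (nat_lit 0) (.cons (.ev (nat_lit 87112291144339824274853905086586671857920) (nat_lit 1)) (.cons (.ev (nat_lit 680564774406698556859436573368585814531) (nat_lit 2)) .nil))) .nil))),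
 (.br (nat_lit 15) (nat_lit 0) (.cons (.ev (nat_lit 158767033149932846973733306880) (nat_lit 2)) (.cons (.ev (nat_lit 10425158538699587944419497707831811) (nat_lit 2)) (.cons (.ev (nat_lit 680564774406698556859436573368585814531) (nat_lit 2)) (.cons (.br (nat_lit 15) (nat_lit 0) (.cons (.ev (nat_lit 158767033149932846973733306880) (nat_lit 2)) (.cons (.ev (nat_lit 10425158538699587944419497707831811) (nat_lit 2)) (.cons (.ev (nat_lit 680564774406698556859436573368585814531) (nat_lit 2)) .nil)))) .nil))))),
 (.br (nat_lit 13) (nat_lit 0) (.cons (.br (nat_lit 14) (nat_lit 0) (.cons (.kr (nat_lit 10384593717069673703806165879619585) (nat_lit 2658455991569836468174096994517647360) (nat_lit 0) (nat_lit 1)) (.cons (.br (nat_lit 15) (nat_lit 0) (.cons (.ev (nat_lit 7985752885960607672946900036529161221) (nat_lit 3)) (.cons (.rf (nat_lit 284) (nat_lit 630975069575026727)) .nil))) .nil))) (.cons (.br (nat_lit 14) (nat_lit 0) (.cons (.br (nat_lit 15) (nat_lit 0) (.cons (.ev (nat_lit 1334440575362544102909391114290069760) (nat_lit 1))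 (.cons (.rf (nat_lit 284) (nat_lit 631010252878616610)) .nil))) (.cons (.rf (nat_lit 1343) (nat_lit 19926519232773908561233952)) (.cons (.rf (nat_lit 793) (nat_lit 20003257797367842792899808)) .nil)))) .nil))),
 (.br (nat_lit 16) (nat_lit 0) (.cons (.br (nat_lit 14) (nat_lit 0) (.cons (.kr (nat_lit 10384593717069673703806165879619585) (nat_lit 2658455991569836468174096994517647360) (nat_lit 0) (nat_lit 1)) (.cons (.br (nat_lit 15) (nat_lit 0) (.cons (.ev (nat_lit 7985752885960607672946900036529161221) (nat_lit 3)) .nil)) .nil))) (.cons (.ev (nat_lit 680564774407315109027583584278161654273) (nat_lit 2)) .nil))),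
 (.br (nat_lit 14) (nat_lit 0) (.cons (.br (nat_lit 15) (nat_lit 0) (.cons (.kr (nat_lit 10384593717069673703806165879619585) (nat_lit 2658455991569836468174096994517647360) (nat_lit 0) (nat_lit 1)) (.cons (.rf (nat_lit 239) (nat_lit 631047566517279809)) .nil))) .nil)),
 (.br (nat_lit 15) (nat_lit 0) (.cons (.ev (nat_lit 1344865813130619834857780902260572419) (nat_lit 2)) .nil)),
 (.br (nat_lit 15) (nat_lit 0) (.cons (.ev (nat_lit 1329248357422686761205334045225975808) (nat_lit 1)) .nil)),
 (.br (nat_lit 14) (nat_lit 0) (.cons (.kr (nat_lit 158456329750895159156244873217) (nat_lit 40564819207321787591972523868672) (nat_lit 0) (nat_lit 6)) (.cons (.ev (nat_lit 10384752175817313132246790259606017) (nat_lit 2)) (.cons (.br (nat_lit 13) (nat_lit 0) (.cons (.br (nat_lit 15) (nat_lit 0) (.cons (.ev (nat_lit 2689609773347269063991699650304541697) (nat_lit 3)) (.cons (.rf (nat_lit 166) (nat_lit 631047566517307585)) .nil))) (.cons (.br (nat_lit 16) (nat_lit 0) (.cons (.ev (nat_lit 340282387282886923583397072744172552448) (nat_lit 1))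 (.cons (.rf (nat_lit 175) (nat_lit 629888647807862114)) .nil))) (.cons (.br (nat_lit 15) (nat_lit 0) (.cons (.rf (nat_lit 1348) (nat_lit 21174442659471745632798752)) (.cons (.br (nat_lit 15) (nat_lit 0) (.cons (.rf (nat_lit 1348) (nat_lit 21174442659471745632798752)) .nil)) .nil))) .nil)))) .nil)))),
 (.br (nat_lit 13) (nat_lit 0) (.cons (.br (nat_lit 14) (nat_lit 0) (.cons (.ev (nat_lit 10384752792369481279257699902554627) (nat_lit 2)) (.cons (.br (nat_lit 15) (nat_lit 0) (.cons (.ev (nat_lit 7985834015603857908831847688355971077) (nat_lit 3)) (.cons (.rf (nat_lit 166) (nat_lit 596110584541677761)) .nil))) .nil))) (.cons (.kr (nat_lit 158456329750895159156244873217) (nat_lit 40564819207321787591972523868672) (nat_lit 0) (nat_lit 6)) (.cons (.br (nat_lit 15) (nat_lit 0) (.cons (.br (nat_lit 14) (nat_lit 0) (.cons (.ev (nat_lit 5327418588234263483615316496544302087) (nat_lit 3)) (.cons (.rf (nat_lit 167) (nat_lit 631013481653799105)) .nil))) (.cons (.ev (nat_lit 2658496556391461678494970417997021187) (nat_lit 2)) (.cons (.br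 (nat_lit 14) (nat_lit 0) (.cons (.br (nat_lit 14) (nat_lit 0) (.cons (.ev (nat_lit 2668881308562438473892104388640637441) (nat_lit 2)) .nil)) (.cons (.br (nat_lit 14) (nat_lit 0) (.cons (.ev (nat_lit 2668881308562438473892104388640637441) (nat_lit 2)) .nil)) .nil))) .nil)))) .nil)))),
 (.br (nat_lit 14) (nat_lit 0) (.cons (.br (nat_lit 15) (nat_lit 0) (.cons (.kr (nat_lit 10384593717069673703806165879619585) (nat_lit 2658455991569836468174096994517647360) (nat_lit 0) (nat_lit 1)) (.cons (.kr (nat_lit 5212579268138497745698517290057984) (nat_lit 1329228075013083109534627523469574144) (nat_lit 1) (nat_lit 0)) .nil))) (.cons (.br (nat_lit 15) (nat_lit 0) (.cons (.kr (nat_lit 5192376086697341892869189384863745) (nat_lit 1329248278194519524574231011843375360) (nat_lit 0) (nat_lit 6)) (.cons (.kr (nat_lit 10384593717069673703806165879619585) (nat_lit 2658455991569836468174096994517647360) (nat_lit 0) (nat_lit 1)) .nil))) .nil))),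
 (.br (nat_lit 14) (nat_lit 0) (.cons (.rf (nat_lit 1351) (nat_lit 677582165103132179601393696)) (.cons (.br (nat_lit 16) (nat_lit 0) (.cons (.ev (nat_lit 340287579500207815609306684927149932545) (nat_lit 1)) (.cons (.ev (nat_lit 340282387282576234351748190911223365888) (nat_lit 1)) .nil))) .nil))),
 (.br (nat_lit 14) (nat_lit 0) (.cons (.br (nat_lit 15) (nat_lit 0) (.cons (.ev (nat_lit 340282387282576234351676134416713842688) (nat_lit 1)) .nil)) .nil)),
 (.br (nat_lit 14) (nat_lit 0) (.cons (.rf (nat_lit 1353) (nat_lit 19926519232773908561233952)) (.cons (.br (nat_lit 14) (nat_lit 0) (.cons (.rf (nat_lit 1353) (nat_lit 19926519232773908561233952)) .nil)) .nil))),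
 (.br (nat_lit 13) (nat_lit 0) (.cons (.ev (nat_lit 5192296858539550067352435005915393) (nat_lit 1)) (.cons (.br (nat_lit 14) (nat_lit 0) (.cons (.ev (nat_lit 31275793145291470374125487343927297) (nat_lit 3)) (.cons (.br (nat_lit 15) (nat_lit 0) (.cons (.ev (nat_lit 2668881308562438473892104388640637441) (nat_lit 2)) (.cons (.rf (nat_lit 167) (nat_lit 631046501365259457)) .nil))) .nil))) (.cons (.br (nat_lit 14) (nat_lit 0) (.cons (.rf (nat_lit 995) (nat_lit 19457187847046167728199)) (.cons (.br (nat_lit 16) (nat_lit 0) (.cons (.ev (nat_lit 340292771955525088631702466423334896384) (nat_lit 2)) (.cons (.rf (nat_lit 175) (nat_lit 629853464509351271)) .nil))) (.cons (.rf (nat_lit 1354) (nat_lit 21174442659471745632798752)) .nil)))) .nil)))),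
 (.br (nat_lit 13) (nat_lit 0) (.cons (.rf (nat_lit 1355) (nat_lit 583706118939841765935136)) (.cons (.ev (nat_lit 5192296858539550067352435005915393) (nat_lit 1)) (.cons (.br (nat_lit 12) (nat_lit 0) (.cons (.rf (nat_lit 993) (nat_lit 494006847118628659531)) (.cons (.br (nat_lit 14) (nat_lit 0) (.cons (.ev (nat_lit 5348106330350442466684422968351785991) (nat_lit 3)) (.cons (.rf (nat_lit 167) (nat_lit 596075434524089537)) .nil))) (.cons (.br (nat_lit 14) (nat_lit 0) (.cons (.ev (nat_lit 1329248357422682057357651743816548353) (nat_lit 1)) (.cons (.ev (nat_lit 10425476694125350815670563751986179) (nat_lit 3)) (.cons (.br (nat_lit 15) (nat_lit 0) (.cons (.ev (nat_lit 680564774407315109027583584278161654273) (nat_lit 2)) (.cons (.br (nat_lit 16) (nat_lit 0) (.cons (.ev (nat_lit 341611594995952750776362648194038890753) (nat_lit 1)) .nil)) .nil))) .nil)))) (.cons (.br (nat_lit 14) (nat_lit 0) (.cons (.rf (nat_lit 167) (nat_lit 596075367784318311)) (.cons (.br (nat_lit 15) (nat_lit 0) (.cons (.ev (nat_lit 342951268353766078736252206459419492611)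 (nat_lit 2)) (.cons (.br (nat_lit 16) (nat_lit 0) (.cons (.ev (nat_lit 1366477655143747546556067800313025921031) (nat_lit 3)) .nil)) .nil))) (.cons (.br (nat_lit 17) (nat_lit 0) (.cons (.ev (nat_lit 174227240704264855494474885879093400829955) (nat_lit 2)) (.cons (.ev (nat_lit 87112291144339515994029018354179922526208) (nat_lit 1)) .nil))) .nil)))) .nil))))) .nil)))),
 (.br (nat_lit 15) (nat_lit 0) (.cons (.ev (nat_lit 1334481219413545401894003706414826240) (nat_lit 2)) .nil)),
 (.br (nat_lit 15) (nat_lit 0) (.cons (.ev (nat_lit 685892030736272538483091754832760275461) (nat_lit 3)) (.cons (.ev (nat_lit 2668881308562438473892104388640637441) (nat_lit 2)) .nil))),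
 (.br (nat_lit 16) (nat_lit 0) (.cons (.ev (nat_lit 2041704586120585795326572008732344058371) (nat_lit 3)) (.cons (.br (nat_lit 15) (nat_lit 0) (.cons (.ev (nat_lit 7975368134406182971908679213055477249) (nat_lit 3)) (.cons (.ev (nat_lit 688540142858012549444166236020528119809) (nat_lit 3)) .nil))) (.cons (.ev (nat_lit 680564774407315109027583584278161654273) (nat_lit 2)) .nil)))),
 (.br (nat_lit 15) (nat_lit 0) (.cons (.br (nat_lit 16) (nat_lit 0) (.cons (.ev (nat_lit 2057717873341246872743683344002371947017) (nat_lit 4)) .nil)) .nil)),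
 (.br (nat_lit 14) (nat_lit 0) (.cons (.ev (nat_lit 7996218768391386946161847361620411909) (nat_lit 3)) (.cons (.br (nat_lit 15) (nat_lit 0) (.cons (.ev (nat_lit 683223189833446763413514735177894593027) (nat_lit 2)) (.cons (.ev (nat_lit 1334440575362539362096165266135187713) (nat_lit 1)) .nil))) .nil))),
 (.br (nat_lit 14) (nat_lit 0) (.cons (.ev (nat_lit 340282387282576234351748190911223365888) (nat_lit 1)) (.cons (.br (nat_lit 15) (nat_lit 0) (.cons (.ev (nat_lit 683223189833446763413514735177894593027) (nat_lit 2)) (.cons (.kr (nat_lit 10384593717069673703806165879619585) (nat_lit 2658455991569836468174096994517647360) (nat_lit 0) (nat_lit 1)) .nil))) .nil))),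
 (.br (nat_lit 14) (nat_lit 0) (.cons (.br (nat_lit 16) (nat_lit 0) (.cons (.kr (nat_lit 10384593717069673703806165879619585) (nat_lit 2658455991569836468174096994517647360) (nat_lit 0) (nat_lit 1)) (.cons (.ev (nat_lit 340287579500207815609306684927149932545) (nat_lit 1)) .nil))) (.cons (.br (nat_lit 17) (nat_lit 0) (.cons (.kr (nat_lit 10384593717069673703806165879619585) (nat_lit 2658455991569836468174096994517647360) (nat_lit 0) (nat_lit 1)) (.cons (.ev (nat_lit 174224571904085931475348633374479949496833) (nat_lit 2)) .nil))) .nil))),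
 (.br (nat_lit 14) (nat_lit 0) (.cons (.rf (nat_lit 1363) (nat_lit 677582165103132179601393696)) (.cons (.br (nat_lit 15) (nat_lit 0) (.cons (.ev (nat_lit 340287579500207810868493459079028604928) (nat_lit 1)) (.cons (.ev (nat_lit 87112296336636995930931993519146506781441) (nat_lit 2)) .nil))) .nil)))]

theorem c50 : chkAll C T R L50 (nat_lit 1333) = true := by decide +kernel

theorem l50 : (nat_lit 1333) + L50.length = (nat_lit 1365) := by decide +kernel

/-- part of the certificates -/
def L51 : List Prf := [(.br (nat_lit 16) (nat_lit 0) (.cons (.ev (nat_lit 340287579500207815609306684927149932545) (nat_lit 1)) (.cons (.rf (nat_lit 214) (nat_lit 629955785696577729)) .nil))),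
 (.br (nat_lit 15) (nat_lit 0) (.cons (.ev (nat_lit 1329228075323777045247644815406989568) (nat_lit 1)) .nil)),
 (.br (nat_lit 13) (nat_lit 0) (.cons (.ev (nat_lit 5233099674132590564045451771904258) (nat_lit 2)) (.cons (.br (nat_lit 15) (nat_lit 0) (.cons (.ev (nat_lit 683223189833446763413514735177894593027) (nat_lit 2)) (.cons (.ev (nat_lit 1329248357422682057357651743816548353) (nat_lit 1)) .nil))) .nil))),
 (.br (nat_lit 13) (nat_lit 0) (.cons (.br (nat_lit 15) (nat_lit 0) (.cons (.ev (nat_lit 1329248357422682057357651743816548353) (nat_lit 1)) (.cons (.ev (nat_lit 1334440575362539362096165266135187713) (nat_lit 1)) .nil))) (.cons (.br (nat_lit 15) (nat_lit 0) (.cons (.ev (nat_lit 1334440575362539362096165266135187713) (nat_lit 1)) (.cons (.ev (nat_lit 1329248357422682057357651743816548353) (nat_lit 1)) .nil))) .nil))),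
 (.br (nat_lit 13) (nat_lit 0) (.cons (.rf (nat_lit 1368) (nat_lit 677582165103132179601393696)) (.cons (.br (nat_lit 16) (nat_lit 0) (.cons (.br (nat_lit 15) (nat_lit 0) (.cons (.ev (nat_lit 2668922032464194417216623828101497861) (nat_lit 3)) .nil)) (.cons (.ev (nat_lit 871803476177557032283076755768529151197193) (nat_lit 4)) .nil))) .nil))),
 (.br (nat_lit 13) (nat_lit 0) (.cons (.br (nat_lit 14) (nat_lit 0) (.cons (.ev (nat_lit 2689690902980848041470143610713538561) (nat_lit 3)) (.cons (.rf (nat_lit 214) (nat_lit 631011351320561857)) .nil))) (.cons (.br (nat_lit 14) (nat_lit 0) (.cons (.ev (nat_lit 1334440575362544102909391114290069760) (nat_lit 1)) (.cons (.ev (nat_lit 340287579500516091693380192580994662400) (nat_lit 1)) (.cons (.br (nat_lit 15) (nat_lit 0) (.cons (.ev (nat_lit 2041694202001623566403356718603658462211) (nat_lit 3)) (.cons (.br (nat_lit 16) (nat_lit 0) (.cons (.ev (nat_lit 683223189834068151284651978626131165697) (nat_lit 2)) .nil)) .nil))) .nil)))) (.cons (.br (nat_lit 14) (nat_lit 0) (.cons (.rf (nat_lit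 214) (nat_lit 630977266459942081)) (.cons (.br (nat_lit 15) (nat_lit 0) (.cons (.ev (nat_lit 8037676650553490578464217314611168775) (nat_lit 4)) (.cons (.rf (nat_lit 911) (nat_lit 20605498823483853971777)) .nil))) (.cons (.br (nat_lit 17) (nat_lit 0) (.cons (.ev (nat_lit 174224571904085314923180486363570373657091) (nat_lit 2)) (.cons (.ev (nat_lit 87112285992766862655506989740682815471875) (nat_lit 2)) .nil))) .nil)))) .nil)))),
 (.br (nat_lit 13) (nat_lit 0) (.cons (.rf (nat_lit 1370) (nat_lit 19926519232773908561233952)) (.cons (.ev (nat_lit 1329248357733380696846011168637059073) (nat_lit 1)) (.cons (.br (nat_lit 14) (nat_lit 0) (.cons (.br (nat_lit 14) (nat_lit 0) (.cons (.ev (nat_lit 1334440575362544102909391114290069760) (nat_lit 1)) .nil)) (.cons (.br (nat_lit 14) (nat_lit 0) (.cons (.ev (nat_lit 1334440575362544102909391114290069760) (nat_lit 1)) .nil)) .nil))) .nil)))),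
 (.br (nat_lit 13) (nat_lit 0) (.cons (.rf (nat_lit 1370) (nat_lit 19926519232773908561233952)) (.cons (.ev (nat_lit 1329248357733380696846011168637059073) (nat_lit 1)) (.cons (.br (nat_lit 15) (nat_lit 0) (.cons (.br (nat_lit 14) (nat_lit 0) (.cons (.ev (nat_lit 10384752792369481279257699902554627) (nat_lit 2)) (.cons (.br (nat_lit 16) (nat_lit 0) (.cons (.zr (nat_lit 5317074242418915334468687052962529793) (nat_lit 680595887624885045951450157116605988864) (nat_lit 16) (nat_lit 10)) .nil)) .nil))) (.cons (.ev (nat_lit 685881646301009376041473512736840613891) (nat_lit 3)) (.cons (.br (nat_lit 16) (nat_lit 0) (.cons (.br (nat_lit 14) (nat_lit 0) (.cons (.ev (nat_lit 1369136070569874365386583797163681121281) (nat_lit 3)) .nil)) (.cons (.ev (nat_lit 683223189834068151284651978626131165697) (nat_lit 2)) .nil))) .nil)))) .nil)))),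
 (.br (nat_lit 13) (nat_lit 0) (.cons (.br (nat_lit 15) (nat_lit 0) (.cons (.kr (nat_lit 10384593717069673703806165879619585) (nat_lit 2658455991569836468174096994517647360) (nat_lit 0) (nat_lit 1)) (.cons (.ev (nat_lit 1329248357422682057357651743816548353) (nat_lit 1)) (.cons (.br (nat_lit 16) (nat_lit 0) (.cons (.ev (nat_lit 680575199566475191708958526657232242179) (nat_lit 3)) (.cons (.ev (nat_lit 683223189834068151284651978626131165697) (nat_lit 2)) .nil))) .nil)))) (.cons (.rf (nat_lit 1365) (nat_lit 17511028632671034397526048)) (.cons (.br (nat_lit 16) (nat_lit 0) (.cons (.rf (nat_lit 214) (nat_lit 629851400945343681)) (.cons (.br (nat_lit 14) (nat_lit 0) (.cons (.ev (nat_lit 1363808693339371998330566609302255306245) (nat_lit 3)) (.cons (.br (nat_lit 15) (nat_lit 0) (.cons (.ev (nat_lit 683233574586239128153836088891612987395) (nat_lit 2)) .nil)) .nil))) (.cons (.ev (nat_lit 340282387282576234351748190911223365888) (nat_lit 1)) .nil)))) .nil)))),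
 (.br (nat_lit 13) (nat_lit 0) (.cons (.ev (nat_lit 20282720297587311666223950856193) (nat_lit 1)) (.cons (.rf (nat_lit 214) (nat_lit 554412737712883841)) .nil))),
 (.br (nat_lit 13) (nat_lit 0) (.cons (.rf (nat_lit 1373) (nat_lit 19926519232773908561233952)) (.cons (.rf (nat_lit 1374) (nat_lit 19459491438255770011680)) (.cons (.br (nat_lit 15) (nat_lit 0) (.cons (.br (nat_lit 14) (nat_lit 0) (.cons (.ev (nat_lit 683223189834068151284651978626131165697) (nat_lit 2)) (.cons (.ev (nat_lit 1334440575054268018835885650878660865) (nat_lit 1)) .nil))) (.cons (.rf (nat_lit 214) (nat_lit 628726600546986177)) (.cons (.br (nat_lit 17) (nat_lit 0) (.cons (.ev (nat_lit 87113615159835569214761774276796898869505) (nat_lit 1)) (.cons (.ev (nat_lit 683223189834068151284651978626131165697) (nat_lit 2)) .nil))) .nil)))) .nil)))),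
 (.br (nat_lit 14) (nat_lit 0) (.cons (.ev (nat_lit 340287579500207810868493459079028604928) (nat_lit 1)) (.cons (.br (nat_lit 15) (nat_lit 0) (.cons (.ev (nat_lit 1329248357422682057357651743816548353) (nat_lit 1)) (.cons (.kr (nat_lit 10384593717069673703806165879619585) (nat_lit 2658455991569836468174096994517647360) (nat_lit 0) (nat_lit 1)) .nil))) .nil))),
 (.br (nat_lit 13) (nat_lit 0) (.cons (.rf (nat_lit 1365) (nat_lit 17511028632671034397526048)) (.cons (.rf (nat_lit 1374) (nat_lit 19459491438255770011680)) (.cons (.br (nat_lit 14) (nat_lit 0) (.cons (.rf (nat_lit 1376) (nat_lit 19926519232773908561233952)) (.cons (.br (nat_lit 14) (nat_lit 0) (.cons (.rf (nat_lit 1376) (nat_lit 19926519232773908561233952)) .nil)) .nil))) .nil)))),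
 (.br (nat_lit 13) (nat_lit 0) (.cons (.br (nat_lit 15) (nat_lit 0) (.cons (.kr (nat_lit 10384593717069673703806165879619585) (nat_lit 2658455991569836468174096994517647360) (nat_lit 0) (nat_lit 1)) (.cons (.br (nat_lit 14) (nat_lit 0) (.cons (.ev (nat_lit 683223189833446763413514735177894593027) (nat_lit 2)) (.cons (.br (nat_lit 16) (nat_lit 0) (.cons (.ev (nat_lit 2616125501270950142705307975367314084465669) (nat_lit 5)) .nil)) .nil))) (.cons (.ev (nat_lit 1329248357422682057357651743816548353) (nat_lit 1)) .nil)))) (.cons (.br (nat_lit 14) (nat_lit 0) (.cons (.br (nat_lit 15) (nat_lit 0) (.cons (.ev (nat_lit 683223189833446763413514735177894593027) (nat_lit 2)) (.cons (.br (nat_lit 16) (nat_lit 0) (.cons (.ev (nat_lit 341622020234026675259262977670314656515) (nat_lit 2)) .nil)) .nil))) (.cons (.ev (nat_lit 340287579500516091693380192580994662400) (nat_lit 1)) (.cons (.br (nat_lit 16) (nat_lit 0) (.cons (.rf (nat_lit 924) (nat_lit 676411018180443490249443360)) (.cons (.ev (nat_lit 350490837929043843257235248750587818411015)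 (nat_lit 3)) .nil))) .nil)))) (.cons (.br (nat_lit 17) (nat_lit 0) (.cons (.rf (nat_lit 802) (nat_lit 631047533231314978)) (.cons (.kr (nat_lit 87112285952042656250294016670557934715136) (nat_lit 158457533954420347410300665856) (nat_lit 1) (nat_lit 0)) (.cons (.ev (nat_lit 174224571904085931475348633374479949496833) (nat_lit 2)) .nil)))) .nil)))),
 (.br (nat_lit 13) (nat_lit 0) (.cons (.rf (nat_lit 1378) (nat_lit 677582165103132179601393696)) (.cons (.br (nat_lit 15) (nat_lit 0) (.cons (.br (nat_lit 16) (nat_lit 0) (.cons (.ev (nat_lit 1334440575054268018835885650878660865) (nat_lit 1)) (.cons (.ev (nat_lit 685881727430642954871378004073213461507) (nat_lit 3)) .nil))) (.cons (.rf (nat_lit 975) (nat_lit 628832017168148514)) (.cons (.br (nat_lit 16) (nat_lit 0) (.cons (.br (nat_lit 14) (nat_lit 0) (.cons (.ev (nat_lit 10384752792369481279257699902554627) (nat_lit 2)) .nil)) (.cons (.ev (nat_lit 349135025454472872317109250501134694876167) (nat_lit 3)) .nil))) .nil)))) (.cons (.br (nat_lit 14) (nat_lit 0) (.cons (.ev (nat_lit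 1329248357422682057357651743816548353) (nat_lit 1)) (.cons (.br (nat_lit 14) (nat_lit 0) (.cons (.ev (nat_lit 1329248357422682057357651743816548353) (nat_lit 1)) (.cons (.ev (nat_lit 10384752792369481279257699902554627) (nat_lit 2)) .nil))) (.cons (.kr (nat_lit 87112285952042656250294016670557934715136) (nat_lit 158457533954420347410300665856) (nat_lit 1) (nat_lit 0)) .nil)))) .nil)))),
 (.br (nat_lit 13) (nat_lit 0) (.cons (.rf (nat_lit 1378) (nat_lit 677582165103132179601393696)) (.cons (.rf (nat_lit 1379) (nat_lit 677582165103132179601393696)) (.cons (.br (nat_lit 17) (nat_lit 0) (.cons (.ev (nat_lit 174224571904085931475348633374479949496833) (nat_lit 2)) (.cons (.br (nat_lit 15) (nat_lit 0) (.cons (.ev (nat_lit 348457119176305036019703391636961305297409) (nat_lit 3)) (.cons (.ev (nat_lit 522681691080707258752496698984004925522945) (nat_lit 3)) .nil))) (.cons (.rf (nat_lit 802) (nat_lit 629888647939069986)) .nil)))) .nil)))),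
 (.br (nat_lit 7) (nat_lit 0) (.cons (.rf (nat_lit 1321) (nat_lit 493823368425323464736)) (.cons (.rf (nat_lit 1287) (nat_lit 493823368425323464736)) (.cons (.ev (nat_lit 4740957908384230670339) (nat_lit 2)) (.cons (.br (nat_lit 10) (nat_lit 0) (.cons (.rf (nat_lit 1254) (nat_lit 493709686794541500452)) (.cons (.ev (nat_lit 79229371440084233701990334721) (nat_lit 1)) (.cons (.ev (nat_lit 20282410812577490320055714447616) (nat_lit 1)) (.cons (.br (nat_lit 11) (nat_lit 0) (.cons (.ev (nat_lit 79537652264970968299173117953) (nat_lit 1)) (.cons (.ev (nat_lit 20282719088661563826614309027841) (nat_lit 1)) (.cons (.ev (nat_lit 621392612095147451600601089) (nat_lit 2)) (.cons (.br (nat_lit 12) (nat_lit 0) (.cons (.br (nat_lit 14) (nat_lit 0) (.cons (.rf (nat_lit 1322) (nat_lit 18240816216870055185473)) (.cons (.br (nat_lit 14) (nat_lit 0) (.cons (.rf (nat_lit 1322) (nat_lit 18240816216870055185473)) (.cons (.br (nat_lit 15) (nat_lit 0) (.cons (.rf (nat_lit 1323) (nat_lit 677582165103132179601393696)) (.cons (.rf (nat_lit 1323) (nat_lit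 640105464695078675185502240)) .nil))) .nil))) .nil))) (.cons (.rf (nat_lit 1324) (nat_lit 583706118939841765935136)) (.cons (.rf (nat_lit 1325) (nat_lit 583706118939841765935136)) (.cons (.br (nat_lit 13) (nat_lit 0) (.cons (.rf (nat_lit 1325) (nat_lit 547072003193943944692800)) (.cons (.rf (nat_lit 1324) (nat_lit 547072003193943944692800)) (.cons (.ev (nat_lit 40723275537072827431465854697473) (nat_lit 2)) (.cons (.br (nat_lit 14) (nat_lit 0) (.cons (.rf (nat_lit 1326) (nat_lit 677582165103132179601393696)) (.cons (.rf (nat_lit 1327) (nat_lit 677582165103132179601393696)) (.cons (.br (nat_lit 14) (nat_lit 0) (.cons (.rf (nat_lit 1326) (nat_lit 677582165103132179601393696)) (.cons (.rf (nat_lit 1327) (nat_lit 677582165103132179601393696)) .nil))) .nil)))) .nil))))) .nil))))) .nil))))) .nil))))) (.cons (.br (nat_lit 10) (nat_lit 0) (.cons (.rf (nat_lit 1254) (nat_lit 493709686794541500452)) (.cons (.ev (nat_lit 79229371440084233701990334721) (nat_lit 1)) (.cons (.br (nat_lit 11) (nat_lit 0) (.cons (.ev (nat_lit 79229371440084234797207060481)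 (nat_lit 1)) (.cons (.ev (nat_lit 621392612095147451600601089) (nat_lit 2)) (.cons (.br (nat_lit 12) (nat_lit 0) (.cons (.ev (nat_lit 203616387338064974444748033229833) (nat_lit 4)) (.cons (.ev (nat_lit 5192297169228781716234267955101953) (nat_lit 1)) (.cons (.br (nat_lit 13) (nat_lit 0) (.cons (.ev (nat_lit 5192296858539550067352435005915393) (nat_lit 1)) (.cons (.br (nat_lit 14) (nat_lit 0) (.cons (.ev (nat_lit 20891357886964658535589400889525255) (nat_lit 3)) (.cons (.br (nat_lit 15) (nat_lit 0) (.cons (.ev (nat_lit 5337803342259732486444848257389822979) (nat_lit 3)) (.cons (.rf (nat_lit 170) (nat_lit 596110584512219329)) .nil))) .nil))) (.cons (.br (nat_lit 14) (nat_lit 0) (.cons (.rf (nat_lit 1328) (nat_lit 622703726024184642504736)) (.cons (.rf (nat_lit 1328) (nat_lit 586104264244904615642180)) (.cons (.br (nat_lit 15) (nat_lit 0) (.cons (.br (nat_lit 15) (nat_lit 0) (.cons (.ev (nat_lit 2668881308562438473892104388640637441) (nat_lit 2)) .nil)) (.cons (.br (nat_lit 15) (nat_lit 0) (.cons (.ev (nat_lit 2668881308562438473892104388640637441)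 (nat_lit 2)) .nil)) .nil))) .nil)))) .nil)))) .nil)))) (.cons (.br (nat_lit 12) (nat_lit 0) (.cons (.ev (nat_lit 203616387338064974444748033229833) (nat_lit 4)) (.cons (.rf (nat_lit 1331) (nat_lit 583706118939841765935136)) (.cons (.rf (nat_lit 1332) (nat_lit 583706118939841765935136)) (.cons (.br (nat_lit 13) (nat_lit 0) (.cons (.rf (nat_lit 1332) (nat_lit 547071889512313162728516)) (.cons (.rf (nat_lit 1331) (nat_lit 547071889512313162728516)) (.cons (.br (nat_lit 14) (nat_lit 0) (.cons (.rf (nat_lit 1333) (nat_lit 19926519232773908561233952)) (.cons (.br (nat_lit 14) (nat_lit 0) (.cons (.ev (nat_lit 10384752792369481279257699902554627) (nat_lit 2)) (.cons (.rf (nat_lit 172) (nat_lit 629888681229125825)) .nil))) (.cons (.br (nat_lit 14) (nat_lit 0) (.cons (.rf (nat_lit 1333) (nat_lit 19926519232773908561233952)) (.cons (.rf (nat_lit 172) (nat_lit 629888681229125825)) .nil))) .nil)))) (.cons (.br (nat_lit 14) (nat_lit 0) (.cons (.rf (nat_lit 1334) (nat_lit 677582165103132179601393696)) (.cons (.rf (nat_lit 1335) (nat_lit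 677582165103132179601393696)) (.cons (.br (nat_lit 14) (nat_lit 0) (.cons (.rf (nat_lit 1334) (nat_lit 677582165103132179601393696)) (.cons (.rf (nat_lit 1335) (nat_lit 677582165103132179601393696)) .nil))) .nil)))) .nil))))) .nil))))) .nil))))) (.cons (.br (nat_lit 11) (nat_lit 0) (.cons (.ev (nat_lit 158767033149932846973733306880) (nat_lit 2)) (.cons (.br (nat_lit 12) (nat_lit 0) (.cons (.ev (nat_lit 121853540175290964123612764045827) (nat_lit 3)) (.cons (.ev (nat_lit 5192296858539550067353538812444673) (nat_lit 1)) (.cons (.br (nat_lit 13) (nat_lit 0) (.cons (.ev (nat_lit 5192297169228781716235371761631233) (nat_lit 1)) (.cons (.kr (nat_lit 158456329750895159156244873217) (nat_lit 40564819207321787591972523868672) (nat_lit 0) (nat_lit 6)) (.cons (.br (nat_lit 14) (nat_lit 0) (.cons (.rf (nat_lit 1336) (nat_lit 19926519232773908561233952)) (.cons (.rf (nat_lit 1336) (nat_lit 18755336420899932436857924)) (.cons (.br (nat_lit 15) (nat_lit 0) (.cons (.br (nat_lit 15) (nat_lit 0) (.cons (.ev (nat_lit 2668881308562438473892104388640637441)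 (nat_lit 2)) .nil)) (.cons (.br (nat_lit 15) (nat_lit 0) (.cons (.ev (nat_lit 2668881308562438473892104388640637441) (nat_lit 2)) .nil)) .nil))) .nil)))) .nil)))) .nil)))) (.cons (.ev (nat_lit 621392612095147451600601089) (nat_lit 2)) (.cons (.br (nat_lit 14) (nat_lit 0) (.cons (.ev (nat_lit 5192296858534846147613639053410304) (nat_lit 1)) (.cons (.br (nat_lit 12) (nat_lit 0) (.cons (.zr (nat_lit 10587417813110986561503733479374851) (nat_lit 633832553669464735187139297792) (nat_lit 16) (nat_lit 2)) (.cons (.br (nat_lit 13) (nat_lit 0) (.cons (.kr (nat_lit 5212579577623489120580987281998080) (nat_lit 1329228075014287313059816877036994560) (nat_lit 1) (nat_lit 0)) (.cons (.br (nat_lit 15) (nat_lit 0) (.cons (.ev (nat_lit 1329248357422686761277390539735499008) (nat_lit 1)) (.cons (.rf (nat_lit 166) (nat_lit 596075434490567873)) .nil))) .nil))) (.cons (.br (nat_lit 13) (nat_lit 0) (.cons (.br (nat_lit 15) (nat_lit 0) (.cons (.ev (nat_lit 37353992391371731994927803395344172549) (nat_lit 5)) (.cons (.rf (nat_lit 167) (nat_lit 631046434626536775))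 .nil))) (.cons (.br (nat_lit 16) (nat_lit 0) (.cons (.ev (nat_lit 680564774407315109027583584278161654273) (nat_lit 2)) (.cons (.rf (nat_lit 175) (nat_lit 629853531216616641)) .nil))) (.cons (.br (nat_lit 15) (nat_lit 0) (.cons (.br (nat_lit 15) (nat_lit 0) (.cons (.ev (nat_lit 1329248357733375992926272372684685568) (nat_lit 1)) .nil)) (.cons (.br (nat_lit 15) (nat_lit 0) (.cons (.ev (nat_lit 1329248357733375992926272372684685568) (nat_lit 1)) .nil)) .nil))) .nil)))) .nil)))) (.cons (.ev (nat_lit 5192297169228781716235371761631233) (nat_lit 1)) (.cons (.br (nat_lit 12) (nat_lit 0) (.cons (.br (nat_lit 13) (nat_lit 0) (.cons (.br (nat_lit 15) (nat_lit 0) (.cons (.ev (nat_lit 2668881308562438473892104388640637441) (nat_lit 2)) (.cons (.rf (nat_lit 167) (nat_lit 631046501332753601)) .nil))) (.cons (.br (nat_lit 16) (nat_lit 0) (.cons (.ev (nat_lit 680564774407315109027583584278161654273) (nat_lit 2)) (.cons (.rf (nat_lit 175) (nat_lit 629853464510399815)) .nil))) (.cons (.rf (nat_lit 1338) (nat_lit 21174442659471745632798752))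 .nil)))) (.cons (.br (nat_lit 13) (nat_lit 0) (.cons (.br (nat_lit 13) (nat_lit 0) (.cons (.ev (nat_lit 2720844844459799093851294437682580493) (nat_lit 4)) (.cons (.rf (nat_lit 167) (nat_lit 630978331602689217)) .nil))) (.cons (.rf (nat_lit 1339) (nat_lit 19926519232773908561233952)) (.cons (.br (nat_lit 13) (nat_lit 0) (.cons (.rf (nat_lit 167) (nat_lit 630978331602689217)) (.cons (.rf (nat_lit 1339) (nat_lit 19926519232773908561233952)) .nil))) .nil)))) (.cons (.br (nat_lit 13) (nat_lit 0) (.cons (.rf (nat_lit 1340) (nat_lit 19926519232773908561233952)) (.cons (.br (nat_lit 13) (nat_lit 0) (.cons (.ev (nat_lit 680564774407315109027583584278161654273) (nat_lit 2)) (.cons (.rf (nat_lit 172) (nat_lit 629853531216616641)) .nil))) (.cons (.br (nat_lit 13) (nat_lit 0) (.cons (.rf (nat_lit 1340) (nat_lit 19926519232773908561233952)) (.cons (.rf (nat_lit 172) (nat_lit 629853531216616641)) .nil))) .nil)))) (.cons (.br (nat_lit 13) (nat_lit 0) (.cons (.rf (nat_lit 1341) (nat_lit 677582165103132179601393696)) (.cons (.rf (nat_lit 1342)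 (nat_lit 677582165103132179601393696)) (.cons (.br (nat_lit 13) (nat_lit 0) (.cons (.rf (nat_lit 1341) (nat_lit 677582165103132179601393696)) (.cons (.rf (nat_lit 1342) (nat_lit 677582165103132179601393696)) .nil))) .nil)))) .nil))))) .nil))))) .nil))))) (.cons (.br (nat_lit 11) (nat_lit 0) (.cons (.br (nat_lit 13) (nat_lit 0) (.cons (.rf (nat_lit 1344) (nat_lit 583706118939841765935136)) (.cons (.rf (nat_lit 1344) (nat_lit 547107595141940716406820)) (.cons (.br (nat_lit 13) (nat_lit 0) (.cons (.rf (nat_lit 1344) (nat_lit 583706118939841765935136)) (.cons (.rf (nat_lit 1344) (nat_lit 547107595141940716406820)) (.cons (.br (nat_lit 16) (nat_lit 0) (.cons (.rf (nat_lit 1345) (nat_lit 677582165103132179601393696)) (.cons (.rf (nat_lit 1345) (nat_lit 677545566579334278551865380)) (.cons (.rf (nat_lit 1343) (nat_lit 21137806235629972558546976)) .nil)))) .nil)))) .nil)))) (.cons (.br (nat_lit 12) (nat_lit 0) (.cons (.br (nat_lit 14) (nat_lit 0) (.cons (.rf (nat_lit 1346) (nat_lit 583706118939841765935136)) (.cons (.br (nat_lit 14)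 (nat_lit 0) (.cons (.rf (nat_lit 1346) (nat_lit 583706118939841765935136)) (.cons (.br (nat_lit 15) (nat_lit 0) (.cons (.rf (nat_lit 1347) (nat_lit 677582165103132179601393696)) (.cons (.rf (nat_lit 1347) (nat_lit 640105464695078675185502240)) .nil))) .nil))) .nil))) (.cons (.rf (nat_lit 1349) (nat_lit 583706118939841765935136)) (.cons (.rf (nat_lit 1350) (nat_lit 583706118939841765935136)) (.cons (.br (nat_lit 13) (nat_lit 0) (.cons (.rf (nat_lit 1350) (nat_lit 547071854575297904149572)) (.cons (.rf (nat_lit 1349) (nat_lit 547071854575297904149572)) (.cons (.kr (nat_lit 158456329750895159156244873217) (nat_lit 40564819207321787591972523868672) (nat_lit 0) (nat_lit 6)) (.cons (.br (nat_lit 14) (nat_lit 0) (.cons (.rf (nat_lit 1351) (nat_lit 677582165103132179601393696)) (.cons (.rf (nat_lit 1352) (nat_lit 677582165103132179601393696)) (.cons (.br (nat_lit 14) (nat_lit 0) (.cons (.rf (nat_lit 1351) (nat_lit 677582165103132179601393696)) (.cons (.rf (nat_lit 1352) (nat_lit 677582165103132179601393696)) .nil))) .nil)))) .nil)))))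 .nil))))) (.cons (.br (nat_lit 13) (nat_lit 0) (.cons (.rf (nat_lit 1355) (nat_lit 583706118939841765935136)) (.cons (.ev (nat_lit 5192296858539550067352435005915393) (nat_lit 1)) (.cons (.rf (nat_lit 1356) (nat_lit 583706118939841765935136)) (.cons (.br (nat_lit 13) (nat_lit 0) (.cons (.rf (nat_lit 1355) (nat_lit 583706118939841765935136)) (.cons (.ev (nat_lit 5192296858539550067352435005915393) (nat_lit 1)) (.cons (.rf (nat_lit 1356) (nat_lit 583706118939841765935136)) (.cons (.br (nat_lit 12) (nat_lit 0) (.cons (.br (nat_lit 15) (nat_lit 0) (.cons (.rf (nat_lit 1357) (nat_lit 677582165103132179601393696)) (.cons (.rf (nat_lit 1357) (nat_lit 640105464695078675185502240)) .nil))) (.cons (.br (nat_lit 14) (nat_lit 0) (.cons (.zr (nat_lit 20769346509434487813258788743413760) (nat_lit 2658455991574691061206718461148922371) (nat_lit 16) (nat_lit 6)) (.cons (.rf (nat_lit 1358) (nat_lit 677582165103132179601393696)) (.cons (.rf (nat_lit 1358) (nat_lit 640105464695078675185502240)) .nil)))) (.cons (.rf (nat_lit 1359) (nat_lit 677582165103132179601393696))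 (.cons (.rf (nat_lit 1359) (nat_lit 640105464695078675185502240)) .nil))))) .nil))))) .nil))))) (.cons (.ev (nat_lit 621392612095147451600601089) (nat_lit 2)) (.cons (.br (nat_lit 12) (nat_lit 0) (.cons (.br (nat_lit 13) (nat_lit 0) (.cons (.br (nat_lit 14) (nat_lit 0) (.cons (.rf (nat_lit 1004) (nat_lit 19457187847046167728199)) (.cons (.ev (nat_lit 10384752792369481279257699902554627) (nat_lit 2)) (.cons (.br (nat_lit 15) (nat_lit 0) (.cons (.rf (nat_lit 1360) (nat_lit 677582165103132179601393696)) (.cons (.br (nat_lit 15) (nat_lit 0) (.cons (.rf (nat_lit 1360) (nat_lit 677582165103132179601393696)) .nil)) .nil))) .nil)))) (.cons (.br (nat_lit 14) (nat_lit 0) (.cons (.br (nat_lit 14) (nat_lit 0) (.cons (.ev (nat_lit 7996218768391386946161847361620411909) (nat_lit 3)) (.cons (.rf (nat_lit 214) (nat_lit 631013481355913409)) .nil))) (.cons (.rf (nat_lit 1361) (nat_lit 19926519232773908561233952)) (.cons (.br (nat_lit 14) (nat_lit 0) (.cons (.rf (nat_lit 214) (nat_lit 631013481355913409)) (.cons (.rf (nat_lit 1361) (nat_lit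 19926519232773908561233952)) .nil))) .nil)))) (.cons (.br (nat_lit 14) (nat_lit 0) (.cons (.rf (nat_lit 1362) (nat_lit 19926519232773908561233952)) (.cons (.ev (nat_lit 340282387282576229647828453219111076097) (nat_lit 1)) (.cons (.br (nat_lit 14) (nat_lit 0) (.cons (.rf (nat_lit 1362) (nat_lit 19926519232773908561233952)) (.cons (.ev (nat_lit 340282387282576229647828453219111076097) (nat_lit 1)) .nil))) .nil)))) (.cons (.br (nat_lit 14) (nat_lit 0) (.cons (.rf (nat_lit 1363) (nat_lit 677582165103132179601393696)) (.cons (.rf (nat_lit 1364) (nat_lit 677582165103132179601393696)) (.cons (.br (nat_lit 14) (nat_lit 0) (.cons (.rf (nat_lit 1363) (nat_lit 677582165103132179601393696)) (.cons (.rf (nat_lit 1364) (nat_lit 677582165103132179601393696)) .nil))) .nil)))) .nil))))) (.cons (.br (nat_lit 14) (nat_lit 0) (.cons (.br (nat_lit 13) (nat_lit 0) (.cons (.br (nat_lit 15) (nat_lit 0) (.cons (.ev (nat_lit 2668840904063719923606154310880329729) (nat_lit 3)) (.cons (.rf (nat_lit 214) (nat_lit 631046501232347329)) .nil))) (.cons (.rf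 (nat_lit 1365) (nat_lit 19926519232773908561233952)) (.cons (.br (nat_lit 15) (nat_lit 0) (.cons (.rf (nat_lit 1366) (nat_lit 21174442659472880612542496)) (.cons (.br (nat_lit 15) (nat_lit 0) (.cons (.rf (nat_lit 1366) (nat_lit 21174442659472880612542496)) .nil)) .nil))) .nil)))) (.cons (.ev (nat_lit 10384752175817313132246790259606017) (nat_lit 2)) (.cons (.br (nat_lit 15) (nat_lit 0) (.cons (.rf (nat_lit 1367) (nat_lit 19926519232773908561233952)) (.cons (.ev (nat_lit 680569926218275541297202952526257718017) (nat_lit 2)) (.cons (.br (nat_lit 15) (nat_lit 0) (.cons (.rf (nat_lit 1367) (nat_lit 19926519232773908561233952)) (.cons (.ev (nat_lit 680569926218275541297202952526257718017) (nat_lit 2)) .nil))) .nil)))) (.cons (.br (nat_lit 13) (nat_lit 0) (.cons (.rf (nat_lit 1368) (nat_lit 677582165103132179601393696)) (.cons (.rf (nat_lit 1369) (nat_lit 677582165103132179601393696)) (.cons (.br (nat_lit 13) (nat_lit 0) (.cons (.rf (nat_lit 1368) (nat_lit 677582165103132179601393696)) (.cons (.rf (nat_lit 1369) (nat_lit 677582165103132179601393696))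 .nil))) .nil)))) .nil))))) (.cons (.br (nat_lit 13) (nat_lit 0) (.cons (.rf (nat_lit 1370) (nat_lit 19926519232773908561233952)) (.cons (.rf (nat_lit 1371) (nat_lit 19926519232773908561233952)) (.cons (.rf (nat_lit 1372) (nat_lit 19926519232773908561233952)) (.cons (.br (nat_lit 13) (nat_lit 0) (.cons (.rf (nat_lit 1370) (nat_lit 19926519232773908561233952)) (.cons (.rf (nat_lit 1371) (nat_lit 19926519232773908561233952)) (.cons (.rf (nat_lit 1372) (nat_lit 19926519232773908561233952)) .nil)))) .nil))))) (.cons (.br (nat_lit 13) (nat_lit 0) (.cons (.rf (nat_lit 1373) (nat_lit 19926519232773908561233952)) (.cons (.rf (nat_lit 1375) (nat_lit 19926519232773908561233952)) (.cons (.rf (nat_lit 1377) (nat_lit 19926519232773908561233952)) (.cons (.br (nat_lit 13) (nat_lit 0) (.cons (.rf (nat_lit 1373) (nat_lit 19926519232773908561233952)) (.cons (.rf (nat_lit 1375) (nat_lit 19926519232773908561233952)) (.cons (.rf (nat_lit 1377) (nat_lit 19926519232773908561233952)) .nil)))) .nil))))) (.cons (.br (nat_lit 13) (nat_lit 0) (.cons (.rf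 (nat_lit 1378) (nat_lit 677582165103132179601393696)) (.cons (.rf (nat_lit 1379) (nat_lit 677582165103132179601393696)) (.cons (.rf (nat_lit 1380) (nat_lit 677582165103132179601393696)) (.cons (.br (nat_lit 13) (nat_lit 0) (.cons (.rf (nat_lit 1378) (nat_lit 677582165103132179601393696)) (.cons (.rf (nat_lit 1379) (nat_lit 677582165103132179601393696)) (.cons (.rf (nat_lit 1380) (nat_lit 677582165103132179601393696)) .nil)))) .nil))))) .nil)))))) .nil)))))) .nil)))))) .nil))))))]

theorem c51 : chkAll C T R L51 (nat_lit 1365) = true := by decide +kernel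

theorem l51 : (nat_lit 1365) + L51.length = (nat_lit 1382) := by decide +kernel

/-- part of the certificates -/
def L52 : List Prf := [(.br (nat_lit 13) (nat_lit 0) (.cons (.ev (nat_lit 40723275537072827431465821274627) (nat_lit 2)) (.cons (.br (nat_lit 15) (nat_lit 0) (.cons (.ev (nat_lit 683223190150359413507610256235565548039) (nat_lit 3)) (.cons (.ev (nat_lit 2658496715158490087469911215079293442) (nat_lit 2)) .nil))) .nil))),
 (.br (nat_lit 12) (nat_lit 0) (.cons (.ev (nat_lit 10384752484102805189905775958556672) (nat_lit 2)) (.cons (.ev (nat_lit 2668840585286906142022581307050033153) (nat_lit 2)) (.cons (.br (nat_lit 13) (nat_lit 0) (.cons (.ev (nat_lit 2668840585600013225311255348268630531) (nat_lit 2)) (.cons (.rf (nat_lit 1382) (nat_lit 19926519232773908561233952)) (.cons (.br (nat_lit 13) (nat_lit 0) (.cons (.ev (nat_lit 2668840585600013225311255348268630531) (nat_lit 2)) (.cons (.rf (nat_lit 1382) (nat_lit 19926519232773908561233952)) .nil))) .nil)))) .nil)))),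
 (.br (nat_lit 13) (nat_lit 0) (.cons (.ev (nat_lit 680595887623032976447293681361903552005) (nat_lit 3)) (.cons (.ev (nat_lit 2668881308875545557180778429858971651) (nat_lit 2)) .nil))),
 (.br (nat_lit 12) (nat_lit 0) (.cons (.rf (nat_lit 1384) (nat_lit 677582165103132179601393696)) (.cons (.rf (nat_lit 1384) (nat_lit 640068866319899420176517152)) .nil))),
 (.br (nat_lit 12) (nat_lit 0) (.cons (.rf (nat_lit 1385) (nat_lit 677582165103132179601393696)) (.cons (.ev (nat_lit 2668841060966594126719490460066251266) (nat_lit 3)) .nil))),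
 (.br (nat_lit 15) (nat_lit 0) (.cons (.ev (nat_lit 5348106647267928152945022980590011397) (nat_lit 3)) (.cons (.rf (nat_lit 214) (nat_lit 631046434458929478)) .nil))),
 (.br (nat_lit 15) (nat_lit 0) (.cons (.br (nat_lit 16) (nat_lit 0) (.cons (.ev (nat_lit 88137136313921399592134330353348314857728) (nat_lit 2)) .nil)) .nil)),
 (.br (nat_lit 13) (nat_lit 0) (.cons (.rf (nat_lit 1387) (nat_lit 19926519232773908561233952)) (.cons (.rf (nat_lit 1387) (nat_lit 18755372196403590507694116)) (.cons (.br (nat_lit 15) (nat_lit 0) (.cons (.rf (nat_lit 1388) (nat_lit 677582165103132179601393696)) (.cons (.br (nat_lit 15) (nat_lit 0) (.cons (.rf (nat_lit 1388) (nat_lit 677582165103132179601393696)) .nil)) .nil))) .nil)))),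
 (.br (nat_lit 14) (nat_lit 0) (.cons (.rf (nat_lit 1389) (nat_lit 19926483492207265748976704)) (.cons (.rf (nat_lit 966) (nat_lit 19383438016510734409927)) (.cons (.br (nat_lit 15) (nat_lit 0) (.cons (.ev (nat_lit 5212658806994947650996912540090368) (nat_lit 1)) (.cons (.ev (nat_lit 683233574586239128153836088891612987395) (nat_lit 2)) (.cons (.br (nat_lit 16) (nat_lit 0) (.cons (.ev (nat_lit 5212658496301012082375179865423873) (nat_lit 1)) (.cons (.ev (nat_lit 683233574585622575985689073566743658497) (nat_lit 2)) .nil))) .nil)))) (.cons (.br (nat_lit 13) (nat_lit 0) (.cons (.rf (nat_lit 975) (nat_lit 631046501362370753)) (.cons (.br (nat_lit 15) (nat_lit 0) (.cons (.ev (nat_lit 683223271280002663891069156477202990599) (nat_lit 3)) (.cons (.br (nat_lit 16) (nat_lit 0) (.cons (.ev (nat_lit 4782583179472452563153284703368778484233) (nat_lit 4)) .nil)) .nil))) (.cons (.ev (nat_lit 5212658496301012082375179865423873) (nat_lit 1)) .nil)))) .nil))))),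
 (.br (nat_lit 12) (nat_lit 0) (.cons (.rf (nat_lit 1389) (nat_lit 19926519232773908561233952)) (.cons (.rf (nat_lit 1390) (nat_lit 19926519232773908561233952)) (.cons (.rf (nat_lit 1390) (nat_lit 18755372196403590507694116)) (.cons (.br (nat_lit 13) (nat_lit 0) (.cons (.rf (nat_lit 1389) (nat_lit 19926483492207265748976704)) (.cons (.rf (nat_lit 1390) (nat_lit 19926483492207265748976704)) (.cons (.rf (nat_lit 1390) (nat_lit 18755336455836947695436868)) (.cons (.br (nat_lit 14) (nat_lit 0) (.cons (.ev (nat_lit 5212658496301012082375179865423873) (nat_lit 1)) (.cons (.ev (nat_lit 5212658806999651570734604685934593) (nat_lit 1)) (.cons (.ev (nat_lit 174224603017301649342768343471563691394565) (nat_lit 3)) .nil)))) .nil))))) .nil))))),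
 (.br (nat_lit 13) (nat_lit 0) (.cons (.ev (nat_lit 40723896924943964670533191205377) (nat_lit 2)) (.cons (.br (nat_lit 15) (nat_lit 0) (.cons (.ev (nat_lit 683223190151602189249884734370305409539) (nat_lit 3)) (.cons (.br (nat_lit 16) (nat_lit 0) (.cons (.zr (nat_lit 683223190150978378878384640983235166208) (nat_lit 81129645682329131178836728219139) (nat_lit 16) (nat_lit 6)) .nil)) .nil))) .nil))),
 (.br (nat_lit 13) (nat_lit 0) (.cons (.br (nat_lit 13) (nat_lit 0) (.cons (.ev (nat_lit 40723896924943964670533191205377) (nat_lit 2)) (.cons (.rf (nat_lit 214) (nat_lit 630978264737848646)) .nil))) (.cons (.rf (nat_lit 1392) (nat_lit 19926519232773908561233952)) (.cons (.br (nat_lit 13) (nat_lit 0) (.cons (.rf (nat_lit 214) (nat_lit 630978264737848646)) (.cons (.rf (nat_lit 1392) (nat_lit 19926519232773908561233952)) .nil))) .nil)))),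
 (.br (nat_lit 13) (nat_lit 0) (.cons (.br (nat_lit 15) (nat_lit 0) (.cons (.ev (nat_lit 341611615199442467997842241106357583873) (nat_lit 1)) (.cons (.br (nat_lit 16) (nat_lit 0) (.cons (.ev (nat_lit 341611615199134196654581961491101057025) (nat_lit 1)) .nil)) .nil))) (.cons (.ev (nat_lit 40723275537072827431465821274627) (nat_lit 2)) .nil))),
 (.br (nat_lit 12) (nat_lit 0) (.cons (.rf (nat_lit 1391) (nat_lit 19926519232773908561233952)) (.cons (.rf (nat_lit 1393) (nat_lit 19926519232773908561233952)) (.cons (.rf (nat_lit 1393) (nat_lit 18755372196403590507694116)) (.cons (.br (nat_lit 13) (nat_lit 0) (.cons (.rf (nat_lit 1394) (nat_lit 677582165103132179601393696)) (.cons (.rf (nat_lit 1394) (nat_lit 676411018066761861547853860)) (.cons (.br (nat_lit 13) (nat_lit 0) (.cons (.ev (nat_lit 40723275537072827431465821274627) (nat_lit 2)) (.cons (.ev (nat_lit 40723896924943964670533191205377) (nat_lit 2)) .nil))) .nil)))) .nil))))),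
 (.br (nat_lit 13) (nat_lit 0) (.cons (.ev (nat_lit 40723896924943964670533191205377) (nat_lit 2)) (.cons (.ev (nat_lit 341611594995952750776362649289272328448) (nat_lit 1)) (.cons (.br (nat_lit 14) (nat_lit 0) (.cons (.ev (nat_lit 5348065922754455855578226216891843073) (nat_lit 3)) (.cons (.ev (nat_lit 5348106329117338130390398924306383873) (nat_lit 3)) .nil))) .nil)))),
 (.br (nat_lit 13) (nat_lit 0) (.cons (.rf (nat_lit 1395) (nat_lit 19926483492207265748976704)) (.cons (.rf (nat_lit 1396) (nat_lit 19926519232773908561233952)) (.cons (.rf (nat_lit 1396) (nat_lit 18755372196403590507694116)) (.cons (.br (nat_lit 13) (nat_lit 0) (.cons (.rf (nat_lit 1395) (nat_lit 19926483492207265748976704)) (.cons (.rf (nat_lit 1396) (nat_lit 19926519232773908561233952)) (.cons (.rf (nat_lit 1396) (nat_lit 18755372196403590507694116)) .nil)))) .nil))))),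
 (.br (nat_lit 13) (nat_lit 0) (.cons (.rf (nat_lit 1395) (nat_lit 19926483492207265748976704)) (.cons (.rf (nat_lit 1397) (nat_lit 19926483492207265748976704)) (.cons (.br (nat_lit 14) (nat_lit 0) (.cons (.ev (nat_lit 10405114740839027660284850692358402) (nat_lit 2)) (.cons (.ev (nat_lit 10405114124286859513269525823029504) (nat_lit 2)) (.cons (.ev (nat_lit 522673746825473512283836120451165452632577) (nat_lit 3)) .nil)))) .nil)))),
 (.br (nat_lit 12) (nat_lit 0) (.cons (.rf (nat_lit 1391) (nat_lit 19926519232773908561233952)) (.cons (.rf (nat_lit 1395) (nat_lit 19926519232773908561233952)) (.cons (.rf (nat_lit 1397) (nat_lit 19926519232773908561233952)) (.cons (.br (nat_lit 13) (nat_lit 0) (.cons (.rf (nat_lit 1395) (nat_lit 19926483492207265748976704)) (.cons (.br (nat_lit 13) (nat_lit 0) (.cons (.rf (nat_lit 214) (nat_lit 630943114759019846)) (.cons (.rf (nat_lit 1397) (nat_lit 19926483492207265748976704)) (.cons (.kr (nat_lit 20282409603651670423947251286272) (nat_lit 79228162514264337593544015872) (nat_lit 1) (nat_lit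 0)) .nil)))) (.cons (.rf (nat_lit 1398) (nat_lit 677582165103132179601393696)) (.cons (.br (nat_lit 13) (nat_lit 0) (.cons (.ev (nat_lit 40723275537072827431465821274627) (nat_lit 2)) (.cons (.kr (nat_lit 20282409603651670423947251286272) (nat_lit 79228162514264337593544015872) (nat_lit 1) (nat_lit 0)) (.cons (.rf (nat_lit 1398) (nat_lit 677582165103132179601393696)) .nil)))) .nil))))) .nil))))),
 (.br (nat_lit 11) (nat_lit 0) (.cons (.rf (nat_lit 1381) (nat_lit 493674749779282921508)) (.cons (.rf (nat_lit 1381) (nat_lit 457934183136470664260)) (.cons (.ev (nat_lit 621392612095147451600601089) (nat_lit 2)) (.cons (.br (nat_lit 14) (nat_lit 0) (.cons (.rf (nat_lit 1383) (nat_lit 583706118939841765935136)) (.cons (.rf (nat_lit 1383) (nat_lit 583670378373198953677888)) (.cons (.ev (nat_lit 10384594030195665049832797939695616) (nat_lit 2)) (.cons (.br (nat_lit 15) (nat_lit 0) (.cons (.rf (nat_lit 1383) (nat_lit 547107743760586756950048)) (.cons (.rf (nat_lit 1383) (nat_lit 547072003193943944692800)) (.cons (.ev (nat_lit 2668840585286906142022581307050033153)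 (nat_lit 2)) (.cons (.br (nat_lit 12) (nat_lit 0) (.cons (.rf (nat_lit 1385) (nat_lit 677582165103132179601393696)) (.cons (.rf (nat_lit 1386) (nat_lit 677582165103132179601393696)) (.cons (.rf (nat_lit 1386) (nat_lit 640068866319899420176517152)) .nil)))) .nil))))) .nil))))) (.cons (.br (nat_lit 12) (nat_lit 0) (.cons (.rf (nat_lit 1391) (nat_lit 19926519232773908561233952)) (.cons (.rf (nat_lit 1395) (nat_lit 19926519232773908561233952)) (.cons (.rf (nat_lit 1399) (nat_lit 19926519232773908561233952)) (.cons (.rf (nat_lit 1399) (nat_lit 18755372196403590507694116)) (.cons (.br (nat_lit 12) (nat_lit 0) (.cons (.rf (nat_lit 1391) (nat_lit 19926519232773908561233952)) (.cons (.rf (nat_lit 1395) (nat_lit 19926519232773908561233952)) (.cons (.rf (nat_lit 1399) (nat_lit 19926519232773908561233952)) (.cons (.rf (nat_lit 1399) (nat_lit 18755372196403590507694116)) .nil))))) .nil)))))) .nil)))))),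
 (.br (nat_lit 13) (nat_lit 0) (.cons (.ev (nat_lit 40723275537072827431465821274627) (nat_lit 2)) (.cons (.br (nat_lit 15) (nat_lit 0) (.cons (.ev (nat_lit 680564734000335674584624400661171273731) (nat_lit 2)) (.cons (.ev (nat_lit 1329248357422682057357651743799836928) (nat_lit 1)) .nil))) .nil))),
 (.br (nat_lit 12) (nat_lit 0) (.cons (.br (nat_lit 13) (nat_lit 0) (.cons (.ev (nat_lit 31397328539707664641337172007455753) (nat_lit 4)) (.cons (.br (nat_lit 15) (nat_lit 0) (.cons (.ev (nat_lit 7975408698302975133855577069049873409) (nat_lit 3)) (.cons (.rf (nat_lit 167) (nat_lit 596072172462579046)) .nil))) .nil))) (.cons (.ev (nat_lit 2668840585286906142022581307050033153) (nat_lit 2)) (.cons (.br (nat_lit 13) (nat_lit 0) (.cons (.br (nat_lit 13) (nat_lit 0) (.cons (.ev (nat_lit 40723275537072827431465821274627) (nat_lit 2)) (.cons (.rf (nat_lit 166) (nat_lit 630975069574700390)) .nil))) (.cons (.rf (nat_lit 1401) (nat_lit 19926519232773908561233952)) (.cons (.br (nat_lit 13) (nat_lit 0) (.cons (.rf (nat_lit 166) (nat_lit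 630975069574700390)) (.cons (.rf (nat_lit 1401) (nat_lit 19926519232773908561233952)) .nil))) .nil)))) .nil)))),
 (.br (nat_lit 16) (nat_lit 0) (.cons (.ev (nat_lit 40723588644156116105507106717697) (nat_lit 2)) (.cons (.ev (nat_lit 341611594996261031601249381696021790720) (nat_lit 1)) .nil))),
 (.br (nat_lit 12) (nat_lit 0) (.cons (.rf (nat_lit 1403) (nat_lit 677582165103132179601393696)) (.cons (.rf (nat_lit 1403) (nat_lit 640068866319899420176517152)) .nil))),
 (.br (nat_lit 12) (nat_lit 0) (.cons (.rf (nat_lit 1404) (nat_lit 677582165103132179601393696)) (.cons (.ev (nat_lit 2668841060966594126719490460066251266) (nat_lit 3)) .nil))),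
 (.br (nat_lit 14) (nat_lit 0) (.cons (.zr (nat_lit 41538533327045131619425337502336007) (nat_lit 7975367977185375315995854711311433728) (nat_lit 16) (nat_lit 1)) (.cons (.rf (nat_lit 214) (nat_lit 631011251160549703)) .nil))),
 (.br (nat_lit 14) (nat_lit 0) (.cons (.ev (nat_lit 40723896924943964670533191205377) (nat_lit 2)) (.cons (.ev (nat_lit 340287559297026369731087372725304492033) (nat_lit 1)) (.cons (.br (nat_lit 16) (nat_lit 0) (.cons (.ev (nat_lit 340287559297334650555974106227270549505) (nat_lit 1)) .nil)) .nil)))),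
 (.br (nat_lit 13) (nat_lit 0) (.cons (.br (nat_lit 13) (nat_lit 0) (.cons (.ev (nat_lit 40723896924943964670533191205377) (nat_lit 2)) (.cons (.rf (nat_lit 214) (nat_lit 630977166299961671)) .nil))) (.cons (.rf (nat_lit 1407) (nat_lit 19926519232773908561233952)) (.cons (.br (nat_lit 13) (nat_lit 0) (.cons (.rf (nat_lit 214) (nat_lit 630977166299961671)) (.cons (.rf (nat_lit 1407) (nat_lit 19926519232773908561233952)) .nil))) .nil))))]

theorem c52 : chkAll C T R L52 (nat_lit 1382) = true := by decide +kernel

theorem l52 : (nat_lit 1382) + L52.length = (nat_lit 1409) := by decide +kernel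

/-- part of the certificates -/
def L53 : List Prf := [(.br (nat_lit 13) (nat_lit 0) (.cons (.br (nat_lit 14) (nat_lit 0) (.cons (.kr (nat_lit 10384593717074377623544961815281665) (nat_lit 680564733841876926945195958941557719040) (nat_lit 0) (nat_lit 1)) (.cons (.br (nat_lit 16) (nat_lit 0) (.cons (.ev (nat_lit 2041704667250850433507670532386225127431) (nat_lit 3)) .nil)) .nil))) (.cons (.ev (nat_lit 40723275537072827431465821274627) (nat_lit 2)) .nil))),
 (.br (nat_lit 12) (nat_lit 0) (.cons (.br (nat_lit 13) (nat_lit 0) (.cons (.rf (nat_lit 1406) (nat_lit 19926519232773908561233952)) (.cons (.rf (nat_lit 1406) (nat_lit 17511028593230423735306276)) (.cons (.br (nat_lit 14) (nat_lit 0) (.cons (.br (nat_lit 14) (nat_lit 0) (.cons (.zr (nat_lit 41700634152375556841122994430411777) (nat_lit 13292280118781363854586502226098126848) (nat_lit 16) (nat_lit 17)) .nil)) (.cons (.br (nat_lit 14) (nat_lit 0) (.cons (.zr (nat_lit 41700634152375556841122994430411777) (nat_lit 13292280118781363854586502226098126848) (nat_lit 16) (nat_lit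 17)) .nil)) .nil))) .nil)))) (.cons (.rf (nat_lit 1408) (nat_lit 19926519232773908561233952)) (.cons (.rf (nat_lit 1408) (nat_lit 17511028593230423735306276)) (.cons (.br (nat_lit 13) (nat_lit 0) (.cons (.rf (nat_lit 1409) (nat_lit 677582165103132179601393696)) (.cons (.rf (nat_lit 1409) (nat_lit 675166674463588694775466020)) (.cons (.br (nat_lit 13) (nat_lit 0) (.cons (.ev (nat_lit 40723275537072827431465821274627) (nat_lit 2)) (.cons (.ev (nat_lit 40723896924943964670533191205377) (nat_lit 2)) .nil))) .nil)))) .nil))))),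
 (.br (nat_lit 13) (nat_lit 0) (.cons (.rf (nat_lit 975) (nat_lit 631011351348971745)) (.cons (.br (nat_lit 14) (nat_lit 0) (.cons (.ev (nat_lit 2041704627161395365513138505634713568775) (nat_lit 3)) (.cons (.br (nat_lit 16) (nat_lit 0) (.cons (.ev (nat_lit 4763963643977313465868661597956584115725) (nat_lit 4)) .nil)) .nil))) (.cons (.br (nat_lit 17) (nat_lit 0) (.cons (.ev (nat_lit 174224571904085314923180486363570373657091) (nat_lit 2)) (.cons (.ev (nat_lit 174224571904085931475348633374479949496833) (nat_lit 2)) .nil))) .nil)))),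
 (.br (nat_lit 12) (nat_lit 0) (.cons (.rf (nat_lit 1411) (nat_lit 677582165103132179601393696)) (.cons (.rf (nat_lit 1411) (nat_lit 675166674463588694775466020)) (.cons (.br (nat_lit 13) (nat_lit 0) (.cons (.rf (nat_lit 1411) (nat_lit 677582129362565536789136448)) (.cons (.rf (nat_lit 1411) (nat_lit 675166638723022051963208772)) (.cons (.rf (nat_lit 802) (nat_lit 631011351348717793)) .nil)))) .nil)))),
 (.br (nat_lit 13) (nat_lit 0) (.cons (.kr (nat_lit 20282409603651670423947251286272) (nat_lit 79228162514264337593544015872) (nat_lit 1) (nat_lit 0)) (.cons (.ev (nat_lit 1329248357733375992926273476508057857) (nat_lit 1)) .nil))),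
 (.br (nat_lit 12) (nat_lit 0) (.cons (.rf (nat_lit 1412) (nat_lit 677582165103132179601393696)) (.cons (.br (nat_lit 14) (nat_lit 0) (.cons (.rf (nat_lit 1413) (nat_lit 677582165103132179601393696)) (.cons (.kr (nat_lit 10384593717074377623544961815281665) (nat_lit 680564733841876926945195958941557719040) (nat_lit 0) (nat_lit 1)) (.cons (.br (nat_lit 16) (nat_lit 0) (.cons (.rf (nat_lit 926) (nat_lit 20675789990212152631495)) (.cons (.ev (nat_lit 2041704586438124668958046186971395523591) (nat_lit 3)) .nil))) .nil)))) (.cons (.br (nat_lit 17) (nat_lit 0) (.cons (.ev (nat_lit 174224571863678952040905674190862959116291) (nat_lit 2)) (.cons (.rf (nat_lit 802) (nat_lit 630977266484193505)) (.cons (.br (nat_lit 16) (nat_lit 0) (.cons (.rf (nat_lit 928) (nat_lit 20602005260217320777066)) (.cons (.ev (nat_lit 87452573490978354338868990344232368603136) (nat_lit 1)) .nil))) .nil)))) .nil)))),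
 (.br (nat_lit 11) (nat_lit 0) (.cons (.rf (nat_lit 1381) (nat_lit 493674749779282921508)) (.cons (.rf (nat_lit 1381) (nat_lit 457934183136470664260)) (.cons (.br (nat_lit 14) (nat_lit 0) (.cons (.rf (nat_lit 1402) (nat_lit 583706118939841765935136)) (.cons (.rf (nat_lit 1402) (nat_lit 583670378373198953677888)) (.cons (.ev (nat_lit 5192297169228781716234267938258944) (nat_lit 1)) (.cons (.br (nat_lit 15) (nat_lit 0) (.cons (.rf (nat_lit 1402) (nat_lit 547107743760586756950048)) (.cons (.rf (nat_lit 1402) (nat_lit 547072003193943944692800)) (.cons (.ev (nat_lit 2668840585286906142022581307050033153) (nat_lit 2)) (.cons (.br (nat_lit 12) (nat_lit 0) (.cons (.rf (nat_lit 1404) (nat_lit 677582165103132179601393696)) (.cons (.rf (nat_lit 1405) (nat_lit 677582165103132179601393696)) (.cons (.rf (nat_lit 1405) (nat_lit 640068866319899420176517152)) .nil)))) .nil))))) .nil))))) (.cons (.ev (nat_lit 621392612095147451600601089) (nat_lit 2)) (.cons (.br (nat_lit 15) (nat_lit 0) (.cons (.rf (nat_lit 1410) (nat_lit 19926519232773908561233952))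 (.cons (.rf (nat_lit 1410) (nat_lit 19926483492207265748976704)) (.cons (.ev (nat_lit 1329227995784915891422890203004534784) (nat_lit 1)) (.cons (.ev (nat_lit 1329227996095609826991511935712755713) (nat_lit 1)) (.cons (.br (nat_lit 12) (nat_lit 0) (.cons (.rf (nat_lit 1412) (nat_lit 677582165103132179601393696)) (.cons (.rf (nat_lit 1414) (nat_lit 677582165103132179601393696)) (.cons (.rf (nat_lit 1414) (nat_lit 675166674463588694775466020)) (.cons (.br (nat_lit 12) (nat_lit 0) (.cons (.rf (nat_lit 1412) (nat_lit 677582165103132179601393696)) (.cons (.rf (nat_lit 1414) (nat_lit 677582165103132179601393696)) (.cons (.rf (nat_lit 1414) (nat_lit 675166674463588694775466020)) .nil)))) .nil))))) .nil)))))) .nil)))))),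
 (.br (nat_lit 13) (nat_lit 0) (.cons (.br (nat_lit 15) (nat_lit 0) (.cons (.br (nat_lit 15) (nat_lit 0) (.cons (.zr (nat_lit 1334420609556105498402914882730065923) (nat_lit 81129949108542394994555936112896) (nat_lit 8) (nat_lit 1)) .nil)) (.cons (.br (nat_lit 15) (nat_lit 0) (.cons (.zr (nat_lit 1334420609556105498402914882730065923) (nat_lit 81129949108542394994555936112896) (nat_lit 8) (nat_lit 1)) .nil)) .nil))) (.cons (.br (nat_lit 14) (nat_lit 0) (.cons (.rf (nat_lit 1059) (nat_lit 628832050583247937)) (.cons (.br (nat_lit 15) (nat_lit 0) (.cons (.ev (nat_lit 2668840585286906142022583497483485697) (nat_lit 2)) (.cons (.ev (nat_lit 1334501741369406099667709614721795845) (nat_lit 3)) .nil))) (.cons (.br (nat_lit 15) (nat_lit 0) (.cons (.ev (nat_lit 1334501741369406099667709614721795845) (nat_lit 3)) (.cons (.ev (nat_lit 2668840585286906142022583497483485697) (nat_lit 2)) .nil))) .nil)))) (.cons (.br (nat_lit 14) (nat_lit 0) (.cons (.br (nat_lit 15) (nat_lit 0) (.cons (.ev (nat_lit 341611615199134196654581962586317652225)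 (nat_lit 1)) (.cons (.br (nat_lit 16) (nat_lit 0) (.cons (.zr (nat_lit 31901797051216953823653006341864161280) (nat_lit 4764067367427123522645071784847438643723) (nat_lit 48) (nat_lit 7)) .nil)) .nil))) (.cons (.rf (nat_lit 1059) (nat_lit 628797965722691649)) (.cons (.br (nat_lit 16) (nat_lit 0) (.cons (.br (nat_lit 15) (nat_lit 0) (.cons (.zr (nat_lit 10633824600723597246115619946377511427) (nat_lit 680616656810469542925484001775040462848) (nat_lit 16) (nat_lit 1)) .nil)) (.cons (.ev (nat_lit 87112291124136334552891612267826198413313) (nat_lit 1)) .nil))) .nil)))) (.cons (.br (nat_lit 14) (nat_lit 0) (.cons (.br (nat_lit 15) (nat_lit 0) (.cons (.br (nat_lit 16) (nat_lit 0) (.cons (.ev (nat_lit 340287579500207815609306686022383370240) (nat_lit 1)) .nil)) (.cons (.zr (nat_lit 5316952706415219435317166783451889664) (nat_lit 174224582248115448302960789316306498355715) (nat_lit 16) (nat_lit 7)) .nil))) (.cons (.br (nat_lit 16) (nat_lit 0) (.cons (.ev (nat_lit 340287579500516086952566965637639897088) (nat_lit 1)) (.cons (.zr (nat_lit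 1361129508407029386277601680873809248259) (nat_lit 174224582248115448307664709055115318919680) (nat_lit 16) (nat_lit 10)) .nil))) (.cons (.rf (nat_lit 1059) (nat_lit 592770268181802049)) .nil)))) .nil))))),
 (.br (nat_lit 12) (nat_lit 0) (.cons (.rf (nat_lit 1416) (nat_lit 677582165103132179601393696)) (.cons (.rf (nat_lit 1416) (nat_lit 640068866319899420176517152)) (.cons (.rf (nat_lit 1416) (nat_lit 597870979906915357176268836)) (.cons (.rf (nat_lit 1416) (nat_lit 560357681123682597751392292)) .nil))))),
 (.br (nat_lit 13) (nat_lit 0) (.cons (.kr (nat_lit 20282409603651670423947251286272) (nat_lit 79228162514264337593544015872) (nat_lit 1) (nat_lit 0)) (.cons (.br (nat_lit 15) (nat_lit 0) (.cons (.ev (nat_lit 341611615199134196654581962586317652225) (nat_lit 1)) (.cons (.br (nat_lit 16) (nat_lit 0) (.cons (.ev (nat_lit 341611594995952750776362648194055733248) (nat_lit 1)) .nil)) .nil))) (.cons (.br (nat_lit 15) (nat_lit 0) (.cons (.br (nat_lit 16) (nat_lit 0) (.cons (.zr (nat_lit 2041725355307400964543368795776910229504)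 (nat_lit 162259284082768713428215820977665) (nat_lit 16) (nat_lit 6)) .nil)) (.cons (.ev (nat_lit 174227230400641701544378284391852182472199) (nat_lit 3)) .nil))) .nil)))),
 (.br (nat_lit 13) (nat_lit 0) (.cons (.rf (nat_lit 1418) (nat_lit 677582165103132179601393696)) (.cons (.rf (nat_lit 1418) (nat_lit 640068866319899420176517152)) (.cons (.br (nat_lit 14) (nat_lit 0) (.cons (.zr (nat_lit 20789549071910217262110478123925504) (nat_lit 5316911983450357427328527008035569922) (nat_lit 8) (nat_lit 6)) (.cons (.ev (nat_lit 680575138799401784631548033617205986565) (nat_lit 3)) (.cons (.zr (nat_lit 348449143747402624352716873003909785846528) (nat_lit 20769187744837968593905820899803136) (nat_lit 8) (nat_lit 1)) .nil)))) .nil)))),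
 (.br (nat_lit 13) (nat_lit 0) (.cons (.rf (nat_lit 1418) (nat_lit 677582165103132179601393696)) (.cons (.rf (nat_lit 1418) (nat_lit 640068866319899420176517152)) (.cons (.rf (nat_lit 1419) (nat_lit 677582165103132179601393696)) (.cons (.rf (nat_lit 1419) (nat_lit 640068866319899420176517152)) .nil))))),
 (.br (nat_lit 13) (nat_lit 0) (.cons (.rf (nat_lit 1420) (nat_lit 677582129362565536789136448)) (.cons (.kr (nat_lit 20282409603651670423947251286272) (nat_lit 79228162514264337593544015872) (nat_lit 1) (nat_lit 0)) (.cons (.ev (nat_lit 40723896924943964670533191205377) (nat_lit 2)) .nil)))),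
 (.br (nat_lit 13) (nat_lit 0) (.cons (.rf (nat_lit 1420) (nat_lit 677582129362565536789136448)) (.cons (.ev (nat_lit 40723896924943964670533191205377) (nat_lit 2)) (.cons (.kr (nat_lit 20282409603651670423947251286272) (nat_lit 79228162514264337593544015872) (nat_lit 1) (nat_lit 0)) .nil)))),
 (.br (nat_lit 12) (nat_lit 0) (.cons (.rf (nat_lit 1417) (nat_lit 677582165103132179601393696)) (.cons (.rf (nat_lit 1420) (nat_lit 677582165103132179601393696)) (.cons (.br (nat_lit 14) (nat_lit 0) (.cons (.rf (nat_lit 1421) (nat_lit 677582165103132179601393696)) (.cons (.br (nat_lit 16) (nat_lit 0) (.cons (.rf (nat_lit 1421) (nat_lit 597870979906915357176268836)) (.cons (.rf (nat_lit 1059) (nat_lit 630978331644337345)) (.cons (.ev (nat_lit 340287559297334650555974105132053823745) (nat_lit 1)) .nil)))) (.cons (.ev (nat_lit 340287559297026369731087371630087766273) (nat_lit 1)) (.cons (.br (nat_lit 16) (nat_lit 0) (.cons (.rf (nat_lit 1421) (nat_lit 597870979906915357176268836)) (.cons (.ev (nat_lit 340287559297334650555974105132053823745)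 (nat_lit 1)) (.cons (.rf (nat_lit 1059) (nat_lit 558922936495451329)) .nil)))) .nil))))) (.cons (.br (nat_lit 14) (nat_lit 0) (.cons (.rf (nat_lit 1422) (nat_lit 677582165103132179601393696)) (.cons (.br (nat_lit 17) (nat_lit 0) (.cons (.rf (nat_lit 1422) (nat_lit 560357681123682597751392292)) (.cons (.rf (nat_lit 1059) (nat_lit 596075434499710145)) (.cons (.br (nat_lit 13) (nat_lit 0) (.cons (.zr (nat_lit 522681690958536808359186009308825261179399) (nat_lit 633832553669464734091973099520) (nat_lit 16) (nat_lit 11)) (.cons (.zr (nat_lit 2041725355307400964543368795776910098944) (nat_lit 633832553669464737386162683905) (nat_lit 16) (nat_lit 6)) .nil))) .nil)))) (.cons (.br (nat_lit 17) (nat_lit 0) (.cons (.rf (nat_lit 1422) (nat_lit 560357681123682597751392292)) (.cons (.ev (nat_lit 522673725975473973767921195557576759051271) (nat_lit 3)) (.cons (.rf (nat_lit 1059) (nat_lit 560047736891713729)) .nil)))) (.cons (.kr (nat_lit 10384593717074377623544961815281665) (nat_lit 174224571863520493293266245749143345561600) (nat_lit 0)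 (nat_lit 1)) .nil))))) .nil))))),
 (.br (nat_lit 9) (nat_lit 0) (.cons (.br (nat_lit 1) (nat_lit 0) (.cons (.kr (nat_lit 256) (nat_lit 65536) (nat_lit 1) (nat_lit 0)) (.cons (.rf (nat_lit 1163) (nat_lit 407901468851537952)) (.cons (.rf (nat_lit 1163) (nat_lit 372964453592959008)) (.cons (.rf (nat_lit 1163) (nat_lit 259282822810994724)) (.cons (.rf (nat_lit 1163) (nat_lit 224345807552415780)) (.cons (.br (nat_lit 2) (nat_lit 0) (.cons (.rf (nat_lit 1163) (nat_lit 407901468851536960)) (.cons (.rf (nat_lit 1163) (nat_lit 372964453592958016)) (.cons (.rf (nat_lit 1163) (nat_lit 259282822810993732)) (.cons (.rf (nat_lit 1163) (nat_lit 224345807552414788)) (.cons (.br (nat_lit 6) (nat_lit 0) (.cons (.ev (nat_lit 4740957908384264356353) (nat_lit 2)) (.cons (.rf (nat_lit 1176) (nat_lit 14242959524133701664)) (.cons (.rf (nat_lit 1186) (nat_lit 14242959524133701664)) (.cons (.rf (nat_lit 1199) (nat_lit 14242959524133701664)) (.cons (.br (nat_lit 7) (nat_lit 0) (.cons (.rf (nat_lit 1186) (nat_lit 14208022508875122720)) (.cons (.rf (nat_lit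 1176) (nat_lit 14208022508875122720)) (.cons (.rf (nat_lit 1199) (nat_lit 14208022508875122720)) (.cons (.ev (nat_lit 4740957908384230670339) (nat_lit 2)) (.cons (.br (nat_lit 10) (nat_lit 0) (.cons (.ev (nat_lit 621392612095149642034053633) (nat_lit 2)) (.cons (.rf (nat_lit 1199) (nat_lit 14094340878093158436)) (.cons (.rf (nat_lit 1208) (nat_lit 17022140995484340291616)) (.cons (.rf (nat_lit 1215) (nat_lit 17022140995484340291616)) (.cons (.br (nat_lit 11) (nat_lit 0) (.cons (.rf (nat_lit 1199) (nat_lit 14059403862834579492)) (.cons (.rf (nat_lit 1215) (nat_lit 15878407925899089512480)) (.cons (.rf (nat_lit 1208) (nat_lit 15878407925899089512480)) (.cons (.ev (nat_lit 621392612095147451600601089) (nat_lit 2)) (.cons (.br (nat_lit 12) (nat_lit 0) (.cons (.rf (nat_lit 1221) (nat_lit 19926519232773908561233952)) (.cons (.rf (nat_lit 1221) (nat_lit 18754228611952651297458208)) (.cons (.rf (nat_lit 1221) (nat_lit 17435544551417819508672548)) (.cons (.rf (nat_lit 1221) (nat_lit 16263253930596562244896804)) (.cons (.br (nat_lit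 13) (nat_lit 0) (.cons (.rf (nat_lit 1224) (nat_lit 677582165103132179601393696)) (.cons (.rf (nat_lit 1227) (nat_lit 677582165103132179601393696)) (.cons (.rf (nat_lit 1228) (nat_lit 677582165103132179601393696)) (.cons (.br (nat_lit 13) (nat_lit 0) (.cons (.rf (nat_lit 1224) (nat_lit 677582165103132179601393696)) (.cons (.rf (nat_lit 1227) (nat_lit 677582165103132179601393696)) (.cons (.rf (nat_lit 1228) (nat_lit 677582165103132179601393696)) .nil)))) .nil))))) .nil)))))) .nil)))))) .nil)))))) .nil)))))) .nil)))))) (.cons (.br (nat_lit 6) (nat_lit 0) (.cons (.rf (nat_lit 1254) (nat_lit 493858305440582043680)) (.cons (.rf (nat_lit 1287) (nat_lit 493858305440582043680)) (.cons (.rf (nat_lit 1321) (nat_lit 493858305440582043680)) (.cons (.rf (nat_lit 1381) (nat_lit 493858305440582043680)) (.cons (.rf (nat_lit 1381) (nat_lit 458117738797769786432)) (.cons (.br (nat_lit 7) (nat_lit 0) (.cons (.rf (nat_lit 1321) (nat_lit 493823368425323464736)) (.cons (.rf (nat_lit 1287) (nat_lit 493823368425323464736)) (.cons (.rf (nat_lit 1381)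 (nat_lit 493823368425323464736)) (.cons (.rf (nat_lit 1381) (nat_lit 458082801782511207488)) (.cons (.ev (nat_lit 4740957908384230670339) (nat_lit 2)) (.cons (.br (nat_lit 10) (nat_lit 0) (.cons (.rf (nat_lit 1254) (nat_lit 493709686794541500452)) (.cons (.rf (nat_lit 1381) (nat_lit 493709686794541500452)) (.cons (.rf (nat_lit 1381) (nat_lit 457969120151729243204)) (.cons (.rf (nat_lit 1400) (nat_lit 583706118939841765935136)) (.cons (.rf (nat_lit 1415) (nat_lit 583706118939841765935136)) (.cons (.br (nat_lit 11) (nat_lit 0) (.cons (.rf (nat_lit 1381) (nat_lit 493674749779282921508)) (.cons (.rf (nat_lit 1381) (nat_lit 457934183136470664260)) (.cons (.rf (nat_lit 1415) (nat_lit 547107743760586756950048)) (.cons (.rf (nat_lit 1400) (nat_lit 547107743760586756950048)) (.cons (.ev (nat_lit 621392612095147451600601089) (nat_lit 2)) (.cons (.br (nat_lit 12) (nat_lit 0) (.cons (.rf (nat_lit 1417) (nat_lit 677582165103132179601393696)) (.cons (.rf (nat_lit 1423) (nat_lit 677582165103132179601393696)) (.cons (.rf (nat_lit 1423) (nat_lit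 640068866319899420176517152)) (.cons (.rf (nat_lit 1423) (nat_lit 597870979906915357176268836)) (.cons (.rf (nat_lit 1423) (nat_lit 560357681123682597751392292)) .nil)))))) .nil))))))) .nil))))))) .nil))))))) .nil))))))) .nil))))))) .nil))))))) .nil))]

theorem c53 : chkAll C T R L53 (nat_lit 1409) = true := by decide +kernel

theorem l53 : (nat_lit 1409) + L53.length = (nat_lit 1425) := by decide +kernel

/-- part of the certificates -/
def L54 : List Prf := [(.br (nat_lit 6) (nat_lit 1) (.cons (.rf (nat_lit 1066) (nat_lit 247132686368)) (.cons (.br (nat_lit 8) (nat_lit 1) (.cons (.br (nat_lit 5) (nat_lit 0) (.cons (.rf (nat_lit 1066) (nat_lit 213846689824)) (.cons (.br (nat_lit 5) (nat_lit 0) (.cons (.rf (nat_lit 1066) (nat_lit 213846689824)) (.cons (.br (nat_lit 7) (nat_lit 1) (.cons (.br (nat_lit 10) (nat_lit 1) (.cons (.br (nat_lit 9) (nat_lit 0) (.cons (.kr (nat_lit 18446745173221179393) (nat_lit 4722366482873956958208) (nat_lit 0) (nat_lit 1)) .nil)) .nil)) (.cons (.br (nat_lit 8) (nat_lit 0) (.cons (.rf (nat_lit 1424)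 (nat_lit 407901468851537952)) (.cons (.rf (nat_lit 1424) (nat_lit 372998571739416608)) .nil))) .nil))) .nil))) .nil))) .nil)) .nil))),
 (.br (nat_lit 8) (nat_lit 1) (.cons (.br (nat_lit 8) (nat_lit 1) (.cons (.br (nat_lit 9) (nat_lit 0) (.cons (.br (nat_lit 9) (nat_lit 1) (.cons (.rf (nat_lit 1065) (nat_lit 339209)) .nil)) .nil)) .nil)) .nil)),
 (.br (nat_lit 10) (nat_lit 0) (.cons (.rf (nat_lit 1426) (nat_lit 13441272219680)) (.cons (.br (nat_lit 11) (nat_lit 0) (.cons (.ev (nat_lit 621387871426598637651623939) (nat_lit 2)) (.cons (.rf (nat_lit 1426) (nat_lit 14540783847456)) (.cons (.br (nat_lit 12) (nat_lit 0) (.cons (.br (nat_lit 12) (nat_lit 0) (.cons (.rf (nat_lit 1426) (nat_lit 15640295475232)) .nil)) (.cons (.rf (nat_lit 1426) (nat_lit 15640295475232)) .nil))) .nil)))) .nil))),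
 (.br (nat_lit 11) (nat_lit 0) (.cons (.ev (nat_lit 313125973042839207454900481) (nat_lit 2)) (.cons (.rf (nat_lit 1426) (nat_lit 15640295475232)) .nil))),
 (.br (nat_lit 8) (nat_lit 0) (.cons (.rf (nat_lit 1426) (nat_lit 11242248964128)) (.cons (.br (nat_lit 9) (nat_lit 0) (.cons (.ev (nat_lit 9481626454990533034499) (nat_lit 2)) (.cons (.rf (nat_lit 1426) (nat_lit 12341760591904)) (.cons (.br (nat_lit 10) (nat_lit 0) (.cons (.rf (nat_lit 1427) (nat_lit 407901468851537952)) (.cons (.rf (nat_lit 1426) (nat_lit 13441272219680)) (.cons (.br (nat_lit 10) (nat_lit 0) (.cons (.rf (nat_lit 1427) (nat_lit 407901468851537952)) (.cons (.rf (nat_lit 1426) (nat_lit 14540783847456)) (.cons (.br (nat_lit 11) (nat_lit 0) (.cons (.rf (nat_lit 1428) (nat_lit 493858305440582043680)) (.cons (.rf (nat_lit 1428) (nat_lit 458117738797769787424)) (.cons (.rf (nat_lit 1426) (nat_lit 15640295475232)) .nil)))) .nil)))) .nil)))) .nil)))) .nil))),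
 (.br (nat_lit 11) (nat_lit 0) (.cons (.kr (nat_lit 2417851639230362172784641) (nat_lit 37037603335494959616) (nat_lit 0) (nat_lit 2)) (.cons (.rf (nat_lit 1426) (nat_lit 14540783847456)) (.cons (.br (nat_lit 12) (nat_lit 0) (.cons (.kr (nat_lit 2417851639230362172784641) (nat_lit 9444733528689243979776) (nat_lit 0) (nat_lit 1)) (.cons (.ev (nat_lit 159075295048316044566390112259) (nat_lit 2)) (.cons (.rf (nat_lit 1426) (nat_lit 15640295475232)) .nil)))) .nil)))),
 (.br (nat_lit 9) (nat_lit 0) (.cons (.kr (nat_lit 18518801667747479808) (nat_lit 4722366764344621989888) (nat_lit 1) (nat_lit 0)) (.cons (.rf (nat_lit 1426) (nat_lit 13441272219680)) (.cons (.br (nat_lit 11) (nat_lit 0) (.cons (.kr (nat_lit 2417851639230362172784641) (nat_lit 37037603335494959616) (nat_lit 0) (nat_lit 2)) (.cons (.rf (nat_lit 1430) (nat_lit 14242959524133701664)) (.cons (.rf (nat_lit 1426) (nat_lit 14540783847456)) (.cons (.br (nat_lit 11) (nat_lit 0) (.cons (.kr (nat_lit 2417851639230362172784641) (nat_lit 37037603335494959616) (nat_lit 0) (nat_lit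 2)) (.cons (.rf (nat_lit 1430) (nat_lit 14242959524133701664)) (.cons (.rf (nat_lit 1426) (nat_lit 15640295475232)) .nil)))) .nil))))) .nil)))),
 (.br (nat_lit 11) (nat_lit 0) (.cons (.ev (nat_lit 158458742880312583687289962499) (nat_lit 2)) (.cons (.ev (nat_lit 310698658079500161582694401) (nat_lit 1)) (.cons (.rf (nat_lit 1426) (nat_lit 15640295475232)) .nil)))),
 (.br (nat_lit 10) (nat_lit 0) (.cons (.rf (nat_lit 1432) (nat_lit 493858305440582043680)) (.cons (.rf (nat_lit 1432) (nat_lit 458117738797769787424)) (.cons (.rf (nat_lit 1426) (nat_lit 15640295475232)) .nil)))),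
 (.br (nat_lit 10) (nat_lit 0) (.cons (.rf (nat_lit 1433) (nat_lit 493858305440582043680)) (.cons (.br (nat_lit 12) (nat_lit 0) (.cons (.br (nat_lit 11) (nat_lit 0) (.cons (.ev (nat_lit 310693954087986350409122048) (nat_lit 1)) (.cons (.rf (nat_lit 1426) (nat_lit 15640295475232)) .nil))) (.cons (.ev (nat_lit 158458742880312583687289962499) (nat_lit 2)) (.cons (.rf (nat_lit 1426) (nat_lit 15640295475232)) .nil)))) (.cons (.rf (nat_lit 1426) (nat_lit 15640295475232)) .nil)))),
 (.br (nat_lit 6) (nat_lit 0) (.cons (.kr (nat_lit 72057594037928192) (nat_lit 281474976776192) (nat_lit 1) (nat_lit 0)) (.cons (.rf (nat_lit 1426) (nat_lit 9043225708576)) (.cons (.br (nat_lit 7) (nat_lit 0) (.cons (.ev (nat_lit 144679241852649475) (nat_lit 2)) (.cons (.rf (nat_lit 1426) (nat_lit 10142737336352)) (.cons (.br (nat_lit 8) (nat_lit 0) (.cons (.rf (nat_lit 1429) (nat_lit 325702574508064)) (.cons (.rf (nat_lit 1426) (nat_lit 11242248964128)) (.cons (.br (nat_lit 8) (nat_lit 0) (.cons (.rf (nat_lit 1429) (nat_lit 325702574508064)) (.cons (.rf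 (nat_lit 1426) (nat_lit 12341760591904)) (.cons (.br (nat_lit 9) (nat_lit 0) (.cons (.rf (nat_lit 1431) (nat_lit 407901468851537952)) (.cons (.rf (nat_lit 1431) (nat_lit 372998571739416608)) (.cons (.rf (nat_lit 1426) (nat_lit 13441272219680)) (.cons (.br (nat_lit 9) (nat_lit 0) (.cons (.rf (nat_lit 1431) (nat_lit 407901468851537952)) (.cons (.rf (nat_lit 1431) (nat_lit 372998571739416608)) (.cons (.rf (nat_lit 1426) (nat_lit 14540783847456)) (.cons (.br (nat_lit 10) (nat_lit 0) (.cons (.rf (nat_lit 1433) (nat_lit 493858305440582043680)) (.cons (.rf (nat_lit 1434) (nat_lit 493858305440582043680)) (.cons (.rf (nat_lit 1434) (nat_lit 458117738797769787424)) (.cons (.rf (nat_lit 1426) (nat_lit 15640295475232)) .nil))))) .nil))))) .nil))))) .nil)))) .nil)))) .nil)))) .nil)))),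
 (.br (nat_lit 10) (nat_lit 0) (.cons (.rf (nat_lit 1426) (nat_lit 13441272219680)) (.cons (.br (nat_lit 11) (nat_lit 0) (.cons (.ev (nat_lit 313111787281033394097553923) (nat_lit 2)) (.cons (.rf (nat_lit 1426) (nat_lit 14540783847456)) (.cons (.br (nat_lit 12) (nat_lit 0) (.cons (.br (nat_lit 12) (nat_lit 0) (.cons (.rf (nat_lit 1426) (nat_lit 15640295475232)) .nil)) (.cons (.rf (nat_lit 1426) (nat_lit 15640295475232)) .nil))) .nil)))) .nil))),
 (.br (nat_lit 11) (nat_lit 0) (.cons (.ev (nat_lit 1859337465981293906056578051) (nat_lit 3)) (.cons (.rf (nat_lit 1426) (nat_lit 15640295475232)) .nil))),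
 (.br (nat_lit 8) (nat_lit 0) (.cons (.rf (nat_lit 1426) (nat_lit 11242248964128)) (.cons (.br (nat_lit 9) (nat_lit 0) (.cons (.kr (nat_lit 9444732966838802055169) (nat_lit 36893488151730847744) (nat_lit 0) (nat_lit 1)) (.cons (.rf (nat_lit 1426) (nat_lit 12341760591904)) (.cons (.br (nat_lit 10) (nat_lit 0) (.cons (.rf (nat_lit 1436) (nat_lit 407901468851537952)) (.cons (.rf (nat_lit 1426) (nat_lit 13441272219680)) (.cons (.br (nat_lit 10) (nat_lit 0) (.cons (.rf (nat_lit 1436) (nat_lit 407901468851537952)) (.cons (.rf (nat_lit 1426) (nat_lit 14540783847456)) (.cons (.br (nat_lit 11) (nat_lit 0) (.cons (.rf (nat_lit 1437) (nat_lit 493858305440582043680)) (.cons (.rf (nat_lit 1437) (nat_lit 458117738797769787424)) (.cons (.rf (nat_lit 1426) (nat_lit 15640295475232)) .nil)))) .nil)))) .nil)))) .nil)))) .nil))),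
 (.br (nat_lit 11) (nat_lit 0) (.cons (.ev (nat_lit 4835777210677020623635971) (nat_lit 3)) (.cons (.rf (nat_lit 1426) (nat_lit 14540783847456)) (.cons (.br (nat_lit 12) (nat_lit 0) (.cons (.ev (nat_lit 4854593176736680611414531) (nat_lit 3)) (.cons (.ev (nat_lit 80156617543729217237566947843) (nat_lit 2)) (.cons (.rf (nat_lit 1426) (nat_lit 15640295475232)) .nil)))) .nil)))),
 (.br (nat_lit 9) (nat_lit 0) (.cons (.ev (nat_lit 9555415120152444929031) (nat_lit 3)) (.cons (.rf (nat_lit 1426) (nat_lit 13441272219680)) (.cons (.br (nat_lit 11) (nat_lit 0) (.cons (.ev (nat_lit 4835777210677020623635971) (nat_lit 3)) (.cons (.rf (nat_lit 1439) (nat_lit 14242959524133701664)) (.cons (.rf (nat_lit 1426) (nat_lit 14540783847456)) (.cons (.br (nat_lit 11) (nat_lit 0) (.cons (.ev (nat_lit 4835777210677020623635971) (nat_lit 3)) (.cons (.rf (nat_lit 1439) (nat_lit 14242959524133701664)) (.cons (.rf (nat_lit 1426) (nat_lit 15640295475232)) .nil)))) .nil))))) .nil)))),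
 (.br (nat_lit 11) (nat_lit 0) (.cons (.ev (nat_lit 79231789291724025918916723203) (nat_lit 2)) (.cons (.ev (nat_lit 1242794632463242838237250055) (nat_lit 3)) (.cons (.rf (nat_lit 1426) (nat_lit 15640295475232)) .nil)))),
 (.br (nat_lit 10) (nat_lit 0) (.cons (.rf (nat_lit 1441) (nat_lit 493858305440582043680)) (.cons (.rf (nat_lit 1441) (nat_lit 458117738797769787424)) (.cons (.rf (nat_lit 1426) (nat_lit 15640295475232)) .nil)))),
 (.br (nat_lit 10) (nat_lit 0) (.cons (.rf (nat_lit 1442) (nat_lit 493858305440582043680)) (.cons (.br (nat_lit 12) (nat_lit 0) (.cons (.br (nat_lit 11) (nat_lit 0) (.cons (.ev (nat_lit 1242775816494931378436310535) (nat_lit 3)) (.cons (.rf (nat_lit 1426) (nat_lit 15640295475232)) .nil))) (.cons (.ev (nat_lit 79231789291724025918916723203) (nat_lit 2)) (.cons (.rf (nat_lit 1426) (nat_lit 15640295475232)) .nil)))) (.cons (.rf (nat_lit 1426) (nat_lit 15640295475232)) .nil)))),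
 (.br (nat_lit 2) (nat_lit 0) (.cons (.ev (nat_lit 1689970897191943) (nat_lit 3)) (.cons (.rf (nat_lit 1426) (nat_lit 9043225708576)) (.cons (.br (nat_lit 6) (nat_lit 0) (.cons (.ev (nat_lit 281479305429505) (nat_lit 2)) (.cons (.rf (nat_lit 1426) (nat_lit 10142737336352)) (.cons (.br (nat_lit 8) (nat_lit 0) (.cons (.rf (nat_lit 1438) (nat_lit 325702574508064)) (.cons (.rf (nat_lit 1426) (nat_lit 11242248964128)) (.cons (.br (nat_lit 8) (nat_lit 0) (.cons (.rf (nat_lit 1438) (nat_lit 325702574508064)) (.cons (.rf (nat_lit 1426) (nat_lit 12341760591904)) (.cons (.br (nat_lit 9) (nat_lit 0) (.cons (.rf (nat_lit 1440) (nat_lit 407901468851537952)) (.cons (.rf (nat_lit 1440) (nat_lit 372998571739416608)) (.cons (.rf (nat_lit 1426) (nat_lit 13441272219680)) (.cons (.br (nat_lit 9) (nat_lit 0) (.cons (.rf (nat_lit 1440) (nat_lit 407901468851537952)) (.cons (.rf (nat_lit 1440) (nat_lit 372998571739416608)) (.cons (.rf (nat_lit 1426) (nat_lit 14540783847456)) (.cons (.br (nat_lit 10) (nat_lit 0) (.cons (.rf (nat_lit 1442) (nat_lit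 493858305440582043680)) (.cons (.rf (nat_lit 1443) (nat_lit 493858305440582043680)) (.cons (.rf (nat_lit 1443) (nat_lit 458117738797769787424)) (.cons (.rf (nat_lit 1426) (nat_lit 15640295475232)) .nil))))) .nil))))) .nil))))) .nil)))) .nil)))) .nil)))) .nil)))),
 (.br (nat_lit 10) (nat_lit 0) (.cons (.rf (nat_lit 1426) (nat_lit 13441272219680)) (.cons (.br (nat_lit 11) (nat_lit 0) (.cons (.ev (nat_lit 621387871281920499656032769) (nat_lit 2)) (.cons (.rf (nat_lit 1426) (nat_lit 14540783847456)) (.cons (.br (nat_lit 12) (nat_lit 0) (.cons (.br (nat_lit 12) (nat_lit 0) (.cons (.rf (nat_lit 1426) (nat_lit 15640295475232)) .nil)) (.cons (.rf (nat_lit 1426) (nat_lit 15640295475232)) .nil))) .nil)))) .nil))),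
 (.br (nat_lit 11) (nat_lit 0) (.cons (.ev (nat_lit 313116565203922366480056577) (nat_lit 2)) (.cons (.rf (nat_lit 1426) (nat_lit 15640295475232)) .nil))),
 (.br (nat_lit 8) (nat_lit 0) (.cons (.kr (nat_lit 9444877080927366283776) (nat_lit 36893770721924284416) (nat_lit 1) (nat_lit 0)) (.cons (.rf (nat_lit 1426) (nat_lit 13441272219680)) (.cons (.br (nat_lit 10) (nat_lit 0) (.cons (.kr (nat_lit 2417851639230362172784641) (nat_lit 9444877080927366283776) (nat_lit 0) (nat_lit 2)) (.cons (.kr (nat_lit 2417851639229262644379649) (nat_lit 36893769622395879424) (nat_lit 0) (nat_lit 1)) (.cons (.rf (nat_lit 1426) (nat_lit 14540783847456)) (.cons (.br (nat_lit 11) (nat_lit 0) (.cons (.br (nat_lit 11) (nat_lit 0) (.cons (.ev (nat_lit 310693954159761365647032321) (nat_lit 1)) (.cons (.rf (nat_lit 1426) (nat_lit 15640295475232)) .nil))) (.cons (.br (nat_lit 11) (nat_lit 0) (.cons (.ev (nat_lit 310693954159761365647032321) (nat_lit 1)) (.cons (.rf (nat_lit 1426) (nat_lit 15640295475232)) .nil))) (.cons (.rf (nat_lit 1426) (nat_lit 15640295475232))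 .nil)))) .nil))))) .nil)))),
 (.br (nat_lit 12) (nat_lit 0) (.cons (.ev (nat_lit 159075304529797820315070497283) (nat_lit 2)) (.cons (.rf (nat_lit 1426) (nat_lit 15640295475232)) .nil))),
 (.br (nat_lit 8) (nat_lit 0) (.cons (.kr (nat_lit 9444877080927366283776) (nat_lit 36893770721924284416) (nat_lit 1) (nat_lit 0)) (.cons (.rf (nat_lit 1426) (nat_lit 13441272219680)) (.cons (.br (nat_lit 11) (nat_lit 0) (.cons (.kr (nat_lit 618970019642971616721305601) (nat_lit 9444877080927366283776) (nat_lit 0) (nat_lit 3)) (.cons (.kr (nat_lit 618970019642690141744529409) (nat_lit 36893489246947508224) (nat_lit 0) (nat_lit 1)) (.cons (.rf (nat_lit 1426) (nat_lit 14540783847456)) (.cons (.br (nat_lit 10) (nat_lit 0) (.cons (.rf (nat_lit 1448) (nat_lit 493858305440582043680)) (.cons (.rf (nat_lit 1448) (nat_lit 458009655494761781475)) (.cons (.rf (nat_lit 1426) (nat_lit 15640295475232)) .nil)))) .nil))))) .nil)))),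
 (.br (nat_lit 10) (nat_lit 0) (.cons (.rf (nat_lit 1447) (nat_lit 299818165843532003)) (.cons (.ev (nat_lit 2427333265964624330818051) (nat_lit 2)) (.cons (.rf (nat_lit 1426) (nat_lit 15640295475232)) .nil)))),
 (.br (nat_lit 9) (nat_lit 0) (.cons (.ev (nat_lit 144116300489293825) (nat_lit 2)) (.cons (.ev (nat_lit 4722366483969173684481) (nat_lit 1)) (.cons (.rf (nat_lit 1426) (nat_lit 11242248964128)) (.cons (.br (nat_lit 7) (nat_lit 0) (.cons (.br (nat_lit 8) (nat_lit 0) (.cons (.ev (nat_lit 9481626454990533034499) (nat_lit 2)) (.cons (.rf (nat_lit 1426) (nat_lit 12341760591904)) (.cons (.br (nat_lit 10) (nat_lit 0) (.cons (.rf (nat_lit 1445) (nat_lit 407901468851537952)) (.cons (.rf (nat_lit 1426) (nat_lit 13441272219680)) (.cons (.br (nat_lit 10) (nat_lit 0) (.cons (.rf (nat_lit 1445) (nat_lit 407901468851537952)) (.cons (.rf (nat_lit 1426) (nat_lit 14540783847456)) (.cons (.br (nat_lit 11) (nat_lit 0) (.cons (.rf (nat_lit 1446) (nat_lit 493858305440582043680)) (.cons (.rf (nat_lit 1446) (nat_lit 458117738797769787424))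 (.cons (.rf (nat_lit 1426) (nat_lit 15640295475232)) .nil)))) .nil)))) .nil)))) .nil)))) (.cons (.ev (nat_lit 4722438540463699984384) (nat_lit 1)) (.cons (.rf (nat_lit 1426) (nat_lit 12341760591904)) (.cons (.br (nat_lit 8) (nat_lit 0) (.cons (.rf (nat_lit 1447) (nat_lit 407901468851537952)) (.cons (.rf (nat_lit 1449) (nat_lit 407901468851537952)) (.cons (.rf (nat_lit 1426) (nat_lit 13441272219680)) (.cons (.br (nat_lit 8) (nat_lit 0) (.cons (.rf (nat_lit 1447) (nat_lit 407901468851537952)) (.cons (.rf (nat_lit 1449) (nat_lit 407901468851537952)) (.cons (.rf (nat_lit 1426) (nat_lit 14540783847456)) (.cons (.br (nat_lit 10) (nat_lit 0) (.cons (.rf (nat_lit 1447) (nat_lit 299818165843532003)) (.cons (.rf (nat_lit 1450) (nat_lit 493858305440582043680)) (.cons (.rf (nat_lit 1450) (nat_lit 458117738797769787424)) (.cons (.rf (nat_lit 1426) (nat_lit 15640295475232)) .nil))))) .nil))))) .nil))))) .nil))))) .nil))))),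
 (.br (nat_lit 10) (nat_lit 0) (.cons (.ev (nat_lit 7263073439319780141171715) (nat_lit 3)) (.cons (.rf (nat_lit 1426) (nat_lit 13441272219680)) (.cons (.br (nat_lit 11) (nat_lit 0) (.cons (.ev (nat_lit 621397352908374386332008963) (nat_lit 2)) (.cons (.rf (nat_lit 1426) (nat_lit 14540783847456)) (.cons (.br (nat_lit 12) (nat_lit 0) (.cons (.br (nat_lit 12) (nat_lit 0) (.cons (.rf (nat_lit 1426) (nat_lit 15640295475232)) .nil)) (.cons (.rf (nat_lit 1426) (nat_lit 15640295475232)) .nil))) .nil)))) .nil)))),
 (.br (nat_lit 11) (nat_lit 0) (.cons (.zr (nat_lit 309485065161577302738337795) (nat_lit 1213648258718042811400448) (nat_lit 8) (nat_lit 1)) (.cons (.rf (nat_lit 1426) (nat_lit 15640295475232)) .nil))),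
 (.br (nat_lit 9) (nat_lit 0) (.cons (.kr (nat_lit 2417851639230357861040129) (nat_lit 9444732965743602171904) (nat_lit 0) (nat_lit 1)) (.cons (.rf (nat_lit 1452) (nat_lit 407901468851537952)) (.cons (.rf (nat_lit 1426) (nat_lit 13441272219680)) (.cons (.br (nat_lit 10) (nat_lit 0) (.cons (.rf (nat_lit 1452) (nat_lit 406810748950583332)) (.cons (.ev (nat_lit 7263073439319780141171715) (nat_lit 3)) (.cons (.rf (nat_lit 1426) (nat_lit 14540783847456)) (.cons (.br (nat_lit 11) (nat_lit 0) (.cons (.rf (nat_lit 1453) (nat_lit 493858305440582043680)) (.cons (.rf (nat_lit 1453) (nat_lit 458116648077868832804)) (.cons (.rf (nat_lit 1426) (nat_lit 15640295475232)) .nil)))) .nil))))) .nil))))),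
 (.br (nat_lit 10) (nat_lit 0) (.cons (.ev (nat_lit 633496055838049384704641025) (nat_lit 4)) (.cons (.rf (nat_lit 1426) (nat_lit 14540783847456)) (.cons (.br (nat_lit 12) (nat_lit 0) (.cons (.br (nat_lit 12) (nat_lit 0) (.cons (.rf (nat_lit 1426) (nat_lit 15640295475232)) .nil)) (.cons (.rf (nat_lit 1426) (nat_lit 15640295475232)) .nil))) .nil)))),
 (.br (nat_lit 10) (nat_lit 0) (.cons (.ev (nat_lit 633496055838049384704641025) (nat_lit 4)) (.cons (.rf (nat_lit 1426) (nat_lit 14540783847456)) (.cons (.br (nat_lit 11) (nat_lit 0) (.cons (.ev (nat_lit 79537647542604766904521326593) (nat_lit 1)) (.cons (.ev (nat_lit 621397352908937344875233793) (nat_lit 2)) (.cons (.rf (nat_lit 1426) (nat_lit 15640295475232)) .nil)))) .nil)))),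
 (.br (nat_lit 9) (nat_lit 0) (.cons (.br (nat_lit 10) (nat_lit 0) (.cons (.ev (nat_lit 16953443971409359984132613) (nat_lit 4)) (.cons (.rf (nat_lit 1426) (nat_lit 13441272219680)) (.cons (.br (nat_lit 11) (nat_lit 0) (.cons (.ev (nat_lit 621397352908374386332008963) (nat_lit 2)) (.cons (.rf (nat_lit 1426) (nat_lit 14540783847456)) (.cons (.br (nat_lit 12) (nat_lit 0) (.cons (.br (nat_lit 12) (nat_lit 0) (.cons (.rf (nat_lit 1426) (nat_lit 15640295475232)) .nil)) (.cons (.rf (nat_lit 1426) (nat_lit 15640295475232)) .nil))) .nil)))) .nil)))) (.cons (.kr (nat_lit 618970019642690141744529409) (nat_lit 36893489246947508224) (nat_lit 0) (nat_lit 1)) (.cons (.rf (nat_lit 1426) (nat_lit 13441272219680)) (.cons (.br (nat_lit 10) (nat_lit 0) (.cons (.rf (nat_lit 1455) (nat_lit 14242959524133701664)) (.cons (.rf (nat_lit 1456) (nat_lit 14242959524133701664)) (.cons (.rf (nat_lit 1426) (nat_lit 14540783847456)) (.cons (.br (nat_lit 10) (nat_lit 0) (.cons (.rf (nat_lit 1455) (nat_lit 14242959524133701664)) (.cons (.rf (nat_lit 1456)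 (nat_lit 14242959524133701664)) (.cons (.rf (nat_lit 1426) (nat_lit 15640295475232)) .nil)))) .nil))))) .nil)))))]

theorem c54 : chkAll C T R L54 (nat_lit 1425) = true := by decide +kernel

theorem l54 : (nat_lit 1425) + L54.length = (nat_lit 1458) := by decide +kernel

end Pool.Agent.H93.Neg.N18_6_0
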