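import Pool.Agent.H93.Neg.TabN18_6_0

/-!
Certificates.
-/

set_option autoImplicit false
set_option maxRecDepth 100000
set_option linter.all false

namespace Pool.Agent.H93.Neg.N18_6_0

/-- part of the certificates -/
def L55 : List Prf := [(.br (nat_lit 10) (nat_lit 0) (.cons (.ev (nat_lit 2427370593206836159185411) (nat_lit 3)) (.cons (.rf (nat_lit 1426) (nat_lit 14540783847456)) (.cons (.br (nat_lit 11) (nat_lit 0) (.cons (.ev (nat_lit 1856929059219145600910362117) (nat_lit 3)) (.cons (.kr (nat_lit 309489732187827942664962048) (nat_lit 1208944266359802395885568) (nat_lit 4) (nat_lit 0)) (.cons (.rf (nat_lit 1426) (nat_lit 15640295475232)) .nil)))) .nil)))),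
 (.br (nat_lit 10) (nat_lit 0) (.cons (.ev (nat_lit 2427370593206836159185411) (nat_lit 3)) (.cons (.rf (nat_lit 1426) (nat_lit 14540783847456)) (.cons (.br (nat_lit 11) (nat_lit 0) (.cons (.br (nat_lit 11) (nat_lit 0) (.cons (.rf (nat_lit 1426) (nat_lit 15640295475232)) .nil)) (.cons (.rf (nat_lit 1426) (nat_lit 15640295475232)) .nil))) .nil)))),
 (.br (nat_lit 10) (nat_lit 0) (.cons (.br (nat_lit 11) (nat_lit 0) (.cons (.ev (nat_lit 623805759959316069223892481) (nat_lit 3)) (.cons (.ev (nat_lit 315562750969710886116525569) (nat_lit 3)) (.cons (.rf (nat_lit 1426) (nat_lit 15640295475232)) .nil)))) (.cons (.br (nat_lit 11) (nat_lit 0) (.cons (.kr (nat_lit 309489732187827942664962048) (nat_lit 1208944266359802395885568) (nat_lit 4) (nat_lit 0)) (.cons (.ev (nat_lit 1245221928836000811566891527) (nat_lit 3)) (.cons (.rf (nat_lit 1426) (nat_lit 15640295475232)) .nil)))) (.cons (.rf (nat_lit 1426) (nat_lit 15640295475232)) .nil)))),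
 (.br (nat_lit 10) (nat_lit 0) (.cons (.rf (nat_lit 1460) (nat_lit 493858305440582043680)) (.cons (.br (nat_lit 12) (nat_lit 0) (.cons (.ev (nat_lit 79229376162522493790208458753) (nat_lit 1)) (.cons (.ev (nat_lit 40723275532331869524185447531009) (nat_lit 2)) (.cons (.rf (nat_lit 1426) (nat_lit 15640295475232)) .nil)))) (.cons (.rf (nat_lit 1426) (nat_lit 15640295475232)) .nil)))),
 (.br (nat_lit 8) (nat_lit 0) (.cons (.rf (nat_lit 1454) (nat_lit 407901468851537952)) (.cons (.rf (nat_lit 1457) (nat_lit 407901468851537952)) (.cons (.rf (nat_lit 1426) (nat_lit 13441272219680)) (.cons (.br (nat_lit 9) (nat_lit 0) (.cons (.rf (nat_lit 1457) (nat_lit 372964453560452160)) (.cons (.rf (nat_lit 1454) (nat_lit 372964453560452160)) (.cons (.br (nat_lit 10) (nat_lit 0) (.cons (.rf (nat_lit 1458) (nat_lit 14242959524133701664)) (.cons (.rf (nat_lit 1459) (nat_lit 14242959524133701664)) (.cons (.rf (nat_lit 1426) (nat_lit 14540783847456)) (.cons (.br (nat_lit 10) (nat_lit 0) (.cons (.rf (nat_lit 1458) (nat_lit 14242959524133701664))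 (.cons (.rf (nat_lit 1459) (nat_lit 14242959524133701664)) (.cons (.rf (nat_lit 1426) (nat_lit 15640295475232)) .nil)))) .nil))))) (.cons (.rf (nat_lit 1426) (nat_lit 14540783847456)) (.cons (.br (nat_lit 10) (nat_lit 0) (.cons (.rf (nat_lit 1460) (nat_lit 493858305440582043680)) (.cons (.rf (nat_lit 1461) (nat_lit 493858305440582043680)) (.cons (.br (nat_lit 10) (nat_lit 0) (.cons (.rf (nat_lit 1460) (nat_lit 493858305440582043680)) (.cons (.rf (nat_lit 1461) (nat_lit 493858305440582043680)) (.cons (.rf (nat_lit 1426) (nat_lit 15640295475232)) .nil)))) (.cons (.rf (nat_lit 1426) (nat_lit 15640295475232)) .nil))))) .nil)))))) .nil))))),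
 (.br (nat_lit 10) (nat_lit 0) (.cons (.kr (nat_lit 2417851639230357861040129) (nat_lit 9444732965743602171904) (nat_lit 0) (nat_lit 1)) (.cons (.kr (nat_lit 309489732187827942664962048) (nat_lit 1208944266359802395885568) (nat_lit 4) (nat_lit 0)) (.cons (.rf (nat_lit 1426) (nat_lit 15640295475232)) .nil)))),
 (.br (nat_lit 9) (nat_lit 0) (.cons (.rf (nat_lit 1463) (nat_lit 493858305440582043680)) (.cons (.rf (nat_lit 1463) (nat_lit 458009655498920560869)) (.cons (.rf (nat_lit 1426) (nat_lit 15640295475232)) .nil)))),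
 (.br (nat_lit 9) (nat_lit 0) (.cons (.rf (nat_lit 1464) (nat_lit 493858305440582043680)) (.cons (.br (nat_lit 12) (nat_lit 0) (.cons (.br (nat_lit 10) (nat_lit 0) (.cons (.ev (nat_lit 316919913130784900513221705731) (nat_lit 3)) (.cons (.rf (nat_lit 1426) (nat_lit 15640295475232)) .nil))) (.cons (.ev (nat_lit 79537647542532427835489976576) (nat_lit 1)) (.cons (.rf (nat_lit 1426) (nat_lit 15640295475232)) .nil)))) (.cons (.rf (nat_lit 1426) (nat_lit 15640295475232)) .nil)))),
 (.br (nat_lit 8) (nat_lit 0) (.cons (.rf (nat_lit 1462) (nat_lit 407901468851537952)) (.cons (.rf (nat_lit 1462) (nat_lit 406810748950583332)) (.cons (.rf (nat_lit 1426) (nat_lit 13441272219680)) (.cons (.br (nat_lit 11) (nat_lit 0) (.cons (.rf (nat_lit 1462) (nat_lit 369692300474981445)) (.cons (.rf (nat_lit 1462) (nat_lit 333664465599864003)) (.cons (.kr (nat_lit 618970019642690141744529409) (nat_lit 36893489246947508224) (nat_lit 0) (nat_lit 1)) (.cons (.rf (nat_lit 1426) (nat_lit 14540783847456)) (.cons (.br (nat_lit 9) (nat_lit 0) (.cons (.rf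 (nat_lit 1464) (nat_lit 493858305440582043680)) (.cons (.rf (nat_lit 1465) (nat_lit 493858305440582043680)) (.cons (.rf (nat_lit 1465) (nat_lit 458009655498920560869)) (.cons (.rf (nat_lit 1426) (nat_lit 15640295475232)) .nil))))) .nil)))))) .nil))))),
 (.br (nat_lit 10) (nat_lit 0) (.cons (.rf (nat_lit 1462) (nat_lit 333664465599864003)) (.cons (.ev (nat_lit 81446558327737177240026235667463) (nat_lit 3)) (.cons (.rf (nat_lit 1426) (nat_lit 15640295475232)) .nil)))),
 (.br (nat_lit 9) (nat_lit 0) (.cons (.rf (nat_lit 1466) (nat_lit 372964453560452160)) (.cons (.rf (nat_lit 1462) (nat_lit 369692300474981445)) (.cons (.br (nat_lit 10) (nat_lit 0) (.cons (.rf (nat_lit 1462) (nat_lit 333664465599864003)) (.cons (.rf (nat_lit 1467) (nat_lit 493858305440582043680)) (.cons (.rf (nat_lit 1467) (nat_lit 458117738797769787424)) (.cons (.rf (nat_lit 1426) (nat_lit 15640295475232)) .nil))))) (.cons (.rf (nat_lit 1426) (nat_lit 15640295475232)) .nil))))),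
 (.br (nat_lit 5) (nat_lit 0) (.cons (.br (nat_lit 1) (nat_lit 0) (.cons (.rf (nat_lit 1435) (nat_lit 247132686368)) (.cons (.rf (nat_lit 1435) (nat_lit 242766485540)) (.cons (.rf (nat_lit 1444) (nat_lit 247132686368)) (.cons (.rf (nat_lit 1426) (nat_lit 9043225708576)) (.cons (.br (nat_lit 2) (nat_lit 0) (.cons (.rf (nat_lit 1444) (nat_lit 213814182976)) (.cons (.rf (nat_lit 1435) (nat_lit 207332973637)) (.cons (.ev (nat_lit 1103857058305) (nat_lit 2)) (.cons (.rf (nat_lit 1426) (nat_lit 10142737336352)) (.cons (.br (nat_lit 6) (nat_lit 0) (.cons (.rf (nat_lit 1435) (nat_lit 69965192387)) (.cons (.ev (nat_lit 564062400283139) (nat_lit 2)) (.cons (.rf (nat_lit 1451) (nat_lit 325702574508064)) (.cons (.rf (nat_lit 1426) (nat_lit 11242248964128)) (.cons (.br (nat_lit 7) (nat_lit 0) (.cons (.rf (nat_lit 1451) (nat_lit 291584395543616)) (.cons (.ev (nat_lit 144116300489293825) (nat_lit 2)) (.cons (.ev (nat_lit 144679241852649475) (nat_lit 2)) (.cons (.rf (nat_lit 1426) (nat_lit 12341760591904)) (.cons (.br (nat_lit 8) (nat_lit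 0) (.cons (.rf (nat_lit 1462) (nat_lit 407901468851537952)) (.cons (.rf (nat_lit 1462) (nat_lit 406810748950583332)) (.cons (.rf (nat_lit 1466) (nat_lit 407901468851537952)) (.cons (.rf (nat_lit 1426) (nat_lit 13441272219680)) (.cons (.br (nat_lit 8) (nat_lit 0) (.cons (.rf (nat_lit 1462) (nat_lit 407901468851537952)) (.cons (.rf (nat_lit 1462) (nat_lit 406810748950583332)) (.cons (.rf (nat_lit 1466) (nat_lit 407901468851537952)) (.cons (.rf (nat_lit 1426) (nat_lit 14540783847456)) (.cons (.br (nat_lit 9) (nat_lit 0) (.cons (.rf (nat_lit 1466) (nat_lit 372964453560452160)) (.cons (.rf (nat_lit 1462) (nat_lit 369692300474981445)) (.cons (.rf (nat_lit 1468) (nat_lit 493858305440582043680)) (.cons (.rf (nat_lit 1468) (nat_lit 458117738797769787424)) (.cons (.rf (nat_lit 1426) (nat_lit 15640295475232)) .nil)))))) .nil)))))) .nil)))))) .nil)))))) .nil)))))) .nil)))))) .nil)))))) (.cons (.br (nat_lit 7) (nat_lit 1) (.cons (.br (nat_lit 9) (nat_lit 1) (.cons (.br (nat_lit 8) (nat_lit 1) (.cons (.rf (nat_lit 345) (nat_lit 11583633304455200))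 (.cons (.br (nat_lit 9) (nat_lit 0) (.cons (.br (nat_lit 10) (nat_lit 0) (.cons (.rf (nat_lit 1065) (nat_lit 335209)) .nil)) .nil)) .nil))) .nil)) .nil)) .nil))),
 (.br (nat_lit 14) (nat_lit 0) (.cons (.br (nat_lit 15) (nat_lit 0) (.cons (.ev (nat_lit 5337681171812956563532485744495298049) (nat_lit 3)) (.cons (.rf (nat_lit 1) (nat_lit 631047566216372417)) .nil))) .nil)),
 (.br (nat_lit 15) (nat_lit 0) (.cons (.ev (nat_lit 2689731627493111394138801239096557569) (nat_lit 3)) .nil)),
 (.br (nat_lit 12) (nat_lit 0) (.cons (.br (nat_lit 13) (nat_lit 0) (.cons (.ev (nat_lit 81446552278312359181387558945281) (nat_lit 3)) (.cons (.br (nat_lit 14) (nat_lit 0) (.cons (.rf (nat_lit 1470) (nat_lit 583706118939841765935136)) (.cons (.br (nat_lit 14) (nat_lit 0) (.cons (.rf (nat_lit 1470) (nat_lit 583706118939841765935136)) (.cons (.br (nat_lit 15) (nat_lit 0) (.cons (.rf (nat_lit 1471) (nat_lit 677582165103132179601393696)) (.cons (.rf (nat_lit 1471) (nat_lit 640105464695078675185502240)) .nil))) .nil))) .nil))) .nil))) .nil)),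
 (.br (nat_lit 15) (nat_lit 0) (.cons (.br (nat_lit 16) (nat_lit 0) (.cons (.ev (nat_lit 1366446379668132671106516793486251263489) (nat_lit 3)) .nil)) .nil)),
 (.br (nat_lit 13) (nat_lit 0) (.cons (.kr (nat_lit 79537647524085964137245442304) (nat_lit 20282409603670189225614998831104) (nat_lit 1) (nat_lit 0)) (.cons (.br (nat_lit 14) (nat_lit 0) (.cons (.kr (nat_lit 10384593718283303443159595301732353) (nat_lit 159075295048171928274490884608) (nat_lit 0) (nat_lit 2)) (.cons (.kr (nat_lit 10384593718283303443159595301732353) (nat_lit 40564819207340378451229997662208) (nat_lit 0) (nat_lit 1)) (.cons (.br (nat_lit 15) (nat_lit 0) (.cons (.rf (nat_lit 1473) (nat_lit 677582165103132179601393696)) (.cons (.br (nat_lit 15) (nat_lit 0) (.cons (.rf (nat_lit 1473) (nat_lit 677582165103132179601393696)) .nil)) .nil))) .nil)))) .nil))),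
 (.br (nat_lit 15) (nat_lit 0) (.cons (.ev (nat_lit 1361150236872427146925415687230446765569) (nat_lit 3)) (.cons (.ev (nat_lit 5337762301451371096428335553862566401) (nat_lit 3)) .nil))),
 (.br (nat_lit 14) (nat_lit 0) (.cons (.rf (nat_lit 1475) (nat_lit 677582165103132179601393696)) (.cons (.rf (nat_lit 1475) (nat_lit 640105464695078675185502240)) .nil))),
 (.br (nat_lit 14) (nat_lit 0) (.cons (.rf (nat_lit 1476) (nat_lit 677582165103132179601393696)) (.cons (.br (nat_lit 16) (nat_lit 0) (.cons (.br (nat_lit 15) (nat_lit 0) (.cons (.ev (nat_lit 5337681487487666581592690635216913921) (nat_lit 3)) .nil)) (.cons (.ev (nat_lit 1361150236872427146925415687230446765569) (nat_lit 3)) .nil))) .nil))),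
 (.br (nat_lit 14) (nat_lit 0) (.cons (.br (nat_lit 15) (nat_lit 0) (.cons (.ev (nat_lit 5337681171193986544033910795121198599) (nat_lit 3)) (.cons (.rf (nat_lit 1) (nat_lit 631047566213356737)) .nil))) .nil)),
 (.br (nat_lit 15) (nat_lit 0) (.cons (.ev (nat_lit 2689731626874141448426076684654347267) (nat_lit 3)) .nil)),
 (.br (nat_lit 12) (nat_lit 0) (.cons (.br (nat_lit 13) (nat_lit 0) (.cons (.ev (nat_lit 81448409188370854906235680195079) (nat_lit 3)) (.cons (.br (nat_lit 14) (nat_lit 0) (.cons (.rf (nat_lit 1478) (nat_lit 583706118939841765935136)) (.cons (.br (nat_lit 14) (nat_lit 0) (.cons (.rf (nat_lit 1478) (nat_lit 583706118939841765935136)) (.cons (.br (nat_lit 15) (nat_lit 0) (.cons (.rf (nat_lit 1479) (nat_lit 677582165103132179601393696)) (.cons (.rf (nat_lit 1479) (nat_lit 640105464695078675185502240)) .nil))) .nil))) .nil))) .nil))) .nil)),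
 (.br (nat_lit 15) (nat_lit 0) (.cons (.br (nat_lit 16) (nat_lit 0) (.cons (.ev (nat_lit 1366446379667513701087018218536877164039) (nat_lit 3)) .nil)) .nil)),
 (.br (nat_lit 13) (nat_lit 0) (.cons (.kr (nat_lit 79537647542532426735978283010) (nat_lit 20282409603651742763016265990400) (nat_lit 0) (nat_lit 3)) (.cons (.br (nat_lit 14) (nat_lit 0) (.cons (.kr (nat_lit 159075295085064853471956566017) (nat_lit 10384593718283303443159595301732352) (nat_lit 0) (nat_lit 1)) (.cons (.kr (nat_lit 10384593718283303443159595301732355) (nat_lit 40564819207303485526032531980800) (nat_lit 0) (nat_lit 8)) (.cons (.br (nat_lit 15) (nat_lit 0) (.cons (.rf (nat_lit 1481) (nat_lit 677582165103132179601393696)) (.cons (.br (nat_lit 15) (nat_lit 0) (.cons (.rf (nat_lit 1481) (nat_lit 677582165103132179601393696)) .nil)) .nil))) .nil)))) .nil))),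
 (.br (nat_lit 15) (nat_lit 0) (.cons (.ev (nat_lit 1361150236871808176905917112281072666119) (nat_lit 3)) (.cons (.ev (nat_lit 5337762302070341189712760898167506439) (nat_lit 3)) .nil))),
 (.br (nat_lit 14) (nat_lit 0) (.cons (.rf (nat_lit 1483) (nat_lit 677582165103132179601393696)) (.cons (.rf (nat_lit 1483) (nat_lit 640105464695078675185502240)) .nil))),
 (.br (nat_lit 14) (nat_lit 0) (.cons (.rf (nat_lit 1484) (nat_lit 677582165103132179601393696)) (.cons (.br (nat_lit 16) (nat_lit 0) (.cons (.br (nat_lit 15) (nat_lit 0) (.cons (.ev (nat_lit 5337681488106636527305415189659124231) (nat_lit 3)) .nil)) (.cons (.ev (nat_lit 1361150236871808176905917112281072666119) (nat_lit 3)) .nil))) .nil))),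
 (.br (nat_lit 7) (nat_lit 0) (.cons (.kr (nat_lit 618970056536178284868665345) (nat_lit 1213648186098602643292160) (nat_lit 0) (nat_lit 1)) (.cons (.br (nat_lit 8) (nat_lit 0) (.cons (.ev (nat_lit 620183741904560568682939911) (nat_lit 3)) (.cons (.br (nat_lit 12) (nat_lit 0) (.cons (.rf (nat_lit 1480) (nat_lit 493858305440582043680)) (.cons (.br (nat_lit 12) (nat_lit 0) (.cons (.rf (nat_lit 1480) (nat_lit 493858305440582043680)) (.cons (.br (nat_lit 13) (nat_lit 0) (.cons (.rf (nat_lit 1482) (nat_lit 583706118939841765935136)) (.cons (.rf (nat_lit 1482) (nat_lit 547107778697602015528992)) (.cons (.br (nat_lit 13) (nat_lit 0) (.cons (.rf (nat_lit 1482) (nat_lit 583706118939841765935136)) (.cons (.rf (nat_lit 1482) (nat_lit 547107778697602015528992)) (.cons (.br (nat_lit 14) (nat_lit 0) (.cons (.rf (nat_lit 1484) (nat_lit 677582165103132179601393696)) (.cons (.rf (nat_lit 1485) (nat_lit 677582165103132179601393696)) (.cons (.rf (nat_lit 1485) (nat_lit 640105464695078675185502240)) .nil)))) .nil)))) .nil)))) .nil))) .nil)))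 .nil))) .nil))),
 (.br (nat_lit 14) (nat_lit 0) (.cons (.br (nat_lit 15) (nat_lit 0) (.cons (.ev (nat_lit 2668840585600027373963395821128057602) (nat_lit 2)) (.cons (.rf (nat_lit 43) (nat_lit 631047566515210278)) .nil))) .nil)),
 (.br (nat_lit 14) (nat_lit 0) (.cons (.ev (nat_lit 5253382083750409477185463929405952) (nat_lit 2)) .nil))]

theorem c55 : chkAll C T R L55 (nat_lit 1458) = true := by decide +kernel

theorem l55 : (nat_lit 1458) + L55.length = (nat_lit 1489) := by decide +kernel

/-- part of the certificates -/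
def L56 : List Prf := [(.br (nat_lit 15) (nat_lit 0) (.cons (.ev (nat_lit 1334440575363748287844003780560486400) (nat_lit 1)) .nil)),
 (.br (nat_lit 14) (nat_lit 0) (.cons (.kr (nat_lit 159075295085064853471956566017) (nat_lit 10384593718283303443159595301732352) (nat_lit 0) (nat_lit 1)) (.cons (.br (nat_lit 13) (nat_lit 0) (.cons (.br (nat_lit 15) (nat_lit 0) (.cons (.ev (nat_lit 1334440575054263296541177800783036673) (nat_lit 1)) (.cons (.rf (nat_lit 11) (nat_lit 596110584243790017)) .nil))) (.cons (.br (nat_lit 15) (nat_lit 0) (.cons (.ev (nat_lit 680575118436214189694712145523654001153) (nat_lit 2)) (.cons (.br (nat_lit 15) (nat_lit 0) (.cons (.ev (nat_lit 680575118436214189694712145523654001153) (nat_lit 2)) .nil)) .nil))) (.cons (.br (nat_lit 15) (nat_lit 0) (.cons (.rf (nat_lit 1232) (nat_lit 21174442659362716987171011)) (.cons (.rf (nat_lit 1489) (nat_lit 677582165103132179601393696)) .nil))) .nil)))) .nil))),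
 (.br (nat_lit 14) (nat_lit 0) (.cons (.ev (nat_lit 1334440575363748287844003780560486400) (nat_lit 1)) (.cons (.br (nat_lit 15) (nat_lit 0) (.cons (.ev (nat_lit 4086046899924564464315899960385186694663) (nat_lit 4)) (.cons (.ev (nat_lit 1344825248617256578405017616784556035) (nat_lit 2)) .nil))) .nil))),
 (.br (nat_lit 13) (nat_lit 0) (.cons (.rf (nat_lit 1490) (nat_lit 583706118939841765935136)) (.cons (.br (nat_lit 14) (nat_lit 0) (.cons (.rf (nat_lit 1490) (nat_lit 508221933016380905456704)) (.cons (.rf (nat_lit 1491) (nat_lit 19926519232773908561233952)) (.cons (.br (nat_lit 14) (nat_lit 0) (.cons (.rf (nat_lit 11) (nat_lit 631011351048989889)) (.cons (.rf (nat_lit 1491) (nat_lit 19926519232773908561233952)) .nil))) .nil)))) .nil))),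
 (.br (nat_lit 14) (nat_lit 0) (.cons (.rf (nat_lit 1490) (nat_lit 508221933016380905456704)) (.cons (.br (nat_lit 16) (nat_lit 0) (.cons (.br (nat_lit 15) (nat_lit 0) (.cons (.ev (nat_lit 7996259174134090220028498191193210881) (nat_lit 3)) .nil)) (.cons (.ev (nat_lit 680575118435595219711819393503147982851) (nat_lit 2)) .nil))) .nil))),
 (.br (nat_lit 14) (nat_lit 0) (.cons (.br (nat_lit 15) (nat_lit 0) (.cons (.ev (nat_lit 5337681171193986507140985597655515141) (nat_lit 3)) (.cons (.rf (nat_lit 1) (nat_lit 631047566212307201)) .nil))) .nil)),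
 (.br (nat_lit 15) (nat_lit 0) (.cons (.ev (nat_lit 2689731625636201372536001588440991237) (nat_lit 3)) .nil)),
 (.br (nat_lit 12) (nat_lit 0) (.cons (.br (nat_lit 13) (nat_lit 0) (.cons (.ev (nat_lit 81448409188481533681828077241349) (nat_lit 3)) (.cons (.br (nat_lit 14) (nat_lit 0) (.cons (.rf (nat_lit 1494) (nat_lit 583706118939841765935136)) (.cons (.br (nat_lit 14) (nat_lit 0) (.cons (.rf (nat_lit 1494) (nat_lit 583706118939841765935136)) (.cons (.br (nat_lit 15) (nat_lit 0) (.cons (.rf (nat_lit 1495) (nat_lit 677582165103132179601393696)) (.cons (.rf (nat_lit 1495) (nat_lit 640105464695078675185502240)) .nil))) .nil))) .nil))) .nil))) .nil)),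
 (.br (nat_lit 15) (nat_lit 0) (.cons (.br (nat_lit 16) (nat_lit 0) (.cons (.ev (nat_lit 88820369969637275930654356836672485000454) (nat_lit 3)) .nil)) .nil)),
 (.br (nat_lit 13) (nat_lit 0) (.cons (.kr (nat_lit 20282719088661492050490952777984) (nat_lit 79228162532783139261291495424) (nat_lit 1) (nat_lit 0)) (.cons (.br (nat_lit 14) (nat_lit 0) (.cons (.kr (nat_lit 10384593718283303443159595301732353) (nat_lit 158456325065566278522582990848) (nat_lit 0) (nat_lit 1)) (.cons (.kr (nat_lit 10384593718283303443159595301732353) (nat_lit 40565438177322984100981905555968) (nat_lit 0) (nat_lit 2)) (.cons (.br (nat_lit 15) (nat_lit 0) (.cons (.rf (nat_lit 1497) (nat_lit 677582165103132179601393696)) (.cons (.br (nat_lit 15) (nat_lit 0) (.cons (.rf (nat_lit 1497) (nat_lit 677582165103132179601393696)) .nil)) .nil))) .nil)))) .nil))),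
 (.br (nat_lit 15) (nat_lit 0) (.cons (.ev (nat_lit 1361150236871808176869024187083606982661) (nat_lit 3)) (.cons (.ev (nat_lit 5337762300832401187608536196885513221) (nat_lit 3)) .nil))),
 (.br (nat_lit 14) (nat_lit 0) (.cons (.rf (nat_lit 1499) (nat_lit 677582165103132179601393696)) (.cons (.rf (nat_lit 1499) (nat_lit 640105464695078675185502240)) .nil))),
 (.br (nat_lit 14) (nat_lit 0) (.cons (.rf (nat_lit 1500) (nat_lit 677582165103132179601393696)) (.cons (.br (nat_lit 16) (nat_lit 0) (.cons (.br (nat_lit 15) (nat_lit 0) (.cons (.ev (nat_lit 5337681489344576603195490285872480261) (nat_lit 3)) .nil)) (.cons (.ev (nat_lit 1361150236871808176869024187083606982661) (nat_lit 3)) .nil))) .nil))),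
 (.br (nat_lit 14) (nat_lit 0) (.cons (.br (nat_lit 15) (nat_lit 0) (.cons (.ev (nat_lit 2668840585600027373963395821128057602) (nat_lit 2)) (.cons (.rf (nat_lit 43) (nat_lit 596110584441047078)) .nil))) .nil)),
 (.br (nat_lit 14) (nat_lit 0) (.cons (.kr (nat_lit 10384593718283303443159595301732353) (nat_lit 40565438177322984100981905555968) (nat_lit 0) (nat_lit 2)) (.cons (.br (nat_lit 12) (nat_lit 0) (.cons (.br (nat_lit 15) (nat_lit 0) (.cons (.ev (nat_lit 1334420371872822140688628848342859776) (nat_lit 1)) (.cons (.rf (nat_lit 11) (nat_lit 596110550957824225)) .nil))) (.cons (.br (nat_lit 15) (nat_lit 0) (.cons (.ev (nat_lit 680575118436214189694712145523654001153) (nat_lit 2)) (.cons (.br (nat_lit 15) (nat_lit 0) (.cons (.ev (nat_lit 680575118436214189694712145523654001153) (nat_lit 2)) .nil)) .nil))) (.cons (.br (nat_lit 15) (nat_lit 0) (.cons (.br (nat_lit 15) (nat_lit 0) (.cons (.ev (nat_lit 1334420372181102965431247162233127168) (nat_lit 1)) .nil)) (.cons (.br (nat_lit 15) (nat_lit 0) (.cons (.ev (nat_lit 1334420372181102965431247162233127168)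 (nat_lit 1)) .nil)) .nil))) .nil)))) .nil))),
 (.br (nat_lit 14) (nat_lit 0) (.cons (.ev (nat_lit 1334420372182307168884380025585991937) (nat_lit 1)) (.cons (.br (nat_lit 15) (nat_lit 0) (.cons (.ev (nat_lit 4086046940330927346848962609474861139973) (nat_lit 4)) (.cons (.ev (nat_lit 1344825248617256578405017616784556035) (nat_lit 2)) .nil))) .nil))),
 (.br (nat_lit 12) (nat_lit 0) (.cons (.rf (nat_lit 1503) (nat_lit 583706118939841765935136)) (.cons (.br (nat_lit 14) (nat_lit 0) (.cons (.br (nat_lit 14) (nat_lit 0) (.cons (.ev (nat_lit 1334420372182307168884380025585991937) (nat_lit 1)) (.cons (.rf (nat_lit 11) (nat_lit 631010252609039585)) .nil))) (.cons (.rf (nat_lit 1504) (nat_lit 19926519232773908561233952)) (.cons (.br (nat_lit 14) (nat_lit 0) (.cons (.rf (nat_lit 11) (nat_lit 631010252609039585)) (.cons (.rf (nat_lit 1504) (nat_lit 19926519232773908561233952)) .nil))) .nil)))) .nil))),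
 (.br (nat_lit 15) (nat_lit 0) (.cons (.ev (nat_lit 680575118435595219711819393503147982851) (nat_lit 2)) (.cons (.ev (nat_lit 1334420371871617937235498192636739585) (nat_lit 1)) .nil))),
 (.br (nat_lit 14) (nat_lit 0) (.cons (.rf (nat_lit 1506) (nat_lit 677582165103132179601393696)) (.cons (.rf (nat_lit 1506) (nat_lit 640105464695078675185502240)) .nil))),
 (.br (nat_lit 14) (nat_lit 0) (.cons (.rf (nat_lit 1507) (nat_lit 677582165103132179601393696)) (.cons (.br (nat_lit 16) (nat_lit 0) (.cons (.br (nat_lit 15) (nat_lit 0) (.cons (.ev (nat_lit 7996218767771207982109250681244222979) (nat_lit 3)) .nil)) (.cons (.ev (nat_lit 680575118435595219711819393503147982851) (nat_lit 2)) .nil))) .nil))),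
 (.br (nat_lit 13) (nat_lit 0) (.cons (.ev (nat_lit 620193112705869667459138049) (nat_lit 2)) (.cons (.ev (nat_lit 20282410812577562378749264003073) (nat_lit 1)) (.cons (.br (nat_lit 11) (nat_lit 0) (.cons (.br (nat_lit 12) (nat_lit 0) (.cons (.ev (nat_lit 40723276755461682638520896847873) (nat_lit 2)) (.cons (.br (nat_lit 14) (nat_lit 0) (.cons (.rf (nat_lit 1502) (nat_lit 583706118939841765935136)) (.cons (.br (nat_lit 14) (nat_lit 0) (.cons (.rf (nat_lit 1502) (nat_lit 583706118939841765935136)) (.cons (.rf (nat_lit 1231) (nat_lit 21174441542470009399286019)) .nil))) .nil))) .nil))) (.cons (.ev (nat_lit 20282719093402304997063154270465) (nat_lit 1)) (.cons (.br (nat_lit 12) (nat_lit 0) (.cons (.rf (nat_lit 1503) (nat_lit 583706118939841765935136)) (.cons (.rf (nat_lit 1505) (nat_lit 583706118939841765935136)) (.cons (.br (nat_lit 12) (nat_lit 0) (.cons (.rf (nat_lit 1503) (nat_lit 583706118939841765935136)) (.cons (.rf (nat_lit 1505) (nat_lit 583706118939841765935136)) (.cons (.br (nat_lit 14) (nat_lit 0) (.cons (.rf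 (nat_lit 1507) (nat_lit 677582165103132179601393696)) (.cons (.rf (nat_lit 1508) (nat_lit 677582165103132179601393696)) (.cons (.rf (nat_lit 1508) (nat_lit 640105464695078675185502240)) .nil)))) .nil)))) .nil)))) .nil)))) .nil)))),
 (.br (nat_lit 13) (nat_lit 0) (.cons (.kr (nat_lit 40723894502388405701366459138049) (nat_lit 5316911983140877139801326843764670464) (nat_lit 0) (nat_lit 1)) (.cons (.br (nat_lit 15) (nat_lit 0) (.cons (.ev (nat_lit 1329248357733375974479809773951844353) (nat_lit 1)) (.cons (.rf (nat_lit 11) (nat_lit 631046434488424705)) .nil))) .nil))),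
 (.br (nat_lit 15) (nat_lit 0) (.cons (.ev (nat_lit 1344865971892788910274542906021773313) (nat_lit 2)) .nil)),
 (.br (nat_lit 12) (nat_lit 0) (.cons (.rf (nat_lit 1510) (nat_lit 583706118939841765935136)) (.cons (.br (nat_lit 13) (nat_lit 0) (.cons (.rf (nat_lit 1510) (nat_lit 583670269199357578413120)) (.cons (.br (nat_lit 16) (nat_lit 0) (.cons (.ev (nat_lit 4083409212966305237246818294090730833923) (nat_lit 4)) (.cons (.rf (nat_lit 70) (nat_lit 629956850849417254)) .nil))) (.cons (.br (nat_lit 15) (nat_lit 0) (.cons (.rf (nat_lit 1511) (nat_lit 677582165103132179601393696)) (.cons (.rf (nat_lit 1511) (nat_lit 640105428845338190997980224)) .nil))) .nil)))) .nil))),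
 (.br (nat_lit 13) (nat_lit 0) (.cons (.kr (nat_lit 2658455991571045393993712723203981315) (nat_lit 10384593717069655401739130687848960) (nat_lit 0) (nat_lit 8)) (.cons (.br (nat_lit 15) (nat_lit 0) (.cons (.ev (nat_lit 683223189834066951785262698651556250113) (nat_lit 2)) (.cons (.ev (nat_lit 1329248357422686779723853138468274433) (nat_lit 1)) .nil))) .nil))),
 (.br (nat_lit 12) (nat_lit 0) (.cons (.rf (nat_lit 1512) (nat_lit 583706118939841765935136)) (.cons (.br (nat_lit 13) (nat_lit 0) (.cons (.kr (nat_lit 2658455991571045393993712723203981315) (nat_lit 10384593717069655401739130687848960) (nat_lit 0) (nat_lit 8)) (.cons (.rf (nat_lit 1513) (nat_lit 19926519232773908561233952)) (.cons (.br (nat_lit 13) (nat_lit 0) (.cons (.kr (nat_lit 2658455991571045393993712723203981315) (nat_lit 10384593717069655401739130687848960) (nat_lit 0) (nat_lit 8)) (.cons (.rf (nat_lit 1513) (nat_lit 19926519232773908561233952)) .nil))) .nil)))) .nil))),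
 (.br (nat_lit 13) (nat_lit 0) (.cons (.rf (nat_lit 1514) (nat_lit 583670269199357578413120)) (.cons (.br (nat_lit 16) (nat_lit 0) (.cons (.br (nat_lit 15) (nat_lit 0) (.cons (.ev (nat_lit 5337803341639553559141059404560205317) (nat_lit 3)) .nil)) (.cons (.ev (nat_lit 1361129508408268539946771088326720357889) (nat_lit 3)) .nil))) .nil))),
 (.br (nat_lit 15) (nat_lit 0) (.cons (.ev (nat_lit 1329248357423895687096723693933494528) (nat_lit 1)) .nil)),
 (.br (nat_lit 13) (nat_lit 0) (.cons (.ev (nat_lit 10384752174617776704802729326936577) (nat_lit 2)) (.cons (.ev (nat_lit 122172922660926764919963110870019) (nat_lit 4)) (.cons (.br (nat_lit 14) (nat_lit 0) (.cons (.br (nat_lit 15) (nat_lit 0) (.cons (.ev (nat_lit 2658496557009232198748384987541667841) (nat_lit 2)) (.cons (.rf (nat_lit 20) (nat_lit 631047566216404161)) .nil))) (.cons (.br (nat_lit 15) (nat_lit 0) (.cons (.ev (nat_lit 1361139892843529284536606548934825213959) (nat_lit 3)) (.cons (.br (nat_lit 15) (nat_lit 0) (.cons (.ev (nat_lit 1361139892843529284536606548934825213959)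 (nat_lit 3)) .nil)) .nil))) (.cons (.br (nat_lit 15) (nat_lit 0) (.cons (.rf (nat_lit 1516) (nat_lit 21174442659472880612542496)) (.cons (.br (nat_lit 15) (nat_lit 0) (.cons (.rf (nat_lit 1516) (nat_lit 21174442659472880612542496)) .nil)) .nil))) .nil)))) .nil)))),
 (.br (nat_lit 13) (nat_lit 0) (.cons (.ev (nat_lit 122172922660926764919963110870019) (nat_lit 4)) (.cons (.ev (nat_lit 2658496556390262142067526356997112323) (nat_lit 2)) (.cons (.br (nat_lit 15) (nat_lit 0) (.cons (.ev (nat_lit 7975368451317624195669493793163447309) (nat_lit 4)) (.cons (.kr (nat_lit 20282719088661491769015976067073) (nat_lit 1329227995784915872975864654318338048) (nat_lit 0) (nat_lit 1)) (.cons (.br (nat_lit 14) (nat_lit 0) (.cons (.br (nat_lit 14) (nat_lit 0) (.cons (.ev (nat_lit 2668881308563656862747313634115977217) (nat_lit 2)) .nil)) (.cons (.br (nat_lit 14) (nat_lit 0) (.cons (.ev (nat_lit 2668881308563656862747313634115977217) (nat_lit 2)) .nil)) .nil))) .nil)))) .nil))))]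

theorem c56 : chkAll C T R L56 (nat_lit 1489) = true := by decide +kernel

theorem l56 : (nat_lit 1489) + L56.length = (nat_lit 1519) := by decide +kernel

/-- part of the certificates -/
def L57 : List Prf := [(.br (nat_lit 14) (nat_lit 0) (.cons (.ev (nat_lit 10384752793587833385656944578002947) (nat_lit 2)) (.cons (.br (nat_lit 15) (nat_lit 0) (.cons (.ev (nat_lit 2658496557009232198748384987541667841) (nat_lit 2)) (.cons (.kr (nat_lit 1329248278194524246940713877176844288) (nat_lit 5192376087906267712482719047876608) (nat_lit 9) (nat_lit 0)) .nil))) .nil))),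
 (.br (nat_lit 14) (nat_lit 0) (.cons (.ev (nat_lit 10384752793587833385656944578002947) (nat_lit 2)) (.cons (.br (nat_lit 15) (nat_lit 0) (.cons (.kr (nat_lit 1329248278194524246940713877176844288) (nat_lit 5192376087906267712482719047876608) (nat_lit 9) (nat_lit 0)) (.cons (.ev (nat_lit 2658496557009232198748384987541667841) (nat_lit 2)) .nil))) .nil))),
 (.br (nat_lit 14) (nat_lit 0) (.cons (.ev (nat_lit 10384752793587833385656944578002947) (nat_lit 2)) (.cons (.br (nat_lit 16) (nat_lit 0) (.cons (.br (nat_lit 15) (nat_lit 0) (.cons (.ev (nat_lit 1363819077774007728400932062965933278209) (nat_lit 3)) .nil)) (.cons (.ev (nat_lit 87112285952121884417530719548610850062593) (nat_lit 1)) .nil))) .nil))),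
 (.br (nat_lit 12) (nat_lit 0) (.cons (.rf (nat_lit 1517) (nat_lit 583706118939841765935136)) (.cons (.rf (nat_lit 1518) (nat_lit 583706118939841765935136)) (.cons (.br (nat_lit 13) (nat_lit 0) (.cons (.rf (nat_lit 1518) (nat_lit 547071928957117828006976)) (.cons (.rf (nat_lit 1517) (nat_lit 547071928957117828006976)) (.cons (.br (nat_lit 14) (nat_lit 0) (.cons (.rf (nat_lit 1519) (nat_lit 19926519232773908561233952)) (.cons (.br (nat_lit 14) (nat_lit 0) (.cons (.ev (nat_lit 10384752793587833385656944578002947) (nat_lit 2)) (.cons (.rf (nat_lit 87) (nat_lit 631047566384171046)) .nil))) (.cons (.br (nat_lit 14) (nat_lit 0) (.cons (.rf (nat_lit 1519) (nat_lit 19926519232773908561233952)) (.cons (.rf (nat_lit 87) (nat_lit 631047566384171046)) .nil))) .nil)))) (.cons (.br (nat_lit 14) (nat_lit 0) (.cons (.rf (nat_lit 1520) (nat_lit 677582165103132179601393696)) (.cons (.rf (nat_lit 1521) (nat_lit 677582165103132179601393696)) (.cons (.br (nat_lit 14) (nat_lit 0) (.cons (.rf (nat_lit 1520) (nat_lit 677582165103132179601393696))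 (.cons (.rf (nat_lit 1521) (nat_lit 677582165103132179601393696)) .nil))) .nil)))) .nil))))) .nil)))),
 (.br (nat_lit 13) (nat_lit 0) (.cons (.ev (nat_lit 2658496557009232198748384987541667841) (nat_lit 2)) (.cons (.br (nat_lit 14) (nat_lit 0) (.cons (.ev (nat_lit 1363798308269660938959574740211509231621) (nat_lit 3)) (.cons (.br (nat_lit 16) (nat_lit 0) (.cons (.ev (nat_lit 341616787213581918904792230629593841920) (nat_lit 1)) .nil)) .nil))) .nil))),
 (.br (nat_lit 14) (nat_lit 0) (.cons (.rf (nat_lit 865) (nat_lit 18751794928522956948938056)) .nil)),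
 (.br (nat_lit 13) (nat_lit 0) (.cons (.br (nat_lit 16) (nat_lit 0) (.cons (.ev (nat_lit 2658496556390262142067526356997112323) (nat_lit 2)) (.cons (.ev (nat_lit 340287579500516091693308134991251702017) (nat_lit 1)) .nil))) (.cons (.br (nat_lit 15) (nat_lit 0) (.cons (.rf (nat_lit 608) (nat_lit 677507824401384089220908224)) (.cons (.ev (nat_lit 2658496556390262142067526356997112323) (nat_lit 2)) .nil))) .nil))),
 (.br (nat_lit 13) (nat_lit 0) (.cons (.rf (nat_lit 1525) (nat_lit 677582165103132179601393696)) (.cons (.br (nat_lit 15) (nat_lit 0) (.cons (.ev (nat_lit 340287579500516091693308134991251702017) (nat_lit 1)) (.cons (.ev (nat_lit 87112285952122195106725475505246333632513) (nat_lit 1)) .nil))) .nil))),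
 (.br (nat_lit 12) (nat_lit 0) (.cons (.rf (nat_lit 1522) (nat_lit 583706118939841765935136)) (.cons (.br (nat_lit 15) (nat_lit 0) (.cons (.ev (nat_lit 7975368451317624195669493793163447309) (nat_lit 4)) (.cons (.ev (nat_lit 10384752174617776704802729326936577) (nat_lit 2)) (.cons (.br (nat_lit 13) (nat_lit 0) (.cons (.br (nat_lit 13) (nat_lit 0) (.cons (.ev (nat_lit 2658496557009232198748384987541667841) (nat_lit 2)) (.cons (.rf (nat_lit 20) (nat_lit 630977266187513025)) .nil))) (.cons (.rf (nat_lit 1523) (nat_lit 19926519232773908561233952)) (.cons (.br (nat_lit 13) (nat_lit 0) (.cons (.rf (nat_lit 20) (nat_lit 630977266187513025)) (.cons (.rf (nat_lit 1523) (nat_lit 19926519232773908561233952)) .nil))) .nil)))) .nil)))) (.cons (.br (nat_lit 14) (nat_lit 0) (.cons (.br (nat_lit 13) (nat_lit 0) (.cons (.ev (nat_lit 31275478704894696271301787425440269) (nat_lit 4)) (.cons (.br (nat_lit 15) (nat_lit 0) (.cons (.ev (nat_lit 1361129508408268539946771088326720357889) (nat_lit 3)) (.cons (.br (nat_lit 15) (nat_lit 0) (.cons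 (.ev (nat_lit 1361129508408268539946771088326720357889) (nat_lit 3)) .nil)) .nil))) (.cons (.br (nat_lit 15) (nat_lit 0) (.cons (.rf (nat_lit 1524) (nat_lit 21174442659472880611461152)) (.cons (.br (nat_lit 15) (nat_lit 0) (.cons (.rf (nat_lit 1524) (nat_lit 21174442659472880611461152)) .nil)) .nil))) .nil)))) (.cons (.br (nat_lit 15) (nat_lit 0) (.cons (.ev (nat_lit 8006521757099857965175875617478017543) (nat_lit 4)) (.cons (.br (nat_lit 13) (nat_lit 0) (.cons (.ev (nat_lit 1363787923834400194369739279603404375559) (nat_lit 3)) (.cons (.br (nat_lit 13) (nat_lit 0) (.cons (.ev (nat_lit 1363787923834400194369739279603404375559) (nat_lit 3)) .nil)) .nil))) (.cons (.rf (nat_lit 1141) (nat_lit 19532091853386890153217)) .nil)))) (.cons (.ev (nat_lit 10384752174617776704802729326936577) (nat_lit 2)) (.cons (.br (nat_lit 13) (nat_lit 0) (.cons (.rf (nat_lit 1525) (nat_lit 677582165103132179601393696)) (.cons (.rf (nat_lit 1526) (nat_lit 677582165103132179601393696)) (.cons (.br (nat_lit 13) (nat_lit 0) (.cons (.rf (nat_lit 1525)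 (nat_lit 677582165103132179601393696)) (.cons (.rf (nat_lit 1526) (nat_lit 677582165103132179601393696)) .nil))) .nil)))) .nil))))) .nil)))),
 (.br (nat_lit 14) (nat_lit 0) (.cons (.ev (nat_lit 8006521757099857965175875617478017543) (nat_lit 4)) (.cons (.ev (nat_lit 10384752793587833385656944578002947) (nat_lit 2)) (.cons (.br (nat_lit 13) (nat_lit 0) (.cons (.rf (nat_lit 20) (nat_lit 596040250927980769)) (.cons (.br (nat_lit 15) (nat_lit 0) (.cons (.ev (nat_lit 2658496557009232198748384987541667841) (nat_lit 2)) (.cons (.kr (nat_lit 1329248278194524246940713877176844288) (nat_lit 5192376087906267712482719047876608) (nat_lit 9) (nat_lit 0)) .nil))) (.cons (.br (nat_lit 15) (nat_lit 0) (.cons (.kr (nat_lit 1329248278194524246940713877176844288) (nat_lit 5192376087906267712482719047876608) (nat_lit 9) (nat_lit 0)) (.cons (.ev (nat_lit 2658496557009232198748384987541667841) (nat_lit 2)) .nil))) .nil)))) .nil)))),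
 (.br (nat_lit 13) (nat_lit 0) (.cons (.rf (nat_lit 1528) (nat_lit 19926519232773908561233952)) (.cons (.rf (nat_lit 1527) (nat_lit 547071928957117828006976)) (.cons (.br (nat_lit 15) (nat_lit 0) (.cons (.br (nat_lit 14) (nat_lit 0) (.cons (.ev (nat_lit 341611594995952750776434705783781851136) (nat_lit 1)) (.cons (.ev (nat_lit 2668881309182626845640070069915484675) (nat_lit 2)) .nil))) (.cons (.rf (nat_lit 87) (nat_lit 631011351350970406)) (.cons (.br (nat_lit 16) (nat_lit 0) (.cons (.br (nat_lit 14) (nat_lit 0) (.cons (.ev (nat_lit 1361160662347876073977963871689249260547) (nat_lit 3)) .nil)) (.cons (.ev (nat_lit 341611594995952750776434705783781851136) (nat_lit 1)) .nil))) .nil)))) .nil)))),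
 (.br (nat_lit 12) (nat_lit 0) (.cons (.rf (nat_lit 1522) (nat_lit 583706118939841765935136)) (.cons (.rf (nat_lit 1527) (nat_lit 583706118939841765935136)) (.cons (.br (nat_lit 13) (nat_lit 0) (.cons (.rf (nat_lit 1528) (nat_lit 19926519232773908561233952)) (.cons (.rf (nat_lit 1527) (nat_lit 547071928957117828006976)) (.cons (.rf (nat_lit 1529) (nat_lit 19926519232773908561233952)) (.cons (.br (nat_lit 13) (nat_lit 0) (.cons (.rf (nat_lit 1528) (nat_lit 19926519232773908561233952)) (.cons (.rf (nat_lit 1527) (nat_lit 547071928957117828006976)) (.cons (.rf (nat_lit 1529) (nat_lit 19926519232773908561233952)) .nil)))) .nil))))) .nil)))),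
 (.br (nat_lit 14) (nat_lit 0) (.cons (.ev (nat_lit 1361150277912615329240556710291281674757) (nat_lit 3)) (.cons (.ev (nat_lit 349810273235448017186329586102578983338501) (nat_lit 3)) .nil))),
 (.br (nat_lit 13) (nat_lit 0) (.cons (.rf (nat_lit 1530) (nat_lit 547071928957117828006976)) (.cons (.rf (nat_lit 1527) (nat_lit 547071928957117828006976)) (.cons (.br (nat_lit 16) (nat_lit 0) (.cons (.rf (nat_lit 1531) (nat_lit 677582165103132179601393696)) (.cons (.rf (nat_lit 1531) (nat_lit 677545530913149455663465536)) (.cons (.kr (nat_lit 340282366920938463463374607431768211456) (nat_lit 87112285931760246646623899502532662132736) (nat_lit 16) (nat_lit 0)) .nil)))) .nil)))),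
 (.br (nat_lit 6) (nat_lit 0) (.cons (.br (nat_lit 8) (nat_lit 0) (.cons (.kr (nat_lit 309485009821626543701491968) (nat_lit 18518801667747545088) (nat_lit 1) (nat_lit 0)) (.cons (.br (nat_lit 11) (nat_lit 0) (.cons (.ev (nat_lit 1239153761403135518057039361) (nat_lit 3)) (.cons (.br (nat_lit 12) (nat_lit 0) (.cons (.rf (nat_lit 1472) (nat_lit 493858305440582043680)) (.cons (.br (nat_lit 12) (nat_lit 0) (.cons (.rf (nat_lit 1472) (nat_lit 493858305440582043680)) (.cons (.br (nat_lit 13) (nat_lit 0) (.cons (.rf (nat_lit 1474) (nat_lit 583706118939841765935136)) (.cons (.rf (nat_lit 1474) (nat_lit 547107778697602015528992)) (.cons (.br (nat_lit 13) (nat_lit 0) (.cons (.rf (nat_lit 1474) (nat_lit 583706118939841765935136)) (.cons (.rf (nat_lit 1474) (nat_lit 547107778697602015528992)) (.cons (.br (nat_lit 14) (nat_lit 0) (.cons (.rf (nat_lit 1476) (nat_lit 677582165103132179601393696)) (.cons (.rf (nat_lit 1477) (nat_lit 677582165103132179601393696)) (.cons (.rf (nat_lit 1477) (nat_lit 640105464695078675185502240)) .nil))))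 .nil)))) .nil)))) .nil))) .nil))) .nil))) .nil))) (.cons (.kr (nat_lit 18446744073709551617) (nat_lit 281474976710912) (nat_lit 0) (nat_lit 2)) (.cons (.rf (nat_lit 1486) (nat_lit 407901468851537952)) (.cons (.br (nat_lit 7) (nat_lit 0) (.cons (.rf (nat_lit 1486) (nat_lit 298727627476272192)) (.cons (.kr (nat_lit 309485009821345068724781057) (nat_lit 72057594037993472) (nat_lit 0) (nat_lit 1)) (.cons (.br (nat_lit 8) (nat_lit 0) (.cons (.ev (nat_lit 620183705011635371217256453) (nat_lit 3)) (.cons (.ev (nat_lit 1223129813117646953119747) (nat_lit 2)) (.cons (.br (nat_lit 12) (nat_lit 0) (.cons (.ev (nat_lit 620193112705869667459138049) (nat_lit 2)) (.cons (.ev (nat_lit 79228167255149622130936643841) (nat_lit 1)) (.cons (.br (nat_lit 11) (nat_lit 0) (.cons (.br (nat_lit 13) (nat_lit 0) (.cons (.ev (nat_lit 40723276755461682638520896847873) (nat_lit 2)) (.cons (.br (nat_lit 14) (nat_lit 0) (.cons (.rf (nat_lit 1487) (nat_lit 583706118939841765935136)) (.cons (.br (nat_lit 14) (nat_lit 0) (.cons (.rf (nat_lit 1487) (nat_lit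 583706118939841765935136)) (.cons (.br (nat_lit 15) (nat_lit 0) (.cons (.rf (nat_lit 1488) (nat_lit 21174442659472880612542496)) (.cons (.rf (nat_lit 1488) (nat_lit 20003295771721208599545888)) .nil))) .nil))) .nil))) .nil))) (.cons (.ev (nat_lit 79537652246452448110714093568) (nat_lit 1)) (.cons (.br (nat_lit 13) (nat_lit 0) (.cons (.rf (nat_lit 1490) (nat_lit 583706118939841765935136)) (.cons (.rf (nat_lit 1492) (nat_lit 583706118939841765935136)) (.cons (.br (nat_lit 13) (nat_lit 0) (.cons (.rf (nat_lit 1490) (nat_lit 583706118939841765935136)) (.cons (.rf (nat_lit 1492) (nat_lit 583706118939841765935136)) (.cons (.br (nat_lit 14) (nat_lit 0) (.cons (.rf (nat_lit 1490) (nat_lit 508221933016380905456704)) (.cons (.rf (nat_lit 1493) (nat_lit 677582165103132179601393696)) (.cons (.rf (nat_lit 1493) (nat_lit 640105464695078675185502240)) .nil)))) .nil)))) .nil)))) .nil)))) .nil)))) .nil)))) (.cons (.br (nat_lit 8) (nat_lit 0) (.cons (.br (nat_lit 12) (nat_lit 0) (.cons (.rf (nat_lit 1496) (nat_lit 493858305440582043680))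 (.cons (.br (nat_lit 12) (nat_lit 0) (.cons (.rf (nat_lit 1496) (nat_lit 493858305440582043680)) (.cons (.br (nat_lit 13) (nat_lit 0) (.cons (.rf (nat_lit 1498) (nat_lit 583706118939841765935136)) (.cons (.rf (nat_lit 1498) (nat_lit 547107778697602015528992)) (.cons (.br (nat_lit 13) (nat_lit 0) (.cons (.rf (nat_lit 1498) (nat_lit 583706118939841765935136)) (.cons (.rf (nat_lit 1498) (nat_lit 547107778697602015528992)) (.cons (.br (nat_lit 14) (nat_lit 0) (.cons (.rf (nat_lit 1500) (nat_lit 677582165103132179601393696)) (.cons (.rf (nat_lit 1501) (nat_lit 677582165103132179601393696)) (.cons (.rf (nat_lit 1501) (nat_lit 640105464695078675185502240)) .nil)))) .nil)))) .nil)))) .nil))) .nil))) (.cons (.ev (nat_lit 1223129813117646953119747) (nat_lit 2)) (.cons (.rf (nat_lit 1509) (nat_lit 493858305440582043680)) (.cons (.br (nat_lit 11) (nat_lit 0) (.cons (.rf (nat_lit 1509) (nat_lit 458008564956394521664)) (.cons (.ev (nat_lit 620193112705869667459138049) (nat_lit 2)) (.cons (.br (nat_lit 14) (nat_lit 0) (.cons (.ev (nat_lit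 5192297169228763269772773028855808) (nat_lit 1)) (.cons (.ev (nat_lit 5192296859743771966946793251406081) (nat_lit 1)) (.cons (.br (nat_lit 12) (nat_lit 0) (.cons (.rf (nat_lit 1512) (nat_lit 583706118939841765935136)) (.cons (.rf (nat_lit 1514) (nat_lit 583706118939841765935136)) (.cons (.br (nat_lit 12) (nat_lit 0) (.cons (.rf (nat_lit 1512) (nat_lit 583706118939841765935136)) (.cons (.rf (nat_lit 1514) (nat_lit 583706118939841765935136)) (.cons (.br (nat_lit 13) (nat_lit 0) (.cons (.rf (nat_lit 1514) (nat_lit 583670269199357578413120)) (.cons (.rf (nat_lit 1515) (nat_lit 677582165103132179601393696)) (.cons (.rf (nat_lit 1515) (nat_lit 640105464695078675185502240)) .nil)))) .nil)))) .nil)))) .nil)))) (.cons (.br (nat_lit 12) (nat_lit 0) (.cons (.rf (nat_lit 1522) (nat_lit 583706118939841765935136)) (.cons (.rf (nat_lit 1527) (nat_lit 583706118939841765935136)) (.cons (.rf (nat_lit 1530) (nat_lit 583706118939841765935136)) (.cons (.br (nat_lit 12) (nat_lit 0) (.cons (.rf (nat_lit 1522) (nat_lit 583706118939841765935136))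 (.cons (.rf (nat_lit 1527) (nat_lit 583706118939841765935136)) (.cons (.rf (nat_lit 1530) (nat_lit 583706118939841765935136)) (.cons (.br (nat_lit 13) (nat_lit 0) (.cons (.rf (nat_lit 1530) (nat_lit 547071928957117828006976)) (.cons (.rf (nat_lit 1527) (nat_lit 547071928957117828006976)) (.cons (.rf (nat_lit 1532) (nat_lit 677582165103132179601393696)) (.cons (.rf (nat_lit 1532) (nat_lit 640105464695078675185502240)) .nil))))) .nil))))) .nil))))) .nil))))) .nil))))) .nil))))) .nil))))),
 (.br (nat_lit 14) (nat_lit 0) (.cons (.br (nat_lit 15) (nat_lit 0) (.cons (.ev (nat_lit 2689609774579173937645258118520767489) (nat_lit 3)) (.cons (.rf (nat_lit 1) (nat_lit 631047566346520833)) .nil))) .nil)),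
 (.br (nat_lit 14) (nat_lit 0) (.cons (.ev (nat_lit 5253382084949853527077642288824322) (nat_lit 2)) .nil)),
 (.br (nat_lit 12) (nat_lit 0) (.cons (.br (nat_lit 13) (nat_lit 0) (.cons (.kr (nat_lit 40564819212025707331863659413505) (nat_lit 158457533954348289820574351360) (nat_lit 0) (nat_lit 1)) (.cons (.br (nat_lit 14) (nat_lit 0) (.cons (.rf (nat_lit 1534) (nat_lit 583706118939841765935136)) (.cons (.br (nat_lit 14) (nat_lit 0) (.cons (.rf (nat_lit 1534) (nat_lit 583706118939841765935136)) (.cons (.br (nat_lit 15) (nat_lit 0) (.cons (.rf (nat_lit 1535) (nat_lit 21174442659472880612509728)) (.cons (.rf (nat_lit 1535) (nat_lit 20003295771721208599513120)) .nil))) .nil))) .nil))) .nil))) .nil))]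

theorem c57 : chkAll C T R L57 (nat_lit 1519) = true := by decide +kernel

theorem l57 : (nat_lit 1519) + L57.length = (nat_lit 1537) := by decide +kernel

/-- part of the certificates -/
def L58 : List Prf := [(.br (nat_lit 15) (nat_lit 0) (.cons (.br (nat_lit 16) (nat_lit 0) (.cons (.ev (nat_lit 89498276247487585443650476524099208414464) (nat_lit 3)) .nil)) .nil)),
 (.br (nat_lit 13) (nat_lit 0) (.cons (.ev (nat_lit 20521022555668877174517811707907) (nat_lit 2)) (.cons (.br (nat_lit 14) (nat_lit 0) (.cons (.ev (nat_lit 10384752173404147109845958662292227) (nat_lit 2)) (.cons (.ev (nat_lit 10425159155256441420591425017479937) (nat_lit 2)) (.cons (.br (nat_lit 15) (nat_lit 0) (.cons (.rf (nat_lit 1537) (nat_lit 677582165103132179601393696)) (.cons (.br (nat_lit 15) (nat_lit 0) (.cons (.rf (nat_lit 1537) (nat_lit 677582165103132179601393696)) .nil)) .nil))) .nil)))) .nil))),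
 (.br (nat_lit 15) (nat_lit 0) (.cons (.kr (nat_lit 5192296858534827628530496329220096) (nat_lit 1329227995784915872903807060280344576) (nat_lit 14) (nat_lit 0)) (.cons (.ev (nat_lit 2668881150725078742639917935693398275) (nat_lit 2)) .nil))),
 (.br (nat_lit 14) (nat_lit 0) (.cons (.rf (nat_lit 1539) (nat_lit 677582165103132179601393696)) (.cons (.rf (nat_lit 1539) (nat_lit 640105464695078675185502240)) .nil))),
 (.br (nat_lit 14) (nat_lit 0) (.cons (.rf (nat_lit 1540) (nat_lit 677582165103132179601393696)) (.cons (.br (nat_lit 16) (nat_lit 0) (.cons (.br (nat_lit 15) (nat_lit 0) (.cons (.ev (nat_lit 2668840743743226448040942110366630145) (nat_lit 2)) .nil)) (.cons (.ev (nat_lit 2041704586121206002550749993622835691525) (nat_lit 3)) .nil))) .nil))),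
 (.br (nat_lit 14) (nat_lit 0) (.cons (.br (nat_lit 15) (nat_lit 0) (.cons (.ev (nat_lit 5337681171812956563532485744562406917) (nat_lit 3)) (.cons (.rf (nat_lit 1) (nat_lit 631047566347447361)) .nil))) .nil)),
 (.br (nat_lit 15) (nat_lit 0) (.cons (.ev (nat_lit 7985793610472871025615562080071712769) (nat_lit 3)) .nil)),
 (.br (nat_lit 12) (nat_lit 0) (.cons (.br (nat_lit 13) (nat_lit 0) (.cons (.ev (nat_lit 81446552278312359181387626054149) (nat_lit 3)) (.cons (.br (nat_lit 14) (nat_lit 0) (.cons (.rf (nat_lit 1542) (nat_lit 583706118939841765935136)) (.cons (.br (nat_lit 14) (nat_lit 0) (.cons (.rf (nat_lit 1542) (nat_lit 583706118939841765935136)) (.cons (.br (nat_lit 15) (nat_lit 0) (.cons (.rf (nat_lit 1543) (nat_lit 677582165103132179601393696)) (.cons (.rf (nat_lit 1543) (nat_lit 640105464695078675185502240)) .nil))) .nil))) .nil))) .nil))) .nil)),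
 (.br (nat_lit 15) (nat_lit 0) (.cons (.br (nat_lit 16) (nat_lit 0) (.cons (.ev (nat_lit 88820369969636654533301882500011778048772) (nat_lit 3)) .nil)) .nil)),
 (.br (nat_lit 13) (nat_lit 0) (.cons (.ev (nat_lit 20837324703038668351115972641537) (nat_lit 3)) (.cons (.br (nat_lit 14) (nat_lit 0) (.cons (.ev (nat_lit 5192534543031870639701962816225537) (nat_lit 2)) (.cons (.ev (nat_lit 5253145015810257053540128011649027) (nat_lit 2)) (.cons (.br (nat_lit 15) (nat_lit 0) (.cons (.rf (nat_lit 1545) (nat_lit 677582165103132179601393696)) (.cons (.br (nat_lit 15) (nat_lit 0) (.cons (.rf (nat_lit 1545) (nat_lit 677582165103132179601393696)) .nil)) .nil))) .nil)))) .nil))),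
 (.br (nat_lit 15) (nat_lit 0) (.cons (.ev (nat_lit 1361150236872427146925415687230513874437) (nat_lit 3)) (.cons (.ev (nat_lit 5337762300213431131217036050046256641) (nat_lit 3)) .nil))),
 (.br (nat_lit 14) (nat_lit 0) (.cons (.rf (nat_lit 1547) (nat_lit 677582165103132179601393696)) (.cons (.rf (nat_lit 1547) (nat_lit 640105464695078675185502240)) .nil))),
 (.br (nat_lit 14) (nat_lit 0) (.cons (.rf (nat_lit 1548) (nat_lit 677582165103132179601393696)) (.cons (.br (nat_lit 16) (nat_lit 0) (.cons (.br (nat_lit 15) (nat_lit 0) (.cons (.ev (nat_lit 5337681488725606546803990139033223681) (nat_lit 3)) .nil)) (.cons (.ev (nat_lit 1361150236872427146925415687230513874437) (nat_lit 3)) .nil))) .nil))),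
 (.br (nat_lit 14) (nat_lit 0) (.cons (.br (nat_lit 15) (nat_lit 0) (.cons (.ev (nat_lit 7985752570284716934137084783937061889) (nat_lit 3)) (.cons (.rf (nat_lit 1) (nat_lit 631047566346431553)) .nil))) .nil)),
 (.br (nat_lit 15) (nat_lit 0) (.cons (.ev (nat_lit 1344865813130610390268369600149259009) (nat_lit 2)) .nil)),
 (.br (nat_lit 12) (nat_lit 0) (.cons (.br (nat_lit 13) (nat_lit 0) (.cons (.ev (nat_lit 41674014762301255861804858869253) (nat_lit 4)) (.cons (.br (nat_lit 14) (nat_lit 0) (.cons (.rf (nat_lit 1550) (nat_lit 583706118939841765935136)) (.cons (.br (nat_lit 14) (nat_lit 0) (.cons (.rf (nat_lit 1550) (nat_lit 583706118939841765935136)) (.cons (.br (nat_lit 15) (nat_lit 0) (.cons (.rf (nat_lit 1551) (nat_lit 677582165103132179601393696)) (.cons (.rf (nat_lit 1551) (nat_lit 640105464695078675185502240)) .nil))) .nil))) .nil))) .nil))) .nil)),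
 (.br (nat_lit 15) (nat_lit 0) (.cons (.ev (nat_lit 10384752174608332116512929008844803) (nat_lit 2)) (.cons (.br (nat_lit 16) (nat_lit 0) (.cons (.ev (nat_lit 10425159156460663320185783263035907) (nat_lit 2)) (.cons (.ev (nat_lit 2044352657519058764567512440140766512129) (nat_lit 3)) .nil))) .nil))),
 (.br (nat_lit 13) (nat_lit 0) (.cons (.ev (nat_lit 20520403576222948543085951385858) (nat_lit 2)) (.cons (.br (nat_lit 15) (nat_lit 0) (.cons (.ev (nat_lit 10384752174608332116512929008844803) (nat_lit 2)) (.cons (.rf (nat_lit 1553) (nat_lit 19926519232773908561233952)) (.cons (.br (nat_lit 15) (nat_lit 0) (.cons (.ev (nat_lit 10384752174608332116512929008844803) (nat_lit 2)) (.cons (.rf (nat_lit 1553) (nat_lit 19926519232773908561233952)) .nil))) .nil)))) .nil))),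
 (.br (nat_lit 16) (nat_lit 0) (.cons (.br (nat_lit 14) (nat_lit 0) (.cons (.ev (nat_lit 2041704586121206002476961887012864263169) (nat_lit 3)) (.cons (.br (nat_lit 15) (nat_lit 0) (.cons (.ev (nat_lit 1334420372182307150437917426853150720) (nat_lit 1)) .nil)) .nil))) (.cons (.rf (nat_lit 1073) (nat_lit 18683467009732566387269827)) .nil))),
 (.br (nat_lit 7) (nat_lit 0) (.cons (.ev (nat_lit 1858152041457181429596554241) (nat_lit 3)) (.cons (.br (nat_lit 12) (nat_lit 0) (.cons (.rf (nat_lit 1552) (nat_lit 493858305440582043680)) (.cons (.br (nat_lit 12) (nat_lit 0) (.cons (.rf (nat_lit 1552) (nat_lit 493858305440582043680)) (.cons (.br (nat_lit 13) (nat_lit 0) (.cons (.rf (nat_lit 1554) (nat_lit 583706118939841765935136)) (.cons (.rf (nat_lit 1554) (nat_lit 547107778697602015528992)) (.cons (.br (nat_lit 13) (nat_lit 0) (.cons (.rf (nat_lit 1554) (nat_lit 583706118939841765935136)) (.cons (.rf (nat_lit 1554) (nat_lit 547107778697602015528992)) (.cons (.br (nat_lit 16) (nat_lit 0) (.cons (.rf (nat_lit 1555) (nat_lit 677582165103132179601393696))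 (.cons (.rf (nat_lit 1555) (nat_lit 677545566762889939850987552)) (.cons (.rf (nat_lit 1073) (nat_lit 18683467009732566387269827)) .nil)))) .nil)))) .nil)))) .nil))) .nil))) .nil))),
 (.br (nat_lit 14) (nat_lit 0) (.cons (.br (nat_lit 15) (nat_lit 0) (.cons (.ev (nat_lit 2689609774579173863859403342722760709) (nat_lit 3)) (.cons (.rf (nat_lit 58) (nat_lit 631047533229053991)) .nil))) .nil)),
 (.br (nat_lit 13) (nat_lit 0) (.cons (.ev (nat_lit 20282720297587311384744679244033) (nat_lit 1)) (.cons (.rf (nat_lit 58) (nat_lit 556664402237003816)) .nil))),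
 (.br (nat_lit 13) (nat_lit 0) (.cons (.br (nat_lit 14) (nat_lit 0) (.cons (.ev (nat_lit 20891357261950065421599856430023687) (nat_lit 3)) (.cons (.br (nat_lit 15) (nat_lit 0) (.cons (.ev (nat_lit 5337803340401632446215655082774888451) (nat_lit 3)) (.cons (.rf (nat_lit 11) (nat_lit 631047566347574337)) .nil))) .nil))) (.cons (.br (nat_lit 14) (nat_lit 0) (.cons (.rf (nat_lit 749) (nat_lit 19458304560535505829960)) (.cons (.rf (nat_lit 1293) (nat_lit 622703720319775346589931)) (.cons (.br (nat_lit 15) (nat_lit 0) (.cons (.br (nat_lit 15) (nat_lit 0) (.cons (.ev (nat_lit 2668881309182617400763552083879264257) (nat_lit 2)) .nil)) (.cons (.br (nat_lit 15) (nat_lit 0) (.cons (.ev (nat_lit 2668881309182617400763552083879264257) (nat_lit 2)) .nil)) .nil))) .nil)))) .nil))),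
 (.br (nat_lit 14) (nat_lit 0) (.cons (.ev (nat_lit 2668881309182617400763552083879264257) (nat_lit 2)) (.cons (.br (nat_lit 16) (nat_lit 0) (.cons (.ev (nat_lit 683223189833447981802369946631050231811) (nat_lit 2)) (.cons (.ev (nat_lit 680595887624886269044801004085698494469) (nat_lit 3)) .nil))) .nil))),
 (.br (nat_lit 13) (nat_lit 0) (.cons (.rf (nat_lit 1559) (nat_lit 583706118939841765935136)) (.cons (.br (nat_lit 14) (nat_lit 0) (.cons (.br (nat_lit 14) (nat_lit 0) (.cons (.ev (nat_lit 2668881309182617400763552083879264257) (nat_lit 2)) (.cons (.rf (nat_lit 15) (nat_lit 631047566347574337)) .nil))) (.cons (.rf (nat_lit 1560) (nat_lit 19926519232773908561233952)) (.cons (.br (nat_lit 14) (nat_lit 0) (.cons (.rf (nat_lit 15) (nat_lit 631047566347574337)) (.cons (.rf (nat_lit 1560) (nat_lit 19926519232773908561233952)) .nil))) .nil)))) .nil))),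
 (.br (nat_lit 15) (nat_lit 0) (.cons (.kr (nat_lit 341611594916723384058644897366005514241) (nat_lit 10384593717069655329400061673144576) (nat_lit 0) (nat_lit 5)) (.cons (.br (nat_lit 16) (nat_lit 0) (.cons (.ev (nat_lit 87112285952121885626438020361576572322048) (nat_lit 1)) .nil)) .nil))),
 (.br (nat_lit 14) (nat_lit 0) (.cons (.rf (nat_lit 1562) (nat_lit 677582165103132179601393696)) (.cons (.rf (nat_lit 1562) (nat_lit 640105464695078675185502240)) .nil))),
 (.br (nat_lit 14) (nat_lit 0) (.cons (.rf (nat_lit 1563) (nat_lit 677582165103132179601393696)) (.cons (.rf (nat_lit 597) (nat_lit 587359767613757795434536)) .nil))),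
 (.br (nat_lit 7) (nat_lit 0) (.cons (.ev (nat_lit 1858133152280606244186750981) (nat_lit 3)) (.cons (.ev (nat_lit 79228167236703160636010397696) (nat_lit 1)) (.cons (.br (nat_lit 8) (nat_lit 0) (.cons (.ev (nat_lit 1223129813117646953119747) (nat_lit 2)) (.cons (.ev (nat_lit 1213685223704137161507329) (nat_lit 2)) (.cons (.br (nat_lit 12) (nat_lit 0) (.cons (.br (nat_lit 13) (nat_lit 0) (.cons (.zr (nat_lit 121694461253409848433412105306631) (nat_lit 158456325139497371105092698112) (nat_lit 16) (nat_lit 1)) (.cons (.br (nat_lit 14) (nat_lit 0) (.cons (.rf (nat_lit 1557) (nat_lit 583706118939841765935136)) (.cons (.br (nat_lit 14) (nat_lit 0) (.cons (.rf (nat_lit 1557) (nat_lit 583706118939841765935136)) (.cons (.rf (nat_lit 601) (nat_lit 677579841596826035089119459)) .nil))) .nil))) .nil))) (.cons (.br (nat_lit 13) (nat_lit 0) (.cons (.ev (nat_lit 5192297168019855968959807306596353) (nat_lit 1)) (.cons (.br (nat_lit 13) (nat_lit 0) (.cons (.ev (nat_lit 5192297169233504155056210893078528) (nat_lit 1)) (.cons (.br (nat_lit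 14) (nat_lit 0) (.cons (.rf (nat_lit 1558) (nat_lit 19459491435985810589728)) (.cons (.rf (nat_lit 1558) (nat_lit 18315793303415818389536)) (.cons (.br (nat_lit 15) (nat_lit 0) (.cons (.br (nat_lit 15) (nat_lit 0) (.cons (.ev (nat_lit 2668881309182617400763552083879264257) (nat_lit 2)) .nil)) (.cons (.br (nat_lit 15) (nat_lit 0) (.cons (.ev (nat_lit 2668881309182617400763552083879264257) (nat_lit 2)) .nil)) .nil))) .nil)))) .nil))) .nil))) (.cons (.br (nat_lit 13) (nat_lit 0) (.cons (.rf (nat_lit 1559) (nat_lit 583706118939841765935136)) (.cons (.rf (nat_lit 1561) (nat_lit 583706118939841765935136)) (.cons (.br (nat_lit 13) (nat_lit 0) (.cons (.rf (nat_lit 1559) (nat_lit 583706118939841765935136)) (.cons (.rf (nat_lit 1561) (nat_lit 583706118939841765935136)) (.cons (.br (nat_lit 14) (nat_lit 0) (.cons (.rf (nat_lit 1563) (nat_lit 677582165103132179601393696)) (.cons (.rf (nat_lit 1564) (nat_lit 677582165103132179601393696)) (.cons (.rf (nat_lit 1564) (nat_lit 640105464695078675185502240)) .nil)))) .nil)))) .nil)))) .nil))))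 .nil)))) .nil)))),
 (.br (nat_lit 14) (nat_lit 0) (.cons (.br (nat_lit 15) (nat_lit 0) (.cons (.ev (nat_lit 2689609774579192753035978528132563969) (nat_lit 3)) (.cons (.rf (nat_lit 58) (nat_lit 631047566380832811)) .nil))) .nil)),
 (.br (nat_lit 15) (nat_lit 0) (.cons (.ev (nat_lit 1344865971586930659320617301157478914) (nat_lit 2)) .nil)),
 (.br (nat_lit 12) (nat_lit 0) (.cons (.ev (nat_lit 41040807157168191229976845025541) (nat_lit 3)) (.cons (.br (nat_lit 14) (nat_lit 0) (.cons (.ev (nat_lit 10425159156470108197829652026228737) (nat_lit 2)) (.cons (.ev (nat_lit 10384752174603609822369124066590978) (nat_lit 2)) (.cons (.br (nat_lit 15) (nat_lit 0) (.cons (.br (nat_lit 15) (nat_lit 0) (.cons (.ev (nat_lit 2668881308562438455517700474867351811) (nat_lit 2)) .nil)) (.cons (.br (nat_lit 15) (nat_lit 0) (.cons (.ev (nat_lit 2668881308562438455517700474867351811) (nat_lit 2)) .nil)) .nil))) .nil)))) .nil)))]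

theorem c58 : chkAll C T R L58 (nat_lit 1537) = true := by decide +kernel

theorem l58 : (nat_lit 1537) + L58.length = (nat_lit 1569) := by decide +kernel

/-- part of the certificates -/
def L59 : List Prf := [(.br (nat_lit 14) (nat_lit 0) (.cons (.br (nat_lit 16) (nat_lit 0) (.cons (.ev (nat_lit 88134477938901627202635290510289843716352) (nat_lit 3)) .nil)) .nil)),
 (.br (nat_lit 12) (nat_lit 0) (.cons (.ev (nat_lit 41040807157168191229976845025541) (nat_lit 3)) (.cons (.br (nat_lit 15) (nat_lit 0) (.cons (.ev (nat_lit 2658496557009218031576595106223031042) (nat_lit 2)) (.cons (.ev (nat_lit 2658456150027379867255353649615995393) (nat_lit 2)) (.cons (.br (nat_lit 14) (nat_lit 0) (.cons (.rf (nat_lit 1569) (nat_lit 677582165103132179601393696)) (.cons (.br (nat_lit 14) (nat_lit 0) (.cons (.rf (nat_lit 1569) (nat_lit 677582165103132179601393696)) .nil)) .nil))) .nil)))) .nil))),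
 (.br (nat_lit 15) (nat_lit 0) (.cons (.ev (nat_lit 683243959022739016967892665046604776194) (nat_lit 3)) (.cons (.ev (nat_lit 1334420372181098224690077817227968768) (nat_lit 1)) .nil))),
 (.br (nat_lit 14) (nat_lit 0) (.cons (.rf (nat_lit 1571) (nat_lit 677582165103132179601393696)) (.cons (.rf (nat_lit 1571) (nat_lit 640105464695078675185502240)) .nil))),
 (.br (nat_lit 14) (nat_lit 0) (.cons (.rf (nat_lit 1572) (nat_lit 677582165103132179601393696)) (.cons (.br (nat_lit 16) (nat_lit 0) (.cons (.br (nat_lit 15) (nat_lit 0) (.cons (.ev (nat_lit 2668881150106113463881948294811812609) (nat_lit 2)) .nil)) (.cons (.ev (nat_lit 680595887624886287933977579271108297729) (nat_lit 3)) .nil))) .nil))),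
 (.br (nat_lit 14) (nat_lit 0) (.cons (.kr (nat_lit 10384593717074377623544961815281665) (nat_lit 40564820416229160462527989022720) (nat_lit 0) (nat_lit 1)) (.cons (.rf (nat_lit 1292) (nat_lit 622703720289125443701093)) .nil))),
 (.br (nat_lit 16) (nat_lit 0) (.cons (.ev (nat_lit 680575159159489712581705152826854998017) (nat_lit 2)) .nil)),
 (.br (nat_lit 13) (nat_lit 0) (.cons (.rf (nat_lit 1574) (nat_lit 583706118939841765935136)) (.cons (.br (nat_lit 14) (nat_lit 0) (.cons (.rf (nat_lit 1292) (nat_lit 622667973911568950009194)) (.cons (.kr (nat_lit 10384593717074377623544961815281665) (nat_lit 40564820416229160462527989022720) (nat_lit 0) (nat_lit 1)) (.cons (.br (nat_lit 15) (nat_lit 0) (.cons (.rf (nat_lit 1575) (nat_lit 677582165103132179601393696)) (.cons (.rf (nat_lit 1575) (nat_lit 640104320991140506804165827)) .nil))) .nil)))) .nil))),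
 (.br (nat_lit 14) (nat_lit 0) (.cons (.ev (nat_lit 31194347209570030515166390602040837) (nat_lit 3)) (.cons (.br (nat_lit 15) (nat_lit 0) (.cons (.ev (nat_lit 683223189833447972357780533121258619393) (nat_lit 2)) (.cons (.ev (nat_lit 1334440575053059093088046041253544193) (nat_lit 1)) .nil))) .nil))),
 (.br (nat_lit 13) (nat_lit 0) (.cons (.rf (nat_lit 1576) (nat_lit 583706118939841765935136)) (.cons (.br (nat_lit 14) (nat_lit 0) (.cons (.br (nat_lit 14) (nat_lit 0) (.cons (.ev (nat_lit 31194347209570030515166390602040837) (nat_lit 3)) (.cons (.rf (nat_lit 15) (nat_lit 631047566346520833)) .nil))) (.cons (.rf (nat_lit 1577) (nat_lit 19926519232773908561233952)) (.cons (.br (nat_lit 14) (nat_lit 0) (.cons (.rf (nat_lit 15) (nat_lit 631047566346520833)) (.cons (.rf (nat_lit 1577) (nat_lit 19926519232773908561233952)) .nil))) .nil)))) .nil))),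
 (.br (nat_lit 14) (nat_lit 0) (.cons (.rf (nat_lit 1578) (nat_lit 582562415001673384598723)) (.cons (.ev (nat_lit 31194347209570030515166390602040837) (nat_lit 3)) .nil))),
 (.br (nat_lit 14) (nat_lit 0) (.cons (.ev (nat_lit 31194664122238903539706722651342341) (nat_lit 3)) (.cons (.br (nat_lit 15) (nat_lit 0) (.cons (.ev (nat_lit 2668881309182617400763552083879264257) (nat_lit 2)) (.cons (.rf (nat_lit 20) (nat_lit 631046501195390305)) .nil))) .nil))),
 (.br (nat_lit 15) (nat_lit 0) (.cons (.zr (nat_lit 6646140850442829502164058931256623108) (nat_lit 26062896650177498982746169356452352) (nat_lit 24) (nat_lit 11)) .nil)),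
 (.br (nat_lit 15) (nat_lit 0) (.cons (.br (nat_lit 16) (nat_lit 0) (.cons (.ev (nat_lit 88142463691786966408214225322422673934082) (nat_lit 3)) .nil)) .nil)),
 (.br (nat_lit 12) (nat_lit 0) (.cons (.ev (nat_lit 79538856468352042468976361473) (nat_lit 1)) (.cons (.rf (nat_lit 20) (nat_lit 556631415644693569)) .nil))),
 (.br (nat_lit 14) (nat_lit 0) (.cons (.br (nat_lit 16) (nat_lit 0) (.cons (.ev (nat_lit 340287579500207815609306686022366593025) (nat_lit 1)) .nil)) .nil)),
 (.br (nat_lit 14) (nat_lit 0) (.cons (.ev (nat_lit 680564734000334465603608666799886827523) (nat_lit 2)) (.cons (.br (nat_lit 16) (nat_lit 0) (.cons (.ev (nat_lit 2658537280284783494159046210079557127) (nat_lit 3)) (.cons (.ev (nat_lit 340287579500207810887011979276094275840) (nat_lit 1)) .nil))) .nil))),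
 (.br (nat_lit 16) (nat_lit 0) (.cons (.ev (nat_lit 340292751594505097689796741938991529986) (nat_lit 2)) (.cons (.ev (nat_lit 340287579500207815609306686022366593025) (nat_lit 1)) .nil))),
 (.br (nat_lit 14) (nat_lit 0) (.cons (.rf (nat_lit 1586) (nat_lit 677582165103132179601393696)) (.cons (.br (nat_lit 15) (nat_lit 0) (.cons (.br (nat_lit 16) (nat_lit 0) (.cons (.ev (nat_lit 1369125605323124596676194953267488359939) (nat_lit 3)) .nil)) (.cons (.ev (nat_lit 174227240744671219595101804448837911183361) (nat_lit 2)) .nil))) .nil))),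
 (.br (nat_lit 12) (nat_lit 0) (.cons (.br (nat_lit 13) (nat_lit 0) (.cons (.kr (nat_lit 10384593717074377623544961815281665) (nat_lit 40564820416229160462527989022720) (nat_lit 0) (nat_lit 1)) (.cons (.rf (nat_lit 1580) (nat_lit 583706118939841765935136)) (.cons (.br (nat_lit 14) (nat_lit 0) (.cons (.rf (nat_lit 1580) (nat_lit 582562415001673384598723)) (.cons (.ev (nat_lit 31194664122238903539706722651342341) (nat_lit 3)) (.cons (.br (nat_lit 15) (nat_lit 0) (.cons (.rf (nat_lit 1581) (nat_lit 677582165103132179601393696)) (.cons (.rf (nat_lit 1581) (nat_lit 640104320991140506804165827)) .nil))) .nil)))) .nil)))) (.cons (.br (nat_lit 15) (nat_lit 0) (.cons (.ev (nat_lit 1329227996094405623538380176166551808) (nat_lit 1)) (.cons (.ev (nat_lit 1329227996094400901244236371257720833) (nat_lit 1)) (.cons (.br (nat_lit 13) (nat_lit 0) (.cons (.br (nat_lit 14) (nat_lit 0) (.cons (.ev (nat_lit 2668881309182617400763552083879264257) (nat_lit 2)) (.cons (.rf (nat_lit 20) (nat_lit 631011351181992289)) .nil))) (.cons (.br (nat_lit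 14) (nat_lit 0) (.cons (.ev (nat_lit 688540102135357205447295868619379049473) (nat_lit 3)) (.cons (.br (nat_lit 14) (nat_lit 0) (.cons (.ev (nat_lit 688540102135357205447295868619379049473) (nat_lit 3)) .nil)) .nil))) (.cons (.br (nat_lit 14) (nat_lit 0) (.cons (.br (nat_lit 14) (nat_lit 0) (.cons (.ev (nat_lit 2668881309182626845640070069915484675) (nat_lit 2)) .nil)) (.cons (.br (nat_lit 14) (nat_lit 0) (.cons (.ev (nat_lit 2668881309182626845640070069915484675) (nat_lit 2)) .nil)) .nil))) .nil)))) .nil)))) (.cons (.br (nat_lit 13) (nat_lit 0) (.cons (.br (nat_lit 14) (nat_lit 0) (.cons (.br (nat_lit 15) (nat_lit 0) (.cons (.ev (nat_lit 7996137322458092839427279741851402759) (nat_lit 3)) (.cons (.rf (nat_lit 20) (nat_lit 631047533061450817)) .nil))) (.cons (.ev (nat_lit 5212658497514641749389540239409408) (nat_lit 1)) (.cons (.br (nat_lit 15) (nat_lit 0) (.cons (.rf (nat_lit 1582) (nat_lit 677582165103132179601393696)) (.cons (.br (nat_lit 15) (nat_lit 0) (.cons (.rf (nat_lit 1582) (nat_lit 677582165103132179601393696))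 .nil)) .nil))) .nil)))) (.cons (.br (nat_lit 15) (nat_lit 0) (.cons (.rf (nat_lit 1583) (nat_lit 19459491438255770011680)) (.cons (.ev (nat_lit 7975449263424437540609526123506958341) (nat_lit 3)) (.cons (.br (nat_lit 14) (nat_lit 0) (.cons (.rf (nat_lit 1584) (nat_lit 677582165103132179601393696)) (.cons (.br (nat_lit 14) (nat_lit 0) (.cons (.rf (nat_lit 1584) (nat_lit 677582165103132179601393696)) .nil)) .nil))) .nil)))) (.cons (.br (nat_lit 14) (nat_lit 0) (.cons (.rf (nat_lit 1585) (nat_lit 19926519232773908561233952)) (.cons (.ev (nat_lit 680564734000334465603608666799886827523) (nat_lit 2)) (.cons (.br (nat_lit 14) (nat_lit 0) (.cons (.rf (nat_lit 1585) (nat_lit 19926519232773908561233952)) (.cons (.ev (nat_lit 680564734000334465603608666799886827523) (nat_lit 2)) .nil))) .nil)))) (.cons (.br (nat_lit 14) (nat_lit 0) (.cons (.rf (nat_lit 1587) (nat_lit 677582165103132179601393696)) (.cons (.br (nat_lit 14) (nat_lit 0) (.cons (.rf (nat_lit 1586) (nat_lit 677582165103132179601393696)) (.cons (.ev (nat_lit 5212658496305716002115079590903808)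 (nat_lit 1)) .nil))) (.cons (.br (nat_lit 14) (nat_lit 0) (.cons (.rf (nat_lit 1587) (nat_lit 677582165103132179601393696)) (.cons (.ev (nat_lit 5212658496305716002115079590903808) (nat_lit 1)) .nil))) .nil)))) .nil))))) .nil)))),
 (.br (nat_lit 13) (nat_lit 0) (.cons (.ev (nat_lit 1223129813117646953119747) (nat_lit 2)) (.cons (.ev (nat_lit 2658456150027379867255353649615995393) (nat_lit 2)) (.cons (.ev (nat_lit 680564734000334475048196954392591729153) (nat_lit 2)) (.cons (.br (nat_lit 14) (nat_lit 0) (.cons (.ev (nat_lit 1213685223704137161507329) (nat_lit 2)) (.cons (.ev (nat_lit 2658456150027370422667066056911093763) (nat_lit 2)) (.cons (.ev (nat_lit 680564734000334465603608666799886827523) (nat_lit 2)) (.cons (.kr (nat_lit 10384593717074377623544961815281665) (nat_lit 40564820416229160462527989022720) (nat_lit 0) (nat_lit 1)) .nil))))) .nil))))),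
 (.br (nat_lit 13) (nat_lit 0) (.cons (.ev (nat_lit 1223129813117646953119747) (nat_lit 2)) (.cons (.rf (nat_lit 1589) (nat_lit 19926519232773908561233952)) (.cons (.ev (nat_lit 2658456150027379867255353649615995393) (nat_lit 2)) (.cons (.ev (nat_lit 680564734000334475048196954392591729153) (nat_lit 2)) (.cons (.br (nat_lit 13) (nat_lit 0) (.cons (.ev (nat_lit 1223129813117646953119747) (nat_lit 2)) (.cons (.rf (nat_lit 1589) (nat_lit 19926519232773908561233952)) (.cons (.ev (nat_lit 2658456150027379867255353649615995393) (nat_lit 2)) (.cons (.ev (nat_lit 680564734000334475048196954392591729153) (nat_lit 2)) .nil))))) .nil)))))),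
 (.br (nat_lit 13) (nat_lit 0) (.cons (.br (nat_lit 14) (nat_lit 0) (.cons (.kr (nat_lit 10384593717074377623544961815281665) (nat_lit 40564820416229160462527989022720) (nat_lit 0) (nat_lit 1)) (.cons (.rf (nat_lit 1316) (nat_lit 20003257791663572279897315)) .nil))) (.cons (.br (nat_lit 14) (nat_lit 0) (.cons (.rf (nat_lit 1316) (nat_lit 20003294643499097698446400)) (.cons (.kr (nat_lit 10384593717074377623544961815281665) (nat_lit 40564820416229160462527989022720) (nat_lit 0) (nat_lit 1)) .nil))) .nil))),
 (.br (nat_lit 13) (nat_lit 0) (.cons (.rf (nat_lit 1591) (nat_lit 677582165103132179601393696)) (.cons (.br (nat_lit 16) (nat_lit 0) (.cons (.ev (nat_lit 342940863556555669767817373014349119490) (nat_lit 2)) (.cons (.ev (nat_lit 341611594996262235786183994362292142080) (nat_lit 1)) .nil))) .nil))),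
 (.br (nat_lit 12) (nat_lit 0) (.cons (.rf (nat_lit 1588) (nat_lit 583706118939841765935136)) (.cons (.rf (nat_lit 1588) (nat_lit 582562415001673384598723)) (.cons (.br (nat_lit 15) (nat_lit 0) (.cons (.ev (nat_lit 1329227996095609826991510831906226433) (nat_lit 1)) (.cons (.ev (nat_lit 1329227996095614549430332774844203008) (nat_lit 1)) (.cons (.rf (nat_lit 1590) (nat_lit 19926519232773908561233952)) (.cons (.br (nat_lit 13) (nat_lit 0) (.cons (.rf (nat_lit 1591) (nat_lit 677582165103132179601393696)) (.cons (.rf (nat_lit 1592) (nat_lit 677582165103132179601393696)) (.cons (.br (nat_lit 13) (nat_lit 0) (.cons (.rf (nat_lit 1591) (nat_lit 677582165103132179601393696)) (.cons (.rf (nat_lit 1592) (nat_lit 677582165103132179601393696)) .nil))) .nil)))) .nil))))) .nil)))),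
 (.br (nat_lit 14) (nat_lit 0) (.cons (.ev (nat_lit 5327418271315587668479649936979657221) (nat_lit 3)) (.cons (.br (nat_lit 15) (nat_lit 0) (.cons (.ev (nat_lit 685892071143248374464344810656341426693) (nat_lit 3)) .nil)) .nil))),
 (.br (nat_lit 16) (nat_lit 0) (.cons (.br (nat_lit 13) (nat_lit 0) (.cons (.kr (nat_lit 10384593717074377623544961815281665) (nat_lit 40564820416229160462527989022720) (nat_lit 0) (nat_lit 1)) (.cons (.rf (nat_lit 1594) (nat_lit 677582165103132179601393696)) (.cons (.br (nat_lit 14) (nat_lit 0) (.cons (.rf (nat_lit 1594) (nat_lit 677581021399194011220057283)) (.cons (.ev (nat_lit 349810304389388862660362883110642794234369) (nat_lit 3)) .nil))) .nil)))) (.cons (.br (nat_lit 15) (nat_lit 0) (.cons (.rf (nat_lit 87) (nat_lit 631010252811507746)) (.cons (.ev (nat_lit 688540101818444574205629238654815044609) (nat_lit 3)) (.cons (.br (nat_lit 13) (nat_lit 0) (.cons (.ev (nat_lit 1369104916947178272504929128830996579329) (nat_lit 3)) (.cons (.ev (nat_lit 7975449580337087523878778683804353537) (nat_lit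 3)) .nil))) .nil)))) (.cons (.ev (nat_lit 680564734000334475048196954392591729153) (nat_lit 2)) .nil)))),
 (.br (nat_lit 11) (nat_lit 0) (.cons (.ev (nat_lit 1223092919064341967405569) (nat_lit 2)) (.cons (.ev (nat_lit 1213648330776749262503939) (nat_lit 2)) (.cons (.br (nat_lit 2) (nat_lit 0) (.cons (.ev (nat_lit 9463324109778915951363) (nat_lit 2)) (.cons (.br (nat_lit 7) (nat_lit 0) (.cons (.ev (nat_lit 1858152041457181429596554241) (nat_lit 3)) (.cons (.br (nat_lit 12) (nat_lit 0) (.cons (.rf (nat_lit 1536) (nat_lit 493858305440582043680)) (.cons (.br (nat_lit 12) (nat_lit 0) (.cons (.rf (nat_lit 1536) (nat_lit 493858305440582043680)) (.cons (.br (nat_lit 13) (nat_lit 0) (.cons (.rf (nat_lit 1538) (nat_lit 583706118939841765935136)) (.cons (.rf (nat_lit 1538) (nat_lit 547107778697602015528992)) (.cons (.br (nat_lit 13) (nat_lit 0) (.cons (.rf (nat_lit 1538) (nat_lit 583706118939841765935136)) (.cons (.rf (nat_lit 1538) (nat_lit 547107778697602015528992)) (.cons (.br (nat_lit 14) (nat_lit 0) (.cons (.rf (nat_lit 1540)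 (nat_lit 677582165103132179601393696)) (.cons (.rf (nat_lit 1541) (nat_lit 677582165103132179601393696)) (.cons (.rf (nat_lit 1541) (nat_lit 640105464695078675185502240)) .nil)))) .nil)))) .nil)))) .nil))) .nil))) .nil))) .nil))) (.cons (.br (nat_lit 2) (nat_lit 0) (.cons (.br (nat_lit 8) (nat_lit 0) (.cons (.ev (nat_lit 1239153761403135518124148229) (nat_lit 3)) (.cons (.br (nat_lit 12) (nat_lit 0) (.cons (.rf (nat_lit 1544) (nat_lit 493858305440582043680)) (.cons (.br (nat_lit 12) (nat_lit 0) (.cons (.rf (nat_lit 1544) (nat_lit 493858305440582043680)) (.cons (.br (nat_lit 13) (nat_lit 0) (.cons (.rf (nat_lit 1546) (nat_lit 583706118939841765935136)) (.cons (.rf (nat_lit 1546) (nat_lit 547107778697602015528992)) (.cons (.br (nat_lit 13) (nat_lit 0) (.cons (.rf (nat_lit 1546) (nat_lit 583706118939841765935136)) (.cons (.rf (nat_lit 1546) (nat_lit 547107778697602015528992)) (.cons (.br (nat_lit 14) (nat_lit 0) (.cons (.rf (nat_lit 1548) (nat_lit 677582165103132179601393696)) (.cons (.rf (nat_lit 1549) (nat_lit 677582165103132179601393696))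 (.cons (.rf (nat_lit 1549) (nat_lit 640105464695078675185502240)) .nil)))) .nil)))) .nil)))) .nil))) .nil))) .nil))) (.cons (.rf (nat_lit 1556) (nat_lit 14242959524133701664)) (.cons (.rf (nat_lit 1565) (nat_lit 14242959524133701664)) (.cons (.br (nat_lit 7) (nat_lit 0) (.cons (.rf (nat_lit 1556) (nat_lit 14237153925744565443)) (.cons (.rf (nat_lit 1565) (nat_lit 14237153925744565443)) (.cons (.br (nat_lit 8) (nat_lit 0) (.cons (.ev (nat_lit 618974778975002426897269507) (nat_lit 2)) (.cons (.ev (nat_lit 40564819212062817273181592683265) (nat_lit 2)) (.cons (.br (nat_lit 13) (nat_lit 0) (.cons (.br (nat_lit 12) (nat_lit 0) (.cons (.ev (nat_lit 203935767471593766483515423065613) (nat_lit 4)) (.cons (.br (nat_lit 14) (nat_lit 0) (.cons (.rf (nat_lit 1566) (nat_lit 583706118939841765935136)) (.cons (.br (nat_lit 14) (nat_lit 0) (.cons (.rf (nat_lit 1566) (nat_lit 583706118939841765935136)) (.cons (.br (nat_lit 15) (nat_lit 0) (.cons (.rf (nat_lit 1567) (nat_lit 677582165103132179601393696)) (.cons (.rf (nat_lit 1567) (nat_lit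 640105464695078675185502240)) .nil))) .nil))) .nil))) .nil))) (.cons (.ev (nat_lit 20282409603670117449500249358336) (nat_lit 1)) (.cons (.br (nat_lit 12) (nat_lit 0) (.cons (.rf (nat_lit 1568) (nat_lit 583706118939841765935136)) (.cons (.rf (nat_lit 1570) (nat_lit 583706118939841765935136)) (.cons (.br (nat_lit 12) (nat_lit 0) (.cons (.rf (nat_lit 1568) (nat_lit 583706118939841765935136)) (.cons (.rf (nat_lit 1570) (nat_lit 583706118939841765935136)) (.cons (.br (nat_lit 14) (nat_lit 0) (.cons (.rf (nat_lit 1572) (nat_lit 677582165103132179601393696)) (.cons (.rf (nat_lit 1573) (nat_lit 677582165103132179601393696)) (.cons (.rf (nat_lit 1573) (nat_lit 640105464695078675185502240)) .nil)))) .nil)))) .nil)))) .nil)))) .nil)))) (.cons (.br (nat_lit 8) (nat_lit 0) (.cons (.br (nat_lit 12) (nat_lit 0) (.cons (.ev (nat_lit 79537652246452447006890721281) (nat_lit 1)) (.cons (.ev (nat_lit 79537647524157740260618404096) (nat_lit 1)) (.cons (.br (nat_lit 13) (nat_lit 0) (.cons (.rf (nat_lit 1576) (nat_lit 583706118939841765935136))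 (.cons (.rf (nat_lit 1578) (nat_lit 583706118939841765935136)) (.cons (.br (nat_lit 13) (nat_lit 0) (.cons (.rf (nat_lit 1576) (nat_lit 583706118939841765935136)) (.cons (.rf (nat_lit 1578) (nat_lit 583706118939841765935136)) (.cons (.br (nat_lit 14) (nat_lit 0) (.cons (.rf (nat_lit 1578) (nat_lit 582562415001673384598723)) (.cons (.rf (nat_lit 1579) (nat_lit 677582165103132179601393696)) (.cons (.rf (nat_lit 1579) (nat_lit 640105464695078675185502240)) .nil)))) .nil)))) .nil)))) .nil)))) (.cons (.ev (nat_lit 1223129813117646953119747) (nat_lit 2)) (.cons (.ev (nat_lit 1213685223704137161507329) (nat_lit 2)) (.cons (.br (nat_lit 12) (nat_lit 0) (.cons (.rf (nat_lit 1588) (nat_lit 583706118939841765935136)) (.cons (.rf (nat_lit 1588) (nat_lit 582562415001673384598723)) (.cons (.rf (nat_lit 1593) (nat_lit 583706118939841765935136)) (.cons (.br (nat_lit 12) (nat_lit 0) (.cons (.rf (nat_lit 1588) (nat_lit 583706118939841765935136)) (.cons (.rf (nat_lit 1588) (nat_lit 582562415001673384598723)) (.cons (.rf (nat_lit 1593) (nat_lit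 583706118939841765935136)) (.cons (.br (nat_lit 16) (nat_lit 0) (.cons (.rf (nat_lit 1595) (nat_lit 677582165103132179601393696)) (.cons (.rf (nat_lit 1595) (nat_lit 677581021399194011220057283)) (.cons (.br (nat_lit 16) (nat_lit 0) (.cons (.rf (nat_lit 1595) (nat_lit 677582165103132179601393696)) (.cons (.rf (nat_lit 1595) (nat_lit 677581021399194011220057283)) (.cons (.rf (nat_lit 1590) (nat_lit 21173223984251494897649696)) .nil)))) (.cons (.rf (nat_lit 1590) (nat_lit 21173223984251494897649696)) .nil))))) .nil))))) .nil))))) .nil))))) .nil))))) .nil))))) .nil)))))]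

theorem c59 : chkAll C T R L59 (nat_lit 1569) = true := by decide +kernel

theorem l59 : (nat_lit 1569) + L59.length = (nat_lit 1597) := by decide +kernel

/-- part of the certificates -/
def L60 : List Prf := [(.br (nat_lit 14) (nat_lit 0) (.cons (.br (nat_lit 15) (nat_lit 0) (.cons (.ev (nat_lit 5337681171812956563532485744562406917) (nat_lit 3)) (.cons (.rf (nat_lit 1) (nat_lit 631047566384111681)) .nil))) .nil)),
 (.br (nat_lit 15) (nat_lit 0) (.cons (.ev (nat_lit 2689731627493111394138801239163666437) (nat_lit 3)) .nil)),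
 (.br (nat_lit 12) (nat_lit 0) (.cons (.br (nat_lit 13) (nat_lit 0) (.cons (.ev (nat_lit 81446552278312359181387626054149) (nat_lit 3)) (.cons (.br (nat_lit 14) (nat_lit 0) (.cons (.rf (nat_lit 1597) (nat_lit 583706118939841765935136)) (.cons (.br (nat_lit 14) (nat_lit 0) (.cons (.rf (nat_lit 1597) (nat_lit 583706118939841765935136)) (.cons (.br (nat_lit 15) (nat_lit 0) (.cons (.rf (nat_lit 1598) (nat_lit 677582165103132179601393696)) (.cons (.rf (nat_lit 1598) (nat_lit 640105464695078675185502240)) .nil))) .nil))) .nil))) .nil))) .nil)),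
 (.br (nat_lit 15) (nat_lit 0) (.cons (.br (nat_lit 16) (nat_lit 0) (.cons (.ev (nat_lit 88820369969636654533301882500011778048772) (nat_lit 3)) .nil)) .nil)),
 (.br (nat_lit 13) (nat_lit 0) (.cons (.kr (nat_lit 79537647524085964137245442304) (nat_lit 20282409603670189225614998831104) (nat_lit 1) (nat_lit 0)) (.cons (.br (nat_lit 14) (nat_lit 0) (.cons (.kr (nat_lit 10384593718283303443159595301732353) (nat_lit 159075295048171928274490884608) (nat_lit 0) (nat_lit 2)) (.cons (.kr (nat_lit 10384593718283303443159595301732353) (nat_lit 40564819207340378451229997662208) (nat_lit 0) (nat_lit 1)) (.cons (.br (nat_lit 15) (nat_lit 0) (.cons (.rf (nat_lit 1600) (nat_lit 677582165103132179601393696)) (.cons (.br (nat_lit 15) (nat_lit 0) (.cons (.rf (nat_lit 1600) (nat_lit 677582165103132179601393696)) .nil)) .nil))) .nil)))) .nil))),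
 (.br (nat_lit 15) (nat_lit 0) (.cons (.ev (nat_lit 1361150236872427146925415687230513874437) (nat_lit 3)) (.cons (.ev (nat_lit 5337762301451371096428335553795457541) (nat_lit 3)) .nil))),
 (.br (nat_lit 14) (nat_lit 0) (.cons (.rf (nat_lit 1602) (nat_lit 677582165103132179601393696)) (.cons (.rf (nat_lit 1602) (nat_lit 640105464695078675185502240)) .nil))),
 (.br (nat_lit 14) (nat_lit 0) (.cons (.rf (nat_lit 1603) (nat_lit 677582165103132179601393696)) (.cons (.br (nat_lit 16) (nat_lit 0) (.cons (.br (nat_lit 15) (nat_lit 0) (.cons (.ev (nat_lit 5337681487487666581592690635149805061) (nat_lit 3)) .nil)) (.cons (.ev (nat_lit 1361150236872427146925415687230513874437) (nat_lit 3)) .nil))) .nil))),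
 (.br (nat_lit 15) (nat_lit 0) (.cons (.zr (nat_lit 1329228233778897870251412132527603968) (nat_lit 5212579268138534855359446823141376) (nat_lit 8) (nat_lit 6)) .nil)),
 (.br (nat_lit 13) (nat_lit 0) (.cons (.ev (nat_lit 20282720302328196949661815144448) (nat_lit 1)) (.cons (.br (nat_lit 14) (nat_lit 0) (.cons (.rf (nat_lit 1099) (nat_lit 570025504436258871523)) (.cons (.br (nat_lit 14) (nat_lit 0) (.cons (.rf (nat_lit 1099) (nat_lit 570025504436258871523)) (.cons (.br (nat_lit 15) (nat_lit 0) (.cons (.rf (nat_lit 1605) (nat_lit 677582165103132179601393696)) (.cons (.rf (nat_lit 1605) (nat_lit 640105464695078675185502240)) .nil))) .nil))) .nil))) .nil))),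
 (.br (nat_lit 15) (nat_lit 0) (.cons (.br (nat_lit 16) (nat_lit 0) (.cons (.ev (nat_lit 4102028870944467371912060903750162450441) (nat_lit 4)) .nil)) .nil)),
 (.br (nat_lit 13) (nat_lit 0) (.cons (.ev (nat_lit 40723895716036591799977692496387) (nat_lit 2)) (.cons (.br (nat_lit 14) (nat_lit 0) (.cons (.ev (nat_lit 10384752793587833385659152191193091) (nat_lit 2)) (.cons (.ev (nat_lit 5253144087359949811593323158373122) (nat_lit 2)) (.cons (.br (nat_lit 15) (nat_lit 0) (.cons (.rf (nat_lit 1607) (nat_lit 677582165103132179601393696)) (.cons (.rf (nat_lit 1607) (nat_lit 640104320881966665428900067)) .nil))) .nil)))) .nil))),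
 (.br (nat_lit 13) (nat_lit 0) (.cons (.rf (nat_lit 1131) (nat_lit 19926483486502857560326470)) .nil)),
 (.br (nat_lit 13) (nat_lit 0) (.cons (.ev (nat_lit 40723895716036591799977692496387) (nat_lit 2)) (.cons (.br (nat_lit 15) (nat_lit 0) (.cons (.kr (nat_lit 1329227995784920595270291029437186048) (nat_lit 79537647542532426735978283008) (nat_lit 5) (nat_lit 0)) (.cons (.ev (nat_lit 2658496556390262142067528564610302467) (nat_lit 2)) (.cons (.br (nat_lit 14) (nat_lit 0) (.cons (.rf (nat_lit 1609) (nat_lit 21174442659472880612542496)) (.cons (.br (nat_lit 14) (nat_lit 0) (.cons (.rf (nat_lit 1609) (nat_lit 21174442659472880612542496)) .nil)) .nil))) .nil)))) .nil))),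
 (.br (nat_lit 14) (nat_lit 0) (.cons (.rf (nat_lit 1610) (nat_lit 582562305827832009332963)) (.cons (.ev (nat_lit 31194346590618937088348039076380677) (nat_lit 3)) .nil))),
 (.br (nat_lit 14) (nat_lit 0) (.cons (.br (nat_lit 15) (nat_lit 0) (.cons (.ev (nat_lit 5337681171194005470105667393036746757) (nat_lit 3)) (.cons (.rf (nat_lit 1) (nat_lit 631047566379026689)) .nil))) .nil)),
 (.br (nat_lit 15) (nat_lit 0) (.cons (.ev (nat_lit 2689731626874160301288443639941431813) (nat_lit 3)) .nil)),
 (.br (nat_lit 12) (nat_lit 0) (.cons (.br (nat_lit 13) (nat_lit 0) (.cons (.ev (nat_lit 81448409207297500871786084959237) (nat_lit 3)) (.cons (.br (nat_lit 14) (nat_lit 0) (.cons (.rf (nat_lit 1612) (nat_lit 583706118939841765935136)) (.cons (.br (nat_lit 14) (nat_lit 0) (.cons (.rf (nat_lit 1612) (nat_lit 583706118939841765935136)) (.cons (.br (nat_lit 15) (nat_lit 0) (.cons (.rf (nat_lit 1613) (nat_lit 677582165103132179601393696)) (.cons (.rf (nat_lit 1613) (nat_lit 640105464695078675185502240)) .nil))) .nil))) .nil))) .nil))) .nil)),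
 (.br (nat_lit 15) (nat_lit 0) (.cons (.kr (nat_lit 10384593718283303443159595301732353) (nat_lit 159075295048171928274490884608) (nat_lit 0) (nat_lit 2)) (.cons (.br (nat_lit 16) (nat_lit 0) (.cons (.kr (nat_lit 10384593718283303443159595301732353) (nat_lit 40564819207340378451229997662208) (nat_lit 0) (nat_lit 1)) (.cons (.ev (nat_lit 1366446379667513720013089975134792712197) (nat_lit 3)) .nil))) .nil))),
 (.br (nat_lit 13) (nat_lit 0) (.cons (.kr (nat_lit 79537647524085964137245442304) (nat_lit 20282409603670189225614998831104) (nat_lit 1) (nat_lit 0)) (.cons (.br (nat_lit 15) (nat_lit 0) (.cons (.kr (nat_lit 10384593718283303443159595301732353) (nat_lit 159075295048171928274490884608) (nat_lit 0) (nat_lit 2)) (.cons (.rf (nat_lit 1615) (nat_lit 19926519232773908561233952)) (.cons (.br (nat_lit 15) (nat_lit 0) (.cons (.kr (nat_lit 10384593718283303443159595301732353) (nat_lit 159075295048171928274490884608) (nat_lit 0) (nat_lit 2)) (.cons (.rf (nat_lit 1615) (nat_lit 19926519232773908561233952)) .nil))) .nil)))) .nil))),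
 (.br (nat_lit 15) (nat_lit 0) (.cons (.ev (nat_lit 1361150236871808195831988868878988214277) (nat_lit 3)) (.cons (.ev (nat_lit 5337762302070360116360969452158713861) (nat_lit 3)) .nil))),
 (.br (nat_lit 14) (nat_lit 0) (.cons (.rf (nat_lit 1617) (nat_lit 677582165103132179601393696)) (.cons (.rf (nat_lit 1617) (nat_lit 640105464695078675185502240)) .nil))),
 (.br (nat_lit 14) (nat_lit 0) (.cons (.rf (nat_lit 1618) (nat_lit 677582165103132179601393696)) (.cons (.br (nat_lit 16) (nat_lit 0) (.cons (.br (nat_lit 15) (nat_lit 0) (.cons (.ev (nat_lit 5337681488106655453374911191533749253) (nat_lit 3)) .nil)) (.cons (.ev (nat_lit 1361150236871808195831988868878988214277) (nat_lit 3)) .nil))) .nil))),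
 (.br (nat_lit 14) (nat_lit 0) (.cons (.br (nat_lit 15) (nat_lit 0) (.cons (.ev (nat_lit 10675362341767836754152552179436228105) (nat_lit 4)) (.cons (.rf (nat_lit 43) (nat_lit 631047566513151010)) .nil))) .nil)),
 (.br (nat_lit 15) (nat_lit 0) (.cons (.ev (nat_lit 5379463253128146416518104673245594121) (nat_lit 4)) .nil)),
 (.br (nat_lit 14) (nat_lit 0) (.cons (.br (nat_lit 15) (nat_lit 0) (.cons (.ev (nat_lit 2668840585288115049395451862481633283) (nat_lit 2)) (.cons (.rf (nat_lit 58) (nat_lit 631047533131537446)) .nil))) .nil)),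
 (.br (nat_lit 15) (nat_lit 0) (.cons (.zr (nat_lit 15637737806833289608431675285504258) (nat_lit 3987684067511365217780028400778346496) (nat_lit 8) (nat_lit 1)) .nil)),
 (.br (nat_lit 15) (nat_lit 0) (.cons (.ev (nat_lit 2658496557009232161854331682555953667) (nat_lit 2)) (.cons (.rf (nat_lit 58) (nat_lit 631046434688408619)) .nil))),
 (.br (nat_lit 15) (nat_lit 0) (.cons (.br (nat_lit 16) (nat_lit 0) (.cons (.ev (nat_lit 1369136111610680337221833587813774002185) (nat_lit 4)) .nil)) .nil)),
 (.br (nat_lit 13) (nat_lit 0) (.cons (.br (nat_lit 14) (nat_lit 0) (.cons (.kr (nat_lit 1329228075322563396989771197525786880) (nat_lit 5212579268138497817756111328051200) (nat_lit 1) (nat_lit 0)) (.cons (.rf (nat_lit 444) (nat_lit 622667979864324064773184)) .nil))) (.cons (.br (nat_lit 14) (nat_lit 0) (.cons (.rf (nat_lit 749) (nat_lit 19458304594653652189259)) (.cons (.br (nat_lit 16) (nat_lit 0) (.cons (.ev (nat_lit 4083419841103061142060331263016468875273) (nat_lit 4)) (.cons (.rf (nat_lit 70) (nat_lit 629954687390522406)) .nil)))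 (.cons (.br (nat_lit 15) (nat_lit 0) (.cons (.rf (nat_lit 1625) (nat_lit 677582165103132179601393696)) (.cons (.br (nat_lit 15) (nat_lit 0) (.cons (.rf (nat_lit 1625) (nat_lit 677582165103132179601393696)) .nil)) .nil))) .nil)))) .nil))),
 (.br (nat_lit 16) (nat_lit 0) (.cons (.ev (nat_lit 340282366921249157399015848604661252096) (nat_lit 1)) (.cons (.kr (nat_lit 40564820416266053950675408125953) (nat_lit 158456329750895722106198163968) (nat_lit 0) (nat_lit 2)) (.cons (.ev (nat_lit 680564774407316327342795932425531687427) (nat_lit 2)) (.cons (.ev (nat_lit 680575118435595210230337052605457367043) (nat_lit 2)) .nil))))),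
 (.br (nat_lit 13) (nat_lit 0) (.cons (.rf (nat_lit 1626) (nat_lit 583706118939841765935136)) (.cons (.br (nat_lit 14) (nat_lit 0) (.cons (.kr (nat_lit 2658455991571045393993712723203981313) (nat_lit 159075295048171928274490884608) (nat_lit 0) (nat_lit 2)) (.cons (.br (nat_lit 14) (nat_lit 0) (.cons (.kr (nat_lit 2658455991571045393993712723203981313) (nat_lit 159075295048171928274490884608) (nat_lit 0) (nat_lit 2)) (.cons (.rf (nat_lit 1627) (nat_lit 677582165103132179601393696)) .nil))) (.cons (.br (nat_lit 14) (nat_lit 0) (.cons (.kr (nat_lit 2658455991571045393993712723203981313) (nat_lit 159075295048171928274490884608) (nat_lit 0) (nat_lit 2)) (.cons (.rf (nat_lit 1627) (nat_lit 677582165103132179601393696)) .nil))) .nil)))) .nil))),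
 (.br (nat_lit 16) (nat_lit 0) (.cons (.ev (nat_lit 340282366921247948491715036742745587713) (nat_lit 1)) (.cons (.kr (nat_lit 159076503973990979958023913473) (nat_lit 10384593717074377767660149891268608) (nat_lit 0) (nat_lit 1)) (.cons (.ev (nat_lit 680575118435595210230337052605457367043) (nat_lit 2)) (.cons (.ev (nat_lit 680564774407316327342795932425531687427) (nat_lit 2)) .nil))))),
 (.br (nat_lit 14) (nat_lit 0) (.cons (.rf (nat_lit 1629) (nat_lit 677582165103132179601393696)) (.cons (.rf (nat_lit 597) (nat_lit 587359767647875941793835)) .nil))),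
 (.br (nat_lit 11) (nat_lit 0) (.cons (.ev (nat_lit 79538861172343838854654984448) (nat_lit 1)) (.cons (.br (nat_lit 12) (nat_lit 0) (.cons (.ev (nat_lit 634445493338079197714601610761) (nat_lit 4)) (.cons (.br (nat_lit 13) (nat_lit 0) (.cons (.ev (nat_lit 162896198240408947464565160019465) (nat_lit 4)) (.cons (.br (nat_lit 14) (nat_lit 0) (.cons (.rf (nat_lit 1620) (nat_lit 583706118939841765935136)) (.cons (.br (nat_lit 14) (nat_lit 0) (.cons (.rf (nat_lit 1620) (nat_lit 583706118939841765935136)) (.cons (.br (nat_lit 15) (nat_lit 0) (.cons (.rf (nat_lit 1621) (nat_lit 677582165103132179601393696)) (.cons (.rf (nat_lit 1621) (nat_lit 640105464695078675185502240)) .nil))) .nil))) .nil))) .nil))) .nil))) (.cons (.br (nat_lit 12) (nat_lit 0) (.cons (.br (nat_lit 13) (nat_lit 0) (.cons (.ev (nat_lit 40723895716036591799977692496387) (nat_lit 2)) (.cons (.br (nat_lit 14) (nat_lit 0) (.cons (.rf (nat_lit 1622) (nat_lit 583706118939841765935136)) (.cons (.br (nat_lit 14) (nat_lit 0) (.cons (.rf (nat_lit 1622) (nat_lit 583706118939841765935136))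 (.cons (.br (nat_lit 15) (nat_lit 0) (.cons (.rf (nat_lit 1623) (nat_lit 677582165103132179601393696)) (.cons (.rf (nat_lit 1623) (nat_lit 640105464695078675185502240)) .nil))) .nil))) .nil))) .nil))) (.cons (.br (nat_lit 13) (nat_lit 0) (.cons (.ev (nat_lit 10384752174617813598851619086270467) (nat_lit 2)) (.cons (.br (nat_lit 13) (nat_lit 0) (.cons (.ev (nat_lit 10384752174617813598851619086270467) (nat_lit 2)) (.cons (.br (nat_lit 14) (nat_lit 0) (.cons (.rf (nat_lit 1624) (nat_lit 19926519232773908561233952)) (.cons (.rf (nat_lit 1624) (nat_lit 18755372345022236548237344)) (.cons (.br (nat_lit 15) (nat_lit 0) (.cons (.br (nat_lit 15) (nat_lit 0) (.cons (.ev (nat_lit 13323555910066146859950386327822534665) (nat_lit 4)) .nil)) (.cons (.br (nat_lit 15) (nat_lit 0) (.cons (.ev (nat_lit 13323555910066146859950386327822534665) (nat_lit 4)) .nil)) .nil))) .nil)))) .nil))) .nil))) (.cons (.br (nat_lit 13) (nat_lit 0) (.cons (.rf (nat_lit 1626) (nat_lit 583706118939841765935136)) (.cons (.rf (nat_lit 1628) (nat_lit 583706118939841765935136))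 (.cons (.br (nat_lit 13) (nat_lit 0) (.cons (.rf (nat_lit 1626) (nat_lit 583706118939841765935136)) (.cons (.rf (nat_lit 1628) (nat_lit 583706118939841765935136)) (.cons (.br (nat_lit 14) (nat_lit 0) (.cons (.br (nat_lit 14) (nat_lit 0) (.cons (.rf (nat_lit 1629) (nat_lit 677582165103132179601393696)) (.cons (.rf (nat_lit 1629) (nat_lit 640105464695078675185502240)) .nil))) (.cons (.rf (nat_lit 1630) (nat_lit 677582165103132179601393696)) (.cons (.rf (nat_lit 1630) (nat_lit 640105464695078675185502240)) .nil)))) .nil)))) .nil)))) .nil)))) .nil))))]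

theorem c60 : chkAll C T R L60 (nat_lit 1597) = true := by decide +kernel

theorem l60 : (nat_lit 1597) + L60.length = (nat_lit 1632) := by decide +kernel

/-- part of the certificates -/
def L61 : List Prf := [(.br (nat_lit 14) (nat_lit 0) (.cons (.br (nat_lit 15) (nat_lit 0) (.cons (.ev (nat_lit 15971505137473360935253658435240726025) (nat_lit 4)) (.cons (.rf (nat_lit 43) (nat_lit 631047566412586018)) .nil))) .nil)),
 (.br (nat_lit 15) (nat_lit 0) (.cons (.kr (nat_lit 10425158537485884417524615847346177) (nat_lit 2658456150026161496702772181605548032) (nat_lit 0) (nat_lit 1)) .nil)),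
 (.br (nat_lit 13) (nat_lit 0) (.cons (.rf (nat_lit 443) (nat_lit 583633511941903497659552)) .nil)),
 (.br (nat_lit 15) (nat_lit 0) (.cons (.zr (nat_lit 5212658498718845203365737583870722) (nat_lit 1329227996094400975030932290681241600) (nat_lit 8) (nat_lit 1)) .nil)),
 (.br (nat_lit 12) (nat_lit 0) (.cons (.ev (nat_lit 79537652246452448110697316353) (nat_lit 1)) (.cons (.br (nat_lit 14) (nat_lit 0) (.cons (.rf (nat_lit 1634) (nat_lit 18240816216870054103072)) (.cons (.br (nat_lit 14) (nat_lit 0) (.cons (.rf (nat_lit 1634) (nat_lit 18240816216870054103072)) (.cons (.br (nat_lit 15) (nat_lit 0) (.cons (.rf (nat_lit 1635) (nat_lit 677582165103132179601393696)) (.cons (.rf (nat_lit 1635) (nat_lit 640105464695078675185502240)) .nil))) .nil))) .nil))) .nil))),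
 (.br (nat_lit 15) (nat_lit 0) (.cons (.br (nat_lit 16) (nat_lit 0) (.cons (.ev (nat_lit 691229833760373242040891987070798268425) (nat_lit 4)) .nil)) .nil)),
 (.br (nat_lit 12) (nat_lit 0) (.cons (.ev (nat_lit 79537652246452448110697316353) (nat_lit 1)) (.cons (.br (nat_lit 13) (nat_lit 0) (.cons (.ev (nat_lit 5192297169228781716235371744919808) (nat_lit 1)) (.cons (.ev (nat_lit 40723895716036591799977692496387) (nat_lit 2)) (.cons (.br (nat_lit 14) (nat_lit 0) (.cons (.rf (nat_lit 445) (nat_lit 586032777658106715931840)) (.cons (.ev (nat_lit 10425159156460626427262776264228867) (nat_lit 2)) (.cons (.br (nat_lit 15) (nat_lit 0) (.cons (.rf (nat_lit 1637) (nat_lit 677582165103132179601393696)) (.cons (.br (nat_lit 15) (nat_lit 0) (.cons (.rf (nat_lit 1637) (nat_lit 677582165103132179601393696)) .nil)) .nil))) .nil)))) .nil)))) .nil))),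
 (.br (nat_lit 15) (nat_lit 0) (.cons (.ev (nat_lit 1334420292954149358539781223682736128) (nat_lit 1)) .nil)),
 (.br (nat_lit 13) (nat_lit 0) (.cons (.rf (nat_lit 1639) (nat_lit 19926519232773908561233952)) (.cons (.br (nat_lit 13) (nat_lit 0) (.cons (.rf (nat_lit 1639) (nat_lit 19926519232773908561233952)) .nil)) .nil))),
 (.br (nat_lit 15) (nat_lit 0) (.cons (.br (nat_lit 14) (nat_lit 0) (.cons (.kr (nat_lit 159076503973990979958023913473) (nat_lit 10384593717074377767660149891268608) (nat_lit 0) (nat_lit 1)) (.cons (.rf (nat_lit 15) (nat_lit 631047533098174657)) .nil))) (.cons (.ev (nat_lit 2658456150027370459559993444843651587) (nat_lit 2)) (.cons (.rf (nat_lit 1640) (nat_lit 21174442659472880612509728)) .nil)))),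
 (.br (nat_lit 15) (nat_lit 0) (.cons (.kr (nat_lit 5192296858534827628530496329220096) (nat_lit 1329227995784915872903807060280344576) (nat_lit 14) (nat_lit 0)) (.cons (.ev (nat_lit 1329228075322568119356255170994372608) (nat_lit 1)) .nil))),
 (.br (nat_lit 14) (nat_lit 0) (.cons (.kr (nat_lit 159076503973990979958023913473) (nat_lit 10384593717074377767660149891268608) (nat_lit 0) (nat_lit 1)) (.cons (.br (nat_lit 15) (nat_lit 0) (.cons (.rf (nat_lit 1642) (nat_lit 21174442659472880612543553)) (.cons (.ev (nat_lit 174224582248114211576551386842807245209603) (nat_lit 2)) .nil))) .nil))),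
 (.br (nat_lit 11) (nat_lit 0) (.cons (.br (nat_lit 12) (nat_lit 0) (.cons (.zr (nat_lit 316916281556884366019860104707) (nat_lit 618970204254251560296644608) (nat_lit 16) (nat_lit 1)) (.cons (.br (nat_lit 13) (nat_lit 0) (.cons (.ev (nat_lit 82084710378046176755853381992969) (nat_lit 4)) (.cons (.br (nat_lit 14) (nat_lit 0) (.cons (.rf (nat_lit 1632) (nat_lit 583706118939841765935136)) (.cons (.br (nat_lit 14) (nat_lit 0) (.cons (.rf (nat_lit 1632) (nat_lit 583706118939841765935136)) (.cons (.br (nat_lit 15) (nat_lit 0) (.cons (.rf (nat_lit 1633) (nat_lit 677582165103132179601393696)) (.cons (.rf (nat_lit 1633) (nat_lit 640105464695078675185502240)) .nil))) .nil))) .nil))) .nil))) .nil))) (.cons (.ev (nat_lit 20282409608392555709588450574593) (nat_lit 1)) (.cons (.br (nat_lit 12) (nat_lit 0) (.cons (.rf (nat_lit 1636) (nat_lit 17022140995484340291616)) (.cons (.rf (nat_lit 1638) (nat_lit 17022140995484340291616)) (.cons (.br (nat_lit 12) (nat_lit 0) (.cons (.rf (nat_lit 1636) (nat_lit 17022140995484340291616)) (.cons (.rf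 (nat_lit 1638) (nat_lit 17022140995484340291616)) (.cons (.br (nat_lit 13) (nat_lit 0) (.cons (.br (nat_lit 14) (nat_lit 0) (.cons (.rf (nat_lit 1558) (nat_lit 19459456430657090099427)) (.cons (.rf (nat_lit 1558) (nat_lit 18315758298087097899235)) (.cons (.br (nat_lit 15) (nat_lit 0) (.cons (.br (nat_lit 15) (nat_lit 0) (.cons (.kr (nat_lit 2658496556390247974968077743749595137) (nat_lit 10384752173399406152219053703299072) (nat_lit 0) (nat_lit 1)) .nil)) (.cons (.br (nat_lit 15) (nat_lit 0) (.cons (.kr (nat_lit 2658496556390247974968077743749595137) (nat_lit 10384752173399406152219053703299072) (nat_lit 0) (nat_lit 1)) .nil)) .nil))) .nil)))) (.cons (.rf (nat_lit 1641) (nat_lit 19926519232773908561233952)) (.cons (.rf (nat_lit 1641) (nat_lit 18755372345022236548237344)) (.cons (.br (nat_lit 14) (nat_lit 0) (.cons (.rf (nat_lit 1643) (nat_lit 677582165103132179601393696)) (.cons (.rf (nat_lit 1643) (nat_lit 676411018215380507588397088)) (.cons (.br (nat_lit 14) (nat_lit 0) (.cons (.rf (nat_lit 1643) (nat_lit 677582165103132179601393696))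 (.cons (.rf (nat_lit 1643) (nat_lit 676411018215380507588397088)) .nil))) .nil)))) .nil))))) .nil)))) .nil)))) .nil)))),
 (.br (nat_lit 15) (nat_lit 0) (.cons (.ev (nat_lit 10384752174617813598851619086270467) (nat_lit 2)) (.cons (.br (nat_lit 16) (nat_lit 0) (.cons (.ev (nat_lit 10425159156460626427262776264228867) (nat_lit 2)) (.cons (.ev (nat_lit 3410799037184714361021062768405923892745) (nat_lit 4)) .nil))) .nil))),
 (.br (nat_lit 12) (nat_lit 0) (.cons (.ev (nat_lit 79537652246452448110697316353) (nat_lit 1)) (.cons (.br (nat_lit 13) (nat_lit 0) (.cons (.ev (nat_lit 20282409603670117449500232581121) (nat_lit 1)) (.cons (.ev (nat_lit 20520407212481960938845528654337) (nat_lit 2)) (.cons (.br (nat_lit 15) (nat_lit 0) (.cons (.ev (nat_lit 10384752174617813598851619086270467) (nat_lit 2)) (.cons (.rf (nat_lit 1645) (nat_lit 19926519232773908561233952)) (.cons (.br (nat_lit 15) (nat_lit 0) (.cons (.ev (nat_lit 10384752174617813598851619086270467) (nat_lit 2)) (.cons (.rf (nat_lit 1645) (nat_lit 19926519232773908561233952))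 .nil))) .nil)))) .nil)))) .nil))),
 (.br (nat_lit 12) (nat_lit 0) (.cons (.rf (nat_lit 538) (nat_lit 583632394727993591994697)) .nil)),
 (.br (nat_lit 15) (nat_lit 0) (.cons (.zr (nat_lit 61084915716367962317747505922050) (nat_lit 3992876285141737475804831308274729728) (nat_lit 8) (nat_lit 2)) .nil)),
 (.br (nat_lit 12) (nat_lit 0) (.cons (.ev (nat_lit 79537652246452448110697316353) (nat_lit 1)) (.cons (.br (nat_lit 13) (nat_lit 0) (.cons (.rf (nat_lit 1647) (nat_lit 18240816216870054103072)) (.cons (.br (nat_lit 13) (nat_lit 0) (.cons (.rf (nat_lit 1647) (nat_lit 18240816216870054103072)) (.cons (.br (nat_lit 15) (nat_lit 0) (.cons (.rf (nat_lit 1648) (nat_lit 677582165103132179601393696)) (.cons (.rf (nat_lit 1648) (nat_lit 640105464695078675185502240)) .nil))) .nil))) .nil))) .nil))),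
 (.br (nat_lit 15) (nat_lit 0) (.cons (.ev (nat_lit 680564734000334465640501594187819385347) (nat_lit 2)) (.cons (.br (nat_lit 16) (nat_lit 0) (.cons (.ev (nat_lit 341611594996262235786183993258485547008) (nat_lit 1)) .nil)) .nil))),
 (.br (nat_lit 13) (nat_lit 0) (.cons (.rf (nat_lit 1647) (nat_lit 18239695731054975391971)) (.cons (.ev (nat_lit 121854153100699954354388719764997) (nat_lit 3)) (.cons (.br (nat_lit 14) (nat_lit 0) (.cons (.kr (nat_lit 1329227995786124798723421693766795265) (nat_lit 5192296858534827700869565343924480) (nat_lit 0) (nat_lit 5)) (.cons (.rf (nat_lit 1650) (nat_lit 677582165103132179601393696)) (.cons (.rf (nat_lit 1650) (nat_lit 640105428839532592608844003)) .nil)))) .nil)))),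
 (.br (nat_lit 13) (nat_lit 0) (.cons (.ev (nat_lit 20282409603670117449500232581121) (nat_lit 1)) (.cons (.br (nat_lit 14) (nat_lit 0) (.cons (.kr (nat_lit 5192376396182351714494633574662400) (nat_lit 1329248278194519543093032675279175680) (nat_lit 1) (nat_lit 0)) (.cons (.rf (nat_lit 560) (nat_lit 19925375351121884112651332)) .nil))) (.cons (.br (nat_lit 14) (nat_lit 0) (.cons (.br (nat_lit 15) (nat_lit 0) (.cons (.ev (nat_lit 10644371613412993812727485443871606281) (nat_lit 4)) (.cons (.rf (nat_lit 20) (nat_lit 631047566384175169)) .nil))) (.cons (.kr (nat_lit 40564820416266053950675408125953) (nat_lit 10384593717074377624107911768703488) (nat_lit 0) (nat_lit 2)) (.cons (.br (nat_lit 15) (nat_lit 0) (.cons (.br (nat_lit 15) (nat_lit 0) (.cons (.rf (nat_lit 1627) (nat_lit 677470011205007034741262368)) .nil)) (.cons (.br (nat_lit 15) (nat_lit 0) (.cons (.rf (nat_lit 1627) (nat_lit 677470011205007034741262368)) .nil)) .nil))) .nil)))) .nil)))),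
 (.br (nat_lit 14) (nat_lit 0) (.cons (.br (nat_lit 15) (nat_lit 0) (.cons (.zr (nat_lit 174224592633341752756284404927981829620224) (nat_lit 2041694282657127314482357489876330348545) (nat_lit 16) (nat_lit 2)) .nil)) .nil)),
 (.br (nat_lit 14) (nat_lit 0) (.cons (.br (nat_lit 15) (nat_lit 0) (.cons (.ev (nat_lit 680575118435595219674925342405741904387) (nat_lit 2)) (.cons (.kr (nat_lit 10425158537485884417524615847346177) (nat_lit 2658456150026161496702772181605548032) (nat_lit 0) (nat_lit 1)) .nil))) (.cons (.br (nat_lit 15) (nat_lit 0) (.cons (.br (nat_lit 16) (nat_lit 0) (.cons (.ev (nat_lit 1374473711335941015473011404532204700681) (nat_lit 4)) .nil)) (.cons (.ev (nat_lit 174227230319512064338641937395935147458563) (nat_lit 2)) .nil))) .nil))),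
 (.br (nat_lit 16) (nat_lit 0) (.cons (.ev (nat_lit 340282366920939677130007731578802864128) (nat_lit 1)) (.cons (.ev (nat_lit 680564734000334465640501594187819385347) (nat_lit 2)) (.cons (.br (nat_lit 15) (nat_lit 0) (.cons (.kr (nat_lit 680564733841878140574935313466179715073) (nat_lit 2658455991569831782845217456055779328) (nat_lit 0) (nat_lit 1)) (.cons (.kr (nat_lit 159076503973990979958023913473) (nat_lit 2658455991569836468318213277793517568) (nat_lit 0) (nat_lit 1)) (.cons (.ev (nat_lit 348451812567943806340547908246208963150853) (nat_lit 3)) .nil)))) (.cons (.ev (nat_lit 680575118435595219674925342405741904387) (nat_lit 2)) .nil))))),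
 (.br (nat_lit 12) (nat_lit 0) (.cons (.rf (nat_lit 1652) (nat_lit 583706118939841765935136)) (.cons (.ev (nat_lit 79537652246452448110697316353) (nat_lit 1)) (.cons (.br (nat_lit 13) (nat_lit 0) (.cons (.ev (nat_lit 20282410817318303548094285938688) (nat_lit 1)) (.cons (.rf (nat_lit 1652) (nat_lit 547071923151519438870755)) (.cons (.br (nat_lit 16) (nat_lit 0) (.cons (.ev (nat_lit 680564734000334465640501594187819385347) (nat_lit 2)) (.cons (.ev (nat_lit 680564774407316327342795932425531687427) (nat_lit 2)) (.cons (.br (nat_lit 14) (nat_lit 0) (.cons (.rf (nat_lit 1653) (nat_lit 677582165103132179601393696)) (.cons (.br (nat_lit 14) (nat_lit 0) (.cons (.rf (nat_lit 1653) (nat_lit 677582165103132179601393696)) .nil)) .nil))) .nil)))) (.cons (.br (nat_lit 14) (nat_lit 0) (.cons (.rf (nat_lit 1654) (nat_lit 677582165103132179601393696)) (.cons (.br (nat_lit 14) (nat_lit 0) (.cons (.rf (nat_lit 1654) (nat_lit 677582165103132179601393696)) (.cons (.rf (nat_lit 1655) (nat_lit 677582165103132179601393696)) .nil))) (.cons (.br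 (nat_lit 14) (nat_lit 0) (.cons (.rf (nat_lit 1654) (nat_lit 677582165103132179601393696)) (.cons (.rf (nat_lit 1655) (nat_lit 677582165103132179601393696)) .nil))) .nil)))) .nil))))) .nil)))),
 (.br (nat_lit 13) (nat_lit 0) (.cons (.ev (nat_lit 5212658496305716002113975801085953) (nat_lit 1)) (.cons (.br (nat_lit 15) (nat_lit 0) (.cons (.ev (nat_lit 1369135989757147391818761445227349671941) (nat_lit 3)) (.cons (.rf (nat_lit 1627) (nat_lit 485401921613732824609818656)) .nil))) .nil))),
 (.br (nat_lit 14) (nat_lit 0) (.cons (.ev (nat_lit 51923131375696054618197518511771145) (nat_lit 4)) (.cons (.ev (nat_lit 1329227996094405623538379072376733953) (nat_lit 1)) (.cons (.br (nat_lit 13) (nat_lit 0) (.cons (.rf (nat_lit 1583) (nat_lit 19458304633138878449696)) (.cons (.rf (nat_lit 1657) (nat_lit 19926519232773908561233952)) (.cons (.br (nat_lit 13) (nat_lit 0) (.cons (.rf (nat_lit 20) (nat_lit 630978331506221121)) (.cons (.rf (nat_lit 1657) (nat_lit 19926519232773908561233952)) .nil))) .nil)))) .nil)))),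
 (.br (nat_lit 13) (nat_lit 0) (.cons (.rf (nat_lit 147) (nat_lit 19347732356026750668008)) (.cons (.br (nat_lit 15) (nat_lit 0) (.cons (.ev (nat_lit 1361150359042253762736991442052292150789) (nat_lit 3)) (.cons (.br (nat_lit 15) (nat_lit 0) (.cons (.ev (nat_lit 1361150359042253762736991442052292150789) (nat_lit 3)) .nil)) .nil))) (.cons (.br (nat_lit 15) (nat_lit 0) (.cons (.br (nat_lit 15) (nat_lit 0) (.cons (.rf (nat_lit 1629) (nat_lit 562773171763226082577319968)) .nil)) (.cons (.br (nat_lit 15) (nat_lit 0) (.cons (.rf (nat_lit 1629) (nat_lit 562773171763226082577319968)) .nil)) .nil))) .nil))))]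

theorem c61 : chkAll C T R L61 (nat_lit 1632) = true := by decide +kernel

theorem l61 : (nat_lit 1632) + L61.length = (nat_lit 1660) := by decide +kernel

/-- part of the certificates -/
def L62 : List Prf := [(.br (nat_lit 13) (nat_lit 0) (.cons (.rf (nat_lit 147) (nat_lit 19347732356026750668008)) (.cons (.br (nat_lit 14) (nat_lit 0) (.cons (.ev (nat_lit 5212658496305716002113975801085953) (nat_lit 1)) (.cons (.ev (nat_lit 680575159159489712618598075833887359491) (nat_lit 2)) (.cons (.br (nat_lit 15) (nat_lit 0) (.cons (.ev (nat_lit 683223230557342484154026275038132436995) (nat_lit 2)) (.cons (.kr (nat_lit 10425158537485884417524615847346177) (nat_lit 2658456150026161496702772181605548032) (nat_lit 0) (nat_lit 1)) .nil))) .nil)))) (.cons (.br (nat_lit 14) (nat_lit 0) (.cons (.rf (nat_lit 20) (nat_lit 630978264934222081)) (.cons (.br (nat_lit 15) (nat_lit 0) (.cons (.ev (nat_lit 683233574585621376486155680603183382531) (nat_lit 2)) (.cons (.kr (nat_lit 10425158537485884417524615847346177) (nat_lit 2658456150026161496702772181605548032)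 (nat_lit 0) (nat_lit 1)) .nil))) (.cons (.br (nat_lit 15) (nat_lit 0) (.cons (.br (nat_lit 16) (nat_lit 0) (.cons (.ev (nat_lit 1363798511885419658970660292218704628745) (nat_lit 4)) .nil)) (.cons (.ev (nat_lit 174227240744671219585620033881962149183491) (nat_lit 2)) .nil))) .nil)))) .nil)))),
 (.br (nat_lit 13) (nat_lit 0) (.cons (.rf (nat_lit 1659) (nat_lit 19926519232773908561233952)) (.cons (.rf (nat_lit 1660) (nat_lit 19926519232773908561233952)) (.cons (.br (nat_lit 14) (nat_lit 0) (.cons (.br (nat_lit 15) (nat_lit 0) (.cons (.kr (nat_lit 159076503973990979958023913473) (nat_lit 2658455991569836468318213277793517568) (nat_lit 0) (nat_lit 1)) (.cons (.rf (nat_lit 1629) (nat_lit 640068866354836435435096096)) .nil))) (.cons (.rf (nat_lit 87) (nat_lit 631046501265775650)) (.cons (.ev (nat_lit 5212658496305716002113975801085953) (nat_lit 1)) .nil)))) .nil)))),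
 (.br (nat_lit 12) (nat_lit 0) (.cons (.rf (nat_lit 1656) (nat_lit 583706118939841765935136)) (.cons (.rf (nat_lit 1658) (nat_lit 583706118939841765935136)) (.cons (.br (nat_lit 13) (nat_lit 0) (.cons (.rf (nat_lit 1659) (nat_lit 19926519232773908561233952)) (.cons (.rf (nat_lit 1660) (nat_lit 19926519232773908561233952)) (.cons (.rf (nat_lit 1661) (nat_lit 19926519232773908561233952)) (.cons (.br (nat_lit 13) (nat_lit 0) (.cons (.rf (nat_lit 1659) (nat_lit 19926519232773908561233952)) (.cons (.rf (nat_lit 1660) (nat_lit 19926519232773908561233952)) (.cons (.rf (nat_lit 1661) (nat_lit 19926519232773908561233952)) .nil)))) .nil))))) .nil)))),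
 (.br (nat_lit 13) (nat_lit 0) (.cons (.br (nat_lit 14) (nat_lit 0) (.cons (.ev (nat_lit 1363798511885419658970660292218704628745) (nat_lit 4)) .nil)) .nil)),
 (.br (nat_lit 13) (nat_lit 0) (.cons (.br (nat_lit 14) (nat_lit 0) (.cons (.ev (nat_lit 680575118435595219674925342405741904387) (nat_lit 2)) (.cons (.ev (nat_lit 13406634251793670107660266068942525457) (nat_lit 5)) .nil))) (.cons (.br (nat_lit 14) (nat_lit 0) (.cons (.br (nat_lit 16) (nat_lit 0) (.cons (.ev (nat_lit 5479192477432969562199840937751898489873) (nat_lit 5)) .nil)) (.cons (.ev (nat_lit 174224571904085932693663845722627319529987) (nat_lit 2)) .nil))) .nil))),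
 (.br (nat_lit 13) (nat_lit 0) (.cons (.rf (nat_lit 1664) (nat_lit 677582165103132179601393696)) (.cons (.rf (nat_lit 1655) (nat_lit 485326473162570408172460259)) .nil))),
 (.br (nat_lit 12) (nat_lit 0) (.cons (.ev (nat_lit 79537652246452448110697316353) (nat_lit 1)) (.cons (.rf (nat_lit 1662) (nat_lit 583706118939841765935136)) (.cons (.br (nat_lit 15) (nat_lit 0) (.cons (.rf (nat_lit 1662) (nat_lit 547071923151519438870755)) (.cons (.ev (nat_lit 1329227996095609826991511935696044288) (nat_lit 1)) (.cons (.br (nat_lit 16) (nat_lit 0) (.cons (.ev (nat_lit 683223189833447972320887605733359616003) (nat_lit 2)) (.cons (.ev (nat_lit 680564734000334465640501594187819385347) (nat_lit 2)) (.cons (.br (nat_lit 13) (nat_lit 0) (.cons (.rf (nat_lit 1663) (nat_lit 677582165103132179601393696)) (.cons (.br (nat_lit 13) (nat_lit 0) (.cons (.rf (nat_lit 1663) (nat_lit 677582165103132179601393696)) .nil)) .nil))) .nil)))) (.cons (.br (nat_lit 13) (nat_lit 0) (.cons (.rf (nat_lit 1664) (nat_lit 677582165103132179601393696)) (.cons (.rf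 (nat_lit 1665) (nat_lit 677582165103132179601393696)) (.cons (.br (nat_lit 13) (nat_lit 0) (.cons (.rf (nat_lit 1664) (nat_lit 677582165103132179601393696)) (.cons (.rf (nat_lit 1655) (nat_lit 485326473162570408172460259)) .nil))) .nil)))) .nil))))) .nil)))),
 (.br (nat_lit 14) (nat_lit 0) (.cons (.br (nat_lit 15) (nat_lit 0) (.cons (.ev (nat_lit 1366446501837959268028339516751317697029) (nat_lit 3)) .nil)) (.cons (.kr (nat_lit 40564820416266053950675408125953) (nat_lit 10384593717074377624107911768703488) (nat_lit 0) (nat_lit 2)) .nil))),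
 (.br (nat_lit 13) (nat_lit 0) (.cons (.rf (nat_lit 1666) (nat_lit 547071923151519438870755)) (.cons (.rf (nat_lit 1662) (nat_lit 547071923151519438870755)) (.cons (.br (nat_lit 16) (nat_lit 0) (.cons (.rf (nat_lit 1667) (nat_lit 677582165103132179601393696)) (.cons (.rf (nat_lit 1667) (nat_lit 677545530907343857274329315)) (.cons (.kr (nat_lit 340282366920938463463374607431768211456) (nat_lit 87112285931760246646623899502532662132736) (nat_lit 16) (nat_lit 0)) .nil)))) .nil)))),
 (.br (nat_lit 2) (nat_lit 0) (.cons (.br (nat_lit 8) (nat_lit 0) (.cons (.kr (nat_lit 309485009821626543701491968) (nat_lit 18518801667747545088) (nat_lit 1) (nat_lit 0)) (.cons (.br (nat_lit 11) (nat_lit 0) (.cons (.ev (nat_lit 1239153761403135518124148229) (nat_lit 3)) (.cons (.br (nat_lit 12) (nat_lit 0) (.cons (.rf (nat_lit 1599) (nat_lit 493858305440582043680)) (.cons (.br (nat_lit 12) (nat_lit 0) (.cons (.rf (nat_lit 1599) (nat_lit 493858305440582043680)) (.cons (.br (nat_lit 13) (nat_lit 0) (.cons (.rf (nat_lit 1601) (nat_lit 583706118939841765935136))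 (.cons (.rf (nat_lit 1601) (nat_lit 547107778697602015528992)) (.cons (.br (nat_lit 13) (nat_lit 0) (.cons (.rf (nat_lit 1601) (nat_lit 583706118939841765935136)) (.cons (.rf (nat_lit 1601) (nat_lit 547107778697602015528992)) (.cons (.br (nat_lit 14) (nat_lit 0) (.cons (.rf (nat_lit 1603) (nat_lit 677582165103132179601393696)) (.cons (.rf (nat_lit 1604) (nat_lit 677582165103132179601393696)) (.cons (.rf (nat_lit 1604) (nat_lit 640105464695078675185502240)) .nil)))) .nil)))) .nil)))) .nil))) .nil))) .nil))) .nil))) (.cons (.ev (nat_lit 1223092919066549547041283) (nat_lit 2)) (.cons (.kr (nat_lit 620178945462304770936012801) (nat_lit 4722510599157232828416) (nat_lit 0) (nat_lit 1)) (.cons (.br (nat_lit 6) (nat_lit 0) (.cons (.kr (nat_lit 1208962713102780905553921) (nat_lit 4722367046919110263296) (nat_lit 0) (nat_lit 2)) (.cons (.ev (nat_lit 1213648330776749262503939) (nat_lit 2)) (.cons (.br (nat_lit 8) (nat_lit 0) (.cons (.ev (nat_lit 620202667976317166598488069) (nat_lit 3)) (.cons (.ev (nat_lit 79229371440156292395539890176)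 (nat_lit 1)) (.cons (.br (nat_lit 11) (nat_lit 0) (.cons (.ev (nat_lit 79228162514264338693072421121) (nat_lit 1)) (.cons (.ev (nat_lit 620231149893851726559710729) (nat_lit 4)) (.cons (.br (nat_lit 12) (nat_lit 0) (.cons (.rf (nat_lit 1606) (nat_lit 17022140995484340291616)) (.cons (.rf (nat_lit 1606) (nat_lit 15878327883474583689443)) (.cons (.br (nat_lit 13) (nat_lit 0) (.cons (.rf (nat_lit 1608) (nat_lit 583706118939841765935136)) (.cons (.rf (nat_lit 1610) (nat_lit 583706118939841765935136)) (.cons (.br (nat_lit 13) (nat_lit 0) (.cons (.rf (nat_lit 1608) (nat_lit 583706118939841765935136)) (.cons (.rf (nat_lit 1610) (nat_lit 583706118939841765935136)) (.cons (.br (nat_lit 14) (nat_lit 0) (.cons (.rf (nat_lit 1610) (nat_lit 582562305827832009332963)) (.cons (.rf (nat_lit 1611) (nat_lit 677582165103132179601393696)) (.cons (.rf (nat_lit 1611) (nat_lit 640105464695078675185502240)) .nil)))) .nil)))) .nil)))) .nil)))) .nil)))) .nil)))) (.cons (.br (nat_lit 8) (nat_lit 0) (.cons (.br (nat_lit 12) (nat_lit 0) (.cons (.rf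 (nat_lit 1614) (nat_lit 493858305440582043680)) (.cons (.br (nat_lit 12) (nat_lit 0) (.cons (.rf (nat_lit 1614) (nat_lit 493858305440582043680)) (.cons (.br (nat_lit 13) (nat_lit 0) (.cons (.rf (nat_lit 1616) (nat_lit 583706118939841765935136)) (.cons (.rf (nat_lit 1616) (nat_lit 547107778697602015528992)) (.cons (.br (nat_lit 13) (nat_lit 0) (.cons (.rf (nat_lit 1616) (nat_lit 583706118939841765935136)) (.cons (.rf (nat_lit 1616) (nat_lit 547107778697602015528992)) (.cons (.br (nat_lit 14) (nat_lit 0) (.cons (.rf (nat_lit 1618) (nat_lit 677582165103132179601393696)) (.cons (.rf (nat_lit 1619) (nat_lit 677582165103132179601393696)) (.cons (.rf (nat_lit 1619) (nat_lit 640105464695078675185502240)) .nil)))) .nil)))) .nil)))) .nil))) .nil))) (.cons (.rf (nat_lit 1631) (nat_lit 493858305440582043680)) (.cons (.rf (nat_lit 1644) (nat_lit 493858305440582043680)) (.cons (.br (nat_lit 11) (nat_lit 0) (.cons (.rf (nat_lit 1644) (nat_lit 458002759358005385443)) (.cons (.rf (nat_lit 1631) (nat_lit 458002759358005385443)) (.cons (.br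 (nat_lit 12) (nat_lit 0) (.cons (.rf (nat_lit 1646) (nat_lit 17022140995484340291616)) (.cons (.rf (nat_lit 1649) (nat_lit 17022140995484340291616)) (.cons (.br (nat_lit 12) (nat_lit 0) (.cons (.rf (nat_lit 1646) (nat_lit 17022140995484340291616)) (.cons (.rf (nat_lit 1649) (nat_lit 17022140995484340291616)) (.cons (.br (nat_lit 13) (nat_lit 0) (.cons (.rf (nat_lit 1649) (nat_lit 16986285449401763633379)) (.cons (.rf (nat_lit 1651) (nat_lit 19926519232773908561233952)) (.cons (.rf (nat_lit 1651) (nat_lit 18755372345022236548237344)) (.cons (.br (nat_lit 13) (nat_lit 0) (.cons (.rf (nat_lit 1649) (nat_lit 16986285449401763633379)) (.cons (.rf (nat_lit 1651) (nat_lit 19926519232773908561233952)) (.cons (.rf (nat_lit 1651) (nat_lit 18755372345022236548237344)) .nil)))) .nil))))) .nil)))) .nil)))) (.cons (.br (nat_lit 12) (nat_lit 0) (.cons (.rf (nat_lit 1656) (nat_lit 583706118939841765935136)) (.cons (.rf (nat_lit 1662) (nat_lit 583706118939841765935136)) (.cons (.rf (nat_lit 1666) (nat_lit 583706118939841765935136)) (.cons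 (.br (nat_lit 12) (nat_lit 0) (.cons (.rf (nat_lit 1656) (nat_lit 583706118939841765935136)) (.cons (.rf (nat_lit 1662) (nat_lit 583706118939841765935136)) (.cons (.rf (nat_lit 1666) (nat_lit 583706118939841765935136)) (.cons (.br (nat_lit 13) (nat_lit 0) (.cons (.rf (nat_lit 1666) (nat_lit 547071923151519438870755)) (.cons (.rf (nat_lit 1662) (nat_lit 547071923151519438870755)) (.cons (.rf (nat_lit 1668) (nat_lit 677582165103132179601393696)) (.cons (.rf (nat_lit 1668) (nat_lit 640105464695078675185502240)) .nil))))) .nil))))) .nil))))) .nil))))) .nil))))) .nil))))) .nil))))),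
 (.br (nat_lit 14) (nat_lit 0) (.cons (.br (nat_lit 15) (nat_lit 0) (.cons (.ev (nat_lit 2689609774579173974540432925366813187) (nat_lit 3)) (.cons (.rf (nat_lit 1) (nat_lit 631047566413629633)) .nil))) .nil)),
 (.br (nat_lit 15) (nat_lit 0) (.cons (.ev (nat_lit 1344865813749589854644588418252734723) (nat_lit 2)) .nil)),
 (.br (nat_lit 12) (nat_lit 0) (.cons (.br (nat_lit 13) (nat_lit 0) (.cons (.kr (nat_lit 40564819212025707331863659413505) (nat_lit 158457533954348289820574351360) (nat_lit 0) (nat_lit 1)) (.cons (.br (nat_lit 14) (nat_lit 0) (.cons (.rf (nat_lit 1670) (nat_lit 583706118939841765935136)) (.cons (.br (nat_lit 14) (nat_lit 0) (.cons (.rf (nat_lit 1670) (nat_lit 583706118939841765935136)) (.cons (.br (nat_lit 15) (nat_lit 0) (.cons (.rf (nat_lit 1671) (nat_lit 677582165103132179601393696)) (.cons (.rf (nat_lit 1671) (nat_lit 640105464695078675185502240)) .nil))) .nil))) .nil))) .nil))) .nil)),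
 (.br (nat_lit 15) (nat_lit 0) (.cons (.ev (nat_lit 10384752793587833385659152191193091) (nat_lit 2)) (.cons (.br (nat_lit 16) (nat_lit 0) (.cons (.ev (nat_lit 10425158537500051516975436708053507) (nat_lit 2)) (.cons (.ev (nat_lit 688540101818444555427133693052049293827) (nat_lit 3)) .nil))) .nil))),
 (.br (nat_lit 13) (nat_lit 0) (.cons (.ev (nat_lit 20521022555724217689309133734146) (nat_lit 2)) (.cons (.br (nat_lit 15) (nat_lit 0) (.cons (.ev (nat_lit 10384752793587833385659152191193091) (nat_lit 2)) (.cons (.rf (nat_lit 1673) (nat_lit 19926519232773908561233952)) (.cons (.br (nat_lit 15) (nat_lit 0) (.cons (.ev (nat_lit 10384752793587833385659152191193091) (nat_lit 2)) (.cons (.rf (nat_lit 1673) (nat_lit 19926519232773908561233952)) .nil))) .nil)))) .nil))),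
 (.br (nat_lit 14) (nat_lit 0) (.cons (.kr (nat_lit 20282409603651670423947251286016) (nat_lit 5192296858534827628530496329220096) (nat_lit 13) (nat_lit 0)) (.cons (.ev (nat_lit 5212658497509919455246834842206208) (nat_lit 1)) .nil))),
 (.br (nat_lit 13) (nat_lit 0) (.cons (.rf (nat_lit 1675) (nat_lit 19926519232773908561233952)) (.cons (.rf (nat_lit 1675) (nat_lit 18755372345022236548237344)) .nil))),
 (.br (nat_lit 14) (nat_lit 0) (.cons (.rf (nat_lit 1676) (nat_lit 21174442659472880612543553)) (.cons (.br (nat_lit 16) (nat_lit 0) (.cons (.br (nat_lit 15) (nat_lit 0) (.cons (.ev (nat_lit 1334420371871613214796675154448548096) (nat_lit 1)) .nil)) (.cons (.kr (nat_lit 340282366920938463463374607431768211456) (nat_lit 87112285931760246646623899502532662132736) (nat_lit 16) (nat_lit 0)) .nil))) .nil))),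
 (.br (nat_lit 14) (nat_lit 0) (.cons (.ev (nat_lit 5212658497509919454964264648835328) (nat_lit 1)) (.cons (.rf (nat_lit 11) (nat_lit 593855485017565249)) .nil))),
 (.br (nat_lit 13) (nat_lit 0) (.cons (.br (nat_lit 14) (nat_lit 0) (.cons (.kr (nat_lit 1329228075322563396989771197525786880) (nat_lit 5212579268138497817756111328051200) (nat_lit 1) (nat_lit 0)) (.cons (.rf (nat_lit 50) (nat_lit 605840419099851726882)) .nil))) (.cons (.br (nat_lit 14) (nat_lit 0) (.cons (.rf (nat_lit 1678) (nat_lit 622703726023049662793760)) (.cons (.br (nat_lit 16) (nat_lit 0) (.cons (.ev (nat_lit 4083440529160856829133382235182304724997) (nat_lit 4)) (.cons (.rf (nat_lit 70) (nat_lit 629954687389474854)) .nil))) (.cons (.br (nat_lit 15) (nat_lit 0) (.cons (.br (nat_lit 15) (nat_lit 0) (.cons (.ev (nat_lit 1344865971896415706252185154168619008) (nat_lit 2)) .nil)) (.cons (.br (nat_lit 15) (nat_lit 0) (.cons (.ev (nat_lit 1344865971896415706252185154168619008) (nat_lit 2)) .nil)) .nil))) .nil)))) .nil))),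
 (.br (nat_lit 14) (nat_lit 0) (.cons (.kr (nat_lit 2658455991571045393993712723203981313) (nat_lit 159075295048171928274490884608) (nat_lit 0) (nat_lit 2)) (.cons (.br (nat_lit 15) (nat_lit 0) (.cons (.ev (nat_lit 683223189834066942377279105880232690177) (nat_lit 2)) (.cons (.ev (nat_lit 1334440575362539362096164170935304448) (nat_lit 1)) .nil))) .nil)))]

theorem c62 : chkAll C T R L62 (nat_lit 1660) = true := by decide +kernel

theorem l62 : (nat_lit 1660) + L62.length = (nat_lit 1681) := by decide +kernel

/-- part of the certificates -/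
def L63 : List Prf := [(.br (nat_lit 13) (nat_lit 0) (.cons (.rf (nat_lit 1679) (nat_lit 583706118939841765935136)) (.cons (.br (nat_lit 14) (nat_lit 0) (.cons (.kr (nat_lit 2658455991571045393993712723203981313) (nat_lit 159075295048171928274490884608) (nat_lit 0) (nat_lit 2)) (.cons (.rf (nat_lit 1680) (nat_lit 19926519232773908561233952)) (.cons (.br (nat_lit 14) (nat_lit 0) (.cons (.kr (nat_lit 2658455991571045393993712723203981313) (nat_lit 159075295048171928274490884608) (nat_lit 0) (nat_lit 2)) (.cons (.rf (nat_lit 1680) (nat_lit 19926519232773908561233952)) .nil))) .nil)))) .nil))),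
 (.br (nat_lit 15) (nat_lit 0) (.cons (.ev (nat_lit 683223189833447981802369946631050231811) (nat_lit 2)) (.cons (.ev (nat_lit 1334440575053059074641584546344075265) (nat_lit 1)) .nil))),
 (.br (nat_lit 14) (nat_lit 0) (.cons (.rf (nat_lit 1682) (nat_lit 677582165103132179601393696)) (.cons (.rf (nat_lit 1682) (nat_lit 640105464695078675185502240)) .nil))),
 (.br (nat_lit 14) (nat_lit 0) (.cons (.rf (nat_lit 1683) (nat_lit 677582165103132179601393696)) (.cons (.br (nat_lit 16) (nat_lit 0) (.cons (.br (nat_lit 15) (nat_lit 0) (.cons (.ev (nat_lit 5327337460446742585622852534926705159) (nat_lit 3)) .nil)) (.cons (.ev (nat_lit 1361160743161220817992253792215386685955) (nat_lit 3)) .nil))) .nil))),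
 (.br (nat_lit 13) (nat_lit 0) (.cons (.rf (nat_lit 484) (nat_lit 583633511941903497659552)) .nil)),
 (.br (nat_lit 15) (nat_lit 0) (.cons (.ev (nat_lit 1344865971583303882078789529755517184) (nat_lit 2)) .nil)),
 (.br (nat_lit 12) (nat_lit 0) (.cons (.ev (nat_lit 79537652246452448110697316353) (nat_lit 1)) (.cons (.br (nat_lit 14) (nat_lit 0) (.cons (.rf (nat_lit 1685) (nat_lit 18240816216870054103072)) (.cons (.br (nat_lit 14) (nat_lit 0) (.cons (.rf (nat_lit 1685) (nat_lit 18240816216870054103072)) (.cons (.br (nat_lit 15) (nat_lit 0) (.cons (.rf (nat_lit 1686) (nat_lit 677582165103132179601393696)) (.cons (.rf (nat_lit 1686) (nat_lit 640105464695078675185502240)) .nil))) .nil))) .nil))) .nil))),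
 (.br (nat_lit 12) (nat_lit 0) (.cons (.ev (nat_lit 79537652246452448110697316353) (nat_lit 1)) (.cons (.br (nat_lit 13) (nat_lit 0) (.cons (.ev (nat_lit 10425159775430720001042214784730625) (nat_lit 3)) (.cons (.br (nat_lit 14) (nat_lit 0) (.cons (.kr (nat_lit 1329228075015496238807655395740352768) (nat_lit 5212579577623544532589327471935488) (nat_lit 1) (nat_lit 0)) (.cons (.br (nat_lit 15) (nat_lit 0) (.cons (.ev (nat_lit 1334440575363753028729288313658146817) (nat_lit 1)) (.cons (.rf (nat_lit 11) (nat_lit 631047533131696321)) .nil))) .nil))) (.cons (.br (nat_lit 14) (nat_lit 0) (.cons (.rf (nat_lit 485) (nat_lit 586032777658106715931840)) (.cons (.br (nat_lit 16) (nat_lit 0) (.cons (.ev (nat_lit 1361202444744865992516824213718940649487) (nat_lit 4)) (.cons (.rf (nat_lit 11) (nat_lit 629954687283735745)) .nil))) (.cons (.br (nat_lit 15) (nat_lit 0) (.cons (.br (nat_lit 15) (nat_lit 0) (.cons (.ev (nat_lit 1344865971896415706252185154168619008) (nat_lit 2)) .nil)) (.cons (.br (nat_lit 15) (nat_lit 0) (.cons (.ev (nat_lit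 1344865971896415706252185154168619008) (nat_lit 2)) .nil)) .nil))) .nil)))) .nil)))) .nil))),
 (.br (nat_lit 15) (nat_lit 0) (.cons (.kr (nat_lit 2658455991571045393993712723187204097) (nat_lit 159075295085064853471973343232) (nat_lit 0) (nat_lit 1)) (.cons (.rf (nat_lit 58) (nat_lit 631045369498902571)) .nil))),
 (.br (nat_lit 15) (nat_lit 0) (.cons (.ev (nat_lit 1334420292954149358539781223682736128) (nat_lit 1)) .nil)),
 (.br (nat_lit 15) (nat_lit 0) (.cons (.br (nat_lit 14) (nat_lit 0) (.cons (.ev (nat_lit 2668881308563647381264974944105660417) (nat_lit 2)) (.cons (.rf (nat_lit 15) (nat_lit 631047533131696321)) .nil))) (.cons (.kr (nat_lit 2658455991569836505067586237153411073) (nat_lit 158457533954348852770510995968) (nat_lit 0) (nat_lit 2)) (.cons (.br (nat_lit 14) (nat_lit 0) (.cons (.rf (nat_lit 1690) (nat_lit 21174442659472880612509728)) (.cons (.br (nat_lit 14) (nat_lit 0) (.cons (.rf (nat_lit 1690) (nat_lit 21174442659472880612509728)) .nil)) .nil))) .nil)))),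
 (.br (nat_lit 14) (nat_lit 0) (.cons (.rf (nat_lit 499) (nat_lit 20678094662407606702347)) (.cons (.br (nat_lit 15) (nat_lit 0) (.cons (.kr (nat_lit 2658455991571045393993712723187204097) (nat_lit 159075295085064853471973343232) (nat_lit 0) (nat_lit 1)) (.cons (.ev (nat_lit 174227230319512064348123419736832838074371) (nat_lit 2)) .nil))) .nil))),
 (.br (nat_lit 12) (nat_lit 0) (.cons (.ev (nat_lit 79537652246452448110697316353) (nat_lit 1)) (.cons (.br (nat_lit 13) (nat_lit 0) (.cons (.ev (nat_lit 31275477466964028074335096136663043) (nat_lit 3)) (.cons (.br (nat_lit 14) (nat_lit 0) (.cons (.kr (nat_lit 2658455991571045393993712723187204097) (nat_lit 159075295085064853471973343232) (nat_lit 0) (nat_lit 1)) (.cons (.rf (nat_lit 485) (nat_lit 586031660579333628830057)) .nil))) (.cons (.br (nat_lit 14) (nat_lit 0) (.cons (.br (nat_lit 15) (nat_lit 0) (.cons (.ev (nat_lit 1334440575363753028729288313658146817) (nat_lit 1)) (.cons (.rf (nat_lit 11) (nat_lit 631046434688698593)) .nil))) (.cons (.br (nat_lit 16) (nat_lit 0) (.cons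 (.ev (nat_lit 4083440529160856829022703459590075452933) (nat_lit 4)) (.cons (.rf (nat_lit 11) (nat_lit 629954653997865185)) .nil))) (.cons (.br (nat_lit 15) (nat_lit 0) (.cons (.br (nat_lit 15) (nat_lit 0) (.cons (.ev (nat_lit 1344865971896415706252185154168619008) (nat_lit 2)) .nil)) (.cons (.br (nat_lit 15) (nat_lit 0) (.cons (.ev (nat_lit 1344865971896415706252185154168619008) (nat_lit 2)) .nil)) .nil))) .nil)))) .nil)))) .nil))),
 (.br (nat_lit 12) (nat_lit 0) (.cons (.ev (nat_lit 79538856449905578766436990976) (nat_lit 1)) (.cons (.br (nat_lit 13) (nat_lit 0) (.cons (.rf (nat_lit 1685) (nat_lit 18205069764301148195081)) (.cons (.br (nat_lit 13) (nat_lit 0) (.cons (.rf (nat_lit 1685) (nat_lit 18205069764301148195081)) (.cons (.rf (nat_lit 494) (nat_lit 677581021221480155157005376)) .nil))) .nil))) .nil))),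
 (.br (nat_lit 15) (nat_lit 0) (.cons (.kr (nat_lit 2658455991569836505067586237153411073) (nat_lit 158457533954348852770510995968) (nat_lit 0) (nat_lit 2)) (.cons (.rf (nat_lit 58) (nat_lit 631045402919149606)) .nil))),
 (.br (nat_lit 13) (nat_lit 0) (.cons (.rf (nat_lit 1695) (nat_lit 19926519232773908561233952)) (.cons (.rf (nat_lit 1695) (nat_lit 18755372345022236548237344)) (.cons (.br (nat_lit 15) (nat_lit 0) (.cons (.br (nat_lit 15) (nat_lit 0) (.cons (.ev (nat_lit 2668881309182626845640070069915484675) (nat_lit 2)) .nil)) (.cons (.br (nat_lit 15) (nat_lit 0) (.cons (.ev (nat_lit 2668881309182626845640070069915484675) (nat_lit 2)) .nil)) .nil))) .nil)))),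
 (.br (nat_lit 13) (nat_lit 0) (.cons (.rf (nat_lit 1696) (nat_lit 19926519232773908561233952)) (.cons (.br (nat_lit 14) (nat_lit 0) (.cons (.ev (nat_lit 2668881309182626845640070069915484675) (nat_lit 2)) (.cons (.ev (nat_lit 680575159159489722026581670812891218435) (nat_lit 2)) (.cons (.rf (nat_lit 499) (nat_lit 20678095753260580442374)) .nil)))) (.cons (.br (nat_lit 15) (nat_lit 0) (.cons (.rf (nat_lit 15) (nat_lit 631046434688698593)) (.cons (.kr (nat_lit 2658455991569836505067586237153411073) (nat_lit 158457533954348852770510995968) (nat_lit 0) (nat_lit 2)) (.cons (.br (nat_lit 14) (nat_lit 0) (.cons (.rf (nat_lit 500) (nat_lit 640103141234791255053246665)) (.cons (.ev (nat_lit 174227230319512683308698328896082020532737) (nat_lit 2)) .nil))) .nil)))) .nil)))),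
 (.br (nat_lit 13) (nat_lit 0) (.cons (.ev (nat_lit 5212658496305716002113975801086208) (nat_lit 1)) (.cons (.rf (nat_lit 20) (nat_lit 593820334975785025)) .nil))),
 (.br (nat_lit 14) (nat_lit 0) (.cons (.ev (nat_lit 2668881308563647381264974944105660417) (nat_lit 2)) (.cons (.br (nat_lit 16) (nat_lit 0) (.cons (.ev (nat_lit 683223189834066942340386180682733453313) (nat_lit 2)) (.cons (.ev (nat_lit 340287579500206606665112384917831942145) (nat_lit 1)) .nil))) .nil))),
 (.br (nat_lit 14) (nat_lit 0) (.cons (.kr (nat_lit 680564733841878140574935313466162937857) (nat_lit 159075295085064853471973343232) (nat_lit 0) (nat_lit 1)) (.cons (.br (nat_lit 16) (nat_lit 0) (.cons (.ev (nat_lit 683223189834066942340386180682733453313) (nat_lit 2)) (.cons (.ev (nat_lit 340287579500516086952566964542423171328) (nat_lit 1)) .nil))) .nil))),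
 (.br (nat_lit 14) (nat_lit 0) (.cons (.br (nat_lit 16) (nat_lit 0) (.cons (.ev (nat_lit 683223189833447981765475895533644153347) (nat_lit 2)) (.cons (.ev (nat_lit 340287579500206606665112384917831942145) (nat_lit 1)) .nil))) (.cons (.br (nat_lit 15) (nat_lit 0) (.cons (.br (nat_lit 16) (nat_lit 0) (.cons (.ev (nat_lit 1361139893161060933021291904415876646407) (nat_lit 3)) .nil)) (.cons (.ev (nat_lit 5348187460606627556582488534757279235) (nat_lit 3)) .nil))) .nil))),
 (.br (nat_lit 14) (nat_lit 0) (.cons (.rf (nat_lit 1701) (nat_lit 677582165103132179601393696)) (.cons (.br (nat_lit 15) (nat_lit 0) (.cons (.ev (nat_lit 340287579500207810868565515573538062336) (nat_lit 1)) (.cons (.rf (nat_lit 1156) (nat_lit 19534431438208937233473)) .nil))) .nil))),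
 (.br (nat_lit 12) (nat_lit 0) (.cons (.ev (nat_lit 79538856449905578766436990976) (nat_lit 1)) (.cons (.br (nat_lit 15) (nat_lit 0) (.cons (.kr (nat_lit 2658455991569836468174098089717530625) (nat_lit 158457533954348289820574351360) (nat_lit 0) (nat_lit 1)) (.cons (.kr (nat_lit 2658455991571045393994275673140625921) (nat_lit 159075295121958341619426000896) (nat_lit 0) (nat_lit 2)) (.cons (.br (nat_lit 13) (nat_lit 0) (.cons (.rf (nat_lit 1698) (nat_lit 622703726024184641456160)) (.cons (.br (nat_lit 14) (nat_lit 0) (.cons (.ev (nat_lit 683223189834066942340386180682733453313) (nat_lit 2)) (.cons (.br (nat_lit 14) (nat_lit 0) (.cons (.ev (nat_lit 683223189834066942340386180682733453313) (nat_lit 2)) .nil)) .nil))) (.cons (.rf (nat_lit 861) (nat_lit 21170900981151045998942435)) .nil)))) .nil)))) (.cons (.br (nat_lit 13) (nat_lit 0) (.cons (.br (nat_lit 14) (nat_lit 0) (.cons (.br (nat_lit 15) (nat_lit 0) (.cons (.ev (nat_lit 16002862059014257900160929934721810437) (nat_lit 4)) (.cons (.rf (nat_lit 20) (nat_lit 631047533127633089))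 .nil))) (.cons (.br (nat_lit 15) (nat_lit 0) (.cons (.ev (nat_lit 340287579500516086952566964542423171328) (nat_lit 1)) (.cons (.br (nat_lit 15) (nat_lit 0) (.cons (.ev (nat_lit 340287579500517300600753063136442974465) (nat_lit 1)) .nil)) .nil))) (.cons (.br (nat_lit 15) (nat_lit 0) (.cons (.br (nat_lit 15) (nat_lit 0) (.cons (.ev (nat_lit 2668881308563647381264974944105660417) (nat_lit 2)) .nil)) (.cons (.br (nat_lit 15) (nat_lit 0) (.cons (.ev (nat_lit 2668881308563647381264974944105660417) (nat_lit 2)) .nil)) .nil))) .nil)))) (.cons (.br (nat_lit 14) (nat_lit 0) (.cons (.br (nat_lit 14) (nat_lit 0) (.cons (.ev (nat_lit 2668881308563647381264974944105660417) (nat_lit 2)) (.cons (.rf (nat_lit 20) (nat_lit 631013448271235265)) .nil))) (.cons (.rf (nat_lit 1699) (nat_lit 19926519232773908561233952)) (.cons (.br (nat_lit 14) (nat_lit 0) (.cons (.rf (nat_lit 20) (nat_lit 631013448271235265)) (.cons (.rf (nat_lit 1699) (nat_lit 19926519232773908561233952)) .nil))) .nil)))) (.cons (.br (nat_lit 14) (nat_lit 0) (.cons (.rf (nat_lit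 1700) (nat_lit 19926519232773908561233952)) (.cons (.kr (nat_lit 680564733841878140574935313466162937857) (nat_lit 159075295085064853471973343232) (nat_lit 0) (nat_lit 1)) (.cons (.br (nat_lit 14) (nat_lit 0) (.cons (.rf (nat_lit 1700) (nat_lit 19926519232773908561233952)) (.cons (.kr (nat_lit 680564733841878140574935313466162937857) (nat_lit 159075295085064853471973343232) (nat_lit 0) (nat_lit 1)) .nil))) .nil)))) (.cons (.br (nat_lit 14) (nat_lit 0) (.cons (.rf (nat_lit 1701) (nat_lit 677582165103132179601393696)) (.cons (.rf (nat_lit 1702) (nat_lit 677582165103132179601393696)) (.cons (.br (nat_lit 14) (nat_lit 0) (.cons (.rf (nat_lit 1701) (nat_lit 677582165103132179601393696)) (.cons (.rf (nat_lit 1702) (nat_lit 677582165103132179601393696)) .nil))) .nil)))) .nil))))) .nil)))),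
 (.br (nat_lit 13) (nat_lit 0) (.cons (.ev (nat_lit 1334440575054263296541177800799813888) (nat_lit 1)) (.cons (.br (nat_lit 14) (nat_lit 0) (.cons (.ev (nat_lit 683223189834066942340386180682733453313) (nat_lit 2)) (.cons (.ev (nat_lit 1334440575362539380543189719604789248) (nat_lit 1)) .nil))) .nil))),
 (.br (nat_lit 13) (nat_lit 0) (.cons (.br (nat_lit 15) (nat_lit 0) (.cons (.ev (nat_lit 16002862061490175757661310437961107469) (nat_lit 4)) (.cons (.rf (nat_lit 20) (nat_lit 596039185973222593)) .nil))) (.cons (.rf (nat_lit 83) (nat_lit 608074204548345995298)) (.cons (.br (nat_lit 15) (nat_lit 0) (.cons (.br (nat_lit 15) (nat_lit 0) (.cons (.ev (nat_lit 2668881309182626845640070069915484675) (nat_lit 2)) .nil)) (.cons (.br (nat_lit 15) (nat_lit 0) (.cons (.ev (nat_lit 2668881309182626845640070069915484675) (nat_lit 2)) .nil)) .nil))) .nil)))),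
 (.br (nat_lit 13) (nat_lit 0) (.cons (.rf (nat_lit 1705) (nat_lit 19926519232773908561233952)) (.cons (.br (nat_lit 14) (nat_lit 0) (.cons (.ev (nat_lit 2668881309182626845640070069915484675) (nat_lit 2)) (.cons (.kr (nat_lit 680564733841876931686009186980129144833) (nat_lit 158457533954348852770510995968) (nat_lit 0) (nat_lit 2)) (.cons (.br (nat_lit 16) (nat_lit 0) (.cons (.ev (nat_lit 683223189833447981765475895533644153347) (nat_lit 2)) (.cons (.ev (nat_lit 340287579500516086952566964542423171328) (nat_lit 1)) .nil))) .nil)))) (.cons (.br (nat_lit 14) (nat_lit 0) (.cons (.rf (nat_lit 20) (nat_lit 630978264967645537)) (.cons (.br (nat_lit 16) (nat_lit 0) (.cons (.ev (nat_lit 683223189834066942340386180682733453313) (nat_lit 2)) (.cons (.ev (nat_lit 340287579500206606665112384917831942145) (nat_lit 1)) .nil))) (.cons (.br (nat_lit 15) (nat_lit 0) (.cons (.br (nat_lit 16) (nat_lit 0) (.cons (.ev (nat_lit 1361139893159822974092541714164256997891) (nat_lit 3)) .nil)) (.cons (.ev (nat_lit 5348187459368706406764170036392362503)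 (nat_lit 3)) .nil))) .nil)))) .nil))))]

theorem c63 : chkAll C T R L63 (nat_lit 1681) = true := by decide +kernel

theorem l63 : (nat_lit 1681) + L63.length = (nat_lit 1707) := by decide +kernel

/-- part of the certificates -/
def L64 : List Prf := [(.br (nat_lit 13) (nat_lit 0) (.cons (.rf (nat_lit 83) (nat_lit 608074204548345995298)) (.cons (.rf (nat_lit 1706) (nat_lit 19926519232773908561233952)) (.cons (.br (nat_lit 14) (nat_lit 0) (.cons (.br (nat_lit 16) (nat_lit 0) (.cons (.ev (nat_lit 683223189834066942340386180682733453313) (nat_lit 2)) (.cons (.ev (nat_lit 340287579500516086952566964542423171328) (nat_lit 1)) .nil))) (.cons (.kr (nat_lit 680564733841876931686009186980129144833) (nat_lit 158457533954348852770510995968) (nat_lit 0) (nat_lit 2)) (.cons (.br (nat_lit 16) (nat_lit 0) (.cons (.ev (nat_lit 340287579500517300600753063136442974465) (nat_lit 1)) (.cons (.ev (nat_lit 174905136597362990403879270496824996266497) (nat_lit 2)) .nil))) .nil)))) .nil)))),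
 (.br (nat_lit 12) (nat_lit 0) (.cons (.ev (nat_lit 79538856449905578766436990976) (nat_lit 1)) (.cons (.br (nat_lit 15) (nat_lit 0) (.cons (.kr (nat_lit 2658455992188806561603764522022076417) (nat_lit 158459951805988082037450342912) (nat_lit 0) (nat_lit 2)) (.cons (.kr (nat_lit 2658455991569836468174098089717530625) (nat_lit 158457533954348289820574351360) (nat_lit 0) (nat_lit 1)) (.cons (.br (nat_lit 13) (nat_lit 0) (.cons (.rf (nat_lit 1698) (nat_lit 622667979571615735548169)) (.cons (.rf (nat_lit 1704) (nat_lit 19926519232773908561233952)) (.cons (.br (nat_lit 13) (nat_lit 0) (.cons (.rf (nat_lit 20) (nat_lit 630977266387885121)) (.cons (.rf (nat_lit 1704) (nat_lit 19926519232773908561233952)) .nil))) .nil)))) .nil)))) (.cons (.br (nat_lit 13) (nat_lit 0) (.cons (.rf (nat_lit 1705) (nat_lit 19926519232773908561233952)) (.cons (.rf (nat_lit 1706) (nat_lit 19926519232773908561233952)) (.cons (.rf (nat_lit 1707) (nat_lit 19926519232773908561233952)) (.cons (.br (nat_lit 13) (nat_lit 0) (.cons (.rf (nat_lit 1705) (nat_lit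 19926519232773908561233952)) (.cons (.rf (nat_lit 1706) (nat_lit 19926519232773908561233952)) (.cons (.rf (nat_lit 1707) (nat_lit 19926519232773908561233952)) .nil)))) .nil))))) .nil)))),
 (.br (nat_lit 13) (nat_lit 0) (.cons (.ev (nat_lit 2668881309182626845640070069915484675) (nat_lit 2)) (.cons (.br (nat_lit 14) (nat_lit 0) (.cons (.ev (nat_lit 341611594995952755517175876232610381825) (nat_lit 1)) (.cons (.ev (nat_lit 2668881308563647381264974944105660417) (nat_lit 2)) .nil))) .nil))),
 (.br (nat_lit 13) (nat_lit 0) (.cons (.br (nat_lit 16) (nat_lit 0) (.cons (.ev (nat_lit 680575159159489722063475721910230188035) (nat_lit 2)) (.cons (.ev (nat_lit 341611594995952755517175876232610381825) (nat_lit 1)) .nil))) (.cons (.br (nat_lit 14) (nat_lit 0) (.cons (.rf (nat_lit 515) (nat_lit 20676979955539103558690)) (.cons (.ev (nat_lit 174227230319512683308661435970884521295873) (nat_lit 2)) .nil))) .nil))),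
 (.br (nat_lit 13) (nat_lit 0) (.cons (.rf (nat_lit 1710) (nat_lit 677582165103132179601393696)) (.cons (.br (nat_lit 17) (nat_lit 0) (.cons (.ev (nat_lit 174227230319512683308661435970884521295873) (nat_lit 2)) (.cons (.ev (nat_lit 341611594995952755517175876232610381825) (nat_lit 1)) .nil))) .nil))),
 (.br (nat_lit 12) (nat_lit 0) (.cons (.rf (nat_lit 1703) (nat_lit 583706118939841765935136)) (.cons (.rf (nat_lit 1708) (nat_lit 583706118939841765935136)) (.cons (.br (nat_lit 15) (nat_lit 0) (.cons (.br (nat_lit 13) (nat_lit 0) (.cons (.br (nat_lit 14) (nat_lit 0) (.cons (.ev (nat_lit 2668881308563647381264974944105660417) (nat_lit 2)) (.cons (.rf (nat_lit 20) (nat_lit 596040251124985025)) .nil))) (.cons (.rf (nat_lit 511) (nat_lit 621488541023346335319104)) (.cons (.br (nat_lit 14) (nat_lit 0) (.cons (.br (nat_lit 14) (nat_lit 0) (.cons (.ev (nat_lit 2668881309182626845640070069915484675) (nat_lit 2)) .nil)) (.cons (.br (nat_lit 14) (nat_lit 0) (.cons (.ev (nat_lit 2668881309182626845640070069915484675) (nat_lit 2)) .nil))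 .nil))) .nil)))) (.cons (.br (nat_lit 13) (nat_lit 0) (.cons (.br (nat_lit 13) (nat_lit 0) (.cons (.ev (nat_lit 2668881309182626845640070069915484675) (nat_lit 2)) (.cons (.rf (nat_lit 20) (nat_lit 596040217838983521)) .nil))) (.cons (.rf (nat_lit 1709) (nat_lit 19926519232773908561233952)) (.cons (.br (nat_lit 13) (nat_lit 0) (.cons (.rf (nat_lit 20) (nat_lit 596040217838983521)) (.cons (.rf (nat_lit 1709) (nat_lit 19926519232773908561233952)) .nil))) .nil)))) (.cons (.kr (nat_lit 2658455991569836468174098089717530625) (nat_lit 158457533954348289820574351360) (nat_lit 0) (nat_lit 1)) (.cons (.br (nat_lit 13) (nat_lit 0) (.cons (.rf (nat_lit 1710) (nat_lit 677582165103132179601393696)) (.cons (.rf (nat_lit 1711) (nat_lit 677582165103132179601393696)) (.cons (.br (nat_lit 13) (nat_lit 0) (.cons (.rf (nat_lit 1710) (nat_lit 677582165103132179601393696)) (.cons (.rf (nat_lit 1711) (nat_lit 677582165103132179601393696)) .nil))) .nil)))) .nil))))) .nil)))),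
 (.br (nat_lit 16) (nat_lit 0) (.cons (.ev (nat_lit 683223189834066942340386180682733453313) (nat_lit 2)) (.cons (.kr (nat_lit 680564733841878140574935313466162937857) (nat_lit 159075295085064853471973343232) (nat_lit 0) (nat_lit 1)) .nil))),
 (.br (nat_lit 16) (nat_lit 0) (.cons (.rf (nat_lit 87) (nat_lit 631045402924228646)) (.cons (.br (nat_lit 14) (nat_lit 0) (.cons (.ev (nat_lit 683223189834066942340386180682733453313) (nat_lit 2)) (.cons (.br (nat_lit 15) (nat_lit 0) (.cons (.ev (nat_lit 1334440575054263296541177800799813888) (nat_lit 1)) .nil)) .nil))) (.cons (.kr (nat_lit 680564733841876931686009186980129144833) (nat_lit 158457533954348852770510995968) (nat_lit 0) (nat_lit 2)) .nil)))),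
 (.br (nat_lit 13) (nat_lit 0) (.cons (.br (nat_lit 14) (nat_lit 0) (.cons (.ev (nat_lit 1334440575362539380543189719604789248) (nat_lit 1)) (.cons (.rf (nat_lit 1713) (nat_lit 677582165103132179601393696)) (.cons (.rf (nat_lit 1713) (nat_lit 640105464695078675185502240)) .nil)))) (.cons (.rf (nat_lit 1714) (nat_lit 677582165103132179601393696)) (.cons (.rf (nat_lit 1714) (nat_lit 640105464695078675185502240)) .nil)))),
 (.br (nat_lit 16) (nat_lit 0) (.cons (.br (nat_lit 14) (nat_lit 0) (.cons (.ev (nat_lit 1334440575053059093088047145060139265) (nat_lit 1)) (.cons (.ev (nat_lit 680575159158870742599099500884513522177) (nat_lit 2)) .nil))) (.cons (.ev (nat_lit 683223189833447981765475895533644153347) (nat_lit 2)) (.cons (.kr (nat_lit 680564733841876931686009186980129144833) (nat_lit 158457533954348852770510995968) (nat_lit 0) (nat_lit 2)) .nil)))),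
 (.br (nat_lit 13) (nat_lit 0) (.cons (.rf (nat_lit 1715) (nat_lit 677582165103132179601393696)) (.cons (.rf (nat_lit 1716) (nat_lit 677582165103132179601393696)) (.cons (.rf (nat_lit 1716) (nat_lit 640105464695078675185502240)) .nil)))),
 (.br (nat_lit 14) (nat_lit 0) (.cons (.ev (nat_lit 680575159158870742599099500884513522177) (nat_lit 2)) (.cons (.ev (nat_lit 87452568298760413272601538447562269327616) (nat_lit 1)) .nil))),
 (.br (nat_lit 13) (nat_lit 0) (.cons (.rf (nat_lit 1715) (nat_lit 677582165103132179601393696)) (.cons (.rf (nat_lit 1717) (nat_lit 677582165103132179601393696)) (.cons (.br (nat_lit 16) (nat_lit 0) (.cons (.rf (nat_lit 1718) (nat_lit 677582165103132179601393696)) (.cons (.br (nat_lit 14) (nat_lit 0) (.cons (.ev (nat_lit 683223189834066942340386180682733453313) (nat_lit 2)) (.cons (.rf (nat_lit 1718) (nat_lit 640105464695078675185502240)) .nil))) (.cons (.kr (nat_lit 340282366920938463463374607431768211456) (nat_lit 87112285931760246646623899502532662132736) (nat_lit 16) (nat_lit 0)) .nil)))) .nil)))),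
 (.br (nat_lit 2) (nat_lit 0) (.cons (.kr (nat_lit 4759259972116592721921) (nat_lit 1208925820177583423095296) (nat_lit 0) (nat_lit 2)) (.cons (.ev (nat_lit 1223092919066549547041283) (nat_lit 2)) (.cons (.kr (nat_lit 1213648186098602626514945) (nat_lit 618970056536178284885442560) (nat_lit 0) (nat_lit 1)) (.cons (.br (nat_lit 6) (nat_lit 0) (.cons (.kr (nat_lit 281474976710912) (nat_lit 18446744073726328832) (nat_lit 1) (nat_lit 0)) (.cons (.br (nat_lit 7) (nat_lit 0) (.cons (.ev (nat_lit 1858133262961635826830803459) (nat_lit 3)) (.cons (.br (nat_lit 12) (nat_lit 0) (.cons (.rf (nat_lit 1672) (nat_lit 493858305440582043680)) (.cons (.br (nat_lit 12) (nat_lit 0) (.cons (.rf (nat_lit 1672) (nat_lit 493858305440582043680)) (.cons (.br (nat_lit 13) (nat_lit 0) (.cons (.rf (nat_lit 1674) (nat_lit 583706118939841765935136)) (.cons (.rf (nat_lit 1674) (nat_lit 547107778697602015528992)) (.cons (.br (nat_lit 13) (nat_lit 0) (.cons (.rf (nat_lit 1674) (nat_lit 583706118939841765935136)) (.cons (.rf (nat_lit 1674) (nat_lit 547107778697602015528992))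 (.cons (.br (nat_lit 14) (nat_lit 0) (.cons (.rf (nat_lit 1676) (nat_lit 21174442659472880612543553)) (.cons (.rf (nat_lit 1677) (nat_lit 677582165103132179601393696)) (.cons (.rf (nat_lit 1677) (nat_lit 640105464695078675185502240)) .nil)))) .nil)))) .nil)))) .nil))) .nil))) .nil))) (.cons (.ev (nat_lit 1223129813117646953119747) (nat_lit 2)) (.cons (.br (nat_lit 11) (nat_lit 0) (.cons (.kr (nat_lit 1208925819614633469673472) (nat_lit 309485028268089142434332672) (nat_lit 4) (nat_lit 0)) (.cons (.ev (nat_lit 620183704722276896135578113) (nat_lit 2)) (.cons (.kr (nat_lit 1208925819896108446384384) (nat_lit 309485046714833216160661504) (nat_lit 1) (nat_lit 0)) (.cons (.br (nat_lit 7) (nat_lit 0) (.cons (.br (nat_lit 12) (nat_lit 0) (.cons (.ev (nat_lit 79228162532711363146542022656) (nat_lit 1)) (.cons (.ev (nat_lit 79538856468352041365153054976) (nat_lit 1)) (.cons (.br (nat_lit 13) (nat_lit 0) (.cons (.rf (nat_lit 1679) (nat_lit 583706118939841765935136)) (.cons (.rf (nat_lit 1681) (nat_lit 583706118939841765935136)) (.cons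 (.br (nat_lit 13) (nat_lit 0) (.cons (.rf (nat_lit 1679) (nat_lit 583706118939841765935136)) (.cons (.rf (nat_lit 1681) (nat_lit 583706118939841765935136)) (.cons (.br (nat_lit 14) (nat_lit 0) (.cons (.rf (nat_lit 1683) (nat_lit 677582165103132179601393696)) (.cons (.rf (nat_lit 1684) (nat_lit 677582165103132179601393696)) (.cons (.rf (nat_lit 1684) (nat_lit 640105464695078675185502240)) .nil)))) .nil)))) .nil)))) .nil)))) (.cons (.br (nat_lit 12) (nat_lit 0) (.cons (.rf (nat_lit 1687) (nat_lit 17022140995484340291616)) (.cons (.rf (nat_lit 1688) (nat_lit 17022140995484340291616)) (.cons (.br (nat_lit 12) (nat_lit 0) (.cons (.rf (nat_lit 1687) (nat_lit 17022140995484340291616)) (.cons (.rf (nat_lit 1688) (nat_lit 17022140995484340291616)) (.cons (.br (nat_lit 13) (nat_lit 0) (.cons (.br (nat_lit 14) (nat_lit 0) (.cons (.rf (nat_lit 1689) (nat_lit 19926519232773908561233952)) (.cons (.rf (nat_lit 1689) (nat_lit 18755372345022236548237344)) (.cons (.br (nat_lit 15) (nat_lit 0) (.cons (.br (nat_lit 15) (nat_lit 0) (.cons (.ev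 (nat_lit 2668881308563647381264974944105660417) (nat_lit 2)) .nil)) (.cons (.br (nat_lit 15) (nat_lit 0) (.cons (.ev (nat_lit 2668881308563647381264974944105660417) (nat_lit 2)) .nil)) .nil))) .nil)))) (.cons (.rf (nat_lit 1691) (nat_lit 19926519232773908561233952)) (.cons (.rf (nat_lit 1691) (nat_lit 18755372345022236548237344)) (.cons (.br (nat_lit 14) (nat_lit 0) (.cons (.rf (nat_lit 1692) (nat_lit 677582165103132179601393696)) (.cons (.rf (nat_lit 1692) (nat_lit 676411018215380507588397088)) (.cons (.br (nat_lit 14) (nat_lit 0) (.cons (.rf (nat_lit 1692) (nat_lit 677582165103132179601393696)) (.cons (.rf (nat_lit 1692) (nat_lit 676411018215380507588397088)) .nil))) .nil)))) .nil))))) .nil)))) .nil)))) (.cons (.br (nat_lit 12) (nat_lit 0) (.cons (.rf (nat_lit 1693) (nat_lit 17022140995484340291616)) (.cons (.rf (nat_lit 1694) (nat_lit 17022140995484340291616)) (.cons (.br (nat_lit 12) (nat_lit 0) (.cons (.rf (nat_lit 1693) (nat_lit 17022140995484340291616)) (.cons (.rf (nat_lit 1694) (nat_lit 17022140995484340291616))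 (.cons (.br (nat_lit 13) (nat_lit 0) (.cons (.rf (nat_lit 1696) (nat_lit 19926519232773908561233952)) (.cons (.rf (nat_lit 1697) (nat_lit 19926519232773908561233952)) (.cons (.rf (nat_lit 1697) (nat_lit 18755372345022236548237344)) (.cons (.br (nat_lit 13) (nat_lit 0) (.cons (.rf (nat_lit 1696) (nat_lit 19926519232773908561233952)) (.cons (.rf (nat_lit 1697) (nat_lit 19926519232773908561233952)) (.cons (.rf (nat_lit 1697) (nat_lit 18755372345022236548237344)) .nil)))) .nil))))) .nil)))) .nil)))) (.cons (.br (nat_lit 12) (nat_lit 0) (.cons (.rf (nat_lit 1703) (nat_lit 583706118939841765935136)) (.cons (.rf (nat_lit 1708) (nat_lit 583706118939841765935136)) (.cons (.rf (nat_lit 1712) (nat_lit 583706118939841765935136)) (.cons (.br (nat_lit 12) (nat_lit 0) (.cons (.rf (nat_lit 1703) (nat_lit 583706118939841765935136)) (.cons (.rf (nat_lit 1708) (nat_lit 583706118939841765935136)) (.cons (.rf (nat_lit 1712) (nat_lit 583706118939841765935136)) (.cons (.br (nat_lit 13) (nat_lit 0) (.cons (.rf (nat_lit 1715) (nat_lit 677582165103132179601393696))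 (.cons (.rf (nat_lit 1717) (nat_lit 677582165103132179601393696)) (.cons (.rf (nat_lit 1719) (nat_lit 677582165103132179601393696)) (.cons (.rf (nat_lit 1719) (nat_lit 640105464695078675185502240)) .nil))))) .nil))))) .nil))))) .nil))))) .nil))))) .nil))))) .nil))))),
 (.br (nat_lit 14) (nat_lit 0) (.cons (.br (nat_lit 15) (nat_lit 0) (.cons (.ev (nat_lit 2689609773960203954465395033357156867) (nat_lit 3)) (.cons (.rf (nat_lit 43) (nat_lit 631047566413474850)) .nil))) .nil)),
 (.br (nat_lit 15) (nat_lit 0) (.cons (.ev (nat_lit 1344865813130610353375444402683576579) (nat_lit 2)) .nil)),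
 (.br (nat_lit 14) (nat_lit 0) (.cons (.br (nat_lit 15) (nat_lit 0) (.cons (.ev (nat_lit 2668840585907094513770546988291457537) (nat_lit 2)) (.cons (.rf (nat_lit 58) (nat_lit 631047533061286951)) .nil))) .nil)),
 (.br (nat_lit 15) (nat_lit 0) (.cons (.br (nat_lit 16) (nat_lit 0) (.cons (.ev (nat_lit 685892071143867344520736310803214761991) (nat_lit 3)) .nil)) .nil)),
 (.br (nat_lit 13) (nat_lit 0) (.cons (.br (nat_lit 14) (nat_lit 0) (.cons (.ev (nat_lit 10465881813041865157067610264044549) (nat_lit 3)) (.cons (.rf (nat_lit 50) (nat_lit 605840415834635349026)) .nil))) (.cons (.br (nat_lit 14) (nat_lit 0) (.cons (.br (nat_lit 15) (nat_lit 0) (.cons (.ev (nat_lit 5348147369299475835167197406469160961) (nat_lit 3)) (.cons (.rf (nat_lit 11) (nat_lit 631046501362245697)) .nil))) (.cons (.rf (nat_lit 1127) (nat_lit 622703720319775346589931)) (.cons (.br (nat_lit 15) (nat_lit 0) (.cons (.rf (nat_lit 1724) (nat_lit 677582165103132179601393696)) (.cons (.br (nat_lit 15) (nat_lit 0) (.cons (.rf (nat_lit 1724) (nat_lit 677582165103132179601393696))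 .nil)) .nil))) .nil)))) .nil)))]

theorem c64 : chkAll C T R L64 (nat_lit 1707) = true := by decide +kernel

theorem l64 : (nat_lit 1707) + L64.length = (nat_lit 1726) := by decide +kernel

/-- part of the certificates -/
def L65 : List Prf := [(.br (nat_lit 14) (nat_lit 0) (.cons (.br (nat_lit 16) (nat_lit 0) (.cons (.ev (nat_lit 88134477857771991196435513947713387430658) (nat_lit 2)) .nil)) .nil)),
 (.br (nat_lit 13) (nat_lit 0) (.cons (.rf (nat_lit 1725) (nat_lit 583706118939841765935136)) (.cons (.br (nat_lit 15) (nat_lit 0) (.cons (.br (nat_lit 14) (nat_lit 0) (.cons (.ev (nat_lit 10425158537490643821610833922753027) (nat_lit 2)) (.cons (.rf (nat_lit 15) (nat_lit 631047566515182657)) .nil))) (.cons (.ev (nat_lit 2658577686647656213125447578355500549) (nat_lit 3)) (.cons (.br (nat_lit 14) (nat_lit 0) (.cons (.rf (nat_lit 1726) (nat_lit 677582165103132179601393696)) (.cons (.br (nat_lit 14) (nat_lit 0) (.cons (.rf (nat_lit 1726) (nat_lit 677582165103132179601393696)) .nil)) .nil))) .nil)))) .nil))),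
 (.br (nat_lit 15) (nat_lit 0) (.cons (.ev (nat_lit 680575118436214189694712147731267191297) (nat_lit 2)) (.cons (.ev (nat_lit 1334440575053059074641583442520702976) (nat_lit 1)) .nil))),
 (.br (nat_lit 14) (nat_lit 0) (.cons (.rf (nat_lit 1728) (nat_lit 677582165103132179601393696)) (.cons (.rf (nat_lit 1728) (nat_lit 640105464695078675185502240)) .nil))),
 (.br (nat_lit 14) (nat_lit 0) (.cons (.rf (nat_lit 1729) (nat_lit 677582165103132179601393696)) (.cons (.ev (nat_lit 10425158537490643821610833922753027) (nat_lit 2)) .nil))),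
 (.br (nat_lit 14) (nat_lit 0) (.cons (.br (nat_lit 15) (nat_lit 0) (.cons (.ev (nat_lit 5337681171812966045015948161259405827) (nat_lit 3)) (.cons (.rf (nat_lit 43) (nat_lit 631047566412459042)) .nil))) .nil)),
 (.br (nat_lit 15) (nat_lit 0) (.cons (.ev (nat_lit 2689731626255199726378154109985488903) (nat_lit 3)) .nil)),
 (.br (nat_lit 15) (nat_lit 0) (.cons (.ev (nat_lit 1365716606187506210461212459772609798) (nat_lit 3)) .nil)),
 (.br (nat_lit 13) (nat_lit 0) (.cons (.ev (nat_lit 20282720297587311384744679244033) (nat_lit 1)) (.cons (.rf (nat_lit 58) (nat_lit 556664402168849448)) .nil))),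
 (.br (nat_lit 13) (nat_lit 0) (.cons (.ev (nat_lit 40723276755461682640728510038017) (nat_lit 2)) (.cons (.br (nat_lit 14) (nat_lit 0) (.cons (.ev (nat_lit 10384752793587833385656944611557377) (nat_lit 2)) (.cons (.rf (nat_lit 539) (nat_lit 622667979864324064773184)) (.cons (.br (nat_lit 15) (nat_lit 0) (.cons (.br (nat_lit 15) (nat_lit 0) (.cons (.ev (nat_lit 7985793293560249339794710060239028231) (nat_lit 3)) .nil)) (.cons (.br (nat_lit 15) (nat_lit 0) (.cons (.ev (nat_lit 7985793293560249339794710060239028231) (nat_lit 3)) .nil)) .nil))) .nil)))) .nil))),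
 (.br (nat_lit 13) (nat_lit 0) (.cons (.ev (nat_lit 40723276755461682640728510038017) (nat_lit 2)) (.cons (.br (nat_lit 15) (nat_lit 0) (.cons (.br (nat_lit 14) (nat_lit 0) (.cons (.ev (nat_lit 31194346590628308467241590972350979) (nat_lit 3)) (.cons (.rf (nat_lit 15) (nat_lit 631047566515214401)) .nil))) (.cons (.ev (nat_lit 2658496556390262142067526357030666753) (nat_lit 2)) (.cons (.rf (nat_lit 1640) (nat_lit 21174441538986928092748131)) .nil)))) .nil))),
 (.br (nat_lit 16) (nat_lit 0) (.cons (.ev (nat_lit 2668840585907094513770546988291457537) (nat_lit 2)) (.cons (.rf (nat_lit 1642) (nat_lit 18795549423241344316670155)) .nil))),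
 (.br (nat_lit 14) (nat_lit 0) (.cons (.rf (nat_lit 1737) (nat_lit 677582165103132179601393696)) (.cons (.rf (nat_lit 1737) (nat_lit 640105464695078675185502240)) .nil))),
 (.br (nat_lit 14) (nat_lit 0) (.cons (.rf (nat_lit 1738) (nat_lit 677582165103132179601393696)) (.cons (.ev (nat_lit 31194346590628308467241590972350979) (nat_lit 3)) .nil))),
 (.br (nat_lit 14) (nat_lit 0) (.cons (.br (nat_lit 15) (nat_lit 0) (.cons (.ev (nat_lit 7985752569665728135566501289161654787) (nat_lit 3)) (.cons (.rf (nat_lit 43) (nat_lit 596110584406354978)) .nil))) .nil)),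
 (.br (nat_lit 15) (nat_lit 0) (.cons (.ev (nat_lit 1344825406767728115456194685087843075) (nat_lit 2)) .nil)),
 (.br (nat_lit 15) (nat_lit 0) (.cons (.kr (nat_lit 2658455991571045393993712723187204097) (nat_lit 159075295085064853471973343232) (nat_lit 0) (nat_lit 1)) (.cons (.rf (nat_lit 58) (nat_lit 631045369498905640)) .nil))),
 (.br (nat_lit 12) (nat_lit 0) (.cons (.ev (nat_lit 40723276755461682640728510038017) (nat_lit 2)) (.cons (.br (nat_lit 14) (nat_lit 0) (.cons (.ev (nat_lit 10425159156460663320187973696356867) (nat_lit 2)) (.cons (.br (nat_lit 15) (nat_lit 0) (.cons (.kr (nat_lit 680564733841878140574935313466162937857) (nat_lit 159075295085064853471973343232) (nat_lit 0) (nat_lit 1)) (.cons (.br (nat_lit 15) (nat_lit 0) (.cons (.kr (nat_lit 680564733841878140574935313466162937857) (nat_lit 159075295085064853471973343232) (nat_lit 0) (nat_lit 1)) .nil)) .nil))) (.cons (.br (nat_lit 15) (nat_lit 0) (.cons (.rf (nat_lit 1489) (nat_lit 640105428845328295393330528)) (.cons (.br (nat_lit 15) (nat_lit 0) (.cons (.ev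 (nat_lit 1334420371872822159135091447075700993) (nat_lit 1)) .nil)) .nil))) .nil)))) .nil))),
 (.br (nat_lit 16) (nat_lit 0) (.cons (.ev (nat_lit 2044352698242334296973170065417068478471) (nat_lit 3)) .nil)),
 (.br (nat_lit 12) (nat_lit 0) (.cons (.ev (nat_lit 40723276755461682640728510038017) (nat_lit 2)) (.cons (.br (nat_lit 15) (nat_lit 0) (.cons (.br (nat_lit 14) (nat_lit 0) (.cons (.ev (nat_lit 5212658496300993563293136652927233) (nat_lit 1)) (.cons (.rf (nat_lit 11) (nat_lit 631010252906799297)) .nil))) (.cons (.ev (nat_lit 2658456150027370422667068247344414723) (nat_lit 2)) (.cons (.br (nat_lit 14) (nat_lit 0) (.cons (.rf (nat_lit 1744) (nat_lit 677582165103132179601393696)) (.cons (.br (nat_lit 14) (nat_lit 0) (.cons (.rf (nat_lit 1744) (nat_lit 677582165103132179601393696)) .nil)) .nil))) .nil)))) .nil))),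
 (.br (nat_lit 15) (nat_lit 0) (.cons (.ev (nat_lit 2668840585907094513770546988291457537) (nat_lit 2)) (.cons (.br (nat_lit 16) (nat_lit 0) (.cons (.zr (nat_lit 284904472434424910359259074527255) (nat_lit 3405492509795910685000062674311657425408) (nat_lit 48) (nat_lit 2)) .nil)) .nil))),
 (.br (nat_lit 14) (nat_lit 0) (.cons (.rf (nat_lit 1746) (nat_lit 677582165103132179601393696)) (.cons (.rf (nat_lit 1746) (nat_lit 640105464695078675185502240)) .nil))),
 (.br (nat_lit 14) (nat_lit 0) (.cons (.rf (nat_lit 1747) (nat_lit 677582165103132179601393696)) (.cons (.ev (nat_lit 5212658496300993563293136652927233) (nat_lit 1)) .nil))),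
 (.br (nat_lit 14) (nat_lit 0) (.cons (.br (nat_lit 15) (nat_lit 0) (.cons (.ev (nat_lit 7985752570284688673581613821804676609) (nat_lit 3)) (.cons (.rf (nat_lit 58) (nat_lit 631047533127347238)) .nil))) .nil)),
 (.br (nat_lit 15) (nat_lit 0) (.cons (.ev (nat_lit 10384752793587833385656944611557377) (nat_lit 2)) (.cons (.br (nat_lit 16) (nat_lit 0) (.cons (.ev (nat_lit 10425159156460663320187973696356867) (nat_lit 2)) (.cons (.ev (nat_lit 688540101817825585407058655160039637507) (nat_lit 3)) .nil))) .nil))),
 (.br (nat_lit 13) (nat_lit 0) (.cons (.ev (nat_lit 20520097727416872263574660120832) (nat_lit 2)) (.cons (.br (nat_lit 15) (nat_lit 0) (.cons (.ev (nat_lit 10384752793587833385656944611557377) (nat_lit 2)) (.cons (.rf (nat_lit 1750) (nat_lit 19926519232773908561233952)) (.cons (.br (nat_lit 15) (nat_lit 0) (.cons (.ev (nat_lit 10384752793587833385656944611557377) (nat_lit 2)) (.cons (.rf (nat_lit 1750) (nat_lit 19926519232773908561233952)) .nil))) .nil)))) .nil))),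
 (.br (nat_lit 14) (nat_lit 0) (.cons (.ev (nat_lit 2658456150027370422667068247344414723) (nat_lit 2)) (.cons (.br (nat_lit 16) (nat_lit 0) (.cons (.ev (nat_lit 2658496556390262142067526357030666753) (nat_lit 2)) (.cons (.ev (nat_lit 2041704586121205974216406416050731877889) (nat_lit 3)) .nil))) .nil))),
 (.br (nat_lit 13) (nat_lit 0) (.cons (.ev (nat_lit 20520097727416872263574660120832) (nat_lit 2)) (.cons (.br (nat_lit 14) (nat_lit 0) (.cons (.ev (nat_lit 2658456150027370422667068247344414723) (nat_lit 2)) (.cons (.rf (nat_lit 1752) (nat_lit 19926519232773908561233952)) (.cons (.br (nat_lit 14) (nat_lit 0) (.cons (.ev (nat_lit 2658456150027370422667068247344414723) (nat_lit 2)) (.cons (.rf (nat_lit 1752) (nat_lit 19926519232773908561233952)) .nil))) .nil)))) .nil))),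
 (.br (nat_lit 15) (nat_lit 0) (.cons (.kr (nat_lit 1329227995786124798723421693750018048) (nat_lit 5192297168019855896619638763552768) (nat_lit 4) (nat_lit 0)) (.cons (.ev (nat_lit 1334440575362544084390872021030993920) (nat_lit 1)) .nil))),
 (.br (nat_lit 14) (nat_lit 0) (.cons (.rf (nat_lit 1754) (nat_lit 677582165103132179601393696)) (.cons (.rf (nat_lit 1754) (nat_lit 640105464695078675185502240)) .nil))),
 (.br (nat_lit 14) (nat_lit 0) (.cons (.rf (nat_lit 1755) (nat_lit 677582165103132179601393696)) (.cons (.br (nat_lit 16) (nat_lit 0) (.cons (.br (nat_lit 15) (nat_lit 0) (.cons (.ev (nat_lit 1334420372182311872876176411264549120) (nat_lit 1)) .nil)) (.cons (.ev (nat_lit 2041704586121205974216406416050731877889) (nat_lit 3)) .nil))) .nil))),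
 (.br (nat_lit 14) (nat_lit 0) (.cons (.br (nat_lit 15) (nat_lit 0) (.cons (.ev (nat_lit 5337681170575044821409527468082332167) (nat_lit 3)) (.cons (.rf (nat_lit 58) (nat_lit 631047566413474850)) .nil))) .nil)),
 (.br (nat_lit 15) (nat_lit 0) (.cons (.ev (nat_lit 2689650814767375141962856399158772743) (nat_lit 3)) .nil)),
 (.br (nat_lit 15) (nat_lit 0) (.cons (.kr (nat_lit 10384594955014490695901531602944001) (nat_lit 40564822834080944369932941001216) (nat_lit 0) (nat_lit 12)) (.cons (.br (nat_lit 16) (nat_lit 0) (.cons (.kr (nat_lit 10384593717074377623544961815281665) (nat_lit 158457533954348289820574351360) (nat_lit 0) (nat_lit 1)) (.cons (.ev (nat_lit 1366446379668132680588000255903015371267) (nat_lit 3)) .nil))) .nil))),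
 (.br (nat_lit 12) (nat_lit 0) (.cons (.kr (nat_lit 20282410812577562377649735663872) (nat_lit 79847132570800515878446170112) (nat_lit 1) (nat_lit 0)) (.cons (.br (nat_lit 15) (nat_lit 0) (.cons (.kr (nat_lit 10384594955014490695901531602944001) (nat_lit 40564822834080944369932941001216) (nat_lit 0) (nat_lit 12)) (.cons (.rf (nat_lit 1759) (nat_lit 19926519232773908561233952)) (.cons (.br (nat_lit 15) (nat_lit 0) (.cons (.kr (nat_lit 10384594955014490695901531602944001) (nat_lit 40564822834080944369932941001216) (nat_lit 0) (nat_lit 12)) (.cons (.rf (nat_lit 1759) (nat_lit 19926519232773908561233952)) .nil))) .nil)))) .nil))),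
 (.br (nat_lit 14) (nat_lit 0) (.cons (.kr (nat_lit 2658455992188806524710276374636527617) (nat_lit 40564820416229305140666001654272) (nat_lit 0) (nat_lit 12)) (.cons (.br (nat_lit 16) (nat_lit 0) (.cons (.kr (nat_lit 2658455991571045393993712723187204097) (nat_lit 159075295085064853471973343232) (nat_lit 0) (nat_lit 1)) (.cons (.ev (nat_lit 1361150236871189235183292728954033799687) (nat_lit 3)) .nil))) .nil))),
 (.br (nat_lit 12) (nat_lit 0) (.cons (.kr (nat_lit 20282410812577562377649735663872) (nat_lit 79847132570800515878446170112) (nat_lit 1) (nat_lit 0)) (.cons (.br (nat_lit 14) (nat_lit 0) (.cons (.kr (nat_lit 2658455992188806524710276374636527617) (nat_lit 40564820416229305140666001654272) (nat_lit 0) (nat_lit 12)) (.cons (.rf (nat_lit 1761) (nat_lit 19926519232773908561233952)) (.cons (.br (nat_lit 14) (nat_lit 0) (.cons (.kr (nat_lit 2658455992188806524710276374636527617) (nat_lit 40564820416229305140666001654272) (nat_lit 0) (nat_lit 12)) (.cons (.rf (nat_lit 1761) (nat_lit 19926519232773908561233952)) .nil)))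 .nil)))) .nil)))]

theorem c65 : chkAll C T R L65 (nat_lit 1726) = true := by decide +kernel

theorem l65 : (nat_lit 1726) + L65.length = (nat_lit 1763) := by decide +kernel

/-- part of the certificates -/
def L66 : List Prf := [(.br (nat_lit 15) (nat_lit 0) (.cons (.ev (nat_lit 1361150236871189235183292728954033799687) (nat_lit 3)) (.cons (.ev (nat_lit 5337681488725616028285200721489692163) (nat_lit 3)) .nil))),
 (.br (nat_lit 14) (nat_lit 0) (.cons (.rf (nat_lit 1763) (nat_lit 677582165103132179601393696)) (.cons (.rf (nat_lit 1763) (nat_lit 640105464695078675185502240)) .nil))),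
 (.br (nat_lit 14) (nat_lit 0) (.cons (.rf (nat_lit 1764) (nat_lit 677582165103132179601393696)) (.cons (.br (nat_lit 16) (nat_lit 0) (.cons (.br (nat_lit 15) (nat_lit 0) (.cons (.ev (nat_lit 5337762301451399467664829492978778631) (nat_lit 3)) .nil)) (.cons (.ev (nat_lit 1361150236871189235183292728954033799687) (nat_lit 3)) .nil))) .nil))),
 (.br (nat_lit 12) (nat_lit 0) (.cons (.ev (nat_lit 10384752793587833385656944611557377) (nat_lit 2)) (.cons (.br (nat_lit 13) (nat_lit 0) (.cons (.ev (nat_lit 20282409603670117449500232581121) (nat_lit 1)) (.cons (.br (nat_lit 14) (nat_lit 0) (.cons (.kr (nat_lit 2658455991571045393993712723187204097) (nat_lit 159075295085064853471973343232) (nat_lit 0) (nat_lit 1)) (.cons (.rf (nat_lit 445) (nat_lit 586067405512040282991877)) .nil))) (.cons (.br (nat_lit 14) (nat_lit 0) (.cons (.br (nat_lit 15) (nat_lit 0) (.cons (.ev (nat_lit 1329248357733375992926273476508057857) (nat_lit 1)) (.cons (.rf (nat_lit 11) (nat_lit 631046434789263585)) .nil))) (.cons (.br (nat_lit 16) (nat_lit 0) (.cons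 (.ev (nat_lit 1361202444745484953091734485656710547981) (nat_lit 4)) (.cons (.rf (nat_lit 11) (nat_lit 629954654098430177)) .nil))) (.cons (.br (nat_lit 15) (nat_lit 0) (.cons (.br (nat_lit 15) (nat_lit 0) (.cons (.ev (nat_lit 7985793293560249339794710060239028231) (nat_lit 3)) .nil)) (.cons (.br (nat_lit 15) (nat_lit 0) (.cons (.ev (nat_lit 7985793293560249339794710060239028231) (nat_lit 3)) .nil)) .nil))) .nil)))) .nil)))) .nil))),
 (.br (nat_lit 15) (nat_lit 0) (.cons (.ev (nat_lit 2658496556390262142067526357030666753) (nat_lit 2)) (.cons (.rf (nat_lit 58) (nat_lit 631046501260569634)) .nil))),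
 (.br (nat_lit 12) (nat_lit 0) (.cons (.rf (nat_lit 1767) (nat_lit 19926519232773908561233952)) (.cons (.rf (nat_lit 1767) (nat_lit 18755372345022236548237344)) (.cons (.br (nat_lit 15) (nat_lit 0) (.cons (.br (nat_lit 15) (nat_lit 0) (.cons (.ev (nat_lit 1329248357732171789473140613155193088) (nat_lit 1)) .nil)) (.cons (.br (nat_lit 15) (nat_lit 0) (.cons (.ev (nat_lit 1329248357732171789473140613155193088) (nat_lit 1)) .nil)) .nil))) .nil)))),
 (.br (nat_lit 12) (nat_lit 0) (.cons (.rf (nat_lit 1768) (nat_lit 19926519232773908561233952)) (.cons (.ev (nat_lit 40723895715999698874780260368387) (nat_lit 2)) (.cons (.br (nat_lit 15) (nat_lit 0) (.cons (.rf (nat_lit 15) (nat_lit 596143537677142241)) (.cons (.ev (nat_lit 2658496556390262142067526357030666753) (nat_lit 2)) (.cons (.br (nat_lit 14) (nat_lit 0) (.cons (.br (nat_lit 16) (nat_lit 0) (.cons (.ev (nat_lit 340282387282885719379943940984643059968) (nat_lit 1)) .nil)) (.cons (.kr (nat_lit 174224571863520494506895985103667950780417) (nat_lit 159075295085064853471973343232)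 (nat_lit 0) (nat_lit 1)) .nil))) .nil)))) .nil)))),
 (.br (nat_lit 15) (nat_lit 0) (.cons (.br (nat_lit 16) (nat_lit 0) (.cons (.ev (nat_lit 683223189834066951785262700859169440257) (nat_lit 2)) .nil)) .nil)),
 (.br (nat_lit 16) (nat_lit 0) (.cons (.ev (nat_lit 680575159158870752043688916584704901121) (nat_lit 2)) .nil)),
 (.br (nat_lit 15) (nat_lit 0) (.cons (.kr (nat_lit 680564733841878140574935313466162937857) (nat_lit 159075295085064853471973343232) (nat_lit 0) (nat_lit 1)) (.cons (.br (nat_lit 16) (nat_lit 0) (.cons (.ev (nat_lit 680575159158870752043688916584704901121) (nat_lit 2)) (.cons (.ev (nat_lit 341611594995951546591428037726808572160) (nat_lit 1)) .nil))) .nil))),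
 (.br (nat_lit 14) (nat_lit 0) (.cons (.br (nat_lit 15) (nat_lit 0) (.cons (.ev (nat_lit 344275304052380561642648721026898264577) (nat_lit 2)) (.cons (.rf (nat_lit 515) (nat_lit 19534468522537118703650)) .nil))) (.cons (.br (nat_lit 15) (nat_lit 0) (.cons (.ev (nat_lit 7996178044495704021476228144396633603) (nat_lit 3)) (.cons (.ev (nat_lit 174227240704264856712826992276130496512001) (nat_lit 2)) .nil))) .nil))),
 (.br (nat_lit 14) (nat_lit 0) (.cons (.rf (nat_lit 1773) (nat_lit 677582165103132179601393696)) (.cons (.br (nat_lit 16) (nat_lit 0) (.cons (.br (nat_lit 15) (nat_lit 0) (.cons (.ev (nat_lit 2668840585288115086288377059980870147) (nat_lit 2)) .nil)) (.cons (.ev (nat_lit 350490869082348388778798912127473520215557) (nat_lit 3)) .nil))) .nil))),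
 (.br (nat_lit 13) (nat_lit 0) (.cons (.br (nat_lit 14) (nat_lit 0) (.cons (.kr (nat_lit 10384593717074377623544961815281665) (nat_lit 158457533954348289820574351360) (nat_lit 0) (nat_lit 1)) (.cons (.ev (nat_lit 10425159156460663320187973696356867) (nat_lit 2)) (.cons (.br (nat_lit 12) (nat_lit 0) (.cons (.br (nat_lit 15) (nat_lit 0) (.cons (.ev (nat_lit 1334420372182311872876176411264549120) (nat_lit 1)) (.cons (.rf (nat_lit 20) (nat_lit 596108454237773889)) .nil))) (.cons (.br (nat_lit 15) (nat_lit 0) (.cons (.ev (nat_lit 340282387282885719379943940984643059968) (nat_lit 1)) (.cons (.br (nat_lit 15) (nat_lit 0) (.cons (.ev (nat_lit 340282387282886923583397073847995924737) (nat_lit 1)) .nil)) .nil))) (.cons (.br (nat_lit 15) (nat_lit 0) (.cons (.rf (nat_lit 1770) (nat_lit 677582165103132179601393696)) (.cons (.br (nat_lit 15) (nat_lit 0) (.cons (.rf (nat_lit 1770) (nat_lit 677582165103132179601393696)) .nil)) .nil))) .nil)))) .nil)))) (.cons (.ev (nat_lit 20282409603670117449500232581121) (nat_lit 1)) (.cons (.br (nat_lit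 12) (nat_lit 0) (.cons (.br (nat_lit 14) (nat_lit 0) (.cons (.br (nat_lit 15) (nat_lit 0) (.cons (.ev (nat_lit 7975408858299485786994574262446196231) (nat_lit 3)) (.cons (.rf (nat_lit 20) (nat_lit 631047566515214401)) .nil))) (.cons (.ev (nat_lit 5212658497514641749389540239409408) (nat_lit 1)) (.cons (.br (nat_lit 15) (nat_lit 0) (.cons (.rf (nat_lit 1771) (nat_lit 677582165103132179601393696)) (.cons (.br (nat_lit 15) (nat_lit 0) (.cons (.rf (nat_lit 1771) (nat_lit 677582165103132179601393696)) .nil)) .nil))) .nil)))) (.cons (.br (nat_lit 15) (nat_lit 0) (.cons (.ev (nat_lit 2658456150027370422667068247344414723) (nat_lit 2)) (.cons (.rf (nat_lit 561) (nat_lit 621488541164083689391168)) (.cons (.br (nat_lit 14) (nat_lit 0) (.cons (.br (nat_lit 14) (nat_lit 0) (.cons (.ev (nat_lit 2689650814767375141962856399158772743) (nat_lit 3)) .nil)) (.cons (.br (nat_lit 14) (nat_lit 0) (.cons (.ev (nat_lit 2689650814767375141962856399158772743) (nat_lit 3)) .nil)) .nil))) .nil)))) (.cons (.br (nat_lit 15) (nat_lit 0) (.cons (.rf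 (nat_lit 1772) (nat_lit 19926519232773908561233952)) (.cons (.kr (nat_lit 680564733841878140574935313466162937857) (nat_lit 159075295085064853471973343232) (nat_lit 0) (nat_lit 1)) (.cons (.br (nat_lit 15) (nat_lit 0) (.cons (.rf (nat_lit 1772) (nat_lit 19926519232773908561233952)) (.cons (.kr (nat_lit 680564733841878140574935313466162937857) (nat_lit 159075295085064853471973343232) (nat_lit 0) (nat_lit 1)) .nil))) .nil)))) (.cons (.br (nat_lit 14) (nat_lit 0) (.cons (.rf (nat_lit 1773) (nat_lit 677582165103132179601393696)) (.cons (.rf (nat_lit 1774) (nat_lit 677582165103132179601393696)) (.cons (.br (nat_lit 14) (nat_lit 0) (.cons (.rf (nat_lit 1773) (nat_lit 677582165103132179601393696)) (.cons (.rf (nat_lit 1774) (nat_lit 677582165103132179601393696)) .nil))) .nil)))) .nil))))) .nil)))),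
 (.br (nat_lit 16) (nat_lit 0) (.cons (.ev (nat_lit 680564734000334465603608668990320148483) (nat_lit 2)) (.cons (.ev (nat_lit 1334440575362544084390872021030993920) (nat_lit 1)) (.cons (.ev (nat_lit 680564774406697357323009127100006400513) (nat_lit 2)) .nil)))),
 (.br (nat_lit 13) (nat_lit 0) (.cons (.br (nat_lit 15) (nat_lit 0) (.cons (.ev (nat_lit 680564774406697357323009127100006400513) (nat_lit 2)) (.cons (.rf (nat_lit 1776) (nat_lit 600286470511521826743617568)) .nil))) (.cons (.br (nat_lit 17) (nat_lit 0) (.cons (.ev (nat_lit 174227230319512683318106312491060957282817) (nat_lit 2)) (.cons (.ev (nat_lit 87112285952122195106743921968948889846017) (nat_lit 1)) .nil))) .nil))),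
 (.br (nat_lit 13) (nat_lit 0) (.cons (.rf (nat_lit 1777) (nat_lit 677582165103132179601393696)) (.cons (.br (nat_lit 17) (nat_lit 0) (.cons (.ev (nat_lit 87112285952122193902540468836085536981248) (nat_lit 1)) (.cons (.ev (nat_lit 680564774406697357323009127100006400513) (nat_lit 2)) .nil))) .nil))),
 (.br (nat_lit 12) (nat_lit 0) (.cons (.rf (nat_lit 1775) (nat_lit 583706118939841765935136)) (.cons (.br (nat_lit 15) (nat_lit 0) (.cons (.ev (nat_lit 2658456150027370422667068247344414723) (nat_lit 2)) (.cons (.kr (nat_lit 10384593717074377623544961815281665) (nat_lit 158457533954348289820574351360) (nat_lit 0) (nat_lit 1)) (.cons (.br (nat_lit 14) (nat_lit 0) (.cons (.br (nat_lit 13) (nat_lit 0) (.cons (.ev (nat_lit 7975408540148914580118900974679097859) (nat_lit 3)) (.cons (.rf (nat_lit 20) (nat_lit 630977266488418369)) .nil))) (.cons (.ev (nat_lit 2668840585288115086288377059980870147) (nat_lit 2)) (.cons (.rf (nat_lit 1141) (nat_lit 20675859790684911668289)) .nil)))) .nil)))) (.cons (.br (nat_lit 14) (nat_lit 0) (.cons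 (.br (nat_lit 13) (nat_lit 0) (.cons (.ev (nat_lit 10425159156460663320187973696356867) (nat_lit 2)) (.cons (.ev (nat_lit 40723895715999698874780260368387) (nat_lit 2)) (.cons (.rf (nat_lit 470) (nat_lit 21172119516935699604450373)) .nil)))) (.cons (.br (nat_lit 15) (nat_lit 0) (.cons (.ev (nat_lit 1329227996095614549430332774844203008) (nat_lit 1)) (.cons (.ev (nat_lit 1334420372182311872876176411264549120) (nat_lit 1)) (.cons (.br (nat_lit 13) (nat_lit 0) (.cons (.br (nat_lit 13) (nat_lit 0) (.cons (.rf (nat_lit 1776) (nat_lit 677582165103132179601393696)) .nil)) (.cons (.br (nat_lit 13) (nat_lit 0) (.cons (.rf (nat_lit 1776) (nat_lit 677582165103132179601393696)) .nil)) .nil))) .nil)))) (.cons (.kr (nat_lit 10384593717074377623544961815281665) (nat_lit 158457533954348289820574351360) (nat_lit 0) (nat_lit 1)) (.cons (.br (nat_lit 13) (nat_lit 0) (.cons (.rf (nat_lit 1777) (nat_lit 677582165103132179601393696)) (.cons (.rf (nat_lit 1778) (nat_lit 677582165103132179601393696)) (.cons (.br (nat_lit 13) (nat_lit 0) (.cons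 (.rf (nat_lit 1777) (nat_lit 677582165103132179601393696)) (.cons (.rf (nat_lit 1778) (nat_lit 677582165103132179601393696)) .nil))) .nil)))) .nil))))) .nil)))),
 (.br (nat_lit 13) (nat_lit 0) (.cons (.rf (nat_lit 468) (nat_lit 19851034972504834619638852)) (.cons (.br (nat_lit 14) (nat_lit 0) (.cons (.ev (nat_lit 5212658496300993563293136652927233) (nat_lit 1)) (.cons (.ev (nat_lit 680564774406697357323009127100006400513) (nat_lit 2)) (.cons (.br (nat_lit 15) (nat_lit 0) (.cons (.ev (nat_lit 7975408540148914580118900974679097859) (nat_lit 3)) (.cons (.rf (nat_lit 1316) (nat_lit 21170903214937632251650249)) .nil))) .nil)))) (.cons (.br (nat_lit 15) (nat_lit 0) (.cons (.rf (nat_lit 20) (nat_lit 596040217939679457)) (.cons (.br (nat_lit 14) (nat_lit 0) (.cons (.ev (nat_lit 683223189834066951785262700859169440257) (nat_lit 2)) (.cons (.br (nat_lit 16) (nat_lit 0) (.cons (.ev (nat_lit 341616787213581918886345766927037628416) (nat_lit 1)) .nil)) .nil))) (.cons (.ev (nat_lit 7975408540148914580118900974679097859) (nat_lit 3))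 .nil)))) .nil)))),
 (.br (nat_lit 16) (nat_lit 0) (.cons (.ev (nat_lit 688540223987652191847831974957298089989) (nat_lit 3)) .nil)),
 (.br (nat_lit 13) (nat_lit 0) (.cons (.rf (nat_lit 468) (nat_lit 19851034972504834619638852)) (.cons (.ev (nat_lit 40723895715999698874780260368387) (nat_lit 2)) (.cons (.br (nat_lit 14) (nat_lit 0) (.cons (.rf (nat_lit 1781) (nat_lit 677582165103132179601393696)) (.cons (.br (nat_lit 14) (nat_lit 0) (.cons (.rf (nat_lit 1781) (nat_lit 677582165103132179601393696)) .nil)) .nil))) .nil)))),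
 (.br (nat_lit 13) (nat_lit 0) (.cons (.rf (nat_lit 1780) (nat_lit 19926519232773908561233952)) (.cons (.ev (nat_lit 40723895715999698874780260368387) (nat_lit 2)) (.cons (.br (nat_lit 16) (nat_lit 0) (.cons (.br (nat_lit 14) (nat_lit 0) (.cons (.ev (nat_lit 341616787213583123089798899790390493185) (nat_lit 1)) (.cons (.br (nat_lit 15) (nat_lit 0) (.cons (.ev (nat_lit 1334420372182311872876176411264549120) (nat_lit 1)) .nil)) .nil))) (.cons (.rf (nat_lit 87) (nat_lit 631011351249234978)) (.cons (.ev (nat_lit 680564774406697357323009127100006400513) (nat_lit 2)) .nil)))) .nil)))),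
 (.br (nat_lit 12) (nat_lit 0) (.cons (.rf (nat_lit 1775) (nat_lit 583706118939841765935136)) (.cons (.rf (nat_lit 1779) (nat_lit 583706118939841765935136)) (.cons (.br (nat_lit 13) (nat_lit 0) (.cons (.rf (nat_lit 1780) (nat_lit 19926519232773908561233952)) (.cons (.rf (nat_lit 1782) (nat_lit 19926519232773908561233952)) (.cons (.rf (nat_lit 1783) (nat_lit 19926519232773908561233952)) (.cons (.br (nat_lit 13) (nat_lit 0) (.cons (.rf (nat_lit 1780) (nat_lit 19926519232773908561233952)) (.cons (.rf (nat_lit 1782) (nat_lit 19926519232773908561233952)) (.cons (.rf (nat_lit 1783) (nat_lit 19926519232773908561233952)) .nil)))) .nil))))) .nil)))),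
 (.br (nat_lit 15) (nat_lit 0) (.cons (.ev (nat_lit 2668840585288115086288377059980870147) (nat_lit 2)) (.cons (.br (nat_lit 16) (nat_lit 0) (.cons (.zr (nat_lit 447163752909231411536761741901824) (nat_lit 693908936769549374193440038479379169797) (nat_lit 48) (nat_lit 6)) .nil)) .nil))),
 (.br (nat_lit 14) (nat_lit 0) (.cons (.br (nat_lit 15) (nat_lit 0) (.cons (.ev (nat_lit 340287579500517295878314803048224980993) (nat_lit 1)) (.cons (.br (nat_lit 16) (nat_lit 0) (.cons (.zr (nat_lit 31154098063892079393921136249012231) (nat_lit 683223230399505115014934326219886428672) (nat_lit 16) (nat_lit 2)) .nil)) .nil))) (.cons (.ev (nat_lit 680564774406697357323009127100006400513) (nat_lit 2)) (.cons (.ev (nat_lit 5212658496300993563293136652927233) (nat_lit 1)) .nil))))]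

theorem c66 : chkAll C T R L66 (nat_lit 1763) = true := by decide +kernel

theorem l66 : (nat_lit 1763) + L66.length = (nat_lit 1787) := by decide +kernel

/-- part of the certificates -/
def L67 : List Prf := [(.br (nat_lit 13) (nat_lit 0) (.cons (.br (nat_lit 14) (nat_lit 0) (.cons (.ev (nat_lit 1329227996094400901244236371257720833) (nat_lit 1)) (.cons (.rf (nat_lit 1785) (nat_lit 677582165103132179601393696)) (.cons (.rf (nat_lit 1785) (nat_lit 640105464695078675185502240)) .nil)))) (.cons (.rf (nat_lit 1786) (nat_lit 677582165103132179601393696)) (.cons (.rf (nat_lit 1786) (nat_lit 640105464695078675185502240)) .nil)))),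
 (.br (nat_lit 15) (nat_lit 0) (.cons (.ev (nat_lit 1329227996095614549430332774844203008) (nat_lit 1)) (.cons (.ev (nat_lit 680564774406697357323009127100006400513) (nat_lit 2)) (.cons (.br (nat_lit 16) (nat_lit 0) (.cons (.ev (nat_lit 341611594995952750794881168382514692353) (nat_lit 1)) (.cons (.kr (nat_lit 174224571863520494506895985103667950780417) (nat_lit 159075295085064853471973343232) (nat_lit 0) (nat_lit 1)) .nil))) .nil)))),
 (.br (nat_lit 13) (nat_lit 0) (.cons (.rf (nat_lit 1787) (nat_lit 677582165103132179601393696)) (.cons (.rf (nat_lit 1788) (nat_lit 677582165103132179601393696)) (.cons (.rf (nat_lit 1788) (nat_lit 640105464695078675185502240)) .nil)))),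
 (.br (nat_lit 13) (nat_lit 0) (.cons (.rf (nat_lit 1787) (nat_lit 677582165103132179601393696)) (.cons (.rf (nat_lit 1789) (nat_lit 677582165103132179601393696)) (.cons (.ev (nat_lit 40723895715999698874780260368387) (nat_lit 2)) .nil)))),
 (.br (nat_lit 2) (nat_lit 0) (.cons (.ev (nat_lit 1223092919064341967405569) (nat_lit 2)) (.cons (.rf (nat_lit 1596) (nat_lit 298727627476272192)) (.cons (.kr (nat_lit 1213648186098602626514945) (nat_lit 618970056536178284885442560) (nat_lit 0) (nat_lit 1)) (.cons (.br (nat_lit 6) (nat_lit 0) (.cons (.rf (nat_lit 1533) (nat_lit 402095870462401731)) (.cons (.rf (nat_lit 1720) (nat_lit 402095870462401731)) (.cons (.br (nat_lit 7) (nat_lit 0) (.cons (.ev (nat_lit 1213685223701946761740803) (nat_lit 2)) (.cons (.ev (nat_lit 79229376162450435096658903296) (nat_lit 1)) (.cons (.br (nat_lit 8) (nat_lit 0) (.cons (.ev (nat_lit 1239163242886597934821147139) (nat_lit 3)) (.cons (.br (nat_lit 12) (nat_lit 0) (.cons (.ev (nat_lit 79537652264898909605623562496) (nat_lit 1)) (.cons (.br (nat_lit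 13) (nat_lit 0) (.cons (.ev (nat_lit 284116524789457130540206853062663) (nat_lit 4)) (.cons (.br (nat_lit 14) (nat_lit 0) (.cons (.rf (nat_lit 1721) (nat_lit 583706118939841765935136)) (.cons (.br (nat_lit 14) (nat_lit 0) (.cons (.rf (nat_lit 1721) (nat_lit 583706118939841765935136)) (.cons (.br (nat_lit 15) (nat_lit 0) (.cons (.rf (nat_lit 1722) (nat_lit 677582165103132179601393696)) (.cons (.rf (nat_lit 1722) (nat_lit 640105464695078675185502240)) .nil))) .nil))) .nil))) .nil))) .nil))) (.cons (.br (nat_lit 12) (nat_lit 0) (.cons (.br (nat_lit 13) (nat_lit 0) (.cons (.ev (nat_lit 40723276755461682640728510038017) (nat_lit 2)) (.cons (.br (nat_lit 14) (nat_lit 0) (.cons (.rf (nat_lit 1723) (nat_lit 583706118939841765935136)) (.cons (.br (nat_lit 14) (nat_lit 0) (.cons (.rf (nat_lit 1723) (nat_lit 583706118939841765935136)) (.cons (.rf (nat_lit 47) (nat_lit 18354994921663006616610)) .nil))) .nil))) .nil))) (.cons (.ev (nat_lit 79537652264898909605623562496) (nat_lit 1)) (.cons (.br (nat_lit 13) (nat_lit 0) (.cons (.rf (nat_lit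 1725) (nat_lit 583706118939841765935136)) (.cons (.rf (nat_lit 1727) (nat_lit 583706118939841765935136)) (.cons (.br (nat_lit 13) (nat_lit 0) (.cons (.rf (nat_lit 1725) (nat_lit 583706118939841765935136)) (.cons (.rf (nat_lit 1727) (nat_lit 583706118939841765935136)) (.cons (.br (nat_lit 14) (nat_lit 0) (.cons (.rf (nat_lit 1729) (nat_lit 677582165103132179601393696)) (.cons (.rf (nat_lit 1730) (nat_lit 677582165103132179601393696)) (.cons (.rf (nat_lit 1730) (nat_lit 640105464695078675185502240)) .nil)))) .nil)))) .nil)))) .nil)))) .nil)))) .nil)))) (.cons (.br (nat_lit 7) (nat_lit 0) (.cons (.ev (nat_lit 1213685223701946761740803) (nat_lit 2)) (.cons (.br (nat_lit 8) (nat_lit 0) (.cons (.ev (nat_lit 79538861172343838854654984448) (nat_lit 1)) (.cons (.br (nat_lit 12) (nat_lit 0) (.cons (.ev (nat_lit 318151813226155850495051433475) (nat_lit 3)) (.cons (.br (nat_lit 13) (nat_lit 0) (.cons (.ev (nat_lit 81446552287793840392004509369859) (nat_lit 3)) (.cons (.br (nat_lit 14) (nat_lit 0) (.cons (.rf (nat_lit 1731) (nat_lit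 583706118939841765935136)) (.cons (.br (nat_lit 14) (nat_lit 0) (.cons (.rf (nat_lit 1731) (nat_lit 583706118939841765935136)) (.cons (.br (nat_lit 15) (nat_lit 0) (.cons (.rf (nat_lit 1732) (nat_lit 677582165103132179601393696)) (.cons (.rf (nat_lit 1732) (nat_lit 640105464695078675185502240)) .nil))) .nil))) .nil))) .nil))) .nil))) (.cons (.br (nat_lit 12) (nat_lit 0) (.cons (.br (nat_lit 13) (nat_lit 0) (.cons (.ev (nat_lit 20282409603670117449500232581121) (nat_lit 1)) (.cons (.br (nat_lit 14) (nat_lit 0) (.cons (.rf (nat_lit 1647) (nat_lit 18168207699296160717157)) (.cons (.br (nat_lit 14) (nat_lit 0) (.cons (.rf (nat_lit 1647) (nat_lit 18168207699296160717157)) (.cons (.br (nat_lit 15) (nat_lit 0) (.cons (.rf (nat_lit 1733) (nat_lit 677582165103132179601393696)) (.cons (.rf (nat_lit 1733) (nat_lit 640105464695078675185502240)) .nil))) .nil))) .nil))) .nil))) (.cons (.br (nat_lit 13) (nat_lit 0) (.cons (.ev (nat_lit 5192297168019855968959807306596353) (nat_lit 1)) (.cons (.br (nat_lit 13) (nat_lit 0) (.cons (.ev (nat_lit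 5192297169233504155056210893078528) (nat_lit 1)) (.cons (.br (nat_lit 14) (nat_lit 0) (.cons (.rf (nat_lit 1734) (nat_lit 19459491435985810589728)) (.cons (.rf (nat_lit 1734) (nat_lit 18315793303415818389536)) (.cons (.br (nat_lit 15) (nat_lit 0) (.cons (.br (nat_lit 15) (nat_lit 0) (.cons (.ev (nat_lit 7985793610472899323063962654963270663) (nat_lit 3)) .nil)) (.cons (.br (nat_lit 15) (nat_lit 0) (.cons (.ev (nat_lit 7985793610472899323063962654963270663) (nat_lit 3)) .nil)) .nil))) .nil)))) .nil))) .nil))) (.cons (.br (nat_lit 13) (nat_lit 0) (.cons (.rf (nat_lit 1735) (nat_lit 583706118939841765935136)) (.cons (.rf (nat_lit 1736) (nat_lit 583706118939841765935136)) (.cons (.br (nat_lit 13) (nat_lit 0) (.cons (.rf (nat_lit 1735) (nat_lit 583706118939841765935136)) (.cons (.rf (nat_lit 1736) (nat_lit 583706118939841765935136)) (.cons (.br (nat_lit 14) (nat_lit 0) (.cons (.rf (nat_lit 1738) (nat_lit 677582165103132179601393696)) (.cons (.rf (nat_lit 1739) (nat_lit 677582165103132179601393696)) (.cons (.rf (nat_lit 1739)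 (nat_lit 640105464695078675185502240)) .nil)))) .nil)))) .nil)))) .nil)))) .nil)))) (.cons (.br (nat_lit 13) (nat_lit 0) (.cons (.ev (nat_lit 81130877596665535479266540519943) (nat_lit 3)) (.cons (.ev (nat_lit 20282720297587311665120127549441) (nat_lit 1)) (.cons (.br (nat_lit 8) (nat_lit 0) (.cons (.br (nat_lit 12) (nat_lit 0) (.cons (.ev (nat_lit 122489835358097237863060652296199) (nat_lit 4)) (.cons (.br (nat_lit 14) (nat_lit 0) (.cons (.rf (nat_lit 1740) (nat_lit 583706118939841765935136)) (.cons (.br (nat_lit 14) (nat_lit 0) (.cons (.rf (nat_lit 1740) (nat_lit 583706118939841765935136)) (.cons (.br (nat_lit 15) (nat_lit 0) (.cons (.rf (nat_lit 1741) (nat_lit 677582165103132179601393696)) (.cons (.rf (nat_lit 1741) (nat_lit 640105464695078675185502240)) .nil))) .nil))) .nil))) .nil))) (.cons (.br (nat_lit 12) (nat_lit 0) (.cons (.ev (nat_lit 31194347209588846482354158109328897) (nat_lit 3)) (.cons (.br (nat_lit 12) (nat_lit 0) (.cons (.ev (nat_lit 31194347209588846482354158109328897) (nat_lit 3)) (.cons (.br (nat_lit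 14) (nat_lit 0) (.cons (.rf (nat_lit 1742) (nat_lit 19926519232773908561233952)) (.cons (.rf (nat_lit 1742) (nat_lit 18755372345022236548237344)) (.cons (.br (nat_lit 15) (nat_lit 0) (.cons (.br (nat_lit 15) (nat_lit 0) (.cons (.ev (nat_lit 1334420371871617955681960791369580800) (nat_lit 1)) .nil)) (.cons (.br (nat_lit 15) (nat_lit 0) (.cons (.ev (nat_lit 1334420371871617955681960791369580800) (nat_lit 1)) .nil)) .nil))) .nil)))) .nil))) .nil))) (.cons (.br (nat_lit 12) (nat_lit 0) (.cons (.rf (nat_lit 1743) (nat_lit 583706118939841765935136)) (.cons (.rf (nat_lit 1745) (nat_lit 583706118939841765935136)) (.cons (.br (nat_lit 12) (nat_lit 0) (.cons (.rf (nat_lit 1743) (nat_lit 583706118939841765935136)) (.cons (.rf (nat_lit 1745) (nat_lit 583706118939841765935136)) (.cons (.br (nat_lit 14) (nat_lit 0) (.cons (.rf (nat_lit 1747) (nat_lit 677582165103132179601393696)) (.cons (.rf (nat_lit 1748) (nat_lit 677582165103132179601393696)) (.cons (.rf (nat_lit 1748) (nat_lit 640105464695078675185502240)) .nil)))) .nil)))) .nil))))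 .nil)))) .nil)))) (.cons (.br (nat_lit 8) (nat_lit 0) (.cons (.br (nat_lit 12) (nat_lit 0) (.cons (.br (nat_lit 13) (nat_lit 0) (.cons (.ev (nat_lit 203303180102074056143646707550209) (nat_lit 4)) (.cons (.br (nat_lit 14) (nat_lit 0) (.cons (.rf (nat_lit 1749) (nat_lit 583706118939841765935136)) (.cons (.br (nat_lit 14) (nat_lit 0) (.cons (.rf (nat_lit 1749) (nat_lit 583706118939841765935136)) (.cons (.rf (nat_lit 837) (nat_lit 601456401857504292346366176)) .nil))) .nil))) .nil))) (.cons (.ev (nat_lit 79228167255149623234760016128) (nat_lit 1)) (.cons (.br (nat_lit 13) (nat_lit 0) (.cons (.rf (nat_lit 1751) (nat_lit 583706118939841765935136)) (.cons (.rf (nat_lit 1753) (nat_lit 583706118939841765935136)) (.cons (.br (nat_lit 13) (nat_lit 0) (.cons (.rf (nat_lit 1751) (nat_lit 583706118939841765935136)) (.cons (.rf (nat_lit 1753) (nat_lit 583706118939841765935136)) (.cons (.br (nat_lit 14) (nat_lit 0) (.cons (.rf (nat_lit 1755) (nat_lit 677582165103132179601393696)) (.cons (.rf (nat_lit 1756) (nat_lit 677582165103132179601393696))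 (.cons (.rf (nat_lit 1756) (nat_lit 640105464695078675185502240)) .nil)))) .nil)))) .nil)))) .nil)))) (.cons (.br (nat_lit 13) (nat_lit 0) (.cons (.br (nat_lit 12) (nat_lit 0) (.cons (.ev (nat_lit 81447790246796378684450806957575) (nat_lit 3)) (.cons (.br (nat_lit 14) (nat_lit 0) (.cons (.rf (nat_lit 1757) (nat_lit 583706118939841765935136)) (.cons (.br (nat_lit 14) (nat_lit 0) (.cons (.rf (nat_lit 1757) (nat_lit 583706118939841765935136)) (.cons (.br (nat_lit 15) (nat_lit 0) (.cons (.rf (nat_lit 1758) (nat_lit 677582165103132179601393696)) (.cons (.rf (nat_lit 1758) (nat_lit 640105464695078675185502240)) .nil))) .nil))) .nil))) .nil))) (.cons (.ev (nat_lit 81129639637810571148205878149635) (nat_lit 3)) (.cons (.br (nat_lit 12) (nat_lit 0) (.cons (.rf (nat_lit 1760) (nat_lit 583706118939841765935136)) (.cons (.rf (nat_lit 1762) (nat_lit 583706118939841765935136)) (.cons (.br (nat_lit 12) (nat_lit 0) (.cons (.rf (nat_lit 1760) (nat_lit 583706118939841765935136)) (.cons (.rf (nat_lit 1762) (nat_lit 583706118939841765935136))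 (.cons (.br (nat_lit 14) (nat_lit 0) (.cons (.rf (nat_lit 1764) (nat_lit 677582165103132179601393696)) (.cons (.rf (nat_lit 1765) (nat_lit 677582165103132179601393696)) (.cons (.rf (nat_lit 1765) (nat_lit 640105464695078675185502240)) .nil)))) .nil)))) .nil)))) .nil)))) (.cons (.br (nat_lit 13) (nat_lit 0) (.cons (.rf (nat_lit 1766) (nat_lit 17022140995484340291616)) (.cons (.ev (nat_lit 5192296859743753520485298341937153) (nat_lit 1)) (.cons (.br (nat_lit 13) (nat_lit 0) (.cons (.rf (nat_lit 1766) (nat_lit 17022140995484340291616)) (.cons (.ev (nat_lit 5192296859743753520485298341937153) (nat_lit 1)) (.cons (.br (nat_lit 12) (nat_lit 0) (.cons (.rf (nat_lit 1768) (nat_lit 19926519232773908561233952)) (.cons (.rf (nat_lit 1769) (nat_lit 19926519232773908561233952)) (.cons (.rf (nat_lit 1769) (nat_lit 18755372345022236548237344)) (.cons (.br (nat_lit 12) (nat_lit 0) (.cons (.rf (nat_lit 1768) (nat_lit 19926519232773908561233952)) (.cons (.rf (nat_lit 1769) (nat_lit 19926519232773908561233952)) (.cons (.rf (nat_lit 1769)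 (nat_lit 18755372345022236548237344)) .nil)))) .nil))))) .nil)))) .nil)))) (.cons (.br (nat_lit 12) (nat_lit 0) (.cons (.rf (nat_lit 1775) (nat_lit 583706118939841765935136)) (.cons (.rf (nat_lit 1779) (nat_lit 583706118939841765935136)) (.cons (.rf (nat_lit 1784) (nat_lit 583706118939841765935136)) (.cons (.br (nat_lit 12) (nat_lit 0) (.cons (.rf (nat_lit 1775) (nat_lit 583706118939841765935136)) (.cons (.rf (nat_lit 1779) (nat_lit 583706118939841765935136)) (.cons (.rf (nat_lit 1784) (nat_lit 583706118939841765935136)) (.cons (.br (nat_lit 13) (nat_lit 0) (.cons (.rf (nat_lit 1787) (nat_lit 677582165103132179601393696)) (.cons (.rf (nat_lit 1789) (nat_lit 677582165103132179601393696)) (.cons (.rf (nat_lit 1790) (nat_lit 677582165103132179601393696)) (.cons (.rf (nat_lit 1790) (nat_lit 640105464695078675185502240)) .nil))))) .nil))))) .nil))))) .nil))))) .nil))))) .nil))))) .nil))))),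
 (.br (nat_lit 14) (nat_lit 0) (.cons (.br (nat_lit 15) (nat_lit 0) (.cons (.ev (nat_lit 7985752885340456969017430970227491331) (nat_lit 3)) (.cons (.rf (nat_lit 180) (nat_lit 631046501363293249)) .nil))) .nil)),
 (.br (nat_lit 15) (nat_lit 0) (.cons (.ev (nat_lit 2658496557009222716977813713699602433) (nat_lit 2)) (.cons (.rf (nat_lit 180) (nat_lit 631047566384111681)) .nil))),
 (.br (nat_lit 14) (nat_lit 0) (.cons (.br (nat_lit 14) (nat_lit 0) (.cons (.ev (nat_lit 5212658496301012010318685339189248) (nat_lit 1)) .nil)) (.cons (.br (nat_lit 14) (nat_lit 0) (.cons (.ev (nat_lit 5212658496301012010318685339189248) (nat_lit 1)) .nil)) .nil))),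
 (.br (nat_lit 14) (nat_lit 0) (.cons (.ev (nat_lit 10384752793587833385659152191193091) (nat_lit 2)) (.cons (.br (nat_lit 13) (nat_lit 0) (.cons (.br (nat_lit 15) (nat_lit 0) (.cons (.ev (nat_lit 2689609773341243379555114265134497797) (nat_lit 3)) (.cons (.rf (nat_lit 284) (nat_lit 630975069512992811)) .nil))) (.cons (.br (nat_lit 15) (nat_lit 0) (.cons (.ev (nat_lit 2041704586436261742511842233199154692611) (nat_lit 3)) (.cons (.br (nat_lit 15) (nat_lit 0) (.cons (.ev (nat_lit 2041704586436261742511842233199154692611) (nat_lit 3)) .nil)) .nil))) (.cons (.rf (nat_lit 793) (nat_lit 20003294643499233057016032)) .nil)))) .nil))),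
 (.br (nat_lit 14) (nat_lit 0) (.cons (.br (nat_lit 16) (nat_lit 0) (.cons (.ev (nat_lit 88137125970210036976618558069804122703104) (nat_lit 3)) .nil)) .nil)),
 (.br (nat_lit 13) (nat_lit 0) (.cons (.rf (nat_lit 1795) (nat_lit 583706118939841765935136)) (.cons (.br (nat_lit 15) (nat_lit 0) (.cons (.rf (nat_lit 791) (nat_lit 621558899769492672354531)) (.cons (.ev (nat_lit 2658496556390262142067528564610302467) (nat_lit 2)) (.cons (.br (nat_lit 14) (nat_lit 0) (.cons (.rf (nat_lit 1796) (nat_lit 677582165103132179601393696)) (.cons (.br (nat_lit 14) (nat_lit 0) (.cons (.rf (nat_lit 1796) (nat_lit 677582165103132179601393696)) .nil)) .nil))) .nil)))) .nil))),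
 (.br (nat_lit 16) (nat_lit 0) (.cons (.ev (nat_lit 341611594995951546572981574024269135873) (nat_lit 1)) (.cons (.ev (nat_lit 680564774407316317897919414456675336193) (nat_lit 2)) .nil))),
 (.br (nat_lit 14) (nat_lit 0) (.cons (.rf (nat_lit 1798) (nat_lit 677582165103132179601393696)) (.cons (.rf (nat_lit 1798) (nat_lit 640105464695078675185502240)) .nil)))]

theorem c67 : chkAll C T R L67 (nat_lit 1787) = true := by decide +kernel

theorem l67 : (nat_lit 1787) + L67.length = (nat_lit 1800) := by decide +kernel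

/-- part of the certificates -/
def L68 : List Prf := [(.br (nat_lit 14) (nat_lit 0) (.cons (.rf (nat_lit 1799) (nat_lit 677582165103132179601393696)) (.cons (.br (nat_lit 16) (nat_lit 0) (.cons (.br (nat_lit 15) (nat_lit 0) (.cons (.ev (nat_lit 2689609773341243379555114265134497797) (nat_lit 3)) .nil)) (.cons (.ev (nat_lit 680564774407316317897919414456675336193) (nat_lit 2)) .nil))) .nil))),
 (.br (nat_lit 7) (nat_lit 0) (.cons (.ev (nat_lit 79229371440156292395539890176) (nat_lit 1)) (.cons (.ev (nat_lit 620183667829351698636341249) (nat_lit 2)) (.cons (.br (nat_lit 11) (nat_lit 0) (.cons (.ev (nat_lit 316913892076337527615886983683) (nat_lit 3)) (.cons (.ev (nat_lit 79538861172343837759421546753) (nat_lit 1)) (.cons (.br (nat_lit 8) (nat_lit 0) (.cons (.br (nat_lit 13) (nat_lit 0) (.cons (.zr (nat_lit 794144579978243472113453236227) (nat_lit 121694457664411466142692925375488) (nat_lit 16) (nat_lit 1)) (.cons (.br (nat_lit 14) (nat_lit 0) (.cons (.rf (nat_lit 1792) (nat_lit 583706118939841765935136)) (.cons (.br (nat_lit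 14) (nat_lit 0) (.cons (.rf (nat_lit 1792) (nat_lit 583706118939841765935136)) (.cons (.rf (nat_lit 933) (nat_lit 18795512564730656981125477)) .nil))) .nil))) .nil))) (.cons (.br (nat_lit 13) (nat_lit 0) (.cons (.ev (nat_lit 10384752174608369009438126474527233) (nat_lit 2)) (.cons (.br (nat_lit 13) (nat_lit 0) (.cons (.ev (nat_lit 10384752174608369009438126474527233) (nat_lit 2)) (.cons (.br (nat_lit 14) (nat_lit 0) (.cons (.rf (nat_lit 1793) (nat_lit 19926519232773908561233952)) (.cons (.rf (nat_lit 1793) (nat_lit 18755372345022236548237344)) (.cons (.rf (nat_lit 1794) (nat_lit 21174442659436561260709920)) .nil)))) .nil))) .nil))) (.cons (.br (nat_lit 13) (nat_lit 0) (.cons (.rf (nat_lit 1795) (nat_lit 583706118939841765935136)) (.cons (.rf (nat_lit 1797) (nat_lit 583706118939841765935136)) (.cons (.br (nat_lit 13) (nat_lit 0) (.cons (.rf (nat_lit 1795) (nat_lit 583706118939841765935136)) (.cons (.rf (nat_lit 1797) (nat_lit 583706118939841765935136)) (.cons (.br (nat_lit 14) (nat_lit 0) (.cons (.rf (nat_lit 1799) (nat_lit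 677582165103132179601393696)) (.cons (.rf (nat_lit 1800) (nat_lit 677582165103132179601393696)) (.cons (.rf (nat_lit 1800) (nat_lit 640105464695078675185502240)) .nil)))) .nil)))) .nil)))) .nil)))) .nil)))) .nil)))),
 (.br (nat_lit 14) (nat_lit 0) (.cons (.br (nat_lit 15) (nat_lit 0) (.cons (.ev (nat_lit 1344805044816859606830376209973706754) (nat_lit 2)) (.cons (.rf (nat_lit 180) (nat_lit 631046501362309185)) .nil))) .nil)),
 (.br (nat_lit 15) (nat_lit 0) (.cons (.ev (nat_lit 7985793293560221042344066516087211011) (nat_lit 3)) .nil)),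
 (.br (nat_lit 11) (nat_lit 0) (.cons (.ev (nat_lit 1239153761403135518090593799) (nat_lit 3)) (.cons (.br (nat_lit 13) (nat_lit 0) (.cons (.ev (nat_lit 121856010057983123153550567409671) (nat_lit 4)) (.cons (.br (nat_lit 14) (nat_lit 0) (.cons (.rf (nat_lit 1802) (nat_lit 583706118939841765935136)) (.cons (.br (nat_lit 14) (nat_lit 0) (.cons (.rf (nat_lit 1802) (nat_lit 583706118939841765935136)) (.cons (.br (nat_lit 15) (nat_lit 0) (.cons (.rf (nat_lit 1803) (nat_lit 677582165103132179601393696)) (.cons (.rf (nat_lit 1803) (nat_lit 640105464695078675185502240)) .nil))) .nil))) .nil))) .nil))) .nil))),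
 (.br (nat_lit 15) (nat_lit 0) (.cons (.ev (nat_lit 5337762301451371170214185948693267971) (nat_lit 3)) (.cons (.rf (nat_lit 170) (nat_lit 596075434529202241)) .nil))),
 (.br (nat_lit 15) (nat_lit 0) (.cons (.br (nat_lit 16) (nat_lit 0) (.cons (.ev (nat_lit 88820369969636656960597965336525746407172) (nat_lit 3)) .nil)) .nil)),
 (.br (nat_lit 13) (nat_lit 0) (.cons (.ev (nat_lit 20850633986436585837985168156393991) (nat_lit 3)) (.cons (.ev (nat_lit 81447790218425142181681204430339) (nat_lit 3)) (.cons (.br (nat_lit 14) (nat_lit 0) (.cons (.ev (nat_lit 20769505585961944941793454590133767) (nat_lit 3)) (.cons (.br (nat_lit 16) (nat_lit 0) (.cons (.kr (nat_lit 40565438177359877026179371237377) (nat_lit 680564733841878140574935313466179715072) (nat_lit 0) (nat_lit 1)) (.cons (.rf (nat_lit 175) (nat_lit 629888647674725606)) .nil))) (.cons (.br (nat_lit 15) (nat_lit 0) (.cons (.br (nat_lit 15) (nat_lit 0) (.cons (.ev (nat_lit 5337762301451371170214185948693267971) (nat_lit 3)) .nil)) (.cons (.br (nat_lit 15) (nat_lit 0) (.cons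 (.ev (nat_lit 5337762301451371170214185948693267971) (nat_lit 3)) .nil)) .nil))) .nil)))) .nil)))),
 (.br (nat_lit 14) (nat_lit 0) (.cons (.ev (nat_lit 340297984535099099455050800462141981441) (nat_lit 2)) (.cons (.br (nat_lit 15) (nat_lit 0) (.cons (.ev (nat_lit 344270091631568748154985515477773647872) (nat_lit 2)) (.cons (.ev (nat_lit 5337762617126081114488531614030758407) (nat_lit 3)) .nil))) .nil))),
 (.br (nat_lit 15) (nat_lit 0) (.cons (.kr (nat_lit 680564733841878140574935313466162937857) (nat_lit 159075295085064853471973343232) (nat_lit 0) (nat_lit 1)) (.cons (.ev (nat_lit 5337762617126081114488531614030758407) (nat_lit 3)) .nil))),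
 (.br (nat_lit 14) (nat_lit 0) (.cons (.rf (nat_lit 1809) (nat_lit 677582165103132179601393696)) (.cons (.rf (nat_lit 1809) (nat_lit 640105428948706433984109763)) .nil))),
 (.br (nat_lit 14) (nat_lit 0) (.cons (.rf (nat_lit 1810) (nat_lit 677582165103132179601393696)) (.cons (.br (nat_lit 15) (nat_lit 0) (.cons (.kr (nat_lit 680564733841878140574935313466162937857) (nat_lit 159075295085064853471973343232) (nat_lit 0) (nat_lit 1)) (.cons (.kr (nat_lit 40565438177359877026179371237377) (nat_lit 174224571863520494506895985103667967557632) (nat_lit 0) (nat_lit 1)) .nil))) .nil))),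
 (.br (nat_lit 15) (nat_lit 0) (.cons (.ev (nat_lit 1365716289274846818920147721279308034) (nat_lit 3)) .nil)),
 (.br (nat_lit 15) (nat_lit 0) (.cons (.ev (nat_lit 2658496556390252734372166152224768513) (nat_lit 2)) (.cons (.rf (nat_lit 180) (nat_lit 631047566350621761)) .nil))),
 (.br (nat_lit 15) (nat_lit 0) (.cons (.br (nat_lit 16) (nat_lit 0) (.cons (.ev (nat_lit 87112301569578211306383127981425606787841) (nat_lit 2)) .nil)) .nil)),
 (.br (nat_lit 14) (nat_lit 0) (.cons (.ev (nat_lit 10384752793587833385656944611557377) (nat_lit 2)) (.cons (.br (nat_lit 13) (nat_lit 0) (.cons (.br (nat_lit 15) (nat_lit 0) (.cons (.ev (nat_lit 1334420372182311872876176411264549120) (nat_lit 1)) (.cons (.rf (nat_lit 284) (nat_lit 630975069612673063)) .nil))) (.cons (.br (nat_lit 15) (nat_lit 0) (.cons (.ev (nat_lit 340287559297334650555902048637544366337) (nat_lit 1)) (.cons (.br (nat_lit 15) (nat_lit 0) (.cons (.ev (nat_lit 340287559297335854759355179293250486528) (nat_lit 1)) .nil)) .nil))) (.cons (.br (nat_lit 15) (nat_lit 0) (.cons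 (.rf (nat_lit 1814) (nat_lit 677582165103132179601393696)) (.cons (.br (nat_lit 15) (nat_lit 0) (.cons (.rf (nat_lit 1814) (nat_lit 677582165103132179601393696)) .nil)) .nil))) .nil)))) .nil))),
 (.br (nat_lit 13) (nat_lit 0) (.cons (.rf (nat_lit 1815) (nat_lit 583706118939841765935136)) (.cons (.br (nat_lit 15) (nat_lit 0) (.cons (.br (nat_lit 14) (nat_lit 0) (.cons (.zr (nat_lit 31154257140367719188247988207093760) (nat_lit 2658577686027453840585830016877854721) (nat_lit 16) (nat_lit 1)) (.cons (.rf (nat_lit 284) (nat_lit 631045402794395686)) .nil))) (.cons (.ev (nat_lit 2658496556390262142067526357030666753) (nat_lit 2)) (.cons (.rf (nat_lit 1192) (nat_lit 19533281824035306736705)) .nil)))) .nil))),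
 (.br (nat_lit 16) (nat_lit 0) (.cons (.ev (nat_lit 683243959020882140002351128211058065927) (nat_lit 3)) (.cons (.ev (nat_lit 680564774406697347915313766895200502273) (nat_lit 2)) .nil))),
 (.br (nat_lit 14) (nat_lit 0) (.cons (.rf (nat_lit 1817) (nat_lit 677582165103132179601393696)) (.cons (.rf (nat_lit 1817) (nat_lit 640105464695078675185502240)) .nil))),
 (.br (nat_lit 14) (nat_lit 0) (.cons (.rf (nat_lit 1818) (nat_lit 677582165103132179601393696)) (.cons (.br (nat_lit 16) (nat_lit 0) (.cons (.br (nat_lit 15) (nat_lit 0) (.cons (.ev (nat_lit 1334420372182311872876176411264549120) (nat_lit 1)) .nil)) (.cons (.ev (nat_lit 680564774406697347915313766895200502273) (nat_lit 2)) .nil))) .nil))),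
 (.br (nat_lit 11) (nat_lit 0) (.cons (.br (nat_lit 13) (nat_lit 0) (.cons (.ev (nat_lit 20282409608374109246989734510593) (nat_lit 1)) (.cons (.br (nat_lit 14) (nat_lit 0) (.cons (.rf (nat_lit 656) (nat_lit 18240810481887364678720)) (.cons (.br (nat_lit 14) (nat_lit 0) (.cons (.rf (nat_lit 656) (nat_lit 18240810481887364678720)) (.cons (.br (nat_lit 15) (nat_lit 0) (.cons (.rf (nat_lit 1812) (nat_lit 677582165103132179601393696)) (.cons (.rf (nat_lit 1812) (nat_lit 640105464695078675185502240)) .nil))) .nil))) .nil))) .nil))) (.cons (.br (nat_lit 13) (nat_lit 0) (.cons (.ev (nat_lit 10384752793578351615090068816003073) (nat_lit 2)) (.cons (.br (nat_lit 13) (nat_lit 0) (.cons (.ev (nat_lit 10384752793578351615090068816003073) (nat_lit 2)) (.cons (.br (nat_lit 14) (nat_lit 0) (.cons (.rf (nat_lit 1813) (nat_lit 19926519232773908561233952)) (.cons (.rf (nat_lit 1813) (nat_lit 18755372345022236548237344)) (.cons (.br (nat_lit 15) (nat_lit 0) (.cons (.br (nat_lit 15) (nat_lit 0) (.cons (.ev (nat_lit 7985793293560221042344066516087211011)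 (nat_lit 3)) .nil)) (.cons (.br (nat_lit 15) (nat_lit 0) (.cons (.ev (nat_lit 7985793293560221042344066516087211011) (nat_lit 3)) .nil)) .nil))) .nil)))) .nil))) .nil))) (.cons (.br (nat_lit 13) (nat_lit 0) (.cons (.rf (nat_lit 1815) (nat_lit 583706118939841765935136)) (.cons (.rf (nat_lit 1816) (nat_lit 583706118939841765935136)) (.cons (.br (nat_lit 13) (nat_lit 0) (.cons (.rf (nat_lit 1815) (nat_lit 583706118939841765935136)) (.cons (.rf (nat_lit 1816) (nat_lit 583706118939841765935136)) (.cons (.br (nat_lit 14) (nat_lit 0) (.cons (.rf (nat_lit 1818) (nat_lit 677582165103132179601393696)) (.cons (.rf (nat_lit 1819) (nat_lit 677582165103132179601393696)) (.cons (.rf (nat_lit 1819) (nat_lit 640105464695078675185502240)) .nil)))) .nil)))) .nil)))) .nil)))),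
 (.br (nat_lit 15) (nat_lit 0) (.cons (.br (nat_lit 16) (nat_lit 0) (.cons (.ev (nat_lit 1369136111294386628813038309602188592135) (nat_lit 3)) .nil)) .nil)),
 (.br (nat_lit 14) (nat_lit 0) (.cons (.br (nat_lit 15) (nat_lit 0) (.cons (.ev (nat_lit 2668840585907085068894026811855470593) (nat_lit 2)) (.cons (.rf (nat_lit 180) (nat_lit 631045402785056006)) .nil))) .nil)),
 (.br (nat_lit 15) (nat_lit 0) (.cons (.ev (nat_lit 1344825406767737560045610385279222019) (nat_lit 2)) .nil)),
 (.br (nat_lit 14) (nat_lit 0) (.cons (.kr (nat_lit 2658455991571045393993712723187204097) (nat_lit 159075295085064853471973343232) (nat_lit 0) (nat_lit 1)) (.cons (.rf (nat_lit 1328) (nat_lit 622667979722558803160133)) .nil))),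
 (.br (nat_lit 15) (nat_lit 0) (.cons (.ev (nat_lit 7985793293560221042344066516087211011) (nat_lit 3)) .nil)),
 (.br (nat_lit 15) (nat_lit 0) (.cons (.ev (nat_lit 10384752174608369009440316941402627) (nat_lit 2)) (.cons (.br (nat_lit 16) (nat_lit 0) (.cons (.ev (nat_lit 4763974068502639833270795979504059547661) (nat_lit 4)) (.cons (.ev (nat_lit 688540182946226059974743205431096640003) (nat_lit 3)) .nil))) .nil))),
 (.br (nat_lit 15) (nat_lit 0) (.cons (.ev (nat_lit 1334420371872822140688347377677893888) (nat_lit 1)) .nil)),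
 (.br (nat_lit 13) (nat_lit 0) (.cons (.rf (nat_lit 1827) (nat_lit 19926519232773908561233952)) (.cons (.br (nat_lit 13) (nat_lit 0) (.cons (.rf (nat_lit 1827) (nat_lit 19926519232773908561233952)) .nil)) .nil))),
 (.br (nat_lit 15) (nat_lit 0) (.cons (.br (nat_lit 14) (nat_lit 0) (.cons (.ev (nat_lit 688560871322172393664383163457177912835) (nat_lit 3)) (.cons (.br (nat_lit 16) (nat_lit 0) (.cons (.ev (nat_lit 680575118436214189731606198828673269761) (nat_lit 2)) .nil)) .nil))) (.cons (.ev (nat_lit 1329248357423890964730523403071520768) (nat_lit 1)) .nil))),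
 (.br (nat_lit 14) (nat_lit 0) (.cons (.rf (nat_lit 1829) (nat_lit 677582165103132179601393696)) (.cons (.br (nat_lit 16) (nat_lit 0) (.cons (.br (nat_lit 15) (nat_lit 0) (.cons (.ev (nat_lit 696577939773189641764060472949995079693) (nat_lit 4)) .nil)) (.cons (.ev (nat_lit 174224571904085932693700739773724658499587) (nat_lit 2)) .nil))) .nil)))]

theorem c68 : chkAll C T R L68 (nat_lit 1800) = true := by decide +kernel

theorem l68 : (nat_lit 1800) + L68.length = (nat_lit 1831) := by decide +kernel

/-- part of the certificates -/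
def L69 : List Prf := [(.br (nat_lit 12) (nat_lit 0) (.cons (.rf (nat_lit 1820) (nat_lit 15878333689072972825664)) (.cons (.ev (nat_lit 40723276755424788589631171068417) (nat_lit 2)) (.cons (.br (nat_lit 11) (nat_lit 0) (.cons (.ev (nat_lit 40723276746017093225028318659073) (nat_lit 2)) (.cons (.ev (nat_lit 10384752174617776704800521680192003) (nat_lit 2)) (.cons (.br (nat_lit 13) (nat_lit 0) (.cons (.ev (nat_lit 10425158537500088699261299688736257) (nat_lit 3)) (.cons (.ev (nat_lit 20282720297605758127718877167873) (nat_lit 1)) (.cons (.br (nat_lit 14) (nat_lit 0) (.cons (.ev (nat_lit 5192297169233485708030662223593728) (nat_lit 1)) (.cons (.br (nat_lit 16) (nat_lit 0) (.cons (.ev (nat_lit 680564774407316327379689983522870657027) (nat_lit 2)) (.cons (.rf (nat_lit 175) (nat_lit 629888647674692870)) .nil))) (.cons (.br (nat_lit 15) (nat_lit 0) (.cons (.rf (nat_lit 1821) (nat_lit 677582165103132179601393696)) (.cons (.br (nat_lit 15) (nat_lit 0) (.cons (.rf (nat_lit 1821) (nat_lit 677582165103132179601393696)) .nil)) .nil)))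 .nil)))) .nil)))) .nil)))) (.cons (.br (nat_lit 11) (nat_lit 0) (.cons (.br (nat_lit 14) (nat_lit 0) (.cons (.rf (nat_lit 1822) (nat_lit 583706118939841765935136)) (.cons (.br (nat_lit 14) (nat_lit 0) (.cons (.rf (nat_lit 1822) (nat_lit 583706118939841765935136)) (.cons (.br (nat_lit 15) (nat_lit 0) (.cons (.rf (nat_lit 1823) (nat_lit 677582165103132179601393696)) (.cons (.rf (nat_lit 1823) (nat_lit 640105464695078675185502240)) .nil))) .nil))) .nil))) (.cons (.br (nat_lit 13) (nat_lit 0) (.cons (.ev (nat_lit 20282720297605758127718877167873) (nat_lit 1)) (.cons (.rf (nat_lit 1824) (nat_lit 583706118939841765935136)) (.cons (.br (nat_lit 14) (nat_lit 0) (.cons (.rf (nat_lit 1328) (nat_lit 622703721380985556869156)) (.cons (.br (nat_lit 16) (nat_lit 0) (.cons (.ev (nat_lit 1361202444745484896496837702168034279941) (nat_lit 4)) (.cons (.rf (nat_lit 170) (nat_lit 560012553718111494)) .nil))) (.cons (.br (nat_lit 15) (nat_lit 0) (.cons (.rf (nat_lit 1825) (nat_lit 677582165103132179601393696)) (.cons (.rf (nat_lit 1825) (nat_lit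 640104320887772263818036288)) .nil))) .nil)))) .nil)))) (.cons (.br (nat_lit 13) (nat_lit 0) (.cons (.br (nat_lit 14) (nat_lit 0) (.cons (.ev (nat_lit 10384752174608369009440316941402627) (nat_lit 2)) (.cons (.rf (nat_lit 262) (nat_lit 19348814236880553187689)) .nil))) (.cons (.ev (nat_lit 20282720297605758127718877167873) (nat_lit 1)) (.cons (.br (nat_lit 15) (nat_lit 0) (.cons (.br (nat_lit 14) (nat_lit 0) (.cons (.ev (nat_lit 13302948985003715158321895594240246791) (nat_lit 4)) (.cons (.rf (nat_lit 167) (nat_lit 631013481553172545)) .nil))) (.cons (.ev (nat_lit 2658496557009222716977815904166477827) (nat_lit 2)) (.cons (.rf (nat_lit 1330) (nat_lit 20002152068945498607886372)) .nil)))) .nil)))) (.cons (.br (nat_lit 13) (nat_lit 0) (.cons (.br (nat_lit 15) (nat_lit 0) (.cons (.ev (nat_lit 10384752174608369009440316941402627) (nat_lit 2)) (.cons (.rf (nat_lit 1826) (nat_lit 19926519232773908561233952)) (.cons (.br (nat_lit 15) (nat_lit 0) (.cons (.ev (nat_lit 10384752174608369009440316941402627) (nat_lit 2)) (.cons (.rf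 (nat_lit 1826) (nat_lit 19926519232773908561233952)) .nil))) .nil)))) (.cons (.br (nat_lit 15) (nat_lit 0) (.cons (.br (nat_lit 14) (nat_lit 0) (.cons (.ev (nat_lit 2668840585907085068894026811855470593) (nat_lit 2)) (.cons (.rf (nat_lit 172) (nat_lit 631013481557235777)) .nil))) (.cons (.kr (nat_lit 2658455991571045393993712723187204097) (nat_lit 159075295085064853471973343232) (nat_lit 0) (nat_lit 1)) (.cons (.rf (nat_lit 1828) (nat_lit 21174442659471745632798752)) .nil)))) (.cons (.ev (nat_lit 20282720297605758127718877167873) (nat_lit 1)) (.cons (.br (nat_lit 14) (nat_lit 0) (.cons (.rf (nat_lit 1829) (nat_lit 677582165103132179601393696)) (.cons (.rf (nat_lit 1830) (nat_lit 677582165103132179601393696)) (.cons (.br (nat_lit 14) (nat_lit 0) (.cons (.rf (nat_lit 1829) (nat_lit 677582165103132179601393696)) (.cons (.rf (nat_lit 1830) (nat_lit 677582165103132179601393696)) .nil))) .nil)))) .nil))))) .nil))))) .nil))))),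
 (.br (nat_lit 14) (nat_lit 0) (.cons (.kr (nat_lit 2658455991571045393993712723187204097) (nat_lit 159075295085064853471973343232) (nat_lit 0) (nat_lit 1)) (.cons (.br (nat_lit 15) (nat_lit 0) (.cons (.ev (nat_lit 1334420372182307168884378921762619648) (nat_lit 1)) (.cons (.rf (nat_lit 170) (nat_lit 596110584542632001)) .nil))) .nil))),
 (.br (nat_lit 15) (nat_lit 0) (.cons (.ev (nat_lit 7985793293560221042344066516087211011) (nat_lit 3)) .nil)),
 (.br (nat_lit 14) (nat_lit 0) (.cons (.ev (nat_lit 5212579578832415011971739812888833) (nat_lit 1)) (.cons (.rf (nat_lit 167) (nat_lit 593855485021723713)) .nil))),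
 (.br (nat_lit 15) (nat_lit 0) (.cons (.br (nat_lit 16) (nat_lit 0) (.cons (.ev (nat_lit 1363798349309849121348501613667241951239) (nat_lit 3)) .nil)) .nil)),
 (.br (nat_lit 13) (nat_lit 0) (.cons (.ev (nat_lit 20282409603670117449500232581121) (nat_lit 1)) (.cons (.br (nat_lit 14) (nat_lit 0) (.cons (.kr (nat_lit 1344804886360529800595268506549814016) (nat_lit 20521022546316161192302672347136) (nat_lit 1) (nat_lit 0)) (.cons (.rf (nat_lit 1834) (nat_lit 622703726023049662793760)) .nil))) (.cons (.br (nat_lit 14) (nat_lit 0) (.cons (.br (nat_lit 15) (nat_lit 0) (.cons (.ev (nat_lit 1329248357733375992926273476508057857) (nat_lit 1)) (.cons (.rf (nat_lit 166) (nat_lit 631046501265775681)) .nil))) (.cons (.kr (nat_lit 40564820416266053950675408125953) (nat_lit 10384593717074377624107911768703488) (nat_lit 0) (nat_lit 2)) (.cons (.br (nat_lit 15) (nat_lit 0) (.cons (.rf (nat_lit 1835) (nat_lit 677582165103132179601393696)) (.cons (.br (nat_lit 15) (nat_lit 0) (.cons (.rf (nat_lit 1835) (nat_lit 677582165103132179601393696))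 .nil)) .nil))) .nil)))) .nil)))),
 (.br (nat_lit 12) (nat_lit 0) (.cons (.zr (nat_lit 2658577844487419666098849513040248837) (nat_lit 31153784246059063986885465053595648) (nat_lit 16) (nat_lit 2)) (.cons (.ev (nat_lit 40723895715999698874780260368387) (nat_lit 2)) (.cons (.br (nat_lit 15) (nat_lit 0) (.cons (.ev (nat_lit 2658496556390262142067526357030666753) (nat_lit 2)) (.cons (.rf (nat_lit 788) (nat_lit 20678129570943110030376)) .nil))) .nil)))),
 (.br (nat_lit 13) (nat_lit 0) (.cons (.rf (nat_lit 1836) (nat_lit 583706118939841765935136)) (.cons (.ev (nat_lit 5192296859743753520485298341937153) (nat_lit 1)) (.cons (.br (nat_lit 16) (nat_lit 0) (.cons (.ev (nat_lit 40723895715999698874780260368387) (nat_lit 2)) (.cons (.rf (nat_lit 1837) (nat_lit 19926519232773908561233952)) (.cons (.ev (nat_lit 2658496556390262142067526357030666753) (nat_lit 2)) (.cons (.br (nat_lit 16) (nat_lit 0) (.cons (.ev (nat_lit 40723895715999698874780260368387) (nat_lit 2)) (.cons (.rf (nat_lit 1837) (nat_lit 19926519232773908561233952)) (.cons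 (.ev (nat_lit 2658496556390262142067526357030666753) (nat_lit 2)) .nil)))) .nil))))) .nil)))),
 (.br (nat_lit 15) (nat_lit 0) (.cons (.ev (nat_lit 1334481378488845191022149324842795779) (nat_lit 2)) .nil)),
 (.br (nat_lit 16) (nat_lit 0) (.cons (.ev (nat_lit 683243959337794771244017753760529908231) (nat_lit 3)) (.cons (.ev (nat_lit 340282387282885714639202772734854562048) (nat_lit 1)) .nil))),
 (.br (nat_lit 16) (nat_lit 0) (.cons (.rf (nat_lit 172) (nat_lit 629853531149638721)) (.cons (.br (nat_lit 14) (nat_lit 0) (.cons (.ev (nat_lit 2044373426705873915005667876436495828483) (nat_lit 3)) (.cons (.br (nat_lit 15) (nat_lit 0) (.cons (.ev (nat_lit 1334420372182311872876176411264549120) (nat_lit 1)) .nil)) .nil))) (.cons (.ev (nat_lit 680564774406697347915313766895200502273) (nat_lit 2)) .nil)))),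
 (.br (nat_lit 11) (nat_lit 0) (.cons (.rf (nat_lit 1820) (nat_lit 15878333689072972825664)) (.cons (.br (nat_lit 12) (nat_lit 0) (.cons (.ev (nat_lit 40723895725481469446054035324931) (nat_lit 2)) (.cons (.ev (nat_lit 10384752793587833385656944611557377) (nat_lit 2)) (.cons (.br (nat_lit 13) (nat_lit 0) (.cons (.ev (nat_lit 20282409608374109246989734510593) (nat_lit 1)) (.cons (.rf (nat_lit 1832) (nat_lit 583706118939841765935136)) (.cons (.br (nat_lit 14) (nat_lit 0) (.cons (.rf (nat_lit 1832) (nat_lit 582562311633430398469184)) (.cons (.br (nat_lit 16) (nat_lit 0) (.cons (.ev (nat_lit 1361202444745484896496837702168034279941) (nat_lit 4)) (.cons (.rf (nat_lit 170) (nat_lit 560012553617448294)) .nil))) (.cons (.br (nat_lit 15) (nat_lit 0) (.cons (.rf (nat_lit 1833) (nat_lit 677582165103132179601393696)) (.cons (.rf (nat_lit 1833) (nat_lit 640104320887772263818036288)) .nil))) .nil)))) .nil)))) .nil)))) (.cons (.rf (nat_lit 1831) (nat_lit 15878333689072972825664)) (.cons (.br (nat_lit 13) (nat_lit 0) (.cons (.rf (nat_lit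 1836) (nat_lit 583706118939841765935136)) (.cons (.ev (nat_lit 5192296859743753520485298341937153) (nat_lit 1)) (.cons (.rf (nat_lit 1838) (nat_lit 583706118939841765935136)) (.cons (.br (nat_lit 13) (nat_lit 0) (.cons (.rf (nat_lit 1836) (nat_lit 583706118939841765935136)) (.cons (.ev (nat_lit 5192296859743753520485298341937153) (nat_lit 1)) (.cons (.rf (nat_lit 1838) (nat_lit 583706118939841765935136)) (.cons (.br (nat_lit 12) (nat_lit 0) (.cons (.br (nat_lit 15) (nat_lit 0) (.cons (.rf (nat_lit 1839) (nat_lit 677582165103132179601393696)) (.cons (.rf (nat_lit 1839) (nat_lit 640105464695078675185502240)) .nil))) (.cons (.br (nat_lit 14) (nat_lit 0) (.cons (.ev (nat_lit 2668840585288115086288377059980870147) (nat_lit 2)) (.cons (.rf (nat_lit 1840) (nat_lit 677582165103132179601393696)) (.cons (.rf (nat_lit 1840) (nat_lit 640105464695078675185502240)) .nil)))) (.cons (.rf (nat_lit 1841) (nat_lit 677582165103132179601393696)) (.cons (.rf (nat_lit 1841) (nat_lit 640105464695078675185502240)) .nil))))) .nil))))) .nil)))))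 .nil))))),
 (.br (nat_lit 13) (nat_lit 0) (.cons (.br (nat_lit 14) (nat_lit 0) (.cons (.ev (nat_lit 10384752174608369009440316941402627) (nat_lit 2)) (.cons (.br (nat_lit 15) (nat_lit 0) (.cons (.ev (nat_lit 1334420372182311872876176411264549120) (nat_lit 1)) (.cons (.rf (nat_lit 167) (nat_lit 596108454237773889)) .nil))) .nil))) (.cons (.ev (nat_lit 20282409603670117449500232581121) (nat_lit 1)) (.cons (.br (nat_lit 15) (nat_lit 0) (.cons (.br (nat_lit 14) (nat_lit 0) (.cons (.zr (nat_lit 10385069086068389568996746165485571) (nat_lit 2658496557011635846251121961418621952) (nat_lit 16) (nat_lit 2)) (.cons (.rf (nat_lit 166) (nat_lit 631011351349895233)) .nil))) (.cons (.ev (nat_lit 2658496557009222716977815904166477827) (nat_lit 2)) (.cons (.rf (nat_lit 711) (nat_lit 20000933537726813605866757)) .nil)))) .nil)))),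
 (.br (nat_lit 14) (nat_lit 0) (.cons (.ev (nat_lit 1329248357423895705471691652893573120) (nat_lit 1)) (.cons (.ev (nat_lit 680596009477181236592474752230231508485) (nat_lit 3)) (.cons (.br (nat_lit 15) (nat_lit 0) (.cons (.ev (nat_lit 680564774406697347915313766895200502273) (nat_lit 2)) (.cons (.br (nat_lit 16) (nat_lit 0) (.cons (.ev (nat_lit 341611615199442467997842241106374295808) (nat_lit 1)) .nil)) .nil))) .nil)))),
 (.br (nat_lit 13) (nat_lit 0) (.cons (.rf (nat_lit 672) (nat_lit 19887633312747074370044996)) (.cons (.rf (nat_lit 1844) (nat_lit 19926519232773908561233952)) (.cons (.br (nat_lit 14) (nat_lit 0) (.cons (.rf (nat_lit 167) (nat_lit 630977166328431976)) (.cons (.rf (nat_lit 1844) (nat_lit 19925375425467497193768000)) (.cons (.br (nat_lit 15) (nat_lit 0) (.cons (.br (nat_lit 16) (nat_lit 0) (.cons (.ev (nat_lit 1371794567445650725700736322793766652931) (nat_lit 4)) .nil)) (.cons (.kr (nat_lit 10425159155247015134087172029677569) (nat_lit 348449143727040987800143784108733291823104) (nat_lit 0) (nat_lit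 1)) .nil))) .nil)))) .nil)))),
 (.br (nat_lit 13) (nat_lit 0) (.cons (.rf (nat_lit 672) (nat_lit 19887633312747074370044996)) (.cons (.ev (nat_lit 40723895715999698874780260368387) (nat_lit 2)) (.cons (.rf (nat_lit 674) (nat_lit 21173227474473067724571716)) .nil)))),
 (.br (nat_lit 13) (nat_lit 0) (.cons (.rf (nat_lit 1845) (nat_lit 19926519232773908561233952)) (.cons (.ev (nat_lit 40723895715999698874780260368387) (nat_lit 2)) (.cons (.br (nat_lit 15) (nat_lit 0) (.cons (.rf (nat_lit 1846) (nat_lit 19925375425467497193768000)) (.cons (.rf (nat_lit 172) (nat_lit 628727665699004481)) (.cons (.ev (nat_lit 1329248357423895705471691652893573120) (nat_lit 1)) .nil)))) .nil)))),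
 (.br (nat_lit 16) (nat_lit 0) (.cons (.ev (nat_lit 680575118436214189731606198828673269761) (nat_lit 2)) .nil)),
 (.br (nat_lit 14) (nat_lit 0) (.cons (.ev (nat_lit 2041715133768957425677913829628718219277) (nat_lit 4)) (.cons (.br (nat_lit 15) (nat_lit 0) (.cons (.ev (nat_lit 341611615199443681646028339700394098945) (nat_lit 1)) (.cons (.ev (nat_lit 2668840585288124493983741662766170627) (nat_lit 2)) .nil))) .nil))),
 (.br (nat_lit 14) (nat_lit 0) (.cons (.br (nat_lit 15) (nat_lit 0) (.cons (.ev (nat_lit 2668840585288124493983741662766170627) (nat_lit 2)) (.cons (.br (nat_lit 16) (nat_lit 0) (.cons (.ev (nat_lit 2049690420136183603809718290765685457925) (nat_lit 3)) .nil)) .nil))) (.cons (.br (nat_lit 15) (nat_lit 0) (.cons (.br (nat_lit 16) (nat_lit 0) (.cons (.ev (nat_lit 340282387282886923583397073847995924737) (nat_lit 1)) .nil)) (.cons (.ev (nat_lit 2668840585288124493983741662766170627) (nat_lit 2)) .nil))) .nil))),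
 (.br (nat_lit 14) (nat_lit 0) (.cons (.rf (nat_lit 1850) (nat_lit 677582165103132179601393696)) (.cons (.br (nat_lit 17) (nat_lit 0) (.cons (.ev (nat_lit 174224571904085313714236363557096988344833) (nat_lit 2)) (.cons (.ev (nat_lit 524715441067564577624551718994882718728195) (nat_lit 3)) .nil))) .nil))),
 (.br (nat_lit 13) (nat_lit 0) (.cons (.br (nat_lit 14) (nat_lit 0) (.cons (.ev (nat_lit 10384752174608369009440316941402627) (nat_lit 2)) (.cons (.br (nat_lit 16) (nat_lit 0) (.cons (.ev (nat_lit 340282387282885719379943940984643059968) (nat_lit 1)) (.cons (.rf (nat_lit 214) (nat_lit 629956850812820545)) .nil))) (.cons (.br (nat_lit 15) (nat_lit 0) (.cons (.rf (nat_lit 1848) (nat_lit 677582165103132179601393696)) (.cons (.br (nat_lit 15) (nat_lit 0) (.cons (.rf (nat_lit 1848) (nat_lit 677582165103132179601393696)) .nil)) .nil))) .nil)))) (.cons (.ev (nat_lit 20282409603670117449500232581121) (nat_lit 1)) (.cons (.br (nat_lit 14) (nat_lit 0) (.cons (.rf (nat_lit 1849) (nat_lit 19926519232773908561233952)) (.cons (.br (nat_lit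 14) (nat_lit 0) (.cons (.ev (nat_lit 2041715133768957425677913829628718219277) (nat_lit 4)) (.cons (.rf (nat_lit 214) (nat_lit 629888681091771457)) .nil))) (.cons (.br (nat_lit 14) (nat_lit 0) (.cons (.rf (nat_lit 1849) (nat_lit 19926519232773908561233952)) (.cons (.rf (nat_lit 214) (nat_lit 629888681091771457)) .nil))) .nil)))) (.cons (.br (nat_lit 14) (nat_lit 0) (.cons (.rf (nat_lit 1850) (nat_lit 677582165103132179601393696)) (.cons (.rf (nat_lit 1851) (nat_lit 677582165103132179601393696)) (.cons (.br (nat_lit 14) (nat_lit 0) (.cons (.rf (nat_lit 1850) (nat_lit 677582165103132179601393696)) (.cons (.rf (nat_lit 1851) (nat_lit 677582165103132179601393696)) .nil))) .nil)))) .nil)))))]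

theorem c69 : chkAll C T R L69 (nat_lit 1831) = true := by decide +kernel

theorem l69 : (nat_lit 1831) + L69.length = (nat_lit 1853) := by decide +kernel

/-- part of the certificates -/
def L70 : List Prf := [(.br (nat_lit 13) (nat_lit 0) (.cons (.br (nat_lit 14) (nat_lit 0) (.cons (.ev (nat_lit 5327662303340757418971160183083636763) (nat_lit 5)) (.cons (.rf (nat_lit 214) (nat_lit 631011351253456961)) .nil))) (.cons (.br (nat_lit 14) (nat_lit 0) (.cons (.zr (nat_lit 26594944511285595356278175924167377929) (nat_lit 122328282927005911065859520987136) (nat_lit 32) (nat_lit 11)) (.cons (.ev (nat_lit 680564774406697357323009127100006400513) (nat_lit 2)) (.cons (.br (nat_lit 16) (nat_lit 0) (.cons (.ev (nat_lit 1329248357422686761277390539752210433) (nat_lit 1)) (.cons (.ev (nat_lit 2041704708290413610600211774948948313601) (nat_lit 3)) .nil))) .nil)))) (.cons (.br (nat_lit 15) (nat_lit 0) (.cons (.rf (nat_lit 214) (nat_lit 630977266392964161)) (.cons (.br (nat_lit 14) (nat_lit 0) (.cons (.ev (nat_lit 4801316905887484623484412508206856016921)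 (nat_lit 5)) (.cons (.br (nat_lit 16) (nat_lit 0) (.cons (.ev (nat_lit 680575118436214189731606198828673269761) (nat_lit 2)) .nil)) .nil))) (.cons (.ev (nat_lit 1329248357422686761277390539752210433) (nat_lit 1)) .nil)))) .nil)))),
 (.br (nat_lit 15) (nat_lit 0) (.cons (.ev (nat_lit 1334420371872822140688347377677893888) (nat_lit 1)) .nil)),
 (.br (nat_lit 13) (nat_lit 0) (.cons (.rf (nat_lit 1854) (nat_lit 19926519232773908561233952)) (.cons (.br (nat_lit 13) (nat_lit 0) (.cons (.rf (nat_lit 1854) (nat_lit 19926519232773908561233952)) .nil)) .nil))),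
 (.br (nat_lit 13) (nat_lit 0) (.cons (.rf (nat_lit 1853) (nat_lit 19926519232773908561233952)) (.cons (.ev (nat_lit 40723895715999698874780260368387) (nat_lit 2)) (.cons (.br (nat_lit 16) (nat_lit 0) (.cons (.br (nat_lit 14) (nat_lit 0) (.cons (.ev (nat_lit 1334420372181102965431248266056499457) (nat_lit 1)) (.cons (.br (nat_lit 15) (nat_lit 0) (.cons (.ev (nat_lit 341616787213581914182353971636592508928) (nat_lit 1)) .nil)) .nil))) (.cons (.rf (nat_lit 214) (nat_lit 628727665598344257)) (.cons (.ev (nat_lit 680564774406697357323009127100006400513) (nat_lit 2)) .nil)))) .nil)))),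
 (.br (nat_lit 13) (nat_lit 0) (.cons (.rf (nat_lit 1853) (nat_lit 19926519232773908561233952)) (.cons (.br (nat_lit 13) (nat_lit 0) (.cons (.rf (nat_lit 1853) (nat_lit 19926519232773908561233952)) (.cons (.ev (nat_lit 40723895715999698874780260368387) (nat_lit 2)) (.cons (.rf (nat_lit 1855) (nat_lit 21174442659471745632798752)) .nil)))) (.cons (.rf (nat_lit 1856) (nat_lit 19926519232773908561233952)) (.cons (.br (nat_lit 13) (nat_lit 0) (.cons (.rf (nat_lit 1853) (nat_lit 19926519232773908561233952)) (.cons (.rf (nat_lit 1855) (nat_lit 21174442659471745632798752)) (.cons (.rf (nat_lit 1856) (nat_lit 19926519232773908561233952)) .nil)))) .nil))))),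
 (.br (nat_lit 14) (nat_lit 0) (.cons (.ev (nat_lit 2668840585288124493983741662766170627) (nat_lit 2)) (.cons (.br (nat_lit 15) (nat_lit 0) (.cons (.ev (nat_lit 1366456804827287918122084917280015122443) (nat_lit 4)) (.cons (.br (nat_lit 16) (nat_lit 0) (.cons (.zr (nat_lit 284905710412169340617400556453888) (nat_lit 693867398393454035717928993311037194761) (nat_lit 48) (nat_lit 6)) .nil)) .nil))) (.cons (.br (nat_lit 15) (nat_lit 0) (.cons (.ev (nat_lit 1344865813749575632132285953224999681) (nat_lit 2)) (.cons (.ev (nat_lit 348467794538961852356975333278087731744259) (nat_lit 4)) .nil))) .nil)))),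
 (.br (nat_lit 14) (nat_lit 0) (.cons (.br (nat_lit 15) (nat_lit 0) (.cons (.ev (nat_lit 1366456804827287918122084917280015122443) (nat_lit 4)) (.cons (.br (nat_lit 16) (nat_lit 0) (.cons (.zr (nat_lit 2668881468262743429846889774098416133) (nat_lit 2041694201525630795021566418357162737664) (nat_lit 16) (nat_lit 1)) .nil)) .nil))) (.cons (.ev (nat_lit 680564774406697357323009127100006400513) (nat_lit 2)) (.cons (.br (nat_lit 16) (nat_lit 0) (.cons (.ev (nat_lit 2041704708290413610600211774948948313601) (nat_lit 3)) (.cons (.ev (nat_lit 174224582248114830546570885417756619046913) (nat_lit 2)) .nil))) .nil)))),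
 (.br (nat_lit 13) (nat_lit 0) (.cons (.rf (nat_lit 1858) (nat_lit 677582165103132179601393696)) (.cons (.rf (nat_lit 1859) (nat_lit 677582165103132179601393696)) (.cons (.br (nat_lit 14) (nat_lit 0) (.cons (.rf (nat_lit 1859) (nat_lit 676409874408074096220931136)) (.cons (.rf (nat_lit 1858) (nat_lit 676409874408074096220931136)) (.cons (.ev (nat_lit 522673746866512458899353396907058323915265) (nat_lit 3)) .nil)))) .nil)))),
 (.br (nat_lit 13) (nat_lit 0) (.cons (.rf (nat_lit 1860) (nat_lit 677582165103132179601393696)) (.cons (.br (nat_lit 15) (nat_lit 0) (.cons (.br (nat_lit 14) (nat_lit 0) (.cons (.ev (nat_lit 683244040152377436407547286838541812741) (nat_lit 3)) (.cons (.ev (nat_lit 10384752174608369009440316941402627) (nat_lit 2)) .nil))) (.cons (.ev (nat_lit 680564774406697357323009127100006400513) (nat_lit 2)) (.cons (.br (nat_lit 16) (nat_lit 0) (.cons (.br (nat_lit 14) (nat_lit 0) (.cons (.ev (nat_lit 13334062834542037544565914812284928527) (nat_lit 4)) .nil)) (.cons (.kr (nat_lit 174224571863520494506895985103667950780417)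 (nat_lit 159075295085064853471973343232) (nat_lit 0) (nat_lit 1)) .nil))) .nil)))) (.cons (.br (nat_lit 17) (nat_lit 0) (.cons (.ev (nat_lit 174224571904085313714236363557096988344833) (nat_lit 2)) (.cons (.rf (nat_lit 802) (nat_lit 631013448367736870)) (.cons (.br (nat_lit 15) (nat_lit 0) (.cons (.br (nat_lit 14) (nat_lit 0) (.cons (.ev (nat_lit 4763974069136465095458981325492369883149) (nat_lit 4)) .nil)) (.cons (.ev (nat_lit 523354280405849909113353165453464401347075) (nat_lit 3)) .nil))) .nil)))) .nil)))),
 (.br (nat_lit 6) (nat_lit 0) (.cons (.rf (nat_lit 1533) (nat_lit 402095870462401731)) (.cons (.rf (nat_lit 1720) (nat_lit 402095870462401731)) (.cons (.rf (nat_lit 1791) (nat_lit 402095870462401731)) (.cons (.rf (nat_lit 1801) (nat_lit 14242959524133701664)) (.cons (.br (nat_lit 7) (nat_lit 0) (.cons (.rf (nat_lit 1791) (nat_lit 292922029087135971)) (.cons (.rf (nat_lit 1720) (nat_lit 292922029087135971)) (.cons (.rf (nat_lit 1801) (nat_lit 14133785682758435904)) (.cons (.br (nat_lit 8) (nat_lit 0) (.cons (.ev (nat_lit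 1858123817794635664963404801) (nat_lit 3)) (.cons (.rf (nat_lit 1804) (nat_lit 493858305440582043680)) (.cons (.rf (nat_lit 1804) (nat_lit 458111933199380651203)) (.cons (.br (nat_lit 11) (nat_lit 0) (.cons (.rf (nat_lit 1804) (nat_lit 493749131599206777920)) (.cons (.rf (nat_lit 1804) (nat_lit 458002759358005385443)) (.cons (.br (nat_lit 12) (nat_lit 0) (.cons (.ev (nat_lit 316913863705677490013746627075) (nat_lit 3)) (.cons (.ev (nat_lit 5192534543022370421546588380987904) (nat_lit 2)) (.cons (.br (nat_lit 13) (nat_lit 0) (.cons (.ev (nat_lit 5253144087345782639805649519772163) (nat_lit 2)) (.cons (.ev (nat_lit 81447790218425142181681204430339) (nat_lit 3)) (.cons (.br (nat_lit 14) (nat_lit 0) (.cons (.rf (nat_lit 1805) (nat_lit 19926519232773908561233952)) (.cons (.rf (nat_lit 1805) (nat_lit 18755336598649995346844867)) (.cons (.br (nat_lit 15) (nat_lit 0) (.cons (.rf (nat_lit 1806) (nat_lit 677582165103132179601393696)) (.cons (.br (nat_lit 15) (nat_lit 0) (.cons (.rf (nat_lit 1806) (nat_lit 677582165103132179601393696))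 .nil)) .nil))) .nil)))) .nil)))) .nil)))) (.cons (.br (nat_lit 12) (nat_lit 0) (.cons (.ev (nat_lit 316913863705677490013746627075) (nat_lit 3)) (.cons (.rf (nat_lit 1807) (nat_lit 583706118939841765935136)) (.cons (.rf (nat_lit 1807) (nat_lit 547107669523760640263232)) (.cons (.br (nat_lit 13) (nat_lit 0) (.cons (.rf (nat_lit 1807) (nat_lit 583670372567600564542659)) (.cons (.rf (nat_lit 1807) (nat_lit 547071923151519438870755)) (.cons (.br (nat_lit 14) (nat_lit 0) (.cons (.rf (nat_lit 1808) (nat_lit 19926519232773908561233952)) (.cons (.br (nat_lit 14) (nat_lit 0) (.cons (.ev (nat_lit 340297984535099099455050800462141981441) (nat_lit 2)) (.cons (.rf (nat_lit 172) (nat_lit 629888681128499265)) .nil))) (.cons (.br (nat_lit 14) (nat_lit 0) (.cons (.rf (nat_lit 1808) (nat_lit 19926519232773908561233952)) (.cons (.rf (nat_lit 172) (nat_lit 629888681128499265)) .nil))) .nil)))) (.cons (.br (nat_lit 14) (nat_lit 0) (.cons (.rf (nat_lit 1810) (nat_lit 677582165103132179601393696)) (.cons (.rf (nat_lit 1811) (nat_lit 677582165103132179601393696))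 (.cons (.rf (nat_lit 1811) (nat_lit 640105428948706433984109763)) .nil)))) .nil))))) .nil))))) .nil))))) .nil))))) (.cons (.br (nat_lit 8) (nat_lit 0) (.cons (.ev (nat_lit 1858123817794635664963404801) (nat_lit 3)) (.cons (.rf (nat_lit 1820) (nat_lit 17022140995484340291616)) (.cons (.rf (nat_lit 1831) (nat_lit 17022140995484340291616)) (.cons (.rf (nat_lit 1842) (nat_lit 17022140995484340291616)) (.cons (.br (nat_lit 11) (nat_lit 0) (.cons (.rf (nat_lit 1820) (nat_lit 15878333689072972825664)) (.cons (.rf (nat_lit 1842) (nat_lit 15878333689072972825664)) (.cons (.rf (nat_lit 1831) (nat_lit 15878333689072972825664)) (.cons (.br (nat_lit 12) (nat_lit 0) (.cons (.rf (nat_lit 1843) (nat_lit 583706118939841765935136)) (.cons (.rf (nat_lit 1843) (nat_lit 582562311633430398469184)) (.cons (.ev (nat_lit 1329228233469403415696823152332112384) (nat_lit 2)) (.cons (.br (nat_lit 13) (nat_lit 0) (.cons (.rf (nat_lit 1845) (nat_lit 19926519232773908561233952)) (.cons (.rf (nat_lit 1846) (nat_lit 19926519232773908561233952)) (.cons (.rf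 (nat_lit 1847) (nat_lit 19926519232773908561233952)) (.cons (.br (nat_lit 13) (nat_lit 0) (.cons (.rf (nat_lit 1845) (nat_lit 19926519232773908561233952)) (.cons (.rf (nat_lit 674) (nat_lit 21173227474473067724571716)) (.cons (.rf (nat_lit 1847) (nat_lit 19926519232773908561233952)) .nil)))) .nil))))) .nil))))) (.cons (.br (nat_lit 12) (nat_lit 0) (.cons (.rf (nat_lit 1852) (nat_lit 19926519232773908561233952)) (.cons (.rf (nat_lit 1852) (nat_lit 18754228537715825180771392)) (.cons (.rf (nat_lit 1857) (nat_lit 19926519232773908561233952)) (.cons (.rf (nat_lit 1857) (nat_lit 18754228537715825180771392)) (.cons (.br (nat_lit 13) (nat_lit 0) (.cons (.rf (nat_lit 1860) (nat_lit 677582165103132179601393696)) (.cons (.rf (nat_lit 1861) (nat_lit 677582165103132179601393696)) (.cons (.br (nat_lit 13) (nat_lit 0) (.cons (.rf (nat_lit 1860) (nat_lit 677582165103132179601393696)) (.cons (.rf (nat_lit 1861) (nat_lit 677582165103132179601393696)) (.cons (.ev (nat_lit 40723895715999698874780260368387) (nat_lit 2)) .nil)))) (.cons (.br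 (nat_lit 13) (nat_lit 0) (.cons (.rf (nat_lit 1860) (nat_lit 677582165103132179601393696)) (.cons (.rf (nat_lit 1861) (nat_lit 677582165103132179601393696)) (.cons (.ev (nat_lit 40723895715999698874780260368387) (nat_lit 2)) .nil)))) .nil))))) .nil)))))) .nil)))))) .nil)))))) .nil)))))) .nil)))))),
 (.br (nat_lit 15) (nat_lit 0) (.cons (.kr (nat_lit 10425159155251700607081898567532545) (nat_lit 2658456150027365700300020224410910720) (nat_lit 0) (nat_lit 1)) (.cons (.rf (nat_lit 172) (nat_lit 631047566384171201)) .nil))),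
 (.br (nat_lit 15) (nat_lit 0) (.cons (.kr (nat_lit 10425159155251700607081898567532545) (nat_lit 2658456150027365700300020224410910720) (nat_lit 0) (nat_lit 1)) (.cons (.br (nat_lit 16) (nat_lit 0) (.cons (.kr (nat_lit 10384752174603646498840055868555265) (nat_lit 680564774406696138952457108581932597760) (nat_lit 0) (nat_lit 2)) (.cons (.ev (nat_lit 1366446379666894730993733793192538669571) (nat_lit 3)) .nil))) .nil))),
 (.br (nat_lit 14) (nat_lit 0) (.cons (.br (nat_lit 15) (nat_lit 0) (.cons (.ev (nat_lit 5337681172431926619923985891401663489) (nat_lit 3)) (.cons (.rf (nat_lit 43) (nat_lit 631047566374677761)) .nil))) .nil)),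
 (.br (nat_lit 15) (nat_lit 0) (.cons (.ev (nat_lit 2689731625636201372536001588440991237) (nat_lit 3)) .nil)),
 (.br (nat_lit 15) (nat_lit 0) (.cons (.br (nat_lit 16) (nat_lit 0) (.cons (.ev (nat_lit 681899174654923958554077777807523447042) (nat_lit 2)) .nil)) .nil)),
 (.br (nat_lit 11) (nat_lit 0) (.cons (.ev (nat_lit 1239153761403135518090593799) (nat_lit 3)) (.cons (.br (nat_lit 14) (nat_lit 0) (.cons (.ev (nat_lit 1407214735625098292400077725009252110) (nat_lit 4)) (.cons (.br (nat_lit 15) (nat_lit 0) (.cons (.ev (nat_lit 5337762617126081114488531614030758407) (nat_lit 3)) (.cons (.rf (nat_lit 166) (nat_lit 631047566384171201)) .nil))) .nil))) (.cons (.br (nat_lit 14) (nat_lit 0) (.cons (.br (nat_lit 15) (nat_lit 0) (.cons (.ev (nat_lit 5316993114017250749455347320036131335) (nat_lit 3)) (.cons (.rf (nat_lit 175) (nat_lit 631013448204158178)) .nil))) (.cons (.br (nat_lit 16) (nat_lit 0) (.cons (.zr (nat_lit 10547013307138752230662832146874375) (nat_lit 2722258935367511334484744496697856754176) (nat_lit 16) (nat_lit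 2)) (.cons (.rf (nat_lit 167) (nat_lit 629956850849417409)) .nil))) (.cons (.br (nat_lit 15) (nat_lit 0) (.cons (.rf (nat_lit 1867) (nat_lit 677582165103132179601393696)) (.cons (.br (nat_lit 15) (nat_lit 0) (.cons (.rf (nat_lit 1867) (nat_lit 677582165103132179601393696)) .nil)) .nil))) .nil)))) .nil)))),
 (.br (nat_lit 14) (nat_lit 0) (.cons (.ev (nat_lit 20769505585962018729895649335181827) (nat_lit 3)) (.cons (.br (nat_lit 15) (nat_lit 0) (.cons (.kr (nat_lit 2658456309102660822114246655727370241) (nat_lit 1361129508248573075323939289193349382656) (nat_lit 0) (nat_lit 2)) (.cons (.ev (nat_lit 1344825248307776290949876137456567040) (nat_lit 2)) .nil))) .nil))),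
 (.br (nat_lit 11) (nat_lit 0) (.cons (.br (nat_lit 14) (nat_lit 0) (.cons (.ev (nat_lit 10629091827802361094658681349735425) (nat_lit 4)) (.cons (.br (nat_lit 15) (nat_lit 0) (.cons (.ev (nat_lit 5337762617126081114488531614030758407) (nat_lit 3)) (.cons (.rf (nat_lit 166) (nat_lit 631047566381123777)) .nil))) .nil))) (.cons (.ev (nat_lit 1239153761403135518090593799) (nat_lit 3)) (.cons (.br (nat_lit 14) (nat_lit 0) (.cons (.br (nat_lit 14) (nat_lit 0) (.cons (.ev (nat_lit 20769505585962018729895649335181827) (nat_lit 3)) (.cons (.rf (nat_lit 175) (nat_lit 631047566384171201)) .nil))) (.cons (.rf (nat_lit 1869) (nat_lit 19926519232773908561233952)) (.cons (.br (nat_lit 14) (nat_lit 0) (.cons (.rf (nat_lit 175) (nat_lit 631047566384171201)) (.cons (.rf (nat_lit 1869) (nat_lit 19926519232773908561233952)) .nil))) .nil)))) .nil)))),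
 (.br (nat_lit 14) (nat_lit 0) (.cons (.br (nat_lit 15) (nat_lit 0) (.cons (.ev (nat_lit 1366467230300879953930951643136350618119) (nat_lit 3)) (.cons (.br (nat_lit 16) (nat_lit 0) (.cons (.ev (nat_lit 1366446460796533145674201343791768667651) (nat_lit 3)) .nil)) .nil))) (.cons (.br (nat_lit 15) (nat_lit 0) (.cons (.br (nat_lit 16) (nat_lit 0) (.cons (.ev (nat_lit 1361150237188101856943475892121067718151) (nat_lit 3)) .nil)) (.cons (.ev (nat_lit 348454481489659350626538836731996298937859) (nat_lit 3)) .nil))) .nil)))]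

theorem c70 : chkAll C T R L70 (nat_lit 1853) = true := by decide +kernel

theorem l70 : (nat_lit 1853) + L70.length = (nat_lit 1872) := by decide +kernel

/-- part of the certificates -/
def L71 : List Prf := [(.br (nat_lit 16) (nat_lit 0) (.cons (.ev (nat_lit 1361150318318359260495727915042102050817) (nat_lit 3)) .nil)),
 (.br (nat_lit 13) (nat_lit 0) (.cons (.kr (nat_lit 40565129901238982089071690514688) (nat_lit 158456325065566278522582990848) (nat_lit 1) (nat_lit 0)) (.cons (.br (nat_lit 14) (nat_lit 0) (.cons (.kr (nat_lit 10384594026559387445171505516773633) (nat_lit 158456325065566278522582990848) (nat_lit 0) (nat_lit 3)) (.cons (.kr (nat_lit 10384593717074377623544961815281665) (nat_lit 40564820416229160462527989022720) (nat_lit 0) (nat_lit 1)) (.cons (.br (nat_lit 15) (nat_lit 0) (.cons (.rf (nat_lit 1872) (nat_lit 677582165103132179601393696)) (.cons (.rf (nat_lit 1872) (nat_lit 640104320991140506804165827)) .nil))) .nil)))) .nil))),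
 (.br (nat_lit 13) (nat_lit 0) (.cons (.kr (nat_lit 40565129901238982089071690514688) (nat_lit 158456325065566278522582990848) (nat_lit 1) (nat_lit 0)) (.cons (.br (nat_lit 15) (nat_lit 0) (.cons (.kr (nat_lit 2658455991571045393993712723203981313) (nat_lit 158456325065566278522582990848) (nat_lit 0) (nat_lit 1)) (.cons (.kr (nat_lit 2658455991569836468174098089717530625) (nat_lit 40565128692313162474438204064000) (nat_lit 0) (nat_lit 2)) (.cons (.br (nat_lit 14) (nat_lit 0) (.cons (.br (nat_lit 14) (nat_lit 0) (.cons (.ev (nat_lit 5337762302070360116360969452225822721) (nat_lit 3)) .nil)) (.cons (.br (nat_lit 14) (nat_lit 0) (.cons (.ev (nat_lit 5337762302070360116360969452225822721) (nat_lit 3)) .nil)) .nil))) .nil)))) .nil))),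
 (.br (nat_lit 14) (nat_lit 0) (.cons (.rf (nat_lit 1874) (nat_lit 582562415001673384598723)) (.cons (.br (nat_lit 16) (nat_lit 0) (.cons (.br (nat_lit 15) (nat_lit 0) (.cons (.ev (nat_lit 5316993429691970174634451646013506051) (nat_lit 3)) .nil)) (.cons (.ev (nat_lit 1361129548813393491590281475738205947399) (nat_lit 3)) .nil))) .nil))),
 (.br (nat_lit 12) (nat_lit 0) (.cons (.br (nat_lit 13) (nat_lit 0) (.cons (.ev (nat_lit 20361638975091754376174281752833) (nat_lit 1)) (.cons (.rf (nat_lit 180) (nat_lit 556664468744177857)) .nil))) .nil)),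
 (.br (nat_lit 15) (nat_lit 0) (.cons (.ev (nat_lit 1365716606194759801840042809422578948) (nat_lit 3)) .nil)),
 (.br (nat_lit 13) (nat_lit 0) (.cons (.ev (nat_lit 20282720302328196950757031804928) (nat_lit 1)) (.cons (.br (nat_lit 14) (nat_lit 0) (.cons (.rf (nat_lit 1876) (nat_lit 570025504507229734944)) (.cons (.br (nat_lit 14) (nat_lit 0) (.cons (.rf (nat_lit 1876) (nat_lit 570025504507229734944)) (.cons (.br (nat_lit 15) (nat_lit 0) (.cons (.rf (nat_lit 1877) (nat_lit 677582165103132179601393696)) (.cons (.rf (nat_lit 1877) (nat_lit 640105464695078675185502240)) .nil))) .nil))) .nil))) .nil))),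
 (.br (nat_lit 14) (nat_lit 0) (.cons (.zr (nat_lit 569016669222186251159709549592591) (nat_lit 34559927891026787437655086593881541120) (nat_lit 64) (nat_lit 2)) (.cons (.br (nat_lit 15) (nat_lit 0) (.cons (.ev (nat_lit 2668840585907094550664598085697536001) (nat_lit 2)) (.cons (.rf (nat_lit 284) (nat_lit 630975069608482855)) .nil))) .nil))),
 (.br (nat_lit 15) (nat_lit 0) (.cons (.br (nat_lit 16) (nat_lit 0) (.cons (.ev (nat_lit 1363798349309849121422287464062173316099) (nat_lit 3)) .nil)) .nil)),
 (.br (nat_lit 13) (nat_lit 0) (.cons (.rf (nat_lit 1879) (nat_lit 583706118939841765935136)) (.cons (.br (nat_lit 14) (nat_lit 0) (.cons (.rf (nat_lit 1879) (nat_lit 582562415001673384598723)) (.cons (.kr (nat_lit 10384593717074377623544961815281665) (nat_lit 40564820416229160462527989022720) (nat_lit 0) (nat_lit 1)) (.cons (.br (nat_lit 15) (nat_lit 0) (.cons (.rf (nat_lit 1880) (nat_lit 677582165103132179601393696)) (.cons (.rf (nat_lit 1880) (nat_lit 640104320991140506804165827)) .nil))) .nil)))) .nil))),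
 (.br (nat_lit 14) (nat_lit 0) (.cons (.ev (nat_lit 2663709136277356473982626542787952899) (nat_lit 2)) (.cons (.br (nat_lit 16) (nat_lit 0) (.cons (.ev (nat_lit 340282387282577438555201323774559387648) (nat_lit 1)) (.cons (.ev (nat_lit 340287559297025160805267475525953192193) (nat_lit 1)) .nil))) .nil))),
 (.br (nat_lit 13) (nat_lit 0) (.cons (.rf (nat_lit 1881) (nat_lit 583706118939841765935136)) (.cons (.br (nat_lit 14) (nat_lit 0) (.cons (.br (nat_lit 14) (nat_lit 0) (.cons (.ev (nat_lit 5253302543675570644902812210758400) (nat_lit 2)) (.cons (.rf (nat_lit 284) (nat_lit 631045402794399778)) .nil))) (.cons (.rf (nat_lit 1882) (nat_lit 19926519232773908561233952)) (.cons (.br (nat_lit 14) (nat_lit 0) (.cons (.rf (nat_lit 284) (nat_lit 631045402794399778)) (.cons (.rf (nat_lit 1882) (nat_lit 19926519232773908561233952)) .nil))) .nil)))) .nil))),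
 (.br (nat_lit 14) (nat_lit 0) (.cons (.rf (nat_lit 1883) (nat_lit 582562415001673384598723)) (.cons (.ev (nat_lit 5253302543675570644902812210758400) (nat_lit 2)) .nil))),
 (.br (nat_lit 14) (nat_lit 0) (.cons (.br (nat_lit 15) (nat_lit 0) (.cons (.ev (nat_lit 2668840585907085068894026811855470593) (nat_lit 2)) (.cons (.rf (nat_lit 180) (nat_lit 631046501229234369)) .nil))) .nil)),
 (.br (nat_lit 15) (nat_lit 0) (.cons (.ev (nat_lit 1365716606194759801840042809422578948) (nat_lit 3)) .nil)),
 (.br (nat_lit 15) (nat_lit 0) (.cons (.br (nat_lit 16) (nat_lit 0) (.cons (.ev (nat_lit 87114949600569082216179079556520569078531) (nat_lit 2)) .nil)) .nil)),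
 (.br (nat_lit 14) (nat_lit 0) (.cons (.br (nat_lit 15) (nat_lit 0) (.cons (.ev (nat_lit 2668840585907085068894026811855470593) (nat_lit 2)) (.cons (.rf (nat_lit 180) (nat_lit 631045402789250306)) .nil))) .nil)),
 (.br (nat_lit 15) (nat_lit 0) (.cons (.ev (nat_lit 1344825407386698098061844436995997955) (nat_lit 2)) .nil)),
 (.br (nat_lit 15) (nat_lit 0) (.cons (.br (nat_lit 16) (nat_lit 0) (.cons (.ev (nat_lit 88817721938962696273599592974527498354946) (nat_lit 3)) .nil)) .nil)),
 (.br (nat_lit 15) (nat_lit 0) (.cons (.ev (nat_lit 1329228075322563415436516370763743233) (nat_lit 1)) (.cons (.ev (nat_lit 1329248278505218182581674674588024833) (nat_lit 1)) .nil))),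
 (.br (nat_lit 14) (nat_lit 0) (.cons (.ev (nat_lit 10384752793587796491605847239033347) (nat_lit 2)) (.cons (.br (nat_lit 16) (nat_lit 0) (.cons (.ev (nat_lit 340282387282576229647756395620761403393) (nat_lit 1)) (.cons (.ev (nat_lit 340287559297334645833607903737385320448) (nat_lit 1)) .nil))) .nil))),
 (.br (nat_lit 15) (nat_lit 0) (.cons (.ev (nat_lit 1329228075322563415436516370763743233) (nat_lit 1)) (.cons (.ev (nat_lit 1329248278505218182581674674588024833) (nat_lit 1)) .nil))),
 (.br (nat_lit 13) (nat_lit 0) (.cons (.rf (nat_lit 1893) (nat_lit 19926519232773908561233952)) (.cons (.br (nat_lit 14) (nat_lit 0) (.cons (.ev (nat_lit 1329248278505218182581674674588024833) (nat_lit 1)) (.cons (.rf (nat_lit 255) (nat_lit 583705008733298745180234)) .nil))) .nil))),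
 (.br (nat_lit 12) (nat_lit 0) (.cons (.br (nat_lit 13) (nat_lit 0) (.cons (.ev (nat_lit 40723276746017093225028318659073) (nat_lit 2)) (.cons (.br (nat_lit 14) (nat_lit 0) (.cons (.rf (nat_lit 1885) (nat_lit 583706118939841765935136)) (.cons (.br (nat_lit 14) (nat_lit 0) (.cons (.rf (nat_lit 1885) (nat_lit 583706118939841765935136)) (.cons (.br (nat_lit 15) (nat_lit 0) (.cons (.rf (nat_lit 1886) (nat_lit 677582165103132179601393696)) (.cons (.rf (nat_lit 1886) (nat_lit 640105464695078675185502240)) .nil))) .nil))) .nil))) .nil))) (.cons (.ev (nat_lit 20282409603651670423951546319104) (nat_lit 1)) (.cons (.br (nat_lit 11) (nat_lit 0) (.cons (.ev (nat_lit 40723276746017093225028318659073) (nat_lit 2)) (.cons (.ev (nat_lit 5192297168024578263102508425609473) (nat_lit 1)) (.cons (.br (nat_lit 14) (nat_lit 0) (.cons (.ev (nat_lit 40723276755424788589631171068417) (nat_lit 2)) (.cons (.ev (nat_lit 5192297168019837521934258603557121) (nat_lit 1)) (.cons (.br (nat_lit 13) (nat_lit 0) (.cons (.br (nat_lit 15) (nat_lit 0) (.cons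 (.ev (nat_lit 2668840585907094550664598085697536001) (nat_lit 2)) (.cons (.rf (nat_lit 166) (nat_lit 631047566417692865)) .nil))) (.cons (.br (nat_lit 16) (nat_lit 0) (.cons (.ev (nat_lit 680575118436214180249835627554831204353) (nat_lit 2)) (.cons (.rf (nat_lit 175) (nat_lit 629888647808910594)) .nil))) (.cons (.br (nat_lit 15) (nat_lit 0) (.cons (.rf (nat_lit 1887) (nat_lit 677582165103132179601393696)) (.cons (.br (nat_lit 15) (nat_lit 0) (.cons (.rf (nat_lit 1887) (nat_lit 677582165103132179601393696)) .nil)) .nil))) .nil)))) .nil)))) .nil)))) (.cons (.br (nat_lit 13) (nat_lit 0) (.cons (.br (nat_lit 14) (nat_lit 0) (.cons (.rf (nat_lit 1888) (nat_lit 583706118939841765935136)) (.cons (.br (nat_lit 14) (nat_lit 0) (.cons (.rf (nat_lit 1888) (nat_lit 583706118939841765935136)) (.cons (.br (nat_lit 15) (nat_lit 0) (.cons (.rf (nat_lit 1889) (nat_lit 677582165103132179601393696)) (.cons (.rf (nat_lit 1889) (nat_lit 640105464695078675185502240)) .nil))) .nil))) .nil))) (.cons (.br (nat_lit 11) (nat_lit 0) (.cons (.ev (nat_lit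 31275477466964064967260293602346501) (nat_lit 3)) (.cons (.br (nat_lit 14) (nat_lit 0) (.cons (.ev (nat_lit 114353185369234753551438896424026629) (nat_lit 5)) (.cons (.br (nat_lit 15) (nat_lit 0) (.cons (.ev (nat_lit 2668840585907094550664598085697536001) (nat_lit 2)) (.cons (.rf (nat_lit 166) (nat_lit 596110584441047233)) .nil))) .nil))) (.cons (.br (nat_lit 14) (nat_lit 0) (.cons (.br (nat_lit 15) (nat_lit 0) (.cons (.ev (nat_lit 2668840585907085068894026811855470593) (nat_lit 2)) (.cons (.rf (nat_lit 175) (nat_lit 631013481557231809)) .nil))) (.cons (.br (nat_lit 16) (nat_lit 0) (.cons (.ev (nat_lit 4083419678848117084132327163185510484485) (nat_lit 4)) (.cons (.rf (nat_lit 167) (nat_lit 629956817529832706)) .nil))) (.cons (.rf (nat_lit 674) (nat_lit 21137844314757830651418659)) .nil)))) .nil)))) (.cons (.ev (nat_lit 40723276755424788589631171068417) (nat_lit 2)) (.cons (.br (nat_lit 11) (nat_lit 0) (.cons (.br (nat_lit 14) (nat_lit 0) (.cons (.ev (nat_lit 10384752793578388508015266281685507) (nat_lit 2)) (.cons (.rf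 (nat_lit 885) (nat_lit 622703715927126731497673)) (.cons (.br (nat_lit 15) (nat_lit 0) (.cons (.rf (nat_lit 1890) (nat_lit 677582165103132179601393696)) (.cons (.br (nat_lit 15) (nat_lit 0) (.cons (.rf (nat_lit 1890) (nat_lit 677582165103132179601393696)) .nil)) .nil))) .nil)))) (.cons (.br (nat_lit 14) (nat_lit 0) (.cons (.br (nat_lit 14) (nat_lit 0) (.cons (.ev (nat_lit 18671905952431864883956915536416611329) (nat_lit 5)) (.cons (.rf (nat_lit 167) (nat_lit 631013481553168577)) .nil))) (.cons (.br (nat_lit 14) (nat_lit 0) (.cons (.ev (nat_lit 18671905952431864883956915536416611329) (nat_lit 5)) (.cons (.rf (nat_lit 1891) (nat_lit 21174442659472880612509728)) .nil))) (.cons (.br (nat_lit 14) (nat_lit 0) (.cons (.rf (nat_lit 167) (nat_lit 631013481553168577)) (.cons (.rf (nat_lit 1891) (nat_lit 21174442659472880612509728)) .nil))) .nil)))) (.cons (.br (nat_lit 15) (nat_lit 0) (.cons (.rf (nat_lit 1892) (nat_lit 19926519232773908561233952)) (.cons (.ev (nat_lit 340282387282577443295942492024381440000) (nat_lit 1)) (.cons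 (.br (nat_lit 15) (nat_lit 0) (.cons (.rf (nat_lit 1892) (nat_lit 19926519232773908561233952)) (.cons (.ev (nat_lit 340282387282576229647756395620761403393) (nat_lit 1)) .nil))) .nil)))) (.cons (.br (nat_lit 14) (nat_lit 0) (.cons (.br (nat_lit 14) (nat_lit 0) (.cons (.rf (nat_lit 1894) (nat_lit 21174442659472880612509728)) (.cons (.ev (nat_lit 10384752793587796491605847239033347) (nat_lit 2)) .nil))) (.cons (.rf (nat_lit 1894) (nat_lit 21174442659472880612509728)) (.cons (.br (nat_lit 14) (nat_lit 0) (.cons (.ev (nat_lit 10384752793587796491605847239033347) (nat_lit 2)) (.cons (.rf (nat_lit 1894) (nat_lit 21174442659472880612509728)) .nil))) .nil)))) .nil))))) .nil))))) .nil))))),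
 (.br (nat_lit 14) (nat_lit 0) (.cons (.kr (nat_lit 10384593717074377623544961815281665) (nat_lit 40564820416229160462527989022720) (nat_lit 0) (nat_lit 1)) (.cons (.br (nat_lit 15) (nat_lit 0) (.cons (.ev (nat_lit 1334420371872822159135091447092478208) (nat_lit 1)) (.cons (.rf (nat_lit 284) (nat_lit 630975069507917863)) .nil))) .nil))),
 (.br (nat_lit 15) (nat_lit 0) (.cons (.br (nat_lit 16) (nat_lit 0) (.cons (.ev (nat_lit 1369136111293148688774041159703508026375) (nat_lit 3)) .nil)) .nil)),
 (.br (nat_lit 13) (nat_lit 0) (.cons (.rf (nat_lit 1896) (nat_lit 583706118939841765935136)) (.cons (.br (nat_lit 14) (nat_lit 0) (.cons (.rf (nat_lit 1896) (nat_lit 582562415001673384598723)) (.cons (.kr (nat_lit 10384593717074377623544961815281665) (nat_lit 40564820416229160462527989022720) (nat_lit 0) (nat_lit 1)) (.cons (.br (nat_lit 15) (nat_lit 0) (.cons (.rf (nat_lit 1897) (nat_lit 677582165103132179601393696)) (.cons (.rf (nat_lit 1897) (nat_lit 640104320991140506804165827)) .nil))) .nil)))) .nil))),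
 (.br (nat_lit 14) (nat_lit 0) (.cons (.ev (nat_lit 2663709135657191732513255238295290114) (nat_lit 2)) (.cons (.br (nat_lit 16) (nat_lit 0) (.cons (.ev (nat_lit 680564774407316327342795932425498132993) (nat_lit 2)) (.cons (.ev (nat_lit 680575118436214180249835627554831204353) (nat_lit 2)) .nil))) .nil)))]

theorem c71 : chkAll C T R L71 (nat_lit 1872) = true := by decide +kernel

theorem l71 : (nat_lit 1872) + L71.length = (nat_lit 1900) := by decide +kernel

/-- part of the certificates -/
def L72 : List Prf := [(.br (nat_lit 13) (nat_lit 0) (.cons (.rf (nat_lit 1898) (nat_lit 583706118939841765935136)) (.cons (.br (nat_lit 14) (nat_lit 0) (.cons (.br (nat_lit 14) (nat_lit 0) (.cons (.ev (nat_lit 2663709135657191732513255238295290114) (nat_lit 2)) (.cons (.rf (nat_lit 284) (nat_lit 631045402791352354)) .nil))) (.cons (.rf (nat_lit 1899) (nat_lit 19926519232773908561233952)) (.cons (.br (nat_lit 14) (nat_lit 0) (.cons (.rf (nat_lit 284) (nat_lit 631045402791352354)) (.cons (.rf (nat_lit 1899) (nat_lit 19926519232773908561233952))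 .nil))) .nil)))) .nil))),
 (.br (nat_lit 14) (nat_lit 0) (.cons (.rf (nat_lit 1900) (nat_lit 582562415001673384598723)) (.cons (.ev (nat_lit 5253303166267608486466906763625219) (nat_lit 2)) .nil))),
 (.br (nat_lit 15) (nat_lit 0) (.cons (.ev (nat_lit 1365635160262655786799388405302362886) (nat_lit 3)) .nil)),
 (.br (nat_lit 15) (nat_lit 0) (.cons (.ev (nat_lit 1329248357422682057285595249273536513) (nat_lit 1)) (.cons (.br (nat_lit 16) (nat_lit 0) (.cons (.ev (nat_lit 340282387282885719379943940984643059968) (nat_lit 1)) (.cons (.ev (nat_lit 344270050908602710259007107072371327747) (nat_lit 2)) .nil))) .nil))),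
 (.br (nat_lit 15) (nat_lit 0) (.cons (.ev (nat_lit 1334420371871617937235497088813367553) (nat_lit 1)) .nil)),
 (.br (nat_lit 13) (nat_lit 0) (.cons (.rf (nat_lit 1904) (nat_lit 19926519232773908561233952)) (.cons (.br (nat_lit 13) (nat_lit 0) (.cons (.rf (nat_lit 1904) (nat_lit 19926519232773908561233952)) .nil)) .nil))),
 (.br (nat_lit 16) (nat_lit 0) (.cons (.ev (nat_lit 680595928664455481524333869231998501377) (nat_lit 3)) .nil)),
 (.br (nat_lit 12) (nat_lit 0) (.cons (.ev (nat_lit 20361638975091754376174281752833) (nat_lit 1)) (.cons (.rf (nat_lit 167) (nat_lit 556631415713957154)) .nil))),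
 (.br (nat_lit 14) (nat_lit 0) (.cons (.ev (nat_lit 1334420371871613214796675154465325313) (nat_lit 1)) (.cons (.br (nat_lit 16) (nat_lit 0) (.cons (.ev (nat_lit 341611615199134191932287254736222028033) (nat_lit 1)) (.cons (.ev (nat_lit 680575118436214180249835627554831204353) (nat_lit 2)) .nil))) .nil))),
 (.br (nat_lit 15) (nat_lit 0) (.cons (.ev (nat_lit 680564774407316317934812341844607894017) (nat_lit 2)) (.cons (.br (nat_lit 16) (nat_lit 0) (.cons (.kr (nat_lit 680564734000334460917990993926746537985) (nat_lit 10425158536281680964954711054615040) (nat_lit 0) (nat_lit 2)) (.cons (.ev (nat_lit 341611615199134191932287254736222028033) (nat_lit 1)) .nil))) .nil))),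
 (.br (nat_lit 14) (nat_lit 0) (.cons (.br (nat_lit 15) (nat_lit 0) (.cons (.ev (nat_lit 680575118436214180249835627554831204353) (nat_lit 2)) (.cons (.rf (nat_lit 788) (nat_lit 20678166654068733618241)) .nil))) (.cons (.br (nat_lit 15) (nat_lit 0) (.cons (.ev (nat_lit 5348106647261902505835955750323748867) (nat_lit 3)) (.cons (.ev (nat_lit 87116273615747910893419532002173265249027) (nat_lit 2)) .nil))) .nil))),
 (.br (nat_lit 15) (nat_lit 0) (.cons (.ev (nat_lit 2658456150027379867255355857229185537) (nat_lit 2)) (.cons (.ev (nat_lit 5212658805786021903720252868395008) (nat_lit 1)) (.cons (.ev (nat_lit 87452573490978353129924796044223033901313) (nat_lit 1)) .nil)))),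
 (.br (nat_lit 14) (nat_lit 0) (.cons (.rf (nat_lit 1910) (nat_lit 677582165103132179601393696)) (.cons (.br (nat_lit 16) (nat_lit 0) (.cons (.rf (nat_lit 1911) (nat_lit 677582165103132179601393696)) (.cons (.ev (nat_lit 680575118436214180249835627554831204353) (nat_lit 2)) .nil))) .nil))),
 (.br (nat_lit 12) (nat_lit 0) (.cons (.br (nat_lit 14) (nat_lit 0) (.cons (.rf (nat_lit 993) (nat_lit 530899038841808818443)) (.cons (.br (nat_lit 14) (nat_lit 0) (.cons (.rf (nat_lit 993) (nat_lit 530899038841808818443)) (.cons (.br (nat_lit 15) (nat_lit 0) (.cons (.rf (nat_lit 1902) (nat_lit 677582165103132179601393696)) (.cons (.rf (nat_lit 1902) (nat_lit 640105464695078675185502240)) .nil))) .nil))) .nil))) (.cons (.br (nat_lit 13) (nat_lit 0) (.cons (.ev (nat_lit 5192297168019837521934258603557121) (nat_lit 1)) (.cons (.ev (nat_lit 40723895725481469446054035324931) (nat_lit 2)) (.cons (.br (nat_lit 14) (nat_lit 0) (.cons (.rf (nat_lit 890) (nat_lit 19887633353057308171739172)) (.cons (.br (nat_lit 16) (nat_lit 0) (.cons (.ev (nat_lit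 340282387282885719379943940984643059968) (nat_lit 1)) (.cons (.rf (nat_lit 175) (nat_lit 629888647805764962)) .nil))) (.cons (.br (nat_lit 15) (nat_lit 0) (.cons (.rf (nat_lit 1903) (nat_lit 19926519232773908561233952)) (.cons (.br (nat_lit 15) (nat_lit 0) (.cons (.rf (nat_lit 1903) (nat_lit 19926519232773908561233952)) .nil)) .nil))) .nil)))) .nil)))) (.cons (.br (nat_lit 13) (nat_lit 0) (.cons (.ev (nat_lit 40723895725481469446054035324931) (nat_lit 2)) (.cons (.zr (nat_lit 162417733187298458009815536894464) (nat_lit 7975367975334509959950583039354994695) (nat_lit 16) (nat_lit 6)) (.cons (.br (nat_lit 15) (nat_lit 0) (.cons (.br (nat_lit 14) (nat_lit 0) (.cons (.ev (nat_lit 10506605088555307850013281819426823) (nat_lit 3)) (.cons (.rf (nat_lit 167) (nat_lit 631013481653733569)) .nil))) (.cons (.ev (nat_lit 2658496556390262178961577454403190787) (nat_lit 2)) (.cons (.rf (nat_lit 1905) (nat_lit 21174442659472880611461152)) .nil)))) .nil)))) (.cons (.br (nat_lit 13) (nat_lit 0) (.cons (.br (nat_lit 14) (nat_lit 0) (.cons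 (.br (nat_lit 15) (nat_lit 0) (.cons (.ev (nat_lit 1329248357423895705471691652893573120) (nat_lit 1)) (.cons (.rf (nat_lit 167) (nat_lit 631047533061440866)) .nil))) (.cons (.ev (nat_lit 10384752793587796491605847239033347) (nat_lit 2)) (.cons (.br (nat_lit 15) (nat_lit 0) (.cons (.rf (nat_lit 1906) (nat_lit 677582165103132179601393696)) (.cons (.br (nat_lit 15) (nat_lit 0) (.cons (.rf (nat_lit 1906) (nat_lit 677582165103132179601393696)) .nil)) .nil))) .nil)))) (.cons (.br (nat_lit 14) (nat_lit 0) (.cons (.rf (nat_lit 1907) (nat_lit 19459491435985810589728)) (.cons (.rf (nat_lit 1908) (nat_lit 19926519232773908561233952)) (.cons (.br (nat_lit 14) (nat_lit 0) (.cons (.rf (nat_lit 167) (nat_lit 631013448199964002)) (.cons (.rf (nat_lit 1908) (nat_lit 19926519232773908561233952)) .nil))) .nil)))) (.cons (.br (nat_lit 15) (nat_lit 0) (.cons (.rf (nat_lit 1909) (nat_lit 19926519232773908561233952)) (.cons (.ev (nat_lit 680564774407316317934812341844607894017) (nat_lit 2)) (.cons (.br (nat_lit 15) (nat_lit 0) (.cons (.rf (nat_lit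 1909) (nat_lit 19926519232773908561233952)) (.cons (.ev (nat_lit 680564774407316317934812341844607894017) (nat_lit 2)) .nil))) .nil)))) (.cons (.br (nat_lit 14) (nat_lit 0) (.cons (.rf (nat_lit 1910) (nat_lit 677582165103132179601393696)) (.cons (.rf (nat_lit 1912) (nat_lit 677582165103132179601393696)) (.cons (.br (nat_lit 14) (nat_lit 0) (.cons (.rf (nat_lit 1910) (nat_lit 677582165103132179601393696)) (.cons (.rf (nat_lit 1912) (nat_lit 677582165103132179601393696)) .nil))) .nil)))) .nil))))) .nil))))),
 (.br (nat_lit 16) (nat_lit 0) (.cons (.ev (nat_lit 341611615199132987728834124080515907840) (nat_lit 1)) .nil)),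
 (.br (nat_lit 13) (nat_lit 0) (.cons (.br (nat_lit 14) (nat_lit 0) (.cons (.ev (nat_lit 10384752793587796491605847239033347) (nat_lit 2)) (.cons (.br (nat_lit 15) (nat_lit 0) (.cons (.ev (nat_lit 1334420371872822159135091447092478208) (nat_lit 1)) (.cons (.rf (nat_lit 167) (nat_lit 596108454237642945)) .nil))) .nil))) (.cons (.ev (nat_lit 20282719093383858534464404652033) (nat_lit 1)) (.cons (.br (nat_lit 15) (nat_lit 0) (.cons (.br (nat_lit 14) (nat_lit 0) (.cons (.ev (nat_lit 13365013788502331487431845310778838027) (nat_lit 4)) (.cons (.rf (nat_lit 166) (nat_lit 631011351349764289)) .nil))) (.cons (.ev (nat_lit 2658496556390262178961577454403190787) (nat_lit 2)) (.cons (.br (nat_lit 14) (nat_lit 0) (.cons (.rf (nat_lit 1914) (nat_lit 677582165103132179601393696)) (.cons (.br (nat_lit 14) (nat_lit 0) (.cons (.rf (nat_lit 1914) (nat_lit 677582165103132179601393696)) .nil)) .nil))) .nil)))) .nil)))),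
 (.br (nat_lit 13) (nat_lit 0) (.cons (.br (nat_lit 14) (nat_lit 0) (.cons (.kr (nat_lit 10384593717074377623544961815281665) (nat_lit 40564820416229160462527989022720) (nat_lit 0) (nat_lit 1)) (.cons (.rf (nat_lit 239) (nat_lit 631011351349889281)) .nil))) .nil)),
 (.br (nat_lit 14) (nat_lit 0) (.cons (.ev (nat_lit 2663709294117138779384921778141856001) (nat_lit 2)) .nil)),
 (.br (nat_lit 13) (nat_lit 0) (.cons (.ev (nat_lit 5212579577628211559121450981916928) (nat_lit 1)) (.cons (.rf (nat_lit 167) (nat_lit 593820235046389063)) .nil))),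
 (.br (nat_lit 14) (nat_lit 0) (.cons (.ev (nat_lit 1329248357423895705471691652893573120) (nat_lit 1)) (.cons (.kr (nat_lit 10384593717074377623544961815281665) (nat_lit 40564820416229160462527989022720) (nat_lit 0) (nat_lit 1)) (.cons (.br (nat_lit 15) (nat_lit 0) (.cons (.ev (nat_lit 680564774407316327342795932425498132993) (nat_lit 2)) (.cons (.br (nat_lit 16) (nat_lit 0) (.cons (.ev (nat_lit 341611615199132987728834124080515907840) (nat_lit 1)) .nil)) .nil))) .nil)))),
 (.br (nat_lit 13) (nat_lit 0) (.cons (.rf (nat_lit 1918) (nat_lit 622703726024184641456160)) (.cons (.rf (nat_lit 1919) (nat_lit 19926519232773908561233952)) (.cons (.br (nat_lit 14) (nat_lit 0) (.cons (.rf (nat_lit 167) (nat_lit 630977166458455400)) (.cons (.rf (nat_lit 1919) (nat_lit 19925375528835740179897539)) (.cons (.kr (nat_lit 10384593717074377623544961815281665) (nat_lit 40564820416229160462527989022720) (nat_lit 0) (nat_lit 1)) .nil)))) .nil)))),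
 (.br (nat_lit 13) (nat_lit 0) (.cons (.rf (nat_lit 1918) (nat_lit 622703726024184641456160)) (.cons (.ev (nat_lit 40723895715999698874780260368387) (nat_lit 2)) (.cons (.rf (nat_lit 1338) (nat_lit 21173188384317682753866085)) .nil)))),
 (.br (nat_lit 13) (nat_lit 0) (.cons (.rf (nat_lit 1920) (nat_lit 19926519232773908561233952)) (.cons (.ev (nat_lit 40723895715999698874780260368387) (nat_lit 2)) (.cons (.br (nat_lit 15) (nat_lit 0) (.cons (.rf (nat_lit 1921) (nat_lit 19925375528835740179897539)) (.cons (.rf (nat_lit 172) (nat_lit 628727665698873537)) (.cons (.ev (nat_lit 1329248357423895705471691652893573120) (nat_lit 1)) .nil)))) .nil)))),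
 (.br (nat_lit 15) (nat_lit 0) (.cons (.ev (nat_lit 1329248278505213460287530873974161408) (nat_lit 1)) .nil)),
 (.br (nat_lit 14) (nat_lit 0) (.cons (.ev (nat_lit 2658496556390252697479240954759086083) (nat_lit 2)) (.cons (.br (nat_lit 15) (nat_lit 0) (.cons (.ev (nat_lit 341611615199134191932287254736222028033) (nat_lit 1)) (.cons (.br (nat_lit 16) (nat_lit 0) (.cons (.ev (nat_lit 344270091632497207943709802067853902081) (nat_lit 2)) .nil)) .nil))) .nil))),
 (.br (nat_lit 14) (nat_lit 0) (.cons (.br (nat_lit 16) (nat_lit 0) (.cons (.ev (nat_lit 1334420371871613214796675154465325313) (nat_lit 1)) (.cons (.ev (nat_lit 2041725396348209354193799488917079065089) (nat_lit 3)) .nil))) (.cons (.br (nat_lit 17) (nat_lit 0) (.cons (.ev (nat_lit 1334420371871613214796675154465325313) (nat_lit 1)) (.cons (.ev (nat_lit 174224571904085932693663845722627285975553) (nat_lit 2)) .nil))) .nil))),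
 (.br (nat_lit 14) (nat_lit 0) (.cons (.rf (nat_lit 1925) (nat_lit 677582165103132179601393696)) (.cons (.br (nat_lit 16) (nat_lit 0) (.cons (.ev (nat_lit 2041725396348209354193799488917079065089) (nat_lit 3)) (.cons (.ev (nat_lit 174224571904085932693663845722627285975553) (nat_lit 2)) .nil))) .nil))),
 (.br (nat_lit 13) (nat_lit 0) (.cons (.br (nat_lit 14) (nat_lit 0) (.cons (.br (nat_lit 15) (nat_lit 0) (.cons (.kr (nat_lit 10425159155251700607081898567532545) (nat_lit 2658456150027365700300020224410910720) (nat_lit 0) (nat_lit 1)) (.cons (.rf (nat_lit 214) (nat_lit 631047566216404161)) .nil))) (.cons (.ev (nat_lit 10384752793587796491605847239033347) (nat_lit 2)) (.cons (.br (nat_lit 15) (nat_lit 0) (.cons (.rf (nat_lit 1923) (nat_lit 21174442659472880612543553)) (.cons (.br (nat_lit 15) (nat_lit 0) (.cons (.rf (nat_lit 1923) (nat_lit 21174442659472880612543553)) .nil)) .nil))) .nil)))) (.cons (.br (nat_lit 14) (nat_lit 0) (.cons (.ev (nat_lit 2658496556390252697479240954759086083) (nat_lit 2)) (.cons (.rf (nat_lit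 1924) (nat_lit 19926519232773908561233952)) (.cons (.br (nat_lit 14) (nat_lit 0) (.cons (.ev (nat_lit 2658496556390252697479240954759086083) (nat_lit 2)) (.cons (.rf (nat_lit 1924) (nat_lit 19926519232773908561233952)) .nil))) .nil)))) (.cons (.ev (nat_lit 20282719093383858534464404652033) (nat_lit 1)) (.cons (.br (nat_lit 14) (nat_lit 0) (.cons (.rf (nat_lit 1925) (nat_lit 677582165103132179601393696)) (.cons (.rf (nat_lit 1926) (nat_lit 677582165103132179601393696)) (.cons (.br (nat_lit 14) (nat_lit 0) (.cons (.rf (nat_lit 1925) (nat_lit 677582165103132179601393696)) (.cons (.rf (nat_lit 1926) (nat_lit 677582165103132179601393696)) .nil))) .nil)))) .nil))))),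
 (.br (nat_lit 14) (nat_lit 0) (.cons (.ev (nat_lit 2668840585288124493983741662766170627) (nat_lit 2)) (.cons (.kr (nat_lit 10384593717074377623544961815281665) (nat_lit 40564820416229160462527989022720) (nat_lit 0) (nat_lit 1)) (.cons (.br (nat_lit 15) (nat_lit 0) (.cons (.zr (nat_lit 163369090154712937026704967204864) (nat_lit 13292279957862456987417831533705691657) (nat_lit 48) (nat_lit 6)) (.cons (.zr (nat_lit 25962039204132451092819256237096970) (nat_lit 6646160261334187775737947614488035584) (nat_lit 24) (nat_lit 1)) .nil))) .nil))))]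

theorem c72 : chkAll C T R L72 (nat_lit 1900) = true := by decide +kernel

theorem l72 : (nat_lit 1900) + L72.length = (nat_lit 1929) := by decide +kernel

/-- part of the certificates -/
def L73 : List Prf := [(.br (nat_lit 13) (nat_lit 0) (.cons (.ev (nat_lit 2658496556390252697479240954759086083) (nat_lit 2)) (.cons (.rf (nat_lit 1928) (nat_lit 19926519232773908561233952)) (.cons (.br (nat_lit 14) (nat_lit 0) (.cons (.ev (nat_lit 2668840585288124493983741662766170627) (nat_lit 2)) (.cons (.rf (nat_lit 1928) (nat_lit 19925375528835740179897539)) (.cons (.kr (nat_lit 10384593717074377623544961815281665) (nat_lit 40564820416229160462527989022720) (nat_lit 0) (nat_lit 1)) .nil)))) .nil)))),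
 (.br (nat_lit 13) (nat_lit 0) (.cons (.br (nat_lit 15) (nat_lit 0) (.cons (.ev (nat_lit 1334440575053054370649788152075583488) (nat_lit 1)) .nil)) .nil)),
 (.br (nat_lit 13) (nat_lit 0) (.cons (.ev (nat_lit 2658496556390252697479240954759086083) (nat_lit 2)) (.cons (.ev (nat_lit 40723895715999698874780260368387) (nat_lit 2)) (.cons (.br (nat_lit 14) (nat_lit 0) (.cons (.rf (nat_lit 1930) (nat_lit 21174442659436561260709920)) (.cons (.br (nat_lit 14) (nat_lit 0) (.cons (.rf (nat_lit 1930) (nat_lit 21174442659436561260709920)) .nil)) .nil))) .nil)))),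
 (.br (nat_lit 13) (nat_lit 0) (.cons (.rf (nat_lit 1929) (nat_lit 19926519232773908561233952)) (.cons (.ev (nat_lit 40723895715999698874780260368387) (nat_lit 2)) (.cons (.br (nat_lit 15) (nat_lit 0) (.cons (.rf (nat_lit 1931) (nat_lit 19925375528835740179897539)) (.cons (.rf (nat_lit 214) (nat_lit 628727665598213313)) (.cons (.br (nat_lit 14) (nat_lit 0) (.cons (.ev (nat_lit 341611615199132987728834124080515907840) (nat_lit 1)) (.cons (.ev (nat_lit 87112285952122193897799727667835748483328) (nat_lit 1)) .nil))) .nil)))) .nil)))),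
 (.br (nat_lit 14) (nat_lit 0) (.cons (.kr (nat_lit 10384593717074377623544961815281665) (nat_lit 40564820416229160462527989022720) (nat_lit 0) (nat_lit 1)) (.cons (.ev (nat_lit 680564774407316317934812341844607894017) (nat_lit 2)) (.cons (.br (nat_lit 15) (nat_lit 0) (.cons (.ev (nat_lit 1329248357422686761277390539752210433) (nat_lit 1)) (.cons (.br (nat_lit 16) (nat_lit 0) (.cons (.ev (nat_lit 2047042308013198427588783751717680579073) (nat_lit 3)) .nil)) .nil))) .nil)))),
 (.br (nat_lit 13) (nat_lit 0) (.cons (.rf (nat_lit 1933) (nat_lit 19926519232773908561233952)) (.cons (.br (nat_lit 14) (nat_lit 0) (.cons (.ev (nat_lit 680575118436214189731606198828673269761) (nat_lit 2)) (.cons (.rf (nat_lit 214) (nat_lit 629885485803866305)) .nil))) (.cons (.br (nat_lit 14) (nat_lit 0) (.cons (.rf (nat_lit 1933) (nat_lit 19925375528835740179897539)) (.cons (.rf (nat_lit 214) (nat_lit 629851400943246529)) (.cons (.kr (nat_lit 10384593717074377623544961815281665) (nat_lit 40564820416229160462527989022720) (nat_lit 0) (nat_lit 1))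 .nil)))) .nil)))),
 (.br (nat_lit 13) (nat_lit 0) (.cons (.rf (nat_lit 1934) (nat_lit 19926519232773908561233952)) (.cons (.rf (nat_lit 1374) (nat_lit 19459491436092180236320)) (.cons (.br (nat_lit 16) (nat_lit 0) (.cons (.br (nat_lit 14) (nat_lit 0) (.cons (.ev (nat_lit 1334420371871613214796675154465325313) (nat_lit 1)) (.cons (.br (nat_lit 15) (nat_lit 0) (.cons (.ev (nat_lit 341616787213581914182353971636592508928) (nat_lit 1)) .nil)) .nil))) (.cons (.rf (nat_lit 214) (nat_lit 628726600546984129)) (.cons (.ev (nat_lit 680564774407316317934812341844607894017) (nat_lit 2)) .nil)))) .nil)))),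
 (.br (nat_lit 13) (nat_lit 0) (.cons (.rf (nat_lit 1934) (nat_lit 19926519232773908561233952)) (.cons (.rf (nat_lit 1374) (nat_lit 19459491436092180236320)) (.cons (.br (nat_lit 14) (nat_lit 0) (.cons (.rf (nat_lit 1935) (nat_lit 19925375528835740179897539)) (.cons (.br (nat_lit 14) (nat_lit 0) (.cons (.rf (nat_lit 1935) (nat_lit 19925375528835740179897539)) .nil)) .nil))) .nil)))),
 (.br (nat_lit 15) (nat_lit 0) (.cons (.kr (nat_lit 10384593717074377623544961815281665) (nat_lit 40564820416229160462527989022720) (nat_lit 0) (nat_lit 1)) (.cons (.br (nat_lit 16) (nat_lit 0) (.cons (.ev (nat_lit 2044383932993429655441204200506407387649) (nat_lit 3)) (.cons (.ev (nat_lit 683223230556723504689650054012415771137) (nat_lit 2)) .nil))) (.cons (.ev (nat_lit 1329248357422686761277390539752210433) (nat_lit 1)) .nil)))),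
 (.br (nat_lit 14) (nat_lit 0) (.cons (.rf (nat_lit 1937) (nat_lit 677581021399194011220057283)) (.cons (.kr (nat_lit 10384593717074377623544961815281665) (nat_lit 40564820416229160462527989022720) (nat_lit 0) (nat_lit 1)) (.cons (.br (nat_lit 15) (nat_lit 0) (.cons (.ev (nat_lit 340287559297334645833607903737385320448) (nat_lit 1)) (.cons (.rf (nat_lit 1911) (nat_lit 524048696692538716671019040)) .nil))) .nil)))),
 (.br (nat_lit 13) (nat_lit 0) (.cons (.rf (nat_lit 1937) (nat_lit 677582165103132179601393696)) (.cons (.rf (nat_lit 1938) (nat_lit 677582165103132179601393696)) (.cons (.br (nat_lit 14) (nat_lit 0) (.cons (.rf (nat_lit 1937) (nat_lit 677581021399194011220057283)) (.cons (.rf (nat_lit 1938) (nat_lit 677581021399194011220057283)) (.cons (.kr (nat_lit 10384593717074377623544961815281665) (nat_lit 40564820416229160462527989022720) (nat_lit 0) (nat_lit 1)) .nil)))) .nil)))),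
 (.br (nat_lit 13) (nat_lit 0) (.cons (.rf (nat_lit 1939) (nat_lit 677582165103132179601393696)) (.cons (.br (nat_lit 15) (nat_lit 0) (.cons (.br (nat_lit 14) (nat_lit 0) (.cons (.ev (nat_lit 2663709135657191732513255238295290114) (nat_lit 2)) (.cons (.ev (nat_lit 1334420371871613214796675154465325313) (nat_lit 1)) .nil))) (.cons (.rf (nat_lit 975) (nat_lit 628832017168146466)) (.cons (.br (nat_lit 16) (nat_lit 0) (.cons (.br (nat_lit 14) (nat_lit 0) (.cons (.ev (nat_lit 10384752793587796491605847239033347) (nat_lit 2)) .nil)) (.cons (.ev (nat_lit 350498813296543184986331063132747903271937) (nat_lit 3)) .nil))) .nil)))) (.cons (.br (nat_lit 15) (nat_lit 0) (.cons (.ev (nat_lit 1329248357422686761277390539752210433) (nat_lit 1)) (.cons (.br (nat_lit 16) (nat_lit 0) (.cons (.ev (nat_lit 683223230556723504689650054012415771137) (nat_lit 2)) (.cons (.ev (nat_lit 87113615180038441166148473733544488796416) (nat_lit 1)) .nil))) (.cons (.rf (nat_lit 802) (nat_lit 631013448367740962)) .nil)))) .nil)))),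
 (.br (nat_lit 7) (nat_lit 0) (.cons (.rf (nat_lit 1791) (nat_lit 292922029087135971)) (.cons (.rf (nat_lit 1720) (nat_lit 292922029087135971)) (.cons (.rf (nat_lit 1862) (nat_lit 14237153925744565443)) (.cons (.br (nat_lit 12) (nat_lit 0) (.cons (.ev (nat_lit 316913863779463340408677991943) (nat_lit 3)) (.cons (.ev (nat_lit 318151803744674639912561410563) (nat_lit 3)) (.cons (.ev (nat_lit 121852915179476347933695609800197) (nat_lit 3)) (.cons (.br (nat_lit 13) (nat_lit 0) (.cons (.ev (nat_lit 81129639628329087685823574443523) (nat_lit 3)) (.cons (.ev (nat_lit 81130877568294298985327323644423) (nat_lit 3)) (.cons (.br (nat_lit 8) (nat_lit 0) (.cons (.ev (nat_lit 81448409188481533681828077241349) (nat_lit 3)) (.cons (.ev (nat_lit 20850633986436585837985168156393991) (nat_lit 3)) (.cons (.br (nat_lit 11) (nat_lit 0) (.cons (.ev (nat_lit 20850635224376551623493624529028611) (nat_lit 3)) (.cons (.ev (nat_lit 1239153761403135518090593799) (nat_lit 3)) (.cons (.br (nat_lit 14) (nat_lit 0) (.cons (.rf (nat_lit 1863) (nat_lit 19926519232773908561233952))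 (.cons (.rf (nat_lit 1863) (nat_lit 18755336495281752360715328)) (.cons (.br (nat_lit 15) (nat_lit 0) (.cons (.rf (nat_lit 1864) (nat_lit 19926519232773908561233952)) (.cons (.br (nat_lit 15) (nat_lit 0) (.cons (.rf (nat_lit 1864) (nat_lit 19926519232773908561233952)) .nil)) .nil))) .nil)))) .nil)))) .nil)))) (.cons (.br (nat_lit 8) (nat_lit 0) (.cons (.br (nat_lit 14) (nat_lit 0) (.cons (.rf (nat_lit 1865) (nat_lit 583706118939841765935136)) (.cons (.br (nat_lit 14) (nat_lit 0) (.cons (.rf (nat_lit 1865) (nat_lit 583706118939841765935136)) (.cons (.br (nat_lit 15) (nat_lit 0) (.cons (.rf (nat_lit 1866) (nat_lit 677582165103132179601393696)) (.cons (.rf (nat_lit 1866) (nat_lit 640105464695078675185502240)) .nil))) .nil))) .nil))) (.cons (.rf (nat_lit 1868) (nat_lit 583706118939841765935136)) (.cons (.rf (nat_lit 1870) (nat_lit 583706118939841765935136)) (.cons (.br (nat_lit 11) (nat_lit 0) (.cons (.rf (nat_lit 1870) (nat_lit 547071928957117828006976)) (.cons (.rf (nat_lit 1868) (nat_lit 547071928957117828006976)) (.cons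 (.ev (nat_lit 1239153761403135518090593799) (nat_lit 3)) (.cons (.br (nat_lit 14) (nat_lit 0) (.cons (.rf (nat_lit 1871) (nat_lit 677582165103132179601393696)) (.cons (.br (nat_lit 14) (nat_lit 0) (.cons (.rf (nat_lit 1871) (nat_lit 677582165103132179601393696)) (.cons (.ev (nat_lit 20769505585962018729895649335181827) (nat_lit 3)) .nil))) (.cons (.br (nat_lit 14) (nat_lit 0) (.cons (.rf (nat_lit 1871) (nat_lit 677582165103132179601393696)) (.cons (.ev (nat_lit 20769505585962018729895649335181827) (nat_lit 3)) .nil))) .nil)))) .nil))))) .nil))))) .nil))))) .nil))))) (.cons (.br (nat_lit 8) (nat_lit 0) (.cons (.br (nat_lit 12) (nat_lit 0) (.cons (.ev (nat_lit 318770773801066140059434221573) (nat_lit 3)) (.cons (.ev (nat_lit 318770792764607273810891112453) (nat_lit 3)) (.cons (.br (nat_lit 13) (nat_lit 0) (.cons (.rf (nat_lit 1873) (nat_lit 583706118939841765935136)) (.cons (.rf (nat_lit 1874) (nat_lit 583706118939841765935136)) (.cons (.br (nat_lit 13) (nat_lit 0) (.cons (.rf (nat_lit 1873) (nat_lit 583706118939841765935136))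 (.cons (.rf (nat_lit 1874) (nat_lit 583706118939841765935136)) (.cons (.br (nat_lit 14) (nat_lit 0) (.cons (.rf (nat_lit 1874) (nat_lit 582562415001673384598723)) (.cons (.rf (nat_lit 1875) (nat_lit 677582165103132179601393696)) (.cons (.rf (nat_lit 1875) (nat_lit 640105464695078675185502240)) .nil)))) .nil)))) .nil)))) .nil)))) (.cons (.br (nat_lit 11) (nat_lit 0) (.cons (.rf (nat_lit 1878) (nat_lit 17022140995484340291616)) (.cons (.rf (nat_lit 1878) (nat_lit 15878437057315958955203)) (.cons (.br (nat_lit 13) (nat_lit 0) (.cons (.rf (nat_lit 1881) (nat_lit 583706118939841765935136)) (.cons (.rf (nat_lit 1883) (nat_lit 583706118939841765935136)) (.cons (.br (nat_lit 13) (nat_lit 0) (.cons (.rf (nat_lit 1881) (nat_lit 583706118939841765935136)) (.cons (.rf (nat_lit 1883) (nat_lit 583706118939841765935136)) (.cons (.br (nat_lit 14) (nat_lit 0) (.cons (.rf (nat_lit 1883) (nat_lit 582562415001673384598723)) (.cons (.rf (nat_lit 1884) (nat_lit 677582165103132179601393696)) (.cons (.rf (nat_lit 1884) (nat_lit 640105464695078675185502240))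 .nil)))) .nil)))) .nil)))) .nil)))) (.cons (.rf (nat_lit 1895) (nat_lit 17022140995484340291616)) (.cons (.rf (nat_lit 1895) (nat_lit 15878437057315958955203)) (.cons (.br (nat_lit 11) (nat_lit 0) (.cons (.br (nat_lit 13) (nat_lit 0) (.cons (.rf (nat_lit 1898) (nat_lit 583706118939841765935136)) (.cons (.rf (nat_lit 1900) (nat_lit 583706118939841765935136)) (.cons (.br (nat_lit 13) (nat_lit 0) (.cons (.rf (nat_lit 1898) (nat_lit 583706118939841765935136)) (.cons (.rf (nat_lit 1900) (nat_lit 583706118939841765935136)) (.cons (.br (nat_lit 14) (nat_lit 0) (.cons (.rf (nat_lit 1900) (nat_lit 582562415001673384598723)) (.cons (.rf (nat_lit 1901) (nat_lit 677582165103132179601393696)) (.cons (.rf (nat_lit 1901) (nat_lit 640105464695078675185502240)) .nil)))) .nil)))) .nil)))) (.cons (.rf (nat_lit 1913) (nat_lit 583706118939841765935136)) (.cons (.rf (nat_lit 1913) (nat_lit 582562415001673384598723)) (.cons (.br (nat_lit 12) (nat_lit 0) (.cons (.rf (nat_lit 1915) (nat_lit 583706118939841765935136)) (.cons (.rf (nat_lit 1915)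 (nat_lit 582562415001673384598723)) (.cons (.br (nat_lit 13) (nat_lit 0) (.cons (.rf (nat_lit 1916) (nat_lit 583706118939841765935136)) (.cons (.br (nat_lit 13) (nat_lit 0) (.cons (.rf (nat_lit 1916) (nat_lit 583706118939841765935136)) (.cons (.br (nat_lit 14) (nat_lit 0) (.cons (.rf (nat_lit 1917) (nat_lit 677582165103132179601393696)) (.cons (.rf (nat_lit 1917) (nat_lit 640105464695078675185502240)) .nil))) .nil))) .nil))) (.cons (.br (nat_lit 13) (nat_lit 0) (.cons (.rf (nat_lit 1920) (nat_lit 19926519232773908561233952)) (.cons (.rf (nat_lit 1921) (nat_lit 19926519232773908561233952)) (.cons (.rf (nat_lit 1922) (nat_lit 19926519232773908561233952)) (.cons (.br (nat_lit 13) (nat_lit 0) (.cons (.rf (nat_lit 1920) (nat_lit 19926519232773908561233952)) (.cons (.rf (nat_lit 1338) (nat_lit 21173188384317682753866085)) (.cons (.rf (nat_lit 1922) (nat_lit 19926519232773908561233952)) .nil)))) .nil))))) .nil))))) (.cons (.br (nat_lit 12) (nat_lit 0) (.cons (.rf (nat_lit 1927) (nat_lit 19926519232773908561233952)) (.cons (.rf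 (nat_lit 1927) (nat_lit 19925375528835740179897539)) (.cons (.br (nat_lit 13) (nat_lit 0) (.cons (.rf (nat_lit 1929) (nat_lit 19926519232773908561233952)) (.cons (.rf (nat_lit 1931) (nat_lit 19926519232773908561233952)) (.cons (.rf (nat_lit 1932) (nat_lit 19926519232773908561233952)) (.cons (.br (nat_lit 13) (nat_lit 0) (.cons (.rf (nat_lit 1929) (nat_lit 19926519232773908561233952)) (.cons (.rf (nat_lit 1931) (nat_lit 19926519232773908561233952)) (.cons (.rf (nat_lit 1932) (nat_lit 19926519232773908561233952)) .nil)))) .nil))))) (.cons (.br (nat_lit 13) (nat_lit 0) (.cons (.rf (nat_lit 1934) (nat_lit 19926519232773908561233952)) (.cons (.rf (nat_lit 1935) (nat_lit 19926519232773908561233952)) (.cons (.rf (nat_lit 1936) (nat_lit 19926519232773908561233952)) (.cons (.br (nat_lit 13) (nat_lit 0) (.cons (.rf (nat_lit 1934) (nat_lit 19926519232773908561233952)) (.cons (.rf (nat_lit 1935) (nat_lit 19926519232773908561233952)) (.cons (.rf (nat_lit 1936) (nat_lit 19926519232773908561233952)) .nil)))) .nil))))) (.cons (.br (nat_lit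 13) (nat_lit 0) (.cons (.rf (nat_lit 1939) (nat_lit 677582165103132179601393696)) (.cons (.rf (nat_lit 1940) (nat_lit 677582165103132179601393696)) (.cons (.br (nat_lit 13) (nat_lit 0) (.cons (.rf (nat_lit 1939) (nat_lit 677582165103132179601393696)) (.cons (.rf (nat_lit 1940) (nat_lit 677582165103132179601393696)) (.cons (.ev (nat_lit 40723895715999698874780260368387) (nat_lit 2)) .nil)))) (.cons (.br (nat_lit 13) (nat_lit 0) (.cons (.rf (nat_lit 1939) (nat_lit 677582165103132179601393696)) (.cons (.rf (nat_lit 1940) (nat_lit 677582165103132179601393696)) (.cons (.ev (nat_lit 40723895715999698874780260368387) (nat_lit 2)) .nil)))) .nil))))) .nil)))))) .nil)))))) .nil)))))) .nil)))))),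
 (.br (nat_lit 14) (nat_lit 0) (.cons (.br (nat_lit 15) (nat_lit 0) (.cons (.ev (nat_lit 1344804886362952393191559520915095552) (nat_lit 2)) (.cons (.rf (nat_lit 180) (nat_lit 631046501361256673)) .nil))) .nil)),
 (.br (nat_lit 15) (nat_lit 0) (.cons (.ev (nat_lit 7985793610472871025615566495264538627) (nat_lit 3)) .nil))]

theorem c73 : chkAll C T R L73 (nat_lit 1929) = true := by decide +kernel

theorem l73 : (nat_lit 1929) + L73.length = (nat_lit 1944) := by decide +kernel

/-- part of the certificates -/
def L74 : List Prf := [(.br (nat_lit 11) (nat_lit 0) (.cons (.ev (nat_lit 318151803744674635497267921415) (nat_lit 3)) (.cons (.br (nat_lit 13) (nat_lit 0) (.cons (.ev (nat_lit 203301323182607865054195800737799) (nat_lit 4)) (.cons (.br (nat_lit 14) (nat_lit 0) (.cons (.rf (nat_lit 1942) (nat_lit 583706118939841765935136)) (.cons (.br (nat_lit 14) (nat_lit 0) (.cons (.rf (nat_lit 1942) (nat_lit 583706118939841765935136)) (.cons (.br (nat_lit 15) (nat_lit 0) (.cons (.rf (nat_lit 1943) (nat_lit 677582165103132179601393696))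 (.cons (.rf (nat_lit 1943) (nat_lit 640105464695078675185502240)) .nil))) .nil))) .nil))) .nil))) .nil))),
 (.br (nat_lit 15) (nat_lit 0) (.cons (.ev (nat_lit 5316993430929900732724599880333526531) (nat_lit 3)) (.cons (.br (nat_lit 16) (nat_lit 0) (.cons (.ev (nat_lit 5253302543670829616066032434282755) (nat_lit 2)) (.cons (.ev (nat_lit 1366446379983807381124576993961712944643) (nat_lit 3)) .nil))) .nil))),
 (.br (nat_lit 13) (nat_lit 0) (.cons (.ev (nat_lit 20769187435371922098939005042557443) (nat_lit 3)) (.cons (.br (nat_lit 14) (nat_lit 0) (.cons (.ev (nat_lit 5253302543670829616066032434282755) (nat_lit 2)) (.cons (.br (nat_lit 15) (nat_lit 0) (.cons (.ev (nat_lit 5337762617126081114488531614030758407) (nat_lit 3)) (.cons (.rf (nat_lit 166) (nat_lit 631047566350616801)) .nil))) .nil))) (.cons (.br (nat_lit 14) (nat_lit 0) (.cons (.br (nat_lit 15) (nat_lit 0) (.cons (.ev (nat_lit 5316993430929900732724599880333526531) (nat_lit 3)) (.cons (.rf (nat_lit 167) (nat_lit 631047566350616801)) .nil))) (.cons (.ev (nat_lit 5253302543670829616066032434282755)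 (nat_lit 2)) (.cons (.br (nat_lit 15) (nat_lit 0) (.cons (.rf (nat_lit 1945) (nat_lit 19926519232773908561233952)) (.cons (.br (nat_lit 15) (nat_lit 0) (.cons (.rf (nat_lit 1945) (nat_lit 19926519232773908561233952)) .nil)) .nil))) .nil)))) .nil)))),
 (.br (nat_lit 14) (nat_lit 0) (.cons (.ev (nat_lit 340297943811823567123181277380517954307) (nat_lit 2)) (.cons (.br (nat_lit 15) (nat_lit 0) (.cons (.ev (nat_lit 344270050908293215823115992396149620738) (nat_lit 2)) (.cons (.ev (nat_lit 5337681170575016450749485450782704131) (nat_lit 3)) .nil))) .nil))),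
 (.br (nat_lit 16) (nat_lit 0) (.cons (.ev (nat_lit 5337681170575016450749485450782704131) (nat_lit 3)) (.cons (.ev (nat_lit 1361150318002065561458311532624554099203) (nat_lit 3)) .nil))),
 (.br (nat_lit 14) (nat_lit 0) (.cons (.rf (nat_lit 1948) (nat_lit 677582165103132179601393696)) (.cons (.rf (nat_lit 1948) (nat_lit 640105428948706433984109763)) .nil))),
 (.br (nat_lit 14) (nat_lit 0) (.cons (.rf (nat_lit 1949) (nat_lit 677582165103132179601393696)) (.cons (.ev (nat_lit 20850633986436585837985168156393991) (nat_lit 3)) .nil))),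
 (.br (nat_lit 15) (nat_lit 0) (.cons (.ev (nat_lit 1365716606194759801840042809422578948) (nat_lit 3)) .nil)),
 (.br (nat_lit 15) (nat_lit 0) (.cons (.br (nat_lit 16) (nat_lit 0) (.cons (.ev (nat_lit 88139815661112389178418651373784522621186) (nat_lit 3)) .nil)) .nil)),
 (.br (nat_lit 16) (nat_lit 0) (.cons (.ev (nat_lit 2041704627160156226010924429408001721347) (nat_lit 3)) .nil)),
 (.br (nat_lit 14) (nat_lit 0) (.cons (.ev (nat_lit 1334440575053054352202762603389321473) (nat_lit 1)) (.cons (.br (nat_lit 15) (nat_lit 0) (.cons (.ev (nat_lit 344270050908293215823115992396149620738) (nat_lit 2)) (.cons (.br (nat_lit 16) (nat_lit 0) (.cons (.ev (nat_lit 683223230556723504689650054012415771137) (nat_lit 2)) .nil)) .nil))) .nil))),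
 (.br (nat_lit 16) (nat_lit 0) (.cons (.ev (nat_lit 683223230556723504689650054012415771137) (nat_lit 2)) .nil)),
 (.br (nat_lit 15) (nat_lit 0) (.cons (.ev (nat_lit 2658456150646349887042161182720918017) (nat_lit 2)) (.cons (.ev (nat_lit 1329288843945822839047068646631342595) (nat_lit 2)) .nil))),
 (.br (nat_lit 14) (nat_lit 0) (.cons (.rf (nat_lit 1956) (nat_lit 677582165103132179601393696)) (.cons (.br (nat_lit 17) (nat_lit 0) (.cons (.ev (nat_lit 174224592673591517441997063683746128331271) (nat_lit 3)) (.cons (.ev (nat_lit 340282387282576234351748190911240077313) (nat_lit 1)) .nil))) .nil))),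
 (.br (nat_lit 11) (nat_lit 0) (.cons (.ev (nat_lit 79537652246452447006890721281) (nat_lit 1)) (.cons (.br (nat_lit 12) (nat_lit 0) (.cons (.ev (nat_lit 79538861190790863308107808768) (nat_lit 1)) (.cons (.br (nat_lit 14) (nat_lit 0) (.cons (.rf (nat_lit 1876) (nat_lit 569990499355503723584)) (.cons (.br (nat_lit 14) (nat_lit 0) (.cons (.rf (nat_lit 1876) (nat_lit 569990499355503723584)) (.cons (.br (nat_lit 15) (nat_lit 0) (.cons (.rf (nat_lit 1951) (nat_lit 677582165103132179601393696)) (.cons (.rf (nat_lit 1951) (nat_lit 640105464695078675185502240)) .nil))) .nil))) .nil))) .nil))) (.cons (.br (nat_lit 12) (nat_lit 0) (.cons (.ev (nat_lit 79538861190790863308107808768) (nat_lit 1)) (.cons (.kr (nat_lit 10384593717074377623543866598621185) (nat_lit 158457533954348290915791011840) (nat_lit 0) (nat_lit 1)) (.cons (.br (nat_lit 13) (nat_lit 0) (.cons (.ev (nat_lit 5192297169228781716235371744919808) (nat_lit 1)) (.cons (.ev (nat_lit 40723276755424788589631171068417) (nat_lit 2)) (.cons (.br (nat_lit 14) (nat_lit 0) (.cons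 (.ev (nat_lit 5192535161997149396544608624902912) (nat_lit 2)) (.cons (.ev (nat_lit 10425158537490606928685636457070593) (nat_lit 2)) (.cons (.br (nat_lit 15) (nat_lit 0) (.cons (.rf (nat_lit 1952) (nat_lit 677582165103132179601393696)) (.cons (.br (nat_lit 15) (nat_lit 0) (.cons (.rf (nat_lit 1952) (nat_lit 677582165103132179601393696)) .nil)) .nil))) .nil)))) .nil)))) .nil)))) (.cons (.br (nat_lit 12) (nat_lit 0) (.cons (.br (nat_lit 14) (nat_lit 0) (.cons (.rf (nat_lit 993) (nat_lit 532050799262169240936)) (.cons (.br (nat_lit 14) (nat_lit 0) (.cons (.rf (nat_lit 993) (nat_lit 532050799262169240936)) (.cons (.rf (nat_lit 952) (nat_lit 677582129039117596034703561)) .nil))) .nil))) (.cons (.br (nat_lit 14) (nat_lit 0) (.cons (.ev (nat_lit 40723276755424788589631171068417) (nat_lit 2)) (.cons (.ev (nat_lit 5192297168019837521934258603557121) (nat_lit 1)) (.cons (.br (nat_lit 13) (nat_lit 0) (.cons (.br (nat_lit 15) (nat_lit 0) (.cons (.ev (nat_lit 2668840585907094550664598085697536001) (nat_lit 2)) (.cons (.rf (nat_lit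 166) (nat_lit 631047566350584065)) .nil))) (.cons (.br (nat_lit 16) (nat_lit 0) (.cons (.ev (nat_lit 2041715092725055385281229687999823217159) (nat_lit 3)) (.cons (.rf (nat_lit 175) (nat_lit 629888647876019394)) .nil))) (.cons (.br (nat_lit 15) (nat_lit 0) (.cons (.rf (nat_lit 1953) (nat_lit 677582165103132179601393696)) (.cons (.br (nat_lit 15) (nat_lit 0) (.cons (.rf (nat_lit 1953) (nat_lit 677582165103132179601393696)) .nil)) .nil))) .nil)))) .nil)))) (.cons (.br (nat_lit 13) (nat_lit 0) (.cons (.br (nat_lit 14) (nat_lit 0) (.cons (.ev (nat_lit 31153939608766642777600382288134147) (nat_lit 3)) (.cons (.br (nat_lit 15) (nat_lit 0) (.cons (.ev (nat_lit 2668840585907094550664598085697536001) (nat_lit 2)) (.cons (.rf (nat_lit 166) (nat_lit 596110584373938433)) .nil))) .nil))) (.cons (.ev (nat_lit 40723276755424788589631171068417) (nat_lit 2)) (.cons (.br (nat_lit 14) (nat_lit 0) (.cons (.rf (nat_lit 1907) (nat_lit 19459456430834084578368)) (.cons (.rf (nat_lit 1954) (nat_lit 19926519232773908561233952)) (.cons (.br (nat_lit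 14) (nat_lit 0) (.cons (.rf (nat_lit 167) (nat_lit 631013481486059777)) (.cons (.rf (nat_lit 1954) (nat_lit 19926519232773908561233952)) .nil))) .nil)))) .nil)))) (.cons (.br (nat_lit 13) (nat_lit 0) (.cons (.br (nat_lit 14) (nat_lit 0) (.cons (.br (nat_lit 15) (nat_lit 0) (.cons (.ev (nat_lit 2658456150646349887042161182720918017) (nat_lit 2)) (.cons (.rf (nat_lit 167) (nat_lit 631047533131695298)) .nil))) (.cons (.ev (nat_lit 31153939608766642777600382288134147) (nat_lit 3)) (.cons (.br (nat_lit 15) (nat_lit 0) (.cons (.br (nat_lit 15) (nat_lit 0) (.cons (.ev (nat_lit 2689650814767346844514460239460040707) (nat_lit 3)) .nil)) (.cons (.br (nat_lit 15) (nat_lit 0) (.cons (.ev (nat_lit 2689650814767346844514460239460040707) (nat_lit 3)) .nil)) .nil))) .nil)))) (.cons (.br (nat_lit 15) (nat_lit 0) (.cons (.br (nat_lit 14) (nat_lit 0) (.cons (.ev (nat_lit 2710501134315837582756300266220028943) (nat_lit 4)) (.cons (.rf (nat_lit 167) (nat_lit 631013448267171010)) .nil))) (.cons (.ev (nat_lit 1329248357422682057285595249273536513)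 (nat_lit 1)) (.cons (.br (nat_lit 14) (nat_lit 0) (.cons (.rf (nat_lit 1955) (nat_lit 677582165103132179601393696)) (.cons (.br (nat_lit 14) (nat_lit 0) (.cons (.rf (nat_lit 1955) (nat_lit 677582165103132179601393696)) .nil)) .nil))) .nil)))) (.cons (.ev (nat_lit 40723276755424788589631171068417) (nat_lit 2)) (.cons (.br (nat_lit 14) (nat_lit 0) (.cons (.rf (nat_lit 1956) (nat_lit 677582165103132179601393696)) (.cons (.rf (nat_lit 1957) (nat_lit 677582165103132179601393696)) (.cons (.br (nat_lit 14) (nat_lit 0) (.cons (.rf (nat_lit 1956) (nat_lit 677582165103132179601393696)) (.cons (.rf (nat_lit 1957) (nat_lit 677582165103132179601393696)) .nil))) .nil)))) .nil))))) .nil))))) .nil))))),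
 (.br (nat_lit 14) (nat_lit 0) (.cons (.br (nat_lit 15) (nat_lit 0) (.cons (.ev (nat_lit 2668840585907085068894026811855470593) (nat_lit 2)) (.cons (.rf (nat_lit 180) (nat_lit 631045402794394818)) .nil))) .nil)),
 (.br (nat_lit 15) (nat_lit 0) (.cons (.ev (nat_lit 1365716606194759801840042809422578948) (nat_lit 3)) .nil)),
 (.br (nat_lit 15) (nat_lit 0) (.cons (.br (nat_lit 16) (nat_lit 0) (.cons (.ev (nat_lit 87114949600410623473299056328014137655555) (nat_lit 2)) .nil)) .nil)),
 (.br (nat_lit 14) (nat_lit 0) (.cons (.ev (nat_lit 5192297168019837521934258603557121) (nat_lit 1)) (.cons (.br (nat_lit 12) (nat_lit 0) (.cons (.br (nat_lit 15) (nat_lit 0) (.cons (.ev (nat_lit 2668840585907094550664598085697536001) (nat_lit 2)) (.cons (.rf (nat_lit 284) (nat_lit 630940984746973255)) .nil))) (.cons (.br (nat_lit 15) (nat_lit 0) (.cons (.ev (nat_lit 680575118436214180249835627554831204353) (nat_lit 2)) (.cons (.br (nat_lit 15) (nat_lit 0) (.cons (.ev (nat_lit 680575118436214180249835627554831204353) (nat_lit 2)) .nil)) .nil)))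 (.cons (.br (nat_lit 15) (nat_lit 0) (.cons (.rf (nat_lit 1961) (nat_lit 677582165103132179601393696)) (.cons (.br (nat_lit 15) (nat_lit 0) (.cons (.rf (nat_lit 1961) (nat_lit 677582165103132179601393696)) .nil)) .nil))) .nil)))) .nil))),
 (.br (nat_lit 16) (nat_lit 0) (.cons (.ev (nat_lit 683223230556723504689650054012415771137) (nat_lit 2)) .nil)),
 (.br (nat_lit 12) (nat_lit 0) (.cons (.rf (nat_lit 1962) (nat_lit 583706118939841765935136)) (.cons (.br (nat_lit 15) (nat_lit 0) (.cons (.br (nat_lit 14) (nat_lit 0) (.cons (.zr (nat_lit 31275476236263376175971041623934981) (nat_lit 2658456466938830627981732840030339072) (nat_lit 16) (nat_lit 1)) (.cons (.rf (nat_lit 284) (nat_lit 631046501232285761)) .nil))) (.cons (.ev (nat_lit 1329248357422682057285595249273536513) (nat_lit 1)) (.cons (.br (nat_lit 14) (nat_lit 0) (.cons (.rf (nat_lit 1963) (nat_lit 677582165103132179601393696)) (.cons (.br (nat_lit 14) (nat_lit 0) (.cons (.rf (nat_lit 1963) (nat_lit 677582165103132179601393696)) .nil)) .nil))) .nil)))) .nil))),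
 (.br (nat_lit 16) (nat_lit 0) (.cons (.ev (nat_lit 683244040150520554682818674394994574851) (nat_lit 3)) (.cons (.ev (nat_lit 340282387282576234351748190911240077313) (nat_lit 1)) .nil))),
 (.br (nat_lit 14) (nat_lit 0) (.cons (.rf (nat_lit 1965) (nat_lit 677582165103132179601393696)) (.cons (.rf (nat_lit 1965) (nat_lit 640105464695078675185502240)) .nil))),
 (.br (nat_lit 14) (nat_lit 0) (.cons (.rf (nat_lit 1966) (nat_lit 677582165103132179601393696)) (.cons (.br (nat_lit 16) (nat_lit 0) (.cons (.br (nat_lit 15) (nat_lit 0) (.cons (.ev (nat_lit 2668840585907094550664598085697536001) (nat_lit 2)) .nil)) (.cons (.ev (nat_lit 340282387282576234351748190911240077313) (nat_lit 1)) .nil))) .nil))),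
 (.br (nat_lit 11) (nat_lit 0) (.cons (.br (nat_lit 12) (nat_lit 0) (.cons (.ev (nat_lit 40723276746017093225028318659073) (nat_lit 2)) (.cons (.br (nat_lit 14) (nat_lit 0) (.cons (.rf (nat_lit 1959) (nat_lit 583706118939841765935136)) (.cons (.br (nat_lit 14) (nat_lit 0) (.cons (.rf (nat_lit 1959) (nat_lit 583706118939841765935136)) (.cons (.br (nat_lit 15) (nat_lit 0) (.cons (.rf (nat_lit 1960) (nat_lit 677582165103132179601393696)) (.cons (.rf (nat_lit 1960) (nat_lit 640105464695078675185502240)) .nil))) .nil))) .nil))) .nil))) (.cons (.rf (nat_lit 1958) (nat_lit 14663148617618966976739)) (.cons (.br (nat_lit 12) (nat_lit 0) (.cons (.rf (nat_lit 1962) (nat_lit 583706118939841765935136)) (.cons (.rf (nat_lit 1964) (nat_lit 583706118939841765935136)) (.cons (.br (nat_lit 12) (nat_lit 0) (.cons (.rf (nat_lit 1962) (nat_lit 583706118939841765935136)) (.cons (.rf (nat_lit 1964) (nat_lit 583706118939841765935136)) (.cons (.br (nat_lit 14) (nat_lit 0) (.cons (.rf (nat_lit 1966) (nat_lit 677582165103132179601393696)) (.cons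 (.rf (nat_lit 1967) (nat_lit 677582165103132179601393696)) (.cons (.rf (nat_lit 1967) (nat_lit 640105464695078675185502240)) .nil)))) .nil)))) .nil)))) .nil))))]

theorem c74 : chkAll C T R L74 (nat_lit 1944) = true := by decide +kernel

theorem l74 : (nat_lit 1944) + L74.length = (nat_lit 1969) := by decide +kernel

/-- part of the certificates -/
def L75 : List Prf := [(.br (nat_lit 15) (nat_lit 0) (.cons (.br (nat_lit 16) (nat_lit 0) (.cons (.ev (nat_lit 88139815661112389178418651373784522621186) (nat_lit 3)) .nil)) .nil)),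
 (.br (nat_lit 12) (nat_lit 0) (.cons (.zr (nat_lit 2658497031759246709568242773896986627) (nat_lit 31153784246059063986885469331785728) (nat_lit 16) (nat_lit 2)) (.cons (.br (nat_lit 16) (nat_lit 0) (.cons (.ev (nat_lit 683243959022120061152169446709422982659) (nat_lit 3)) (.cons (.ev (nat_lit 680564734000334475085091007697577443331) (nat_lit 2)) .nil))) .nil))),
 (.br (nat_lit 12) (nat_lit 0) (.cons (.br (nat_lit 15) (nat_lit 0) (.cons (.ev (nat_lit 2658578003560306343970895766510371331) (nat_lit 3)) (.cons (.rf (nat_lit 167) (nat_lit 631045369474615559)) .nil))) (.cons (.br (nat_lit 16) (nat_lit 0) (.cons (.ev (nat_lit 2041715092725055385281229687999823217159) (nat_lit 3)) (.cons (.rf (nat_lit 175) (nat_lit 629818347851128002)) .nil))) (.cons (.rf (nat_lit 1354) (nat_lit 20003257787272266579543296)) .nil)))),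
 (.br (nat_lit 12) (nat_lit 0) (.cons (.rf (nat_lit 1971) (nat_lit 19926519232773908561233952)) (.cons (.br (nat_lit 14) (nat_lit 0) (.cons (.ev (nat_lit 2668840585288115086288377059980870147) (nat_lit 2)) (.cons (.ev (nat_lit 680575118435595219674925342405741904387) (nat_lit 2)) (.cons (.br (nat_lit 15) (nat_lit 0) (.cons (.ev (nat_lit 344270050908293215823115992396149620738) (nat_lit 2)) (.cons (.rf (nat_lit 788) (nat_lit 20678095753260580475110)) .nil))) .nil)))) (.cons (.br (nat_lit 14) (nat_lit 0) (.cons (.ev (nat_lit 2668840585288115086288377059980870147) (nat_lit 2)) (.cons (.br (nat_lit 16) (nat_lit 0) (.cons (.ev (nat_lit 2679265745681302140564298883037136387) (nat_lit 3)) (.cons (.ev (nat_lit 340282387282885714639202772734854562048) (nat_lit 1)) .nil))) (.cons (.br (nat_lit 15) (nat_lit 0) (.cons (.br (nat_lit 16) (nat_lit 0) (.cons (.ev (nat_lit 1363787964558913666666820106604104647171) (nat_lit 3)) .nil)) (.cons (.ev (nat_lit 174224571863678950841406140797899365285891) (nat_lit 2)) .nil))) .nil)))) .nil)))),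
 (.br (nat_lit 12) (nat_lit 0) (.cons (.rf (nat_lit 1971) (nat_lit 19926519232773908561233952)) (.cons (.rf (nat_lit 1972) (nat_lit 19926519232773908561233952)) (.cons (.br (nat_lit 14) (nat_lit 0) (.cons (.br (nat_lit 15) (nat_lit 0) (.cons (.ev (nat_lit 1329288843942181894345222808259461122) (nat_lit 2)) (.cons (.ev (nat_lit 1329248357732171789473140613155193088) (nat_lit 1)) .nil))) (.cons (.ev (nat_lit 680575118435595219674925342405741904387) (nat_lit 2)) (.cons (.br (nat_lit 16) (nat_lit 0) (.cons (.ev (nat_lit 680585543912901075676013893544340488711) (nat_lit 3)) (.cons (.ev (nat_lit 174224571863678950841406140797899365285891) (nat_lit 2)) .nil))) .nil)))) .nil)))),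
 (.br (nat_lit 11) (nat_lit 0) (.cons (.br (nat_lit 12) (nat_lit 0) (.cons (.ev (nat_lit 79228162514264338693055643904) (nat_lit 1)) (.cons (.ev (nat_lit 155769065451627953719160675320994835) (nat_lit 5)) (.cons (.br (nat_lit 13) (nat_lit 0) (.cons (.ev (nat_lit 5192296858539550067352434989072384) (nat_lit 1)) (.cons (.ev (nat_lit 40723895725481469446054035324931) (nat_lit 2)) (.cons (.br (nat_lit 14) (nat_lit 0) (.cons (.ev (nat_lit 5192534543027093005044461751828738) (nat_lit 2)) (.cons (.ev (nat_lit 10425159156460663320185783263035907) (nat_lit 2)) (.cons (.br (nat_lit 15) (nat_lit 0) (.cons (.rf (nat_lit 1969) (nat_lit 677582165103132179601393696)) (.cons (.br (nat_lit 15) (nat_lit 0) (.cons (.rf (nat_lit 1969) (nat_lit 677582165103132179601393696)) .nil)) .nil))) .nil)))) .nil)))) .nil)))) (.cons (.rf (nat_lit 1968) (nat_lit 14663148617618966976739)) (.cons (.ev (nat_lit 5192296858534846075557144543952896) (nat_lit 1)) (.cons (.br (nat_lit 13) (nat_lit 0) (.cons (.br (nat_lit 12) (nat_lit 0) (.cons (.ev (nat_lit 72774394853391153059485644621217799)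 (nat_lit 4)) (.cons (.ev (nat_lit 40723895715999698874780260368387) (nat_lit 2)) (.cons (.br (nat_lit 14) (nat_lit 0) (.cons (.ev (nat_lit 10425159156460663320185783263035907) (nat_lit 2)) (.cons (.kr (nat_lit 5192296858534827628811971305931008) (nat_lit 79228162532711081667270279168) (nat_lit 1) (nat_lit 0)) (.cons (.br (nat_lit 15) (nat_lit 0) (.cons (.br (nat_lit 15) (nat_lit 0) (.cons (.ev (nat_lit 2689650814767346844514460239460040707) (nat_lit 3)) .nil)) (.cons (.br (nat_lit 15) (nat_lit 0) (.cons (.ev (nat_lit 2689650814767346844514460239460040707) (nat_lit 3)) .nil)) .nil))) .nil)))) .nil)))) (.cons (.ev (nat_lit 5192296858539550067352434989072384) (nat_lit 1)) (.cons (.br (nat_lit 14) (nat_lit 0) (.cons (.ev (nat_lit 10425159156460663320185783263035907) (nat_lit 2)) (.cons (.ev (nat_lit 1334440575362544084390870917224398848) (nat_lit 1)) (.cons (.br (nat_lit 12) (nat_lit 0) (.cons (.br (nat_lit 12) (nat_lit 0) (.cons (.zr (nat_lit 2658497031759246709568242773896986627) (nat_lit 31153784246059063986885469331785728)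 (nat_lit 16) (nat_lit 2)) (.cons (.rf (nat_lit 167) (nat_lit 630943148236184770)) .nil))) (.cons (.rf (nat_lit 1970) (nat_lit 19926519232773908561233952)) (.cons (.br (nat_lit 12) (nat_lit 0) (.cons (.rf (nat_lit 167) (nat_lit 630943148236184770)) (.cons (.rf (nat_lit 1970) (nat_lit 19926519232773908561233952)) .nil))) .nil)))) .nil)))) (.cons (.br (nat_lit 12) (nat_lit 0) (.cons (.rf (nat_lit 1971) (nat_lit 19926519232773908561233952)) (.cons (.rf (nat_lit 1972) (nat_lit 19926519232773908561233952)) (.cons (.rf (nat_lit 1973) (nat_lit 19926519232773908561233952)) (.cons (.br (nat_lit 12) (nat_lit 0) (.cons (.rf (nat_lit 1354) (nat_lit 20003257787272266579543296)) (.cons (.rf (nat_lit 1972) (nat_lit 19926519232773908561233952)) (.cons (.rf (nat_lit 1973) (nat_lit 19926519232773908561233952)) .nil)))) .nil))))) .nil))))) .nil))))),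
 (.br (nat_lit 16) (nat_lit 0) (.cons (.ev (nat_lit 683223230556723504689650054012415771137) (nat_lit 2)) .nil)),
 (.br (nat_lit 12) (nat_lit 0) (.cons (.br (nat_lit 14) (nat_lit 0) (.cons (.ev (nat_lit 5192297168019837521934258603557121) (nat_lit 1)) (.cons (.br (nat_lit 15) (nat_lit 0) (.cons (.ev (nat_lit 2668840585288115086288377059980870147) (nat_lit 2)) (.cons (.rf (nat_lit 167) (nat_lit 596107355799724226)) .nil))) .nil))) (.cons (.ev (nat_lit 40723895715999698874780260368387) (nat_lit 2)) (.cons (.br (nat_lit 15) (nat_lit 0) (.cons (.br (nat_lit 14) (nat_lit 0) (.cons (.zr (nat_lit 10506288175905250359193620940062727) (nat_lit 2658456150645126793980105349350294528) (nat_lit 16) (nat_lit 2)) (.cons (.rf (nat_lit 166) (nat_lit 631010252911845570)) .nil))) (.cons (.ev (nat_lit 1329248357422682057285595249273536513) (nat_lit 1)) (.cons (.br (nat_lit 14) (nat_lit 0) (.cons (.rf (nat_lit 1975) (nat_lit 677582165103132179601393696)) (.cons (.br (nat_lit 14) (nat_lit 0) (.cons (.rf (nat_lit 1975) (nat_lit 677582165103132179601393696))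 .nil)) .nil))) .nil)))) .nil)))),
 (.br (nat_lit 12) (nat_lit 0) (.cons (.rf (nat_lit 1976) (nat_lit 583706118939841765935136)) (.cons (.ev (nat_lit 79228167255149622130953421056) (nat_lit 1)) (.cons (.br (nat_lit 14) (nat_lit 0) (.cons (.rf (nat_lit 1976) (nat_lit 581347126561976392620259)) (.cons (.ev (nat_lit 5192297168019837521934258603557121) (nat_lit 1)) (.cons (.ev (nat_lit 5192534852521602683135432878850051) (nat_lit 2)) (.cons (.br (nat_lit 15) (nat_lit 0) (.cons (.rf (nat_lit 239) (nat_lit 631010252912002306)) (.cons (.ev (nat_lit 2658456150646349887042161182720918017) (nat_lit 2)) (.cons (.ev (nat_lit 2668840585288115086288377059980870147) (nat_lit 2)) .nil)))) .nil))))) .nil)))),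
 (.br (nat_lit 12) (nat_lit 0) (.cons (.ev (nat_lit 40723895715999698874780260368387) (nat_lit 2)) (.cons (.ev (nat_lit 79228167255149622130953421056) (nat_lit 1)) (.cons (.br (nat_lit 13) (nat_lit 0) (.cons (.rf (nat_lit 1976) (nat_lit 581347126561976392620259)) (.cons (.br (nat_lit 16) (nat_lit 0) (.cons (.ev (nat_lit 685881767521332345591348624805429641731) (nat_lit 3)) (.cons (.rf (nat_lit 175) (nat_lit 628692482400493762)) .nil))) (.cons (.rf (nat_lit 1354) (nat_lit 21173224123794747123991812)) .nil)))) .nil)))),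
 (.br (nat_lit 14) (nat_lit 0) (.cons (.rf (nat_lit 1976) (nat_lit 581347126561976392620259)) (.cons (.rf (nat_lit 1978) (nat_lit 581347126561976392620259)) (.cons (.ev (nat_lit 72692315096043765221953862256692745) (nat_lit 4)) .nil)))),
 (.br (nat_lit 15) (nat_lit 0) (.cons (.ev (nat_lit 7996177728202014539329160728876810241) (nat_lit 3)) (.cons (.ev (nat_lit 683223230556723504689650054012415771137) (nat_lit 2)) (.cons (.rf (nat_lit 1039) (nat_lit 21170903216385476700250313)) .nil)))),
 (.br (nat_lit 14) (nat_lit 0) (.cons (.br (nat_lit 15) (nat_lit 0) (.cons (.ev (nat_lit 340287579500206601942673562974877188353) (nat_lit 1)) (.cons (.br (nat_lit 16) (nat_lit 0) (.cons (.ev (nat_lit 2044352657517820815194031575877768445957) (nat_lit 3)) .nil)) .nil))) (.cons (.br (nat_lit 17) (nat_lit 0) (.cons (.ev (nat_lit 1219580051349272292768486010455831446161423) (nat_lit 4)) (.cons (.ev (nat_lit 87112285952122193897799727667835748483328) (nat_lit 1)) .nil))) .nil))),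
 (.br (nat_lit 14) (nat_lit 0) (.cons (.rf (nat_lit 1981) (nat_lit 677582165103132179601393696)) (.cons (.br (nat_lit 16) (nat_lit 0) (.cons (.br (nat_lit 15) (nat_lit 0) (.cons (.ev (nat_lit 2658456150646340479058566203784167937) (nat_lit 2)) .nil)) (.cons (.ev (nat_lit 340287579500206601942673562974877188353) (nat_lit 1)) .nil))) .nil))),
 (.br (nat_lit 12) (nat_lit 0) (.cons (.br (nat_lit 14) (nat_lit 0) (.cons (.br (nat_lit 15) (nat_lit 0) (.cons (.ev (nat_lit 2658456150646340479058566203784167937) (nat_lit 2)) (.cons (.rf (nat_lit 214) (nat_lit 631047532896853186)) .nil))) (.cons (.ev (nat_lit 5192297168019837521934258603557121) (nat_lit 1)) (.cons (.br (nat_lit 15) (nat_lit 0) (.cons (.br (nat_lit 15) (nat_lit 0) (.cons (.ev (nat_lit 1334440575362539380543190814821449728) (nat_lit 1)) .nil)) (.cons (.br (nat_lit 15) (nat_lit 0) (.cons (.ev (nat_lit 1334440575362539380543190814821449728) (nat_lit 1)) .nil)) .nil))) .nil)))) (.cons (.br (nat_lit 14) (nat_lit 0) (.cons (.br (nat_lit 14) (nat_lit 0) (.cons (.ev (nat_lit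 7996177728202014539329160728876810241) (nat_lit 3)) (.cons (.rf (nat_lit 214) (nat_lit 631013448036360386)) .nil))) (.cons (.rf (nat_lit 1980) (nat_lit 19926519232773908561233952)) (.cons (.br (nat_lit 14) (nat_lit 0) (.cons (.rf (nat_lit 214) (nat_lit 631013448036360386)) (.cons (.rf (nat_lit 1980) (nat_lit 19926519232773908561233952)) .nil))) .nil)))) (.cons (.ev (nat_lit 40723895715999698874780260368387) (nat_lit 2)) (.cons (.br (nat_lit 14) (nat_lit 0) (.cons (.rf (nat_lit 1981) (nat_lit 677582165103132179601393696)) (.cons (.rf (nat_lit 1982) (nat_lit 677582165103132179601393696)) (.cons (.br (nat_lit 14) (nat_lit 0) (.cons (.rf (nat_lit 1981) (nat_lit 677582165103132179601393696)) (.cons (.rf (nat_lit 1982) (nat_lit 677582165103132179601393696)) .nil))) .nil)))) .nil))))),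
 (.br (nat_lit 14) (nat_lit 0) (.cons (.rf (nat_lit 1983) (nat_lit 18753013352644371174922467)) (.cons (.ev (nat_lit 5192534852521602683135432878850051) (nat_lit 2)) (.cons (.ev (nat_lit 5192297168019837521934258603557121) (nat_lit 1)) (.cons (.br (nat_lit 13) (nat_lit 0) (.cons (.br (nat_lit 15) (nat_lit 0) (.cons (.ev (nat_lit 2047011154391122485374165636084318340615) (nat_lit 3)) (.cons (.br (nat_lit 16) (nat_lit 0) (.cons (.ev (nat_lit 2047042308013198427588783751717680579073) (nat_lit 3)) .nil)) .nil))) (.cons (.ev (nat_lit 680564734000334465603608666799886827523) (nat_lit 2)) (.cons (.br (nat_lit 16) (nat_lit 0) (.cons (.br (nat_lit 15) (nat_lit 0) (.cons (.ev (nat_lit 2047042389144074763419071876995888710145) (nat_lit 3)) .nil)) (.cons (.ev (nat_lit 349129708501766453494489861287750656066051) (nat_lit 3)) .nil))) .nil)))) .nil))))),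
 (.br (nat_lit 12) (nat_lit 0) (.cons (.rf (nat_lit 1983) (nat_lit 19926519232773908561233952)) (.cons (.ev (nat_lit 79228167255149622130953421056) (nat_lit 1)) (.cons (.rf (nat_lit 1984) (nat_lit 19926519232773908561233952)) (.cons (.br (nat_lit 14) (nat_lit 0) (.cons (.rf (nat_lit 1983) (nat_lit 18753013352644371174922467)) (.cons (.rf (nat_lit 1984) (nat_lit 18753013352644371174922467)) (.cons (.ev (nat_lit 5192297168019837521934258603557121) (nat_lit 1)) (.cons (.br (nat_lit 17) (nat_lit 0) (.cons (.rf (nat_lit 802) (nat_lit 631047566515214401)) (.cons (.ev (nat_lit 174224571863678950841406140797899365285891) (nat_lit 2)) (.cons (.ev (nat_lit 174224582248114830546570885417756619046913) (nat_lit 2)) .nil)))) .nil))))) .nil))))),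
 (.br (nat_lit 12) (nat_lit 0) (.cons (.rf (nat_lit 1983) (nat_lit 19926519232773908561233952)) (.cons (.ev (nat_lit 79228167255149622130953421056) (nat_lit 1)) (.cons (.br (nat_lit 13) (nat_lit 0) (.cons (.rf (nat_lit 1983) (nat_lit 18753013352644371174922467)) (.cons (.br (nat_lit 16) (nat_lit 0) (.cons (.ev (nat_lit 683223230556723504689650054012415771137) (nat_lit 2)) (.cons (.rf (nat_lit 214) (nat_lit 628828821741995202)) .nil))) (.cons (.rf (nat_lit 1374) (nat_lit 19459456533195068113984)) (.cons (.br (nat_lit 16) (nat_lit 0) (.cons (.br (nat_lit 14) (nat_lit 0) (.cons (.ev (nat_lit 2044352657517820815194031575877768445957) (nat_lit 3)) (.cons (.ev (nat_lit 340287579500206601942673562974877188353) (nat_lit 1)) .nil))) (.cons (.rf (nat_lit 975) (nat_lit 628832050454143041)) (.cons (.ev (nat_lit 680564855853867401524912496509486105091) (nat_lit 3)) .nil)))) .nil))))) (.cons (.br (nat_lit 13) (nat_lit 0) (.cons (.rf (nat_lit 1983) (nat_lit 18753013352644371174922467)) (.cons (.br (nat_lit 14) (nat_lit 0) (.cons (.br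 (nat_lit 14) (nat_lit 0) (.cons (.ev (nat_lit 72692315096043765221953862256692745) (nat_lit 4)) .nil)) (.cons (.br (nat_lit 14) (nat_lit 0) (.cons (.ev (nat_lit 72692315096043765221953862256692745) (nat_lit 4)) .nil)) .nil))) (.cons (.br (nat_lit 15) (nat_lit 0) (.cons (.br (nat_lit 14) (nat_lit 0) (.cons (.ev (nat_lit 683233614992603228743860609746364006915) (nat_lit 2)) (.cons (.br (nat_lit 16) (nat_lit 0) (.cons (.ev (nat_lit 680575118436214189731606198828673269761) (nat_lit 2)) .nil)) .nil))) (.cons (.ev (nat_lit 681894022685513264737312303060579648258) (nat_lit 2)) (.cons (.br (nat_lit 16) (nat_lit 0) (.cons (.br (nat_lit 14) (nat_lit 0) (.cons (.ev (nat_lit 72692315096043765221953862256692745) (nat_lit 4)) .nil)) (.cons (.ev (nat_lit 174905136678808922526857567443333752816131) (nat_lit 3)) .nil))) .nil)))) (.cons (.br (nat_lit 15) (nat_lit 0) (.cons (.ev (nat_lit 1329248357423890964730523403071520768) (nat_lit 1)) (.cons (.br (nat_lit 16) (nat_lit 0) (.cons (.br (nat_lit 14) (nat_lit 0) (.cons (.ev (nat_lit 72692315096043765221953862256692745)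 (nat_lit 4)) .nil)) (.cons (.ev (nat_lit 174910453509662423775816286826180800415239) (nat_lit 3)) .nil))) (.cons (.ev (nat_lit 174225901111798687812790820824580085645569) (nat_lit 2)) .nil)))) .nil))))) .nil))))),
 (.br (nat_lit 14) (nat_lit 0) (.cons (.ev (nat_lit 10425158537500088411026534080577537) (nat_lit 2)) (.cons (.rf (nat_lit 1986) (nat_lit 18753013352644371174922467)) (.cons (.br (nat_lit 15) (nat_lit 0) (.cons (.br (nat_lit 16) (nat_lit 0) (.cons (.zr (nat_lit 5327297052850722881199642140716564997) (nat_lit 2722258935367507712540476152330292953088) (nat_lit 16) (nat_lit 1)) .nil)) (.cons (.ev (nat_lit 4088778007353211050935761628499685016069) (nat_lit 4)) (.cons (.br (nat_lit 13) (nat_lit 0) (.cons (.zr (nat_lit 1361160621623365019384661218006359212032) (nat_lit 10633823968136237042160216843963336193) (nat_lit 16) (nat_lit 7)) .nil)) .nil)))) .nil))))]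

theorem c75 : chkAll C T R L75 (nat_lit 1969) = true := by decide +kernel

theorem l75 : (nat_lit 1969) + L75.length = (nat_lit 1988) := by decide +kernel

/-- part of the certificates -/
def L76 : List Prf := [(.br (nat_lit 12) (nat_lit 0) (.cons (.ev (nat_lit 40723895715999698874780260368387) (nat_lit 2)) (.cons (.rf (nat_lit 1985) (nat_lit 19926519232773908561233952)) (.cons (.rf (nat_lit 1986) (nat_lit 19926519232773908561233952)) (.cons (.br (nat_lit 14) (nat_lit 0) (.cons (.rf (nat_lit 1983) (nat_lit 18753013352644371174922467)) (.cons (.rf (nat_lit 1987) (nat_lit 677582165103132179601393696)) (.cons (.rf (nat_lit 1986) (nat_lit 18753013352644371174922467)) (.cons (.br (nat_lit 14) (nat_lit 0) (.cons (.rf (nat_lit 1983) (nat_lit 18753013352644371174922467)) (.cons (.rf (nat_lit 1987) (nat_lit 677582165103132179601393696)) (.cons (.rf (nat_lit 1986) (nat_lit 18753013352644371174922467)) .nil)))) .nil))))) .nil))))),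
 (.br (nat_lit 7) (nat_lit 0) (.cons (.rf (nat_lit 1791) (nat_lit 292922029087135971)) (.cons (.ev (nat_lit 620183667829351698636341249) (nat_lit 2)) (.cons (.br (nat_lit 8) (nat_lit 0) (.cons (.ev (nat_lit 1858142633761825622836904961) (nat_lit 3)) (.cons (.rf (nat_lit 1944) (nat_lit 493858305440582043680)) (.cons (.rf (nat_lit 1944) (nat_lit 458111933199380651203)) (.cons (.br (nat_lit 11) (nat_lit 0) (.cons (.rf (nat_lit 1944) (nat_lit 493743326000817641699)) (.cons (.rf (nat_lit 1944) (nat_lit 458008564956394521664)) (.cons (.ev (nat_lit 1239153761403135518090593799) (nat_lit 3)) (.cons (.br (nat_lit 12) (nat_lit 0) (.cons (.kr (nat_lit 20282410812577490038580720959488) (nat_lit 79228167236630821562700791808) (nat_lit 4) (nat_lit 0)) (.cons (.rf (nat_lit 1946) (nat_lit 583706118939841765935136)) (.cons (.rf (nat_lit 1946) (nat_lit 547107663718162251127011)) (.cons (.br (nat_lit 13) (nat_lit 0) (.cons (.rf (nat_lit 1946) (nat_lit 583670372567600564542659)) (.cons (.rf (nat_lit 1946) (nat_lit 547071928957117828006976))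 (.cons (.br (nat_lit 14) (nat_lit 0) (.cons (.rf (nat_lit 1947) (nat_lit 19926519232773908561233952)) (.cons (.br (nat_lit 14) (nat_lit 0) (.cons (.ev (nat_lit 340297943811823567123181277380517954307) (nat_lit 2)) (.cons (.rf (nat_lit 172) (nat_lit 629888681094940897)) .nil))) (.cons (.br (nat_lit 14) (nat_lit 0) (.cons (.rf (nat_lit 1947) (nat_lit 19926519232773908561233952)) (.cons (.rf (nat_lit 172) (nat_lit 629888681094940897)) .nil))) .nil)))) (.cons (.br (nat_lit 14) (nat_lit 0) (.cons (.rf (nat_lit 1949) (nat_lit 677582165103132179601393696)) (.cons (.rf (nat_lit 1950) (nat_lit 677582165103132179601393696)) (.cons (.rf (nat_lit 1950) (nat_lit 640105428948706433984109763)) .nil)))) .nil))))) .nil))))) .nil))))) .nil))))) (.cons (.rf (nat_lit 1862) (nat_lit 15390075430351412419)) (.cons (.br (nat_lit 8) (nat_lit 0) (.cons (.ev (nat_lit 620202667976317166598488069) (nat_lit 3)) (.cons (.rf (nat_lit 1958) (nat_lit 17022140995484340291616)) (.cons (.rf (nat_lit 1968) (nat_lit 17022140995484340291616)) (.cons (.rf (nat_lit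 1974) (nat_lit 17022140995484340291616)) (.cons (.br (nat_lit 11) (nat_lit 0) (.cons (.rf (nat_lit 1974) (nat_lit 14663148617618966976739)) (.cons (.rf (nat_lit 1968) (nat_lit 14663148617618966976739)) (.cons (.rf (nat_lit 1958) (nat_lit 14663148617618966976739)) (.cons (.br (nat_lit 12) (nat_lit 0) (.cons (.rf (nat_lit 1976) (nat_lit 583706118939841765935136)) (.cons (.rf (nat_lit 1977) (nat_lit 583706118939841765935136)) (.cons (.rf (nat_lit 1978) (nat_lit 583706118939841765935136)) (.cons (.br (nat_lit 12) (nat_lit 0) (.cons (.rf (nat_lit 1976) (nat_lit 583706118939841765935136)) (.cons (.rf (nat_lit 1977) (nat_lit 583706118939841765935136)) (.cons (.rf (nat_lit 1978) (nat_lit 583706118939841765935136)) (.cons (.br (nat_lit 14) (nat_lit 0) (.cons (.rf (nat_lit 1976) (nat_lit 581347126561976392620259)) (.cons (.rf (nat_lit 1978) (nat_lit 581347126561976392620259)) (.cons (.rf (nat_lit 1979) (nat_lit 677582165103132179601393696)) (.cons (.rf (nat_lit 1979) (nat_lit 640105464695078675185502240)) .nil))))) .nil))))) .nil)))))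 (.cons (.br (nat_lit 12) (nat_lit 0) (.cons (.rf (nat_lit 1983) (nat_lit 19926519232773908561233952)) (.cons (.rf (nat_lit 1985) (nat_lit 19926519232773908561233952)) (.cons (.rf (nat_lit 1986) (nat_lit 19926519232773908561233952)) (.cons (.rf (nat_lit 1988) (nat_lit 19926519232773908561233952)) (.cons (.br (nat_lit 12) (nat_lit 0) (.cons (.rf (nat_lit 1983) (nat_lit 19926519232773908561233952)) (.cons (.rf (nat_lit 1985) (nat_lit 19926519232773908561233952)) (.cons (.rf (nat_lit 1986) (nat_lit 19926519232773908561233952)) (.cons (.rf (nat_lit 1988) (nat_lit 19926519232773908561233952)) .nil))))) .nil)))))) .nil)))))) .nil)))))) .nil)))))),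
 (.br (nat_lit 13) (nat_lit 0) (.cons (.kr (nat_lit 10384593718278581076675626128113665) (nat_lit 158456329750895159156261519360) (nat_lit 0) (nat_lit 1)) (.cons (.br (nat_lit 14) (nat_lit 0) (.cons (.ev (nat_lit 52085386319716351840847699793808397) (nat_lit 4)) (.cons (.br (nat_lit 15) (nat_lit 0) (.cons (.ev (nat_lit 5337762618982991283663032054515500037) (nat_lit 3)) (.cons (.rf (nat_lit 20) (nat_lit 631046501362112552)) .nil))) .nil))) (.cons (.br (nat_lit 14) (nat_lit 0) (.cons (.br (nat_lit 15) (nat_lit 0) (.cons (.ev (nat_lit 16023510347986258487369614582648537093) (nat_lit 4)) (.cons (.rf (nat_lit 20) (nat_lit 631047566514128936)) .nil))) (.cons (.br (nat_lit 15) (nat_lit 0) (.cons (.ev (nat_lit 1361150237189958785928619825523280838661) (nat_lit 3)) (.cons (.br (nat_lit 15) (nat_lit 0) (.cons (.ev (nat_lit 1361150237189958785928619825523280838661) (nat_lit 3)) .nil)) .nil))) (.cons (.br (nat_lit 15) (nat_lit 0) (.cons (.br (nat_lit 15) (nat_lit 0) (.cons (.ev (nat_lit 5337762618983010099630222012523217925) (nat_lit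 3)) .nil)) (.cons (.br (nat_lit 15) (nat_lit 0) (.cons (.ev (nat_lit 5337762618983010099630222012523217925) (nat_lit 3)) .nil)) .nil))) .nil)))) .nil)))),
 (.br (nat_lit 13) (nat_lit 0) (.cons (.br (nat_lit 14) (nat_lit 0) (.cons (.ev (nat_lit 5233099981209156585073709286556419) (nat_lit 2)) (.cons (.br (nat_lit 15) (nat_lit 0) (.cons (.ev (nat_lit 5337762618982991283663032054515500037) (nat_lit 3)) (.cons (.rf (nat_lit 20) (nat_lit 596108454236593192)) .nil))) .nil))) (.cons (.kr (nat_lit 2658455991569836468174098089717530625) (nat_lit 40564820416229160462527989022720) (nat_lit 0) (nat_lit 1)) (.cons (.br (nat_lit 15) (nat_lit 0) (.cons (.br (nat_lit 14) (nat_lit 0) (.cons (.ev (nat_lit 5337762618983010099630222012523217925) (nat_lit 3)) (.cons (.rf (nat_lit 20) (nat_lit 631013481652652072)) .nil))) (.cons (.ev (nat_lit 1329289001779546347963611751024624129) (nat_lit 2)) (.cons (.br (nat_lit 14) (nat_lit 0) (.cons (.br (nat_lit 14) (nat_lit 0) (.cons (.zr (nat_lit 5192534546649147880387177370091523) (nat_lit 1329248278504004571433460886728212736)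 (nat_lit 8) (nat_lit 1)) .nil)) (.cons (.br (nat_lit 14) (nat_lit 0) (.cons (.zr (nat_lit 5192534546649147880387177370091523) (nat_lit 1329248278504004571433460886728212736) (nat_lit 8) (nat_lit 1)) .nil)) .nil))) .nil)))) .nil)))),
 (.br (nat_lit 14) (nat_lit 0) (.cons (.ev (nat_lit 5212658497509919455246839120396288) (nat_lit 1)) (.cons (.ev (nat_lit 5192296859743753520484194518564864) (nat_lit 1)) (.cons (.ev (nat_lit 5232940909540867642543926369386752) (nat_lit 2)) (.cons (.br (nat_lit 15) (nat_lit 0) (.cons (.ev (nat_lit 1329227995784920595342628998940196864) (nat_lit 1)) (.cons (.ev (nat_lit 1329248357422686761277391643542028288) (nat_lit 1)) (.cons (.ev (nat_lit 1329248436650849275686406284193628418) (nat_lit 2)) (.cons (.kr (nat_lit 5212579269347405118569077050179584) (nat_lit 1329228075013083109534628622981136384) (nat_lit 4) (nat_lit 0)) .nil))))) .nil))))),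
 (.br (nat_lit 15) (nat_lit 0) (.cons (.ev (nat_lit 1329227995784920595342628998940196864) (nat_lit 1)) (.cons (.ev (nat_lit 1334440575054268000388859006975803648) (nat_lit 1)) (.cons (.ev (nat_lit 1355250881909587917517332020636026372) (nat_lit 3)) (.cons (.ev (nat_lit 1339632871911603347003079682469069568) (nat_lit 2)) .nil))))),
 (.br (nat_lit 14) (nat_lit 0) (.cons (.br (nat_lit 15) (nat_lit 0) (.cons (.ev (nat_lit 2663648368275503866675482446864253697) (nat_lit 2)) (.cons (.kr (nat_lit 5212579269347405118569077050179584) (nat_lit 1329228075013083109534628622981136384) (nat_lit 4) (nat_lit 0)) .nil))) (.cons (.rf (nat_lit 1993) (nat_lit 677582165103132179601393696)) .nil))),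
 (.br (nat_lit 14) (nat_lit 0) (.cons (.rf (nat_lit 1994) (nat_lit 677582165103132179601393696)) (.cons (.br (nat_lit 17) (nat_lit 0) (.cons (.ev (nat_lit 348449164496545953559641966972671516214273) (nat_lit 3)) (.cons (.ev (nat_lit 349810273194726598564166891075522684781569) (nat_lit 3)) .nil))) .nil))),
 (.br (nat_lit 12) (nat_lit 0) (.cons (.rf (nat_lit 1990) (nat_lit 583706118939841765935136)) (.cons (.rf (nat_lit 1991) (nat_lit 583706118939841765935136)) (.cons (.br (nat_lit 13) (nat_lit 0) (.cons (.rf (nat_lit 1991) (nat_lit 547071928957117828006976)) (.cons (.rf (nat_lit 1990) (nat_lit 547071928957117828006976)) (.cons (.br (nat_lit 14) (nat_lit 0) (.cons (.rf (nat_lit 1992) (nat_lit 19926519232773908561233952)) (.cons (.br (nat_lit 14) (nat_lit 0) (.cons (.ev (nat_lit 5232941524888869086360089535774977) (nat_lit 2)) (.cons (.rf (nat_lit 87) (nat_lit 631047566212148481)) .nil))) (.cons (.br (nat_lit 14) (nat_lit 0) (.cons (.rf (nat_lit 1992) (nat_lit 19926519232773908561233952)) (.cons (.rf (nat_lit 87) (nat_lit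 631047566212148481)) .nil))) .nil)))) (.cons (.br (nat_lit 14) (nat_lit 0) (.cons (.rf (nat_lit 1994) (nat_lit 677582165103132179601393696)) (.cons (.rf (nat_lit 1995) (nat_lit 677582165103132179601393696)) (.cons (.br (nat_lit 14) (nat_lit 0) (.cons (.rf (nat_lit 1993) (nat_lit 677582165103132179601393696)) (.cons (.rf (nat_lit 1995) (nat_lit 677582165103132179601393696)) .nil))) .nil)))) .nil))))) .nil)))),
 (.br (nat_lit 13) (nat_lit 0) (.cons (.ev (nat_lit 5337762618983010099630222012523217925) (nat_lit 3)) (.cons (.br (nat_lit 15) (nat_lit 0) (.cons (.ev (nat_lit 1361150237189958766965078691771823947781) (nat_lit 3)) (.cons (.ev (nat_lit 5337762618982991283663032054515500037) (nat_lit 3)) .nil))) .nil))),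
 (.br (nat_lit 14) (nat_lit 0) (.cons (.br (nat_lit 13) (nat_lit 0) (.cons (.ev (nat_lit 52085388795596282263446707560645637) (nat_lit 4)) (.cons (.br (nat_lit 15) (nat_lit 0) (.cons (.ev (nat_lit 16023510345510340629864730479781873677) (nat_lit 4)) (.cons (.rf (nat_lit 20) (nat_lit 596074369372068904)) .nil))) .nil))) (.cons (.kr (nat_lit 10384593718278581076675626128113665) (nat_lit 158456329750895159156261519360) (nat_lit 0) (nat_lit 1)) (.cons (.br (nat_lit 13) (nat_lit 0) (.cons (.br (nat_lit 13) (nat_lit 0) (.cons (.ev (nat_lit 5337762618983010099630222012523217925) (nat_lit 3)) (.cons (.rf (nat_lit 20) (nat_lit 630978331636111400)) .nil))) (.cons (.rf (nat_lit 1997) (nat_lit 19926519232773908561233952)) (.cons (.br (nat_lit 13) (nat_lit 0) (.cons (.rf (nat_lit 20) (nat_lit 630978331636111400)) (.cons (.rf (nat_lit 1997) (nat_lit 19926519232773908561233952)) .nil))) .nil)))) .nil)))),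
 (.br (nat_lit 13) (nat_lit 0) (.cons (.br (nat_lit 15) (nat_lit 0) (.cons (.kr (nat_lit 2658455991569836468174098089717530625) (nat_lit 40564820416229160462527989022720) (nat_lit 0) (nat_lit 1)) (.cons (.kr (nat_lit 5212579269347405118569077050179584) (nat_lit 1329228075013083109534628622981136384) (nat_lit 4) (nat_lit 0)) .nil))) (.cons (.br (nat_lit 15) (nat_lit 0) (.cons (.kr (nat_lit 1334420292643450700532337556609564673) (nat_lit 20361637766165934761540812013568) (nat_lit 0) (nat_lit 1)) (.cons (.kr (nat_lit 2658455991569836468174098089717530625) (nat_lit 40564820416229160462527989022720) (nat_lit 0) (nat_lit 1)) .nil))) .nil))),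
 (.br (nat_lit 13) (nat_lit 0) (.cons (.rf (nat_lit 1999) (nat_lit 677582165103132179601393696)) (.cons (.br (nat_lit 16) (nat_lit 0) (.cons (.br (nat_lit 15) (nat_lit 0) (.cons (.ev (nat_lit 681894022844275433849623116161696858115) (nat_lit 2)) .nil)) (.cons (.ev (nat_lit 1361150237188720845815258112677552325633) (nat_lit 3)) .nil))) .nil))),
 (.br (nat_lit 12) (nat_lit 0) (.cons (.rf (nat_lit 1996) (nat_lit 583706118939841765935136)) (.cons (.rf (nat_lit 1998) (nat_lit 583706118939841765935136)) (.cons (.br (nat_lit 14) (nat_lit 0) (.cons (.rf (nat_lit 1998) (nat_lit 505863158986198282673347)) (.cons (.rf (nat_lit 1996) (nat_lit 505863158986198282673347)) (.cons (.kr (nat_lit 10384593718278581076675626128113665) (nat_lit 158456329750895159156261519360) (nat_lit 0) (nat_lit 1)) (.cons (.br (nat_lit 13) (nat_lit 0) (.cons (.rf (nat_lit 1999) (nat_lit 677582165103132179601393696)) (.cons (.rf (nat_lit 2000) (nat_lit 677582165103132179601393696)) (.cons (.br (nat_lit 13) (nat_lit 0) (.cons (.rf (nat_lit 1999) (nat_lit 677582165103132179601393696))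 (.cons (.rf (nat_lit 2000) (nat_lit 677582165103132179601393696)) .nil))) .nil)))) .nil))))) .nil)))),
 (.br (nat_lit 13) (nat_lit 0) (.cons (.ev (nat_lit 1329248436650858757168747181884244226) (nat_lit 2)) (.cons (.br (nat_lit 14) (nat_lit 0) (.cons (.ev (nat_lit 2663648367656543291766323197681795331) (nat_lit 2)) (.cons (.kr (nat_lit 1334420292643450700532337556609564673) (nat_lit 20361637766165934761540812013568) (nat_lit 0) (nat_lit 1)) .nil))) .nil))),
 (.br (nat_lit 13) (nat_lit 0) (.cons (.br (nat_lit 14) (nat_lit 0) (.cons (.ev (nat_lit 5232940905909404710143461865620227) (nat_lit 2)) (.cons (.ev (nat_lit 1365635317164311600768162318604698115) (nat_lit 3)) .nil))) (.cons (.br (nat_lit 14) (nat_lit 0) (.cons (.kr (nat_lit 1334420292643450700532337556609564673) (nat_lit 20361637766165934761540812013568) (nat_lit 0) (nat_lit 1)) (.cons (.ev (nat_lit 1339632871911593939307719477663171328) (nat_lit 2)) .nil))) .nil))),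
 (.br (nat_lit 13) (nat_lit 0) (.cons (.rf (nat_lit 2003) (nat_lit 677582165103132179601393696)) (.cons (.br (nat_lit 16) (nat_lit 0) (.cons (.ev (nat_lit 1366446460798390074659345277193981788161) (nat_lit 3)) (.cons (.ev (nat_lit 349810273194726598582982858265480558281729) (nat_lit 3)) .nil))) .nil))),
 (.br (nat_lit 12) (nat_lit 0) (.cons (.rf (nat_lit 1996) (nat_lit 583706118939841765935136)) (.cons (.rf (nat_lit 2001) (nat_lit 583706118939841765935136)) (.cons (.br (nat_lit 15) (nat_lit 0) (.cons (.rf (nat_lit 2001) (nat_lit 547071928957117828006976)) (.cons (.rf (nat_lit 1996) (nat_lit 505863158986198282673347)) (.cons (.br (nat_lit 13) (nat_lit 0) (.cons (.rf (nat_lit 2002) (nat_lit 19926519232773908561233952)) (.cons (.br (nat_lit 13) (nat_lit 0) (.cons (.ev (nat_lit 1329248436650858757168747181884244226) (nat_lit 2)) (.cons (.rf (nat_lit 87) (nat_lit 631011351214501121)) .nil))) (.cons (.br (nat_lit 13) (nat_lit 0) (.cons (.rf (nat_lit 2002) (nat_lit 19926519232773908561233952)) (.cons (.rf (nat_lit 87) (nat_lit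 631011351214501121)) .nil))) .nil)))) (.cons (.br (nat_lit 13) (nat_lit 0) (.cons (.rf (nat_lit 2003) (nat_lit 677582165103132179601393696)) (.cons (.rf (nat_lit 2004) (nat_lit 677582165103132179601393696)) (.cons (.br (nat_lit 13) (nat_lit 0) (.cons (.rf (nat_lit 2003) (nat_lit 677582165103132179601393696)) (.cons (.rf (nat_lit 2004) (nat_lit 677582165103132179601393696)) .nil))) .nil)))) .nil))))) .nil))))]

theorem c76 : chkAll C T R L76 (nat_lit 1988) = true := by decide +kernel

theorem l76 : (nat_lit 1988) + L76.length = (nat_lit 2006) := by decide +kernel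

/-- part of the certificates -/
def L77 : List Prf := [(.br (nat_lit 14) (nat_lit 0) (.cons (.rf (nat_lit 1996) (nat_lit 505863158986198282673347)) (.cons (.ev (nat_lit 174905141830461732449866758202910383931649) (nat_lit 2)) .nil))),
 (.br (nat_lit 13) (nat_lit 0) (.cons (.rf (nat_lit 2005) (nat_lit 547071928957117828006976)) (.cons (.rf (nat_lit 2001) (nat_lit 547071928957117828006976)) (.cons (.br (nat_lit 14) (nat_lit 0) (.cons (.rf (nat_lit 1996) (nat_lit 505863158986198282673347)) (.cons (.rf (nat_lit 2006) (nat_lit 677582165103132179601393696)) (.cons (.rf (nat_lit 2006) (nat_lit 640105464695078675185502240)) .nil)))) .nil)))),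
 (.br (nat_lit 15) (nat_lit 0) (.cons (.ev (nat_lit 680569946580533472260090582854033998339) (nat_lit 2)) (.cons (.br (nat_lit 15) (nat_lit 0) (.cons (.ev (nat_lit 680569946580533472260090582854033998339) (nat_lit 2)) .nil)) .nil))),
 (.br (nat_lit 14) (nat_lit 0) (.cons (.ev (nat_lit 5212658496301012082375179848646913) (nat_lit 1)) .nil)),
 (.br (nat_lit 14) (nat_lit 0) (.cons (.kr (nat_lit 10384594337248637612853911013556227) (nat_lit 158456329751039837294274150912) (nat_lit 0) (nat_lit 13)) (.cons (.br (nat_lit 13) (nat_lit 0) (.cons (.br (nat_lit 15) (nat_lit 0) (.cons (.ev (nat_lit 10675565957526480912805165845038106123) (nat_lit 4)) (.cons (.rf (nat_lit 284) (nat_lit 630975069474365478)) .nil))) (.cons (.rf (nat_lit 2008) (nat_lit 19926519232773908561233952)) (.cons (.br (nat_lit 15) (nat_lit 0) (.cons (.rf (nat_lit 2009) (nat_lit 21174442659472880611461152)) (.cons (.rf (nat_lit 2009) (nat_lit 20003260030898138924783881)) .nil))) .nil)))) .nil))),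
 (.br (nat_lit 16) (nat_lit 0) (.cons (.ev (nat_lit 683223230557342474672255705954757246977) (nat_lit 2)) .nil)),
 (.br (nat_lit 13) (nat_lit 0) (.cons (.rf (nat_lit 2010) (nat_lit 583706118939841765935136)) (.cons (.br (nat_lit 15) (nat_lit 0) (.cons (.rf (nat_lit 703) (nat_lit 19926519089564687906545700)) (.cons (.kr (nat_lit 2658455991569836468174098089717530625) (nat_lit 40564820416229160462527989022720) (nat_lit 0) (nat_lit 1)) (.cons (.br (nat_lit 14) (nat_lit 0) (.cons (.rf (nat_lit 2011) (nat_lit 677582165103132179601393696)) (.cons (.br (nat_lit 14) (nat_lit 0) (.cons (.rf (nat_lit 2011) (nat_lit 677582165103132179601393696)) .nil)) .nil))) .nil)))) .nil))),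
 (.br (nat_lit 15) (nat_lit 0) (.cons (.ev (nat_lit 2730244688255943005477067034739903825927) (nat_lit 4)) (.cons (.br (nat_lit 16) (nat_lit 0) (.cons (.ev (nat_lit 683233574585621376486155680603149828097) (nat_lit 2)) .nil)) .nil))),
 (.br (nat_lit 14) (nat_lit 0) (.cons (.rf (nat_lit 2013) (nat_lit 677582165103132179601393696)) (.cons (.rf (nat_lit 2013) (nat_lit 640105464695078675185502240)) .nil))),
 (.br (nat_lit 14) (nat_lit 0) (.cons (.rf (nat_lit 2014) (nat_lit 677582165103132179601393696)) (.cons (.ev (nat_lit 5212658497514660196415088942448640) (nat_lit 1)) .nil))),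
 (.br (nat_lit 16) (nat_lit 0) (.cons (.ev (nat_lit 680575159158870742599099500884513522177) (nat_lit 2)) .nil)),
 (.br (nat_lit 13) (nat_lit 0) (.cons (.ev (nat_lit 5192296858534846075556049310515201) (nat_lit 1)) (.cons (.ev (nat_lit 203618854755534112474809972428299) (nat_lit 4)) (.cons (.br (nat_lit 14) (nat_lit 0) (.cons (.rf (nat_lit 1834) (nat_lit 622667980946347521122340)) (.cons (.br (nat_lit 16) (nat_lit 0) (.cons (.ev (nat_lit 1361160743478133477383218402807236265479) (nat_lit 3)) (.cons (.rf (nat_lit 175) (nat_lit 629888647871792482)) .nil))) (.cons (.br (nat_lit 15) (nat_lit 0) (.cons (.rf (nat_lit 2016) (nat_lit 677582165103132179601393696)) (.cons (.br (nat_lit 15) (nat_lit 0) (.cons (.rf (nat_lit 2016) (nat_lit 677582165103132179601393696)) .nil)) .nil))) .nil)))) .nil)))),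
 (.br (nat_lit 14) (nat_lit 0) (.cons (.ev (nat_lit 5212658497514660196415088942448640) (nat_lit 1)) (.cons (.br (nat_lit 15) (nat_lit 0) (.cons (.ev (nat_lit 1369104957669834853706478901758003642371) (nat_lit 3)) (.cons (.br (nat_lit 16) (nat_lit 0) (.cons (.ev (nat_lit 683223230557342474672255705954757246977) (nat_lit 2)) .nil)) .nil))) .nil))),
 (.br (nat_lit 13) (nat_lit 0) (.cons (.ev (nat_lit 203618854755534112474809972428299) (nat_lit 4)) (.cons (.ev (nat_lit 1329227996095614530983307226174718208) (nat_lit 1)) (.cons (.br (nat_lit 14) (nat_lit 0) (.cons (.br (nat_lit 14) (nat_lit 0) (.cons (.ev (nat_lit 5212658497514660196415088942448640) (nat_lit 1)) (.cons (.rf (nat_lit 167) (nat_lit 631013481652652289)) .nil))) (.cons (.rf (nat_lit 2018) (nat_lit 19926519232773908561233952)) (.cons (.br (nat_lit 14) (nat_lit 0) (.cons (.rf (nat_lit 167) (nat_lit 631013481652652289)) (.cons (.rf (nat_lit 2018) (nat_lit 19926519232773908561233952)) .nil))) .nil)))) .nil)))),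
 (.br (nat_lit 14) (nat_lit 0) (.cons (.ev (nat_lit 680575159158870742599099500884513522177) (nat_lit 2)) (.cons (.br (nat_lit 15) (nat_lit 0) (.cons (.ev (nat_lit 683223230557342474672255705954757246977) (nat_lit 2)) (.cons (.br (nat_lit 16) (nat_lit 0) (.cons (.ev (nat_lit 1369136030163510274093573613519571517443) (nat_lit 3)) .nil)) .nil))) .nil))),
 (.br (nat_lit 14) (nat_lit 0) (.cons (.br (nat_lit 15) (nat_lit 0) (.cons (.ev (nat_lit 683233574585621367004673344103572832257) (nat_lit 2)) (.cons (.br (nat_lit 16) (nat_lit 0) (.cons (.ev (nat_lit 1369115342106952489428738337221940346883) (nat_lit 3)) .nil)) .nil))) (.cons (.br (nat_lit 15) (nat_lit 0) (.cons (.br (nat_lit 16) (nat_lit 0) (.cons (.ev (nat_lit 1363819199310009025282425935877545919491) (nat_lit 3)) .nil)) (.cons (.ev (nat_lit 174227240744670600615600535304822342025217) (nat_lit 2)) .nil))) .nil))),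
 (.br (nat_lit 13) (nat_lit 0) (.cons (.ev (nat_lit 7996218451477546871198688191300370435) (nat_lit 3)) (.cons (.kr (nat_lit 2658455991569836468174098089717530625) (nat_lit 40564820416229160462527989022720) (nat_lit 0) (nat_lit 1)) (.cons (.br (nat_lit 14) (nat_lit 0) (.cons (.kr (nat_lit 2658455992188806487816788227183869953) (nat_lit 10384593718278581220790814204100608) (nat_lit 0) (nat_lit 1)) (.cons (.kr (nat_lit 5192296858534827700588090367213568) (nat_lit 20282719088661491769015992844288) (nat_lit 2) (nat_lit 0)) .nil))) .nil)))),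
 (.br (nat_lit 15) (nat_lit 0) (.cons (.ev (nat_lit 79538861190790863308107808768) (nat_lit 1)) (.cons (.ev (nat_lit 5192296858539550067353538812444673) (nat_lit 1)) (.cons (.br (nat_lit 16) (nat_lit 0) (.cons (.rf (nat_lit 2022) (nat_lit 19926519232773908561233952)) (.cons (.kr (nat_lit 2658455991569836468174098089717530625) (nat_lit 40564820416229160462527989022720) (nat_lit 0) (nat_lit 1)) (.cons (.kr (nat_lit 2658455992188806487816788227183869953) (nat_lit 10384593718278581220790814204100608) (nat_lit 0) (nat_lit 1)) (.cons (.br (nat_lit 16) (nat_lit 0) (.cons (.rf (nat_lit 2022) (nat_lit 19926519232773908561233952)) (.cons (.kr (nat_lit 2658455991569836468174098089717530625) (nat_lit 40564820416229160462527989022720) (nat_lit 0) (nat_lit 1)) (.cons (.kr (nat_lit 2658455992188806487816788227183869953) (nat_lit 10384593718278581220790814204100608) (nat_lit 0) (nat_lit 1)) .nil)))) .nil))))) .nil)))),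
 (.br (nat_lit 16) (nat_lit 0) (.cons (.ev (nat_lit 680564774407316327342795932425498132993) (nat_lit 2)) (.cons (.ev (nat_lit 683223189834066942340386180682733453313) (nat_lit 2)) .nil))),
 (.br (nat_lit 14) (nat_lit 0) (.cons (.br (nat_lit 13) (nat_lit 0) (.cons (.ev (nat_lit 680564774407316327342795932425498132993) (nat_lit 2)) (.cons (.br (nat_lit 16) (nat_lit 0) (.cons (.ev (nat_lit 680575159158870742599099500884513522177) (nat_lit 2)) .nil)) .nil))) (.cons (.rf (nat_lit 172) (nat_lit 627672100171389185)) (.cons (.br (nat_lit 16) (nat_lit 0) (.cons (.br (nat_lit 13) (nat_lit 0) (.cons (.ev (nat_lit 5212658497514660196415088942448640) (nat_lit 1)) .nil)) (.cons (.ev (nat_lit 87453902719053056728042956070755783147777) (nat_lit 1)) .nil))) .nil)))),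
 (.br (nat_lit 16) (nat_lit 0) (.cons (.ev (nat_lit 683223230557342474672255705954757246977) (nat_lit 2)) .nil)),
 (.br (nat_lit 13) (nat_lit 0) (.cons (.ev (nat_lit 122169827839088674599071847286279) (nat_lit 3)) (.cons (.ev (nat_lit 1329227996094405623538379072376733953) (nat_lit 1)) (.cons (.br (nat_lit 15) (nat_lit 0) (.cons (.rf (nat_lit 995) (nat_lit 19420295339698552045643)) (.cons (.ev (nat_lit 2658577686028667415129070811343881219) (nat_lit 3)) (.cons (.br (nat_lit 14) (nat_lit 0) (.cons (.rf (nat_lit 2026) (nat_lit 677582165103132179601393696)) (.cons (.br (nat_lit 14) (nat_lit 0) (.cons (.rf (nat_lit 2026) (nat_lit 677582165103132179601393696)) .nil)) .nil))) .nil)))) .nil)))),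
 (.br (nat_lit 13) (nat_lit 0) (.cons (.br (nat_lit 14) (nat_lit 0) (.cons (.ev (nat_lit 2689650813529406879303156320417350659) (nat_lit 3)) .nil)) .nil)),
 (.br (nat_lit 13) (nat_lit 0) (.cons (.br (nat_lit 14) (nat_lit 0) (.cons (.ev (nat_lit 680564774407316327342795932425498132993) (nat_lit 2)) (.cons (.ev (nat_lit 2689650813529406879303156320417350659) (nat_lit 3)) .nil))) (.cons (.br (nat_lit 14) (nat_lit 0) (.cons (.br (nat_lit 16) (nat_lit 0) (.cons (.ev (nat_lit 1363798348994174411404227268002038678531) (nat_lit 3)) .nil)) (.cons (.ev (nat_lit 174224582248114211576588279770195144212993) (nat_lit 2)) .nil))) .nil))),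
 (.br (nat_lit 13) (nat_lit 0) (.cons (.rf (nat_lit 2029) (nat_lit 677582165103132179601393696)) (.cons (.br (nat_lit 16) (nat_lit 0) (.cons (.br (nat_lit 14) (nat_lit 0) (.cons (.zr (nat_lit 5316953181785394002136771172325526016) (nat_lit 1361160621466761973136452100149448015877) (nat_lit 16) (nat_lit 1)) .nil)) (.cons (.ev (nat_lit 680564774407316327342795932425498132993) (nat_lit 2)) .nil))) .nil))),
 (.br (nat_lit 14) (nat_lit 0) (.cons (.ev (nat_lit 5212658496305716002113975801085953) (nat_lit 1)) (.cons (.br (nat_lit 15) (nat_lit 0) (.cons (.ev (nat_lit 681894022685510832700199503849714811139) (nat_lit 2)) (.cons (.ev (nat_lit 1334420371872826862982773748485128448) (nat_lit 1)) .nil))) .nil))),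
 (.br (nat_lit 14) (nat_lit 0) (.cons (.br (nat_lit 15) (nat_lit 0) (.cons (.ev (nat_lit 1334420371872826862982773748485128448) (nat_lit 1)) (.cons (.rf (nat_lit 723) (nat_lit 677582164959928456504680484)) .nil))) (.cons (.ev (nat_lit 5212658497509919455246839120396288) (nat_lit 1)) .nil))),
 (.br (nat_lit 14) (nat_lit 0) (.cons (.rf (nat_lit 2032) (nat_lit 677582165103132179601393696)) (.cons (.br (nat_lit 16) (nat_lit 0) (.cons (.ev (nat_lit 680575159158870742599099500884513522177) (nat_lit 2)) (.cons (.ev (nat_lit 523354290831644127609892645613320471580171) (nat_lit 4)) .nil))) .nil))),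
 (.br (nat_lit 16) (nat_lit 0) (.cons (.ev (nat_lit 340282366920938468185813430474251436033) (nat_lit 1)) (.cons (.ev (nat_lit 680564734000953445067983761925696651777) (nat_lit 2)) (.cons (.ev (nat_lit 680564774407316317934812341844607894017) (nat_lit 2)) .nil)))),
 (.br (nat_lit 13) (nat_lit 0) (.cons (.ev (nat_lit 5212658496305716002113975801085953) (nat_lit 1)) (.cons (.br (nat_lit 14) (nat_lit 0) (.cons (.ev (nat_lit 7996218451477527907657545643750457347) (nat_lit 3)) (.cons (.ev (nat_lit 680575118435595219674925340198162268673) (nat_lit 2)) (.cons (.br (nat_lit 16) (nat_lit 0) (.cons (.kr (nat_lit 2658455991569836468174098089717530625) (nat_lit 40564820416229160462527989022720) (nat_lit 0) (nat_lit 1)) (.cons (.ev (nat_lit 680575159158870742599099500884513522177) (nat_lit 2)) .nil))) .nil)))) (.cons (.br (nat_lit 15) (nat_lit 0) (.cons (.rf (nat_lit 214) (nat_lit 630978331477613825)) (.cons (.rf (nat_lit 2034) (nat_lit 677582165103132179601393696)) (.cons (.kr (nat_lit 2658455991569836468174098089717530625) (nat_lit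 40564820416229160462527989022720) (nat_lit 0) (nat_lit 1)) .nil)))) .nil)))),
 (.br (nat_lit 13) (nat_lit 0) (.cons (.ev (nat_lit 20282720297587311665120144326656) (nat_lit 1)) (.cons (.rf (nat_lit 2035) (nat_lit 19926519232773908561233952)) (.cons (.br (nat_lit 14) (nat_lit 0) (.cons (.br (nat_lit 15) (nat_lit 0) (.cons (.ev (nat_lit 2735623908436448308016588212336176137231) (nat_lit 4)) (.cons (.rf (nat_lit 968) (nat_lit 673994312256678887690445001)) .nil))) (.cons (.ev (nat_lit 680575118435595219674925340198162268673) (nat_lit 2)) (.cons (.br (nat_lit 16) (nat_lit 0) (.cons (.ev (nat_lit 680575159158870742599099500884513522177) (nat_lit 2)) (.cons (.ev (nat_lit 523354301175038581173813497893948083144199) (nat_lit 3)) .nil))) .nil)))) .nil))))]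

theorem c77 : chkAll C T R L77 (nat_lit 2006) = true := by decide +kernel

theorem l77 : (nat_lit 2006) + L77.length = (nat_lit 2037) := by decide +kernel

/-- part of the certificates -/
def L78 : List Prf := [(.br (nat_lit 16) (nat_lit 0) (.cons (.ev (nat_lit 3402823670004143353651154309655141682699) (nat_lit 4)) (.cons (.ev (nat_lit 2668881308563647381264977134538981377) (nat_lit 2)) (.cons (.kr (nat_lit 683223189833446763394923311858037293057) (nat_lit 174224571863678950827202147295981115277312) (nat_lit 0) (nat_lit 1)) .nil)))),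
 (.br (nat_lit 13) (nat_lit 0) (.cons (.ev (nat_lit 20282719093383858534464404652033) (nat_lit 1)) (.cons (.br (nat_lit 14) (nat_lit 0) (.cons (.ev (nat_lit 6808461563637341894687650958342426991639) (nat_lit 5)) (.cons (.br (nat_lit 16) (nat_lit 0) (.cons (.zr (nat_lit 5317033677597309013470193969436557317) (nat_lit 1361139852278091102491255961784705745408) (nat_lit 16) (nat_lit 2)) .nil)) .nil))) .nil))),
 (.br (nat_lit 13) (nat_lit 0) (.cons (.ev (nat_lit 20282720297587311665120144326656) (nat_lit 1)) (.cons (.br (nat_lit 14) (nat_lit 0) (.cons (.rf (nat_lit 2037) (nat_lit 522839807766412234915416096)) (.cons (.ev (nat_lit 174224582248114211576588279770195144212993) (nat_lit 2)) .nil))) .nil))),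
 (.br (nat_lit 13) (nat_lit 0) (.cons (.br (nat_lit 14) (nat_lit 0) (.cons (.kr (nat_lit 2658455991569836468174098089717530625) (nat_lit 40564820416229160462527989022720) (nat_lit 0) (nat_lit 1)) (.cons (.ev (nat_lit 680575118435595219674925340198162268673) (nat_lit 2)) (.cons (.br (nat_lit 16) (nat_lit 0) (.cons (.ev (nat_lit 1369104917263471971431666731275382030339) (nat_lit 3)) (.cons (.ev (nat_lit 680575159158870742599099500884513522177) (nat_lit 2)) .nil))) .nil)))) (.cons (.ev (nat_lit 20282720297587311665120144326656) (nat_lit 1)) (.cons (.br (nat_lit 14) (nat_lit 0) (.cons (.br (nat_lit 15) (nat_lit 0) (.cons (.ev (nat_lit 1334420371871613214796675154465325313) (nat_lit 1)) (.cons (.ev (nat_lit 1334481377869870430494736500459045121) (nat_lit 2)) .nil))) (.cons (.ev (nat_lit 680575118435595219674925340198162268673) (nat_lit 2)) (.cons (.br (nat_lit 15) (nat_lit 0) (.cons (.ev (nat_lit 680575159158870742599099500884513522177) (nat_lit 2)) (.cons (.ev (nat_lit 174224582248114211576588279770195144212993) (nat_lit 2))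 .nil))) .nil)))) .nil)))),
 (.br (nat_lit 14) (nat_lit 0) (.cons (.ev (nat_lit 5192296859743753520484194518564864) (nat_lit 1)) (.cons (.ev (nat_lit 1334420371871613214796675154465325313) (nat_lit 1)) (.cons (.ev (nat_lit 1334440575053059093088046041253544193) (nat_lit 1)) .nil)))),
 (.br (nat_lit 13) (nat_lit 0) (.cons (.rf (nat_lit 2040) (nat_lit 19926519232773908561233952)) (.cons (.br (nat_lit 15) (nat_lit 0) (.cons (.ev (nat_lit 683223189834066951822156751956575518721) (nat_lit 2)) (.cons (.rf (nat_lit 214) (nat_lit 628794770267015425)) .nil))) (.cons (.br (nat_lit 15) (nat_lit 0) (.cons (.rf (nat_lit 2041) (nat_lit 677582165103132179601393696)) (.cons (.rf (nat_lit 214) (nat_lit 628726600545934593)) (.cons (.kr (nat_lit 2658455991569836468174098089717530625) (nat_lit 40564820416229160462527989022720) (nat_lit 0) (nat_lit 1)) .nil)))) .nil)))),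
 (.br (nat_lit 14) (nat_lit 0) (.cons (.br (nat_lit 15) (nat_lit 0) (.cons (.zr (nat_lit 5316953181790215538313533665520517632) (nat_lit 1361160621466761977711244630433594343433) (nat_lit 16) (nat_lit 7)) .nil)) .nil)),
 (.br (nat_lit 13) (nat_lit 0) (.cons (.ev (nat_lit 20282720297587311665120144326656) (nat_lit 1)) (.cons (.rf (nat_lit 2042) (nat_lit 19926519232773908561233952)) (.cons (.br (nat_lit 14) (nat_lit 0) (.cons (.rf (nat_lit 2043) (nat_lit 677582165103132179601393696)) (.cons (.br (nat_lit 14) (nat_lit 0) (.cons (.rf (nat_lit 2043) (nat_lit 677582165103132179601393696)) .nil)) .nil))) .nil)))),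
 (.br (nat_lit 13) (nat_lit 0) (.cons (.br (nat_lit 15) (nat_lit 0) (.cons (.kr (nat_lit 2658455991569836468174098089717530625) (nat_lit 40564820416229160462527989022720) (nat_lit 0) (nat_lit 1)) (.cons (.rf (nat_lit 2034) (nat_lit 561528828194989931063511072)) (.cons (.br (nat_lit 14) (nat_lit 0) (.cons (.ev (nat_lit 2679306785250514546885518171669136387) (nat_lit 3)) (.cons (.ev (nat_lit 348451802264320652371635914910459370800131) (nat_lit 3)) .nil))) .nil)))) (.cons (.ev (nat_lit 20282720297587311665120144326656) (nat_lit 1)) (.cons (.br (nat_lit 17) (nat_lit 0) (.cons (.rf (nat_lit 802) (nat_lit 631047533228138530)) (.cons (.br (nat_lit 14) (nat_lit 0) (.cons (.ev (nat_lit 1334420371871613214796675154465325313) (nat_lit 1)) (.cons (.br (nat_lit 15) (nat_lit 0) (.cons (.ev (nat_lit 1334440575053059093088046041253544193) (nat_lit 1)) .nil)) .nil))) (.cons (.ev (nat_lit 174224571863679569801981049957148547744257) (nat_lit 2)) .nil)))) .nil)))),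
 (.br (nat_lit 13) (nat_lit 0) (.cons (.rf (nat_lit 2045) (nat_lit 677582165103132179601393696)) (.cons (.br (nat_lit 15) (nat_lit 0) (.cons (.rf (nat_lit 2041) (nat_lit 640105464695078675185502240)) (.cons (.kr (nat_lit 2658455991569836468174098089717530625) (nat_lit 40564820416229160462527989022720) (nat_lit 0) (nat_lit 1)) (.cons (.br (nat_lit 16) (nat_lit 0) (.cons (.br (nat_lit 14) (nat_lit 0) (.cons (.ev (nat_lit 681899194858724365044027685309507633920) (nat_lit 2)) .nil)) (.cons (.ev (nat_lit 1363788004963419657809206050465272693763) (nat_lit 3)) .nil))) .nil)))) (.cons (.br (nat_lit 17) (nat_lit 0) (.cons (.br (nat_lit 14) (nat_lit 0) (.cons (.ev (nat_lit 1334440575054263296541178904606408960) (nat_lit 1)) (.cons (.br (nat_lit 15) (nat_lit 0) (.cons (.ev (nat_lit 1361139852753460082336246074659244606983) (nat_lit 3)) .nil)) .nil))) (.cons (.kr (nat_lit 2658455991569836468174098089717530625) (nat_lit 40564820416229160462527989022720) (nat_lit 0) (nat_lit 1)) (.cons (.ev (nat_lit 174224571863679569801981049957148547744257)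 (nat_lit 2)) .nil)))) .nil)))),
 (.br (nat_lit 13) (nat_lit 0) (.cons (.ev (nat_lit 20282720297587311665120144326656) (nat_lit 1)) (.cons (.rf (nat_lit 2046) (nat_lit 677582165103132179601393696)) (.cons (.br (nat_lit 17) (nat_lit 0) (.cons (.br (nat_lit 14) (nat_lit 0) (.cons (.br (nat_lit 15) (nat_lit 0) (.cons (.ev (nat_lit 2619533641325120645091649586739798222831631) (nat_lit 5)) .nil)) (.cons (.ev (nat_lit 31235388016722438940612605308569095) (nat_lit 3)) .nil))) (.cons (.ev (nat_lit 174224571904085932693663845722627285975553) (nat_lit 2)) (.cons (.ev (nat_lit 174224571863679569801981049957148547744257) (nat_lit 2)) .nil)))) .nil)))),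
 (.br (nat_lit 11) (nat_lit 0) (.cons (.br (nat_lit 13) (nat_lit 0) (.cons (.rf (nat_lit 2010) (nat_lit 583706118939841765935136)) (.cons (.rf (nat_lit 2012) (nat_lit 583706118939841765935136)) (.cons (.br (nat_lit 13) (nat_lit 0) (.cons (.rf (nat_lit 2010) (nat_lit 583706118939841765935136)) (.cons (.rf (nat_lit 2012) (nat_lit 583706118939841765935136)) (.cons (.br (nat_lit 14) (nat_lit 0) (.cons (.rf (nat_lit 2014) (nat_lit 677582165103132179601393696)) (.cons (.rf (nat_lit 2015) (nat_lit 677582165103132179601393696)) (.cons (.rf (nat_lit 2015) (nat_lit 640105464695078675185502240)) .nil)))) .nil)))) .nil)))) (.cons (.br (nat_lit 12) (nat_lit 0) (.cons (.kr (nat_lit 20282409603651670423951546253312) (nat_lit 79228162514264338693055578112) (nat_lit 4) (nat_lit 0)) (.cons (.rf (nat_lit 2017) (nat_lit 583706118939841765935136)) (.cons (.rf (nat_lit 2019) (nat_lit 583706118939841765935136)) (.cons (.br (nat_lit 13) (nat_lit 0) (.cons (.rf (nat_lit 2019) (nat_lit 547071928957117828006976)) (.cons (.rf (nat_lit 2017) (nat_lit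 547071928957117828006976)) (.cons (.br (nat_lit 14) (nat_lit 0) (.cons (.rf (nat_lit 2020) (nat_lit 19926519232773908561233952)) (.cons (.br (nat_lit 14) (nat_lit 0) (.cons (.ev (nat_lit 680575159158870742599099500884513522177) (nat_lit 2)) (.cons (.rf (nat_lit 172) (nat_lit 629888681258453249)) .nil))) (.cons (.br (nat_lit 14) (nat_lit 0) (.cons (.rf (nat_lit 2020) (nat_lit 19926519232773908561233952)) (.cons (.rf (nat_lit 172) (nat_lit 629888681258453249)) .nil))) .nil)))) (.cons (.br (nat_lit 14) (nat_lit 0) (.cons (.rf (nat_lit 2021) (nat_lit 677582165103132179601393696)) (.cons (.br (nat_lit 14) (nat_lit 0) (.cons (.rf (nat_lit 2021) (nat_lit 677582165103132179601393696)) (.cons (.ev (nat_lit 5212658497514660196415088942448640) (nat_lit 1)) .nil))) (.cons (.br (nat_lit 14) (nat_lit 0) (.cons (.rf (nat_lit 2021) (nat_lit 677582165103132179601393696)) (.cons (.ev (nat_lit 5212658497514660196415088942448640) (nat_lit 1)) .nil))) .nil)))) .nil))))) .nil))))) (.cons (.br (nat_lit 15) (nat_lit 0) (.cons (.ev (nat_lit 79538861190790863308107808768)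 (nat_lit 1)) (.cons (.rf (nat_lit 2023) (nat_lit 583706118939841765935136)) (.cons (.ev (nat_lit 5192296859743753520484194518564864) (nat_lit 1)) (.cons (.br (nat_lit 15) (nat_lit 0) (.cons (.ev (nat_lit 79538861190790863308107808768) (nat_lit 1)) (.cons (.rf (nat_lit 2023) (nat_lit 583706118939841765935136)) (.cons (.ev (nat_lit 5192296858539550067353538812444673) (nat_lit 1)) (.cons (.br (nat_lit 12) (nat_lit 0) (.cons (.br (nat_lit 13) (nat_lit 0) (.cons (.ev (nat_lit 122169827839088674599071847286279) (nat_lit 3)) (.cons (.rf (nat_lit 2024) (nat_lit 677582165103132179601393696)) (.cons (.rf (nat_lit 2024) (nat_lit 640105464695078675185502240)) .nil)))) (.cons (.rf (nat_lit 889) (nat_lit 677504321814446857743801539)) (.cons (.rf (nat_lit 2025) (nat_lit 677582165103132179601393696)) (.cons (.rf (nat_lit 2025) (nat_lit 640105464695078675185502240)) .nil))))) .nil))))) .nil))))) (.cons (.br (nat_lit 12) (nat_lit 0) (.cons (.rf (nat_lit 2027) (nat_lit 583706118939841765935136)) (.cons (.ev (nat_lit 79538861190790863308107808768)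 (nat_lit 1)) (.cons (.kr (nat_lit 2658455991569836468174096994500870145) (nat_lit 158457533954348290915791011840) (nat_lit 0) (nat_lit 1)) (.cons (.br (nat_lit 15) (nat_lit 0) (.cons (.ev (nat_lit 1329227996095609826991511935696044288) (nat_lit 1)) (.cons (.rf (nat_lit 2027) (nat_lit 469228969003474344745187)) (.cons (.br (nat_lit 16) (nat_lit 0) (.cons (.ev (nat_lit 680564734000953435660000166946759901697) (nat_lit 2)) (.cons (.ev (nat_lit 683223189834066951822156751956575518721) (nat_lit 2)) (.cons (.br (nat_lit 13) (nat_lit 0) (.cons (.rf (nat_lit 2028) (nat_lit 677582165103132179601393696)) (.cons (.br (nat_lit 13) (nat_lit 0) (.cons (.rf (nat_lit 2028) (nat_lit 677582165103132179601393696)) .nil)) .nil))) .nil)))) (.cons (.br (nat_lit 13) (nat_lit 0) (.cons (.rf (nat_lit 2029) (nat_lit 677582165103132179601393696)) (.cons (.rf (nat_lit 2030) (nat_lit 677582165103132179601393696)) (.cons (.br (nat_lit 13) (nat_lit 0) (.cons (.rf (nat_lit 2029) (nat_lit 677582165103132179601393696)) (.cons (.rf (nat_lit 2030) (nat_lit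 677582165103132179601393696)) .nil))) .nil)))) .nil))))) .nil))))) (.cons (.br (nat_lit 12) (nat_lit 0) (.cons (.br (nat_lit 13) (nat_lit 0) (.cons (.ev (nat_lit 122169827839088674599071847286279) (nat_lit 3)) (.cons (.br (nat_lit 15) (nat_lit 0) (.cons (.br (nat_lit 14) (nat_lit 0) (.cons (.kr (nat_lit 2658496557008013791157635026469781505) (nat_lit 10384752174603609749467096508661760) (nat_lit 0) (nat_lit 1)) (.cons (.rf (nat_lit 214) (nat_lit 631013481355877633)) .nil))) (.cons (.ev (nat_lit 1329248357732171789473141716978565377) (nat_lit 1)) (.cons (.br (nat_lit 14) (nat_lit 0) (.cons (.br (nat_lit 14) (nat_lit 0) (.cons (.ev (nat_lit 1344805045126330449696108594719687424) (nat_lit 2)) .nil)) (.cons (.br (nat_lit 14) (nat_lit 0) (.cons (.ev (nat_lit 1344805045126330449696108594719687424) (nat_lit 2)) .nil)) .nil))) .nil)))) (.cons (.br (nat_lit 16) (nat_lit 0) (.cons (.rf (nat_lit 1004) (nat_lit 18239704844881047584843)) (.cons (.ev (nat_lit 680564734000953445067983761925696651777) (nat_lit 2)) (.cons (.br (nat_lit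 14) (nat_lit 0) (.cons (.rf (nat_lit 2031) (nat_lit 19926519232773908561233952)) (.cons (.br (nat_lit 14) (nat_lit 0) (.cons (.rf (nat_lit 2031) (nat_lit 19926519232773908561233952)) .nil)) .nil))) .nil)))) (.cons (.br (nat_lit 14) (nat_lit 0) (.cons (.rf (nat_lit 2032) (nat_lit 677582165103132179601393696)) (.cons (.rf (nat_lit 2033) (nat_lit 677582165103132179601393696)) (.cons (.br (nat_lit 14) (nat_lit 0) (.cons (.ev (nat_lit 5212658496305716002113975801085953) (nat_lit 1)) (.cons (.rf (nat_lit 2033) (nat_lit 677582165103132179601393696)) .nil))) .nil)))) .nil))))) (.cons (.br (nat_lit 13) (nat_lit 0) (.cons (.ev (nat_lit 5192296858534846075556049310515201) (nat_lit 1)) (.cons (.rf (nat_lit 2035) (nat_lit 19926519232773908561233952)) (.cons (.rf (nat_lit 2036) (nat_lit 19926519232773908561233952)) (.cons (.br (nat_lit 13) (nat_lit 0) (.cons (.ev (nat_lit 5192296858534846075556049310515201) (nat_lit 1)) (.cons (.rf (nat_lit 2035) (nat_lit 19926519232773908561233952)) (.cons (.rf (nat_lit 2036) (nat_lit 19926519232773908561233952))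 .nil)))) .nil))))) (.cons (.br (nat_lit 15) (nat_lit 0) (.cons (.br (nat_lit 13) (nat_lit 0) (.cons (.br (nat_lit 14) (nat_lit 0) (.cons (.kr (nat_lit 2658496557008013791157635026469781505) (nat_lit 10384752174603609749467096508661760) (nat_lit 0) (nat_lit 1)) (.cons (.rf (nat_lit 214) (nat_lit 631011351219865857)) .nil))) (.cons (.br (nat_lit 16) (nat_lit 0) (.cons (.ev (nat_lit 683223189834066951822156751956575518721) (nat_lit 2)) (.cons (.rf (nat_lit 214) (nat_lit 628829920145279233)) .nil))) (.cons (.br (nat_lit 14) (nat_lit 0) (.cons (.br (nat_lit 14) (nat_lit 0) (.cons (.rf (nat_lit 2037) (nat_lit 677582165103132179601393696)) .nil)) (.cons (.br (nat_lit 14) (nat_lit 0) (.cons (.rf (nat_lit 2037) (nat_lit 677582165103132179601393696)) .nil)) .nil))) .nil)))) (.cons (.br (nat_lit 13) (nat_lit 0) (.cons (.br (nat_lit 13) (nat_lit 0) (.cons (.ev (nat_lit 20282719093383858534464404652033) (nat_lit 1)) (.cons (.rf (nat_lit 214) (nat_lit 630977266359277825)) .nil))) (.cons (.rf (nat_lit 2038) (nat_lit 19926519232773908561233952))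 (.cons (.br (nat_lit 13) (nat_lit 0) (.cons (.rf (nat_lit 214) (nat_lit 630977266359277825)) (.cons (.rf (nat_lit 2038) (nat_lit 19926519232773908561233952)) .nil))) .nil)))) (.cons (.ev (nat_lit 1329227996094400882797210822554681601) (nat_lit 1)) (.cons (.br (nat_lit 13) (nat_lit 0) (.cons (.rf (nat_lit 2039) (nat_lit 677582165103132179601393696)) (.cons (.br (nat_lit 13) (nat_lit 0) (.cons (.ev (nat_lit 20282720297587311665120144326656) (nat_lit 1)) (.cons (.ev (nat_lit 1329248357732171789473141716978565377) (nat_lit 1)) .nil))) (.cons (.br (nat_lit 13) (nat_lit 0) (.cons (.rf (nat_lit 2039) (nat_lit 677582165103132179601393696)) (.cons (.ev (nat_lit 1329248357732171789473141716978565377) (nat_lit 1)) .nil))) .nil)))) .nil))))) (.cons (.br (nat_lit 13) (nat_lit 0) (.cons (.rf (nat_lit 2040) (nat_lit 19926519232773908561233952)) (.cons (.rf (nat_lit 2042) (nat_lit 19926519232773908561233952)) (.cons (.rf (nat_lit 2044) (nat_lit 19926519232773908561233952)) (.cons (.br (nat_lit 13) (nat_lit 0) (.cons (.rf (nat_lit 2040)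 (nat_lit 19926519232773908561233952)) (.cons (.rf (nat_lit 2042) (nat_lit 19926519232773908561233952)) (.cons (.rf (nat_lit 2044) (nat_lit 19926519232773908561233952)) .nil)))) .nil))))) (.cons (.br (nat_lit 13) (nat_lit 0) (.cons (.rf (nat_lit 2045) (nat_lit 677582165103132179601393696)) (.cons (.rf (nat_lit 2046) (nat_lit 677582165103132179601393696)) (.cons (.rf (nat_lit 2047) (nat_lit 677582165103132179601393696)) (.cons (.br (nat_lit 13) (nat_lit 0) (.cons (.rf (nat_lit 2045) (nat_lit 677582165103132179601393696)) (.cons (.rf (nat_lit 2046) (nat_lit 677582165103132179601393696)) (.cons (.rf (nat_lit 2047) (nat_lit 677582165103132179601393696)) .nil)))) .nil))))) .nil)))))) .nil)))))),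
 (.br (nat_lit 13) (nat_lit 0) (.cons (.ev (nat_lit 5212658497514660196415088942448640) (nat_lit 1)) (.cons (.ev (nat_lit 203618854755534112474809972428299) (nat_lit 4)) (.cons (.br (nat_lit 14) (nat_lit 0) (.cons (.ev (nat_lit 51923763344067183014764708354720773) (nat_lit 4)) (.cons (.kr (nat_lit 5192296858534846075274570038771713) (nat_lit 20282409603651670705422227996928) (nat_lit 0) (nat_lit 2)) (.cons (.br (nat_lit 15) (nat_lit 0) (.cons (.br (nat_lit 15) (nat_lit 0) (.cons (.ev (nat_lit 1334440575362539380543190814821449728) (nat_lit 1)) .nil)) (.cons (.br (nat_lit 15) (nat_lit 0) (.cons (.ev (nat_lit 1334440575362539380543190814821449728) (nat_lit 1)) .nil)) .nil))) .nil)))) .nil))))]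

theorem c78 : chkAll C T R L78 (nat_lit 2037) = true := by decide +kernel

theorem l78 : (nat_lit 2037) + L78.length = (nat_lit 2050) := by decide +kernel

/-- part of the certificates -/
def L79 : List Prf := [(.br (nat_lit 15) (nat_lit 0) (.cons (.ev (nat_lit 681893982120999901517753590872493195267) (nat_lit 2)) (.cons (.ev (nat_lit 1334440575362539380543190814821449728) (nat_lit 1)) .nil))),
 (.br (nat_lit 13) (nat_lit 0) (.cons (.ev (nat_lit 203618854755534112474809972428299) (nat_lit 4)) (.cons (.ev (nat_lit 1329248357732167048731971268133257473) (nat_lit 1)) (.cons (.br (nat_lit 14) (nat_lit 0) (.cons (.br (nat_lit 14) (nat_lit 0) (.cons (.zr (nat_lit 2658618409303019044554990094792263168) (nat_lit 41538377964337866422238184539684869) (nat_lit 16) (nat_lit 2)) (.cons (.rf (nat_lit 167) (nat_lit 631013481551989089)) .nil))) (.cons (.br (nat_lit 14) (nat_lit 0) (.cons (.zr (nat_lit 2658618409303019044554990094792263168) (nat_lit 41538377964337866422238184539684869) (nat_lit 16) (nat_lit 2)) (.cons (.rf (nat_lit 2050)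 (nat_lit 677582165103132179601393696)) .nil))) (.cons (.br (nat_lit 14) (nat_lit 0) (.cons (.rf (nat_lit 167) (nat_lit 631013481551989089)) (.cons (.rf (nat_lit 2050) (nat_lit 677582165103132179601393696)) .nil))) .nil)))) .nil)))),
 (.br (nat_lit 14) (nat_lit 0) (.cons (.ev (nat_lit 680575118435595210267229979993356370433) (nat_lit 2)) (.cons (.br (nat_lit 15) (nat_lit 0) (.cons (.ev (nat_lit 683223189834066942340386180682733453313) (nat_lit 2)) (.cons (.br (nat_lit 16) (nat_lit 0) (.cons (.ev (nat_lit 1369136030163510274093573613519571517443) (nat_lit 3)) .nil)) .nil))) .nil))),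
 (.br (nat_lit 14) (nat_lit 0) (.cons (.br (nat_lit 15) (nat_lit 0) (.cons (.ev (nat_lit 680564734000334465603608666799886827523) (nat_lit 2)) (.cons (.br (nat_lit 16) (nat_lit 0) (.cons (.ev (nat_lit 1363819118498521200698012885551373615111) (nat_lit 3)) .nil)) .nil))) (.cons (.br (nat_lit 15) (nat_lit 0) (.cons (.br (nat_lit 16) (nat_lit 0) (.cons (.ev (nat_lit 1369115261292988784913902696718588183559) (nat_lit 3)) .nil)) (.cons (.ev (nat_lit 174224571904085313714199470631899522662403) (nat_lit 2)) .nil))) .nil))),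
 (.br (nat_lit 14) (nat_lit 0) (.cons (.rf (nat_lit 2053) (nat_lit 677582165103132179601393696)) (.cons (.br (nat_lit 15) (nat_lit 0) (.cons (.ev (nat_lit 680564734000334465603608666799886827523) (nat_lit 2)) (.cons (.ev (nat_lit 174224571904085313714199470631899522662403) (nat_lit 2)) .nil))) .nil))),
 (.br (nat_lit 16) (nat_lit 0) (.cons (.ev (nat_lit 680575159158870742599099500884513522177) (nat_lit 2)) .nil)),
 (.br (nat_lit 12) (nat_lit 0) (.cons (.ev (nat_lit 20282409603651670423951546319104) (nat_lit 1)) (.cons (.br (nat_lit 13) (nat_lit 0) (.cons (.kr (nat_lit 1329248278504004534395857551233122560) (nat_lit 5192376086697360411669757620715520) (nat_lit 1) (nat_lit 0)) (.cons (.br (nat_lit 15) (nat_lit 0) (.cons (.ev (nat_lit 10685909986424343301614304140659655693) (nat_lit 4)) (.cons (.rf (nat_lit 167) (nat_lit 631045369537530214)) .nil))) .nil))) (.cons (.br (nat_lit 13) (nat_lit 0) (.cons (.rf (nat_lit 901) (nat_lit 622702603396494364148800)) (.cons (.kr (nat_lit 158456329787788647303680622593) (nat_lit 40564820416229161025477925667328)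 (nat_lit 0) (nat_lit 2)) (.cons (.br (nat_lit 15) (nat_lit 0) (.cons (.rf (nat_lit 2055) (nat_lit 677582165103132179601393696)) (.cons (.br (nat_lit 15) (nat_lit 0) (.cons (.rf (nat_lit 2055) (nat_lit 677582165103132179601393696)) .nil)) .nil))) .nil)))) .nil)))),
 (.br (nat_lit 12) (nat_lit 0) (.cons (.ev (nat_lit 79228167255149622130953421056) (nat_lit 1)) (.cons (.rf (nat_lit 2056) (nat_lit 583706118939841765935136)) (.cons (.br (nat_lit 15) (nat_lit 0) (.cons (.rf (nat_lit 2056) (nat_lit 469228969003474344745187)) (.cons (.ev (nat_lit 5192296858539550067353538812444673) (nat_lit 1)) (.cons (.br (nat_lit 13) (nat_lit 0) (.cons (.kr (nat_lit 5327296576856737869238772107719999491) (nat_lit 40881733066286217813997415038976) (nat_lit 0) (nat_lit 1)) (.cons (.ev (nat_lit 683223189834066942340386180682733453313) (nat_lit 2)) (.cons (.br (nat_lit 14) (nat_lit 0) (.cons (.ev (nat_lit 680564734000334475085091007697577443331) (nat_lit 2)) (.cons (.ev (nat_lit 2689650814767346844514455824300769287) (nat_lit 3)) .nil))) .nil))))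 (.cons (.br (nat_lit 13) (nat_lit 0) (.cons (.rf (nat_lit 239) (nat_lit 631045402924418242)) (.cons (.br (nat_lit 14) (nat_lit 0) (.cons (.ev (nat_lit 680575118435595219674925340198162268673) (nat_lit 2)) (.cons (.ev (nat_lit 2689650814767346844514455824300769287) (nat_lit 3)) .nil))) (.cons (.br (nat_lit 14) (nat_lit 0) (.cons (.br (nat_lit 16) (nat_lit 0) (.cons (.ev (nat_lit 1369136111610061338757312664097978843139) (nat_lit 3)) .nil)) (.cons (.ev (nat_lit 174224571904085313714199470631899522662403) (nat_lit 2)) .nil))) .nil)))) .nil))))) .nil)))),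
 (.br (nat_lit 14) (nat_lit 0) (.cons (.ev (nat_lit 2730275841878637880043511622126784873993) (nat_lit 4)) .nil)),
 (.br (nat_lit 15) (nat_lit 0) (.cons (.rf (nat_lit 2056) (nat_lit 469228969003474344745187)) (.cons (.ev (nat_lit 5192296858539550067353538812444673) (nat_lit 1)) (.cons (.br (nat_lit 13) (nat_lit 0) (.cons (.ev (nat_lit 2720845794563110599990474910114120201) (nat_lit 4)) (.cons (.rf (nat_lit 2058) (nat_lit 677582165103132179601393696)) (.cons (.rf (nat_lit 2058) (nat_lit 640105464695078675185502240)) .nil)))) .nil)))),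
 (.br (nat_lit 17) (nat_lit 0) (.cons (.kr (nat_lit 158456329787788647303680622593) (nat_lit 40564820416229161025477925667328) (nat_lit 0) (nat_lit 2)) (.cons (.kr (nat_lit 10384593718278581076675626128113665) (nat_lit 158456329750895159156261519360) (nat_lit 0) (nat_lit 1)) (.cons (.br (nat_lit 15) (nat_lit 0) (.cons (.br (nat_lit 14) (nat_lit 0) (.cons (.ev (nat_lit 683223189834066951822156751956575518721) (nat_lit 2)) .nil)) (.cons (.br (nat_lit 13) (nat_lit 0) (.cons (.ev (nat_lit 683223189834066951822156751956575518721) (nat_lit 2)) .nil)) (.cons (.ev (nat_lit 699628521758219568112307300171041225182721) (nat_lit 4)) .nil)))) .nil)))),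
 (.br (nat_lit 12) (nat_lit 0) (.cons (.ev (nat_lit 20282410817299856522545599676673) (nat_lit 1)) (.cons (.br (nat_lit 15) (nat_lit 0) (.cons (.kr (nat_lit 158456329787788647303680622593) (nat_lit 40564820416229161025477925667328) (nat_lit 0) (nat_lit 2)) (.cons (.kr (nat_lit 10384593718278581076675626128113665) (nat_lit 158456329750895159156261519360) (nat_lit 0) (nat_lit 1)) (.cons (.ev (nat_lit 1329227996094400882797210822554681601) (nat_lit 1)) (.cons (.br (nat_lit 13) (nat_lit 0) (.cons (.ev (nat_lit 5212658497509919455246839120396288) (nat_lit 1)) (.cons (.br (nat_lit 14) (nat_lit 0) (.cons (.ev (nat_lit 680564774406697357359903178197378924547) (nat_lit 2)) (.cons (.ev (nat_lit 1334440575362539380543190814821449728) (nat_lit 1)) .nil))) (.cons (.br (nat_lit 14) (nat_lit 0) (.cons (.ev (nat_lit 1334440575362539380543190814821449728) (nat_lit 1)) (.cons (.ev (nat_lit 174224571904085313714199470631899522662403) (nat_lit 2)) .nil))) .nil)))) .nil))))) (.cons (.br (nat_lit 16) (nat_lit 0) (.cons (.kr (nat_lit 158456329787788647303680622593)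 (nat_lit 40564820416229161025477925667328) (nat_lit 0) (nat_lit 2)) (.cons (.kr (nat_lit 10384593718278581076675626128113665) (nat_lit 158456329750895159156261519360) (nat_lit 0) (nat_lit 1)) (.cons (.ev (nat_lit 680564734000334465603608666799886827523) (nat_lit 2)) (.cons (.br (nat_lit 13) (nat_lit 0) (.cons (.rf (nat_lit 214) (nat_lit 629954687221990658)) (.cons (.br (nat_lit 14) (nat_lit 0) (.cons (.ev (nat_lit 1329248357733375992926272372684685568) (nat_lit 1)) (.cons (.ev (nat_lit 680575159158870742599099500884513522177) (nat_lit 2)) .nil))) (.cons (.br (nat_lit 14) (nat_lit 0) (.cons (.ev (nat_lit 680575159158870742599099500884513522177) (nat_lit 2)) (.cons (.ev (nat_lit 523354280324721508619970090178368506167811) (nat_lit 3)) .nil))) .nil)))) .nil))))) (.cons (.br (nat_lit 17) (nat_lit 0) (.cons (.kr (nat_lit 158456329787788647303680622593) (nat_lit 40564820416229161025477925667328) (nat_lit 0) (nat_lit 2)) (.cons (.kr (nat_lit 10384593718278581076675626128113665) (nat_lit 158456329750895159156261519360) (nat_lit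 0) (nat_lit 1)) (.cons (.rf (nat_lit 2060) (nat_lit 677582165103132179601393696)) (.cons (.br (nat_lit 17) (nat_lit 0) (.cons (.kr (nat_lit 158456329787788647303680622593) (nat_lit 40564820416229161025477925667328) (nat_lit 0) (nat_lit 2)) (.cons (.kr (nat_lit 10384593718278581076675626128113665) (nat_lit 158456329750895159156261519360) (nat_lit 0) (nat_lit 1)) (.cons (.rf (nat_lit 2060) (nat_lit 677582165103132179601393696)) .nil)))) .nil))))) .nil))))),
 (.br (nat_lit 12) (nat_lit 0) (.cons (.ev (nat_lit 79228167255149622130953421056) (nat_lit 1)) (.cons (.rf (nat_lit 2061) (nat_lit 19926519232773908561233952)) (.cons (.br (nat_lit 16) (nat_lit 0) (.cons (.br (nat_lit 15) (nat_lit 0) (.cons (.ev (nat_lit 683223189834066951822156751956575518721) (nat_lit 2)) (.cons (.rf (nat_lit 214) (nat_lit 628793671829128450)) .nil))) (.cons (.ev (nat_lit 680564734000334465603608666799886827523) (nat_lit 2)) (.cons (.ev (nat_lit 1329227996095614530983307226174718208) (nat_lit 1)) (.cons (.br (nat_lit 13) (nat_lit 0) (.cons (.br (nat_lit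 14) (nat_lit 0) (.cons (.zr (nat_lit 10506922013289863555307472077063168) (nat_lit 15950735951894894349716303657035628549) (nat_lit 16) (nat_lit 1)) (.cons (.br (nat_lit 15) (nat_lit 0) (.cons (.ev (nat_lit 1334420372181102946984785667323658240) (nat_lit 1)) .nil)) .nil))) (.cons (.rf (nat_lit 214) (nat_lit 628828821707392258)) (.cons (.br (nat_lit 15) (nat_lit 0) (.cons (.br (nat_lit 14) (nat_lit 0) (.cons (.ev (nat_lit 2689650497854706269514776819345261571) (nat_lit 3)) .nil)) (.cons (.ev (nat_lit 87453897547038917277136006081232563601665) (nat_lit 1)) .nil))) .nil)))) .nil))))) (.cons (.br (nat_lit 15) (nat_lit 0) (.cons (.br (nat_lit 14) (nat_lit 0) (.cons (.br (nat_lit 14) (nat_lit 0) (.cons (.ev (nat_lit 1334420372182307150437916323029778433) (nat_lit 1)) .nil)) (.cons (.br (nat_lit 14) (nat_lit 0) (.cons (.ev (nat_lit 1334420372182307150437916323029778433) (nat_lit 1)) .nil)) .nil))) (.cons (.br (nat_lit 13) (nat_lit 0) (.cons (.rf (nat_lit 214) (nat_lit 630943148179234050)) (.cons (.br (nat_lit 14) (nat_lit 0) (.cons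 (.ev (nat_lit 680564774406697357359903178197378924547) (nat_lit 2)) (.cons (.ev (nat_lit 2689650497854706269514776819345261571) (nat_lit 3)) .nil))) (.cons (.br (nat_lit 14) (nat_lit 0) (.cons (.br (nat_lit 16) (nat_lit 0) (.cons (.ev (nat_lit 1369115260976076163154295989888564199427) (nat_lit 3)) .nil)) (.cons (.ev (nat_lit 174224582248114211576588279770195144212993) (nat_lit 2)) .nil))) .nil)))) (.cons (.ev (nat_lit 1329227996094400882797210822554681601) (nat_lit 1)) (.cons (.br (nat_lit 17) (nat_lit 0) (.cons (.rf (nat_lit 802) (nat_lit 631013481652658241)) (.cons (.ev (nat_lit 174224571863678950841406140797899365285891) (nat_lit 2)) (.cons (.br (nat_lit 13) (nat_lit 0) (.cons (.br (nat_lit 14) (nat_lit 0) (.cons (.ev (nat_lit 1334420372181102946984785667323658240) (nat_lit 1)) .nil)) (.cons (.ev (nat_lit 87453897547038917277136006081232563601665) (nat_lit 1)) .nil))) .nil)))) .nil))))) .nil))))),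
 (.br (nat_lit 15) (nat_lit 0) (.cons (.zr (nat_lit 162417736785741862079356878324224) (nat_lit 1363787923677180595768914578715174764545) (nat_lit 16) (nat_lit 2)) .nil)),
 (.br (nat_lit 12) (nat_lit 0) (.cons (.ev (nat_lit 20282410817299856522545599676673) (nat_lit 1)) (.cons (.rf (nat_lit 2061) (nat_lit 19926519232773908561233952)) (.cons (.rf (nat_lit 2062) (nat_lit 19926519232773908561233952)) (.cons (.br (nat_lit 13) (nat_lit 0) (.cons (.br (nat_lit 14) (nat_lit 0) (.cons (.br (nat_lit 15) (nat_lit 0) (.cons (.ev (nat_lit 1401141875192378034380934284530530130963) (nat_lit 5)) (.cons (.ev (nat_lit 1344825406764110764067964834336080130) (nat_lit 2)) .nil))) (.cons (.ev (nat_lit 680575118435595219674925340198162268673) (nat_lit 2)) (.cons (.br (nat_lit 17) (nat_lit 0) (.cons (.ev (nat_lit 174224582248114211576588279770195144212993) (nat_lit 2)) (.cons (.ev (nat_lit 174224571863678950841406140797899365285891) (nat_lit 2)) .nil))) .nil)))) (.cons (.br (nat_lit 15) (nat_lit 0) (.cons (.br (nat_lit 14) (nat_lit 0) (.cons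 (.ev (nat_lit 13365215503404073915258794274860564483) (nat_lit 4)) (.cons (.br (nat_lit 16) (nat_lit 0) (.cons (.ev (nat_lit 683233614992603228743860609746364006915) (nat_lit 2)) .nil)) .nil))) (.cons (.rf (nat_lit 214) (nat_lit 628692482265230594)) (.cons (.ev (nat_lit 1329248357733375992926272372684685568) (nat_lit 1)) .nil)))) (.cons (.br (nat_lit 14) (nat_lit 0) (.cons (.rf (nat_lit 2063) (nat_lit 677582165103132179601393696)) (.cons (.br (nat_lit 14) (nat_lit 0) (.cons (.rf (nat_lit 2063) (nat_lit 677582165103132179601393696)) .nil)) .nil))) (.cons (.br (nat_lit 16) (nat_lit 0) (.cons (.br (nat_lit 14) (nat_lit 0) (.cons (.br (nat_lit 15) (nat_lit 0) (.cons (.ev (nat_lit 2735551296615309739481783139076345300493) (nat_lit 4)) .nil)) (.cons (.ev (nat_lit 87452568298760413272601538448657485988096) (nat_lit 1)) .nil))) (.cons (.br (nat_lit 15) (nat_lit 0) (.cons (.ev (nat_lit 683223230557342474672255705954757246977) (nat_lit 2)) (.cons (.ev (nat_lit 87452568298760414486249724545061106024705) (nat_lit 1)) .nil))) (.cons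 (.rf (nat_lit 802) (nat_lit 629888681123356737)) .nil)))) .nil))))) .nil))))),
 (.br (nat_lit 11) (nat_lit 0) (.cons (.br (nat_lit 12) (nat_lit 0) (.cons (.ev (nat_lit 79228162514264338693055643904) (nat_lit 1)) (.cons (.rf (nat_lit 2049) (nat_lit 583706118939841765935136)) (.cons (.rf (nat_lit 2051) (nat_lit 583706118939841765935136)) (.cons (.br (nat_lit 13) (nat_lit 0) (.cons (.rf (nat_lit 2051) (nat_lit 547071928957117828006976)) (.cons (.rf (nat_lit 2049) (nat_lit 547071928957117828006976)) (.cons (.br (nat_lit 14) (nat_lit 0) (.cons (.rf (nat_lit 2052) (nat_lit 19926519232773908561233952)) (.cons (.br (nat_lit 14) (nat_lit 0) (.cons (.ev (nat_lit 680575118435595210267229979993356370433) (nat_lit 2)) (.cons (.rf (nat_lit 172) (nat_lit 629888681157790049)) .nil))) (.cons (.br (nat_lit 14) (nat_lit 0) (.cons (.rf (nat_lit 2052) (nat_lit 19926519232773908561233952)) (.cons (.rf (nat_lit 172) (nat_lit 629888681157790049)) .nil))) .nil)))) (.cons (.br (nat_lit 14) (nat_lit 0) (.cons (.rf (nat_lit 2053) (nat_lit 677582165103132179601393696))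 (.cons (.rf (nat_lit 2054) (nat_lit 677582165103132179601393696)) (.cons (.br (nat_lit 14) (nat_lit 0) (.cons (.rf (nat_lit 2053) (nat_lit 677582165103132179601393696)) (.cons (.rf (nat_lit 2054) (nat_lit 677582165103132179601393696)) .nil))) .nil)))) .nil))))) .nil))))) (.cons (.rf (nat_lit 2048) (nat_lit 547071928957117828006976)) (.cons (.br (nat_lit 12) (nat_lit 0) (.cons (.ev (nat_lit 20282410817299856522545599676673) (nat_lit 1)) (.cons (.rf (nat_lit 2056) (nat_lit 583706118939841765935136)) (.cons (.rf (nat_lit 2057) (nat_lit 583706118939841765935136)) (.cons (.br (nat_lit 12) (nat_lit 0) (.cons (.ev (nat_lit 20282410817299856522545599676673) (nat_lit 1)) (.cons (.rf (nat_lit 2056) (nat_lit 583706118939841765935136)) (.cons (.rf (nat_lit 2057) (nat_lit 583706118939841765935136)) (.cons (.br (nat_lit 15) (nat_lit 0) (.cons (.rf (nat_lit 2056) (nat_lit 469228969003474344745187)) (.cons (.ev (nat_lit 5192296858539550067353538812444673) (nat_lit 1)) (.cons (.rf (nat_lit 2059) (nat_lit 677582165103132179601393696)) (.cons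 (.rf (nat_lit 2059) (nat_lit 640105464695078675185502240)) .nil))))) .nil))))) .nil))))) (.cons (.rf (nat_lit 2048) (nat_lit 469228969003474344745187)) (.cons (.br (nat_lit 12) (nat_lit 0) (.cons (.ev (nat_lit 20282410817299856522545599676673) (nat_lit 1)) (.cons (.rf (nat_lit 2061) (nat_lit 19926519232773908561233952)) (.cons (.rf (nat_lit 2062) (nat_lit 19926519232773908561233952)) (.cons (.rf (nat_lit 2064) (nat_lit 19926519232773908561233952)) (.cons (.br (nat_lit 12) (nat_lit 0) (.cons (.ev (nat_lit 20282410817299856522545599676673) (nat_lit 1)) (.cons (.rf (nat_lit 2061) (nat_lit 19926519232773908561233952)) (.cons (.rf (nat_lit 2062) (nat_lit 19926519232773908561233952)) (.cons (.rf (nat_lit 2064) (nat_lit 19926519232773908561233952)) .nil))))) .nil)))))) .nil))))))]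

theorem c79 : chkAll C T R L79 (nat_lit 2050) = true := by decide +kernel

theorem l79 : (nat_lit 2050) + L79.length = (nat_lit 2066) := by decide +kernel

/-- part of the certificates -/
def L80 : List Prf := [(.br (nat_lit 13) (nat_lit 0) (.cons (.kr (nat_lit 10384593718278581076675626128113665) (nat_lit 158456329750895159156261519360) (nat_lit 0) (nat_lit 1)) (.cons (.br (nat_lit 14) (nat_lit 0) (.cons (.ev (nat_lit 8006562480375390296466683939372008965) (nat_lit 3)) (.cons (.ev (nat_lit 5212658806999651642792203002052865) (nat_lit 1)) (.cons (.br (nat_lit 16) (nat_lit 0) (.cons (.ev (nat_lit 1329248357423895705471692748093456385) (nat_lit 1)) (.cons (.ev (nat_lit 680575159158870742599099500884513522177) (nat_lit 2)) .nil))) .nil)))) (.cons (.br (nat_lit 14) (nat_lit 0) (.cons (.ev (nat_lit 5212658806999651642792203002052865) (nat_lit 1)) (.cons (.rf (nat_lit 214) (nat_lit 629884287204918632)) .nil))) (.cons (.br (nat_lit 14) (nat_lit 0) (.cons (.br (nat_lit 15) (nat_lit 0) (.cons (.ev (nat_lit 1334420372182307150437916323029778433)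 (nat_lit 1)) (.cons (.ev (nat_lit 1329288843636323662127121588612563201) (nat_lit 2)) .nil))) (.cons (.rf (nat_lit 214) (nat_lit 629849137326654824)) (.cons (.br (nat_lit 16) (nat_lit 0) (.cons (.ev (nat_lit 680575159158870742599099500884513522177) (nat_lit 2)) (.cons (.ev (nat_lit 523354311519067479036202307032243704693761) (nat_lit 3)) .nil))) .nil)))) .nil))))),
 (.br (nat_lit 16) (nat_lit 0) (.cons (.ev (nat_lit 79228167255149622130953421056) (nat_lit 1)) (.cons (.ev (nat_lit 20282719093383858534464404652033) (nat_lit 1)) (.cons (.ev (nat_lit 1329227996094400882797210822554681601) (nat_lit 1)) (.cons (.ev (nat_lit 680575118436214180249835629745298079747) (nat_lit 2)) .nil))))),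
 (.br (nat_lit 13) (nat_lit 0) (.cons (.br (nat_lit 14) (nat_lit 0) (.cons (.ev (nat_lit 8006562480375390296466683939372008965) (nat_lit 3)) (.cons (.ev (nat_lit 5192296858534846075556049310515201) (nat_lit 1)) (.cons (.rf (nat_lit 2067) (nat_lit 677582165103132179601393696)) .nil)))) (.cons (.kr (nat_lit 2658455991569836468174098089717530625) (nat_lit 40564820416229160462527989022720) (nat_lit 0) (nat_lit 1)) (.cons (.ev (nat_lit 680564734000953445067983761925696651777) (nat_lit 2)) (.cons (.br (nat_lit 15) (nat_lit 0) (.cons (.br (nat_lit 14) (nat_lit 0) (.cons (.ev (nat_lit 683223189833447972357780530930858852867) (nat_lit 2)) (.cons (.ev (nat_lit 16023468987790566571937161666976419335) (nat_lit 4)) .nil))) (.cons (.ev (nat_lit 1329227996094400882797210822554681601) (nat_lit 1)) (.cons (.br (nat_lit 16) (nat_lit 0) (.cons (.br (nat_lit 14) (nat_lit 0) (.cons (.ev (nat_lit 1334420372181102946984785667323658240) (nat_lit 1)) .nil)) (.cons (.ev (nat_lit 683223189833447972357780530930858852867) (nat_lit 2)) .nil))) .nil))))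 .nil))))),
 (.br (nat_lit 14) (nat_lit 0) (.cons (.ev (nat_lit 5192296858539550067353538812444673) (nat_lit 1)) (.cons (.ev (nat_lit 680569926376419954056647183427554050819) (nat_lit 2)) (.cons (.rf (nat_lit 1993) (nat_lit 677582165103132179601393696)) .nil)))),
 (.br (nat_lit 13) (nat_lit 0) (.cons (.ev (nat_lit 680564774406697357359903178197378924547) (nat_lit 2)) (.cons (.rf (nat_lit 2066) (nat_lit 19889885042791184623305792)) (.cons (.br (nat_lit 14) (nat_lit 0) (.cons (.rf (nat_lit 2069) (nat_lit 677582165103132179601393696)) (.cons (.br (nat_lit 14) (nat_lit 0) (.cons (.rf (nat_lit 1993) (nat_lit 677582165103132179601393696)) .nil)) .nil))) .nil)))),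
 (.br (nat_lit 12) (nat_lit 0) (.cons (.rf (nat_lit 2066) (nat_lit 19926519232773908561233952)) (.cons (.rf (nat_lit 2068) (nat_lit 19926519232773908561233952)) (.cons (.rf (nat_lit 2070) (nat_lit 19926519232773908561233952)) (.cons (.br (nat_lit 13) (nat_lit 0) (.cons (.rf (nat_lit 2068) (nat_lit 19889885042791184623305792)) (.cons (.rf (nat_lit 2066) (nat_lit 19889885042791184623305792)) (.cons (.rf (nat_lit 2070) (nat_lit 19889885042791184623305792)) (.cons (.br (nat_lit 14) (nat_lit 0) (.cons (.rf (nat_lit 1992) (nat_lit 21135445052388537735940128)) (.cons (.br (nat_lit 14) (nat_lit 0) (.cons (.rf (nat_lit 1992) (nat_lit 21135445052388537735940128)) (.cons (.ev (nat_lit 1049430861325533500122810276987829364459521) (nat_lit 4)) .nil))) (.cons (.br (nat_lit 14) (nat_lit 0) (.cons (.ev (nat_lit 5192535162006594274189589734293761) (nat_lit 2)) (.cons (.ev (nat_lit 1049430861325533500122810276987829364459521) (nat_lit 4)) .nil))) .nil)))) .nil))))) .nil))))),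
 (.br (nat_lit 14) (nat_lit 0) (.cons (.br (nat_lit 13) (nat_lit 0) (.cons (.ev (nat_lit 2668962756352652158076379876047586817) (nat_lit 3)) (.cons (.ev (nat_lit 20282719093383858534464404652033) (nat_lit 1)) (.cons (.rf (nat_lit 2067) (nat_lit 677467687953195812180203747)) .nil)))) (.cons (.kr (nat_lit 10384593718278581076675626128113665) (nat_lit 158456329750895159156261519360) (nat_lit 0) (nat_lit 1)) (.cons (.ev (nat_lit 680564734000953445067983761925696651777) (nat_lit 2)) (.cons (.br (nat_lit 15) (nat_lit 0) (.cons (.br (nat_lit 13) (nat_lit 0) (.cons (.ev (nat_lit 683223189833447972357780530930858852867) (nat_lit 2)) (.cons (.ev (nat_lit 10644493150652221177946941418029846019) (nat_lit 4)) .nil))) (.cons (.ev (nat_lit 1329227996094400882797210822554681601) (nat_lit 1)) (.cons (.br (nat_lit 16) (nat_lit 0) (.cons (.br (nat_lit 13) (nat_lit 0) (.cons (.ev (nat_lit 1329248357422682057285594154073653248) (nat_lit 1)) .nil)) (.cons (.ev (nat_lit 683223189833447972357780530930858852867) (nat_lit 2)) .nil))) .nil)))) .nil))))),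
 (.br (nat_lit 13) (nat_lit 0) (.cons (.br (nat_lit 15) (nat_lit 0) (.cons (.zr (nat_lit 524715409792087733262043113245128762851841) (nat_lit 31153939607534105412668175843459072) (nat_lit 16) (nat_lit 11)) .nil)) .nil)),
 (.br (nat_lit 14) (nat_lit 0) (.cons (.ev (nat_lit 680575118436214180249835629745298079747) (nat_lit 2)) (.cons (.rf (nat_lit 2071) (nat_lit 19848676272820265077972163)) (.cons (.br (nat_lit 13) (nat_lit 0) (.cons (.rf (nat_lit 2073) (nat_lit 677582165103132179601393696)) (.cons (.br (nat_lit 13) (nat_lit 0) (.cons (.rf (nat_lit 2073) (nat_lit 677582165103132179601393696)) .nil)) .nil))) .nil)))),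
 (.br (nat_lit 12) (nat_lit 0) (.cons (.rf (nat_lit 2071) (nat_lit 19926519232773908561233952)) (.cons (.rf (nat_lit 2072) (nat_lit 19926519232773908561233952)) (.cons (.rf (nat_lit 2074) (nat_lit 19926519232773908561233952)) (.cons (.br (nat_lit 14) (nat_lit 0) (.cons (.rf (nat_lit 2072) (nat_lit 19848676272820265077972163)) (.cons (.rf (nat_lit 2071) (nat_lit 19848676272820265077972163)) (.cons (.rf (nat_lit 2074) (nat_lit 19848676272820265077972163)) (.cons (.kr (nat_lit 10384593718278581076675626128113665) (nat_lit 158456329750895159156261519360) (nat_lit 0) (nat_lit 1)) .nil))))) .nil))))),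
 (.br (nat_lit 12) (nat_lit 0) (.cons (.rf (nat_lit 2071) (nat_lit 19926519232773908561233952)) (.cons (.rf (nat_lit 2075) (nat_lit 19926519232773908561233952)) (.cons (.ev (nat_lit 79228167255149622130953421056) (nat_lit 1)) (.cons (.br (nat_lit 15) (nat_lit 0) (.cons (.rf (nat_lit 2075) (nat_lit 19889885042791184623305792)) (.cons (.rf (nat_lit 2071) (nat_lit 19848676272820265077972163)) (.cons (.ev (nat_lit 1329227996094400882797210822554681601) (nat_lit 1)) (.cons (.br (nat_lit 13) (nat_lit 0) (.cons (.rf (nat_lit 2067) (nat_lit 677545530913149455663465536)) (.cons (.br (nat_lit 13) (nat_lit 0) (.cons (.ev (nat_lit 20282719093383858534464404652033) (nat_lit 1)) (.cons (.ev (nat_lit 174224571904085932693663845722627285975553) (nat_lit 2)) .nil))) (.cons (.br (nat_lit 13) (nat_lit 0) (.cons (.rf (nat_lit 2067) (nat_lit 677545530913149455663465536)) (.cons (.ev (nat_lit 174224571904085932693663845722627285975553) (nat_lit 2)) .nil))) .nil)))) .nil))))) .nil))))),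
 (.br (nat_lit 12) (nat_lit 0) (.cons (.rf (nat_lit 2071) (nat_lit 19926519232773908561233952)) (.cons (.rf (nat_lit 2075) (nat_lit 19926519232773908561233952)) (.cons (.ev (nat_lit 79228167255149622130953421056) (nat_lit 1)) (.cons (.br (nat_lit 13) (nat_lit 0) (.cons (.rf (nat_lit 2076) (nat_lit 19889885042791184623305792)) (.cons (.rf (nat_lit 2075) (nat_lit 19889885042791184623305792)) (.cons (.br (nat_lit 13) (nat_lit 0) (.cons (.rf (nat_lit 2076) (nat_lit 19889885042791184623305792)) (.cons (.rf (nat_lit 2075) (nat_lit 19889885042791184623305792)) .nil))) .nil)))) .nil))))),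
 (.br (nat_lit 13) (nat_lit 0) (.cons (.kr (nat_lit 10384593718278581076675626128113665) (nat_lit 158456329750895159156261519360) (nat_lit 0) (nat_lit 1)) (.cons (.br (nat_lit 14) (nat_lit 0) (.cons (.rf (nat_lit 1059) (nat_lit 628832050583182401)) (.cons (.br (nat_lit 16) (nat_lit 0) (.cons (.ev (nat_lit 1329248357423895705471692748093456385) (nat_lit 1)) (.cons (.ev (nat_lit 680564734000953435660000166946759901697) (nat_lit 2)) .nil))) (.cons (.ev (nat_lit 5212658806999651642792203002052865) (nat_lit 1)) .nil)))) (.cons (.br (nat_lit 14) (nat_lit 0) (.cons (.br (nat_lit 15) (nat_lit 0) (.cons (.ev (nat_lit 680575159158870752006794865487365931521) (nat_lit 2)) (.cons (.ev (nat_lit 1334420372181102946984785667323658240) (nat_lit 1)) .nil))) (.cons (.rf (nat_lit 1059) (nat_lit 628797965722689601)) (.cons (.br (nat_lit 16) (nat_lit 0) (.cons (.br (nat_lit 15) (nat_lit 0) (.cons (.zr (nat_lit 2679225337460319733720436673268023303) (nat_lit 1361129467685611972838247803631391737344) (nat_lit 16) (nat_lit 2)) .nil)) (.cons (.ev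 (nat_lit 680575159158870752006794865487365931521) (nat_lit 2)) .nil))) .nil)))) (.cons (.br (nat_lit 14) (nat_lit 0) (.cons (.ev (nat_lit 5212658806999651642792203002052865) (nat_lit 1)) (.cons (.br (nat_lit 16) (nat_lit 0) (.cons (.br (nat_lit 15) (nat_lit 0) (.cons (.ev (nat_lit 13313212201175803442235115033238309385) (nat_lit 4)) .nil)) (.cons (.ev (nat_lit 680564734000953435660000166946759901697) (nat_lit 2)) .nil))) (.cons (.ev (nat_lit 174224582248114211585995975130399950111233) (nat_lit 2)) .nil)))) .nil))))),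
 (.br (nat_lit 15) (nat_lit 0) (.cons (.kr (nat_lit 2658455991569836468174098089717530625) (nat_lit 40564820416229160462527989022720) (nat_lit 0) (nat_lit 1)) (.cons (.br (nat_lit 13) (nat_lit 0) (.cons (.rf (nat_lit 1059) (nat_lit 629956850979444801)) (.cons (.br (nat_lit 14) (nat_lit 0) (.cons (.ev (nat_lit 683233574585621367004673344103572832257) (nat_lit 2)) (.cons (.ev (nat_lit 16023468987790566571937161666976419335) (nat_lit 4)) .nil))) (.cons (.br (nat_lit 14) (nat_lit 0) (.cons (.br (nat_lit 16) (nat_lit 0) (.cons (.zr (nat_lit 114514484623478203064533523074383872) (nat_lit 4094022227335072508805614365802515530245) (nat_lit 48) (nat_lit 6)) .nil)) (.cons (.ev (nat_lit 174227230360235339880418395206609409278467) (nat_lit 2)) .nil))) .nil)))) (.cons (.br (nat_lit 16) (nat_lit 0) (.cons (.ev (nat_lit 683223189833447981765475895533644153347) (nat_lit 2)) (.cons (.br (nat_lit 14) (nat_lit 0) (.cons (.ev (nat_lit 5192296858534846075556049310515201) (nat_lit 1)) (.cons (.ev (nat_lit 1334420372182307150437916323029778433)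 (nat_lit 1)) .nil))) (.cons (.ev (nat_lit 680564734000953435660000166946759901697) (nat_lit 2)) .nil)))) (.cons (.ev (nat_lit 1329227996094400882797210822554681601) (nat_lit 1)) .nil))))),
 (.br (nat_lit 13) (nat_lit 0) (.cons (.rf (nat_lit 2079) (nat_lit 640068830505095951247574080)) (.cons (.rf (nat_lit 2078) (nat_lit 640068830505095951247574080)) (.cons (.br (nat_lit 14) (nat_lit 0) (.cons (.rf (nat_lit 1992) (nat_lit 19926519232773908561233952)) (.cons (.br (nat_lit 14) (nat_lit 0) (.cons (.zr (nat_lit 10385227546001269197088519654211589) (nat_lit 1361129508249192031213520135144001896960) (nat_lit 16) (nat_lit 1)) .nil)) .nil))) (.cons (.br (nat_lit 14) (nat_lit 0) (.cons (.rf (nat_lit 2069) (nat_lit 677582165103132179601393696)) (.cons (.br (nat_lit 14) (nat_lit 0) (.cons (.ev (nat_lit 680569926376419954056647183427554050819) (nat_lit 2)) (.cons (.ev (nat_lit 1744968102551573320283220704714230519045141) (nat_lit 5)) .nil))) (.cons (.br (nat_lit 14) (nat_lit 0) (.cons (.rf (nat_lit 1993) (nat_lit 677582165103132179601393696))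 (.cons (.ev (nat_lit 1744968102551573320283220704714230519045141) (nat_lit 5)) .nil))) .nil)))) .nil))))),
 (.br (nat_lit 12) (nat_lit 0) (.cons (.rf (nat_lit 2078) (nat_lit 677582165103132179601393696)) (.cons (.rf (nat_lit 2079) (nat_lit 677582165103132179601393696)) (.cons (.rf (nat_lit 2080) (nat_lit 677582165103132179601393696)) (.cons (.br (nat_lit 13) (nat_lit 0) (.cons (.rf (nat_lit 2079) (nat_lit 640068830505095951247574080)) (.cons (.rf (nat_lit 2078) (nat_lit 640068830505095951247574080)) (.cons (.br (nat_lit 16) (nat_lit 0) (.cons (.br (nat_lit 14) (nat_lit 0) (.cons (.rf (nat_lit 2080) (nat_lit 677504322143178536118131907)) (.cons (.zr (nat_lit 1395157704375847700261337335212036084203525) (nat_lit 41579100009183492566520867051277312) (nat_lit 32) (nat_lit 8)) .nil))) (.cons (.br (nat_lit 14) (nat_lit 0) (.cons (.ev (nat_lit 681894022684890667958730132545222148354) (nat_lit 2)) (.cons (.ev (nat_lit 87452568420851321192111657148457595110145) (nat_lit 3)) .nil))) (.cons (.ev (nat_lit 349810273398345452106052383415108312238081)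 (nat_lit 4)) .nil)))) (.cons (.rf (nat_lit 2080) (nat_lit 640068830505095951247574080)) .nil))))) .nil))))),
 (.br (nat_lit 15) (nat_lit 0) (.cons (.br (nat_lit 13) (nat_lit 0) (.cons (.rf (nat_lit 1059) (nat_lit 629955785827551425)) (.cons (.br (nat_lit 14) (nat_lit 0) (.cons (.ev (nat_lit 680564774406697347878420841697734819843) (nat_lit 2)) (.cons (.br (nat_lit 16) (nat_lit 0) (.cons (.zr (nat_lit 51963533408187116489086253289046025) (nat_lit 1361129468002523413969485539363541485056) (nat_lit 16) (nat_lit 2)) .nil)) .nil))) (.cons (.br (nat_lit 14) (nat_lit 0) (.cons (.br (nat_lit 16) (nat_lit 0) (.cons (.ev (nat_lit 2722311142926748918449823864694067301899) (nat_lit 4)) .nil)) (.cons (.ev (nat_lit 174224582248114211585995975130399950111233) (nat_lit 2)) .nil))) .nil)))) (.cons (.kr (nat_lit 10384593718278581076675626128113665) (nat_lit 158456329750895159156261519360) (nat_lit 0) (nat_lit 1)) (.cons (.br (nat_lit 16) (nat_lit 0) (.cons (.ev (nat_lit 683223189833447981765475895533644153347) (nat_lit 2)) (.cons (.rf (nat_lit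 1059) (nat_lit 629853531245977793)) (.cons (.br (nat_lit 14) (nat_lit 0) (.cons (.br (nat_lit 13) (nat_lit 0) (.cons (.ev (nat_lit 20282719093383858534464404652033) (nat_lit 1)) .nil)) (.cons (.ev (nat_lit 87452573490978353129924796043127834018048) (nat_lit 1)) .nil))) .nil)))) (.cons (.ev (nat_lit 1329227996094400882797210822554681601) (nat_lit 1)) .nil))))),
 (.br (nat_lit 14) (nat_lit 0) (.cons (.rf (nat_lit 2082) (nat_lit 677504322143178536118131907)) (.cons (.rf (nat_lit 2081) (nat_lit 677504322143178536118131907)) (.cons (.kr (nat_lit 10384593718278581076675626128113665) (nat_lit 158456329750895159156261519360) (nat_lit 0) (nat_lit 1)) (.cons (.br (nat_lit 16) (nat_lit 0) (.cons (.br (nat_lit 13) (nat_lit 0) (.cons (.ev (nat_lit 2722269523106567515130267869614550417927) (nat_lit 4)) (.cons (.ev (nat_lit 174224582248114211585995975130399950111233) (nat_lit 2)) .nil))) (.cons (.ev (nat_lit 680575118436214189731606196621026525187) (nat_lit 2)) (.cons (.rf (nat_lit 1059) (nat_lit 558922936493354177)) .nil)))) .nil))))),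
 (.br (nat_lit 12) (nat_lit 0) (.cons (.rf (nat_lit 2081) (nat_lit 677582165103132179601393696)) (.cons (.rf (nat_lit 2082) (nat_lit 677582165103132179601393696)) (.cons (.rf (nat_lit 2083) (nat_lit 677582165103132179601393696)) (.cons (.br (nat_lit 14) (nat_lit 0) (.cons (.rf (nat_lit 2082) (nat_lit 677504322143178536118131907)) (.cons (.rf (nat_lit 2081) (nat_lit 677504322143178536118131907)) (.cons (.rf (nat_lit 2083) (nat_lit 677504322143178536118131907)) (.cons (.kr (nat_lit 10384593718278581076675626128113665) (nat_lit 158456329750895159156261519360) (nat_lit 0) (nat_lit 1)) .nil))))) .nil)))))]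

theorem c80 : chkAll C T R L80 (nat_lit 2066) = true := by decide +kernel

theorem l80 : (nat_lit 2066) + L80.length = (nat_lit 2085) := by decide +kernel

/-- part of the certificates -/
def L81 : List Prf := [(.br (nat_lit 12) (nat_lit 0) (.cons (.rf (nat_lit 2081) (nat_lit 677582165103132179601393696)) (.cons (.rf (nat_lit 2084) (nat_lit 677582165103132179601393696)) (.cons (.ev (nat_lit 79228167255149622130953421056) (nat_lit 1)) (.cons (.br (nat_lit 15) (nat_lit 0) (.cons (.rf (nat_lit 2084) (nat_lit 640068830505095951247574080)) (.cons (.rf (nat_lit 2081) (nat_lit 677504322143178536118131907)) (.cons (.br (nat_lit 16) (nat_lit 0) (.cons (.ev (nat_lit 680564734000953435660000166946759901697) (nat_lit 2)) (.cons (.br (nat_lit 14) (nat_lit 0) (.cons (.ev (nat_lit 5192296859748494261654643363872768) (nat_lit 1)) (.cons (.ev (nat_lit 174224571863678950831924658457001674670083) (nat_lit 2)) .nil))) (.cons (.rf (nat_lit 1059) (nat_lit 524018974198931681)) .nil)))) (.cons (.ev (nat_lit 1329227996095614530983307226174718208)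 (nat_lit 1)) .nil))))) .nil))))),
 (.br (nat_lit 12) (nat_lit 0) (.cons (.rf (nat_lit 2081) (nat_lit 677582165103132179601393696)) (.cons (.rf (nat_lit 2084) (nat_lit 677582165103132179601393696)) (.cons (.ev (nat_lit 79228167255149622130953421056) (nat_lit 1)) (.cons (.br (nat_lit 13) (nat_lit 0) (.cons (.rf (nat_lit 2085) (nat_lit 640068830505095951247574080)) (.cons (.rf (nat_lit 2084) (nat_lit 640068830505095951247574080)) (.cons (.br (nat_lit 13) (nat_lit 0) (.cons (.rf (nat_lit 2085) (nat_lit 640068830505095951247574080)) (.cons (.rf (nat_lit 2084) (nat_lit 640068830505095951247574080)) (.cons (.rf (nat_lit 1059) (nat_lit 560079691448518913)) .nil)))) (.cons (.br (nat_lit 13) (nat_lit 0) (.cons (.ev (nat_lit 20282719093383858534464404652033) (nat_lit 1)) (.cons (.rf (nat_lit 2084) (nat_lit 640068830505095951247574080)) (.cons (.rf (nat_lit 1059) (nat_lit 560079691448518913)) .nil)))) .nil))))) .nil))))),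
 (.br (nat_lit 10) (nat_lit 0) (.cons (.br (nat_lit 1) (nat_lit 0) (.cons (.rf (nat_lit 1533) (nat_lit 407901468851537952)) (.cons (.rf (nat_lit 1596) (nat_lit 407901468851537952)) (.cons (.rf (nat_lit 1669) (nat_lit 407901468851537952)) (.cons (.rf (nat_lit 1720) (nat_lit 407901468851537952)) (.cons (.rf (nat_lit 1791) (nat_lit 407901468851537952)) (.cons (.br (nat_lit 2) (nat_lit 0) (.cons (.rf (nat_lit 1669) (nat_lit 298727627476272192)) (.cons (.rf (nat_lit 1596) (nat_lit 298727627476272192)) (.cons (.rf (nat_lit 1791) (nat_lit 298727627476272192)) (.cons (.rf (nat_lit 1720) (nat_lit 298727627476272192)) (.cons (.rf (nat_lit 1862) (nat_lit 14242959524133701664)) (.cons (.br (nat_lit 6) (nat_lit 0) (.cons (.rf (nat_lit 1533) (nat_lit 402095870462401731)) (.cons (.rf (nat_lit 1720) (nat_lit 402095870462401731)) (.cons (.rf (nat_lit 1791) (nat_lit 402095870462401731)) (.cons (.rf (nat_lit 1941) (nat_lit 493858305440582043680)) (.cons (.rf (nat_lit 1989) (nat_lit 493858305440582043680)) (.cons (.br (nat_lit 7) (nat_lit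 0) (.cons (.rf (nat_lit 1791) (nat_lit 292922029087135971)) (.cons (.rf (nat_lit 1720) (nat_lit 292922029087135971)) (.cons (.rf (nat_lit 1989) (nat_lit 458008564956394521664)) (.cons (.rf (nat_lit 1941) (nat_lit 458008564956394521664)) (.cons (.rf (nat_lit 1862) (nat_lit 16542996934958259395)) (.cons (.br (nat_lit 8) (nat_lit 0) (.cons (.br (nat_lit 12) (nat_lit 0) (.cons (.rf (nat_lit 1996) (nat_lit 583706118939841765935136)) (.cons (.rf (nat_lit 2001) (nat_lit 583706118939841765935136)) (.cons (.rf (nat_lit 2005) (nat_lit 583706118939841765935136)) (.cons (.br (nat_lit 12) (nat_lit 0) (.cons (.rf (nat_lit 1996) (nat_lit 583706118939841765935136)) (.cons (.rf (nat_lit 2001) (nat_lit 583706118939841765935136)) (.cons (.rf (nat_lit 2005) (nat_lit 583706118939841765935136)) (.cons (.br (nat_lit 13) (nat_lit 0) (.cons (.rf (nat_lit 2005) (nat_lit 547071928957117828006976)) (.cons (.rf (nat_lit 2001) (nat_lit 547071928957117828006976)) (.cons (.rf (nat_lit 2007) (nat_lit 677582165103132179601393696)) (.cons (.rf (nat_lit 2007)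 (nat_lit 640105464695078675185502240)) .nil))))) .nil))))) .nil))))) (.cons (.rf (nat_lit 2048) (nat_lit 583706118939841765935136)) (.cons (.rf (nat_lit 2065) (nat_lit 583706118939841765935136)) (.cons (.rf (nat_lit 2048) (nat_lit 505863158986198282673347)) (.cons (.rf (nat_lit 2065) (nat_lit 505863158986198282673347)) (.cons (.br (nat_lit 11) (nat_lit 0) (.cons (.rf (nat_lit 2065) (nat_lit 547071928957117828006976)) (.cons (.rf (nat_lit 2048) (nat_lit 547071928957117828006976)) (.cons (.rf (nat_lit 2065) (nat_lit 469228969003474344745187)) (.cons (.rf (nat_lit 2048) (nat_lit 469228969003474344745187)) (.cons (.br (nat_lit 12) (nat_lit 0) (.cons (.rf (nat_lit 2071) (nat_lit 19926519232773908561233952)) (.cons (.rf (nat_lit 2075) (nat_lit 19926519232773908561233952)) (.cons (.rf (nat_lit 2076) (nat_lit 19926519232773908561233952)) (.cons (.rf (nat_lit 2077) (nat_lit 19926519232773908561233952)) (.cons (.br (nat_lit 12) (nat_lit 0) (.cons (.rf (nat_lit 2071) (nat_lit 19926519232773908561233952)) (.cons (.rf (nat_lit 2075)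 (nat_lit 19926519232773908561233952)) (.cons (.rf (nat_lit 2076) (nat_lit 19926519232773908561233952)) (.cons (.rf (nat_lit 2077) (nat_lit 19926519232773908561233952)) .nil))))) .nil)))))) (.cons (.br (nat_lit 12) (nat_lit 0) (.cons (.rf (nat_lit 2081) (nat_lit 677582165103132179601393696)) (.cons (.rf (nat_lit 2084) (nat_lit 677582165103132179601393696)) (.cons (.rf (nat_lit 2085) (nat_lit 677582165103132179601393696)) (.cons (.rf (nat_lit 2086) (nat_lit 677582165103132179601393696)) (.cons (.br (nat_lit 12) (nat_lit 0) (.cons (.rf (nat_lit 2081) (nat_lit 677582165103132179601393696)) (.cons (.rf (nat_lit 2084) (nat_lit 677582165103132179601393696)) (.cons (.rf (nat_lit 2085) (nat_lit 677582165103132179601393696)) (.cons (.rf (nat_lit 2086) (nat_lit 677582165103132179601393696)) .nil))))) .nil)))))) .nil))))))) .nil))))))) .nil))))))) .nil))))))) .nil))))))) .nil))))))) .nil)),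
 (.br (nat_lit 4) (nat_lit 0) (.cons (.br (nat_lit 4) (nat_lit 0) (.cons (.br (nat_lit 0) (nat_lit 0) (.cons (.rf (nat_lit 1469) (nat_lit 247027864611)) (.cons (.rf (nat_lit 1469) (nat_lit 213741868067)) (.cons (.br (nat_lit 6) (nat_lit 1) (.cons (.rf (nat_lit 1469) (nat_lit 276089018530)) (.cons (.br (nat_lit 9) (nat_lit 1) (.cons (.br (nat_lit 2) (nat_lit 0) (.cons (.rf (nat_lit 1469) (nat_lit 276089019554)) (.cons (.rf (nat_lit 1065) (nat_lit 66816)) (.cons (.br (nat_lit 7) (nat_lit 1) (.cons (.rf (nat_lit 1425) (nat_lit 173217520836)) (.cons (.br (nat_lit 8) (nat_lit 1) (.cons (.rf (nat_lit 2087) (nat_lit 407901468746716195)) (.cons (.rf (nat_lit 2087) (nat_lit 406810719925965859)) .nil))) .nil))) .nil)))) .nil)) .nil))) .nil)))) .nil)) .nil)),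
 (.br (nat_lit 14) (nat_lit 0) (.cons (.br (nat_lit 15) (nat_lit 0) (.cons (.ev (nat_lit 2689609774580373400286847386542801409) (nat_lit 3)) (.cons (.rf (nat_lit 1) (nat_lit 631047566216374465)) .nil))) .nil)),
 (.br (nat_lit 15) (nat_lit 0) (.cons (.ev (nat_lit 1344865813747172003005359168493256963) (nat_lit 2)) .nil)),
 (.br (nat_lit 12) (nat_lit 0) (.cons (.br (nat_lit 13) (nat_lit 0) (.cons (.kr (nat_lit 158456329750895159156244742145) (nat_lit 40564819207321787591972523868160) (nat_lit 0) (nat_lit 1)) (.cons (.br (nat_lit 14) (nat_lit 0) (.cons (.rf (nat_lit 2089) (nat_lit 583706118939841765935136)) (.cons (.br (nat_lit 14) (nat_lit 0) (.cons (.rf (nat_lit 2089) (nat_lit 583706118939841765935136)) (.cons (.br (nat_lit 15) (nat_lit 0) (.cons (.rf (nat_lit 2090) (nat_lit 677582165103132179601393696)) (.cons (.rf (nat_lit 2090) (nat_lit 640105464695078675185502240)) .nil))) .nil))) .nil))) .nil))) .nil)),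
 (.br (nat_lit 15) (nat_lit 0) (.cons (.ev (nat_lit 10384752792369481279820658445910017) (nat_lit 2)) (.cons (.br (nat_lit 16) (nat_lit 0) (.cons (.ev (nat_lit 10425158538699587943854348731286017) (nat_lit 2)) (.cons (.ev (nat_lit 688540101818445754852880107513225282049) (nat_lit 3)) .nil))) .nil))),
 (.br (nat_lit 13) (nat_lit 0) (.cons (.ev (nat_lit 20521023755186857591926318760192) (nat_lit 2)) (.cons (.br (nat_lit 15) (nat_lit 0) (.cons (.ev (nat_lit 10384752792369481279820658445910017) (nat_lit 2)) (.cons (.rf (nat_lit 2092) (nat_lit 19926519232773908561233952)) (.cons (.br (nat_lit 15) (nat_lit 0) (.cons (.ev (nat_lit 10384752792369481279820658445910017) (nat_lit 2)) (.cons (.rf (nat_lit 2092) (nat_lit 19926519232773908561233952)) .nil))) .nil)))) .nil))),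
 (.br (nat_lit 14) (nat_lit 0) (.cons (.kr (nat_lit 5212579578832414939914141479993346) (nat_lit 1329228075013078387240483722838999296) (nat_lit 0) (nat_lit 3)) (.cons (.rf (nat_lit 1678) (nat_lit 622667979643427316082760)) .nil))),
 (.br (nat_lit 14) (nat_lit 0) (.cons (.ev (nat_lit 5253382703919910062974465048838144) (nat_lit 2)) .nil)),
 (.br (nat_lit 13) (nat_lit 0) (.cons (.rf (nat_lit 2094) (nat_lit 583706118939841765935136)) (.cons (.br (nat_lit 14) (nat_lit 0) (.cons (.rf (nat_lit 1678) (nat_lit 622703721477805961291812)) (.cons (.br (nat_lit 16) (nat_lit 0) (.cons (.ev (nat_lit 4083440529163952869174995068296060471307) (nat_lit 4)) (.cons (.rf (nat_lit 70) (nat_lit 629954687259707430)) .nil))) (.cons (.br (nat_lit 15) (nat_lit 0) (.cons (.rf (nat_lit 2095) (nat_lit 21174442659472880612543553)) (.cons (.rf (nat_lit 2095) (nat_lit 20003260031150029265964097)) .nil))) .nil)))) .nil))),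
 (.br (nat_lit 14) (nat_lit 0) (.cons (.kr (nat_lit 2658455991569836486620842167738826755) (nat_lit 158456325028673353325117309440) (nat_lit 0) (nat_lit 10)) (.cons (.br (nat_lit 15) (nat_lit 0) (.cons (.ev (nat_lit 683223189833449181265153403676723773953) (nat_lit 2)) (.cons (.ev (nat_lit 1334440575362539362096165266135187713) (nat_lit 1)) .nil))) .nil))),
 (.br (nat_lit 13) (nat_lit 0) (.cons (.rf (nat_lit 2094) (nat_lit 583706118939841765935136)) (.cons (.br (nat_lit 14) (nat_lit 0) (.cons (.kr (nat_lit 2658455991569836486620842167738826755) (nat_lit 158456325028673353325117309440) (nat_lit 0) (nat_lit 10)) (.cons (.rf (nat_lit 2097) (nat_lit 19926519232773908561233952)) (.cons (.br (nat_lit 14) (nat_lit 0) (.cons (.kr (nat_lit 2658455991569836486620842167738826755) (nat_lit 158456325028673353325117309440) (nat_lit 0) (nat_lit 10)) (.cons (.rf (nat_lit 2097) (nat_lit 19926519232773908561233952)) .nil))) .nil)))) .nil))),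
 (.br (nat_lit 14) (nat_lit 0) (.cons (.rf (nat_lit 2098) (nat_lit 582562420662103091283008)) (.cons (.br (nat_lit 16) (nat_lit 0) (.cons (.br (nat_lit 15) (nat_lit 0) (.cons (.ev (nat_lit 5327337459214818933758592344349868549) (nat_lit 3)) .nil)) (.cons (.ev (nat_lit 1361160743161222017418000206676562674177) (nat_lit 3)) .nil))) .nil))),
 (.br (nat_lit 15) (nat_lit 0) (.cons (.ev (nat_lit 1344865972203482808950237224994275584) (nat_lit 2)) .nil)),
 (.br (nat_lit 12) (nat_lit 0) (.cons (.ev (nat_lit 79229376162522775260890136576) (nat_lit 1)) (.cons (.br (nat_lit 14) (nat_lit 0) (.cons (.rf (nat_lit 1685) (nat_lit 18240811676784675432484)) (.cons (.br (nat_lit 14) (nat_lit 0) (.cons (.rf (nat_lit 1685) (nat_lit 18240811676784675432484)) (.cons (.br (nat_lit 15) (nat_lit 0) (.cons (.rf (nat_lit 2100) (nat_lit 677582165103132179601393696)) (.cons (.rf (nat_lit 2100) (nat_lit 640105464695078675185502240)) .nil))) .nil))) .nil))) .nil))),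
 (.br (nat_lit 12) (nat_lit 0) (.cons (.ev (nat_lit 79229371458603035369754591233) (nat_lit 1)) (.cons (.br (nat_lit 13) (nat_lit 0) (.cons (.ev (nat_lit 10425159162505274260310371965339137) (nat_lit 3)) (.cons (.br (nat_lit 14) (nat_lit 0) (.cons (.kr (nat_lit 1329228075013087831901391868091433216) (nat_lit 5212579578832415011971735517986816) (nat_lit 1) (nat_lit 0)) (.cons (.rf (nat_lit 71) (nat_lit 608074200109631572010)) .nil))) (.cons (.br (nat_lit 14) (nat_lit 0) (.cons (.rf (nat_lit 485) (nat_lit 586032786523428298589380)) (.cons (.br (nat_lit 16) (nat_lit 0) (.cons (.ev (nat_lit 1361202444748585791426484124323498559503) (nat_lit 4)) (.cons (.rf (nat_lit 11) (nat_lit 629954687090924737)) .nil))) (.cons (.br (nat_lit 15) (nat_lit 0) (.cons (.br (nat_lit 15) (nat_lit 0) (.cons (.ev (nat_lit 1344865972203496976121463052502564864) (nat_lit 2)) .nil)) (.cons (.br (nat_lit 15) (nat_lit 0) (.cons (.ev (nat_lit 1344865972203496976121463052502564864) (nat_lit 2)) .nil)) .nil))) .nil)))) .nil)))) .nil))),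
 (.br (nat_lit 15) (nat_lit 0) (.cons (.kr (nat_lit 2658455991569836486620841068227198977) (nat_lit 158456325028672791474675515392) (nat_lit 0) (nat_lit 1)) (.cons (.rf (nat_lit 58) (nat_lit 631045369641502759)) .nil))),
 (.br (nat_lit 16) (nat_lit 0) (.cons (.ev (nat_lit 341611594995952750794881449861803147265) (nat_lit 1)) .nil)),
 (.br (nat_lit 15) (nat_lit 0) (.cons (.br (nat_lit 14) (nat_lit 0) (.cons (.ev (nat_lit 2668881309181408493390681528414109697) (nat_lit 2)) (.cons (.rf (nat_lit 15) (nat_lit 631047532926314689)) .nil))) (.cons (.kr (nat_lit 2658455991569831764254359298093613057) (nat_lit 158456329750895721006686536192) (nat_lit 0) (nat_lit 2)) (.cons (.br (nat_lit 14) (nat_lit 0) (.cons (.rf (nat_lit 2104) (nat_lit 677582165103132179601393696)) (.cons (.br (nat_lit 14) (nat_lit 0) (.cons (.rf (nat_lit 2104) (nat_lit 677582165103132179601393696)) .nil)) .nil))) .nil)))),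
 (.br (nat_lit 14) (nat_lit 0) (.cons (.rf (nat_lit 67) (nat_lit 19462987393747178850346)) (.cons (.br (nat_lit 15) (nat_lit 0) (.cons (.kr (nat_lit 2658455991569836486620841068227198977) (nat_lit 158456325028672791474675515392) (nat_lit 0) (nat_lit 1)) (.cons (.ev (nat_lit 174227230319512065547622953129796431904771) (nat_lit 2)) .nil))) .nil))),
 (.br (nat_lit 12) (nat_lit 0) (.cons (.rf (nat_lit 2101) (nat_lit 17022140995484340291616)) (.cons (.rf (nat_lit 2102) (nat_lit 17022140995484340291616)) (.cons (.br (nat_lit 12) (nat_lit 0) (.cons (.rf (nat_lit 2101) (nat_lit 17022140995484340291616)) (.cons (.rf (nat_lit 2102) (nat_lit 17022140995484340291616)) (.cons (.br (nat_lit 13) (nat_lit 0) (.cons (.br (nat_lit 14) (nat_lit 0) (.cons (.rf (nat_lit 2103) (nat_lit 19926519232773908561233952)) (.cons (.rf (nat_lit 2103) (nat_lit 18755372345022236548237344)) (.cons (.br (nat_lit 15) (nat_lit 0) (.cons (.br (nat_lit 15) (nat_lit 0) (.cons (.ev (nat_lit 2668881309181408493390681528414109697) (nat_lit 2)) .nil)) (.cons (.br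 (nat_lit 15) (nat_lit 0) (.cons (.ev (nat_lit 2668881309181408493390681528414109697) (nat_lit 2)) .nil)) .nil))) .nil)))) (.cons (.rf (nat_lit 2105) (nat_lit 19926519232773908561233952)) (.cons (.rf (nat_lit 2105) (nat_lit 18755372345022236548237344)) (.cons (.br (nat_lit 14) (nat_lit 0) (.cons (.rf (nat_lit 2106) (nat_lit 677582165103132179601393696)) (.cons (.rf (nat_lit 2106) (nat_lit 676411018215380507588397088)) (.cons (.br (nat_lit 14) (nat_lit 0) (.cons (.rf (nat_lit 2106) (nat_lit 677582165103132179601393696)) (.cons (.rf (nat_lit 2106) (nat_lit 676411018215380507588397088)) .nil))) .nil)))) .nil))))) .nil)))) .nil))))]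

theorem c81 : chkAll C T R L81 (nat_lit 2085) = true := by decide +kernel

theorem l81 : (nat_lit 2085) + L81.length = (nat_lit 2108) := by decide +kernel

/-- part of the certificates -/
def L82 : List Prf := [(.br (nat_lit 14) (nat_lit 0) (.cons (.ev (nat_lit 2668881309181408493390681528414109697) (nat_lit 2)) (.cons (.br (nat_lit 16) (nat_lit 0) (.cons (.ev (nat_lit 683223189833449181265153964427653939203) (nat_lit 2)) (.cons (.ev (nat_lit 340287579500516086970941933596583198720) (nat_lit 1)) .nil))) .nil))),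
 (.br (nat_lit 14) (nat_lit 0) (.cons (.kr (nat_lit 680564733841876931667562441811202932737) (nat_lit 158456325028672791474675515392) (nat_lit 0) (nat_lit 1)) (.cons (.br (nat_lit 16) (nat_lit 0) (.cons (.ev (nat_lit 683223189833449181265153964427653939203) (nat_lit 2)) (.cons (.ev (nat_lit 340287579500516086952566965637623054593) (nat_lit 1)) .nil))) .nil))),
 (.br (nat_lit 14) (nat_lit 0) (.cons (.br (nat_lit 15) (nat_lit 0) (.cons (.ev (nat_lit 683223189833449181301902774445667385857) (nat_lit 2)) (.cons (.rf (nat_lit 613) (nat_lit 677507752884040660143933664)) .nil))) (.cons (.br (nat_lit 15) (nat_lit 0) (.cons (.br (nat_lit 16) (nat_lit 0) (.cons (.ev (nat_lit 1361139893159829009295640672328441005569) (nat_lit 3)) .nil)) (.cons (.ev (nat_lit 5348187460607827056115883688750876165) (nat_lit 3)) .nil))) .nil))),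
 (.br (nat_lit 14) (nat_lit 0) (.cons (.rf (nat_lit 2110) (nat_lit 677582165103132179601393696)) (.cons (.br (nat_lit 16) (nat_lit 0) (.cons (.ev (nat_lit 340287579500516091674861671288695488513) (nat_lit 1)) (.cons (.ev (nat_lit 174905136597362372642803894730539407638531) (nat_lit 2)) .nil))) .nil))),
 (.br (nat_lit 12) (nat_lit 0) (.cons (.ev (nat_lit 79229376162522775260890136576) (nat_lit 1)) (.cons (.br (nat_lit 15) (nat_lit 0) (.cons (.kr (nat_lit 158456329750895159156244742145) (nat_lit 2658455991569831764254358198581985280) (nat_lit 0) (nat_lit 1)) (.cons (.kr (nat_lit 158456325028672793673698770945) (nat_lit 2658455991569836486621404018180620800) (nat_lit 0) (nat_lit 10)) (.cons (.br (nat_lit 13) (nat_lit 0) (.cons (.rf (nat_lit 1698) (nat_lit 622703721484099262785572)) (.cons (.br (nat_lit 14) (nat_lit 0) (.cons (.ev (nat_lit 683223189833449181265153964427653939203) (nat_lit 2)) (.cons (.br (nat_lit 14) (nat_lit 0) (.cons (.ev (nat_lit 683223189833449181265153964427653939203) (nat_lit 2)) .nil)) .nil))) (.cons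 (.rf (nat_lit 81) (nat_lit 20676979961100983437354)) .nil)))) .nil)))) (.cons (.br (nat_lit 13) (nat_lit 0) (.cons (.br (nat_lit 14) (nat_lit 0) (.cons (.br (nat_lit 15) (nat_lit 0) (.cons (.ev (nat_lit 16002862062110298089347724434112774147) (nat_lit 4)) (.cons (.rf (nat_lit 20) (nat_lit 631047532930377921)) .nil))) (.cons (.br (nat_lit 15) (nat_lit 0) (.cons (.ev (nat_lit 340287579500516086952566965637623054593) (nat_lit 1)) (.cons (.br (nat_lit 15) (nat_lit 0) (.cons (.ev (nat_lit 340287579500516091693380191485777936640) (nat_lit 1)) .nil)) .nil))) (.cons (.br (nat_lit 15) (nat_lit 0) (.cons (.br (nat_lit 15) (nat_lit 0) (.cons (.ev (nat_lit 2668881309181408493390681528414109697) (nat_lit 2)) .nil)) (.cons (.br (nat_lit 15) (nat_lit 0) (.cons (.ev (nat_lit 2668881309181408493390681528414109697) (nat_lit 2)) .nil)) .nil))) .nil)))) (.cons (.br (nat_lit 14) (nat_lit 0) (.cons (.br (nat_lit 14) (nat_lit 0) (.cons (.ev (nat_lit 2668881309181408493390681528414109697) (nat_lit 2)) (.cons (.rf (nat_lit 20) (nat_lit 631013448065853633))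 .nil))) (.cons (.rf (nat_lit 2108) (nat_lit 19926519232773908561233952)) (.cons (.br (nat_lit 14) (nat_lit 0) (.cons (.rf (nat_lit 20) (nat_lit 631013448065853633)) (.cons (.rf (nat_lit 2108) (nat_lit 19926519232773908561233952)) .nil))) .nil)))) (.cons (.br (nat_lit 14) (nat_lit 0) (.cons (.rf (nat_lit 2109) (nat_lit 19926519232773908561233952)) (.cons (.kr (nat_lit 680564733841876931667562441811202932737) (nat_lit 158456325028672791474675515392) (nat_lit 0) (nat_lit 1)) (.cons (.br (nat_lit 14) (nat_lit 0) (.cons (.rf (nat_lit 2109) (nat_lit 19926519232773908561233952)) (.cons (.kr (nat_lit 680564733841876931667562441811202932737) (nat_lit 158456325028672791474675515392) (nat_lit 0) (nat_lit 1)) .nil))) .nil)))) (.cons (.br (nat_lit 14) (nat_lit 0) (.cons (.rf (nat_lit 2110) (nat_lit 677582165103132179601393696)) (.cons (.rf (nat_lit 2111) (nat_lit 677582165103132179601393696)) (.cons (.br (nat_lit 14) (nat_lit 0) (.cons (.rf (nat_lit 2110) (nat_lit 677582165103132179601393696)) (.cons (.rf (nat_lit 2111) (nat_lit 677582165103132179601393696))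 .nil))) .nil)))) .nil))))) .nil)))),
 (.br (nat_lit 13) (nat_lit 0) (.cons (.br (nat_lit 14) (nat_lit 0) (.cons (.ev (nat_lit 2668881309181408493390681528414109697) (nat_lit 2)) (.cons (.rf (nat_lit 20) (nat_lit 596040250932174017)) .nil))) (.cons (.br (nat_lit 14) (nat_lit 0) (.cons (.ev (nat_lit 341611594995952750794881169486338064640) (nat_lit 1)) (.cons (.br (nat_lit 14) (nat_lit 0) (.cons (.ev (nat_lit 341611594995952755498800907178450354433) (nat_lit 1)) .nil)) .nil))) (.cons (.br (nat_lit 14) (nat_lit 0) (.cons (.br (nat_lit 14) (nat_lit 0) (.cons (.ev (nat_lit 2668881309181408530427721922579005955) (nat_lit 2)) .nil)) (.cons (.br (nat_lit 14) (nat_lit 0) (.cons (.ev (nat_lit 2668881309181408530427721922579005955) (nat_lit 2)) .nil)) .nil))) .nil)))),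
 (.br (nat_lit 16) (nat_lit 0) (.cons (.ev (nat_lit 680575159159488503711369883416484904961) (nat_lit 2)) (.cons (.ev (nat_lit 341611594995952755517175875137410498560) (nat_lit 1)) .nil))),
 (.br (nat_lit 13) (nat_lit 0) (.cons (.rf (nat_lit 2114) (nat_lit 677582165103132179601393696)) (.cons (.br (nat_lit 14) (nat_lit 0) (.cons (.rf (nat_lit 2114) (nat_lit 677581021404854440926741568)) (.cons (.ev (nat_lit 174227230319512065547586203754629441781763) (nat_lit 2)) .nil))) .nil))),
 (.br (nat_lit 13) (nat_lit 0) (.cons (.rf (nat_lit 2115) (nat_lit 677582165103132179601393696)) (.cons (.br (nat_lit 17) (nat_lit 0) (.cons (.ev (nat_lit 174227230319512065547586203754629441781763) (nat_lit 2)) (.cons (.ev (nat_lit 341611594995952755517175875137410498560) (nat_lit 1)) .nil))) .nil))),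
 (.br (nat_lit 12) (nat_lit 0) (.cons (.rf (nat_lit 2112) (nat_lit 583706118939841765935136)) (.cons (.rf (nat_lit 2112) (nat_lit 582562420662103091283008)) (.cons (.br (nat_lit 15) (nat_lit 0) (.cons (.rf (nat_lit 2113) (nat_lit 19926519232773908561233952)) (.cons (.rf (nat_lit 2113) (nat_lit 19925375534496169886581824)) (.cons (.kr (nat_lit 158456329750895159156244742145) (nat_lit 2658455991569831764254358198581985280) (nat_lit 0) (nat_lit 1)) (.cons (.br (nat_lit 13) (nat_lit 0) (.cons (.rf (nat_lit 2115) (nat_lit 677582165103132179601393696)) (.cons (.rf (nat_lit 2116) (nat_lit 677582165103132179601393696)) (.cons (.br (nat_lit 13) (nat_lit 0) (.cons (.rf (nat_lit 2115) (nat_lit 677582165103132179601393696)) (.cons (.rf (nat_lit 2116) (nat_lit 677582165103132179601393696)) .nil))) .nil)))) .nil))))) .nil)))),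
 (.br (nat_lit 16) (nat_lit 0) (.cons (.ev (nat_lit 683223189833449181265153964427653939203) (nat_lit 2)) (.cons (.kr (nat_lit 680564733841876931667562441811202932737) (nat_lit 158456325028672791474675515392) (nat_lit 0) (nat_lit 1)) .nil))),
 (.br (nat_lit 14) (nat_lit 0) (.cons (.ev (nat_lit 1334440575362539362096445641600270336) (nat_lit 1)) (.cons (.rf (nat_lit 2118) (nat_lit 677582165103132179601393696)) (.cons (.rf (nat_lit 2118) (nat_lit 640105464695078675185502240)) .nil)))),
 (.br (nat_lit 14) (nat_lit 0) (.cons (.rf (nat_lit 2119) (nat_lit 677581021404854440926741568)) (.cons (.rf (nat_lit 87) (nat_lit 631045402794461222)) (.cons (.br (nat_lit 16) (nat_lit 0) (.cons (.br (nat_lit 15) (nat_lit 0) (.cons (.ev (nat_lit 1334440575362544084390590541742539008) (nat_lit 1)) .nil)) (.cons (.kr (nat_lit 87112285931760246651346266266877284057344) (nat_lit 340282366920938463463446666125317832704) (nat_lit 1) (nat_lit 0)) .nil))) .nil)))),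
 (.br (nat_lit 13) (nat_lit 0) (.cons (.rf (nat_lit 2119) (nat_lit 677582165103132179601393696)) (.cons (.rf (nat_lit 2120) (nat_lit 677582165103132179601393696)) (.cons (.rf (nat_lit 2120) (nat_lit 640105464695078675185502240)) .nil)))),
 (.br (nat_lit 16) (nat_lit 0) (.cons (.br (nat_lit 14) (nat_lit 0) (.cons (.ev (nat_lit 1334440575362539380470850650606993665) (nat_lit 1)) (.cons (.ev (nat_lit 680575159159488503674331717122413167107) (nat_lit 2)) .nil))) (.cons (.ev (nat_lit 683223189833449181301902774445667385857) (nat_lit 2)) (.cons (.kr (nat_lit 680564733841876926945195960041069346817) (nat_lit 158456329750895721006686536192) (nat_lit 0) (nat_lit 2)) .nil)))),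
 (.br (nat_lit 13) (nat_lit 0) (.cons (.rf (nat_lit 2121) (nat_lit 677582165103132179601393696)) (.cons (.rf (nat_lit 2122) (nat_lit 677582165103132179601393696)) (.cons (.rf (nat_lit 2122) (nat_lit 640105464695078675185502240)) .nil)))),
 (.br (nat_lit 14) (nat_lit 0) (.cons (.ev (nat_lit 680575159159488503674331717122413167107) (nat_lit 2)) (.cons (.ev (nat_lit 87452568298760414481527358062187149066496) (nat_lit 1)) .nil))),
 (.br (nat_lit 13) (nat_lit 0) (.cons (.rf (nat_lit 2121) (nat_lit 677582165103132179601393696)) (.cons (.rf (nat_lit 2123) (nat_lit 677582165103132179601393696)) (.cons (.br (nat_lit 14) (nat_lit 0) (.cons (.rf (nat_lit 2123) (nat_lit 677581021404854440926741568)) (.cons (.rf (nat_lit 2124) (nat_lit 677582165103132179601393696)) (.cons (.rf (nat_lit 2124) (nat_lit 640105464695078675185502240)) .nil)))) .nil)))),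
 (.br (nat_lit 10) (nat_lit 0) (.cons (.kr (nat_lit 18446745177532923905) (nat_lit 4722367045819598635520) (nat_lit 0) (nat_lit 2)) (.cons (.kr (nat_lit 4740813226947666509825) (nat_lit 144116287587614720) (nat_lit 0) (nat_lit 1)) (.cons (.ev (nat_lit 2422629345945461570273793) (nat_lit 2)) (.cons (.br (nat_lit 6) (nat_lit 0) (.cons (.br (nat_lit 11) (nat_lit 0) (.cons (.ev (nat_lit 1859332688708050288006791681) (nat_lit 3)) (.cons (.br (nat_lit 12) (nat_lit 0) (.cons (.rf (nat_lit 2091) (nat_lit 493858305440582043680)) (.cons (.br (nat_lit 12) (nat_lit 0) (.cons (.rf (nat_lit 2091) (nat_lit 493858305440582043680)) (.cons (.br (nat_lit 13) (nat_lit 0) (.cons (.rf (nat_lit 2093) (nat_lit 583706118939841765935136)) (.cons (.rf (nat_lit 2093) (nat_lit 547107778697602015528992)) (.cons (.br (nat_lit 13) (nat_lit 0) (.cons (.rf (nat_lit 2093) (nat_lit 583706118939841765935136)) (.cons (.rf (nat_lit 2093) (nat_lit 547107778697602015528992)) (.cons (.rf (nat_lit 42) (nat_lit 18245573250625733401803)) .nil)))) .nil)))) .nil)))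 .nil))) .nil))) (.cons (.kr (nat_lit 1099511627777) (nat_lit 281474976710912) (nat_lit 0) (nat_lit 2)) (.cons (.ev (nat_lit 2422629346510610546950147) (nat_lit 2)) (.cons (.br (nat_lit 7) (nat_lit 0) (.cons (.kr (nat_lit 4722366482869645213697) (nat_lit 72057594037993472) (nat_lit 0) (nat_lit 1)) (.cons (.ev (nat_lit 2422592596574692626661889) (nat_lit 2)) (.cons (.kr (nat_lit 4722366764344621924608) (nat_lit 72058693549621248) (nat_lit 1) (nat_lit 0)) (.cons (.br (nat_lit 11) (nat_lit 0) (.cons (.br (nat_lit 12) (nat_lit 0) (.cons (.ev (nat_lit 79229371440084234797207060481) (nat_lit 1)) (.cons (.ev (nat_lit 79229376162522492686401798401) (nat_lit 1)) (.cons (.br (nat_lit 13) (nat_lit 0) (.cons (.rf (nat_lit 2096) (nat_lit 583706118939841765935136)) (.cons (.rf (nat_lit 2098) (nat_lit 583706118939841765935136)) (.cons (.br (nat_lit 13) (nat_lit 0) (.cons (.rf (nat_lit 2096) (nat_lit 583706118939841765935136)) (.cons (.rf (nat_lit 2098) (nat_lit 583706118939841765935136)) (.cons (.br (nat_lit 14) (nat_lit 0) (.cons (.rf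 (nat_lit 2098) (nat_lit 582562420662103091283008)) (.cons (.rf (nat_lit 2099) (nat_lit 677582165103132179601393696)) (.cons (.rf (nat_lit 2099) (nat_lit 640105464695078675185502240)) .nil)))) .nil)))) .nil)))) .nil)))) (.cons (.rf (nat_lit 2107) (nat_lit 17022140995484340291616)) (.cons (.rf (nat_lit 2107) (nat_lit 15878442717745665639488)) (.cons (.br (nat_lit 12) (nat_lit 0) (.cons (.rf (nat_lit 2112) (nat_lit 583706118939841765935136)) (.cons (.rf (nat_lit 2112) (nat_lit 582562420662103091283008)) (.cons (.rf (nat_lit 2117) (nat_lit 583706118939841765935136)) (.cons (.br (nat_lit 12) (nat_lit 0) (.cons (.rf (nat_lit 2112) (nat_lit 583706118939841765935136)) (.cons (.rf (nat_lit 2112) (nat_lit 582562420662103091283008)) (.cons (.rf (nat_lit 2117) (nat_lit 583706118939841765935136)) (.cons (.br (nat_lit 13) (nat_lit 0) (.cons (.rf (nat_lit 2121) (nat_lit 677582165103132179601393696)) (.cons (.rf (nat_lit 2123) (nat_lit 677582165103132179601393696)) (.cons (.rf (nat_lit 2125) (nat_lit 677582165103132179601393696)) (.cons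 (.rf (nat_lit 2125) (nat_lit 640105464695078675185502240)) .nil))))) .nil))))) .nil))))) .nil))))) .nil))))) .nil))))) .nil))))),
 (.br (nat_lit 14) (nat_lit 0) (.cons (.br (nat_lit 15) (nat_lit 0) (.cons (.ev (nat_lit 2689609774580373400286847386609910277) (nat_lit 3)) (.cons (.rf (nat_lit 1) (nat_lit 631047566350592065)) .nil))) .nil)),
 (.br (nat_lit 15) (nat_lit 0) (.cons (.ev (nat_lit 1344865813747172003005359168459702529) (nat_lit 2)) .nil)),
 (.br (nat_lit 12) (nat_lit 0) (.cons (.br (nat_lit 13) (nat_lit 0) (.cons (.kr (nat_lit 158456329750895159156244742145) (nat_lit 40564819207321787591972523868160) (nat_lit 0) (nat_lit 1)) (.cons (.br (nat_lit 14) (nat_lit 0) (.cons (.rf (nat_lit 2127) (nat_lit 583706118939841765935136)) (.cons (.br (nat_lit 14) (nat_lit 0) (.cons (.rf (nat_lit 2127) (nat_lit 583706118939841765935136)) (.cons (.br (nat_lit 15) (nat_lit 0) (.cons (.rf (nat_lit 2128) (nat_lit 677582165103132179601393696)) (.cons (.rf (nat_lit 2128) (nat_lit 640105464695078675185502240)) .nil))) .nil))) .nil)))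 .nil))) .nil)),
 (.br (nat_lit 15) (nat_lit 0) (.cons (.ev (nat_lit 10384752792369481279820658412355587) (nat_lit 2)) (.cons (.br (nat_lit 16) (nat_lit 0) (.cons (.ev (nat_lit 10425158538699587943854348697731587) (nat_lit 2)) (.cons (.ev (nat_lit 688540101818445754852880107513292390917) (nat_lit 3)) .nil))) .nil)))]

theorem c82 : chkAll C T R L82 (nat_lit 2108) = true := by decide +kernel

theorem l82 : (nat_lit 2108) + L82.length = (nat_lit 2131) := by decide +kernel

/-- part of the certificates -/
def L83 : List Prf := [(.br (nat_lit 13) (nat_lit 0) (.cons (.ev (nat_lit 20521023755186857591926285205762) (nat_lit 2)) (.cons (.br (nat_lit 15) (nat_lit 0) (.cons (.ev (nat_lit 10384752792369481279820658412355587) (nat_lit 2)) (.cons (.rf (nat_lit 2130) (nat_lit 19926519232773908561233952)) (.cons (.br (nat_lit 15) (nat_lit 0) (.cons (.ev (nat_lit 10384752792369481279820658412355587) (nat_lit 2)) (.cons (.rf (nat_lit 2130) (nat_lit 19926519232773908561233952)) .nil))) .nil)))) .nil))),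
 (.br (nat_lit 14) (nat_lit 0) (.cons (.kr (nat_lit 20282409603651670423947251286016) (nat_lit 5192296858534827628530496329220096) (nat_lit 13) (nat_lit 0)) (.cons (.ev (nat_lit 5212658497509937901990912846725120) (nat_lit 1)) .nil))),
 (.br (nat_lit 13) (nat_lit 0) (.cons (.rf (nat_lit 2132) (nat_lit 19926519232773908561233952)) (.cons (.rf (nat_lit 2132) (nat_lit 18755372345022236548237344)) .nil))),
 (.br (nat_lit 13) (nat_lit 0) (.cons (.rf (nat_lit 2133) (nat_lit 19926519232773908561233952)) (.cons (.br (nat_lit 15) (nat_lit 0) (.cons (.br (nat_lit 16) (nat_lit 0) (.cons (.ev (nat_lit 341611594995952750794881450961314775040) (nat_lit 1)) .nil)) (.cons (.kr (nat_lit 1329227995784915872903807060280344576) (nat_lit 340282366920938463463374607431768211456) (nat_lit 15) (nat_lit 0)) .nil))) .nil))),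
 (.br (nat_lit 10) (nat_lit 0) (.cons (.ev (nat_lit 2422629345945461536719363) (nat_lit 2)) (.cons (.br (nat_lit 11) (nat_lit 0) (.cons (.ev (nat_lit 1859332688708050288073900549) (nat_lit 3)) (.cons (.br (nat_lit 12) (nat_lit 0) (.cons (.rf (nat_lit 2129) (nat_lit 493858305440582043680)) (.cons (.br (nat_lit 12) (nat_lit 0) (.cons (.rf (nat_lit 2129) (nat_lit 493858305440582043680)) (.cons (.br (nat_lit 13) (nat_lit 0) (.cons (.rf (nat_lit 2131) (nat_lit 583706118939841765935136)) (.cons (.rf (nat_lit 2131) (nat_lit 547107778697602015528992)) (.cons (.br (nat_lit 13) (nat_lit 0) (.cons (.rf (nat_lit 2131) (nat_lit 583706118939841765935136)) (.cons (.rf (nat_lit 2131) (nat_lit 547107778697602015528992)) (.cons (.br (nat_lit 14) (nat_lit 0) (.cons (.rf (nat_lit 2133) (nat_lit 21174442659472880612543553)) (.cons (.rf (nat_lit 2134) (nat_lit 21174442659472880612543553)) (.cons (.rf (nat_lit 2134) (nat_lit 20003295771721208599546945)) .nil)))) .nil)))) .nil)))) .nil))) .nil))) .nil))) .nil))),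
 (.br (nat_lit 14) (nat_lit 0) (.cons (.br (nat_lit 15) (nat_lit 0) (.cons (.kr (nat_lit 10384594338462248905463258119405569) (nat_lit 2658455991569831764398474486152822784) (nat_lit 0) (nat_lit 1)) (.cons (.rf (nat_lit 1) (nat_lit 631047566349671489)) .nil))) .nil)),
 (.br (nat_lit 15) (nat_lit 0) (.cons (.ev (nat_lit 1344865813130619834857780902294126849) (nat_lit 2)) .nil)),
 (.br (nat_lit 12) (nat_lit 0) (.cons (.br (nat_lit 13) (nat_lit 0) (.cons (.ev (nat_lit 41041426127205919539480876025349) (nat_lit 3)) (.cons (.br (nat_lit 14) (nat_lit 0) (.cons (.rf (nat_lit 2136) (nat_lit 583706118939841765935136)) (.cons (.br (nat_lit 14) (nat_lit 0) (.cons (.rf (nat_lit 2136) (nat_lit 583706118939841765935136)) (.cons (.br (nat_lit 15) (nat_lit 0) (.cons (.rf (nat_lit 2137) (nat_lit 677582165103132179601393696)) (.cons (.rf (nat_lit 2137) (nat_lit 640105464695078675185502240)) .nil))) .nil))) .nil))) .nil))) .nil)),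
 (.br (nat_lit 15) (nat_lit 0) (.cons (.br (nat_lit 16) (nat_lit 0) (.cons (.zr (nat_lit 5327337300132265497765581195143807488) (nat_lit 522673715590562722679097793268335880699909) (nat_lit 16) (nat_lit 12)) .nil)) .nil)),
 (.br (nat_lit 13) (nat_lit 0) (.cons (.ev (nat_lit 20520407203018709452909155910402) (nat_lit 2)) (.cons (.br (nat_lit 14) (nat_lit 0) (.cons (.ev (nat_lit 10384752175817313131681641283060227) (nat_lit 2)) (.cons (.ev (nat_lit 10425159155251756091993365827026947) (nat_lit 2)) (.cons (.br (nat_lit 15) (nat_lit 0) (.cons (.rf (nat_lit 2139) (nat_lit 677582165103132179601393696)) (.cons (.br (nat_lit 15) (nat_lit 0) (.cons (.rf (nat_lit 2139) (nat_lit 677582165103132179601393696)) .nil)) .nil))) .nil)))) .nil))),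
 (.br (nat_lit 14) (nat_lit 0) (.cons (.rf (nat_lit 1073) (nat_lit 21174442658240115409693891)) (.cons (.br (nat_lit 16) (nat_lit 0) (.cons (.br (nat_lit 15) (nat_lit 0) (.cons (.ev (nat_lit 1334420372181102965503304760582734080) (nat_lit 1)) .nil)) (.cons (.kr (nat_lit 340282366920938463463374607431768211456) (nat_lit 87112285931760246646623899502532662132736) (nat_lit 16) (nat_lit 0)) .nil))) .nil))),
 (.br (nat_lit 7) (nat_lit 0) (.cons (.ev (nat_lit 2422629345945461536719363) (nat_lit 2)) (.cons (.br (nat_lit 10) (nat_lit 0) (.cons (.kr (nat_lit 621392593648402265460965377) (nat_lit 18590860365592133632) (nat_lit 0) (nat_lit 1)) (.cons (.br (nat_lit 12) (nat_lit 0) (.cons (.rf (nat_lit 2138) (nat_lit 493858305440582043680)) (.cons (.br (nat_lit 12) (nat_lit 0) (.cons (.rf (nat_lit 2138) (nat_lit 493858305440582043680)) (.cons (.br (nat_lit 13) (nat_lit 0) (.cons (.rf (nat_lit 2140) (nat_lit 583706118939841765935136)) (.cons (.rf (nat_lit 2140) (nat_lit 547107778697602015528992)) (.cons (.br (nat_lit 13) (nat_lit 0)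 (.cons (.rf (nat_lit 2140) (nat_lit 583706118939841765935136)) (.cons (.rf (nat_lit 2140) (nat_lit 547107778697602015528992)) (.cons (.br (nat_lit 14) (nat_lit 0) (.cons (.rf (nat_lit 1073) (nat_lit 21174442658240115409693891)) (.cons (.rf (nat_lit 2141) (nat_lit 677582165103132179601393696)) (.cons (.rf (nat_lit 2141) (nat_lit 640105464695078675185502240)) .nil)))) .nil)))) .nil)))) .nil))) .nil))) .nil))) .nil))),
 (.br (nat_lit 14) (nat_lit 0) (.cons (.kr (nat_lit 40564819212025707331863659413505) (nat_lit 10384593717069673703805070679736320) (nat_lit 0) (nat_lit 1)) (.cons (.br (nat_lit 15) (nat_lit 0) (.cons (.ev (nat_lit 1334440575054268018835884555678842880) (nat_lit 1)) (.cons (.rf (nat_lit 11) (nat_lit 631047566350592065)) .nil))) .nil))),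
 (.br (nat_lit 16) (nat_lit 0) (.cons (.ev (nat_lit 680575159158871951543222307340685541377) (nat_lit 2)) .nil)),
 (.br (nat_lit 13) (nat_lit 0) (.cons (.rf (nat_lit 2143) (nat_lit 583706118939841765935136)) (.cons (.br (nat_lit 14) (nat_lit 0) (.cons (.rf (nat_lit 2143) (nat_lit 582562385870112601152707)) (.cons (.kr (nat_lit 40564819212025707331863659413505) (nat_lit 10384593717069673703805070679736320) (nat_lit 0) (nat_lit 1)) (.cons (.br (nat_lit 15) (nat_lit 0) (.cons (.rf (nat_lit 2144) (nat_lit 677582165103132179601393696)) (.cons (.rf (nat_lit 2144) (nat_lit 640104320962008946020719811)) .nil))) .nil)))) .nil))),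
 (.br (nat_lit 14) (nat_lit 0) (.cons (.ev (nat_lit 10506290034024253987661569799094787) (nat_lit 3)) (.cons (.br (nat_lit 15) (nat_lit 0) (.cons (.ev (nat_lit 683223189834065733470050350504219771393) (nat_lit 2)) (.cons (.ev (nat_lit 1334440575362539362096164170935304448) (nat_lit 1)) .nil))) .nil))),
 (.br (nat_lit 13) (nat_lit 0) (.cons (.rf (nat_lit 2145) (nat_lit 583706118939841765935136)) (.cons (.br (nat_lit 14) (nat_lit 0) (.cons (.br (nat_lit 14) (nat_lit 0) (.cons (.ev (nat_lit 10506290034024253987661569799094787) (nat_lit 3)) (.cons (.rf (nat_lit 15) (nat_lit 631047566350592065)) .nil))) (.cons (.rf (nat_lit 2146) (nat_lit 19926519232773908561233952)) (.cons (.br (nat_lit 14) (nat_lit 0) (.cons (.rf (nat_lit 15) (nat_lit 631047566350592065)) (.cons (.rf (nat_lit 2146) (nat_lit 19926519232773908561233952)) .nil))) .nil)))) .nil))),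
 (.br (nat_lit 14) (nat_lit 0) (.cons (.rf (nat_lit 2147) (nat_lit 582562385870112601152707)) (.cons (.ev (nat_lit 10506290034024253987661569799094787) (nat_lit 3)) .nil))),
 (.br (nat_lit 11) (nat_lit 0) (.cons (.ev (nat_lit 618974797493521520122659329) (nat_lit 2)) (.cons (.ev (nat_lit 313126009792208863917966082) (nat_lit 2)) (.cons (.br (nat_lit 12) (nat_lit 0) (.cons (.ev (nat_lit 79229371440084233702007177216) (nat_lit 1)) (.cons (.ev (nat_lit 79537652264970967203973169408) (nat_lit 1)) (.cons (.br (nat_lit 13) (nat_lit 0) (.cons (.rf (nat_lit 2145) (nat_lit 583706118939841765935136)) (.cons (.rf (nat_lit 2147) (nat_lit 583706118939841765935136)) (.cons (.br (nat_lit 13) (nat_lit 0) (.cons (.rf (nat_lit 2145) (nat_lit 583706118939841765935136)) (.cons (.rf (nat_lit 2147) (nat_lit 583706118939841765935136)) (.cons (.br (nat_lit 14) (nat_lit 0) (.cons (.rf (nat_lit 2147) (nat_lit 582562385870112601152707)) (.cons (.rf (nat_lit 2148) (nat_lit 677582165103132179601393696)) (.cons (.rf (nat_lit 2148) (nat_lit 640105464695078675185502240))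 .nil)))) .nil)))) .nil)))) .nil)))) .nil)))),
 (.br (nat_lit 14) (nat_lit 0) (.cons (.ev (nat_lit 10385069090885222117058989403407879) (nat_lit 3)) (.cons (.br (nat_lit 15) (nat_lit 0) (.cons (.ev (nat_lit 1334420371872822140616290883134882048) (nat_lit 1)) (.cons (.rf (nat_lit 11) (nat_lit 631047533064685793)) .nil))) .nil))),
 (.br (nat_lit 16) (nat_lit 0) (.cons (.ev (nat_lit 680575159158871951543222307340685541377) (nat_lit 2)) .nil)),
 (.br (nat_lit 12) (nat_lit 0) (.cons (.rf (nat_lit 2150) (nat_lit 583706118939841765935136)) (.cons (.br (nat_lit 14) (nat_lit 0) (.cons (.rf (nat_lit 2150) (nat_lit 581346913870555947084997)) (.cons (.ev (nat_lit 10385069090885222117058989403407879) (nat_lit 3)) (.cons (.br (nat_lit 15) (nat_lit 0) (.cons (.rf (nat_lit 2151) (nat_lit 677582165103132179601393696)) (.cons (.rf (nat_lit 2151) (nat_lit 640103105490009389366652101)) .nil))) .nil)))) .nil))),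
 (.br (nat_lit 14) (nat_lit 0) (.cons (.kr (nat_lit 159077717622177077452548866049) (nat_lit 10384593717069673847921358250573824) (nat_lit 0) (nat_lit 1)) (.cons (.br (nat_lit 15) (nat_lit 0) (.cons (.ev (nat_lit 683223189834065733470050350504219771393) (nat_lit 2)) (.cons (.ev (nat_lit 1334420372181102965503587335054295040) (nat_lit 1)) .nil))) .nil))),
 (.br (nat_lit 12) (nat_lit 0) (.cons (.rf (nat_lit 2152) (nat_lit 583706118939841765935136)) (.cons (.br (nat_lit 14) (nat_lit 0) (.cons (.br (nat_lit 14) (nat_lit 0) (.cons (.kr (nat_lit 159077717622177077452548866049) (nat_lit 10384593717069673847921358250573824) (nat_lit 0) (nat_lit 1)) (.cons (.rf (nat_lit 15) (nat_lit 631047533064685793)) .nil))) (.cons (.rf (nat_lit 2153) (nat_lit 19926519232773908561233952)) (.cons (.br (nat_lit 14) (nat_lit 0) (.cons (.rf (nat_lit 15) (nat_lit 631047533064685793)) (.cons (.rf (nat_lit 2153) (nat_lit 19926519232773908561233952)) .nil))) .nil)))) .nil))),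
 (.br (nat_lit 14) (nat_lit 0) (.cons (.rf (nat_lit 2154) (nat_lit 581346913870555947084997)) (.cons (.kr (nat_lit 159077717622177077452548866049) (nat_lit 10384593717069673847921358250573824) (nat_lit 0) (nat_lit 1)) .nil))),
 (.br (nat_lit 11) (nat_lit 0) (.cons (.ev (nat_lit 313126009792208863917966082) (nat_lit 2)) (.cons (.ev (nat_lit 618974797493521520122659329) (nat_lit 2)) (.cons (.br (nat_lit 13) (nat_lit 0) (.cons (.ev (nat_lit 20282410817318303266623587418368) (nat_lit 1)) (.cons (.ev (nat_lit 20282719088661564109188797300736) (nat_lit 1)) (.cons (.br (nat_lit 12) (nat_lit 0) (.cons (.rf (nat_lit 2152) (nat_lit 583706118939841765935136)) (.cons (.rf (nat_lit 2154) (nat_lit 583706118939841765935136)) (.cons (.br (nat_lit 12) (nat_lit 0) (.cons (.rf (nat_lit 2152) (nat_lit 583706118939841765935136)) (.cons (.rf (nat_lit 2154) (nat_lit 583706118939841765935136)) (.cons (.br (nat_lit 14) (nat_lit 0) (.cons (.rf (nat_lit 2154) (nat_lit 581346913870555947084997)) (.cons (.rf (nat_lit 2155) (nat_lit 677582165103132179601393696))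 (.cons (.rf (nat_lit 2155) (nat_lit 640105464695078675185502240)) .nil)))) .nil)))) .nil)))) .nil)))) .nil)))),
 (.br (nat_lit 14) (nat_lit 0) (.cons (.ev (nat_lit 5192376396187074080978607043248128) (nat_lit 1)) .nil)),
 (.br (nat_lit 13) (nat_lit 0) (.cons (.rf (nat_lit 2157) (nat_lit 583706118939841765935136)) (.cons (.br (nat_lit 13) (nat_lit 0) (.cons (.rf (nat_lit 2157) (nat_lit 583706118939841765935136)) .nil)) .nil))),
 (.br (nat_lit 13) (nat_lit 0) (.cons (.kr (nat_lit 10384593717069673703806165879619585) (nat_lit 158456329750895158061044858880) (nat_lit 0) (nat_lit 1)) (.cons (.ev (nat_lit 40723894507129363607560256487427) (nat_lit 2)) (.cons (.br (nat_lit 14) (nat_lit 0) (.cons (.br (nat_lit 15) (nat_lit 0) (.cons (.ev (nat_lit 2658577687886786344538214697701343747) (nat_lit 3)) (.cons (.rf (nat_lit 20) (nat_lit 631047566350592065)) .nil))) (.cons (.br (nat_lit 15) (nat_lit 0) (.cons (.ev (nat_lit 340287559297334645815160879283915718913) (nat_lit 1)) (.cons (.br (nat_lit 15) (nat_lit 0) (.cons (.ev (nat_lit 340287559297334650555974105132070600960)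 (nat_lit 1)) .nil)) .nil))) (.cons (.rf (nat_lit 2158) (nat_lit 661701333108526410763329)) .nil)))) .nil)))),
 (.br (nat_lit 15) (nat_lit 0) (.cons (.ev (nat_lit 1334420371872822140688347377677893888) (nat_lit 1)) .nil)),
 (.br (nat_lit 13) (nat_lit 0) (.cons (.ev (nat_lit 40723894507129363607560256487427) (nat_lit 2)) (.cons (.kr (nat_lit 40564819212025707331863659413505) (nat_lit 2658455991569831764254358198581985280) (nat_lit 0) (nat_lit 1)) (.cons (.br (nat_lit 15) (nat_lit 0) (.cons (.br (nat_lit 14) (nat_lit 0) (.cons (.ev (nat_lit 15961730609288900221984128453818062875) (nat_lit 5)) (.cons (.rf (nat_lit 20) (nat_lit 631013481486067777)) .nil))) (.cons (.rf (nat_lit 149) (nat_lit 19420365289355020927018)) (.cons (.br (nat_lit 14) (nat_lit 0) (.cons (.rf (nat_lit 2160) (nat_lit 21174442659472845144426528)) (.cons (.br (nat_lit 14) (nat_lit 0) (.cons (.rf (nat_lit 2160) (nat_lit 21174442659472845144426528)) .nil)) .nil))) .nil)))) .nil))))]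

theorem c83 : chkAll C T R L83 (nat_lit 2131) = true := by decide +kernel

theorem l83 : (nat_lit 2131) + L83.length = (nat_lit 2162) := by decide +kernel

end Pool.Agent.H93.Neg.N18_6_0
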