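import Pool.Agent.H93.Neg.TabN18_6_0

/-!
Certificates.
-/

set_option autoImplicit false
set_option maxRecDepth 100000
set_option linter.all false

namespace Pool.Agent.H93.Neg.N18_6_0

/-- part of the certificates -/
def L84 : List Prf := [(.br (nat_lit 14) (nat_lit 0) (.cons (.ev (nat_lit 10385070945377429551136841996042757) (nat_lit 3)) (.cons (.br (nat_lit 15) (nat_lit 0) (.cons (.ev (nat_lit 2658577687886786344538214697701343747) (nat_lit 3)) (.cons (.kr (nat_lit 5212579268138479298955543092133889) (nat_lit 1329228075013078387168144658136039424) (nat_lit 0) (nat_lit 1)) .nil))) .nil))),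
 (.br (nat_lit 14) (nat_lit 0) (.cons (.ev (nat_lit 10385070945377429551136841996042757) (nat_lit 3)) (.cons (.br (nat_lit 15) (nat_lit 0) (.cons (.ev (nat_lit 1355250882529795289413383550679777798) (nat_lit 3)) (.cons (.ev (nat_lit 2658577687886786344538214697701343747) (nat_lit 3)) .nil))) .nil))),
 (.br (nat_lit 14) (nat_lit 0) (.cons (.ev (nat_lit 10385070945377429551136841996042757) (nat_lit 3)) (.cons (.br (nat_lit 16) (nat_lit 0) (.cons (.br (nat_lit 15) (nat_lit 0) (.cons (.ev (nat_lit 2668840585905876198558761782352019457) (nat_lit 2)) .nil)) (.cons (.ev (nat_lit 174905136597362372642803894730539407638531) (nat_lit 2)) .nil))) .nil))),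
 (.br (nat_lit 12) (nat_lit 0) (.cons (.rf (nat_lit 2159) (nat_lit 583706118939841765935136)) (.cons (.rf (nat_lit 2161) (nat_lit 583706118939841765935136)) (.cons (.br (nat_lit 13) (nat_lit 0) (.cons (.rf (nat_lit 2161) (nat_lit 547071885008709240399908)) (.cons (.rf (nat_lit 2159) (nat_lit 547071885008709240399908)) (.cons (.br (nat_lit 14) (nat_lit 0) (.cons (.rf (nat_lit 2162) (nat_lit 19926519232773908561233952)) (.cons (.br (nat_lit 14) (nat_lit 0) (.cons (.ev (nat_lit 10385070945377429551136841996042757) (nat_lit 3)) (.cons (.rf (nat_lit 87) (nat_lit 631047566484805666)) .nil))) (.cons (.br (nat_lit 14) (nat_lit 0) (.cons (.rf (nat_lit 2162) (nat_lit 19926519232773908561233952)) (.cons (.rf (nat_lit 87) (nat_lit 631047566484805666)) .nil))) .nil)))) (.cons (.br (nat_lit 14) (nat_lit 0) (.cons (.rf (nat_lit 2163) (nat_lit 677582165103132179601393696)) (.cons (.rf (nat_lit 2164) (nat_lit 677582165103132179601393696)) (.cons (.br (nat_lit 14) (nat_lit 0) (.cons (.rf (nat_lit 2163) (nat_lit 677582165103132179601393696)) (.cons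 (.rf (nat_lit 2164) (nat_lit 677582165103132179601393696)) .nil))) .nil)))) .nil))))) .nil)))),
 (.br (nat_lit 14) (nat_lit 0) (.cons (.br (nat_lit 13) (nat_lit 0) (.cons (.ev (nat_lit 40723277954961215470733594067457) (nat_lit 2)) (.cons (.br (nat_lit 15) (nat_lit 0) (.cons (.ev (nat_lit 7996178045734824597043215094150988295) (nat_lit 3)) (.cons (.rf (nat_lit 20) (nat_lit 596074369212722241)) .nil))) .nil))) (.cons (.kr (nat_lit 10384593717069673703806165879619585) (nat_lit 158456329750895158061044858880) (nat_lit 0) (nat_lit 1)) (.cons (.br (nat_lit 15) (nat_lit 0) (.cons (.br (nat_lit 13) (nat_lit 0) (.cons (.kr (nat_lit 10384594338457544985724462183743489) (nat_lit 40564819212025851447056030367744) (nat_lit 0) (nat_lit 1)) (.cons (.rf (nat_lit 20) (nat_lit 630978331476859969)) .nil))) (.cons (.ev (nat_lit 2668840585905876198558761782352019457) (nat_lit 2)) (.cons (.br (nat_lit 13) (nat_lit 0) (.cons (.br (nat_lit 13) (nat_lit 0) (.cons (.ev (nat_lit 2668881308564856362280706597709807617) (nat_lit 2)) .nil)) (.cons (.br (nat_lit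 13) (nat_lit 0) (.cons (.ev (nat_lit 2668881308564856362280706597709807617) (nat_lit 2)) .nil)) .nil))) .nil)))) .nil)))),
 (.br (nat_lit 13) (nat_lit 0) (.cons (.kr (nat_lit 20282409603651742482640800907264) (nat_lit 79538856449905297291460214784) (nat_lit 2) (nat_lit 0)) (.cons (.br (nat_lit 16) (nat_lit 0) (.cons (.ev (nat_lit 340287579500516086952567247116894732288) (nat_lit 1)) (.cons (.ev (nat_lit 340287559297026369731087371630104608768) (nat_lit 1)) .nil))) .nil))),
 (.br (nat_lit 12) (nat_lit 0) (.cons (.rf (nat_lit 2165) (nat_lit 583706118939841765935136)) (.cons (.rf (nat_lit 2166) (nat_lit 583706118939841765935136)) (.cons (.br (nat_lit 14) (nat_lit 0) (.cons (.rf (nat_lit 2166) (nat_lit 505863129854637499227331)) (.cons (.rf (nat_lit 2165) (nat_lit 505863129854637499227331)) (.cons (.kr (nat_lit 10384593717069673703806165879619585) (nat_lit 158456329750895158061044858880) (nat_lit 0) (nat_lit 1)) (.cons (.br (nat_lit 13) (nat_lit 0) (.cons (.br (nat_lit 13) (nat_lit 0) (.cons (.kr (nat_lit 20282409603651742482640800907264)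 (nat_lit 79538856449905297291460214784) (nat_lit 2) (nat_lit 0)) (.cons (.kr (nat_lit 10384594338457544985724462183743489) (nat_lit 40564819212025851447056030367744) (nat_lit 0) (nat_lit 1)) .nil))) (.cons (.rf (nat_lit 2167) (nat_lit 677582165103132179601393696)) (.cons (.br (nat_lit 13) (nat_lit 0) (.cons (.kr (nat_lit 10384594338457544985724462183743489) (nat_lit 40564819212025851447056030367744) (nat_lit 0) (nat_lit 1)) (.cons (.rf (nat_lit 2167) (nat_lit 677582165103132179601393696)) .nil))) .nil)))) .nil))))) .nil)))),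
 (.br (nat_lit 13) (nat_lit 0) (.cons (.ev (nat_lit 20520407217167505991161809535491) (nat_lit 2)) (.cons (.br (nat_lit 14) (nat_lit 0) (.cons (.ev (nat_lit 1334420451412896998183828381688201731) (nat_lit 2)) (.cons (.kr (nat_lit 1334420292643450718979081630319116288) (nat_lit 20361637770888301244410440450048) (nat_lit 8) (nat_lit 0)) .nil))) .nil))),
 (.br (nat_lit 13) (nat_lit 0) (.cons (.ev (nat_lit 20520407217167505991161809535491) (nat_lit 2)) (.cons (.br (nat_lit 14) (nat_lit 0) (.cons (.kr (nat_lit 1334420292643450718979081630319116288) (nat_lit 20361637770888301244410440450048) (nat_lit 8) (nat_lit 0)) (.cons (.ev (nat_lit 1334460858392321959228892884827832833) (nat_lit 2)) .nil))) .nil))),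
 (.br (nat_lit 13) (nat_lit 0) (.cons (.ev (nat_lit 20520407217167505991161809535491) (nat_lit 2)) (.cons (.br (nat_lit 16) (nat_lit 0) (.cons (.ev (nat_lit 341611615199442467997842241106374295808) (nat_lit 1)) (.cons (.ev (nat_lit 341611594995952755517175593658138820865) (nat_lit 1)) .nil))) .nil))),
 (.br (nat_lit 12) (nat_lit 0) (.cons (.rf (nat_lit 2165) (nat_lit 583706118939841765935136)) (.cons (.rf (nat_lit 2168) (nat_lit 583706118939841765935136)) (.cons (.br (nat_lit 15) (nat_lit 0) (.cons (.rf (nat_lit 2168) (nat_lit 547071885008709240399908)) (.cons (.rf (nat_lit 2165) (nat_lit 505863129854637499227331)) (.cons (.br (nat_lit 13) (nat_lit 0) (.cons (.rf (nat_lit 2169) (nat_lit 19926519232773908561233952)) (.cons (.br (nat_lit 13) (nat_lit 0) (.cons (.ev (nat_lit 2658476353520709699239301449200500738) (nat_lit 2)) (.cons (.rf (nat_lit 87) (nat_lit 631011351350024226)) .nil))) (.cons (.br (nat_lit 13) (nat_lit 0) (.cons (.rf (nat_lit 2169) (nat_lit 19926519232773908561233952)) (.cons (.rf (nat_lit 87) (nat_lit 631011351350024226))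 .nil))) .nil)))) (.cons (.br (nat_lit 13) (nat_lit 0) (.cons (.rf (nat_lit 2170) (nat_lit 677582165103132179601393696)) (.cons (.rf (nat_lit 2171) (nat_lit 677582165103132179601393696)) (.cons (.br (nat_lit 13) (nat_lit 0) (.cons (.rf (nat_lit 2170) (nat_lit 677582165103132179601393696)) (.cons (.rf (nat_lit 2171) (nat_lit 677582165103132179601393696)) .nil))) .nil)))) .nil))))) .nil)))),
 (.br (nat_lit 13) (nat_lit 0) (.cons (.rf (nat_lit 2172) (nat_lit 505863129854637499227331)) (.cons (.rf (nat_lit 2168) (nat_lit 547071885008709240399908)) (.cons (.ev (nat_lit 40723277954961215470733594067457) (nat_lit 2)) .nil)))),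
 (.br (nat_lit 2) (nat_lit 0) (.cons (.rf (nat_lit 2135) (nat_lit 407901468851537952)) (.cons (.ev (nat_lit 2422629345947652003594753) (nat_lit 2)) (.cons (.rf (nat_lit 2142) (nat_lit 407901468851537952)) (.cons (.br (nat_lit 10) (nat_lit 0) (.cons (.rf (nat_lit 2142) (nat_lit 372964309678955715)) (.cons (.rf (nat_lit 2135) (nat_lit 254779218888665124)) (.cons (.ev (nat_lit 2422629346510610546950147) (nat_lit 2)) (.cons (.br (nat_lit 7) (nat_lit 0) (.cons (.ev (nat_lit 618974797494086669132890113) (nat_lit 2)) (.cons (.rf (nat_lit 2149) (nat_lit 493858305440582043680)) (.cons (.rf (nat_lit 2156) (nat_lit 493858305440582043680)) (.cons (.br (nat_lit 11) (nat_lit 0) (.cons (.rf (nat_lit 2156) (nat_lit 459235723143204052163)) (.cons (.rf (nat_lit 2149) (nat_lit 457964616547806914596)) (.cons (.ev (nat_lit 618974797493521520122659329) (nat_lit 2)) (.cons (.br (nat_lit 12) (nat_lit 0) (.cons (.rf (nat_lit 2165) (nat_lit 583706118939841765935136)) (.cons (.rf (nat_lit 2168) (nat_lit 583706118939841765935136)) (.cons (.rf (nat_lit 2172)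 (nat_lit 583706118939841765935136)) (.cons (.br (nat_lit 12) (nat_lit 0) (.cons (.rf (nat_lit 2165) (nat_lit 583706118939841765935136)) (.cons (.rf (nat_lit 2168) (nat_lit 583706118939841765935136)) (.cons (.rf (nat_lit 2172) (nat_lit 583706118939841765935136)) (.cons (.br (nat_lit 13) (nat_lit 0) (.cons (.rf (nat_lit 2172) (nat_lit 505863129854637499227331)) (.cons (.rf (nat_lit 2168) (nat_lit 547071885008709240399908)) (.cons (.rf (nat_lit 2173) (nat_lit 677582165103132179601393696)) (.cons (.rf (nat_lit 2173) (nat_lit 640105464695078675185502240)) .nil))))) .nil))))) .nil))))) .nil))))) .nil))))) .nil))))) .nil))))),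
 (.br (nat_lit 15) (nat_lit 0) (.cons (.zr (nat_lit 1329228233469403489484077619350601984) (nat_lit 5212579578832415156089122617229312) (nat_lit 8) (nat_lit 10)) .nil)),
 (.br (nat_lit 13) (nat_lit 0) (.cons (.ev (nat_lit 20282719088679938795668468989953) (nat_lit 1)) (.cons (.br (nat_lit 14) (nat_lit 0) (.cons (.rf (nat_lit 1647) (nat_lit 18168218154661677467680)) (.cons (.br (nat_lit 14) (nat_lit 0) (.cons (.rf (nat_lit 1647) (nat_lit 18168218154661677467680)) (.cons (.br (nat_lit 15) (nat_lit 0) (.cons (.rf (nat_lit 2175) (nat_lit 677582165103132179601393696)) (.cons (.rf (nat_lit 2175) (nat_lit 640105464695078675185502240)) .nil))) .nil))) .nil))) .nil))),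
 (.br (nat_lit 15) (nat_lit 0) (.cons (.br (nat_lit 17) (nat_lit 0) (.cons (.zr (nat_lit 261336863007939546934800903603757940474624) (nat_lit 344270050908293211082158088414293983232) (nat_lit 8) (nat_lit 14)) .nil)) .nil)),
 (.br (nat_lit 13) (nat_lit 0) (.cons (.ev (nat_lit 40723894507092326006415228534787) (nat_lit 2)) (.cons (.br (nat_lit 14) (nat_lit 0) (.cons (.ev (nat_lit 10384752175817313132244582680100867) (nat_lit 2)) (.cons (.ev (nat_lit 5253145017023905167018182368559617) (nat_lit 2)) (.cons (.br (nat_lit 15) (nat_lit 0) (.cons (.rf (nat_lit 2177) (nat_lit 677582165103132179601393696)) (.cons (.rf (nat_lit 2177) (nat_lit 640104320961863777338267875)) .nil))) .nil)))) .nil))),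
 (.br (nat_lit 16) (nat_lit 0) (.cons (.ev (nat_lit 341611615199442468016217210160517545985) (nat_lit 1)) .nil)),
 (.br (nat_lit 13) (nat_lit 0) (.cons (.ev (nat_lit 40723894507092326006415228534787) (nat_lit 2)) (.cons (.br (nat_lit 15) (nat_lit 0) (.cons (.kr (nat_lit 1329227995784920595270289934237302785) (nat_lit 79228162514336676662558654720) (nat_lit 0) (nat_lit 5)) (.cons (.ev (nat_lit 2658496557008013846641983535219474947) (nat_lit 2)) (.cons (.br (nat_lit 14) (nat_lit 0) (.cons (.rf (nat_lit 2179) (nat_lit 677582165103132179601393696)) (.cons (.br (nat_lit 14) (nat_lit 0) (.cons (.rf (nat_lit 2179) (nat_lit 677582165103132179601393696)) .nil)) .nil))) .nil)))) .nil))),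
 (.br (nat_lit 14) (nat_lit 0) (.cons (.rf (nat_lit 2180) (nat_lit 582562385724943918700771)) (.cons (.ev (nat_lit 10506290034024253987654964240056837) (nat_lit 3)) .nil))),
 (.br (nat_lit 14) (nat_lit 0) (.cons (.br (nat_lit 15) (nat_lit 0) (.cons (.ev (nat_lit 2689609774580373400286847386609910277) (nat_lit 3)) (.cons (.rf (nat_lit 1) (nat_lit 631047566384113729)) .nil))) .nil)),
 (.br (nat_lit 15) (nat_lit 0) (.cons (.ev (nat_lit 1344865813747172003005359168459702529) (nat_lit 2)) .nil)),
 (.br (nat_lit 12) (nat_lit 0) (.cons (.br (nat_lit 13) (nat_lit 0) (.cons (.kr (nat_lit 158456329750895159156244742145) (nat_lit 40564819207321787591972523868160) (nat_lit 0) (nat_lit 1)) (.cons (.br (nat_lit 14) (nat_lit 0) (.cons (.rf (nat_lit 2182) (nat_lit 583706118939841765935136)) (.cons (.br (nat_lit 14) (nat_lit 0) (.cons (.rf (nat_lit 2182) (nat_lit 583706118939841765935136)) (.cons (.br (nat_lit 15) (nat_lit 0) (.cons (.rf (nat_lit 2183) (nat_lit 677582165103132179601393696)) (.cons (.rf (nat_lit 2183) (nat_lit 640105464695078675185502240))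 .nil))) .nil))) .nil))) .nil))) .nil)),
 (.br (nat_lit 15) (nat_lit 0) (.cons (.ev (nat_lit 10384752792369481279820658412355587) (nat_lit 2)) (.cons (.br (nat_lit 16) (nat_lit 0) (.cons (.ev (nat_lit 10425158538699587943854348697731587) (nat_lit 2)) (.cons (.ev (nat_lit 688540101818445754852880107513292390917) (nat_lit 3)) .nil))) .nil))),
 (.br (nat_lit 13) (nat_lit 0) (.cons (.ev (nat_lit 20521023755186857591926285205762) (nat_lit 2)) (.cons (.br (nat_lit 15) (nat_lit 0) (.cons (.ev (nat_lit 10384752792369481279820658412355587) (nat_lit 2)) (.cons (.rf (nat_lit 2185) (nat_lit 19926519232773908561233952)) (.cons (.br (nat_lit 15) (nat_lit 0) (.cons (.ev (nat_lit 10384752792369481279820658412355587) (nat_lit 2)) (.cons (.rf (nat_lit 2185) (nat_lit 19926519232773908561233952)) .nil))) .nil)))) .nil))),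
 (.br (nat_lit 14) (nat_lit 0) (.cons (.kr (nat_lit 20282409603651670423947251286016) (nat_lit 5192296858534827628530496329220096) (nat_lit 13) (nat_lit 0)) (.cons (.ev (nat_lit 5212658497509937901990912846725120) (nat_lit 1)) .nil))),
 (.br (nat_lit 13) (nat_lit 0) (.cons (.rf (nat_lit 2187) (nat_lit 19926519232773908561233952)) (.cons (.rf (nat_lit 2187) (nat_lit 18755372345022236548237344)) .nil)))]

theorem c84 : chkAll C T R L84 (nat_lit 2162) = true := by decide +kernel

theorem l84 : (nat_lit 2162) + L84.length = (nat_lit 2189) := by decide +kernel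

/-- part of the certificates -/
def L85 : List Prf := [(.br (nat_lit 13) (nat_lit 0) (.cons (.rf (nat_lit 2188) (nat_lit 19926519232773908561233952)) (.cons (.br (nat_lit 15) (nat_lit 0) (.cons (.br (nat_lit 16) (nat_lit 0) (.cons (.ev (nat_lit 341611594995952750794881450961314775040) (nat_lit 1)) .nil)) (.cons (.kr (nat_lit 1329227995784915872903807060280344576) (nat_lit 340282366920938463463374607431768211456) (nat_lit 15) (nat_lit 0)) .nil))) .nil))),
 (.br (nat_lit 14) (nat_lit 0) (.cons (.br (nat_lit 15) (nat_lit 0) (.cons (.kr (nat_lit 10384593717074396070850885966627329) (nat_lit 2658455991569831745951730412460048384) (nat_lit 0) (nat_lit 10)) (.cons (.rf (nat_lit 43) (nat_lit 631047566513216546)) .nil))) .nil)),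
 (.br (nat_lit 15) (nat_lit 0) (.cons (.ev (nat_lit 1344865813130619798108407942917193985) (nat_lit 2)) .nil)),
 (.br (nat_lit 15) (nat_lit 0) (.cons (.kr (nat_lit 2658455991569836468174098094029275137) (nat_lit 40564819207321788154918165545472) (nat_lit 0) (nat_lit 2)) (.cons (.rf (nat_lit 58) (nat_lit 631046434760760358)) .nil))),
 (.br (nat_lit 13) (nat_lit 0) (.cons (.ev (nat_lit 40723894507092326006415228534787) (nat_lit 2)) (.cons (.br (nat_lit 14) (nat_lit 0) (.cons (.ev (nat_lit 10384752792369481279820658412355587) (nat_lit 2)) (.cons (.kr (nat_lit 5192296858539549995013365974433793) (nat_lit 20282409603651742481541289279488) (nat_lit 0) (nat_lit 1)) (.cons (.br (nat_lit 15) (nat_lit 0) (.cons (.br (nat_lit 15) (nat_lit 0) (.cons (.ev (nat_lit 1334440575054268000461198075990376448) (nat_lit 1)) .nil)) (.cons (.br (nat_lit 15) (nat_lit 0) (.cons (.ev (nat_lit 1334440575054268000461198075990376448) (nat_lit 1)) .nil)) .nil))) .nil)))) .nil))),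
 (.br (nat_lit 14) (nat_lit 0) (.cons (.br (nat_lit 16) (nat_lit 0) (.cons (.zr (nat_lit 261338187043638473315846178880321891599104) (nat_lit 1020852293059673925217824412593318592512) (nat_lit 8) (nat_lit 15)) .nil)) .nil)),
 (.br (nat_lit 13) (nat_lit 0) (.cons (.ev (nat_lit 40723894507092326006415228534787) (nat_lit 2)) (.cons (.br (nat_lit 15) (nat_lit 0) (.cons (.ev (nat_lit 1329228234399081538224880097259684097) (nat_lit 2)) (.cons (.ev (nat_lit 2658496556391461678494407476599980547) (nat_lit 2)) (.cons (.br (nat_lit 14) (nat_lit 0) (.cons (.rf (nat_lit 2194) (nat_lit 677582165103132179601393696)) (.cons (.br (nat_lit 14) (nat_lit 0) (.cons (.rf (nat_lit 2194) (nat_lit 677582165103132179601393696)) .nil)) .nil))) .nil)))) .nil))),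
 (.br (nat_lit 15) (nat_lit 0) (.cons (.ev (nat_lit 2668840585289323993661249805879345667) (nat_lit 2)) (.cons (.br (nat_lit 16) (nat_lit 0) (.cons (.zr (nat_lit 2668921874003033685263680614690717697) (nat_lit 2041694201525630780780681123751325467648) (nat_lit 16) (nat_lit 10)) .nil)) .nil))),
 (.br (nat_lit 14) (nat_lit 0) (.cons (.rf (nat_lit 2196) (nat_lit 677582165103132179601393696)) (.cons (.rf (nat_lit 2196) (nat_lit 640105464695078675185502240)) .nil))),
 (.br (nat_lit 14) (nat_lit 0) (.cons (.rf (nat_lit 2197) (nat_lit 677582165103132179601393696)) (.cons (.ev (nat_lit 5212658805790744269922742770336000) (nat_lit 1)) .nil))),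
 (.br (nat_lit 12) (nat_lit 0) (.cons (.kr (nat_lit 4740813789893308187137) (nat_lit 144116291899359232) (nat_lit 0) (nat_lit 10)) (.cons (.ev (nat_lit 79537652246452165536208978176) (nat_lit 1)) (.cons (.br (nat_lit 6) (nat_lit 0) (.cons (.br (nat_lit 13) (nat_lit 0) (.cons (.ev (nat_lit 41042047515114382614450392794117) (nat_lit 3)) (.cons (.br (nat_lit 14) (nat_lit 0) (.cons (.rf (nat_lit 2190) (nat_lit 583706118939841765935136)) (.cons (.br (nat_lit 14) (nat_lit 0) (.cons (.rf (nat_lit 2190) (nat_lit 583706118939841765935136)) (.cons (.br (nat_lit 15) (nat_lit 0) (.cons (.rf (nat_lit 2191) (nat_lit 677582165103132179601393696)) (.cons (.rf (nat_lit 2191) (nat_lit 640105464695078675185502240)) .nil))) .nil))) .nil))) .nil))) (.cons (.br (nat_lit 13) (nat_lit 0) (.cons (.ev (nat_lit 31153940233762420786278529337787397) (nat_lit 3)) (.cons (.br (nat_lit 13) (nat_lit 0) (.cons (.ev (nat_lit 31153940233762420786278529337787397) (nat_lit 3)) (.cons (.br (nat_lit 14) (nat_lit 0) (.cons (.rf (nat_lit 2192) (nat_lit 19926519232773908561233952))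 (.cons (.rf (nat_lit 2192) (nat_lit 18755372345022236548237344)) (.cons (.rf (nat_lit 844) (nat_lit 677579841597005221084666213)) .nil)))) .nil))) .nil))) (.cons (.br (nat_lit 13) (nat_lit 0) (.cons (.rf (nat_lit 2193) (nat_lit 583706118939841765935136)) (.cons (.rf (nat_lit 2195) (nat_lit 583706118939841765935136)) (.cons (.br (nat_lit 13) (nat_lit 0) (.cons (.rf (nat_lit 2193) (nat_lit 583706118939841765935136)) (.cons (.rf (nat_lit 2195) (nat_lit 583706118939841765935136)) (.cons (.br (nat_lit 14) (nat_lit 0) (.cons (.rf (nat_lit 2197) (nat_lit 677582165103132179601393696)) (.cons (.rf (nat_lit 2198) (nat_lit 677582165103132179601393696)) (.cons (.rf (nat_lit 2198) (nat_lit 640105464695078675185502240)) .nil)))) .nil)))) .nil)))) .nil)))) .nil)))),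
 (.br (nat_lit 14) (nat_lit 0) (.cons (.br (nat_lit 15) (nat_lit 0) (.cons (.kr (nat_lit 2658455991569836486621404013868876289) (nat_lit 10384593717069655401177284557799424) (nat_lit 0) (nat_lit 10)) (.cons (.rf (nat_lit 43) (nat_lit 631047566509022246)) .nil))) .nil)),
 (.br (nat_lit 15) (nat_lit 0) (.cons (.ev (nat_lit 1344865813747172003005359168459702529) (nat_lit 2)) .nil)),
 (.br (nat_lit 14) (nat_lit 0) (.cons (.br (nat_lit 15) (nat_lit 0) (.cons (.ev (nat_lit 2668840585289323993661249805879345667) (nat_lit 2)) (.cons (.rf (nat_lit 58) (nat_lit 631047566512954410)) .nil))) .nil)),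
 (.br (nat_lit 15) (nat_lit 0) (.cons (.ev (nat_lit 1344825406767737560045047443915735809) (nat_lit 2)) .nil)),
 (.br (nat_lit 15) (nat_lit 0) (.cons (.br (nat_lit 16) (nat_lit 0) (.cons (.zr (nat_lit 261336863007939546934800903603757940474624) (nat_lit 1022176328758600306263099689157269716992) (nat_lit 8) (nat_lit 14)) .nil)) .nil)),
 (.br (nat_lit 12) (nat_lit 0) (.cons (.br (nat_lit 14) (nat_lit 0) (.cons (.kr (nat_lit 2658455991569836486620841068227198977) (nat_lit 158456325028672791474675515392) (nat_lit 0) (nat_lit 1)) (.cons (.br (nat_lit 15) (nat_lit 0) (.cons (.ev (nat_lit 1334420371872822140616289779345064193) (nat_lit 1)) (.cons (.rf (nat_lit 11) (nat_lit 631047533093038145)) .nil))) .nil))) (.cons (.br (nat_lit 14) (nat_lit 0) (.cons (.br (nat_lit 15) (nat_lit 0) (.cons (.ev (nat_lit 15982174005557349054292717087578653193) (nat_lit 4)) (.cons (.rf (nat_lit 11) (nat_lit 631045402793449537)) .nil))) (.cons (.rf (nat_lit 445) (nat_lit 622702603497446166240323)) (.cons (.br (nat_lit 15) (nat_lit 0) (.cons (.rf (nat_lit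 2204) (nat_lit 677582165103132179601393696)) (.cons (.br (nat_lit 15) (nat_lit 0) (.cons (.rf (nat_lit 2204) (nat_lit 677582165103132179601393696)) .nil)) .nil))) .nil)))) .nil))),
 (.br (nat_lit 14) (nat_lit 0) (.cons (.br (nat_lit 16) (nat_lit 0) (.cons (.ev (nat_lit 88134477857771373435323244130330426278658) (nat_lit 2)) .nil)) .nil)),
 (.br (nat_lit 12) (nat_lit 0) (.cons (.rf (nat_lit 2205) (nat_lit 583706118939841765935136)) (.cons (.br (nat_lit 15) (nat_lit 0) (.cons (.br (nat_lit 14) (nat_lit 0) (.cons (.ev (nat_lit 10384752175817276382873830916358147) (nat_lit 2)) (.cons (.rf (nat_lit 15) (nat_lit 631047533093038145)) .nil))) (.cons (.kr (nat_lit 2658455991569836486620841068227198977) (nat_lit 158456325028672791474675515392) (nat_lit 0) (nat_lit 1)) (.cons (.br (nat_lit 14) (nat_lit 0) (.cons (.rf (nat_lit 2206) (nat_lit 677582165103132179601393696)) (.cons (.br (nat_lit 14) (nat_lit 0) (.cons (.rf (nat_lit 2206) (nat_lit 677582165103132179601393696)) .nil)) .nil))) .nil)))) .nil))),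
 (.br (nat_lit 15) (nat_lit 0) (.cons (.ev (nat_lit 680575118435596419174602850548855079427) (nat_lit 2)) (.cons (.ev (nat_lit 1334420371872826881429517826489647360) (nat_lit 1)) .nil))),
 (.br (nat_lit 14) (nat_lit 0) (.cons (.rf (nat_lit 2208) (nat_lit 677582165103132179601393696)) (.cons (.rf (nat_lit 2208) (nat_lit 640105464695078675185502240)) .nil))),
 (.br (nat_lit 14) (nat_lit 0) (.cons (.rf (nat_lit 2209) (nat_lit 677582165103132179601393696)) (.cons (.ev (nat_lit 10384752175817276382873830916358147) (nat_lit 2)) .nil))),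
 (.br (nat_lit 6) (nat_lit 0) (.cons (.br (nat_lit 12) (nat_lit 0) (.cons (.ev (nat_lit 79229376180897180269880082688) (nat_lit 1)) (.cons (.br (nat_lit 13) (nat_lit 0) (.cons (.ev (nat_lit 121854773279589932874696092811269) (nat_lit 3)) (.cons (.br (nat_lit 14) (nat_lit 0) (.cons (.rf (nat_lit 2200) (nat_lit 583706118939841765935136)) (.cons (.br (nat_lit 14) (nat_lit 0) (.cons (.rf (nat_lit 2200) (nat_lit 583706118939841765935136)) (.cons (.br (nat_lit 15) (nat_lit 0) (.cons (.rf (nat_lit 2201) (nat_lit 677582165103132179601393696)) (.cons (.rf (nat_lit 2201) (nat_lit 640105464695078675185502240)) .nil))) .nil))) .nil))) .nil))) .nil))) (.cons (.kr (nat_lit 4740813789893308187137) (nat_lit 144116291899359232) (nat_lit 0) (nat_lit 10)) (.cons (.br (nat_lit 13) (nat_lit 0) (.cons (.br (nat_lit 12) (nat_lit 0) (.cons (.ev (nat_lit 40723894507092326006415228534787) (nat_lit 2)) (.cons (.br (nat_lit 14) (nat_lit 0) (.cons (.rf (nat_lit 2202) (nat_lit 583706118939841765935136)) (.cons (.br (nat_lit 14) (nat_lit 0) (.cons (.rf (nat_lit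 2202) (nat_lit 583706118939841765935136)) (.cons (.br (nat_lit 15) (nat_lit 0) (.cons (.rf (nat_lit 2203) (nat_lit 677582165103132179601393696)) (.cons (.rf (nat_lit 2203) (nat_lit 640105464695078675185502240)) .nil))) .nil))) .nil))) .nil))) (.cons (.ev (nat_lit 20282719093402377336132152066048) (nat_lit 1)) (.cons (.br (nat_lit 12) (nat_lit 0) (.cons (.rf (nat_lit 2205) (nat_lit 583706118939841765935136)) (.cons (.rf (nat_lit 2207) (nat_lit 583706118939841765935136)) (.cons (.br (nat_lit 12) (nat_lit 0) (.cons (.rf (nat_lit 2205) (nat_lit 583706118939841765935136)) (.cons (.rf (nat_lit 2207) (nat_lit 583706118939841765935136)) (.cons (.br (nat_lit 14) (nat_lit 0) (.cons (.rf (nat_lit 2209) (nat_lit 677582165103132179601393696)) (.cons (.rf (nat_lit 2210) (nat_lit 677582165103132179601393696)) (.cons (.rf (nat_lit 2210) (nat_lit 640105464695078675185502240)) .nil)))) .nil)))) .nil)))) .nil)))) .nil)))),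
 (.br (nat_lit 13) (nat_lit 0) (.cons (.kr (nat_lit 158456329750895159156244742145) (nat_lit 40564819207321787591972523868160) (nat_lit 0) (nat_lit 1)) (.cons (.kr (nat_lit 79228167236631101938165874945) (nat_lit 20282409603651742481545601024000) (nat_lit 0) (nat_lit 5)) (.cons (.br (nat_lit 14) (nat_lit 0) (.cons (.ev (nat_lit 10384752792369481279820658412355587) (nat_lit 2)) (.cons (.ev (nat_lit 10425159155251719053829279402033667) (nat_lit 2)) (.cons (.rf (nat_lit 2158) (nat_lit 625101875788728006354241)) .nil)))) .nil)))),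
 (.br (nat_lit 14) (nat_lit 0) (.cons (.br (nat_lit 16) (nat_lit 0) (.cons (.ev (nat_lit 680575118436212971379499797376351076867) (nat_lit 2)) .nil)) .nil)),
 (.br (nat_lit 13) (nat_lit 0) (.cons (.kr (nat_lit 20282409603670117449495937548544) (nat_lit 79228162514336396287093571584) (nat_lit 1) (nat_lit 0)) (.cons (.kr (nat_lit 158456329750895159156244742145) (nat_lit 40564819207321787591972523868160) (nat_lit 0) (nat_lit 1)) (.cons (.br (nat_lit 15) (nat_lit 0) (.cons (.ev (nat_lit 1329227995786124798723703168726794241) (nat_lit 1)) (.cons (.ev (nat_lit 1329248357423890983176986001804361985) (nat_lit 1)) (.cons (.br (nat_lit 14) (nat_lit 0) (.cons (.rf (nat_lit 2213) (nat_lit 677582165103132179601393696)) (.cons (.br (nat_lit 14) (nat_lit 0) (.cons (.rf (nat_lit 2213) (nat_lit 677582165103132179601393696)) .nil)) .nil))) .nil)))) .nil)))),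
 (.br (nat_lit 14) (nat_lit 0) (.cons (.br (nat_lit 16) (nat_lit 0) (.cons (.ev (nat_lit 683223189833449181265153403676757328387) (nat_lit 2)) (.cons (.ev (nat_lit 340287579500516091693380474060249497600) (nat_lit 1)) .nil))) (.cons (.br (nat_lit 15) (nat_lit 0) (.cons (.br (nat_lit 16) (nat_lit 0) (.cons (.ev (nat_lit 340287559297334645833535565763604185345) (nat_lit 1)) .nil)) (.cons (.ev (nat_lit 174224582248114829337700549587578138919427) (nat_lit 2)) .nil))) .nil))),
 (.br (nat_lit 14) (nat_lit 0) (.cons (.rf (nat_lit 2215) (nat_lit 677582165103132179601393696)) (.cons (.br (nat_lit 16) (nat_lit 0) (.cons (.ev (nat_lit 340287579500516091693380474060249497600) (nat_lit 1)) (.cons (.ev (nat_lit 174224582248114829337700549587578138919427) (nat_lit 2)) .nil))) .nil))),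
 (.br (nat_lit 12) (nat_lit 0) (.cons (.rf (nat_lit 2212) (nat_lit 583706118939841765935136)) (.cons (.rf (nat_lit 2214) (nat_lit 583706118939841765935136)) (.cons (.br (nat_lit 13) (nat_lit 0) (.cons (.rf (nat_lit 2214) (nat_lit 547072003048631348238563)) (.cons (.rf (nat_lit 2212) (nat_lit 547072003048631348238563)) (.cons (.kr (nat_lit 158456329750895159156244742145) (nat_lit 40564819207321787591972523868160) (nat_lit 0) (nat_lit 1)) (.cons (.br (nat_lit 14) (nat_lit 0) (.cons (.rf (nat_lit 2215) (nat_lit 677582165103132179601393696)) (.cons (.rf (nat_lit 2216) (nat_lit 677582165103132179601393696)) (.cons (.br (nat_lit 14) (nat_lit 0) (.cons (.rf (nat_lit 2215) (nat_lit 677582165103132179601393696)) (.cons (.rf (nat_lit 2216) (nat_lit 677582165103132179601393696)) .nil))) .nil)))) .nil))))) .nil))))]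

theorem c85 : chkAll C T R L85 (nat_lit 2189) = true := by decide +kernel

theorem l85 : (nat_lit 2189) + L85.length = (nat_lit 2218) := by decide +kernel

/-- part of the certificates -/
def L86 : List Prf := [(.br (nat_lit 14) (nat_lit 0) (.cons (.ev (nat_lit 10384752792369481279820658412355587) (nat_lit 2)) (.cons (.ev (nat_lit 1329227995786129539536931207314997248) (nat_lit 1)) (.cons (.br (nat_lit 15) (nat_lit 0) (.cons (.br (nat_lit 13) (nat_lit 0) (.cons (.ev (nat_lit 5212658805790744269922742770336000) (nat_lit 1)) (.cons (.rf (nat_lit 20) (nat_lit 630978331511294273)) .nil))) (.cons (.rf (nat_lit 561) (nat_lit 620380583456278837364036)) (.cons (.br (nat_lit 13) (nat_lit 0) (.cons (.br (nat_lit 13) (nat_lit 0) (.cons (.zr (nat_lit 41040188187203527076724141457409) (nat_lit 2668840585908289272635951884588549120) (nat_lit 16) (nat_lit 10)) .nil)) (.cons (.br (nat_lit 13) (nat_lit 0) (.cons (.zr (nat_lit 41040188187203527076724141457409) (nat_lit 2668840585908289272635951884588549120) (nat_lit 16) (nat_lit 10)) .nil)) .nil)))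 .nil)))) .nil)))),
 (.br (nat_lit 15) (nat_lit 0) (.cons (.br (nat_lit 16) (nat_lit 0) (.cons (.ev (nat_lit 88137125929169226197413794683458328527618) (nat_lit 2)) .nil)) .nil)),
 (.br (nat_lit 13) (nat_lit 0) (.cons (.rf (nat_lit 2218) (nat_lit 547072003048631348238563)) (.cons (.rf (nat_lit 149) (nat_lit 19459491432756061208618)) (.cons (.br (nat_lit 15) (nat_lit 0) (.cons (.rf (nat_lit 2219) (nat_lit 677582165103132179601393696)) (.cons (.br (nat_lit 15) (nat_lit 0) (.cons (.rf (nat_lit 2219) (nat_lit 677582165103132179601393696)) .nil)) .nil))) .nil)))),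
 (.br (nat_lit 13) (nat_lit 0) (.cons (.rf (nat_lit 2218) (nat_lit 547072003048631348238563)) (.cons (.br (nat_lit 14) (nat_lit 0) (.cons (.ev (nat_lit 5212658805790744269922742770336000) (nat_lit 1)) (.cons (.ev (nat_lit 680575118436212971379499797376351076867) (nat_lit 2)) (.cons (.br (nat_lit 15) (nat_lit 0) (.cons (.ev (nat_lit 683223189833449181265153403676757328387) (nat_lit 2)) (.cons (.ev (nat_lit 2689609774580373400286847386609910277) (nat_lit 3)) .nil))) .nil)))) (.cons (.br (nat_lit 14) (nat_lit 0) (.cons (.ev (nat_lit 1344804887290198478316614393553486337) (nat_lit 2)) (.cons (.br (nat_lit 16) (nat_lit 0) (.cons (.ev (nat_lit 2689609774580373400286847386609910277) (nat_lit 3)) (.cons (.ev (nat_lit 340287579500516091693380474060249497600) (nat_lit 1)) .nil))) (.cons (.br (nat_lit 17) (nat_lit 0) (.cons (.ev (nat_lit 2689609774580373400286847386609910277) (nat_lit 3)) (.cons (.ev (nat_lit 87112291124136642828994060460864498106625) (nat_lit 1)) .nil))) .nil)))) .nil)))),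
 (.br (nat_lit 13) (nat_lit 0) (.cons (.rf (nat_lit 149) (nat_lit 19459491432756061208618)) (.cons (.rf (nat_lit 2221) (nat_lit 19926519232773908561233952)) (.cons (.br (nat_lit 14) (nat_lit 0) (.cons (.br (nat_lit 15) (nat_lit 0) (.cons (.ev (nat_lit 2658456150028579366933426958818607107) (nat_lit 2)) (.cons (.br (nat_lit 16) (nat_lit 0) (.cons (.zr (nat_lit 2668921874003033685263680614690717697) (nat_lit 2041694201525630780780681123751325467648) (nat_lit 16) (nat_lit 10)) .nil)) .nil))) (.cons (.ev (nat_lit 680575118436212971379499797376351076867) (nat_lit 2)) (.cons (.ev (nat_lit 5212658805790744269922742770336000) (nat_lit 1)) .nil)))) .nil)))),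
 (.br (nat_lit 12) (nat_lit 0) (.cons (.rf (nat_lit 2217) (nat_lit 583706118939841765935136)) (.cons (.rf (nat_lit 2218) (nat_lit 583706118939841765935136)) (.cons (.br (nat_lit 13) (nat_lit 0) (.cons (.rf (nat_lit 2220) (nat_lit 19926519232773908561233952)) (.cons (.rf (nat_lit 2221) (nat_lit 19926519232773908561233952)) (.cons (.rf (nat_lit 2222) (nat_lit 19926519232773908561233952)) (.cons (.br (nat_lit 13) (nat_lit 0) (.cons (.rf (nat_lit 2220) (nat_lit 19926519232773908561233952)) (.cons (.rf (nat_lit 2221) (nat_lit 19926519232773908561233952)) (.cons (.rf (nat_lit 2222) (nat_lit 19926519232773908561233952)) .nil)))) .nil))))) .nil)))),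
 (.br (nat_lit 14) (nat_lit 0) (.cons (.kr (nat_lit 680564733841876931667562441811202932737) (nat_lit 158456325028672791474675515392) (nat_lit 0) (nat_lit 1)) (.cons (.br (nat_lit 16) (nat_lit 0) (.cons (.ev (nat_lit 683223230556724713633772860468621344771) (nat_lit 2)) (.cons (.ev (nat_lit 340287559297334645833535565763604185345) (nat_lit 1)) .nil))) .nil))),
 (.br (nat_lit 13) (nat_lit 0) (.cons (.br (nat_lit 14) (nat_lit 0) (.cons (.ev (nat_lit 680575159159488503674332282271423397891) (nat_lit 2)) (.cons (.ev (nat_lit 2689691221131438137523517966617282053) (nat_lit 3)) .nil))) (.cons (.br (nat_lit 14) (nat_lit 0) (.cons (.rf (nat_lit 154) (nat_lit 661701333104055210476868)) (.cons (.kr (nat_lit 174224571863520493297970165489038792851457) (nat_lit 40564819207321788154918165545472) (nat_lit 0) (nat_lit 2)) .nil))) .nil))),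
 (.br (nat_lit 13) (nat_lit 0) (.cons (.rf (nat_lit 2225) (nat_lit 677582165103132179601393696)) (.cons (.br (nat_lit 16) (nat_lit 0) (.cons (.br (nat_lit 14) (nat_lit 0) (.cons (.ev (nat_lit 10425159155251719053829279402033667) (nat_lit 2)) .nil)) (.cons (.kr (nat_lit 174224571863520493297970165489038792851457) (nat_lit 40564819207321788154918165545472) (nat_lit 0) (nat_lit 2)) .nil))) .nil))),
 (.br (nat_lit 12) (nat_lit 0) (.cons (.rf (nat_lit 2217) (nat_lit 583706118939841765935136)) (.cons (.rf (nat_lit 2223) (nat_lit 583706118939841765935136)) (.cons (.br (nat_lit 15) (nat_lit 0) (.cons (.rf (nat_lit 2223) (nat_lit 547072003048631348238563)) (.cons (.ev (nat_lit 1329227995786129539536931207314997248) (nat_lit 1)) (.cons (.br (nat_lit 14) (nat_lit 0) (.cons (.rf (nat_lit 2224) (nat_lit 19926519232773908561233952)) (.cons (.kr (nat_lit 680564733841876931667562441811202932737) (nat_lit 158456325028672791474675515392) (nat_lit 0) (nat_lit 1)) (.cons (.br (nat_lit 14) (nat_lit 0) (.cons (.rf (nat_lit 2224) (nat_lit 19926519232773908561233952))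 (.cons (.kr (nat_lit 680564733841876931667562441811202932737) (nat_lit 158456325028672791474675515392) (nat_lit 0) (nat_lit 1)) .nil))) .nil)))) (.cons (.br (nat_lit 13) (nat_lit 0) (.cons (.rf (nat_lit 2225) (nat_lit 677582165103132179601393696)) (.cons (.rf (nat_lit 2226) (nat_lit 677582165103132179601393696)) (.cons (.br (nat_lit 13) (nat_lit 0) (.cons (.rf (nat_lit 2225) (nat_lit 677582165103132179601393696)) (.cons (.rf (nat_lit 2226) (nat_lit 677582165103132179601393696)) .nil))) .nil)))) .nil))))) .nil)))),
 (.br (nat_lit 14) (nat_lit 0) (.cons (.ev (nat_lit 680575118436212971379499797376351076867) (nat_lit 2)) (.cons (.br (nat_lit 15) (nat_lit 0) (.cons (.ev (nat_lit 1329227995786124798723703168726794241) (nat_lit 1)) (.cons (.ev (nat_lit 341611615199134196636207275011429367808) (nat_lit 1)) .nil))) (.cons (.ev (nat_lit 10425159155251719053829279402033667) (nat_lit 2)) .nil)))),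
 (.br (nat_lit 13) (nat_lit 0) (.cons (.rf (nat_lit 2227) (nat_lit 547072003048631348238563)) (.cons (.rf (nat_lit 2223) (nat_lit 547072003048631348238563)) (.cons (.br (nat_lit 16) (nat_lit 0) (.cons (.rf (nat_lit 2228) (nat_lit 677582165103132179601393696)) (.cons (.rf (nat_lit 2228) (nat_lit 677545530987240969183697123)) (.cons (.kr (nat_lit 340282366920938463463374607431768211456) (nat_lit 87112285931760246646623899502532662132736) (nat_lit 16) (nat_lit 0)) .nil)))) .nil)))),
 (.br (nat_lit 10) (nat_lit 0) (.cons (.kr (nat_lit 4740813226947666509825) (nat_lit 144116287587614720) (nat_lit 0) (nat_lit 1)) (.cons (.ev (nat_lit 2422592596574692660216323) (nat_lit 2)) (.cons (.rf (nat_lit 2174) (nat_lit 254559150342833476)) (.cons (.br (nat_lit 11) (nat_lit 0) (.cons (.ev (nat_lit 618970038161495116633801218) (nat_lit 2)) (.cons (.kr (nat_lit 4722366483973468585985) (nat_lit 18447307023662973440) (nat_lit 0) (nat_lit 2)) (.cons (.br (nat_lit 2) (nat_lit 0) (.cons (.ev (nat_lit 1859332688708050288073900549) (nat_lit 3)) (.cons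 (.ev (nat_lit 79537647524157740260601626881) (nat_lit 1)) (.cons (.br (nat_lit 6) (nat_lit 0) (.cons (.ev (nat_lit 79229376162522492686418575616) (nat_lit 1)) (.cons (.kr (nat_lit 4740813789893308187137) (nat_lit 144116291899359232) (nat_lit 0) (nat_lit 10)) (.cons (.br (nat_lit 12) (nat_lit 0) (.cons (.rf (nat_lit 2176) (nat_lit 17022140995484340291616)) (.cons (.rf (nat_lit 2176) (nat_lit 15878407780586493057251)) (.cons (.br (nat_lit 13) (nat_lit 0) (.cons (.rf (nat_lit 2178) (nat_lit 583706118939841765935136)) (.cons (.rf (nat_lit 2180) (nat_lit 583706118939841765935136)) (.cons (.br (nat_lit 13) (nat_lit 0) (.cons (.rf (nat_lit 2178) (nat_lit 583706118939841765935136)) (.cons (.rf (nat_lit 2180) (nat_lit 583706118939841765935136)) (.cons (.br (nat_lit 14) (nat_lit 0) (.cons (.rf (nat_lit 2180) (nat_lit 582562385724943918700771)) (.cons (.rf (nat_lit 2181) (nat_lit 677582165103132179601393696)) (.cons (.rf (nat_lit 2181) (nat_lit 640105464695078675185502240)) .nil)))) .nil)))) .nil)))) .nil)))) .nil)))) .nil)))) (.cons (.br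 (nat_lit 2) (nat_lit 0) (.cons (.br (nat_lit 12) (nat_lit 0) (.cons (.rf (nat_lit 2184) (nat_lit 493858305440582043680)) (.cons (.br (nat_lit 12) (nat_lit 0) (.cons (.rf (nat_lit 2184) (nat_lit 493858305440582043680)) (.cons (.br (nat_lit 13) (nat_lit 0) (.cons (.rf (nat_lit 2186) (nat_lit 583706118939841765935136)) (.cons (.rf (nat_lit 2186) (nat_lit 547107778697602015528992)) (.cons (.br (nat_lit 13) (nat_lit 0) (.cons (.rf (nat_lit 2186) (nat_lit 583706118939841765935136)) (.cons (.rf (nat_lit 2186) (nat_lit 547107778697602015528992)) (.cons (.br (nat_lit 14) (nat_lit 0) (.cons (.rf (nat_lit 2188) (nat_lit 21174442659472880612543553)) (.cons (.rf (nat_lit 2189) (nat_lit 21174442659472880612543553)) (.cons (.rf (nat_lit 2189) (nat_lit 20003295771721208599546945)) .nil)))) .nil)))) .nil)))) .nil))) .nil))) (.cons (.rf (nat_lit 2199) (nat_lit 493858305440582043680)) (.cons (.rf (nat_lit 2211) (nat_lit 493858305440582043680)) (.cons (.br (nat_lit 6) (nat_lit 0) (.cons (.rf (nat_lit 2211) (nat_lit 458082656469914753251)) (.cons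 (.rf (nat_lit 2199) (nat_lit 458082656469914753251)) (.cons (.kr (nat_lit 4740813789893308187137) (nat_lit 144116291899359232) (nat_lit 0) (nat_lit 10)) (.cons (.br (nat_lit 12) (nat_lit 0) (.cons (.rf (nat_lit 2217) (nat_lit 583706118939841765935136)) (.cons (.rf (nat_lit 2223) (nat_lit 583706118939841765935136)) (.cons (.rf (nat_lit 2227) (nat_lit 583706118939841765935136)) (.cons (.br (nat_lit 12) (nat_lit 0) (.cons (.rf (nat_lit 2217) (nat_lit 583706118939841765935136)) (.cons (.rf (nat_lit 2223) (nat_lit 583706118939841765935136)) (.cons (.rf (nat_lit 2227) (nat_lit 583706118939841765935136)) (.cons (.br (nat_lit 13) (nat_lit 0) (.cons (.rf (nat_lit 2227) (nat_lit 547072003048631348238563)) (.cons (.rf (nat_lit 2223) (nat_lit 547072003048631348238563)) (.cons (.rf (nat_lit 2229) (nat_lit 677582165103132179601393696)) (.cons (.rf (nat_lit 2229) (nat_lit 640105464695078675185502240)) .nil))))) .nil))))) .nil))))) .nil))))) .nil))))) .nil))))) .nil))))),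
 (.br (nat_lit 14) (nat_lit 0) (.cons (.br (nat_lit 15) (nat_lit 0) (.cons (.ev (nat_lit 2668840585905876161521156256390316033) (nat_lit 2)) (.cons (.rf (nat_lit 180) (nat_lit 631046501232224321)) .nil))) .nil)),
 (.br (nat_lit 15) (nat_lit 0) (.cons (.ev (nat_lit 2658496557008013809604380199724646913) (nat_lit 2)) (.cons (.rf (nat_lit 180) (nat_lit 631047566484773953)) .nil))),
 (.br (nat_lit 14) (nat_lit 0) (.cons (.kr (nat_lit 10384593717074432964340132897358337) (nat_lit 159077712899954709775274606592) (nat_lit 0) (nat_lit 13)) (.cons (.br (nat_lit 13) (nat_lit 0) (.cons (.br (nat_lit 15) (nat_lit 0) (.cons (.ev (nat_lit 10675403066296977734673338265347425293) (nat_lit 4)) (.cons (.rf (nat_lit 284) (nat_lit 630975069616801831)) .nil))) (.cons (.rf (nat_lit 2008) (nat_lit 19926519046816943931959368)) (.cons (.rf (nat_lit 793) (nat_lit 21174404673892680751745248)) .nil)))) .nil))),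
 (.br (nat_lit 16) (nat_lit 0) (.cons (.ev (nat_lit 683223230556724713597022924567880925697) (nat_lit 2)) .nil)),
 (.br (nat_lit 13) (nat_lit 0) (.cons (.rf (nat_lit 2233) (nat_lit 583706118939841765935136)) (.cons (.br (nat_lit 15) (nat_lit 0) (.cons (.br (nat_lit 14) (nat_lit 0) (.cons (.ev (nat_lit 5212658497514641821729704487419905) (nat_lit 1)) (.cons (.rf (nat_lit 284) (nat_lit 631045402794330154)) .nil))) (.cons (.kr (nat_lit 40564819212025707331863659413505) (nat_lit 2658455991569831764254358198581985280) (nat_lit 0) (nat_lit 1)) (.cons (.br (nat_lit 14) (nat_lit 0) (.cons (.rf (nat_lit 2234) (nat_lit 677582165103132179601393696)) (.cons (.br (nat_lit 14) (nat_lit 0) (.cons (.rf (nat_lit 2234) (nat_lit 677582165103132179601393696)) .nil)) .nil))) .nil)))) .nil))),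
 (.br (nat_lit 15) (nat_lit 0) (.cons (.ev (nat_lit 2740920050594004204666619064632335666693) (nat_lit 4)) (.cons (.br (nat_lit 16) (nat_lit 0) (.cons (.ev (nat_lit 683233574585622575948939700607433834497) (nat_lit 2)) .nil)) .nil))),
 (.br (nat_lit 14) (nat_lit 0) (.cons (.rf (nat_lit 2236) (nat_lit 677582165103132179601393696)) (.cons (.rf (nat_lit 2236) (nat_lit 640105464695078675185502240)) .nil))),
 (.br (nat_lit 14) (nat_lit 0) (.cons (.rf (nat_lit 2237) (nat_lit 677582165103132179601393696)) (.cons (.ev (nat_lit 5212658497514641821729704487419905) (nat_lit 1)) .nil))),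
 (.br (nat_lit 7) (nat_lit 0) (.cons (.ev (nat_lit 618974760456481143171186689) (nat_lit 2)) (.cons (.ev (nat_lit 79229371458602753890482913536) (nat_lit 1)) (.cons (.br (nat_lit 11) (nat_lit 0) (.cons (.br (nat_lit 13) (nat_lit 0) (.cons (.ev (nat_lit 40723277954924466095583783813633) (nat_lit 2)) (.cons (.br (nat_lit 14) (nat_lit 0) (.cons (.rf (nat_lit 2231) (nat_lit 583706118939841765935136)) (.cons (.br (nat_lit 14) (nat_lit 0) (.cons (.rf (nat_lit 2231) (nat_lit 583706118939841765935136)) (.cons (.rf (nat_lit 1794) (nat_lit 18795514801860995917645856)) .nil))) .nil))) .nil))) (.cons (.br (nat_lit 13) (nat_lit 0) (.cons (.ev (nat_lit 10384752175817276382871623336722433) (nat_lit 2)) (.cons (.br (nat_lit 13) (nat_lit 0) (.cons (.ev (nat_lit 10384752175817276382871623336722433) (nat_lit 2)) (.cons (.br (nat_lit 14) (nat_lit 0) (.cons (.rf (nat_lit 2232) (nat_lit 19926519232773908561233952)) (.cons (.rf (nat_lit 2232) (nat_lit 18755372345022236548237344)) (.cons (.rf (nat_lit 933) (nat_lit 21174441537931193211980104)) .nil))))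 .nil))) .nil))) (.cons (.br (nat_lit 13) (nat_lit 0) (.cons (.rf (nat_lit 2233) (nat_lit 583706118939841765935136)) (.cons (.rf (nat_lit 2235) (nat_lit 583706118939841765935136)) (.cons (.br (nat_lit 13) (nat_lit 0) (.cons (.rf (nat_lit 2233) (nat_lit 583706118939841765935136)) (.cons (.rf (nat_lit 2235) (nat_lit 583706118939841765935136)) (.cons (.br (nat_lit 14) (nat_lit 0) (.cons (.rf (nat_lit 2237) (nat_lit 677582165103132179601393696)) (.cons (.rf (nat_lit 2238) (nat_lit 677582165103132179601393696)) (.cons (.rf (nat_lit 2238) (nat_lit 640105464695078675185502240)) .nil)))) .nil)))) .nil)))) .nil)))) .nil))))]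

theorem c86 : chkAll C T R L86 (nat_lit 2218) = true := by decide +kernel

theorem l86 : (nat_lit 2218) + L86.length = (nat_lit 2240) := by decide +kernel

/-- part of the certificates -/
def L87 : List Prf := [(.br (nat_lit 14) (nat_lit 0) (.cons (.br (nat_lit 15) (nat_lit 0) (.cons (.ev (nat_lit 2668840585905876161521156256390316033) (nat_lit 2)) (.cons (.rf (nat_lit 180) (nat_lit 631046501231335489)) .nil))) .nil)),
 (.br (nat_lit 15) (nat_lit 0) (.cons (.ev (nat_lit 1344865813130619834857220151330407169) (nat_lit 2)) .nil)),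
 (.br (nat_lit 16) (nat_lit 0) (.cons (.ev (nat_lit 1361150318318365286180163370129285318147) (nat_lit 3)) .nil)),
 (.br (nat_lit 14) (nat_lit 0) (.cons (.br (nat_lit 15) (nat_lit 0) (.cons (.kr (nat_lit 10425158536281680964392856317853699) (nat_lit 2658456150026156792783033385703440384) (nat_lit 0) (nat_lit 1)) (.cons (.rf (nat_lit 239) (nat_lit 631047566484643009)) .nil))) .nil)),
 (.br (nat_lit 15) (nat_lit 0) (.cons (.ev (nat_lit 1344865972203482808949672076017599234) (nat_lit 2)) .nil)),
 (.br (nat_lit 16) (nat_lit 0) (.cons (.ev (nat_lit 680575159159488503674331717122413167107) (nat_lit 2)) .nil)),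
 (.br (nat_lit 15) (nat_lit 0) (.cons (.ev (nat_lit 1329248357732171771026679118245724160) (nat_lit 1)) (.cons (.rf (nat_lit 167) (nat_lit 631047532930368838)) .nil))),
 (.br (nat_lit 16) (nat_lit 0) (.cons (.ev (nat_lit 680575159159488503674331717122413167107) (nat_lit 2)) .nil)),
 (.br (nat_lit 14) (nat_lit 0) (.cons (.ev (nat_lit 10384752792369481279257699902554627) (nat_lit 2)) (.cons (.br (nat_lit 15) (nat_lit 0) (.cons (.ev (nat_lit 341611615199442472738655469144928944385) (nat_lit 1)) (.cons (.br (nat_lit 16) (nat_lit 0) (.cons (.ev (nat_lit 341611594996261031601249664270493286400) (nat_lit 1)) .nil)) .nil))) .nil))),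
 (.br (nat_lit 14) (nat_lit 0) (.cons (.ev (nat_lit 10384752792369481279257699902554627) (nat_lit 2)) (.cons (.br (nat_lit 16) (nat_lit 0) (.cons (.br (nat_lit 15) (nat_lit 0) (.cons (.ev (nat_lit 1329248357732171771026679118245724160) (nat_lit 1)) .nil)) (.cons (.ev (nat_lit 87452573511339682620025176099777748664320) (nat_lit 1)) .nil))) .nil))),
 (.br (nat_lit 7) (nat_lit 0) (.cons (.ev (nat_lit 2422592597135443556827139) (nat_lit 2)) (.cons (.ev (nat_lit 79229371440084233702007177216) (nat_lit 1)) (.cons (.ev (nat_lit 20282410812577490038576442835201) (nat_lit 1)) (.cons (.br (nat_lit 11) (nat_lit 0) (.cons (.br (nat_lit 13) (nat_lit 0) (.cons (.ev (nat_lit 40723277954924466095583783813633) (nat_lit 2)) (.cons (.br (nat_lit 14) (nat_lit 0) (.cons (.rf (nat_lit 2240) (nat_lit 583706118939841765935136)) (.cons (.br (nat_lit 14) (nat_lit 0) (.cons (.rf (nat_lit 2240) (nat_lit 583706118939841765935136)) (.cons (.br (nat_lit 15) (nat_lit 0) (.cons (.rf (nat_lit 2241) (nat_lit 677582165103132179601393696)) (.cons (.rf (nat_lit 2241)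 (nat_lit 640105464695078675185502240)) .nil))) .nil))) .nil))) .nil))) (.cons (.rf (nat_lit 2239) (nat_lit 531576755861052332389)) (.cons (.br (nat_lit 12) (nat_lit 0) (.cons (.ev (nat_lit 318771982819263020698175931911) (nat_lit 3)) (.cons (.ev (nat_lit 20769504973017794058451284264093187) (nat_lit 3)) (.cons (.br (nat_lit 13) (nat_lit 0) (.cons (.ev (nat_lit 20769188060367662927020156118237703) (nat_lit 3)) (.cons (.kr (nat_lit 40564819212025851447056030367745) (nat_lit 159077712918257338656646758400) (nat_lit 0) (nat_lit 1)) (.cons (.br (nat_lit 14) (nat_lit 0) (.cons (.kr (nat_lit 5192296858534846075556045015482624) (nat_lit 79538856449905297291460214784) (nat_lit 1) (nat_lit 0)) (.cons (.kr (nat_lit 40564819212025851447056030367745) (nat_lit 10384593717069710597856163757294080) (nat_lit 0) (nat_lit 10)) (.cons (.br (nat_lit 15) (nat_lit 0) (.cons (.rf (nat_lit 2242) (nat_lit 677582165103132179601393696)) (.cons (.br (nat_lit 15) (nat_lit 0) (.cons (.rf (nat_lit 2242) (nat_lit 677582165103132179601393696)) .nil)) .nil)))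 .nil)))) .nil)))) .nil)))) (.cons (.br (nat_lit 12) (nat_lit 0) (.cons (.br (nat_lit 14) (nat_lit 0) (.cons (.rf (nat_lit 2243) (nat_lit 583706118939841765935136)) (.cons (.br (nat_lit 14) (nat_lit 0) (.cons (.rf (nat_lit 2243) (nat_lit 583706118939841765935136)) (.cons (.br (nat_lit 15) (nat_lit 0) (.cons (.rf (nat_lit 2244) (nat_lit 677582165103132179601393696)) (.cons (.rf (nat_lit 2244) (nat_lit 640105464695078675185502240)) .nil))) .nil))) .nil))) (.cons (.br (nat_lit 13) (nat_lit 0) (.cons (.ev (nat_lit 5212658497514641821729704487419905) (nat_lit 1)) (.cons (.kr (nat_lit 40564819212025851447056030367745) (nat_lit 159077712918257338656646758400) (nat_lit 0) (nat_lit 1)) (.cons (.br (nat_lit 14) (nat_lit 0) (.cons (.rf (nat_lit 1834) (nat_lit 622667985282650865763392)) (.cons (.br (nat_lit 16) (nat_lit 0) (.cons (.ev (nat_lit 680575118436212971342462756999366049793) (nat_lit 2)) (.cons (.rf (nat_lit 175) (nat_lit 629888647674692934)) .nil))) (.cons (.br (nat_lit 15) (nat_lit 0) (.cons (.rf (nat_lit 2245) (nat_lit 677582165103132179601393696))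 (.cons (.br (nat_lit 15) (nat_lit 0) (.cons (.rf (nat_lit 2245) (nat_lit 677582165103132179601393696)) .nil)) .nil))) .nil)))) .nil)))) (.cons (.br (nat_lit 13) (nat_lit 0) (.cons (.br (nat_lit 14) (nat_lit 0) (.cons (.ev (nat_lit 124737620645563466230903398720472069) (nat_lit 5)) (.cons (.br (nat_lit 15) (nat_lit 0) (.cons (.ev (nat_lit 13323474463528351954086087194115572747) (nat_lit 4)) (.cons (.rf (nat_lit 166) (nat_lit 596110584508160065)) .nil))) .nil))) (.cons (.ev (nat_lit 2658456150028579403682234769218863617) (nat_lit 2)) (.cons (.br (nat_lit 15) (nat_lit 0) (.cons (.br (nat_lit 14) (nat_lit 0) (.cons (.ev (nat_lit 10425159155251756091993365860581377) (nat_lit 2)) (.cons (.rf (nat_lit 167) (nat_lit 631013481620281409)) .nil))) (.cons (.br (nat_lit 16) (nat_lit 0) (.cons (.ev (nat_lit 341611594996261031601249664270493286400) (nat_lit 1)) (.cons (.rf (nat_lit 175) (nat_lit 628797932135875910)) .nil))) (.cons (.rf (nat_lit 1330) (nat_lit 20002152068944399096260644)) .nil)))) .nil)))) (.cons (.br (nat_lit 13) (nat_lit 0)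 (.cons (.br (nat_lit 14) (nat_lit 0) (.cons (.rf (nat_lit 2246) (nat_lit 19926519232773908561233952)) (.cons (.br (nat_lit 16) (nat_lit 0) (.cons (.ev (nat_lit 680575118436212971342462756999366049793) (nat_lit 2)) (.cons (.rf (nat_lit 175) (nat_lit 629888681229129793)) .nil))) (.cons (.br (nat_lit 15) (nat_lit 0) (.cons (.rf (nat_lit 2247) (nat_lit 677582165103132179601393696)) (.cons (.br (nat_lit 15) (nat_lit 0) (.cons (.rf (nat_lit 2247) (nat_lit 677582165103132179601393696)) .nil)) .nil))) .nil)))) (.cons (.br (nat_lit 14) (nat_lit 0) (.cons (.br (nat_lit 14) (nat_lit 0) (.cons (.ev (nat_lit 10384752792369481279257699902554627) (nat_lit 2)) (.cons (.rf (nat_lit 167) (nat_lit 631013448065844550)) .nil))) (.cons (.rf (nat_lit 2248) (nat_lit 19926519232773908561233952)) (.cons (.br (nat_lit 14) (nat_lit 0) (.cons (.rf (nat_lit 167) (nat_lit 631013448065844550)) (.cons (.rf (nat_lit 2248) (nat_lit 19926519232773908561233952)) .nil))) .nil)))) (.cons (.br (nat_lit 16) (nat_lit 0) (.cons (.kr (nat_lit 20282409603651742481541289279488)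 (nat_lit 340282366920938463481821351505494540288) (nat_lit 2) (nat_lit 0)) (.cons (.kr (nat_lit 680564733841876931667562442910697783297) (nat_lit 159077712899810594582903652352) (nat_lit 0) (nat_lit 1)) (.cons (.rf (nat_lit 1828) (nat_lit 21137844319196520533559328)) .nil)))) (.cons (.br (nat_lit 14) (nat_lit 0) (.cons (.br (nat_lit 14) (nat_lit 0) (.cons (.ev (nat_lit 10384752792369481279257699902554627) (nat_lit 2)) (.cons (.ev (nat_lit 10425159155251756091993365860581377) (nat_lit 2)) .nil))) (.cons (.rf (nat_lit 2249) (nat_lit 677582165103132179601393696)) (.cons (.br (nat_lit 14) (nat_lit 0) (.cons (.ev (nat_lit 10425159155251756091993365860581377) (nat_lit 2)) (.cons (.rf (nat_lit 2249) (nat_lit 677582165103132179601393696)) .nil))) .nil)))) .nil))))) .nil))))) .nil))))) .nil))))),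
 (.br (nat_lit 15) (nat_lit 0) (.cons (.ev (nat_lit 5337762300838445835299150857301524999) (nat_lit 3)) (.cons (.rf (nat_lit 170) (nat_lit 596110584541554753)) .nil))),
 (.br (nat_lit 15) (nat_lit 0) (.cons (.ev (nat_lit 5337762300838445835299150857301524999) (nat_lit 3)) (.cons (.br (nat_lit 16) (nat_lit 0) (.cons (.ev (nat_lit 1361129549130931146943725580732044804611) (nat_lit 3)) (.cons (.ev (nat_lit 1366446379668752850033821708256167461379) (nat_lit 3)) .nil))) .nil))),
 (.br (nat_lit 15) (nat_lit 0) (.cons (.br (nat_lit 16) (nat_lit 0) (.cons (.ev (nat_lit 88137125929169226197413795244209225138434) (nat_lit 2)) .nil)) .nil)),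
 (.br (nat_lit 13) (nat_lit 0) (.cons (.ev (nat_lit 5212658497514641821729704487419905) (nat_lit 1)) (.cons (.ev (nat_lit 40723894507129363607560256487427) (nat_lit 2)) (.cons (.br (nat_lit 14) (nat_lit 0) (.cons (.br (nat_lit 15) (nat_lit 0) (.cons (.kr (nat_lit 10425158536281680964392856317853699) (nat_lit 2658456150026156792783033385703440384) (nat_lit 0) (nat_lit 1)) (.cons (.rf (nat_lit 166) (nat_lit 631046501232351297)) .nil))) (.cons (.br (nat_lit 16) (nat_lit 0) (.cons (.kr (nat_lit 10384594338457526538980388457414657) (nat_lit 680564733841876931667562442910714560512) (nat_lit 0) (nat_lit 1)) (.cons (.rf (nat_lit 175) (nat_lit 629853464376444134)) .nil))) (.cons (.br (nat_lit 15) (nat_lit 0) (.cons (.rf (nat_lit 2253) (nat_lit 677582165103132179601393696)) (.cons (.br (nat_lit 15) (nat_lit 0) (.cons (.rf (nat_lit 2253) (nat_lit 677582165103132179601393696)) .nil)) .nil))) .nil)))) .nil)))),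
 (.br (nat_lit 13) (nat_lit 0) (.cons (.kr (nat_lit 2668840585286901419511419191223648257) (nat_lit 40723275537054236007050764091392) (nat_lit 0) (nat_lit 1)) (.cons (.br (nat_lit 16) (nat_lit 0) (.cons (.kr (nat_lit 10384594338457526538980388457414657) (nat_lit 680564733841876931667562442910714560512) (nat_lit 0) (nat_lit 1)) (.cons (.ev (nat_lit 680564774407315108990545980942700380673) (nat_lit 2)) .nil))) .nil))),
 (.br (nat_lit 15) (nat_lit 0) (.cons (.ev (nat_lit 2658456150028579403682234769218863617) (nat_lit 2)) (.cons (.ev (nat_lit 1334420372181098243064764296899657985) (nat_lit 1)) (.cons (.br (nat_lit 13) (nat_lit 0) (.cons (.br (nat_lit 13) (nat_lit 0) (.cons (.kr (nat_lit 2668840585286901419511419191223648257) (nat_lit 40723275537054236007050764091392) (nat_lit 0) (nat_lit 1)) (.cons (.rf (nat_lit 166) (nat_lit 630978331510413377)) .nil))) (.cons (.rf (nat_lit 2255) (nat_lit 19926519232773908561233952)) (.cons (.br (nat_lit 13) (nat_lit 0) (.cons (.rf (nat_lit 166) (nat_lit 630978331510413377)) (.cons (.rf (nat_lit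 2255) (nat_lit 19926519232773908561233952)) .nil))) .nil)))) .nil)))),
 (.br (nat_lit 13) (nat_lit 0) (.cons (.ev (nat_lit 680575159159488503674331717122413167107) (nat_lit 2)) (.cons (.br (nat_lit 15) (nat_lit 0) (.cons (.ev (nat_lit 683233574585622575948939700607433834497) (nat_lit 2)) (.cons (.kr (nat_lit 40564819212025707331863659413505) (nat_lit 2658455991569831764254358198581985280) (nat_lit 0) (nat_lit 1)) .nil))) .nil))),
 (.br (nat_lit 13) (nat_lit 0) (.cons (.br (nat_lit 15) (nat_lit 0) (.cons (.kr (nat_lit 340282387203348071837411515348176338945) (nat_lit 1329228075323772322809104351740559360) (nat_lit 0) (nat_lit 1)) (.cons (.rf (nat_lit 295) (nat_lit 624992315735281295989093)) .nil))) (.cons (.br (nat_lit 15) (nat_lit 0) (.cons (.rf (nat_lit 296) (nat_lit 19531009866727771380069)) (.cons (.kr (nat_lit 87112285952042656254997936410449070260224) (nat_lit 1334420292954144636173297254509051904) (nat_lit 5) (nat_lit 0)) .nil))) .nil))),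
 (.br (nat_lit 13) (nat_lit 0) (.cons (.rf (nat_lit 2258) (nat_lit 677582165103132179601393696)) (.cons (.br (nat_lit 15) (nat_lit 0) (.cons (.kr (nat_lit 680564733841876931667562442910697783297) (nat_lit 159077712899810594582903652352) (nat_lit 0) (nat_lit 1)) (.cons (.kr (nat_lit 10384594338457526538980388457414657) (nat_lit 174224571863520493297988612233112502403072) (nat_lit 0) (nat_lit 1)) .nil))) .nil))),
 (.br (nat_lit 16) (nat_lit 0) (.cons (.ev (nat_lit 680575159158871951506472371439978676737) (nat_lit 2)) .nil)),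
 (.br (nat_lit 13) (nat_lit 0) (.cons (.ev (nat_lit 20282410817299928861614597472256) (nat_lit 1)) (.cons (.br (nat_lit 14) (nat_lit 0) (.cons (.br (nat_lit 15) (nat_lit 0) (.cons (.kr (nat_lit 2658455992191219635536277590085992449) (nat_lit 40564819212025851447056030367744) (nat_lit 0) (nat_lit 1)) (.cons (.rf (nat_lit 284) (nat_lit 631010252776900650)) .nil))) (.cons (.br (nat_lit 15) (nat_lit 0) (.cons (.ev (nat_lit 680575118436212971379499797376317522433) (nat_lit 2)) (.cons (.br (nat_lit 15) (nat_lit 0) (.cons (.ev (nat_lit 680575118436212971379499797376317522433) (nat_lit 2)) .nil)) .nil))) (.cons (.br (nat_lit 15) (nat_lit 0) (.cons (.rf (nat_lit 2260) (nat_lit 677582165103132179601393696)) (.cons (.br (nat_lit 15) (nat_lit 0) (.cons (.rf (nat_lit 2260) (nat_lit 677582165103132179601393696)) .nil)) .nil))) .nil)))) .nil))),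
 (.br (nat_lit 15) (nat_lit 0) (.cons (.ev (nat_lit 1334420372181098243064764296899657985) (nat_lit 1)) (.cons (.ev (nat_lit 1334440575054263278022376133052399873) (nat_lit 1)) .nil))),
 (.br (nat_lit 14) (nat_lit 0) (.cons (.rf (nat_lit 2262) (nat_lit 677582165103132179601393696)) (.cons (.rf (nat_lit 2262) (nat_lit 640105464695078675185502240)) .nil))),
 (.br (nat_lit 14) (nat_lit 0) (.cons (.rf (nat_lit 2263) (nat_lit 677582165103132179601393696)) (.cons (.kr (nat_lit 10384594338457526538980392769159169) (nat_lit 40564819212044154638887322386944) (nat_lit 0) (nat_lit 2)) .nil))),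
 (.br (nat_lit 13) (nat_lit 0) (.cons (.ev (nat_lit 5192296859743753448426604775669761) (nat_lit 1)) (.cons (.br (nat_lit 14) (nat_lit 0) (.cons (.ev (nat_lit 10425158538699587944417290094772227) (nat_lit 2)) (.cons (.br (nat_lit 15) (nat_lit 0) (.cons (.ev (nat_lit 18619617261700084806624576179658032131) (nat_lit 4)) (.cons (.rf (nat_lit 166) (nat_lit 631047566514137153)) .nil))) .nil))) (.cons (.br (nat_lit 14) (nat_lit 0) (.cons (.br (nat_lit 15) (nat_lit 0) (.cons (.ev (nat_lit 1329248357732171789545199306721460480) (nat_lit 1)) (.cons (.rf (nat_lit 167) (nat_lit 631047566514137153)) .nil))) (.cons (.ev (nat_lit 10425158538699587944417290094772227) (nat_lit 2)) (.cons (.rf (nat_lit 711) (nat_lit 21173297838529756410293573)) .nil)))) .nil))))]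

theorem c87 : chkAll C T R L87 (nat_lit 2240) = true := by decide +kernel

theorem l87 : (nat_lit 2240) + L87.length = (nat_lit 2266) := by decide +kernel

/-- part of the certificates -/
def L88 : List Prf := [(.br (nat_lit 14) (nat_lit 0) (.cons (.br (nat_lit 15) (nat_lit 0) (.cons (.ev (nat_lit 340282387203657556847305198386420908288) (nat_lit 1)) .nil)) .nil)),
 (.br (nat_lit 14) (nat_lit 0) (.cons (.rf (nat_lit 2246) (nat_lit 19926519088438789307270212)) (.cons (.ev (nat_lit 10384752792369444242217322951081987) (nat_lit 2)) (.cons (.br (nat_lit 15) (nat_lit 0) (.cons (.rf (nat_lit 2266) (nat_lit 21174442659472880611461152)) (.cons (.br (nat_lit 15) (nat_lit 0) (.cons (.rf (nat_lit 2266) (nat_lit 21174442659472880611461152)) .nil)) .nil))) .nil)))),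
 (.br (nat_lit 14) (nat_lit 0) (.cons (.ev (nat_lit 680575118436212971379499797376317522433) (nat_lit 2)) (.cons (.br (nat_lit 15) (nat_lit 0) (.cons (.ev (nat_lit 683223189834065733433013310127268298753) (nat_lit 2)) (.cons (.br (nat_lit 16) (nat_lit 0) (.cons (.ev (nat_lit 1379811514358825482766664133328044297227) (nat_lit 4)) .nil)) .nil))) .nil))),
 (.br (nat_lit 16) (nat_lit 0) (.cons (.ev (nat_lit 683233574587479486118548235487810029057) (nat_lit 3)) (.cons (.ev (nat_lit 340287579500516086952566964542423171328) (nat_lit 1)) .nil))),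
 (.br (nat_lit 14) (nat_lit 0) (.cons (.rf (nat_lit 2269) (nat_lit 677582165103132179601393696)) (.cons (.br (nat_lit 15) (nat_lit 0) (.cons (.rf (nat_lit 2269) (nat_lit 677545566762744771168535616)) (.cons (.kr (nat_lit 2668840585908289272346594509018103809) (nat_lit 348449143727040986591236411238177826668544) (nat_lit 0) (nat_lit 1)) .nil))) .nil))),
 (.br (nat_lit 15) (nat_lit 0) (.cons (.ev (nat_lit 1329248357423890964730240828599959808) (nat_lit 1)) .nil)),
 (.br (nat_lit 13) (nat_lit 0) (.cons (.ev (nat_lit 31154256525024606129922512607512071) (nat_lit 3)) (.cons (.ev (nat_lit 40723894507129363607560256487427) (nat_lit 2)) (.cons (.br (nat_lit 14) (nat_lit 0) (.cons (.ev (nat_lit 5192534858585084859185366116270593) (nat_lit 3)) (.cons (.ev (nat_lit 10425158538699587944417290094772227) (nat_lit 2)) (.cons (.br (nat_lit 15) (nat_lit 0) (.cons (.rf (nat_lit 2271) (nat_lit 21174442659472845144426528)) (.cons (.br (nat_lit 15) (nat_lit 0) (.cons (.rf (nat_lit 2271) (nat_lit 21174442659472845144426528)) .nil)) .nil))) .nil))))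 .nil)))),
 (.br (nat_lit 13) (nat_lit 0) (.cons (.br (nat_lit 15) (nat_lit 0) (.cons (.kr (nat_lit 2668840585286901419511419191223648257) (nat_lit 40723275537054236007050764091392) (nat_lit 0) (nat_lit 1)) (.cons (.rf (nat_lit 239) (nat_lit 631046501362116801)) .nil))) .nil)),
 (.br (nat_lit 15) (nat_lit 0) (.cons (.ev (nat_lit 1344865813747172003004796209916347139) (nat_lit 2)) .nil)),
 (.br (nat_lit 16) (nat_lit 0) (.cons (.ev (nat_lit 1334420372181098243064764296899657985) (nat_lit 1)) (.cons (.ev (nat_lit 680564774407315108990545980942700380673) (nat_lit 2)) .nil))),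
 (.br (nat_lit 13) (nat_lit 0) (.cons (.kr (nat_lit 5192296858534827700588094662180864) (nat_lit 79538856449905297291460214784) (nat_lit 2) (nat_lit 0)) (.cons (.ev (nat_lit 1329227995786129521161963256961564928) (nat_lit 1)) (.cons (.br (nat_lit 13) (nat_lit 0) (.cons (.kr (nat_lit 5192296858534827700588094662180864) (nat_lit 79538856449905297291460214784) (nat_lit 2) (nat_lit 0)) (.cons (.ev (nat_lit 1329227995786129521161963256961564928) (nat_lit 1)) (.cons (.br (nat_lit 14) (nat_lit 0) (.cons (.ev (nat_lit 10384753411339574853602270219601415) (nat_lit 3)) (.cons (.rf (nat_lit 2275) (nat_lit 677582165103132179601393696)) (.cons (.rf (nat_lit 2275) (nat_lit 640105464695078675185502240)) .nil)))) .nil)))) .nil)))),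
 (.br (nat_lit 13) (nat_lit 0) (.cons (.kr (nat_lit 680564733841876931667562442910697783297) (nat_lit 159077712899810594582903652352) (nat_lit 0) (nat_lit 1)) (.cons (.br (nat_lit 15) (nat_lit 0) (.cons (.kr (nat_lit 680564733841876931667562442906419593217) (nat_lit 10384593717069655401176185029394432) (nat_lit 0) (nat_lit 1)) (.cons (.ev (nat_lit 5327378183102067656132670003532269059) (nat_lit 3)) .nil))) .nil))),
 (.br (nat_lit 13) (nat_lit 0) (.cons (.br (nat_lit 16) (nat_lit 0) (.cons (.ev (nat_lit 683223189834065733433013310127268298753) (nat_lit 2)) (.cons (.ev (nat_lit 340287579500516086952566964542423171328) (nat_lit 1)) .nil))) (.cons (.br (nat_lit 15) (nat_lit 0) (.cons (.rf (nat_lit 296) (nat_lit 19531009866727907694819)) (.cons (.ev (nat_lit 174224571904085931475311595771144488223233) (nat_lit 2)) .nil))) .nil))),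
 (.br (nat_lit 13) (nat_lit 0) (.cons (.rf (nat_lit 2278) (nat_lit 677582165103132179601393696)) (.cons (.br (nat_lit 16) (nat_lit 0) (.cons (.ev (nat_lit 340287579500516086952566964542423171328) (nat_lit 1)) (.cons (.ev (nat_lit 174224571904085931475311595771144488223233) (nat_lit 2)) .nil))) .nil))),
 (.br (nat_lit 12) (nat_lit 0) (.cons (.rf (nat_lit 2272) (nat_lit 583706118939841765935136)) (.cons (.br (nat_lit 13) (nat_lit 0) (.cons (.rf (nat_lit 2273) (nat_lit 583706118939841765935136)) (.cons (.br (nat_lit 13) (nat_lit 0) (.cons (.rf (nat_lit 2273) (nat_lit 583706118939841765935136)) (.cons (.br (nat_lit 15) (nat_lit 0) (.cons (.rf (nat_lit 2274) (nat_lit 677582165103132179601393696)) (.cons (.rf (nat_lit 2274) (nat_lit 640105464695078675185502240)) .nil))) .nil))) .nil))) (.cons (.rf (nat_lit 2276) (nat_lit 583706118939841765935136)) (.cons (.br (nat_lit 14) (nat_lit 0) (.cons (.rf (nat_lit 2276) (nat_lit 505862837120936461872325)) (.cons (.rf (nat_lit 2272) (nat_lit 505862837120936461872325)) (.cons (.br (nat_lit 13)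 (nat_lit 0) (.cons (.rf (nat_lit 2277) (nat_lit 19926519232773908561233952)) (.cons (.kr (nat_lit 680564733841876931667562442910697783297) (nat_lit 159077712899810594582903652352) (nat_lit 0) (nat_lit 1)) (.cons (.br (nat_lit 13) (nat_lit 0) (.cons (.rf (nat_lit 2277) (nat_lit 19926519232773908561233952)) (.cons (.kr (nat_lit 680564733841876931667562442910697783297) (nat_lit 159077712899810594582903652352) (nat_lit 0) (nat_lit 1)) .nil))) .nil)))) (.cons (.br (nat_lit 13) (nat_lit 0) (.cons (.rf (nat_lit 2278) (nat_lit 677582165103132179601393696)) (.cons (.rf (nat_lit 2279) (nat_lit 677582165103132179601393696)) (.cons (.br (nat_lit 13) (nat_lit 0) (.cons (.rf (nat_lit 2278) (nat_lit 677582165103132179601393696)) (.cons (.rf (nat_lit 2279) (nat_lit 677582165103132179601393696)) .nil))) .nil)))) .nil))))) .nil))))),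
 (.br (nat_lit 14) (nat_lit 0) (.cons (.ev (nat_lit 5212737729299230058924237809451522) (nat_lit 3)) (.cons (.ev (nat_lit 10384752792369444242217322951081987) (nat_lit 2)) (.cons (.rf (nat_lit 1855) (nat_lit 21172119522606977487308832)) .nil)))),
 (.br (nat_lit 14) (nat_lit 0) (.cons (.ev (nat_lit 340287579500516086952566964542423171328) (nat_lit 1)) (.cons (.br (nat_lit 15) (nat_lit 0) (.cons (.ev (nat_lit 341611615199442472720136948956453208065) (nat_lit 1)) (.cons (.ev (nat_lit 2668881309181408493390116379437433347) (nat_lit 2)) .nil))) .nil))),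
 (.br (nat_lit 14) (nat_lit 0) (.cons (.br (nat_lit 15) (nat_lit 0) (.cons (.ev (nat_lit 341616787213891403914613857173295333377) (nat_lit 1)) (.cons (.ev (nat_lit 2668881309181408493390116379437433347) (nat_lit 2)) .nil))) (.cons (.br (nat_lit 15) (nat_lit 0) (.cons (.ev (nat_lit 2668881309181408493390116379437433347) (nat_lit 2)) (.cons (.ev (nat_lit 87113620372414529072434705299406260797440) (nat_lit 1)) .nil))) .nil))),
 (.br (nat_lit 14) (nat_lit 0) (.cons (.rf (nat_lit 2283) (nat_lit 677582165103132179601393696)) (.cons (.br (nat_lit 15) (nat_lit 0) (.cons (.ev (nat_lit 2722269604233745718304491258961324936715) (nat_lit 4)) (.cons (.ev (nat_lit 696898297961325225863309029525079254371851) (nat_lit 4)) .nil))) .nil))),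
 (.br (nat_lit 13) (nat_lit 0) (.cons (.ev (nat_lit 20282410812596009121723461926913) (nat_lit 1)) (.cons (.br (nat_lit 14) (nat_lit 0) (.cons (.kr (nat_lit 10384594338457526538980392769159169) (nat_lit 40564819212044154638887322386944) (nat_lit 0) (nat_lit 2)) (.cons (.ev (nat_lit 340287579500516086952566964542423171328) (nat_lit 1)) (.cons (.br (nat_lit 15) (nat_lit 0) (.cons (.kr (nat_lit 40564819212025707331863659413505) (nat_lit 680564733841876926945195958941557719040) (nat_lit 0) (nat_lit 1)) (.cons (.ev (nat_lit 2668881309181408493390116379437433347) (nat_lit 2)) .nil))) .nil)))) (.cons (.br (nat_lit 14) (nat_lit 0) (.cons (.rf (nat_lit 214) (nat_lit 630978331477875777)) (.cons (.br (nat_lit 15) (nat_lit 0) (.cons (.ev (nat_lit 696546623576165786929460276984290082821) (nat_lit 4)) (.cons (.ev (nat_lit 2668881309181408493390116379437433347) (nat_lit 2)) .nil))) (.cons (.br (nat_lit 15) (nat_lit 0) (.cons (.ev (nat_lit 2668881309181408493390116379437433347) (nat_lit 2)) (.cons (.ev (nat_lit 87113620372414529072434705299406260797440)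 (nat_lit 1)) .nil))) .nil)))) .nil)))),
 (.br (nat_lit 13) (nat_lit 0) (.cons (.ev (nat_lit 5192296859748494261654643363872768) (nat_lit 1)) (.cons (.rf (nat_lit 2285) (nat_lit 19926519232773908561233952)) (.cons (.br (nat_lit 14) (nat_lit 0) (.cons (.br (nat_lit 16) (nat_lit 0) (.cons (.ev (nat_lit 2658456150645131571829810827804803587) (nat_lit 2)) (.cons (.kr (nat_lit 40564819212025707331863659413505) (nat_lit 680564733841876926945195958941557719040) (nat_lit 0) (nat_lit 1)) .nil))) (.cons (.rf (nat_lit 214) (nat_lit 629853531078470721)) (.cons (.kr (nat_lit 10384594338457526538980392769159169) (nat_lit 40564819212044154638887322386944) (nat_lit 0) (nat_lit 2)) .nil)))) .nil)))),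
 (.br (nat_lit 13) (nat_lit 0) (.cons (.ev (nat_lit 5192296859748494261654643363872768) (nat_lit 1)) (.cons (.rf (nat_lit 2285) (nat_lit 19926519232773908561233952)) (.cons (.rf (nat_lit 2286) (nat_lit 19926519232773908561233952)) (.cons (.br (nat_lit 13) (nat_lit 0) (.cons (.ev (nat_lit 5192296859748494261654643363872768) (nat_lit 1)) (.cons (.rf (nat_lit 2285) (nat_lit 19926519232773908561233952)) (.cons (.rf (nat_lit 2286) (nat_lit 19926519232773908561233952)) .nil)))) .nil))))),
 (.br (nat_lit 13) (nat_lit 0) (.cons (.ev (nat_lit 20282410812596009121723461926913) (nat_lit 1)) (.cons (.ev (nat_lit 680564734000335674584623835512194597377) (nat_lit 2)) (.cons (.br (nat_lit 14) (nat_lit 0) (.cons (.br (nat_lit 16) (nat_lit 0) (.cons (.ev (nat_lit 13344203564599855627322868239148778511) (nat_lit 4)) (.cons (.ev (nat_lit 340287579500516091693380192580977819905) (nat_lit 1)) .nil))) (.cons (.rf (nat_lit 214) (nat_lit 629851400942458945)) (.cons (.br (nat_lit 16) (nat_lit 0) (.cons (.ev (nat_lit 340287579500516091693380192580977819905)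 (nat_lit 1)) (.cons (.ev (nat_lit 174224571904085931475311595771144488223233) (nat_lit 2)) .nil))) .nil)))) .nil)))),
 (.br (nat_lit 13) (nat_lit 0) (.cons (.ev (nat_lit 20282410812596009121723461926913) (nat_lit 1)) (.cons (.br (nat_lit 14) (nat_lit 0) (.cons (.br (nat_lit 16) (nat_lit 0) (.cons (.ev (nat_lit 2724969314329536727712532427736028023823) (nat_lit 4)) (.cons (.ev (nat_lit 680575159158871951506472371439978676737) (nat_lit 2)) .nil))) (.cons (.kr (nat_lit 40564819212025707331863659413505) (nat_lit 680564733841876926945195958941557719040) (nat_lit 0) (nat_lit 1)) (.cons (.br (nat_lit 16) (nat_lit 0) (.cons (.ev (nat_lit 680575159158871951506472371439978676737) (nat_lit 2)) (.cons (.ev (nat_lit 87112285952121885621715653878702632141056) (nat_lit 1)) .nil))) .nil)))) (.cons (.br (nat_lit 17) (nat_lit 0) (.cons (.rf (nat_lit 802) (nat_lit 631047533228132394)) (.cons (.br (nat_lit 15) (nat_lit 0) (.cons (.ev (nat_lit 87113620372414529072434705299406260797440) (nat_lit 1)) (.cons (.ev (nat_lit 2658456150645131571829810827804803587)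 (nat_lit 2)) .nil))) (.cons (.kr (nat_lit 174224571863520493297988612233112485625857) (nat_lit 159077712899810594582903652352) (nat_lit 0) (nat_lit 1)) .nil)))) .nil)))),
 (.br (nat_lit 17) (nat_lit 0) (.cons (.ev (nat_lit 10384752792369444242217322951081987) (nat_lit 2)) (.cons (.ev (nat_lit 87452568298760722757611432131695730491393) (nat_lit 1)) .nil))),
 (.br (nat_lit 13) (nat_lit 0) (.cons (.rf (nat_lit 2289) (nat_lit 677582165103132179601393696)) (.cons (.rf (nat_lit 2289) (nat_lit 677545566762744771168535616)) (.cons (.br (nat_lit 16) (nat_lit 0) (.cons (.rf (nat_lit 2290) (nat_lit 677582165103132179601393696)) (.cons (.rf (nat_lit 2290) (nat_lit 677545566762744771168535616)) (.cons (.kr (nat_lit 87112285952042656254997936410449070260225) (nat_lit 340282367000477319913279904723228426240) (nat_lit 0) (nat_lit 1)) .nil)))) .nil)))),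
 (.br (nat_lit 10) (nat_lit 0) (.cons (.rf (nat_lit 2230) (nat_lit 254559150342833476)) (.cons (.rf (nat_lit 2230) (nat_lit 217404487638485320)) (.cons (.ev (nat_lit 618974760455918184661385729) (nat_lit 2)) (.cons (.ev (nat_lit 79229371440083952222718722304) (nat_lit 1)) (.cons (.br (nat_lit 6) (nat_lit 0) (.cons (.kr (nat_lit 18447025548686262528) (nat_lit 72057598332960768) (nat_lit 1) (nat_lit 0)) (.cons (.rf (nat_lit 2126) (nat_lit 80230608641600709)) (.cons (.rf (nat_lit 2239) (nat_lit 493858305440582043680)) (.cons (.rf (nat_lit 2250) (nat_lit 493858305440582043680)) (.cons (.br (nat_lit 7) (nat_lit 0) (.cons (.rf (nat_lit 2126) (nat_lit 42930777254800617)) (.cons (.rf (nat_lit 2239) (nat_lit 493858160271899591744)) (.cons (.rf (nat_lit 2250) (nat_lit 493858160271899591744)) (.cons (.br (nat_lit 11) (nat_lit 0) (.cons (.ev (nat_lit 79537652264971249778444730368) (nat_lit 1)) (.cons (.br (nat_lit 12) (nat_lit 0) (.cons (.ev (nat_lit 20521023755205231996935308574722) (nat_lit 2)) (.cons (.ev (nat_lit 318771982819263020698175931911)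 (nat_lit 3)) (.cons (.br (nat_lit 14) (nat_lit 0) (.cons (.ev (nat_lit 5253144400457588511413510382551043) (nat_lit 2)) (.cons (.ev (nat_lit 20769506206122056279522647533027847) (nat_lit 3)) (.cons (.br (nat_lit 13) (nat_lit 0) (.cons (.rf (nat_lit 2251) (nat_lit 19926519232773908561233952)) (.cons (.rf (nat_lit 2251) (nat_lit 18753013432686651766742211)) (.cons (.br (nat_lit 15) (nat_lit 0) (.cons (.rf (nat_lit 2252) (nat_lit 19926519232773908561233952)) (.cons (.br (nat_lit 15) (nat_lit 0) (.cons (.rf (nat_lit 2252) (nat_lit 19926519232773908561233952)) .nil)) .nil))) .nil)))) .nil)))) .nil)))) (.cons (.ev (nat_lit 5192297168024578335442681246777345) (nat_lit 1)) (.cons (.br (nat_lit 12) (nat_lit 0) (.cons (.rf (nat_lit 2254) (nat_lit 583706118939841765935136)) (.cons (.kr (nat_lit 5192296858534827628530496329220097) (nat_lit 79228162514264337593560727552) (nat_lit 0) (nat_lit 1)) (.cons (.rf (nat_lit 2256) (nat_lit 583706118939841765935136)) (.cons (.br (nat_lit 14) (nat_lit 0) (.cons (.rf (nat_lit 2256) (nat_lit 505863129854637499227331))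 (.cons (.rf (nat_lit 2254) (nat_lit 505863129854637499227331)) (.cons (.br (nat_lit 13) (nat_lit 0) (.cons (.rf (nat_lit 2257) (nat_lit 19926519232773908561233952)) (.cons (.br (nat_lit 13) (nat_lit 0) (.cons (.ev (nat_lit 680575159159488503674331717122413167107) (nat_lit 2)) (.cons (.rf (nat_lit 172) (nat_lit 629853531116214337)) .nil))) (.cons (.br (nat_lit 13) (nat_lit 0) (.cons (.rf (nat_lit 2257) (nat_lit 19926519232773908561233952)) (.cons (.rf (nat_lit 172) (nat_lit 629853531116214337)) .nil))) .nil)))) (.cons (.br (nat_lit 13) (nat_lit 0) (.cons (.rf (nat_lit 2258) (nat_lit 677582165103132179601393696)) (.cons (.rf (nat_lit 2259) (nat_lit 677582165103132179601393696)) (.cons (.br (nat_lit 13) (nat_lit 0) (.cons (.rf (nat_lit 2258) (nat_lit 677582165103132179601393696)) (.cons (.rf (nat_lit 2259) (nat_lit 677582165103132179601393696)) .nil))) .nil)))) .nil))))) .nil))))) .nil))))) (.cons (.br (nat_lit 11) (nat_lit 0) (.cons (.br (nat_lit 13) (nat_lit 0) (.cons (.rf (nat_lit 2261) (nat_lit 583706118939841765935136)) (.cons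 (.rf (nat_lit 2261) (nat_lit 547107778552433333077056)) (.cons (.br (nat_lit 13) (nat_lit 0) (.cons (.rf (nat_lit 2261) (nat_lit 583706118939841765935136)) (.cons (.rf (nat_lit 2261) (nat_lit 547107778552433333077056)) (.cons (.br (nat_lit 14) (nat_lit 0) (.cons (.rf (nat_lit 2263) (nat_lit 677582165103132179601393696)) (.cons (.rf (nat_lit 2264) (nat_lit 677582165103132179601393696)) (.cons (.rf (nat_lit 2264) (nat_lit 640105464695078675185502240)) .nil)))) .nil)))) .nil)))) (.cons (.br (nat_lit 12) (nat_lit 0) (.cons (.ev (nat_lit 20520407217148843077591619469827) (nat_lit 2)) (.cons (.rf (nat_lit 2265) (nat_lit 583706118939841765935136)) (.cons (.rf (nat_lit 2265) (nat_lit 547107778552433333077056)) (.cons (.br (nat_lit 13) (nat_lit 0) (.cons (.rf (nat_lit 2267) (nat_lit 19926519232773908561233952)) (.cons (.rf (nat_lit 2267) (nat_lit 19889920892386500128375872)) (.cons (.br (nat_lit 14) (nat_lit 0) (.cons (.rf (nat_lit 2268) (nat_lit 19926519232773908561233952)) (.cons (.br (nat_lit 14) (nat_lit 0) (.cons (.ev (nat_lit 680575118436212971379499797376317522433)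 (nat_lit 2)) (.cons (.rf (nat_lit 172) (nat_lit 629888681258461249)) .nil))) (.cons (.br (nat_lit 14) (nat_lit 0) (.cons (.rf (nat_lit 2268) (nat_lit 19926519232773908561233952)) (.cons (.rf (nat_lit 172) (nat_lit 629888681258461249)) .nil))) .nil)))) (.cons (.br (nat_lit 14) (nat_lit 0) (.cons (.rf (nat_lit 2270) (nat_lit 677582165103132179601393696)) (.cons (.br (nat_lit 14) (nat_lit 0) (.cons (.rf (nat_lit 2270) (nat_lit 677582165103132179601393696)) (.cons (.ev (nat_lit 5212658805790725751402554294599680) (nat_lit 1)) .nil))) (.cons (.br (nat_lit 14) (nat_lit 0) (.cons (.rf (nat_lit 2270) (nat_lit 677582165103132179601393696)) (.cons (.ev (nat_lit 5212658805790725751402554294599680) (nat_lit 1)) .nil))) .nil)))) .nil))))) .nil))))) (.cons (.rf (nat_lit 2280) (nat_lit 583706118939841765935136)) (.cons (.rf (nat_lit 2280) (nat_lit 547107778552433333077056)) (.cons (.br (nat_lit 12) (nat_lit 0) (.cons (.br (nat_lit 13) (nat_lit 0) (.cons (.rf (nat_lit 2281) (nat_lit 19926519232773908561233952)) (.cons (.rf (nat_lit 2281) (nat_lit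 19889920892386500128375872)) (.cons (.br (nat_lit 14) (nat_lit 0) (.cons (.rf (nat_lit 2282) (nat_lit 19926519232773908561233952)) (.cons (.br (nat_lit 14) (nat_lit 0) (.cons (.ev (nat_lit 340287579500516086952566964542423171328) (nat_lit 1)) (.cons (.rf (nat_lit 214) (nat_lit 629888681224907841)) .nil))) (.cons (.br (nat_lit 14) (nat_lit 0) (.cons (.rf (nat_lit 2282) (nat_lit 19926519232773908561233952)) (.cons (.rf (nat_lit 214) (nat_lit 629888681224907841)) .nil))) .nil)))) (.cons (.br (nat_lit 14) (nat_lit 0) (.cons (.rf (nat_lit 2283) (nat_lit 677582165103132179601393696)) (.cons (.rf (nat_lit 2284) (nat_lit 677582165103132179601393696)) (.cons (.br (nat_lit 14) (nat_lit 0) (.cons (.rf (nat_lit 2283) (nat_lit 677582165103132179601393696)) (.cons (.rf (nat_lit 2284) (nat_lit 677582165103132179601393696)) .nil))) .nil)))) .nil))))) (.cons (.rf (nat_lit 2287) (nat_lit 19926519232773908561233952)) (.cons (.rf (nat_lit 2287) (nat_lit 19889920892386500128375872)) (.cons (.br (nat_lit 13) (nat_lit 0) (.cons (.rf (nat_lit 2288)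 (nat_lit 19926519232773908561233952)) (.cons (.rf (nat_lit 2288) (nat_lit 19889920892386500128375872)) (.cons (.ev (nat_lit 680564734000335674584623835512194597377) (nat_lit 2)) (.cons (.br (nat_lit 13) (nat_lit 0) (.cons (.rf (nat_lit 2288) (nat_lit 19926519232773908561233952)) (.cons (.rf (nat_lit 2288) (nat_lit 19889920892386500128375872)) (.cons (.ev (nat_lit 680564734000335674584623835512194597377) (nat_lit 2)) .nil)))) .nil))))) (.cons (.br (nat_lit 13) (nat_lit 0) (.cons (.rf (nat_lit 2289) (nat_lit 677582165103132179601393696)) (.cons (.rf (nat_lit 2289) (nat_lit 677545566762744771168535616)) (.cons (.rf (nat_lit 2291) (nat_lit 677582165103132179601393696)) (.cons (.br (nat_lit 13) (nat_lit 0) (.cons (.rf (nat_lit 2289) (nat_lit 677582165103132179601393696)) (.cons (.rf (nat_lit 2289) (nat_lit 677545566762744771168535616)) (.cons (.rf (nat_lit 2291) (nat_lit 677582165103132179601393696)) .nil)))) .nil))))) .nil)))))) .nil)))))) .nil)))))) .nil)))))) .nil))))))]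

theorem c88 : chkAll C T R L88 (nat_lit 2266) = true := by decide +kernel

theorem l88 : (nat_lit 2266) + L88.length = (nat_lit 2293) := by decide +kernel

/-- part of the certificates -/
def L89 : List Prf := [(.br (nat_lit 14) (nat_lit 0) (.cons (.br (nat_lit 15) (nat_lit 0) (.cons (.kr (nat_lit 10384593717074377623544961815281665) (nat_lit 2658455991569831764254358198581985280) (nat_lit 0) (nat_lit 1)) (.cons (.rf (nat_lit 239) (nat_lit 631047566384113729)) .nil))) .nil)),
 (.br (nat_lit 15) (nat_lit 0) (.cons (.ev (nat_lit 2689630294674493002590353580626019328) (nat_lit 3)) .nil)),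
 (.br (nat_lit 13) (nat_lit 0) (.cons (.ev (nat_lit 5192296859743771967228272539860993) (nat_lit 1)) (.cons (.br (nat_lit 14) (nat_lit 0) (.cons (.ev (nat_lit 10425158538699551195046538364583937) (nat_lit 2)) (.cons (.br (nat_lit 15) (nat_lit 0) (.cons (.ev (nat_lit 2814671905123681574749581582183171075) (nat_lit 5)) (.cons (.rf (nat_lit 166) (nat_lit 631047566384236737)) .nil))) .nil))) (.cons (.br (nat_lit 14) (nat_lit 0) (.cons (.rf (nat_lit 1918) (nat_lit 619200027789326306027592)) (.cons (.ev (nat_lit 10425158538699551195046538364583937) (nat_lit 2)) (.cons (.rf (nat_lit 1338) (nat_lit 21174406918793880485931044)) .nil)))) .nil)))),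
 (.br (nat_lit 14) (nat_lit 0) (.cons (.ev (nat_lit 680575118436212971342462194040856248833) (nat_lit 2)) (.cons (.br (nat_lit 15) (nat_lit 0) (.cons (.ev (nat_lit 683223189833449181265153964427653939203) (nat_lit 2)) (.cons (.kr (nat_lit 10384593717074377623544961815281665) (nat_lit 2658455991569831764254358198581985280) (nat_lit 0) (nat_lit 1)) .nil))) .nil))),
 (.br (nat_lit 16) (nat_lit 0) (.cons (.kr (nat_lit 10384593717074377623544961815281665) (nat_lit 2658455991569831764254358198581985280) (nat_lit 0) (nat_lit 1)) (.cons (.ev (nat_lit 340287579500516086970941652117311521025) (nat_lit 1)) .nil))),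
 (.br (nat_lit 14) (nat_lit 0) (.cons (.rf (nat_lit 2297) (nat_lit 677582165103132179601393696)) (.cons (.rf (nat_lit 2297) (nat_lit 640105428954366863690794048)) .nil))),
 (.br (nat_lit 14) (nat_lit 0) (.cons (.rf (nat_lit 2298) (nat_lit 677582165103132179601393696)) (.cons (.ev (nat_lit 5212658497514641821729704487419905) (nat_lit 1)) .nil))),
 (.br (nat_lit 11) (nat_lit 0) (.cons (.rf (nat_lit 2292) (nat_lit 13915288663923764421)) (.cons (.rf (nat_lit 2292) (nat_lit 15030910337143811305)) (.cons (.ev (nat_lit 1859332688708050287973237251) (nat_lit 3)) (.cons (.br (nat_lit 12) (nat_lit 0) (.cons (.br (nat_lit 14) (nat_lit 0) (.cons (.rf (nat_lit 2293) (nat_lit 583706118939841765935136)) (.cons (.br (nat_lit 14) (nat_lit 0) (.cons (.rf (nat_lit 2293) (nat_lit 583706118939841765935136)) (.cons (.br (nat_lit 15) (nat_lit 0) (.cons (.rf (nat_lit 2294) (nat_lit 677582165103132179601393696)) (.cons (.rf (nat_lit 2294) (nat_lit 640105464695078675185502240)) .nil))) .nil))) .nil))) (.cons (.rf (nat_lit 2295) (nat_lit 583706118939841765935136))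 (.cons (.rf (nat_lit 2295) (nat_lit 547107743760442842946755)) (.cons (.br (nat_lit 13) (nat_lit 0) (.cons (.rf (nat_lit 2295) (nat_lit 583670378228030271226944)) (.cons (.rf (nat_lit 2295) (nat_lit 547072003048631348238563)) (.cons (.br (nat_lit 14) (nat_lit 0) (.cons (.rf (nat_lit 2296) (nat_lit 19926519232773908561233952)) (.cons (.br (nat_lit 14) (nat_lit 0) (.cons (.ev (nat_lit 680575118436212971342462194040856248833) (nat_lit 2)) (.cons (.rf (nat_lit 172) (nat_lit 629888681128560833)) .nil))) (.cons (.br (nat_lit 14) (nat_lit 0) (.cons (.rf (nat_lit 2296) (nat_lit 19926519232773908561233952)) (.cons (.rf (nat_lit 172) (nat_lit 629888681128560833)) .nil))) .nil)))) (.cons (.br (nat_lit 14) (nat_lit 0) (.cons (.rf (nat_lit 2298) (nat_lit 677582165103132179601393696)) (.cons (.rf (nat_lit 2299) (nat_lit 677582165103132179601393696)) (.cons (.rf (nat_lit 2299) (nat_lit 640105428954366863690794048)) .nil)))) .nil))))) .nil))))) .nil))))),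
 (.br (nat_lit 13) (nat_lit 0) (.cons (.ev (nat_lit 10425158538699551195046538364583937) (nat_lit 2)) (.cons (.ev (nat_lit 20282719088679938795668468989953) (nat_lit 1)) (.cons (.br (nat_lit 14) (nat_lit 0) (.cons (.br (nat_lit 15) (nat_lit 0) (.cons (.ev (nat_lit 8048263433912655173505402324811516939) (nat_lit 4)) (.cons (.rf (nat_lit 166) (nat_lit 631046501332753601)) .nil))) (.cons (.br (nat_lit 16) (nat_lit 0) (.cons (.ev (nat_lit 2041704586436886728844974395567781576711) (nat_lit 3)) (.cons (.rf (nat_lit 175) (nat_lit 629853464510399815)) .nil))) (.cons (.rf (nat_lit 1905) (nat_lit 20000972630349340423137316)) .nil)))) .nil)))),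
 (.br (nat_lit 13) (nat_lit 0) (.cons (.br (nat_lit 15) (nat_lit 0) (.cons (.ev (nat_lit 1339673595189548808217970791971553537) (nat_lit 2)) (.cons (.rf (nat_lit 239) (nat_lit 631046501332879585)) .nil))) .nil)),
 (.br (nat_lit 15) (nat_lit 0) (.cons (.kr (nat_lit 40565440599896989250159963537409) (nat_lit 2658455991569831764398474486152822784) (nat_lit 0) (nat_lit 1)) .nil)),
 (.br (nat_lit 15) (nat_lit 0) (.cons (.br (nat_lit 16) (nat_lit 0) (.cons (.ev (nat_lit 88137125929169226197413795244209225138434) (nat_lit 2)) .nil)) .nil)),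
 (.br (nat_lit 15) (nat_lit 0) (.cons (.rf (nat_lit 2304) (nat_lit 677582165103132179601393696)) (.cons (.br (nat_lit 15) (nat_lit 0) (.cons (.rf (nat_lit 2304) (nat_lit 677582165103132179601393696)) .nil)) .nil))),
 (.br (nat_lit 13) (nat_lit 0) (.cons (.br (nat_lit 15) (nat_lit 0) (.cons (.ev (nat_lit 2658456150645131534792209699923165697) (nat_lit 2)) (.cons (.rf (nat_lit 167) (nat_lit 631046434626536775)) .nil))) (.cons (.ev (nat_lit 5212658497509937901989813318320128) (nat_lit 1)) (.cons (.rf (nat_lit 2305) (nat_lit 677582165103132179601393696)) .nil)))),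
 (.br (nat_lit 13) (nat_lit 0) (.cons (.rf (nat_lit 2306) (nat_lit 19926519232773908561233952)) (.cons (.ev (nat_lit 40723894507092326004224795213827) (nat_lit 2)) (.cons (.br (nat_lit 15) (nat_lit 0) (.cons (.rf (nat_lit 167) (nat_lit 630978264896472391)) (.cons (.ev (nat_lit 2658456150645131534792209699923165697) (nat_lit 2)) (.cons (.ev (nat_lit 1329288843016158902138385666435711746) (nat_lit 2)) .nil)))) .nil)))),
 (.br (nat_lit 13) (nat_lit 0) (.cons (.ev (nat_lit 5212658497509937901989813318320128) (nat_lit 1)) (.cons (.ev (nat_lit 40723894507092326004224795213827) (nat_lit 2)) (.cons (.br (nat_lit 14) (nat_lit 0) (.cons (.rf (nat_lit 2306) (nat_lit 19851034828353428866084037)) (.cons (.rf (nat_lit 172) (nat_lit 629853531216616641)) (.cons (.br (nat_lit 16) (nat_lit 0) (.cons (.br (nat_lit 15) (nat_lit 0) (.cons (.zr (nat_lit 522673715591036848878440815455135527337989) (nat_lit 680575199566475186949699118560022888960) (nat_lit 16) (nat_lit 1)) .nil)) (.cons (.ev (nat_lit 680564774406698556822686637450665656833) (nat_lit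 2)) .nil))) .nil)))) .nil)))),
 (.br (nat_lit 11) (nat_lit 0) (.cons (.ev (nat_lit 79229371458603036464971251713) (nat_lit 1)) (.cons (.ev (nat_lit 1859332688708050287973237251) (nat_lit 3)) (.cons (.rf (nat_lit 2292) (nat_lit 16183831841750658281)) (.cons (.br (nat_lit 12) (nat_lit 0) (.cons (.rf (nat_lit 2301) (nat_lit 583706118939841765935136)) (.cons (.br (nat_lit 13) (nat_lit 0) (.cons (.rf (nat_lit 2302) (nat_lit 583706118939841765935136)) (.cons (.br (nat_lit 13) (nat_lit 0) (.cons (.rf (nat_lit 2302) (nat_lit 583706118939841765935136)) (.cons (.br (nat_lit 15) (nat_lit 0) (.cons (.rf (nat_lit 2303) (nat_lit 677582165103132179601393696)) (.cons (.rf (nat_lit 2303) (nat_lit 640105464695078675185502240)) .nil))) .nil))) .nil))) (.cons (.rf (nat_lit 2301) (nat_lit 508221714519362070785221)) (.cons (.br (nat_lit 13) (nat_lit 0) (.cons (.rf (nat_lit 2306) (nat_lit 19926519232773908561233952)) (.cons (.rf (nat_lit 2307) (nat_lit 19926519232773908561233952)) (.cons (.rf (nat_lit 2308) (nat_lit 19926519232773908561233952)) (.cons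 (.br (nat_lit 13) (nat_lit 0) (.cons (.rf (nat_lit 2306) (nat_lit 19926519232773908561233952)) (.cons (.rf (nat_lit 2307) (nat_lit 19926519232773908561233952)) (.cons (.rf (nat_lit 2308) (nat_lit 19926519232773908561233952)) .nil)))) .nil))))) .nil))))) .nil))))),
 (.br (nat_lit 16) (nat_lit 0) (.cons (.ev (nat_lit 340297943812443731938654354119174717697) (nat_lit 2)) .nil)),
 (.br (nat_lit 14) (nat_lit 0) (.cons (.ev (nat_lit 2658456150028579366932864000308806147) (nat_lit 2)) (.cons (.br (nat_lit 15) (nat_lit 0) (.cons (.ev (nat_lit 341611615199134196636207275011446145025) (nat_lit 1)) (.cons (.kr (nat_lit 2658455992191219635536277590085992449) (nat_lit 10384593717074377767660154186235904) (nat_lit 0) (nat_lit 1)) .nil))) .nil))),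
 (.br (nat_lit 15) (nat_lit 0) (.cons (.ev (nat_lit 2668840585905876198558759591918698497) (nat_lit 2)) (.cons (.ev (nat_lit 1329227995786129521161963256961564928) (nat_lit 1)) (.cons (.kr (nat_lit 10384593717074377623544961815281665) (nat_lit 680564733841876926945195958941557719040) (nat_lit 0) (nat_lit 1)) (.cons (.ev (nat_lit 1334440575362539380470851745823654145) (nat_lit 1)) .nil))))),
 (.br (nat_lit 14) (nat_lit 0) (.cons (.rf (nat_lit 2312) (nat_lit 677582165103132179601393696)) (.cons (.br (nat_lit 15) (nat_lit 0) (.cons (.ev (nat_lit 1334440575362539380470851745823654145) (nat_lit 1)) (.cons (.ev (nat_lit 174224571904085314923143736427652453499393) (nat_lit 2)) .nil))) .nil))),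
 (.br (nat_lit 14) (nat_lit 0) (.cons (.rf (nat_lit 2312) (nat_lit 677582165103132179601393696)) (.cons (.br (nat_lit 17) (nat_lit 0) (.cons (.ev (nat_lit 174224571904085314923143736427652453499393) (nat_lit 2)) (.cons (.kr (nat_lit 10384593717074377623544961815281665) (nat_lit 680564733841876926945195958941557719040) (nat_lit 0) (nat_lit 1)) .nil))) .nil))),
 (.br (nat_lit 13) (nat_lit 0) (.cons (.br (nat_lit 14) (nat_lit 0) (.cons (.ev (nat_lit 10384752175817276382873830916358147) (nat_lit 2)) (.cons (.rf (nat_lit 1019) (nat_lit 19814401070389442814191688)) (.cons (.br (nat_lit 15) (nat_lit 0) (.cons (.rf (nat_lit 2310) (nat_lit 677582165103132179601393696)) (.cons (.br (nat_lit 15) (nat_lit 0) (.cons (.rf (nat_lit 2310) (nat_lit 677582165103132179601393696)) .nil)) .nil))) .nil)))) (.cons (.br (nat_lit 14) (nat_lit 0) (.cons (.ev (nat_lit 2658456150028579366932864000308806147) (nat_lit 2)) (.cons (.rf (nat_lit 2311) (nat_lit 19926519232773908561233952)) (.cons (.br (nat_lit 14) (nat_lit 0) (.cons (.ev (nat_lit 2658456150028579366932864000308806147)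 (nat_lit 2)) (.cons (.rf (nat_lit 2311) (nat_lit 19926519232773908561233952)) .nil))) .nil)))) (.cons (.ev (nat_lit 20282719088679938795668468989953) (nat_lit 1)) (.cons (.br (nat_lit 14) (nat_lit 0) (.cons (.rf (nat_lit 2313) (nat_lit 677582165103132179601393696)) (.cons (.rf (nat_lit 2314) (nat_lit 677582165103132179601393696)) (.cons (.br (nat_lit 14) (nat_lit 0) (.cons (.rf (nat_lit 2313) (nat_lit 677582165103132179601393696)) (.cons (.rf (nat_lit 2314) (nat_lit 677582165103132179601393696)) .nil))) .nil)))) .nil))))),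
 (.br (nat_lit 14) (nat_lit 0) (.cons (.kr (nat_lit 2658455991569831764254359293781868545) (nat_lit 40564819212025707330768459530240) (nat_lit 0) (nat_lit 1)) (.cons (.br (nat_lit 15) (nat_lit 0) (.cons (.ev (nat_lit 2049679994659502781328680174698927359493) (nat_lit 3)) (.cons (.ev (nat_lit 2668881309181408493390116379437433347) (nat_lit 2)) .nil))) (.cons (.br (nat_lit 15) (nat_lit 0) (.cons (.ev (nat_lit 2668881309181408493390116379437433347) (nat_lit 2)) (.cons (.ev (nat_lit 522681701424418006024826061135988060848641) (nat_lit 3)) .nil))) .nil)))),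
 (.br (nat_lit 16) (nat_lit 0) (.cons (.kr (nat_lit 10384593717074377623544961815281665) (nat_lit 680564733841876926945195958941557719040) (nat_lit 0) (nat_lit 1)) (.cons (.br (nat_lit 14) (nat_lit 0) (.cons (.ev (nat_lit 2049679994659502781328680174698927359493) (nat_lit 3)) (.cons (.br (nat_lit 15) (nat_lit 0) (.cons (.ev (nat_lit 9562497436589357924669190966369939232787) (nat_lit 5)) .nil)) .nil))) (.cons (.ev (nat_lit 680564734000952226715733810442898899457) (nat_lit 2)) .nil)))),
 (.br (nat_lit 13) (nat_lit 0) (.cons (.rf (nat_lit 2316) (nat_lit 677582165103132179601393696)) (.cons (.rf (nat_lit 2317) (nat_lit 677582165103132179601393696)) (.cons (.br (nat_lit 14) (nat_lit 0) (.cons (.rf (nat_lit 2317) (nat_lit 676409874364125687633324068)) (.cons (.rf (nat_lit 2316) (nat_lit 676409874364125687633324068)) (.cons (.kr (nat_lit 348449143727040986586514044755308181454849) (nat_lit 10425158536281680964954706759647744) (nat_lit 0) (nat_lit 2)) .nil)))) .nil)))),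
 (.br (nat_lit 16) (nat_lit 0) (.cons (.br (nat_lit 14) (nat_lit 0) (.cons (.ev (nat_lit 683254465309681817900762330089761670657) (nat_lit 3)) (.cons (.br (nat_lit 15) (nat_lit 0) (.cons (.zr (nat_lit 174910453549910329114710466733678444677632) (nat_lit 476611750828726328416602161153) (nat_lit 16) (nat_lit 12)) .nil)) .nil))) (.cons (.kr (nat_lit 2658455991569831764254359293781868545) (nat_lit 40564819212025707330768459530240) (nat_lit 0) (nat_lit 1)) (.cons (.ev (nat_lit 680564734000952226715733810442898899457) (nat_lit 2)) .nil))))]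

theorem c89 : chkAll C T R L89 (nat_lit 2293) = true := by decide +kernel

theorem l89 : (nat_lit 2293) + L89.length = (nat_lit 2320) := by decide +kernel

/-- part of the certificates -/
def L90 : List Prf := [(.br (nat_lit 13) (nat_lit 0) (.cons (.rf (nat_lit 2318) (nat_lit 677582165103132179601393696)) (.cons (.rf (nat_lit 2319) (nat_lit 677582165103132179601393696)) (.cons (.br (nat_lit 15) (nat_lit 0) (.cons (.rf (nat_lit 2319) (nat_lit 675091190535457577416793283)) (.cons (.rf (nat_lit 2318) (nat_lit 675091190535457577416793283)) (.cons (.kr (nat_lit 2658455991569831764254359293781868545) (nat_lit 40564819212025707330768459530240) (nat_lit 0) (nat_lit 1)) .nil)))) .nil)))),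
 (.br (nat_lit 7) (nat_lit 0) (.cons (.rf (nat_lit 2126) (nat_lit 42930777254800617)) (.cons (.rf (nat_lit 2292) (nat_lit 14208022364961119427)) (.cons (.rf (nat_lit 2300) (nat_lit 17022140995484340291616)) (.cons (.rf (nat_lit 2309) (nat_lit 17022140995484340291616)) (.cons (.br (nat_lit 11) (nat_lit 0) (.cons (.rf (nat_lit 2292) (nat_lit 13915288663923764421)) (.cons (.rf (nat_lit 2309) (nat_lit 15915301413902594612419)) (.cons (.rf (nat_lit 2300) (nat_lit 15878289740664385218596)) (.cons (.rf (nat_lit 2292) (nat_lit 17336753346357505257)) (.cons (.br (nat_lit 12) (nat_lit 0) (.cons (.rf (nat_lit 2315) (nat_lit 19926519232773908561233952)) (.cons (.rf (nat_lit 2315) (nat_lit 18754228493767416593164324)) (.cons (.rf (nat_lit 2315) (nat_lit 17435544665099306376633539)) (.cons (.rf (nat_lit 2315) (nat_lit 16263253786481363334081733)) (.cons (.br (nat_lit 13) (nat_lit 0) (.cons (.rf (nat_lit 2318) (nat_lit 677582165103132179601393696)) (.cons (.rf (nat_lit 2320) (nat_lit 677582165103132179601393696)) (.cons (.br (nat_lit 13) (nat_lit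 0) (.cons (.rf (nat_lit 2318) (nat_lit 677582165103132179601393696)) (.cons (.rf (nat_lit 2320) (nat_lit 677582165103132179601393696)) (.cons (.ev (nat_lit 40723894507092326004224795213827) (nat_lit 2)) .nil)))) (.cons (.br (nat_lit 13) (nat_lit 0) (.cons (.rf (nat_lit 2318) (nat_lit 677582165103132179601393696)) (.cons (.rf (nat_lit 2320) (nat_lit 677582165103132179601393696)) (.cons (.ev (nat_lit 40723894507092326004224795213827) (nat_lit 2)) .nil)))) .nil))))) .nil)))))) .nil)))))) .nil)))))),
 (.br (nat_lit 14) (nat_lit 0) (.cons (.br (nat_lit 15) (nat_lit 0) (.cons (.kr (nat_lit 10425158536291125697357500391620609) (nat_lit 2658456150026156829676522628305649664) (nat_lit 0) (nat_lit 1)) (.cons (.rf (nat_lit 239) (nat_lit 631047566346528833)) .nil))) .nil)),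
 (.br (nat_lit 15) (nat_lit 0) (.cons (.ev (nat_lit 1344865813747172003005356960846512385) (nat_lit 2)) .nil)),
 (.br (nat_lit 13) (nat_lit 0) (.cons (.br (nat_lit 14) (nat_lit 0) (.cons (.ev (nat_lit 1329228075322568119428312765015523328) (nat_lit 1)) .nil)) .nil)),
 (.br (nat_lit 13) (nat_lit 0) (.cons (.rf (nat_lit 2324) (nat_lit 583706118939841765935136)) (.cons (.br (nat_lit 13) (nat_lit 0) (.cons (.rf (nat_lit 2324) (nat_lit 583706118939841765935136)) .nil)) .nil))),
 (.br (nat_lit 13) (nat_lit 0) (.cons (.ev (nat_lit 41041426127205919537290543367687) (nat_lit 3)) (.cons (.kr (nat_lit 20282720302309677866514795986945) (nat_lit 79228162532783140360803123200) (nat_lit 0) (nat_lit 1)) (.cons (.br (nat_lit 14) (nat_lit 0) (.cons (.ev (nat_lit 10384752792369481279259907482190337) (nat_lit 2)) (.cons (.ev (nat_lit 10425158538699587943856539164606977) (nat_lit 2)) (.cons (.rf (nat_lit 2325) (nat_lit 661701333108527519140929)) .nil)))) .nil)))),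
 (.br (nat_lit 13) (nat_lit 0) (.cons (.ev (nat_lit 20837943658835581728169948153350) (nat_lit 3)) (.cons (.ev (nat_lit 41041426127205919537290543367687) (nat_lit 3)) (.cons (.br (nat_lit 15) (nat_lit 0) (.cons (.ev (nat_lit 1329227995786124817242223357202530561) (nat_lit 1)) (.cons (.ev (nat_lit 1329248357732167067106657747821723905) (nat_lit 1)) (.cons (.rf (nat_lit 2305) (nat_lit 677542099892847657249414339)) .nil)))) .nil)))),
 (.br (nat_lit 14) (nat_lit 0) (.cons (.br (nat_lit 16) (nat_lit 0) (.cons (.ev (nat_lit 683223189834065733433013310127268298753) (nat_lit 2)) (.cons (.ev (nat_lit 340287579500516091693380472956442902528) (nat_lit 1)) .nil))) (.cons (.br (nat_lit 15) (nat_lit 0) (.cons (.br (nat_lit 16) (nat_lit 0) (.cons (.ev (nat_lit 340287559297026369731087372725304492033) (nat_lit 1)) .nil)) (.cons (.ev (nat_lit 174224582248114829337663511984242644091393) (nat_lit 2)) .nil))) .nil))),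
 (.br (nat_lit 14) (nat_lit 0) (.cons (.rf (nat_lit 2328) (nat_lit 677582165103132179601393696)) (.cons (.br (nat_lit 16) (nat_lit 0) (.cons (.ev (nat_lit 340287579500516091693380472956442902528) (nat_lit 1)) (.cons (.ev (nat_lit 174224582248114829337663511984242644091393) (nat_lit 2)) .nil))) .nil))),
 (.br (nat_lit 7) (nat_lit 0) (.cons (.rf (nat_lit 2292) (nat_lit 13877988832536964329)) (.cons (.ev (nat_lit 20282719088661563827709525623041) (nat_lit 1)) (.cons (.ev (nat_lit 1859332688708050287973237251) (nat_lit 3)) (.cons (.br (nat_lit 12) (nat_lit 0) (.cons (.br (nat_lit 14) (nat_lit 0) (.cons (.rf (nat_lit 2322) (nat_lit 583706118939841765935136)) (.cons (.br (nat_lit 14) (nat_lit 0) (.cons (.rf (nat_lit 2322) (nat_lit 583706118939841765935136)) (.cons (.br (nat_lit 15) (nat_lit 0) (.cons (.rf (nat_lit 2323) (nat_lit 677582165103132179601393696)) (.cons (.rf (nat_lit 2323) (nat_lit 640105464695078675185502240)) .nil))) .nil))) .nil))) (.cons (.rf (nat_lit 2326) (nat_lit 583706118939841765935136)) (.cons (.rf (nat_lit 2327)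 (nat_lit 583706118939841765935136)) (.cons (.br (nat_lit 13) (nat_lit 0) (.cons (.rf (nat_lit 2327) (nat_lit 547071710460098993335493)) (.cons (.rf (nat_lit 2326) (nat_lit 547071710460098993335493)) (.cons (.ev (nat_lit 41041426127205919537290543367687) (nat_lit 3)) (.cons (.br (nat_lit 14) (nat_lit 0) (.cons (.rf (nat_lit 2328) (nat_lit 677582165103132179601393696)) (.cons (.rf (nat_lit 2329) (nat_lit 677582165103132179601393696)) (.cons (.br (nat_lit 14) (nat_lit 0) (.cons (.rf (nat_lit 2328) (nat_lit 677582165103132179601393696)) (.cons (.rf (nat_lit 2329) (nat_lit 677582165103132179601393696)) .nil))) .nil)))) .nil))))) .nil))))) .nil))))),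
 (.br (nat_lit 13) (nat_lit 0) (.cons (.ev (nat_lit 5192296859743771967228272539860993) (nat_lit 1)) (.cons (.br (nat_lit 14) (nat_lit 0) (.cons (.ev (nat_lit 10425158538699587943856539164606977) (nat_lit 2)) (.cons (.br (nat_lit 15) (nat_lit 0) (.cons (.kr (nat_lit 10425158536291125697357500391620609) (nat_lit 2658456150026156829676522628305649664) (nat_lit 0) (nat_lit 1)) (.cons (.rf (nat_lit 166) (nat_lit 631047566350682337)) .nil))) .nil))) (.cons (.br (nat_lit 14) (nat_lit 0) (.cons (.rf (nat_lit 878) (nat_lit 621560026619370338027752)) (.cons (.ev (nat_lit 10425158538699587943856539164606977) (nat_lit 2)) (.cons (.rf (nat_lit 2325) (nat_lit 661701332967790164939841)) .nil)))) .nil)))),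
 (.br (nat_lit 14) (nat_lit 0) (.cons (.ev (nat_lit 680575118436212971342462194040856248833) (nat_lit 2)) (.cons (.br (nat_lit 15) (nat_lit 0) (.cons (.ev (nat_lit 683223189833449181265153964427653939203) (nat_lit 2)) (.cons (.kr (nat_lit 10384593717074377623544961815281665) (nat_lit 2658455991569831764254358198581985280) (nat_lit 0) (nat_lit 1)) .nil))) .nil))),
 (.br (nat_lit 14) (nat_lit 0) (.cons (.ev (nat_lit 680575118436212971342462194040856248833) (nat_lit 2)) (.cons (.rf (nat_lit 172) (nat_lit 629888681095006433)) .nil))),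
 (.br (nat_lit 16) (nat_lit 0) (.cons (.kr (nat_lit 340282366920938468185741090305708392448) (nat_lit 79538856449905297291443437568) (nat_lit 4) (nat_lit 0)) (.cons (.ev (nat_lit 340287579500516086952567247116911509505) (nat_lit 1)) .nil))),
 (.br (nat_lit 14) (nat_lit 0) (.cons (.rf (nat_lit 2334) (nat_lit 677582165103132179601393696)) (.cons (.ev (nat_lit 5212658497514641821729704487419905) (nat_lit 1)) .nil))),
 (.br (nat_lit 14) (nat_lit 0) (.cons (.kr (nat_lit 5192296858534846075557144527110400) (nat_lit 20282720297587311383649462517760) (nat_lit 1) (nat_lit 0)) (.cons (.kr (nat_lit 5192296858539549995294840951144704) (nat_lit 79538856449905297291460214784) (nat_lit 1) (nat_lit 0)) (.cons (.br (nat_lit 15) (nat_lit 0) (.cons (.kr (nat_lit 40565440599896989250164258504705) (nat_lit 2658455991569831801148410391154393600) (nat_lit 0) (nat_lit 2)) (.cons (.kr (nat_lit 159077712899810595682415280129) (nat_lit 2658455991569836486621404018163843584) (nat_lit 0) (nat_lit 2)) (.cons (.kr (nat_lit 10384593717074377623544961815281665)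 (nat_lit 2658455991569831764254358198581985280) (nat_lit 0) (nat_lit 1)) .nil)))) .nil)))),
 (.br (nat_lit 17) (nat_lit 0) (.cons (.ev (nat_lit 87112291144339824274853905368057336823808) (nat_lit 1)) (.cons (.ev (nat_lit 87112285952121885621734172680370396332288) (nat_lit 1)) .nil))),
 (.br (nat_lit 12) (nat_lit 0) (.cons (.br (nat_lit 14) (nat_lit 0) (.cons (.br (nat_lit 15) (nat_lit 0) (.cons (.ev (nat_lit 2668881308564856325530770697002942977) (nat_lit 2)) (.cons (.rf (nat_lit 214) (nat_lit 631047532892760258)) .nil))) (.cons (.br (nat_lit 16) (nat_lit 0) (.cons (.ev (nat_lit 1361202322895050456433050488222473650189) (nat_lit 4)) (.cons (.rf (nat_lit 214) (nat_lit 629956817362069698)) .nil))) (.cons (.br (nat_lit 15) (nat_lit 0) (.cons (.br (nat_lit 15) (nat_lit 0) (.cons (.ev (nat_lit 1344804887290184348183553747686850817) (nat_lit 2)) .nil)) (.cons (.br (nat_lit 15) (nat_lit 0) (.cons (.ev (nat_lit 1344804887290184348183553747686850817) (nat_lit 2)) .nil)) .nil))) .nil)))) (.cons (.ev (nat_lit 40723894507092326004224795213827)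 (nat_lit 2)) (.cons (.br (nat_lit 14) (nat_lit 0) (.cons (.rf (nat_lit 2336) (nat_lit 19926519232773908561233952)) (.cons (.ev (nat_lit 340282366920939672407713023728690397441) (nat_lit 1)) (.cons (.br (nat_lit 14) (nat_lit 0) (.cons (.rf (nat_lit 2336) (nat_lit 19926519232773908561233952)) (.cons (.ev (nat_lit 340282366920939672407713023728690397441) (nat_lit 1)) .nil))) .nil)))) (.cons (.br (nat_lit 14) (nat_lit 0) (.cons (.rf (nat_lit 2336) (nat_lit 21135445052388537735940128)) (.cons (.br (nat_lit 14) (nat_lit 0) (.cons (.rf (nat_lit 2336) (nat_lit 21135445052388537735940128)) (.cons (.rf (nat_lit 2337) (nat_lit 677582165103132179601393696)) .nil))) (.cons (.br (nat_lit 14) (nat_lit 0) (.cons (.kr (nat_lit 5192296858539549995294840951144704) (nat_lit 79538856449905297291460214784) (nat_lit 1) (nat_lit 0)) (.cons (.rf (nat_lit 2337) (nat_lit 677582165103132179601393696)) .nil))) .nil)))) .nil))))),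
 (.br (nat_lit 13) (nat_lit 0) (.cons (.br (nat_lit 15) (nat_lit 0) (.cons (.ev (nat_lit 2668881308564856325530770697002942977) (nat_lit 2)) (.cons (.rf (nat_lit 214) (nat_lit 631045402890962114)) .nil))) (.cons (.ev (nat_lit 1329227996094400901171896207009710336) (nat_lit 1)) (.cons (.rf (nat_lit 2338) (nat_lit 15054222190676842684356835)) (.cons (.br (nat_lit 14) (nat_lit 0) (.cons (.kr (nat_lit 10384593717074377623544961815281665) (nat_lit 2658455991569831764254358198581985280) (nat_lit 0) (nat_lit 1)) (.cons (.br (nat_lit 16) (nat_lit 0) (.cons (.kr (nat_lit 680564733841876931667563004756844610049) (nat_lit 158456325028672791478987259904) (nat_lit 0) (nat_lit 10)) (.cons (.rf (nat_lit 925) (nat_lit 21133125447218849046076489)) .nil))) (.cons (.ev (nat_lit 10425158538699587943856539164606977) (nat_lit 2)) .nil)))) .nil))))),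
 (.br (nat_lit 15) (nat_lit 0) (.cons (.ev (nat_lit 1329248278505213478734274947683713025) (nat_lit 1)) .nil)),
 (.br (nat_lit 12) (nat_lit 0) (.cons (.rf (nat_lit 2338) (nat_lit 19926519232773908561233952)) (.cons (.rf (nat_lit 2339) (nat_lit 19926519232773908561233952)) (.cons (.br (nat_lit 16) (nat_lit 0) (.cons (.rf (nat_lit 2338) (nat_lit 15054222190676842684356835)) (.cons (.ev (nat_lit 340282366920939672407713023728690397441) (nat_lit 1)) (.cons (.br (nat_lit 13) (nat_lit 0) (.cons (.ev (nat_lit 4763963765510227166132927494911193909263) (nat_lit 4)) (.cons (.ev (nat_lit 2658699856485114744454802517526579727) (nat_lit 4)) (.cons (.br (nat_lit 14) (nat_lit 0) (.cons (.ev (nat_lit 1334420371872826881429798201971507200) (nat_lit 1)) (.cons (.ev (nat_lit 10425158538699587943856539164606977) (nat_lit 2)) .nil))) .nil)))) (.cons (.br (nat_lit 13) (nat_lit 0) (.cons (.rf (nat_lit 214) (nat_lit 629954687360271554)) (.cons (.br (nat_lit 14) (nat_lit 0) (.cons (.ev (nat_lit 10425158538699587943856539164606977) (nat_lit 2)) (.cons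 (.ev (nat_lit 680575159159488503674331717122413167107) (nat_lit 2)) .nil))) (.cons (.br (nat_lit 14) (nat_lit 0) (.cons (.ev (nat_lit 680575159159488503674331717122413167107) (nat_lit 2)) (.cons (.ev (nat_lit 10425158538699587943856539164606977) (nat_lit 2)) .nil))) .nil)))) .nil))))) (.cons (.br (nat_lit 13) (nat_lit 0) (.cons (.br (nat_lit 15) (nat_lit 0) (.cons (.rf (nat_lit 2340) (nat_lit 21174442659472880612509728)) (.cons (.br (nat_lit 15) (nat_lit 0) (.cons (.rf (nat_lit 2340) (nat_lit 21174442659472880612509728)) .nil)) .nil))) (.cons (.br (nat_lit 14) (nat_lit 0) (.cons (.ev (nat_lit 10425158538699587943856539164606977) (nat_lit 2)) (.cons (.br (nat_lit 16) (nat_lit 0) (.cons (.ev (nat_lit 683233614992602010428648261599027528195) (nat_lit 2)) (.cons (.kr (nat_lit 680564733841876931667563004756844610049) (nat_lit 158456325028672791478987259904) (nat_lit 0) (nat_lit 10)) .nil))) (.cons (.br (nat_lit 17) (nat_lit 0) (.cons (.ev (nat_lit 696911579978538562914979993463085192448527) (nat_lit 4)) (.cons (.ev (nat_lit 87112291144339824274853905368057336823808)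 (nat_lit 1)) .nil))) .nil)))) (.cons (.rf (nat_lit 2338) (nat_lit 15054222190676842684356835)) (.cons (.br (nat_lit 14) (nat_lit 0) (.cons (.br (nat_lit 17) (nat_lit 0) (.cons (.ev (nat_lit 1334420371872826881429798201971507200) (nat_lit 1)) (.cons (.ev (nat_lit 174224592673590897234773029820675209168391) (nat_lit 3)) .nil))) (.cons (.br (nat_lit 16) (nat_lit 0) (.cons (.rf (nat_lit 2339) (nat_lit 15054222190676842684356835)) (.cons (.kr (nat_lit 680564733841876931667563004756844610049) (nat_lit 158456325028672791478987259904) (nat_lit 0) (nat_lit 10)) .nil))) (.cons (.ev (nat_lit 10425158538699587943856539164606977) (nat_lit 2)) .nil)))) .nil))))) .nil))))),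
 (.br (nat_lit 12) (nat_lit 0) (.cons (.ev (nat_lit 40723894507092326004224795213827) (nat_lit 2)) (.cons (.rf (nat_lit 2341) (nat_lit 19926519232773908561233952)) (.cons (.ev (nat_lit 79537647524157741355835064576) (nat_lit 1)) (.cons (.br (nat_lit 13) (nat_lit 0) (.cons (.br (nat_lit 14) (nat_lit 0) (.cons (.rf (nat_lit 214) (nat_lit 630943148309261506)) (.cons (.ev (nat_lit 5192296859748475886968163675406336) (nat_lit 1)) (.cons (.br (nat_lit 15) (nat_lit 0) (.cons (.rf (nat_lit 2341) (nat_lit 15054222190676842684356835)) (.cons (.ev (nat_lit 174224571863678952040905674190862959116291) (nat_lit 2)) .nil))) .nil)))) (.cons (.ev (nat_lit 1329227996094400901171896207009710336) (nat_lit 1)) (.cons (.rf (nat_lit 2338) (nat_lit 15054222190676842684356835)) (.cons (.br (nat_lit 15) (nat_lit 0) (.cons (.br (nat_lit 14) (nat_lit 0) (.cons (.br (nat_lit 16) (nat_lit 0) (.cons (.ev (nat_lit 2049679954254373003352837878957434208259) (nat_lit 3)) .nil)) (.cons (.ev (nat_lit 174224582248114829337663511984242644091393) (nat_lit 2)) .nil)))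 (.cons (.rf (nat_lit 2341) (nat_lit 15054222190676842684356835)) (.cons (.rf (nat_lit 802) (nat_lit 628832050550773825)) .nil)))) .nil))))) .nil)))))]

theorem c90 : chkAll C T R L90 (nat_lit 2320) = true := by decide +kernel

theorem l90 : (nat_lit 2320) + L90.length = (nat_lit 2343) := by decide +kernel

/-- part of the certificates -/
def L91 : List Prf := [(.br (nat_lit 12) (nat_lit 0) (.cons (.rf (nat_lit 2338) (nat_lit 19926519232773908561233952)) (.cons (.rf (nat_lit 2341) (nat_lit 19926519232773908561233952)) (.cons (.ev (nat_lit 79537647524157741355835064576) (nat_lit 1)) (.cons (.br (nat_lit 16) (nat_lit 0) (.cons (.rf (nat_lit 2338) (nat_lit 15054222190676842684356835)) (.cons (.ev (nat_lit 340282366920939672407713023728690397441) (nat_lit 1)) (.cons (.rf (nat_lit 2341) (nat_lit 15054222190676842684356835)) (.cons (.br (nat_lit 17) (nat_lit 0) (.cons (.rf (nat_lit 802) (nat_lit 629888681261635649)) (.cons (.ev (nat_lit 174224571863678952040905674190862959116291) (nat_lit 2)) (.cons (.ev (nat_lit 174905136597362989194935004701072031875073)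 (nat_lit 2)) .nil)))) .nil))))) .nil))))),
 (.br (nat_lit 11) (nat_lit 0) (.cons (.ev (nat_lit 618974760456481143171186689) (nat_lit 2)) (.cons (.rf (nat_lit 2330) (nat_lit 17022140995484340291616)) (.cons (.rf (nat_lit 2292) (nat_lit 15068210168530611397)) (.cons (.rf (nat_lit 2321) (nat_lit 15806808387310214874436)) (.cons (.br (nat_lit 7) (nat_lit 0) (.cons (.br (nat_lit 12) (nat_lit 0) (.cons (.kr (nat_lit 20282409608374036906821191467008) (nat_lit 79228162532711082766765129728) (nat_lit 4) (nat_lit 0)) (.cons (.rf (nat_lit 2331) (nat_lit 583706118939841765935136)) (.cons (.rf (nat_lit 2331) (nat_lit 547107743615274160494819)) (.cons (.br (nat_lit 13) (nat_lit 0) (.cons (.rf (nat_lit 2331) (nat_lit 583670378228030271226944)) (.cons (.rf (nat_lit 2331) (nat_lit 547072003193800030690499)) (.cons (.br (nat_lit 14) (nat_lit 0) (.cons (.rf (nat_lit 2332) (nat_lit 19926519232773908561233952)) (.cons (.rf (nat_lit 2333) (nat_lit 19926519232773908561233952)) (.cons (.br (nat_lit 14) (nat_lit 0) (.cons (.rf (nat_lit 2332) (nat_lit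 19926519232773908561233952)) (.cons (.rf (nat_lit 172) (nat_lit 629888681095006433)) .nil))) .nil)))) (.cons (.br (nat_lit 14) (nat_lit 0) (.cons (.br (nat_lit 14) (nat_lit 0) (.cons (.rf (nat_lit 2335) (nat_lit 677582165103132179601393696)) (.cons (.rf (nat_lit 2335) (nat_lit 640105428954366863690794048)) .nil))) (.cons (.rf (nat_lit 2335) (nat_lit 677582165103132179601393696)) (.cons (.rf (nat_lit 2335) (nat_lit 640105428954366863690794048)) .nil)))) .nil))))) .nil))))) (.cons (.rf (nat_lit 2292) (nat_lit 15360943869567966403)) (.cons (.rf (nat_lit 2330) (nat_lit 18205003376883110254819)) (.cons (.rf (nat_lit 2292) (nat_lit 17336753346357505257)) (.cons (.br (nat_lit 12) (nat_lit 0) (.cons (.rf (nat_lit 2338) (nat_lit 19926519232773908561233952)) (.cons (.rf (nat_lit 2341) (nat_lit 19926519232773908561233952)) (.cons (.rf (nat_lit 2342) (nat_lit 19926519232773908561233952)) (.cons (.rf (nat_lit 2343) (nat_lit 19926519232773908561233952)) (.cons (.br (nat_lit 12) (nat_lit 0) (.cons (.rf (nat_lit 2338) (nat_lit 19926519232773908561233952))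 (.cons (.rf (nat_lit 2341) (nat_lit 19926519232773908561233952)) (.cons (.rf (nat_lit 2342) (nat_lit 19926519232773908561233952)) (.cons (.rf (nat_lit 2343) (nat_lit 19926519232773908561233952)) .nil))))) .nil)))))) .nil)))))) .nil)))))),
 (.br (nat_lit 17) (nat_lit 0) (.cons (.ev (nat_lit 87112291124136334557632425493674353295360) (nat_lit 1)) (.cons (.ev (nat_lit 87112285952122193902540541176258358149120) (nat_lit 1)) .nil))),
 (.br (nat_lit 13) (nat_lit 0) (.cons (.ev (nat_lit 5212658497514660196134713477366017) (nat_lit 1)) (.cons (.br (nat_lit 14) (nat_lit 0) (.cons (.ev (nat_lit 1329227995786124798723703168726794241) (nat_lit 1)) (.cons (.ev (nat_lit 72936337226032918364220749041503245) (nat_lit 4)) (.cons (.rf (nat_lit 2345) (nat_lit 677582165103132179601393696)) .nil)))) (.cons (.br (nat_lit 14) (nat_lit 0) (.cons (.rf (nat_lit 2345) (nat_lit 640104320843823855230429220)) (.cons (.rf (nat_lit 1059) (nat_lit 628797965726850113)) (.cons (.kr (nat_lit 5192296858534827700589189878841344) (nat_lit 20282720297587311383645167550464)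 (nat_lit 2) (nat_lit 0)) .nil)))) (.cons (.br (nat_lit 14) (nat_lit 0) (.cons (.ev (nat_lit 62592308949558437585809659618921485) (nat_lit 4)) (.cons (.br (nat_lit 16) (nat_lit 0) (.cons (.br (nat_lit 15) (nat_lit 0) (.cons (.ev (nat_lit 1329268640145397478006202014466375937) (nat_lit 2)) .nil)) (.cons (.ev (nat_lit 176266271399637078014113849325036259968006) (nat_lit 3)) .nil))) (.cons (.rf (nat_lit 1059) (nat_lit 592770268085300289)) .nil)))) .nil))))),
 (.br (nat_lit 13) (nat_lit 0) (.cons (.rf (nat_lit 2346) (nat_lit 676410982474668696093688896)) (.cons (.kr (nat_lit 2658455991569836468174096994500870145) (nat_lit 158456325046975420360325857280) (nat_lit 0) (nat_lit 1)) (.cons (.br (nat_lit 14) (nat_lit 0) (.cons (.ev (nat_lit 1329248357423890983176984898014544128) (nat_lit 1)) (.cons (.ev (nat_lit 340282387282577438555129265081026674688) (nat_lit 1)) (.cons (.br (nat_lit 14) (nat_lit 0) (.cons (.ev (nat_lit 1329248357423890983176984898014544128) (nat_lit 1)) (.cons (.ev (nat_lit 340282387282577438555129265081026674688) (nat_lit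 1)) .nil))) .nil)))) (.cons (.br (nat_lit 17) (nat_lit 0) (.cons (.kr (nat_lit 159077712899810595682415280129) (nat_lit 174224571863520493297988612794962927419904) (nat_lit 0) (nat_lit 2)) (.cons (.ev (nat_lit 87114944448758120598595330281277843702016) (nat_lit 2)) (.cons (.br (nat_lit 15) (nat_lit 0) (.cons (.rf (nat_lit 2312) (nat_lit 517967510394426805296835817)) (.cons (.ev (nat_lit 341611594996261031582730861498939277313) (nat_lit 1)) .nil))) .nil)))) .nil))))),
 (.br (nat_lit 13) (nat_lit 0) (.cons (.rf (nat_lit 2346) (nat_lit 676410982474668696093688896)) (.cons (.br (nat_lit 14) (nat_lit 0) (.cons (.ev (nat_lit 1329227995786129539536931207314997248) (nat_lit 1)) (.cons (.ev (nat_lit 340282366920939677111632763628449431808) (nat_lit 1)) (.cons (.br (nat_lit 14) (nat_lit 0) (.cons (.ev (nat_lit 1329227995786129539536931207314997248) (nat_lit 1)) (.cons (.ev (nat_lit 340282366920939677111632763628449431808) (nat_lit 1)) .nil))) .nil)))) (.cons (.kr (nat_lit 680564733841876926945195960036757602305) (nat_lit 40564819212025707330768459530240)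 (nat_lit 0) (nat_lit 1)) (.cons (.br (nat_lit 16) (nat_lit 0) (.cons (.ev (nat_lit 340282366920939677111632763628449431808) (nat_lit 1)) (.cons (.br (nat_lit 17) (nat_lit 0) (.cons (.ev (nat_lit 87452568318963595927387202970483827933185) (nat_lit 1)) (.cons (.ev (nat_lit 1223658050065948037160147575545155900017673) (nat_lit 4)) .nil))) (.cons (.rf (nat_lit 1059) (nat_lit 522964473958575169)) .nil)))) .nil))))),
 (.br (nat_lit 12) (nat_lit 0) (.cons (.rf (nat_lit 2346) (nat_lit 677582165103132179601393696)) (.cons (.rf (nat_lit 2347) (nat_lit 677582165103132179601393696)) (.cons (.rf (nat_lit 2348) (nat_lit 677582165103132179601393696)) (.cons (.br (nat_lit 13) (nat_lit 0) (.cons (.rf (nat_lit 2346) (nat_lit 676410982474668696093688896)) (.cons (.rf (nat_lit 2348) (nat_lit 676410982474668696093688896)) (.cons (.rf (nat_lit 2347) (nat_lit 676410982474668696093688896)) (.cons (.ev (nat_lit 87112285931760556131652167591679391498496) (nat_lit 1)) .nil))))) .nil))))),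
 (.br (nat_lit 16) (nat_lit 0) (.cons (.br (nat_lit 13) (nat_lit 0) (.cons (.rf (nat_lit 2349) (nat_lit 601455294072019634610284616)) (.cons (.rf (nat_lit 1059) (nat_lit 631011351350020289)) (.cons (.br (nat_lit 15) (nat_lit 0) (.cons (.br (nat_lit 14) (nat_lit 0) (.cons (.ev (nat_lit 5212658497509919382906666299228416) (nat_lit 1)) .nil)) (.cons (.kr (nat_lit 2658455991569831745951730412443271169) (nat_lit 40564819212044154637787827536384) (nat_lit 0) (nat_lit 10)) .nil))) .nil)))) (.cons (.ev (nat_lit 340282366920939672407713023728690397441) (nat_lit 1)) (.cons (.kr (nat_lit 2658455991569836468174096994500870145) (nat_lit 158456325046975420360325857280) (nat_lit 0) (nat_lit 1)) (.cons (.rf (nat_lit 2349) (nat_lit 481661956874124972893940969)) .nil))))),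
 (.br (nat_lit 12) (nat_lit 0) (.cons (.rf (nat_lit 2349) (nat_lit 677582165103132179601393696)) (.cons (.rf (nat_lit 2349) (nat_lit 640104320843823855230429220)) (.cons (.rf (nat_lit 2350) (nat_lit 677582165103132179601393696)) (.cons (.rf (nat_lit 2350) (nat_lit 640104320843823855230429220)) .nil))))),
 (.br (nat_lit 12) (nat_lit 0) (.cons (.rf (nat_lit 2349) (nat_lit 677582165103132179601393696)) (.cons (.rf (nat_lit 2349) (nat_lit 640104320843823855230429220)) (.cons (.rf (nat_lit 2351) (nat_lit 677582165103132179601393696)) (.cons (.ev (nat_lit 79537647524157741355835064576) (nat_lit 1)) .nil))))),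
 (.br (nat_lit 5) (nat_lit 0) (.cons (.rf (nat_lit 1425) (nat_lit 69932686531)) (.cons (.rf (nat_lit 1065) (nat_lit 165188)) (.cons (.br (nat_lit 7) (nat_lit 1) (.cons (.rf (nat_lit 2088) (nat_lit 244583488)) (.cons (.br (nat_lit 8) (nat_lit 0) (.cons (.br (nat_lit 9) (nat_lit 0) (.cons (.br (nat_lit 1) (nat_lit 0) (.cons (.rf (nat_lit 2126) (nat_lit 407901468851537952)) (.cons (.rf (nat_lit 2174) (nat_lit 407901468851537952)) (.cons (.rf (nat_lit 2230) (nat_lit 407901468851537952)) (.cons (.rf (nat_lit 2126) (nat_lit 254779218888665124)) (.cons (.rf (nat_lit 2230) (nat_lit 254779218888665124)) (.cons (.br (nat_lit 2) (nat_lit 0) (.cons (.rf (nat_lit 2230) (nat_lit 407756300169086016)) (.cons (.rf (nat_lit 2174) (nat_lit 407756300169086016)) (.cons (.rf (nat_lit 2126) (nat_lit 217479387501865032)) (.cons (.rf (nat_lit 2230) (nat_lit 217479387501865032)) (.cons (.rf (nat_lit 2292) (nat_lit 14242959524133701664)) (.cons (.br (nat_lit 10) (nat_lit 0) (.cons (.rf (nat_lit 2230) (nat_lit 254559150342833476)) (.cons (.rf (nat_lit 2230)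 (nat_lit 217404487638485320)) (.cons (.rf (nat_lit 2174) (nat_lit 254559150342833476)) (.cons (.rf (nat_lit 2292) (nat_lit 14089837274170828836)) (.cons (.rf (nat_lit 2292) (nat_lit 15205458947390875720)) (.cons (.br (nat_lit 6) (nat_lit 0) (.cons (.rf (nat_lit 2126) (nat_lit 372964309678955715)) (.cons (.rf (nat_lit 2126) (nat_lit 80230608641600709)) (.cons (.rf (nat_lit 2321) (nat_lit 17022140995484340291616)) (.cons (.rf (nat_lit 2344) (nat_lit 17022140995484340291616)) (.cons (.rf (nat_lit 2344) (nat_lit 15878289740664385218596)) (.cons (.br (nat_lit 7) (nat_lit 0) (.cons (.rf (nat_lit 2126) (nat_lit 42930777254800617)) (.cons (.rf (nat_lit 2344) (nat_lit 16986400283672845583424)) (.cons (.rf (nat_lit 2321) (nat_lit 16986400283672845583424)) (.cons (.rf (nat_lit 2344) (nat_lit 14698813741620193962056)) (.cons (.rf (nat_lit 2292) (nat_lit 17666786878781660355)) (.cons (.br (nat_lit 11) (nat_lit 0) (.cons (.rf (nat_lit 2344) (nat_lit 15806808387310214874436)) (.cons (.rf (nat_lit 2344) (nat_lit 14663073100077518326088)) (.cons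 (.rf (nat_lit 2321) (nat_lit 15806808387310214874436)) (.cons (.rf (nat_lit 2292) (nat_lit 17374053177744305349)) (.cons (.rf (nat_lit 2292) (nat_lit 18489674850964352233)) (.cons (.br (nat_lit 12) (nat_lit 0) (.cons (.rf (nat_lit 2349) (nat_lit 677582165103132179601393696)) (.cons (.rf (nat_lit 2349) (nat_lit 640104320843823855230429220)) (.cons (.rf (nat_lit 2351) (nat_lit 677582165103132179601393696)) (.cons (.rf (nat_lit 2352) (nat_lit 677582165103132179601393696)) (.cons (.rf (nat_lit 2352) (nat_lit 640104320843823855230429220)) .nil)))))) .nil))))))) .nil))))))) .nil))))))) .nil))))))) .nil))))))) .nil))))))) .nil)) (.cons (.br (nat_lit 9) (nat_lit 0) (.cons (.kr (nat_lit 4722366483969156841473) (nat_lit 18446744078021296128) (nat_lit 0) (nat_lit 1)) .nil)) .nil))) .nil))) .nil)))),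
 (.br (nat_lit 0) (nat_lit 0) (.cons (.br (nat_lit 0) (nat_lit 0) (.cons (.br (nat_lit 0) (nat_lit 1) (.cons (.br (nat_lit 1) (nat_lit 1) (.cons (.rf (nat_lit 1065) (nat_lit 100384)) (.cons (.br (nat_lit 4) (nat_lit 1) (.cons (.br (nat_lit 3) (nat_lit 0) (.cons (.rf (nat_lit 1065) (nat_lit 99392)) (.cons (.br (nat_lit 3) (nat_lit 0) (.cons (.rf (nat_lit 1065) (nat_lit 99392)) (.cons (.br (nat_lit 2) (nat_lit 1) (.cons (.rf (nat_lit 1425) (nat_lit 247132686368)) (.cons (.rf (nat_lit 2088) (nat_lit 70259748)) (.cons (.br (nat_lit 8) (nat_lit 1) (.cons (.br (nat_lit 4) (nat_lit 0) (.cons (.rf (nat_lit 2088) (nat_lit 206703648)) (.cons (.rf (nat_lit 2088) (nat_lit 240258080)) (.cons (.br (nat_lit 6) (nat_lit 1) (.cons (.rf (nat_lit 2353) (nat_lit 11584701642934304)) (.cons (.rf (nat_lit 2088) (nat_lit 211029056)) (.cons (.br (nat_lit 7) (nat_lit 1) (.cons (.rf (nat_lit 2353) (nat_lit 11584668356937760)) (.cons (.rf (nat_lit 2088) (nat_lit 234987721)) (.cons (.rf (nat_lit 1425) (nat_lit 70071098563)) .nil)))) .nil)))) .nil)))) .nil))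 .nil)))) .nil))) .nil))) .nil)) .nil))) .nil)) .nil)) .nil))]

theorem c91 : chkAll C T R L91 (nat_lit 2343) = true := by decide +kernel

theorem l91 : (nat_lit 2343) + L91.length = (nat_lit 2355) := by decide +kernel

end Pool.Agent.H93.Neg.N18_6_0
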