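import Pool.Agent.H93.Neg.TabN18_6_4

/-!
Certificates.
-/

set_option autoImplicit false
set_option maxRecDepth 100000
set_option linter.all false

namespace Pool.Agent.H93.Neg.N18_6_4

/-- part of the certificates -/
def L0 : List Prf := [(.br (nat_lit 6) (nat_lit 1) (.cons (.br (nat_lit 7) (nat_lit 1) (.cons (.br (nat_lit 8) (nat_lit 1) (.cons (.br (nat_lit 8) (nat_lit 1) .nil) .nil)) .nil)) .nil)),
 (.br (nat_lit 6) (nat_lit 1) (.cons (.br (nat_lit 7) (nat_lit 1) (.cons (.br (nat_lit 8) (nat_lit 1) (.cons (.br (nat_lit 9) (nat_lit 1) .nil) .nil)) (.cons (.br (nat_lit 8) (nat_lit 1) (.cons (.br (nat_lit 8) (nat_lit 1) .nil) .nil)) .nil))) .nil)),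
 (.br (nat_lit 13) (nat_lit 1) (.cons (.kr (nat_lit 20282409603670189225614998765824) (nat_lit 79537647524085682666563764224) (nat_lit 1) (nat_lit 0)) .nil)),
 (.br (nat_lit 8) (nat_lit 0) (.cons (.br (nat_lit 8) (nat_lit 0) (.cons (.br (nat_lit 9) (nat_lit 1) (.cons (.br (nat_lit 10) (nat_lit 1) (.cons (.br (nat_lit 7) (nat_lit 1) (.cons (.kr (nat_lit 18518801667747479808) (nat_lit 309485009821345073019813888) (nat_lit 1) (nat_lit 0)) (.cons (.br (nat_lit 11) (nat_lit 1) (.cons (.rf (nat_lit 0) (nat_lit 13262622785)) (.cons (.br (nat_lit 12) (nat_lit 1) (.cons (.rf (nat_lit 1) (nat_lit 459939221569)) (.cons (.br (nat_lit 12) (nat_lit 1) (.cons (.rf (nat_lit 1) (nat_lit 459939221569)) (.cons (.br (nat_lit 13) (nat_lit 1) (.cons (.rf (nat_lit 2) (nat_lit 583706118939841765935136)) (.cons (.rf (nat_lit 2) (nat_lit 547107778697602015528992)) .nil))) .nil))) .nil))) .nil))) .nil))) .nil)) .nil)) .nil)) .nil)),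
 (.br (nat_lit 6) (nat_lit 1) (.cons (.br (nat_lit 7) (nat_lit 1) (.cons (.br (nat_lit 8) (nat_lit 1) (.cons (.br (nat_lit 8) (nat_lit 1) .nil) .nil)) .nil)) .nil)),
 (.br (nat_lit 4) (nat_lit 0) (.cons (.ev (nat_lit 79229376180969519338911498497) (nat_lit 1)) (.cons (.ev (nat_lit 5192455625558569504881580242567680) (nat_lit 2)) (.cons (.br (nat_lit 7) (nat_lit 0) (.cons (.ev (nat_lit 5192455625558569649561908705034240) (nat_lit 2)) (.cons (.ev (nat_lit 158458752361867261463545184514) (nat_lit 2)) .nil))) .nil)))),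
 (.br (nat_lit 0) (nat_lit 0) (.cons (.ev (nat_lit 79229376180969519338911498497) (nat_lit 1)) (.cons (.ev (nat_lit 5232861988440844317054287657239040) (nat_lit 2)) (.cons (.br (nat_lit 7) (nat_lit 0) (.cons (.ev (nat_lit 5233020447193169218489612771721728) (nat_lit 2)) (.cons (.ev (nat_lit 18518801667764322561) (nat_lit 1)) .nil))) .nil)))),
 (.br (nat_lit 7) (nat_lit 0) (.cons (.ev (nat_lit 1329370527251725294145707814982518533) (nat_lit 3)) .nil)),
 (.br (nat_lit 12) (nat_lit 0) (.cons (.rf (nat_lit 5) (nat_lit 17022140995484340291616)) (.cons (.rf (nat_lit 6) (nat_lit 17022140995484340291616)) (.cons (.rf (nat_lit 6) (nat_lit 17022140989878236878016)) (.cons (.kr (nat_lit 79228162514264337593543950336) (nat_lit 20282409603651670423947251286016) (nat_lit 12) (nat_lit 0)) (.cons (.br (nat_lit 13) (nat_lit 0) (.cons (.rf (nat_lit 5) (nat_lit 16986400428841528035360)) (.cons (.rf (nat_lit 6) (nat_lit 16986400428841528035360)) (.cons (.rf (nat_lit 6) (nat_lit 16986400423235424621760)) (.cons (.br (nat_lit 0) (nat_lit 0)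 (.cons (.rf (nat_lit 7) (nat_lit 583706118939841765935136)) (.cons (.rf (nat_lit 7) (nat_lit 583706118934235662521536)) (.cons (.ev (nat_lit 2663648288741492583156578452718551554) (nat_lit 2)) .nil)))) .nil))))) .nil)))))),
 (.br (nat_lit 0) (nat_lit 0) (.cons (.ev (nat_lit 79229376180969519338911498497) (nat_lit 1)) (.cons (.ev (nat_lit 5233020447193169218487422338269184) (nat_lit 2)) (.cons (.br (nat_lit 7) (nat_lit 0) (.cons (.ev (nat_lit 5233020447193169218489612771721728) (nat_lit 2)) (.cons (.ev (nat_lit 79229376180969518235104837633) (nat_lit 1)) .nil))) .nil)))),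
 (.br (nat_lit 0) (nat_lit 0) (.cons (.rf (nat_lit 8) (nat_lit 17022140995451054295072)) (.cons (.rf (nat_lit 9) (nat_lit 17022140995484340291616)) (.cons (.rf (nat_lit 9) (nat_lit 16986400428841528035360)) (.cons (.br (nat_lit 0) (nat_lit 0) (.cons (.rf (nat_lit 8) (nat_lit 17022140995451054295072)) (.cons (.rf (nat_lit 9) (nat_lit 17022140995484340291616)) (.cons (.rf (nat_lit 9) (nat_lit 16986400428841528035360)) .nil)))) .nil))))),
 (.br (nat_lit 7) (nat_lit 0) (.cons (.rf (nat_lit 8) (nat_lit 17022140995451054295072)) (.cons (.rf (nat_lit 10) (nat_lit 17022140995451054295072)) (.cons (.ev (nat_lit 5192614084310931732152816060530688) (nat_lit 3)) (.cons (.br (nat_lit 15) (nat_lit 0) (.cons (.br (nat_lit 15) (nat_lit 0) (.cons (.ev (nat_lit 1334420292954149358611837718192259328) (nat_lit 1)) (.cons (.ev (nat_lit 5232861988440844461734616119705600) (nat_lit 2)) .nil))) (.cons (.rf (nat_lit 8) (nat_lit 17022140995451051149455)) (.cons (.ev (nat_lit 5232861988440844461734616119705600) (nat_lit 2)) .nil)))) .nil))))),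
 (.br (nat_lit 7) (nat_lit 1) (.cons (.br (nat_lit 8) (nat_lit 1) (.cons (.br (nat_lit 9) (nat_lit 1) .nil) .nil)) (.cons (.br (nat_lit 8) (nat_lit 1) (.cons (.br (nat_lit 8) (nat_lit 1) .nil) .nil)) .nil))),
 (.br (nat_lit 11) (nat_lit 0) (.cons (.br (nat_lit 11) (nat_lit 0) (.cons (.br (nat_lit 12) (nat_lit 1) (.cons (.br (nat_lit 13) (nat_lit 1) (.cons (.br (nat_lit 10) (nat_lit 1) (.cons (.br (nat_lit 6) (nat_lit 0) (.cons (.rf (nat_lit 8) (nat_lit 17022140995484340291616)) (.cons (.rf (nat_lit 10) (nat_lit 17022140995484340291616)) (.cons (.kr (nat_lit 281474976710656) (nat_lit 72057594037927936) (nat_lit 6) (nat_lit 0)) (.cons (.rf (nat_lit 11) (nat_lit 17022140995484340291616)) (.cons (.rf (nat_lit 11) (nat_lit 16986400428841528035360)) (.cons (.br (nat_lit 4) (nat_lit 0) (.cons (.br (nat_lit 0) (nat_lit 0) (.cons (.rf (nat_lit 8) (nat_lit 17022140995451054295072)) (.cons (.ev (nat_lit 79229376180897180269896859905) (nat_lit 1)) (.cons (.ev (nat_lit 20282410817318303266623604195585) (nat_lit 1)) (.cons (.br (nat_lit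 7) (nat_lit 0) (.cons (.rf (nat_lit 11) (nat_lit 17022140995451054295072)) (.cons (.rf (nat_lit 11) (nat_lit 16986400428808242038816)) (.cons (.ev (nat_lit 36965828328863892226) (nat_lit 2)) .nil)))) .nil))))) (.cons (.rf (nat_lit 10) (nat_lit 17022140995451054295072)) (.cons (.rf (nat_lit 11) (nat_lit 17022140989778378888399)) (.cons (.rf (nat_lit 11) (nat_lit 16986400423135566632143)) (.cons (.rf (nat_lit 8) (nat_lit 17022140995484337145999)) .nil)))))) .nil))))))) (.cons (.rf (nat_lit 12) (nat_lit 16985867162722)) .nil))) .nil)) .nil)) .nil)) .nil)),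
 (.br (nat_lit 4) (nat_lit 0) (.cons (.ev (nat_lit 1334440575054268018907943249228398849) (nat_lit 1)) (.cons (.ev (nat_lit 2663668650376831452718582054510592512) (nat_lit 2)) (.cons (.br (nat_lit 7) (nat_lit 0) (.cons (.ev (nat_lit 2663668650376831452863262382973059072) (nat_lit 2)) (.cons (.ev (nat_lit 2658456150645126794051884775486062850) (nat_lit 2)) .nil))) .nil)))),
 (.br (nat_lit 0) (nat_lit 0) (.cons (.ev (nat_lit 1334440575054268018907943249228398849) (nat_lit 1)) (.cons (.ev (nat_lit 680569946500683926633660182797486326272) (nat_lit 2)) (.cons (.br (nat_lit 7) (nat_lit 0) (.cons (.ev (nat_lit 683228402651329053390746237036495176192) (nat_lit 2)) (.cons (.ev (nat_lit 18518801667764322561) (nat_lit 1)) .nil))) .nil)))),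
 (.br (nat_lit 7) (nat_lit 0) (.cons (.zr (nat_lit 10425158536286403691162596641344265) (nat_lit 261678469390197465737059618123928079171584) (nat_lit 24) (nat_lit 1)) .nil)),
 (.br (nat_lit 15) (nat_lit 0) (.cons (.rf (nat_lit 14) (nat_lit 19926519232773908561233952)) (.cons (.rf (nat_lit 15) (nat_lit 19926519232773908561233952)) (.cons (.rf (nat_lit 15) (nat_lit 19926519232768302457820352)) (.cons (.kr (nat_lit 1329227995784915872903807060280344576) (nat_lit 340282366920938463463374607431768211456) (nat_lit 15) (nat_lit 0)) (.cons (.br (nat_lit 16) (nat_lit 0) (.cons (.rf (nat_lit 14) (nat_lit 18755372345022236548237344)) (.cons (.rf (nat_lit 15) (nat_lit 18755372345022236548237344)) (.cons (.rf (nat_lit 15) (nat_lit 18755372345016630444823744)) (.cons (.br (nat_lit 0) (nat_lit 0) (.cons (.rf (nat_lit 16) (nat_lit 677582165103132179601393696)) (.cons (.rf (nat_lit 16) (nat_lit 677582165103126573497980096)) (.cons (.ev (nat_lit 174224577076338375587965988415316745716226) (nat_lit 2)) .nil)))) .nil))))) .nil)))))),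
 (.br (nat_lit 0) (nat_lit 0) (.cons (.ev (nat_lit 1334440575054268018907943249228398849) (nat_lit 1)) (.cons (.ev (nat_lit 683228402651329053390746239244108496896) (nat_lit 2)) (.cons (.br (nat_lit 7) (nat_lit 0) (.cons (.ev (nat_lit 683228402651329053390746237036495176192) (nat_lit 2)) (.cons (.ev (nat_lit 1334440575054268018907942145421737985) (nat_lit 1)) .nil))) .nil)))),
 (.br (nat_lit 0) (nat_lit 0) (.cons (.rf (nat_lit 17) (nat_lit 19926519232773875275237408)) (.cons (.rf (nat_lit 18) (nat_lit 19926519232773908561233952)) (.cons (.rf (nat_lit 18) (nat_lit 18755372345022236548237344)) (.cons (.br (nat_lit 0) (nat_lit 0) (.cons (.rf (nat_lit 17) (nat_lit 19926519232773875275237408)) (.cons (.rf (nat_lit 18) (nat_lit 19926519232773908561233952)) (.cons (.rf (nat_lit 18) (nat_lit 18755372345022236548237344)) .nil)))) .nil))))),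
 (.br (nat_lit 7) (nat_lit 0) (.cons (.rf (nat_lit 17) (nat_lit 19926519232773875275237408)) (.cons (.rf (nat_lit 19) (nat_lit 19926519232773875275237408)) (.cons (.kr (nat_lit 340282366920938463463374888906744922112) (nat_lit 1329227995784915872975864654318272512) (nat_lit 6) (nat_lit 0)) (.cons (.br (nat_lit 17) (nat_lit 0) (.cons (.br (nat_lit 17) (nat_lit 0) (.cons (.ev (nat_lit 87112285931760246646642418305299938017536) (nat_lit 1)) (.cons (.ev (nat_lit 680569946500683926633804863125948792832) (nat_lit 2)) .nil))) (.cons (.rf (nat_lit 17) (nat_lit 19926519232773875272091793)) (.cons (.ev (nat_lit 680569946500683926633804863125948792832) (nat_lit 2)) .nil)))) .nil))))),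
 (.br (nat_lit 11) (nat_lit 1) (.cons (.br (nat_lit 12) (nat_lit 1) (.cons (.br (nat_lit 13) (nat_lit 0) (.cons (.br (nat_lit 13) (nat_lit 0) (.cons (.br (nat_lit 15) (nat_lit 1) (.cons (.br (nat_lit 14) (nat_lit 0) (.cons (.br (nat_lit 6) (nat_lit 0) (.cons (.rf (nat_lit 17) (nat_lit 19926519232773908561233952)) (.cons (.rf (nat_lit 19) (nat_lit 19926519232773908561233952)) (.cons (.kr (nat_lit 281474976710656) (nat_lit 72057594037927936) (nat_lit 6) (nat_lit 0)) (.cons (.rf (nat_lit 20) (nat_lit 19926519232773908561233952)) (.cons (.rf (nat_lit 20) (nat_lit 18755372345022236548237344)) (.cons (.br (nat_lit 4) (nat_lit 0) (.cons (.br (nat_lit 0) (nat_lit 0) (.cons (.rf (nat_lit 17) (nat_lit 19926519232773875275237408)) (.cons (.ev (nat_lit 1334440575054268018835604180213760257) (nat_lit 1)) (.cons (.ev (nat_lit 340282367000476110987460290098331910401) (nat_lit 1)) (.cons (.br (nat_lit 7) (nat_lit 0) (.cons (.rf (nat_lit 20) (nat_lit 19926519232773875275237408)) (.cons (.rf (nat_lit 20) (nat_lit 18755372345022203262240800))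 (.cons (.ev (nat_lit 36965828328863892226) (nat_lit 2)) .nil)))) .nil))))) (.cons (.rf (nat_lit 19) (nat_lit 19926519232773875275237408)) (.cons (.rf (nat_lit 20) (nat_lit 19926519232768202599830737)) (.cons (.rf (nat_lit 20) (nat_lit 18755372345016530586834129)) (.cons (.rf (nat_lit 17) (nat_lit 19926519232773908558088337)) .nil)))))) .nil))))))) .nil)) .nil)) .nil)) .nil)) .nil)) .nil)),
 (.br (nat_lit 7) (nat_lit 1) .nil),
 (.br (nat_lit 4) (nat_lit 0) (.cons (.ev (nat_lit 5192456244538034025215594978279938) (nat_lit 2)) (.cons (.ev (nat_lit 79538856468352042468959650048) (nat_lit 1)) (.cons (.br (nat_lit 7) (nat_lit 0) (.cons (.ev (nat_lit 79538856468424380434167627776) (nat_lit 1)) (.cons (.ev (nat_lit 5192456244538034096992809256092418) (nat_lit 2)) .nil))) .nil)))),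
 (.br (nat_lit 0) (nat_lit 0) (.cons (.ev (nat_lit 5192456244538034025215594978279938) (nat_lit 2)) (.cons (.ev (nat_lit 20282720297605758128822666985728) (nat_lit 1)) (.cons (.br (nat_lit 7) (nat_lit 0) (.cons (.ev (nat_lit 20361947255916569615027851559168) (nat_lit 1)) (.cons (.ev (nat_lit 5192297790621412402243167429263874) (nat_lit 2)) .nil))) .nil)))),
 (.br (nat_lit 7) (nat_lit 0) (.cons (.ev (nat_lit 1329289081938600595905070012729393925) (nat_lit 3)) .nil)),
 (.br (nat_lit 12) (nat_lit 0) (.cons (.rf (nat_lit 23) (nat_lit 17022140995484340291616)) (.cons (.rf (nat_lit 24) (nat_lit 17022140995484340291616)) (.cons (.rf (nat_lit 24) (nat_lit 13480473123401525105856)) (.cons (.kr (nat_lit 79228162514264337593543950336) (nat_lit 20282409603651670423947251286016) (nat_lit 12) (nat_lit 0)) (.cons (.br (nat_lit 13) (nat_lit 0) (.cons (.rf (nat_lit 23) (nat_lit 16986400428841528035360)) (.cons (.rf (nat_lit 24) (nat_lit 16986400428841528035360)) (.cons (.rf (nat_lit 24) (nat_lit 13444732556758712849600)) (.cons (.br (nat_lit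 0) (nat_lit 0) (.cons (.rf (nat_lit 25) (nat_lit 583706118939841765935136)) (.cons (.rf (nat_lit 25) (nat_lit 580164451067758950749376)) (.cons (.ev (nat_lit 1334420292644659626352233660777824513) (nat_lit 1)) .nil)))) .nil))))) .nil)))))),
 (.br (nat_lit 0) (nat_lit 0) (.cons (.ev (nat_lit 5192456244538034025215594978279938) (nat_lit 2)) (.cons (.ev (nat_lit 20361947255916569616131658088448) (nat_lit 1)) (.cons (.br (nat_lit 7) (nat_lit 0) (.cons (.ev (nat_lit 20361947255916569615027851559168) (nat_lit 1)) (.cons (.ev (nat_lit 5192456244538034025217785411469314) (nat_lit 2)) .nil))) .nil)))),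
 (.br (nat_lit 0) (nat_lit 0) (.cons (.rf (nat_lit 26) (nat_lit 17022140995451054295072)) (.cons (.rf (nat_lit 27) (nat_lit 17022140995484340291616)) (.cons (.rf (nat_lit 27) (nat_lit 16986400428841528035360)) (.cons (.br (nat_lit 0) (nat_lit 0) (.cons (.rf (nat_lit 26) (nat_lit 17022140995451054295072)) (.cons (.rf (nat_lit 27) (nat_lit 17022140995484340291616)) (.cons (.rf (nat_lit 27) (nat_lit 16986400428841528035360)) .nil)))) .nil))))),
 (.br (nat_lit 7) (nat_lit 0) (.cons (.rf (nat_lit 26) (nat_lit 17022140995451054295072)) (.cons (.rf (nat_lit 28) (nat_lit 17022140995451054295072)) (.cons (.ev (nat_lit 5192615322269860196355695182282752) (nat_lit 3)) (.cons (.br (nat_lit 15) (nat_lit 0) (.cons (.br (nat_lit 15) (nat_lit 0) (.cons (.ev (nat_lit 2663648289360453158209855088966566400) (nat_lit 2)) (.cons (.ev (nat_lit 20282720297605830466787874963456) (nat_lit 1)) .nil))) (.cons (.rf (nat_lit 26) (nat_lit 17022140995451051149455)) (.cons (.ev (nat_lit 20282720297605830466787874963456) (nat_lit 1)) .nil)))) .nil))))),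
 (.br (nat_lit 8) (nat_lit 1) (.cons (.br (nat_lit 9) (nat_lit 1) .nil) .nil)),
 (.br (nat_lit 4) (nat_lit 0) (.cons (.ev (nat_lit 1329228075323777063694671467916624129) (nat_lit 1)) (.cons (.ev (nat_lit 2663668650379258712197291103720899072) (nat_lit 2)) (.cons (.br (nat_lit 7) (nat_lit 0) (.cons (.ev (nat_lit 2663668650379258712341967034137116672) (nat_lit 2)) (.cons (.ev (nat_lit 2658456150647554127317565721555435778) (nat_lit 2)) .nil))) .nil))))]

theorem c0 : chkAll C T R L0 (nat_lit 0) = true := by decide +kernel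

theorem l0 : (nat_lit 0) + L0.length = (nat_lit 32) := by decide +kernel

/-- part of the certificates -/
def L1 : List Prf := [(.br (nat_lit 0) (nat_lit 0) (.cons (.ev (nat_lit 1329228075323777063694671467916624129) (nat_lit 1)) (.cons (.ev (nat_lit 680569946500686353893138891846696632832) (nat_lit 2)) (.cons (.br (nat_lit 7) (nat_lit 0) (.cons (.ev (nat_lit 683228402651331480724011922380611060224) (nat_lit 2)) (.cons (.ev (nat_lit 1213648258156192369475841) (nat_lit 1)) .nil))) .nil)))),
 (.br (nat_lit 7) (nat_lit 0) (.cons (.zr (nat_lit 87112285931918702971689393723461241015045) (nat_lit 341611594917342349355921953508309336064) (nat_lit 24) (nat_lit 1)) .nil)),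
 (.br (nat_lit 15) (nat_lit 0) (.cons (.rf (nat_lit 31) (nat_lit 19926519232773908561233952)) (.cons (.rf (nat_lit 32) (nat_lit 19926519232773908561233952)) (.cons (.rf (nat_lit 32) (nat_lit 19926519231677586923066560)) (.cons (.kr (nat_lit 1329227995784915872903807060280344576) (nat_lit 340282366920938463463374607431768211456) (nat_lit 15) (nat_lit 0)) (.cons (.br (nat_lit 16) (nat_lit 0) (.cons (.rf (nat_lit 31) (nat_lit 18755372345022236548237344)) (.cons (.rf (nat_lit 32) (nat_lit 18755372345022236548237344)) (.cons (.rf (nat_lit 32) (nat_lit 18755372343925914910069952)) (.cons (.br (nat_lit 0) (nat_lit 0) (.cons (.rf (nat_lit 33) (nat_lit 677582165103132179601393696)) (.cons (.rf (nat_lit 33) (nat_lit 677582165102035857963226304)) (.cons (.ev (nat_lit 174224577076338378015299254096262814827010) (nat_lit 2)) .nil)))) .nil))))) .nil)))))),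
 (.br (nat_lit 0) (nat_lit 0) (.cons (.ev (nat_lit 1329228075323777063694671467916624129) (nat_lit 1)) (.cons (.ev (nat_lit 683228402651331480724011920190177607680) (nat_lit 2)) (.cons (.br (nat_lit 7) (nat_lit 0) (.cons (.ev (nat_lit 683228402651331480724011922380611060224) (nat_lit 2)) (.cons (.ev (nat_lit 1329228075323777063694670364109963265) (nat_lit 1)) .nil))) .nil)))),
 (.br (nat_lit 0) (nat_lit 0) (.cons (.rf (nat_lit 34) (nat_lit 19926519232773875275237408)) (.cons (.rf (nat_lit 35) (nat_lit 19926519232773908561233952)) (.cons (.rf (nat_lit 35) (nat_lit 18755372345022236548237344)) (.cons (.br (nat_lit 0) (nat_lit 0) (.cons (.rf (nat_lit 34) (nat_lit 19926519232773875275237408)) (.cons (.rf (nat_lit 35) (nat_lit 19926519232773908561233952)) (.cons (.rf (nat_lit 35) (nat_lit 18755372345022236548237344)) .nil)))) .nil))))),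
 (.br (nat_lit 7) (nat_lit 0) (.cons (.rf (nat_lit 34) (nat_lit 19926519232773875275237408)) (.cons (.rf (nat_lit 36) (nat_lit 19926519232773875275237408)) (.cons (.kr (nat_lit 340282366920938463463374888906744922112) (nat_lit 1329227995784915872975864654318272512) (nat_lit 6) (nat_lit 0)) (.cons (.br (nat_lit 17) (nat_lit 0) (.cons (.br (nat_lit 17) (nat_lit 0) (.cons (.ev (nat_lit 87112291144419052432645802942405787255040) (nat_lit 1)) (.cons (.ev (nat_lit 680569946500686353893283567777112850432) (nat_lit 2)) .nil))) (.cons (.rf (nat_lit 34) (nat_lit 19926519232773875272091793)) (.cons (.ev (nat_lit 680569946500686353893283567777112850432) (nat_lit 2)) .nil)))) .nil))))),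
 (.br (nat_lit 10) (nat_lit 1) (.cons (.br (nat_lit 11) (nat_lit 1) (.cons (.br (nat_lit 12) (nat_lit 0) (.cons (.br (nat_lit 12) (nat_lit 0) (.cons (.br (nat_lit 14) (nat_lit 1) (.cons (.br (nat_lit 13) (nat_lit 0) (.cons (.kr (nat_lit 20282410812596008840244173472000) (nat_lit 79537652246452165536208977920) (nat_lit 1) (nat_lit 0)) .nil)) .nil)) .nil)) .nil)) .nil)) .nil)),
 (.br (nat_lit 9) (nat_lit 1) (.cons (.br (nat_lit 11) (nat_lit 0) (.cons (.br (nat_lit 11) (nat_lit 0) (.cons (.br (nat_lit 12) (nat_lit 1) (.cons (.br (nat_lit 13) (nat_lit 1) (.cons (.br (nat_lit 10) (nat_lit 1) (.cons (.br (nat_lit 6) (nat_lit 0) (.cons (.rf (nat_lit 26) (nat_lit 17022140995484340291616)) (.cons (.rf (nat_lit 28) (nat_lit 17022140995484340291616)) (.cons (.kr (nat_lit 281474976710656) (nat_lit 72057594037927936) (nat_lit 6) (nat_lit 0)) (.cons (.rf (nat_lit 29) (nat_lit 17022140995484340291616)) (.cons (.rf (nat_lit 29) (nat_lit 16986400428841528035360)) (.cons (.br (nat_lit 4) (nat_lit 0) (.cons (.br (nat_lit 0) (nat_lit 0) (.cons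 (.rf (nat_lit 26) (nat_lit 17022140995451054295072)) (.cons (.ev (nat_lit 5192456244538033880537456949002754) (nat_lit 2)) (.cons (.ev (nat_lit 5232862607420308692710164363674114) (nat_lit 2)) (.cons (.br (nat_lit 7) (nat_lit 0) (.cons (.rf (nat_lit 29) (nat_lit 17022140995451054295072)) (.cons (.rf (nat_lit 29) (nat_lit 16986400428808242038816)) (.cons (.ev (nat_lit 5192297790621412475144091180466434) (nat_lit 2)) .nil)))) .nil))))) (.cons (.rf (nat_lit 28) (nat_lit 17022140995451054295072)) (.cons (.rf (nat_lit 29) (nat_lit 13480473123301667116239)) (.cons (.rf (nat_lit 29) (nat_lit 13444732556658854859983)) (.cons (.rf (nat_lit 26) (nat_lit 17022140995484337145999)) .nil)))))) .nil))))))) (.cons (.rf (nat_lit 12) (nat_lit 16982646035554)) .nil))) .nil)) .nil)) .nil)) .nil)) (.cons (.br (nat_lit 10) (nat_lit 1) (.cons (.br (nat_lit 11) (nat_lit 1) (.cons (.br (nat_lit 12) (nat_lit 0) (.cons (.br (nat_lit 13) (nat_lit 1) (.cons (.rf (nat_lit 30) (nat_lit 15817636058210)) .nil)) .nil)) (.cons (.br (nat_lit 12) (nat_lit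 1) (.cons (.br (nat_lit 12) (nat_lit 1) (.cons (.br (nat_lit 13) (nat_lit 0) (.cons (.br (nat_lit 13) (nat_lit 0) (.cons (.br (nat_lit 15) (nat_lit 1) (.cons (.br (nat_lit 14) (nat_lit 0) (.cons (.br (nat_lit 6) (nat_lit 0) (.cons (.rf (nat_lit 34) (nat_lit 19926519232773908561233952)) (.cons (.rf (nat_lit 36) (nat_lit 19926519232773908561233952)) (.cons (.kr (nat_lit 281474976710656) (nat_lit 72057594037927936) (nat_lit 6) (nat_lit 0)) (.cons (.rf (nat_lit 37) (nat_lit 19926519232773908561233952)) (.cons (.rf (nat_lit 37) (nat_lit 18755372345022236548237344)) (.cons (.br (nat_lit 4) (nat_lit 0) (.cons (.br (nat_lit 0) (nat_lit 0) (.cons (.rf (nat_lit 34) (nat_lit 19926519232773875275237408)) (.cons (.ev (nat_lit 1329228075323777063622332398901985537) (nat_lit 1)) (.cons (.ev (nat_lit 340287579500206601942673561879643685121) (nat_lit 1)) (.cons (.br (nat_lit 7) (nat_lit 0) (.cons (.rf (nat_lit 37) (nat_lit 19926519232773875275237408)) (.cons (.rf (nat_lit 37) (nat_lit 18755372345022203262240800)) (.cons (.ev (nat_lit 2427296444537378074460930)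 (nat_lit 2)) .nil)))) .nil))))) (.cons (.rf (nat_lit 36) (nat_lit 19926519232773875275237408)) (.cons (.rf (nat_lit 37) (nat_lit 19926519231677487065076945)) (.cons (.rf (nat_lit 37) (nat_lit 18755372343925815052080337)) (.cons (.rf (nat_lit 34) (nat_lit 19926519232773908558088337)) .nil)))))) .nil))))))) .nil)) .nil)) .nil)) .nil)) .nil)) .nil)) .nil))) (.cons (.br (nat_lit 12) (nat_lit 0) (.cons (.br (nat_lit 13) (nat_lit 1) (.cons (.rf (nat_lit 12) (nat_lit 12579198342402)) .nil)) .nil)) (.cons (.br (nat_lit 11) (nat_lit 1) (.cons (.rf (nat_lit 38) (nat_lit 445092485129178177)) (.cons (.br (nat_lit 11) (nat_lit 1) (.cons (.rf (nat_lit 38) (nat_lit 445092485129178177)) (.cons (.rf (nat_lit 12) (nat_lit 11273529398690)) .nil))) .nil))) .nil)))) .nil))),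
 (.br (nat_lit 5) (nat_lit 1) (.cons (.br (nat_lit 8) (nat_lit 1) (.cons (.rf (nat_lit 22) (nat_lit 249904018688032)) .nil)) (.cons (.br (nat_lit 8) (nat_lit 1) (.cons (.br (nat_lit 8) (nat_lit 1) .nil) .nil)) .nil))),
 (.br (nat_lit 9) (nat_lit 1) (.cons (.rf (nat_lit 40) (nat_lit 15850887417921)) (.cons (.br (nat_lit 13) (nat_lit 1) (.cons (.rf (nat_lit 12) (nat_lit 10150559944769)) (.cons (.br (nat_lit 14) (nat_lit 1) (.cons (.kr (nat_lit 5212579268138497817756111327985920) (nat_lit 1329227995786129521089904563395297280) (nat_lit 1) (nat_lit 0)) .nil)) .nil))) .nil))),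
 (.br (nat_lit 9) (nat_lit 1) (.cons (.rf (nat_lit 40) (nat_lit 15850887417921)) (.cons (.rf (nat_lit 41) (nat_lit 17022140995484340291616)) (.cons (.br (nat_lit 9) (nat_lit 1) (.cons (.rf (nat_lit 40) (nat_lit 15850887417921)) (.cons (.rf (nat_lit 41) (nat_lit 17022140995484340291616)) .nil))) .nil)))),
 (.br (nat_lit 11) (nat_lit 0) (.cons (.br (nat_lit 11) (nat_lit 0) (.cons (.br (nat_lit 12) (nat_lit 1) (.cons (.br (nat_lit 13) (nat_lit 1) (.cons (.br (nat_lit 9) (nat_lit 1) (.cons (.rf (nat_lit 39) (nat_lit 11584701642934304)) (.cons (.rf (nat_lit 4) (nat_lit 9069499490)) (.cons (.rf (nat_lit 42) (nat_lit 18240816216870055185473)) .nil)))) .nil)) .nil)) .nil)) .nil)),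
 (.br (nat_lit 9) (nat_lit 1) (.cons (.kr (nat_lit 18518801667747479808) (nat_lit 4722366482873940246528) (nat_lit 1) (nat_lit 0)) (.cons (.br (nat_lit 12) (nat_lit 0) (.cons (.br (nat_lit 12) (nat_lit 0) (.cons (.br (nat_lit 13) (nat_lit 1) (.cons (.br (nat_lit 14) (nat_lit 1) (.cons (.rf (nat_lit 42) (nat_lit 12375941607052547398789)) .nil)) .nil)) .nil)) .nil)) .nil))),
 (.br (nat_lit 10) (nat_lit 0) (.cons (.br (nat_lit 10) (nat_lit 0) .nil) .nil)),
 (.br (nat_lit 6) (nat_lit 1) (.cons (.rf (nat_lit 1) (nat_lit 211798853664)) (.cons (.br (nat_lit 7) (nat_lit 1) (.cons (.kr (nat_lit 281474976710656) (nat_lit 72057594037927936) (nat_lit 6) (nat_lit 0)) (.cons (.rf (nat_lit 1) (nat_lit 246192146464)) .nil))) .nil))),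
 (.br (nat_lit 5) (nat_lit 1) (.cons (.rf (nat_lit 0) (nat_lit 5573314592)) (.cons (.br (nat_lit 5) (nat_lit 1) (.cons (.rf (nat_lit 0) (nat_lit 5606869024)) (.cons (.br (nat_lit 6) (nat_lit 1) (.cons (.rf (nat_lit 46) (nat_lit 247132686368)) (.cons (.rf (nat_lit 1) (nat_lit 211798853664)) (.cons (.br (nat_lit 6) (nat_lit 1) (.cons (.rf (nat_lit 46) (nat_lit 247132686368)) (.cons (.rf (nat_lit 1) (nat_lit 211832408096)) .nil))) .nil)))) .nil))) .nil))),
 (.br (nat_lit 8) (nat_lit 1) (.cons (.rf (nat_lit 45) (nat_lit 11584701642934304)) (.cons (.rf (nat_lit 47) (nat_lit 344166465)) .nil))),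
 (.br (nat_lit 11) (nat_lit 1) (.cons (.rf (nat_lit 40) (nat_lit 13648712175681)) (.cons (.br (nat_lit 12) (nat_lit 1) (.cons (.br (nat_lit 13) (nat_lit 1) (.cons (.rf (nat_lit 45) (nat_lit 16088301270304800)) .nil)) (.cons (.rf (nat_lit 12) (nat_lit 12384951570497)) .nil))) .nil))),
 (.br (nat_lit 8) (nat_lit 1) (.cons (.ev (nat_lit 1208944338416301217218816) (nat_lit 1)) (.cons (.rf (nat_lit 47) (nat_lit 338006273)) (.cons (.br (nat_lit 10) (nat_lit 1) (.cons (.br (nat_lit 11) (nat_lit 1) (.cons (.rf (nat_lit 45) (nat_lit 13836501456619552)) (.cons (.br (nat_lit 12) (nat_lit 1) (.cons (.rf (nat_lit 12) (nat_lit 13649785884737)) (.cons (.br (nat_lit 12) (nat_lit 1) (.cons (.rf (nat_lit 12) (nat_lit 13684145623105)) .nil)) .nil))) .nil))) (.cons (.rf (nat_lit 4) (nat_lit 9003307073)) (.cons (.br (nat_lit 11) (nat_lit 1) (.cons (.rf (nat_lit 49) (nat_lit 14242959524133701664)) (.cons (.rf (nat_lit 40) (nat_lit 13648712175681)) (.cons (.br (nat_lit 11) (nat_lit 1) (.cons (.rf (nat_lit 49) (nat_lit 14242959524133701664))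 (.cons (.rf (nat_lit 40) (nat_lit 13683071914049)) .nil))) .nil)))) .nil)))) .nil)))),
 (.br (nat_lit 10) (nat_lit 1) (.cons (.rf (nat_lit 45) (nat_lit 13836501456619552)) (.cons (.br (nat_lit 12) (nat_lit 1) (.cons (.rf (nat_lit 12) (nat_lit 13643310960865)) (.cons (.br (nat_lit 12) (nat_lit 1) (.cons (.rf (nat_lit 12) (nat_lit 13677670699233)) .nil)) .nil))) .nil))),
 (.br (nat_lit 12) (nat_lit 1) (.cons (.br (nat_lit 13) (nat_lit 1) (.cons (.rf (nat_lit 45) (nat_lit 16088301270304800)) .nil)) (.cons (.rf (nat_lit 12) (nat_lit 11079282594017)) .nil))),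
 (.br (nat_lit 10) (nat_lit 1) (.cons (.br (nat_lit 11) (nat_lit 1) (.cons (.ev (nat_lit 79538856468424098963485950208) (nat_lit 1)) (.cons (.rf (nat_lit 12) (nat_lit 13471512432865)) (.cons (.br (nat_lit 12) (nat_lit 1) (.cons (.br (nat_lit 13) (nat_lit 1) (.cons (.rf (nat_lit 45) (nat_lit 16088301270304800)) .nil)) (.cons (.rf (nat_lit 12) (nat_lit 12337642148097)) .nil))) .nil)))) (.cons (.rf (nat_lit 45) (nat_lit 14962401363462176)) (.cons (.br (nat_lit 11) (nat_lit 1) (.cons (.br (nat_lit 12) (nat_lit 1) (.cons (.br (nat_lit 13) (nat_lit 1) (.cons (.rf (nat_lit 45) (nat_lit 16088301270304800)) .nil)) (.cons (.rf (nat_lit 12) (nat_lit 11071734092033)) .nil))) (.cons (.br (nat_lit 12) (nat_lit 1) (.cons (.br (nat_lit 12) (nat_lit 1) (.cons (.rf (nat_lit 45) (nat_lit 16088301270304800)) .nil)) (.cons (.rf (nat_lit 45) (nat_lit 16088301270304800)) .nil))) (.cons (.rf (nat_lit 12) (nat_lit 14571024093409)) .nil)))) .nil)))),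
 (.br (nat_lit 8) (nat_lit 1) (.cons (.kr (nat_lit 18518801667747479808) (nat_lit 309485009821345073019813888) (nat_lit 1) (nat_lit 0)) (.cons (.rf (nat_lit 47) (nat_lit 411275329)) .nil))),
 (.br (nat_lit 10) (nat_lit 0) (.cons (.ev (nat_lit 18519084242235883521) (nat_lit 1)) (.cons (.ev (nat_lit 79849564607985938927559311872) (nat_lit 2)) (.cons (.br (nat_lit 11) (nat_lit 0) (.cons (.ev (nat_lit 4722438821942954819841) (nat_lit 1)) (.cons (.ev (nat_lit 79849555126359487231282970624) (nat_lit 2)) .nil))) .nil)))),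
 (.br (nat_lit 0) (nat_lit 0) (.cons (.ev (nat_lit 18519083147019157761) (nat_lit 1)) (.cons (.ev (nat_lit 310693954087703775904006401) (nat_lit 1)) (.cons (.br (nat_lit 7) (nat_lit 0) (.cons (.ev (nat_lit 79228167255222243783080083968) (nat_lit 2)) (.cons (.br (nat_lit 11) (nat_lit 0) (.cons (.zr (nat_lit 79228167291971053783879976452) (nat_lit 621387871426597576777924608) (nat_lit 16) (nat_lit 1)) .nil)) .nil))) .nil)))),
 (.br (nat_lit 7) (nat_lit 0) (.cons (.ev (nat_lit 4722438823038171545601) (nat_lit 1)) (.cons (.ev (nat_lit 79228167255222243783080083968) (nat_lit 2)) (.cons (.br (nat_lit 10) (nat_lit 0) (.cons (.ev (nat_lit 310698658007443667056394241) (nat_lit 1)) (.cons (.ev (nat_lit 81087523574063649550319813632) (nat_lit 3)) .nil))) .nil)))),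
 (.br (nat_lit 6) (nat_lit 0) (.cons (.rf (nat_lit 55) (nat_lit 14242959524133701664)) (.cons (.ev (nat_lit 79228176736848697669789614592) (nat_lit 2)) (.cons (.rf (nat_lit 56) (nat_lit 14242959524133701664)) (.cons (.rf (nat_lit 57) (nat_lit 14242959524133701664)) (.cons (.br (nat_lit 7) (nat_lit 0) (.cons (.rf (nat_lit 55) (nat_lit 14208022508875122720)) (.cons (.rf (nat_lit 57) (nat_lit 14208022508875122720)) (.cons (.rf (nat_lit 56) (nat_lit 14208022508875122720)) (.cons (.ev (nat_lit 79228176736848699860222803968) (nat_lit 2)) .nil))))) .nil)))))),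
 (.br (nat_lit 0) (nat_lit 0) (.cons (.rf (nat_lit 58) (nat_lit 14242959524133701664)) (.cons (.ev (nat_lit 79228176736848699860222803968) (nat_lit 2)) (.cons (.ev (nat_lit 1208925819896104168259841) (nat_lit 1)) (.cons (.br (nat_lit 4) (nat_lit 0) (.cons (.ev (nat_lit 79847137311757859109371707904) (nat_lit 2)) (.cons (.ev (nat_lit 79230594551450323584020447744) (nat_lit 2)) (.cons (.br (nat_lit 7) (nat_lit 0) (.cons (.ev (nat_lit 79849555237473990485674886148) (nat_lit 3)) (.cons (.ev (nat_lit 309485009893403766586081281) (nat_lit 1)) .nil))) .nil)))) (.cons (.br (nat_lit 4) (nat_lit 0) (.cons (.br (nat_lit 10) (nat_lit 0) (.cons (.ev (nat_lit 79230604070403180755237143552) (nat_lit 3)) (.cons (.br (nat_lit 11) (nat_lit 0) (.cons (.ev (nat_lit 79849555126359487231282970624) (nat_lit 2)) .nil)) .nil))) (.cons (.ev (nat_lit 79230594551450323584020447744) (nat_lit 2)) (.cons (.br (nat_lit 7) (nat_lit 0) (.cons (.ev (nat_lit 309499213959244736670728448) (nat_lit 2)) (.cons (.ev (nat_lit 80775587692786787710933598980) (nat_lit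 3)) .nil))) (.cons (.br (nat_lit 10) (nat_lit 0) (.cons (.br (nat_lit 11) (nat_lit 0) (.cons (.ev (nat_lit 309489750706629606134317313) (nat_lit 1)) .nil)) (.cons (.ev (nat_lit 1213666633124151329554433) (nat_lit 1)) (.cons (.ev (nat_lit 121773695526684790038379819895814) (nat_lit 4)) .nil)))) .nil))))) .nil)))))),
 (.br (nat_lit 0) (nat_lit 0) (.cons (.br (nat_lit 7) (nat_lit 0) (.cons (.ev (nat_lit 5334828322902767312611894943220230) (nat_lit 3)) (.cons (.ev (nat_lit 5192376705676861825211552934068739) (nat_lit 2)) (.cons (.br (nat_lit 10) (nat_lit 0) (.cons (.ev (nat_lit 20361638975091754376174281687296) (nat_lit 1)) (.cons (.ev (nat_lit 79229376162522774165673476353) (nat_lit 1)) .nil))) .nil)))) (.cons (.br (nat_lit 4) (nat_lit 0) (.cons (.ev (nat_lit 18447026652509634561) (nat_lit 1)) (.cons (.ev (nat_lit 5253223934492539131190145288700418) (nat_lit 2)) (.cons (.br (nat_lit 11) (nat_lit 0) (.cons (.ev (nat_lit 20361947251175828446778063126528) (nat_lit 1)) (.cons (.ev (nat_lit 20520403576222948261615303328257) (nat_lit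 2)) .nil))) .nil)))) (.cons (.br (nat_lit 4) (nat_lit 0) (.cons (.ev (nat_lit 18447026652509634561) (nat_lit 1)) (.cons (.ev (nat_lit 20361638975091754376174281687296) (nat_lit 1)) (.cons (.br (nat_lit 7) (nat_lit 0) (.cons (.ev (nat_lit 5253225172432615597725985315816962) (nat_lit 3)) (.cons (.br (nat_lit 11) (nat_lit 0) (.cons (.ev (nat_lit 1329309284811746870667506722082391301) (nat_lit 3)) .nil)) .nil))) .nil)))) (.cons (.br (nat_lit 7) (nat_lit 0) (.cons (.ev (nat_lit 5192376705676861825211552934068739) (nat_lit 2)) (.cons (.ev (nat_lit 20361947251175828446778063126528) (nat_lit 1)) (.cons (.br (nat_lit 10) (nat_lit 0) (.cons (.zr (nat_lit 101493133090849991272915370442754) (nat_lit 25961484295096712149490509564347392) (nat_lit 8) (nat_lit 11)) (.cons (.zr (nat_lit 396140817386066569343958778880) (nat_lit 5293709527940957262572926919573508) (nat_lit 8) (nat_lit 10)) .nil))) .nil)))) (.cons (.br (nat_lit 7) (nat_lit 0) (.cons (.br (nat_lit 10) (nat_lit 0) (.cons (.zr (nat_lit 5192376086702082707220958921555968) (nat_lit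 60847231228806794621785737266176) (nat_lit 8) (nat_lit 4)) (.cons (.zr (nat_lit 5192376086697360340175139306143746) (nat_lit 20282412026225676141572820829184) (nat_lit 8) (nat_lit 4)) .nil))) (.cons (.br (nat_lit 4) (nat_lit 0) (.cons (.ev (nat_lit 20282720302328124892063482315008) (nat_lit 1)) (.cons (.br (nat_lit 11) (nat_lit 0) (.cons (.ev (nat_lit 1329350008711103704387765088790119687) (nat_lit 3)) .nil)) .nil))) (.cons (.br (nat_lit 10) (nat_lit 0) (.cons (.ev (nat_lit 20282720302328124892063482315008) (nat_lit 1)) (.cons (.ev (nat_lit 310693954159761365663809793) (nat_lit 1)) .nil))) (.cons (.ev (nat_lit 5253381771838066390158349707575810) (nat_lit 2)) .nil))))) .nil))))))]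

theorem c1 : chkAll C T R L1 (nat_lit 32) = true := by decide +kernel

theorem l1 : (nat_lit 32) + L1.length = (nat_lit 61) := by decide +kernel

/-- part of the certificates -/
def L2 : List Prf := [(.br (nat_lit 0) (nat_lit 0) (.cons (.zr (nat_lit 20282414453522048336570494222338) (nat_lit 5192534543022425906453636119069696) (nat_lit 8) (nat_lit 7)) (.cons (.ev (nat_lit 5253223934492539131190145288700418) (nat_lit 2)) (.cons (.br (nat_lit 10) (nat_lit 0) (.cons (.zr (nat_lit 5192376091537786272783951865249792) (nat_lit 60849085721013939910701614105600) (nat_lit 8) (nat_lit 4)) (.cons (.ev (nat_lit 79229376162522775260890202113) (nat_lit 1)) .nil))) .nil)))),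
 (.br (nat_lit 0) (nat_lit 0) (.cons (.zr (nat_lit 20282414453522048336570494222338) (nat_lit 5192534543022425906453636119069696) (nat_lit 8) (nat_lit 7)) (.cons (.ev (nat_lit 20282720302328124893167288844288) (nat_lit 1)) (.cons (.br (nat_lit 7) (nat_lit 0) (.cons (.ev (nat_lit 20282720302328124892063482315008) (nat_lit 1)) (.cons (.br (nat_lit 11) (nat_lit 0) (.cons (.ev (nat_lit 1329269036283792234870375957513242375) (nat_lit 3)) .nil)) .nil))) .nil)))),
 (.br (nat_lit 0) (nat_lit 0) (.cons (.ev (nat_lit 5253223934492539131190145288700418) (nat_lit 2)) (.cons (.ev (nat_lit 20282720302328124893167288844288) (nat_lit 1)) (.cons (.br (nat_lit 7) (nat_lit 0) (.cons (.ev (nat_lit 20282720302328124892063482315008) (nat_lit 1)) (.cons (.ev (nat_lit 5253223934492539131192335721889794) (nat_lit 2)) .nil))) .nil)))),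
 (.br (nat_lit 0) (nat_lit 0) (.cons (.ev (nat_lit 5253382393225937528525507384115714) (nat_lit 2)) (.cons (.br (nat_lit 11) (nat_lit 0) (.cons (.ev (nat_lit 1329228156416126896015583427982395137) (nat_lit 3)) .nil)) .nil))),
 (.br (nat_lit 0) (nat_lit 0) (.cons (.zr (nat_lit 5192296858539549995576315944698882) (nat_lit 20361637766184525621919272140800) (nat_lit 8) (nat_lit 1)) (.cons (.ev (nat_lit 310693954159761365663809793) (nat_lit 1)) (.cons (.br (nat_lit 4) (nat_lit 0) (.cons (.ev (nat_lit 5212658498723623053915632429105664) (nat_lit 2)) (.cons (.ev (nat_lit 5253381771838066390160557320896514) (nat_lit 2)) .nil))) .nil)))),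
 (.br (nat_lit 0) (nat_lit 0) (.cons (.ev (nat_lit 5212817574028079064197797874171904) (nat_lit 2)) (.cons (.br (nat_lit 7) (nat_lit 0) (.cons (.ev (nat_lit 1329268878446446633536203272604747015) (nat_lit 3)) .nil)) .nil))),
 (.br (nat_lit 0) (nat_lit 0) (.cons (.ev (nat_lit 79537652246452165536208912641) (nat_lit 1)) (.cons (.br (nat_lit 10) (nat_lit 0) (.cons (.ev (nat_lit 1329350166548449305145477021395191559) (nat_lit 3)) .nil)) .nil))),
 (.br (nat_lit 7) (nat_lit 1) (.cons (.rf (nat_lit 12) (nat_lit 8972427954208)) (.cons (.rf (nat_lit 12) (nat_lit 10071939581984)) .nil))),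
 (.br (nat_lit 10) (nat_lit 0) (.cons (.ev (nat_lit 5212658497514660196416184142266625) (nat_lit 1)) (.cons (.br (nat_lit 0) (nat_lit 0) (.cons (.ev (nat_lit 18447026652509634561) (nat_lit 1)) (.cons (.ev (nat_lit 346944226323776878789102243879852769292) (nat_lit 4)) (.cons (.br (nat_lit 7) (nat_lit 0) (.cons (.ev (nat_lit 341627232892212296539552652878657159680) (nat_lit 2)) (.cons (.br (nat_lit 11) (nat_lit 0) (.cons (.zr (nat_lit 4013645472266391831837566676273987588) (nat_lit 2381976588808211850835634300513744520704) (nat_lit 16) (nat_lit 6)) .nil)) .nil))) .nil)))) (.cons (.br (nat_lit 0) (nat_lit 0) (.cons (.ev (nat_lit 1329248357422686761277390539752210433) (nat_lit 1)) (.cons (.ev (nat_lit 349602641590818721425149259724588385284) (nat_lit 3)) (.cons (.br (nat_lit 4) (nat_lit 0) (.cons (.ev (nat_lit 341627232892212296539552652878657159680) (nat_lit 2)) (.cons (.br (nat_lit 11) (nat_lit 0) (.cons (.ev (nat_lit 354909128259448907118104030261121975816) (nat_lit 4)) .nil)) .nil))) .nil)))) (.cons (.kr (nat_lit 1329248357422686779651795544430411776)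 (nat_lit 340287559217799416142642368285975248896) (nat_lit 2) (nat_lit 0)) (.cons (.br (nat_lit 11) (nat_lit 0) (.cons (.br (nat_lit 4) (nat_lit 0) (.cons (.ev (nat_lit 344275304290684028612851845038080197120) (nat_lit 2)) (.cons (.br (nat_lit 7) (nat_lit 0) (.cons (.ev (nat_lit 5212658805790744269921647536963585) (nat_lit 1)) .nil)) .nil))) (.cons (.br (nat_lit 0) (nat_lit 0) (.cons (.ev (nat_lit 344275304290684028612851845038080197120) (nat_lit 2)) (.cons (.ev (nat_lit 1329248357733380696846012272443719937) (nat_lit 1)) .nil))) (.cons (.br (nat_lit 0) (nat_lit 0) (.cons (.ev (nat_lit 341616807575838655127191112865548534272) (nat_lit 2)) (.cons (.ev (nat_lit 310693954159761365663809793) (nat_lit 1)) .nil))) (.cons (.ev (nat_lit 341627232892833684410689891928813797376) (nat_lit 2)) .nil))))) .nil)))))),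
 (.br (nat_lit 0) (nat_lit 0) (.cons (.br (nat_lit 0) (nat_lit 0) .nil) .nil)),
 (.br (nat_lit 0) (nat_lit 0) (.cons (.ev (nat_lit 1334420292644659626424291259093876993) (nat_lit 1)) (.cons (.ev (nat_lit 341627232892833684410689891928813797376) (nat_lit 2)) (.cons (.br (nat_lit 4) (nat_lit 0) (.cons (.ev (nat_lit 344285648161127974343145644269150208512) (nat_lit 2)) (.cons (.ev (nat_lit 5212658497514660196415088925671425) (nat_lit 1)) .nil))) .nil)))),
 (.br (nat_lit 14) (nat_lit 1) (.cons (.br (nat_lit 15) (nat_lit 1) (.cons (.br (nat_lit 6) (nat_lit 0) (.cons (.rf (nat_lit 69) (nat_lit 19926519232773908561233952)) (.cons (.br (nat_lit 10) (nat_lit 0) (.cons (.br (nat_lit 0) (nat_lit 0) (.cons (.ev (nat_lit 1334420292644659626424291259093876993) (nat_lit 1)) (.cons (.ev (nat_lit 341627232892833684410689891928813797376) (nat_lit 2)) (.cons (.br (nat_lit 7) (nat_lit 0) (.cons (.ev (nat_lit 341627232892833684410689894136426856960) (nat_lit 2)) (.cons (.ev (nat_lit 1334420292644659626424292354310602753) (nat_lit 1)) .nil)))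 .nil)))) (.cons (.br (nat_lit 0) (nat_lit 0) (.cons (.ev (nat_lit 341627232892833684410689894136426856960) (nat_lit 2)) (.cons (.br (nat_lit 0) (nat_lit 0) (.cons (.ev (nat_lit 341627232892833684410689894136426856960) (nat_lit 2)) .nil)) .nil))) (.cons (.kr (nat_lit 1329248357422686779651795544430411776) (nat_lit 340287559217799416142642368285975248896) (nat_lit 2) (nat_lit 0)) (.cons (.br (nat_lit 11) (nat_lit 0) (.cons (.br (nat_lit 0) (nat_lit 0) (.cons (.ev (nat_lit 5212658805790744269922742753558785) (nat_lit 1)) (.cons (.br (nat_lit 7) (nat_lit 0) (.cons (.ev (nat_lit 5212658805790744269921647536963585) (nat_lit 1)) .nil)) .nil))) (.cons (.rf (nat_lit 70) (nat_lit 596269797408)) (.cons (.ev (nat_lit 341627232892833684410689891928813797376) (nat_lit 2)) .nil)))) .nil))))) (.cons (.br (nat_lit 10) (nat_lit 0) (.cons (.rf (nat_lit 71) (nat_lit 19926519232773908561233952)) (.cons (.br (nat_lit 11) (nat_lit 0) (.cons (.ev (nat_lit 344285648161127974343145644269150208512) (nat_lit 2)) (.cons (.rf (nat_lit 70) (nat_lit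 592007467040)) .nil))) (.cons (.kr (nat_lit 309485009821626543701491712) (nat_lit 1208925891672223212634112) (nat_lit 6) (nat_lit 0)) (.cons (.br (nat_lit 4) (nat_lit 0) (.cons (.br (nat_lit 11) (nat_lit 0) (.cons (.ev (nat_lit 1334420292952935710353682629629313281) (nat_lit 1)) (.cons (.ev (nat_lit 341627232892833684410689891928813797376) (nat_lit 2)) .nil))) (.cons (.rf (nat_lit 70) (nat_lit 591973945376)) (.cons (.rf (nat_lit 71) (nat_lit 19926519232773908558088337)) .nil)))) .nil))))) (.cons (.kr (nat_lit 1329227995784915891350551133989896192) (nat_lit 340282366920939672389194222060942917632) (nat_lit 8) (nat_lit 0)) (.cons (.ev (nat_lit 341616807575838655127191115055981723648) (nat_lit 2)) (.cons (.br (nat_lit 4) (nat_lit 0) (.cons (.br (nat_lit 11) (nat_lit 0) (.cons (.ev (nat_lit 1334420292952935710353682629629313281) (nat_lit 1)) (.cons (.ev (nat_lit 341616807575838655127191112865548534272) (nat_lit 2)) (.cons (.kr (nat_lit 1329248357422686779651795544430411776) (nat_lit 340287559217799416142642368285975248896)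 (nat_lit 2) (nat_lit 0)) (.cons (.br (nat_lit 17) (nat_lit 0) (.cons (.br (nat_lit 7) (nat_lit 0) (.cons (.zr (nat_lit 1020862698015038437167867585123785375748) (nat_lit 9304595971113381259241226221998375424) (nat_lit 16) (nat_lit 7)) .nil)) (.cons (.ev (nat_lit 87113620352053199582334253186261803139328) (nat_lit 1)) (.cons (.ev (nat_lit 341627232892833684410689891928813797376) (nat_lit 2)) .nil)))) .nil))))) (.cons (.br (nat_lit 0) (nat_lit 0) (.cons (.kr (nat_lit 1329227995784915891422608728027824384) (nat_lit 5192296859743753448146225032331264) (nat_lit 1) (nat_lit 0)) (.cons (.ev (nat_lit 344275304290684028612851845038080197120) (nat_lit 2)) (.cons (.br (nat_lit 0) (nat_lit 0) (.cons (.ev (nat_lit 18447025548703105281) (nat_lit 1)) (.cons (.ev (nat_lit 344275304290684028612851845038080197120) (nat_lit 2)) .nil))) .nil)))) (.cons (.br (nat_lit 7) (nat_lit 0) (.cons (.br (nat_lit 0) (nat_lit 0) (.cons (.ev (nat_lit 5212658805790744269922742753558785) (nat_lit 1)) (.cons (.ev (nat_lit 1334461015920201458367297078960455938)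 (nat_lit 2)) .nil))) (.cons (.rf (nat_lit 70) (nat_lit 596135710752)) (.cons (.br (nat_lit 11) (nat_lit 0) (.cons (.br (nat_lit 0) (nat_lit 0) (.cons (.zr (nat_lit 101808807824461149476247706992644) (nat_lit 344275243205156581668765595411010291200) (nat_lit 16) (nat_lit 11)) .nil)) (.cons (.ev (nat_lit 1045705030082049472232350561927990435971072) (nat_lit 4)) .nil))) .nil)))) (.cons (.br (nat_lit 7) (nat_lit 0) (.cons (.ev (nat_lit 344275304290684028612851845038080197120) (nat_lit 2)) (.cons (.rf (nat_lit 70) (nat_lit 595062001696)) (.cons (.br (nat_lit 10) (nat_lit 0) (.cons (.br (nat_lit 0) (nat_lit 0) (.cons (.ev (nat_lit 18447025548703105281) (nat_lit 1)) .nil)) (.cons (.ev (nat_lit 87113620352052891306250323793787461042176) (nat_lit 1)) .nil))) .nil)))) (.cons (.rf (nat_lit 69) (nat_lit 19926519232773908558088337)) .nil)))))) .nil))))))) .nil)) .nil)),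
 (.br (nat_lit 9) (nat_lit 1) (.cons (.rf (nat_lit 47) (nat_lit 439751970)) (.cons (.rf (nat_lit 4) (nat_lit 13200790626)) (.cons (.br (nat_lit 12) (nat_lit 1) (.cons (.rf (nat_lit 4) (nat_lit 10080228450)) (.cons (.br (nat_lit 13) (nat_lit 1) (.cons (.br (nat_lit 6) (nat_lit 0) (.cons (.rf (nat_lit 60) (nat_lit 17022140995484340291616)) (.cons (.br (nat_lit 0) (nat_lit 0) (.cons (.rf (nat_lit 61) (nat_lit 17022140995484340291616)) (.cons (.rf (nat_lit 62) (nat_lit 17022140995484340291616)) (.cons (.rf (nat_lit 63) (nat_lit 17022140995484340291616)) (.cons (.br (nat_lit 0) (nat_lit 0) (.cons (.rf (nat_lit 61) (nat_lit 17022140995484340291616)) (.cons (.rf (nat_lit 62) (nat_lit 17022140995484340291616)) (.cons (.rf (nat_lit 63) (nat_lit 17022140995484340291616)) .nil)))) .nil))))) (.cons (.br (nat_lit 4) (nat_lit 0) (.cons (.br (nat_lit 0) (nat_lit 0) (.cons (.ev (nat_lit 5253223317940370983051128159273474) (nat_lit 2)) (.cons (.ev (nat_lit 5253223934492539131190145288700418) (nat_lit 2)) (.cons (.br (nat_lit 10) (nat_lit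 0) (.cons (.ev (nat_lit 20361638975091754376174281687296) (nat_lit 1)) (.cons (.br (nat_lit 11) (nat_lit 0) (.cons (.ev (nat_lit 1329228156416126896015583427982395137) (nat_lit 3)) .nil)) .nil))) .nil)))) (.cons (.kr (nat_lit 5192296858534827629093450577608704) (nat_lit 20282410812577562097269975547904) (nat_lit 4) (nat_lit 0)) (.cons (.kr (nat_lit 5192296858534827628811975600898048) (nat_lit 20282719088661491770115487694848) (nat_lit 4) (nat_lit 0)) (.cons (.br (nat_lit 10) (nat_lit 0) (.cons (.rf (nat_lit 64) (nat_lit 583706118939841765935136)) (.cons (.kr (nat_lit 309485009821626543701491712) (nat_lit 1208925891672223212634112) (nat_lit 6) (nat_lit 0)) (.cons (.rf (nat_lit 64) (nat_lit 17022140995484337145999)) .nil)))) .nil))))) (.cons (.br (nat_lit 7) (nat_lit 0) (.cons (.rf (nat_lit 65) (nat_lit 17022140995484340291616)) (.cons (.br (nat_lit 0) (nat_lit 0) (.cons (.ev (nat_lit 5212659115275790912698373499978240) (nat_lit 2)) (.cons (.br (nat_lit 0) (nat_lit 0) (.cons (.ev (nat_lit 5212659115275790912698373499978240)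 (nat_lit 2)) .nil)) .nil))) (.cons (.kr (nat_lit 309485009821626543701491712) (nat_lit 1208925891672223212634112) (nat_lit 6) (nat_lit 0)) (.cons (.br (nat_lit 15) (nat_lit 0) (.cons (.br (nat_lit 15) (nat_lit 0) (.cons (.ev (nat_lit 2663709373341669812197774669291651584) (nat_lit 2)) (.cons (.ev (nat_lit 20361947251175828446778063126528) (nat_lit 1)) .nil))) (.cons (.rf (nat_lit 65) (nat_lit 17022140995484337145999)) (.cons (.ev (nat_lit 20361947251175828446778063126528) (nat_lit 1)) .nil)))) .nil))))) (.cons (.ev (nat_lit 5212659115275790912700563933167616) (nat_lit 2)) (.cons (.br (nat_lit 4) (nat_lit 0) (.cons (.br (nat_lit 10) (nat_lit 0) (.cons (.ev (nat_lit 5253223317940370983051128159273474) (nat_lit 2)) (.cons (.br (nat_lit 11) (nat_lit 0) (.cons (.ev (nat_lit 5253700543834960518347615260574214) (nat_lit 3)) (.cons (.ev (nat_lit 20361947251175828446778063126528) (nat_lit 1)) .nil))) (.cons (.ev (nat_lit 20361638975091754376174281687296) (nat_lit 1)) (.cons (.br (nat_lit 7) (nat_lit 0) (.cons (.ev (nat_lit 79229376162522775260890202113)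 (nat_lit 1)) (.cons (.ev (nat_lit 5212659115275790912698373499978240) (nat_lit 2)) (.cons (.ev (nat_lit 2663709214887772116790667447743087104) (nat_lit 2)) .nil)))) .nil))))) (.cons (.br (nat_lit 0) (nat_lit 0) (.cons (.br (nat_lit 0) (nat_lit 0) (.cons (.ev (nat_lit 5212659115275790912698373499978240) (nat_lit 2)) (.cons (.ev (nat_lit 18447025548703105281) (nat_lit 1)) .nil))) (.cons (.ev (nat_lit 5212659115275790912698373499978240) (nat_lit 2)) (.cons (.br (nat_lit 0) (nat_lit 0) (.cons (.ev (nat_lit 18447025548703105281) (nat_lit 1)) (.cons (.ev (nat_lit 5253223934492539131192335721889794) (nat_lit 2)) .nil))) .nil)))) (.cons (.br (nat_lit 0) (nat_lit 0) (.cons (.br (nat_lit 0) (nat_lit 0) (.cons (.ev (nat_lit 5212817574028079064197797874171904) (nat_lit 2)) (.cons (.ev (nat_lit 79229376162522775260890202113) (nat_lit 1)) .nil))) (.cons (.rf (nat_lit 66) (nat_lit 583706118939841765935136)) (.cons (.br (nat_lit 0) (nat_lit 0) (.cons (.ev (nat_lit 79229376162522775260890202113) (nat_lit 1)) (.cons (.rf (nat_lit 66) (nat_lit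 583706118939841765935136)) .nil))) .nil)))) (.cons (.br (nat_lit 0) (nat_lit 0) (.cons (.rf (nat_lit 67) (nat_lit 583706118939841765935136)) (.cons (.ev (nat_lit 20361638975091754376174281687296) (nat_lit 1)) (.cons (.br (nat_lit 0) (nat_lit 0) (.cons (.rf (nat_lit 67) (nat_lit 583706118939841765935136)) (.cons (.ev (nat_lit 18447025548703105281) (nat_lit 1)) .nil))) .nil)))) (.cons (.rf (nat_lit 60) (nat_lit 17022140995484337145999)) .nil)))))) .nil))))))) (.cons (.rf (nat_lit 40) (nat_lit 16914064905314)) .nil))) (.cons (.br (nat_lit 13) (nat_lit 1) (.cons (.rf (nat_lit 68) (nat_lit 16988081755234)) (.cons (.rf (nat_lit 68) (nat_lit 15922832348258)) (.cons (.br (nat_lit 14) (nat_lit 1) (.cons (.rf (nat_lit 72) (nat_lit 19926519232773908561233952)) (.cons (.br (nat_lit 14) (nat_lit 1) (.cons (.rf (nat_lit 72) (nat_lit 19926519232773908561233952)) .nil)) .nil))) .nil)))) .nil)))) .nil)))),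
 (.br (nat_lit 6) (nat_lit 0) (.cons (.br (nat_lit 4) (nat_lit 0) (.cons (.ev (nat_lit 5253223315522482450898871400988674) (nat_lit 2)) (.cons (.ev (nat_lit 20361948464823942486687123243008) (nat_lit 1)) (.cons (.br (nat_lit 7) (nat_lit 0) (.cons (.ev (nat_lit 5253223936900945893338467715318274) (nat_lit 2)) (.cons (.ev (nat_lit 5293946591064332984476993419675136) (nat_lit 3)) .nil))) .nil)))) (.cons (.ev (nat_lit 20282410812595936782654447288576) (nat_lit 1)) (.cons (.br (nat_lit 0) (nat_lit 0) (.cons (.ev (nat_lit 5294263508531130355615058259673092) (nat_lit 3)) (.cons (.ev (nat_lit 5293946591045370020927669312488452) (nat_lit 3)) (.cons (.br (nat_lit 4) (nat_lit 0) (.cons (.ev (nat_lit 40644978247439521960582826754560) (nat_lit 2)) (.cons (.br (nat_lit 11) (nat_lit 0) (.cons (.ev (nat_lit 1329309602967172596791073695823169281) (nat_lit 3)) .nil)) .nil))) .nil)))) (.cons (.ev (nat_lit 20282719093383858252985149751296) (nat_lit 1)) (.cons (.br (nat_lit 0) (nat_lit 0) (.cons (.br (nat_lit 7) (nat_lit 0) (.cons (.ev (nat_lit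 20282719093383858251889933025536) (nat_lit 1)) (.cons (.br (nat_lit 11) (nat_lit 0) (.cons (.ev (nat_lit 5293947833821112295412392465465856) (nat_lit 3)) .nil)) .nil))) (.cons (.br (nat_lit 4) (nat_lit 0) (.cons (.ev (nat_lit 5253382390808122782221455056896514) (nat_lit 2)) (.cons (.ev (nat_lit 5293946591064332984476993419675136) (nat_lit 3)) .nil))) (.cons (.br (nat_lit 4) (nat_lit 0) (.cons (.ev (nat_lit 20282719093383858251889933025536) (nat_lit 1)) (.cons (.br (nat_lit 7) (nat_lit 0) (.cons (.ev (nat_lit 1329309601724396853937880801419986181) (nat_lit 3)) .nil)) .nil))) (.cons (.ev (nat_lit 5253223315522482450896663787667970) (nat_lit 2)) .nil))))) .nil)))))),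
 (.br (nat_lit 11) (nat_lit 0) (.cons (.rf (nat_lit 74) (nat_lit 17022106058469081712672)) (.cons (.ev (nat_lit 20282719093383858252985149751296) (nat_lit 1)) (.cons (.br (nat_lit 6) (nat_lit 0) (.cons (.ev (nat_lit 20282719088680010852163012002048) (nat_lit 1)) (.cons (.rf (nat_lit 70) (nat_lit 527416234016)) .nil))) (.cons (.br (nat_lit 7) (nat_lit 0) (.cons (.br (nat_lit 0) (nat_lit 0) (.cons (.ev (nat_lit 5253223315522482450898871400988674) (nat_lit 2)) (.cons (.br (nat_lit 6) (nat_lit 0) (.cons (.ev (nat_lit 5253381774255954923440904419213314) (nat_lit 2)) .nil)) .nil))) (.cons (.rf (nat_lit 70) (nat_lit 523287990304)) (.cons (.ev (nat_lit 20361948460120094524010248798208) (nat_lit 1)) .nil)))) .nil))))),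
 (.br (nat_lit 11) (nat_lit 0) (.cons (.rf (nat_lit 74) (nat_lit 17022106058469081712672)) (.cons (.rf (nat_lit 75) (nat_lit 17022106058469081712672)) (.cons (.kr (nat_lit 309485009821626543701491712) (nat_lit 1208925891672223212634112) (nat_lit 6) (nat_lit 0)) (.cons (.br (nat_lit 4) (nat_lit 0) (.cons (.ev (nat_lit 20282410812595936782654447288576) (nat_lit 1)) (.cons (.rf (nat_lit 70) (nat_lit 526509117472)) (.cons (.rf (nat_lit 74) (nat_lit 17022106058469078567055)) .nil)))) .nil))))),
 (.br (nat_lit 12) (nat_lit 1) (.cons (.br (nat_lit 14) (nat_lit 1) (.cons (.kr (nat_lit 5192376086697360411669757620650240) (nat_lit 1329248278504004534395576080551444480) (nat_lit 1) (nat_lit 0)) .nil)) .nil)),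
 (.br (nat_lit 13) (nat_lit 1) (.cons (.br (nat_lit 14) (nat_lit 1) (.cons (.kr (nat_lit 1329228075013078405686946321571774720) (nat_lit 5212579577623489120299516600320000) (nat_lit 1) (nat_lit 0)) .nil)) .nil))]

theorem c2 : chkAll C T R L2 (nat_lit 61) = true := by decide +kernel

theorem l2 : (nat_lit 61) + L2.length = (nat_lit 79) := by decide +kernel

/-- part of the certificates -/
def L3 : List Prf := [(.br (nat_lit 4) (nat_lit 0) (.cons (.br (nat_lit 6) (nat_lit 0) (.cons (.ev (nat_lit 344285648160506595953490741718637806080) (nat_lit 2)) (.cons (.ev (nat_lit 5212658806999651570735708492595457) (nat_lit 1)) (.cons (.br (nat_lit 7) (nat_lit 0) (.cons (.ev (nat_lit 5212658806999651570734604685934593) (nat_lit 1)) (.cons (.ev (nat_lit 344285648160506595953490743909070995456) (nat_lit 2)) .nil))) .nil)))) (.cons (.kr (nat_lit 1329228075013078387168426128801005824) (nat_lit 20282719088679938513089685684224) (nat_lit 1) (nat_lit 0)) (.cons (.ev (nat_lit 341627232892831266522301291910177948160) (nat_lit 2)) (.cons (.br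 (nat_lit 0) (nat_lit 0) (.cons (.ev (nat_lit 79229371458530696300723175681) (nat_lit 1)) (.cons (.ev (nat_lit 5212658806999651570734604685934593) (nat_lit 1)) (.cons (.br (nat_lit 6) (nat_lit 0) (.cons (.ev (nat_lit 344275304132227694139590767070211539456) (nat_lit 2)) (.cons (.br (nat_lit 7) (nat_lit 0) (.cons (.ev (nat_lit 344285648160506595953490743909070995456) (nat_lit 2)) .nil)) .nil))) .nil)))) (.cons (.br (nat_lit 0) (nat_lit 0) (.cons (.br (nat_lit 10) (nat_lit 0) (.cons (.ev (nat_lit 344275304132227694139590764862598479872) (nat_lit 2)) (.cons (.ev (nat_lit 1334420292644664367165461707939119105) (nat_lit 1)) .nil))) (.cons (.br (nat_lit 6) (nat_lit 0) (.cons (.ev (nat_lit 344275304132227694139590764862598479872) (nat_lit 2)) (.cons (.br (nat_lit 10) (nat_lit 0) (.cons (.ev (nat_lit 1334420292644664367165460604132589825) (nat_lit 1)) .nil)) .nil))) (.cons (.br (nat_lit 6) (nat_lit 0) (.cons (.ev (nat_lit 1329248278505213460215473279919456513) (nat_lit 1)) (.cons (.br (nat_lit 7) (nat_lit 0) (.cons (.ev (nat_lit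 344285648160506595953490743909070995456) (nat_lit 2)) .nil)) .nil))) (.cons (.br (nat_lit 6) (nat_lit 0) (.cons (.br (nat_lit 10) (nat_lit 0) (.cons (.ev (nat_lit 1334420292644664367165460604132589825) (nat_lit 1)) .nil)) (.cons (.ev (nat_lit 1329248278505213460215472184702861313) (nat_lit 1)) (.cons (.br (nat_lit 7) (nat_lit 0) (.cons (.ev (nat_lit 1334420292644664367165460604132589825) (nat_lit 1)) .nil)) .nil)))) .nil))))) .nil)))))),
 (.br (nat_lit 0) (nat_lit 0) (.cons (.ev (nat_lit 340297943970898862208390806782940938498) (nat_lit 2)) (.cons (.ev (nat_lit 1329289081629087270258381704466203394) (nat_lit 2)) (.cons (.br (nat_lit 7) (nat_lit 0) (.cons (.ev (nat_lit 1339633109907989084158358551915594496) (nat_lit 2)) (.cons (.ev (nat_lit 79537647542604766904504614913) (nat_lit 1)) .nil))) .nil)))),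
 (.br (nat_lit 0) (nat_lit 0) (.cons (.ev (nat_lit 349592297403464515155237311861733392384) (nat_lit 3)) (.cons (.ev (nat_lit 1329248278194519524646288605864591361) (nat_lit 1)) .nil))),
 (.br (nat_lit 7) (nat_lit 0) (.cons (.ev (nat_lit 79537647524157741355818287361) (nat_lit 1)) .nil)),
 (.br (nat_lit 13) (nat_lit 1) (.cons (.br (nat_lit 15) (nat_lit 1) (.cons (.br (nat_lit 11) (nat_lit 0) (.cons (.rf (nat_lit 79) (nat_lit 19926519232773908561233952)) (.cons (.br (nat_lit 0) (nat_lit 0) (.cons (.rf (nat_lit 80) (nat_lit 19926519232773908561233952)) (.cons (.ev (nat_lit 341627232892831266522301291910177948160) (nat_lit 2)) (.cons (.ev (nat_lit 344275304131611141971442628053082112512) (nat_lit 2)) (.cons (.br (nat_lit 0) (nat_lit 0) (.cons (.rf (nat_lit 80) (nat_lit 19926519232773908561233952)) (.cons (.ev (nat_lit 341627232892831266522301291910177948160) (nat_lit 2)) (.cons (.ev (nat_lit 344275304131611141971442628053082112512) (nat_lit 2)) .nil)))) .nil))))) (.cons (.br (nat_lit 4) (nat_lit 0) (.cons (.br (nat_lit 0)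 (nat_lit 0) (.cons (.ev (nat_lit 344306498953567113828631275159071162880) (nat_lit 3)) (.cons (.ev (nat_lit 344285648636499376798747856258573207040) (nat_lit 3)) (.cons (.br (nat_lit 7) (nat_lit 0) (.cons (.ev (nat_lit 158767019001279577289496985600) (nat_lit 2)) (.cons (.ev (nat_lit 344306498953567113828631275176251033092) (nat_lit 3)) .nil))) .nil)))) (.cons (.ev (nat_lit 341627232892831266522301289719744495616) (nat_lit 2)) (.cons (.ev (nat_lit 341627232892214714354154276602521911296) (nat_lit 2)) (.cons (.br (nat_lit 7) (nat_lit 0) (.cons (.rf (nat_lit 81) (nat_lit 677582165103132179601393696)) (.cons (.ev (nat_lit 158767019001279577289496985600) (nat_lit 2)) (.cons (.rf (nat_lit 81) (nat_lit 19926519232773908558088337)) .nil)))) .nil))))) (.cons (.kr (nat_lit 340282387203967037153134465590178676736) (nat_lit 1334420371871617937163159119327133696) (nat_lit 2) (nat_lit 0)) (.cons (.kr (nat_lit 340282366921247948473195952500492992512) (nat_lit 1329228075013078387168144653824294912) (nat_lit 11) (nat_lit 0)) (.cons (.br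 (nat_lit 4) (nat_lit 0) (.cons (.br (nat_lit 6) (nat_lit 0) (.cons (.br (nat_lit 7) (nat_lit 0) (.cons (.ev (nat_lit 5212658496305716002113975801085953) (nat_lit 1)) (.cons (.ev (nat_lit 79537647542604766904504614913) (nat_lit 1)) .nil))) (.cons (.ev (nat_lit 344285648160506595953490741718637806080) (nat_lit 2)) (.cons (.br (nat_lit 7) (nat_lit 0) (.cons (.ev (nat_lit 5212658496305716002115079607746817) (nat_lit 1)) (.cons (.ev (nat_lit 344275304132227694139590764862598479872) (nat_lit 2)) .nil))) (.cons (.br (nat_lit 7) (nat_lit 0) (.cons (.ev (nat_lit 79537647542604765809287889153) (nat_lit 1)) (.cons (.ev (nat_lit 344275304132227694139590764862598479872) (nat_lit 2)) (.cons (.ev (nat_lit 344285648160506595953490743909070995456) (nat_lit 2)) .nil)))) .nil))))) (.cons (.br (nat_lit 7) (nat_lit 0) (.cons (.ev (nat_lit 346964913904329793276550353078626616320) (nat_lit 3)) (.cons (.ev (nat_lit 341627233050668621642013543249576525824) (nat_lit 3)) (.cons (.ev (nat_lit 341648083368979134414173700880653680640) (nat_lit 3))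 .nil)))) (.cons (.br (nat_lit 6) (nat_lit 0) (.cons (.br (nat_lit 0) (nat_lit 0) (.cons (.ev (nat_lit 5212658496305716002113975801085953) (nat_lit 1)) (.cons (.ev (nat_lit 79537647542604766904504614913) (nat_lit 1)) .nil))) (.cons (.rf (nat_lit 70) (nat_lit 595228594208)) (.cons (.br (nat_lit 10) (nat_lit 0) (.cons (.br (nat_lit 0) (nat_lit 0) (.cons (.ev (nat_lit 5212658496305716002115079607746817) (nat_lit 1)) .nil)) (.cons (.ev (nat_lit 87112285931839476018082430198829090340864) (nat_lit 1)) .nil))) .nil)))) (.cons (.br (nat_lit 6) (nat_lit 0) (.cons (.br (nat_lit 0) (nat_lit 0) (.cons (.ev (nat_lit 344285648160506595953490743909070995456) (nat_lit 2)) (.cons (.rf (nat_lit 82) (nat_lit 20678128306370480539680)) .nil))) (.cons (.rf (nat_lit 70) (nat_lit 592007467040)) (.cons (.br (nat_lit 17) (nat_lit 0) (.cons (.ev (nat_lit 87452568319042824085179028767609377063168) (nat_lit 1)) (.cons (.ev (nat_lit 344285648160506595953490743909070995456) (nat_lit 2)) .nil))) .nil)))) (.cons (.rf (nat_lit 79) (nat_lit 19926519232773908558088337))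 .nil)))))) .nil))))))) .nil)) .nil)),
 (.br (nat_lit 14) (nat_lit 1) (.cons (.rf (nat_lit 68) (nat_lit 16954688935170)) (.cons (.rf (nat_lit 68) (nat_lit 14824190121218)) (.cons (.br (nat_lit 13) (nat_lit 1) (.cons (.rf (nat_lit 83) (nat_lit 19926519232773908561233952)) (.cons (.br (nat_lit 13) (nat_lit 1) (.cons (.rf (nat_lit 83) (nat_lit 19926519232773908561233952)) .nil)) .nil))) .nil)))),
 (.br (nat_lit 7) (nat_lit 0) (.cons (.ev (nat_lit 341627192327393079791478837037284655106) (nat_lit 2)) (.cons (.ev (nat_lit 344275263725245851289868869964671287810) (nat_lit 2)) (.cons (.br (nat_lit 10) (nat_lit 0) (.cons (.ev (nat_lit 1334440575363748287843721206072082688) (nat_lit 1)) (.cons (.br (nat_lit 11) (nat_lit 0) (.cons (.ev (nat_lit 20282720302328124611688034009088) (nat_lit 1)) .nil)) .nil))) .nil)))),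
 (.br (nat_lit 0) (nat_lit 0) (.cons (.ev (nat_lit 341627192327393079791478839244897714690) (nat_lit 2)) (.cons (.ev (nat_lit 341627192328014467662616080502667411970) (nat_lit 2)) (.cons (.br (nat_lit 7) (nat_lit 0) (.cons (.ev (nat_lit 20282409608392555989963932434688) (nat_lit 1)) (.cons (.br (nat_lit 11) (nat_lit 0) (.cons (.zr (nat_lit 2381976568446569267984581874886822532612) (nat_lit 1345028231172035938383675693696286720) (nat_lit 48) (nat_lit 1)) .nil)) .nil))) .nil)))),
 (.br (nat_lit 7) (nat_lit 0) (.cons (.ev (nat_lit 344275263725245851289868867757058228226) (nat_lit 2)) (.cons (.ev (nat_lit 20282409608392555989963932434688) (nat_lit 1)) (.cons (.br (nat_lit 10) (nat_lit 0) (.cons (.ev (nat_lit 344275263725867239161006109014827925506) (nat_lit 2)) (.cons (.ev (nat_lit 344296073796271166537584216778083861504) (nat_lit 3)) .nil))) .nil)))),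
 (.br (nat_lit 6) (nat_lit 0) (.cons (.rf (nat_lit 85) (nat_lit 19926519232773908561233952)) (.cons (.ev (nat_lit 1334440575053054352275100577187234048) (nat_lit 1)) (.cons (.rf (nat_lit 86) (nat_lit 19926519232773908561233952)) (.cons (.rf (nat_lit 87) (nat_lit 19926519232773908561233952)) (.cons (.br (nat_lit 7) (nat_lit 0) (.cons (.rf (nat_lit 85) (nat_lit 19889920857594653552248864)) (.cons (.rf (nat_lit 87) (nat_lit 19889920857594653552248864)) (.cons (.rf (nat_lit 86) (nat_lit 19889920857594653552248864)) (.cons (.ev (nat_lit 1334440575053054352275101672403959808) (nat_lit 1)) .nil))))) .nil)))))),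
 (.br (nat_lit 0) (nat_lit 0) (.cons (.rf (nat_lit 88) (nat_lit 19926519232773908561233952)) (.cons (.ev (nat_lit 1334440575053054352275101672403959808) (nat_lit 1)) (.cons (.ev (nat_lit 341616848140041319707262028561604739586) (nat_lit 2)) (.cons (.br (nat_lit 4) (nat_lit 0) (.cons (.ev (nat_lit 5192376396182370233015925873836288) (nat_lit 1)) (.cons (.ev (nat_lit 1329228075014292035354524727149330688) (nat_lit 1)) (.cons (.br (nat_lit 7) (nat_lit 0) (.cons (.ev (nat_lit 341627314022472117944165041757973840900) (nat_lit 3)) (.cons (.ev (nat_lit 341616848140657871875409043886440644610) (nat_lit 2)) .nil))) .nil)))) (.cons (.br (nat_lit 4) (nat_lit 0) (.cons (.br (nat_lit 10) (nat_lit 0) (.cons (.ev (nat_lit 341616889021773167586466683682514207744) (nat_lit 3)) (.cons (.br (nat_lit 11) (nat_lit 0) (.cons (.ev (nat_lit 20282720302328124611688034009088) (nat_lit 1)) .nil)) .nil))) (.cons (.ev (nat_lit 1329228075014292035354524727149330688) (nat_lit 1)) (.cons (.br (nat_lit 10) (nat_lit 0) (.cons (.ev (nat_lit 20282409608392555989963932434688)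 (nat_lit 1)) (.cons (.ev (nat_lit 1339632951451664018736760357761778434) (nat_lit 2)) .nil))) (.cons (.br (nat_lit 10) (nat_lit 0) (.cons (.br (nat_lit 11) (nat_lit 0) (.cons (.ev (nat_lit 344285688725944763794847262905336922626) (nat_lit 2)) .nil)) (.cons (.ev (nat_lit 344285688725328211626700251995727659010) (nat_lit 2)) (.cons (.ev (nat_lit 174574164323499535609208594198258534908930) (nat_lit 4)) .nil)))) .nil))))) .nil)))))),
 (.br (nat_lit 0) (nat_lit 0) (.cons (.rf (nat_lit 88) (nat_lit 19926519232773908561233952)) (.cons (.ev (nat_lit 341616848140041319707262028561604739586) (nat_lit 2)) (.cons (.rf (nat_lit 89) (nat_lit 19889920857594653552248864)) (.cons (.ev (nat_lit 20282720302328124611688034009088) (nat_lit 1)) (.cons (.br (nat_lit 4) (nat_lit 0) (.cons (.ev (nat_lit 1329228075014292035354524727149330688) (nat_lit 1)) (.cons (.br (nat_lit 6) (nat_lit 0) (.cons (.ev (nat_lit 20282720302328124610592817283328) (nat_lit 1)) (.cons (.ev (nat_lit 344270050908296837914957728563805160194) (nat_lit 2)) .nil))) (.cons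 (.br (nat_lit 6) (nat_lit 0) (.cons (.ev (nat_lit 344285648161130401676268907681653392384) (nat_lit 3)) (.cons (.br (nat_lit 7) (nat_lit 0) (.cons (.ev (nat_lit 1334440575053054352275101672403959808) (nat_lit 1)) .nil)) .nil))) (.cons (.br (nat_lit 6) (nat_lit 0) (.cons (.ev (nat_lit 341616848140041319707262030769218060290) (nat_lit 2)) (.cons (.br (nat_lit 7) (nat_lit 0) (.cons (.ev (nat_lit 344285688725944763794847262905336922626) (nat_lit 2)) .nil)) (.cons (.ev (nat_lit 174574164323499535609208594198258534908930) (nat_lit 4)) .nil)))) .nil))))) .nil)))))),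
 (.br (nat_lit 13) (nat_lit 1) (.cons (.br (nat_lit 14) (nat_lit 1) (.cons (.kr (nat_lit 1329228075013078405686946321571774720) (nat_lit 5212579577623489120299516600320000) (nat_lit 1) (nat_lit 0)) .nil)) (.cons (.rf (nat_lit 30) (nat_lit 9190605295681)) .nil))),
 (.br (nat_lit 13) (nat_lit 1) (.cons (.br (nat_lit 14) (nat_lit 1) (.cons (.rf (nat_lit 30) (nat_lit 13519966966882)) (.cons (.br (nat_lit 15) (nat_lit 1) (.cons (.br (nat_lit 0) (nat_lit 0) (.cons (.rf (nat_lit 88) (nat_lit 19926519232773908561233952)) (.cons (.rf (nat_lit 89) (nat_lit 19926519232773908561233952)) (.cons (.rf (nat_lit 89) (nat_lit 19889920857594653552248864)) (.cons (.rf (nat_lit 90) (nat_lit 19926519232773908561233952)) (.cons (.rf (nat_lit 90) (nat_lit 19889920857594653552248864)) (.cons (.br (nat_lit 0) (nat_lit 0) (.cons (.rf (nat_lit 88) (nat_lit 19926519232773908561233952)) (.cons (.rf (nat_lit 89) (nat_lit 19926519232773908561233952)) (.cons (.rf (nat_lit 89) (nat_lit 19889920857594653552248864)) (.cons (.rf (nat_lit 90) (nat_lit 19926519232773908561233952))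 (.cons (.rf (nat_lit 90) (nat_lit 19889920857594653552248864)) .nil)))))) .nil))))))) .nil)) .nil))) (.cons (.rf (nat_lit 91) (nat_lit 622703726024184642538561)) .nil))),
 (.br (nat_lit 5) (nat_lit 0) (.cons (.br (nat_lit 5) (nat_lit 0) (.cons (.br (nat_lit 6) (nat_lit 1) (.cons (.br (nat_lit 7) (nat_lit 1) (.cons (.br (nat_lit 3) (nat_lit 1) (.cons (.kr (nat_lit 18446744073709617152) (nat_lit 1099528404992) (nat_lit 2) (nat_lit 0)) (.cons (.rf (nat_lit 3) (nat_lit 10178205453377)) (.cons (.br (nat_lit 8) (nat_lit 1) (.cons (.br (nat_lit 9) (nat_lit 1) (.cons (.br (nat_lit 10) (nat_lit 0) (.cons (.br (nat_lit 11) (nat_lit 1) (.cons (.rf (nat_lit 4) (nat_lit 13230150754)) .nil)) .nil)) (.cons (.br (nat_lit 10) (nat_lit 1) (.cons (.rf (nat_lit 13) (nat_lit 407901468851537952)) (.cons (.br (nat_lit 10) (nat_lit 1) (.cons (.rf (nat_lit 13) (nat_lit 443930265870501920)) (.cons (.br (nat_lit 11) (nat_lit 1) (.cons (.rf (nat_lit 21) (nat_lit 14242959524133701664)) (.cons (.br (nat_lit 11) (nat_lit 1) (.cons (.rf (nat_lit 21)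 (nat_lit 14242959524133701664)) (.cons (.rf (nat_lit 40) (nat_lit 11485121516642)) .nil))) .nil))) .nil))) .nil))) .nil))) (.cons (.rf (nat_lit 47) (nat_lit 305468674)) (.cons (.br (nat_lit 9) (nat_lit 1) (.cons (.rf (nat_lit 39) (nat_lit 11584701642934304)) (.cons (.rf (nat_lit 43) (nat_lit 407901468851537952)) (.cons (.br (nat_lit 9) (nat_lit 1) (.cons (.rf (nat_lit 39) (nat_lit 11584701642934304)) (.cons (.rf (nat_lit 43) (nat_lit 443930265870501920)) (.cons (.br (nat_lit 10) (nat_lit 1) (.cons (.rf (nat_lit 44) (nat_lit 445092485129178177)) (.cons (.rf (nat_lit 44) (nat_lit 410189588017056833)) (.cons (.br (nat_lit 10) (nat_lit 1) (.cons (.rf (nat_lit 44) (nat_lit 445092485129178177)) (.cons (.rf (nat_lit 44) (nat_lit 410189588017056833)) (.cons (.rf (nat_lit 4) (nat_lit 3701904642)) .nil)))) .nil)))) .nil)))) .nil)))) .nil)))) .nil)))) (.cons (.br (nat_lit 8) (nat_lit 0) (.cons (.br (nat_lit 9) (nat_lit 0) (.cons (.br (nat_lit 3) (nat_lit 1) (.cons (.rf (nat_lit 48) (nat_lit 362021926341697)) (.cons (.rf (nat_lit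 48) (nat_lit 360955734264897)) (.cons (.rf (nat_lit 45) (nat_lit 12746920901610561)) (.cons (.br (nat_lit 8) (nat_lit 1) (.cons (.rf (nat_lit 47) (nat_lit 372544770)) (.cons (.rf (nat_lit 50) (nat_lit 12746920901610561)) (.cons (.rf (nat_lit 47) (nat_lit 372643074)) (.cons (.br (nat_lit 9) (nat_lit 1) (.cons (.rf (nat_lit 50) (nat_lit 12745854709533761)) (.cons (.br (nat_lit 11) (nat_lit 1) (.cons (.rf (nat_lit 51) (nat_lit 445092485129178177)) (.cons (.rf (nat_lit 45) (nat_lit 14998720715295809)) (.cons (.br (nat_lit 11) (nat_lit 1) (.cons (.rf (nat_lit 51) (nat_lit 445092485129178177)) (.cons (.rf (nat_lit 40) (nat_lit 14618335646818)) (.cons (.br (nat_lit 12) (nat_lit 1) (.cons (.rf (nat_lit 52) (nat_lit 531941906108885634113)) (.cons (.rf (nat_lit 52) (nat_lit 496201339466073377857)) (.cons (.rf (nat_lit 4) (nat_lit 3737425154)) .nil)))) .nil)))) .nil)))) (.cons (.rf (nat_lit 47) (nat_lit 372675874)) (.cons (.br (nat_lit 11) (nat_lit 1) (.cons (.rf (nat_lit 53) (nat_lit 15433072045018188865)) (.cons (.rf (nat_lit 53)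 (nat_lit 14316178271238229057)) (.cons (.rf (nat_lit 45) (nat_lit 16124620622138433)) (.cons (.br (nat_lit 11) (nat_lit 1) (.cons (.rf (nat_lit 53) (nat_lit 15433072045018188865)) (.cons (.rf (nat_lit 53) (nat_lit 14316178271238229057)) (.cons (.rf (nat_lit 45) (nat_lit 17250520528981057)) .nil)))) .nil))))) .nil))))) .nil))))) .nil))))) (.cons (.br (nat_lit 10) (nat_lit 1) (.cons (.br (nat_lit 11) (nat_lit 1) (.cons (.br (nat_lit 3) (nat_lit 1) (.cons (.rf (nat_lit 54) (nat_lit 445092485129178177)) (.cons (.rf (nat_lit 54) (nat_lit 444000703402347585)) (.cons (.br (nat_lit 8) (nat_lit 1) (.cons (.br (nat_lit 0) (nat_lit 0) (.cons (.rf (nat_lit 58) (nat_lit 14242959524133701664)) (.cons (.rf (nat_lit 59) (nat_lit 14242959524133701664)) (.cons (.rf (nat_lit 59) (nat_lit 14208022508875122720)) (.cons (.rf (nat_lit 59) (nat_lit 6023890346151316512)) (.cons (.rf (nat_lit 59) (nat_lit 5988953330892737568)) (.cons (.br (nat_lit 0) (nat_lit 0) (.cons (.rf (nat_lit 58) (nat_lit 14242959524133701664)) (.cons (.rf (nat_lit 59) (nat_lit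 14242959524133701664)) (.cons (.rf (nat_lit 59) (nat_lit 14208022508875122720)) (.cons (.rf (nat_lit 59) (nat_lit 6023890346151316512)) (.cons (.rf (nat_lit 59) (nat_lit 5988953330892737568)) .nil)))))) .nil))))))) (.cons (.rf (nat_lit 47) (nat_lit 444994658)) .nil))) (.cons (.br (nat_lit 8) (nat_lit 1) (.cons (.rf (nat_lit 47) (nat_lit 439653634)) (.cons (.rf (nat_lit 47) (nat_lit 439751938)) (.cons (.rf (nat_lit 73) (nat_lit 493858305440582043680)) (.cons (.br (nat_lit 9) (nat_lit 1) (.cons (.rf (nat_lit 47) (nat_lit 439751970)) (.cons (.rf (nat_lit 73) (nat_lit 493823368425323464736)) (.cons (.br (nat_lit 12) (nat_lit 1) (.cons (.br (nat_lit 13) (nat_lit 1) (.cons (.br (nat_lit 10) (nat_lit 0) (.cons (.rf (nat_lit 74) (nat_lit 17022140995484340291616)) (.cons (.rf (nat_lit 75) (nat_lit 17022140995484340291616)) (.cons (.rf (nat_lit 76) (nat_lit 17022140995484340291616)) (.cons (.ev (nat_lit 20282410812595936783749664014336) (nat_lit 1)) (.cons (.ev (nat_lit 5294264125102261179070798551646208) (nat_lit 3)) (.cons (.br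 (nat_lit 11) (nat_lit 0) (.cons (.rf (nat_lit 74) (nat_lit 17022106058469081712672)) (.cons (.rf (nat_lit 75) (nat_lit 17022106058469081712672)) (.cons (.ev (nat_lit 20282719093383858252985149751296) (nat_lit 1)) (.cons (.rf (nat_lit 76) (nat_lit 17022106058469081712672)) (.cons (.br (nat_lit 15) (nat_lit 0) (.cons (.br (nat_lit 4) (nat_lit 0) (.cons (.zr (nat_lit 79228167255077564536915559426) (nat_lit 2663668570837970225106569680832692224) (nat_lit 8) (nat_lit 1)) (.cons (.ev (nat_lit 2663709373960639868589837774640710144) (nat_lit 2)) (.cons (.ev (nat_lit 2663709373344097108425854487411884544) (nat_lit 2)) .nil)))) (.cons (.rf (nat_lit 74) (nat_lit 17022140995484337145999)) (.cons (.ev (nat_lit 2663709373344097108425852279798824960) (nat_lit 2)) (.cons (.ev (nat_lit 2663709373960639868589835567027650560) (nat_lit 2)) .nil))))) .nil)))))) .nil))))))) (.cons (.rf (nat_lit 40) (nat_lit 16815280624738)) .nil))) (.cons (.rf (nat_lit 4) (nat_lit 3638859010)) (.cons (.br (nat_lit 14) (nat_lit 1) (.cons (.rf (nat_lit 68) (nat_lit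 16954789500162)) (.cons (.rf (nat_lit 68) (nat_lit 14824193168642)) (.cons (.br (nat_lit 13) (nat_lit 1) (.cons (.rf (nat_lit 77) (nat_lit 622703726024184642538561)) (.cons (.br (nat_lit 13) (nat_lit 1) (.cons (.rf (nat_lit 77) (nat_lit 622703726024184642538561)) .nil)) .nil))) .nil)))) .nil)))) (.cons (.br (nat_lit 12) (nat_lit 1) (.cons (.br (nat_lit 13) (nat_lit 1) (.cons (.rf (nat_lit 68) (nat_lit 16987980174434)) (.cons (.rf (nat_lit 68) (nat_lit 15922795779170)) (.cons (.br (nat_lit 14) (nat_lit 1) (.cons (.rf (nat_lit 78) (nat_lit 622703726024184642538561)) (.cons (.br (nat_lit 14) (nat_lit 1) (.cons (.rf (nat_lit 78) (nat_lit 622703726024184642538561)) .nil)) .nil))) .nil)))) (.cons (.rf (nat_lit 84) (nat_lit 583706118939841765935136)) (.cons (.rf (nat_lit 84) (nat_lit 547107743760586756950048)) (.cons (.br (nat_lit 13) (nat_lit 1) (.cons (.rf (nat_lit 92) (nat_lit 19926519232773908561233952)) (.cons (.rf (nat_lit 92) (nat_lit 19889920857594653552248864)) (.cons (.br (nat_lit 13) (nat_lit 1) (.cons (.rf (nat_lit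 91) (nat_lit 622703726024184642538561)) (.cons (.rf (nat_lit 91) (nat_lit 621560026799832923507777)) .nil))) .nil)))) .nil))))) .nil))))) .nil))))) .nil))))) .nil)) .nil)) .nil))) .nil)) .nil))) .nil)) .nil)) .nil))]

theorem c3 : chkAll C T R L3 (nat_lit 79) = true := by decide +kernel

theorem l3 : (nat_lit 79) + L3.length = (nat_lit 94) := by decide +kernel

/-- part of the certificates -/
def L4 : List Prf := [(.br (nat_lit 8) (nat_lit 0) (.cons (.ev (nat_lit 5192376396182370233014830640398593) (nat_lit 1)) (.cons (.ev (nat_lit 5212579577623507639101184347734273) (nat_lit 1)) (.cons (.br (nat_lit 12) (nat_lit 0) (.cons (.kr (nat_lit 79228162514264337593543950336) (nat_lit 20282409603651670423947251286016) (nat_lit 12) (nat_lit 0)) (.cons (.br (nat_lit 13) (nat_lit 0) (.cons (.ev (nat_lit 1329289080700641685743203540457881859) (nat_lit 2)) .nil)) .nil))) .nil)))),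
 (.br (nat_lit 8) (nat_lit 0) (.cons (.ev (nat_lit 5192455625558551058418981509726720) (nat_lit 2)) (.cons (.br (nat_lit 13) (nat_lit 0) (.cons (.ev (nat_lit 1329370527251725349485100009227814657) (nat_lit 3)) .nil)) .nil))),
 (.br (nat_lit 0) (nat_lit 0) (.cons (.ev (nat_lit 20361637766165934761540812079361) (nat_lit 1)) (.cons (.br (nat_lit 13) (nat_lit 0) (.cons (.ev (nat_lit 1329370527251725349485100009227814657) (nat_lit 3)) .nil)) .nil))),
 (.br (nat_lit 8) (nat_lit 0) (.cons (.br (nat_lit 0) (nat_lit 0) (.cons (.ev (nat_lit 79229376180969519338911498497) (nat_lit 1)) (.cons (.ev (nat_lit 20282410817318375605692618834177) (nat_lit 1)) (.cons (.br (nat_lit 12) (nat_lit 0) (.cons (.ev (nat_lit 5192455625558551058418981509726720) (nat_lit 2)) (.cons (.br (nat_lit 13) (nat_lit 0) (.cons (.ev (nat_lit 1329370527251725349485100009227814657) (nat_lit 3)) .nil)) .nil))) .nil)))) (.cons (.kr (nat_lit 1208944266640182155935744) (nat_lit 79228167236702879156738719744) (nat_lit 4) (nat_lit 0)) (.cons (.kr (nat_lit 1208944266640182155935744)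 (nat_lit 20282409608374108965510446055424) (nat_lit 4) (nat_lit 0)) (.cons (.br (nat_lit 12) (nat_lit 0) (.cons (.rf (nat_lit 96) (nat_lit 583706118939841765935136)) (.cons (.kr (nat_lit 79228162514264337593543950336) (nat_lit 20282409603651670423947251286016) (nat_lit 12) (nat_lit 0)) (.cons (.br (nat_lit 13) (nat_lit 0) (.cons (.rf (nat_lit 96) (nat_lit 583670378373198953678880)) (.cons (.ev (nat_lit 1334440654591915542993625911480287232) (nat_lit 1)) .nil))) .nil)))) .nil))))),
 (.br (nat_lit 13) (nat_lit 0) (.cons (.ev (nat_lit 20361637766184453563208559558913) (nat_lit 1)) (.cons (.ev (nat_lit 5232861988440789121783878557827074) (nat_lit 2)) .nil))),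
 (.br (nat_lit 13) (nat_lit 0) (.cons (.ev (nat_lit 1329370527251725239236981131198072577) (nat_lit 3)) .nil)),
 (.br (nat_lit 0) (nat_lit 0) (.cons (.ev (nat_lit 18518801667764322561) (nat_lit 1)) (.cons (.rf (nat_lit 98) (nat_lit 583706118939841765935136)) (.cons (.rf (nat_lit 98) (nat_lit 583670378373198953678880)) (.cons (.br (nat_lit 8) (nat_lit 0) (.cons (.rf (nat_lit 99) (nat_lit 583706118939841765935136)) (.cons (.rf (nat_lit 99) (nat_lit 583670378373198953678880)) (.cons (.ev (nat_lit 1329227995784915891567289077998944515) (nat_lit 2)) .nil)))) .nil))))),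
 (.br (nat_lit 8) (nat_lit 0) (.cons (.rf (nat_lit 100) (nat_lit 583706118938776614045728)) (.cons (.kr (nat_lit 20282409603651742481541289213952) (nat_lit 79228162532711081667253501952) (nat_lit 7) (nat_lit 0)) (.cons (.rf (nat_lit 100) (nat_lit 17022140994419185256591)) .nil)))),
 (.br (nat_lit 7) (nat_lit 1) (.cons (.br (nat_lit 8) (nat_lit 1) (.cons (.br (nat_lit 9) (nat_lit 1) .nil) .nil)) (.cons (.br (nat_lit 8) (nat_lit 1) (.cons (.br (nat_lit 8) (nat_lit 1) .nil) .nil)) .nil))),
 (.br (nat_lit 11) (nat_lit 0) (.cons (.br (nat_lit 11) (nat_lit 0) (.cons (.br (nat_lit 12) (nat_lit 1) (.cons (.br (nat_lit 13) (nat_lit 1) (.cons (.br (nat_lit 10) (nat_lit 1) (.cons (.br (nat_lit 4) (nat_lit 0) (.cons (.br (nat_lit 0) (nat_lit 0) (.cons (.rf (nat_lit 94) (nat_lit 17022140995484340291616)) (.cons (.rf (nat_lit 94) (nat_lit 17022140994419188402208)) (.cons (.ev (nat_lit 79229376162450717671164018945) (nat_lit 1)) (.cons (.ev (nat_lit 20282410817299856804024871354625) (nat_lit 1)) (.cons (.br (nat_lit 7) (nat_lit 0) (.cons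 (.kr (nat_lit 72057594037927936) (nat_lit 18446744073709551616) (nat_lit 7) (nat_lit 0)) (.cons (.rf (nat_lit 95) (nat_lit 583706118939841765935136)) (.cons (.rf (nat_lit 95) (nat_lit 583670378373198953678880)) (.cons (.br (nat_lit 8) (nat_lit 0) (.cons (.rf (nat_lit 95) (nat_lit 583706118938776614045728)) (.cons (.rf (nat_lit 95) (nat_lit 583670378372133801789472)) (.cons (.ev (nat_lit 18519084242252660736) (nat_lit 1)) .nil)))) .nil))))) .nil)))))) (.cons (.rf (nat_lit 97) (nat_lit 17022140995484340291616)) (.cons (.rf (nat_lit 97) (nat_lit 17022140994419188402208)) (.cons (.kr (nat_lit 1208925819896108446384128) (nat_lit 79228167236630821562700791808) (nat_lit 4) (nat_lit 0)) (.cons (.kr (nat_lit 1208925819896108446384128) (nat_lit 20282409608374036907916408127488) (nat_lit 4) (nat_lit 0)) (.cons (.br (nat_lit 7) (nat_lit 0) (.cons (.rf (nat_lit 100) (nat_lit 583706118939841765935136)) (.cons (.kr (nat_lit 72057594037927936) (nat_lit 18446744073709551616) (nat_lit 7) (nat_lit 0)) (.cons (.rf (nat_lit 101) (nat_lit 583706118939841765935136))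 (.cons (.rf (nat_lit 101) (nat_lit 583670378373198953678880)) (.cons (.rf (nat_lit 100) (nat_lit 17022140995484337145999)) .nil)))))) .nil))))))) (.cons (.rf (nat_lit 102) (nat_lit 16985867097186)) .nil))) .nil)) .nil)) .nil)) .nil)),
 (.br (nat_lit 4) (nat_lit 0) (.cons (.ev (nat_lit 1334440575054268018907943249228398849) (nat_lit 1)) (.cons (.kr (nat_lit 680564733841880553704208341325548879874) (nat_lit 5212658805790725895235163587149824) (nat_lit 0) (nat_lit 1)) (.cons (.br (nat_lit 16) (nat_lit 0) (.cons (.ev (nat_lit 341611594916723379354797216159812878593) (nat_lit 1)) (.cons (.ev (nat_lit 680569946500683926578464912388386914306) (nat_lit 2)) .nil))) .nil)))),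
 (.br (nat_lit 4) (nat_lit 0) (.cons (.ev (nat_lit 2663668650376831397522746496434504192) (nat_lit 2)) (.cons (.br (nat_lit 16) (nat_lit 0) (.cons (.ev (nat_lit 4782567541652019276814629456829227926024) (nat_lit 4)) .nil)) .nil))),
 (.br (nat_lit 0) (nat_lit 0) (.cons (.br (nat_lit 8) (nat_lit 0) (.cons (.ev (nat_lit 1334440575054268018907943249228398849) (nat_lit 1)) (.cons (.ev (nat_lit 340282367000476111005979091766079389953) (nat_lit 1)) (.cons (.br (nat_lit 15) (nat_lit 0) (.cons (.kr (nat_lit 1329227995784915872903807060280344576) (nat_lit 340282366920938463463374607431768211456) (nat_lit 15) (nat_lit 0)) (.cons (.br (nat_lit 16) (nat_lit 0) (.cons (.ev (nat_lit 683228402651329053372443891824861446146) (nat_lit 2)) .nil)) .nil))) .nil)))) (.cons (.ev (nat_lit 18518801667764322561) (nat_lit 1)) (.cons (.rf (nat_lit 104) (nat_lit 19926519232773908561233952)) (.cons (.rf (nat_lit 104) (nat_lit 18755372345022236548237344)) (.cons (.br (nat_lit 15) (nat_lit 0) (.cons (.br (nat_lit 16) (nat_lit 0) (.cons (.ev (nat_lit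 680569946500683926578464347239410237952) (nat_lit 2)) (.cons (.ev (nat_lit 680569946500683926578464912388386914306) (nat_lit 2)) .nil))) (.cons (.rf (nat_lit 105) (nat_lit 677582165103132179601393696)) (.cons (.kr (nat_lit 1329227995784915872903807060280344576) (nat_lit 340282366920938463463374607431768211456) (nat_lit 15) (nat_lit 0)) (.cons (.br (nat_lit 16) (nat_lit 0) (.cons (.ev (nat_lit 2663668650376831397523311645411180546) (nat_lit 2)) (.cons (.rf (nat_lit 105) (nat_lit 676411018215380507588397088)) (.cons (.br (nat_lit 4) (nat_lit 0) (.cons (.ev (nat_lit 4782567541652019276814630578331088258564) (nat_lit 4)) .nil)) .nil)))) .nil))))) .nil)))))),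
 (.br (nat_lit 0) (nat_lit 0) (.cons (.ev (nat_lit 1334440575054268018907943249228398849) (nat_lit 1)) (.cons (.ev (nat_lit 341616807575530378987849431671206052097) (nat_lit 1)) (.cons (.br (nat_lit 8) (nat_lit 0) (.cons (.ev (nat_lit 2663668650376831434272119455777751552) (nat_lit 2)) (.cons (.br (nat_lit 16) (nat_lit 0) (.cons (.ev (nat_lit 2613368583167852335824166794932498914542622) (nat_lit 5)) .nil)) .nil))) .nil)))),
 (.br (nat_lit 0) (nat_lit 0) (.cons (.rf (nat_lit 106) (nat_lit 19926519232772843409344544)) (.cons (.rf (nat_lit 107) (nat_lit 19926519232773908561233952)) (.cons (.rf (nat_lit 107) (nat_lit 18755372345022236548237344)) (.cons (.br (nat_lit 0) (nat_lit 0) (.cons (.rf (nat_lit 106) (nat_lit 19926519232772843409344544)) (.cons (.rf (nat_lit 107) (nat_lit 19926519232773908561233952)) (.cons (.rf (nat_lit 107) (nat_lit 18755372345022236548237344)) .nil)))) .nil))))),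
 (.br (nat_lit 8) (nat_lit 0) (.cons (.rf (nat_lit 106) (nat_lit 19926519232772843409344544)) (.cons (.rf (nat_lit 108) (nat_lit 19926519232772843409344544)) (.cons (.kr (nat_lit 340282366920938463463446665025806139392) (nat_lit 1329227995784915891350551133989896192) (nat_lit 7) (nat_lit 0)) (.cons (.br (nat_lit 4) (nat_lit 0) (.cons (.br (nat_lit 0) (nat_lit 0) (.cons (.ev (nat_lit 340287579500207815590859941952968786177) (nat_lit 1)) (.cons (.br (nat_lit 16) (nat_lit 0) (.cons (.zr (nat_lit 680564734239565164584647577074686822912) (nat_lit 7980580553988518771465102733831307268) (nat_lit 16) (nat_lit 1)) .nil)) .nil))) (.cons (.rf (nat_lit 70) (nat_lit 600497983520)) (.cons (.rf (nat_lit 106) (nat_lit 19926519232772843406198929)) .nil)))) .nil))))),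
 (.br (nat_lit 11) (nat_lit 1) (.cons (.br (nat_lit 12) (nat_lit 1) (.cons (.br (nat_lit 13) (nat_lit 0) (.cons (.br (nat_lit 13) (nat_lit 0) (.cons (.br (nat_lit 15) (nat_lit 1) (.cons (.br (nat_lit 14) (nat_lit 0) (.cons (.br (nat_lit 7) (nat_lit 0) (.cons (.rf (nat_lit 106) (nat_lit 19926519232773908561233952)) (.cons (.rf (nat_lit 108) (nat_lit 19926519232773908561233952)) (.cons (.kr (nat_lit 72057594037927936) (nat_lit 18446744073709551616) (nat_lit 7) (nat_lit 0)) (.cons (.rf (nat_lit 109) (nat_lit 19926519232773908561233952)) (.cons (.rf (nat_lit 109) (nat_lit 18755372345022236548237344)) (.cons (.br (nat_lit 8) (nat_lit 0) (.cons (.rf (nat_lit 106) (nat_lit 19926519232772843409344544)) (.cons (.rf (nat_lit 108) (nat_lit 19926519232772843409344544)) (.cons (.rf (nat_lit 109) (nat_lit 19926519232772843409344544)) (.cons (.rf (nat_lit 109) (nat_lit 18755372345021171396347936)) (.cons (.ev (nat_lit 18519084242252660736) (nat_lit 1)) .nil)))))) .nil))))))) .nil)) .nil)) .nil)) .nil)) .nil)) .nil)),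
 (.br (nat_lit 11) (nat_lit 1) (.cons (.rf (nat_lit 102) (nat_lit 13517713477697)) (.cons (.br (nat_lit 12) (nat_lit 1) (.cons (.br (nat_lit 13) (nat_lit 1) (.cons (.rf (nat_lit 45) (nat_lit 16124620622104608)) .nil)) (.cons (.rf (nat_lit 102) (nat_lit 12384950456385)) .nil))) .nil))),
 (.br (nat_lit 8) (nat_lit 0) (.cons (.ev (nat_lit 5253145331363544771767251092570624) (nat_lit 3)) (.cons (.ev (nat_lit 5212737728104489279692857676071424) (nat_lit 2)) (.cons (.br (nat_lit 11) (nat_lit 0) (.cons (.ev (nat_lit 5294185514681859184246777079463942) (nat_lit 3)) (.cons (.ev (nat_lit 20282720297605830185317193220353) (nat_lit 1)) .nil))) .nil)))),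
 (.br (nat_lit 8) (nat_lit 0) (.cons (.ev (nat_lit 1213666704899166567399424) (nat_lit 1)) .nil)),
 (.br (nat_lit 0) (nat_lit 0) (.cons (.ev (nat_lit 5253461008482006199373828771480064) (nat_lit 3)) (.cons (.ev (nat_lit 5253461003627339956237931985176068) (nat_lit 3)) (.cons (.br (nat_lit 8) (nat_lit 0) (.cons (.ev (nat_lit 40644356864327571786111228313600) (nat_lit 2)) (.cons (.ev (nat_lit 5253461008482006199373845951350276) (nat_lit 3)) .nil))) .nil)))),
 (.br (nat_lit 7) (nat_lit 0) (.cons (.rf (nat_lit 112) (nat_lit 17022140995484340291616)) (.cons (.br (nat_lit 0) (nat_lit 0) (.cons (.zr (nat_lit 5212579268138479443069631673205762) (nat_lit 620183667829070227937689600) (nat_lit 8) (nat_lit 1)) (.cons (.zr (nat_lit 5212579268138516192442591016453122) (nat_lit 158457538676715055277576028160) (nat_lit 8) (nat_lit 1)) (.cons (.br (nat_lit 11) (nat_lit 0) (.cons (.ev (nat_lit 5212579888322184021512810397893120) (nat_lit 2)) (.cons (.rf (nat_lit 113) (nat_lit 556665533962096672)) .nil))) .nil)))) (.cons (.ev (nat_lit 5212579890749443644334848694485504)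 (nat_lit 2)) (.cons (.rf (nat_lit 114) (nat_lit 17022140995484340291616)) (.cons (.br (nat_lit 8) (nat_lit 0) (.cons (.rf (nat_lit 112) (nat_lit 17021023010996065765408)) (.cons (.rf (nat_lit 114) (nat_lit 17021023010996065765408)) (.cons (.ev (nat_lit 5212737728104489279692857676071424) (nat_lit 2)) (.cons (.br (nat_lit 15) (nat_lit 0) (.cons (.ev (nat_lit 1334440575054268000388859006975738113) (nat_lit 1)) (.cons (.ev (nat_lit 2663709135658400658260815576245010944) (nat_lit 2)) (.cons (.ev (nat_lit 2663709135660809028417706135960748544) (nat_lit 2)) .nil)))) .nil))))) .nil)))))),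
 (.br (nat_lit 8) (nat_lit 0) (.cons (.ev (nat_lit 5192296859748494333429667208429568) (nat_lit 1)) .nil)),
 (.br (nat_lit 0) (nat_lit 0) (.cons (.rf (nat_lit 115) (nat_lit 17022140995484340291616)) (.cons (.kr (nat_lit 1099511627777) (nat_lit 281474976710912) (nat_lit 0) (nat_lit 2)) (.cons (.br (nat_lit 4) (nat_lit 0) (.cons (.ev (nat_lit 20282720297605830467891681558528) (nat_lit 1)) (.cons (.ev (nat_lit 20837007978511685392188748137729) (nat_lit 3)) (.cons (.br (nat_lit 12) (nat_lit 0) (.cons (.ev (nat_lit 79537647542604484330033053953) (nat_lit 1)) (.cons (.ev (nat_lit 5212737725677156158690049669660674) (nat_lit 2)) .nil))) .nil)))) (.cons (.br (nat_lit 4) (nat_lit 0) (.cons (.ev (nat_lit 5334273734227592859602597196267522) (nat_lit 3)) (.cons (.ev (nat_lit 20282719093383858251889916248321) (nat_lit 1)) (.cons (.br (nat_lit 8) (nat_lit 0) (.cons (.ev (nat_lit 79537647542604484330033053953) (nat_lit 1)) (.cons (.ev (nat_lit 5212737728104489280258006652747778) (nat_lit 2)) .nil))) .nil)))) (.cons (.br (nat_lit 4) (nat_lit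 0) (.cons (.br (nat_lit 11) (nat_lit 0) (.cons (.ev (nat_lit 5212737725677156158124900692984320) (nat_lit 2)) (.cons (.rf (nat_lit 113) (nat_lit 556665533962001440)) .nil))) (.cons (.br (nat_lit 12) (nat_lit 0) (.cons (.ev (nat_lit 5212737725677156158124900692984320) (nat_lit 2)) (.cons (.ev (nat_lit 5212737725677156158690049669660674) (nat_lit 2)) .nil))) (.cons (.ev (nat_lit 5334273734227592857911548312748544) (nat_lit 3)) (.cons (.br (nat_lit 11) (nat_lit 0) (.cons (.br (nat_lit 12) (nat_lit 0) (.cons (.ev (nat_lit 79538861172271780161105494273) (nat_lit 1)) .nil)) (.cons (.ev (nat_lit 5212737725677156158690049669660674) (nat_lit 2)) (.cons (.rf (nat_lit 116) (nat_lit 18239626104349170698272)) .nil)))) .nil))))) .nil)))))),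
 (.br (nat_lit 0) (nat_lit 0) (.cons (.rf (nat_lit 115) (nat_lit 17022140995484340291616)) (.cons (.rf (nat_lit 117) (nat_lit 17022140995484340291616)) (.cons (.rf (nat_lit 117) (nat_lit 17021023010996065765408)) (.cons (.ev (nat_lit 79538861172272062735593832448) (nat_lit 1)) (.cons (.br (nat_lit 4) (nat_lit 0) (.cons (.br (nat_lit 8) (nat_lit 0) (.cons (.ev (nat_lit 5212579888322184021512810397893120) (nat_lit 2)) (.cons (.br (nat_lit 12) (nat_lit 0) (.cons (.ev (nat_lit 20361637770906820328656971235328) (nat_lit 1)) .nil)) .nil))) (.cons (.br (nat_lit 7) (nat_lit 0) (.cons (.ev (nat_lit 5253621319308686748725628375597568) (nat_lit 3)) (.cons (.ev (nat_lit 5212579890749443644899997671161858) (nat_lit 2)) .nil))) (.cons (.br (nat_lit 8) (nat_lit 0) (.cons (.ev (nat_lit 5212579888322184021512810397893120) (nat_lit 2)) (.cons (.ev (nat_lit 5253303166272367530830290690834434) (nat_lit 2)) .nil))) (.cons (.br (nat_lit 7) (nat_lit 0) (.cons (.ev (nat_lit 5212579890749443644899997671161858) (nat_lit 2)) (.cons (.br (nat_lit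 8) (nat_lit 0) (.cons (.ev (nat_lit 1213666704899166584242433) (nat_lit 1)) .nil)) (.cons (.rf (nat_lit 116) (nat_lit 18234870307685669111840)) .nil)))) .nil))))) .nil)))))),
 (.br (nat_lit 7) (nat_lit 1) (.cons (.rf (nat_lit 102) (nat_lit 8974573340704)) (.cons (.rf (nat_lit 102) (nat_lit 10074084968480)) .nil))),
 (.br (nat_lit 12) (nat_lit 0) (.cons (.ev (nat_lit 87114944428555251055560340124392323416323) (nat_lit 2)) .nil))]

theorem c4 : chkAll C T R L4 (nat_lit 94) = true := by decide +kernel

theorem l4 : (nat_lit 94) + L4.length = (nat_lit 121) := by decide +kernel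

/-- part of the certificates -/
def L5 : List Prf := [(.br (nat_lit 0) (nat_lit 0) (.cons (.br (nat_lit 8) (nat_lit 0) (.cons (.ev (nat_lit 5212579578837155825481257672835329) (nat_lit 1)) (.cons (.ev (nat_lit 1329248357423895705543750346443129089) (nat_lit 1)) (.cons (.br (nat_lit 11) (nat_lit 0) (.cons (.kr (nat_lit 1329227996094400882725152129005125632) (nat_lit 5192376086697341892868089873170432) (nat_lit 11) (nat_lit 0)) (.cons (.rf (nat_lit 120) (nat_lit 677582165103132179601393696)) .nil))) .nil)))) (.cons (.ev (nat_lit 1334420292643450719051139224373887233) (nat_lit 1)) (.cons (.br (nat_lit 4) (nat_lit 0) (.cons (.ev (nat_lit 5212579578837155825481257672835329) (nat_lit 1)) (.cons (.kr (nat_lit 15577049031929511414549250563899394) (nat_lit 341611615199134196636279051126212460544) (nat_lit 0) (nat_lit 1)) (.cons (.br (nat_lit 12) (nat_lit 0) (.cons (.ev (nat_lit 79537647542604484330033053953) (nat_lit 1)) (.cons (.ev (nat_lit 341616807654449056492437104541718216706) (nat_lit 2)) .nil))) .nil)))) (.cons (.br (nat_lit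 4) (nat_lit 0) (.cons (.ev (nat_lit 1329248357423895705543750346443129089) (nat_lit 1)) (.cons (.kr (nat_lit 1334420293262420720175310268547465218) (nat_lit 340282387203349280763375244065932115968) (nat_lit 0) (nat_lit 1)) (.cons (.br (nat_lit 11) (nat_lit 0) (.cons (.ev (nat_lit 79537647542604484330033053953) (nat_lit 1)) (.cons (.ev (nat_lit 344285648081898602884615794605299007490) (nat_lit 2)) .nil))) .nil)))) (.cons (.br (nat_lit 11) (nat_lit 0) (.cons (.br (nat_lit 12) (nat_lit 0) (.cons (.ev (nat_lit 344275304211459492857600451683280945664) (nat_lit 2)) (.cons (.ev (nat_lit 344275304211459492857599886534304268290) (nat_lit 2)) .nil))) (.cons (.br (nat_lit 4) (nat_lit 0) (.cons (.ev (nat_lit 344285648081898602884615229456322331136) (nat_lit 2)) (.cons (.br (nat_lit 12) (nat_lit 0) (.cons (.ev (nat_lit 354950829448194817053399036862921246216) (nat_lit 4)) .nil)) .nil))) (.cons (.kr (nat_lit 1329227996094400882725152129005125632) (nat_lit 5192376086697341892868089873170432) (nat_lit 11) (nat_lit 0)) (.cons (.br (nat_lit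 4) (nat_lit 0) (.cons (.br (nat_lit 12) (nat_lit 0) (.cons (.ev (nat_lit 354950829448194817053397915361060913676) (nat_lit 4)) .nil)) (.cons (.ev (nat_lit 344285648081898602884615794605299007490) (nat_lit 2)) (.cons (.br (nat_lit 8) (nat_lit 0) (.cons (.ev (nat_lit 354950829448194817053399036862921246216) (nat_lit 4)) .nil)) .nil)))) .nil))))) .nil)))))),
 (.br (nat_lit 0) (nat_lit 0) (.cons (.ev (nat_lit 5212579578837155825481257672835329) (nat_lit 1)) (.cons (.ev (nat_lit 1334420372181098224618020218895139073) (nat_lit 1)) (.cons (.br (nat_lit 8) (nat_lit 0) (.cons (.ev (nat_lit 344275304211459492857600451683280945664) (nat_lit 2)) (.cons (.br (nat_lit 12) (nat_lit 0) (.cons (.ev (nat_lit 2613715605256910251514693540298843093012494) (nat_lit 5)) .nil)) .nil))) .nil)))),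
 (.br (nat_lit 0) (nat_lit 0) (.cons (.ev (nat_lit 1329248357423895705543750346443129089) (nat_lit 1)) (.cons (.ev (nat_lit 1334420372181098224618020218895139073) (nat_lit 1)) (.cons (.br (nat_lit 8) (nat_lit 0) (.cons (.ev (nat_lit 344285648239735957930250587465303917056) (nat_lit 2)) (.cons (.br (nat_lit 11) (nat_lit 0) (.cons (.ev (nat_lit 2613736789826830374771346856843469204295694) (nat_lit 5)) .nil)) .nil))) .nil)))),
 (.br (nat_lit 0) (nat_lit 0) (.cons (.rf (nat_lit 121) (nat_lit 19889919774547180536301600)) (.cons (.rf (nat_lit 122) (nat_lit 19926519232773908561233952)) (.cons (.rf (nat_lit 123) (nat_lit 19926519232773908561233952)) (.cons (.br (nat_lit 0) (nat_lit 0) (.cons (.rf (nat_lit 121) (nat_lit 19889919774547180536301600)) (.cons (.rf (nat_lit 122) (nat_lit 19926519232773908561233952)) (.cons (.rf (nat_lit 123) (nat_lit 19926519232773908561233952)) .nil)))) .nil))))),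
 (.br (nat_lit 8) (nat_lit 0) (.cons (.rf (nat_lit 121) (nat_lit 19889919774547180536301600)) (.cons (.rf (nat_lit 124) (nat_lit 19889919774547180536301600)) (.cons (.kr (nat_lit 79228162514336395187581878272) (nat_lit 309485028268089142434332672) (nat_lit 7) (nat_lit 0)) (.cons (.br (nat_lit 4) (nat_lit 0) (.cons (.br (nat_lit 0) (nat_lit 0) (.cons (.ev (nat_lit 5212658497514641749672114744525057) (nat_lit 1)) (.cons (.br (nat_lit 12) (nat_lit 0) (.cons (.zr (nat_lit 1701411834763148642382871661245735700992) (nat_lit 3992896568481009805124834931941310468) (nat_lit 16) (nat_lit 1)) .nil)) .nil))) (.cons (.rf (nat_lit 70) (nat_lit 596202885152)) (.cons (.rf (nat_lit 121) (nat_lit 19889919774547180533155985)) .nil)))) .nil))))),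
 (.br (nat_lit 8) (nat_lit 0) (.cons (.rf (nat_lit 121) (nat_lit 19889919774547180536301600)) (.cons (.rf (nat_lit 124) (nat_lit 19889919774547180536301600)) (.cons (.kr (nat_lit 2658455991879316755701016783323398144) (nat_lit 10384672945232187968142659911942144) (nat_lit 7) (nat_lit 0)) (.cons (.br (nat_lit 4) (nat_lit 0) (.cons (.br (nat_lit 0) (nat_lit 0) (.cons (.ev (nat_lit 1329248278505218182581956153876480257) (nat_lit 1)) (.cons (.br (nat_lit 11) (nat_lit 0) (.cons (.zr (nat_lit 1708057974584235866738504711497499085312) (nat_lit 46751429506605834099612870649053188) (nat_lit 16) (nat_lit 1)) .nil)) .nil))) (.cons (.rf (nat_lit 70) (nat_lit 597276594208)) (.cons (.rf (nat_lit 121) (nat_lit 19889919774547180533155985)) .nil)))) .nil))))),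
 (.br (nat_lit 14) (nat_lit 1) (.cons (.br (nat_lit 15) (nat_lit 1) (.cons (.br (nat_lit 7) (nat_lit 0) (.cons (.rf (nat_lit 121) (nat_lit 19926519232773908561233952)) (.cons (.rf (nat_lit 124) (nat_lit 19926519232773908561233952)) (.cons (.kr (nat_lit 1329227995784915872975864654318272512) (nat_lit 5192296858534846075274570038771712) (nat_lit 7) (nat_lit 0)) (.cons (.rf (nat_lit 125) (nat_lit 19926519232773908561233952)) (.cons (.rf (nat_lit 126) (nat_lit 19926519232773908561233952)) (.cons (.br (nat_lit 8) (nat_lit 0) (.cons (.rf (nat_lit 121) (nat_lit 19889919774547180536301600)) (.cons (.rf (nat_lit 124) (nat_lit 19889919774547180536301600)) (.cons (.rf (nat_lit 126) (nat_lit 19889919774547180536301600)) (.cons (.rf (nat_lit 125) (nat_lit 19889919774547180536301600)) (.cons (.ev (nat_lit 1334420292643450719051421798862225408) (nat_lit 1)) .nil)))))) .nil))))))) .nil)) .nil)),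
 (.br (nat_lit 8) (nat_lit 1) (.cons (.br (nat_lit 8) (nat_lit 1) .nil) .nil)),
 (.br (nat_lit 9) (nat_lit 0) (.cons (.ev (nat_lit 309518195514503249363470081) (nat_lit 3)) (.cons (.br (nat_lit 11) (nat_lit 0) (.cons (.br (nat_lit 12) (nat_lit 1) (.cons (.br (nat_lit 12) (nat_lit 1) (.cons (.br (nat_lit 14) (nat_lit 0) (.cons (.br (nat_lit 13) (nat_lit 1) (.cons (.ev (nat_lit 20839173141061085120579733029127) (nat_lit 3)) .nil)) .nil)) .nil)) .nil)) .nil)) .nil))),
 (.br (nat_lit 7) (nat_lit 1) (.cons (.br (nat_lit 8) (nat_lit 1) (.cons (.br (nat_lit 9) (nat_lit 1) .nil) .nil)) (.cons (.rf (nat_lit 128) (nat_lit 325702574508064)) .nil))),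
 (.br (nat_lit 10) (nat_lit 1) (.cons (.br (nat_lit 10) (nat_lit 1) (.cons (.br (nat_lit 11) (nat_lit 0) (.cons (.br (nat_lit 12) (nat_lit 0) (.cons (.br (nat_lit 11) (nat_lit 1) (.cons (.kr (nat_lit 309485009821345068724781056) (nat_lit 79228162514264337593543950336) (nat_lit 11) (nat_lit 0)) (.cons (.rf (nat_lit 130) (nat_lit 15817599258689)) .nil))) .nil)) .nil)) .nil)) .nil)),
 (.br (nat_lit 0) (nat_lit 0) (.cons (.ev (nat_lit 4740813226943371608321) (nat_lit 1)) (.cons (.br (nat_lit 9) (nat_lit 0) (.cons (.ev (nat_lit 309518195514503249363470081) (nat_lit 3)) (.cons (.rf (nat_lit 131) (nat_lit 13872820808453185)) .nil))) (.cons (.rf (nat_lit 131) (nat_lit 13872820808453185)) .nil)))),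
 (.br (nat_lit 8) (nat_lit 0) (.cons (.rf (nat_lit 93) (nat_lit 479439104)) (.cons (.kr (nat_lit 18446744073709551616) (nat_lit 4722366482869645213696) (nat_lit 8) (nat_lit 0)) (.cons (.ev (nat_lit 5192456244523848551364180370850304) (nat_lit 2)) (.cons (.ev (nat_lit 5232862607406123363536887785521664) (nat_lit 2)) (.cons (.rf (nat_lit 93) (nat_lit 479439119)) .nil)))))),
 (.br (nat_lit 8) (nat_lit 1) (.cons (.br (nat_lit 9) (nat_lit 1) .nil) .nil)),
 (.br (nat_lit 4) (nat_lit 0) (.cons (.ev (nat_lit 1329228075323777063694671467916624129) (nat_lit 1)) (.cons (.ev (nat_lit 2663668650379244526724000440043766272) (nat_lit 2)) (.cons (.br (nat_lit 16) (nat_lit 0) (.cons (.ev (nat_lit 341611594916723384077091641435420164353) (nat_lit 1)) (.cons (.ev (nat_lit 4771933718319560409667806373536240437768) (nat_lit 4)) .nil))) .nil)))),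
 (.br (nat_lit 4) (nat_lit 0) (.cons (.ev (nat_lit 340298004659364276254179846248386986496) (nat_lit 2)) (.cons (.br (nat_lit 16) (nat_lit 0) (.cons (.ev (nat_lit 88142468903970408078409880190683397358337) (nat_lit 3)) .nil)) .nil))),
 (.br (nat_lit 0) (nat_lit 0) (.cons (.br (nat_lit 9) (nat_lit 0) (.cons (.ev (nat_lit 1329228075323777063694671467916624129) (nat_lit 1)) (.cons (.ev (nat_lit 340287579500206606683486788822998450433) (nat_lit 1)) (.cons (.br (nat_lit 15) (nat_lit 0) (.cons (.ev (nat_lit 2663668650379244526724000440043766272) (nat_lit 2)) (.cons (.br (nat_lit 16) (nat_lit 0) (.cons (.zr (nat_lit 683223189834994183722023842297994873344) (nat_lit 5212816953853837377804728319082500) (nat_lit 16) (nat_lit 1)) .nil)) .nil))) .nil)))) (.cons (.ev (nat_lit 4740813226943371608321) (nat_lit 1)) (.cons (.rf (nat_lit 135) (nat_lit 19926519232773908561233952)) (.cons (.rf (nat_lit 135) (nat_lit 18755372345022236548237344)) (.cons (.br (nat_lit 9) (nat_lit 0) (.cons (.br (nat_lit 15) (nat_lit 0) (.cons (.ev (nat_lit 2663668650376826711977694180170465792)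 (nat_lit 2)) (.cons (.br (nat_lit 16) (nat_lit 0) (.cons (.ev (nat_lit 2049674782318224983884085202623091769860) (nat_lit 3)) .nil)) .nil))) (.cons (.rf (nat_lit 136) (nat_lit 677582165103132179601393696)) (.cons (.rf (nat_lit 136) (nat_lit 676411018215380507588397088)) (.cons (.ev (nat_lit 1213648186380073308258561) (nat_lit 1)) .nil))))) .nil)))))),
 (.br (nat_lit 0) (nat_lit 0) (.cons (.ev (nat_lit 1334440575053059093015988451510583553) (nat_lit 1)) (.cons (.ev (nat_lit 341611594916723379336278414492065399041) (nat_lit 1)) (.cons (.br (nat_lit 9) (nat_lit 0) (.cons (.ev (nat_lit 342946035492397826337469812694407250432) (nat_lit 2)) (.cons (.br (nat_lit 16) (nat_lit 0) (.cons (.ev (nat_lit 88137131141670195851593229667093195129601) (nat_lit 3)) .nil)) .nil))) .nil)))),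
 (.br (nat_lit 0) (nat_lit 0) (.cons (.rf (nat_lit 137) (nat_lit 19926519232739823700772896)) (.cons (.rf (nat_lit 138) (nat_lit 19926519232773908561233952)) (.cons (.rf (nat_lit 138) (nat_lit 18755372345022236548237344)) (.cons (.br (nat_lit 0) (nat_lit 0) (.cons (.rf (nat_lit 137) (nat_lit 19926519232739823700772896)) (.cons (.rf (nat_lit 138) (nat_lit 19926519232773908561233952)) (.cons (.rf (nat_lit 138) (nat_lit 18755372345022236548237344)) .nil)))) .nil))))),
 (.br (nat_lit 9) (nat_lit 0) (.cons (.rf (nat_lit 137) (nat_lit 19926519232739823700772896)) (.cons (.rf (nat_lit 139) (nat_lit 19926519232739823700772896)) (.cons (.kr (nat_lit 340282366920938463481821351505477763072) (nat_lit 1329227995784920595270289929925558272) (nat_lit 8) (nat_lit 0)) (.cons (.br (nat_lit 16) (nat_lit 0) (.cons (.rf (nat_lit 138) (nat_lit 4877103761147336697787904)) (.cons (.rf (nat_lit 70) (nat_lit 600532586528)) (.cons (.rf (nat_lit 137) (nat_lit 4877103761113251837326865)) .nil)))) .nil))))),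
 (.br (nat_lit 4) (nat_lit 0) (.cons (.ev (nat_lit 7980702328595500022224345129365603330) (nat_lit 3)) (.cons (.ev (nat_lit 683228402651329048650148901400277484032) (nat_lit 2)) (.cons (.br (nat_lit 9) (nat_lit 0) (.cons (.ev (nat_lit 1334420292952940451239249737232220160) (nat_lit 1)) (.cons (.br (nat_lit 16) (nat_lit 0) (.cons (.ev (nat_lit 2622912440258080155344750638168295464174606) (nat_lit 5)) .nil)) .nil))) .nil)))),
 (.br (nat_lit 15) (nat_lit 0) (.cons (.ev (nat_lit 340282387282576229647756395620761338113) (nat_lit 1)) .nil)),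
 (.br (nat_lit 9) (nat_lit 0) (.cons (.ev (nat_lit 680569946500683921892919294923146199552) (nat_lit 2)) (.cons (.ev (nat_lit 1329228075322568119428030190527185153) (nat_lit 1)) .nil))),
 (.br (nat_lit 0) (nat_lit 0) (.cons (.br (nat_lit 9) (nat_lit 0) (.cons (.ev (nat_lit 5322246496105817880005526708512293894) (nat_lit 3)) (.cons (.ev (nat_lit 1361134802196720008241888728194463761414) (nat_lit 3)) (.cons (.br (nat_lit 15) (nat_lit 0) (.cons (.ev (nat_lit 5322165365224608641582291025480057862) (nat_lit 3)) (.cons (.br (nat_lit 16) (nat_lit 0) (.cons (.zr (nat_lit 5212817881099941238107790643496452) (nat_lit 683223189833455221153296101756106702848) (nat_lit 16) (nat_lit 1)) .nil)) .nil))) .nil)))) (.cons (.ev (nat_lit 4740813226943371608321) (nat_lit 1)) (.cons (.rf (nat_lit 141) (nat_lit 19926519232773908561233952)) (.cons (.rf (nat_lit 141) (nat_lit 18755372345022236548237344)) (.cons (.br (nat_lit 4) (nat_lit 0) (.cons (.br (nat_lit 15) (nat_lit 0) (.cons (.ev (nat_lit 2663668650376826711977694180170465792) (nat_lit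 2)) (.cons (.rf (nat_lit 142) (nat_lit 21174441469360359728056352)) .nil))) (.cons (.rf (nat_lit 143) (nat_lit 677582165103132179601393696)) (.cons (.rf (nat_lit 143) (nat_lit 676411018215380507588397088)) (.cons (.ev (nat_lit 5253382084945149678832399515975682) (nat_lit 2)) .nil))))) .nil)))))),
 (.br (nat_lit 0) (nat_lit 0) (.cons (.ev (nat_lit 7980702328595518837903300313108251650) (nat_lit 3)) (.cons (.ev (nat_lit 341616807575530374265555006395598766337) (nat_lit 1)) (.cons (.br (nat_lit 9) (nat_lit 0) (.cons (.ev (nat_lit 2663668650376836119817171772041789952) (nat_lit 2)) (.cons (.ev (nat_lit 2663709215817431331477542389248360450) (nat_lit 2)) .nil))) .nil)))),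
 (.br (nat_lit 0) (nat_lit 0) (.cons (.rf (nat_lit 144) (nat_lit 19926519232739823700772896)) (.cons (.rf (nat_lit 145) (nat_lit 19926519232773908561233952)) (.cons (.rf (nat_lit 145) (nat_lit 18755372345022236548237344)) (.cons (.br (nat_lit 0) (nat_lit 0) (.cons (.rf (nat_lit 144) (nat_lit 19926519232739823700772896)) (.cons (.rf (nat_lit 145) (nat_lit 19926519232773908561233952)) (.cons (.rf (nat_lit 145) (nat_lit 18755372345022236548237344)) .nil)))) .nil))))),
 (.br (nat_lit 9) (nat_lit 0) (.cons (.rf (nat_lit 144) (nat_lit 19926519232739823700772896)) (.cons (.rf (nat_lit 146) (nat_lit 19926519232739823700772896)) (.cons (.kr (nat_lit 340282366920938463481821351505477763072) (nat_lit 1329227995784920595270289929925558272) (nat_lit 8) (nat_lit 0)) (.cons (.br (nat_lit 4) (nat_lit 0) (.cons (.br (nat_lit 16) (nat_lit 0) (.cons (.ev (nat_lit 683228524346412894245268172267745379334) (nat_lit 3)) (.cons (.ev (nat_lit 340287559218106488041710050108720087040) (nat_lit 1)) .nil))) (.cons (.rf (nat_lit 70) (nat_lit 600532586528))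 (.cons (.rf (nat_lit 144) (nat_lit 19926519232739823697627281)) .nil)))) .nil)))))]

theorem c5 : chkAll C T R L5 (nat_lit 121) = true := by decide +kernel

theorem l5 : (nat_lit 121) + L5.length = (nat_lit 148) := by decide +kernel

/-- part of the certificates -/
def L6 : List Prf := [(.br (nat_lit 16) (nat_lit 0) (.cons (.ev (nat_lit 683228402651329048650148901400277484032) (nat_lit 2)) (.cons (.ev (nat_lit 87453902739335777025630267735875910631424) (nat_lit 1)) .nil))),
 (.br (nat_lit 11) (nat_lit 1) (.cons (.br (nat_lit 12) (nat_lit 1) (.cons (.br (nat_lit 13) (nat_lit 0) (.cons (.br (nat_lit 13) (nat_lit 0) (.cons (.br (nat_lit 15) (nat_lit 1) (.cons (.br (nat_lit 14) (nat_lit 0) (.cons (.br (nat_lit 8) (nat_lit 0) (.cons (.rf (nat_lit 144) (nat_lit 19926519232773908561233952)) (.cons (.rf (nat_lit 146) (nat_lit 19926519232773908561233952)) (.cons (.kr (nat_lit 18446744073709551616) (nat_lit 4722366482869645213696) (nat_lit 8) (nat_lit 0)) (.cons (.rf (nat_lit 147) (nat_lit 19926519232773908561233952)) (.cons (.rf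 (nat_lit 147) (nat_lit 18755372345022236548237344)) (.cons (.br (nat_lit 9) (nat_lit 0) (.cons (.rf (nat_lit 144) (nat_lit 19926519232739823700772896)) (.cons (.rf (nat_lit 146) (nat_lit 19926519232739823700772896)) (.cons (.rf (nat_lit 147) (nat_lit 19926519232739823700772896)) (.cons (.rf (nat_lit 147) (nat_lit 18755372344988151687776288)) (.cons (.br (nat_lit 4) (nat_lit 0) (.cons (.br (nat_lit 0) (nat_lit 0) (.cons (.ev (nat_lit 2663709215817431331477542389248360450) (nat_lit 2)) (.cons (.ev (nat_lit 680569987066124526512419143132224094210) (nat_lit 2)) (.cons (.ev (nat_lit 87112301529013389695450660206737782669569) (nat_lit 2)) .nil)))) (.cons (.rf (nat_lit 148) (nat_lit 677582165103132179601393696)) (.cons (.rf (nat_lit 148) (nat_lit 676411018215380507588397088)) (.cons (.ev (nat_lit 87112291144419053646293989321383862075392) (nat_lit 1)) .nil))))) .nil)))))) .nil))))))) .nil)) .nil)) .nil)) .nil)) .nil)) .nil)),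
 (.br (nat_lit 10) (nat_lit 1) (.cons (.rf (nat_lit 45) (nat_lit 13909140160219168)) (.cons (.br (nat_lit 12) (nat_lit 1) (.cons (.rf (nat_lit 130) (nat_lit 13651861999681)) (.cons (.br (nat_lit 12) (nat_lit 1) (.cons (.rf (nat_lit 130) (nat_lit 13686221738049)) .nil)) .nil))) .nil))),
 (.br (nat_lit 10) (nat_lit 1) (.cons (.ev (nat_lit 79229376162450717671147241728) (nat_lit 1)) (.cons (.rf (nat_lit 12) (nat_lit 13509991674922)) (.cons (.br (nat_lit 12) (nat_lit 1) (.cons (.br (nat_lit 13) (nat_lit 1) (.cons (.rf (nat_lit 45) (nat_lit 16160939973904416)) .nil)) (.cons (.rf (nat_lit 134) (nat_lit 11489345966145)) .nil))) .nil)))),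
 (.br (nat_lit 0) (nat_lit 0) (.cons (.ev (nat_lit 5192297790616671661918251632361984) (nat_lit 2)) (.cons (.ev (nat_lit 20361637770888301526989240598785) (nat_lit 1)) (.cons (.br (nat_lit 12) (nat_lit 0) (.cons (.ev (nat_lit 5232861988436103576166413317112320) (nat_lit 2)) (.cons (.ev (nat_lit 79538861172343837759421546753) (nat_lit 1)) .nil))) .nil)))),
 (.br (nat_lit 0) (nat_lit 0) (.cons (.ev (nat_lit 5192297790616671661918251632361984) (nat_lit 2)) (.cons (.ev (nat_lit 20361637770906747988484166844673) (nat_lit 1)) (.cons (.br (nat_lit 12) (nat_lit 0) (.cons (.ev (nat_lit 5232861988436103576166413317112320) (nat_lit 2)) (.cons (.ev (nat_lit 79538861190790864403324469505) (nat_lit 1)) .nil))) .nil)))),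
 (.br (nat_lit 4) (nat_lit 0) (.cons (.br (nat_lit 8) (nat_lit 0) (.cons (.ev (nat_lit 5192297790616671661918251632361984) (nat_lit 2)) (.cons (.ev (nat_lit 5192297788198819878008656264102400) (nat_lit 2)) (.cons (.br (nat_lit 9) (nat_lit 0) (.cons (.ev (nat_lit 20361637770888301526989240598785) (nat_lit 1)) (.cons (.br (nat_lit 12) (nat_lit 0) (.cons (.ev (nat_lit 20361638979814192916637948051713) (nat_lit 1)) .nil)) .nil))) .nil)))) (.cons (.ev (nat_lit 5313991634104228714407394178957824) (nat_lit 3)) (.cons (.rf (nat_lit 152) (nat_lit 17022140995484340291616)) (.cons (.rf (nat_lit 152) (nat_lit 13477012183165817686048)) (.cons (.br (nat_lit 8) (nat_lit 0) (.cons (.br (nat_lit 9) (nat_lit 0) (.cons (.ev (nat_lit 20361637770906747988484166844673) (nat_lit 1)) (.cons (.br (nat_lit 12) (nat_lit 0) (.cons (.ev (nat_lit 20361638979832639943281850974465) (nat_lit 1)) .nil)) .nil))) (.cons (.rf (nat_lit 153) (nat_lit 17022140995484340291616)) (.cons (.rf (nat_lit 153) (nat_lit 13477012183165817686048)) (.cons (.ev (nat_lit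 5232861990853955360076008685371904) (nat_lit 2)) .nil))))) .nil)))))),
 (.br (nat_lit 8) (nat_lit 0) (.cons (.ev (nat_lit 5232863233629771999125860763502084) (nat_lit 3)) (.cons (.ev (nat_lit 5192455625563236603471297773765120) (nat_lit 2)) (.cons (.br (nat_lit 12) (nat_lit 0) (.cons (.ev (nat_lit 1208925891954797700972801) (nat_lit 1)) (.cons (.zr (nat_lit 81288095958005835008947202883584) (nat_lit 15576891504059549243397417069445632) (nat_lit 8) (nat_lit 4)) .nil))) .nil)))),
 (.br (nat_lit 4) (nat_lit 0) (.cons (.ev (nat_lit 5232863233629661318091897252808196) (nat_lit 3)) (.cons (.ev (nat_lit 5192455625563273497524585579610624) (nat_lit 2)) (.cons (.br (nat_lit 12) (nat_lit 0) (.cons (.ev (nat_lit 1208925891954797700972801) (nat_lit 1)) (.cons (.zr (nat_lit 81288095958042728500384566935552) (nat_lit 15576891504059512351034078635491840) (nat_lit 8) (nat_lit 8)) .nil))) .nil)))),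
 (.br (nat_lit 11) (nat_lit 0) (.cons (.br (nat_lit 0) (nat_lit 0) (.cons (.ev (nat_lit 20361637766165934761540812079361) (nat_lit 1)) .nil)) (.cons (.ev (nat_lit 5192376396182370233014830657241088) (nat_lit 1)) .nil))),
 (.br (nat_lit 8) (nat_lit 0) (.cons (.ev (nat_lit 5192297790616671661918251632361984) (nat_lit 2)) (.cons (.rf (nat_lit 70) (nat_lit 528725872672)) (.cons (.rf (nat_lit 157) (nat_lit 18240816216870020548640)) .nil)))),
 (.br (nat_lit 11) (nat_lit 1) (.cons (.br (nat_lit 13) (nat_lit 0) (.cons (.rf (nat_lit 154) (nat_lit 17022140995484340291616)) (.cons (.br (nat_lit 9) (nat_lit 0) (.cons (.rf (nat_lit 155) (nat_lit 17022140995484340291616)) (.cons (.br (nat_lit 12) (nat_lit 0) (.cons (.ev (nat_lit 5192455625563236603471297773765120) (nat_lit 2)) (.cons (.rf (nat_lit 70) (nat_lit 525471223840)) .nil))) (.cons (.ev (nat_lit 20520096523213347075320570707968) (nat_lit 2)) (.cons (.br (nat_lit 12) (nat_lit 0) (.cons (.rf (nat_lit 155) (nat_lit 13477012183165817686048)) (.cons (.rf (nat_lit 70) (nat_lit 528591786016))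 (.cons (.br (nat_lit 8) (nat_lit 0) (.cons (.br (nat_lit 0) (nat_lit 0) (.cons (.ev (nat_lit 1329329645522271673842855154829756161) (nat_lit 3)) .nil)) (.cons (.ev (nat_lit 1329227995786124817242223357202530304) (nat_lit 1)) .nil))) .nil)))) .nil))))) (.cons (.br (nat_lit 9) (nat_lit 0) (.cons (.rf (nat_lit 156) (nat_lit 17022140995484340291616)) (.cons (.br (nat_lit 12) (nat_lit 0) (.cons (.ev (nat_lit 5192455625563273497524585579610624) (nat_lit 2)) (.cons (.rf (nat_lit 70) (nat_lit 529766060064)) .nil))) (.cons (.ev (nat_lit 20520096523268686462004372701184) (nat_lit 2)) (.cons (.br (nat_lit 4) (nat_lit 0) (.cons (.br (nat_lit 0) (nat_lit 0) (.cons (.ev (nat_lit 5232863228793957752533302422996484) (nat_lit 3)) (.cons (.br (nat_lit 12) (nat_lit 0) (.cons (.ev (nat_lit 1329329645522271600057000379031750401) (nat_lit 3)) .nil)) .nil))) (.cons (.rf (nat_lit 70) (nat_lit 529665495072)) (.cons (.rf (nat_lit 156) (nat_lit 17022140995484337145999)) .nil)))) .nil))))) (.cons (.kr (nat_lit 309485009821345068724781056) (nat_lit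 20282409603651670423947251286016) (nat_lit 11) (nat_lit 0)) (.cons (.kr (nat_lit 20282409603651670423947251286016) (nat_lit 5192296858534827628530496329220096) (nat_lit 13) (nat_lit 0)) (.cons (.br (nat_lit 4) (nat_lit 0) (.cons (.br (nat_lit 8) (nat_lit 0) (.cons (.ev (nat_lit 18447026652509700353) (nat_lit 1)) (.cons (.ev (nat_lit 5192297790616671661918251632361984) (nat_lit 2)) (.cons (.ev (nat_lit 5192297788198819878008656264102400) (nat_lit 2)) (.cons (.ev (nat_lit 5232861990853955360076008685371904) (nat_lit 2)) .nil))))) (.cons (.kr (nat_lit 281479271677952) (nat_lit 18446745173221179392) (nat_lit 4) (nat_lit 0)) (.cons (.rf (nat_lit 158) (nat_lit 583706118939841765935136)) (.cons (.rf (nat_lit 158) (nat_lit 580160990127523243329568)) (.cons (.rf (nat_lit 154) (nat_lit 17022140995484337145999)) .nil)))))) .nil))))))) (.cons (.rf (nat_lit 130) (nat_lit 16985865000034)) .nil))),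
 (.br (nat_lit 9) (nat_lit 0) (.cons (.ev (nat_lit 5192456246951107885390693572739584) (nat_lit 2)) (.cons (.ev (nat_lit 309489750634572016374513921) (nat_lit 1)) (.cons (.br (nat_lit 13) (nat_lit 0) (.cons (.ev (nat_lit 5233021066148966493837997727875584) (nat_lit 2)) (.cons (.ev (nat_lit 5313991634113673303257962573399556) (nat_lit 3)) .nil))) .nil)))),
 (.br (nat_lit 13) (nat_lit 0) (.cons (.ev (nat_lit 5232862609823974858085809116086784) (nat_lit 2)) (.cons (.ev (nat_lit 5233021066148966493837997727875584) (nat_lit 2)) (.cons (.zr (nat_lit 5192297168019837521933159108772866) (nat_lit 2658455991571040671627511341403602944) (nat_lit 8) (nat_lit 1)) .nil)))),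
 (.br (nat_lit 8) (nat_lit 0) (.cons (.rf (nat_lit 160) (nat_lit 17022140995484340291616)) (.cons (.ev (nat_lit 5192297790626116250768802846933504) (nat_lit 2)) (.cons (.br (nat_lit 0) (nat_lit 0) (.cons (.ev (nat_lit 1213666632841576824439041) (nat_lit 1)) (.cons (.ev (nat_lit 20361638975091754376174264910081) (nat_lit 1)) (.cons (.br (nat_lit 9) (nat_lit 0) (.cons (.ev (nat_lit 5192297169238244968849407047959040) (nat_lit 2)) (.cons (.rf (nat_lit 161) (nat_lit 583706118939841765935136)) .nil))) .nil)))) (.cons (.ev (nat_lit 5232862609823974858085809116086784) (nat_lit 2)) (.cons (.br (nat_lit 0) (nat_lit 0) (.cons (.rf (nat_lit 160) (nat_lit 16986365491859555452960)) (.cons (.rf (nat_lit 160) (nat_lit 8605814157230410401824)) (.cons (.rf (nat_lit 160) (nat_lit 8570038653605625563168)) (.cons (.rf (nat_lit 161) (nat_lit 583670343436216981096480)) .nil))))) .nil)))))),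
 (.br (nat_lit 0) (nat_lit 0) (.cons (.rf (nat_lit 162) (nat_lit 17022140995484340291616)) (.cons (.br (nat_lit 4) (nat_lit 0) (.cons (.ev (nat_lit 5192456244523848406683834728382976) (nat_lit 2)) (.cons (.ev (nat_lit 5232861990863363054873254914228736) (nat_lit 2)) (.cons (.br (nat_lit 12) (nat_lit 0) (.cons (.ev (nat_lit 20361637770906747988484166844673) (nat_lit 1)) (.cons (.br (nat_lit 13) (nat_lit 0) (.cons (.ev (nat_lit 20521023769335293279245911065090) (nat_lit 2)) .nil)) .nil))) .nil)))) (.cons (.ev (nat_lit 79228162532711364241741840641) (nat_lit 1)) (.cons (.br (nat_lit 9) (nat_lit 0) (.cons (.ev (nat_lit 5232861990863363054873254914228736) (nat_lit 2)) (.cons (.ev (nat_lit 20361637770906747988484166844673) (nat_lit 1)) (.cons (.br (nat_lit 12) (nat_lit 0) (.cons (.ev (nat_lit 5192456244523848406683834728382976) (nat_lit 2)) (.cons (.ev (nat_lit 20361950892175655196476085109250) (nat_lit 2)) .nil))) .nil)))) (.cons (.br (nat_lit 4) (nat_lit 0) (.cons (.br (nat_lit 12) (nat_lit 0) (.cons (.ev (nat_lit 5232861988436103576166413317112320)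 (nat_lit 2)) (.cons (.ev (nat_lit 79229376162450717671164018945) (nat_lit 1)) .nil))) (.cons (.ev (nat_lit 5192456244523848406683834728382976) (nat_lit 2)) (.cons (.br (nat_lit 12) (nat_lit 0) (.cons (.ev (nat_lit 5192297169238244968849407047959040) (nat_lit 2)) (.cons (.ev (nat_lit 20361638975091754376174264910081) (nat_lit 1)) .nil))) (.cons (.br (nat_lit 9) (nat_lit 0) (.cons (.br (nat_lit 13) (nat_lit 0) (.cons (.ev (nat_lit 20282720302309678149089284325633) (nat_lit 1)) .nil)) (.cons (.br (nat_lit 12) (nat_lit 0) (.cons (.ev (nat_lit 1329370527868282239782986163935250177) (nat_lit 3)) .nil)) (.cons (.rf (nat_lit 116) (nat_lit 17945563500747971201056)) .nil)))) .nil))))) .nil)))))),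
 (.br (nat_lit 9) (nat_lit 0) (.cons (.br (nat_lit 8) (nat_lit 0) (.cons (.kr (nat_lit 340282366921247948510089723222400434178) (nat_lit 1334420292644669071156975519129468928) (nat_lit 0) (nat_lit 1)) (.cons (.ev (nat_lit 349602620913200391749676236656773235714) (nat_lit 3)) (.cons (.br (nat_lit 12) (nat_lit 0) (.cons (.ev (nat_lit 344285628116092187892374078290538071042) (nat_lit 3)) (.cons (.ev (nat_lit 349602540100469772607308631527370326022) (nat_lit 3)) .nil))) .nil)))) (.cons (.br (nat_lit 0) (nat_lit 0) (.cons (.ev (nat_lit 5192376397395999900593236218020097) (nat_lit 1)) (.cons (.ev (nat_lit 5212579578832433386940793989693697) (nat_lit 1)) (.cons (.br (nat_lit 12) (nat_lit 0) (.cons (.ev (nat_lit 341616787372348942572881885789822321152) (nat_lit 2)) (.cons (.br (nat_lit 13) (nat_lit 0) (.cons (.zr (nat_lit 6646180702200121141481812092556478976) (nat_lit 1020852293059984619264074068328141815812) (nat_lit 16) (nat_lit 1)) .nil)) .nil))) .nil)))) (.cons (.br (nat_lit 0) (nat_lit 0) (.cons (.ev (nat_lit 344275243364537734930637392784390160386)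 (nat_lit 2)) (.cons (.ev (nat_lit 344275283770900626613289043083676155906) (nat_lit 2)) (.cons (.br (nat_lit 8) (nat_lit 0) (.cons (.ev (nat_lit 10404955973810618541227761677107200) (nat_lit 2)) (.cons (.br (nat_lit 13) (nat_lit 0) (.cons (.ev (nat_lit 1334440575053059093088328615758725120) (nat_lit 1)) .nil)) .nil))) .nil)))) (.cons (.ev (nat_lit 341616827778714233254600887165238968832) (nat_lit 2)) (.cons (.br (nat_lit 13) (nat_lit 0) (.cons (.br (nat_lit 8) (nat_lit 0) (.cons (.kr (nat_lit 340282367079704273501724910262069231618) (nat_lit 1334460857463866929764857674341613568) (nat_lit 0) (nat_lit 1)) (.cons (.ev (nat_lit 344275283770903044501821195340501680130) (nat_lit 2)) .nil))) (.cons (.br (nat_lit 0) (nat_lit 0) (.cons (.ev (nat_lit 352302615281490548175000986749294284292) (nat_lit 4)) (.cons (.br (nat_lit 12) (nat_lit 0) (.cons (.zr (nat_lit 14647631697203615732379784679986104832) (nat_lit 3062541302607526425332750660802984280068) (nat_lit 16) (nat_lit 1)) .nil)) .nil))) (.cons (.br (nat_lit 8) (nat_lit 0) (.cons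 (.ev (nat_lit 344285749969006106607406864385519715330) (nat_lit 3)) (.cons (.ev (nat_lit 1334440575053059093088328615758725120) (nat_lit 1)) .nil))) (.cons (.ev (nat_lit 1334440575054268000460916596718698496) (nat_lit 1)) .nil))))) .nil)))))),
 (.br (nat_lit 0) (nat_lit 0) (.cons (.rf (nat_lit 164) (nat_lit 19926519232773908561233952)) (.cons (.br (nat_lit 4) (nat_lit 0) (.cons (.ev (nat_lit 344275243364537734930637392784390160386) (nat_lit 2)) (.cons (.ev (nat_lit 352281927224942472844095385908627574284) (nat_lit 4)) (.cons (.br (nat_lit 12) (nat_lit 0) (.cons (.ev (nat_lit 20361637770906747988484166844673) (nat_lit 1)) (.cons (.br (nat_lit 13) (nat_lit 0) (.cons (.ev (nat_lit 344275324494180985314385649293462798338) (nat_lit 3)) .nil)) .nil))) .nil)))) (.cons (.br (nat_lit 4) (nat_lit 0) (.cons (.ev (nat_lit 349592155665835242110405966871893443586) (nat_lit 3)) (.cons (.ev (nat_lit 341668954205837470441256565765414258188) (nat_lit 4)) (.cons (.br (nat_lit 9) (nat_lit 0) (.cons (.ev (nat_lit 20361637770906747988484166844673)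 (nat_lit 1)) (.cons (.br (nat_lit 13) (nat_lit 0) (.cons (.ev (nat_lit 1334440575054268000460916596718698496) (nat_lit 1)) .nil)) .nil))) .nil)))) (.cons (.br (nat_lit 4) (nat_lit 0) (.cons (.ev (nat_lit 341616827778714233254600887165238968832) (nat_lit 2)) (.cons (.kr (nat_lit 340282367079704273501724910262069231618) (nat_lit 1334460857463866929764857674341613568) (nat_lit 0) (nat_lit 1)) (.cons (.br (nat_lit 12) (nat_lit 0) (.cons (.ev (nat_lit 20361637770906747988484166844673) (nat_lit 1)) (.cons (.ev (nat_lit 344285668522457459684337787504645177346) (nat_lit 2)) .nil))) .nil)))) (.cons (.br (nat_lit 4) (nat_lit 0) (.cons (.br (nat_lit 12) (nat_lit 0) (.cons (.ev (nat_lit 341616827778711815439854580905365668352) (nat_lit 2)) (.cons (.br (nat_lit 13) (nat_lit 0) (.cons (.ev (nat_lit 344275324494180985314385649293462798338) (nat_lit 3)) .nil)) .nil))) (.cons (.br (nat_lit 9) (nat_lit 0) (.cons (.ev (nat_lit 341616827778711815439854580905365668352) (nat_lit 2)) (.cons (.ev (nat_lit 5192376397395999900593236218020097) (nat_lit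 1)) .nil))) (.cons (.br (nat_lit 9) (nat_lit 0) (.cons (.zr (nat_lit 1020852293059991872745708894868817903616) (nat_lit 6646140295837248311043724537631867392) (nat_lit 16) (nat_lit 8)) (.cons (.br (nat_lit 12) (nat_lit 0) (.cons (.ev (nat_lit 2613742106800764683581475536223958130170910) (nat_lit 5)) .nil)) .nil))) (.cons (.br (nat_lit 12) (nat_lit 0) (.cons (.br (nat_lit 13) (nat_lit 0) (.cons (.ev (nat_lit 344275324494180985314385649293462798338) (nat_lit 3)) .nil)) (.cons (.ev (nat_lit 344285668522455041869592611542725230594) (nat_lit 2)) (.cons (.ev (nat_lit 87453902718974138045816146594261823979520) (nat_lit 1)) .nil)))) .nil))))) .nil)))))),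
 (.br (nat_lit 0) (nat_lit 0) (.cons (.rf (nat_lit 164) (nat_lit 19926519232773908561233952)) (.cons (.rf (nat_lit 165) (nat_lit 19926519232773908561233952)) (.cons (.br (nat_lit 4) (nat_lit 0) (.cons (.kr (nat_lit 340282366921247948510089723222400434178) (nat_lit 1334420292644669071156975519129468928) (nat_lit 0) (nat_lit 1)) (.cons (.ev (nat_lit 5212579577623489120299516600254721) (nat_lit 1)) (.cons (.br (nat_lit 8) (nat_lit 0) (.cons (.ev (nat_lit 20361637770906747988484166844673) (nat_lit 1)) (.cons (.ev (nat_lit 344285627799181936834094718309764235266) (nat_lit 2)) .nil))) .nil)))) (.cons (.ev (nat_lit 1334440575054268000460916596718698496) (nat_lit 1)) (.cons (.br (nat_lit 4) (nat_lit 0) (.cons (.br (nat_lit 12) (nat_lit 0) (.cons (.ev (nat_lit 341616787372348942572881885789822321152) (nat_lit 2)) (.cons (.rf (nat_lit 142) (nat_lit 21057567655802357558642720)) .nil))) (.cons (.br (nat_lit 8) (nat_lit 0) (.cons (.ev (nat_lit 1329248357732167048732253842621595648) (nat_lit 1)) (.cons (.ev (nat_lit 344285627799181936834094718309764235266)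 (nat_lit 2)) .nil))) (.cons (.br (nat_lit 8) (nat_lit 0) (.cons (.ev (nat_lit 341616787372351360461415168344533828096) (nat_lit 2)) (.cons (.ev (nat_lit 5212579578832433386940793989693697) (nat_lit 1)) .nil))) (.cons (.ev (nat_lit 344285627799179518945562566053006082050) (nat_lit 2)) .nil))))) .nil))))))]

theorem c6 : chkAll C T R L6 (nat_lit 148) = true := by decide +kernel

theorem l6 : (nat_lit 148) + L6.length = (nat_lit 167) := by decide +kernel

/-- part of the certificates -/
def L7 : List Prf := [(.br (nat_lit 0) (nat_lit 0) (.cons (.rf (nat_lit 164) (nat_lit 19926519232773908561233952)) (.cons (.rf (nat_lit 165) (nat_lit 19926519232773908561233952)) (.cons (.rf (nat_lit 166) (nat_lit 19926519232773908561233952)) (.cons (.br (nat_lit 4) (nat_lit 0) (.cons (.ev (nat_lit 1329248357733375992998329971034357760) (nat_lit 1)) (.cons (.ev (nat_lit 344275283770900626613289043083676155906) (nat_lit 2)) (.cons (.br (nat_lit 8) (nat_lit 0) (.cons (.ev (nat_lit 20361637770906747988484166844673) (nat_lit 1)) (.cons (.rf (nat_lit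 165) (nat_lit 19926519232773908558088337)) .nil))) .nil)))) (.cons (.br (nat_lit 8) (nat_lit 0) (.cons (.br (nat_lit 9) (nat_lit 0) (.cons (.ev (nat_lit 341616787372348942572881885789822321152) (nat_lit 2)) (.cons (.br (nat_lit 13) (nat_lit 0) (.cons (.ev (nat_lit 1334440575054268000460916596718698496) (nat_lit 1)) .nil)) .nil))) (.cons (.br (nat_lit 4) (nat_lit 0) (.cons (.ev (nat_lit 341627212531506607439655767360588153344) (nat_lit 2)) (.cons (.br (nat_lit 13) (nat_lit 0) (.cons (.ev (nat_lit 352261198757062763636826085029333501448) (nat_lit 4)) .nil)) .nil))) (.cons (.br (nat_lit 4) (nat_lit 0) (.cons (.ev (nat_lit 1329227996094405623610719245181124608) (nat_lit 1)) (.cons (.ev (nat_lit 344285668522455041869592611542725230594) (nat_lit 2)) .nil))) (.cons (.ev (nat_lit 1208944266641277372596481) (nat_lit 1)) .nil))))) .nil)))))),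
 (.br (nat_lit 0) (nat_lit 0) (.cons (.rf (nat_lit 164) (nat_lit 19926519232773908561233952)) (.cons (.rf (nat_lit 165) (nat_lit 19926519232773908561233952)) (.cons (.ev (nat_lit 1334440575054268000460916596718698496) (nat_lit 1)) (.cons (.rf (nat_lit 167) (nat_lit 19926519232773908561233952)) (.cons (.br (nat_lit 4) (nat_lit 0) (.cons (.br (nat_lit 9) (nat_lit 0) (.cons (.ev (nat_lit 357578192824304701687599821368355918336) (nat_lit 5)) (.cons (.ev (nat_lit 344275283770903044501821195340501680130) (nat_lit 2)) .nil))) (.cons (.ev (nat_lit 341616827778714233254600887165238968832) (nat_lit 2)) (.cons (.br (nat_lit 8) (nat_lit 0) (.cons (.ev (nat_lit 341627212531506607439655767360588153344) (nat_lit 2)) (.cons (.br (nat_lit 9) (nat_lit 0) (.cons (.ev (nat_lit 349592276884921480528225016983128047618) (nat_lit 3)) .nil)) .nil))) (.cons (.br (nat_lit 17) (nat_lit 0) (.cons (.rf (nat_lit 165) (nat_lit 19926519232773908558088337)) (.cons (.ev (nat_lit 174568857491319672812193361571109740413440) (nat_lit 2)) (.cons (.ev (nat_lit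 174566261342894755104033196068733857631234) (nat_lit 4)) .nil)))) .nil))))) .nil)))))),
 (.br (nat_lit 11) (nat_lit 1) (.cons (.rf (nat_lit 12) (nat_lit 16843994675275)) (.cons (.rf (nat_lit 134) (nat_lit 15787569124450)) (.cons (.br (nat_lit 14) (nat_lit 1) (.cons (.rf (nat_lit 134) (nat_lit 12592113456226)) (.cons (.br (nat_lit 15) (nat_lit 1) (.cons (.br (nat_lit 0) (nat_lit 0) (.cons (.rf (nat_lit 164) (nat_lit 19926519232773908561233952)) (.cons (.rf (nat_lit 165) (nat_lit 19926519232773908561233952)) (.cons (.rf (nat_lit 166) (nat_lit 19926519232773908561233952)) (.cons (.rf (nat_lit 167) (nat_lit 19926519232773908561233952)) (.cons (.rf (nat_lit 168) (nat_lit 19926519232773908561233952)) (.cons (.br (nat_lit 0) (nat_lit 0) (.cons (.rf (nat_lit 164) (nat_lit 19926519232773908561233952)) (.cons (.rf (nat_lit 165) (nat_lit 19926519232773908561233952)) (.cons (.rf (nat_lit 166) (nat_lit 19926519232773908561233952)) (.cons (.rf (nat_lit 167) (nat_lit 19926519232773908561233952)) (.cons (.rf (nat_lit 168) (nat_lit 19926519232773908561233952))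 .nil)))))) .nil))))))) .nil)) .nil))) .nil)))),
 (.br (nat_lit 9) (nat_lit 0) (.cons (.br (nat_lit 4) (nat_lit 0) (.cons (.ev (nat_lit 344275243206081409902108717605925879810) (nat_lit 2)) (.cons (.ev (nat_lit 344275243205464867141944734318697054210) (nat_lit 2)) (.cons (.br (nat_lit 12) (nat_lit 0) (.cons (.ev (nat_lit 20361637770906747988484166844673) (nat_lit 1)) (.cons (.br (nat_lit 13) (nat_lit 0) (.cons (.ev (nat_lit 20361948460101575721238711566593) (nat_lit 1)) .nil)) .nil))) .nil)))) (.cons (.ev (nat_lit 341627171807609687236504324883198706176) (nat_lit 2)) (.cons (.ev (nat_lit 1329228075014287313060099451542110208) (nat_lit 1)) (.cons (.br (nat_lit 0) (nat_lit 0) (.cons (.ev (nat_lit 341616827779333212718975977893035966976) (nat_lit 2)) (.cons (.ev (nat_lit 20361637770906747988484166844673) (nat_lit 1)) (.cons (.br (nat_lit 12) (nat_lit 0) (.cons (.ev (nat_lit 341616827778711815439854580905365668352) (nat_lit 2)) (.cons (.ev (nat_lit 20361948460101575721238711566593) (nat_lit 1)) .nil))) .nil)))) (.cons (.br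 (nat_lit 0) (nat_lit 0) (.cons (.br (nat_lit 12) (nat_lit 0) (.cons (.ev (nat_lit 5192376086697360339894742382870785) (nat_lit 1)) (.cons (.rf (nat_lit 120) (nat_lit 677572647668491723626088480)) .nil))) (.cons (.br (nat_lit 4) (nat_lit 0) (.cons (.ev (nat_lit 1334440654590701894807245838188871680) (nat_lit 1)) (.cons (.br (nat_lit 13) (nat_lit 0) (.cons (.ev (nat_lit 346964934109064699277633371570776113668) (nat_lit 3)) .nil)) .nil))) (.cons (.br (nat_lit 4) (nat_lit 0) (.cons (.ev (nat_lit 344306518681073688647081262680023303170) (nat_lit 3)) (.cons (.ev (nat_lit 346964934107821904719390577595435516420) (nat_lit 3)) .nil))) (.cons (.br (nat_lit 4) (nat_lit 0) (.cons (.ev (nat_lit 5192376397395999900593236218020097) (nat_lit 1)) (.cons (.ev (nat_lit 344285668364617696305439027074810707970) (nat_lit 2)) (.cons (.br (nat_lit 12) (nat_lit 0) (.cons (.ev (nat_lit 346964934109064699277633371570776113668) (nat_lit 3)) .nil)) .nil)))) .nil))))) .nil)))))),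
 (.br (nat_lit 9) (nat_lit 0) (.cons (.ev (nat_lit 341627171807609687236504324883198706176) (nat_lit 2)) (.cons (.ev (nat_lit 1329228075014287313060099451542110208) (nat_lit 1)) (.cons (.br (nat_lit 12) (nat_lit 0) (.cons (.ev (nat_lit 341616787372348942572881885789822321152) (nat_lit 2)) (.cons (.rf (nat_lit 70) (nat_lit 598486552608)) .nil))) (.cons (.br (nat_lit 12) (nat_lit 0) (.cons (.br (nat_lit 0) (nat_lit 0) (.cons (.ev (nat_lit 344285749810552199319836393272183685126) (nat_lit 3)) (.cons (.br (nat_lit 13) (nat_lit 0) (.cons (.ev (nat_lit 360288327440476362471956938145688783874) (nat_lit 4)) .nil)) .nil))) (.cons (.kr (nat_lit 79228162514264619072815628288) (nat_lit 5192296858534846075275669550399488) (nat_lit 4) (nat_lit 0)) (.cons (.br (nat_lit 13) (nat_lit 0) (.cons (.br (nat_lit 0) (nat_lit 0) (.cons (.ev (nat_lit 5192376086697360339894742382870785) (nat_lit 1)) .nil)) (.cons (.ev (nat_lit 87453902739335777025630267735875910631424) (nat_lit 1)) .nil))) .nil)))) .nil))))),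
 (.br (nat_lit 0) (nat_lit 0) (.cons (.ev (nat_lit 5192376397395999900593236218020097) (nat_lit 1)) (.cons (.ev (nat_lit 20361637770906747988484166844673) (nat_lit 1)) (.cons (.br (nat_lit 4) (nat_lit 0) (.cons (.ev (nat_lit 341627212531506607439655767360588153344) (nat_lit 2)) (.cons (.br (nat_lit 13) (nat_lit 0) (.cons (.ev (nat_lit 352302737134416631521916112544180274696) (nat_lit 4)) .nil)) .nil))) .nil)))),
 (.br (nat_lit 9) (nat_lit 0) (.cons (.rf (nat_lit 170) (nat_lit 19926483457270283776395296)) (.cons (.rf (nat_lit 171) (nat_lit 19926483457270283776395296)) (.cons (.kr (nat_lit 20282409603670117168020960837632) (nat_lit 79228167236630820463189164032) (nat_lit 8) (nat_lit 0)) (.cons (.br (nat_lit 4) (nat_lit 0) (.cons (.ev (nat_lit 341616787372970321036324327593749971456) (nat_lit 2)) (.cons (.rf (nat_lit 70) (nat_lit 597311262752)) (.cons (.rf (nat_lit 170) (nat_lit 19926483457270283773249681)) .nil)))) .nil))))),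
 (.br (nat_lit 13) (nat_lit 0) (.cons (.br (nat_lit 0) (nat_lit 0) (.cons (.zr (nat_lit 87114944387751816492555253311539186237443) (nat_lit 20362256736185722129816274076416) (nat_lit 8) (nat_lit 17)) .nil)) (.cons (.ev (nat_lit 87112285952121884417530647491021123944448) (nat_lit 1)) .nil))),
 (.br (nat_lit 7) (nat_lit 0) (.cons (.br (nat_lit 7) (nat_lit 0) (.cons (.br (nat_lit 8) (nat_lit 1) (.cons (.br (nat_lit 9) (nat_lit 1) (.cons (.br (nat_lit 6) (nat_lit 1) (.cons (.br (nat_lit 4) (nat_lit 0) (.cons (.br (nat_lit 0) (nat_lit 0) (.cons (.ev (nat_lit 18447026652509700353) (nat_lit 1)) (.cons (.ev (nat_lit 4722366765448445362433) (nat_lit 1)) (.cons (.rf (nat_lit 131) (nat_lit 12746920901610561)) (.cons (.br (nat_lit 8) (nat_lit 0) (.cons (.ev (nat_lit 1208962785442953760539136) (nat_lit 2)) (.cons (.rf (nat_lit 129) (nat_lit 407901468851537952)) (.cons (.rf (nat_lit 131) (nat_lit 13872820808453185)) .nil)))) .nil))))) (.cons (.kr (nat_lit 281479271677952) (nat_lit 18446745173221179392) (nat_lit 4) (nat_lit 0)) (.cons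 (.kr (nat_lit 281479271677952) (nat_lit 4722366483969156841472) (nat_lit 4) (nat_lit 0)) (.cons (.rf (nat_lit 131) (nat_lit 12746920901610561)) (.cons (.br (nat_lit 8) (nat_lit 0) (.cons (.rf (nat_lit 132) (nat_lit 407901468851537952)) (.cons (.kr (nat_lit 18446744073709551616) (nat_lit 4722366482869645213696) (nat_lit 8) (nat_lit 0)) (.cons (.rf (nat_lit 132) (nat_lit 11584701639788683)) (.cons (.rf (nat_lit 131) (nat_lit 13872820808453185)) .nil))))) .nil)))))) (.cons (.br (nat_lit 11) (nat_lit 0) (.cons (.br (nat_lit 11) (nat_lit 0) (.cons (.br (nat_lit 12) (nat_lit 1) (.cons (.br (nat_lit 13) (nat_lit 1) (.cons (.br (nat_lit 10) (nat_lit 1) (.cons (.br (nat_lit 0) (nat_lit 0) (.cons (.rf (nat_lit 133) (nat_lit 17022140995484340291616)) (.cons (.rf (nat_lit 93) (nat_lit 479439104)) (.cons (.rf (nat_lit 93) (nat_lit 478390560)) (.cons (.rf (nat_lit 93) (nat_lit 349550976)) (.cons (.rf (nat_lit 93) (nat_lit 348502432)) (.cons (.br (nat_lit 0) (nat_lit 0) (.cons (.rf (nat_lit 133) (nat_lit 17022140995484340291616)) (.cons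 (.rf (nat_lit 93) (nat_lit 479439104)) (.cons (.rf (nat_lit 93) (nat_lit 478390560)) (.cons (.rf (nat_lit 93) (nat_lit 349550976)) (.cons (.rf (nat_lit 93) (nat_lit 348502432)) .nil)))))) .nil))))))) (.cons (.rf (nat_lit 130) (nat_lit 16984824812642)) .nil))) .nil)) .nil)) .nil)) .nil)) (.cons (.br (nat_lit 10) (nat_lit 1) (.cons (.br (nat_lit 11) (nat_lit 1) (.cons (.br (nat_lit 12) (nat_lit 0) (.cons (.br (nat_lit 13) (nat_lit 1) (.cons (.rf (nat_lit 134) (nat_lit 15817633895522)) .nil)) .nil)) (.cons (.br (nat_lit 12) (nat_lit 1) (.cons (.br (nat_lit 12) (nat_lit 1) (.cons (.br (nat_lit 13) (nat_lit 0) (.cons (.br (nat_lit 13) (nat_lit 0) (.cons (.br (nat_lit 15) (nat_lit 1) (.cons (.br (nat_lit 14) (nat_lit 0) (.cons (.br (nat_lit 8) (nat_lit 0) (.cons (.rf (nat_lit 137) (nat_lit 19926519232773908561233952)) (.cons (.rf (nat_lit 139) (nat_lit 19926519232773908561233952)) (.cons (.kr (nat_lit 18446744073709551616) (nat_lit 4722366482869645213696) (nat_lit 8) (nat_lit 0)) (.cons (.rf (nat_lit 140) (nat_lit 19926519232773908561233952))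 (.cons (.rf (nat_lit 140) (nat_lit 18755372345022236548237344)) (.cons (.br (nat_lit 9) (nat_lit 0) (.cons (.rf (nat_lit 137) (nat_lit 19926519232739823700772896)) (.cons (.rf (nat_lit 139) (nat_lit 19926519232739823700772896)) (.cons (.rf (nat_lit 140) (nat_lit 19926519232739823700772896)) (.cons (.rf (nat_lit 140) (nat_lit 18755372344988151687776288)) (.cons (.br (nat_lit 4) (nat_lit 0) (.cons (.br (nat_lit 0) (nat_lit 0) (.cons (.ev (nat_lit 1329228075323772322881444524561858817) (nat_lit 1)) (.cons (.ev (nat_lit 340287579500206601942673561879643685121) (nat_lit 1)) (.cons (.ev (nat_lit 87112285931760249069216352523896227889921) (nat_lit 2)) .nil)))) (.cons (.ev (nat_lit 1329228233782524684819920252414590976) (nat_lit 2)) (.cons (.ev (nat_lit 340282367158936072275290720623902457856) (nat_lit 2)) (.cons (.ev (nat_lit 87112291144419053646293989321383862075392) (nat_lit 1)) .nil))))) .nil)))))) .nil))))))) .nil)) .nil)) .nil)) .nil)) .nil)) .nil)) .nil))) (.cons (.br (nat_lit 12) (nat_lit 0) (.cons (.br (nat_lit 13) (nat_lit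 1) (.cons (.rf (nat_lit 12) (nat_lit 12583387115594)) .nil)) .nil)) (.cons (.br (nat_lit 11) (nat_lit 1) (.cons (.rf (nat_lit 149) (nat_lit 14242959524133701664)) (.cons (.br (nat_lit 11) (nat_lit 1) (.cons (.rf (nat_lit 149) (nat_lit 14242959524133701664)) (.cons (.rf (nat_lit 134) (nat_lit 11488407524450)) .nil))) .nil))) .nil)))) .nil)))) (.cons (.br (nat_lit 10) (nat_lit 0) (.cons (.br (nat_lit 11) (nat_lit 0) (.cons (.br (nat_lit 6) (nat_lit 1) (.cons (.rf (nat_lit 150) (nat_lit 445092485129178177)) (.cons (.rf (nat_lit 150) (nat_lit 444000704442534977)) (.cons (.rf (nat_lit 45) (nat_lit 15071359418895425)) (.cons (.br (nat_lit 10) (nat_lit 1) (.cons (.br (nat_lit 13) (nat_lit 1) (.cons (.rf (nat_lit 12) (nat_lit 14782410370122)) (.cons (.br (nat_lit 13) (nat_lit 1) (.cons (.rf (nat_lit 12) (nat_lit 14816770108490)) .nil)) .nil))) (.cons (.rf (nat_lit 151) (nat_lit 15433072045018188865)) (.cons (.rf (nat_lit 12) (nat_lit 14679331158090)) (.cons (.br (nat_lit 11) (nat_lit 1) (.cons (.rf (nat_lit 151) (nat_lit 15431980264331545665))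 (.cons (.br (nat_lit 13) (nat_lit 1) (.cons (.br (nat_lit 13) (nat_lit 1) (.cons (.rf (nat_lit 45) (nat_lit 17323159232580673)) .nil)) (.cons (.rf (nat_lit 45) (nat_lit 17323159232580673)) .nil))) (.cons (.rf (nat_lit 12) (nat_lit 14644971420747)) .nil)))) .nil))))) .nil))))) (.cons (.br (nat_lit 12) (nat_lit 1) (.cons (.br (nat_lit 13) (nat_lit 1) (.cons (.br (nat_lit 6) (nat_lit 1) (.cons (.rf (nat_lit 159) (nat_lit 17022140995484340291616)) (.cons (.rf (nat_lit 159) (nat_lit 16986365491859555452960)) (.cons (.br (nat_lit 10) (nat_lit 1) (.cons (.br (nat_lit 0) (nat_lit 0) (.cons (.rf (nat_lit 162) (nat_lit 17022140995484340291616)) (.cons (.rf (nat_lit 163) (nat_lit 17022140995484340291616)) (.cons (.rf (nat_lit 163) (nat_lit 16986365491859555452960)) (.cons (.rf (nat_lit 163) (nat_lit 8605814157230410401824)) (.cons (.rf (nat_lit 163) (nat_lit 8570038653605625563168)) (.cons (.br (nat_lit 0) (nat_lit 0) (.cons (.rf (nat_lit 162) (nat_lit 17022140995484340291616)) (.cons (.rf (nat_lit 163) (nat_lit 17022140995484340291616))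 (.cons (.rf (nat_lit 163) (nat_lit 16986365491859555452960)) (.cons (.rf (nat_lit 163) (nat_lit 8605814157230410401824)) (.cons (.rf (nat_lit 163) (nat_lit 8570038653605625563168)) .nil)))))) .nil))))))) (.cons (.rf (nat_lit 130) (nat_lit 16881846260834)) .nil))) (.cons (.br (nat_lit 10) (nat_lit 1) (.cons (.rf (nat_lit 12) (nat_lit 16981433625674)) (.cons (.rf (nat_lit 12) (nat_lit 16878354413642)) (.cons (.rf (nat_lit 169) (nat_lit 583706118939841765935136)) (.cons (.br (nat_lit 11) (nat_lit 1) (.cons (.rf (nat_lit 12) (nat_lit 16843994675275)) (.cons (.rf (nat_lit 169) (nat_lit 583670343436216981096480)) (.cons (.br (nat_lit 14) (nat_lit 1) (.cons (.br (nat_lit 15) (nat_lit 1) (.cons (.br (nat_lit 8) (nat_lit 0) (.cons (.rf (nat_lit 170) (nat_lit 19926519232773908561233952)) (.cons (.rf (nat_lit 171) (nat_lit 19926519232773908561233952)) (.cons (.br (nat_lit 12) (nat_lit 0) (.cons (.rf (nat_lit 172) (nat_lit 19926519232773908561233952)) (.cons (.br (nat_lit 13) (nat_lit 0) (.cons (.ev (nat_lit 341627212531506607439655767360588153344)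 (nat_lit 2)) (.cons (.rf (nat_lit 70) (nat_lit 594224222240)) .nil))) (.cons (.kr (nat_lit 20282409603670117168020960837632) (nat_lit 79228167236630820463189164032) (nat_lit 8) (nat_lit 0)) (.cons (.br (nat_lit 4) (nat_lit 0) (.cons (.br (nat_lit 0) (nat_lit 0) (.cons (.ev (nat_lit 5212579578832433386940793989693697) (nat_lit 1)) (.cons (.br (nat_lit 13) (nat_lit 0) (.cons (.zr (nat_lit 1701411875327967849649679308963008809472) (nat_lit 3992876284524004826860564431549497348) (nat_lit 16) (nat_lit 1)) .nil)) .nil))) (.cons (.rf (nat_lit 70) (nat_lit 594190700576)) (.cons (.rf (nat_lit 172) (nat_lit 19926519232773908558088337)) .nil)))) .nil))))) (.cons (.rf (nat_lit 173) (nat_lit 19926519232773908561233952)) (.cons (.ev (nat_lit 1329248278504004534467916244799520768) (nat_lit 1)) (.cons (.br (nat_lit 9) (nat_lit 0) (.cons (.rf (nat_lit 170) (nat_lit 19926483457270283776395296)) (.cons (.rf (nat_lit 171) (nat_lit 19926483457270283776395296)) (.cons (.ev (nat_lit 1329228075014287313060099451542110208) (nat_lit 1)) (.cons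 (.rf (nat_lit 173) (nat_lit 19926483457270283776395296)) (.cons (.br (nat_lit 4) (nat_lit 0) (.cons (.br (nat_lit 0) (nat_lit 0) (.cons (.ev (nat_lit 341647940995048681139763967170372239876) (nat_lit 3)) (.cons (.ev (nat_lit 341647940996281766660091933744829891076) (nat_lit 3)) (.cons (.ev (nat_lit 348796087810832978712966570762746475120128) (nat_lit 3)) .nil)))) (.cons (.rf (nat_lit 174) (nat_lit 677582165103132179601393696)) (.cons (.rf (nat_lit 174) (nat_lit 677582129327628554816555040)) (.cons (.rf (nat_lit 170) (nat_lit 19926519232773908558088337)) .nil))))) .nil)))))) .nil))))))) .nil)) (.cons (.rf (nat_lit 102) (nat_lit 6840979505514)) .nil))) .nil)))) .nil))))) .nil))))) .nil)) .nil)) .nil))) .nil)) .nil))) .nil)) .nil)) .nil)),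
 (.br (nat_lit 12) (nat_lit 1) (.cons (.br (nat_lit 12) (nat_lit 1) (.cons (.br (nat_lit 13) (nat_lit 0) (.cons (.br (nat_lit 13) (nat_lit 1) (.cons (.br (nat_lit 14) (nat_lit 0) (.cons (.kr (nat_lit 20282409603651670423947251286016) (nat_lit 5192296858534827628530496329220096) (nat_lit 13) (nat_lit 0)) .nil)) .nil)) .nil)) .nil)) .nil)),
 (.br (nat_lit 0) (nat_lit 0) (.cons (.ev (nat_lit 310698658007725146344849665) (nat_lit 1)) (.cons (.ev (nat_lit 79538861190790864403324469505) (nat_lit 1)) (.cons (.rf (nat_lit 176) (nat_lit 15433072045018188865)) (.cons (.br (nat_lit 4) (nat_lit 0) (.cons (.ev (nat_lit 620183686347871887145763328) (nat_lit 2)) (.cons (.br (nat_lit 12) (nat_lit 0) (.cons (.ev (nat_lit 1111052399110524246983308411400) (nat_lit 4)) (.cons (.rf (nat_lit 176) (nat_lit 16585993549625035841)) .nil))) (.cons (.rf (nat_lit 176) (nat_lit 16585993549625035841)) .nil)))) .nil)))))]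

theorem c7 : chkAll C T R L7 (nat_lit 167) = true := by decide +kernel

theorem l7 : (nat_lit 167) + L7.length = (nat_lit 178) := by decide +kernel

/-- part of the certificates -/
def L8 : List Prf := [(.br (nat_lit 0) (nat_lit 0) (.cons (.ev (nat_lit 158457538695233856936784101888) (nat_lit 2)) (.cons (.rf (nat_lit 176) (nat_lit 15433072045018188865)) (.cons (.br (nat_lit 0) (nat_lit 0) (.cons (.ev (nat_lit 158457538695233856936784101888) (nat_lit 2)) (.cons (.rf (nat_lit 176) (nat_lit 16585993549625035841)) .nil))) .nil)))),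
 (.br (nat_lit 0) (nat_lit 0) (.cons (.ev (nat_lit 1344804886983131375547633918491558400) (nat_lit 2)) (.cons (.ev (nat_lit 340282387282576229647828170644605894913) (nat_lit 1)) (.cons (.br (nat_lit 13) (nat_lit 0) (.cons (.ev (nat_lit 681899154135140561313629424307291750912) (nat_lit 2)) (.cons (.ev (nat_lit 5212658497514641749672114744525057) (nat_lit 1)) .nil))) .nil)))),
 (.br (nat_lit 0) (nat_lit 0) (.cons (.ev (nat_lit 341616807575530379006368233338953531649) (nat_lit 1)) (.cons (.br (nat_lit 13) (nat_lit 0) (.cons (.ev (nat_lit 5212658806999670089818846904975617) (nat_lit 1)) .nil)) .nil))),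
 (.br (nat_lit 4) (nat_lit 0) (.cons (.br (nat_lit 11) (nat_lit 0) (.cons (.ev (nat_lit 1344804886983131375547633918491558400) (nat_lit 2)) (.cons (.ev (nat_lit 1344804886980704042137270436413768192) (nat_lit 2)) (.cons (.br (nat_lit 12) (nat_lit 0) (.cons (.ev (nat_lit 341616807575220893978028086606793081089) (nat_lit 1)) (.cons (.br (nat_lit 13) (nat_lit 0) (.cons (.ev (nat_lit 340282387282577443277495749050183516417) (nat_lit 1)) .nil)) .nil))) .nil)))) (.cons (.kr (nat_lit 1334420293262420720175872118989259264) (nat_lit 680564733841878140593454115129632292864) (nat_lit 1) (nat_lit 0)) (.cons (.rf (nat_lit 179) (nat_lit 19926519232773908561233952)) (.cons (.rf (nat_lit 179) (nat_lit 19889885150873245311928352)) (.cons (.br (nat_lit 11) (nat_lit 0) (.cons (.br (nat_lit 12) (nat_lit 0) (.cons (.ev (nat_lit 340282387282885714639130714041305071873) (nat_lit 1)) (.cons (.br (nat_lit 13) (nat_lit 0) (.cons (.ev (nat_lit 341616807575529165339663051597914636545) (nat_lit 1)) .nil)) .nil))) (.cons (.rf (nat_lit 180) (nat_lit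 677582165103132179601393696)) (.cons (.rf (nat_lit 180) (nat_lit 677545531021231516352088096)) (.cons (.ev (nat_lit 681899154135142988647039787789369541120) (nat_lit 2)) .nil))))) .nil)))))),
 (.br (nat_lit 0) (nat_lit 0) (.cons (.ev (nat_lit 3404178858691337339630221997816947084812) (nat_lit 4)) (.cons (.ev (nat_lit 681961461701159226918667292274218960396) (nat_lit 4)) (.cons (.br (nat_lit 12) (nat_lit 0) (.cons (.ev (nat_lit 1334542463092658752936745523279365632) (nat_lit 3)) (.cons (.br (nat_lit 13) (nat_lit 0) (.cons (.ev (nat_lit 340282428005852975609365835090334188034) (nat_lit 2)) .nil)) .nil))) .nil)))),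
 (.br (nat_lit 0) (nat_lit 0) (.cons (.ev (nat_lit 3404178858691337339630221997816947084812) (nat_lit 4)) (.cons (.ev (nat_lit 1213666705181741055738113) (nat_lit 1)) (.cons (.br (nat_lit 11) (nat_lit 0) (.cons (.ev (nat_lit 1334461015920196699107042387896238592) (nat_lit 2)) (.cons (.br (nat_lit 13) (nat_lit 0) (.cons (.zr (nat_lit 36386801288917088346334027243913220) (nat_lit 1367775607664535343276946942815706809856) (nat_lit 16) (nat_lit 12)) .nil)) .nil))) .nil)))),
 (.br (nat_lit 4) (nat_lit 0) (.cons (.ev (nat_lit 681919923321963012493619136595042304516) (nat_lit 3)) (.cons (.ev (nat_lit 1334461016539166755787335852217139712) (nat_lit 2)) (.cons (.br (nat_lit 13) (nat_lit 0) (.cons (.ev (nat_lit 1213666705181741055738113) (nat_lit 1)) (.cons (.ev (nat_lit 2723593477831845588499447823916058479104) (nat_lit 4)) .nil))) .nil)))),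
 (.br (nat_lit 0) (nat_lit 0) (.cons (.ev (nat_lit 1213648186097498836762881) (nat_lit 1)) (.cons (.ev (nat_lit 309489732187827938386837761) (nat_lit 1)) .nil))),
 (.br (nat_lit 11) (nat_lit 0) (.cons (.ev (nat_lit 1344804886983131375547633918491558400) (nat_lit 2)) (.cons (.rf (nat_lit 70) (nat_lit 598622998560)) (.cons (.rf (nat_lit 157) (nat_lit 20642391120866583873568)) .nil)))),
 (.br (nat_lit 10) (nat_lit 0) (.cons (.br (nat_lit 11) (nat_lit 0) (.cons (.rf (nat_lit 177) (nat_lit 14242959524133701664)) (.cons (.rf (nat_lit 178) (nat_lit 14242959524133701664)) (.cons (.kr (nat_lit 309485009821345068724781056) (nat_lit 79228162514264337593543950336) (nat_lit 11) (nat_lit 0)) (.cons (.rf (nat_lit 176) (nat_lit 15433072045018188865)) (.cons (.br (nat_lit 4) (nat_lit 0) (.cons (.br (nat_lit 0) (nat_lit 0) (.cons (.ev (nat_lit 79229376162450717671164018945) (nat_lit 1)) (.cons (.br (nat_lit 12) (nat_lit 0) (.cons (.zr (nat_lit 1213703742503601624516100) (nat_lit 159075295048173335692324110336) (nat_lit 16) (nat_lit 1))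 (.cons (.rf (nat_lit 176) (nat_lit 16585993549625035841)) .nil))) (.cons (.rf (nat_lit 176) (nat_lit 16585993549625035841)) .nil)))) (.cons (.rf (nat_lit 178) (nat_lit 13126066816545818656)) (.cons (.rf (nat_lit 177) (nat_lit 14242959524130556045)) (.cons (.rf (nat_lit 176) (nat_lit 16585993549625035841)) .nil))))) .nil)))))) (.cons (.br (nat_lit 12) (nat_lit 1) (.cons (.br (nat_lit 14) (nat_lit 1) (.cons (.br (nat_lit 13) (nat_lit 1) (.cons (.rf (nat_lit 45) (nat_lit 17361645463538753)) (.cons (.br (nat_lit 14) (nat_lit 0) (.cons (.br (nat_lit 15) (nat_lit 0) (.cons (.br (nat_lit 16) (nat_lit 0) (.cons (.rf (nat_lit 181) (nat_lit 19926519232773908561233952)) (.cons (.br (nat_lit 0) (nat_lit 0) (.cons (.rf (nat_lit 182) (nat_lit 19926519232773908561233952)) (.cons (.rf (nat_lit 183) (nat_lit 19926519232773908561233952)) (.cons (.rf (nat_lit 183) (nat_lit 19889885150873245311928352)) (.cons (.br (nat_lit 0) (nat_lit 0) (.cons (.rf (nat_lit 182) (nat_lit 19926519232773908561233952)) (.cons (.rf (nat_lit 183) (nat_lit 19926519232773908561233952))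 (.cons (.rf (nat_lit 183) (nat_lit 19889885150873245311928352)) .nil)))) .nil))))) (.cons (.br (nat_lit 12) (nat_lit 0) (.cons (.rf (nat_lit 184) (nat_lit 19926519232773908561233952)) (.cons (.br (nat_lit 13) (nat_lit 0) (.cons (.ev (nat_lit 1334461016539166755787335852217139712) (nat_lit 2)) (.cons (.rf (nat_lit 70) (nat_lit 601743560736)) .nil))) (.cons (.ev (nat_lit 340282428006782644287015687406978465792) (nat_lit 2)) (.cons (.br (nat_lit 4) (nat_lit 0) (.cons (.br (nat_lit 0) (nat_lit 0) (.cons (.ev (nat_lit 681919923321958157974948822972731818500) (nat_lit 3)) (.cons (.br (nat_lit 13) (nat_lit 0) (.cons (.zr (nat_lit 2722258935367513775947927352445803429892) (nat_lit 4003301601824854471628871990153118208) (nat_lit 16) (nat_lit 11)) .nil)) .nil))) (.cons (.rf (nat_lit 70) (nat_lit 601710039072)) (.cons (.rf (nat_lit 184) (nat_lit 19926519232773908558088337)) .nil)))) .nil))))) (.cons (.kr (nat_lit 5192296858534827628530496329220096) (nat_lit 340282366920938463463374607431768211456) (nat_lit 14) (nat_lit 0)) (.cons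 (.kr (nat_lit 1329227995784915872903807060280344576) (nat_lit 340282366920938463463374607431768211456) (nat_lit 15) (nat_lit 0)) (.cons (.br (nat_lit 4) (nat_lit 0) (.cons (.br (nat_lit 11) (nat_lit 0) (.cons (.ev (nat_lit 309485028340146740767228161) (nat_lit 1)) (.cons (.ev (nat_lit 1344804886983131375547633918491558400) (nat_lit 2)) (.cons (.ev (nat_lit 1344804886980704042137270436413768192) (nat_lit 2)) (.cons (.ev (nat_lit 681899154135142988647039787789369541120) (nat_lit 2)) .nil))))) (.cons (.br (nat_lit 12) (nat_lit 0) (.cons (.rf (nat_lit 185) (nat_lit 20193522128382953504)) (.cons (.rf (nat_lit 70) (nat_lit 598624014368)) (.cons (.br (nat_lit 0) (nat_lit 0) (.cons (.rf (nat_lit 185) (nat_lit 20192430347696310304)) (.cons (.rf (nat_lit 82) (nat_lit 230838026887982528913)) .nil))) .nil)))) (.cons (.rf (nat_lit 186) (nat_lit 677582165103132179601393696)) (.cons (.rf (nat_lit 186) (nat_lit 677545531021231516352088096)) (.cons (.rf (nat_lit 181) (nat_lit 19926519232773908558088337)) .nil)))))) .nil))))))) .nil)) .nil))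 .nil))) .nil)) .nil)) .nil))),
 (.br (nat_lit 11) (nat_lit 0) (.cons (.rf (nat_lit 93) (nat_lit 482653536)) (.cons (.kr (nat_lit 309485009821345068724781056) (nat_lit 79228162514264337593543950336) (nat_lit 11) (nat_lit 0)) (.cons (.ev (nat_lit 2663668571460581244864803933364748800) (nat_lit 2)) (.cons (.ev (nat_lit 680569946421767676425806404676340482560) (nat_lit 2)) (.cons (.rf (nat_lit 93) (nat_lit 482653553)) .nil)))))),
 (.br (nat_lit 15) (nat_lit 0) (.cons (.ev (nat_lit 1334440575363753010210486645893890305) (nat_lit 1)) (.cons (.ev (nat_lit 2663709136279788548205651819311071744) (nat_lit 2)) (.cons (.br (nat_lit 0) (nat_lit 0) (.cons (.ev (nat_lit 2663668729297936253750788983003087360) (nat_lit 2)) (.cons (.ev (nat_lit 341616807575530379006368233338953531649) (nat_lit 1)) (.cons (.br (nat_lit 16) (nat_lit 0) (.cons (.ev (nat_lit 5212738344647231213104853309129216) (nat_lit 2)) (.cons (.ev (nat_lit 340282367000167839625825325098620420353) (nat_lit 1)) .nil))) .nil)))) (.cons (.br (nat_lit 0) (nat_lit 0) (.cons (.ev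 (nat_lit 683228402412718538114933725323956650496) (nat_lit 2)) (.cons (.ev (nat_lit 341616807575530379006368233338953531649) (nat_lit 1)) (.cons (.br (nat_lit 12) (nat_lit 0) (.cons (.ev (nat_lit 680569946421765249092396041194262692352) (nat_lit 2)) (.cons (.ev (nat_lit 340282367000167839625825325098620420353) (nat_lit 1)) .nil))) .nil)))) (.cons (.br (nat_lit 12) (nat_lit 0) (.cons (.br (nat_lit 16) (nat_lit 0) (.cons (.ev (nat_lit 680569987144421811404622874129779982848) (nat_lit 2)) (.cons (.ev (nat_lit 344285648319272391769256401898238509570) (nat_lit 2)) .nil))) (.cons (.br (nat_lit 0) (nat_lit 0) (.cons (.ev (nat_lit 680569987144421811404622874129779982848) (nat_lit 2)) (.cons (.ev (nat_lit 1329248357422682057357370273118028033) (nat_lit 1)) .nil))) (.cons (.kr (nat_lit 340282366920938463463446665025806139392) (nat_lit 79228162532711081667253501952) (nat_lit 7) (nat_lit 0)) (.cons (.br (nat_lit 0) (nat_lit 0) (.cons (.br (nat_lit 16) (nat_lit 0) (.cons (.zr (nat_lit 5342873467432337649141373519087998476) (nat_lit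 680564754285222376630080466679081467904) (nat_lit 48) (nat_lit 1)) .nil)) (.cons (.ev (nat_lit 341627192328323957339464238061710213634) (nat_lit 2)) (.cons (.ev (nat_lit 87112285952122193897799655609142182150144) (nat_lit 1)) .nil)))) .nil))))) .nil)))))),
 (.br (nat_lit 0) (nat_lit 0) (.cons (.rf (nat_lit 189) (nat_lit 18754227529996958968154144)) (.cons (.ev (nat_lit 2663709136279788548205651819311071744) (nat_lit 2)) (.cons (.rf (nat_lit 189) (nat_lit 13767413278796039439091744)) (.cons (.br (nat_lit 0) (nat_lit 0) (.cons (.rf (nat_lit 189) (nat_lit 18754227529996958968154144)) (.cons (.ev (nat_lit 2663709136279788548205651819311071744) (nat_lit 2)) (.cons (.rf (nat_lit 189) (nat_lit 13767413278796039439091744)) .nil)))) .nil))))),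
 (.br (nat_lit 14) (nat_lit 0) (.cons (.br (nat_lit 11) (nat_lit 0) (.cons (.rf (nat_lit 189) (nat_lit 19926519232773908561233952)) (.cons (.rf (nat_lit 190) (nat_lit 19926519232773908561233952)) (.cons (.br (nat_lit 0) (nat_lit 0) (.cons (.ev (nat_lit 5212738347074490548261664397001216) (nat_lit 2)) (.cons (.rf (nat_lit 189) (nat_lit 14939704981572989032171552)) (.cons (.rf (nat_lit 189) (nat_lit 13767413278796039439091744)) (.cons (.br (nat_lit 0) (nat_lit 0) (.cons (.ev (nat_lit 5212738347074490548261664397001216) (nat_lit 2)) (.cons (.rf (nat_lit 189) (nat_lit 14939704981572989032171552)) (.cons (.rf (nat_lit 189) (nat_lit 13767413278796039439091744)) .nil)))) .nil))))) (.cons (.kr (nat_lit 1329227995784915872975864654318272512) (nat_lit 309485028268089142434332672) (nat_lit 7) (nat_lit 0)) (.cons (.br (nat_lit 0) (nat_lit 0) (.cons (.ev (nat_lit 680569946421767676425806404676340482560) (nat_lit 2)) (.cons (.rf (nat_lit 189) (nat_lit 18754227529996958968154144)) (.cons (.rf (nat_lit 189) (nat_lit 14939704981572989032171552))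 (.cons (.br (nat_lit 0) (nat_lit 0) (.cons (.ev (nat_lit 680569946421767676425806404676340482560) (nat_lit 2)) (.cons (.rf (nat_lit 189) (nat_lit 18754227529996958968154144)) (.cons (.rf (nat_lit 189) (nat_lit 14939704981572989032171552)) .nil)))) .nil))))) (.cons (.br (nat_lit 4) (nat_lit 0) (.cons (.br (nat_lit 0) (nat_lit 0) (.cons (.rf (nat_lit 189) (nat_lit 18754227529996958968154144)) (.cons (.rf (nat_lit 189) (nat_lit 14939704981572989032171552)) (.cons (.rf (nat_lit 189) (nat_lit 13767413278796039439091744)) (.cons (.br (nat_lit 12) (nat_lit 0) (.cons (.ev (nat_lit 2663668729297936253750788983003087360) (nat_lit 2)) (.cons (.kr (nat_lit 340282366920938463463446665025806139392) (nat_lit 79228162532711081667253501952) (nat_lit 7) (nat_lit 0)) (.cons (.ev (nat_lit 174224577076258840367738347266721131331586) (nat_lit 2)) .nil)))) .nil))))) (.cons (.rf (nat_lit 190) (nat_lit 18754227529996958968154144)) (.cons (.rf (nat_lit 190) (nat_lit 14939704981572989032171552)) (.cons (.rf (nat_lit 190) (nat_lit 13767413278796039439091744))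 (.cons (.rf (nat_lit 189) (nat_lit 19926519232773908558088337)) .nil)))))) .nil))))))) .nil)),
 (.br (nat_lit 7) (nat_lit 1) (.cons (.br (nat_lit 8) (nat_lit 1) (.cons (.br (nat_lit 9) (nat_lit 0) (.cons (.br (nat_lit 9) (nat_lit 0) (.cons (.br (nat_lit 11) (nat_lit 1) (.cons (.rf (nat_lit 187) (nat_lit 14242959524133701664)) (.cons (.br (nat_lit 13) (nat_lit 1) (.cons (.br (nat_lit 10) (nat_lit 0) (.cons (.rf (nat_lit 187) (nat_lit 13126066816545818656)) (.cons (.br (nat_lit 10) (nat_lit 0) (.cons (.rf (nat_lit 187) (nat_lit 13126066816545818656)) (.cons (.br (nat_lit 12) (nat_lit 1) (.cons (.br (nat_lit 15) (nat_lit 1) (.cons (.br (nat_lit 14) (nat_lit 0) (.cons (.br (nat_lit 0) (nat_lit 0) (.cons (.rf (nat_lit 188) (nat_lit 19926519232773908561233952)) (.cons (.rf (nat_lit 93) (nat_lit 482653536)) (.cons (.rf (nat_lit 93) (nat_lit 481604992)) (.cons (.rf (nat_lit 93) (nat_lit 453327328)) (.cons (.rf (nat_lit 93) (nat_lit 452278784)) (.cons (.br (nat_lit 0) (nat_lit 0) (.cons (.rf (nat_lit 188) (nat_lit 19926519232773908561233952))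 (.cons (.rf (nat_lit 93) (nat_lit 482653536)) (.cons (.rf (nat_lit 93) (nat_lit 481604992)) (.cons (.rf (nat_lit 93) (nat_lit 453327328)) (.cons (.rf (nat_lit 93) (nat_lit 452278784)) .nil)))))) .nil))))))) .nil)) .nil)) (.cons (.br (nat_lit 13) (nat_lit 0) (.cons (.rf (nat_lit 191) (nat_lit 19926519232773908561233952)) (.cons (.rf (nat_lit 191) (nat_lit 18755372345022236548237344)) .nil))) .nil))) .nil))) .nil))) .nil)) .nil))) .nil)) .nil)) .nil)) .nil)),
 (.br (nat_lit 11) (nat_lit 0) (.cons (.ev (nat_lit 5212659117693642768947037882876416) (nat_lit 2)) (.cons (.ev (nat_lit 1329228075632053184589892262482149890) (nat_lit 2)) .nil))),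
 (.br (nat_lit 0) (nat_lit 0) (.cons (.ev (nat_lit 79229376162450435096658837761) (nat_lit 1)) (.cons (.ev (nat_lit 310693935640959697916330241) (nat_lit 1)) (.cons (.ev (nat_lit 1329227995786124817242505931690868993) (nat_lit 1)) (.cons (.ev (nat_lit 340282366920939672407713306303178735873) (nat_lit 1)) (.cons (.br (nat_lit 4) (nat_lit 0) (.cons (.ev (nat_lit 80159040117878202327713776128) (nat_lit 2)) (.cons (.rf (nat_lit 193) (nat_lit 677582165103132179601393696)) (.cons (.rf (nat_lit 193) (nat_lit 676411018215380507588397088)) (.cons (.br (nat_lit 11) (nat_lit 0) (.cons (.ev (nat_lit 1329227996715788809563759111141654530) (nat_lit 2)) (.cons (.ev (nat_lit 340282366921869336400034559482629521410) (nat_lit 2)) (.cons (.ev (nat_lit 87112285932236547731850895539192679760641) (nat_lit 3)) .nil)))) .nil))))) .nil)))))),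
 (.br (nat_lit 0) (nat_lit 0) (.cons (.ev (nat_lit 79850764033876471888163701248) (nat_lit 2)) (.cons (.rf (nat_lit 194) (nat_lit 13690489209948118559328288)) (.cons (.rf (nat_lit 194) (nat_lit 13690489175045221447206944)) (.cons (.br (nat_lit 0) (nat_lit 0) (.cons (.ev (nat_lit 79850764033876471888163701248) (nat_lit 2)) (.cons (.rf (nat_lit 194) (nat_lit 13690489209948118559328288)) (.cons (.rf (nat_lit 194) (nat_lit 13690489175045221447206944)) .nil)))) .nil))))),
 (.br (nat_lit 11) (nat_lit 0) (.cons (.rf (nat_lit 194) (nat_lit 19926519197871011449112608)) (.cons (.rf (nat_lit 195) (nat_lit 19926519197871011449112608)) (.cons (.kr (nat_lit 340282366920939672389194222060942917632) (nat_lit 1329227996094400882725152129005125632) (nat_lit 10) (nat_lit 0)) (.cons (.rf (nat_lit 195) (nat_lit 4877114506873412295992689)) .nil)))))]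

theorem c8 : chkAll C T R L8 (nat_lit 178) = true := by decide +kernel

theorem l8 : (nat_lit 178) + L8.length = (nat_lit 197) := by decide +kernel

/-- part of the certificates -/
def L9 : List Prf := [(.br (nat_lit 11) (nat_lit 0) (.cons (.ev (nat_lit 340282387283197622278515023973321867776) (nat_lit 2)) (.cons (.br (nat_lit 15) (nat_lit 0) (.cons (.ev (nat_lit 358891579385118659013965372809416345096) (nat_lit 4)) .nil)) .nil))),
 (.br (nat_lit 0) (nat_lit 0) (.cons (.ev (nat_lit 79229376162450717671164018945) (nat_lit 1)) (.cons (.ev (nat_lit 310693935640959697916330241) (nat_lit 1)) (.cons (.ev (nat_lit 5192296859743771967229367739744513) (nat_lit 1)) (.cons (.ev (nat_lit 1329227995786124817242505931690868993) (nat_lit 1)) (.cons (.br (nat_lit 14) (nat_lit 0) (.cons (.rf (nat_lit 197) (nat_lit 677582165103132179601393696)) (.cons (.br (nat_lit 4) (nat_lit 0) (.cons (.ev (nat_lit 340282387283197622278515023973321867776) (nat_lit 2)) (.cons (.ev (nat_lit 5192297789407764288482547190530050) (nat_lit 2)) .nil))) (.cons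 (.kr (nat_lit 5192296858534827628530496329220096) (nat_lit 1329227995784915872903807060280344576) (nat_lit 14) (nat_lit 0)) (.cons (.br (nat_lit 4) (nat_lit 0) (.cons (.br (nat_lit 15) (nat_lit 0) (.cons (.zr (nat_lit 340282387442270508919779279146290710020) (nat_lit 2668840585298990659262791772752838656) (nat_lit 16) (nat_lit 1)) .nil)) (.cons (.rf (nat_lit 197) (nat_lit 677545566762889939850987552)) (.cons (.ev (nat_lit 87112301508809279794524385433823784141571) (nat_lit 2)) .nil)))) .nil))))) .nil)))))),
 (.br (nat_lit 0) (nat_lit 0) (.cons (.rf (nat_lit 198) (nat_lit 19926519197871011449112608)) (.cons (.rf (nat_lit 198) (nat_lit 14934835046873647512913952)) (.cons (.rf (nat_lit 198) (nat_lit 14934835011970750400792608)) (.cons (.br (nat_lit 0) (nat_lit 0) (.cons (.rf (nat_lit 198) (nat_lit 19926519197871011449112608)) (.cons (.rf (nat_lit 198) (nat_lit 14934835046873647512913952)) (.cons (.rf (nat_lit 198) (nat_lit 14934835011970750400792608)) .nil)))) .nil))))),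
 (.br (nat_lit 0) (nat_lit 0) (.cons (.ev (nat_lit 5192455318496133906268045545898496) (nat_lit 2)) (.cons (.rf (nat_lit 198) (nat_lit 19926519197871011449112608)) (.cons (.rf (nat_lit 198) (nat_lit 14934835011970750400792608)) (.cons (.br (nat_lit 0) (nat_lit 0) (.cons (.ev (nat_lit 5192455318496133906268045545898496) (nat_lit 2)) (.cons (.rf (nat_lit 198) (nat_lit 19926519197871011449112608)) (.cons (.rf (nat_lit 198) (nat_lit 14934835011970750400792608)) .nil)))) .nil))))),
 (.br (nat_lit 7) (nat_lit 1) (.cons (.br (nat_lit 7) (nat_lit 1) (.cons (.rf (nat_lit 45) (nat_lit 16233578677504032)) .nil)) (.cons (.rf (nat_lit 45) (nat_lit 16233578677504032)) .nil))),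
 (.br (nat_lit 11) (nat_lit 0) (.cons (.ev (nat_lit 5192455626772217907433327563046914) (nat_lit 2)) (.cons (.ev (nat_lit 342940883998040568467515328581628658176) (nat_lit 2)) (.cons (.br (nat_lit 14) (nat_lit 0) (.cons (.ev (nat_lit 342951268591138668140166737623389504000) (nat_lit 2)) (.cons (.ev (nat_lit 5192376397396018419394903965499649) (nat_lit 1)) .nil))) .nil)))),
 (.br (nat_lit 10) (nat_lit 0) (.cons (.rf (nat_lit 202) (nat_lit 19926519232773908561233952)) (.cons (.ev (nat_lit 340282428006473154610383981905969349120) (nat_lit 2)) (.cons (.ev (nat_lit 340292812599571254208961314574626259456) (nat_lit 2)) (.cons (.br (nat_lit 0) (nat_lit 0) (.cons (.ev (nat_lit 1329268561224311621997178187421908994) (nat_lit 2)) (.cons (.ev (nat_lit 1339653154322411220573380558192836610) (nat_lit 2)) (.cons (.br (nat_lit 11) (nat_lit 0) (.cons (.ev (nat_lit 1344805045748936635973918569344794624) (nat_lit 2)) (.cons (.br (nat_lit 14) (nat_lit 0) (.cons (.ev (nat_lit 1339612748580916817043692404110066176) (nat_lit 2)) .nil)) .nil)))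 .nil)))) (.cons (.br (nat_lit 15) (nat_lit 0) (.cons (.rf (nat_lit 202) (nat_lit 14901778338503206675515424)) (.cons (.ev (nat_lit 342940883998040568467515328581628658176) (nat_lit 2)) (.cons (.ev (nat_lit 342951268591138668140166737623389504000) (nat_lit 2)) (.cons (.br (nat_lit 0) (nat_lit 0) (.cons (.ev (nat_lit 1329248278505218201100475247118778625) (nat_lit 1)) (.cons (.ev (nat_lit 1334440575054268000389141581480919297) (nat_lit 1)) (.cons (.ev (nat_lit 87116273615747605021038589416996585275649) (nat_lit 2)) .nil)))) .nil))))) .nil)))))),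
 (.br (nat_lit 4) (nat_lit 0) (.cons (.ev (nat_lit 340282509294570321616041754550759523844) (nat_lit 3)) (.cons (.ev (nat_lit 345599462636665328724762242046394437128) (nat_lit 4)) (.cons (.br (nat_lit 14) (nat_lit 0) (.cons (.ev (nat_lit 1334420292954144636173297254525894913) (nat_lit 1)) (.cons (.br (nat_lit 15) (nat_lit 0) (.cons (.ev (nat_lit 1334440654281216866467381671893139713) (nat_lit 1)) .nil)) .nil))) .nil)))),
 (.br (nat_lit 14) (nat_lit 0) (.cons (.ev (nat_lit 342940843274148483967641779471995044352) (nat_lit 2)) (.cons (.br (nat_lit 15) (nat_lit 0) (.cons (.ev (nat_lit 342951309316278364085883709949850355204) (nat_lit 3)) .nil)) .nil))),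
 (.br (nat_lit 13) (nat_lit 0) (.cons (.ev (nat_lit 5212658805786003384919680337576193) (nat_lit 1)) .nil)),
 (.br (nat_lit 0) (nat_lit 0) (.cons (.rf (nat_lit 203) (nat_lit 19926519232773908561233952)) (.cons (.rf (nat_lit 204) (nat_lit 19926519232773908561233952)) (.cons (.rf (nat_lit 204) (nat_lit 16296307328959741413132320)) (.cons (.ev (nat_lit 1329227995786124817242505931690868993) (nat_lit 1)) (.cons (.br (nat_lit 4) (nat_lit 0) (.cons (.rf (nat_lit 205) (nat_lit 677582165103132179601393696)) (.cons (.rf (nat_lit 205) (nat_lit 673951953199318012453292064)) (.cons (.br (nat_lit 11) (nat_lit 0) (.cons (.ev (nat_lit 345599462002849737796136321288736933376) (nat_lit 4)) (.cons (.br (nat_lit 14) (nat_lit 0) (.cons (.ev (nat_lit 340344695007051224782399424522841818632) (nat_lit 4)) .nil)) .nil))) (.cons (.br (nat_lit 11) (nat_lit 0) (.cons (.ev (nat_lit 680570047834747781250197263733364032518) (nat_lit 3)) (.cons (.rf (nat_lit 206) (nat_lit 21174442659471745632798752)) (.cons (.br (nat_lit 14) (nat_lit 0) (.cons (.ev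 (nat_lit 1329248357732167067178715337564684545) (nat_lit 1)) .nil)) .nil)))) .nil))))) .nil)))))),
 (.br (nat_lit 14) (nat_lit 0) (.cons (.ev (nat_lit 340292771876912274045094687223192945152) (nat_lit 2)) (.cons (.br (nat_lit 15) (nat_lit 0) (.cons (.ev (nat_lit 342951309316278364085883709949850355204) (nat_lit 3)) .nil)) .nil))),
 (.br (nat_lit 0) (nat_lit 0) (.cons (.rf (nat_lit 203) (nat_lit 19926519232773908561233952)) (.cons (.rf (nat_lit 207) (nat_lit 19926519232773908561233952)) (.cons (.ev (nat_lit 5192297168019855968959807289819393) (nat_lit 1)) (.cons (.rf (nat_lit 207) (nat_lit 14901778338503206675515424)) (.cons (.br (nat_lit 4) (nat_lit 0) (.cons (.rf (nat_lit 208) (nat_lit 677582165103132179601393696)) (.cons (.br (nat_lit 10) (nat_lit 0) (.cons (.ev (nat_lit 340282428166169865938112500813187711488) (nat_lit 3)) (.cons (.br (nat_lit 15) (nat_lit 0) (.cons (.ev (nat_lit 1344865733590554403720018406972457474) (nat_lit 2)) .nil)) .nil))) (.cons (.rf (nat_lit 208) (nat_lit 672557424208861477715675168)) (.cons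 (.br (nat_lit 14) (nat_lit 0) (.cons (.rf (nat_lit 206) (nat_lit 21173297843354687366072352)) (.cons (.rf (nat_lit 206) (nat_lit 21022002121663516661352480)) (.cons (.kr (nat_lit 340282367000476110987460290098331910145) (nat_lit 87112291144339514789825564939845887852800) (nat_lit 0) (nat_lit 2)) .nil)))) .nil))))) .nil)))))),
 (.br (nat_lit 13) (nat_lit 1) (.cons (.br (nat_lit 8) (nat_lit 1) (.cons (.br (nat_lit 0) (nat_lit 0) (.cons (.rf (nat_lit 203) (nat_lit 19926519232773908561233952)) (.cons (.rf (nat_lit 207) (nat_lit 19926519232773908561233952)) (.cons (.rf (nat_lit 209) (nat_lit 19926519232773908561233952)) (.cons (.rf (nat_lit 209) (nat_lit 16296307328959741413132320)) (.cons (.rf (nat_lit 207) (nat_lit 14901778338503206675515424)) (.cons (.br (nat_lit 0) (nat_lit 0) (.cons (.rf (nat_lit 203) (nat_lit 19926519232773908561233952)) (.cons (.rf (nat_lit 207) (nat_lit 19926519232773908561233952)) (.cons (.rf (nat_lit 209) (nat_lit 19926519232773908561233952)) (.cons (.rf (nat_lit 209) (nat_lit 16296307328959741413132320))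 (.cons (.rf (nat_lit 207) (nat_lit 14901778338503206675515424)) .nil)))))) .nil))))))) .nil)) (.cons (.rf (nat_lit 40) (nat_lit 7012848287821)) .nil))),
 (.br (nat_lit 11) (nat_lit 0) (.cons (.ev (nat_lit 5192455626772217907998476506038274) (nat_lit 2)) (.cons (.ev (nat_lit 342940883998040568467514763432685666816) (nat_lit 2)) (.cons (.br (nat_lit 14) (nat_lit 0) (.cons (.ev (nat_lit 342951268591138668140167302772332495360) (nat_lit 2)) (.cons (.ev (nat_lit 5192376397396018419112329460318465) (nat_lit 1)) .nil))) .nil)))),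
 (.br (nat_lit 0) (nat_lit 0) (.cons (.ev (nat_lit 1334420531258825310119485631029576194) (nat_lit 2)) (.cons (.ev (nat_lit 1344845689792674972345199520550748674) (nat_lit 2)) (.cons (.br (nat_lit 10) (nat_lit 0) (.cons (.ev (nat_lit 5212579888331628898874104588795904) (nat_lit 2)) (.cons (.br (nat_lit 13) (nat_lit 0) (.cons (.ev (nat_lit 1344845530719807220546029185063190528) (nat_lit 2)) .nil)) .nil))) .nil)))),
 (.br (nat_lit 10) (nat_lit 0) (.cons (.rf (nat_lit 211) (nat_lit 19926519232773908561233952)) (.cons (.ev (nat_lit 340282428006473154610384547054912340480) (nat_lit 2)) (.cons (.ev (nat_lit 340292812599571254208960749425683268096) (nat_lit 2)) (.cons (.rf (nat_lit 212) (nat_lit 622703726024184641456160)) (.cons (.br (nat_lit 0) (nat_lit 0) (.cons (.rf (nat_lit 211) (nat_lit 19889885117062128886450208)) (.cons (.rf (nat_lit 211) (nat_lit 16149663644411629125339168)) (.cons (.rf (nat_lit 211) (nat_lit 14901778338503206675515424)) (.cons (.br (nat_lit 11) (nat_lit 0) (.cons (.rf (nat_lit 212) (nat_lit 621558909908191526619168))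 (.cons (.ev (nat_lit 342940883998040568467514763432685666816) (nat_lit 2)) (.cons (.ev (nat_lit 174564854291526966447858183552111646670850) (nat_lit 2)) .nil)))) .nil))))) .nil)))))),
 (.br (nat_lit 4) (nat_lit 0) (.cons (.ev (nat_lit 340282509294570321616042884848645506564) (nat_lit 3)) (.cons (.ev (nat_lit 340282468888823991509234173020330984964) (nat_lit 3)) (.cons (.br (nat_lit 14) (nat_lit 0) (.cons (.ev (nat_lit 1334420292954144636173297254525894913) (nat_lit 1)) (.cons (.br (nat_lit 15) (nat_lit 0) (.cons (.ev (nat_lit 1334440654281216866467099097421644033) (nat_lit 1)) .nil)) .nil))) .nil)))),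
 (.br (nat_lit 14) (nat_lit 0) (.cons (.ev (nat_lit 342940843274148483967641779471995044352) (nat_lit 2)) (.cons (.br (nat_lit 15) (nat_lit 0) (.cons (.ev (nat_lit 342951309316278364085882588448057394692) (nat_lit 3)) .nil)) .nil))),
 (.br (nat_lit 0) (nat_lit 0) (.cons (.rf (nat_lit 213) (nat_lit 19926519232773908561233952)) (.cons (.rf (nat_lit 214) (nat_lit 19926519232773908561233952)) (.cons (.rf (nat_lit 214) (nat_lit 16296307328958676261242912)) (.cons (.ev (nat_lit 1329227995786124817242505931690868993) (nat_lit 1)) (.cons (.br (nat_lit 4) (nat_lit 0) (.cons (.rf (nat_lit 215) (nat_lit 677582165103132179601393696)) (.cons (.rf (nat_lit 215) (nat_lit 673951953199316947301402656)) (.cons (.br (nat_lit 11) (nat_lit 0) (.cons (.ev (nat_lit 340282468571916196044920082343481508352) (nat_lit 3)) (.cons (.br (nat_lit 14) (nat_lit 0) (.cons (.ev (nat_lit 1344804966517142621885099755991859714) (nat_lit 2)) .nil)) .nil))) (.cons (.br (nat_lit 17) (nat_lit 0) (.cons (.rf (nat_lit 116) (nat_lit 20346020455371912611872)) (.cons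 (.rf (nat_lit 116) (nat_lit 20383018754462028236832)) (.cons (.kr (nat_lit 340282387203349276040864646012489170945) (nat_lit 87113615159835259729733434130056131641600) (nat_lit 0) (nat_lit 2)) .nil)))) .nil))))) .nil)))))),
 (.br (nat_lit 5) (nat_lit 1) (.cons (.br (nat_lit 6) (nat_lit 0) (.cons (.br (nat_lit 6) (nat_lit 0) (.cons (.br (nat_lit 7) (nat_lit 1) (.cons (.br (nat_lit 8) (nat_lit 1) (.cons (.br (nat_lit 9) (nat_lit 1) (.cons (.br (nat_lit 10) (nat_lit 0) (.cons (.br (nat_lit 11) (nat_lit 1) (.cons (.rf (nat_lit 4) (nat_lit 13091579977)) .nil)) .nil)) (.cons (.br (nat_lit 10) (nat_lit 1) (.cons (.rf (nat_lit 103) (nat_lit 407901468851537952)) (.cons (.br (nat_lit 10) (nat_lit 1) (.cons (.rf (nat_lit 103) (nat_lit 443930265870501920)) (.cons (.br (nat_lit 11) (nat_lit 1) (.cons (.rf (nat_lit 110) (nat_lit 14242959524133701664)) (.cons (.br (nat_lit 11) (nat_lit 1) (.cons (.rf (nat_lit 110) (nat_lit 14242959524133701664)) (.cons (.rf (nat_lit 102) (nat_lit 11319769240674)) .nil))) .nil))) .nil))) .nil))) .nil)))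 (.cons (.br (nat_lit 9) (nat_lit 0) (.cons (.br (nat_lit 10) (nat_lit 0) (.cons (.br (nat_lit 9) (nat_lit 1) (.cons (.ev (nat_lit 1213648186380073325101056) (nat_lit 1)) (.cons (.rf (nat_lit 4) (nat_lit 10944098377)) (.cons (.br (nat_lit 10) (nat_lit 1) (.cons (.br (nat_lit 12) (nat_lit 1) (.cons (.rf (nat_lit 45) (nat_lit 15035040067095617)) (.cons (.br (nat_lit 13) (nat_lit 1) (.cons (.rf (nat_lit 102) (nat_lit 14785837208674)) (.cons (.br (nat_lit 13) (nat_lit 1) (.cons (.rf (nat_lit 102) (nat_lit 14820196947042)) .nil)) .nil))) .nil))) (.cons (.rf (nat_lit 4) (nat_lit 9870357578)) (.cons (.br (nat_lit 12) (nat_lit 1) (.cons (.rf (nat_lit 111) (nat_lit 15433072045018188865)) (.cons (.rf (nat_lit 119) (nat_lit 14721345590370)) (.cons (.br (nat_lit 12) (nat_lit 1) (.cons (.rf (nat_lit 111) (nat_lit 15433072045018188865)) (.cons (.rf (nat_lit 102) (nat_lit 15753278592098)) .nil))) .nil)))) .nil)))) .nil)))) (.cons (.br (nat_lit 11) (nat_lit 1) (.cons (.br (nat_lit 12) (nat_lit 1) (.cons (.br (nat_lit 9) (nat_lit 1) (.cons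 (.rf (nat_lit 4) (nat_lit 14165321801)) (.cons (.rf (nat_lit 4) (nat_lit 10944099401)) (.cons (.br (nat_lit 10) (nat_lit 1) (.cons (.rf (nat_lit 4) (nat_lit 9870357578)) (.cons (.br (nat_lit 14) (nat_lit 1) (.cons (.br (nat_lit 0) (nat_lit 0) (.cons (.rf (nat_lit 115) (nat_lit 17022140995484340291616)) (.cons (.rf (nat_lit 117) (nat_lit 17022140995484340291616)) (.cons (.rf (nat_lit 117) (nat_lit 17021023010996065765408)) (.cons (.rf (nat_lit 118) (nat_lit 17022140995484340291616)) (.cons (.rf (nat_lit 118) (nat_lit 17021023010996065765408)) (.cons (.br (nat_lit 0) (nat_lit 0) (.cons (.rf (nat_lit 115) (nat_lit 17022140995484340291616)) (.cons (.rf (nat_lit 117) (nat_lit 17022140995484340291616)) (.cons (.rf (nat_lit 117) (nat_lit 17021023010996065765408)) (.cons (.rf (nat_lit 118) (nat_lit 17022140995484340291616)) (.cons (.rf (nat_lit 118) (nat_lit 17021023010996065765408)) .nil)))))) .nil))))))) (.cons (.rf (nat_lit 102) (nat_lit 16950567834722)) .nil))) (.cons (.br (nat_lit 13) (nat_lit 1) (.cons (.rf (nat_lit 119)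 (nat_lit 16988014580834)) (.cons (.rf (nat_lit 119) (nat_lit 15922830185570)) (.cons (.br (nat_lit 14) (nat_lit 1) (.cons (.rf (nat_lit 127) (nat_lit 19926519232773908561233952)) (.cons (.br (nat_lit 14) (nat_lit 1) (.cons (.rf (nat_lit 127) (nat_lit 19926519232773908561233952)) .nil)) .nil))) .nil)))) .nil)))) .nil)))) .nil)) .nil)) .nil))) .nil)) .nil))) .nil)) .nil)) .nil)) (.cons (.br (nat_lit 6) (nat_lit 1) (.cons (.rf (nat_lit 175) (nat_lit 247132686368)) (.cons (.br (nat_lit 6) (nat_lit 1) (.cons (.rf (nat_lit 175) (nat_lit 281492424736)) (.cons (.br (nat_lit 7) (nat_lit 1) (.cons (.rf (nat_lit 192) (nat_lit 9043225708576)) (.cons (.br (nat_lit 9) (nat_lit 0) (.cons (.br (nat_lit 9) (nat_lit 0) (.cons (.br (nat_lit 10) (nat_lit 1) (.cons (.br (nat_lit 11) (nat_lit 1) (.cons (.br (nat_lit 7) (nat_lit 1) (.cons (.rf (nat_lit 192) (nat_lit 9043225708576)) (.cons (.br (nat_lit 8) (nat_lit 1) (.cons (.br (nat_lit 8) (nat_lit 1) (.cons (.br (nat_lit 13) (nat_lit 0) (.cons (.br (nat_lit 13) (nat_lit 0) (.cons (.br (nat_lit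 15) (nat_lit 1) (.cons (.br (nat_lit 14) (nat_lit 0) (.cons (.br (nat_lit 10) (nat_lit 0) (.cons (.rf (nat_lit 194) (nat_lit 19926519232773908561233952)) (.cons (.rf (nat_lit 195) (nat_lit 19926519232773908561233952)) (.cons (.kr (nat_lit 1208925819614629174706176) (nat_lit 309485009821345068724781056) (nat_lit 10) (nat_lit 0)) (.cons (.rf (nat_lit 196) (nat_lit 19926519232773908561233952)) (.cons (.rf (nat_lit 196) (nat_lit 18755372345022236548237344)) (.cons (.br (nat_lit 15) (nat_lit 0) (.cons (.rf (nat_lit 194) (nat_lit 13690489209948118559328288)) (.cons (.rf (nat_lit 195) (nat_lit 13690489209948118559328288)) (.cons (.rf (nat_lit 195) (nat_lit 4877114506873412297041233)) (.cons (.kr (nat_lit 1329227995784915872903807060280344576) (nat_lit 340282366920938463463374607431768211456) (nat_lit 15) (nat_lit 0)) (.cons (.rf (nat_lit 194) (nat_lit 4877114506873412297041233)) .nil)))))) .nil))))))) .nil)) .nil)) .nil)) .nil)) .nil)) .nil)) (.cons (.br (nat_lit 13) (nat_lit 0) (.cons (.br (nat_lit 13) (nat_lit 0) (.cons (.br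 (nat_lit 14) (nat_lit 1) (.cons (.br (nat_lit 15) (nat_lit 1) (.cons (.br (nat_lit 12) (nat_lit 1) (.cons (.br (nat_lit 8) (nat_lit 1) (.cons (.br (nat_lit 10) (nat_lit 0) (.cons (.rf (nat_lit 198) (nat_lit 19926519232773908561233952)) (.cons (.rf (nat_lit 199) (nat_lit 19926519232773908561233952)) (.cons (.kr (nat_lit 1208925819614629174706176) (nat_lit 309485009821345068724781056) (nat_lit 10) (nat_lit 0)) (.cons (.rf (nat_lit 200) (nat_lit 19926519232773908561233952)) (.cons (.rf (nat_lit 200) (nat_lit 19889920892531668810827808)) (.cons (.br (nat_lit 4) (nat_lit 0) (.cons (.br (nat_lit 0) (nat_lit 0) (.cons (.ev (nat_lit 79537652246452448110714093825) (nat_lit 1)) (.cons (.ev (nat_lit 5192376086702082778152631560831233) (nat_lit 1)) (.cons (.ev (nat_lit 1329228075013083128053429195511955713) (nat_lit 1)) (.cons (.br (nat_lit 11) (nat_lit 0) (.cons (.ev (nat_lit 5192456243324385911459364196123136) (nat_lit 2)) (.cons (.ev (nat_lit 1329228155169705431186735928147247616) (nat_lit 2)) (.cons (.zr (nat_lit 158456334473261643125401584389)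 (nat_lit 261336857795281050633807340030267314143232) (nat_lit 8) (nat_lit 1)) .nil)))) .nil))))) (.cons (.rf (nat_lit 199) (nat_lit 19926519197871011449112608)) (.cons (.rf (nat_lit 199) (nat_lit 14934835046873647512913952)) (.cons (.rf (nat_lit 199) (nat_lit 14934835011970750400792608)) (.cons (.rf (nat_lit 198) (nat_lit 19926519232773908558088337)) .nil)))))) .nil))))))) .nil)) (.cons (.rf (nat_lit 40) (nat_lit 7047208026188)) .nil))) .nil)) .nil)) .nil)) .nil)) .nil)))) (.cons (.br (nat_lit 12) (nat_lit 0) (.cons (.br (nat_lit 13) (nat_lit 0) (.cons (.br (nat_lit 7) (nat_lit 1) (.cons (.rf (nat_lit 192) (nat_lit 9043225708576)) (.cons (.rf (nat_lit 201) (nat_lit 531941906108885634113)) (.cons (.rf (nat_lit 201) (nat_lit 530823922685762997313)) (.cons (.rf (nat_lit 45) (nat_lit 17395797936180289)) .nil))))) (.cons (.br (nat_lit 14) (nat_lit 1) (.cons (.br (nat_lit 15) (nat_lit 1) (.cons (.br (nat_lit 7) (nat_lit 1) (.cons (.rf (nat_lit 192) (nat_lit 9043225708576)) (.cons (.rf (nat_lit 210) (nat_lit 19926519232773908561233952))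 (.cons (.rf (nat_lit 210) (nat_lit 19889885117062128886450208)) (.cons (.br (nat_lit 12) (nat_lit 1) (.cons (.br (nat_lit 8) (nat_lit 1) (.cons (.br (nat_lit 0) (nat_lit 0) (.cons (.rf (nat_lit 213) (nat_lit 19926519232773908561233952)) (.cons (.rf (nat_lit 216) (nat_lit 19926519232773908561233952)) (.cons (.rf (nat_lit 216) (nat_lit 19889885117062128886450208)) (.cons (.rf (nat_lit 216) (nat_lit 16149663644411629125339168)) (.cons (.rf (nat_lit 216) (nat_lit 14901778338503206675515424)) (.cons (.br (nat_lit 0) (nat_lit 0) (.cons (.rf (nat_lit 213) (nat_lit 19926519232773908561233952)) (.cons (.rf (nat_lit 216) (nat_lit 19926519232773908561233952)) (.cons (.rf (nat_lit 216) (nat_lit 19889885117062128886450208)) (.cons (.rf (nat_lit 216) (nat_lit 16149663644411629125339168)) (.cons (.rf (nat_lit 216) (nat_lit 14901778338503206675515424)) .nil)))))) .nil))))))) .nil)) (.cons (.rf (nat_lit 40) (nat_lit 7150287238220)) .nil))) .nil))))) .nil)) .nil)) .nil))) .nil)) .nil))) .nil)) .nil)) .nil)) .nil))) .nil))) .nil))) .nil)))]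

theorem c9 : chkAll C T R L9 (nat_lit 197) = true := by decide +kernel

theorem l9 : (nat_lit 197) + L9.length = (nat_lit 218) := by decide +kernel

/-- part of the certificates -/
def L10 : List Prf := [(.br (nat_lit 6) (nat_lit 0) (.cons (.br (nat_lit 7) (nat_lit 0) .nil) .nil)),
 (.br (nat_lit 9) (nat_lit 1) (.cons (.br (nat_lit 10) (nat_lit 0) (.cons (.rf (nat_lit 218) (nat_lit 12121706528)) .nil)) .nil)),
 (.br (nat_lit 6) (nat_lit 1) (.cons (.ev (nat_lit 5253144087359968330955741852795394) (nat_lit 2)) (.cons (.rf (nat_lit 102) (nat_lit 16983579333890)) .nil))),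
 (.br (nat_lit 15) (nat_lit 1) (.cons (.ev (nat_lit 2689630136533664464255180745495281921) (nat_lit 3)) (.cons (.ev (nat_lit 680564754204446784344555996231376044803) (nat_lit 2)) (.cons (.br (nat_lit 16) (nat_lit 1) (.cons (.ev (nat_lit 72340172838076673) (nat_lit 1)) (.cons (.zr (nat_lit 2679225179012433537059038510134332167) (nat_lit 680564754205062127586883957712293462016) (nat_lit 24) (nat_lit 1)) .nil))) .nil)))),
 (.br (nat_lit 16) (nat_lit 1) (.cons (.ev (nat_lit 683233594789733685745476553957496193793) (nat_lit 2)) .nil)),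
 (.br (nat_lit 15) (nat_lit 1) (.cons (.ev (nat_lit 2658476353518291884492998500730012419) (nat_lit 2)) (.cons (.rf (nat_lit 119) (nat_lit 7163042272514)) (.cons (.br (nat_lit 6) (nat_lit 1) (.cons (.rf (nat_lit 222) (nat_lit 677582165103132179601393696)) (.cons (.br (nat_lit 6) (nat_lit 1) (.cons (.rf (nat_lit 222) (nat_lit 677582165103132179601393696)) .nil)) .nil))) .nil)))),
 (.br (nat_lit 5) (nat_lit 1) (.cons (.rf (nat_lit 130) (nat_lit 18117718906114)) (.cons (.ev (nat_lit 10404955665529793942445372827763459) (nat_lit 2)) (.cons (.br (nat_lit 15) (nat_lit 1) (.cons (.ev (nat_lit 1334420292643450700532619035898020096) (nat_lit 1)) (.cons (.ev (nat_lit 344270050908606327647289108748870681089) (nat_lit 2)) (.cons (.br (nat_lit 16) (nat_lit 1) (.cons (.ev (nat_lit 340287559218107696967529664742189760769) (nat_lit 1)) (.cons (.ev (nat_lit 683233594789733685745476553957496193793) (nat_lit 2)) .nil))) .nil)))) (.cons (.br (nat_lit 6) (nat_lit 1) (.cons (.ev (nat_lit 1334420292643450700532619035898020096) (nat_lit 1)) (.cons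 (.br (nat_lit 15) (nat_lit 1) (.cons (.ev (nat_lit 680564754204446774936717079390401463043) (nat_lit 2)) (.cons (.br (nat_lit 16) (nat_lit 1) (.cons (.zr (nat_lit 2658455991573458523267020958038360835) (nat_lit 680564754203824178139470867235988307968) (nat_lit 8) (nat_lit 1)) .nil)) .nil))) (.cons (.br (nat_lit 17) (nat_lit 1) (.cons (.ev (nat_lit 7985772932239188645068061023194317061) (nat_lit 3)) (.cons (.ev (nat_lit 87112291144418742952358348360582172770305) (nat_lit 1)) .nil))) .nil)))) .nil))))),
 (.br (nat_lit 15) (nat_lit 1) (.cons (.rf (nat_lit 119) (nat_lit 7161968563458)) (.cons (.rf (nat_lit 224) (nat_lit 19889920892531668810827808)) (.cons (.rf (nat_lit 217) (nat_lit 551008651)) (.cons (.br (nat_lit 5) (nat_lit 1) (.cons (.br (nat_lit 6) (nat_lit 1) (.cons (.ev (nat_lit 340287559218107696967529664742189760769) (nat_lit 1)) (.cons (.zr (nat_lit 2668840585292946030162748259160034053) (nat_lit 20362566230640348500473185042432) (nat_lit 24) (nat_lit 1)) .nil))) (.cons (.ev (nat_lit 340297943811827184511463279057017307649)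 (nat_lit 2)) (.cons (.br (nat_lit 17) (nat_lit 1) (.cons (.zr (nat_lit 5327296576865195627609591638036581127) (nat_lit 174224571883883678493907933747914081304576) (nat_lit 24) (nat_lit 1)) (.cons (.ev (nat_lit 340287579579434764457009958162442289153) (nat_lit 1)) .nil))) .nil)))) .nil))))),
 (.br (nat_lit 9) (nat_lit 1) (.cons (.ev (nat_lit 4740813228047161426176) (nat_lit 1)) (.cons (.br (nat_lit 5) (nat_lit 1) (.cons (.ev (nat_lit 4777851115061001650690) (nat_lit 2)) (.cons (.rf (nat_lit 220) (nat_lit 18240815054650796509216)) (.cons (.rf (nat_lit 220) (nat_lit 17097116922080804309024)) (.cons (.br (nat_lit 6) (nat_lit 1) (.cons (.rf (nat_lit 102) (nat_lit 18116342389027)) (.cons (.rf (nat_lit 102) (nat_lit 18081982683427)) (.cons (.ev (nat_lit 72340172838076673) (nat_lit 1)) (.cons (.br (nat_lit 14) (nat_lit 1) (.cons (.kr (nat_lit 5192296858534827628530496329220096) (nat_lit 1329227995784915872903807060280344576) (nat_lit 14) (nat_lit 0)) (.cons (.rf (nat_lit 221) (nat_lit 19926519232773908561233952)) (.cons (.rf (nat_lit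 221) (nat_lit 21135445052354451835259936)) .nil)))) .nil))))) .nil))))) (.cons (.rf (nat_lit 93) (nat_lit 480519392)) (.cons (.rf (nat_lit 93) (nat_lit 514073824)) (.cons (.br (nat_lit 14) (nat_lit 1) (.cons (.rf (nat_lit 223) (nat_lit 19926519232773908561233952)) (.cons (.rf (nat_lit 224) (nat_lit 19926519232773908561233952)) (.cons (.kr (nat_lit 5192296858534827628530496329220096) (nat_lit 1329227995784915872903807060280344576) (nat_lit 14) (nat_lit 0)) (.cons (.rf (nat_lit 225) (nat_lit 19926519232773908561233952)) (.cons (.br (nat_lit 15) (nat_lit 1) (.cons (.rf (nat_lit 223) (nat_lit 19889920892531668810827808)) (.cons (.rf (nat_lit 224) (nat_lit 19889920892531668810827808)) (.cons (.rf (nat_lit 225) (nat_lit 19889920892531668810827808)) (.cons (.rf (nat_lit 217) (nat_lit 584563083)) .nil))))) .nil)))))) .nil)))))),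
 (.br (nat_lit 14) (nat_lit 1) (.cons (.kr (nat_lit 1329228075013078387240203347373850880) (nat_lit 5212579268138497745698521585090560) (nat_lit 1) (nat_lit 0)) .nil)),
 (.br (nat_lit 6) (nat_lit 1) (.cons (.ev (nat_lit 680564754204446774936572966401348731649) (nat_lit 2)) (.cons (.rf (nat_lit 227) (nat_lit 661701333072208167308353)) .nil))),
 (.br (nat_lit 15) (nat_lit 1) (.cons (.ev (nat_lit 1334440654591910802180117488853909505) (nat_lit 1)) (.cons (.br (nat_lit 5) (nat_lit 1) (.cons (.zr (nat_lit 1334420292645868552171566814975820802) (nat_lit 618970019787087917193625600) (nat_lit 8) (nat_lit 1)) (.cons (.rf (nat_lit 228) (nat_lit 677582165103132179601393696)) (.cons (.rf (nat_lit 228) (nat_lit 640105464695044590325041184)) .nil)))) (.cons (.rf (nat_lit 226) (nat_lit 115846713911504897785227)) (.cons (.rf (nat_lit 226) (nat_lit 115846713877420070878603)) .nil))))),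
 (.br (nat_lit 13) (nat_lit 1) (.cons (.kr (nat_lit 20282409603670117168020960837633) (nat_lit 4722366483969156907008) (nat_lit 0) (nat_lit 1)) (.cons (.kr (nat_lit 20282409603670117168020960837633) (nat_lit 4722366483969173618688) (nat_lit 0) (nat_lit 1)) (.cons (.rf (nat_lit 217) (nat_lit 481734985)) (.cons (.rf (nat_lit 226) (nat_lit 115846711587079265366345)) (.cons (.rf (nat_lit 226) (nat_lit 115846711587080339108169)) .nil)))))),
 (.br (nat_lit 10) (nat_lit 1) (.cons (.rf (nat_lit 45) (nat_lit 12676483370813472)) .nil)),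
 (.br (nat_lit 9) (nat_lit 1) (.cons (.ev (nat_lit 310698676454468120542707968) (nat_lit 1)) (.cons (.rf (nat_lit 130) (nat_lit 16949420692738)) .nil))),
 (.br (nat_lit 6) (nat_lit 1) (.cons (.ev (nat_lit 310698676454468120542707968) (nat_lit 1)) (.cons (.rf (nat_lit 12) (nat_lit 16942779084873)) .nil))),
 (.br (nat_lit 15) (nat_lit 1) (.cons (.ev (nat_lit 344270091552650075409657818026667475712) (nat_lit 2)) .nil)),
 (.br (nat_lit 12) (nat_lit 1) (.cons (.rf (nat_lit 232) (nat_lit 18202732616201751595040)) (.cons (.rf (nat_lit 233) (nat_lit 18202732616201751595040)) (.cons (.ev (nat_lit 1334460857773351976623808290486223619) (nat_lit 2)) (.cons (.br (nat_lit 13) (nat_lit 1) (.cons (.rf (nat_lit 130) (nat_lit 17914748146946)) (.cons (.rf (nat_lit 68) (nat_lit 17804119258185)) (.cons (.ev (nat_lit 20361948460101647778837027619073) (nat_lit 1)) (.cons (.br (nat_lit 6) (nat_lit 1) (.cons (.rf (nat_lit 130) (nat_lit 18052052882690)) (.cons (.br (nat_lit 9) (nat_lit 1) (.cons (.zr (nat_lit 158767018964241692479059002113) (nat_lit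 681899154134520377664175040589039927296) (nat_lit 8) (nat_lit 1)) (.cons (.rf (nat_lit 234) (nat_lit 21174442659472880612543553)) .nil))) (.cons (.br (nat_lit 17) (nat_lit 1) (.cons (.ev (nat_lit 174225927093567560140816454191848433779973) (nat_lit 3)) (.cons (.ev (nat_lit 174225916709130442457759847776586293182723) (nat_lit 2)) .nil))) .nil)))) .nil))))) .nil))))),
 (.br (nat_lit 8) (nat_lit 1) (.cons (.rf (nat_lit 232) (nat_lit 18050547122969700829216)) (.cons (.ev (nat_lit 1334420452031857573093554978870526723) (nat_lit 2)) (.cons (.rf (nat_lit 233) (nat_lit 18050547122969700829216)) (.cons (.br (nat_lit 6) (nat_lit 1) (.cons (.rf (nat_lit 130) (nat_lit 18047757915522)) (.cons (.rf (nat_lit 130) (nat_lit 17910453179778)) (.cons (.br (nat_lit 9) (nat_lit 1) (.cons (.ev (nat_lit 1334460857773351976480256052330234625) (nat_lit 2)) (.cons (.ev (nat_lit 1362495041757866489344921474001681778437) (nat_lit 3)) (.cons (.br (nat_lit 13) (nat_lit 1) (.cons (.ev (nat_lit 340287579500516086952566965637623119873) (nat_lit 1)) (.cons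 (.br (nat_lit 16) (nat_lit 1) (.cons (.ev (nat_lit 1362495163611396988451619705989533533955) (nat_lit 3)) .nil)) .nil))) .nil)))) (.cons (.br (nat_lit 9) (nat_lit 1) (.cons (.rf (nat_lit 12) (nat_lit 18970003780681)) (.cons (.br (nat_lit 13) (nat_lit 1) (.cons (.ev (nat_lit 1362474394740870663494595123966434870023) (nat_lit 3)) (.cons (.ev (nat_lit 10404955665539238532138137047531523) (nat_lit 2)) .nil))) (.cons (.br (nat_lit 17) (nat_lit 1) (.cons (.ev (nat_lit 174225906365101547022667410270338425422083) (nat_lit 3)) (.cons (.ev (nat_lit 348450488532245815653957169581968119038725) (nat_lit 3)) .nil))) .nil)))) .nil))))) .nil))))),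
 (.br (nat_lit 9) (nat_lit 1) (.cons (.ev (nat_lit 10404955357267858377244474448281600) (nat_lit 2)) (.cons (.ev (nat_lit 1344886018171393587039986021292049157) (nat_lit 3)) (.cons (.br (nat_lit 16) (nat_lit 1) (.cons (.ev (nat_lit 1362474353700682452882294491475003572997) (nat_lit 3)) (.cons (.ev (nat_lit 1362474353701925247440537285450344170245) (nat_lit 3)) .nil))) .nil)))),
 (.br (nat_lit 9) (nat_lit 1) (.cons (.ev (nat_lit 1344805204829067461572702135491232517) (nat_lit 3)) (.cons (.ev (nat_lit 1334460858394749255601653040000533249) (nat_lit 2)) (.cons (.br (nat_lit 12) (nat_lit 1) (.cons (.ev (nat_lit 2043049513017389336731413979513265194247) (nat_lit 3)) (.cons (.ev (nat_lit 341611594995952755517247933830960054529) (nat_lit 1)) .nil))) .nil)))),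
 (.br (nat_lit 14) (nat_lit 1) (.cons (.kr (nat_lit 1329227996094400901171897302226305280) (nat_lit 5192376086697341964925688206131200) (nat_lit 1) (nat_lit 0)) .nil)),
 (.br (nat_lit 12) (nat_lit 1) (.cons (.ev (nat_lit 5212658805786003384637105849237504) (nat_lit 1)) (.cons (.rf (nat_lit 239) (nat_lit 622665642423516338948128)) .nil))),
 (.br (nat_lit 13) (nat_lit 1) (.cons (.ev (nat_lit 681899195017184326239407655319270326533) (nat_lit 3)) (.cons (.rf (nat_lit 239) (nat_lit 661552464232474261720129)) .nil))),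
 (.br (nat_lit 9) (nat_lit 1) (.cons (.kr (nat_lit 20282409603670117168020960837632) (nat_lit 79228167236630820463189164032) (nat_lit 8) (nat_lit 0)) (.cons (.rf (nat_lit 241) (nat_lit 677582165103132179601393696)) (.cons (.rf (nat_lit 241) (nat_lit 640105464695078674145283104)) .nil)))),
 (.br (nat_lit 15) (nat_lit 1) (.cons (.ev (nat_lit 344270091711725370421079808201428500736) (nat_lit 2)) .nil)),
 (.br (nat_lit 12) (nat_lit 1) (.cons (.ev (nat_lit 681909579452442653014496811866424082689) (nat_lit 2)) (.cons (.rf (nat_lit 243) (nat_lit 21174442659472880612543553)) .nil))),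
 (.br (nat_lit 9) (nat_lit 1) (.cons (.ev (nat_lit 10404955357267858377244474448281600) (nat_lit 2)) (.cons (.rf (nat_lit 244) (nat_lit 677582165103132179601393696)) (.cons (.rf (nat_lit 244) (nat_lit 640105464695078674145283104)) .nil)))),
 (.br (nat_lit 9) (nat_lit 1) (.cons (.ev (nat_lit 310698676454186641254252544) (nat_lit 1)) .nil)),
 (.br (nat_lit 9) (nat_lit 1) (.cons (.rf (nat_lit 245) (nat_lit 677582129327628554816555040)) (.cons (.rf (nat_lit 242) (nat_lit 677582129327628554816555040)) (.cons (.br (nat_lit 12) (nat_lit 1) (.cons (.ev (nat_lit 20361637770906820046082482897153) (nat_lit 1)) (.cons (.rf (nat_lit 246) (nat_lit 646192708113796371554)) .nil))) (.cons (.br (nat_lit 12) (nat_lit 1) (.cons (.rf (nat_lit 239) (nat_lit 661400239294163780242497)) (.cons (.br (nat_lit 13) (nat_lit 1) (.cons (.ev (nat_lit 681920004929131947476778341235956122881) (nat_lit 3)) .nil)) (.cons (.br (nat_lit 13) (nat_lit 1) (.cons (.zr (nat_lit 681893961996428861763894716606160306437) (nat_lit 15576890575614001405533523150110720)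 (nat_lit 8) (nat_lit 0)) .nil)) .nil)))) .nil))))),
 (.br (nat_lit 5) (nat_lit 1) (.cons (.rf (nat_lit 235) (nat_lit 583706118939841765935136)) (.cons (.rf (nat_lit 235) (nat_lit 583670343436216981096480)) (.cons (.rf (nat_lit 236) (nat_lit 583706118939841765935136)) (.cons (.rf (nat_lit 236) (nat_lit 583670343436216981096480)) (.cons (.br (nat_lit 6) (nat_lit 1) (.cons (.rf (nat_lit 235) (nat_lit 583706118939840725716000)) (.cons (.rf (nat_lit 235) (nat_lit 583670343436215940877344)) (.cons (.rf (nat_lit 236) (nat_lit 583706118939840725716000)) (.cons (.rf (nat_lit 236) (nat_lit 583670343436215940877344)) (.cons (.br (nat_lit 8) (nat_lit 1) (.cons (.br (nat_lit 12) (nat_lit 1) (.cons (.ev (nat_lit 1334420451410479109507560936786887425) (nat_lit 2)) (.cons (.zr (nat_lit 158767018964241692479059002113) (nat_lit 681899154134520377664175040589039927296) (nat_lit 8) (nat_lit 1)) (.cons (.br (nat_lit 13) (nat_lit 1) (.cons (.zr (nat_lit 40565129901239053865186473673473) (nat_lit 681899154134520387072014518180911251456) (nat_lit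 8) (nat_lit 1)) (.cons (.ev (nat_lit 20361948460101647778837027619073) (nat_lit 1)) .nil))) .nil)))) (.cons (.ev (nat_lit 1334420452031857572950002740714537729) (nat_lit 2)) (.cons (.rf (nat_lit 237) (nat_lit 19926519232773908561233952)) (.cons (.rf (nat_lit 238) (nat_lit 19926519232773908561233952)) (.cons (.br (nat_lit 9) (nat_lit 1) (.cons (.rf (nat_lit 237) (nat_lit 19926483457270283776395296)) (.cons (.ev (nat_lit 1334460858394749255601653040000533249) (nat_lit 2)) (.cons (.rf (nat_lit 238) (nat_lit 19926483457270283776395296)) (.cons (.br (nat_lit 17) (nat_lit 1) (.cons (.ev (nat_lit 174225916668407166934835818296245517025539) (nat_lit 2)) (.cons (.ev (nat_lit 174225916668407783477595982279532745851139) (nat_lit 2)) (.cons (.ev (nat_lit 87453902718974139254723447689793444577280) (nat_lit 1)) .nil)))) .nil))))) .nil)))))) (.cons (.br (nat_lit 8) (nat_lit 1) (.cons (.br (nat_lit 12) (nat_lit 1) (.cons (.kr (nat_lit 20282409603670117168020960837632) (nat_lit 79228167236630820463189164032) (nat_lit 8) (nat_lit 0)) (.cons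 (.rf (nat_lit 240) (nat_lit 21174442659472880612543553)) (.cons (.rf (nat_lit 240) (nat_lit 20003295771721208567040097)) .nil)))) (.cons (.rf (nat_lit 242) (nat_lit 677582165103132179601393696)) (.cons (.rf (nat_lit 245) (nat_lit 677582165103132179601393696)) (.cons (.rf (nat_lit 247) (nat_lit 677582165103132179601393696)) (.cons (.rf (nat_lit 247) (nat_lit 640105464695078674145283104)) .nil)))))) .nil))))))) .nil))))))]

theorem c10 : chkAll C T R L10 (nat_lit 218) = true := by decide +kernel

theorem l10 : (nat_lit 218) + L10.length = (nat_lit 249) := by decide +kernel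

/-- part of the certificates -/
def L11 : List Prf := [(.br (nat_lit 5) (nat_lit 1) (.cons (.br (nat_lit 15) (nat_lit 1) (.cons (.ev (nat_lit 344270091552652483779814708586383213312) (nat_lit 2)) .nil)) .nil)),
 (.br (nat_lit 8) (nat_lit 1) (.cons (.rf (nat_lit 119) (nat_lit 16673468158177)) (.cons (.rf (nat_lit 119) (nat_lit 6025914978529)) (.cons (.br (nat_lit 5) (nat_lit 1) (.cons (.rf (nat_lit 249) (nat_lit 19926519232773908561233952)) (.cons (.br (nat_lit 5) (nat_lit 1) (.cons (.rf (nat_lit 249) (nat_lit 19926519232773908561233952)) .nil)) .nil))) .nil)))),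
 (.br (nat_lit 6) (nat_lit 1) (.cons (.br (nat_lit 16) (nat_lit 1) (.cons (.ev (nat_lit 88133143437479035847632709515501201588226) (nat_lit 2)) .nil)) .nil)),
 (.br (nat_lit 5) (nat_lit 1) (.cons (.rf (nat_lit 102) (nat_lit 15777697961186)) (.cons (.rf (nat_lit 102) (nat_lit 15743338255586)) (.cons (.ev (nat_lit 20361637770906747989587956662528) (nat_lit 1)) (.cons (.br (nat_lit 10) (nat_lit 1) (.cons (.rf (nat_lit 40) (nat_lit 15640295451690)) (.cons (.br (nat_lit 11) (nat_lit 1) (.cons (.ev (nat_lit 20361948460101575721238694723584) (nat_lit 1)) (.cons (.ev (nat_lit 40723588648896856430431443157760) (nat_lit 2)) .nil))) (.cons (.br (nat_lit 11) (nat_lit 1) (.cons (.kr (nat_lit 309485028268090241945960704) (nat_lit 1213648186097503114952704) (nat_lit 1) (nat_lit 0)) (.cons (.ev (nat_lit 20361948460101575721238694723584) (nat_lit 1)) .nil))) .nil)))) .nil))))),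
 (.br (nat_lit 14) (nat_lit 1) (.cons (.kr (nat_lit 1329228075013078387240203347373850880) (nat_lit 5192297168019855896619643058585600) (nat_lit 1) (nat_lit 0)) .nil)),
 (.br (nat_lit 6) (nat_lit 1) (.cons (.ev (nat_lit 1334420452031857573094115729767269123) (nat_lit 2)) (.cons (.ev (nat_lit 20361948460101647778837027619073) (nat_lit 1)) (.cons (.ev (nat_lit 1334420452031857572950002740714537729) (nat_lit 2)) (.cons (.br (nat_lit 9) (nat_lit 1) (.cons (.rf (nat_lit 40) (nat_lit 18013299520585)) (.cons (.br (nat_lit 13) (nat_lit 1) (.cons (.ev (nat_lit 681899235422930656346360480136637579523) (nat_lit 3)) (.cons (.br (nat_lit 16) (nat_lit 1) (.cons (.ev (nat_lit 340287579500207815609306403447878189056) (nat_lit 1)) .nil)) .nil))) (.cons (.br (nat_lit 13) (nat_lit 1) (.cons (.rf (nat_lit 253) (nat_lit 661663249507859215551553)) (.cons (.ev (nat_lit 87113615159835569210020889273734499664128) (nat_lit 1)) .nil))) .nil)))) .nil))))),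
 (.br (nat_lit 15) (nat_lit 1) (.cons (.kr (nat_lit 1329228075013087850347855566335901952) (nat_lit 340282366921250366324907239357175365632) (nat_lit 1) (nat_lit 0)) .nil)),
 (.br (nat_lit 6) (nat_lit 1) (.cons (.rf (nat_lit 102) (nat_lit 18013263141155)) (.cons (.ev (nat_lit 20361948460101647778837027619073) (nat_lit 1)) (.cons (.br (nat_lit 9) (nat_lit 1) (.cons (.ev (nat_lit 1365695927026554206454708867663398661) (nat_lit 3)) (.cons (.ev (nat_lit 341611615199442472738655468049712283905) (nat_lit 1)) (.cons (.br (nat_lit 16) (nat_lit 1) (.cons (.ev (nat_lit 1365695927026554206598821856716130051) (nat_lit 3)) (.cons (.ev (nat_lit 341611615199442472738583411555186049280) (nat_lit 1)) .nil))) .nil)))) (.cons (.br (nat_lit 9) (nat_lit 1) (.cons (.rf (nat_lit 40) (nat_lit 18047659257929)) (.cons (.br (nat_lit 12) (nat_lit 1) (.cons (.ev (nat_lit 681909579452442653014496811866424082689) (nat_lit 2)) (.cons (.rf (nat_lit 255) (nat_lit 21174442659472880612543553)) .nil))) (.cons (.br (nat_lit 17) (nat_lit 1) (.cons (.zr (nat_lit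 158767018964241692479059002113) (nat_lit 174225906283813136743985224830790827769856) (nat_lit 8) (nat_lit 1)) (.cons (.ev (nat_lit 174225916668407783477595982279532745851139) (nat_lit 2)) .nil))) .nil)))) .nil))))),
 (.br (nat_lit 11) (nat_lit 1) (.cons (.ev (nat_lit 79538861172271781264895312128) (nat_lit 1)) (.cons (.kr (nat_lit 79228167236631101938165940224) (nat_lit 310693935640960797427892224) (nat_lit 2) (nat_lit 0)) .nil))),
 (.br (nat_lit 14) (nat_lit 1) (.cons (.kr (nat_lit 1329228075013078387240203347373850880) (nat_lit 5192297168019855896619643058585600) (nat_lit 1) (nat_lit 0)) .nil)),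
 (.br (nat_lit 6) (nat_lit 1) (.cons (.ev (nat_lit 72340172838076673) (nat_lit 1)) (.cons (.ev (nat_lit 1334420452031857572950002740714537729) (nat_lit 2)) (.cons (.rf (nat_lit 256) (nat_lit 19926519232773908561233952)) (.cons (.br (nat_lit 9) (nat_lit 1) (.cons (.br (nat_lit 13) (nat_lit 1) (.cons (.ev (nat_lit 20361948460101575722342501384448) (nat_lit 1)) (.cons (.ev (nat_lit 20521023755149892047284356710914) (nat_lit 2)) .nil))) (.cons (.rf (nat_lit 257) (nat_lit 21174442659472879504164896)) (.cons (.br (nat_lit 12) (nat_lit 1) (.cons (.ev (nat_lit 681920004927272610010653498394657555715) (nat_lit 3)) (.cons (.rf (nat_lit 246) (nat_lit 633510571563081220201)) .nil))) (.cons (.br (nat_lit 12) (nat_lit 1) (.cons (.rf (nat_lit 258) (nat_lit 661663249507859215551553)) (.cons (.ev (nat_lit 681909538728550568514624388656630202625) (nat_lit 2)) (.cons (.zr (nat_lit 158767018964241692479059002113) (nat_lit 174225906283813136743985224830790827769856) (nat_lit 8) (nat_lit 1)) .nil)))) .nil))))) .nil))))),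
 (.br (nat_lit 5) (nat_lit 1) (.cons (.rf (nat_lit 248) (nat_lit 583706118939841765935136)) (.cons (.kr (nat_lit 1099511627777) (nat_lit 72057594037993472) (nat_lit 0) (nat_lit 1)) (.cons (.br (nat_lit 13) (nat_lit 1) (.cons (.ev (nat_lit 1334460857773351976623808290486223619) (nat_lit 2)) (.cons (.ev (nat_lit 20361637770906747989587956662528) (nat_lit 1)) (.cons (.rf (nat_lit 250) (nat_lit 622703726024184642538561)) .nil)))) (.cons (.br (nat_lit 9) (nat_lit 1) (.cons (.ev (nat_lit 1334460858394749255745205278156522243) (nat_lit 2)) (.cons (.ev (nat_lit 20361637770906747989587956662528) (nat_lit 1)) (.cons (.br (nat_lit 12) (nat_lit 1) (.cons (.rf (nat_lit 119) (nat_lit 17811534943490)) (.cons (.rf (nat_lit 119) (nat_lit 7159821014274)) (.cons (.br (nat_lit 6) (nat_lit 1) (.cons (.rf (nat_lit 251) (nat_lit 677582165103132179601393696)) (.cons (.br (nat_lit 6) (nat_lit 1) (.cons (.rf (nat_lit 251) (nat_lit 677582165103132179601393696)) .nil)) .nil))) .nil)))) .nil)))) (.cons (.br (nat_lit 6) (nat_lit 1) (.cons (.rf (nat_lit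 252) (nat_lit 19459491438255735442497)) (.cons (.rf (nat_lit 254) (nat_lit 19926519232773908561233952)) (.cons (.rf (nat_lit 256) (nat_lit 19926519232773908561233952)) (.cons (.rf (nat_lit 259) (nat_lit 19926519232773908561233952)) (.cons (.br (nat_lit 6) (nat_lit 1) (.cons (.rf (nat_lit 252) (nat_lit 19459491438255735442497)) (.cons (.rf (nat_lit 254) (nat_lit 19926519232773908561233952)) (.cons (.rf (nat_lit 256) (nat_lit 19926519232773908561233952)) (.cons (.rf (nat_lit 259) (nat_lit 19926519232773908561233952)) .nil))))) .nil)))))) .nil)))))),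
 (.br (nat_lit 6) (nat_lit 1) (.cons (.rf (nat_lit 102) (nat_lit 17914478893315)) (.cons (.ev (nat_lit 1334420451410479109651673925839618819) (nat_lit 2)) (.cons (.br (nat_lit 8) (nat_lit 1) (.cons (.ev (nat_lit 310698676526526814092329217) (nat_lit 1)) (.cons (.ev (nat_lit 1344927056500229249864717611670307587) (nat_lit 3)) (.cons (.br (nat_lit 9) (nat_lit 1) (.cons (.ev (nat_lit 1344927057116809641386050515487687427) (nat_lit 3)) (.cons (.kr (nat_lit 1213648186378973796696064) (nat_lit 309485028268090241962737664) (nat_lit 2) (nat_lit 0)) .nil))) .nil)))) (.cons (.br (nat_lit 8) (nat_lit 1) (.cons (.rf (nat_lit 40) (nat_lit 18051954222152)) (.cons (.br (nat_lit 9) (nat_lit 1) (.cons (.ev (nat_lit 1344927058359566568269803825322263299) (nat_lit 3)) (.cons (.ev (nat_lit 1344927056191957869783006343504265987) (nat_lit 3)) .nil))) (.cons (.br (nat_lit 9) (nat_lit 1) (.cons (.kr (nat_lit 1213648186378973796696064) (nat_lit 309485028268090241962737664) (nat_lit 2) (nat_lit 0)) (.cons (.ev (nat_lit 1344927057743023808106381288990180099)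 (nat_lit 3)) .nil))) .nil)))) .nil))))),
 (.br (nat_lit 6) (nat_lit 1) (.cons (.ev (nat_lit 1334420452031857572950002740714537729) (nat_lit 2)) (.cons (.rf (nat_lit 260) (nat_lit 583670343436215940877344)) (.cons (.rf (nat_lit 261) (nat_lit 19926519232773908561233952)) (.cons (.br (nat_lit 9) (nat_lit 1) (.cons (.br (nat_lit 13) (nat_lit 1) (.cons (.zr (nat_lit 40565129901239053865186473673473) (nat_lit 681899154134520387072014518180911251456) (nat_lit 8) (nat_lit 1)) (.cons (.rf (nat_lit 258) (nat_lit 661400239294163780242497)) .nil))) (.cons (.rf (nat_lit 257) (nat_lit 21174179649259176552663072)) (.cons (.br (nat_lit 8) (nat_lit 1) (.cons (.ev (nat_lit 310698676454187745060913408) (nat_lit 1)) (.cons (.br (nat_lit 13) (nat_lit 1) (.cons (.zr (nat_lit 681894002402791744038706889313574977797) (nat_lit 15576890575623409245011115021434880) (nat_lit 8) (nat_lit 0)) .nil)) .nil))) (.cons (.br (nat_lit 17) (nat_lit 1) (.cons (.br (nat_lit 13) (nat_lit 1) (.cons (.ev (nat_lit 681909538729167111274788371943859028225) (nat_lit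 2)) .nil)) (.cons (.ev (nat_lit 174225906365101547022667410270338425422083) (nat_lit 3)) (.cons (.ev (nat_lit 681909538728550568514623827905733460225) (nat_lit 2)) .nil)))) .nil))))) .nil))))),
 (.br (nat_lit 5) (nat_lit 1) (.cons (.rf (nat_lit 248) (nat_lit 583706118939841765935136)) (.cons (.rf (nat_lit 260) (nat_lit 583706118939841765935136)) (.cons (.rf (nat_lit 260) (nat_lit 583670343436216981096480)) (.cons (.ev (nat_lit 20361948460101647778837027619073) (nat_lit 1)) (.cons (.br (nat_lit 6) (nat_lit 1) (.cons (.rf (nat_lit 260) (nat_lit 583706118939840725716000)) (.cons (.rf (nat_lit 260) (nat_lit 583670343436215940877344)) (.cons (.rf (nat_lit 261) (nat_lit 19926519232773908561233952)) (.cons (.rf (nat_lit 262) (nat_lit 19926519232773908561233952)) (.cons (.br (nat_lit 6) (nat_lit 1) (.cons (.rf (nat_lit 260) (nat_lit 583706118939840725716000)) (.cons (.rf (nat_lit 260) (nat_lit 583670343436215940877344)) (.cons (.rf (nat_lit 261) (nat_lit 19926519232773908561233952)) (.cons (.rf (nat_lit 262) (nat_lit 19926519232773908561233952))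 .nil))))) .nil)))))) .nil)))))),
 (.br (nat_lit 6) (nat_lit 1) (.cons (.rf (nat_lit 260) (nat_lit 583706118939840725716000)) (.cons (.rf (nat_lit 260) (nat_lit 583670343436215940877344)) (.cons (.rf (nat_lit 263) (nat_lit 583706118939840725716000)) (.cons (.rf (nat_lit 263) (nat_lit 583670343436215940877344)) (.cons (.kr (nat_lit 281474976776192) (nat_lit 1099528404992) (nat_lit 2) (nat_lit 0)) .nil)))))),
 (.br (nat_lit 9) (nat_lit 1) (.cons (.br (nat_lit 10) (nat_lit 1) (.cons (.kr (nat_lit 4722366482869645213696) (nat_lit 1208925819614629174706176) (nat_lit 9) (nat_lit 0)) .nil)) .nil)),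
 (.br (nat_lit 10) (nat_lit 0) (.cons (.br (nat_lit 10) (nat_lit 0) (.cons (.br (nat_lit 11) (nat_lit 0) (.cons (.rf (nat_lit 265) (nat_lit 13909140160252993)) .nil)) .nil)) .nil)),
 (.br (nat_lit 12) (nat_lit 1) (.cons (.ev (nat_lit 618974760528539836703834881) (nat_lit 2)) (.cons (.rf (nat_lit 266) (nat_lit 15035040064964640)) (.cons (.br (nat_lit 12) (nat_lit 1) (.cons (.ev (nat_lit 618974760528539836703834881) (nat_lit 2)) (.cons (.rf (nat_lit 266) (nat_lit 16160939971807264)) .nil))) .nil)))),
 (.br (nat_lit 6) (nat_lit 1) (.cons (.br (nat_lit 12) (nat_lit 1) (.cons (.zr (nat_lit 1237940039285384673012744963) (nat_lit 158458747621053751954258395136) (nat_lit 8) (nat_lit 1)) (.cons (.rf (nat_lit 266) (nat_lit 16160939971807264)) .nil))) (.cons (.rf (nat_lit 266) (nat_lit 16160939971807264)) .nil))),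
 (.br (nat_lit 11) (nat_lit 1) (.cons (.ev (nat_lit 310698676526245334803873793) (nat_lit 1)) (.cons (.br (nat_lit 6) (nat_lit 1) (.cons (.ev (nat_lit 4840444309549295346123011) (nat_lit 3)) (.cons (.rf (nat_lit 266) (nat_lit 13909140158122016)) (.cons (.br (nat_lit 12) (nat_lit 1) (.cons (.ev (nat_lit 621392612312449423549530371) (nat_lit 3)) (.cons (.rf (nat_lit 266) (nat_lit 15035040064964640)) (.cons (.br (nat_lit 12) (nat_lit 1) (.cons (.ev (nat_lit 621392612312449423549530371) (nat_lit 3)) (.cons (.rf (nat_lit 266) (nat_lit 16160939971807264)) .nil))) .nil)))) .nil)))) (.cons (.rf (nat_lit 93) (nat_lit 412429575)) (.cons (.br (nat_lit 5) (nat_lit 1) (.cons (.rf (nat_lit 267) (nat_lit 14242959524133701664)) (.cons (.rf (nat_lit 267) (nat_lit 7028009068574124295)) (.cons (.rf (nat_lit 266) (nat_lit 15035040064964640)) (.cons (.br (nat_lit 6) (nat_lit 1) (.cons (.rf (nat_lit 268) (nat_lit 493858305440582043680)) (.cons (.br (nat_lit 6) (nat_lit 1) (.cons (.rf (nat_lit 268) (nat_lit 493858305440582043680)) (.cons (.rf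 (nat_lit 266) (nat_lit 16160939971807264)) .nil))) (.cons (.rf (nat_lit 266) (nat_lit 16160939971807264)) .nil)))) .nil))))) .nil))))),
 (.br (nat_lit 6) (nat_lit 1) (.cons (.ev (nat_lit 79229371440156292395556733185) (nat_lit 1)) (.cons (.zr (nat_lit 621387871281919395866348293) (nat_lit 4741029964930279800832) (nat_lit 24) (nat_lit 1)) (.cons (.rf (nat_lit 266) (nat_lit 16160939971807264)) .nil)))),
 (.br (nat_lit 5) (nat_lit 1) (.cons (.rf (nat_lit 270) (nat_lit 493858305440582043680)) (.cons (.rf (nat_lit 270) (nat_lit 458082835900657666080)) (.cons (.rf (nat_lit 266) (nat_lit 16160939971807264)) .nil)))),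
 (.br (nat_lit 5) (nat_lit 1) (.cons (.rf (nat_lit 271) (nat_lit 493858305440582043680)) (.cons (.br (nat_lit 6) (nat_lit 1) (.cons (.zr (nat_lit 623805722921148654182206215) (nat_lit 158456329769702192355490136064) (nat_lit 24) (nat_lit 1)) (.cons (.zr (nat_lit 1240357890924609533282355975) (nat_lit 40564819212044514365062904807424) (nat_lit 24) (nat_lit 1)) (.cons (.rf (nat_lit 266) (nat_lit 16160939971807264)) .nil)))) (.cons (.rf (nat_lit 266) (nat_lit 16160939971807264)) .nil)))),
 (.br (nat_lit 6) (nat_lit 1) (.cons (.ev (nat_lit 2663668570840402299401651438997340419) (nat_lit 2)) (.cons (.ev (nat_lit 1334420292643455441417903568995745793) (nat_lit 1)) (.cons (.ev (nat_lit 1329248278194524265459797019917811713) (nat_lit 1)) (.cons (.br (nat_lit 10) (nat_lit 1) (.cons (.rf (nat_lit 12) (nat_lit 18007931202634)) (.cons (.rf (nat_lit 12) (nat_lit 17973571465290)) (.cons (.br (nat_lit 11) (nat_lit 1) (.cons (.ev (nat_lit 5213056496455698253943935678546693) (nat_lit 3)) (.cons (.ev (nat_lit 680569986985964286931901318579970244865)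 (nat_lit 2)) (.cons (.br (nat_lit 12) (nat_lit 1) (.cons (.ev (nat_lit 680569986985964277450418979889926505219) (nat_lit 2)) (.cons (.br (nat_lit 16) (nat_lit 1) (.cons (.zr (nat_lit 159082548603089055298676067081) (nat_lit 1361134680263021997074115577278061608960) (nat_lit 24) (nat_lit 1)) .nil)) .nil))) .nil)))) (.cons (.br (nat_lit 11) (nat_lit 1) (.cons (.rf (nat_lit 12) (nat_lit 17939211726923)) (.cons (.br (nat_lit 12) (nat_lit 1) (.cons (.ev (nat_lit 341611594996261026860436437327155364097) (nat_lit 1)) (.cons (.zr (nat_lit 15637737806833289608713133082542849) (nat_lit 5316912142214963280599822729511698432) (nat_lit 8) (nat_lit 1)) .nil))) (.cons (.br (nat_lit 12) (nat_lit 1) (.cons (.zr (nat_lit 15637737806833289608713133082542849) (nat_lit 5316912142214963280599822729511698432) (nat_lit 8) (nat_lit 1)) (.cons (.ev (nat_lit 87112285931760247860290532344105191604224) (nat_lit 1)) .nil))) .nil)))) .nil))))) .nil))))),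
 (.br (nat_lit 6) (nat_lit 1) (.cons (.ev (nat_lit 1334420292643455441417903568995745793) (nat_lit 1)) (.cons (.ev (nat_lit 2663668570840402299401651438997340419) (nat_lit 2)) (.cons (.ev (nat_lit 4740885566012386181121) (nat_lit 1)) (.cons (.br (nat_lit 5) (nat_lit 1) (.cons (.rf (nat_lit 102) (nat_lit 18016519034178)) (.cons (.rf (nat_lit 102) (nat_lit 17947799557506)) (.cons (.br (nat_lit 10) (nat_lit 1) (.cons (.ev (nat_lit 2663709294732477317504631482435502849) (nat_lit 2)) (.cons (.ev (nat_lit 680569986985964286931901318579970244865) (nat_lit 2)) (.cons (.br (nat_lit 12) (nat_lit 1) (.cons (.ev (nat_lit 341611594996261026860436437327155364097) (nat_lit 1)) (.cons (.zr (nat_lit 15597172987625986267865238579970817) (nat_lit 2658456150645131534792208608951009280) (nat_lit 8) (nat_lit 1)) .nil))) .nil)))) (.cons (.br (nat_lit 10) (nat_lit 1) (.cons (.rf (nat_lit 40) (nat_lit 19085967601738)) (.cons (.br (nat_lit 12) (nat_lit 1) (.cons (.ev (nat_lit 683228402412714901892885746115984622339) (nat_lit 2)) (.cons (.br (nat_lit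 16) (nat_lit 1) (.cons (.zr (nat_lit 20441492152254759479245927353097) (nat_lit 1363793115972182225168252767451371012096) (nat_lit 24) (nat_lit 1)) .nil)) .nil))) (.cons (.br (nat_lit 12) (nat_lit 1) (.cons (.zr (nat_lit 15597172987625986267865238579970817) (nat_lit 2658456150645131534792208608951009280) (nat_lit 8) (nat_lit 1)) (.cons (.ev (nat_lit 87113615180038442379815106575112723234816) (nat_lit 1)) .nil))) .nil)))) .nil))))) .nil)))))]

theorem c11 : chkAll C T R L11 (nat_lit 249) = true := by decide +kernel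

theorem l11 : (nat_lit 249) + L11.length = (nat_lit 275) := by decide +kernel

/-- part of the certificates -/
def L12 : List Prf := [(.br (nat_lit 11) (nat_lit 1) (.cons (.ev (nat_lit 5212658806999651570735708475818240) (nat_lit 1)) (.cons (.kr (nat_lit 20361637770888301525885417226240) (nat_lit 5192297169228763269491293757112320) (nat_lit 2) (nat_lit 0)) .nil))),
 (.br (nat_lit 10) (nat_lit 1) (.cons (.ev (nat_lit 2663668570840402299401651438997340419) (nat_lit 2)) (.cons (.ev (nat_lit 1334440654591915542993344432208674817) (nat_lit 1)) (.cons (.rf (nat_lit 250) (nat_lit 613034135193549869812801)) .nil)))),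
 (.br (nat_lit 11) (nat_lit 1) (.cons (.ev (nat_lit 20282720302309677867618602647808) (nat_lit 1)) (.cons (.kr (nat_lit 20282409608374037188291873275904) (nat_lit 310693935640960797427892224) (nat_lit 2) (nat_lit 0)) .nil))),
 (.br (nat_lit 10) (nat_lit 1) (.cons (.kr (nat_lit 1329248278194519543020976180752810240) (nat_lit 5192296859748475814627999444172800) (nat_lit 1) (nat_lit 0)) .nil)),
 (.br (nat_lit 10) (nat_lit 1) (.cons (.kr (nat_lit 5192455314859874603950856638300416) (nat_lit 1329248278195733172760328510646583296) (nat_lit 1) (nat_lit 0)) .nil)),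
 (.br (nat_lit 10) (nat_lit 1) (.cons (.rf (nat_lit 277) (nat_lit 21174442659472879504164896)) (.cons (.rf (nat_lit 277) (nat_lit 21174406884002274427897888)) (.cons (.br (nat_lit 11) (nat_lit 1) (.cons (.ev (nat_lit 2041699414582129654329995013746667553543) (nat_lit 3)) (.cons (.rf (nat_lit 278) (nat_lit 661701333108527484505153)) .nil))) (.cons (.br (nat_lit 16) (nat_lit 1) (.cons (.rf (nat_lit 279) (nat_lit 661701333108527484505153)) (.cons (.rf (nat_lit 279) (nat_lit 661700215125071075871809)) (.cons (.ev (nat_lit 174227235532091331277695417875007816204545) (nat_lit 2)) .nil)))) .nil))))),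
 (.br (nat_lit 6) (nat_lit 1) (.cons (.rf (nat_lit 273) (nat_lit 583706118939841765935136)) (.cons (.ev (nat_lit 2663668570840402299401651438997340419) (nat_lit 2)) (.cons (.rf (nat_lit 274) (nat_lit 583706118939841765935136)) (.cons (.rf (nat_lit 274) (nat_lit 582561303880479325390880)) (.cons (.br (nat_lit 6) (nat_lit 1) (.cons (.rf (nat_lit 273) (nat_lit 583706118939841765935136)) (.cons (.ev (nat_lit 2663668570840402299401651438997340419) (nat_lit 2)) (.cons (.rf (nat_lit 274) (nat_lit 583706118939841765935136)) (.cons (.rf (nat_lit 274) (nat_lit 582561303880479325390880)) (.cons (.br (nat_lit 5) (nat_lit 1) (.cons (.br (nat_lit 11) (nat_lit 1) (.cons (.ev (nat_lit 1334440654591915542993344432208674817) (nat_lit 1)) (.cons (.rf (nat_lit 275) (nat_lit 21174442659472879504164896)) (.cons (.rf (nat_lit 275) (nat_lit 20003295771721207491168288)) .nil)))) (.cons (.rf (nat_lit 276) (nat_lit 583706118939841765935136)) (.cons (.rf (nat_lit 276) (nat_lit 582561303880479325390880)) (.cons (.rf (nat_lit 280) (nat_lit 677582165103132179601393696))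 (.cons (.rf (nat_lit 280) (nat_lit 640105464695078675185502240)) .nil)))))) .nil)))))) .nil)))))),
 (.br (nat_lit 16) (nat_lit 1) (.cons (.ev (nat_lit 680569946580222792528370504517457805569) (nat_lit 2)) .nil)),
 (.br (nat_lit 12) (nat_lit 1) (.cons (.ev (nat_lit 4740885285636904386561) (nat_lit 1)) (.cons (.ev (nat_lit 5322124721485538575295315164203975943) (nat_lit 3)) (.cons (.br (nat_lit 5) (nat_lit 1) (.cons (.rf (nat_lit 68) (nat_lit 17804119358538)) (.cons (.rf (nat_lit 68) (nat_lit 7152307911754)) (.cons (.br (nat_lit 6) (nat_lit 1) (.cons (.rf (nat_lit 282) (nat_lit 677582165103132179601393696)) (.cons (.br (nat_lit 6) (nat_lit 1) (.cons (.rf (nat_lit 282) (nat_lit 677582165103132179601393696)) .nil)) .nil))) .nil)))) .nil)))),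
 (.br (nat_lit 5) (nat_lit 1) (.cons (.br (nat_lit 6) (nat_lit 1) (.cons (.kr (nat_lit 79538856449905579865931776002) (nat_lit 87453897526676970025960322032212803387392) (nat_lit 0) (nat_lit 1)) .nil)) .nil)),
 (.br (nat_lit 6) (nat_lit 1) (.cons (.ev (nat_lit 1363793217384230271871051905456781920001) (nat_lit 3)) (.cons (.zr (nat_lit 159077712899810594582954248965) (nat_lit 5212579268143220328919373860306944) (nat_lit 24) (nat_lit 1)) .nil))),
 (.br (nat_lit 5) (nat_lit 1) (.cons (.rf (nat_lit 285) (nat_lit 677582165103132179601393696)) (.cons (.rf (nat_lit 285) (nat_lit 640104319880019312744957984)) .nil))),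
 (.br (nat_lit 5) (nat_lit 1) (.cons (.rf (nat_lit 286) (nat_lit 677582165103132179601393696)) (.cons (.ev (nat_lit 1329228075323777063694389988628168705) (nat_lit 1)) .nil))),
 (.br (nat_lit 13) (nat_lit 1) (.cons (.ev (nat_lit 20282410817318303548094269095936) (nat_lit 1)) .nil)),
 (.br (nat_lit 6) (nat_lit 1) (.cons (.ev (nat_lit 5334273730629278653402794548266757) (nat_lit 3)) (.cons (.ev (nat_lit 5334273730600833631047422434345219) (nat_lit 3)) (.cons (.ev (nat_lit 7980580553982502606053701472722618117) (nat_lit 3)) (.cons (.br (nat_lit 11) (nat_lit 1) (.cons (.rf (nat_lit 12) (nat_lit 19210521882699)) (.cons (.br (nat_lit 12) (nat_lit 1) (.cons (.ev (nat_lit 341611594996261026860436154752650182913) (nat_lit 1)) (.cons (.rf (nat_lit 288) (nat_lit 20678166659641484973154)) .nil))) (.cons (.br (nat_lit 12) (nat_lit 1) (.cons (.rf (nat_lit 288) (nat_lit 20678131722658472203362)) (.cons (.ev (nat_lit 87112285931760247860290532626679696785408) (nat_lit 1)) .nil))) .nil)))) .nil))))),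
 (.br (nat_lit 14) (nat_lit 1) (.cons (.kr (nat_lit 1329227996403885910993242370951086336) (nat_lit 5212579269352127485051946695458816) (nat_lit 1) (nat_lit 0)) .nil)),
 (.br (nat_lit 6) (nat_lit 1) (.cons (.ev (nat_lit 5334273730629278654524296475444997) (nat_lit 3)) (.cons (.rf (nat_lit 130) (nat_lit 17952295556450)) (.cons (.br (nat_lit 12) (nat_lit 1) (.cons (.ev (nat_lit 2663668570840392817631647521744880385) (nat_lit 2)) (.cons (.ev (nat_lit 341616807575529170080476561115757740032) (nat_lit 1)) (.cons (.br (nat_lit 16) (nat_lit 1) (.cons (.ev (nat_lit 5253144089777856935450361882214659) (nat_lit 2)) (.cons (.ev (nat_lit 340282387282885719379944223559148175360) (nat_lit 1)) .nil))) .nil)))) (.cons (.br (nat_lit 10) (nat_lit 1) (.cons (.rf (nat_lit 12) (nat_lit 19210521915466)) (.cons (.br (nat_lit 12) (nat_lit 1) (.cons (.ev (nat_lit 2041699414582129654329995013746667553543) (nat_lit 3)) (.cons (.rf (nat_lit 290) (nat_lit 661701333108527484505153)) .nil))) (.cons (.ev (nat_lit 5253144089777856935450361882214659) (nat_lit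 2)) .nil)))) .nil))))),
 (.br (nat_lit 12) (nat_lit 1) (.cons (.ev (nat_lit 2049674823121658356870758704002852193031) (nat_lit 3)) (.cons (.rf (nat_lit 239) (nat_lit 661662202527702632762433)) .nil))),
 (.br (nat_lit 10) (nat_lit 1) (.cons (.kr (nat_lit 1329248278194519543020976180752810240) (nat_lit 5192296859748475814627999444172800) (nat_lit 1) (nat_lit 0)) .nil)),
 (.br (nat_lit 6) (nat_lit 1) (.cons (.ev (nat_lit 7980580553982502606054822974649796357) (nat_lit 3)) (.cons (.rf (nat_lit 291) (nat_lit 19926519232773907521014816)) (.cons (.rf (nat_lit 291) (nat_lit 19925374417714545080470560)) (.cons (.br (nat_lit 10) (nat_lit 1) (.cons (.ev (nat_lit 5253144089777856935450361882214659) (nat_lit 2)) (.cons (.ev (nat_lit 5253144089768375164881295686763265) (nat_lit 2)) (.cons (.br (nat_lit 11) (nat_lit 1) (.cons (.ev (nat_lit 341611594996261026860436437327155364097) (nat_lit 1)) (.cons (.br (nat_lit 12) (nat_lit 1) (.cons (.ev (nat_lit 341616807575529165339735391770735870209) (nat_lit 1)) .nil)) .nil))) .nil)))) (.cons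 (.br (nat_lit 10) (nat_lit 1) (.cons (.rf (nat_lit 292) (nat_lit 677582165103132179601393696)) (.cons (.rf (nat_lit 292) (nat_lit 677581020288072817160849440)) (.cons (.br (nat_lit 11) (nat_lit 1) (.cons (.ev (nat_lit 2041699414582129654329995013746667553543) (nat_lit 3)) (.cons (.rf (nat_lit 293) (nat_lit 661701333108527484505153)) .nil))) (.cons (.ev (nat_lit 2663668570840402299402216587940331779) (nat_lit 2)) .nil))))) .nil)))))),
 (.br (nat_lit 5) (nat_lit 1) (.cons (.rf (nat_lit 289) (nat_lit 19926519232773908561233952)) (.cons (.rf (nat_lit 291) (nat_lit 19926519232773908561233952)) (.cons (.rf (nat_lit 291) (nat_lit 19925374417714546120689696)) (.cons (.rf (nat_lit 294) (nat_lit 19926519232773908561233952)) (.cons (.br (nat_lit 6) (nat_lit 1) (.cons (.rf (nat_lit 289) (nat_lit 19926519232773907521014816)) (.cons (.rf (nat_lit 291) (nat_lit 19926519232773907521014816)) (.cons (.rf (nat_lit 291) (nat_lit 19925374417714545080470560)) (.cons (.rf (nat_lit 294) (nat_lit 19926519232773907521014816)) (.cons (.br (nat_lit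 10) (nat_lit 1) (.cons (.ev (nat_lit 5253144089777856935450361882214659) (nat_lit 2)) (.cons (.ev (nat_lit 5253144089768375164881295686763265) (nat_lit 2)) (.cons (.ev (nat_lit 2663668570840402299402216587940331779) (nat_lit 2)) (.cons (.ev (nat_lit 87112291144339515998769831581123277291520) (nat_lit 1)) .nil))))) .nil)))))) .nil)))))),
 (.br (nat_lit 5) (nat_lit 1) (.cons (.br (nat_lit 14) (nat_lit 1) (.cons (.kr (nat_lit 1329227996403885910993242370951086336) (nat_lit 5212579269352127485051946695458816) (nat_lit 1) (nat_lit 0)) .nil)) .nil)),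
 (.br (nat_lit 10) (nat_lit 1) (.cons (.rf (nat_lit 119) (nat_lit 15576137502977)) (.cons (.rf (nat_lit 119) (nat_lit 5992631013633)) (.cons (.br (nat_lit 5) (nat_lit 1) (.cons (.rf (nat_lit 296) (nat_lit 583706118939841765935136)) (.cons (.br (nat_lit 5) (nat_lit 1) (.cons (.rf (nat_lit 296) (nat_lit 583706118939841765935136)) .nil)) .nil))) .nil)))),
 (.br (nat_lit 6) (nat_lit 1) (.cons (.ev (nat_lit 4740885566012386181121) (nat_lit 1)) (.cons (.ev (nat_lit 1334420292643455441417903568995745793) (nat_lit 1)) (.cons (.br (nat_lit 12) (nat_lit 1) (.cons (.ev (nat_lit 2044357992268152272282834939012142072579) (nat_lit 3)) (.cons (.rf (nat_lit 253) (nat_lit 661628629144624369372225)) .nil))) .nil)))),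
 (.br (nat_lit 5) (nat_lit 1) (.cons (.kr (nat_lit 1329248278194519543020976180752810240) (nat_lit 5192296859748475814627999444172800) (nat_lit 1) (nat_lit 0)) .nil)),
 (.br (nat_lit 17) (nat_lit 1) (.cons (.ev (nat_lit 174224577116664580653252950548030861345025) (nat_lit 2)) (.cons (.ev (nat_lit 174224577116664580643771468209340817605379) (nat_lit 2)) (.cons (.ev (nat_lit 174227235532091331277695417314256919462145) (nat_lit 2)) .nil)))),
 (.br (nat_lit 6) (nat_lit 1) (.cons (.ev (nat_lit 4740885566012386181121) (nat_lit 1)) (.cons (.ev (nat_lit 1329248278194519524574512486820086016) (nat_lit 1)) (.cons (.rf (nat_lit 300) (nat_lit 677582165103132179601393696)) .nil)))),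
 (.br (nat_lit 5) (nat_lit 1) (.cons (.rf (nat_lit 295) (nat_lit 19926519232773908561233952)) (.cons (.rf (nat_lit 297) (nat_lit 19459491438255735442497)) (.cons (.rf (nat_lit 297) (nat_lit 19458373454799326809153)) (.cons (.br (nat_lit 11) (nat_lit 1) (.cons (.rf (nat_lit 298) (nat_lit 19926519232773908561233952)) (.cons (.rf (nat_lit 68) (nat_lit 7152311021643)) (.cons (.rf (nat_lit 130) (nat_lit 7013123233090)) (.cons (.br (nat_lit 12) (nat_lit 1) (.cons (.rf (nat_lit 298) (nat_lit 19925374417714546120689696)) (.cons (.rf (nat_lit 130) (nat_lit 6978764543298)) (.cons (.br (nat_lit 16) (nat_lit 1) (.cons (.rf (nat_lit 299) (nat_lit 661701333108527484505153)) (.cons (.ev (nat_lit 87453902739335777025630267454396639019009) (nat_lit 1)) .nil))) .nil)))) .nil))))) (.cons (.br (nat_lit 6) (nat_lit 1) (.cons (.rf (nat_lit 301) (nat_lit 677582165103132179601393696)) (.cons (.rf (nat_lit 301) (nat_lit 677581020288072817160849440)) (.cons (.br (nat_lit 6) (nat_lit 1) (.cons (.ev (nat_lit 1329248278194519524574512486820086016)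 (nat_lit 1)) (.cons (.ev (nat_lit 1334420292643450700532619035898020096) (nat_lit 1)) (.cons (.rf (nat_lit 300) (nat_lit 677582165103132179601393696)) .nil)))) (.cons (.rf (nat_lit 300) (nat_lit 677582165103132179601393696)) .nil))))) .nil)))))),
 (.br (nat_lit 5) (nat_lit 1) (.cons (.rf (nat_lit 295) (nat_lit 19926519232773908561233952)) (.cons (.rf (nat_lit 297) (nat_lit 19459491438255735442497)) (.cons (.ev (nat_lit 4740885285636904386561) (nat_lit 1)) (.cons (.ev (nat_lit 1334420292643455441417623193513951233) (nat_lit 1)) (.cons (.br (nat_lit 6) (nat_lit 1) (.cons (.rf (nat_lit 302) (nat_lit 19926519232773907521014816)) (.cons (.br (nat_lit 6) (nat_lit 1) (.cons (.rf (nat_lit 102) (nat_lit 19219075176771)) (.cons (.ev (nat_lit 1329248278194524265459797019917811713) (nat_lit 1)) (.cons (.kr (nat_lit 20282409603651670705422228062208) (nat_lit 5192296858534827628531595857625088) (nat_lit 2) (nat_lit 0)) .nil)))) (.cons (.br (nat_lit 6) (nat_lit 1) (.cons (.rf (nat_lit 302) (nat_lit 19926519232773907521014816)) (.cons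 (.ev (nat_lit 1329248278194524265459797019917811713) (nat_lit 1)) (.cons (.kr (nat_lit 20282409603651670705422228062208) (nat_lit 1329227995784915872903808159808749568) (nat_lit 2) (nat_lit 0)) .nil)))) (.cons (.br (nat_lit 6) (nat_lit 1) (.cons (.rf (nat_lit 302) (nat_lit 19926519232773907521014816)) (.cons (.kr (nat_lit 20282409603651670705422228062208) (nat_lit 5192296858534827628531595857625088) (nat_lit 2) (nat_lit 0)) (.cons (.kr (nat_lit 20282409603651670705422228062208) (nat_lit 1329227995784915872903808159808749568) (nat_lit 2) (nat_lit 0)) .nil)))) .nil))))) .nil))))))]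

theorem c12 : chkAll C T R L12 (nat_lit 275) = true := by decide +kernel

theorem l12 : (nat_lit 275) + L12.length = (nat_lit 304) := by decide +kernel

/-- part of the certificates -/
def L13 : List Prf := [(.br (nat_lit 5) (nat_lit 1) (.cons (.rf (nat_lit 295) (nat_lit 19926519232773908561233952)) (.cons (.rf (nat_lit 302) (nat_lit 19926519232773908561233952)) (.cons (.ev (nat_lit 1334420292643455441417623193513951233) (nat_lit 1)) (.cons (.ev (nat_lit 1329248278194524265459516644436017153) (nat_lit 1)) (.cons (.br (nat_lit 6) (nat_lit 1) (.cons (.rf (nat_lit 302) (nat_lit 19926519232773907521014816)) (.cons (.rf (nat_lit 303) (nat_lit 19926519232773907521014816)) (.cons (.rf (nat_lit 303) (nat_lit 19925374417714545080470560)) (.cons (.br (nat_lit 6) (nat_lit 1) (.cons (.rf (nat_lit 302) (nat_lit 19926519232773907521014816)) (.cons (.ev (nat_lit 1334420292643455441417903568995745793) (nat_lit 1)) (.cons (.ev (nat_lit 1329248278194524265459797019917811713) (nat_lit 1)) (.cons (.kr (nat_lit 281474976776192) (nat_lit 1099528404992)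 (nat_lit 2) (nat_lit 0)) .nil))))) (.cons (.br (nat_lit 6) (nat_lit 1) (.cons (.rf (nat_lit 302) (nat_lit 19926519232773907521014816)) (.cons (.kr (nat_lit 1329227995784915872904088535257120768) (nat_lit 20282409603651670425046779691008) (nat_lit 2) (nat_lit 0)) (.cons (.kr (nat_lit 1329227995784915872904088535257120768) (nat_lit 5192296858534827628531595857625088) (nat_lit 2) (nat_lit 0)) (.cons (.kr (nat_lit 281474976776192) (nat_lit 1099528404992) (nat_lit 2) (nat_lit 0)) .nil))))) .nil)))))) .nil)))))),
 (.br (nat_lit 9) (nat_lit 1) (.cons (.br (nat_lit 10) (nat_lit 1) (.cons (.rf (nat_lit 269) (nat_lit 407901468851537952)) (.cons (.rf (nat_lit 269) (nat_lit 407901467811318816)) (.cons (.kr (nat_lit 1208925819614629174706176) (nat_lit 309485009821345068724781056) (nat_lit 10) (nat_lit 0)) (.cons (.rf (nat_lit 93) (nat_lit 412461319)) (.cons (.br (nat_lit 11) (nat_lit 1) (.cons (.rf (nat_lit 269) (nat_lit 372998571739416608)) (.cons (.rf (nat_lit 269) (nat_lit 372998570699197472)) (.cons (.rf (nat_lit 217) (nat_lit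 412461319)) (.cons (.rf (nat_lit 93) (nat_lit 445984007)) (.cons (.br (nat_lit 5) (nat_lit 1) (.cons (.rf (nat_lit 271) (nat_lit 493858305440582043680)) (.cons (.rf (nat_lit 272) (nat_lit 493858305440582043680)) (.cons (.rf (nat_lit 272) (nat_lit 458082835900657666080)) (.cons (.rf (nat_lit 266) (nat_lit 16160939971807264)) .nil))))) .nil)))))) .nil)))))) (.cons (.br (nat_lit 11) (nat_lit 0) (.cons (.br (nat_lit 13) (nat_lit 0) (.cons (.br (nat_lit 12) (nat_lit 0) (.cons (.rf (nat_lit 231) (nat_lit 16199426204896321)) (.cons (.br (nat_lit 13) (nat_lit 1) (.cons (.br (nat_lit 14) (nat_lit 1) (.cons (.br (nat_lit 15) (nat_lit 1) (.cons (.rf (nat_lit 281) (nat_lit 583706118939841765935136)) (.cons (.rf (nat_lit 281) (nat_lit 583706118939840725716000)) (.cons (.br (nat_lit 11) (nat_lit 1) (.cons (.rf (nat_lit 283) (nat_lit 583706118939841765935136)) (.cons (.rf (nat_lit 283) (nat_lit 583706118939840725716000)) (.cons (.ev (nat_lit 1329228234401494704246152821320187904) (nat_lit 2)) (.cons (.br (nat_lit 12) (nat_lit 1) (.cons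 (.rf (nat_lit 283) (nat_lit 582561303880479325390880)) (.cons (.rf (nat_lit 283) (nat_lit 582561303880478285171744)) (.cons (.br (nat_lit 16) (nat_lit 1) (.cons (.rf (nat_lit 68) (nat_lit 6786151497066)) (.cons (.rf (nat_lit 68) (nat_lit 5720967101802)) (.cons (.br (nat_lit 5) (nat_lit 1) (.cons (.rf (nat_lit 284) (nat_lit 677582165103132179601393696)) (.cons (.br (nat_lit 5) (nat_lit 1) (.cons (.rf (nat_lit 284) (nat_lit 677582165103132179601393696)) .nil)) .nil))) .nil)))) (.cons (.br (nat_lit 5) (nat_lit 1) (.cons (.rf (nat_lit 286) (nat_lit 677582165103132179601393696)) (.cons (.rf (nat_lit 287) (nat_lit 677582165103132179601393696)) (.cons (.rf (nat_lit 287) (nat_lit 640104319880019312744957984)) .nil)))) .nil))))) .nil))))) (.cons (.kr (nat_lit 20282409603651670423947251286016) (nat_lit 1329227995784915872903807060280344576) (nat_lit 13) (nat_lit 0)) (.cons (.kr (nat_lit 5192296858534827628530496329220096) (nat_lit 1329227995784915872903807060280344576) (nat_lit 14) (nat_lit 0)) (.cons (.br (nat_lit 5) (nat_lit 1)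 (.cons (.rf (nat_lit 295) (nat_lit 19926519232773908561233952)) (.cons (.rf (nat_lit 302) (nat_lit 19926519232773908561233952)) (.cons (.rf (nat_lit 303) (nat_lit 19926519232773908561233952)) (.cons (.rf (nat_lit 303) (nat_lit 19925374417714546120689696)) (.cons (.rf (nat_lit 304) (nat_lit 19926519232773908561233952)) (.cons (.br (nat_lit 5) (nat_lit 1) (.cons (.rf (nat_lit 295) (nat_lit 19926519232773908561233952)) (.cons (.rf (nat_lit 302) (nat_lit 19926519232773908561233952)) (.cons (.rf (nat_lit 303) (nat_lit 19926519232773908561233952)) (.cons (.rf (nat_lit 303) (nat_lit 19925374417714546120689696)) (.cons (.rf (nat_lit 304) (nat_lit 19926519232773908561233952)) .nil)))))) .nil))))))) .nil))))))) .nil)) .nil)) .nil))) .nil)) .nil)) .nil))),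
 (.br (nat_lit 6) (nat_lit 1) (.cons (.ev (nat_lit 10404955357253672976012512927613442) (nat_lit 2)) (.cons (.rf (nat_lit 102) (nat_lit 18119598216514)) .nil))),
 (.br (nat_lit 15) (nat_lit 1) (.cons (.ev (nat_lit 1361129488522619937238386489711049179909) (nat_lit 3)) (.cons (.zr (nat_lit 2668840585908294013159821452372870403) (nat_lit 60926456973469636462567349026816) (nat_lit 8) (nat_lit 1)) .nil))),
 (.br (nat_lit 6) (nat_lit 1) (.cons (.ev (nat_lit 5212658806999651571016083957612800) (nat_lit 1)) .nil)),
 (.br (nat_lit 14) (nat_lit 1) (.cons (.rf (nat_lit 119) (nat_lit 16714204353826)) (.cons (.ev (nat_lit 5253382084949835079489152222364160) (nat_lit 2)) (.cons (.br (nat_lit 6) (nat_lit 1) (.cons (.rf (nat_lit 308) (nat_lit 19926519232773908561233952)) (.cons (.rf (nat_lit 308) (nat_lit 18750501292337341602564128)) .nil))) .nil)))),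
 (.br (nat_lit 5) (nat_lit 1) (.cons (.rf (nat_lit 130) (nat_lit 18119866389826)) (.cons (.rf (nat_lit 119) (nat_lit 17813749601602)) (.cons (.br (nat_lit 6) (nat_lit 1) (.cons (.ev (nat_lit 1334420292643450700532619035898020096) (nat_lit 1)) (.cons (.ev (nat_lit 10404955357267895487470557252813059) (nat_lit 2)) (.cons (.br (nat_lit 15) (nat_lit 1) (.cons (.ev (nat_lit 341611615199134196654581680011829313536) (nat_lit 1)) (.cons (.br (nat_lit 16) (nat_lit 1) (.cons (.ev (nat_lit 2047042287969091053702926400337117053703) (nat_lit 3)) .nil)) .nil))) .nil)))) (.cons (.br (nat_lit 6) (nat_lit 1) (.cons (.ev (nat_lit 1334420292643450700532619035898020096) (nat_lit 1)) (.cons (.br (nat_lit 15) (nat_lit 1) (.cons (.ev (nat_lit 340287579500516086952566964542406394113) (nat_lit 1)) (.cons (.br (nat_lit 16) (nat_lit 1) (.cons (.zr (nat_lit 2679225180244333688059572582480872709) (nat_lit 680564794926790225425058465607026081792) (nat_lit 8) (nat_lit 1)) .nil)) .nil))) (.cons (.ev (nat_lit 10404955357267895487470557252813059) (nat_lit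 2)) .nil)))) .nil))))),
 (.br (nat_lit 5) (nat_lit 1) (.cons (.kr (nat_lit 5212579268138497745699616801685760) (nat_lit 1329228075013083109534627527764541440) (nat_lit 1) (nat_lit 0)) .nil)),
 (.br (nat_lit 15) (nat_lit 1) (.cons (.ev (nat_lit 1344865813130615094115768214623485954) (nat_lit 2)) (.cons (.rf (nat_lit 310) (nat_lit 19889920892531668810827808)) (.cons (.rf (nat_lit 217) (nat_lit 551008551)) (.cons (.br (nat_lit 16) (nat_lit 1) (.cons (.ev (nat_lit 340287579500207815609306403447878189056) (nat_lit 1)) (.cons (.br (nat_lit 5) (nat_lit 1) (.cons (.zr (nat_lit 10486084993250483430486275654811648) (nat_lit 680564733842500756261502777870205845761) (nat_lit 8) (nat_lit 13)) (.cons (.rf (nat_lit 311) (nat_lit 661701333108527484505153)) .nil))) (.cons (.ev (nat_lit 341611594996261031601177324097672052736) (nat_lit 1)) .nil)))) .nil))))),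
 (.br (nat_lit 11) (nat_lit 1) (.cons (.ev (nat_lit 310693935640960801706148096) (nat_lit 1)) (.cons (.br (nat_lit 5) (nat_lit 1) (.cons (.ev (nat_lit 20837632998011845815640223254273) (nat_lit 3)) (.cons (.rf (nat_lit 306) (nat_lit 583706118939841765935136)) (.cons (.rf (nat_lit 306) (nat_lit 547107778697602015528992)) (.cons (.br (nat_lit 6) (nat_lit 1) (.cons (.rf (nat_lit 102) (nat_lit 18118489872739)) (.cons (.rf (nat_lit 102) (nat_lit 18084130167139)) (.cons (.br (nat_lit 14) (nat_lit 1) (.cons (.ev (nat_lit 20789709392408341336185635638477569) (nat_lit 3)) (.cons (.ev (nat_lit 1361150257391903505415811914737864017669) (nat_lit 3)) (.cons (.br (nat_lit 15) (nat_lit 1) (.cons (.ev (nat_lit 1366446400187609029596913020993668515589) (nat_lit 3)) (.cons (.rf (nat_lit 217) (nat_lit 584562983)) .nil))) .nil)))) (.cons (.br (nat_lit 14) (nat_lit 1) (.cons (.kr (nat_lit 5192296858534827628530496329220096) (nat_lit 1329227995784915872903807060280344576) (nat_lit 14) (nat_lit 0)) (.cons (.rf (nat_lit 307) (nat_lit 677582165103132179601393696))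 (.cons (.rf (nat_lit 307) (nat_lit 640105464660175777033161760)) .nil)))) .nil))))) .nil))))) (.cons (.rf (nat_lit 93) (nat_lit 482684167)) (.cons (.rf (nat_lit 93) (nat_lit 516238599)) (.cons (.br (nat_lit 14) (nat_lit 1) (.cons (.rf (nat_lit 309) (nat_lit 622703726024183534159904)) (.cons (.rf (nat_lit 310) (nat_lit 19926519232773908561233952)) (.cons (.kr (nat_lit 5192296858534827628530496329220096) (nat_lit 1329227995784915872903807060280344576) (nat_lit 14) (nat_lit 0)) (.cons (.rf (nat_lit 312) (nat_lit 19926519232773908561233952)) (.cons (.br (nat_lit 15) (nat_lit 1) (.cons (.rf (nat_lit 309) (nat_lit 621560027891613541959712)) (.cons (.rf (nat_lit 310) (nat_lit 19889920892531668810827808)) (.cons (.rf (nat_lit 312) (nat_lit 19889920892531668810827808)) (.cons (.rf (nat_lit 217) (nat_lit 584562983)) .nil))))) .nil)))))) .nil)))))),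
 (.br (nat_lit 16) (nat_lit 1) (.cons (.ev (nat_lit 683228402651329053409336532248798691328) (nat_lit 2)) (.cons (.rf (nat_lit 227) (nat_lit 194148964071829744757031)) .nil))),
 (.br (nat_lit 15) (nat_lit 1) (.cons (.rf (nat_lit 313) (nat_lit 427832398120306392270880)) (.cons (.rf (nat_lit 313) (nat_lit 427832398120305352051744)) (.cons (.rf (nat_lit 217) (nat_lit 551008551)) (.cons (.br (nat_lit 16) (nat_lit 1) (.cons (.rf (nat_lit 314) (nat_lit 21174442659472880612543553)) (.cons (.rf (nat_lit 314) (nat_lit 21174442659472880580036705)) (.cons (.ev (nat_lit 340287579500516091693308133887428263936) (nat_lit 1)) .nil)))) .nil))))),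
 (.br (nat_lit 11) (nat_lit 1) (.cons (.rf (nat_lit 232) (nat_lit 8830559574151523305504)) (.cons (.rf (nat_lit 233) (nat_lit 8830559574151523305504)) (.cons (.br (nat_lit 6) (nat_lit 1) (.cons (.ev (nat_lit 20521336881159827813896823244549) (nat_lit 3)) (.cons (.rf (nat_lit 12) (nat_lit 18076650519627)) .nil))) (.cons (.br (nat_lit 6) (nat_lit 1) (.cons (.rf (nat_lit 130) (nat_lit 18119866389826)) (.cons (.rf (nat_lit 130) (nat_lit 18085540205890)) (.cons (.br (nat_lit 14) (nat_lit 1) (.cons (.ev (nat_lit 10404955973810581720362370157511425) (nat_lit 2)) (.cons (.zr (nat_lit 20679169386242851537784487936000) (nat_lit 680575118435598837026097961320543420673) (nat_lit 8) (nat_lit 13)) (.cons (.br (nat_lit 15) (nat_lit 1) (.cons (.ev (nat_lit 680564754361971022862242614279726564099) (nat_lit 2)) (.cons (.ev (nat_lit 1334440654591910802108340274592743680) (nat_lit 1)) .nil))) .nil)))) (.cons (.br (nat_lit 14) (nat_lit 1) (.cons (.rf (nat_lit 12) (nat_lit 19073082932302)) (.cons (.br (nat_lit 15) (nat_lit 1) (.cons (.ev (nat_lit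 680575138955690510368994228583171883265) (nat_lit 2)) (.cons (.ev (nat_lit 1334440654591910802108340274592743680) (nat_lit 1)) .nil))) (.cons (.br (nat_lit 15) (nat_lit 1) (.cons (.ev (nat_lit 1334440654591910802108340274592743680) (nat_lit 1)) (.cons (.ev (nat_lit 174227261493971769600182237006544777904385) (nat_lit 3)) .nil))) .nil)))) .nil))))) .nil))))),
 (.br (nat_lit 16) (nat_lit 1) (.cons (.ev (nat_lit 1369104856496089065176757575339535763201) (nat_lit 3)) (.cons (.ev (nat_lit 1363787944514187360540106682557056157441) (nat_lit 3)) (.cons (.zr (nat_lit 174224571863599721455762135400252939830017) (nat_lit 680564754124286535319232865775617310720) (nat_lit 8) (nat_lit 1)) .nil)))),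
 (.br (nat_lit 11) (nat_lit 1) (.cons (.ev (nat_lit 10404955973820063490931436352962819) (nat_lit 2)) (.cons (.ev (nat_lit 340282367000477324654165471839404491009) (nat_lit 1)) (.cons (.br (nat_lit 15) (nat_lit 1) (.cons (.ev (nat_lit 2668860946924681789511740239978169089) (nat_lit 2)) (.cons (.ev (nat_lit 1369104856496089065176757575339535763201) (nat_lit 3)) .nil))) .nil)))),
 (.br (nat_lit 15) (nat_lit 1) (.cons (.ev (nat_lit 683233594790044384532611207231508316421) (nat_lit 3)) (.cons (.rf (nat_lit 239) (nat_lit 661481162292162745994305)) .nil))),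
 (.br (nat_lit 14) (nat_lit 1) (.cons (.kr (nat_lit 1329227995784915891350551133989896192) (nat_lit 309489732187827938369994752) (nat_lit 8) (nat_lit 0)) (.cons (.rf (nat_lit 319) (nat_lit 677582165103132179601393696)) (.cons (.rf (nat_lit 319) (nat_lit 640105464695078674145283104)) .nil)))),
 (.br (nat_lit 15) (nat_lit 1) (.cons (.ev (nat_lit 680564754361971022862242053528829821699) (nat_lit 2)) (.cons (.zr (nat_lit 2668840585908289272346594509085477637) (nat_lit 20520094095935493401658162937856) (nat_lit 24) (nat_lit 1)) .nil))),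
 (.br (nat_lit 14) (nat_lit 1) (.cons (.rf (nat_lit 12) (nat_lit 6702481489258)) (.cons (.br (nat_lit 16) (nat_lit 1) (.cons (.ev (nat_lit 88137157184442889137710705818780492170240) (nat_lit 3)) .nil)) .nil))),
 (.br (nat_lit 11) (nat_lit 1) (.cons (.ev (nat_lit 5192455935052987165703132686581760) (nat_lit 2)) (.cons (.rf (nat_lit 322) (nat_lit 677582165103132179601393696)) (.cons (.rf (nat_lit 322) (nat_lit 640105464695078674145283104)) .nil)))),
 (.br (nat_lit 14) (nat_lit 1) (.cons (.rf (nat_lit 323) (nat_lit 677545530987420399926609952)) (.cons (.rf (nat_lit 320) (nat_lit 677426327157782184152107040)) (.cons (.ev (nat_lit 680564754361971032343724392218873561345) (nat_lit 2)) (.cons (.br (nat_lit 11) (nat_lit 1) (.cons (.zr (nat_lit 2668840585908289272346594509085477637) (nat_lit 60926456978210305574365577609216) (nat_lit 24) (nat_lit 1)) (.cons (.br (nat_lit 15) (nat_lit 1) (.cons (.ev (nat_lit 688571275959375402110695510291438110471) (nat_lit 3)) .nil)) (.cons (.rf (nat_lit 293) (nat_lit 625060302085572528310369))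 .nil)))) .nil))))),
 (.br (nat_lit 5) (nat_lit 1) (.cons (.rf (nat_lit 316) (nat_lit 583706118939841765935136)) (.cons (.rf (nat_lit 316) (nat_lit 547072003228062091151392)) (.cons (.rf (nat_lit 316) (nat_lit 427868173589846316648480)) (.cons (.rf (nat_lit 316) (nat_lit 391234057878066641864736)) (.cons (.br (nat_lit 6) (nat_lit 1) (.cons (.rf (nat_lit 316) (nat_lit 583706118939840725716000)) (.cons (.rf (nat_lit 316) (nat_lit 547072003228061050932256)) (.cons (.rf (nat_lit 316) (nat_lit 427868173589845276429344)) (.cons (.rf (nat_lit 316) (nat_lit 391234057878065601645600)) (.cons (.br (nat_lit 10) (nat_lit 1) (.cons (.ev (nat_lit 20362259168259728984522558014209) (nat_lit 2)) (.cons (.br (nat_lit 11) (nat_lit 1) (.cons (.ev (nat_lit 20362259158778246645815334404355) (nat_lit 2)) (.cons (.ev (nat_lit 340282367000477319913280187297716830208) (nat_lit 1)) (.cons (.br (nat_lit 15) (nat_lit 1) (.cons (.ev (nat_lit 341616807495991522556462936051821904129) (nat_lit 1)) (.cons (.rf (nat_lit 317) (nat_lit 677582165103132179601393696))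 .nil))) .nil)))) (.cons (.ev (nat_lit 2658476353210029986038023685155062019) (nat_lit 2)) (.cons (.rf (nat_lit 318) (nat_lit 19926519232773908561233952)) (.cons (.br (nat_lit 14) (nat_lit 1) (.cons (.ev (nat_lit 10404955973820063490931436352962819) (nat_lit 2)) (.cons (.ev (nat_lit 2668860946924681789511740239978169089) (nat_lit 2)) (.cons (.rf (nat_lit 318) (nat_lit 19770681287423913111947296)) (.cons (.rf (nat_lit 317) (nat_lit 677545530987420399926609952)) .nil))))) .nil)))))) (.cons (.br (nat_lit 10) (nat_lit 1) (.cons (.rf (nat_lit 320) (nat_lit 677582165103132179601393696)) (.cons (.br (nat_lit 11) (nat_lit 1) (.cons (.kr (nat_lit 1329227995786124798723421689455050752) (nat_lit 5192297168019837449875565054001152) (nat_lit 10) (nat_lit 0)) (.cons (.rf (nat_lit 324) (nat_lit 677545530987420399926609952)) (.cons (.rf (nat_lit 324) (nat_lit 640068830579366894470499360)) .nil)))) (.cons (.rf (nat_lit 323) (nat_lit 677582165103132179601393696)) (.cons (.rf (nat_lit 324) (nat_lit 677582165103132179601393696)) (.cons (.rf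 (nat_lit 324) (nat_lit 640105464695078674145283104)) .nil)))))) .nil))))))) .nil))))))]

theorem c13 : chkAll C T R L13 (nat_lit 304) = true := by decide +kernel

theorem l13 : (nat_lit 304) + L13.length = (nat_lit 326) := by decide +kernel

/-- part of the certificates -/
def L14 : List Prf := [(.br (nat_lit 6) (nat_lit 1) (.cons (.ev (nat_lit 5212658806999651571016083957612800) (nat_lit 1)) .nil)),
 (.br (nat_lit 14) (nat_lit 1) (.cons (.ev (nat_lit 1334481220032515458357282179928687104) (nat_lit 2)) (.cons (.ev (nat_lit 1334440654591910802108340274592743680) (nat_lit 1)) .nil))),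
 (.br (nat_lit 6) (nat_lit 1) (.cons (.rf (nat_lit 102) (nat_lit 18118489872739)) (.cons (.ev (nat_lit 1329248357732171789473422092443582720) (nat_lit 1)) (.cons (.ev (nat_lit 20362259168259728984522558014209) (nat_lit 2)) (.cons (.br (nat_lit 14) (nat_lit 1) (.cons (.rf (nat_lit 40) (nat_lit 17981087267918)) (.cons (.br (nat_lit 15) (nat_lit 1) (.cons (.ev (nat_lit 341611615199134196654581680011829313536) (nat_lit 1)) (.cons (.br (nat_lit 16) (nat_lit 1) (.cons (.ev (nat_lit 2047021518782894854431985889020030879491) (nat_lit 3)) .nil)) .nil))) (.cons (.br (nat_lit 15) (nat_lit 1) (.cons (.rf (nat_lit 253) (nat_lit 661628623517327079640129)) (.cons (.ev (nat_lit 87112291124136642833716426942634614849536) (nat_lit 1)) .nil))) .nil)))) .nil))))),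
 (.br (nat_lit 15) (nat_lit 1) (.cons (.rf (nat_lit 102) (nat_lit 17981050952131)) (.cons (.rf (nat_lit 40) (nat_lit 18084166483019)) (.cons (.zr (nat_lit 5327296576859151053851750713258018051) (nat_lit 60926456978192002384686097629184) (nat_lit 8) (nat_lit 1)) (.cons (.br (nat_lit 6) (nat_lit 1) (.cons (.rf (nat_lit 102) (nat_lit 18118489872739)) (.cons (.br (nat_lit 11) (nat_lit 1) (.cons (.zr (nat_lit 10384594957441713281119134876173571) (nat_lit 60926456973488083767391988875264) (nat_lit 8) (nat_lit 1)) (.cons (.kr (nat_lit 1329227995784915891350832608966672384) (nat_lit 309489732187829037898399744) (nat_lit 2) (nat_lit 0)) .nil))) (.cons (.br (nat_lit 11) (nat_lit 1) (.cons (.zr (nat_lit 2668840585908294013159821452372870403) (nat_lit 60926456973469636462567349026816) (nat_lit 8) (nat_lit 1)) (.cons (.zr (nat_lit 10384594957441713281119134876173571) (nat_lit 60926456973488083767391988875264) (nat_lit 8) (nat_lit 1)) .nil))) .nil)))) .nil))))),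
 (.br (nat_lit 6) (nat_lit 1) (.cons (.ev (nat_lit 1329248357732171789473422092443582720) (nat_lit 1)) (.cons (.rf (nat_lit 102) (nat_lit 17981050952131)) (.cons (.ev (nat_lit 2658476353210029986038023685155062019) (nat_lit 2)) (.cons (.br (nat_lit 11) (nat_lit 1) (.cons (.rf (nat_lit 40) (nat_lit 18118526220363)) (.cons (.br (nat_lit 14) (nat_lit 1) (.cons (.ev (nat_lit 340282367000477319913279904723211649024) (nat_lit 1)) (.cons (.br (nat_lit 16) (nat_lit 1) (.cons (.ev (nat_lit 2049679974773845706750309653158446761731) (nat_lit 3)) .nil)) .nil))) (.cons (.br (nat_lit 14) (nat_lit 1) (.cons (.rf (nat_lit 255) (nat_lit 21164963300516609186204737)) (.cons (.ev (nat_lit 87113620372335299700976102264036522983424) (nat_lit 1)) .nil))) .nil)))) .nil))))),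
 (.br (nat_lit 6) (nat_lit 1) (.cons (.ev (nat_lit 20362259168259728984522558014209) (nat_lit 2)) (.cons (.rf (nat_lit 329) (nat_lit 19926519232773908561233952)) (.cons (.ev (nat_lit 2658476353210029986038023685155062019) (nat_lit 2)) (.cons (.br (nat_lit 14) (nat_lit 1) (.cons (.br (nat_lit 15) (nat_lit 1) (.cons (.ev (nat_lit 1329248357732167048731972363349983233) (nat_lit 1)) (.cons (.ev (nat_lit 1339612748267809752202041712521183746) (nat_lit 2)) .nil))) (.cons (.rf (nat_lit 257) (nat_lit 21164963300516602709116960)) (.cons (.ev (nat_lit 680564754361971032343724392218873561345) (nat_lit 2)) (.cons (.br (nat_lit 15) (nat_lit 1) (.cons (.rf (nat_lit 258) (nat_lit 661628623517327079640129)) (.cons (.rf (nat_lit 278) (nat_lit 661509911095255009201217)) (.cons (.br (nat_lit 11) (nat_lit 1) (.cons (.ev (nat_lit 2049679974773845706750309653158446761731) (nat_lit 3)) .nil)) .nil)))) .nil))))) .nil))))),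
 (.br (nat_lit 5) (nat_lit 1) (.cons (.rf (nat_lit 325) (nat_lit 583706118939841765935136)) (.cons (.br (nat_lit 14) (nat_lit 1) (.cons (.br (nat_lit 6) (nat_lit 1) (.cons (.ev (nat_lit 10384752792369444314556391965655809) (nat_lit 2)) (.cons (.rf (nat_lit 102) (nat_lit 18122819343682)) .nil))) (.cons (.ev (nat_lit 1334440654591915542993344432208674817) (nat_lit 1)) (.cons (.br (nat_lit 15) (nat_lit 1) (.cons (.rf (nat_lit 119) (nat_lit 17814923875650)) (.cons (.ev (nat_lit 1344865813747157780348660027528184320) (nat_lit 2)) (.cons (.br (nat_lit 6) (nat_lit 1) (.cons (.rf (nat_lit 326) (nat_lit 21174442659472879504164896)) (.cons (.rf (nat_lit 326) (nat_lit 20002150955605214376331296)) .nil))) .nil)))) .nil)))) (.cons (.ev (nat_lit 5192296859743753520203819053547521) (nat_lit 1)) (.cons (.br (nat_lit 6) (nat_lit 1) (.cons (.rf (nat_lit 306) (nat_lit 541169085622786820507680)) (.cons (.rf (nat_lit 306) (nat_lit 433771091195121587292192)) (.cons (.br (nat_lit 6) (nat_lit 1) (.cons (.rf (nat_lit 102) (nat_lit 18085238510914))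 (.cons (.rf (nat_lit 102) (nat_lit 17985380521282)) (.cons (.br (nat_lit 11) (nat_lit 1) (.cons (.ev (nat_lit 1334440654591915542993344432208674817) (nat_lit 1)) (.cons (.rf (nat_lit 327) (nat_lit 677582165103132179601393696)) (.cons (.rf (nat_lit 327) (nat_lit 640105464695078675185502240)) .nil)))) .nil)))) .nil)))) (.cons (.br (nat_lit 6) (nat_lit 1) (.cons (.rf (nat_lit 328) (nat_lit 19926519232773908561233952)) (.cons (.rf (nat_lit 329) (nat_lit 19926519232773908561233952)) (.cons (.rf (nat_lit 330) (nat_lit 19926519232773908561233952)) (.cons (.rf (nat_lit 331) (nat_lit 19926519232773908561233952)) (.cons (.br (nat_lit 6) (nat_lit 1) (.cons (.rf (nat_lit 328) (nat_lit 19926519232773908561233952)) (.cons (.rf (nat_lit 329) (nat_lit 19926519232773908561233952)) (.cons (.rf (nat_lit 330) (nat_lit 19926519232773908561233952)) (.cons (.rf (nat_lit 331) (nat_lit 19926519232773908561233952)) .nil))))) .nil)))))) .nil)))))),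
 (.br (nat_lit 6) (nat_lit 1) (.cons (.rf (nat_lit 332) (nat_lit 583706118939840725716000)) (.cons (.rf (nat_lit 332) (nat_lit 547072003228061050932256)) (.cons (.rf (nat_lit 332) (nat_lit 427868173589845276429344)) (.cons (.rf (nat_lit 332) (nat_lit 391234057878065601645600)) (.cons (.kr (nat_lit 281474976776192) (nat_lit 1099528404992) (nat_lit 2) (nat_lit 0)) .nil)))))),
 (.br (nat_lit 13) (nat_lit 1) (.cons (.br (nat_lit 5) (nat_lit 1) (.cons (.rf (nat_lit 325) (nat_lit 583706118939841765935136)) (.cons (.rf (nat_lit 332) (nat_lit 583706118939841765935136)) (.cons (.rf (nat_lit 332) (nat_lit 547072003228062091151392)) (.cons (.rf (nat_lit 332) (nat_lit 427868173589846316648480)) (.cons (.rf (nat_lit 332) (nat_lit 391234057878066641864736)) (.cons (.br (nat_lit 5) (nat_lit 1) (.cons (.rf (nat_lit 325) (nat_lit 583706118939841765935136)) (.cons (.rf (nat_lit 332) (nat_lit 583706118939841765935136)) (.cons (.rf (nat_lit 332) (nat_lit 547072003228062091151392)) (.cons (.rf (nat_lit 332) (nat_lit 427868173589846316648480))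 (.cons (.rf (nat_lit 332) (nat_lit 391234057878066641864736)) (.cons (.br (nat_lit 6) (nat_lit 1) (.cons (.rf (nat_lit 332) (nat_lit 583706118939840725716000)) (.cons (.rf (nat_lit 332) (nat_lit 547072003228061050932256)) (.cons (.rf (nat_lit 332) (nat_lit 427868173589845276429344)) (.cons (.rf (nat_lit 332) (nat_lit 391234057878065601645600)) (.cons (.rf (nat_lit 333) (nat_lit 677582165103132179601393696)) (.cons (.rf (nat_lit 333) (nat_lit 640105464695078675185502240)) .nil))))))) .nil))))))) .nil))))))) .nil)),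
 (.br (nat_lit 0) (nat_lit 0) (.cons (.br (nat_lit 7) (nat_lit 1) (.cons (.br (nat_lit 7) (nat_lit 1) (.cons (.br (nat_lit 8) (nat_lit 0) (.cons (.br (nat_lit 9) (nat_lit 0) (.cons (.br (nat_lit 10) (nat_lit 0) (.cons (.rf (nat_lit 219) (nat_lit 398341276010528)) (.cons (.br (nat_lit 11) (nat_lit 0) (.cons (.br (nat_lit 11) (nat_lit 0) (.cons (.br (nat_lit 12) (nat_lit 1) (.cons (.br (nat_lit 12) (nat_lit 1) (.cons (.br (nat_lit 14) (nat_lit 0) (.cons (.br (nat_lit 13) (nat_lit 1) (.cons (.br (nat_lit 8) (nat_lit 1) (.cons (.rf (nat_lit 226) (nat_lit 583706118939841765935136)) (.cons (.rf (nat_lit 226) (nat_lit 583706118939840725716000)) (.cons (.kr (nat_lit 18446744073709551616) (nat_lit 4722366482869645213696) (nat_lit 8) (nat_lit 0)) (.cons (.rf (nat_lit 93) (nat_lit 480551136)) (.cons (.rf (nat_lit 93) (nat_lit 514105568)) (.cons (.br (nat_lit 9) (nat_lit 1) (.cons (.rf (nat_lit 226) (nat_lit 583706118905756905474080)) (.cons (.rf (nat_lit 226) (nat_lit 583706118905755865254944)) (.cons (.rf (nat_lit 93) (nat_lit 480519392))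 (.cons (.rf (nat_lit 93) (nat_lit 514073824)) (.cons (.ev (nat_lit 4740885284541687660801) (nat_lit 1)) (.cons (.br (nat_lit 14) (nat_lit 1) (.cons (.rf (nat_lit 229) (nat_lit 677582165103132179601393696)) (.cons (.rf (nat_lit 229) (nat_lit 677582165103132178561174560)) (.cons (.kr (nat_lit 5192296858534827628530496329220096) (nat_lit 1329227995784915872903807060280344576) (nat_lit 14) (nat_lit 0)) (.cons (.rf (nat_lit 230) (nat_lit 661701333108527516977184)) (.cons (.rf (nat_lit 230) (nat_lit 625102992866254480574496)) .nil)))))) .nil))))))) .nil))))))) .nil)) .nil)) .nil)) .nil)) .nil)) .nil)) .nil))) (.cons (.br (nat_lit 10) (nat_lit 1) (.cons (.br (nat_lit 11) (nat_lit 1) (.cons (.br (nat_lit 10) (nat_lit 0) (.cons (.ev (nat_lit 310693935713017296232382721) (nat_lit 1)) (.cons (.rf (nat_lit 218) (nat_lit 12258086944)) (.cons (.br (nat_lit 11) (nat_lit 0) (.cons (.br (nat_lit 13) (nat_lit 0) (.cons (.rf (nat_lit 231) (nat_lit 16197259325738049)) .nil)) (.cons (.rf (nat_lit 218) (nat_lit 11218948128)) .nil))) .nil))))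 (.cons (.br (nat_lit 12) (nat_lit 0) (.cons (.br (nat_lit 13) (nat_lit 0) (.cons (.br (nat_lit 10) (nat_lit 0) (.cons (.rf (nat_lit 218) (nat_lit 15412203552)) (.cons (.rf (nat_lit 218) (nat_lit 12291641376)) (.cons (.br (nat_lit 11) (nat_lit 0) (.cons (.rf (nat_lit 218) (nat_lit 11218948128)) (.cons (.br (nat_lit 14) (nat_lit 0) (.cons (.br (nat_lit 5) (nat_lit 1) (.cons (.rf (nat_lit 248) (nat_lit 583706118939841765935136)) (.cons (.rf (nat_lit 260) (nat_lit 583706118939841765935136)) (.cons (.rf (nat_lit 260) (nat_lit 583670343436216981096480)) (.cons (.rf (nat_lit 263) (nat_lit 583706118939841765935136)) (.cons (.rf (nat_lit 263) (nat_lit 583670343436216981096480)) (.cons (.br (nat_lit 5) (nat_lit 1) (.cons (.rf (nat_lit 248) (nat_lit 583706118939841765935136)) (.cons (.rf (nat_lit 260) (nat_lit 583706118939841765935136)) (.cons (.rf (nat_lit 260) (nat_lit 583670343436216981096480)) (.cons (.rf (nat_lit 263) (nat_lit 583706118939841765935136)) (.cons (.rf (nat_lit 263) (nat_lit 583670343436216981096480)) (.cons (.br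 (nat_lit 6) (nat_lit 1) (.cons (.rf (nat_lit 260) (nat_lit 583706118939840725716000)) (.cons (.rf (nat_lit 260) (nat_lit 583670343436215940877344)) (.cons (.rf (nat_lit 263) (nat_lit 583706118939840725716000)) (.cons (.rf (nat_lit 263) (nat_lit 583670343436215940877344)) (.cons (.rf (nat_lit 264) (nat_lit 677582165103132179601393696)) (.cons (.rf (nat_lit 264) (nat_lit 640105464695078675185502240)) .nil))))))) .nil))))))) .nil))))))) .nil)) .nil))) .nil)))) .nil)) .nil)) .nil))) .nil)) .nil))) .nil)) .nil)) .nil)) (.cons (.br (nat_lit 7) (nat_lit 0) (.cons (.br (nat_lit 7) (nat_lit 0) (.cons (.br (nat_lit 8) (nat_lit 1) (.cons (.br (nat_lit 8) (nat_lit 1) (.cons (.br (nat_lit 10) (nat_lit 0) (.cons (.rf (nat_lit 305) (nat_lit 407901468851537952)) (.cons (.br (nat_lit 12) (nat_lit 0) (.cons (.br (nat_lit 9) (nat_lit 1) (.cons (.rf (nat_lit 305) (nat_lit 372998571739416608)) (.cons (.br (nat_lit 9) (nat_lit 1) (.cons (.rf (nat_lit 305) (nat_lit 372998571739416608)) (.cons (.br (nat_lit 11) (nat_lit 0) (.cons (.br (nat_lit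 14) (nat_lit 0) (.cons (.br (nat_lit 13) (nat_lit 1) (.cons (.br (nat_lit 10) (nat_lit 1) (.cons (.rf (nat_lit 313) (nat_lit 583706118939841765935136)) (.cons (.rf (nat_lit 313) (nat_lit 583706118939840725716000)) (.cons (.kr (nat_lit 1208925819614629174706176) (nat_lit 309485009821345068724781056) (nat_lit 10) (nat_lit 0)) (.cons (.rf (nat_lit 93) (nat_lit 482715911)) (.cons (.rf (nat_lit 93) (nat_lit 516270343)) (.cons (.br (nat_lit 11) (nat_lit 1) (.cons (.rf (nat_lit 313) (nat_lit 583706084036944653813792)) (.cons (.rf (nat_lit 313) (nat_lit 583706084036943613594656)) (.cons (.rf (nat_lit 93) (nat_lit 482684167)) (.cons (.rf (nat_lit 93) (nat_lit 516238599)) (.cons (.rf (nat_lit 217) (nat_lit 549824775)) (.cons (.br (nat_lit 14) (nat_lit 1) (.cons (.rf (nat_lit 313) (nat_lit 427832433023203504392224)) (.cons (.rf (nat_lit 313) (nat_lit 427832433023202464173088)) (.cons (.kr (nat_lit 5192296858534827628530496329220096) (nat_lit 1329227995784915872903807060280344576) (nat_lit 14) (nat_lit 0)) (.cons (.rf (nat_lit 315)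 (nat_lit 677582165103132179601393696)) (.cons (.rf (nat_lit 315) (nat_lit 640105464660175778073380896)) .nil)))))) .nil))))))) .nil))))))) .nil)) .nil)) (.cons (.br (nat_lit 12) (nat_lit 1) (.cons (.rf (nat_lit 334) (nat_lit 583706118939841765935136)) (.cons (.rf (nat_lit 334) (nat_lit 547107778697602015528992)) .nil))) .nil))) .nil))) .nil))) .nil)) .nil))) .nil)) .nil)) .nil)) .nil)) .nil))),
 (.br (nat_lit 13) (nat_lit 1) (.cons (.ev (nat_lit 681909579451823673587159322283722539267) (nat_lit 2)) (.cons (.br (nat_lit 16) (nat_lit 1) (.cons (.ev (nat_lit 91535988079812858781856542538872471749128) (nat_lit 4)) .nil)) .nil))),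
 (.br (nat_lit 6) (nat_lit 1) (.cons (.zr (nat_lit 31153781160880372328100011490870278) (nat_lit 7975367976566410037453217851361984512) (nat_lit 24) (nat_lit 1)) (.cons (.ev (nat_lit 5192535475104195863508811935580674) (nat_lit 2)) (.cons (.ev (nat_lit 5253145019427608081767873057587714) (nat_lit 2)) (.cons (.br (nat_lit 9) (nat_lit 1) (.cons (.ev (nat_lit 5192535472691085181339119134965762) (nat_lit 2)) (.cons (.ev (nat_lit 5253145017014497399598180256972802) (nat_lit 2)) (.cons (.br (nat_lit 12) (nat_lit 1) (.cons (.ev (nat_lit 5192376087910990079248163181428993) (nat_lit 1)) (.cons (.ev (nat_lit 681899154293908793944432183343575073027) (nat_lit 2)) (.cons (.br (nat_lit 13) (nat_lit 1) (.cons (.ev (nat_lit 681899194700271676219244356050989744387) (nat_lit 2)) (.cons (.rf (nat_lit 217) (nat_lit 585544032)) .nil))) .nil)))) (.cons (.br (nat_lit 12) (nat_lit 1) (.cons (.kr (nat_lit 79228162514264337593543950336) (nat_lit 20282409603651670423947251286016) (nat_lit 12) (nat_lit 0)) (.cons (.rf (nat_lit 336) (nat_lit 677582165103132179601393696))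 (.cons (.br (nat_lit 13) (nat_lit 1) (.cons (.rf (nat_lit 336) (nat_lit 677582129362565536789137440)) (.cons (.ev (nat_lit 174225916709130440049316048024928371343619) (nat_lit 2)) .nil))) .nil)))) .nil))))) .nil))))),
 (.br (nat_lit 13) (nat_lit 1) (.cons (.ev (nat_lit 20361947255916641391146929553665) (nat_lit 1)) (.cons (.rf (nat_lit 227) (nat_lit 622513417560008116276289)) .nil))),
 (.br (nat_lit 13) (nat_lit 1) (.cons (.ev (nat_lit 1344845609949164475011731135427248899) (nat_lit 2)) (.cons (.br (nat_lit 6) (nat_lit 1) (.cons (.ev (nat_lit 681909579451823673587159322283722539267) (nat_lit 2)) (.cons (.rf (nat_lit 311) (nat_lit 612040418950480424936711)) .nil))) (.cons (.ev (nat_lit 20361947255916641391146929553665) (nat_lit 1)) .nil)))),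
 (.br (nat_lit 5) (nat_lit 1) (.cons (.rf (nat_lit 337) (nat_lit 583706118939841765935136)) (.cons (.ev (nat_lit 1344804886673641624768101189582717699) (nat_lit 2)) (.cons (.ev (nat_lit 1334420452029439721454325711897756419) (nat_lit 2)) (.cons (.ev (nat_lit 1334460858392321996266498419312427779) (nat_lit 2)) (.cons (.br (nat_lit 9) (nat_lit 1) (.cons (.br (nat_lit 6) (nat_lit 1) (.cons (.ev (nat_lit 1334420452029449129294364054732669699) (nat_lit 2)) (.cons (.ev (nat_lit 1334460858392331404106536762147341059) (nat_lit 2)) (.cons (.br (nat_lit 12) (nat_lit 1) (.cons (.ev (nat_lit 1334420768325566018495216827303854849) (nat_lit 3)) (.cons (.ev (nat_lit 681899154293908793944432183343575073027) (nat_lit 2)) (.cons (.br (nat_lit 13) (nat_lit 1) (.cons (.ev (nat_lit 681899194700271676219244356050989744387) (nat_lit 2)) (.cons (.ev (nat_lit 20361947255916641391146929553665) (nat_lit 1)) .nil))) .nil)))) (.cons (.br (nat_lit 12) (nat_lit 1) (.cons (.kr (nat_lit 79228162514264337593543950336) (nat_lit 20282409603651670423947251286016)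 (nat_lit 12) (nat_lit 0)) (.cons (.rf (nat_lit 338) (nat_lit 21173223984251494897649696)) (.cons (.rf (nat_lit 338) (nat_lit 20002077096465736983972896)) .nil)))) .nil))))) (.cons (.rf (nat_lit 93) (nat_lit 413410528)) (.cons (.rf (nat_lit 93) (nat_lit 446964960)) (.cons (.rf (nat_lit 337) (nat_lit 583706111966543608062176)) (.cons (.br (nat_lit 12) (nat_lit 1) (.cons (.rf (nat_lit 339) (nat_lit 677582165103132179601393696)) (.cons (.kr (nat_lit 79228162514264337593543950336) (nat_lit 20282409603651670423947251286016) (nat_lit 12) (nat_lit 0)) (.cons (.br (nat_lit 13) (nat_lit 1) (.cons (.rf (nat_lit 339) (nat_lit 677582129362565536789137440)) (.cons (.ev (nat_lit 340292771876294508265942450701445825282) (nat_lit 2)) (.cons (.rf (nat_lit 339) (nat_lit 252040240851242770208432352)) .nil)))) (.cons (.rf (nat_lit 339) (nat_lit 252040276591809413020688608)) .nil))))) .nil)))))) .nil))))))]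

theorem c14 : chkAll C T R L14 (nat_lit 326) = true := by decide +kernel

theorem l14 : (nat_lit 326) + L14.length = (nat_lit 341) := by decide +kernel

/-- part of the certificates -/
def L15 : List Prf := [(.br (nat_lit 15) (nat_lit 1) (.cons (.ev (nat_lit 2668860947853127337492871594297721603) (nat_lit 2)) (.cons (.rf (nat_lit 335) (nat_lit 18804619659)) .nil))),
 (.br (nat_lit 14) (nat_lit 1) (.cons (.ev (nat_lit 40644358068475613472493439943425) (nat_lit 2)) (.cons (.ev (nat_lit 40644358077957384041559601709825) (nat_lit 2)) (.cons (.rf (nat_lit 335) (nat_lit 16286954858)) .nil)))),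
 (.br (nat_lit 10) (nat_lit 1) (.cons (.rf (nat_lit 335) (nat_lit 2256872678)) (.cons (.rf (nat_lit 217) (nat_lit 109389030)) (.cons (.rf (nat_lit 335) (nat_lit 11920549094)) (.cons (.rf (nat_lit 335) (nat_lit 12994290918)) .nil))))),
 (.br (nat_lit 9) (nat_lit 1) (.cons (.rf (nat_lit 217) (nat_lit 178561248)) (.cons (.br (nat_lit 5) (nat_lit 1) (.cons (.ev (nat_lit 18519083147035934976) (nat_lit 1)) (.cons (.ev (nat_lit 10384594337253378570198250090988034) (nat_lit 2)) (.cons (.ev (nat_lit 2658455992190015469120751377993236994) (nat_lit 2)) (.cons (.br (nat_lit 6) (nat_lit 1) (.cons (.ev (nat_lit 10384594337262786410236592859054594) (nat_lit 2)) (.cons (.ev (nat_lit 2658455992190024876960789720761303554) (nat_lit 2)) (.cons (.ev (nat_lit 1223148403975800637030912) (nat_lit 2)) (.cons (.br (nat_lit 14) (nat_lit 1) (.cons (.kr (nat_lit 5192296858534827628530496329220096) (nat_lit 1329227995784915872903807060280344576) (nat_lit 14) (nat_lit 0)) (.cons (.rf (nat_lit 341) (nat_lit 677582165103132179601393696)) (.cons (.rf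 (nat_lit 341) (nat_lit 640105464695044589284822048)) .nil)))) .nil))))) .nil))))) (.cons (.rf (nat_lit 93) (nat_lit 480519392)) (.cons (.rf (nat_lit 93) (nat_lit 514073824)) (.cons (.br (nat_lit 5) (nat_lit 1) (.cons (.ev (nat_lit 1208944338417396450590976) (nat_lit 1)) (.cons (.rf (nat_lit 342) (nat_lit 18240816216870020548640)) (.cons (.rf (nat_lit 342) (nat_lit 17097118084300028348448)) (.cons (.ev (nat_lit 4722438541567489802496) (nat_lit 1)) (.cons (.br (nat_lit 14) (nat_lit 1) (.cons (.rf (nat_lit 343) (nat_lit 593856550205068386)) (.cons (.kr (nat_lit 5192296858534827628530496329220096) (nat_lit 1329227995784915872903807060280344576) (nat_lit 14) (nat_lit 0)) (.cons (.rf (nat_lit 343) (nat_lit 233568579814429986)) (.cons (.br (nat_lit 15) (nat_lit 1) (.cons (.rf (nat_lit 335) (nat_lit 7027014027)) (.cons (.rf (nat_lit 335) (nat_lit 17764432267)) (.cons (.ev (nat_lit 174224571883883060723406127079574319792899) (nat_lit 2)) .nil)))) .nil))))) .nil)))))) .nil)))))),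
 (.br (nat_lit 10) (nat_lit 1) (.cons (.rf (nat_lit 217) (nat_lit 75834598)) (.cons (.rf (nat_lit 335) (nat_lit 3297060070)) (.cons (.rf (nat_lit 335) (nat_lit 11886994662)) (.cons (.rf (nat_lit 335) (nat_lit 12960736486)) .nil))))),
 (.br (nat_lit 10) (nat_lit 0) (.cons (.br (nat_lit 10) (nat_lit 0) (.cons (.br (nat_lit 11) (nat_lit 0) (.cons (.rf (nat_lit 265) (nat_lit 13909069325798465)) .nil)) .nil)) .nil)),
 (.br (nat_lit 12) (nat_lit 1) (.cons (.ev (nat_lit 1213648186380073308258561) (nat_lit 1)) (.cons (.rf (nat_lit 346) (nat_lit 15035040064964640)) (.cons (.br (nat_lit 12) (nat_lit 1) (.cons (.ev (nat_lit 1213648186380073308258561) (nat_lit 1)) (.cons (.rf (nat_lit 346) (nat_lit 16160939971807264)) .nil))) .nil)))),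
 (.br (nat_lit 6) (nat_lit 1) (.cons (.br (nat_lit 12) (nat_lit 1) (.cons (.zr (nat_lit 159384780095102934272748684032) (nat_lit 1227815285550510164148225) (nat_lit 8) (nat_lit 0)) (.cons (.rf (nat_lit 346) (nat_lit 16160939971807264)) .nil))) (.cons (.rf (nat_lit 346) (nat_lit 16160939971807264)) .nil))),
 (.br (nat_lit 9) (nat_lit 1) (.cons (.ev (nat_lit 313121268978702640314712835) (nat_lit 2)) (.cons (.br (nat_lit 6) (nat_lit 1) (.cons (.ev (nat_lit 313111861283907593109242625) (nat_lit 3)) (.cons (.rf (nat_lit 346) (nat_lit 13909140158122016)) (.cons (.br (nat_lit 12) (nat_lit 1) (.cons (.ev (nat_lit 313140232376853709430588161) (nat_lit 3)) (.cons (.rf (nat_lit 346) (nat_lit 15035040064964640)) (.cons (.br (nat_lit 12) (nat_lit 1) (.cons (.ev (nat_lit 313140232376853709430588161) (nat_lit 3)) (.cons (.rf (nat_lit 346) (nat_lit 16160939971807264)) .nil))) .nil)))) .nil)))) (.cons (.rf (nat_lit 93) (nat_lit 413410528)) (.cons (.br (nat_lit 5) (nat_lit 1) (.cons (.rf (nat_lit 347) (nat_lit 14242959524133701664)) (.cons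 (.rf (nat_lit 347) (nat_lit 7318457194039779552)) (.cons (.rf (nat_lit 346) (nat_lit 15035040064964640)) (.cons (.br (nat_lit 6) (nat_lit 1) (.cons (.rf (nat_lit 348) (nat_lit 493858305440582043680)) (.cons (.br (nat_lit 6) (nat_lit 1) (.cons (.rf (nat_lit 348) (nat_lit 493858305440582043680)) (.cons (.rf (nat_lit 346) (nat_lit 16160939971807264)) .nil))) (.cons (.rf (nat_lit 346) (nat_lit 16160939971807264)) .nil)))) .nil))))) .nil))))),
 (.br (nat_lit 12) (nat_lit 1) (.cons (.ev (nat_lit 158767019001279860976415539459) (nat_lit 2)) (.cons (.zr (nat_lit 161860660137067876300349245184) (nat_lit 6054147618015201510817793) (nat_lit 24) (nat_lit 0)) (.cons (.rf (nat_lit 346) (nat_lit 16160939971807264)) .nil)))),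
 (.br (nat_lit 5) (nat_lit 1) (.cons (.rf (nat_lit 350) (nat_lit 493858305440582043680)) (.cons (.rf (nat_lit 350) (nat_lit 458117704712909326368)) (.cons (.rf (nat_lit 346) (nat_lit 16160939971807264)) .nil)))),
 (.br (nat_lit 5) (nat_lit 1) (.cons (.rf (nat_lit 351) (nat_lit 493858305440582043680)) (.cons (.br (nat_lit 6) (nat_lit 1) (.cons (.zr (nat_lit 161860660137067876300349245184) (nat_lit 6054147618015201510817793) (nat_lit 24) (nat_lit 0)) (.cons (.zr (nat_lit 40568223542411880049007763916544) (nat_lit 6063555457492793382141953) (nat_lit 24) (nat_lit 0)) (.cons (.rf (nat_lit 346) (nat_lit 16160939971807264)) .nil)))) (.cons (.rf (nat_lit 346) (nat_lit 16160939971807264)) .nil)))),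
 (.br (nat_lit 6) (nat_lit 1) (.cons (.ev (nat_lit 10384673565420559861629813275033600) (nat_lit 2)) (.cons (.rf (nat_lit 102) (nat_lit 18117450732802)) .nil))),
 (.br (nat_lit 15) (nat_lit 1) (.cons (.ev (nat_lit 1361129488206020394301294847259930919175) (nat_lit 3)) (.cons (.zr (nat_lit 2668840585286910882907301794927345665) (nat_lit 20362569847972858205783470375168) (nat_lit 8) (nat_lit 7)) .nil))),
 (.br (nat_lit 6) (nat_lit 1) (.cons (.ev (nat_lit 2668860947856758855765505379408019713) (nat_lit 2)) .nil)),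
 (.br (nat_lit 15) (nat_lit 1) (.cons (.rf (nat_lit 119) (nat_lit 17814756201730)) (.cons (.ev (nat_lit 1344865733898830506240267939748119299) (nat_lit 2)) (.cons (.br (nat_lit 6) (nat_lit 1) (.cons (.rf (nat_lit 355) (nat_lit 677582165103132179601393696)) (.cons (.rf (nat_lit 355) (nat_lit 639871483493557676081776779)) .nil))) .nil)))),
 (.br (nat_lit 5) (nat_lit 1) (.cons (.rf (nat_lit 130) (nat_lit 18117718906114)) (.cons (.rf (nat_lit 119) (nat_lit 17813682492674)) (.cons (.br (nat_lit 6) (nat_lit 1) (.cons (.ev (nat_lit 2668861106310656551028497421436977409) (nat_lit 2)) (.cons (.ev (nat_lit 5212658496301012010318685322346753) (nat_lit 1)) (.cons (.br (nat_lit 15) (nat_lit 1) (.cons (.ev (nat_lit 683223210353853961691410115610646937859) (nat_lit 2)) (.cons (.br (nat_lit 16) (nat_lit 1) (.cons (.ev (nat_lit 685892050939145727092915106081552073985) (nat_lit 3)) .nil)) .nil))) .nil)))) (.cons (.br (nat_lit 6) (nat_lit 1) (.cons (.ev (nat_lit 2668861106310656551028497421436977409) (nat_lit 2)) (.cons (.br (nat_lit 15)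 (nat_lit 1) (.cons (.ev (nat_lit 680575138797542466128531135629178700035) (nat_lit 2)) (.cons (.rf (nat_lit 311) (nat_lit 649895407603978945766663)) .nil))) (.cons (.ev (nat_lit 5212658496301012010318685322346753) (nat_lit 1)) .nil)))) .nil))))),
 (.br (nat_lit 15) (nat_lit 1) (.cons (.ev (nat_lit 1344865892357563978568694793314108163) (nat_lit 2)) (.cons (.rf (nat_lit 357) (nat_lit 19889920892531668810827808)) (.cons (.rf (nat_lit 217) (nat_lit 549960107)) (.cons (.br (nat_lit 16) (nat_lit 1) (.cons (.ev (nat_lit 680575138956001199600859562482744688899) (nat_lit 2)) (.cons (.br (nat_lit 5) (nat_lit 1) (.cons (.zr (nat_lit 680564733922034762914817144326558057216) (nat_lit 10404876126673307288335864347885569) (nat_lit 8) (nat_lit 10)) (.cons (.rf (nat_lit 311) (nat_lit 661701330784261908859969)) .nil))) (.cons (.ev (nat_lit 683223210195395228219081688757080948995) (nat_lit 2)) .nil)))) .nil))))),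
 (.br (nat_lit 9) (nat_lit 1) (.cons (.ev (nat_lit 20521023764631589715443963789569) (nat_lit 2)) (.cons (.br (nat_lit 5) (nat_lit 1) (.cons (.ev (nat_lit 20839174354801576430892128534791) (nat_lit 3)) (.cons (.rf (nat_lit 353) (nat_lit 583706118939841765935136)) (.cons (.rf (nat_lit 353) (nat_lit 547107778697602015528992)) (.cons (.br (nat_lit 6) (nat_lit 1) (.cons (.rf (nat_lit 102) (nat_lit 18116342389027)) (.cons (.rf (nat_lit 102) (nat_lit 18081982683427)) (.cons (.br (nat_lit 14) (nat_lit 1) (.cons (.ev (nat_lit 20789708457903941960850331578532099) (nat_lit 3)) (.cons (.ev (nat_lit 1361150257709129262519047996722945065219) (nat_lit 3)) (.cons (.br (nat_lit 15) (nat_lit 1) (.cons (.ev (nat_lit 1366446400504834786700149102978749563139) (nat_lit 3)) (.cons (.rf (nat_lit 217) (nat_lit 583514539)) .nil))) .nil)))) (.cons (.br (nat_lit 14) (nat_lit 1) (.cons (.kr (nat_lit 5192296858534827628530496329220096) (nat_lit 1329227995784915872903807060280344576) (nat_lit 14) (nat_lit 0)) (.cons (.rf (nat_lit 354) (nat_lit 677582165103132179601393696))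 (.cons (.rf (nat_lit 354) (nat_lit 640105464695044589284822048)) .nil)))) .nil))))) .nil))))) (.cons (.rf (nat_lit 93) (nat_lit 480519392)) (.cons (.rf (nat_lit 93) (nat_lit 514073824)) (.cons (.br (nat_lit 14) (nat_lit 1) (.cons (.rf (nat_lit 356) (nat_lit 19926519232773908561233952)) (.cons (.rf (nat_lit 357) (nat_lit 19926519232773908561233952)) (.cons (.kr (nat_lit 5192296858534827628530496329220096) (nat_lit 1329227995784915872903807060280344576) (nat_lit 14) (nat_lit 0)) (.cons (.rf (nat_lit 358) (nat_lit 19926519232773908561233952)) (.cons (.br (nat_lit 15) (nat_lit 1) (.cons (.rf (nat_lit 356) (nat_lit 19889920892531668810827808)) (.cons (.rf (nat_lit 357) (nat_lit 19889920892531668810827808)) (.cons (.rf (nat_lit 358) (nat_lit 19889920892531668810827808)) (.cons (.rf (nat_lit 217) (nat_lit 583514539)) .nil))))) .nil)))))) .nil)))))),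
 (.br (nat_lit 17) (nat_lit 1) (.cons (.ev (nat_lit 174905136617724940068147622035557376459009) (nat_lit 2)) (.cons (.rf (nat_lit 227) (nat_lit 233146574533872341820679)) .nil))),
 (.br (nat_lit 15) (nat_lit 1) (.cons (.rf (nat_lit 359) (nat_lit 349724917384757801748619)) (.cons (.rf (nat_lit 359) (nat_lit 349724917384756761529483)) (.cons (.rf (nat_lit 217) (nat_lit 549960107)) (.cons (.br (nat_lit 16) (nat_lit 1) (.cons (.rf (nat_lit 360) (nat_lit 677582165103132179601393696)) (.cons (.rf (nat_lit 360) (nat_lit 677582165103132178561174560)) (.cons (.ev (nat_lit 680575138956001209008699040074616013059) (nat_lit 2)) .nil)))) .nil))))),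
 (.br (nat_lit 6) (nat_lit 1) (.cons (.rf (nat_lit 93) (nat_lit 205621280)) (.cons (.rf (nat_lit 93) (nat_lit 205589536)) (.cons (.kr (nat_lit 281474976710656) (nat_lit 72057594037927936) (nat_lit 6) (nat_lit 0)) (.cons (.rf (nat_lit 93) (nat_lit 344168608)) (.cons (.br (nat_lit 7) (nat_lit 1) (.cons (.rf (nat_lit 93) (nat_lit 239175712)) (.cons (.rf (nat_lit 93) (nat_lit 239143968)) (.cons (.rf (nat_lit 217) (nat_lit 344168608)) (.cons (.rf (nat_lit 93) (nat_lit 377691296)) (.cons (.br (nat_lit 4) (nat_lit 0) (.cons (.br (nat_lit 2) (nat_lit 1) (.cons (.kr (nat_lit 65536) (nat_lit 16777216) (nat_lit 2) (nat_lit 0)) (.cons (.rf (nat_lit 349) (nat_lit 328870571452635296)) (.cons (.rf (nat_lit 349) (nat_lit 328870570412416160)) (.cons (.rf (nat_lit 93) (nat_lit 406947872)) (.cons (.br (nat_lit 3) (nat_lit 1) (.cons (.rf (nat_lit 349) (nat_lit 333519445123206176)) (.cons (.rf (nat_lit 349) (nat_lit 333485360296299552)) (.cons (.rf (nat_lit 217) (nat_lit 406947872)) (.cons (.rf (nat_lit 93) (nat_lit 440470560)) (.cons (.br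 (nat_lit 12) (nat_lit 1) (.cons (.rf (nat_lit 352) (nat_lit 417691104113942693920)) (.cons (.rf (nat_lit 352) (nat_lit 381950503386269976608)) (.cons (.rf (nat_lit 351) (nat_lit 417691104113942693920)) (.cons (.rf (nat_lit 346) (nat_lit 16088301270304800)) .nil))))) .nil)))))) .nil)))))) (.cons (.br (nat_lit 9) (nat_lit 0) (.cons (.br (nat_lit 12) (nat_lit 1) (.cons (.br (nat_lit 12) (nat_lit 1) (.cons (.br (nat_lit 14) (nat_lit 0) (.cons (.br (nat_lit 13) (nat_lit 1) (.cons (.br (nat_lit 2) (nat_lit 1) (.cons (.kr (nat_lit 65536) (nat_lit 16777216) (nat_lit 2) (nat_lit 0)) (.cons (.rf (nat_lit 359) (nat_lit 583706039908944367032480)) (.cons (.rf (nat_lit 359) (nat_lit 583706039908943326813344)) (.cons (.rf (nat_lit 93) (nat_lit 474056736)) (.cons (.rf (nat_lit 93) (nat_lit 507611168)) (.cons (.br (nat_lit 3) (nat_lit 1) (.cons (.rf (nat_lit 359) (nat_lit 583706039874859506571424)) (.cons (.rf (nat_lit 359) (nat_lit 583706039874858466352288)) (.cons (.rf (nat_lit 93) (nat_lit 474024992)) (.cons (.rf (nat_lit 93) (nat_lit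 507579424)) (.cons (.rf (nat_lit 217) (nat_lit 541165600)) (.cons (.br (nat_lit 14) (nat_lit 1) (.cons (.rf (nat_lit 359) (nat_lit 115739498058888609241353)) (.cons (.rf (nat_lit 359) (nat_lit 115739498058887569022217)) (.cons (.kr (nat_lit 5192296858534827628530496329220096) (nat_lit 1329227995784915872903807060280344576) (nat_lit 14) (nat_lit 0)) (.cons (.rf (nat_lit 361) (nat_lit 677582165024101282202491040)) (.cons (.rf (nat_lit 361) (nat_lit 640105464616013692926138528)) .nil)))))) .nil))))))) .nil))))))) .nil)) .nil)) .nil)) .nil)) .nil)) .nil))) .nil)))))) .nil)))))),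
 (.br (nat_lit 5) (nat_lit 0) .nil),
 (.br (nat_lit 4) (nat_lit 0) (.cons (.ev (nat_lit 4740813228047161360641) (nat_lit 1)) (.cons (.rf (nat_lit 218) (nat_lit 10037236768)) (.cons (.br (nat_lit 9) (nat_lit 0) (.cons (.br (nat_lit 11) (nat_lit 0) (.cons (.rf (nat_lit 231) (nat_lit 13872820808453185)) .nil)) (.cons (.rf (nat_lit 218) (nat_lit 4707324960)) .nil))) .nil)))),
 (.br (nat_lit 9) (nat_lit 0) (.cons (.br (nat_lit 11) (nat_lit 0) (.cons (.rf (nat_lit 231) (nat_lit 13872820808453185)) .nil)) (.cons (.rf (nat_lit 363) (nat_lit 421285498912)) .nil))),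
 (.br (nat_lit 11) (nat_lit 1) (.cons (.ev (nat_lit 20282719088680010852163012002048) (nat_lit 1)) (.cons (.rf (nat_lit 130) (nat_lit 16917107774722)) .nil))),
 (.br (nat_lit 12) (nat_lit 1) (.cons (.ev (nat_lit 1334420768323148092924333144609392391) (nat_lit 3)) (.cons (.ev (nat_lit 340282366920939672407713306303195578368) (nat_lit 1)) (.cons (.br (nat_lit 16) (nat_lit 1) (.cons (.ev (nat_lit 1334460857775769828263598291175867139) (nat_lit 2)) (.cons (.ev (nat_lit 681899154612056956818623166771229754627) (nat_lit 3)) .nil))) .nil)))),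
 (.br (nat_lit 13) (nat_lit 1) (.cons (.ev (nat_lit 5253144090977319502733543160676355) (nat_lit 2)) (.cons (.zr (nat_lit 1329228313008259865602119335673856003) (nat_lit 15617455394811786442612165604147456) (nat_lit 8) (nat_lit 10)) (.cons (.rf (nat_lit 250) (nat_lit 622592940748799688707137)) .nil)))),
 (.br (nat_lit 6) (nat_lit 1) (.cons (.rf (nat_lit 102) (nat_lit 18047622846755)) (.cons (.ev (nat_lit 1334460857466289559183141101052690690) (nat_lit 2)) (.cons (.ev (nat_lit 1344804886671223773273550077852386049) (nat_lit 2)) (.cons (.br (nat_lit 12) (nat_lit 1) (.cons (.rf (nat_lit 40) (nat_lit 17910220305484)) (.cons (.br (nat_lit 16) (nat_lit 1) (.cons (.ev (nat_lit 340282366921249162121382051103136284673) (nat_lit 1)) (.cons (.ev (nat_lit 340282366920939672407713306303195578368) (nat_lit 1)) .nil))) (.cons (.br (nat_lit 13) (nat_lit 1) (.cons (.rf (nat_lit 253) (nat_lit 661552464232474261720129)) (.cons (.ev (nat_lit 522675050132549510644717438718479054405891) (nat_lit 3)) .nil))) .nil)))) .nil)))))]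

theorem c15 : chkAll C T R L15 (nat_lit 341) = true := by decide +kernel

theorem l15 : (nat_lit 341) + L15.length = (nat_lit 370) := by decide +kernel

/-- part of the certificates -/
def L16 : List Prf := [(.br (nat_lit 5) (nat_lit 1) (.cons (.rf (nat_lit 258) (nat_lit 583595333664456812103712)) .nil)),
 (.br (nat_lit 5) (nat_lit 1) (.cons (.rf (nat_lit 370) (nat_lit 583706118939841765935136)) (.cons (.br (nat_lit 5) (nat_lit 1) (.cons (.rf (nat_lit 370) (nat_lit 583706118939841765935136)) .nil)) .nil))),
 (.br (nat_lit 12) (nat_lit 1) (.cons (.rf (nat_lit 369) (nat_lit 19922974103961590038628384)) (.cons (.ev (nat_lit 5212579268143201737496011070308608) (nat_lit 1)) (.cons (.rf (nat_lit 130) (nat_lit 7047380210946)) (.cons (.br (nat_lit 13) (nat_lit 1) (.cons (.br (nat_lit 6) (nat_lit 1) (.cons (.ev (nat_lit 681899194700271676219244356050989744387) (nat_lit 2)) (.cons (.ev (nat_lit 20361638979832639943281850974465) (nat_lit 1)) .nil))) (.cons (.rf (nat_lit 130) (nat_lit 7013054027010)) (.cons (.br (nat_lit 16) (nat_lit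 1) (.cons (.ev (nat_lit 1362495163611399406302969583361247807239) (nat_lit 3)) (.cons (.ev (nat_lit 87112291124295412275236155546677694104322) (nat_lit 2)) .nil))) .nil)))) .nil))))),
 (.br (nat_lit 5) (nat_lit 1) (.cons (.br (nat_lit 6) (nat_lit 1) (.cons (.rf (nat_lit 366) (nat_lit 18240815054650796509216)) (.cons (.rf (nat_lit 366) (nat_lit 18130023231773957261344)) (.cons (.ev (nat_lit 5253144400457625477244029679894530) (nat_lit 2)) (.cons (.br (nat_lit 13) (nat_lit 1) (.cons (.rf (nat_lit 12) (nat_lit 18007930975305)) (.cons (.rf (nat_lit 12) (nat_lit 17904851760204)) (.cons (.ev (nat_lit 1334460857775769828263598291175867139) (nat_lit 2)) (.cons (.br (nat_lit 9) (nat_lit 1) (.cons (.ev (nat_lit 1329228233471835434579612909158007043) (nat_lit 2)) (.cons (.rf (nat_lit 367) (nat_lit 19926519232773908561233952)) (.cons (.br (nat_lit 12) (nat_lit 1) (.cons (.rf (nat_lit 367) (nat_lit 19922974103961590038628384)) (.cons (.ev (nat_lit 87112291144339824270113019802044967419904) (nat_lit 1)) .nil))) .nil)))) .nil))))) .nil)))))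 (.cons (.rf (nat_lit 368) (nat_lit 583706118939841765935136)) (.cons (.rf (nat_lit 368) (nat_lit 580160990127523243329568)) (.cons (.ev (nat_lit 1344804887290184311145108181973336835) (nat_lit 2)) (.cons (.br (nat_lit 9) (nat_lit 1) (.cons (.rf (nat_lit 369) (nat_lit 19926519232773908561233952)) (.cons (.ev (nat_lit 1329228233471835434579612909158007043) (nat_lit 2)) (.cons (.br (nat_lit 12) (nat_lit 1) (.cons (.rf (nat_lit 40) (nat_lit 18013299520585)) (.cons (.ev (nat_lit 20361948460101575722342501384448) (nat_lit 1)) (.cons (.rf (nat_lit 371) (nat_lit 661663249507859215551553)) .nil)))) (.cons (.rf (nat_lit 372) (nat_lit 19926519232773908561233952)) (.cons (.br (nat_lit 12) (nat_lit 1) (.cons (.rf (nat_lit 369) (nat_lit 19922974103961590038628384)) (.cons (.rf (nat_lit 371) (nat_lit 661552464232474261720129)) (.cons (.rf (nat_lit 372) (nat_lit 19922974103961590038628384)) (.cons (.br (nat_lit 13) (nat_lit 1) (.cons (.br (nat_lit 6) (nat_lit 1) (.cons (.ev (nat_lit 20361638979832639943281850974465) (nat_lit 1)) (.cons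 (.ev (nat_lit 174225906283971906190245983396388342464769) (nat_lit 2)) .nil))) (.cons (.br (nat_lit 16) (nat_lit 1) (.cons (.rf (nat_lit 299) (nat_lit 661627474002104126934081)) (.cons (.ev (nat_lit 348450509342157144314435018424585751496451) (nat_lit 3)) .nil))) (.cons (.ev (nat_lit 87112291144339824270113019802044967419904) (nat_lit 1)) .nil)))) .nil))))) .nil)))))) .nil)))))),
 (.br (nat_lit 6) (nat_lit 1) (.cons (.ev (nat_lit 1365615116157728013208521047894524679) (nat_lit 3)) (.cons (.ev (nat_lit 1344804886671223773273550077852386049) (nat_lit 2)) (.cons (.br (nat_lit 12) (nat_lit 1) (.cons (.ev (nat_lit 340282366921249162121382051103136284673) (nat_lit 1)) (.cons (.rf (nat_lit 239) (nat_lit 661662131523370941025345)) .nil))) .nil)))),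
 (.br (nat_lit 5) (nat_lit 1) (.cons (.rf (nat_lit 68) (nat_lit 17804152939592)) (.cons (.rf (nat_lit 374) (nat_lit 19926519232773908561233952)) (.cons (.br (nat_lit 6) (nat_lit 1) (.cons (.rf (nat_lit 12) (nat_lit 19140696220776)) (.cons (.rf (nat_lit 374) (nat_lit 19926519232773907521014816)) (.cons (.ev (nat_lit 1344804886671223773273550077852386049) (nat_lit 2)) .nil)))) .nil)))),
 (.br (nat_lit 4) (nat_lit 1) (.cons (.rf (nat_lit 68) (nat_lit 15569661567015)) (.cons (.rf (nat_lit 68) (nat_lit 5982969503783)) (.cons (.rf (nat_lit 371) (nat_lit 546992518212117359331360)) .nil)))),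
 (.br (nat_lit 5) (nat_lit 1) (.cons (.rf (nat_lit 375) (nat_lit 19926519232773908561233952)) (.cons (.ev (nat_lit 5212579268143201737496011070308608) (nat_lit 1)) (.cons (.br (nat_lit 12) (nat_lit 1) (.cons (.rf (nat_lit 376) (nat_lit 19421407837587433982049)) (.cons (.rf (nat_lit 12) (nat_lit 18797109355912)) (.cons (.br (nat_lit 6) (nat_lit 1) (.cons (.zr (nat_lit 681893961996428861837609633107937329409) (nat_lit 15576890575613927834732209448681472) (nat_lit 8) (nat_lit 10)) (.cons (.zr (nat_lit 174225901132081408129249150551200882491649) (nat_lit 15576890575604519995254617577357312) (nat_lit 8) (nat_lit 11)) .nil))) .nil)))) .nil)))),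
 (.br (nat_lit 13) (nat_lit 1) (.cons (.rf (nat_lit 373) (nat_lit 12115167465924145023119)) (.cons (.rf (nat_lit 373) (nat_lit 12115167465923104803983)) (.cons (.kr (nat_lit 20282409603670117168020960837632) (nat_lit 79228167236630820463189164032) (nat_lit 8) (nat_lit 0)) (.cons (.br (nat_lit 5) (nat_lit 1) (.cons (.rf (nat_lit 375) (nat_lit 19926519232773908561233952)) (.cons (.rf (nat_lit 376) (nat_lit 19421407837587466488897)) (.cons (.rf (nat_lit 377) (nat_lit 19926519232773908561233952)) (.cons (.br (nat_lit 5) (nat_lit 1) (.cons (.rf (nat_lit 375) (nat_lit 19926519232773908561233952)) (.cons (.rf (nat_lit 376) (nat_lit 19421407837587466488897)) (.cons (.rf (nat_lit 377) (nat_lit 19926519232773908561233952)) .nil)))) .nil))))) .nil))))),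
 (.br (nat_lit 12) (nat_lit 1) (.cons (.ev (nat_lit 1344845610565726124641085150273340163) (nat_lit 2)) (.cons (.ev (nat_lit 5192376396187074080696028260008193) (nat_lit 1)) (.cons (.ev (nat_lit 681909579451823673587158757134712176899) (nat_lit 2)) (.cons (.br (nat_lit 5) (nat_lit 1) (.cons (.br (nat_lit 6) (nat_lit 1) (.cons (.ev (nat_lit 681899194700271676219244356050989744387) (nat_lit 2)) (.cons (.ev (nat_lit 1355271087257438364919550010735198977) (nat_lit 3)) .nil))) (.cons (.rf (nat_lit 130) (nat_lit 7013052978466)) (.cons (.br (nat_lit 17) (nat_lit 1) (.cons (.rf (nat_lit 299) (nat_lit 624992205334769344580673)) (.cons (.ev (nat_lit 174906471017813783117135838562353529619203) (nat_lit 2)) .nil))) .nil)))) .nil))))),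
 (.br (nat_lit 5) (nat_lit 1) (.cons (.br (nat_lit 6) (nat_lit 1) (.cons (.zr (nat_lit 26042613932307189237088432194584577) (nat_lit 2045681885989282958514009128737945158400) (nat_lit 8) (nat_lit 7)) .nil)) (.cons (.ev (nat_lit 174906471017813783117135838562353529619203) (nat_lit 2)) .nil))),
 (.br (nat_lit 12) (nat_lit 1) (.cons (.ev (nat_lit 1362484657323222287515106448840662713093) (nat_lit 3)) (.cons (.rf (nat_lit 234) (nat_lit 21156584917449420389354561)) .nil))),
 (.br (nat_lit 6) (nat_lit 1) (.cons (.ev (nat_lit 1208925891954797700972801) (nat_lit 1)) (.cons (.rf (nat_lit 381) (nat_lit 677582165103132179601393696)) (.cons (.rf (nat_lit 381) (nat_lit 639533873743604757564590223)) .nil)))),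
 (.br (nat_lit 6) (nat_lit 1) (.cons (.rf (nat_lit 382) (nat_lit 677582165103132179601393696)) (.cons (.ev (nat_lit 5192376396187074080696028260008193) (nat_lit 1)) (.cons (.ev (nat_lit 1334460857775769828263598291175867139) (nat_lit 2)) .nil)))),
 (.br (nat_lit 6) (nat_lit 1) (.cons (.rf (nat_lit 382) (nat_lit 677582165103132179601393696)) (.cons (.ev (nat_lit 5192376396187074080696028260008193) (nat_lit 1)) (.cons (.rf (nat_lit 383) (nat_lit 677582165103132179601393696)) (.cons (.rf (nat_lit 383) (nat_lit 639533873743604757564590223)) .nil))))),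
 (.br (nat_lit 17) (nat_lit 1) (.cons (.ev (nat_lit 1334460857775769828263037540212278019) (nat_lit 2)) (.cons (.ev (nat_lit 87453897546959380838556186757273195970560) (nat_lit 1)) .nil))),
 (.br (nat_lit 12) (nat_lit 1) (.cons (.rf (nat_lit 384) (nat_lit 677578619974319861078788128)) (.cons (.rf (nat_lit 384) (nat_lit 677578619974319860038568992)) (.cons (.ev (nat_lit 341616787213891399192175034135107076353) (nat_lit 1)) (.cons (.br (nat_lit 16) (nat_lit 1) (.cons (.rf (nat_lit 385) (nat_lit 677582165103132179601393696)) (.cons (.rf (nat_lit 385) (nat_lit 677582165103132178561174560)) (.cons (.kr (nat_lit 340287579500207815590859659378463604737) (nat_lit 87113615159835569210039407793922958688512) (nat_lit 0) (nat_lit 2)) .nil)))) .nil))))),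
 (.br (nat_lit 4) (nat_lit 0) (.cons (.rf (nat_lit 218) (nat_lit 15406013472)) (.cons (.rf (nat_lit 218) (nat_lit 12285451296)) (.cons (.br (nat_lit 11) (nat_lit 0) (.cons (.rf (nat_lit 218) (nat_lit 4776598560)) (.cons (.br (nat_lit 14) (nat_lit 0) (.cons (.br (nat_lit 8) (nat_lit 1) (.cons (.rf (nat_lit 373) (nat_lit 583706118939841765935136)) (.cons (.rf (nat_lit 373) (nat_lit 583706118939840725716000)) (.cons (.rf (nat_lit 378) (nat_lit 583706118939841765935136)) (.cons (.rf (nat_lit 378) (nat_lit 580160990127523243329568)) (.cons (.kr (nat_lit 20282409603651670423951546253313) (nat_lit 1329227995784915891350551133989896448) (nat_lit 0) (nat_lit 2)) (.cons (.br (nat_lit 13) (nat_lit 1) (.cons (.rf (nat_lit 373) (nat_lit 12115167465924145023119)) (.cons (.rf (nat_lit 373) (nat_lit 12115167465923104803983)) (.cons (.rf (nat_lit 378) (nat_lit 12115167465924145023119)) (.cons (.rf (nat_lit 378) (nat_lit 8570038653605622417551)) (.cons (.br (nat_lit 9) (nat_lit 1) (.cons (.rf (nat_lit 379) (nat_lit 19926519232773908561233952))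 (.cons (.rf (nat_lit 379) (nat_lit 19926519232773907521014816)) (.cons (.ev (nat_lit 1329228233471835434579612909158007043) (nat_lit 2)) (.cons (.ev (nat_lit 681899194700271676219243790901979382019) (nat_lit 2)) (.cons (.br (nat_lit 12) (nat_lit 1) (.cons (.rf (nat_lit 379) (nat_lit 19922974103961590038628384)) (.cons (.rf (nat_lit 379) (nat_lit 19922974103961588998409248)) (.cons (.ev (nat_lit 681909579451823673587158757134712176899) (nat_lit 2)) (.cons (.br (nat_lit 16) (nat_lit 1) (.cons (.rf (nat_lit 380) (nat_lit 677582165103132179601393696)) (.cons (.rf (nat_lit 380) (nat_lit 677582165103132178561174560)) (.cons (.zr (nat_lit 20789469843766592463704363093721090) (nat_lit 87455226754911677369415160117140522009088) (nat_lit 8) (nat_lit 7)) .nil)))) .nil))))) .nil)))))) (.cons (.br (nat_lit 9) (nat_lit 1) (.cons (.rf (nat_lit 384) (nat_lit 677582165103132179601393696)) (.cons (.rf (nat_lit 384) (nat_lit 677582165103132178561174560)) (.cons (.ev (nat_lit 1329228233471835434579612909158007043) (nat_lit 2)) (.cons (.rf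 (nat_lit 386) (nat_lit 677582165103132179601393696)) (.cons (.rf (nat_lit 386) (nat_lit 639533873743604757564590223)) .nil)))))) .nil))))))) .nil))))))) .nil)) .nil))) .nil)))),
 (.br (nat_lit 12) (nat_lit 1) (.cons (.ev (nat_lit 10405114432553498854092919682433538) (nat_lit 2)) (.cons (.rf (nat_lit 130) (nat_lit 18052052882690)) .nil))),
 (.br (nat_lit 12) (nat_lit 1) (.cons (.ev (nat_lit 79538861172272062735576989953) (nat_lit 1)) (.cons (.ev (nat_lit 681899154135450041619675428346923188483) (nat_lit 2)) (.cons (.br (nat_lit 16) (nat_lit 1) (.cons (.ev (nat_lit 340282407486067160498975344170098557186) (nat_lit 2)) (.cons (.ev (nat_lit 341616787293119561687992909125623283968) (nat_lit 1)) .nil))) .nil)))),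
 (.br (nat_lit 6) (nat_lit 1) (.cons (.rf (nat_lit 388) (nat_lit 583706118939841765935136)) (.cons (.rf (nat_lit 388) (nat_lit 13477012183165814540431)) (.cons (.kr (nat_lit 20282410812577562377645440696320) (nat_lit 5192297168019855896620738291957760) (nat_lit 2) (nat_lit 0)) (.cons (.br (nat_lit 9) (nat_lit 1) (.cons (.ev (nat_lit 1329228233476690138292704311360357637) (nat_lit 3)) (.cons (.rf (nat_lit 12) (nat_lit 18007930975305)) (.cons (.rf (nat_lit 389) (nat_lit 19926519232773908561233952)) (.cons (.br (nat_lit 12) (nat_lit 1) (.cons (.rf (nat_lit 12) (nat_lit 17904851760204)) (.cons (.rf (nat_lit 389) (nat_lit 19356290126017232609839247)) (.cons (.br (nat_lit 13) (nat_lit 1) (.cons (.ev (nat_lit 1355311493003768471728261839049720577) (nat_lit 3)) (.cons (.ev (nat_lit 174225916708971986132694281498072266572035) (nat_lit 2)) .nil))) .nil)))) .nil))))) .nil))))),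
 (.br (nat_lit 9) (nat_lit 1) (.cons (.ev (nat_lit 20361637780388375007519836209666) (nat_lit 2)) (.cons (.ev (nat_lit 680569946421458186656724240858513277442) (nat_lit 2)) (.cons (.br (nat_lit 12) (nat_lit 1) (.cons (.ev (nat_lit 680569987144733709580754286348232425986) (nat_lit 2)) (.cons (.ev (nat_lit 5253303473344229848575104610468354) (nat_lit 2)) .nil))) .nil)))),
 (.br (nat_lit 9) (nat_lit 1) (.cons (.ev (nat_lit 680569926218893292983401876587970429442) (nat_lit 2)) (.cons (.ev (nat_lit 20282409608374037189391384838401) (nat_lit 1)) (.cons (.br (nat_lit 12) (nat_lit 1) (.cons (.ev (nat_lit 5212658806994929276591903550210305) (nat_lit 1)) (.cons (.ev (nat_lit 681909538887006893580046554198783951107) (nat_lit 2)) .nil))) .nil)))),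
 (.br (nat_lit 13) (nat_lit 1) (.cons (.ev (nat_lit 681909579451823692513806409344577963265) (nat_lit 3)) (.cons (.rf (nat_lit 239) (nat_lit 661663249507859215551553)) .nil))),
 (.br (nat_lit 12) (nat_lit 1) (.cons (.kr (nat_lit 20282409603651742481541289213952) (nat_lit 5192296858539549995013365974433792) (nat_lit 7) (nat_lit 0)) (.cons (.rf (nat_lit 393) (nat_lit 677582165103132179601393696)) (.cons (.rf (nat_lit 393) (nat_lit 640105464695078674145283104)) .nil))))]

theorem c16 : chkAll C T R L16 (nat_lit 370) = true := by decide +kernel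

theorem l16 : (nat_lit 370) + L16.length = (nat_lit 395) := by decide +kernel

/-- part of the certificates -/
def L17 : List Prf := [(.br (nat_lit 12) (nat_lit 1) (.cons (.ev (nat_lit 341616787292811290344804125253979603200) (nat_lit 1)) (.cons (.ev (nat_lit 5253303473344229848575104610468354) (nat_lit 2)) .nil))),
 (.br (nat_lit 9) (nat_lit 1) (.cons (.ev (nat_lit 1344865972203487586656105704699461891) (nat_lit 2)) (.cons (.rf (nat_lit 395) (nat_lit 677582165103132179601393696)) (.cons (.rf (nat_lit 395) (nat_lit 640105464695078674145283104)) .nil)))),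
 (.br (nat_lit 12) (nat_lit 1) (.cons (.ev (nat_lit 340292751515278139379129929482345906434) (nat_lit 2)) (.cons (.ev (nat_lit 681930389362533354674275370148624073985) (nat_lit 3)) (.cons (.br (nat_lit 13) (nat_lit 1) (.cons (.ev (nat_lit 340292751515586410759211921125960319234) (nat_lit 2)) (.cons (.ev (nat_lit 681930389363776149380092116713641084161) (nat_lit 3)) .nil))) .nil)))),
 (.br (nat_lit 9) (nat_lit 1) (.cons (.rf (nat_lit 395) (nat_lit 677582129327628554816555040)) (.cons (.rf (nat_lit 394) (nat_lit 677010717358381452456200335)) (.cons (.rf (nat_lit 397) (nat_lit 19926519232773908561233952)) (.cons (.br (nat_lit 12) (nat_lit 1) (.cons (.rf (nat_lit 239) (nat_lit 661400239294163780242497)) (.cons (.rf (nat_lit 397) (nat_lit 19356290126017232609839247)) (.cons (.rf (nat_lit 293) (nat_lit 624992205334769312073825)) .nil)))) .nil))))),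
 (.br (nat_lit 5) (nat_lit 1) (.cons (.rf (nat_lit 390) (nat_lit 583706118939841765935136)) (.cons (.rf (nat_lit 390) (nat_lit 583670343436216981096480)) (.cons (.rf (nat_lit 390) (nat_lit 575289792101587836045344)) (.cons (.rf (nat_lit 390) (nat_lit 575254016597963051206688)) (.cons (.br (nat_lit 6) (nat_lit 1) (.cons (.rf (nat_lit 390) (nat_lit 583706118939840725716000)) (.cons (.rf (nat_lit 390) (nat_lit 583670343436215940877344)) (.cons (.rf (nat_lit 390) (nat_lit 575289792101586795826208)) (.cons (.rf (nat_lit 390) (nat_lit 575254016597962010987552)) (.cons (.br (nat_lit 8) (nat_lit 1) (.cons (.ev (nat_lit 5192297169233504155057306109739265) (nat_lit 1)) (.cons (.ev (nat_lit 79228162532711364241741840641) (nat_lit 1)) (.cons (.rf (nat_lit 391) (nat_lit 19926519232773908561233952)) (.cons (.rf (nat_lit 392) (nat_lit 19926519232773908561233952)) (.cons (.br (nat_lit 9) (nat_lit 1) (.cons (.rf (nat_lit 391) (nat_lit 19926483457270283776395296)) (.cons (.ev (nat_lit 20282409608374037189391384838401) (nat_lit 1)) (.cons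 (.rf (nat_lit 392) (nat_lit 19926483457270283776395296)) (.cons (.br (nat_lit 12) (nat_lit 1) (.cons (.ev (nat_lit 5212658806994929276591903550210305) (nat_lit 1)) (.cons (.rf (nat_lit 392) (nat_lit 19918102905935654631344160)) (.cons (.ev (nat_lit 174225906283814066407940724653399700668675) (nat_lit 2)) .nil)))) .nil))))) .nil)))))) (.cons (.br (nat_lit 8) (nat_lit 1) (.cons (.rf (nat_lit 394) (nat_lit 677582165103132179601393696)) (.cons (.rf (nat_lit 394) (nat_lit 677011935996375503649998991)) (.cons (.rf (nat_lit 396) (nat_lit 677582165103132179601393696)) (.cons (.rf (nat_lit 398) (nat_lit 677582165103132179601393696)) (.cons (.rf (nat_lit 398) (nat_lit 640105464695078674145283104)) .nil)))))) .nil))))))) .nil)))))),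
 (.br (nat_lit 6) (nat_lit 1) (.cons (.ev (nat_lit 1344865971895216206574398834647040259) (nat_lit 2)) .nil)),
 (.br (nat_lit 12) (nat_lit 1) (.cons (.br (nat_lit 6) (nat_lit 1) (.cons (.ev (nat_lit 20361637780388375287895351689730) (nat_lit 2)) (.cons (.rf (nat_lit 102) (nat_lit 18051952317698)) .nil))) (.cons (.ev (nat_lit 1334461016851074321023253415964312323) (nat_lit 2)) (.cons (.br (nat_lit 13) (nat_lit 1) (.cons (.rf (nat_lit 119) (nat_lit 17812709217538)) (.cons (.ev (nat_lit 1334461016229676968114880133455807235) (nat_lit 2)) (.cons (.br (nat_lit 6) (nat_lit 1) (.cons (.rf (nat_lit 400) (nat_lit 677582165103132179601393696)) (.cons (.rf (nat_lit 400) (nat_lit 640105428919575050400663584)) .nil))) .nil)))) .nil)))),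
 (.br (nat_lit 6) (nat_lit 1) (.cons (.rf (nat_lit 102) (nat_lit 18047622846755)) (.cons (.rf (nat_lit 102) (nat_lit 18013263141155)) (.cons (.ev (nat_lit 5192297169233504155057306109739265) (nat_lit 1)) (.cons (.br (nat_lit 12) (nat_lit 1) (.cons (.rf (nat_lit 40) (nat_lit 17910220305484)) (.cons (.br (nat_lit 13) (nat_lit 1) (.cons (.ev (nat_lit 5212658496305734448576574533992705) (nat_lit 1)) (.cons (.ev (nat_lit 10405114124282118772101276068020738) (nat_lit 2)) .nil))) (.cons (.br (nat_lit 13) (nat_lit 1) (.cons (.kr (nat_lit 20282410812577490320051402768384) (nat_lit 79537647524085683761797136384) (nat_lit 2) (nat_lit 0)) (.cons (.ev (nat_lit 5212658496305734448576574533992705) (nat_lit 1)) .nil))) .nil)))) .nil))))),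
 (.br (nat_lit 12) (nat_lit 1) (.cons (.ev (nat_lit 5212658496305734448576574533992705) (nat_lit 1)) (.cons (.rf (nat_lit 255) (nat_lit 21174442659472880612543553)) .nil))),
 (.br (nat_lit 6) (nat_lit 1) (.cons (.rf (nat_lit 102) (nat_lit 18013263141155)) (.cons (.rf (nat_lit 102) (nat_lit 17910183926147)) (.cons (.br (nat_lit 9) (nat_lit 1) (.cons (.ev (nat_lit 5233099675346220518723926924329474) (nat_lit 2)) (.cons (.ev (nat_lit 681909579293986328022861622636288409859) (nat_lit 2)) (.cons (.br (nat_lit 12) (nat_lit 1) (.cons (.ev (nat_lit 681899194858109021783540925400403149059) (nat_lit 2)) (.cons (.ev (nat_lit 5212658496305734448576574533992705) (nat_lit 1)) .nil))) .nil)))) (.cons (.br (nat_lit 9) (nat_lit 1) (.cons (.ev (nat_lit 5233099675346220518723926924329474) (nat_lit 2)) (.cons (.rf (nat_lit 403) (nat_lit 677582165103132179601393696)) (.cons (.rf (nat_lit 403) (nat_lit 639533873743604756524371087)) .nil)))) .nil))))),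
 (.br (nat_lit 6) (nat_lit 1) (.cons (.ev (nat_lit 5192297169233504155057306109739265) (nat_lit 1)) (.cons (.ev (nat_lit 79228162532711364241741840641) (nat_lit 1)) (.cons (.rf (nat_lit 404) (nat_lit 19926519232773908561233952)) (.cons (.br (nat_lit 9) (nat_lit 1) (.cons (.br (nat_lit 16) (nat_lit 1) (.cons (.ev (nat_lit 680569966942168834723110877261432226306) (nat_lit 2)) (.cons (.ev (nat_lit 340282367000167834903530898727796539393) (nat_lit 1)) .nil))) (.cons (.br (nat_lit 12) (nat_lit 1) (.cons (.ev (nat_lit 1334461016229676968114880133455807235) (nat_lit 2)) (.cons (.kr (nat_lit 20282410812577490320051402768384) (nat_lit 79537647524085683761797136384) (nat_lit 2) (nat_lit 0)) .nil))) (.cons (.br (nat_lit 12) (nat_lit 1) (.cons (.ev (nat_lit 1344845452111818911002266262191604483) (nat_lit 2)) (.cons (.ev (nat_lit 340282367000167834903530898727796539393) (nat_lit 1)) .nil))) (.cons (.br (nat_lit 16) (nat_lit 1) (.cons (.ev (nat_lit 340287559218106488023191247345739169793) (nat_lit 1)) (.cons (.rf (nat_lit 278) (nat_lit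 661438250765799820233793)) (.cons (.zr (nat_lit 1361129467684685935660493366427694137347) (nat_lit 174225916668406853823085214859700358611200) (nat_lit 8) (nat_lit 15)) .nil)))) .nil))))) .nil))))),
 (.br (nat_lit 5) (nat_lit 1) (.cons (.rf (nat_lit 399) (nat_lit 583706118939841765935136)) (.cons (.rf (nat_lit 401) (nat_lit 583706118939841765935136)) (.cons (.rf (nat_lit 401) (nat_lit 13477012183165814540431)) (.cons (.ev (nat_lit 1344845451490421631880869274521305859) (nat_lit 2)) (.cons (.br (nat_lit 6) (nat_lit 1) (.cons (.rf (nat_lit 402) (nat_lit 19926519232773908561233952)) (.cons (.rf (nat_lit 402) (nat_lit 19356290126017232609839247)) (.cons (.rf (nat_lit 404) (nat_lit 19926519232773908561233952)) (.cons (.rf (nat_lit 405) (nat_lit 19926519232773908561233952)) (.cons (.br (nat_lit 6) (nat_lit 1) (.cons (.rf (nat_lit 402) (nat_lit 19926519232773908561233952)) (.cons (.rf (nat_lit 402) (nat_lit 19356290126017232609839247)) (.cons (.rf (nat_lit 404) (nat_lit 19926519232773908561233952)) (.cons (.rf (nat_lit 405) (nat_lit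 19926519232773908561233952)) .nil))))) .nil)))))) .nil)))))),
 (.br (nat_lit 6) (nat_lit 1) (.cons (.rf (nat_lit 406) (nat_lit 583706118939840725716000)) (.cons (.rf (nat_lit 406) (nat_lit 583670343436215940877344)) (.cons (.rf (nat_lit 406) (nat_lit 575289792101586795826208)) (.cons (.rf (nat_lit 406) (nat_lit 575254016597962010987552)) (.cons (.kr (nat_lit 281474976776192) (nat_lit 1099528404992) (nat_lit 2) (nat_lit 0)) .nil)))))),
 (.br (nat_lit 6) (nat_lit 1) (.cons (.br (nat_lit 16) (nat_lit 1) (.cons (.ev (nat_lit 87113615159835259729751952931723895963905) (nat_lit 1)) .nil)) .nil)),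
 (.br (nat_lit 8) (nat_lit 1) (.cons (.rf (nat_lit 40) (nat_lit 15675728932907)) (.cons (.rf (nat_lit 68) (nat_lit 5982965182507)) (.cons (.rf (nat_lit 376) (nat_lit 17939722402506316285984)) .nil)))),
 (.br (nat_lit 15) (nat_lit 1) (.cons (.ev (nat_lit 340287559218107692226644379105285374208) (nat_lit 1)) .nil)),
 (.br (nat_lit 6) (nat_lit 1) (.cons (.rf (nat_lit 410) (nat_lit 19926514621092288180357152)) (.cons (.rf (nat_lit 130) (nat_lit 5740601809283)) .nil))),
 (.br (nat_lit 5) (nat_lit 1) (.cons (.br (nat_lit 9) (nat_lit 1) (.cons (.ev (nat_lit 18519083147035934976) (nat_lit 1)) (.cons (.ev (nat_lit 1365574074107799824748154662171182855) (nat_lit 3)) (.cons (.ev (nat_lit 1334460858394749292494578237499769603) (nat_lit 2)) (.cons (.br (nat_lit 6) (nat_lit 1) (.cons (.ev (nat_lit 1334420452028230758597390326044820227) (nat_lit 2)) (.cons (.rf (nat_lit 130) (nat_lit 18014606136578)) (.cons (.ev (nat_lit 1365574074105381973109490561321010951) (nat_lit 3)) (.cons (.br (nat_lit 12) (nat_lit 1) (.cons (.rf (nat_lit 12)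 (nat_lit 19004363387980)) (.cons (.br (nat_lit 16) (nat_lit 1) (.cons (.ev (nat_lit 341611615199134191913840510666807443713) (nat_lit 1)) (.cons (.ev (nat_lit 681909538728550568514768506043729182979) (nat_lit 2)) .nil))) (.cons (.br (nat_lit 17) (nat_lit 1) (.cons (.ev (nat_lit 174225916709130440039908209112485510381827) (nat_lit 2)) (.cons (.ev (nat_lit 87112291124136644042642246557268101365760) (nat_lit 1)) .nil))) .nil)))) .nil))))) .nil))))) (.cons (.br (nat_lit 13) (nat_lit 1) (.cons (.br (nat_lit 6) (nat_lit 1) (.cons (.ev (nat_lit 1365574074726760436697175635074877189) (nat_lit 3)) (.cons (.rf (nat_lit 102) (nat_lit 18018666321154)) .nil))) (.cons (.zr (nat_lit 1344804886671214291430360450485714947) (nat_lit 40723275532332085695863704387840) (nat_lit 8) (nat_lit 15)) (.cons (.rf (nat_lit 250) (nat_lit 622592940748799688707137)) .nil)))) (.cons (.br (nat_lit 13) (nat_lit 1) (.cons (.ev (nat_lit 20521022546260893018787961504257) (nat_lit 2)) (.cons (.ev (nat_lit 20361948460120022465316699242753) (nat_lit 1)) (.cons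 (.rf (nat_lit 250) (nat_lit 622703726024184642538561)) .nil)))) (.cons (.br (nat_lit 9) (nat_lit 1) (.cons (.br (nat_lit 6) (nat_lit 1) (.cons (.ev (nat_lit 1344805205448028036625415813196022533) (nat_lit 3)) (.cons (.rf (nat_lit 102) (nat_lit 18014371484930)) .nil))) (.cons (.ev (nat_lit 20361948460120022465316699242753) (nat_lit 1)) (.cons (.br (nat_lit 12) (nat_lit 1) (.cons (.rf (nat_lit 119) (nat_lit 17811534943490)) (.cons (.ev (nat_lit 1365615114914933417782880450052884229) (nat_lit 3)) (.cons (.br (nat_lit 6) (nat_lit 1) (.cons (.rf (nat_lit 408) (nat_lit 677582165103132179601393696)) (.cons (.br (nat_lit 6) (nat_lit 1) (.cons (.rf (nat_lit 408) (nat_lit 677582165103132179601393696)) .nil)) .nil))) .nil)))) .nil)))) (.cons (.br (nat_lit 12) (nat_lit 1) (.cons (.br (nat_lit 6) (nat_lit 1) (.cons (.rf (nat_lit 102) (nat_lit 18047622846755)) (.cons (.rf (nat_lit 102) (nat_lit 17910183926147)) (.cons (.br (nat_lit 9) (nat_lit 1) (.cons (.ev (nat_lit 310698658007725146344849665) (nat_lit 1)) (.cons (.ev (nat_lit 681909538728550568514768506043729182979)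 (nat_lit 2)) (.cons (.br (nat_lit 13) (nat_lit 1) (.cons (.ev (nat_lit 681909579451823673587159322283722539267) (nat_lit 2)) (.cons (.zr (nat_lit 1329268560605332102281005328909991937) (nat_lit 5192455624354347605006837874689280) (nat_lit 8) (nat_lit 4)) .nil))) .nil)))) (.cons (.br (nat_lit 9) (nat_lit 1) (.cons (.rf (nat_lit 40) (nat_lit 18013299520585)) (.cons (.br (nat_lit 16) (nat_lit 1) (.cons (.ev (nat_lit 340287559297025160805339534219502682113) (nat_lit 1)) (.cons (.ev (nat_lit 344270050987521378318861810900712620545) (nat_lit 2)) .nil))) (.cons (.br (nat_lit 13) (nat_lit 1) (.cons (.zr (nat_lit 1329268560605332102281005328909991937) (nat_lit 5192455624354347605006837874689280) (nat_lit 8) (nat_lit 4)) (.cons (.ev (nat_lit 87113615159835569210020889273734499664128) (nat_lit 1)) .nil))) .nil)))) .nil))))) (.cons (.br (nat_lit 13) (nat_lit 1) (.cons (.rf (nat_lit 40) (nat_lit 18047659257929)) (.cons (.rf (nat_lit 68) (nat_lit 7152308858953)) (.cons (.br (nat_lit 6) (nat_lit 1) (.cons (.br (nat_lit 6) (nat_lit 1)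 (.cons (.ev (nat_lit 1334460857775769791370112342780150529) (nat_lit 2)) .nil)) (.cons (.br (nat_lit 6) (nat_lit 1) (.cons (.ev (nat_lit 1334460857775769791370112342780150529) (nat_lit 2)) .nil)) .nil))) .nil)))) (.cons (.rf (nat_lit 409) (nat_lit 19421407837587466488897)) (.cons (.ev (nat_lit 1334420452029439684416722376402797315) (nat_lit 2)) (.cons (.br (nat_lit 9) (nat_lit 1) (.cons (.br (nat_lit 6) (nat_lit 1) (.cons (.ev (nat_lit 10425158848184597982215524971511809) (nat_lit 2)) (.cons (.br (nat_lit 13) (nat_lit 1) (.cons (.ev (nat_lit 340287579500517295878314804152031510528) (nat_lit 1)) (.cons (.rf (nat_lit 411) (nat_lit 21174438047791259123288096)) .nil))) (.cons (.br (nat_lit 13) (nat_lit 1) (.cons (.rf (nat_lit 253) (nat_lit 661552464232474261720129)) (.cons (.ev (nat_lit 522675050132549510644717438718479054405891) (nat_lit 3)) .nil))) .nil)))) (.cons (.rf (nat_lit 376) (nat_lit 20453131745605824154689)) (.cons (.br (nat_lit 13) (nat_lit 1) (.cons (.br (nat_lit 6) (nat_lit 1) (.cons (.zr (nat_lit 3987683987355956544748334496331726848)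 (nat_lit 680569966703864154104433428669535356161) (nat_lit 8) (nat_lit 4)) (.cons (.br (nat_lit 16) (nat_lit 1) (.cons (.ev (nat_lit 341611615199132982988021178607826108673) (nat_lit 1)) .nil)) .nil))) (.cons (.rf (nat_lit 130) (nat_lit 7013054027010)) (.cons (.br (nat_lit 16) (nat_lit 1) (.cons (.br (nat_lit 6) (nat_lit 1) (.cons (.ev (nat_lit 1334460857775769791370112342780150529) (nat_lit 2)) .nil)) (.cons (.zr (nat_lit 681899194699343211708153301809095639041) (nat_lit 317841105123414875926792504064) (nat_lit 8) (nat_lit 4)) .nil))) .nil)))) (.cons (.br (nat_lit 13) (nat_lit 1) (.cons (.rf (nat_lit 411) (nat_lit 21174442659472879504164896)) (.cons (.br (nat_lit 6) (nat_lit 1) (.cons (.rf (nat_lit 299) (nat_lit 661627474002104126934081)) (.cons (.zr (nat_lit 1334420452028230758525052352246841347) (nat_lit 174224571944650132916817265861224961278720) (nat_lit 8) (nat_lit 15)) .nil))) (.cons (.ev (nat_lit 87112291144339824270113019802044967419904) (nat_lit 1)) .nil)))) .nil))))) .nil)))))) .nil)))))),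
 (.br (nat_lit 5) (nat_lit 1) (.cons (.ev (nat_lit 1334420452031857536055951643375567619) (nat_lit 2)) (.cons (.ev (nat_lit 20361948460120022465316699242753) (nat_lit 1)) (.cons (.rf (nat_lit 409) (nat_lit 19158397623892031179841)) .nil))))]

theorem c17 : chkAll C T R L17 (nat_lit 395) = true := by decide +kernel

theorem l17 : (nat_lit 395) + L17.length = (nat_lit 414) := by decide +kernel

/-- part of the certificates -/
def L18 : List Prf := [(.br (nat_lit 5) (nat_lit 1) (.cons (.br (nat_lit 6) (nat_lit 1) (.cons (.zr (nat_lit 4003261036386677167091233598407311360) (nat_lit 680564733842809008733672093961529852163) (nat_lit 8) (nat_lit 14)) (.cons (.rf (nat_lit 239) (nat_lit 661663249507859215551553)) .nil))) (.cons (.br (nat_lit 6) (nat_lit 1) (.cons (.rf (nat_lit 239) (nat_lit 625063791281131190619201)) (.cons (.zr (nat_lit 4003301442749559478796894453241085952) (nat_lit 174224571863521425384499454849902608122115) (nat_lit 8) (nat_lit 14)) .nil))) .nil))),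
 (.br (nat_lit 5) (nat_lit 1) (.cons (.rf (nat_lit 414) (nat_lit 677582165103132179601393696)) (.cons (.br (nat_lit 6) (nat_lit 1) (.cons (.zr (nat_lit 4003261036386677167091233598407311360) (nat_lit 680564733842809008733672093961529852163) (nat_lit 8) (nat_lit 14)) (.cons (.zr (nat_lit 174225901091675045228158659423309725171969) (nat_lit 15576890575613927834732209448681472) (nat_lit 8) (nat_lit 10)) .nil))) .nil))),
 (.br (nat_lit 5) (nat_lit 1) (.cons (.br (nat_lit 6) (nat_lit 1) (.cons (.ev (nat_lit 1344805204202853257813072579395846913) (nat_lit 3)) (.cons (.rf (nat_lit 12) (nat_lit 18042290745416)) .nil))) (.cons (.ev (nat_lit 1334460858392331440855348970526999299) (nat_lit 2)) (.cons (.rf (nat_lit 409) (nat_lit 19272540124888412851265)) .nil)))),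
 (.br (nat_lit 5) (nat_lit 1) (.cons (.br (nat_lit 6) (nat_lit 1) (.cons (.zr (nat_lit 1365117151829874411621240335606051242240) (nat_lit 15617455400865860274216212629553153) (nat_lit 8) (nat_lit 1)) .nil)) .nil)),
 (.br (nat_lit 5) (nat_lit 1) (.cons (.br (nat_lit 6) (nat_lit 1) (.cons (.ev (nat_lit 681909538728548150663129276794003390723) (nat_lit 2)) (.cons (.zr (nat_lit 4013686036479936689303936208933748736) (nat_lit 794448020322073821007746959105) (nat_lit 24) (nat_lit 4)) .nil))) (.cons (.br (nat_lit 6) (nat_lit 1) (.cons (.zr (nat_lit 4013686036479936689303936208933748736) (nat_lit 794448020322073821007746959105) (nat_lit 24) (nat_lit 4)) (.cons (.ev (nat_lit 174225916709130440039908209112485510381827) (nat_lit 2)) .nil))) .nil))),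
 (.br (nat_lit 5) (nat_lit 1) (.cons (.rf (nat_lit 418) (nat_lit 677582165103132179601393696)) (.cons (.br (nat_lit 6) (nat_lit 1) (.cons (.zr (nat_lit 1355230044912532239868517085979344897) (nat_lit 680564734477868622294080774029080266496) (nat_lit 24) (nat_lit 4)) (.cons (.zr (nat_lit 1355270609731730098476399241191489537) (nat_lit 174224571864314941313606765751270536906496) (nat_lit 24) (nat_lit 4)) .nil))) .nil))),
 (.br (nat_lit 6) (nat_lit 1) (.cons (.ev (nat_lit 1334420452031857536056512394272310019) (nat_lit 2)) (.cons (.rf (nat_lit 130) (nat_lit 18013532394786)) (.cons (.br (nat_lit 12) (nat_lit 1) (.cons (.ev (nat_lit 1365655520656427821169581540759308039) (nat_lit 3)) (.cons (.ev (nat_lit 1362474272888580503426538412266328687367) (nat_lit 3)) (.cons (.br (nat_lit 13) (nat_lit 1) (.cons (.ev (nat_lit 1344886016314474083089591385947374339) (nat_lit 3)) (.cons (.br (nat_lit 16) (nat_lit 1) (.cons (.ev (nat_lit 340287620065029440782877622449905664771) (nat_lit 2)) .nil)) .nil))) .nil)))) (.cons (.br (nat_lit 12)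 (nat_lit 1) (.cons (.rf (nat_lit 12) (nat_lit 18970003682380)) (.cons (.br (nat_lit 13) (nat_lit 1) (.cons (.ev (nat_lit 681909579451823673587158757134712176899) (nat_lit 2)) (.cons (.rf (nat_lit 234) (nat_lit 20003294653736720325020737)) .nil))) (.cons (.br (nat_lit 17) (nat_lit 1) (.cons (.ev (nat_lit 87112291124136334552891684043945259630593) (nat_lit 1)) (.cons (.ev (nat_lit 87112291124136644042642246557268101365760) (nat_lit 1)) .nil))) .nil)))) .nil))))),
 (.br (nat_lit 6) (nat_lit 1) (.cons (.rf (nat_lit 130) (nat_lit 18013398177186)) (.cons (.ev (nat_lit 1334420452031857536056512394272310019) (nat_lit 2)) (.cons (.br (nat_lit 9) (nat_lit 1) (.cons (.ev (nat_lit 1344845609954019067755560405613937411) (nat_lit 3)) (.cons (.ev (nat_lit 309489732188110512858333441) (nat_lit 1)) (.cons (.br (nat_lit 12) (nat_lit 1) (.cons (.ev (nat_lit 20521023755186713476738226061825) (nat_lit 2)) (.cons (.ev (nat_lit 20361638979814192917733181489408) (nat_lit 1)) .nil))) .nil)))) (.cons (.br (nat_lit 9) (nat_lit 1) (.cons (.ev (nat_lit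 1344845609954019067755560405613937411) (nat_lit 3)) (.cons (.br (nat_lit 12) (nat_lit 1) (.cons (.ev (nat_lit 20361638979814192917733181489408) (nat_lit 1)) (.cons (.ev (nat_lit 20789709076874035390800459391565831) (nat_lit 3)) .nil))) (.cons (.ev (nat_lit 309489732188110512858333441) (nat_lit 1)) .nil)))) .nil))))),
 (.br (nat_lit 6) (nat_lit 1) (.cons (.rf (nat_lit 420) (nat_lit 19926519232773907521014816)) (.cons (.ev (nat_lit 1334420452031857536056512394272310019) (nat_lit 2)) (.cons (.rf (nat_lit 421) (nat_lit 19926519232773907521014816)) (.cons (.br (nat_lit 9) (nat_lit 1) (.cons (.zr (nat_lit 680564734000642737001992723266801894145) (nat_lit 1334420292644659626568690129759633408) (nat_lit 8) (nat_lit 1)) (.cons (.ev (nat_lit 309489732188110512858333441) (nat_lit 1)) (.cons (.br (nat_lit 12) (nat_lit 1) (.cons (.ev (nat_lit 1334460857773351939730883092986987265) (nat_lit 2)) (.cons (.ev (nat_lit 341611594995952755517247933830960054529) (nat_lit 1)) .nil))) .nil)))) (.cons (.br (nat_lit 9) (nat_lit 1) (.cons (.br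 (nat_lit 13) (nat_lit 1) (.cons (.ev (nat_lit 20361948460120022465316699242753) (nat_lit 1)) (.cons (.rf (nat_lit 243) (nat_lit 21174441541488392338017345)) .nil))) (.cons (.br (nat_lit 12) (nat_lit 1) (.cons (.ev (nat_lit 20361948460120022465316699242753) (nat_lit 1)) (.cons (.rf (nat_lit 239) (nat_lit 661514381795160161913921)) .nil))) (.cons (.br (nat_lit 12) (nat_lit 1) (.cons (.ev (nat_lit 340287559297025160805339534219502682113) (nat_lit 1)) (.cons (.ev (nat_lit 346928507137553589277854286067647382531) (nat_lit 3)) .nil))) (.cons (.br (nat_lit 12) (nat_lit 1) (.cons (.rf (nat_lit 239) (nat_lit 661400239294163780242497)) (.cons (.br (nat_lit 13) (nat_lit 1) (.cons (.ev (nat_lit 1362474313294326833533202441558600712961) (nat_lit 3)) .nil)) (.cons (.rf (nat_lit 293) (nat_lit 624992205334769312073825)) .nil)))) .nil))))) .nil)))))),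
 (.br (nat_lit 5) (nat_lit 1) (.cons (.rf (nat_lit 420) (nat_lit 19926519232773908561233952)) (.cons (.ev (nat_lit 1334420452031857536055951643375567619) (nat_lit 2)) (.cons (.rf (nat_lit 421) (nat_lit 19926519232773908561233952)) (.cons (.rf (nat_lit 422) (nat_lit 19926519232773908561233952)) (.cons (.br (nat_lit 6) (nat_lit 1) (.cons (.rf (nat_lit 420) (nat_lit 19926519232773907521014816)) (.cons (.ev (nat_lit 1334420452031857536056512394272310019) (nat_lit 2)) (.cons (.rf (nat_lit 421) (nat_lit 19926519232773907521014816)) (.cons (.rf (nat_lit 422) (nat_lit 19926519232773907521014816)) (.cons (.br (nat_lit 9) (nat_lit 1) (.cons (.br (nat_lit 13) (nat_lit 1) (.cons (.ev (nat_lit 20361948460120022465316699242753) (nat_lit 1)) (.cons (.rf (nat_lit 30) (nat_lit 9261229912137)) .nil))) (.cons (.ev (nat_lit 309489732188110512858333441) (nat_lit 1)) (.cons (.br (nat_lit 12) (nat_lit 1) (.cons (.ev (nat_lit 1334460857773351939730883092986987265) (nat_lit 2)) (.cons (.ev (nat_lit 681909538728550568514768506043729182979) (nat_lit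 2)) (.cons (.ev (nat_lit 87113615159835259729751952931723895963905) (nat_lit 1)) .nil)))) (.cons (.ev (nat_lit 174225916668407164516984179066995791233283) (nat_lit 2)) .nil))))) .nil)))))) .nil)))))),
 (.br (nat_lit 6) (nat_lit 1) (.cons (.br (nat_lit 16) (nat_lit 1) (.cons (.ev (nat_lit 88133143437478419304872545532213972762626) (nat_lit 2)) .nil)) .nil)),
 (.br (nat_lit 6) (nat_lit 1) (.cons (.br (nat_lit 16) (nat_lit 1) (.cons (.ev (nat_lit 87113615159835259729751952931723895963905) (nat_lit 1)) .nil)) .nil)),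
 (.br (nat_lit 5) (nat_lit 1) (.cons (.rf (nat_lit 423) (nat_lit 19926519232773908561233952)) (.cons (.br (nat_lit 13) (nat_lit 1) (.cons (.rf (nat_lit 119) (nat_lit 17812575098146)) (.cons (.ev (nat_lit 1365695927640716783086181048624875269) (nat_lit 3)) (.cons (.br (nat_lit 6) (nat_lit 1) (.cons (.rf (nat_lit 424) (nat_lit 677582165103132179601393696)) (.cons (.br (nat_lit 6) (nat_lit 1) (.cons (.rf (nat_lit 424) (nat_lit 677582165103132179601393696)) .nil)) .nil))) .nil)))) (.cons (.br (nat_lit 12) (nat_lit 1) (.cons (.rf (nat_lit 119) (nat_lit 17811501389090)) (.cons (.rf (nat_lit 119) (nat_lit 7159819965730)) (.cons (.br (nat_lit 6) (nat_lit 1) (.cons (.rf (nat_lit 425) (nat_lit 677582165103132179601393696)) (.cons (.br (nat_lit 6) (nat_lit 1) (.cons (.rf (nat_lit 425) (nat_lit 677582165103132179601393696)) .nil)) .nil))) .nil)))) (.cons (.ev (nat_lit 18518802771554140416) (nat_lit 1)) (.cons (.br (nat_lit 12) (nat_lit 1) (.cons (.br (nat_lit 6) (nat_lit 1) (.cons (.rf (nat_lit 102) (nat_lit 18976409557379)) (.cons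 (.br (nat_lit 16) (nat_lit 1) (.cons (.zr (nat_lit 14657854034429183705095751540366770176) (nat_lit 680565018112532518922344872907733206275) (nat_lit 24) (nat_lit 15)) (.cons (.ev (nat_lit 681909538728550568514768506043729182979) (nat_lit 2)) .nil))) (.cons (.br (nat_lit 13) (nat_lit 1) (.cons (.br (nat_lit 16) (nat_lit 1) (.cons (.ev (nat_lit 681909538729169529126427601210831798529) (nat_lit 2)) .nil)) (.cons (.zr (nat_lit 174224571863678955672350158723539951158019) (nat_lit 1334420292952935710715659445384773632) (nat_lit 8) (nat_lit 10)) .nil))) .nil)))) (.cons (.rf (nat_lit 376) (nat_lit 19157279639403756653633)) (.cons (.br (nat_lit 13) (nat_lit 1) (.cons (.br (nat_lit 16) (nat_lit 1) (.cons (.ev (nat_lit 20361638979814193198108629860608) (nat_lit 1)) (.cons (.ev (nat_lit 681909579452442653014496811866424082689) (nat_lit 2)) .nil))) (.cons (.ev (nat_lit 681909579451823673587158757134712176899) (nat_lit 2)) (.cons (.br (nat_lit 6) (nat_lit 1) (.cons (.ev (nat_lit 681909579452442653014496811866424082689) (nat_lit 2))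 (.cons (.ev (nat_lit 174225916709130442457759847776586293182723) (nat_lit 2)) .nil))) .nil)))) (.cons (.br (nat_lit 13) (nat_lit 1) (.cons (.br (nat_lit 6) (nat_lit 1) (.cons (.rf (nat_lit 253) (nat_lit 625063791281131190619201)) (.cons (.ev (nat_lit 20361638979814193198108629860608) (nat_lit 1)) .nil))) (.cons (.br (nat_lit 6) (nat_lit 1) (.cons (.zr (nat_lit 4003260878241046111024953060646453249) (nat_lit 680564774723608793732096551657914106112) (nat_lit 8) (nat_lit 15)) (.cons (.zr (nat_lit 317841105123414873727803065088) (nat_lit 174225906324377957160177563864960147128321) (nat_lit 8) (nat_lit 1)) .nil))) (.cons (.rf (nat_lit 130) (nat_lit 6875618252066)) .nil)))) .nil))))) .nil)))))),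
 (.br (nat_lit 16) (nat_lit 1) (.cons (.ev (nat_lit 1365574074110217676387949060907337479) (nat_lit 3)) (.cons (.zr (nat_lit 4003260878858807204848587120794796032) (nat_lit 680564815129972884932584223806427496705) (nat_lit 8) (nat_lit 15)) (.cons (.ev (nat_lit 348450488532245808400365358403838072324871) (nat_lit 3)) .nil)))),
 (.br (nat_lit 6) (nat_lit 1) (.cons (.ev (nat_lit 1334420452031857536055951643375567619) (nat_lit 2)) (.cons (.ev (nat_lit 20361638979814193198108629860608) (nat_lit 1)) (.cons (.rf (nat_lit 427) (nat_lit 677582165103132179601393696)) .nil)))),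
 (.br (nat_lit 9) (nat_lit 1) (.cons (.rf (nat_lit 426) (nat_lit 19926519232773908561233952)) (.cons (.rf (nat_lit 426) (nat_lit 19926519232773907521014816)) (.cons (.rf (nat_lit 376) (nat_lit 19268064914788710485057)) (.cons (.br (nat_lit 5) (nat_lit 1) (.cons (.ev (nat_lit 1334420452031857536055951643375567619) (nat_lit 2)) (.cons (.rf (nat_lit 119) (nat_lit 7156598740354)) (.cons (.rf (nat_lit 130) (nat_lit 7047278499202)) (.cons (.br (nat_lit 13) (nat_lit 1) (.cons (.br (nat_lit 16) (nat_lit 1) (.cons (.ev (nat_lit 20361638979814193198108629860608) (nat_lit 1)) (.cons (.ev (nat_lit 681909579452442653014496811866424082689) (nat_lit 2)) .nil))) (.cons (.rf (nat_lit 102) (nat_lit 18807832101160)) (.cons (.br (nat_lit 16) (nat_lit 1) (.cons (.ev (nat_lit 681909579452442653014496811866424082689) (nat_lit 2)) (.cons (.ev (nat_lit 523014023939408816109267998282229057847559) (nat_lit 3)) .nil))) .nil)))) .nil))))) (.cons (.br (nat_lit 5) (nat_lit 1) (.cons (.ev (nat_lit 1334420452031857536055951643375567619) (nat_lit 2)) (.cons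 (.br (nat_lit 6) (nat_lit 1) (.cons (.br (nat_lit 6) (nat_lit 1) (.cons (.rf (nat_lit 428) (nat_lit 677582165103132179601393696)) .nil)) (.cons (.rf (nat_lit 428) (nat_lit 677582165103132179601393696)) .nil))) (.cons (.br (nat_lit 16) (nat_lit 1) (.cons (.br (nat_lit 6) (nat_lit 1) (.cons (.ev (nat_lit 681909579451823673587159322283722539267) (nat_lit 2)) (.cons (.ev (nat_lit 1365574074110217676387949060907337479) (nat_lit 3)) .nil))) (.cons (.rf (nat_lit 130) (nat_lit 6909973763458)) (.cons (.ev (nat_lit 341611594995952755517247651256454873345) (nat_lit 1)) .nil)))) (.cons (.br (nat_lit 17) (nat_lit 1) (.cons (.rf (nat_lit 428) (nat_lit 677582165103132179601393696)) (.cons (.ev (nat_lit 87113615159835569210020888993359017869568) (nat_lit 1)) (.cons (.br (nat_lit 13) (nat_lit 1) (.cons (.br (nat_lit 6) (nat_lit 1) (.cons (.zr (nat_lit 680569926297502490163280345984143590657) (nat_lit 3987683987354747618928161323839651840) (nat_lit 8) (nat_lit 1)) .nil)) (.cons (.ev (nat_lit 681909538729169529126427040459868209409) (nat_lit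 2)) .nil))) .nil)))) .nil))))) .nil)))))),
 (.br (nat_lit 6) (nat_lit 1) (.cons (.ev (nat_lit 18519083147035934976) (nat_lit 1)) (.cons (.rf (nat_lit 429) (nat_lit 19926519232773907521014816)) (.cons (.br (nat_lit 9) (nat_lit 1) (.cons (.ev (nat_lit 1334420451412896998184393522075009793) (nat_lit 2)) (.cons (.ev (nat_lit 340287579500517295878314804152031510528) (nat_lit 1)) (.cons (.br (nat_lit 12) (nat_lit 1) (.cons (.ev (nat_lit 1362474353701301451236137206920765244167) (nat_lit 3)) .nil)) .nil)))) .nil)))),
 (.br (nat_lit 5) (nat_lit 1) (.cons (.rf (nat_lit 423) (nat_lit 19926519232773908561233952)) (.cons (.rf (nat_lit 426) (nat_lit 19926519232773908561233952)) (.cons (.rf (nat_lit 429) (nat_lit 19926519232773908561233952)) (.cons (.br (nat_lit 9) (nat_lit 1) (.cons (.rf (nat_lit 426) (nat_lit 19926519232773907521014816)) (.cons (.rf (nat_lit 68) (nat_lit 7152303779913)) (.cons (.rf (nat_lit 130) (nat_lit 7012918760866)) (.cons (.br (nat_lit 12) (nat_lit 1) (.cons (.rf (nat_lit 429) (nat_lit 19926519232773907521014816))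 (.cons (.rf (nat_lit 130) (nat_lit 6909940209058)) (.cons (.br (nat_lit 16) (nat_lit 1) (.cons (.zr (nat_lit 159384780131779686688134267648) (nat_lit 681899154134521595997906192603147141121) (nat_lit 8) (nat_lit 1)) (.cons (.ev (nat_lit 87112291124136334552891684043945259630593) (nat_lit 1)) .nil))) .nil)))) .nil))))) (.cons (.br (nat_lit 6) (nat_lit 1) (.cons (.rf (nat_lit 426) (nat_lit 19926519232773907521014816)) (.cons (.rf (nat_lit 429) (nat_lit 19926519232773907521014816)) (.cons (.rf (nat_lit 430) (nat_lit 677582165103132179601393696)) (.cons (.br (nat_lit 6) (nat_lit 1) (.cons (.rf (nat_lit 426) (nat_lit 19926519232773907521014816)) (.cons (.rf (nat_lit 429) (nat_lit 19926519232773907521014816)) (.cons (.rf (nat_lit 430) (nat_lit 677582165103132179601393696)) .nil)))) .nil))))) .nil))))))]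

theorem c18 : chkAll C T R L18 (nat_lit 414) = true := by decide +kernel

theorem l18 : (nat_lit 414) + L18.length = (nat_lit 432) := by decide +kernel

/-- part of the certificates -/
def L19 : List Prf := [(.br (nat_lit 5) (nat_lit 1) (.cons (.rf (nat_lit 423) (nat_lit 19926519232773908561233952)) (.cons (.ev (nat_lit 18518802771554140416) (nat_lit 1)) (.cons (.rf (nat_lit 429) (nat_lit 19926519232773908561233952)) (.cons (.rf (nat_lit 431) (nat_lit 19926519232773908561233952)) (.cons (.br (nat_lit 6) (nat_lit 1) (.cons (.rf (nat_lit 426) (nat_lit 19926519232773907521014816)) (.cons (.rf (nat_lit 429) (nat_lit 19926519232773907521014816)) (.cons (.rf (nat_lit 431) (nat_lit 19926519232773907521014816)) (.cons (.br (nat_lit 6) (nat_lit 1) (.cons (.ev (nat_lit 18519083147035934976) (nat_lit 1)) (.cons (.rf (nat_lit 429) (nat_lit 19926519232773907521014816)) (.cons (.rf (nat_lit 431) (nat_lit 19926519232773907521014816)) (.cons (.kr (nat_lit 281474976776192) (nat_lit 1099528404992) (nat_lit 2) (nat_lit 0)) .nil))))) (.cons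 (.br (nat_lit 6) (nat_lit 1) (.cons (.rf (nat_lit 426) (nat_lit 19926519232773907521014816)) (.cons (.rf (nat_lit 429) (nat_lit 19926519232773907521014816)) (.cons (.rf (nat_lit 431) (nat_lit 19926519232773907521014816)) (.cons (.kr (nat_lit 281474976776192) (nat_lit 1099528404992) (nat_lit 2) (nat_lit 0)) .nil))))) .nil)))))) .nil)))))),
 (.br (nat_lit 11) (nat_lit 0) (.cons (.rf (nat_lit 363) (nat_lit 492288839712)) (.cons (.br (nat_lit 14) (nat_lit 0) (.cons (.br (nat_lit 8) (nat_lit 1) (.cons (.rf (nat_lit 412) (nat_lit 583706118939841765935136)) (.cons (.rf (nat_lit 412) (nat_lit 583706118939840725716000)) (.cons (.br (nat_lit 12) (nat_lit 1) (.cons (.rf (nat_lit 413) (nat_lit 583706118939841765935136)) (.cons (.rf (nat_lit 413) (nat_lit 583706118939840725716000)) (.cons (.kr (nat_lit 20282409603670117168020960837632) (nat_lit 79228167236630820463189164032) (nat_lit 8) (nat_lit 0)) (.cons (.br (nat_lit 13) (nat_lit 1) (.cons (.rf (nat_lit 376) (nat_lit 19420289853099191962689)) (.cons (.rf (nat_lit 376) (nat_lit 19420289853099159455841))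 (.cons (.ev (nat_lit 20361948460120022465316699242753) (nat_lit 1)) (.cons (.br (nat_lit 5) (nat_lit 1) (.cons (.rf (nat_lit 414) (nat_lit 677582165103132179601393696)) (.cons (.rf (nat_lit 415) (nat_lit 677582165103132179601393696)) (.cons (.br (nat_lit 5) (nat_lit 1) (.cons (.rf (nat_lit 414) (nat_lit 677582165103132179601393696)) (.cons (.rf (nat_lit 415) (nat_lit 677582165103132179601393696)) .nil))) .nil)))) .nil))))) .nil))))) (.cons (.br (nat_lit 9) (nat_lit 1) (.cons (.rf (nat_lit 416) (nat_lit 583706118939841765935136)) (.cons (.rf (nat_lit 416) (nat_lit 583706118939840725716000)) (.cons (.kr (nat_lit 20282409603670117168020960837632) (nat_lit 79228167236630820463189164032) (nat_lit 8) (nat_lit 0)) (.cons (.br (nat_lit 13) (nat_lit 1) (.cons (.rf (nat_lit 376) (nat_lit 19306147352102810291265)) (.cons (.rf (nat_lit 376) (nat_lit 19306147352102777784417)) (.cons (.br (nat_lit 16) (nat_lit 1) (.cons (.rf (nat_lit 68) (nat_lit 6786151526696)) (.cons (.rf (nat_lit 68) (nat_lit 5720967131432)) (.cons (.br (nat_lit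 5) (nat_lit 1) (.cons (.rf (nat_lit 417) (nat_lit 677582165103132179601393696)) (.cons (.br (nat_lit 5) (nat_lit 1) (.cons (.rf (nat_lit 417) (nat_lit 677582165103132179601393696)) .nil)) .nil))) .nil)))) (.cons (.br (nat_lit 5) (nat_lit 1) (.cons (.rf (nat_lit 418) (nat_lit 677582165103132179601393696)) (.cons (.rf (nat_lit 419) (nat_lit 677582165103132179601393696)) (.cons (.br (nat_lit 5) (nat_lit 1) (.cons (.rf (nat_lit 418) (nat_lit 677582165103132179601393696)) (.cons (.rf (nat_lit 419) (nat_lit 677582165103132179601393696)) .nil))) .nil)))) .nil))))) .nil))))) (.cons (.ev (nat_lit 1334460857775769791369547193769788161) (nat_lit 2)) (.cons (.br (nat_lit 5) (nat_lit 1) (.cons (.rf (nat_lit 423) (nat_lit 19926519232773908561233952)) (.cons (.rf (nat_lit 426) (nat_lit 19926519232773908561233952)) (.cons (.rf (nat_lit 429) (nat_lit 19926519232773908561233952)) (.cons (.rf (nat_lit 431) (nat_lit 19926519232773908561233952)) (.cons (.rf (nat_lit 432) (nat_lit 19926519232773908561233952)) (.cons (.br (nat_lit 5) (nat_lit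 1) (.cons (.rf (nat_lit 423) (nat_lit 19926519232773908561233952)) (.cons (.rf (nat_lit 426) (nat_lit 19926519232773908561233952)) (.cons (.rf (nat_lit 429) (nat_lit 19926519232773908561233952)) (.cons (.rf (nat_lit 431) (nat_lit 19926519232773908561233952)) (.cons (.rf (nat_lit 432) (nat_lit 19926519232773908561233952)) .nil)))))) .nil))))))) .nil))))))) .nil)) .nil))),
 (.br (nat_lit 6) (nat_lit 1) (.cons (.ev (nat_lit 2658476354139689200292556373835710976) (nat_lit 2)) .nil)),
 (.br (nat_lit 6) (nat_lit 1) (.cons (.br (nat_lit 16) (nat_lit 1) (.cons (.ev (nat_lit 87112285952042657463942274826750304190465) (nat_lit 1)) .nil)) .nil)),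
 (.br (nat_lit 6) (nat_lit 1) (.cons (.br (nat_lit 16) (nat_lit 1) (.cons (.ev (nat_lit 88133143437479035847632709515501201588226) (nat_lit 2)) .nil)) .nil)),
 (.br (nat_lit 9) (nat_lit 1) (.cons (.br (nat_lit 12) (nat_lit 1) (.cons (.br (nat_lit 6) (nat_lit 1) (.cons (.ev (nat_lit 1365574074726760436985401613180339969) (nat_lit 3)) (.cons (.rf (nat_lit 102) (nat_lit 18051952317698)) .nil))) (.cons (.zr (nat_lit 1344804886671214291646531033576505344) (nat_lit 40723275532331869527479636984067) (nat_lit 8) (nat_lit 4)) (.cons (.br (nat_lit 13) (nat_lit 1) (.cons (.rf (nat_lit 119) (nat_lit 17812709217538)) (.cons (.rf (nat_lit 119) (nat_lit 7160897770754)) (.cons (.br (nat_lit 6) (nat_lit 1) (.cons (.rf (nat_lit 434) (nat_lit 677582165103132179601393696)) (.cons (.rf (nat_lit 434) (nat_lit 640105428919575050400663584)) .nil))) .nil)))) .nil)))) (.cons (.br (nat_lit 5) (nat_lit 1) (.cons (.br (nat_lit 12) (nat_lit 1) (.cons (.ev (nat_lit 1355189799165097691595367957299200769) (nat_lit 3)) (.cons (.rf (nat_lit 130) (nat_lit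 18052052882690)) .nil))) (.cons (.br (nat_lit 6) (nat_lit 1) (.cons (.ev (nat_lit 20679793206262215805525817623040) (nat_lit 3)) (.cons (.rf (nat_lit 102) (nat_lit 18048731190530)) .nil))) (.cons (.br (nat_lit 6) (nat_lit 1) (.cons (.ev (nat_lit 20678550449335330921917962322432) (nat_lit 3)) (.cons (.rf (nat_lit 102) (nat_lit 18014371484930)) .nil))) (.cons (.br (nat_lit 12) (nat_lit 1) (.cons (.rf (nat_lit 102) (nat_lit 18047622846755)) (.cons (.rf (nat_lit 40) (nat_lit 17910220305484)) (.cons (.ev (nat_lit 1344805045129966653296776385293976323) (nat_lit 2)) (.cons (.br (nat_lit 13) (nat_lit 1) (.cons (.rf (nat_lit 102) (nat_lit 18013263141155)) (.cons (.br (nat_lit 6) (nat_lit 1) (.cons (.ev (nat_lit 1344845452109401096112970722705539843) (nat_lit 2)) (.cons (.kr (nat_lit 20282410812577490320051402768384) (nat_lit 79537647524085683761797136384) (nat_lit 2) (nat_lit 0)) .nil))) (.cons (.rf (nat_lit 411) (nat_lit 21174290473979406935230496)) .nil)))) .nil))))) .nil))))) (.cons (.ev (nat_lit 5192297168024559816358438994182401)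 (nat_lit 1)) (.cons (.br (nat_lit 5) (nat_lit 1) (.cons (.br (nat_lit 6) (nat_lit 1) (.cons (.ev (nat_lit 20520713065954919638582216032770) (nat_lit 2)) (.cons (.rf (nat_lit 12) (nat_lit 18007930975305)) .nil))) (.cons (.ev (nat_lit 1334420451412896998039715384012178179) (nat_lit 2)) (.cons (.rf (nat_lit 409) (nat_lit 19310622562202512657473)) .nil)))) (.cons (.br (nat_lit 12) (nat_lit 1) (.cons (.br (nat_lit 13) (nat_lit 1) (.cons (.zr (nat_lit 4003260877930352101669070268195274752) (nat_lit 40723586226267510482779489960705) (nat_lit 8) (nat_lit 4)) (.cons (.rf (nat_lit 119) (nat_lit 7160894723330)) (.cons (.br (nat_lit 6) (nat_lit 1) (.cons (.rf (nat_lit 435) (nat_lit 677582165103132179601393696)) (.cons (.br (nat_lit 6) (nat_lit 1) (.cons (.rf (nat_lit 435) (nat_lit 677582165103132179601393696)) .nil)) .nil))) .nil)))) (.cons (.br (nat_lit 5) (nat_lit 1) (.cons (.ev (nat_lit 1334420452029439684416722376402797315) (nat_lit 2)) (.cons (.zr (nat_lit 4003260877930352101669070268195274752) (nat_lit 40723586226267510482779489960705)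 (nat_lit 8) (nat_lit 4)) (.cons (.ev (nat_lit 1344805045129966653296776385293976323) (nat_lit 2)) (.cons (.br (nat_lit 6) (nat_lit 1) (.cons (.rf (nat_lit 102) (nat_lit 19009695553923)) (.cons (.br (nat_lit 13) (nat_lit 1) (.cons (.ev (nat_lit 340287559297026369731159429219847503873) (nat_lit 1)) (.cons (.rf (nat_lit 253) (nat_lit 625064909265619465145409)) .nil))) (.cons (.br (nat_lit 13) (nat_lit 1) (.cons (.br (nat_lit 16) (nat_lit 1) (.cons (.ev (nat_lit 340282367000476115728345856110701379585) (nat_lit 1)) .nil)) (.cons (.ev (nat_lit 174225937518883314774393490684297171304705) (nat_lit 3)) .nil))) .nil)))) .nil))))) (.cons (.rf (nat_lit 376) (nat_lit 19158397623892031179841)) (.cons (.br (nat_lit 5) (nat_lit 1) (.cons (.ev (nat_lit 1344805045129966653296776385293976323) (nat_lit 2)) (.cons (.rf (nat_lit 119) (nat_lit 7159821014274)) (.cons (.ev (nat_lit 1334420452029439684416722376402797315) (nat_lit 2)) (.cons (.br (nat_lit 13) (nat_lit 1) (.cons (.rf (nat_lit 411) (nat_lit 20003148197909355303110688)) (.cons (.rf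 (nat_lit 102) (nat_lit 18803537133961)) (.cons (.br (nat_lit 17) (nat_lit 1) (.cons (.zr (nat_lit 81288405433570923388268064276737) (nat_lit 174228575124398423654794128985686351544320) (nat_lit 8) (nat_lit 1)) (.cons (.ev (nat_lit 175587046136566908743350102424116743504129) (nat_lit 3)) .nil))) .nil)))) .nil))))) (.cons (.br (nat_lit 5) (nat_lit 1) (.cons (.br (nat_lit 6) (nat_lit 1) (.cons (.rf (nat_lit 130) (nat_lit 18014606136578)) (.cons (.br (nat_lit 16) (nat_lit 1) (.cons (.ev (nat_lit 681920045017344249063087826035043336449) (nat_lit 3)) (.cons (.ev (nat_lit 340282367000167834903530898727796539393) (nat_lit 1)) .nil))) (.cons (.br (nat_lit 17) (nat_lit 1) (.cons (.ev (nat_lit 87112291144339824270113091860738517041153) (nat_lit 1)) (.cons (.ev (nat_lit 174225937437753059835915822701942499575041) (nat_lit 3)) .nil))) .nil)))) (.cons (.br (nat_lit 6) (nat_lit 1) (.cons (.rf (nat_lit 436) (nat_lit 677582165103132179601393696)) (.cons (.br (nat_lit 6) (nat_lit 1) (.cons (.rf (nat_lit 436) (nat_lit 677582165103132179601393696))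 .nil)) .nil))) (.cons (.br (nat_lit 13) (nat_lit 1) (.cons (.br (nat_lit 6) (nat_lit 1) (.cons (.zr (nat_lit 3992876284213282446556687413566242816) (nat_lit 680564774407006828202624510603357586689) (nat_lit 8) (nat_lit 4)) (.cons (.rf (nat_lit 255) (nat_lit 21174442659472880612543553)) .nil))) (.cons (.rf (nat_lit 130) (nat_lit 7013054027010)) (.cons (.br (nat_lit 17) (nat_lit 1) (.cons (.ev (nat_lit 87113620372335609190726736837148130935040) (nat_lit 1)) (.cons (.ev (nat_lit 87112291144339824270113091860738517041153) (nat_lit 1)) .nil))) .nil)))) (.cons (.ev (nat_lit 1334420452029439684416722376402797315) (nat_lit 2)) .nil))))) .nil)))))) .nil)))))),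
 (.br (nat_lit 5) (nat_lit 1) (.cons (.br (nat_lit 6) (nat_lit 1) (.cons (.ev (nat_lit 87453902739335775816686001094598554877952) (nat_lit 1)) .nil)) .nil)),
 (.br (nat_lit 5) (nat_lit 1) (.cons (.br (nat_lit 6) (nat_lit 1) (.cons (.ev (nat_lit 1208944266641277372596481) (nat_lit 1)) (.cons (.rf (nat_lit 239) (nat_lit 661552464232474261720129)) .nil))) (.cons (.br (nat_lit 6) (nat_lit 1) (.cons (.rf (nat_lit 239) (nat_lit 624949648780134808947777)) (.cons (.ev (nat_lit 1208944266641277372596481) (nat_lit 1)) .nil))) .nil))),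
 (.br (nat_lit 5) (nat_lit 1) (.cons (.rf (nat_lit 439) (nat_lit 677582165103132179601393696)) (.cons (.br (nat_lit 6) (nat_lit 1) (.cons (.zr (nat_lit 680564774723608784287147413145099698179) (nat_lit 1334420292954144673138845195022893312) (nat_lit 8) (nat_lit 14)) (.cons (.zr (nat_lit 174224571863520493302766318947112337801219) (nat_lit 1334420451410469664774032234691690752) (nat_lit 8) (nat_lit 7)) .nil))) .nil))),
 (.br (nat_lit 9) (nat_lit 1) (.cons (.rf (nat_lit 437) (nat_lit 583670343436216981096480)) (.cons (.rf (nat_lit 437) (nat_lit 583670343436215940877344)) (.cons (.kr (nat_lit 20282409603670117168020960837632) (nat_lit 79228167236630820463189164032) (nat_lit 8) (nat_lit 0)) (.cons (.br (nat_lit 13) (nat_lit 1) (.cons (.rf (nat_lit 376) (nat_lit 19306147352102810291265)) (.cons (.rf (nat_lit 376) (nat_lit 19306147352102777784417)) (.cons (.br (nat_lit 16) (nat_lit 1) (.cons (.rf (nat_lit 68) (nat_lit 6786151526696)) (.cons (.rf (nat_lit 68) (nat_lit 5720967131432)) (.cons (.br (nat_lit 5) (nat_lit 1) (.cons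 (.rf (nat_lit 438) (nat_lit 677582165103132179601393696)) (.cons (.br (nat_lit 5) (nat_lit 1) (.cons (.rf (nat_lit 438) (nat_lit 677582165103132179601393696)) .nil)) .nil))) .nil)))) (.cons (.br (nat_lit 5) (nat_lit 1) (.cons (.rf (nat_lit 439) (nat_lit 677582165103132179601393696)) (.cons (.rf (nat_lit 440) (nat_lit 677582165103132179601393696)) (.cons (.br (nat_lit 5) (nat_lit 1) (.cons (.rf (nat_lit 439) (nat_lit 677582165103132179601393696)) (.cons (.rf (nat_lit 440) (nat_lit 677582165103132179601393696)) .nil))) .nil)))) .nil))))) .nil))))),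
 (.br (nat_lit 6) (nat_lit 1) (.cons (.ev (nat_lit 1362474394740873081456915936961255179009) (nat_lit 3)) (.cons (.ev (nat_lit 5192297168024559816641013499363585) (nat_lit 1)) .nil))),
 (.br (nat_lit 5) (nat_lit 1) (.cons (.br (nat_lit 6) (nat_lit 1) (.cons (.ev (nat_lit 1208944266641277372596481) (nat_lit 1)) (.cons (.ev (nat_lit 309489732188110512858333441) (nat_lit 1)) (.cons (.br (nat_lit 12) (nat_lit 1) (.cons (.zr (nat_lit 1361134659984030021973177521345587576851) (nat_lit 1329350165611531832557917612955666176) (nat_lit 40) (nat_lit 15)) (.cons (.br (nat_lit 13) (nat_lit 1) (.cons (.ev (nat_lit 1362495163928307220767430058963818775297) (nat_lit 3)) .nil)) .nil))) .nil)))) (.cons (.rf (nat_lit 130) (nat_lit 7047278499202)) (.cons (.rf (nat_lit 130) (nat_lit 7012918760866)) (.cons (.br (nat_lit 12) (nat_lit 1) (.cons (.rf (nat_lit 442) (nat_lit 677582165103132179601393696)) (.cons (.rf (nat_lit 12) (nat_lit 18797109228812)) (.cons (.br (nat_lit 13) (nat_lit 1) (.cons (.rf (nat_lit 442) (nat_lit 677582129327628554816555040))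 (.cons (.ev (nat_lit 1365614799245077992755300363235754753) (nat_lit 3)) .nil))) .nil)))) .nil))))),
 (.br (nat_lit 6) (nat_lit 1) (.cons (.zr (nat_lit 40723586226267510482779523646209) (nat_lit 3992876284213282446412574433069760512) (nat_lit 8) (nat_lit 1)) (.cons (.ev (nat_lit 681909538728550568514768506043729182979) (nat_lit 2)) .nil))),
 (.br (nat_lit 5) (nat_lit 1) (.cons (.rf (nat_lit 444) (nat_lit 677582165103132179601393696)) (.cons (.rf (nat_lit 444) (nat_lit 677582129327628554816555040)) (.cons (.br (nat_lit 6) (nat_lit 1) (.cons (.ev (nat_lit 681909538728550568514768506043729182979) (nat_lit 2)) (.cons (.ev (nat_lit 681909538729167111274932489330958008579) (nat_lit 2)) (.cons (.ev (nat_lit 174224577055818283914623164489335056630274) (nat_lit 2)) .nil)))) .nil)))),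
 (.br (nat_lit 5) (nat_lit 1) (.cons (.rf (nat_lit 445) (nat_lit 677582165103132179601393696)) (.cons (.rf (nat_lit 102) (nat_lit 18804986254722)) (.cons (.br (nat_lit 6) (nat_lit 1) (.cons (.zr (nat_lit 4003260877930352101669070268195274752) (nat_lit 40723586226267510482779489960705) (nat_lit 8) (nat_lit 4)) (.cons (.zr (nat_lit 309485083680383359975948291) (nat_lit 174906471017655017297652539401372994503424) (nat_lit 8) (nat_lit 7)) .nil))) .nil))))]

theorem c19 : chkAll C T R L19 (nat_lit 432) = true := by decide +kernel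

theorem l19 : (nat_lit 432) + L19.length = (nat_lit 447) := by decide +kernel

/-- part of the certificates -/
def L20 : List Prf := [(.br (nat_lit 6) (nat_lit 1) (.cons (.zr (nat_lit 40723586226267510482779523646209) (nat_lit 3992876284213282446412574433069760512) (nat_lit 8) (nat_lit 1)) (.cons (.ev (nat_lit 1208944266641277372596481) (nat_lit 1)) (.cons (.br (nat_lit 13) (nat_lit 1) (.cons (.br (nat_lit 16) (nat_lit 1) (.cons (.ev (nat_lit 89494273068534977081869495959325491136512) (nat_lit 4)) .nil)) (.cons (.ev (nat_lit 174225927093567564976445945678451228148993) (nat_lit 3)) .nil))) .nil)))),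
 (.br (nat_lit 6) (nat_lit 1) (.cons (.ev (nat_lit 1208944266641277372596481) (nat_lit 1)) (.cons (.rf (nat_lit 447) (nat_lit 640105428919575049360444448)) (.cons (.br (nat_lit 12) (nat_lit 1) (.cons (.zr (nat_lit 1361134659982787246230613678138763247627) (nat_lit 1329349848698862885746405384047035136) (nat_lit 24) (nat_lit 15)) (.cons (.br (nat_lit 13) (nat_lit 1) (.cons (.ev (nat_lit 1362464009829626781132006372706183284481) (nat_lit 3)) .nil)) .nil))) (.cons (.br (nat_lit 12) (nat_lit 1) (.cons (.rf (nat_lit 239) (nat_lit 661400239294163780242497)) (.cons (.ev (nat_lit 681930308074443469594772350989814990081) (nat_lit 3)) (.cons (.rf (nat_lit 293) (nat_lit 624992205334769312073825)) .nil)))) .nil))))),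
 (.br (nat_lit 5) (nat_lit 1) (.cons (.rf (nat_lit 447) (nat_lit 677582165103132179601393696)) (.cons (.rf (nat_lit 447) (nat_lit 640105428919575050400663584)) (.cons (.rf (nat_lit 448) (nat_lit 677582165103132179601393696)) (.cons (.rf (nat_lit 448) (nat_lit 640105428919575050400663584)) .nil))))),
 (.br (nat_lit 6) (nat_lit 1) (.cons (.ev (nat_lit 1208944266641277372596481) (nat_lit 1)) (.cons (.zr (nat_lit 4003260877930352101669070268195274752) (nat_lit 40723586226267510482779489960705) (nat_lit 8) (nat_lit 4)) (.cons (.br (nat_lit 5) (nat_lit 1) (.cons (.ev (nat_lit 1334461015918987773432105901012222211) (nat_lit 2)) (.cons (.ev (nat_lit 5192297168024559816641013499363585) (nat_lit 1)) (.cons (.rf (nat_lit 278) (nat_lit 624992205334769344580673)) .nil)))) .nil)))),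
 (.br (nat_lit 6) (nat_lit 1) (.cons (.rf (nat_lit 449) (nat_lit 677582165103132179601393696)) (.cons (.zr (nat_lit 4003260877930352101669070268195274752) (nat_lit 40723586226267510482779489960705) (nat_lit 8) (nat_lit 4)) (.cons (.rf (nat_lit 450) (nat_lit 677582165103132179601393696)) (.cons (.br (nat_lit 6) (nat_lit 1) (.cons (.rf (nat_lit 449) (nat_lit 677582165103132179601393696)) (.cons (.zr (nat_lit 4003260877930352101669070268195274752) (nat_lit 40723586226267510482779489960705) (nat_lit 8) (nat_lit 4)) (.cons (.rf (nat_lit 450) (nat_lit 677582165103132179601393696)) .nil)))) .nil))))),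
 (.br (nat_lit 6) (nat_lit 1) (.cons (.ev (nat_lit 5192297168024559816641013499363585) (nat_lit 1)) (.cons (.rf (nat_lit 278) (nat_lit 661627474002104094427233)) (.cons (.zr (nat_lit 2174857549558784305559240715) (nat_lit 174906502171436164908285731102123574430464) (nat_lit 24) (nat_lit 15)) .nil)))),
 (.br (nat_lit 5) (nat_lit 1) (.cons (.rf (nat_lit 449) (nat_lit 677582165103132179601393696)) (.cons (.rf (nat_lit 451) (nat_lit 677582165103132179601393696)) (.cons (.rf (nat_lit 451) (nat_lit 640105428919575050400663584)) (.cons (.br (nat_lit 6) (nat_lit 1) (.cons (.rf (nat_lit 451) (nat_lit 677582165103132178561174560)) (.cons (.rf (nat_lit 451) (nat_lit 640105428919575049360444448)) (.cons (.rf (nat_lit 452) (nat_lit 677582165103132179601393696)) (.cons (.rf (nat_lit 452) (nat_lit 640105428919575050400663584)) .nil))))) .nil))))),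
 (.br (nat_lit 6) (nat_lit 1) (.cons (.rf (nat_lit 366) (nat_lit 18240815054650796509216)) (.cons (.br (nat_lit 9) (nat_lit 1) (.cons (.ev (nat_lit 1344805203586301089810733202222875393) (nat_lit 3)) (.cons (.rf (nat_lit 130) (nat_lit 18048932320514)) .nil))) (.cons (.ev (nat_lit 5212579269347423565313146481606913) (nat_lit 1)) (.cons (.br (nat_lit 9) (nat_lit 1) (.cons (.ev (nat_lit 1334420770186088669118640874857039616) (nat_lit 3)) (.cons (.rf (nat_lit 12) (nat_lit 18007930975305)) (.cons (.br (nat_lit 12) (nat_lit 1) (.cons (.ev (nat_lit 1344805203583892719652718950179931911) (nat_lit 3)) (.cons (.zr (nat_lit 681893961997046622931432708616212185345) (nat_lit 15576890576822853654907589520130048) (nat_lit 8) (nat_lit 10)) (.cons (.br (nat_lit 13) (nat_lit 1) (.cons (.ev (nat_lit 1362495041759097156976715595045637718791) (nat_lit 3)) (.cons (.ev (nat_lit 1365655521899203489947565539379380995) (nat_lit 3)) .nil))) .nil)))) (.cons (.br (nat_lit 12) (nat_lit 1) (.cons (.rf (nat_lit 12) (nat_lit 17904851760204)) (.cons (.br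 (nat_lit 13) (nat_lit 1) (.cons (.ev (nat_lit 340282366921249157399087906202977370113) (nat_lit 1)) (.cons (.br (nat_lit 16) (nat_lit 1) (.cons (.ev (nat_lit 681899194699650278903373586103976198403) (nat_lit 2)) .nil)) .nil))) (.cons (.br (nat_lit 13) (nat_lit 1) (.cons (.br (nat_lit 16) (nat_lit 1) (.cons (.ev (nat_lit 340282366921247953214009462018352939008) (nat_lit 1)) .nil)) (.cons (.ev (nat_lit 174225906283971906180801105754710079439105) (nat_lit 2)) .nil))) .nil)))) .nil))))) .nil))))),
 (.br (nat_lit 9) (nat_lit 1) (.cons (.kr (nat_lit 20282409603670117168020960837632) (nat_lit 79228167236630820463189164032) (nat_lit 8) (nat_lit 0)) (.cons (.ev (nat_lit 340282366920939677130007731578802864128) (nat_lit 1)) (.cons (.br (nat_lit 13) (nat_lit 1) (.cons (.ev (nat_lit 340282387282577438555129266176243335168) (nat_lit 1)) (.cons (.br (nat_lit 16) (nat_lit 1) (.cons (.ev (nat_lit 90174837841987228708588411820541390949888) (nat_lit 4)) .nil)) .nil))) .nil)))),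
 (.br (nat_lit 9) (nat_lit 1) (.cons (.zr (nat_lit 2041694201684396590818597664867896786949) (nat_lit 1334420292644659663462178264327520512) (nat_lit 8) (nat_lit 15)) (.cons (.ev (nat_lit 340282366921247953214009462018352939008) (nat_lit 1)) (.cons (.br (nat_lit 12) (nat_lit 1) (.cons (.ev (nat_lit 1344845609946746623516619272733328129) (nat_lit 2)) (.cons (.ev (nat_lit 5192376396187074080978602731503873) (nat_lit 1)) .nil))) .nil)))),
 (.br (nat_lit 13) (nat_lit 1) (.cons (.ev (nat_lit 341616787213581914163906946087906181376) (nat_lit 1)) (.cons (.rf (nat_lit 239) (nat_lit 661663249507859215551553)) .nil))),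
 (.br (nat_lit 12) (nat_lit 1) (.cons (.kr (nat_lit 20282409603670117168020960837632) (nat_lit 79228167236630820463189164032) (nat_lit 8) (nat_lit 0)) (.cons (.rf (nat_lit 457) (nat_lit 677582165103132179601393696)) (.cons (.rf (nat_lit 457) (nat_lit 640105464695078674145283104)) .nil)))),
 (.br (nat_lit 13) (nat_lit 1) (.cons (.ev (nat_lit 681899154293289814480055964508291596545) (nat_lit 2)) (.cons (.rf (nat_lit 239) (nat_lit 661552464232474261720129)) .nil))),
 (.br (nat_lit 9) (nat_lit 1) (.cons (.kr (nat_lit 20282409603670117168020960837632) (nat_lit 79228167236630820463189164032) (nat_lit 8) (nat_lit 0)) (.cons (.rf (nat_lit 459) (nat_lit 677582165103132179601393696)) (.cons (.rf (nat_lit 459) (nat_lit 640105464695078674145283104)) .nil)))),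
 (.br (nat_lit 11) (nat_lit 1) (.cons (.rf (nat_lit 12) (nat_lit 5567501676807)) (.cons (.ev (nat_lit 5192297168024578263385087208849408) (nat_lit 1)) .nil))),
 (.br (nat_lit 9) (nat_lit 1) (.cons (.ev (nat_lit 8006542275959645286626228463550334466) (nat_lit 3)) (.cons (.rf (nat_lit 461) (nat_lit 21174442659472880612543552)) (.cons (.rf (nat_lit 461) (nat_lit 20003295771721208567040096)) .nil)))),
 (.br (nat_lit 9) (nat_lit 1) (.cons (.rf (nat_lit 461) (nat_lit 21174441541488392338017344)) (.cons (.rf (nat_lit 460) (nat_lit 677582129327628554816555040)) (.cons (.ev (nat_lit 341616787213892608099547905785805668608) (nat_lit 1)) (.cons (.br (nat_lit 12) (nat_lit 1) (.cons (.rf (nat_lit 239) (nat_lit 661400239294163780242497)) (.cons (.ev (nat_lit 5192376396187074080978602731503873) (nat_lit 1)) (.cons (.zr (nat_lit 11968244258945851166398103921526572288) (nat_lit 871122859318395057576539826895434897817603) (nat_lit 40) (nat_lit 11)) .nil)))) .nil))))),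
 (.br (nat_lit 5) (nat_lit 1) (.cons (.rf (nat_lit 454) (nat_lit 583706118939841765935136)) (.cons (.rf (nat_lit 454) (nat_lit 583670343436216981096480)) (.cons (.rf (nat_lit 454) (nat_lit 8605814157230407256207)) (.cons (.rf (nat_lit 454) (nat_lit 8570038653605622417551)) (.cons (.br (nat_lit 6) (nat_lit 1) (.cons (.rf (nat_lit 454) (nat_lit 583706118939840725716000)) (.cons (.rf (nat_lit 454) (nat_lit 583670343436215940877344)) (.cons (.rf (nat_lit 454) (nat_lit 8605814157229367037071)) (.cons (.rf (nat_lit 454) (nat_lit 8570038653604582198415)) (.cons (.br (nat_lit 8) (nat_lit 1) (.cons (.ev (nat_lit 1344804886671223773273550077852386049) (nat_lit 2)) (.cons (.rf (nat_lit 455) (nat_lit 19926519232773908561233952)) (.cons (.br (nat_lit 9) (nat_lit 1) (.cons (.ev (nat_lit 1344804887292611644555469473651360513) (nat_lit 2)) (.cons (.zr (nat_lit 2041694242090451197009408107135761383429) (nat_lit 1334420292952945155303386295748919552) (nat_lit 8) (nat_lit 15)) (.cons (.br (nat_lit 12) (nat_lit 1) (.cons (.zr (nat_lit 2048340341504864845191481513108154877184)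 (nat_lit 15577049033138437306504052593524737) (nat_lit 8) (nat_lit 0)) (.cons (.ev (nat_lit 5192376396187074080978602731503873) (nat_lit 1)) .nil))) .nil)))) (.cons (.rf (nat_lit 456) (nat_lit 19926519232773908561233952)) (.cons (.br (nat_lit 13) (nat_lit 1) (.cons (.rf (nat_lit 455) (nat_lit 19926483457270283776395296)) (.cons (.ev (nat_lit 1344845609946746623516619272733328129) (nat_lit 2)) (.cons (.rf (nat_lit 456) (nat_lit 19351383152487672417716367)) (.cons (.ev (nat_lit 5212579269347423565595720953102593) (nat_lit 1)) .nil))))) .nil)))))) (.cons (.br (nat_lit 8) (nat_lit 1) (.cons (.rf (nat_lit 458) (nat_lit 677582165103132179601393696)) (.cons (.rf (nat_lit 460) (nat_lit 677582165103132179601393696)) (.cons (.rf (nat_lit 462) (nat_lit 677582165103132179601393696)) (.cons (.rf (nat_lit 463) (nat_lit 677582165103132179601393696)) (.cons (.rf (nat_lit 463) (nat_lit 640105464695078674145283104)) .nil)))))) .nil))))))) .nil)))))),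
 (.br (nat_lit 13) (nat_lit 1) (.cons (.ev (nat_lit 680575138798163849295677143434077012482) (nat_lit 2)) (.cons (.ev (nat_lit 1344927058361993864498444377293588227) (nat_lit 3)) .nil))),
 (.br (nat_lit 6) (nat_lit 1) (.cons (.ev (nat_lit 1344804886673632143142208053836776195) (nat_lit 2)) (.cons (.ev (nat_lit 1344804886671223773273550077852386049) (nat_lit 2)) (.cons (.br (nat_lit 17) (nat_lit 1) (.cons (.ev (nat_lit 522675050132549510644717438718479054405891) (nat_lit 3)) (.cons (.ev (nat_lit 174225927093567560131408614157903779332357) (nat_lit 3)) .nil))) .nil)))),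
 (.br (nat_lit 6) (nat_lit 1) (.cons (.ev (nat_lit 1344804886673632143142208053836776195) (nat_lit 2)) (.cons (.br (nat_lit 9) (nat_lit 1) (.cons (.ev (nat_lit 340282366920938463463446666129629511681) (nat_lit 1)) (.cons (.br (nat_lit 16) (nat_lit 1) (.cons (.ev (nat_lit 90174837841987228708588411820541390949888) (nat_lit 4)) .nil)) .nil))) (.cons (.br (nat_lit 9) (nat_lit 1) (.cons (.br (nat_lit 16) (nat_lit 1) (.cons (.ev (nat_lit 88813770601372435202623256283610664469000) (nat_lit 4)) .nil)) (.cons (.ev (nat_lit 174225906283971903772357450116041210331395) (nat_lit 2)) .nil))) .nil)))),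
 (.br (nat_lit 6) (nat_lit 1) (.cons (.ev (nat_lit 1344804886671223773273550077852386049) (nat_lit 2)) (.cons (.rf (nat_lit 467) (nat_lit 677582165103132179601393696)) (.cons (.br (nat_lit 16) (nat_lit 1) (.cons (.ev (nat_lit 340282366920938463463446666129629511681) (nat_lit 1)) (.cons (.ev (nat_lit 1362474394742110993051177281853256107783) (nat_lit 3)) (.cons (.br (nat_lit 9) (nat_lit 1) (.cons (.ev (nat_lit 2043049472612885791774576801454179614981) (nat_lit 3)) .nil)) .nil)))) .nil)))),
 (.br (nat_lit 5) (nat_lit 1) (.cons (.rf (nat_lit 464) (nat_lit 583706118939841765935136)) (.cons (.br (nat_lit 6) (nat_lit 1) (.cons (.ev (nat_lit 5192376396187074080696028260008193) (nat_lit 1)) (.cons (.ev (nat_lit 5212579269347423565313146481606913) (nat_lit 1)) (.cons (.br (nat_lit 6) (nat_lit 1) (.cons (.ev (nat_lit 5192376396187074080696028260008193) (nat_lit 1)) (.cons (.ev (nat_lit 5212579269347423565313146481606913) (nat_lit 1)) (.cons (.br (nat_lit 12) (nat_lit 1) (.cons (.zr (nat_lit 1344804886671214291430360450485714947)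 (nat_lit 40723275532332085695863704387840) (nat_lit 8) (nat_lit 15)) (.cons (.rf (nat_lit 465) (nat_lit 677582165103132179601393696)) (.cons (.rf (nat_lit 465) (nat_lit 640105464695078675185502240)) .nil)))) .nil)))) .nil)))) (.cons (.ev (nat_lit 5192376397391296052630559326798080) (nat_lit 1)) (.cons (.ev (nat_lit 1344804887290184311145108181973336835) (nat_lit 2)) (.cons (.br (nat_lit 13) (nat_lit 1) (.cons (.ev (nat_lit 5212579269347423565313146481606913) (nat_lit 1)) (.cons (.rf (nat_lit 409) (nat_lit 19310622562202512657473)) (.cons (.rf (nat_lit 409) (nat_lit 19421407837587466488897)) (.cons (.br (nat_lit 9) (nat_lit 1) (.cons (.br (nat_lit 6) (nat_lit 1) (.cons (.ev (nat_lit 1344804886673632143142208053836776195) (nat_lit 2)) (.cons (.ev (nat_lit 1344804886671223773273550077852386049) (nat_lit 2)) (.cons (.br (nat_lit 12) (nat_lit 1) (.cons (.ev (nat_lit 2043028622293956337354008769778681905411) (nat_lit 3)) (.cons (.rf (nat_lit 253) (nat_lit 661552464232474261720129)) .nil))) .nil)))) (.cons (.ev (nat_lit 5212579268143201737496011070308608)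 (nat_lit 1)) (.cons (.ev (nat_lit 681899194700271666774654940350764810499) (nat_lit 2)) (.cons (.br (nat_lit 12) (nat_lit 1) (.cons (.br (nat_lit 6) (nat_lit 1) (.cons (.ev (nat_lit 340282366921249157399087906202977370113) (nat_lit 1)) (.cons (.zr (nat_lit 121852913946975805557959632879619) (nat_lit 6661716870429857247421248962165736192) (nat_lit 8) (nat_lit 7)) .nil))) (.cons (.rf (nat_lit 130) (nat_lit 6909977957634)) (.cons (.br (nat_lit 16) (nat_lit 1) (.cons (.zr (nat_lit 4003260878858816575794020212396785667) (nat_lit 680564815129972875488139488443289043200) (nat_lit 8) (nat_lit 15)) (.cons (.ev (nat_lit 87113620372414529072416258273857574535425) (nat_lit 1)) .nil))) .nil)))) .nil))))) (.cons (.br (nat_lit 6) (nat_lit 1) (.cons (.rf (nat_lit 466) (nat_lit 677582165103132179601393696)) (.cons (.rf (nat_lit 467) (nat_lit 677582165103132179601393696)) (.cons (.rf (nat_lit 468) (nat_lit 677582165103132179601393696)) (.cons (.br (nat_lit 6) (nat_lit 1) (.cons (.rf (nat_lit 466) (nat_lit 677582165103132179601393696)) (.cons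 (.rf (nat_lit 467) (nat_lit 677582165103132179601393696)) (.cons (.rf (nat_lit 468) (nat_lit 677582165103132179601393696)) .nil)))) .nil))))) .nil)))))) .nil))))))]

theorem c20 : chkAll C T R L20 (nat_lit 447) = true := by decide +kernel

theorem l20 : (nat_lit 447) + L20.length = (nat_lit 470) := by decide +kernel

/-- part of the certificates -/
def L21 : List Prf := [(.br (nat_lit 6) (nat_lit 1) (.cons (.rf (nat_lit 469) (nat_lit 583706118939840725716000)) (.cons (.rf (nat_lit 469) (nat_lit 583670343436215940877344)) (.cons (.rf (nat_lit 469) (nat_lit 8605814157229367037071)) (.cons (.rf (nat_lit 469) (nat_lit 8570038653604582198415)) (.cons (.kr (nat_lit 281474976776192) (nat_lit 1099528404992) (nat_lit 2) (nat_lit 0)) .nil)))))),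
 (.br (nat_lit 9) (nat_lit 1) (.cons (.ev (nat_lit 20282720297605758410293348663553) (nat_lit 1)) (.cons (.ev (nat_lit 341616787213892608099548186161254039808) (nat_lit 1)) (.cons (.br (nat_lit 13) (nat_lit 1) (.cons (.ev (nat_lit 681909579451823673587159322283722539267) (nat_lit 2)) (.cons (.zr (nat_lit 5192297174073911281477400171643139) (nat_lit 1329268877516773270411668470399762432) (nat_lit 8) (nat_lit 1)) .nil))) .nil)))),
 (.br (nat_lit 6) (nat_lit 1) (.cons (.ev (nat_lit 1334420452029439684417283127366386435) (nat_lit 2)) (.cons (.ev (nat_lit 5192376396187074080696028260008193) (nat_lit 1)) (.cons (.ev (nat_lit 1344805045748927191313573378374238979) (nat_lit 2)) (.cons (.br (nat_lit 8) (nat_lit 1) (.cons (.rf (nat_lit 12) (nat_lit 18042290840648)) (.cons (.rf (nat_lit 12) (nat_lit 17904851891272)) (.cons (.rf (nat_lit 471) (nat_lit 19926519232773908561233952)) (.cons (.br (nat_lit 13) (nat_lit 1) (.cons (.rf (nat_lit 12) (nat_lit 17870492152905)) (.cons (.rf (nat_lit 471) (nat_lit 19354928281299990940321935)) (.cons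 (.br (nat_lit 9) (nat_lit 1) (.cons (.br (nat_lit 16) (nat_lit 1) (.cons (.ev (nat_lit 90174879380839934588966255376033621542408) (nat_lit 4)) .nil)) (.cons (.ev (nat_lit 174225906283813449865180560670112471843075) (nat_lit 2)) .nil))) .nil)))) .nil))))) .nil))))),
 (.br (nat_lit 6) (nat_lit 1) (.cons (.ev (nat_lit 1334420452029439684417283127366386435) (nat_lit 2)) (.cons (.ev (nat_lit 5192376396187074080696028260008193) (nat_lit 1)) (.cons (.ev (nat_lit 1344804887290184311145668932936925955) (nat_lit 2)) (.cons (.br (nat_lit 5) (nat_lit 1) (.cons (.rf (nat_lit 102) (nat_lit 18047657448738)) (.cons (.rf (nat_lit 102) (nat_lit 17910218528130)) (.cons (.br (nat_lit 9) (nat_lit 1) (.cons (.ev (nat_lit 20361947251194203133257717907713) (nat_lit 1)) (.cons (.ev (nat_lit 341616787213892608099548186161254039808) (nat_lit 1)) (.cons (.br (nat_lit 13) (nat_lit 1) (.cons (.ev (nat_lit 681909579451823673587159322283722539267) (nat_lit 2)) (.cons (.zr (nat_lit 5192297171656059642248141822230787) (nat_lit 1329268719060448241882993283311861760)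 (nat_lit 8) (nat_lit 1)) .nil))) .nil)))) (.cons (.br (nat_lit 9) (nat_lit 1) (.cons (.rf (nat_lit 40) (nat_lit 18979667162185)) (.cons (.br (nat_lit 13) (nat_lit 1) (.cons (.ev (nat_lit 340287559297025160805339814594951053313) (nat_lit 1)) (.cons (.br (nat_lit 16) (nat_lit 1) (.cons (.ev (nat_lit 90174879380364572867435587038247406077448) (nat_lit 4)) .nil)) .nil))) (.cons (.br (nat_lit 13) (nat_lit 1) (.cons (.zr (nat_lit 5192297171656059642248141822230787) (nat_lit 1329268719060448241882993283311861760) (nat_lit 8) (nat_lit 1)) (.cons (.ev (nat_lit 174225906283971903772357450116041210331395) (nat_lit 2)) .nil))) .nil)))) .nil))))) .nil))))),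
 (.br (nat_lit 16) (nat_lit 1) (.cons (.ev (nat_lit 681909579293369785299591129704192804097) (nat_lit 3)) (.cons (.ev (nat_lit 340282367000167834903530898727796539393) (nat_lit 1)) .nil))),
 (.br (nat_lit 9) (nat_lit 1) (.cons (.ev (nat_lit 1334461016851074321023253415964312323) (nat_lit 2)) (.cons (.rf (nat_lit 474) (nat_lit 677582165103132179601393696)) (.cons (.rf (nat_lit 474) (nat_lit 640105464695078675185502240)) .nil)))),
 (.br (nat_lit 13) (nat_lit 1) (.cons (.ev (nat_lit 1344845610565726124641085150273340163) (nat_lit 2)) (.cons (.kr (nat_lit 5192296859748475814909470125916160) (nat_lit 20361637766184381506714033192960) (nat_lit 2) (nat_lit 0)) .nil))),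
 (.br (nat_lit 9) (nat_lit 1) (.cons (.rf (nat_lit 409) (nat_lit 19158397623892031179841)) (.cons (.rf (nat_lit 409) (nat_lit 19306147352102810291265)) (.cons (.br (nat_lit 8) (nat_lit 1) (.cons (.ev (nat_lit 681909579293369785299591129704192804097) (nat_lit 3)) (.cons (.rf (nat_lit 278) (nat_lit 661590545577009094986817)) .nil))) (.cons (.br (nat_lit 16) (nat_lit 1) (.cons (.rf (nat_lit 279) (nat_lit 661590545577009094986817)) (.cons (.rf (nat_lit 279) (nat_lit 661586072552467925699649)) (.cons (.ev (nat_lit 87113620352132427744848517804226517205248) (nat_lit 1)) .nil)))) .nil))))),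
 (.br (nat_lit 6) (nat_lit 1) (.cons (.rf (nat_lit 472) (nat_lit 583706118939841765935136)) (.cons (.rf (nat_lit 473) (nat_lit 583706118939841765935136)) (.cons (.ev (nat_lit 5192376396187074080696028260008193) (nat_lit 1)) (.cons (.rf (nat_lit 473) (nat_lit 12115167465924145023119)) (.cons (.br (nat_lit 6) (nat_lit 1) (.cons (.rf (nat_lit 472) (nat_lit 583706118939841765935136)) (.cons (.rf (nat_lit 473) (nat_lit 583706118939841765935136)) (.cons (.ev (nat_lit 5192376396187074080696028260008193) (nat_lit 1)) (.cons (.rf (nat_lit 473) (nat_lit 12115167465924145023119)) (.cons (.br (nat_lit 5) (nat_lit 1) (.cons (.rf (nat_lit 475) (nat_lit 677582165103132179601393696)) (.cons (.br (nat_lit 8) (nat_lit 1) (.cons (.ev (nat_lit 1334461016851074321023253415964312323) (nat_lit 2)) (.cons (.rf (nat_lit 476) (nat_lit 677582165103132179601393696)) (.cons (.rf (nat_lit 476) (nat_lit 640105464695078675185502240)) .nil)))) (.cons (.rf (nat_lit 475) (nat_lit 677010574151658261980481679)) (.cons (.rf (nat_lit 477) (nat_lit 677582165103132179601393696))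 (.cons (.rf (nat_lit 477) (nat_lit 640105464695078675185502240)) .nil)))))) .nil)))))) .nil)))))),
 (.br (nat_lit 16) (nat_lit 1) (.cons (.ev (nat_lit 341616807496301007566211942047237013760) (nat_lit 1)) .nil)),
 (.br (nat_lit 5) (nat_lit 1) (.cons (.rf (nat_lit 68) (nat_lit 17804152811593)) (.cons (.rf (nat_lit 68) (nat_lit 7152308858953)) (.cons (.br (nat_lit 6) (nat_lit 1) (.cons (.rf (nat_lit 479) (nat_lit 677582165103132179601393696)) (.cons (.br (nat_lit 6) (nat_lit 1) (.cons (.rf (nat_lit 479) (nat_lit 677582165103132179601393696)) .nil)) .nil))) .nil)))),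
 (.br (nat_lit 13) (nat_lit 1) (.cons (.ev (nat_lit 1344804887290184311145108181973336835) (nat_lit 2)) (.cons (.ev (nat_lit 1365696086101877588680286657826652929) (nat_lit 3)) (.cons (.rf (nat_lit 480) (nat_lit 19926519232773908561233952)) .nil)))),
 (.br (nat_lit 5) (nat_lit 1) (.cons (.br (nat_lit 6) (nat_lit 1) (.cons (.ev (nat_lit 87465860721331430870271225974484088456202) (nat_lit 4)) .nil)) .nil)),
 (.br (nat_lit 6) (nat_lit 1) (.cons (.ev (nat_lit 1362463888137026069280911899435024254721) (nat_lit 3)) (.cons (.br (nat_lit 16) (nat_lit 1) (.cons (.ev (nat_lit 87452620445472426881259256255983703885320) (nat_lit 4)) .nil)) .nil))),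
 (.br (nat_lit 5) (nat_lit 1) (.cons (.rf (nat_lit 483) (nat_lit 677582165103132179601393696)) (.cons (.rf (nat_lit 483) (nat_lit 639533873743604757564590223)) .nil))),
 (.br (nat_lit 5) (nat_lit 1) (.cons (.rf (nat_lit 484) (nat_lit 677582165103132179601393696)) (.cons (.ev (nat_lit 1344845610565726124641085150273340163) (nat_lit 2)) .nil))),
 (.br (nat_lit 6) (nat_lit 1) (.cons (.ev (nat_lit 1355189481009690707653133958155076353) (nat_lit 3)) (.cons (.rf (nat_lit 130) (nat_lit 17914748146946)) (.cons (.br (nat_lit 13) (nat_lit 1) (.cons (.ev (nat_lit 79538861172272062735576989953) (nat_lit 1)) (.cons (.ev (nat_lit 681909579451823673587159322283722539267) (nat_lit 2)) (.cons (.br (nat_lit 16) (nat_lit 1) (.cons (.ev (nat_lit 5192297169233485636255638362259713) (nat_lit 1)) (.cons (.ev (nat_lit 681899194699650278903373586103976198403) (nat_lit 2)) .nil))) .nil)))) (.cons (.br (nat_lit 9) (nat_lit 1) (.cons (.rf (nat_lit 12) (nat_lit 19107442603081)) (.cons (.br (nat_lit 13) (nat_lit 1) (.cons (.ev (nat_lit 681909579293369785299591129704192804097)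 (nat_lit 3)) (.cons (.rf (nat_lit 290) (nat_lit 661590545577009094986817)) .nil))) (.cons (.ev (nat_lit 5192297169233485636255638362259713) (nat_lit 1)) .nil)))) .nil))))),
 (.br (nat_lit 13) (nat_lit 1) (.cons (.ev (nat_lit 1344804887295038904034180721918870273) (nat_lit 3)) (.cons (.ev (nat_lit 681909579451823673587158757134712176899) (nat_lit 2)) (.cons (.br (nat_lit 16) (nat_lit 1) (.cons (.ev (nat_lit 1355189956381083644877267275841012481) (nat_lit 3)) (.cons (.ev (nat_lit 681899194699650278903373020954965836035) (nat_lit 2)) .nil))) .nil)))),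
 (.br (nat_lit 6) (nat_lit 1) (.cons (.ev (nat_lit 1355189481009690707652012456227898113) (nat_lit 3)) (.cons (.ev (nat_lit 1344804887295038904034180721918870273) (nat_lit 3)) (.cons (.ev (nat_lit 1355189956381083644877267275841012481) (nat_lit 3)) (.cons (.br (nat_lit 8) (nat_lit 1) (.cons (.rf (nat_lit 12) (nat_lit 19107442635848)) (.cons (.rf (nat_lit 487) (nat_lit 19926519232773908561233952)) (.cons (.br (nat_lit 13) (nat_lit 1) (.cons (.rf (nat_lit 487) (nat_lit 19354928281299990940321935)) (.cons (.ev (nat_lit 174225906283813449865180561235261482205443) (nat_lit 2)) .nil))) .nil)))) .nil))))),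
 (.br (nat_lit 13) (nat_lit 1) (.cons (.ev (nat_lit 79538861172272062735576989953) (nat_lit 1)) (.cons (.ev (nat_lit 681909579451823692476480575632931292417) (nat_lit 3)) (.cons (.rf (nat_lit 439) (nat_lit 639534016950327948040308879)) .nil)))),
 (.br (nat_lit 6) (nat_lit 1) (.cons (.rf (nat_lit 486) (nat_lit 19926519232773907521014816)) (.cons (.ev (nat_lit 1355189956381083644878388777768190721) (nat_lit 3)) (.cons (.rf (nat_lit 486) (nat_lit 19354928281299989900102799)) (.cons (.br (nat_lit 8) (nat_lit 1) (.cons (.ev (nat_lit 5192297169233485636255638362259713) (nat_lit 1)) (.cons (.ev (nat_lit 681909579451823673587159322283722539267) (nat_lit 2)) (.cons (.br (nat_lit 13) (nat_lit 1) (.cons (.ev (nat_lit 309489732188110512858333441) (nat_lit 1)) (.cons (.ev (nat_lit 681899194858109021783541490549413511427) (nat_lit 2)) .nil))) .nil)))) (.cons (.br (nat_lit 9) (nat_lit 1) (.cons (.rf (nat_lit 489) (nat_lit 19926519232773908561233952)) (.cons (.rf (nat_lit 489) (nat_lit 19354928281299990940321935)) (.cons (.br (nat_lit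 8) (nat_lit 1) (.cons (.ev (nat_lit 681909579293369785299591129704192804097) (nat_lit 3)) (.cons (.rf (nat_lit 293) (nat_lit 661590545577009094986817)) .nil))) (.cons (.ev (nat_lit 5192376396187074080978602731503873) (nat_lit 1)) .nil))))) .nil)))))),
 (.br (nat_lit 5) (nat_lit 1) (.cons (.rf (nat_lit 486) (nat_lit 19926519232773908561233952)) (.cons (.rf (nat_lit 488) (nat_lit 19926519232773908561233952)) (.cons (.rf (nat_lit 486) (nat_lit 19354928281299990940321935)) (.cons (.rf (nat_lit 490) (nat_lit 19926519232773908561233952)) (.cons (.br (nat_lit 6) (nat_lit 1) (.cons (.rf (nat_lit 486) (nat_lit 19926519232773907521014816)) (.cons (.rf (nat_lit 488) (nat_lit 19926519232773907521014816)) (.cons (.rf (nat_lit 486) (nat_lit 19354928281299989900102799)) (.cons (.rf (nat_lit 490) (nat_lit 19926519232773907521014816)) (.cons (.br (nat_lit 9) (nat_lit 1) (.cons (.ev (nat_lit 5192297169233485636255638362259713) (nat_lit 1)) (.cons (.ev (nat_lit 309489732188110512858333441) (nat_lit 1)) (.cons (.ev (nat_lit 5192376396187074080978602731503873)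 (nat_lit 1)) (.cons (.ev (nat_lit 174225916668407164516984179066995791233283) (nat_lit 2)) .nil))))) .nil)))))) .nil)))))),
 (.br (nat_lit 17) (nat_lit 1) (.cons (.ev (nat_lit 87112285931760246646623971841605971804161) (nat_lit 1)) (.cons (.ev (nat_lit 87113615159756341047506624936136644034816) (nat_lit 1)) (.cons (.ev (nat_lit 87112285931839476018064055793828690460673) (nat_lit 1)) .nil)))),
 (.br (nat_lit 5) (nat_lit 1) (.cons (.rf (nat_lit 491) (nat_lit 19926519232773908561233952)) (.cons (.rf (nat_lit 297) (nat_lit 19348703906737345924161)) (.cons (.ev (nat_lit 1344804887290184311145108181973336835) (nat_lit 2)) (.cons (.ev (nat_lit 1334420452029439684416722376402797315) (nat_lit 2)) (.cons (.br (nat_lit 9) (nat_lit 1) (.cons (.br (nat_lit 6) (nat_lit 1) (.cons (.rf (nat_lit 102) (nat_lit 19112774768931)) (.cons (.br (nat_lit 13) (nat_lit 1) (.cons (.ev (nat_lit 681930348957408402994161413798450561281) (nat_lit 3)) (.cons (.rf (nat_lit 253) (nat_lit 624954123990234511313985)) .nil))) (.cons (.rf (nat_lit 492) (nat_lit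 677582165103132179601393696)) .nil)))) (.cons (.rf (nat_lit 376) (nat_lit 19272540124888412851265)) (.cons (.br (nat_lit 13) (nat_lit 1) (.cons (.br (nat_lit 6) (nat_lit 1) (.cons (.ev (nat_lit 1344805045748927191313573378374238979) (nat_lit 2)) (.cons (.kr (nat_lit 1208925819896104151482368) (nat_lit 5192296858534827628531595857625088) (nat_lit 2) (nat_lit 0)) .nil))) (.cons (.rf (nat_lit 102) (nat_lit 18803537133961)) (.cons (.br (nat_lit 6) (nat_lit 1) (.cons (.zr (nat_lit 684552458552507206914439820055500817152) (nat_lit 5192297171665504374653134510751745) (nat_lit 8) (nat_lit 0)) (.cons (.zr (nat_lit 174228559547666304365895255274215366984448) (nat_lit 5192297169238208002458136870912001) (nat_lit 8) (nat_lit 0)) .nil))) .nil)))) (.cons (.br (nat_lit 17) (nat_lit 1) (.cons (.ev (nat_lit 87113620352053200791260072800886699589888) (nat_lit 1)) (.cons (.rf (nat_lit 130) (nat_lit 7013054059778)) (.cons (.br (nat_lit 13) (nat_lit 1) (.cons (.br (nat_lit 6) (nat_lit 1) (.cons (.ev (nat_lit 1344805045748927191313573378374238979)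 (nat_lit 2)) .nil)) (.cons (.ev (nat_lit 174906471058379221294495571473344825000707) (nat_lit 2)) .nil))) .nil)))) .nil))))) .nil)))))),
 (.br (nat_lit 5) (nat_lit 1) (.cons (.rf (nat_lit 491) (nat_lit 19926519232773908561233952)) (.cons (.rf (nat_lit 297) (nat_lit 19348703906737345924161)) (.cons (.rf (nat_lit 297) (nat_lit 19344230882196176636993)) (.cons (.br (nat_lit 8) (nat_lit 1) (.cons (.rf (nat_lit 493) (nat_lit 19926519232773907521014816)) (.cons (.rf (nat_lit 68) (nat_lit 7152307844168)) (.cons (.rf (nat_lit 130) (nat_lit 7047379162402)) (.cons (.br (nat_lit 13) (nat_lit 1) (.cons (.rf (nat_lit 493) (nat_lit 19354928281299989900102799)) (.cons (.rf (nat_lit 130) (nat_lit 6875618219298)) (.cons (.br (nat_lit 16) (nat_lit 1) (.cons (.rf (nat_lit 299) (nat_lit 661590545577009094986817)) (.cons (.ev (nat_lit 174906471058379221294495571473344825000707) (nat_lit 2)) .nil))) .nil)))) .nil))))) (.cons (.br (nat_lit 6) (nat_lit 1) (.cons (.rf (nat_lit 493) (nat_lit 19926519232773907521014816)) (.cons (.rf (nat_lit 493)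 (nat_lit 19354928281299989900102799)) (.cons (.br (nat_lit 6) (nat_lit 1) (.cons (.ev (nat_lit 1334420452029439684417283127366386435) (nat_lit 2)) (.cons (.ev (nat_lit 1344805045748927191313573378374238979) (nat_lit 2)) (.cons (.rf (nat_lit 492) (nat_lit 677582165103132178561174560)) .nil)))) (.cons (.rf (nat_lit 492) (nat_lit 677582165103132178561174560)) .nil))))) .nil))))))]

theorem c21 : chkAll C T R L21 (nat_lit 470) = true := by decide +kernel

theorem l21 : (nat_lit 470) + L21.length = (nat_lit 495) := by decide +kernel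

/-- part of the certificates -/
def L22 : List Prf := [(.br (nat_lit 5) (nat_lit 1) (.cons (.rf (nat_lit 491) (nat_lit 19926519232773908561233952)) (.cons (.ev (nat_lit 1334420452029439684416722376402797315) (nat_lit 2)) (.cons (.rf (nat_lit 494) (nat_lit 19926519232773908561233952)) (.cons (.ev (nat_lit 1344805045748927191313012627410649859) (nat_lit 2)) (.cons (.br (nat_lit 6) (nat_lit 1) (.cons (.rf (nat_lit 493) (nat_lit 19926519232773907521014816)) (.cons (.rf (nat_lit 494) (nat_lit 19926519232773907521014816)) (.cons (.rf (nat_lit 493) (nat_lit 19354928281299989900102799)) (.cons (.br (nat_lit 6) (nat_lit 1) (.cons (.ev (nat_lit 1334420452029439684417283127366386435) (nat_lit 2)) (.cons (.rf (nat_lit 494) (nat_lit 19926519232773907521014816)) (.cons (.ev (nat_lit 1344805045748927191313573378374238979) (nat_lit 2)) (.cons (.kr (nat_lit 281474976776192) (nat_lit 1099528404992) (nat_lit 2) (nat_lit 0)) .nil))))) (.cons (.br (nat_lit 6) (nat_lit 1) (.cons (.kr (nat_lit 79228162514264619068520726528) (nat_lit 1208925819615728703111168)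 (nat_lit 2) (nat_lit 0)) (.cons (.rf (nat_lit 494) (nat_lit 19926519232773907521014816)) (.cons (.kr (nat_lit 79228162514264619068520726528) (nat_lit 5192296858534827628531595857625088) (nat_lit 2) (nat_lit 0)) (.cons (.kr (nat_lit 281474976776192) (nat_lit 1099528404992) (nat_lit 2) (nat_lit 0)) .nil))))) .nil)))))) .nil)))))),
 (.br (nat_lit 11) (nat_lit 0) (.cons (.br (nat_lit 12) (nat_lit 1) (.cons (.rf (nat_lit 478) (nat_lit 583706118939841765935136)) (.cons (.rf (nat_lit 478) (nat_lit 583706118939840725716000)) (.cons (.kr (nat_lit 1208925819614629174706176) (nat_lit 79228162514264337593543950336) (nat_lit 10) (nat_lit 0)) (.cons (.br (nat_lit 8) (nat_lit 1) (.cons (.rf (nat_lit 481) (nat_lit 583706118939841765935136)) (.cons (.rf (nat_lit 481) (nat_lit 583706118939840725716000)) (.cons (.ev (nat_lit 1334481219413550179743989573219254531) (nat_lit 2)) (.cons (.br (nat_lit 13) (nat_lit 1) (.cons (.rf (nat_lit 481) (nat_lit 12115167465924145023119)) (.cons (.rf (nat_lit 481) (nat_lit 12115167465923104803983)) (.cons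 (.br (nat_lit 16) (nat_lit 1) (.cons (.rf (nat_lit 68) (nat_lit 6786151526665)) (.cons (.rf (nat_lit 68) (nat_lit 5720967131401)) (.cons (.br (nat_lit 5) (nat_lit 1) (.cons (.rf (nat_lit 482) (nat_lit 677582165103132179601393696)) (.cons (.br (nat_lit 5) (nat_lit 1) (.cons (.rf (nat_lit 482) (nat_lit 677582165103132179601393696)) .nil)) .nil))) .nil)))) (.cons (.br (nat_lit 5) (nat_lit 1) (.cons (.rf (nat_lit 484) (nat_lit 677582165103132179601393696)) (.cons (.rf (nat_lit 485) (nat_lit 677582165103132179601393696)) (.cons (.rf (nat_lit 485) (nat_lit 639533873743604757564590223)) .nil)))) .nil))))) .nil))))) (.cons (.kr (nat_lit 79228162514264337593543950336) (nat_lit 5192296858534827628530496329220096) (nat_lit 12) (nat_lit 0)) (.cons (.br (nat_lit 5) (nat_lit 1) (.cons (.rf (nat_lit 491) (nat_lit 19926519232773908561233952)) (.cons (.rf (nat_lit 493) (nat_lit 19926519232773908561233952)) (.cons (.rf (nat_lit 494) (nat_lit 19926519232773908561233952)) (.cons (.rf (nat_lit 493) (nat_lit 19354928281299990940321935)) (.cons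 (.rf (nat_lit 495) (nat_lit 19926519232773908561233952)) (.cons (.br (nat_lit 5) (nat_lit 1) (.cons (.rf (nat_lit 491) (nat_lit 19926519232773908561233952)) (.cons (.rf (nat_lit 493) (nat_lit 19926519232773908561233952)) (.cons (.rf (nat_lit 494) (nat_lit 19926519232773908561233952)) (.cons (.rf (nat_lit 493) (nat_lit 19354928281299990940321935)) (.cons (.rf (nat_lit 495) (nat_lit 19926519232773908561233952)) .nil)))))) .nil))))))) .nil))))))) .nil)),
 (.br (nat_lit 7) (nat_lit 1) (.cons (.br (nat_lit 7) (nat_lit 1) (.cons (.br (nat_lit 8) (nat_lit 0) (.cons (.br (nat_lit 9) (nat_lit 0) (.cons (.br (nat_lit 0) (nat_lit 0) (.cons (.rf (nat_lit 335) (nat_lit 6614517792)) (.cons (.br (nat_lit 4) (nat_lit 0) (.cons (.rf (nat_lit 219) (nat_lit 391531410530528)) (.cons (.br (nat_lit 11) (nat_lit 0) (.cons (.br (nat_lit 11) (nat_lit 0) (.cons (.br (nat_lit 12) (nat_lit 1) (.cons (.br (nat_lit 12) (nat_lit 1) (.cons (.br (nat_lit 14) (nat_lit 0) (.cons (.br (nat_lit 13) (nat_lit 1) (.cons (.br (nat_lit 8) (nat_lit 1) (.cons (.rf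 (nat_lit 230) (nat_lit 232918182217168077699467)) (.cons (.rf (nat_lit 230) (nat_lit 196319841974895041296779)) (.cons (.kr (nat_lit 18446744073709551616) (nat_lit 4722366482869645213696) (nat_lit 8) (nat_lit 0)) (.cons (.kr (nat_lit 5192296858534827628530500624187393) (nat_lit 309485028268089142434332928) (nat_lit 0) (nat_lit 2)) (.cons (.kr (nat_lit 1329227995784915872903807064575311873) (nat_lit 309485028268089142434332928) (nat_lit 0) (nat_lit 2)) (.cons (.br (nat_lit 9) (nat_lit 1) (.cons (.rf (nat_lit 335) (nat_lit 5916369120)) (.cons (.rf (nat_lit 335) (nat_lit 6990110944)) (.cons (.kr (nat_lit 5192296858534827628530500624187393) (nat_lit 309489732187827938369995008) (nat_lit 0) (nat_lit 2)) (.cons (.kr (nat_lit 1329227995784915872903807064575311873) (nat_lit 309489732187827938369995008) (nat_lit 0) (nat_lit 2)) (.cons (.rf (nat_lit 217) (nat_lit 547660000)) (.cons (.rf (nat_lit 335) (nat_lit 18801271008)) .nil))))))) .nil))))))) .nil)) .nil)) .nil)) .nil)) .nil)) .nil)) .nil))) (.cons (.br (nat_lit 11) (nat_lit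 1) (.cons (.br (nat_lit 11) (nat_lit 1) (.cons (.br (nat_lit 12) (nat_lit 0) (.cons (.br (nat_lit 13) (nat_lit 0) (.cons (.br (nat_lit 4) (nat_lit 0) (.cons (.rf (nat_lit 218) (nat_lit 15372491808)) (.cons (.rf (nat_lit 218) (nat_lit 11211742240)) (.cons (.br (nat_lit 10) (nat_lit 0) (.cons (.rf (nat_lit 218) (nat_lit 4775582752)) (.cons (.br (nat_lit 14) (nat_lit 0) (.cons (.br (nat_lit 8) (nat_lit 1) (.cons (.rf (nat_lit 340) (nat_lit 583706118939841765935136)) (.cons (.rf (nat_lit 340) (nat_lit 583706118939840725716000)) (.cons (.kr (nat_lit 18446744073709551616) (nat_lit 4722366482869645213696) (nat_lit 8) (nat_lit 0)) (.cons (.rf (nat_lit 93) (nat_lit 413442272)) (.cons (.rf (nat_lit 93) (nat_lit 446996704)) (.cons (.br (nat_lit 9) (nat_lit 1) (.cons (.rf (nat_lit 340) (nat_lit 583706118905756905474080)) (.cons (.rf (nat_lit 340) (nat_lit 583706118905755865254944)) (.cons (.rf (nat_lit 93) (nat_lit 413410528)) (.cons (.rf (nat_lit 93) (nat_lit 446964960)) (.cons (.rf (nat_lit 217) (nat_lit 547660000)) (.cons (.br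 (nat_lit 12) (nat_lit 1) (.cons (.rf (nat_lit 340) (nat_lit 578831427352048542255136)) (.cons (.rf (nat_lit 340) (nat_lit 578831427352047502036000)) (.cons (.kr (nat_lit 79228162514264337593543950336) (nat_lit 20282409603651670423947251286016) (nat_lit 12) (nat_lit 0)) (.cons (.rf (nat_lit 340) (nat_lit 571519382997061991702752)) (.cons (.rf (nat_lit 340) (nat_lit 571519382997060951483616)) .nil)))))) .nil))))))) .nil))))))) .nil)) .nil))) .nil)))) .nil)) .nil)) .nil)) .nil)) (.cons (.br (nat_lit 4) (nat_lit 0) (.cons (.br (nat_lit 11) (nat_lit 0) (.cons (.br (nat_lit 11) (nat_lit 0) (.cons (.br (nat_lit 12) (nat_lit 1) (.cons (.br (nat_lit 12) (nat_lit 1) (.cons (.br (nat_lit 14) (nat_lit 0) (.cons (.br (nat_lit 13) (nat_lit 1) (.cons (.br (nat_lit 8) (nat_lit 1) (.cons (.rf (nat_lit 344) (nat_lit 583706118939841765935136)) (.cons (.rf (nat_lit 344) (nat_lit 583706118939840725716000)) (.cons (.kr (nat_lit 18446744073709551616) (nat_lit 4722366482869645213696) (nat_lit 8) (nat_lit 0)) (.cons (.rf (nat_lit 93) (nat_lit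 480551136)) (.cons (.rf (nat_lit 93) (nat_lit 514105568)) (.cons (.br (nat_lit 9) (nat_lit 1) (.cons (.rf (nat_lit 344) (nat_lit 583706118905756905474080)) (.cons (.rf (nat_lit 344) (nat_lit 583706118905755865254944)) (.cons (.rf (nat_lit 93) (nat_lit 480519392)) (.cons (.rf (nat_lit 93) (nat_lit 514073824)) (.cons (.rf (nat_lit 217) (nat_lit 547660000)) (.cons (.br (nat_lit 14) (nat_lit 1) (.cons (.rf (nat_lit 345) (nat_lit 20193522128521466978)) (.cons (.rf (nat_lit 345) (nat_lit 20193522128521435203)) (.cons (.kr (nat_lit 5192296858534827628530496329220096) (nat_lit 1329227995784915872903807060280344576) (nat_lit 14) (nat_lit 0)) (.cons (.rf (nat_lit 345) (nat_lit 19833234158326562888)) (.cons (.rf (nat_lit 345) (nat_lit 18680312653686162505)) .nil)))))) .nil))))))) .nil))))))) .nil)) .nil)) .nil)) .nil)) .nil)) .nil)) (.cons (.rf (nat_lit 362) (nat_lit 391531410530528)) (.cons (.br (nat_lit 10) (nat_lit 0) (.cons (.rf (nat_lit 362) (nat_lit 398341276010528)) (.cons (.rf (nat_lit 363) (nat_lit 459941318688)) .nil)))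 .nil)))) .nil))))) (.cons (.br (nat_lit 10) (nat_lit 1) (.cons (.br (nat_lit 11) (nat_lit 1) (.cons (.br (nat_lit 0) (nat_lit 0) (.cons (.rf (nat_lit 335) (nat_lit 6614517792)) (.cons (.rf (nat_lit 364) (nat_lit 13909140158122016)) (.cons (.rf (nat_lit 364) (nat_lit 13875022011664416)) (.cons (.rf (nat_lit 231) (nat_lit 15071359418895425)) (.cons (.br (nat_lit 4) (nat_lit 0) (.cons (.rf (nat_lit 365) (nat_lit 482283501404653600)) (.cons (.rf (nat_lit 365) (nat_lit 482249383258196000)) (.cons (.br (nat_lit 10) (nat_lit 0) (.cons (.br (nat_lit 13) (nat_lit 0) (.cons (.rf (nat_lit 231) (nat_lit 16197259325738049)) .nil)) (.cons (.br (nat_lit 11) (nat_lit 0) (.cons (.rf (nat_lit 231) (nat_lit 16197259325738049)) .nil)) (.cons (.rf (nat_lit 231) (nat_lit 16197259325738049)) .nil)))) (.cons (.rf (nat_lit 231) (nat_lit 16197259325738049)) .nil))))) .nil)))))) (.cons (.br (nat_lit 12) (nat_lit 0) (.cons (.br (nat_lit 13) (nat_lit 0) (.cons (.br (nat_lit 0) (nat_lit 0) (.cons (.rf (nat_lit 335) (nat_lit 6614517792)) (.cons (.rf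 (nat_lit 387) (nat_lit 17022140995484340291616)) (.cons (.rf (nat_lit 387) (nat_lit 16986365491859555452960)) (.cons (.br (nat_lit 4) (nat_lit 0) (.cons (.rf (nat_lit 218) (nat_lit 12151364640)) (.cons (.rf (nat_lit 218) (nat_lit 11111177248)) (.cons (.br (nat_lit 10) (nat_lit 0) (.cons (.rf (nat_lit 218) (nat_lit 4675017760)) (.cons (.br (nat_lit 11) (nat_lit 0) (.cons (.br (nat_lit 5) (nat_lit 1) (.cons (.rf (nat_lit 399) (nat_lit 583706118939841765935136)) (.cons (.rf (nat_lit 406) (nat_lit 583706118939841765935136)) (.cons (.rf (nat_lit 406) (nat_lit 583670343436216981096480)) (.cons (.rf (nat_lit 406) (nat_lit 575289792101587836045344)) (.cons (.rf (nat_lit 406) (nat_lit 575254016597963051206688)) (.cons (.br (nat_lit 5) (nat_lit 1) (.cons (.rf (nat_lit 399) (nat_lit 583706118939841765935136)) (.cons (.rf (nat_lit 406) (nat_lit 583706118939841765935136)) (.cons (.rf (nat_lit 406) (nat_lit 583670343436216981096480)) (.cons (.rf (nat_lit 406) (nat_lit 575289792101587836045344)) (.cons (.rf (nat_lit 406) (nat_lit 575254016597963051206688))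 (.cons (.br (nat_lit 6) (nat_lit 1) (.cons (.rf (nat_lit 406) (nat_lit 583706118939840725716000)) (.cons (.rf (nat_lit 406) (nat_lit 583670343436215940877344)) (.cons (.rf (nat_lit 406) (nat_lit 575289792101586795826208)) (.cons (.rf (nat_lit 406) (nat_lit 575254016597962010987552)) (.cons (.rf (nat_lit 407) (nat_lit 677582165103132179601393696)) (.cons (.rf (nat_lit 407) (nat_lit 640105464695078675185502240)) .nil))))))) .nil))))))) .nil))))))) .nil)) .nil))) .nil)))) (.cons (.br (nat_lit 4) (nat_lit 0) (.cons (.rf (nat_lit 433) (nat_lit 583706118939841765935136)) (.cons (.rf (nat_lit 433) (nat_lit 583670343436216981096480)) (.cons (.br (nat_lit 10) (nat_lit 0) (.cons (.rf (nat_lit 363) (nat_lit 393503543328)) (.cons (.br (nat_lit 11) (nat_lit 0) (.cons (.br (nat_lit 8) (nat_lit 1) (.cons (.rf (nat_lit 437) (nat_lit 583706118939841765935136)) (.cons (.rf (nat_lit 437) (nat_lit 583706118939840725716000)) (.cons (.zr (nat_lit 932081806994936700621291523) (nat_lit 1344804886360529837415852435977536256) (nat_lit 8) (nat_lit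 15)) (.cons (.rf (nat_lit 441) (nat_lit 583706118939841765935136)) (.cons (.ev (nat_lit 5192296859743771894889203508445441) (nat_lit 1)) (.cons (.br (nat_lit 9) (nat_lit 1) (.cons (.rf (nat_lit 437) (nat_lit 583670343436216981096480)) (.cons (.rf (nat_lit 437) (nat_lit 583670343436215940877344)) (.cons (.ev (nat_lit 5192297168024559816358438994182401) (nat_lit 1)) (.cons (.rf (nat_lit 441) (nat_lit 583670343436216981096480)) (.cons (.br (nat_lit 16) (nat_lit 1) (.cons (.rf (nat_lit 443) (nat_lit 19926519232773908561233952)) (.cons (.rf (nat_lit 443) (nat_lit 19926519232773907521014816)) (.cons (.ev (nat_lit 681899154135450041619674863197912826115) (nat_lit 2)) (.cons (.ev (nat_lit 681899154134833498859510879910684000515) (nat_lit 2)) (.cons (.br (nat_lit 5) (nat_lit 1) (.cons (.rf (nat_lit 445) (nat_lit 677582165103132179601393696)) (.cons (.rf (nat_lit 446) (nat_lit 677582165103132179601393696)) (.cons (.rf (nat_lit 446) (nat_lit 677582129327628554816555040)) (.cons (.br (nat_lit 5) (nat_lit 1) (.cons (.rf (nat_lit 445)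 (nat_lit 677582165103132179601393696)) (.cons (.rf (nat_lit 446) (nat_lit 677582165103132179601393696)) (.cons (.rf (nat_lit 446) (nat_lit 677582129327628554816555040)) .nil)))) .nil))))) .nil)))))) (.cons (.br (nat_lit 5) (nat_lit 1) (.cons (.rf (nat_lit 449) (nat_lit 677582165103132179601393696)) (.cons (.rf (nat_lit 451) (nat_lit 677582165103132179601393696)) (.cons (.rf (nat_lit 451) (nat_lit 640105428919575050400663584)) (.cons (.rf (nat_lit 453) (nat_lit 677582165103132179601393696)) (.cons (.rf (nat_lit 453) (nat_lit 640105428919575050400663584)) .nil)))))) .nil))))))) .nil))))))) .nil)) .nil))) (.cons (.br (nat_lit 10) (nat_lit 0) (.cons (.br (nat_lit 14) (nat_lit 0) (.cons (.br (nat_lit 5) (nat_lit 1) (.cons (.rf (nat_lit 464) (nat_lit 583706118939841765935136)) (.cons (.rf (nat_lit 469) (nat_lit 583706118939841765935136)) (.cons (.rf (nat_lit 469) (nat_lit 583670343436216981096480)) (.cons (.rf (nat_lit 469) (nat_lit 8605814157230407256207)) (.cons (.rf (nat_lit 469) (nat_lit 8570038653605622417551)) (.cons (.br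 (nat_lit 5) (nat_lit 1) (.cons (.rf (nat_lit 464) (nat_lit 583706118939841765935136)) (.cons (.rf (nat_lit 469) (nat_lit 583706118939841765935136)) (.cons (.rf (nat_lit 469) (nat_lit 583670343436216981096480)) (.cons (.rf (nat_lit 469) (nat_lit 8605814157230407256207)) (.cons (.rf (nat_lit 469) (nat_lit 8570038653605622417551)) (.cons (.br (nat_lit 6) (nat_lit 1) (.cons (.rf (nat_lit 469) (nat_lit 583706118939840725716000)) (.cons (.rf (nat_lit 469) (nat_lit 583670343436215940877344)) (.cons (.rf (nat_lit 469) (nat_lit 8605814157229367037071)) (.cons (.rf (nat_lit 469) (nat_lit 8570038653604582198415)) (.cons (.rf (nat_lit 470) (nat_lit 677582165103132179601393696)) (.cons (.rf (nat_lit 470) (nat_lit 640105464695078675185502240)) .nil))))))) .nil))))))) .nil))))))) .nil)) (.cons (.rf (nat_lit 496) (nat_lit 583706118939841765935136)) (.cons (.br (nat_lit 11) (nat_lit 0) (.cons (.rf (nat_lit 496) (nat_lit 583670343436216981096480)) .nil)) .nil)))) .nil))))) .nil)))))) .nil)) .nil)) .nil))) .nil)) .nil))) .nil)) .nil)) .nil)),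
 (.br (nat_lit 2) (nat_lit 1) (.cons (.kr (nat_lit 65536) (nat_lit 16777216) (nat_lit 2) (nat_lit 0)) (.cons (.rf (nat_lit 93) (nat_lit 172066848)) (.cons (.br (nat_lit 3) (nat_lit 1) (.cons (.rf (nat_lit 217) (nat_lit 172066848)) (.cons (.rf (nat_lit 93) (nat_lit 205589536)) (.cons (.br (nat_lit 0) (nat_lit 0) (.cons (.rf (nat_lit 335) (nat_lit 6614517792)) (.cons (.rf (nat_lit 497) (nat_lit 247132686368)) (.cons (.br (nat_lit 0) (nat_lit 0) (.cons (.rf (nat_lit 335) (nat_lit 6614517792)) (.cons (.rf (nat_lit 497) (nat_lit 281492424736)) .nil))) .nil)))) .nil)))) .nil)))),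
 (.br (nat_lit 15) (nat_lit 1) (.cons (.kr (nat_lit 309485028268370617411043584) (nat_lit 79228162514336396287093571584) (nat_lit 1) (nat_lit 0)) (.cons (.kr (nat_lit 281474976710912) (nat_lit 4311744512) (nat_lit 1) (nat_lit 0)) (.cons (.br (nat_lit 16) (nat_lit 1) (.cons (.ev (nat_lit 20282722724883755639539658522881) (nat_lit 2)) (.cons (.ev (nat_lit 20441798019968964606009291047169) (nat_lit 2)) (.cons (.zr (nat_lit 348449143747324944824159088263301924126721) (nat_lit 680575118752506656083869212513652441344) (nat_lit 8) (nat_lit 13)) .nil)))) .nil)))),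
 (.br (nat_lit 15) (nat_lit 1) (.cons (.kr (nat_lit 309485028268370617411043584) (nat_lit 79228162514336396287093571584) (nat_lit 1) (nat_lit 0)) (.cons (.kr (nat_lit 281474976710912) (nat_lit 4311744512) (nat_lit 1) (nat_lit 0)) (.cons (.rf (nat_lit 499) (nat_lit 677582165103132179601393696)) (.cons (.br (nat_lit 15) (nat_lit 1) (.cons (.kr (nat_lit 309485028268370617411043584) (nat_lit 79228162514336396287093571584) (nat_lit 1) (nat_lit 0)) (.cons (.kr (nat_lit 281474976710912) (nat_lit 4311744512) (nat_lit 1) (nat_lit 0)) (.cons (.rf (nat_lit 499) (nat_lit 677582165103132179601393696)) .nil)))) .nil))))),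
 (.br (nat_lit 9) (nat_lit 1) (.cons (.ev (nat_lit 5212658496300993635350734968979713) (nat_lit 1)) (.cons (.ev (nat_lit 20441798019968965168950620979969) (nat_lit 2)) (.cons (.br (nat_lit 14) (nat_lit 1) (.cons (.rf (nat_lit 68) (nat_lit 18122923183362)) (.cons (.rf (nat_lit 68) (nat_lit 17057673776386)) (.cons (.rf (nat_lit 500) (nat_lit 677582165103132179601393696)) .nil)))) .nil)))),
 (.br (nat_lit 16) (nat_lit 1) (.cons (.ev (nat_lit 341611615278670635234473343040228491520) (nat_lit 1)) .nil)),
 (.br (nat_lit 15) (nat_lit 1) (.cons (.rf (nat_lit 68) (nat_lit 18089643347138)) (.cons (.rf (nat_lit 68) (nat_lit 15959437085890)) (.cons (.br (nat_lit 14) (nat_lit 1) (.cons (.rf (nat_lit 502) (nat_lit 677582165103132179601393696)) (.cons (.br (nat_lit 14) (nat_lit 1) (.cons (.rf (nat_lit 502) (nat_lit 677582165103132179601393696)) .nil)) .nil))) .nil))))]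

theorem c22 : chkAll C T R L22 (nat_lit 495) = true := by decide +kernel

theorem l22 : (nat_lit 495) + L22.length = (nat_lit 504) := by decide +kernel

/-- part of the certificates -/
def L23 : List Prf := [(.br (nat_lit 15) (nat_lit 1) (.cons (.ev (nat_lit 5348086522382563093109609445764367107) (nat_lit 3)) (.cons (.ev (nat_lit 5348086523625357651352403421104964355) (nat_lit 3)) .nil))),
 (.br (nat_lit 14) (nat_lit 1) (.cons (.rf (nat_lit 504) (nat_lit 677582165103132179601393696)) (.cons (.rf (nat_lit 504) (nat_lit 640105464660141693212919840)) .nil))),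
 (.br (nat_lit 14) (nat_lit 1) (.cons (.rf (nat_lit 505) (nat_lit 677582165103132179601393696)) (.cons (.br (nat_lit 16) (nat_lit 1) (.cons (.br (nat_lit 15) (nat_lit 1) (.cons (.ev (nat_lit 1329227996095614549358275176528150528) (nat_lit 1)) .nil)) (.cons (.ev (nat_lit 87452573491057271812169980204997658279936) (nat_lit 1)) .nil))) .nil))),
 (.br (nat_lit 12) (nat_lit 1) (.cons (.zr (nat_lit 60847228810955084455335732183296) (nat_lit 158767018964169635988794114049) (nat_lit 8) (nat_lit 5)) (.cons (.ev (nat_lit 1208944266359806707630081) (nat_lit 1)) (.cons (.ev (nat_lit 309489732187829042193367041) (nat_lit 1)) (.cons (.br (nat_lit 6) (nat_lit 1) (.cons (.rf (nat_lit 47) (nat_lit 482610370)) (.cons (.rf (nat_lit 47) (nat_lit 482643138)) (.cons (.ev (nat_lit 20441176622616056795668112474881) (nat_lit 2)) (.cons (.br (nat_lit 8) (nat_lit 1) (.cons (.rf (nat_lit 47) (nat_lit 509906178)) (.cons (.rf (nat_lit 501) (nat_lit 583706118939841765935136)) (.cons (.br (nat_lit 9) (nat_lit 1) (.cons (.ev (nat_lit 20441798019968965168950620979969)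 (nat_lit 2)) (.cons (.zr (nat_lit 20282409603651887722629339021312) (nat_lit 2658455991569836486620842167722180865) (nat_lit 8) (nat_lit 5)) (.cons (.rf (nat_lit 503) (nat_lit 19926519232773908561233952)) .nil)))) (.cons (.br (nat_lit 9) (nat_lit 1) (.cons (.rf (nat_lit 501) (nat_lit 583706084002859793352736)) (.cons (.rf (nat_lit 503) (nat_lit 19926519197836926588651552)) (.cons (.kr (nat_lit 309485028268089142434332672) (nat_lit 1213648186097498819919872) (nat_lit 8) (nat_lit 0)) (.cons (.br (nat_lit 14) (nat_lit 1) (.cons (.rf (nat_lit 505) (nat_lit 677582165103132179601393696)) (.cons (.rf (nat_lit 506) (nat_lit 677582165103132179601393696)) (.cons (.rf (nat_lit 506) (nat_lit 640105464660141693212919840)) .nil)))) .nil))))) .nil))))) .nil))))) .nil))))),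
 (.br (nat_lit 15) (nat_lit 1) (.cons (.br (nat_lit 16) (nat_lit 1) (.cons (.ev (nat_lit 88137125909204035106829322888175065040384) (nat_lit 3)) .nil)) .nil)),
 (.br (nat_lit 16) (nat_lit 1) (.cons (.ev (nat_lit 341611594995952755498729132163195797505) (nat_lit 1)) .nil)),
 (.br (nat_lit 15) (nat_lit 1) (.cons (.rf (nat_lit 68) (nat_lit 18089542721634)) (.cons (.rf (nat_lit 68) (nat_lit 15959433977954)) (.cons (.br (nat_lit 14) (nat_lit 1) (.cons (.rf (nat_lit 509) (nat_lit 677582165103132179601393696)) (.cons (.br (nat_lit 14) (nat_lit 1) (.cons (.rf (nat_lit 509) (nat_lit 677582165103132179601393696)) .nil)) .nil))) .nil)))),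
 (.br (nat_lit 15) (nat_lit 1) (.cons (.kr (nat_lit 340282387203657552143313120530043764992) (nat_lit 1334420292645868552243625508508598272) (nat_lit 1) (nat_lit 0)) .nil)),
 (.br (nat_lit 17) (nat_lit 1) (.cons (.ev (nat_lit 174224571883962291313216619495886539587843) (nat_lit 2)) (.cons (.ev (nat_lit 174224571883962291313216620058827869520643) (nat_lit 2)) .nil))),
 (.br (nat_lit 14) (nat_lit 1) (.cons (.br (nat_lit 15) (nat_lit 1) (.cons (.ev (nat_lit 341616787293742158485166502943674859523) (nat_lit 2)) (.cons (.rf (nat_lit 511) (nat_lit 21174442659472880612543553)) .nil))) (.cons (.rf (nat_lit 512) (nat_lit 677582165103132179601393696)) .nil))),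
 (.br (nat_lit 12) (nat_lit 1) (.cons (.ev (nat_lit 1208944266359806707630081) (nat_lit 1)) (.cons (.ev (nat_lit 1208944266641277372596481) (nat_lit 1)) (.cons (.zr (nat_lit 60847232447177419254263567090432) (nat_lit 159384780131779689986635464705) (nat_lit 8) (nat_lit 0)) (.cons (.br (nat_lit 3) (nat_lit 1) (.cons (.rf (nat_lit 47) (nat_lit 482549858)) (.cons (.rf (nat_lit 47) (nat_lit 482648162)) (.cons (.ev (nat_lit 20441176622616056232726782542081) (nat_lit 2)) (.cons (.br (nat_lit 6) (nat_lit 1) (.cons (.rf (nat_lit 47) (nat_lit 506765506)) (.cons (.ev (nat_lit 20441176622616056795668112474881) (nat_lit 2)) (.cons (.kr (nat_lit 281474976710912) (nat_lit 4311744512) (nat_lit 1) (nat_lit 0)) (.cons (.br (nat_lit 9) (nat_lit 1) (.cons (.br (nat_lit 14) (nat_lit 1) (.cons (.ev (nat_lit 5212579269352127485051942417268993) (nat_lit 1)) (.cons (.ev (nat_lit 5212579269352127485333421672169473) (nat_lit 1)) (.cons (.br (nat_lit 15) (nat_lit 1) (.cons (.rf (nat_lit 508) (nat_lit 677582165103132179601393696)) (.cons (.br (nat_lit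 15) (nat_lit 1) (.cons (.rf (nat_lit 508) (nat_lit 677582165103132179601393696)) .nil)) .nil))) .nil)))) (.cons (.rf (nat_lit 510) (nat_lit 19926519232773908561233952)) (.cons (.rf (nat_lit 510) (nat_lit 18755372345022233323964544)) (.cons (.br (nat_lit 14) (nat_lit 1) (.cons (.rf (nat_lit 513) (nat_lit 677582165103132179601393696)) (.cons (.rf (nat_lit 513) (nat_lit 676411018215380504364124288)) (.cons (.rf (nat_lit 512) (nat_lit 677582165103132179601393696)) .nil)))) .nil))))) .nil))))) .nil))))) .nil))))),
 (.br (nat_lit 13) (nat_lit 1) (.cons (.ev (nat_lit 20361947251194275189752244273153) (nat_lit 1)) .nil)),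
 (.br (nat_lit 8) (nat_lit 1) (.cons (.ev (nat_lit 310698676526525710285668353) (nat_lit 1)) (.cons (.ev (nat_lit 31174223568189509646645873845731587) (nat_lit 3)) (.cons (.br (nat_lit 9) (nat_lit 1) (.cons (.ev (nat_lit 31174222951646749482662586616905987) (nat_lit 3)) (.cons (.kr (nat_lit 309485028268089142434332672) (nat_lit 1213648186097498819919872) (nat_lit 8) (nat_lit 0)) (.cons (.br (nat_lit 15) (nat_lit 1) (.cons (.rf (nat_lit 515) (nat_lit 661701295917511240419360)) (.cons (.rf (nat_lit 515) (nat_lit 625102954583490803370016)) .nil))) .nil)))) .nil)))),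
 (.br (nat_lit 14) (nat_lit 1) (.cons (.ev (nat_lit 5212579269352127485334516888764673) (nat_lit 1)) .nil)),
 (.br (nat_lit 6) (nat_lit 1) (.cons (.ev (nat_lit 310698676526525710285668353) (nat_lit 1)) (.cons (.br (nat_lit 9) (nat_lit 1) (.cons (.ev (nat_lit 10384673567833689061757848370872578) (nat_lit 2)) (.cons (.rf (nat_lit 68) (nat_lit 18122923188291)) .nil))) (.cons (.br (nat_lit 9) (nat_lit 1) (.cons (.rf (nat_lit 68) (nat_lit 18122825670723)) (.cons (.ev (nat_lit 20520403590371384514083838558721) (nat_lit 2)) (.cons (.br (nat_lit 15) (nat_lit 1) (.cons (.rf (nat_lit 517) (nat_lit 21174442659436561260709920)) (.cons (.rf (nat_lit 517) (nat_lit 20003280415424943723131213)) .nil))) .nil)))) .nil)))),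
 (.br (nat_lit 6) (nat_lit 1) (.cons (.rf (nat_lit 518) (nat_lit 583706118939838541662336)) (.cons (.rf (nat_lit 518) (nat_lit 583706084002856569079936)) (.cons (.ev (nat_lit 5348086364545207973397353716909212931) (nat_lit 3)) (.cons (.br (nat_lit 8) (nat_lit 1) (.cons (.ev (nat_lit 10404877058774077463560906894344451) (nat_lit 3)) (.cons (.ev (nat_lit 10384673876105069143468021320318978) (nat_lit 2)) (.cons (.ev (nat_lit 10384673876105069144312450562196226) (nat_lit 2)) (.cons (.br (nat_lit 9) (nat_lit 1) (.cons (.ev (nat_lit 10384673567833689061476377705906178) (nat_lit 2)) (.cons (.ev (nat_lit 10384673567833689062320806947783426) (nat_lit 2)) (.cons (.kr (nat_lit 309485028268089142434332672) (nat_lit 1213648186097498819919872) (nat_lit 8) (nat_lit 0)) .nil)))) .nil))))) .nil))))),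
 (.br (nat_lit 9) (nat_lit 1) (.cons (.ev (nat_lit 5212579268143220184240080484892673) (nat_lit 1)) (.cons (.br (nat_lit 16) (nat_lit 1) (.cons (.ev (nat_lit 2041704606561145870404469311601215932161) (nat_lit 3)) .nil)) .nil))),
 (.br (nat_lit 15) (nat_lit 1) (.cons (.ev (nat_lit 20441176622616056795668112474881) (nat_lit 2)) (.cons (.kr (nat_lit 79228162514336396287093571584) (nat_lit 309485028268089146746077184) (nat_lit 2) (nat_lit 0)) (.cons (.kr (nat_lit 79228162514336396287093571584) (nat_lit 1213648186097503131664384) (nat_lit 2) (nat_lit 0)) (.cons (.br (nat_lit 6) (nat_lit 1) (.cons (.rf (nat_lit 520) (nat_lit 677582165103132179601393696)) (.cons (.rf (nat_lit 520) (nat_lit 677582165068195197628811296)) (.cons (.ev (nat_lit 680575139193683269255409219639915709185) (nat_lit 3)) (.cons (.br (nat_lit 17) (nat_lit 1) (.cons (.ev (nat_lit 20283339267643920185785464259329) (nat_lit 2)) (.cons (.ev (nat_lit 20282722724883756202498235433729) (nat_lit 2)) (.cons (.zr (nat_lit 1361129487966474151440809818869781889281) (nat_lit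 174224582248272666687931657361793424031744) (nat_lit 8) (nat_lit 13)) .nil)))) .nil))))) .nil))))),
 (.br (nat_lit 14) (nat_lit 1) (.cons (.ev (nat_lit 5212579578832415011972835029614593) (nat_lit 1)) (.cons (.ev (nat_lit 20283339267643919622826887348481) (nat_lit 2)) (.cons (.ev (nat_lit 20282722724883755639539658522881) (nat_lit 2)) (.cons (.br (nat_lit 6) (nat_lit 1) (.cons (.ev (nat_lit 5212658497509937829650744320458753) (nat_lit 1)) (.cons (.ev (nat_lit 5212658805790725751119979806195713) (nat_lit 1)) (.cons (.ev (nat_lit 20441176622616056795668112474881) (nat_lit 2)) (.cons (.br (nat_lit 8) (nat_lit 1) (.cons (.rf (nat_lit 68) (nat_lit 18122828522568)) (.cons (.kr (nat_lit 79228162514336396287093571584) (nat_lit 309485028268089146746077184) (nat_lit 2) (nat_lit 0)) (.cons (.ev (nat_lit 20283339267643920185785464259329) (nat_lit 2)) (.cons (.rf (nat_lit 500) (nat_lit 600285979104515068759683437)) .nil))))) .nil))))) (.cons (.br (nat_lit 15) (nat_lit 1) (.cons (.ev (nat_lit 20441176622616056795668112474881) (nat_lit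 2)) (.cons (.kr (nat_lit 79228162514336396287093571584) (nat_lit 309485028268089146746077184) (nat_lit 2) (nat_lit 0)) (.cons (.kr (nat_lit 79228162514336396287093571584) (nat_lit 1213648186097503131664384) (nat_lit 2) (nat_lit 0)) (.cons (.rf (nat_lit 521) (nat_lit 19926519232773908561233952)) (.cons (.br (nat_lit 15) (nat_lit 1) (.cons (.ev (nat_lit 20441176622616056795668112474881) (nat_lit 2)) (.cons (.kr (nat_lit 79228162514336396287093571584) (nat_lit 309485028268089146746077184) (nat_lit 2) (nat_lit 0)) (.cons (.kr (nat_lit 79228162514336396287093571584) (nat_lit 1213648186097503131664384) (nat_lit 2) (nat_lit 0)) (.cons (.rf (nat_lit 521) (nat_lit 19926519232773908561233952)) .nil))))) .nil)))))) .nil)))))),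
 (.br (nat_lit 8) (nat_lit 1) (.cons (.ev (nat_lit 310698676526525710285668353) (nat_lit 1)) (.cons (.ev (nat_lit 20283339267643919622826887348481) (nat_lit 2)) (.cons (.ev (nat_lit 2658476432748872250397129393498620163) (nat_lit 2)) (.cons (.br (nat_lit 9) (nat_lit 1) (.cons (.ev (nat_lit 20282722724883755639539658522881) (nat_lit 2)) (.cons (.ev (nat_lit 2658476433365433826240067864470094083) (nat_lit 2)) (.cons (.kr (nat_lit 309485028268089142434332672) (nat_lit 1213648186097498819919872) (nat_lit 8) (nat_lit 0)) .nil)))) .nil))))),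
 (.br (nat_lit 6) (nat_lit 1) (.cons (.ev (nat_lit 310698676526525710285668353) (nat_lit 1)) (.cons (.ev (nat_lit 680575139035845914283272605359086502657) (nat_lit 3)) (.cons (.br (nat_lit 9) (nat_lit 1) (.cons (.ev (nat_lit 683223210434939053117174972445293281537) (nat_lit 3)) (.cons (.ev (nat_lit 1334420292952940432720448069467898113) (nat_lit 1)) .nil))) .nil)))),
 (.br (nat_lit 6) (nat_lit 1) (.cons (.ev (nat_lit 680575139035845914283271479442066900737) (nat_lit 3)) (.cons (.ev (nat_lit 680575139035229371523107496154838075137) (nat_lit 3)) (.cons (.br (nat_lit 8) (nat_lit 1) (.cons (.ev (nat_lit 10405035515089624077551813873762563) (nat_lit 2)) (.cons (.ev (nat_lit 1334420292644659644798978833982161153) (nat_lit 1)) .nil))) .nil)))),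
 (.br (nat_lit 6) (nat_lit 1) (.cons (.ev (nat_lit 310698676526525710285668353) (nat_lit 1)) (.cons (.br (nat_lit 9) (nat_lit 1) (.cons (.ev (nat_lit 680585523629562983938384988187979284739) (nat_lit 3)) (.cons (.ev (nat_lit 1334420292952940432720448069467898113) (nat_lit 1)) .nil))) (.cons (.br (nat_lit 9) (nat_lit 1) (.cons (.ev (nat_lit 1334420292952940432720448069467898113) (nat_lit 1)) (.cons (.ev (nat_lit 522679032523303330232224142992397381665539) (nat_lit 3)) .nil))) .nil)))),
 (.br (nat_lit 6) (nat_lit 1) (.cons (.rf (nat_lit 526) (nat_lit 677582165103132176377120896)) (.cons (.rf (nat_lit 526) (nat_lit 677582165068195194404538496)) (.cons (.kr (nat_lit 281474976710912) (nat_lit 4311744512) (nat_lit 1) (nat_lit 0)) (.cons (.br (nat_lit 8) (nat_lit 1) (.cons (.ev (nat_lit 10405035515089624077551813873762563) (nat_lit 2)) (.cons (.ev (nat_lit 1334420292644659644798978833982161153) (nat_lit 1)) (.cons (.ev (nat_lit 1334420292644659644798697363317194753) (nat_lit 1)) .nil)))) .nil))))),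
 (.br (nat_lit 14) (nat_lit 1) (.cons (.rf (nat_lit 522) (nat_lit 583706118939841765935136)) (.cons (.rf (nat_lit 522) (nat_lit 583706118939838541662336)) (.cons (.ev (nat_lit 20283339267643919622826887348481) (nat_lit 2)) (.cons (.ev (nat_lit 20282722724883755639539658522881) (nat_lit 2)) (.cons (.br (nat_lit 15) (nat_lit 1) (.cons (.ev (nat_lit 20441176622616056232726782542081) (nat_lit 2)) (.cons (.ev (nat_lit 20441176622616056795668112474881) (nat_lit 2)) (.cons (.rf (nat_lit 522) (nat_lit 546616371690845106352461)) (.cons (.rf (nat_lit 522) (nat_lit 546616371690844031594861)) (.cons (.br (nat_lit 3) (nat_lit 1) (.cons (.rf (nat_lit 523) (nat_lit 19926519232773908561233952)) (.cons (.rf (nat_lit 524) (nat_lit 19926519232773908561233952)) (.cons (.rf (nat_lit 524) (nat_lit 19926519197836926588651552)) (.cons (.rf (nat_lit 525) (nat_lit 19926519232773908561233952)) (.cons (.br (nat_lit 6) (nat_lit 1) (.cons (.rf (nat_lit 524) (nat_lit 19926519232773905336961152)) (.cons (.rf (nat_lit 524) (nat_lit 19926519197836923364378752))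 (.cons (.rf (nat_lit 525) (nat_lit 19926519232773905336961152)) (.cons (.kr (nat_lit 281474976710912) (nat_lit 4311744512) (nat_lit 1) (nat_lit 0)) .nil))))) .nil)))))) (.cons (.br (nat_lit 3) (nat_lit 1) (.cons (.rf (nat_lit 523) (nat_lit 21135445052388537735940128)) (.cons (.rf (nat_lit 526) (nat_lit 677582165103132179601393696)) (.cons (.rf (nat_lit 526) (nat_lit 677582165068195197628811296)) (.cons (.rf (nat_lit 527) (nat_lit 677582165103132179601393696)) (.cons (.br (nat_lit 6) (nat_lit 1) (.cons (.rf (nat_lit 526) (nat_lit 677582165103132176377120896)) (.cons (.rf (nat_lit 526) (nat_lit 677582165068195194404538496)) (.cons (.rf (nat_lit 527) (nat_lit 677582165103132176377120896)) (.cons (.kr (nat_lit 281474976710912) (nat_lit 4311744512) (nat_lit 1) (nat_lit 0)) .nil))))) .nil)))))) .nil))))))) .nil))))))]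

theorem c23 : chkAll C T R L23 (nat_lit 504) = true := by decide +kernel

theorem l23 : (nat_lit 504) + L23.length = (nat_lit 529) := by decide +kernel

/-- part of the certificates -/
def L24 : List Prf := [(.br (nat_lit 15) (nat_lit 1) (.cons (.ev (nat_lit 20441176622616056232726782542081) (nat_lit 2)) (.cons (.ev (nat_lit 20441176622616056795668112474881) (nat_lit 2)) (.cons (.rf (nat_lit 522) (nat_lit 546616371690845106352461)) (.cons (.rf (nat_lit 522) (nat_lit 546616371690844031594861)) (.cons (.ev (nat_lit 1334420372182307150509692442090995713) (nat_lit 1)) .nil)))))),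
 (.br (nat_lit 15) (nat_lit 1) (.cons (.ev (nat_lit 1334420371872826862983055227756806145) (nat_lit 1)) .nil)),
 (.br (nat_lit 15) (nat_lit 1) (.cons (.ev (nat_lit 1334420292954149377058863266878521600) (nat_lit 1)) .nil)),
 (.br (nat_lit 10) (nat_lit 1) (.cons (.ev (nat_lit 79544929431865185640655487747) (nat_lit 3)) (.cons (.ev (nat_lit 79544929431865748581985420547) (nat_lit 3)) (.cons (.br (nat_lit 14) (nat_lit 1) (.cons (.rf (nat_lit 68) (nat_lit 18122956649570)) (.cons (.rf (nat_lit 68) (nat_lit 17057674736738)) (.cons (.br (nat_lit 15) (nat_lit 1) (.cons (.rf (nat_lit 530) (nat_lit 677582165103132179601393696)) (.cons (.rf (nat_lit 531) (nat_lit 677582165103132179601393696)) .nil))) .nil)))) .nil)))),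
 (.br (nat_lit 12) (nat_lit 1) (.cons (.br (nat_lit 13) (nat_lit 1) (.cons (.ev (nat_lit 1344845609636052706322686210197159937) (nat_lit 2)) .nil)) .nil)),
 (.br (nat_lit 15) (nat_lit 1) (.cons (.ev (nat_lit 1363798348914635550250474289508613359361) (nat_lit 3)) (.cons (.ev (nat_lit 1334481378488845209253000983330619650) (nat_lit 2)) .nil))),
 (.br (nat_lit 14) (nat_lit 1) (.cons (.rf (nat_lit 534) (nat_lit 677582165103132179601393696)) (.cons (.rf (nat_lit 534) (nat_lit 640105463577095252062865440)) .nil))),
 (.br (nat_lit 14) (nat_lit 1) (.cons (.rf (nat_lit 511) (nat_lit 19887626467309871459043360)) (.cons (.rf (nat_lit 511) (nat_lit 18678737577246270509123616)) .nil))),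
 (.br (nat_lit 14) (nat_lit 1) (.cons (.rf (nat_lit 535) (nat_lit 677582165103132179601393696)) (.cons (.rf (nat_lit 536) (nat_lit 21174442659472880612543553)) .nil))),
 (.br (nat_lit 10) (nat_lit 1) (.cons (.ev (nat_lit 10384673257144531127229580163809539) (nat_lit 2)) (.cons (.br (nat_lit 14) (nat_lit 1) (.cons (.ev (nat_lit 5192297788203560835633353559507200) (nat_lit 2)) (.cons (.rf (nat_lit 40) (nat_lit 17945965311043)) .nil))) (.cons (.br (nat_lit 14) (nat_lit 1) (.cons (.rf (nat_lit 68) (nat_lit 18122956649539)) (.cons (.ev (nat_lit 5192535165633371516015170736357377) (nat_lit 2)) (.cons (.br (nat_lit 15) (nat_lit 1) (.cons (.br (nat_lit 15) (nat_lit 1) (.cons (.ev (nat_lit 2668881230265153563169571723286676227) (nat_lit 2)) .nil)) (.cons (.br (nat_lit 15) (nat_lit 1) (.cons (.ev (nat_lit 2668881230265153563169571723286676227) (nat_lit 2)) .nil)) .nil))) .nil)))) .nil)))),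
 (.br (nat_lit 16) (nat_lit 1) (.cons (.ev (nat_lit 341611615278671844178739420272447782912) (nat_lit 1)) .nil)),
 (.br (nat_lit 10) (nat_lit 1) (.cons (.rf (nat_lit 538) (nat_lit 583705000956418643298336)) (.cons (.ev (nat_lit 2658496635926686591897627785938600705) (nat_lit 2)) (.cons (.br (nat_lit 15) (nat_lit 1) (.cons (.ev (nat_lit 1329248279122974554039111751032832515) (nat_lit 2)) (.cons (.rf (nat_lit 68) (nat_lit 15959102633155)) (.cons (.br (nat_lit 14) (nat_lit 1) (.cons (.rf (nat_lit 539) (nat_lit 677582165103132179601393696)) (.cons (.br (nat_lit 14) (nat_lit 1) (.cons (.rf (nat_lit 539) (nat_lit 677582165103132179601393696)) .nil)) .nil))) .nil)))) .nil)))),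
 (.br (nat_lit 14) (nat_lit 1) (.cons (.br (nat_lit 15) (nat_lit 1) (.cons (.ev (nat_lit 88817721857277538334659507312105387000324) (nat_lit 3)) .nil)) .nil)),
 (.br (nat_lit 13) (nat_lit 1) (.cons (.ev (nat_lit 20361948460120022465316699308288) (nat_lit 1)) .nil)),
 (.br (nat_lit 15) (nat_lit 1) (.cons (.ev (nat_lit 1363798348914635550250474289508613359361) (nat_lit 3)) (.cons (.rf (nat_lit 542) (nat_lit 20678166659641414617120)) .nil))),
 (.br (nat_lit 14) (nat_lit 1) (.cons (.rf (nat_lit 543) (nat_lit 677582165103132179601393696)) (.cons (.rf (nat_lit 543) (nat_lit 640105463577095252062865440)) .nil))),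
 (.br (nat_lit 14) (nat_lit 1) (.cons (.rf (nat_lit 544) (nat_lit 677582165103132179601393696)) (.cons (.ev (nat_lit 10384673257144494377858811253883649) (nat_lit 2)) .nil))),
 (.br (nat_lit 6) (nat_lit 1) (.cons (.rf (nat_lit 47) (nat_lit 472167619)) (.cons (.rf (nat_lit 47) (nat_lit 472200387)) (.cons (.br (nat_lit 9) (nat_lit 1) (.cons (.zr (nat_lit 79537647579497975775970328577) (nat_lit 2427296372757951921783040) (nat_lit 8) (nat_lit 7)) (.cons (.ev (nat_lit 5212579577623489120299516600320256) (nat_lit 1)) (.cons (.br (nat_lit 10) (nat_lit 1) (.cons (.ev (nat_lit 5212658496300993563292041419489536) (nat_lit 1)) (.cons (.br (nat_lit 14) (nat_lit 1) (.cons (.ev (nat_lit 20850396612628830392387430063932679) (nat_lit 3)) (.cons (.rf (nat_lit 40) (nat_lit 17942744183875)) .nil))) (.cons (.br (nat_lit 14) (nat_lit 1) (.cons (.rf (nat_lit 68) (nat_lit 18122959696963)) (.cons (.rf (nat_lit 68) (nat_lit 17057775301699)) (.cons (.br (nat_lit 15) (nat_lit 1) (.cons (.br (nat_lit 15) (nat_lit 1) (.cons (.ev (nat_lit 2668881230265153563169571723286676227)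 (nat_lit 2)) .nil)) (.cons (.br (nat_lit 15) (nat_lit 1) (.cons (.ev (nat_lit 2668881230265153563169571723286676227) (nat_lit 2)) .nil)) .nil))) .nil)))) .nil)))) .nil)))) (.cons (.br (nat_lit 9) (nat_lit 1) (.cons (.rf (nat_lit 47) (nat_lit 472200483)) (.cons (.rf (nat_lit 538) (nat_lit 583706118939841765935136)) (.cons (.rf (nat_lit 540) (nat_lit 583706118939841765935136)) (.cons (.br (nat_lit 10) (nat_lit 1) (.cons (.rf (nat_lit 538) (nat_lit 583705000956418643298336)) (.cons (.rf (nat_lit 540) (nat_lit 583705000956418643298336)) (.cons (.br (nat_lit 16) (nat_lit 1) (.cons (.rf (nat_lit 68) (nat_lit 16991094388003)) (.cons (.rf (nat_lit 68) (nat_lit 15925812475171)) (.cons (.br (nat_lit 14) (nat_lit 1) (.cons (.rf (nat_lit 541) (nat_lit 677582165103132179601393696)) (.cons (.br (nat_lit 14) (nat_lit 1) (.cons (.rf (nat_lit 541) (nat_lit 677582165103132179601393696)) .nil)) .nil))) .nil)))) (.cons (.br (nat_lit 14) (nat_lit 1) (.cons (.rf (nat_lit 544) (nat_lit 677582165103132179601393696)) (.cons (.rf (nat_lit 545)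 (nat_lit 677582165103132179601393696)) (.cons (.rf (nat_lit 545) (nat_lit 640105463577095252062865440)) .nil)))) .nil))))) .nil))))) .nil))))),
 (.br (nat_lit 14) (nat_lit 1) (.cons (.ev (nat_lit 5192296858534846147614742876848385) (nat_lit 1)) (.cons (.ev (nat_lit 5212658496301012082376283672084737) (nat_lit 1)) (.cons (.br (nat_lit 10) (nat_lit 1) (.cons (.rf (nat_lit 40) (nat_lit 18049044650051)) (.cons (.rf (nat_lit 68) (nat_lit 17057909610563)) (.cons (.br (nat_lit 15) (nat_lit 1) (.cons (.br (nat_lit 15) (nat_lit 1) (.cons (.ev (nat_lit 2668881230265153563169571723286676227) (nat_lit 2)) .nil)) (.cons (.br (nat_lit 15) (nat_lit 1) (.cons (.ev (nat_lit 2668881230265153563169571723286676227) (nat_lit 2)) .nil)) .nil))) .nil)))) .nil)))),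
 (.br (nat_lit 10) (nat_lit 1) (.cons (.rf (nat_lit 547) (nat_lit 583705000956418643298336)) (.cons (.ev (nat_lit 1329248278195733172760328506351550464) (nat_lit 1)) (.cons (.br (nat_lit 15) (nat_lit 1) (.cons (.rf (nat_lit 68) (nat_lit 18089666582819)) (.cons (.ev (nat_lit 1329228075014292035354242152644214784) (nat_lit 1)) (.cons (.br (nat_lit 14) (nat_lit 1) (.cons (.br (nat_lit 14) (nat_lit 1) (.cons (.kr (nat_lit 1329228075014292035354244351667535872) (nat_lit 5232861677742167863148013244383232) (nat_lit 2) (nat_lit 0)) .nil)) (.cons (.br (nat_lit 14) (nat_lit 1) (.cons (.kr (nat_lit 1329228075014292035354244351667535872) (nat_lit 5232861677742167863148013244383232) (nat_lit 2) (nat_lit 0)) .nil)) .nil))) .nil)))) .nil)))),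
 (.br (nat_lit 13) (nat_lit 1) (.cons (.br (nat_lit 14) (nat_lit 1) (.cons (.ev (nat_lit 341627232734377359382305334137398165760) (nat_lit 2)) .nil)) .nil)),
 (.br (nat_lit 15) (nat_lit 1) (.cons (.zr (nat_lit 10384594026554683525155632650911747) (nat_lit 680564733921105089441086173005400244480) (nat_lit 8) (nat_lit 7)) (.cons (.ev (nat_lit 2668840664826976240186033691334542083) (nat_lit 2)) .nil))),
 (.br (nat_lit 14) (nat_lit 1) (.cons (.rf (nat_lit 550) (nat_lit 677582165103132179601393696)) (.cons (.rf (nat_lit 550) (nat_lit 640105463577095252062865440)) .nil))),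
 (.br (nat_lit 14) (nat_lit 1) (.cons (.rf (nat_lit 551) (nat_lit 677582165103132179601393696)) (.cons (.br (nat_lit 16) (nat_lit 1) (.cons (.br (nat_lit 15) (nat_lit 1) (.cons (.ev (nat_lit 1329248357733380696846011168620281856) (nat_lit 1)) .nil)) (.cons (.zr (nat_lit 10384594026554683525155632650911747) (nat_lit 680564733921105089441086173005400244480) (nat_lit 8) (nat_lit 7)) .nil))) .nil))),
 (.br (nat_lit 14) (nat_lit 1) (.cons (.br (nat_lit 15) (nat_lit 1) (.cons (.ev (nat_lit 340282387282885714639130996615776567553) (nat_lit 1)) .nil)) .nil)),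
 (.br (nat_lit 16) (nat_lit 1) (.cons (.ev (nat_lit 341611594917034077994286139638376628225) (nat_lit 1)) .nil)),
 (.br (nat_lit 15) (nat_lit 1) (.cons (.rf (nat_lit 68) (nat_lit 18089532368195)) (.cons (.rf (nat_lit 68) (nat_lit 15959098565955)) (.cons (.br (nat_lit 14) (nat_lit 1) (.cons (.rf (nat_lit 554) (nat_lit 677582165103132179601393696)) (.cons (.br (nat_lit 14) (nat_lit 1) (.cons (.rf (nat_lit 554) (nat_lit 677582165103132179601393696)) .nil)) .nil))) .nil)))),
 (.br (nat_lit 15) (nat_lit 1) (.cons (.ev (nat_lit 341611615199134196636134937037648232705) (nat_lit 1)) .nil)),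
 (.br (nat_lit 17) (nat_lit 1) (.cons (.ev (nat_lit 87112291124057105181470046834696755609856) (nat_lit 1)) (.cons (.ev (nat_lit 87112291144418742947617463077144274927873) (nat_lit 1)) .nil))),
 (.br (nat_lit 17) (nat_lit 1) (.cons (.ev (nat_lit 87112291144418742947617463077144274927873) (nat_lit 1)) (.cons (.ev (nat_lit 87112291124057105181470046834696755609856) (nat_lit 1)) .nil))),
 (.br (nat_lit 6) (nat_lit 1) (.cons (.kr (nat_lit 309485009821626543701491968) (nat_lit 79228162514264337597855694848) (nat_lit 1) (nat_lit 0)) (.cons (.ev (nat_lit 80156617599141228876291769089) (nat_lit 2)) (.cons (.kr (nat_lit 309485009821626543701491968) (nat_lit 20282409603651670423951563030528) (nat_lit 1) (nat_lit 0)) (.cons (.br (nat_lit 10) (nat_lit 1) (.cons (.br (nat_lit 14) (nat_lit 1) (.cons (.ev (nat_lit 10506367712339181815183809140097797) (nat_lit 3)) (.cons (.ev (nat_lit 10384675111627330722399396464820485) (nat_lit 3)) (.cons (.br (nat_lit 15) (nat_lit 1) (.cons (.rf (nat_lit 553) (nat_lit 21174442659472845144426528)) (.cons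 (.br (nat_lit 15) (nat_lit 1) (.cons (.rf (nat_lit 553) (nat_lit 21174442659472845144426528)) .nil)) .nil))) .nil)))) (.cons (.rf (nat_lit 555) (nat_lit 19926519232773908561233952)) (.cons (.br (nat_lit 16) (nat_lit 1) (.cons (.rf (nat_lit 68) (nat_lit 16991329264835)) (.cons (.rf (nat_lit 68) (nat_lit 15925819811011)) (.cons (.br (nat_lit 14) (nat_lit 1) (.cons (.rf (nat_lit 556) (nat_lit 677582165103132179601393696)) (.cons (.br (nat_lit 14) (nat_lit 1) (.cons (.rf (nat_lit 556) (nat_lit 677582165103132179601393696)) .nil)) .nil))) .nil)))) (.cons (.br (nat_lit 14) (nat_lit 1) (.cons (.br (nat_lit 14) (nat_lit 1) (.cons (.ev (nat_lit 31194426746003961682923990657663751) (nat_lit 3)) (.cons (.rf (nat_lit 557) (nat_lit 677582165103132179601393696)) .nil))) (.cons (.br (nat_lit 14) (nat_lit 1) (.cons (.ev (nat_lit 31194426746003961682923990657663751) (nat_lit 3)) (.cons (.rf (nat_lit 558) (nat_lit 677582165103132179601393696)) .nil))) (.cons (.br (nat_lit 14) (nat_lit 1) (.cons (.rf (nat_lit 557) (nat_lit 677582165103132179601393696))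 (.cons (.rf (nat_lit 558) (nat_lit 677582165103132179601393696)) .nil))) .nil)))) .nil))))) .nil))))),
 (.br (nat_lit 14) (nat_lit 1) (.cons (.br (nat_lit 15) (nat_lit 1) (.cons (.kr (nat_lit 340287559217797003031816364880042131712) (nat_lit 1329248357422682038982684888663130112) (nat_lit 1) (nat_lit 0)) .nil)) .nil)),
 (.br (nat_lit 13) (nat_lit 1) (.cons (.rf (nat_lit 68) (nat_lit 16987849827368)) (.cons (.rf (nat_lit 68) (nat_lit 15922925478952)) (.cons (.br (nat_lit 14) (nat_lit 1) (.cons (.rf (nat_lit 560) (nat_lit 19926519232773908561233952)) (.cons (.br (nat_lit 14) (nat_lit 1) (.cons (.rf (nat_lit 560) (nat_lit 19926519232773908561233952)) .nil)) .nil))) .nil))))]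

theorem c24 : chkAll C T R L24 (nat_lit 529) = true := by decide +kernel

theorem l24 : (nat_lit 529) + L24.length = (nat_lit 562) := by decide +kernel

/-- part of the certificates -/
def L25 : List Prf := [(.br (nat_lit 10) (nat_lit 1) (.cons (.rf (nat_lit 119) (nat_lit 18121752885346)) (.cons (.rf (nat_lit 119) (nat_lit 17053610457186)) (.cons (.br (nat_lit 15) (nat_lit 1) (.cons (.br (nat_lit 15) (nat_lit 1) (.cons (.ev (nat_lit 1329248278195733191279412748604145665) (nat_lit 1)) .nil)) (.cons (.br (nat_lit 15) (nat_lit 1) (.cons (.ev (nat_lit 1329248278195733191279412748604145665) (nat_lit 1)) .nil)) .nil))) .nil)))),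
 (.br (nat_lit 15) (nat_lit 1) (.cons (.kr (nat_lit 340287559217797003031816364880042131712) (nat_lit 1329248357422682038982684888663130112) (nat_lit 1) (nat_lit 0)) .nil)),
 (.br (nat_lit 10) (nat_lit 1) (.cons (.rf (nat_lit 119) (nat_lit 18121751869538)) (.cons (.ev (nat_lit 1329248357733380715364813940174356737) (nat_lit 1)) (.cons (.br (nat_lit 14) (nat_lit 1) (.cons (.ev (nat_lit 1329227996095614549430333870077640705) (nat_lit 1)) (.cons (.ev (nat_lit 2041725355388176547347984854896137471239) (nat_lit 3)) (.cons (.br (nat_lit 15) (nat_lit 1) (.cons (.ev (nat_lit 1329227996095614549430052399379120385) (nat_lit 1)) (.cons (.br (nat_lit 16) (nat_lit 1) (.cons (.zr (nat_lit 680575118673587988024159185728123699457) (nat_lit 5316911983144499213340431943959838720) (nat_lit 8) (nat_lit 11)) .nil)) .nil))) .nil)))) (.cons (.br (nat_lit 15) (nat_lit 1) (.cons (.rf (nat_lit 130) (nat_lit 17942672029794)) (.cons (.br (nat_lit 14) (nat_lit 1) (.cons (.ev (nat_lit 680575240209589266145314901921416348417) (nat_lit 3)) (.cons (.rf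 (nat_lit 563) (nat_lit 21174442659472880612543553)) .nil))) (.cons (.ev (nat_lit 1329227996095614549430052399379120385) (nat_lit 1)) .nil)))) .nil))))),
 (.br (nat_lit 10) (nat_lit 1) (.cons (.rf (nat_lit 119) (nat_lit 17052536748130)) (.cons (.rf (nat_lit 564) (nat_lit 19926518114790485438597152)) (.cons (.rf (nat_lit 119) (nat_lit 16977370628390)) (.cons (.br (nat_lit 14) (nat_lit 1) (.cons (.br (nat_lit 15) (nat_lit 1) (.cons (.zr (nat_lit 680575118673587969134836806500583735299) (nat_lit 81129638414662022494258622365952) (nat_lit 8) (nat_lit 0)) (.cons (.ev (nat_lit 1329248357733380696846292647908737280) (nat_lit 1)) .nil))) (.cons (.ev (nat_lit 680575118516988554294220428650257318657) (nat_lit 3)) (.cons (.br (nat_lit 16) (nat_lit 1) (.cons (.br (nat_lit 15) (nat_lit 1) (.cons (.ev (nat_lit 1329248357733380696846011168620281856) (nat_lit 1)) .nil)) (.cons (.zr (nat_lit 348449143727041915041525134102952369193217) (nat_lit 680575118673278484143246596760001576960) (nat_lit 8) (nat_lit 0)) .nil))) .nil)))) .nil))))),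
 (.br (nat_lit 6) (nat_lit 1) (.cons (.ev (nat_lit 80156617599141228876291769089) (nat_lit 2)) (.cons (.ev (nat_lit 80156617562391853709335331075) (nat_lit 2)) (.cons (.ev (nat_lit 5192376396182370233015925857124353) (nat_lit 1)) (.cons (.ev (nat_lit 40644356854882839386633344779009) (nat_lit 2)) (.cons (.br (nat_lit 9) (nat_lit 1) (.cons (.rf (nat_lit 561) (nat_lit 622703726024184642538561)) (.cons (.rf (nat_lit 562) (nat_lit 19926519232773908561233952)) (.cons (.rf (nat_lit 564) (nat_lit 19926519232773908561233952)) (.cons (.rf (nat_lit 565) (nat_lit 19926519232773908561233952)) (.cons (.br (nat_lit 10) (nat_lit 1) (.cons (.rf (nat_lit 562) (nat_lit 19926518114790485438597152)) (.cons (.rf (nat_lit 564) (nat_lit 19926518114790485438597152)) (.cons (.rf (nat_lit 565) (nat_lit 19926518114790485438597152)) (.cons (.br (nat_lit 14) (nat_lit 1) (.cons (.br (nat_lit 15) (nat_lit 1) (.cons (.ev (nat_lit 1329248357733380696846292647908737280) (nat_lit 1)) (.cons (.ev (nat_lit 174227230400721241614476158485770042212609) (nat_lit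 3)) .nil))) (.cons (.br (nat_lit 16) (nat_lit 1) (.cons (.ev (nat_lit 680575240209589266145314901921416348417) (nat_lit 3)) (.cons (.ev (nat_lit 87452573491057581292438988604598021849088) (nat_lit 1)) .nil))) (.cons (.rf (nat_lit 130) (nat_lit 18045650647138)) .nil)))) .nil))))) .nil)))))) .nil)))))),
 (.br (nat_lit 16) (nat_lit 1) (.cons (.ev (nat_lit 341611615199134196636135218516903133185) (nat_lit 1)) .nil)),
 (.br (nat_lit 14) (nat_lit 1) (.cons (.ev (nat_lit 10506367712339181815183809140097797) (nat_lit 3)) (.cons (.ev (nat_lit 31234990946241245380518806380740871) (nat_lit 3)) (.cons (.ev (nat_lit 31234990946241245381081747710673671) (nat_lit 3)) (.cons (.br (nat_lit 10) (nat_lit 1) (.cons (.rf (nat_lit 102) (nat_lit 18907992079683)) (.cons (.br (nat_lit 15) (nat_lit 1) (.cons (.ev (nat_lit 341611594995952755517247932727136682240) (nat_lit 1)) (.cons (.br (nat_lit 16) (nat_lit 1) (.cons (.ev (nat_lit 341611594917034077994285858159121727745) (nat_lit 1)) .nil)) .nil))) (.cons (.br (nat_lit 17) (nat_lit 1) (.cons (.ev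 (nat_lit 87112291124136642828975613716795083456513) (nat_lit 1)) (.cons (.ev (nat_lit 87112291124136642828975613998265748422913) (nat_lit 1)) .nil))) .nil)))) .nil))))),
 (.br (nat_lit 16) (nat_lit 1) (.cons (.ev (nat_lit 341611594917034078012804940202317512960) (nat_lit 1)) .nil)),
 (.br (nat_lit 10) (nat_lit 1) (.cons (.rf (nat_lit 119) (nat_lit 18084163665187)) (.cons (.rf (nat_lit 119) (nat_lit 15953729862947)) (.cons (.br (nat_lit 14) (nat_lit 1) (.cons (.rf (nat_lit 569) (nat_lit 677582165103132179601393696)) (.cons (.br (nat_lit 14) (nat_lit 1) (.cons (.rf (nat_lit 569) (nat_lit 677582165103132179601393696)) .nil)) .nil))) .nil)))),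
 (.br (nat_lit 10) (nat_lit 1) (.cons (.rf (nat_lit 568) (nat_lit 19926518114790485438597152)) (.cons (.rf (nat_lit 119) (nat_lit 15952656121155)) (.cons (.rf (nat_lit 119) (nat_lit 15922588107046)) (.cons (.br (nat_lit 15) (nat_lit 1) (.cons (.br (nat_lit 16) (nat_lit 1) (.cons (.ev (nat_lit 31275555146478529079239504763683591) (nat_lit 3)) (.cons (.ev (nat_lit 341611594995952755498728850683940897025) (nat_lit 1)) .nil))) (.cons (.rf (nat_lit 130) (nat_lit 15739216477603)) (.cons (.br (nat_lit 16) (nat_lit 1) (.cons (.ev (nat_lit 341611594995952755498728850683940897025) (nat_lit 1)) (.cons (.zr (nat_lit 174227230319513612977339086103589498650627) (nat_lit 2041694282892953682948385270016069600000) (nat_lit 8) (nat_lit 4)) .nil))) .nil)))) .nil))))),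
 (.br (nat_lit 6) (nat_lit 1) (.cons (.kr (nat_lit 20282409603651670705422227996928) (nat_lit 309485009821345073036525568) (nat_lit 1) (nat_lit 0)) (.cons (.kr (nat_lit 20282409603651670705422227996928) (nat_lit 79228162514264337597855694848) (nat_lit 1) (nat_lit 0)) (.cons (.ev (nat_lit 40644356854882839386633344779009) (nat_lit 2)) (.cons (.kr (nat_lit 281474976710912) (nat_lit 4311744512) (nat_lit 1) (nat_lit 0)) (.cons (.br (nat_lit 9) (nat_lit 1) (.cons (.br (nat_lit 15) (nat_lit 1) (.cons (.rf (nat_lit 68) (nat_lit 18089532369001)) (.cons (.rf (nat_lit 68) (nat_lit 15959098566761)) (.cons (.br (nat_lit 14) (nat_lit 1) (.cons (.rf (nat_lit 567) (nat_lit 677582165103132179601393696)) (.cons (.br (nat_lit 14) (nat_lit 1) (.cons (.rf (nat_lit 567) (nat_lit 677582165103132179601393696)) .nil)) .nil))) .nil)))) (.cons (.rf (nat_lit 568) (nat_lit 19926519232773908561233952)) (.cons (.rf (nat_lit 570) (nat_lit 19926519232773908561233952)) (.cons (.rf (nat_lit 571) (nat_lit 19926519232773908561233952)) (.cons (.br (nat_lit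 10) (nat_lit 1) (.cons (.rf (nat_lit 568) (nat_lit 19926518114790485438597152)) (.cons (.rf (nat_lit 570) (nat_lit 19926518114790485438597152)) (.cons (.rf (nat_lit 571) (nat_lit 19926518114790485438597152)) (.cons (.br (nat_lit 15) (nat_lit 1) (.cons (.br (nat_lit 14) (nat_lit 1) (.cons (.ev (nat_lit 31275555146478529079239504763683591) (nat_lit 3)) (.cons (.ev (nat_lit 87112291124136642828975613716795083456513) (nat_lit 1)) .nil))) (.cons (.br (nat_lit 16) (nat_lit 1) (.cons (.ev (nat_lit 341611615278671844160220619699916964097) (nat_lit 1)) (.cons (.zr (nat_lit 174227230400641703966896661074034879889411) (nat_lit 2041694201764243723371167609433238799104) (nat_lit 8) (nat_lit 4)) .nil))) (.cons (.rf (nat_lit 130) (nat_lit 15601814257059)) .nil)))) .nil))))) .nil)))))) .nil)))))),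
 (.br (nat_lit 15) (nat_lit 1) (.cons (.ev (nat_lit 5327337221218442696242481406312317187) (nat_lit 3)) (.cons (.ev (nat_lit 5327337221218442696243607323466138883) (nat_lit 3)) .nil))),
 (.br (nat_lit 14) (nat_lit 1) (.cons (.rf (nat_lit 573) (nat_lit 677582165103132179601393696)) (.cons (.rf (nat_lit 573) (nat_lit 640105464695078671961229440)) .nil))),
 (.br (nat_lit 10) (nat_lit 1) (.cons (.ev (nat_lit 79537652246452165536208978176) (nat_lit 1)) .nil)),
 (.br (nat_lit 12) (nat_lit 1) (.cons (.rf (nat_lit 575) (nat_lit 15433072045017106464)) (.cons (.ev (nat_lit 20361638975091754657644963495936) (nat_lit 1)) .nil))),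
 (.br (nat_lit 14) (nat_lit 1) (.cons (.rf (nat_lit 574) (nat_lit 677582165103132179601393696)) (.cons (.rf (nat_lit 576) (nat_lit 646192705841620158496)) .nil))),
 (.br (nat_lit 15) (nat_lit 1) (.cons (.ev (nat_lit 1329248278195733191279412748604145665) (nat_lit 1)) .nil)),
 (.br (nat_lit 15) (nat_lit 1) (.cons (.ev (nat_lit 5327296657018205412544323649259307267) (nat_lit 3)) (.cons (.ev (nat_lit 5327296657018205412545449566413128963) (nat_lit 3)) .nil))),
 (.br (nat_lit 14) (nat_lit 1) (.cons (.br (nat_lit 15) (nat_lit 1) (.cons (.ev (nat_lit 1329248357733380696846011168620281856) (nat_lit 1)) (.cons (.ev (nat_lit 1329248357733380696846292647908737280) (nat_lit 1)) .nil))) (.cons (.rf (nat_lit 130) (nat_lit 19145155950882)) (.cons (.br (nat_lit 16) (nat_lit 1) (.cons (.br (nat_lit 15) (nat_lit 1) (.cons (.ev (nat_lit 5327377787894559985013212354940372743) (nat_lit 3)) .nil)) (.cons (.ev (nat_lit 349810304348587286206953582460155392819975) (nat_lit 3)) .nil))) .nil)))),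
 (.br (nat_lit 10) (nat_lit 1) (.cons (.br (nat_lit 15) (nat_lit 1) (.cons (.rf (nat_lit 578) (nat_lit 677582165103132179601393696)) (.cons (.rf (nat_lit 578) (nat_lit 640105464695078671961229440)) .nil))) (.cons (.br (nat_lit 14) (nat_lit 1) (.cons (.ev (nat_lit 1329227996095614530911249627825045504) (nat_lit 1)) (.cons (.rf (nat_lit 579) (nat_lit 677582165103132179601393696)) (.cons (.rf (nat_lit 579) (nat_lit 640105464695078671961229440)) .nil)))) (.cons (.rf (nat_lit 580) (nat_lit 677582165103132179601393696)) (.cons (.rf (nat_lit 580) (nat_lit 640105464695078671961229440)) .nil))))),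
 (.br (nat_lit 15) (nat_lit 1) (.cons (.br (nat_lit 14) (nat_lit 1) (.cons (.ev (nat_lit 5327418352094797268710807170663449863) (nat_lit 3)) (.cons (.ev (nat_lit 5327418352094797268712495994787463943) (nat_lit 3)) .nil))) (.cons (.ev (nat_lit 1329228075014292035354242152644214784) (nat_lit 1)) (.cons (.ev (nat_lit 1329228075014292035354523631932670208) (nat_lit 1)) .nil)))),
 (.br (nat_lit 10) (nat_lit 1) (.cons (.rf (nat_lit 581) (nat_lit 677582163985148756478756896)) (.cons (.ev (nat_lit 1329248278195733172760328506351550464) (nat_lit 1)) (.cons (.rf (nat_lit 582) (nat_lit 677582165103132179601393696)) (.cons (.rf (nat_lit 582) (nat_lit 640105464695078671961229440)) .nil))))),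
 (.br (nat_lit 14) (nat_lit 1) (.cons (.br (nat_lit 15) (nat_lit 1) (.cons (.ev (nat_lit 5327337221218442622744294048089114375) (nat_lit 3)) .nil)) .nil)),
 (.br (nat_lit 14) (nat_lit 1) (.cons (.br (nat_lit 15) (nat_lit 1) (.cons (.ev (nat_lit 5327337221218442622743731106759181575) (nat_lit 3)) .nil)) (.cons (.ev (nat_lit 87452573491057581292438988323127323328768) (nat_lit 1)) .nil))),
 (.br (nat_lit 10) (nat_lit 1) (.cons (.rf (nat_lit 581) (nat_lit 677582163985148756478756896)) (.cons (.rf (nat_lit 583) (nat_lit 677582163985148756478756896)) (.cons (.br (nat_lit 14) (nat_lit 1) (.cons (.rf (nat_lit 584) (nat_lit 677582165103132179601393696)) (.cons (.br (nat_lit 14) (nat_lit 1) (.cons (.rf (nat_lit 584) (nat_lit 677582165103132179601393696)) .nil)) .nil))) (.cons (.br (nat_lit 16) (nat_lit 1) (.cons (.rf (nat_lit 585) (nat_lit 677582165103132179601393696)) (.cons (.br (nat_lit 17) (nat_lit 1) (.cons (.rf (nat_lit 585) (nat_lit 640105463577095248838592640)) (.cons (.ev (nat_lit 1329248357733380696846011168620281856)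 (nat_lit 1)) .nil))) (.cons (.rf (nat_lit 130) (nat_lit 15842329280803)) .nil)))) .nil))))),
 (.br (nat_lit 13) (nat_lit 1) (.cons (.br (nat_lit 14) (nat_lit 1) (.cons (.kr (nat_lit 1329248278504004534396139026209833216) (nat_lit 5192376087910990078966688204783616) (nat_lit 1) (nat_lit 0)) .nil)) .nil)),
 (.br (nat_lit 12) (nat_lit 1) (.cons (.rf (nat_lit 68) (nat_lit 15853065439521)) (.cons (.rf (nat_lit 68) (nat_lit 14787751020833)) (.cons (.br (nat_lit 13) (nat_lit 1) (.cons (.rf (nat_lit 587) (nat_lit 583706118939841765935136)) (.cons (.br (nat_lit 13) (nat_lit 1) (.cons (.rf (nat_lit 587) (nat_lit 583706118939841765935136)) .nil)) .nil))) .nil)))),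
 (.br (nat_lit 16) (nat_lit 1) (.cons (.ev (nat_lit 341611615278361150224579941481272377345) (nat_lit 1)) .nil)),
 (.br (nat_lit 15) (nat_lit 1) (.cons (.rf (nat_lit 68) (nat_lit 18089745157314)) (.cons (.rf (nat_lit 68) (nat_lit 15959473884354)) (.cons (.br (nat_lit 14) (nat_lit 1) (.cons (.rf (nat_lit 589) (nat_lit 677582165103132179601393696)) (.cons (.br (nat_lit 14) (nat_lit 1) (.cons (.rf (nat_lit 589) (nat_lit 677582165103132179601393696)) .nil)) .nil))) .nil))))]

theorem c25 : chkAll C T R L25 (nat_lit 562) = true := by decide +kernel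

theorem l25 : (nat_lit 562) + L25.length = (nat_lit 591) := by decide +kernel

/-- part of the certificates -/
def L26 : List Prf := [(.br (nat_lit 15) (nat_lit 1) (.cons (.ev (nat_lit 5348187460606627648457046824348549379) (nat_lit 3)) (.cons (.ev (nat_lit 5348187776281337592730275420165113095) (nat_lit 3)) .nil))),
 (.br (nat_lit 14) (nat_lit 1) (.cons (.rf (nat_lit 591) (nat_lit 677582165103132179601393696)) (.cons (.rf (nat_lit 591) (nat_lit 640105463577095252062865440)) .nil))),
 (.br (nat_lit 14) (nat_lit 1) (.cons (.rf (nat_lit 592) (nat_lit 677582165103132179601393696)) (.cons (.rf (nat_lit 576) (nat_lit 646192451620465653031)) .nil))),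
 (.br (nat_lit 13) (nat_lit 1) (.cons (.zr (nat_lit 18664042755797286912) (nat_lit 40564820420951526946497129218305) (nat_lit 8) (nat_lit 5)) (.cons (.ev (nat_lit 310693954159761365663744256) (nat_lit 1)) (.cons (.ev (nat_lit 79228167255149622130953421056) (nat_lit 1)) (.cons (.br (nat_lit 6) (nat_lit 1) (.cons (.rf (nat_lit 47) (nat_lit 483757250)) (.cons (.rf (nat_lit 47) (nat_lit 483790018)) (.cons (.ev (nat_lit 40564820421006939799262282645761) (nat_lit 2)) (.cons (.br (nat_lit 11) (nat_lit 1) (.cons (.rf (nat_lit 47) (nat_lit 510004578)) (.cons (.br (nat_lit 12) (nat_lit 1) (.cons (.ev (nat_lit 5212579269352127485051942400425984) (nat_lit 1)) (.cons (.ev (nat_lit 40723895716018361793835090051843) (nat_lit 2)) (.cons (.rf (nat_lit 588) (nat_lit 19459491438255735442497)) .nil)))) (.cons (.br (nat_lit 12) (nat_lit 1) (.cons (.ev (nat_lit 40723895716018361793835090051843) (nat_lit 2)) (.cons (.zr (nat_lit 4777779898584752193792) (nat_lit 2658455992190010691269919990991683585) (nat_lit 8) (nat_lit 5)) (.cons (.rf (nat_lit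 590) (nat_lit 19926519232773908561233952)) .nil)))) (.cons (.br (nat_lit 12) (nat_lit 1) (.cons (.rf (nat_lit 588) (nat_lit 19459490346475048799297)) (.cons (.rf (nat_lit 590) (nat_lit 19926518114790485438597152)) (.cons (.kr (nat_lit 79228167236630820463189164032) (nat_lit 310693935640959697899487232) (nat_lit 9) (nat_lit 0)) (.cons (.br (nat_lit 14) (nat_lit 1) (.cons (.rf (nat_lit 592) (nat_lit 677582165103132179601393696)) (.cons (.rf (nat_lit 593) (nat_lit 677582165103132179601393696)) (.cons (.rf (nat_lit 593) (nat_lit 640105463577095252062865440)) .nil)))) .nil))))) .nil))))) .nil))))) .nil))))),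
 (.br (nat_lit 13) (nat_lit 1) (.cons (.br (nat_lit 14) (nat_lit 1) (.cons (.kr (nat_lit 1329248278504004534395576084846346496) (nat_lit 5192376087910990078966688204783616) (nat_lit 1) (nat_lit 0)) .nil)) .nil)),
 (.br (nat_lit 12) (nat_lit 1) (.cons (.rf (nat_lit 68) (nat_lit 15852902917185)) (.cons (.rf (nat_lit 68) (nat_lit 14787913557057)) (.cons (.br (nat_lit 13) (nat_lit 1) (.cons (.rf (nat_lit 595) (nat_lit 583706118939841765935136)) (.cons (.br (nat_lit 13) (nat_lit 1) (.cons (.rf (nat_lit 595) (nat_lit 583706118939841765935136)) .nil)) .nil))) .nil)))),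
 (.br (nat_lit 16) (nat_lit 1) (.cons (.ev (nat_lit 341611615278362354446551873804742754560) (nat_lit 1)) .nil)),
 (.br (nat_lit 15) (nat_lit 1) (.cons (.rf (nat_lit 68) (nat_lit 18089543871586)) (.cons (.rf (nat_lit 68) (nat_lit 15959467633762)) (.cons (.br (nat_lit 14) (nat_lit 1) (.cons (.rf (nat_lit 597) (nat_lit 677582165103132179601393696)) (.cons (.br (nat_lit 14) (nat_lit 1) (.cons (.rf (nat_lit 597) (nat_lit 677582165103132179601393696)) .nil)) .nil))) .nil)))),
 (.br (nat_lit 15) (nat_lit 1) (.cons (.ev (nat_lit 5327337300133488590323797919780831489) (nat_lit 3)) (.cons (.ev (nat_lit 5327337300133488590324923836934653185) (nat_lit 3)) .nil))),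
 (.br (nat_lit 14) (nat_lit 1) (.cons (.rf (nat_lit 599) (nat_lit 677582165103132179601393696)) (.cons (.rf (nat_lit 599) (nat_lit 640105464695078671961229440)) .nil))),
 (.br (nat_lit 14) (nat_lit 1) (.cons (.rf (nat_lit 600) (nat_lit 677582165103132179601393696)) (.cons (.br (nat_lit 16) (nat_lit 1) (.cons (.br (nat_lit 15) (nat_lit 1) (.cons (.ev (nat_lit 1329228075322563397061828795875524865) (nat_lit 1)) .nil)) (.cons (.ev (nat_lit 87452573511260453248566645403477042266113) (nat_lit 1)) .nil))) .nil))),
 (.br (nat_lit 13) (nat_lit 1) (.cons (.ev (nat_lit 309489732187829042193367041) (nat_lit 1)) (.cons (.ev (nat_lit 309489732188110512858333441) (nat_lit 1)) (.cons (.zr (nat_lit 318150590096342731748586553347) (nat_lit 40564820420970045747065365070080) (nat_lit 8) (nat_lit 8)) (.cons (.br (nat_lit 12) (nat_lit 1) (.cons (.rf (nat_lit 47) (nat_lit 483798114)) (.cons (.rf (nat_lit 47) (nat_lit 483798210)) (.cons (.ev (nat_lit 40723895716018361230876513140995) (nat_lit 2)) (.cons (.br (nat_lit 3) (nat_lit 1) (.cons (.rf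 (nat_lit 47) (nat_lit 516107362)) (.cons (.br (nat_lit 6) (nat_lit 1) (.cons (.ev (nat_lit 5212579269352145931797115621605376) (nat_lit 1)) (.cons (.ev (nat_lit 40723895716018361793835090051843) (nat_lit 2)) (.cons (.rf (nat_lit 596) (nat_lit 19459491438255735442497)) .nil)))) (.cons (.br (nat_lit 6) (nat_lit 1) (.cons (.ev (nat_lit 40723895716018361793835090051843) (nat_lit 2)) (.cons (.zr (nat_lit 317531624799066526679805460739) (nat_lit 2658455991571040690290145609887383552) (nat_lit 8) (nat_lit 8)) (.cons (.rf (nat_lit 598) (nat_lit 19926519232773908561233952)) .nil)))) (.cons (.br (nat_lit 6) (nat_lit 1) (.cons (.rf (nat_lit 596) (nat_lit 19459491438255634683972)) (.cons (.rf (nat_lit 598) (nat_lit 19926519232773905336961152)) (.cons (.kr (nat_lit 281474976710912) (nat_lit 4311744512) (nat_lit 1) (nat_lit 0)) (.cons (.br (nat_lit 14) (nat_lit 1) (.cons (.rf (nat_lit 600) (nat_lit 677582165103132179601393696)) (.cons (.rf (nat_lit 601) (nat_lit 677582165103132179601393696)) (.cons (.rf (nat_lit 601) (nat_lit 640105464695078671961229440))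 .nil)))) .nil))))) .nil))))) .nil))))) .nil))))),
 (.br (nat_lit 13) (nat_lit 1) (.cons (.br (nat_lit 14) (nat_lit 1) (.cons (.kr (nat_lit 5212579577623489120299520895222016) (nat_lit 1329228075014292035354243252155908096) (nat_lit 1) (nat_lit 0)) .nil)) .nil)),
 (.br (nat_lit 13) (nat_lit 1) (.cons (.rf (nat_lit 603) (nat_lit 583706118939841765935136)) (.cons (.br (nat_lit 13) (nat_lit 1) (.cons (.rf (nat_lit 603) (nat_lit 583706118939841765935136)) .nil)) .nil))),
 (.br (nat_lit 11) (nat_lit 1) (.cons (.ev (nat_lit 79537647561195625075385041409) (nat_lit 2)) (.cons (.ev (nat_lit 40566058380009766322110568990469) (nat_lit 3)) (.cons (.br (nat_lit 12) (nat_lit 1) (.cons (.ev (nat_lit 40881733089953463081123629368065) (nat_lit 3)) (.cons (.kr (nat_lit 79228167236630820463189164032) (nat_lit 310693935640959697899487232) (nat_lit 9) (nat_lit 0)) (.cons (.br (nat_lit 14) (nat_lit 1) (.cons (.ev (nat_lit 20890883130933926673909508739565313) (nat_lit 3)) (.cons (.ev (nat_lit 20891198805643870947129274103366405) (nat_lit 3))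 (.cons (.rf (nat_lit 604) (nat_lit 661701333108527484505153)) .nil)))) .nil)))) .nil)))),
 (.br (nat_lit 14) (nat_lit 1) (.cons (.br (nat_lit 15) (nat_lit 1) (.cons (.ev (nat_lit 340282387203657552143385460689996873728) (nat_lit 1)) .nil)) .nil)),
 (.br (nat_lit 13) (nat_lit 1) (.cons (.rf (nat_lit 68) (nat_lit 16988045191235)) (.cons (.rf (nat_lit 68) (nat_lit 15922730772547)) (.cons (.br (nat_lit 14) (nat_lit 1) (.cons (.rf (nat_lit 606) (nat_lit 19889909175107644901599623)) (.cons (.br (nat_lit 14) (nat_lit 1) (.cons (.rf (nat_lit 606) (nat_lit 19889909175107644901599623)) .nil)) .nil))) .nil)))),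
 (.br (nat_lit 6) (nat_lit 1) (.cons (.ev (nat_lit 79537647561195625075385041409) (nat_lit 2)) (.cons (.ev (nat_lit 10425159156470126572518330670908163) (nat_lit 2)) (.cons (.br (nat_lit 12) (nat_lit 1) (.cons (.ev (nat_lit 10425316993825135602055618465235713) (nat_lit 2)) (.cons (.ev (nat_lit 20361638975091826716338496274688) (nat_lit 1)) (.cons (.rf (nat_lit 607) (nat_lit 622703726023049662793760)) .nil)))) .nil)))),
 (.br (nat_lit 15) (nat_lit 1) (.cons (.zr (nat_lit 2668921714925316100052148869104926981) (nat_lit 159078935992730221870496088064) (nat_lit 8) (nat_lit 0)) .nil)),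
 (.br (nat_lit 6) (nat_lit 1) (.cons (.ev (nat_lit 10425159156470126571955389340975363) (nat_lit 2)) (.cons (.ev (nat_lit 10425316993825098708565272022876929) (nat_lit 2)) (.cons (.br (nat_lit 11) (nat_lit 1) (.cons (.ev (nat_lit 122171684720758279143288826364675) (nat_lit 3)) (.cons (.ev (nat_lit 20282720297605758409198132068353) (nat_lit 1)) (.cons (.br (nat_lit 12) (nat_lit 1) (.cons (.ev (nat_lit 20361637770906748269963421745153) (nat_lit 1)) (.cons (.kr (nat_lit 79228167236630820463189164032) (nat_lit 310693935640959697899487232) (nat_lit 9) (nat_lit 0)) (.cons (.br (nat_lit 15) (nat_lit 1) (.cons (.rf (nat_lit 609) (nat_lit 677582165103132179601393696)) (.cons (.rf (nat_lit 609) (nat_lit 640105463577095252062865440)) .nil))) .nil)))) .nil)))) .nil)))),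
 (.br (nat_lit 16) (nat_lit 1) (.cons (.ev (nat_lit 680575159159489712637261555639680762627) (nat_lit 2)) .nil)),
 (.br (nat_lit 12) (nat_lit 1) (.cons (.ev (nat_lit 5192296859748475886685589187133441) (nat_lit 1)) (.cons (.ev (nat_lit 121853534130699119826601695905031) (nat_lit 3)) (.cons (.br (nat_lit 14) (nat_lit 1) (.cons (.rf (nat_lit 68) (nat_lit 18123031156803)) (.cons (.rf (nat_lit 68) (nat_lit 17057911773251)) (.cons (.br (nat_lit 15) (nat_lit 1) (.cons (.rf (nat_lit 611) (nat_lit 677582165103132179601393696)) (.cons (.br (nat_lit 15) (nat_lit 1) (.cons (.rf (nat_lit 611) (nat_lit 677582165103132179601393696)) .nil)) .nil))) .nil)))) .nil)))),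
 (.br (nat_lit 16) (nat_lit 1) (.cons (.ev (nat_lit 683223189992523267424327145685004714753) (nat_lit 2)) .nil)),
 (.br (nat_lit 12) (nat_lit 1) (.cons (.ev (nat_lit 121853534130699119826601695905031) (nat_lit 3)) (.cons (.ev (nat_lit 1329248278195733172760328506351550464) (nat_lit 1)) (.cons (.br (nat_lit 15) (nat_lit 1) (.cons (.rf (nat_lit 68) (nat_lit 18089733691747)) (.cons (.rf (nat_lit 68) (nat_lit 15959104854371)) (.cons (.br (nat_lit 14) (nat_lit 1) (.cons (.rf (nat_lit 613) (nat_lit 677582165103132179601393696)) (.cons (.br (nat_lit 14) (nat_lit 1) (.cons (.rf (nat_lit 613) (nat_lit 677582165103132179601393696)) .nil)) .nil))) .nil)))) .nil)))),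
 (.br (nat_lit 15) (nat_lit 1) (.cons (.zr (nat_lit 18609191940988822350573140924373665536) (nat_lit 52004099470179570089698288877174785) (nat_lit 24) (nat_lit 0)) (.cons (.zr (nat_lit 81288713709654853061113777750023) (nat_lit 2668840585288115068060622708535197952) (nat_lit 24) (nat_lit 1)) .nil))),
 (.br (nat_lit 14) (nat_lit 1) (.cons (.rf (nat_lit 615) (nat_lit 677582165103132179601393696)) (.cons (.rf (nat_lit 615) (nat_lit 640105463577095252062865440)) .nil))),
 (.br (nat_lit 14) (nat_lit 1) (.cons (.rf (nat_lit 616) (nat_lit 677582165103132179601393696)) (.cons (.ev (nat_lit 5192376397395999900592132411424768) (nat_lit 1)) .nil))),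
 (.br (nat_lit 11) (nat_lit 1) (.cons (.ev (nat_lit 79537647561195625075385041409) (nat_lit 2)) (.cons (.rf (nat_lit 612) (nat_lit 583706118939841765935136)) (.cons (.rf (nat_lit 614) (nat_lit 583706118939841765935136)) (.cons (.br (nat_lit 12) (nat_lit 1) (.cons (.rf (nat_lit 612) (nat_lit 583705000956418643298336)) (.cons (.rf (nat_lit 614) (nat_lit 583705000956418643298336)) (.cons (.kr (nat_lit 79228167236630820463189164032) (nat_lit 310693935640959697899487232) (nat_lit 9) (nat_lit 0)) (.cons (.br (nat_lit 14) (nat_lit 1) (.cons (.rf (nat_lit 616) (nat_lit 677582165103132179601393696)) (.cons (.rf (nat_lit 617) (nat_lit 677582165103132179601393696)) (.cons (.rf (nat_lit 617) (nat_lit 640105463577095252062865440)) .nil)))) .nil))))) .nil))))),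
 (.br (nat_lit 16) (nat_lit 1) (.cons (.ev (nat_lit 680575159159489712637261555639680762627) (nat_lit 2)) .nil)),
 (.br (nat_lit 12) (nat_lit 1) (.cons (.zr (nat_lit 1209018270634779254850304) (nat_lit 10384911248694454323584386847473667) (nat_lit 8) (nat_lit 5)) (.cons (.ev (nat_lit 20361638975091826716338496274688) (nat_lit 1)) (.cons (.br (nat_lit 14) (nat_lit 1) (.cons (.ev (nat_lit 5253144400467033244099969407910145) (nat_lit 2)) (.cons (.ev (nat_lit 5192376396182370233015925857124353) (nat_lit 1)) (.cons (.br (nat_lit 15) (nat_lit 1) (.cons (.rf (nat_lit 619) (nat_lit 677582165103132179601393696)) (.cons (.br (nat_lit 15) (nat_lit 1) (.cons (.rf (nat_lit 619) (nat_lit 677582165103132179601393696)) .nil)) .nil))) .nil)))) .nil)))),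
 (.br (nat_lit 16) (nat_lit 1) (.cons (.ev (nat_lit 683223189992523267424327145685004714753) (nat_lit 2)) .nil)),
 (.br (nat_lit 12) (nat_lit 1) (.cons (.ev (nat_lit 20361638975091826716338496274688) (nat_lit 1)) (.cons (.zr (nat_lit 40564820416321467367485681435392) (nat_lit 2658456309101456544874137514749722625) (nat_lit 8) (nat_lit 5)) (.cons (.br (nat_lit 15) (nat_lit 1) (.cons (.ev (nat_lit 1329268560917244426921010180145742080) (nat_lit 2)) (.cons (.ev (nat_lit 1329248357732167067106658843021541376) (nat_lit 1)) (.cons (.br (nat_lit 14) (nat_lit 1) (.cons (.rf (nat_lit 621) (nat_lit 677582165103132179601393696)) (.cons (.br (nat_lit 14) (nat_lit 1) (.cons (.rf (nat_lit 621) (nat_lit 677582165103132179601393696)) .nil)) .nil))) .nil)))) .nil))))]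

theorem c26 : chkAll C T R L26 (nat_lit 591) = true := by decide +kernel

theorem l26 : (nat_lit 591) + L26.length = (nat_lit 623) := by decide +kernel

/-- part of the certificates -/
def L27 : List Prf := [(.br (nat_lit 14) (nat_lit 1) (.cons (.br (nat_lit 15) (nat_lit 1) (.cons (.ev (nat_lit 87452568318963904203489651163522110914560) (nat_lit 1)) .nil)) .nil)),
 (.br (nat_lit 16) (nat_lit 1) (.cons (.rf (nat_lit 68) (nat_lit 16991329332419)) (.cons (.rf (nat_lit 68) (nat_lit 15925819878595)) (.cons (.br (nat_lit 14) (nat_lit 1) (.cons (.rf (nat_lit 623) (nat_lit 677545153721720507526919463)) (.cons (.br (nat_lit 14) (nat_lit 1) (.cons (.rf (nat_lit 623) (nat_lit 677545153721720507526919463)) .nil)) .nil))) .nil)))),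
 (.br (nat_lit 14) (nat_lit 1) (.cons (.br (nat_lit 15) (nat_lit 1) (.cons (.ev (nat_lit 683233614992603228799129347314768020227) (nat_lit 2)) (.cons (.ev (nat_lit 1334420371871617955682241166817886208) (nat_lit 1)) .nil))) (.cons (.br (nat_lit 15) (nat_lit 1) (.cons (.ev (nat_lit 1334420371871617955682241166817886208) (nat_lit 1)) (.cons (.ev (nat_lit 174227240744829056950129208674804350190337) (nat_lit 2)) .nil))) .nil))),
 (.br (nat_lit 14) (nat_lit 1) (.cons (.rf (nat_lit 625) (nat_lit 677582165103132179601393696)) (.cons (.br (nat_lit 15) (nat_lit 1) (.cons (.ev (nat_lit 1361139933883717476352035256095895324423) (nat_lit 3)) (.cons (.ev (nat_lit 348449154192922799618897505001374218323715) (nat_lit 3)) .nil))) .nil))),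
 (.br (nat_lit 6) (nat_lit 1) (.cons (.ev (nat_lit 79537647561195625075385041409) (nat_lit 2)) (.cons (.rf (nat_lit 620) (nat_lit 583706118939841765935136)) (.cons (.rf (nat_lit 622) (nat_lit 583706118939841765935136)) (.cons (.br (nat_lit 12) (nat_lit 1) (.cons (.rf (nat_lit 622) (nat_lit 546694737528169691460903)) (.cons (.rf (nat_lit 620) (nat_lit 546694737528169691460903)) (.cons (.rf (nat_lit 624) (nat_lit 19926519232773908561233952)) (.cons (.br (nat_lit 14) (nat_lit 1) (.cons (.rf (nat_lit 625) (nat_lit 677582165103132179601393696)) (.cons (.rf (nat_lit 626) (nat_lit 677582165103132179601393696)) (.cons (.br (nat_lit 14) (nat_lit 1) (.cons (.rf (nat_lit 625) (nat_lit 677582165103132179601393696)) (.cons (.rf (nat_lit 626) (nat_lit 677582165103132179601393696)) .nil))) .nil)))) .nil))))) .nil))))),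
 (.br (nat_lit 15) (nat_lit 1) (.cons (.zr (nat_lit 2668921714925316100052148886318350341) (nat_lit 1243989390751626239790023424) (nat_lit 8) (nat_lit 0)) (.cons (.zr (nat_lit 2668921714925316100052148886318350341) (nat_lit 159078935992731347770369377024) (nat_lit 8) (nat_lit 0)) .nil))),
 (.br (nat_lit 15) (nat_lit 1) (.cons (.ev (nat_lit 20282720297605758127718877167873) (nat_lit 1)) (.cons (.ev (nat_lit 2658577686647665787058805327607629063) (nat_lit 3)) (.cons (.ev (nat_lit 7975408699224209683413202037398046469) (nat_lit 3)) .nil)))),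
 (.br (nat_lit 15) (nat_lit 1) (.cons (.ev (nat_lit 20282720297605758127718877167873) (nat_lit 1)) (.cons (.ev (nat_lit 7975408699224209683412639096068113669) (nat_lit 3)) (.cons (.ev (nat_lit 7975408699224209683413202037398046469) (nat_lit 3)) .nil)))),
 (.br (nat_lit 12) (nat_lit 1) (.cons (.ev (nat_lit 20361637770906747988484166844673) (nat_lit 1)) (.cons (.kr (nat_lit 310693935641241172876198144) (nat_lit 79228167236630820467500908544) (nat_lit 1) (nat_lit 0)) (.cons (.br (nat_lit 15) (nat_lit 1) (.cons (.rf (nat_lit 629) (nat_lit 677582165103132179601393696)) (.cons (.rf (nat_lit 630) (nat_lit 677582165103132179601393696)) .nil))) .nil)))),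
 (.br (nat_lit 12) (nat_lit 1) (.cons (.kr (nat_lit 79228167236631101938165874944) (nat_lit 310693935640959702211231744) (nat_lit 1) (nat_lit 0)) (.cons (.ev (nat_lit 20361637770906747988484166844673) (nat_lit 1)) (.cons (.kr (nat_lit 79228167236630820463189164032) (nat_lit 310693935640959697899487232) (nat_lit 9) (nat_lit 0)) (.cons (.br (nat_lit 14) (nat_lit 1) (.cons (.rf (nat_lit 629) (nat_lit 675166674647144352850315392)) (.cons (.rf (nat_lit 130) (nat_lit 19151635101794)) (.cons (.br (nat_lit 17) (nat_lit 1) (.cons (.rf (nat_lit 630) (nat_lit 675166674647144352850315392)) (.cons (.zr (nat_lit 174905136597520826559370248404617457435904) (nat_lit 31153782392775800962151235616505857) (nat_lit 8) (nat_lit 1)) .nil))) .nil)))) .nil))))),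
 (.br (nat_lit 6) (nat_lit 1) (.cons (.rf (nat_lit 627) (nat_lit 583706118939838541662336)) (.cons (.rf (nat_lit 627) (nat_lit 583705000956415419025536)) (.cons (.ev (nat_lit 5192296858534827628530500624253184) (nat_lit 1)) (.cons (.br (nat_lit 11) (nat_lit 1) (.cons (.ev (nat_lit 122171684720758279706230156297475) (nat_lit 3)) (.cons (.ev (nat_lit 20282720297605758409198132068353) (nat_lit 1)) (.cons (.ev (nat_lit 20282720297605758127718877167873) (nat_lit 1)) (.cons (.br (nat_lit 12) (nat_lit 1) (.cons (.ev (nat_lit 20361637770906748269963421745153) (nat_lit 1)) (.cons (.ev (nat_lit 20361637770906747988484166844673) (nat_lit 1)) (.cons (.kr (nat_lit 79228167236630820463189164032) (nat_lit 310693935640959697899487232) (nat_lit 9) (nat_lit 0)) (.cons (.br (nat_lit 14) (nat_lit 1) (.cons (.ev (nat_lit 8006521755861917981012861533670081799) (nat_lit 3)) (.cons (.rf (nat_lit 628) (nat_lit 677582165103132179601393696)) (.cons (.rf (nat_lit 628) (nat_lit 640105463577095252062865440)) .nil)))) .nil))))) .nil))))) (.cons (.br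 (nat_lit 11) (nat_lit 1) (.cons (.rf (nat_lit 618) (nat_lit 546694737528169691460903)) (.cons (.rf (nat_lit 631) (nat_lit 19926519232773908561233952)) (.cons (.ev (nat_lit 20282720297605758127718877167873) (nat_lit 1)) (.cons (.rf (nat_lit 632) (nat_lit 19926519232773908561233952)) (.cons (.br (nat_lit 12) (nat_lit 1) (.cons (.rf (nat_lit 631) (nat_lit 19926518114790485438597152)) (.cons (.ev (nat_lit 20361637770906747988484166844673) (nat_lit 1)) (.cons (.rf (nat_lit 632) (nat_lit 19926518114790485438597152)) (.cons (.kr (nat_lit 79228167236630820463189164032) (nat_lit 310693935640959697899487232) (nat_lit 9) (nat_lit 0)) .nil))))) .nil)))))) .nil)))))),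
 (.br (nat_lit 12) (nat_lit 1) (.cons (.ev (nat_lit 20361637770906747988484166844673) (nat_lit 1)) (.cons (.kr (nat_lit 79228167236631101938165874944) (nat_lit 310693935640959702211231744) (nat_lit 1) (nat_lit 0)) (.cons (.kr (nat_lit 79228167236630820463189164032) (nat_lit 310693935640959697899487232) (nat_lit 9) (nat_lit 0)) (.cons (.br (nat_lit 14) (nat_lit 1) (.cons (.rf (nat_lit 630) (nat_lit 601384004323669317563823399)) (.cons (.br (nat_lit 14) (nat_lit 1) (.cons (.ev (nat_lit 10384594337281786917491139095692033) (nat_lit 3)) (.cons (.ev (nat_lit 31153940846716108565935864284316419) (nat_lit 3)) .nil))) (.cons (.rf (nat_lit 629) (nat_lit 601384004323669317563823399)) .nil)))) .nil))))),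
 (.br (nat_lit 6) (nat_lit 1) (.cons (.rf (nat_lit 627) (nat_lit 583706118939838541662336)) (.cons (.rf (nat_lit 627) (nat_lit 583705000956415419025536)) (.cons (.rf (nat_lit 633) (nat_lit 583706118939838541662336)) (.cons (.ev (nat_lit 1329248278194519524646288605864526081) (nat_lit 1)) (.cons (.br (nat_lit 11) (nat_lit 1) (.cons (.rf (nat_lit 618) (nat_lit 546694737528169691460903)) (.cons (.ev (nat_lit 20282720297605758127718877167873) (nat_lit 1)) (.cons (.rf (nat_lit 633) (nat_lit 546694737528169691460903)) (.cons (.rf (nat_lit 634) (nat_lit 19926519232773908561233952)) (.cons (.br (nat_lit 12) (nat_lit 1) (.cons (.ev (nat_lit 20361637770906747988484166844673) (nat_lit 1)) (.cons (.rf (nat_lit 633) (nat_lit 546694737528168616703303)) (.cons (.rf (nat_lit 634) (nat_lit 19926518114790485438597152)) (.cons (.kr (nat_lit 79228167236630820463189164032) (nat_lit 310693935640959697899487232) (nat_lit 9) (nat_lit 0)) .nil))))) .nil)))))) .nil)))))),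
 (.br (nat_lit 12) (nat_lit 1) (.cons (.rf (nat_lit 635) (nat_lit 546694737528168616703303)) (.cons (.rf (nat_lit 633) (nat_lit 546694737528168616703303)) (.cons (.kr (nat_lit 79228167236630820463189164032) (nat_lit 310693935640959697899487232) (nat_lit 9) (nat_lit 0)) (.cons (.kr (nat_lit 310693935641241172876198144) (nat_lit 79228167236630820467500908544) (nat_lit 1) (nat_lit 0)) .nil))))),
 (.br (nat_lit 9) (nat_lit 1) (.cons (.rf (nat_lit 498) (nat_lit 8793383)) (.cons (.br (nat_lit 12) (nat_lit 0) (.cons (.br (nat_lit 10) (nat_lit 1) (.cons (.br (nat_lit 2) (nat_lit 1) (.cons (.rf (nat_lit 594) (nat_lit 493858305440582043680)) (.cons (.rf (nat_lit 594) (nat_lit 493858305437357770880)) (.cons (.rf (nat_lit 602) (nat_lit 493858305440582043680)) (.cons (.rf (nat_lit 602) (nat_lit 492740322017459406880)) (.cons (.ev (nat_lit 1213703742503614459020035) (nat_lit 2)) (.cons (.br (nat_lit 13) (nat_lit 1) (.cons (.rf (nat_lit 602) (nat_lit 80817136008257975591)) (.cons (.rf (nat_lit 602) (nat_lit 77463185738890065191)) (.cons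 (.rf (nat_lit 594) (nat_lit 80817136008257975591)) (.cons (.rf (nat_lit 594) (nat_lit 80817136007183217991)) (.cons (.br (nat_lit 3) (nat_lit 1) (.cons (.rf (nat_lit 605) (nat_lit 17022140995484340291616)) (.cons (.rf (nat_lit 608) (nat_lit 17022140995484340291616)) (.cons (.rf (nat_lit 608) (nat_lit 17021023012061217654816)) (.cons (.rf (nat_lit 610) (nat_lit 17022140995484340291616)) (.cons (.br (nat_lit 6) (nat_lit 1) (.cons (.rf (nat_lit 608) (nat_lit 17022140995481116018816)) (.cons (.rf (nat_lit 608) (nat_lit 17021023012057993382016)) (.cons (.rf (nat_lit 610) (nat_lit 17022140995481116018816)) (.cons (.kr (nat_lit 281474976710912) (nat_lit 4311744512) (nat_lit 1) (nat_lit 0)) (.cons (.br (nat_lit 11) (nat_lit 1) (.cons (.rf (nat_lit 605) (nat_lit 16609099826052016223527)) (.cons (.rf (nat_lit 610) (nat_lit 16609099826052016223527)) (.cons (.ev (nat_lit 20282720297605758127718877167873) (nat_lit 1)) (.cons (.ev (nat_lit 20282720297605758409198132068353) (nat_lit 1)) (.cons (.br (nat_lit 12) (nat_lit 1) (.cons (.rf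 (nat_lit 610) (nat_lit 16609099826050941465927)) (.cons (.ev (nat_lit 20361637770906747988484166844673) (nat_lit 1)) (.cons (.ev (nat_lit 20361637770906748269963421745153) (nat_lit 1)) (.cons (.kr (nat_lit 79228167236630820463189164032) (nat_lit 310693935640959697899487232) (nat_lit 9) (nat_lit 0)) .nil))))) .nil)))))) .nil)))))) .nil)))))) (.cons (.br (nat_lit 3) (nat_lit 1) (.cons (.rf (nat_lit 618) (nat_lit 583706118939841765935136)) (.cons (.rf (nat_lit 627) (nat_lit 583706118939841765935136)) (.cons (.rf (nat_lit 627) (nat_lit 583705000956418643298336)) (.cons (.rf (nat_lit 633) (nat_lit 583706118939841765935136)) (.cons (.rf (nat_lit 635) (nat_lit 583706118939841765935136)) (.cons (.br (nat_lit 6) (nat_lit 1) (.cons (.rf (nat_lit 627) (nat_lit 583706118939838541662336)) (.cons (.rf (nat_lit 627) (nat_lit 583705000956415419025536)) (.cons (.rf (nat_lit 633) (nat_lit 583706118939838541662336)) (.cons (.rf (nat_lit 635) (nat_lit 583706118939838541662336)) (.cons (.kr (nat_lit 281474976710912) (nat_lit 4311744512) (nat_lit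 1) (nat_lit 0)) (.cons (.br (nat_lit 11) (nat_lit 1) (.cons (.rf (nat_lit 618) (nat_lit 546694737528169691460903)) (.cons (.rf (nat_lit 635) (nat_lit 546694737528169691460903)) (.cons (.rf (nat_lit 633) (nat_lit 546694737528169691460903)) (.cons (.rf (nat_lit 636) (nat_lit 677582165103132179601393696)) (.cons (.rf (nat_lit 636) (nat_lit 640105464695078671961229440)) .nil)))))) .nil))))))) .nil))))))) .nil))))))) .nil))))))) .nil)) .nil)) .nil))),
 (.br (nat_lit 0) (nat_lit 0) (.cons (.ev (nat_lit 1103806595329) (nat_lit 1)) (.cons (.br (nat_lit 7) (nat_lit 1) (.cons (.br (nat_lit 7) (nat_lit 1) (.cons (.br (nat_lit 8) (nat_lit 0) (.cons (.br (nat_lit 9) (nat_lit 0) (.cons (.rf (nat_lit 498) (nat_lit 10789088)) (.cons (.br (nat_lit 10) (nat_lit 1) (.cons (.br (nat_lit 11) (nat_lit 1) (.cons (.br (nat_lit 5) (nat_lit 0) (.cons (.rf (nat_lit 218) (nat_lit 12152180768)) (.cons (.rf (nat_lit 218) (nat_lit 11111993376)) (.cons (.br (nat_lit 10) (nat_lit 0) (.cons (.rf (nat_lit 218) (nat_lit 5748527136)) (.cons (.br (nat_lit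 11) (nat_lit 0) (.cons (.br (nat_lit 2) (nat_lit 1) (.cons (.rf (nat_lit 507) (nat_lit 493858305440582043680)) (.cons (.rf (nat_lit 507) (nat_lit 493858305437357770880)) (.cons (.rf (nat_lit 514) (nat_lit 493858305440582043680)) (.cons (.rf (nat_lit 514) (nat_lit 493823368458609461280)) (.cons (.ev (nat_lit 79538856449977354885481431041) (nat_lit 1)) (.cons (.br (nat_lit 12) (nat_lit 1) (.cons (.rf (nat_lit 514) (nat_lit 2451298683672867149)) (.cons (.rf (nat_lit 514) (nat_lit 2346487737755119949)) (.cons (.rf (nat_lit 507) (nat_lit 2451298683672867149)) (.cons (.rf (nat_lit 507) (nat_lit 2451298682598109549)) (.cons (.br (nat_lit 14) (nat_lit 1) (.cons (.ev (nat_lit 20441176622616056232726782542081) (nat_lit 2)) (.cons (.ev (nat_lit 20441176622616056795668112474881) (nat_lit 2)) (.cons (.ev (nat_lit 20283339267643919622826887348481) (nat_lit 2)) (.cons (.ev (nat_lit 20282722724883755639539658522881) (nat_lit 2)) (.cons (.br (nat_lit 3) (nat_lit 1) (.cons (.rf (nat_lit 516) (nat_lit 583706118939841765935136)) (.cons (.rf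 (nat_lit 518) (nat_lit 583706118939841765935136)) (.cons (.rf (nat_lit 518) (nat_lit 583706084002859793352736)) (.cons (.rf (nat_lit 519) (nat_lit 583706118939841765935136)) (.cons (.br (nat_lit 6) (nat_lit 1) (.cons (.rf (nat_lit 518) (nat_lit 583706118939838541662336)) (.cons (.rf (nat_lit 518) (nat_lit 583706084002856569079936)) (.cons (.rf (nat_lit 519) (nat_lit 583706118939838541662336)) (.cons (.kr (nat_lit 281474976710912) (nat_lit 4311744512) (nat_lit 1) (nat_lit 0)) (.cons (.br (nat_lit 8) (nat_lit 1) (.cons (.rf (nat_lit 516) (nat_lit 583214711933084856758605)) (.cons (.rf (nat_lit 519) (nat_lit 583214711933084856758605)) (.cons (.ev (nat_lit 20520095300175623285785816531201) (nat_lit 2)) (.cons (.ev (nat_lit 20520095300175623567256481497601) (nat_lit 2)) .nil))))) .nil)))))) .nil)))))) .nil)))))) (.cons (.br (nat_lit 14) (nat_lit 1) (.cons (.rf (nat_lit 522) (nat_lit 583706118939841765935136)) (.cons (.rf (nat_lit 522) (nat_lit 583706118939838541662336)) (.cons (.ev (nat_lit 20283339267643919622826887348481)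 (nat_lit 2)) (.cons (.ev (nat_lit 20282722724883755639539658522881) (nat_lit 2)) (.cons (.rf (nat_lit 528) (nat_lit 583706118939841765935136)) (.cons (.br (nat_lit 14) (nat_lit 1) (.cons (.rf (nat_lit 522) (nat_lit 583706118939841765935136)) (.cons (.rf (nat_lit 522) (nat_lit 583706118939838541662336)) (.cons (.ev (nat_lit 20283339267643919622826887348481) (nat_lit 2)) (.cons (.ev (nat_lit 20282722724883755639539658522881) (nat_lit 2)) (.cons (.rf (nat_lit 528) (nat_lit 583706118939841765935136)) (.cons (.br (nat_lit 15) (nat_lit 1) (.cons (.ev (nat_lit 20441176622616056232726782542081) (nat_lit 2)) (.cons (.ev (nat_lit 20441176622616056795668112474881) (nat_lit 2)) (.cons (.rf (nat_lit 522) (nat_lit 546616371690845106352461)) (.cons (.rf (nat_lit 522) (nat_lit 546616371690844031594861)) (.cons (.rf (nat_lit 529) (nat_lit 677582165103132179601393696)) (.cons (.rf (nat_lit 529) (nat_lit 640105464695078675185502240)) .nil))))))) .nil))))))) .nil))))))) .nil))))))) .nil))))))) .nil)) .nil))) .nil)))) .nil)) .nil)) .nil)))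 .nil)) .nil)) .nil)) (.cons (.br (nat_lit 5) (nat_lit 0) (.cons (.br (nat_lit 7) (nat_lit 0) (.cons (.br (nat_lit 8) (nat_lit 1) (.cons (.br (nat_lit 8) (nat_lit 1) (.cons (.br (nat_lit 9) (nat_lit 0) (.cons (.br (nat_lit 11) (nat_lit 0) (.cons (.br (nat_lit 10) (nat_lit 0) (.cons (.rf (nat_lit 498) (nat_lit 11871495)) (.cons (.br (nat_lit 11) (nat_lit 1) (.cons (.br (nat_lit 12) (nat_lit 1) (.cons (.br (nat_lit 2) (nat_lit 1) (.cons (.ev (nat_lit 1103823372289) (nat_lit 1)) (.cons (.ev (nat_lit 282574488338689) (nat_lit 1)) (.cons (.ev (nat_lit 80156617599140665917714858241) (nat_lit 2)) (.cons (.ev (nat_lit 80156617562391290767938290435) (nat_lit 2)) (.cons (.br (nat_lit 3) (nat_lit 1) (.cons (.zr (nat_lit 40564819207321787597465770262531) (nat_lit 79537647524158303210588602624) (nat_lit 8) (nat_lit 7)) (.cons (.ev (nat_lit 20361637766184453563208559493376) (nat_lit 1)) (.cons (.ev (nat_lit 20282719088680010570683740324096) (nat_lit 1)) (.cons (.br (nat_lit 6) (nat_lit 1) (.cons (.ev (nat_lit 20282719088661492051590464405761)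 (nat_lit 1)) (.cons (.ev (nat_lit 20361637766165935044115283575041) (nat_lit 1)) (.cons (.kr (nat_lit 281474976710912) (nat_lit 4311744512) (nat_lit 1) (nat_lit 0)) (.cons (.br (nat_lit 9) (nat_lit 1) (.cons (.zr (nat_lit 238612942590919964855514432256) (nat_lit 81129640841903053894085179998209) (nat_lit 8) (nat_lit 0)) (.cons (.rf (nat_lit 532) (nat_lit 583706118939841765935136)) (.cons (.rf (nat_lit 532) (nat_lit 547107778697598791256192)) (.cons (.br (nat_lit 10) (nat_lit 1) (.cons (.rf (nat_lit 532) (nat_lit 583705000956418643298336)) (.cons (.rf (nat_lit 532) (nat_lit 547106660714175668619392)) (.cons (.br (nat_lit 16) (nat_lit 1) (.cons (.ev (nat_lit 1361129467763298783359438826419584894727) (nat_lit 3)) (.cons (.ev (nat_lit 1361129467763298783359439952336604496647) (nat_lit 3)) (.cons (.br (nat_lit 14) (nat_lit 1) (.cons (.rf (nat_lit 533) (nat_lit 661701330784089001789472)) (.cons (.br (nat_lit 14) (nat_lit 1) (.cons (.rf (nat_lit 533) (nat_lit 661701330784089001789472)) .nil)) .nil))) .nil)))) (.cons (.br (nat_lit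 14) (nat_lit 1) (.cons (.rf (nat_lit 535) (nat_lit 677582165103132179601393696)) (.cons (.rf (nat_lit 537) (nat_lit 677582165103132179601393696)) (.cons (.rf (nat_lit 537) (nat_lit 640105463577095252062865440)) .nil)))) .nil))))) .nil))))) .nil))))) .nil))))) (.cons (.br (nat_lit 13) (nat_lit 1) (.cons (.rf (nat_lit 546) (nat_lit 17022140995484340291616)) (.cons (.rf (nat_lit 546) (nat_lit 17022140995481116018816)) (.cons (.kr (nat_lit 309485009821345068724781056) (nat_lit 20282409603651670423947251286016) (nat_lit 11) (nat_lit 0)) (.cons (.kr (nat_lit 79228162514264337593543950336) (nat_lit 20282409603651670423947251286016) (nat_lit 12) (nat_lit 0)) (.cons (.ev (nat_lit 40644356854882838823674767868161) (nat_lit 2)) (.cons (.br (nat_lit 3) (nat_lit 1) (.cons (.br (nat_lit 9) (nat_lit 1) (.cons (.rf (nat_lit 47) (nat_lit 472193315)) (.cons (.rf (nat_lit 547) (nat_lit 583706118939841765935136)) (.cons (.rf (nat_lit 548) (nat_lit 583706118939841765935136)) (.cons (.br (nat_lit 10) (nat_lit 1) (.cons (.rf (nat_lit 547) (nat_lit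 583705000956418643298336)) (.cons (.rf (nat_lit 561) (nat_lit 621547046118251221592492)) (.cons (.br (nat_lit 16) (nat_lit 1) (.cons (.rf (nat_lit 68) (nat_lit 16991329261859)) (.cons (.rf (nat_lit 68) (nat_lit 15925819808035)) (.cons (.br (nat_lit 14) (nat_lit 1) (.cons (.rf (nat_lit 549) (nat_lit 21174442659472880612543553)) (.cons (.br (nat_lit 14) (nat_lit 1) (.cons (.rf (nat_lit 549) (nat_lit 21174442659472880612543553)) .nil)) .nil))) .nil)))) (.cons (.br (nat_lit 14) (nat_lit 1) (.cons (.rf (nat_lit 551) (nat_lit 677582165103132179601393696)) (.cons (.rf (nat_lit 552) (nat_lit 677582165103132179601393696)) (.cons (.rf (nat_lit 552) (nat_lit 640105463577095252062865440)) .nil)))) .nil))))) .nil))))) (.cons (.rf (nat_lit 559) (nat_lit 583706118939841765935136)) (.cons (.rf (nat_lit 559) (nat_lit 583705000956418643298336)) (.cons (.rf (nat_lit 566) (nat_lit 583706118939841765935136)) (.cons (.rf (nat_lit 572) (nat_lit 583706118939841765935136)) (.cons (.br (nat_lit 6) (nat_lit 1) (.cons (.rf (nat_lit 559) (nat_lit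 583706118939838541662336)) (.cons (.rf (nat_lit 559) (nat_lit 583705000956415419025536)) (.cons (.rf (nat_lit 566) (nat_lit 583706118939838541662336)) (.cons (.rf (nat_lit 572) (nat_lit 583706118939838541662336)) (.cons (.kr (nat_lit 281474976710912) (nat_lit 4311744512) (nat_lit 1) (nat_lit 0)) (.cons (.br (nat_lit 9) (nat_lit 1) (.cons (.br (nat_lit 14) (nat_lit 1) (.cons (.rf (nat_lit 574) (nat_lit 677582165103132179601393696)) (.cons (.rf (nat_lit 577) (nat_lit 677582165103132179601393696)) (.cons (.rf (nat_lit 577) (nat_lit 640105464695078671961229440)) .nil)))) (.cons (.rf (nat_lit 581) (nat_lit 677582165103132179601393696)) (.cons (.rf (nat_lit 583) (nat_lit 677582165103132179601393696)) (.cons (.rf (nat_lit 586) (nat_lit 677582165103132179601393696)) (.cons (.rf (nat_lit 586) (nat_lit 640105464695078671961229440)) .nil)))))) .nil))))))) .nil))))))) .nil))))))) .nil))))))) .nil)) .nil)) .nil))) .nil)) .nil)) .nil)) .nil)) .nil)) (.cons (.br (nat_lit 7) (nat_lit 0) (.cons (.br (nat_lit 7) (nat_lit 0) (.cons (.br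 (nat_lit 8) (nat_lit 1) (.cons (.br (nat_lit 8) (nat_lit 1) (.cons (.br (nat_lit 11) (nat_lit 0) (.cons (.rf (nat_lit 637) (nat_lit 14242959524133701664)) (.cons (.rf (nat_lit 637) (nat_lit 14241868808598947872)) .nil))) .nil)) .nil)) .nil)) .nil)) .nil))) .nil))))]

theorem c27 : chkAll C T R L27 (nat_lit 623) = true := by decide +kernel

theorem l27 : (nat_lit 623) + L27.length = (nat_lit 639) := by decide +kernel

/-- part of the certificates -/
def L28 : List Prf := [(.br (nat_lit 15) (nat_lit 1) (.cons (.br (nat_lit 16) (nat_lit 1) (.cons (.ev (nat_lit 87112291124136334557632497552367886073857) (nat_lit 1)) .nil)) .nil)),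
 (.br (nat_lit 17) (nat_lit 1) (.cons (.ev (nat_lit 174224571883803216018168448695710978671363) (nat_lit 2)) (.cons (.ev (nat_lit 174224571883961669915900749291088502718723) (nat_lit 2)) .nil))),
 (.br (nat_lit 6) (nat_lit 1) (.cons (.ev (nat_lit 18447026652492857601) (nat_lit 1)) (.cons (.br (nat_lit 8) (nat_lit 1) (.cons (.zr (nat_lit 60847228811028799374036532461568) (nat_lit 313121232085213393383850241) (nat_lit 8) (nat_lit 5)) (.cons (.rf (nat_lit 47) (nat_lit 478448834)) .nil))) (.cons (.br (nat_lit 8) (nat_lit 1) (.cons (.zr (nat_lit 60847228810991977380533231419392) (nat_lit 310703380373926540996510465) (nat_lit 8) (nat_lit 5)) (.cons (.rf (nat_lit 47) (nat_lit 478547138)) .nil))) (.cons (.br (nat_lit 9) (nat_lit 1) (.cons (.rf (nat_lit 47) (nat_lit 476351746)) (.cons (.ev (nat_lit 79228167236630821567012602113) (nat_lit 1)) (.cons (.ev (nat_lit 20282722724883756200290588688641) (nat_lit 2)) (.cons (.br (nat_lit 12) (nat_lit 1) (.cons (.rf (nat_lit 47) (nat_lit 476450050)) (.cons (.ev (nat_lit 20441176622616056795668112474881)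 (nat_lit 2)) (.cons (.kr (nat_lit 1213648186097498819920128) (nat_lit 79228162514336395187581943808) (nat_lit 1) (nat_lit 0)) (.cons (.br (nat_lit 8) (nat_lit 1) (.cons (.br (nat_lit 14) (nat_lit 1) (.cons (.ev (nat_lit 10404876444649242437554978511258371) (nat_lit 3)) (.cons (.ev (nat_lit 10405351806342439339341111082878211) (nat_lit 3)) (.cons (.br (nat_lit 15) (nat_lit 1) (.cons (.rf (nat_lit 639) (nat_lit 677582165103132179601393696)) (.cons (.br (nat_lit 15) (nat_lit 1) (.cons (.rf (nat_lit 639) (nat_lit 677582165103132179601393696)) .nil)) .nil))) .nil)))) (.cons (.rf (nat_lit 588) (nat_lit 19423606651904669681761)) (.cons (.rf (nat_lit 561) (nat_lit 583809658729159061774730)) (.cons (.br (nat_lit 14) (nat_lit 1) (.cons (.br (nat_lit 14) (nat_lit 1) (.cons (.ev (nat_lit 5192376087910990151304657724506368) (nat_lit 1)) (.cons (.rf (nat_lit 640) (nat_lit 677582165103132179601393696)) .nil))) (.cons (.br (nat_lit 14) (nat_lit 1) (.cons (.ev (nat_lit 5192376087910990151304657724506368) (nat_lit 1)) (.cons (.rf (nat_lit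 640) (nat_lit 677582165103132179601393696)) .nil))) (.cons (.rf (nat_lit 640) (nat_lit 677582165103132179601393696)) .nil)))) .nil))))) .nil))))) .nil))))) .nil))))),
 (.br (nat_lit 12) (nat_lit 1) (.cons (.ev (nat_lit 5212658806999670089537376223232257) (nat_lit 1)) (.cons (.br (nat_lit 14) (nat_lit 1) (.cons (.ev (nat_lit 5192376090338286452008309831631617) (nat_lit 2)) (.cons (.rf (nat_lit 40) (nat_lit 18014684682498)) .nil))) (.cons (.br (nat_lit 14) (nat_lit 1) (.cons (.rf (nat_lit 68) (nat_lit 18123020605698)) (.cons (.ev (nat_lit 5253382081323094586470286403567616) (nat_lit 2)) (.cons (.br (nat_lit 15) (nat_lit 1) (.cons (.br (nat_lit 15) (nat_lit 1) (.cons (.ev (nat_lit 1334440654590706598726984634124533760) (nat_lit 1)) .nil)) (.cons (.br (nat_lit 15) (nat_lit 1) (.cons (.ev (nat_lit 1334440654590706598726984634124533760) (nat_lit 1)) .nil)) .nil))) .nil)))) .nil)))),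
 (.br (nat_lit 12) (nat_lit 1) (.cons (.rf (nat_lit 642) (nat_lit 583221747797249870633133)) (.cons (.ev (nat_lit 1329228075323772341327907123294634240) (nat_lit 1)) (.cons (.br (nat_lit 15) (nat_lit 1) (.cons (.rf (nat_lit 68) (nat_lit 18089740867682)) (.cons (.ev (nat_lit 1329289081320811204847513816663065344) (nat_lit 2)) (.cons (.br (nat_lit 14) (nat_lit 1) (.cons (.br (nat_lit 14) (nat_lit 1) (.cons (.ev (nat_lit 1334440654590706598726984634124533760) (nat_lit 1)) .nil)) (.cons (.br (nat_lit 14) (nat_lit 1) (.cons (.ev (nat_lit 1334440654590706598726984634124533760) (nat_lit 1)) .nil)) .nil))) .nil)))) .nil)))),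
 (.br (nat_lit 12) (nat_lit 1) (.cons (.br (nat_lit 13) (nat_lit 1) (.cons (.kr (nat_lit 20361947251175828165303069573376) (nat_lit 1334420292643450718979081630352736256) (nat_lit 1) (nat_lit 0)) .nil)) .nil)),
 (.br (nat_lit 15) (nat_lit 1) (.cons (.ev (nat_lit 680564754124599651847398905509190828803) (nat_lit 2)) (.cons (.br (nat_lit 16) (nat_lit 1) (.cons (.zr (nat_lit 13292280116305502905291034950080004103) (nat_lit 4083398889057337343409817488366141178112) (nat_lit 24) (nat_lit 7)) .nil)) .nil))),
 (.br (nat_lit 14) (nat_lit 1) (.cons (.rf (nat_lit 645) (nat_lit 677582165103132179601393696)) (.cons (.rf (nat_lit 645) (nat_lit 640104980323936083290200237)) .nil))),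
 (.br (nat_lit 14) (nat_lit 1) (.cons (.rf (nat_lit 646) (nat_lit 677582165103132179601393696)) (.cons (.br (nat_lit 15) (nat_lit 1) (.cons (.ev (nat_lit 680564754124599651847398905509190828803) (nat_lit 2)) (.cons (.ev (nat_lit 174224571883962288895328230893660256993539) (nat_lit 2)) .nil))) .nil))),
 (.br (nat_lit 9) (nat_lit 1) (.cons (.ev (nat_lit 313125954452261412056204032) (nat_lit 2)) (.cons (.rf (nat_lit 641) (nat_lit 486717630328575664352)) (.cons (.rf (nat_lit 641) (nat_lit 2346487736680362349)) (.cons (.br (nat_lit 3) (nat_lit 1) (.cons (.rf (nat_lit 47) (nat_lit 479467618)) (.cons (.rf (nat_lit 47) (nat_lit 479598690)) (.cons (.br (nat_lit 8) (nat_lit 1) (.cons (.ev (nat_lit 1208944266641277372596481) (nat_lit 1)) (.cons (.ev (nat_lit 10404877056337299321359758551679235) (nat_lit 2)) (.cons (.br (nat_lit 12) (nat_lit 1) (.cons (.ev (nat_lit 10405034896110122808409988704371459) (nat_lit 2)) (.cons (.br (nat_lit 14) (nat_lit 1) (.cons (.ev (nat_lit 20789630474953911797298196618807041) (nat_lit 3)) (.cons (.rf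 (nat_lit 40) (nat_lit 18014684846178)) .nil))) (.cons (.br (nat_lit 14) (nat_lit 1) (.cons (.rf (nat_lit 68) (nat_lit 18123025848418)) (.cons (.rf (nat_lit 68) (nat_lit 17057743935586)) (.cons (.rf (nat_lit 604) (nat_lit 661701188888819231000673)) .nil)))) .nil)))) .nil)))) (.cons (.br (nat_lit 8) (nat_lit 1) (.cons (.ev (nat_lit 1208944266641277372596481) (nat_lit 1)) (.cons (.rf (nat_lit 642) (nat_lit 583706118939841765935136)) (.cons (.rf (nat_lit 643) (nat_lit 583706118939841765935136)) (.cons (.br (nat_lit 12) (nat_lit 1) (.cons (.rf (nat_lit 642) (nat_lit 583221747797249870633133)) (.cons (.rf (nat_lit 643) (nat_lit 583221747797249870633133)) (.cons (.br (nat_lit 16) (nat_lit 1) (.cons (.rf (nat_lit 68) (nat_lit 16991001123074)) (.cons (.rf (nat_lit 68) (nat_lit 15926044268802)) (.cons (.br (nat_lit 14) (nat_lit 1) (.cons (.rf (nat_lit 644) (nat_lit 661701295917511241501761)) (.cons (.br (nat_lit 14) (nat_lit 1) (.cons (.rf (nat_lit 644) (nat_lit 661701295917511241501761)) .nil)) .nil))) .nil)))) (.cons (.br (nat_lit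 14) (nat_lit 1) (.cons (.rf (nat_lit 646) (nat_lit 677582165103132179601393696)) (.cons (.rf (nat_lit 647) (nat_lit 677582165103132179601393696)) (.cons (.rf (nat_lit 647) (nat_lit 640104980323936083290200237)) .nil)))) .nil))))) .nil))))) .nil))))) .nil))))),
 (.br (nat_lit 14) (nat_lit 1) (.cons (.ev (nat_lit 5212658497509937829650744320458753) (nat_lit 1)) (.cons (.rf (nat_lit 40) (nat_lit 18011463655522)) .nil))),
 (.br (nat_lit 9) (nat_lit 1) (.cons (.zr (nat_lit 20440867137606091897257458664705) (nat_lit 309494454554311920478978048) (nat_lit 8) (nat_lit 0)) (.cons (.zr (nat_lit 10445440947089536160568007578354433) (nat_lit 309494454554314110878744576) (nat_lit 8) (nat_lit 0)) (.cons (.br (nat_lit 12) (nat_lit 1) (.cons (.ev (nat_lit 20441176622616056795668112474881) (nat_lit 2)) (.cons (.rf (nat_lit 649) (nat_lit 583706118939841765935136)) (.cons (.br (nat_lit 14) (nat_lit 1) (.cons (.rf (nat_lit 68) (nat_lit 18123026800738)) (.cons (.ev (nat_lit 5212658497509937829650744320458753) (nat_lit 1)) (.cons (.br (nat_lit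 15) (nat_lit 1) (.cons (.br (nat_lit 15) (nat_lit 1) (.cons (.ev (nat_lit 1334420371872826862982773748501905665) (nat_lit 1)) .nil)) (.cons (.br (nat_lit 15) (nat_lit 1) (.cons (.ev (nat_lit 1334420371872826862982773748501905665) (nat_lit 1)) .nil)) .nil))) .nil)))) .nil)))) .nil)))),
 (.br (nat_lit 14) (nat_lit 1) (.cons (.br (nat_lit 15) (nat_lit 1) (.cons (.ev (nat_lit 1334420372181102946984504188035203328) (nat_lit 1)) .nil)) .nil)),
 (.br (nat_lit 8) (nat_lit 1) (.cons (.rf (nat_lit 40) (nat_lit 16779847081058)) (.cons (.rf (nat_lit 68) (nat_lit 15922727591010)) (.cons (.br (nat_lit 14) (nat_lit 1) (.cons (.rf (nat_lit 651) (nat_lit 19926519232773908561233952)) (.cons (.br (nat_lit 14) (nat_lit 1) (.cons (.rf (nat_lit 651) (nat_lit 19926519232773908561233952)) .nil)) .nil))) .nil)))),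
 (.br (nat_lit 14) (nat_lit 1) (.cons (.zr (nat_lit 10445599402205639013180807908950273) (nat_lit 929673436910104821603762176) (nat_lit 8) (nat_lit 0)) (.cons (.ev (nat_lit 5212579577623489192639680848396545) (nat_lit 1)) (.cons (.rf (nat_lit 652) (nat_lit 622703726024183534159904)) .nil)))),
 (.br (nat_lit 14) (nat_lit 1) (.cons (.br (nat_lit 15) (nat_lit 1) (.cons (.ev (nat_lit 344285648081590331541498502079171330816) (nat_lit 2)) .nil)) .nil)),
 (.br (nat_lit 14) (nat_lit 1) (.cons (.ev (nat_lit 10405034893692308207347015836893443) (nat_lit 2)) (.cons (.br (nat_lit 15) (nat_lit 1) (.cons (.br (nat_lit 16) (nat_lit 1) (.cons (.zr (nat_lit 691198780914677629003547314021728259328) (nat_lit 31154574980259231309391949376126977) (nat_lit 24) (nat_lit 0)) .nil)) (.cons (.zr (nat_lit 174224582268396929451564547838376788754435) (nat_lit 2658455991571050116432815033050727168) (nat_lit 8) (nat_lit 13)) .nil))) .nil))),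
 (.br (nat_lit 14) (nat_lit 1) (.cons (.ev (nat_lit 10405034893692308207347015836893443) (nat_lit 2)) (.cons (.rf (nat_lit 536) (nat_lit 20003289930622970165857345)) .nil))),
 (.br (nat_lit 3) (nat_lit 1) (.cons (.rf (nat_lit 641) (nat_lit 9487162848686741677)) (.cons (.zr (nat_lit 40564820416229376635310086030080) (nat_lit 309489769081317185317634048) (nat_lit 8) (nat_lit 0)) (.cons (.br (nat_lit 6) (nat_lit 1) (.cons (.zr (nat_lit 60847228810991977380537526386688) (nat_lit 313121232013155795050955521) (nat_lit 8) (nat_lit 5)) (.cons (.rf (nat_lit 47) (nat_lit 476455010)) .nil))) (.cons (.br (nat_lit 6) (nat_lit 1) (.cons (.rf (nat_lit 47) (nat_lit 473211074)) (.cons (.ev (nat_lit 1208944266641277372596481) (nat_lit 1)) (.cons (.rf (nat_lit 650) (nat_lit 17022140995484340291616)) (.cons (.br (nat_lit 12) (nat_lit 1) (.cons (.rf (nat_lit 47) (nat_lit 473309474)) (.cons (.rf (nat_lit 653) (nat_lit 583706118939841765935136)) (.cons (.ev (nat_lit 20441176622616056795668112474881) (nat_lit 2)) (.cons (.br (nat_lit 9) (nat_lit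 1) (.cons (.br (nat_lit 14) (nat_lit 1) (.cons (.rf (nat_lit 68) (nat_lit 18123023753314)) (.cons (.rf (nat_lit 68) (nat_lit 17057676828770)) (.cons (.br (nat_lit 15) (nat_lit 1) (.cons (.rf (nat_lit 654) (nat_lit 21174442659472880612543553)) (.cons (.br (nat_lit 15) (nat_lit 1) (.cons (.rf (nat_lit 654) (nat_lit 21174442659472880612543553)) .nil)) .nil))) .nil)))) (.cons (.rf (nat_lit 653) (nat_lit 622658501748404332568800)) (.cons (.rf (nat_lit 650) (nat_lit 19376183561807156519136)) (.cons (.br (nat_lit 14) (nat_lit 1) (.cons (.rf (nat_lit 655) (nat_lit 677582165103132179601393696)) (.cons (.rf (nat_lit 656) (nat_lit 677582165103132179601393696)) (.cons (.br (nat_lit 14) (nat_lit 1) (.cons (.rf (nat_lit 655) (nat_lit 677582165103132179601393696)) (.cons (.rf (nat_lit 536) (nat_lit 20003289930622970165857345)) .nil))) .nil)))) .nil))))) .nil))))) .nil))))) .nil))))),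
 (.br (nat_lit 15) (nat_lit 1) (.cons (.br (nat_lit 16) (nat_lit 1) (.cons (.ev (nat_lit 87112291124136642828994060741239963189505) (nat_lit 1)) .nil)) .nil)),
 (.br (nat_lit 15) (nat_lit 1) (.cons (.rf (nat_lit 658) (nat_lit 677582165103132179601393696)) (.cons (.br (nat_lit 15) (nat_lit 1) (.cons (.rf (nat_lit 658) (nat_lit 677582165103132179601393696)) .nil)) .nil))),
 (.br (nat_lit 13) (nat_lit 1) (.cons (.br (nat_lit 14) (nat_lit 1) (.cons (.kr (nat_lit 340282387203657561588046086269334192384) (nat_lit 1334420292645868552243625508542152704) (nat_lit 1) (nat_lit 0)) .nil)) .nil)),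
 (.br (nat_lit 17) (nat_lit 1) (.cons (.ev (nat_lit 174224571883803216018168448695710978671363) (nat_lit 2)) (.cons (.ev (nat_lit 174224571883962291313216620058827869520643) (nat_lit 2)) .nil))),
 (.br (nat_lit 6) (nat_lit 1) (.cons (.rf (nat_lit 641) (nat_lit 9487162848686741677)) (.cons (.ev (nat_lit 18447026652492857601) (nat_lit 1)) (.cons (.rf (nat_lit 657) (nat_lit 9487162848686741677)) (.cons (.br (nat_lit 3) (nat_lit 1) (.cons (.rf (nat_lit 47) (nat_lit 476324962)) (.cons (.ev (nat_lit 79228167236630821567012602113) (nat_lit 1)) (.cons (.ev (nat_lit 20283339267607170812826121011969) (nat_lit 2)) (.cons (.br (nat_lit 12) (nat_lit 1) (.cons (.rf (nat_lit 47) (nat_lit 506864898)) (.cons (.ev (nat_lit 20441176622616056795668112474881) (nat_lit 2)) (.cons (.kr (nat_lit 79228162514264338693055643648) (nat_lit 309485009821345073036525568) (nat_lit 2) (nat_lit 0)) (.cons (.br (nat_lit 8) (nat_lit 1) (.cons (.br (nat_lit 14) (nat_lit 1) (.cons (.ev (nat_lit 10404877061191965852163115997069571) (nat_lit 3)) (.cons (.ev (nat_lit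 10405353049137071080885420269240579) (nat_lit 3)) (.cons (.rf (nat_lit 659) (nat_lit 677582165103132179601393696)) .nil)))) (.cons (.rf (nat_lit 596) (nat_lit 19423383505807419482407)) (.cons (.br (nat_lit 16) (nat_lit 1) (.cons (.rf (nat_lit 68) (nat_lit 16990997980418)) (.cons (.rf (nat_lit 68) (nat_lit 15925943608578)) (.cons (.br (nat_lit 14) (nat_lit 1) (.cons (.rf (nat_lit 660) (nat_lit 21174442659472880612543553)) (.cons (.br (nat_lit 14) (nat_lit 1) (.cons (.rf (nat_lit 660) (nat_lit 21174442659472880612543553)) .nil)) .nil))) .nil)))) (.cons (.br (nat_lit 14) (nat_lit 1) (.cons (.br (nat_lit 14) (nat_lit 1) (.cons (.ev (nat_lit 5192376087910990151304657724506368) (nat_lit 1)) (.cons (.rf (nat_lit 661) (nat_lit 677582165103132179601393696)) .nil))) (.cons (.br (nat_lit 14) (nat_lit 1) (.cons (.ev (nat_lit 5192376087910990151304657724506368) (nat_lit 1)) (.cons (.rf (nat_lit 661) (nat_lit 677582165103132179601393696)) .nil))) (.cons (.rf (nat_lit 661) (nat_lit 677582165103132179601393696)) .nil)))) .nil))))) .nil)))))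 .nil))))) .nil))))),
 (.br (nat_lit 9) (nat_lit 1) (.cons (.ev (nat_lit 5212579268143201665718788202496001) (nat_lit 1)) (.cons (.rf (nat_lit 119) (nat_lit 18080069893379)) (.cons (.br (nat_lit 14) (nat_lit 1) (.cons (.ev (nat_lit 5192376087910990151304657724506368) (nat_lit 1)) (.cons (.ev (nat_lit 5192297169233504082718237111943168) (nat_lit 1)) (.cons (.br (nat_lit 15) (nat_lit 1) (.cons (.ev (nat_lit 683223210433705929965490219195610432257) (nat_lit 3)) (.cons (.br (nat_lit 16) (nat_lit 1) (.cons (.zr (nat_lit 683223210274622172399544507782773343489) (nat_lit 20769187440202829078129908373389312) (nat_lit 8) (nat_lit 0)) .nil)) .nil))) .nil)))) (.cons (.br (nat_lit 14) (nat_lit 1) (.cons (.rf (nat_lit 130) (nat_lit 19113950296258)) (.cons (.br (nat_lit 15) (nat_lit 1) (.cons (.ev (nat_lit 683223210433705929928740283294937252097) (nat_lit 3)) (.cons (.br (nat_lit 16) (nat_lit 1) (.cons (.zr (nat_lit 683223210274622172362794571882066608897) (nat_lit 20769187440202829078129908339834880) (nat_lit 8) (nat_lit 0)) .nil))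 .nil))) (.cons (.ev (nat_lit 5192297169233504082718237111943168) (nat_lit 1)) .nil)))) .nil)))))]

theorem c28 : chkAll C T R L28 (nat_lit 639) = true := by decide +kernel

theorem l28 : (nat_lit 639) + L28.length = (nat_lit 664) := by decide +kernel

end Pool.Agent.H93.Neg.N18_6_4
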