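import Pool.Agent.H93.Neg.TabN18_6_4

/-!
Certificates.
-/

set_option autoImplicit false
set_option maxRecDepth 100000
set_option linter.all false

namespace Pool.Agent.H93.Neg.N18_6_4

/-- part of the certificates -/
def L29 : List Prf := [(.br (nat_lit 14) (nat_lit 1) (.cons (.rf (nat_lit 130) (nat_lit 19107546642626)) (.cons (.br (nat_lit 15) (nat_lit 1) (.cons (.ev (nat_lit 683223210433079715798768758124053791489) (nat_lit 3)) (.cons (.rf (nat_lit 563) (nat_lit 20003289930622970065098820)) .nil))) (.cons (.ev (nat_lit 5192297169233504082718237111943168) (nat_lit 1)) .nil)))),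
 (.br (nat_lit 12) (nat_lit 1) (.cons (.rf (nat_lit 662) (nat_lit 2346487736680362349)) (.cons (.rf (nat_lit 641) (nat_lit 2346487736680362349)) (.cons (.ev (nat_lit 20441176622616056795668112474881) (nat_lit 2)) (.cons (.kr (nat_lit 309485028268370617411043584) (nat_lit 79228162514336396287093571584) (nat_lit 1) (nat_lit 0)) (.cons (.br (nat_lit 3) (nat_lit 1) (.cons (.ev (nat_lit 20283339267607170812826121011969) (nat_lit 2)) (.cons (.ev (nat_lit 5212579578832415012254314318070017) (nat_lit 1)) (.cons (.rf (nat_lit 663) (nat_lit 19926519232773908561233952)) (.cons (.rf (nat_lit 663) (nat_lit 18754887973879644652935341)) (.cons (.br (nat_lit 9) (nat_lit 1) (.cons (.ev (nat_lit 5212579268143201665718788202496001) (nat_lit 1)) (.cons (.rf (nat_lit 664) (nat_lit 677582165103132179601393696)) (.cons (.rf (nat_lit 664) (nat_lit 676410533844237915693095085)) (.cons (.br (nat_lit 14) (nat_lit 1) (.cons (.ev (nat_lit 5192297169233504082718237111943168) (nat_lit 1)) (.cons (.ev (nat_lit 5192376087910990151304657724506368) (nat_lit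 1)) (.cons (.ev (nat_lit 522673725995438541071598568716060111930113) (nat_lit 3)) .nil)))) .nil))))) .nil)))))) .nil)))))),
 (.br (nat_lit 9) (nat_lit 1) (.cons (.rf (nat_lit 119) (nat_lit 18116581308514)) (.cons (.rf (nat_lit 119) (nat_lit 18076848667910)) (.cons (.br (nat_lit 14) (nat_lit 1) (.cons (.ev (nat_lit 2679245463581178776421918412623971075) (nat_lit 3)) (.cons (.ev (nat_lit 340287559297025165527633959495110033665) (nat_lit 1)) (.cons (.br (nat_lit 16) (nat_lit 1) (.cons (.ev (nat_lit 1369104856099639990633626282916585669891) (nat_lit 3)) (.cons (.ev (nat_lit 340287579500207815609306686022383304960) (nat_lit 1)) .nil))) .nil)))) (.cons (.br (nat_lit 14) (nat_lit 1) (.cons (.ev (nat_lit 2679245463581178776421918412623971075) (nat_lit 3)) (.cons (.br (nat_lit 16) (nat_lit 1) (.cons (.ev (nat_lit 2679245621418533748557969751988502787) (nat_lit 3)) (.cons (.ev (nat_lit 340287559218106488023190965866467426561) (nat_lit 1)) .nil))) (.cons (.br (nat_lit 15) (nat_lit 1) (.cons (.br (nat_lit 16) (nat_lit 1) (.cons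 (.ev (nat_lit 1369104856417790580729969017980954346755) (nat_lit 3)) .nil)) (.cons (.ev (nat_lit 87113615180038751860084114693242404995328) (nat_lit 1)) .nil))) .nil)))) .nil))))),
 (.br (nat_lit 14) (nat_lit 1) (.cons (.br (nat_lit 16) (nat_lit 1) (.cons (.ev (nat_lit 87113615180117978818394997956670457446400) (nat_lit 1)) .nil)) .nil)),
 (.br (nat_lit 9) (nat_lit 1) (.cons (.rf (nat_lit 119) (nat_lit 18083291086019)) (.cons (.rf (nat_lit 119) (nat_lit 15955880328387)) (.cons (.br (nat_lit 14) (nat_lit 1) (.cons (.rf (nat_lit 667) (nat_lit 677582165103132179601393696)) (.cons (.br (nat_lit 14) (nat_lit 1) (.cons (.rf (nat_lit 667) (nat_lit 677582165103132179601393696)) .nil)) .nil))) .nil)))),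
 (.br (nat_lit 9) (nat_lit 1) (.cons (.br (nat_lit 14) (nat_lit 1) (.cons (.ev (nat_lit 2679245462348093330169154128222488323) (nat_lit 3)) (.cons (.ev (nat_lit 340287559297025165527633959495110033665) (nat_lit 1)) (.cons (.br (nat_lit 16) (nat_lit 1) (.cons (.ev (nat_lit 1369104856100882747486435964268744540419) (nat_lit 3)) (.cons (.ev (nat_lit 340287579500207815609306686022383304960) (nat_lit 1)) .nil))) .nil)))) (.cons (.rf (nat_lit 119) (nat_lit 15955874069766)) (.cons (.rf (nat_lit 119) (nat_lit 15917222609187)) (.cons (.br (nat_lit 15) (nat_lit 1) (.cons (.br (nat_lit 14) (nat_lit 1) (.cons (.ev (nat_lit 1369104855943045392514299912929380008707) (nat_lit 3)) (.cons (.ev (nat_lit 2679245780498683426511889158230902531) (nat_lit 3)) .nil))) (.cons (.ev (nat_lit 1369104856100882747486435964268744540419) (nat_lit 3)) (.cons (.br (nat_lit 17) (nat_lit 1) (.cons (.ev (nat_lit 87113615180117670537607076770009460047872) (nat_lit 1)) (.cons (.ev (nat_lit 87113615180038751860084114693242404995328) (nat_lit 1)) .nil))) .nil))))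 .nil))))),
 (.br (nat_lit 14) (nat_lit 1) (.cons (.ev (nat_lit 2679245780498683426511889158230902531) (nat_lit 3)) (.cons (.ev (nat_lit 348451822972504567765198520056741791926019) (nat_lit 3)) .nil))),
 (.br (nat_lit 12) (nat_lit 1) (.cons (.rf (nat_lit 662) (nat_lit 2346487736680362349)) (.cons (.rf (nat_lit 641) (nat_lit 2346487736680362349)) (.cons (.ev (nat_lit 20520095300175623567256481497601) (nat_lit 2)) (.cons (.ev (nat_lit 20441176622616056795668112474881) (nat_lit 2)) (.cons (.br (nat_lit 3) (nat_lit 1) (.cons (.br (nat_lit 15) (nat_lit 1) (.cons (.rf (nat_lit 68) (nat_lit 18089733530819)) (.cons (.rf (nat_lit 68) (nat_lit 15959104693443)) (.cons (.rf (nat_lit 659) (nat_lit 677545566762889939818449952)) .nil)))) (.cons (.rf (nat_lit 666) (nat_lit 19926519232773908561233952)) (.cons (.rf (nat_lit 668) (nat_lit 19926519232773908561233952)) (.cons (.rf (nat_lit 669) (nat_lit 19926519232773908561233952)) (.cons (.br (nat_lit 9) (nat_lit 1) (.cons (.rf (nat_lit 669) (nat_lit 17510537264968381132747117)) (.cons (.rf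 (nat_lit 668) (nat_lit 17510537264968381132747117)) (.cons (.rf (nat_lit 666) (nat_lit 17510537264968381132747117)) (.cons (.br (nat_lit 15) (nat_lit 1) (.cons (.rf (nat_lit 670) (nat_lit 677582165103132179601393696)) (.cons (.rf (nat_lit 670) (nat_lit 675166183135326652172906861)) (.cons (.ev (nat_lit 87113615180038441170889287243062348611840) (nat_lit 1)) .nil)))) .nil))))) .nil)))))) .nil)))))),
 (.br (nat_lit 14) (nat_lit 1) (.cons (.br (nat_lit 15) (nat_lit 1) (.cons (.ev (nat_lit 341611594916723379336350473185614888961) (nat_lit 1)) (.cons (.ev (nat_lit 2668841060966575218518871499881055490) (nat_lit 3)) .nil))) (.cons (.br (nat_lit 15) (nat_lit 1) (.cons (.ev (nat_lit 2668841060966575218518871499881055490) (nat_lit 3)) (.cons (.ev (nat_lit 87112291124057414671183715860967361347841) (nat_lit 1)) .nil))) .nil))),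
 (.br (nat_lit 14) (nat_lit 1) (.cons (.rf (nat_lit 672) (nat_lit 677582165103132179601393696)) (.cons (.br (nat_lit 15) (nat_lit 1) (.cons (.ev (nat_lit 680575118594361020305507942663721059072) (nat_lit 2)) (.cons (.ev (nat_lit 87112291144339824270131538885191986577408) (nat_lit 1)) .nil))) .nil))),
 (.br (nat_lit 13) (nat_lit 1) (.cons (.br (nat_lit 14) (nat_lit 1) (.cons (.kr (nat_lit 5192376396182351786271852147507456) (nat_lit 1329248278194519543020975081274802176) (nat_lit 1) (nat_lit 0)) .nil)) .nil)),
 (.br (nat_lit 14) (nat_lit 1) (.cons (.kr (nat_lit 5192376396182351786271852147507456) (nat_lit 1329248278194519543020975081274802176) (nat_lit 1) (nat_lit 0)) .nil)),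
 (.br (nat_lit 9) (nat_lit 1) (.cons (.br (nat_lit 15) (nat_lit 1) (.cons (.rf (nat_lit 674) (nat_lit 661701295917511241501761)) (.cons (.br (nat_lit 15) (nat_lit 1) (.cons (.rf (nat_lit 674) (nat_lit 661701295917511241501761)) .nil)) .nil))) (.cons (.br (nat_lit 14) (nat_lit 1) (.cons (.rf (nat_lit 130) (nat_lit 18011256240226)) (.cons (.br (nat_lit 15) (nat_lit 1) (.cons (.ev (nat_lit 341611594916723379336350473185614888961) (nat_lit 1)) (.cons (.br (nat_lit 16) (nat_lit 1) (.cons (.ev (nat_lit 685912820048582362113552450144761676549) (nat_lit 3)) .nil)) .nil))) (.cons (.br (nat_lit 15) (nat_lit 1) (.cons (.rf (nat_lit 563) (nat_lit 21174436818374642178853953)) (.cons (.ev (nat_lit 87112291144339515998751456613172907081728) (nat_lit 1)) .nil))) .nil)))) (.cons (.br (nat_lit 14) (nat_lit 1) (.cons (.br (nat_lit 15) (nat_lit 1) (.cons (.ev (nat_lit 341611594916723379336350473185614888961) (nat_lit 1)) (.cons (.rf (nat_lit 675) (nat_lit 661701295917511241501761)) .nil))) (.cons (.rf (nat_lit 130) (nat_lit 16913890031714))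 (.cons (.br (nat_lit 17) (nat_lit 1) (.cons (.rf (nat_lit 675) (nat_lit 586217070549245786983489)) (.cons (.ev (nat_lit 87112291144339515998751456613172907081728) (nat_lit 1)) .nil))) .nil)))) (.cons (.br (nat_lit 14) (nat_lit 1) (.cons (.br (nat_lit 17) (nat_lit 1) (.cons (.ev (nat_lit 174232568021442583120046441682355481609477) (nat_lit 3)) (.cons (.ev (nat_lit 87112291124057414671202234944114397282305) (nat_lit 1)) .nil))) (.cons (.br (nat_lit 17) (nat_lit 1) (.cons (.ev (nat_lit 87112291144339515998769831581123277226240) (nat_lit 1)) (.cons (.ev (nat_lit 350490848333601511078436914236203928519429) (nat_lit 3)) .nil))) (.cons (.ev (nat_lit 87112291124136333348688158854596003954945) (nat_lit 1)) .nil)))) .nil))))),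
 (.br (nat_lit 9) (nat_lit 1) (.cons (.br (nat_lit 14) (nat_lit 1) (.cons (.rf (nat_lit 130) (nat_lit 18011217443106)) (.cons (.br (nat_lit 15) (nat_lit 1) (.cons (.ev (nat_lit 341611594917034077994285857063888224513) (nat_lit 1)) (.cons (.br (nat_lit 16) (nat_lit 1) (.cons (.ev (nat_lit 685912820047965819390137842041635603717) (nat_lit 3)) .nil)) .nil))) (.cons (.br (nat_lit 15) (nat_lit 1) (.cons (.br (nat_lit 16) (nat_lit 1) (.cons (.zr (nat_lit 5327316859575821808364059362152415237) (nat_lit 680564733841878145334267903923412010240) (nat_lit 8) (nat_lit 13)) .nil)) (.cons (.ev (nat_lit 87112291144339824270113019802044984197376) (nat_lit 1)) .nil))) .nil)))) (.cons (.rf (nat_lit 676) (nat_lit 640068859214161323428716768)) (.cons (.br (nat_lit 15) (nat_lit 1) (.cons (.br (nat_lit 16) (nat_lit 1) (.cons (.ev (nat_lit 685912819890128464344504170666378134277) (nat_lit 3)) (.cons (.ev (nat_lit 341611615278670635234473061569563525120) (nat_lit 1)) .nil))) (.cons (.ev (nat_lit 341611615199132987728762347961454690560) (nat_lit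 1)) (.cons (.br (nat_lit 16) (nat_lit 1) (.cons (.ev (nat_lit 341611594995952755498728850683940897025) (nat_lit 1)) (.cons (.ev (nat_lit 524037503534838300695601136571043792552197) (nat_lit 3)) .nil))) .nil)))) (.cons (.rf (nat_lit 676) (nat_lit 560357189795420555148833133)) .nil))))),
 (.br (nat_lit 5) (nat_lit 0) (.cons (.rf (nat_lit 363) (nat_lit 389136224288)) (.cons (.br (nat_lit 11) (nat_lit 0) (.cons (.br (nat_lit 2) (nat_lit 1) (.cons (.rf (nat_lit 641) (nat_lit 493858305440582043680)) (.cons (.rf (nat_lit 648) (nat_lit 493858305440582043680)) (.cons (.rf (nat_lit 657) (nat_lit 493858305440582043680)) (.cons (.rf (nat_lit 662) (nat_lit 493858305440582043680)) (.cons (.ev (nat_lit 79538856449977354885481431041) (nat_lit 1)) (.cons (.br (nat_lit 8) (nat_lit 1) (.cons (.rf (nat_lit 662) (nat_lit 486717630328575664352)) (.cons (.ev (nat_lit 18447026652492857601) (nat_lit 1)) (.cons (.rf (nat_lit 641) (nat_lit 486717630328575664352)) (.cons (.rf (nat_lit 648) (nat_lit 486717630328575664352)) (.cons (.ev (nat_lit 20283339267643919622826887348481)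 (nat_lit 2)) (.cons (.br (nat_lit 6) (nat_lit 1) (.cons (.rf (nat_lit 641) (nat_lit 9487162848686741677)) (.cons (.rf (nat_lit 662) (nat_lit 9487162848686741677)) (.cons (.rf (nat_lit 657) (nat_lit 9487162848686741677)) (.cons (.rf (nat_lit 665) (nat_lit 583706118939841765935136)) (.cons (.rf (nat_lit 671) (nat_lit 583706118939841765935136)) (.cons (.br (nat_lit 12) (nat_lit 1) (.cons (.rf (nat_lit 662) (nat_lit 2346487736680362349)) (.cons (.rf (nat_lit 641) (nat_lit 2346487736680362349)) (.cons (.rf (nat_lit 671) (nat_lit 547100638022490009149664)) (.cons (.rf (nat_lit 665) (nat_lit 547100638022490009149664)) (.cons (.ev (nat_lit 20441176622616056795668112474881) (nat_lit 2)) (.cons (.br (nat_lit 3) (nat_lit 1) (.cons (.br (nat_lit 14) (nat_lit 1) (.cons (.rf (nat_lit 672) (nat_lit 677582165103132179601393696)) (.cons (.rf (nat_lit 673) (nat_lit 677582165103132179601393696)) (.cons (.br (nat_lit 14) (nat_lit 1) (.cons (.rf (nat_lit 672) (nat_lit 677582165103132179601393696)) (.cons (.rf (nat_lit 673) (nat_lit 677582165103132179601393696))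 .nil))) .nil)))) (.cons (.rf (nat_lit 676) (nat_lit 677582165103132179601393696)) (.cons (.rf (nat_lit 677) (nat_lit 677582165103132179601393696)) (.cons (.rf (nat_lit 676) (nat_lit 597870495684391411321510061)) (.cons (.rf (nat_lit 677) (nat_lit 597870495684391411321510061)) .nil)))))) .nil))))))) .nil))))))) .nil))))))) .nil))))))) .nil)) .nil))),
 (.br (nat_lit 7) (nat_lit 1) (.cons (.br (nat_lit 7) (nat_lit 1) (.cons (.br (nat_lit 8) (nat_lit 0) (.cons (.br (nat_lit 9) (nat_lit 0) (.cons (.rf (nat_lit 498) (nat_lit 10789088)) (.cons (.br (nat_lit 10) (nat_lit 1) (.cons (.br (nat_lit 11) (nat_lit 1) (.cons (.br (nat_lit 0) (nat_lit 0) (.cons (.rf (nat_lit 638) (nat_lit 6614517792)) (.cons (.rf (nat_lit 638) (nat_lit 6581980192)) (.cons (.rf (nat_lit 638) (nat_lit 13264789728)) (.cons (.rf (nat_lit 638) (nat_lit 13232252128)) (.cons (.br (nat_lit 4) (nat_lit 0) (.cons (.br (nat_lit 10) (nat_lit 0) (.cons (.rf (nat_lit 363) (nat_lit 383772758048)) (.cons (.br (nat_lit 11) (nat_lit 0) (.cons (.rf (nat_lit 638) (nat_lit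 9910366541)) .nil)) .nil))) (.cons (.rf (nat_lit 678) (nat_lit 493858305440582043680)) (.cons (.rf (nat_lit 678) (nat_lit 493823368458609461280)) (.cons (.br (nat_lit 5) (nat_lit 0) (.cons (.rf (nat_lit 678) (nat_lit 493858305440549506080)) (.cons (.rf (nat_lit 678) (nat_lit 493823368458576923680)) (.cons (.rf (nat_lit 638) (nat_lit 3260094605)) .nil)))) .nil))))) .nil)))))) .nil)) .nil)) .nil))) .nil)) .nil)) .nil)),
 (.br (nat_lit 9) (nat_lit 1) (.cons (.br (nat_lit 9) (nat_lit 1) (.cons (.br (nat_lit 11) (nat_lit 0) (.cons (.br (nat_lit 10) (nat_lit 1) (.cons (.rf (nat_lit 498) (nat_lit 9841992)) .nil)) .nil)) .nil)) .nil)),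
 (.br (nat_lit 8) (nat_lit 0) (.cons (.br (nat_lit 9) (nat_lit 1) (.cons (.br (nat_lit 10) (nat_lit 0) (.cons (.rf (nat_lit 218) (nat_lit 12121706528)) .nil)) .nil)) (.cons (.br (nat_lit 9) (nat_lit 0) (.cons (.br (nat_lit 9) (nat_lit 0) (.cons (.rf (nat_lit 680) (nat_lit 11656205366856769)) .nil)) .nil)) .nil))),
 (.br (nat_lit 9) (nat_lit 1) (.cons (.br (nat_lit 10) (nat_lit 0) (.cons (.rf (nat_lit 680) (nat_lit 10520409855364161)) .nil)) .nil)),
 (.br (nat_lit 9) (nat_lit 1) (.cons (.br (nat_lit 10) (nat_lit 1) (.cons (.kr (nat_lit 4722366482869645213696) (nat_lit 1208925819614629174706176) (nat_lit 9) (nat_lit 0)) .nil)) .nil)),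
 (.br (nat_lit 10) (nat_lit 0) (.cons (.br (nat_lit 10) (nat_lit 0) (.cons (.br (nat_lit 11) (nat_lit 0) (.cons (.rf (nat_lit 683) (nat_lit 13909104692169793)) .nil)) .nil)) .nil)),
 (.br (nat_lit 10) (nat_lit 1) (.cons (.rf (nat_lit 684) (nat_lit 13836501456619552)) (.cons (.br (nat_lit 12) (nat_lit 1) (.cons (.ev (nat_lit 310693935640960801722859521) (nat_lit 1)) (.cons (.rf (nat_lit 684) (nat_lit 14962401363462176)) (.cons (.br (nat_lit 12) (nat_lit 1) (.cons (.ev (nat_lit 310693935640960801722859521) (nat_lit 1)) (.cons (.rf (nat_lit 684) (nat_lit 16088301270304800)) .nil))) .nil)))) .nil))),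
 (.br (nat_lit 11) (nat_lit 1) (.cons (.kr (nat_lit 1208925891672223212699648) (nat_lit 309485009821626543718268928) (nat_lit 2) (nat_lit 0)) (.cons (.rf (nat_lit 684) (nat_lit 16088301270304800)) .nil))),
 (.br (nat_lit 6) (nat_lit 1) (.cons (.zr (nat_lit 4722367046923405492225) (nat_lit 55340232221162210048) (nat_lit 8) (nat_lit 4)) (.cons (.rf (nat_lit 684) (nat_lit 11584701642934304)) (.cons (.br (nat_lit 7) (nat_lit 1) (.cons (.ev (nat_lit 72340172821299201) (nat_lit 1)) (.cons (.rf (nat_lit 47) (nat_lit 342199522)) (.cons (.br (nat_lit 10) (nat_lit 1) (.cons (.rf (nat_lit 685) (nat_lit 407901468851537952)) (.cons (.rf (nat_lit 684) (nat_lit 13836501456619552)) (.cons (.br (nat_lit 10) (nat_lit 1) (.cons (.rf (nat_lit 685) (nat_lit 407901468851537952)) (.cons (.rf (nat_lit 684) (nat_lit 14962401363462176)) (.cons (.br (nat_lit 11) (nat_lit 1) (.cons (.rf (nat_lit 686) (nat_lit 493858305440582043680)) (.cons (.rf (nat_lit 686) (nat_lit 458117738797769787424)) (.cons (.rf (nat_lit 684) (nat_lit 16088301270304800))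 .nil)))) .nil)))) .nil)))) .nil)))) .nil))))]

theorem c29 : chkAll C T R L29 (nat_lit 664) = true := by decide +kernel

theorem l29 : (nat_lit 664) + L29.length = (nat_lit 688) := by decide +kernel

/-- part of the certificates -/
def L30 : List Prf := [(.br (nat_lit 6) (nat_lit 1) (.cons (.ev (nat_lit 18518801667764322561) (nat_lit 1)) (.cons (.ev (nat_lit 1208925819614633469739264) (nat_lit 1)) (.cons (.rf (nat_lit 684) (nat_lit 12710601549776928)) (.cons (.br (nat_lit 7) (nat_lit 1) (.cons (.ev (nat_lit 2422592596574701233504515) (nat_lit 2)) (.cons (.br (nat_lit 11) (nat_lit 1) (.cons (.ev (nat_lit 1208944482531497899852291) (nat_lit 2)) (.cons (.rf (nat_lit 684) (nat_lit 13836501456619552)) (.cons (.br (nat_lit 12) (nat_lit 1) (.cons (.ev (nat_lit 1242780520704591607980491521) (nat_lit 3)) (.cons (.rf (nat_lit 684) (nat_lit 14962401363462176)) (.cons (.br (nat_lit 12) (nat_lit 1) (.cons (.ev (nat_lit 1242780520704591607980491521) (nat_lit 3)) (.cons (.rf (nat_lit 684) (nat_lit 16088301270304800)) .nil))) .nil))))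 .nil)))) (.cons (.rf (nat_lit 684) (nat_lit 13836501456619552)) (.cons (.br (nat_lit 10) (nat_lit 1) (.cons (.br (nat_lit 12) (nat_lit 1) (.cons (.ev (nat_lit 1240362632026633105538417411) (nat_lit 3)) (.cons (.rf (nat_lit 684) (nat_lit 14962401363462176)) (.cons (.br (nat_lit 12) (nat_lit 1) (.cons (.ev (nat_lit 1240362632026633105538417411) (nat_lit 3)) (.cons (.rf (nat_lit 684) (nat_lit 16088301270304800)) .nil))) .nil)))) (.cons (.ev (nat_lit 1208944482531497899852291) (nat_lit 2)) (.cons (.rf (nat_lit 684) (nat_lit 14962401363462176)) (.cons (.br (nat_lit 11) (nat_lit 1) (.cons (.br (nat_lit 11) (nat_lit 1) (.cons (.ev (nat_lit 621392649133315927465525505) (nat_lit 2)) (.cons (.rf (nat_lit 684) (nat_lit 16088301270304800)) .nil))) (.cons (.br (nat_lit 11) (nat_lit 1) (.cons (.ev (nat_lit 621392649133315927465525505) (nat_lit 2)) (.cons (.rf (nat_lit 684) (nat_lit 16088301270304800)) .nil))) (.cons (.rf (nat_lit 684) (nat_lit 16088301270304800)) .nil)))) .nil))))) .nil))))) .nil))))),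
 (.br (nat_lit 12) (nat_lit 1) (.cons (.ev (nat_lit 621392649133315927465525505) (nat_lit 2)) (.cons (.rf (nat_lit 684) (nat_lit 14962401363462176)) (.cons (.br (nat_lit 12) (nat_lit 1) (.cons (.ev (nat_lit 621392649133315927465525505) (nat_lit 2)) (.cons (.rf (nat_lit 684) (nat_lit 16088301270304800)) .nil))) .nil)))),
 (.br (nat_lit 10) (nat_lit 1) (.cons (.ev (nat_lit 621392649133315927465525505) (nat_lit 2)) (.cons (.rf (nat_lit 684) (nat_lit 14962401363462176)) (.cons (.br (nat_lit 11) (nat_lit 1) (.cons (.ev (nat_lit 159075299788985156330275865345) (nat_lit 2)) (.cons (.br (nat_lit 12) (nat_lit 1) (.cons (.zr (nat_lit 475368989252686037133071221504) (nat_lit 1240357909659585082621689857) (nat_lit 8) (nat_lit 0)) (.cons (.rf (nat_lit 684) (nat_lit 16088301270304800)) .nil))) (.cons (.rf (nat_lit 684) (nat_lit 16088301270304800)) .nil)))) .nil)))),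
 (.br (nat_lit 11) (nat_lit 1) (.cons (.ev (nat_lit 310693954087985246585749761) (nat_lit 1)) (.cons (.rf (nat_lit 684) (nat_lit 14962401363462176)) (.cons (.br (nat_lit 12) (nat_lit 1) (.cons (.br (nat_lit 12) (nat_lit 1) (.cons (.rf (nat_lit 684) (nat_lit 16088301270304800)) .nil)) (.cons (.rf (nat_lit 684) (nat_lit 16088301270304800)) .nil))) .nil)))),
 (.br (nat_lit 11) (nat_lit 1) (.cons (.br (nat_lit 12) (nat_lit 1) (.cons (.zr (nat_lit 159075295048603710901649933059) (nat_lit 4840444092812459539300352) (nat_lit 8) (nat_lit 0)) (.cons (.rf (nat_lit 684) (nat_lit 16088301270304800)) .nil))) (.cons (.rf (nat_lit 684) (nat_lit 16088301270304800)) .nil))),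
 (.br (nat_lit 10) (nat_lit 1) (.cons (.ev (nat_lit 1208944266641277389438976) (nat_lit 1)) (.cons (.br (nat_lit 11) (nat_lit 1) (.cons (.br (nat_lit 12) (nat_lit 1) (.cons (.zr (nat_lit 792281629957387694361776358657) (nat_lit 633477129480325214005886976) (nat_lit 24) (nat_lit 1)) (.cons (.rf (nat_lit 684) (nat_lit 16088301270304800)) .nil))) (.cons (.ev (nat_lit 40565440599915580112733185638659) (nat_lit 2)) (.cons (.rf (nat_lit 684) (nat_lit 16088301270304800)) .nil)))) (.cons (.rf (nat_lit 684) (nat_lit 16088301270304800)) .nil)))),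
 (.br (nat_lit 9) (nat_lit 0) (.cons (.br (nat_lit 2) (nat_lit 1) (.cons (.rf (nat_lit 687) (nat_lit 325702574508064)) (.cons (.rf (nat_lit 687) (nat_lit 322400916015232)) (.cons (.ev (nat_lit 18662917968220062466) (nat_lit 2)) (.cons (.rf (nat_lit 684) (nat_lit 11584701642934304)) (.cons (.br (nat_lit 3) (nat_lit 1) (.cons (.ev (nat_lit 4722367327303215612419) (nat_lit 2)) (.cons (.rf (nat_lit 687) (nat_lit 4473250487465)) (.cons (.rf (nat_lit 688) (nat_lit 11584701642934304)) (.cons (.rf (nat_lit 684) (nat_lit 12710601549776928)) (.cons (.br (nat_lit 6) (nat_lit 1) (.cons (.rf (nat_lit 687) (nat_lit 1171591994633)) (.cons (.rf (nat_lit 688) (nat_lit 11581399984441472)) (.cons (.br (nat_lit 7) (nat_lit 1) (.cons (.br (nat_lit 10) (nat_lit 1) (.cons (.ev (nat_lit 4840555205066143172003585) (nat_lit 3)) (.cons (.rf (nat_lit 684) (nat_lit 13836501456619552)) (.cons (.br (nat_lit 12) (nat_lit 1) (.cons (.ev (nat_lit 1242780520704591607980491521) (nat_lit 3)) (.cons (.rf (nat_lit 684) (nat_lit 14962401363462176)) (.cons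 (.br (nat_lit 12) (nat_lit 1) (.cons (.ev (nat_lit 1242780520704591607980491521) (nat_lit 3)) (.cons (.rf (nat_lit 684) (nat_lit 16088301270304800)) .nil))) .nil)))) .nil)))) (.cons (.ev (nat_lit 309485028340147835983888384) (nat_lit 1)) (.cons (.rf (nat_lit 684) (nat_lit 13836501456619552)) (.cons (.br (nat_lit 10) (nat_lit 1) (.cons (.rf (nat_lit 689) (nat_lit 14242959524133701664)) (.cons (.rf (nat_lit 690) (nat_lit 14242959524133701664)) (.cons (.rf (nat_lit 684) (nat_lit 14962401363462176)) (.cons (.br (nat_lit 10) (nat_lit 1) (.cons (.rf (nat_lit 689) (nat_lit 14242959524133701664)) (.cons (.rf (nat_lit 690) (nat_lit 14242959524133701664)) (.cons (.rf (nat_lit 684) (nat_lit 16088301270304800)) .nil)))) .nil))))) .nil))))) (.cons (.rf (nat_lit 684) (nat_lit 13836501456619552)) (.cons (.br (nat_lit 7) (nat_lit 1) (.cons (.br (nat_lit 10) (nat_lit 1) (.cons (.rf (nat_lit 691) (nat_lit 14242959524133701664)) (.cons (.rf (nat_lit 691) (nat_lit 13126063514887325824)) (.cons (.rf (nat_lit 684) (nat_lit 14962401363462176))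 (.cons (.br (nat_lit 11) (nat_lit 1) (.cons (.rf (nat_lit 692) (nat_lit 493858305440582043680)) (.cons (.br (nat_lit 11) (nat_lit 1) (.cons (.rf (nat_lit 692) (nat_lit 493858305440582043680)) (.cons (.rf (nat_lit 684) (nat_lit 16088301270304800)) .nil))) (.cons (.rf (nat_lit 684) (nat_lit 16088301270304800)) .nil)))) .nil))))) (.cons (.rf (nat_lit 688) (nat_lit 12389372225756329)) (.cons (.rf (nat_lit 688) (nat_lit 13511970474106121)) (.cons (.rf (nat_lit 684) (nat_lit 14962401363462176)) (.cons (.br (nat_lit 10) (nat_lit 1) (.cons (.rf (nat_lit 693) (nat_lit 493858305440582043680)) (.cons (.rf (nat_lit 693) (nat_lit 492741409431335667840)) (.cons (.br (nat_lit 10) (nat_lit 1) (.cons (.rf (nat_lit 693) (nat_lit 493858305440582043680)) (.cons (.rf (nat_lit 693) (nat_lit 492741409431335667840)) (.cons (.rf (nat_lit 684) (nat_lit 16088301270304800)) .nil)))) (.cons (.rf (nat_lit 684) (nat_lit 16088301270304800)) .nil))))) .nil)))))) .nil)))))) .nil)))))) .nil)))))) (.cons (.rf (nat_lit 682) (nat_lit 360886946596905)) .nil))),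
 (.br (nat_lit 0) (nat_lit 0) (.cons (.rf (nat_lit 681) (nat_lit 9043225708576)) (.cons (.rf (nat_lit 681) (nat_lit 5741567215744)) (.cons (.rf (nat_lit 682) (nat_lit 325702574508064)) (.cons (.br (nat_lit 9) (nat_lit 0) (.cons (.rf (nat_lit 694) (nat_lit 325702574508064)) (.cons (.rf (nat_lit 694) (nat_lit 322400916015232)) (.cons (.rf (nat_lit 682) (nat_lit 360886946596905)) .nil)))) .nil))))),
 (.br (nat_lit 10) (nat_lit 0) (.cons (.br (nat_lit 10) (nat_lit 0) (.cons (.br (nat_lit 11) (nat_lit 0) (.cons (.rf (nat_lit 683) (nat_lit 13909104692169793)) .nil)) .nil)) .nil)),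
 (.br (nat_lit 11) (nat_lit 1) (.cons (.ev (nat_lit 618974760600596331230266115) (nat_lit 2)) (.cons (.rf (nat_lit 696) (nat_lit 14962401363462176)) (.cons (.br (nat_lit 12) (nat_lit 1) (.cons (.br (nat_lit 12) (nat_lit 1) (.cons (.rf (nat_lit 696) (nat_lit 16088301270304800)) .nil)) (.cons (.rf (nat_lit 696) (nat_lit 16088301270304800)) .nil))) .nil)))),
 (.br (nat_lit 6) (nat_lit 1) (.cons (.zr (nat_lit 18446747385129336835) (nat_lit 4722511161007674491648) (nat_lit 8) (nat_lit 9)) (.cons (.ev (nat_lit 2422592452459504534160131) (nat_lit 2)) (.cons (.rf (nat_lit 696) (nat_lit 12710601549776928)) (.cons (.br (nat_lit 7) (nat_lit 1) (.cons (.ev (nat_lit 2422592452457314134262531) (nat_lit 2)) (.cons (.br (nat_lit 11) (nat_lit 1) (.cons (.ev (nat_lit 4840481419215748240376577) (nat_lit 3)) (.cons (.rf (nat_lit 696) (nat_lit 13836501456619552)) (.cons (.br (nat_lit 12) (nat_lit 1) (.cons (.ev (nat_lit 1242780520704591607980491521) (nat_lit 3)) (.cons (.rf (nat_lit 696) (nat_lit 14962401363462176)) (.cons (.br (nat_lit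 12) (nat_lit 1) (.cons (.ev (nat_lit 1242780520704591607980491521) (nat_lit 3)) (.cons (.rf (nat_lit 696) (nat_lit 16088301270304800)) .nil))) .nil)))) .nil)))) (.cons (.rf (nat_lit 696) (nat_lit 13836501456619552)) (.cons (.br (nat_lit 10) (nat_lit 1) (.cons (.rf (nat_lit 697) (nat_lit 14242959524133701664)) (.cons (.rf (nat_lit 697) (nat_lit 13126066783227284512)) (.cons (.rf (nat_lit 696) (nat_lit 14962401363462176)) (.cons (.br (nat_lit 11) (nat_lit 1) (.cons (.br (nat_lit 11) (nat_lit 1) (.cons (.ev (nat_lit 310693954160042844935421953) (nat_lit 1)) (.cons (.rf (nat_lit 696) (nat_lit 16088301270304800)) .nil))) (.cons (.br (nat_lit 11) (nat_lit 1) (.cons (.ev (nat_lit 310693954160042844935421953) (nat_lit 1)) (.cons (.rf (nat_lit 696) (nat_lit 16088301270304800)) .nil))) (.cons (.rf (nat_lit 696) (nat_lit 16088301270304800)) .nil)))) .nil))))) .nil))))) .nil))))),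
 (.br (nat_lit 10) (nat_lit 1) (.cons (.ev (nat_lit 310698658079782736087744768) (nat_lit 1)) (.cons (.rf (nat_lit 696) (nat_lit 14962401363462176)) (.cons (.br (nat_lit 12) (nat_lit 1) (.cons (.br (nat_lit 12) (nat_lit 1) (.cons (.rf (nat_lit 696) (nat_lit 16088301270304800)) .nil)) (.cons (.rf (nat_lit 696) (nat_lit 16088301270304800)) .nil))) .nil)))),
 (.br (nat_lit 10) (nat_lit 1) (.cons (.ev (nat_lit 310698658079782736087744768) (nat_lit 1)) (.cons (.rf (nat_lit 696) (nat_lit 14962401363462176)) (.cons (.br (nat_lit 11) (nat_lit 1) (.cons (.ev (nat_lit 79537652264899191084912017408) (nat_lit 1)) (.cons (.br (nat_lit 12) (nat_lit 1) (.cons (.zr (nat_lit 158458757102608148225488585472) (nat_lit 1237940039573611754857693185) (nat_lit 8) (nat_lit 0)) (.cons (.rf (nat_lit 696) (nat_lit 16088301270304800)) .nil))) (.cons (.rf (nat_lit 696) (nat_lit 16088301270304800)) .nil)))) .nil)))),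
 (.br (nat_lit 7) (nat_lit 1) (.cons (.br (nat_lit 11) (nat_lit 1) (.cons (.ev (nat_lit 4840555205066143172003585) (nat_lit 3)) (.cons (.rf (nat_lit 696) (nat_lit 13836501456619552)) (.cons (.br (nat_lit 12) (nat_lit 1) (.cons (.ev (nat_lit 1242780520704591607980491521) (nat_lit 3)) (.cons (.rf (nat_lit 696) (nat_lit 14962401363462176)) (.cons (.br (nat_lit 12) (nat_lit 1) (.cons (.ev (nat_lit 1242780520704591607980491521) (nat_lit 3)) (.cons (.rf (nat_lit 696) (nat_lit 16088301270304800)) .nil))) .nil)))) .nil)))) (.cons (.ev (nat_lit 618974797493521528695816451) (nat_lit 2)) (.cons (.rf (nat_lit 696) (nat_lit 13836501456619552)) (.cons (.br (nat_lit 10) (nat_lit 1) (.cons (.rf (nat_lit 699) (nat_lit 14242959524133701664)) (.cons (.rf (nat_lit 700) (nat_lit 14242959524133701664)) (.cons (.rf (nat_lit 696) (nat_lit 14962401363462176)) (.cons (.br (nat_lit 10) (nat_lit 1) (.cons (.rf (nat_lit 699) (nat_lit 14242959524133701664)) (.cons (.rf (nat_lit 700) (nat_lit 14242959524133701664)) (.cons (.rf (nat_lit 696) (nat_lit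 16088301270304800)) .nil)))) .nil))))) .nil))))),
 (.br (nat_lit 10) (nat_lit 1) (.cons (.ev (nat_lit 2422629346508411506917635) (nat_lit 2)) (.cons (.br (nat_lit 11) (nat_lit 1) (.cons (.kr (nat_lit 309485009893402667057676288) (nat_lit 1208925819897203663044608) (nat_lit 4) (nat_lit 0)) (.cons (.ev (nat_lit 618974797493523719162822915) (nat_lit 2)) (.cons (.rf (nat_lit 696) (nat_lit 16088301270304800)) .nil)))) (.cons (.rf (nat_lit 696) (nat_lit 16088301270304800)) .nil)))),
 (.br (nat_lit 9) (nat_lit 0) (.cons (.br (nat_lit 2) (nat_lit 1) (.cons (.zr (nat_lit 3311419785475) (nat_lit 4777706715090807554048) (nat_lit 8) (nat_lit 9)) (.cons (.zr (nat_lit 14222439680834359264000) (nat_lit 566248488435713) (nat_lit 8) (nat_lit 0)) (.cons (.ev (nat_lit 72058693549555969) (nat_lit 1)) (.cons (.rf (nat_lit 696) (nat_lit 11584701642934304)) (.cons (.br (nat_lit 3) (nat_lit 1) (.cons (.ev (nat_lit 281479271678209) (nat_lit 1)) (.cons (.zr (nat_lit 14222439681929575924480) (nat_lit 144115200994312193) (nat_lit 8) (nat_lit 0))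 (.cons (.rf (nat_lit 698) (nat_lit 11584701642934304)) (.cons (.rf (nat_lit 696) (nat_lit 12710601549776928)) (.cons (.br (nat_lit 6) (nat_lit 1) (.cons (.zr (nat_lit 18446747385129336835) (nat_lit 4722511161007674491648) (nat_lit 8) (nat_lit 9)) (.cons (.rf (nat_lit 698) (nat_lit 11264740635641993)) (.cons (.rf (nat_lit 701) (nat_lit 407901468851537952)) (.cons (.rf (nat_lit 696) (nat_lit 13836501456619552)) (.cons (.br (nat_lit 7) (nat_lit 1) (.cons (.rf (nat_lit 701) (nat_lit 372998538420882464)) (.cons (.rf (nat_lit 698) (nat_lit 12389505597410473)) (.cons (.rf (nat_lit 698) (nat_lit 13828663141439744)) (.cons (.rf (nat_lit 696) (nat_lit 14962401363462176)) (.cons (.br (nat_lit 10) (nat_lit 1) (.cons (.rf (nat_lit 702) (nat_lit 493858305440582043680)) (.cons (.rf (nat_lit 702) (nat_lit 492741092771986868361)) (.cons (.br (nat_lit 10) (nat_lit 1) (.cons (.rf (nat_lit 702) (nat_lit 493858305440582043680)) (.cons (.rf (nat_lit 702) (nat_lit 492741092771986868361)) (.cons (.rf (nat_lit 696) (nat_lit 16088301270304800))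 .nil)))) (.cons (.rf (nat_lit 696) (nat_lit 16088301270304800)) .nil))))) .nil)))))) .nil)))))) .nil)))))) .nil)))))) (.cons (.rf (nat_lit 682) (nat_lit 360886946596905)) .nil))),
 (.br (nat_lit 0) (nat_lit 0) (.cons (.rf (nat_lit 695) (nat_lit 9043225708576)) (.cons (.rf (nat_lit 695) (nat_lit 9009907174432)) (.cons (.rf (nat_lit 682) (nat_lit 325702574508064)) (.cons (.br (nat_lit 9) (nat_lit 0) (.cons (.rf (nat_lit 703) (nat_lit 325702574508064)) (.cons (.rf (nat_lit 703) (nat_lit 325669255973920)) (.cons (.rf (nat_lit 682) (nat_lit 360886946596905)) .nil)))) .nil))))),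
 (.br (nat_lit 10) (nat_lit 1) (.cons (.br (nat_lit 10) (nat_lit 1) .nil) .nil)),
 (.br (nat_lit 8) (nat_lit 0) (.cons (.ev (nat_lit 4740813228047161360641) (nat_lit 1)) (.cons (.rf (nat_lit 218) (nat_lit 10041331744)) (.cons (.br (nat_lit 9) (nat_lit 0) (.cons (.br (nat_lit 11) (nat_lit 0) (.cons (.rf (nat_lit 705) (nat_lit 13872820808453185)) .nil)) (.cons (.rf (nat_lit 218) (nat_lit 9002192928)) .nil))) .nil)))),
 (.br (nat_lit 8) (nat_lit 0) (.cons (.br (nat_lit 11) (nat_lit 0) (.cons (.rf (nat_lit 705) (nat_lit 13872820808453185)) .nil)) (.cons (.rf (nat_lit 363) (nat_lit 422358160416)) .nil))),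
 (.br (nat_lit 0) (nat_lit 0) (.cons (.rf (nat_lit 706) (nat_lit 11584701642934304)) (.cons (.rf (nat_lit 706) (nat_lit 8203803343128704)) (.cons (.br (nat_lit 5) (nat_lit 0) (.cons (.ev (nat_lit 4740813228047161360641) (nat_lit 1)) (.cons (.rf (nat_lit 218) (nat_lit 8964575264)) (.cons (.br (nat_lit 8) (nat_lit 0) (.cons (.br (nat_lit 11) (nat_lit 0) (.cons (.rf (nat_lit 705) (nat_lit 13872820808453185)) .nil)) (.cons (.rf (nat_lit 218) (nat_lit 5780049952)) .nil))) .nil)))) (.cons (.rf (nat_lit 705) (nat_lit 12746920901610561)) (.cons (.br (nat_lit 5) (nat_lit 0) (.cons (.br (nat_lit 9) (nat_lit 0) (.cons (.br (nat_lit 11) (nat_lit 0) (.cons (.rf (nat_lit 705) (nat_lit 13872820808453185)) .nil)) (.cons (.rf (nat_lit 363) (nat_lit 421285467168)) .nil))) (.cons (.rf (nat_lit 707) (nat_lit 407901468851537952)) (.cons (.br (nat_lit 8) (nat_lit 0) (.cons (.rf (nat_lit 707) (nat_lit 404520570551732352)) (.cons (.br (nat_lit 9) (nat_lit 0) (.cons (.rf (nat_lit 705) (nat_lit 13872820808453185)) .nil)) (.cons (.rf (nat_lit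 705) (nat_lit 13872820808453185)) .nil)))) (.cons (.rf (nat_lit 705) (nat_lit 13872820808453185)) .nil))))) .nil)))))),
 (.br (nat_lit 9) (nat_lit 0) (.cons (.br (nat_lit 11) (nat_lit 0) (.cons (.rf (nat_lit 705) (nat_lit 13872820808453185)) .nil)) (.cons (.rf (nat_lit 363) (nat_lit 418064371744)) .nil))),
 (.br (nat_lit 0) (nat_lit 0) (.cons (.rf (nat_lit 708) (nat_lit 11584701642934304)) (.cons (.rf (nat_lit 708) (nat_lit 11550583463939104)) (.cons (.rf (nat_lit 708) (nat_lit 3418458030287104)) (.cons (.rf (nat_lit 705) (nat_lit 12746920901610561)) (.cons (.br (nat_lit 4) (nat_lit 0) (.cons (.rf (nat_lit 709) (nat_lit 407901468851537952)) (.cons (.rf (nat_lit 709) (nat_lit 399871731273373952)) (.cons (.br (nat_lit 5) (nat_lit 0) (.cons (.br (nat_lit 11) (nat_lit 0) (.cons (.rf (nat_lit 705) (nat_lit 13872820808453185)) .nil)) (.cons (.br (nat_lit 9) (nat_lit 0) (.cons (.rf (nat_lit 705) (nat_lit 13872820808453185)) .nil)) (.cons (.rf (nat_lit 705) (nat_lit 13872820808453185)) .nil)))) (.cons (.rf (nat_lit 705) (nat_lit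 13872820808453185)) .nil))))) .nil)))))),
 (.br (nat_lit 9) (nat_lit 1) (.cons (.kr (nat_lit 4722366764344621924608) (nat_lit 1208925819615728686399488) (nat_lit 1) (nat_lit 0)) (.cons (.rf (nat_lit 47) (nat_lit 412289185)) .nil))),
 (.br (nat_lit 11) (nat_lit 1) (.cons (.ev (nat_lit 310698676454187745060847873) (nat_lit 1)) (.cons (.br (nat_lit 14) (nat_lit 1) (.cons (.ev (nat_lit 10404955973810581648305875664765699) (nat_lit 2)) (.cons (.rf (nat_lit 40) (nat_lit 17981398813890)) .nil))) (.cons (.br (nat_lit 14) (nat_lit 1) (.cons (.rf (nat_lit 68) (nat_lit 18122991275202)) (.cons (.ev (nat_lit 10404955973810581648305875664765699) (nat_lit 2)) (.cons (.br (nat_lit 15) (nat_lit 1) (.cons (.br (nat_lit 15) (nat_lit 1) (.cons (.ev (nat_lit 2668861106002394652500340211429015809) (nat_lit 2)) .nil)) (.cons (.br (nat_lit 15) (nat_lit 1) (.cons (.ev (nat_lit 2668861106002394652500340211429015809) (nat_lit 2)) .nil)) .nil))) .nil)))) .nil)))),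
 (.br (nat_lit 12) (nat_lit 1) (.cons (.br (nat_lit 14) (nat_lit 1) (.cons (.kr (nat_lit 1329228075013083109534908998446219520) (nat_lit 5212579269347405118570172266905600) (nat_lit 1) (nat_lit 0)) .nil)) .nil)),
 (.br (nat_lit 10) (nat_lit 1) (.cons (.rf (nat_lit 40) (nat_lit 15746840299713)) (.cons (.rf (nat_lit 68) (nat_lit 13689313069249)) (.cons (.br (nat_lit 12) (nat_lit 1) (.cons (.rf (nat_lit 713) (nat_lit 583706118939841765935136)) (.cons (.br (nat_lit 12) (nat_lit 1) (.cons (.rf (nat_lit 713) (nat_lit 583706118939841765935136)) .nil)) .nil))) .nil)))),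
 (.br (nat_lit 15) (nat_lit 1) (.cons (.ev (nat_lit 310698676454187745060847873) (nat_lit 1)) (.cons (.ev (nat_lit 2658476353210029985821852011176395523) (nat_lit 2)) (.cons (.rf (nat_lit 714) (nat_lit 19459454247239492439105)) .nil))))]

theorem c30 : chkAll C T R L30 (nat_lit 688) = true := by decide +kernel

theorem l30 : (nat_lit 688) + L30.length = (nat_lit 716) := by decide +kernel

/-- part of the certificates -/
def L31 : List Prf := [(.br (nat_lit 13) (nat_lit 1) (.cons (.ev (nat_lit 20282719093402305278533819236608) (nat_lit 1)) (.cons (.br (nat_lit 14) (nat_lit 1) (.cons (.kr (nat_lit 5192296859743753520202719541854208) (nat_lit 20282409608392483650890606051328) (nat_lit 7) (nat_lit 0)) (.cons (.ev (nat_lit 5212658805786021903438773596717056) (nat_lit 1)) .nil))) .nil))),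
 (.br (nat_lit 14) (nat_lit 1) (.cons (.ev (nat_lit 5212579269347423637653319302840577) (nat_lit 1)) (.cons (.br (nat_lit 17) (nat_lit 1) (.cons (.zr (nat_lit 174224582349605486548416485751434944577537) (nat_lit 1240357891069850621231235840) (nat_lit 8) (nat_lit 13)) (.cons (.ev (nat_lit 524034845078767191993182913051505639817991) (nat_lit 3)) .nil))) .nil))),
 (.br (nat_lit 6) (nat_lit 1) (.cons (.rf (nat_lit 711) (nat_lit 445092485129178177)) (.cons (.zr (nat_lit 20361637766165935325594555514881) (nat_lit 2422592452456201737732864) (nat_lit 8) (nat_lit 4)) (.cons (.ev (nat_lit 20520094105380010193464321900801) (nat_lit 2)) (.cons (.br (nat_lit 7) (nat_lit 1) (.cons (.ev (nat_lit 20520094095972314268110539587841) (nat_lit 2)) (.cons (.zr (nat_lit 20361637766166078877832744796161) (nat_lit 618974760455917080804459264) (nat_lit 8) (nat_lit 5)) (.cons (.br (nat_lit 10) (nat_lit 1) (.cons (.ev (nat_lit 310693935713299870737563905) (nat_lit 1)) (.cons (.zr (nat_lit 79228162532855197959203061761) (nat_lit 10404876126678029293967809555071744)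 (nat_lit 8) (nat_lit 5)) (.cons (.br (nat_lit 11) (nat_lit 1) (.cons (.zr (nat_lit 79228167236631384516949442561) (nat_lit 10404876126673325374229013652833024) (nat_lit 8) (nat_lit 4)) (.cons (.ev (nat_lit 310698676454187745060847873) (nat_lit 1)) (.cons (.br (nat_lit 14) (nat_lit 1) (.cons (.rf (nat_lit 68) (nat_lit 18122994322626)) (.cons (.rf (nat_lit 68) (nat_lit 17057809927362)) (.cons (.br (nat_lit 15) (nat_lit 1) (.cons (.br (nat_lit 15) (nat_lit 1) (.cons (.ev (nat_lit 2668861106002394652500340211429015809) (nat_lit 2)) .nil)) (.cons (.br (nat_lit 15) (nat_lit 1) (.cons (.ev (nat_lit 2668861106002394652500340211429015809) (nat_lit 2)) .nil)) .nil))) .nil)))) .nil)))) .nil)))) (.cons (.br (nat_lit 10) (nat_lit 1) (.cons (.rf (nat_lit 47) (nat_lit 476417346)) (.cons (.rf (nat_lit 712) (nat_lit 583706118939841765935136)) (.cons (.rf (nat_lit 715) (nat_lit 583706118939841765935136)) (.cons (.br (nat_lit 11) (nat_lit 1) (.cons (.rf (nat_lit 715) (nat_lit 547107743760586724412448)) (.cons (.rf (nat_lit 712) (nat_lit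 547107743760586724412448)) (.cons (.ev (nat_lit 310698676454187745060847873) (nat_lit 1)) (.cons (.br (nat_lit 14) (nat_lit 1) (.cons (.rf (nat_lit 716) (nat_lit 21174442659472880612543553)) (.cons (.rf (nat_lit 717) (nat_lit 677582165103132179601393696)) (.cons (.br (nat_lit 14) (nat_lit 1) (.cons (.rf (nat_lit 716) (nat_lit 21174442659472880612543553)) (.cons (.rf (nat_lit 717) (nat_lit 677582165103132179601393696)) .nil))) .nil)))) .nil))))) .nil))))) .nil))))) .nil))))),
 (.br (nat_lit 12) (nat_lit 1) (.cons (.rf (nat_lit 68) (nat_lit 15853032903745)) (.cons (.rf (nat_lit 68) (nat_lit 14787783496769)) (.cons (.rf (nat_lit 714) (nat_lit 18168032411992461640867)) .nil)))),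
 (.br (nat_lit 14) (nat_lit 1) (.cons (.kr (nat_lit 1329228075013083109534908998446219520) (nat_lit 5212579269347405118570172266905600) (nat_lit 1) (nat_lit 0)) .nil)),
 (.br (nat_lit 14) (nat_lit 1) (.cons (.ev (nat_lit 5212579269347423637653319302840577) (nat_lit 1)) (.cons (.br (nat_lit 15) (nat_lit 1) (.cons (.rf (nat_lit 720) (nat_lit 661701295917511241501761)) (.cons (.ev (nat_lit 174227230340032157230373616814857786622209) (nat_lit 2)) .nil))) .nil))),
 (.br (nat_lit 14) (nat_lit 1) (.cons (.ev (nat_lit 5212579269347423637653319302840577) (nat_lit 1)) (.cons (.br (nat_lit 17) (nat_lit 1) (.cons (.zr (nat_lit 174224571883802905319491923012213698199809) (nat_lit 10384831401557198194188974251180032) (nat_lit 8) (nat_lit 8)) (.cons (.ev (nat_lit 524034845078767191993182913051488527057667) (nat_lit 3)) .nil))) .nil))),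
 (.br (nat_lit 3) (nat_lit 1) (.cons (.kr (nat_lit 1099511693312) (nat_lit 4311744512) (nat_lit 2) (nat_lit 0)) (.cons (.rf (nat_lit 711) (nat_lit 336903739535300676)) (.cons (.ev (nat_lit 20520094105380010193464321900801) (nat_lit 2)) (.cons (.br (nat_lit 7) (nat_lit 1) (.cons (.rf (nat_lit 47) (nat_lit 473241826)) (.cons (.rf (nat_lit 47) (nat_lit 473274594)) (.cons (.br (nat_lit 10) (nat_lit 1) (.cons (.zr (nat_lit 20282414444095762672357258297601) (nat_lit 238303457562435704021888139264) (nat_lit 8) (nat_lit 8)) (.cons (.zr (nat_lit 4849888825778198762488065) (nat_lit 10405113811160849864612921502466048) (nat_lit 8) (nat_lit 8)) (.cons (.br (nat_lit 11) (nat_lit 1) (.cons (.ev (nat_lit 10404955973820063418309792883540739) (nat_lit 2)) (.cons (.ev (nat_lit 310698676454187745060847873) (nat_lit 1)) (.cons (.br (nat_lit 14) (nat_lit 1) (.cons (.ev (nat_lit 5212579269347423637652215479402753) (nat_lit 1)) (.cons (.ev (nat_lit 5192377015152426769476785247617795) (nat_lit 2)) (.cons (.br (nat_lit 15) (nat_lit 1) (.cons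 (.br (nat_lit 15) (nat_lit 1) (.cons (.ev (nat_lit 2668861106002394652500340211429015809) (nat_lit 2)) .nil)) (.cons (.br (nat_lit 15) (nat_lit 1) (.cons (.ev (nat_lit 2668861106002394652500340211429015809) (nat_lit 2)) .nil)) .nil))) .nil)))) .nil)))) .nil)))) (.cons (.br (nat_lit 10) (nat_lit 1) (.cons (.zr (nat_lit 20282414444095762672357258297601) (nat_lit 238303457562435704021888139264) (nat_lit 8) (nat_lit 8)) (.cons (.br (nat_lit 11) (nat_lit 1) (.cons (.ev (nat_lit 310698676454187745060847873) (nat_lit 1)) (.cons (.br (nat_lit 14) (nat_lit 1) (.cons (.ev (nat_lit 10405115049105666857839693331170051) (nat_lit 3)) (.cons (.rf (nat_lit 40) (nat_lit 17981398816866)) .nil))) (.cons (.br (nat_lit 14) (nat_lit 1) (.cons (.rf (nat_lit 68) (nat_lit 18122991278178)) (.cons (.rf (nat_lit 68) (nat_lit 17057709365346)) (.cons (.br (nat_lit 15) (nat_lit 1) (.cons (.br (nat_lit 15) (nat_lit 1) (.cons (.ev (nat_lit 2668861106002394652500340211429015809) (nat_lit 2)) .nil)) (.cons (.br (nat_lit 15) (nat_lit 1) (.cons (.ev (nat_lit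 2668861106002394652500340211429015809) (nat_lit 2)) .nil)) .nil))) .nil)))) .nil)))) (.cons (.br (nat_lit 15) (nat_lit 1) (.cons (.ev (nat_lit 310698676454187745060847873) (nat_lit 1)) (.cons (.ev (nat_lit 2658476353210029985821852011176395523) (nat_lit 2)) (.cons (.rf (nat_lit 714) (nat_lit 19459346058493898561604)) .nil)))) (.cons (.br (nat_lit 11) (nat_lit 1) (.cons (.rf (nat_lit 719) (nat_lit 19459454247239492439105)) (.cons (.br (nat_lit 15) (nat_lit 1) (.cons (.rf (nat_lit 68) (nat_lit 18089667565794)) (.cons (.rf (nat_lit 68) (nat_lit 15959136245986)) (.cons (.br (nat_lit 14) (nat_lit 1) (.cons (.br (nat_lit 14) (nat_lit 1) (.cons (.zr (nat_lit 2658476273981857989930494269549969665) (nat_lit 10384831401557198195315965079584768) (nat_lit 8) (nat_lit 1)) .nil)) (.cons (.br (nat_lit 14) (nat_lit 1) (.cons (.zr (nat_lit 2658476273981857989930494269549969665) (nat_lit 10384831401557198195315965079584768) (nat_lit 8) (nat_lit 1)) .nil)) .nil))) .nil)))) (.cons (.ev (nat_lit 310698676454187745060847873) (nat_lit 1))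 (.cons (.br (nat_lit 14) (nat_lit 1) (.cons (.rf (nat_lit 721) (nat_lit 677582165103132179601393696)) (.cons (.rf (nat_lit 722) (nat_lit 677582165103132179601393696)) (.cons (.br (nat_lit 14) (nat_lit 1) (.cons (.rf (nat_lit 721) (nat_lit 677582165103132179601393696)) (.cons (.rf (nat_lit 722) (nat_lit 677582165103132179601393696)) .nil))) .nil)))) .nil))))) .nil))))) .nil))))) .nil))))),
 (.br (nat_lit 16) (nat_lit 1) (.cons (.ev (nat_lit 680595908144986414442078016647966229253) (nat_lit 3)) .nil)),
 (.br (nat_lit 14) (nat_lit 1) (.cons (.br (nat_lit 15) (nat_lit 1) (.cons (.ev (nat_lit 344285648082208083171998598102205399552) (nat_lit 2)) .nil)) .nil)),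
 (.br (nat_lit 13) (nat_lit 1) (.cons (.rf (nat_lit 68) (nat_lit 16988008455362)) (.cons (.rf (nat_lit 68) (nat_lit 15922629024962)) (.cons (.br (nat_lit 14) (nat_lit 1) (.cons (.rf (nat_lit 725) (nat_lit 19926519232773908561233952)) (.cons (.br (nat_lit 14) (nat_lit 1) (.cons (.rf (nat_lit 725) (nat_lit 19926519232773908561233952)) .nil)) .nil))) .nil)))),
 (.br (nat_lit 16) (nat_lit 1) (.cons (.ev (nat_lit 344270051067681617954503976371236110338) (nat_lit 2)) .nil)),
 (.br (nat_lit 15) (nat_lit 1) (.cons (.br (nat_lit 16) (nat_lit 1) (.cons (.ev (nat_lit 680575138955692947220853036165416092417) (nat_lit 3)) (.cons (.ev (nat_lit 680564754362592420178184879970369798403) (nat_lit 2)) .nil))) (.cons (.ev (nat_lit 1329248278504009256834399118739702017) (nat_lit 1)) .nil))),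
 (.br (nat_lit 14) (nat_lit 1) (.cons (.rf (nat_lit 728) (nat_lit 677582165103132179601393696)) (.cons (.br (nat_lit 17) (nat_lit 1) (.cons (.ev (nat_lit 174224582268475850551661587402291421512449) (nat_lit 2)) (.cons (.ev (nat_lit 350490848333998583958776826275193564694277) (nat_lit 3)) .nil))) .nil))),
 (.br (nat_lit 6) (nat_lit 1) (.cons (.ev (nat_lit 1112413504002) (nat_lit 2)) (.cons (.rf (nat_lit 723) (nat_lit 1263440262655748493)) (.cons (.br (nat_lit 3) (nat_lit 1) (.cons (.ev (nat_lit 158771873594023973899143939584) (nat_lit 3)) (.cons (.rf (nat_lit 47) (nat_lit 473275586)) .nil))) (.cons (.br (nat_lit 3) (nat_lit 1) (.cons (.rf (nat_lit 47) (nat_lit 476388450)) (.cons (.rf (nat_lit 47) (nat_lit 476421218)) (.cons (.br (nat_lit 10) (nat_lit 1) (.cons (.ev (nat_lit 20361640188758531334042971800321) (nat_lit 2)) (.cons (.zr (nat_lit 237684487561528551279991717889) (nat_lit 10404876129105325666162811489878272) (nat_lit 8) (nat_lit 5)) (.cons (.br (nat_lit 11) (nat_lit 1) (.cons (.ev (nat_lit 10405113811175035267254465536721155)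 (nat_lit 2)) (.cons (.ev (nat_lit 310698676454187745060847873) (nat_lit 1)) (.cons (.br (nat_lit 14) (nat_lit 1) (.cons (.kr (nat_lit 5192376086697341965207158887809281) (nat_lit 1213648186097507443408896) (nat_lit 0) (nat_lit 2)) (.cons (.ev (nat_lit 5212579577628211559121450965139713) (nat_lit 1)) (.cons (.br (nat_lit 15) (nat_lit 1) (.cons (.rf (nat_lit 724) (nat_lit 677582165103132179601393696)) (.cons (.br (nat_lit 15) (nat_lit 1) (.cons (.rf (nat_lit 724) (nat_lit 677582165103132179601393696)) .nil)) .nil))) .nil)))) .nil)))) .nil)))) (.cons (.br (nat_lit 10) (nat_lit 1) (.cons (.ev (nat_lit 20361640188758531334042971800321) (nat_lit 2)) (.cons (.br (nat_lit 11) (nat_lit 1) (.cons (.ev (nat_lit 310698676454187745060847873) (nat_lit 1)) (.cons (.br (nat_lit 14) (nat_lit 1) (.cons (.ev (nat_lit 10405114432562906692728289891451139) (nat_lit 2)) (.cons (.rf (nat_lit 40) (nat_lit 17981398686914)) .nil))) (.cons (.br (nat_lit 14) (nat_lit 1) (.cons (.rf (nat_lit 68) (nat_lit 18122987084994)) (.cons (.ev (nat_lit 10405114432562906692728289891451139)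 (nat_lit 2)) (.cons (.br (nat_lit 15) (nat_lit 1) (.cons (.br (nat_lit 15) (nat_lit 1) (.cons (.ev (nat_lit 2668860947543642327455917797202330369) (nat_lit 2)) .nil)) (.cons (.br (nat_lit 15) (nat_lit 1) (.cons (.ev (nat_lit 2668860947543642327455917797202330369) (nat_lit 2)) .nil)) .nil))) .nil)))) .nil)))) (.cons (.br (nat_lit 15) (nat_lit 1) (.cons (.ev (nat_lit 310698676454187745060847873) (nat_lit 1)) (.cons (.ev (nat_lit 2658476670122680116955537155306030339) (nat_lit 3)) (.cons (.br (nat_lit 11) (nat_lit 1) (.cons (.rf (nat_lit 40) (nat_lit 17981366279266)) (.cons (.rf (nat_lit 68) (nat_lit 15959237925986)) (.cons (.br (nat_lit 14) (nat_lit 1) (.cons (.br (nat_lit 14) (nat_lit 1) (.cons (.ev (nat_lit 2668860947543642327455917797202330369) (nat_lit 2)) .nil)) (.cons (.br (nat_lit 14) (nat_lit 1) (.cons (.ev (nat_lit 2668860947543642327455917797202330369) (nat_lit 2)) .nil)) .nil))) .nil)))) .nil)))) (.cons (.br (nat_lit 11) (nat_lit 1) (.cons (.rf (nat_lit 726) (nat_lit 622702535911663758051360)) (.cons (.br (nat_lit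 15) (nat_lit 1) (.cons (.ev (nat_lit 2658476511663937125817809783905976579) (nat_lit 2)) (.cons (.rf (nat_lit 68) (nat_lit 15959236910178)) (.cons (.br (nat_lit 14) (nat_lit 1) (.cons (.rf (nat_lit 727) (nat_lit 677582165103132179601393696)) (.cons (.br (nat_lit 14) (nat_lit 1) (.cons (.rf (nat_lit 727) (nat_lit 677582165103132179601393696)) .nil)) .nil))) .nil)))) (.cons (.ev (nat_lit 310698676454187745060847873) (nat_lit 1)) (.cons (.br (nat_lit 14) (nat_lit 1) (.cons (.rf (nat_lit 728) (nat_lit 677582165103132179601393696)) (.cons (.rf (nat_lit 729) (nat_lit 677582165103132179601393696)) (.cons (.br (nat_lit 14) (nat_lit 1) (.cons (.rf (nat_lit 728) (nat_lit 677582165103132179601393696)) (.cons (.rf (nat_lit 729) (nat_lit 677582165103132179601393696)) .nil))) .nil)))) .nil))))) .nil))))) .nil))))) .nil))))),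
 (.br (nat_lit 16) (nat_lit 1) (.cons (.ev (nat_lit 680595908303440312174379175001314034949) (nat_lit 3)) .nil)),
 (.br (nat_lit 7) (nat_lit 1) (.cons (.ev (nat_lit 20361640188758531334042971800321) (nat_lit 2)) (.cons (.zr (nat_lit 4849888825778198762488065) (nat_lit 10405113811160849864612921502466048) (nat_lit 8) (nat_lit 8)) (.cons (.br (nat_lit 11) (nat_lit 1) (.cons (.ev (nat_lit 10405113811175035267254465536721155) (nat_lit 2)) (.cons (.ev (nat_lit 79537647542604766904521326593) (nat_lit 1)) (.cons (.br (nat_lit 14) (nat_lit 1) (.cons (.kr (nat_lit 5192296859748475814627995149139969) (nat_lit 79228162514336676662558589184) (nat_lit 0) (nat_lit 2)) (.cons (.ev (nat_lit 5212658806994929204251739335688193) (nat_lit 1)) (.cons (.br (nat_lit 15) (nat_lit 1) (.cons (.rf (nat_lit 731) (nat_lit 677582165103132179601393696)) (.cons (.br (nat_lit 15) (nat_lit 1) (.cons (.rf (nat_lit 731) (nat_lit 677582165103132179601393696)) .nil)) .nil))) .nil)))) .nil)))) .nil)))),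
 (.br (nat_lit 10) (nat_lit 1) (.cons (.br (nat_lit 12) (nat_lit 1) (.cons (.ev (nat_lit 79229371440083953326525251841) (nat_lit 1)) .nil)) .nil)),
 (.br (nat_lit 11) (nat_lit 1) (.cons (.rf (nat_lit 68) (nat_lit 13549789552738)) (.cons (.rf (nat_lit 68) (nat_lit 11419453268066)) (.cons (.br (nat_lit 10) (nat_lit 1) (.cons (.rf (nat_lit 733) (nat_lit 493858305440582043680)) (.cons (.br (nat_lit 10) (nat_lit 1) (.cons (.rf (nat_lit 733) (nat_lit 493858305440582043680)) .nil)) .nil))) .nil)))),
 (.br (nat_lit 15) (nat_lit 1) (.cons (.ev (nat_lit 1329248278195728468912928779430527233) (nat_lit 1)) (.cons (.ev (nat_lit 1329227996714584605894174189771817475) (nat_lit 2)) (.cons (.br (nat_lit 14) (nat_lit 1) (.cons (.br (nat_lit 14) (nat_lit 1) (.cons (.ev (nat_lit 2668860947543642327455917797202330369) (nat_lit 2)) .nil)) (.cons (.br (nat_lit 14) (nat_lit 1) (.cons (.ev (nat_lit 2668860947543642327455917797202330369) (nat_lit 2)) .nil)) .nil))) .nil)))),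
 (.br (nat_lit 14) (nat_lit 1) (.cons (.br (nat_lit 15) (nat_lit 1) (.cons (.ev (nat_lit 2679245541265566575457370975573770499) (nat_lit 3)) (.cons (.br (nat_lit 16) (nat_lit 1) (.cons (.ev (nat_lit 683233594947257933707824083449633833219) (nat_lit 2)) .nil)) .nil))) (.cons (.br (nat_lit 15) (nat_lit 1) (.cons (.br (nat_lit 16) (nat_lit 1) (.cons (.ev (nat_lit 1363787944037585262303052079826825773319) (nat_lit 3)) .nil)) (.cons (.ev (nat_lit 87112291124057105181451528034132797948161) (nat_lit 1)) .nil))) .nil))),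
 (.br (nat_lit 6) (nat_lit 1) (.cons (.rf (nat_lit 730) (nat_lit 493823368425290927136)) (.cons (.ev (nat_lit 20678552848371147920852834714881) (nat_lit 3)) (.cons (.rf (nat_lit 730) (nat_lit 1228503247364631949)) (.cons (.br (nat_lit 3) (nat_lit 1) (.cons (.ev (nat_lit 20520094095972314268110539587841) (nat_lit 2)) (.cons (.rf (nat_lit 47) (nat_lit 476424290)) (.cons (.rf (nat_lit 732) (nat_lit 17022140995484340291616)) (.cons (.br (nat_lit 11) (nat_lit 1) (.cons (.ev (nat_lit 20361640188758531334042971800321) (nat_lit 2)) (.cons (.rf (nat_lit 732) (nat_lit 16529546130306413996429)) (.cons (.br (nat_lit 7) (nat_lit 1) (.cons (.ev (nat_lit 79537647542604766904521326593) (nat_lit 1)) (.cons (.ev (nat_lit 2658476353826582153968862920785789699) (nat_lit 2)) (.cons (.rf (nat_lit 734) (nat_lit 19003336898031749152)) .nil)))) (.cons (.br (nat_lit 7) (nat_lit 1) (.cons (.br (nat_lit 14) (nat_lit 1) (.cons (.rf (nat_lit 68) (nat_lit 18122986989762)) (.cons (.rf (nat_lit 68) (nat_lit 17057575053506)) (.cons (.br (nat_lit 15)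 (nat_lit 1) (.cons (.br (nat_lit 15) (nat_lit 1) (.cons (.ev (nat_lit 2668860947543642327455917797202330369) (nat_lit 2)) .nil)) (.cons (.br (nat_lit 15) (nat_lit 1) (.cons (.ev (nat_lit 2668860947543642327455917797202330369) (nat_lit 2)) .nil)) .nil))) .nil)))) (.cons (.rf (nat_lit 735) (nat_lit 19926519232773908561233952)) (.cons (.rf (nat_lit 735) (nat_lit 18754879750157058621942157)) (.cons (.br (nat_lit 14) (nat_lit 1) (.cons (.rf (nat_lit 736) (nat_lit 677582165103132179601393696)) (.cons (.rf (nat_lit 736) (nat_lit 676410525620515329662101901)) (.cons (.br (nat_lit 14) (nat_lit 1) (.cons (.rf (nat_lit 736) (nat_lit 677582165103132179601393696)) (.cons (.rf (nat_lit 736) (nat_lit 676410525620515329662101901)) .nil))) .nil)))) .nil))))) .nil))))) .nil))))) .nil)))))]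

theorem c31 : chkAll C T R L31 (nat_lit 716) = true := by decide +kernel

theorem l31 : (nat_lit 716) + L31.length = (nat_lit 738) := by decide +kernel

/-- part of the certificates -/
def L32 : List Prf := [(.br (nat_lit 5) (nat_lit 1) (.cons (.kr (nat_lit 4722366764344621924608) (nat_lit 1208925819615728686399488) (nat_lit 1) (nat_lit 0)) (.cons (.rf (nat_lit 47) (nat_lit 408201281)) .nil))),
 (.br (nat_lit 13) (nat_lit 1) (.cons (.br (nat_lit 14) (nat_lit 1) (.cons (.kr (nat_lit 1329228075013083109534908998446219520) (nat_lit 5212579269347405118570172266905600) (nat_lit 1) (nat_lit 0)) .nil)) .nil)),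
 (.br (nat_lit 13) (nat_lit 1) (.cons (.rf (nat_lit 739) (nat_lit 583706118939841765935136)) (.cons (.br (nat_lit 13) (nat_lit 1) (.cons (.rf (nat_lit 739) (nat_lit 583706118939841765935136)) .nil)) .nil))),
 (.br (nat_lit 10) (nat_lit 1) (.cons (.ev (nat_lit 20520715483843452637475829317889) (nat_lit 2)) (.cons (.kr (nat_lit 79228162514336676662558589184) (nat_lit 1213648186097503131664384) (nat_lit 1) (nat_lit 0)) (.cons (.br (nat_lit 14) (nat_lit 1) (.cons (.ev (nat_lit 5212579577628211559121450965139713) (nat_lit 1)) (.cons (.ev (nat_lit 5212658806994929204251739335688193) (nat_lit 1)) (.cons (.rf (nat_lit 740) (nat_lit 661701295917511241501761)) .nil)))) .nil)))),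
 (.br (nat_lit 13) (nat_lit 1) (.cons (.br (nat_lit 15) (nat_lit 1) (.cons (.ev (nat_lit 1329248357423890964730240828583248128) (nat_lit 1)) .nil)) .nil)),
 (.br (nat_lit 14) (nat_lit 1) (.cons (.rf (nat_lit 68) (nat_lit 16954688743586)) (.cons (.rf (nat_lit 68) (nat_lit 14824189929634)) (.cons (.br (nat_lit 13) (nat_lit 1) (.cons (.rf (nat_lit 742) (nat_lit 19926519232773908561233952)) (.cons (.br (nat_lit 13) (nat_lit 1) (.cons (.rf (nat_lit 742) (nat_lit 19926519232773908561233952)) .nil)) .nil))) .nil)))),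
 (.br (nat_lit 14) (nat_lit 1) (.cons (.kr (nat_lit 5192376086702064259632434495095040) (nat_lit 1329248278195728450393846736218030080) (nat_lit 1) (nat_lit 0)) .nil)),
 (.br (nat_lit 14) (nat_lit 1) (.cons (.br (nat_lit 15) (nat_lit 1) (.cons (.ev (nat_lit 341611615278361150243026402976198557696) (nat_lit 1)) (.cons (.rf (nat_lit 744) (nat_lit 661701295917511241501761)) .nil))) (.cons (.br (nat_lit 15) (nat_lit 1) (.cons (.br (nat_lit 16) (nat_lit 1) (.cons (.ev (nat_lit 685912820127499863766972337997261964037) (nat_lit 3)) .nil)) (.cons (.ev (nat_lit 87112291124136642833697980199660416991233) (nat_lit 1)) .nil))) .nil))),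
 (.br (nat_lit 13) (nat_lit 1) (.cons (.kr (nat_lit 5192376086702064259632434495095040) (nat_lit 1329248278195728450393846736218030080) (nat_lit 1) (nat_lit 0)) .nil)),
 (.br (nat_lit 14) (nat_lit 1) (.cons (.rf (nat_lit 745) (nat_lit 677582165103132179601393696)) (.cons (.br (nat_lit 16) (nat_lit 1) (.cons (.rf (nat_lit 746) (nat_lit 661701295917511241501761)) (.cons (.ev (nat_lit 87112291124136642833697980199660416991233) (nat_lit 1)) .nil))) .nil))),
 (.br (nat_lit 3) (nat_lit 1) (.cons (.rf (nat_lit 730) (nat_lit 493823368425290927136)) (.cons (.rf (nat_lit 711) (nat_lit 299713824918903909)) (.cons (.rf (nat_lit 738) (nat_lit 445092485129178177)) (.cons (.br (nat_lit 7) (nat_lit 1) (.cons (.rf (nat_lit 47) (nat_lit 473148610)) (.cons (.rf (nat_lit 47) (nat_lit 473246946)) (.cons (.ev (nat_lit 20362256750408161250999248487169) (nat_lit 2)) (.cons (.br (nat_lit 6) (nat_lit 1) (.cons (.rf (nat_lit 47) (nat_lit 473246914)) (.cons (.rf (nat_lit 741) (nat_lit 583706118939841765935136)) (.cons (.br (nat_lit 10) (nat_lit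 1) (.cons (.ev (nat_lit 20283029782652545866261147550209) (nat_lit 2)) (.cons (.ev (nat_lit 20520715483843452637475829317889) (nat_lit 2)) (.cons (.rf (nat_lit 743) (nat_lit 622703726024184641456160)) .nil)))) (.cons (.br (nat_lit 10) (nat_lit 1) (.cons (.rf (nat_lit 734) (nat_lit 17816604311359162400)) (.cons (.rf (nat_lit 741) (nat_lit 622173012621323121536397)) (.cons (.ev (nat_lit 20520715483843452637475829317889) (nat_lit 2)) (.cons (.br (nat_lit 14) (nat_lit 1) (.cons (.rf (nat_lit 745) (nat_lit 677582165103132179601393696)) (.cons (.rf (nat_lit 747) (nat_lit 677582165103132179601393696)) (.cons (.br (nat_lit 14) (nat_lit 1) (.cons (.rf (nat_lit 745) (nat_lit 677582165103132179601393696)) (.cons (.rf (nat_lit 747) (nat_lit 677582165103132179601393696)) .nil))) .nil)))) .nil))))) .nil))))) .nil))))) .nil))))),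
 (.br (nat_lit 16) (nat_lit 1) (.cons (.ev (nat_lit 310698676454187745060847873) (nat_lit 1)) (.cons (.ev (nat_lit 683223210512616178027530718137997853953) (nat_lit 3)) (.cons (.ev (nat_lit 683223210354778823055393545296772727553) (nat_lit 3)) .nil)))),
 (.br (nat_lit 15) (nat_lit 1) (.cons (.kr (nat_lit 340282387203657552124866660121744310272) (nat_lit 1334420292644659626424009788428910592) (nat_lit 2) (nat_lit 0)) .nil)),
 (.br (nat_lit 6) (nat_lit 1) (.cons (.ev (nat_lit 10405113811165627571329111821517059) (nat_lit 2)) (.cons (.rf (nat_lit 130) (nat_lit 17844720351554)) (.cons (.br (nat_lit 7) (nat_lit 1) (.cons (.ev (nat_lit 79537647542604766904521326593) (nat_lit 1)) (.cons (.ev (nat_lit 79229376162522774165673541633) (nat_lit 1)) (.cons (.br (nat_lit 15) (nat_lit 1) (.cons (.zr (nat_lit 683223210115858784898232965063637992197) (nat_lit 79847132552354335854235484160) (nat_lit 8) (nat_lit 0)) (.cons (.rf (nat_lit 749) (nat_lit 677582165103132179601393696)) .nil))) .nil)))) (.cons (.br (nat_lit 7) (nat_lit 1) (.cons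 (.rf (nat_lit 130) (nat_lit 19076335778114)) (.cons (.br (nat_lit 15) (nat_lit 1) (.cons (.ev (nat_lit 683223210195708344783996536318234591489) (nat_lit 3)) (.cons (.rf (nat_lit 750) (nat_lit 21174441469360359728056352)) .nil))) (.cons (.ev (nat_lit 79229376162522774165673541633) (nat_lit 1)) .nil)))) .nil))))),
 (.br (nat_lit 7) (nat_lit 1) (.cons (.ev (nat_lit 79229376162522774165673541633) (nat_lit 1)) (.cons (.ev (nat_lit 79537647542604766904521326593) (nat_lit 1)) (.cons (.br (nat_lit 17) (nat_lit 1) (.cons (.zr (nat_lit 174224582268396622398573465167885403947269) (nat_lit 237684487561528551279958556672) (nat_lit 8) (nat_lit 0)) (.cons (.zr (nat_lit 174224582349605486548416485751434978000897) (nat_lit 623805723209941980253520640) (nat_lit 8) (nat_lit 13)) .nil))) .nil)))),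
 (.br (nat_lit 17) (nat_lit 1) (.cons (.ev (nat_lit 174224582268634309313541902826367203934977) (nat_lit 3)) (.cons (.ev (nat_lit 174224582268636168650860309610235467006721) (nat_lit 3)) .nil))),
 (.br (nat_lit 11) (nat_lit 1) (.cons (.rf (nat_lit 730) (nat_lit 1228503247364631949)) (.cons (.rf (nat_lit 723) (nat_lit 1228503247364631949)) (.cons (.ev (nat_lit 310698676454187745060847873) (nat_lit 1)) (.cons (.kr (nat_lit 309485028268090241946025984) (nat_lit 1213648186097503131664384) (nat_lit 2) (nat_lit 0)) (.cons (.br (nat_lit 14) (nat_lit 1) (.cons (.ev (nat_lit 10404955357267895271296675627533059) (nat_lit 2)) (.cons (.ev (nat_lit 10405113811165627571331302221152515) (nat_lit 2)) (.cons (.rf (nat_lit 751) (nat_lit 19926519232773908561233952)) (.cons (.rf (nat_lit 751) (nat_lit 18754879750157058621942157)) (.cons (.br (nat_lit 6) (nat_lit 1) (.cons (.rf (nat_lit 740) (nat_lit 661701183358440156956868)) (.cons (.rf (nat_lit 752) (nat_lit 677582165103132179601393696)) (.cons (.rf (nat_lit 752) (nat_lit 676410525620515329662101901))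 (.cons (.br (nat_lit 7) (nat_lit 1) (.cons (.rf (nat_lit 753) (nat_lit 677582165103132179601393696)) (.cons (.rf (nat_lit 753) (nat_lit 676410525620515329662101901)) (.cons (.ev (nat_lit 79229376162522774165673541633) (nat_lit 1)) .nil)))) .nil))))) .nil)))))) .nil)))))),
 (.br (nat_lit 7) (nat_lit 1) (.cons (.ev (nat_lit 79231803458894969171920159490) (nat_lit 2)) (.cons (.ev (nat_lit 79229376162522774165673541633) (nat_lit 1)) (.cons (.kr (nat_lit 79228162514336676662558589184) (nat_lit 309485028268090241946025984) (nat_lit 1) (nat_lit 0)) (.cons (.br (nat_lit 14) (nat_lit 1) (.cons (.ev (nat_lit 2679245540649023962867338087621460227) (nat_lit 3)) (.cons (.br (nat_lit 15) (nat_lit 1) (.cons (.ev (nat_lit 2679245541265566575457370975573770499) (nat_lit 3)) (.cons (.ev (nat_lit 2679246017253511718011359635003672323) (nat_lit 3)) .nil))) (.cons (.br (nat_lit 15) (nat_lit 1) (.cons (.ev (nat_lit 2679245859416156745876438593592231171) (nat_lit 3)) (.cons (.ev (nat_lit 2679245699102921695168496406475309827) (nat_lit 3))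 .nil))) .nil)))) .nil))))),
 (.br (nat_lit 13) (nat_lit 1) (.cons (.br (nat_lit 15) (nat_lit 1) (.cons (.ev (nat_lit 344275304053000740569448391507892699392) (nat_lit 2)) .nil)) .nil)),
 (.br (nat_lit 13) (nat_lit 1) (.cons (.rf (nat_lit 756) (nat_lit 19926519232773908561233952)) (.cons (.br (nat_lit 13) (nat_lit 1) (.cons (.rf (nat_lit 756) (nat_lit 19926519232773908561233952)) .nil)) .nil))),
 (.br (nat_lit 7) (nat_lit 1) (.cons (.kr (nat_lit 79228162514336676662558589184) (nat_lit 309485028268090241946025984) (nat_lit 1) (nat_lit 0)) (.cons (.ev (nat_lit 79537647542604766904521326593) (nat_lit 1)) (.cons (.ev (nat_lit 79848346219058954649615729410) (nat_lit 2)) (.cons (.br (nat_lit 15) (nat_lit 1) (.cons (.br (nat_lit 16) (nat_lit 1) (.cons (.ev (nat_lit 1369104856337632759037622775127946429699) (nat_lit 3)) (.cons (.ev (nat_lit 1369104856021958048946353189407936348419) (nat_lit 3)) .nil))) (.cons (.ev (nat_lit 1369104856338258973204343677638972278019) (nat_lit 3)) (.cons (.br (nat_lit 16) (nat_lit 1) (.cons (.ev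 (nat_lit 1369104856495470114009759947969171556099) (nat_lit 3)) (.cons (.ev (nat_lit 1369104856179795404066062063039024202499) (nat_lit 3)) .nil))) .nil)))) .nil))))),
 (.br (nat_lit 11) (nat_lit 1) (.cons (.rf (nat_lit 730) (nat_lit 1228503247364631949)) (.cons (.rf (nat_lit 723) (nat_lit 1228503247364631949)) (.cons (.ev (nat_lit 313125972826382751307596290) (nat_lit 2)) (.cons (.ev (nat_lit 310698676454187745060847873) (nat_lit 1)) (.cons (.br (nat_lit 6) (nat_lit 1) (.cons (.ev (nat_lit 79229376162522775260906913793) (nat_lit 1)) (.cons (.rf (nat_lit 755) (nat_lit 19926519232773908561233952)) (.cons (.br (nat_lit 7) (nat_lit 1) (.cons (.ev (nat_lit 79229376162522774165673541633) (nat_lit 1)) (.cons (.ev (nat_lit 79537647542604766904521326593) (nat_lit 1)) (.cons (.rf (nat_lit 757) (nat_lit 21174442659472880612543553)) .nil)))) (.cons (.rf (nat_lit 758) (nat_lit 19926519232773908561233952)) (.cons (.br (nat_lit 7) (nat_lit 1) (.cons (.rf (nat_lit 758) (nat_lit 17510536146983891817016717)) (.cons (.rf (nat_lit 757)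 (nat_lit 21098943188041942589286764)) (.cons (.rf (nat_lit 755) (nat_lit 17510536146983891817016717)) (.cons (.br (nat_lit 15) (nat_lit 1) (.cons (.ev (nat_lit 2658476273983062230493569533117334017) (nat_lit 2)) (.cons (.ev (nat_lit 2658476274599623806336510211668312577) (nat_lit 2)) (.cons (.ev (nat_lit 174224571863599725096706693976427711169282) (nat_lit 2)) .nil)))) .nil))))) .nil)))))) .nil)))))),
 (.br (nat_lit 14) (nat_lit 1) (.cons (.br (nat_lit 15) (nat_lit 1) (.cons (.ev (nat_lit 685912820126266750022982390789901124357) (nat_lit 3)) (.cons (.rf (nat_lit 744) (nat_lit 661701183358440156956868)) .nil))) (.cons (.br (nat_lit 15) (nat_lit 1) (.cons (.br (nat_lit 16) (nat_lit 1) (.cons (.ev (nat_lit 680575139115389639511396995065304188161) (nat_lit 3)) .nil)) (.cons (.ev (nat_lit 174232568021203968992178572683517351953157) (nat_lit 3)) .nil))) .nil))),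
 (.br (nat_lit 14) (nat_lit 1) (.cons (.rf (nat_lit 760) (nat_lit 677582165103132179601393696)) (.cons (.br (nat_lit 16) (nat_lit 1) (.cons (.zr (nat_lit 680575139114144412805288306997177878789) (nat_lit 623819945360837210892664832) (nat_lit 8) (nat_lit 1)) (.cons (.ev (nat_lit 350490848333998583958776826275193564694277) (nat_lit 3)) .nil))) .nil))),
 (.br (nat_lit 15) (nat_lit 1) (.cons (.kr (nat_lit 340287559217798207216967149220324704512) (nat_lit 1329248278194524283834203124107640832) (nat_lit 1) (nat_lit 0)) .nil)),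
 (.br (nat_lit 7) (nat_lit 1) (.cons (.rf (nat_lit 757) (nat_lit 21173298815961650410069093)) (.cons (.br (nat_lit 14) (nat_lit 1) (.cons (.rf (nat_lit 130) (nat_lit 17981119117506)) (.cons (.br (nat_lit 16) (nat_lit 1) (.cons (.ev (nat_lit 680575138955692947220853036165416092417) (nat_lit 3)) (.cons (.ev (nat_lit 680575139116006182271560978352533013761) (nat_lit 3)) .nil))) (.cons (.br (nat_lit 15) (nat_lit 1) (.cons (.rf (nat_lit 762) (nat_lit 21174442659472880612543553)) (.cons (.ev (nat_lit 174227230340033395189376443333273666716417) (nat_lit 3)) .nil))) .nil)))) (.cons (.ev (nat_lit 79229376162522774165673541633) (nat_lit 1)) (.cons (.kr (nat_lit 79228162514336676662558589184) (nat_lit 309485028268090241946025984) (nat_lit 1) (nat_lit 0)) .nil))))),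
 (.br (nat_lit 7) (nat_lit 1) (.cons (.br (nat_lit 14) (nat_lit 1) (.cons (.rf (nat_lit 130) (nat_lit 17981085563106)) (.cons (.br (nat_lit 16) (nat_lit 1) (.cons (.zr (nat_lit 680564754124291389893674626885296979968) (nat_lit 31154177292021555540742018823094531) (nat_lit 8) (nat_lit 9)) (.cons (.zr (nat_lit 680575219926870182095435961233190158337) (nat_lit 623805723209941980253520640) (nat_lit 8) (nat_lit 13)) .nil))) (.cons (.br (nat_lit 17) (nat_lit 1) (.cons (.zr (nat_lit 174224571883804140837030989098103567679488) (nat_lit 7975368370850312531399243579493712131) (nat_lit 8) (nat_lit 8)) (.cons (.rf (nat_lit 749) (nat_lit 560393787052615320874625421)) .nil))) .nil)))) (.cons (.rf (nat_lit 757) (nat_lit 20003295663532463005669444)) (.cons (.kr (nat_lit 79228162514336676662558589184) (nat_lit 1213648186097503131664384) (nat_lit 1) (nat_lit 0)) (.cons (.ev (nat_lit 79537647542604766904521326593) (nat_lit 1)) .nil))))),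
 (.br (nat_lit 8) (nat_lit 0) (.cons (.rf (nat_lit 218) (nat_lit 13195448352)) (.cons (.rf (nat_lit 218) (nat_lit 10074886176)) (.cons (.br (nat_lit 9) (nat_lit 0) (.cons (.rf (nat_lit 218) (nat_lit 9002192928)) (.cons (.br (nat_lit 12) (nat_lit 0) (.cons (.br (nat_lit 2) (nat_lit 1) (.cons (.rf (nat_lit 718) (nat_lit 493858305440582043680)) (.cons (.rf (nat_lit 723) (nat_lit 493858305440582043680)) (.cons (.rf (nat_lit 730) (nat_lit 493858305440582043680)) (.cons (.rf (nat_lit 737) (nat_lit 493858305440582043680)) (.cons (.rf (nat_lit 748) (nat_lit 493858305440582043680)) (.cons (.br (nat_lit 3) (nat_lit 1) (.cons (.rf (nat_lit 730) (nat_lit 493823368425290927136)) (.cons (.rf (nat_lit 723) (nat_lit 493823368425290927136)) (.cons (.rf (nat_lit 748) (nat_lit 493823368425290927136)) (.cons (.rf (nat_lit 737) (nat_lit 493823368425290927136)) (.cons (.ev (nat_lit 16843009) (nat_lit 1)) (.cons (.br (nat_lit 10) (nat_lit 1) (.cons (.rf (nat_lit 723) (nat_lit 1263440262655748493)) (.cons (.rf (nat_lit 730) (nat_lit 1263440262655748493))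 (.cons (.rf (nat_lit 718) (nat_lit 1263440262655748493)) (.cons (.rf (nat_lit 754) (nat_lit 583706118939841765935136)) (.cons (.rf (nat_lit 759) (nat_lit 583706118939841765935136)) (.cons (.br (nat_lit 11) (nat_lit 1) (.cons (.rf (nat_lit 730) (nat_lit 1228503247364631949)) (.cons (.rf (nat_lit 723) (nat_lit 1228503247364631949)) (.cons (.rf (nat_lit 759) (nat_lit 547107743760586724412448)) (.cons (.rf (nat_lit 754) (nat_lit 547107743760586724412448)) (.cons (.ev (nat_lit 310698676454187745060847873) (nat_lit 1)) (.cons (.br (nat_lit 6) (nat_lit 1) (.cons (.br (nat_lit 14) (nat_lit 1) (.cons (.rf (nat_lit 760) (nat_lit 677582165103132179601393696)) (.cons (.rf (nat_lit 761) (nat_lit 677582165103132179601393696)) (.cons (.br (nat_lit 14) (nat_lit 1) (.cons (.rf (nat_lit 760) (nat_lit 677582165103132179601393696)) (.cons (.rf (nat_lit 761) (nat_lit 677582165103132179601393696)) .nil))) .nil)))) (.cons (.rf (nat_lit 763) (nat_lit 677582165103132179601393696)) (.cons (.rf (nat_lit 764) (nat_lit 677582165103132179601393696))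 (.cons (.rf (nat_lit 763) (nat_lit 597870487460668825290516877)) (.cons (.rf (nat_lit 764) (nat_lit 597870487460668825290516877)) .nil)))))) .nil))))))) .nil))))))) .nil))))))) .nil))))))) .nil)) .nil))) .nil))))]

theorem c32 : chkAll C T R L32 (nat_lit 738) = true := by decide +kernel

theorem l32 : (nat_lit 738) + L32.length = (nat_lit 766) := by decide +kernel

/-- part of the certificates -/
def L33 : List Prf := [(.br (nat_lit 14) (nat_lit 1) (.cons (.rf (nat_lit 68) (nat_lit 18122994322626)) (.cons (.rf (nat_lit 68) (nat_lit 17057809927362)) (.cons (.br (nat_lit 15) (nat_lit 1) (.cons (.br (nat_lit 15) (nat_lit 1) (.cons (.ev (nat_lit 1344805045748941395378849199448719616) (nat_lit 2)) .nil)) (.cons (.br (nat_lit 15) (nat_lit 1) (.cons (.ev (nat_lit 1344805045748941395378849199448719616) (nat_lit 2)) .nil)) .nil))) .nil)))),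
 (.br (nat_lit 14) (nat_lit 1) (.cons (.br (nat_lit 16) (nat_lit 1) (.cons (.ev (nat_lit 2047011133870415497105054972181827814147) (nat_lit 3)) (.cons (.zr (nat_lit 680564754203514697815051023327737151489) (nat_lit 10384594336039730239983351270212352) (nat_lit 8) (nat_lit 4)) .nil))) (.cons (.ev (nat_lit 5212579577628211559122554788577537) (nat_lit 1)) .nil))),
 (.br (nat_lit 14) (nat_lit 1) (.cons (.rf (nat_lit 767) (nat_lit 677582165103132179601393696)) (.cons (.br (nat_lit 17) (nat_lit 1) (.cons (.rf (nat_lit 720) (nat_lit 622815414031471296420965)) (.cons (.ev (nat_lit 174905136617882464325591451338590648402689) (nat_lit 2)) .nil))) .nil))),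
 (.br (nat_lit 7) (nat_lit 1) (.cons (.rf (nat_lit 711) (nat_lit 445092485129178177)) (.cons (.ev (nat_lit 20520094095972314268110539587841) (nat_lit 2)) (.cons (.kr (nat_lit 72057594037928192) (nat_lit 4722366482869661990912) (nat_lit 1) (nat_lit 0)) (.cons (.br (nat_lit 6) (nat_lit 1) (.cons (.zr (nat_lit 20361637766165935888544508805121) (nat_lit 2422629345944349156835584) (nat_lit 8) (nat_lit 4)) (.cons (.rf (nat_lit 47) (nat_lit 477465794)) (.cons (.br (nat_lit 10) (nat_lit 1) (.cons (.ev (nat_lit 79229371440156292395539955713) (nat_lit 1)) (.cons (.ev (nat_lit 79229376162450717671164018945) (nat_lit 1)) (.cons (.br (nat_lit 11) (nat_lit 1) (.cons (.zr (nat_lit 237684492265160622653990633473) (nat_lit 10404876745643381910407298487943936) (nat_lit 8) (nat_lit 4)) (.cons (.br (nat_lit 14) (nat_lit 1) (.cons (.ev (nat_lit 10404955978665211717966632704935171) (nat_lit 3)) (.cons (.rf (nat_lit 40) (nat_lit 17978177686722)) .nil))) (.cons (.rf (nat_lit 766) (nat_lit 19926519232773908561233952)) .nil)))) .nil)))) (.cons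 (.br (nat_lit 10) (nat_lit 1) (.cons (.rf (nat_lit 47) (nat_lit 509971778)) (.cons (.br (nat_lit 11) (nat_lit 1) (.cons (.ev (nat_lit 10405114432553461959762559224643843) (nat_lit 2)) (.cons (.br (nat_lit 14) (nat_lit 1) (.cons (.ev (nat_lit 10405114432562906548613110405661443) (nat_lit 2)) (.cons (.rf (nat_lit 40) (nat_lit 17981398781154)) .nil))) (.cons (.rf (nat_lit 719) (nat_lit 18315610736009289964645)) .nil)))) (.cons (.ev (nat_lit 79229376162450717671164018945) (nat_lit 1)) (.cons (.br (nat_lit 11) (nat_lit 1) (.cons (.br (nat_lit 14) (nat_lit 1) (.cons (.ev (nat_lit 5212579577623489120582091088658433) (nat_lit 1)) (.cons (.ev (nat_lit 5192297171656078232547765124202499) (nat_lit 2)) (.cons (.br (nat_lit 15) (nat_lit 1) (.cons (.br (nat_lit 15) (nat_lit 1) (.cons (.ev (nat_lit 2668861106002385244517310381468680449) (nat_lit 2)) .nil)) (.cons (.br (nat_lit 15) (nat_lit 1) (.cons (.ev (nat_lit 2668861106002385244517310381468680449) (nat_lit 2)) .nil)) .nil))) .nil)))) (.cons (.rf (nat_lit 719) (nat_lit 17136209226711101904964))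 (.cons (.br (nat_lit 16) (nat_lit 1) (.cons (.rf (nat_lit 68) (nat_lit 16991099653442)) (.cons (.rf (nat_lit 68) (nat_lit 15925980269890)) (.cons (.br (nat_lit 14) (nat_lit 1) (.cons (.br (nat_lit 14) (nat_lit 1) (.cons (.zr (nat_lit 680564754203514693092828655646167793665) (nat_lit 10384594336044452606466220948979968) (nat_lit 8) (nat_lit 4)) .nil)) (.cons (.br (nat_lit 14) (nat_lit 1) (.cons (.zr (nat_lit 680564754203514693092828655646167793665) (nat_lit 10384594336044452606466220948979968) (nat_lit 8) (nat_lit 4)) .nil)) .nil))) .nil)))) (.cons (.br (nat_lit 14) (nat_lit 1) (.cons (.rf (nat_lit 767) (nat_lit 677582165103132179601393696)) (.cons (.rf (nat_lit 768) (nat_lit 677582165103132179601393696)) (.cons (.br (nat_lit 14) (nat_lit 1) (.cons (.ev (nat_lit 5212579577628211559122554788577537) (nat_lit 1)) (.cons (.rf (nat_lit 768) (nat_lit 677582165103132179601393696)) .nil))) .nil)))) .nil))))) .nil))))) .nil))))) .nil))))),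
 (.br (nat_lit 14) (nat_lit 1) (.cons (.ev (nat_lit 1329248278504004552842320149982806273) (nat_lit 1)) (.cons (.rf (nat_lit 40) (nat_lit 17978177689698)) .nil))),
 (.br (nat_lit 11) (nat_lit 1) (.cons (.ev (nat_lit 309485028340146740784070656) (nat_lit 1)) (.cons (.rf (nat_lit 40) (nat_lit 14614040647778)) .nil))),
 (.br (nat_lit 16) (nat_lit 1) (.cons (.ev (nat_lit 341611615199134196636206994635981127680) (nat_lit 1)) .nil)),
 (.br (nat_lit 14) (nat_lit 1) (.cons (.br (nat_lit 15) (nat_lit 1) (.cons (.ev (nat_lit 7996157523788687381129063697096114947) (nat_lit 3)) (.cons (.ev (nat_lit 1355331459113633307945015301923669253) (nat_lit 3)) .nil))) (.cons (.br (nat_lit 15) (nat_lit 1) (.cons (.kr (nat_lit 1329227996094400882725153228516753408) (nat_lit 5192376086697341964925683911098368) (nat_lit 5) (nat_lit 0)) (.cons (.ev (nat_lit 5348086286249160377602908405379629827) (nat_lit 3)) .nil))) .nil))),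
 (.br (nat_lit 14) (nat_lit 1) (.cons (.rf (nat_lit 773) (nat_lit 677582165103132179601393696)) (.cons (.br (nat_lit 16) (nat_lit 1) (.cons (.rf (nat_lit 720) (nat_lit 660557597784941249301569)) (.cons (.ev (nat_lit 680564754204133667890177500123494351619) (nat_lit 2)) .nil))) .nil))),
 (.br (nat_lit 3) (nat_lit 1) (.cons (.zr (nat_lit 20282409608392483650890639868161) (nat_lit 79228162514409016843969757184) (nat_lit 8) (nat_lit 1)) (.cons (.rf (nat_lit 711) (nat_lit 336903739535300676)) (.cons (.ev (nat_lit 79537647542532708210954993921) (nat_lit 1)) (.cons (.br (nat_lit 10) (nat_lit 1) (.cons (.ev (nat_lit 18519084242235818241) (nat_lit 1)) (.cons (.zr (nat_lit 20282412026244124006048862306561) (nat_lit 79847132533907028843390173184) (nat_lit 8) (nat_lit 8)) (.cons (.ev (nat_lit 20361640198203120184594219925761) (nat_lit 2)) (.cons (.br (nat_lit 7) (nat_lit 1) (.cons (.rf (nat_lit 47) (nat_lit 473274594)) (.cons (.br (nat_lit 11) (nat_lit 1) (.cons (.zr (nat_lit 10445440945885351082685677673906433) (nat_lit 79847132533907031042413428736)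 (nat_lit 8) (nat_lit 8)) (.cons (.rf (nat_lit 770) (nat_lit 583706118939841765935136)) (.cons (.rf (nat_lit 503) (nat_lit 19889918620534991530166400)) .nil)))) (.cons (.br (nat_lit 11) (nat_lit 1) (.cons (.rf (nat_lit 771) (nat_lit 17810972612801693728)) (.cons (.zr (nat_lit 2658516838798647441633238805576155393) (nat_lit 237684487542937129081104367616) (nat_lit 8) (nat_lit 8)) (.cons (.rf (nat_lit 719) (nat_lit 17136060463750980970696)) .nil)))) (.cons (.br (nat_lit 11) (nat_lit 1) (.cons (.rf (nat_lit 719) (nat_lit 18315756114669500238913)) (.cons (.br (nat_lit 15) (nat_lit 1) (.cons (.ev (nat_lit 1329248278504004552842320149982806273) (nat_lit 1)) (.cons (.rf (nat_lit 68) (nat_lit 15959133100354)) (.cons (.br (nat_lit 14) (nat_lit 1) (.cons (.rf (nat_lit 772) (nat_lit 677582165103132179601393696)) (.cons (.br (nat_lit 14) (nat_lit 1) (.cons (.rf (nat_lit 772) (nat_lit 677582165103132179601393696)) .nil)) .nil))) .nil)))) (.cons (.rf (nat_lit 510) (nat_lit 17547624845030547992578176)) (.cons (.br (nat_lit 14) (nat_lit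 1) (.cons (.rf (nat_lit 773) (nat_lit 677582165103132179601393696)) (.cons (.rf (nat_lit 774) (nat_lit 677582165103132179601393696)) (.cons (.br (nat_lit 14) (nat_lit 1) (.cons (.rf (nat_lit 773) (nat_lit 677582165103132179601393696)) (.cons (.rf (nat_lit 774) (nat_lit 677582165103132179601393696)) .nil))) .nil)))) .nil))))) .nil))))) .nil))))) .nil))))),
 (.br (nat_lit 13) (nat_lit 1) (.cons (.rf (nat_lit 68) (nat_lit 16987874237762)) (.cons (.rf (nat_lit 68) (nat_lit 15922624830786)) (.cons (.br (nat_lit 14) (nat_lit 1) (.cons (.br (nat_lit 14) (nat_lit 1) (.cons (.rf (nat_lit 517) (nat_lit 18682175626144903725296928)) .nil)) (.cons (.rf (nat_lit 517) (nat_lit 18682175626144903725296928)) .nil))) .nil)))),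
 (.br (nat_lit 14) (nat_lit 1) (.cons (.br (nat_lit 16) (nat_lit 1) (.cons (.ev (nat_lit 2047042288128171175083645845682685739781) (nat_lit 3)) .nil)) .nil)),
 (.br (nat_lit 15) (nat_lit 1) (.cons (.ev (nat_lit 341611594917034073290366119363186065665) (nat_lit 1)) .nil)),
 (.br (nat_lit 14) (nat_lit 1) (.cons (.br (nat_lit 15) (nat_lit 1) (.cons (.ev (nat_lit 340292751752341234346504551624825896963) (nat_lit 2)) (.cons (.ev (nat_lit 5348086444086515460707091630379762439) (nat_lit 3)) .nil))) (.cons (.br (nat_lit 17) (nat_lit 1) (.cons (.ev (nat_lit 174227240724626495678455566381745109598467) (nat_lit 2)) (.cons (.ev (nat_lit 87112291124057105186192341542546851233793) (nat_lit 1)) .nil))) .nil))),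
 (.br (nat_lit 14) (nat_lit 1) (.cons (.rf (nat_lit 779) (nat_lit 677582165103132179601393696)) (.cons (.br (nat_lit 15) (nat_lit 1) (.cons (.ev (nat_lit 340282427926627235724591555925904457984) (nat_lit 2)) (.cons (.ev (nat_lit 87112291124057105186192341542546851233793) (nat_lit 1)) .nil))) .nil))),
 (.br (nat_lit 10) (nat_lit 1) (.cons (.br (nat_lit 6) (nat_lit 1) (.cons (.ev (nat_lit 4740813509517859880961) (nat_lit 1)) (.cons (.rf (nat_lit 47) (nat_lit 476388450)) .nil))) (.cons (.ev (nat_lit 18519084242235818241) (nat_lit 1)) (.cons (.ev (nat_lit 20361640188758531334042971800321) (nat_lit 2)) (.cons (.br (nat_lit 3) (nat_lit 1) (.cons (.rf (nat_lit 47) (nat_lit 480451682)) (.cons (.rf (nat_lit 47) (nat_lit 480615522)) (.cons (.ev (nat_lit 20361640198203120184594219925761) (nat_lit 2)) (.cons (.br (nat_lit 6) (nat_lit 1) (.cons (.rf (nat_lit 47) (nat_lit 506830018)) (.cons (.br (nat_lit 11) (nat_lit 1) (.cons (.ev (nat_lit 5212579269352127485053046207021313) (nat_lit 1)) (.cons (.rf (nat_lit 770) (nat_lit 583706111055348133726336))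 (.cons (.br (nat_lit 14) (nat_lit 1) (.cons (.ev (nat_lit 5212579269347405190627770616512513) (nat_lit 1)) (.cons (.rf (nat_lit 68) (nat_lit 17057575148738)) (.cons (.br (nat_lit 15) (nat_lit 1) (.cons (.br (nat_lit 15) (nat_lit 1) (.cons (.ev (nat_lit 2668860947543642327455917797202330369) (nat_lit 2)) .nil)) (.cons (.br (nat_lit 15) (nat_lit 1) (.cons (.ev (nat_lit 2668860947543642327455917797202330369) (nat_lit 2)) .nil)) .nil))) .nil)))) .nil)))) (.cons (.br (nat_lit 11) (nat_lit 1) (.cons (.br (nat_lit 14) (nat_lit 1) (.cons (.ev (nat_lit 10404955362113117357934225513252103) (nat_lit 3)) (.cons (.rf (nat_lit 40) (nat_lit 17810673737026)) .nil))) (.cons (.zr (nat_lit 2658455992188801784185279807383142661) (nat_lit 20361637780333034210162683019264) (nat_lit 8) (nat_lit 9)) (.cons (.br (nat_lit 15) (nat_lit 1) (.cons (.rf (nat_lit 68) (nat_lit 18089708297314)) (.cons (.rf (nat_lit 68) (nat_lit 15959372012642)) (.cons (.br (nat_lit 14) (nat_lit 1) (.cons (.br (nat_lit 14) (nat_lit 1) (.cons (.ev (nat_lit 1344865971584512807682232480589611523)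 (nat_lit 2)) .nil)) (.cons (.br (nat_lit 14) (nat_lit 1) (.cons (.ev (nat_lit 1344865971584512807682232480589611523) (nat_lit 2)) .nil)) .nil))) .nil)))) .nil)))) (.cons (.br (nat_lit 11) (nat_lit 1) (.cons (.rf (nat_lit 776) (nat_lit 622703688833168364898336)) (.cons (.br (nat_lit 15) (nat_lit 1) (.cons (.rf (nat_lit 68) (nat_lit 18089540688994)) (.cons (.ev (nat_lit 1329248278504004534395858655039782913) (nat_lit 1)) (.cons (.br (nat_lit 14) (nat_lit 1) (.cons (.rf (nat_lit 777) (nat_lit 677582165103132179601393696)) (.cons (.br (nat_lit 14) (nat_lit 1) (.cons (.rf (nat_lit 777) (nat_lit 677582165103132179601393696)) .nil)) .nil))) .nil)))) (.cons (.br (nat_lit 16) (nat_lit 1) (.cons (.ev (nat_lit 340282427926627231002153015462171115522) (nat_lit 2)) (.cons (.ev (nat_lit 680564754361971032306903525723547370243) (nat_lit 2)) (.cons (.br (nat_lit 14) (nat_lit 1) (.cons (.rf (nat_lit 778) (nat_lit 677582165103132179601393696)) (.cons (.br (nat_lit 14) (nat_lit 1) (.cons (.rf (nat_lit 778) (nat_lit 677582165103132179601393696))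 .nil)) .nil))) .nil)))) (.cons (.br (nat_lit 14) (nat_lit 1) (.cons (.rf (nat_lit 779) (nat_lit 677582165103132179601393696)) (.cons (.rf (nat_lit 780) (nat_lit 677582165103132179601393696)) (.cons (.br (nat_lit 14) (nat_lit 1) (.cons (.rf (nat_lit 779) (nat_lit 677582165103132179601393696)) (.cons (.rf (nat_lit 780) (nat_lit 677582165103132179601393696)) .nil))) .nil)))) .nil))))) .nil))))) .nil))))) .nil))))),
 (.br (nat_lit 6) (nat_lit 1) (.cons (.zr (nat_lit 20282412021521901638367292949249) (nat_lit 79847137256273511713068941312) (nat_lit 8) (nat_lit 8)) (.cons (.zr (nat_lit 20282412035688856972887664361728) (nat_lit 10384831401557198194188974251048961) (nat_lit 8) (nat_lit 8)) (.cons (.br (nat_lit 11) (nat_lit 1) (.cons (.ev (nat_lit 10405114432553461959762559224643843) (nat_lit 2)) (.cons (.ev (nat_lit 310698658079781640871149825) (nat_lit 1)) (.cons (.br (nat_lit 14) (nat_lit 1) (.cons (.ev (nat_lit 5192376087910990151305761514323968) (nat_lit 1)) (.cons (.ev (nat_lit 5253145018223441449784096749453824) (nat_lit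 2)) (.cons (.br (nat_lit 15) (nat_lit 1) (.cons (.br (nat_lit 15) (nat_lit 1) (.cons (.ev (nat_lit 2668860947543642327455917797202330369) (nat_lit 2)) .nil)) (.cons (.br (nat_lit 15) (nat_lit 1) (.cons (.ev (nat_lit 2668860947543642327455917797202330369) (nat_lit 2)) .nil)) .nil))) .nil)))) .nil)))) .nil)))),
 (.br (nat_lit 16) (nat_lit 1) (.cons (.ev (nat_lit 688540122180081131501373976262662684933) (nat_lit 3)) .nil)),
 (.br (nat_lit 15) (nat_lit 1) (.cons (.kr (nat_lit 79228162514336676662558589184) (nat_lit 1329248278194524246940713877176909824) (nat_lit 1) (nat_lit 0)) (.cons (.ev (nat_lit 1329227996095614549357994801063002368) (nat_lit 1)) (.cons (.br (nat_lit 14) (nat_lit 1) (.cons (.rf (nat_lit 783) (nat_lit 677582165103132179601393696)) (.cons (.br (nat_lit 14) (nat_lit 1) (.cons (.rf (nat_lit 783) (nat_lit 677582165103132179601393696)) .nil)) .nil))) .nil)))),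
 (.br (nat_lit 14) (nat_lit 1) (.cons (.ev (nat_lit 10404955973810618685346252616368899) (nat_lit 2)) (.cons (.br (nat_lit 15) (nat_lit 1) (.cons (.br (nat_lit 16) (nat_lit 1) (.cons (.ev (nat_lit 685881666187278176566843442624117211399) (nat_lit 3)) .nil)) (.cons (.ev (nat_lit 87112291124136334557632425212195064840193) (nat_lit 1)) .nil))) .nil))),
 (.br (nat_lit 13) (nat_lit 1) (.cons (.rf (nat_lit 68) (nat_lit 15819608467649)) (.cons (.rf (nat_lit 68) (nat_lit 13689207171265)) (.cons (.rf (nat_lit 740) (nat_lit 583670079860185898522952)) .nil)))),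
 (.br (nat_lit 16) (nat_lit 1) (.cons (.ev (nat_lit 341611594995952750794881168382531535105) (nat_lit 1)) .nil)),
 (.br (nat_lit 15) (nat_lit 1) (.cons (.ev (nat_lit 341611615199134196636206994635981127680) (nat_lit 1)) .nil)),
 (.br (nat_lit 14) (nat_lit 1) (.cons (.br (nat_lit 15) (nat_lit 1) (.cons (.ev (nat_lit 683233594947879312134516591543321755907) (nat_lit 2)) (.cons (.br (nat_lit 16) (nat_lit 1) (.cons (.ev (nat_lit 683233594947257924299984042899252708099) (nat_lit 2)) .nil)) .nil))) (.cons (.br (nat_lit 15) (nat_lit 1) (.cons (.zr (nat_lit 5316912379280476063082720246810806017) (nat_lit 31174063565662506266261444580474880) (nat_lit 8) (nat_lit 1)) (.cons (.ev (nat_lit 522679042907817506003910900185558539043585) (nat_lit 3)) .nil))) .nil)))]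

theorem c33 : chkAll C T R L33 (nat_lit 766) = true := by decide +kernel

theorem l33 : (nat_lit 766) + L33.length = (nat_lit 790) := by decide +kernel

/-- part of the certificates -/
def L34 : List Prf := [(.br (nat_lit 14) (nat_lit 1) (.cons (.rf (nat_lit 789) (nat_lit 677582165103132179601393696)) (.cons (.br (nat_lit 17) (nat_lit 1) (.cons (.zr (nat_lit 10384594955009750026788676762075139) (nat_lit 174224571883882133481987739479837920854272) (nat_lit 8) (nat_lit 9)) (.cons (.ev (nat_lit 87792850665839809274778521600596597800963) (nat_lit 2)) .nil))) .nil))),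
 (.br (nat_lit 3) (nat_lit 1) (.cons (.ev (nat_lit 79537647542532708210954993921) (nat_lit 1)) (.cons (.rf (nat_lit 711) (nat_lit 299713824918903909)) (.cons (.rf (nat_lit 738) (nat_lit 445092485129178177)) (.cons (.br (nat_lit 7) (nat_lit 1) (.cons (.rf (nat_lit 47) (nat_lit 473148610)) (.cons (.rf (nat_lit 47) (nat_lit 473246946)) (.cons (.ev (nat_lit 20362256750408161250999248487169) (nat_lit 2)) (.cons (.br (nat_lit 10) (nat_lit 1) (.cons (.rf (nat_lit 47) (nat_lit 473246914)) (.cons (.ev (nat_lit 20361640198203120184594219925761) (nat_lit 2)) (.cons (.br (nat_lit 6) (nat_lit 1) (.cons (.rf (nat_lit 770) (nat_lit 583697904378387516033152)) (.cons (.zr (nat_lit 20520094105361707000537779536640) (nat_lit 2658455992807771803539741767704379393) (nat_lit 8) (nat_lit 0)) (.cons (.rf (nat_lit 786) (nat_lit 19459454247239492439105)) .nil)))) (.cons (.br (nat_lit 6) (nat_lit 1) (.cons (.rf (nat_lit 786) (nat_lit 19423415167583625026921)) (.cons (.br (nat_lit 15) (nat_lit 1) (.cons (.rf (nat_lit 68) (nat_lit 18089667439810))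 (.cons (.rf (nat_lit 68) (nat_lit 15959136120002)) (.cons (.br (nat_lit 14) (nat_lit 1) (.cons (.rf (nat_lit 787) (nat_lit 677582165103132179601393696)) (.cons (.br (nat_lit 14) (nat_lit 1) (.cons (.rf (nat_lit 787) (nat_lit 677582165103132179601393696)) .nil)) .nil))) .nil)))) (.cons (.br (nat_lit 16) (nat_lit 1) (.cons (.rf (nat_lit 68) (nat_lit 16991128988866)) (.cons (.rf (nat_lit 68) (nat_lit 15925847076034)) (.cons (.br (nat_lit 14) (nat_lit 1) (.cons (.rf (nat_lit 788) (nat_lit 677582165103132179601393696)) (.cons (.br (nat_lit 14) (nat_lit 1) (.cons (.rf (nat_lit 788) (nat_lit 677582165103132179601393696)) .nil)) .nil))) .nil)))) (.cons (.br (nat_lit 14) (nat_lit 1) (.cons (.rf (nat_lit 789) (nat_lit 677582165103132179601393696)) (.cons (.rf (nat_lit 790) (nat_lit 677582165103132179601393696)) (.cons (.br (nat_lit 14) (nat_lit 1) (.cons (.rf (nat_lit 789) (nat_lit 677582165103132179601393696)) (.cons (.rf (nat_lit 790) (nat_lit 677582165103132179601393696)) .nil))) .nil)))) .nil))))) .nil))))) .nil))))) .nil))))),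
 (.br (nat_lit 16) (nat_lit 1) (.cons (.ev (nat_lit 680564754204133667890177500123494351619) (nat_lit 2)) .nil)),
 (.br (nat_lit 16) (nat_lit 1) (.cons (.ev (nat_lit 680564754362592420214934815871076532483) (nat_lit 2)) .nil)),
 (.br (nat_lit 7) (nat_lit 1) (.cons (.ev (nat_lit 79229371440156292395539955713) (nat_lit 1)) (.cons (.ev (nat_lit 5192376087911008597767256457347328) (nat_lit 1)) (.cons (.br (nat_lit 11) (nat_lit 1) (.cons (.rf (nat_lit 68) (nat_lit 18122861254723)) (.cons (.rf (nat_lit 40) (nat_lit 16881920743491)) (.cons (.br (nat_lit 15) (nat_lit 1) (.cons (.br (nat_lit 15) (nat_lit 1) (.cons (.ev (nat_lit 7985773406059562793917315419176305413) (nat_lit 3)) .nil)) (.cons (.br (nat_lit 15) (nat_lit 1) (.cons (.ev (nat_lit 7985773406059562793917315419176305413) (nat_lit 3)) .nil)) .nil))) .nil)))) .nil)))),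
 (.br (nat_lit 6) (nat_lit 1) (.cons (.ev (nat_lit 20282410817318375604588795461888) (nat_lit 1)) (.cons (.ev (nat_lit 5192296858534846075557144543952896) (nat_lit 1)) (.cons (.br (nat_lit 11) (nat_lit 1) (.cons (.rf (nat_lit 68) (nat_lit 18122827701315)) (.cons (.rf (nat_lit 40) (nat_lit 16881920711747)) (.cons (.rf (nat_lit 714) (nat_lit 18245278152835548351717)) .nil)))) .nil)))),
 (.br (nat_lit 16) (nat_lit 1) (.cons (.ev (nat_lit 340282367000167834921905303728196419584) (nat_lit 1)) (.cons (.ev (nat_lit 2044373447383804152302077342752606258437) (nat_lit 3)) (.cons (.ev (nat_lit 174224571883882750034211227290325282194179) (nat_lit 2)) .nil)))),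
 (.br (nat_lit 11) (nat_lit 1) (.cons (.rf (nat_lit 794) (nat_lit 583213524074663839639949)) (.cons (.rf (nat_lit 795) (nat_lit 583213524074663839639949)) (.cons (.ev (nat_lit 10384752484093397133414271266390018) (nat_lit 2)) (.cons (.br (nat_lit 6) (nat_lit 1) (.cons (.ev (nat_lit 5192296858534846075557144543952896) (nat_lit 1)) (.cons (.rf (nat_lit 130) (nat_lit 17844720351554)) (.cons (.br (nat_lit 7) (nat_lit 1) (.cons (.ev (nat_lit 5348086126552468050742491665888576259) (nat_lit 3)) (.cons (.ev (nat_lit 1361139872957266547548536163262217061127) (nat_lit 3)) (.cons (.br (nat_lit 15) (nat_lit 1) (.cons (.ev (nat_lit 683233594789420578698938098400029049603) (nat_lit 2)) (.cons (.rf (nat_lit 796) (nat_lit 677582165103132179601393696)) .nil))) .nil)))) (.cons (.br (nat_lit 7) (nat_lit 1) (.cons (.rf (nat_lit 130) (nat_lit 19076335778114)) (.cons (.br (nat_lit 15) (nat_lit 1) (.cons (.ev (nat_lit 683233594947879312134516591543321755907) (nat_lit 2)) (.cons (.br (nat_lit 16) (nat_lit 1) (.cons (.ev (nat_lit 683233594947257933744861123826585436419)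 (nat_lit 2)) .nil)) .nil))) (.cons (.br (nat_lit 15) (nat_lit 1) (.cons (.ev (nat_lit 5348086444086515460707091630379762439) (nat_lit 3)) (.cons (.ev (nat_lit 348454491813166922511785888290323623315207) (nat_lit 3)) .nil))) .nil)))) .nil))))) .nil))))),
 (.br (nat_lit 15) (nat_lit 1) (.cons (.ev (nat_lit 681893961916893646258475936795938783745) (nat_lit 2)) (.cons (.ev (nat_lit 2668861107245189358318219290703430401) (nat_lit 3)) .nil))),
 (.br (nat_lit 7) (nat_lit 1) (.cons (.br (nat_lit 15) (nat_lit 1) (.cons (.ev (nat_lit 1361160641826550115652461712055145333507) (nat_lit 3)) (.cons (.zr (nat_lit 2668901432515726523175395576827084803) (nat_lit 79847132552642566230320087296) (nat_lit 8) (nat_lit 0)) .nil))) (.cons (.rf (nat_lit 102) (nat_lit 16881841062083)) (.cons (.br (nat_lit 16) (nat_lit 1) (.cons (.br (nat_lit 15) (nat_lit 1) (.cons (.ev (nat_lit 1334420292643450719051421798845382913) (nat_lit 1)) .nil)) (.cons (.ev (nat_lit 87452568298681185114809640592838370525441) (nat_lit 1)) .nil))) .nil)))),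
 (.br (nat_lit 13) (nat_lit 1) (.cons (.br (nat_lit 15) (nat_lit 1) (.cons (.ev (nat_lit 1329248278505213460287249398980673793) (nat_lit 1)) .nil)) .nil)),
 (.br (nat_lit 6) (nat_lit 1) (.cons (.rf (nat_lit 40) (nat_lit 16710021223715)) (.cons (.rf (nat_lit 68) (nat_lit 14824153355555)) (.cons (.br (nat_lit 13) (nat_lit 1) (.cons (.rf (nat_lit 800) (nat_lit 19926519232773908561233952)) (.cons (.br (nat_lit 13) (nat_lit 1) (.cons (.rf (nat_lit 800) (nat_lit 19926519232773908561233952)) .nil)) .nil))) .nil)))),
 (.br (nat_lit 15) (nat_lit 1) (.cons (.br (nat_lit 16) (nat_lit 1) (.cons (.ev (nat_lit 88137125990095680762513201630536892743680) (nat_lit 3)) .nil)) .nil)),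
 (.br (nat_lit 15) (nat_lit 1) (.cons (.ev (nat_lit 341611594995952750794881168382531535105) (nat_lit 1)) .nil)),
 (.br (nat_lit 15) (nat_lit 1) (.cons (.br (nat_lit 14) (nat_lit 1) (.cons (.ev (nat_lit 683223210671696289889081141218295152897) (nat_lit 3)) (.cons (.br (nat_lit 16) (nat_lit 1) (.cons (.ev (nat_lit 89500934602780174046524045724911604662274) (nat_lit 4)) .nil)) .nil))) (.cons (.ev (nat_lit 2658476353210029985965967190662447363) (nat_lit 2)) .nil))),
 (.br (nat_lit 14) (nat_lit 1) (.cons (.rf (nat_lit 804) (nat_lit 677582165103132179601393696)) (.cons (.br (nat_lit 15) (nat_lit 1) (.cons (.ev (nat_lit 680575138797234185340537609899166663425) (nat_lit 2)) (.cons (.ev (nat_lit 174224571883882133491451063304847586624259) (nat_lit 2)) .nil))) .nil))),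
 (.br (nat_lit 11) (nat_lit 1) (.cons (.rf (nat_lit 47) (nat_lit 472226019)) (.cons (.ev (nat_lit 20362256740963284170071848648961) (nat_lit 2)) (.cons (.br (nat_lit 15) (nat_lit 1) (.cons (.zr (nat_lit 2658476511663922940416291940721491971) (nat_lit 621402093721601325408452864) (nat_lit 8) (nat_lit 4)) (.cons (.ev (nat_lit 1329228075322568119355973696017727488) (nat_lit 1)) (.cons (.rf (nat_lit 801) (nat_lit 622703726024184641456160)) .nil)))) (.cons (.br (nat_lit 7) (nat_lit 1) (.cons (.br (nat_lit 14) (nat_lit 1) (.cons (.ev (nat_lit 5212579269347423637652215479402753) (nat_lit 1)) (.cons (.rf (nat_lit 68) (nat_lit 17057809930307)) (.cons (.br (nat_lit 15) (nat_lit 1) (.cons (.rf (nat_lit 802) (nat_lit 677582165103132179601393696)) (.cons (.br (nat_lit 15) (nat_lit 1) (.cons (.rf (nat_lit 802) (nat_lit 677582165103132179601393696)) .nil)) .nil))) .nil)))) (.cons (.rf (nat_lit 726) (nat_lit 621558802842078474734624)) (.cons (.br (nat_lit 16) (nat_lit 1) (.cons (.ev (nat_lit 340282367000476115728273798512368484608)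 (nat_lit 1)) (.cons (.rf (nat_lit 68) (nat_lit 15925816695011)) (.cons (.br (nat_lit 14) (nat_lit 1) (.cons (.rf (nat_lit 803) (nat_lit 677582165103132179601393696)) (.cons (.br (nat_lit 14) (nat_lit 1) (.cons (.rf (nat_lit 803) (nat_lit 677582165103132179601393696)) .nil)) .nil))) .nil)))) (.cons (.br (nat_lit 14) (nat_lit 1) (.cons (.rf (nat_lit 804) (nat_lit 677582165103132179601393696)) (.cons (.rf (nat_lit 805) (nat_lit 677582165103132179601393696)) (.cons (.br (nat_lit 14) (nat_lit 1) (.cons (.rf (nat_lit 804) (nat_lit 677582165103132179601393696)) (.cons (.rf (nat_lit 805) (nat_lit 677582165103132179601393696)) .nil))) .nil)))) .nil))))) .nil))))),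
 (.br (nat_lit 12) (nat_lit 1) (.cons (.br (nat_lit 14) (nat_lit 1) (.cons (.ev (nat_lit 1329248278195733172760329610158211073) (nat_lit 1)) .nil)) .nil)),
 (.br (nat_lit 16) (nat_lit 1) (.cons (.ev (nat_lit 680575138956309480425458911124444414209) (nat_lit 2)) .nil)),
 (.br (nat_lit 16) (nat_lit 1) (.cons (.zr (nat_lit 2658476274598410157933955148683542785) (nat_lit 680564733921107507292941013203978027008) (nat_lit 8) (nat_lit 1)) .nil)),
 (.br (nat_lit 14) (nat_lit 1) (.cons (.kr (nat_lit 1334420292643455422899101901231489280) (nat_lit 20361638975091754377269481635840) (nat_lit 1) (nat_lit 0)) .nil)),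
 (.br (nat_lit 14) (nat_lit 1) (.cons (.br (nat_lit 15) (nat_lit 1) (.cons (.ev (nat_lit 683233594947879312134516591543321755907) (nat_lit 2)) (.cons (.rf (nat_lit 810) (nat_lit 661701295917511241501761)) .nil))) (.cons (.br (nat_lit 15) (nat_lit 1) (.cons (.zr (nat_lit 10384594336039730528213727388368899) (nat_lit 2658476353207602634109422584794710272) (nat_lit 8) (nat_lit 9)) (.cons (.ev (nat_lit 87112291144418742952358348080206707687680) (nat_lit 1)) .nil))) .nil))),
 (.br (nat_lit 11) (nat_lit 1) (.cons (.rf (nat_lit 47) (nat_lit 472227011)) (.cons (.ev (nat_lit 20362256740963284170071848648961) (nat_lit 2)) (.cons (.br (nat_lit 6) (nat_lit 1) (.cons (.br (nat_lit 14) (nat_lit 1) (.cons (.ev (nat_lit 31174460320599986257948918719840515) (nat_lit 3)) (.cons (.rf (nat_lit 40) (nat_lit 17977103948867)) .nil))) (.cons (.ev (nat_lit 1329228075014287331434503356708552704) (nat_lit 1)) (.cons (.br (nat_lit 15) (nat_lit 1) (.cons (.rf (nat_lit 68) (nat_lit 18089532300611)) (.cons (.ev (nat_lit 7975388654505109906400510366917329159)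 (nat_lit 3)) (.cons (.br (nat_lit 14) (nat_lit 1) (.cons (.rf (nat_lit 807) (nat_lit 661701295917511240419360)) (.cons (.br (nat_lit 14) (nat_lit 1) (.cons (.rf (nat_lit 807) (nat_lit 661701295917511240419360)) .nil)) .nil))) .nil)))) .nil)))) (.cons (.br (nat_lit 6) (nat_lit 1) (.cons (.br (nat_lit 14) (nat_lit 1) (.cons (.rf (nat_lit 68) (nat_lit 18122994293827)) (.cons (.ev (nat_lit 31174460320599986257948918719840515) (nat_lit 3)) (.cons (.br (nat_lit 15) (nat_lit 1) (.cons (.rf (nat_lit 808) (nat_lit 677582165103132179601393696)) (.cons (.br (nat_lit 15) (nat_lit 1) (.cons (.rf (nat_lit 808) (nat_lit 677582165103132179601393696)) .nil)) .nil))) .nil)))) (.cons (.br (nat_lit 15) (nat_lit 1) (.cons (.rf (nat_lit 68) (nat_lit 18089700039875)) (.cons (.ev (nat_lit 2658476353826572672342971992586060035) (nat_lit 2)) (.cons (.br (nat_lit 14) (nat_lit 1) (.cons (.rf (nat_lit 809) (nat_lit 677582165103132179601393696)) (.cons (.br (nat_lit 14) (nat_lit 1) (.cons (.rf (nat_lit 809) (nat_lit 677582165103132179601393696))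 .nil)) .nil))) .nil)))) (.cons (.rf (nat_lit 719) (nat_lit 17100282706126319037673)) (.cons (.br (nat_lit 14) (nat_lit 1) (.cons (.rf (nat_lit 811) (nat_lit 677582165103132179601393696)) (.cons (.br (nat_lit 14) (nat_lit 1) (.cons (.rf (nat_lit 811) (nat_lit 677582165103132179601393696)) (.cons (.ev (nat_lit 5192376396182370233296301338984448) (nat_lit 1)) .nil))) (.cons (.br (nat_lit 14) (nat_lit 1) (.cons (.rf (nat_lit 811) (nat_lit 677582165103132179601393696)) (.cons (.ev (nat_lit 5192376396182370233296301338984448) (nat_lit 1)) .nil))) .nil)))) .nil))))) .nil))))),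
 (.br (nat_lit 14) (nat_lit 1) (.cons (.ev (nat_lit 79537652264971248674654912513) (nat_lit 1)) (.cons (.br (nat_lit 7) (nat_lit 1) (.cons (.ev (nat_lit 10405113811175035411371852669387523) (nat_lit 2)) (.cons (.rf (nat_lit 68) (nat_lit 18122860080195)) .nil))) (.cons (.rf (nat_lit 801) (nat_lit 621544745769363968469389)) .nil)))),
 (.br (nat_lit 16) (nat_lit 1) (.cons (.ev (nat_lit 340298004817202835484966549357137560323) (nat_lit 2)) .nil)),
 (.br (nat_lit 14) (nat_lit 1) (.cons (.rf (nat_lit 68) (nat_lit 18122826558531)) (.cons (.rf (nat_lit 68) (nat_lit 17057804692547)) (.cons (.br (nat_lit 15) (nat_lit 1) (.cons (.rf (nat_lit 814) (nat_lit 677582165103132179601393696)) (.cons (.br (nat_lit 15) (nat_lit 1) (.cons (.rf (nat_lit 814) (nat_lit 677582165103132179601393696)) .nil)) .nil))) .nil))))]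

theorem c34 : chkAll C T R L34 (nat_lit 790) = true := by decide +kernel

theorem l34 : (nat_lit 790) + L34.length = (nat_lit 816) := by decide +kernel

/-- part of the certificates -/
def L35 : List Prf := [(.br (nat_lit 14) (nat_lit 1) (.cons (.br (nat_lit 15) (nat_lit 1) (.cons (.ev (nat_lit 1334420372183520798624298603968070402) (nat_lit 2)) (.cons (.ev (nat_lit 1334420292643450719051421798845382913) (nat_lit 1)) .nil))) (.cons (.br (nat_lit 15) (nat_lit 1) (.cons (.ev (nat_lit 1334420292643450719051421798845382913) (nat_lit 1)) (.cons (.ev (nat_lit 174224571883882133491451063304847586624259) (nat_lit 2)) .nil))) .nil))),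
 (.br (nat_lit 14) (nat_lit 1) (.cons (.rf (nat_lit 816) (nat_lit 677582165103132179601393696)) (.cons (.br (nat_lit 17) (nat_lit 1) (.cons (.ev (nat_lit 174224571883882133491451063304847586624259) (nat_lit 2)) (.cons (.ev (nat_lit 2041725375985951399656115640175952134917) (nat_lit 3)) .nil))) .nil))),
 (.br (nat_lit 15) (nat_lit 1) (.cons (.kr (nat_lit 1334420292644664348718435064019419392) (nat_lit 340282387203967037134688004090957463552) (nat_lit 1) (nat_lit 0)) .nil)),
 (.br (nat_lit 16) (nat_lit 1) (.cons (.ev (nat_lit 680564754362592420214934815871076532483) (nat_lit 2)) .nil)),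
 (.br (nat_lit 6) (nat_lit 1) (.cons (.ev (nat_lit 20520094095935421345120720651009) (nat_lit 2)) (.cons (.rf (nat_lit 806) (nat_lit 546615183832424089233805)) (.cons (.ev (nat_lit 5212658496305734376520079990915073) (nat_lit 1)) (.cons (.br (nat_lit 11) (nat_lit 1) (.cons (.rf (nat_lit 812) (nat_lit 546615183832424089233805)) (.cons (.ev (nat_lit 20362256740963284170071848648961) (nat_lit 2)) (.cons (.ev (nat_lit 1329228075014287331434503356708552704) (nat_lit 1)) (.cons (.br (nat_lit 7) (nat_lit 1) (.cons (.ev (nat_lit 5212579269347423637652215479402753) (nat_lit 1)) (.cons (.rf (nat_lit 119) (nat_lit 18076815146214)) (.cons (.br (nat_lit 15) (nat_lit 1) (.cons (.ev (nat_lit 5348086602540413082038996561737942787) (nat_lit 3)) (.cons (.ev (nat_lit 341611594996261031582802638721807024385) (nat_lit 1)) (.cons (.br (nat_lit 16) (nat_lit 1) (.cons (.ev (nat_lit 1361139872799429192613580141613742818051) (nat_lit 3)) (.cons (.ev (nat_lit 341611615199134196636206994635981127680) (nat_lit 1)) .nil))) .nil)))) (.cons (.br (nat_lit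 14) (nat_lit 1) (.cons (.rf (nat_lit 130) (nat_lit 19077513328738)) (.cons (.br (nat_lit 15) (nat_lit 1) (.cons (.ev (nat_lit 5348086286249160377602908405379629827) (nat_lit 3)) (.cons (.rf (nat_lit 762) (nat_lit 20003295663532463005669444)) .nil))) (.cons (.br (nat_lit 17) (nat_lit 1) (.cons (.ev (nat_lit 174224571883882133491451063304847586624259) (nat_lit 2)) (.cons (.ev (nat_lit 174224571883882750034211227290325282194179) (nat_lit 2)) .nil))) .nil)))) .nil))))) .nil))))) (.cons (.br (nat_lit 11) (nat_lit 1) (.cons (.rf (nat_lit 812) (nat_lit 546615183832424089233805)) (.cons (.ev (nat_lit 20362256740963284170071848648961) (nat_lit 2)) (.cons (.br (nat_lit 7) (nat_lit 1) (.cons (.ev (nat_lit 10384594030195628083445942989160960) (nat_lit 2)) (.cons (.ev (nat_lit 2658456150336864932416933138459197440) (nat_lit 2)) (.cons (.ev (nat_lit 20521023764594624730449158800129) (nat_lit 2)) (.cons (.br (nat_lit 14) (nat_lit 1) (.cons (.ev (nat_lit 2668861105381006817967793775006843649) (nat_lit 2)) (.cons (.br (nat_lit 15) (nat_lit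 1) (.cons (.ev (nat_lit 1334420372800082448254211162197984002) (nat_lit 2)) (.cons (.ev (nat_lit 2658456150336864932561048326568477186) (nat_lit 2)) .nil))) (.cons (.ev (nat_lit 10384594030195628227561131098701826) (nat_lit 2)) .nil)))) .nil))))) (.cons (.br (nat_lit 7) (nat_lit 1) (.cons (.ev (nat_lit 5212579577628211559122554788577537) (nat_lit 1)) (.cons (.br (nat_lit 15) (nat_lit 1) (.cons (.ev (nat_lit 5348086603156955842202977658566870787) (nat_lit 3)) (.cons (.ev (nat_lit 341611594995952750794881168382531535105) (nat_lit 1)) (.cons (.br (nat_lit 16) (nat_lit 1) (.cons (.ev (nat_lit 1361139872797569855147599409536603128579) (nat_lit 3)) (.cons (.ev (nat_lit 341611615199442468016288985175772102656) (nat_lit 1)) .nil))) .nil)))) (.cons (.rf (nat_lit 119) (nat_lit 16977269997798)) (.cons (.br (nat_lit 14) (nat_lit 1) (.cons (.br (nat_lit 15) (nat_lit 1) (.cons (.ev (nat_lit 5348086601923870469160728916767277831) (nat_lit 3)) (.cons (.rf (nat_lit 818) (nat_lit 21174442659472880612543553)) .nil))) (.cons (.rf (nat_lit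 130) (nat_lit 19043187177570)) (.cons (.br (nat_lit 17) (nat_lit 1) (.cons (.ev (nat_lit 174224571883882133491451063304847586624259) (nat_lit 2)) (.cons (.ev (nat_lit 174224571883882750034211227290325282194179) (nat_lit 2)) .nil))) .nil)))) .nil))))) (.cons (.br (nat_lit 7) (nat_lit 1) (.cons (.br (nat_lit 15) (nat_lit 1) (.cons (.rf (nat_lit 819) (nat_lit 677582165103132179601393696)) (.cons (.br (nat_lit 15) (nat_lit 1) (.cons (.rf (nat_lit 819) (nat_lit 677582165103132179601393696)) .nil)) .nil))) (.cons (.br (nat_lit 14) (nat_lit 1) (.cons (.rf (nat_lit 130) (nat_lit 17976929007714)) (.cons (.br (nat_lit 15) (nat_lit 1) (.cons (.ev (nat_lit 5348086284389823059196137748369113859) (nat_lit 3)) (.cons (.br (nat_lit 16) (nat_lit 1) (.cons (.ev (nat_lit 342940822992048370084981175862591422465) (nat_lit 2)) .nil)) .nil))) (.cons (.br (nat_lit 15) (nat_lit 1) (.cons (.br (nat_lit 16) (nat_lit 1) (.cons (.ev (nat_lit 680564754362592420214934815871076532483) (nat_lit 2)) .nil)) (.cons (.ev (nat_lit 174227240724626495678455566381745109598467)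 (nat_lit 2)) .nil))) .nil)))) (.cons (.br (nat_lit 14) (nat_lit 1) (.cons (.br (nat_lit 16) (nat_lit 1) (.cons (.ev (nat_lit 340287559217796998291075195526447104001) (nat_lit 1)) (.cons (.ev (nat_lit 340287579579745458392650916765125116160) (nat_lit 1)) .nil))) (.cons (.rf (nat_lit 130) (nat_lit 16881610668130)) (.cons (.br (nat_lit 16) (nat_lit 1) (.cons (.ev (nat_lit 340287579579745458392650916765125116160) (nat_lit 1)) (.cons (.ev (nat_lit 340287559217796998291075195526447104001) (nat_lit 1)) .nil))) .nil)))) (.cons (.br (nat_lit 14) (nat_lit 1) (.cons (.br (nat_lit 15) (nat_lit 1) (.cons (.br (nat_lit 16) (nat_lit 1) (.cons (.ev (nat_lit 680564754362592420214934815871076532483) (nat_lit 2)) .nil)) (.cons (.ev (nat_lit 174227240724626495678455566381745109598467) (nat_lit 2)) .nil))) (.cons (.br (nat_lit 15) (nat_lit 1) (.cons (.ev (nat_lit 680575139115389639548289918072370103041) (nat_lit 3)) (.cons (.ev (nat_lit 348449154132472953177959541592425094055683) (nat_lit 3)) .nil))) (.cons (.rf (nat_lit 130) (nat_lit 17942602889314))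 .nil)))) .nil))))) .nil)))))) .nil)))))),
 (.br (nat_lit 7) (nat_lit 1) (.cons (.rf (nat_lit 119) (nat_lit 17054580324546)) (.cons (.br (nat_lit 14) (nat_lit 1) (.cons (.ev (nat_lit 1334420372181098224618021322701668353) (nat_lit 1)) (.cons (.zr (nat_lit 680564733842498314816477881653054930945) (nat_lit 20789707528235227488719720874509568) (nat_lit 8) (nat_lit 4)) (.cons (.br (nat_lit 15) (nat_lit 1) (.cons (.zr (nat_lit 685881747474749096238100997833284912387) (nat_lit 9695018389332494121041920) (nat_lit 8) (nat_lit 13)) (.cons (.ev (nat_lit 1334440575054263278022377236842217728) (nat_lit 1)) .nil))) .nil)))) (.cons (.ev (nat_lit 340282367000476115728273798512368484608) (nat_lit 1)) (.cons (.br (nat_lit 14) (nat_lit 1) (.cons (.br (nat_lit 15) (nat_lit 1) (.cons (.ev (nat_lit 683233594788804017123095162119457473283) (nat_lit 2)) (.cons (.ev (nat_lit 2668861423536442062754298650968721153) (nat_lit 3)) .nil))) (.cons (.rf (nat_lit 130) (nat_lit 19043184031938)) (.cons (.br (nat_lit 17) (nat_lit 1) (.cons (.ev (nat_lit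 174224571883882133491451063304847586624259) (nat_lit 2)) (.cons (.zr (nat_lit 680564733921105089441158231707506311169) (nat_lit 20789469843757147730738615246913792) (nat_lit 8) (nat_lit 4)) .nil))) .nil)))) .nil))))),
 (.br (nat_lit 14) (nat_lit 1) (.cons (.br (nat_lit 15) (nat_lit 1) (.cons (.ev (nat_lit 683233594789420578698938098400029049603) (nat_lit 2)) .nil)) .nil)),
 (.br (nat_lit 14) (nat_lit 1) (.cons (.br (nat_lit 15) (nat_lit 1) (.cons (.ev (nat_lit 683233594947879312134516591543321755907) (nat_lit 2)) (.cons (.zr (nat_lit 2668901433134682431058872612086087683) (nat_lit 79233002940198072310321643776) (nat_lit 8) (nat_lit 13)) .nil))) (.cons (.rf (nat_lit 130) (nat_lit 19042110290146)) (.cons (.br (nat_lit 17) (nat_lit 1) (.cons (.ev (nat_lit 174224571884041208786535984606072864375043) (nat_lit 2)) (.cons (.ev (nat_lit 87792861050433834625221700690489028706817) (nat_lit 2)) .nil))) .nil)))),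
 (.br (nat_lit 14) (nat_lit 1) (.cons (.br (nat_lit 15) (nat_lit 1) (.cons (.ev (nat_lit 88137136333966122290354818601554918048256) (nat_lit 2)) .nil)) .nil)),
 (.br (nat_lit 14) (nat_lit 1) (.cons (.zr (nat_lit 20789707528230523424869035397873923) (nat_lit 680564733841881767352538271450874904576) (nat_lit 8) (nat_lit 13)) (.cons (.rf (nat_lit 134) (nat_lit 11254091956579)) .nil))),
 (.br (nat_lit 14) (nat_lit 1) (.cons (.br (nat_lit 15) (nat_lit 1) (.cons (.ev (nat_lit 1369115240772279369311236991195889796865) (nat_lit 3)) (.cons (.zr (nat_lit 623810463734381116569944065) (nat_lit 2668901670200199899157753061709973248) (nat_lit 8) (nat_lit 4)) .nil))) (.cons (.br (nat_lit 15) (nat_lit 1) (.cons (.zr (nat_lit 623810463734381116569944065) (nat_lit 2668901670200199899157753061709973248) (nat_lit 8) (nat_lit 4)) (.cons (.ev (nat_lit 348451833357651957148979112268912134456065) (nat_lit 3)) .nil))) .nil))),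
 (.br (nat_lit 14) (nat_lit 1) (.cons (.rf (nat_lit 826) (nat_lit 677582165103132179601393696)) (.cons (.br (nat_lit 16) (nat_lit 1) (.cons (.br (nat_lit 15) (nat_lit 1) (.cons (.ev (nat_lit 2668861265082544330455394322328454401) (nat_lit 3)) .nil)) (.cons (.ev (nat_lit 523354301114112122991474031139069320495877) (nat_lit 3)) .nil))) .nil))),
 (.br (nat_lit 7) (nat_lit 1) (.cons (.rf (nat_lit 757) (nat_lit 21135556777586840667462757)) (.cons (.br (nat_lit 14) (nat_lit 1) (.cons (.rf (nat_lit 130) (nat_lit 17973707782338)) (.cons (.br (nat_lit 15) (nat_lit 1) (.cons (.ev (nat_lit 1334440575054263278022377236842217728) (nat_lit 1)) (.cons (.br (nat_lit 16) (nat_lit 1) (.cons (.ev (nat_lit 2047021518782899699579491228947228656389) (nat_lit 3)) .nil)) .nil))) (.cons (.br (nat_lit 17) (nat_lit 1) (.cons (.ev (nat_lit 1334440575054263278022377236842217728) (nat_lit 1)) (.cons (.rf (nat_lit 818) (nat_lit 19930083990698098125179076)) .nil))) .nil)))) (.cons (.br (nat_lit 14) (nat_lit 1) (.cons (.br (nat_lit 16) (nat_lit 1) (.cons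 (.ev (nat_lit 1369115240772279369311525221571974136581) (nat_lit 3)) (.cons (.ev (nat_lit 340287579579745458392650916765125116160) (nat_lit 1)) .nil))) (.cons (.ev (nat_lit 340287559217796998291075195526447104001) (nat_lit 1)) (.cons (.br (nat_lit 16) (nat_lit 1) (.cons (.ev (nat_lit 340287559218107696967529383262901305345) (nat_lit 1)) (.cons (.ev (nat_lit 523354301114112122991474031139069320495877) (nat_lit 3)) .nil))) .nil)))) (.cons (.br (nat_lit 14) (nat_lit 1) (.cons (.br (nat_lit 17) (nat_lit 1) (.cons (.ev (nat_lit 87114949580128831644926755174456829805056) (nat_lit 2)) (.cons (.ev (nat_lit 174224582268634925846746508701326232256769) (nat_lit 2)) .nil))) (.cons (.br (nat_lit 17) (nat_lit 1) (.cons (.ev (nat_lit 174224582268634925846746508701326232256769) (nat_lit 2)) (.cons (.ev (nat_lit 87792855858136976095116438642862344765952) (nat_lit 2)) .nil))) (.cons (.ev (nat_lit 174224582268634304468283066261729884373249) (nat_lit 2)) .nil)))) .nil))))),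
 (.br (nat_lit 14) (nat_lit 1) (.cons (.kr (nat_lit 1334420292643455422899101901231489280) (nat_lit 20361638975091754377269481635840) (nat_lit 1) (nat_lit 0)) .nil)),
 (.br (nat_lit 7) (nat_lit 1) (.cons (.br (nat_lit 14) (nat_lit 1) (.cons (.br (nat_lit 15) (nat_lit 1) (.cons (.ev (nat_lit 340287559217796998291075195526447104001) (nat_lit 1)) (.cons (.rf (nat_lit 829) (nat_lit 661701295917511241501761)) .nil))) (.cons (.rf (nat_lit 130) (nat_lit 16881573968098)) (.cons (.br (nat_lit 17) (nat_lit 1) (.cons (.rf (nat_lit 796) (nat_lit 561601532280609232638028173)) (.cons (.ev (nat_lit 340287559217796998291075195526447104001) (nat_lit 1)) .nil))) .nil)))) (.cons (.br (nat_lit 15) (nat_lit 1) (.cons (.br (nat_lit 14) (nat_lit 1) (.cons (.ev (nat_lit 683223210195086956912571066866089329409) (nat_lit 2)) (.cons (.zr (nat_lit 2668901432515726523175395576827084803) (nat_lit 79847132552642566230320087296) (nat_lit 8) (nat_lit 0)) .nil))) (.cons (.rf (nat_lit 130) (nat_lit 15773472406855)) (.cons (.br (nat_lit 16) (nat_lit 1)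 (.cons (.ev (nat_lit 344270111993517203533978862543930851843) (nat_lit 2)) (.cons (.ev (nat_lit 683223210195086956912571066866089329409) (nat_lit 2)) .nil))) .nil)))) (.cons (.br (nat_lit 14) (nat_lit 1) (.cons (.br (nat_lit 14) (nat_lit 1) (.cons (.ev (nat_lit 340287579579745458392650916765125116160) (nat_lit 1)) .nil)) (.cons (.br (nat_lit 14) (nat_lit 1) (.cons (.ev (nat_lit 340287579579745458392650916765125116160) (nat_lit 1)) .nil)) .nil))) (.cons (.br (nat_lit 16) (nat_lit 1) (.cons (.br (nat_lit 17) (nat_lit 1) (.cons (.ev (nat_lit 349129739635027509422353940870516143556357) (nat_lit 3)) (.cons (.ev (nat_lit 87452568319043133574911216314077082091520) (nat_lit 1)) .nil))) (.cons (.br (nat_lit 17) (nat_lit 1) (.cons (.ev (nat_lit 87452568319043133574911216314077082091520) (nat_lit 1)) (.cons (.ev (nat_lit 175593676719859368818509609789922645903109) (nat_lit 3)) .nil))) (.cons (.ev (nat_lit 87452568298681185114809640592838370525441) (nat_lit 1)) .nil)))) .nil))))),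
 (.br (nat_lit 5) (nat_lit 0) (.cons (.rf (nat_lit 218) (nat_lit 13158879264)) (.cons (.rf (nat_lit 218) (nat_lit 8998129696)) (.cons (.br (nat_lit 8) (nat_lit 0) (.cons (.rf (nat_lit 218) (nat_lit 5780049952)) (.cons (.br (nat_lit 12) (nat_lit 0) (.cons (.br (nat_lit 2) (nat_lit 1) (.cons (.rf (nat_lit 769) (nat_lit 493858305440582043680)) (.cons (.rf (nat_lit 775) (nat_lit 493858305440582043680)) (.cons (.rf (nat_lit 781) (nat_lit 493858305440582043680)) (.cons (.br (nat_lit 7) (nat_lit 1) (.cons (.ev (nat_lit 20520094095972314268110539587841) (nat_lit 2)) (.cons (.ev (nat_lit 20678552848371147920852834714881) (nat_lit 3)) (.cons (.ev (nat_lit 20361640188758531334042971800321) (nat_lit 2)) (.cons (.br (nat_lit 3) (nat_lit 1) (.cons (.rf (nat_lit 47) (nat_lit 477309026)) (.cons (.rf (nat_lit 47) (nat_lit 477472866)) (.cons (.rf (nat_lit 782) (nat_lit 17022140995484340291616)) (.cons (.br (nat_lit 11) (nat_lit 1) (.cons (.rf (nat_lit 47) (nat_lit 506833090)) (.cons (.rf (nat_lit 782) (nat_lit 16529546130306413996429))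 (.cons (.br (nat_lit 6) (nat_lit 1) (.cons (.ev (nat_lit 310698658079781640871149825) (nat_lit 1)) (.cons (.ev (nat_lit 2658476353210020541088886263262610179) (nat_lit 2)) (.cons (.rf (nat_lit 743) (nat_lit 547219648041913733548160)) .nil)))) (.cons (.br (nat_lit 6) (nat_lit 1) (.cons (.br (nat_lit 14) (nat_lit 1) (.cons (.rf (nat_lit 68) (nat_lit 18122986989762)) (.cons (.rf (nat_lit 68) (nat_lit 17057575053506)) (.cons (.br (nat_lit 15) (nat_lit 1) (.cons (.br (nat_lit 15) (nat_lit 1) (.cons (.ev (nat_lit 2668860947543642327455917797202330369) (nat_lit 2)) .nil)) (.cons (.br (nat_lit 15) (nat_lit 1) (.cons (.ev (nat_lit 2668860947543642327455917797202330369) (nat_lit 2)) .nil)) .nil))) .nil)))) (.cons (.rf (nat_lit 784) (nat_lit 19926519232773908561233952)) (.cons (.rf (nat_lit 784) (nat_lit 18754879750157058621942157)) (.cons (.br (nat_lit 14) (nat_lit 1) (.cons (.rf (nat_lit 785) (nat_lit 677582165103132179601393696)) (.cons (.rf (nat_lit 785) (nat_lit 676410525620515329662101901)) (.cons (.br (nat_lit 14) (nat_lit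 1) (.cons (.rf (nat_lit 785) (nat_lit 677582165103132179601393696)) (.cons (.rf (nat_lit 785) (nat_lit 676410525620515329662101901)) .nil))) .nil)))) .nil))))) .nil))))) .nil))))) .nil))))) (.cons (.rf (nat_lit 791) (nat_lit 493858305440582043680)) (.cons (.br (nat_lit 10) (nat_lit 1) (.cons (.rf (nat_lit 791) (nat_lit 1263440262655748493)) (.cons (.rf (nat_lit 775) (nat_lit 1263440262655748493)) (.cons (.rf (nat_lit 781) (nat_lit 1263440262655748493)) (.cons (.rf (nat_lit 769) (nat_lit 1263440262655748493)) (.cons (.br (nat_lit 14) (nat_lit 1) (.cons (.ev (nat_lit 20361640198203120184594219925761) (nat_lit 2)) (.cons (.br (nat_lit 3) (nat_lit 1) (.cons (.ev (nat_lit 31174618157954995288046957410779395) (nat_lit 3)) (.cons (.ev (nat_lit 10404955973820026381269415931937539) (nat_lit 2)) (.cons (.br (nat_lit 7) (nat_lit 1) (.cons (.ev (nat_lit 10405114432581796303900856455005443) (nat_lit 3)) (.cons (.ev (nat_lit 5212579269347405190627770616512513) (nat_lit 1)) (.cons (.br (nat_lit 11) (nat_lit 1) (.cons (.ev (nat_lit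 10384594030195664977494832782049280) (nat_lit 2)) (.cons (.ev (nat_lit 5212579577628230005584049698045953) (nat_lit 1)) (.cons (.br (nat_lit 15) (nat_lit 1) (.cons (.rf (nat_lit 792) (nat_lit 677582165103132179601393696)) (.cons (.br (nat_lit 15) (nat_lit 1) (.cons (.rf (nat_lit 792) (nat_lit 677582165103132179601393696)) .nil)) .nil))) .nil)))) .nil)))) .nil)))) (.cons (.br (nat_lit 3) (nat_lit 1) (.cons (.ev (nat_lit 31174618157954995288046957410779395) (nat_lit 3)) (.cons (.ev (nat_lit 10405114432553461959762559224643843) (nat_lit 2)) (.cons (.br (nat_lit 6) (nat_lit 1) (.cons (.ev (nat_lit 10405114432581796303900856455005443) (nat_lit 3)) (.cons (.ev (nat_lit 5192296858534846075557144543952896) (nat_lit 1)) (.cons (.br (nat_lit 11) (nat_lit 1) (.cons (.ev (nat_lit 10384752484093397277529459375931904) (nat_lit 2)) (.cons (.ev (nat_lit 5192297169233485636254543145598976) (nat_lit 1)) (.cons (.br (nat_lit 15) (nat_lit 1) (.cons (.rf (nat_lit 793) (nat_lit 677582165103132179601393696)) (.cons (.br (nat_lit 15) (nat_lit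 1) (.cons (.rf (nat_lit 793) (nat_lit 677582165103132179601393696)) .nil)) .nil))) .nil)))) .nil)))) .nil)))) (.cons (.ev (nat_lit 20362256740963284170071848648961) (nat_lit 2)) (.cons (.br (nat_lit 3) (nat_lit 1) (.cons (.rf (nat_lit 794) (nat_lit 583706118939841765935136)) (.cons (.rf (nat_lit 795) (nat_lit 583706118939841765935136)) (.cons (.br (nat_lit 6) (nat_lit 1) (.cons (.ev (nat_lit 20679169419354973893534700012801) (nat_lit 3)) (.cons (.br (nat_lit 7) (nat_lit 1) (.cons (.ev (nat_lit 79537652264971248674654912513) (nat_lit 1)) (.cons (.rf (nat_lit 68) (nat_lit 18122856016963)) .nil))) (.cons (.br (nat_lit 7) (nat_lit 1) (.cons (.rf (nat_lit 68) (nat_lit 18122823511107)) (.cons (.ev (nat_lit 79537652264971248674654912513) (nat_lit 1)) (.cons (.rf (nat_lit 776) (nat_lit 625064547533817601305888)) .nil)))) .nil)))) (.cons (.rf (nat_lit 797) (nat_lit 583706118939841765935136)) (.cons (.br (nat_lit 11) (nat_lit 1) (.cons (.rf (nat_lit 794) (nat_lit 583213524074663839639949)) (.cons (.rf (nat_lit 714) (nat_lit 18243980838696311237865))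 (.cons (.rf (nat_lit 797) (nat_lit 583213524074663839639949)) (.cons (.br (nat_lit 16) (nat_lit 1) (.cons (.ev (nat_lit 680564734000643960076465606493569483264) (nat_lit 2)) (.cons (.ev (nat_lit 680564733842190043454986749262686126080) (nat_lit 2)) (.cons (.ev (nat_lit 680575138955688101998909394517982577409) (nat_lit 2)) (.cons (.br (nat_lit 6) (nat_lit 1) (.cons (.rf (nat_lit 40) (nat_lit 16881920613446)) (.cons (.br (nat_lit 7) (nat_lit 1) (.cons (.ev (nat_lit 1334420371872826881429516722683052033) (nat_lit 1)) (.cons (.ev (nat_lit 680595928663534298921237931043384919554) (nat_lit 3)) .nil))) (.cons (.br (nat_lit 7) (nat_lit 1) (.cons (.kr (nat_lit 680564733841878135871159688758791569408) (nat_lit 10384594026559387445452980510261248) (nat_lit 2) (nat_lit 0)) (.cons (.ev (nat_lit 87452568298681495804041361814835567853825) (nat_lit 1)) .nil))) .nil)))) .nil))))) (.cons (.br (nat_lit 6) (nat_lit 1) (.cons (.rf (nat_lit 786) (nat_lit 20605308472765764111589)) (.cons (.br (nat_lit 7) (nat_lit 1) (.cons (.ev (nat_lit 1334420371872826881429516722683052033)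 (nat_lit 1)) (.cons (.rf (nat_lit 798) (nat_lit 677582165103132179601393696)) (.cons (.rf (nat_lit 798) (nat_lit 640104972100213497259207053)) .nil)))) (.cons (.rf (nat_lit 799) (nat_lit 677582165103132179601393696)) (.cons (.rf (nat_lit 799) (nat_lit 640104972100213497259207053)) .nil))))) .nil)))))) .nil)))))) .nil)))))) (.cons (.br (nat_lit 3) (nat_lit 1) (.cons (.rf (nat_lit 806) (nat_lit 583706118939841765935136)) (.cons (.rf (nat_lit 812) (nat_lit 583706118939841765935136)) (.cons (.br (nat_lit 6) (nat_lit 1) (.cons (.ev (nat_lit 20679169419354973893534700012801) (nat_lit 3)) (.cons (.rf (nat_lit 813) (nat_lit 583706118939841765935136)) (.cons (.rf (nat_lit 813) (nat_lit 546615183832424089233805)) (.cons (.br (nat_lit 7) (nat_lit 1) (.cons (.rf (nat_lit 815) (nat_lit 19926519232773908561233952)) (.cons (.rf (nat_lit 815) (nat_lit 19889428297666490884532621)) (.cons (.ev (nat_lit 79537652264971248674654912513) (nat_lit 1)) (.cons (.br (nat_lit 14) (nat_lit 1) (.cons (.rf (nat_lit 816) (nat_lit 677582165103132179601393696))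 (.cons (.rf (nat_lit 817) (nat_lit 677582165103132179601393696)) (.cons (.br (nat_lit 14) (nat_lit 1) (.cons (.rf (nat_lit 816) (nat_lit 677582165103132179601393696)) (.cons (.rf (nat_lit 817) (nat_lit 677582165103132179601393696)) .nil))) .nil)))) .nil))))) .nil))))) (.cons (.rf (nat_lit 820) (nat_lit 583706118939841765935136)) (.cons (.ev (nat_lit 20361640198203120184594219925761) (nat_lit 2)) (.cons (.br (nat_lit 11) (nat_lit 1) (.cons (.rf (nat_lit 806) (nat_lit 546615183832424089233805)) (.cons (.rf (nat_lit 812) (nat_lit 546615183832424089233805)) (.cons (.ev (nat_lit 20362256740963284170071848648961) (nat_lit 2)) (.cons (.rf (nat_lit 820) (nat_lit 546615183832424089233805)) (.cons (.br (nat_lit 6) (nat_lit 1) (.cons (.rf (nat_lit 786) (nat_lit 18315643555598415694020)) (.cons (.rf (nat_lit 821) (nat_lit 19926519232773908561233952)) (.cons (.rf (nat_lit 821) (nat_lit 19889428297666490884532621)) (.cons (.br (nat_lit 7) (nat_lit 1) (.cons (.ev (nat_lit 340282387282576229647828171739839398145) (nat_lit 1)) (.cons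 (.ev (nat_lit 340282387282886928287388869138441044225) (nat_lit 1)) (.cons (.br (nat_lit 14) (nat_lit 1) (.cons (.rf (nat_lit 822) (nat_lit 677582165103132179601393696)) (.cons (.br (nat_lit 14) (nat_lit 1) (.cons (.rf (nat_lit 822) (nat_lit 677582165103132179601393696)) .nil)) .nil))) .nil)))) (.cons (.br (nat_lit 7) (nat_lit 1) (.cons (.rf (nat_lit 823) (nat_lit 677582165103132179601393696)) (.cons (.rf (nat_lit 823) (nat_lit 677545074168024761924692365)) (.cons (.br (nat_lit 14) (nat_lit 1) (.cons (.rf (nat_lit 824) (nat_lit 677582165103132179601393696)) (.cons (.br (nat_lit 14) (nat_lit 1) (.cons (.rf (nat_lit 824) (nat_lit 677582165103132179601393696)) .nil)) .nil))) (.cons (.br (nat_lit 16) (nat_lit 1) (.cons (.rf (nat_lit 825) (nat_lit 677582165103132179601393696)) (.cons (.rf (nat_lit 825) (nat_lit 677545074168024761924692365)) (.cons (.ev (nat_lit 87452568319042822876271655616678446759936) (nat_lit 1)) .nil)))) .nil))))) .nil)))))) (.cons (.br (nat_lit 6) (nat_lit 1) (.cons (.br (nat_lit 14) (nat_lit 1) (.cons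 (.rf (nat_lit 826) (nat_lit 677582165103132179601393696)) (.cons (.rf (nat_lit 827) (nat_lit 677582165103132179601393696)) (.cons (.br (nat_lit 14) (nat_lit 1) (.cons (.rf (nat_lit 826) (nat_lit 677582165103132179601393696)) (.cons (.rf (nat_lit 827) (nat_lit 677582165103132179601393696)) .nil))) .nil)))) (.cons (.rf (nat_lit 828) (nat_lit 677582165103132179601393696)) (.cons (.rf (nat_lit 828) (nat_lit 640068373759971257508800909)) (.cons (.rf (nat_lit 830) (nat_lit 677582165103132179601393696)) (.cons (.rf (nat_lit 830) (nat_lit 640068373759971257508800909)) .nil)))))) .nil))))))) .nil))))))) .nil))))))) .nil))))))) .nil)) .nil))) .nil))))]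

theorem c35 : chkAll C T R L35 (nat_lit 816) = true := by decide +kernel

theorem l35 : (nat_lit 816) + L35.length = (nat_lit 832) := by decide +kernel

/-- part of the certificates -/
def L36 : List Prf := [(.br (nat_lit 14) (nat_lit 1) (.cons (.br (nat_lit 16) (nat_lit 1) (.cons (.ev (nat_lit 2047011133872265134793386399635284951299) (nat_lit 3)) (.cons (.zr (nat_lit 680564754203514693111274836769990770689) (nat_lit 10384593719501673995738859943625472) (nat_lit 8) (nat_lit 5)) .nil))) (.cons (.ev (nat_lit 5212579269347423637653319302840577) (nat_lit 1)) .nil))),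
 (.br (nat_lit 14) (nat_lit 1) (.cons (.rf (nat_lit 832) (nat_lit 677582165103132179601393696)) (.cons (.br (nat_lit 17) (nat_lit 1) (.cons (.rf (nat_lit 720) (nat_lit 622815451221385912817732)) (.cons (.ev (nat_lit 174905136617882464325591451338590614847745) (nat_lit 2)) .nil))) .nil))),
 (.br (nat_lit 6) (nat_lit 1) (.cons (.rf (nat_lit 711) (nat_lit 445092485129178177)) (.cons (.kr (nat_lit 18446744073709617152) (nat_lit 281474993487872) (nat_lit 2) (nat_lit 0)) (.cons (.ev (nat_lit 20520094105380010193464321900801) (nat_lit 2)) (.cons (.br (nat_lit 7) (nat_lit 1) (.cons (.rf (nat_lit 47) (nat_lit 476384482)) (.cons (.zr (nat_lit 20361637766166222993020820652033) (nat_lit 618984205188882820094886656) (nat_lit 8) (nat_lit 5)) (.cons (.br (nat_lit 10) (nat_lit 1) (.cons (.ev (nat_lit 79537647524158022835090030593) (nat_lit 1)) (.cons (.zr (nat_lit 237684487561527988334333263873) (nat_lit 10404876129105325666162807194910976) (nat_lit 8) (nat_lit 5)) (.cons (.br (nat_lit 11) (nat_lit 1) (.cons (.ev (nat_lit 79537647542604485433839583233)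 (nat_lit 1)) (.cons (.br (nat_lit 14) (nat_lit 1) (.cons (.ev (nat_lit 10404956595207971451293205465923843) (nat_lit 3)) (.cons (.rf (nat_lit 40) (nat_lit 17978177686722)) .nil))) (.cons (.br (nat_lit 14) (nat_lit 1) (.cons (.rf (nat_lit 68) (nat_lit 18122994322626)) (.cons (.rf (nat_lit 68) (nat_lit 17057809927362)) (.cons (.br (nat_lit 15) (nat_lit 1) (.cons (.br (nat_lit 15) (nat_lit 1) (.cons (.ev (nat_lit 2668861106002394652500340211429015809) (nat_lit 2)) .nil)) (.cons (.br (nat_lit 15) (nat_lit 1) (.cons (.ev (nat_lit 2668861106002394652500340211429015809) (nat_lit 2)) .nil)) .nil))) .nil)))) .nil)))) .nil)))) (.cons (.br (nat_lit 11) (nat_lit 1) (.cons (.rf (nat_lit 47) (nat_lit 476417346)) (.cons (.br (nat_lit 10) (nat_lit 1) (.cons (.ev (nat_lit 10405114432553461816210321068523779) (nat_lit 2)) (.cons (.br (nat_lit 14) (nat_lit 1) (.cons (.ev (nat_lit 10405114432553498709135518567891203) (nat_lit 2)) (.cons (.rf (nat_lit 40) (nat_lit 17948112817346)) .nil))) (.cons (.rf (nat_lit 719) (nat_lit 18315647925923906361412))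 .nil)))) (.cons (.ev (nat_lit 79537647542604485433839583233) (nat_lit 1)) (.cons (.br (nat_lit 10) (nat_lit 1) (.cons (.br (nat_lit 14) (nat_lit 1) (.cons (.ev (nat_lit 5212579269347405190627770599735553) (nat_lit 1)) (.cons (.ev (nat_lit 5192297788203542172717610166125059) (nat_lit 2)) (.cons (.br (nat_lit 15) (nat_lit 1) (.cons (.br (nat_lit 15) (nat_lit 1) (.cons (.ev (nat_lit 2668861106002394652500340211429015809) (nat_lit 2)) .nil)) (.cons (.br (nat_lit 15) (nat_lit 1) (.cons (.ev (nat_lit 2668861106002394652500340211429015809) (nat_lit 2)) .nil)) .nil))) .nil)))) (.cons (.rf (nat_lit 719) (nat_lit 17136172036796485508197)) (.cons (.br (nat_lit 16) (nat_lit 1) (.cons (.rf (nat_lit 68) (nat_lit 16991132159298)) (.cons (.rf (nat_lit 68) (nat_lit 15925947764034)) (.cons (.br (nat_lit 14) (nat_lit 1) (.cons (.br (nat_lit 14) (nat_lit 1) (.cons (.zr (nat_lit 680564754203514693092828655646167793665) (nat_lit 10384593719501692442482933686600448) (nat_lit 8) (nat_lit 4)) .nil)) (.cons (.br (nat_lit 14) (nat_lit 1) (.cons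 (.zr (nat_lit 680564754203514693092828655646167793665) (nat_lit 10384593719501692442482933686600448) (nat_lit 8) (nat_lit 4)) .nil)) .nil))) .nil)))) (.cons (.br (nat_lit 14) (nat_lit 1) (.cons (.rf (nat_lit 832) (nat_lit 677582165103132179601393696)) (.cons (.rf (nat_lit 833) (nat_lit 677582165103132179601393696)) (.cons (.br (nat_lit 14) (nat_lit 1) (.cons (.ev (nat_lit 5212579269347423637653319302840577) (nat_lit 1)) (.cons (.rf (nat_lit 833) (nat_lit 677582165103132179601393696)) .nil))) .nil)))) .nil))))) .nil))))) .nil))))) .nil))))),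
 (.br (nat_lit 14) (nat_lit 1) (.cons (.rf (nat_lit 68) (nat_lit 18122819345730)) (.cons (.rf (nat_lit 68) (nat_lit 17057569938754)) (.cons (.br (nat_lit 15) (nat_lit 1) (.cons (.br (nat_lit 15) (nat_lit 1) (.cons (.kr (nat_lit 1329227996094400901171896202714677249) (nat_lit 5212579268138479299235918573993984) (nat_lit 0) (nat_lit 1)) .nil)) (.cons (.br (nat_lit 15) (nat_lit 1) (.cons (.kr (nat_lit 1329227996094400901171896202714677249) (nat_lit 5212579268138479299235918573993984) (nat_lit 0) (nat_lit 1)) .nil)) .nil))) .nil)))),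
 (.br (nat_lit 14) (nat_lit 1) (.cons (.br (nat_lit 16) (nat_lit 1) (.cons (.kr (nat_lit 87113615159756342256432516326884879892482) (nat_lit 340287599782616205594344267297593556992) (nat_lit 0) (nat_lit 1)) .nil)) .nil)),
 (.br (nat_lit 14) (nat_lit 1) (.cons (.br (nat_lit 16) (nat_lit 1) (.cons (.ev (nat_lit 2047011134030728703931665762435553559299) (nat_lit 3)) (.cons (.zr (nat_lit 680564733921105089459748528010781786115) (nat_lit 10404876126687474027496498798920448) (nat_lit 8) (nat_lit 5)) .nil))) (.cons (.ev (nat_lit 5192376087911008598049830945751040) (nat_lit 1)) .nil))),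
 (.br (nat_lit 14) (nat_lit 1) (.cons (.rf (nat_lit 837) (nat_lit 677582165103132179601393696)) (.cons (.br (nat_lit 16) (nat_lit 1) (.cons (.br (nat_lit 15) (nat_lit 1) (.cons (.zr (nat_lit 680575138955688087776758509208751570945) (nat_lit 5316911983144522825172845184050921728) (nat_lit 8) (nat_lit 5)) .nil)) (.cons (.ev (nat_lit 174905136617882464325554557852642219000065) (nat_lit 2)) .nil))) .nil))),
 (.br (nat_lit 10) (nat_lit 1) (.cons (.br (nat_lit 6) (nat_lit 1) (.cons (.zr (nat_lit 1547425159787189785881675268) (nat_lit 158459961250936941312982646784) (nat_lit 16) (nat_lit 1)) (.cons (.rf (nat_lit 47) (nat_lit 476388450)) .nil))) (.cons (.kr (nat_lit 1208925891672223212634113) (nat_lit 20282409603670117168020960903168) (nat_lit 0) (nat_lit 1)) (.cons (.ev (nat_lit 20361640188758531334042971800321) (nat_lit 2)) (.cons (.br (nat_lit 3) (nat_lit 1) (.cons (.rf (nat_lit 47) (nat_lit 480451682)) (.cons (.zr (nat_lit 20361637766166222993020820652033) (nat_lit 618984205188882820094886656) (nat_lit 8) (nat_lit 5)) (.cons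 (.br (nat_lit 6) (nat_lit 1) (.cons (.ev (nat_lit 310698676454186641271095553) (nat_lit 1)) (.cons (.zr (nat_lit 79228162532855197967792996353) (nat_lit 10404876126678029294530759508493056) (nat_lit 8) (nat_lit 5)) (.cons (.br (nat_lit 11) (nat_lit 1) (.cons (.ev (nat_lit 79537647542604485433839583233) (nat_lit 1)) (.cons (.br (nat_lit 14) (nat_lit 1) (.cons (.ev (nat_lit 31174144029347318858901139178651907) (nat_lit 3)) (.cons (.rf (nat_lit 40) (nat_lit 17981398785122)) .nil))) (.cons (.br (nat_lit 14) (nat_lit 1) (.cons (.rf (nat_lit 68) (nat_lit 18122990230626)) (.cons (.rf (nat_lit 68) (nat_lit 17057675811938)) (.cons (.br (nat_lit 15) (nat_lit 1) (.cons (.br (nat_lit 15) (nat_lit 1) (.cons (.ev (nat_lit 2668860947543642327455917797202330369) (nat_lit 2)) .nil)) (.cons (.br (nat_lit 15) (nat_lit 1) (.cons (.ev (nat_lit 2668860947543642327455917797202330369) (nat_lit 2)) .nil)) .nil))) .nil)))) .nil)))) .nil)))) (.cons (.br (nat_lit 11) (nat_lit 1) (.cons (.rf (nat_lit 47) (nat_lit 506830018)) (.cons (.br (nat_lit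 6) (nat_lit 1) (.cons (.ev (nat_lit 10405114432553461816210321068523779) (nat_lit 2)) (.cons (.br (nat_lit 14) (nat_lit 1) (.cons (.ev (nat_lit 10404955973820026525384595384435459) (nat_lit 2)) (.cons (.rf (nat_lit 40) (nat_lit 17810673737026)) .nil))) (.cons (.rf (nat_lit 835) (nat_lit 19926519232773908561233952)) .nil)))) (.cons (.ev (nat_lit 79537647542604485433839583233) (nat_lit 1)) (.cons (.br (nat_lit 6) (nat_lit 1) (.cons (.br (nat_lit 14) (nat_lit 1) (.cons (.ev (nat_lit 5212658496305715930057481274785793) (nat_lit 1)) (.cons (.ev (nat_lit 5192535473904733367719183819735299) (nat_lit 2)) (.cons (.br (nat_lit 15) (nat_lit 1) (.cons (.br (nat_lit 15) (nat_lit 1) (.cons (.ev (nat_lit 2668860947543642327455917797202330369) (nat_lit 2)) .nil)) (.cons (.br (nat_lit 15) (nat_lit 1) (.cons (.ev (nat_lit 2668860947543642327455917797202330369) (nat_lit 2)) .nil)) .nil))) .nil)))) (.cons (.br (nat_lit 15) (nat_lit 1) (.cons (.ev (nat_lit 2658476353210029948927798706190680835) (nat_lit 2)) (.cons (.rf (nat_lit 68) (nat_lit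 15959372012642)) (.cons (.br (nat_lit 14) (nat_lit 1) (.cons (.rf (nat_lit 836) (nat_lit 677582165103132179601393696)) (.cons (.br (nat_lit 14) (nat_lit 1) (.cons (.rf (nat_lit 836) (nat_lit 677582165103132179601393696)) .nil)) .nil))) .nil)))) (.cons (.br (nat_lit 16) (nat_lit 1) (.cons (.rf (nat_lit 68) (nat_lit 16991002139842)) (.cons (.rf (nat_lit 68) (nat_lit 15926077791426)) (.cons (.br (nat_lit 14) (nat_lit 1) (.cons (.br (nat_lit 14) (nat_lit 1) (.cons (.zr (nat_lit 680564754124288953207765583159944806657) (nat_lit 10384831401557198194755222739353600) (nat_lit 8) (nat_lit 1)) .nil)) (.cons (.br (nat_lit 14) (nat_lit 1) (.cons (.zr (nat_lit 680564754124288953207765583159944806657) (nat_lit 10384831401557198194755222739353600) (nat_lit 8) (nat_lit 1)) .nil)) .nil))) .nil)))) (.cons (.br (nat_lit 14) (nat_lit 1) (.cons (.rf (nat_lit 837) (nat_lit 677582165103132179601393696)) (.cons (.rf (nat_lit 838) (nat_lit 677582165103132179601393696)) (.cons (.br (nat_lit 14) (nat_lit 1) (.cons (.ev (nat_lit 5192376087911008598049830945751040)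 (nat_lit 1)) (.cons (.rf (nat_lit 838) (nat_lit 677582165103132179601393696)) .nil))) .nil)))) .nil))))) .nil))))) .nil))))) .nil))))),
 (.br (nat_lit 14) (nat_lit 1) (.cons (.br (nat_lit 15) (nat_lit 1) (.cons (.ev (nat_lit 344285648082208083171998595911805764096) (nat_lit 2)) .nil)) .nil)),
 (.br (nat_lit 13) (nat_lit 1) (.cons (.rf (nat_lit 68) (nat_lit 16988012648515)) (.cons (.rf (nat_lit 68) (nat_lit 15922763241539)) (.cons (.br (nat_lit 14) (nat_lit 1) (.cons (.rf (nat_lit 840) (nat_lit 19926519232773908561233952)) (.cons (.br (nat_lit 14) (nat_lit 1) (.cons (.rf (nat_lit 840) (nat_lit 19926519232773908561233952)) .nil)) .nil))) .nil)))),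
 (.br (nat_lit 13) (nat_lit 1) (.cons (.br (nat_lit 14) (nat_lit 1) (.cons (.kr (nat_lit 5212579269347405118569081345147136) (nat_lit 1329228075013083109534910097957912576) (nat_lit 1) (nat_lit 0)) .nil)) .nil)),
 (.br (nat_lit 12) (nat_lit 1) (.cons (.rf (nat_lit 68) (nat_lit 15853031856162)) (.cons (.rf (nat_lit 68) (nat_lit 14787749943330)) (.cons (.br (nat_lit 13) (nat_lit 1) (.cons (.rf (nat_lit 842) (nat_lit 583706118939841765935136)) (.cons (.br (nat_lit 13) (nat_lit 1) (.cons (.rf (nat_lit 842) (nat_lit 583706118939841765935136)) .nil)) .nil))) .nil)))),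
 (.br (nat_lit 6) (nat_lit 1) (.cons (.ev (nat_lit 310698676454186641271095553) (nat_lit 1)) (.cons (.ev (nat_lit 10404955973820063418874941826794243) (nat_lit 2)) (.cons (.br (nat_lit 10) (nat_lit 1) (.cons (.ev (nat_lit 10405114432553461815645172125532419) (nat_lit 2)) (.cons (.br (nat_lit 14) (nat_lit 1) (.cons (.ev (nat_lit 20790026300241658439481027243411201) (nat_lit 3)) (.cons (.rf (nat_lit 40) (nat_lit 17948112788547)) .nil))) (.cons (.rf (nat_lit 843) (nat_lit 19459454247239492439105)) .nil)))) .nil)))),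
 (.br (nat_lit 13) (nat_lit 1) (.cons (.br (nat_lit 14) (nat_lit 1) (.cons (.kr (nat_lit 1329248278195728450393845645296271616) (nat_lit 5192376086702064259633534006788096) (nat_lit 1) (nat_lit 0)) .nil)) .nil)),
 (.br (nat_lit 9) (nat_lit 1) (.cons (.rf (nat_lit 119) (nat_lit 15849709973569)) (.cons (.rf (nat_lit 119) (nat_lit 14784525578305)) (.cons (.br (nat_lit 13) (nat_lit 1) (.cons (.rf (nat_lit 845) (nat_lit 583706118939841765935136)) (.cons (.br (nat_lit 13) (nat_lit 1) (.cons (.rf (nat_lit 845) (nat_lit 583706118939841765935136)) .nil)) .nil))) .nil)))),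
 (.br (nat_lit 6) (nat_lit 1) (.cons (.ev (nat_lit 79537647542604765809287954433) (nat_lit 1)) (.cons (.ev (nat_lit 10405114432553498709135518567891203) (nat_lit 2)) (.cons (.br (nat_lit 7) (nat_lit 1) (.cons (.zr (nat_lit 79847146719453220413672391936) (nat_lit 31214628380019920926571111611629569) (nat_lit 8) (nat_lit 1)) (.cons (.br (nat_lit 10) (nat_lit 1) (.cons (.ev (nat_lit 20520715493288329155444652245249) (nat_lit 2)) (.cons (.rf (nat_lit 119) (nat_lit 18115440523362)) .nil))) (.cons (.rf (nat_lit 846) (nat_lit 19459454247239492439105)) .nil)))) .nil)))),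
 (.br (nat_lit 10) (nat_lit 1) (.cons (.rf (nat_lit 119) (nat_lit 18115303160130)) (.cons (.ev (nat_lit 20520715493288329155444652245249) (nat_lit 2)) (.cons (.kr (nat_lit 79228162514336676662558589184) (nat_lit 1213648186097503131664384) (nat_lit 1) (nat_lit 0)) (.cons (.br (nat_lit 15) (nat_lit 1) (.cons (.ev (nat_lit 2689630294053086204660786390221718273) (nat_lit 3)) (.cons (.ev (nat_lit 1329248357422686779652077019423834113) (nat_lit 1)) (.cons (.ev (nat_lit 1329248278195728468912647308748783873) (nat_lit 1)) .nil)))) .nil))))),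
 (.br (nat_lit 15) (nat_lit 1) (.cons (.ev (nat_lit 685902435849457494610822633520201991939) (nat_lit 3)) (.cons (.br (nat_lit 16) (nat_lit 1) (.cons (.ev (nat_lit 685902435691003596878523727001027609859) (nat_lit 3)) .nil)) .nil))),
 (.br (nat_lit 10) (nat_lit 1) (.cons (.rf (nat_lit 119) (nat_lit 17050053753154)) (.cons (.ev (nat_lit 20283029792097422384229970477569) (nat_lit 2)) (.cons (.ev (nat_lit 20520715493288329155444652245249) (nat_lit 2)) (.cons (.br (nat_lit 14) (nat_lit 1) (.cons (.rf (nat_lit 849) (nat_lit 677582165103132179601393696)) (.cons (.ev (nat_lit 340287559217797003013441960966268911873) (nat_lit 1)) (.cons (.rf (nat_lit 849) (nat_lit 600285977881719633526205837)) .nil)))) .nil))))),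
 (.br (nat_lit 16) (nat_lit 1) (.cons (.ev (nat_lit 680595908144986423849773935430415155973) (nat_lit 3)) .nil)),
 (.br (nat_lit 10) (nat_lit 1) (.cons (.ev (nat_lit 5212658496305715929774906769735681) (nat_lit 1)) (.cons (.ev (nat_lit 20520715493288329155444652245249) (nat_lit 2)) (.cons (.br (nat_lit 14) (nat_lit 1) (.cons (.rf (nat_lit 68) (nat_lit 18122961819715)) (.cons (.ev (nat_lit 10404955357267858377810727231685379) (nat_lit 2)) (.cons (.br (nat_lit 15) (nat_lit 1) (.cons (.rf (nat_lit 851) (nat_lit 677582165103132179601393696)) (.cons (.br (nat_lit 15) (nat_lit 1) (.cons (.rf (nat_lit 851) (nat_lit 677582165103132179601393696)) .nil)) .nil))) .nil)))) .nil)))),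
 (.br (nat_lit 16) (nat_lit 1) (.cons (.ev (nat_lit 2044352678195753451378826794140275180801) (nat_lit 3)) .nil)),
 (.br (nat_lit 10) (nat_lit 1) (.cons (.ev (nat_lit 20520715493288329155444652245249) (nat_lit 2)) (.cons (.ev (nat_lit 1329228075322568119355972592194289664) (nat_lit 1)) (.cons (.br (nat_lit 15) (nat_lit 1) (.cons (.rf (nat_lit 68) (nat_lit 18089666517219)) (.cons (.ev (nat_lit 2658476512285315589260249397366620419) (nat_lit 2)) (.cons (.br (nat_lit 14) (nat_lit 1) (.cons (.rf (nat_lit 853) (nat_lit 677582165103132179601393696)) (.cons (.br (nat_lit 14) (nat_lit 1) (.cons (.rf (nat_lit 853) (nat_lit 677582165103132179601393696)) .nil)) .nil))) .nil)))) .nil)))),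
 (.br (nat_lit 15) (nat_lit 1) (.cons (.zr (nat_lit 31174142788989298805394227251380227) (nat_lit 683223189834065728710790378387627180800) (nat_lit 8) (nat_lit 13)) (.cons (.ev (nat_lit 2668860946927090159596009156190929665) (nat_lit 2)) .nil)))]

theorem c36 : chkAll C T R L36 (nat_lit 832) = true := by decide +kernel

theorem l36 : (nat_lit 832) + L36.length = (nat_lit 856) := by decide +kernel

/-- part of the certificates -/
def L37 : List Prf := [(.br (nat_lit 14) (nat_lit 1) (.cons (.rf (nat_lit 855) (nat_lit 677582165103132179601393696)) (.cons (.rf (nat_lit 855) (nat_lit 640105461233038816181422208)) .nil))),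
 (.br (nat_lit 14) (nat_lit 1) (.cons (.rf (nat_lit 856) (nat_lit 677582165103132179601393696)) (.cons (.ev (nat_lit 5192376087910990151304657724571648) (nat_lit 1)) .nil))),
 (.br (nat_lit 7) (nat_lit 1) (.cons (.ev (nat_lit 20282418066169807027248329393159) (nat_lit 3)) (.cons (.rf (nat_lit 852) (nat_lit 583706118939841765935136)) (.cons (.rf (nat_lit 854) (nat_lit 583706118939841765935136)) (.cons (.br (nat_lit 10) (nat_lit 1) (.cons (.rf (nat_lit 852) (nat_lit 583702656899982761855104)) (.cons (.rf (nat_lit 854) (nat_lit 583702656899982761855104)) (.cons (.rf (nat_lit 726) (nat_lit 583816764467268732128288)) (.cons (.br (nat_lit 14) (nat_lit 1) (.cons (.rf (nat_lit 856) (nat_lit 677582165103132179601393696)) (.cons (.rf (nat_lit 857) (nat_lit 677582165103132179601393696)) (.cons (.rf (nat_lit 857) (nat_lit 640105461233038816181422208)) .nil)))) .nil))))) .nil))))),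
 (.br (nat_lit 15) (nat_lit 1) (.cons (.br (nat_lit 16) (nat_lit 1) (.cons (.kr (nat_lit 87112291124057415875387241050320928768002) (nat_lit 341611635481542586639619543861544681472) (nat_lit 0) (nat_lit 1)) .nil)) .nil)),
 (.br (nat_lit 10) (nat_lit 1) (.cons (.ev (nat_lit 10404955357267895271296675627533059) (nat_lit 2)) (.cons (.br (nat_lit 14) (nat_lit 1) (.cons (.ev (nat_lit 20789708149632598844968487543505665) (nat_lit 3)) (.cons (.rf (nat_lit 40) (nat_lit 17977103948867)) .nil))) (.cons (.br (nat_lit 14) (nat_lit 1) (.cons (.rf (nat_lit 68) (nat_lit 18122961787971)) (.cons (.rf (nat_lit 68) (nat_lit 17057842404419)) (.cons (.br (nat_lit 15) (nat_lit 1) (.cons (.rf (nat_lit 859) (nat_lit 677582165103132179601393696)) (.cons (.br (nat_lit 15) (nat_lit 1) (.cons (.rf (nat_lit 859) (nat_lit 677582165103132179601393696)) .nil)) .nil))) .nil)))) .nil)))),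
 (.br (nat_lit 12) (nat_lit 1) (.cons (.br (nat_lit 13) (nat_lit 1) (.cons (.kr (nat_lit 1334420292644659626351952194374205696) (nat_lit 20361637770888301526984928854016) (nat_lit 1) (nat_lit 0)) .nil)) .nil)),
 (.br (nat_lit 14) (nat_lit 1) (.cons (.rf (nat_lit 68) (nat_lit 14721337301154)) (.cons (.rf (nat_lit 68) (nat_lit 13655892859042)) (.cons (.br (nat_lit 12) (nat_lit 1) (.cons (.rf (nat_lit 861) (nat_lit 583706118939841765935136)) (.cons (.br (nat_lit 12) (nat_lit 1) (.cons (.rf (nat_lit 861) (nat_lit 583706118939841765935136)) .nil)) .nil))) .nil)))),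
 (.br (nat_lit 14) (nat_lit 1) (.cons (.br (nat_lit 15) (nat_lit 1) (.cons (.ev (nat_lit 683233594789420578735975703925923906307) (nat_lit 2)) (.cons (.zr (nat_lit 20283649985246661731147462214913) (nat_lit 2668841139884039001635624134075482112) (nat_lit 24) (nat_lit 1)) .nil))) (.cons (.br (nat_lit 15) (nat_lit 1) (.cons (.zr (nat_lit 18609293353048934478014795169652539653) (nat_lit 51923841333075972626454604958400512) (nat_lit 24) (nat_lit 0)) (.cons (.ev (nat_lit 174227240724626495678455422264358010487043) (nat_lit 2)) .nil))) .nil))),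
 (.br (nat_lit 14) (nat_lit 1) (.cons (.rf (nat_lit 863) (nat_lit 677582165103132179601393696)) (.cons (.br (nat_lit 15) (nat_lit 1) (.cons (.zr (nat_lit 60847850222530360466147884926208) (nat_lit 680575118990191134182577214981580783617) (nat_lit 24) (nat_lit 8)) (.cons (.zr (nat_lit 20283033433078658284561778345217) (nat_lit 174224582248668807500503482889995326324736) (nat_lit 24) (nat_lit 8)) .nil))) .nil))),
 (.br (nat_lit 6) (nat_lit 1) (.cons (.kr (nat_lit 1208925891672223212634113) (nat_lit 20282409603651670705422244773888) (nat_lit 0) (nat_lit 1)) (.cons (.rf (nat_lit 860) (nat_lit 583706118939841765935136)) (.cons (.br (nat_lit 10) (nat_lit 1) (.cons (.br (nat_lit 14) (nat_lit 1) (.cons (.ev (nat_lit 20790025067137322720785247148312321) (nat_lit 3)) (.cons (.rf (nat_lit 40) (nat_lit 17981398785091)) .nil))) (.cons (.ev (nat_lit 2658476512285315552366763448970772739) (nat_lit 2)) (.cons (.rf (nat_lit 719) (nat_lit 17136023272769131293929)) .nil)))) (.cons (.br (nat_lit 10) (nat_lit 1) (.cons (.rf (nat_lit 719)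 (nat_lit 18315755022887772391521)) (.cons (.rf (nat_lit 860) (nat_lit 546618610935267802197293)) (.cons (.rf (nat_lit 862) (nat_lit 19459454247239492439105)) (.cons (.br (nat_lit 14) (nat_lit 1) (.cons (.rf (nat_lit 863) (nat_lit 677582165103132179601393696)) (.cons (.rf (nat_lit 864) (nat_lit 677582165103132179601393696)) (.cons (.br (nat_lit 14) (nat_lit 1) (.cons (.rf (nat_lit 863) (nat_lit 677582165103132179601393696)) (.cons (.rf (nat_lit 864) (nat_lit 677582165103132179601393696)) .nil))) .nil)))) .nil))))) .nil))))),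
 (.br (nat_lit 15) (nat_lit 1) (.cons (.ev (nat_lit 7996157842555829718974005559083140355) (nat_lit 3)) (.cons (.br (nat_lit 16) (nat_lit 1) (.cons (.ev (nat_lit 10405113811165627571329111821517059) (nat_lit 2)) (.cons (.zr (nat_lit 2658516918026805233529973131454840832) (nat_lit 680564733841881776797127684939124310785) (nat_lit 8) (nat_lit 5)) .nil))) .nil))),
 (.br (nat_lit 7) (nat_lit 1) (.cons (.zr (nat_lit 2422574005713249014775809) (nat_lit 10404955354835876532054754582332672) (nat_lit 8) (nat_lit 4)) (.cons (.br (nat_lit 14) (nat_lit 1) (.cons (.ev (nat_lit 10405113811165627571329111821517059) (nat_lit 2)) (.cons (.rf (nat_lit 40) (nat_lit 17977103853635)) .nil))) (.cons (.br (nat_lit 14) (nat_lit 1) (.cons (.rf (nat_lit 68) (nat_lit 18122861127747)) (.cons (.ev (nat_lit 10405113811165627571329111821517059) (nat_lit 2)) (.cons (.br (nat_lit 15) (nat_lit 1) (.cons (.rf (nat_lit 866) (nat_lit 19926519232773908561233952)) (.cons (.br (nat_lit 15) (nat_lit 1) (.cons (.rf (nat_lit 866) (nat_lit 19926519232773908561233952))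 .nil)) .nil))) .nil)))) .nil)))),
 (.br (nat_lit 13) (nat_lit 1) (.cons (.br (nat_lit 14) (nat_lit 1) (.cons (.ev (nat_lit 5212658496305734376518984790966528) (nat_lit 1)) .nil)) .nil)),
 (.br (nat_lit 15) (nat_lit 1) (.cons (.rf (nat_lit 68) (nat_lit 15856283362467)) (.cons (.rf (nat_lit 68) (nat_lit 14790871426211)) (.cons (.br (nat_lit 13) (nat_lit 1) (.cons (.rf (nat_lit 868) (nat_lit 19926519232773908561233952)) (.cons (.br (nat_lit 13) (nat_lit 1) (.cons (.rf (nat_lit 868) (nat_lit 19926519232773908561233952)) .nil)) .nil))) .nil)))),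
 (.br (nat_lit 14) (nat_lit 1) (.cons (.br (nat_lit 15) (nat_lit 1) (.cons (.ev (nat_lit 1334440575054268000388860102209175808) (nat_lit 1)) (.cons (.br (nat_lit 16) (nat_lit 1) (.cons (.zr (nat_lit 10633925378329763093369298412091211776) (nat_lit 3402834053884186781824369700243614207235) (nat_lit 24) (nat_lit 4)) .nil)) .nil))) (.cons (.br (nat_lit 17) (nat_lit 1) (.cons (.ev (nat_lit 1334440575054268000388860102209175808) (nat_lit 1)) (.cons (.rf (nat_lit 746) (nat_lit 587360916208680020641889)) .nil))) .nil))),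
 (.br (nat_lit 14) (nat_lit 1) (.cons (.rf (nat_lit 870) (nat_lit 677582165103132179601393696)) (.cons (.br (nat_lit 15) (nat_lit 1) (.cons (.zr (nat_lit 10384594338462341139184726162014467) (nat_lit 680564754361971018121356766792447426560) (nat_lit 8) (nat_lit 8)) (.cons (.zr (nat_lit 10404955973805859281262246499450881) (nat_lit 174224571863520498143118177475140912153344) (nat_lit 8) (nat_lit 5)) .nil))) .nil))),
 (.br (nat_lit 6) (nat_lit 1) (.cons (.kr (nat_lit 1208925891672223212634113) (nat_lit 20282409603651670705422244773888) (nat_lit 0) (nat_lit 1)) (.cons (.rf (nat_lit 867) (nat_lit 583706118939841765935136)) (.cons (.br (nat_lit 7) (nat_lit 1) (.cons (.br (nat_lit 14) (nat_lit 1) (.cons (.ev (nat_lit 10404955357267858377810727231685379) (nat_lit 2)) (.cons (.rf (nat_lit 40) (nat_lit 17978177562691)) .nil))) (.cons (.zr (nat_lit 621392593648403386464206851) (nat_lit 2658516918026805270423455776987153664) (nat_lit 8) (nat_lit 4)) (.cons (.rf (nat_lit 786) (nat_lit 19459453155457764591713)) .nil)))) (.cons (.br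 (nat_lit 7) (nat_lit 1) (.cons (.rf (nat_lit 786) (nat_lit 18244013658285436967240)) (.cons (.rf (nat_lit 867) (nat_lit 546615148895408798117261)) (.cons (.rf (nat_lit 869) (nat_lit 622703726024184642504736)) (.cons (.br (nat_lit 14) (nat_lit 1) (.cons (.rf (nat_lit 870) (nat_lit 677582165103132179601393696)) (.cons (.rf (nat_lit 871) (nat_lit 677582165103132179601393696)) (.cons (.br (nat_lit 14) (nat_lit 1) (.cons (.rf (nat_lit 870) (nat_lit 677582165103132179601393696)) (.cons (.rf (nat_lit 871) (nat_lit 677582165103132179601393696)) .nil))) .nil)))) .nil))))) .nil))))),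
 (.br (nat_lit 6) (nat_lit 1) (.cons (.rf (nat_lit 872) (nat_lit 583702656899982761855104)) (.cons (.rf (nat_lit 865) (nat_lit 583702656899982761855104)) (.cons (.ev (nat_lit 5212658496305734376520079990915073) (nat_lit 1)) (.cons (.ev (nat_lit 20362256740963284733030425559809) (nat_lit 2)) (.cons (.br (nat_lit 7) (nat_lit 1) (.cons (.rf (nat_lit 858) (nat_lit 546618610935267802197293)) (.cons (.ev (nat_lit 10405113811165590677843163425669379) (nat_lit 2)) (.cons (.br (nat_lit 10) (nat_lit 1) (.cons (.ev (nat_lit 20520715493288329155444652245249) (nat_lit 2)) (.cons (.ev (nat_lit 1329248278504004552842321253772558593) (nat_lit 1)) (.cons (.br (nat_lit 14) (nat_lit 1) (.cons (.ev (nat_lit 2668861105385842484642127026038244097) (nat_lit 3)) (.cons (.ev (nat_lit 340282366920938463481821632984766218496) (nat_lit 1)) (.cons (.br (nat_lit 15) (nat_lit 1) (.cons (.ev (nat_lit 340282387203349276040936704706038726913) (nat_lit 1)) (.cons (.br (nat_lit 16) (nat_lit 1) (.cons (.zr (nat_lit 2668860867698927718975094506966221057)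 (nat_lit 1361129467921438341396435558808210636800) (nat_lit 8) (nat_lit 8)) .nil)) .nil))) .nil)))) (.cons (.br (nat_lit 14) (nat_lit 1) (.cons (.rf (nat_lit 130) (nat_lit 17942602823778)) (.cons (.br (nat_lit 15) (nat_lit 1) (.cons (.ev (nat_lit 683223210353540864052566461697455423745) (nat_lit 2)) (.cons (.zr (nat_lit 2658517076483130243757702780916336384) (nat_lit 31153782391571597509022774588342277) (nat_lit 8) (nat_lit 1)) .nil))) (.cons (.br (nat_lit 15) (nat_lit 1) (.cons (.zr (nat_lit 2668901433753652524488541243397373955) (nat_lit 396143235145760308631470866688) (nat_lit 8) (nat_lit 8)) (.cons (.ev (nat_lit 174224582268476467103829446747991002055425) (nat_lit 2)) .nil))) .nil)))) .nil))))) (.cons (.br (nat_lit 10) (nat_lit 1) (.cons (.rf (nat_lit 119) (nat_lit 17050322155618)) (.cons (.br (nat_lit 14) (nat_lit 1) (.cons (.ev (nat_lit 1334420292643455441417903568978968833) (nat_lit 1)) (.cons (.ev (nat_lit 2041714991551314460789344880468741326595) (nat_lit 3)) (.cons (.br (nat_lit 15) (nat_lit 1) (.cons (.ev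 (nat_lit 685881666503569457641795455410709464323) (nat_lit 3)) (.cons (.ev (nat_lit 1334440575054268000388860102209175808) (nat_lit 1)) .nil))) .nil)))) (.cons (.rf (nat_lit 119) (nat_lit 16977303519462)) (.cons (.br (nat_lit 14) (nat_lit 1) (.cons (.br (nat_lit 15) (nat_lit 1) (.cons (.ev (nat_lit 683223210353540864052566461697455423745) (nat_lit 2)) (.cons (.ev (nat_lit 2658476513528110295365795894249128711) (nat_lit 3)) .nil))) (.cons (.rf (nat_lit 130) (nat_lit 19080633923682)) (.cons (.br (nat_lit 17) (nat_lit 1) (.cons (.ev (nat_lit 174224582268476467103829446747991002055425) (nat_lit 2)) (.cons (.zr (nat_lit 680564733841879349519201671065274286849) (nat_lit 174224582268475848129068990830910197727232) (nat_lit 8) (nat_lit 1)) .nil))) .nil)))) .nil))))) (.cons (.br (nat_lit 10) (nat_lit 1) (.cons (.br (nat_lit 15) (nat_lit 1) (.cons (.br (nat_lit 15) (nat_lit 1) (.cons (.ev (nat_lit 2658476671982008027666954213102978311) (nat_lit 3)) .nil)) (.cons (.br (nat_lit 15) (nat_lit 1) (.cons (.ev (nat_lit 2658476671982008027666954213102978311)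 (nat_lit 3)) .nil)) .nil))) (.cons (.br (nat_lit 14) (nat_lit 1) (.cons (.rf (nat_lit 130) (nat_lit 17839526754402)) (.cons (.br (nat_lit 15) (nat_lit 1) (.cons (.ev (nat_lit 1334440575054268000388860102209175808) (nat_lit 1)) (.cons (.br (nat_lit 16) (nat_lit 1) (.cons (.zr (nat_lit 680564733921726482053252813984309970179) (nat_lit 5327397988904751405224412281456033792) (nat_lit 8) (nat_lit 1)) .nil)) .nil))) (.cons (.br (nat_lit 15) (nat_lit 1) (.cons (.br (nat_lit 16) (nat_lit 1) (.cons (.ev (nat_lit 685912820286579966147041552668356248833) (nat_lit 3)) .nil)) (.cons (.ev (nat_lit 1334440575054268000388860102209175808) (nat_lit 1)) .nil))) .nil)))) (.cons (.br (nat_lit 16) (nat_lit 1) (.cons (.ev (nat_lit 340282366920938463481821632984766218496) (nat_lit 1)) (.cons (.br (nat_lit 15) (nat_lit 1) (.cons (.ev (nat_lit 1369104856180421608676937189795786130179) (nat_lit 3)) (.cons (.ev (nat_lit 1369104856338875544188170211106161427715) (nat_lit 3)) .nil))) (.cons (.ev (nat_lit 340282367000167839644343844191879561216) (nat_lit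 1)) .nil)))) (.cons (.br (nat_lit 17) (nat_lit 1) (.cons (.ev (nat_lit 174224571883882133491487812679997396615939) (nat_lit 2)) (.cons (.br (nat_lit 15) (nat_lit 1) (.cons (.zr (nat_lit 2658476273981858026823985715470270721) (nat_lit 174224571863758177780790736133046983983104) (nat_lit 8) (nat_lit 8)) (.cons (.zr (nat_lit 2658476511663922995899516744259207169) (nat_lit 174224571863520498152562910440884531101952) (nat_lit 8) (nat_lit 5)) .nil))) (.cons (.ev (nat_lit 174224571884040587389220113838333430333699) (nat_lit 2)) .nil)))) .nil))))) .nil)))))) .nil)))))),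
 (.br (nat_lit 14) (nat_lit 1) (.cons (.kr (nat_lit 5212579268143201665718788202430720) (nat_lit 1329228075014287312987760382510694400) (nat_lit 1) (nat_lit 0)) .nil)),
 (.br (nat_lit 6) (nat_lit 1) (.cons (.rf (nat_lit 872) (nat_lit 583702656899982761855104)) (.cons (.rf (nat_lit 865) (nat_lit 583702656899982761855104)) (.cons (.ev (nat_lit 20362256740963284733030425559809) (nat_lit 2)) (.cons (.ev (nat_lit 1329228075322568137802717765415469056) (nat_lit 1)) (.cons (.br (nat_lit 7) (nat_lit 1) (.cons (.rf (nat_lit 858) (nat_lit 546618610935267802197293)) (.cons (.br (nat_lit 10) (nat_lit 1) (.cons (.ev (nat_lit 5212658496305715929774906769735681) (nat_lit 1)) (.cons (.ev (nat_lit 20520715493288329155444652245249) (nat_lit 2)) (.cons (.br (nat_lit 14) (nat_lit 1) (.cons (.ev (nat_lit 2668861105385842484642127026038244097) (nat_lit 3)) (.cons (.ev (nat_lit 340282367000167839644343844191879561216) (nat_lit 1)) (.cons (.br (nat_lit 15) (nat_lit 1) (.cons (.ev (nat_lit 340282387282576234351676134416713777153) (nat_lit 1))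 (.cons (.br (nat_lit 16) (nat_lit 1) (.cons (.zr (nat_lit 2668860867698927718975094506966221057) (nat_lit 1361129467921438341396435558808210636800) (nat_lit 8) (nat_lit 8)) .nil)) .nil))) .nil)))) (.cons (.br (nat_lit 14) (nat_lit 1) (.cons (.rf (nat_lit 130) (nat_lit 17942598629602)) (.cons (.br (nat_lit 15) (nat_lit 1) (.cons (.ev (nat_lit 680575138797850737545290443737610060545) (nat_lit 2)) (.cons (.zr (nat_lit 2668840586524841495834403896834392839) (nat_lit 20361640207629406968101720031232) (nat_lit 8) (nat_lit 0)) .nil))) (.cons (.br (nat_lit 15) (nat_lit 1) (.cons (.zr (nat_lit 2668840586524841495834403896834392839) (nat_lit 20361640207629406968101720031232) (nat_lit 8) (nat_lit 0)) (.cons (.ev (nat_lit 174227230340032157230410509737847639113985) (nat_lit 2)) .nil))) .nil)))) .nil))))) (.cons (.ev (nat_lit 2658476353826582153968862920785789699) (nat_lit 2)) (.cons (.br (nat_lit 10) (nat_lit 1) (.cons (.br (nat_lit 14) (nat_lit 1) (.cons (.ev (nat_lit 1334420292643455441417903568978968833) (nat_lit 1)) (.cons (.ev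 (nat_lit 680585523392189204479669466866982584579) (nat_lit 3)) (.cons (.br (nat_lit 15) (nat_lit 1) (.cons (.ev (nat_lit 2047011134028869375910850343886825718531) (nat_lit 3)) (.cons (.ev (nat_lit 1334440575054268000388860102209175808) (nat_lit 1)) .nil))) .nil)))) (.cons (.rf (nat_lit 119) (nat_lit 15950508571971)) (.cons (.rf (nat_lit 119) (nat_lit 15920440623334)) (.cons (.br (nat_lit 15) (nat_lit 1) (.cons (.br (nat_lit 14) (nat_lit 1) (.cons (.ev (nat_lit 680575138797850737545290443737610060545) (nat_lit 2)) (.cons (.ev (nat_lit 31174459704057226238074222429734151) (nat_lit 3)) .nil))) (.cons (.rf (nat_lit 130) (nat_lit 15739149368675)) (.cons (.br (nat_lit 17) (nat_lit 1) (.cons (.ev (nat_lit 174227230340032157230410509737847639113985) (nat_lit 2)) (.cons (.zr (nat_lit 680564733842498319538844361202723717891) (nat_lit 174227230380438520098462882231932602548224) (nat_lit 8) (nat_lit 1)) .nil))) .nil)))) .nil))))) (.cons (.br (nat_lit 10) (nat_lit 1) (.cons (.br (nat_lit 14) (nat_lit 1) (.cons (.rf (nat_lit 130)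 (nat_lit 17839519414594)) (.cons (.br (nat_lit 15) (nat_lit 1) (.cons (.ev (nat_lit 1334440575054268000388860102209175808) (nat_lit 1)) (.cons (.br (nat_lit 16) (nat_lit 1) (.cons (.ev (nat_lit 2044373447542884283016201893633125910277) (nat_lit 3)) .nil)) .nil))) (.cons (.br (nat_lit 15) (nat_lit 1) (.cons (.rf (nat_lit 874) (nat_lit 661701295917511241501761)) (.cons (.ev (nat_lit 1334440575054268000388860102209175808) (nat_lit 1)) .nil))) .nil)))) (.cons (.rf (nat_lit 873) (nat_lit 546615148895408798117261)) (.cons (.br (nat_lit 16) (nat_lit 1) (.cons (.br (nat_lit 14) (nat_lit 1) (.cons (.ev (nat_lit 1361139872640349061751161059986896978179) (nat_lit 3)) (.cons (.ev (nat_lit 1361139873115720464133553314968511842051) (nat_lit 3)) .nil))) (.cons (.ev (nat_lit 340282387282576234351676134416713777153) (nat_lit 1)) (.cons (.ev (nat_lit 340282387203349276040936704706038726913) (nat_lit 1)) .nil)))) (.cons (.br (nat_lit 17) (nat_lit 1) (.cons (.br (nat_lit 14) (nat_lit 1) (.cons (.zr (nat_lit 10384594338462304245698777766166787)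 (nat_lit 174224571884040587384442406556994235269120) (nat_lit 8) (nat_lit 8)) (.cons (.zr (nat_lit 10384832020527273321229806555103235) (nat_lit 174224571883802907756214580864831782387968) (nat_lit 8) (nat_lit 5)) .nil))) (.cons (.ev (nat_lit 174224571883882133491487812679997396615939) (nat_lit 2)) (.cons (.ev (nat_lit 174224571884040587389220113838333430333699) (nat_lit 2)) .nil)))) .nil))))) .nil)))))) .nil))))))]

theorem c37 : chkAll C T R L37 (nat_lit 856) = true := by decide +kernel

theorem l37 : (nat_lit 856) + L37.length = (nat_lit 876) := by decide +kernel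

/-- part of the certificates -/
def L38 : List Prf := [(.br (nat_lit 14) (nat_lit 1) (.cons (.ev (nat_lit 680575138956309489833442506103414849793) (nat_lit 2)) (.cons (.ev (nat_lit 176266286834312794871427093625553039918336) (nat_lit 3)) .nil))),
 (.br (nat_lit 16) (nat_lit 1) (.cons (.ev (nat_lit 680575138797850746953130486478491747073) (nat_lit 2)) .nil)),
 (.br (nat_lit 14) (nat_lit 1) (.cons (.ev (nat_lit 1334420292643455441417903568978968833) (nat_lit 1)) (.cons (.br (nat_lit 16) (nat_lit 1) (.cons (.ev (nat_lit 341611615278671844160220618604700303360) (nat_lit 1)) (.cons (.ev (nat_lit 680595908144360171977907022547625706245) (nat_lit 3)) .nil))) .nil))),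
 (.br (nat_lit 14) (nat_lit 1) (.cons (.br (nat_lit 15) (nat_lit 1) (.cons (.ev (nat_lit 685892051255740406176780103300686022401) (nat_lit 3)) (.cons (.br (nat_lit 16) (nat_lit 1) (.cons (.ev (nat_lit 341616787292811290344804125253962825728) (nat_lit 1)) .nil)) .nil))) (.cons (.ev (nat_lit 10405114432562906692726099491815683) (nat_lit 2)) .nil))),
 (.br (nat_lit 10) (nat_lit 1) (.cons (.rf (nat_lit 575) (nat_lit 14242951683707573384)) (.cons (.rf (nat_lit 575) (nat_lit 13126058975982458088)) .nil))),
 (.br (nat_lit 10) (nat_lit 1) (.cons (.ev (nat_lit 20361640198203264301981285483265) (nat_lit 2)) (.cons (.ev (nat_lit 18519084242235818241) (nat_lit 1)) (.cons (.ev (nat_lit 20361640188758531334042971800321) (nat_lit 2)) (.cons (.br (nat_lit 3) (nat_lit 1) (.cons (.rf (nat_lit 47) (nat_lit 480451682)) (.cons (.rf (nat_lit 47) (nat_lit 480615522)) (.cons (.br (nat_lit 6) (nat_lit 1) (.cons (.ev (nat_lit 310698676454186641271095553) (nat_lit 1)) (.cons (.ev (nat_lit 5192376087911008525710761914269696) (nat_lit 1)) (.cons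 (.br (nat_lit 11) (nat_lit 1) (.cons (.ev (nat_lit 10405114432553461959762559224643843) (nat_lit 2)) (.cons (.br (nat_lit 14) (nat_lit 1) (.cons (.ev (nat_lit 5192376398609648231089601408729859) (nat_lit 2)) (.cons (.rf (nat_lit 40) (nat_lit 17981398785122)) .nil))) (.cons (.br (nat_lit 14) (nat_lit 1) (.cons (.rf (nat_lit 68) (nat_lit 18122990230626)) (.cons (.ev (nat_lit 5253303472140026322820615001800706) (nat_lit 2)) (.cons (.br (nat_lit 15) (nat_lit 1) (.cons (.br (nat_lit 15) (nat_lit 1) (.cons (.ev (nat_lit 2668860947543642327455917797202330369) (nat_lit 2)) .nil)) (.cons (.br (nat_lit 15) (nat_lit 1) (.cons (.ev (nat_lit 2668860947543642327455917797202330369) (nat_lit 2)) .nil)) .nil))) .nil)))) .nil)))) .nil)))) (.cons (.br (nat_lit 6) (nat_lit 1) (.cons (.rf (nat_lit 47) (nat_lit 506830018)) (.cons (.br (nat_lit 11) (nat_lit 1) (.cons (.ev (nat_lit 5212579269352127485053046207021313) (nat_lit 1)) (.cons (.br (nat_lit 14) (nat_lit 1) (.cons (.ev (nat_lit 20789709392427231018856144821420801) (nat_lit 3)) (.cons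 (.rf (nat_lit 40) (nat_lit 17981398686914)) .nil))) (.cons (.br (nat_lit 14) (nat_lit 1) (.cons (.rf (nat_lit 68) (nat_lit 18122987084994)) (.cons (.rf (nat_lit 68) (nat_lit 17057575148738)) (.cons (.br (nat_lit 15) (nat_lit 1) (.cons (.br (nat_lit 15) (nat_lit 1) (.cons (.ev (nat_lit 2668860947543642327455917797202330369) (nat_lit 2)) .nil)) (.cons (.br (nat_lit 15) (nat_lit 1) (.cons (.ev (nat_lit 2668860947543642327455917797202330369) (nat_lit 2)) .nil)) .nil))) .nil)))) .nil)))) (.cons (.br (nat_lit 11) (nat_lit 1) (.cons (.br (nat_lit 14) (nat_lit 1) (.cons (.ev (nat_lit 5192376398604925864603433228632835) (nat_lit 2)) (.cons (.rf (nat_lit 40) (nat_lit 17810673737026)) .nil))) (.cons (.ev (nat_lit 2658476511663937125817807593438970115) (nat_lit 2)) (.cons (.rf (nat_lit 590) (nat_lit 19926407221461894489671808)) .nil)))) (.cons (.br (nat_lit 11) (nat_lit 1) (.cons (.br (nat_lit 14) (nat_lit 1) (.cons (.ev (nat_lit 5253303472135303956338844868214786) (nat_lit 2)) (.cons (.rf (nat_lit 68) (nat_lit 17057569938754))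 (.cons (.br (nat_lit 15) (nat_lit 1) (.cons (.rf (nat_lit 877) (nat_lit 677582165103132179601393696)) (.cons (.br (nat_lit 15) (nat_lit 1) (.cons (.rf (nat_lit 877) (nat_lit 677582165103132179601393696)) .nil)) .nil))) .nil)))) (.cons (.br (nat_lit 15) (nat_lit 1) (.cons (.rf (nat_lit 68) (nat_lit 18089540688994)) (.cons (.rf (nat_lit 68) (nat_lit 15959366933602)) (.cons (.br (nat_lit 14) (nat_lit 1) (.cons (.rf (nat_lit 878) (nat_lit 19926519232773908561233952)) (.cons (.br (nat_lit 14) (nat_lit 1) (.cons (.rf (nat_lit 878) (nat_lit 19926519232773908561233952)) .nil)) .nil))) .nil)))) (.cons (.rf (nat_lit 598) (nat_lit 18755260369739019495606400)) (.cons (.br (nat_lit 14) (nat_lit 1) (.cons (.rf (nat_lit 879) (nat_lit 677582165103132179601393696)) (.cons (.br (nat_lit 14) (nat_lit 1) (.cons (.rf (nat_lit 879) (nat_lit 677582165103132179601393696)) (.cons (.rf (nat_lit 880) (nat_lit 20193522128555055202)) .nil))) (.cons (.br (nat_lit 14) (nat_lit 1) (.cons (.ev (nat_lit 10405114432562906692726099491815683) (nat_lit 2))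 (.cons (.rf (nat_lit 880) (nat_lit 20193522128555055202)) .nil))) .nil)))) .nil))))) .nil))))) .nil))))) .nil))))),
 (.br (nat_lit 16) (nat_lit 1) (.cons (.ev (nat_lit 680575138956309480425603028511543525633) (nat_lit 2)) .nil)),
 (.br (nat_lit 10) (nat_lit 1) (.cons (.ev (nat_lit 20362256740926535360071082312449) (nat_lit 2)) (.cons (.zr (nat_lit 79230580384494426113678902529) (nat_lit 20830034662954987891877809112481792) (nat_lit 8) (nat_lit 1)) (.cons (.br (nat_lit 11) (nat_lit 1) (.cons (.ev (nat_lit 5212658496301012082094804383629313) (nat_lit 1)) (.cons (.ev (nat_lit 20838866083458604666452371965697) (nat_lit 3)) (.cons (.br (nat_lit 14) (nat_lit 1) (.cons (.rf (nat_lit 68) (nat_lit 18122994195526)) (.cons (.rf (nat_lit 68) (nat_lit 17057809800262)) (.cons (.br (nat_lit 15) (nat_lit 1) (.cons (.rf (nat_lit 882) (nat_lit 677582165103132179601393696)) (.cons (.br (nat_lit 15) (nat_lit 1) (.cons (.rf (nat_lit 882) (nat_lit 677582165103132179601393696)) .nil)) .nil))) .nil)))) .nil)))) .nil)))),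
 (.br (nat_lit 16) (nat_lit 1) (.cons (.ev (nat_lit 683223210195703509043825152595446596353) (nat_lit 2)) .nil)),
 (.br (nat_lit 11) (nat_lit 1) (.cons (.ev (nat_lit 20838866083458604666452371965697) (nat_lit 3)) (.cons (.ev (nat_lit 1329228075014287331506562050258108416) (nat_lit 1)) (.cons (.br (nat_lit 15) (nat_lit 1) (.cons (.rf (nat_lit 68) (nat_lit 18089700039782)) (.cons (.rf (nat_lit 68) (nat_lit 15959103708262)) (.cons (.br (nat_lit 14) (nat_lit 1) (.cons (.rf (nat_lit 884) (nat_lit 677582165103132179601393696)) (.cons (.br (nat_lit 14) (nat_lit 1) (.cons (.rf (nat_lit 884) (nat_lit 677582165103132179601393696)) .nil)) .nil))) .nil)))) .nil)))),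
 (.br (nat_lit 14) (nat_lit 1) (.cons (.br (nat_lit 15) (nat_lit 1) (.cons (.ev (nat_lit 685892051255740406176780103300686022401) (nat_lit 3)) (.cons (.rf (nat_lit 744) (nat_lit 661701183358440156956868)) .nil))) (.cons (.ev (nat_lit 5192376396182370161239806812684288) (nat_lit 1)) .nil))),
 (.br (nat_lit 14) (nat_lit 1) (.cons (.rf (nat_lit 886) (nat_lit 677582165103132179601393696)) (.cons (.br (nat_lit 16) (nat_lit 1) (.cons (.zr (nat_lit 623805723786402732590762759) (nat_lit 680575219926870182095435974478835744768) (nat_lit 24) (nat_lit 1)) (.cons (.ev (nat_lit 349129718866313587348070228812270747518721) (nat_lit 3)) .nil))) .nil))),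
 (.br (nat_lit 14) (nat_lit 1) (.cons (.ev (nat_lit 1344845452111809503018952753953309184) (nat_lit 2)) (.cons (.rf (nat_lit 40) (nat_lit 17981398781154)) .nil))),
 (.br (nat_lit 14) (nat_lit 1) (.cons (.br (nat_lit 16) (nat_lit 1) (.cons (.ev (nat_lit 2047011133870415497105054972181727150339) (nat_lit 3)) (.cons (.zr (nat_lit 680564754203514697815051023327737151489) (nat_lit 10384594336039730239983351270212352) (nat_lit 8) (nat_lit 4)) .nil))) (.cons (.ev (nat_lit 5212579577628211559122554788577537) (nat_lit 1)) .nil))),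
 (.br (nat_lit 14) (nat_lit 1) (.cons (.rf (nat_lit 889) (nat_lit 677582165103132179601393696)) (.cons (.br (nat_lit 17) (nat_lit 1) (.cons (.rf (nat_lit 720) (nat_lit 622815414031471296420965)) (.cons (.ev (nat_lit 174905136617882464325591451338590614847745) (nat_lit 2)) .nil))) .nil))),
 (.br (nat_lit 6) (nat_lit 1) (.cons (.zr (nat_lit 20361637766165935888544508805121) (nat_lit 2422629345944349123281664) (nat_lit 8) (nat_lit 4)) (.cons (.rf (nat_lit 47) (nat_lit 477465794)) (.cons (.br (nat_lit 10) (nat_lit 1) (.cons (.ev (nat_lit 79229371440156292395539955713) (nat_lit 1)) (.cons (.ev (nat_lit 79229376162450717671147241473) (nat_lit 1)) (.cons (.br (nat_lit 11) (nat_lit 1) (.cons (.zr (nat_lit 237684492265160622653990633473) (nat_lit 10404876745643381910407298521497856) (nat_lit 8) (nat_lit 4)) (.cons (.br (nat_lit 14) (nat_lit 1) (.cons (.ev (nat_lit 10404955978665211717966632637825283) (nat_lit 3)) (.cons (.rf (nat_lit 40) (nat_lit 17978177686722)) .nil))) (.cons (.br (nat_lit 14) (nat_lit 1) (.cons (.rf (nat_lit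 68) (nat_lit 18122994322626)) (.cons (.rf (nat_lit 68) (nat_lit 17057809927362)) (.cons (.br (nat_lit 15) (nat_lit 1) (.cons (.br (nat_lit 15) (nat_lit 1) (.cons (.ev (nat_lit 1344805045748941395378849199465496576) (nat_lit 2)) .nil)) (.cons (.br (nat_lit 15) (nat_lit 1) (.cons (.ev (nat_lit 1344805045748941395378849199465496576) (nat_lit 2)) .nil)) .nil))) .nil)))) .nil)))) .nil)))) (.cons (.br (nat_lit 10) (nat_lit 1) (.cons (.rf (nat_lit 47) (nat_lit 509971778)) (.cons (.br (nat_lit 11) (nat_lit 1) (.cons (.ev (nat_lit 10405114432553461959762559224643843) (nat_lit 2)) (.cons (.rf (nat_lit 888) (nat_lit 583706118939841765935136)) (.cons (.rf (nat_lit 719) (nat_lit 18315610736009289964645)) .nil)))) (.cons (.ev (nat_lit 79229376162450717671147241473) (nat_lit 1)) (.cons (.br (nat_lit 11) (nat_lit 1) (.cons (.br (nat_lit 14) (nat_lit 1) (.cons (.ev (nat_lit 5212579577623489120582091105435905) (nat_lit 1)) (.cons (.ev (nat_lit 5192297171656078232547765090648579) (nat_lit 2)) (.cons (.br (nat_lit 15) (nat_lit 1) (.cons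 (.br (nat_lit 15) (nat_lit 1) (.cons (.ev (nat_lit 2668861106002385244517310381468680449) (nat_lit 2)) .nil)) (.cons (.br (nat_lit 15) (nat_lit 1) (.cons (.ev (nat_lit 2668861106002385244517310381468680449) (nat_lit 2)) .nil)) .nil))) .nil)))) (.cons (.rf (nat_lit 719) (nat_lit 17136209226711101904964)) (.cons (.br (nat_lit 16) (nat_lit 1) (.cons (.rf (nat_lit 68) (nat_lit 16991099653442)) (.cons (.rf (nat_lit 68) (nat_lit 15925980269890)) (.cons (.br (nat_lit 14) (nat_lit 1) (.cons (.br (nat_lit 14) (nat_lit 1) (.cons (.zr (nat_lit 680564754203514693092828655646167793665) (nat_lit 10384594336044452606466220915426048) (nat_lit 8) (nat_lit 4)) .nil)) (.cons (.br (nat_lit 14) (nat_lit 1) (.cons (.zr (nat_lit 680564754203514693092828655646167793665) (nat_lit 10384594336044452606466220915426048) (nat_lit 8) (nat_lit 4)) .nil)) .nil))) .nil)))) (.cons (.br (nat_lit 14) (nat_lit 1) (.cons (.rf (nat_lit 889) (nat_lit 677582165103132179601393696)) (.cons (.rf (nat_lit 890) (nat_lit 677582165103132179601393696)) (.cons (.br (nat_lit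 14) (nat_lit 1) (.cons (.ev (nat_lit 5212579577628211559122554788577537) (nat_lit 1)) (.cons (.rf (nat_lit 890) (nat_lit 677582165103132179601393696)) .nil))) .nil)))) .nil))))) .nil))))) .nil))))),
 (.br (nat_lit 14) (nat_lit 1) (.cons (.ev (nat_lit 1344804887290184348038875601101193730) (nat_lit 2)) (.cons (.rf (nat_lit 40) (nat_lit 17978177689698)) .nil))),
 (.br (nat_lit 12) (nat_lit 1) (.cons (.br (nat_lit 14) (nat_lit 1) (.cons (.kr (nat_lit 1334420292643455422898820434844713216) (nat_lit 20361638975091754658744458346496) (nat_lit 1) (nat_lit 0)) .nil)) .nil)),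
 (.br (nat_lit 10) (nat_lit 1) (.cons (.rf (nat_lit 40) (nat_lit 15746840335425)) (.cons (.rf (nat_lit 68) (nat_lit 13689346626625)) (.cons (.br (nat_lit 12) (nat_lit 1) (.cons (.rf (nat_lit 893) (nat_lit 583706118939841765935136)) (.cons (.br (nat_lit 12) (nat_lit 1) (.cons (.rf (nat_lit 893) (nat_lit 583706118939841765935136)) .nil)) .nil))) .nil)))),
 (.br (nat_lit 12) (nat_lit 1) (.cons (.br (nat_lit 14) (nat_lit 1) (.cons (.kr (nat_lit 1334420292643455459792308573673881856) (nat_lit 20361638975091754658744458346496) (nat_lit 1) (nat_lit 0)) .nil)) .nil)),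
 (.br (nat_lit 13) (nat_lit 1) (.cons (.rf (nat_lit 68) (nat_lit 15819512026401)) (.cons (.rf (nat_lit 68) (nat_lit 13689338271009)) (.cons (.br (nat_lit 12) (nat_lit 1) (.cons (.rf (nat_lit 895) (nat_lit 583706118939841765935136)) (.cons (.br (nat_lit 12) (nat_lit 1) (.cons (.rf (nat_lit 895) (nat_lit 583706118939841765935136)) .nil)) .nil))) .nil)))),
 (.br (nat_lit 16) (nat_lit 1) (.cons (.ev (nat_lit 341611594916723379354725440040734818561) (nat_lit 1)) (.cons (.rf (nat_lit 720) (nat_lit 660486116651655624789057)) .nil))),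
 (.br (nat_lit 14) (nat_lit 1) (.cons (.rf (nat_lit 897) (nat_lit 677582165103132179601393696)) (.cons (.br (nat_lit 15) (nat_lit 1) (.cons (.rf (nat_lit 810) (nat_lit 661665294027769990486344)) (.cons (.ev (nat_lit 87113615180117669328662738352613009391616) (nat_lit 1)) .nil))) .nil))),
 (.br (nat_lit 10) (nat_lit 1) (.cons (.zr (nat_lit 20282412035688856971788152733953) (nat_lit 237684487542793016092051767296) (nat_lit 8) (nat_lit 8)) (.cons (.zr (nat_lit 20282412026244124006048862306561) (nat_lit 237684487542793013893028511744) (nat_lit 8) (nat_lit 8)) (.cons (.zr (nat_lit 20282412035688856971788152733953) (nat_lit 237684487542937129081104367616) (nat_lit 8) (nat_lit 8)) (.cons (.br (nat_lit 3) (nat_lit 1) (.cons (.rf (nat_lit 47) (nat_lit 477468770)) (.cons (.br (nat_lit 11) (nat_lit 1) (.cons (.ev (nat_lit 10404955973820063418309792883540739) (nat_lit 2)) (.cons (.rf (nat_lit 892) (nat_lit 583706118939841765935136)) (.cons (.br (nat_lit 14) (nat_lit 1) (.cons (.rf (nat_lit 68) (nat_lit 18122994325602)) (.cons (.ev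 (nat_lit 10404955973810618541228865517257475) (nat_lit 2)) (.cons (.br (nat_lit 15) (nat_lit 1) (.cons (.br (nat_lit 15) (nat_lit 1) (.cons (.ev (nat_lit 1344865972205910123840669853851779329) (nat_lit 2)) .nil)) (.cons (.br (nat_lit 15) (nat_lit 1) (.cons (.ev (nat_lit 1344865972205910123840669853851779329) (nat_lit 2)) .nil)) .nil))) .nil)))) .nil)))) (.cons (.br (nat_lit 15) (nat_lit 1) (.cons (.ev (nat_lit 2658476353210020541088886263262610179) (nat_lit 2)) (.cons (.ev (nat_lit 2658476353210029985965967190628893443) (nat_lit 2)) (.cons (.rf (nat_lit 894) (nat_lit 19459454247239492439105)) .nil)))) (.cons (.br (nat_lit 11) (nat_lit 1) (.cons (.br (nat_lit 14) (nat_lit 1) (.cons (.rf (nat_lit 68) (nat_lit 18122726021346)) (.cons (.ev (nat_lit 10404955973820063274196803830940419) (nat_lit 2)) (.cons (.br (nat_lit 15) (nat_lit 1) (.cons (.br (nat_lit 15) (nat_lit 1) (.cons (.ev (nat_lit 1344865972205914846207151623985365249) (nat_lit 2)) .nil)) (.cons (.br (nat_lit 15) (nat_lit 1) (.cons (.ev (nat_lit 1344865972205914846207151623985365249)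 (nat_lit 2)) .nil)) .nil))) .nil)))) (.cons (.rf (nat_lit 896) (nat_lit 19459454247239492439105)) (.cons (.rf (nat_lit 719) (nat_lit 18244274981383875726401)) (.cons (.br (nat_lit 14) (nat_lit 1) (.cons (.rf (nat_lit 898) (nat_lit 677582165103132179601393696)) (.cons (.br (nat_lit 14) (nat_lit 1) (.cons (.rf (nat_lit 897) (nat_lit 677582165103132179601393696)) (.cons (.ev (nat_lit 10404955973810618685346252616368899) (nat_lit 2)) .nil))) (.cons (.br (nat_lit 14) (nat_lit 1) (.cons (.rf (nat_lit 898) (nat_lit 677582165103132179601393696)) (.cons (.ev (nat_lit 10404955973810618685346252616368899) (nat_lit 2)) .nil))) .nil)))) .nil))))) .nil))))) .nil)))))]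

theorem c38 : chkAll C T R L38 (nat_lit 876) = true := by decide +kernel

theorem l38 : (nat_lit 876) + L38.length = (nat_lit 900) := by decide +kernel

/-- part of the certificates -/
def L39 : List Prf := [(.br (nat_lit 14) (nat_lit 1) (.cons (.ev (nat_lit 5212579577623489192638585631736065) (nat_lit 1)) (.cons (.br (nat_lit 15) (nat_lit 1) (.cons (.rf (nat_lit 744) (nat_lit 661665555350868429245505)) (.cons (.ev (nat_lit 174227230340032157230410509737847639113985) (nat_lit 2)) .nil))) .nil))),
 (.br (nat_lit 14) (nat_lit 1) (.cons (.ev (nat_lit 5212579577623489192638585631736065) (nat_lit 1)) (.cons (.br (nat_lit 17) (nat_lit 1) (.cons (.zr (nat_lit 174224571883882131083025566743908593960193) (nat_lit 10384594336039730239986649805357056) (nat_lit 8) (nat_lit 0)) (.cons (.ev (nat_lit 524034845078606878767540621617192507801859) (nat_lit 3)) .nil))) .nil))),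
 (.br (nat_lit 3) (nat_lit 1) (.cons (.rf (nat_lit 47) (nat_lit 477310050)) (.cons (.rf (nat_lit 47) (nat_lit 477441122)) (.cons (.br (nat_lit 6) (nat_lit 1) (.cons (.zr (nat_lit 20361637766165935890743532060673) (nat_lit 2432074078910088413709056) (nat_lit 8) (nat_lit 4)) (.cons (.zr (nat_lit 60847228815695825625784527225600) (nat_lit 10384673564202189164088736570408963) (nat_lit 8) (nat_lit 8)) (.cons (.br (nat_lit 10) (nat_lit 1) (.cons (.ev (nat_lit 10405114432553461959762559224643843) (nat_lit 2)) (.cons (.ev (nat_lit 79229371440084233701990400001) (nat_lit 1)) (.cons (.br (nat_lit 14) (nat_lit 1) (.cons (.ev (nat_lit 5212579577623489120582091105435905) (nat_lit 1)) (.cons (.ev (nat_lit 5192297171651355866061596910551555) (nat_lit 2)) (.cons (.br (nat_lit 15) (nat_lit 1) (.cons (.br (nat_lit 15) (nat_lit 1) (.cons (.ev (nat_lit 2668861106002394689250278319782363393) (nat_lit 2)) .nil)) (.cons (.br (nat_lit 15) (nat_lit 1) (.cons (.ev (nat_lit 2668861106002394689250278319782363393) (nat_lit 2)) .nil)) .nil))) .nil))))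 .nil)))) .nil)))) (.cons (.br (nat_lit 6) (nat_lit 1) (.cons (.zr (nat_lit 20361637766165935890743532060673) (nat_lit 2432074078910088413709056) (nat_lit 8) (nat_lit 4)) (.cons (.br (nat_lit 10) (nat_lit 1) (.cons (.ev (nat_lit 79229371440084233701990400001) (nat_lit 1)) (.cons (.br (nat_lit 14) (nat_lit 1) (.cons (.ev (nat_lit 10404955978655766985003092370653443) (nat_lit 3)) (.cons (.rf (nat_lit 40) (nat_lit 17943817727170)) .nil))) (.cons (.br (nat_lit 14) (nat_lit 1) (.cons (.rf (nat_lit 68) (nat_lit 18122953436354)) (.cons (.rf (nat_lit 68) (nat_lit 17057574005954)) (.cons (.br (nat_lit 15) (nat_lit 1) (.cons (.br (nat_lit 15) (nat_lit 1) (.cons (.ev (nat_lit 2668861106002394689250278319782363393) (nat_lit 2)) .nil)) (.cons (.br (nat_lit 15) (nat_lit 1) (.cons (.ev (nat_lit 2668861106002394689250278319782363393) (nat_lit 2)) .nil)) .nil))) .nil)))) .nil)))) (.cons (.br (nat_lit 10) (nat_lit 1) (.cons (.br (nat_lit 14) (nat_lit 1) (.cons (.ev (nat_lit 10405114432553461815645172125532419) (nat_lit 2)) (.cons (.rf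 (nat_lit 40) (nat_lit 17809599999202)) .nil))) (.cons (.ev (nat_lit 79229371440084233701990400001) (nat_lit 1)) (.cons (.rf (nat_lit 786) (nat_lit 19459155734226437283177)) .nil)))) (.cons (.br (nat_lit 10) (nat_lit 1) (.cons (.rf (nat_lit 786) (nat_lit 19423713680596680182849)) (.cons (.br (nat_lit 15) (nat_lit 1) (.cons (.rf (nat_lit 68) (nat_lit 18089537514594)) (.cons (.rf (nat_lit 68) (nat_lit 15959266241634)) (.cons (.br (nat_lit 14) (nat_lit 1) (.cons (.br (nat_lit 14) (nat_lit 1) (.cons (.zr (nat_lit 2658476353207597911887057102215315457) (nat_lit 10384594336053897339431960205853440) (nat_lit 8) (nat_lit 4)) .nil)) (.cons (.br (nat_lit 14) (nat_lit 1) (.cons (.zr (nat_lit 2658476353207597911887057102215315457) (nat_lit 10384594336053897339431960205853440) (nat_lit 8) (nat_lit 4)) .nil)) .nil))) .nil)))) (.cons (.ev (nat_lit 79229371440084233701990400001) (nat_lit 1)) (.cons (.br (nat_lit 14) (nat_lit 1) (.cons (.rf (nat_lit 900) (nat_lit 677582165103132179601393696)) (.cons (.rf (nat_lit 901) (nat_lit 677582165103132179601393696))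 (.cons (.br (nat_lit 14) (nat_lit 1) (.cons (.rf (nat_lit 900) (nat_lit 677582165103132179601393696)) (.cons (.rf (nat_lit 901) (nat_lit 677582165103132179601393696)) .nil))) .nil)))) .nil))))) .nil))))) .nil))))),
 (.br (nat_lit 10) (nat_lit 1) (.cons (.rf (nat_lit 119) (nat_lit 16984524928161)) (.cons (.rf (nat_lit 119) (nat_lit 15919600579745)) (.cons (.rf (nat_lit 757) (nat_lit 19887633350887868616153156)) .nil)))),
 (.br (nat_lit 16) (nat_lit 1) (.cons (.ev (nat_lit 680575138956309480425603028511543525633) (nat_lit 2)) .nil)),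
 (.br (nat_lit 16) (nat_lit 1) (.cons (.ev (nat_lit 680575138956309489870191879062758097153) (nat_lit 2)) .nil)),
 (.br (nat_lit 14) (nat_lit 1) (.cons (.kr (nat_lit 1334420292643455422898820434844713216) (nat_lit 20361638975091754658744458346496) (nat_lit 1) (nat_lit 0)) .nil)),
 (.br (nat_lit 14) (nat_lit 1) (.cons (.kr (nat_lit 1334420292643455459792308573673881856) (nat_lit 20361638975091754658744458346496) (nat_lit 1) (nat_lit 0)) .nil)),
 (.br (nat_lit 10) (nat_lit 1) (.cons (.rf (nat_lit 902) (nat_lit 16529546130306413996429)) (.cons (.zr (nat_lit 20361637766165935890743532060673) (nat_lit 2422629490059537199137536) (nat_lit 8) (nat_lit 4)) (.cons (.rf (nat_lit 891) (nat_lit 16529546130306413996429)) (.cons (.br (nat_lit 3) (nat_lit 1) (.cons (.ev (nat_lit 79229376162450717671147241473) (nat_lit 1)) (.cons (.ev (nat_lit 10405114432553461959762559224643843) (nat_lit 2)) (.cons (.br (nat_lit 11) (nat_lit 1) (.cons (.ev (nat_lit 79229371440084233701990400001) (nat_lit 1)) (.cons (.ev (nat_lit 10405114432562906692726099491815683)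 (nat_lit 2)) (.cons (.br (nat_lit 6) (nat_lit 1) (.cons (.rf (nat_lit 119) (nat_lit 18114397157602)) (.cons (.rf (nat_lit 119) (nat_lit 17054348687586)) (.cons (.br (nat_lit 15) (nat_lit 1) (.cons (.br (nat_lit 15) (nat_lit 1) (.cons (.zr (nat_lit 2658455991574681616329636447155913475) (nat_lit 10404955973805859281822993134911488) (nat_lit 8) (nat_lit 0)) .nil)) (.cons (.br (nat_lit 15) (nat_lit 1) (.cons (.zr (nat_lit 2658455991574681616329636447155913475) (nat_lit 10404955973805859281822993134911488) (nat_lit 8) (nat_lit 0)) .nil)) .nil))) .nil)))) .nil)))) .nil)))) (.cons (.br (nat_lit 6) (nat_lit 1) (.cons (.br (nat_lit 11) (nat_lit 1) (.cons (.zr (nat_lit 237684492265304736742554861569) (nat_lit 10404876745643381910408398033125632) (nat_lit 8) (nat_lit 4)) (.cons (.br (nat_lit 14) (nat_lit 1) (.cons (.ev (nat_lit 10404955978665211573853643585224963) (nat_lit 3)) (.cons (.rf (nat_lit 40) (nat_lit 17978177689667)) .nil))) (.cons (.br (nat_lit 14) (nat_lit 1) (.cons (.rf (nat_lit 68) (nat_lit 18122994325571)) (.cons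 (.rf (nat_lit 68) (nat_lit 17057809930307)) (.cons (.br (nat_lit 15) (nat_lit 1) (.cons (.br (nat_lit 15) (nat_lit 1) (.cons (.ev (nat_lit 1344805045748941395234736210412896256) (nat_lit 2)) .nil)) (.cons (.br (nat_lit 15) (nat_lit 1) (.cons (.ev (nat_lit 1344805045748941395234736210412896256) (nat_lit 2)) .nil)) .nil))) .nil)))) .nil)))) (.cons (.br (nat_lit 3) (nat_lit 1) (.cons (.zr (nat_lit 60847228810973603258102957867776) (nat_lit 10384673564206911530571606215622659) (nat_lit 8) (nat_lit 8)) (.cons (.br (nat_lit 14) (nat_lit 1) (.cons (.ev (nat_lit 10404955978665211573853643585224963) (nat_lit 3)) (.cons (.rf (nat_lit 40) (nat_lit 17943817727046)) .nil))) (.cons (.rf (nat_lit 726) (nat_lit 622694313457080884074765)) .nil)))) (.cons (.br (nat_lit 3) (nat_lit 1) (.cons (.zr (nat_lit 237684492265160627052037144577) (nat_lit 10404876745643382198637674673209600) (nat_lit 8) (nat_lit 4)) (.cons (.br (nat_lit 11) (nat_lit 1) (.cons (.ev (nat_lit 10404955978665211573853643585224963) (nat_lit 3)) (.cons (.rf (nat_lit 119)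 (nat_lit 18118692026562)) .nil))) (.cons (.rf (nat_lit 903) (nat_lit 622703726024184642538561)) .nil)))) (.cons (.ev (nat_lit 79229376162522774165673541633) (nat_lit 1)) (.cons (.br (nat_lit 3) (nat_lit 1) (.cons (.br (nat_lit 14) (nat_lit 1) (.cons (.ev (nat_lit 5192297171656078160486872517837315) (nat_lit 2)) (.cons (.ev (nat_lit 5212579577623489120582091105435905) (nat_lit 1)) (.cons (.br (nat_lit 15) (nat_lit 1) (.cons (.rf (nat_lit 904) (nat_lit 677582165103132179601393696)) (.cons (.br (nat_lit 15) (nat_lit 1) (.cons (.rf (nat_lit 904) (nat_lit 677582165103132179601393696)) .nil)) .nil))) .nil)))) (.cons (.br (nat_lit 11) (nat_lit 1) (.cons (.ev (nat_lit 5192297171660800454912148125123075) (nat_lit 2)) (.cons (.ev (nat_lit 5212579577628211559122554788577537) (nat_lit 1)) (.cons (.br (nat_lit 15) (nat_lit 1) (.cons (.rf (nat_lit 905) (nat_lit 677582165103132179601393696)) (.cons (.br (nat_lit 15) (nat_lit 1) (.cons (.rf (nat_lit 905) (nat_lit 677582165103132179601393696)) .nil)) .nil))) .nil)))) (.cons (.br (nat_lit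 11) (nat_lit 1) (.cons (.ev (nat_lit 5192297171656078088430377991537155) (nat_lit 2)) (.cons (.rf (nat_lit 119) (nat_lit 18080942374211)) (.cons (.br (nat_lit 14) (nat_lit 1) (.cons (.ev (nat_lit 5192376396182370161239806812684288) (nat_lit 1)) (.cons (.ev (nat_lit 680564754361971032306903525723513815299) (nat_lit 2)) (.cons (.br (nat_lit 15) (nat_lit 1) (.cons (.ev (nat_lit 1369104856020108383034503322573071450371) (nat_lit 3)) (.cons (.zr (nat_lit 2658476353207602634109424783784673281) (nat_lit 10384594336039730384098539346068224) (nat_lit 8) (nat_lit 4)) .nil))) .nil)))) (.cons (.br (nat_lit 14) (nat_lit 1) (.cons (.rf (nat_lit 130) (nat_lit 17976924813538)) (.cons (.br (nat_lit 15) (nat_lit 1) (.cons (.ev (nat_lit 1369104856020108401923681023675500593411) (nat_lit 3)) (.cons (.zr (nat_lit 2658476353207602634109424783784673281) (nat_lit 10384594336039730384098539346068224) (nat_lit 8) (nat_lit 4)) .nil))) (.cons (.br (nat_lit 15) (nat_lit 1) (.cons (.rf (nat_lit 906) (nat_lit 661701295917511241501761)) (.cons (.ev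 (nat_lit 174227230340032157230410509737847639113985) (nat_lit 2)) .nil))) .nil)))) .nil))))) (.cons (.br (nat_lit 11) (nat_lit 1) (.cons (.ev (nat_lit 5212579577623489192638585631736065) (nat_lit 1)) (.cons (.br (nat_lit 14) (nat_lit 1) (.cons (.ev (nat_lit 5192376396182370161239806812684288) (nat_lit 1)) (.cons (.ev (nat_lit 680564754361971022862170557785200132355) (nat_lit 2)) (.cons (.br (nat_lit 15) (nat_lit 1) (.cons (.ev (nat_lit 1369104856020108373589770359032804278531) (nat_lit 3)) (.cons (.zr (nat_lit 2658476353207597911742944113162715137) (nat_lit 10384594336044452750581408991281920) (nat_lit 8) (nat_lit 4)) .nil))) .nil)))) (.cons (.ev (nat_lit 680564754361971032306759408336414703875) (nat_lit 2)) (.cons (.br (nat_lit 14) (nat_lit 1) (.cons (.br (nat_lit 15) (nat_lit 1) (.cons (.ev (nat_lit 1369104856020108401924113371438751416579) (nat_lit 3)) (.cons (.zr (nat_lit 2658476353207602634397651861401240833) (nat_lit 10384594336039730239986649805357056) (nat_lit 8) (nat_lit 0)) .nil))) (.cons (.ev (nat_lit 680564754361971022862170557785200132355)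 (nat_lit 2)) (.cons (.ev (nat_lit 5212579577628211487063861239021825) (nat_lit 1)) .nil)))) .nil))))) (.cons (.br (nat_lit 11) (nat_lit 1) (.cons (.rf (nat_lit 903) (nat_lit 660482508137088870026469)) (.cons (.br (nat_lit 14) (nat_lit 1) (.cons (.rf (nat_lit 130) (nat_lit 18901457418466)) (.cons (.br (nat_lit 15) (nat_lit 1) (.cons (.ev (nat_lit 1369104856020108373589482133054699077891) (nat_lit 3)) (.cons (.zr (nat_lit 2658476353207597911742944113162715137) (nat_lit 10384594336044452750581408991281920) (nat_lit 8) (nat_lit 4)) .nil))) (.cons (.br (nat_lit 15) (nat_lit 1) (.cons (.rf (nat_lit 907) (nat_lit 661701295917511241501761)) (.cons (.ev (nat_lit 174227230340032157230410509737847639113985) (nat_lit 2)) .nil))) .nil)))) (.cons (.br (nat_lit 14) (nat_lit 1) (.cons (.br (nat_lit 15) (nat_lit 1) (.cons (.ev (nat_lit 1369104856020108383034647444358217072899) (nat_lit 3)) (.cons (.zr (nat_lit 2658476353207602634397651861401240833) (nat_lit 10384594336039730239986649805357056) (nat_lit 8) (nat_lit 0)) .nil))) (.cons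 (.ev (nat_lit 680564754361971032306903525723513815299) (nat_lit 2)) (.cons (.ev (nat_lit 5212579577628211487063861239021825) (nat_lit 1)) .nil)))) (.cons (.br (nat_lit 14) (nat_lit 1) (.cons (.br (nat_lit 15) (nat_lit 1) (.cons (.rf (nat_lit 829) (nat_lit 625102805925218556873957)) (.cons (.ev (nat_lit 174227230340032157230410509737847639113985) (nat_lit 2)) .nil))) (.cons (.ev (nat_lit 5212579577628211487063861239021825) (nat_lit 1)) (.cons (.rf (nat_lit 130) (nat_lit 17942598695138)) .nil)))) .nil))))) .nil)))))) .nil)))))) .nil)))))),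
 (.br (nat_lit 13) (nat_lit 1) (.cons (.br (nat_lit 15) (nat_lit 1) (.cons (.ev (nat_lit 340287559217796998309522222170333249793) (nat_lit 1)) .nil)) .nil)),
 (.br (nat_lit 14) (nat_lit 1) (.cons (.rf (nat_lit 68) (nat_lit 16954592406595)) (.cons (.rf (nat_lit 68) (nat_lit 14824321133635)) (.cons (.br (nat_lit 13) (nat_lit 1) (.cons (.rf (nat_lit 909) (nat_lit 19926519232773908561233952)) (.cons (.br (nat_lit 13) (nat_lit 1) (.cons (.rf (nat_lit 909) (nat_lit 19926519232773908561233952)) .nil)) .nil))) .nil)))),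
 (.br (nat_lit 11) (nat_lit 1) (.cons (.ev (nat_lit 10404955973820063418309792883540739) (nat_lit 2)) (.cons (.rf (nat_lit 119) (nat_lit 18080943422786)) (.cons (.br (nat_lit 14) (nat_lit 1) (.cons (.ev (nat_lit 7985772930688160486035986000189325569) (nat_lit 3)) (.cons (.ev (nat_lit 10404955973810618541228865517257475) (nat_lit 2)) (.cons (.br (nat_lit 16) (nat_lit 1) (.cons (.ev (nat_lit 688540122336685363284353638810308051713) (nat_lit 3)) (.cons (.ev (nat_lit 340287559218107692245090842799234941185) (nat_lit 1)) .nil))) .nil)))) (.cons (.br (nat_lit 14) (nat_lit 1) (.cons (.rf (nat_lit 130) (nat_lit 17976923764963)) (.cons (.br (nat_lit 16) (nat_lit 1) (.cons (.ev (nat_lit 688540122336685372729518950113826046721) (nat_lit 3)) (.cons (.ev (nat_lit 340287559218107696967529383262918082817) (nat_lit 1)) .nil))) (.cons (.ev (nat_lit 10404955973810618541228865517257475) (nat_lit 2)) .nil)))) .nil))))),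
 (.br (nat_lit 12) (nat_lit 1) (.cons (.br (nat_lit 14) (nat_lit 1) (.cons (.kr (nat_lit 1334420292643455422898820434844713216) (nat_lit 20361638975091754658744458346496) (nat_lit 1) (nat_lit 0)) .nil)) .nil)),
 (.br (nat_lit 10) (nat_lit 1) (.cons (.rf (nat_lit 119) (nat_lit 15816391439425)) (.cons (.rf (nat_lit 119) (nat_lit 13686120166465)) (.cons (.br (nat_lit 12) (nat_lit 1) (.cons (.rf (nat_lit 912) (nat_lit 583706118939841765935136)) (.cons (.br (nat_lit 12) (nat_lit 1) (.cons (.rf (nat_lit 912) (nat_lit 583706118939841765935136)) .nil)) .nil))) .nil)))),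
 (.br (nat_lit 17) (nat_lit 1) (.cons (.rf (nat_lit 829) (nat_lit 547259888968155312425156)) (.cons (.ev (nat_lit 87113615180117669328662738352613009391616) (nat_lit 1)) .nil))),
 (.br (nat_lit 11) (nat_lit 1) (.cons (.rf (nat_lit 911) (nat_lit 19926026637908730634938765)) (.cons (.rf (nat_lit 119) (nat_lit 15949599456578)) (.cons (.ev (nat_lit 680564754361971032306759408336414703875) (nat_lit 2)) (.cons (.br (nat_lit 16) (nat_lit 1) (.cons (.ev (nat_lit 680564754361971022862170557785200132355) (nat_lit 2)) (.cons (.ev (nat_lit 688540122336685372729086602350575223553) (nat_lit 3)) (.cons (.rf (nat_lit 914) (nat_lit 677582165103132179601393696)) .nil)))) .nil))))),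
 (.br (nat_lit 12) (nat_lit 1) (.cons (.br (nat_lit 13) (nat_lit 1) (.cons (.ev (nat_lit 20361637766166006820234344792321) (nat_lit 1)) .nil)) .nil)),
 (.br (nat_lit 11) (nat_lit 1) (.cons (.rf (nat_lit 68) (nat_lit 14718050014403)) (.cons (.rf (nat_lit 68) (nat_lit 13652703089859)) (.cons (.br (nat_lit 12) (nat_lit 1) (.cons (.rf (nat_lit 916) (nat_lit 17022140995484340291616)) (.cons (.br (nat_lit 12) (nat_lit 1) (.cons (.rf (nat_lit 916) (nat_lit 17022140995484340291616)) .nil)) .nil))) .nil)))),
 (.br (nat_lit 14) (nat_lit 1) (.cons (.br (nat_lit 15) (nat_lit 1) (.cons (.ev (nat_lit 341611594916723379354725440040734818561) (nat_lit 1)) (.cons (.ev (nat_lit 2668861106002394689250278319782363393) (nat_lit 2)) .nil))) (.cons (.br (nat_lit 15) (nat_lit 1) (.cons (.ev (nat_lit 2668861106002394689250278319782363393) (nat_lit 2)) (.cons (.zr (nat_lit 10445679249338172848150944898220032) (nat_lit 174227230319512063139216046301115460878595) (nat_lit 8) (nat_lit 12)) .nil))) .nil))),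
 (.br (nat_lit 14) (nat_lit 1) (.cons (.rf (nat_lit 918) (nat_lit 677582165103132179601393696)) (.cons (.br (nat_lit 16) (nat_lit 1) (.cons (.ev (nat_lit 680575138797850737508397518540178064129) (nat_lit 2)) (.cons (.zr (nat_lit 10405114432548721146532308744929280) (nat_lit 174905136597362370234396987901858436612353) (nat_lit 8) (nat_lit 12)) .nil))) .nil)))]

theorem c39 : chkAll C T R L39 (nat_lit 900) = true := by decide +kernel

theorem l39 : (nat_lit 900) + L39.length = (nat_lit 920) := by decide +kernel

/-- part of the certificates -/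
def L40 : List Prf := [(.br (nat_lit 11) (nat_lit 1) (.cons (.rf (nat_lit 917) (nat_lit 608109071090671781920)) (.cons (.rf (nat_lit 841) (nat_lit 621558837779093765851168)) (.cons (.br (nat_lit 16) (nat_lit 1) (.cons (.ev (nat_lit 680564754203521970388994201085376725255) (nat_lit 3)) (.cons (.rf (nat_lit 68) (nat_lit 15925976078659)) (.cons (.br (nat_lit 14) (nat_lit 1) (.cons (.br (nat_lit 14) (nat_lit 1) (.cons (.ev (nat_lit 680575138797850746953274599467544347393) (nat_lit 2)) .nil)) (.cons (.br (nat_lit 14) (nat_lit 1) (.cons (.ev (nat_lit 680575138797850746953274599467544347393) (nat_lit 2)) .nil)) .nil))) .nil)))) (.cons (.br (nat_lit 14) (nat_lit 1) (.cons (.rf (nat_lit 918) (nat_lit 677582165103132179601393696)) (.cons (.rf (nat_lit 919) (nat_lit 677582165103132179601393696)) (.cons (.br (nat_lit 14) (nat_lit 1) (.cons (.rf (nat_lit 918) (nat_lit 677582165103132179601393696)) (.cons (.rf (nat_lit 919) (nat_lit 677582165103132179601393696)) .nil))) .nil)))) .nil))))),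
 (.br (nat_lit 15) (nat_lit 1) (.cons (.ev (nat_lit 1329248357422686779723853138468339713) (nat_lit 1)) (.cons (.ev (nat_lit 1329228075016719331726719733362459395) (nat_lit 2)) (.cons (.br (nat_lit 14) (nat_lit 1) (.cons (.br (nat_lit 14) (nat_lit 1) (.cons (.ev (nat_lit 2668861106002385244661427768567791873) (nat_lit 2)) .nil)) (.cons (.br (nat_lit 14) (nat_lit 1) (.cons (.ev (nat_lit 2668861106002385244661427768567791873) (nat_lit 2)) .nil)) .nil))) .nil)))),
 (.br (nat_lit 14) (nat_lit 1) (.cons (.br (nat_lit 15) (nat_lit 1) (.cons (.ev (nat_lit 683233594947879312134516591543321755907) (nat_lit 2)) (.cons (.ev (nat_lit 2679246017253492865152370396717254403) (nat_lit 3)) .nil))) (.cons (.br (nat_lit 17) (nat_lit 1) (.cons (.ev (nat_lit 348457139884724462275981494609854333059847) (nat_lit 3)) (.cons (.ev (nat_lit 87112291124057415875405615737900128862465) (nat_lit 1)) .nil))) .nil))),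
 (.br (nat_lit 15) (nat_lit 1) (.cons (.br (nat_lit 16) (nat_lit 1) (.cons (.ev (nat_lit 87112291144419053646275470237141643100160) (nat_lit 1)) .nil)) .nil)),
 (.br (nat_lit 11) (nat_lit 1) (.cons (.rf (nat_lit 917) (nat_lit 572353718073759738253)) (.cons (.ev (nat_lit 10404955973820063418309792883540739) (nat_lit 2)) (.cons (.br (nat_lit 6) (nat_lit 1) (.cons (.rf (nat_lit 119) (nat_lit 18119731165379)) (.cons (.ev (nat_lit 1329248357422682057285312674785198081) (nat_lit 1)) (.cons (.br (nat_lit 14) (nat_lit 1) (.cons (.ev (nat_lit 10404955973810618541228865517257475) (nat_lit 2)) (.cons (.ev (nat_lit 340282367000167839644343844191879561216) (nat_lit 1)) (.cons (.br (nat_lit 16) (nat_lit 1) (.cons (.ev (nat_lit 342940823070967038144691202648120033283) (nat_lit 2)) (.cons (.ev (nat_lit 680575138797850737508397518540178064129) (nat_lit 2)) .nil))) .nil)))) (.cons (.br (nat_lit 14) (nat_lit 1) (.cons (.ev (nat_lit 10404955973810618541228865517257475) (nat_lit 2)) (.cons (.br (nat_lit 15) (nat_lit 1) (.cons (.ev (nat_lit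 683233594947879312134516591543321755907) (nat_lit 2)) (.cons (.ev (nat_lit 2679246017253502309741220947931825923) (nat_lit 3)) .nil))) (.cons (.br (nat_lit 17) (nat_lit 1) (.cons (.ev (nat_lit 348457139884724462266536905759303118488327) (nat_lit 3)) (.cons (.ev (nat_lit 87112291124057415880128054278363812004097) (nat_lit 1)) .nil))) .nil)))) .nil))))) (.cons (.br (nat_lit 6) (nat_lit 1) (.cons (.rf (nat_lit 119) (nat_lit 17054319229123)) (.cons (.br (nat_lit 14) (nat_lit 1) (.cons (.ev (nat_lit 1329248357422686779723853138468339713) (nat_lit 1)) (.cons (.ev (nat_lit 10404955973810618541228865517257475) (nat_lit 2)) (.cons (.br (nat_lit 15) (nat_lit 1) (.cons (.ev (nat_lit 1329228075016719331726719733362459395) (nat_lit 2)) (.cons (.ev (nat_lit 2668861106002394689250278319782363393) (nat_lit 2)) .nil))) .nil)))) (.cons (.ev (nat_lit 340282367000167834921905303728196419584) (nat_lit 1)) (.cons (.br (nat_lit 14) (nat_lit 1) (.cons (.br (nat_lit 15) (nat_lit 1) (.cons (.ev (nat_lit 683233594947879312134516591543321755907)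 (nat_lit 2)) (.cons (.ev (nat_lit 2679246017253511754906532251449820931) (nat_lit 3)) .nil))) (.cons (.ev (nat_lit 10404955973810618541228865517257475) (nat_lit 2)) (.cons (.br (nat_lit 17) (nat_lit 1) (.cons (.ev (nat_lit 87112291144419053641553175811866035814400) (nat_lit 1)) (.cons (.ev (nat_lit 349129729250750093286217519096051273827591) (nat_lit 3)) .nil))) .nil)))) .nil))))) (.cons (.br (nat_lit 14) (nat_lit 1) (.cons (.br (nat_lit 15) (nat_lit 1) (.cons (.rf (nat_lit 923) (nat_lit 677582165103132179601393696)) (.cons (.br (nat_lit 15) (nat_lit 1) (.cons (.rf (nat_lit 923) (nat_lit 677582165103132179601393696)) .nil)) .nil))) (.cons (.br (nat_lit 6) (nat_lit 1) (.cons (.ev (nat_lit 1329248357422686779723853138468339713) (nat_lit 1)) (.cons (.br (nat_lit 16) (nat_lit 1) (.cons (.ev (nat_lit 342940823070967047589568283575486316547) (nat_lit 2)) (.cons (.ev (nat_lit 680575138797850737508397518540178064129) (nat_lit 2)) .nil))) (.cons (.br (nat_lit 17) (nat_lit 1) (.cons (.ev (nat_lit 348457139884724462275981494609854333059847)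 (nat_lit 3)) (.cons (.ev (nat_lit 87112291124057415875405615737900128862465) (nat_lit 1)) .nil))) .nil)))) (.cons (.br (nat_lit 6) (nat_lit 1) (.cons (.br (nat_lit 15) (nat_lit 1) (.cons (.ev (nat_lit 1329228075016719331726719733362459395) (nat_lit 2)) (.cons (.ev (nat_lit 2668861106002394689250278319782363393) (nat_lit 2)) .nil))) (.cons (.ev (nat_lit 340282387203349276040936704706038726913) (nat_lit 1)) (.cons (.br (nat_lit 17) (nat_lit 1) (.cons (.ev (nat_lit 87112291144419053646275470237141643100160) (nat_lit 1)) (.cons (.ev (nat_lit 349129729250750093276772930245500059256071) (nat_lit 3)) .nil))) .nil)))) (.cons (.ev (nat_lit 10404955973810618541228865517257475) (nat_lit 2)) .nil))))) .nil)))))),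
 (.br (nat_lit 14) (nat_lit 1) (.cons (.ev (nat_lit 79229376162522774165673541633) (nat_lit 1)) (.cons (.ev (nat_lit 340282387203349276040936704706038726913) (nat_lit 1)) (.cons (.ev (nat_lit 10404955973810618685346252616368899) (nat_lit 2)) .nil)))),
 (.br (nat_lit 16) (nat_lit 1) (.cons (.ev (nat_lit 2047011134187323311458544512161192084743) (nat_lit 3)) .nil)),
 (.br (nat_lit 6) (nat_lit 1) (.cons (.rf (nat_lit 920) (nat_lit 18754879750157058621942157)) (.cons (.br (nat_lit 11) (nat_lit 1) (.cons (.rf (nat_lit 119) (nat_lit 18111141361894)) (.cons (.ev (nat_lit 7975388811716250674635629487152301831) (nat_lit 3)) (.cons (.br (nat_lit 14) (nat_lit 1) (.cons (.ev (nat_lit 7975388811716241230046778935937730311) (nat_lit 3)) (.cons (.ev (nat_lit 680564754203521970388850088096324124935) (nat_lit 3)) (.cons (.br (nat_lit 15) (nat_lit 1) (.cons (.ev (nat_lit 341611594916723384077163980504417960193) (nat_lit 1)) (.cons (.ev (nat_lit 2668861106002394689250278319782363393) (nat_lit 2)) .nil))) .nil)))) (.cons (.br (nat_lit 14)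 (nat_lit 1) (.cons (.ev (nat_lit 7975388811716241230046778935937730311) (nat_lit 3)) (.cons (.br (nat_lit 15) (nat_lit 1) (.cons (.ev (nat_lit 341611594916723379354725440040734818561) (nat_lit 1)) (.cons (.ev (nat_lit 2668861106002394689250278319782363393) (nat_lit 2)) .nil))) (.cons (.br (nat_lit 15) (nat_lit 1) (.cons (.ev (nat_lit 2668861106002394689250278319782363393) (nat_lit 2)) (.cons (.zr (nat_lit 10384594336044415712978073496453889) (nat_lit 174227230339873700891159541384038099976192) (nat_lit 8) (nat_lit 1)) .nil))) .nil)))) .nil))))) (.cons (.ev (nat_lit 1329248357422686779651796643942039553) (nat_lit 1)) (.cons (.br (nat_lit 11) (nat_lit 1) (.cons (.rf (nat_lit 924) (nat_lit 18754879750157058621942157)) (.cons (.rf (nat_lit 119) (nat_lit 15953897569378)) (.cons (.ev (nat_lit 340282367000167834921905303728196419584) (nat_lit 1)) (.cons (.br (nat_lit 16) (nat_lit 1) (.cons (.ev (nat_lit 340282367000167839644343844191879561216) (nat_lit 1)) (.cons (.ev (nat_lit 342940823070967047589424170586433716227) (nat_lit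 2)) (.cons (.br (nat_lit 15) (nat_lit 1) (.cons (.rf (nat_lit 925) (nat_lit 677582165103132179601393696)) (.cons (.ev (nat_lit 174227230339873703313751993840239804154625) (nat_lit 2)) .nil))) .nil)))) .nil))))) (.cons (.br (nat_lit 11) (nat_lit 1) (.cons (.rf (nat_lit 924) (nat_lit 18754879750157058621942157)) (.cons (.br (nat_lit 14) (nat_lit 1) (.cons (.rf (nat_lit 926) (nat_lit 677582165103132179601393696)) (.cons (.br (nat_lit 14) (nat_lit 1) (.cons (.rf (nat_lit 926) (nat_lit 677582165103132179601393696)) .nil)) .nil))) (.cons (.br (nat_lit 15) (nat_lit 1) (.cons (.br (nat_lit 16) (nat_lit 1) (.cons (.ev (nat_lit 10404955973810618685346252616368899) (nat_lit 2)) (.cons (.ev (nat_lit 2047011134187323302013955661609977513223) (nat_lit 3)) .nil))) (.cons (.rf (nat_lit 130) (nat_lit 18939038415970)) (.cons (.br (nat_lit 16) (nat_lit 1) (.cons (.ev (nat_lit 1363787944195422617311938064876430557959) (nat_lit 3)) (.cons (.ev (nat_lit 348451802203552655368769427244170510205699) (nat_lit 3)) .nil))) .nil)))) (.cons (.br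 (nat_lit 17) (nat_lit 1) (.cons (.ev (nat_lit 174224571884040587398627953315925301657859) (nat_lit 2)) (.cons (.rf (nat_lit 130) (nat_lit 15744652328034)) (.cons (.br (nat_lit 15) (nat_lit 1) (.cons (.br (nat_lit 14) (nat_lit 1) (.cons (.ev (nat_lit 2047011134187323292569366811058762941703) (nat_lit 3)) .nil)) (.cons (.ev (nat_lit 341611594916723379354725440040734818561) (nat_lit 1)) .nil))) .nil)))) .nil))))) .nil)))))),
 (.br (nat_lit 11) (nat_lit 1) (.cons (.rf (nat_lit 841) (nat_lit 547210096822894232545549)) (.cons (.rf (nat_lit 924) (nat_lit 18754879750157058621942157)) (.cons (.br (nat_lit 6) (nat_lit 1) (.cons (.br (nat_lit 14) (nat_lit 1) (.cons (.ev (nat_lit 7975388811716250674779742476204902151) (nat_lit 3)) (.cons (.ev (nat_lit 680564754203521979833583051636591296775) (nat_lit 3)) (.cons (.br (nat_lit 15) (nat_lit 1) (.cons (.ev (nat_lit 341611594916723384077163980504417960193) (nat_lit 1)) (.cons (.ev (nat_lit 2668861106002385244517310381468680449) (nat_lit 2)) .nil))) .nil)))) (.cons (.ev (nat_lit 1329248357422682057285312674785198081)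 (nat_lit 1)) (.cons (.ev (nat_lit 340282367000167839644271787697353261056) (nat_lit 1)) (.cons (.br (nat_lit 15) (nat_lit 1) (.cons (.br (nat_lit 16) (nat_lit 1) (.cons (.ev (nat_lit 10404955973810618685346252616368899) (nat_lit 2)) (.cons (.ev (nat_lit 2047011134187323311458688625150244685063) (nat_lit 3)) .nil))) (.cons (.rf (nat_lit 130) (nat_lit 18938997521762)) (.cons (.br (nat_lit 16) (nat_lit 1) (.cons (.ev (nat_lit 1363787944195422626756671028416697729799) (nat_lit 3)) (.cons (.ev (nat_lit 348451802203552655359324694280630243033859) (nat_lit 3)) .nil))) .nil)))) .nil))))) (.cons (.rf (nat_lit 927) (nat_lit 18754879750157058621942157)) (.cons (.br (nat_lit 6) (nat_lit 1) (.cons (.br (nat_lit 14) (nat_lit 1) (.cons (.br (nat_lit 15) (nat_lit 1) (.cons (.ev (nat_lit 341611594916723379354725440040734818561) (nat_lit 1)) (.cons (.ev (nat_lit 2668861106002394689394391308834963713) (nat_lit 2)) .nil))) (.cons (.ev (nat_lit 680564754203521979833583051636591296775) (nat_lit 3)) (.cons (.br (nat_lit 16) (nat_lit 1) (.cons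 (.ev (nat_lit 680575138797850737508397518540178064129) (nat_lit 2)) (.cons (.zr (nat_lit 10384594338462267352207331845735171) (nat_lit 174905136658288827193643823832675578281984) (nat_lit 8) (nat_lit 1)) .nil))) .nil)))) (.cons (.br (nat_lit 14) (nat_lit 1) (.cons (.ev (nat_lit 1329248357422686779723853138468339713) (nat_lit 1)) (.cons (.br (nat_lit 14) (nat_lit 1) (.cons (.ev (nat_lit 1329248357422686779723853138468339713) (nat_lit 1)) (.cons (.ev (nat_lit 10404955973810618685346252616368899) (nat_lit 2)) .nil))) (.cons (.rf (nat_lit 925) (nat_lit 637762678324710153233213837)) .nil)))) (.cons (.ev (nat_lit 340282367000167839644271787697353261056) (nat_lit 1)) (.cons (.br (nat_lit 17) (nat_lit 1) (.cons (.ev (nat_lit 174224571884040587398627953315925301657859) (nat_lit 2)) (.cons (.br (nat_lit 15) (nat_lit 1) (.cons (.br (nat_lit 14) (nat_lit 1) (.cons (.ev (nat_lit 1363787944195422636201259878967912301319) (nat_lit 3)) .nil)) (.cons (.ev (nat_lit 341611594916723379354725440040734818561) (nat_lit 1)) .nil))) (.cons (.rf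 (nat_lit 130) (nat_lit 16735716032835)) .nil)))) .nil))))) .nil)))))),
 (.br (nat_lit 15) (nat_lit 1) (.cons (.ev (nat_lit 2668861106002394689394391308834963713) (nat_lit 2)) (.cons (.zr (nat_lit 10384594336044415712978073496453889) (nat_lit 174227230339873700891159541384038099976192) (nat_lit 8) (nat_lit 1)) .nil))),
 (.br (nat_lit 15) (nat_lit 1) (.cons (.ev (nat_lit 1329227995784915872975865758124933376) (nat_lit 1)) (.cons (.ev (nat_lit 1329228075016719331726719733362459395) (nat_lit 2)) (.cons (.rf (nat_lit 130) (nat_lit 15744649182402)) .nil)))),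
 (.br (nat_lit 8) (nat_lit 0) (.cons (.rf (nat_lit 363) (nat_lit 422425269280)) (.cons (.br (nat_lit 12) (nat_lit 0) (.cons (.br (nat_lit 7) (nat_lit 1) (.cons (.rf (nat_lit 881) (nat_lit 493858305440582043680)) (.cons (.kr (nat_lit 1099511627776) (nat_lit 72057594037927936) (nat_lit 5) (nat_lit 0)) (.cons (.br (nat_lit 2) (nat_lit 1) (.cons (.rf (nat_lit 711) (nat_lit 445092485129178177)) (.cons (.ev (nat_lit 79231803477269375276109988610) (nat_lit 2)) (.cons (.rf (nat_lit 738) (nat_lit 336903739535300676)) (.cons (.br (nat_lit 3) (nat_lit 1) (.cons (.rf (nat_lit 47) (nat_lit 472099011)) (.cons (.ev (nat_lit 20283338068126084442108400239107) (nat_lit 2)) (.cons (.rf (nat_lit 883) (nat_lit 17022140995484340291616)) (.cons (.br (nat_lit 10) (nat_lit 1) (.cons (.rf (nat_lit 47) (nat_lit 472227142)) (.cons (.br (nat_lit 11) (nat_lit 1) (.cons (.zr (nat_lit 79230594551593874722614543617) (nat_lit 20830034662950265525399337513779200) (nat_lit 8) (nat_lit 1)) (.cons (.br (nat_lit 14) (nat_lit 1) (.cons (.ev (nat_lit 20790025067137322288446279990511361)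 (nat_lit 3)) (.cons (.rf (nat_lit 40) (nat_lit 17981398686790)) .nil))) (.cons (.rf (nat_lit 786) (nat_lit 19423563930543745961189)) .nil)))) (.cons (.rf (nat_lit 885) (nat_lit 583706118939841765935136)) (.cons (.br (nat_lit 11) (nat_lit 1) (.cons (.rf (nat_lit 885) (nat_lit 547795775453141500537229)) (.cons (.rf (nat_lit 786) (nat_lit 19459341688168407894212)) (.cons (.rf (nat_lit 883) (nat_lit 18890729371741236603277)) (.cons (.br (nat_lit 14) (nat_lit 1) (.cons (.rf (nat_lit 886) (nat_lit 677582165103132179601393696)) (.cons (.rf (nat_lit 887) (nat_lit 677582165103132179601393696)) (.cons (.br (nat_lit 14) (nat_lit 1) (.cons (.ev (nat_lit 5192376396182370161239806812684288) (nat_lit 1)) (.cons (.rf (nat_lit 887) (nat_lit 677582165103132179601393696)) .nil))) .nil)))) .nil))))) .nil))))) .nil))))) .nil))))) (.cons (.rf (nat_lit 881) (nat_lit 1263440262655748493)) (.cons (.kr (nat_lit 72057594037927936) (nat_lit 4722366482869645213696) (nat_lit 7) (nat_lit 0)) (.cons (.br (nat_lit 2) (nat_lit 1) (.cons (.rf (nat_lit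 891) (nat_lit 17022140995484340291616)) (.cons (.rf (nat_lit 899) (nat_lit 17022140995484340291616)) (.cons (.ev (nat_lit 79231803477269375276109988610) (nat_lit 2)) (.cons (.rf (nat_lit 902) (nat_lit 17022140995484340291616)) (.cons (.rf (nat_lit 908) (nat_lit 17022140995484340291616)) (.cons (.br (nat_lit 10) (nat_lit 1) (.cons (.rf (nat_lit 902) (nat_lit 16529546130306413996429)) (.cons (.rf (nat_lit 899) (nat_lit 16529546130306413996429)) (.cons (.rf (nat_lit 891) (nat_lit 16529546130306413996429)) (.cons (.rf (nat_lit 908) (nat_lit 16529546130306413996429)) (.cons (.br (nat_lit 6) (nat_lit 1) (.cons (.ev (nat_lit 79229376162450717671147241473) (nat_lit 1)) (.cons (.ev (nat_lit 79229371440084233701990400001) (nat_lit 1)) (.cons (.ev (nat_lit 79229376162522774165673541633) (nat_lit 1)) (.cons (.ev (nat_lit 2658476353210029985821849803529782019) (nat_lit 2)) (.cons (.br (nat_lit 3) (nat_lit 1) (.cons (.rf (nat_lit 910) (nat_lit 622703688833168364898336)) (.cons (.rf (nat_lit 911) (nat_lit 19926519232773908561233952))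 (.cons (.rf (nat_lit 913) (nat_lit 19459454247239492439105)) (.cons (.rf (nat_lit 915) (nat_lit 19926519232773908561233952)) (.cons (.br (nat_lit 11) (nat_lit 1) (.cons (.rf (nat_lit 911) (nat_lit 19926026637908730634938765)) (.cons (.rf (nat_lit 913) (nat_lit 19459048637262571253068)) (.cons (.rf (nat_lit 915) (nat_lit 19926026637908730634938765)) (.cons (.br (nat_lit 15) (nat_lit 1) (.cons (.br (nat_lit 17) (nat_lit 1) (.cons (.ev (nat_lit 174227240724626495678455566381745109598467) (nat_lit 2)) (.cons (.rf (nat_lit 874) (nat_lit 548439440226439201426497)) .nil))) (.cons (.br (nat_lit 16) (nat_lit 1) (.cons (.ev (nat_lit 688540122336685372729518950113826046721) (nat_lit 3)) (.cons (.ev (nat_lit 174907795073715580240715637106192123298563) (nat_lit 2)) .nil))) (.cons (.rf (nat_lit 130) (nat_lit 17839519481154)) .nil)))) .nil))))) .nil)))))) .nil)))))) (.cons (.br (nat_lit 3) (nat_lit 1) (.cons (.rf (nat_lit 920) (nat_lit 19926519232773908561233952)) (.cons (.br (nat_lit 6) (nat_lit 1) (.cons (.rf (nat_lit 624) (nat_lit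 17547509516889914932824096)) (.cons (.rf (nat_lit 921) (nat_lit 19926519232773908561233952)) (.cons (.rf (nat_lit 921) (nat_lit 18754879750157058621942157)) (.cons (.br (nat_lit 14) (nat_lit 1) (.cons (.rf (nat_lit 922) (nat_lit 677582165103132179601393696)) (.cons (.rf (nat_lit 922) (nat_lit 676410525620515329662101901)) (.cons (.br (nat_lit 14) (nat_lit 1) (.cons (.rf (nat_lit 922) (nat_lit 677582165103132179601393696)) (.cons (.rf (nat_lit 922) (nat_lit 676410525620515329662101901)) .nil))) .nil)))) .nil))))) (.cons (.rf (nat_lit 924) (nat_lit 19926519232773908561233952)) (.cons (.rf (nat_lit 927) (nat_lit 19926519232773908561233952)) (.cons (.rf (nat_lit 928) (nat_lit 19926519232773908561233952)) (.cons (.br (nat_lit 11) (nat_lit 1) (.cons (.rf (nat_lit 920) (nat_lit 18754879750157058621942157)) (.cons (.rf (nat_lit 924) (nat_lit 18754879750157058621942157)) (.cons (.rf (nat_lit 928) (nat_lit 18754879750157058621942157)) (.cons (.rf (nat_lit 927) (nat_lit 18754879750157058621942157)) (.cons (.br (nat_lit 6) (nat_lit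 1) (.cons (.br (nat_lit 14) (nat_lit 1) (.cons (.rf (nat_lit 929) (nat_lit 677582165103132179601393696)) (.cons (.rf (nat_lit 929) (nat_lit 676410525620515329662101901)) (.cons (.ev (nat_lit 87112291184904643486861165954756381770241) (nat_lit 2)) .nil)))) (.cons (.rf (nat_lit 930) (nat_lit 677582165103132179601393696)) (.cons (.rf (nat_lit 930) (nat_lit 676410525620515329662101901)) (.cons (.ev (nat_lit 174224571884040587398627809198538202546435) (nat_lit 2)) .nil))))) .nil)))))) .nil))))))) .nil))))))) .nil))))))) .nil))))))) .nil)) .nil)))]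

theorem c40 : chkAll C T R L40 (nat_lit 920) = true := by decide +kernel

theorem l40 : (nat_lit 920) + L40.length = (nat_lit 932) := by decide +kernel

/-- part of the certificates -/
def L41 : List Prf := [(.br (nat_lit 15) (nat_lit 1) (.cons (.br (nat_lit 16) (nat_lit 1) (.cons (.ev (nat_lit 87112291124057414666479868462344246984705) (nat_lit 1)) .nil)) .nil)),
 (.br (nat_lit 9) (nat_lit 1) (.cons (.ev (nat_lit 1208944338416301217153024) (nat_lit 1)) (.cons (.rf (nat_lit 40) (nat_lit 12308647642208)) .nil))),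
 (.br (nat_lit 16) (nat_lit 1) (.cons (.ev (nat_lit 341611594916724592984536852163689775105) (nat_lit 1)) .nil)),
 (.br (nat_lit 15) (nat_lit 1) (.cons (.rf (nat_lit 68) (nat_lit 18089670708450)) (.cons (.rf (nat_lit 68) (nat_lit 15959236906210)) (.cons (.br (nat_lit 14) (nat_lit 1) (.cons (.rf (nat_lit 934) (nat_lit 677582165103132179601393696)) (.cons (.br (nat_lit 14) (nat_lit 1) (.cons (.rf (nat_lit 934) (nat_lit 677582165103132179601393696)) .nil)) .nil))) .nil)))),
 (.br (nat_lit 14) (nat_lit 1) (.cons (.br (nat_lit 15) (nat_lit 1) (.cons (.ev (nat_lit 7996157999157634132516192040387870979) (nat_lit 3)) (.cons (.ev (nat_lit 1355331538343000007143684086727706373) (nat_lit 3)) .nil))) (.cons (.br (nat_lit 15) (nat_lit 1) (.cons (.kr (nat_lit 1329227996094400901171896202714677248) (nat_lit 5192296859748475814627995149139968) (nat_lit 8) (nat_lit 0)) (.cons (.ev (nat_lit 5348086603154537953815499141657395459) (nat_lit 3)) .nil))) .nil))),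
 (.br (nat_lit 14) (nat_lit 1) (.cons (.rf (nat_lit 936) (nat_lit 677582165103132179601393696)) (.cons (.br (nat_lit 15) (nat_lit 1) (.cons (.rf (nat_lit 720) (nat_lit 660557489596195655424068)) (.cons (.zr (nat_lit 1240362631883077564653110533) (nat_lit 174224582390328762076007542049780793737216) (nat_lit 8) (nat_lit 1)) .nil))) .nil))),
 (.br (nat_lit 9) (nat_lit 1) (.cons (.kr (nat_lit 4722366764344621924608) (nat_lit 1208925819615728686399488) (nat_lit 1) (nat_lit 0)) (.cons (.rf (nat_lit 47) (nat_lit 412292161)) .nil))),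
 (.br (nat_lit 14) (nat_lit 1) (.cons (.br (nat_lit 15) (nat_lit 1) (.cons (.ev (nat_lit 1334420292952935728800709273532236033) (nat_lit 1)) .nil)) .nil)),
 (.br (nat_lit 15) (nat_lit 1) (.cons (.rf (nat_lit 897) (nat_lit 675203272987386595824994336)) (.cons (.br (nat_lit 14) (nat_lit 1) (.cons (.br (nat_lit 16) (nat_lit 1) (.cons (.ev (nat_lit 89503572288949855759455914396534570419204) (nat_lit 3)) .nil)) (.cons (.ev (nat_lit 87113615159835259725029514673834684317953) (nat_lit 1)) .nil))) .nil))),
 (.br (nat_lit 14) (nat_lit 1) (.cons (.rf (nat_lit 940) (nat_lit 677582165103132179601393696)) (.cons (.br (nat_lit 17) (nat_lit 1) (.cons (.rf (nat_lit 810) (nat_lit 586217218076110028441697)) (.cons (.ev (nat_lit 340287559217796998309450163476783694081) (nat_lit 1)) .nil))) .nil))),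
 (.br (nat_lit 14) (nat_lit 1) (.cons (.br (nat_lit 16) (nat_lit 1) (.cons (.ev (nat_lit 87113615159756341047525143738908198109185) (nat_lit 1)) .nil)) .nil)),
 (.br (nat_lit 14) (nat_lit 1) (.cons (.br (nat_lit 15) (nat_lit 1) (.cons (.ev (nat_lit 89495628074280926080247038045307074446852) (nat_lit 3)) .nil)) .nil)),
 (.br (nat_lit 14) (nat_lit 1) (.cons (.br (nat_lit 16) (nat_lit 1) (.cons (.ev (nat_lit 341616807495991517815649708004660477953) (nat_lit 1)) (.cons (.ev (nat_lit 2041714991550690664437371410100281935111) (nat_lit 3)) .nil))) (.cons (.ev (nat_lit 10405114432562906692726099491815683) (nat_lit 2)) .nil))),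
 (.br (nat_lit 14) (nat_lit 1) (.cons (.rf (nat_lit 944) (nat_lit 677582165103132179601393696)) (.cons (.br (nat_lit 16) (nat_lit 1) (.cons (.br (nat_lit 15) (nat_lit 1) (.cons (.ev (nat_lit 1334420371871617937235216713365127425) (nat_lit 1)) .nil)) (.cons (.ev (nat_lit 350490837949088568382715217396667689206019) (nat_lit 3)) .nil))) .nil))),
 (.br (nat_lit 13) (nat_lit 1) (.cons (.br (nat_lit 15) (nat_lit 1) (.cons (.ev (nat_lit 344275304053000740569592504496945169152) (nat_lit 2)) .nil)) .nil)),
 (.br (nat_lit 15) (nat_lit 1) (.cons (.ev (nat_lit 1334440654282425810805796869303763200) (nat_lit 1)) .nil)),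
 (.br (nat_lit 15) (nat_lit 1) (.cons (.ev (nat_lit 688540122178229047663809117154130920193) (nat_lit 3)) .nil)),
 (.br (nat_lit 14) (nat_lit 1) (.cons (.br (nat_lit 15) (nat_lit 1) (.cons (.ev (nat_lit 341616807495991517815649708004660477953) (nat_lit 1)) (.cons (.rf (nat_lit 744) (nat_lit 661701295917511241501761)) .nil))) (.cons (.ev (nat_lit 10404955976237878164053111427170563) (nat_lit 2)) .nil))),
 (.br (nat_lit 14) (nat_lit 1) (.cons (.rf (nat_lit 949) (nat_lit 677582165103132179601393696)) (.cons (.br (nat_lit 16) (nat_lit 1) (.cons (.zr (nat_lit 680564733843117284817673827695319842819) (nat_lit 10404955354840562149164669179396352) (nat_lit 8) (nat_lit 12)) (.cons (.ev (nat_lit 174224582268634304468319959184719736865025) (nat_lit 2)) .nil))) .nil))),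
 (.br (nat_lit 15) (nat_lit 1) (.cons (.br (nat_lit 16) (nat_lit 1) (.cons (.ev (nat_lit 88815032187133262102552215937101515129348) (nat_lit 3)) .nil)) .nil)),
 (.br (nat_lit 14) (nat_lit 1) (.cons (.br (nat_lit 15) (nat_lit 1) (.cons (.ev (nat_lit 344285648081279632901866027466241409792) (nat_lit 2)) .nil)) .nil)),
 (.br (nat_lit 15) (nat_lit 1) (.cons (.ev (nat_lit 341611594916724592984536852163689775105) (nat_lit 1)) .nil)),
 (.br (nat_lit 16) (nat_lit 1) (.cons (.rf (nat_lit 68) (nat_lit 16991127968067)) (.cons (.rf (nat_lit 68) (nat_lit 15925813549379)) (.cons (.br (nat_lit 14) (nat_lit 1) (.cons (.rf (nat_lit 953) (nat_lit 677582165103132179601393696)) (.cons (.br (nat_lit 14) (nat_lit 1) (.cons (.rf (nat_lit 953) (nat_lit 677582165103132179601393696)) .nil)) .nil))) .nil)))),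
 (.br (nat_lit 14) (nat_lit 1) (.cons (.br (nat_lit 15) (nat_lit 1) (.cons (.ev (nat_lit 340287559217796998309450163476783694081) (nat_lit 1)) (.cons (.br (nat_lit 16) (nat_lit 1) (.cons (.ev (nat_lit 89503583282971567706436603295729284221972) (nat_lit 5)) .nil)) .nil))) (.cons (.ev (nat_lit 10405114430145055054061981495591683) (nat_lit 2)) .nil))),
 (.br (nat_lit 14) (nat_lit 1) (.cons (.rf (nat_lit 955) (nat_lit 677582165103132179601393696)) (.cons (.br (nat_lit 17) (nat_lit 1) (.cons (.ev (nat_lit 174224582268475850551661587400100954505985) (nat_lit 2)) (.cons (.ev (nat_lit 340287579579434769179304664917321187328) (nat_lit 1)) .nil))) .nil))),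
 (.br (nat_lit 13) (nat_lit 1) (.cons (.br (nat_lit 14) (nat_lit 1) (.cons (.ev (nat_lit 1329228075322568137802998145192296448) (nat_lit 1)) .nil)) .nil)),
 (.br (nat_lit 9) (nat_lit 1) (.cons (.rf (nat_lit 40) (nat_lit 15707144459298)) (.cons (.rf (nat_lit 68) (nat_lit 14787850408994)) (.cons (.br (nat_lit 13) (nat_lit 1) (.cons (.rf (nat_lit 957) (nat_lit 583706118939841765935136)) (.cons (.br (nat_lit 13) (nat_lit 1) (.cons (.rf (nat_lit 957) (nat_lit 583706118939841765935136)) .nil)) .nil))) .nil)))),
 (.br (nat_lit 13) (nat_lit 1) (.cons (.br (nat_lit 15) (nat_lit 1) (.cons (.ev (nat_lit 1329248278194524265387459054709768193) (nat_lit 1)) .nil)) .nil)),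
 (.br (nat_lit 10) (nat_lit 1) (.cons (.rf (nat_lit 40) (nat_lit 16846386437315)) (.cons (.rf (nat_lit 68) (nat_lit 14824157519043)) (.cons (.br (nat_lit 13) (nat_lit 1) (.cons (.rf (nat_lit 959) (nat_lit 19926519232773908561233952)) (.cons (.br (nat_lit 13) (nat_lit 1) (.cons (.rf (nat_lit 959) (nat_lit 19926519232773908561233952)) .nil)) .nil))) .nil)))),
 (.br (nat_lit 15) (nat_lit 1) (.cons (.ev (nat_lit 341611615278670635234473343040228491520) (nat_lit 1)) .nil)),
 (.br (nat_lit 13) (nat_lit 1) (.cons (.ev (nat_lit 5212658496305715929776010576331008) (nat_lit 1)) (.cons (.rf (nat_lit 720) (nat_lit 547107777605820287681600)) .nil))),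
 (.br (nat_lit 14) (nat_lit 1) (.cons (.rf (nat_lit 962) (nat_lit 661701295917511241501761)) (.cons (.br (nat_lit 16) (nat_lit 1) (.cons (.rf (nat_lit 810) (nat_lit 587360917300461748489281)) (.cons (.ev (nat_lit 87452573491057582506105621165799364428032) (nat_lit 1)) .nil))) .nil))),
 (.br (nat_lit 15) (nat_lit 1) (.cons (.ev (nat_lit 688540122179462133184137083728588571393) (nat_lit 3)) .nil)),
 (.br (nat_lit 14) (nat_lit 1) (.cons (.br (nat_lit 15) (nat_lit 1) (.cons (.ev (nat_lit 683233594947260342151767952494621229827) (nat_lit 2)) (.cons (.rf (nat_lit 744) (nat_lit 661701294825729513654369)) .nil))) (.cons (.ev (nat_lit 5192297168024578263385082913947648) (nat_lit 1)) .nil))),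
 (.br (nat_lit 14) (nat_lit 1) (.cons (.rf (nat_lit 965) (nat_lit 677582165103132179601393696)) (.cons (.br (nat_lit 16) (nat_lit 1) (.cons (.zr (nat_lit 10445678630368153061911863566008320) (nat_lit 680564733842500737390483590465334542593) (nat_lit 8) (nat_lit 5)) (.cons (.ev (nat_lit 87112291124136334552910058729329731305473) (nat_lit 1)) .nil))) .nil))),
 (.br (nat_lit 16) (nat_lit 1) (.cons (.ev (nat_lit 680575138797853164841807319063746052353) (nat_lit 2)) .nil)),
 (.br (nat_lit 14) (nat_lit 1) (.cons (.br (nat_lit 16) (nat_lit 1) (.cons (.ev (nat_lit 88137125909284195346446518304048584786948) (nat_lit 3)) .nil)) .nil)),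
 (.br (nat_lit 16) (nat_lit 1) (.cons (.ev (nat_lit 680575138797853164841807319063746052353) (nat_lit 2)) .nil)),
 (.br (nat_lit 14) (nat_lit 1) (.cons (.br (nat_lit 16) (nat_lit 1) (.cons (.ev (nat_lit 88137125908808823953509293612204661343748) (nat_lit 3)) .nil)) .nil)),
 (.br (nat_lit 14) (nat_lit 1) (.cons (.ev (nat_lit 10405114430145055054061981495591683) (nat_lit 2)) (.cons (.br (nat_lit 16) (nat_lit 1) (.cons (.br (nat_lit 15) (nat_lit 1) (.cons (.ev (nat_lit 7996157999157653021693893160063992071) (nat_lit 3)) .nil)) (.cons (.zr (nat_lit 31153781770179077647594583484268549) (nat_lit 174905136617724010408914489256551899071232) (nat_lit 8) (nat_lit 13)) .nil))) .nil))),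
 (.br (nat_lit 15) (nat_lit 1) (.cons (.br (nat_lit 16) (nat_lit 1) (.cons (.ev (nat_lit 88134477837410354658140060851521064338944) (nat_lit 3)) .nil)) .nil)),
 (.br (nat_lit 16) (nat_lit 1) (.cons (.ev (nat_lit 680575138797853164841807319063746052353) (nat_lit 2)) .nil)),
 (.br (nat_lit 16) (nat_lit 1) (.cons (.ev (nat_lit 2041704606640065770983169020055345168641) (nat_lit 3)) .nil))]

theorem c41 : chkAll C T R L41 (nat_lit 932) = true := by decide +kernel

theorem l41 : (nat_lit 932) + L41.length = (nat_lit 975) := by decide +kernel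

/-- part of the certificates -/
def L42 : List Prf := [(.br (nat_lit 16) (nat_lit 1) (.cons (.ev (nat_lit 680564754204136085741673177152277709059) (nat_lit 2)) .nil)),
 (.br (nat_lit 16) (nat_lit 1) (.cons (.ev (nat_lit 680575138955690510369066287285277819649) (nat_lit 2)) (.cons (.ev (nat_lit 1369104856496089093437530915613110699271) (nat_lit 3)) (.cons (.ev (nat_lit 175585711736635589951657998827997269853441) (nat_lit 3)) .nil)))),
 (.br (nat_lit 15) (nat_lit 1) (.cons (.ev (nat_lit 2658476353210029948927798706190680835) (nat_lit 2)) (.cons (.zr (nat_lit 41539246378066297392633789764600069) (nat_lit 3405482186050661589431874399809476886528) (nat_lit 24) (nat_lit 5)) (.cons (.ev (nat_lit 349812931671237028202161521781939932233987) (nat_lit 3)) .nil)))),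
 (.br (nat_lit 15) (nat_lit 1) (.cons (.br (nat_lit 16) (nat_lit 1) (.cons (.ev (nat_lit 88134467574510476249820061290142149968384) (nat_lit 3)) .nil)) .nil)),
 (.br (nat_lit 14) (nat_lit 1) (.cons (.ev (nat_lit 5192297168019837521934258603557121) (nat_lit 1)) (.cons (.rf (nat_lit 134) (nat_lit 5820964613218)) .nil))),
 (.br (nat_lit 14) (nat_lit 1) (.cons (.br (nat_lit 15) (nat_lit 1) (.cons (.ev (nat_lit 88817721796431240372937233690202701365764) (nat_lit 3)) .nil)) .nil)),
 (.br (nat_lit 15) (nat_lit 1) (.cons (.ev (nat_lit 340287559297025160823714502169839272193) (nat_lit 1)) (.cons (.br (nat_lit 16) (nat_lit 1) (.cons (.ev (nat_lit 88823038708414375200725569329646283326980) (nat_lit 3)) .nil)) .nil))),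
 (.br (nat_lit 14) (nat_lit 1) (.cons (.rf (nat_lit 981) (nat_lit 677582165103132179601393696)) (.cons (.br (nat_lit 15) (nat_lit 1) (.cons (.rf (nat_lit 744) (nat_lit 625102843116200406550724)) (.cons (.ev (nat_lit 348454491813166917676045571667720499496199) (nat_lit 3)) .nil))) .nil))),
 (.br (nat_lit 14) (nat_lit 1) (.cons (.rf (nat_lit 981) (nat_lit 677582165103132179601393696)) (.cons (.br (nat_lit 17) (nat_lit 1) (.cons (.rf (nat_lit 746) (nat_lit 625102843116200406550724)) (.cons (.ev (nat_lit 340287559297025160823714502169839272193) (nat_lit 1)) .nil))) .nil))),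
 (.br (nat_lit 16) (nat_lit 1) (.cons (.zr (nat_lit 2658476353826567931386192802519056385) (nat_lit 680564733841881767370985015511665869568) (nat_lit 8) (nat_lit 4)) .nil)),
 (.br (nat_lit 13) (nat_lit 1) (.cons (.br (nat_lit 14) (nat_lit 1) (.cons (.ev (nat_lit 5212658805786021831382283382161408) (nat_lit 1)) .nil)) .nil)),
 (.br (nat_lit 15) (nat_lit 1) (.cons (.rf (nat_lit 720) (nat_lit 661701183358440156956868)) (.cons (.ev (nat_lit 1334420292643450718979363105295827201) (nat_lit 1)) .nil))),
 (.br (nat_lit 14) (nat_lit 1) (.cons (.ev (nat_lit 5192297168024578263385082913947648) (nat_lit 1)) (.cons (.br (nat_lit 17) (nat_lit 1) (.cons (.rf (nat_lit 810) (nat_lit 586217110979146162411588)) (.cons (.ev (nat_lit 174905147002318344040201073604524245123843) (nat_lit 2)) .nil))) .nil))),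
 (.br (nat_lit 16) (nat_lit 1) (.cons (.ev (nat_lit 341611615278362354446551873804742754560) (nat_lit 1)) .nil)),
 (.br (nat_lit 15) (nat_lit 1) (.cons (.rf (nat_lit 68) (nat_lit 18089666391142)) (.cons (.rf (nat_lit 68) (nat_lit 15959102565478)) (.cons (.br (nat_lit 14) (nat_lit 1) (.cons (.rf (nat_lit 988) (nat_lit 677582165103132179601393696)) (.cons (.br (nat_lit 14) (nat_lit 1) (.cons (.rf (nat_lit 988) (nat_lit 677582165103132179601393696)) .nil)) .nil))) .nil)))),
 (.br (nat_lit 14) (nat_lit 1) (.cons (.ev (nat_lit 1334420292952935728872485392610296065) (nat_lit 1)) .nil)),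
 (.br (nat_lit 17) (nat_lit 1) (.cons (.ev (nat_lit 87112291144339514789825565221325159530496) (nat_lit 1)) (.cons (.ev (nat_lit 87112291124057106390395794392835698982913) (nat_lit 1)) .nil))),
 (.br (nat_lit 17) (nat_lit 1) (.cons (.ev (nat_lit 87112291124057106390395794392835698982913) (nat_lit 1)) (.cons (.ev (nat_lit 87112291144339514789825565221325159530496) (nat_lit 1)) .nil))),
 (.br (nat_lit 16) (nat_lit 1) (.cons (.zr (nat_lit 10404955357253673119283271794950145) (nat_lit 680564733843114871706848385031743734528) (nat_lit 8) (nat_lit 5)) .nil)),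
 (.br (nat_lit 14) (nat_lit 1) (.cons (.ev (nat_lit 341611615199132983006467640111359131648) (nat_lit 1)) (.cons (.rf (nat_lit 762) (nat_lit 21174442659472880612543553)) .nil))),
 (.br (nat_lit 15) (nat_lit 1) (.cons (.ev (nat_lit 340282387203348071855858259426197635073) (nat_lit 1)) .nil)),
 (.br (nat_lit 16) (nat_lit 1) (.cons (.ev (nat_lit 340287579500206606665040326224265609216) (nat_lit 1)) (.cons (.rf (nat_lit 829) (nat_lit 659378157993946716997729)) .nil))),
 (.br (nat_lit 16) (nat_lit 1) (.cons (.ev (nat_lit 341611615278670635234473343040228491520) (nat_lit 1)) .nil)),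
 (.br (nat_lit 14) (nat_lit 1) (.cons (.br (nat_lit 15) (nat_lit 1) (.cons (.ev (nat_lit 2663668570837979725252106701676544768) (nat_lit 2)) .nil)) .nil)),
 (.br (nat_lit 13) (nat_lit 1) (.cons (.br (nat_lit 14) (nat_lit 1) (.cons (.ev (nat_lit 341627232813297231590200598430847402496) (nat_lit 2)) .nil)) .nil)),
 (.br (nat_lit 14) (nat_lit 1) (.cons (.rf (nat_lit 880) (nat_lit 19006809052569472359)) (.cons (.br (nat_lit 16) (nat_lit 1) (.cons (.ev (nat_lit 340287579579744249485205988611343778048) (nat_lit 1)) (.cons (.zr (nat_lit 174905136658288829611495463058635392811265) (nat_lit 10384594336044452607030270347051008) (nat_lit 8) (nat_lit 0)) .nil))) .nil))),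
 (.br (nat_lit 15) (nat_lit 1) (.cons (.ev (nat_lit 683223210195703499598948071668080313089) (nat_lit 2)) .nil)),
 (.br (nat_lit 14) (nat_lit 1) (.cons (.rf (nat_lit 880) (nat_lit 19006809052569505095)) (.cons (.br (nat_lit 15) (nat_lit 1) (.cons (.rf (nat_lit 720) (nat_lit 625067065358575744617701)) (.cons (.ev (nat_lit 5327316939734890352818992252469772547) (nat_lit 3)) .nil))) .nil))),
 (.br (nat_lit 14) (nat_lit 1) (.cons (.rf (nat_lit 880) (nat_lit 19006809052569505095)) (.cons (.br (nat_lit 17) (nat_lit 1) (.cons (.zr (nat_lit 10404955354835839926798087155089409) (nat_lit 174224571863521112277434541706761662890752) (nat_lit 8) (nat_lit 5)) (.cons (.ev (nat_lit 680575138797850746990167524664976343809) (nat_lit 2)) .nil))) .nil))),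
 (.br (nat_lit 16) (nat_lit 1) (.cons (.ev (nat_lit 683223210195703499598948071668080313089) (nat_lit 2)) .nil)),
 (.br (nat_lit 15) (nat_lit 1) (.cons (.ev (nat_lit 79229376162522774165673541633) (nat_lit 1)) (.cons (.ev (nat_lit 2658476353826572709091781993419506435) (nat_lit 2)) (.cons (.ev (nat_lit 2668861105383415188124686542302085889) (nat_lit 2)) .nil)))),
 (.br (nat_lit 13) (nat_lit 1) (.cons (.br (nat_lit 15) (nat_lit 1) (.cons (.ev (nat_lit 1329248357733375974551585893029773568) (nat_lit 1)) .nil)) .nil)),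
 (.br (nat_lit 15) (nat_lit 1) (.cons (.ev (nat_lit 683223210195703499598948071668080313089) (nat_lit 2)) .nil)),
 (.br (nat_lit 14) (nat_lit 1) (.cons (.br (nat_lit 15) (nat_lit 1) (.cons (.ev (nat_lit 88815063462610116108169782721408479461888) (nat_lit 3)) .nil)) .nil)),
 (.br (nat_lit 14) (nat_lit 1) (.cons (.ev (nat_lit 5192297168024578263385082913947648) (nat_lit 1)) (.cons (.br (nat_lit 17) (nat_lit 1) (.cons (.zr (nat_lit 1219572003268779924805588404087614580197632) (nat_lit 51922969211595555200053466341048321) (nat_lit 24) (nat_lit 0)) (.cons (.zr (nat_lit 141981200015699480591919044886528) (nat_lit 174224582248510360851621747899106261467397) (nat_lit 24) (nat_lit 9)) .nil))) .nil))),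
 (.br (nat_lit 14) (nat_lit 1) (.cons (.ev (nat_lit 5192297168024578263385082913947648) (nat_lit 1)) (.cons (.br (nat_lit 15) (nat_lit 1) (.cons (.rf (nat_lit 720) (nat_lit 587289174844077685217608)) (.cons (.zr (nat_lit 141981200015699480591919044886528) (nat_lit 174224582248510360851621747899106261467397) (nat_lit 24) (nat_lit 9)) .nil))) .nil))),
 (.br (nat_lit 14) (nat_lit 1) (.cons (.br (nat_lit 15) (nat_lit 1) (.cons (.ev (nat_lit 88817701027560718902499166513101130498564) (nat_lit 3)) .nil)) .nil)),
 (.br (nat_lit 14) (nat_lit 1) (.cons (.br (nat_lit 15) (nat_lit 1) (.cons (.ev (nat_lit 88823038708731292686485906264419952034308) (nat_lit 3)) .nil)) .nil)),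
 (.br (nat_lit 8) (nat_lit 0) (.cons (.rf (nat_lit 363) (nat_lit 322567279648)) (.cons (.br (nat_lit 9) (nat_lit 0) (.cons (.br (nat_lit 2) (nat_lit 1) (.cons (.br (nat_lit 6) (nat_lit 1) (.cons (.rf (nat_lit 711) (nat_lit 445092485129178177)) (.cons (.zr (nat_lit 20361637766165935325594555514881) (nat_lit 2422592452456201737732864) (nat_lit 8) (nat_lit 4)) (.cons (.ev (nat_lit 309489732187829042193367041) (nat_lit 1)) (.cons (.br (nat_lit 7) (nat_lit 1) (.cons (.ev (nat_lit 1208944266359806707630081) (nat_lit 1)) (.cons (.zr (nat_lit 20361637766166078877832744796161) (nat_lit 618974760455917080804459264) (nat_lit 8) (nat_lit 5)) (.cons (.ev (nat_lit 20520094095935421342913107329281) (nat_lit 2)) (.cons (.br (nat_lit 10) (nat_lit 1) (.cons (.rf (nat_lit 47) (nat_lit 476417346)) (.cons (.br (nat_lit 14) (nat_lit 1) (.cons (.zr (nat_lit 10445520174043124532671531762844417) (nat_lit 618974797349405228257116160) (nat_lit 8) (nat_lit 0)) (.cons (.ev (nat_lit 5192376087911008597767256440569856) (nat_lit 1)) (.cons (.br (nat_lit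 11) (nat_lit 1) (.cons (.rf (nat_lit 40) (nat_lit 17981398813890)) (.cons (.rf (nat_lit 68) (nat_lit 17057709362370)) (.cons (.br (nat_lit 15) (nat_lit 1) (.cons (.rf (nat_lit 932) (nat_lit 677582165103132179601393696)) (.cons (.br (nat_lit 15) (nat_lit 1) (.cons (.rf (nat_lit 932) (nat_lit 677582165103132179601393696)) .nil)) .nil))) .nil)))) .nil)))) (.cons (.br (nat_lit 11) (nat_lit 1) (.cons (.rf (nat_lit 933) (nat_lit 17394662955488354)) (.cons (.zr (nat_lit 2658516918026805215083224659665093377) (nat_lit 2432037185421941028290560) (nat_lit 8) (nat_lit 0)) (.cons (.rf (nat_lit 719) (nat_lit 17136172036796485508197)) .nil)))) (.cons (.br (nat_lit 11) (nat_lit 1) (.cons (.rf (nat_lit 719) (nat_lit 18315647925923906361412)) (.cons (.rf (nat_lit 935) (nat_lit 19926519232773908561233952)) (.cons (.br (nat_lit 16) (nat_lit 1) (.cons (.rf (nat_lit 68) (nat_lit 16991132159298)) (.cons (.rf (nat_lit 68) (nat_lit 15925947764034)) (.cons (.br (nat_lit 14) (nat_lit 1) (.cons (.rf (nat_lit 530) (nat_lit 676337444562286793462188064))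 (.cons (.br (nat_lit 14) (nat_lit 1) (.cons (.ev (nat_lit 340287559218106483319343567243353063425) (nat_lit 1)) .nil)) .nil))) .nil)))) (.cons (.br (nat_lit 14) (nat_lit 1) (.cons (.rf (nat_lit 936) (nat_lit 677582165103132179601393696)) (.cons (.rf (nat_lit 937) (nat_lit 677582165103132179601393696)) (.cons (.br (nat_lit 14) (nat_lit 1) (.cons (.rf (nat_lit 936) (nat_lit 677582165103132179601393696)) (.cons (.rf (nat_lit 937) (nat_lit 677582165103132179601393696)) .nil))) .nil)))) .nil))))) .nil))))) .nil))))) .nil))))) (.cons (.br (nat_lit 3) (nat_lit 1) (.cons (.rf (nat_lit 938) (nat_lit 445092485129178177)) (.cons (.rf (nat_lit 711) (nat_lit 336903739535300676)) (.cons (.br (nat_lit 7) (nat_lit 1) (.cons (.ev (nat_lit 475686922650437462061239174148) (nat_lit 3)) (.cons (.rf (nat_lit 47) (nat_lit 477468770)) .nil))) (.cons (.br (nat_lit 7) (nat_lit 1) (.cons (.rf (nat_lit 47) (nat_lit 473241826)) (.cons (.rf (nat_lit 47) (nat_lit 473274594)) (.cons (.ev (nat_lit 20520094095935421342913107329281) (nat_lit 2)) (.cons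 (.br (nat_lit 10) (nat_lit 1) (.cons (.rf (nat_lit 47) (nat_lit 473274690)) (.cons (.br (nat_lit 11) (nat_lit 1) (.cons (.ev (nat_lit 20362259158778029911182778958081) (nat_lit 2)) (.cons (.ev (nat_lit 80157826506513817943912022530) (nat_lit 2)) (.cons (.br (nat_lit 14) (nat_lit 1) (.cons (.rf (nat_lit 68) (nat_lit 18122991278178)) (.cons (.rf (nat_lit 68) (nat_lit 17057709365346)) (.cons (.br (nat_lit 15) (nat_lit 1) (.cons (.rf (nat_lit 939) (nat_lit 21174442659471745632798752)) (.cons (.br (nat_lit 15) (nat_lit 1) (.cons (.rf (nat_lit 939) (nat_lit 21174442659471745632798752)) .nil)) .nil))) .nil)))) .nil)))) (.cons (.br (nat_lit 11) (nat_lit 1) (.cons (.kr (nat_lit 309485028340428211448971521) (nat_lit 20282410817299856521450383015936) (nat_lit 0) (nat_lit 5)) (.cons (.ev (nat_lit 20362259158778029911182778958081) (nat_lit 2)) (.cons (.rf (nat_lit 719) (nat_lit 17136060463750980970696)) .nil)))) (.cons (.br (nat_lit 11) (nat_lit 1) (.cons (.rf (nat_lit 719) (nat_lit 19459454247239492439105)) (.cons (.rf (nat_lit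 917) (nat_lit 606992178383083867168)) (.cons (.ev (nat_lit 20362259158778029911182778958081) (nat_lit 2)) (.cons (.br (nat_lit 14) (nat_lit 1) (.cons (.rf (nat_lit 940) (nat_lit 677582165103132179601393696)) (.cons (.rf (nat_lit 941) (nat_lit 677582165103132179601393696)) (.cons (.br (nat_lit 14) (nat_lit 1) (.cons (.rf (nat_lit 940) (nat_lit 677582165103132179601393696)) (.cons (.rf (nat_lit 941) (nat_lit 677582165103132179601393696)) .nil))) .nil)))) .nil))))) .nil))))) .nil))))) .nil))))) (.cons (.ev (nat_lit 20361637780388374445673689514241) (nat_lit 2)) (.cons (.br (nat_lit 7) (nat_lit 1) (.cons (.ev (nat_lit 1208944266359806707630081) (nat_lit 1)) (.cons (.br (nat_lit 3) (nat_lit 1) (.cons (.ev (nat_lit 315529713212770217449948676) (nat_lit 3)) (.cons (.rf (nat_lit 47) (nat_lit 473147586)) .nil))) (.cons (.ev (nat_lit 20361640188758531334042971800321) (nat_lit 2)) (.cons (.br (nat_lit 3) (nat_lit 1) (.cons (.rf (nat_lit 47) (nat_lit 477309026)) (.cons (.rf (nat_lit 47) (nat_lit 477472866)) (.cons (.br (nat_lit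 6) (nat_lit 1) (.cons (.ev (nat_lit 79538861172272062735576989953) (nat_lit 1)) (.cons (.ev (nat_lit 5192376086702082778435206065946880) (nat_lit 1)) (.cons (.br (nat_lit 11) (nat_lit 1) (.cons (.zr (nat_lit 1240357909371356905492971779) (nat_lit 10445520174047846899153301930115072) (nat_lit 8) (nat_lit 12)) (.cons (.br (nat_lit 14) (nat_lit 1) (.cons (.ev (nat_lit 10404955973810618541228865517257475) (nat_lit 2)) (.cons (.rf (nat_lit 40) (nat_lit 17978177562722)) .nil))) (.cons (.br (nat_lit 14) (nat_lit 1) (.cons (.rf (nat_lit 68) (nat_lit 18122990135394)) (.cons (.ev (nat_lit 10404955973810618541228865517257475) (nat_lit 2)) (.cons (.br (nat_lit 15) (nat_lit 1) (.cons (.br (nat_lit 15) (nat_lit 1) (.cons (.ev (nat_lit 2668860947543642327455917797202330369) (nat_lit 2)) .nil)) (.cons (.br (nat_lit 15) (nat_lit 1) (.cons (.ev (nat_lit 2668860947543642327455917797202330369) (nat_lit 2)) .nil)) .nil))) .nil)))) .nil)))) .nil)))) (.cons (.br (nat_lit 6) (nat_lit 1) (.cons (.ev (nat_lit 79538861172272062735576989953) (nat_lit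 1)) (.cons (.br (nat_lit 11) (nat_lit 1) (.cons (.ev (nat_lit 20520713075436691052086209676545) (nat_lit 3)) (.cons (.rf (nat_lit 933) (nat_lit 17386821423149378)) (.cons (.br (nat_lit 14) (nat_lit 1) (.cons (.ev (nat_lit 5192296859743753448427700009107456) (nat_lit 1)) (.cons (.rf (nat_lit 68) (nat_lit 17057575053506)) (.cons (.br (nat_lit 15) (nat_lit 1) (.cons (.br (nat_lit 15) (nat_lit 1) (.cons (.ev (nat_lit 2668860947543642327455917797202330369) (nat_lit 2)) .nil)) (.cons (.br (nat_lit 15) (nat_lit 1) (.cons (.ev (nat_lit 2668860947543642327455917797202330369) (nat_lit 2)) .nil)) .nil))) .nil)))) .nil)))) (.cons (.br (nat_lit 15) (nat_lit 1) (.cons (.ev (nat_lit 2658476511663937125817807593438970115) (nat_lit 2)) (.cons (.ev (nat_lit 1329289001473688134192816446939070464) (nat_lit 2)) (.cons (.br (nat_lit 11) (nat_lit 1) (.cons (.rf (nat_lit 40) (nat_lit 17977071347810)) (.cons (.rf (nat_lit 68) (nat_lit 15959271352418)) (.cons (.br (nat_lit 14) (nat_lit 1) (.cons (.rf (nat_lit 942) (nat_lit 677582165103132179601393696))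 (.cons (.br (nat_lit 14) (nat_lit 1) (.cons (.rf (nat_lit 942) (nat_lit 677582165103132179601393696)) .nil)) .nil))) .nil)))) .nil)))) (.cons (.br (nat_lit 11) (nat_lit 1) (.cons (.br (nat_lit 14) (nat_lit 1) (.cons (.rf (nat_lit 68) (nat_lit 18122819348706)) (.cons (.rf (nat_lit 68) (nat_lit 17057569941730)) (.cons (.br (nat_lit 15) (nat_lit 1) (.cons (.br (nat_lit 15) (nat_lit 1) (.cons (.ev (nat_lit 5337701692529654055459447792482780421) (nat_lit 3)) .nil)) (.cons (.br (nat_lit 15) (nat_lit 1) (.cons (.ev (nat_lit 5337701692529654055459447792482780421) (nat_lit 3)) .nil)) .nil))) .nil)))) (.cons (.br (nat_lit 15) (nat_lit 1) (.cons (.ev (nat_lit 1329248357732171789545198211488022785) (nat_lit 1)) (.cons (.rf (nat_lit 68) (nat_lit 15959266273378)) (.cons (.br (nat_lit 16) (nat_lit 1) (.cons (.br (nat_lit 16) (nat_lit 1) (.cons (.ev (nat_lit 341611594917032864364618843807304187905) (nat_lit 1)) .nil)) (.cons (.rf (nat_lit 531) (nat_lit 675203154269194393133090848)) .nil))) .nil)))) (.cons (.br (nat_lit 16) (nat_lit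 1) (.cons (.ev (nat_lit 680564754203517115722174599995290944259) (nat_lit 2)) (.cons (.rf (nat_lit 68) (nat_lit 15925977131202)) (.cons (.br (nat_lit 14) (nat_lit 1) (.cons (.rf (nat_lit 943) (nat_lit 677582165103132179601393696)) (.cons (.br (nat_lit 14) (nat_lit 1) (.cons (.rf (nat_lit 943) (nat_lit 677582165103132179601393696)) .nil)) .nil))) .nil)))) (.cons (.br (nat_lit 14) (nat_lit 1) (.cons (.rf (nat_lit 944) (nat_lit 677582165103132179601393696)) (.cons (.rf (nat_lit 945) (nat_lit 677582165103132179601393696)) (.cons (.br (nat_lit 14) (nat_lit 1) (.cons (.ev (nat_lit 10405114432562906692726099491815683) (nat_lit 2)) (.cons (.rf (nat_lit 945) (nat_lit 677582165103132179601393696)) .nil))) .nil)))) .nil))))) .nil))))) .nil))))) .nil))))) (.cons (.br (nat_lit 3) (nat_lit 1) (.cons (.ev (nat_lit 309489732187829042193367041) (nat_lit 1)) (.cons (.rf (nat_lit 711) (nat_lit 299713824918903909)) (.cons (.rf (nat_lit 738) (nat_lit 445092485129178177)) (.cons (.br (nat_lit 7) (nat_lit 1) (.cons (.rf (nat_lit 47) (nat_lit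 473148610)) (.cons (.rf (nat_lit 47) (nat_lit 473246946)) (.cons (.ev (nat_lit 4722438540463699984641) (nat_lit 1)) (.cons (.br (nat_lit 6) (nat_lit 1) (.cons (.rf (nat_lit 47) (nat_lit 473246914)) (.cons (.br (nat_lit 10) (nat_lit 1) (.cons (.zr (nat_lit 60926456973487723480508425962240) (nat_lit 10384594336044397266234012671672323) (nat_lit 8) (nat_lit 8)) (.cons (.br (nat_lit 14) (nat_lit 1) (.cons (.ev (nat_lit 10404955357267858377245578288431875) (nat_lit 2)) (.cons (.rf (nat_lit 40) (nat_lit 17942744116322)) .nil))) (.cons (.rf (nat_lit 786) (nat_lit 19423415167583625026921)) .nil)))) (.cons (.br (nat_lit 10) (nat_lit 1) (.cons (.br (nat_lit 14) (nat_lit 1) (.cons (.ev (nat_lit 31174302488080680649294295439771395) (nat_lit 3)) (.cons (.rf (nat_lit 40) (nat_lit 17843959835746)) .nil))) (.cons (.ev (nat_lit 2658476353207612097289134605374324995) (nat_lit 2)) (.cons (.br (nat_lit 15) (nat_lit 1) (.cons (.rf (nat_lit 68) (nat_lit 18089667439810)) (.cons (.ev (nat_lit 7975388812337629212009164990197400327) (nat_lit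 3)) (.cons (.br (nat_lit 14) (nat_lit 1) (.cons (.rf (nat_lit 946) (nat_lit 21174442659472880612543553)) (.cons (.br (nat_lit 14) (nat_lit 1) (.cons (.rf (nat_lit 946) (nat_lit 21174442659472880612543553)) .nil)) .nil))) .nil)))) .nil)))) (.cons (.br (nat_lit 10) (nat_lit 1) (.cons (.br (nat_lit 14) (nat_lit 1) (.cons (.ev (nat_lit 31174302488080680649294295439771395) (nat_lit 3)) (.cons (.rf (nat_lit 68) (nat_lit 17057704127586)) (.cons (.br (nat_lit 15) (nat_lit 1) (.cons (.br (nat_lit 15) (nat_lit 1) (.cons (.ev (nat_lit 1334420292644664348790775228250783745) (nat_lit 1)) .nil)) (.cons (.rf (nat_lit 947) (nat_lit 677582165103132179601393696)) .nil))) .nil)))) (.cons (.rf (nat_lit 786) (nat_lit 19459454247239492439105)) (.cons (.br (nat_lit 16) (nat_lit 1) (.cons (.kr (nat_lit 340282387203348067115045032478531190784) (nat_lit 1213648186097503131664384) (nat_lit 2) (nat_lit 0)) (.cons (.ev (nat_lit 340282367000167839644343844191879561216) (nat_lit 1)) (.cons (.br (nat_lit 14) (nat_lit 1) (.cons (.rf (nat_lit 948) (nat_lit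 677582165103132179601393696)) (.cons (.br (nat_lit 14) (nat_lit 1) (.cons (.rf (nat_lit 948) (nat_lit 677582165103132179601393696)) .nil)) .nil))) .nil)))) (.cons (.br (nat_lit 14) (nat_lit 1) (.cons (.rf (nat_lit 949) (nat_lit 677582165103132179601393696)) (.cons (.rf (nat_lit 950) (nat_lit 677582165103132179601393696)) (.cons (.br (nat_lit 14) (nat_lit 1) (.cons (.ev (nat_lit 10404955976237878164053111427170563) (nat_lit 2)) (.cons (.rf (nat_lit 950) (nat_lit 677582165103132179601393696)) .nil))) .nil)))) .nil))))) .nil))))) .nil))))) .nil))))) (.cons (.br (nat_lit 3) (nat_lit 1) (.cons (.br (nat_lit 7) (nat_lit 1) (.cons (.rf (nat_lit 47) (nat_lit 472193251)) (.cons (.rf (nat_lit 47) (nat_lit 472226019)) (.cons (.br (nat_lit 10) (nat_lit 1) (.cons (.ev (nat_lit 158765814779308207916030492930) (nat_lit 2)) (.cons (.ev (nat_lit 20520098950528165732916977074945) (nat_lit 3)) (.cons (.br (nat_lit 11) (nat_lit 1) (.cons (.ev (nat_lit 20789707528235320010675993230837505) (nat_lit 3)) (.cons (.br (nat_lit 14) (nat_lit 1)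 (.cons (.ev (nat_lit 5192535471486863282307702202565377) (nat_lit 2)) (.cons (.rf (nat_lit 40) (nat_lit 17978177689667)) .nil))) (.cons (.br (nat_lit 14) (nat_lit 1) (.cons (.rf (nat_lit 68) (nat_lit 18122994325571)) (.cons (.ev (nat_lit 5192535471486863282307702202565377) (nat_lit 2)) (.cons (.br (nat_lit 15) (nat_lit 1) (.cons (.rf (nat_lit 951) (nat_lit 677582165103132179601393696)) (.cons (.br (nat_lit 15) (nat_lit 1) (.cons (.rf (nat_lit 951) (nat_lit 677582165103132179601393696)) .nil)) .nil))) .nil)))) .nil)))) .nil)))) (.cons (.br (nat_lit 10) (nat_lit 1) (.cons (.ev (nat_lit 20362566221195399641180539978243) (nat_lit 2)) (.cons (.br (nat_lit 14) (nat_lit 1) (.cons (.ev (nat_lit 5212579578832414939914141480058881) (nat_lit 1)) (.cons (.ev (nat_lit 10405113811165627571329111821517059) (nat_lit 2)) (.cons (.br (nat_lit 11) (nat_lit 1) (.cons (.rf (nat_lit 40) (nat_lit 17981398816835)) (.cons (.rf (nat_lit 68) (nat_lit 17057709365315)) (.cons (.br (nat_lit 15) (nat_lit 1) (.cons (.rf (nat_lit 952) (nat_lit 21174442659472880612543553))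 (.cons (.br (nat_lit 15) (nat_lit 1) (.cons (.rf (nat_lit 952) (nat_lit 21174442659472880612543553)) .nil)) .nil))) .nil)))) .nil)))) (.cons (.br (nat_lit 11) (nat_lit 1) (.cons (.rf (nat_lit 933) (nat_lit 17394662955357379)) (.cons (.ev (nat_lit 2658476511666354977456476092301837059) (nat_lit 2)) (.cons (.rf (nat_lit 726) (nat_lit 621558802842078474734624)) .nil)))) (.cons (.br (nat_lit 11) (nat_lit 1) (.cons (.rf (nat_lit 841) (nat_lit 622702535911663758051360)) (.cons (.rf (nat_lit 917) (nat_lit 606992178383083898912)) (.cons (.rf (nat_lit 954) (nat_lit 19926519232773908561233952)) (.cons (.br (nat_lit 14) (nat_lit 1) (.cons (.rf (nat_lit 955) (nat_lit 677582165103132179601393696)) (.cons (.rf (nat_lit 956) (nat_lit 677582165103132179601393696)) (.cons (.br (nat_lit 14) (nat_lit 1) (.cons (.ev (nat_lit 10405114430145055054061981495591683) (nat_lit 2)) (.cons (.rf (nat_lit 956) (nat_lit 677582165103132179601393696)) .nil))) .nil)))) .nil))))) .nil))))) .nil))))) (.cons (.br (nat_lit 6) (nat_lit 1) (.cons (.rf (nat_lit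 47) (nat_lit 472194243)) (.cons (.ev (nat_lit 79537652301936796628053655808) (nat_lit 2)) (.cons (.br (nat_lit 10) (nat_lit 1) (.cons (.ev (nat_lit 20520096523268542913077703738113) (nat_lit 2)) (.cons (.ev (nat_lit 5192296859743753448427700009107456) (nat_lit 1)) (.cons (.br (nat_lit 14) (nat_lit 1) (.cons (.ev (nat_lit 10404955354840599042656123756871939) (nat_lit 2)) (.cons (.ev (nat_lit 5253144090972578617730472171667456) (nat_lit 2)) (.cons (.rf (nat_lit 958) (nat_lit 19459491438255770045504)) .nil)))) .nil)))) (.cons (.br (nat_lit 10) (nat_lit 1) (.cons (.rf (nat_lit 47) (nat_lit 472227139)) (.cons (.br (nat_lit 11) (nat_lit 1) (.cons (.ev (nat_lit 5212579578832414939914141480058881) (nat_lit 1)) (.cons (.br (nat_lit 14) (nat_lit 1) (.cons (.ev (nat_lit 20790025067137322720785247148312321) (nat_lit 3)) (.cons (.rf (nat_lit 40) (nat_lit 17981398785091)) .nil))) (.cons (.rf (nat_lit 719) (nat_lit 19459453155457764591713)) .nil)))) (.cons (.br (nat_lit 15) (nat_lit 1) (.cons (.ev (nat_lit 2658476511666354977456476092301837059)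 (nat_lit 2)) (.cons (.ev (nat_lit 1329227995787333742990064070667993091) (nat_lit 2)) (.cons (.rf (nat_lit 960) (nat_lit 622703726023049662793760)) .nil)))) (.cons (.br (nat_lit 11) (nat_lit 1) (.cons (.br (nat_lit 14) (nat_lit 1) (.cons (.rf (nat_lit 68) (nat_lit 18122956708931)) (.cons (.ev (nat_lit 5253382084959316777999533508526848) (nat_lit 2)) (.cons (.br (nat_lit 15) (nat_lit 1) (.cons (.br (nat_lit 15) (nat_lit 1) (.cons (.ev (nat_lit 1334440575363748306290746754741567488) (nat_lit 1)) .nil)) (.cons (.br (nat_lit 15) (nat_lit 1) (.cons (.ev (nat_lit 1334440575363748306290746754741567488) (nat_lit 1)) .nil)) .nil))) .nil)))) (.cons (.rf (nat_lit 719) (nat_lit 17136023272769131293929)) (.cons (.br (nat_lit 16) (nat_lit 1) (.cons (.ev (nat_lit 340282367158934868071621133503492719363) (nat_lit 2)) (.cons (.rf (nat_lit 68) (nat_lit 15925812501827)) (.cons (.br (nat_lit 14) (nat_lit 1) (.cons (.rf (nat_lit 961) (nat_lit 677582165103132179601393696)) (.cons (.br (nat_lit 14) (nat_lit 1) (.cons (.rf (nat_lit 961) (nat_lit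 677582165103132179601393696)) .nil)) .nil))) .nil)))) (.cons (.br (nat_lit 14) (nat_lit 1) (.cons (.br (nat_lit 14) (nat_lit 1) (.cons (.rf (nat_lit 962) (nat_lit 661701295917511241501761)) (.cons (.ev (nat_lit 10405114430145055054061981495591683) (nat_lit 2)) .nil))) (.cons (.rf (nat_lit 963) (nat_lit 677582165103132179601393696)) (.cons (.br (nat_lit 14) (nat_lit 1) (.cons (.ev (nat_lit 10405114430145055054061981495591683) (nat_lit 2)) (.cons (.rf (nat_lit 963) (nat_lit 677582165103132179601393696)) .nil))) .nil)))) .nil))))) .nil))))) .nil))))) (.cons (.br (nat_lit 6) (nat_lit 1) (.cons (.rf (nat_lit 47) (nat_lit 472099011)) (.cons (.rf (nat_lit 47) (nat_lit 472230083)) (.cons (.ev (nat_lit 20361640198240014235691592581889) (nat_lit 2)) (.cons (.br (nat_lit 7) (nat_lit 1) (.cons (.rf (nat_lit 47) (nat_lit 472230115)) (.cons (.br (nat_lit 11) (nat_lit 1) (.cons (.zr (nat_lit 10384672947650021448858224998482693) (nat_lit 20282409617837216619928465309696) (nat_lit 8) (nat_lit 0)) (.cons (.rf (nat_lit 649) (nat_lit 547101936150996565829760))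 (.cons (.rf (nat_lit 786) (nat_lit 19423452357498241423688)) .nil)))) (.cons (.br (nat_lit 11) (nat_lit 1) (.cons (.br (nat_lit 14) (nat_lit 1) (.cons (.ev (nat_lit 31174302488090088345219649088390915) (nat_lit 3)) (.cons (.rf (nat_lit 40) (nat_lit 17845033576515)) .nil))) (.cons (.ev (nat_lit 1329227995786129539608707326359371776) (nat_lit 1)) (.cons (.rf (nat_lit 869) (nat_lit 586105241666894255196192)) .nil)))) (.cons (.br (nat_lit 11) (nat_lit 1) (.cons (.br (nat_lit 14) (nat_lit 1) (.cons (.ev (nat_lit 31174302488090088345219649088390915) (nat_lit 3)) (.cons (.rf (nat_lit 68) (nat_lit 17057671653443)) (.cons (.br (nat_lit 15) (nat_lit 1) (.cons (.br (nat_lit 15) (nat_lit 1) (.cons (.ev (nat_lit 2668860947546069660865718320770318593) (nat_lit 2)) .nil)) (.cons (.br (nat_lit 15) (nat_lit 1) (.cons (.ev (nat_lit 2668860947546069660865718320770318593) (nat_lit 2)) .nil)) .nil))) .nil)))) (.cons (.rf (nat_lit 786) (nat_lit 19459453155457764591713)) (.cons (.br (nat_lit 16) (nat_lit 1) (.cons (.rf (nat_lit 68) (nat_lit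 16991094417635)) (.cons (.ev (nat_lit 680564754362592410770201850140342354179) (nat_lit 2)) (.cons (.br (nat_lit 14) (nat_lit 1) (.cons (.rf (nat_lit 964) (nat_lit 677582165103132179601393696)) (.cons (.br (nat_lit 14) (nat_lit 1) (.cons (.rf (nat_lit 964) (nat_lit 677582165103132179601393696)) .nil)) .nil))) .nil)))) (.cons (.br (nat_lit 14) (nat_lit 1) (.cons (.rf (nat_lit 965) (nat_lit 677582165103132179601393696)) (.cons (.rf (nat_lit 966) (nat_lit 677582165103132179601393696)) (.cons (.br (nat_lit 14) (nat_lit 1) (.cons (.ev (nat_lit 5192297168024578263385082913947648) (nat_lit 1)) (.cons (.rf (nat_lit 966) (nat_lit 677582165103132179601393696)) .nil))) .nil)))) .nil))))) .nil))))) .nil))))) (.cons (.br (nat_lit 7) (nat_lit 1) (.cons (.rf (nat_lit 47) (nat_lit 472100035)) (.cons (.rf (nat_lit 47) (nat_lit 472198371)) (.cons (.ev (nat_lit 4722438540463699984641) (nat_lit 1)) (.cons (.br (nat_lit 6) (nat_lit 1) (.cons (.rf (nat_lit 47) (nat_lit 472198339)) (.cons (.br (nat_lit 10) (nat_lit 1) (.cons (.zr (nat_lit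 10404876130304806753093180662481411) (nat_lit 618970111876411605509341184) (nat_lit 8) (nat_lit 0)) (.cons (.ev (nat_lit 79229376162522774165673541633) (nat_lit 1)) (.cons (.br (nat_lit 14) (nat_lit 1) (.cons (.rf (nat_lit 68) (nat_lit 18122957597763)) (.cons (.rf (nat_lit 68) (nat_lit 17057708190787)) (.cons (.br (nat_lit 15) (nat_lit 1) (.cons (.rf (nat_lit 967) (nat_lit 677582165103132179601393696)) (.cons (.br (nat_lit 15) (nat_lit 1) (.cons (.rf (nat_lit 967) (nat_lit 677582165103132179601393696)) .nil)) .nil))) .nil)))) .nil)))) (.cons (.br (nat_lit 10) (nat_lit 1) (.cons (.ev (nat_lit 79229376162522774165673541633) (nat_lit 1)) (.cons (.ev (nat_lit 2658476273980658508844130153160245251) (nat_lit 2)) (.cons (.br (nat_lit 15) (nat_lit 1) (.cons (.rf (nat_lit 68) (nat_lit 18089666391235)) (.cons (.rf (nat_lit 68) (nat_lit 15959102565571)) (.cons (.br (nat_lit 14) (nat_lit 1) (.cons (.rf (nat_lit 968) (nat_lit 677582165103132179601393696)) (.cons (.br (nat_lit 14) (nat_lit 1) (.cons (.rf (nat_lit 968) (nat_lit 677582165103132179601393696))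 .nil)) .nil))) .nil)))) .nil)))) (.cons (.br (nat_lit 10) (nat_lit 1) (.cons (.br (nat_lit 14) (nat_lit 1) (.cons (.rf (nat_lit 68) (nat_lit 18122823511107)) (.cons (.rf (nat_lit 68) (nat_lit 17057704127555)) (.cons (.br (nat_lit 15) (nat_lit 1) (.cons (.rf (nat_lit 969) (nat_lit 677582165103132179601393696)) (.cons (.br (nat_lit 15) (nat_lit 1) (.cons (.rf (nat_lit 969) (nat_lit 677582165103132179601393696)) .nil)) .nil))) .nil)))) (.cons (.br (nat_lit 15) (nat_lit 1) (.cons (.rf (nat_lit 68) (nat_lit 18089532271843)) (.cons (.rf (nat_lit 68) (nat_lit 15959098469603)) (.cons (.br (nat_lit 14) (nat_lit 1) (.cons (.rf (nat_lit 970) (nat_lit 677582165103132179601393696)) (.cons (.br (nat_lit 14) (nat_lit 1) (.cons (.rf (nat_lit 970) (nat_lit 677582165103132179601393696)) .nil)) .nil))) .nil)))) (.cons (.kr (nat_lit 79228162514264619068520661248) (nat_lit 1208925819614633486450688) (nat_lit 1) (nat_lit 0)) (.cons (.br (nat_lit 14) (nat_lit 1) (.cons (.br (nat_lit 14) (nat_lit 1) (.cons (.ev (nat_lit 10405114430145055054061981495591683)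 (nat_lit 2)) (.cons (.ev (nat_lit 10404955976237878164053111427170563) (nat_lit 2)) .nil))) (.cons (.rf (nat_lit 971) (nat_lit 677582165103132179601393696)) (.cons (.br (nat_lit 14) (nat_lit 1) (.cons (.ev (nat_lit 10404955976237878164053111427170563) (nat_lit 2)) (.cons (.rf (nat_lit 971) (nat_lit 677582165103132179601393696)) .nil))) .nil)))) .nil))))) .nil))))) .nil))))) (.cons (.br (nat_lit 6) (nat_lit 1) (.cons (.br (nat_lit 10) (nat_lit 1) (.cons (.ev (nat_lit 20520096523268542913077703738113) (nat_lit 2)) (.cons (.ev (nat_lit 10405272267500064085288136363607811) (nat_lit 3)) (.cons (.br (nat_lit 14) (nat_lit 1) (.cons (.ev (nat_lit 79537647542604765809287954433) (nat_lit 1)) (.cons (.ev (nat_lit 10405113813583479211123510524117763) (nat_lit 2)) (.cons (.br (nat_lit 11) (nat_lit 1) (.cons (.rf (nat_lit 40) (nat_lit 17973882723398)) (.cons (.rf (nat_lit 68) (nat_lit 17057809800262)) (.cons (.br (nat_lit 15) (nat_lit 1) (.cons (.rf (nat_lit 972) (nat_lit 677582165103132179601393696)) (.cons (.br (nat_lit 15) (nat_lit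 1) (.cons (.rf (nat_lit 972) (nat_lit 677582165103132179601393696)) .nil)) .nil))) .nil)))) .nil)))) .nil)))) (.cons (.br (nat_lit 7) (nat_lit 1) (.cons (.ev (nat_lit 4722438540463699984641) (nat_lit 1)) (.cons (.ev (nat_lit 31174142793843983785195644291252995) (nat_lit 3)) (.cons (.br (nat_lit 11) (nat_lit 1) (.cons (.ev (nat_lit 20362259158778029911182778958081) (nat_lit 2)) (.cons (.br (nat_lit 14) (nat_lit 1) (.cons (.ev (nat_lit 31174143410386743949178931520078595) (nat_lit 3)) (.cons (.rf (nat_lit 40) (nat_lit 17973882628166)) .nil))) (.cons (.br (nat_lit 14) (nat_lit 1) (.cons (.rf (nat_lit 68) (nat_lit 18122991052870)) (.cons (.ev (nat_lit 31174143410386743949178931520078595) (nat_lit 3)) (.cons (.br (nat_lit 15) (nat_lit 1) (.cons (.rf (nat_lit 973) (nat_lit 677582165103132179601393696)) (.cons (.br (nat_lit 15) (nat_lit 1) (.cons (.rf (nat_lit 973) (nat_lit 677582165103132179601393696)) .nil)) .nil))) .nil)))) .nil)))) .nil)))) (.cons (.ev (nat_lit 20520713065954919920070094357249) (nat_lit 2)) (.cons (.ev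 (nat_lit 5212658496305734376520079990915073) (nat_lit 1)) (.cons (.br (nat_lit 7) (nat_lit 1) (.cons (.br (nat_lit 11) (nat_lit 1) (.cons (.ev (nat_lit 20789708147233710745186321257858305) (nat_lit 3)) (.cons (.rf (nat_lit 649) (nat_lit 546617420893358328588557)) (.cons (.br (nat_lit 14) (nat_lit 1) (.cons (.rf (nat_lit 68) (nat_lit 18122990004295)) (.cons (.ev (nat_lit 5212658806994929204252834535636993) (nat_lit 1)) (.cons (.br (nat_lit 15) (nat_lit 1) (.cons (.rf (nat_lit 974) (nat_lit 677582165103132179601393696)) (.cons (.br (nat_lit 15) (nat_lit 1) (.cons (.rf (nat_lit 974) (nat_lit 677582165103132179601393696)) .nil)) .nil))) .nil)))) .nil)))) (.cons (.ev (nat_lit 4722438540463699984641) (nat_lit 1)) (.cons (.br (nat_lit 10) (nat_lit 1) (.cons (.ev (nat_lit 20837630561197025735094424436993) (nat_lit 3)) (.cons (.ev (nat_lit 79229376162522774165673541633) (nat_lit 1)) (.cons (.br (nat_lit 11) (nat_lit 1) (.cons (.ev (nat_lit 5192534852507398906649626473005315) (nat_lit 2)) (.cons (.ev (nat_lit 5212658806994929204252834535636993)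 (nat_lit 1)) (.cons (.br (nat_lit 15) (nat_lit 1) (.cons (.rf (nat_lit 975) (nat_lit 677582165103132179601393696)) (.cons (.br (nat_lit 15) (nat_lit 1) (.cons (.rf (nat_lit 975) (nat_lit 677582165103132179601393696)) .nil)) .nil))) .nil)))) .nil)))) (.cons (.br (nat_lit 10) (nat_lit 1) (.cons (.ev (nat_lit 20679176654020137978024169703169) (nat_lit 3)) (.cons (.ev (nat_lit 79229376162522774165673541633) (nat_lit 1)) (.cons (.ev (nat_lit 2658476353207612097289134605374324995) (nat_lit 2)) (.cons (.br (nat_lit 11) (nat_lit 1) (.cons (.rf (nat_lit 119) (nat_lit 18115440523362)) (.cons (.rf (nat_lit 119) (nat_lit 18076781624550)) (.cons (.br (nat_lit 14) (nat_lit 1) (.cons (.ev (nat_lit 7985772931307121023618192243444156161) (nat_lit 3)) (.cons (.ev (nat_lit 10405114430145055054061981495591683) (nat_lit 2)) (.cons (.br (nat_lit 16) (nat_lit 1) (.cons (.zr (nat_lit 680564733841881776797271801248220184579) (nat_lit 7975469782898326085543394139367932672) (nat_lit 8) (nat_lit 4)) (.cons (.ev (nat_lit 340287579500207815590859660473697042688)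 (nat_lit 1)) .nil))) .nil)))) (.cons (.br (nat_lit 14) (nat_lit 1) (.cons (.rf (nat_lit 130) (nat_lit 17981122263138)) (.cons (.br (nat_lit 15) (nat_lit 1) (.cons (.ev (nat_lit 340287559217796998309450163476783694081) (nat_lit 1)) (.cons (.br (nat_lit 16) (nat_lit 1) (.cons (.ev (nat_lit 683243979859128020830014831188552843525) (nat_lit 3)) .nil)) .nil))) (.cons (.ev (nat_lit 10405114430145055054061981495591683) (nat_lit 2)) .nil)))) .nil))))) .nil))))) (.cons (.br (nat_lit 10) (nat_lit 1) (.cons (.br (nat_lit 14) (nat_lit 1) (.cons (.rf (nat_lit 68) (nat_lit 18122855787594)) (.cons (.rf (nat_lit 68) (nat_lit 17057671392330)) (.cons (.br (nat_lit 15) (nat_lit 1) (.cons (.br (nat_lit 15) (nat_lit 1) (.cons (.ev (nat_lit 2668860947546069660865718320770318593) (nat_lit 2)) .nil)) (.cons (.br (nat_lit 15) (nat_lit 1) (.cons (.ev (nat_lit 2668860947546069660865718320770318593) (nat_lit 2)) .nil)) .nil))) .nil)))) (.cons (.br (nat_lit 11) (nat_lit 1) (.cons (.rf (nat_lit 119) (nat_lit 18119634794594)) (.cons (.rf (nat_lit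 119) (nat_lit 17054450399330)) (.cons (.br (nat_lit 15) (nat_lit 1) (.cons (.br (nat_lit 15) (nat_lit 1) (.cons (.ev (nat_lit 2658476830438333019302141252771775751) (nat_lit 3)) .nil)) (.cons (.br (nat_lit 15) (nat_lit 1) (.cons (.ev (nat_lit 2658476830438333019302141252771775751) (nat_lit 3)) .nil)) .nil))) .nil)))) (.cons (.br (nat_lit 15) (nat_lit 1) (.cons (.kr (nat_lit 1329248278194519524574232107043323904) (nat_lit 1213648186097503131664384) (nat_lit 2) (nat_lit 0)) (.cons (.kr (nat_lit 1329248357422682038838851175563985152) (nat_lit 2422574005712136618115072) (nat_lit 1) (nat_lit 0)) (.cons (.ev (nat_lit 1329228075014292053873043820391694336) (nat_lit 1)) (.cons (.br (nat_lit 11) (nat_lit 1) (.cons (.rf (nat_lit 102) (nat_lit 18943463241826)) (.cons (.br (nat_lit 16) (nat_lit 1) (.cons (.ev (nat_lit 680564754520432183704946955863109665543) (nat_lit 3)) (.cons (.ev (nat_lit 2044352678195751052379472336414713186049) (nat_lit 3)) .nil))) (.cons (.br (nat_lit 14) (nat_lit 1) (.cons (.rf (nat_lit 976) (nat_lit 677582165103132179601393696))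 (.cons (.zr (nat_lit 174227230339795091698720259968790249735424) (nat_lit 31153860384221350413427718662127617) (nat_lit 8) (nat_lit 1)) .nil))) .nil)))) .nil))))) (.cons (.br (nat_lit 11) (nat_lit 1) (.cons (.ev (nat_lit 10404955976237878164053111427170563) (nat_lit 2)) (.cons (.br (nat_lit 15) (nat_lit 1) (.cons (.zr (nat_lit 2658455992188801820934652766726653185) (nat_lit 20789549074337495187561414905561088) (nat_lit 8) (nat_lit 1)) (.cons (.ev (nat_lit 340282387203657556865751662088943567105) (nat_lit 1)) (.cons (.br (nat_lit 16) (nat_lit 1) (.cons (.ev (nat_lit 10405114430145055054061981495591683) (nat_lit 2)) (.cons (.ev (nat_lit 688540122496379618944474018536617019137) (nat_lit 3)) .nil))) .nil)))) (.cons (.kr (nat_lit 340282387203657552143313121620965523456) (nat_lit 2427296372195001951584256) (nat_lit 2) (nat_lit 0)) (.cons (.br (nat_lit 16) (nat_lit 1) (.cons (.ev (nat_lit 680575138955690510369066287285277819649) (nat_lit 2)) (.cons (.br (nat_lit 14) (nat_lit 1) (.cons (.rf (nat_lit 134) (nat_lit 12455646836834))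 (.cons (.rf (nat_lit 977) (nat_lit 677582165103132179601393696)) .nil))) (.cons (.ev (nat_lit 340282367000476110987532347688074870784) (nat_lit 1)) .nil)))) .nil))))) (.cons (.br (nat_lit 11) (nat_lit 1) (.cons (.br (nat_lit 15) (nat_lit 1) (.cons (.rf (nat_lit 978) (nat_lit 677582165103132179601393696)) (.cons (.br (nat_lit 15) (nat_lit 1) (.cons (.rf (nat_lit 978) (nat_lit 677582165103132179601393696)) .nil)) .nil))) (.cons (.br (nat_lit 14) (nat_lit 1) (.cons (.rf (nat_lit 130) (nat_lit 17943675517026)) (.cons (.ev (nat_lit 10405114430145055054061981495591683) (nat_lit 2)) (.cons (.br (nat_lit 15) (nat_lit 1) (.cons (.br (nat_lit 16) (nat_lit 1) (.cons (.ev (nat_lit 2047011134030104917024856481903044198663) (nat_lit 3)) .nil)) (.cons (.ev (nat_lit 87112291144418742952339829560018215108608) (nat_lit 1)) .nil))) .nil)))) (.cons (.br (nat_lit 14) (nat_lit 1) (.cons (.ev (nat_lit 10405114430145055054061981495591683) (nat_lit 2)) (.cons (.rf (nat_lit 130) (nat_lit 16843091228770)) (.cons (.rf (nat_lit 979) (nat_lit 20678166623286663940128))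 .nil)))) (.cons (.br (nat_lit 14) (nat_lit 1) (.cons (.br (nat_lit 15) (nat_lit 1) (.cons (.br (nat_lit 16) (nat_lit 1) (.cons (.ev (nat_lit 2047011134347022402785193416676712908039) (nat_lit 3)) .nil)) (.cons (.ev (nat_lit 87112291124136334552910058729329731305473) (nat_lit 1)) .nil))) (.cons (.br (nat_lit 17) (nat_lit 1) (.cons (.rf (nat_lit 976) (nat_lit 677582165103132179601393696)) (.cons (.ev (nat_lit 87112291124136334552910058729329731305473) (nat_lit 1)) .nil))) (.cons (.ev (nat_lit 174224571884041206359239611850324294238979) (nat_lit 2)) .nil)))) .nil))))) .nil)))))) .nil)))))) .nil)))))) (.cons (.br (nat_lit 6) (nat_lit 1) (.cons (.br (nat_lit 11) (nat_lit 1) (.cons (.rf (nat_lit 47) (nat_lit 472227142)) (.cons (.ev (nat_lit 79537647542604765809287954433) (nat_lit 1)) (.cons (.br (nat_lit 10) (nat_lit 1) (.cons (.br (nat_lit 14) (nat_lit 1) (.cons (.ev (nat_lit 10405113811165627571329111821517059) (nat_lit 2)) (.cons (.rf (nat_lit 40) (nat_lit 17981398686790)) .nil))) (.cons (.zr (nat_lit 79847132552498449942732342531)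 (nat_lit 2658516838798647423185372151969480704) (nat_lit 8) (nat_lit 1)) (.cons (.rf (nat_lit 786) (nat_lit 19459341688168407894212)) .nil)))) (.cons (.br (nat_lit 10) (nat_lit 1) (.cons (.rf (nat_lit 786) (nat_lit 19423563930543745961189)) (.cons (.rf (nat_lit 917) (nat_lit 535496364276475735341)) (.cons (.br (nat_lit 16) (nat_lit 1) (.cons (.rf (nat_lit 68) (nat_lit 16990993751366)) (.cons (.ev (nat_lit 680564754362589992918562060122506396419) (nat_lit 2)) (.cons (.br (nat_lit 14) (nat_lit 1) (.cons (.rf (nat_lit 980) (nat_lit 677582165103132179601393696)) (.cons (.br (nat_lit 14) (nat_lit 1) (.cons (.rf (nat_lit 980) (nat_lit 677582165103132179601393696)) .nil)) .nil))) .nil)))) (.cons (.br (nat_lit 14) (nat_lit 1) (.cons (.rf (nat_lit 982) (nat_lit 677582165103132179601393696)) (.cons (.rf (nat_lit 983) (nat_lit 677582165103132179601393696)) (.cons (.br (nat_lit 14) (nat_lit 1) (.cons (.rf (nat_lit 982) (nat_lit 677582165103132179601393696)) (.cons (.rf (nat_lit 983) (nat_lit 677582165103132179601393696)) .nil)))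 .nil)))) .nil))))) .nil))))) (.cons (.br (nat_lit 11) (nat_lit 1) (.cons (.kr (nat_lit 309485028268089142434332672) (nat_lit 1213648186097498819919872) (nat_lit 8) (nat_lit 0)) (.cons (.ev (nat_lit 20362259158778029911182778958081) (nat_lit 2)) (.cons (.br (nat_lit 7) (nat_lit 1) (.cons (.rf (nat_lit 933) (nat_lit 17386821423018310)) (.cons (.ev (nat_lit 1329227995786129539608707326359371776) (nat_lit 1)) (.cons (.rf (nat_lit 719) (nat_lit 17135911805479774596428)) .nil)))) (.cons (.br (nat_lit 7) (nat_lit 1) (.cons (.rf (nat_lit 719) (nat_lit 19459341688168407894212)) (.cons (.br (nat_lit 15) (nat_lit 1) (.cons (.rf (nat_lit 68) (nat_lit 18089699944550)) (.cons (.ev (nat_lit 2658476353826572709091781993419506435) (nat_lit 2)) (.cons (.br (nat_lit 14) (nat_lit 1) (.cons (.rf (nat_lit 984) (nat_lit 677582165103132179601393696)) (.cons (.br (nat_lit 14) (nat_lit 1) (.cons (.rf (nat_lit 984) (nat_lit 677582165103132179601393696)) .nil)) .nil))) .nil)))) (.cons (.br (nat_lit 16) (nat_lit 1) (.cons (.rf (nat_lit 68) (nat_lit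 16990993754342)) (.cons (.ev (nat_lit 2041694221888511346356351244757494662919) (nat_lit 3)) (.cons (.br (nat_lit 14) (nat_lit 1) (.cons (.rf (nat_lit 985) (nat_lit 21174442659472880612543552)) (.cons (.br (nat_lit 14) (nat_lit 1) (.cons (.rf (nat_lit 985) (nat_lit 21174442659472880612543552)) .nil)) .nil))) .nil)))) (.cons (.br (nat_lit 14) (nat_lit 1) (.cons (.br (nat_lit 14) (nat_lit 1) (.cons (.ev (nat_lit 5192297168024578263385082913947648) (nat_lit 1)) (.cons (.rf (nat_lit 986) (nat_lit 677582165103132179601393696)) .nil))) (.cons (.rf (nat_lit 987) (nat_lit 677582165103132179601393696)) (.cons (.br (nat_lit 14) (nat_lit 1) (.cons (.rf (nat_lit 986) (nat_lit 677582165103132179601393696)) (.cons (.rf (nat_lit 987) (nat_lit 677582165103132179601393696)) .nil))) .nil)))) .nil))))) .nil))))) (.cons (.br (nat_lit 10) (nat_lit 1) (.cons (.ev (nat_lit 158767023742020465163837112320) (nat_lit 2)) (.cons (.ev (nat_lit 20362259158778029911182778958081) (nat_lit 2)) (.cons (.br (nat_lit 7) (nat_lit 1) (.cons (.ev (nat_lit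 79231798736600543896312873730) (nat_lit 2)) (.cons (.zr (nat_lit 20520094091213054297093508694016) (nat_lit 2658455992191224339456016386004877569) (nat_lit 8) (nat_lit 5)) (.cons (.rf (nat_lit 917) (nat_lit 535496364276475862317)) .nil)))) (.cons (.br (nat_lit 7) (nat_lit 1) (.cons (.rf (nat_lit 607) (nat_lit 586092373435392664640813)) (.cons (.rf (nat_lit 989) (nat_lit 19926519232773908561233952)) (.cons (.br (nat_lit 16) (nat_lit 1) (.cons (.rf (nat_lit 68) (nat_lit 16990993722598)) (.cons (.rf (nat_lit 68) (nat_lit 15925809327334)) (.cons (.br (nat_lit 14) (nat_lit 1) (.cons (.rf (nat_lit 990) (nat_lit 21174442659472845144426528)) (.cons (.br (nat_lit 14) (nat_lit 1) (.cons (.rf (nat_lit 990) (nat_lit 21174442659472845144426528)) .nil)) .nil))) .nil)))) (.cons (.br (nat_lit 14) (nat_lit 1) (.cons (.br (nat_lit 14) (nat_lit 1) (.cons (.ev (nat_lit 31174459704076115415775324858877191) (nat_lit 3)) (.cons (.rf (nat_lit 991) (nat_lit 677582165103132179601393696)) .nil))) (.cons (.br (nat_lit 14) (nat_lit 1) (.cons (.ev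 (nat_lit 31174459704076115415775324858877191) (nat_lit 3)) (.cons (.rf (nat_lit 992) (nat_lit 677582165103132179601393696)) .nil))) (.cons (.br (nat_lit 14) (nat_lit 1) (.cons (.rf (nat_lit 991) (nat_lit 677582165103132179601393696)) (.cons (.rf (nat_lit 992) (nat_lit 677582165103132179601393696)) .nil))) .nil)))) .nil))))) .nil))))) (.cons (.br (nat_lit 7) (nat_lit 1) (.cons (.br (nat_lit 11) (nat_lit 1) (.cons (.ev (nat_lit 20520713075436691052086209676545) (nat_lit 3)) (.cons (.br (nat_lit 14) (nat_lit 1) (.cons (.ev (nat_lit 10405113811165627571329111821517059) (nat_lit 2)) (.cons (.rf (nat_lit 40) (nat_lit 17977103722567)) .nil))) (.cons (.rf (nat_lit 607) (nat_lit 586092374561293646240013)) .nil)))) (.cons (.br (nat_lit 10) (nat_lit 1) (.cons (.ev (nat_lit 10404955357258450682446124412961539) (nat_lit 2)) (.cons (.br (nat_lit 14) (nat_lit 1) (.cons (.ev (nat_lit 31174143412804521799740871950860551) (nat_lit 3)) (.cons (.rf (nat_lit 40) (nat_lit 17942743985223)) .nil))) (.cons (.br (nat_lit 14) (nat_lit 1) (.cons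 (.rf (nat_lit 68) (nat_lit 18122953403463)) (.cons (.rf (nat_lit 68) (nat_lit 17057573973063)) (.cons (.br (nat_lit 15) (nat_lit 1) (.cons (.rf (nat_lit 993) (nat_lit 677582165103132179601393696)) (.cons (.br (nat_lit 15) (nat_lit 1) (.cons (.rf (nat_lit 993) (nat_lit 677582165103132179601393696)) .nil)) .nil))) .nil)))) .nil)))) (.cons (.br (nat_lit 11) (nat_lit 1) (.cons (.ev (nat_lit 20520713075436691052086209676545) (nat_lit 3)) (.cons (.ev (nat_lit 10405274124419604639251693048299783) (nat_lit 3)) (.cons (.br (nat_lit 10) (nat_lit 1) (.cons (.rf (nat_lit 119) (nat_lit 18118692026562)) (.cons (.rf (nat_lit 119) (nat_lit 17054352783554)) (.cons (.br (nat_lit 15) (nat_lit 1) (.cons (.br (nat_lit 15) (nat_lit 1) (.cons (.ev (nat_lit 1329248278505218201100756717817298945) (nat_lit 1)) .nil)) (.cons (.br (nat_lit 15) (nat_lit 1) (.cons (.ev (nat_lit 1329248278505218201100756717817298945) (nat_lit 1)) .nil)) .nil))) .nil)))) .nil)))) (.cons (.br (nat_lit 10) (nat_lit 1) (.cons (.ev (nat_lit 20679176654020137978024169703169)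 (nat_lit 3)) (.cons (.ev (nat_lit 10405113811165627571329111821517059) (nat_lit 2)) (.cons (.ev (nat_lit 79229376162522774165673541633) (nat_lit 1)) (.cons (.br (nat_lit 11) (nat_lit 1) (.cons (.rf (nat_lit 119) (nat_lit 18115437377730)) (.cons (.rf (nat_lit 119) (nat_lit 18080002850019)) (.cons (.br (nat_lit 14) (nat_lit 1) (.cons (.ev (nat_lit 2689630452514265863116696013313935105) (nat_lit 3)) (.cons (.ev (nat_lit 680595908144365036015529623768225023745) (nat_lit 3)) (.cons (.br (nat_lit 15) (nat_lit 1) (.cons (.ev (nat_lit 2658476353826572709091781993419506435) (nat_lit 2)) (.cons (.br (nat_lit 16) (nat_lit 1) (.cons (.ev (nat_lit 341611594916724592984536852163689775105) (nat_lit 1)) .nil)) .nil))) .nil)))) (.cons (.br (nat_lit 15) (nat_lit 1) (.cons (.rf (nat_lit 130) (nat_lit 17981119117506)) (.cons (.rf (nat_lit 994) (nat_lit 677582165103132179601393696)) (.cons (.ev (nat_lit 2658476353826572709091781993419506435) (nat_lit 2)) .nil)))) .nil))))) .nil))))) (.cons (.br (nat_lit 10) (nat_lit 1) (.cons (.br (nat_lit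 14) (nat_lit 1) (.cons (.rf (nat_lit 68) (nat_lit 18122852740170)) (.cons (.rf (nat_lit 68) (nat_lit 17057570827338)) (.cons (.br (nat_lit 15) (nat_lit 1) (.cons (.br (nat_lit 15) (nat_lit 1) (.cons (.ev (nat_lit 2668860947546069660865718320770318593) (nat_lit 2)) .nil)) (.cons (.br (nat_lit 15) (nat_lit 1) (.cons (.ev (nat_lit 2668860947546069660865718320770318593) (nat_lit 2)) .nil)) .nil))) .nil)))) (.cons (.br (nat_lit 11) (nat_lit 1) (.cons (.rf (nat_lit 119) (nat_lit 18119631648962)) (.cons (.rf (nat_lit 119) (nat_lit 17054349736130)) (.cons (.br (nat_lit 15) (nat_lit 1) (.cons (.br (nat_lit 15) (nat_lit 1) (.cons (.ev (nat_lit 1329248278505218201100756717817298945) (nat_lit 1)) .nil)) (.cons (.br (nat_lit 15) (nat_lit 1) (.cons (.ev (nat_lit 1329248278505218201100756717817298945) (nat_lit 1)) .nil)) .nil))) .nil)))) (.cons (.br (nat_lit 11) (nat_lit 1) (.cons (.rf (nat_lit 119) (nat_lit 18118557939906)) (.cons (.rf (nat_lit 119) (nat_lit 18079902186819)) (.cons (.br (nat_lit 15) (nat_lit 1) (.cons (.ev (nat_lit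 2668861105999976837754601308111766273) (nat_lit 2)) (.cons (.ev (nat_lit 344270050988140343616137172631190241280) (nat_lit 2)) (.cons (.br (nat_lit 16) (nat_lit 1) (.cons (.ev (nat_lit 680575138797850746990167524664976343809) (nat_lit 2)) (.cons (.ev (nat_lit 341611594916724592984536852163689775105) (nat_lit 1)) .nil))) .nil)))) (.cons (.br (nat_lit 14) (nat_lit 1) (.cons (.rf (nat_lit 130) (nat_lit 17977998555330)) (.cons (.br (nat_lit 15) (nat_lit 1) (.cons (.ev (nat_lit 2679245699102921695168496406475309827) (nat_lit 3)) (.cons (.br (nat_lit 16) (nat_lit 1) (.cons (.ev (nat_lit 341611594995951546572981293648804118785) (nat_lit 1)) .nil)) .nil))) (.cons (.br (nat_lit 15) (nat_lit 1) (.cons (.br (nat_lit 16) (nat_lit 1) (.cons (.ev (nat_lit 1369104856496712889826398993431759423235) (nat_lit 3)) .nil)) (.cons (.ev (nat_lit 174227230340032157230410509737847639113985) (nat_lit 2)) .nil))) .nil)))) .nil))))) (.cons (.ev (nat_lit 79229376162522774165673541633) (nat_lit 1)) (.cons (.br (nat_lit 11) (nat_lit 1) (.cons (.br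 (nat_lit 15) (nat_lit 1) (.cons (.br (nat_lit 15) (nat_lit 1) (.cons (.ev (nat_lit 1329248278505218201100756717817298945) (nat_lit 1)) .nil)) (.cons (.br (nat_lit 15) (nat_lit 1) (.cons (.ev (nat_lit 1329248278505218201100756717817298945) (nat_lit 1)) .nil)) .nil))) (.cons (.br (nat_lit 15) (nat_lit 1) (.cons (.rf (nat_lit 130) (nat_lit 17943672371394)) (.cons (.ev (nat_lit 1329248357732171789545198211488022785) (nat_lit 1)) (.cons (.br (nat_lit 17) (nat_lit 1) (.cons (.ev (nat_lit 174224571883882752452062722967354065551619) (nat_lit 2)) (.cons (.rf (nat_lit 750) (nat_lit 19892342848293121702571405)) .nil))) .nil)))) (.cons (.br (nat_lit 14) (nat_lit 1) (.cons (.br (nat_lit 15) (nat_lit 1) (.cons (.ev (nat_lit 680585523392186777294121288558279131911) (nat_lit 3)) (.cons (.ev (nat_lit 1329248278505218201100756717817298945) (nat_lit 1)) .nil))) (.cons (.ev (nat_lit 680575138797850746990167524664976343809) (nat_lit 2)) (.cons (.br (nat_lit 16) (nat_lit 1) (.cons (.br (nat_lit 15) (nat_lit 1) (.cons (.ev (nat_lit 685881666504809806125313491459597666051)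 (nat_lit 3)) .nil)) (.cons (.ev (nat_lit 174224571883882752452062722967354065551619) (nat_lit 2)) .nil))) .nil)))) (.cons (.br (nat_lit 17) (nat_lit 1) (.cons (.rf (nat_lit 130) (nat_lit 16736793966786)) (.cons (.ev (nat_lit 174224571884041206359239611850324294238979) (nat_lit 2)) (.cons (.br (nat_lit 14) (nat_lit 1) (.cons (.br (nat_lit 15) (nat_lit 1) (.cons (.ev (nat_lit 1329248278505218201100756717817298945) (nat_lit 1)) .nil)) (.cons (.ev (nat_lit 350490837949087951840102627365970136793347) (nat_lit 3)) .nil))) .nil)))) .nil))))) .nil)))))) .nil)))))) (.cons (.br (nat_lit 11) (nat_lit 1) (.cons (.br (nat_lit 10) (nat_lit 1) (.cons (.rf (nat_lit 888) (nat_lit 583217091027923253959981)) (.cons (.zr (nat_lit 20361637766184525621915044282368) (nat_lit 2658455992188806487817350077608887041) (nat_lit 8) (nat_lit 5)) (.cons (.rf (nat_lit 719) (nat_lit 19423563930543745961189)) .nil)))) (.cons (.kr (nat_lit 79228162514264619068520661248) (nat_lit 1208925819614633486450688) (nat_lit 1) (nat_lit 0)) (.cons (.br (nat_lit 7)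 (nat_lit 1) (.cons (.br (nat_lit 14) (nat_lit 1) (.cons (.ev (nat_lit 5192456245742200656635326166466817) (nat_lit 2)) (.cons (.rf (nat_lit 40) (nat_lit 17810673739847)) .nil))) (.cons (.br (nat_lit 10) (nat_lit 1) (.cons (.ev (nat_lit 79229376162522774165673541633) (nat_lit 1)) (.cons (.rf (nat_lit 119) (nat_lit 18114363635938)) .nil))) (.cons (.ev (nat_lit 1329228075013083128053711770017071360) (nat_lit 1)) (.cons (.br (nat_lit 10) (nat_lit 1) (.cons (.ev (nat_lit 5212579578832414939914141480058881) (nat_lit 1)) (.cons (.rf (nat_lit 119) (nat_lit 18085270863043)) (.cons (.br (nat_lit 14) (nat_lit 1) (.cons (.ev (nat_lit 5327317096955674230449171590918832899) (nat_lit 3)) (.cons (.ev (nat_lit 340282387203657556865751662088943567105) (nat_lit 1)) (.cons (.br (nat_lit 16) (nat_lit 1) (.cons (.ev (nat_lit 2658476353210029948927798706190680835) (nat_lit 2)) (.cons (.zr (nat_lit 10405113811160868455473269914468353) (nat_lit 680564733842498328965130582872566006016) (nat_lit 8) (nat_lit 5)) .nil))) .nil)))) (.cons (.br (nat_lit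 15) (nat_lit 1) (.cons (.rf (nat_lit 130) (nat_lit 17943504599394)) (.cons (.br (nat_lit 14) (nat_lit 1) (.cons (.ev (nat_lit 340287559297025160823714502169839272193) (nat_lit 1)) (.cons (.br (nat_lit 16) (nat_lit 1) (.cons (.ev (nat_lit 2041714991550078938564518695388991193351) (nat_lit 3)) .nil)) .nil))) (.cons (.ev (nat_lit 2658476353210029948927798706190680835) (nat_lit 2)) .nil)))) .nil))))) .nil))))) (.cons (.ev (nat_lit 2658476511663937125817807593438970115) (nat_lit 2)) (.cons (.br (nat_lit 7) (nat_lit 1) (.cons (.br (nat_lit 15) (nat_lit 1) (.cons (.ev (nat_lit 1329227995788542668809396129666106115) (nat_lit 2)) (.cons (.rf (nat_lit 68) (nat_lit 15959103580263)) (.cons (.rf (nat_lit 652) (nat_lit 659323636083077058603277)) .nil)))) (.cons (.br (nat_lit 10) (nat_lit 1) (.cons (.rf (nat_lit 119) (nat_lit 18114397157602)) (.cons (.ev (nat_lit 79229376162522774165673541633) (nat_lit 1)) (.cons (.br (nat_lit 14) (nat_lit 1) (.cons (.ev (nat_lit 2689630451271471157299949448296924929) (nat_lit 3)) (.cons (.ev (nat_lit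 680595908143748455476433777523834488577) (nat_lit 3)) (.cons (.br (nat_lit 15) (nat_lit 1) (.cons (.ev (nat_lit 2658476353210029948927798706190680835) (nat_lit 2)) (.cons (.rf (nat_lit 995) (nat_lit 21174442659471745632798752)) .nil))) .nil)))) (.cons (.br (nat_lit 15) (nat_lit 1) (.cons (.ev (nat_lit 2689630451271471157299949448296924929) (nat_lit 3)) (.cons (.rf (nat_lit 996) (nat_lit 677582165103132179601393696)) (.cons (.ev (nat_lit 2658476353210029948927798706190680835) (nat_lit 2)) .nil)))) .nil))))) (.cons (.ev (nat_lit 1329228075013083128053711770017071360) (nat_lit 1)) (.cons (.br (nat_lit 10) (nat_lit 1) (.cons (.br (nat_lit 14) (nat_lit 1) (.cons (.ev (nat_lit 2658476353210029948927798706190680835) (nat_lit 2)) (.cons (.ev (nat_lit 5192297168024578263385082913947648) (nat_lit 1)) (.cons (.br (nat_lit 16) (nat_lit 1) (.cons (.ev (nat_lit 2047011133870413050919215156847156921091) (nat_lit 3)) (.cons (.zr (nat_lit 680564835491609432746341092566598156288) (nat_lit 10384594338471693639554897299899651) (nat_lit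 8) (nat_lit 5)) .nil))) .nil)))) (.cons (.rf (nat_lit 119) (nat_lit 15954804554947)) (.cons (.ev (nat_lit 340282366921249157399087906202994082048) (nat_lit 1)) (.cons (.br (nat_lit 15) (nat_lit 1) (.cons (.br (nat_lit 14) (nat_lit 1) (.cons (.ev (nat_lit 340287559297025160823714502169839272193) (nat_lit 1)) (.cons (.br (nat_lit 16) (nat_lit 1) (.cons (.ev (nat_lit 1361139872639111121785950886383055144199) (nat_lit 3)) .nil)) .nil))) (.cons (.rf (nat_lit 130) (nat_lit 15739284634819)) (.cons (.ev (nat_lit 2658476353210029948927798706190680835) (nat_lit 2)) .nil)))) .nil))))) (.cons (.br (nat_lit 10) (nat_lit 1) (.cons (.br (nat_lit 14) (nat_lit 1) (.cons (.ev (nat_lit 2658476353210029948927798706190680835) (nat_lit 2)) (.cons (.ev (nat_lit 5212658805786003384918585137758465) (nat_lit 1)) (.cons (.br (nat_lit 17) (nat_lit 1) (.cons (.ev (nat_lit 522679032523381633542819591471130483097859) (nat_lit 3)) (.cons (.zr (nat_lit 174224571883882135899839378708013971931393) (nat_lit 10384594336039730240549599725223936) (nat_lit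 8) (nat_lit 0)) .nil))) .nil)))) (.cons (.br (nat_lit 14) (nat_lit 1) (.cons (.rf (nat_lit 997) (nat_lit 677582165103132179601393696)) (.cons (.rf (nat_lit 1006) (nat_lit 20003295770629426872682528)) .nil))) (.cons (.br (nat_lit 15) (nat_lit 1) (.cons (.br (nat_lit 16) (nat_lit 1) (.cons (.ev (nat_lit 1366477554127835514684134736899596222727) (nat_lit 3)) (.cons (.ev (nat_lit 341611594917032864364618843807304187905) (nat_lit 1)) .nil))) (.cons (.ev (nat_lit 2658476353210029948927798706190680835) (nat_lit 2)) (.cons (.br (nat_lit 16) (nat_lit 1) (.cons (.ev (nat_lit 341611594917032864364618843807304187905) (nat_lit 1)) (.cons (.ev (nat_lit 175591018263708726119049185852106278438151) (nat_lit 3)) .nil))) .nil)))) (.cons (.br (nat_lit 17) (nat_lit 1) (.cons (.br (nat_lit 14) (nat_lit 1) (.cons (.ev (nat_lit 5327317255409581407339180495481210115) (nat_lit 3)) (.cons (.zr (nat_lit 10405272267485896984711406955790593) (nat_lit 174224571863521117113137819602341326749696) (nat_lit 8) (nat_lit 5)) .nil))) (.cons (.ev (nat_lit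 2658476353210029948927798706190680835) (nat_lit 2)) (.cons (.ev (nat_lit 87112285931839784294148057242788968792064) (nat_lit 1)) .nil)))) .nil))))) .nil)))))) .nil)))))) (.cons (.br (nat_lit 7) (nat_lit 1) (.cons (.br (nat_lit 11) (nat_lit 1) (.cons (.br (nat_lit 14) (nat_lit 1) (.cons (.rf (nat_lit 68) (nat_lit 18122819348551)) (.cons (.rf (nat_lit 68) (nat_lit 17057569941575)) (.cons (.br (nat_lit 15) (nat_lit 1) (.cons (.rf (nat_lit 998) (nat_lit 21174442659472880612543553)) (.cons (.br (nat_lit 15) (nat_lit 1) (.cons (.rf (nat_lit 998) (nat_lit 21174442659472880612543553)) .nil)) .nil))) .nil)))) (.cons (.rf (nat_lit 555) (nat_lit 19926150082776489190033440)) (.cons (.br (nat_lit 16) (nat_lit 1) (.cons (.rf (nat_lit 68) (nat_lit 16990993754311)) (.cons (.ev (nat_lit 340282366920938468204260173448449360128) (nat_lit 1)) (.cons (.br (nat_lit 14) (nat_lit 1) (.cons (.rf (nat_lit 999) (nat_lit 21174441469360359728056352)) (.cons (.br (nat_lit 14) (nat_lit 1) (.cons (.rf (nat_lit 999) (nat_lit 21174441469360359728056352))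 .nil)) .nil))) .nil)))) (.cons (.br (nat_lit 14) (nat_lit 1) (.cons (.br (nat_lit 14) (nat_lit 1) (.cons (.rf (nat_lit 880) (nat_lit 19006809052569472359)) (.cons (.ev (nat_lit 10405114432562906692726099491815683) (nat_lit 2)) .nil))) (.cons (.rf (nat_lit 1000) (nat_lit 677582165103132179601393696)) (.cons (.br (nat_lit 14) (nat_lit 1) (.cons (.ev (nat_lit 10405114432562906692726099491815683) (nat_lit 2)) (.cons (.rf (nat_lit 1000) (nat_lit 677582165103132179601393696)) .nil))) .nil)))) .nil))))) (.cons (.br (nat_lit 10) (nat_lit 1) (.cons (.rf (nat_lit 719) (nat_lit 18315349412910851205484)) (.cons (.rf (nat_lit 766) (nat_lit 19889431864619750298852653)) (.cons (.br (nat_lit 16) (nat_lit 1) (.cons (.ev (nat_lit 340282428005854194016955458030445723904) (nat_lit 2)) (.cons (.ev (nat_lit 340282366920938468204260173448449360128) (nat_lit 1)) (.cons (.br (nat_lit 14) (nat_lit 1) (.cons (.rf (nat_lit 1001) (nat_lit 677582165103132179601393696)) (.cons (.br (nat_lit 14) (nat_lit 1) (.cons (.rf (nat_lit 1001) (nat_lit 677582165103132179601393696))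 .nil)) .nil))) .nil)))) (.cons (.br (nat_lit 14) (nat_lit 1) (.cons (.rf (nat_lit 1002) (nat_lit 677582165103132179601393696)) (.cons (.rf (nat_lit 1003) (nat_lit 677582165103132179601393696)) (.cons (.br (nat_lit 14) (nat_lit 1) (.cons (.rf (nat_lit 1002) (nat_lit 677582165103132179601393696)) (.cons (.rf (nat_lit 1003) (nat_lit 677582165103132179601393696)) .nil))) .nil)))) .nil))))) (.cons (.br (nat_lit 10) (nat_lit 1) (.cons (.rf (nat_lit 719) (nat_lit 19459155734226437283177)) (.cons (.br (nat_lit 11) (nat_lit 1) (.cons (.ev (nat_lit 10405114432562906692726099491815683) (nat_lit 2)) (.cons (.rf (nat_lit 119) (nat_lit 17054348687586)) (.cons (.br (nat_lit 15) (nat_lit 1) (.cons (.br (nat_lit 15) (nat_lit 1) (.cons (.ev (nat_lit 1329248278505218201100756717817298945) (nat_lit 1)) .nil)) (.cons (.br (nat_lit 15) (nat_lit 1) (.cons (.ev (nat_lit 1329248278505218201100756717817298945) (nat_lit 1)) .nil)) .nil))) .nil)))) (.cons (.br (nat_lit 11) (nat_lit 1) (.cons (.rf (nat_lit 119) (nat_lit 18118524385506)) (.cons (.rf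 (nat_lit 119) (nat_lit 18080942374211)) (.cons (.br (nat_lit 14) (nat_lit 1) (.cons (.ev (nat_lit 2679245700336007067922510391256548099) (nat_lit 3)) (.cons (.zr (nat_lit 680564754203517110944467320855051895555) (nat_lit 618974797349406327768875008) (nat_lit 8) (nat_lit 0)) (.cons (.br (nat_lit 15) (nat_lit 1) (.cons (.ev (nat_lit 341611615278670635234473343040228491520) (nat_lit 1)) (.cons (.ev (nat_lit 2668861105383415188124686542302085889) (nat_lit 2)) .nil))) .nil)))) (.cons (.br (nat_lit 14) (nat_lit 1) (.cons (.rf (nat_lit 130) (nat_lit 17976924813538)) (.cons (.br (nat_lit 16) (nat_lit 1) (.cons (.ev (nat_lit 2668861105383415188124686542302085889) (nat_lit 2)) (.cons (.ev (nat_lit 680564754680745428200243741995747509511) (nat_lit 3)) .nil))) (.cons (.br (nat_lit 17) (nat_lit 1) (.cons (.ev (nat_lit 2668861105383415188124686542302085889) (nat_lit 2)) (.cons (.ev (nat_lit 87112291144339514789825565221325159530496) (nat_lit 1)) .nil))) .nil)))) .nil))))) (.cons (.ev (nat_lit 79229376162522774165673541633) (nat_lit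 1)) (.cons (.br (nat_lit 11) (nat_lit 1) (.cons (.br (nat_lit 15) (nat_lit 1) (.cons (.br (nat_lit 15) (nat_lit 1) (.cons (.ev (nat_lit 1329248278505218201100756717817298945) (nat_lit 1)) .nil)) (.cons (.br (nat_lit 15) (nat_lit 1) (.cons (.ev (nat_lit 1329248278505218201100756717817298945) (nat_lit 1)) .nil)) .nil))) (.cons (.br (nat_lit 14) (nat_lit 1) (.cons (.ev (nat_lit 1329248357732171789545198211488022785) (nat_lit 1)) (.cons (.br (nat_lit 15) (nat_lit 1) (.cons (.ev (nat_lit 685902435850076455185734046776710661379) (nat_lit 3)) (.cons (.br (nat_lit 16) (nat_lit 1) (.cons (.ev (nat_lit 683233594788801599271599485107853984003) (nat_lit 2)) .nil)) .nil))) (.cons (.br (nat_lit 17) (nat_lit 1) (.cons (.ev (nat_lit 174227230340032157230410509737847639113985) (nat_lit 2)) (.cons (.rf (nat_lit 829) (nat_lit 622815409660078572473573)) .nil))) .nil)))) (.cons (.br (nat_lit 14) (nat_lit 1) (.cons (.br (nat_lit 15) (nat_lit 1) (.cons (.ev (nat_lit 680575138797850746990167524664976343809) (nat_lit 2)) (.cons (.ev (nat_lit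 1329248278505218201100756717817298945) (nat_lit 1)) .nil))) (.cons (.rf (nat_lit 130) (nat_lit 16839868954850)) (.cons (.br (nat_lit 16) (nat_lit 1) (.cons (.rf (nat_lit 874) (nat_lit 660557489596195655424068)) (.cons (.ev (nat_lit 680575138797850746990167524664976343809) (nat_lit 2)) .nil))) .nil)))) (.cons (.br (nat_lit 17) (nat_lit 1) (.cons (.rf (nat_lit 130) (nat_lit 16702434228450)) (.cons (.ev (nat_lit 174224571884041206359239611850324294238979) (nat_lit 2)) (.cons (.br (nat_lit 14) (nat_lit 1) (.cons (.br (nat_lit 15) (nat_lit 1) (.cons (.ev (nat_lit 1329248278505218201100756717817298945) (nat_lit 1)) .nil)) (.cons (.ev (nat_lit 350490837949088568382715217396667689206019) (nat_lit 3)) .nil))) .nil)))) .nil))))) .nil)))))) (.cons (.br (nat_lit 10) (nat_lit 1) (.cons (.br (nat_lit 15) (nat_lit 1) (.cons (.rf (nat_lit 68) (nat_lit 18089532173418)) (.cons (.rf (nat_lit 68) (nat_lit 15959098371178)) (.cons (.br (nat_lit 14) (nat_lit 1) (.cons (.rf (nat_lit 1004) (nat_lit 677582165103132179601393696)) (.cons (.br (nat_lit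 14) (nat_lit 1) (.cons (.rf (nat_lit 1004) (nat_lit 677582165103132179601393696)) .nil)) .nil))) .nil)))) (.cons (.br (nat_lit 11) (nat_lit 1) (.cons (.ev (nat_lit 5212579578832414939914141480058881) (nat_lit 1)) (.cons (.rf (nat_lit 119) (nat_lit 18084163599587)) (.cons (.br (nat_lit 14) (nat_lit 1) (.cons (.ev (nat_lit 5192297168024578263385082913947648) (nat_lit 1)) (.cons (.zr (nat_lit 680564754203517110944467320855051895555) (nat_lit 618974797349406327768875008) (nat_lit 8) (nat_lit 0)) (.cons (.rf (nat_lit 1005) (nat_lit 677582165103132179601393696)) .nil)))) (.cons (.br (nat_lit 14) (nat_lit 1) (.cons (.rf (nat_lit 130) (nat_lit 17976824150338)) (.cons (.rf (nat_lit 1005) (nat_lit 640105464695078675185502240)) (.cons (.br (nat_lit 17) (nat_lit 1) (.cons (.ev (nat_lit 2658476353826572709091781993419506435) (nat_lit 2)) (.cons (.rf (nat_lit 750) (nat_lit 19930084921604946736294285)) .nil))) .nil)))) .nil))))) (.cons (.br (nat_lit 11) (nat_lit 1) (.cons (.rf (nat_lit 119) (nat_lit 18085237308643)) (.cons (.rf (nat_lit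 119) (nat_lit 15954803506403)) (.cons (.rf (nat_lit 903) (nat_lit 659323677632324358548713)) .nil)))) (.cons (.br (nat_lit 16) (nat_lit 1) (.cons (.ev (nat_lit 340282366920938468204260173448449360128) (nat_lit 1)) (.cons (.ev (nat_lit 340282427847395451136788116543585321728) (nat_lit 2)) (.cons (.ev (nat_lit 340282367000167839644343844191879561216) (nat_lit 1)) (.cons (.br (nat_lit 11) (nat_lit 1) (.cons (.br (nat_lit 15) (nat_lit 1) (.cons (.ev (nat_lit 2658476353826572709091781993419506435) (nat_lit 2)) (.cons (.ev (nat_lit 683223210195703499598948071668080313089) (nat_lit 2)) .nil))) (.cons (.ev (nat_lit 2658476512285315589260249397366620419) (nat_lit 2)) (.cons (.br (nat_lit 15) (nat_lit 1) (.cons (.ev (nat_lit 683223210195703499598948071668080313089) (nat_lit 2)) (.cons (.ev (nat_lit 2658476353826572709091781993419506435) (nat_lit 2)) .nil))) .nil)))) .nil))))) (.cons (.br (nat_lit 11) (nat_lit 1) (.cons (.br (nat_lit 14) (nat_lit 1) (.cons (.ev (nat_lit 2658476353826572709091781993419506435) (nat_lit 2)) (.cons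 (.br (nat_lit 16) (nat_lit 1) (.cons (.ev (nat_lit 5327317098188797529709001122538193667) (nat_lit 3)) (.cons (.ev (nat_lit 1361139872798807823521083689228464162567) (nat_lit 3)) .nil))) (.cons (.br (nat_lit 17) (nat_lit 1) (.cons (.ev (nat_lit 87113615159835259729733506188749698040065) (nat_lit 1)) (.cons (.ev (nat_lit 174224571883882752452062722967354065551619) (nat_lit 2)) .nil))) .nil)))) (.cons (.br (nat_lit 14) (nat_lit 1) (.cons (.rf (nat_lit 1006) (nat_lit 21174442659472880612509728)) (.cons (.br (nat_lit 14) (nat_lit 1) (.cons (.rf (nat_lit 1006) (nat_lit 21174442659472880612509728)) .nil)) .nil))) (.cons (.br (nat_lit 15) (nat_lit 1) (.cons (.br (nat_lit 14) (nat_lit 1) (.cons (.ev (nat_lit 683233594788801599271599485107853984003) (nat_lit 2)) (.cons (.ev (nat_lit 5327317256652376113155927060498220291) (nat_lit 3)) .nil))) (.cons (.ev (nat_lit 2658476353826572709091781993419506435) (nat_lit 2)) (.cons (.br (nat_lit 17) (nat_lit 1) (.cons (.ev (nat_lit 87113615159835259729733506188749698040065) (nat_lit 1))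 (.cons (.zr (nat_lit 680564733842498314853803712044691621125) (nat_lit 348449143828532262781435313919389427826688) (nat_lit 8) (nat_lit 1)) .nil))) .nil)))) (.cons (.br (nat_lit 15) (nat_lit 1) (.cons (.br (nat_lit 17) (nat_lit 1) (.cons (.ev (nat_lit 348454491813483835161805906350728714256647) (nat_lit 3)) (.cons (.ev (nat_lit 87113615159756032776145061747264583696385) (nat_lit 1)) .nil))) (.cons (.br (nat_lit 17) (nat_lit 1) (.cons (.ev (nat_lit 87113615180117670537607076768905636675840) (nat_lit 1)) (.cons (.ev (nat_lit 349135025393387959028130399625595295106311) (nat_lit 3)) .nil))) (.cons (.ev (nat_lit 2658476353826572709091781993419506435) (nat_lit 2)) .nil)))) .nil))))) .nil)))))) (.cons (.br (nat_lit 10) (nat_lit 1) (.cons (.br (nat_lit 16) (nat_lit 1) (.cons (.rf (nat_lit 68) (nat_lit 16990993624266)) (.cons (.rf (nat_lit 68) (nat_lit 15925809229002)) (.cons (.br (nat_lit 14) (nat_lit 1) (.cons (.rf (nat_lit 1007) (nat_lit 677582165103132179601393696)) (.cons (.br (nat_lit 14) (nat_lit 1) (.cons (.rf (nat_lit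 1007) (nat_lit 677582165103132179601393696)) .nil)) .nil))) .nil)))) (.cons (.ev (nat_lit 79229376162522774165673541633) (nat_lit 1)) (.cons (.br (nat_lit 11) (nat_lit 1) (.cons (.br (nat_lit 14) (nat_lit 1) (.cons (.ev (nat_lit 1334420371872822159063033857349517313) (nat_lit 1)) (.cons (.ev (nat_lit 31174301250168938525766454790456071) (nat_lit 3)) (.cons (.br (nat_lit 15) (nat_lit 1) (.cons (.ev (nat_lit 2658476829814536778005755427893281539) (nat_lit 3)) (.cons (.zr (nat_lit 5253381771833325504873816609849344) (nat_lit 1329227996406313188918973670346457857) (nat_lit 8) (nat_lit 5)) .nil))) .nil)))) (.cons (.rf (nat_lit 119) (nat_lit 15950508571971)) (.cons (.rf (nat_lit 119) (nat_lit 15919366914278)) (.cons (.br (nat_lit 15) (nat_lit 1) (.cons (.br (nat_lit 16) (nat_lit 1) (.cons (.ev (nat_lit 1334420292643450718979363105295827201) (nat_lit 1)) (.cons (.ev (nat_lit 683223210195703499598948071668080313089) (nat_lit 2)) .nil))) (.cons (.rf (nat_lit 130) (nat_lit 15773509107011)) (.cons (.br (nat_lit 14) (nat_lit 1)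 (.cons (.ev (nat_lit 683223210195703499598948071668080313089) (nat_lit 2)) (.cons (.ev (nat_lit 174227230340032157230410509737847639113985) (nat_lit 2)) .nil))) .nil)))) .nil))))) (.cons (.ev (nat_lit 680564754203514707278230735348350058755) (nat_lit 2)) (.cons (.br (nat_lit 11) (nat_lit 1) (.cons (.br (nat_lit 14) (nat_lit 1) (.cons (.br (nat_lit 15) (nat_lit 1) (.cons (.ev (nat_lit 680575138797850746990167524664976343809) (nat_lit 2)) (.cons (.ev (nat_lit 1329248278505218201100756717817298945) (nat_lit 1)) .nil))) (.cons (.rf (nat_lit 130) (nat_lit 16839734737250)) (.cons (.br (nat_lit 16) (nat_lit 1) (.cons (.br (nat_lit 15) (nat_lit 1) (.cons (.ev (nat_lit 1363819098295338569506095165308007612673) (nat_lit 3)) .nil)) (.cons (.ev (nat_lit 680575138797850746990167524664976343809) (nat_lit 2)) .nil))) .nil)))) (.cons (.br (nat_lit 15) (nat_lit 1) (.cons (.br (nat_lit 14) (nat_lit 1) (.cons (.rf (nat_lit 134) (nat_lit 11253018213731)) (.cons (.br (nat_lit 16) (nat_lit 1) (.cons (.ev (nat_lit 1366477554126602429237594872502704013571)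 (nat_lit 3)) .nil)) .nil))) (.cons (.ev (nat_lit 1329248357732171789545198211488022785) (nat_lit 1)) (.cons (.br (nat_lit 17) (nat_lit 1) (.cons (.ev (nat_lit 174227230340032157230410509737847639113985) (nat_lit 2)) (.cons (.ev (nat_lit 174224571883882752452062722967354065551619) (nat_lit 2)) .nil))) .nil)))) (.cons (.br (nat_lit 14) (nat_lit 1) (.cons (.rf (nat_lit 1008) (nat_lit 677582165103132179601393696)) (.cons (.br (nat_lit 14) (nat_lit 1) (.cons (.rf (nat_lit 1008) (nat_lit 677582165103132179601393696)) .nil)) .nil))) (.cons (.br (nat_lit 17) (nat_lit 1) (.cons (.br (nat_lit 14) (nat_lit 1) (.cons (.ev (nat_lit 348449154131997586649060081362973896082691) (nat_lit 3)) (.cons (.ev (nat_lit 87452573511260453253307386291351365681153) (nat_lit 1)) .nil))) (.cons (.ev (nat_lit 174224571884041206359239611850324294238979) (nat_lit 2)) (.cons (.rf (nat_lit 130) (nat_lit 15498769645798)) .nil)))) .nil))))) .nil)))))) (.cons (.br (nat_lit 10) (nat_lit 1) (.cons (.br (nat_lit 14) (nat_lit 1) (.cons (.rf (nat_lit 1009) (nat_lit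 677582165103132179601393696)) (.cons (.rf (nat_lit 1010) (nat_lit 677582165103132179601393696)) (.cons (.br (nat_lit 14) (nat_lit 1) (.cons (.rf (nat_lit 1009) (nat_lit 677582165103132179601393696)) (.cons (.rf (nat_lit 1010) (nat_lit 677582165103132179601393696)) .nil))) .nil)))) (.cons (.br (nat_lit 11) (nat_lit 1) (.cons (.ev (nat_lit 5212579578832414939914141480058881) (nat_lit 1)) (.cons (.br (nat_lit 14) (nat_lit 1) (.cons (.rf (nat_lit 130) (nat_lit 17839519414594)) (.cons (.ev (nat_lit 5212658805786003384918585137758465) (nat_lit 1)) (.cons (.br (nat_lit 15) (nat_lit 1) (.cons (.kr (nat_lit 1329227995784915891422608728027889664) (nat_lit 5192296858539549995294840967921664) (nat_lit 2) (nat_lit 0)) (.cons (.ev (nat_lit 1334440575054268000388860102209175808) (nat_lit 1)) .nil))) .nil)))) (.cons (.br (nat_lit 14) (nat_lit 1) (.cons (.ev (nat_lit 5212658805786003384918585137758465) (nat_lit 1)) (.cons (.rf (nat_lit 130) (nat_lit 16736789739842)) (.cons (.br (nat_lit 15) (nat_lit 1) (.cons (.rf (nat_lit 914) (nat_lit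 600176182895929929566103949)) (.cons (.zr (nat_lit 174224571863600340425874227983541017511169) (nat_lit 31214628380034087882469690071580672) (nat_lit 8) (nat_lit 1)) .nil))) .nil)))) (.cons (.br (nat_lit 14) (nat_lit 1) (.cons (.br (nat_lit 15) (nat_lit 1) (.cons (.ev (nat_lit 1334440654281221588833864545833320448) (nat_lit 1)) (.cons (.ev (nat_lit 174227230339874324711105046326520022434049) (nat_lit 3)) .nil))) (.cons (.br (nat_lit 16) (nat_lit 1) (.cons (.br (nat_lit 15) (nat_lit 1) (.cons (.ev (nat_lit 688550507090718095323729561833668215559) (nat_lit 3)) .nil)) (.cons (.zr (nat_lit 10384594338481138660751012742038273) (nat_lit 522673715651487936853268012860155229372416) (nat_lit 8) (nat_lit 9)) .nil))) (.cons (.rf (nat_lit 130) (nat_lit 16702431082818)) .nil)))) .nil))))) (.cons (.br (nat_lit 11) (nat_lit 1) (.cons (.br (nat_lit 14) (nat_lit 1) (.cons (.ev (nat_lit 1334420371872822159063033857349517313) (nat_lit 1)) (.cons (.ev (nat_lit 31174301250168938525766454790456071) (nat_lit 3)) (.cons (.br (nat_lit 15) (nat_lit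 1) (.cons (.ev (nat_lit 1334420768638682473090729046928851974) (nat_lit 3)) (.cons (.ev (nat_lit 2658476829814536778005755427893281539) (nat_lit 3)) .nil))) .nil)))) (.cons (.rf (nat_lit 570) (nat_lit 19926400514581705869330464)) (.cons (.br (nat_lit 15) (nat_lit 1) (.cons (.br (nat_lit 14) (nat_lit 1) (.cons (.ev (nat_lit 1334420292643450718979363105295827201) (nat_lit 1)) (.cons (.br (nat_lit 16) (nat_lit 1) (.cons (.ev (nat_lit 88150418189401129537670206031974168069634) (nat_lit 4)) .nil)) .nil))) (.cons (.rf (nat_lit 130) (nat_lit 15636204371267)) (.cons (.br (nat_lit 17) (nat_lit 1) (.cons (.ev (nat_lit 348457119115853945622468498573835335108355) (nat_lit 3)) (.cons (.ev (nat_lit 522679032523381633542893377321542594068743) (nat_lit 3)) .nil))) .nil)))) (.cons (.br (nat_lit 17) (nat_lit 1) (.cons (.rf (nat_lit 979) (nat_lit 17100744600061691141421)) (.cons (.ev (nat_lit 87116273615827448526776662067732084162560) (nat_lit 2)) (.cons (.br (nat_lit 14) (nat_lit 1) (.cons (.ev (nat_lit 87113615159756032776145061747264583696385)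 (nat_lit 1)) (.cons (.ev (nat_lit 87452568319043133574911288372770631647232) (nat_lit 1)) .nil))) .nil)))) .nil))))) (.cons (.br (nat_lit 16) (nat_lit 1) (.cons (.br (nat_lit 14) (nat_lit 1) (.cons (.rf (nat_lit 1011) (nat_lit 677582165103132179601393696)) (.cons (.br (nat_lit 14) (nat_lit 1) (.cons (.rf (nat_lit 1011) (nat_lit 677582165103132179601393696)) .nil)) .nil))) (.cons (.br (nat_lit 14) (nat_lit 1) (.cons (.rf (nat_lit 130) (nat_lit 16736756185442)) (.cons (.br (nat_lit 11) (nat_lit 1) (.cons (.zr (nat_lit 10445837086693181590584851630653440) (nat_lit 2658455992193642209541989722358808833) (nat_lit 8) (nat_lit 5)) (.cons (.br (nat_lit 15) (nat_lit 1) (.cons (.ev (nat_lit 2049679974774471949251013841938492293891) (nat_lit 3)) .nil)) .nil))) (.cons (.ev (nat_lit 340292751673114285499017730447584067587) (nat_lit 2)) .nil)))) (.cons (.br (nat_lit 11) (nat_lit 1) (.cons (.br (nat_lit 14) (nat_lit 1) (.cons (.zr (nat_lit 2658476274603264732231601100351995904) (nat_lit 680595887702256298425232610906230227717) (nat_lit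 8) (nat_lit 9)) (.cons (.br (nat_lit 15) (nat_lit 1) (.cons (.ev (nat_lit 1369136010278483068700987730546854724865) (nat_lit 3)) .nil)) .nil))) (.cons (.rf (nat_lit 130) (nat_lit 15636170816867)) (.cons (.br (nat_lit 17) (nat_lit 1) (.cons (.ev (nat_lit 523354280345081907246523563307763052447489) (nat_lit 3)) (.cons (.ev (nat_lit 174224571884199048550025996746064897508103) (nat_lit 3)) .nil))) .nil)))) (.cons (.ev (nat_lit 340282367000167839644343844191879561216) (nat_lit 1)) .nil))))) (.cons (.br (nat_lit 11) (nat_lit 1) (.cons (.br (nat_lit 14) (nat_lit 1) (.cons (.br (nat_lit 15) (nat_lit 1) (.cons (.ev (nat_lit 1329248278505218201100756717817298945) (nat_lit 1)) (.cons (.zr (nat_lit 10405113811160868455473269914468353) (nat_lit 174224571863521114695286180373074353848576) (nat_lit 8) (nat_lit 5)) .nil))) (.cons (.br (nat_lit 16) (nat_lit 1) (.cons (.ev (nat_lit 1361139872798807823521083689228464162567) (nat_lit 3)) (.cons (.zr (nat_lit 680564795085246550453226290960597647360) (nat_lit 174224571863521733655879536841546222534913)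 (nat_lit 8) (nat_lit 5)) .nil))) (.cons (.ev (nat_lit 87112285931839784294148057242788968792064) (nat_lit 1)) .nil)))) (.cons (.br (nat_lit 15) (nat_lit 1) (.cons (.br (nat_lit 17) (nat_lit 1) (.cons (.ev (nat_lit 348454491813483835161805906350728714256647) (nat_lit 3)) (.cons (.rf (nat_lit 977) (nat_lit 601457617399273498756614176)) .nil))) (.cons (.br (nat_lit 16) (nat_lit 1) (.cons (.zr (nat_lit 680564733921107530904486321963629806849) (nat_lit 7975428821938306247918464924060352512) (nat_lit 8) (nat_lit 1)) (.cons (.ev (nat_lit 349135025393387959028130399625595295106311) (nat_lit 3)) .nil))) (.cons (.ev (nat_lit 1329248357732171789545198211488022785) (nat_lit 1)) .nil)))) (.cons (.br (nat_lit 16) (nat_lit 1) (.cons (.br (nat_lit 17) (nat_lit 1) (.cons (.ev (nat_lit 340287579500517295896761547126229434368) (nat_lit 1)) (.cons (.ev (nat_lit 176266266085725917270808348610967332062977) (nat_lit 3)) .nil))) (.cons (.br (nat_lit 15) (nat_lit 1) (.cons (.zr (nat_lit 680564835333155530273372511320750031104) (nat_lit 2658455992807771840577341817549225987)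 (nat_lit 8) (nat_lit 8)) (.cons (.zr (nat_lit 680564733842498314816621993521154360067) (nat_lit 5316973068052966711785996845548830720) (nat_lit 8) (nat_lit 1)) .nil))) (.cons (.ev (nat_lit 87112285952042965740026276557189837488385) (nat_lit 1)) .nil)))) (.cons (.br (nat_lit 14) (nat_lit 1) (.cons (.rf (nat_lit 1012) (nat_lit 677582165103132179601393696)) (.cons (.br (nat_lit 14) (nat_lit 1) (.cons (.rf (nat_lit 1012) (nat_lit 677582165103132179601393696)) .nil)) .nil))) .nil))))) .nil)))))) .nil))))))) .nil))))))) .nil))))))) .nil))))))) .nil)) .nil)))]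

theorem c42 : chkAll C T R L42 (nat_lit 975) = true := by decide +kernel

theorem l42 : (nat_lit 975) + L42.length = (nat_lit 1014) := by decide +kernel

/-- part of the certificates -/
def L43 : List Prf := [(.br (nat_lit 17) (nat_lit 1) (.cons (.ev (nat_lit 87112291144339514785121645201049968967936) (nat_lit 1)) (.cons (.rf (nat_lit 720) (nat_lit 586217110979146162411588)) .nil))),
 (.br (nat_lit 14) (nat_lit 1) (.cons (.br (nat_lit 15) (nat_lit 1) (.cons (.ev (nat_lit 340287559217796998291003139031920803841) (nat_lit 1)) (.cons (.rf (nat_lit 810) (nat_lit 661701183358440156956868)) .nil))) (.cons (.rf (nat_lit 1014) (nat_lit 677582165103132179601393696)) .nil))),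
 (.br (nat_lit 14) (nat_lit 1) (.cons (.rf (nat_lit 1015) (nat_lit 677582165103132179601393696)) (.cons (.br (nat_lit 16) (nat_lit 1) (.cons (.br (nat_lit 15) (nat_lit 1) (.cons (.ev (nat_lit 2658476353828999968714606239329419523) (nat_lit 2)) .nil)) (.cons (.ev (nat_lit 340287559217796998291003139031920803841) (nat_lit 1)) .nil))) .nil))),
 (.br (nat_lit 6) (nat_lit 1) (.cons (.zr (nat_lit 20520094091194464000781643415553) (nat_lit 14222439680830097851136) (nat_lit 8) (nat_lit 4)) (.cons (.zr (nat_lit 20361637766165935325594555514881) (nat_lit 4777706715090807423744) (nat_lit 8) (nat_lit 4)) (.cons (.ev (nat_lit 309489732187829042193367041) (nat_lit 1)) (.cons (.br (nat_lit 11) (nat_lit 1) (.cons (.kr (nat_lit 4722366482869645213696) (nat_lit 309485009821345068724781056) (nat_lit 9) (nat_lit 0)) (.cons (.kr (nat_lit 309485009821345068724781056) (nat_lit 79228162514264337593543950336) (nat_lit 11) (nat_lit 0)) (.cons (.zr (nat_lit 20520094091194464000781643415553) (nat_lit 618974797349405228256985856) (nat_lit 8) (nat_lit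 4)) (.cons (.br (nat_lit 7) (nat_lit 1) (.cons (.rf (nat_lit 47) (nat_lit 476384482)) (.cons (.br (nat_lit 14) (nat_lit 1) (.cons (.ev (nat_lit 10404955354850006738581477472076035) (nat_lit 2)) (.cons (.ev (nat_lit 10405114430145054909946802009538819) (nat_lit 2)) (.cons (.rf (nat_lit 894) (nat_lit 19423568301936469908581)) .nil)))) (.cons (.br (nat_lit 10) (nat_lit 1) (.cons (.rf (nat_lit 892) (nat_lit 583702656899982761855104)) (.cons (.ev (nat_lit 2658476512285315552510315687126892803) (nat_lit 2)) (.cons (.br (nat_lit 15) (nat_lit 1) (.cons (.rf (nat_lit 68) (nat_lit 18089670708450)) (.cons (.ev (nat_lit 2658476353210020504338950362589430019) (nat_lit 2)) (.cons (.br (nat_lit 14) (nat_lit 1) (.cons (.br (nat_lit 14) (nat_lit 1) (.cons (.ev (nat_lit 1344865734209515034042030421291631361) (nat_lit 2)) .nil)) (.cons (.br (nat_lit 14) (nat_lit 1) (.cons (.ev (nat_lit 1344865734209515034042030421291631361) (nat_lit 2)) .nil)) .nil))) .nil)))) .nil)))) (.cons (.br (nat_lit 10) (nat_lit 1) (.cons (.rf (nat_lit 896) (nat_lit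 19423568301936469908581)) (.cons (.rf (nat_lit 917) (nat_lit 606992174984587188352)) (.cons (.rf (nat_lit 719) (nat_lit 17100431470153673251941)) (.cons (.br (nat_lit 14) (nat_lit 1) (.cons (.rf (nat_lit 1015) (nat_lit 677582165103132179601393696)) (.cons (.rf (nat_lit 1016) (nat_lit 677582165103132179601393696)) (.cons (.br (nat_lit 14) (nat_lit 1) (.cons (.rf (nat_lit 1014) (nat_lit 677582165103132179601393696)) (.cons (.rf (nat_lit 1016) (nat_lit 677582165103132179601393696)) .nil))) .nil)))) .nil))))) .nil))))) .nil))))) .nil))))),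
 (.br (nat_lit 10) (nat_lit 1) (.cons (.ev (nat_lit 10405113811165627427213915155596035) (nat_lit 2)) (.cons (.ev (nat_lit 20521339299085326078143594104577) (nat_lit 3)) (.cons (.rf (nat_lit 935) (nat_lit 19889920604160555305240608)) .nil)))),
 (.br (nat_lit 10) (nat_lit 1) (.cons (.ev (nat_lit 20521339299085326078143594104577) (nat_lit 3)) (.cons (.ev (nat_lit 2658476353207612097289134605374324995) (nat_lit 2)) (.cons (.br (nat_lit 15) (nat_lit 1) (.cons (.rf (nat_lit 68) (nat_lit 18089667439810)) (.cons (.rf (nat_lit 68) (nat_lit 15959136120002)) (.cons (.br (nat_lit 16) (nat_lit 1) (.cons (.br (nat_lit 16) (nat_lit 1) (.cons (.ev (nat_lit 341611594995952750794881168382531535105) (nat_lit 1)) .nil)) (.cons (.rf (nat_lit 947) (nat_lit 675203269525205999466776704)) .nil))) .nil)))) .nil)))),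
 (.br (nat_lit 14) (nat_lit 1) (.cons (.br (nat_lit 15) (nat_lit 1) (.cons (.ev (nat_lit 1363798328631297515181100187109375870721) (nat_lit 3)) (.cons (.zr (nat_lit 2669064246389712225855081805372196608) (nat_lit 3716238061874337037202620417) (nat_lit 24) (nat_lit 0)) .nil))) (.cons (.br (nat_lit 15) (nat_lit 1) (.cons (.zr (nat_lit 2669064246389712225855081805372196608) (nat_lit 3716238061874337037202620417) (nat_lit 24) (nat_lit 0)) (.cons (.ev (nat_lit 348451812588305442878990791186408546502401) (nat_lit 3)) .nil))) .nil))),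
 (.br (nat_lit 14) (nat_lit 1) (.cons (.br (nat_lit 15) (nat_lit 1) (.cons (.ev (nat_lit 88817721796431237955122487949091771056644) (nat_lit 3)) .nil)) .nil)),
 (.br (nat_lit 14) (nat_lit 1) (.cons (.br (nat_lit 15) (nat_lit 1) (.cons (.ev (nat_lit 1363798328631297515181100187109375870721) (nat_lit 3)) (.cons (.rf (nat_lit 542) (nat_lit 20678164405640430192672)) .nil))) (.cons (.br (nat_lit 15) (nat_lit 1) (.cons (.rf (nat_lit 542) (nat_lit 19534466170715998619680)) (.cons (.ev (nat_lit 348451812588305442878990791186408546502401) (nat_lit 3)) .nil))) .nil))),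
 (.br (nat_lit 6) (nat_lit 1) (.cons (.rf (nat_lit 47) (nat_lit 472100035)) (.cons (.rf (nat_lit 47) (nat_lit 472198339)) (.cons (.br (nat_lit 7) (nat_lit 1) (.cons (.zr (nat_lit 20361637770943641479930104119297) (nat_lit 2417851783907400707211520) (nat_lit 8) (nat_lit 13)) (.cons (.ev (nat_lit 5192297168024559816358438994247936) (nat_lit 1)) (.cons (.br (nat_lit 10) (nat_lit 1) (.cons (.ev (nat_lit 5212579577628229933527555171745793) (nat_lit 1)) (.cons (.br (nat_lit 14) (nat_lit 1) (.cons (.ev (nat_lit 20790025686107268577627171577004801) (nat_lit 3)) (.cons (.rf (nat_lit 40) (nat_lit 17942744116291)) .nil))) (.cons (.br (nat_lit 14) (nat_lit 1) (.cons (.rf (nat_lit 68) (nat_lit 18122957597763)) (.cons (.rf (nat_lit 68) (nat_lit 17057708190787)) (.cons (.br (nat_lit 15) (nat_lit 1) (.cons (.br (nat_lit 15) (nat_lit 1) (.cons (.ev (nat_lit 2668861106002385244661427768567791873) (nat_lit 2)) .nil)) (.cons (.br (nat_lit 15) (nat_lit 1) (.cons (.ev (nat_lit 2668861106002385244661427768567791873) (nat_lit 2)) .nil)) .nil)))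 .nil)))) .nil)))) .nil)))) (.cons (.br (nat_lit 7) (nat_lit 1) (.cons (.rf (nat_lit 47) (nat_lit 472198371)) (.cons (.br (nat_lit 10) (nat_lit 1) (.cons (.ev (nat_lit 10405114432553461959762559224643843) (nat_lit 2)) (.cons (.br (nat_lit 14) (nat_lit 1) (.cons (.ev (nat_lit 5192297790626097947294397099933697) (nat_lit 2)) (.cons (.rf (nat_lit 40) (nat_lit 17943817825347)) .nil))) (.cons (.br (nat_lit 14) (nat_lit 1) (.cons (.rf (nat_lit 68) (nat_lit 18122956581955)) (.cons (.ev (nat_lit 5192297790626097947294397099933697) (nat_lit 2)) (.cons (.br (nat_lit 15) (nat_lit 1) (.cons (.br (nat_lit 15) (nat_lit 1) (.cons (.ev (nat_lit 2668861106002385244661427768567791873) (nat_lit 2)) .nil)) (.cons (.br (nat_lit 15) (nat_lit 1) (.cons (.ev (nat_lit 2668861106002385244661427768567791873) (nat_lit 2)) .nil)) .nil))) .nil)))) .nil)))) (.cons (.br (nat_lit 10) (nat_lit 1) (.cons (.br (nat_lit 14) (nat_lit 1) (.cons (.ev (nat_lit 5192535475118363106790047376998401) (nat_lit 2)) (.cons (.rf (nat_lit 40) (nat_lit 17843959835715))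 .nil))) (.cons (.ev (nat_lit 2658476353207612097289134605374324995) (nat_lit 2)) (.cons (.rf (nat_lit 954) (nat_lit 18755368702697655095363712)) .nil)))) (.cons (.br (nat_lit 10) (nat_lit 1) (.cons (.br (nat_lit 14) (nat_lit 1) (.cons (.rf (nat_lit 68) (nat_lit 18122856016963)) (.cons (.ev (nat_lit 5192535475118363106790047376998401) (nat_lit 2)) (.cons (.br (nat_lit 15) (nat_lit 1) (.cons (.br (nat_lit 15) (nat_lit 1) (.cons (.ev (nat_lit 2668860947546069660865718320770318593) (nat_lit 2)) .nil)) (.cons (.br (nat_lit 15) (nat_lit 1) (.cons (.ev (nat_lit 2668860947546069660865718320770318593) (nat_lit 2)) .nil)) .nil))) .nil)))) (.cons (.rf (nat_lit 989) (nat_lit 19926515770593312203016320)) (.cons (.br (nat_lit 16) (nat_lit 1) (.cons (.rf (nat_lit 68) (nat_lit 16991094385891)) (.cons (.rf (nat_lit 68) (nat_lit 15925812473059)) (.cons (.br (nat_lit 14) (nat_lit 1) (.cons (.rf (nat_lit 1021) (nat_lit 677582165103132179601393696)) (.cons (.br (nat_lit 14) (nat_lit 1) (.cons (.rf (nat_lit 1021) (nat_lit 677582165103132179601393696))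 .nil)) .nil))) .nil)))) (.cons (.br (nat_lit 14) (nat_lit 1) (.cons (.rf (nat_lit 1022) (nat_lit 677582165103132179601393696)) (.cons (.br (nat_lit 14) (nat_lit 1) (.cons (.rf (nat_lit 1022) (nat_lit 677582165103132179601393696)) (.cons (.ev (nat_lit 10404955976237878164053111427170563) (nat_lit 2)) .nil))) (.cons (.br (nat_lit 14) (nat_lit 1) (.cons (.rf (nat_lit 1022) (nat_lit 677582165103132179601393696)) (.cons (.ev (nat_lit 10404955976237878164053111427170563) (nat_lit 2)) .nil))) .nil)))) .nil))))) .nil))))) .nil))))),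
 (.br (nat_lit 11) (nat_lit 1) (.cons (.br (nat_lit 13) (nat_lit 1) (.cons (.ev (nat_lit 20282719088661491770119799439361) (nat_lit 1)) .nil)) .nil)),
 (.br (nat_lit 12) (nat_lit 1) (.cons (.rf (nat_lit 68) (nat_lit 14684696911107)) (.cons (.rf (nat_lit 68) (nat_lit 12554263108867)) (.cons (.br (nat_lit 11) (nat_lit 1) (.cons (.rf (nat_lit 1024) (nat_lit 17022140995484340291616)) (.cons (.br (nat_lit 11) (nat_lit 1) (.cons (.rf (nat_lit 1024) (nat_lit 17022140995484340291616)) .nil)) .nil))) .nil)))),
 (.br (nat_lit 15) (nat_lit 1) (.cons (.zr (nat_lit 680564754124905505338875555891659276545) (nat_lit 2658456070800412111855299471949692928) (nat_lit 8) (nat_lit 1)) .nil)),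
 (.br (nat_lit 14) (nat_lit 1) (.cons (.ev (nat_lit 5192376396182370161239806812684288) (nat_lit 1)) (.cons (.br (nat_lit 17) (nat_lit 1) (.cons (.ev (nat_lit 174227240724626495678455566381745109598467) (nat_lit 2)) (.cons (.rf (nat_lit 810) (nat_lit 622815559410131506695233)) .nil))) .nil))),
 (.br (nat_lit 14) (nat_lit 1) (.cons (.ev (nat_lit 5192376396182370161239806812684288) (nat_lit 1)) (.cons (.rf (nat_lit 986) (nat_lit 676411014753340648584317056)) .nil))),
 (.br (nat_lit 6) (nat_lit 1) (.cons (.rf (nat_lit 47) (nat_lit 472194243)) (.cons (.br (nat_lit 14) (nat_lit 1) (.cons (.ev (nat_lit 31174618157954994999812183212556547) (nat_lit 3)) (.cons (.ev (nat_lit 31174460320599986113827133574217987) (nat_lit 3)) (.cons (.br (nat_lit 10) (nat_lit 1) (.cons (.rf (nat_lit 40) (nat_lit 17977103948867)) (.cons (.rf (nat_lit 68) (nat_lit 17057842404419)) (.cons (.br (nat_lit 15) (nat_lit 1) (.cons (.br (nat_lit 15) (nat_lit 1) (.cons (.ev (nat_lit 2668861106002385244661427768567791873) (nat_lit 2)) .nil)) (.cons (.br (nat_lit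 15) (nat_lit 1) (.cons (.ev (nat_lit 2668861106002385244661427768567791873) (nat_lit 2)) .nil)) .nil))) .nil)))) .nil)))) (.cons (.br (nat_lit 10) (nat_lit 1) (.cons (.rf (nat_lit 771) (nat_lit 17809880764436778029)) (.cons (.ev (nat_lit 1329228075014287331506562050258108416) (nat_lit 1)) (.cons (.rf (nat_lit 719) (nat_lit 17136023272769131293929)) .nil)))) (.cons (.br (nat_lit 10) (nat_lit 1) (.cons (.rf (nat_lit 719) (nat_lit 18315755022887772391521)) (.cons (.rf (nat_lit 1025) (nat_lit 608109071055204747296)) (.cons (.br (nat_lit 16) (nat_lit 1) (.cons (.rf (nat_lit 68) (nat_lit 16991262153923)) (.cons (.ev (nat_lit 680564754204133667853140459746509193475) (nat_lit 2)) (.cons (.br (nat_lit 14) (nat_lit 1) (.cons (.rf (nat_lit 1026) (nat_lit 677582165103132179601393696)) (.cons (.br (nat_lit 14) (nat_lit 1) (.cons (.rf (nat_lit 1026) (nat_lit 677582165103132179601393696)) .nil)) .nil))) .nil)))) (.cons (.br (nat_lit 14) (nat_lit 1) (.cons (.rf (nat_lit 1027) (nat_lit 677582165103132179601393696)) (.cons (.rf (nat_lit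 1028) (nat_lit 677582165103132179601393696)) (.cons (.br (nat_lit 14) (nat_lit 1) (.cons (.rf (nat_lit 1027) (nat_lit 677582165103132179601393696)) (.cons (.rf (nat_lit 986) (nat_lit 676411014753340648584317056)) .nil))) .nil)))) .nil))))) .nil))))),
 (.br (nat_lit 15) (nat_lit 1) (.cons (.zr (nat_lit 680564754124905514783608521630949703937) (nat_lit 2658456229256737140383974659037593600) (nat_lit 8) (nat_lit 1)) .nil)),
 (.br (nat_lit 14) (nat_lit 1) (.cons (.ev (nat_lit 5192297168024578263385082913947648) (nat_lit 1)) (.cons (.br (nat_lit 17) (nat_lit 1) (.cons (.ev (nat_lit 174227240724626495678455566381745109598467) (nat_lit 2)) (.cons (.rf (nat_lit 746) (nat_lit 587360916208680020641889)) .nil))) .nil))),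
 (.br (nat_lit 14) (nat_lit 1) (.cons (.ev (nat_lit 5192297168024578263385082913947648) (nat_lit 1)) (.cons (.br (nat_lit 15) (nat_lit 1) (.cons (.rf (nat_lit 744) (nat_lit 587360916208680020641889)) (.cons (.zr (nat_lit 10384594336039730239986649771540483) (nat_lit 174224571883882131064136100812430046658816) (nat_lit 8) (nat_lit 13)) .nil))) .nil))),
 (.br (nat_lit 6) (nat_lit 1) (.cons (.rf (nat_lit 47) (nat_lit 472099011)) (.cons (.br (nat_lit 14) (nat_lit 1) (.cons (.ev (nat_lit 31174618157954994999812183212556547) (nat_lit 3)) (.cons (.ev (nat_lit 31174618776953348841399538533400835) (nat_lit 3)) (.cons (.br (nat_lit 7) (nat_lit 1) (.cons (.rf (nat_lit 40) (nat_lit 17977103853635)) (.cons (.rf (nat_lit 68) (nat_lit 17057839261763)) (.cons (.br (nat_lit 15) (nat_lit 1) (.cons (.br (nat_lit 15) (nat_lit 1) (.cons (.ev (nat_lit 2668860947546069660865718320770318593) (nat_lit 2)) .nil)) (.cons (.br (nat_lit 15) (nat_lit 1) (.cons (.ev (nat_lit 2668860947546069660865718320770318593) (nat_lit 2)) .nil)) .nil))) .nil))))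 .nil)))) (.cons (.br (nat_lit 7) (nat_lit 1) (.cons (.br (nat_lit 14) (nat_lit 1) (.cons (.ev (nat_lit 5192296858534846075557144543952896) (nat_lit 1)) (.cons (.rf (nat_lit 40) (nat_lit 17978177562691)) .nil))) (.cons (.ev (nat_lit 1329227995786129539608707326359371776) (nat_lit 1)) (.cons (.rf (nat_lit 786) (nat_lit 19459453155457764591713)) .nil)))) (.cons (.br (nat_lit 7) (nat_lit 1) (.cons (.rf (nat_lit 786) (nat_lit 18244013658285436967240)) (.cons (.rf (nat_lit 917) (nat_lit 535496399361959860493)) (.cons (.br (nat_lit 16) (nat_lit 1) (.cons (.rf (nat_lit 68) (nat_lit 16991262058691)) (.cons (.ev (nat_lit 680564754362590002326402100672887521539) (nat_lit 2)) (.cons (.br (nat_lit 14) (nat_lit 1) (.cons (.rf (nat_lit 1030) (nat_lit 677582165103132179601393696)) (.cons (.br (nat_lit 14) (nat_lit 1) (.cons (.rf (nat_lit 1030) (nat_lit 677582165103132179601393696)) .nil)) .nil))) .nil)))) (.cons (.br (nat_lit 14) (nat_lit 1) (.cons (.rf (nat_lit 1031) (nat_lit 677582165103132179601393696)) (.cons (.rf (nat_lit 1032)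 (nat_lit 677582165103132179601393696)) (.cons (.br (nat_lit 14) (nat_lit 1) (.cons (.rf (nat_lit 1031) (nat_lit 677582165103132179601393696)) (.cons (.rf (nat_lit 1032) (nat_lit 677582165103132179601393696)) .nil))) .nil)))) .nil))))) .nil))))),
 (.br (nat_lit 15) (nat_lit 1) (.cons (.ev (nat_lit 20362256740963284170071848648961) (nat_lit 2)) (.cons (.ev (nat_lit 680564754362590002326402100672887521539) (nat_lit 2)) (.cons (.ev (nat_lit 1329248278505213478734274947683713025) (nat_lit 1)) .nil))))]

theorem c43 : chkAll C T R L43 (nat_lit 1014) = true := by decide +kernel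

theorem l43 : (nat_lit 1014) + L43.length = (nat_lit 1035) := by decide +kernel

/-- part of the certificates -/
def L44 : List Prf := [(.br (nat_lit 6) (nat_lit 1) (.cons (.rf (nat_lit 1033) (nat_lit 583702656899982761855104)) (.cons (.rf (nat_lit 1029) (nat_lit 583702656899982761855104)) (.cons (.ev (nat_lit 5212658496305734376520079990915073) (nat_lit 1)) (.cons (.br (nat_lit 14) (nat_lit 1) (.cons (.ev (nat_lit 31174618776953311948476531467485955) (nat_lit 3)) (.cons (.ev (nat_lit 31174143407968781629485230913356547) (nat_lit 3)) (.cons (.ev (nat_lit 31174619395913886858200929626620675) (nat_lit 3)) (.cons (.br (nat_lit 7) (nat_lit 1) (.cons (.rf (nat_lit 40) (nat_lit 17973882595399)) (.cons (.rf (nat_lit 102) (nat_lit 17939476888806)) (.cons (.br (nat_lit 10) (nat_lit 1) (.cons (.ev (nat_lit 2668860947546069660865718320770318593) (nat_lit 2)) (.cons (.ev (nat_lit 340287579579744249466759527116400754688) (nat_lit 1)) (.cons (.br (nat_lit 15) (nat_lit 1) (.cons (.ev (nat_lit 340287559297025165546080983939972858113)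 (nat_lit 1)) (.cons (.ev (nat_lit 2668861105383424669751703370408657153) (nat_lit 2)) .nil))) .nil)))) (.cons (.br (nat_lit 10) (nat_lit 1) (.cons (.rf (nat_lit 102) (nat_lit 17836397673798)) (.cons (.br (nat_lit 15) (nat_lit 1) (.cons (.ev (nat_lit 340287559217796998309450163476783694081) (nat_lit 1)) (.cons (.ev (nat_lit 2668861105383424669751703370408657153) (nat_lit 2)) .nil))) (.cons (.br (nat_lit 15) (nat_lit 1) (.cons (.ev (nat_lit 2668861105383424669751703370408657153) (nat_lit 2)) (.cons (.ev (nat_lit 87113615159835260933955406063483425456385) (nat_lit 1)) .nil))) .nil)))) .nil))))) .nil))))) (.cons (.br (nat_lit 7) (nat_lit 1) (.cons (.rf (nat_lit 910) (nat_lit 621544957786334857235629)) (.cons (.br (nat_lit 10) (nat_lit 1) (.cons (.rf (nat_lit 119) (nat_lit 18119605336162)) (.cons (.rf (nat_lit 119) (nat_lit 17053543282786)) (.cons (.br (nat_lit 15) (nat_lit 1) (.cons (.br (nat_lit 15) (nat_lit 1) (.cons (.ev (nat_lit 1329248278505213478734274947683713025) (nat_lit 1)) .nil)) (.cons (.br (nat_lit 15) (nat_lit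 1) (.cons (.ev (nat_lit 1329248278505213478734274947683713025) (nat_lit 1)) .nil)) .nil))) .nil)))) (.cons (.br (nat_lit 10) (nat_lit 1) (.cons (.rf (nat_lit 119) (nat_lit 18119602288738)) (.cons (.rf (nat_lit 119) (nat_lit 18076647406919)) (.cons (.br (nat_lit 15) (nat_lit 1) (.cons (.ev (nat_lit 1329228075014287313060098356325384448) (nat_lit 1)) (.cons (.ev (nat_lit 680564754204133667853140459746509193475) (nat_lit 2)) (.cons (.br (nat_lit 16) (nat_lit 1) (.cons (.ev (nat_lit 340282367079394797955083839068728000513) (nat_lit 2)) (.cons (.ev (nat_lit 341611594995952750794881168382531535105) (nat_lit 1)) .nil))) .nil)))) (.cons (.br (nat_lit 14) (nat_lit 1) (.cons (.rf (nat_lit 130) (nat_lit 17942602823778)) (.cons (.br (nat_lit 15) (nat_lit 1) (.cons (.ev (nat_lit 340282367159551415498812211868446294017) (nat_lit 2)) (.cons (.ev (nat_lit 5327317413868333806027592115333497607) (nat_lit 3)) .nil))) (.cons (.rf (nat_lit 979) (nat_lit 20642426056643851683872)) .nil)))) .nil))))) (.cons (.br (nat_lit 16) (nat_lit 1) (.cons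 (.ev (nat_lit 680564754203514707278230735348350058755) (nat_lit 2)) (.cons (.ev (nat_lit 340282367158622955746981693792626737153) (nat_lit 2)) (.cons (.ev (nat_lit 680564754362590002326402100672887521539) (nat_lit 2)) (.cons (.br (nat_lit 10) (nat_lit 1) (.cons (.rf (nat_lit 102) (nat_lit 19077714491490)) (.cons (.br (nat_lit 15) (nat_lit 1) (.cons (.ev (nat_lit 1329227995786129521162243632426647808) (nat_lit 1)) (.cons (.ev (nat_lit 341611594995952750794881168382531535105) (nat_lit 1)) .nil))) (.cons (.br (nat_lit 14) (nat_lit 1) (.cons (.rf (nat_lit 1034) (nat_lit 677582165103132179601393696)) (.cons (.ev (nat_lit 87112291144418742952339829560018215108608) (nat_lit 1)) .nil))) .nil)))) .nil))))) (.cons (.br (nat_lit 10) (nat_lit 1) (.cons (.br (nat_lit 15) (nat_lit 1) (.cons (.rf (nat_lit 1034) (nat_lit 675166671185104497070508160)) (.cons (.br (nat_lit 15) (nat_lit 1) (.cons (.ev (nat_lit 1329248278505213478734274947683713025) (nat_lit 1)) .nil)) .nil))) (.cons (.br (nat_lit 14) (nat_lit 1) (.cons (.rf (nat_lit 130)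 (nat_lit 17839526754402)) (.cons (.br (nat_lit 15) (nat_lit 1) (.cons (.ev (nat_lit 340282367159551415498812211868446294017) (nat_lit 2)) (.cons (.ev (nat_lit 5327317096955664859504310262576841479) (nat_lit 3)) .nil))) (.cons (.br (nat_lit 17) (nat_lit 1) (.cons (.ev (nat_lit 174227240724626495678455566381745109598467) (nat_lit 2)) (.cons (.ev (nat_lit 87112291144339514785103198739555025944576) (nat_lit 1)) .nil))) .nil)))) (.cons (.br (nat_lit 16) (nat_lit 1) (.cons (.ev (nat_lit 340282367079394797955083839068728000513) (nat_lit 2)) (.cons (.ev (nat_lit 680564754204133667853140459746509193475) (nat_lit 2)) (.cons (.br (nat_lit 14) (nat_lit 1) (.cons (.br (nat_lit 15) (nat_lit 1) (.cons (.ev (nat_lit 1329248278505213478734274947683713025) (nat_lit 1)) .nil)) (.cons (.ev (nat_lit 87112291144339514785103198739555025944576) (nat_lit 1)) .nil))) .nil)))) (.cons (.br (nat_lit 14) (nat_lit 1) (.cons (.br (nat_lit 15) (nat_lit 1) (.cons (.ev (nat_lit 1329248278505213478734274947683713025) (nat_lit 1)) (.cons (.ev (nat_lit 174227240724626495678455566381745109598467)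 (nat_lit 2)) .nil))) (.cons (.br (nat_lit 16) (nat_lit 1) (.cons (.ev (nat_lit 340282367159551415498812211868446294017) (nat_lit 2)) (.cons (.ev (nat_lit 349810304369342898395380989179445978989319) (nat_lit 3)) .nil))) (.cons (.rf (nat_lit 130) (nat_lit 17976929073250)) .nil)))) .nil))))) .nil)))))) .nil)))))),
 (.br (nat_lit 7) (nat_lit 1) (.cons (.ev (nat_lit 79228162532783140365098090496) (nat_lit 1)) (.cons (.rf (nat_lit 119) (nat_lit 14676138405985)) .nil))),
 (.br (nat_lit 12) (nat_lit 1) (.cons (.kr (nat_lit 20282410817299856802921047916800) (nat_lit 79537647542532427835489976320) (nat_lit 1) (nat_lit 0)) .nil)),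
 (.br (nat_lit 9) (nat_lit 1) (.cons (.rf (nat_lit 119) (nat_lit 15815346042018)) (.cons (.rf (nat_lit 119) (nat_lit 13684879733922)) (.cons (.br (nat_lit 12) (nat_lit 1) (.cons (.rf (nat_lit 1037) (nat_lit 583706118939841765935136)) (.cons (.rf (nat_lit 1037) (nat_lit 547107670508856421651491)) .nil))) .nil)))),
 (.br (nat_lit 14) (nat_lit 1) (.cons (.br (nat_lit 16) (nat_lit 1) (.cons (.ev (nat_lit 87113615180117670537607076768905636675840) (nat_lit 1)) .nil)) .nil)),
 (.br (nat_lit 14) (nat_lit 1) (.cons (.br (nat_lit 16) (nat_lit 1) (.cons (.ev (nat_lit 87113615180117670537607076768905636675840) (nat_lit 1)) .nil)) .nil)),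
 (.br (nat_lit 14) (nat_lit 1) (.cons (.br (nat_lit 16) (nat_lit 1) (.cons (.ev (nat_lit 87113615159756032776145061747264583696385) (nat_lit 1)) .nil)) .nil)),
 (.br (nat_lit 6) (nat_lit 1) (.cons (.rf (nat_lit 1033) (nat_lit 583702656899982761855104)) (.cons (.rf (nat_lit 1029) (nat_lit 583702656899982761855104)) (.cons (.rf (nat_lit 1035) (nat_lit 583702656899982761855104)) (.cons (.br (nat_lit 7) (nat_lit 1) (.cons (.ev (nat_lit 1329228075323777063694389988628103168) (nat_lit 1)) (.cons (.rf (nat_lit 1036) (nat_lit 17813297086787163234)) (.cons (.rf (nat_lit 1038) (nat_lit 19459454247239492439105)) .nil)))) (.cons (.br (nat_lit 7) (nat_lit 1) (.cons (.br (nat_lit 15) (nat_lit 1) (.cons (.rf (nat_lit 68) (nat_lit 18089532303463)) (.cons (.ev (nat_lit 7975388653886149331634898957810794759) (nat_lit 3)) (.cons (.br (nat_lit 14) (nat_lit 1) (.cons (.rf (nat_lit 1039) (nat_lit 677582165103132179601393696)) (.cons (.br (nat_lit 14) (nat_lit 1) (.cons (.rf (nat_lit 1039) (nat_lit 677582165103132179601393696)) .nil)) .nil)))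 .nil)))) (.cons (.br (nat_lit 14) (nat_lit 1) (.cons (.rf (nat_lit 119) (nat_lit 18119598094562)) (.cons (.rf (nat_lit 130) (nat_lit 17942598629602)) (.cons (.ev (nat_lit 5192376396182370161239806812684288) (nat_lit 1)) (.cons (.br (nat_lit 10) (nat_lit 1) (.cons (.rf (nat_lit 102) (nat_lit 18905844530499)) (.cons (.br (nat_lit 15) (nat_lit 1) (.cons (.ev (nat_lit 680564754204133667853140459746509193475) (nat_lit 2)) (.cons (.br (nat_lit 16) (nat_lit 1) (.cons (.zr (nat_lit 680564754124286554208698797232790569217) (nat_lit 2658456071419382131497989609399255040) (nat_lit 8) (nat_lit 1)) .nil)) .nil))) (.cons (.br (nat_lit 15) (nat_lit 1) (.cons (.rf (nat_lit 914) (nat_lit 637652886870936693396315437)) (.cons (.ev (nat_lit 174227240724626495678455566381745109598467) (nat_lit 2)) .nil))) .nil)))) .nil))))) (.cons (.br (nat_lit 10) (nat_lit 1) (.cons (.rf (nat_lit 119) (nat_lit 18084163599587)) (.cons (.ev (nat_lit 7975388496048794322748913908172456199) (nat_lit 3)) (.cons (.br (nat_lit 14) (nat_lit 1) (.cons (.rf (nat_lit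 1040) (nat_lit 677582165103132179601393696)) (.cons (.br (nat_lit 14) (nat_lit 1) (.cons (.rf (nat_lit 1040) (nat_lit 677582165103132179601393696)) .nil)) .nil))) .nil)))) (.cons (.br (nat_lit 10) (nat_lit 1) (.cons (.br (nat_lit 15) (nat_lit 1) (.cons (.zr (nat_lit 2658476273981857971627865396767359235) (nat_lit 79847132552354338053191630848) (nat_lit 8) (nat_lit 0)) (.cons (.ev (nat_lit 680564754362590002326402100672887521539) (nat_lit 2)) (.cons (.br (nat_lit 16) (nat_lit 1) (.cons (.ev (nat_lit 5192297168024578263385082913947648) (nat_lit 1)) (.cons (.zr (nat_lit 680564754203514707278230169087044092161) (nat_lit 2658455992191219617233652015855304704) (nat_lit 8) (nat_lit 1)) .nil))) .nil)))) (.cons (.ev (nat_lit 7975388654505109906544623355969929479) (nat_lit 3)) (.cons (.ev (nat_lit 680564754203514707278230735348350058755) (nat_lit 2)) (.cons (.br (nat_lit 15) (nat_lit 1) (.cons (.br (nat_lit 16) (nat_lit 1) (.cons (.ev (nat_lit 5192376086702082706377607733116928) (nat_lit 1)) (.cons (.zr (nat_lit 680564754203514707278230169087044092161)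 (nat_lit 2658455992191219617233652015855304704) (nat_lit 8) (nat_lit 1)) .nil))) (.cons (.ev (nat_lit 680564754362590002326402100672887521539) (nat_lit 2)) (.cons (.br (nat_lit 14) (nat_lit 1) (.cons (.rf (nat_lit 906) (nat_lit 659378013707068234570853)) (.cons (.zr (nat_lit 348449143787967443574131973631129130369793) (nat_lit 2658455992191219672573882025076064256) (nat_lit 8) (nat_lit 0)) .nil))) .nil)))) .nil))))) (.cons (.br (nat_lit 10) (nat_lit 1) (.cons (.br (nat_lit 14) (nat_lit 1) (.cons (.rf (nat_lit 130) (nat_lit 17839519414594)) (.cons (.ev (nat_lit 5192297168024578263385082913947648) (nat_lit 1)) (.cons (.br (nat_lit 15) (nat_lit 1) (.cons (.rf (nat_lit 874) (nat_lit 661701295917511241501761)) (.cons (.ev (nat_lit 174227240724626495678455566381745109598467) (nat_lit 2)) .nil))) .nil)))) (.cons (.br (nat_lit 14) (nat_lit 1) (.cons (.rf (nat_lit 1041) (nat_lit 677582165103132179601393696)) (.cons (.br (nat_lit 14) (nat_lit 1) (.cons (.rf (nat_lit 1041) (nat_lit 677582165103132179601393696)) .nil)) .nil))) (.cons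 (.br (nat_lit 15) (nat_lit 1) (.cons (.br (nat_lit 16) (nat_lit 1) (.cons (.ev (nat_lit 5192376086702082706377607733116928) (nat_lit 1)) (.cons (.zr (nat_lit 680564754124286554208698797232790569217) (nat_lit 2658456071419382131497989609399255040) (nat_lit 8) (nat_lit 1)) .nil))) (.cons (.ev (nat_lit 680564754204133667853140459746509193475) (nat_lit 2)) (.cons (.br (nat_lit 14) (nat_lit 1) (.cons (.rf (nat_lit 907) (nat_lit 659378013707068234570853)) (.cons (.zr (nat_lit 348449143788284356210021931532894370530049) (nat_lit 2658455992191224394940364894721277952) (nat_lit 8) (nat_lit 0)) .nil))) .nil)))) (.cons (.br (nat_lit 15) (nat_lit 1) (.cons (.br (nat_lit 14) (nat_lit 1) (.cons (.ev (nat_lit 5192376086702082706377607733116928) (nat_lit 1)) (.cons (.ev (nat_lit 174227240724626495678455566381745109598467) (nat_lit 2)) .nil))) (.cons (.br (nat_lit 14) (nat_lit 1) (.cons (.rf (nat_lit 829) (nat_lit 549582839845996138470761)) (.cons (.zr (nat_lit 348449143787968062529984516872657644290817) (nat_lit 2658455991572254375297674757271715840)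 (nat_lit 8) (nat_lit 0)) .nil))) (.cons (.rf (nat_lit 130) (nat_lit 15601812159843)) .nil)))) .nil))))) .nil)))))) .nil)))))),
 (.br (nat_lit 15) (nat_lit 1) (.cons (.ev (nat_lit 87452573511260762738317207637519602089985) (nat_lit 1)) .nil)),
 (.br (nat_lit 14) (nat_lit 1) (.cons (.ev (nat_lit 20282720297587383442342995362048) (nat_lit 1)) (.cons (.rf (nat_lit 829) (nat_lit 620344810342961028138048)) .nil))),
 (.br (nat_lit 13) (nat_lit 1) (.cons (.br (nat_lit 14) (nat_lit 1) (.cons (.ev (nat_lit 341627232813297241034933561971114574336) (nat_lit 2)) .nil)) .nil)),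
 (.br (nat_lit 14) (nat_lit 1) (.cons (.ev (nat_lit 5192296858534846075557144543952896) (nat_lit 1)) (.cons (.ev (nat_lit 5192376396182370161239806812684288) (nat_lit 1)) (.cons (.br (nat_lit 17) (nat_lit 1) (.cons (.ev (nat_lit 174905136617724008000526029738214684754689) (nat_lit 2)) (.cons (.ev (nat_lit 174905136617883083295574201103539222217473) (nat_lit 2)) .nil))) .nil)))),
 (.br (nat_lit 10) (nat_lit 1) (.cons (.rf (nat_lit 1046) (nat_lit 677582161641092320597313664)) (.cons (.ev (nat_lit 1329248357733380715365095410872877057) (nat_lit 1)) (.cons (.br (nat_lit 17) (nat_lit 1) (.cons (.ev (nat_lit 174905136617724008000526029738214684754689) (nat_lit 2)) (.cons (.ev (nat_lit 1329248278195733191279412748604145665) (nat_lit 1)) .nil))) .nil)))),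
 (.br (nat_lit 16) (nat_lit 1) (.cons (.ev (nat_lit 340292812600187815821624835879808860672) (nat_lit 2)) (.cons (.ev (nat_lit 340292812520959639140261049677329269248) (nat_lit 2)) (.cons (.ev (nat_lit 340292812599878316644704042202148438528) (nat_lit 2)) (.cons (.ev (nat_lit 340287559297334645833535846139052425473) (nat_lit 1)) .nil))))),
 (.br (nat_lit 14) (nat_lit 1) (.cons (.rf (nat_lit 1048) (nat_lit 677582165103132179601393696)) (.cons (.ev (nat_lit 5212579268138479299235922869027073) (nat_lit 1)) .nil))),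
 (.br (nat_lit 15) (nat_lit 1) (.cons (.ev (nat_lit 1329248278505213478734274947683713025) (nat_lit 1)) .nil)),
 (.br (nat_lit 16) (nat_lit 1) (.cons (.ev (nat_lit 340292771797065136825642326796141658114) (nat_lit 2)) (.cons (.ev (nat_lit 340292771877221754369370699595859951618) (nat_lit 2)) (.cons (.ev (nat_lit 340287579500206601942673844454132023296) (nat_lit 1)) .nil)))),
 (.br (nat_lit 17) (nat_lit 1) (.cons (.ev (nat_lit 87112296377438877019499327613600429835008) (nat_lit 2)) (.cons (.ev (nat_lit 87112296377202120986985998636025972327168) (nat_lit 2)) (.cons (.ev (nat_lit 87112291124057105181451528034132814725121) (nat_lit 1)) .nil)))),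
 (.br (nat_lit 10) (nat_lit 1) (.cons (.br (nat_lit 15) (nat_lit 1) (.cons (.rf (nat_lit 1050) (nat_lit 677582165103132179601393696)) (.cons (.rf (nat_lit 1050) (nat_lit 640105461233038816181422208)) .nil))) (.cons (.br (nat_lit 14) (nat_lit 1) (.cons (.ev (nat_lit 1334420530638646401478051762073043202) (nat_lit 2)) (.cons (.rf (nat_lit 1051) (nat_lit 677582165103132179601393696)) (.cons (.rf (nat_lit 1052) (nat_lit 677582165103132179601393696)) .nil)))) (.cons (.br (nat_lit 14) (nat_lit 1) (.cons (.br (nat_lit 15) (nat_lit 1) (.cons (.ev (nat_lit 680564754362590002363295023662773568259) (nat_lit 2)) (.cons (.ev (nat_lit 1329228075323777045247926294695379200) (nat_lit 1)) .nil))) (.cons (.ev (nat_lit 340292812520340678565351325279170134528) (nat_lit 2)) (.cons (.rf (nat_lit 1052) (nat_lit 677582165103132179601393696)) .nil)))) (.cons (.br (nat_lit 14) (nat_lit 1) (.cons (.br (nat_lit 15) (nat_lit 1) (.cons (.ev (nat_lit 1329228075323777045247926294695379200) (nat_lit 1)) (.cons (.ev (nat_lit 174224571883882750034174190249948297036035)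 (nat_lit 2)) .nil))) (.cons (.rf (nat_lit 1051) (nat_lit 677582165103132179601393696)) (.cons (.ev (nat_lit 87112296377438877019499327613600429835008) (nat_lit 2)) .nil)))) .nil))))),
 (.br (nat_lit 12) (nat_lit 1) (.cons (.ev (nat_lit 79537647524085964141557252353) (nat_lit 1)) .nil)),
 (.br (nat_lit 14) (nat_lit 1) (.cons (.ev (nat_lit 1334420530638646401478051762073043202) (nat_lit 2)) (.cons (.rf (nat_lit 1048) (nat_lit 677582165103132179601393696)) (.cons (.rf (nat_lit 1048) (nat_lit 640105461233038816181422208)) .nil))))]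

theorem c44 : chkAll C T R L44 (nat_lit 1035) = true := by decide +kernel

theorem l44 : (nat_lit 1035) + L44.length = (nat_lit 1056) := by decide +kernel

/-- part of the certificates -/
def L45 : List Prf := [(.br (nat_lit 10) (nat_lit 1) (.cons (.rf (nat_lit 1053) (nat_lit 640105461233038816181422208)) (.cons (.br (nat_lit 14) (nat_lit 1) (.cons (.rf (nat_lit 1054) (nat_lit 661701331945173280720928)) (.cons (.rf (nat_lit 1054) (nat_lit 625102991699631871821952)) .nil))) (.cons (.br (nat_lit 15) (nat_lit 1) (.cons (.rf (nat_lit 1055) (nat_lit 677582165103132179601393696)) (.cons (.ev (nat_lit 680564754362590002363295023662773568259) (nat_lit 2)) (.cons (.ev (nat_lit 1329248278195733191279412748604145665) (nat_lit 1)) .nil)))) (.cons (.br (nat_lit 15) (nat_lit 1) (.cons (.rf (nat_lit 1055) (nat_lit 677582165103132179601393696)) (.cons (.ev (nat_lit 1329248278195733191279412748604145665) (nat_lit 1)) (.cons (.ev (nat_lit 174224571883882750034174190249948297036035) (nat_lit 2)) .nil)))) .nil))))),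
 (.br (nat_lit 0) (nat_lit 0) (.cons (.rf (nat_lit 765) (nat_lit 14242959524133701664)) (.cons (.rf (nat_lit 765) (nat_lit 10780919665129621632)) (.cons (.rf (nat_lit 831) (nat_lit 14242959524133701664)) (.cons (.rf (nat_lit 831) (nat_lit 10780919665129621632)) (.cons (.br (nat_lit 5) (nat_lit 0) (.cons (.br (nat_lit 9) (nat_lit 0) (.cons (.rf (nat_lit 363) (nat_lit 421352576032)) (.cons (.br (nat_lit 12) (nat_lit 0) (.cons (.br (nat_lit 2) (nat_lit 1) (.cons (.rf (nat_lit 834) (nat_lit 493858305440582043680)) (.cons (.rf (nat_lit 834) (nat_lit 490396265581577963648)) (.cons (.rf (nat_lit 839) (nat_lit 493858305440582043680)) (.cons (.rf (nat_lit 839) (nat_lit 490396265581577963648)) (.cons (.kr (nat_lit 309485009821345068724781057) (nat_lit 20282409603651670423947251351552) (nat_lit 0) (nat_lit 1)) (.cons (.br (nat_lit 11) (nat_lit 1) (.cons (.rf (nat_lit 839) (nat_lit 4690543106368711981)) (.cons (.rf (nat_lit 839) (nat_lit 1228503247364631949)) (.cons (.rf (nat_lit 834) (nat_lit 4690543106368711981)) (.cons (.rf (nat_lit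 834) (nat_lit 1228503247364631949)) (.cons (.br (nat_lit 3) (nat_lit 1) (.cons (.br (nat_lit 7) (nat_lit 1) (.cons (.ev (nat_lit 310698676454186641271095553) (nat_lit 1)) (.cons (.zr (nat_lit 10384594336039693490610396188377861) (nat_lit 20361637780333034211249276452864) (nat_lit 8) (nat_lit 0)) (.cons (.br (nat_lit 10) (nat_lit 1) (.cons (.zr (nat_lit 10384594338457526538981500853944581) (nat_lit 20520094095935277226621191716864) (nat_lit 8) (nat_lit 0)) (.cons (.ev (nat_lit 20520715493288329155444652245249) (nat_lit 2)) (.cons (.rf (nat_lit 841) (nat_lit 622702535911663758051360)) .nil)))) .nil)))) (.cons (.rf (nat_lit 844) (nat_lit 17022140995484340291616)) (.cons (.ev (nat_lit 310698658007443667073171713) (nat_lit 1)) (.cons (.rf (nat_lit 847) (nat_lit 17022140995484340291616)) (.cons (.br (nat_lit 6) (nat_lit 1) (.cons (.ev (nat_lit 79537647542604765809287954433) (nat_lit 1)) (.cons (.rf (nat_lit 844) (nat_lit 17018678955625336211584)) (.cons (.rf (nat_lit 847) (nat_lit 17018678955625336211584)) (.cons (.ev (nat_lit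 20362256740963284733030425559809) (nat_lit 2)) (.cons (.br (nat_lit 7) (nat_lit 1) (.cons (.rf (nat_lit 841) (nat_lit 622692983495245993061677)) (.cons (.rf (nat_lit 847) (nat_lit 16532973233150126959917)) (.cons (.rf (nat_lit 848) (nat_lit 19926519232773908561233952)) (.cons (.rf (nat_lit 850) (nat_lit 19926519232773908561233952)) (.cons (.br (nat_lit 10) (nat_lit 1) (.cons (.rf (nat_lit 846) (nat_lit 19532834521775681612140)) (.cons (.rf (nat_lit 850) (nat_lit 18755368882982377544157312)) (.cons (.rf (nat_lit 848) (nat_lit 18755368882982377544157312)) (.cons (.ev (nat_lit 20520715493288329155444652245249) (nat_lit 2)) .nil))))) .nil)))))) .nil)))))) .nil)))))) (.cons (.br (nat_lit 3) (nat_lit 1) (.cons (.rf (nat_lit 858) (nat_lit 583706118939841765935136)) (.cons (.rf (nat_lit 865) (nat_lit 583706118939841765935136)) (.cons (.rf (nat_lit 872) (nat_lit 583706118939841765935136)) (.cons (.rf (nat_lit 873) (nat_lit 583706118939841765935136)) (.cons (.rf (nat_lit 875) (nat_lit 583706118939841765935136)) (.cons (.br (nat_lit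 6) (nat_lit 1) (.cons (.rf (nat_lit 872) (nat_lit 583702656899982761855104)) (.cons (.rf (nat_lit 865) (nat_lit 583702656899982761855104)) (.cons (.rf (nat_lit 873) (nat_lit 583702656899982761855104)) (.cons (.rf (nat_lit 875) (nat_lit 583702656899982761855104)) (.cons (.br (nat_lit 7) (nat_lit 1) (.cons (.rf (nat_lit 726) (nat_lit 547209046596042209205549)) (.cons (.rf (nat_lit 875) (nat_lit 546618610935267802197293)) (.cons (.rf (nat_lit 873) (nat_lit 546618610935267802197293)) (.cons (.rf (nat_lit 903) (nat_lit 547219648182783429478497)) (.cons (.br (nat_lit 10) (nat_lit 1) (.cons (.rf (nat_lit 875) (nat_lit 546615148895408798117261)) (.cons (.rf (nat_lit 873) (nat_lit 546615148895408798117261)) (.cons (.rf (nat_lit 903) (nat_lit 547219536715494072780996)) (.cons (.kr (nat_lit 79228162514336676662558589184) (nat_lit 1213648186097503131664384) (nat_lit 1) (nat_lit 0)) .nil))))) .nil)))))) (.cons (.br (nat_lit 7) (nat_lit 1) (.cons (.rf (nat_lit 858) (nat_lit 546618610935267802197293)) (.cons (.rf (nat_lit 875) (nat_lit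 546618610935267802197293)) (.cons (.rf (nat_lit 873) (nat_lit 546618610935267802197293)) (.cons (.br (nat_lit 10) (nat_lit 1) (.cons (.rf (nat_lit 875) (nat_lit 546615148895408798117261)) (.cons (.rf (nat_lit 873) (nat_lit 546615148895408798117261)) (.cons (.rf (nat_lit 903) (nat_lit 583802707394557454232809)) (.cons (.kr (nat_lit 79228162514336676662558589184) (nat_lit 1213648186097503131664384) (nat_lit 1) (nat_lit 0)) .nil))))) (.cons (.br (nat_lit 10) (nat_lit 1) (.cons (.rf (nat_lit 875) (nat_lit 546615148895408798117261)) (.cons (.rf (nat_lit 873) (nat_lit 546615148895408798117261)) (.cons (.br (nat_lit 16) (nat_lit 1) (.cons (.rf (nat_lit 876) (nat_lit 677582165103132179601393696)) (.cons (.rf (nat_lit 876) (nat_lit 677545074133087746633575821)) (.cons (.ev (nat_lit 87452568298681185110142614908442670793216) (nat_lit 2)) .nil)))) (.cons (.rf (nat_lit 903) (nat_lit 583839489415415516638540)) .nil))))) .nil)))))) .nil))))))) .nil))))))) .nil))))))) .nil))))))) .nil)) .nil))) (.cons (.rf (nat_lit 931) (nat_lit 493858305440582043680))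 (.cons (.rf (nat_lit 1013) (nat_lit 493858305440582043680)) (.cons (.br (nat_lit 8) (nat_lit 0) (.cons (.rf (nat_lit 1013) (nat_lit 490396265581577963648)) (.cons (.rf (nat_lit 931) (nat_lit 490396265581577963648)) (.cons (.br (nat_lit 9) (nat_lit 0) (.cons (.br (nat_lit 2) (nat_lit 1) (.cons (.rf (nat_lit 1017) (nat_lit 493858305440582043680)) (.cons (.rf (nat_lit 1017) (nat_lit 490396265581577963648)) (.cons (.ev (nat_lit 20361637780388374445673689514241) (nat_lit 2)) (.cons (.ev (nat_lit 20520094095972170155121486987521) (nat_lit 2)) (.cons (.br (nat_lit 3) (nat_lit 1) (.cons (.ev (nat_lit 309489732187829042193367041) (nat_lit 1)) (.cons (.rf (nat_lit 711) (nat_lit 299713824918903909)) (.cons (.rf (nat_lit 738) (nat_lit 445092485129178177)) (.cons (.br (nat_lit 6) (nat_lit 1) (.cons (.rf (nat_lit 47) (nat_lit 473148610)) (.cons (.rf (nat_lit 47) (nat_lit 473246914)) (.cons (.br (nat_lit 7) (nat_lit 1) (.cons (.ev (nat_lit 80160249062216617525107688194) (nat_lit 2)) (.cons (.zr (nat_lit 20870837166645111659254506500129025)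 (nat_lit 618974797349971476745289728) (nat_lit 8) (nat_lit 0)) (.cons (.br (nat_lit 10) (nat_lit 1) (.cons (.zr (nat_lit 20870599482171735965690334803919105) (nat_lit 79847132589247826200644026368) (nat_lit 8) (nat_lit 0)) (.cons (.br (nat_lit 14) (nat_lit 1) (.cons (.ev (nat_lit 20790024443331599512538713891669761) (nat_lit 3)) (.cons (.rf (nat_lit 40) (nat_lit 17942744116322)) .nil))) (.cons (.rf (nat_lit 786) (nat_lit 19423415167583625026921)) .nil)))) .nil)))) (.cons (.br (nat_lit 7) (nat_lit 1) (.cons (.ev (nat_lit 80160249062216617525107688194) (nat_lit 2)) (.cons (.rf (nat_lit 1018) (nat_lit 583706118939841765935136)) (.cons (.rf (nat_lit 1019) (nat_lit 583706118939841765935136)) (.cons (.br (nat_lit 10) (nat_lit 1) (.cons (.rf (nat_lit 1019) (nat_lit 547104316657743011448960)) (.cons (.rf (nat_lit 1018) (nat_lit 547104316657743011448960)) (.cons (.rf (nat_lit 786) (nat_lit 18315756114669500238913)) (.cons (.br (nat_lit 14) (nat_lit 1) (.cons (.rf (nat_lit 1020) (nat_lit 677582165103132179601393696)) (.cons (.br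 (nat_lit 14) (nat_lit 1) (.cons (.rf (nat_lit 1020) (nat_lit 677582165103132179601393696)) (.cons (.ev (nat_lit 10404955976237878164053111427170563) (nat_lit 2)) .nil))) (.cons (.br (nat_lit 14) (nat_lit 1) (.cons (.rf (nat_lit 1020) (nat_lit 677582165103132179601393696)) (.cons (.ev (nat_lit 10404955976237878164053111427170563) (nat_lit 2)) .nil))) .nil)))) .nil))))) .nil))))) .nil))))) .nil))))) (.cons (.br (nat_lit 11) (nat_lit 1) (.cons (.rf (nat_lit 1023) (nat_lit 17022140995484340291616)) (.cons (.rf (nat_lit 1023) (nat_lit 17018678955625336211584)) (.cons (.kr (nat_lit 4722366482869645213696) (nat_lit 309485009821345068724781056) (nat_lit 9) (nat_lit 0)) (.cons (.kr (nat_lit 309485009821345068724781056) (nat_lit 79228162514264337593543950336) (nat_lit 11) (nat_lit 0)) (.cons (.ev (nat_lit 20362256740963284170071848648961) (nat_lit 2)) (.cons (.br (nat_lit 3) (nat_lit 1) (.cons (.ev (nat_lit 20282409603651671268380821684739) (nat_lit 2)) (.cons (.rf (nat_lit 1029) (nat_lit 583706118939841765935136)) (.cons (.rf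 (nat_lit 1033) (nat_lit 583706118939841765935136)) (.cons (.rf (nat_lit 1035) (nat_lit 583706118939841765935136)) (.cons (.rf (nat_lit 1042) (nat_lit 583706118939841765935136)) (.cons (.br (nat_lit 6) (nat_lit 1) (.cons (.rf (nat_lit 1033) (nat_lit 583702656899982761855104)) (.cons (.rf (nat_lit 1029) (nat_lit 583702656899982761855104)) (.cons (.rf (nat_lit 1035) (nat_lit 583702656899982761855104)) (.cons (.rf (nat_lit 1042) (nat_lit 583702656899982761855104)) (.cons (.br (nat_lit 16) (nat_lit 1) (.cons (.rf (nat_lit 913) (nat_lit 17136172036796485508197)) (.cons (.rf (nat_lit 913) (nat_lit 17136060463750980970696)) (.cons (.br (nat_lit 14) (nat_lit 1) (.cons (.ev (nat_lit 2041704606797898280880937627539696780033) (nat_lit 3)) (.cons (.ev (nat_lit 2041704606639441965297141918091899306753) (nat_lit 3)) (.cons (.ev (nat_lit 2041704606799755200384598663691335893761) (nat_lit 3)) (.cons (.br (nat_lit 7) (nat_lit 1) (.cons (.rf (nat_lit 12) (nat_lit 19072289024103)) (.cons (.br (nat_lit 10) (nat_lit 1) (.cons (.ev (nat_lit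 1329248357733380715365095410872877057) (nat_lit 1)) (.cons (.rf (nat_lit 1043) (nat_lit 677582165103132179601393696)) .nil))) (.cons (.br (nat_lit 10) (nat_lit 1) (.cons (.rf (nat_lit 1043) (nat_lit 677582161641092320600459296)) (.cons (.ev (nat_lit 87452573511260453248585019809581232095233) (nat_lit 1)) .nil))) .nil)))) .nil))))) (.cons (.br (nat_lit 7) (nat_lit 1) (.cons (.rf (nat_lit 68) (nat_lit 15925817583719)) (.cons (.br (nat_lit 10) (nat_lit 1) (.cons (.ev (nat_lit 5192296858534846075557144543952896) (nat_lit 1)) (.cons (.ev (nat_lit 2044352678356066686502887669429229192453) (nat_lit 3)) (.cons (.rf (nat_lit 1044) (nat_lit 21174442659472880612543553)) .nil)))) (.cons (.rf (nat_lit 130) (nat_lit 15739112668519)) (.cons (.br (nat_lit 10) (nat_lit 1) (.cons (.rf (nat_lit 1044) (nat_lit 21174442551284135018666052)) (.cons (.rf (nat_lit 130) (nat_lit 15636033453418)) (.cons (.br (nat_lit 17) (nat_lit 1) (.cons (.rf (nat_lit 874) (nat_lit 583858196390805937101925)) (.cons (.ev (nat_lit 87453897526756508887150968499953058447360)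 (nat_lit 1)) .nil))) .nil)))) .nil))))) (.cons (.br (nat_lit 7) (nat_lit 1) (.cons (.br (nat_lit 14) (nat_lit 1) (.cons (.rf (nat_lit 1045) (nat_lit 21174441469360359728056352)) (.cons (.br (nat_lit 14) (nat_lit 1) (.cons (.rf (nat_lit 1045) (nat_lit 21174441469360359728056352)) .nil)) .nil))) (.cons (.rf (nat_lit 1046) (nat_lit 677582165103132179601393696)) (.cons (.rf (nat_lit 1047) (nat_lit 677582165103132179601393696)) (.cons (.br (nat_lit 10) (nat_lit 1) (.cons (.rf (nat_lit 1046) (nat_lit 677582161641092320597313664)) (.cons (.rf (nat_lit 1047) (nat_lit 677582161641092320597313664)) (.cons (.rf (nat_lit 130) (nat_lit 15773610852547)) .nil)))) .nil))))) .nil)))))) (.cons (.br (nat_lit 7) (nat_lit 1) (.cons (.br (nat_lit 14) (nat_lit 1) (.cons (.br (nat_lit 14) (nat_lit 1) (.cons (.rf (nat_lit 1048) (nat_lit 677582165103132179601393696)) (.cons (.rf (nat_lit 1048) (nat_lit 640105461233038816181422208)) .nil))) (.cons (.rf (nat_lit 1049) (nat_lit 677582165103132179601393696)) (.cons (.rf (nat_lit 1049) (nat_lit 640105461233038816181422208))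 .nil)))) (.cons (.rf (nat_lit 1053) (nat_lit 677582165103132179601393696)) (.cons (.rf (nat_lit 1056) (nat_lit 677582165103132179601393696)) (.cons (.br (nat_lit 10) (nat_lit 1) (.cons (.rf (nat_lit 1053) (nat_lit 640105461233038816181422208)) (.cons (.rf (nat_lit 1056) (nat_lit 640105461233038816181422208)) (.cons (.ev (nat_lit 680564754361971022898919367786033578755) (nat_lit 2)) (.cons (.br (nat_lit 15) (nat_lit 1) (.cons (.br (nat_lit 14) (nat_lit 1) (.cons (.ev (nat_lit 340292812600187815821624835879808860672) (nat_lit 2)) (.cons (.ev (nat_lit 87112296377439495998963703269477169824512) (nat_lit 2)) .nil))) (.cons (.ev (nat_lit 680564754204133667890033382736395240195) (nat_lit 2)) (.cons (.ev (nat_lit 174224571883882750034174190249948297036035) (nat_lit 2)) .nil)))) .nil))))) (.cons (.br (nat_lit 10) (nat_lit 1) (.cons (.rf (nat_lit 1053) (nat_lit 640105461233038816181422208)) (.cons (.rf (nat_lit 1056) (nat_lit 640105461233038816181422208)) (.cons (.br (nat_lit 15) (nat_lit 1) (.cons (.br (nat_lit 14) (nat_lit 1)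 (.cons (.ev (nat_lit 340292812520959639140261049677329269248) (nat_lit 2)) (.cons (.ev (nat_lit 87112296377201811506698543773826892759808) (nat_lit 2)) .nil))) (.cons (.ev (nat_lit 680564754362590002363295023662773568259) (nat_lit 2)) (.cons (.ev (nat_lit 174224571884041206368647451890874675364099) (nat_lit 2)) .nil)))) (.cons (.ev (nat_lit 174224571883882131073599280525550137901315) (nat_lit 2)) .nil))))) .nil)))))) .nil))))))) .nil))))))) .nil))))))) .nil))))))) .nil)) .nil)))) .nil))))) .nil)))))),
 (.br (nat_lit 14) (nat_lit 1) (.cons (.ev (nat_lit 10404955357258450537770193996742915) (nat_lit 2)) (.cons (.ev (nat_lit 10404955357267895414851121396581123) (nat_lit 2)) (.cons (.br (nat_lit 11) (nat_lit 1) (.cons (.rf (nat_lit 40) (nat_lit 17981398813890)) (.cons (.rf (nat_lit 68) (nat_lit 17057709362370)) (.cons (.br (nat_lit 15) (nat_lit 1) (.cons (.br (nat_lit 15) (nat_lit 1) (.cons (.ev (nat_lit 1334420292954149358611838821998854145) (nat_lit 1)) .nil)) (.cons (.br (nat_lit 15) (nat_lit 1) (.cons (.ev (nat_lit 1334420292954149358611838821998854145)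 (nat_lit 1)) .nil)) .nil))) .nil)))) .nil)))),
 (.br (nat_lit 14) (nat_lit 1) (.cons (.ev (nat_lit 10404955357267858521925923931029763) (nat_lit 2)) (.cons (.br (nat_lit 15) (nat_lit 1) (.cons (.kr (nat_lit 1329227996094400901171896202714677248) (nat_lit 5192296859748475814627995149139968) (nat_lit 8) (nat_lit 0)) (.cons (.ev (nat_lit 2658476353826572709236462339062104323) (nat_lit 2)) .nil))) .nil))),
 (.br (nat_lit 14) (nat_lit 1) (.cons (.ev (nat_lit 10404955357267858521925923931029763) (nat_lit 2)) (.cons (.br (nat_lit 16) (nat_lit 1) (.cons (.rf (nat_lit 720) (nat_lit 660557489596195655424068)) (.cons (.ev (nat_lit 87452568319042822876253208871505242423296) (nat_lit 1)) .nil))) .nil))),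
 (.br (nat_lit 6) (nat_lit 1) (.cons (.rf (nat_lit 711) (nat_lit 445092485129178177)) (.cons (.zr (nat_lit 60847228815677378599136329400320) (nat_lit 79230580365903567955733512193) (nat_lit 8) (nat_lit 4)) (.cons (.ev (nat_lit 4722366765448445296641) (nat_lit 1)) (.cons (.br (nat_lit 7) (nat_lit 1) (.cons (.ev (nat_lit 18518802771554140161) (nat_lit 1)) (.cons (.zr (nat_lit 237684487542793016092051636483) (nat_lit 20283028578449019829175508402176) (nat_lit 8) (nat_lit 13)) (.cons (.ev (nat_lit 72340172821233921) (nat_lit 1)) (.cons (.br (nat_lit 10) (nat_lit 1) (.cons (.rf (nat_lit 47) (nat_lit 476417346)) (.cons (.rf (nat_lit 1058) (nat_lit 583706118939841765935136)) (.cons (.br (nat_lit 11) (nat_lit 1) (.cons (.br (nat_lit 14) (nat_lit 1) (.cons (.ev (nat_lit 10404955357258413644844996531192579) (nat_lit 2)) (.cons (.rf (nat_lit 40) (nat_lit 17948112817346)) .nil))) (.cons (.ev (nat_lit 2658476353826582116931261792870465795) (nat_lit 2)) (.cons (.rf (nat_lit 719) (nat_lit 17136172036796485508197)) .nil)))) (.cons (.br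 (nat_lit 11) (nat_lit 1) (.cons (.rf (nat_lit 719) (nat_lit 18315647925923906361412)) (.cons (.rf (nat_lit 1058) (nat_lit 547107743760586724412448)) (.cons (.br (nat_lit 16) (nat_lit 1) (.cons (.rf (nat_lit 68) (nat_lit 16991132159298)) (.cons (.rf (nat_lit 68) (nat_lit 15925947764034)) (.cons (.br (nat_lit 14) (nat_lit 1) (.cons (.br (nat_lit 14) (nat_lit 1) (.cons (.zr (nat_lit 680564794689105737900351908917029372160) (nat_lit 10384672947654743527111818070720513) (nat_lit 8) (nat_lit 4)) .nil)) (.cons (.br (nat_lit 14) (nat_lit 1) (.cons (.zr (nat_lit 680564794689105737900351908917029372160) (nat_lit 10384672947654743527111818070720513) (nat_lit 8) (nat_lit 4)) .nil)) .nil))) .nil)))) (.cons (.br (nat_lit 14) (nat_lit 1) (.cons (.rf (nat_lit 1059) (nat_lit 677582165103132179601393696)) (.cons (.rf (nat_lit 1060) (nat_lit 677582165103132179601393696)) (.cons (.br (nat_lit 14) (nat_lit 1) (.cons (.rf (nat_lit 1059) (nat_lit 677582165103132179601393696)) (.cons (.rf (nat_lit 1060) (nat_lit 677582165103132179601393696))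 .nil))) .nil)))) .nil))))) .nil))))) .nil))))) .nil)))))]

theorem c45 : chkAll C T R L45 (nat_lit 1056) = true := by decide +kernel

theorem l45 : (nat_lit 1056) + L45.length = (nat_lit 1062) := by decide +kernel

/-- part of the certificates -/
def L46 : List Prf := [(.br (nat_lit 11) (nat_lit 1) (.cons (.ev (nat_lit 10404955973820063274757554761106179) (nat_lit 2)) (.cons (.br (nat_lit 14) (nat_lit 1) (.cons (.ev (nat_lit 10404955973810618685907003512979715) (nat_lit 2)) (.cons (.rf (nat_lit 40) (nat_lit 17977103948898)) .nil))) (.cons (.br (nat_lit 14) (nat_lit 1) (.cons (.rf (nat_lit 68) (nat_lit 18122994293858)) (.cons (.ev (nat_lit 10404955973810618685907003512979715) (nat_lit 2)) (.cons (.br (nat_lit 15) (nat_lit 1) (.cons (.br (nat_lit 15) (nat_lit 1) (.cons (.ev (nat_lit 1344805045748941395234171069975822594) (nat_lit 2)) .nil)) (.cons (.br (nat_lit 15) (nat_lit 1) (.cons (.ev (nat_lit 1344805045748941395234171069975822594) (nat_lit 2)) .nil)) .nil))) .nil)))) .nil)))),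
 (.br (nat_lit 11) (nat_lit 1) (.cons (.rf (nat_lit 1062) (nat_lit 583221711592231422500013)) (.cons (.ev (nat_lit 2658476353210020541088323321898991875) (nat_lit 2)) (.cons (.br (nat_lit 15) (nat_lit 1) (.cons (.ev (nat_lit 2658476353210029985965404249298830083) (nat_lit 2)) (.cons (.rf (nat_lit 68) (nat_lit 15959137262786)) (.cons (.br (nat_lit 14) (nat_lit 1) (.cons (.br (nat_lit 14) (nat_lit 1) (.cons (.ev (nat_lit 1334420372181098224618302793383477505) (nat_lit 1)) .nil)) (.cons (.br (nat_lit 14) (nat_lit 1) (.cons (.ev (nat_lit 1334420372181098224618302793383477505) (nat_lit 1)) .nil)) .nil))) .nil)))) .nil)))),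
 (.br (nat_lit 13) (nat_lit 1) (.cons (.br (nat_lit 14) (nat_lit 1) (.cons (.ev (nat_lit 5212579578832414939915245286588673) (nat_lit 1)) .nil)) .nil)),
 (.br (nat_lit 15) (nat_lit 1) (.cons (.ev (nat_lit 683223210353545709311403589293318341377) (nat_lit 3)) (.cons (.ev (nat_lit 1334420372181098224618301698149974273) (nat_lit 1)) .nil))),
 (.br (nat_lit 14) (nat_lit 1) (.cons (.rf (nat_lit 1065) (nat_lit 677582165103132179601393696)) (.cons (.rf (nat_lit 1065) (nat_lit 640104980287731064842067117)) .nil))),
 (.br (nat_lit 14) (nat_lit 1) (.cons (.rf (nat_lit 1066) (nat_lit 677582165103132179601393696)) (.cons (.ev (nat_lit 10404955973810618685909211159855363) (nat_lit 2)) .nil))),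
 (.br (nat_lit 3) (nat_lit 1) (.cons (.zr (nat_lit 60847228825177450952671818154752) (nat_lit 237684487542937690918677970945) (nat_lit 8) (nat_lit 0)) (.cons (.ev (nat_lit 20520098950565058664720169568001) (nat_lit 3)) (.cons (.zr (nat_lit 60847228810973674188697627525120) (nat_lit 79847132533907028834800238593) (nat_lit 8) (nat_lit 5)) (.cons (.br (nat_lit 10) (nat_lit 1) (.cons (.ev (nat_lit 79229376162450435096658903041) (nat_lit 1)) (.cons (.ev (nat_lit 79229371440156010916268212481) (nat_lit 1)) (.cons (.ev (nat_lit 79229376162450436191892275201) (nat_lit 1)) (.cons (.br (nat_lit 6) (nat_lit 1) (.cons (.rf (nat_lit 47) (nat_lit 473275586)) (.cons (.rf (nat_lit 1062) (nat_lit 583706118939841765935136)) (.cons (.rf (nat_lit 1063) (nat_lit 583706118939841765935136)) (.cons (.br (nat_lit 11) (nat_lit 1) (.cons (.rf (nat_lit 1062) (nat_lit 583221711592231422500013)) (.cons (.rf (nat_lit 1063) (nat_lit 583221711592231422500013)) (.cons (.br (nat_lit 16) (nat_lit 1) (.cons (.rf (nat_lit 68) (nat_lit 16991229680834)) (.cons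 (.rf (nat_lit 68) (nat_lit 15925850250434)) (.cons (.br (nat_lit 14) (nat_lit 1) (.cons (.rf (nat_lit 1064) (nat_lit 21174442659472880611461152)) (.cons (.br (nat_lit 14) (nat_lit 1) (.cons (.rf (nat_lit 1064) (nat_lit 21174442659472880611461152)) .nil)) .nil))) .nil)))) (.cons (.br (nat_lit 14) (nat_lit 1) (.cons (.rf (nat_lit 1066) (nat_lit 677582165103132179601393696)) (.cons (.rf (nat_lit 1067) (nat_lit 677582165103132179601393696)) (.cons (.rf (nat_lit 1067) (nat_lit 640104980287731064842067117)) .nil)))) .nil))))) .nil))))) .nil))))) .nil))))),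
 (.br (nat_lit 14) (nat_lit 1) (.cons (.br (nat_lit 15) (nat_lit 1) (.cons (.ev (nat_lit 2047021518781656904947750814953175515905) (nat_lit 3)) (.cons (.rf (nat_lit 744) (nat_lit 661701295917511241501761)) .nil))) (.cons (.br (nat_lit 15) (nat_lit 1) (.cons (.br (nat_lit 16) (nat_lit 1) (.cons (.ev (nat_lit 680575139273843546725179926942472078081) (nat_lit 3)) .nil)) (.cons (.ev (nat_lit 522676394836260582791920188565470771806465) (nat_lit 3)) .nil))) .nil))),
 (.br (nat_lit 14) (nat_lit 1) (.cons (.rf (nat_lit 1069) (nat_lit 677582165103132179601393696)) (.cons (.br (nat_lit 16) (nat_lit 1) (.cons (.zr (nat_lit 680575219847642019654958599930156024065) (nat_lit 237686905394577483139915972608) (nat_lit 8) (nat_lit 0)) (.cons (.ev (nat_lit 349129739635026276318017935070242690564865) (nat_lit 3)) .nil))) .nil))),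
 (.br (nat_lit 3) (nat_lit 1) (.cons (.ev (nat_lit 20521332045493082554457875941121) (nat_lit 3)) (.cons (.rf (nat_lit 711) (nat_lit 299713824918903909)) (.cons (.rf (nat_lit 738) (nat_lit 445092485129178177)) (.cons (.br (nat_lit 7) (nat_lit 1) (.cons (.rf (nat_lit 47) (nat_lit 473148610)) (.cons (.ev (nat_lit 20838866102311031307927340450561) (nat_lit 3)) (.cons (.ev (nat_lit 79537652264970967203973234945) (nat_lit 1)) (.cons (.br (nat_lit 6) (nat_lit 1) (.cons (.rf (nat_lit 47) (nat_lit 473246914)) (.cons (.br (nat_lit 10) (nat_lit 1) (.cons (.ev (nat_lit 310693954087985246585815041) (nat_lit 1)) (.cons (.kr (nat_lit 79228162514336676662558589184) (nat_lit 1213648186097503131664384) (nat_lit 1) (nat_lit 0)) (.cons (.rf (nat_lit 786) (nat_lit 19423415167583625026921)) .nil)))) (.cons (.ev (nat_lit 72340172821233921) (nat_lit 1)) (.cons (.br (nat_lit 10) (nat_lit 1) (.cons (.ev (nat_lit 79229376162450436191892275201) (nat_lit 1)) (.cons (.rf (nat_lit 786) (nat_lit 19459454247239492439105)) (.cons (.ev (nat_lit 310693954087985246585815041)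 (nat_lit 1)) (.cons (.br (nat_lit 14) (nat_lit 1) (.cons (.rf (nat_lit 1069) (nat_lit 677582165103132179601393696)) (.cons (.rf (nat_lit 1070) (nat_lit 677582165103132179601393696)) (.cons (.br (nat_lit 14) (nat_lit 1) (.cons (.rf (nat_lit 1069) (nat_lit 677582165103132179601393696)) (.cons (.rf (nat_lit 1070) (nat_lit 677582165103132179601393696)) .nil))) .nil)))) .nil))))) .nil))))) .nil))))) .nil))))),
 (.br (nat_lit 7) (nat_lit 1) (.cons (.ev (nat_lit 10404877055133058830342097662574595) (nat_lit 2)) (.cons (.ev (nat_lit 72340172821233921) (nat_lit 1)) (.cons (.ev (nat_lit 310698676526525710285734145) (nat_lit 1)) (.cons (.br (nat_lit 14) (nat_lit 1) (.cons (.rf (nat_lit 130) (nat_lit 19043187144802)) (.cons (.br (nat_lit 16) (nat_lit 1) (.cons (.ev (nat_lit 683223210671696289889081141218295152897) (nat_lit 3)) (.cons (.rf (nat_lit 818) (nat_lit 21137844319230640862137409)) .nil))) (.cons (.br (nat_lit 17) (nat_lit 1) (.cons (.ev (nat_lit 174224582268793379753923686940581076009729) (nat_lit 3)) (.cons (.ev (nat_lit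 174224582268794006005869339706083623830273) (nat_lit 3)) .nil))) .nil)))) .nil))))),
 (.br (nat_lit 7) (nat_lit 1) (.cons (.ev (nat_lit 10404876130300102905413078276374531) (nat_lit 2)) (.cons (.ev (nat_lit 310698676526525710285734145) (nat_lit 1)) (.cons (.ev (nat_lit 72340172821233921) (nat_lit 1)) (.cons (.br (nat_lit 14) (nat_lit 1) (.cons (.br (nat_lit 16) (nat_lit 1) (.cons (.ev (nat_lit 683223210671696289889081141218295152897) (nat_lit 3)) (.cons (.rf (nat_lit 762) (nat_lit 18795550435538551242266692)) .nil))) (.cons (.rf (nat_lit 130) (nat_lit 19077513361506)) (.cons (.br (nat_lit 17) (nat_lit 1) (.cons (.ev (nat_lit 174224582268794622548629503691561386771201) (nat_lit 3)) (.cons (.ev (nat_lit 174224582268792763211163522963899540308737) (nat_lit 3)) .nil))) .nil)))) .nil))))),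
 (.br (nat_lit 10) (nat_lit 1) (.cons (.rf (nat_lit 1061) (nat_lit 485635850857708067072)) (.cons (.rf (nat_lit 1068) (nat_lit 484445739438518410528)) (.cons (.ev (nat_lit 79229376162450436191892275201) (nat_lit 1)) (.cons (.kr (nat_lit 309485028268090241946025984) (nat_lit 1213648186097503131664384) (nat_lit 2) (nat_lit 0)) (.cons (.br (nat_lit 6) (nat_lit 1) (.cons (.ev (nat_lit 72339069031481601) (nat_lit 1)) (.cons (.ev (nat_lit 10405113811165590533727966726324995) (nat_lit 2)) (.cons (.rf (nat_lit 1072) (nat_lit 19926519232773908561233952)) (.cons (.rf (nat_lit 1073) (nat_lit 19926519232773908561233952)) (.cons (.br (nat_lit 7) (nat_lit 1) (.cons (.ev (nat_lit 10405113811165590533725776326427395) (nat_lit 2)) (.cons (.rf (nat_lit 1073) (nat_lit 18755372310085221257120800)) (.cons (.rf (nat_lit 1072) (nat_lit 18755372310085221257120800)) (.cons (.ev (nat_lit 72340172821233921) (nat_lit 1)) .nil))))) .nil)))))) .nil)))))),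
 (.br (nat_lit 14) (nat_lit 1) (.cons (.rf (nat_lit 130) (nat_lit 17942598629602)) (.cons (.br (nat_lit 15) (nat_lit 1) (.cons (.zr (nat_lit 683223291245494791153348629550417838337) (nat_lit 238303457562580945109904261120) (nat_lit 8) (nat_lit 0)) (.cons (.br (nat_lit 16) (nat_lit 1) (.cons (.ev (nat_lit 683223210671696289925976318215574652673) (nat_lit 3)) .nil)) .nil))) (.cons (.br (nat_lit 17) (nat_lit 1) (.cons (.zr (nat_lit 174224582349526258385939114900885013005057) (nat_lit 79232998217686912410748846080) (nat_lit 8) (nat_lit 0)) (.cons (.zr (nat_lit 174224582349526877355995651080269393297665) (nat_lit 237689323246360264636354265088) (nat_lit 8) (nat_lit 0)) .nil))) .nil)))),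
 (.br (nat_lit 6) (nat_lit 1) (.cons (.rf (nat_lit 1071) (nat_lit 485635850857708067072)) (.cons (.rf (nat_lit 1061) (nat_lit 485635850857708067072)) (.cons (.rf (nat_lit 1074) (nat_lit 583223041554066313513101)) (.cons (.ev (nat_lit 2658476353826582153825310682663355139) (nat_lit 2)) (.cons (.br (nat_lit 10) (nat_lit 1) (.cons (.rf (nat_lit 1068) (nat_lit 484445739438518410528)) (.cons (.kr (nat_lit 309485028268090241946025984) (nat_lit 1213648186097503131664384) (nat_lit 2) (nat_lit 0)) (.cons (.ev (nat_lit 79229376162450436191892275201) (nat_lit 1)) (.cons (.rf (nat_lit 1074) (nat_lit 586058939842126548248832)) (.cons (.br (nat_lit 7) (nat_lit 1) (.cons (.rf (nat_lit 1075) (nat_lit 677582165103132179601393696)) (.cons (.ev (nat_lit 2658476511663937125961359831561404675) (nat_lit 2)) (.cons (.ev (nat_lit 72340172821233921) (nat_lit 1)) (.cons (.rf (nat_lit 1075) (nat_lit 636554941424118376218987693)) .nil))))) .nil)))))) .nil)))))),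
 (.br (nat_lit 9) (nat_lit 0) (.cons (.rf (nat_lit 363) (nat_lit 418131480608)) (.cons (.br (nat_lit 12) (nat_lit 0) (.cons (.rf (nat_lit 1057) (nat_lit 4690543106368711981)) .nil)) .nil))),
 (.br (nat_lit 14) (nat_lit 1) (.cons (.ev (nat_lit 10404955357267858521925923930899203) (nat_lit 2)) (.cons (.br (nat_lit 15) (nat_lit 1) (.cons (.kr (nat_lit 5192296859748475814627995149140224) (nat_lit 1329227996094400901171896202714742784) (nat_lit 1) (nat_lit 0)) (.cons (.ev (nat_lit 2658476353826572709236462339062104323) (nat_lit 2)) .nil))) .nil))),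
 (.br (nat_lit 14) (nat_lit 1) (.cons (.ev (nat_lit 10404955357267858521925923930899203) (nat_lit 2)) (.cons (.br (nat_lit 16) (nat_lit 1) (.cons (.rf (nat_lit 720) (nat_lit 660557489596195655424068)) (.cons (.ev (nat_lit 87452568319042822876253208871505242358016) (nat_lit 1)) .nil))) .nil))),
 (.br (nat_lit 6) (nat_lit 1) (.cons (.rf (nat_lit 711) (nat_lit 445092485129178177)) (.cons (.zr (nat_lit 237684487542793016092051701763) (nat_lit 20282412035670409383289546605056) (nat_lit 8) (nat_lit 13)) (.cons (.ev (nat_lit 4722366765448445362433) (nat_lit 1)) (.cons (.br (nat_lit 7) (nat_lit 1) (.cons (.ev (nat_lit 18518802771554140161) (nat_lit 1)) (.cons (.zr (nat_lit 237684487542793016092051636483) (nat_lit 20283028578449019829175508402176) (nat_lit 8) (nat_lit 13)) (.cons (.ev (nat_lit 72340172821233921) (nat_lit 1)) (.cons (.br (nat_lit 10) (nat_lit 1) (.cons (.rf (nat_lit 47) (nat_lit 476417346)) (.cons (.br (nat_lit 14) (nat_lit 1) (.cons (.ev (nat_lit 10404955357258450537770193996742915) (nat_lit 2)) (.cons (.ev (nat_lit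 10404955357267895414851121396711683) (nat_lit 2)) (.cons (.br (nat_lit 11) (nat_lit 1) (.cons (.rf (nat_lit 40) (nat_lit 17981398813890)) (.cons (.rf (nat_lit 68) (nat_lit 17057709362370)) (.cons (.rf (nat_lit 958) (nat_lit 19533274897079637117120)) .nil)))) .nil)))) (.cons (.br (nat_lit 11) (nat_lit 1) (.cons (.br (nat_lit 14) (nat_lit 1) (.cons (.ev (nat_lit 10404955357258413644844996531192579) (nat_lit 2)) (.cons (.rf (nat_lit 40) (nat_lit 17948112817346)) .nil))) (.cons (.ev (nat_lit 2658476353826582116931261792870597379) (nat_lit 2)) (.cons (.rf (nat_lit 719) (nat_lit 17136172036796485508197)) .nil)))) (.cons (.br (nat_lit 11) (nat_lit 1) (.cons (.rf (nat_lit 719) (nat_lit 18315647925923906361412)) (.cons (.br (nat_lit 15) (nat_lit 1) (.cons (.ev (nat_lit 2658476353826582153825312890242990339) (nat_lit 2)) (.cons (.rf (nat_lit 68) (nat_lit 15959236906210)) (.cons (.br (nat_lit 14) (nat_lit 1) (.cons (.br (nat_lit 14) (nat_lit 1) (.cons (.ev (nat_lit 1334420292954144654620323907018686465) (nat_lit 1)) .nil)) (.cons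 (.br (nat_lit 14) (nat_lit 1) (.cons (.ev (nat_lit 1334420292954144654620323907018686465) (nat_lit 1)) .nil)) .nil))) .nil)))) (.cons (.br (nat_lit 16) (nat_lit 1) (.cons (.rf (nat_lit 68) (nat_lit 16991132159298)) (.cons (.rf (nat_lit 68) (nat_lit 15925947764034)) (.cons (.br (nat_lit 14) (nat_lit 1) (.cons (.br (nat_lit 14) (nat_lit 1) (.cons (.zr (nat_lit 680564794689105737900351908917096218624) (nat_lit 10384672947654743527111818003612417) (nat_lit 8) (nat_lit 5)) .nil)) (.cons (.br (nat_lit 14) (nat_lit 1) (.cons (.zr (nat_lit 680564794689105737900351908917096218624) (nat_lit 10384672947654743527111818003612417) (nat_lit 8) (nat_lit 5)) .nil)) .nil))) .nil)))) (.cons (.br (nat_lit 14) (nat_lit 1) (.cons (.rf (nat_lit 1078) (nat_lit 677582165103132179601393696)) (.cons (.rf (nat_lit 1079) (nat_lit 677582165103132179601393696)) (.cons (.br (nat_lit 14) (nat_lit 1) (.cons (.rf (nat_lit 1078) (nat_lit 677582165103132179601393696)) (.cons (.rf (nat_lit 1079) (nat_lit 677582165103132179601393696)) .nil))) .nil)))) .nil)))))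 .nil))))) .nil))))) .nil))))),
 (.br (nat_lit 15) (nat_lit 1) (.cons (.br (nat_lit 16) (nat_lit 1) (.cons (.ev (nat_lit 87795524759570114390084069087825637867521) (nat_lit 2)) .nil)) .nil)),
 (.br (nat_lit 10) (nat_lit 1) (.cons (.zr (nat_lit 60926456987691715853215315526400) (nat_lit 4835703278461828118740993) (nat_lit 8) (nat_lit 0)) (.cons (.zr (nat_lit 4840444092251708541894913) (nat_lit 20830113891112779789731424909787136) (nat_lit 8) (nat_lit 8)) (.cons (.br (nat_lit 11) (nat_lit 1) (.cons (.zr (nat_lit 1237944780098610529673675009) (nat_lit 20830113891112779790294370568241152) (nat_lit 8) (nat_lit 9)) (.cons (.br (nat_lit 14) (nat_lit 1) (.cons (.ev (nat_lit 20789708149632599132070773355053825) (nat_lit 3)) (.cons (.rf (nat_lit 40) (nat_lit 17978177689698)) .nil))) (.cons (.br (nat_lit 14) (nat_lit 1) (.cons (.rf (nat_lit 68) (nat_lit 18122994325602)) (.cons (.rf (nat_lit 68) (nat_lit 17057809930338)) (.cons (.br (nat_lit 15) (nat_lit 1) (.cons (.rf (nat_lit 1081) (nat_lit 677582165103132179601393696)) (.cons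 (.br (nat_lit 15) (nat_lit 1) (.cons (.rf (nat_lit 1081) (nat_lit 677582165103132179601393696)) .nil)) .nil))) .nil)))) .nil)))) .nil)))),
 (.br (nat_lit 14) (nat_lit 1) (.cons (.br (nat_lit 16) (nat_lit 1) (.cons (.zr (nat_lit 1361129690790259527207565681750320350976) (nat_lit 554601973303417618309098635265) (nat_lit 24) (nat_lit 0)) (.cons (.zr (nat_lit 680575341542099669936073527879442368256) (nat_lit 396764618294387520270407696385) (nat_lit 24) (nat_lit 0)) .nil))) (.cons (.br (nat_lit 15) (nat_lit 1) (.cons (.rf (nat_lit 720) (nat_lit 661701295917511241501761)) (.cons (.zr (nat_lit 348449143950147492259849665262158191003392) (nat_lit 555835077639425665954320875521) (nat_lit 24) (nat_lit 0)) .nil))) .nil)))]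

theorem c46 : chkAll C T R L46 (nat_lit 1062) = true := by decide +kernel

theorem l46 : (nat_lit 1062) + L46.length = (nat_lit 1084) := by decide +kernel

/-- part of the certificates -/
def L47 : List Prf := [(.br (nat_lit 3) (nat_lit 1) (.cons (.zr (nat_lit 60847228825177450953771329913600) (nat_lit 237684487542793575743537283073) (nat_lit 8) (nat_lit 0)) (.cons (.rf (nat_lit 711) (nat_lit 336903739535300676)) (.cons (.br (nat_lit 7) (nat_lit 1) (.cons (.zr (nat_lit 60847228825177450952671818154752) (nat_lit 79230580365903567964323446785) (nat_lit 8) (nat_lit 0)) (.cons (.rf (nat_lit 47) (nat_lit 477468770)) .nil))) (.cons (.br (nat_lit 7) (nat_lit 1) (.cons (.rf (nat_lit 47) (nat_lit 473241826)) (.cons (.rf (nat_lit 47) (nat_lit 473274594)) (.cons (.rf (nat_lit 1082) (nat_lit 17022140995484340291616)) (.cons (.br (nat_lit 10) (nat_lit 1) (.cons (.zr (nat_lit 60926456987691715853215315526400) (nat_lit 4835703278461828118740993) (nat_lit 8) (nat_lit 0)) (.cons (.br (nat_lit 11) (nat_lit 1) (.cons (.zr (nat_lit 237684492283606239724053856513)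 (nat_lit 20830034662950265525957880830754816) (nat_lit 8) (nat_lit 1)) (.cons (.br (nat_lit 14) (nat_lit 1) (.cons (.ev (nat_lit 20790026300222695474805803229250305) (nat_lit 3)) (.cons (.rf (nat_lit 40) (nat_lit 17981398816866)) .nil))) (.cons (.rf (nat_lit 843) (nat_lit 19459453155457764591713)) .nil)))) (.cons (.br (nat_lit 11) (nat_lit 1) (.cons (.br (nat_lit 14) (nat_lit 1) (.cons (.ev (nat_lit 20790025067118359469009962115662593) (nat_lit 3)) (.cons (.rf (nat_lit 40) (nat_lit 17948112820322)) .nil))) (.cons (.zr (nat_lit 237684492283894470113023230209) (nat_lit 5316972830368474446627064132340416512) (nat_lit 8) (nat_lit 9)) (.cons (.rf (nat_lit 719) (nat_lit 17136060463750980970696)) .nil)))) (.cons (.br (nat_lit 11) (nat_lit 1) (.cons (.rf (nat_lit 719) (nat_lit 19459454247239492439105)) (.cons (.rf (nat_lit 862) (nat_lit 18315755022887772391521)) (.cons (.rf (nat_lit 1082) (nat_lit 19375101782336288921856)) (.cons (.br (nat_lit 14) (nat_lit 1) (.cons (.rf (nat_lit 1083) (nat_lit 677582165103132179601393696))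 (.cons (.br (nat_lit 14) (nat_lit 1) (.cons (.rf (nat_lit 1083) (nat_lit 677582165103132179601393696)) (.cons (.zr (nat_lit 20992293939812664581374008564385536) (nat_lit 238927263285357422231716757505) (nat_lit 24) (nat_lit 0)) .nil))) (.cons (.br (nat_lit 14) (nat_lit 1) (.cons (.rf (nat_lit 1083) (nat_lit 677582165103132179601393696)) (.cons (.zr (nat_lit 20992293939812664581374008564385536) (nat_lit 238927263285357422231716757505) (nat_lit 24) (nat_lit 0)) .nil))) .nil)))) .nil))))) .nil))))) .nil))))) .nil))))),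
 (.br (nat_lit 15) (nat_lit 1) (.cons (.br (nat_lit 16) (nat_lit 1) (.cons (.ev (nat_lit 87795524759570114390084069087825637867521) (nat_lit 2)) .nil)) .nil)),
 (.br (nat_lit 10) (nat_lit 1) (.cons (.ev (nat_lit 310693935713018391449043201) (nat_lit 1)) (.cons (.ev (nat_lit 10405113811165627571892053151318275) (nat_lit 2)) (.cons (.br (nat_lit 11) (nat_lit 1) (.cons (.ev (nat_lit 10405113811175035266691507026920195) (nat_lit 2)) (.cons (.ev (nat_lit 310698676454469215759368193) (nat_lit 1)) (.cons (.br (nat_lit 14) (nat_lit 1) (.cons (.rf (nat_lit 68) (nat_lit 18122994293858)) (.cons (.rf (nat_lit 68) (nat_lit 17057809898594)) (.cons (.br (nat_lit 15) (nat_lit 1) (.cons (.rf (nat_lit 1085) (nat_lit 677582165103132179601393696)) (.cons (.br (nat_lit 15) (nat_lit 1) (.cons (.rf (nat_lit 1085) (nat_lit 677582165103132179601393696)) .nil)) .nil))) .nil)))) .nil)))) .nil)))),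
 (.br (nat_lit 13) (nat_lit 1) (.cons (.br (nat_lit 15) (nat_lit 1) (.cons (.ev (nat_lit 1329248278505213460215191809237713153) (nat_lit 1)) .nil)) .nil)),
 (.br (nat_lit 15) (nat_lit 1) (.cons (.rf (nat_lit 68) (nat_lit 18089701088450)) (.cons (.rf (nat_lit 68) (nat_lit 15959137262786)) (.cons (.br (nat_lit 14) (nat_lit 1) (.cons (.br (nat_lit 14) (nat_lit 1) (.cons (.ev (nat_lit 2689630293436533963015590295709418753) (nat_lit 3)) .nil)) (.cons (.br (nat_lit 14) (nat_lit 1) (.cons (.ev (nat_lit 2689630293436533963015590295709418753) (nat_lit 3)) .nil)) .nil))) .nil)))),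
 (.br (nat_lit 14) (nat_lit 1) (.cons (.ev (nat_lit 10404955973810618685909211159855363) (nat_lit 2)) (.cons (.br (nat_lit 15) (nat_lit 1) (.cons (.kr (nat_lit 1329227995786129521089904559100264704) (nat_lit 5192297168019855896619638763618304) (nat_lit 1) (nat_lit 0)) (.cons (.ev (nat_lit 2658476353210029949072479051833148163) (nat_lit 2)) .nil))) .nil))),
 (.br (nat_lit 3) (nat_lit 1) (.cons (.ev (nat_lit 282574505181441) (nat_lit 1)) (.cons (.ev (nat_lit 20678552848334108626451343474945) (nat_lit 3)) (.cons (.ev (nat_lit 79537652264970967203973169153) (nat_lit 1)) (.cons (.br (nat_lit 6) (nat_lit 1) (.cons (.ev (nat_lit 79229376180897460645345165313) (nat_lit 1)) (.cons (.rf (nat_lit 47) (nat_lit 473275586)) (.cons (.rf (nat_lit 1086) (nat_lit 17022140995484340291616)) (.cons (.br (nat_lit 11) (nat_lit 1) (.cons (.ev (nat_lit 310693935713018391449043201) (nat_lit 1)) (.cons (.rf (nat_lit 1086) (nat_lit 16537733647873996856493)) (.cons (.br (nat_lit 10) (nat_lit 1) (.cons (.ev (nat_lit 310698676454469215759368193) (nat_lit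 1)) (.cons (.ev (nat_lit 2658476353210020541088323321898991875) (nat_lit 2)) (.cons (.br (nat_lit 15) (nat_lit 1) (.cons (.rf (nat_lit 68) (nat_lit 18089667566786)) (.cons (.rf (nat_lit 68) (nat_lit 15959136246978)) (.cons (.br (nat_lit 14) (nat_lit 1) (.cons (.rf (nat_lit 1087) (nat_lit 21174442659472880611461152)) (.cons (.br (nat_lit 14) (nat_lit 1) (.cons (.rf (nat_lit 1087) (nat_lit 21174442659472880611461152)) .nil)) .nil))) .nil)))) .nil)))) (.cons (.br (nat_lit 10) (nat_lit 1) (.cons (.rf (nat_lit 607) (nat_lit 622700226797813580762144)) (.cons (.rf (nat_lit 1088) (nat_lit 19926519232773908561233952)) (.cons (.rf (nat_lit 1088) (nat_lit 18754887937674626204802221)) (.cons (.br (nat_lit 14) (nat_lit 1) (.cons (.rf (nat_lit 1089) (nat_lit 677582165103132179601393696)) (.cons (.rf (nat_lit 1089) (nat_lit 676410533808032897244961965)) (.cons (.br (nat_lit 14) (nat_lit 1) (.cons (.rf (nat_lit 1089) (nat_lit 677582165103132179601393696)) (.cons (.rf (nat_lit 1089) (nat_lit 676410533808032897244961965)) .nil))) .nil))))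 .nil))))) .nil))))) .nil))))) .nil))))),
 (.br (nat_lit 13) (nat_lit 1) (.cons (.br (nat_lit 14) (nat_lit 1) (.cons (.kr (nat_lit 5192376087906267712765293536215296) (nat_lit 1329248278194524283834202024596013056) (nat_lit 1) (nat_lit 0)) .nil)) .nil)),
 (.br (nat_lit 12) (nat_lit 1) (.cons (.rf (nat_lit 68) (nat_lit 15853065282625)) (.cons (.rf (nat_lit 68) (nat_lit 14787750863937)) (.cons (.br (nat_lit 13) (nat_lit 1) (.cons (.rf (nat_lit 1091) (nat_lit 583706118939841765935136)) (.cons (.br (nat_lit 13) (nat_lit 1) (.cons (.rf (nat_lit 1091) (nat_lit 583706118939841765935136)) .nil)) .nil))) .nil)))),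
 (.br (nat_lit 16) (nat_lit 1) (.cons (.ev (nat_lit 344270050909222884537659614339518169858) (nat_lit 2)) .nil)),
 (.br (nat_lit 15) (nat_lit 1) (.cons (.ev (nat_lit 2658476353210029949072479051833148163) (nat_lit 2)) (.cons (.br (nat_lit 17) (nat_lit 1) (.cons (.ev (nat_lit 87112291144339515998769831299652578705408) (nat_lit 1)) (.cons (.zr (nat_lit 174224571863520498133691890691629218004995) (nat_lit 2658476511663922940415166036519813888) (nat_lit 8) (nat_lit 8)) .nil))) .nil))),
 (.br (nat_lit 14) (nat_lit 1) (.cons (.rf (nat_lit 1094) (nat_lit 677582165103132179601393696)) (.cons (.br (nat_lit 17) (nat_lit 1) (.cons (.ev (nat_lit 87112291124295412275236372566083794764290) (nat_lit 2)) (.cons (.ev (nat_lit 87112291144339515998769831299652578705408) (nat_lit 1)) .nil))) .nil))),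
 (.br (nat_lit 3) (nat_lit 1) (.cons (.zr (nat_lit 60847228815732717986932527727360) (nat_lit 79230580365903567955733512193) (nat_lit 8) (nat_lit 0)) (.cons (.ev (nat_lit 18518802771554140161) (nat_lit 1)) (.cons (.br (nat_lit 6) (nat_lit 1) (.cons (.ev (nat_lit 158781573335070270369261618696) (nat_lit 4)) (.cons (.rf (nat_lit 47) (nat_lit 476424290)) .nil))) (.cons (.br (nat_lit 6) (nat_lit 1) (.cons (.rf (nat_lit 47) (nat_lit 473147586)) (.cons (.ev (nat_lit 79229371458530977771404984321) (nat_lit 1)) (.cons (.br (nat_lit 7) (nat_lit 1) (.cons (.ev (nat_lit 79231798754975512941899743490) (nat_lit 2)) (.cons (.ev (nat_lit 72340172821233921) (nat_lit 1)) (.cons (.br (nat_lit 14) (nat_lit 1) (.cons (.ev (nat_lit 10405113811175035266691507026920195) (nat_lit 2)) (.cons (.ev (nat_lit 10404955357267895414851121396711683) (nat_lit 2)) (.cons (.br (nat_lit 11) (nat_lit 1) (.cons (.rf (nat_lit 40) (nat_lit 17977103853666)) (.cons (.rf (nat_lit 68) (nat_lit 17057709238370)) (.cons (.br (nat_lit 15) (nat_lit 1) (.cons (.br (nat_lit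 15) (nat_lit 1) (.cons (.ev (nat_lit 1334420372181098243136821886642552833) (nat_lit 1)) .nil)) (.cons (.br (nat_lit 15) (nat_lit 1) (.cons (.ev (nat_lit 1334420372181098243136821886642552833) (nat_lit 1)) .nil)) .nil))) .nil)))) .nil)))) .nil)))) (.cons (.br (nat_lit 7) (nat_lit 1) (.cons (.rf (nat_lit 47) (nat_lit 473278690)) (.cons (.br (nat_lit 11) (nat_lit 1) (.cons (.ev (nat_lit 10404955973820026380708664968348419) (nat_lit 2)) (.cons (.br (nat_lit 14) (nat_lit 1) (.cons (.ev (nat_lit 10405114432562943586214238287298819) (nat_lit 2)) (.cons (.rf (nat_lit 40) (nat_lit 17978177562722)) .nil))) (.cons (.rf (nat_lit 1092) (nat_lit 19459454247239492439105)) .nil)))) (.cons (.ev (nat_lit 72340172821233921) (nat_lit 1)) (.cons (.br (nat_lit 11) (nat_lit 1) (.cons (.br (nat_lit 14) (nat_lit 1) (.cons (.rf (nat_lit 68) (nat_lit 18122856048738)) (.cons (.rf (nat_lit 68) (nat_lit 17057671653474)) (.cons (.br (nat_lit 15) (nat_lit 1) (.cons (.br (nat_lit 15) (nat_lit 1) (.cons (.zr (nat_lit 10384672950072595311018114904227843)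 (nat_lit 2658476275217375455210165714955796736) (nat_lit 8) (nat_lit 8)) .nil)) (.cons (.br (nat_lit 15) (nat_lit 1) (.cons (.zr (nat_lit 10384672950072595311018114904227843) (nat_lit 2658476275217375455210165714955796736) (nat_lit 8) (nat_lit 8)) .nil)) .nil))) .nil)))) (.cons (.br (nat_lit 15) (nat_lit 1) (.cons (.ev (nat_lit 2658476511663937162711295732301824259) (nat_lit 2)) (.cons (.rf (nat_lit 68) (nat_lit 15959133104322)) (.cons (.br (nat_lit 14) (nat_lit 1) (.cons (.rf (nat_lit 1093) (nat_lit 677582165103132179601393696)) (.cons (.br (nat_lit 14) (nat_lit 1) (.cons (.rf (nat_lit 1093) (nat_lit 677582165103132179601393696)) .nil)) .nil))) .nil)))) (.cons (.rf (nat_lit 480) (nat_lit 18138833626202042543479981)) (.cons (.br (nat_lit 14) (nat_lit 1) (.cons (.rf (nat_lit 1094) (nat_lit 677582165103132179601393696)) (.cons (.rf (nat_lit 1095) (nat_lit 677582165103132179601393696)) (.cons (.br (nat_lit 14) (nat_lit 1) (.cons (.rf (nat_lit 1094) (nat_lit 677582165103132179601393696)) (.cons (.rf (nat_lit 1095) (nat_lit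 677582165103132179601393696)) .nil))) .nil)))) .nil))))) .nil))))) .nil))))) .nil))))),
 (.br (nat_lit 16) (nat_lit 1) (.cons (.ev (nat_lit 2041704606797900689288131556285897376513) (nat_lit 3)) .nil)),
 (.br (nat_lit 10) (nat_lit 1) (.cons (.ev (nat_lit 10404955357258450681885373516349699) (nat_lit 2)) (.cons (.br (nat_lit 14) (nat_lit 1) (.cons (.ev (nat_lit 10405114432562943586214238287298819) (nat_lit 2)) (.cons (.rf (nat_lit 40) (nat_lit 17943817825378)) .nil))) (.cons (.br (nat_lit 14) (nat_lit 1) (.cons (.rf (nat_lit 68) (nat_lit 18122956581986)) (.cons (.ev (nat_lit 10405114432562943586214238287298819) (nat_lit 2)) (.cons (.br (nat_lit 15) (nat_lit 1) (.cons (.rf (nat_lit 1097) (nat_lit 677582165103132179601393696)) (.cons (.br (nat_lit 15) (nat_lit 1) (.cons (.rf (nat_lit 1097) (nat_lit 677582165103132179601393696)) .nil)) .nil))) .nil)))) .nil)))),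
 (.br (nat_lit 14) (nat_lit 1) (.cons (.br (nat_lit 15) (nat_lit 1) (.cons (.ev (nat_lit 1334420371872822140616290883134882048) (nat_lit 1)) .nil)) .nil)),
 (.br (nat_lit 13) (nat_lit 1) (.cons (.rf (nat_lit 68) (nat_lit 16987910875234)) (.cons (.rf (nat_lit 68) (nat_lit 15922726479970)) (.cons (.br (nat_lit 15) (nat_lit 1) (.cons (.rf (nat_lit 1099) (nat_lit 19926519232773908561233952)) (.cons (.br (nat_lit 15) (nat_lit 1) (.cons (.rf (nat_lit 1099) (nat_lit 19926519232773908561233952)) .nil)) .nil))) .nil)))),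
 (.br (nat_lit 14) (nat_lit 1) (.cons (.br (nat_lit 15) (nat_lit 1) (.cons (.ev (nat_lit 341611615199442467997770184611831283968) (nat_lit 1)) (.cons (.zr (nat_lit 10445440948312629007010714582384640) (nat_lit 2658456072035934317948192350300799233) (nat_lit 8) (nat_lit 4)) .nil))) (.cons (.br (nat_lit 15) (nat_lit 1) (.cons (.rf (nat_lit 746) (nat_lit 660557597784941249301569)) (.cons (.ev (nat_lit 174227240724626495687900155793047254205187) (nat_lit 2)) .nil))) .nil))),
 (.br (nat_lit 14) (nat_lit 1) (.cons (.rf (nat_lit 1101) (nat_lit 677582165103132179601393696)) (.cons (.br (nat_lit 16) (nat_lit 1) (.cons (.br (nat_lit 15) (nat_lit 1) (.cons (.ev (nat_lit 88150490881398683010042416634103180362248) (nat_lit 4)) .nil)) (.cons (.ev (nat_lit 174905147002317727478625230105302377038083) (nat_lit 2)) .nil))) .nil))),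
 (.br (nat_lit 3) (nat_lit 1) (.cons (.rf (nat_lit 1096) (nat_lit 485635850857708067072)) (.cons (.rf (nat_lit 711) (nat_lit 299713824918903909)) (.cons (.rf (nat_lit 738) (nat_lit 445092485129178177)) (.cons (.br (nat_lit 6) (nat_lit 1) (.cons (.rf (nat_lit 47) (nat_lit 473148610)) (.cons (.rf (nat_lit 47) (nat_lit 473246914)) (.cons (.br (nat_lit 7) (nat_lit 1) (.cons (.ev (nat_lit 79537652246524504605240393985) (nat_lit 1)) (.cons (.ev (nat_lit 72340172821233921) (nat_lit 1)) (.cons (.br (nat_lit 10) (nat_lit 1) (.cons (.ev (nat_lit 10405114432562906549173861369250563) (nat_lit 2)) (.cons (.br (nat_lit 14) (nat_lit 1) (.cons (.ev (nat_lit 10404955357258413644844996531192579) (nat_lit 2)) (.cons (.rf (nat_lit 40) (nat_lit 17942744116322)) .nil))) (.cons (.rf (nat_lit 786) (nat_lit 19423415167583625026921)) .nil)))) .nil)))) (.cons (.br (nat_lit 7) (nat_lit 1) (.cons (.rf (nat_lit 47) (nat_lit 473246946)) (.cons (.rf (nat_lit 1098) (nat_lit 583706118939841765935136)) (.cons (.ev (nat_lit 72340172821233921) (nat_lit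 1)) (.cons (.br (nat_lit 10) (nat_lit 1) (.cons (.rf (nat_lit 1100) (nat_lit 622703726024149174421536)) (.cons (.rf (nat_lit 1098) (nat_lit 622173012621323121536397)) (.cons (.rf (nat_lit 786) (nat_lit 18315756114669500238913)) (.cons (.br (nat_lit 14) (nat_lit 1) (.cons (.rf (nat_lit 1101) (nat_lit 677582165103132179601393696)) (.cons (.rf (nat_lit 1102) (nat_lit 677582165103132179601393696)) (.cons (.br (nat_lit 14) (nat_lit 1) (.cons (.rf (nat_lit 1101) (nat_lit 677582165103132179601393696)) (.cons (.rf (nat_lit 1102) (nat_lit 677582165103132179601393696)) .nil))) .nil)))) .nil))))) .nil))))) .nil))))) .nil))))),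
 (.br (nat_lit 15) (nat_lit 1) (.cons (.br (nat_lit 16) (nat_lit 1) (.cons (.ev (nat_lit 88137146759283114901860321575433763487744) (nat_lit 3)) .nil)) .nil)),
 (.br (nat_lit 10) (nat_lit 1) (.cons (.ev (nat_lit 310698676454469215759368193) (nat_lit 1)) (.cons (.ev (nat_lit 79229376162522492686418641153) (nat_lit 1)) (.cons (.br (nat_lit 15) (nat_lit 1) (.cons (.rf (nat_lit 1104) (nat_lit 677582165103132179601393696)) (.cons (.br (nat_lit 15) (nat_lit 1) (.cons (.rf (nat_lit 1104) (nat_lit 677582165103132179601393696)) .nil)) .nil))) .nil))))]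

theorem c47 : chkAll C T R L47 (nat_lit 1084) = true := by decide +kernel

theorem l47 : (nat_lit 1084) + L47.length = (nat_lit 1106) := by decide +kernel

/-- part of the certificates -/
def L48 : List Prf := [(.br (nat_lit 14) (nat_lit 1) (.cons (.kr (nat_lit 5212579269347405118851647243550976) (nat_lit 1329228075013083146428115670888677376) (nat_lit 1) (nat_lit 0)) .nil)),
 (.br (nat_lit 14) (nat_lit 1) (.cons (.kr (nat_lit 5212579269347405118851647243550976) (nat_lit 1329228075013083146428115670888677376) (nat_lit 1) (nat_lit 0)) .nil)),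
 (.br (nat_lit 7) (nat_lit 1) (.cons (.rf (nat_lit 1080) (nat_lit 9450957830238608557)) (.cons (.rf (nat_lit 1096) (nat_lit 9450957830238608557)) (.cons (.ev (nat_lit 72340172821233921) (nat_lit 1)) (.cons (.kr (nat_lit 79228162514336676662558589184) (nat_lit 309485028268090241946025984) (nat_lit 1) (nat_lit 0)) (.cons (.br (nat_lit 14) (nat_lit 1) (.cons (.rf (nat_lit 1105) (nat_lit 19926519232773908561233952)) (.cons (.rf (nat_lit 1105) (nat_lit 18755364122567653674260736)) (.cons (.ev (nat_lit 10404955973810618541794014460379395) (nat_lit 2)) (.cons (.ev (nat_lit 10405113811165590677840955778925315) (nat_lit 2)) (.cons (.br (nat_lit 3) (nat_lit 1) (.cons (.ev (nat_lit 79231803477269938217523740930) (nat_lit 2)) (.cons (.br (nat_lit 10) (nat_lit 1) (.cons (.rf (nat_lit 102) (nat_lit 18939130527043)) (.cons (.br (nat_lit 15) (nat_lit 1) (.cons (.ev (nat_lit 683223210353545699866526510573565511425) (nat_lit 3)) (.cons (.rf (nat_lit 1106) (nat_lit 661701295917511241501761)) .nil))) (.cons (.ev (nat_lit 10405114432562943442099058835063043)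 (nat_lit 2)) .nil)))) (.cons (.br (nat_lit 10) (nat_lit 1) (.cons (.br (nat_lit 15) (nat_lit 1) (.cons (.ev (nat_lit 683223210353545699866526510573565511425) (nat_lit 3)) (.cons (.rf (nat_lit 1107) (nat_lit 661701295917511241501761)) .nil))) (.cons (.rf (nat_lit 102) (nat_lit 19076569448675)) (.cons (.ev (nat_lit 10404955357267858521925923930899203) (nat_lit 2)) .nil)))) (.cons (.br (nat_lit 10) (nat_lit 1) (.cons (.ev (nat_lit 10405114432562943442099058835063043) (nat_lit 2)) (.cons (.ev (nat_lit 10404955357267858521925923930899203) (nat_lit 2)) (.cons (.ev (nat_lit 522673725995992203695427882712008017314561) (nat_lit 3)) .nil)))) .nil))))) .nil)))))) .nil)))))),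
 (.br (nat_lit 10) (nat_lit 1) (.cons (.ev (nat_lit 310698676454469215759368193) (nat_lit 1)) (.cons (.ev (nat_lit 2658476511663937162711295732301824259) (nat_lit 2)) (.cons (.ev (nat_lit 79229376162522492686418641153) (nat_lit 1)) (.cons (.br (nat_lit 14) (nat_lit 1) (.cons (.rf (nat_lit 130) (nat_lit 17943675517026)) (.cons (.br (nat_lit 15) (nat_lit 1) (.cons (.ev (nat_lit 680575139114763387602637150379288167169) (nat_lit 3)) (.cons (.br (nat_lit 16) (nat_lit 1) (.cons (.ev (nat_lit 92233879894348339653596552961579074523150) (nat_lit 5)) .nil)) .nil))) (.cons (.br (nat_lit 17) (nat_lit 1) (.cons (.zr (nat_lit 174224571863521112267989808178093927432195) (nat_lit 2658476353207597930189683784530788608) (nat_lit 8) (nat_lit 9)) (.cons (.rf (nat_lit 818) (nat_lit 19930099091236729098734657)) .nil))) .nil)))) .nil))))),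
 (.br (nat_lit 14) (nat_lit 1) (.cons (.rf (nat_lit 130) (nat_lit 18935812962626)) (.cons (.br (nat_lit 16) (nat_lit 1) (.cons (.ev (nat_lit 2047042288127554632323049523411119636737) (nat_lit 3)) (.cons (.zr (nat_lit 680564754520432178853308578625606386944) (nat_lit 31153781770193207853557244057616387) (nat_lit 8) (nat_lit 12)) .nil))) (.cons (.br (nat_lit 15) (nat_lit 1) (.cons (.br (nat_lit 16) (nat_lit 1) (.cons (.ev (nat_lit 88150428573994217928157515032402716069376) (nat_lit 4)) .nil)) (.cons (.zr (nat_lit 522673715813667985553134357755366639404288) (nat_lit 2658456229880542863161575481767100417) (nat_lit 24) (nat_lit 0)) .nil))) .nil)))),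
 (.br (nat_lit 7) (nat_lit 1) (.cons (.rf (nat_lit 1080) (nat_lit 9450957830238608557)) (.cons (.rf (nat_lit 1096) (nat_lit 9450957830238608557)) (.cons (.kr (nat_lit 79228162514336676662558589184) (nat_lit 309485028268090241946025984) (nat_lit 1) (nat_lit 0)) (.cons (.ev (nat_lit 72340172821233921) (nat_lit 1)) (.cons (.br (nat_lit 3) (nat_lit 1) (.cons (.rf (nat_lit 786) (nat_lit 19459453155457764591713)) (.cons (.rf (nat_lit 1109) (nat_lit 19926519232773908561233952)) (.cons (.ev (nat_lit 2658476511663937125817244634929169155) (nat_lit 2)) (.cons (.rf (nat_lit 1109) (nat_lit 17510544369438474690993325)) (.cons (.br (nat_lit 10) (nat_lit 1) (.cons (.rf (nat_lit 1110) (nat_lit 677582165103132179601393696)) (.cons (.ev (nat_lit 2658476353210020541088323321898991875) (nat_lit 2)) (.cons (.rf (nat_lit 1110) (nat_lit 675166190239796745731153069)) (.cons (.ev (nat_lit 310698676454469215759368193) (nat_lit 1)) .nil))))) .nil)))))) .nil)))))),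
 (.br (nat_lit 14) (nat_lit 1) (.cons (.br (nat_lit 15) (nat_lit 1) (.cons (.ev (nat_lit 1334420292643455441345565603787702273) (nat_lit 1)) (.cons (.br (nat_lit 16) (nat_lit 1) (.cons (.ev (nat_lit 683223210513858934917378559144041382145) (nat_lit 3)) .nil)) .nil))) (.cons (.br (nat_lit 17) (nat_lit 1) (.cons (.ev (nat_lit 1334420292643455441345565603787702273) (nat_lit 1)) (.cons (.zr (nat_lit 174224582349526258404791687344220503277825) (nat_lit 238303457562724499542721691648) (nat_lit 8) (nat_lit 0)) .nil))) .nil))),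
 (.br (nat_lit 14) (nat_lit 1) (.cons (.rf (nat_lit 1112) (nat_lit 677582165103132179601393696)) (.cons (.br (nat_lit 15) (nat_lit 1) (.cons (.rf (nat_lit 744) (nat_lit 587360916208680020641889)) (.cons (.zr (nat_lit 174224582349526258404791687344220503277825) (nat_lit 238303457562724499542721691648) (nat_lit 8) (nat_lit 0)) .nil))) .nil))),
 (.br (nat_lit 10) (nat_lit 1) (.cons (.rf (nat_lit 846) (nat_lit 19533240131752602798177)) (.cons (.br (nat_lit 14) (nat_lit 1) (.cons (.rf (nat_lit 130) (nat_lit 17839526754402)) (.cons (.br (nat_lit 15) (nat_lit 1) (.cons (.ev (nat_lit 683223210355405037184933287836134801665) (nat_lit 3)) (.cons (.br (nat_lit 16) (nat_lit 1) (.cons (.ev (nat_lit 688560891684432756534897508278230844673) (nat_lit 3)) .nil)) .nil))) (.cons (.br (nat_lit 15) (nat_lit 1) (.cons (.br (nat_lit 16) (nat_lit 1) (.cons (.ev (nat_lit 92220576619580853957733725087763469633032) (nat_lit 4)) .nil)) (.cons (.ev (nat_lit 174224582268476471958459372858717566796545) (nat_lit 3)) .nil))) .nil)))) (.cons (.br (nat_lit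 14) (nat_lit 1) (.cons (.rf (nat_lit 994) (nat_lit 676337817933005753382148224)) (.cons (.rf (nat_lit 130) (nat_lit 19077513361506)) (.cons (.br (nat_lit 16) (nat_lit 1) (.cons (.zr (nat_lit 680575219847642038470637554014386913537) (nat_lit 238303457562580384358940672000) (nat_lit 8) (nat_lit 0)) (.cons (.ev (nat_lit 87452568319042822880975575354379182539008) (nat_lit 1)) .nil))) .nil)))) (.cons (.ev (nat_lit 79229376162522492686418641153) (nat_lit 1)) .nil))))),
 (.br (nat_lit 10) (nat_lit 1) (.cons (.br (nat_lit 14) (nat_lit 1) (.cons (.rf (nat_lit 130) (nat_lit 17839519414594)) (.cons (.br (nat_lit 15) (nat_lit 1) (.cons (.ev (nat_lit 688560891367515251921989823421307028225) (nat_lit 3)) (.cons (.br (nat_lit 16) (nat_lit 1) (.cons (.ev (nat_lit 683223210671079747166100567512143889153) (nat_lit 3)) .nil)) .nil))) (.cons (.br (nat_lit 15) (nat_lit 1) (.cons (.rf (nat_lit 874) (nat_lit 661701295917511241501761)) (.cons (.ev (nat_lit 174229919949805499677920018106551739220225) (nat_lit 3)) .nil))) .nil)))) (.cons (.rf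 (nat_lit 846) (nat_lit 20677686667632008506700)) (.cons (.ev (nat_lit 310698676454469215759368193) (nat_lit 1)) (.cons (.br (nat_lit 15) (nat_lit 1) (.cons (.br (nat_lit 17) (nat_lit 1) (.cons (.ev (nat_lit 1334440575362539362096165266151964928) (nat_lit 1)) (.cons (.zr (nat_lit 174227230420924111157437504931609081544961) (nat_lit 238303457562580384354645704704) (nat_lit 8) (nat_lit 0)) .nil))) (.cons (.rf (nat_lit 996) (nat_lit 561528339167078012551535917)) (.cons (.rf (nat_lit 130) (nat_lit 15601812159843)) .nil)))) .nil))))),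
 (.br (nat_lit 16) (nat_lit 1) (.cons (.ev (nat_lit 340287559218107692245163180773032853505) (nat_lit 1)) .nil)),
 (.br (nat_lit 14) (nat_lit 1) (.cons (.rf (nat_lit 68) (nat_lit 18122994195526)) (.cons (.rf (nat_lit 68) (nat_lit 17057809800262)) (.cons (.br (nat_lit 15) (nat_lit 1) (.cons (.rf (nat_lit 1116) (nat_lit 677582165103132179601393696)) (.cons (.br (nat_lit 15) (nat_lit 1) (.cons (.rf (nat_lit 1116) (nat_lit 677582165103132179601393696)) .nil)) .nil))) .nil)))),
 (.br (nat_lit 16) (nat_lit 1) (.cons (.ev (nat_lit 341611594996261031582802920192505610497) (nat_lit 1)) .nil)),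
 (.br (nat_lit 11) (nat_lit 1) (.cons (.ev (nat_lit 20838866083458604666452371965697) (nat_lit 3)) (.cons (.ev (nat_lit 2658476512285315552366761241391137539) (nat_lit 2)) (.cons (.br (nat_lit 15) (nat_lit 1) (.cons (.rf (nat_lit 68) (nat_lit 18089700039782)) (.cons (.rf (nat_lit 68) (nat_lit 15959103708262)) (.cons (.br (nat_lit 14) (nat_lit 1) (.cons (.rf (nat_lit 1118) (nat_lit 677582165103132179601393696)) (.cons (.br (nat_lit 14) (nat_lit 1) (.cons (.rf (nat_lit 1118) (nat_lit 677582165103132179601393696)) .nil)) .nil))) .nil)))) .nil)))),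
 (.br (nat_lit 14) (nat_lit 1) (.cons (.br (nat_lit 15) (nat_lit 1) (.cons (.ev (nat_lit 685892051255740406176780103300686022401) (nat_lit 3)) (.cons (.rf (nat_lit 744) (nat_lit 661701183358440156956868)) .nil))) (.cons (.ev (nat_lit 10404955973810618541791824060743939) (nat_lit 2)) .nil))),
 (.br (nat_lit 14) (nat_lit 1) (.cons (.rf (nat_lit 1120) (nat_lit 677582165103132179601393696)) (.cons (.br (nat_lit 16) (nat_lit 1) (.cons (.zr (nat_lit 680575341542099669936073527879442368256) (nat_lit 396764618294243405090888351745) (nat_lit 24) (nat_lit 0)) (.cons (.ev (nat_lit 349129718866313587348070228812270747518721) (nat_lit 3)) .nil))) .nil))),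
 (.br (nat_lit 14) (nat_lit 1) (.cons (.rf (nat_lit 68) (nat_lit 18122994293858)) (.cons (.rf (nat_lit 68) (nat_lit 17057809898594)) (.cons (.br (nat_lit 15) (nat_lit 1) (.cons (.br (nat_lit 15) (nat_lit 1) (.cons (.ev (nat_lit 1334440654591910820626860463068610560) (nat_lit 1)) .nil)) (.cons (.br (nat_lit 15) (nat_lit 1) (.cons (.ev (nat_lit 1334440654591910820626860463068610560) (nat_lit 1)) .nil)) .nil))) .nil)))),
 (.br (nat_lit 14) (nat_lit 1) (.cons (.rf (nat_lit 68) (nat_lit 18122726022338)) (.cons (.rf (nat_lit 68) (nat_lit 17057801673922)) (.cons (.br (nat_lit 15) (nat_lit 1) (.cons (.br (nat_lit 15) (nat_lit 1) (.cons (.ev (nat_lit 1334420292954144636245354852858790145) (nat_lit 1)) .nil)) (.cons (.br (nat_lit 15) (nat_lit 1) (.cons (.ev (nat_lit 1334420292954144636245354852858790145) (nat_lit 1)) .nil)) .nil))) .nil)))),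
 (.br (nat_lit 14) (nat_lit 1) (.cons (.ev (nat_lit 1334440575362539380471133225095331840) (nat_lit 1)) .nil)),
 (.br (nat_lit 14) (nat_lit 1) (.cons (.br (nat_lit 15) (nat_lit 1) (.cons (.ev (nat_lit 681899215140517430694722317564686434561) (nat_lit 2)) .nil)) .nil)),
 (.br (nat_lit 14) (nat_lit 1) (.cons (.br (nat_lit 15) (nat_lit 1) (.cons (.ev (nat_lit 1363798329106047501357721704043661756161) (nat_lit 3)) (.cons (.ev (nat_lit 1334420531258820606199747938951036930) (nat_lit 2)) .nil))) (.cons (.br (nat_lit 15) (nat_lit 1) (.cons (.ev (nat_lit 1334420531258820606199747938951036930) (nat_lit 2)) (.cons (.ev (nat_lit 348451812588463280252889287211527771784961) (nat_lit 3)) .nil))) .nil))),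
 (.br (nat_lit 14) (nat_lit 1) (.cons (.rf (nat_lit 1126) (nat_lit 677582165103132179601393696)) (.cons (.br (nat_lit 16) (nat_lit 1) (.cons (.br (nat_lit 15) (nat_lit 1) (.cons (.zr (nat_lit 2669063691792584162971404728337959168) (nat_lit 397381170462246865970022055937) (nat_lit 24) (nat_lit 0)) .nil)) (.cons (.ev (nat_lit 680564754204133667890178063082037838083) (nat_lit 2)) .nil))) .nil))),
 (.br (nat_lit 10) (nat_lit 1) (.cons (.ev (nat_lit 79229376162522492686401798401) (nat_lit 1)) (.cons (.ev (nat_lit 79229371440156010916268212481) (nat_lit 1)) (.cons (.kr (nat_lit 1213648186097503114887168) (nat_lit 79228162514336676662558588928) (nat_lit 4) (nat_lit 0)) (.cons (.br (nat_lit 3) (nat_lit 1) (.cons (.zr (nat_lit 237684492265159498961696850179) (nat_lit 20283028573726797461493939044352) (nat_lit 8) (nat_lit 13)) (.cons (.br (nat_lit 11) (nat_lit 1) (.cons (.ev (nat_lit 20679169391020486761534040703745) (nat_lit 3)) (.cons (.ev (nat_lit 20837632997938276699877847204609) (nat_lit 3)) (.cons (.rf (nat_lit 1122) (nat_lit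 19926519232773908561233952)) .nil)))) (.cons (.br (nat_lit 11) (nat_lit 1) (.cons (.ev (nat_lit 20837632997938276699877847204609) (nat_lit 3)) (.cons (.ev (nat_lit 20362261595556460905648569320193) (nat_lit 3)) (.cons (.br (nat_lit 15) (nat_lit 1) (.cons (.rf (nat_lit 68) (nat_lit 18089704234082)) (.cons (.rf (nat_lit 68) (nat_lit 15959237925986)) (.cons (.br (nat_lit 14) (nat_lit 1) (.cons (.br (nat_lit 14) (nat_lit 1) (.cons (.ev (nat_lit 1334420372181098224618302793383477505) (nat_lit 1)) .nil)) (.cons (.br (nat_lit 14) (nat_lit 1) (.cons (.ev (nat_lit 1334420372181098224618302793383477505) (nat_lit 1)) .nil)) .nil))) .nil)))) .nil)))) (.cons (.br (nat_lit 11) (nat_lit 1) (.cons (.rf (nat_lit 1123) (nat_lit 19926519232773908561233952)) (.cons (.br (nat_lit 15) (nat_lit 1) (.cons (.rf (nat_lit 68) (nat_lit 18089435831618)) (.cons (.rf (nat_lit 68) (nat_lit 15959229570370)) (.cons (.br (nat_lit 14) (nat_lit 1) (.cons (.rf (nat_lit 1124) (nat_lit 677582165103132179601393696)) (.cons (.br (nat_lit 14) (nat_lit 1) (.cons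 (.ev (nat_lit 1334420372181102946984784563517063425) (nat_lit 1)) .nil)) .nil))) .nil)))) (.cons (.br (nat_lit 16) (nat_lit 1) (.cons (.ev (nat_lit 1361129488362923263763451127137740915457) (nat_lit 3)) (.cons (.ev (nat_lit 1361129488046015430520493408295107822337) (nat_lit 3)) (.cons (.br (nat_lit 14) (nat_lit 1) (.cons (.rf (nat_lit 1125) (nat_lit 677582165103132179601393696)) (.cons (.br (nat_lit 14) (nat_lit 1) (.cons (.rf (nat_lit 1125) (nat_lit 677582165103132179601393696)) .nil)) .nil))) .nil)))) (.cons (.br (nat_lit 14) (nat_lit 1) (.cons (.rf (nat_lit 1126) (nat_lit 677582165103132179601393696)) (.cons (.rf (nat_lit 1127) (nat_lit 677582165103132179601393696)) (.cons (.br (nat_lit 14) (nat_lit 1) (.cons (.rf (nat_lit 1126) (nat_lit 677582165103132179601393696)) (.cons (.rf (nat_lit 1127) (nat_lit 677582165103132179601393696)) .nil))) .nil)))) .nil))))) .nil))))) .nil)))))]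

theorem c48 : chkAll C T R L48 (nat_lit 1106) = true := by decide +kernel

theorem l48 : (nat_lit 1106) + L48.length = (nat_lit 1129) := by decide +kernel

/-- part of the certificates -/
def L49 : List Prf := [(.br (nat_lit 14) (nat_lit 1) (.cons (.ev (nat_lit 10404955357267858521925923897475843) (nat_lit 2)) (.cons (.br (nat_lit 15) (nat_lit 1) (.cons (.kr (nat_lit 5192296859748475814627995149140224) (nat_lit 1329227996094400901171896202731454464) (nat_lit 1) (nat_lit 0)) (.cons (.ev (nat_lit 2658476353826572709236462339062104323) (nat_lit 2)) .nil))) .nil))),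
 (.br (nat_lit 14) (nat_lit 1) (.cons (.ev (nat_lit 10404955357267858521925923897475843) (nat_lit 2)) (.cons (.br (nat_lit 16) (nat_lit 1) (.cons (.rf (nat_lit 720) (nat_lit 660557489596195655424068)) (.cons (.ev (nat_lit 87452568319042822876253208871505225646336) (nat_lit 1)) .nil))) .nil))),
 (.br (nat_lit 10) (nat_lit 1) (.cons (.rf (nat_lit 47) (nat_lit 476417346)) (.cons (.br (nat_lit 14) (nat_lit 1) (.cons (.ev (nat_lit 10404955357258450537770193996742915) (nat_lit 2)) (.cons (.ev (nat_lit 10404955357267895414851121363026179) (nat_lit 2)) (.cons (.br (nat_lit 11) (nat_lit 1) (.cons (.rf (nat_lit 40) (nat_lit 17981398813890)) (.cons (.rf (nat_lit 68) (nat_lit 17057709362370)) (.cons (.br (nat_lit 15) (nat_lit 1) (.cons (.br (nat_lit 15) (nat_lit 1) (.cons (.ev (nat_lit 1334420292954149358611838822015631617) (nat_lit 1)) .nil)) (.cons (.br (nat_lit 15) (nat_lit 1) (.cons (.ev (nat_lit 1334420292954149358611838822015631617) (nat_lit 1)) .nil)) .nil))) .nil)))) .nil)))) (.cons (.br (nat_lit 11) (nat_lit 1) (.cons (.br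 (nat_lit 14) (nat_lit 1) (.cons (.ev (nat_lit 10404955357258413644844996531192579) (nat_lit 2)) (.cons (.rf (nat_lit 40) (nat_lit 17948112817346)) .nil))) (.cons (.ev (nat_lit 2658476353826582116931261792904020739) (nat_lit 2)) (.cons (.rf (nat_lit 719) (nat_lit 17136172036796485508197)) .nil)))) (.cons (.br (nat_lit 11) (nat_lit 1) (.cons (.rf (nat_lit 719) (nat_lit 18315647925923906361412)) (.cons (.br (nat_lit 15) (nat_lit 1) (.cons (.ev (nat_lit 2658476353826582153825312890276675843) (nat_lit 2)) (.cons (.rf (nat_lit 68) (nat_lit 15959236906210)) (.cons (.br (nat_lit 14) (nat_lit 1) (.cons (.br (nat_lit 14) (nat_lit 1) (.cons (.ev (nat_lit 1334420292954144654620323907018686465) (nat_lit 1)) .nil)) (.cons (.br (nat_lit 14) (nat_lit 1) (.cons (.ev (nat_lit 1334420292954144654620323907018686465) (nat_lit 1)) .nil)) .nil))) .nil)))) (.cons (.br (nat_lit 16) (nat_lit 1) (.cons (.rf (nat_lit 68) (nat_lit 16991132159298)) (.cons (.rf (nat_lit 68) (nat_lit 15925947764034)) (.cons (.br (nat_lit 14) (nat_lit 1) (.cons (.br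 (nat_lit 14) (nat_lit 1) (.cons (.zr (nat_lit 680564794689105737900351908917029371904) (nat_lit 10384672947654743527111818003612417) (nat_lit 8) (nat_lit 4)) .nil)) (.cons (.br (nat_lit 14) (nat_lit 1) (.cons (.zr (nat_lit 680564794689105737900351908917029371904) (nat_lit 10384672947654743527111818003612417) (nat_lit 8) (nat_lit 4)) .nil)) .nil))) .nil)))) (.cons (.br (nat_lit 14) (nat_lit 1) (.cons (.rf (nat_lit 1129) (nat_lit 677582165103132179601393696)) (.cons (.rf (nat_lit 1130) (nat_lit 677582165103132179601393696)) (.cons (.br (nat_lit 14) (nat_lit 1) (.cons (.rf (nat_lit 1129) (nat_lit 677582165103132179601393696)) (.cons (.rf (nat_lit 1130) (nat_lit 677582165103132179601393696)) .nil))) .nil)))) .nil))))) .nil))))),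
 (.br (nat_lit 10) (nat_lit 1) (.cons (.rf (nat_lit 40) (nat_lit 17943785319522)) (.cons (.rf (nat_lit 68) (nat_lit 15959236783202)) (.cons (.br (nat_lit 14) (nat_lit 1) (.cons (.br (nat_lit 14) (nat_lit 1) (.cons (.ev (nat_lit 1334420292954149376986805677152272385) (nat_lit 1)) .nil)) (.cons (.br (nat_lit 14) (nat_lit 1) (.cons (.ev (nat_lit 1334420292954149376986805677152272385) (nat_lit 1)) .nil)) .nil))) .nil)))),
 (.br (nat_lit 14) (nat_lit 1) (.cons (.br (nat_lit 15) (nat_lit 1) (.cons (.ev (nat_lit 2658476353826582153969425879329276163) (nat_lit 2)) (.cons (.kr (nat_lit 5192296859748475814627995149140224) (nat_lit 1329227996094400901171896202731454464) (nat_lit 1) (nat_lit 0)) .nil))) (.cons (.ev (nat_lit 10404955357258413788957985583792899) (nat_lit 2)) .nil))),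
 (.br (nat_lit 14) (nat_lit 1) (.cons (.rf (nat_lit 1133) (nat_lit 677582165103132179601393696)) (.cons (.br (nat_lit 17) (nat_lit 1) (.cons (.rf (nat_lit 744) (nat_lit 586217110979146162411588)) (.cons (.ev (nat_lit 87452568319042822876253208871505225646336) (nat_lit 1)) .nil))) .nil))),
 (.br (nat_lit 3) (nat_lit 1) (.cons (.rf (nat_lit 47) (nat_lit 476392546)) (.cons (.br (nat_lit 10) (nat_lit 1) (.cons (.ev (nat_lit 10404955357267895270733734263914755) (nat_lit 2)) (.cons (.br (nat_lit 14) (nat_lit 1) (.cons (.ev (nat_lit 10404955357258413644844996531192579) (nat_lit 2)) (.cons (.rf (nat_lit 40) (nat_lit 17942744116322)) .nil))) (.cons (.rf (nat_lit 786) (nat_lit 19423415167583625026921)) .nil)))) (.cons (.br (nat_lit 15) (nat_lit 1) (.cons (.ev (nat_lit 2658476353826572672198293854590337795) (nat_lit 2)) (.cons (.ev (nat_lit 2658476353826582153825312890276675843) (nat_lit 2)) (.cons (.rf (nat_lit 1132) (nat_lit 19926519232773908561233952)) .nil)))) (.cons (.br (nat_lit 10) (nat_lit 1) (.cons (.rf (nat_lit 1117)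 (nat_lit 18755364122567653674260736)) (.cons (.rf (nat_lit 786) (nat_lit 17100576848813883526209)) (.cons (.br (nat_lit 16) (nat_lit 1) (.cons (.rf (nat_lit 68) (nat_lit 16991132134498)) (.cons (.rf (nat_lit 68) (nat_lit 15925947739234)) (.cons (.br (nat_lit 14) (nat_lit 1) (.cons (.br (nat_lit 14) (nat_lit 1) (.cons (.zr (nat_lit 680564794689105737900351910016540999680) (nat_lit 10384672947664188260076457782412033) (nat_lit 8) (nat_lit 4)) .nil)) (.cons (.br (nat_lit 14) (nat_lit 1) (.cons (.zr (nat_lit 680564794689105737900351910016540999680) (nat_lit 10384672947664188260076457782412033) (nat_lit 8) (nat_lit 4)) .nil)) .nil))) .nil)))) (.cons (.br (nat_lit 14) (nat_lit 1) (.cons (.rf (nat_lit 1133) (nat_lit 677582165103132179601393696)) (.cons (.rf (nat_lit 1134) (nat_lit 677582165103132179601393696)) (.cons (.br (nat_lit 14) (nat_lit 1) (.cons (.ev (nat_lit 10404955357258413788957985583792899) (nat_lit 2)) (.cons (.rf (nat_lit 1134) (nat_lit 677582165103132179601393696)) .nil))) .nil)))) .nil))))) .nil))))),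
 (.br (nat_lit 14) (nat_lit 1) (.cons (.ev (nat_lit 10405113811165590533727966726324995) (nat_lit 2)) (.cons (.ev (nat_lit 10405113811165627427779064098717955) (nat_lit 2)) (.cons (.ev (nat_lit 10405113811175035266691506993496835) (nat_lit 2)) (.cons (.ev (nat_lit 10405113811165590677840955778925315) (nat_lit 2)) (.cons (.br (nat_lit 10) (nat_lit 1) (.cons (.rf (nat_lit 1135) (nat_lit 583213524074663839639949)) (.cons (.rf (nat_lit 1131) (nat_lit 583213524074663839639949)) (.cons (.br (nat_lit 3) (nat_lit 1) (.cons (.rf (nat_lit 40) (nat_lit 17942744116291)) (.cons (.rf (nat_lit 102) (nat_lit 17977057819875)) (.cons (.br (nat_lit 11) (nat_lit 1) (.cons (.ev (nat_lit 1334440654591915542993344432225452032) (nat_lit 1)) (.cons (.ev (nat_lit 2041704606956354605872573379745455146241) (nat_lit 3)) (.cons (.br (nat_lit 15) (nat_lit 1) (.cons (.ev (nat_lit 2041704606956354596427984529194240574721) (nat_lit 3)) (.cons (.ev (nat_lit 1334420292954149358539780128466075905) (nat_lit 1)) .nil))) .nil)))) (.cons (.br (nat_lit 11) (nat_lit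 1) (.cons (.rf (nat_lit 102) (nat_lit 17702179945799)) (.cons (.br (nat_lit 15) (nat_lit 1) (.cons (.ev (nat_lit 2041704606956354605872717492734507746561) (nat_lit 3)) (.cons (.ev (nat_lit 1334420292954149358539780128466075905) (nat_lit 1)) .nil))) (.cons (.br (nat_lit 15) (nat_lit 1) (.cons (.ev (nat_lit 1334420292954149358539780128466075905) (nat_lit 1)) (.cons (.zr (nat_lit 2658476512285315534065820101811112192) (nat_lit 522673715590561479879872524229213793288195) (nat_lit 8) (nat_lit 12)) .nil))) .nil)))) .nil))))) (.cons (.br (nat_lit 16) (nat_lit 1) (.cons (.ev (nat_lit 2041704606956354596464733341402653786881) (nat_lit 3)) (.cons (.ev (nat_lit 2041704606956354605909466304942920958721) (nat_lit 3)) (.cons (.ev (nat_lit 2041704606956354596464877454391706387201) (nat_lit 3)) (.cons (.br (nat_lit 3) (nat_lit 1) (.cons (.rf (nat_lit 12) (nat_lit 18943505017923)) (.cons (.br (nat_lit 11) (nat_lit 1) (.cons (.ev (nat_lit 1334440654591915524546881833492545792) (nat_lit 1)) (.cons (.br (nat_lit 15) (nat_lit 1) (.cons (.ev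 (nat_lit 1334420292954149376986805677152272385) (nat_lit 1)) .nil)) .nil))) (.cons (.br (nat_lit 17) (nat_lit 1) (.cons (.ev (nat_lit 87452568319042822876253208871505225646336) (nat_lit 1)) (.cons (.ev (nat_lit 87452568319042822880975647411968908787968) (nat_lit 1)) .nil))) .nil)))) .nil))))) (.cons (.br (nat_lit 3) (nat_lit 1) (.cons (.br (nat_lit 15) (nat_lit 1) (.cons (.br (nat_lit 15) (nat_lit 1) (.cons (.ev (nat_lit 1334420292954144654692380401544986625) (nat_lit 1)) .nil)) (.cons (.br (nat_lit 15) (nat_lit 1) (.cons (.ev (nat_lit 1334420292954144654692380401544986625) (nat_lit 1)) .nil)) .nil))) (.cons (.br (nat_lit 11) (nat_lit 1) (.cons (.rf (nat_lit 102) (nat_lit 17942698114275)) (.cons (.br (nat_lit 15) (nat_lit 1) (.cons (.ev (nat_lit 2041704606956354605872717492734507746561) (nat_lit 3)) (.cons (.ev (nat_lit 1334420292954149376986805677152272385) (nat_lit 1)) .nil))) (.cons (.br (nat_lit 15) (nat_lit 1) (.cons (.ev (nat_lit 1334420292954149376986805677152272385) (nat_lit 1)) (.cons (.zr (nat_lit 2658476512285315552510312375706976512)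 (nat_lit 522673715590561479879743397020697825902595) (nat_lit 8) (nat_lit 12)) .nil))) .nil)))) (.cons (.br (nat_lit 16) (nat_lit 1) (.cons (.ev (nat_lit 2041704606956354605872573379745455146241) (nat_lit 3)) (.cons (.ev (nat_lit 2041704606956354596427984529194240574721) (nat_lit 3)) (.cons (.br (nat_lit 17) (nat_lit 1) (.cons (.ev (nat_lit 87452568319042822876253208871505225646336) (nat_lit 1)) (.cons (.ev (nat_lit 87452568319042822880975647411968908787968) (nat_lit 1)) .nil))) .nil)))) (.cons (.br (nat_lit 11) (nat_lit 1) (.cons (.br (nat_lit 15) (nat_lit 1) (.cons (.ev (nat_lit 1334420292954144654620323907018686465) (nat_lit 1)) (.cons (.zr (nat_lit 2658476512285310830143832804596646144) (nat_lit 522673715590561479912799962395287784259587) (nat_lit 8) (nat_lit 12)) .nil))) (.cons (.br (nat_lit 16) (nat_lit 1) (.cons (.ev (nat_lit 2041704606956354605872717492734507746561) (nat_lit 3)) (.cons (.ev (nat_lit 87452568319042822876253208871505225646336) (nat_lit 1)) .nil))) (.cons (.rf (nat_lit 102) (nat_lit 17839618901315))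 .nil)))) .nil))))) .nil)))))) .nil)))))),
 (.br (nat_lit 10) (nat_lit 1) (.cons (.rf (nat_lit 1135) (nat_lit 583213524074663839639949)) (.cons (.rf (nat_lit 1131) (nat_lit 583213524074663839639949)) (.cons (.rf (nat_lit 1136) (nat_lit 583213524074663839639949)) (.cons (.br (nat_lit 3) (nat_lit 1) (.cons (.ev (nat_lit 2658476353826582117075374781956621059) (nat_lit 2)) (.cons (.br (nat_lit 11) (nat_lit 1) (.cons (.ev (nat_lit 10404955357258413644844996531192579) (nat_lit 2)) (.cons (.rf (nat_lit 119) (nat_lit 18080037420258)) .nil))) (.cons (.rf (nat_lit 1038) (nat_lit 19459341688168407894212)) .nil)))) (.cons (.br (nat_lit 3) (nat_lit 1) (.cons (.rf (nat_lit 1122) (nat_lit 19889436625068625633709229)) (.cons (.br (nat_lit 14) (nat_lit 1) (.cons (.rf (nat_lit 119) (nat_lit 18115436329155)) (.cons (.rf (nat_lit 130) (nat_lit 17981118068931)) (.cons (.ev (nat_lit 10404955357267858521925923897475843) (nat_lit 2)) (.cons (.br (nat_lit 11) (nat_lit 1) (.cons (.ev (nat_lit 2658476353826582153969425879329276163) (nat_lit 2))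 (.cons (.br (nat_lit 15) (nat_lit 1) (.cons (.ev (nat_lit 2658476353826572709092344951962992899) (nat_lit 2)) (.cons (.kr (nat_lit 5192296859748475886685589187068160) (nat_lit 1329227996094400901171897302243082240) (nat_lit 1) (nat_lit 0)) .nil))) (.cons (.br (nat_lit 15) (nat_lit 1) (.cons (.kr (nat_lit 5192296859748475886685589187068160) (nat_lit 1329227996094400901171897302243082240) (nat_lit 1) (nat_lit 0)) (.cons (.ev (nat_lit 2658476353826572709092344951962992899) (nat_lit 2)) .nil))) .nil)))) .nil))))) (.cons (.br (nat_lit 11) (nat_lit 1) (.cons (.ev (nat_lit 2658476353826572709236462339062104323) (nat_lit 2)) (.cons (.rf (nat_lit 119) (nat_lit 15954941820002)) (.cons (.br (nat_lit 14) (nat_lit 1) (.cons (.br (nat_lit 14) (nat_lit 1) (.cons (.ev (nat_lit 1334420292954149376986805677152272385) (nat_lit 1)) .nil)) (.cons (.br (nat_lit 14) (nat_lit 1) (.cons (.ev (nat_lit 1334420292954149376986805677152272385) (nat_lit 1)) .nil)) .nil))) .nil)))) (.cons (.br (nat_lit 11) (nat_lit 1) (.cons (.br (nat_lit 14) (nat_lit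 1) (.cons (.ev (nat_lit 1334440654591915524474823139942990080) (nat_lit 1)) (.cons (.ev (nat_lit 10404955357258413788957985583792899) (nat_lit 2)) (.cons (.br (nat_lit 15) (nat_lit 1) (.cons (.ev (nat_lit 2658476353826572709092344951962992899) (nat_lit 2)) (.cons (.kr (nat_lit 5192296859743753520202719541854464) (nat_lit 1329227996094400901171896202731454464) (nat_lit 1) (nat_lit 0)) .nil))) .nil)))) (.cons (.rf (nat_lit 119) (nat_lit 15953860869346)) (.cons (.rf (nat_lit 119) (nat_lit 15916278858051)) (.cons (.br (nat_lit 15) (nat_lit 1) (.cons (.br (nat_lit 14) (nat_lit 1) (.cons (.ev (nat_lit 10404955357267858377808536798364419) (nat_lit 2)) (.cons (.kr (nat_lit 5192296859748475814627995149140224) (nat_lit 1329227996094400901171896202731454464) (nat_lit 1) (nat_lit 0)) .nil))) (.cons (.rf (nat_lit 130) (nat_lit 15777901591778)) (.cons (.br (nat_lit 16) (nat_lit 1) (.cons (.rf (nat_lit 906) (nat_lit 659378159085728444845121)) (.cons (.ev (nat_lit 87452568319042822876253208871505225646336) (nat_lit 1)) .nil))) .nil))))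 .nil))))) (.cons (.br (nat_lit 11) (nat_lit 1) (.cons (.br (nat_lit 14) (nat_lit 1) (.cons (.rf (nat_lit 130) (nat_lit 19038753765734)) (.cons (.ev (nat_lit 10404955357258413788957985583792899) (nat_lit 2)) (.cons (.br (nat_lit 15) (nat_lit 1) (.cons (.kr (nat_lit 5192296859743753520202719541854464) (nat_lit 1329227996094400901171896202731454464) (nat_lit 1) (nat_lit 0)) (.cons (.ev (nat_lit 2658476353826572709092344951962992899) (nat_lit 2)) .nil))) .nil)))) (.cons (.br (nat_lit 14) (nat_lit 1) (.cons (.br (nat_lit 14) (nat_lit 1) (.cons (.ev (nat_lit 1334420292954144654620323907018686465) (nat_lit 1)) .nil)) (.cons (.br (nat_lit 14) (nat_lit 1) (.cons (.ev (nat_lit 1334420292954144654620323907018686465) (nat_lit 1)) .nil)) .nil))) (.cons (.br (nat_lit 15) (nat_lit 1) (.cons (.br (nat_lit 14) (nat_lit 1) (.cons (.ev (nat_lit 10404955357267858377808536798364419) (nat_lit 2)) (.cons (.kr (nat_lit 5192296859748475814627995149140224) (nat_lit 1329227996094400901171896202731454464) (nat_lit 1) (nat_lit 0)) .nil))) (.cons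 (.rf (nat_lit 130) (nat_lit 18901457452258)) (.cons (.br (nat_lit 16) (nat_lit 1) (.cons (.rf (nat_lit 907) (nat_lit 659378159085728444845121)) (.cons (.ev (nat_lit 87452568319042822876253208871505225646336) (nat_lit 1)) .nil))) .nil)))) (.cons (.br (nat_lit 15) (nat_lit 1) (.cons (.ev (nat_lit 2658476353826572709092344951962992899) (nat_lit 2)) (.cons (.rf (nat_lit 996) (nat_lit 561528823542872804334734496)) (.cons (.rf (nat_lit 130) (nat_lit 15743575440610)) .nil)))) .nil))))) .nil)))))) .nil)))))),
 (.br (nat_lit 14) (nat_lit 1) (.cons (.ev (nat_lit 10404955357258413644844996531192579) (nat_lit 2)) (.cons (.ev (nat_lit 10404955357267858521925923897475843) (nat_lit 2)) (.cons (.ev (nat_lit 2041704606639446801000419250708624442113) (nat_lit 3)) (.cons (.br (nat_lit 11) (nat_lit 1) (.cons (.br (nat_lit 15) (nat_lit 1) (.cons (.ev (nat_lit 2044352677879462198674678377816751603969) (nat_lit 3)) (.cons (.ev (nat_lit 1334440575362539362024107676409004288) (nat_lit 1)) .nil))) (.cons (.rf (nat_lit 102) (nat_lit 18939131576642))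 (.cons (.br (nat_lit 17) (nat_lit 1) (.cons (.rf (nat_lit 829) (nat_lit 586217106608820671744196)) (.cons (.ev (nat_lit 87452568298760414481545805087735835328513) (nat_lit 1)) .nil))) .nil)))) .nil))))),
 (.br (nat_lit 11) (nat_lit 1) (.cons (.rf (nat_lit 1138) (nat_lit 19926026637908730634938765)) (.cons (.ev (nat_lit 2658476512285315589403803825956061443) (nat_lit 2)) (.cons (.rf (nat_lit 119) (nat_lit 15916279906626)) (.cons (.br (nat_lit 15) (nat_lit 1) (.cons (.br (nat_lit 14) (nat_lit 1) (.cons (.ev (nat_lit 2041704606639446801000851598471875265281) (nat_lit 3)) (.cons (.ev (nat_lit 1334440575362544084462648140092145920) (nat_lit 1)) .nil))) (.cons (.rf (nat_lit 130) (nat_lit 15777900543203)) (.cons (.ev (nat_lit 2658476512285325033992654377170632963) (nat_lit 2)) .nil)))) .nil))))),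
 (.br (nat_lit 15) (nat_lit 1) (.cons (.ev (nat_lit 1334420372181102965431247162249838593) (nat_lit 1)) (.cons (.br (nat_lit 16) (nat_lit 1) (.cons (.kr (nat_lit 87112291124057106399822080894872433197568) (nat_lit 341611594917032864383065305302247211008) (nat_lit 1) (nat_lit 0)) .nil)) .nil))),
 (.br (nat_lit 14) (nat_lit 1) (.cons (.rf (nat_lit 1140) (nat_lit 677582165103132179601393696)) (.cons (.rf (nat_lit 1140) (nat_lit 640104972100213497259207053)) .nil))),
 (.br (nat_lit 14) (nat_lit 1) (.cons (.rf (nat_lit 1140) (nat_lit 677582165103132179601393696)) (.cons (.ev (nat_lit 10404955357267858377808536798364419) (nat_lit 2)) .nil)))]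

theorem c49 : chkAll C T R L49 (nat_lit 1129) = true := by decide +kernel

theorem l49 : (nat_lit 1129) + L49.length = (nat_lit 1143) := by decide +kernel

/-- part of the certificates -/
def L50 : List Prf := [(.br (nat_lit 15) (nat_lit 1) (.cons (.ev (nat_lit 2658476512285325034136767366223233283) (nat_lit 2)) .nil)),
 (.br (nat_lit 15) (nat_lit 1) (.cons (.ev (nat_lit 2658476353826572709092344951962992899) (nat_lit 2)) (.cons (.ev (nat_lit 2658476512285324997099729179704820483) (nat_lit 2)) (.cons (.ev (nat_lit 1334420372181098243136821886642552833) (nat_lit 1)) .nil)))),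
 (.br (nat_lit 11) (nat_lit 1) (.cons (.br (nat_lit 15) (nat_lit 1) (.cons (.rf (nat_lit 1143) (nat_lit 677582165103132179601393696)) (.cons (.rf (nat_lit 1143) (nat_lit 640104972100213497259207053)) .nil))) (.cons (.br (nat_lit 14) (nat_lit 1) (.cons (.kr (nat_lit 5192376086702064331690028533022976) (nat_lit 1329227996094400901171897306538049536) (nat_lit 1) (nat_lit 0)) (.cons (.br (nat_lit 15) (nat_lit 1) (.cons (.ev (nat_lit 1334440575362539362024107676409004288) (nat_lit 1)) (.cons (.br (nat_lit 16) (nat_lit 1) (.cons (.zr (nat_lit 2044352880624325227676246769195798233344) (nat_lit 20769583584623288682083283967803393) (nat_lit 24) (nat_lit 0)) .nil)) .nil))) (.cons (.br (nat_lit 17) (nat_lit 1) (.cons (.ev (nat_lit 1334440575362539362024107676409004288) (nat_lit 1)) (.cons (.rf (nat_lit 750) (nat_lit 19930089678669625340270861)) .nil))) .nil)))) (.cons (.br (nat_lit 14) (nat_lit 1) (.cons (.br (nat_lit 15) (nat_lit 1) (.cons (.ev (nat_lit 688560891367515270885529837861471389441) (nat_lit 3)) (.cons (.ev (nat_lit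 2658476512285325034136767366223233283) (nat_lit 2)) .nil))) (.cons (.rf (nat_lit 130) (nat_lit 16844159727811)) (.cons (.br (nat_lit 16) (nat_lit 1) (.cons (.rf (nat_lit 1144) (nat_lit 677582165103132179601393696)) (.cons (.zr (nat_lit 349129708683989369177331681511278142031616) (nat_lit 10385148319042958386451124561772545) (nat_lit 24) (nat_lit 0)) .nil))) .nil)))) (.cons (.br (nat_lit 14) (nat_lit 1) (.cons (.br (nat_lit 15) (nat_lit 1) (.cons (.ev (nat_lit 2658476512285325034136767366223233283) (nat_lit 2)) (.cons (.ev (nat_lit 174227230340032778608800454559641410471169) (nat_lit 3)) .nil))) (.cons (.br (nat_lit 17) (nat_lit 1) (.cons (.rf (nat_lit 1144) (nat_lit 640105464695078675185502240)) (.cons (.zr (nat_lit 175585701554310752801602792243484482864384) (nat_lit 10384989865135781497003005389832193) (nat_lit 24) (nat_lit 0)) .nil))) (.cons (.rf (nat_lit 130) (nat_lit 17835231852739)) .nil)))) .nil))))),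
 (.br (nat_lit 14) (nat_lit 1) (.cons (.ev (nat_lit 10404955357267858377808536798364419) (nat_lit 2)) .nil)),
 (.br (nat_lit 11) (nat_lit 1) (.cons (.rf (nat_lit 1145) (nat_lit 640104972100213497259207053)) (.cons (.br (nat_lit 14) (nat_lit 1) (.cons (.rf (nat_lit 1146) (nat_lit 677582165103132179601393696)) (.cons (.rf (nat_lit 1146) (nat_lit 640104972100213497259207053)) .nil))) (.cons (.br (nat_lit 15) (nat_lit 1) (.cons (.br (nat_lit 14) (nat_lit 1) (.cons (.ev (nat_lit 1334440575362544084462648140092145920) (nat_lit 1)) (.cons (.br (nat_lit 16) (nat_lit 1) (.cons (.zr (nat_lit 2041704809305081653247703824726235285248) (nat_lit 5316911984387289104556974205665673217) (nat_lit 24) (nat_lit 0)) .nil)) .nil))) (.cons (.zr (nat_lit 2658456071416978446958205652894352129) (nat_lit 2041694262372859591753705668202654072832) (nat_lit 8) (nat_lit 1)) (.cons (.ev (nat_lit 2658476512285325033992654377170632963) (nat_lit 2)) .nil)))) (.cons (.br (nat_lit 15) (nat_lit 1) (.cons (.rf (nat_lit 994) (nat_lit 636481739843334605681962285))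 (.cons (.ev (nat_lit 2658476512285325033992654377170632963) (nat_lit 2)) (.cons (.zr (nat_lit 2658476512285315552510312375706976512) (nat_lit 522673715590561479879743397020697825902595) (nat_lit 8) (nat_lit 12)) .nil)))) .nil))))),
 (.br (nat_lit 13) (nat_lit 1) (.cons (.br (nat_lit 14) (nat_lit 1) (.cons (.ev (nat_lit 5212579578832415011971739829665793) (nat_lit 1)) .nil)) .nil)),
 (.br (nat_lit 13) (nat_lit 1) (.cons (.rf (nat_lit 1148) (nat_lit 19926519232773908561233952)) (.cons (.br (nat_lit 13) (nat_lit 1) (.cons (.rf (nat_lit 1148) (nat_lit 19926519232773908561233952)) .nil)) .nil))),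
 (.br (nat_lit 12) (nat_lit 0) (.cons (.br (nat_lit 6) (nat_lit 1) (.cons (.zr (nat_lit 60847228825177450952676113122048) (nat_lit 237684487542793579029120286721) (nat_lit 8) (nat_lit 0)) (.cons (.ev (nat_lit 281479271678209) (nat_lit 1)) (.cons (.br (nat_lit 2) (nat_lit 1) (.cons (.rf (nat_lit 711) (nat_lit 445092485129178177)) (.cons (.ev (nat_lit 18446744078004584449) (nat_lit 1)) (.cons (.rf (nat_lit 738) (nat_lit 336903739535300676)) (.cons (.br (nat_lit 3) (nat_lit 1) (.cons (.rf (nat_lit 47) (nat_lit 472099011)) (.cons (.ev (nat_lit 80156622321507993212340404994) (nat_lit 2)) (.cons (.br (nat_lit 10) (nat_lit 1) (.cons (.ev (nat_lit 79537647524158021731300212993) (nat_lit 1)) (.cons (.zr (nat_lit 20870599482171754556549592294359297) (nat_lit 237686905394432247549424435200) (nat_lit 8) (nat_lit 0)) (.cons (.br (nat_lit 11) (nat_lit 1) (.cons (.ev (nat_lit 10405113811175035410808894092608259) (nat_lit 2)) (.cons (.ev (nat_lit 20838866083458604666452371965697) (nat_lit 3)) (.cons (.rf (nat_lit 1117) (nat_lit 19926519232773908561233952))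 .nil)))) .nil)))) (.cons (.br (nat_lit 10) (nat_lit 1) (.cons (.rf (nat_lit 47) (nat_lit 472227142)) (.cons (.br (nat_lit 11) (nat_lit 1) (.cons (.zr (nat_lit 20870599482157587457100983358718209) (nat_lit 237686910116798726021023137792) (nat_lit 8) (nat_lit 0)) (.cons (.br (nat_lit 14) (nat_lit 1) (.cons (.ev (nat_lit 20790025067137322288446279990511361) (nat_lit 3)) (.cons (.rf (nat_lit 40) (nat_lit 17981398686790)) .nil))) (.cons (.rf (nat_lit 786) (nat_lit 19423563930543745961189)) .nil)))) (.cons (.rf (nat_lit 1119) (nat_lit 583706118939841765935136)) (.cons (.br (nat_lit 11) (nat_lit 1) (.cons (.rf (nat_lit 1119) (nat_lit 547795775453141500537229)) (.cons (.rf (nat_lit 786) (nat_lit 19459341688168407894212)) (.cons (.rf (nat_lit 1117) (nat_lit 18681683069672579121129869)) (.cons (.br (nat_lit 14) (nat_lit 1) (.cons (.rf (nat_lit 1120) (nat_lit 677582165103132179601393696)) (.cons (.rf (nat_lit 1121) (nat_lit 677582165103132179601393696)) (.cons (.br (nat_lit 14) (nat_lit 1) (.cons (.ev (nat_lit 10404955973810618541791824060743939)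 (nat_lit 2)) (.cons (.rf (nat_lit 1121) (nat_lit 677582165103132179601393696)) .nil))) .nil)))) .nil))))) .nil))))) .nil))))) .nil))))) (.cons (.zr (nat_lit 237684487561239760165761187843) (nat_lit 20282412035670409664764489761536) (nat_lit 8) (nat_lit 13)) (.cons (.ev (nat_lit 4722366765448428519681) (nat_lit 1)) (.cons (.br (nat_lit 7) (nat_lit 1) (.cons (.rf (nat_lit 1128) (nat_lit 17022140995484340291616)) (.cons (.kr (nat_lit 1099511627776) (nat_lit 72057594037927936) (nat_lit 5) (nat_lit 0)) (.cons (.rf (nat_lit 1128) (nat_lit 16529546130306413996429)) (.cons (.kr (nat_lit 72057594037927936) (nat_lit 4722366482869645213696) (nat_lit 7) (nat_lit 0)) (.cons (.ev (nat_lit 72340172821233921) (nat_lit 1)) (.cons (.br (nat_lit 2) (nat_lit 1) (.cons (.rf (nat_lit 1131) (nat_lit 583706118939841765935136)) (.cons (.ev (nat_lit 18446744078004584449) (nat_lit 1)) (.cons (.rf (nat_lit 1135) (nat_lit 583706118939841765935136)) (.cons (.rf (nat_lit 1136) (nat_lit 583706118939841765935136)) (.cons (.rf (nat_lit 1137) (nat_lit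 583706118939841765935136)) (.cons (.br (nat_lit 10) (nat_lit 1) (.cons (.rf (nat_lit 1135) (nat_lit 583213524074663839639949)) (.cons (.rf (nat_lit 1131) (nat_lit 583213524074663839639949)) (.cons (.rf (nat_lit 1136) (nat_lit 583213524074663839639949)) (.cons (.rf (nat_lit 1137) (nat_lit 583213524074663839639949)) (.cons (.br (nat_lit 3) (nat_lit 1) (.cons (.rf (nat_lit 1100) (nat_lit 547219649274496370674720)) (.cons (.rf (nat_lit 1138) (nat_lit 19926519232773908561233952)) (.cons (.rf (nat_lit 1139) (nat_lit 19926519232773908561233952)) (.cons (.rf (nat_lit 913) (nat_lit 17136317415456695782465)) (.cons (.br (nat_lit 11) (nat_lit 1) (.cons (.rf (nat_lit 1138) (nat_lit 19926026637908730634938765)) (.cons (.rf (nat_lit 1139) (nat_lit 19926026637908730634938765)) (.cons (.rf (nat_lit 913) (nat_lit 17135911805479774596428)) (.cons (.br (nat_lit 16) (nat_lit 1) (.cons (.br (nat_lit 14) (nat_lit 1) (.cons (.ev (nat_lit 2041704606639446801000851598471875265281) (nat_lit 3)) (.cons (.ev (nat_lit 174905147002476181395246708962533226578179)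 (nat_lit 2)) .nil))) (.cons (.br (nat_lit 17) (nat_lit 1) (.cons (.rf (nat_lit 874) (nat_lit 583858341769466147376193)) (.cons (.ev (nat_lit 174907795073716196802291623594710817309443) (nat_lit 2)) .nil))) (.cons (.rf (nat_lit 130) (nat_lit 15640496226626)) .nil)))) .nil))))) .nil)))))) (.cons (.br (nat_lit 3) (nat_lit 1) (.cons (.br (nat_lit 14) (nat_lit 1) (.cons (.rf (nat_lit 1141) (nat_lit 677582165103132179601393696)) (.cons (.rf (nat_lit 1142) (nat_lit 677582165103132179601393696)) (.cons (.rf (nat_lit 1142) (nat_lit 640104972100213497259207053)) .nil)))) (.cons (.rf (nat_lit 1145) (nat_lit 677582165103132179601393696)) (.cons (.rf (nat_lit 1147) (nat_lit 677582165103132179601393696)) (.cons (.br (nat_lit 11) (nat_lit 1) (.cons (.rf (nat_lit 1145) (nat_lit 640104972100213497259207053)) (.cons (.rf (nat_lit 1147) (nat_lit 640104972100213497259207053)) (.cons (.rf (nat_lit 1149) (nat_lit 21174442659472880612509728)) (.cons (.br (nat_lit 16) (nat_lit 1) (.cons (.br (nat_lit 17) (nat_lit 1) (.cons (.ev (nat_lit 10404955357267858377808536798364419)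 (nat_lit 2)) (.cons (.ev (nat_lit 87452568298760414481545877146429384884225) (nat_lit 1)) .nil))) (.cons (.br (nat_lit 17) (nat_lit 1) (.cons (.ev (nat_lit 87452568298760414481545877146429384884225) (nat_lit 1)) (.cons (.ev (nat_lit 87452568298760416908879214604598288515842) (nat_lit 2)) .nil))) (.cons (.rf (nat_lit 130) (nat_lit 15640503566434)) .nil)))) .nil))))) (.cons (.br (nat_lit 11) (nat_lit 1) (.cons (.rf (nat_lit 1145) (nat_lit 640104972100213497259207053)) (.cons (.rf (nat_lit 1147) (nat_lit 640104972100213497259207053)) (.cons (.br (nat_lit 16) (nat_lit 1) (.cons (.br (nat_lit 17) (nat_lit 1) (.cons (.ev (nat_lit 10404955357267858377808536798364419) (nat_lit 2)) (.cons (.ev (nat_lit 87452568298760414481545877146429384884225) (nat_lit 1)) .nil))) (.cons (.br (nat_lit 17) (nat_lit 1) (.cons (.ev (nat_lit 87452568298760414481545877146429384884225) (nat_lit 1)) (.cons (.ev (nat_lit 87452568298760416908879214604598288515842) (nat_lit 2)) .nil))) (.cons (.rf (nat_lit 130) (nat_lit 15640462672226)) .nil)))) (.cons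 (.rf (nat_lit 1149) (nat_lit 20003280378131671789447565)) .nil))))) .nil)))))) .nil))))))) .nil))))))) .nil))))))) .nil))))))) .nil)),
 (.br (nat_lit 15) (nat_lit 1) (.cons (.zr (nat_lit 680564754203514693092828655646167793665) (nat_lit 2658455991572263782993036061622403328) (nat_lit 8) (nat_lit 4)) .nil)),
 (.br (nat_lit 14) (nat_lit 1) (.cons (.br (nat_lit 16) (nat_lit 1) (.cons (.ev (nat_lit 683233594947260342114874464355792061187) (nat_lit 2)) (.cons (.rf (nat_lit 810) (nat_lit 660557448034888315079909)) .nil))) (.cons (.ev (nat_lit 5192376396182370233296301322207488) (nat_lit 1)) .nil))),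
 (.br (nat_lit 7) (nat_lit 1) (.cons (.rf (nat_lit 711) (nat_lit 445092485129178177)) (.cons (.ev (nat_lit 20520094095972314268110573142785) (nat_lit 2)) (.cons (.zr (nat_lit 20361637766166222993020787097601) (nat_lit 618984205188882820094886144) (nat_lit 8) (nat_lit 5)) (.cons (.br (nat_lit 6) (nat_lit 1) (.cons (.kr (nat_lit 281474976710912) (nat_lit 18446744073709617152) (nat_lit 1) (nat_lit 0)) (.cons (.rf (nat_lit 47) (nat_lit 477465794)) (.cons (.ev (nat_lit 20520094095935421342913107329281) (nat_lit 2)) (.cons (.br (nat_lit 10) (nat_lit 1) (.cons (.rf (nat_lit 47) (nat_lit 509971778)) (.cons (.br (nat_lit 11) (nat_lit 1) (.cons (.ev (nat_lit 10404956592780675221524546075232003) (nat_lit 3)) (.cons (.rf (nat_lit 933) (nat_lit 16303947420734562)) (.cons (.rf (nat_lit 719) (nat_lit 18315610736009289964645)) .nil)))) (.cons (.br (nat_lit 11) (nat_lit 1) (.cons (.br (nat_lit 14) (nat_lit 1) (.cons (.ev (nat_lit 10404956592780712116701543354729731) (nat_lit 3)) (.cons (.rf (nat_lit 40) (nat_lit 17948112784610)) .nil)))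 (.cons (.ev (nat_lit 1329228075014287331434503356725330176) (nat_lit 1)) (.cons (.rf (nat_lit 1025) (nat_lit 608094394641797946509)) .nil)))) (.cons (.br (nat_lit 11) (nat_lit 1) (.cons (.br (nat_lit 14) (nat_lit 1) (.cons (.ev (nat_lit 10404956592780712116701543354729731) (nat_lit 3)) (.cons (.rf (nat_lit 68) (nat_lit 17057674792162)) (.cons (.br (nat_lit 15) (nat_lit 1) (.cons (.br (nat_lit 15) (nat_lit 1) (.cons (.ev (nat_lit 2668861106002385244517310381435126529) (nat_lit 2)) .nil)) (.cons (.br (nat_lit 15) (nat_lit 1) (.cons (.ev (nat_lit 2668861106002385244517310381435126529) (nat_lit 2)) .nil)) .nil))) .nil)))) (.cons (.rf (nat_lit 719) (nat_lit 17136209226711101904964)) (.cons (.br (nat_lit 16) (nat_lit 1) (.cons (.rf (nat_lit 68) (nat_lit 16991099653442)) (.cons (.ev (nat_lit 680564754362589992918562623081049882883) (nat_lit 2)) (.cons (.br (nat_lit 14) (nat_lit 1) (.cons (.rf (nat_lit 1151) (nat_lit 677582165103132179601393696)) (.cons (.br (nat_lit 14) (nat_lit 1) (.cons (.rf (nat_lit 1151) (nat_lit 677582165103132179601393696))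 .nil)) .nil))) .nil)))) (.cons (.br (nat_lit 14) (nat_lit 1) (.cons (.rf (nat_lit 1152) (nat_lit 677582165103132179601393696)) (.cons (.br (nat_lit 14) (nat_lit 1) (.cons (.rf (nat_lit 1152) (nat_lit 677582165103132179601393696)) (.cons (.rf (nat_lit 1014) (nat_lit 676411018180443492297280544)) .nil))) (.cons (.br (nat_lit 14) (nat_lit 1) (.cons (.ev (nat_lit 5192376396182370233296301322207488) (nat_lit 1)) (.cons (.rf (nat_lit 1014) (nat_lit 676411018180443492297280544)) .nil))) .nil)))) .nil))))) .nil))))) .nil))))) .nil))))),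
 (.br (nat_lit 14) (nat_lit 1) (.cons (.br (nat_lit 15) (nat_lit 1) (.cons (.zr (nat_lit 680564733841876931649115698854168100867) (nat_lit 2658476353207597930189682685019029760) (nat_lit 8) (nat_lit 13)) (.cons (.br (nat_lit 16) (nat_lit 1) (.cons (.ev (nat_lit 2044373447224736120216374912427460264197) (nat_lit 3)) .nil)) .nil))) (.cons (.br (nat_lit 15) (nat_lit 1) (.cons (.rf (nat_lit 720) (nat_lit 661701295917511241501761)) (.cons (.zr (nat_lit 10384672945236891887881477322440707) (nat_lit 174224571883802902896917916737135750283520) (nat_lit 8) (nat_lit 13)) .nil))) .nil))),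
 (.br (nat_lit 14) (nat_lit 1) (.cons (.rf (nat_lit 1154) (nat_lit 677582165103132179601393696)) (.cons (.br (nat_lit 17) (nat_lit 1) (.cons (.zr (nat_lit 20283649966283552375616292520192) (nat_lit 174224582248351894850445849082137149571075) (nat_lit 8) (nat_lit 9)) (.cons (.zr (nat_lit 10384672945236891887881477322440707) (nat_lit 174224571883802902896917916737135750283520) (nat_lit 8) (nat_lit 13)) .nil))) .nil))),
 (.br (nat_lit 14) (nat_lit 1) (.cons (.br (nat_lit 15) (nat_lit 1) (.cons (.ev (nat_lit 1334420372182307150437634852364747008) (nat_lit 1)) .nil)) .nil)),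
 (.br (nat_lit 17) (nat_lit 1) (.cons (.ev (nat_lit 87112291144339514789825564939845887918336) (nat_lit 1)) (.cons (.ev (nat_lit 87112291144418744156543354748272270967040) (nat_lit 1)) .nil))),
 (.br (nat_lit 17) (nat_lit 1) (.cons (.ev (nat_lit 87112291144418744156543354748272270967040) (nat_lit 1)) (.cons (.ev (nat_lit 87112291144339514789825564939845887918336) (nat_lit 1)) .nil))),
 (.br (nat_lit 3) (nat_lit 1) (.cons (.ev (nat_lit 281479271678209) (nat_lit 1)) (.cons (.ev (nat_lit 79229376162522492686401798401) (nat_lit 1)) (.cons (.ev (nat_lit 20361637770943785595122508497665) (nat_lit 2)) (.cons (.br (nat_lit 6) (nat_lit 1) (.cons (.rf (nat_lit 47) (nat_lit 473242818)) (.cons (.ev (nat_lit 20283028587838557524518550700545) (nat_lit 2)) (.cons (.ev (nat_lit 20520094095935421342913107329281) (nat_lit 2)) (.cons (.br (nat_lit 10) (nat_lit 1) (.cons (.ev (nat_lit 159076518196646836868720296192) (nat_lit 2)) (.cons (.ev (nat_lit 20361640198203120184594219925761) (nat_lit 2)) (.cons (.br (nat_lit 11) (nat_lit 1) (.cons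 (.ev (nat_lit 20283032209912168125349473813251) (nat_lit 2)) (.cons (.zr (nat_lit 2658476273981857971483751308203130883) (nat_lit 79847132589247822902075719936) (nat_lit 8) (nat_lit 13)) (.cons (.rf (nat_lit 917) (nat_lit 535496365275990961453)) .nil)))) (.cons (.br (nat_lit 11) (nat_lit 1) (.cons (.br (nat_lit 14) (nat_lit 1) (.cons (.rf (nat_lit 68) (nat_lit 18122956708962)) (.cons (.rf (nat_lit 68) (nat_lit 17057674796130)) (.cons (.br (nat_lit 15) (nat_lit 1) (.cons (.rf (nat_lit 1156) (nat_lit 21174442659472845144426528)) (.cons (.br (nat_lit 15) (nat_lit 1) (.cons (.rf (nat_lit 1156) (nat_lit 21174442659472845144426528)) .nil)) .nil))) .nil)))) (.cons (.rf (nat_lit 1123) (nat_lit 17547627117028324784834592)) (.cons (.br (nat_lit 16) (nat_lit 1) (.cons (.rf (nat_lit 68) (nat_lit 16991095463234)) (.cons (.rf (nat_lit 68) (nat_lit 15925846056258)) (.cons (.br (nat_lit 14) (nat_lit 1) (.cons (.rf (nat_lit 1124) (nat_lit 675203269528727635120719904)) (.cons (.br (nat_lit 14) (nat_lit 1) (.cons (.rf (nat_lit 1124) (nat_lit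 675203269528727635120719904)) .nil)) .nil))) .nil)))) (.cons (.br (nat_lit 14) (nat_lit 1) (.cons (.br (nat_lit 14) (nat_lit 1) (.cons (.ev (nat_lit 31174142791426132144842685024568071) (nat_lit 3)) (.cons (.rf (nat_lit 1157) (nat_lit 677582165103132179601393696)) .nil))) (.cons (.br (nat_lit 14) (nat_lit 1) (.cons (.ev (nat_lit 31174142791426132144842685024568071) (nat_lit 3)) (.cons (.rf (nat_lit 1158) (nat_lit 677582165103132179601393696)) .nil))) (.cons (.br (nat_lit 14) (nat_lit 1) (.cons (.rf (nat_lit 1157) (nat_lit 677582165103132179601393696)) (.cons (.rf (nat_lit 1158) (nat_lit 677582165103132179601393696)) .nil))) .nil)))) .nil))))) .nil))))) .nil))))) .nil)))))]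

theorem c50 : chkAll C T R L50 (nat_lit 1143) = true := by decide +kernel

theorem l50 : (nat_lit 1143) + L50.length = (nat_lit 1160) := by decide +kernel

/-- part of the certificates -/
def L51 : List Prf := [(.br (nat_lit 16) (nat_lit 1) (.cons (.zr (nat_lit 10607700225127693718266191993896960) (nat_lit 680564734080799378120804137459664291589) (nat_lit 24) (nat_lit 4)) .nil)),
 (.br (nat_lit 15) (nat_lit 1) (.cons (.ev (nat_lit 341611594917034073271991431788297781505) (nat_lit 1)) .nil)),
 (.br (nat_lit 14) (nat_lit 1) (.cons (.br (nat_lit 16) (nat_lit 1) (.cons (.ev (nat_lit 5327317255409600370303294916958356231) (nat_lit 3)) (.cons (.rf (nat_lit 746) (nat_lit 586217219167891756289089)) .nil))) (.cons (.br (nat_lit 15) (nat_lit 1) (.cons (.br (nat_lit 16) (nat_lit 1) (.cons (.ev (nat_lit 680564754203517115685281111856461775619) (nat_lit 2)) .nil)) (.cons (.ev (nat_lit 87112291144339514789825564939845887918336) (nat_lit 1)) .nil))) .nil))),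
 (.br (nat_lit 14) (nat_lit 1) (.cons (.rf (nat_lit 1162) (nat_lit 677582165103132179601393696)) (.cons (.br (nat_lit 15) (nat_lit 1) (.cons (.zr (nat_lit 10385148316658163312033540576641799) (nat_lit 680564754125524470783869836434707447808) (nat_lit 24) (nat_lit 13)) (.cons (.rf (nat_lit 744) (nat_lit 586217219167891756289089)) .nil))) .nil))),
 (.br (nat_lit 3) (nat_lit 1) (.cons (.ev (nat_lit 281479271678209) (nat_lit 1)) (.cons (.rf (nat_lit 711) (nat_lit 299713824918903909)) (.cons (.zr (nat_lit 713058331388222876993355515143) (nat_lit 20284266513913512686867020644352) (nat_lit 24) (nat_lit 13)) (.cons (.br (nat_lit 10) (nat_lit 1) (.cons (.rf (nat_lit 47) (nat_lit 473246914)) (.cons (.rf (nat_lit 47) (nat_lit 473246946)) (.cons (.ev (nat_lit 20361640198203120184594219925761) (nat_lit 2)) (.cons (.br (nat_lit 6) (nat_lit 1) (.cons (.kr (nat_lit 79228162514264619068520661248) (nat_lit 18446745173221244928) (nat_lit 1) (nat_lit 0)) (.cons (.br (nat_lit 7) (nat_lit 1) (.cons (.ev (nat_lit 5212579268138479371293512611921921)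 (nat_lit 1)) (.cons (.br (nat_lit 14) (nat_lit 1) (.cons (.ev (nat_lit 5192296858539550067070964324171776) (nat_lit 1)) (.cons (.rf (nat_lit 40) (nat_lit 17942744116322)) .nil))) (.cons (.rf (nat_lit 786) (nat_lit 18243976468370820570473)) .nil)))) (.cons (.br (nat_lit 7) (nat_lit 1) (.cons (.br (nat_lit 14) (nat_lit 1) (.cons (.ev (nat_lit 31174619403158033935852560862806275) (nat_lit 3)) (.cons (.rf (nat_lit 40) (nat_lit 17943817825378)) .nil))) (.cons (.zr (nat_lit 4849962755743786064805888) (nat_lit 7975429060241763754869817121517338881) (nat_lit 8) (nat_lit 8)) (.cons (.rf (nat_lit 917) (nat_lit 535496365275991088429)) .nil)))) (.cons (.br (nat_lit 7) (nat_lit 1) (.cons (.br (nat_lit 14) (nat_lit 1) (.cons (.rf (nat_lit 68) (nat_lit 18122826558562)) (.cons (.rf (nat_lit 68) (nat_lit 17057804692578)) (.cons (.br (nat_lit 15) (nat_lit 1) (.cons (.rf (nat_lit 1160) (nat_lit 677582165103132179601393696)) (.cons (.br (nat_lit 15) (nat_lit 1) (.cons (.rf (nat_lit 1160) (nat_lit 677582165103132179601393696)) .nil)) .nil)))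 .nil)))) (.cons (.rf (nat_lit 786) (nat_lit 19459454247239492439105)) (.cons (.br (nat_lit 16) (nat_lit 1) (.cons (.ev (nat_lit 340282367000166640200151249706542957059) (nat_lit 2)) (.cons (.ev (nat_lit 680564754361973440750702714440038482179) (nat_lit 2)) (.cons (.br (nat_lit 14) (nat_lit 1) (.cons (.rf (nat_lit 1161) (nat_lit 677582165103132179601393696)) (.cons (.br (nat_lit 14) (nat_lit 1) (.cons (.rf (nat_lit 1161) (nat_lit 677582165103132179601393696)) .nil)) .nil))) .nil)))) (.cons (.br (nat_lit 14) (nat_lit 1) (.cons (.rf (nat_lit 1162) (nat_lit 677582165103132179601393696)) (.cons (.rf (nat_lit 1163) (nat_lit 677582165103132179601393696)) (.cons (.br (nat_lit 14) (nat_lit 1) (.cons (.rf (nat_lit 1162) (nat_lit 677582165103132179601393696)) (.cons (.rf (nat_lit 1163) (nat_lit 677582165103132179601393696)) .nil))) .nil)))) .nil))))) .nil))))) .nil))))) .nil))))),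
 (.br (nat_lit 7) (nat_lit 1) (.cons (.ev (nat_lit 5192296859743771894890298741883136) (nat_lit 1)) (.cons (.zr (nat_lit 10404955354849988291272246195912707) (nat_lit 618970038234112349188391680) (nat_lit 8) (nat_lit 13)) (.cons (.br (nat_lit 10) (nat_lit 1) (.cons (.ev (nat_lit 5212579269352145932078594910126337) (nat_lit 1)) (.cons (.br (nat_lit 11) (nat_lit 1) (.cons (.ev (nat_lit 31174620019710239265147151643182851) (nat_lit 3)) (.cons (.rf (nat_lit 119) (nat_lit 18118696188002)) .nil))) (.cons (.br (nat_lit 11) (nat_lit 1) (.cons (.rf (nat_lit 119) (nat_lit 18119736375394)) (.cons (.rf (nat_lit 119) (nat_lit 17054486968418)) (.cons (.br (nat_lit 15) (nat_lit 1) (.cons (.br (nat_lit 15) (nat_lit 1) (.cons (.ev (nat_lit 2658476512285325034136767366223233283) (nat_lit 2)) .nil)) (.cons (.br (nat_lit 15) (nat_lit 1) (.cons (.ev (nat_lit 2658476512285325034136767366223233283) (nat_lit 2)) .nil)) .nil))) .nil)))) .nil)))) .nil)))),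
 (.br (nat_lit 12) (nat_lit 1) (.cons (.br (nat_lit 13) (nat_lit 1) (.cons (.ev (nat_lit 20361637766166006819139128197121) (nat_lit 1)) .nil)) .nil)),
 (.br (nat_lit 9) (nat_lit 1) (.cons (.rf (nat_lit 68) (nat_lit 14718057224259)) (.cons (.rf (nat_lit 40) (nat_lit 13509193898051)) (.cons (.br (nat_lit 12) (nat_lit 1) (.cons (.rf (nat_lit 1166) (nat_lit 17022140995484340291616)) (.cons (.br (nat_lit 12) (nat_lit 1) (.cons (.rf (nat_lit 1166) (nat_lit 17022140995484340291616)) .nil)) .nil))) .nil)))),
 (.br (nat_lit 10) (nat_lit 1) (.cons (.ev (nat_lit 20520096523268542913077703738113) (nat_lit 2)) (.cons (.ev (nat_lit 5192296862161623534401036396658691) (nat_lit 2)) (.cons (.rf (nat_lit 1167) (nat_lit 608109071090671781920)) .nil)))),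
 (.br (nat_lit 10) (nat_lit 1) (.cons (.ev (nat_lit 20520096523268542913077703738113) (nat_lit 2)) (.cons (.ev (nat_lit 5192376090324119352274931696075011) (nat_lit 2)) (.cons (.rf (nat_lit 1167) (nat_lit 608108930357478393888)) .nil)))),
 (.br (nat_lit 10) (nat_lit 1) (.cons (.ev (nat_lit 5192296862161623534401036396658691) (nat_lit 2)) (.cons (.ev (nat_lit 5192376090324119352274931696075011) (nat_lit 2)) (.cons (.ev (nat_lit 20361640198203120184594219925761) (nat_lit 2)) (.cons (.br (nat_lit 7) (nat_lit 1) (.cons (.rf (nat_lit 68) (nat_lit 18122953403463)) (.cons (.rf (nat_lit 130) (nat_lit 17981119117506)) (.cons (.br (nat_lit 11) (nat_lit 1) (.cons (.ev (nat_lit 2689630294057940723906995633038689537) (nat_lit 3)) (.cons (.ev (nat_lit 340287559218107692226716155224346657025) (nat_lit 1)) (.cons (.br (nat_lit 16) (nat_lit 1) (.cons (.ev (nat_lit 1363787944036963902691893853159751157511) (nat_lit 3)) (.cons (.ev (nat_lit 340282367000476110987532347688074870784) (nat_lit 1)) .nil))) .nil)))) (.cons (.br (nat_lit 11)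 (nat_lit 1) (.cons (.rf (nat_lit 130) (nat_lit 19043183999170)) (.cons (.br (nat_lit 16) (nat_lit 1) (.cons (.ev (nat_lit 1363787944353876552822737049530812072711) (nat_lit 3)) (.cons (.ev (nat_lit 340282366921247948491715036742728876288) (nat_lit 1)) .nil))) (.cons (.br (nat_lit 15) (nat_lit 1) (.cons (.ev (nat_lit 7975388654500302426640486816299352835) (nat_lit 3)) (.cons (.ev (nat_lit 87113615180038441170870840216409839042816) (nat_lit 1)) .nil))) .nil)))) .nil))))) .nil))))),
 (.br (nat_lit 11) (nat_lit 1) (.cons (.ev (nat_lit 2668860947543651809225923922000610049) (nat_lit 2)) (.cons (.br (nat_lit 15) (nat_lit 1) (.cons (.ev (nat_lit 340282366921247948473268011194042548224) (nat_lit 1)) (.cons (.ev (nat_lit 2658476512285325034136767366223233283) (nat_lit 2)) .nil))) (.cons (.br (nat_lit 15) (nat_lit 1) (.cons (.ev (nat_lit 2658476512285325034136767366223233283) (nat_lit 2)) (.cons (.ev (nat_lit 87112285952122193902522094431085137035265) (nat_lit 1)) .nil))) .nil)))),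
 (.br (nat_lit 15) (nat_lit 1) (.cons (.ev (nat_lit 341611594996261031582730861498956054785) (nat_lit 1)) .nil)),
 (.br (nat_lit 14) (nat_lit 1) (.cons (.rf (nat_lit 962) (nat_lit 661701295917511241501761)) (.cons (.br (nat_lit 16) (nat_lit 1) (.cons (.rf (nat_lit 810) (nat_lit 587360917300461748489281)) (.cons (.ev (nat_lit 87452573491057582506105621165799364428032) (nat_lit 1)) .nil))) .nil))),
 (.br (nat_lit 10) (nat_lit 1) (.cons (.rf (nat_lit 47) (nat_lit 472227139)) (.cons (.br (nat_lit 11) (nat_lit 1) (.cons (.ev (nat_lit 5212579578832414939914141480058881) (nat_lit 1)) (.cons (.br (nat_lit 14) (nat_lit 1) (.cons (.ev (nat_lit 20790025067137322720785247148312321) (nat_lit 3)) (.cons (.rf (nat_lit 40) (nat_lit 17981398785091)) .nil))) (.cons (.rf (nat_lit 719) (nat_lit 19459453155457764591713)) .nil)))) (.cons (.br (nat_lit 15) (nat_lit 1) (.cons (.ev (nat_lit 2658476353210020541232436310951592195) (nat_lit 2)) (.cons (.ev (nat_lit 1329288843016144698073393506443001856) (nat_lit 2)) (.cons (.rf (nat_lit 960) (nat_lit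 622688738043352334960941)) .nil)))) (.cons (.br (nat_lit 11) (nat_lit 1) (.cons (.br (nat_lit 14) (nat_lit 1) (.cons (.rf (nat_lit 68) (nat_lit 18122956708931)) (.cons (.ev (nat_lit 5192534856148361694670097666409219) (nat_lit 2)) (.cons (.br (nat_lit 15) (nat_lit 1) (.cons (.br (nat_lit 15) (nat_lit 1) (.cons (.ev (nat_lit 1334420292954144654692380401544986625) (nat_lit 1)) .nil)) (.cons (.br (nat_lit 15) (nat_lit 1) (.cons (.ev (nat_lit 1334420292954144654692380401544986625) (nat_lit 1)) .nil)) .nil))) .nil)))) (.cons (.rf (nat_lit 719) (nat_lit 17136023272769131293929)) (.cons (.br (nat_lit 16) (nat_lit 1) (.cons (.ev (nat_lit 340282428006163679026704462939267728128) (nat_lit 2)) (.cons (.rf (nat_lit 68) (nat_lit 15925812501827)) (.cons (.br (nat_lit 14) (nat_lit 1) (.cons (.rf (nat_lit 1172) (nat_lit 677582165103132179601393696)) (.cons (.br (nat_lit 14) (nat_lit 1) (.cons (.rf (nat_lit 1172) (nat_lit 677582165103132179601393696)) .nil)) .nil))) .nil)))) (.cons (.br (nat_lit 14) (nat_lit 1) (.cons (.br (nat_lit 14)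 (nat_lit 1) (.cons (.rf (nat_lit 962) (nat_lit 661701295917511241501761)) (.cons (.ev (nat_lit 10404955973810618541791824060743939) (nat_lit 2)) .nil))) (.cons (.rf (nat_lit 1173) (nat_lit 677582165103132179601393696)) (.cons (.br (nat_lit 14) (nat_lit 1) (.cons (.ev (nat_lit 10404955973810618541791824060743939) (nat_lit 2)) (.cons (.rf (nat_lit 1173) (nat_lit 677582165103132179601393696)) .nil))) .nil)))) .nil))))) .nil))))),
 (.br (nat_lit 15) (nat_lit 1) (.cons (.ev (nat_lit 7975388813575588066971807209589047555) (nat_lit 3)) (.cons (.ev (nat_lit 1329248278194519543093032675295953153) (nat_lit 1)) (.cons (.rf (nat_lit 652) (nat_lit 621559845321929677547776)) .nil)))),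
 (.br (nat_lit 14) (nat_lit 1) (.cons (.zr (nat_lit 10404876126678029293968921985024003) (nat_lit 79228162532855759805282910976) (nat_lit 8) (nat_lit 13)) (.cons (.br (nat_lit 15) (nat_lit 1) (.cons (.zr (nat_lit 1334440575054268000388859015582449667) (nat_lit 309485046787453760135365120) (nat_lit 8) (nat_lit 13)) (.cons (.zr (nat_lit 2658476353210020485748087802235453443) (nat_lit 618970074983486408043397376) (nat_lit 8) (nat_lit 13)) .nil))) .nil))),
 (.br (nat_lit 14) (nat_lit 1) (.cons (.zr (nat_lit 10404876126678029293968921985024003) (nat_lit 79228162532855759805282910976) (nat_lit 8) (nat_lit 13)) (.cons (.br (nat_lit 16) (nat_lit 1) (.cons (.rf (nat_lit 746) (nat_lit 661701294825729513654369)) (.cons (.ev (nat_lit 174224571883882752461507599485322922164483) (nat_lit 2)) .nil))) .nil))),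
 (.br (nat_lit 16) (nat_lit 1) (.cons (.ev (nat_lit 2044352678355447735299212162652650471685) (nat_lit 3)) .nil)),
 (.br (nat_lit 16) (nat_lit 1) (.cons (.ev (nat_lit 2044352678037297145202582327510150808833) (nat_lit 3)) .nil)),
 (.br (nat_lit 14) (nat_lit 1) (.cons (.ev (nat_lit 20789866610812257299187061617852673) (nat_lit 3)) (.cons (.br (nat_lit 15) (nat_lit 1) (.cons (.ev (nat_lit 340282367159551415480581640568226972417) (nat_lit 2)) (.cons (.ev (nat_lit 5337701849750456859159127548166669573) (nat_lit 3)) .nil))) .nil))),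
 (.br (nat_lit 14) (nat_lit 1) (.cons (.br (nat_lit 15) (nat_lit 1) (.cons (.ev (nat_lit 340282367000476111005979373236761198848) (nat_lit 1)) (.cons (.br (nat_lit 16) (nat_lit 1) (.cons (.ev (nat_lit 91556045698595962689829706421352131925522) (nat_lit 5)) .nil)) .nil))) (.cons (.br (nat_lit 17) (nat_lit 1) (.cons (.zr (nat_lit 348449143727041605556515240701389084557317) (nat_lit 2658476353210020504195394813013656320) (nat_lit 8) (nat_lit 13)) (.cons (.ev (nat_lit 174224571883882752461507599485322922164483) (nat_lit 2)) .nil))) .nil))),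
 (.br (nat_lit 14) (nat_lit 1) (.cons (.rf (nat_lit 1181) (nat_lit 677582165103132179601393696)) (.cons (.br (nat_lit 16) (nat_lit 1) (.cons (.ev (nat_lit 340282367000476111005979373236761198848) (nat_lit 1)) (.cons (.ev (nat_lit 174224571883882752461507599485322922164483) (nat_lit 2)) .nil))) .nil))),
 (.br (nat_lit 7) (nat_lit 1) (.cons (.rf (nat_lit 47) (nat_lit 472198371)) (.cons (.br (nat_lit 10) (nat_lit 1) (.cons (.ev (nat_lit 20362259168296693968413607067905) (nat_lit 3)) (.cons (.rf (nat_lit 649) (nat_lit 547101936150995357871360)) (.cons (.rf (nat_lit 1122) (nat_lit 19926034965310865384115373)) .nil)))) (.cons (.br (nat_lit 10) (nat_lit 1) (.cons (.br (nat_lit 14) (nat_lit 1) (.cons (.ev (nat_lit 10405114430135647070469210171900163) (nat_lit 2)) (.cons (.rf (nat_lit 40) (nat_lit 17843959835715)) .nil))) (.cons (.ev (nat_lit 5316932663549440774117858799630942465) (nat_lit 3)) (.cons (.br (nat_lit 15) (nat_lit 1) (.cons (.rf (nat_lit 68) (nat_lit 18089666391235)) (.cons (.ev (nat_lit 2658476511666345569761113697062748419)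 (nat_lit 2)) (.cons (.br (nat_lit 14) (nat_lit 1) (.cons (.rf (nat_lit 1178) (nat_lit 677582165103132179601393696)) (.cons (.br (nat_lit 14) (nat_lit 1) (.cons (.rf (nat_lit 1178) (nat_lit 677582165103132179601393696)) .nil)) .nil))) .nil)))) .nil)))) (.cons (.br (nat_lit 10) (nat_lit 1) (.cons (.rf (nat_lit 869) (nat_lit 547204259101248424615213)) (.cons (.br (nat_lit 15) (nat_lit 1) (.cons (.rf (nat_lit 68) (nat_lit 18089565826243)) (.cons (.ev (nat_lit 1329248357422682038910908769618624513) (nat_lit 1)) (.cons (.br (nat_lit 14) (nat_lit 1) (.cons (.rf (nat_lit 1179) (nat_lit 677582165103132179601393696)) (.cons (.br (nat_lit 14) (nat_lit 1) (.cons (.rf (nat_lit 1179) (nat_lit 677582165103132179601393696)) .nil)) .nil))) .nil)))) (.cons (.br (nat_lit 16) (nat_lit 1) (.cons (.rf (nat_lit 68) (nat_lit 16991094385891)) (.cons (.ev (nat_lit 340282367159551415480581640568226972417) (nat_lit 2)) (.cons (.br (nat_lit 14) (nat_lit 1) (.cons (.rf (nat_lit 1180) (nat_lit 19926519232773908561233952)) (.cons (.br (nat_lit 14)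 (nat_lit 1) (.cons (.rf (nat_lit 1180) (nat_lit 19926519232773908561233952)) .nil)) .nil))) .nil)))) (.cons (.br (nat_lit 14) (nat_lit 1) (.cons (.rf (nat_lit 1181) (nat_lit 677582165103132179601393696)) (.cons (.rf (nat_lit 1182) (nat_lit 677582165103132179601393696)) (.cons (.br (nat_lit 14) (nat_lit 1) (.cons (.rf (nat_lit 1181) (nat_lit 677582165103132179601393696)) (.cons (.rf (nat_lit 1182) (nat_lit 677582165103132179601393696)) .nil))) .nil)))) .nil))))) .nil)))))]

theorem c51 : chkAll C T R L51 (nat_lit 1160) = true := by decide +kernel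

theorem l51 : (nat_lit 1160) + L51.length = (nat_lit 1184) := by decide +kernel

/-- part of the certificates -/
def L52 : List Prf := [(.br (nat_lit 16) (nat_lit 1) (.cons (.zr (nat_lit 680564754124286535300786122792863006723) (nat_lit 79228162532855759805282910976) (nat_lit 8) (nat_lit 13)) (.cons (.ev (nat_lit 341611594917032869086912987603656507393) (nat_lit 1)) (.cons (.ev (nat_lit 174224571883882752461470706560125456352003) (nat_lit 2)) .nil)))),
 (.br (nat_lit 15) (nat_lit 1) (.cons (.br (nat_lit 16) (nat_lit 1) (.cons (.ev (nat_lit 87112291124057106395118233214770047156225) (nat_lit 1)) .nil)) .nil)),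
 (.br (nat_lit 10) (nat_lit 1) (.cons (.rf (nat_lit 1183) (nat_lit 547099556243019141552384)) (.cons (.rf (nat_lit 1174) (nat_lit 547099556243019141552384)) (.cons (.ev (nat_lit 20361640198203120184594219925761) (nat_lit 2)) (.cons (.br (nat_lit 7) (nat_lit 1) (.cons (.rf (nat_lit 649) (nat_lit 583224091814135644363917)) (.cons (.br (nat_lit 11) (nat_lit 1) (.cons (.ev (nat_lit 5212658806994929204252834535636993) (nat_lit 1)) (.cons (.rf (nat_lit 119) (nat_lit 18118695172194)) .nil))) (.cons (.ev (nat_lit 1329248278194519543093032675295953153) (nat_lit 1)) (.cons (.br (nat_lit 14) (nat_lit 1) (.cons (.ev (nat_lit 5192376397395999900593236201177088) (nat_lit 1)) (.cons (.rf (nat_lit 130) (nat_lit 17978001700962)) (.cons (.ev (nat_lit 31174301250159493937478844905686791) (nat_lit 3)) (.cons (.br (nat_lit 11) (nat_lit 1) (.cons (.rf (nat_lit 102) (nat_lit 18935909301574)) (.cons (.br (nat_lit 15) (nat_lit 1) (.cons (.ev (nat_lit 7975388336968673015599149473956364551) (nat_lit 3)) (.cons (.ev (nat_lit 1365696325021868374169740010456482054)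 (nat_lit 3)) .nil))) (.cons (.br (nat_lit 15) (nat_lit 1) (.cons (.zr (nat_lit 1334440575054268000388859015582449667) (nat_lit 309485046787453760135365120) (nat_lit 8) (nat_lit 13)) (.cons (.ev (nat_lit 7975388336968673015599149473956364551) (nat_lit 3)) .nil))) .nil)))) .nil))))) .nil))))) (.cons (.br (nat_lit 7) (nat_lit 1) (.cons (.br (nat_lit 14) (nat_lit 1) (.cons (.rf (nat_lit 68) (nat_lit 18122956450887)) (.cons (.ev (nat_lit 5212658806994929204252834535636993) (nat_lit 1)) (.cons (.br (nat_lit 15) (nat_lit 1) (.cons (.br (nat_lit 15) (nat_lit 1) (.cons (.ev (nat_lit 1334440654591915524546881833492545792) (nat_lit 1)) .nil)) (.cons (.br (nat_lit 15) (nat_lit 1) (.cons (.ev (nat_lit 1334440654591915524546881833492545792) (nat_lit 1)) .nil)) .nil))) .nil)))) (.cons (.br (nat_lit 11) (nat_lit 1) (.cons (.rf (nat_lit 119) (nat_lit 18119735359586)) (.cons (.ev (nat_lit 5212658806994929204252834535636993) (nat_lit 1)) (.cons (.br (nat_lit 15) (nat_lit 1) (.cons (.br (nat_lit 15) (nat_lit 1) (.cons (.rf (nat_lit 1184)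 (nat_lit 677582165103132179601393696)) .nil)) (.cons (.br (nat_lit 15) (nat_lit 1) (.cons (.rf (nat_lit 1184) (nat_lit 677582165103132179601393696)) .nil)) .nil))) .nil)))) (.cons (.br (nat_lit 15) (nat_lit 1) (.cons (.rf (nat_lit 119) (nat_lit 18076781624550)) (.cons (.ev (nat_lit 1329228075013092609680449335055090179) (nat_lit 2)) (.cons (.ev (nat_lit 2658476511666345569761113697062748419) (nat_lit 2)) (.cons (.br (nat_lit 11) (nat_lit 1) (.cons (.rf (nat_lit 102) (nat_lit 19043321231458)) (.cons (.br (nat_lit 14) (nat_lit 1) (.cons (.ev (nat_lit 340282366921247948491715036742728876288) (nat_lit 1)) (.cons (.rf (nat_lit 995) (nat_lit 21174427671492048304965933)) .nil))) (.cons (.br (nat_lit 14) (nat_lit 1) (.cons (.br (nat_lit 16) (nat_lit 1) (.cons (.ev (nat_lit 2049690359526026373878408077971466354945) (nat_lit 3)) .nil)) (.cons (.rf (nat_lit 134) (nat_lit 11251954006114)) .nil))) .nil)))) .nil))))) (.cons (.br (nat_lit 11) (nat_lit 1) (.cons (.rf (nat_lit 119) (nat_lit 17053376690274)) (.cons (.br (nat_lit 14) (nat_lit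 1) (.cons (.ev (nat_lit 2658476353210020504339511113486041859) (nat_lit 2)) (.cons (.ev (nat_lit 1361139872798802959483462776866281095939) (nat_lit 3)) (.cons (.br (nat_lit 15) (nat_lit 1) (.cons (.ev (nat_lit 341611615199442468016217210160534323200) (nat_lit 1)) (.cons (.zr (nat_lit 10384989857882226867542290778292227) (nat_lit 2658476273984285286302690366667751680) (nat_lit 8) (nat_lit 5)) .nil))) .nil)))) (.cons (.rf (nat_lit 119) (nat_lit 16977135780167)) (.cons (.br (nat_lit 16) (nat_lit 1) (.cons (.rf (nat_lit 130) (nat_lit 16877417412706)) (.cons (.br (nat_lit 14) (nat_lit 1) (.cons (.rf (nat_lit 134) (nat_lit 12455646836834)) (.cons (.br (nat_lit 15) (nat_lit 1) (.cons (.ev (nat_lit 683233594788801608679294847503025963779) (nat_lit 2)) .nil)) .nil))) (.cons (.ev (nat_lit 340282367000476110987532347688074870784) (nat_lit 1)) .nil)))) .nil))))) (.cons (.br (nat_lit 11) (nat_lit 1) (.cons (.br (nat_lit 15) (nat_lit 1) (.cons (.rf (nat_lit 1185) (nat_lit 677582165103132179601393696)) (.cons (.br (nat_lit 15) (nat_lit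 1) (.cons (.rf (nat_lit 1185) (nat_lit 677582165103132179601393696)) .nil)) .nil))) (.cons (.br (nat_lit 14) (nat_lit 1) (.cons (.rf (nat_lit 130) (nat_lit 19043187144802)) (.cons (.br (nat_lit 16) (nat_lit 1) (.cons (.zr (nat_lit 2668901511743874925680520068180606979) (nat_lit 4849870378470088539898112) (nat_lit 8) (nat_lit 0)) (.cons (.ev (nat_lit 680575138955688092554320543966768005889) (nat_lit 2)) .nil))) (.cons (.br (nat_lit 17) (nat_lit 1) (.cons (.ev (nat_lit 174229899180777757357454299323136238551809) (nat_lit 3)) (.cons (.ev (nat_lit 348449174901660387336159953426312799192835) (nat_lit 3)) .nil))) .nil)))) (.cons (.br (nat_lit 14) (nat_lit 1) (.cons (.br (nat_lit 15) (nat_lit 1) (.cons (.ev (nat_lit 683233594947257933744717571588463001859) (nat_lit 2)) (.cons (.ev (nat_lit 1334420372182307150509693545914368257) (nat_lit 1)) .nil))) (.cons (.rf (nat_lit 130) (nat_lit 16740015159394)) (.cons (.br (nat_lit 17) (nat_lit 1) (.cons (.ev (nat_lit 348449174901660387336159953426312799192835) (nat_lit 3)) (.cons (.ev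 (nat_lit 1361139873115715609614305982033435035395) (nat_lit 3)) .nil))) .nil)))) (.cons (.br (nat_lit 17) (nat_lit 1) (.cons (.rf (nat_lit 130) (nat_lit 16843091261538)) (.cons (.br (nat_lit 14) (nat_lit 1) (.cons (.rf (nat_lit 134) (nat_lit 11391568689250)) (.cons (.ev (nat_lit 87112291124057106395118233214770047156225) (nat_lit 1)) .nil))) (.cons (.rf (nat_lit 979) (nat_lit 19423881194486337215789)) .nil)))) .nil))))) .nil)))))) .nil)))))),
 (.br (nat_lit 16) (nat_lit 1) (.cons (.ev (nat_lit 20361640198203120184594219925761) (nat_lit 2)) (.cons (.ev (nat_lit 340282366921247948491715036742728876288) (nat_lit 1)) (.cons (.ev (nat_lit 340287559217798211939261294120466907393) (nat_lit 1)) .nil)))),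
 (.br (nat_lit 16) (nat_lit 1) (.cons (.ev (nat_lit 340287579500517300600753343511924834560) (nat_lit 1)) (.cons (.ev (nat_lit 685881666503569457678688373985302151431) (nat_lit 3)) (.cons (.ev (nat_lit 174224571884041208786536128158310986809603) (nat_lit 2)) .nil)))),
 (.br (nat_lit 10) (nat_lit 1) (.cons (.rf (nat_lit 1183) (nat_lit 547099556243019141552384)) (.cons (.rf (nat_lit 1174) (nat_lit 547099556243019141552384)) (.cons (.br (nat_lit 7) (nat_lit 1) (.cons (.rf (nat_lit 771) (nat_lit 16688444741562506413)) (.cons (.rf (nat_lit 1036) (nat_lit 16696403313006186563)) (.cons (.ev (nat_lit 1329228075013083128053711770017071360) (nat_lit 1)) (.cons (.br (nat_lit 14) (nat_lit 1) (.cons (.ev (nat_lit 5212579578832414939914141480058881) (nat_lit 1)) (.cons (.rf (nat_lit 130) (nat_lit 17977864337730)) (.cons (.zr (nat_lit 10404876126678029293968921985024003) (nat_lit 79228162532855759805282910976) (nat_lit 8) (nat_lit 13)) (.cons (.br (nat_lit 11) (nat_lit 1) (.cons (.rf (nat_lit 102) (nat_lit 18943425494211)) (.cons (.br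 (nat_lit 15) (nat_lit 1) (.cons (.zr (nat_lit 2658476353210020485748087802235453443) (nat_lit 618970074983486408043397376) (nat_lit 8) (nat_lit 13)) (.cons (.kr (nat_lit 1329228075014287313059816877036929280) (nat_lit 5192297168019855896620738291957760) (nat_lit 1) (nat_lit 0)) .nil))) (.cons (.br (nat_lit 15) (nat_lit 1) (.cons (.zr (nat_lit 1334440575054268000388859015582449667) (nat_lit 309485046787453760135365120) (nat_lit 8) (nat_lit 13)) (.cons (.zr (nat_lit 2658476353210020485748087802235453443) (nat_lit 618970074983486408043397376) (nat_lit 8) (nat_lit 13)) .nil))) .nil)))) .nil))))) .nil))))) (.cons (.ev (nat_lit 20361640198203120184594219925761) (nat_lit 2)) (.cons (.br (nat_lit 7) (nat_lit 1) (.cons (.rf (nat_lit 719) (nat_lit 19423563930543745961189)) (.cons (.br (nat_lit 11) (nat_lit 1) (.cons (.rf (nat_lit 119) (nat_lit 18114363635938)) (.cons (.ev (nat_lit 1329227995784920595342347528275296256) (nat_lit 1)) (.cons (.br (nat_lit 14) (nat_lit 1) (.cons (.zr (nat_lit 2658476353210020485748087802235453443)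 (nat_lit 618970074983486408043397376) (nat_lit 8) (nat_lit 13)) (.cons (.ev (nat_lit 10404955973810618541791824060743939) (nat_lit 2)) (.cons (.rf (nat_lit 1187) (nat_lit 677582165103132179601393696)) .nil)))) (.cons (.br (nat_lit 14) (nat_lit 1) (.cons (.rf (nat_lit 130) (nat_lit 17981085563106)) (.cons (.br (nat_lit 16) (nat_lit 1) (.cons (.ev (nat_lit 685881666503569438789511798782846698755) (nat_lit 3)) (.cons (.zr (nat_lit 20283033414115693029925234671872) (nat_lit 680575118673278484124799854885315018755) (nat_lit 8) (nat_lit 9)) .nil))) (.cons (.ev (nat_lit 10404955973810618541791824060743939) (nat_lit 2)) .nil)))) .nil))))) (.cons (.ev (nat_lit 1329248278194519524646570076563046401) (nat_lit 1)) (.cons (.br (nat_lit 11) (nat_lit 1) (.cons (.br (nat_lit 14) (nat_lit 1) (.cons (.ev (nat_lit 10405114430135610176418112799245059) (nat_lit 2)) (.cons (.ev (nat_lit 340282387203657556865751662088943567105) (nat_lit 1)) (.cons (.br (nat_lit 15) (nat_lit 1) (.cons (.rf (nat_lit 130) (nat_lit 15773610818755)) (.cons (.br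 (nat_lit 16) (nat_lit 1) (.cons (.zr (nat_lit 2668861105380992614263087390475288577) (nat_lit 1361129467684991798615150855825865573120) (nat_lit 8) (nat_lit 5)) .nil)) .nil))) .nil)))) (.cons (.rf (nat_lit 119) (nat_lit 15953730845891)) (.cons (.rf (nat_lit 119) (nat_lit 15915071947079)) (.cons (.br (nat_lit 16) (nat_lit 1) (.cons (.br (nat_lit 15) (nat_lit 1) (.cons (.ev (nat_lit 683233594788801608679294847503025963779) (nat_lit 2)) (.cons (.rf (nat_lit 874) (nat_lit 659378013707068234570853)) .nil))) (.cons (.rf (nat_lit 130) (nat_lit 15773610818755)) (.cons (.ev (nat_lit 340282387203657556865751662088943567105) (nat_lit 1)) .nil)))) .nil))))) (.cons (.br (nat_lit 11) (nat_lit 1) (.cons (.br (nat_lit 14) (nat_lit 1) (.cons (.ev (nat_lit 10405114430135610176418112799245059) (nat_lit 2)) (.cons (.ev (nat_lit 5192534856148361694670097666409219) (nat_lit 2)) (.cons (.br (nat_lit 15) (nat_lit 1) (.cons (.br (nat_lit 16) (nat_lit 1) (.cons (.zr (nat_lit 20789469851001257916023600991698944) (nat_lit 1363787923913627143161741747869521674497)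 (nat_lit 8) (nat_lit 8)) .nil)) (.cons (.rf (nat_lit 134) (nat_lit 11217489410402)) .nil))) .nil)))) (.cons (.br (nat_lit 14) (nat_lit 1) (.cons (.br (nat_lit 14) (nat_lit 1) (.cons (.rf (nat_lit 1188) (nat_lit 677582165103132179601393696)) .nil)) (.cons (.br (nat_lit 14) (nat_lit 1) (.cons (.rf (nat_lit 1188) (nat_lit 677582165103132179601393696)) .nil)) .nil))) (.cons (.br (nat_lit 15) (nat_lit 1) (.cons (.zr (nat_lit 2658476353210020485748087802235453443) (nat_lit 618970074983486408043397376) (nat_lit 8) (nat_lit 13)) (.cons (.rf (nat_lit 130) (nat_lit 15636208565443)) (.cons (.br (nat_lit 17) (nat_lit 1) (.cons (.ev (nat_lit 174224571884041208786536128158310986809603) (nat_lit 2)) (.cons (.ev (nat_lit 87452568318963594718479758042330013106176) (nat_lit 1)) .nil))) .nil)))) (.cons (.br (nat_lit 15) (nat_lit 1) (.cons (.br (nat_lit 14) (nat_lit 1) (.cons (.br (nat_lit 16) (nat_lit 1) (.cons (.ev (nat_lit 683223210195705917487480791264248464129) (nat_lit 2)) .nil)) (.cons (.ev (nat_lit 87113615159835569214761702219198582751233)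 (nat_lit 1)) .nil))) (.cons (.br (nat_lit 16) (nat_lit 1) (.cons (.ev (nat_lit 2041694222205421588006358214242692366595) (nat_lit 3)) (.cons (.ev (nat_lit 87113615159835569214761702219198582751233) (nat_lit 1)) .nil))) (.cons (.rf (nat_lit 130) (nat_lit 15739284667587)) .nil)))) .nil))))) .nil)))))) .nil)))))),
 (.br (nat_lit 14) (nat_lit 1) (.cons (.ev (nat_lit 10404955973810618541791824060743939) (nat_lit 2)) (.cons (.br (nat_lit 15) (nat_lit 1) (.cons (.kr (nat_lit 1329227995786124798795479283492978944) (nat_lit 5192297168019855896619638780329984) (nat_lit 1) (nat_lit 0)) (.cons (.ev (nat_lit 2658476353210020504339511113486041859) (nat_lit 2)) .nil))) .nil))),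
 (.br (nat_lit 14) (nat_lit 1) (.cons (.ev (nat_lit 10404955973810618541791824060743939) (nat_lit 2)) (.cons (.br (nat_lit 16) (nat_lit 1) (.cons (.rf (nat_lit 720) (nat_lit 587289286417123189755109)) (.cons (.ev (nat_lit 175585701351567125304270350649672257896707) (nat_lit 3)) .nil))) .nil))),
 (.br (nat_lit 16) (nat_lit 1) (.cons (.ev (nat_lit 2041694222205421587969465289045226554115) (nat_lit 3)) .nil)),
 (.br (nat_lit 11) (nat_lit 1) (.cons (.br (nat_lit 15) (nat_lit 1) (.cons (.rf (nat_lit 1192) (nat_lit 677582165103132179601393696)) (.cons (.br (nat_lit 15) (nat_lit 1) (.cons (.rf (nat_lit 1192) (nat_lit 677582165103132179601393696)) .nil)) .nil))) (.cons (.br (nat_lit 14) (nat_lit 1) (.cons (.rf (nat_lit 130) (nat_lit 17939380549858)) (.cons (.ev (nat_lit 10404955973810618541791824060743939) (nat_lit 2)) (.cons (.br (nat_lit 15) (nat_lit 1) (.cons (.kr (nat_lit 1329227995786124798795479283492978944) (nat_lit 5192297168019855896619638780329984) (nat_lit 1) (nat_lit 0)) (.cons (.ev (nat_lit 2658476353210020504339511113486041859)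 (nat_lit 2)) .nil))) .nil)))) (.cons (.br (nat_lit 14) (nat_lit 1) (.cons (.ev (nat_lit 10404955973810618541791824060743939) (nat_lit 2)) (.cons (.ev (nat_lit 340282366921247948473268011194042548224) (nat_lit 1)) (.cons (.br (nat_lit 17) (nat_lit 1) (.cons (.zr (nat_lit 10486084993255168687309315312451584) (nat_lit 174224571863521112263267729925591810441987) (nat_lit 8) (nat_lit 4)) (.cons (.ev (nat_lit 175585701351882800014361621365673041461511) (nat_lit 3)) .nil))) .nil)))) (.cons (.br (nat_lit 14) (nat_lit 1) (.cons (.br (nat_lit 15) (nat_lit 1) (.cons (.rf (nat_lit 750) (nat_lit 20003291119568828710979712)) (.cons (.ev (nat_lit 87112285952122193902522094431085137035265) (nat_lit 1)) .nil))) (.cons (.rf (nat_lit 1187) (nat_lit 640105464695078675185502240)) (.cons (.rf (nat_lit 130) (nat_lit 17801945856226)) .nil)))) .nil))))),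
 (.br (nat_lit 15) (nat_lit 1) (.cons (.rf (nat_lit 1193) (nat_lit 640068858132381852561119488)) (.cons (.br (nat_lit 11) (nat_lit 1) (.cons (.rf (nat_lit 130) (nat_lit 17939246332258)) (.cons (.br (nat_lit 14) (nat_lit 1) (.cons (.rf (nat_lit 134) (nat_lit 11390356503782)) (.cons (.rf (nat_lit 1188) (nat_lit 601457617399273498756614176)) .nil))) (.cons (.br (nat_lit 14) (nat_lit 1) (.cons (.rf (nat_lit 1184) (nat_lit 600176667268340524618422528)) (.cons (.ev (nat_lit 87112285952122193902522094431085137035265) (nat_lit 1)) .nil))) .nil)))) (.cons (.ev (nat_lit 1329228075013092609680449335055090179) (nat_lit 2)) (.cons (.ev (nat_lit 2658476511666345569761113697062748419) (nat_lit 2)) .nil))))),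
 (.br (nat_lit 11) (nat_lit 1) (.cons (.rf (nat_lit 1194) (nat_lit 640068858132381852561119488)) (.cons (.rf (nat_lit 1193) (nat_lit 640068858132381852561119488)) (.cons (.rf (nat_lit 1149) (nat_lit 17550047883769041744403757)) (.cons (.br (nat_lit 16) (nat_lit 1) (.cons (.br (nat_lit 14) (nat_lit 1) (.cons (.br (nat_lit 15) (nat_lit 1) (.cons (.zr (nat_lit 2044352678354207353778008954331704854277) (nat_lit 20769187436590310952457197423165440) (nat_lit 8) (nat_lit 0)) .nil)) (.cons (.ev (nat_lit 174905136617882466743406197081909191770369) (nat_lit 2)) .nil))) (.cons (.br (nat_lit 17) (nat_lit 1) (.cons (.rf (nat_lit 762) (nat_lit 18683452844613190147026153)) (.cons (.ev (nat_lit 174905136617882466743406197081909191770369) (nat_lit 2)) .nil))) (.cons (.kr (nat_lit 87112285931760246646623899503632173760512) (nat_lit 340282367000166625977638945025312161792) (nat_lit 5) (nat_lit 0)) .nil)))) .nil))))),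
 (.br (nat_lit 0) (nat_lit 0) (.cons (.rf (nat_lit 1057) (nat_lit 14242959524133701664)) (.cons (.rf (nat_lit 1057) (nat_lit 14208022508842585120)) (.cons (.br (nat_lit 4) (nat_lit 0) (.cons (.rf (nat_lit 218) (nat_lit 13057171488)) (.cons (.rf (nat_lit 218) (nat_lit 5775859744)) (.cons (.br (nat_lit 5) (nat_lit 0) (.cons (.rf (nat_lit 218) (nat_lit 4703166496)) (.cons (.br (nat_lit 12) (nat_lit 0) (.cons (.br (nat_lit 2) (nat_lit 1) (.cons (.rf (nat_lit 1061) (nat_lit 493858305440582043680)) (.cons (.rf (nat_lit 1061) (nat_lit 10780919665129621645)) (.cons (.rf (nat_lit 1068) (nat_lit 493858305440582043680)) (.cons (.rf (nat_lit 1068) (nat_lit 485495966290541750528)) (.cons (.rf (nat_lit 1071) (nat_lit 493858305440582043680)) (.cons (.br (nat_lit 11) (nat_lit 1) (.cons (.rf (nat_lit 1068) (nat_lit 484305889022817053984)) (.cons (.rf (nat_lit 1068) (nat_lit 485635850857708067072)) (.cons (.rf (nat_lit 1061) (nat_lit 484445739438518410528)) (.cons (.rf (nat_lit 1061) (nat_lit 1263440262655748493)) (.cons (.ev (nat_lit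 79537647542532426740273315841) (nat_lit 1)) (.cons (.br (nat_lit 3) (nat_lit 1) (.cons (.rf (nat_lit 1068) (nat_lit 493823368425290927136)) (.cons (.rf (nat_lit 1061) (nat_lit 9590842397404925101)) (.cons (.rf (nat_lit 1071) (nat_lit 493823368425290927136)) (.cons (.rf (nat_lit 1074) (nat_lit 583706118939841765935136)) (.cons (.rf (nat_lit 1076) (nat_lit 583706118939841765935136)) (.cons (.br (nat_lit 10) (nat_lit 1) (.cons (.rf (nat_lit 1061) (nat_lit 485635850857708067072)) (.cons (.rf (nat_lit 1068) (nat_lit 484445739438518410528)) (.cons (.rf (nat_lit 1076) (nat_lit 548288335381304135715872)) (.cons (.rf (nat_lit 1074) (nat_lit 622173047558338412652941)) (.cons (.ev (nat_lit 79229376162450436191892275201) (nat_lit 1)) (.cons (.br (nat_lit 6) (nat_lit 1) (.cons (.rf (nat_lit 1071) (nat_lit 485635850857708067072)) (.cons (.rf (nat_lit 1074) (nat_lit 583223041554066313513101)) (.cons (.rf (nat_lit 1076) (nat_lit 583223041554066313513101)) (.cons (.rf (nat_lit 1076) (nat_lit 625018463325801121261824)) (.cons (.rf (nat_lit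 1074) (nat_lit 625018463325801121261824)) .nil)))))) .nil))))))) .nil))))))) .nil))))))) .nil))))))) .nil)) .nil))) .nil)))) (.cons (.rf (nat_lit 1057) (nat_lit 5880620374093408512)) (.cons (.br (nat_lit 4) (nat_lit 0) (.cons (.rf (nat_lit 1077) (nat_lit 493858305440582043680)) (.cons (.br (nat_lit 5) (nat_lit 0) (.cons (.rf (nat_lit 363) (nat_lit 422422253600)) (.cons (.br (nat_lit 12) (nat_lit 0) (.cons (.br (nat_lit 2) (nat_lit 1) (.cons (.rf (nat_lit 1080) (nat_lit 493858305440582043680)) (.cons (.rf (nat_lit 1084) (nat_lit 493858305440582043680)) (.cons (.rf (nat_lit 1090) (nat_lit 493858305440582043680)) (.cons (.rf (nat_lit 1096) (nat_lit 493858305440582043680)) (.cons (.rf (nat_lit 1103) (nat_lit 493858305440582043680)) (.cons (.br (nat_lit 11) (nat_lit 1) (.cons (.rf (nat_lit 1096) (nat_lit 1228503247364631949)) (.cons (.rf (nat_lit 1090) (nat_lit 485635850857708067072)) (.cons (.rf (nat_lit 1084) (nat_lit 9450957830238608557)) (.cons (.rf (nat_lit 1080) (nat_lit 1228503247364631949)) (.cons (.ev (nat_lit 79537647542532426740273315841)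 (nat_lit 1)) (.cons (.br (nat_lit 6) (nat_lit 1) (.cons (.rf (nat_lit 1096) (nat_lit 485635850857708067072)) (.cons (.rf (nat_lit 1103) (nat_lit 485635850857708067072)) (.cons (.rf (nat_lit 1080) (nat_lit 485635850857708067072)) (.cons (.rf (nat_lit 1108) (nat_lit 583706118939841765935136)) (.cons (.rf (nat_lit 1111) (nat_lit 583706118939841765935136)) (.cons (.br (nat_lit 7) (nat_lit 1) (.cons (.rf (nat_lit 1080) (nat_lit 9450957830238608557)) (.cons (.rf (nat_lit 1096) (nat_lit 9450957830238608557)) (.cons (.rf (nat_lit 1111) (nat_lit 548280147863736552855808)) (.cons (.rf (nat_lit 1108) (nat_lit 622181235075905995513005)) (.cons (.ev (nat_lit 72340172821233921) (nat_lit 1)) (.cons (.br (nat_lit 3) (nat_lit 1) (.cons (.br (nat_lit 14) (nat_lit 1) (.cons (.rf (nat_lit 1112) (nat_lit 677582165103132179601393696)) (.cons (.rf (nat_lit 1113) (nat_lit 677582165103132179601393696)) (.cons (.br (nat_lit 14) (nat_lit 1) (.cons (.rf (nat_lit 1112) (nat_lit 677582165103132179601393696)) (.cons (.rf (nat_lit 1113) (nat_lit 677582165103132179601393696))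 .nil))) .nil)))) (.cons (.rf (nat_lit 1114) (nat_lit 677582165103132179601393696)) (.cons (.rf (nat_lit 1115) (nat_lit 677582165103132179601393696)) (.cons (.rf (nat_lit 1115) (nat_lit 560357196899890648707079341)) (.cons (.rf (nat_lit 1114) (nat_lit 560357196899890648707079341)) .nil)))))) .nil))))))) .nil))))))) .nil))))))) .nil))))))) .nil)) .nil))) (.cons (.rf (nat_lit 1077) (nat_lit 485635850857708067072)) (.cons (.br (nat_lit 5) (nat_lit 0) (.cons (.rf (nat_lit 1150) (nat_lit 493858305440582043680)) (.cons (.br (nat_lit 9) (nat_lit 0) (.cons (.br (nat_lit 2) (nat_lit 1) (.cons (.rf (nat_lit 1153) (nat_lit 493858305440582043680)) (.cons (.br (nat_lit 3) (nat_lit 1) (.cons (.rf (nat_lit 938) (nat_lit 445092485129178177)) (.cons (.rf (nat_lit 711) (nat_lit 336903739535300676)) (.cons (.br (nat_lit 7) (nat_lit 1) (.cons (.ev (nat_lit 475686941465827060986169982976) (nat_lit 3)) (.cons (.rf (nat_lit 47) (nat_lit 477468770)) .nil))) (.cons (.br (nat_lit 7) (nat_lit 1) (.cons (.rf (nat_lit 47) (nat_lit 473241826)) (.cons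 (.rf (nat_lit 47) (nat_lit 473274594)) (.cons (.ev (nat_lit 20520094095935421342913107329281) (nat_lit 2)) (.cons (.br (nat_lit 10) (nat_lit 1) (.cons (.rf (nat_lit 47) (nat_lit 473274690)) (.cons (.ev (nat_lit 20361640198203120184594219925761) (nat_lit 2)) (.cons (.br (nat_lit 11) (nat_lit 1) (.cons (.rf (nat_lit 933) (nat_lit 17394662955390146)) (.cons (.ev (nat_lit 2658456071418187372850722301003431936) (nat_lit 2)) (.cons (.rf (nat_lit 719) (nat_lit 17136060463750980970696)) .nil)))) (.cons (.br (nat_lit 11) (nat_lit 1) (.cons (.rf (nat_lit 719) (nat_lit 19459454247239492439105)) (.cons (.ev (nat_lit 20520713075399797000997427085569) (nat_lit 2)) (.cons (.ev (nat_lit 20362259158778029911182778958081) (nat_lit 2)) (.cons (.br (nat_lit 14) (nat_lit 1) (.cons (.rf (nat_lit 1154) (nat_lit 677582165103132179601393696)) (.cons (.rf (nat_lit 1155) (nat_lit 677582165103132179601393696)) (.cons (.br (nat_lit 14) (nat_lit 1) (.cons (.rf (nat_lit 1154) (nat_lit 677582165103132179601393696)) (.cons (.rf (nat_lit 1155) (nat_lit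 677582165103132179601393696)) .nil))) .nil)))) .nil))))) .nil))))) .nil))))) .nil))))) (.cons (.rf (nat_lit 1159) (nat_lit 493858305440582043680)) (.cons (.ev (nat_lit 18446744078004584449) (nat_lit 1)) (.cons (.rf (nat_lit 1164) (nat_lit 493858305440582043680)) (.cons (.br (nat_lit 6) (nat_lit 1) (.cons (.ev (nat_lit 281479271678209) (nat_lit 1)) (.cons (.rf (nat_lit 1164) (nat_lit 485635850857708067072)) (.cons (.rf (nat_lit 1153) (nat_lit 485635850857708067072)) (.cons (.rf (nat_lit 1159) (nat_lit 485635850857708067072)) (.cons (.br (nat_lit 14) (nat_lit 1) (.cons (.rf (nat_lit 1165) (nat_lit 17022140995484340291616)) (.cons (.ev (nat_lit 10404955354850043632069616301244675) (nat_lit 2)) (.cons (.rf (nat_lit 1165) (nat_lit 17013918540901466315008)) (.cons (.ev (nat_lit 10405113811175035266691506993496835) (nat_lit 2)) (.cons (.br (nat_lit 3) (nat_lit 1) (.cons (.rf (nat_lit 1168) (nat_lit 583706118939841765935136)) (.cons (.ev (nat_lit 20361640198240014235691592581889) (nat_lit 2)) (.cons (.rf (nat_lit 1169) (nat_lit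 583706118939841765935136)) (.cons (.rf (nat_lit 1170) (nat_lit 583706118939841765935136)) (.cons (.br (nat_lit 10) (nat_lit 1) (.cons (.rf (nat_lit 1167) (nat_lit 608109063156659362048)) (.cons (.rf (nat_lit 1167) (nat_lit 608108922420244846848)) (.cons (.rf (nat_lit 1170) (nat_lit 583697896485258891958528)) (.cons (.ev (nat_lit 20361640198203120184594219925761) (nat_lit 2)) (.cons (.br (nat_lit 7) (nat_lit 1) (.cons (.rf (nat_lit 1167) (nat_lit 645002277767409272864)) (.cons (.rf (nat_lit 1171) (nat_lit 677582165103132179601393696)) (.cons (.br (nat_lit 11) (nat_lit 1) (.cons (.rf (nat_lit 1171) (nat_lit 640105456472624092311525632)) (.cons (.rf (nat_lit 102) (nat_lit 16843186487523)) (.cons (.br (nat_lit 16) (nat_lit 1) (.cons (.br (nat_lit 15) (nat_lit 1) (.cons (.ev (nat_lit 2668861105999976800861676110646214913) (nat_lit 2)) .nil)) (.cons (.ev (nat_lit 340282367000476111005979373236761198848) (nat_lit 1)) .nil))) .nil)))) (.cons (.br (nat_lit 11) (nat_lit 1) (.cons (.rf (nat_lit 1171) (nat_lit 640105456472624092311525632))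 (.cons (.br (nat_lit 16) (nat_lit 1) (.cons (.br (nat_lit 15) (nat_lit 1) (.cons (.ev (nat_lit 2668861105999976800861676110646214913) (nat_lit 2)) .nil)) (.cons (.ev (nat_lit 340282366921247948473268011194042548224) (nat_lit 1)) .nil))) (.cons (.rf (nat_lit 102) (nat_lit 16602668320071)) .nil)))) .nil))))) .nil)))))) .nil)))))) .nil)))))) (.cons (.br (nat_lit 3) (nat_lit 1) (.cons (.rf (nat_lit 1174) (nat_lit 583706118939841765935136)) (.cons (.br (nat_lit 7) (nat_lit 1) (.cons (.rf (nat_lit 47) (nat_lit 472230115)) (.cons (.br (nat_lit 11) (nat_lit 1) (.cons (.ev (nat_lit 31174144031774504981295023211414275) (nat_lit 3)) (.cons (.rf (nat_lit 649) (nat_lit 583704896109224242777120)) (.cons (.rf (nat_lit 786) (nat_lit 19423452357498241423688)) .nil)))) (.cons (.rf (nat_lit 1175) (nat_lit 583706118939841765935136)) (.cons (.br (nat_lit 11) (nat_lit 1) (.cons (.rf (nat_lit 1175) (nat_lit 547099556243019141552384)) (.cons (.rf (nat_lit 786) (nat_lit 19459453155457764591713)) (.cons (.br (nat_lit 16) (nat_lit 1) (.cons (.rf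 (nat_lit 68) (nat_lit 16991094417635)) (.cons (.rf (nat_lit 68) (nat_lit 15925812504803)) (.cons (.rf (nat_lit 1132) (nat_lit 21172739716788451586313517)) .nil)))) (.cons (.br (nat_lit 14) (nat_lit 1) (.cons (.rf (nat_lit 1176) (nat_lit 677582165103132179601393696)) (.cons (.rf (nat_lit 1177) (nat_lit 677582165103132179601393696)) (.cons (.br (nat_lit 14) (nat_lit 1) (.cons (.rf (nat_lit 1176) (nat_lit 677582165103132179601393696)) (.cons (.rf (nat_lit 1177) (nat_lit 677582165103132179601393696)) .nil))) .nil)))) .nil))))) .nil))))) (.cons (.rf (nat_lit 1183) (nat_lit 583706118939841765935136)) (.cons (.rf (nat_lit 1186) (nat_lit 583706118939841765935136)) (.cons (.rf (nat_lit 1189) (nat_lit 583706118939841765935136)) (.cons (.br (nat_lit 10) (nat_lit 1) (.cons (.rf (nat_lit 1183) (nat_lit 547099556243019141552384)) (.cons (.rf (nat_lit 1174) (nat_lit 547099556243019141552384)) (.cons (.rf (nat_lit 1189) (nat_lit 547099556243019141552384)) (.cons (.rf (nat_lit 1186) (nat_lit 547099556243019141552384)) (.cons (.ev (nat_lit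 20361640198203120184594219925761) (nat_lit 2)) (.cons (.br (nat_lit 7) (nat_lit 1) (.cons (.br (nat_lit 14) (nat_lit 1) (.cons (.rf (nat_lit 1190) (nat_lit 677582165103132179601393696)) (.cons (.rf (nat_lit 1191) (nat_lit 677582165103132179601393696)) (.cons (.br (nat_lit 14) (nat_lit 1) (.cons (.rf (nat_lit 1190) (nat_lit 677582165103132179601393696)) (.cons (.rf (nat_lit 1191) (nat_lit 677582165103132179601393696)) .nil))) .nil)))) (.cons (.rf (nat_lit 1193) (nat_lit 677582165103132179601393696)) (.cons (.rf (nat_lit 1194) (nat_lit 677582165103132179601393696)) (.cons (.rf (nat_lit 1195) (nat_lit 677582165103132179601393696)) (.cons (.br (nat_lit 11) (nat_lit 1) (.cons (.rf (nat_lit 1194) (nat_lit 640068858132381852561119488)) (.cons (.rf (nat_lit 1193) (nat_lit 640068858132381852561119488)) (.cons (.br (nat_lit 16) (nat_lit 1) (.cons (.br (nat_lit 14) (nat_lit 1) (.cons (.br (nat_lit 15) (nat_lit 1) (.cons (.ev (nat_lit 89511599579896243072995561545590271708160) (nat_lit 4)) .nil)) (.cons (.ev (nat_lit 174905136617882466743406197081909191770369)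 (nat_lit 2)) .nil))) (.cons (.br (nat_lit 15) (nat_lit 1) (.cons (.rf (nat_lit 829) (nat_lit 549547099279353326214505)) (.cons (.ev (nat_lit 174905136617882466743406197081909191770369) (nat_lit 2)) .nil))) (.cons (.ev (nat_lit 340282366921247948473268011194042548224) (nat_lit 1)) .nil)))) (.cons (.rf (nat_lit 1149) (nat_lit 18795535410369068142931245)) .nil))))) .nil)))))) .nil))))))) .nil))))))) .nil))))))) .nil))))))) .nil)) (.cons (.br (nat_lit 9) (nat_lit 0) (.cons (.rf (nat_lit 1150) (nat_lit 485635850857708067072)) .nil)) .nil)))) .nil))))) .nil))))))]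

theorem c52 : chkAll C T R L52 (nat_lit 1184) = true := by decide +kernel

theorem l52 : (nat_lit 1184) + L52.length = (nat_lit 1197) := by decide +kernel

/-- part of the certificates -/
def L53 : List Prf := [(.br (nat_lit 5) (nat_lit 0) (.cons (.rf (nat_lit 363) (nat_lit 318269427744)) (.cons (.br (nat_lit 9) (nat_lit 0) (.cons (.rf (nat_lit 1057) (nat_lit 9450957830238608557)) .nil)) .nil))),
 (.br (nat_lit 15) (nat_lit 1) (.cons (.zr (nat_lit 680564754203514693092828655646234640385) (nat_lit 2658455992188806543157019348784251648) (nat_lit 8) (nat_lit 5)) .nil)),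
 (.br (nat_lit 14) (nat_lit 1) (.cons (.ev (nat_lit 5192376087910990151304657724506368) (nat_lit 1)) (.cons (.br (nat_lit 17) (nat_lit 1) (.cons (.ev (nat_lit 174227240724626493260603927715436713607427) (nat_lit 2)) (.cons (.rf (nat_lit 810) (nat_lit 622815446851060422150340)) .nil))) .nil))),
 (.br (nat_lit 14) (nat_lit 1) (.cons (.ev (nat_lit 5192376087910990151304657724506368) (nat_lit 1)) (.cons (.rf (nat_lit 1014) (nat_lit 637763170919575331159509024)) .nil))),
 (.br (nat_lit 6) (nat_lit 1) (.cons (.rf (nat_lit 711) (nat_lit 445092485129178177)) (.cons (.zr (nat_lit 20361637766165935888544508936193) (nat_lit 2422629345944349156836096) (nat_lit 8) (nat_lit 4)) (.cons (.ev (nat_lit 20520094105380010193464322032385) (nat_lit 2)) (.cons (.br (nat_lit 7) (nat_lit 1) (.cons (.rf (nat_lit 47) (nat_lit 476384482)) (.cons (.kr (nat_lit 72057594037993472) (nat_lit 4722366482869661990912) (nat_lit 2) (nat_lit 0)) (.cons (.ev (nat_lit 20520094095935421342913073775361) (nat_lit 2)) (.cons (.br (nat_lit 10) (nat_lit 1) (.cons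 (.rf (nat_lit 47) (nat_lit 476417346)) (.cons (.br (nat_lit 14) (nat_lit 1) (.cons (.ev (nat_lit 10404955359695154750005733528830723) (nat_lit 3)) (.cons (.ev (nat_lit 10404955359704599915317037080249091) (nat_lit 3)) (.cons (.br (nat_lit 11) (nat_lit 1) (.cons (.rf (nat_lit 40) (nat_lit 17981398813890)) (.cons (.rf (nat_lit 68) (nat_lit 17057709362370)) (.cons (.br (nat_lit 15) (nat_lit 1) (.cons (.br (nat_lit 15) (nat_lit 1) (.cons (.ev (nat_lit 2668861106002394652500340211428885249) (nat_lit 2)) .nil)) (.cons (.br (nat_lit 15) (nat_lit 1) (.cons (.ev (nat_lit 2668861106002394652500340211428885249) (nat_lit 2)) .nil)) .nil))) .nil)))) .nil)))) (.cons (.br (nat_lit 11) (nat_lit 1) (.cons (.rf (nat_lit 771) (nat_lit 17810870458175916160)) (.cons (.ev (nat_lit 1329228075322568119355972592194355456) (nat_lit 1)) (.cons (.rf (nat_lit 719) (nat_lit 17136172036796485508197)) .nil)))) (.cons (.br (nat_lit 11) (nat_lit 1) (.cons (.rf (nat_lit 719) (nat_lit 18315647925923906361412)) (.cons (.rf (nat_lit 1025) (nat_lit 608094430890247166125))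 (.cons (.br (nat_lit 16) (nat_lit 1) (.cons (.rf (nat_lit 68) (nat_lit 16991132159298)) (.cons (.ev (nat_lit 680564754361973450158542192031943491843) (nat_lit 2)) (.cons (.br (nat_lit 14) (nat_lit 1) (.cons (.rf (nat_lit 1198) (nat_lit 677582165103132179601393696)) (.cons (.br (nat_lit 14) (nat_lit 1) (.cons (.rf (nat_lit 1198) (nat_lit 677582165103132179601393696)) .nil)) .nil))) .nil)))) (.cons (.br (nat_lit 14) (nat_lit 1) (.cons (.rf (nat_lit 1199) (nat_lit 677582165103132179601393696)) (.cons (.rf (nat_lit 1200) (nat_lit 677582165103132179601393696)) (.cons (.br (nat_lit 14) (nat_lit 1) (.cons (.rf (nat_lit 1199) (nat_lit 677582165103132179601393696)) (.cons (.rf (nat_lit 1014) (nat_lit 637763170919575331159509024)) .nil))) .nil)))) .nil))))) .nil))))) .nil))))) .nil))))),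
 (.br (nat_lit 15) (nat_lit 1) (.cons (.br (nat_lit 16) (nat_lit 1) (.cons (.kr (nat_lit 341611594916723379336351316511033393154) (nat_lit 87112291164622235082690509840621393608704) (nat_lit 0) (nat_lit 1)) .nil)) .nil)),
 (.br (nat_lit 10) (nat_lit 1) (.cons (.ev (nat_lit 1213666704899166584242433) (nat_lit 1)) (.cons (.ev (nat_lit 10405113813583442317072413185147139) (nat_lit 2)) (.cons (.br (nat_lit 11) (nat_lit 1) (.cons (.ev (nat_lit 10405114430135610321096250828652803) (nat_lit 2)) (.cons (.br (nat_lit 14) (nat_lit 1) (.cons (.ev (nat_lit 20789708149632599132070773355053825) (nat_lit 3)) (.cons (.rf (nat_lit 40) (nat_lit 17978177689698)) .nil))) (.cons (.br (nat_lit 14) (nat_lit 1) (.cons (.rf (nat_lit 68) (nat_lit 18122994325602)) (.cons (.rf (nat_lit 68) (nat_lit 17057809930338)) (.cons (.br (nat_lit 15) (nat_lit 1) (.cons (.rf (nat_lit 1202) (nat_lit 677582165103132179601393696)) (.cons (.br (nat_lit 15) (nat_lit 1) (.cons (.rf (nat_lit 1202) (nat_lit 677582165103132179601393696)) .nil)) .nil))) .nil)))) .nil))))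 .nil)))),
 (.br (nat_lit 11) (nat_lit 1) (.cons (.br (nat_lit 14) (nat_lit 1) (.cons (.ev (nat_lit 20790026300241658440609100470552321) (nat_lit 3)) (.cons (.rf (nat_lit 40) (nat_lit 17948112820322)) .nil))) (.cons (.ev (nat_lit 2658476353829000005608655129055200003) (nat_lit 2)) (.cons (.rf (nat_lit 719) (nat_lit 17136060463750980970696)) .nil)))),
 (.br (nat_lit 14) (nat_lit 1) (.cons (.br (nat_lit 15) (nat_lit 1) (.cons (.ev (nat_lit 683233594947260342114873901397282259203) (nat_lit 2)) (.cons (.zr (nat_lit 621411575636284488792409347) (nat_lit 2668861422293642652587158808964366336) (nat_lit 24) (nat_lit 1)) .nil))) (.cons (.br (nat_lit 15) (nat_lit 1) (.cons (.zr (nat_lit 621411575636284488792409347) (nat_lit 2668861422293642652587158808964366336) (nat_lit 24) (nat_lit 1)) (.cons (.ev (nat_lit 174227240724626493260603927715436713607427) (nat_lit 2)) .nil))) .nil))),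
 (.br (nat_lit 14) (nat_lit 1) (.cons (.rf (nat_lit 1205) (nat_lit 677582165103132179601393696)) (.cons (.br (nat_lit 15) (nat_lit 1) (.cons (.zr (nat_lit 72794598033623272121738297555812613) (nat_lit 3402823669213722260474523938841176440832) (nat_lit 24) (nat_lit 0)) (.cons (.zr (nat_lit 20283649985246805283441251190017) (nat_lit 174224582248668807500502908688709186093056) (nat_lit 24) (nat_lit 9)) .nil))) .nil))),
 (.br (nat_lit 3) (nat_lit 1) (.cons (.kr (nat_lit 72057594037993472) (nat_lit 4311744512) (nat_lit 2) (nat_lit 0)) (.cons (.kr (nat_lit 562949970198529) (nat_lit 20282410812577490038576426123264) (nat_lit 0) (nat_lit 1)) (.cons (.kr (nat_lit 281479288455169) (nat_lit 20282719088661491769015976198144) (nat_lit 0) (nat_lit 1)) (.cons (.br (nat_lit 7) (nat_lit 1) (.cons (.kr (nat_lit 72620543991349249) (nat_lit 20282410812577490038580721025024) (nat_lit 0) (nat_lit 1)) (.cons (.kr (nat_lit 72339069014638593) (nat_lit 20282719088661491769015976132608) (nat_lit 0) (nat_lit 1)) (.cons (.rf (nat_lit 1203) (nat_lit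 17022140995484340291616)) (.cons (.br (nat_lit 10) (nat_lit 1) (.cons (.kr (nat_lit 1208925819614633469673472) (nat_lit 309485009821626543701491712) (nat_lit 4) (nat_lit 0)) (.cons (.br (nat_lit 11) (nat_lit 1) (.cons (.ev (nat_lit 10404955976237914913986821700453123) (nat_lit 2)) (.cons (.br (nat_lit 14) (nat_lit 1) (.cons (.ev (nat_lit 20790025067137322432561459543279361) (nat_lit 3)) (.cons (.rf (nat_lit 40) (nat_lit 17981398816866)) .nil))) (.cons (.rf (nat_lit 843) (nat_lit 19459453155457764591713)) .nil)))) (.cons (.rf (nat_lit 1204) (nat_lit 583706118939841765935136)) (.cons (.br (nat_lit 11) (nat_lit 1) (.cons (.rf (nat_lit 719) (nat_lit 19459454247239492439105)) (.cons (.rf (nat_lit 862) (nat_lit 18315755022887772391521)) (.cons (.rf (nat_lit 1203) (nat_lit 18895486436419840579853)) (.cons (.br (nat_lit 14) (nat_lit 1) (.cons (.rf (nat_lit 1205) (nat_lit 677582165103132179601393696)) (.cons (.rf (nat_lit 1206) (nat_lit 677582165103132179601393696)) (.cons (.br (nat_lit 14) (nat_lit 1) (.cons (.rf (nat_lit 1205)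 (nat_lit 677582165103132179601393696)) (.cons (.rf (nat_lit 1206) (nat_lit 677582165103132179601393696)) .nil))) .nil)))) .nil))))) .nil))))) .nil))))) .nil))))),
 (.br (nat_lit 15) (nat_lit 1) (.cons (.br (nat_lit 16) (nat_lit 1) (.cons (.ev (nat_lit 2049690359209111287043062722436916446981) (nat_lit 3)) .nil)) .nil)),
 (.br (nat_lit 14) (nat_lit 1) (.cons (.ev (nat_lit 10405114430135610321096250828652803) (nat_lit 2)) (.cons (.ev (nat_lit 31174301247741679479405168730308867) (nat_lit 3)) (.cons (.br (nat_lit 11) (nat_lit 1) (.cons (.rf (nat_lit 40) (nat_lit 17977103948898)) (.cons (.rf (nat_lit 68) (nat_lit 17057809898594)) (.cons (.br (nat_lit 15) (nat_lit 1) (.cons (.rf (nat_lit 1208) (nat_lit 677582165103132179601393696)) (.cons (.br (nat_lit 15) (nat_lit 1) (.cons (.rf (nat_lit 1208) (nat_lit 677582165103132179601393696)) .nil)) .nil))) .nil)))) .nil)))),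
 (.br (nat_lit 13) (nat_lit 1) (.cons (.br (nat_lit 15) (nat_lit 1) (.cons (.ev (nat_lit 344306498717436072333548568608439075840) (nat_lit 3)) .nil)) .nil)),
 (.br (nat_lit 11) (nat_lit 1) (.cons (.rf (nat_lit 1209) (nat_lit 583221711592231422500013)) (.cons (.ev (nat_lit 2658476353829000005608655129055200003) (nat_lit 2)) (.cons (.br (nat_lit 15) (nat_lit 1) (.cons (.rf (nat_lit 68) (nat_lit 18089701088450)) (.cons (.rf (nat_lit 68) (nat_lit 15959137262786)) (.cons (.br (nat_lit 14) (nat_lit 1) (.cons (.rf (nat_lit 1210) (nat_lit 21174441469360359728056352)) (.cons (.br (nat_lit 14) (nat_lit 1) (.cons (.rf (nat_lit 1210) (nat_lit 21174441469360359728056352)) .nil)) .nil))) .nil)))) .nil)))),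
 (.br (nat_lit 15) (nat_lit 1) (.cons (.ev (nat_lit 340282367000167839625897381593163497728) (nat_lit 1)) (.cons (.br (nat_lit 16) (nat_lit 1) (.cons (.ev (nat_lit 88137125908807588440729342823566103740416) (nat_lit 2)) .nil)) .nil))),
 (.br (nat_lit 14) (nat_lit 1) (.cons (.rf (nat_lit 1212) (nat_lit 677582165103132179601393696)) (.cons (.rf (nat_lit 1212) (nat_lit 640104980287731064842067117)) .nil))),
 (.br (nat_lit 14) (nat_lit 1) (.cons (.rf (nat_lit 1213) (nat_lit 677582165103132179601393696)) (.cons (.br (nat_lit 15) (nat_lit 1) (.cons (.ev (nat_lit 340282367000167839625897381593163497728) (nat_lit 1)) (.cons (.ev (nat_lit 87112285931760557340577987207408094609408) (nat_lit 1)) .nil))) .nil))),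
 (.br (nat_lit 3) (nat_lit 1) (.cons (.ev (nat_lit 20520094095935277227733621539585) (nat_lit 2)) (.cons (.ev (nat_lit 20678552848334108626451343474945) (nat_lit 3)) (.cons (.ev (nat_lit 20362256750408161250999248355585) (nat_lit 2)) (.cons (.br (nat_lit 10) (nat_lit 1) (.cons (.ev (nat_lit 20361640198240014237881992347905) (nat_lit 2)) (.cons (.ev (nat_lit 20520715483806702699367509263105) (nat_lit 2)) (.cons (.ev (nat_lit 1208944338416301233996033) (nat_lit 1)) (.cons (.br (nat_lit 6) (nat_lit 1) (.cons (.kr (nat_lit 72339069014638593) (nat_lit 20282719088661491769015976132608) (nat_lit 0) (nat_lit 1)) (.cons (.rf (nat_lit 1209) (nat_lit 583706118939841765935136)) (.cons (.rf (nat_lit 1211) (nat_lit 583706118939841765935136)) (.cons (.br (nat_lit 11) (nat_lit 1) (.cons (.rf (nat_lit 1209) (nat_lit 583221711592231422500013)) (.cons (.rf (nat_lit 1211) (nat_lit 583221711592231422500013)) (.cons (.rf (nat_lit 869) (nat_lit 622703472590086427708448)) (.cons (.br (nat_lit 14) (nat_lit 1) (.cons (.rf (nat_lit 1213) (nat_lit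 677582165103132179601393696)) (.cons (.rf (nat_lit 1214) (nat_lit 677582165103132179601393696)) (.cons (.rf (nat_lit 1214) (nat_lit 640104980287731064842067117)) .nil)))) .nil))))) .nil))))) .nil))))) .nil))))),
 (.br (nat_lit 16) (nat_lit 1) (.cons (.zr (nat_lit 10404876131523195896814277283021057) (nat_lit 680564734080180384489184921093037752320) (nat_lit 8) (nat_lit 8)) .nil)),
 (.br (nat_lit 14) (nat_lit 1) (.cons (.br (nat_lit 16) (nat_lit 1) (.cons (.zr (nat_lit 72753399389153614434678753597325319) (nat_lit 3408140581195621566352203373986262814464) (nat_lit 40) (nat_lit 4)) .nil)) .nil)),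
 (.br (nat_lit 15) (nat_lit 1) (.cons (.ev (nat_lit 1329228075014292035426581221675630848) (nat_lit 1)) (.cons (.br (nat_lit 14) (nat_lit 1) (.cons (.ev (nat_lit 2663689091551045624975344568249614339) (nat_lit 2)) (.cons (.ev (nat_lit 1334420292644659644798696259493822721) (nat_lit 1)) .nil))) .nil))),
 (.br (nat_lit 14) (nat_lit 1) (.cons (.rf (nat_lit 1218) (nat_lit 677582165103132179601393696)) (.cons (.br (nat_lit 16) (nat_lit 1) (.cons (.br (nat_lit 15) (nat_lit 1) (.cons (.zr (nat_lit 5316972909599059534896550908287516672) (nat_lit 680575118436212966656989761164726502145) (nat_lit 8) (nat_lit 5)) .nil)) (.cons (.rf (nat_lit 30) (nat_lit 6993832290402)) .nil))) .nil))),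
 (.br (nat_lit 3) (nat_lit 1) (.cons (.zr (nat_lit 20361637766165935888544508936193) (nat_lit 2422629345944349156836096) (nat_lit 8) (nat_lit 4)) (.cons (.rf (nat_lit 1201) (nat_lit 9450957830238608557)) (.cons (.br (nat_lit 6) (nat_lit 1) (.cons (.ev (nat_lit 158781535704288820754213441024) (nat_lit 4)) (.cons (.rf (nat_lit 47) (nat_lit 476424290)) .nil))) (.cons (.br (nat_lit 6) (nat_lit 1) (.cons (.rf (nat_lit 47) (nat_lit 473147586)) (.cons (.ev (nat_lit 20361640188795281272151291855105) (nat_lit 2)) (.cons (.br (nat_lit 7) (nat_lit 1) (.cons (.ev (nat_lit 309485028340428211465814273) (nat_lit 1)) (.cons (.ev (nat_lit 20520094095935421342913073775361) (nat_lit 2)) (.cons (.br (nat_lit 11) (nat_lit 1) (.cons (.ev (nat_lit 10404956597616304569458927826241287) (nat_lit 3)) (.cons (.br (nat_lit 14) (nat_lit 1) (.cons (.ev (nat_lit 10405431969028242085218267940782343) (nat_lit 3)) (.cons (.rf (nat_lit 40) (nat_lit 17977103853666)) .nil))) (.cons (.br (nat_lit 14) (nat_lit 1) (.cons (.rf (nat_lit 68) (nat_lit 18122991151202))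 (.cons (.rf (nat_lit 68) (nat_lit 17057709238370)) (.cons (.br (nat_lit 15) (nat_lit 1) (.cons (.br (nat_lit 15) (nat_lit 1) (.cons (.ev (nat_lit 2668860947543642364492960381766992129) (nat_lit 2)) .nil)) (.cons (.br (nat_lit 15) (nat_lit 1) (.cons (.ev (nat_lit 2668860947543642364492960381766992129) (nat_lit 2)) .nil)) .nil))) .nil)))) .nil)))) .nil)))) (.cons (.br (nat_lit 7) (nat_lit 1) (.cons (.kr (nat_lit 1213648258155092857847809) (nat_lit 20283028573671313114084700913664) (nat_lit 0) (nat_lit 1)) (.cons (.br (nat_lit 11) (nat_lit 1) (.cons (.ev (nat_lit 5212579577623507567044689821499393) (nat_lit 1)) (.cons (.br (nat_lit 14) (nat_lit 1) (.cons (.ev (nat_lit 5192297169233504154775835427995648) (nat_lit 1)) (.cons (.rf (nat_lit 40) (nat_lit 17978177562722)) .nil))) (.cons (.rf (nat_lit 1092) (nat_lit 19459454247239492439105)) .nil)))) (.cons (.ev (nat_lit 20520094095935421342913073775361) (nat_lit 2)) (.cons (.br (nat_lit 11) (nat_lit 1) (.cons (.br (nat_lit 14) (nat_lit 1) (.cons (.kr (nat_lit 5192296859748475814627999460884481)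 (nat_lit 618970019642972711937966336) (nat_lit 0) (nat_lit 7)) (.cons (.ev (nat_lit 10405113813592887050038161065509123) (nat_lit 2)) (.cons (.br (nat_lit 15) (nat_lit 1) (.cons (.rf (nat_lit 1216) (nat_lit 677582165103132179601393696)) (.cons (.br (nat_lit 15) (nat_lit 1) (.cons (.rf (nat_lit 1216) (nat_lit 677582165103132179601393696)) .nil)) .nil))) .nil)))) (.cons (.br (nat_lit 15) (nat_lit 1) (.cons (.ev (nat_lit 1329227995784920613717316582435258368) (nat_lit 1)) (.cons (.rf (nat_lit 68) (nat_lit 15959133104322)) (.cons (.br (nat_lit 14) (nat_lit 1) (.cons (.rf (nat_lit 1217) (nat_lit 677582165103132179601393696)) (.cons (.br (nat_lit 14) (nat_lit 1) (.cons (.rf (nat_lit 1217) (nat_lit 677582165103132179601393696)) .nil)) .nil))) .nil)))) (.cons (.rf (nat_lit 917) (nat_lit 570134714634779823136)) (.cons (.br (nat_lit 14) (nat_lit 1) (.cons (.rf (nat_lit 1218) (nat_lit 677582165103132179601393696)) (.cons (.rf (nat_lit 1219) (nat_lit 677582165103132179601393696)) (.cons (.br (nat_lit 14) (nat_lit 1) (.cons (.rf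 (nat_lit 1218) (nat_lit 677582165103132179601393696)) (.cons (.rf (nat_lit 1219) (nat_lit 677582165103132179601393696)) .nil))) .nil)))) .nil))))) .nil))))) .nil))))) .nil)))))]

theorem c53 : chkAll C T R L53 (nat_lit 1197) = true := by decide +kernel

theorem l53 : (nat_lit 1197) + L53.length = (nat_lit 1221) := by decide +kernel

end Pool.Agent.H93.Neg.N18_6_4
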