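import Pool.Agent.H93.Neg.TabN18_6_4

/-!
Certificates.
-/

set_option autoImplicit false
set_option maxRecDepth 100000
set_option linter.all false

namespace Pool.Agent.H93.Neg.N18_6_4

/-- part of the certificates -/
def L54 : List Prf := [(.br (nat_lit 15) (nat_lit 1) (.cons (.br (nat_lit 16) (nat_lit 1) (.cons (.ev (nat_lit 88153139561425435357615732427969233358858) (nat_lit 5)) .nil)) .nil)),
 (.br (nat_lit 10) (nat_lit 1) (.cons (.ev (nat_lit 10405431342795222791311649019265287) (nat_lit 3)) (.cons (.br (nat_lit 14) (nat_lit 1) (.cons (.ev (nat_lit 5192297169233504154775835427995648) (nat_lit 1)) (.cons (.rf (nat_lit 40) (nat_lit 17943817825378)) .nil))) (.cons (.br (nat_lit 14) (nat_lit 1) (.cons (.rf (nat_lit 68) (nat_lit 18122956581986)) (.cons (.ev (nat_lit 5192297169233504154775835427995648) (nat_lit 1)) (.cons (.br (nat_lit 15) (nat_lit 1) (.cons (.rf (nat_lit 1221) (nat_lit 677582165103132179601393696)) (.cons (.br (nat_lit 15) (nat_lit 1) (.cons (.rf (nat_lit 1221) (nat_lit 677582165103132179601393696))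 .nil)) .nil))) .nil)))) .nil)))),
 (.br (nat_lit 14) (nat_lit 1) (.cons (.br (nat_lit 15) (nat_lit 1) (.cons (.ev (nat_lit 344285648081282050753505256724624376576) (nat_lit 2)) .nil)) .nil)),
 (.br (nat_lit 14) (nat_lit 1) (.cons (.br (nat_lit 15) (nat_lit 1) (.cons (.ev (nat_lit 683223210195703509080573964803826123009) (nat_lit 2)) (.cons (.zr (nat_lit 10404955357258395197535782434897921) (nat_lit 2658455992807771840577341804664324864) (nat_lit 8) (nat_lit 4)) .nil))) (.cons (.br (nat_lit 15) (nat_lit 1) (.cons (.rf (nat_lit 746) (nat_lit 660557597784941249301569)) (.cons (.zr (nat_lit 20789469843743017524779257503547395) (nat_lit 2658456070800416834078226792086242048) (nat_lit 8) (nat_lit 13)) .nil))) .nil))),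
 (.br (nat_lit 14) (nat_lit 1) (.cons (.rf (nat_lit 1224) (nat_lit 677582165103132179601393696)) (.cons (.br (nat_lit 16) (nat_lit 1) (.cons (.br (nat_lit 15) (nat_lit 1) (.cons (.ev (nat_lit 90872708278393807952982152765002589211136) (nat_lit 4)) .nil)) (.cons (.zr (nat_lit 348449143747324015164907724354457239027715) (nat_lit 680564734079563832321325572094922064128) (nat_lit 8) (nat_lit 13)) .nil))) .nil))),
 (.br (nat_lit 3) (nat_lit 1) (.cons (.rf (nat_lit 1220) (nat_lit 6020504941259725069)) (.cons (.rf (nat_lit 711) (nat_lit 299713824918903909)) (.cons (.zr (nat_lit 40802503699568500343549074604800) (nat_lit 620178963909049939862355968) (nat_lit 8) (nat_lit 0)) (.cons (.br (nat_lit 6) (nat_lit 1) (.cons (.rf (nat_lit 47) (nat_lit 473148610)) (.cons (.rf (nat_lit 47) (nat_lit 473246914)) (.cons (.br (nat_lit 7) (nat_lit 1) (.cons (.ev (nat_lit 79538856449905579870243520513) (nat_lit 1)) (.cons (.ev (nat_lit 20520094095935421342913073775361) (nat_lit 2)) (.cons (.br (nat_lit 10) (nat_lit 1) (.cons (.ev (nat_lit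 10404956597616304569458927826241287) (nat_lit 3)) (.cons (.br (nat_lit 14) (nat_lit 1) (.cons (.ev (nat_lit 5192376087906267712764194024653056) (nat_lit 1)) (.cons (.rf (nat_lit 40) (nat_lit 17942744116322)) .nil))) (.cons (.rf (nat_lit 786) (nat_lit 19423415167583625026921)) .nil)))) .nil)))) (.cons (.br (nat_lit 7) (nat_lit 1) (.cons (.rf (nat_lit 47) (nat_lit 473246946)) (.cons (.rf (nat_lit 1222) (nat_lit 583706118939841765935136)) (.cons (.ev (nat_lit 20520094095935421342913073775361) (nat_lit 2)) (.cons (.br (nat_lit 10) (nat_lit 1) (.cons (.br (nat_lit 14) (nat_lit 1) (.cons (.rf (nat_lit 68) (nat_lit 18122856016994)) (.cons (.rf (nat_lit 68) (nat_lit 17057671621730)) (.cons (.br (nat_lit 15) (nat_lit 1) (.cons (.rf (nat_lit 1223) (nat_lit 21174442659472880612543553)) (.cons (.br (nat_lit 15) (nat_lit 1) (.cons (.rf (nat_lit 1223) (nat_lit 21174442659472880612543553)) .nil)) .nil))) .nil)))) (.cons (.rf (nat_lit 1222) (nat_lit 622652627967239569878400)) (.cons (.rf (nat_lit 786) (nat_lit 18315756114669500238913))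 (.cons (.br (nat_lit 14) (nat_lit 1) (.cons (.rf (nat_lit 1224) (nat_lit 677582165103132179601393696)) (.cons (.rf (nat_lit 1225) (nat_lit 677582165103132179601393696)) (.cons (.br (nat_lit 14) (nat_lit 1) (.cons (.rf (nat_lit 1224) (nat_lit 677582165103132179601393696)) (.cons (.rf (nat_lit 1225) (nat_lit 677582165103132179601393696)) .nil))) .nil)))) .nil))))) .nil))))) .nil))))) .nil))))),
 (.br (nat_lit 15) (nat_lit 1) (.cons (.ev (nat_lit 2668861105381006781218983774173266689) (nat_lit 2)) (.cons (.ev (nat_lit 2668860868008412673528546427905704449) (nat_lit 2)) .nil))),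
 (.br (nat_lit 15) (nat_lit 1) (.cons (.br (nat_lit 16) (nat_lit 1) (.cons (.ev (nat_lit 88137136334124578624827936127284664139776) (nat_lit 2)) .nil)) .nil)),
 (.br (nat_lit 10) (nat_lit 1) (.cons (.rf (nat_lit 119) (nat_lit 18119638857826)) (.cons (.rf (nat_lit 119) (nat_lit 17053544298594)) (.cons (.br (nat_lit 15) (nat_lit 1) (.cons (.rf (nat_lit 1228) (nat_lit 677582165103132179601393696)) (.cons (.br (nat_lit 15) (nat_lit 1) (.cons (.rf (nat_lit 1228) (nat_lit 677582165103132179601393696)) .nil)) .nil))) .nil)))),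
 (.br (nat_lit 10) (nat_lit 1) (.cons (.rf (nat_lit 119) (nat_lit 18119631648962)) (.cons (.rf (nat_lit 119) (nat_lit 18079902186819)) (.cons (.br (nat_lit 14) (nat_lit 1) (.cons (.ev (nat_lit 5192376087910990151304657724506368) (nat_lit 1)) (.cons (.ev (nat_lit 5192297169233504082718237111943168) (nat_lit 1)) (.cons (.br (nat_lit 15) (nat_lit 1) (.cons (.ev (nat_lit 683223210354778823018500617874413191937) (nat_lit 3)) (.cons (.rf (nat_lit 1106) (nat_lit 661701295917511241501761)) .nil))) .nil)))) (.cons (.br (nat_lit 14) (nat_lit 1) (.cons (.rf (nat_lit 130) (nat_lit 17943672371394)) (.cons (.br (nat_lit 15) (nat_lit 1) (.cons (.ev (nat_lit 683233594947876894282877925234925764867) (nat_lit 2)) (.cons (.br (nat_lit 16) (nat_lit 1) (.cons (.ev (nat_lit 683233594788801599271455367720754742019) (nat_lit 2)) .nil)) .nil))) (.cons (.ev (nat_lit 5192297169233504082718237111943168) (nat_lit 1)) .nil)))) .nil))))),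
 (.br (nat_lit 10) (nat_lit 1) (.cons (.rf (nat_lit 119) (nat_lit 17050319009986)) (.cons (.br (nat_lit 14) (nat_lit 1) (.cons (.ev (nat_lit 5192376087910990151304657724506368) (nat_lit 1)) (.cons (.ev (nat_lit 5192297169233504082718237111943168) (nat_lit 1)) (.cons (.br (nat_lit 15) (nat_lit 1) (.cons (.ev (nat_lit 683223210354778823018500617874413191937) (nat_lit 3)) (.cons (.rf (nat_lit 1107) (nat_lit 661701295917511241501761)) .nil))) .nil)))) (.cons (.rf (nat_lit 119) (nat_lit 16980524744931)) (.cons (.br (nat_lit 14) (nat_lit 1) (.cons (.br (nat_lit 15) (nat_lit 1) (.cons (.ev (nat_lit 683233594947876894282877925234925764867) (nat_lit 2)) (.cons (.br (nat_lit 16) (nat_lit 1) (.cons (.ev (nat_lit 683233594788801599271455367720754742019) (nat_lit 2)) .nil)) .nil))) (.cons (.rf (nat_lit 130) (nat_lit 19080630778050)) (.cons (.ev (nat_lit 5192376087910990151304657724506368) (nat_lit 1)) .nil)))) .nil))))),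
 (.br (nat_lit 7) (nat_lit 1) (.cons (.rf (nat_lit 1201) (nat_lit 9450957830238608557)) (.cons (.rf (nat_lit 1220) (nat_lit 9450957830238608557)) (.cons (.ev (nat_lit 20520094095935421342913073775361) (nat_lit 2)) (.cons (.br (nat_lit 3) (nat_lit 1) (.cons (.ev (nat_lit 20282413230466023318932198392321) (nat_lit 2)) (.cons (.ev (nat_lit 10384673254726679632399179595317506) (nat_lit 2)) (.cons (.ev (nat_lit 2658456071107479325449986559617204482) (nat_lit 2)) (.cons (.br (nat_lit 10) (nat_lit 1) (.cons (.ev (nat_lit 10384673876105106037800589357809922) (nat_lit 2)) (.cons (.ev (nat_lit 2658456071728876641321319465140420866) (nat_lit 2)) (.cons (.br (nat_lit 14) (nat_lit 1) (.cons (.ev (nat_lit 5192297169233504082718237111943168) (nat_lit 1)) (.cons (.ev (nat_lit 2041704606402069390005706896681677816325) (nat_lit 3)) (.cons (.br (nat_lit 15) (nat_lit 1) (.cons (.ev (nat_lit 2044352677799922142651524484078879572485) (nat_lit 3)) (.cons (.ev (nat_lit 2668860868008412673528546427905704449) (nat_lit 2)) .nil))) .nil))))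 (.cons (.br (nat_lit 14) (nat_lit 1) (.cons (.ev (nat_lit 10384673873687254542121378697511680) (nat_lit 2)) (.cons (.rf (nat_lit 1227) (nat_lit 677582165103132179601393696)) (.cons (.rf (nat_lit 1227) (nat_lit 640104976857278175863183629)) .nil)))) .nil))))) .nil))))) (.cons (.br (nat_lit 3) (nat_lit 1) (.cons (.ev (nat_lit 20282413230466023318932198392321) (nat_lit 2)) (.cons (.rf (nat_lit 1229) (nat_lit 19926519232773908561233952)) (.cons (.rf (nat_lit 1230) (nat_lit 19926519232773908561233952)) (.cons (.rf (nat_lit 1231) (nat_lit 19926519232773908561233952)) (.cons (.br (nat_lit 10) (nat_lit 1) (.cons (.rf (nat_lit 1229) (nat_lit 18754884507221737225918733)) (.cons (.rf (nat_lit 1231) (nat_lit 18754884507221737225918733)) (.cons (.rf (nat_lit 1230) (nat_lit 18754884507221737225918733)) (.cons (.br (nat_lit 14) (nat_lit 1) (.cons (.ev (nat_lit 5192297169233504082718237111943168) (nat_lit 1)) (.cons (.ev (nat_lit 5192376087910990151304657724506368) (nat_lit 1)) (.cons (.ev (nat_lit 522673725995675295899963568621314054816513)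 (nat_lit 3)) .nil)))) .nil))))) .nil)))))) .nil)))))),
 (.br (nat_lit 10) (nat_lit 1) (.cons (.rf (nat_lit 119) (nat_lit 18119634794594)) (.cons (.ev (nat_lit 1329227995784920613717316582435258368) (nat_lit 1)) (.cons (.br (nat_lit 14) (nat_lit 1) (.cons (.zr (nat_lit 3094850264667618814802529024) (nat_lit 2720905768431239948586063757932756993) (nat_lit 24) (nat_lit 1)) (.cons (.ev (nat_lit 340287579579744249466759527116400754688) (nat_lit 1)) (.cons (.br (nat_lit 16) (nat_lit 1) (.cons (.zr (nat_lit 1363788025087374135876396842572195037187) (nat_lit 396140812590346581643593122560) (nat_lit 8) (nat_lit 13)) (.cons (.ev (nat_lit 340287559297025165527706017084836216833) (nat_lit 1)) .nil))) .nil)))) (.cons (.br (nat_lit 14) (nat_lit 1) (.cons (.rf (nat_lit 130) (nat_lit 17943675517026)) (.cons (.br (nat_lit 15) (nat_lit 1) (.cons (.ev (nat_lit 683233594947876894282877925234925764867) (nat_lit 2)) (.cons (.br (nat_lit 16) (nat_lit 1) (.cons (.ev (nat_lit 341627171808229856737160761895825899779) (nat_lit 2)) .nil)) .nil)))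 (.cons (.br (nat_lit 17) (nat_lit 1) (.cons (.ev (nat_lit 87112296316750420068026366051283915441669) (nat_lit 3)) (.cons (.ev (nat_lit 174224571883882752452062867080343118283523) (nat_lit 2)) .nil))) .nil)))) .nil))))),
 (.br (nat_lit 14) (nat_lit 1) (.cons (.br (nat_lit 16) (nat_lit 1) (.cons (.ev (nat_lit 88137136334124578624827936127284664139776) (nat_lit 2)) .nil)) .nil)),
 (.br (nat_lit 14) (nat_lit 1) (.cons (.rf (nat_lit 130) (nat_lit 18935812962626)) (.cons (.br (nat_lit 15) (nat_lit 1) (.cons (.ev (nat_lit 683233594789422996587614930985250063107) (nat_lit 2)) (.cons (.zr (nat_lit 62408975588409341085483777638006795) (nat_lit 2658456704630547929969594315913430784) (nat_lit 24) (nat_lit 13)) .nil))) (.cons (.br (nat_lit 17) (nat_lit 1) (.cons (.ev (nat_lit 87114954772346462017258421713666515731201) (nat_lit 2)) (.cons (.ev (nat_lit 174224571884041206368647596006054194970883) (nat_lit 2)) .nil))) .nil)))),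
 (.br (nat_lit 14) (nat_lit 1) (.cons (.br (nat_lit 16) (nat_lit 1) (.cons (.ev (nat_lit 88137136333966124708243207201573587452416) (nat_lit 2)) .nil)) .nil)),
 (.br (nat_lit 14) (nat_lit 1) (.cons (.zr (nat_lit 20789469843757184624227866472611843) (nat_lit 2658456070800412111999974298559316736) (nat_lit 8) (nat_lit 13)) (.cons (.rf (nat_lit 134) (nat_lit 8058535624038)) .nil))),
 (.br (nat_lit 7) (nat_lit 1) (.cons (.rf (nat_lit 1201) (nat_lit 9450957830238608557)) (.cons (.rf (nat_lit 1220) (nat_lit 9450957830238608557)) (.cons (.br (nat_lit 14) (nat_lit 1) (.cons (.ev (nat_lit 10384673873687254398006182065406720) (nat_lit 2)) (.cons (.ev (nat_lit 10384673257144531272189188841210624) (nat_lit 2)) (.cons (.ev (nat_lit 10384673254726679488283982895841538) (nat_lit 2)) (.cons (.br (nat_lit 15) (nat_lit 1) (.cons (.ev (nat_lit 2658456071726458789681525057848017664) (nat_lit 2)) (.cons (.ev (nat_lit 2658456071109897177089776568863097600) (nat_lit 2)) (.cons (.ev (nat_lit 2668861105381006781218983774173266689) (nat_lit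 2)) (.cons (.br (nat_lit 3) (nat_lit 1) (.cons (.rf (nat_lit 40) (nat_lit 17978177562691)) (.cons (.br (nat_lit 10) (nat_lit 1) (.cons (.ev (nat_lit 340287559218106488041637991415153688833) (nat_lit 1)) (.cons (.ev (nat_lit 7985793213404836017895006534656918274) (nat_lit 3)) .nil))) (.cons (.br (nat_lit 10) (nat_lit 1) (.cons (.kr (nat_lit 2658455991572249597518902072459723008) (nat_lit 10384673254717197789769203646988288) (nat_lit 1) (nat_lit 0)) (.cons (.ev (nat_lit 87113615159835259725011139705884331016193) (nat_lit 1)) .nil))) .nil)))) .nil))))) .nil))))) (.cons (.ev (nat_lit 20520094095935421342913073775361) (nat_lit 2)) (.cons (.br (nat_lit 3) (nat_lit 1) (.cons (.rf (nat_lit 786) (nat_lit 19459453155457764591713)) (.cons (.rf (nat_lit 1233) (nat_lit 19926519232773908561233952)) (.cons (.br (nat_lit 10) (nat_lit 1) (.cons (.ev (nat_lit 1329228075014287312988040757975777536) (nat_lit 1)) (.cons (.ev (nat_lit 1329227996095609827063569525438939136) (nat_lit 1)) (.cons (.br (nat_lit 14) (nat_lit 1) (.cons (.rf (nat_lit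 1234) (nat_lit 677582165103132179601393696)) (.cons (.br (nat_lit 14) (nat_lit 1) (.cons (.rf (nat_lit 1234) (nat_lit 677582165103132179601393696)) .nil)) .nil))) .nil)))) (.cons (.rf (nat_lit 1233) (nat_lit 17510544369438474690993325)) (.cons (.br (nat_lit 10) (nat_lit 1) (.cons (.rf (nat_lit 1235) (nat_lit 677582165103132179601393696)) (.cons (.br (nat_lit 14) (nat_lit 1) (.cons (.rf (nat_lit 1236) (nat_lit 677582165103132179601393696)) (.cons (.br (nat_lit 14) (nat_lit 1) (.cons (.rf (nat_lit 1236) (nat_lit 677582165103132179601393696)) .nil)) .nil))) (.cons (.rf (nat_lit 1235) (nat_lit 675166190239796745731153069)) (.cons (.br (nat_lit 15) (nat_lit 1) (.cons (.rf (nat_lit 1237) (nat_lit 677582165103132179601393696)) (.cons (.rf (nat_lit 1237) (nat_lit 675166190239796745731153069)) (.cons (.ev (nat_lit 87113615180117978818394926181646596046848) (nat_lit 1)) .nil)))) .nil))))) .nil)))))) .nil)))))),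
 (.br (nat_lit 14) (nat_lit 1) (.cons (.br (nat_lit 15) (nat_lit 1) (.cons (.ev (nat_lit 340287559217798207235269496630981689601) (nat_lit 1)) (.cons (.zr (nat_lit 1237940094770290634074096384) (nat_lit 2668881229337902718495188479421448192) (nat_lit 8) (nat_lit 1)) .nil))) (.cons (.br (nat_lit 15) (nat_lit 1) (.cons (.zr (nat_lit 1237940094770290634074096384) (nat_lit 2668881229337902718495188479421448192) (nat_lit 8) (nat_lit 1)) (.cons (.ev (nat_lit 87113615159835259725011067648286014832641) (nat_lit 1)) .nil))) .nil))),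
 (.br (nat_lit 14) (nat_lit 1) (.cons (.rf (nat_lit 1239) (nat_lit 677582165103132179601393696)) (.cons (.br (nat_lit 15) (nat_lit 1) (.cons (.rf (nat_lit 744) (nat_lit 587360916208680020641889)) (.cons (.zr (nat_lit 618970075271715684683612929) (nat_lit 174224582309040669758946337388742261604352) (nat_lit 8) (nat_lit 1)) .nil))) .nil))),
 (.br (nat_lit 10) (nat_lit 1) (.cons (.rf (nat_lit 846) (nat_lit 19533240131752602798177)) (.cons (.br (nat_lit 14) (nat_lit 1) (.cons (.rf (nat_lit 130) (nat_lit 17839526754402)) (.cons (.br (nat_lit 15) (nat_lit 1) (.cons (.ev (nat_lit 340287559217798207235269496630981689601) (nat_lit 1)) (.cons (.br (nat_lit 16) (nat_lit 1) (.cons (.ev (nat_lit 683223210512621013767559114745836471557) (nat_lit 3)) .nil)) .nil))) (.cons (.br (nat_lit 17) (nat_lit 1) (.cons (.ev (nat_lit 87113615180038441170889286960487860273408) (nat_lit 1)) (.cons (.zr (nat_lit 618970075271715684683612929) (nat_lit 174224582309040669758946337388742261604352) (nat_lit 8) (nat_lit 1)) .nil))) .nil)))) (.cons (.br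 (nat_lit 14) (nat_lit 1) (.cons (.br (nat_lit 16) (nat_lit 1) (.cons (.ev (nat_lit 2668861105381006781074868577541161729) (nat_lit 2)) (.cons (.zr (nat_lit 680575179282827676296861386323705987075) (nat_lit 396759782609556931714373517568) (nat_lit 8) (nat_lit 9)) .nil))) (.cons (.rf (nat_lit 130) (nat_lit 19077513361506)) (.cons (.br (nat_lit 15) (nat_lit 1) (.cons (.zr (nat_lit 680575179282827676296861386323705987075) (nat_lit 396759782609556931714373517568) (nat_lit 8) (nat_lit 9)) (.cons (.zr (nat_lit 618970075271715684683612929) (nat_lit 174224582309040669758946337388742261604352) (nat_lit 8) (nat_lit 1)) .nil))) .nil)))) (.cons (.br (nat_lit 14) (nat_lit 1) (.cons (.br (nat_lit 15) (nat_lit 1) (.cons (.ev (nat_lit 2668861105381006781074868577541161729) (nat_lit 2)) (.cons (.ev (nat_lit 87113615180038441170889286960487860273408) (nat_lit 1)) .nil))) (.cons (.br (nat_lit 16) (nat_lit 1) (.cons (.br (nat_lit 15) (nat_lit 1) (.cons (.ev (nat_lit 2668860947543651809225926112467484929) (nat_lit 2)) .nil)) (.cons (.ev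 (nat_lit 340287559217798207235269496630981689601) (nat_lit 1)) .nil))) (.cons (.rf (nat_lit 130) (nat_lit 17976929073250)) .nil)))) .nil)))))]

theorem c54 : chkAll C T R L54 (nat_lit 1221) = true := by decide +kernel

theorem l54 : (nat_lit 1221) + L54.length = (nat_lit 1242) := by decide +kernel

/-- part of the certificates -/
def L55 : List Prf := [(.br (nat_lit 10) (nat_lit 1) (.cons (.br (nat_lit 14) (nat_lit 1) (.cons (.rf (nat_lit 130) (nat_lit 17839519414594)) (.cons (.br (nat_lit 15) (nat_lit 1) (.cons (.ev (nat_lit 340287559297025165527633959495109967873) (nat_lit 1)) (.cons (.br (nat_lit 16) (nat_lit 1) (.cons (.ev (nat_lit 688560891842891490081012913634214675205) (nat_lit 3)) .nil)) .nil))) (.cons (.br (nat_lit 15) (nat_lit 1) (.cons (.rf (nat_lit 874) (nat_lit 661701295917511241501761)) (.cons (.ev (nat_lit 87113615180117670537588557686862424047616) (nat_lit 1)) .nil))) .nil)))) (.cons (.rf (nat_lit 846) (nat_lit 20677686667632008506700)) (.cons (.rf (nat_lit 1241) (nat_lit 597870492217733503894493453))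 (.cons (.br (nat_lit 15) (nat_lit 1) (.cons (.br (nat_lit 17) (nat_lit 1) (.cons (.ev (nat_lit 2668860947543651809225926112467484929) (nat_lit 2)) (.cons (.zr (nat_lit 174227230380359296795263728763922695585795) (nat_lit 81085072665859037988133143808) (nat_lit 8) (nat_lit 4)) .nil))) (.cons (.br (nat_lit 14) (nat_lit 1) (.cons (.zr (nat_lit 683223250680682856239051168718547582979) (nat_lit 81704042685502291075536127232) (nat_lit 8) (nat_lit 4)) (.cons (.zr (nat_lit 174227230380359296795263728763922695585795) (nat_lit 81085072665859037988133143808) (nat_lit 8) (nat_lit 4)) .nil))) (.cons (.rf (nat_lit 130) (nat_lit 15601812159843)) .nil)))) .nil))))),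
 (.br (nat_lit 5) (nat_lit 0) (.cons (.rf (nat_lit 363) (nat_lit 284983431200)) (.cons (.br (nat_lit 8) (nat_lit 0) (.cons (.br (nat_lit 2) (nat_lit 1) (.cons (.rf (nat_lit 1201) (nat_lit 493858305440582043680)) (.cons (.rf (nat_lit 1207) (nat_lit 493858305440582043680)) (.cons (.rf (nat_lit 1215) (nat_lit 493858305440582043680)) (.cons (.rf (nat_lit 1220) (nat_lit 493858305440582043680)) (.cons (.rf (nat_lit 1226) (nat_lit 493858305440582043680)) (.cons (.br (nat_lit 11) (nat_lit 1) (.cons (.rf (nat_lit 1220) (nat_lit 480843849163812973952)) (.cons (.rf (nat_lit 1215) (nat_lit 480843849163812973952)) (.cons (.rf (nat_lit 1207) (nat_lit 480843849163812973952)) (.cons (.rf (nat_lit 1201) (nat_lit 480843849163812973952)) (.cons (.ev (nat_lit 20362256740963284170071848648961) (nat_lit 2)) (.cons (.br (nat_lit 6) (nat_lit 1) (.cons (.rf (nat_lit 1220) (nat_lit 6020504941259725069)) (.cons (.rf (nat_lit 1226) (nat_lit 9450957830238608557)) (.cons (.rf (nat_lit 1201) (nat_lit 6020504941259725069)) (.cons (.rf (nat_lit 1232)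 (nat_lit 583706118939841765935136)) (.cons (.rf (nat_lit 1238) (nat_lit 583706118939841765935136)) (.cons (.br (nat_lit 7) (nat_lit 1) (.cons (.rf (nat_lit 1201) (nat_lit 9450957830238608557)) (.cons (.rf (nat_lit 1220) (nat_lit 9450957830238608557)) (.cons (.rf (nat_lit 1238) (nat_lit 547094764241325246459264)) (.cons (.rf (nat_lit 1232) (nat_lit 547094764241325246459264)) (.cons (.ev (nat_lit 20520094095935421342913073775361) (nat_lit 2)) (.cons (.br (nat_lit 3) (nat_lit 1) (.cons (.br (nat_lit 14) (nat_lit 1) (.cons (.rf (nat_lit 1239) (nat_lit 677582165103132179601393696)) (.cons (.rf (nat_lit 1240) (nat_lit 677582165103132179601393696)) (.cons (.br (nat_lit 14) (nat_lit 1) (.cons (.rf (nat_lit 1239) (nat_lit 677582165103132179601393696)) (.cons (.rf (nat_lit 1240) (nat_lit 677582165103132179601393696)) .nil))) .nil)))) (.cons (.rf (nat_lit 1241) (nat_lit 677582165103132179601393696)) (.cons (.rf (nat_lit 1242) (nat_lit 677582165103132179601393696)) (.cons (.rf (nat_lit 1242) (nat_lit 560357196899890648707079341))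 (.cons (.rf (nat_lit 1241) (nat_lit 560357196899890648707079341)) .nil)))))) .nil))))))) .nil))))))) .nil))))))) .nil))))))) .nil)) .nil))),
 (.br (nat_lit 0) (nat_lit 0) (.cons (.rf (nat_lit 1057) (nat_lit 14242959524133701664)) (.cons (.rf (nat_lit 1057) (nat_lit 14208022508842585120)) (.cons (.rf (nat_lit 1057) (nat_lit 5880620374093408512)) (.cons (.rf (nat_lit 1057) (nat_lit 4690543106368711968)) (.cons (.br (nat_lit 4) (nat_lit 0) (.cons (.br (nat_lit 8) (nat_lit 0) (.cons (.rf (nat_lit 363) (nat_lit 315051348000)) (.cons (.br (nat_lit 9) (nat_lit 0) (.cons (.rf (nat_lit 1196) (nat_lit 5880620374093408525)) .nil)) .nil))) (.cons (.rf (nat_lit 1197) (nat_lit 493858305440582043680)) (.cons (.rf (nat_lit 1243) (nat_lit 493858305440582043680)) (.cons (.br (nat_lit 5) (nat_lit 0) (.cons (.rf (nat_lit 1243) (nat_lit 493823368425290927136)) (.cons (.rf (nat_lit 1197) (nat_lit 493823368425290927136)) (.cons (.rf (nat_lit 1196) (nat_lit 10780919665129621645)) .nil)))) .nil))))) .nil)))))),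
 (.br (nat_lit 1) (nat_lit 1) (.cons (.br (nat_lit 1) (nat_lit 1) (.cons (.br (nat_lit 2) (nat_lit 0) (.cons (.br (nat_lit 3) (nat_lit 0) (.cons (.rf (nat_lit 498) (nat_lit 4294688)) (.cons (.br (nat_lit 4) (nat_lit 1) (.cons (.br (nat_lit 5) (nat_lit 1) (.cons (.br (nat_lit 0) (nat_lit 0) (.cons (.rf (nat_lit 638) (nat_lit 6614517792)) (.cons (.rf (nat_lit 638) (nat_lit 6581980192)) (.cons (.rf (nat_lit 679) (nat_lit 247132686368)) (.cons (.br (nat_lit 0) (nat_lit 0) (.cons (.rf (nat_lit 638) (nat_lit 6614517792)) (.cons (.rf (nat_lit 638) (nat_lit 6581980192)) (.cons (.rf (nat_lit 679) (nat_lit 281492424736)) .nil)))) .nil))))) (.cons (.br (nat_lit 6) (nat_lit 0) (.cons (.br (nat_lit 7) (nat_lit 0) (.cons (.br (nat_lit 0) (nat_lit 0) (.cons (.rf (nat_lit 695) (nat_lit 9043225708576)) (.cons (.rf (nat_lit 695) (nat_lit 9009907174432)) (.cons (.rf (nat_lit 704) (nat_lit 9043225708576)) (.cons (.rf (nat_lit 682) (nat_lit 325702574508064)) (.cons (.br (nat_lit 0) (nat_lit 0) (.cons (.rf (nat_lit 695) (nat_lit 9043225708576))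 (.cons (.rf (nat_lit 695) (nat_lit 9009907174432)) (.cons (.rf (nat_lit 704) (nat_lit 9043225708576)) (.cons (.rf (nat_lit 682) (nat_lit 360886946596896)) .nil))))) .nil)))))) (.cons (.br (nat_lit 8) (nat_lit 1) (.cons (.br (nat_lit 9) (nat_lit 1) (.cons (.br (nat_lit 0) (nat_lit 0) (.cons (.rf (nat_lit 708) (nat_lit 11584701642934304)) (.cons (.rf (nat_lit 708) (nat_lit 11550583463939104)) (.cons (.rf (nat_lit 710) (nat_lit 11584701642934304)) (.cons (.rf (nat_lit 710) (nat_lit 11550583463939104)) (.cons (.rf (nat_lit 705) (nat_lit 12746920901610561)) (.cons (.br (nat_lit 0) (nat_lit 0) (.cons (.rf (nat_lit 708) (nat_lit 11584701642934304)) (.cons (.rf (nat_lit 708) (nat_lit 11550583463939104)) (.cons (.rf (nat_lit 710) (nat_lit 11584701642934304)) (.cons (.rf (nat_lit 710) (nat_lit 11550583463939104)) (.cons (.rf (nat_lit 705) (nat_lit 13872820808453185)) .nil)))))) .nil))))))) (.cons (.br (nat_lit 10) (nat_lit 0) (.cons (.br (nat_lit 11) (nat_lit 0) (.cons (.br (nat_lit 0) (nat_lit 0) (.cons (.rf (nat_lit 1057)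 (nat_lit 14242959524133701664)) (.cons (.rf (nat_lit 1057) (nat_lit 14208022508842585120)) (.cons (.rf (nat_lit 1196) (nat_lit 14242959524133701664)) (.cons (.rf (nat_lit 1196) (nat_lit 14208022508842585120)) (.cons (.rf (nat_lit 1244) (nat_lit 14242959524133701664)) (.cons (.br (nat_lit 0) (nat_lit 0) (.cons (.rf (nat_lit 1057) (nat_lit 14242959524133701664)) (.cons (.rf (nat_lit 1057) (nat_lit 14208022508842585120)) (.cons (.rf (nat_lit 1196) (nat_lit 14242959524133701664)) (.cons (.rf (nat_lit 1196) (nat_lit 14208022508842585120)) (.cons (.rf (nat_lit 1244) (nat_lit 14242959524133701664)) .nil)))))) .nil))))))) .nil)) .nil)) .nil))) .nil)) .nil))) .nil)) .nil))) .nil)) .nil))) .nil)) .nil)) .nil)),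
 (.br (nat_lit 0) (nat_lit 0) (.cons (.rf (nat_lit 1245) (nat_lit 32)) (.cons (.br (nat_lit 0) (nat_lit 0) (.cons (.rf (nat_lit 1245) (nat_lit 64)) .nil)) .nil)))]

theorem c55 : chkAll C T R L55 (nat_lit 1242) = true := by decide +kernel

theorem l55 : (nat_lit 1242) + L55.length = (nat_lit 1247) := by decide +kernel

end Pool.Agent.H93.Neg.N18_6_4
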