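import Pool.Agent.H93.Neg.TabN18_8_0

/-!
Certificates.
-/

set_option autoImplicit false
set_option maxRecDepth 100000
set_option linter.all false

namespace Pool.Agent.H93.Neg.N18_8_0

/-- part of the certificates -/
def L28 : List Prf := [(.br (nat_lit 11) (nat_lit 0) (.cons (.ev (nat_lit 80156631766168618778759266304) (nat_lit 2)) .nil)),
 (.br (nat_lit 9) (nat_lit 0) (.cons (.rf (nat_lit 2) (nat_lit 16696404343627360288)) (.cons (.ev (nat_lit 1329248357733380715364812840662794240) (nat_lit 1)) .nil))),
 (.br (nat_lit 11) (nat_lit 0) (.cons (.ev (nat_lit 340287579500206601961192364642607890688) (nat_lit 1)) (.cons (.rf (nat_lit 2) (nat_lit 19073217567526206625)) .nil))),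
 (.br (nat_lit 12) (nat_lit 0) (.cons (.ev (nat_lit 20441795602098735082633804579586) (nat_lit 2)) (.cons (.ev (nat_lit 680564754283672519617644256946926321920) (nat_lit 2)) (.cons (.br (nat_lit 15) (nat_lit 0) (.cons (.ev (nat_lit 683228382130618419454782015356478227203) (nat_lit 2)) (.cons (.rf (nat_lit 425) (nat_lit 19530974793583432075425)) .nil))) .nil)))),
 (.br (nat_lit 12) (nat_lit 0) (.cons (.ev (nat_lit 20441795602098735364104486322691) (nat_lit 2)) (.cons (.ev (nat_lit 680564754283672519617645101376151421443) (nat_lit 2)) (.cons (.br (nat_lit 15) (nat_lit 0) (.cons (.ev (nat_lit 683228382130618419454781170927253127680) (nat_lit 2)) (.cons (.rf (nat_lit 394) (nat_lit 20678053883975133698085)) .nil))) .nil)))),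
 (.br (nat_lit 14) (nat_lit 0) (.cons (.ev (nat_lit 1329248278504004552914660318492295168) (nat_lit 1)) .nil)),
 (.br (nat_lit 12) (nat_lit 0) (.cons (.ev (nat_lit 20441795602098735082633854911235) (nat_lit 2)) (.cons (.ev (nat_lit 680564754283672519617644256946943099139) (nat_lit 2)) (.cons (.br (nat_lit 15) (nat_lit 0) (.cons (.ev (nat_lit 683228382130618419454782015356461449984) (nat_lit 2)) (.cons (.rf (nat_lit 394) (nat_lit 19528595826417491584047)) .nil))) .nil)))),
 (.br (nat_lit 12) (nat_lit 0) (.cons (.ev (nat_lit 20441795602098735364104536654336) (nat_lit 2)) (.cons (.ev (nat_lit 680564754283672519617645101376168198658) (nat_lit 2)) (.cons (.br (nat_lit 15) (nat_lit 0) (.cons (.ev (nat_lit 683228382130618419454781170927236350465) (nat_lit 2)) (.cons (.rf (nat_lit 197) (nat_lit 661502769404426285621409)) .nil))) .nil)))),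
 (.br (nat_lit 16) (nat_lit 0) (.cons (.ev (nat_lit 340282387203658765791499218020273750016) (nat_lit 1)) (.cons (.ev (nat_lit 340287559297334650555902330108209332225) (nat_lit 1)) .nil))),
 (.br (nat_lit 15) (nat_lit 0) (.cons (.ev (nat_lit 1334440575053059074641583442537480193) (nat_lit 1)) .nil)),
 (.br (nat_lit 10) (nat_lit 0) (.cons (.ev (nat_lit 1329248278505213460215473279919522048) (nat_lit 1)) (.cons (.rf (nat_lit 2) (nat_lit 19003409572136588353)) .nil))),
 (.br (nat_lit 16) (nat_lit 0) (.cons (.ev (nat_lit 2663668729294300031486920658377638401) (nat_lit 2)) (.cons (.ev (nat_lit 341616787213583123089798617215885377536) (nat_lit 1)) (.cons (.kr (nat_lit 174224571883802902896917916454561261813763) (nat_lit 680569926138735466476744228233822601728) (nat_lit 0) (nat_lit 2)) .nil)))),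
 (.br (nat_lit 12) (nat_lit 0) (.cons (.ev (nat_lit 10405114123068433764009174385033473) (nat_lit 2)) (.cons (.rf (nat_lit 1) (nat_lit 582064885177409)) .nil))),
 (.br (nat_lit 11) (nat_lit 0) (.cons (.ev (nat_lit 1329289001473688134120475187491176706) (nat_lit 2)) (.cons (.ev (nat_lit 5212579889531128287870418031739393) (nat_lit 2)) (.cons (.br (nat_lit 12) (nat_lit 0) (.cons (.ev (nat_lit 5253302546102885392347239492354051) (nat_lit 2)) (.cons (.rf (nat_lit 2) (nat_lit 19073217567529606209)) .nil))) .nil)))),
 (.br (nat_lit 11) (nat_lit 0) (.cons (.ev (nat_lit 10405114123068433764009174368256258) (nat_lit 2)) (.cons (.rf (nat_lit 1) (nat_lit 582032668731457)) .nil))),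
 (.br (nat_lit 7) (nat_lit 0) (.cons (.ev (nat_lit 1329289001473692838040213983443615746) (nat_lit 2)) (.cons (.ev (nat_lit 5253302546102885392347239492354051) (nat_lit 2)) (.cons (.br (nat_lit 11) (nat_lit 0) (.cons (.ev (nat_lit 5212579889531128287870418031739393) (nat_lit 2)) (.cons (.rf (nat_lit 246) (nat_lit 19522867356652647321665)) .nil))) .nil)))),
 (.br (nat_lit 11) (nat_lit 0) (.cons (.ev (nat_lit 1329289001473688134120475187524731136) (nat_lit 2)) (.cons (.ev (nat_lit 5212579889531128287870418031739393) (nat_lit 2)) (.cons (.br (nat_lit 12) (nat_lit 0) (.cons (.ev (nat_lit 5253302546102885392347239525908481) (nat_lit 2)) (.cons (.rf (nat_lit 2) (nat_lit 19073217567526460577)) .nil))) .nil)))),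
 (.br (nat_lit 7) (nat_lit 0) (.cons (.ev (nat_lit 1329289001473692838040213983477170176) (nat_lit 2)) (.cons (.ev (nat_lit 5253302546102885392347239525908481) (nat_lit 2)) (.cons (.br (nat_lit 11) (nat_lit 0) (.cons (.ev (nat_lit 5212579889531128287870418031739393) (nat_lit 2)) (.cons (.rf (nat_lit 295) (nat_lit 20666565489222639521826)) .nil))) .nil)))),
 (.br (nat_lit 15) (nat_lit 0) (.cons (.ev (nat_lit 1329228075014292035426581221658853633) (nat_lit 1)) .nil)),
 (.br (nat_lit 13) (nat_lit 0) (.cons (.ev (nat_lit 20282719088680010570683723546881) (nat_lit 1)) .nil)),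
 (.br (nat_lit 11) (nat_lit 0) (.cons (.ev (nat_lit 340282387203658761050686272556190662656) (nat_lit 1)) (.cons (.ev (nat_lit 341611594917032869068466525004923731968) (nat_lit 1)) .nil))),
 (.br (nat_lit 10) (nat_lit 0) (.cons (.ev (nat_lit 5192296859743771895171777996783616) (nat_lit 1)) .nil)),
 (.br (nat_lit 17) (nat_lit 0) (.cons (.ev (nat_lit 87112291124057415875387169274206162518016) (nat_lit 1)) (.cons (.ev (nat_lit 87112285952042966948952024113121167671296) (nat_lit 1)) (.cons (.ev (nat_lit 87113615180038442375074365687238383108096) (nat_lit 1)) (.cons (.ev (nat_lit 87112291124057415875387169274206162518273) (nat_lit 1)) .nil))))),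
 (.br (nat_lit 12) (nat_lit 0) (.cons (.kr (nat_lit 5212579268143220112181391230238721) (nat_lit 2658456150026156774336570782642077696) (nat_lit 0) (nat_lit 1)) (.cons (.kr (nat_lit 2658456150026156774336570782625300481) (nat_lit 5212579268143220112181391247015936) (nat_lit 0) (nat_lit 1)) (.cons (.kr (nat_lit 20282409608374036906816896499712) (nat_lit 1329228075013078387168144653824294912) (nat_lit 9) (nat_lit 0)) (.cons (.kr (nat_lit 2658456150026156774336570782642077697) (nat_lit 5212579268143220112181391230239232) (nat_lit 0) (nat_lit 2)) (.cons (.kr (nat_lit 2658456070797994260072233189081350144) (nat_lit 20282719093383930309479659208704) (nat_lit 6) (nat_lit 0)) .nil)))))),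
 (.br (nat_lit 11) (nat_lit 0) (.cons (.kr (nat_lit 2663648288428366591883170169871138817) (nat_lit 20283028578393823712142438694912) (nat_lit 0) (nat_lit 1)) (.cons (.kr (nat_lit 20283028578393823712142421917697) (nat_lit 2663648288428366591883170169887916032) (nat_lit 0) (nat_lit 1)) (.cons (.ev (nat_lit 2663709294734895169072082414160839171) (nat_lit 2)) (.cons (.kr (nat_lit 20283028578393823712142438694913) (nat_lit 2663648288428366591883170169871139328) (nat_lit 0) (nat_lit 2)) (.cons (.rf (nat_lit 551) (nat_lit 677582165103132179601393696)) .nil)))))),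
 (.br (nat_lit 10) (nat_lit 0) (.cons (.ev (nat_lit 5294184899367006827752658676220417) (nat_lit 3)) (.cons (.ev (nat_lit 5294184899367006827752658609111557) (nat_lit 3)) (.cons (.kr (nat_lit 5212579268143220112462861911982081) (nat_lit 2658456150026156774336289311960334336) (nat_lit 0) (nat_lit 1)) (.cons (.ev (nat_lit 5294184899367006827752658676221445) (nat_lit 3)) (.cons (.br (nat_lit 15) (nat_lit 0) (.cons (.kr (nat_lit 5192296858534846075274570038771713) (nat_lit 1329228075013078387168144653841072128) (nat_lit 0) (nat_lit 1)) (.cons (.kr (nat_lit 5192296858534846075274570038771712) (nat_lit 1329228075013078387168144653824294912) (nat_lit 8) (nat_lit 0)) (.cons (.kr (nat_lit 5192296858534846075274570038771968) (nat_lit 1329228075013078387168144653841072128) (nat_lit 1) (nat_lit 0)) (.cons (.ev (nat_lit 5322124721487946945236877375308825089) (nat_lit 3)) .nil))))) .nil)))))),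
 (.br (nat_lit 12) (nat_lit 0) (.cons (.ev (nat_lit 5192296859743771966947897058000896) (nat_lit 1)) .nil)),
 (.br (nat_lit 15) (nat_lit 0) (.cons (.ev (nat_lit 1334420292952940432720166598786220033) (nat_lit 1)) .nil)),
 (.br (nat_lit 15) (nat_lit 0) (.cons (.kr (nat_lit 5192296858534846075274570038771713) (nat_lit 1329228075013078387168144653841072128) (nat_lit 0) (nat_lit 1)) (.cons (.kr (nat_lit 5192296858534846075274570038771712) (nat_lit 1329228075013078387168144653824294912) (nat_lit 8) (nat_lit 0)) (.cons (.kr (nat_lit 5192296858534846075274570038771968) (nat_lit 1329228075013078387168144653841072128) (nat_lit 1) (nat_lit 0)) (.cons (.ev (nat_lit 2663790584070011695498136982336307207) (nat_lit 3)) .nil))))),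
 (.br (nat_lit 15) (nat_lit 0) (.cons (.ev (nat_lit 340287559297025165527706015989636268288) (nat_lit 1)) .nil)),
 (.br (nat_lit 10) (nat_lit 0) (.cons (.ev (nat_lit 2663750175850228732848561462234316807) (nat_lit 3)) (.cons (.ev (nat_lit 2663750175850228732848561462301426695) (nat_lit 3)) (.cons (.ev (nat_lit 2663668730537085218639607819380195331) (nat_lit 3)) .nil)))),
 (.br (nat_lit 15) (nat_lit 0) (.cons (.ev (nat_lit 340282367000167839625897381593146720513) (nat_lit 1)) .nil)),
 (.br (nat_lit 14) (nat_lit 0) (.cons (.ev (nat_lit 1334420292952940432720448069467963393) (nat_lit 1)) .nil)),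
 (.br (nat_lit 12) (nat_lit 0) (.cons (.ev (nat_lit 2663668730537085218639607819380196359) (nat_lit 3)) (.cons (.ev (nat_lit 340287579500206606665112103438560329985) (nat_lit 1)) (.cons (.ev (nat_lit 5253302546102885392347239492354051) (nat_lit 2)) .nil)))),
 (.br (nat_lit 15) (nat_lit 0) (.cons (.ev (nat_lit 1329248357422682057285595249290313985) (nat_lit 1)) .nil)),
 (.br (nat_lit 12) (nat_lit 0) (.cons (.ev (nat_lit 5253302546102885392347239525908481) (nat_lit 2)) (.cons (.ev (nat_lit 2663750175850228732848561462301425667) (nat_lit 3)) (.cons (.ev (nat_lit 5253302546102885392347239492354561) (nat_lit 2)) (.cons (.ev (nat_lit 87112291124057415880127982219670262382593) (nat_lit 1)) .nil))))),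
 (.br (nat_lit 15) (nat_lit 0) (.cons (.ev (nat_lit 340287579500206606665112102343343603713) (nat_lit 1)) .nil)),
 (.br (nat_lit 17) (nat_lit 0) (.cons (.ev (nat_lit 87112291124057415875387169274206162518016) (nat_lit 1)) (.cons (.ev (nat_lit 87112285952042966948952024113121167671296) (nat_lit 1)) (.cons (.ev (nat_lit 87113615180038442375074365687238383108096) (nat_lit 1)) (.cons (.ev (nat_lit 87112291124057415875387169274206162518273) (nat_lit 1)) .nil))))),
 (.br (nat_lit 11) (nat_lit 0) (.cons (.ev (nat_lit 341611594917032864364546504738289549568) (nat_lit 1)) (.cons (.rf (nat_lit 490) (nat_lit 21174442659471745632798752)) .nil))),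
 (.br (nat_lit 16) (nat_lit 0) (.cons (.ev (nat_lit 341616807496301007547765197977822494720) (nat_lit 1)) .nil)),
 (.br (nat_lit 11) (nat_lit 0) (.cons (.ev (nat_lit 340282367000167834921977642797211058433) (nat_lit 1)) .nil)),
 (.br (nat_lit 14) (nat_lit 0) (.cons (.ev (nat_lit 5192296858534846147614742860071168) (nat_lit 1)) .nil)),
 (.br (nat_lit 16) (nat_lit 0) (.cons (.ev (nat_lit 87112291124057415880127982501149517283585) (nat_lit 1)) .nil)),
 (.br (nat_lit 12) (nat_lit 0) (.cons (.ev (nat_lit 5253302546102885392347239492354051) (nat_lit 2)) (.cons (.ev (nat_lit 2663750175850228732848561462301425667) (nat_lit 3)) (.cons (.ev (nat_lit 5253302546102885392347239492354561) (nat_lit 2)) (.cons (.ev (nat_lit 87112291124057415880127982219670245605376) (nat_lit 1)) .nil))))),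
 (.br (nat_lit 12) (nat_lit 0) (.cons (.ev (nat_lit 341616807496301007547765197977805717505) (nat_lit 1)) (.cons (.rf (nat_lit 258) (nat_lit 19534206154933459258762)) .nil))),
 (.br (nat_lit 12) (nat_lit 0) (.cons (.ev (nat_lit 5253302546102885392347239492354051) (nat_lit 2)) (.cons (.ev (nat_lit 5253302546102885392347239525908481) (nat_lit 2)) (.cons (.ev (nat_lit 2663750175850228732848561462301425667) (nat_lit 3)) (.cons (.ev (nat_lit 5253302546102885392347239492354561) (nat_lit 2)) (.cons (.ev (nat_lit 87112291124057415880127982219670262382848) (nat_lit 1)) .nil))))))]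

theorem c28 : chkAll C T R L28 (nat_lit 528) = true := by decide +kernel

theorem l28 : (nat_lit 528) + L28.length = (nat_lit 574) := by decide +kernel

/-- part of the certificates -/
def L29 : List Prf := [(.br (nat_lit 10) (nat_lit 0) (.cons (.ev (nat_lit 5294184899367006827752658709774337) (nat_lit 3)) (.cons (.kr (nat_lit 5212579268143220112462861911982081) (nat_lit 2658456150026156774336289311960334336) (nat_lit 0) (nat_lit 1)) (.cons (.ev (nat_lit 5294184899367006827752658709775365) (nat_lit 3)) (.cons (.br (nat_lit 15) (nat_lit 0) (.cons (.kr (nat_lit 5192296858534846075274570038771713) (nat_lit 1329228075013078387168144653841072128) (nat_lit 0) (nat_lit 1)) (.cons (.kr (nat_lit 5192296858534846075274570038771968) (nat_lit 1329228075013078387168144653841072128) (nat_lit 1) (nat_lit 0)) (.cons (.ev (nat_lit 5322124721487946945236877375342379009) (nat_lit 3)) .nil)))) .nil))))),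
 (.br (nat_lit 10) (nat_lit 0) (.cons (.ev (nat_lit 2663750175850228732848561462234316807) (nat_lit 3)) (.cons (.ev (nat_lit 2663750175850228732848561462234317827) (nat_lit 3)) (.cons (.ev (nat_lit 2663668730537085218639607819380195331) (nat_lit 3)) .nil)))),
 (.br (nat_lit 14) (nat_lit 0) (.cons (.ev (nat_lit 1334420292952940432720448069484740608) (nat_lit 1)) .nil)),
 (.br (nat_lit 7) (nat_lit 0) (.cons (.ev (nat_lit 5294184899367006827752658609111047) (nat_lit 3)) (.cons (.ev (nat_lit 2663709294734895169072082414127284227) (nat_lit 2)) (.cons (.ev (nat_lit 5294184899367006827752658609111557) (nat_lit 3)) (.cons (.br (nat_lit 15) (nat_lit 0) (.cons (.kr (nat_lit 5192296858534846075274570038771713) (nat_lit 1329228075013078387168144653841072128) (nat_lit 0) (nat_lit 1)) (.cons (.kr (nat_lit 5192296858534846075274570038771968) (nat_lit 1329228075013078387168144653841072128) (nat_lit 1) (nat_lit 0)) (.cons (.ev (nat_lit 7980621120658591633907261699036020739) (nat_lit 3)) .nil)))) .nil))))),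
 (.br (nat_lit 7) (nat_lit 0) (.cons (.kr (nat_lit 5192296858534846075274574333739008) (nat_lit 79537647524157740256306659328) (nat_lit 4) (nat_lit 0)) (.cons (.kr (nat_lit 159075295048315480512613318657) (nat_lit 5212579268143220112462866223726592) (nat_lit 0) (nat_lit 1)) (.cons (.kr (nat_lit 79537647524157740256306659329) (nat_lit 5192296858534846075274574333739264) (nat_lit 0) (nat_lit 2)) (.cons (.br (nat_lit 10) (nat_lit 0) (.cons (.ev (nat_lit 2663668730537085218639607819313086471) (nat_lit 3)) (.cons (.ev (nat_lit 2663668730537085218639607819313087491) (nat_lit 3)) (.cons (.ev (nat_lit 2663750175850228732848561462301425667) (nat_lit 3)) .nil)))) .nil))))),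
 (.br (nat_lit 11) (nat_lit 0) (.cons (.ev (nat_lit 5212579889531128287870418031738883) (nat_lit 2)) (.cons (.ev (nat_lit 5212579889531128287870418065293313) (nat_lit 2)) (.cons (.kr (nat_lit 5212579268143220112462861911982081) (nat_lit 2658456150026156774336289311960334336) (nat_lit 0) (nat_lit 1)) (.cons (.ev (nat_lit 5212579889531128287870418031739393) (nat_lit 2)) (.cons (.rf (nat_lit 565) (nat_lit 677582165103132179601393696)) .nil)))))),
 (.br (nat_lit 12) (nat_lit 0) (.cons (.ev (nat_lit 1334420292952935728800709273549078528) (nat_lit 1)) (.cons (.rf (nat_lit 394) (nat_lit 18301877046183090757964)) .nil))),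
 (.br (nat_lit 11) (nat_lit 0) (.cons (.ev (nat_lit 680569987223649978622951064607840535040) (nat_lit 2)) .nil)),
 (.br (nat_lit 10) (nat_lit 0) (.cons (.ev (nat_lit 5212579889531128287870418031738883) (nat_lit 2)) (.cons (.ev (nat_lit 5212579889531128287870418065293313) (nat_lit 2)) (.cons (.kr (nat_lit 5212579268143220112462861911982081) (nat_lit 2658456150026156774336289311960334336) (nat_lit 0) (nat_lit 1)) (.cons (.ev (nat_lit 5212579889531128287870418031739393) (nat_lit 2)) (.cons (.ev (nat_lit 2663668570840392854596909580628787203) (nat_lit 2)) .nil)))))),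
 (.br (nat_lit 12) (nat_lit 0) (.cons (.rf (nat_lit 460) (nat_lit 20661509840130370843114)) (.cons (.ev (nat_lit 87112291144418744156561801210871003742208) (nat_lit 1)) .nil))),
 (.br (nat_lit 15) (nat_lit 0) (.cons (.ev (nat_lit 340287559297025165527706015989636268288) (nat_lit 1)) .nil)),
 (.br (nat_lit 5) (nat_lit 0) (.cons (.rf (nat_lit 456) (nat_lit 17082914782385792067587)) (.cons (.ev (nat_lit 1329227995786124817242224456714223616) (nat_lit 1)) .nil))),
 (.br (nat_lit 14) (nat_lit 0) (.cons (.ev (nat_lit 5192296858534846147614742860071168) (nat_lit 1)) .nil)),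
 (.br (nat_lit 10) (nat_lit 0) (.cons (.ev (nat_lit 5212579889531128287870418065293313) (nat_lit 2)) (.cons (.ev (nat_lit 5212579889531128287870418031739393) (nat_lit 2)) (.cons (.rf (nat_lit 332) (nat_lit 20672322071551832195143)) .nil)))),
 (.br (nat_lit 12) (nat_lit 0) (.cons (.ev (nat_lit 340282367000167834921977642797211058433) (nat_lit 1)) .nil)),
 (.br (nat_lit 11) (nat_lit 1) (.cons (.br (nat_lit 14) (nat_lit 0) (.cons (.br (nat_lit 1) (nat_lit 0) (.cons (.kr (nat_lit 1) (nat_lit 256) (nat_lit 0) (nat_lit 2)) (.cons (.kr (nat_lit 256) (nat_lit 16777216) (nat_lit 1) (nat_lit 0)) (.cons (.br (nat_lit 2) (nat_lit 0) (.cons (.br (nat_lit 10) (nat_lit 0) (.cons (.ev (nat_lit 5212581132335278982263050869016067) (nat_lit 3)) (.cons (.br (nat_lit 11) (nat_lit 0) (.cons (.kr (nat_lit 5212579268143220112462861911982081) (nat_lit 2658456150026156774336289311960334336) (nat_lit 0) (nat_lit 1)) (.cons (.br (nat_lit 15) (nat_lit 0) (.cons (.ev (nat_lit 2663709294734895169071519472797351937) (nat_lit 2)) (.cons (.rf (nat_lit 1) (nat_lit 582170279384129)) .nil))) .nil))) (.cons (.br (nat_lit 11) (nat_lit 0) (.cons (.kr (nat_lit 5212579268143220112462861911982081) (nat_lit 2658456150026156774336289311960334336) (nat_lit 0) (nat_lit 1)) (.cons (.br (nat_lit 12) (nat_lit 0) (.cons (.ev (nat_lit 2663709294734904650697973359473328641) (nat_lit 2)) (.cons (.rf (nat_lit 1) (nat_lit 582070421394497)) .nil))) .nil))) (.cons (.br (nat_lit 12) (nat_lit 0) (.cons (.br (nat_lit 15) (nat_lit 0) (.cons (.ev (nat_lit 2663709294734895169072082414160839171) (nat_lit 2)) (.cons (.rf (nat_lit 1) (nat_lit 582170311889985)) .nil))) (.cons (.ev (nat_lit 7980581029346623025037708300004884487) (nat_lit 3)) (.cons (.br (nat_lit 11) (nat_lit 0) (.cons (.ev (nat_lit 2663709294734904650698536300836814851) (nat_lit 2)) (.cons (.ev (nat_lit 1361134680267371778470618259162940179469) (nat_lit 4)) (.cons (.br (nat_lit 15) (nat_lit 0) (.cons (.ev (nat_lit 4096685977510298941112270143824928968207) (nat_lit 4)) (.cons (.ev (nat_lit 1329228075945174416603044750458684161) (nat_lit 2)) .nil))) .nil)))) (.cons (.br (nat_lit 11) (nat_lit 0) (.cons (.rf (nat_lit 1) (nat_lit 582070453900353)) (.cons (.br (nat_lit 15) (nat_lit 0) (.cons (.ev (nat_lit 1361134680267371759654939303979130423309) (nat_lit 4)) (.cons (.rf (nat_lit 528) (nat_lit 20193522128553972801)) .nil))) (.cons (.br (nat_lit 15) (nat_lit 0) (.cons (.ev (nat_lit 1329228075945174416603044750458684161) (nat_lit 2)) (.cons (.ev (nat_lit 1045350095093241169303375651878777729321475) (nat_lit 4)) .nil))) .nil)))) .nil))))) .nil))))) (.cons (.br (nat_lit 5) (nat_lit 0) (.cons (.ev (nat_lit 5212581132335278983388967888617987) (nat_lit 3)) (.cons (.ev (nat_lit 5253144087360005224444984522048001) (nat_lit 2)) (.cons (.ev (nat_lit 5253144087350523597991097778962433) (nat_lit 2)) (.cons (.br (nat_lit 11) (nat_lit 0) (.cons (.ev (nat_lit 5212579889540536127348009936617987) (nat_lit 2)) (.cons (.ev (nat_lit 5212579889531128287870418031738883) (nat_lit 2)) (.cons (.ev (nat_lit 5192297790630801722916901153210882) (nat_lit 2)) (.cons (.br (nat_lit 12) (nat_lit 0) (.cons (.rf (nat_lit 1) (nat_lit 582036122478657)) (.cons (.br (nat_lit 15) (nat_lit 0) (.cons (.ev (nat_lit 4091369146339885061059745192477150677511) (nat_lit 4)) (.cons (.br (nat_lit 16) (nat_lit 0) (.cons (.zr (nat_lit 1363788025245828028978422529485837435399) (nat_lit 5192298722703164273123714719416320) (nat_lit 16) (nat_lit 12)) .nil)) .nil))) (.cons (.br (nat_lit 15) (nat_lit 0) (.cons (.br (nat_lit 16) (nat_lit 0) (.cons (.zr (nat_lit 1361145064857360449951714202319136620544) (nat_lit 7975368450078475045376758167474536965) (nat_lit 16) (nat_lit 5)) .nil)) (.cons (.ev (nat_lit 348451807476902404890434575537930382608907) (nat_lit 4)) .nil))) .nil)))) .nil))))) .nil))))) (.cons (.br (nat_lit 5) (nat_lit 0) (.cons (.ev (nat_lit 5212581132335278983388967888617987) (nat_lit 3)) (.cons (.ev (nat_lit 5253144087360005223882043158560771) (nat_lit 2)) (.cons (.ev (nat_lit 5253144087350523597428156415476227) (nat_lit 2)) (.cons (.br (nat_lit 10) (nat_lit 0) (.cons (.ev (nat_lit 5212579889540536127348009936617987) (nat_lit 2)) (.cons (.ev (nat_lit 5212579889531128287870418031738883) (nat_lit 2)) (.cons (.ev (nat_lit 20283341685514005593964217958658) (nat_lit 2)) (.cons (.br (nat_lit 12) (nat_lit 0) (.cons (.rf (nat_lit 1) (nat_lit 582001762741313)) (.cons (.br (nat_lit 15) (nat_lit 0) (.cons (.ev (nat_lit 4091369146339885061059742940711696728591) (nat_lit 4)) (.cons (.br (nat_lit 16) (nat_lit 0) (.cons (.zr (nat_lit 1361134720828462611119396683200575178752) (nat_lit 7975368450078470341457019371622760453) (nat_lit 16) (nat_lit 7)) .nil)) .nil))) (.cons (.br (nat_lit 15) (nat_lit 0) (.cons (.br (nat_lit 16) (nat_lit 0) (.cons (.zr (nat_lit 1361134720828462592285270983943240417280) (nat_lit 7975368450078470323010275297829323781) (nat_lit 16) (nat_lit 5)) .nil)) (.cons (.ev (nat_lit 348462441463761786308966353349664552519183) (nat_lit 4)) .nil))) .nil)))) .nil))))) .nil))))) (.cons (.br (nat_lit 5) (nat_lit 0) (.cons (.ev (nat_lit 5253144087360005224444984522048001) (nat_lit 2)) (.cons (.ev (nat_lit 5253144087360005223882043158560771) (nat_lit 2)) (.cons (.kr (nat_lit 5212579268143220112181391247015937) (nat_lit 2658456150026156774336570782625300992) (nat_lit 0) (nat_lit 2)) (.cons (.br (nat_lit 15) (nat_lit 0) (.cons (.kr (nat_lit 20282409608374036906816896499713) (nat_lit 1329228075013078387168144653824295168) (nat_lit 0) (nat_lit 2)) (.cons (.kr (nat_lit 5192296858534846075274570038771713) (nat_lit 1329228075013078387168144653841072128) (nat_lit 0) (nat_lit 1)) (.cons (.ev (nat_lit 2663668729294300031486920658377637891) (nat_lit 2)) (.cons (.br (nat_lit 10) (nat_lit 0) (.cons (.rf (nat_lit 1) (nat_lit 582169199358017)) (.cons (.br (nat_lit 16) (nat_lit 0) (.cons (.ev (nat_lit 340282366920938463481893691678315839488) (nat_lit 1)) (.cons (.ev (nat_lit 341616787292810076678243622754743025665) (nat_lit 1)) .nil))) (.cons (.rf (nat_lit 529) (nat_lit 661701333108527519141953)) .nil)))) .nil))))) .nil))))) (.cons (.br (nat_lit 5) (nat_lit 0) (.cons (.ev (nat_lit 5253144087350523597991097778962433) (nat_lit 2)) (.cons (.ev (nat_lit 5253144087350523597428156415476227) (nat_lit 2)) (.cons (.kr (nat_lit 5212579268143220112181391247015937) (nat_lit 2658456150026156774336570782625300992) (nat_lit 0) (nat_lit 2)) (.cons (.br (nat_lit 12) (nat_lit 0) (.cons (.kr (nat_lit 20282409608374036906816896499713) (nat_lit 1329228075013078387168144653824295168) (nat_lit 0) (nat_lit 2)) (.cons (.kr (nat_lit 5192296858534846075274570038771713) (nat_lit 1329228075013078387168144653841072128) (nat_lit 0) (nat_lit 1)) (.cons (.ev (nat_lit 2663668729294309439326398250215408131) (nat_lit 2)) (.cons (.br (nat_lit 10) (nat_lit 0) (.cons (.rf (nat_lit 1) (nat_lit 582066120145985)) (.cons (.br (nat_lit 11) (nat_lit 0) (.cons (.ev (nat_lit 340282366920938468185813430474234724608) (nat_lit 1)) (.cons (.rf (nat_lit 2) (nat_lit 19073217567529352257)) .nil))) (.cons (.br (nat_lit 11) (nat_lit 0) (.cons (.br (nat_lit 16) (nat_lit 0) (.cons (.ev (nat_lit 341611615278361145502285516205665091585) (nat_lit 1)) .nil)) (.cons (.ev (nat_lit 87113615159835570423669075089754031128833) (nat_lit 1)) .nil))) .nil)))) .nil))))) .nil))))) (.cons (.br (nat_lit 5) (nat_lit 0) (.cons (.br (nat_lit 11) (nat_lit 0) (.cons (.ev (nat_lit 5212579889540536127348009903063553) (nat_lit 2)) (.cons (.ev (nat_lit 5212579889531128287870418065293313) (nat_lit 2)) (.cons (.ev (nat_lit 5192297790630801722916901102879233) (nat_lit 2)) (.cons (.br (nat_lit 12) (nat_lit 0) (.cons (.rf (nat_lit 1) (nat_lit 582036119333025)) (.cons (.br (nat_lit 15) (nat_lit 0) (.cons (.ev (nat_lit 4091369146339885061059745192477083568651) (nat_lit 4)) (.cons (.br (nat_lit 16) (nat_lit 0) (.cons (.zr (nat_lit 1363788025245828028978422529485954875904) (nat_lit 5192298722703164273123714669084675) (nat_lit 16) (nat_lit 12)) .nil)) .nil))) (.cons (.br (nat_lit 15) (nat_lit 0) (.cons (.br (nat_lit 16) (nat_lit 0) (.cons (.zr (nat_lit 1361145064857360449951714202319170174976) (nat_lit 7975368450078475045376758167474536967) (nat_lit 16) (nat_lit 5)) .nil)) (.cons (.ev (nat_lit 348451807476902404890434575537930248391171) (nat_lit 4)) .nil))) .nil)))) .nil))))) (.cons (.br (nat_lit 10) (nat_lit 0) (.cons (.ev (nat_lit 5212579889540536127348009903063553) (nat_lit 2)) (.cons (.ev (nat_lit 5212579889531128287870418065293313) (nat_lit 2)) (.cons (.ev (nat_lit 20283341685514005593964234735873) (nat_lit 2)) (.cons (.br (nat_lit 12) (nat_lit 0) (.cons (.rf (nat_lit 1) (nat_lit 582001759595681)) (.cons (.br (nat_lit 15) (nat_lit 0) (.cons (.ev (nat_lit 4091369146339885061059742940711629619715) (nat_lit 4)) (.cons (.br (nat_lit 16) (nat_lit 0) (.cons (.zr (nat_lit 1361134720828462611119396683200575178752) (nat_lit 7975368450078470341457019371589206023) (nat_lit 16) (nat_lit 7)) .nil)) .nil))) (.cons (.br (nat_lit 15) (nat_lit 0) (.cons (.br (nat_lit 16) (nat_lit 0) (.cons (.zr (nat_lit 1361134720828462592285270983943122976777) (nat_lit 7975368450078470323010275297946764288) (nat_lit 16) (nat_lit 2)) .nil)) (.cons (.ev (nat_lit 348462441463761786308966353349664418301447) (nat_lit 4)) .nil))) .nil)))) .nil))))) (.cons (.br (nat_lit 15) (nat_lit 0) (.cons (.kr (nat_lit 1329228075013078387168144653824295168) (nat_lit 20282409608374036906816913276928) (nat_lit 1) (nat_lit 0)) (.cons (.kr (nat_lit 5192296858534846075274570038771712) (nat_lit 1329228075013078387168144653824294912) (nat_lit 8) (nat_lit 0)) (.cons (.ev (nat_lit 2663668729294300031486920658344083457) (nat_lit 2)) (.cons (.br (nat_lit 10) (nat_lit 0) (.cons (.rf (nat_lit 1) (nat_lit 582169196212385)) (.cons (.br (nat_lit 16) (nat_lit 0) (.cons (.ev (nat_lit 340282366920938463481893691678299062273) (nat_lit 1)) (.cons (.ev (nat_lit 341616787292810076678243622754743025665) (nat_lit 1)) .nil))) (.cons (.br (nat_lit 11) (nat_lit 0) (.cons (.rf (nat_lit 2) (nat_lit 19076629385393189025)) (.cons (.ev (nat_lit 87113615159835570418965155350958095466496) (nat_lit 1)) .nil))) .nil)))) .nil))))) (.cons (.br (nat_lit 12) (nat_lit 0) (.cons (.kr (nat_lit 1329228075013078387168144653824295168) (nat_lit 20282409608374036906816913276928) (nat_lit 1) (nat_lit 0)) (.cons (.kr (nat_lit 5192296858534846075274570038771712) (nat_lit 1329228075013078387168144653824294912) (nat_lit 8) (nat_lit 0)) (.cons (.ev (nat_lit 2663668729294309439326398250248962561) (nat_lit 2)) (.cons (.br (nat_lit 10) (nat_lit 0) (.cons (.rf (nat_lit 1) (nat_lit 582066117000353)) (.cons (.rf (nat_lit 530) (nat_lit 677582165103132179601393696)) (.cons (.br (nat_lit 11) (nat_lit 0) (.cons (.br (nat_lit 16) (nat_lit 0) (.cons (.ev (nat_lit 341611615278361145502285516205665091585) (nat_lit 1)) .nil)) (.cons (.ev (nat_lit 87113615159835570423669075089754047906048) (nat_lit 1)) .nil))) .nil)))) .nil))))) (.cons (.br (nat_lit 12) (nat_lit 0) (.cons (.br (nat_lit 11) (nat_lit 0) (.cons (.kr (nat_lit 5212579268143220112462861911982081) (nat_lit 2658456150026156774336289311960334336) (nat_lit 0) (nat_lit 1)) (.cons (.ev (nat_lit 340287559218107696967457606048623362048) (nat_lit 1)) (.cons (.br (nat_lit 15) (nat_lit 0) (.cons (.ev (nat_lit 341616787292810081419056849698114568449) (nat_lit 1)) (.cons (.ev (nat_lit 2663709294734895169071519472797351937) (nat_lit 2)) .nil))) .nil)))) (.cons (.br (nat_lit 10) (nat_lit 0) (.cons (.kr (nat_lit 5212579268143220112462861911982081) (nat_lit 2658456150026156774336289311960334336) (nat_lit 0) (nat_lit 1)) (.cons (.ev (nat_lit 340287559218107696967457324569351684353) (nat_lit 1)) (.cons (.br (nat_lit 15) (nat_lit 0) (.cons (.ev (nat_lit 341616787292810081419056568218842890240) (nat_lit 1)) (.cons (.ev (nat_lit 2663709294734895169072082414160839171) (nat_lit 2)) .nil))) .nil)))) (.cons (.ev (nat_lit 7980581029346623025037708299937775619) (nat_lit 3)) (.cons (.br (nat_lit 10) (nat_lit 0) (.cons (.ev (nat_lit 1361134680267371778470615444387436825093) (nat_lit 4)) (.cons (.ev (nat_lit 341611615278361150243098461669764956160) (nat_lit 1)) (.cons (.br (nat_lit 11) (nat_lit 0) (.cons (.ev (nat_lit 341616787292810076678243341275471347968) (nat_lit 1)) (.cons (.br (nat_lit 15) (nat_lit 0) (.cons (.ev (nat_lit 5322124879941854122126892851104448515) (nat_lit 3)) .nil)) .nil))) .nil)))) (.cons (.br (nat_lit 10) (nat_lit 0) (.cons (.br (nat_lit 15) (nat_lit 0) (.cons (.ev (nat_lit 1361134680267371759654936489203627068933) (nat_lit 4)) (.cons (.br (nat_lit 16) (nat_lit 0) (.cons (.ev (nat_lit 681893961917822101343352541084660072449) (nat_lit 2)) .nil)) .nil))) (.cons (.br (nat_lit 11) (nat_lit 0) (.cons (.ev (nat_lit 340282387203658765791499218020273750273) (nat_lit 1)) (.cons (.ev (nat_lit 2663709294734904650697973359473328641) (nat_lit 2)) .nil))) (.cons (.br (nat_lit 11) (nat_lit 0) (.cons (.ev (nat_lit 340282387203658765791499499499545427968) (nat_lit 1)) (.cons (.br (nat_lit 15) (nat_lit 0) (.cons (.ev (nat_lit 1379744116703363114131228339324358231555) (nat_lit 4)) .nil)) .nil))) (.cons (.br (nat_lit 15) (nat_lit 0) (.cons (.ev (nat_lit 2663709294734904650698536300836814851) (nat_lit 2)) (.cons (.br (nat_lit 11) (nat_lit 0) (.cons (.ev (nat_lit 5322124879941854122126892851104448515) (nat_lit 3)) .nil)) (.cons (.ev (nat_lit 1045360728755581997139038568885035521805831) (nat_lit 4)) .nil)))) .nil))))) .nil)))))) (.cons (.br (nat_lit 10) (nat_lit 0) (.cons (.br (nat_lit 12) (nat_lit 0) (.cons (.ev (nat_lit 2663668730537085218640733702107169799) (nat_lit 3)) (.cons (.br (nat_lit 15) (nat_lit 0) (.cons (.ev (nat_lit 1369110048715586037845004286522699024907) (nat_lit 4)) (.cons (.ev (nat_lit 1344865813128187760922988200945975810) (nat_lit 2)) .nil))) (.cons (.br (nat_lit 15) (nat_lit 0) (.cons (.ev (nat_lit 1344865813128187760922988200945975810) (nat_lit 2)) (.cons (.ev (nat_lit 348457124308072818770487103866926207601167) (nat_lit 4)) .nil))) .nil)))) (.cons (.br (nat_lit 11) (nat_lit 0) (.cons (.kr (nat_lit 5212579268143220112462861911982081) (nat_lit 2658456150026156774336289311960334336) (nat_lit 0) (nat_lit 1)) (.cons (.br (nat_lit 15) (nat_lit 0) (.cons (.ev (nat_lit 2663709294734895169071519472797351937) (nat_lit 2)) (.cons (.rf (nat_lit 258) (nat_lit 20661583267576208138602)) .nil))) (.cons (.br (nat_lit 15) (nat_lit 0) (.cons (.rf (nat_lit 246) (nat_lit 19534206190117831674922)) (.cons (.ev (nat_lit 2663709294734895169071519472797351937) (nat_lit 2)) .nil))) .nil)))) (.cons (.br (nat_lit 11) (nat_lit 0) (.cons (.kr (nat_lit 5212579268143220112462861911982081) (nat_lit 2658456150026156774336289311960334336) (nat_lit 0) (nat_lit 1)) (.cons (.br (nat_lit 12) (nat_lit 0) (.cons (.ev (nat_lit 2663709294734904650697973359473328641) (nat_lit 2)) (.cons (.rf (nat_lit 453) (nat_lit 20673485095190095038496)) .nil))) (.cons (.br (nat_lit 12) (nat_lit 0) (.cons (.br (nat_lit 16) (nat_lit 0) (.cons (.ev (nat_lit 340282366920938463481893410199027384576) (nat_lit 1)) .nil)) (.cons (.ev (nat_lit 2663709294734904650697973359473328641) (nat_lit 2)) .nil))) .nil)))) (.cons (.br (nat_lit 11) (nat_lit 0) (.cons (.br (nat_lit 15) (nat_lit 0) (.cons (.ev (nat_lit 2663709294734895169072082414160839171) (nat_lit 2)) (.cons (.rf (nat_lit 258) (nat_lit 20661583267576208138571)) .nil))) (.cons (.br (nat_lit 12) (nat_lit 0) (.cons (.ev (nat_lit 2663709294734904650698536300836814851) (nat_lit 2)) (.cons (.rf (nat_lit 453) (nat_lit 20672332208869860280352)) .nil))) (.cons (.br (nat_lit 12) (nat_lit 0) (.cons (.ev (nat_lit 2663668730537085218639607819380195331) (nat_lit 3)) (.cons (.br (nat_lit 15) (nat_lit 0) (.cons (.ev (nat_lit 4096685896381903283358974590157566248463) (nat_lit 4)) .nil)) .nil))) (.cons (.ev (nat_lit 5212581132335278981700109539083267) (nat_lit 3)) .nil))))) (.cons (.br (nat_lit 11) (nat_lit 0) (.cons (.br (nat_lit 15) (nat_lit 0) (.cons (.rf (nat_lit 246) (nat_lit 19534206190117831642155)) (.cons (.ev (nat_lit 2663709294734895169072082414160839171) (nat_lit 2)) .nil))) (.cons (.br (nat_lit 12) (nat_lit 0) (.cons (.rf (nat_lit 458) (nat_lit 19528415689344105780289)) (.cons (.ev (nat_lit 2663709294734904650698536300836814851) (nat_lit 2)) .nil))) (.cons (.ev (nat_lit 5212581132335278981700109539083267) (nat_lit 3)) (.cons (.br (nat_lit 12) (nat_lit 0) (.cons (.ev (nat_lit 2663668730537085218639607819380195331) (nat_lit 3)) (.cons (.br (nat_lit 15) (nat_lit 0) (.cons (.ev (nat_lit 1369110048715586037845002034757245075971) (nat_lit 4)) .nil)) .nil))) .nil))))) .nil)))))) .nil))))))) .nil))))))) (.cons (.kr (nat_lit 20282409608374037188291889987585) (nat_lit 5192296858534846075274574333739520) (nat_lit 0) (nat_lit 2)) (.cons (.br (nat_lit 2) (nat_lit 0) (.cons (.br (nat_lit 12) (nat_lit 0) (.cons (.ev (nat_lit 5212738343447713017359087651914241) (nat_lit 2)) (.cons (.ev (nat_lit 5212738343447713016796129108557827) (nat_lit 2)) (.cons (.ev (nat_lit 7980661843310346503124009192255651847) (nat_lit 3)) (.cons (.br (nat_lit 15) (nat_lit 0) (.cons (.ev (nat_lit 2663709136276152288903617217793490947) (nat_lit 2)) (.cons (.ev (nat_lit 2663709136276152288904180176336847361) (nat_lit 2)) (.cons (.ev (nat_lit 1344845689483185276906746731974230272) (nat_lit 2)) (.cons (.br (nat_lit 7) (nat_lit 0) (.cons (.rf (nat_lit 1) (nat_lit 582168032416833)) (.cons (.br (nat_lit 10) (nat_lit 0) (.cons (.ev (nat_lit 4083393616268695114885172911162493109253) (nat_lit 4)) (.cons (.br (nat_lit 16) (nat_lit 0) (.cons (.zr (nat_lit 1361129569096423293039841966346628892160) (nat_lit 7980560746937005205979600965257396231) (nat_lit 16) (nat_lit 7)) .nil)) .nil))) (.cons (.br (nat_lit 10) (nat_lit 0) (.cons (.br (nat_lit 16) (nat_lit 0) (.cons (.zr (nat_lit 1361165813762384985610557900352940802048) (nat_lit 7975429297307286000387467063569942019) (nat_lit 16) (nat_lit 5)) .nil)) (.cons (.ev (nat_lit 348459783006978546577950612654587254540293) (nat_lit 4)) .nil))) .nil)))) .nil))))) .nil))))) (.cons (.br (nat_lit 5) (nat_lit 0) (.cons (.br (nat_lit 12) (nat_lit 0) (.cons (.ev (nat_lit 5294026445441014258227853834453507) (nat_lit 3)) (.cons (.br (nat_lit 15) (nat_lit 0) (.cons (.ev (nat_lit 1329289080700646426485217323261100291) (nat_lit 2)) (.cons (.rf (nat_lit 1) (nat_lit 582167965310017)) .nil))) .nil))) (.cons (.br (nat_lit 10) (nat_lit 0) (.cons (.kr (nat_lit 1329228075013078387168144662414229760) (nat_lit 310693935713018391449108480) (nat_lit 1) (nat_lit 0)) (.cons (.br (nat_lit 15) (nat_lit 0) (.cons (.ev (nat_lit 2663668570840392854596909580628787713) (nat_lit 2)) (.cons (.rf (nat_lit 1) (nat_lit 582170110696513)) .nil))) .nil))) (.cons (.br (nat_lit 10) (nat_lit 0) (.cons (.kr (nat_lit 1329228075013078387168144662414229760) (nat_lit 310693935713018391449108480) (nat_lit 1) (nat_lit 0)) (.cons (.br (nat_lit 12) (nat_lit 0) (.cons (.ev (nat_lit 5253302546102885392347239492354051) (nat_lit 2)) (.cons (.rf (nat_lit 1) (nat_lit 582070252706881)) .nil))) .nil))) (.cons (.br (nat_lit 16) (nat_lit 0) (.cons (.rf (nat_lit 531) (nat_lit 19926519232773908561233952)) (.cons (.ev (nat_lit 5212738343447713017359087618359811) (nat_lit 2)) (.cons (.ev (nat_lit 2663709136276152288903617217759936513) (nat_lit 2)) (.cons (.br (nat_lit 16) (nat_lit 0) (.cons (.rf (nat_lit 531) (nat_lit 19926519232773908561233952)) (.cons (.ev (nat_lit 5212738343447713017359087618359811) (nat_lit 2)) (.cons (.ev (nat_lit 2663709136276152288903617217759936513) (nat_lit 2)) .nil)))) .nil))))) .nil))))) (.cons (.br (nat_lit 5) (nat_lit 0) (.cons (.br (nat_lit 12) (nat_lit 0) (.cons (.ev (nat_lit 5294026445441014258227853834453507) (nat_lit 3)) (.cons (.br (nat_lit 15) (nat_lit 0) (.cons (.ev (nat_lit 1329289080700646426485217323261100291) (nat_lit 2)) (.cons (.rf (nat_lit 1) (nat_lit 582164744087617)) .nil))) .nil))) (.cons (.br (nat_lit 7) (nat_lit 0) (.cons (.kr (nat_lit 2658456150026156774336570782625300481) (nat_lit 5212579268143220112181391247015936) (nat_lit 0) (nat_lit 1)) (.cons (.br (nat_lit 15) (nat_lit 0) (.cons (.ev (nat_lit 2663668570840392854596909580628787713) (nat_lit 2)) (.cons (.rf (nat_lit 1) (nat_lit 582170107553857)) .nil))) .nil))) (.cons (.br (nat_lit 7) (nat_lit 0) (.cons (.kr (nat_lit 2658456150026156774336570782625300481) (nat_lit 5212579268143220112181391247015936) (nat_lit 0) (nat_lit 1)) (.cons (.br (nat_lit 12) (nat_lit 0) (.cons (.ev (nat_lit 5253302546102885392347239492354051) (nat_lit 2)) (.cons (.rf (nat_lit 1) (nat_lit 582070249564225)) .nil))) .nil))) (.cons (.br (nat_lit 16) (nat_lit 0) (.cons (.rf (nat_lit 532) (nat_lit 19926519232773908561233952)) (.cons (.ev (nat_lit 5212738343447713016796129075003393) (nat_lit 2)) (.cons (.ev (nat_lit 2663709136276152288904180176303292931) (nat_lit 2)) (.cons (.br (nat_lit 16) (nat_lit 0) (.cons (.rf (nat_lit 532) (nat_lit 19926519232773908561233952)) (.cons (.ev (nat_lit 5212738343447713016796129075003393) (nat_lit 2)) (.cons (.ev (nat_lit 2663709136276152288904180176303292931) (nat_lit 2)) .nil)))) .nil))))) .nil))))) (.cons (.br (nat_lit 15) (nat_lit 0) (.cons (.ev (nat_lit 5212738343438305177881495780590081) (nat_lit 2)) (.cons (.kr (nat_lit 5212579268143220112181391230238721) (nat_lit 2658456150026156774336570782642077696) (nat_lit 0) (nat_lit 1)) (.cons (.kr (nat_lit 5212579268143220112462861911982083) (nat_lit 2658456150026156774336289311960334848) (nat_lit 0) (nat_lit 2)) (.cons (.br (nat_lit 7) (nat_lit 0) (.cons (.br (nat_lit 10) (nat_lit 0) (.cons (.ev (nat_lit 2663668570840392854596909580662342147) (nat_lit 2)) (.cons (.rf (nat_lit 1) (nat_lit 616249602453569)) .nil))) (.cons (.ev (nat_lit 5253302546102885391784280948998657) (nat_lit 2)) (.cons (.br (nat_lit 5) (nat_lit 0) (.cons (.ev (nat_lit 2663668570840392854596909580662342147) (nat_lit 2)) (.cons (.ev (nat_lit 340282387282885719379944223559148175360) (nat_lit 1)) (.cons (.br (nat_lit 10) (nat_lit 0) (.cons (.ev (nat_lit 5253302546102885392347239492354051) (nat_lit 2)) (.cons (.rf (nat_lit 246) (nat_lit 20666565348485151297601)) .nil))) .nil)))) (.cons (.br (nat_lit 10) (nat_lit 0) (.cons (.rf (nat_lit 1) (nat_lit 616252820533313)) (.cons (.br (nat_lit 5) (nat_lit 0) (.cons (.ev (nat_lit 340287559297334645815089103164854567168) (nat_lit 1)) (.cons (.rf (nat_lit 353) (nat_lit 21170568771089403692025888)) .nil))) (.cons (.ev (nat_lit 5253302546102885392347239492354051) (nat_lit 2)) .nil)))) .nil))))) .nil))))) (.cons (.br (nat_lit 12) (nat_lit 0) (.cons (.ev (nat_lit 5212738343438305177881495747035651) (nat_lit 2)) (.cons (.kr (nat_lit 5212579268143220112181391230238721) (nat_lit 2658456150026156774336570782642077696) (nat_lit 0) (nat_lit 1)) (.cons (.kr (nat_lit 5212579268143220112462861911982083) (nat_lit 2658456150026156774336289311960334848) (nat_lit 0) (nat_lit 2)) (.cons (.br (nat_lit 7) (nat_lit 0) (.cons (.br (nat_lit 10) (nat_lit 0) (.cons (.ev (nat_lit 5253302546102885392347239525908481) (nat_lit 2)) (.cons (.rf (nat_lit 1) (nat_lit 616146523241537)) .nil))) (.cons (.ev (nat_lit 2663668570840392854597472539172143107) (nat_lit 2)) (.cons (.br (nat_lit 5) (nat_lit 0) (.cons (.ev (nat_lit 5253302546102885392347239525908481) (nat_lit 2)) (.cons (.ev (nat_lit 341611594917032864364546504738306326785) (nat_lit 1)) (.cons (.br (nat_lit 10) (nat_lit 0) (.cons (.ev (nat_lit 2663668570840392854596909580628787713) (nat_lit 2)) (.cons (.rf (nat_lit 362) (nat_lit 21164550700835416365445152)) .nil))) .nil)))) (.cons (.br (nat_lit 10) (nat_lit 0) (.cons (.rf (nat_lit 1) (nat_lit 616149741321281)) (.cons (.br (nat_lit 5) (nat_lit 0) (.cons (.ev (nat_lit 341616807496301007547765197977805717505) (nat_lit 1)) (.cons (.rf (nat_lit 533) (nat_lit 661701333108527519141953)) .nil))) (.cons (.ev (nat_lit 2663668570840392854596909580628787713) (nat_lit 2)) .nil)))) .nil))))) .nil))))) (.cons (.br (nat_lit 5) (nat_lit 0) (.cons (.br (nat_lit 16) (nat_lit 0) (.cons (.rf (nat_lit 534) (nat_lit 19926519232773908561233952)) (.cons (.ev (nat_lit 5212738343447713017359087618359811) (nat_lit 2)) (.cons (.ev (nat_lit 2663709136276152288903617217759936513) (nat_lit 2)) (.cons (.br (nat_lit 16) (nat_lit 0) (.cons (.rf (nat_lit 534) (nat_lit 19926519232773908561233952)) (.cons (.ev (nat_lit 5212738343447713017359087618359811) (nat_lit 2)) (.cons (.ev (nat_lit 2663709136276152288903617217759936513) (nat_lit 2)) .nil)))) .nil))))) (.cons (.br (nat_lit 16) (nat_lit 0) (.cons (.rf (nat_lit 535) (nat_lit 19926519232773908561233952)) (.cons (.ev (nat_lit 5212738343447713016796129075003393) (nat_lit 2)) (.cons (.ev (nat_lit 2663709136276152288904180176303292931) (nat_lit 2)) (.cons (.br (nat_lit 16) (nat_lit 0) (.cons (.rf (nat_lit 535) (nat_lit 19926519232773908561233952)) (.cons (.ev (nat_lit 5212738343447713016796129075003393) (nat_lit 2)) (.cons (.ev (nat_lit 2663709136276152288904180176303292931) (nat_lit 2)) .nil)))) .nil))))) (.cons (.br (nat_lit 7) (nat_lit 0) (.cons (.ev (nat_lit 5253302546102885391784280982553091) (nat_lit 2)) (.cons (.kr (nat_lit 2658456150026156774336570782625300481) (nat_lit 5212579268143220112181391247015936) (nat_lit 0) (nat_lit 1)) (.cons (.br (nat_lit 10) (nat_lit 0) (.cons (.kr (nat_lit 5212579268143220112462861928759297) (nat_lit 2658456150026156774336289311943557632) (nat_lit 0) (nat_lit 2)) (.cons (.ev (nat_lit 5253302546102885392347239525908481) (nat_lit 2)) (.cons (.br (nat_lit 15) (nat_lit 0) (.cons (.ev (nat_lit 340287559297334645815088821694172823553) (nat_lit 1)) (.cons (.rf (nat_lit 433) (nat_lit 19998267804658883836777507)) .nil))) .nil)))) (.cons (.br (nat_lit 10) (nat_lit 0) (.cons (.kr (nat_lit 5212579268143220112462861928759297) (nat_lit 2658456150026156774336289311943557632) (nat_lit 0) (nat_lit 2)) (.cons (.br (nat_lit 15) (nat_lit 0) (.cons (.ev (nat_lit 340287559297334645815089103164854567168) (nat_lit 1)) (.cons (.rf (nat_lit 425) (nat_lit 20662810333859410253281)) .nil))) (.cons (.ev (nat_lit 5253302546102885392347239525908481) (nat_lit 2)) .nil)))) .nil))))) (.cons (.br (nat_lit 7) (nat_lit 0) (.cons (.ev (nat_lit 2663668570840392854597472539205697537) (nat_lit 2)) (.cons (.kr (nat_lit 2658456150026156774336570782625300481) (nat_lit 5212579268143220112181391247015936) (nat_lit 0) (nat_lit 1)) (.cons (.br (nat_lit 10) (nat_lit 0) (.cons (.kr (nat_lit 5212579268143220112462861928759297) (nat_lit 2658456150026156774336289311943557632) (nat_lit 0) (nat_lit 2)) (.cons (.ev (nat_lit 2663668570840392854596909580662342147) (nat_lit 2)) (.cons (.br (nat_lit 16) (nat_lit 0) (.cons (.ev (nat_lit 341616807496301007547765479448487461120) (nat_lit 1)) (.cons (.ev (nat_lit 341611615199134196654653737610162208768) (nat_lit 1)) .nil))) .nil)))) (.cons (.br (nat_lit 10) (nat_lit 0) (.cons (.kr (nat_lit 5212579268143220112462861928759297) (nat_lit 2658456150026156774336289311943557632) (nat_lit 0) (nat_lit 2)) (.cons (.br (nat_lit 16) (nat_lit 0) (.cons (.ev (nat_lit 341616807496301007547765197977805717505) (nat_lit 1)) (.cons (.ev (nat_lit 341611615199134196654654019080843952385) (nat_lit 1)) .nil))) (.cons (.ev (nat_lit 2663668570840392854596909580662342147) (nat_lit 2)) .nil)))) .nil))))) (.cons (.br (nat_lit 12) (nat_lit 0) (.cons (.ev (nat_lit 5212738343447713017359087618359811) (nat_lit 2)) (.cons (.ev (nat_lit 5212738343447713016796129075003393) (nat_lit 2)) (.cons (.ev (nat_lit 7980661843310346503124009192188542979) (nat_lit 3)) (.cons (.br (nat_lit 7) (nat_lit 0) (.cons (.ev (nat_lit 1361134762029583046115790961367843474949) (nat_lit 4)) (.cons (.ev (nat_lit 2663709136276152288903617217759936513) (nat_lit 2)) (.cons (.br (nat_lit 10) (nat_lit 0) (.cons (.ev (nat_lit 2663709136276152288904180176303292931) (nat_lit 2)) (.cons (.br (nat_lit 15) (nat_lit 0) (.cons (.ev (nat_lit 1366451592246787893621845300422746702851) (nat_lit 3)) .nil)) .nil))) .nil)))) (.cons (.br (nat_lit 15) (nat_lit 0) (.cons (.ev (nat_lit 2663709136276152288903617217759936513) (nat_lit 2)) (.cons (.ev (nat_lit 2663709136276152288904180176303292931) (nat_lit 2)) (.cons (.br (nat_lit 7) (nat_lit 0) (.cons (.ev (nat_lit 4094027439598682914267169505377014646277) (nat_lit 4)) (.cons (.br (nat_lit 10) (nat_lit 0) (.cons (.ev (nat_lit 1361134680581793984523007244218556351491) (nat_lit 3)) .nil)) .nil))) (.cons (.ev (nat_lit 1344845689483185276906746732007784706) (nat_lit 2)) .nil))))) .nil)))))) (.cons (.br (nat_lit 7) (nat_lit 0) (.cons (.br (nat_lit 12) (nat_lit 0) (.cons (.ev (nat_lit 2663750175850228732847435545214714887) (nat_lit 3)) (.cons (.br (nat_lit 15) (nat_lit 0) (.cons (.ev (nat_lit 340287579579435973401276597240808341505) (nat_lit 1)) (.cons (.br (nat_lit 16) (nat_lit 0) (.cons (.zr (nat_lit 1361165813762384985610557900352823363584) (nat_lit 7975429297307286000386904122323894275) (nat_lit 16) (nat_lit 11)) .nil)) .nil))) (.cons (.br (nat_lit 15) (nat_lit 0) (.cons (.br (nat_lit 16) (nat_lit 0) (.cons (.zr (nat_lit 1361155429168667915992194327507701465088) (nat_lit 7975388732488088141779584908357796869) (nat_lit 16) (nat_lit 5)) .nil)) (.cons (.ev (nat_lit 87112285931839476022786421995223375675393) (nat_lit 1)) .nil))) .nil)))) (.cons (.br (nat_lit 10) (nat_lit 0) (.cons (.ev (nat_lit 5253302546093403765893352816377857) (nat_lit 2)) (.cons (.br (nat_lit 16) (nat_lit 0) (.cons (.ev (nat_lit 340287579579435973401276597240808341505) (nat_lit 1)) (.cons (.ev (nat_lit 340287559297334650555902330108209332480) (nat_lit 1)) .nil))) (.cons (.rf (nat_lit 271) (nat_lit 677428726380714155443324960)) .nil)))) (.cons (.br (nat_lit 10) (nat_lit 0) (.cons (.ev (nat_lit 5253302546093403765330394273022467) (nat_lit 2)) (.cons (.br (nat_lit 16) (nat_lit 0) (.cons (.ev (nat_lit 341616787213583127830611844159256920320) (nat_lit 1)) (.cons (.ev (nat_lit 341611594917032869068466525004923731968) (nat_lit 1)) .nil))) (.cons (.br (nat_lit 17) (nat_lit 0) (.cons (.ev (nat_lit 87113615180038442375074365687238399885568) (nat_lit 1)) (.cons (.ev (nat_lit 87113620372335609186004370354282780753920) (nat_lit 1)) .nil))) .nil)))) (.cons (.br (nat_lit 10) (nat_lit 0) (.cons (.br (nat_lit 15) (nat_lit 0) (.cons (.ev (nat_lit 340287579579435973401276597240808341505) (nat_lit 1)) (.cons (.rf (nat_lit 197) (nat_lit 661502769404426285392257)) .nil))) (.cons (.br (nat_lit 16) (nat_lit 0) (.cons (.ev (nat_lit 341616787213583127830611844159256920320) (nat_lit 1)) (.cons (.ev (nat_lit 341611594917032869068466525004923731968) (nat_lit 1)) .nil))) (.cons (.br (nat_lit 12) (nat_lit 0) (.cons (.ev (nat_lit 2663750175850228732848561462301425667) (nat_lit 3)) (.cons (.ev (nat_lit 340282387282885714639130715145111666945) (nat_lit 1)) .nil))) (.cons (.br (nat_lit 12) (nat_lit 0) (.cons (.ev (nat_lit 5212898040130669508814491550614535) (nat_lit 3)) (.cons (.ev (nat_lit 1361134680581794003486260151991975412739) (nat_lit 3)) (.cons (.ev (nat_lit 348449148939939026736128358606512891232259) (nat_lit 3)) .nil)))) .nil))))) (.cons (.br (nat_lit 10) (nat_lit 0) (.cons (.br (nat_lit 15) (nat_lit 0) (.cons (.rf (nat_lit 456) (nat_lit 20662810436222607208609)) (.cons (.ev (nat_lit 87112285931839476022786421995223375675393) (nat_lit 1)) .nil))) (.cons (.br (nat_lit 12) (nat_lit 0) (.cons (.rf (nat_lit 358) (nat_lit 21165035900823051756996640)) (.cons (.ev (nat_lit 87113615180038442375074365687238399885568) (nat_lit 1)) .nil))) (.cons (.br (nat_lit 12) (nat_lit 0) (.cons (.ev (nat_lit 5212898040130669508814491550614535) (nat_lit 3)) (.cons (.ev (nat_lit 1361134680581794003486259026109248438279) (nat_lit 3)) (.cons (.ev (nat_lit 348449148939939026736128359732395618206727) (nat_lit 3)) .nil)))) (.cons (.br (nat_lit 12) (nat_lit 0) (.cons (.ev (nat_lit 2663750175850228732848561462301425667) (nat_lit 3)) (.cons (.ev (nat_lit 87112291124136642833716427225209120030977) (nat_lit 1)) .nil))) .nil))))) .nil)))))) .nil))))))) .nil))))))) (.cons (.br (nat_lit 10) (nat_lit 0) (.cons (.br (nat_lit 7) (nat_lit 0) (.cons (.ev (nat_lit 79231789328760785920420020483) (nat_lit 2)) (.cons (.ev (nat_lit 5212579889540536127348009936617987) (nat_lit 2)) (.cons (.br (nat_lit 5) (nat_lit 0) (.cons (.kr (nat_lit 20283028578393823712142421917697) (nat_lit 2663648288428366591883170169887916032) (nat_lit 0) (nat_lit 1)) (.cons (.br (nat_lit 11) (nat_lit 0) (.cons (.ev (nat_lit 5212738343447713016796129075003393) (nat_lit 2)) (.cons (.rf (nat_lit 1) (nat_lit 582035954870337)) .nil))) .nil))) (.cons (.br (nat_lit 11) (nat_lit 0) (.cons (.br (nat_lit 15) (nat_lit 0) (.cons (.ev (nat_lit 7980621120658591633907261699002467847) (nat_lit 3)) (.cons (.rf (nat_lit 1) (nat_lit 582169033844801)) .nil))) (.cons (.ev (nat_lit 5212579889531128287870418031738883) (nat_lit 2)) (.cons (.br (nat_lit 5) (nat_lit 0) (.cons (.ev (nat_lit 7980621120658591633907261699002467847) (nat_lit 3)) (.cons (.ev (nat_lit 5212738343447713016796129075003393) (nat_lit 2)) (.cons (.br (nat_lit 16) (nat_lit 0) (.cons (.ev (nat_lit 340282387203658765791499218020290527233) (nat_lit 1)) (.cons (.ev (nat_lit 340287559297334650555902330108209332225) (nat_lit 1)) .nil))) .nil)))) (.cons (.br (nat_lit 5) (nat_lit 0) (.cons (.rf (nat_lit 1) (nat_lit 582035889858625)) (.cons (.br (nat_lit 15) (nat_lit 0) (.cons (.ev (nat_lit 341616787292810081419056849698114568192) (nat_lit 1)) (.cons (.rf (nat_lit 537) (nat_lit 21174442659472845043668003)) .nil))) (.cons (.ev (nat_lit 5212738343447713016796129075003393) (nat_lit 2)) .nil)))) .nil))))) .nil))))) (.cons (.br (nat_lit 7) (nat_lit 0) (.cons (.ev (nat_lit 79231789328760785920403243264) (nat_lit 2)) (.cons (.ev (nat_lit 5212579889540536127348009903063553) (nat_lit 2)) (.cons (.br (nat_lit 2) (nat_lit 0) (.cons (.kr (nat_lit 2663648288428366591883170169871138817) (nat_lit 20283028578393823712142438694912) (nat_lit 0) (nat_lit 1)) (.cons (.br (nat_lit 11) (nat_lit 0) (.cons (.ev (nat_lit 5212738343447713016796129075003393) (nat_lit 2)) (.cons (.rf (nat_lit 1) (nat_lit 582035951724705)) .nil))) .nil))) (.cons (.br (nat_lit 11) (nat_lit 0) (.cons (.br (nat_lit 15) (nat_lit 0) (.cons (.ev (nat_lit 7980621120658591633907261699036022277) (nat_lit 3)) (.cons (.rf (nat_lit 1) (nat_lit 582167960104001)) .nil))) (.cons (.ev (nat_lit 5212579889531128287870418065293313) (nat_lit 2)) (.cons (.br (nat_lit 2) (nat_lit 0) (.cons (.ev (nat_lit 7980621120658591633907261699036022277) (nat_lit 3)) (.cons (.ev (nat_lit 5212738343447713016796129075003393) (nat_lit 2)) (.cons (.rf (nat_lit 536) (nat_lit 677582165103132179601393696)) .nil)))) (.cons (.br (nat_lit 2) (nat_lit 0) (.cons (.rf (nat_lit 1) (nat_lit 582030521154625)) (.cons (.br (nat_lit 15) (nat_lit 0) (.cons (.ev (nat_lit 341616787292810081419056849698097790977) (nat_lit 1)) (.cons (.rf (nat_lit 537) (nat_lit 21174442659472845144426528)) .nil))) (.cons (.ev (nat_lit 5212738343447713016796129075003393) (nat_lit 2)) .nil)))) .nil))))) .nil))))) (.cons (.br (nat_lit 11) (nat_lit 0) (.cons (.ev (nat_lit 5212579889540536127348009936617987) (nat_lit 2)) (.cons (.ev (nat_lit 5212579889540536127348009903063553) (nat_lit 2)) (.cons (.kr (nat_lit 5192297477504865862079895564189697) (nat_lit 2658476273979440119844802416745644032) (nat_lit 0) (nat_lit 1)) (.cons (.br (nat_lit 15) (nat_lit 0) (.cons (.ev (nat_lit 2663668570840392854597472539172143107) (nat_lit 2)) (.cons (.ev (nat_lit 2663668570840392854597472539205697537) (nat_lit 2)) (.cons (.br (nat_lit 2) (nat_lit 0) (.cons (.ev (nat_lit 2663790425616104518607567361371406337) (nat_lit 3)) (.cons (.ev (nat_lit 340287559218107692226644379105268596736) (nat_lit 1)) (.cons (.br (nat_lit 5) (nat_lit 0) (.cons (.ev (nat_lit 340282387203658765791499218020273750016) (nat_lit 1)) (.cons (.br (nat_lit 16) (nat_lit 0) (.cons (.zr (nat_lit 1361129569095801872204084269853351872512) (nat_lit 2663648447506084195757620931548282883) (nat_lit 16) (nat_lit 12)) .nil)) .nil))) .nil)))) (.cons (.br (nat_lit 2) (nat_lit 0) (.cons (.rf (nat_lit 1) (nat_lit 582168031401025)) (.cons (.br (nat_lit 5) (nat_lit 0) (.cons (.ev (nat_lit 1361134802432851040329133364540892120579) (nat_lit 3)) (.cons (.br (nat_lit 16) (nat_lit 0) (.cons (.ev (nat_lit 2735556631841017444173551353967695235079) (nat_lit 4)) .nil)) .nil))) (.cons (.br (nat_lit 5) (nat_lit 0) (.cons (.br (nat_lit 16) (nat_lit 0) (.cons (.ev (nat_lit 2735556631841017444173551353967829452815) (nat_lit 4)) .nil)) (.cons (.ev (nat_lit 348449149061473175939654202266815431837191) (nat_lit 3)) .nil))) .nil)))) .nil))))) .nil))))) (.cons (.ev (nat_lit 5212579889540536127910951300104707) (nat_lit 2)) (.cons (.br (nat_lit 7) (nat_lit 0) (.cons (.ev (nat_lit 2663668570840402262436950131077022211) (nat_lit 2)) (.cons (.ev (nat_lit 2663668570840402262436950131043467777) (nat_lit 2)) (.cons (.ev (nat_lit 18614526217819146745315678694833914373) (nat_lit 4)) (.cons (.br (nat_lit 11) (nat_lit 0) (.cons (.ev (nat_lit 5212579889531128287870418031738883) (nat_lit 2)) (.cons (.ev (nat_lit 5212579889531128287870418065293313) (nat_lit 2)) (.cons (.br (nat_lit 2) (nat_lit 0) (.cons (.ev (nat_lit 5253306269603928469464536062231557) (nat_lit 4)) (.cons (.ev (nat_lit 340287559218107692226644379105268596736) (nat_lit 1)) (.cons (.br (nat_lit 5) (nat_lit 0) (.cons (.ev (nat_lit 340282387203658765791499218020273750016) (nat_lit 1)) (.cons (.br (nat_lit 16) (nat_lit 0) (.cons (.ev (nat_lit 1361134802115943197604262082937291408391) (nat_lit 3)) .nil)) .nil))) .nil)))) (.cons (.br (nat_lit 2) (nat_lit 0) (.cons (.rf (nat_lit 1) (nat_lit 582036057625665)) (.cons (.br (nat_lit 5) (nat_lit 0) (.cons (.ev (nat_lit 5334749097177067796583139068216323) (nat_lit 3)) (.cons (.br (nat_lit 16) (nat_lit 0) (.cons (.zr (nat_lit 1374458093878071499256104120470116370944) (nat_lit 223108362564413281553553979080715) (nat_lit 16) (nat_lit 15)) .nil)) .nil))) (.cons (.br (nat_lit 5) (nat_lit 0) (.cons (.br (nat_lit 16) (nat_lit 0) (.cons (.zr (nat_lit 1374458093878071499256104120470116370944) (nat_lit 223108362564413281553554046189575) (nat_lit 16) (nat_lit 15)) .nil)) (.cons (.ev (nat_lit 5322246733474761635154927605678211075) (nat_lit 3)) .nil))) .nil)))) .nil))))) .nil))))) (.cons (.br (nat_lit 2) (nat_lit 0) (.cons (.br (nat_lit 7) (nat_lit 0) (.cons (.br (nat_lit 15) (nat_lit 0) (.cons (.ev (nat_lit 2663668570840392854596909580628787203) (nat_lit 2)) (.cons (.rf (nat_lit 1) (nat_lit 582169104094273)) .nil))) (.cons (.ev (nat_lit 2663668729294309439326398250248962051) (nat_lit 2)) (.cons (.br (nat_lit 11) (nat_lit 0) (.cons (.ev (nat_lit 2663668570840392854596909580628787203) (nat_lit 2)) (.cons (.ev (nat_lit 340282387282885714639130715145094889473) (nat_lit 1)) (.cons (.br (nat_lit 15) (nat_lit 0) (.cons (.ev (nat_lit 2663668729294300031486920658344083971) (nat_lit 2)) (.cons (.rf (nat_lit 45) (nat_lit 625092582867249567729696)) .nil))) .nil)))) (.cons (.br (nat_lit 15) (nat_lit 0) (.cons (.rf (nat_lit 1) (nat_lit 616086591902785)) (.cons (.rf (nat_lit 538) (nat_lit 21174442659471745632798752)) (.cons (.ev (nat_lit 2663668729294300031486920658344083971) (nat_lit 2)) .nil)))) .nil))))) (.cons (.br (nat_lit 5) (nat_lit 0) (.cons (.ev (nat_lit 5212738343447713017359087651913731) (nat_lit 2)) (.cons (.ev (nat_lit 2663668729294309439326398250248962051) (nat_lit 2)) (.cons (.ev (nat_lit 5334749097186475636060730973095431) (nat_lit 3)) (.cons (.br (nat_lit 11) (nat_lit 0) (.cons (.kr (nat_lit 1329227995784915872903807064575311872) (nat_lit 309485009893402662762708992) (nat_lit 4) (nat_lit 0)) (.cons (.br (nat_lit 15) (nat_lit 0) (.cons (.ev (nat_lit 7980621120658591633907261698968913409) (nat_lit 3)) (.cons (.rf (nat_lit 295) (nat_lit 19519223834505340367909)) .nil))) (.cons (.br (nat_lit 15) (nat_lit 0) (.cons (.rf (nat_lit 2) (nat_lit 20193522092984376385)) (.cons (.ev (nat_lit 2663709453188821272753860881093494277) (nat_lit 3)) .nil))) .nil)))) .nil))))) (.cons (.br (nat_lit 5) (nat_lit 0) (.cons (.ev (nat_lit 5212738343447713017359087618359297) (nat_lit 2)) (.cons (.ev (nat_lit 5212738343438305177881495780590081) (nat_lit 2)) (.cons (.br (nat_lit 7) (nat_lit 0) (.cons (.kr (nat_lit 2663648288428366591883170169871138817) (nat_lit 20283028578393823712142438694912) (nat_lit 0) (nat_lit 1)) (.cons (.ev (nat_lit 340287559218107696967457324569351684353) (nat_lit 1)) (.cons (.br (nat_lit 15) (nat_lit 0) (.cons (.ev (nat_lit 340287559297334645815089103164854567168) (nat_lit 1)) (.cons (.br (nat_lit 16) (nat_lit 0) (.cons (.zr (nat_lit 1361155429168046528120768290746278084608) (nat_lit 2658476433057162464532480121710445569) (nat_lit 16) (nat_lit 5)) .nil)) .nil))) .nil)))) (.cons (.br (nat_lit 7) (nat_lit 0) (.cons (.kr (nat_lit 2663648288428366591883170169871138817) (nat_lit 20283028578393823712142438694912) (nat_lit 0) (nat_lit 1)) (.cons (.br (nat_lit 15) (nat_lit 0) (.cons (.ev (nat_lit 1363793176820034841956794439186079811073) (nat_lit 3)) (.cons (.ev (nat_lit 2663872504754567036688211577154699271) (nat_lit 4)) .nil))) (.cons (.br (nat_lit 15) (nat_lit 0) (.cons (.ev (nat_lit 2663871870938938329128167266159298575) (nat_lit 4)) (.cons (.ev (nat_lit 348457124348478553011298964249168857794049) (nat_lit 3)) .nil))) .nil)))) .nil))))) (.cons (.br (nat_lit 5) (nat_lit 0) (.cons (.ev (nat_lit 2663668729294309439326398250248962051) (nat_lit 2)) (.cons (.ev (nat_lit 5212738343438305177881495747035651) (nat_lit 2)) (.cons (.br (nat_lit 7) (nat_lit 0) (.cons (.ev (nat_lit 5334432189362714016560983704731655) (nat_lit 3)) (.cons (.ev (nat_lit 1361134802115943216567516116593437442051) (nat_lit 3)) (.cons (.br (nat_lit 11) (nat_lit 0) (.cons (.ev (nat_lit 1366451714100320801134875586977134150659) (nat_lit 3)) (.cons (.ev (nat_lit 1329228075945169638896329659684815617) (nat_lit 2)) .nil))) .nil)))) (.cons (.br (nat_lit 7) (nat_lit 0) (.cons (.rf (nat_lit 1) (nat_lit 616082160630849)) (.cons (.br (nat_lit 11) (nat_lit 0) (.cons (.ev (nat_lit 1369110088804412445487406817308768732673) (nat_lit 3)) (.cons (.ev (nat_lit 1329228075945169638896329659684815617) (nat_lit 2)) .nil))) (.cons (.br (nat_lit 11) (nat_lit 0) (.cons (.ev (nat_lit 1344825407384280246422335906971321090) (nat_lit 2)) (.cons (.ev (nat_lit 348457124348478553011298964249168857794049) (nat_lit 3)) .nil))) .nil)))) .nil))))) (.cons (.br (nat_lit 5) (nat_lit 0) (.cons (.ev (nat_lit 5334749097186475636060730905986563) (nat_lit 3)) (.cons (.br (nat_lit 7) (nat_lit 0) (.cons (.kr (nat_lit 20283028578393823712142421917697) (nat_lit 2663648288428366591883170169887916032) (nat_lit 0) (nat_lit 1)) (.cons (.ev (nat_lit 340287559218107696967457324569351684353) (nat_lit 1)) (.cons (.br (nat_lit 15) (nat_lit 0) (.cons (.ev (nat_lit 340287559297334645815089103164854567168) (nat_lit 1)) (.cons (.rf (nat_lit 539) (nat_lit 677582165103132179601393696)) .nil))) .nil)))) (.cons (.br (nat_lit 7) (nat_lit 0) (.cons (.ev (nat_lit 5334432189362714016560983704731655) (nat_lit 3)) (.cons (.ev (nat_lit 1361134802115943216567516116593504550919) (nat_lit 3)) (.cons (.br (nat_lit 11) (nat_lit 0) (.cons (.ev (nat_lit 1366451714100320801134875586977134150659) (nat_lit 3)) (.cons (.ev (nat_lit 1329228075945169638896329659668038402) (nat_lit 2)) .nil))) .nil)))) (.cons (.br (nat_lit 7) (nat_lit 0) (.cons (.ev (nat_lit 340287559218107696967457324569351684353) (nat_lit 1)) (.cons (.ev (nat_lit 2663668729294309439326398250215407617) (nat_lit 2)) (.cons (.br (nat_lit 15) (nat_lit 0) (.cons (.ev (nat_lit 340282387203658765791499499499545427968) (nat_lit 1)) (.cons (.ev (nat_lit 2663668729294300031486920658377638401) (nat_lit 2)) .nil))) .nil)))) (.cons (.br (nat_lit 7) (nat_lit 0) (.cons (.br (nat_lit 15) (nat_lit 0) (.cons (.ev (nat_lit 2663668570840392854596909580628787203) (nat_lit 2)) (.cons (.rf (nat_lit 258) (nat_lit 19529888369649987426465)) .nil))) (.cons (.br (nat_lit 16) (nat_lit 0) (.cons (.ev (nat_lit 341616787213583127830611844159256920320) (nat_lit 1)) (.cons (.ev (nat_lit 341616787292810081419056849698097790977) (nat_lit 1)) .nil))) (.cons (.br (nat_lit 15) (nat_lit 0) (.cons (.ev (nat_lit 2663668570840392854596909580628787203) (nat_lit 2)) (.cons (.ev (nat_lit 2663668729294300031486920658377638401) (nat_lit 2)) .nil))) (.cons (.br (nat_lit 15) (nat_lit 0) (.cons (.rf (nat_lit 295) (nat_lit 19529888369649987426341)) (.cons (.ev (nat_lit 2663668729294300031486920658377638401) (nat_lit 2)) (.cons (.rf (nat_lit 539) (nat_lit 677582165103132179601393696)) .nil)))) .nil))))) .nil)))))) (.cons (.br (nat_lit 5) (nat_lit 0) (.cons (.br (nat_lit 11) (nat_lit 0) (.cons (.kr (nat_lit 309485009893402662762708993) (nat_lit 1329227995784915872903807064592089088) (nat_lit 0) (nat_lit 1)) (.cons (.br (nat_lit 15) (nat_lit 0) (.cons (.ev (nat_lit 7980621120658591633907261699069576707) (nat_lit 3)) (.cons (.rf (nat_lit 103) (nat_lit 19987792149255309094818851)) .nil))) (.cons (.br (nat_lit 15) (nat_lit 0) (.cons (.rf (nat_lit 2) (nat_lit 20193522092981230753)) (.cons (.ev (nat_lit 2663709453188821272753860881127048707) (nat_lit 3)) .nil))) .nil)))) (.cons (.br (nat_lit 7) (nat_lit 0) (.cons (.kr (nat_lit 20283028578393823712142421917697) (nat_lit 2663648288428366591883170169887916032) (nat_lit 0) (nat_lit 1)) (.cons (.br (nat_lit 15) (nat_lit 0) (.cons (.ev (nat_lit 1363793176820034841956794439186180474371) (nat_lit 3)) (.cons (.ev (nat_lit 2663872504754567036688211577121144841) (nat_lit 4)) .nil))) (.cons (.br (nat_lit 15) (nat_lit 0) (.cons (.ev (nat_lit 2663871870938938329128167266125744129) (nat_lit 4)) (.cons (.ev (nat_lit 348457124348478553011298964249168824239619) (nat_lit 3)) .nil))) .nil)))) (.cons (.br (nat_lit 7) (nat_lit 0) (.cons (.rf (nat_lit 1) (nat_lit 616082157485217)) (.cons (.br (nat_lit 11) (nat_lit 0) (.cons (.ev (nat_lit 1369110088804412445487406817308802287111) (nat_lit 3)) (.cons (.ev (nat_lit 1329228075945169638896329659668038402) (nat_lit 2)) .nil))) (.cons (.br (nat_lit 11) (nat_lit 0) (.cons (.ev (nat_lit 1344825407384280246422335907021652739) (nat_lit 2)) (.cons (.ev (nat_lit 348457124348478553011298964249168824239619) (nat_lit 3)) .nil))) .nil)))) (.cons (.br (nat_lit 7) (nat_lit 0) (.cons (.br (nat_lit 15) (nat_lit 0) (.cons (.ev (nat_lit 2663668570840392854596909580628787203) (nat_lit 2)) (.cons (.br (nat_lit 16) (nat_lit 0) (.cons (.ev (nat_lit 341611615199134196654654019080843952128) (nat_lit 1)) .nil)) .nil))) (.cons (.br (nat_lit 16) (nat_lit 0) (.cons (.ev (nat_lit 341616787213583127830611844159240143105) (nat_lit 1)) (.cons (.ev (nat_lit 341616787292810081419056849698114568192) (nat_lit 1)) .nil))) (.cons (.br (nat_lit 15) (nat_lit 0) (.cons (.ev (nat_lit 2663668570840392854596909580628787203) (nat_lit 2)) (.cons (.ev (nat_lit 2663668729294300031486920658377638401) (nat_lit 2)) .nil))) (.cons (.br (nat_lit 15) (nat_lit 0) (.cons (.br (nat_lit 16) (nat_lit 0) (.cons (.ev (nat_lit 341611615199134196654654019080843952128) (nat_lit 1)) .nil)) (.cons (.ev (nat_lit 2663668729294300031486920658377638401) (nat_lit 2)) (.cons (.rf (nat_lit 257) (nat_lit 21169752578273259137537059)) .nil)))) .nil))))) (.cons (.br (nat_lit 7) (nat_lit 0) (.cons (.br (nat_lit 15) (nat_lit 0) (.cons (.ev (nat_lit 2663668570840392854596909580628787203) (nat_lit 2)) (.cons (.ev (nat_lit 87113615180117669328662810411306559012865) (nat_lit 1)) .nil))) (.cons (.ev (nat_lit 2663668729294309439326398250215407617) (nat_lit 2)) (.cons (.br (nat_lit 15) (nat_lit 0) (.cons (.ev (nat_lit 2663668570840392854596909580628787203) (nat_lit 2)) (.cons (.ev (nat_lit 2663668729294300031486920658377638401) (nat_lit 2)) (.cons (.ev (nat_lit 87113620352052891310991137020730815807745) (nat_lit 1)) .nil)))) (.cons (.br (nat_lit 15) (nat_lit 0) (.cons (.ev (nat_lit 87113615180117669333403623638249930555649) (nat_lit 1)) (.cons (.ev (nat_lit 87113615180038442379815178632711056130048) (nat_lit 1)) .nil))) .nil))))) .nil)))))) .nil))))))) .nil))))))) (.cons (.br (nat_lit 2) (nat_lit 0) (.cons (.br (nat_lit 11) (nat_lit 0) (.cons (.ev (nat_lit 2663709136276152288903617217793490947) (nat_lit 2)) (.cons (.ev (nat_lit 2663668572083197005003634795857708547) (nat_lit 3)) (.cons (.ev (nat_lit 2663709136276161770530071104469467651) (nat_lit 2)) (.cons (.br (nat_lit 10) (nat_lit 0) (.cons (.br (nat_lit 12) (nat_lit 0) (.cons (.ev (nat_lit 2663790425616104518607567361371406337) (nat_lit 3)) (.cons (.rf (nat_lit 1) (nat_lit 582064952284225)) .nil))) (.cons (.br (nat_lit 7) (nat_lit 0) (.cons (.ev (nat_lit 2663790425616094963194137179790115329) (nat_lit 3)) (.cons (.rf (nat_lit 1) (nat_lit 616117696959553)) .nil))) (.cons (.ev (nat_lit 5212579889531128287870418031739393) (nat_lit 2)) (.cons (.br (nat_lit 7) (nat_lit 0) (.cons (.rf (nat_lit 1) (nat_lit 616117599441985)) (.cons (.br (nat_lit 12) (nat_lit 0) (.cons (.ev (nat_lit 341616807496301007547765479448487461120) (nat_lit 1)) (.cons (.rf (nat_lit 45) (nat_lit 624982009397417680668704)) .nil))) (.cons (.rf (nat_lit 239) (nat_lit 677426365195047200122570784)) .nil)))) .nil))))) .nil))))) (.cons (.br (nat_lit 5) (nat_lit 0) (.cons (.br (nat_lit 11) (nat_lit 0) (.cons (.ev (nat_lit 5294184899367006827752658609111047) (nat_lit 3)) (.cons (.rf (nat_lit 540) (nat_lit 19926519232773908561233952)) .nil))) (.cons (.br (nat_lit 10) (nat_lit 0) (.cons (.kr (nat_lit 79537647524157740256306659584) (nat_lit 1329227995786124798723422788966744064) (nat_lit 1) (nat_lit 0)) (.cons (.br (nat_lit 12) (nat_lit 0) (.cons (.ev (nat_lit 5253302546102885392347239492354051) (nat_lit 2)) (.cons (.rf (nat_lit 1) (nat_lit 582065957870657)) .nil))) .nil))) (.cons (.br (nat_lit 10) (nat_lit 0) (.cons (.kr (nat_lit 79537647524157740256306659584) (nat_lit 1329227995786124798723422788966744064) (nat_lit 1) (nat_lit 0)) (.cons (.br (nat_lit 11) (nat_lit 0) (.cons (.ev (nat_lit 5212579889531128287870418031739393) (nat_lit 2)) (.cons (.rf (nat_lit 1) (nat_lit 582032671874113)) .nil))) .nil))) (.cons (.br (nat_lit 16) (nat_lit 0) (.cons (.rf (nat_lit 541) (nat_lit 19926519232773908561233952)) (.cons (.ev (nat_lit 2663709136276152288903617217759936513) (nat_lit 2)) (.cons (.ev (nat_lit 2663668729294309439326398250215408131) (nat_lit 2)) (.cons (.br (nat_lit 16) (nat_lit 0) (.cons (.rf (nat_lit 541) (nat_lit 19926519232773908561233952)) (.cons (.ev (nat_lit 2663709136276152288903617217759936513) (nat_lit 2)) (.cons (.ev (nat_lit 2663668729294309439326398250215408131) (nat_lit 2)) .nil)))) .nil))))) .nil))))) (.cons (.br (nat_lit 5) (nat_lit 0) (.cons (.br (nat_lit 11) (nat_lit 0) (.cons (.ev (nat_lit 5294184899367006827752658709774337) (nat_lit 3)) (.cons (.rf (nat_lit 540) (nat_lit 19926519232773908460475427)) .nil))) (.cons (.ev (nat_lit 5212579889531128287870418065293827) (nat_lit 2)) (.cons (.br (nat_lit 7) (nat_lit 0) (.cons (.ev (nat_lit 5294184899357598988275066804896257) (nat_lit 3)) (.cons (.rf (nat_lit 542) (nat_lit 19926519232773908561233952)) .nil))) (.cons (.br (nat_lit 7) (nat_lit 0) (.cons (.br (nat_lit 12) (nat_lit 0) (.cons (.ev (nat_lit 2663668729294309439325835308851921411) (nat_lit 2)) (.cons (.rf (nat_lit 1) (nat_lit 582066019739713)) .nil))) (.cons (.ev (nat_lit 5253302546093403765893352816378371) (nat_lit 2)) (.cons (.br (nat_lit 11) (nat_lit 0) (.cons (.ev (nat_lit 2663668729294309439325835308851921411) (nat_lit 2)) (.cons (.ev (nat_lit 340287559218107692226644379105285374208) (nat_lit 1)) (.cons (.br (nat_lit 12) (nat_lit 0) (.cons (.ev (nat_lit 5253302546102885392347239492354051) (nat_lit 2)) (.cons (.rf (nat_lit 103) (nat_lit 19998304562822373511890976)) .nil))) .nil)))) (.cons (.br (nat_lit 12) (nat_lit 0) (.cons (.rf (nat_lit 1) (nat_lit 581895429007425)) (.cons (.rf (nat_lit 248) (nat_lit 677426365195047200122570784)) (.cons (.ev (nat_lit 5253302546102885392347239492354051) (nat_lit 2)) .nil)))) .nil))))) .nil))))) (.cons (.br (nat_lit 5) (nat_lit 0) (.cons (.br (nat_lit 10) (nat_lit 0) (.cons (.kr (nat_lit 79537647524157740256306659584) (nat_lit 1329227995786124798723422788966744064) (nat_lit 1) (nat_lit 0)) (.cons (.br (nat_lit 12) (nat_lit 0) (.cons (.ev (nat_lit 5253302546102885392347239525908481) (nat_lit 2)) (.cons (.rf (nat_lit 1) (nat_lit 582061662907457)) .nil))) .nil))) (.cons (.ev (nat_lit 5212579889531128287870418065293827) (nat_lit 2)) (.cons (.br (nat_lit 7) (nat_lit 0) (.cons (.kr (nat_lit 79537647524157740256306659584) (nat_lit 1329227995786124798723422788966744064) (nat_lit 1) (nat_lit 0)) (.cons (.br (nat_lit 10) (nat_lit 0) (.cons (.ev (nat_lit 5253302546102885392347239525908481) (nat_lit 2)) (.cons (.rf (nat_lit 1) (nat_lit 581998308994113)) .nil))) .nil))) (.cons (.br (nat_lit 7) (nat_lit 0) (.cons (.br (nat_lit 12) (nat_lit 0) (.cons (.ev (nat_lit 2663668729294309439325835308851921411) (nat_lit 2)) (.cons (.rf (nat_lit 1) (nat_lit 582064945998913)) .nil))) (.cons (.br (nat_lit 10) (nat_lit 0) (.cons (.ev (nat_lit 7980702724425651732845708409590645251) (nat_lit 3)) (.cons (.rf (nat_lit 1) (nat_lit 581998374005825)) .nil))) (.cons (.br (nat_lit 10) (nat_lit 0) (.cons (.ev (nat_lit 2663668729294309439325835308851921411) (nat_lit 2)) (.cons (.ev (nat_lit 1374427203612264707034533882987404722693) (nat_lit 4)) (.cons (.br (nat_lit 12) (nat_lit 0) (.cons (.ev (nat_lit 341611615278361150243098743149036634112) (nat_lit 1)) (.cons (.br (nat_lit 16) (nat_lit 0) (.cons (.zr (nat_lit 1363813885159618777718215136324144463872) (nat_lit 20759635502963716595569003594753) (nat_lit 16) (nat_lit 5)) .nil)) .nil))) .nil)))) (.cons (.br (nat_lit 10) (nat_lit 0) (.cons (.rf (nat_lit 1) (nat_lit 581895395454017)) (.cons (.br (nat_lit 12) (nat_lit 0) (.cons (.ev (nat_lit 1374427203612264726145360743350298873349) (nat_lit 4)) (.cons (.br (nat_lit 16) (nat_lit 0) (.cons (.ev (nat_lit 683223210353850349044157515854344487683) (nat_lit 2)) .nil)) .nil))) (.cons (.br (nat_lit 12) (nat_lit 0) (.cons (.br (nat_lit 16) (nat_lit 0) (.cons (.zr (nat_lit 1363813885159618782366794642899018579968) (nat_lit 20759635488796617146960067954689) (nat_lit 16) (nat_lit 5)) .nil)) (.cons (.ev (nat_lit 87112291124057415880127982219670262382593) (nat_lit 1)) .nil))) .nil)))) .nil))))) .nil))))) (.cons (.br (nat_lit 5) (nat_lit 0) (.cons (.br (nat_lit 10) (nat_lit 0) (.cons (.kr (nat_lit 79537647524157740256306659584) (nat_lit 1329227995786124798723422788966744064) (nat_lit 1) (nat_lit 0)) (.cons (.br (nat_lit 11) (nat_lit 0) (.cons (.ev (nat_lit 5212579889531128287870418031739393) (nat_lit 2)) (.cons (.rf (nat_lit 1) (nat_lit 582027303170113)) .nil))) .nil))) (.cons (.br (nat_lit 7) (nat_lit 0) (.cons (.ev (nat_lit 5294184899357598988275066838450695) (nat_lit 3)) (.cons (.rf (nat_lit 542) (nat_lit 19926519232773908460475427)) .nil))) (.cons (.br (nat_lit 7) (nat_lit 0) (.cons (.kr (nat_lit 79537647524157740256306659584) (nat_lit 1329227995786124798723422788966744064) (nat_lit 1) (nat_lit 0)) (.cons (.br (nat_lit 10) (nat_lit 0) (.cons (.ev (nat_lit 5253302546102885392347239492354051) (nat_lit 2)) (.cons (.rf (nat_lit 1) (nat_lit 581997235253313)) .nil))) .nil))) (.cons (.br (nat_lit 16) (nat_lit 0) (.cons (.ev (nat_lit 2663668729294300031486920658377637891) (nat_lit 2)) (.cons (.rf (nat_lit 543) (nat_lit 19926519232773908561233952)) (.cons (.ev (nat_lit 2663709136276161770530071104503022081) (nat_lit 2)) (.cons (.br (nat_lit 16) (nat_lit 0) (.cons (.ev (nat_lit 2663668729294300031486920658377637891) (nat_lit 2)) (.cons (.rf (nat_lit 543) (nat_lit 19926519232773908561233952)) (.cons (.ev (nat_lit 2663709136276161770530071104503022081) (nat_lit 2)) .nil)))) .nil))))) .nil))))) (.cons (.br (nat_lit 5) (nat_lit 0) (.cons (.br (nat_lit 16) (nat_lit 0) (.cons (.rf (nat_lit 544) (nat_lit 19926519232773908561233952)) (.cons (.ev (nat_lit 2663709136276152288903617217759936513) (nat_lit 2)) (.cons (.ev (nat_lit 2663668729294309439326398250248962561) (nat_lit 2)) (.cons (.br (nat_lit 16) (nat_lit 0) (.cons (.rf (nat_lit 544) (nat_lit 19926519232773908561233952)) (.cons (.ev (nat_lit 2663709136276152288903617217759936513) (nat_lit 2)) (.cons (.ev (nat_lit 2663668729294309439326398250248962561) (nat_lit 2)) .nil)))) .nil))))) (.cons (.br (nat_lit 7) (nat_lit 0) (.cons (.br (nat_lit 12) (nat_lit 0) (.cons (.ev (nat_lit 2663668729294309439325835308851921411) (nat_lit 2)) (.cons (.rf (nat_lit 1) (nat_lit 582066016594081)) .nil))) (.cons (.ev (nat_lit 5253302546093403765893352782823937) (nat_lit 2)) (.cons (.br (nat_lit 11) (nat_lit 0) (.cons (.ev (nat_lit 2663668729294309439325835308851921411) (nat_lit 2)) (.cons (.ev (nat_lit 340287559218107692226644379105285374208) (nat_lit 1)) (.cons (.br (nat_lit 12) (nat_lit 0) (.cons (.ev (nat_lit 5253302546102885392347239525908481) (nat_lit 2)) (.cons (.rf (nat_lit 103) (nat_lit 19998304562822373508650019)) .nil))) .nil)))) (.cons (.br (nat_lit 12) (nat_lit 0) (.cons (.rf (nat_lit 1) (nat_lit 581895425861793)) (.cons (.br (nat_lit 11) (nat_lit 0) (.cons (.ev (nat_lit 340282387203658761050685991076935761921) (nat_lit 1)) (.cons (.rf (nat_lit 258) (nat_lit 20666565489222639521857)) .nil))) (.cons (.ev (nat_lit 5253302546102885392347239525908481) (nat_lit 2)) .nil)))) .nil))))) (.cons (.br (nat_lit 7) (nat_lit 0) (.cons (.br (nat_lit 12) (nat_lit 0) (.cons (.ev (nat_lit 2663668729294309439325835308851921411) (nat_lit 2)) (.cons (.rf (nat_lit 1) (nat_lit 582064942853281)) .nil))) (.cons (.br (nat_lit 10) (nat_lit 0) (.cons (.ev (nat_lit 7980702724425651732845708409557090821) (nat_lit 3)) (.cons (.rf (nat_lit 1) (nat_lit 581998370860193)) .nil))) (.cons (.br (nat_lit 10) (nat_lit 0) (.cons (.ev (nat_lit 2663668729294309439325835308851921411) (nat_lit 2)) (.cons (.ev (nat_lit 1374427203612264707034533882987337613833) (nat_lit 4)) (.cons (.br (nat_lit 12) (nat_lit 0) (.cons (.ev (nat_lit 341611615278361150243098743149019856897) (nat_lit 1)) (.cons (.br (nat_lit 16) (nat_lit 0) (.cons (.zr (nat_lit 1363813885159618777718215136324094132229) (nat_lit 20759635502963716595569053926400) (nat_lit 16) (nat_lit 2)) .nil)) .nil))) .nil)))) (.cons (.br (nat_lit 10) (nat_lit 0) (.cons (.rf (nat_lit 1) (nat_lit 581895392308385)) (.cons (.br (nat_lit 12) (nat_lit 0) (.cons (.ev (nat_lit 1374427203612264726145360743350500199945) (nat_lit 4)) (.cons (.rf (nat_lit 472) (nat_lit 677574928250766753143985187)) .nil))) (.cons (.br (nat_lit 12) (nat_lit 0) (.cons (.br (nat_lit 16) (nat_lit 0) (.cons (.zr (nat_lit 1363813885159618782366794642898917916677) (nat_lit 20759635488796617146960067954688) (nat_lit 16) (nat_lit 2)) .nil)) (.cons (.ev (nat_lit 87112291124057415880127982219670245605376) (nat_lit 1)) .nil))) .nil)))) .nil))))) (.cons (.br (nat_lit 16) (nat_lit 0) (.cons (.ev (nat_lit 2663668729294300031486920658344083457) (nat_lit 2)) (.cons (.rf (nat_lit 545) (nat_lit 19926519232773908561233952)) (.cons (.ev (nat_lit 2663709136276161770530071104503022081) (nat_lit 2)) (.cons (.br (nat_lit 16) (nat_lit 0) (.cons (.ev (nat_lit 2663668729294300031486920658344083457) (nat_lit 2)) (.cons (.rf (nat_lit 545) (nat_lit 19926519232773908561233952)) (.cons (.ev (nat_lit 2663709136276161770530071104503022081) (nat_lit 2)) .nil)))) .nil))))) (.cons (.br (nat_lit 11) (nat_lit 0) (.cons (.ev (nat_lit 2663709136276152288903617217759936513) (nat_lit 2)) (.cons (.br (nat_lit 7) (nat_lit 0) (.cons (.ev (nat_lit 5212739586223492619361957118477319) (nat_lit 3)) (.cons (.ev (nat_lit 1369110048240224344833000604438593146373) (nat_lit 4)) (.cons (.br (nat_lit 12) (nat_lit 0) (.cons (.ev (nat_lit 1369110048240224363648679559622402902533) (nat_lit 4)) (.cons (.rf (nat_lit 357) (nat_lit 21168429998039874846856227)) .nil))) .nil)))) (.cons (.ev (nat_lit 2663709136276161770530071104503022081) (nat_lit 2)) (.cons (.ev (nat_lit 341616807496301002843845740652568576000) (nat_lit 1)) (.cons (.br (nat_lit 10) (nat_lit 0) (.cons (.br (nat_lit 16) (nat_lit 0) (.cons (.ev (nat_lit 340287579579435973401276597240791564545) (nat_lit 1)) (.cons (.ev (nat_lit 681909579293679256142241811873837155073) (nat_lit 2)) .nil))) (.cons (.br (nat_lit 16) (nat_lit 0) (.cons (.ev (nat_lit 340287579579435973401276597240791564545) (nat_lit 1)) (.cons (.ev (nat_lit 681909579293679251438322073077884715009) (nat_lit 2)) .nil))) (.cons (.br (nat_lit 12) (nat_lit 0) (.cons (.ev (nat_lit 340287579579435973401276597240791564545) (nat_lit 1)) (.cons (.rf (nat_lit 502) (nat_lit 19522718460817987504171)) .nil))) (.cons (.ev (nat_lit 5212579889531128287870418031739393) (nat_lit 2)) .nil))))) .nil)))))) (.cons (.br (nat_lit 7) (nat_lit 0) (.cons (.br (nat_lit 11) (nat_lit 0) (.cons (.ev (nat_lit 5253302546102885391784280948998147) (nat_lit 2)) (.cons (.br (nat_lit 12) (nat_lit 0) (.cons (.ev (nat_lit 1361134761554221296066454585781818230287) (nat_lit 4)) (.cons (.br (nat_lit 16) (nat_lit 0) (.cons (.zr (nat_lit 1363793176819413454011292074221724893191) (nat_lit 477225885144946441537923843072) (nat_lit 16) (nat_lit 2)) .nil)) .nil))) (.cons (.br (nat_lit 12) (nat_lit 0) (.cons (.br (nat_lit 16) (nat_lit 0) (.cons (.zr (nat_lit 1361129569254877167252399750365981968384) (nat_lit 7980560271575288342335831574751608835) (nat_lit 16) (nat_lit 12)) .nil)) (.cons (.ev (nat_lit 348449149020911454028708554166185326806531) (nat_lit 4)) .nil))) .nil)))) (.cons (.br (nat_lit 12) (nat_lit 0) (.cons (.ev (nat_lit 5253302546093403765330394273022467) (nat_lit 2)) (.cons (.br (nat_lit 10) (nat_lit 0) (.cons (.ev (nat_lit 340282387203658761050686272556190662656) (nat_lit 1)) (.cons (.rf (nat_lit 546) (nat_lit 21174404575872212308953120)) .nil))) (.cons (.rf (nat_lit 359) (nat_lit 639913030428149281575670819)) .nil)))) (.cons (.br (nat_lit 10) (nat_lit 0) (.cons (.ev (nat_lit 5212739586223492619361957118477319) (nat_lit 3)) (.cons (.br (nat_lit 11) (nat_lit 0) (.cons (.ev (nat_lit 5212579889531128287870418031739393) (nat_lit 2)) (.cons (.rf (nat_lit 547) (nat_lit 20678166659639268182048)) .nil))) (.cons (.br (nat_lit 11) (nat_lit 0) (.cons (.rf (nat_lit 547) (nat_lit 19534468527069272740899)) (.cons (.ev (nat_lit 5212579889531128287870418031739393) (nat_lit 2)) .nil))) .nil)))) (.cons (.br (nat_lit 10) (nat_lit 0) (.cons (.br (nat_lit 12) (nat_lit 0) (.cons (.ev (nat_lit 1361134680742733452666940171287732947467) (nat_lit 4)) (.cons (.ev (nat_lit 1344865971586940122716781384116011520) (nat_lit 2)) .nil))) (.cons (.br (nat_lit 11) (nat_lit 0) (.cons (.ev (nat_lit 1361134761554221314882133540965627986447) (nat_lit 4)) (.cons (.br (nat_lit 16) (nat_lit 0) (.cons (.zr (nat_lit 1361129569254877190771998444345760940544) (nat_lit 7980560271575283638416092778815946755) (nat_lit 16) (nat_lit 7)) .nil)) .nil))) (.cons (.rf (nat_lit 548) (nat_lit 677582165103132179601393696)) (.cons (.br (nat_lit 17) (nat_lit 0) (.cons (.ev (nat_lit 5212579889531128287870418031739393) (nat_lit 2)) (.cons (.rf (nat_lit 257) (nat_lit 21169572821286471800555552)) (.cons (.rf (nat_lit 297) (nat_lit 624956388353236766103589)) .nil)))) .nil))))) (.cons (.br (nat_lit 10) (nat_lit 0) (.cons (.br (nat_lit 12) (nat_lit 0) (.cons (.ev (nat_lit 1344865971586940122716781384116011520) (nat_lit 2)) (.cons (.ev (nat_lit 348449148940099966185309039751691241523727) (nat_lit 4)) .nil))) (.cons (.br (nat_lit 11) (nat_lit 0) (.cons (.br (nat_lit 16) (nat_lit 0) (.cons (.zr (nat_lit 1361155429327121823132191690464780354051) (nat_lit 7975388257126357166377443554991931392) (nat_lit 16) (nat_lit 11)) .nil)) (.cons (.ev (nat_lit 348449149020911454047524233121369136562691) (nat_lit 4)) .nil))) (.cons (.br (nat_lit 11) (nat_lit 0) (.cons (.rf (nat_lit 258) (nat_lit 20673410958287570117697)) (.cons (.ev (nat_lit 5212579889531128287870418031739393) (nat_lit 2)) (.cons (.rf (nat_lit 549) (nat_lit 20678129468625207332929)) .nil)))) (.cons (.br (nat_lit 11) (nat_lit 0) (.cons (.ev (nat_lit 87112291124057415880127982219670245605376) (nat_lit 1)) (.cons (.ev (nat_lit 87113620372335609186004370354282780753920) (nat_lit 1)) .nil))) .nil))))) .nil)))))) .nil))))))) .nil))))))) (.cons (.br (nat_lit 2) (nat_lit 0) (.cons (.br (nat_lit 7) (nat_lit 0) (.cons (.br (nat_lit 11) (nat_lit 0) (.cons (.ev (nat_lit 5253302546102885391784280948998147) (nat_lit 2)) (.cons (.kr (nat_lit 5192297477504865862079895564189697) (nat_lit 2658476273979440119844802416745644032) (nat_lit 0) (nat_lit 1)) (.cons (.br (nat_lit 15) (nat_lit 0) (.cons (.kr (nat_lit 159075295048315480512630095873) (nat_lit 5212579268143220112462866206949888) (nat_lit 0) (nat_lit 2)) (.cons (.ev (nat_lit 2663668570840392854597472539172143617) (nat_lit 2)) (.cons (.br (nat_lit 16) (nat_lit 0) (.cons (.ev (nat_lit 340282366920938463481893691678315839745) (nat_lit 1)) (.cons (.ev (nat_lit 341616807496301002843845740652568576000) (nat_lit 1)) .nil))) .nil)))) (.cons (.br (nat_lit 15) (nat_lit 0) (.cons (.rf (nat_lit 1) (nat_lit 582036118218978)) (.cons (.ev (nat_lit 2663668570840392854597472539172143617) (nat_lit 2)) (.cons (.rf (nat_lit 550) (nat_lit 677582165103132179601393696)) .nil)))) .nil))))) (.cons (.br (nat_lit 10) (nat_lit 0) (.cons (.ev (nat_lit 5212579889540536127348009936617473) (nat_lit 2)) (.cons (.br (nat_lit 12) (nat_lit 0) (.cons (.ev (nat_lit 2663709294734904650697973359473328641) (nat_lit 2)) (.cons (.rf (nat_lit 1) (nat_lit 582070410849506)) .nil))) (.cons (.br (nat_lit 12) (nat_lit 0) (.cons (.ev (nat_lit 1329268560916040223467594750961385987) (nat_lit 2)) (.cons (.ev (nat_lit 340287579500206606665112103438543552768) (nat_lit 1)) (.cons (.br (nat_lit 15) (nat_lit 0) (.cons (.ev (nat_lit 2663668570840392854596909580628787203) (nat_lit 2)) (.cons (.rf (nat_lit 394) (nat_lit 20674383565516995792961)) .nil))) .nil)))) (.cons (.br (nat_lit 15) (nat_lit 0) (.cons (.rf (nat_lit 1) (nat_lit 582001758481634)) (.cons (.br (nat_lit 12) (nat_lit 0) (.cons (.ev (nat_lit 340287559297334645815088821694172823553) (nat_lit 1)) (.cons (.br (nat_lit 16) (nat_lit 0) (.cons (.ev (nat_lit 341611615278361145502285516205665091585) (nat_lit 1)) .nil)) .nil))) (.cons (.ev (nat_lit 2663668570840392854596909580628787203) (nat_lit 2)) .nil)))) .nil))))) (.cons (.br (nat_lit 15) (nat_lit 0) (.cons (.ev (nat_lit 5253302546093403765893352816377857) (nat_lit 2)) (.cons (.br (nat_lit 10) (nat_lit 0) (.cons (.ev (nat_lit 5212579889531128287870418031739393) (nat_lit 2)) (.cons (.rf (nat_lit 1) (nat_lit 582001724928226)) .nil))) (.cons (.kr (nat_lit 2658456150026156774336570782642077697) (nat_lit 5212579268143220112181391230239232) (nat_lit 0) (nat_lit 2)) (.cons (.br (nat_lit 11) (nat_lit 0) (.cons (.rf (nat_lit 1) (nat_lit 582169195098338)) (.cons (.rf (nat_lit 530) (nat_lit 677467688033238201318638656)) (.cons (.br (nat_lit 10) (nat_lit 0) (.cons (.br (nat_lit 16) (nat_lit 0) (.cons (.ev (nat_lit 1369110089121320259841184587664385639431) (nat_lit 3)) .nil)) (.cons (.ev (nat_lit 348457124429606958321643713099555451961351) (nat_lit 3)) .nil))) .nil)))) .nil))))) (.cons (.br (nat_lit 10) (nat_lit 0) (.cons (.kr (nat_lit 1329227995784915872904088535257055232) (nat_lit 309485009893402662762708992) (nat_lit 6) (nat_lit 0)) (.cons (.kr (nat_lit 20282409608374036906816896499712) (nat_lit 1329228075013078387168144653824294912) (nat_lit 9) (nat_lit 0)) (.cons (.rf (nat_lit 552) (nat_lit 19926519232773908561233952)) (.cons (.br (nat_lit 11) (nat_lit 0) (.cons (.rf (nat_lit 1) (nat_lit 581998503705826)) (.cons (.kr (nat_lit 20283028578393823712142438694913) (nat_lit 2663648288428366591883170169871139328) (nat_lit 0) (nat_lit 2)) (.cons (.rf (nat_lit 551) (nat_lit 677582165103132179601393696)) .nil)))) .nil))))) (.cons (.br (nat_lit 11) (nat_lit 0) (.cons (.br (nat_lit 12) (nat_lit 0) (.cons (.kr (nat_lit 159075295048315480512630095873) (nat_lit 5212579268143220112462866206949888) (nat_lit 0) (nat_lit 2)) (.cons (.ev (nat_lit 340282366920938463481893410199044161536) (nat_lit 1)) (.cons (.br (nat_lit 15) (nat_lit 0) (.cons (.ev (nat_lit 2663668570840392854596909580628787203) (nat_lit 2)) (.cons (.rf (nat_lit 425) (nat_lit 19534282578759077243938)) .nil))) .nil)))) (.cons (.rf (nat_lit 553) (nat_lit 19926519232773908561233952)) (.cons (.kr (nat_lit 309485009893402662762708993) (nat_lit 1329227995784915872903807064575312128) (nat_lit 0) (nat_lit 2)) (.cons (.br (nat_lit 10) (nat_lit 0) (.cons (.ev (nat_lit 340282387282885714639130715145094889473) (nat_lit 1)) (.cons (.ev (nat_lit 5212579889531128287870418031739393) (nat_lit 2)) (.cons (.br (nat_lit 12) (nat_lit 0) (.cons (.ev (nat_lit 1363787944513877885067253433157225285124) (nat_lit 3)) (.cons (.ev (nat_lit 5253302546102885392347239492354561) (nat_lit 2)) .nil))) .nil)))) (.cons (.br (nat_lit 12) (nat_lit 0) (.cons (.br (nat_lit 15) (nat_lit 0) (.cons (.ev (nat_lit 341616787292810081419056849698114568449) (nat_lit 1)) (.cons (.ev (nat_lit 2663709294734895169071519472797351937) (nat_lit 2)) .nil))) (.cons (.br (nat_lit 10) (nat_lit 0) (.cons (.ev (nat_lit 2663750175850228732848561462301425667) (nat_lit 3)) (.cons (.ev (nat_lit 2663668730537085218639607819380195331) (nat_lit 3)) .nil))) (.cons (.ev (nat_lit 340282366920938463481893410199044161536) (nat_lit 1)) (.cons (.br (nat_lit 10) (nat_lit 0) (.cons (.rf (nat_lit 246) (nat_lit 20673410606443849098722)) (.cons (.rf (nat_lit 554) (nat_lit 20678129468625207332929)) (.cons (.ev (nat_lit 5253302546102885392347239492354561) (nat_lit 2)) .nil)))) .nil))))) .nil)))))) (.cons (.br (nat_lit 10) (nat_lit 0) (.cons (.br (nat_lit 15) (nat_lit 0) (.cons (.rf (nat_lit 1) (nat_lit 581898679266626)) (.cons (.br (nat_lit 16) (nat_lit 0) (.cons (.ev (nat_lit 341616807496301007547765197977805717505) (nat_lit 1)) (.cons (.ev (nat_lit 340282366920938468185813148994963046656) (nat_lit 1)) .nil))) (.cons (.ev (nat_lit 2663668570840392854596909580628787203) (nat_lit 2)) .nil)))) (.cons (.br (nat_lit 11) (nat_lit 0) (.cons (.kr (nat_lit 5212579268143220112462861911982081) (nat_lit 2658456150026156774336289311960334336) (nat_lit 0) (nat_lit 1)) (.cons (.br (nat_lit 15) (nat_lit 0) (.cons (.ev (nat_lit 2663709294734895169071519472797351937) (nat_lit 2)) (.cons (.rf (nat_lit 555) (nat_lit 21174441469360359728056352)) .nil))) (.cons (.br (nat_lit 15) (nat_lit 0) (.cons (.rf (nat_lit 458) (nat_lit 19529569841098102578210)) (.cons (.ev (nat_lit 2663709294734895169071519472797351937) (nat_lit 2)) .nil))) .nil)))) (.cons (.rf (nat_lit 579) (nat_lit 677582165103132179601393696)) (.cons (.br (nat_lit 11) (nat_lit 0) (.cons (.br (nat_lit 15) (nat_lit 0) (.cons (.ev (nat_lit 340287559297334645815089103164854567168) (nat_lit 1)) (.cons (.ev (nat_lit 7980621120658591633907261698968912899) (nat_lit 3)) .nil))) (.cons (.ev (nat_lit 5212579889531128287870418031739393) (nat_lit 2)) (.cons (.br (nat_lit 12) (nat_lit 0) (.cons (.ev (nat_lit 2663668730537085218639607819380195331) (nat_lit 3)) (.cons (.ev (nat_lit 5253302546102885392347239492354561) (nat_lit 2)) .nil))) (.cons (.br (nat_lit 12) (nat_lit 0) (.cons (.ev (nat_lit 7980702565971735148116215341890143235) (nat_lit 3)) (.cons (.rf (nat_lit 88) (nat_lit 661591519658513996548128)) (.cons (.ev (nat_lit 5253302546102885392347239492354561) (nat_lit 2)) .nil)))) .nil))))) (.cons (.br (nat_lit 12) (nat_lit 0) (.cons (.rf (nat_lit 556) (nat_lit 677582165103132179601393696)) (.cons (.ev (nat_lit 2663750175850228732848561462301425667) (nat_lit 3)) (.cons (.ev (nat_lit 5253302546102885392347239492354561) (nat_lit 2)) (.cons (.br (nat_lit 11) (nat_lit 0) (.cons (.ev (nat_lit 20362568643806370336100021436418) (nat_lit 2)) (.cons (.ev (nat_lit 87112291124057415880127982219670262382848) (nat_lit 1)) .nil))) .nil))))) .nil)))))) .nil))))))) (.cons (.br (nat_lit 11) (nat_lit 0) (.cons (.br (nat_lit 15) (nat_lit 0) (.cons (.ev (nat_lit 5212579889531128287870418065293313) (nat_lit 2)) (.cons (.kr (nat_lit 5192296858534846075274574333739008) (nat_lit 79537647524157740256306659328) (nat_lit 4) (nat_lit 0)) (.cons (.br (nat_lit 10) (nat_lit 0) (.cons (.ev (nat_lit 2663709294734895169071519472763798017) (nat_lit 2)) (.cons (.ev (nat_lit 340287579500206601961192364642607890688) (nat_lit 1)) (.cons (.br (nat_lit 12) (nat_lit 0) (.cons (.ev (nat_lit 341616807496301007547765479448487460865) (nat_lit 1)) (.cons (.ev (nat_lit 5253302546102885392347239492354051) (nat_lit 2)) .nil))) .nil)))) (.cons (.br (nat_lit 10) (nat_lit 0) (.cons (.rf (nat_lit 1) (nat_lit 582170268904610)) (.cons (.br (nat_lit 12) (nat_lit 0) (.cons (.ev (nat_lit 5253302546102885392347239492354051) (nat_lit 2)) (.cons (.rf (nat_lit 425) (nat_lit 19530974793583432075301)) .nil))) (.cons (.br (nat_lit 17) (nat_lit 0) (.cons (.ev (nat_lit 5253302546102885392347239492354051) (nat_lit 2)) (.cons (.ev (nat_lit 87112291124057415875387168992726907617536) (nat_lit 1)) .nil))) .nil)))) .nil))))) (.cons (.br (nat_lit 15) (nat_lit 0) (.cons (.ev (nat_lit 2663668570840392854596909580662341633) (nat_lit 2)) (.cons (.kr (nat_lit 5212579268143220112462866206949377) (nat_lit 159075295048315480512630095872) (nat_lit 0) (nat_lit 1)) (.cons (.ev (nat_lit 2663668570840392854596909580628787713) (nat_lit 2)) (.cons (.br (nat_lit 12) (nat_lit 0) (.cons (.rf (nat_lit 1) (nat_lit 582169195163810)) (.cons (.rf (nat_lit 459) (nat_lit 20661509840130370843114)) (.cons (.br (nat_lit 5) (nat_lit 0) (.cons (.rf (nat_lit 523) (nat_lit 21174216507836461035295779)) (.cons (.ev (nat_lit 87112291144418744156561801210871003742208) (nat_lit 1)) .nil))) .nil)))) .nil))))) (.cons (.br (nat_lit 10) (nat_lit 0) (.cons (.ev (nat_lit 5294184899367006827752658609111047) (nat_lit 3)) (.cons (.kr (nat_lit 5212579268143220112462861911982081) (nat_lit 2658456150026156774336289311960334336) (nat_lit 0) (nat_lit 1)) (.cons (.ev (nat_lit 5294184899367006827752658676220935) (nat_lit 3)) (.cons (.br (nat_lit 15) (nat_lit 0) (.cons (.kr (nat_lit 5192296858534846075274570038771712) (nat_lit 1329228075013078387168144653824294912) (nat_lit 8) (nat_lit 0)) (.cons (.kr (nat_lit 5192296858534846075274570038771968) (nat_lit 1329228075013078387168144653841072128) (nat_lit 1) (nat_lit 0)) (.cons (.ev (nat_lit 5322124721487946945236877375308824579) (nat_lit 3)) .nil)))) .nil))))) (.cons (.kr (nat_lit 1329227995784915872903807064575311872) (nat_lit 309485009893402662762708992) (nat_lit 4) (nat_lit 0)) (.cons (.br (nat_lit 15) (nat_lit 0) (.cons (.br (nat_lit 10) (nat_lit 0) (.cons (.ev (nat_lit 2663709294734895169071519472763798017) (nat_lit 2)) (.cons (.ev (nat_lit 340287579500206601961192364642607890688) (nat_lit 1)) (.cons (.br (nat_lit 12) (nat_lit 0) (.cons (.ev (nat_lit 341616807496301007547765479448487460865) (nat_lit 1)) (.cons (.ev (nat_lit 5253302546102885392347239492354051) (nat_lit 2)) .nil))) .nil)))) (.cons (.ev (nat_lit 5212579889531128287870418031739393) (nat_lit 2)) (.cons (.kr (nat_lit 5192296858534846075274574333739264) (nat_lit 79537647524157740256323436544) (nat_lit 1) (nat_lit 0)) (.cons (.br (nat_lit 5) (nat_lit 0) (.cons (.ev (nat_lit 340287579500206601961192364642607890688) (nat_lit 1)) (.cons (.ev (nat_lit 341611594917032864364546504738289549568) (nat_lit 1)) (.cons (.br (nat_lit 10) (nat_lit 0) (.cons (.ev (nat_lit 2663709294734895169071519472797351937) (nat_lit 2)) (.cons (.br (nat_lit 12) (nat_lit 0) (.cons (.ev (nat_lit 5253302546102885392347239492354051) (nat_lit 2)) .nil)) .nil))) .nil)))) (.cons (.br (nat_lit 5) (nat_lit 0) (.cons (.br (nat_lit 12) (nat_lit 0) (.cons (.ev (nat_lit 5253302546102885392347239525908995) (nat_lit 2)) (.cons (.rf (nat_lit 467) (nat_lit 21157386076292633495776590)) .nil))) (.cons (.br (nat_lit 10) (nat_lit 0) (.cons (.ev (nat_lit 5253302546102885392347239525908995) (nat_lit 2)) (.cons (.rf (nat_lit 2) (nat_lit 19076629385392140450)) .nil))) (.cons (.br (nat_lit 10) (nat_lit 0) (.cons (.ev (nat_lit 340287559297334650555902330108226109697) (nat_lit 1)) (.cons (.br (nat_lit 12) (nat_lit 0) (.cons (.ev (nat_lit 5253302546102885392347239492354051) (nat_lit 2)) .nil)) .nil))) (.cons (.br (nat_lit 10) (nat_lit 0) (.cons (.rf (nat_lit 557) (nat_lit 21174442659472845144426528)) (.cons (.br (nat_lit 12) (nat_lit 0) (.cons (.ev (nat_lit 340282387282885714639130715145111666688) (nat_lit 1)) .nil)) (.cons (.ev (nat_lit 87112291124057415875387168992726907617536) (nat_lit 1)) .nil)))) .nil))))) .nil)))))) (.cons (.br (nat_lit 5) (nat_lit 0) (.cons (.br (nat_lit 12) (nat_lit 0) (.cons (.ev (nat_lit 2663750175850228732848561462234316807) (nat_lit 3)) (.cons (.ev (nat_lit 5253302546102885392347239525908995) (nat_lit 2)) (.cons (.br (nat_lit 17) (nat_lit 0) (.cons (.ev (nat_lit 87112291144418744156561801210871003742208) (nat_lit 1)) (.cons (.ev (nat_lit 87112291124057415880127982501149517283585) (nat_lit 1)) .nil))) .nil)))) (.cons (.br (nat_lit 10) (nat_lit 0) (.cons (.rf (nat_lit 1) (nat_lit 582036051177634)) (.cons (.ev (nat_lit 5253302546102885392347239525908995) (nat_lit 2)) (.cons (.br (nat_lit 15) (nat_lit 0) (.cons (.rf (nat_lit 295) (nat_lit 20662921967075332568225)) (.cons (.ev (nat_lit 87113615159835570418965155350958095466496) (nat_lit 1)) .nil))) .nil)))) (.cons (.br (nat_lit 10) (nat_lit 0) (.cons (.rf (nat_lit 1) (nat_lit 582032829955234)) (.cons (.br (nat_lit 12) (nat_lit 0) (.cons (.ev (nat_lit 5253302546102885392347239492354051) (nat_lit 2)) (.cons (.rf (nat_lit 2) (nat_lit 19073217567525158050)) .nil))) (.cons (.br (nat_lit 17) (nat_lit 0) (.cons (.ev (nat_lit 5253302546102885392347239492354051) (nat_lit 2)) (.cons (.ev (nat_lit 87113620352052891306250323512316796076288) (nat_lit 1)) .nil))) .nil)))) (.cons (.br (nat_lit 12) (nat_lit 0) (.cons (.br (nat_lit 15) (nat_lit 0) (.cons (.ev (nat_lit 341616787292810081419056849698114568449) (nat_lit 1)) (.cons (.ev (nat_lit 2663709294734895169071519472797351937) (nat_lit 2)) .nil))) (.cons (.rf (nat_lit 558) (nat_lit 677582165103132179601393696)) (.cons (.ev (nat_lit 340282366920938463481893410199044161536) (nat_lit 1)) (.cons (.br (nat_lit 10) (nat_lit 0) (.cons (.rf (nat_lit 559) (nat_lit 21174404575872212308953120)) (.cons (.rf (nat_lit 560) (nat_lit 21174441469360359728056352)) (.cons (.ev (nat_lit 5253302546102885392347239492354051) (nat_lit 2)) .nil)))) .nil))))) (.cons (.br (nat_lit 12) (nat_lit 0) (.cons (.br (nat_lit 17) (nat_lit 0) (.cons (.ev (nat_lit 2663709294734895169071519472797351937) (nat_lit 2)) (.cons (.ev (nat_lit 87112285952042966944211210886177829683456) (nat_lit 1)) .nil))) (.cons (.rf (nat_lit 558) (nat_lit 677582165103132179601393696)) (.cons (.br (nat_lit 16) (nat_lit 0) (.cons (.ev (nat_lit 5253302546102885392347239492354051) (nat_lit 2)) (.cons (.ev (nat_lit 340287559297334645815088821694189600768) (nat_lit 1)) (.cons (.ev (nat_lit 340282366920938463481893410199027384576) (nat_lit 1)) .nil)))) (.cons (.br (nat_lit 10) (nat_lit 0) (.cons (.ev (nat_lit 87112291144418744156561801210871003742208) (nat_lit 1)) (.cons (.ev (nat_lit 87112291124057415880127982501149517283585) (nat_lit 1)) .nil))) .nil))))) .nil)))))) .nil))))))) (.cons (.br (nat_lit 11) (nat_lit 0) (.cons (.br (nat_lit 15) (nat_lit 0) (.cons (.kr (nat_lit 20283028578393823712142421917697) (nat_lit 2663648288428366591883170169887916032) (nat_lit 0) (nat_lit 1)) (.cons (.ev (nat_lit 2663668730537085218639607819313086471) (nat_lit 3)) (.cons (.br (nat_lit 7) (nat_lit 0) (.cons (.kr (nat_lit 2658456150026156774336570782642077697) (nat_lit 5212579268143220112181391230239232) (nat_lit 0) (nat_lit 2)) (.cons (.ev (nat_lit 340287579500206601961192364642607890433) (nat_lit 1)) (.cons (.br (nat_lit 12) (nat_lit 0) (.cons (.ev (nat_lit 340287559297334645815089103164854566913) (nat_lit 1)) (.cons (.ev (nat_lit 5253302546102885392347239492354051) (nat_lit 2)) .nil))) .nil)))) (.cons (.br (nat_lit 7) (nat_lit 0) (.cons (.rf (nat_lit 1) (nat_lit 582170168339618)) (.cons (.br (nat_lit 12) (nat_lit 0) (.cons (.ev (nat_lit 5253302546102885392347239492354051) (nat_lit 2)) (.cons (.rf (nat_lit 394) (nat_lit 20678053883975133698209)) .nil))) (.cons (.br (nat_lit 12) (nat_lit 0) (.cons (.br (nat_lit 16) (nat_lit 0) (.cons (.ev (nat_lit 340287579500206606665112103438560329985) (nat_lit 1)) .nil)) (.cons (.ev (nat_lit 5253302546102885392347239492354051) (nat_lit 2)) .nil))) .nil)))) .nil))))) (.cons (.br (nat_lit 15) (nat_lit 0) (.cons (.ev (nat_lit 2663668570840392854596909580662341633) (nat_lit 2)) (.cons (.ev (nat_lit 1329268560916040223467594750961385473) (nat_lit 2)) (.cons (.ev (nat_lit 2663668570840392854596909580628787713) (nat_lit 2)) (.cons (.br (nat_lit 5) (nat_lit 0) (.cons (.rf (nat_lit 1) (nat_lit 582169094598818)) (.cons (.br (nat_lit 12) (nat_lit 0) (.cons (.ev (nat_lit 340282366920938463481893691678315839488) (nat_lit 1)) (.cons (.rf (nat_lit 521) (nat_lit 21174216507836461035295779)) .nil))) (.cons (.br (nat_lit 12) (nat_lit 0) (.cons (.br (nat_lit 16) (nat_lit 0) (.cons (.ev (nat_lit 340287579500206606665112103438560329985) (nat_lit 1)) .nil)) (.cons (.ev (nat_lit 87112291144418744156561801210871003742208) (nat_lit 1)) .nil))) .nil)))) .nil))))) (.cons (.br (nat_lit 7) (nat_lit 0) (.cons (.ev (nat_lit 5294184899367006827752658709774337) (nat_lit 3)) (.cons (.ev (nat_lit 2663709294734895169072082414160838657) (nat_lit 2)) (.cons (.ev (nat_lit 5294184899367006827752658676220417) (nat_lit 3)) (.cons (.br (nat_lit 15) (nat_lit 0) (.cons (.kr (nat_lit 5192296858534846075274570038771712) (nat_lit 1329228075013078387168144653824294912) (nat_lit 8) (nat_lit 0)) (.cons (.kr (nat_lit 5192296858534846075274570038771968) (nat_lit 1329228075013078387168144653841072128) (nat_lit 1) (nat_lit 0)) (.cons (.ev (nat_lit 7980621120658591633907261698968911879) (nat_lit 3)) .nil)))) .nil))))) (.cons (.ev (nat_lit 5212579889531128287870418031738883) (nat_lit 2)) (.cons (.br (nat_lit 15) (nat_lit 0) (.cons (.br (nat_lit 7) (nat_lit 0) (.cons (.kr (nat_lit 2658456150026156774336570782625300481) (nat_lit 5212579268143220112181391247015936) (nat_lit 0) (nat_lit 1)) (.cons (.ev (nat_lit 340287579500206601961192364642607890433) (nat_lit 1)) (.cons (.br (nat_lit 12) (nat_lit 0) (.cons (.ev (nat_lit 340287559297334645815089103164871344385) (nat_lit 1)) (.cons (.ev (nat_lit 5253302546102885392347239492354051) (nat_lit 2)) .nil))) .nil)))) (.cons (.kr (nat_lit 20283028578393823712142438694913) (nat_lit 2663648288428366591883170169871139328) (nat_lit 0) (nat_lit 2)) (.cons (.ev (nat_lit 2663668730537085218639607819380196359) (nat_lit 3)) (.cons (.br (nat_lit 5) (nat_lit 0) (.cons (.ev (nat_lit 340287579500206601961192364642624667905) (nat_lit 1)) (.cons (.ev (nat_lit 340282387282885719379943942088466432000) (nat_lit 1)) (.cons (.br (nat_lit 7) (nat_lit 0) (.cons (.kr (nat_lit 2658456150026156774336570782642077697) (nat_lit 5212579268143220112181391230239232) (nat_lit 0) (nat_lit 2)) (.cons (.rf (nat_lit 561) (nat_lit 677582165103132179601393696)) .nil))) .nil)))) (.cons (.br (nat_lit 5) (nat_lit 0) (.cons (.br (nat_lit 12) (nat_lit 0) (.cons (.ev (nat_lit 5253302546102885392347239525908995) (nat_lit 2)) (.cons (.rf (nat_lit 465) (nat_lit 21157386076292633495776590)) .nil))) (.cons (.br (nat_lit 7) (nat_lit 0) (.cons (.ev (nat_lit 5253302546102885392347239525908995) (nat_lit 2)) (.cons (.rf (nat_lit 562) (nat_lit 21174442659472880577906720)) .nil))) (.cons (.br (nat_lit 7) (nat_lit 0) (.cons (.ev (nat_lit 340287559297334650555902330108226109697) (nat_lit 1)) (.cons (.br (nat_lit 12) (nat_lit 0) (.cons (.ev (nat_lit 5253302546102885392347239492354051) (nat_lit 2)) .nil)) .nil))) (.cons (.br (nat_lit 7) (nat_lit 0) (.cons (.rf (nat_lit 429) (nat_lit 21157385971719975520877966)) (.cons (.rf (nat_lit 560) (nat_lit 21170681566175390138042596)) (.cons (.rf (nat_lit 561) (nat_lit 677582165103132179601393696)) .nil)))) .nil))))) .nil)))))) (.cons (.br (nat_lit 7) (nat_lit 0) (.cons (.br (nat_lit 12) (nat_lit 0) (.cons (.ev (nat_lit 2663750175850228732848561462234316807) (nat_lit 3)) (.cons (.ev (nat_lit 5253302546102885392347239525908995) (nat_lit 2)) (.cons (.br (nat_lit 17) (nat_lit 0) (.cons (.ev (nat_lit 87112291144418744156561801210871003742208) (nat_lit 1)) (.cons (.ev (nat_lit 87112291124057415880127982501149534060800) (nat_lit 1)) .nil))) .nil)))) (.cons (.br (nat_lit 15) (nat_lit 0) (.cons (.kr (nat_lit 2658456150026156774336570782625300481) (nat_lit 5212579268143220112181391247015936) (nat_lit 0) (nat_lit 1)) (.cons (.kr (nat_lit 2658456150026156774336570782642077697) (nat_lit 5212579268143220112181391230239232) (nat_lit 0) (nat_lit 2)) (.cons (.br (nat_lit 17) (nat_lit 0) (.cons (.ev (nat_lit 348451807436177267574598892893672635891715) (nat_lit 3)) (.cons (.ev (nat_lit 348451807436177267574598892893672568783875) (nat_lit 3)) .nil))) .nil)))) (.cons (.rf (nat_lit 551) (nat_lit 677582165103132179601393696)) (.cons (.br (nat_lit 12) (nat_lit 0) (.cons (.ev (nat_lit 5253302546102885392347239525908995) (nat_lit 2)) (.cons (.ev (nat_lit 2663750175850228732848561462301426695) (nat_lit 3)) (.cons (.ev (nat_lit 5253302546102885392347239492354051) (nat_lit 2)) (.cons (.br (nat_lit 17) (nat_lit 0) (.cons (.ev (nat_lit 87112291124057415880127982501149517283328) (nat_lit 1)) (.cons (.ev (nat_lit 87112291144418744156561801210871020519680) (nat_lit 1)) (.cons (.ev (nat_lit 87112291124057415880127982501149534060800) (nat_lit 1)) .nil)))) .nil))))) (.cons (.br (nat_lit 12) (nat_lit 0) (.cons (.br (nat_lit 17) (nat_lit 0) (.cons (.ev (nat_lit 87112291124057415875387169274206162518016) (nat_lit 1)) (.cons (.ev (nat_lit 87112291144418744161265720949666956181760) (nat_lit 1)) .nil))) (.cons (.ev (nat_lit 7980702565971735148116215341890142215) (nat_lit 3)) (.cons (.br (nat_lit 17) (nat_lit 0) (.cons (.ev (nat_lit 87112291144418744161265720949666956181760) (nat_lit 1)) (.cons (.ev (nat_lit 87112291124057415875387169274206162518016) (nat_lit 1)) (.cons (.ev (nat_lit 87112291144418744161265720949666939404288) (nat_lit 1)) .nil)))) (.cons (.ev (nat_lit 5253302546102885392347239492354051) (nat_lit 2)) .nil))))) .nil)))))) .nil))))))) (.cons (.br (nat_lit 15) (nat_lit 0) (.cons (.br (nat_lit 7) (nat_lit 0) (.cons (.ev (nat_lit 2663668570840392854597472539205697537) (nat_lit 2)) (.cons (.kr (nat_lit 2658456150026156774336570782625300481) (nat_lit 5212579268143220112181391247015936) (nat_lit 0) (nat_lit 1)) (.cons (.br (nat_lit 10) (nat_lit 0) (.cons (.ev (nat_lit 2663709294734895169071519472763797507) (nat_lit 2)) (.cons (.ev (nat_lit 340287579500206601961192364642607890433) (nat_lit 1)) (.cons (.br (nat_lit 12) (nat_lit 0) (.cons (.ev (nat_lit 341616807496301007547765479448487461120) (nat_lit 1)) (.cons (.ev (nat_lit 5253302546102885392347239492354561) (nat_lit 2)) .nil))) .nil)))) (.cons (.br (nat_lit 10) (nat_lit 0) (.cons (.ev (nat_lit 2663709294734895169071519472763797507) (nat_lit 2)) (.cons (.br (nat_lit 12) (nat_lit 0) (.cons (.ev (nat_lit 340287559297334645815089103164871344128) (nat_lit 1)) (.cons (.ev (nat_lit 5253302546102885392347239492354561) (nat_lit 2)) .nil))) (.cons (.rf (nat_lit 563) (nat_lit 677582165103132179601393696)) .nil)))) .nil))))) (.cons (.kr (nat_lit 2663648288428366591883170169871138817) (nat_lit 20283028578393823712142438694912) (nat_lit 0) (nat_lit 1)) (.cons (.ev (nat_lit 5212579889531128287870418031738883) (nat_lit 2)) (.cons (.br (nat_lit 7) (nat_lit 0) (.cons (.kr (nat_lit 5192296858534846075274574333739008) (nat_lit 79537647524157740256306659328) (nat_lit 4) (nat_lit 0)) (.cons (.kr (nat_lit 5212579268143220112462866206949377) (nat_lit 159075295048315480512630095872) (nat_lit 0) (nat_lit 1)) (.cons (.kr (nat_lit 5192296858534846075274574333739264) (nat_lit 79537647524157740256323436544) (nat_lit 1) (nat_lit 0)) (.cons (.br (nat_lit 10) (nat_lit 0) (.cons (.ev (nat_lit 2663668730537085218639607819313086471) (nat_lit 3)) (.cons (.ev (nat_lit 2663668730537085218639607819380196359) (nat_lit 3)) (.cons (.ev (nat_lit 2663750175850228732848561462301425667) (nat_lit 3)) .nil)))) .nil))))) (.cons (.br (nat_lit 7) (nat_lit 0) (.cons (.br (nat_lit 10) (nat_lit 0) (.cons (.ev (nat_lit 2663709294734895169071519472797352451) (nat_lit 2)) (.cons (.ev (nat_lit 340287579500206601961192364642624667905) (nat_lit 1)) (.cons (.br (nat_lit 12) (nat_lit 0) (.cons (.ev (nat_lit 341616807496301007547765479448504238080) (nat_lit 1)) (.cons (.ev (nat_lit 5253302546102885392347239525908481) (nat_lit 2)) .nil))) .nil)))) (.cons (.ev (nat_lit 2663668570840392854597472539172143617) (nat_lit 2)) (.cons (.kr (nat_lit 2658456150026156774336570782642077697) (nat_lit 5212579268143220112181391230239232) (nat_lit 0) (nat_lit 2)) (.cons (.br (nat_lit 5) (nat_lit 0) (.cons (.ev (nat_lit 340287579500206601961192364642607890433) (nat_lit 1)) (.cons (.ev (nat_lit 341611594917032864364546504738289549313) (nat_lit 1)) (.cons (.br (nat_lit 10) (nat_lit 0) (.cons (.ev (nat_lit 2663709294734895169071519472797352451) (nat_lit 2)) (.cons (.br (nat_lit 12) (nat_lit 0) (.cons (.ev (nat_lit 5253302546102885392347239492354561) (nat_lit 2)) .nil)) .nil))) .nil)))) (.cons (.br (nat_lit 10) (nat_lit 0) (.cons (.br (nat_lit 12) (nat_lit 0) (.cons (.ev (nat_lit 340287559297334645815089103164871344128) (nat_lit 1)) (.cons (.ev (nat_lit 5253302546102885392347239525908481) (nat_lit 2)) .nil))) (.cons (.ev (nat_lit 2663709294734895169071519472797352451) (nat_lit 2)) (.cons (.br (nat_lit 12) (nat_lit 0) (.cons (.ev (nat_lit 340287559297334645815089103164854567168) (nat_lit 1)) (.cons (.ev (nat_lit 5253302546102885392347239492354561) (nat_lit 2)) .nil))) (.cons (.rf (nat_lit 563) (nat_lit 677582165103132179601393696)) .nil))))) .nil)))))) (.cons (.br (nat_lit 5) (nat_lit 0) (.cons (.br (nat_lit 10) (nat_lit 0) (.cons (.rf (nat_lit 1) (nat_lit 582170269031586)) (.cons (.br (nat_lit 12) (nat_lit 0) (.cons (.ev (nat_lit 5253302546102885392347239525908481) (nat_lit 2)) (.cons (.rf (nat_lit 489) (nat_lit 21168539701544080436725792)) .nil))) (.cons (.br (nat_lit 17) (nat_lit 0) (.cons (.ev (nat_lit 5253302546102885392347239525908481) (nat_lit 2)) (.cons (.ev (nat_lit 87112291124057415875387168992726890840321) (nat_lit 1)) .nil))) .nil)))) (.cons (.br (nat_lit 7) (nat_lit 0) (.cons (.rf (nat_lit 1) (nat_lit 582170168371362)) (.cons (.br (nat_lit 12) (nat_lit 0) (.cons (.ev (nat_lit 5253302546102885392347239525908481) (nat_lit 2)) (.cons (.rf (nat_lit 197) (nat_lit 661501616482921678774434)) .nil))) (.cons (.br (nat_lit 12) (nat_lit 0) (.cons (.br (nat_lit 16) (nat_lit 0) (.cons (.ev (nat_lit 340287579500206606665112103438560329985) (nat_lit 1)) .nil)) (.cons (.ev (nat_lit 5253302546102885392347239525908481) (nat_lit 2)) .nil))) .nil)))) (.cons (.br (nat_lit 7) (nat_lit 0) (.cons (.rf (nat_lit 1) (nat_lit 582168020889762)) (.cons (.br (nat_lit 16) (nat_lit 0) (.cons (.ev (nat_lit 5253302546102885392347239525908481) (nat_lit 2)) (.cons (.ev (nat_lit 341616787292810076678243341275471347713) (nat_lit 1)) .nil))) (.cons (.br (nat_lit 10) (nat_lit 0) (.cons (.rf (nat_lit 514) (nat_lit 677582165103132179601393696)) (.cons (.ev (nat_lit 5253302546102885392347239525908481) (nat_lit 2)) .nil))) .nil)))) (.cons (.br (nat_lit 16) (nat_lit 0) (.cons (.br (nat_lit 10) (nat_lit 0) (.cons (.ev (nat_lit 340287559297334650555902330108226109440) (nat_lit 1)) (.cons (.br (nat_lit 12) (nat_lit 0) (.cons (.ev (nat_lit 5253302546102885392347239492354561) (nat_lit 2)) .nil)) .nil))) (.cons (.br (nat_lit 7) (nat_lit 0) (.cons (.ev (nat_lit 340287559297334650555902330108226109440) (nat_lit 1)) (.cons (.br (nat_lit 12) (nat_lit 0) (.cons (.ev (nat_lit 5253302546102885392347239492354561) (nat_lit 2)) .nil)) .nil))) (.cons (.br (nat_lit 7) (nat_lit 0) (.cons (.ev (nat_lit 340282366920938463481893691678315839488) (nat_lit 1)) (.cons (.br (nat_lit 10) (nat_lit 0) (.cons (.ev (nat_lit 5253302546102885392347239492354561) (nat_lit 2)) .nil)) .nil))) (.cons (.ev (nat_lit 341616807496301002843845740652568576000) (nat_lit 1)) .nil))))) (.cons (.br (nat_lit 10) (nat_lit 0) (.cons (.br (nat_lit 12) (nat_lit 0) (.cons (.br (nat_lit 16) (nat_lit 0) (.cons (.ev (nat_lit 340287579500206606665112103438560329985) (nat_lit 1)) .nil)) (.cons (.ev (nat_lit 87112285931839476022786421995223375675393) (nat_lit 1)) .nil))) (.cons (.br (nat_lit 7) (nat_lit 0) (.cons (.rf (nat_lit 197) (nat_lit 661501616482921678545282)) (.cons (.ev (nat_lit 87112285931839476022786421995223375675393) (nat_lit 1)) .nil))) (.cons (.br (nat_lit 12) (nat_lit 0) (.cons (.rf (nat_lit 497) (nat_lit 21168539701544080436725792)) (.cons (.rf (nat_lit 517) (nat_lit 639559654033338453002202606)) (.cons (.br (nat_lit 7) (nat_lit 0) (.cons (.ev (nat_lit 340282387282885714639130715145111666945) (nat_lit 1)) .nil)) .nil)))) (.cons (.ev (nat_lit 87112291124057415875387168992726907617281) (nat_lit 1)) .nil))))) .nil)))))) .nil))))))) (.cons (.br (nat_lit 15) (nat_lit 0) (.cons (.br (nat_lit 7) (nat_lit 0) (.cons (.ev (nat_lit 2663668570840392854597472539205697537) (nat_lit 2)) (.cons (.br (nat_lit 10) (nat_lit 0) (.cons (.ev (nat_lit 2663668570840392854596909580662342147) (nat_lit 2)) (.cons (.rf (nat_lit 1) (nat_lit 581997295975586)) .nil))) (.cons (.br (nat_lit 10) (nat_lit 0) (.cons (.ev (nat_lit 2663668570840392854596909580662342147) (nat_lit 2)) (.cons (.ev (nat_lit 5253302546102885392347239492354051) (nat_lit 2)) (.cons (.br (nat_lit 11) (nat_lit 0) (.cons (.ev (nat_lit 341616807496301007547765479448487460865) (nat_lit 1)) (.cons (.rf (nat_lit 564) (nat_lit 21174442659472845144426528)) .nil))) .nil)))) (.cons (.br (nat_lit 10) (nat_lit 0) (.cons (.rf (nat_lit 1) (nat_lit 581894317423778)) (.cons (.br (nat_lit 11) (nat_lit 0) (.cons (.ev (nat_lit 340287559297334645815089103164871344128) (nat_lit 1)) (.cons (.br (nat_lit 16) (nat_lit 0) (.cons (.ev (nat_lit 341611594917032864364546786208988070145) (nat_lit 1)) .nil)) .nil))) (.cons (.ev (nat_lit 5253302546102885392347239492354051) (nat_lit 2)) .nil)))) .nil))))) (.cons (.kr (nat_lit 5212579268143220112181391230238721) (nat_lit 2658456150026156774336570782642077696) (nat_lit 0) (nat_lit 1)) (.cons (.br (nat_lit 11) (nat_lit 0) (.cons (.ev (nat_lit 5212579889531128287870418065293313) (nat_lit 2)) (.cons (.ev (nat_lit 2663709294734904650697973359473328131) (nat_lit 2)) (.cons (.ev (nat_lit 5212579889531128287870418031739393) (nat_lit 2)) (.cons (.br (nat_lit 7) (nat_lit 0) (.cons (.rf (nat_lit 1) (nat_lit 582036051336354)) (.cons (.rf (nat_lit 455) (nat_lit 20661509840130375037290)) (.cons (.rf (nat_lit 565) (nat_lit 677582165103132179601393696)) .nil)))) .nil))))) (.cons (.kr (nat_lit 5192296858534846075274570038771713) (nat_lit 1329228075013078387168144653841072128) (nat_lit 0) (nat_lit 1)) (.cons (.br (nat_lit 7) (nat_lit 0) (.cons (.br (nat_lit 10) (nat_lit 0) (.cons (.ev (nat_lit 2663668570840392854596909580662342147) (nat_lit 2)) (.cons (.ev (nat_lit 5253302546102885392347239525908995) (nat_lit 2)) (.cons (.rf (nat_lit 566) (nat_lit 677582165103132179601393696)) .nil)))) (.cons (.ev (nat_lit 2663668570840392854597472539172143617) (nat_lit 2)) (.cons (.br (nat_lit 10) (nat_lit 0) (.cons (.ev (nat_lit 2663668570840392854596909580662342147) (nat_lit 2)) (.cons (.ev (nat_lit 2663668570840392854596909580628787203) (nat_lit 2)) (.cons (.rf (nat_lit 494) (nat_lit 21174442659471745632798752)) .nil)))) (.cons (.br (nat_lit 5) (nat_lit 0) (.cons (.ev (nat_lit 5253302546102885392347239525908995) (nat_lit 2)) (.cons (.ev (nat_lit 341611594917032864364546504738306326528) (nat_lit 1)) (.cons (.br (nat_lit 11) (nat_lit 0) (.cons (.ev (nat_lit 2663668570840392854596909580628787203) (nat_lit 2)) (.cons (.ev (nat_lit 340287559297334645815088821694189601025) (nat_lit 1)) .nil))) .nil)))) (.cons (.br (nat_lit 10) (nat_lit 0) (.cons (.br (nat_lit 11) (nat_lit 0) (.cons (.ev (nat_lit 340287559297334645815089103164871344128) (nat_lit 1)) (.cons (.rf (nat_lit 424) (nat_lit 677039785869022034255816774)) .nil))) (.cons (.br (nat_lit 5) (nat_lit 0) (.cons (.ev (nat_lit 341616807496301007547765197977805717760) (nat_lit 1)) (.cons (.rf (nat_lit 567) (nat_lit 677582165103132179601393696)) .nil))) (.cons (.br (nat_lit 5) (nat_lit 0) (.cons (.ev (nat_lit 340287559297334645815089103164854567168) (nat_lit 1)) (.cons (.rf (nat_lit 568) (nat_lit 21174404575872212308953120)) .nil))) (.cons (.ev (nat_lit 5253302546102885392347239492354051) (nat_lit 2)) .nil))))) .nil)))))) (.cons (.br (nat_lit 5) (nat_lit 0) (.cons (.br (nat_lit 10) (nat_lit 0) (.cons (.rf (nat_lit 1) (nat_lit 582169195322530)) (.cons (.ev (nat_lit 5253302546102885392347239525908995) (nat_lit 2)) (.cons (.rf (nat_lit 529) (nat_lit 661701333108527519010885)) .nil)))) (.cons (.br (nat_lit 7) (nat_lit 0) (.cons (.rf (nat_lit 1) (nat_lit 582169094662306)) (.cons (.ev (nat_lit 5253302546102885392347239525908995) (nat_lit 2)) (.cons (.br (nat_lit 11) (nat_lit 0) (.cons (.rf (nat_lit 562) (nat_lit 21174442587485655284156448)) (.cons (.ev (nat_lit 87112291124057415875387169274206179295233) (nat_lit 1)) .nil))) .nil)))) (.cons (.br (nat_lit 7) (nat_lit 0) (.cons (.rf (nat_lit 1) (nat_lit 582168020921506)) (.cons (.br (nat_lit 16) (nat_lit 0) (.cons (.ev (nat_lit 5253302546102885392347239492354051) (nat_lit 2)) (.cons (.ev (nat_lit 341616787292810076678243341275488124928) (nat_lit 1)) .nil))) (.cons (.br (nat_lit 10) (nat_lit 0) (.cons (.rf (nat_lit 518) (nat_lit 677582165103132179601393696)) (.cons (.ev (nat_lit 5253302546102885392347239492354051) (nat_lit 2)) .nil))) .nil)))) (.cons (.br (nat_lit 7) (nat_lit 0) (.cons (.br (nat_lit 11) (nat_lit 0) (.cons (.ev (nat_lit 340282366920938463481893691678315839488) (nat_lit 1)) (.cons (.rf (nat_lit 550) (nat_lit 677582165103132179601393696)) .nil))) (.cons (.br (nat_lit 10) (nat_lit 0) (.cons (.ev (nat_lit 340282366920938463481893691678315839488) (nat_lit 1)) (.cons (.ev (nat_lit 2663668570840392854596909580628787203) (nat_lit 2)) .nil))) (.cons (.ev (nat_lit 340282366920938463481893410199044161793) (nat_lit 1)) (.cons (.br (nat_lit 10) (nat_lit 0) (.cons (.ev (nat_lit 2663668570840392854596909580628787203) (nat_lit 2)) (.cons (.ev (nat_lit 341616787292810076678243622754743025665) (nat_lit 1)) (.cons (.ev (nat_lit 5253302546102885392347239492354051) (nat_lit 2)) .nil)))) .nil))))) (.cons (.br (nat_lit 7) (nat_lit 0) (.cons (.br (nat_lit 11) (nat_lit 0) (.cons (.rf (nat_lit 569) (nat_lit 661698917980588638046240)) (.cons (.ev (nat_lit 87112291124057415875387169274206179295233) (nat_lit 1)) .nil))) (.cons (.br (nat_lit 10) (nat_lit 0) (.cons (.rf (nat_lit 569) (nat_lit 661698952883485750167584)) (.cons (.ev (nat_lit 2663668570840392854596909580628787203) (nat_lit 2)) .nil))) (.cons (.br (nat_lit 16) (nat_lit 0) (.cons (.ev (nat_lit 5253302546102885392347239492354051) (nat_lit 2)) (.cons (.ev (nat_lit 341616787292810076678243341275488124928) (nat_lit 1)) (.cons (.ev (nat_lit 340282366920938463481893410199027384321) (nat_lit 1)) .nil)))) (.cons (.br (nat_lit 10) (nat_lit 0) (.cons (.ev (nat_lit 2663668570840392854596909580628787203) (nat_lit 2)) (.cons (.rf (nat_lit 519) (nat_lit 661698917980588638046240)) .nil))) .nil))))) .nil)))))) .nil))))))) (.cons (.br (nat_lit 7) (nat_lit 0) (.cons (.br (nat_lit 11) (nat_lit 0) (.cons (.ev (nat_lit 2663668570840392854596909580662341633) (nat_lit 2)) (.cons (.kr (nat_lit 5192296858534846075274570038771713) (nat_lit 1329228075013078387168144653841072128) (nat_lit 0) (nat_lit 1)) (.cons (.br (nat_lit 10) (nat_lit 0) (.cons (.ev (nat_lit 2663709294734895169071519472797352451) (nat_lit 2)) (.cons (.ev (nat_lit 340287579500206601961192364642624667905) (nat_lit 1)) (.cons (.br (nat_lit 12) (nat_lit 0) (.cons (.ev (nat_lit 341616807496301007547765479448504238080) (nat_lit 1)) (.cons (.ev (nat_lit 5253302546102885392347239525908481) (nat_lit 2)) .nil))) .nil)))) (.cons (.br (nat_lit 10) (nat_lit 0) (.cons (.rf (nat_lit 1) (nat_lit 582032830209186)) (.cons (.br (nat_lit 12) (nat_lit 0) (.cons (.ev (nat_lit 5253302546102885392347239525908481) (nat_lit 2)) (.cons (.rf (nat_lit 2) (nat_lit 19073217567525412002)) .nil))) (.cons (.br (nat_lit 17) (nat_lit 0) (.cons (.ev (nat_lit 5253302546102885392347239525908481) (nat_lit 2)) (.cons (.ev (nat_lit 87113620352052891306250323512316796076288) (nat_lit 1)) .nil))) .nil)))) .nil))))) (.cons (.ev (nat_lit 2663668570840392854597472539172143107) (nat_lit 2)) (.cons (.br (nat_lit 10) (nat_lit 0) (.cons (.ev (nat_lit 2663668570840392854596909580662341633) (nat_lit 2)) (.cons (.ev (nat_lit 5212579889540536127348009936617473) (nat_lit 2)) (.cons (.ev (nat_lit 2663668570840392854596909580628787713) (nat_lit 2)) (.cons (.br (nat_lit 5) (nat_lit 0) (.cons (.rf (nat_lit 1) (nat_lit 581997296070818)) (.cons (.br (nat_lit 12) (nat_lit 0) (.cons (.ev (nat_lit 340287559297334645815088821694172823808) (nat_lit 1)) (.cons (.br (nat_lit 16) (nat_lit 0) (.cons (.ev (nat_lit 341611615278361145502285516205665091585) (nat_lit 1)) .nil)) .nil))) (.cons (.br (nat_lit 17) (nat_lit 0) (.cons (.ev (nat_lit 87112291124057415880127982219670245605376) (nat_lit 1)) (.cons (.ev (nat_lit 87113620352052891306250323512316796076288) (nat_lit 1)) .nil))) .nil)))) .nil))))) (.cons (.kr (nat_lit 5212579268143220112181391230238721) (nat_lit 2658456150026156774336570782642077696) (nat_lit 0) (nat_lit 1)) (.cons (.br (nat_lit 11) (nat_lit 0) (.cons (.br (nat_lit 10) (nat_lit 0) (.cons (.ev (nat_lit 2663709294734895169071519472763797507) (nat_lit 2)) (.cons (.ev (nat_lit 340287579500206601961192364642607890433) (nat_lit 1)) (.cons (.br (nat_lit 12) (nat_lit 0) (.cons (.ev (nat_lit 341616807496301007547765479448487461120) (nat_lit 1)) (.cons (.ev (nat_lit 5253302546102885392347239492354561) (nat_lit 2)) .nil))) .nil)))) (.cons (.ev (nat_lit 2663668570840392854596909580628787713) (nat_lit 2)) (.cons (.kr (nat_lit 5192296858534846075274570038771713) (nat_lit 1329228075013078387168144653841072128) (nat_lit 0) (nat_lit 1)) (.cons (.br (nat_lit 5) (nat_lit 0) (.cons (.ev (nat_lit 340287579500206601961192364642607890433) (nat_lit 1)) (.cons (.ev (nat_lit 341611594917032864364546504738289549313) (nat_lit 1)) (.cons (.br (nat_lit 10) (nat_lit 0) (.cons (.ev (nat_lit 2663709294734895169071519472797352451) (nat_lit 2)) (.cons (.br (nat_lit 12) (nat_lit 0) (.cons (.ev (nat_lit 5253302546102885392347239492354561) (nat_lit 2)) .nil)) .nil))) .nil)))) (.cons (.br (nat_lit 5) (nat_lit 0) (.cons (.br (nat_lit 12) (nat_lit 0) (.cons (.ev (nat_lit 5253302546102885392347239525908481) (nat_lit 2)) (.cons (.rf (nat_lit 570) (nat_lit 677582165103132179601393696)) .nil))) (.cons (.br (nat_lit 10) (nat_lit 0) (.cons (.ev (nat_lit 5253302546102885392347239525908481) (nat_lit 2)) (.cons (.rf (nat_lit 258) (nat_lit 20662921967075332568101)) .nil))) (.cons (.br (nat_lit 10) (nat_lit 0) (.cons (.ev (nat_lit 341616787292810081419056849698114568449) (nat_lit 1)) (.cons (.br (nat_lit 12) (nat_lit 0) (.cons (.ev (nat_lit 5253302546102885392347239492354561) (nat_lit 2)) .nil)) .nil))) (.cons (.br (nat_lit 10) (nat_lit 0) (.cons (.rf (nat_lit 570) (nat_lit 677582157032681647588345888)) (.cons (.rf (nat_lit 401) (nat_lit 20674743993220690189344)) (.cons (.ev (nat_lit 87113620352052891306250323512316796076288) (nat_lit 1)) .nil)))) .nil))))) .nil)))))) (.cons (.br (nat_lit 11) (nat_lit 0) (.cons (.br (nat_lit 10) (nat_lit 0) (.cons (.ev (nat_lit 2663709294734895169071519472763797507) (nat_lit 2)) (.cons (.br (nat_lit 12) (nat_lit 0) (.cons (.ev (nat_lit 340287559297334645815089103164854566913) (nat_lit 1)) (.cons (.ev (nat_lit 5253302546102885392347239492354561) (nat_lit 2)) .nil))) (.cons (.rf (nat_lit 571) (nat_lit 677582165103132179601393696)) .nil)))) (.cons (.br (nat_lit 5) (nat_lit 0) (.cons (.rf (nat_lit 1) (nat_lit 581894317519010)) (.cons (.rf (nat_lit 572) (nat_lit 677582165103132179601393696)) (.cons (.br (nat_lit 12) (nat_lit 0) (.cons (.rf (nat_lit 295) (nat_lit 20673410958287570117697)) (.cons (.ev (nat_lit 87113620372414838557444454586880947650560) (nat_lit 1)) .nil))) .nil)))) (.cons (.kr (nat_lit 5192296858534846075274570038771713) (nat_lit 1329228075013078387168144653841072128) (nat_lit 0) (nat_lit 1)) (.cons (.br (nat_lit 10) (nat_lit 0) (.cons (.br (nat_lit 12) (nat_lit 0) (.cons (.ev (nat_lit 340287559297334645815089103164871344385) (nat_lit 1)) (.cons (.ev (nat_lit 5253302546102885392347239525908481) (nat_lit 2)) .nil))) (.cons (.ev (nat_lit 2663709294734895169071519472797352451) (nat_lit 2)) (.cons (.br (nat_lit 12) (nat_lit 0) (.cons (.ev (nat_lit 340287559297334645815089103164854566913) (nat_lit 1)) (.cons (.ev (nat_lit 5253302546102885392347239492354561) (nat_lit 2)) .nil))) (.cons (.rf (nat_lit 573) (nat_lit 677582165103132179601393696)) .nil))))) (.cons (.br (nat_lit 5) (nat_lit 0) (.cons (.br (nat_lit 12) (nat_lit 0) (.cons (.rf (nat_lit 258) (nat_lit 20666565489222639521826)) (.cons (.ev (nat_lit 5253302546102885392347239525908481) (nat_lit 2)) .nil))) (.cons (.br (nat_lit 10) (nat_lit 0) (.cons (.rf (nat_lit 295) (nat_lit 20666565489222639521857)) (.cons (.ev (nat_lit 5253302546102885392347239525908481) (nat_lit 2)) .nil))) (.cons (.br (nat_lit 10) (nat_lit 0) (.cons (.rf (nat_lit 258) (nat_lit 19534206190117831347562)) (.cons (.br (nat_lit 12) (nat_lit 0) (.cons (.ev (nat_lit 5253302546102885392347239492354561) (nat_lit 2)) .nil)) (.cons (.br (nat_lit 12) (nat_lit 0) (.cons (.ev (nat_lit 5253302546102885392347239492354561) (nat_lit 2)) .nil)) .nil)))) (.cons (.br (nat_lit 10) (nat_lit 0) (.cons (.ev (nat_lit 87113620372414838557444454586880947650560) (nat_lit 1)) (.cons (.rf (nat_lit 549) (nat_lit 20678129468625207332898)) .nil))) .nil))))) .nil)))))) .nil))))))) (.cons (.br (nat_lit 5) (nat_lit 0) (.cons (.br (nat_lit 11) (nat_lit 0) (.cons (.br (nat_lit 12) (nat_lit 0) (.cons (.kr (nat_lit 159075295048315480512613318657) (nat_lit 5212579268143220112462866223726592) (nat_lit 0) (nat_lit 1)) (.cons (.ev (nat_lit 340282366920938463481893410199044161536) (nat_lit 1)) (.cons (.br (nat_lit 15) (nat_lit 0) (.cons (.ev (nat_lit 2663668570840392854596909580662342147) (nat_lit 2)) (.cons (.rf (nat_lit 523) (nat_lit 21174216507836461038536736)) .nil))) .nil)))) (.cons (.rf (nat_lit 574) (nat_lit 19926519232773908561233952)) (.cons (.kr (nat_lit 309485009893402662762708993) (nat_lit 1329227995784915872903807064592089088) (nat_lit 0) (nat_lit 1)) (.cons (.br (nat_lit 10) (nat_lit 0) (.cons (.ev (nat_lit 340282387282885714639130715145111666945) (nat_lit 1)) (.cons (.ev (nat_lit 5212579889531128287870418031739393) (nat_lit 2)) (.cons (.br (nat_lit 12) (nat_lit 0) (.cons (.ev (nat_lit 1363787944513877885067253433157275616004) (nat_lit 3)) (.cons (.ev (nat_lit 5253302546102885392347239525908481) (nat_lit 2)) .nil))) .nil)))) (.cons (.br (nat_lit 12) (nat_lit 0) (.cons (.br (nat_lit 15) (nat_lit 0) (.cons (.ev (nat_lit 341616787292810081419056849698114568449) (nat_lit 1)) (.cons (.ev (nat_lit 2663709294734895169071519472797351937) (nat_lit 2)) .nil))) (.cons (.rf (nat_lit 575) (nat_lit 677582165103132179601393696)) (.cons (.ev (nat_lit 340282366920938463481893410199044161536) (nat_lit 1)) (.cons (.br (nat_lit 10) (nat_lit 0) (.cons (.rf (nat_lit 559) (nat_lit 21174404575872212208194595)) (.cons (.rf (nat_lit 576) (nat_lit 21174441469360359728056352)) (.cons (.ev (nat_lit 5253302546102885392347239525908481) (nat_lit 2)) .nil)))) .nil))))) .nil)))))) (.cons (.br (nat_lit 11) (nat_lit 0) (.cons (.br (nat_lit 12) (nat_lit 0) (.cons (.ev (nat_lit 1329268560916040223467594750927831043) (nat_lit 2)) (.cons (.ev (nat_lit 340287579500206606665112103438560329728) (nat_lit 1)) (.cons (.br (nat_lit 15) (nat_lit 0) (.cons (.ev (nat_lit 2663668570840392854596909580662342147) (nat_lit 2)) (.cons (.rf (nat_lit 521) (nat_lit 21174216507836461038536736)) .nil))) .nil)))) (.cons (.rf (nat_lit 577) (nat_lit 19926519232773908561233952)) (.cons (.ev (nat_lit 5212579889531128287870418065293313) (nat_lit 2)) (.cons (.br (nat_lit 7) (nat_lit 0) (.cons (.ev (nat_lit 340282387282885714639130715145111666945) (nat_lit 1)) (.cons (.kr (nat_lit 20283028578393823712142438694913) (nat_lit 2663648288428366591883170169871139328) (nat_lit 0) (nat_lit 2)) (.cons (.br (nat_lit 12) (nat_lit 0) (.cons (.ev (nat_lit 2663668730537085218639607819313087491) (nat_lit 3)) (.cons (.ev (nat_lit 5253302546102885392347239525908481) (nat_lit 2)) .nil))) .nil)))) (.cons (.br (nat_lit 7) (nat_lit 0) (.cons (.br (nat_lit 15) (nat_lit 0) (.cons (.kr (nat_lit 2658456150026156774336570782642077697) (nat_lit 5212579268143220112181391230239232) (nat_lit 0) (nat_lit 2)) (.cons (.br (nat_lit 16) (nat_lit 0) (.cons (.ev (nat_lit 1369110089121320259841184587664452747271) (nat_lit 3)) .nil)) .nil))) (.cons (.rf (nat_lit 551) (nat_lit 677582165103132179601393696)) (.cons (.br (nat_lit 15) (nat_lit 0) (.cons (.ev (nat_lit 2663750175850228732848561462234317827) (nat_lit 3)) (.cons (.ev (nat_lit 341611594917032869068466525004923731968) (nat_lit 1)) .nil))) (.cons (.br (nat_lit 17) (nat_lit 0) (.cons (.ev (nat_lit 5253302546102885392347239525908481) (nat_lit 2)) (.cons (.ev (nat_lit 87112285952042966948952024113121167671296) (nat_lit 1)) (.cons (.ev (nat_lit 176266271358755652048097648028183570022915) (nat_lit 3)) .nil)))) .nil))))) .nil)))))) (.cons (.br (nat_lit 15) (nat_lit 0) (.cons (.kr (nat_lit 20283028578393823712142421917697) (nat_lit 2663648288428366591883170169887916032) (nat_lit 0) (nat_lit 1)) (.cons (.ev (nat_lit 5212579889531128287870418065293313) (nat_lit 2)) (.cons (.rf (nat_lit 578) (nat_lit 19926519232773908561233952)) (.cons (.br (nat_lit 7) (nat_lit 0) (.cons (.ev (nat_lit 2663668570840392854597472539172143617) (nat_lit 2)) (.cons (.kr (nat_lit 2658456150026156774336570782642077697) (nat_lit 5212579268143220112181391230239232) (nat_lit 0) (nat_lit 2)) (.cons (.br (nat_lit 10) (nat_lit 0) (.cons (.ev (nat_lit 2663709294734895169071519472763798017) (nat_lit 2)) (.cons (.rf (nat_lit 571) (nat_lit 677582165103132179601393696)) .nil))) .nil)))) (.cons (.br (nat_lit 16) (nat_lit 0) (.cons (.br (nat_lit 10) (nat_lit 0) (.cons (.ev (nat_lit 340287559297334650555902330108226109440) (nat_lit 1)) (.cons (.br (nat_lit 12) (nat_lit 0) (.cons (.ev (nat_lit 5253302546102885392347239492354561) (nat_lit 2)) .nil)) .nil))) (.cons (.br (nat_lit 7) (nat_lit 0) (.cons (.ev (nat_lit 340287559297334650555902330108226109440) (nat_lit 1)) (.cons (.br (nat_lit 12) (nat_lit 0) (.cons (.ev (nat_lit 5253302546102885392347239492354561) (nat_lit 2)) .nil)) .nil))) (.cons (.br (nat_lit 7) (nat_lit 0) (.cons (.ev (nat_lit 340282366920938463481893691678299062273) (nat_lit 1)) (.cons (.br (nat_lit 10) (nat_lit 0) (.cons (.ev (nat_lit 5253302546102885392347239492354561) (nat_lit 2)) .nil)) .nil))) (.cons (.ev (nat_lit 341616807496301002843845740652568576000) (nat_lit 1)) .nil))))) .nil)))))) (.cons (.br (nat_lit 7) (nat_lit 0) (.cons (.br (nat_lit 11) (nat_lit 0) (.cons (.kr (nat_lit 5192296858534846075274570038771712) (nat_lit 1329228075013078387168144653824294912) (nat_lit 8) (nat_lit 0)) (.cons (.ev (nat_lit 340287579500206606665112103438560329728) (nat_lit 1)) (.cons (.br (nat_lit 15) (nat_lit 0) (.cons (.ev (nat_lit 2663668570840392854597472539172143617) (nat_lit 2)) (.cons (.rf (nat_lit 550) (nat_lit 677582165103132179601393696)) .nil))) .nil)))) (.cons (.br (nat_lit 10) (nat_lit 0) (.cons (.ev (nat_lit 2663709294734904650697973359506882561) (nat_lit 2)) (.cons (.ev (nat_lit 340287579500206606665112103438560329728) (nat_lit 1)) (.cons (.br (nat_lit 15) (nat_lit 0) (.cons (.ev (nat_lit 340287559297334645815088821694172823553) (nat_lit 1)) (.cons (.ev (nat_lit 2663668570840392854596909580628787203) (nat_lit 2)) .nil))) .nil)))) (.cons (.kr (nat_lit 2658456150026156774336570782625300481) (nat_lit 5212579268143220112181391247015936) (nat_lit 0) (nat_lit 1)) (.cons (.ev (nat_lit 340282366920938463481893410199027384576) (nat_lit 1)) (.cons (.br (nat_lit 10) (nat_lit 0) (.cons (.br (nat_lit 15) (nat_lit 0) (.cons (.ev (nat_lit 341616807496301007547765197977822494977) (nat_lit 1)) (.cons (.ev (nat_lit 2663668570840392854596909580628787203) (nat_lit 2)) .nil))) (.cons (.rf (nat_lit 579) (nat_lit 677582165103132179601393696)) (.cons (.br (nat_lit 15) (nat_lit 0) (.cons (.ev (nat_lit 5212579889531128287870418031739393) (nat_lit 2)) (.cons (.ev (nat_lit 341616787292810076678243622754743025665) (nat_lit 1)) .nil))) (.cons (.ev (nat_lit 5253302546102885392347239525908481) (nat_lit 2)) .nil))))) .nil)))))) (.cons (.br (nat_lit 7) (nat_lit 0) (.cons (.ev (nat_lit 2663668570840392854597472539205697537) (nat_lit 2)) (.cons (.br (nat_lit 10) (nat_lit 0) (.cons (.ev (nat_lit 5212579889540536127348009936617473) (nat_lit 2)) (.cons (.ev (nat_lit 2663668570840392854596909580662342147) (nat_lit 2)) (.cons (.br (nat_lit 12) (nat_lit 0) (.cons (.ev (nat_lit 340287559297334645815088821694189601025) (nat_lit 1)) (.cons (.br (nat_lit 16) (nat_lit 0) (.cons (.ev (nat_lit 341611615278361145502285516205665091585) (nat_lit 1)) .nil)) .nil))) .nil)))) (.cons (.kr (nat_lit 2658456150026156774336570782625300481) (nat_lit 5212579268143220112181391247015936) (nat_lit 0) (nat_lit 1)) (.cons (.br (nat_lit 10) (nat_lit 0) (.cons (.ev (nat_lit 2663668570840392854596909580662342147) (nat_lit 2)) (.cons (.ev (nat_lit 341611615278361145502285234726393413888) (nat_lit 1)) (.cons (.br (nat_lit 12) (nat_lit 0) (.cons (.ev (nat_lit 1361134761551735716284310296809271722501) (nat_lit 3)) (.cons (.ev (nat_lit 5253302546102885392347239492354561) (nat_lit 2)) .nil))) .nil)))) (.cons (.br (nat_lit 11) (nat_lit 0) (.cons (.rf (nat_lit 580) (nat_lit 21174441469360359728056352)) (.cons (.kr (nat_lit 5192296858534846075274570038771712) (nat_lit 1329228075013078387168144653824294912) (nat_lit 8) (nat_lit 0)) (.cons (.br (nat_lit 10) (nat_lit 0) (.cons (.ev (nat_lit 2663709294734895169071519472763798017) (nat_lit 2)) (.cons (.rf (nat_lit 573) (nat_lit 677582165103132179601393696)) .nil))) (.cons (.br (nat_lit 10) (nat_lit 0) (.cons (.rf (nat_lit 394) (nat_lit 19519398184944451756363)) (.cons (.br (nat_lit 12) (nat_lit 0) (.cons (.ev (nat_lit 5253302546102885392347239492354561) (nat_lit 2)) .nil)) (.cons (.br (nat_lit 12) (nat_lit 0) (.cons (.ev (nat_lit 5253302546102885392347239492354561) (nat_lit 2)) .nil)) .nil)))) .nil))))) .nil)))))) (.cons (.br (nat_lit 7) (nat_lit 0) (.cons (.br (nat_lit 11) (nat_lit 0) (.cons (.ev (nat_lit 5253302546102885391784280948998147) (nat_lit 2)) (.cons (.kr (nat_lit 5192297477504865862079895564189697) (nat_lit 2658476273979440119844802416745644032) (nat_lit 0) (nat_lit 1)) (.cons (.br (nat_lit 12) (nat_lit 0) (.cons (.ev (nat_lit 1363793217542686578010332231495556793351) (nat_lit 3)) (.cons (.ev (nat_lit 340282387282885714639130996615776633088) (nat_lit 1)) .nil))) .nil)))) (.cons (.br (nat_lit 10) (nat_lit 0) (.cons (.ev (nat_lit 5212579889540536127348009936617473) (nat_lit 2)) (.cons (.ev (nat_lit 341611594917032869068466525004906955008) (nat_lit 1)) (.cons (.br (nat_lit 15) (nat_lit 0) (.cons (.ev (nat_lit 681893961838590312051628797757428466179) (nat_lit 2)) (.cons (.ev (nat_lit 2663668570840392854596909580628787203) (nat_lit 2)) .nil))) .nil)))) (.cons (.br (nat_lit 10) (nat_lit 0) (.cons (.ev (nat_lit 1361134680740247910663148469813160182791) (nat_lit 3)) (.cons (.ev (nat_lit 5253302546093403765893352816377857) (nat_lit 2)) (.cons (.br (nat_lit 11) (nat_lit 0) (.cons (.ev (nat_lit 341616787292810076678243341275471347968) (nat_lit 1)) (.cons (.br (nat_lit 15) (nat_lit 0) (.cons (.ev (nat_lit 1363793257950906379788659636316674458631) (nat_lit 3)) .nil)) .nil))) .nil)))) (.cons (.ev (nat_lit 340282366920938468185813148994963046656) (nat_lit 1)) (.cons (.br (nat_lit 10) (nat_lit 0) (.cons (.br (nat_lit 15) (nat_lit 0) (.cons (.ev (nat_lit 1363793136731198772389169841558148875271) (nat_lit 3)) (.cons (.ev (nat_lit 2663668570840392854596909580628787203) (nat_lit 2)) .nil))) (.cons (.br (nat_lit 11) (nat_lit 0) (.cons (.kr (nat_lit 5212579268143220112462861911982081) (nat_lit 2658456150026156774336289311960334336) (nat_lit 0) (nat_lit 1)) (.cons (.br (nat_lit 15) (nat_lit 0) (.cons (.ev (nat_lit 2663709294734895169071519472797351937) (nat_lit 2)) .nil)) .nil))) (.cons (.rf (nat_lit 579) (nat_lit 677582165103132179601393696)) (.cons (.br (nat_lit 11) (nat_lit 0) (.cons (.rf (nat_lit 556) (nat_lit 677582165103132179601393696)) (.cons (.ev (nat_lit 2663668570840392854596909580628787203) (nat_lit 2)) (.cons (.ev (nat_lit 174905141809943502555453531608896816415239) (nat_lit 3)) .nil)))) .nil))))) .nil)))))) (.cons (.br (nat_lit 7) (nat_lit 0) (.cons (.br (nat_lit 11) (nat_lit 0) (.cons (.ev (nat_lit 5253302546102885391784280948998147) (nat_lit 2)) (.cons (.kr (nat_lit 5192297477504865862079895564189697) (nat_lit 2658476273979440119844802416745644032) (nat_lit 0) (nat_lit 1)) (.cons (.br (nat_lit 15) (nat_lit 0) (.cons (.kr (nat_lit 159075295048315480512630095873) (nat_lit 5212579268143220112462866206949888) (nat_lit 0) (nat_lit 2)) (.cons (.ev (nat_lit 341616807496301002843845740652551799040) (nat_lit 1)) .nil))) (.cons (.br (nat_lit 15) (nat_lit 0) (.cons (.br (nat_lit 16) (nat_lit 0) (.cons (.ev (nat_lit 1363793217542686578010332231495623901191) (nat_lit 3)) .nil)) (.cons (.ev (nat_lit 2663668570840392854597472539172143617) (nat_lit 2)) (.cons (.ev (nat_lit 87112291124057415875387169274206179295233) (nat_lit 1)) .nil)))) .nil))))) (.cons (.br (nat_lit 10) (nat_lit 0) (.cons (.ev (nat_lit 5212579889540536127348009936617473) (nat_lit 2)) (.cons (.br (nat_lit 12) (nat_lit 0) (.cons (.ev (nat_lit 2663709294734904650697973359473328641) (nat_lit 2)) (.cons (.rf (nat_lit 429) (nat_lit 21157386295664622771155432)) .nil))) (.cons (.br (nat_lit 15) (nat_lit 0) (.cons (.ev (nat_lit 1329268560916040223467594750961385987) (nat_lit 2)) (.cons (.ev (nat_lit 341611594917032869068466525004923731968) (nat_lit 1)) .nil))) (.cons (.br (nat_lit 17) (nat_lit 0) (.cons (.ev (nat_lit 87112291124057415880127982219670245605376) (nat_lit 1)) (.cons (.ev (nat_lit 2663668570840392854596909580628787203) (nat_lit 2)) (.cons (.rf (nat_lit 581) (nat_lit 21174442659472845144426528)) .nil)))) .nil))))) (.cons (.br (nat_lit 15) (nat_lit 0) (.cons (.ev (nat_lit 5253302546093403765893352816377857) (nat_lit 2)) (.cons (.br (nat_lit 10) (nat_lit 0) (.cons (.ev (nat_lit 5212579889531128287870418031739393) (nat_lit 2)) (.cons (.rf (nat_lit 332) (nat_lit 20672322068253294169255)) .nil))) (.cons (.kr (nat_lit 2658456150026156774336570782642077697) (nat_lit 5212579268143220112181391230239232) (nat_lit 0) (nat_lit 2)) (.cons (.br (nat_lit 10) (nat_lit 0) (.cons (.br (nat_lit 16) (nat_lit 0) (.cons (.ev (nat_lit 1361134680740247910663148469813227290631) (nat_lit 3)) .nil)) (.cons (.br (nat_lit 11) (nat_lit 0) (.cons (.ev (nat_lit 1369110089121320259841184587664452747271) (nat_lit 3)) .nil)) (.cons (.ev (nat_lit 87112285931839476022786421995223375675393) (nat_lit 1)) .nil)))) .nil))))) (.cons (.br (nat_lit 16) (nat_lit 0) (.cons (.rf (nat_lit 552) (nat_lit 19926519232773908561233952)) (.cons (.kr (nat_lit 20283028578393823712142438694913) (nat_lit 2663648288428366591883170169871139328) (nat_lit 0) (nat_lit 2)) (.cons (.kr (nat_lit 2658456150026156774336570782642077697) (nat_lit 5212579268143220112181391230239232) (nat_lit 0) (nat_lit 2)) (.cons (.ev (nat_lit 340282366920938468185813148994979823616) (nat_lit 1)) .nil))))) (.cons (.br (nat_lit 11) (nat_lit 0) (.cons (.br (nat_lit 15) (nat_lit 0) (.cons (.kr (nat_lit 159075295048315480512630095873) (nat_lit 5212579268143220112462866206949888) (nat_lit 0) (nat_lit 2)) (.cons (.ev (nat_lit 341611594917032869068466525004923731968) (nat_lit 1)) .nil))) (.cons (.rf (nat_lit 553) (nat_lit 19926519232773908561233952)) (.cons (.kr (nat_lit 309485009893402662762708993) (nat_lit 1329227995784915872903807064575312128) (nat_lit 0) (nat_lit 2)) (.cons (.br (nat_lit 10) (nat_lit 0) (.cons (.br (nat_lit 15) (nat_lit 0) (.cons (.ev (nat_lit 2663709294734895169071519472797351937) (nat_lit 2)) .nil)) (.cons (.ev (nat_lit 341611594917032869068466525004923731968) (nat_lit 1)) (.cons (.ev (nat_lit 174905141809943502555453531608896816415239) (nat_lit 3)) .nil)))) .nil))))) (.cons (.br (nat_lit 15) (nat_lit 0) (.cons (.rf (nat_lit 579) (nat_lit 677582165103132179601393696)) (.cons (.rf (nat_lit 582) (nat_lit 677582165103132179601393696)) (.cons (.br (nat_lit 10) (nat_lit 0) (.cons (.br (nat_lit 16) (nat_lit 0) (.cons (.ev (nat_lit 1363793136731198772389169841558215983111) (nat_lit 3)) .nil)) (.cons (.ev (nat_lit 1363793217542686578010332231495623901191) (nat_lit 3)) (.cons (.ev (nat_lit 2663750175850228732848561462301425667) (nat_lit 3)) .nil)))) (.cons (.ev (nat_lit 340287579500206601961192646121879568385) (nat_lit 1)) (.cons (.br (nat_lit 10) (nat_lit 0) (.cons (.ev (nat_lit 2663668570840392854596909580628787203) (nat_lit 2)) (.cons (.ev (nat_lit 87112285931839476022786421995223375675393) (nat_lit 1)) (.cons (.br (nat_lit 11) (nat_lit 0) (.cons (.ev (nat_lit 7980621120658591633907261698968912899) (nat_lit 3)) .nil)) .nil)))) .nil)))))) .nil))))))) .nil)))))))) (.cons (.br (nat_lit 5) (nat_lit 0) (.cons (.br (nat_lit 11) (nat_lit 0) (.cons (.br (nat_lit 15) (nat_lit 0) (.cons (.kr (nat_lit 159075295048315480512613318657) (nat_lit 5212579268143220112462866223726592) (nat_lit 0) (nat_lit 1)) (.cons (.ev (nat_lit 2663668570840392854596909580662342147) (nat_lit 2)) (.cons (.rf (nat_lit 583) (nat_lit 677582165103132179601393696)) .nil)))) (.cons (.rf (nat_lit 574) (nat_lit 19926519232773908561233952)) (.cons (.kr (nat_lit 309485009893402662762708993) (nat_lit 1329227995784915872903807064592089088) (nat_lit 0) (nat_lit 1)) (.cons (.br (nat_lit 15) (nat_lit 0) (.cons (.ev (nat_lit 5212579889531128287870418031739393) (nat_lit 2)) (.cons (.kr (nat_lit 79537647524157740256306659329) (nat_lit 5192296858534846075274574333739264) (nat_lit 0) (nat_lit 2)) (.cons (.br (nat_lit 10) (nat_lit 0) (.cons (.ev (nat_lit 2663709294734895169071519472797351937) (nat_lit 2)) (.cons (.br (nat_lit 12) (nat_lit 0) (.cons (.ev (nat_lit 5253302546102885392347239525908481) (nat_lit 2)) .nil)) .nil))) (.cons (.br (nat_lit 10) (nat_lit 0) (.cons (.rf (nat_lit 584) (nat_lit 21174442659472845144426528)) (.cons (.br (nat_lit 12) (nat_lit 0) (.cons (.ev (nat_lit 340282387282885714639130715145111666688) (nat_lit 1)) .nil)) (.cons (.ev (nat_lit 87112291124057415875387168992726890840321) (nat_lit 1)) .nil)))) .nil))))) (.cons (.br (nat_lit 15) (nat_lit 0) (.cons (.rf (nat_lit 583) (nat_lit 677431049519795539030411296)) (.cons (.rf (nat_lit 575) (nat_lit 677582165103132179601393696)) (.cons (.br (nat_lit 10) (nat_lit 0) (.cons (.br (nat_lit 16) (nat_lit 0) (.cons (.ev (nat_lit 341611615278361145502285234726393413633) (nat_lit 1)) .nil)) (.cons (.rf (nat_lit 401) (nat_lit 20674455762847756467235)) (.cons (.ev (nat_lit 87113620352052891306250323512316796076288) (nat_lit 1)) .nil)))) (.cons (.br (nat_lit 10) (nat_lit 0) (.cons (.ev (nat_lit 2663709294734895169071519472797351937) (nat_lit 2)) (.cons (.br (nat_lit 12) (nat_lit 0) (.cons (.ev (nat_lit 5253302546102885392347239525908481) (nat_lit 2)) .nil)) .nil))) .nil))))) .nil)))))) (.cons (.br (nat_lit 11) (nat_lit 0) (.cons (.br (nat_lit 15) (nat_lit 0) (.cons (.ev (nat_lit 1329268560916040223467594750927831043) (nat_lit 2)) (.cons (.ev (nat_lit 2663668570840392854596909580662342147) (nat_lit 2)) (.cons (.br (nat_lit 12) (nat_lit 0) (.cons (.br (nat_lit 16) (nat_lit 0) (.cons (.ev (nat_lit 340287579500206606665112103438560329985) (nat_lit 1)) .nil)) (.cons (.ev (nat_lit 87112291144418744156561801210871003742208) (nat_lit 1)) .nil))) .nil)))) (.cons (.rf (nat_lit 577) (nat_lit 19926519232773908561233952)) (.cons (.ev (nat_lit 5212579889531128287870418065293313) (nat_lit 2)) (.cons (.br (nat_lit 15) (nat_lit 0) (.cons (.kr (nat_lit 20283028578393823712142438694913) (nat_lit 2663648288428366591883170169871139328) (nat_lit 0) (nat_lit 2)) (.cons (.ev (nat_lit 2663668730537085218639607819313087491) (nat_lit 3)) (.cons (.br (nat_lit 7) (nat_lit 0) (.cons (.kr (nat_lit 2658456150026156774336570782642077697) (nat_lit 5212579268143220112181391230239232) (nat_lit 0) (nat_lit 2)) (.cons (.br (nat_lit 12) (nat_lit 0) (.cons (.ev (nat_lit 5253302546102885392347239525908481) (nat_lit 2)) .nil)) .nil))) (.cons (.br (nat_lit 7) (nat_lit 0) (.cons (.rf (nat_lit 559) (nat_lit 21170718358332547021149219)) (.cons (.br (nat_lit 12) (nat_lit 0) (.cons (.ev (nat_lit 340282387282885714639130715145111666688) (nat_lit 1)) .nil)) (.cons (.br (nat_lit 12) (nat_lit 0) (.cons (.ev (nat_lit 340287579500206606665112103438560329985) (nat_lit 1)) .nil)) .nil)))) .nil))))) (.cons (.br (nat_lit 7) (nat_lit 0) (.cons (.br (nat_lit 15) (nat_lit 0) (.cons (.kr (nat_lit 2658456150026156774336570782642077697) (nat_lit 5212579268143220112181391230239232) (nat_lit 0) (nat_lit 2)) (.cons (.ev (nat_lit 348451807436177267574598892893672635891715) (nat_lit 3)) .nil))) (.cons (.rf (nat_lit 551) (nat_lit 677582165103132179601393696)) (.cons (.br (nat_lit 12) (nat_lit 0) (.cons (.ev (nat_lit 2663750175850228732848561462234317827) (nat_lit 3)) (.cons (.ev (nat_lit 5253302546102885392347239525908481) (nat_lit 2)) (.cons (.ev (nat_lit 87112291124057415880127982501149517283328) (nat_lit 1)) .nil)))) (.cons (.br (nat_lit 12) (nat_lit 0) (.cons (.ev (nat_lit 7980702565971735148116215341957251075) (nat_lit 3)) (.cons (.ev (nat_lit 87112291144418744161265720949666956181760) (nat_lit 1)) .nil))) .nil))))) .nil)))))) (.cons (.br (nat_lit 15) (nat_lit 0) (.cons (.kr (nat_lit 20283028578393823712142421917697) (nat_lit 2663648288428366591883170169887916032) (nat_lit 0) (nat_lit 1)) (.cons (.ev (nat_lit 5212579889531128287870418065293313) (nat_lit 2)) (.cons (.rf (nat_lit 578) (nat_lit 19926519232773908561233952)) (.cons (.br (nat_lit 7) (nat_lit 0) (.cons (.ev (nat_lit 2663668570840392854597472539172143617) (nat_lit 2)) (.cons (.kr (nat_lit 2658456150026156774336570782642077697) (nat_lit 5212579268143220112181391230239232) (nat_lit 0) (nat_lit 2)) (.cons (.br (nat_lit 10) (nat_lit 0) (.cons (.ev (nat_lit 2663709294734895169071519472763798017) (nat_lit 2)) (.cons (.br (nat_lit 12) (nat_lit 0) (.cons (.ev (nat_lit 5253302546102885392347239492354561) (nat_lit 2)) .nil)) .nil))) (.cons (.br (nat_lit 10) (nat_lit 0) (.cons (.ev (nat_lit 2663709294734895169071519472763798017) (nat_lit 2)) (.cons (.br (nat_lit 12) (nat_lit 0) (.cons (.ev (nat_lit 5253302546102885392347239492354561) (nat_lit 2)) .nil)) (.cons (.rf (nat_lit 571) (nat_lit 677582165103132179601393696)) .nil)))) .nil))))) (.cons (.br (nat_lit 10) (nat_lit 0) (.cons (.br (nat_lit 12) (nat_lit 0) (.cons (.br (nat_lit 16) (nat_lit 0) (.cons (.ev (nat_lit 340287579500206606665112103438560329985) (nat_lit 1)) .nil)) (.cons (.ev (nat_lit 87112285931839476022786421995223358898176) (nat_lit 1)) .nil))) (.cons (.rf (nat_lit 585) (nat_lit 661701333108527519141953)) (.cons (.br (nat_lit 7) (nat_lit 0) (.cons (.rf (nat_lit 246) (nat_lit 20662921931890960151941)) (.cons (.rf (nat_lit 554) (nat_lit 20674529646809127950497)) (.cons (.br (nat_lit 12) (nat_lit 0) (.cons (.ev (nat_lit 340287579500206606665112103438560329985) (nat_lit 1)) .nil)) .nil)))) (.cons (.ev (nat_lit 87112291124057415875387168992726907617281) (nat_lit 1)) .nil))))) .nil)))))) (.cons (.br (nat_lit 15) (nat_lit 0) (.cons (.kr (nat_lit 2658456150026156774336570782625300481) (nat_lit 5212579268143220112181391247015936) (nat_lit 0) (nat_lit 1)) (.cons (.br (nat_lit 7) (nat_lit 0) (.cons (.ev (nat_lit 2663709294734904650697973359506882561) (nat_lit 2)) (.cons (.br (nat_lit 11) (nat_lit 0) (.cons (.ev (nat_lit 5212579889531128287870418031739393) (nat_lit 2)) (.cons (.rf (nat_lit 456) (nat_lit 20661509840130375037290)) .nil))) (.cons (.rf (nat_lit 579) (nat_lit 677582165103132179601393696)) .nil)))) (.cons (.kr (nat_lit 5192296858534846075274570038771712) (nat_lit 1329228075013078387168144653824294912) (nat_lit 8) (nat_lit 0)) (.cons (.br (nat_lit 7) (nat_lit 0) (.cons (.ev (nat_lit 2663668570840392854597472539172143617) (nat_lit 2)) (.cons (.br (nat_lit 10) (nat_lit 0) (.cons (.ev (nat_lit 2663668570840392854596909580628787203) (nat_lit 2)) (.cons (.rf (nat_lit 258) (nat_lit 20673586502219979626533)) .nil))) (.cons (.br (nat_lit 11) (nat_lit 0) (.cons (.ev (nat_lit 2663668570840392854596909580628787203) (nat_lit 2)) (.cons (.ev (nat_lit 340287559297334645815088821694172823808) (nat_lit 1)) .nil))) (.cons (.br (nat_lit 10) (nat_lit 0) (.cons (.br (nat_lit 16) (nat_lit 0) (.cons (.ev (nat_lit 341611594917032864364546786208971292673) (nat_lit 1)) .nil)) (.cons (.rf (nat_lit 405) (nat_lit 21169572467815473602378787)) (.cons (.ev (nat_lit 5253302546102885392347239525908481) (nat_lit 2)) .nil)))) .nil))))) (.cons (.br (nat_lit 7) (nat_lit 0) (.cons (.br (nat_lit 11) (nat_lit 0) (.cons (.rf (nat_lit 586) (nat_lit 661698917980588638046240)) (.cons (.ev (nat_lit 87112291124057415875387169274206162518016) (nat_lit 1)) .nil))) (.cons (.br (nat_lit 10) (nat_lit 0) (.cons (.rf (nat_lit 586) (nat_lit 661698952883485750167584)) (.cons (.ev (nat_lit 2663668570840392854596909580628787203) (nat_lit 2)) .nil))) (.cons (.br (nat_lit 16) (nat_lit 0) (.cons (.ev (nat_lit 5253302546102885392347239525908481) (nat_lit 2)) (.cons (.ev (nat_lit 341616787292810076678243341275471347713) (nat_lit 1)) (.cons (.ev (nat_lit 340282366920938463481893410199027384321) (nat_lit 1)) .nil)))) (.cons (.br (nat_lit 10) (nat_lit 0) (.cons (.ev (nat_lit 2663668570840392854596909580628787203) (nat_lit 2)) (.cons (.rf (nat_lit 526) (nat_lit 661698917980588638046240)) .nil))) .nil))))) .nil)))))) (.cons (.br (nat_lit 7) (nat_lit 0) (.cons (.ev (nat_lit 2663668570840392854597472539205697537) (nat_lit 2)) (.cons (.br (nat_lit 10) (nat_lit 0) (.cons (.ev (nat_lit 5212579889540536127348009936617473) (nat_lit 2)) (.cons (.ev (nat_lit 2663668570840392854596909580662342147) (nat_lit 2)) (.cons (.br (nat_lit 17) (nat_lit 0) (.cons (.ev (nat_lit 87112291124057415880127982219670262382593) (nat_lit 1)) (.cons (.ev (nat_lit 87113620352052891306250323512316796076288) (nat_lit 1)) .nil))) .nil)))) (.cons (.kr (nat_lit 2658456150026156774336570782625300481) (nat_lit 5212579268143220112181391247015936) (nat_lit 0) (nat_lit 1)) (.cons (.br (nat_lit 11) (nat_lit 0) (.cons (.ev (nat_lit 2663668570840392854596909580662342147) (nat_lit 2)) (.cons (.kr (nat_lit 5192296858534846075274570038771712) (nat_lit 1329228075013078387168144653824294912) (nat_lit 8) (nat_lit 0)) (.cons (.br (nat_lit 10) (nat_lit 0) (.cons (.ev (nat_lit 2663709294734895169071519472763798017) (nat_lit 2)) (.cons (.br (nat_lit 12) (nat_lit 0) (.cons (.ev (nat_lit 5253302546102885392347239492354561) (nat_lit 2)) .nil)) .nil))) (.cons (.br (nat_lit 10) (nat_lit 0) (.cons (.rf (nat_lit 395) (nat_lit 21169382415801046620323049)) (.cons (.rf (nat_lit 401) (nat_lit 20674743993223908170787)) (.cons (.ev (nat_lit 87113620352052891306250323512316796076288) (nat_lit 1)) .nil)))) .nil))))) (.cons (.br (nat_lit 11) (nat_lit 0) (.cons (.br (nat_lit 12) (nat_lit 0) (.cons (.rf (nat_lit 389) (nat_lit 21168429998039874846856227)) (.cons (.ev (nat_lit 87113620372414838557444454586880947650560) (nat_lit 1)) .nil))) (.cons (.kr (nat_lit 5192296858534846075274570038771712) (nat_lit 1329228075013078387168144653824294912) (nat_lit 8) (nat_lit 0)) (.cons (.br (nat_lit 10) (nat_lit 0) (.cons (.ev (nat_lit 2663709294734895169071519472763798017) (nat_lit 2)) (.cons (.br (nat_lit 12) (nat_lit 0) (.cons (.ev (nat_lit 5253302546102885392347239492354561) (nat_lit 2)) .nil)) (.cons (.rf (nat_lit 573) (nat_lit 677582165103132179601393696)) .nil)))) (.cons (.br (nat_lit 10) (nat_lit 0) (.cons (.ev (nat_lit 87113620372414838557444454586880947650560) (nat_lit 1)) (.cons (.br (nat_lit 12) (nat_lit 0) (.cons (.ev (nat_lit 341611594917032864364546786208988070145) (nat_lit 1)) .nil)) .nil))) .nil))))) .nil)))))) (.cons (.br (nat_lit 7) (nat_lit 0) (.cons (.br (nat_lit 11) (nat_lit 0) (.cons (.ev (nat_lit 5253302546102885391784280948998147) (nat_lit 2)) (.cons (.kr (nat_lit 5192297477504865862079895564189697) (nat_lit 2658476273979440119844802416745644032) (nat_lit 0) (nat_lit 1)) (.cons (.br (nat_lit 15) (nat_lit 0) (.cons (.kr (nat_lit 159075295048315480512630095873) (nat_lit 5212579268143220112462866206949888) (nat_lit 0) (nat_lit 2)) (.cons (.ev (nat_lit 341616807496301002843845740652568576257) (nat_lit 1)) .nil))) (.cons (.br (nat_lit 15) (nat_lit 0) (.cons (.br (nat_lit 16) (nat_lit 0) (.cons (.ev (nat_lit 1363793217542686578010332231495556792323) (nat_lit 3)) .nil)) (.cons (.ev (nat_lit 2663668570840392854597472539172143617) (nat_lit 2)) (.cons (.ev (nat_lit 87112291124057415875387169274206162518016) (nat_lit 1)) .nil)))) .nil))))) (.cons (.br (nat_lit 10) (nat_lit 0) (.cons (.ev (nat_lit 5212579889540536127348009936617473) (nat_lit 2)) (.cons (.br (nat_lit 12) (nat_lit 0) (.cons (.ev (nat_lit 2663709294734904650697973359473328641) (nat_lit 2)) (.cons (.rf (nat_lit 429) (nat_lit 21157493514092404603662824)) .nil))) (.cons (.br (nat_lit 15) (nat_lit 0) (.cons (.ev (nat_lit 1329268560916040223467594750961385987) (nat_lit 2)) (.cons (.ev (nat_lit 341611594917032869068466525004906954753) (nat_lit 1)) .nil))) (.cons (.br (nat_lit 17) (nat_lit 0) (.cons (.ev (nat_lit 87112291124057415880127982219670262382593) (nat_lit 1)) (.cons (.ev (nat_lit 2663668570840392854596909580628787203) (nat_lit 2)) (.cons (.rf (nat_lit 581) (nat_lit 21174442659472845043668003)) .nil)))) .nil))))) (.cons (.br (nat_lit 15) (nat_lit 0) (.cons (.ev (nat_lit 5253302546093403765893352816377857) (nat_lit 2)) (.cons (.rf (nat_lit 587) (nat_lit 677582165103132179601393696)) (.cons (.kr (nat_lit 2658456150026156774336570782642077697) (nat_lit 5212579268143220112181391230239232) (nat_lit 0) (nat_lit 2)) (.cons (.br (nat_lit 10) (nat_lit 0) (.cons (.br (nat_lit 16) (nat_lit 0) (.cons (.ev (nat_lit 1361134680740247910663148469813160181763) (nat_lit 3)) .nil)) (.cons (.br (nat_lit 11) (nat_lit 0) (.cons (.ev (nat_lit 1369110089121320259841184587664385638403) (nat_lit 3)) .nil)) (.cons (.ev (nat_lit 87112285931839476022786421995223358898176) (nat_lit 1)) .nil)))) .nil))))) (.cons (.br (nat_lit 16) (nat_lit 0) (.cons (.rf (nat_lit 552) (nat_lit 19926519232773908561233952)) (.cons (.kr (nat_lit 20283028578393823712142438694913) (nat_lit 2663648288428366591883170169871139328) (nat_lit 0) (nat_lit 2)) (.cons (.kr (nat_lit 2658456150026156774336570782642077697) (nat_lit 5212579268143220112181391230239232) (nat_lit 0) (nat_lit 2)) (.cons (.ev (nat_lit 340282366920938468185813148994963046401) (nat_lit 1)) .nil))))) (.cons (.br (nat_lit 11) (nat_lit 0) (.cons (.br (nat_lit 15) (nat_lit 0) (.cons (.kr (nat_lit 159075295048315480512630095873) (nat_lit 5212579268143220112462866206949888) (nat_lit 0) (nat_lit 2)) (.cons (.ev (nat_lit 341611594917032869068466525004906954753) (nat_lit 1)) .nil))) (.cons (.rf (nat_lit 553) (nat_lit 19926519232773908561233952)) (.cons (.kr (nat_lit 309485009893402662762708993) (nat_lit 1329227995784915872903807064575312128) (nat_lit 0) (nat_lit 2)) (.cons (.br (nat_lit 10) (nat_lit 0) (.cons (.br (nat_lit 15) (nat_lit 0) (.cons (.ev (nat_lit 2663709294734895169071519472797351937) (nat_lit 2)) .nil)) (.cons (.ev (nat_lit 341611594917032869068466525004906954753) (nat_lit 1)) (.cons (.ev (nat_lit 174905141809943502555453531608896816415239) (nat_lit 3)) .nil)))) .nil))))) (.cons (.br (nat_lit 15) (nat_lit 0) (.cons (.rf (nat_lit 579) (nat_lit 677582165103132179601393696)) (.cons (.rf (nat_lit 582) (nat_lit 677582165103132179601393696)) (.cons (.br (nat_lit 10) (nat_lit 0) (.cons (.br (nat_lit 16) (nat_lit 0) (.cons (.ev (nat_lit 1363793136731198772389169841558148874243) (nat_lit 3)) .nil)) (.cons (.ev (nat_lit 1363793217542686578010332231495556792323) (nat_lit 3)) (.cons (.ev (nat_lit 2663750175850228732848561462301425667) (nat_lit 3)) .nil)))) (.cons (.ev (nat_lit 340287579500206601961192646121896345600) (nat_lit 1)) (.cons (.br (nat_lit 10) (nat_lit 0) (.cons (.ev (nat_lit 2663668570840392854596909580628787203) (nat_lit 2)) (.cons (.ev (nat_lit 87112285931839476022786421995223358898176) (nat_lit 1)) (.cons (.br (nat_lit 11) (nat_lit 0) (.cons (.ev (nat_lit 7980621120658591633907261698968912899) (nat_lit 3)) .nil)) .nil)))) .nil)))))) .nil))))))) (.cons (.br (nat_lit 7) (nat_lit 0) (.cons (.br (nat_lit 11) (nat_lit 0) (.cons (.ev (nat_lit 5253302546102885391784280948998147) (nat_lit 2)) (.cons (.kr (nat_lit 5192297477504865862079895564189697) (nat_lit 2658476273979440119844802416745644032) (nat_lit 0) (nat_lit 1)) (.cons (.br (nat_lit 12) (nat_lit 0) (.cons (.kr (nat_lit 159075295048315480512630095873) (nat_lit 5212579268143220112462866206949888) (nat_lit 0) (nat_lit 2)) (.cons (.ev (nat_lit 340287579500206606665112103438560329985) (nat_lit 1)) (.cons (.br (nat_lit 15) (nat_lit 0) (.cons (.ev (nat_lit 2663668570840392854597472539172143617) (nat_lit 2)) .nil)) .nil)))) (.cons (.br (nat_lit 15) (nat_lit 0) (.cons (.ev (nat_lit 348457124389201214399943379994531896229891) (nat_lit 3)) (.cons (.ev (nat_lit 2663668570840392854597472539172143617) (nat_lit 2)) .nil))) .nil))))) (.cons (.br (nat_lit 10) (nat_lit 0) (.cons (.ev (nat_lit 5212579889540536127348009936617473) (nat_lit 2)) (.cons (.br (nat_lit 12) (nat_lit 0) (.cons (.ev (nat_lit 2663709294734904650697973359473328641) (nat_lit 2)) (.cons (.ev (nat_lit 87112291144418744156561801210871003742208) (nat_lit 1)) .nil))) (.cons (.br (nat_lit 12) (nat_lit 0) (.cons (.ev (nat_lit 1329268560916040223467594750961385987) (nat_lit 2)) (.cons (.ev (nat_lit 340287579500206606665112103438560329985) (nat_lit 1)) (.cons (.br (nat_lit 15) (nat_lit 0) (.cons (.ev (nat_lit 2663668570840392854596909580628787203) (nat_lit 2)) .nil)) .nil)))) (.cons (.br (nat_lit 15) (nat_lit 0) (.cons (.ev (nat_lit 174225901091675665411771220036327510638595) (nat_lit 2)) (.cons (.ev (nat_lit 87113620352052891306250323512316796076288) (nat_lit 1)) .nil))) .nil))))) (.cons (.br (nat_lit 15) (nat_lit 0) (.cons (.ev (nat_lit 5253302546093403765893352816377857) (nat_lit 2)) (.cons (.rf (nat_lit 587) (nat_lit 677582165103132179601393696)) (.cons (.kr (nat_lit 2658456150026156774336570782642077697) (nat_lit 5212579268143220112181391230239232) (nat_lit 0) (nat_lit 2)) (.cons (.br (nat_lit 10) (nat_lit 0) (.cons (.ev (nat_lit 348454465851762474552404087232303653191683) (nat_lit 3)) (.cons (.ev (nat_lit 87113620352052891310991137020730815807745) (nat_lit 1)) .nil))) .nil))))) (.cons (.br (nat_lit 10) (nat_lit 0) (.cons (.kr (nat_lit 1329227995784915872904088535257055232) (nat_lit 309485009893402662762708992) (nat_lit 6) (nat_lit 0)) (.cons (.kr (nat_lit 20282409608374036906816896499712) (nat_lit 1329228075013078387168144653824294912) (nat_lit 9) (nat_lit 0)) (.cons (.rf (nat_lit 552) (nat_lit 19926519232773908561233952)) (.cons (.br (nat_lit 11) (nat_lit 0) (.cons (.ev (nat_lit 87113620372414838557444454586880947650560) (nat_lit 1)) (.cons (.kr (nat_lit 20283028578393823712142438694913) (nat_lit 2663648288428366591883170169871139328) (nat_lit 0) (nat_lit 2)) .nil))) .nil))))) (.cons (.br (nat_lit 11) (nat_lit 0) (.cons (.br (nat_lit 15) (nat_lit 0) (.cons (.kr (nat_lit 159075295048315480512630095873) (nat_lit 5212579268143220112462866206949888) (nat_lit 0) (nat_lit 2)) (.cons (.ev (nat_lit 2663668570840392854596909580628787203) (nat_lit 2)) (.cons (.rf (nat_lit 554) (nat_lit 19530642322195516591439)) .nil)))) (.cons (.rf (nat_lit 553) (nat_lit 19926519232773908561233952)) (.cons (.kr (nat_lit 309485009893402662762708993) (nat_lit 1329227995784915872903807064575312128) (nat_lit 0) (nat_lit 2)) (.cons (.br (nat_lit 10) (nat_lit 0) (.cons (.ev (nat_lit 340282387282885714639130715145111666688) (nat_lit 1)) (.cons (.ev (nat_lit 5212579889531128287870418031739393) (nat_lit 2)) (.cons (.ev (nat_lit 176266271358755652048097649154100656734723) (nat_lit 3)) .nil)))) (.cons (.br (nat_lit 10) (nat_lit 0) (.cons (.ev (nat_lit 87112285952042966944211210886177829683201) (nat_lit 1)) (.cons (.rf (nat_lit 554) (nat_lit 19530642322195516722507)) (.cons (.br (nat_lit 12) (nat_lit 0) (.cons (.ev (nat_lit 2663750175850228732848561462301425667) (nat_lit 3)) .nil)) .nil)))) .nil)))))) (.cons (.br (nat_lit 15) (nat_lit 0) (.cons (.rf (nat_lit 579) (nat_lit 677582165103132179601393696)) (.cons (.rf (nat_lit 582) (nat_lit 677582165103132179601393696)) (.cons (.br (nat_lit 10) (nat_lit 0) (.cons (.ev (nat_lit 348457124307753425414130108604048641884163) (nat_lit 3)) (.cons (.br (nat_lit 11) (nat_lit 0) (.cons (.ev (nat_lit 2663668730537085218639607819380195331) (nat_lit 3)) .nil)) .nil))) (.cons (.br (nat_lit 11) (nat_lit 0) (.cons (.rf (nat_lit 588) (nat_lit 21174404575872212308953120)) (.cons (.kr (nat_lit 5192296858534846075274570038771968) (nat_lit 1329228075013078387168144653841072128) (nat_lit 1) (nat_lit 0)) (.cons (.ev (nat_lit 174905141850506457570698145648085309719041) (nat_lit 2)) .nil)))) .nil))))) .nil))))))) .nil)))))))) .nil))))))))) .nil))))))))) .nil)) .nil))]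

theorem c29 : chkAll C T R L29 (nat_lit 574) = true := by decide +kernel

theorem l29 : (nat_lit 574) + L29.length = (nat_lit 590) := by decide +kernel

/-- part of the certificates -/
def L30 : List Prf := [(.br (nat_lit 5) (nat_lit 0) (.cons (.ev (nat_lit 5253144087350523597428156415476227) (nat_lit 2)) (.cons (.br (nat_lit 11) (nat_lit 0) (.cons (.ev (nat_lit 5334274352017112970618657734656515) (nat_lit 3)) (.cons (.br (nat_lit 15) (nat_lit 0) (.cons (.ev (nat_lit 2663709294734904650697973359506883075) (nat_lit 2)) (.cons (.rf (nat_lit 1) (nat_lit 582170111617089)) .nil))) .nil))) (.cons (.br (nat_lit 11) (nat_lit 0) (.cons (.ev (nat_lit 5334274352007705131141065829778435) (nat_lit 3)) (.cons (.br (nat_lit 12) (nat_lit 0) (.cons (.ev (nat_lit 2663709294734904650697973359506883075) (nat_lit 2)) (.cons (.rf (nat_lit 1) (nat_lit 582070253627457)) .nil))) .nil))) (.cons (.br (nat_lit 12) (nat_lit 0) (.cons (.br (nat_lit 15) (nat_lit 0) (.cons (.ev (nat_lit 1329268640451260488074855336504394496) (nat_lit 2)) (.cons (.rf (nat_lit 1) (nat_lit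 582170306652225)) .nil))) (.cons (.ev (nat_lit 2663709294113507297790163018361864707) (nat_lit 2)) (.cons (.br (nat_lit 11) (nat_lit 0) (.cons (.ev (nat_lit 1329268640451269895914332928342163712) (nat_lit 2)) (.cons (.ev (nat_lit 340287579500206606665112103438543552513) (nat_lit 1)) (.cons (.br (nat_lit 15) (nat_lit 0) (.cons (.ev (nat_lit 2663709294113516779416616905037840387) (nat_lit 2)) (.cons (.rf (nat_lit 547) (nat_lit 20668757448210678551587)) .nil))) .nil)))) (.cons (.br (nat_lit 15) (nat_lit 0) (.cons (.rf (nat_lit 1) (nat_lit 582070448662593)) (.cons (.br (nat_lit 11) (nat_lit 0) (.cons (.ev (nat_lit 340282366920938468185813430474234724608) (nat_lit 1)) (.cons (.rf (nat_lit 2) (nat_lit 20182047629606365249)) .nil))) (.cons (.ev (nat_lit 2663709294113516779416616905037840387) (nat_lit 2)) .nil)))) .nil))))) .nil))))),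
 (.br (nat_lit 11) (nat_lit 0) (.cons (.ev (nat_lit 5334274352017112970618657633993217) (nat_lit 3)) (.cons (.br (nat_lit 15) (nat_lit 0) (.cons (.ev (nat_lit 2663709294734904650697973359506883075) (nat_lit 2)) (.cons (.rf (nat_lit 1) (nat_lit 582167964135489)) .nil))) .nil))),
 (.br (nat_lit 11) (nat_lit 0) (.cons (.ev (nat_lit 5253144708747876505801438957535235) (nat_lit 2)) (.cons (.ev (nat_lit 340282366921249157417534369896943649025) (nat_lit 1)) (.cons (.br (nat_lit 15) (nat_lit 0) (.cons (.ev (nat_lit 1369110089277924519921904815215778858499) (nat_lit 3)) (.cons (.br (nat_lit 16) (nat_lit 0) (.cons (.ev (nat_lit 2735556631525342762379294425784699193353) (nat_lit 4)) .nil)) .nil))) .nil)))),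
 (.br (nat_lit 11) (nat_lit 0) (.cons (.ev (nat_lit 5334274352007705131141065863332865) (nat_lit 3)) (.cons (.br (nat_lit 12) (nat_lit 0) (.cons (.ev (nat_lit 2663709294734904650697973359506883075) (nat_lit 2)) (.cons (.rf (nat_lit 1) (nat_lit 582064884923457)) .nil))) .nil))),
 (.br (nat_lit 11) (nat_lit 0) (.cons (.ev (nat_lit 5253144708747876505801438957535235) (nat_lit 2)) (.cons (.ev (nat_lit 340282366921249162121454108692862533633) (nat_lit 1)) (.cons (.br (nat_lit 12) (nat_lit 0) (.cons (.ev (nat_lit 1369110089277924529329744292807683736579) (nat_lit 3)) (.cons (.br (nat_lit 16) (nat_lit 0) (.cons (.ev (nat_lit 2735556631525342752971454948192794315273) (nat_lit 4)) .nil)) .nil))) .nil)))),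
 (.br (nat_lit 16) (nat_lit 0) (.cons (.ev (nat_lit 5253144087350523597991097778962433) (nat_lit 2)) (.cons (.ev (nat_lit 2663709294113516779416616905037840387) (nat_lit 2)) (.cons (.kr (nat_lit 680569926138735466476744509704487567361) (nat_lit 174224571883802902896917916173090596847616) (nat_lit 0) (nat_lit 1)) .nil)))),
 (.br (nat_lit 12) (nat_lit 0) (.cons (.br (nat_lit 15) (nat_lit 0) (.cons (.ev (nat_lit 1329268640451260488074855336504394496) (nat_lit 2)) (.cons (.rf (nat_lit 1) (nat_lit 582170303506593)) .nil))) (.cons (.ev (nat_lit 2663709294113507297790163018361864707) (nat_lit 2)) (.cons (.br (nat_lit 11) (nat_lit 0) (.cons (.ev (nat_lit 1329268640451269895914332928342163712) (nat_lit 2)) (.cons (.ev (nat_lit 340287579500206606665112103438560329728) (nat_lit 1)) (.cons (.br (nat_lit 15) (nat_lit 0) (.cons (.ev (nat_lit 2663709294113516779416616905037840387) (nat_lit 2)) (.cons (.rf (nat_lit 547) (nat_lit 20668757448213899872288)) .nil))) .nil)))) (.cons (.br (nat_lit 15) (nat_lit 0) (.cons (.rf (nat_lit 1) (nat_lit 582070445516961))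 (.cons (.br (nat_lit 16) (nat_lit 0) (.cons (.ev (nat_lit 340282366920938468185813430474251501825) (nat_lit 1)) (.cons (.ev (nat_lit 341616807575219685052208470878089904128) (nat_lit 1)) .nil))) (.cons (.ev (nat_lit 2663709294113516779416616905037840387) (nat_lit 2)) .nil)))) .nil))))),
 (.br (nat_lit 11) (nat_lit 0) (.cons (.ev (nat_lit 5253144708747876505801438957535235) (nat_lit 2)) (.cons (.ev (nat_lit 340282366921249157417534369896926871808) (nat_lit 1)) (.cons (.br (nat_lit 15) (nat_lit 0) (.cons (.ev (nat_lit 1369110089277924519921904815215745304069) (nat_lit 3)) (.cons (.br (nat_lit 16) (nat_lit 0) (.cons (.ev (nat_lit 2735556631525342762379294425784665638923) (nat_lit 4)) .nil)) .nil))) .nil)))),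
 (.br (nat_lit 11) (nat_lit 0) (.cons (.ev (nat_lit 5253144708747876505801438957535235) (nat_lit 2)) (.cons (.ev (nat_lit 340282366921249162121454108692879310848) (nat_lit 1)) (.cons (.br (nat_lit 12) (nat_lit 0) (.cons (.ev (nat_lit 1369110089277924529329744292807650182149) (nat_lit 3)) (.cons (.br (nat_lit 16) (nat_lit 0) (.cons (.ev (nat_lit 2735556631525342752971454948192760760843) (nat_lit 4)) .nil)) .nil))) .nil)))),
 (.br (nat_lit 16) (nat_lit 0) (.cons (.ev (nat_lit 5253144087350523597991097778962433) (nat_lit 2)) (.cons (.ev (nat_lit 2663709294113516779416616905037840387) (nat_lit 2)) (.cons (.kr (nat_lit 174224571883802902896917916173090580070401) (nat_lit 680569926138735466476744509704504344576) (nat_lit 0) (nat_lit 1)) .nil)))),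
 (.br (nat_lit 11) (nat_lit 0) (.cons (.ev (nat_lit 2663709294113516779416053963674354177) (nat_lit 2)) (.cons (.br (nat_lit 15) (nat_lit 0) (.cons (.ev (nat_lit 341611594995951541868989777638590513408) (nat_lit 1)) (.cons (.rf (nat_lit 258) (nat_lit 20661583267576208138602)) .nil))) (.cons (.br (nat_lit 15) (nat_lit 0) (.cons (.rf (nat_lit 246) (nat_lit 19534206190117831674922)) (.cons (.ev (nat_lit 87113620372414527868212733084499728924928) (nat_lit 1)) .nil))) .nil)))),
 (.br (nat_lit 15) (nat_lit 0) (.cons (.ev (nat_lit 1334420371871617937163439499070406656) (nat_lit 1)) (.cons (.ev (nat_lit 1329227995784915891422609827539517696) (nat_lit 1)) .nil))),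
 (.br (nat_lit 11) (nat_lit 0) (.cons (.ev (nat_lit 2663709294113516779416053963674354177) (nat_lit 2)) (.cons (.br (nat_lit 12) (nat_lit 0) (.cons (.ev (nat_lit 341611594995951546572909516434509398016) (nat_lit 1)) (.cons (.rf (nat_lit 453) (nat_lit 20673485095190095038496)) .nil))) (.cons (.br (nat_lit 12) (nat_lit 0) (.cons (.rf (nat_lit 601) (nat_lit 21174404575872212308953120)) (.cons (.ev (nat_lit 87113620372414527863508813345703776485376) (nat_lit 1)) .nil))) .nil)))),
 (.br (nat_lit 12) (nat_lit 0) (.cons (.ev (nat_lit 681893982278531398312651200469638775040) (nat_lit 2)) (.cons (.rf (nat_lit 2) (nat_lit 20182047629606460481)) .nil))),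
 (.br (nat_lit 11) (nat_lit 0) (.cons (.ev (nat_lit 1329248436654480793742026156517032706) (nat_lit 2)) (.cons (.ev (nat_lit 5253144708738394879347552214450177) (nat_lit 2)) (.cons (.rf (nat_lit 603) (nat_lit 677582165103132179601393696)) .nil)))),
 (.br (nat_lit 12) (nat_lit 0) (.cons (.ev (nat_lit 681893982278531398312651481940320518145) (nat_lit 2)) (.cons (.rf (nat_lit 2) (nat_lit 20182047629602270273)) .nil))),
 (.br (nat_lit 7) (nat_lit 0) (.cons (.ev (nat_lit 1329248436654480793741744668655419393) (nat_lit 2)) (.cons (.ev (nat_lit 5253144708738394879910493577937411) (nat_lit 2)) (.cons (.rf (nat_lit 605) (nat_lit 677582165103132179601393696)) .nil)))),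
 (.br (nat_lit 11) (nat_lit 0) (.cons (.ev (nat_lit 1329248436654480793742026156517032706) (nat_lit 2)) (.cons (.ev (nat_lit 5253144708738394879347552248004611) (nat_lit 2)) (.cons (.br (nat_lit 12) (nat_lit 0) (.cons (.ev (nat_lit 5212737726895545013898208518210051) (nat_lit 2)) (.cons (.rf (nat_lit 468) (nat_lit 661216893356381329953827)) .nil))) .nil)))),
 (.br (nat_lit 7) (nat_lit 0) (.cons (.ev (nat_lit 1329248436654480793741744668655419393) (nat_lit 2)) (.cons (.ev (nat_lit 5253144708738394879910493611491841) (nat_lit 2)) (.cons (.br (nat_lit 12) (nat_lit 0) (.cons (.ev (nat_lit 5212737726895545013335249974853633) (nat_lit 2)) (.cons (.rf (nat_lit 2) (nat_lit 19067440906541280417)) .nil))) .nil)))),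
 (.br (nat_lit 15) (nat_lit 0) (.cons (.ev (nat_lit 344270051067368515574991206313325888256) (nat_lit 2)) .nil)),
 (.br (nat_lit 10) (nat_lit 0) (.cons (.ev (nat_lit 1334440575054263278094433731385229568) (nat_lit 1)) .nil)),
 (.br (nat_lit 15) (nat_lit 0) (.cons (.ev (nat_lit 341616807575219685052208189398818226433) (nat_lit 1)) (.cons (.rf (nat_lit 546) (nat_lit 21168348320757002897819680)) .nil))),
 (.br (nat_lit 15) (nat_lit 0) (.cons (.ev (nat_lit 2663668571456945022600370459728937473) (nat_lit 2)) (.cons (.ev (nat_lit 2663668571456945022600370459762491907) (nat_lit 2)) (.cons (.ev (nat_lit 341611615199442472738655468049729060865) (nat_lit 1)) (.cons (.ev (nat_lit 2663709294113516779416616905037840387) (nat_lit 2)) .nil))))),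
 (.br (nat_lit 11) (nat_lit 0) (.cons (.ev (nat_lit 1334420371872822140688628848342860033) (nat_lit 1)) .nil)),
 (.br (nat_lit 2) (nat_lit 0) (.cons (.br (nat_lit 12) (nat_lit 0) (.cons (.ev (nat_lit 5212737726895545013898208551764481) (nat_lit 2)) (.cons (.ev (nat_lit 5212737726895545013335250008408067) (nat_lit 2)) (.cons (.ev (nat_lit 7980662000531120972915271724123162117) (nat_lit 3)) (.cons (.br (nat_lit 15) (nat_lit 0) (.cons (.br (nat_lit 11) (nat_lit 0) (.cons (.ev (nat_lit 2663709295977689838427130051659431937) (nat_lit 3)) (.cons (.rf (nat_lit 1) (nat_lit 616155181290561)) .nil))) (.cons (.br (nat_lit 7) (nat_lit 0) (.cons (.ev (nat_lit 2663709295977689838428818910109630983) (nat_lit 3)) (.cons (.rf (nat_lit 1) (nat_lit 616155311313985)) .nil))) (.cons (.ev (nat_lit 2663709294113516779416616905037840387) (nat_lit 2)) (.cons (.br (nat_lit 7) (nat_lit 0) (.cons (.rf (nat_lit 1) (nat_lit 582169106125889)) (.cons (.br (nat_lit 11) (nat_lit 0) (.cons (.ev (nat_lit 340287559297026369731087091254622748673) (nat_lit 1)) (.cons (.rf (nat_lit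 2) (nat_lit 20184333614138594369)) .nil))) (.cons (.br (nat_lit 11) (nat_lit 0) (.cons (.rf (nat_lit 468) (nat_lit 624802840410893580244003)) (.cons (.ev (nat_lit 87113620352053199582334325524227011117056) (nat_lit 1)) .nil))) .nil)))) .nil))))) .nil))))) (.cons (.br (nat_lit 5) (nat_lit 0) (.cons (.br (nat_lit 12) (nat_lit 0) (.cons (.kr (nat_lit 79537647524157740256306659584) (nat_lit 1329227995786124798723422788966744064) (nat_lit 1) (nat_lit 0)) (.cons (.br (nat_lit 15) (nat_lit 0) (.cons (.ev (nat_lit 2663709294113516779416616905037840387) (nat_lit 2)) (.cons (.rf (nat_lit 1) (nat_lit 582169039019073)) .nil))) .nil))) (.cons (.br (nat_lit 11) (nat_lit 0) (.cons (.kr (nat_lit 79537647524157740256306659584) (nat_lit 1329227995786124798723422788966744064) (nat_lit 1) (nat_lit 0)) (.cons (.br (nat_lit 15) (nat_lit 0) (.cons (.ev (nat_lit 2663668571456945022600370459728937473) (nat_lit 2)) (.cons (.rf (nat_lit 1) (nat_lit 582170111712321)) .nil))) .nil))) (.cons (.br (nat_lit 11) (nat_lit 0) (.cons (.ev (nat_lit 5293869224656989055786974559077383)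 (nat_lit 3)) (.cons (.br (nat_lit 12) (nat_lit 0) (.cons (.ev (nat_lit 2658476354136057700682836141685080833) (nat_lit 2)) (.cons (.rf (nat_lit 1) (nat_lit 582070253722689)) .nil))) .nil))) (.cons (.br (nat_lit 16) (nat_lit 0) (.cons (.ev (nat_lit 5253144708738394879347552214450177) (nat_lit 2)) (.cons (.ev (nat_lit 5212737726895545013898208518210051) (nat_lit 2)) (.cons (.rf (nat_lit 604) (nat_lit 19926519232773908561233952)) (.cons (.br (nat_lit 16) (nat_lit 0) (.cons (.ev (nat_lit 5253144708738394879347552214450177) (nat_lit 2)) (.cons (.ev (nat_lit 5212737726895545013898208518210051) (nat_lit 2)) (.cons (.rf (nat_lit 604) (nat_lit 19926519232773908561233952)) .nil)))) .nil))))) .nil))))) (.cons (.br (nat_lit 5) (nat_lit 0) (.cons (.br (nat_lit 12) (nat_lit 0) (.cons (.kr (nat_lit 79537647524157740256306659584) (nat_lit 1329227995786124798723422788966744064) (nat_lit 1) (nat_lit 0)) (.cons (.br (nat_lit 15) (nat_lit 0) (.cons (.ev (nat_lit 2663709294113516779416616905037840387) (nat_lit 2)) (.cons (.rf (nat_lit 1) (nat_lit 582164744055873))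 .nil))) .nil))) (.cons (.br (nat_lit 7) (nat_lit 0) (.cons (.kr (nat_lit 79537647524157740256306659584) (nat_lit 1329227995786124798723422788966744064) (nat_lit 1) (nat_lit 0)) (.cons (.br (nat_lit 15) (nat_lit 0) (.cons (.ev (nat_lit 2663668571456945022600370459728937473) (nat_lit 2)) (.cons (.rf (nat_lit 1) (nat_lit 582170107522113)) .nil))) .nil))) (.cons (.br (nat_lit 12) (nat_lit 0) (.cons (.ev (nat_lit 5293869224656989055223998835852805) (nat_lit 3)) (.cons (.rf (nat_lit 474) (nat_lit 19725559111575233038914595)) .nil))) (.cons (.br (nat_lit 16) (nat_lit 0) (.cons (.ev (nat_lit 5253144708738394879910493577937411) (nat_lit 2)) (.cons (.ev (nat_lit 5212737726895545013335249974853633) (nat_lit 2)) (.cons (.rf (nat_lit 606) (nat_lit 19926519232773908561233952)) (.cons (.br (nat_lit 16) (nat_lit 0) (.cons (.ev (nat_lit 5253144708738394879910493577937411) (nat_lit 2)) (.cons (.ev (nat_lit 5212737726895545013335249974853633) (nat_lit 2)) (.cons (.rf (nat_lit 606) (nat_lit 19926519232773908561233952)) .nil)))) .nil))))) .nil))))) (.cons (.br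 (nat_lit 5) (nat_lit 0) (.cons (.br (nat_lit 11) (nat_lit 0) (.cons (.kr (nat_lit 79537647524157740256306659584) (nat_lit 1329227995786124798723422788966744064) (nat_lit 1) (nat_lit 0)) (.cons (.br (nat_lit 15) (nat_lit 0) (.cons (.ev (nat_lit 2663668571456945022600370459762491907) (nat_lit 2)) (.cons (.rf (nat_lit 1) (nat_lit 582164743008321)) .nil))) .nil))) (.cons (.br (nat_lit 7) (nat_lit 0) (.cons (.kr (nat_lit 79537647524157740256306659584) (nat_lit 1329227995786124798723422788966744064) (nat_lit 1) (nat_lit 0)) (.cons (.br (nat_lit 15) (nat_lit 0) (.cons (.ev (nat_lit 2663668571456945022600370459762491907) (nat_lit 2)) (.cons (.rf (nat_lit 1) (nat_lit 582169033781313)) .nil))) .nil))) (.cons (.ev (nat_lit 5212737726886137174420616680440321) (nat_lit 2)) (.cons (.br (nat_lit 7) (nat_lit 0) (.cons (.br (nat_lit 15) (nat_lit 0) (.cons (.ev (nat_lit 2663790741290823944219582409109538311) (nat_lit 3)) (.cons (.rf (nat_lit 1) (nat_lit 582169098793025)) .nil))) (.cons (.br (nat_lit 11) (nat_lit 0) (.cons (.ev (nat_lit 5253144708747876505801438957535235)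 (nat_lit 2)) (.cons (.rf (nat_lit 1) (nat_lit 582035954806849)) .nil))) (.cons (.br (nat_lit 11) (nat_lit 0) (.cons (.ev (nat_lit 5253144708747876505801438957535235) (nat_lit 2)) (.cons (.ev (nat_lit 340282366921249157417534369896943649025) (nat_lit 1)) (.cons (.br (nat_lit 15) (nat_lit 0) (.cons (.ev (nat_lit 1363793218018067651835454885281913243143) (nat_lit 4)) (.cons (.br (nat_lit 16) (nat_lit 0) (.cons (.zr (nat_lit 1363813885159618777681321929643145691137) (nat_lit 20759635493518983348354736457728) (nat_lit 16) (nat_lit 5)) .nil)) .nil))) .nil)))) (.cons (.br (nat_lit 11) (nat_lit 0) (.cons (.rf (nat_lit 1) (nat_lit 581898650071105)) (.cons (.br (nat_lit 15) (nat_lit 0) (.cons (.ev (nat_lit 1363793218018067651835453759399186270723) (nat_lit 4)) (.cons (.br (nat_lit 16) (nat_lit 0) (.cons (.zr (nat_lit 1363813885159618777681321648185348849664) (nat_lit 20759635493518984192779666588675) (nat_lit 16) (nat_lit 5)) .nil)) .nil))) (.cons (.br (nat_lit 17) (nat_lit 0) (.cons (.ev (nat_lit 87113620352053199582334325524227011117056) (nat_lit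 1)) (.cons (.ev (nat_lit 174224577056055348218535093414687894798594) (nat_lit 2)) .nil))) .nil)))) .nil))))) .nil))))) (.cons (.br (nat_lit 5) (nat_lit 0) (.cons (.br (nat_lit 11) (nat_lit 0) (.cons (.ev (nat_lit 5293869224656989055786974592631813) (nat_lit 3)) (.cons (.br (nat_lit 12) (nat_lit 0) (.cons (.ev (nat_lit 2658476354136057700682836141735412482) (nat_lit 2)) (.cons (.rf (nat_lit 1) (nat_lit 582061663796289)) .nil))) .nil))) (.cons (.br (nat_lit 7) (nat_lit 0) (.cons (.ev (nat_lit 5293869224656989055223998869407235) (nat_lit 3)) (.cons (.br (nat_lit 12) (nat_lit 0) (.cons (.ev (nat_lit 2658476354136057700682836141735412482) (nat_lit 2)) (.cons (.rf (nat_lit 1) (nat_lit 582065954569281)) .nil))) .nil))) (.cons (.ev (nat_lit 5212737726886137174420616646885891) (nat_lit 2)) (.cons (.br (nat_lit 7) (nat_lit 0) (.cons (.ev (nat_lit 2663668571456945022600933418272292867) (nat_lit 2)) (.cons (.br (nat_lit 11) (nat_lit 0) (.cons (.ev (nat_lit 5253144708747876505801438957535235) (nat_lit 2)) (.cons (.rf (nat_lit 1) (nat_lit 582032733584449))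 .nil))) (.cons (.br (nat_lit 11) (nat_lit 0) (.cons (.ev (nat_lit 5253144708747876505801438957535235) (nat_lit 2)) (.cons (.ev (nat_lit 2663668571456945022600370459728937473) (nat_lit 2)) (.cons (.br (nat_lit 12) (nat_lit 0) (.cons (.ev (nat_lit 341611594995951546572909234955254497281) (nat_lit 1)) (.cons (.rf (nat_lit 258) (nat_lit 20662921896706620930209)) .nil))) .nil)))) (.cons (.br (nat_lit 11) (nat_lit 0) (.cons (.rf (nat_lit 1) (nat_lit 581895428848705)) (.cons (.br (nat_lit 12) (nat_lit 0) (.cons (.ev (nat_lit 341611594995951546572909516434526175488) (nat_lit 1)) (.cons (.rf (nat_lit 103) (nat_lit 19999644504073021399599136)) .nil))) (.cons (.ev (nat_lit 2663668571456945022600370459728937473) (nat_lit 2)) .nil)))) .nil))))) .nil))))) (.cons (.br (nat_lit 5) (nat_lit 0) (.cons (.br (nat_lit 16) (nat_lit 0) (.cons (.ev (nat_lit 5253144708738394879347552248004611) (nat_lit 2)) (.cons (.ev (nat_lit 5212737726895545013898208518210051) (nat_lit 2)) (.cons (.rf (nat_lit 607) (nat_lit 19926519232773908561233952)) (.cons (.br (nat_lit 16)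 (nat_lit 0) (.cons (.ev (nat_lit 5253144708738394879347552248004611) (nat_lit 2)) (.cons (.ev (nat_lit 5212737726895545013898208518210051) (nat_lit 2)) (.cons (.rf (nat_lit 607) (nat_lit 19926519232773908561233952)) .nil)))) .nil))))) (.cons (.br (nat_lit 16) (nat_lit 0) (.cons (.ev (nat_lit 5253144708738394879910493611491841) (nat_lit 2)) (.cons (.ev (nat_lit 5212737726895545013335249974853633) (nat_lit 2)) (.cons (.rf (nat_lit 608) (nat_lit 19926519232773908561233952)) (.cons (.br (nat_lit 16) (nat_lit 0) (.cons (.ev (nat_lit 5253144708738394879910493611491841) (nat_lit 2)) (.cons (.ev (nat_lit 5212737726895545013335249974853633) (nat_lit 2)) (.cons (.rf (nat_lit 608) (nat_lit 19926519232773908561233952)) .nil)))) .nil))))) (.cons (.br (nat_lit 7) (nat_lit 0) (.cons (.br (nat_lit 15) (nat_lit 0) (.cons (.ev (nat_lit 2663790741290823944219582409143092741) (nat_lit 3)) (.cons (.rf (nat_lit 1) (nat_lit 582169095647393)) .nil))) (.cons (.br (nat_lit 11) (nat_lit 0) (.cons (.ev (nat_lit 5253144708747876505801438957535235) (nat_lit 2)) (.cons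 (.rf (nat_lit 1) (nat_lit 582035951661217)) .nil))) (.cons (.br (nat_lit 11) (nat_lit 0) (.cons (.ev (nat_lit 5253144708747876505801438957535235) (nat_lit 2)) (.cons (.ev (nat_lit 340282366921249157417534369896926871808) (nat_lit 1)) (.cons (.br (nat_lit 15) (nat_lit 0) (.cons (.ev (nat_lit 1363793218018067651835454885281846134283) (nat_lit 4)) (.cons (.br (nat_lit 16) (nat_lit 0) (.cons (.zr (nat_lit 1363813885159618777681321929643061805063) (nat_lit 20759635493518983348354753234944) (nat_lit 16) (nat_lit 2)) .nil)) .nil))) .nil)))) (.cons (.br (nat_lit 11) (nat_lit 0) (.cons (.rf (nat_lit 1) (nat_lit 581898646925473)) (.cons (.br (nat_lit 15) (nat_lit 0) (.cons (.ev (nat_lit 1363793218018067651835453759399119161863) (nat_lit 4)) (.cons (.br (nat_lit 16) (nat_lit 0) (.cons (.zr (nat_lit 1363813885159618777681321648185264963587) (nat_lit 20759635493518984192779683365888) (nat_lit 16) (nat_lit 2)) .nil)) .nil))) (.cons (.br (nat_lit 17) (nat_lit 0) (.cons (.ev (nat_lit 87113620352053199582334325524227011117056) (nat_lit 1)) (.cons (.ev (nat_lit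 174224577056055348218535093414687844466945) (nat_lit 2)) .nil))) .nil)))) .nil))))) (.cons (.br (nat_lit 7) (nat_lit 0) (.cons (.ev (nat_lit 2663668571456945022600933418305847297) (nat_lit 2)) (.cons (.br (nat_lit 11) (nat_lit 0) (.cons (.ev (nat_lit 5253144708747876505801438957535235) (nat_lit 2)) (.cons (.rf (nat_lit 1) (nat_lit 582032730438817)) .nil))) (.cons (.br (nat_lit 11) (nat_lit 0) (.cons (.ev (nat_lit 5253144708747876505801438957535235) (nat_lit 2)) (.cons (.ev (nat_lit 2663668571456945022600370459762491907) (nat_lit 2)) (.cons (.rf (nat_lit 248) (nat_lit 677469820940482634854700067)) .nil)))) (.cons (.br (nat_lit 11) (nat_lit 0) (.cons (.rf (nat_lit 1) (nat_lit 581895425703073)) (.cons (.br (nat_lit 12) (nat_lit 0) (.cons (.ev (nat_lit 341611594995951546572909516434526175488) (nat_lit 1)) (.cons (.rf (nat_lit 103) (nat_lit 19999644504073021396358179)) .nil))) (.cons (.ev (nat_lit 2663668571456945022600370459762491907) (nat_lit 2)) .nil)))) .nil))))) (.cons (.br (nat_lit 12) (nat_lit 0) (.cons (.ev (nat_lit 5212737726895545013898208518210051)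 (nat_lit 2)) (.cons (.ev (nat_lit 5212737726895545013335249974853633) (nat_lit 2)) (.cons (.br (nat_lit 7) (nat_lit 0) (.cons (.ev (nat_lit 5293869224628617962275692215533569) (nat_lit 3)) (.cons (.ev (nat_lit 1379744035097120202176663918828392417803) (nat_lit 4)) (.cons (.br (nat_lit 11) (nat_lit 0) (.cons (.ev (nat_lit 1379744035097120202176662792945665445383) (nat_lit 4)) (.cons (.rf (nat_lit 609) (nat_lit 21174442659471745632798752)) .nil))) .nil)))) (.cons (.ev (nat_lit 340287559297026369731087372725304492288) (nat_lit 1)) (.cons (.br (nat_lit 15) (nat_lit 0) (.cons (.br (nat_lit 16) (nat_lit 0) (.cons (.ev (nat_lit 340287579500517295896833605819795833089) (nat_lit 1)) (.cons (.ev (nat_lit 681893982278531407720490678061543653634) (nat_lit 2)) .nil))) (.cons (.br (nat_lit 16) (nat_lit 0) (.cons (.ev (nat_lit 340287579500517295896833324340524154880) (nat_lit 1)) (.cons (.ev (nat_lit 681893982278531407720491522490768753153) (nat_lit 2)) .nil))) (.cons (.br (nat_lit 7) (nat_lit 0) (.cons (.ev (nat_lit 341616787213891399173800629126133972993)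 (nat_lit 1)) (.cons (.rf (nat_lit 610) (nat_lit 21174442659472845144426528)) .nil))) (.cons (.ev (nat_lit 2663709294113516779416616905037840387) (nat_lit 2)) .nil))))) .nil)))))) (.cons (.br (nat_lit 7) (nat_lit 0) (.cons (.br (nat_lit 12) (nat_lit 0) (.cons (.ev (nat_lit 5322206168034166423782780741783389189) (nat_lit 3)) (.cons (.br (nat_lit 15) (nat_lit 0) (.cons (.ev (nat_lit 2663709294113516779416616905037840387) (nat_lit 2)) (.cons (.rf (nat_lit 2) (nat_lit 19065154922009144545)) .nil))) (.cons (.br (nat_lit 17) (nat_lit 0) (.cons (.ev (nat_lit 2663709294113516779416616905037840387) (nat_lit 2)) (.cons (.ev (nat_lit 87112291144339825483761278239716608639232) (nat_lit 1)) .nil))) .nil)))) (.cons (.br (nat_lit 11) (nat_lit 0) (.cons (.ev (nat_lit 2663709294113516779416053963674354177) (nat_lit 2)) (.cons (.rf (nat_lit 259) (nat_lit 639993120532429130438808611)) (.cons (.br (nat_lit 15) (nat_lit 0) (.cons (.br (nat_lit 16) (nat_lit 0) (.cons (.ev (nat_lit 340282387282577438555128984705561592065) (nat_lit 1)) .nil)) (.cons (.ev (nat_lit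 87113620372414527868212733084499728924928) (nat_lit 1)) .nil))) .nil)))) (.cons (.br (nat_lit 11) (nat_lit 0) (.cons (.ev (nat_lit 2663709294113516779416053963674354177) (nat_lit 2)) (.cons (.br (nat_lit 12) (nat_lit 0) (.cons (.ev (nat_lit 1371768585520490951643704585948607024647) (nat_lit 4)) (.cons (.br (nat_lit 16) (nat_lit 0) (.cons (.zr (nat_lit 1363793176819413454011292074221724893191) (nat_lit 477225885144946441537923843072) (nat_lit 16) (nat_lit 2)) .nil)) .nil))) (.cons (.br (nat_lit 12) (nat_lit 0) (.cons (.br (nat_lit 16) (nat_lit 0) (.cons (.zr (nat_lit 1363803520848311325771048327853115574272) (nat_lit 477225885144946441537890287623) (nat_lit 16) (nat_lit 10)) .nil)) (.cons (.ev (nat_lit 348459782844877723684285804166352115600907) (nat_lit 4)) .nil))) .nil)))) (.cons (.br (nat_lit 11) (nat_lit 0) (.cons (.rf (nat_lit 611) (nat_lit 677582165103132179601393696)) (.cons (.br (nat_lit 12) (nat_lit 0) (.cons (.ev (nat_lit 1371768585520490951643707963665507418627) (nat_lit 4)) (.cons (.br (nat_lit 16) (nat_lit 0) (.cons (.zr (nat_lit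 1361155429327121846651788977091150610944) (nat_lit 7975388257126352462457986229738012675) (nat_lit 16) (nat_lit 7)) .nil)) .nil))) (.cons (.br (nat_lit 12) (nat_lit 0) (.cons (.ev (nat_lit 1371768667599629338529267008857062771207) (nat_lit 4)) (.cons (.rf (nat_lit 612) (nat_lit 677582165103132179601393696)) .nil))) (.cons (.br (nat_lit 15) (nat_lit 0) (.cons (.ev (nat_lit 1344825406767737560044765956070900225) (nat_lit 2)) (.cons (.rf (nat_lit 257) (nat_lit 19999786208994029322900515)) (.cons (.rf (nat_lit 613) (nat_lit 21174442659472845144426528)) .nil)))) .nil))))) (.cons (.br (nat_lit 11) (nat_lit 0) (.cons (.rf (nat_lit 611) (nat_lit 640105464695078675084743715)) (.cons (.br (nat_lit 12) (nat_lit 0) (.cons (.br (nat_lit 16) (nat_lit 0) (.cons (.zr (nat_lit 1361129569254877167252401157719390683651) (nat_lit 7980560271575288342335550104069865472) (nat_lit 16) (nat_lit 12)) .nil)) (.cons (.ev (nat_lit 348459782844877723684285807544069015994887) (nat_lit 4)) .nil))) (.cons (.br (nat_lit 16) (nat_lit 0) (.cons (.rf (nat_lit 549) (nat_lit 19528525671263241640097))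 (.cons (.rf (nat_lit 613) (nat_lit 20003295771721173030671395)) (.cons (.kr (nat_lit 87112285931760246646623899784007638843394) (nat_lit 340282366920938463463374607436079956224) (nat_lit 0) (nat_lit 2)) .nil)))) (.cons (.br (nat_lit 12) (nat_lit 0) (.cons (.ev (nat_lit 348459782926956862071171366589260571347467) (nat_lit 4)) (.cons (.rf (nat_lit 612) (nat_lit 640105464695078675185502240)) .nil))) .nil))))) .nil)))))) .nil))))))) .nil)))))))]

theorem c30 : chkAll C T R L30 (nat_lit 590) = true := by decide +kernel

theorem l30 : (nat_lit 590) + L30.length = (nat_lit 615) := by decide +kernel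

/-- part of the certificates -/
def L31 : List Prf := [(.br (nat_lit 5) (nat_lit 0) (.cons (.ev (nat_lit 5212737726895545013898208518209537) (nat_lit 2)) (.cons (.ev (nat_lit 5253461621407378152004563438405127) (nat_lit 3)) (.cons (.ev (nat_lit 5212737726886137174420616680440321) (nat_lit 2)) (.cons (.br (nat_lit 11) (nat_lit 0) (.cons (.br (nat_lit 15) (nat_lit 0) (.cons (.ev (nat_lit 2663790741290823944219582409109538311) (nat_lit 3)) (.cons (.rf (nat_lit 1) (nat_lit 582169098856513)) .nil))) (.cons (.br (nat_lit 7) (nat_lit 0) (.cons (.ev (nat_lit 7980702407517809007974426771563086855) (nat_lit 3)) (.cons (.rf (nat_lit 1) (nat_lit 581898650134593)) .nil))) (.cons (.ev (nat_lit 5212738343447713016796129075003393) (nat_lit 2)) (.cons (.br (nat_lit 7) (nat_lit 0) (.cons (.rf (nat_lit 1) (nat_lit 582035954870337)) (.cons (.br (nat_lit 15) (nat_lit 0) (.cons (.ev (nat_lit 340287559297026374471900599668676034560) (nat_lit 1)) (.cons (.rf (nat_lit 394) (nat_lit 20678089912738866632741)) .nil))) (.cons (.br (nat_lit 15) (nat_lit 0) (.cons (.br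 (nat_lit 16) (nat_lit 0) (.cons (.ev (nat_lit 340282387282885714639130996615776632833) (nat_lit 1)) .nil)) (.cons (.ev (nat_lit 87113620352053199582334325524227011117056) (nat_lit 1)) .nil))) .nil)))) .nil))))) .nil))))),
 (.br (nat_lit 2) (nat_lit 0) (.cons (.ev (nat_lit 5212737726895545013898208551763971) (nat_lit 2)) (.cons (.ev (nat_lit 5253461621407378152004563438405127) (nat_lit 3)) (.cons (.ev (nat_lit 5212737726886137174420616646885891) (nat_lit 2)) (.cons (.br (nat_lit 11) (nat_lit 0) (.cons (.br (nat_lit 15) (nat_lit 0) (.cons (.ev (nat_lit 2663790741290823944219582409143092741) (nat_lit 3)) (.cons (.rf (nat_lit 1) (nat_lit 582169095710881)) .nil))) (.cons (.br (nat_lit 7) (nat_lit 0) (.cons (.ev (nat_lit 7980702407517809007974426771596641285) (nat_lit 3)) (.cons (.rf (nat_lit 1) (nat_lit 581898646988961)) .nil))) (.cons (.ev (nat_lit 5212738343447713016796129075003393) (nat_lit 2)) (.cons (.br (nat_lit 7) (nat_lit 0) (.cons (.rf (nat_lit 1) (nat_lit 582035951724705)) (.cons (.br (nat_lit 15) (nat_lit 0) (.cons (.ev (nat_lit 340287559297026374471900599668676034560)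 (nat_lit 1)) (.cons (.rf (nat_lit 452) (nat_lit 624943635110177199431841)) .nil))) (.cons (.br (nat_lit 15) (nat_lit 0) (.cons (.br (nat_lit 16) (nat_lit 0) (.cons (.ev (nat_lit 340282387282885714639130996615793410048) (nat_lit 1)) .nil)) (.cons (.ev (nat_lit 87113620352053199582334325524227011117056) (nat_lit 1)) .nil))) .nil)))) .nil))))) .nil))))),
 (.br (nat_lit 11) (nat_lit 0) (.cons (.rf (nat_lit 615) (nat_lit 583706084036944653813792)) (.cons (.rf (nat_lit 616) (nat_lit 583706084036944653813792)) (.cons (.ev (nat_lit 5322165127848430220837586000360244229) (nat_lit 3)) (.cons (.br (nat_lit 15) (nat_lit 0) (.cons (.ev (nat_lit 2663668570840392854597472539172143107) (nat_lit 2)) (.cons (.ev (nat_lit 2663668570840392854597472539205697537) (nat_lit 2)) (.cons (.ev (nat_lit 2663668571456945022600370459728936963) (nat_lit 2)) (.cons (.br (nat_lit 2) (nat_lit 0) (.cons (.rf (nat_lit 1) (nat_lit 582168031401025)) (.cons (.br (nat_lit 5) (nat_lit 0) (.cons (.ev (nat_lit 340282387282885719379943942088466432257) (nat_lit 1)) (.cons (.br (nat_lit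 16) (nat_lit 0) (.cons (.ev (nat_lit 340282387282577443295942493119581323520) (nat_lit 1)) .nil)) .nil))) (.cons (.br (nat_lit 5) (nat_lit 0) (.cons (.rf (nat_lit 246) (nat_lit 20662921967075364878657)) (.cons (.ev (nat_lit 87113615180038442379815178632711056130048) (nat_lit 1)) .nil))) .nil)))) .nil))))) .nil))))),
 (.br (nat_lit 15) (nat_lit 0) (.cons (.ev (nat_lit 340282367000476115709827055538187337728) (nat_lit 1)) .nil)),
 (.br (nat_lit 7) (nat_lit 0) (.cons (.ev (nat_lit 2663668570840402262436950131077022211) (nat_lit 2)) (.cons (.ev (nat_lit 2663668570840402262436950131043467777) (nat_lit 2)) (.cons (.ev (nat_lit 5322165127848430220837586000360244229) (nat_lit 3)) (.cons (.br (nat_lit 11) (nat_lit 0) (.cons (.rf (nat_lit 615) (nat_lit 583706084036944653813792)) (.cons (.rf (nat_lit 616) (nat_lit 583706084036944653813792)) (.cons (.ev (nat_lit 2663668571456945022600370459728936963) (nat_lit 2)) (.cons (.br (nat_lit 2) (nat_lit 0) (.cons (.rf (nat_lit 1) (nat_lit 582036057625665)) (.cons (.br (nat_lit 16) (nat_lit 0) (.cons (.ev (nat_lit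 341616787213583123089798898686583898113) (nat_lit 1)) (.cons (.ev (nat_lit 341616787213891403914613574598806995200) (nat_lit 1)) .nil))) (.cons (.br (nat_lit 5) (nat_lit 0) (.cons (.rf (nat_lit 618) (nat_lit 21174442659471745632798752)) (.cons (.ev (nat_lit 87112291124136642828975613998265748488448) (nat_lit 1)) .nil))) .nil)))) .nil))))) .nil))))),
 (.br (nat_lit 15) (nat_lit 0) (.cons (.ev (nat_lit 340287559297026374471900599668676034560) (nat_lit 1)) (.cons (.ev (nat_lit 2663709932288569734686691475721945609) (nat_lit 4)) .nil))),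
 (.br (nat_lit 15) (nat_lit 0) (.cons (.ev (nat_lit 2663790740664600369660330379338712583) (nat_lit 3)) (.cons (.rf (nat_lit 425) (nat_lit 19529856774975938398369)) .nil))),
 (.br (nat_lit 7) (nat_lit 0) (.cons (.ev (nat_lit 7980702406891585433414048859065287687) (nat_lit 3)) (.cons (.rf (nat_lit 362) (nat_lit 19993403814209643186596896)) .nil))),
 (.br (nat_lit 5) (nat_lit 0) (.cons (.br (nat_lit 15) (nat_lit 0) (.cons (.ev (nat_lit 2663790740664600369660330379305158145) (nat_lit 3)) (.cons (.rf (nat_lit 450) (nat_lit 624943635110177199431841)) .nil))) (.cons (.br (nat_lit 7) (nat_lit 0) (.cons (.ev (nat_lit 7980702406891585433414048859098842117) (nat_lit 3)) (.cons (.rf (nat_lit 448) (nat_lit 19998196323525670381556771)) .nil))) (.cons (.ev (nat_lit 340287559297026369731087372725304492288) (nat_lit 1)) (.cons (.br (nat_lit 7) (nat_lit 0) (.cons (.ev (nat_lit 13297533264742587196539421573951653899) (nat_lit 4)) (.cons (.ev (nat_lit 340282387282885719379944223559131398400) (nat_lit 1)) (.cons (.ev (nat_lit 87112291124136334552891611986355516670208)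 (nat_lit 1)) .nil)))) .nil))))),
 (.br (nat_lit 6) (nat_lit 0) (.cons (.ev (nat_lit 1329248357422682038910908769601912833) (nat_lit 1)) (.cons (.rf (nat_lit 2) (nat_lit 17877328385656793250)) .nil))),
 (.br (nat_lit 7) (nat_lit 0) (.cons (.kr (nat_lit 5192296858534846075274574333739008) (nat_lit 79229371440156009816756584448) (nat_lit 4) (nat_lit 0)) (.cons (.kr (nat_lit 5212579268143220112462866206949377) (nat_lit 158458742880312019633529946112) (nat_lit 0) (nat_lit 1)) (.cons (.kr (nat_lit 5192296858534846075274574333739264) (nat_lit 79229371440156009816773361664) (nat_lit 1) (nat_lit 0)) (.cons (.br (nat_lit 15) (nat_lit 0) (.cons (.ev (nat_lit 5322246575637425589522406665128771587) (nat_lit 3)) (.cons (.ev (nat_lit 5322246575637425589522406665061663747) (nat_lit 3)) (.cons (.ev (nat_lit 5322165129091177739882992016243556359) (nat_lit 3)) .nil)))) .nil))))),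
 (.br (nat_lit 15) (nat_lit 0) (.cons (.ev (nat_lit 1329228075322568119355973696017727745) (nat_lit 1)) .nil)),
 (.br (nat_lit 13) (nat_lit 0) (.cons (.ev (nat_lit 1329248357422686761277391643542028288) (nat_lit 1)) .nil)),
 (.br (nat_lit 15) (nat_lit 0) (.cons (.ev (nat_lit 2663709294113516779416616905037840897) (nat_lit 2)) (.cons (.ev (nat_lit 2663709294113516779416616905071395331) (nat_lit 2)) (.cons (.ev (nat_lit 2663668571456945022600370459728936963) (nat_lit 2)) (.cons (.ev (nat_lit 2663709294113516779416616905037840387) (nat_lit 2)) (.cons (.ev (nat_lit 87113620352053199582334325524227011117056) (nat_lit 1)) .nil)))))),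
 (.br (nat_lit 5) (nat_lit 0) (.cons (.br (nat_lit 11) (nat_lit 0) (.cons (.kr (nat_lit 5192296858534846075274574333739008) (nat_lit 79229371440156009816756584448) (nat_lit 4) (nat_lit 0)) (.cons (.ev (nat_lit 2663668570840392854596909580662341633) (nat_lit 2)) (.cons (.br (nat_lit 12) (nat_lit 0) (.cons (.ev (nat_lit 2663709294734895169071519472797352451) (nat_lit 2)) (.cons (.ev (nat_lit 340282366921249157417534369896943648768) (nat_lit 1)) (.cons (.br (nat_lit 15) (nat_lit 0) (.cons (.ev (nat_lit 340282366920938468185813430474234724608) (nat_lit 1)) (.cons (.ev (nat_lit 2663709294113516779416616905037840387) (nat_lit 2)) .nil))) .nil)))) (.cons (.br (nat_lit 12) (nat_lit 0) (.cons (.rf (nat_lit 1) (nat_lit 582036118379682)) (.cons (.br (nat_lit 15) (nat_lit 0) (.cons (.ev (nat_lit 2663709294113516779416616905037840387) (nat_lit 2)) (.cons (.rf (nat_lit 521) (nat_lit 21169684484758249082564640)) .nil))) (.cons (.br (nat_lit 15) (nat_lit 0) (.cons (.rf (nat_lit 489) (nat_lit 21174442658381030098044960)) (.cons (.ev (nat_lit 2663709294113516779416616905037840387)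 (nat_lit 2)) .nil))) .nil)))) .nil))))) (.cons (.br (nat_lit 12) (nat_lit 0) (.cons (.br (nat_lit 15) (nat_lit 0) (.cons (.ev (nat_lit 2663709294734904650697973359506883075) (nat_lit 2)) (.cons (.rf (nat_lit 1) (nat_lit 582170168339618)) .nil))) (.cons (.ev (nat_lit 2663709294734895169071519472763797507) (nat_lit 2)) (.cons (.br (nat_lit 7) (nat_lit 0) (.cons (.ev (nat_lit 2663709294734904650697973359506883075) (nat_lit 2)) (.cons (.ev (nat_lit 340282366921249157417534369896943648768) (nat_lit 1)) (.cons (.br (nat_lit 15) (nat_lit 0) (.cons (.ev (nat_lit 2663709294113516779416616905037840387) (nat_lit 2)) (.cons (.rf (nat_lit 562) (nat_lit 21174406884003340653529120)) .nil))) .nil)))) (.cons (.br (nat_lit 15) (nat_lit 0) (.cons (.rf (nat_lit 1) (nat_lit 582070310349986)) (.cons (.rf (nat_lit 624) (nat_lit 21174442659472880577906720)) (.cons (.ev (nat_lit 2663709294113516779416616905037840387) (nat_lit 2)) .nil)))) .nil))))) (.cons (.br (nat_lit 7) (nat_lit 0) (.cons (.kr (nat_lit 5192296858534846075274574333739008) (nat_lit 79229371440156009816756584448)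 (nat_lit 4) (nat_lit 0)) (.cons (.br (nat_lit 11) (nat_lit 0) (.cons (.ev (nat_lit 2663709294734904650697973359506883075) (nat_lit 2)) (.cons (.rf (nat_lit 1) (nat_lit 582035950612642)) .nil))) (.cons (.br (nat_lit 11) (nat_lit 0) (.cons (.ev (nat_lit 2663668570840392854596909580628787713) (nat_lit 2)) (.cons (.ev (nat_lit 340282366921249157417534369896926871808) (nat_lit 1)) (.cons (.br (nat_lit 15) (nat_lit 0) (.cons (.ev (nat_lit 2663709294113516779416616905071395331) (nat_lit 2)) (.cons (.rf (nat_lit 394) (nat_lit 20678089912738866632865)) .nil))) .nil)))) (.cons (.br (nat_lit 15) (nat_lit 0) (.cons (.rf (nat_lit 1) (nat_lit 581898645876898)) (.cons (.ev (nat_lit 2663709294113516779416616905071395331) (nat_lit 2)) (.cons (.br (nat_lit 11) (nat_lit 0) (.cons (.br (nat_lit 16) (nat_lit 0) (.cons (.ev (nat_lit 340287579500206606665112103438560329985) (nat_lit 1)) .nil)) (.cons (.ev (nat_lit 87113620352053199582334325524227011117056) (nat_lit 1)) .nil))) .nil)))) .nil))))) (.cons (.br (nat_lit 11) (nat_lit 0) (.cons (.ev (nat_lit 2663668570840392854596909580662341633)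 (nat_lit 2)) (.cons (.ev (nat_lit 5322246575637425589522406665128771587) (nat_lit 3)) (.cons (.br (nat_lit 7) (nat_lit 0) (.cons (.ev (nat_lit 2663709294734904650697973359506883075) (nat_lit 2)) (.cons (.ev (nat_lit 340287579500206601961192364642607890433) (nat_lit 1)) (.cons (.br (nat_lit 16) (nat_lit 0) (.cons (.ev (nat_lit 2663709294113516779416616905071395331) (nat_lit 2)) (.cons (.ev (nat_lit 340282366921249162121454108692879310848) (nat_lit 1)) .nil))) .nil)))) (.cons (.br (nat_lit 12) (nat_lit 0) (.cons (.rf (nat_lit 1) (nat_lit 582032729390242)) (.cons (.ev (nat_lit 2663709294113516779416616905071395331) (nat_lit 2)) (.cons (.br (nat_lit 7) (nat_lit 0) (.cons (.rf (nat_lit 564) (nat_lit 21174406848009692573173792)) (.cons (.ev (nat_lit 87113620352052891310991136739260134064128) (nat_lit 1)) .nil))) .nil)))) .nil))))) (.cons (.br (nat_lit 12) (nat_lit 0) (.cons (.br (nat_lit 11) (nat_lit 0) (.cons (.ev (nat_lit 2663668571456954430440411010177171457) (nat_lit 2)) (.cons (.ev (nat_lit 340287579500206606665112103438543552513) (nat_lit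 1)) (.cons (.br (nat_lit 15) (nat_lit 0) (.cons (.ev (nat_lit 340287559297026374471900599668676034560) (nat_lit 1)) (.cons (.ev (nat_lit 2663709294734904650697973359473328131) (nat_lit 2)) .nil))) .nil)))) (.cons (.rf (nat_lit 625) (nat_lit 19926519232773908561233952)) (.cons (.br (nat_lit 7) (nat_lit 0) (.cons (.kr (nat_lit 5212579268143220112462866206949377) (nat_lit 158458742880312019633529946112) (nat_lit 0) (nat_lit 1)) (.cons (.ev (nat_lit 340282387282577438555128984705544814593) (nat_lit 1)) (.cons (.br (nat_lit 11) (nat_lit 0) (.cons (.ev (nat_lit 2663709294734895169071519472797352451) (nat_lit 2)) (.cons (.rf (nat_lit 523) (nat_lit 21169343211277342394553379)) .nil))) .nil)))) (.cons (.ev (nat_lit 340287559297026369731087372725304492288) (nat_lit 1)) (.cons (.br (nat_lit 15) (nat_lit 0) (.cons (.br (nat_lit 11) (nat_lit 0) (.cons (.ev (nat_lit 340287579500517295896833605819795833089) (nat_lit 1)) (.cons (.ev (nat_lit 2663709294734904650697973359473328131) (nat_lit 2)) .nil))) (.cons (.br (nat_lit 7) (nat_lit 0) (.cons (.ev (nat_lit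 2663668570840392854596909580628787713) (nat_lit 2)) (.cons (.rf (nat_lit 559) (nat_lit 21169528912377685949384736)) .nil))) (.cons (.br (nat_lit 11) (nat_lit 0) (.cons (.ev (nat_lit 2663668570840392854596909580628787713) (nat_lit 2)) (.cons (.ev (nat_lit 340282387282885714639130996615776632833) (nat_lit 1)) .nil))) (.cons (.ev (nat_lit 2663709294113516779416616905037840387) (nat_lit 2)) .nil))))) .nil)))))) (.cons (.br (nat_lit 11) (nat_lit 0) (.cons (.br (nat_lit 12) (nat_lit 0) (.cons (.kr (nat_lit 5212579268143220112462866206949377) (nat_lit 158458742880312019633529946112) (nat_lit 0) (nat_lit 1)) (.cons (.kr (nat_lit 5192296858534846075274574333739264) (nat_lit 79229371440156009816773361664) (nat_lit 1) (nat_lit 0)) (.cons (.br (nat_lit 15) (nat_lit 0) (.cons (.ev (nat_lit 2663668570840392854596909580628787713) (nat_lit 2)) (.cons (.ev (nat_lit 2663709294113516779416616905037840387) (nat_lit 2)) .nil))) .nil)))) (.cons (.rf (nat_lit 625) (nat_lit 19926519232773908561233952)) (.cons (.br (nat_lit 7) (nat_lit 0) (.cons (.ev (nat_lit 2663668571456954430440411010177171457)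 (nat_lit 2)) (.cons (.ev (nat_lit 2663668570840392854596909580628787713) (nat_lit 2)) (.cons (.br (nat_lit 17) (nat_lit 0) (.cons (.ev (nat_lit 87113620352052891310991136739260134064128) (nat_lit 1)) (.cons (.ev (nat_lit 87113615180038750655899180363150606205185) (nat_lit 1)) .nil))) .nil)))) (.cons (.br (nat_lit 12) (nat_lit 0) (.cons (.br (nat_lit 16) (nat_lit 0) (.cons (.ev (nat_lit 2663709294734904650697973359473328131) (nat_lit 2)) (.cons (.ev (nat_lit 340287579500206606665112103438560329985) (nat_lit 1)) .nil))) (.cons (.ev (nat_lit 2663709294734895169071519472797352451) (nat_lit 2)) (.cons (.br (nat_lit 7) (nat_lit 0) (.cons (.ev (nat_lit 2663709294734904650697973359473328131) (nat_lit 2)) (.cons (.ev (nat_lit 340282366920938463481893691678299062528) (nat_lit 1)) .nil))) (.cons (.br (nat_lit 15) (nat_lit 0) (.cons (.br (nat_lit 16) (nat_lit 0) (.cons (.ev (nat_lit 340282366921249162121454108692879310848) (nat_lit 1)) .nil)) (.cons (.rf (nat_lit 401) (nat_lit 20668794532538853993504)) (.cons (.ev (nat_lit 2663709294113516779416616905037840387)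 (nat_lit 2)) .nil)))) .nil))))) (.cons (.br (nat_lit 7) (nat_lit 0) (.cons (.br (nat_lit 15) (nat_lit 0) (.cons (.rf (nat_lit 497) (nat_lit 21174442658381030098044960)) (.cons (.ev (nat_lit 2663709294734904650697973359473328131) (nat_lit 2)) .nil))) (.cons (.br (nat_lit 17) (nat_lit 0) (.cons (.ev (nat_lit 2663709294734904650697973359473328131) (nat_lit 2)) (.cons (.ev (nat_lit 87113620352053199582334325524227027894528) (nat_lit 1)) .nil))) (.cons (.br (nat_lit 12) (nat_lit 0) (.cons (.rf (nat_lit 626) (nat_lit 21174442659471745632798752)) (.cons (.ev (nat_lit 340287559297334645815088821694189600768) (nat_lit 1)) (.cons (.rf (nat_lit 627) (nat_lit 661701333108527519141953)) .nil)))) (.cons (.br (nat_lit 12) (nat_lit 0) (.cons (.ev (nat_lit 87113620352052891310991136739260134064128) (nat_lit 1)) (.cons (.rf (nat_lit 628) (nat_lit 677582165103132179601393696)) .nil))) .nil))))) .nil)))))) .nil))))))),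
 (.br (nat_lit 7) (nat_lit 0) (.cons (.kr (nat_lit 5192296858534846075274574333739008) (nat_lit 79229371440156009816756584448) (nat_lit 4) (nat_lit 0)) (.cons (.kr (nat_lit 158458742880312019633513168897) (nat_lit 5212579268143220112462866223726592) (nat_lit 0) (nat_lit 1)) (.cons (.kr (nat_lit 79229371440156009816756584449) (nat_lit 5192296858534846075274574333739264) (nat_lit 0) (nat_lit 2)) (.cons (.br (nat_lit 15) (nat_lit 0) (.cons (.ev (nat_lit 5322246575637425589522406665162326017) (nat_lit 3)) (.cons (.ev (nat_lit 5322246575637425589522406665162327045) (nat_lit 3)) (.cons (.ev (nat_lit 5322165129091177739882992016277110789) (nat_lit 3)) .nil)))) .nil))))),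
 (.br (nat_lit 2) (nat_lit 0) (.cons (.br (nat_lit 11) (nat_lit 0) (.cons (.kr (nat_lit 5192296858534846075274574333739008) (nat_lit 79229371440156009816756584448) (nat_lit 4) (nat_lit 0)) (.cons (.ev (nat_lit 2663668570840392854596909580662341633) (nat_lit 2)) (.cons (.br (nat_lit 12) (nat_lit 0) (.cons (.ev (nat_lit 2663709294734895169071519472763798017) (nat_lit 2)) (.cons (.ev (nat_lit 340282366921249157417534369896943648768) (nat_lit 1)) (.cons (.br (nat_lit 15) (nat_lit 0) (.cons (.ev (nat_lit 340282366920938468185813430474251501825) (nat_lit 1)) (.cons (.ev (nat_lit 2663709294113516779416616905037840387) (nat_lit 2)) .nil))) .nil)))) (.cons (.br (nat_lit 12) (nat_lit 0) (.cons (.rf (nat_lit 1) (nat_lit 582036118284450)) (.cons (.br (nat_lit 15) (nat_lit 0) (.cons (.ev (nat_lit 2663709294113516779416616905037840387) (nat_lit 2)) (.cons (.rf (nat_lit 523) (nat_lit 21169684484758249082564640)) .nil))) (.cons (.br (nat_lit 15) (nat_lit 0) (.cons (.rf (nat_lit 295) (nat_lit 20662921896706620930209)) (.cons (.ev (nat_lit 2663709294113516779416616905037840387)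 (nat_lit 2)) .nil))) .nil)))) .nil))))) (.cons (.rf (nat_lit 629) (nat_lit 19926519197871011449112608)) (.cons (.br (nat_lit 7) (nat_lit 0) (.cons (.kr (nat_lit 5192296858534846075274574333739008) (nat_lit 79229371440156009816756584448) (nat_lit 4) (nat_lit 0)) (.cons (.br (nat_lit 11) (nat_lit 0) (.cons (.ev (nat_lit 2663709294734904650697973359506883075) (nat_lit 2)) (.cons (.rf (nat_lit 1) (nat_lit 582035950676130)) .nil))) (.cons (.br (nat_lit 11) (nat_lit 0) (.cons (.ev (nat_lit 2663668570840392854596909580662342147) (nat_lit 2)) (.cons (.ev (nat_lit 340282366921249157417534369896943649025) (nat_lit 1)) (.cons (.br (nat_lit 15) (nat_lit 0) (.cons (.ev (nat_lit 2663709294113516779416616905037840897) (nat_lit 2)) (.cons (.rf (nat_lit 452) (nat_lit 624943635110177199399074)) .nil))) .nil)))) (.cons (.br (nat_lit 15) (nat_lit 0) (.cons (.rf (nat_lit 1) (nat_lit 581898645940386)) (.cons (.ev (nat_lit 2663709294113516779416616905037840897) (nat_lit 2)) (.cons (.br (nat_lit 11) (nat_lit 0) (.cons (.br (nat_lit 16) (nat_lit 0) (.cons (.ev (nat_lit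 340287579500206606665112103438560329985) (nat_lit 1)) .nil)) (.cons (.ev (nat_lit 87113620352053199582334325524227011117056) (nat_lit 1)) .nil))) .nil)))) .nil))))) (.cons (.br (nat_lit 11) (nat_lit 0) (.cons (.ev (nat_lit 2663668570840392854596909580662341633) (nat_lit 2)) (.cons (.ev (nat_lit 5322246575637425589522406665162326017) (nat_lit 3)) (.cons (.br (nat_lit 7) (nat_lit 0) (.cons (.ev (nat_lit 2663709294734904650697973359506883075) (nat_lit 2)) (.cons (.ev (nat_lit 340287579500206601961192364642607890433) (nat_lit 1)) (.cons (.br (nat_lit 16) (nat_lit 0) (.cons (.ev (nat_lit 2663709294113516779416616905037840897) (nat_lit 2)) (.cons (.ev (nat_lit 340282366921249162121454108692862533633) (nat_lit 1)) .nil))) .nil)))) (.cons (.br (nat_lit 12) (nat_lit 0) (.cons (.rf (nat_lit 1) (nat_lit 582032729548962)) (.cons (.ev (nat_lit 2663709294113516779416616905037840897) (nat_lit 2)) (.cons (.br (nat_lit 7) (nat_lit 0) (.cons (.rf (nat_lit 258) (nat_lit 20662921896706620930085)) (.cons (.ev (nat_lit 87113620352052891310991136739260134064128)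 (nat_lit 1)) .nil))) .nil)))) .nil))))) (.cons (.br (nat_lit 12) (nat_lit 0) (.cons (.br (nat_lit 11) (nat_lit 0) (.cons (.ev (nat_lit 2663668571456954430440411010177171457) (nat_lit 2)) (.cons (.ev (nat_lit 340287579500206606665112103438560329728) (nat_lit 1)) (.cons (.br (nat_lit 15) (nat_lit 0) (.cons (.ev (nat_lit 340287559297026374471900599668676034560) (nat_lit 1)) (.cons (.ev (nat_lit 2663709294734904650697973359506882561) (nat_lit 2)) .nil))) .nil)))) (.cons (.rf (nat_lit 630) (nat_lit 19926519232773908561233952)) (.cons (.br (nat_lit 7) (nat_lit 0) (.cons (.kr (nat_lit 158458742880312019633513168897) (nat_lit 5212579268143220112462866223726592) (nat_lit 0) (nat_lit 1)) (.cons (.ev (nat_lit 340282387282577438555128984705544814593) (nat_lit 1)) (.cons (.br (nat_lit 11) (nat_lit 0) (.cons (.ev (nat_lit 2663709294734895169071519472763798017) (nat_lit 2)) (.cons (.rf (nat_lit 523) (nat_lit 21169343211277342397794336)) .nil))) .nil)))) (.cons (.ev (nat_lit 340287559297026369731087372725304492288) (nat_lit 1)) (.cons (.br (nat_lit 15) (nat_lit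 0) (.cons (.br (nat_lit 11) (nat_lit 0) (.cons (.ev (nat_lit 340287579500517295896833605819795833089) (nat_lit 1)) (.cons (.ev (nat_lit 2663709294734904650697973359506882561) (nat_lit 2)) .nil))) (.cons (.br (nat_lit 7) (nat_lit 0) (.cons (.ev (nat_lit 2663668570840392854596909580662342147) (nat_lit 2)) (.cons (.rf (nat_lit 559) (nat_lit 21169528912377685848626211)) .nil))) (.cons (.br (nat_lit 11) (nat_lit 0) (.cons (.ev (nat_lit 2663668570840392854596909580662342147) (nat_lit 2)) (.cons (.ev (nat_lit 340282387282885714639130996615793410048) (nat_lit 1)) .nil))) (.cons (.ev (nat_lit 2663709294113516779416616905037840387) (nat_lit 2)) .nil))))) .nil)))))) (.cons (.br (nat_lit 11) (nat_lit 0) (.cons (.br (nat_lit 12) (nat_lit 0) (.cons (.kr (nat_lit 158458742880312019633513168897) (nat_lit 5212579268143220112462866223726592) (nat_lit 0) (nat_lit 1)) (.cons (.kr (nat_lit 79229371440156009816756584449) (nat_lit 5192296858534846075274574333739264) (nat_lit 0) (nat_lit 2)) (.cons (.br (nat_lit 15) (nat_lit 0) (.cons (.ev (nat_lit 2663668570840392854596909580662342147)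 (nat_lit 2)) (.cons (.ev (nat_lit 2663709294113516779416616905037840387) (nat_lit 2)) .nil))) .nil)))) (.cons (.rf (nat_lit 630) (nat_lit 19926519232773908561233952)) (.cons (.br (nat_lit 7) (nat_lit 0) (.cons (.ev (nat_lit 2663668571456954430440411010177171457) (nat_lit 2)) (.cons (.ev (nat_lit 2663668570840392854596909580662342147) (nat_lit 2)) (.cons (.br (nat_lit 17) (nat_lit 0) (.cons (.ev (nat_lit 87113620352052891310991136739260134064128) (nat_lit 1)) (.cons (.ev (nat_lit 87113615180038750655899180363150622982400) (nat_lit 1)) .nil))) .nil)))) (.cons (.br (nat_lit 12) (nat_lit 0) (.cons (.br (nat_lit 16) (nat_lit 0) (.cons (.ev (nat_lit 2663709294734904650697973359506882561) (nat_lit 2)) (.cons (.ev (nat_lit 340287579500206606665112103438560329985) (nat_lit 1)) .nil))) (.cons (.ev (nat_lit 2663709294734895169071519472763798017) (nat_lit 2)) (.cons (.br (nat_lit 7) (nat_lit 0) (.cons (.ev (nat_lit 2663709294734904650697973359506882561) (nat_lit 2)) (.cons (.ev (nat_lit 340282366920938463481893691678299062528) (nat_lit 1)) .nil))) (.cons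 (.br (nat_lit 15) (nat_lit 0) (.cons (.br (nat_lit 16) (nat_lit 0) (.cons (.ev (nat_lit 340282366921249162121454108692862533633) (nat_lit 1)) .nil)) (.cons (.rf (nat_lit 401) (nat_lit 20668794532542071974947)) (.cons (.ev (nat_lit 2663709294113516779416616905037840387) (nat_lit 2)) .nil)))) .nil))))) (.cons (.br (nat_lit 7) (nat_lit 0) (.cons (.br (nat_lit 15) (nat_lit 0) (.cons (.rf (nat_lit 258) (nat_lit 20674739352290723960869)) (.cons (.ev (nat_lit 2663709294734904650697973359506882561) (nat_lit 2)) .nil))) (.cons (.br (nat_lit 17) (nat_lit 0) (.cons (.ev (nat_lit 2663709294734904650697973359506882561) (nat_lit 2)) (.cons (.ev (nat_lit 87113620352053199582334325524227011117313) (nat_lit 1)) .nil))) (.cons (.br (nat_lit 12) (nat_lit 0) (.cons (.rf (nat_lit 295) (nat_lit 20674739352290723960993)) (.cons (.ev (nat_lit 340287559297334645815088821694189600768) (nat_lit 1)) (.cons (.rf (nat_lit 549) (nat_lit 20672223803833233840165)) .nil)))) (.cons (.br (nat_lit 12) (nat_lit 0) (.cons (.ev (nat_lit 87113620352052891310991136739260134064128)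 (nat_lit 1)) (.cons (.rf (nat_lit 628) (nat_lit 677582165103132179601393696)) .nil))) .nil))))) .nil)))))) .nil)))))))]

theorem c31 : chkAll C T R L31 (nat_lit 615) = true := by decide +kernel

theorem l31 : (nat_lit 615) + L31.length = (nat_lit 632) := by decide +kernel

/-- part of the certificates -/
def L32 : List Prf := [(.br (nat_lit 15) (nat_lit 0) (.cons (.ev (nat_lit 1329248278505213460215473279936299008) (nat_lit 1)) .nil)),
 (.br (nat_lit 5) (nat_lit 0) (.cons (.ev (nat_lit 1329248278505213460215473279919522048) (nat_lit 1)) (.cons (.rf (nat_lit 632) (nat_lit 19926519232773908561233952)) .nil))),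
 (.br (nat_lit 15) (nat_lit 0) (.cons (.ev (nat_lit 2663668570840392854597472539172143107) (nat_lit 2)) (.cons (.ev (nat_lit 2663668570840392854597472539205697537) (nat_lit 2)) (.cons (.br (nat_lit 12) (nat_lit 0) (.cons (.kr (nat_lit 5212579268143220112462866206949377) (nat_lit 159075295048315480512630095872) (nat_lit 0) (nat_lit 1)) (.cons (.kr (nat_lit 159075295048315480512613318657) (nat_lit 5212579268143220112462866223726592) (nat_lit 0) (nat_lit 1)) (.cons (.kr (nat_lit 159075295048315480512630095873) (nat_lit 5212579268143220112462866206949888) (nat_lit 0) (nat_lit 2)) (.cons (.br (nat_lit 2) (nat_lit 0) (.cons (.rf (nat_lit 1) (nat_lit 582070444402914)) (.cons (.br (nat_lit 5) (nat_lit 0) (.cons (.ev (nat_lit 1361134801959338956339221936486861767681) (nat_lit 3)) (.cons (.br (nat_lit 16) (nat_lit 0) (.cons (.ev (nat_lit 1361134801959338956339221936486794657793) (nat_lit 3)) .nil)) .nil))) (.cons (.br (nat_lit 17) (nat_lit 0) (.cons (.ev (nat_lit 348454465973615390898193698938973268738053) (nat_lit 3)) (.cons (.ev (nat_lit 348454465973615390898193698938973335847941)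 (nat_lit 3)) .nil))) .nil)))) .nil))))) (.cons (.br (nat_lit 11) (nat_lit 0) (.cons (.kr (nat_lit 5212579268143220112462866206949377) (nat_lit 159075295048315480512630095872) (nat_lit 0) (nat_lit 1)) (.cons (.kr (nat_lit 159075295048315480512613318657) (nat_lit 5212579268143220112462866223726592) (nat_lit 0) (nat_lit 1)) (.cons (.kr (nat_lit 159075295048315480512630095873) (nat_lit 5212579268143220112462866206949888) (nat_lit 0) (nat_lit 2)) (.cons (.br (nat_lit 2) (nat_lit 0) (.cons (.rf (nat_lit 1) (nat_lit 582036118218978)) (.cons (.br (nat_lit 5) (nat_lit 0) (.cons (.ev (nat_lit 1361134761551119154560894531665744102401) (nat_lit 3)) (.cons (.br (nat_lit 16) (nat_lit 0) (.cons (.ev (nat_lit 1361134761551119154560894531665676992513) (nat_lit 3)) .nil)) .nil))) (.cons (.br (nat_lit 17) (nat_lit 0) (.cons (.ev (nat_lit 348454465933209646976493942294701949321221) (nat_lit 3)) (.cons (.ev (nat_lit 348454465933209646976493942294702016431109) (nat_lit 3)) .nil))) .nil)))) .nil))))) (.cons (.ev (nat_lit 2663668570840392854597472539172143617) (nat_lit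 2)) (.cons (.br (nat_lit 11) (nat_lit 0) (.cons (.rf (nat_lit 629) (nat_lit 19926519197871011449112608)) (.cons (.rf (nat_lit 631) (nat_lit 19926519197871011449112608)) (.cons (.br (nat_lit 2) (nat_lit 0) (.cons (.rf (nat_lit 1) (nat_lit 582170302392546)) (.cons (.rf (nat_lit 633) (nat_lit 21174442659471745632798752)) (.cons (.br (nat_lit 17) (nat_lit 0) (.cons (.ev (nat_lit 87113615180038442379815178632711056130048) (nat_lit 1)) (.cons (.ev (nat_lit 87113615180038442379815178632711072907520) (nat_lit 1)) .nil))) .nil)))) (.cons (.br (nat_lit 12) (nat_lit 0) (.cons (.kr (nat_lit 5192296858534846075274574333739264) (nat_lit 79537647524157740256323436544) (nat_lit 1) (nat_lit 0)) (.cons (.kr (nat_lit 79537647524157740256306659329) (nat_lit 5192296858534846075274574333739264) (nat_lit 0) (nat_lit 2)) (.cons (.kr (nat_lit 79537647524157740256323436545) (nat_lit 5192296858534846075274574333739520) (nat_lit 0) (nat_lit 2)) (.cons (.ev (nat_lit 2663709294113516779416616905037840387) (nat_lit 2)) .nil))))) (.cons (.ev (nat_lit 2663668571456945022600370459728936963)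 (nat_lit 2)) .nil)))))) .nil))))))),
 (.br (nat_lit 15) (nat_lit 0) (.cons (.ev (nat_lit 5322206167417642626872831145026782725) (nat_lit 3)) (.cons (.ev (nat_lit 5322206167417642626872831144959673857) (nat_lit 3)) (.cons (.ev (nat_lit 5322206167417642626872831145026781697) (nat_lit 3)) (.cons (.ev (nat_lit 5322124722104499113240338254408974849) (nat_lit 3)) .nil))))),
 (.br (nat_lit 15) (nat_lit 0) (.cons (.ev (nat_lit 5348086445010115767939518518574186496) (nat_lit 3)) (.cons (.ev (nat_lit 5327316939425386435157872537992429568) (nat_lit 3)) (.cons (.ev (nat_lit 5327316939425386435157872538059539456) (nat_lit 3)) (.cons (.ev (nat_lit 87113620352053199582334325524227011117056) (nat_lit 1)) .nil))))),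
 (.br (nat_lit 15) (nat_lit 0) (.cons (.ev (nat_lit 5322206167417642626872831144993226757) (nat_lit 3)) (.cons (.ev (nat_lit 5322206167417642626872831144993227777) (nat_lit 3)) (.cons (.ev (nat_lit 5322124722104499113240338254442528769) (nat_lit 3)) .nil)))),
 (.br (nat_lit 11) (nat_lit 0) (.cons (.rf (nat_lit 629) (nat_lit 19926519197871011449112608)) (.cons (.rf (nat_lit 631) (nat_lit 19926519197871011449112608)) (.cons (.rf (nat_lit 634) (nat_lit 19926519197871011449112608)) (.cons (.br (nat_lit 7) (nat_lit 0) (.cons (.kr (nat_lit 5212579268143220112462866206949377) (nat_lit 159075295048315480512630095872) (nat_lit 0) (nat_lit 1)) (.cons (.kr (nat_lit 159075295048315480512613318657) (nat_lit 5212579268143220112462866223726592) (nat_lit 0) (nat_lit 1)) (.cons (.kr (nat_lit 159075295048315480512630095873) (nat_lit 5212579268143220112462866206949888) (nat_lit 0) (nat_lit 2)) (.cons (.br (nat_lit 2) (nat_lit 0) (.cons (.rf (nat_lit 1) (nat_lit 581898645713218)) (.cons (.rf (nat_lit 633) (nat_lit 21164997925415565685524512)) (.cons (.rf (nat_lit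 454) (nat_lit 21157386076474030301584740)) .nil)))) .nil))))) (.cons (.br (nat_lit 7) (nat_lit 0) (.cons (.kr (nat_lit 5192296858534846075274574333739264) (nat_lit 79537647524157740256323436544) (nat_lit 1) (nat_lit 0)) (.cons (.kr (nat_lit 79537647524157740256306659329) (nat_lit 5192296858534846075274574333739264) (nat_lit 0) (nat_lit 2)) (.cons (.kr (nat_lit 159075295048315480512630095873) (nat_lit 5212579268143220112462866206949888) (nat_lit 0) (nat_lit 2)) (.cons (.kr (nat_lit 79537647524157740256323436545) (nat_lit 5192296858534846075274574333739520) (nat_lit 0) (nat_lit 2)) (.cons (.br (nat_lit 15) (nat_lit 0) (.cons (.ev (nat_lit 5322246574404321253515484906861364737) (nat_lit 3)) (.cons (.ev (nat_lit 5322246574404321253515484906928473605) (nat_lit 3)) (.cons (.ev (nat_lit 5322246574404321253515484906861363717) (nat_lit 3)) (.cons (.ev (nat_lit 5322165129091177739882992016243556869) (nat_lit 3)) .nil))))) .nil)))))) (.cons (.br (nat_lit 2) (nat_lit 0) (.cons (.br (nat_lit 7) (nat_lit 0) (.cons (.rf (nat_lit 1) (nat_lit 582032829889762))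 (.cons (.rf (nat_lit 635) (nat_lit 677582165103132179601393696)) (.cons (.rf (nat_lit 636) (nat_lit 677582165103132179601393696)) .nil)))) (.cons (.br (nat_lit 15) (nat_lit 0) (.cons (.ev (nat_lit 5322206167417642626872831144959672327) (nat_lit 3)) (.cons (.ev (nat_lit 5322206167417642626872831145026782215) (nat_lit 3)) (.cons (.ev (nat_lit 5322124722104499113240338254408974339) (nat_lit 3)) .nil)))) (.cons (.br (nat_lit 7) (nat_lit 0) (.cons (.ev (nat_lit 5322206167417642626872831144993226757) (nat_lit 3)) (.cons (.ev (nat_lit 5322206167417642626872831145026782725) (nat_lit 3)) (.cons (.ev (nat_lit 5348086445010115767939518518574186496) (nat_lit 3)) .nil)))) (.cons (.br (nat_lit 7) (nat_lit 0) (.cons (.rf (nat_lit 637) (nat_lit 677582165103132179601393696)) (.cons (.rf (nat_lit 426) (nat_lit 20661614548820668071274)) (.cons (.rf (nat_lit 635) (nat_lit 677582165103132179601393696)) (.cons (.rf (nat_lit 636) (nat_lit 677582165103132179601393696)) .nil))))) (.cons (.br (nat_lit 7) (nat_lit 0) (.cons (.rf (nat_lit 637) (nat_lit 677582165103132179601393696))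 (.cons (.br (nat_lit 5) (nat_lit 0) (.cons (.rf (nat_lit 295) (nat_lit 19534206190117831347531)) (.cons (.ev (nat_lit 87113615180038750655899180363150606204928) (nat_lit 1)) .nil))) (.cons (.rf (nat_lit 635) (nat_lit 677582165103132179601393696)) (.cons (.rf (nat_lit 636) (nat_lit 677582165103132179601393696)) .nil))))) .nil)))))) .nil))))))),
 (.br (nat_lit 15) (nat_lit 0) (.cons (.ev (nat_lit 1329248278505213460215473279936299008) (nat_lit 1)) .nil)),
 (.br (nat_lit 11) (nat_lit 0) (.cons (.rf (nat_lit 629) (nat_lit 19926519197871011449112608)) (.cons (.rf (nat_lit 631) (nat_lit 19926519197871011449112608)) (.cons (.rf (nat_lit 634) (nat_lit 19926519197871011449112608)) (.cons (.rf (nat_lit 638) (nat_lit 19926519197871011449112608)) (.cons (.br (nat_lit 7) (nat_lit 0) (.cons (.ev (nat_lit 2663668571456945022600370459728937473) (nat_lit 2)) (.cons (.ev (nat_lit 2663668571456945022600370459762491907) (nat_lit 2)) (.cons (.ev (nat_lit 2663668570840402262436950131077021697) (nat_lit 2)) (.cons (.ev (nat_lit 2663668571456945022600370459728936963)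 (nat_lit 2)) (.cons (.br (nat_lit 2) (nat_lit 0) (.cons (.br (nat_lit 12) (nat_lit 0) (.cons (.ev (nat_lit 340282387282885719379943942088466432257) (nat_lit 1)) (.cons (.rf (nat_lit 246) (nat_lit 20674739176368863484226)) .nil))) (.cons (.br (nat_lit 5) (nat_lit 0) (.cons (.ev (nat_lit 340282387282885719379943942088466432257) (nat_lit 1)) (.cons (.rf (nat_lit 639) (nat_lit 21174442659471745632798752)) .nil))) (.cons (.br (nat_lit 5) (nat_lit 0) (.cons (.ev (nat_lit 340282387282885719379943942088466432257) (nat_lit 1)) (.cons (.rf (nat_lit 156) (nat_lit 21169564361627522663811104)) .nil))) (.cons (.br (nat_lit 17) (nat_lit 0) (.cons (.ev (nat_lit 87113615180038442379815178632711056130048) (nat_lit 1)) (.cons (.ev (nat_lit 87113620352053199587075138469699700916480) (nat_lit 1)) (.cons (.ev (nat_lit 87113615180038442379815178632711072907520) (nat_lit 1)) .nil)))) .nil))))) .nil)))))) (.cons (.br (nat_lit 7) (nat_lit 0) (.cons (.br (nat_lit 12) (nat_lit 0) (.cons (.rf (nat_lit 1) (nat_lit 582036051177634)) (.cons (.rf (nat_lit 459) (nat_lit 20661509840130375037290))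 (.cons (.rf (nat_lit 35) (nat_lit 661171665739320441289026)) .nil)))) (.cons (.br (nat_lit 12) (nat_lit 0) (.cons (.rf (nat_lit 1) (nat_lit 582036051336354)) (.cons (.rf (nat_lit 460) (nat_lit 20661509840130375037290)) (.cons (.br (nat_lit 17) (nat_lit 0) (.cons (.ev (nat_lit 87113620372414527863508813345703793262593) (nat_lit 1)) (.cons (.ev (nat_lit 87113620372414527863508813345703793262848) (nat_lit 1)) .nil))) .nil)))) (.cons (.ev (nat_lit 2663668570840402262436950131077021697) (nat_lit 2)) (.cons (.br (nat_lit 12) (nat_lit 0) (.cons (.rf (nat_lit 455) (nat_lit 20661509840130375037290)) (.cons (.rf (nat_lit 457) (nat_lit 20661509840130375037290)) (.cons (.rf (nat_lit 503) (nat_lit 19517811707560382837067)) (.cons (.br (nat_lit 17) (nat_lit 0) (.cons (.ev (nat_lit 87113620372414527863508813345703793262593) (nat_lit 1)) (.cons (.ev (nat_lit 87113620372414527863508813345703776485376) (nat_lit 1)) (.cons (.ev (nat_lit 87113620372414527863508813345703793262848) (nat_lit 1)) .nil)))) .nil))))) (.cons (.ev (nat_lit 2663668571456945022600370459728936963)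 (nat_lit 2)) .nil)))))) .nil))))))),
 (.br (nat_lit 5) (nat_lit 0) (.cons (.ev (nat_lit 1329248357733375974479809778246811648) (nat_lit 1)) .nil)),
 (.br (nat_lit 5) (nat_lit 0) (.cons (.ev (nat_lit 1329248357733375974479809778246811648) (nat_lit 1)) .nil)),
 (.br (nat_lit 7) (nat_lit 0) (.cons (.ev (nat_lit 340282387282577438555128984705544814593) (nat_lit 1)) (.cons (.rf (nat_lit 425) (nat_lit 19529558402988294582306)) .nil))),
 (.br (nat_lit 15) (nat_lit 0) (.cons (.ev (nat_lit 1329228075322568119355973696017727488) (nat_lit 1)) .nil)),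
 (.br (nat_lit 15) (nat_lit 0) (.cons (.ev (nat_lit 1329228075322568119355973696017727488) (nat_lit 1)) .nil)),
 (.br (nat_lit 7) (nat_lit 0) (.cons (.ev (nat_lit 340287559297026374471900599668659257345) (nat_lit 1)) .nil)),
 (.br (nat_lit 15) (nat_lit 0) (.cons (.ev (nat_lit 1329228075322568119355973696017727488) (nat_lit 1)) .nil)),
 (.br (nat_lit 15) (nat_lit 0) (.cons (.ev (nat_lit 1329228075322568119355973696017727488) (nat_lit 1)) .nil)),
 (.br (nat_lit 7) (nat_lit 0) (.cons (.ev (nat_lit 340287559297026374471900599668659257345) (nat_lit 1)) .nil)),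
 (.br (nat_lit 11) (nat_lit 0) (.cons (.rf (nat_lit 629) (nat_lit 19926519197871011449112608)) (.cons (.rf (nat_lit 631) (nat_lit 19926519197871011449112608)) (.cons (.rf (nat_lit 634) (nat_lit 19926519197871011449112608)) (.cons (.rf (nat_lit 638) (nat_lit 19926519197871011449112608)) (.cons (.rf (nat_lit 640) (nat_lit 19926519197871011449112608)) (.cons (.br (nat_lit 12) (nat_lit 0) (.cons (.br (nat_lit 5) (nat_lit 0) (.cons (.ev (nat_lit 340282366921249157417534369896943649025) (nat_lit 1)) (.cons (.ev (nat_lit 2663709294113516779416616905071394817) (nat_lit 2)) (.cons (.br (nat_lit 7) (nat_lit 0) (.cons (.ev (nat_lit 2663709294734904650697973359473328131) (nat_lit 2)) (.cons (.ev (nat_lit 340282366920938463481893691678299062528) (nat_lit 1)) .nil))) .nil)))) (.cons (.br (nat_lit 2) (nat_lit 0) (.cons (.ev (nat_lit 340282366921249157417534369896926871808) (nat_lit 1)) (.cons (.ev (nat_lit 2663709294113516779416616905071394817) (nat_lit 2)) (.cons (.br (nat_lit 7) (nat_lit 0) (.cons (.ev (nat_lit 2663709294734904650697973359506882561) (nat_lit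 2)) (.cons (.ev (nat_lit 340282366920938463481893691678299062528) (nat_lit 1)) .nil))) .nil)))) (.cons (.br (nat_lit 2) (nat_lit 0) (.cons (.ev (nat_lit 340287579500206606665112103438543552768) (nat_lit 1)) (.cons (.ev (nat_lit 2663709294734904650697973359473328131) (nat_lit 2)) (.cons (.br (nat_lit 5) (nat_lit 0) (.cons (.ev (nat_lit 2663709294734904650697973359506882561) (nat_lit 2)) (.cons (.ev (nat_lit 340287579500206606665112103438560329985) (nat_lit 1)) .nil))) .nil)))) (.cons (.ev (nat_lit 2663709294734895169071519472797351937) (nat_lit 2)) (.cons (.br (nat_lit 15) (nat_lit 0) (.cons (.br (nat_lit 5) (nat_lit 0) (.cons (.ev (nat_lit 340282366920938468185813430474234724608) (nat_lit 1)) (.cons (.rf (nat_lit 641) (nat_lit 661701333108527519141953)) .nil))) (.cons (.br (nat_lit 2) (nat_lit 0) (.cons (.ev (nat_lit 340282366920938468185813430474251501825) (nat_lit 1)) (.cons (.rf (nat_lit 642) (nat_lit 661701333108527519141953)) .nil))) (.cons (.br (nat_lit 5) (nat_lit 0) (.cons (.ev (nat_lit 340287579500517295896833605819795833089) (nat_lit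 1)) (.cons (.rf (nat_lit 641) (nat_lit 661701333108527351369953)) .nil))) (.cons (.ev (nat_lit 2663709294113516779416616905037840387) (nat_lit 2)) .nil))))) .nil)))))) (.cons (.br (nat_lit 2) (nat_lit 0) (.cons (.br (nat_lit 12) (nat_lit 0) (.cons (.br (nat_lit 15) (nat_lit 0) (.cons (.ev (nat_lit 340287559297026374471900599668676034560) (nat_lit 1)) (.cons (.ev (nat_lit 2663709294734904650697973359473328641) (nat_lit 2)) .nil))) (.cons (.rf (nat_lit 643) (nat_lit 677582165103132179601393696)) (.cons (.ev (nat_lit 340287559297026369731087372725304492288) (nat_lit 1)) (.cons (.br (nat_lit 15) (nat_lit 0) (.cons (.ev (nat_lit 2663709294734904650697973359473328641) (nat_lit 2)) (.cons (.ev (nat_lit 340282387282885714639130996615776633088) (nat_lit 1)) (.cons (.ev (nat_lit 2663709294113516779416616905037840387) (nat_lit 2)) .nil)))) .nil))))) (.cons (.br (nat_lit 5) (nat_lit 0) (.cons (.br (nat_lit 15) (nat_lit 0) (.cons (.ev (nat_lit 2663709294113516779416616905071395331) (nat_lit 2)) (.cons (.rf (nat_lit 425) (nat_lit 19529856774975938398245))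 .nil))) (.cons (.br (nat_lit 12) (nat_lit 0) (.cons (.ev (nat_lit 2663709294113516779416616905071395331) (nat_lit 2)) (.cons (.rf (nat_lit 467) (nat_lit 21157386076292496056822254)) .nil))) (.cons (.br (nat_lit 12) (nat_lit 0) (.cons (.ev (nat_lit 340287559297026374471900599668676034817) (nat_lit 1)) (.cons (.br (nat_lit 15) (nat_lit 0) (.cons (.ev (nat_lit 2663709294113516779416616905037840387) (nat_lit 2)) .nil)) .nil))) (.cons (.br (nat_lit 12) (nat_lit 0) (.cons (.rf (nat_lit 644) (nat_lit 21174442659471745632798752)) (.cons (.ev (nat_lit 340287559297334645815088821694189600768) (nat_lit 1)) (.cons (.rf (nat_lit 588) (nat_lit 21168357175125231452296227)) .nil)))) .nil))))) (.cons (.br (nat_lit 5) (nat_lit 0) (.cons (.br (nat_lit 15) (nat_lit 0) (.cons (.ev (nat_lit 2663709294113516779416616905037840897) (nat_lit 2)) (.cons (.rf (nat_lit 450) (nat_lit 624943635110177199399074)) .nil))) (.cons (.ev (nat_lit 2663709294113516779416616905071394817) (nat_lit 2)) (.cons (.ev (nat_lit 340287559297026369731087372725304492288) (nat_lit 1)) (.cons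 (.br (nat_lit 16) (nat_lit 0) (.cons (.ev (nat_lit 340287559297334645815088821694189601025) (nat_lit 1)) (.cons (.ev (nat_lit 2663709294113516779416616905037840897) (nat_lit 2)) (.cons (.ev (nat_lit 340287559297026369731087372725321269248) (nat_lit 1)) .nil)))) .nil))))) (.cons (.br (nat_lit 12) (nat_lit 0) (.cons (.ev (nat_lit 2663709294113516779416616905071394817) (nat_lit 2)) (.cons (.br (nat_lit 5) (nat_lit 0) (.cons (.ev (nat_lit 340287559297026374471900599668676034817) (nat_lit 1)) (.cons (.rf (nat_lit 645) (nat_lit 21174442659471745632798752)) .nil))) (.cons (.ev (nat_lit 2663709294113516779416616905037840897) (nat_lit 2)) (.cons (.br (nat_lit 5) (nat_lit 0) (.cons (.rf (nat_lit 465) (nat_lit 21157386076292496056822254)) (.cons (.ev (nat_lit 340282387282885714639130996615776632833) (nat_lit 1)) (.cons (.rf (nat_lit 646) (nat_lit 677582165103132179601393696)) .nil)))) .nil))))) (.cons (.br (nat_lit 5) (nat_lit 0) (.cons (.br (nat_lit 12) (nat_lit 0) (.cons (.ev (nat_lit 340287559297026374471900599668659257600) (nat_lit 1)) (.cons (.br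 (nat_lit 15) (nat_lit 0) (.cons (.ev (nat_lit 2663709294113516779416616905037840387) (nat_lit 2)) .nil)) .nil))) (.cons (.ev (nat_lit 340287559297026369731087372725304492288) (nat_lit 1)) (.cons (.br (nat_lit 12) (nat_lit 0) (.cons (.ev (nat_lit 340287559297026374471900599668659257600) (nat_lit 1)) (.cons (.ev (nat_lit 340282387282885714639130996615793410048) (nat_lit 1)) .nil))) (.cons (.br (nat_lit 7) (nat_lit 0) (.cons (.br (nat_lit 15) (nat_lit 0) (.cons (.ev (nat_lit 2663709294734904650697973359473328641) (nat_lit 2)) .nil)) (.cons (.br (nat_lit 12) (nat_lit 0) (.cons (.ev (nat_lit 2663709294734904650697973359473328641) (nat_lit 2)) .nil)) (.cons (.rf (nat_lit 410) (nat_lit 21174364070644599230671904)) .nil)))) .nil))))) (.cons (.br (nat_lit 5) (nat_lit 0) (.cons (.br (nat_lit 15) (nat_lit 0) (.cons (.rf (nat_lit 647) (nat_lit 21174442659471745632798752)) (.cons (.rf (nat_lit 568) (nat_lit 21168348320757002797061155)) (.cons (.ev (nat_lit 87113620352052891306250323512316796076288) (nat_lit 1)) .nil)))) (.cons (.br (nat_lit 16) (nat_lit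 0) (.cons (.ev (nat_lit 340287559297334645815088821694172823808) (nat_lit 1)) (.cons (.ev (nat_lit 2663709294113516779416616905071395331) (nat_lit 2)) (.cons (.ev (nat_lit 340287559297026369731087372725304492033) (nat_lit 1)) .nil)))) (.cons (.br (nat_lit 12) (nat_lit 0) (.cons (.rf (nat_lit 648) (nat_lit 21174442659471745632798752)) (.cons (.ev (nat_lit 2663709294113516779416616905071395331) (nat_lit 2)) (.cons (.rf (nat_lit 649) (nat_lit 677582165103132179601393696)) .nil)))) (.cons (.br (nat_lit 7) (nat_lit 0) (.cons (.br (nat_lit 15) (nat_lit 0) (.cons (.ev (nat_lit 2663709294734904650697973359473328641) (nat_lit 2)) .nil)) (.cons (.br (nat_lit 12) (nat_lit 0) (.cons (.ev (nat_lit 2663709294734904650697973359473328641) (nat_lit 2)) .nil)) (.cons (.rf (nat_lit 410) (nat_lit 21174364074022298850438179)) .nil)))) (.cons (.br (nat_lit 12) (nat_lit 0) (.cons (.br (nat_lit 15) (nat_lit 0) (.cons (.ev (nat_lit 340282387282577438555128984705561591808) (nat_lit 1)) .nil)) (.cons (.rf (nat_lit 588) (nat_lit 21168348320757002797061155)) (.cons (.ev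 (nat_lit 340287559297026369731087372725321269505) (nat_lit 1)) .nil)))) .nil)))))) .nil))))))) .nil))))))))]

theorem c32 : chkAll C T R L32 (nat_lit 632) = true := by decide +kernel

theorem l32 : (nat_lit 632) + L32.length = (nat_lit 651) := by decide +kernel

/-- part of the certificates -/
def L33 : List Prf := [(.br (nat_lit 8) (nat_lit 0) (.cons (.br (nat_lit 8) (nat_lit 0) (.cons (.br (nat_lit 4) (nat_lit 0) (.cons (.rf (nat_lit 447) (nat_lit 407791588458107939)) (.cons (.rf (nat_lit 447) (nat_lit 372888691345986595)) (.cons (.br (nat_lit 12) (nat_lit 1) (.cons (.rf (nat_lit 344) (nat_lit 289590489483296)) (.cons (.br (nat_lit 13) (nat_lit 1) (.cons (.br (nat_lit 6) (nat_lit 0) (.cons (.rf (nat_lit 527) (nat_lit 17022140885603946861603)) (.cons (.rf (nat_lit 527) (nat_lit 17022105982706834740259)) (.cons (.br (nat_lit 10) (nat_lit 1) (.cons (.rf (nat_lit 589) (nat_lit 583706118829961372505123)) (.cons (.br (nat_lit 11) (nat_lit 1) (.cons (.rf (nat_lit 589) (nat_lit 583706083927064260383779)) (.cons (.br (nat_lit 13) (nat_lit 0) (.cons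 (.br (nat_lit 1) (nat_lit 0) (.cons (.kr (nat_lit 1) (nat_lit 256) (nat_lit 0) (nat_lit 2)) (.cons (.kr (nat_lit 256) (nat_lit 16777216) (nat_lit 1) (nat_lit 0)) (.cons (.br (nat_lit 5) (nat_lit 0) (.cons (.ev (nat_lit 5253144087355282785341570885484547) (nat_lit 2)) (.cons (.rf (nat_lit 590) (nat_lit 583706118829961372505123)) (.cons (.rf (nat_lit 590) (nat_lit 583706083927064260383779)) (.cons (.br (nat_lit 2) (nat_lit 0) (.cons (.rf (nat_lit 591) (nat_lit 583706118829961372505123)) (.cons (.rf (nat_lit 591) (nat_lit 583706083927064260383779)) (.cons (.ev (nat_lit 5253144087355282785904529395286531) (nat_lit 2)) (.cons (.br (nat_lit 10) (nat_lit 0) (.cons (.kr (nat_lit 1208925819614629174706176) (nat_lit 309485009821345068724781056) (nat_lit 10) (nat_lit 0)) (.cons (.br (nat_lit 11) (nat_lit 0) (.cons (.ev (nat_lit 5253144708743117318450965884567555) (nat_lit 2)) (.cons (.rf (nat_lit 1) (nat_lit 582036052291745)) .nil))) (.cons (.rf (nat_lit 592) (nat_lit 19926519232664028167803939)) (.cons (.br (nat_lit 11) (nat_lit 0) (.cons (.rf (nat_lit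 1) (nat_lit 582001726107809)) (.cons (.rf (nat_lit 592) (nat_lit 19926519197761131055682595)) (.cons (.br (nat_lit 15) (nat_lit 0) (.cons (.br (nat_lit 16) (nat_lit 0) (.cons (.zr (nat_lit 1361129609660621079507427088051300466689) (nat_lit 2674033041223158573308825737671869440) (nat_lit 16) (nat_lit 15)) .nil)) (.cons (.ev (nat_lit 87113620372414527863490366883105060421888) (nat_lit 1)) .nil))) .nil)))) .nil))))) .nil))))) (.cons (.br (nat_lit 2) (nat_lit 0) (.cons (.rf (nat_lit 593) (nat_lit 583706118829961372505123)) (.cons (.rf (nat_lit 593) (nat_lit 583706083927064260383779)) (.cons (.ev (nat_lit 5253144087355282785904529395286531) (nat_lit 2)) (.cons (.br (nat_lit 10) (nat_lit 0) (.cons (.kr (nat_lit 1208925819614629174706176) (nat_lit 309485009821345068724781056) (nat_lit 10) (nat_lit 0)) (.cons (.br (nat_lit 11) (nat_lit 0) (.cons (.ev (nat_lit 5253144708743117318450965884567555) (nat_lit 2)) (.cons (.rf (nat_lit 1) (nat_lit 582032831069345)) .nil))) (.cons (.rf (nat_lit 594) (nat_lit 19926519232664028167803939)) (.cons (.br (nat_lit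 11) (nat_lit 0) (.cons (.rf (nat_lit 1) (nat_lit 581998504885409)) (.cons (.rf (nat_lit 594) (nat_lit 19926519197761131055682595)) (.cons (.br (nat_lit 12) (nat_lit 0) (.cons (.rf (nat_lit 595) (nat_lit 677582165103022299207963683)) (.cons (.ev (nat_lit 87113620372414527863490366601634378678273) (nat_lit 1)) .nil))) .nil)))) .nil))))) .nil))))) (.cons (.br (nat_lit 2) (nat_lit 0) (.cons (.rf (nat_lit 596) (nat_lit 19926519232664028167803939)) (.cons (.rf (nat_lit 596) (nat_lit 19926519197761131055682595)) (.cons (.br (nat_lit 10) (nat_lit 0) (.cons (.kr (nat_lit 1208925819614629174706176) (nat_lit 309485009821345068724781056) (nat_lit 10) (nat_lit 0)) (.cons (.br (nat_lit 11) (nat_lit 0) (.cons (.ev (nat_lit 5253144708743117318450965884567555) (nat_lit 2)) (.cons (.rf (nat_lit 1) (nat_lit 582036055437377)) .nil))) (.cons (.rf (nat_lit 597) (nat_lit 19926519232664028167803939)) (.cons (.br (nat_lit 11) (nat_lit 0) (.cons (.rf (nat_lit 1) (nat_lit 582001729253441)) (.cons (.rf (nat_lit 597) (nat_lit 19926519197761131055682595)) (.cons (.br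 (nat_lit 15) (nat_lit 0) (.cons (.br (nat_lit 16) (nat_lit 0) (.cons (.zr (nat_lit 1361155429168046527992145485388576718848) (nat_lit 2658476433057157797362114285118030849) (nat_lit 16) (nat_lit 5)) .nil)) (.cons (.ev (nat_lit 87113620372414527863490366883105043644673) (nat_lit 1)) .nil))) .nil)))) .nil))))) (.cons (.br (nat_lit 10) (nat_lit 0) (.cons (.kr (nat_lit 1208925819614629174706176) (nat_lit 309485009821345068724781056) (nat_lit 10) (nat_lit 0)) (.cons (.br (nat_lit 11) (nat_lit 0) (.cons (.ev (nat_lit 5253144708743117318450965884567555) (nat_lit 2)) (.cons (.rf (nat_lit 1) (nat_lit 582032834214977)) .nil))) (.cons (.rf (nat_lit 598) (nat_lit 19926519232664028167803939)) (.cons (.br (nat_lit 11) (nat_lit 0) (.cons (.rf (nat_lit 1) (nat_lit 581998508031041)) (.cons (.rf (nat_lit 598) (nat_lit 19926519197761131055682595)) (.cons (.br (nat_lit 12) (nat_lit 0) (.cons (.rf (nat_lit 599) (nat_lit 677582165103022299207963683)) (.cons (.ev (nat_lit 87113620372414527863490366601634361901056) (nat_lit 1)) .nil))) .nil)))) .nil))))) (.cons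 (.ev (nat_lit 5253144087355282785341570851930113) (nat_lit 2)) (.cons (.br (nat_lit 10) (nat_lit 0) (.cons (.kr (nat_lit 1208925819614629174706176) (nat_lit 309485009821345068724781056) (nat_lit 10) (nat_lit 0)) (.cons (.rf (nat_lit 600) (nat_lit 677582165103022299207963683)) (.cons (.rf (nat_lit 602) (nat_lit 677582165103022299207963683)) (.cons (.br (nat_lit 11) (nat_lit 0) (.cons (.rf (nat_lit 600) (nat_lit 677582165068119402095842339)) (.cons (.rf (nat_lit 602) (nat_lit 677582165068119402095842339)) (.cons (.br (nat_lit 12) (nat_lit 0) (.cons (.ev (nat_lit 2663709294113502612388662940220260867) (nat_lit 2)) (.cons (.rf (nat_lit 595) (nat_lit 640105464694968794792072227)) .nil))) (.cons (.ev (nat_lit 5253144708743117317888007341212161) (nat_lit 2)) .nil))))) (.cons (.br (nat_lit 11) (nat_lit 0) (.cons (.rf (nat_lit 600) (nat_lit 677582165068119402095842339)) (.cons (.rf (nat_lit 602) (nat_lit 677582165068119402095842339)) (.cons (.ev (nat_lit 5253144708743117317888007341212161) (nat_lit 2)) (.cons (.br (nat_lit 12) (nat_lit 0) (.cons (.ev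 (nat_lit 2663709294113502612388662940220260867) (nat_lit 2)) (.cons (.rf (nat_lit 599) (nat_lit 677582165103022299207963683)) .nil))) .nil))))) .nil)))))) .nil))))))) .nil))))))) (.cons (.rf (nat_lit 614) (nat_lit 583706118829961372505123)) (.cons (.rf (nat_lit 614) (nat_lit 583706083927064260383779)) (.cons (.br (nat_lit 10) (nat_lit 0) (.cons (.rf (nat_lit 616) (nat_lit 583706118829961372505123)) (.cons (.rf (nat_lit 615) (nat_lit 583706118829961372505123)) (.cons (.rf (nat_lit 617) (nat_lit 583706118829961372505123)) (.cons (.kr (nat_lit 1208925819614629174706176) (nat_lit 309485009821345068724781056) (nat_lit 10) (nat_lit 0)) (.cons (.rf (nat_lit 619) (nat_lit 583706118829961372505123)) (.cons (.br (nat_lit 11) (nat_lit 0) (.cons (.rf (nat_lit 616) (nat_lit 583706083927064260383779)) (.cons (.rf (nat_lit 615) (nat_lit 583706083927064260383779)) (.cons (.rf (nat_lit 617) (nat_lit 583706083927064260383779)) (.cons (.rf (nat_lit 619) (nat_lit 583706083927064260383779)) (.cons (.br (nat_lit 5) (nat_lit 0) (.cons (.br (nat_lit 9) (nat_lit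 0) (.cons (.ev (nat_lit 1329228233469408138063868959079465218) (nat_lit 2)) (.cons (.ev (nat_lit 1361134721146618013399780875939373909509) (nat_lit 3)) (.cons (.br (nat_lit 15) (nat_lit 0) (.cons (.ev (nat_lit 1361134721146618013399779750056646935041) (nat_lit 3)) (.cons (.br (nat_lit 16) (nat_lit 0) (.cons (.zr (nat_lit 1361129569095801872112210837463583688192) (nat_lit 2663648447506088936427295636747059203) (nat_lit 16) (nat_lit 12)) .nil)) .nil))) .nil)))) (.cons (.br (nat_lit 2) (nat_lit 0) (.cons (.ev (nat_lit 1329228233469408138063306017682424578) (nat_lit 2)) (.cons (.ev (nat_lit 5253461621383803718607420770223617) (nat_lit 3)) (.cons (.br (nat_lit 15) (nat_lit 0) (.cons (.ev (nat_lit 5322165129091191796229918606063830529) (nat_lit 3)) (.cons (.ev (nat_lit 2663790740664576794649346601707243013) (nat_lit 3)) .nil))) .nil)))) (.cons (.br (nat_lit 2) (nat_lit 0) (.cons (.ev (nat_lit 1329228233469408138063306017682424578) (nat_lit 2)) (.cons (.ev (nat_lit 5253461621383803717481538043249157) (nat_lit 3)) (.cons (.br (nat_lit 9) (nat_lit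 0) (.cons (.ev (nat_lit 5322165129091191796229918606063830529) (nat_lit 3)) (.cons (.ev (nat_lit 7980702406891609118671462690736702467) (nat_lit 3)) .nil))) .nil)))) (.cons (.br (nat_lit 9) (nat_lit 0) (.cons (.ev (nat_lit 5253461621383803718607420770223617) (nat_lit 3)) (.cons (.ev (nat_lit 1366451632811602269907165635424265699845) (nat_lit 3)) (.cons (.br (nat_lit 15) (nat_lit 0) (.cons (.ev (nat_lit 5253461621383803717481538043249157) (nat_lit 3)) (.cons (.ev (nat_lit 1366451632811602269907164509541538727425) (nat_lit 3)) .nil))) .nil)))) (.cons (.br (nat_lit 2) (nat_lit 0) (.cons (.br (nat_lit 15) (nat_lit 0) (.cons (.ev (nat_lit 5322165129091191796229918606130939397) (nat_lit 3)) (.cons (.ev (nat_lit 2663790740664576794649346601606579715) (nat_lit 3)) .nil))) (.cons (.br (nat_lit 9) (nat_lit 0) (.cons (.ev (nat_lit 5322165129091191796229918606130939397) (nat_lit 3)) (.cons (.ev (nat_lit 7980702406891609118671462690703148037) (nat_lit 3)) .nil))) (.cons (.br (nat_lit 9) (nat_lit 0) (.cons (.ev (nat_lit 1366451632811602269907165635424332808705)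 (nat_lit 3)) (.cons (.br (nat_lit 15) (nat_lit 0) (.cons (.ev (nat_lit 1366451632811602269907164509541605836293) (nat_lit 3)) .nil)) .nil))) (.cons (.br (nat_lit 16) (nat_lit 0) (.cons (.ev (nat_lit 1361134721146618013399780875939441018369) (nat_lit 3)) (.cons (.ev (nat_lit 1361134721146618013399779750056714043909) (nat_lit 3)) (.cons (.kr (nat_lit 680564754124286530578491696409137381377) (nat_lit 174224577055817351828093874561110339748352) (nat_lit 0) (nat_lit 2)) .nil)))) .nil))))) .nil)))))) (.cons (.br (nat_lit 5) (nat_lit 0) (.cons (.br (nat_lit 9) (nat_lit 0) (.cons (.ev (nat_lit 1329228233469408138063868959079465218) (nat_lit 2)) (.cons (.rf (nat_lit 620) (nat_lit 677582165103022299207963683)) (.cons (.rf (nat_lit 620) (nat_lit 640105464660065897679950883)) .nil)))) (.cons (.br (nat_lit 2) (nat_lit 0) (.cons (.ev (nat_lit 1329228233469408138063306017682424578) (nat_lit 2)) (.cons (.rf (nat_lit 621) (nat_lit 677582165103022299207963683)) (.cons (.rf (nat_lit 621) (nat_lit 640105464660065897679950883)) .nil)))) (.cons (.br (nat_lit 2)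 (nat_lit 0) (.cons (.ev (nat_lit 1329228233469408138063306017682424578) (nat_lit 2)) (.cons (.rf (nat_lit 622) (nat_lit 677582165103022299207963683)) (.cons (.rf (nat_lit 622) (nat_lit 640105464660065897679950883)) .nil)))) (.cons (.rf (nat_lit 623) (nat_lit 677582165103022299207963683)) (.cons (.rf (nat_lit 623) (nat_lit 640105464660065897679950883)) .nil)))))) .nil))))))) .nil))))))) (.cons (.kr (nat_lit 20282409603670117449495954325505) (nat_lit 5192296858534827700588094662115840) (nat_lit 0) (nat_lit 2)) (.cons (.br (nat_lit 10) (nat_lit 0) (.cons (.rf (nat_lit 631) (nat_lit 19926519232664028167803939)) (.cons (.rf (nat_lit 629) (nat_lit 19926519232664028167803939)) (.cons (.rf (nat_lit 634) (nat_lit 19926519232664028167803939)) (.cons (.kr (nat_lit 1208925819614629174706176) (nat_lit 309485009821345068724781056) (nat_lit 10) (nat_lit 0)) (.cons (.rf (nat_lit 638) (nat_lit 19926519232664028167803939)) (.cons (.rf (nat_lit 640) (nat_lit 19926519232664028167803939)) (.cons (.rf (nat_lit 650) (nat_lit 19926519232664028167803939)) (.cons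 (.br (nat_lit 11) (nat_lit 0) (.cons (.rf (nat_lit 631) (nat_lit 19926519197761131055682595)) (.cons (.rf (nat_lit 629) (nat_lit 19926519197761131055682595)) (.cons (.rf (nat_lit 634) (nat_lit 19926519197761131055682595)) (.cons (.rf (nat_lit 638) (nat_lit 19926519197761131055682595)) (.cons (.rf (nat_lit 640) (nat_lit 19926519197761131055682595)) (.cons (.rf (nat_lit 650) (nat_lit 19926519197761131055682595)) (.cons (.br (nat_lit 12) (nat_lit 0) (.cons (.br (nat_lit 15) (nat_lit 0) (.cons (.ev (nat_lit 2663709294113502612389225898730061827) (nat_lit 2)) (.cons (.ev (nat_lit 2663709294734890446921772335185788931) (nat_lit 2)) (.cons (.ev (nat_lit 2663709294113502612389225898763616771) (nat_lit 2)) (.cons (.ev (nat_lit 87113615159835570418946708606888680882176) (nat_lit 1)) .nil))))) (.cons (.br (nat_lit 15) (nat_lit 0) (.cons (.ev (nat_lit 2663709294113502612389225898730061827) (nat_lit 2)) (.cons (.ev (nat_lit 2663709294734890446921772335219343361) (nat_lit 2)) (.cons (.ev (nat_lit 2663709294113502612389225898730062337) (nat_lit 2)) (.cons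 (.ev (nat_lit 87113615159835570418946708606888697659393) (nat_lit 1)) .nil))))) (.cons (.br (nat_lit 15) (nat_lit 0) (.cons (.ev (nat_lit 2663709294734890446921772335185788931) (nat_lit 2)) (.cons (.ev (nat_lit 2663709294734890446921772335219343361) (nat_lit 2)) (.cons (.ev (nat_lit 2663709294734890446921772335185789441) (nat_lit 2)) (.cons (.ev (nat_lit 87113620372414527863490366883105043644416) (nat_lit 1)) .nil))))) (.cons (.ev (nat_lit 2663709294734890446921209376642433027) (nat_lit 2)) (.cons (.br (nat_lit 15) (nat_lit 0) (.cons (.ev (nat_lit 2663709294113502612389225898763616771) (nat_lit 2)) (.cons (.ev (nat_lit 2663709294113502612389225898730062337) (nat_lit 2)) (.cons (.ev (nat_lit 2663709294734890446921772335185789441) (nat_lit 2)) (.cons (.ev (nat_lit 2663709294113502612389225898763616257) (nat_lit 2)) (.cons (.ev (nat_lit 87113615159835570418946708606888680882433) (nat_lit 1)) .nil)))))) (.cons (.br (nat_lit 15) (nat_lit 0) (.cons (.ev (nat_lit 87113620372414527863490366601634361901056) (nat_lit 1)) (.cons (.ev (nat_lit 87113620372414527863490366601634378678273)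 (nat_lit 1)) (.cons (.ev (nat_lit 87113615159835570418946708888359362625536) (nat_lit 1)) (.cons (.ev (nat_lit 87113620372414527863490366601634361901313) (nat_lit 1)) .nil))))) .nil))))))) .nil)))))))) .nil))))))))) .nil))))))))) .nil)) .nil))) .nil))) .nil)))) .nil)) .nil))) .nil)))) .nil)) .nil)),
 (.br (nat_lit 16) (nat_lit 0) (.cons (.ev (nat_lit 340287559217796998291075478100918730753) (nat_lit 1)) (.cons (.ev (nat_lit 341611594995951546572981293648787341313) (nat_lit 1)) .nil))),
 (.br (nat_lit 8) (nat_lit 0) (.cons (.rf (nat_lit 456) (nat_lit 15878405778586166462496)) (.cons (.ev (nat_lit 5192376086697360411669757620649984) (nat_lit 1)) .nil))),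
 (.br (nat_lit 11) (nat_lit 0) (.cons (.ev (nat_lit 2658476512282897700727251607559995393) (nat_lit 2)) (.cons (.ev (nat_lit 2658476512285324997099444414799937537) (nat_lit 2)) (.cons (.ev (nat_lit 341611615278671844178667644153369722880) (nat_lit 1)) (.cons (.ev (nat_lit 10404955976228433287250360519360513) (nat_lit 2)) .nil))))),
 (.br (nat_lit 10) (nat_lit 0) (.cons (.kr (nat_lit 79228167236631101938182651905) (nat_lit 20282409603670117168025255805440) (nat_lit 0) (nat_lit 2)) (.cons (.kr (nat_lit 618970038233549399234969601) (nat_lit 20361637770888301525889728905216) (nat_lit 0) (nat_lit 1)) (.cons (.ev (nat_lit 341611594917034073271919374189964820481) (nat_lit 1)) (.cons (.ev (nat_lit 10404955976228433287250360519360513) (nat_lit 2)) .nil))))),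
 (.br (nat_lit 13) (nat_lit 0) (.cons (.ev (nat_lit 20361638979832639660711657668608) (nat_lit 1)) .nil)),
 (.br (nat_lit 2) (nat_lit 0) (.cons (.br (nat_lit 14) (nat_lit 0) (.cons (.br (nat_lit 11) (nat_lit 0) (.cons (.kr (nat_lit 20361637770906748269959126712321) (nat_lit 2668840585286901401064675117530873856) (nat_lit 0) (nat_lit 1)) (.cons (.br (nat_lit 15) (nat_lit 0) (.cons (.ev (nat_lit 2658476512285315589259966822895059457) (nat_lit 2)) (.cons (.rf (nat_lit 1) (nat_lit 582172426867777)) .nil))) .nil))) (.cons (.br (nat_lit 10) (nat_lit 0) (.cons (.kr (nat_lit 20361637770906748269959126712321) (nat_lit 2668840585286901401064675117530873856) (nat_lit 0) (nat_lit 1)) (.cons (.br (nat_lit 15) (nat_lit 0) (.cons (.ev (nat_lit 2658476512285315589259966822895059457) (nat_lit 2)) (.cons (.rf (nat_lit 1) (nat_lit 582172459373633)) .nil))) .nil))) (.cons (.ev (nat_lit 10405113811165627572174627656565251) (nat_lit 2)) (.cons (.br (nat_lit 10) (nat_lit 0) (.cons (.br (nat_lit 15) (nat_lit 0) (.cons (.ev (nat_lit 7985773406054698867409497828417208835)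 (nat_lit 3)) (.cons (.rf (nat_lit 1) (nat_lit 582169208788033)) .nil))) (.cons (.br (nat_lit 11) (nat_lit 0) (.cons (.ev (nat_lit 10404955976228433287250360519360513) (nat_lit 2)) (.cons (.rf (nat_lit 1) (nat_lit 616224001332289)) .nil))) (.cons (.br (nat_lit 11) (nat_lit 0) (.cons (.ev (nat_lit 10404955976228433287250360519360513) (nat_lit 2)) (.cons (.ev (nat_lit 340287579500517300600681285922165096705) (nat_lit 1)) (.cons (.br (nat_lit 15) (nat_lit 0) (.cons (.ev (nat_lit 4102028769135039382765075311527757088271) (nat_lit 4)) (.cons (.br (nat_lit 16) (nat_lit 0) (.cons (.zr (nat_lit 1363798328789134846578155157489174183941) (nat_lit 1864177781377558957630292992) (nat_lit 16) (nat_lit 14)) .nil)) .nil))) .nil)))) (.cons (.br (nat_lit 11) (nat_lit 0) (.cons (.rf (nat_lit 1) (nat_lit 616224033838145)) (.cons (.br (nat_lit 15) (nat_lit 0) (.cons (.ev (nat_lit 4091436484177453672295916285073480483331) (nat_lit 4)) (.cons (.br (nat_lit 16) (nat_lit 0) (.cons (.zr (nat_lit 1361129488204469356531220317598965172224) (nat_lit 8006521755860704221642739738254245895)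 (nat_lit 16) (nat_lit 7)) .nil)) .nil))) (.cons (.br (nat_lit 17) (nat_lit 0) (.cons (.ev (nat_lit 87113615159756342256432444269290841964544) (nat_lit 1)) (.cons (.ev (nat_lit 174224582248194370607242762929950316102403) (nat_lit 2)) .nil))) .nil)))) .nil))))) .nil))))) (.cons (.br (nat_lit 5) (nat_lit 0) (.cons (.br (nat_lit 14) (nat_lit 0) (.cons (.ev (nat_lit 10405113811165627571611686326632451) (nat_lit 2)) (.cons (.br (nat_lit 15) (nat_lit 0) (.cons (.ev (nat_lit 7985773406054698867410623745436812803) (nat_lit 3)) (.cons (.rf (nat_lit 1) (nat_lit 582169041020993)) .nil))) .nil))) (.cons (.ev (nat_lit 10405113811175035411652219561443841) (nat_lit 2)) (.cons (.ev (nat_lit 2658476353207612134327018307761340417) (nat_lit 2)) (.cons (.br (nat_lit 11) (nat_lit 0) (.cons (.ev (nat_lit 10404955976237914914267188558823937) (nat_lit 2)) (.cons (.ev (nat_lit 2658476512285324997100007356163424257) (nat_lit 2)) (.cons (.br (nat_lit 14) (nat_lit 0) (.cons (.ev (nat_lit 2689630611591978652101865424262661125) (nat_lit 3)) (.cons (.ev (nat_lit 1361171026424609684630708357641011593733)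 (nat_lit 4)) (.cons (.br (nat_lit 15) (nat_lit 0) (.cons (.ev (nat_lit 4094022248333023596238760349768031014401) (nat_lit 4)) (.cons (.ev (nat_lit 1344804887292616348330810498466513411) (nat_lit 2)) .nil))) .nil)))) (.cons (.br (nat_lit 14) (nat_lit 0) (.cons (.rf (nat_lit 1) (nat_lit 582036189587521)) (.cons (.br (nat_lit 15) (nat_lit 0) (.cons (.ev (nat_lit 4096691088281378248909469243154276811271) (nat_lit 4)) (.cons (.ev (nat_lit 1344804887292616348330810498466513411) (nat_lit 2)) .nil))) (.cons (.br (nat_lit 15) (nat_lit 0) (.cons (.ev (nat_lit 1344865971584512826344307106261434370) (nat_lit 2)) (.cons (.ev (nat_lit 348457191807535838910822523650352196092427) (nat_lit 4)) .nil))) .nil)))) .nil))))) .nil))))) (.cons (.br (nat_lit 5) (nat_lit 0) (.cons (.br (nat_lit 14) (nat_lit 0) (.cons (.ev (nat_lit 10405113811165627571611686326632451) (nat_lit 2)) (.cons (.br (nat_lit 15) (nat_lit 0) (.cons (.ev (nat_lit 7985773406054698867410623745436812803) (nat_lit 3)) (.cons (.rf (nat_lit 1) (nat_lit 582167967280193)) .nil))) .nil))) (.cons (.ev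 (nat_lit 10405113811175035411089278197956611) (nat_lit 2)) (.cons (.ev (nat_lit 2658476353207612134326455366397854211) (nat_lit 2)) (.cons (.br (nat_lit 10) (nat_lit 0) (.cons (.ev (nat_lit 10404955976237914913704247195336707) (nat_lit 2)) (.cons (.ev (nat_lit 2658476512285324997099444414799938051) (nat_lit 2)) (.cons (.br (nat_lit 14) (nat_lit 0) (.cons (.ev (nat_lit 2689630293436552926557576185975800323) (nat_lit 3)) (.cons (.ev (nat_lit 4083429962739127015502832100760560992267) (nat_lit 4)) (.cons (.br (nat_lit 15) (nat_lit 0) (.cons (.ev (nat_lit 1371763312649845976512413889818905675779) (nat_lit 4)) (.cons (.ev (nat_lit 1344805045127553542614890353592041730) (nat_lit 2)) .nil))) .nil)))) (.cons (.br (nat_lit 14) (nat_lit 0) (.cons (.rf (nat_lit 1) (nat_lit 582001829850177)) (.cons (.br (nat_lit 15) (nat_lit 0) (.cons (.ev (nat_lit 4096691088281378248909466991388822866447) (nat_lit 4)) (.cons (.ev (nat_lit 1344865813749575632060227251135906051) (nat_lit 2)) .nil))) (.cons (.br (nat_lit 15) (nat_lit 0) (.cons (.ev (nat_lit 1344805045127553542614890353592041730)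 (nat_lit 2)) (.cons (.ev (nat_lit 348467784093761075297077773552452045377039) (nat_lit 4)) .nil))) .nil)))) .nil))))) .nil))))) (.cons (.br (nat_lit 5) (nat_lit 0) (.cons (.ev (nat_lit 10405113811175035411652219527889411) (nat_lit 2)) (.cons (.ev (nat_lit 10405113811175035411089278164402177) (nat_lit 2)) (.cons (.kr (nat_lit 20361637770906747988488461746177) (nat_lit 2668840585286901401064956588195840512) (nat_lit 0) (nat_lit 2)) (.cons (.br (nat_lit 15) (nat_lit 0) (.cons (.kr (nat_lit 79228167236630820463189164033) (nat_lit 1334420292643450700532337556609564928) (nat_lit 0) (nat_lit 2)) (.cons (.kr (nat_lit 20282409603670117168020960837633) (nat_lit 1334420292643450700532337556626341888) (nat_lit 0) (nat_lit 1)) (.cons (.ev (nat_lit 2658476353207602652700564421051809793) (nat_lit 2)) (.cons (.br (nat_lit 10) (nat_lit 0) (.cons (.rf (nat_lit 1) (nat_lit 582169199360065)) (.cons (.rf (nat_lit 652) (nat_lit 677582165103132179601393696)) (.cons (.br (nat_lit 11) (nat_lit 0) (.cons (.br (nat_lit 16) (nat_lit 0) (.cons (.ev (nat_lit 341611594995951546572981575128059019520)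 (nat_lit 1)) .nil)) (.cons (.ev (nat_lit 87113615159756342256432444269290841964544) (nat_lit 1)) .nil))) .nil)))) .nil))))) .nil))))) (.cons (.br (nat_lit 5) (nat_lit 0) (.cons (.ev (nat_lit 2658476353207612134327018307794894851) (nat_lit 2)) (.cons (.ev (nat_lit 2658476353207612134326455366431408641) (nat_lit 2)) (.cons (.kr (nat_lit 20361637770906747988488461746177) (nat_lit 2668840585286901401064956588195840512) (nat_lit 0) (nat_lit 2)) (.cons (.br (nat_lit 14) (nat_lit 0) (.cons (.kr (nat_lit 79228167236630820463189164033) (nat_lit 1334420292643450700532337556609564928) (nat_lit 0) (nat_lit 2)) (.cons (.kr (nat_lit 20282409603670117168020960837633) (nat_lit 1334420292643450700532337556626341888) (nat_lit 0) (nat_lit 1)) (.cons (.ev (nat_lit 10405113811165627572174627690119681) (nat_lit 2)) (.cons (.br (nat_lit 10) (nat_lit 0) (.cons (.rf (nat_lit 1) (nat_lit 582134839622721)) (.cons (.br (nat_lit 16) (nat_lit 0) (.cons (.ev (nat_lit 341611615199132987710387380002494677248) (nat_lit 1)) (.cons (.ev (nat_lit 340287579579434764457010239641713967360)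 (nat_lit 1)) .nil))) (.cons (.br (nat_lit 11) (nat_lit 0) (.cons (.rf (nat_lit 7) (nat_lit 624909156956571379533856)) (.cons (.ev (nat_lit 87112291144339825483761206181023059017985) (nat_lit 1)) .nil))) .nil)))) .nil))))) .nil))))) (.cons (.br (nat_lit 5) (nat_lit 0) (.cons (.br (nat_lit 11) (nat_lit 0) (.cons (.ev (nat_lit 10404955976237914914267188592378371) (nat_lit 2)) (.cons (.ev (nat_lit 2658476512285324997100007356129869827) (nat_lit 2)) (.cons (.br (nat_lit 14) (nat_lit 0) (.cons (.ev (nat_lit 2689630611591978652101865424296215555) (nat_lit 3)) (.cons (.ev (nat_lit 1361171026424609684630708357641112257039) (nat_lit 4)) (.cons (.br (nat_lit 15) (nat_lit 0) (.cons (.ev (nat_lit 4094022248333023596238760349767796133391) (nat_lit 4)) (.cons (.ev (nat_lit 1344804887292616348330810498483290626) (nat_lit 2)) .nil))) .nil)))) (.cons (.br (nat_lit 14) (nat_lit 0) (.cons (.rf (nat_lit 1) (nat_lit 582036186441889)) (.cons (.br (nat_lit 15) (nat_lit 0) (.cons (.ev (nat_lit 4096691088281378248909469243154209702411) (nat_lit 4)) (.cons (.ev (nat_lit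 1344804887292616348330810498483290626) (nat_lit 2)) .nil))) (.cons (.br (nat_lit 15) (nat_lit 0) (.cons (.ev (nat_lit 1344865971584512826344307106244657155) (nat_lit 2)) (.cons (.ev (nat_lit 348457191807535838910822523650352330310147) (nat_lit 4)) .nil))) .nil)))) .nil))))) (.cons (.br (nat_lit 10) (nat_lit 0) (.cons (.ev (nat_lit 10404955976237914913704247228891137) (nat_lit 2)) (.cons (.ev (nat_lit 2658476512285324997099444414766383617) (nat_lit 2)) (.cons (.br (nat_lit 14) (nat_lit 0) (.cons (.ev (nat_lit 2689630293436552926557576185942245893) (nat_lit 3)) (.cons (.ev (nat_lit 4083429962739127015502832100760460328961) (nat_lit 4)) (.cons (.br (nat_lit 15) (nat_lit 0) (.cons (.ev (nat_lit 1371763312649845976512413889818737903629) (nat_lit 4)) (.cons (.ev (nat_lit 1344805045127553542614890353575264515) (nat_lit 2)) .nil))) .nil)))) (.cons (.br (nat_lit 14) (nat_lit 0) (.cons (.rf (nat_lit 1) (nat_lit 582001826704545)) (.cons (.br (nat_lit 15) (nat_lit 0) (.cons (.ev (nat_lit 4096691088281378248909466991388755757571) (nat_lit 4)) (.cons (.ev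 (nat_lit 1344865813749575632060227251085574402) (nat_lit 2)) .nil))) (.cons (.br (nat_lit 15) (nat_lit 0) (.cons (.ev (nat_lit 1344805045127553542614890353575264515) (nat_lit 2)) (.cons (.ev (nat_lit 348467784093761075297077773552452179594759) (nat_lit 4)) .nil))) .nil)))) .nil))))) (.cons (.br (nat_lit 15) (nat_lit 0) (.cons (.kr (nat_lit 1334420292643450700532337556609564928) (nat_lit 79228167236630820463205941248) (nat_lit 1) (nat_lit 0)) (.cons (.kr (nat_lit 20282409603670117168020960837632) (nat_lit 1334420292643450700532337556609564672) (nat_lit 8) (nat_lit 0)) (.cons (.ev (nat_lit 2658476353207602652700564421051809793) (nat_lit 2)) (.cons (.br (nat_lit 10) (nat_lit 0) (.cons (.rf (nat_lit 1) (nat_lit 582169196214433)) (.cons (.br (nat_lit 16) (nat_lit 0) (.cons (.ev (nat_lit 340287559217796998291075478100918730753) (nat_lit 1)) (.cons (.ev (nat_lit 341611615199132983006467922685830692865) (nat_lit 1)) .nil))) (.cons (.rf (nat_lit 653) (nat_lit 20678166659641484973121)) .nil)))) .nil))))) (.cons (.br (nat_lit 14) (nat_lit 0) (.cons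 (.kr (nat_lit 1334420292643450700532337556609564928) (nat_lit 79228167236630820463205941248) (nat_lit 1) (nat_lit 0)) (.cons (.kr (nat_lit 20282409603670117168020960837632) (nat_lit 1334420292643450700532337556609564672) (nat_lit 8) (nat_lit 0)) (.cons (.ev (nat_lit 10405113811165627572174627690119681) (nat_lit 2)) (.cons (.br (nat_lit 10) (nat_lit 0) (.cons (.rf (nat_lit 1) (nat_lit 582134836477089)) (.cons (.br (nat_lit 11) (nat_lit 0) (.cons (.ev (nat_lit 341611615199132987710387380002494677248) (nat_lit 1)) (.cons (.rf (nat_lit 160) (nat_lit 609975465588676574573)) .nil))) (.cons (.br (nat_lit 11) (nat_lit 0) (.cons (.rf (nat_lit 7) (nat_lit 624909156956571376292899)) (.cons (.ev (nat_lit 87112291144339825483761206181023059017985) (nat_lit 1)) .nil))) .nil)))) .nil))))) (.cons (.br (nat_lit 14) (nat_lit 0) (.cons (.br (nat_lit 11) (nat_lit 0) (.cons (.kr (nat_lit 20361637770906748269959126712321) (nat_lit 2668840585286901401064675117530873856) (nat_lit 0) (nat_lit 1)) (.cons (.ev (nat_lit 340287559297335854759355179293250420993) (nat_lit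 1)) (.cons (.br (nat_lit 15) (nat_lit 0) (.cons (.ev (nat_lit 341611594995951541869061554852868456448) (nat_lit 1)) (.cons (.ev (nat_lit 2658476512285315589259966822895059457) (nat_lit 2)) .nil))) .nil)))) (.cons (.br (nat_lit 10) (nat_lit 0) (.cons (.kr (nat_lit 20361637770906748269959126712321) (nat_lit 2668840585286901401064675117530873856) (nat_lit 0) (nat_lit 1)) (.cons (.ev (nat_lit 340287559297335854759355179293250420993) (nat_lit 1)) (.cons (.br (nat_lit 15) (nat_lit 0) (.cons (.ev (nat_lit 341611594995951541869061554852868456448) (nat_lit 1)) (.cons (.ev (nat_lit 2658476512285315589259966822895059457) (nat_lit 2)) .nil))) .nil)))) (.cons (.ev (nat_lit 10405113811165627572174627690119681) (nat_lit 2)) (.cons (.ev (nat_lit 340287559217796998291075196621647053056) (nat_lit 1)) (.cons (.br (nat_lit 15) (nat_lit 0) (.cons (.rf (nat_lit 654) (nat_lit 677582165103132179601393696)) (.cons (.rf (nat_lit 655) (nat_lit 677582165103132179601393696)) (.cons (.ev (nat_lit 341611615199132987710387661481766354945) (nat_lit 1)) (.cons (.br (nat_lit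 17) (nat_lit 0) (.cons (.ev (nat_lit 1045366071547206737580691374052738618361351) (nat_lit 4)) (.cons (.ev (nat_lit 1045355479262249151870222215026284341756427) (nat_lit 4)) (.cons (.ev (nat_lit 88137125908886503481993218475559523320067) (nat_lit 2)) .nil)))) .nil))))) .nil)))))) (.cons (.br (nat_lit 10) (nat_lit 0) (.cons (.br (nat_lit 14) (nat_lit 0) (.cons (.ev (nat_lit 10404955976228433287813301882847747) (nat_lit 2)) (.cons (.br (nat_lit 15) (nat_lit 0) (.cons (.ev (nat_lit 1374432153550181355022206429525918614027) (nat_lit 4)) (.cons (.br (nat_lit 16) (nat_lit 0) (.cons (.zr (nat_lit 1361129528610832229379746268640798965767) (nat_lit 8006521755860704203195995664544695808) (nat_lit 16) (nat_lit 2)) .nil)) .nil))) (.cons (.br (nat_lit 15) (nat_lit 0) (.cons (.br (nat_lit 16) (nat_lit 0) (.cons (.zr (nat_lit 1363798409681088797124749609271203725824) (nat_lit 81092326146989192015948152835) (nat_lit 16) (nat_lit 15)) .nil)) (.cons (.ev (nat_lit 348462446412907414087664306009929695625743) (nat_lit 4)) .nil))) .nil)))) (.cons (.br (nat_lit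 11) (nat_lit 0) (.cons (.kr (nat_lit 20361637770906748269959126712321) (nat_lit 2668840585286901401064675117530873856) (nat_lit 0) (nat_lit 1)) (.cons (.br (nat_lit 15) (nat_lit 0) (.cons (.ev (nat_lit 2658476512285315589259966822895059457) (nat_lit 2)) (.cons (.rf (nat_lit 656) (nat_lit 20678166659641450336321)) .nil))) (.cons (.br (nat_lit 15) (nat_lit 0) (.cons (.rf (nat_lit 160) (nat_lit 609975456002477566310)) (.cons (.ev (nat_lit 2658476512285315589259966822895059457) (nat_lit 2)) .nil))) .nil)))) (.cons (.br (nat_lit 11) (nat_lit 0) (.cons (.kr (nat_lit 20361637770906748269959126712321) (nat_lit 2668840585286901401064675117530873856) (nat_lit 0) (nat_lit 1)) (.cons (.br (nat_lit 14) (nat_lit 0) (.cons (.ev (nat_lit 10404955976228433287250360519360513) (nat_lit 2)) (.cons (.rf (nat_lit 467) (nat_lit 20002076958045061232202787)) .nil))) (.cons (.br (nat_lit 14) (nat_lit 0) (.cons (.br (nat_lit 16) (nat_lit 0) (.cons (.ev (nat_lit 341611594995951546572981293648804118528) (nat_lit 1)) .nil)) (.cons (.ev (nat_lit 10404955976228433287250360519360513)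 (nat_lit 2)) .nil))) .nil)))) (.cons (.br (nat_lit 11) (nat_lit 0) (.cons (.br (nat_lit 15) (nat_lit 0) (.cons (.ev (nat_lit 2658476512285315589259966822895059457) (nat_lit 2)) (.cons (.br (nat_lit 16) (nat_lit 0) (.cons (.ev (nat_lit 341611615278671839437854135730743279873) (nat_lit 1)) .nil)) .nil))) (.cons (.br (nat_lit 14) (nat_lit 0) (.cons (.ev (nat_lit 10404955976228433287250360519360513) (nat_lit 2)) (.cons (.br (nat_lit 16) (nat_lit 0) (.cons (.ev (nat_lit 340287559297335859463275199568457760768) (nat_lit 1)) .nil)) .nil))) (.cons (.br (nat_lit 14) (nat_lit 0) (.cons (.ev (nat_lit 10404955976228433287250360519360513) (nat_lit 2)) (.cons (.br (nat_lit 15) (nat_lit 0) (.cons (.ev (nat_lit 4102028770087020089789633504771926920719) (nat_lit 4)) .nil)) .nil))) (.cons (.br (nat_lit 14) (nat_lit 0) (.cons (.ev (nat_lit 1344804887292602162784617815838097922) (nat_lit 2)) (.cons (.rf (nat_lit 11) (nat_lit 661510852239796032604192)) (.cons (.rf (nat_lit 162) (nat_lit 609975465588844570982)) .nil)))) .nil))))) (.cons (.br (nat_lit 11) (nat_lit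 0) (.cons (.br (nat_lit 15) (nat_lit 0) (.cons (.br (nat_lit 16) (nat_lit 0) (.cons (.ev (nat_lit 340287579579434764457009958162459066368) (nat_lit 1)) .nil)) (.cons (.ev (nat_lit 2658476512285315589259966822895059457) (nat_lit 2)) .nil))) (.cons (.br (nat_lit 14) (nat_lit 0) (.cons (.rf (nat_lit 425) (nat_lit 19522718704950664444993)) (.cons (.ev (nat_lit 10404955976228433287250360519360513) (nat_lit 2)) .nil))) (.cons (.br (nat_lit 15) (nat_lit 0) (.cons (.ev (nat_lit 1344804887292602162784617815838097922) (nat_lit 2)) (.cons (.rf (nat_lit 610) (nat_lit 21169646257081054728829987)) (.cons (.rf (nat_lit 502) (nat_lit 20678129575313303344162)) .nil)))) (.cons (.br (nat_lit 14) (nat_lit 0) (.cons (.ev (nat_lit 10404955976228433287250360519360513) (nat_lit 2)) (.cons (.br (nat_lit 15) (nat_lit 0) (.cons (.ev (nat_lit 1374432153550181355022204177760464669187) (nat_lit 4)) .nil)) .nil))) .nil))))) .nil)))))) .nil))))))) .nil)))))))]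

theorem c33 : chkAll C T R L33 (nat_lit 651) = true := by decide +kernel

theorem l33 : (nat_lit 651) + L33.length = (nat_lit 658) := by decide +kernel

/-- part of the certificates -/
def L34 : List Prf := [(.br (nat_lit 14) (nat_lit 0) (.cons (.ev (nat_lit 10384673874905588057100614986039297) (nat_lit 2)) (.cons (.ev (nat_lit 680575118515751823106966837886651138049) (nat_lit 2)) (.cons (.br (nat_lit 15) (nat_lit 0) (.cons (.ev (nat_lit 683223210116169488278823064378175193600) (nat_lit 2)) (.cons (.rf (nat_lit 295) (nat_lit 19519227177019608572975)) .nil))) .nil)))),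
 (.br (nat_lit 14) (nat_lit 0) (.cons (.ev (nat_lit 10384673874905588057382085667783426) (nat_lit 2)) (.cons (.ev (nat_lit 680575118515751823106966556398789525760) (nat_lit 2)) (.cons (.br (nat_lit 15) (nat_lit 0) (.cons (.ev (nat_lit 683223210116169488278823345866036805889) (nat_lit 2)) (.cons (.rf (nat_lit 394) (nat_lit 20676904339959794079781)) .nil))) .nil)))),
 (.br (nat_lit 14) (nat_lit 0) (.cons (.ev (nat_lit 1329248278195728468912929878942220288) (nat_lit 1)) .nil)),
 (.br (nat_lit 14) (nat_lit 0) (.cons (.ev (nat_lit 10384673874905588057100615036370946) (nat_lit 2)) (.cons (.ev (nat_lit 680575118515751823106966837886667915264) (nat_lit 2)) (.cons (.br (nat_lit 15) (nat_lit 0) (.cons (.ev (nat_lit 683223210116169488278823064378158416385) (nat_lit 2)) (.cons (.rf (nat_lit 258) (nat_lit 19522938147606167099873)) .nil))) .nil)))),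
 (.br (nat_lit 14) (nat_lit 0) (.cons (.ev (nat_lit 10384673874905588057382085718115075) (nat_lit 2)) (.cons (.ev (nat_lit 680575118515751823106966556398806302979) (nat_lit 2)) (.cons (.br (nat_lit 15) (nat_lit 0) (.cons (.ev (nat_lit 683223210116169488278823345866020028674) (nat_lit 2)) (.cons (.rf (nat_lit 448) (nat_lit 20002076958047022113362979)) .nil))) .nil)))),
 (.br (nat_lit 2) (nat_lit 0) (.cons (.br (nat_lit 14) (nat_lit 0) (.cons (.ev (nat_lit 10404955973820026380989031893827587) (nat_lit 2)) (.cons (.ev (nat_lit 10404955973820026381551990437184001) (nat_lit 2)) (.cons (.ev (nat_lit 7985773248214954266863293738848092677) (nat_lit 3)) (.cons (.br (nat_lit 15) (nat_lit 0) (.cons (.ev (nat_lit 2658476512282897700727814566136906241) (nat_lit 2)) (.cons (.ev (nat_lit 2658476512282897700727251607593549827) (nat_lit 2)) (.cons (.ev (nat_lit 1344865892664626414312270144318079746) (nat_lit 2)) (.cons (.br (nat_lit 7) (nat_lit 0) (.cons (.rf (nat_lit 1) (nat_lit 582168034513985)) (.cons (.br (nat_lit 10) (nat_lit 0) (.cons (.ev (nat_lit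 4083429961792107721078722824423353483783) (nat_lit 4)) (.cons (.br (nat_lit 16) (nat_lit 0) (.cons (.zr (nat_lit 1361129609661242467378851154509395263488) (nat_lit 8006521993545196468353802477796067329) (nat_lit 16) (nat_lit 5)) .nil)) .nil))) (.cons (.br (nat_lit 10) (nat_lit 0) (.cons (.br (nat_lit 16) (nat_lit 0) (.cons (.zr (nat_lit 1361129609661242467378851154513690230784) (nat_lit 8006521993545196468354928364818007045) (nat_lit 16) (nat_lit 5)) .nil)) (.cons (.ev (nat_lit 348459777572322738911988373736615890783759) (nat_lit 4)) .nil))) .nil)))) .nil))))) .nil))))) (.cons (.br (nat_lit 5) (nat_lit 0) (.cons (.br (nat_lit 14) (nat_lit 0) (.cons (.ev (nat_lit 20789866610793404727024088724406277) (nat_lit 3)) (.cons (.br (nat_lit 15) (nat_lit 0) (.cons (.ev (nat_lit 1344805124047439954359536970494902531) (nat_lit 2)) (.cons (.rf (nat_lit 1) (nat_lit 582167967407169)) .nil))) .nil))) (.cons (.br (nat_lit 10) (nat_lit 0) (.cons (.kr (nat_lit 1334420292643450700532337565199499520) (nat_lit 310693935713018391449108480) (nat_lit 1) (nat_lit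 0)) (.cons (.br (nat_lit 15) (nat_lit 0) (.cons (.ev (nat_lit 2658476353210020541232716677843517953) (nat_lit 2)) (.cons (.rf (nat_lit 1) (nat_lit 582172258180161)) .nil))) .nil))) (.cons (.br (nat_lit 10) (nat_lit 0) (.cons (.kr (nat_lit 1334420292643450700532337565199499520) (nat_lit 310693935713018391449108480) (nat_lit 1) (nat_lit 0)) (.cons (.br (nat_lit 14) (nat_lit 0) (.cons (.ev (nat_lit 10405113813592923944367434862952451) (nat_lit 2)) (.cons (.rf (nat_lit 1) (nat_lit 582138972183617)) .nil))) .nil))) (.cons (.br (nat_lit 16) (nat_lit 0) (.cons (.rf (nat_lit 658) (nat_lit 19926519232773908561233952)) (.cons (.ev (nat_lit 10404955973820026380989031860273153) (nat_lit 2)) (.cons (.ev (nat_lit 2658476512282897700727814566103351811) (nat_lit 2)) (.cons (.br (nat_lit 16) (nat_lit 0) (.cons (.rf (nat_lit 658) (nat_lit 19926519232773908561233952)) (.cons (.ev (nat_lit 10404955973820026380989031860273153) (nat_lit 2)) (.cons (.ev (nat_lit 2658476512282897700727814566103351811) (nat_lit 2)) .nil)))) .nil))))) .nil))))) (.cons (.br (nat_lit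 5) (nat_lit 0) (.cons (.br (nat_lit 14) (nat_lit 0) (.cons (.ev (nat_lit 20789866610793404727024088724406277) (nat_lit 3)) (.cons (.br (nat_lit 15) (nat_lit 0) (.cons (.ev (nat_lit 1344805124047439954359536970494902531) (nat_lit 2)) (.cons (.rf (nat_lit 1) (nat_lit 582164746184769)) .nil))) .nil))) (.cons (.br (nat_lit 7) (nat_lit 0) (.cons (.kr (nat_lit 2668840585286901401064956588195840001) (nat_lit 20361637770906747988488461746176) (nat_lit 0) (nat_lit 1)) (.cons (.br (nat_lit 15) (nat_lit 0) (.cons (.ev (nat_lit 2658476353210020541232716677843517953) (nat_lit 2)) (.cons (.rf (nat_lit 1) (nat_lit 582172255037505)) .nil))) .nil))) (.cons (.br (nat_lit 7) (nat_lit 0) (.cons (.kr (nat_lit 2668840585286901401064956588195840001) (nat_lit 20361637770906747988488461746176) (nat_lit 0) (nat_lit 1)) (.cons (.br (nat_lit 14) (nat_lit 0) (.cons (.ev (nat_lit 10405113813592923944367434862952451) (nat_lit 2)) (.cons (.rf (nat_lit 1) (nat_lit 582138969040961)) .nil))) .nil))) (.cons (.br (nat_lit 16) (nat_lit 0) (.cons (.rf (nat_lit 659) (nat_lit 19926519232773908561233952))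 (.cons (.ev (nat_lit 10404955973820026381551990403629571) (nat_lit 2)) (.cons (.ev (nat_lit 2658476512282897700727251607559995393) (nat_lit 2)) (.cons (.br (nat_lit 16) (nat_lit 0) (.cons (.rf (nat_lit 659) (nat_lit 19926519232773908561233952)) (.cons (.ev (nat_lit 10404955973820026381551990403629571) (nat_lit 2)) (.cons (.ev (nat_lit 2658476512282897700727251607559995393) (nat_lit 2)) .nil)))) .nil))))) .nil))))) (.cons (.br (nat_lit 15) (nat_lit 0) (.cons (.ev (nat_lit 10404955973810618542074398565859841) (nat_lit 2)) (.cons (.kr (nat_lit 20361637770906747988488444968961) (nat_lit 2668840585286901401064956588212617216) (nat_lit 0) (nat_lit 1)) (.cons (.kr (nat_lit 20361637770906748269959126712323) (nat_lit 2668840585286901401064675117530874368) (nat_lit 0) (nat_lit 2)) (.cons (.br (nat_lit 7) (nat_lit 0) (.cons (.br (nat_lit 10) (nat_lit 0) (.cons (.ev (nat_lit 2658476353210020541232716677877072387) (nat_lit 2)) (.cons (.rf (nat_lit 1) (nat_lit 616249602455617)) .nil))) (.cons (.ev (nat_lit 10405113813592923943804476319597057) (nat_lit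 2)) (.cons (.br (nat_lit 5) (nat_lit 0) (.cons (.ev (nat_lit 2658476353210020541232716677877072387) (nat_lit 2)) (.cons (.ev (nat_lit 340287559297334650555902330108226109440) (nat_lit 1)) (.cons (.br (nat_lit 10) (nat_lit 0) (.cons (.ev (nat_lit 10405113813592923944367434862952451) (nat_lit 2)) (.cons (.rf (nat_lit 258) (nat_lit 20662925309589600773601)) .nil))) .nil)))) (.cons (.br (nat_lit 10) (nat_lit 0) (.cons (.rf (nat_lit 1) (nat_lit 616252820535361)) (.cons (.br (nat_lit 5) (nat_lit 0) (.cons (.ev (nat_lit 340287579500516086952495189518561902848) (nat_lit 1)) (.cons (.rf (nat_lit 103) (nat_lit 19991337525614209630570528)) .nil))) (.cons (.ev (nat_lit 10405113813592923944367434862952451) (nat_lit 2)) .nil)))) .nil))))) .nil))))) (.cons (.br (nat_lit 14) (nat_lit 0) (.cons (.ev (nat_lit 10404955973810618542074398532305411) (nat_lit 2)) (.cons (.kr (nat_lit 20361637770906747988488444968961) (nat_lit 2668840585286901401064956588212617216) (nat_lit 0) (nat_lit 1)) (.cons (.kr (nat_lit 20361637770906748269959126712323) (nat_lit 2668840585286901401064675117530874368)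 (nat_lit 0) (nat_lit 2)) (.cons (.br (nat_lit 7) (nat_lit 0) (.cons (.br (nat_lit 10) (nat_lit 0) (.cons (.ev (nat_lit 10405113813592923944367434896506881) (nat_lit 2)) (.cons (.rf (nat_lit 1) (nat_lit 616215242718273)) .nil))) (.cons (.ev (nat_lit 2658476353210020541233279636386873347) (nat_lit 2)) (.cons (.br (nat_lit 5) (nat_lit 0) (.cons (.ev (nat_lit 10405113813592923944367434896506881) (nat_lit 2)) (.cons (.ev (nat_lit 341611594917032864364546504738306326785) (nat_lit 1)) (.cons (.br (nat_lit 16) (nat_lit 0) (.cons (.ev (nat_lit 2658476353210020541232716677843517953) (nat_lit 2)) (.cons (.ev (nat_lit 340287579500516086952494908047896936448) (nat_lit 1)) .nil))) .nil)))) (.cons (.br (nat_lit 10) (nat_lit 0) (.cons (.rf (nat_lit 1) (nat_lit 616218460798017)) (.cons (.br (nat_lit 5) (nat_lit 0) (.cons (.ev (nat_lit 341611615278670635234401005075020447745) (nat_lit 1)) (.cons (.rf (nat_lit 660) (nat_lit 661701333108527519141953)) .nil))) (.cons (.ev (nat_lit 2658476353210020541232716677843517953) (nat_lit 2)) .nil)))) .nil))))) .nil)))))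 (.cons (.br (nat_lit 5) (nat_lit 0) (.cons (.br (nat_lit 16) (nat_lit 0) (.cons (.rf (nat_lit 661) (nat_lit 19926519232773908561233952)) (.cons (.ev (nat_lit 10404955973820026380989031860273153) (nat_lit 2)) (.cons (.ev (nat_lit 2658476512282897700727814566103351811) (nat_lit 2)) (.cons (.br (nat_lit 16) (nat_lit 0) (.cons (.rf (nat_lit 661) (nat_lit 19926519232773908561233952)) (.cons (.ev (nat_lit 10404955973820026380989031860273153) (nat_lit 2)) (.cons (.ev (nat_lit 2658476512282897700727814566103351811) (nat_lit 2)) .nil)))) .nil))))) (.cons (.br (nat_lit 16) (nat_lit 0) (.cons (.rf (nat_lit 662) (nat_lit 19926519232773908561233952)) (.cons (.ev (nat_lit 10404955973820026381551990403629571) (nat_lit 2)) (.cons (.ev (nat_lit 2658476512282897700727251607559995393) (nat_lit 2)) (.cons (.br (nat_lit 16) (nat_lit 0) (.cons (.rf (nat_lit 662) (nat_lit 19926519232773908561233952)) (.cons (.ev (nat_lit 10404955973820026381551990403629571) (nat_lit 2)) (.cons (.ev (nat_lit 2658476512282897700727251607559995393) (nat_lit 2)) .nil)))) .nil)))))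 (.cons (.br (nat_lit 7) (nat_lit 0) (.cons (.ev (nat_lit 10405113813592923943804476353151491) (nat_lit 2)) (.cons (.kr (nat_lit 2668840585286901401064956588195840001) (nat_lit 20361637770906747988488461746176) (nat_lit 0) (nat_lit 1)) (.cons (.br (nat_lit 10) (nat_lit 0) (.cons (.kr (nat_lit 20361637770906748269959143489537) (nat_lit 2668840585286901401064675117514097152) (nat_lit 0) (nat_lit 2)) (.cons (.ev (nat_lit 10405113813592923944367434896506881) (nat_lit 2)) (.cons (.br (nat_lit 16) (nat_lit 0) (.cons (.ev (nat_lit 340287579500516086952494908047880159233) (nat_lit 1)) (.cons (.ev (nat_lit 340287559217798207235341835699996328193) (nat_lit 1)) .nil))) .nil)))) (.cons (.br (nat_lit 10) (nat_lit 0) (.cons (.kr (nat_lit 20361637770906748269959143489537) (nat_lit 2668840585286901401064675117514097152) (nat_lit 0) (nat_lit 2)) (.cons (.br (nat_lit 15) (nat_lit 0) (.cons (.ev (nat_lit 340287579500516086952495189518561902848) (nat_lit 1)) (.cons (.rf (nat_lit 295) (nat_lit 19522938147606167099439)) .nil))) (.cons (.ev (nat_lit 10405113813592923944367434896506881)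 (nat_lit 2)) .nil)))) .nil))))) (.cons (.br (nat_lit 7) (nat_lit 0) (.cons (.ev (nat_lit 2658476353210020541233279636420427777) (nat_lit 2)) (.cons (.kr (nat_lit 2668840585286901401064956588195840001) (nat_lit 20361637770906747988488461746176) (nat_lit 0) (nat_lit 1)) (.cons (.br (nat_lit 10) (nat_lit 0) (.cons (.kr (nat_lit 20361637770906748269959143489537) (nat_lit 2668840585286901401064675117514097152) (nat_lit 0) (nat_lit 2)) (.cons (.ev (nat_lit 2658476353210020541232716677877072387) (nat_lit 2)) (.cons (.br (nat_lit 16) (nat_lit 0) (.cons (.ev (nat_lit 341611615278670635234401286545702191360) (nat_lit 1)) (.cons (.ev (nat_lit 341611594995952755517247651256454873088) (nat_lit 1)) .nil))) .nil)))) (.cons (.br (nat_lit 10) (nat_lit 0) (.cons (.kr (nat_lit 20361637770906748269959143489537) (nat_lit 2668840585286901401064675117514097152) (nat_lit 0) (nat_lit 2)) (.cons (.br (nat_lit 14) (nat_lit 0) (.cons (.ev (nat_lit 341611615278670635234401005075020447745) (nat_lit 1)) (.cons (.rf (nat_lit 448) (nat_lit 21158789263115410200335395)) .nil)))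 (.cons (.ev (nat_lit 2658476353210020541232716677877072387) (nat_lit 2)) .nil)))) .nil))))) (.cons (.br (nat_lit 14) (nat_lit 0) (.cons (.ev (nat_lit 10404955973820026380989031860273153) (nat_lit 2)) (.cons (.ev (nat_lit 10404955973820026381551990403629571) (nat_lit 2)) (.cons (.ev (nat_lit 7985773248214954266863293738780983809) (nat_lit 3)) (.cons (.br (nat_lit 7) (nat_lit 0) (.cons (.ev (nat_lit 1361171026740269887759717655096601479179) (nat_lit 4)) (.cons (.ev (nat_lit 2658476512282897700727814566103351811) (nat_lit 2)) (.cons (.br (nat_lit 10) (nat_lit 0) (.cons (.ev (nat_lit 2658476512282897700727251607559995393) (nat_lit 2)) (.cons (.br (nat_lit 15) (nat_lit 0) (.cons (.ev (nat_lit 1366446400029157521308482796344051893761) (nat_lit 3)) .nil)) .nil))) .nil)))) (.cons (.br (nat_lit 15) (nat_lit 0) (.cons (.ev (nat_lit 2658476512282897700727814566103351811) (nat_lit 2)) (.cons (.ev (nat_lit 2658476512282897700727251607559995393) (nat_lit 2)) (.cons (.br (nat_lit 7) (nat_lit 0) (.cons (.ev (nat_lit 4094022247381052541953807001298319835147)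 (nat_lit 4)) (.cons (.br (nat_lit 10) (nat_lit 0) (.cons (.ev (nat_lit 1361150257234685101463099259985548674561) (nat_lit 3)) .nil)) .nil))) (.cons (.ev (nat_lit 1344865892664626414312270144351634176) (nat_lit 2)) .nil))))) .nil)))))) (.cons (.br (nat_lit 7) (nat_lit 0) (.cons (.br (nat_lit 14) (nat_lit 0) (.cons (.ev (nat_lit 2689630451276325750043491702948234757) (nat_lit 3)) (.cons (.br (nat_lit 15) (nat_lit 0) (.cons (.ev (nat_lit 340287579579435973401276315770126598400) (nat_lit 1)) (.cons (.br (nat_lit 16) (nat_lit 0) (.cons (.zr (nat_lit 1361129609661242467378851154509428817920) (nat_lit 8006521993545196468354365419159553541) (nat_lit 16) (nat_lit 5)) .nil)) .nil))) (.cons (.br (nat_lit 15) (nat_lit 0) (.cons (.br (nat_lit 16) (nat_lit 0) (.cons (.zr (nat_lit 1361129569096423260112403794762311794688) (nat_lit 8006521835088880884558093029998593539) (nat_lit 16) (nat_lit 5)) .nil)) (.cons (.ev (nat_lit 87112291124057106395099786469596842688768) (nat_lit 1)) .nil))) .nil)))) (.cons (.br (nat_lit 10) (nat_lit 0) (.cons (.ev (nat_lit 10405113813583442317350589643620867)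 (nat_lit 2)) (.cons (.br (nat_lit 16) (nat_lit 0) (.cons (.ev (nat_lit 340287579579435973401276315770126598400) (nat_lit 1)) (.cons (.ev (nat_lit 340287579500516091693308134991234924545) (nat_lit 1)) .nil))) (.cons (.br (nat_lit 17) (nat_lit 0) (.cons (.ev (nat_lit 87112291124057106395099786469596842688768) (nat_lit 1)) (.cons (.ev (nat_lit 87112291124136642828975613998265748488193) (nat_lit 1)) .nil))) .nil)))) (.cons (.br (nat_lit 10) (nat_lit 0) (.cons (.ev (nat_lit 10405113813583442317913548186976257) (nat_lit 2)) (.cons (.br (nat_lit 14) (nat_lit 0) (.cons (.ev (nat_lit 341611615199134196654654019080860729345) (nat_lit 1)) (.cons (.rf (nat_lit 423) (nat_lit 624728111083652982584801)) .nil))) (.cons (.rf (nat_lit 271) (nat_lit 677432042152667660366743584)) .nil)))) (.cons (.br (nat_lit 10) (nat_lit 0) (.cons (.br (nat_lit 15) (nat_lit 0) (.cons (.ev (nat_lit 340287579579435973401276315770126598400) (nat_lit 1)) (.cons (.rf (nat_lit 465) (nat_lit 21164959952154223232256032)) .nil))) (.cons (.br (nat_lit 16) (nat_lit 0) (.cons (.ev (nat_lit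 341611615199134196654654019080860729345) (nat_lit 1)) (.cons (.ev (nat_lit 341611594917032869068466243534241988865) (nat_lit 1)) .nil))) (.cons (.br (nat_lit 14) (nat_lit 0) (.cons (.ev (nat_lit 2689630451276325750044617620034945537) (nat_lit 3)) (.cons (.ev (nat_lit 340287559297334645815089103164871344128) (nat_lit 1)) .nil))) (.cons (.br (nat_lit 14) (nat_lit 0) (.cons (.ev (nat_lit 20789550931247609600830258542937605) (nat_lit 3)) (.cons (.ev (nat_lit 1361150257234685120426353293641694708229) (nat_lit 3)) (.cons (.ev (nat_lit 348449164516591917853068451748162610529797) (nat_lit 3)) .nil)))) .nil))))) (.cons (.br (nat_lit 10) (nat_lit 0) (.cons (.br (nat_lit 17) (nat_lit 0) (.cons (.ev (nat_lit 87112291124057106395099786469596842688768) (nat_lit 1)) (.cons (.ev (nat_lit 87112291124136642828975613998265748488193) (nat_lit 1)) .nil))) (.cons (.br (nat_lit 14) (nat_lit 0) (.cons (.rf (nat_lit 456) (nat_lit 20662810436181670902945)) (.cons (.ev (nat_lit 87113615159835260933936959319414010806273) (nat_lit 1)) .nil))) (.cons (.br (nat_lit 14)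 (nat_lit 0) (.cons (.ev (nat_lit 20789550931247609600830258542937605) (nat_lit 3)) (.cons (.ev (nat_lit 1361150257234685120426352167758967735809) (nat_lit 3)) (.cons (.ev (nat_lit 348449164516591917853068452874045337502209) (nat_lit 3)) .nil)))) (.cons (.br (nat_lit 14) (nat_lit 0) (.cons (.ev (nat_lit 2689630451276325750044617620034945537) (nat_lit 3)) (.cons (.ev (nat_lit 87112291144339824274853833030092145623040) (nat_lit 1)) .nil))) .nil))))) .nil)))))) .nil))))))) .nil))))))),
 (.br (nat_lit 12) (nat_lit 0) (.cons (.rf (nat_lit 246) (nat_lit 18240663971826639055009)) (.cons (.ev (nat_lit 1329228075013078405686947425378369536) (nat_lit 1)) .nil))),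
 (.br (nat_lit 11) (nat_lit 0) (.cons (.ev (nat_lit 10404877057560410543050782800871427) (nat_lit 2)) (.cons (.kr (nat_lit 618970038233549399234969601) (nat_lit 20361637770888301525889728905216) (nat_lit 0) (nat_lit 1)) (.cons (.br (nat_lit 14) (nat_lit 0) (.cons (.ev (nat_lit 2658476512285315589259966822895059457) (nat_lit 2)) (.cons (.ev (nat_lit 340287579579434769197823185105813831680) (nat_lit 1)) (.cons (.br (nat_lit 16) (nat_lit 0) (.cons (.ev (nat_lit 2658476353210020541233279636386873857) (nat_lit 2)) (.cons (.ev (nat_lit 340287579500516091693308416461933445120) (nat_lit 1)) .nil))) .nil)))) (.cons (.br (nat_lit 15) (nat_lit 0) (.cons (.rf (nat_lit 1) (nat_lit 582036185327842)) (.cons (.ev (nat_lit 2658476353210020541233279636386873857) (nat_lit 2)) (.cons (.rf (nat_lit 664) (nat_lit 661701333108527519141953)) .nil)))) .nil))))),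
 (.br (nat_lit 14) (nat_lit 0) (.cons (.ev (nat_lit 340287559297334650555902330108226109440) (nat_lit 1)) (.cons (.rf (nat_lit 160) (nat_lit 609937220249402518854)) .nil))),
 (.br (nat_lit 10) (nat_lit 0) (.cons (.rf (nat_lit 665) (nat_lit 19767139507982538591179811)) (.cons (.ev (nat_lit 2658476512285324997099444414799937537) (nat_lit 2)) (.cons (.br (nat_lit 14) (nat_lit 0) (.cons (.ev (nat_lit 2658476512285315589259966822895059457) (nat_lit 2)) (.cons (.ev (nat_lit 340287579579434769197823185105813831680) (nat_lit 1)) (.cons (.br (nat_lit 15) (nat_lit 0) (.cons (.ev (nat_lit 2658476353210020541232716677843517443) (nat_lit 2)) (.cons (.rf (nat_lit 394) (nat_lit 20677837826606208847937)) .nil))) .nil)))) (.cons (.br (nat_lit 15) (nat_lit 0) (.cons (.rf (nat_lit 1) (nat_lit 582001825590498)) (.cons (.rf (nat_lit 666) (nat_lit 677582165103132179601393696)) (.cons (.ev (nat_lit 2658476353210020541232716677843517443) (nat_lit 2)) .nil)))) .nil)))))]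

theorem c34 : chkAll C T R L34 (nat_lit 658) = true := by decide +kernel

theorem l34 : (nat_lit 658) + L34.length = (nat_lit 668) := by decide +kernel

/-- part of the certificates -/
def L35 : List Prf := [(.br (nat_lit 15) (nat_lit 0) (.cons (.kr (nat_lit 20361637770906747988488444968961) (nat_lit 2668840585286901401064956588212617216) (nat_lit 0) (nat_lit 1)) (.cons (.kr (nat_lit 2668840585286901401064956588195840001) (nat_lit 20361637770906747988488461746176) (nat_lit 0) (nat_lit 1)) (.cons (.kr (nat_lit 79228167236630820463189164032) (nat_lit 1334420292643450700532337556609564672) (nat_lit 9) (nat_lit 0)) (.cons (.kr (nat_lit 2668840585286901401064956588212617217) (nat_lit 20361637770906747988488444969472) (nat_lit 0) (nat_lit 2)) (.cons (.kr (nat_lit 1334420292643450700532619031586275328) (nat_lit 309489732259885532407922688) (nat_lit 6) (nat_lit 0)) .nil)))))),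
 (.br (nat_lit 11) (nat_lit 0) (.cons (.kr (nat_lit 20361637766184381787093776465921) (nat_lit 618974742153288195187408896) (nat_lit 0) (nat_lit 1)) (.cons (.kr (nat_lit 618974742153288195170631681) (nat_lit 20361637766184381787093793243136) (nat_lit 0) (nat_lit 1)) (.cons (.ev (nat_lit 2658476512285324997100007356163424771) (nat_lit 2)) (.cons (.kr (nat_lit 618974742153288195187408897) (nat_lit 20361637766184381787093776466432) (nat_lit 0) (nat_lit 2)) (.cons (.rf (nat_lit 668) (nat_lit 677582165103132179601393696)) .nil)))))),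
 (.br (nat_lit 14) (nat_lit 0) (.cons (.kr (nat_lit 20361637770906747988488444968961) (nat_lit 2668840585286901401064956588212617216) (nat_lit 0) (nat_lit 1)) (.cons (.kr (nat_lit 2668840585286901401064956588195840001) (nat_lit 20361637770906747988488461746176) (nat_lit 0) (nat_lit 1)) (.cons (.ev (nat_lit 10405113813583442317913548186976257) (nat_lit 2)) (.cons (.kr (nat_lit 2668840585286901401064956588212617217) (nat_lit 20361637770906747988488444969472) (nat_lit 0) (nat_lit 2)) (.cons (.kr (nat_lit 79847137274864369862424133633) (nat_lit 2668860867696505052735380539758870528) (nat_lit 0) (nat_lit 1)) .nil)))))),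
 (.br (nat_lit 11) (nat_lit 0) (.cons (.kr (nat_lit 20282409603651670423951546253312) (nat_lit 309485009893402662762708992) (nat_lit 4) (nat_lit 0)) (.cons (.kr (nat_lit 309485009893402662762708993) (nat_lit 20282409603651670423951563030528) (nat_lit 0) (nat_lit 1)) (.cons (.ev (nat_lit 2658476512285315589259966822895059457) (nat_lit 2)) (.cons (.kr (nat_lit 309485009893402662762708993) (nat_lit 20282409603651670423951546253568) (nat_lit 0) (nat_lit 2)) (.cons (.rf (nat_lit 670) (nat_lit 677582165103132179601393696)) .nil)))))),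
 (.br (nat_lit 10) (nat_lit 0) (.cons (.kr (nat_lit 618970038233549399234969601) (nat_lit 20361637770888301525889728905216) (nat_lit 0) (nat_lit 1)) (.cons (.ev (nat_lit 10405113813583442317913548186976257) (nat_lit 2)) (.cons (.rf (nat_lit 671) (nat_lit 19926519232773908561233952)) (.cons (.br (nat_lit 11) (nat_lit 0) (.cons (.rf (nat_lit 1) (nat_lit 582000651189474)) (.cons (.kr (nat_lit 309485009893402662762708993) (nat_lit 20282409603651670423951546253568) (nat_lit 0) (nat_lit 2)) (.cons (.rf (nat_lit 670) (nat_lit 677582165103132179601393696)) .nil)))) .nil))))),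
 (.br (nat_lit 14) (nat_lit 0) (.cons (.rf (nat_lit 665) (nat_lit 19767139507982538591179811)) (.cons (.kr (nat_lit 618974742153288195187408897) (nat_lit 20361637766184381787093776466432) (nat_lit 0) (nat_lit 2)) (.cons (.rf (nat_lit 667) (nat_lit 19767139507982538591179811)) (.cons (.ev (nat_lit 340287559217796998291075196621647053056) (nat_lit 1)) (.cons (.br (nat_lit 10) (nat_lit 0) (.cons (.br (nat_lit 15) (nat_lit 0) (.cons (.ev (nat_lit 2658476353210020541232716677843517443) (nat_lit 2)) (.cons (.rf (nat_lit 425) (nat_lit 19533243376443596254242)) .nil))) (.cons (.br (nat_lit 11) (nat_lit 0) (.cons (.ev (nat_lit 341611615278670630530481547749783306240) (nat_lit 1)) (.cons (.ev (nat_lit 10404955976228433287250360519360513) (nat_lit 2)) .nil))) (.cons (.br (nat_lit 11) (nat_lit 0) (.cons (.ev (nat_lit 2658456071109901899455695389059973888) (nat_lit 2)) (.cons (.ev (nat_lit 340287579500516091693308134991251702017) (nat_lit 1)) .nil))) (.cons (.ev (nat_lit 10405113813592923944367434862952961) (nat_lit 2)) .nil))))) .nil)))))),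
 (.br (nat_lit 17) (nat_lit 0) (.cons (.ev (nat_lit 87112291124136644037919880074394161119233) (nat_lit 1)) (.cons (.ev (nat_lit 87112291124136644037919880074394144342016) (nat_lit 1)) (.cons (.ev (nat_lit 2658476353210020541232716677843517443) (nat_lit 2)) (.cons (.ev (nat_lit 87112291124136644037919880074394161119488) (nat_lit 1)) .nil))))),
 (.br (nat_lit 15) (nat_lit 0) (.cons (.ev (nat_lit 341611615199132987710387380002511454208) (nat_lit 1)) (.cons (.rf (nat_lit 425) (nat_lit 19534282686410224175141)) .nil))),
 (.br (nat_lit 13) (nat_lit 0) (.cons (.rf (nat_lit 160) (nat_lit 533808334620981567780)) (.cons (.ev (nat_lit 1329248278504004552914660318492295168) (nat_lit 1)) .nil))),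
 (.br (nat_lit 11) (nat_lit 0) (.cons (.br (nat_lit 10) (nat_lit 0) (.cons (.ev (nat_lit 10404955976237914913704247228891137) (nat_lit 2)) (.cons (.br (nat_lit 14) (nat_lit 0) (.cons (.ev (nat_lit 10404955976228433287250360485806593) (nat_lit 2)) (.cons (.rf (nat_lit 1) (nat_lit 582139130391714)) .nil))) (.cons (.br (nat_lit 14) (nat_lit 0) (.cons (.ev (nat_lit 10404955976228433287250360485806593) (nat_lit 2)) (.cons (.ev (nat_lit 10405113813592923944367434862952451) (nat_lit 2)) (.cons (.rf (nat_lit 675) (nat_lit 677582165103132179601393696)) .nil)))) (.cons (.br (nat_lit 14) (nat_lit 0) (.cons (.rf (nat_lit 1) (nat_lit 582001825655970)) (.cons (.br (nat_lit 15) (nat_lit 0) (.cons (.ev (nat_lit 341611615278670635234401286545702191105) (nat_lit 1)) (.cons (.rf (nat_lit 246) (nat_lit 20678050518298239475874)) .nil))) (.cons (.ev (nat_lit 10405113813592923944367434862952451) (nat_lit 2)) .nil)))) .nil))))) (.cons (.br (nat_lit 15) (nat_lit 0) (.cons (.ev (nat_lit 2658476353210020541232716677877071873) (nat_lit 2)) (.cons (.ev (nat_lit 2658476512285315589260529764258545667)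 (nat_lit 2)) (.cons (.ev (nat_lit 2658476353210020541232716677843517953) (nat_lit 2)) (.cons (.br (nat_lit 5) (nat_lit 0) (.cons (.rf (nat_lit 1) (nat_lit 582169195165858)) (.cons (.br (nat_lit 14) (nat_lit 0) (.cons (.ev (nat_lit 340287579579434769197823466585085509889) (nat_lit 1)) (.cons (.rf (nat_lit 523) (nat_lit 21173223845798694126359587)) .nil))) (.cons (.rf (nat_lit 147) (nat_lit 21173002696328262752241696)) .nil)))) .nil))))) (.cons (.kr (nat_lit 20361637766184381787093776465921) (nat_lit 618974742153288195187408896) (nat_lit 0) (nat_lit 1)) (.cons (.kr (nat_lit 20282409603651670423951546253312) (nat_lit 309485009893402662762708992) (nat_lit 4) (nat_lit 0)) (.cons (.br (nat_lit 10) (nat_lit 0) (.cons (.br (nat_lit 14) (nat_lit 0) (.cons (.ev (nat_lit 10404955976228433287250360485806593) (nat_lit 2)) (.cons (.ev (nat_lit 10405113813592923944367434896507395) (nat_lit 2)) (.cons (.br (nat_lit 15) (nat_lit 0) (.cons (.ev (nat_lit 341611615199132987710387380002511454208) (nat_lit 1)) (.cons (.rf (nat_lit 523) (nat_lit 21174216618066958791846944))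 .nil))) .nil)))) (.cons (.ev (nat_lit 10404955976237914913704247195337217) (nat_lit 2)) (.cons (.br (nat_lit 5) (nat_lit 0) (.cons (.ev (nat_lit 10404955976228433287250360485806593) (nat_lit 2)) (.cons (.ev (nat_lit 341611594917032869068466243534225211648) (nat_lit 1)) (.cons (.br (nat_lit 14) (nat_lit 0) (.cons (.ev (nat_lit 10404955976228433287250360519360513) (nat_lit 2)) (.cons (.rf (nat_lit 557) (nat_lit 21173036203326914382891040)) .nil))) .nil)))) (.cons (.br (nat_lit 5) (nat_lit 0) (.cons (.ev (nat_lit 10405113813592923944367434896507395) (nat_lit 2)) (.cons (.ev (nat_lit 341611594995951541869061836332140134657) (nat_lit 1)) (.cons (.br (nat_lit 15) (nat_lit 0) (.cons (.ev (nat_lit 10404955976228433287250360519360513) (nat_lit 2)) (.cons (.ev (nat_lit 341611615278670630530481547749766529025) (nat_lit 1)) .nil))) .nil)))) (.cons (.br (nat_lit 14) (nat_lit 0) (.cons (.br (nat_lit 15) (nat_lit 0) (.cons (.ev (nat_lit 341611615278670635234401286545718968577) (nat_lit 1)) (.cons (.rf (nat_lit 456) (nat_lit 19534431442743311143970)) .nil)))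 (.cons (.br (nat_lit 5) (nat_lit 0) (.cons (.ev (nat_lit 341611615199132983006467641206575792128) (nat_lit 1)) (.cons (.rf (nat_lit 394) (nat_lit 20672141938418418626625)) .nil))) (.cons (.br (nat_lit 15) (nat_lit 0) (.cons (.ev (nat_lit 341611615278670635234401286545702191105) (nat_lit 1)) (.cons (.rf (nat_lit 554) (nat_lit 20666345942004148711489)) .nil))) (.cons (.ev (nat_lit 10405113813592923944367434862952451) (nat_lit 2)) .nil))))) .nil)))))) (.cons (.br (nat_lit 5) (nat_lit 0) (.cons (.br (nat_lit 14) (nat_lit 0) (.cons (.rf (nat_lit 1) (nat_lit 582036185393314)) (.cons (.ev (nat_lit 10405113813592923944367434896507395) (nat_lit 2)) (.cons (.rf (nat_lit 676) (nat_lit 661701333108527519141953)) .nil)))) (.cons (.br (nat_lit 10) (nat_lit 0) (.cons (.rf (nat_lit 1) (nat_lit 582036051179682)) (.cons (.ev (nat_lit 10405113813592923944367434896507395) (nat_lit 2)) (.cons (.rf (nat_lit 653) (nat_lit 20673302776438623340581)) .nil)))) (.cons (.br (nat_lit 10) (nat_lit 0) (.cons (.rf (nat_lit 1) (nat_lit 582034977438882)) (.cons (.br (nat_lit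 14) (nat_lit 0) (.cons (.ev (nat_lit 10405113813592923944367434862952451) (nat_lit 2)) (.cons (.rf (nat_lit 160) (nat_lit 609939471976029699437)) .nil))) (.cons (.br (nat_lit 14) (nat_lit 0) (.cons (.rf (nat_lit 584) (nat_lit 21168233820154995017886752)) (.cons (.ev (nat_lit 10405113813592923944367434862952451) (nat_lit 2)) .nil))) .nil)))) (.cons (.br (nat_lit 14) (nat_lit 0) (.cons (.br (nat_lit 15) (nat_lit 0) (.cons (.ev (nat_lit 340287559217797003031888423565018595328) (nat_lit 1)) (.cons (.rf (nat_lit 559) (nat_lit 21173079869174469716183072)) .nil))) (.cons (.br (nat_lit 10) (nat_lit 0) (.cons (.ev (nat_lit 340287559217797003031888423565018595328) (nat_lit 1)) (.cons (.ev (nat_lit 10404955976228433287250360519360513) (nat_lit 2)) .nil))) (.cons (.ev (nat_lit 340287559217796998291075196621647053056) (nat_lit 1)) (.cons (.br (nat_lit 10) (nat_lit 0) (.cons (.ev (nat_lit 10404955976228433287250360519360513) (nat_lit 2)) (.cons (.ev (nat_lit 340287579500516091693308134991251701760) (nat_lit 1)) (.cons (.ev (nat_lit 10405113813592923944367434862952451)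 (nat_lit 2)) .nil)))) .nil))))) (.cons (.br (nat_lit 10) (nat_lit 0) (.cons (.rf (nat_lit 676) (nat_lit 661690956814986057814081)) (.cons (.br (nat_lit 14) (nat_lit 0) (.cons (.rf (nat_lit 458) (nat_lit 20676935800069953815914)) (.cons (.ev (nat_lit 10404955976228433287250360519360513) (nat_lit 2)) .nil))) (.cons (.br (nat_lit 14) (nat_lit 0) (.cons (.rf (nat_lit 160) (nat_lit 609939462389662694765)) (.cons (.ev (nat_lit 10405113813592923944367434862952451) (nat_lit 2)) (.cons (.rf (nat_lit 162) (nat_lit 609939471976197695846)) .nil)))) (.cons (.br (nat_lit 15) (nat_lit 0) (.cons (.ev (nat_lit 10404955976228433287250360519360513) (nat_lit 2)) (.cons (.ev (nat_lit 87113615159835260938677772827828030537985) (nat_lit 1)) .nil))) .nil))))) .nil)))))) .nil))))))),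
 (.br (nat_lit 15) (nat_lit 0) (.cons (.ev (nat_lit 1329248357732167048732253842638438400) (nat_lit 1)) .nil)),
 (.br (nat_lit 14) (nat_lit 0) (.cons (.ev (nat_lit 1329228075323772341327907118982955008) (nat_lit 1)) .nil)),
 (.br (nat_lit 15) (nat_lit 0) (.cons (.kr (nat_lit 20282409603670117168020960837632) (nat_lit 1334420292643450700532337556609564672) (nat_lit 8) (nat_lit 0)) (.cons (.ev (nat_lit 2658476512285315589259966822895058947) (nat_lit 2)) (.cons (.kr (nat_lit 20282409603670117168020960837888) (nat_lit 1334420292643450700532337556626341888) (nat_lit 1) (nat_lit 0)) (.cons (.rf (nat_lit 670) (nat_lit 677422785378340809631339555)) .nil))))),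
 (.br (nat_lit 14) (nat_lit 0) (.cons (.ev (nat_lit 1334420292952935728800709273532301313) (nat_lit 1)) .nil)),
 (.br (nat_lit 13) (nat_lit 0) (.cons (.ev (nat_lit 5192376086697360411952332109053953) (nat_lit 1)) .nil)),
 (.br (nat_lit 5) (nat_lit 0) (.cons (.br (nat_lit 11) (nat_lit 0) (.cons (.kr (nat_lit 618974742153288195170631681) (nat_lit 20361637766184381787093793243136) (nat_lit 0) (nat_lit 1)) (.cons (.ev (nat_lit 2658456071109901899455695389076750338) (nat_lit 2)) (.cons (.br (nat_lit 14) (nat_lit 0) (.cons (.ev (nat_lit 10404955976228433287250360519361027) (nat_lit 2)) (.cons (.ev (nat_lit 10405113813592923944367434896507395) (nat_lit 2)) (.cons (.br (nat_lit 15) (nat_lit 0) (.cons (.ev (nat_lit 341611615199132987710387380002494676993) (nat_lit 1)) (.cons (.rf (nat_lit 521) (nat_lit 21174216618066958791846944)) .nil))) .nil)))) (.cons (.br (nat_lit 14) (nat_lit 0) (.cons (.rf (nat_lit 1) (nat_lit 582036185488546)) (.cons (.ev (nat_lit 10405113813592923944367434896507395) (nat_lit 2)) (.cons (.br (nat_lit 15) (nat_lit 0) (.cons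 (.br (nat_lit 16) (nat_lit 0) (.cons (.ev (nat_lit 340287579579434764457010239641713967360) (nat_lit 1)) .nil)) (.cons (.ev (nat_lit 87113615180038442379815178632711056130048) (nat_lit 1)) .nil))) .nil)))) .nil))))) (.cons (.br (nat_lit 7) (nat_lit 0) (.cons (.kr (nat_lit 618974742153288195170631681) (nat_lit 20361637766184381787093793243136) (nat_lit 0) (nat_lit 1)) (.cons (.kr (nat_lit 309485009893402662762708993) (nat_lit 20282409603651670423951563030528) (nat_lit 0) (nat_lit 1)) (.cons (.br (nat_lit 14) (nat_lit 0) (.cons (.ev (nat_lit 10404955976228433287250360485806083) (nat_lit 2)) (.cons (.ev (nat_lit 10405113813592923944367434862952451) (nat_lit 2)) (.cons (.br (nat_lit 15) (nat_lit 0) (.cons (.ev (nat_lit 341611615199132987710387380002511454465) (nat_lit 1)) (.cons (.rf (nat_lit 394) (nat_lit 20676904339959794079905)) .nil))) .nil)))) (.cons (.br (nat_lit 14) (nat_lit 0) (.cons (.ev (nat_lit 10404955976228433287250360485806083) (nat_lit 2)) (.cons (.br (nat_lit 16) (nat_lit 0) (.cons (.ev (nat_lit 340287579500516086952495189518561902593)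 (nat_lit 1)) (.cons (.ev (nat_lit 340287579579434769197823185105797054465) (nat_lit 1)) .nil))) (.cons (.ev (nat_lit 10405113813592923944367434862952451) (nat_lit 2)) .nil)))) .nil))))) (.cons (.rf (nat_lit 677) (nat_lit 19767139507982538591179811)) (.cons (.br (nat_lit 7) (nat_lit 0) (.cons (.ev (nat_lit 2658476353210020541232716677877071873) (nat_lit 2)) (.cons (.kr (nat_lit 2668840585286901401064956588195840001) (nat_lit 20361637770906747988488461746176) (nat_lit 0) (nat_lit 1)) (.cons (.br (nat_lit 11) (nat_lit 0) (.cons (.kr (nat_lit 20282409603670117168020960837632) (nat_lit 1334420292643450700532337556609564672) (nat_lit 8) (nat_lit 0)) (.cons (.ev (nat_lit 341611594995951541869061836332140134400) (nat_lit 1)) (.cons (.br (nat_lit 14) (nat_lit 0) (.cons (.ev (nat_lit 10405113813592923944367434862952451) (nat_lit 2)) (.cons (.rf (nat_lit 678) (nat_lit 21174442659471745632798752)) .nil))) .nil)))) (.cons (.br (nat_lit 14) (nat_lit 0) (.cons (.kr (nat_lit 20282409603670117168020960837632) (nat_lit 1334420292643450700532337556609564672)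 (nat_lit 8) (nat_lit 0)) (.cons (.br (nat_lit 11) (nat_lit 0) (.cons (.ev (nat_lit 340287579500516086952495189518578680065) (nat_lit 1)) (.cons (.rf (nat_lit 679) (nat_lit 661701333108527519141953)) .nil))) (.cons (.ev (nat_lit 10405113813592923944367434862952451) (nat_lit 2)) .nil)))) .nil))))) (.cons (.br (nat_lit 11) (nat_lit 0) (.cons (.br (nat_lit 14) (nat_lit 0) (.cons (.ev (nat_lit 2658476512285315589259966822895058947) (nat_lit 2)) (.cons (.ev (nat_lit 340287579579434769197823185105813831937) (nat_lit 1)) (.cons (.br (nat_lit 15) (nat_lit 0) (.cons (.ev (nat_lit 2658476353210020541232716677843517953) (nat_lit 2)) (.cons (.rf (nat_lit 521) (nat_lit 21173223845798694126359587)) .nil))) .nil)))) (.cons (.rf (nat_lit 680) (nat_lit 19926519232773908561233952)) (.cons (.ev (nat_lit 2658476512285324997100007356163424257) (nat_lit 2)) (.cons (.br (nat_lit 7) (nat_lit 0) (.cons (.kr (nat_lit 618974742153288195187408897) (nat_lit 20361637766184381787093776466432) (nat_lit 0) (nat_lit 2)) (.cons (.ev (nat_lit 341611594917032869068466243534225211648)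 (nat_lit 1)) (.cons (.br (nat_lit 14) (nat_lit 0) (.cons (.ev (nat_lit 10404955976228433287250360519361027) (nat_lit 2)) (.cons (.ev (nat_lit 10405113813592923944367434862952451) (nat_lit 2)) .nil))) .nil)))) (.cons (.br (nat_lit 7) (nat_lit 0) (.cons (.rf (nat_lit 668) (nat_lit 677582165103132179601393696)) (.cons (.rf (nat_lit 670) (nat_lit 677582165103132179601393696)) (.cons (.br (nat_lit 14) (nat_lit 0) (.cons (.ev (nat_lit 340287559217797003031888423565018595585) (nat_lit 1)) (.cons (.ev (nat_lit 340287579500516091693308134991251701760) (nat_lit 1)) .nil))) (.cons (.br (nat_lit 14) (nat_lit 0) (.cons (.rf (nat_lit 521) (nat_lit 21164959952155091920753699)) (.cons (.rf (nat_lit 681) (nat_lit 21174442659472880577906720)) (.cons (.ev (nat_lit 10405113813592923944367434862952451) (nat_lit 2)) .nil)))) .nil))))) .nil)))))) (.cons (.br (nat_lit 11) (nat_lit 0) (.cons (.br (nat_lit 15) (nat_lit 0) (.cons (.ev (nat_lit 2658476512285315589259966822895058947) (nat_lit 2)) (.cons (.ev (nat_lit 2658476353210020541232716677843517953) (nat_lit 2))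 (.cons (.br (nat_lit 17) (nat_lit 0) (.cons (.ev (nat_lit 87113615180038442379815178632711056130048) (nat_lit 1)) (.cons (.ev (nat_lit 87113615159756342256432444550770130419968) (nat_lit 1)) .nil))) .nil)))) (.cons (.rf (nat_lit 680) (nat_lit 19926519232773908561233952)) (.cons (.ev (nat_lit 2658476512285324997100007356163424257) (nat_lit 2)) (.cons (.br (nat_lit 7) (nat_lit 0) (.cons (.kr (nat_lit 618974742153288195187408897) (nat_lit 20361637766184381787093776466432) (nat_lit 0) (nat_lit 2)) (.cons (.kr (nat_lit 309485009893402662762708993) (nat_lit 20282409603651670423951546253568) (nat_lit 0) (nat_lit 2)) (.cons (.br (nat_lit 15) (nat_lit 0) (.cons (.ev (nat_lit 10404955976228433287250360519361027) (nat_lit 2)) (.cons (.ev (nat_lit 341611615278670630530481547749766529025) (nat_lit 1)) .nil))) (.cons (.br (nat_lit 14) (nat_lit 0) (.cons (.ev (nat_lit 10404955976228433287250360519361027) (nat_lit 2)) (.cons (.ev (nat_lit 340287579579434769197823185105797054465) (nat_lit 1)) (.cons (.ev (nat_lit 10405113813592923944367434862952451) (nat_lit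 2)) .nil)))) .nil))))) (.cons (.br (nat_lit 7) (nat_lit 0) (.cons (.rf (nat_lit 668) (nat_lit 677582165103132179601393696)) (.cons (.rf (nat_lit 670) (nat_lit 677582165103132179601393696)) (.cons (.br (nat_lit 14) (nat_lit 0) (.cons (.br (nat_lit 16) (nat_lit 0) (.cons (.ev (nat_lit 340287579579434764457010239641730744320) (nat_lit 1)) .nil)) (.cons (.ev (nat_lit 10405113813592923944367434862952451) (nat_lit 2)) (.cons (.rf (nat_lit 682) (nat_lit 661701295917511206864928)) .nil)))) (.cons (.br (nat_lit 14) (nat_lit 0) (.cons (.ev (nat_lit 87112291144339825479057286442227123355648) (nat_lit 1)) (.cons (.ev (nat_lit 87112291144418744161265720949666956181760) (nat_lit 1)) .nil))) .nil))))) .nil)))))) .nil)))))))]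

theorem c35 : chkAll C T R L35 (nat_lit 668) = true := by decide +kernel

theorem l35 : (nat_lit 668) + L35.length = (nat_lit 684) := by decide +kernel

/-- part of the certificates -/
def L36 : List Prf := [(.br (nat_lit 15) (nat_lit 0) (.cons (.ev (nat_lit 1329248278194524265459798123724472320) (nat_lit 1)) .nil)),
 (.br (nat_lit 14) (nat_lit 0) (.cons (.ev (nat_lit 1334420371871613214869015318679846913) (nat_lit 1)) .nil)),
 (.br (nat_lit 10) (nat_lit 0) (.cons (.rf (nat_lit 683) (nat_lit 19767139507982538591179811)) (.cons (.br (nat_lit 5) (nat_lit 0) (.cons (.ev (nat_lit 2658476353210020541233279636420427777) (nat_lit 2)) (.cons (.ev (nat_lit 340287579579434769197823185105813831937) (nat_lit 1)) (.cons (.br (nat_lit 16) (nat_lit 0) (.cons (.ev (nat_lit 2658476353210020541233279636386873857) (nat_lit 2)) (.cons (.ev (nat_lit 340287579579434769197823185105797054465) (nat_lit 1)) .nil))) .nil)))) (.cons (.ev (nat_lit 10404955976228433287250360519361027) (nat_lit 2)) (.cons (.br (nat_lit 5) (nat_lit 0) (.cons (.ev (nat_lit 10405113813592923944367434896506881)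 (nat_lit 2)) (.cons (.ev (nat_lit 340287559297334650555902048637527588865) (nat_lit 1)) (.cons (.br (nat_lit 7) (nat_lit 0) (.cons (.kr (nat_lit 20282409603651670423951546253312) (nat_lit 309485009893402662762708992) (nat_lit 4) (nat_lit 0)) (.cons (.ev (nat_lit 340287579579434769197823185105797054465) (nat_lit 1)) .nil))) .nil)))) (.cons (.br (nat_lit 7) (nat_lit 0) (.cons (.br (nat_lit 15) (nat_lit 0) (.cons (.ev (nat_lit 341611615278670635234401286545718968320) (nat_lit 1)) (.cons (.rf (nat_lit 423) (nat_lit 625095933439895452815429)) .nil))) (.cons (.kr (nat_lit 20282409603651670423951546253312) (nat_lit 309485009893402662762708992) (nat_lit 4) (nat_lit 0)) (.cons (.br (nat_lit 5) (nat_lit 0) (.cons (.ev (nat_lit 341611615278670635234401286545702191360) (nat_lit 1)) (.cons (.rf (nat_lit 685) (nat_lit 21174442659472880577906720)) .nil))) (.cons (.ev (nat_lit 10405113813592923944367434862952961) (nat_lit 2)) .nil))))) .nil)))))),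
 (.br (nat_lit 15) (nat_lit 0) (.cons (.ev (nat_lit 2658476353210020541233279636386873347) (nat_lit 2)) (.cons (.kr (nat_lit 618970038233549399234969601) (nat_lit 20361637770888301525889728905216) (nat_lit 0) (nat_lit 1)) (.cons (.ev (nat_lit 2658476353210020541233279636386873857) (nat_lit 2)) (.cons (.ev (nat_lit 87113615159835260933936959319414010806273) (nat_lit 1)) .nil))))),
 (.br (nat_lit 13) (nat_lit 0) (.cons (.ev (nat_lit 1329228075323772341256131004216639488) (nat_lit 1)) .nil)),
 (.br (nat_lit 10) (nat_lit 0) (.cons (.ev (nat_lit 10405113813592923944367434862952451) (nat_lit 2)) (.cons (.ev (nat_lit 87112291124136644037919880074394144342016) (nat_lit 1)) (.cons (.ev (nat_lit 87113615159835260933936959319414010806273) (nat_lit 1)) (.cons (.ev (nat_lit 10405113813592923944367434862952961) (nat_lit 2)) .nil))))),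
 (.br (nat_lit 14) (nat_lit 0) (.cons (.rf (nat_lit 677) (nat_lit 19767139507982538591179811)) (.cons (.kr (nat_lit 20361637766184381787093776465921) (nat_lit 618974742153288195187408896) (nat_lit 0) (nat_lit 1)) (.cons (.ev (nat_lit 10404955976237914913704247195336707) (nat_lit 2)) (.cons (.br (nat_lit 10) (nat_lit 0) (.cons (.ev (nat_lit 10404955976228433287250360485806083) (nat_lit 2)) (.cons (.ev (nat_lit 2658476512285315589259966822895058947) (nat_lit 2)) (.cons (.ev (nat_lit 10404955976228433287250360519361027) (nat_lit 2)) (.cons (.br (nat_lit 5) (nat_lit 0) (.cons (.rf (nat_lit 1) (nat_lit 582001825782946)) (.cons (.br (nat_lit 7) (nat_lit 0) (.cons (.ev (nat_lit 341611615199132983006467641206575792385) (nat_lit 1)) (.cons (.rf (nat_lit 684) (nat_lit 21174441469360359728056352)) .nil))) (.cons (.br (nat_lit 7) (nat_lit 0) (.cons (.rf (nat_lit 521) (nat_lit 21162446582188868945058851)) (.cons (.ev (nat_lit 87113615159756342261173257777713468407808) (nat_lit 1)) .nil))) .nil)))) .nil))))) (.cons (.rf (nat_lit 686) (nat_lit 19926519232773908561233952))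 (.cons (.br (nat_lit 5) (nat_lit 0) (.cons (.br (nat_lit 10) (nat_lit 0) (.cons (.rf (nat_lit 1) (nat_lit 582139130518690)) (.cons (.br (nat_lit 15) (nat_lit 0) (.cons (.ev (nat_lit 341611615199132987710387380002494676993) (nat_lit 1)) (.cons (.br (nat_lit 16) (nat_lit 0) (.cons (.ev (nat_lit 341611594917032869068466243534241988865) (nat_lit 1)) .nil)) .nil))) (.cons (.ev (nat_lit 10405113813592923944367434896506881) (nat_lit 2)) .nil)))) (.cons (.rf (nat_lit 683) (nat_lit 19767139507982538591179811)) (.cons (.br (nat_lit 7) (nat_lit 0) (.cons (.ev (nat_lit 2658476353210020541233279636420427777) (nat_lit 2)) (.cons (.rf (nat_lit 686) (nat_lit 19767139507982538591179811)) (.cons (.br (nat_lit 10) (nat_lit 0) (.cons (.ev (nat_lit 10405113813592923944367434862952961) (nat_lit 2)) (.cons (.ev (nat_lit 87113615159756342261173257777713468407808) (nat_lit 1)) .nil))) .nil)))) (.cons (.br (nat_lit 7) (nat_lit 0) (.cons (.br (nat_lit 16) (nat_lit 0) (.cons (.ev (nat_lit 2658476353210020541233279636386873857) (nat_lit 2)) (.cons (.ev (nat_lit 340287579500516091693308416461933445120)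 (nat_lit 1)) .nil))) (.cons (.kr (nat_lit 20282409603651670423951546253312) (nat_lit 309485009893402662762708992) (nat_lit 4) (nat_lit 0)) (.cons (.br (nat_lit 10) (nat_lit 0) (.cons (.ev (nat_lit 341611615278670630530481547749783306240) (nat_lit 1)) (.cons (.ev (nat_lit 10405113813592923944367434862952961) (nat_lit 2)) .nil))) (.cons (.br (nat_lit 16) (nat_lit 0) (.cons (.ev (nat_lit 10405113813592923944367434862952961) (nat_lit 2)) (.cons (.ev (nat_lit 340287579579434764457009958162442289153) (nat_lit 1)) (.cons (.ev (nat_lit 340287559297334645815088821694172823553) (nat_lit 1)) .nil)))) .nil))))) (.cons (.br (nat_lit 7) (nat_lit 0) (.cons (.rf (nat_lit 687) (nat_lit 677582165103132179601393696)) (.cons (.kr (nat_lit 20282409603651670423951546253312) (nat_lit 309485009893402662762708992) (nat_lit 4) (nat_lit 0)) (.cons (.br (nat_lit 10) (nat_lit 0) (.cons (.rf (nat_lit 389) (nat_lit 21168576666878715661223968)) (.cons (.rf (nat_lit 688) (nat_lit 661701333108527519141953)) (.cons (.ev (nat_lit 10405113813592923944367434862952961) (nat_lit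 2)) .nil)))) (.cons (.rf (nat_lit 689) (nat_lit 677582165103132179601393696)) .nil))))) .nil)))))) .nil))))))),
 (.br (nat_lit 8) (nat_lit 0) (.cons (.ev (nat_lit 5192376087911008598049830928908288) (nat_lit 1)) .nil)),
 (.br (nat_lit 15) (nat_lit 0) (.cons (.rf (nat_lit 690) (nat_lit 19767139507982538591179811)) (.cons (.kr (nat_lit 20361637770906747988488444968961) (nat_lit 2668840585286901401064956588212617216) (nat_lit 0) (nat_lit 1)) (.cons (.br (nat_lit 11) (nat_lit 0) (.cons (.ev (nat_lit 10404955976228433287250360485806083) (nat_lit 2)) (.cons (.ev (nat_lit 2658476512285324997099444414799937537) (nat_lit 2)) (.cons (.ev (nat_lit 10404955976228433287250360519361027) (nat_lit 2)) (.cons (.br (nat_lit 5) (nat_lit 0) (.cons (.rf (nat_lit 1) (nat_lit 582036051401890)) (.cons (.br (nat_lit 7) (nat_lit 0) (.cons (.ev (nat_lit 340287579579434769197823466585085509889) (nat_lit 1)) (.cons (.rf (nat_lit 523) (nat_lit 21164959952155091920753699)) .nil))) (.cons (.rf (nat_lit 147) (nat_lit 21164996814047770917832736)) .nil)))) .nil))))) (.cons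 (.kr (nat_lit 20282409603670117168020960837633) (nat_lit 1334420292643450700532337556626341888) (nat_lit 0) (nat_lit 1)) (.cons (.br (nat_lit 10) (nat_lit 0) (.cons (.rf (nat_lit 683) (nat_lit 19767139507982538591179811)) (.cons (.ev (nat_lit 2658476353210020541233279636386873857) (nat_lit 2)) (.cons (.br (nat_lit 5) (nat_lit 0) (.cons (.ev (nat_lit 2658476353210020541232716677877072387) (nat_lit 2)) (.cons (.ev (nat_lit 341611594917032864364546786208988070145) (nat_lit 1)) (.cons (.br (nat_lit 7) (nat_lit 0) (.cons (.ev (nat_lit 2658476353210020541232716677843517443) (nat_lit 2)) (.cons (.rf (nat_lit 584) (nat_lit 21164620889653444201157667)) .nil))) .nil)))) (.cons (.br (nat_lit 5) (nat_lit 0) (.cons (.ev (nat_lit 10405113813592923944367434896507395) (nat_lit 2)) (.cons (.ev (nat_lit 340287559297334650555902048637544366337) (nat_lit 1)) (.cons (.br (nat_lit 11) (nat_lit 0) (.cons (.ev (nat_lit 2658476353210020541232716677843517443) (nat_lit 2)) (.cons (.ev (nat_lit 341611615278670635234401005075037224960) (nat_lit 1)) .nil))) .nil)))) (.cons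 (.br (nat_lit 7) (nat_lit 0) (.cons (.rf (nat_lit 566) (nat_lit 677580949923866323984680992)) (.cons (.rf (nat_lit 494) (nat_lit 21174404685119687644776480)) (.cons (.br (nat_lit 11) (nat_lit 0) (.cons (.ev (nat_lit 341611615278670635234401286545702191105) (nat_lit 1)) (.cons (.rf (nat_lit 688) (nat_lit 661327603121430995514433)) .nil))) (.cons (.ev (nat_lit 10405113813592923944367434862952451) (nat_lit 2)) .nil))))) .nil)))))) (.cons (.br (nat_lit 5) (nat_lit 0) (.cons (.br (nat_lit 10) (nat_lit 0) (.cons (.rf (nat_lit 1) (nat_lit 582169195388066)) (.cons (.ev (nat_lit 10405113813592923944367434896507395) (nat_lit 2)) (.cons (.br (nat_lit 11) (nat_lit 0) (.cons (.rf (nat_lit 490) (nat_lit 21169682070934684090504227)) (.cons (.ev (nat_lit 87113615159756342256432444269290841964544) (nat_lit 1)) .nil))) .nil)))) (.cons (.rf (nat_lit 683) (nat_lit 19767139507982538591179811)) (.cons (.br (nat_lit 7) (nat_lit 0) (.cons (.rf (nat_lit 1) (nat_lit 582168020987042)) (.cons (.br (nat_lit 10) (nat_lit 0) (.cons (.ev (nat_lit 10405113813592923944367434862952451)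 (nat_lit 2)) (.cons (.rf (nat_lit 559) (nat_lit 21162338244612248280598560)) .nil))) (.cons (.br (nat_lit 10) (nat_lit 0) (.cons (.rf (nat_lit 656) (nat_lit 19528375020467564622050)) (.cons (.ev (nat_lit 10405113813592923944367434862952451) (nat_lit 2)) .nil))) .nil)))) (.cons (.br (nat_lit 7) (nat_lit 0) (.cons (.br (nat_lit 11) (nat_lit 0) (.cons (.ev (nat_lit 340287559217796998291075478100918730753) (nat_lit 1)) (.cons (.rf (nat_lit 358) (nat_lit 19986314458075516393241929)) .nil))) (.cons (.br (nat_lit 10) (nat_lit 0) (.cons (.ev (nat_lit 340287559217796998291075478100918730753) (nat_lit 1)) (.cons (.ev (nat_lit 2658476353210020541232716677843517443) (nat_lit 2)) .nil))) (.cons (.ev (nat_lit 340287559217796998291075196621647053056) (nat_lit 1)) (.cons (.br (nat_lit 10) (nat_lit 0) (.cons (.ev (nat_lit 2658476353210020541232716677843517443) (nat_lit 2)) (.cons (.ev (nat_lit 341611615199132983006467922685847470080) (nat_lit 1)) (.cons (.ev (nat_lit 10405113813592923944367434862952451) (nat_lit 2)) .nil)))) .nil))))) (.cons (.br (nat_lit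 7) (nat_lit 0) (.cons (.br (nat_lit 11) (nat_lit 0) (.cons (.rf (nat_lit 656) (nat_lit 19529604643868961185954)) (.cons (.ev (nat_lit 87112291144339825479057286442227123355648) (nat_lit 1)) .nil))) (.cons (.br (nat_lit 10) (nat_lit 0) (.cons (.br (nat_lit 16) (nat_lit 0) (.cons (.ev (nat_lit 340287579579434769197823185105797054720) (nat_lit 1)) .nil)) (.cons (.ev (nat_lit 2658476353210020541232716677843517443) (nat_lit 2)) .nil))) (.cons (.br (nat_lit 16) (nat_lit 0) (.cons (.ev (nat_lit 10405113813592923944367434862952451) (nat_lit 2)) (.cons (.ev (nat_lit 341611615199132983006467641206559014913) (nat_lit 1)) (.cons (.ev (nat_lit 340287559217796998291075196621663830016) (nat_lit 1)) .nil)))) (.cons (.br (nat_lit 10) (nat_lit 0) (.cons (.ev (nat_lit 2658476353210020541232716677843517443) (nat_lit 2)) (.cons (.rf (nat_lit 691) (nat_lit 20678166659641484973121)) .nil))) .nil))))) .nil)))))) .nil))))))),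
 (.br (nat_lit 10) (nat_lit 0) (.cons (.ev (nat_lit 10404955976237914913704247228891137) (nat_lit 2)) (.cons (.ev (nat_lit 341611594995951541869061836332123357185) (nat_lit 1)) (.cons (.br (nat_lit 14) (nat_lit 0) (.cons (.ev (nat_lit 341611615278670635234401286545702191360) (nat_lit 1)) (.cons (.ev (nat_lit 10405113813592923944367434862952961) (nat_lit 2)) .nil))) .nil)))),
 (.br (nat_lit 15) (nat_lit 0) (.cons (.ev (nat_lit 1329248278194524265459798123724472320) (nat_lit 1)) .nil)),
 (.br (nat_lit 15) (nat_lit 0) (.cons (.ev (nat_lit 1329248357732167048732253842638438400) (nat_lit 1)) .nil)),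
 (.br (nat_lit 12) (nat_lit 0) (.cons (.ev (nat_lit 1329228075014292053801267701330477056) (nat_lit 1)) (.cons (.rf (nat_lit 502) (nat_lit 18229066258263529825312)) .nil))),
 (.br (nat_lit 5) (nat_lit 0) (.cons (.rf (nat_lit 692) (nat_lit 19767139507982538591179811)) (.cons (.rf (nat_lit 683) (nat_lit 19767139507982538591179811)) (.cons (.br (nat_lit 7) (nat_lit 0) (.cons (.ev (nat_lit 2658476353210020541233279636386873347) (nat_lit 2)) (.cons (.kr (nat_lit 309489732259885532407922689) (nat_lit 1334420292643450700532619031603052544) (nat_lit 0) (nat_lit 1)) (.cons (.rf (nat_lit 693) (nat_lit 19926519232773908561233952)) (.cons (.br (nat_lit 14) (nat_lit 0) (.cons (.ev (nat_lit 10404955976237914913704247228891137) (nat_lit 2)) (.cons (.rf (nat_lit 693) (nat_lit 19767139507982538591179811)) (.cons (.br (nat_lit 10) (nat_lit 0) (.cons (.ev (nat_lit 10405113813592923944367434862952961) (nat_lit 2)) (.cons (.ev (nat_lit 87113615159756342261173257777713468407808) (nat_lit 1)) .nil))) .nil)))) .nil))))) (.cons (.rf (nat_lit 677) (nat_lit 19767139507982538591179811))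 (.cons (.br (nat_lit 7) (nat_lit 0) (.cons (.ev (nat_lit 2658476353210020541233279636386873347) (nat_lit 2)) (.cons (.br (nat_lit 10) (nat_lit 0) (.cons (.ev (nat_lit 2658476512285315589259966822895058947) (nat_lit 2)) (.cons (.ev (nat_lit 2658476353210020541232716677843517953) (nat_lit 2)) (.cons (.br (nat_lit 14) (nat_lit 0) (.cons (.ev (nat_lit 340287579500516086952494908047880159488) (nat_lit 1)) (.cons (.rf (nat_lit 694) (nat_lit 21174441469360359728056352)) .nil))) .nil)))) (.cons (.kr (nat_lit 20361637770906747988488444968961) (nat_lit 2668840585286901401064956588212617216) (nat_lit 0) (nat_lit 1)) (.cons (.br (nat_lit 10) (nat_lit 0) (.cons (.ev (nat_lit 2658476353210020541232716677843517953) (nat_lit 2)) (.cons (.ev (nat_lit 340287579579434764457010239641713967360) (nat_lit 1)) (.cons (.br (nat_lit 14) (nat_lit 0) (.cons (.kr (nat_lit 20282409603670117168020960837633) (nat_lit 1334420292643450700532337556626341888) (nat_lit 0) (nat_lit 1)) (.cons (.ev (nat_lit 10405113813592923944367434862952961) (nat_lit 2)) .nil))) .nil)))) (.cons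 (.br (nat_lit 11) (nat_lit 0) (.cons (.br (nat_lit 14) (nat_lit 0) (.cons (.ev (nat_lit 341611615278670635234401005075020447745) (nat_lit 1)) (.cons (.rf (nat_lit 501) (nat_lit 19986239203002603914276077)) .nil))) (.cons (.kr (nat_lit 20282409603670117168020960837633) (nat_lit 1334420292643450700532337556626341888) (nat_lit 0) (nat_lit 1)) (.cons (.br (nat_lit 14) (nat_lit 0) (.cons (.ev (nat_lit 10404955976237914913704247195337217) (nat_lit 2)) (.cons (.ev (nat_lit 340287579579434764457009958162442289153) (nat_lit 1)) .nil))) (.cons (.br (nat_lit 16) (nat_lit 0) (.cons (.br (nat_lit 14) (nat_lit 0) (.cons (.ev (nat_lit 10405113813592923944367434862952961) (nat_lit 2)) .nil)) (.cons (.br (nat_lit 10) (nat_lit 0) (.cons (.ev (nat_lit 10405113813592923944367434862952961) (nat_lit 2)) .nil)) (.cons (.ev (nat_lit 341611615199132987710387661481766354945) (nat_lit 1)) .nil)))) .nil))))) .nil)))))) (.cons (.br (nat_lit 7) (nat_lit 0) (.cons (.ev (nat_lit 2658476353210020541233279636386873347) (nat_lit 2)) (.cons (.br (nat_lit 10) (nat_lit 0) (.cons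 (.ev (nat_lit 2658476512285315589259966822895058947) (nat_lit 2)) (.cons (.ev (nat_lit 2658476353210020541232716677843517953) (nat_lit 2)) (.cons (.br (nat_lit 14) (nat_lit 0) (.cons (.rf (nat_lit 429) (nat_lit 21157386296094812059871302)) (.cons (.ev (nat_lit 87113615159756342261173257777713468407808) (nat_lit 1)) .nil))) .nil)))) (.cons (.kr (nat_lit 20361637770906747988488444968961) (nat_lit 2668840585286901401064956588212617216) (nat_lit 0) (nat_lit 1)) (.cons (.br (nat_lit 11) (nat_lit 0) (.cons (.ev (nat_lit 2658476353210020541232716677843517953) (nat_lit 2)) (.cons (.kr (nat_lit 20282409603670117168020960837633) (nat_lit 1334420292643450700532337556626341888) (nat_lit 0) (nat_lit 1)) (.cons (.br (nat_lit 10) (nat_lit 0) (.cons (.ev (nat_lit 10404955976237914913704247195337217) (nat_lit 2)) (.cons (.br (nat_lit 14) (nat_lit 0) (.cons (.ev (nat_lit 10405113813592923944367434862952961) (nat_lit 2)) .nil)) .nil))) (.cons (.br (nat_lit 14) (nat_lit 0) (.cons (.rf (nat_lit 695) (nat_lit 21174442659471745632798752)) (.cons (.ev (nat_lit 340287579500516086952494908047896936448)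 (nat_lit 1)) (.cons (.rf (nat_lit 682) (nat_lit 661516828652695971792928)) .nil)))) .nil))))) (.cons (.br (nat_lit 11) (nat_lit 0) (.cons (.rf (nat_lit 585) (nat_lit 661394402801669232468129)) (.cons (.kr (nat_lit 20282409603670117168020960837633) (nat_lit 1334420292643450700532337556626341888) (nat_lit 0) (nat_lit 1)) (.cons (.br (nat_lit 14) (nat_lit 0) (.cons (.ev (nat_lit 10404955976237914913704247195337217) (nat_lit 2)) (.cons (.br (nat_lit 10) (nat_lit 0) (.cons (.ev (nat_lit 10405113813592923944367434862952961) (nat_lit 2)) .nil)) (.cons (.rf (nat_lit 689) (nat_lit 677582165103132179601393696)) .nil)))) (.cons (.rf (nat_lit 696) (nat_lit 661701333108527519141953)) .nil))))) .nil)))))) .nil))))))),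
 (.br (nat_lit 11) (nat_lit 0) (.cons (.ev (nat_lit 10404877057560410543050782800871427) (nat_lit 2)) (.cons (.kr (nat_lit 618970038233549399234969601) (nat_lit 20361637770888301525889728905216) (nat_lit 0) (nat_lit 1)) (.cons (.br (nat_lit 15) (nat_lit 0) (.cons (.ev (nat_lit 341611615199132983006467922685847470337) (nat_lit 1)) (.cons (.ev (nat_lit 341611615278670630530481266279101563137) (nat_lit 1)) .nil))) .nil)))),
 (.br (nat_lit 10) (nat_lit 0) (.cons (.ev (nat_lit 340287559297334645815089103164854567168) (nat_lit 1)) (.cons (.ev (nat_lit 2658476512285324997099444414799937537) (nat_lit 2)) (.cons (.br (nat_lit 15) (nat_lit 0) (.cons (.ev (nat_lit 340287559217797003031888705044290273537) (nat_lit 1)) (.cons (.ev (nat_lit 2658476353210020541232716677843517443) (nat_lit 2)) .nil))) .nil))))]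

theorem c36 : chkAll C T R L36 (nat_lit 684) = true := by decide +kernel

theorem l36 : (nat_lit 684) + L36.length = (nat_lit 700) := by decide +kernel

/-- part of the certificates -/
def L37 : List Prf := [(.br (nat_lit 11) (nat_lit 0) (.cons (.kr (nat_lit 618970038233549399234969601) (nat_lit 20361637770888301525889728905216) (nat_lit 0) (nat_lit 1)) (.cons (.ev (nat_lit 340287579579434764457009958162442289408) (nat_lit 1)) (.cons (.rf (nat_lit 670) (nat_lit 677582165103132179601393696)) .nil)))),
 (.br (nat_lit 15) (nat_lit 0) (.cons (.ev (nat_lit 1329248278194524265459798123707695105) (nat_lit 1)) .nil)),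
 (.br (nat_lit 5) (nat_lit 0) (.cons (.rf (nat_lit 692) (nat_lit 19767139507982538591179811)) (.cons (.rf (nat_lit 683) (nat_lit 19767139507982538591179811)) (.cons (.rf (nat_lit 697) (nat_lit 19767139507982538591179811)) (.cons (.rf (nat_lit 677) (nat_lit 19767139507982538591179811)) (.cons (.rf (nat_lit 690) (nat_lit 19767139507982538591179811)) (.cons (.br (nat_lit 7) (nat_lit 0) (.cons (.rf (nat_lit 698) (nat_lit 19926519232773908561233952)) (.cons (.rf (nat_lit 699) (nat_lit 19926519232773908561233952)) (.cons (.ev (nat_lit 340287559217796998291075196621647053056) (nat_lit 1)) (.cons (.rf (nat_lit 700) (nat_lit 19926519232773908561233952)) (.cons (.br (nat_lit 11) (nat_lit 0) (.cons (.rf (nat_lit 654) (nat_lit 677422785378340809631339555)) (.cons (.rf (nat_lit 700) (nat_lit 19767139507982538591179811)) (.cons (.rf (nat_lit 655) (nat_lit 677422785378340809631339555)) (.cons (.br (nat_lit 14) (nat_lit 0) (.cons (.rf (nat_lit 698) (nat_lit 19767139507982538591179811)) (.cons (.rf (nat_lit 699) (nat_lit 19767139507982538591179811)) (.cons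 (.br (nat_lit 10) (nat_lit 0) (.cons (.ev (nat_lit 10404955976228433287250360519360513) (nat_lit 2)) .nil)) .nil)))) .nil))))) .nil)))))) (.cons (.br (nat_lit 7) (nat_lit 0) (.cons (.br (nat_lit 11) (nat_lit 0) (.cons (.ev (nat_lit 10404877057560410543050782800871427) (nat_lit 2)) (.cons (.kr (nat_lit 618970038233549399234969601) (nat_lit 20361637770888301525889728905216) (nat_lit 0) (nat_lit 1)) (.cons (.br (nat_lit 14) (nat_lit 0) (.cons (.ev (nat_lit 2658476512285315589259966822895059457) (nat_lit 2)) (.cons (.ev (nat_lit 340287579500516091693308416461916668160) (nat_lit 1)) .nil))) (.cons (.br (nat_lit 14) (nat_lit 0) (.cons (.rf (nat_lit 429) (nat_lit 21157386439783247048486125)) (.cons (.rf (nat_lit 156) (nat_lit 21173002700975760863234080)) (.cons (.rf (nat_lit 687) (nat_lit 677582165103132179601393696)) .nil)))) .nil))))) (.cons (.br (nat_lit 10) (nat_lit 0) (.cons (.br (nat_lit 15) (nat_lit 0) (.cons (.ev (nat_lit 2658476512285315589259966822895059457) (nat_lit 2)) (.cons (.rf (nat_lit 429) (nat_lit 21157386295664622767062477)) .nil)))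 (.cons (.ev (nat_lit 2658476512285324997099444414799937537) (nat_lit 2)) (.cons (.br (nat_lit 14) (nat_lit 0) (.cons (.ev (nat_lit 2658476512285315589259966822895059457) (nat_lit 2)) (.cons (.ev (nat_lit 340287559297334645815089103164871344128) (nat_lit 1)) .nil))) (.cons (.br (nat_lit 15) (nat_lit 0) (.cons (.rf (nat_lit 701) (nat_lit 21174441469360359728056352)) (.cons (.br (nat_lit 14) (nat_lit 0) (.cons (.ev (nat_lit 340287579579434764457009958162459066368) (nat_lit 1)) .nil)) (.cons (.ev (nat_lit 2658476353210020541232716677843517443) (nat_lit 2)) .nil)))) .nil))))) (.cons (.br (nat_lit 16) (nat_lit 0) (.cons (.rf (nat_lit 669) (nat_lit 19926519232773908561233952)) (.cons (.kr (nat_lit 618974742153288195187408897) (nat_lit 20361637766184381787093776466432) (nat_lit 0) (nat_lit 2)) (.cons (.kr (nat_lit 2668840585286901401064956588212617217) (nat_lit 20361637770906747988488444969472) (nat_lit 0) (nat_lit 2)) (.cons (.ev (nat_lit 340287559217796998291075196621663830016) (nat_lit 1)) .nil))))) (.cons (.br (nat_lit 10) (nat_lit 0) (.cons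 (.kr (nat_lit 618970038233549399234969601) (nat_lit 20361637770888301525889728905216) (nat_lit 0) (nat_lit 1)) (.cons (.ev (nat_lit 10405113813583442317913548186976257) (nat_lit 2)) (.cons (.rf (nat_lit 671) (nat_lit 19926519232773908561233952)) (.cons (.br (nat_lit 11) (nat_lit 0) (.cons (.br (nat_lit 16) (nat_lit 0) (.cons (.ev (nat_lit 340287579579434764457009958162459066368) (nat_lit 1)) .nil)) (.cons (.kr (nat_lit 309485009893402662762708993) (nat_lit 20282409603651670423951546253568) (nat_lit 0) (nat_lit 2)) (.cons (.rf (nat_lit 670) (nat_lit 677582165103132179601393696)) .nil)))) .nil))))) (.cons (.br (nat_lit 11) (nat_lit 0) (.cons (.br (nat_lit 14) (nat_lit 0) (.cons (.ev (nat_lit 2658476512285315589260529764258545667) (nat_lit 2)) (.cons (.ev (nat_lit 340287559297334645815089103164871344128) (nat_lit 1)) .nil))) (.cons (.kr (nat_lit 618974742153288195187408897) (nat_lit 20361637766184381787093776466432) (nat_lit 0) (nat_lit 2)) (.cons (.kr (nat_lit 309485009893402662762708993) (nat_lit 20282409603651670423951546253568) (nat_lit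 0) (nat_lit 2)) (.cons (.br (nat_lit 10) (nat_lit 0) (.cons (.ev (nat_lit 340287579500516091693308134991234924545) (nat_lit 1)) (.cons (.br (nat_lit 14) (nat_lit 0) (.cons (.ev (nat_lit 10404955976228433287250360519360513) (nat_lit 2)) .nil)) (.cons (.br (nat_lit 14) (nat_lit 0) (.cons (.ev (nat_lit 10404955976228433287250360519360513) (nat_lit 2)) .nil)) .nil)))) .nil))))) (.cons (.br (nat_lit 14) (nat_lit 0) (.cons (.br (nat_lit 11) (nat_lit 0) (.cons (.kr (nat_lit 20361637770906748269959126712321) (nat_lit 2668840585286901401064675117530873856) (nat_lit 0) (nat_lit 1)) (.cons (.ev (nat_lit 10404955976237914913704247195337217) (nat_lit 2)) (.cons (.ev (nat_lit 87112291124136644037919880074394144342016) (nat_lit 1)) .nil)))) (.cons (.br (nat_lit 10) (nat_lit 0) (.cons (.kr (nat_lit 20361637770906748269959126712321) (nat_lit 2668840585286901401064675117530873856) (nat_lit 0) (nat_lit 1)) (.cons (.rf (nat_lit 671) (nat_lit 19767139507982538591179811)) (.cons (.ev (nat_lit 87112291144339825483761206181023075794945) (nat_lit 1)) .nil)))) (.cons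 (.br (nat_lit 16) (nat_lit 0) (.cons (.ev (nat_lit 341611594995951546572981293648804118528) (nat_lit 1)) (.cons (.ev (nat_lit 340287559217797003031888705044273496065) (nat_lit 1)) (.cons (.ev (nat_lit 174905147002476181385802120394556517253635) (nat_lit 2)) .nil)))) (.cons (.br (nat_lit 10) (nat_lit 0) (.cons (.br (nat_lit 15) (nat_lit 0) (.cons (.ev (nat_lit 2658476353210020541232716677843517443) (nat_lit 2)) .nil)) (.cons (.ev (nat_lit 341611594995951546572981293648804118528) (nat_lit 1)) (.cons (.ev (nat_lit 10405113813592923944367434862952961) (nat_lit 2)) .nil)))) (.cons (.rf (nat_lit 689) (nat_lit 677582165103132179601393696)) .nil)))))) .nil))))))) .nil)))))))),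
 (.br (nat_lit 11) (nat_lit 0) (.cons (.ev (nat_lit 10404877057560410543050782800871427) (nat_lit 2)) (.cons (.kr (nat_lit 618970038233549399234969601) (nat_lit 20361637770888301525889728905216) (nat_lit 0) (nat_lit 1)) (.cons (.br (nat_lit 14) (nat_lit 0) (.cons (.ev (nat_lit 2658476512285315589259966822895059457) (nat_lit 2)) (.cons (.ev (nat_lit 340287579579434769197823185105797054465) (nat_lit 1)) (.cons (.rf (nat_lit 687) (nat_lit 677582165103132179601393696)) .nil)))) (.cons (.br (nat_lit 15) (nat_lit 0) (.cons (.ev (nat_lit 87112291144339825479057286442227123355648) (nat_lit 1)) (.cons (.ev (nat_lit 2658476353210020541233279636386873857) (nat_lit 2)) .nil))) .nil))))),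
 (.br (nat_lit 10) (nat_lit 0) (.cons (.rf (nat_lit 703) (nat_lit 677422785378340809631339555)) (.cons (.ev (nat_lit 2658476512285324997099444414799937537) (nat_lit 2)) (.cons (.br (nat_lit 15) (nat_lit 0) (.cons (.ev (nat_lit 2658476512285315589259966822895059457) (nat_lit 2)) (.cons (.ev (nat_lit 2658476353210020541232716677843517443) (nat_lit 2)) (.cons (.ev (nat_lit 87113615159756342256432444550770130419968) (nat_lit 1)) .nil)))) (.cons (.br (nat_lit 15) (nat_lit 0) (.cons (.ev (nat_lit 87113615159756342261173257777713468407808) (nat_lit 1)) (.cons (.ev (nat_lit 87113615180038442375074365405767718142208) (nat_lit 1)) .nil))) .nil))))),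
 (.br (nat_lit 10) (nat_lit 0) (.cons (.kr (nat_lit 618970038233549399234969601) (nat_lit 20361637770888301525889728905216) (nat_lit 0) (nat_lit 1)) (.cons (.ev (nat_lit 10405113813583442317913548186976257) (nat_lit 2)) (.cons (.rf (nat_lit 671) (nat_lit 19926519232773908561233952)) (.cons (.br (nat_lit 11) (nat_lit 0) (.cons (.ev (nat_lit 87113615159756342261173257777713468407808) (nat_lit 1)) (.cons (.kr (nat_lit 309485009893402662762708993) (nat_lit 20282409603651670423951546253568) (nat_lit 0) (nat_lit 2)) .nil))) .nil))))),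
 (.br (nat_lit 14) (nat_lit 0) (.cons (.rf (nat_lit 703) (nat_lit 677422785378340809631339555)) (.cons (.kr (nat_lit 618974742153288195187408897) (nat_lit 20361637766184381787093776466432) (nat_lit 0) (nat_lit 2)) (.cons (.rf (nat_lit 704) (nat_lit 677422785378340809631339555)) (.cons (.ev (nat_lit 340287559217796998291075196621663830273) (nat_lit 1)) (.cons (.br (nat_lit 10) (nat_lit 0) (.cons (.rf (nat_lit 654) (nat_lit 639946084970287305215448099)) (.cons (.ev (nat_lit 87112291124057106395099786188126160945408) (nat_lit 1)) (.cons (.ev (nat_lit 174905147002476181395209959872148422131715) (nat_lit 2)) .nil)))) .nil)))))),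
 (.br (nat_lit 9) (nat_lit 0) (.cons (.rf (nat_lit 228) (nat_lit 15692782080428332910624)) (.cons (.br (nat_lit 11) (nat_lit 1) (.cons (.br (nat_lit 13) (nat_lit 0) (.cons (.br (nat_lit 1) (nat_lit 0) (.cons (.kr (nat_lit 1) (nat_lit 256) (nat_lit 0) (nat_lit 2)) (.cons (.kr (nat_lit 256) (nat_lit 16777216) (nat_lit 1) (nat_lit 0)) (.cons (.rf (nat_lit 657) (nat_lit 583706118939841765935136)) (.cons (.kr (nat_lit 79228167236631101938182651905) (nat_lit 20282409603670117168025255805440) (nat_lit 0) (nat_lit 2)) (.cons (.rf (nat_lit 663) (nat_lit 583706118939841765935136)) (.cons (.rf (nat_lit 657) (nat_lit 424326394148471795880995)) (.cons (.rf (nat_lit 663) (nat_lit 424326394148471795880995)) (.cons (.br (nat_lit 2) (nat_lit 0) (.cons (.br (nat_lit 7) (nat_lit 0) (.cons (.rf (nat_lit 665) (nat_lit 19926519232773908561233952)) (.cons (.rf (nat_lit 667) (nat_lit 19926519232773908561233952)) (.cons (.br (nat_lit 10) (nat_lit 0) (.cons (.kr (nat_lit 79228162514264619068520660992) (nat_lit 309485009893402662762708992) (nat_lit 6) (nat_lit 0))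 (.cons (.kr (nat_lit 79228167236630820463189164032) (nat_lit 1334420292643450700532337556609564672) (nat_lit 9) (nat_lit 0)) (.cons (.rf (nat_lit 669) (nat_lit 19926519232773908561233952)) (.cons (.br (nat_lit 11) (nat_lit 0) (.cons (.rf (nat_lit 1) (nat_lit 582001724930274)) (.cons (.kr (nat_lit 618974742153288195187408897) (nat_lit 20361637766184381787093776466432) (nat_lit 0) (nat_lit 2)) (.cons (.rf (nat_lit 668) (nat_lit 677582165103132179601393696)) .nil)))) .nil))))) (.cons (.rf (nat_lit 672) (nat_lit 19926519232773908561233952)) (.cons (.rf (nat_lit 673) (nat_lit 19926519232773908561233952)) (.cons (.br (nat_lit 14) (nat_lit 0) (.cons (.rf (nat_lit 665) (nat_lit 19767139507982538591179811)) (.cons (.rf (nat_lit 672) (nat_lit 19767139507982538591179811)) (.cons (.rf (nat_lit 667) (nat_lit 19767139507982538591179811)) (.cons (.rf (nat_lit 673) (nat_lit 19767139507982538591179811)) (.cons (.br (nat_lit 10) (nat_lit 0) (.cons (.rf (nat_lit 674) (nat_lit 677582165103132179601393696)) (.cons (.rf (nat_lit 674) (nat_lit 677422785378340809631339555))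 (.cons (.ev (nat_lit 10405113813592923944367434862952961) (nat_lit 2)) (.cons (.br (nat_lit 11) (nat_lit 0) (.cons (.ev (nat_lit 10404955976228433287250360519360513) (nat_lit 2)) (.cons (.rf (nat_lit 162) (nat_lit 609937220249402518854)) .nil))) .nil))))) .nil)))))) .nil))))))) (.cons (.rf (nat_lit 677) (nat_lit 19926519232773908561233952)) (.cons (.rf (nat_lit 683) (nat_lit 19926519232773908561233952)) (.cons (.rf (nat_lit 690) (nat_lit 19926519232773908561233952)) (.cons (.rf (nat_lit 692) (nat_lit 19926519232773908561233952)) (.cons (.rf (nat_lit 697) (nat_lit 19926519232773908561233952)) (.cons (.rf (nat_lit 702) (nat_lit 19926519232773908561233952)) (.cons (.br (nat_lit 5) (nat_lit 0) (.cons (.rf (nat_lit 692) (nat_lit 19767139507982538591179811)) (.cons (.rf (nat_lit 683) (nat_lit 19767139507982538591179811)) (.cons (.rf (nat_lit 697) (nat_lit 19767139507982538591179811)) (.cons (.rf (nat_lit 677) (nat_lit 19767139507982538591179811)) (.cons (.rf (nat_lit 690) (nat_lit 19767139507982538591179811)) (.cons (.rf (nat_lit 702) (nat_lit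 19767139507982538591179811)) (.cons (.br (nat_lit 7) (nat_lit 0) (.cons (.rf (nat_lit 703) (nat_lit 677582165103132179601393696)) (.cons (.rf (nat_lit 704) (nat_lit 677582165103132179601393696)) (.cons (.br (nat_lit 10) (nat_lit 0) (.cons (.kr (nat_lit 79228162514264619068520660992) (nat_lit 309485009893402662762708992) (nat_lit 6) (nat_lit 0)) (.cons (.kr (nat_lit 79228167236630820463189164032) (nat_lit 1334420292643450700532337556609564672) (nat_lit 9) (nat_lit 0)) (.cons (.rf (nat_lit 669) (nat_lit 19926519232773908561233952)) (.cons (.br (nat_lit 11) (nat_lit 0) (.cons (.ev (nat_lit 87113615180117980027339192539254263644160) (nat_lit 1)) (.cons (.kr (nat_lit 618974742153288195187408897) (nat_lit 20361637766184381787093776466432) (nat_lit 0) (nat_lit 2)) .nil))) .nil))))) (.cons (.rf (nat_lit 705) (nat_lit 677582165103132179601393696)) (.cons (.rf (nat_lit 706) (nat_lit 677582165103132179601393696)) (.cons (.br (nat_lit 14) (nat_lit 0) (.cons (.rf (nat_lit 687) (nat_lit 677422785378340809631339555)) (.cons (.rf (nat_lit 705) (nat_lit 677422785378340809631339555))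 (.cons (.rf (nat_lit 704) (nat_lit 677422785378340809631339555)) (.cons (.rf (nat_lit 706) (nat_lit 677422785378340809631339555)) .nil))))) .nil))))))) .nil)))))))) .nil))))))))) .nil))))))))) .nil)) .nil)) .nil))),
 (.br (nat_lit 14) (nat_lit 0) (.cons (.br (nat_lit 11) (nat_lit 0) (.cons (.ev (nat_lit 5192535161992390280409503699763202) (nat_lit 2)) (.cons (.br (nat_lit 5) (nat_lit 0) (.cons (.kr (nat_lit 20361637770943642321060794204163) (nat_lit 10384593721905358679636896473284608) (nat_lit 0) (nat_lit 1)) (.cons (.br (nat_lit 15) (nat_lit 0) (.cons (.ev (nat_lit 2658476353207602652700564421051809793) (nat_lit 2)) (.cons (.rf (nat_lit 1) (nat_lit 582169199360065)) .nil))) .nil))) (.cons (.ev (nat_lit 2668861105380997336342183213732462593) (nat_lit 2)) (.cons (.br (nat_lit 10) (nat_lit 0) (.cons (.br (nat_lit 15) (nat_lit 0) (.cons (.ev (nat_lit 7975388336973489755914339067766243329) (nat_lit 3)) (.cons (.rf (nat_lit 1) (nat_lit 582167964137537)) .nil))) (.cons (.ev (nat_lit 2668861105380997336341620272368976387) (nat_lit 2)) (.cons (.br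 (nat_lit 5) (nat_lit 0) (.cons (.ev (nat_lit 7996157841320279123196450770400576517) (nat_lit 3)) (.cons (.ev (nat_lit 340282366921249157417534369896943649025) (nat_lit 1)) (.cons (.br (nat_lit 15) (nat_lit 0) (.cons (.ev (nat_lit 341616787213581914182353970541375783168) (nat_lit 1)) (.cons (.ev (nat_lit 2658476353207602652700564421051809793) (nat_lit 2)) .nil))) .nil)))) (.cons (.br (nat_lit 5) (nat_lit 0) (.cons (.rf (nat_lit 1) (nat_lit 616120753305665)) (.cons (.br (nat_lit 15) (nat_lit 0) (.cons (.ev (nat_lit 2658476353207602652700564421051809793) (nat_lit 2)) (.cons (.rf (nat_lit 452) (nat_lit 661326455693368600531009)) .nil))) (.cons (.br (nat_lit 15) (nat_lit 0) (.cons (.rf (nat_lit 358) (nat_lit 19998304368152727482832328)) (.cons (.ev (nat_lit 2658476353207602652700564421051809793) (nat_lit 2)) .nil))) .nil)))) .nil))))) .nil))))) (.cons (.br (nat_lit 11) (nat_lit 0) (.cons (.ev (nat_lit 5192535161992390280409503649431553) (nat_lit 2)) (.cons (.br (nat_lit 2) (nat_lit 0) (.cons (.kr (nat_lit 1329227996094400919619203226377650432)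 (nat_lit 5192296862161605159433077402959872) (nat_lit 1) (nat_lit 0)) (.cons (.br (nat_lit 15) (nat_lit 0) (.cons (.ev (nat_lit 2658476353207602652700564421051809793) (nat_lit 2)) (.cons (.rf (nat_lit 1) (nat_lit 582169196214433)) .nil))) .nil))) (.cons (.ev (nat_lit 2668861105380997336342183213698908163) (nat_lit 2)) (.cons (.br (nat_lit 10) (nat_lit 0) (.cons (.br (nat_lit 15) (nat_lit 0) (.cons (.ev (nat_lit 7975388336973489755914339067732688899) (nat_lit 3)) (.cons (.rf (nat_lit 1) (nat_lit 582172259100737)) .nil))) (.cons (.ev (nat_lit 2668861105380997336341620272335421953) (nat_lit 2)) (.cons (.br (nat_lit 2) (nat_lit 0) (.cons (.ev (nat_lit 7996157841320279123196450770299913219) (nat_lit 3)) (.cons (.ev (nat_lit 340282366921249157417534369896926871808) (nat_lit 1)) (.cons (.br (nat_lit 15) (nat_lit 0) (.cons (.ev (nat_lit 341616787213581914182353970541359005953) (nat_lit 1)) (.cons (.ev (nat_lit 2658476353207602652700564421051809793) (nat_lit 2)) .nil))) .nil)))) (.cons (.br (nat_lit 2) (nat_lit 0) (.cons (.rf (nat_lit 1) (nat_lit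 616119679564865)) (.cons (.br (nat_lit 15) (nat_lit 0) (.cons (.ev (nat_lit 2658476353207602652700564421051809793) (nat_lit 2)) (.cons (.rf (nat_lit 537) (nat_lit 21168349293818196407715872)) .nil))) (.cons (.br (nat_lit 17) (nat_lit 0) (.cons (.ev (nat_lit 2658476353207602652700564421051809793) (nat_lit 2)) (.cons (.ev (nat_lit 87112291124136644037919880074394144342273) (nat_lit 1)) .nil))) .nil)))) .nil))))) .nil))))) (.cons (.br (nat_lit 11) (nat_lit 0) (.cons (.ev (nat_lit 10404955976237914913704247195336707) (nat_lit 2)) (.cons (.ev (nat_lit 10404955976237914913704247228891137) (nat_lit 2)) (.cons (.ev (nat_lit 18650751313189218624695050812937734659) (nat_lit 4)) (.cons (.br (nat_lit 15) (nat_lit 0) (.cons (.ev (nat_lit 2668861105380997336341620272368976387) (nat_lit 2)) (.cons (.ev (nat_lit 2668861105380997336341620272335421953) (nat_lit 2)) (.cons (.br (nat_lit 2) (nat_lit 0) (.cons (.ev (nat_lit 16023448785236520064033988709716461575) (nat_lit 4)) (.cons (.ev (nat_lit 340287559297335859463275199568457760768) (nat_lit 1)) (.cons (.br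 (nat_lit 5) (nat_lit 0) (.cons (.ev (nat_lit 340287579500517295896761265646957756416) (nat_lit 1)) (.cons (.br (nat_lit 16) (nat_lit 0) (.cons (.ev (nat_lit 1361139872957259294030799348477691560961) (nat_lit 3)) .nil)) .nil))) .nil)))) (.cons (.br (nat_lit 2) (nat_lit 0) (.cons (.rf (nat_lit 1) (nat_lit 582172426867777)) (.cons (.br (nat_lit 5) (nat_lit 0) (.cons (.ev (nat_lit 31174144026948246148410771303957509) (nat_lit 3)) (.cons (.br (nat_lit 16) (nat_lit 0) (.cons (.zr (nat_lit 1361139852673623858394982822453964832768) (nat_lit 7975388258976009150936365961312208389) (nat_lit 16) (nat_lit 10)) .nil)) .nil))) (.cons (.br (nat_lit 5) (nat_lit 0) (.cons (.br (nat_lit 16) (nat_lit 0) (.cons (.zr (nat_lit 1361139852673623858394982822453897723904) (nat_lit 7975388258976009150936365961312208385) (nat_lit 16) (nat_lit 10)) .nil)) (.cons (.ev (nat_lit 5348086442846138643135112444591079429) (nat_lit 3)) .nil))) .nil)))) .nil))))) .nil))))) (.cons (.br (nat_lit 10) (nat_lit 0) (.cons (.ev (nat_lit 10404955976237914914267188558823937) (nat_lit 2))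 (.cons (.ev (nat_lit 10404955976237914914267188592378371) (nat_lit 2)) (.cons (.kr (nat_lit 20361640184036021016347830910977) (nat_lit 2658455992188806487816787131967209472) (nat_lit 0) (nat_lit 1)) (.cons (.br (nat_lit 15) (nat_lit 0) (.cons (.ev (nat_lit 2668861105380997336342183213732462593) (nat_lit 2)) (.cons (.ev (nat_lit 2668861105380997336342183213698908163) (nat_lit 2)) (.cons (.br (nat_lit 2) (nat_lit 0) (.cons (.ev (nat_lit 2689630611591969244263513749410938885) (nat_lit 3)) (.cons (.ev (nat_lit 340287559297335859463275199568457760768) (nat_lit 1)) (.cons (.br (nat_lit 5) (nat_lit 0) (.cons (.ev (nat_lit 340287579500517295896761265646957756416) (nat_lit 1)) (.cons (.br (nat_lit 16) (nat_lit 0) (.cons (.zr (nat_lit 1361129468079894666517053838084815194112) (nat_lit 2668860868317897646527900188040888323) (nat_lit 16) (nat_lit 7)) .nil)) .nil))) .nil)))) (.cons (.br (nat_lit 2) (nat_lit 0) (.cons (.rf (nat_lit 1) (nat_lit 582172459373633)) (.cons (.br (nat_lit 5) (nat_lit 0) (.cons (.ev (nat_lit 1361139872957259312846478866637157434887)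 (nat_lit 3)) (.cons (.br (nat_lit 16) (nat_lit 0) (.cons (.ev (nat_lit 2735582390577971199787251415210638837775) (nat_lit 4)) .nil)) .nil))) (.cons (.br (nat_lit 5) (nat_lit 0) (.cons (.br (nat_lit 16) (nat_lit 0) (.cons (.ev (nat_lit 2735582390577971199787251415210504620039) (nat_lit 4)) .nil)) (.cons (.ev (nat_lit 348449174901185013515926068028693933065731) (nat_lit 3)) .nil))) .nil)))) .nil))))) .nil))))) (.cons (.ev (nat_lit 2668861105381006817968074159044952577) (nat_lit 2)) (.cons (.br (nat_lit 2) (nat_lit 0) (.cons (.br (nat_lit 10) (nat_lit 0) (.cons (.ev (nat_lit 20520715493288329435828724039681) (nat_lit 2)) (.cons (.br (nat_lit 11) (nat_lit 0) (.cons (.ev (nat_lit 10404955976228433287250360519360513) (nat_lit 2)) (.cons (.rf (nat_lit 1) (nat_lit 616224001332289)) .nil))) (.cons (.br (nat_lit 11) (nat_lit 0) (.cons (.ev (nat_lit 10404955976228433287250360519360513) (nat_lit 2)) (.cons (.ev (nat_lit 20520715493288329998770087526915) (nat_lit 2)) (.cons (.rf (nat_lit 538) (nat_lit 21168349221757303700593732)) .nil)))) (.cons (.br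 (nat_lit 11) (nat_lit 0) (.cons (.rf (nat_lit 1) (nat_lit 616224033838145)) (.cons (.br (nat_lit 15) (nat_lit 0) (.cons (.ev (nat_lit 341611615199132987710387661481766354945) (nat_lit 1)) (.cons (.rf (nat_lit 468) (nat_lit 624910062108691713233955)) .nil))) (.cons (.ev (nat_lit 20520715493288329998770087526915) (nat_lit 2)) .nil)))) .nil))))) (.cons (.br (nat_lit 5) (nat_lit 0) (.cons (.ev (nat_lit 20520715493288329435828724039681) (nat_lit 2)) (.cons (.ev (nat_lit 2658476353207612134327018307761340417) (nat_lit 2)) (.cons (.br (nat_lit 11) (nat_lit 0) (.cons (.ev (nat_lit 10405273505440177302044667705425925) (nat_lit 3)) (.cons (.ev (nat_lit 1361139872957259312846478303661434209281) (nat_lit 3)) (.cons (.br (nat_lit 15) (nat_lit 0) (.cons (.ev (nat_lit 1366456784622253221945030385687266198529) (nat_lit 3)) (.cons (.ev (nat_lit 1344804887292616348330810498466513411) (nat_lit 2)) .nil))) .nil)))) (.cons (.br (nat_lit 11) (nat_lit 0) (.cons (.rf (nat_lit 1) (nat_lit 616224028600385)) (.cons (.br (nat_lit 15) (nat_lit 0) (.cons (.ev (nat_lit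 1369125625525074151939948914153518792711) (nat_lit 3)) (.cons (.ev (nat_lit 1334481378488831005476240303312798210) (nat_lit 2)) .nil))) (.cons (.br (nat_lit 15) (nat_lit 0) (.cons (.ev (nat_lit 1344804887292616348330810498466513411) (nat_lit 2)) (.cons (.ev (nat_lit 348457119115377960095214764131089073308679) (nat_lit 3)) .nil))) .nil)))) .nil))))) (.cons (.br (nat_lit 5) (nat_lit 0) (.cons (.ev (nat_lit 20520715493288329435828724039681) (nat_lit 2)) (.cons (.ev (nat_lit 2658476353207612134326455366397854211) (nat_lit 2)) (.cons (.ev (nat_lit 31174144026948246147847829940470279) (nat_lit 3)) (.cons (.br (nat_lit 10) (nat_lit 0) (.cons (.kr (nat_lit 79229371440083952222718656513) (nat_lit 1329227996094400882725152129005125888) (nat_lit 0) (nat_lit 2)) (.cons (.br (nat_lit 15) (nat_lit 0) (.cons (.ev (nat_lit 7996157841320279123196450770367022087) (nat_lit 3)) (.cons (.rf (nat_lit 2) (nat_lit 20187711316000222273)) .nil))) (.cons (.br (nat_lit 15) (nat_lit 0) (.cons (.rf (nat_lit 528) (nat_lit 20187710973512428609)) (.cons (.ev (nat_lit 2658476671979599620615164849746608135)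 (nat_lit 3)) .nil))) .nil)))) .nil))))) (.cons (.br (nat_lit 5) (nat_lit 0) (.cons (.ev (nat_lit 2658476353207612134327018307794894851) (nat_lit 2)) (.cons (.ev (nat_lit 2658476353207612134326455366431408641) (nat_lit 2)) (.cons (.br (nat_lit 10) (nat_lit 0) (.cons (.kr (nat_lit 20361640188739940473673101606913) (nat_lit 2658455992188801783897329806696514048) (nat_lit 0) (nat_lit 2)) (.cons (.ev (nat_lit 341616807575219680348288732082154242048) (nat_lit 1)) (.cons (.br (nat_lit 11) (nat_lit 0) (.cons (.ev (nat_lit 341611615199132987710387661481766354945) (nat_lit 1)) (.cons (.br (nat_lit 16) (nat_lit 0) (.cons (.zr (nat_lit 1361129468079894690036652532073083438592) (nat_lit 2668860868317892942608724342025093123) (nat_lit 16) (nat_lit 7)) .nil)) .nil))) .nil)))) (.cons (.br (nat_lit 10) (nat_lit 0) (.cons (.kr (nat_lit 20361640188739940473673101606913) (nat_lit 2658455992188801783897329806696514048) (nat_lit 0) (nat_lit 2)) (.cons (.br (nat_lit 11) (nat_lit 0) (.cons (.ev (nat_lit 1363808713226254942727283257296421913603) (nat_lit 3)) (.cons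 (.ev (nat_lit 18619598007411801559045259118215038471) (nat_lit 4)) .nil))) (.cons (.br (nat_lit 11) (nat_lit 0) (.cons (.ev (nat_lit 18661135748454817696737991394131578375) (nat_lit 4)) (.cons (.ev (nat_lit 348457119115377960095214764131089073308679) (nat_lit 3)) .nil))) .nil)))) .nil))))) (.cons (.br (nat_lit 5) (nat_lit 0) (.cons (.br (nat_lit 11) (nat_lit 0) (.cons (.ev (nat_lit 10405273505440177302044667705425925) (nat_lit 3)) (.cons (.ev (nat_lit 1361139872957259312846478303661367100421) (nat_lit 3)) (.cons (.br (nat_lit 15) (nat_lit 0) (.cons (.ev (nat_lit 1366456784622253221945030385687266198529) (nat_lit 3)) (.cons (.ev (nat_lit 1344804887292616348330810498483290626) (nat_lit 2)) .nil))) .nil)))) (.cons (.ev (nat_lit 31174144026948246147847829873361411) (nat_lit 3)) (.cons (.br (nat_lit 10) (nat_lit 0) (.cons (.kr (nat_lit 2658455992188801783897329806696514049) (nat_lit 20361640188739940473673135161344) (nat_lit 0) (nat_lit 2)) (.cons (.ev (nat_lit 341616807575219680348288732082154242048) (nat_lit 1)) (.cons (.br (nat_lit 11) (nat_lit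 0) (.cons (.ev (nat_lit 341611615199132987710387661481766354945) (nat_lit 1)) (.cons (.br (nat_lit 16) (nat_lit 0) (.cons (.zr (nat_lit 1361129609660621079544320013248682264064) (nat_lit 2668840823592790982383173290030137345) (nat_lit 16) (nat_lit 14)) .nil)) .nil))) .nil)))) (.cons (.br (nat_lit 10) (nat_lit 0) (.cons (.ev (nat_lit 20520715493288329435828757594115) (nat_lit 2)) (.cons (.ev (nat_lit 341616807575219680348288732082154242048) (nat_lit 1)) (.cons (.br (nat_lit 11) (nat_lit 0) (.cons (.ev (nat_lit 341616787213581918886273709337311445248) (nat_lit 1)) (.cons (.ev (nat_lit 20520715493288329998770121081345) (nat_lit 2)) .nil))) .nil)))) (.cons (.br (nat_lit 10) (nat_lit 0) (.cons (.br (nat_lit 15) (nat_lit 0) (.cons (.ev (nat_lit 340287579500517295896761265646974533633) (nat_lit 1)) (.cons (.rf (nat_lit 2) (nat_lit 19065154990728523073)) .nil))) (.cons (.br (nat_lit 11) (nat_lit 0) (.cons (.ev (nat_lit 10404955976228433287250360519360513) (nat_lit 2)) (.cons (.rf (nat_lit 433) (nat_lit 19993777218948926440225827)) .nil))) (.cons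 (.br (nat_lit 11) (nat_lit 0) (.cons (.ev (nat_lit 10404955976228433287250360519360513) (nat_lit 2)) (.cons (.ev (nat_lit 20520715493288329998770121081345) (nat_lit 2)) .nil))) (.cons (.br (nat_lit 11) (nat_lit 0) (.cons (.rf (nat_lit 362) (nat_lit 19997421596086767585334307)) (.cons (.ev (nat_lit 20520715493288329998770121081345) (nat_lit 2)) (.cons (.rf (nat_lit 361) (nat_lit 21168568483838439699089440)) .nil)))) .nil))))) .nil)))))) (.cons (.br (nat_lit 5) (nat_lit 0) (.cons (.br (nat_lit 11) (nat_lit 0) (.cons (.rf (nat_lit 1) (nat_lit 616224025454753)) (.cons (.br (nat_lit 15) (nat_lit 0) (.cons (.ev (nat_lit 1369125625525074151939948914153552347141) (nat_lit 3)) (.cons (.ev (nat_lit 1334481378488831005476240303329575425) (nat_lit 2)) .nil))) (.cons (.br (nat_lit 15) (nat_lit 0) (.cons (.ev (nat_lit 1344804887292616348330810498483290626) (nat_lit 2)) (.cons (.ev (nat_lit 348457119115377960095214764131089173971969) (nat_lit 3)) .nil))) .nil)))) (.cons (.br (nat_lit 10) (nat_lit 0) (.cons (.kr (nat_lit 1329227996094400882725152129005125888)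 (nat_lit 79229371440083952222735433728) (nat_lit 1) (nat_lit 0)) (.cons (.br (nat_lit 15) (nat_lit 0) (.cons (.ev (nat_lit 7996157841320279123196450770333467649) (nat_lit 3)) (.cons (.rf (nat_lit 2) (nat_lit 20187711315997076641)) .nil))) (.cons (.br (nat_lit 17) (nat_lit 0) (.cons (.ev (nat_lit 2658476671979599620615164849780162565) (nat_lit 3)) (.cons (.ev (nat_lit 87112291124136644037919880074394144342273) (nat_lit 1)) .nil))) .nil)))) (.cons (.br (nat_lit 10) (nat_lit 0) (.cons (.kr (nat_lit 2658455992188801783897329806696514049) (nat_lit 20361640188739940473673135161344) (nat_lit 0) (nat_lit 2)) (.cons (.br (nat_lit 11) (nat_lit 0) (.cons (.ev (nat_lit 1363808713226254942727283257296522576901) (nat_lit 3)) (.cons (.ev (nat_lit 18619598007411801559045259118248592901) (nat_lit 4)) .nil))) (.cons (.br (nat_lit 11) (nat_lit 0) (.cons (.ev (nat_lit 18661135748454817696737991394165132805) (nat_lit 4)) (.cons (.ev (nat_lit 348457119115377960095214764131089173971969) (nat_lit 3)) .nil))) .nil)))) (.cons (.br (nat_lit 10) (nat_lit 0) (.cons (.br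 (nat_lit 16) (nat_lit 0) (.cons (.ev (nat_lit 340287579500517295896761265646957756416) (nat_lit 1)) (.cons (.ev (nat_lit 340282366921249157417534369896943649025) (nat_lit 1)) .nil))) (.cons (.br (nat_lit 11) (nat_lit 0) (.cons (.ev (nat_lit 10404955976228433287250360519360513) (nat_lit 2)) (.cons (.rf (nat_lit 433) (nat_lit 19993777218843373424720928)) .nil))) (.cons (.br (nat_lit 11) (nat_lit 0) (.cons (.ev (nat_lit 10404955976228433287250360519360513) (nat_lit 2)) (.cons (.ev (nat_lit 20520715493288329998770121081345) (nat_lit 2)) .nil))) (.cons (.br (nat_lit 11) (nat_lit 0) (.cons (.rf (nat_lit 362) (nat_lit 19997421596086767686092832)) (.cons (.ev (nat_lit 20520715493288329998770121081345) (nat_lit 2)) (.cons (.rf (nat_lit 361) (nat_lit 21168568483838439598330915)) .nil)))) .nil))))) (.cons (.br (nat_lit 10) (nat_lit 0) (.cons (.ev (nat_lit 20520715493288329435828757594115) (nat_lit 2)) (.cons (.br (nat_lit 11) (nat_lit 0) (.cons (.ev (nat_lit 10404955976228433287250360519360513) (nat_lit 2)) (.cons (.ev (nat_lit 87112285931760557345281979003793756455168)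 (nat_lit 1)) .nil))) (.cons (.br (nat_lit 11) (nat_lit 0) (.cons (.ev (nat_lit 10404955976228433287250360519360513) (nat_lit 2)) (.cons (.ev (nat_lit 20520715493288329998770121081345) (nat_lit 2)) (.cons (.ev (nat_lit 87112291144339825483761205899543804116993) (nat_lit 1)) .nil)))) (.cons (.br (nat_lit 11) (nat_lit 0) (.cons (.ev (nat_lit 87112285931760557345281979285273028132865) (nat_lit 1)) (.cons (.ev (nat_lit 87112291144339825483761206181023075795200) (nat_lit 1)) .nil))) .nil))))) .nil)))))) .nil))))))) .nil)))))))]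

theorem c37 : chkAll C T R L37 (nat_lit 700) = true := by decide +kernel

theorem l37 : (nat_lit 700) + L37.length = (nat_lit 709) := by decide +kernel

/-- part of the certificates -/
def L38 : List Prf := [(.br (nat_lit 11) (nat_lit 0) (.cons (.ev (nat_lit 20838247113365174717436922037767) (nat_lit 3)) (.cons (.br (nat_lit 14) (nat_lit 0) (.cons (.ev (nat_lit 1334420452028230814082297386651091202) (nat_lit 2)) (.cons (.rf (nat_lit 1) (nat_lit 582139040306241)) .nil))) .nil))),
 (.br (nat_lit 5) (nat_lit 0) (.cons (.kr (nat_lit 79228167255077846016187170817) (nat_lit 20282412021503309655404624084992) (nat_lit 0) (nat_lit 1)) (.cons (.kr (nat_lit 18446744078004519168) (nat_lit 1208925819615728686399488) (nat_lit 1) (nat_lit 0)) (.cons (.kr (nat_lit 1208925819615728686399488) (nat_lit 4722366482873956958208) (nat_lit 2) (nat_lit 0)) (.cons (.br (nat_lit 11) (nat_lit 0) (.cons (.ev (nat_lit 20520713075399797279173919113731) (nat_lit 2)) (.cons (.ev (nat_lit 20520713065991957801582014234627) (nat_lit 2)) (.cons (.ev (nat_lit 20520715493288329998770121080835)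 (nat_lit 2)) (.cons (.br (nat_lit 14) (nat_lit 0) (.cons (.rf (nat_lit 1) (nat_lit 582036189682753)) (.cons (.br (nat_lit 15) (nat_lit 0) (.cons (.ev (nat_lit 341616807575220893996474830676207665409) (nat_lit 1)) (.cons (.rf (nat_lit 547) (nat_lit 20672216107240102302755)) .nil))) (.cons (.br (nat_lit 15) (nat_lit 0) (.cons (.rf (nat_lit 2) (nat_lit 20182047698325937217)) (.cons (.ev (nat_lit 87112285952122193897799727948211196788993) (nat_lit 1)) .nil))) .nil)))) .nil))))) .nil))))),
 (.br (nat_lit 5) (nat_lit 0) (.cons (.kr (nat_lit 79228167255077846016187170817) (nat_lit 20282412021503309655404624084992) (nat_lit 0) (nat_lit 1)) (.cons (.kr (nat_lit 18447025548686262273) (nat_lit 1208925819615728686399488) (nat_lit 0) (nat_lit 1)) (.cons (.kr (nat_lit 4722366764344638701569) (nat_lit 1208925819615728686399744) (nat_lit 0) (nat_lit 4)) (.cons (.br (nat_lit 7) (nat_lit 0) (.cons (.ev (nat_lit 20520713075399797279173919113731) (nat_lit 2)) (.cons (.ev (nat_lit 20520713065991957801582014234627) (nat_lit 2)) (.cons (.ev (nat_lit 20520715493288329435828757594625)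 (nat_lit 2)) (.cons (.br (nat_lit 14) (nat_lit 0) (.cons (.rf (nat_lit 1) (nat_lit 581898750733377)) (.cons (.br (nat_lit 15) (nat_lit 0) (.cons (.ev (nat_lit 341616807575220893996474549205525921792) (nat_lit 1)) (.cons (.rf (nat_lit 547) (nat_lit 20672216247977586463779)) .nil))) (.cons (.br (nat_lit 15) (nat_lit 0) (.cons (.rf (nat_lit 2) (nat_lit 20182047698321747009)) (.cons (.ev (nat_lit 87112285952122193897799727666740515045376) (nat_lit 1)) .nil))) .nil)))) .nil))))) .nil))))),
 (.br (nat_lit 5) (nat_lit 0) (.cons (.kr (nat_lit 18446744078004519168) (nat_lit 1208925819615728686399488) (nat_lit 1) (nat_lit 0)) (.cons (.kr (nat_lit 18447025548686262273) (nat_lit 1208925819615728686399488) (nat_lit 0) (nat_lit 1)) (.cons (.kr (nat_lit 20282409608392483932369894506497) (nat_lit 79230580365903569050916749312) (nat_lit 0) (nat_lit 1)) (.cons (.br (nat_lit 15) (nat_lit 0) (.cons (.ev (nat_lit 2668861105380997336341620272368976387) (nat_lit 2)) (.cons (.ev (nat_lit 2668861105380997336342183213732462593) (nat_lit 2)) (.cons (.ev (nat_lit 2668861105383415224874339868570943491)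 (nat_lit 2)) (.cons (.br (nat_lit 7) (nat_lit 0) (.cons (.rf (nat_lit 1) (nat_lit 582169098795073)) (.cons (.br (nat_lit 11) (nat_lit 0) (.cons (.ev (nat_lit 340282387282886928287389151712929448192) (nat_lit 1)) (.cons (.rf (nat_lit 547) (nat_lit 20672103758901428622371)) .nil))) (.cons (.br (nat_lit 17) (nat_lit 0) (.cons (.ev (nat_lit 87113620372414527868212733084499712147713) (nat_lit 1)) (.cons (.ev (nat_lit 87113620372414529077156999725777084809472) (nat_lit 1)) .nil))) .nil)))) .nil))))) .nil))))),
 (.br (nat_lit 5) (nat_lit 0) (.cons (.kr (nat_lit 1208925819615728686399488) (nat_lit 4722366482873956958208) (nat_lit 2) (nat_lit 0)) (.cons (.kr (nat_lit 4722366764344638701569) (nat_lit 1208925819615728686399744) (nat_lit 0) (nat_lit 4)) (.cons (.kr (nat_lit 20282409608392483932369894506497) (nat_lit 79230580365903569050916749312) (nat_lit 0) (nat_lit 1)) (.cons (.br (nat_lit 14) (nat_lit 0) (.cons (.ev (nat_lit 2668861105380997336341620272368976387) (nat_lit 2)) (.cons (.ev (nat_lit 2668861105380997336342183213732462593) (nat_lit 2))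 (.cons (.ev (nat_lit 2668861105383424632713817460408713731) (nat_lit 2)) (.cons (.br (nat_lit 7) (nat_lit 0) (.cons (.rf (nat_lit 1) (nat_lit 582134739057729)) (.cons (.br (nat_lit 11) (nat_lit 0) (.cons (.ev (nat_lit 340282387282886923583469412917010563072) (nat_lit 1)) (.cons (.rf (nat_lit 547) (nat_lit 20672103794085799662627)) .nil))) (.cons (.br (nat_lit 17) (nat_lit 0) (.cons (.ev (nat_lit 87113620372414527863508813345703793262593) (nat_lit 1)) (.cons (.ev (nat_lit 87113620372414529077156999725777084809472) (nat_lit 1)) .nil))) .nil)))) .nil))))) .nil))))),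
 (.br (nat_lit 14) (nat_lit 0) (.cons (.ev (nat_lit 8006542276578615343162692617164292099) (nat_lit 3)) (.cons (.ev (nat_lit 1361129489157069099891610542586642958853) (nat_lit 4)) (.cons (.br (nat_lit 15) (nat_lit 0) (.cons (.ev (nat_lit 1361129489157069081075931587402833202693) (nat_lit 4)) (.cons (.br (nat_lit 16) (nat_lit 0) (.cons (.ev (nat_lit 681899154293906380833749732154306265089) (nat_lit 2)) .nil)) .nil))) .nil)))),
 (.br (nat_lit 11) (nat_lit 0) (.cons (.ev (nat_lit 8006542276578634306416726307737174023) (nat_lit 3)) (.cons (.ev (nat_lit 1361129489157073897889745244773197416969) (nat_lit 4)) (.cons (.br (nat_lit 14) (nat_lit 0) (.cons (.ev (nat_lit 4094063786863248495344787018268627304965) (nat_lit 4)) (.cons (.ev (nat_lit 1334420452028230814082297386651091202) (nat_lit 2)) .nil))) .nil)))),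
 (.br (nat_lit 14) (nat_lit 0) (.cons (.ev (nat_lit 1361129489157073935521104281023543905805) (nat_lit 4)) (.cons (.ev (nat_lit 4094063786863253368900784320418327168517) (nat_lit 4)) (.cons (.br (nat_lit 15) (nat_lit 0) (.cons (.ev (nat_lit 1361129489157073897889746370655924389389) (nat_lit 4)) (.cons (.ev (nat_lit 4094063786863253330974278504871354830341) (nat_lit 4)) .nil))) .nil)))),
 (.br (nat_lit 14) (nat_lit 0) (.cons (.ev (nat_lit 2668861107237916877328490127098381319) (nat_lit 3)) (.cons (.br (nat_lit 15) (nat_lit 0) (.cons (.ev (nat_lit 1369136009964041463093729945269521353227) (nat_lit 4)) (.cons (.ev (nat_lit 1334481378488831005476521791174410754) (nat_lit 2)) .nil))) (.cons (.br (nat_lit 15) (nat_lit 0) (.cons (.ev (nat_lit 1334481378488831005476521791174410754) (nat_lit 2)) (.cons (.ev (nat_lit 348457150269321274195735829525673029929487) (nat_lit 4)) .nil))) .nil)))),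
 (.br (nat_lit 11) (nat_lit 0) (.cons (.ev (nat_lit 2668861107237935840582523817537045507) (nat_lit 3)) (.cons (.br (nat_lit 14) (nat_lit 0) (.cons (.ev (nat_lit 340282366921247953214081237042197430528) (nat_lit 1)) (.cons (.br (nat_lit 16) (nat_lit 0) (.cons (.zr (nat_lit 1361129610056764333449984731161215238147) (nat_lit 8006521757717614281002029814890103808) (nat_lit 16) (nat_lit 2)) .nil)) .nil))) (.cons (.br (nat_lit 14) (nat_lit 0) (.cons (.br (nat_lit 16) (nat_lit 0) (.cons (.zr (nat_lit 1361129569650401460619905524184517836805) (nat_lit 8006521757717614317894955012339009536) (nat_lit 16) (nat_lit 2)) .nil)) (.cons (.ev (nat_lit 87112285952122193897799727948211213566208) (nat_lit 1)) .nil))) .nil)))),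
 (.br (nat_lit 14) (nat_lit 0) (.cons (.rf (nat_lit 718) (nat_lit 639946049229720662403191843)) (.cons (.rf (nat_lit 717) (nat_lit 639946049229720662403191843)) (.cons (.br (nat_lit 11) (nat_lit 0) (.cons (.ev (nat_lit 340282366921247953214081518512879173633) (nat_lit 1)) (.cons (.br (nat_lit 15) (nat_lit 0) (.cons (.ev (nat_lit 8006542276573770158258338774353183749) (nat_lit 3)) .nil)) .nil))) (.cons (.br (nat_lit 16) (nat_lit 0) (.cons (.br (nat_lit 15) (nat_lit 0) (.cons (.ev (nat_lit 2668861107242762062235095804217131013) (nat_lit 3)) .nil)) (.cons (.br (nat_lit 11) (nat_lit 0) (.cons (.ev (nat_lit 8006542276573770158258338774353183749) (nat_lit 3)) .nil)) (.cons (.kr (nat_lit 174224571863599721460484429825532808396801) (nat_lit 680564754124286530596866664359490748416) (nat_lit 0) (nat_lit 1)) .nil)))) .nil))))),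
 (.br (nat_lit 10) (nat_lit 0) (.cons (.ev (nat_lit 1329228234400290500937983973382095619) (nat_lit 2)) (.cons (.ev (nat_lit 20520715493288329998770121080835) (nat_lit 2)) (.cons (.rf (nat_lit 603) (nat_lit 677579806190830856880359456)) .nil)))),
 (.br (nat_lit 7) (nat_lit 0) (.cons (.ev (nat_lit 1329228234400290500937139561336865280) (nat_lit 2)) (.cons (.ev (nat_lit 20520715493288329435828757594625) (nat_lit 2)) (.cons (.rf (nat_lit 605) (nat_lit 677579806190830856880359456)) .nil)))),
 (.br (nat_lit 14) (nat_lit 0) (.cons (.ev (nat_lit 5232941528501460998450547796344832) (nat_lit 2)) (.cons (.rf (nat_lit 1) (nat_lit 582130382257217)) .nil))),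
 (.br (nat_lit 10) (nat_lit 0) (.cons (.ev (nat_lit 1329228234400290500937983973348541185) (nat_lit 2)) (.cons (.ev (nat_lit 20520715493288329998770087526401) (nat_lit 2)) (.cons (.br (nat_lit 14) (nat_lit 0) (.cons (.ev (nat_lit 10404955973820026380989031860273153) (nat_lit 2)) (.cons (.rf (nat_lit 2) (nat_lit 19070818608409320609)) .nil))) .nil)))),
 (.br (nat_lit 7) (nat_lit 0) (.cons (.ev (nat_lit 1329228234400290500937139561303310850) (nat_lit 2)) (.cons (.ev (nat_lit 20520715493288329435828724040195) (nat_lit 2)) (.cons (.br (nat_lit 14) (nat_lit 0) (.cons (.ev (nat_lit 10404955973820026381551990403629571) (nat_lit 2)) (.cons (.rf (nat_lit 468) (nat_lit 661218154362146555696163)) .nil))) .nil)))),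
 (.br (nat_lit 8) (nat_lit 0) (.cons (.ev (nat_lit 5212579577623507639383754541170688) (nat_lit 1)) .nil)),
 (.br (nat_lit 15) (nat_lit 0) (.cons (.ev (nat_lit 341616807575219685052208189398818226433) (nat_lit 1)) (.cons (.rf (nat_lit 362) (nat_lit 20003291088086412216505379)) .nil))),
 (.br (nat_lit 2) (nat_lit 0) (.cons (.br (nat_lit 14) (nat_lit 0) (.cons (.ev (nat_lit 10404955973820026380989031893827587) (nat_lit 2)) (.cons (.ev (nat_lit 10404955973820026381551990437184001) (nat_lit 2)) (.cons (.ev (nat_lit 7996157841313044494638747753149236737) (nat_lit 3)) (.cons (.br (nat_lit 15) (nat_lit 0) (.cons (.br (nat_lit 10) (nat_lit 0) (.cons (.ev (nat_lit 2689630611587124059358042785539555335) (nat_lit 3)) (.cons (.rf (nat_lit 1) (nat_lit 616223899751489)) .nil))) (.cons (.br (nat_lit 7) (nat_lit 0) (.cons (.ev (nat_lit 2689630611587124059357479844176069125) (nat_lit 3)) (.cons (.rf (nat_lit 1) (nat_lit 616223997269057)) .nil))) (.cons (.ev (nat_lit 2668861105380997336342183213732463107) (nat_lit 2)) (.cons (.br (nat_lit 7) (nat_lit 0) (.cons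 (.rf (nat_lit 1) (nat_lit 582168034513985)) (.cons (.br (nat_lit 10) (nat_lit 0) (.cons (.ev (nat_lit 340287579500516091693308134991251702017) (nat_lit 1)) (.cons (.rf (nat_lit 468) (nat_lit 624914673794710006404131)) .nil))) (.cons (.br (nat_lit 10) (nat_lit 0) (.cons (.rf (nat_lit 2) (nat_lit 20187711316002444353)) (.cons (.ev (nat_lit 87113615180038442379815178914181754650880) (nat_lit 1)) .nil))) .nil)))) .nil))))) .nil))))) (.cons (.br (nat_lit 5) (nat_lit 0) (.cons (.br (nat_lit 14) (nat_lit 0) (.cons (.kr (nat_lit 5192296859743753520202719541854464) (nat_lit 1329227996094400882725153228516818944) (nat_lit 1) (nat_lit 0)) (.cons (.br (nat_lit 15) (nat_lit 0) (.cons (.ev (nat_lit 2668861105380997336342183213732463107) (nat_lit 2)) (.cons (.rf (nat_lit 1) (nat_lit 582167967407169)) .nil))) .nil))) (.cons (.br (nat_lit 10) (nat_lit 0) (.cons (.kr (nat_lit 5192296859743753520202719541854464) (nat_lit 1329227996094400882725153228516818944) (nat_lit 1) (nat_lit 0)) (.cons (.br (nat_lit 15) (nat_lit 0) (.cons (.ev (nat_lit 2658476353210020541232716677843517953)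 (nat_lit 2)) (.cons (.rf (nat_lit 1) (nat_lit 582172258180161)) .nil))) .nil))) (.cons (.br (nat_lit 10) (nat_lit 0) (.cons (.ev (nat_lit 10405273512693769112655424016089605) (nat_lit 3)) (.cons (.br (nat_lit 14) (nat_lit 0) (.cons (.ev (nat_lit 5192535165628667813294668471468035) (nat_lit 2)) (.cons (.rf (nat_lit 1) (nat_lit 582138972183617)) .nil))) .nil))) (.cons (.br (nat_lit 16) (nat_lit 0) (.cons (.ev (nat_lit 20520715493288329998770121080835) (nat_lit 2)) (.cons (.ev (nat_lit 10404955973820026380989031860273153) (nat_lit 2)) (.cons (.rf (nat_lit 720) (nat_lit 19926519232773908561233952)) (.cons (.br (nat_lit 16) (nat_lit 0) (.cons (.ev (nat_lit 20520715493288329998770121080835) (nat_lit 2)) (.cons (.ev (nat_lit 10404955973820026380989031860273153) (nat_lit 2)) (.cons (.rf (nat_lit 720) (nat_lit 19926519232773908561233952)) .nil)))) .nil))))) .nil))))) (.cons (.br (nat_lit 5) (nat_lit 0) (.cons (.br (nat_lit 14) (nat_lit 0) (.cons (.kr (nat_lit 5192296859743753520202719541854464) (nat_lit 1329227996094400882725153228516818944) (nat_lit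 1) (nat_lit 0)) (.cons (.br (nat_lit 15) (nat_lit 0) (.cons (.ev (nat_lit 2668861105380997336342183213732463107) (nat_lit 2)) (.cons (.rf (nat_lit 1) (nat_lit 582164746184769)) .nil))) .nil))) (.cons (.br (nat_lit 7) (nat_lit 0) (.cons (.kr (nat_lit 5192296859743753520202719541854464) (nat_lit 1329227996094400882725153228516818944) (nat_lit 1) (nat_lit 0)) (.cons (.br (nat_lit 15) (nat_lit 0) (.cons (.ev (nat_lit 2658476353210020541232716677843517953) (nat_lit 2)) (.cons (.rf (nat_lit 1) (nat_lit 582172255037505)) .nil))) .nil))) (.cons (.br (nat_lit 7) (nat_lit 0) (.cons (.ev (nat_lit 10405273512693769112092482652603395) (nat_lit 3)) (.cons (.br (nat_lit 14) (nat_lit 0) (.cons (.ev (nat_lit 5192535165628667812731727107981825) (nat_lit 2)) (.cons (.rf (nat_lit 1) (nat_lit 582138969040961)) .nil))) .nil))) (.cons (.br (nat_lit 16) (nat_lit 0) (.cons (.ev (nat_lit 20520715493288329435828757594625) (nat_lit 2)) (.cons (.ev (nat_lit 10404955973820026381551990403629571) (nat_lit 2)) (.cons (.rf (nat_lit 721) (nat_lit 19926519232773908561233952))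 (.cons (.br (nat_lit 16) (nat_lit 0) (.cons (.ev (nat_lit 20520715493288329435828757594625) (nat_lit 2)) (.cons (.ev (nat_lit 10404955973820026381551990403629571) (nat_lit 2)) (.cons (.rf (nat_lit 721) (nat_lit 19926519232773908561233952)) .nil)))) .nil))))) .nil))))) (.cons (.br (nat_lit 5) (nat_lit 0) (.cons (.br (nat_lit 10) (nat_lit 0) (.cons (.kr (nat_lit 5192296859743753520202719541854464) (nat_lit 1329227996094400882725153228516818944) (nat_lit 1) (nat_lit 0)) (.cons (.br (nat_lit 15) (nat_lit 0) (.cons (.ev (nat_lit 2658476353210020541232716677877072387) (nat_lit 2)) (.cons (.rf (nat_lit 1) (nat_lit 582164741994561)) .nil))) .nil))) (.cons (.br (nat_lit 7) (nat_lit 0) (.cons (.kr (nat_lit 5192296859743753520202719541854464) (nat_lit 1329227996094400882725153228516818944) (nat_lit 1) (nat_lit 0)) (.cons (.br (nat_lit 15) (nat_lit 0) (.cons (.ev (nat_lit 2658476353210020541232716677877072387) (nat_lit 2)) (.cons (.rf (nat_lit 1) (nat_lit 582167960074305)) .nil))) .nil))) (.cons (.ev (nat_lit 10404955973810618542074398565859841) (nat_lit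 2)) (.cons (.br (nat_lit 7) (nat_lit 0) (.cons (.br (nat_lit 15) (nat_lit 0) (.cons (.ev (nat_lit 7985773406059534496900975669377369095) (nat_lit 3)) (.cons (.rf (nat_lit 1) (nat_lit 582168025086017)) .nil))) (.cons (.br (nat_lit 10) (nat_lit 0) (.cons (.ev (nat_lit 20520715483806702981942014509571) (nat_lit 2)) (.cons (.rf (nat_lit 1) (nat_lit 582001595103297)) .nil))) (.cons (.br (nat_lit 10) (nat_lit 0) (.cons (.ev (nat_lit 20520715483806702981942014509571) (nat_lit 2)) (.cons (.ev (nat_lit 340282366921249157417534369896943649025) (nat_lit 1)) (.cons (.br (nat_lit 15) (nat_lit 0) (.cons (.ev (nat_lit 1374463307329465982374918674727657669127) (nat_lit 4)) (.cons (.br (nat_lit 16) (nat_lit 0) (.cons (.zr (nat_lit 1363788065652809914237207083923856818688) (nat_lit 31154018842950119254742794038673409) (nat_lit 16) (nat_lit 15)) .nil)) .nil))) .nil)))) (.cons (.br (nat_lit 10) (nat_lit 0) (.cons (.rf (nat_lit 1) (nat_lit 581898616551489)) (.cons (.br (nat_lit 15) (nat_lit 0) (.cons (.ev (nat_lit 1374463307329465982374917548776211219971) (nat_lit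 4)) (.cons (.br (nat_lit 16) (nat_lit 0) (.cons (.zr (nat_lit 1361139913203930329015362607608953307143) (nat_lit 7975367976566405296350919383985816064) (nat_lit 16) (nat_lit 10)) .nil)) .nil))) (.cons (.br (nat_lit 17) (nat_lit 0) (.cons (.ev (nat_lit 87113615159835260933936959319413994029313) (nat_lit 1)) (.cons (.ev (nat_lit 174224577056055658912433985845847052648449) (nat_lit 2)) .nil))) .nil)))) .nil))))) .nil))))) (.cons (.br (nat_lit 5) (nat_lit 0) (.cons (.br (nat_lit 10) (nat_lit 0) (.cons (.ev (nat_lit 10405273512693769112655424049644035) (nat_lit 3)) (.cons (.rf (nat_lit 722) (nat_lit 19926519232773908561233952)) .nil))) (.cons (.br (nat_lit 7) (nat_lit 0) (.cons (.ev (nat_lit 10405273512693769112092482686157825) (nat_lit 3)) (.cons (.br (nat_lit 14) (nat_lit 0) (.cons (.ev (nat_lit 5192535165628667812731727057650176) (nat_lit 2)) (.cons (.rf (nat_lit 1) (nat_lit 582133600336961)) .nil))) .nil))) (.cons (.ev (nat_lit 10404955973810618542074398532305411) (nat_lit 2)) (.cons (.br (nat_lit 7) (nat_lit 0) (.cons (.ev (nat_lit 2658476353210020541233279636386873347)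 (nat_lit 2)) (.cons (.br (nat_lit 10) (nat_lit 0) (.cons (.ev (nat_lit 20520715483806702981942014509571) (nat_lit 2)) (.cons (.rf (nat_lit 1) (nat_lit 582000521362497)) .nil))) (.cons (.br (nat_lit 10) (nat_lit 0) (.cons (.ev (nat_lit 20520715483806702981942014509571) (nat_lit 2)) (.cons (.ev (nat_lit 2658476353210020541232716677843517953) (nat_lit 2)) (.cons (.br (nat_lit 14) (nat_lit 0) (.cons (.ev (nat_lit 341616787213581918886273709337311445248) (nat_lit 1)) (.cons (.rf (nat_lit 246) (nat_lit 20677045230418679468097)) .nil))) .nil)))) (.cons (.br (nat_lit 10) (nat_lit 0) (.cons (.rf (nat_lit 1) (nat_lit 581897542810689)) (.cons (.rf (nat_lit 356) (nat_lit 677582012882735809819579427)) (.cons (.ev (nat_lit 2658476353210020541232716677843517953) (nat_lit 2)) .nil)))) .nil))))) .nil))))) (.cons (.br (nat_lit 5) (nat_lit 0) (.cons (.br (nat_lit 16) (nat_lit 0) (.cons (.ev (nat_lit 20520715493288329998770087526401) (nat_lit 2)) (.cons (.ev (nat_lit 10404955973820026380989031860273153) (nat_lit 2)) (.cons (.rf (nat_lit 723) (nat_lit 19926519232773908561233952))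 (.cons (.br (nat_lit 16) (nat_lit 0) (.cons (.ev (nat_lit 20520715493288329998770087526401) (nat_lit 2)) (.cons (.ev (nat_lit 10404955973820026380989031860273153) (nat_lit 2)) (.cons (.rf (nat_lit 723) (nat_lit 19926519232773908561233952)) .nil)))) .nil))))) (.cons (.br (nat_lit 16) (nat_lit 0) (.cons (.ev (nat_lit 20520715493288329435828724040195) (nat_lit 2)) (.cons (.ev (nat_lit 10404955973820026381551990403629571) (nat_lit 2)) (.cons (.rf (nat_lit 724) (nat_lit 19926519232773908561233952)) (.cons (.br (nat_lit 16) (nat_lit 0) (.cons (.ev (nat_lit 20520715493288329435828724040195) (nat_lit 2)) (.cons (.ev (nat_lit 10404955973820026381551990403629571) (nat_lit 2)) (.cons (.rf (nat_lit 724) (nat_lit 19926519232773908561233952)) .nil)))) .nil))))) (.cons (.br (nat_lit 7) (nat_lit 0) (.cons (.br (nat_lit 15) (nat_lit 0) (.cons (.ev (nat_lit 7985773406059534496900975669343814657) (nat_lit 3)) (.cons (.rf (nat_lit 1) (nat_lit 582168021940385)) .nil))) (.cons (.br (nat_lit 10) (nat_lit 0) (.cons (.ev (nat_lit 20520715483806702981942014509571)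 (nat_lit 2)) (.cons (.rf (nat_lit 1) (nat_lit 582001591957665)) .nil))) (.cons (.br (nat_lit 10) (nat_lit 0) (.cons (.ev (nat_lit 20520715483806702981942014509571) (nat_lit 2)) (.cons (.ev (nat_lit 340282366921249157417534369896926871808) (nat_lit 1)) (.cons (.br (nat_lit 15) (nat_lit 0) (.cons (.ev (nat_lit 1374463307329465982374918674727590560267) (nat_lit 4)) (.cons (.br (nat_lit 16) (nat_lit 0) (.cons (.zr (nat_lit 1363787924072083468282506114845210968576) (nat_lit 31174063568070895158123147049304067) (nat_lit 16) (nat_lit 11)) .nil)) .nil))) .nil)))) (.cons (.br (nat_lit 10) (nat_lit 0) (.cons (.rf (nat_lit 1) (nat_lit 581898613405857)) (.cons (.br (nat_lit 15) (nat_lit 0) (.cons (.ev (nat_lit 1374463307329465982374917548776144111111) (nat_lit 4)) (.cons (.br (nat_lit 16) (nat_lit 0) (.cons (.zr (nat_lit 1361139913203930329015362607608986861573) (nat_lit 7975367976566405296350919383985816064) (nat_lit 16) (nat_lit 10)) .nil)) .nil))) (.cons (.br (nat_lit 17) (nat_lit 0) (.cons (.ev (nat_lit 87113615159835260933936959319413994029313)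 (nat_lit 1)) (.cons (.ev (nat_lit 174224577056055658912433985845847035871234) (nat_lit 2)) .nil))) .nil)))) .nil))))) (.cons (.br (nat_lit 7) (nat_lit 0) (.cons (.ev (nat_lit 2658476353210020541233279636420427777) (nat_lit 2)) (.cons (.br (nat_lit 10) (nat_lit 0) (.cons (.ev (nat_lit 20520715483806702981942014509571) (nat_lit 2)) (.cons (.rf (nat_lit 1) (nat_lit 582000518216865)) .nil))) (.cons (.br (nat_lit 10) (nat_lit 0) (.cons (.ev (nat_lit 20520715483806702981942014509571) (nat_lit 2)) (.cons (.ev (nat_lit 2658476353210020541232716677877072387) (nat_lit 2)) (.cons (.br (nat_lit 14) (nat_lit 0) (.cons (.ev (nat_lit 341616787213581918886273709337311445248) (nat_lit 1)) (.cons (.br (nat_lit 16) (nat_lit 0) (.cons (.ev (nat_lit 340287559297334650555902330108209332480) (nat_lit 1)) .nil)) .nil))) .nil)))) (.cons (.br (nat_lit 10) (nat_lit 0) (.cons (.rf (nat_lit 1) (nat_lit 581897539665057)) (.cons (.rf (nat_lit 356) (nat_lit 677582012882735809920337952)) (.cons (.ev (nat_lit 2658476353210020541232716677877072387) (nat_lit 2)) .nil)))) .nil)))))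 (.cons (.br (nat_lit 14) (nat_lit 0) (.cons (.ev (nat_lit 10404955973820026380989031860273153) (nat_lit 2)) (.cons (.ev (nat_lit 10404955973820026381551990403629571) (nat_lit 2)) (.cons (.br (nat_lit 7) (nat_lit 0) (.cons (.ev (nat_lit 10405273512703176952695991644192773) (nat_lit 3)) (.cons (.ev (nat_lit 1379780218996930973701478524668329986563) (nat_lit 4)) (.cons (.br (nat_lit 10) (nat_lit 0) (.cons (.ev (nat_lit 1379780218996930973701477398785603014159) (nat_lit 4)) (.cons (.rf (nat_lit 609) (nat_lit 21174368943462329297766432)) .nil))) .nil)))) (.cons (.ev (nat_lit 340287559297334645815088821694172823553) (nat_lit 1)) (.cons (.br (nat_lit 15) (nat_lit 0) (.cons (.br (nat_lit 16) (nat_lit 0) (.cons (.ev (nat_lit 340282387282886923583469131437738885120) (nat_lit 1)) (.cons (.ev (nat_lit 681904407437992503523254300675450012418) (nat_lit 2)) .nil))) (.cons (.br (nat_lit 16) (nat_lit 0) (.cons (.ev (nat_lit 340282387282886923583469412917010563329) (nat_lit 1)) (.cons (.ev (nat_lit 681904407437992503523255145104675110913) (nat_lit 2)) .nil)))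 (.cons (.br (nat_lit 7) (nat_lit 0) (.cons (.ev (nat_lit 341611615199134196654654019080843952385) (nat_lit 1)) (.cons (.rf (nat_lit 725) (nat_lit 661701333108527519141953)) .nil))) (.cons (.ev (nat_lit 2668861105380997336342183213732463107) (nat_lit 2)) .nil))))) .nil)))))) (.cons (.br (nat_lit 7) (nat_lit 0) (.cons (.br (nat_lit 14) (nat_lit 0) (.cons (.ev (nat_lit 5348086442843730236229972652218909697) (nat_lit 3)) (.cons (.br (nat_lit 15) (nat_lit 0) (.cons (.ev (nat_lit 2668861105380997336342183213732463107) (nat_lit 2)) (.cons (.rf (nat_lit 2) (nat_lit 19065154990728653025)) .nil))) (.cons (.br (nat_lit 15) (nat_lit 0) (.cons (.rf (nat_lit 470) (nat_lit 677039782193138155442547046)) (.cons (.ev (nat_lit 2668861105380997336342183213732463107) (nat_lit 2)) .nil))) .nil)))) (.cons (.br (nat_lit 10) (nat_lit 0) (.cons (.ev (nat_lit 2658476353210029949072194269748396547) (nat_lit 2)) (.cons (.br (nat_lit 15) (nat_lit 0) (.cons (.ev (nat_lit 341616787213581914182353970541375783168) (nat_lit 1)) (.cons (.rf (nat_lit 394) (nat_lit 19528591438266590375973))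 .nil))) (.cons (.rf (nat_lit 254) (nat_lit 677545378840170140794980384)) .nil)))) (.cons (.br (nat_lit 10) (nat_lit 0) (.cons (.ev (nat_lit 2658476353210029949072757228291751937) (nat_lit 2)) (.cons (.br (nat_lit 14) (nat_lit 0) (.cons (.ev (nat_lit 1371815235930996686932184914118081252867) (nat_lit 4)) (.cons (.br (nat_lit 16) (nat_lit 0) (.cons (.zr (nat_lit 1363787984602399633865931342198039773191) (nat_lit 31153781158462521121216317335012352) (nat_lit 16) (nat_lit 2)) .nil)) .nil))) (.cons (.br (nat_lit 14) (nat_lit 0) (.cons (.br (nat_lit 16) (nat_lit 0) (.cons (.zr (nat_lit 1363787944196036760998959210023859914752) (nat_lit 31153781158462521121216317301456903) (nat_lit 16) (nat_lit 11)) .nil)) (.cons (.ev (nat_lit 348459829495288229419574284494521589829127) (nat_lit 4)) .nil))) .nil)))) (.cons (.br (nat_lit 10) (nat_lit 0) (.cons (.rf (nat_lit 726) (nat_lit 677582165103132179601393696)) (.cons (.br (nat_lit 14) (nat_lit 0) (.cons (.ev (nat_lit 1371815235930996686932183788235354276367) (nat_lit 4)) (.cons (.br (nat_lit 16) (nat_lit 0)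 (.cons (.zr (nat_lit 1361139852673614177543692937503694651904) (nat_lit 7975388258976008966468368867038461955) (nat_lit 16) (nat_lit 7)) .nil)) .nil))) (.cons (.br (nat_lit 14) (nat_lit 0) (.cons (.ev (nat_lit 1371836004801523030926250510507189471759) (nat_lit 4)) (.cons (.br (nat_lit 15) (nat_lit 0) (.cons (.ev (nat_lit 2668861105380997336342183213732463107) (nat_lit 2)) .nil)) .nil))) (.cons (.br (nat_lit 15) (nat_lit 0) (.cons (.ev (nat_lit 1344865813747162521234508614385992195) (nat_lit 2)) (.cons (.rf (nat_lit 256) (nat_lit 21173294315948727775365152)) (.cons (.rf (nat_lit 361) (nat_lit 21174437975838084330260512)) .nil)))) .nil))))) (.cons (.br (nat_lit 10) (nat_lit 0) (.cons (.rf (nat_lit 726) (nat_lit 640105464695078675084743715)) (.cons (.br (nat_lit 14) (nat_lit 0) (.cons (.br (nat_lit 16) (nat_lit 0) (.cons (.zr (nat_lit 1361139953689521359711126082645861073411) (nat_lit 7975368055794572532981739838585044992) (nat_lit 16) (nat_lit 14)) .nil)) (.cons (.ev (nat_lit 348459829495288229419574283368638862852611) (nat_lit 4)) .nil)))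 (.cons (.br (nat_lit 15) (nat_lit 0) (.cons (.ev (nat_lit 1344865813747162521234508614385992195) (nat_lit 2)) (.cons (.rf (nat_lit 361) (nat_lit 20003291088086412216505379)) (.cons (.br (nat_lit 14) (nat_lit 0) (.cons (.ev (nat_lit 341611594995952755517247932727153393665) (nat_lit 1)) .nil)) .nil)))) (.cons (.br (nat_lit 14) (nat_lit 0) (.cons (.ev (nat_lit 348459850264158755763568350090910698048003) (nat_lit 4)) (.cons (.br (nat_lit 15) (nat_lit 0) (.cons (.ev (nat_lit 2668861105380997336342183213732463107) (nat_lit 2)) .nil)) .nil))) .nil))))) .nil)))))) .nil))))))) .nil)))))))]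

theorem c38 : chkAll C T R L38 (nat_lit 709) = true := by decide +kernel

theorem l38 : (nat_lit 709) + L38.length = (nat_lit 728) := by decide +kernel

/-- part of the certificates -/
def L39 : List Prf := [(.br (nat_lit 17) (nat_lit 0) (.cons (.ev (nat_lit 87113615159835260933936959319413994029056) (nat_lit 1)) (.cons (.ev (nat_lit 87113615180038442379815178914181737873408) (nat_lit 1)) (.cons (.ev (nat_lit 87112285952122193897799727948211196788736) (nat_lit 1)) (.cons (.ev (nat_lit 87113615159835260933936959319413994029313) (nat_lit 1)) .nil))))),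
 (.br (nat_lit 11) (nat_lit 0) (.cons (.ev (nat_lit 20520713075399797279173919113217) (nat_lit 2)) (.cons (.br (nat_lit 14) (nat_lit 0) (.cons (.ev (nat_lit 2668861105380997336342183213732463107) (nat_lit 2)) (.cons (.rf (nat_lit 1) (nat_lit 582139163879650)) .nil))) (.cons (.br (nat_lit 14) (nat_lit 0) (.cons (.kr (nat_lit 2668840585905871420851480438761324545) (nat_lit 60926456978210089117857924252160) (nat_lit 0) (nat_lit 2)) (.cons (.ev (nat_lit 340282366921249157417534369896943648768) (nat_lit 1)) (.cons (.br (nat_lit 15) (nat_lit 0) (.cons (.ev (nat_lit 2658476353210020541233279636386873857) (nat_lit 2)) (.cons (.rf (nat_lit 258) (nat_lit 20668827074827489091618)) .nil))) .nil)))) (.cons (.br (nat_lit 15) (nat_lit 0) (.cons (.rf (nat_lit 1) (nat_lit 582036185327842)) (.cons (.ev (nat_lit 2658476353210020541233279636386873857) (nat_lit 2)) (.cons (.rf (nat_lit 728) (nat_lit 677582165103132179601393696)) .nil)))) .nil))))),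
 (.br (nat_lit 10) (nat_lit 0) (.cons (.rf (nat_lit 729) (nat_lit 19767103767415895778923555)) (.cons (.kr (nat_lit 79229371440083952222718656512) (nat_lit 1329227996094400882725152129005125632) (nat_lit 10) (nat_lit 0)) (.cons (.br (nat_lit 14) (nat_lit 0) (.cons (.kr (nat_lit 10384593719487507040405439100485633) (nat_lit 20361637770906748269963421680128) (nat_lit 0) (nat_lit 2)) (.cons (.ev (nat_lit 340282366921249157417534369896943648768) (nat_lit 1)) (.cons (.br (nat_lit 15) (nat_lit 0) (.cons (.ev (nat_lit 2658476353210020541232716677843517443) (nat_lit 2)) (.cons (.rf (nat_lit 295) (nat_lit 20668827074827489091649)) .nil))) .nil)))) (.cons (.br (nat_lit 15) (nat_lit 0) (.cons (.rf (nat_lit 1) (nat_lit 582001825590498)) (.cons (.br (nat_lit 14) (nat_lit 0) (.cons (.ev (nat_lit 341611615199132987710387661481766354945) (nat_lit 1)) (.cons (.rf (nat_lit 2) (nat_lit 19070818608408079586)) .nil))) (.cons (.ev (nat_lit 2658476353210020541232716677843517443) (nat_lit 2)) .nil)))) .nil))))),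
 (.br (nat_lit 11) (nat_lit 0) (.cons (.ev (nat_lit 10405273507876955300686946327594497) (nat_lit 3)) (.cons (.ev (nat_lit 10405273507876955300686946394703365) (nat_lit 3)) (.cons (.ev (nat_lit 1339612669659812034603188058509542147) (nat_lit 2)) (.cons (.ev (nat_lit 10405273507876955300686946327593477) (nat_lit 3)) (.cons (.br (nat_lit 15) (nat_lit 0) (.cons (.ev (nat_lit 5348086442843720828389369143227319809) (nat_lit 3)) (.cons (.ev (nat_lit 5348086442843720828389369143294428677) (nat_lit 3)) (.cons (.ev (nat_lit 5348086442843720828389369143227318789) (nat_lit 3)) (.cons (.ev (nat_lit 7996157841320279123196450770367021569) (nat_lit 3)) .nil))))) .nil)))))),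
 (.br (nat_lit 15) (nat_lit 0) (.cons (.kr (nat_lit 20361637766184381505618799755520) (nat_lit 1334420292952935710425740219389050880) (nat_lit 1) (nat_lit 0)) (.cons (.kr (nat_lit 1334420292952935710425740219372273665) (nat_lit 20361637766184381505618799755520) (nat_lit 0) (nat_lit 2)) (.cons (.kr (nat_lit 1334420292952935710425740219389050881) (nat_lit 20361637766184381505618799755776) (nat_lit 0) (nat_lit 2)) (.cons (.ev (nat_lit 2658476671984435250107768573467296257) (nat_lit 3)) .nil))))),
 (.br (nat_lit 15) (nat_lit 0) (.cons (.ev (nat_lit 7996157841320279123196450770367021059) (nat_lit 3)) (.cons (.ev (nat_lit 7996157841320279123196450770400575489) (nat_lit 3)) (.cons (.ev (nat_lit 7996157841320279123196450770367021569) (nat_lit 3)) (.cons (.ev (nat_lit 87112285952122193897799727948211196788736) (nat_lit 1)) .nil))))),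
 (.br (nat_lit 17) (nat_lit 0) (.cons (.ev (nat_lit 87113615159835260933936959319413994029056) (nat_lit 1)) (.cons (.ev (nat_lit 87113615180038442379815178914181737873408) (nat_lit 1)) (.cons (.ev (nat_lit 87112285952122193897799727948211196788736) (nat_lit 1)) (.cons (.ev (nat_lit 87113615159835260933936959319413994029313) (nat_lit 1)) .nil))))),
 (.br (nat_lit 10) (nat_lit 0) (.cons (.kr (nat_lit 2658455992188801783897329806696513537) (nat_lit 20361640188739940473673101606912) (nat_lit 0) (nat_lit 1)) (.cons (.ev (nat_lit 2658476353210029949072757228291751937) (nat_lit 2)) (.cons (.br (nat_lit 11) (nat_lit 0) (.cons (.kr (nat_lit 10384593719487507040405439100485633) (nat_lit 20361637770906748269963421680128) (nat_lit 0) (nat_lit 2)) (.cons (.ev (nat_lit 20520713065991957801582014235137) (nat_lit 2)) (.cons (.br (nat_lit 16) (nat_lit 0) (.cons (.ev (nat_lit 341611615199132987710387380002494677248) (nat_lit 1)) (.cons (.ev (nat_lit 340282366921249162121454390172134211585) (nat_lit 1)) .nil))) .nil)))) (.cons (.br (nat_lit 11) (nat_lit 0)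 (.cons (.rf (nat_lit 1) (nat_lit 582000651189474)) (.cons (.ev (nat_lit 20520713065991957801582014235137) (nat_lit 2)) (.cons (.rf (nat_lit 734) (nat_lit 677582165103132179601393696)) .nil)))) .nil))))),
 (.br (nat_lit 16) (nat_lit 0) (.cons (.ev (nat_lit 340282387282886928287389151712929447937) (nat_lit 1)) (.cons (.ev (nat_lit 341611594995951546572981575128059019265) (nat_lit 1)) .nil))),
 (.br (nat_lit 14) (nat_lit 0) (.cons (.rf (nat_lit 729) (nat_lit 19767103767415895778923555)) (.cons (.rf (nat_lit 735) (nat_lit 19767103767415895778923555)) (.cons (.rf (nat_lit 730) (nat_lit 19767103767415895778923555)) (.cons (.br (nat_lit 11) (nat_lit 0) (.cons (.ev (nat_lit 340282366921249157417534369896943648768) (nat_lit 1)) (.cons (.ev (nat_lit 20520713065991957801582014235137) (nat_lit 2)) (.cons (.br (nat_lit 15) (nat_lit 0) (.cons (.ev (nat_lit 341616807575220893996474830676207665152) (nat_lit 1)) (.cons (.ev (nat_lit 1369115241089806134758589357581570147329) (nat_lit 3)) .nil))) .nil)))) (.cons (.br (nat_lit 11) (nat_lit 0) (.cons (.br (nat_lit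 15) (nat_lit 0) (.cons (.ev (nat_lit 2658476353210020541232716677843517443) (nat_lit 2)) (.cons (.rf (nat_lit 736) (nat_lit 677582165103132179601393696)) .nil))) (.cons (.ev (nat_lit 20520713065991957801582014235137) (nat_lit 2)) (.cons (.br (nat_lit 10) (nat_lit 0) (.cons (.ev (nat_lit 340282387282886923583469412917010563329) (nat_lit 1)) (.cons (.ev (nat_lit 680569986986586874229073209090260467969) (nat_lit 2)) .nil))) (.cons (.br (nat_lit 10) (nat_lit 0) (.cons (.ev (nat_lit 10404955976228433287250360519360513) (nat_lit 2)) (.cons (.br (nat_lit 15) (nat_lit 0) (.cons (.ev (nat_lit 1363787944355733453474114720459479320069) (nat_lit 3)) .nil)) (.cons (.ev (nat_lit 5192535163201371441097480364622082) (nat_lit 2)) .nil)))) .nil))))) .nil)))))),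
 (.br (nat_lit 15) (nat_lit 0) (.cons (.rf (nat_lit 295) (nat_lit 20673406102847448625217)) (.cons (.ev (nat_lit 2658476353210020541232716677843517443) (nat_lit 2)) .nil))),
 (.br (nat_lit 10) (nat_lit 0) (.cons (.br (nat_lit 14) (nat_lit 0) (.cons (.ev (nat_lit 10404955976228433287250360485806593) (nat_lit 2)) (.cons (.ev (nat_lit 340282366921249157417534369896943648768) (nat_lit 1)) (.cons (.br (nat_lit 15) (nat_lit 0) (.cons (.ev (nat_lit 1369104856020727362572664550685598286849) (nat_lit 3)) (.cons (.br (nat_lit 16) (nat_lit 0) (.cons (.ev (nat_lit 1363798328790996615915732399614136157699) (nat_lit 3)) .nil)) .nil))) .nil)))) (.cons (.ev (nat_lit 10404955976237914913704247195337217) (nat_lit 2)) (.cons (.br (nat_lit 14) (nat_lit 0) (.cons (.ev (nat_lit 10404955976228433287250360485806593) (nat_lit 2)) (.cons (.ev (nat_lit 10404955976228433287250360519360513) (nat_lit 2)) (.cons (.rf (nat_lit 487) (nat_lit 21157493193525767284599142)) .nil)))) (.cons (.br (nat_lit 5) (nat_lit 0) (.cons (.ev (nat_lit 340282366921249157417534369896926871808)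 (nat_lit 1)) (.cons (.ev (nat_lit 1369104856020727362572664550685598286849) (nat_lit 3)) (.cons (.br (nat_lit 14) (nat_lit 0) (.cons (.ev (nat_lit 10404955976228433287250360519360513) (nat_lit 2)) (.cons (.br (nat_lit 15) (nat_lit 0) (.cons (.ev (nat_lit 1363798328790996615915732399614203265539) (nat_lit 3)) .nil)) .nil))) .nil)))) (.cons (.br (nat_lit 5) (nat_lit 0) (.cons (.br (nat_lit 15) (nat_lit 0) (.cons (.ev (nat_lit 1363819098295338550690272377502070735879) (nat_lit 3)) (.cons (.br (nat_lit 16) (nat_lit 0) (.cons (.ev (nat_lit 1369104856020727343609411642912078561793) (nat_lit 3)) .nil)) .nil))) (.cons (.br (nat_lit 14) (nat_lit 0) (.cons (.ev (nat_lit 1363819098295338550690272377502137843719) (nat_lit 3)) (.cons (.ev (nat_lit 2663709294117143501751119887177089026) (nat_lit 2)) .nil))) (.cons (.br (nat_lit 14) (nat_lit 0) (.cons (.ev (nat_lit 340287579500516086952494908047880159488) (nat_lit 1)) (.cons (.ev (nat_lit 680569986986586874229073209090260468224) (nat_lit 2)) .nil))) (.cons (.br (nat_lit 15) (nat_lit 0) (.cons (.rf (nat_lit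 557) (nat_lit 21168233816777295297361952)) (.cons (.ev (nat_lit 340282366921249162121454108692879310848) (nat_lit 1)) (.cons (.br (nat_lit 14) (nat_lit 0) (.cons (.ev (nat_lit 1369104856020727343609411642912078561793) (nat_lit 3)) .nil)) .nil)))) .nil))))) .nil)))))),
 (.br (nat_lit 16) (nat_lit 0) (.cons (.ev (nat_lit 88137120716589954432175411572714963664897) (nat_lit 2)) .nil)),
 (.br (nat_lit 16) (nat_lit 0) (.cons (.ev (nat_lit 680569926377042546112936055645264806403) (nat_lit 2)) (.cons (.br (nat_lit 14) (nat_lit 0) (.cons (.ev (nat_lit 1369115241089806153721842265354989209095) (nat_lit 3)) .nil)) (.cons (.ev (nat_lit 87112285952122193902540541175154551554305) (nat_lit 1)) .nil)))),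
 (.br (nat_lit 16) (nat_lit 0) (.cons (.ev (nat_lit 680569926377042546112936055645264806403) (nat_lit 2)) (.cons (.br (nat_lit 10) (nat_lit 0) (.cons (.ev (nat_lit 1363808713226259759541094662832746923521) (nat_lit 3)) .nil)) (.cons (.ev (nat_lit 87112285931760556131633792905199736586496) (nat_lit 1)) .nil)))),
 (.br (nat_lit 11) (nat_lit 0) (.cons (.br (nat_lit 10) (nat_lit 0) (.cons (.ev (nat_lit 10404955976237914913704247228891137) (nat_lit 2)) (.cons (.br (nat_lit 14) (nat_lit 0) (.cons (.ev (nat_lit 10404955976228433287250360485806593) (nat_lit 2)) (.cons (.rf (nat_lit 1) (nat_lit 582139130391714)) .nil))) (.cons (.br (nat_lit 14) (nat_lit 0) (.cons (.ev (nat_lit 10404955976228433287250360485806593) (nat_lit 2)) (.cons (.ev (nat_lit 340282366921249157417534369896943648768) (nat_lit 1)) (.cons (.br (nat_lit 15) (nat_lit 0) (.cons (.ev (nat_lit 1369104856020727362572664550685531176961) (nat_lit 3)) (.cons (.br (nat_lit 16) (nat_lit 0) (.cons (.ev (nat_lit 1363798328790996615915732399614102601731) (nat_lit 3)) .nil)) .nil))) .nil)))) (.cons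 (.br (nat_lit 14) (nat_lit 0) (.cons (.rf (nat_lit 1) (nat_lit 582001825655970)) (.cons (.br (nat_lit 15) (nat_lit 0) (.cons (.ev (nat_lit 1363819098295338550690272377502070735879) (nat_lit 3)) (.cons (.br (nat_lit 16) (nat_lit 0) (.cons (.ev (nat_lit 1369104856020727343609411642912179225601) (nat_lit 3)) .nil)) .nil))) (.cons (.br (nat_lit 15) (nat_lit 0) (.cons (.ev (nat_lit 2663709294117143501751119887143535106) (nat_lit 2)) (.cons (.ev (nat_lit 174224577056055656504027079580137560211459) (nat_lit 2)) .nil))) .nil)))) .nil))))) (.cons (.br (nat_lit 15) (nat_lit 0) (.cons (.ev (nat_lit 2658476353210020541232716677877071873) (nat_lit 2)) (.cons (.kr (nat_lit 20282410812577490038576425992192) (nat_lit 1329227996094400882725152129005125632) (nat_lit 10) (nat_lit 0)) (.cons (.ev (nat_lit 2658476353210020541232716677843517953) (nat_lit 2)) (.cons (.br (nat_lit 14) (nat_lit 0) (.cons (.rf (nat_lit 1) (nat_lit 582169195165858)) (.cons (.br (nat_lit 5) (nat_lit 0) (.cons (.ev (nat_lit 340282387282886928287389151712929447937) (nat_lit 1)) (.cons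 (.rf (nat_lit 2) (nat_lit 19065154990727474498)) .nil))) (.cons (.rf (nat_lit 501) (nat_lit 19986239193995404659568108)) .nil)))) .nil))))) (.cons (.br (nat_lit 15) (nat_lit 0) (.cons (.ev (nat_lit 2668861105380997336342183213698908163) (nat_lit 2)) (.cons (.kr (nat_lit 20361637766184381787089481498625) (nat_lit 1334420292952935710425740219389050880) (nat_lit 0) (nat_lit 1)) (.cons (.ev (nat_lit 2668861105380997336342183213732463107) (nat_lit 2)) (.cons (.br (nat_lit 10) (nat_lit 0) (.cons (.rf (nat_lit 1) (nat_lit 582172449941666)) (.cons (.br (nat_lit 5) (nat_lit 0) (.cons (.ev (nat_lit 340287579500516091693308134991251701760) (nat_lit 1)) (.cons (.br (nat_lit 16) (nat_lit 0) (.cons (.ev (nat_lit 340287559297334645815089103164871344385) (nat_lit 1)) .nil)) .nil))) (.cons (.rf (nat_lit 734) (nat_lit 677422749637774166819083299)) .nil)))) .nil))))) (.cons (.ev (nat_lit 20520713065991957801582014234627) (nat_lit 2)) (.cons (.rf (nat_lit 739) (nat_lit 19926519232773908561233952)) (.cons (.br (nat_lit 5) (nat_lit 0) (.cons (.br (nat_lit 14)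 (nat_lit 0) (.cons (.rf (nat_lit 1) (nat_lit 582036185393314)) (.cons (.br (nat_lit 16) (nat_lit 0) (.cons (.ev (nat_lit 341611615199132987710387380002511454208) (nat_lit 1)) (.cons (.ev (nat_lit 680569926377042546112936055645281583363) (nat_lit 2)) .nil))) (.cons (.br (nat_lit 15) (nat_lit 0) (.cons (.br (nat_lit 16) (nat_lit 0) (.cons (.ev (nat_lit 1369115241089806153721842265354989209095) (nat_lit 3)) .nil)) (.cons (.ev (nat_lit 348457139884882306884582048494557128032261) (nat_lit 3)) .nil))) .nil)))) (.cons (.br (nat_lit 15) (nat_lit 0) (.cons (.rf (nat_lit 1) (nat_lit 582036051179682)) (.cons (.rf (nat_lit 739) (nat_lit 19767103767415895778923555)) (.cons (.br (nat_lit 10) (nat_lit 0) (.cons (.rf (nat_lit 740) (nat_lit 677582165103132179601393696)) (.cons (.ev (nat_lit 348451833357652576118961863435746640134151) (nat_lit 3)) .nil))) .nil)))) (.cons (.br (nat_lit 10) (nat_lit 0) (.cons (.rf (nat_lit 1) (nat_lit 582034977438882)) (.cons (.br (nat_lit 14) (nat_lit 0) (.cons (.ev (nat_lit 341611615199132987710387380002494677248) (nat_lit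 1)) (.cons (.br (nat_lit 16) (nat_lit 0) (.cons (.ev (nat_lit 1369115241089806153721842265354888545287) (nat_lit 3)) .nil)) .nil))) (.cons (.br (nat_lit 17) (nat_lit 0) (.cons (.ev (nat_lit 5192535163201371441097480364621827) (nat_lit 2)) (.cons (.ev (nat_lit 348457119115377955240622019736678600541185) (nat_lit 3)) .nil))) .nil)))) (.cons (.br (nat_lit 10) (nat_lit 0) (.cons (.br (nat_lit 15) (nat_lit 0) (.cons (.ev (nat_lit 341616807575220893996474830676207665409) (nat_lit 1)) (.cons (.rf (nat_lit 728) (nat_lit 677422749637774166819083299)) .nil))) (.cons (.br (nat_lit 14) (nat_lit 0) (.cons (.ev (nat_lit 341616807575220893996474830676207665409) (nat_lit 1)) (.cons (.ev (nat_lit 10404955976228433287250360519360513) (nat_lit 2)) .nil))) (.cons (.br (nat_lit 15) (nat_lit 0) (.cons (.ev (nat_lit 341616807575220893996474830676207665409) (nat_lit 1)) (.cons (.ev (nat_lit 1363787944355733453474114720459479320069) (nat_lit 3)) .nil))) (.cons (.br (nat_lit 14) (nat_lit 0) (.cons (.ev (nat_lit 10404955976228433287250360519360513) (nat_lit 2)) (.cons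 (.br (nat_lit 15) (nat_lit 0) (.cons (.ev (nat_lit 1369115241089806134758589357581570147847) (nat_lit 3)) .nil)) (.cons (.ev (nat_lit 5192535163201371441097480364621827) (nat_lit 2)) .nil)))) .nil))))) (.cons (.br (nat_lit 16) (nat_lit 0) (.cons (.rf (nat_lit 741) (nat_lit 677582165103132179601393696)) (.cons (.rf (nat_lit 742) (nat_lit 677582165103132179601393696)) (.cons (.br (nat_lit 16) (nat_lit 0) (.cons (.rf (nat_lit 741) (nat_lit 677582165103132179601393696)) (.cons (.rf (nat_lit 742) (nat_lit 677582165103132179601393696)) (.cons (.ev (nat_lit 87112285931760556131633792905199736586496) (nat_lit 1)) .nil)))) (.cons (.ev (nat_lit 87112285952122193902540541175154551554305) (nat_lit 1)) .nil))))) .nil)))))) .nil))))))),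
 (.br (nat_lit 15) (nat_lit 0) (.cons (.ev (nat_lit 2658476353210020541232716677877071873) (nat_lit 2)) (.cons (.ev (nat_lit 2658476353210020541232716677843517953) (nat_lit 2)) (.cons (.rf (nat_lit 505) (nat_lit 639559654033338453069311468)) .nil)))),
 (.br (nat_lit 11) (nat_lit 0) (.cons (.ev (nat_lit 10405273507876955300686946394701827) (nat_lit 3)) (.cons (.ev (nat_lit 1339612669659812034603188058509541378) (nat_lit 2)) (.cons (.ev (nat_lit 10405273507876955300686946327593987) (nat_lit 3)) (.cons (.br (nat_lit 15) (nat_lit 0) (.cons (.ev (nat_lit 5348086442843720828389369143294427139) (nat_lit 3)) (.cons (.ev (nat_lit 5348086442843720828389369143227319299) (nat_lit 3)) (.cons (.ev (nat_lit 7996157841320279123196450770367021059) (nat_lit 3)) .nil)))) .nil)))))]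

theorem c39 : chkAll C T R L39 (nat_lit 728) = true := by decide +kernel

theorem l39 : (nat_lit 728) + L39.length = (nat_lit 746) := by decide +kernel

/-- part of the certificates -/
def L40 : List Prf := [(.br (nat_lit 16) (nat_lit 0) (.cons (.ev (nat_lit 340287579500516091693308134991251701760) (nat_lit 1)) (.cons (.ev (nat_lit 341616787213583127830540069135412428800) (nat_lit 1)) .nil))),
 (.br (nat_lit 15) (nat_lit 0) (.cons (.ev (nat_lit 340287559297025165527706297460301234433) (nat_lit 1)) .nil)),
 (.br (nat_lit 15) (nat_lit 0) (.cons (.ev (nat_lit 2668861105380997336342183213732462593) (nat_lit 2)) (.cons (.kr (nat_lit 20361640184036021016347830910977) (nat_lit 2658455992188806487816787131967209472) (nat_lit 0) (nat_lit 1)) (.cons (.ev (nat_lit 2668861105380997336342183213732463107) (nat_lit 2)) (.cons (.ev (nat_lit 87112285952122193897799727666740531822593) (nat_lit 1)) .nil))))),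
 (.br (nat_lit 5) (nat_lit 0) (.cons (.br (nat_lit 11) (nat_lit 0) (.cons (.br (nat_lit 15) (nat_lit 0) (.cons (.ev (nat_lit 2668861105380997336342183213732463107) (nat_lit 2)) (.cons (.rf (nat_lit 1) (nat_lit 582172450036898)) .nil))) (.cons (.ev (nat_lit 20520713065991957801582047789057) (nat_lit 2)) (.cons (.br (nat_lit 14) (nat_lit 0) (.cons (.ev (nat_lit 10404955976228433287250360519361027) (nat_lit 2)) (.cons (.ev (nat_lit 340282366921249157417534369896943648768) (nat_lit 1)) (.cons (.br (nat_lit 15) (nat_lit 0) (.cons (.ev (nat_lit 1369104856020727362572664550685497623559) (nat_lit 3)) (.cons (.br (nat_lit 16) (nat_lit 0) (.cons (.ev (nat_lit 1363798328790996615915732399614102603269) (nat_lit 3)) .nil)) .nil))) .nil)))) (.cons (.br (nat_lit 14) (nat_lit 0) (.cons (.rf (nat_lit 1) (nat_lit 582036185488546)) (.cons (.br (nat_lit 16) (nat_lit 0) (.cons (.ev (nat_lit 341611615199132987710387380002494676993) (nat_lit 1)) (.cons (.ev (nat_lit 680569926377042546112936055645281583363) (nat_lit 2)) .nil))) (.cons (.br (nat_lit 15) (nat_lit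 0) (.cons (.br (nat_lit 16) (nat_lit 0) (.cons (.ev (nat_lit 1369115241089806153721842265354888545797) (nat_lit 3)) .nil)) (.cons (.ev (nat_lit 348457139884882306884582048494557094477831) (nat_lit 3)) .nil))) .nil)))) .nil))))) (.cons (.br (nat_lit 7) (nat_lit 0) (.cons (.ev (nat_lit 10405273507876955300686946394701827) (nat_lit 3)) (.cons (.ev (nat_lit 20520713065991957801582047789057) (nat_lit 2)) (.cons (.br (nat_lit 14) (nat_lit 0) (.cons (.ev (nat_lit 10404955976228433287250360485806083) (nat_lit 2)) (.cons (.ev (nat_lit 340282366921249157417534369896943648768) (nat_lit 1)) (.cons (.br (nat_lit 15) (nat_lit 0) (.cons (.ev (nat_lit 1369104856020727362572664550685531177479) (nat_lit 3)) (.cons (.br (nat_lit 16) (nat_lit 0) (.cons (.ev (nat_lit 1363798328790996615915732399614102603269) (nat_lit 3)) .nil)) .nil))) .nil)))) (.cons (.br (nat_lit 14) (nat_lit 0) (.cons (.ev (nat_lit 10404955976228433287250360485806083) (nat_lit 2)) (.cons (.br (nat_lit 15) (nat_lit 0) (.cons (.ev (nat_lit 1363808713226259759541095788749867189767) (nat_lit 3))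 (.cons (.br (nat_lit 16) (nat_lit 0) (.cons (.ev (nat_lit 1369115241089806134758588231664382771713) (nat_lit 3)) .nil)) .nil))) (.cons (.ev (nat_lit 5192535163201371441097480398176257) (nat_lit 2)) .nil)))) .nil))))) (.cons (.rf (nat_lit 743) (nat_lit 19767103767415895778923555)) (.cons (.br (nat_lit 7) (nat_lit 0) (.cons (.ev (nat_lit 2658476353210020541232716677877071873) (nat_lit 2)) (.cons (.ev (nat_lit 5348086442843720828389369143294427139) (nat_lit 3)) (.cons (.br (nat_lit 11) (nat_lit 0) (.cons (.ev (nat_lit 2668861105380997336342183213698908163) (nat_lit 2)) (.cons (.ev (nat_lit 1369104856020727362572664550685598287367) (nat_lit 3)) (.cons (.br (nat_lit 14) (nat_lit 0) (.cons (.ev (nat_lit 341611615199132987710387380002494676993) (nat_lit 1)) (.cons (.br (nat_lit 16) (nat_lit 0) (.cons (.ev (nat_lit 1369115241089806153721842265354888545797) (nat_lit 3)) .nil)) .nil))) .nil)))) (.cons (.br (nat_lit 14) (nat_lit 0) (.cons (.ev (nat_lit 2668861105380997336342183213698908163) (nat_lit 2)) (.cons (.br (nat_lit 11) (nat_lit 0) (.cons (.ev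 (nat_lit 1363808713226259759541095788749800079879) (nat_lit 3)) (.cons (.br (nat_lit 16) (nat_lit 0) (.cons (.ev (nat_lit 1363798328790996596952480617757770252801) (nat_lit 3)) .nil)) .nil))) (.cons (.ev (nat_lit 2663709294117143501751119887177089026) (nat_lit 2)) .nil)))) .nil))))) (.cons (.br (nat_lit 7) (nat_lit 0) (.cons (.br (nat_lit 14) (nat_lit 0) (.cons (.kr (nat_lit 20361637770906748269963421679617) (nat_lit 10384593719487507040405439100485632) (nat_lit 0) (nat_lit 1)) (.cons (.ev (nat_lit 340282366921249157417534369896943648768) (nat_lit 1)) (.cons (.rf (nat_lit 744) (nat_lit 677582165103132179601393696)) .nil)))) (.cons (.rf (nat_lit 745) (nat_lit 19926519232773908561233952)) (.cons (.br (nat_lit 11) (nat_lit 0) (.cons (.kr (nat_lit 20361637770906748269963421679617) (nat_lit 10384593719487507040405439100485632) (nat_lit 0) (nat_lit 1)) (.cons (.ev (nat_lit 20520713065991957801582014235137) (nat_lit 2)) (.cons (.br (nat_lit 14) (nat_lit 0) (.cons (.ev (nat_lit 341611615199132987710387380002494676993) (nat_lit 1)) (.cons (.rf (nat_lit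 35) (nat_lit 661171665844875705037026)) .nil))) .nil)))) (.cons (.br (nat_lit 11) (nat_lit 0) (.cons (.ev (nat_lit 340287559297334645815089103164854566913) (nat_lit 1)) (.cons (.ev (nat_lit 20520713065991957801582014235137) (nat_lit 2)) (.cons (.br (nat_lit 15) (nat_lit 0) (.cons (.ev (nat_lit 341616807575220893996474830676207665152) (nat_lit 1)) (.cons (.ev (nat_lit 1363787944355733453474114720459479319559) (nat_lit 3)) .nil))) .nil)))) (.cons (.br (nat_lit 11) (nat_lit 0) (.cons (.br (nat_lit 15) (nat_lit 0) (.cons (.ev (nat_lit 2668861105380997336342183213732463107) (nat_lit 2)) (.cons (.rf (nat_lit 746) (nat_lit 677582165103132179601393696)) .nil))) (.cons (.br (nat_lit 14) (nat_lit 0) (.cons (.ev (nat_lit 10404955976228433287250360519361027) (nat_lit 2)) (.cons (.rf (nat_lit 35) (nat_lit 661171665844875704906082)) .nil))) (.cons (.br (nat_lit 14) (nat_lit 0) (.cons (.ev (nat_lit 10404955976228433287250360519361027) (nat_lit 2)) (.cons (.ev (nat_lit 5192535163201371441097480364622337) (nat_lit 2)) .nil))) (.cons (.br (nat_lit 15) (nat_lit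 0) (.cons (.rf (nat_lit 747) (nat_lit 21174442659472845144426528)) (.cons (.ev (nat_lit 340282366921249162121454390172134211585) (nat_lit 1)) (.cons (.ev (nat_lit 348451802203712971002930025697603219357703) (nat_lit 3)) .nil)))) .nil))))) .nil)))))) (.cons (.br (nat_lit 7) (nat_lit 0) (.cons (.br (nat_lit 14) (nat_lit 0) (.cons (.kr (nat_lit 20361637770906748269963421679617) (nat_lit 10384593719487507040405439100485632) (nat_lit 0) (nat_lit 1)) (.cons (.br (nat_lit 15) (nat_lit 0) (.cons (.ev (nat_lit 2658476353210020541232716677843517953) (nat_lit 2)) (.cons (.rf (nat_lit 2) (nat_lit 19065154990727572706)) .nil))) (.cons (.rf (nat_lit 744) (nat_lit 677582165103132179601393696)) .nil)))) (.cons (.rf (nat_lit 745) (nat_lit 19926519232773908561233952)) (.cons (.br (nat_lit 11) (nat_lit 0) (.cons (.kr (nat_lit 20361637770906748269963421679617) (nat_lit 10384593719487507040405439100485632) (nat_lit 0) (nat_lit 1)) (.cons (.ev (nat_lit 20520713065991957801582014235137) (nat_lit 2)) (.cons (.br (nat_lit 14) (nat_lit 0) (.cons (.rf (nat_lit 450)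 (nat_lit 624728115451128849666127)) (.cons (.ev (nat_lit 87113620372414527863508813345703776485376) (nat_lit 1)) .nil))) .nil)))) (.cons (.br (nat_lit 11) (nat_lit 0) (.cons (.br (nat_lit 15) (nat_lit 0) (.cons (.ev (nat_lit 2668861105380997336342183213732463107) (nat_lit 2)) (.cons (.rf (nat_lit 493) (nat_lit 21157386076573936740904172)) .nil))) (.cons (.ev (nat_lit 20520713065991957801582014235137) (nat_lit 2)) (.cons (.br (nat_lit 14) (nat_lit 0) (.cons (.ev (nat_lit 10404955976228433287250360519361027) (nat_lit 2)) (.cons (.br (nat_lit 15) (nat_lit 0) (.cons (.ev (nat_lit 1363798328790996615915732399614203265029) (nat_lit 3)) .nil)) .nil))) (.cons (.br (nat_lit 14) (nat_lit 0) (.cons (.rf (nat_lit 38) (nat_lit 20661614548782075493834)) (.cons (.ev (nat_lit 680569926377042546112936055645264806403) (nat_lit 2)) (.cons (.br (nat_lit 15) (nat_lit 0) (.cons (.ev (nat_lit 1369115241089806153721842265354989207557) (nat_lit 3)) .nil)) .nil)))) .nil))))) (.cons (.br (nat_lit 11) (nat_lit 0) (.cons (.rf (nat_lit 748) (nat_lit 677582165103132179601393696))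 (.cons (.br (nat_lit 14) (nat_lit 0) (.cons (.ev (nat_lit 10404955976228433287250360519361027) (nat_lit 2)) (.cons (.ev (nat_lit 87112285952122193897799727666740531822593) (nat_lit 1)) .nil))) (.cons (.br (nat_lit 14) (nat_lit 0) (.cons (.ev (nat_lit 10404955976228433287250360519361027) (nat_lit 2)) (.cons (.br (nat_lit 15) (nat_lit 0) (.cons (.ev (nat_lit 1369115241089806134758588231664416325633) (nat_lit 3)) .nil)) (.cons (.ev (nat_lit 5192535163201371441097480364622337) (nat_lit 2)) .nil)))) (.cons (.br (nat_lit 14) (nat_lit 0) (.cons (.ev (nat_lit 87113615180038442375074365687238399885313) (nat_lit 1)) (.cons (.br (nat_lit 15) (nat_lit 0) (.cons (.ev (nat_lit 1363798328790996596952480617757803806721) (nat_lit 3)) .nil)) .nil))) .nil))))) .nil)))))) .nil))))))),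
 (.br (nat_lit 10) (nat_lit 0) (.cons (.ev (nat_lit 10404955976237914913704247195336707) (nat_lit 2)) (.cons (.ev (nat_lit 1369104856020727362572664550685598286339) (nat_lit 3)) (.cons (.br (nat_lit 14) (nat_lit 0) (.cons (.ev (nat_lit 1363819098295338550690272377502137844739) (nat_lit 3)) (.cons (.ev (nat_lit 2663709294117143501751119887177089281) (nat_lit 2)) .nil))) .nil)))),
 (.br (nat_lit 15) (nat_lit 0) (.cons (.ev (nat_lit 2658476353210020541233279636420427777) (nat_lit 2)) (.cons (.ev (nat_lit 2658476353210020541233279636386873857) (nat_lit 2)) (.cons (.rf (nat_lit 505) (nat_lit 639559654207852938629918188)) .nil)))),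
 (.br (nat_lit 10) (nat_lit 0) (.cons (.ev (nat_lit 10405273507876955300686946428256257) (nat_lit 3)) (.cons (.ev (nat_lit 2668861105380997336341620272368975873) (nat_lit 2)) (.cons (.ev (nat_lit 10405273507876955300686946327594497) (nat_lit 3)) (.cons (.br (nat_lit 15) (nat_lit 0) (.cons (.kr (nat_lit 20361637766184381505618799755264) (nat_lit 1334420292952935710425740219372273664) (nat_lit 4) (nat_lit 0)) (.cons (.kr (nat_lit 20361637766184381505618799755520) (nat_lit 1334420292952935710425740219389050880) (nat_lit 1) (nat_lit 0)) (.cons (.ev (nat_lit 2658476671984435250107768573467295747) (nat_lit 3)) .nil)))) .nil))))),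
 (.br (nat_lit 5) (nat_lit 0) (.cons (.br (nat_lit 10) (nat_lit 0) (.cons (.ev (nat_lit 10404955976237914913704247195336707) (nat_lit 2)) (.cons (.br (nat_lit 14) (nat_lit 0) (.cons (.ev (nat_lit 10404955976228433287250360519361027) (nat_lit 2)) (.cons (.rf (nat_lit 1) (nat_lit 582139130518690)) .nil))) (.cons (.br (nat_lit 14) (nat_lit 0) (.cons (.ev (nat_lit 10404955976228433287250360519361027) (nat_lit 2)) (.cons (.ev (nat_lit 340282366921249157417534369896943648768) (nat_lit 1)) (.cons (.br (nat_lit 15) (nat_lit 0) (.cons (.ev (nat_lit 1369104856020727362572664550685497622531) (nat_lit 3)) (.cons (.br (nat_lit 16) (nat_lit 0) (.cons (.ev (nat_lit 1363798328790996615915732399614102601731) (nat_lit 3)) .nil)) .nil))) .nil)))) (.cons (.br (nat_lit 14) (nat_lit 0) (.cons (.rf (nat_lit 1) (nat_lit 582001825782946)) (.cons (.br (nat_lit 15) (nat_lit 0) (.cons (.ev (nat_lit 1363819098295338550690272377502137844739) (nat_lit 3)) (.cons (.br (nat_lit 16) (nat_lit 0) (.cons (.ev (nat_lit 1369104856020727343609411642912145671171) (nat_lit 3)) .nil))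 .nil))) (.cons (.br (nat_lit 15) (nat_lit 0) (.cons (.ev (nat_lit 2663709294117143501751119887160312321) (nat_lit 2)) (.cons (.ev (nat_lit 174224577056055656504027079580137543434240) (nat_lit 2)) .nil))) .nil)))) .nil))))) (.cons (.rf (nat_lit 749) (nat_lit 19767103767415895778923555)) (.cons (.rf (nat_lit 743) (nat_lit 19767103767415895778923555)) (.cons (.br (nat_lit 7) (nat_lit 0) (.cons (.ev (nat_lit 2658476353210020541233279636420427777) (nat_lit 2)) (.cons (.kr (nat_lit 20361637766184381505618799755264) (nat_lit 1334420292952935710425740219372273664) (nat_lit 4) (nat_lit 0)) (.cons (.rf (nat_lit 750) (nat_lit 19926519232773908561233952)) (.cons (.br (nat_lit 14) (nat_lit 0) (.cons (.ev (nat_lit 10404955976237914913704247195336707) (nat_lit 2)) (.cons (.rf (nat_lit 750) (nat_lit 19767103767415895778923555)) (.cons (.br (nat_lit 10) (nat_lit 0) (.cons (.ev (nat_lit 5192535163201371441097480364622592) (nat_lit 2)) (.cons (.ev (nat_lit 348451833357652576137925115217602972483591) (nat_lit 3)) .nil))) .nil)))) .nil))))) (.cons (.br (nat_lit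 7) (nat_lit 0) (.cons (.br (nat_lit 14) (nat_lit 0) (.cons (.kr (nat_lit 60926456978210089117857924251649) (nat_lit 2668840585905871420851480438761324544) (nat_lit 0) (nat_lit 1)) (.cons (.ev (nat_lit 340282366921249157417534369896943648768) (nat_lit 1)) (.cons (.rf (nat_lit 751) (nat_lit 677582165103132179601393696)) .nil)))) (.cons (.rf (nat_lit 752) (nat_lit 19926519232773908561233952)) (.cons (.ev (nat_lit 20520713065991957801582014234627) (nat_lit 2)) (.cons (.br (nat_lit 10) (nat_lit 0) (.cons (.ev (nat_lit 10404955976237914913704247195336707) (nat_lit 2)) (.cons (.ev (nat_lit 340282366921249162121454108692862533888) (nat_lit 1)) (.cons (.br (nat_lit 14) (nat_lit 0) (.cons (.ev (nat_lit 340287579500516086952494908047880159233) (nat_lit 1)) (.cons (.ev (nat_lit 680569986986586874229073209090260467969) (nat_lit 2)) .nil))) .nil)))) (.cons (.br (nat_lit 10) (nat_lit 0) (.cons (.ev (nat_lit 10404955976237914913704247195336707) (nat_lit 2)) (.cons (.br (nat_lit 14) (nat_lit 0) (.cons (.ev (nat_lit 10404955976228433287250360519361027) (nat_lit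 2)) (.cons (.rf (nat_lit 747) (nat_lit 21168571834584732183660576)) .nil))) (.cons (.br (nat_lit 14) (nat_lit 0) (.cons (.ev (nat_lit 10404955976228433287250360519361027) (nat_lit 2)) (.cons (.ev (nat_lit 5192535163201371441097480364622592) (nat_lit 2)) .nil))) (.cons (.br (nat_lit 16) (nat_lit 0) (.cons (.ev (nat_lit 5192535163201371441097480364622592) (nat_lit 2)) (.cons (.br (nat_lit 14) (nat_lit 0) (.cons (.ev (nat_lit 1369115241089806153721841139437835387399) (nat_lit 3)) .nil)) (.cons (.ev (nat_lit 87112285931760556131633793186670401552641) (nat_lit 1)) .nil)))) .nil))))) .nil)))))) (.cons (.br (nat_lit 7) (nat_lit 0) (.cons (.br (nat_lit 14) (nat_lit 0) (.cons (.kr (nat_lit 60926456978210089117857924251649) (nat_lit 2668840585905871420851480438761324544) (nat_lit 0) (nat_lit 1)) (.cons (.br (nat_lit 15) (nat_lit 0) (.cons (.ev (nat_lit 2658476353210020541233279636386873857) (nat_lit 2)) (.cons (.rf (nat_lit 2) (nat_lit 19065154990727604450)) .nil))) (.cons (.rf (nat_lit 751) (nat_lit 677582165103132179601393696)) .nil)))) (.cons (.rf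 (nat_lit 752) (nat_lit 19926519232773908561233952)) (.cons (.ev (nat_lit 20520713065991957801582014234627) (nat_lit 2)) (.cons (.br (nat_lit 10) (nat_lit 0) (.cons (.ev (nat_lit 10404955976237914913704247195336707) (nat_lit 2)) (.cons (.br (nat_lit 16) (nat_lit 0) (.cons (.ev (nat_lit 10404955976228433287250360519361027) (nat_lit 2)) (.cons (.ev (nat_lit 340282366921249162121454108692879310848) (nat_lit 1)) .nil))) (.cons (.br (nat_lit 14) (nat_lit 0) (.cons (.ev (nat_lit 10404955976228433287250360519361027) (nat_lit 2)) (.cons (.br (nat_lit 15) (nat_lit 0) (.cons (.ev (nat_lit 1363798328790996615915732399614203265539) (nat_lit 3)) .nil)) .nil))) (.cons (.br (nat_lit 15) (nat_lit 0) (.cons (.rf (nat_lit 626) (nat_lit 21174368943462329297766432)) (.cons (.ev (nat_lit 340282366921249162121454108692879310848) (nat_lit 1)) (.cons (.br (nat_lit 14) (nat_lit 0) (.cons (.ev (nat_lit 1369104856020727343609411642912078561283) (nat_lit 3)) .nil)) .nil)))) .nil))))) (.cons (.br (nat_lit 10) (nat_lit 0) (.cons (.ev (nat_lit 10404955976237914913704247195336707)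 (nat_lit 2)) (.cons (.br (nat_lit 14) (nat_lit 0) (.cons (.ev (nat_lit 10404955976228433287250360519361027) (nat_lit 2)) (.cons (.ev (nat_lit 87112291144339825479057286442227123355648) (nat_lit 1)) .nil))) (.cons (.br (nat_lit 14) (nat_lit 0) (.cons (.ev (nat_lit 10404955976228433287250360519361027) (nat_lit 2)) (.cons (.br (nat_lit 15) (nat_lit 0) (.cons (.ev (nat_lit 1369115241089806134758588231664416326151) (nat_lit 3)) .nil)) (.cons (.ev (nat_lit 5192535163201371441097480364622592) (nat_lit 2)) .nil)))) (.cons (.ev (nat_lit 87112285931760556131633793186670418329601) (nat_lit 1)) .nil))))) .nil)))))) .nil))))))),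
 (.br (nat_lit 10) (nat_lit 0) (.cons (.ev (nat_lit 10404955976228433287250360519361027) (nat_lit 2)) (.cons (.ev (nat_lit 340282366921249157417534369896943649025) (nat_lit 1)) (.cons (.br (nat_lit 15) (nat_lit 0) (.cons (.ev (nat_lit 1363819098295338550690272377502137844739) (nat_lit 3)) (.cons (.br (nat_lit 16) (nat_lit 0) (.cons (.ev (nat_lit 1369104856020727343609411642912145670661) (nat_lit 3)) .nil)) .nil))) .nil)))),
 (.br (nat_lit 5) (nat_lit 0) (.cons (.br (nat_lit 11) (nat_lit 0) (.cons (.br (nat_lit 15) (nat_lit 0) (.cons (.ev (nat_lit 2658476353210020541232716677877072387) (nat_lit 2)) (.cons (.rf (nat_lit 1) (nat_lit 582169195388066)) .nil))) (.cons (.ev (nat_lit 20520713065991957801582047789057) (nat_lit 2)) (.cons (.rf (nat_lit 754) (nat_lit 19926519232773908561233952)) (.cons (.br (nat_lit 15) (nat_lit 0) (.cons (.rf (nat_lit 1) (nat_lit 582036051401890)) (.cons (.rf (nat_lit 754) (nat_lit 19767103767415895778923555)) (.cons (.br (nat_lit 10) (nat_lit 0) (.cons (.br (nat_lit 16) (nat_lit 0) (.cons (.ev (nat_lit 680569926377042546112936055645281583873)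 (nat_lit 2)) .nil)) (.cons (.ev (nat_lit 348451833357652576118961863435746707243011) (nat_lit 3)) .nil))) .nil)))) .nil))))) (.cons (.rf (nat_lit 749) (nat_lit 19767103767415895778923555)) (.cons (.br (nat_lit 15) (nat_lit 0) (.cons (.ev (nat_lit 20520713065991957801582047789057) (nat_lit 2)) (.cons (.ev (nat_lit 10404955976228433287250360485806083) (nat_lit 2)) (.cons (.br (nat_lit 7) (nat_lit 0) (.cons (.ev (nat_lit 2658476353210020541233279636386873857) (nat_lit 2)) (.cons (.ev (nat_lit 1363819098295338550690272377502070734851) (nat_lit 3)) (.cons (.br (nat_lit 10) (nat_lit 0) (.cons (.ev (nat_lit 1363808713226259759541095788749867189249) (nat_lit 3)) (.cons (.ev (nat_lit 5192535163201371441097480398176257) (nat_lit 2)) .nil))) .nil)))) (.cons (.br (nat_lit 7) (nat_lit 0) (.cons (.rf (nat_lit 1) (nat_lit 582168020987042)) (.cons (.br (nat_lit 10) (nat_lit 0) (.cons (.ev (nat_lit 340282387282886928287389151712929448192) (nat_lit 1)) (.cons (.br (nat_lit 16) (nat_lit 0) (.cons (.ev (nat_lit 1369104856020727343609411642912179224581) (nat_lit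 3)) .nil)) .nil))) (.cons (.br (nat_lit 10) (nat_lit 0) (.cons (.br (nat_lit 16) (nat_lit 0) (.cons (.ev (nat_lit 1369115241089806134758588231664382772231) (nat_lit 3)) .nil)) (.cons (.ev (nat_lit 5192535163201371441097480398176257) (nat_lit 2)) .nil))) .nil)))) .nil))))) (.cons (.rf (nat_lit 753) (nat_lit 19767103767415895778923555)) (.cons (.br (nat_lit 11) (nat_lit 0) (.cons (.br (nat_lit 10) (nat_lit 0) (.cons (.kr (nat_lit 79229371440083952222718656512) (nat_lit 1329227996094400882725152129005125632) (nat_lit 10) (nat_lit 0)) (.cons (.ev (nat_lit 340282366921249157417534369896943649025) (nat_lit 1)) (.cons (.br (nat_lit 15) (nat_lit 0) (.cons (.ev (nat_lit 341611615199132987710387661481766355200) (nat_lit 1)) (.cons (.ev (nat_lit 2658476353210020541232716677843517443) (nat_lit 2)) .nil))) .nil)))) (.cons (.br (nat_lit 7) (nat_lit 0) (.cons (.kr (nat_lit 20361637770888301244414735417344) (nat_lit 1334420292952935710425740219372273664) (nat_lit 4) (nat_lit 0)) (.cons (.ev (nat_lit 340282366921249157417534369896943649025) (nat_lit 1)) (.cons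 (.br (nat_lit 15) (nat_lit 0) (.cons (.ev (nat_lit 341616807575220893996474549205525922049) (nat_lit 1)) (.cons (.ev (nat_lit 2658476353210020541232716677843517443) (nat_lit 2)) .nil))) .nil)))) (.cons (.ev (nat_lit 2668861105380997336342183213732462593) (nat_lit 2)) (.cons (.br (nat_lit 7) (nat_lit 0) (.cons (.ev (nat_lit 340282366921249157417534369896943649025) (nat_lit 1)) (.cons (.ev (nat_lit 20520713065991957801582014235137) (nat_lit 2)) (.cons (.br (nat_lit 10) (nat_lit 0) (.cons (.ev (nat_lit 10404955976228433287250360519361027) (nat_lit 2)) (.cons (.ev (nat_lit 5192535163201371441097480364622337) (nat_lit 2)) .nil))) .nil)))) (.cons (.br (nat_lit 16) (nat_lit 0) (.cons (.br (nat_lit 15) (nat_lit 0) (.cons (.ev (nat_lit 341616807575220893996474830676207665152) (nat_lit 1)) (.cons (.ev (nat_lit 1369115241089806134758589357581570146819) (nat_lit 3)) .nil))) (.cons (.br (nat_lit 15) (nat_lit 0) (.cons (.ev (nat_lit 341611615199132987710387380002494676993) (nat_lit 1)) (.cons (.ev (nat_lit 1369125625525069297347203402656379045381) (nat_lit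 3)) .nil))) (.cons (.br (nat_lit 7) (nat_lit 0) (.cons (.ev (nat_lit 2658476353210020541233279636386873857) (nat_lit 2)) (.cons (.br (nat_lit 10) (nat_lit 0) (.cons (.ev (nat_lit 683228382209534664958933075182972174849) (nat_lit 2)) .nil)) .nil))) (.cons (.ev (nat_lit 340287579500516091693308416461933445120) (nat_lit 1)) .nil))))) .nil)))))) (.cons (.br (nat_lit 11) (nat_lit 0) (.cons (.br (nat_lit 10) (nat_lit 0) (.cons (.kr (nat_lit 79229371440083952222718656512) (nat_lit 1329227996094400882725152129005125632) (nat_lit 10) (nat_lit 0)) (.cons (.br (nat_lit 16) (nat_lit 0) (.cons (.ev (nat_lit 2658476353210020541232716677843517443) (nat_lit 2)) (.cons (.ev (nat_lit 340282366921249157417534369896926871553) (nat_lit 1)) .nil))) (.cons (.br (nat_lit 15) (nat_lit 0) (.cons (.rf (nat_lit 523) (nat_lit 21162446582187795203243043)) (.cons (.ev (nat_lit 2658476353210020541232716677843517443) (nat_lit 2)) .nil))) .nil)))) (.cons (.br (nat_lit 7) (nat_lit 0) (.cons (.kr (nat_lit 20361637770888301244414735417344) (nat_lit 1334420292952935710425740219372273664)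 (nat_lit 4) (nat_lit 0)) (.cons (.br (nat_lit 16) (nat_lit 0) (.cons (.ev (nat_lit 2658476353210020541232716677843517443) (nat_lit 2)) (.cons (.ev (nat_lit 340282366921249157417534369896926871553) (nat_lit 1)) .nil))) (.cons (.br (nat_lit 15) (nat_lit 0) (.cons (.rf (nat_lit 486) (nat_lit 21157386076292496123931113)) (.cons (.ev (nat_lit 2658476353210020541232716677843517443) (nat_lit 2)) .nil))) .nil)))) (.cons (.ev (nat_lit 2668861105380997336342183213732462593) (nat_lit 2)) (.cons (.br (nat_lit 15) (nat_lit 0) (.cons (.ev (nat_lit 20520713065991957801582014235137) (nat_lit 2)) (.cons (.ev (nat_lit 10404955976228433287250360519361027) (nat_lit 2)) (.cons (.br (nat_lit 7) (nat_lit 0) (.cons (.ev (nat_lit 2658476353210020541233279636386873857) (nat_lit 2)) (.cons (.ev (nat_lit 341611594995951541869061554852851679233) (nat_lit 1)) .nil))) (.cons (.br (nat_lit 17) (nat_lit 0) (.cons (.br (nat_lit 10) (nat_lit 0) (.cons (.ev (nat_lit 1369115241089806134758588231664416326151) (nat_lit 3)) .nil)) (.cons (.ev (nat_lit 348451822972583487656406128804043851563525)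 (nat_lit 3)) (.cons (.ev (nat_lit 87113620372414527868212733365979000602880) (nat_lit 1)) .nil)))) .nil))))) (.cons (.br (nat_lit 7) (nat_lit 0) (.cons (.br (nat_lit 15) (nat_lit 0) (.cons (.ev (nat_lit 2658476353210020541233279636386873857) (nat_lit 2)) (.cons (.ev (nat_lit 87113615159835260933936959319414010806273) (nat_lit 1)) .nil))) (.cons (.br (nat_lit 10) (nat_lit 0) (.cons (.rf (nat_lit 452) (nat_lit 624728115451128849666127)) (.cons (.ev (nat_lit 87113615159835260933936959319414010806273) (nat_lit 1)) .nil))) (.cons (.br (nat_lit 10) (nat_lit 0) (.cons (.rf (nat_lit 38) (nat_lit 20661614548782075493710)) (.cons (.ev (nat_lit 680569926377042546112936055645264805889) (nat_lit 2)) (.cons (.br (nat_lit 15) (nat_lit 0) (.cons (.ev (nat_lit 1363808713226259759541094662832746922501) (nat_lit 3)) .nil)) .nil)))) (.cons (.br (nat_lit 15) (nat_lit 0) (.cons (.ev (nat_lit 87113615159835260933936959319414010806273) (nat_lit 1)) (.cons (.ev (nat_lit 348457150269317560356653857474822021317123) (nat_lit 3)) .nil))) .nil))))) .nil)))))) .nil)))))))]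

theorem c40 : chkAll C T R L40 (nat_lit 746) = true := by decide +kernel

theorem l40 : (nat_lit 746) + L40.length = (nat_lit 756) := by decide +kernel

/-- part of the certificates -/
def L41 : List Prf := [(.br (nat_lit 10) (nat_lit 0) (.cons (.ev (nat_lit 10404955976237914913704247228891137) (nat_lit 2)) (.cons (.ev (nat_lit 1369104856020727362572664550685531177479) (nat_lit 3)) (.cons (.br (nat_lit 14) (nat_lit 0) (.cons (.ev (nat_lit 1363819098295338550690272377502070735879) (nat_lit 3)) (.cons (.ev (nat_lit 2663709294117143501751119887143534851) (nat_lit 2)) .nil))) .nil)))),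
 (.br (nat_lit 10) (nat_lit 0) (.cons (.ev (nat_lit 5348086442843720828389369143327981569) (nat_lit 3)) (.cons (.ev (nat_lit 20520713075399797279173919113217) (nat_lit 2)) (.cons (.ev (nat_lit 5348086442843720828389369143227319809) (nat_lit 3)) (.cons (.br (nat_lit 11) (nat_lit 0) (.cons (.kr (nat_lit 20361637766184381505618799755264) (nat_lit 1334420292952935710425740219372273664) (nat_lit 4) (nat_lit 0)) (.cons (.kr (nat_lit 20361637766184381505618799755520) (nat_lit 1334420292952935710425740219389050880) (nat_lit 1) (nat_lit 0)) (.cons (.ev (nat_lit 7996157841320279123196450770367021059) (nat_lit 3)) .nil)))) .nil))))),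
 (.br (nat_lit 5) (nat_lit 0) (.cons (.rf (nat_lit 755) (nat_lit 19767103767415895778923555)) (.cons (.rf (nat_lit 749) (nat_lit 19767103767415895778923555)) (.cons (.br (nat_lit 7) (nat_lit 0) (.cons (.ev (nat_lit 2658476353210020541233279636386873347) (nat_lit 2)) (.cons (.kr (nat_lit 20361637766184381505618799755264) (nat_lit 1334420292952935710425740219372273664) (nat_lit 4) (nat_lit 0)) (.cons (.rf (nat_lit 756) (nat_lit 19926519232773908561233952)) (.cons (.br (nat_lit 14) (nat_lit 0) (.cons (.ev (nat_lit 10404955976237914913704247228891137) (nat_lit 2)) (.cons (.rf (nat_lit 756) (nat_lit 19767103767415895778923555)) (.cons (.br (nat_lit 10) (nat_lit 0) (.cons (.ev (nat_lit 5192535163201371441097480398177026) (nat_lit 2)) (.cons (.ev (nat_lit 348451833357652576137925115217603039592451) (nat_lit 3)) .nil))) .nil)))) .nil))))) (.cons (.rf (nat_lit 743) (nat_lit 19767103767415895778923555)) (.cons (.br (nat_lit 7) (nat_lit 0) (.cons (.ev (nat_lit 2658476353210020541233279636386873347) (nat_lit 2)) (.cons (.br (nat_lit 10) (nat_lit 0) (.cons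 (.kr (nat_lit 20520094095935276945150509580289) (nat_lit 2668840585905871420851480438761324544) (nat_lit 0) (nat_lit 1)) (.cons (.ev (nat_lit 2658476353210020541232716677843517953) (nat_lit 2)) (.cons (.br (nat_lit 16) (nat_lit 0) (.cons (.ev (nat_lit 341611615199132987710387661481766354945) (nat_lit 1)) (.cons (.ev (nat_lit 340282366921249162121454108692862533633) (nat_lit 1)) .nil))) .nil)))) (.cons (.rf (nat_lit 757) (nat_lit 19926519232773908561233952)) (.cons (.br (nat_lit 10) (nat_lit 0) (.cons (.ev (nat_lit 2658476353210020541232716677843517953) (nat_lit 2)) (.cons (.ev (nat_lit 341616787213583123089726560721359142913) (nat_lit 1)) (.cons (.br (nat_lit 14) (nat_lit 0) (.cons (.ev (nat_lit 2668861105380997336342183213732462593) (nat_lit 2)) (.cons (.ev (nat_lit 2663709294117143501751119887143534851) (nat_lit 2)) .nil))) .nil)))) (.cons (.br (nat_lit 11) (nat_lit 0) (.cons (.br (nat_lit 14) (nat_lit 0) (.cons (.ev (nat_lit 341616807575220893996474549205525922049) (nat_lit 1)) (.cons (.rf (nat_lit 747) (nat_lit 21168420665777536536512544))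 .nil))) (.cons (.ev (nat_lit 2668861105380997336342183213732462593) (nat_lit 2)) (.cons (.br (nat_lit 14) (nat_lit 0) (.cons (.ev (nat_lit 10404955976237914913704247195337217) (nat_lit 2)) (.cons (.ev (nat_lit 1369115241089806153721841139437835388419) (nat_lit 3)) .nil))) (.cons (.br (nat_lit 10) (nat_lit 0) (.cons (.br (nat_lit 16) (nat_lit 0) (.cons (.ev (nat_lit 340287559297334650555902048637544366080) (nat_lit 1)) .nil)) (.cons (.ev (nat_lit 340282366921249162121454390172134211840) (nat_lit 1)) (.cons (.br (nat_lit 14) (nat_lit 0) (.cons (.ev (nat_lit 683228382209534664958933075182972175104) (nat_lit 2)) .nil)) .nil)))) .nil))))) .nil)))))) (.cons (.br (nat_lit 7) (nat_lit 0) (.cons (.ev (nat_lit 2658476353210020541233279636386873347) (nat_lit 2)) (.cons (.br (nat_lit 10) (nat_lit 0) (.cons (.kr (nat_lit 20520094095935276945150509580289) (nat_lit 2668840585905871420851480438761324544) (nat_lit 0) (nat_lit 1)) (.cons (.ev (nat_lit 2658476353210020541232716677843517953) (nat_lit 2)) (.cons (.br (nat_lit 14) (nat_lit 0) (.cons (.rf (nat_lit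 425) (nat_lit 19522718704951713012770)) (.cons (.ev (nat_lit 87113620372414527863508813627183048163328) (nat_lit 1)) .nil))) .nil)))) (.cons (.rf (nat_lit 757) (nat_lit 19926519232773908561233952)) (.cons (.br (nat_lit 11) (nat_lit 0) (.cons (.ev (nat_lit 2658476353210020541232716677843517953) (nat_lit 2)) (.cons (.ev (nat_lit 2668861105380997336342183213732462593) (nat_lit 2)) (.cons (.br (nat_lit 10) (nat_lit 0) (.cons (.ev (nat_lit 10404955976237914913704247195337217) (nat_lit 2)) (.cons (.ev (nat_lit 340282366921249162121454108692879311105) (nat_lit 1)) .nil))) (.cons (.br (nat_lit 10) (nat_lit 0) (.cons (.rf (nat_lit 38) (nat_lit 20661614548782075492687)) (.cons (.br (nat_lit 14) (nat_lit 0) (.cons (.ev (nat_lit 1369115241089806153721842265354989209095) (nat_lit 3)) .nil)) (.cons (.ev (nat_lit 348457119115377955240622019736678634095623) (nat_lit 3)) .nil)))) .nil))))) (.cons (.br (nat_lit 11) (nat_lit 0) (.cons (.br (nat_lit 17) (nat_lit 0) (.cons (.ev (nat_lit 87113615180038442375074365687238399885313) (nat_lit 1)) (.cons (.ev (nat_lit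 87112285931760556131633793186670418329856) (nat_lit 1)) .nil))) (.cons (.ev (nat_lit 2668861105380997336342183213732462593) (nat_lit 2)) (.cons (.br (nat_lit 10) (nat_lit 0) (.cons (.ev (nat_lit 10404955976237914913704247195337217) (nat_lit 2)) (.cons (.br (nat_lit 14) (nat_lit 0) (.cons (.ev (nat_lit 5192535163201371441097480364622082) (nat_lit 2)) .nil)) (.cons (.ev (nat_lit 87112285952122193902540540893683869810945) (nat_lit 1)) .nil)))) (.cons (.br (nat_lit 14) (nat_lit 0) (.cons (.ev (nat_lit 87113615180038442375074365687238399885313) (nat_lit 1)) (.cons (.ev (nat_lit 348457150269317560356653857474822021317123) (nat_lit 3)) .nil))) .nil))))) .nil)))))) .nil))))))),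
 (.br (nat_lit 11) (nat_lit 0) (.cons (.ev (nat_lit 20520713075399797279173919113217) (nat_lit 2)) (.cons (.ev (nat_lit 341611594995951546572981293648787341568) (nat_lit 1)) (.cons (.br (nat_lit 14) (nat_lit 0) (.cons (.ev (nat_lit 1366456784622250775759192257020645606401) (nat_lit 3)) (.cons (.rf (nat_lit 495) (nat_lit 645833439428397699137)) .nil))) .nil)))),
 (.br (nat_lit 10) (nat_lit 0) (.cons (.ev (nat_lit 1361160641827783220061965973447986381831) (nat_lit 3)) (.cons (.ev (nat_lit 340282366921249162121454108692862533888) (nat_lit 1)) (.cons (.br (nat_lit 15) (nat_lit 0) (.cons (.ev (nat_lit 1363819098295338579061363074008910922759) (nat_lit 3)) (.cons (.ev (nat_lit 2658476353210020541232716677843517443) (nat_lit 2)) .nil))) .nil)))),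
 (.br (nat_lit 10) (nat_lit 0) (.cons (.kr (nat_lit 2658455992188801783897329806696513537) (nat_lit 20361640188739940473673101606912) (nat_lit 0) (nat_lit 1)) (.cons (.ev (nat_lit 2658476353210029949072757228291751937) (nat_lit 2)) (.cons (.br (nat_lit 11) (nat_lit 0) (.cons (.ev (nat_lit 1363819098295338560098111292152645682179) (nat_lit 3)) (.cons (.rf (nat_lit 491) (nat_lit 645832313528490889281)) .nil))) .nil)))),
 (.br (nat_lit 5) (nat_lit 0) (.cons (.rf (nat_lit 755) (nat_lit 19767103767415895778923555)) (.cons (.rf (nat_lit 749) (nat_lit 19767103767415895778923555)) (.cons (.rf (nat_lit 758) (nat_lit 19767103767415895778923555)) (.cons (.rf (nat_lit 743) (nat_lit 19767103767415895778923555)) (.cons (.rf (nat_lit 753) (nat_lit 19767103767415895778923555)) (.cons (.br (nat_lit 7) (nat_lit 0) (.cons (.rf (nat_lit 759) (nat_lit 19926519232773908561233952)) (.cons (.rf (nat_lit 760) (nat_lit 19926519232773908561233952)) (.cons (.br (nat_lit 10) (nat_lit 0) (.cons (.ev (nat_lit 20520713075399797279173919113217) (nat_lit 2)) (.cons (.ev (nat_lit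 2668861105380997336341620272368975873) (nat_lit 2)) (.cons (.br (nat_lit 11) (nat_lit 0) (.cons (.ev (nat_lit 1363819098295338579061363074008910922759) (nat_lit 3)) (.cons (.ev (nat_lit 340282366921249157417534651376215326977) (nat_lit 1)) .nil))) .nil)))) (.cons (.rf (nat_lit 761) (nat_lit 19926519232773908561233952)) (.cons (.br (nat_lit 14) (nat_lit 0) (.cons (.rf (nat_lit 759) (nat_lit 19767103767415895778923555)) (.cons (.rf (nat_lit 761) (nat_lit 19767103767415895778923555)) (.cons (.rf (nat_lit 760) (nat_lit 19767103767415895778923555)) (.cons (.br (nat_lit 11) (nat_lit 0) (.cons (.br (nat_lit 15) (nat_lit 0) (.cons (.ev (nat_lit 2658476353210020541232716677843517443) (nat_lit 2)) .nil)) (.cons (.ev (nat_lit 681909599655622880540611133297955832322) (nat_lit 2)) (.cons (.br (nat_lit 10) (nat_lit 0) (.cons (.ev (nat_lit 10404955976228433287250360519360513) (nat_lit 2)) .nil)) .nil)))) .nil))))) .nil)))))) (.cons (.br (nat_lit 7) (nat_lit 0) (.cons (.br (nat_lit 11) (nat_lit 0) (.cons (.ev (nat_lit 20520713075399797279173919113217) (nat_lit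 2)) (.cons (.br (nat_lit 16) (nat_lit 0) (.cons (.ev (nat_lit 2668861105380997336342183213732463107) (nat_lit 2)) (.cons (.ev (nat_lit 341611594995951546572981293648804118528) (nat_lit 1)) .nil))) (.cons (.br (nat_lit 15) (nat_lit 0) (.cons (.kr (nat_lit 2668840585905871420851480438761324545) (nat_lit 60926456978210089117857924252160) (nat_lit 0) (nat_lit 2)) (.cons (.ev (nat_lit 341611594995951546572981293648804118528) (nat_lit 1)) .nil))) (.cons (.br (nat_lit 15) (nat_lit 0) (.cons (.br (nat_lit 16) (nat_lit 0) (.cons (.ev (nat_lit 1366456784622250775759192257020578496513) (nat_lit 3)) .nil)) (.cons (.ev (nat_lit 2658476353210020541233279636386873857) (nat_lit 2)) (.cons (.ev (nat_lit 87113615159835260933936959319414010806273) (nat_lit 1)) .nil)))) .nil))))) (.cons (.br (nat_lit 10) (nat_lit 0) (.cons (.br (nat_lit 16) (nat_lit 0) (.cons (.kr (nat_lit 2668840585905871420851480438761324545) (nat_lit 20520094095935276945150509580800) (nat_lit 0) (nat_lit 2)) (.cons (.ev (nat_lit 1361160641827783220061965973448053489671) (nat_lit 3)) .nil)))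 (.cons (.kr (nat_lit 79229371440083952222718656512) (nat_lit 1329227996094400882725152129005125632) (nat_lit 10) (nat_lit 0)) (.cons (.br (nat_lit 14) (nat_lit 0) (.cons (.kr (nat_lit 10384593719487507040405439100485633) (nat_lit 20361637770906748269963421680128) (nat_lit 0) (nat_lit 2)) (.cons (.rf (nat_lit 405) (nat_lit 21174286834889701211605024)) .nil))) (.cons (.br (nat_lit 15) (nat_lit 0) (.cons (.br (nat_lit 16) (nat_lit 0) (.cons (.ev (nat_lit 1363819098295338579061363074008978030599) (nat_lit 3)) .nil)) (.cons (.ev (nat_lit 340282366921249162121454108692879310848) (nat_lit 1)) (.cons (.ev (nat_lit 2658476353210020541232716677843517443) (nat_lit 2)) .nil)))) .nil))))) (.cons (.br (nat_lit 10) (nat_lit 0) (.cons (.ev (nat_lit 20520713075399797279173919113217) (nat_lit 2)) (.cons (.ev (nat_lit 2668861105380997336341620272368975873) (nat_lit 2)) (.cons (.rf (nat_lit 731) (nat_lit 19926519232773908561233952)) (.cons (.br (nat_lit 11) (nat_lit 0) (.cons (.br (nat_lit 16) (nat_lit 0) (.cons (.ev (nat_lit 1363819098295338579061363074008978030599)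 (nat_lit 3)) .nil)) (.cons (.rf (nat_lit 732) (nat_lit 677582165103132179601393696)) (.cons (.rf (nat_lit 733) (nat_lit 677582165103132179601393696)) .nil)))) .nil))))) (.cons (.br (nat_lit 10) (nat_lit 0) (.cons (.kr (nat_lit 2658455992188801783897329806696513537) (nat_lit 20361640188739940473673101606912) (nat_lit 0) (nat_lit 1)) (.cons (.ev (nat_lit 2658476353210029949072757228291751937) (nat_lit 2)) (.cons (.br (nat_lit 11) (nat_lit 0) (.cons (.kr (nat_lit 10384593719487507040405439100485633) (nat_lit 20361637770906748269963421680128) (nat_lit 0) (nat_lit 2)) (.cons (.ev (nat_lit 340282366921249162121454390172150989057) (nat_lit 1)) .nil))) (.cons (.br (nat_lit 11) (nat_lit 0) (.cons (.br (nat_lit 16) (nat_lit 0) (.cons (.ev (nat_lit 1363819098295338560098111292152578572291) (nat_lit 3)) .nil)) (.cons (.ev (nat_lit 20520713065991957801582014235137) (nat_lit 2)) (.cons (.ev (nat_lit 87113615159835260933936959319414010806273) (nat_lit 1)) .nil)))) .nil))))) (.cons (.br (nat_lit 15) (nat_lit 0) (.cons (.br (nat_lit 11) (nat_lit 0) (.cons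 (.kr (nat_lit 20361637766184381787089481498880) (nat_lit 1334420292952935710425740219389050880) (nat_lit 1) (nat_lit 0)) (.cons (.br (nat_lit 14) (nat_lit 0) (.cons (.ev (nat_lit 10404955976228433287250360519360513) (nat_lit 2)) .nil)) .nil))) (.cons (.ev (nat_lit 20520713065991957801582014235137) (nat_lit 2)) (.cons (.br (nat_lit 10) (nat_lit 0) (.cons (.kr (nat_lit 20282410812577490038576425992192) (nat_lit 1329227996094400882725152129005125632) (nat_lit 10) (nat_lit 0)) (.cons (.br (nat_lit 11) (nat_lit 0) (.cons (.ev (nat_lit 10404955976228433287250360519360513) (nat_lit 2)) .nil)) .nil))) (.cons (.ev (nat_lit 341611615199132983006467641206559015168) (nat_lit 1)) .nil))))) (.cons (.br (nat_lit 11) (nat_lit 0) (.cons (.br (nat_lit 15) (nat_lit 0) (.cons (.kr (nat_lit 20282410812577490038576425992192) (nat_lit 1329227996094400882725152129005125632) (nat_lit 10) (nat_lit 0)) (.cons (.rf (nat_lit 405) (nat_lit 21173294312608411450181664)) (.cons (.ev (nat_lit 2658476353210020541232716677843517443) (nat_lit 2)) .nil)))) (.cons (.rf (nat_lit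 748) (nat_lit 677582165103132179601393696)) (.cons (.br (nat_lit 10) (nat_lit 0) (.cons (.br (nat_lit 16) (nat_lit 0) (.cons (.ev (nat_lit 340287559297334650555902048637527588865) (nat_lit 1)) .nil)) (.cons (.ev (nat_lit 341611615199132983006467922685830692865) (nat_lit 1)) (.cons (.ev (nat_lit 2658476353210020541232716677843517443) (nat_lit 2)) .nil)))) (.cons (.br (nat_lit 10) (nat_lit 0) (.cons (.ev (nat_lit 10404955976237914913704247195337217) (nat_lit 2)) (.cons (.ev (nat_lit 341611594995951546572981293648804118528) (nat_lit 1)) (.cons (.ev (nat_lit 87112285931760556131633793186670418329856) (nat_lit 1)) .nil)))) (.cons (.br (nat_lit 14) (nat_lit 0) (.cons (.br (nat_lit 15) (nat_lit 0) (.cons (.ev (nat_lit 340287559297334650555902048637527588865) (nat_lit 1)) .nil)) (.cons (.rf (nat_lit 588) (nat_lit 21158907118545064505119779)) (.cons (.ev (nat_lit 340287559297334645815088821694189601025) (nat_lit 1)) .nil)))) .nil)))))) .nil))))))) .nil)))))))),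
 (.br (nat_lit 11) (nat_lit 0) (.cons (.ev (nat_lit 20520713075399797279173919113217) (nat_lit 2)) (.cons (.br (nat_lit 14) (nat_lit 0) (.cons (.ev (nat_lit 2668861105380997336342183213732463107) (nat_lit 2)) (.cons (.ev (nat_lit 87112291144339825479057286442227123355648) (nat_lit 1)) .nil))) (.cons (.br (nat_lit 16) (nat_lit 0) (.cons (.ev (nat_lit 340282366921249157417534369896926871553) (nat_lit 1)) (.cons (.ev (nat_lit 2658476353210020541233279636386873857) (nat_lit 2)) (.cons (.zr (nat_lit 2041694262372866845290176610804481523712) (nat_lit 174224571863758177795013032543113852224513) (nat_lit 16) (nat_lit 17)) .nil)))) (.cons (.br (nat_lit 15) (nat_lit 0) (.cons (.ev (nat_lit 348449174901185020759962466335185749147653) (nat_lit 3)) (.cons (.ev (nat_lit 2658476353210020541233279636386873857) (nat_lit 2)) .nil))) .nil))))),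
 (.br (nat_lit 10) (nat_lit 0) (.cons (.rf (nat_lit 763) (nat_lit 677422749637774166819083299)) (.cons (.kr (nat_lit 79229371440083952222718656512) (nat_lit 1329227996094400882725152129005125632) (nat_lit 10) (nat_lit 0)) (.cons (.br (nat_lit 14) (nat_lit 0) (.cons (.kr (nat_lit 10384593719487507040405439100485633) (nat_lit 20361637770906748269963421680128) (nat_lit 0) (nat_lit 2)) (.cons (.ev (nat_lit 340282366921249157417534369896926871553) (nat_lit 1)) (.cons (.br (nat_lit 15) (nat_lit 0) (.cons (.ev (nat_lit 2658476353210020541232716677843517443) (nat_lit 2)) .nil)) .nil)))) (.cons (.br (nat_lit 14) (nat_lit 0) (.cons (.ev (nat_lit 348457129500447043731548845064888262852611) (nat_lit 3)) (.cons (.ev (nat_lit 87112291124136644037919880074394144342273) (nat_lit 1)) .nil))) .nil))))),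
 (.br (nat_lit 10) (nat_lit 0) (.cons (.kr (nat_lit 2658455992188801783897329806696513537) (nat_lit 20361640188739940473673101606912) (nat_lit 0) (nat_lit 1)) (.cons (.ev (nat_lit 2658476353210029949072757228291751937) (nat_lit 2)) (.cons (.br (nat_lit 14) (nat_lit 0) (.cons (.kr (nat_lit 10384593719487507040405439100485633) (nat_lit 20361637770906748269963421680128) (nat_lit 0) (nat_lit 2)) (.cons (.ev (nat_lit 341611594995951541869061836332123357440) (nat_lit 1)) (.cons (.rf (nat_lit 748) (nat_lit 677422749637774166819083299)) .nil)))) (.cons (.br (nat_lit 11) (nat_lit 0) (.cons (.ev (nat_lit 348457129500447043712585593283031863394311) (nat_lit 3)) (.cons (.ev (nat_lit 20520713065991957801582014235137) (nat_lit 2)) .nil))) .nil))))),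
 (.br (nat_lit 11) (nat_lit 0) (.cons (.br (nat_lit 16) (nat_lit 0) (.cons (.ev (nat_lit 340282366921249157417534369896926871553) (nat_lit 1)) (.cons (.ev (nat_lit 2658476353210020541232716677843517443) (nat_lit 2)) (.cons (.zr (nat_lit 2041694262372866845290176610804481523712) (nat_lit 174224571863758177795013032543113852224513) (nat_lit 16) (nat_lit 17)) .nil)))) (.cons (.rf (nat_lit 765) (nat_lit 677422749637774166819083299)) (.cons (.ev (nat_lit 20520713065991957801582014235137) (nat_lit 2)) (.cons (.br (nat_lit 10) (nat_lit 0) (.cons (.ev (nat_lit 10404955976237914913704247195337217) (nat_lit 2)) (.cons (.ev (nat_lit 340282366921249162121454108692879311105) (nat_lit 1)) (.cons (.rf (nat_lit 410) (nat_lit 21174437975838084330260512)) .nil)))) (.cons (.ev (nat_lit 87112285952122193902540541175154551554305) (nat_lit 1)) .nil)))))),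
 (.br (nat_lit 9) (nat_lit 0) (.cons (.br (nat_lit 12) (nat_lit 0) (.cons (.br (nat_lit 13) (nat_lit 0) (.cons (.kr (nat_lit 79228162532711363142230212609) (nat_lit 20282409608374036906821208244224) (nat_lit 0) (nat_lit 1)) .nil)) .nil)) (.cons (.br (nat_lit 11) (nat_lit 1) (.cons (.br (nat_lit 13) (nat_lit 0) (.cons (.br (nat_lit 1) (nat_lit 0) (.cons (.kr (nat_lit 1) (nat_lit 256) (nat_lit 0) (nat_lit 2)) (.cons (.kr (nat_lit 256) (nat_lit 16777216) (nat_lit 1) (nat_lit 0)) (.cons (.rf (nat_lit 708) (nat_lit 583706118939841765935136)) (.cons (.br (nat_lit 2) (nat_lit 0) (.cons (.br (nat_lit 7) (nat_lit 0) (.cons (.ev (nat_lit 20838247132328426499293321496067) (nat_lit 3)) (.cons (.br (nat_lit 11) (nat_lit 0) (.cons (.ev (nat_lit 20838247113365174717436922037767) (nat_lit 3)) (.cons (.br (nat_lit 15) (nat_lit 0) (.cons (.ev (nat_lit 1334420452028244925841513774441300482) (nat_lit 2)) (.cons (.rf (nat_lit 1) (nat_lit 582172326302785)) .nil))) .nil))) (.cons (.rf (nat_lit 709) (nat_lit 583706118939841765935136)) (.cons (.br (nat_lit 11) (nat_lit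 0) (.cons (.rf (nat_lit 709) (nat_lit 424290653581828983624739)) (.cons (.br (nat_lit 14) (nat_lit 0) (.cons (.ev (nat_lit 1334420452028230814082015915969348097) (nat_lit 2)) (.cons (.rf (nat_lit 1) (nat_lit 582139170329665)) .nil))) (.cons (.ev (nat_lit 20838247132328427625210408206855) (nat_lit 3)) (.cons (.br (nat_lit 14) (nat_lit 0) (.cons (.ev (nat_lit 5337702007587830794260701783454515715) (nat_lit 3)) (.cons (.br (nat_lit 15) (nat_lit 0) (.cons (.ev (nat_lit 5337702007587811831007794009968346627) (nat_lit 3)) (.cons (.ev (nat_lit 8006542276573770158258338774353183749) (nat_lit 3)) .nil))) (.cons (.br (nat_lit 15) (nat_lit 0) (.cons (.ev (nat_lit 8006542276573770158258338774353183749) (nat_lit 3)) (.cons (.ev (nat_lit 5337702007587811831007794009968346627) (nat_lit 3)) .nil))) .nil)))) .nil))))) .nil))))) (.cons (.rf (nat_lit 710) (nat_lit 583706118939841765935136)) (.cons (.rf (nat_lit 711) (nat_lit 583706118939841765935136)) (.cons (.rf (nat_lit 712) (nat_lit 583706118939841765935136)) (.cons (.rf (nat_lit 713) (nat_lit 583706118939841765935136))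 (.cons (.br (nat_lit 5) (nat_lit 0) (.cons (.rf (nat_lit 712) (nat_lit 424290653581828983624739)) (.cons (.rf (nat_lit 713) (nat_lit 424290653581828983624739)) (.cons (.rf (nat_lit 710) (nat_lit 424290653581828983624739)) (.cons (.rf (nat_lit 711) (nat_lit 424290653581828983624739)) (.cons (.br (nat_lit 7) (nat_lit 0) (.cons (.rf (nat_lit 714) (nat_lit 19926519232773908561233952)) (.cons (.br (nat_lit 11) (nat_lit 0) (.cons (.ev (nat_lit 8006542276578634306416726307737174023) (nat_lit 3)) (.cons (.ev (nat_lit 1361129489157073935521103155140816929289) (nat_lit 4)) (.cons (.br (nat_lit 15) (nat_lit 0) (.cons (.ev (nat_lit 4094063786863248514160465973452437065221) (nat_lit 4)) (.cons (.ev (nat_lit 1334420452028244925841513774441300482) (nat_lit 2)) .nil))) .nil)))) (.cons (.rf (nat_lit 715) (nat_lit 19926519232773908561233952)) (.cons (.rf (nat_lit 716) (nat_lit 19926519232773908561233952)) (.cons (.br (nat_lit 14) (nat_lit 0) (.cons (.rf (nat_lit 715) (nat_lit 19767103767415895778923555)) (.cons (.rf (nat_lit 714) (nat_lit 19767103767415895778923555))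 (.cons (.rf (nat_lit 716) (nat_lit 19767103767415895778923555)) (.cons (.br (nat_lit 11) (nat_lit 0) (.cons (.ev (nat_lit 1334420452028230814082015915969348097) (nat_lit 2)) (.cons (.br (nat_lit 15) (nat_lit 0) (.cons (.ev (nat_lit 4094063786863253330974279630754081802761) (nat_lit 4)) .nil)) (.cons (.br (nat_lit 15) (nat_lit 0) (.cons (.ev (nat_lit 1361129489157069081075933839237006624269) (nat_lit 4)) .nil)) .nil)))) .nil))))) .nil)))))) (.cons (.br (nat_lit 7) (nat_lit 0) (.cons (.rf (nat_lit 717) (nat_lit 677582165103132179601393696)) (.cons (.br (nat_lit 11) (nat_lit 0) (.cons (.ev (nat_lit 2668861107237935840582523817537045507) (nat_lit 3)) (.cons (.br (nat_lit 15) (nat_lit 0) (.cons (.ev (nat_lit 340282366921247953214081237042197430528) (nat_lit 1)) (.cons (.br (nat_lit 16) (nat_lit 0) (.cons (.zr (nat_lit 1361129610056764309930386037181536928259) (nat_lit 8006521757717618984921768610926428160) (nat_lit 16) (nat_lit 2)) .nil)) .nil))) (.cons (.br (nat_lit 15) (nat_lit 0) (.cons (.br (nat_lit 16) (nat_lit 0) (.cons (.zr (nat_lit 1361129569650401427692467352612951425541)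 (nat_lit 8006521757717628429654171400296988672) (nat_lit 16) (nat_lit 2)) .nil)) (.cons (.ev (nat_lit 87112285952122193897799727948211213566208) (nat_lit 1)) .nil))) .nil)))) (.cons (.rf (nat_lit 718) (nat_lit 677582165103132179601393696)) (.cons (.rf (nat_lit 719) (nat_lit 677582165103132179601393696)) (.cons (.br (nat_lit 14) (nat_lit 0) (.cons (.rf (nat_lit 718) (nat_lit 639946049229720662403191843)) (.cons (.rf (nat_lit 717) (nat_lit 639946049229720662403191843)) (.cons (.br (nat_lit 16) (nat_lit 0) (.cons (.br (nat_lit 15) (nat_lit 0) (.cons (.ev (nat_lit 8006542276573770158258338774353183749) (nat_lit 3)) .nil)) (.cons (.br (nat_lit 11) (nat_lit 0) (.cons (.ev (nat_lit 2668861107242762062235095804217131013) (nat_lit 3)) .nil)) (.cons (.kr (nat_lit 174224571883802902896917916454561261813763) (nat_lit 680564733921105094163380035331070885888) (nat_lit 0) (nat_lit 1)) .nil)))) (.cons (.rf (nat_lit 719) (nat_lit 639946049229720662403191843)) .nil))))) .nil)))))) .nil))))))) .nil))))))) (.cons (.rf (nat_lit 727) (nat_lit 583706118939841765935136))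 (.cons (.rf (nat_lit 708) (nat_lit 424290653581828983624739)) (.cons (.rf (nat_lit 727) (nat_lit 424290653581828983624739)) (.cons (.br (nat_lit 2) (nat_lit 0) (.cons (.br (nat_lit 7) (nat_lit 0) (.cons (.rf (nat_lit 729) (nat_lit 19926519232773908561233952)) (.cons (.rf (nat_lit 730) (nat_lit 19926519232773908561233952)) (.cons (.br (nat_lit 10) (nat_lit 0) (.cons (.ev (nat_lit 20520713075399797279173919113217) (nat_lit 2)) (.cons (.ev (nat_lit 2668861105380997336341620272368975873) (nat_lit 2)) (.cons (.rf (nat_lit 731) (nat_lit 19926519232773908561233952)) (.cons (.br (nat_lit 11) (nat_lit 0) (.cons (.rf (nat_lit 1) (nat_lit 582001724930274)) (.cons (.rf (nat_lit 732) (nat_lit 677582165103132179601393696)) (.cons (.rf (nat_lit 733) (nat_lit 677582165103132179601393696)) .nil)))) .nil))))) (.cons (.rf (nat_lit 735) (nat_lit 19926519232773908561233952)) (.cons (.rf (nat_lit 737) (nat_lit 19926519232773908561233952)) (.cons (.br (nat_lit 14) (nat_lit 0) (.cons (.rf (nat_lit 729) (nat_lit 19767103767415895778923555)) (.cons (.rf (nat_lit 735)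 (nat_lit 19767103767415895778923555)) (.cons (.rf (nat_lit 730) (nat_lit 19767103767415895778923555)) (.cons (.rf (nat_lit 737) (nat_lit 19767103767415895778923555)) (.cons (.br (nat_lit 10) (nat_lit 0) (.cons (.rf (nat_lit 738) (nat_lit 677582165103132179601393696)) (.cons (.rf (nat_lit 738) (nat_lit 677422749637774166819083299)) (.cons (.br (nat_lit 11) (nat_lit 0) (.cons (.rf (nat_lit 258) (nat_lit 20678014414598067958818)) (.cons (.ev (nat_lit 5192535163201371441097480364622082) (nat_lit 2)) (.cons (.rf (nat_lit 549) (nat_lit 20666459516199231754274)) .nil)))) (.cons (.br (nat_lit 11) (nat_lit 0) (.cons (.ev (nat_lit 10404955976228433287250360519360513) (nat_lit 2)) (.cons (.br (nat_lit 15) (nat_lit 0) (.cons (.ev (nat_lit 1369115241089806153721841139437835387909) (nat_lit 3)) .nil)) .nil))) .nil))))) .nil)))))) .nil))))))) (.cons (.rf (nat_lit 743) (nat_lit 19926519232773908561233952)) (.cons (.rf (nat_lit 749) (nat_lit 19926519232773908561233952)) (.cons (.rf (nat_lit 753) (nat_lit 19926519232773908561233952)) (.cons (.rf (nat_lit 755)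 (nat_lit 19926519232773908561233952)) (.cons (.rf (nat_lit 758) (nat_lit 19926519232773908561233952)) (.cons (.rf (nat_lit 762) (nat_lit 19926519232773908561233952)) (.cons (.br (nat_lit 5) (nat_lit 0) (.cons (.rf (nat_lit 755) (nat_lit 19767103767415895778923555)) (.cons (.rf (nat_lit 749) (nat_lit 19767103767415895778923555)) (.cons (.rf (nat_lit 758) (nat_lit 19767103767415895778923555)) (.cons (.rf (nat_lit 743) (nat_lit 19767103767415895778923555)) (.cons (.rf (nat_lit 753) (nat_lit 19767103767415895778923555)) (.cons (.rf (nat_lit 762) (nat_lit 19767103767415895778923555)) (.cons (.br (nat_lit 7) (nat_lit 0) (.cons (.rf (nat_lit 763) (nat_lit 677582165103132179601393696)) (.cons (.rf (nat_lit 764) (nat_lit 677582165103132179601393696)) (.cons (.br (nat_lit 10) (nat_lit 0) (.cons (.ev (nat_lit 20520713075399797279173919113217) (nat_lit 2)) (.cons (.ev (nat_lit 2668861105380997336341620272368975873) (nat_lit 2)) (.cons (.rf (nat_lit 731) (nat_lit 19926519232773908561233952)) (.cons (.br (nat_lit 11) (nat_lit 0) (.cons (.ev (nat_lit 348457129500447043731548845064888262852611)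 (nat_lit 3)) (.cons (.ev (nat_lit 87112291124136644037919880074394144342273) (nat_lit 1)) .nil))) .nil))))) (.cons (.rf (nat_lit 765) (nat_lit 677582165103132179601393696)) (.cons (.rf (nat_lit 766) (nat_lit 677582165103132179601393696)) (.cons (.br (nat_lit 14) (nat_lit 0) (.cons (.rf (nat_lit 763) (nat_lit 677422749637774166819083299)) (.cons (.rf (nat_lit 748) (nat_lit 677582165103132179601393696)) (.cons (.rf (nat_lit 764) (nat_lit 677422749637774166819083299)) (.cons (.rf (nat_lit 766) (nat_lit 677422749637774166819083299)) .nil))))) .nil))))))) .nil)))))))) .nil))))))))) .nil))))))))) .nil)) (.cons (.br (nat_lit 12) (nat_lit 0) (.cons (.kr (nat_lit 79228162532711363142230212609) (nat_lit 20282409608374036906821208244224) (nat_lit 0) (nat_lit 1)) .nil)) .nil))) .nil)))]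

theorem c41 : chkAll C T R L41 (nat_lit 756) = true := by decide +kernel

theorem l41 : (nat_lit 756) + L41.length = (nat_lit 768) := by decide +kernel

/-- part of the certificates -/
def L42 : List Prf := [(.br (nat_lit 2) (nat_lit 1) (.cons (.kr (nat_lit 1) (nat_lit 16777216) (nat_lit 0) (nat_lit 1)) (.cons (.br (nat_lit 3) (nat_lit 0) (.cons (.br (nat_lit 4) (nat_lit 1) (.cons (.br (nat_lit 4) (nat_lit 0) (.cons (.rf (nat_lit 227) (nat_lit 6614517792)) (.cons (.br (nat_lit 5) (nat_lit 1) (.cons (.br (nat_lit 6) (nat_lit 0) (.cons (.kr (nat_lit 281474976710657) (nat_lit 4311744512) (nat_lit 0) (nat_lit 1)) (.cons (.br (nat_lit 7) (nat_lit 1) (.cons (.br (nat_lit 9) (nat_lit 1) (.cons (.br (nat_lit 9) (nat_lit 0) (.cons (.br (nat_lit 10) (nat_lit 0) (.cons (.br (nat_lit 10) (nat_lit 0) (.cons (.br (nat_lit 11) (nat_lit 1) (.cons (.br (nat_lit 13) (nat_lit 1) (.cons (.rf (nat_lit 229) (nat_lit 17022140995484340291616)) .nil)) .nil)) .nil)) .nil)) (.cons (.br (nat_lit 8) (nat_lit 1) (.cons (.br (nat_lit 10) (nat_lit 0) (.cons (.kr (nat_lit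 4722366764344621924353) (nat_lit 1208925819614633486450688) (nat_lit 0) (nat_lit 1)) (.cons (.br (nat_lit 11) (nat_lit 1) (.cons (.br (nat_lit 13) (nat_lit 1) (.cons (.br (nat_lit 12) (nat_lit 1) (.cons (.rf (nat_lit 230) (nat_lit 17022140995484340291616)) (.cons (.br (nat_lit 13) (nat_lit 0) (.cons (.br (nat_lit 14) (nat_lit 0) (.cons (.kr (nat_lit 5192296858539549995294840951144449) (nat_lit 20282410812577490038580737736704) (nat_lit 0) (nat_lit 1)) .nil)) .nil)) .nil))) .nil)) .nil)) .nil))) (.cons (.br (nat_lit 12) (nat_lit 1) (.cons (.br (nat_lit 10) (nat_lit 0) (.cons (.rf (nat_lit 231) (nat_lit 493858305440582043680)) (.cons (.br (nat_lit 10) (nat_lit 0) (.cons (.rf (nat_lit 231) (nat_lit 493858305440582043680)) (.cons (.br (nat_lit 11) (nat_lit 1) (.cons (.br (nat_lit 14) (nat_lit 1) (.cons (.br (nat_lit 13) (nat_lit 0) (.cons (.kr (nat_lit 20282409608374037188291873210369) (nat_lit 79229371440083952227030401024) (nat_lit 0) (nat_lit 1)) .nil)) .nil)) (.cons (.br (nat_lit 12) (nat_lit 0) (.cons (.rf (nat_lit 315) (nat_lit 583706118939841765935136))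 (.cons (.rf (nat_lit 315) (nat_lit 547107778697602015528992)) .nil))) .nil))) .nil))) .nil))) .nil)) .nil))) .nil))) .nil)) .nil)) .nil))) (.cons (.br (nat_lit 8) (nat_lit 1) (.cons (.br (nat_lit 6) (nat_lit 0) (.cons (.rf (nat_lit 344) (nat_lit 325702574508064)) (.cons (.br (nat_lit 6) (nat_lit 0) (.cons (.rf (nat_lit 344) (nat_lit 325702574508064)) (.cons (.br (nat_lit 7) (nat_lit 1) (.cons (.br (nat_lit 10) (nat_lit 1) (.cons (.rf (nat_lit 345) (nat_lit 407901468851537952)) (.cons (.br (nat_lit 12) (nat_lit 1) (.cons (.br (nat_lit 9) (nat_lit 0) (.cons (.rf (nat_lit 345) (nat_lit 372998571739416608)) (.cons (.br (nat_lit 9) (nat_lit 0) (.cons (.rf (nat_lit 345) (nat_lit 372998571739416608)) (.cons (.br (nat_lit 11) (nat_lit 1) (.cons (.br (nat_lit 14) (nat_lit 1) (.cons (.br (nat_lit 13) (nat_lit 0) (.cons (.kr (nat_lit 20282409603670117449495937548289) (nat_lit 79228167236630820467500908544) (nat_lit 0) (nat_lit 1)) .nil)) .nil)) (.cons (.br (nat_lit 12) (nat_lit 0) (.cons (.rf (nat_lit 413) (nat_lit 583706118939841765935136)) (.cons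 (.rf (nat_lit 413) (nat_lit 547107778697602015528992)) .nil))) .nil))) .nil))) .nil))) .nil)) .nil))) (.cons (.rf (nat_lit 651) (nat_lit 253034852520995)) (.cons (.br (nat_lit 12) (nat_lit 1) (.cons (.br (nat_lit 8) (nat_lit 0) (.cons (.rf (nat_lit 651) (nat_lit 362020817963040)) (.cons (.rf (nat_lit 651) (nat_lit 397205190051872)) (.cons (.br (nat_lit 14) (nat_lit 1) (.cons (.rf (nat_lit 344) (nat_lit 215995054560291)) (.cons (.br (nat_lit 10) (nat_lit 1) (.cons (.rf (nat_lit 707) (nat_lit 17022140995484340291616)) (.cons (.br (nat_lit 11) (nat_lit 1) (.cons (.rf (nat_lit 707) (nat_lit 17022106092587228170272)) (.cons (.rf (nat_lit 228) (nat_lit 11117989550148364109856)) .nil))) .nil))) (.cons (.br (nat_lit 9) (nat_lit 0) (.cons (.rf (nat_lit 767) (nat_lit 17022140995484340291616)) (.cons (.rf (nat_lit 767) (nat_lit 17022106092587228170272)) (.cons (.br (nat_lit 9) (nat_lit 0) (.cons (.rf (nat_lit 767) (nat_lit 17022140995484340291616)) (.cons (.rf (nat_lit 767) (nat_lit 17022106092587228170272)) .nil))) .nil)))) .nil)))) .nil)))) .nil))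 .nil)))) .nil))) .nil))) .nil)) .nil))) .nil))) .nil)) .nil)) .nil))),
 (.br (nat_lit 10) (nat_lit 0) (.cons (.br (nat_lit 12) (nat_lit 0) (.cons (.rf (nat_lit 228) (nat_lit 15497607331716856454339)) (.cons (.br (nat_lit 15) (nat_lit 1) (.cons (.rf (nat_lit 768) (nat_lit 437740)) .nil)) .nil))) .nil)),
 (.br (nat_lit 7) (nat_lit 0) (.cons (.ev (nat_lit 20362260367722440385082379207171) (nat_lit 2)) (.cons (.br (nat_lit 8) (nat_lit 0) (.cons (.ev (nat_lit 20362257959315534119355707162627) (nat_lit 2)) (.cons (.br (nat_lit 15) (nat_lit 0) (.cons (.ev (nat_lit 8006542593487638604314174654708450817) (nat_lit 3)) (.cons (.rf (nat_lit 1) (nat_lit 582172323032129)) .nil))) .nil))) (.cons (.br (nat_lit 8) (nat_lit 0) (.cons (.ev (nat_lit 20362257959315534119355707162627) (nat_lit 2)) (.cons (.br (nat_lit 14) (nat_lit 0) (.cons (.ev (nat_lit 2668861424159038915196623466141188613) (nat_lit 3)) (.cons (.rf (nat_lit 1) (nat_lit 582139037035585)) .nil))) .nil))) (.cons (.br (nat_lit 8) (nat_lit 0) (.cons (.br (nat_lit 15) (nat_lit 0) (.cons (.ev (nat_lit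 8006542593487638604314176879467955715) (nat_lit 3)) (.cons (.rf (nat_lit 1) (nat_lit 582172355537985)) .nil))) (.cons (.br (nat_lit 14) (nat_lit 0) (.cons (.ev (nat_lit 2668861424159038915196630037474705923) (nat_lit 3)) (.cons (.rf (nat_lit 1) (nat_lit 582139069541441)) .nil))) (.cons (.ev (nat_lit 20362260367722440382874732462593) (nat_lit 2)) (.cons (.br (nat_lit 14) (nat_lit 0) (.cons (.ev (nat_lit 2668860946928299066824766714064011777) (nat_lit 2)) (.cons (.br (nat_lit 15) (nat_lit 0) (.cons (.ev (nat_lit 2668860946925890659918503194971340803) (nat_lit 2)) (.cons (.ev (nat_lit 1334420293575546730111071362031419651) (nat_lit 2)) .nil))) (.cons (.br (nat_lit 15) (nat_lit 0) (.cons (.ev (nat_lit 1334420293575546730111071362031419651) (nat_lit 2)) (.cons (.ev (nat_lit 2668860946925890659918503194971340803) (nat_lit 2)) .nil))) .nil)))) .nil))))) .nil))))),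
 (.br (nat_lit 14) (nat_lit 0) (.cons (.ev (nat_lit 10405114433771813921483657331212801) (nat_lit 2)) (.cons (.ev (nat_lit 10405114433771813921481466864337411) (nat_lit 2)) (.cons (.kr (nat_lit 2658455992188801765450305361833623553) (nat_lit 20361638979814121421989568708608) (nat_lit 0) (nat_lit 1)) (.cons (.ev (nat_lit 10405114433771813921483657297526787) (nat_lit 2)) (.cons (.br (nat_lit 15) (nat_lit 0) (.cons (.kr (nat_lit 1329227996094400882725153228516753409) (nat_lit 20282409608374037188291873275904) (nat_lit 0) (nat_lit 1)) (.cons (.kr (nat_lit 20282409608374037188291873275904) (nat_lit 1329227996094400882725152133316870144) (nat_lit 2) (nat_lit 0)) (.cons (.kr (nat_lit 1329227996094400882725153232828497921) (nat_lit 20282409608374037469766850052096) (nat_lit 0) (nat_lit 1)) (.cons (.ev (nat_lit 2668860946925890659918503194971340803) (nat_lit 2)) .nil))))) .nil)))))),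
 (.br (nat_lit 15) (nat_lit 0) (.cons (.ev (nat_lit 2668860946925890659918503195005026817) (nat_lit 2)) (.cons (.ev (nat_lit 2668860946925890659918501004538151427) (nat_lit 2)) (.cons (.ev (nat_lit 2668860946925890659918503194971340803) (nat_lit 2)) (.cons (.ev (nat_lit 1339612828118564322609725666593210882) (nat_lit 2)) .nil))))),
 (.br (nat_lit 14) (nat_lit 0) (.cons (.ev (nat_lit 10405114433771813921481466897760257) (nat_lit 2)) (.cons (.kr (nat_lit 2658455992188801765450305357521879041) (nat_lit 20361638979814120859043926900736) (nat_lit 0) (nat_lit 1)) (.cons (.ev (nat_lit 10405114433771813921483657331212801) (nat_lit 2)) (.cons (.br (nat_lit 15) (nat_lit 0) (.cons (.kr (nat_lit 20282409608374036906816896499712) (nat_lit 1329227996094400882725152129005125632) (nat_lit 9) (nat_lit 0)) (.cons (.kr (nat_lit 1329227996094400882725153228516753409) (nat_lit 20282409608374037188291873275904) (nat_lit 0) (nat_lit 1)) (.cons (.ev (nat_lit 2668860946925890659918503194971340803) (nat_lit 2)) .nil)))) .nil))))),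
 (.br (nat_lit 11) (nat_lit 0) (.cons (.ev (nat_lit 10405114433771813921481466897760257) (nat_lit 2)) (.cons (.ev (nat_lit 2679245859419773986078677147249016839) (nat_lit 3)) (.cons (.ev (nat_lit 10405114433771813921483657331212801) (nat_lit 2)) (.cons (.br (nat_lit 15) (nat_lit 0) (.cons (.ev (nat_lit 2668860946925890659918501004571574273) (nat_lit 2)) (.cons (.ev (nat_lit 2668860946925890659918503195005026817) (nat_lit 2)) (.cons (.ev (nat_lit 1339612828118564322609725666559524864) (nat_lit 2)) .nil)))) .nil))))),
 (.br (nat_lit 11) (nat_lit 0) (.cons (.kr (nat_lit 20282409608374036906816896499712) (nat_lit 1329227996094400882725152129005125632) (nat_lit 9) (nat_lit 0)) (.cons (.kr (nat_lit 2658455992188801765450305357521879041) (nat_lit 20361638979814120859043926900736) (nat_lit 0) (nat_lit 1)) (.cons (.kr (nat_lit 1329227996094400882725153228516753409) (nat_lit 20282409608374037188291873275904) (nat_lit 0) (nat_lit 1)) (.cons (.br (nat_lit 14) (nat_lit 0) (.cons (.ev (nat_lit 2668860946925890659918501004571574273) (nat_lit 2)) (.cons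 (.ev (nat_lit 2668860946925890659918503195005026817) (nat_lit 2)) (.cons (.ev (nat_lit 10405114433771813921483657297526787) (nat_lit 2)) .nil)))) .nil))))),
 (.br (nat_lit 8) (nat_lit 0) (.cons (.rf (nat_lit 775) (nat_lit 19775253772033141179058212)) (.cons (.rf (nat_lit 774) (nat_lit 19775253772033141179058212)) (.cons (.rf (nat_lit 773) (nat_lit 19775253772033141179058212)) (.cons (.br (nat_lit 11) (nat_lit 0) (.cons (.ev (nat_lit 340282367000476111005979373236761198848) (nat_lit 1)) (.cons (.ev (nat_lit 1363787944038826857435546772681580085251) (nat_lit 3)) (.cons (.br (nat_lit 14) (nat_lit 0) (.cons (.ev (nat_lit 341611615278361150243098743149036634369) (nat_lit 1)) (.cons (.ev (nat_lit 10405114433771813921483657297526787) (nat_lit 2)) .nil))) .nil)))) (.cons (.br (nat_lit 16) (nat_lit 0) (.cons (.rf (nat_lit 771) (nat_lit 19926519232773908561233952)) (.cons (.br (nat_lit 11) (nat_lit 0) (.cons (.ev (nat_lit 2679245859419773986078677147316388867) (nat_lit 3)) (.cons (.ev (nat_lit 340282367000476111005979092861296050433) (nat_lit 1)) .nil)))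 (.cons (.rf (nat_lit 771) (nat_lit 19775253772033141179058212)) (.cons (.br (nat_lit 11) (nat_lit 0) (.cons (.ev (nat_lit 340282367000476111005979092861296050433) (nat_lit 1)) (.cons (.ev (nat_lit 1363787944038826857435546768266353443843) (nat_lit 3)) (.cons (.rf (nat_lit 293) (nat_lit 20002150883468414597339397)) .nil)))) .nil))))) .nil)))))),
 (.br (nat_lit 11) (nat_lit 0) (.cons (.ev (nat_lit 10405114433771813921483657331212801) (nat_lit 2)) (.cons (.ev (nat_lit 10405114433771813921481466864337411) (nat_lit 2)) (.cons (.ev (nat_lit 2679245859419773986078677147316388867) (nat_lit 3)) (.cons (.ev (nat_lit 10405114433771813921483657297526787) (nat_lit 2)) (.cons (.rf (nat_lit 772) (nat_lit 677582165103132179601393696)) .nil)))))),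
 (.br (nat_lit 2) (nat_lit 0) (.cons (.kr (nat_lit 281474976776192) (nat_lit 4311744512) (nat_lit 2) (nat_lit 0)) (.cons (.kr (nat_lit 1099511627777) (nat_lit 281474976776192) (nat_lit 0) (nat_lit 1)) (.cons (.rf (nat_lit 770) (nat_lit 583706118939841765935136)) (.cons (.kr (nat_lit 79229371440083953326542028801) (nat_lit 20282409608374037469766850052096) (nat_lit 0) (nat_lit 1)) (.cons (.rf (nat_lit 770) (nat_lit 432440658199074383759396)) (.cons (.br (nat_lit 7) (nat_lit 0) (.cons (.br (nat_lit 11) (nat_lit 0) (.cons (.br (nat_lit 15) (nat_lit 0) (.cons (.kr (nat_lit 2658455992188801765450305361833623553) (nat_lit 20361638979814121421989568708608) (nat_lit 0) (nat_lit 1)) (.cons (.rf (nat_lit 1) (nat_lit 582172450955489)) .nil))) (.cons (.br (nat_lit 14) (nat_lit 0) (.cons (.ev (nat_lit 2679245859419773986078677147316388867) (nat_lit 3)) (.cons (.rf (nat_lit 1) (nat_lit 582139164958945)) .nil))) (.cons (.rf (nat_lit 771) (nat_lit 19926519232773908561233952)) (.cons (.br (nat_lit 14) (nat_lit 0) (.cons (.rf (nat_lit 1) (nat_lit 582036186407137))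 (.cons (.rf (nat_lit 777) (nat_lit 19926519232773908561233952)) (.cons (.ev (nat_lit 10405114433771813921483657297526787) (nat_lit 2)) .nil)))) .nil))))) (.cons (.rf (nat_lit 773) (nat_lit 19926519232773908561233952)) (.cons (.rf (nat_lit 774) (nat_lit 19926519232773908561233952)) (.cons (.rf (nat_lit 775) (nat_lit 19926519232773908561233952)) (.cons (.rf (nat_lit 776) (nat_lit 19926519232773908561233952)) (.cons (.br (nat_lit 8) (nat_lit 0) (.cons (.rf (nat_lit 775) (nat_lit 19775253772033141179058212)) (.cons (.rf (nat_lit 774) (nat_lit 19775253772033141179058212)) (.cons (.rf (nat_lit 773) (nat_lit 19775253772033141179058212)) (.cons (.rf (nat_lit 776) (nat_lit 19775253772033141179058212)) (.cons (.br (nat_lit 16) (nat_lit 0) (.cons (.rf (nat_lit 771) (nat_lit 19926519232773908561233952)) (.cons (.rf (nat_lit 777) (nat_lit 19926519232773908561233952)) (.cons (.rf (nat_lit 771) (nat_lit 19775253772033141179058212)) (.cons (.br (nat_lit 16) (nat_lit 0) (.cons (.rf (nat_lit 771) (nat_lit 19926519232773908561233952)) (.cons (.rf (nat_lit 777)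 (nat_lit 19926519232773908561233952)) (.cons (.rf (nat_lit 771) (nat_lit 19775253772033141179058212)) .nil)))) .nil))))) .nil)))))) .nil))))))) .nil))))))),
 (.br (nat_lit 14) (nat_lit 0) (.cons (.ev (nat_lit 10404956598825323055137290837033987) (nat_lit 3)) (.cons (.br (nat_lit 15) (nat_lit 0) (.cons (.ev (nat_lit 2668860946925890659918503194971340803) (nat_lit 2)) (.cons (.rf (nat_lit 1) (nat_lit 582169074573377)) .nil))) .nil))),
 (.br (nat_lit 11) (nat_lit 0) (.cons (.kr (nat_lit 60926458196562195235627656544257) (nat_lit 2668840585905871457744969685692055552) (nat_lit 0) (nat_lit 1)) (.cons (.ev (nat_lit 20362260367722440945833275817987) (nat_lit 2)) (.cons (.br (nat_lit 15) (nat_lit 0) (.cons (.ev (nat_lit 2658476511665136625495315745125433347) (nat_lit 2)) (.cons (.rf (nat_lit 2) (nat_lit 19076484354216796225)) .nil))) .nil)))),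
 (.br (nat_lit 8) (nat_lit 0) (.cons (.ev (nat_lit 1339612828118564322610572303448146690) (nat_lit 2)) (.cons (.ev (nat_lit 20362260367722440945833275817987) (nat_lit 2)) (.cons (.br (nat_lit 14) (nat_lit 0) (.cons (.ev (nat_lit 10405114433771813922046615874437635) (nat_lit 2)) (.cons (.rf (nat_lit 2) (nat_lit 19068711944033905729)) .nil))) .nil)))),
 (.br (nat_lit 11) (nat_lit 0) (.cons (.kr (nat_lit 60926458196562195235627656544257) (nat_lit 2668840585905871457744969685692055552) (nat_lit 0) (nat_lit 1)) (.cons (.ev (nat_lit 20362260367722440382874766017027) (nat_lit 2)) (.cons (.br (nat_lit 15) (nat_lit 0) (.cons (.ev (nat_lit 2658476511665136625494752786615632387) (nat_lit 2)) (.cons (.rf (nat_lit 465) (nat_lit 21163289106243807834677709)) .nil))) .nil)))),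
 (.br (nat_lit 8) (nat_lit 0) (.cons (.ev (nat_lit 1339612828118564322610009344871235842) (nat_lit 2)) (.cons (.ev (nat_lit 20362260367722440382874766017027) (nat_lit 2)) (.cons (.br (nat_lit 14) (nat_lit 0) (.cons (.ev (nat_lit 10405114433771813921483657297526787) (nat_lit 2)) (.cons (.rf (nat_lit 203) (nat_lit 646157771131823660070)) .nil))) .nil)))),
 (.br (nat_lit 11) (nat_lit 0) (.cons (.ev (nat_lit 5192376708089991097676458071621633) (nat_lit 2)) (.cons (.ev (nat_lit 20362260367722440382874732593153) (nat_lit 2)) (.cons (.br (nat_lit 15) (nat_lit 0) (.cons (.ev (nat_lit 2658476511665136625494752786582208513) (nat_lit 2)) (.cons (.rf (nat_lit 2) (nat_lit 19076484354212602049)) .nil))) .nil)))),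
 (.br (nat_lit 8) (nat_lit 0) (.cons (.ev (nat_lit 16002679280883704827414088041476915717) (nat_lit 4)) (.cons (.ev (nat_lit 20362260367722440382874732593153) (nat_lit 2)) (.cons (.br (nat_lit 14) (nat_lit 0) (.cons (.ev (nat_lit 10405114433771813921483657331212801) (nat_lit 2)) (.cons (.rf (nat_lit 2) (nat_lit 19068711944029711553)) .nil))) .nil)))),
 (.br (nat_lit 11) (nat_lit 0) (.cons (.ev (nat_lit 5192376708089991097676458105045507) (nat_lit 2)) (.cons (.ev (nat_lit 20362260367722440382874766017027) (nat_lit 2)) (.cons (.br (nat_lit 15) (nat_lit 0) (.cons (.ev (nat_lit 2658476511665136625494752786615632387) (nat_lit 2)) (.cons (.rf (nat_lit 569) (nat_lit 661553315480928758700293)) .nil))) .nil)))),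
 (.br (nat_lit 8) (nat_lit 0) (.cons (.ev (nat_lit 15981910410367051499463655573225737737) (nat_lit 4)) (.cons (.ev (nat_lit 20362260367722440382874766017027) (nat_lit 2)) (.cons (.br (nat_lit 14) (nat_lit 0) (.cons (.ev (nat_lit 10405114433771813921483657297526787) (nat_lit 2)) (.cons (.rf (nat_lit 203) (nat_lit 646157771131823791138)) .nil))) .nil))))]

theorem c42 : chkAll C T R L42 (nat_lit 768) = true := by decide +kernel

theorem l42 : (nat_lit 768) + L42.length = (nat_lit 788) := by decide +kernel

/-- part of the certificates -/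
def L43 : List Prf := [(.br (nat_lit 14) (nat_lit 0) (.cons (.ev (nat_lit 2668860946925890659919063945901637633) (nat_lit 2)) (.cons (.ev (nat_lit 2668860946925890659918501004571574273) (nat_lit 2)) (.cons (.ev (nat_lit 341616787292811290326357662655246827520) (nat_lit 1)) (.cons (.ev (nat_lit 10405114433771813921483657297526787) (nat_lit 2)) .nil))))),
 (.br (nat_lit 17) (nat_lit 0) (.cons (.ev (nat_lit 20362260367722440382874766017027) (nat_lit 2)) (.cons (.ev (nat_lit 2658476511665136625494752786615632387) (nat_lit 2)) (.cons (.br (nat_lit 11) (nat_lit 0) (.cons (.ev (nat_lit 4096753396636584869762017294696850391567) (nat_lit 4)) .nil)) .nil)))),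
 (.br (nat_lit 2) (nat_lit 0) (.cons (.kr (nat_lit 281474976710912) (nat_lit 4311744512) (nat_lit 1) (nat_lit 0)) (.cons (.br (nat_lit 6) (nat_lit 0) (.cons (.rf (nat_lit 779) (nat_lit 583706118939841765935136)) (.cons (.br (nat_lit 11) (nat_lit 0) (.cons (.ev (nat_lit 31174460943225099111073146407880195) (nat_lit 3)) (.cons (.br (nat_lit 15) (nat_lit 0) (.cons (.ev (nat_lit 1339612828118564322609727874172846592) (nat_lit 2)) (.cons (.rf (nat_lit 1) (nat_lit 582172292653121)) .nil))) .nil))) (.cons (.rf (nat_lit 779) (nat_lit 432440658199074383758404)) (.cons (.br (nat_lit 16) (nat_lit 0) (.cons (.ev (nat_lit 20362260367722440945833275817987) (nat_lit 2)) (.cons (.rf (nat_lit 780) (nat_lit 19926519232773908561233952)) (.cons (.ev (nat_lit 2658476511665136625495315745125433347) (nat_lit 2)) (.cons (.br (nat_lit 16) (nat_lit 0) (.cons (.ev (nat_lit 20362260367722440945833275817987) (nat_lit 2)) (.cons (.rf (nat_lit 780) (nat_lit 19926519232773908561233952)) (.cons (.ev (nat_lit 2658476511665136625495315745125433347) (nat_lit 2)) .nil)))) .nil)))))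 .nil))))) (.cons (.br (nat_lit 6) (nat_lit 0) (.cons (.br (nat_lit 14) (nat_lit 0) (.cons (.kr (nat_lit 1329227996094400882725433603981836544) (nat_lit 5192296858534846147332164076765184) (nat_lit 1) (nat_lit 0)) (.cons (.br (nat_lit 15) (nat_lit 0) (.cons (.ev (nat_lit 2668860946925890659918503194971340803) (nat_lit 2)) (.cons (.rf (nat_lit 1) (nat_lit 582165853350977)) .nil))) .nil))) (.cons (.br (nat_lit 8) (nat_lit 0) (.cons (.kr (nat_lit 1329227996094400882725433603981836544) (nat_lit 5192296858534846147332164076765184) (nat_lit 1) (nat_lit 0)) (.cons (.br (nat_lit 15) (nat_lit 0) (.cons (.ev (nat_lit 2658476511665136625494752786615632387) (nat_lit 2)) (.cons (.rf (nat_lit 1) (nat_lit 582172289510465)) .nil))) .nil))) (.cons (.br (nat_lit 8) (nat_lit 0) (.cons (.ev (nat_lit 72713153962131669491936533625700869) (nat_lit 4)) (.cons (.br (nat_lit 14) (nat_lit 0) (.cons (.ev (nat_lit 18671520817532399938543126870116663301) (nat_lit 4)) (.cons (.rf (nat_lit 1) (nat_lit 582139003513921)) .nil))) .nil))) (.cons (.br (nat_lit 16) (nat_lit 0)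 (.cons (.ev (nat_lit 20362260367722440945833275817987) (nat_lit 2)) (.cons (.ev (nat_lit 10405114433771813922046615874437635) (nat_lit 2)) (.cons (.rf (nat_lit 781) (nat_lit 19926519232773908561233952)) (.cons (.br (nat_lit 16) (nat_lit 0) (.cons (.ev (nat_lit 20362260367722440945833275817987) (nat_lit 2)) (.cons (.ev (nat_lit 10405114433771813922046615874437635) (nat_lit 2)) (.cons (.rf (nat_lit 781) (nat_lit 19926519232773908561233952)) .nil)))) .nil))))) .nil))))) (.cons (.br (nat_lit 6) (nat_lit 0) (.cons (.br (nat_lit 11) (nat_lit 0) (.cons (.ev (nat_lit 31174460943225099112199029134591495) (nat_lit 3)) (.cons (.rf (nat_lit 261) (nat_lit 19889885151965024958383168)) .nil))) (.cons (.br (nat_lit 8) (nat_lit 0) (.cons (.ev (nat_lit 10404956594008509243731754579394567) (nat_lit 3)) (.cons (.br (nat_lit 15) (nat_lit 0) (.cons (.ev (nat_lit 2658476511665136625494752786615632387) (nat_lit 2)) (.cons (.rf (nat_lit 1) (nat_lit 582169068288065)) .nil))) .nil))) (.cons (.br (nat_lit 8) (nat_lit 0) (.cons (.ev (nat_lit 31174460945633506017330059873879047)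 (nat_lit 3)) (.cons (.br (nat_lit 11) (nat_lit 0) (.cons (.ev (nat_lit 20362260367722440382874766017027) (nat_lit 2)) (.cons (.rf (nat_lit 1) (nat_lit 582035924301889)) .nil))) .nil))) (.cons (.br (nat_lit 16) (nat_lit 0) (.cons (.rf (nat_lit 782) (nat_lit 19926519232773908561233952)) (.cons (.ev (nat_lit 10405114433771813922046615874437635) (nat_lit 2)) (.cons (.ev (nat_lit 2668860946925890659919066153548251651) (nat_lit 2)) (.cons (.br (nat_lit 16) (nat_lit 0) (.cons (.rf (nat_lit 782) (nat_lit 19926519232773908561233952)) (.cons (.ev (nat_lit 10405114433771813922046615874437635) (nat_lit 2)) (.cons (.ev (nat_lit 2668860946925890659919066153548251651) (nat_lit 2)) .nil)))) .nil))))) .nil))))) (.cons (.br (nat_lit 6) (nat_lit 0) (.cons (.br (nat_lit 11) (nat_lit 0) (.cons (.kr (nat_lit 1329227996094400882725433603981836544) (nat_lit 5192296858534846147332164076765184) (nat_lit 1) (nat_lit 0)) (.cons (.br (nat_lit 14) (nat_lit 0) (.cons (.ev (nat_lit 10405114433771813921483657297526787) (nat_lit 2)) (.cons (.rf (nat_lit 1) (nat_lit 582131490470977))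 .nil))) .nil))) (.cons (.br (nat_lit 8) (nat_lit 0) (.cons (.ev (nat_lit 51944283445478045238408023640638985) (nat_lit 4)) (.cons (.br (nat_lit 14) (nat_lit 0) (.cons (.ev (nat_lit 13354607882411972754259019874980464649) (nat_lit 4)) (.cons (.rf (nat_lit 1) (nat_lit 582134708550721)) .nil))) .nil))) (.cons (.br (nat_lit 8) (nat_lit 0) (.cons (.kr (nat_lit 1329227996094400882725433603981836544) (nat_lit 5192296858534846147332164076765184) (nat_lit 1) (nat_lit 0)) (.cons (.br (nat_lit 11) (nat_lit 0) (.cons (.ev (nat_lit 20362260367722440382874766017027) (nat_lit 2)) (.cons (.rf (nat_lit 1) (nat_lit 582034850561089)) .nil))) .nil))) (.cons (.br (nat_lit 16) (nat_lit 0) (.cons (.ev (nat_lit 2658476511665136625495315745125433347) (nat_lit 2)) (.cons (.rf (nat_lit 783) (nat_lit 19926519232773908561233952)) (.cons (.ev (nat_lit 2668860946925890659919066153548251651) (nat_lit 2)) (.cons (.br (nat_lit 16) (nat_lit 0) (.cons (.ev (nat_lit 2658476511665136625495315745125433347) (nat_lit 2)) (.cons (.rf (nat_lit 783) (nat_lit 19926519232773908561233952))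 (.cons (.ev (nat_lit 2668860946925890659919066153548251651) (nat_lit 2)) .nil)))) .nil))))) .nil))))) (.cons (.br (nat_lit 6) (nat_lit 0) (.cons (.br (nat_lit 16) (nat_lit 0) (.cons (.ev (nat_lit 20362260367722440382874732593153) (nat_lit 2)) (.cons (.rf (nat_lit 784) (nat_lit 19926519232773908561233952)) (.cons (.ev (nat_lit 2658476511665136625494752786582208513) (nat_lit 2)) (.cons (.br (nat_lit 16) (nat_lit 0) (.cons (.ev (nat_lit 20362260367722440382874732593153) (nat_lit 2)) (.cons (.rf (nat_lit 784) (nat_lit 19926519232773908561233952)) (.cons (.ev (nat_lit 2658476511665136625494752786582208513) (nat_lit 2)) .nil)))) .nil))))) (.cons (.br (nat_lit 16) (nat_lit 0) (.cons (.ev (nat_lit 20362260367722440382874732593153) (nat_lit 2)) (.cons (.ev (nat_lit 10405114433771813921483657331212801) (nat_lit 2)) (.cons (.rf (nat_lit 785) (nat_lit 19926519232773908561233952)) (.cons (.br (nat_lit 16) (nat_lit 0) (.cons (.ev (nat_lit 20362260367722440382874732593153) (nat_lit 2)) (.cons (.ev (nat_lit 10405114433771813921483657331212801) (nat_lit 2))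 (.cons (.rf (nat_lit 785) (nat_lit 19926519232773908561233952)) .nil)))) .nil))))) (.cons (.br (nat_lit 16) (nat_lit 0) (.cons (.rf (nat_lit 786) (nat_lit 19926519232773908561233952)) (.cons (.ev (nat_lit 10405114433771813921483657331212801) (nat_lit 2)) (.cons (.ev (nat_lit 2668860946925890659918503195005026817) (nat_lit 2)) (.cons (.br (nat_lit 16) (nat_lit 0) (.cons (.rf (nat_lit 786) (nat_lit 19926519232773908561233952)) (.cons (.ev (nat_lit 10405114433771813921483657331212801) (nat_lit 2)) (.cons (.ev (nat_lit 2668860946925890659918503195005026817) (nat_lit 2)) .nil)))) .nil))))) (.cons (.br (nat_lit 16) (nat_lit 0) (.cons (.ev (nat_lit 2658476511665136625494752786582208513) (nat_lit 2)) (.cons (.rf (nat_lit 787) (nat_lit 19926519232773908561233952)) (.cons (.ev (nat_lit 2668860946925890659918503195005026817) (nat_lit 2)) (.cons (.br (nat_lit 16) (nat_lit 0) (.cons (.ev (nat_lit 2658476511665136625494752786582208513) (nat_lit 2)) (.cons (.rf (nat_lit 787) (nat_lit 19926519232773908561233952)) (.cons (.ev (nat_lit 2668860946925890659918503195005026817)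 (nat_lit 2)) .nil)))) .nil))))) (.cons (.br (nat_lit 8) (nat_lit 0) (.cons (.br (nat_lit 14) (nat_lit 0) (.cons (.kr (nat_lit 20361638979814120860139126784001) (nat_lit 2658455992188801765450304262321995776) (nat_lit 0) (nat_lit 1)) (.cons (.ev (nat_lit 340287579579745458392579140646063898625) (nat_lit 1)) (.cons (.br (nat_lit 15) (nat_lit 0) (.cons (.ev (nat_lit 341611615278362354446551873804742754560) (nat_lit 1)) (.cons (.ev (nat_lit 2668860946925890659918503194971340803) (nat_lit 2)) .nil))) .nil)))) (.cons (.br (nat_lit 11) (nat_lit 0) (.cons (.ev (nat_lit 2679245859419773986078672766449483779) (nat_lit 3)) (.cons (.zr (nat_lit 1361139872559880527197465769802291480064) (nat_lit 237685701190979115798602186755) (nat_lit 16) (nat_lit 16)) (.cons (.br (nat_lit 15) (nat_lit 0) (.cons (.zr (nat_lit 1361139852277470928268161828724685407744) (nat_lit 20361641392943393608757070004225) (nat_lit 16) (nat_lit 16)) (.cons (.ev (nat_lit 1339612828118564322609727874206269442) (nat_lit 2)) .nil))) .nil)))) (.cons (.br (nat_lit 11) (nat_lit 0) (.cons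 (.kr (nat_lit 20361638979814120860139126784001) (nat_lit 2658455992188801765450304262321995776) (nat_lit 0) (nat_lit 1)) (.cons (.ev (nat_lit 340282367000477324654165471839404491009) (nat_lit 1)) (.cons (.rf (nat_lit 788) (nat_lit 677582165103132179601393696)) .nil)))) (.cons (.br (nat_lit 11) (nat_lit 0) (.cons (.ev (nat_lit 340282367000476111005979373236761198848) (nat_lit 1)) (.cons (.ev (nat_lit 1363787944038826857435547898564307059719) (nat_lit 3)) (.cons (.br (nat_lit 14) (nat_lit 0) (.cons (.ev (nat_lit 341611615278361150243098743149036634369) (nat_lit 1)) (.cons (.ev (nat_lit 10405114433771813921483657297526787) (nat_lit 2)) .nil))) .nil)))) (.cons (.br (nat_lit 17) (nat_lit 0) (.cons (.ev (nat_lit 20362260367722440382874766017027) (nat_lit 2)) (.cons (.rf (nat_lit 789) (nat_lit 677582165103132179601393696)) (.cons (.ev (nat_lit 2658476511665136625494752786615632387) (nat_lit 2)) (.cons (.br (nat_lit 17) (nat_lit 0) (.cons (.ev (nat_lit 20362260367722440382874766017027) (nat_lit 2)) (.cons (.rf (nat_lit 789) (nat_lit 677582165103132179601393696))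 (.cons (.ev (nat_lit 2658476511665136625494752786615632387) (nat_lit 2)) .nil)))) .nil))))) .nil)))))) (.cons (.br (nat_lit 8) (nat_lit 0) (.cons (.br (nat_lit 14) (nat_lit 0) (.cons (.kr (nat_lit 20361638979814120860139126784001) (nat_lit 2658455992188801765450304262321995776) (nat_lit 0) (nat_lit 1)) (.cons (.br (nat_lit 15) (nat_lit 0) (.cons (.ev (nat_lit 2668860946925890659918503194971340803) (nat_lit 2)) (.cons (.rf (nat_lit 384) (nat_lit 639947229790906452355849411)) .nil))) (.cons (.br (nat_lit 17) (nat_lit 0) (.cons (.ev (nat_lit 2668860946925890659918503194971340803) (nat_lit 2)) (.cons (.ev (nat_lit 87112291144419053641553103754267702919425) (nat_lit 1)) .nil))) .nil)))) (.cons (.br (nat_lit 11) (nat_lit 0) (.cons (.ev (nat_lit 2679245859419773986078672766449483779) (nat_lit 3)) (.cons (.br (nat_lit 15) (nat_lit 0) (.cons (.ev (nat_lit 1339612828118564322609727874206269442) (nat_lit 2)) (.cons (.br (nat_lit 16) (nat_lit 0) (.cons (.zr (nat_lit 1361139852673620198597852084427185717760) (nat_lit 5316972831606438097744295809807024131)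 (nat_lit 16) (nat_lit 14)) .nil)) .nil))) (.cons (.br (nat_lit 15) (nat_lit 0) (.cons (.br (nat_lit 16) (nat_lit 0) (.cons (.zr (nat_lit 1361139852832074105774741531455419056640) (nat_lit 5317013396425635956352176874114252801) (nat_lit 16) (nat_lit 14)) .nil)) (.cons (.ev (nat_lit 1339612828118564322609727874206269442) (nat_lit 2)) .nil))) .nil)))) (.cons (.br (nat_lit 11) (nat_lit 0) (.cons (.kr (nat_lit 20361638979814120860139126784001) (nat_lit 2658455992188801765450304262321995776) (nat_lit 0) (nat_lit 1)) (.cons (.br (nat_lit 16) (nat_lit 0) (.cons (.ev (nat_lit 10405114433771813921483657297526787) (nat_lit 2)) (.cons (.ev (nat_lit 340282367000477324654165471839387648000) (nat_lit 1)) .nil))) (.cons (.br (nat_lit 17) (nat_lit 0) (.cons (.ev (nat_lit 10405114433771813921483657297526787) (nat_lit 2)) (.cons (.ev (nat_lit 87112285931839785507814690085461009956865) (nat_lit 1)) .nil))) .nil)))) (.cons (.br (nat_lit 16) (nat_lit 0) (.cons (.ev (nat_lit 20362260367722440382874766017027) (nat_lit 2)) (.cons (.br (nat_lit 11) (nat_lit 0) (.cons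 (.ev (nat_lit 1369156779468401550589111983638092710407) (nat_lit 4)) (.cons (.ev (nat_lit 340287559218106488023191248440955764993) (nat_lit 1)) .nil))) (.cons (.ev (nat_lit 2658476511665136625494752786615632387) (nat_lit 2)) (.cons (.br (nat_lit 11) (nat_lit 0) (.cons (.ev (nat_lit 340282367000476111005979373236777910273) (nat_lit 1)) (.cons (.ev (nat_lit 1363787944038826857435547898564373905411) (nat_lit 3)) (.cons (.br (nat_lit 14) (nat_lit 0) (.cons (.ev (nat_lit 341611615278361150243098743149019791360) (nat_lit 1)) .nil)) .nil)))) .nil))))) (.cons (.br (nat_lit 17) (nat_lit 0) (.cons (.ev (nat_lit 20362260367722440382874766017027) (nat_lit 2)) (.cons (.br (nat_lit 11) (nat_lit 0) (.cons (.kr (nat_lit 60926458196562195798573314998785) (nat_lit 2668840585905871457744969690020577280) (nat_lit 0) (nat_lit 2)) (.cons (.ev (nat_lit 87112285952042966948952096171814717292545) (nat_lit 1)) .nil))) (.cons (.ev (nat_lit 2658476511665136625494752786615632387) (nat_lit 2)) (.cons (.br (nat_lit 11) (nat_lit 0) (.cons (.ev (nat_lit 87112285931839784294166503986866990153728)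 (nat_lit 1)) (.cons (.ev (nat_lit 348451802203396059590077646353085222879239) (nat_lit 3)) (.cons (.rf (nat_lit 293) (nat_lit 21173297771226721392165956)) .nil)))) .nil))))) .nil)))))) .nil))))))) .nil))))))),
 (.br (nat_lit 8) (nat_lit 0) (.cons (.ev (nat_lit 2663668729295504235012107817199862272) (nat_lit 2)) (.cons (.rf (nat_lit 1) (nat_lit 616215274175553)) .nil))),
 (.br (nat_lit 8) (nat_lit 0) (.cons (.ev (nat_lit 1369125625208162720124315531564149769731) (nat_lit 3)) (.cons (.br (nat_lit 16) (nat_lit 0) (.cons (.zr (nat_lit 1361129468238359453934086098588933292037) (nat_lit 5327316860504281597232742611040731648) (nat_lit 16) (nat_lit 14)) .nil)) .nil))),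
 (.br (nat_lit 8) (nat_lit 0) (.cons (.ev (nat_lit 1339612828118564322610572303448342530) (nat_lit 2)) (.cons (.ev (nat_lit 20362260367722440382874732593153) (nat_lit 2)) (.cons (.br (nat_lit 14) (nat_lit 0) (.cons (.ev (nat_lit 10405114433771813922046615874568195) (nat_lit 2)) (.cons (.rf (nat_lit 2) (nat_lit 19068711944029838529)) .nil))) .nil)))),
 (.br (nat_lit 7) (nat_lit 0) (.cons (.ev (nat_lit 1339612828118564322610571191001481217) (nat_lit 2)) (.cons (.ev (nat_lit 20362260367722440382874732593153) (nat_lit 2)) (.cons (.br (nat_lit 14) (nat_lit 0) (.cons (.ev (nat_lit 10405114433771813922044408227823617) (nat_lit 2)) (.cons (.rf (nat_lit 203) (nat_lit 646153192905125175490)) .nil))) .nil)))),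
 (.br (nat_lit 2) (nat_lit 0) (.cons (.rf (nat_lit 778) (nat_lit 583706118939841765934144)) (.cons (.rf (nat_lit 790) (nat_lit 583706118939841765934144)) (.cons (.rf (nat_lit 790) (nat_lit 432440658199074383758404)) (.cons (.br (nat_lit 6) (nat_lit 0) (.cons (.br (nat_lit 8) (nat_lit 0) (.cons (.kr (nat_lit 5192296858534846147332164076699904) (nat_lit 1329227996094400882725433603981901824) (nat_lit 1) (nat_lit 0)) (.cons (.br (nat_lit 15) (nat_lit 0) (.cons (.ev (nat_lit 2658476511665136625495315745158987777) (nat_lit 2)) (.cons (.rf (nat_lit 1) (nat_lit 582164773451841)) .nil))) .nil))) (.cons (.br (nat_lit 7) (nat_lit 0) (.cons (.kr (nat_lit 5192296858534846147332164076699904) (nat_lit 1329227996094400882725433603981901824) (nat_lit 1) (nat_lit 0)) (.cons (.br (nat_lit 15) (nat_lit 0) (.cons (.ev (nat_lit 2658476511665136625495317935558754307) (nat_lit 2)) (.cons (.rf (nat_lit 1) (nat_lit 582165846145089)) .nil))) .nil))) (.cons (.ev (nat_lit 13333839011895319130007756272982295049) (nat_lit 4)) (.cons (.br (nat_lit 7) (nat_lit 0) (.cons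 (.br (nat_lit 15) (nat_lit 0) (.cons (.ev (nat_lit 1334420293575546730111916886489825795) (nat_lit 2)) (.cons (.rf (nat_lit 1) (nat_lit 582165878650945)) .nil))) (.cons (.br (nat_lit 8) (nat_lit 0) (.cons (.ev (nat_lit 2658476511667563921867510742765404675) (nat_lit 2)) (.cons (.rf (nat_lit 1) (nat_lit 581932876675137)) .nil))) (.cons (.br (nat_lit 8) (nat_lit 0) (.cons (.ev (nat_lit 2658476511667563921867512933232280065) (nat_lit 2)) (.cons (.ev (nat_lit 10404956601271508893822327521149955) (nat_lit 3)) (.cons (.br (nat_lit 16) (nat_lit 0) (.cons (.ev (nat_lit 4102039153730619406867971856833051755531) (nat_lit 4)) (.cons (.ev (nat_lit 340282367000476111005979092861296115713) (nat_lit 1)) .nil))) .nil)))) (.cons (.br (nat_lit 8) (nat_lit 0) (.cons (.rf (nat_lit 1) (nat_lit 581898550491201)) (.cons (.br (nat_lit 15) (nat_lit 0) (.cons (.ev (nat_lit 4102039153730619406867971843621665244175) (nat_lit 4)) (.cons (.rf (nat_lit 645) (nat_lit 21173223989846702406338752)) .nil))) (.cons (.br (nat_lit 17) (nat_lit 0) (.cons (.ev (nat_lit 5348086125932279604917074093750486019)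 (nat_lit 3)) (.cons (.ev (nat_lit 348449154131997587858004491836839103431687) (nat_lit 3)) .nil))) .nil)))) .nil))))) .nil))))) (.cons (.br (nat_lit 14) (nat_lit 0) (.cons (.ev (nat_lit 7996157524404011678072716222664147459) (nat_lit 3)) (.cons (.ev (nat_lit 2679245859419773986078677147249410567) (nat_lit 3)) (.cons (.ev (nat_lit 2679245859419773986078672766449877507) (nat_lit 3)) (.cons (.br (nat_lit 6) (nat_lit 0) (.cons (.rf (nat_lit 791) (nat_lit 19926519232773908561233952)) (.cons (.rf (nat_lit 791) (nat_lit 19775253772033141179057220)) (.cons (.br (nat_lit 7) (nat_lit 0) (.cons (.ev (nat_lit 1334420293575546730111916886489825795) (nat_lit 2)) (.cons (.ev (nat_lit 1363808713543168811025764579836271134211) (nat_lit 3)) (.cons (.br (nat_lit 8) (nat_lit 0) (.cons (.ev (nat_lit 1363808713543168811025764575455337383431) (nat_lit 3)) (.cons (.br (nat_lit 16) (nat_lit 0) (.cons (.zr (nat_lit 1371763291652509060915299654455812685824) (nat_lit 10486084994483002563713598193009155) (nat_lit 16) (nat_lit 6)) .nil)) .nil))) .nil)))) (.cons (.br (nat_lit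 7) (nat_lit 0) (.cons (.rf (nat_lit 1) (nat_lit 616216379374657)) (.cons (.rf (nat_lit 792) (nat_lit 677582165103132179601393696)) (.cons (.br (nat_lit 8) (nat_lit 0) (.cons (.rf (nat_lit 792) (nat_lit 677430899642391412219216964)) (.cons (.ev (nat_lit 348451802203396059590077647478967882875399) (nat_lit 3)) .nil))) .nil)))) .nil))))) .nil))))) (.cons (.br (nat_lit 6) (nat_lit 0) (.cons (.br (nat_lit 16) (nat_lit 0) (.cons (.ev (nat_lit 20362260367722440382874732593153) (nat_lit 2)) (.cons (.ev (nat_lit 10405114433771813922046615874568195) (nat_lit 2)) (.cons (.rf (nat_lit 793) (nat_lit 19926519232773908561233952)) (.cons (.br (nat_lit 16) (nat_lit 0) (.cons (.ev (nat_lit 20362260367722440382874732593153) (nat_lit 2)) (.cons (.ev (nat_lit 10405114433771813922046615874568195) (nat_lit 2)) (.cons (.rf (nat_lit 793) (nat_lit 19926519232773908561233952)) .nil)))) .nil))))) (.cons (.br (nat_lit 16) (nat_lit 0) (.cons (.ev (nat_lit 20362260367722440382874732593153) (nat_lit 2)) (.cons (.ev (nat_lit 10405114433771813922044408227823617) (nat_lit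 2)) (.cons (.rf (nat_lit 794) (nat_lit 19926519232773908561233952)) (.cons (.br (nat_lit 16) (nat_lit 0) (.cons (.ev (nat_lit 20362260367722440382874732593153) (nat_lit 2)) (.cons (.ev (nat_lit 10405114433771813922044408227823617) (nat_lit 2)) (.cons (.rf (nat_lit 794) (nat_lit 19926519232773908561233952)) .nil)))) .nil))))) (.cons (.br (nat_lit 7) (nat_lit 0) (.cons (.ev (nat_lit 10404956601271508894387459351118855) (nat_lit 3)) (.cons (.br (nat_lit 8) (nat_lit 0) (.cons (.ev (nat_lit 2658476511667563921867510742765404675) (nat_lit 2)) (.cons (.rf (nat_lit 1) (nat_lit 581932872480961)) .nil))) (.cons (.br (nat_lit 8) (nat_lit 0) (.cons (.ev (nat_lit 2658476511667563921867512933232280065) (nat_lit 2)) (.cons (.ev (nat_lit 4083398808326023132425297526456861066241) (nat_lit 4)) (.cons (.br (nat_lit 15) (nat_lit 0) (.cons (.ev (nat_lit 1379780218363121408346464903252193184775) (nat_lit 4)) (.cons (.ev (nat_lit 1334420293575546730111071362031354371) (nat_lit 2)) .nil))) .nil)))) (.cons (.br (nat_lit 8) (nat_lit 0) (.cons (.rf (nat_lit 1) (nat_lit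 581898546297025)) (.cons (.br (nat_lit 15) (nat_lit 0) (.cons (.ev (nat_lit 1379780218363121408346464898871125216259) (nat_lit 4)) (.cons (.ev (nat_lit 1334420293575546730111071362031354371) (nat_lit 2)) .nil))) (.cons (.br (nat_lit 15) (nat_lit 0) (.cons (.br (nat_lit 16) (nat_lit 0) (.cons (.ev (nat_lit 681899154135450046360488654186437738499) (nat_lit 2)) .nil)) (.cons (.ev (nat_lit 1045347483125406400345160354494380001724425) (nat_lit 4)) .nil))) .nil)))) .nil))))) (.cons (.br (nat_lit 7) (nat_lit 0) (.cons (.br (nat_lit 14) (nat_lit 0) (.cons (.ev (nat_lit 10404956598825323055135100370289157) (nat_lit 3)) (.cons (.rf (nat_lit 1) (nat_lit 582131514719425)) .nil))) (.cons (.br (nat_lit 8) (nat_lit 0) (.cons (.ev (nat_lit 8006542593487638604314174654708581377) (nat_lit 3)) (.cons (.rf (nat_lit 1) (nat_lit 581931798740161)) .nil))) (.cons (.br (nat_lit 8) (nat_lit 0) (.cons (.ev (nat_lit 8006542593487638604314176879468086275) (nat_lit 3)) (.cons (.zr (nat_lit 1361129528530983878456695808963251274247) (nat_lit 2658456071416964279715204831656542208)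 (nat_lit 16) (nat_lit 8)) (.cons (.br (nat_lit 14) (nat_lit 0) (.cons (.zr (nat_lit 1361129468079903128905557423397567201793) (nat_lit 2658516839417636332294553402238828544) (nat_lit 16) (nat_lit 14)) (.cons (.ev (nat_lit 1334420293575546730111071362031354371) (nat_lit 2)) .nil))) .nil)))) (.cons (.br (nat_lit 8) (nat_lit 0) (.cons (.rf (nat_lit 1) (nat_lit 581897472556225)) (.cons (.br (nat_lit 14) (nat_lit 0) (.cons (.zr (nat_lit 1361129569095801886278950005768846311941) (nat_lit 2658456229874498234063494639295660032) (nat_lit 16) (nat_lit 8)) (.cons (.ev (nat_lit 1334420293575546730111071362031354371) (nat_lit 2)) .nil))) (.cons (.br (nat_lit 14) (nat_lit 0) (.cons (.br (nat_lit 16) (nat_lit 0) (.cons (.ev (nat_lit 681899154135450046360488654186437738499) (nat_lit 2)) .nil)) (.cons (.br (nat_lit 16) (nat_lit 0) .nil) .nil))) .nil)))) .nil))))) (.cons (.br (nat_lit 14) (nat_lit 0) (.cons (.ev (nat_lit 10405114433771813922046615874568195) (nat_lit 2)) (.cons (.ev (nat_lit 10405114433771813922044408227823617) (nat_lit 2)) (.cons (.br (nat_lit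 7) (nat_lit 0) (.cons (.ev (nat_lit 10404956598825323055135100370289157) (nat_lit 3)) (.cons (.ev (nat_lit 1379780218363116515974786398534230476803) (nat_lit 4)) (.cons (.br (nat_lit 8) (nat_lit 0) (.cons (.ev (nat_lit 1379780218363116515974786394084711467023) (nat_lit 4)) (.cons (.br (nat_lit 16) (nat_lit 0) (.cons (.ev (nat_lit 681899154135451250563941222987440718080) (nat_lit 2)) .nil)) .nil))) .nil)))) (.cons (.ev (nat_lit 340287579579745458392578860270598750208) (nat_lit 1)) (.cons (.br (nat_lit 15) (nat_lit 0) (.cons (.br (nat_lit 16) (nat_lit 0) (.cons (.ev (nat_lit 340282387203657552143385460694291906817) (nat_lit 1)) (.cons (.ev (nat_lit 681904346669995491249359222017974403074) (nat_lit 2)) .nil))) (.cons (.br (nat_lit 16) (nat_lit 0) (.cons (.ev (nat_lit 340282387203657552143385459590468534528) (nat_lit 1)) (.cons (.ev (nat_lit 681904346669995491249359225303641161729) (nat_lit 2)) .nil))) (.cons (.br (nat_lit 7) (nat_lit 0) (.cons (.ev (nat_lit 341611615278362354446551593429277606145) (nat_lit 1)) (.cons (.rf (nat_lit 252) (nat_lit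 677545531022323290494605349)) .nil))) (.cons (.ev (nat_lit 2668860946925890659918503194971340803) (nat_lit 2)) .nil))))) .nil)))))) (.cons (.br (nat_lit 7) (nat_lit 0) (.cons (.br (nat_lit 14) (nat_lit 0) (.cons (.rf (nat_lit 1) (nat_lit 581864387879137)) (.cons (.br (nat_lit 15) (nat_lit 0) (.cons (.ev (nat_lit 2668860946925890659918503194971340803) (nat_lit 2)) (.cons (.rf (nat_lit 639) (nat_lit 21169341980175875446218185)) .nil))) (.cons (.br (nat_lit 15) (nat_lit 0) (.cons (.rf (nat_lit 601) (nat_lit 19998500399602453028706565)) (.cons (.ev (nat_lit 2668860946925890659918503194971340803) (nat_lit 2)) .nil))) .nil)))) (.cons (.br (nat_lit 8) (nat_lit 0) (.cons (.ev (nat_lit 20362257959315534119355707032067) (nat_lit 2)) (.cons (.br (nat_lit 16) (nat_lit 0) (.cons (.ev (nat_lit 340287559218107692226644098729820356865) (nat_lit 1)) (.cons (.ev (nat_lit 340282387203658765791571558193094983680) (nat_lit 1)) .nil))) (.cons (.br (nat_lit 15) (nat_lit 0) (.cons (.rf (nat_lit 648) (nat_lit 20002077102095030393342144)) (.cons (.ev (nat_lit 87112291124057415875387169275301395955968)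 (nat_lit 1)) .nil))) .nil)))) (.cons (.br (nat_lit 8) (nat_lit 0) (.cons (.ev (nat_lit 20362257959315534119355707032067) (nat_lit 2)) (.cons (.br (nat_lit 14) (nat_lit 0) (.cons (.ev (nat_lit 4102070308304059513531881153966085506567) (nat_lit 4)) (.cons (.br (nat_lit 16) (nat_lit 0) (.cons (.zr (nat_lit 1361139913124699748667903822202497139205) (nat_lit 5316912063606974970986249601501495296) (nat_lit 16) (nat_lit 8)) .nil)) .nil))) (.cons (.br (nat_lit 14) (nat_lit 0) (.cons (.br (nat_lit 16) (nat_lit 0) (.cons (.zr (nat_lit 1361139852673617780746212856281299943936) (nat_lit 5316972831606428653013017816570658817) (nat_lit 16) (nat_lit 14)) .nil)) (.cons (.ev (nat_lit 1045360754635699594343694065638345371815427) (nat_lit 4)) .nil))) .nil)))) (.cons (.br (nat_lit 8) (nat_lit 0) (.cons (.br (nat_lit 16) (nat_lit 0) (.cons (.ev (nat_lit 340287559218107692226644098729820356865) (nat_lit 1)) (.cons (.ev (nat_lit 340282387203658765791571557089305165825) (nat_lit 1)) .nil))) (.cons (.br (nat_lit 14) (nat_lit 0) (.cons (.ev (nat_lit 4102070308304059513531881151775685740037)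 (nat_lit 4)) (.cons (.br (nat_lit 16) (nat_lit 0) (.cons (.zr (nat_lit 1361139913124699748667903814527508021760) (nat_lit 5316912063606974970986250688111443971) (nat_lit 16) (nat_lit 7)) .nil)) .nil))) (.cons (.br (nat_lit 14) (nat_lit 0) (.cons (.ev (nat_lit 340287559218107692226644098729820356865) (nat_lit 1)) (.cons (.br (nat_lit 15) (nat_lit 0) (.cons (.ev (nat_lit 2668860946925890659918503194971340803) (nat_lit 2)) .nil)) .nil))) (.cons (.br (nat_lit 14) (nat_lit 0) (.cons (.br (nat_lit 16) (nat_lit 0) (.cons (.zr (nat_lit 1361129569491948752924103288987498708999) (nat_lit 5348065765528812607784601500531033600) (nat_lit 16) (nat_lit 2)) .nil)) (.cons (.ev (nat_lit 340282387203658765791571557089305165825) (nat_lit 1)) (.cons (.ev (nat_lit 87112285931839784294166503986866990153728) (nat_lit 1)) .nil)))) .nil))))) (.cons (.br (nat_lit 8) (nat_lit 0) (.cons (.br (nat_lit 17) (nat_lit 0) (.cons (.ev (nat_lit 87112291124057415875387169275301395955968) (nat_lit 1)) (.cons (.ev (nat_lit 87112285931839784294166503987962190036993) (nat_lit 1))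 .nil))) (.cons (.br (nat_lit 14) (nat_lit 0) (.cons (.br (nat_lit 16) (nat_lit 0) (.cons (.zr (nat_lit 1361139852673617780746212860666394444291) (nat_lit 5316972831606428653013017820865626112) (nat_lit 16) (nat_lit 14)) .nil)) (.cons (.ev (nat_lit 1045360754635699594343694065640535771581957) (nat_lit 4)) .nil))) (.cons (.br (nat_lit 14) (nat_lit 0) (.cons (.br (nat_lit 16) (nat_lit 0) (.cons (.zr (nat_lit 1361129569491948752924103287905183727619) (nat_lit 5348065765528812607784604799015585280) (nat_lit 16) (nat_lit 2)) .nil)) (.cons (.ev (nat_lit 340282387203658765791571558193094983680) (nat_lit 1)) (.cons (.ev (nat_lit 87112285931839784294166503987962190036993) (nat_lit 1)) .nil)))) (.cons (.br (nat_lit 14) (nat_lit 0) (.cons (.ev (nat_lit 87112291124057415875387169275301395955968) (nat_lit 1)) (.cons (.br (nat_lit 15) (nat_lit 0) (.cons (.ev (nat_lit 2668860946925890659918503194971340803) (nat_lit 2)) .nil)) .nil))) .nil))))) .nil)))))) .nil))))))) .nil)))))))]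

theorem c43 : chkAll C T R L43 (nat_lit 788) = true := by decide +kernel

theorem l43 : (nat_lit 788) + L43.length = (nat_lit 796) := by decide +kernel

/-- part of the certificates -/
def L44 : List Prf := [(.br (nat_lit 11) (nat_lit 0) (.cons (.ev (nat_lit 5192376708089991098239416648400897) (nat_lit 2)) (.cons (.ev (nat_lit 20362260367722440945833309372417) (nat_lit 2)) (.cons (.br (nat_lit 16) (nat_lit 0) (.cons (.ev (nat_lit 2658476511665136625495315745158987777) (nat_lit 2)) (.cons (.ev (nat_lit 340282367000476111005979091766096167168) (nat_lit 1)) .nil))) .nil)))),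
 (.br (nat_lit 16) (nat_lit 0) (.cons (.rf (nat_lit 796) (nat_lit 19926519232773908561233952)) (.cons (.ev (nat_lit 10405114433771813922046615874568195) (nat_lit 2)) (.cons (.ev (nat_lit 2668860946925890659919066153548382211) (nat_lit 2)) (.cons (.br (nat_lit 16) (nat_lit 0) (.cons (.rf (nat_lit 796) (nat_lit 19926519232773908561233952)) (.cons (.ev (nat_lit 10405114433771813922046615874568195) (nat_lit 2)) (.cons (.ev (nat_lit 2668860946925890659919066153548382211) (nat_lit 2)) .nil)))) .nil))))),
 (.br (nat_lit 7) (nat_lit 0) (.cons (.ev (nat_lit 31174145283041302868840432042773005) (nat_lit 4)) (.cons (.br (nat_lit 8) (nat_lit 0) (.cons (.ev (nat_lit 2658476511667563921867510742765404675) (nat_lit 2)) (.cons (.rf (nat_lit 1) (nat_lit 581932872576193)) .nil))) (.cons (.br (nat_lit 8) (nat_lit 0) (.cons (.ev (nat_lit 2658476511667563921867512933232280065) (nat_lit 2)) (.cons (.ev (nat_lit 1361160642144701895766422586247402751491) (nat_lit 3)) (.cons (.br (nat_lit 15) (nat_lit 0) (.cons (.ev (nat_lit 1369125625208160273938478535385849136641)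 (nat_lit 3)) (.cons (.ev (nat_lit 1334420293575546730111634320574709761) (nat_lit 2)) .nil))) .nil)))) (.cons (.br (nat_lit 8) (nat_lit 0) (.cons (.rf (nat_lit 1) (nat_lit 581898546392257)) (.cons (.br (nat_lit 15) (nat_lit 0) (.cons (.ev (nat_lit 1369125625208160273938478530970689865221) (nat_lit 3)) (.cons (.ev (nat_lit 1334420293575546730111634320574709761) (nat_lit 2)) .nil))) (.cons (.br (nat_lit 15) (nat_lit 0) (.cons (.br (nat_lit 16) (nat_lit 0) (.cons (.ev (nat_lit 681899154135450046360488091227894383105) (nat_lit 2)) .nil)) (.cons (.ev (nat_lit 348449174901501929811594708513730066383363) (nat_lit 3)) .nil))) .nil)))) .nil))))),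
 (.br (nat_lit 7) (nat_lit 0) (.cons (.zr (nat_lit 1361139913124699739223173100566439265792) (nat_lit 396144439348780539564794052613) (nat_lit 16) (nat_lit 16)) (.cons (.ev (nat_lit 2668860946925890659919066153548382211) (nat_lit 2)) (.cons (.br (nat_lit 8) (nat_lit 0) (.cons (.ev (nat_lit 2668860946925890659919063945901637633) (nat_lit 2)) (.cons (.br (nat_lit 15) (nat_lit 0) (.cons (.ev (nat_lit 1366477553809686133458416629737909650951) (nat_lit 3)) .nil)) .nil))) .nil)))),
 (.br (nat_lit 15) (nat_lit 0) (.cons (.ev (nat_lit 51944283450294859048692057903730185) (nat_lit 4)) (.cons (.ev (nat_lit 681904346669993063952986745532456239616) (nat_lit 2)) (.cons (.br (nat_lit 16) (nat_lit 0) (.cons (.zr (nat_lit 1361139913124699739223173100566439265792) (nat_lit 396144439348780539564794052613) (nat_lit 16) (nat_lit 16)) (.cons (.zr (nat_lit 1361139852673620198597852084427185717760) (nat_lit 5316972831606438097744295809807024131) (nat_lit 16) (nat_lit 14)) .nil))) .nil)))),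
 (.br (nat_lit 8) (nat_lit 0) (.cons (.kr (nat_lit 20282409608374036906816896499712) (nat_lit 1329227996094400882725152129005125632) (nat_lit 9) (nat_lit 0)) (.cons (.br (nat_lit 15) (nat_lit 0) (.cons (.ev (nat_lit 341611594916723384077163699033736282113) (nat_lit 1)) (.cons (.rf (nat_lit 458) (nat_lit 19523686764465789123649)) .nil))) (.cons (.br (nat_lit 15) (nat_lit 0) (.cons (.br (nat_lit 16) (nat_lit 0) (.cons (.ev (nat_lit 340282387203657552143385178119786790913) (nat_lit 1)) .nil)) (.cons (.ev (nat_lit 87113615159756031567237688875605311881216) (nat_lit 1)) .nil))) .nil)))),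
 (.br (nat_lit 14) (nat_lit 0) (.cons (.ev (nat_lit 1329248278505213478662217357923975168) (nat_lit 1)) .nil)),
 (.br (nat_lit 8) (nat_lit 0) (.cons (.kr (nat_lit 20282409608374036906816896499712) (nat_lit 1329227996094400882725152129005125632) (nat_lit 9) (nat_lit 0)) (.cons (.br (nat_lit 11) (nat_lit 0) (.cons (.ev (nat_lit 340282367000477324654165189264899375105) (nat_lit 1)) (.cons (.rf (nat_lit 802) (nat_lit 661701333108527519140929)) .nil))) (.cons (.br (nat_lit 11) (nat_lit 0) (.cons (.br (nat_lit 16) (nat_lit 0) (.cons (.ev (nat_lit 341611615278362354446551592334061010945) (nat_lit 1)) .nil)) (.cons (.ev (nat_lit 87112285931839785507814690365836474974208) (nat_lit 1)) .nil))) .nil)))),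
 (.br (nat_lit 8) (nat_lit 0) (.cons (.rf (nat_lit 803) (nat_lit 677430899642391412219217956)) (.cons (.rf (nat_lit 801) (nat_lit 677430899642391412219217956)) (.cons (.br (nat_lit 11) (nat_lit 0) (.cons (.ev (nat_lit 10404956596416916148306415221735939) (nat_lit 3)) (.cons (.br (nat_lit 15) (nat_lit 0) (.cons (.ev (nat_lit 681893961917822087157877841955144204290) (nat_lit 2)) .nil)) .nil))) (.cons (.br (nat_lit 11) (nat_lit 0) (.cons (.ev (nat_lit 7975388653887358201970731318184772615) (nat_lit 3)) (.cons (.br (nat_lit 15) (nat_lit 0) (.cons (.ev (nat_lit 1363819097978431954651704990475202331139) (nat_lit 3)) .nil)) (.cons (.br (nat_lit 15) (nat_lit 0) (.cons (.ev (nat_lit 1363798329107905629769044962620238726659) (nat_lit 3)) .nil)) .nil)))) .nil))))),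
 (.br (nat_lit 2) (nat_lit 0) (.cons (.kr (nat_lit 79229371440083953326542028801) (nat_lit 20282409608374037469766849921536) (nat_lit 0) (nat_lit 2)) (.cons (.rf (nat_lit 790) (nat_lit 583706118939841765934144)) (.cons (.rf (nat_lit 790) (nat_lit 432440658199074383758404)) (.cons (.rf (nat_lit 795) (nat_lit 583706118939841765934144)) (.cons (.rf (nat_lit 795) (nat_lit 432440658199074383758404)) (.cons (.br (nat_lit 6) (nat_lit 0) (.cons (.rf (nat_lit 797) (nat_lit 19926519232773908561233952)) (.cons (.rf (nat_lit 797) (nat_lit 19775253772033141179058212)) (.cons (.rf (nat_lit 798) (nat_lit 19926519232773908561233952)) (.cons (.rf (nat_lit 798) (nat_lit 19775253772033141179058212)) (.cons (.br (nat_lit 11) (nat_lit 0) (.cons (.ev (nat_lit 10405114433771813922046615874568195) (nat_lit 2)) (.cons (.ev (nat_lit 10405114433771813922044408227823617) (nat_lit 2)) (.cons (.ev (nat_lit 2679245859419773986079803064403099655) (nat_lit 3)) (.cons (.rf (nat_lit 799) (nat_lit 19926519232773908561233952)) (.cons (.br (nat_lit 15) (nat_lit 0) (.cons (.ev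 (nat_lit 2668860946925890659919066153548382211) (nat_lit 2)) (.cons (.ev (nat_lit 2668860946925890659919063945901637633) (nat_lit 2)) (.cons (.rf (nat_lit 799) (nat_lit 19775253772033141179058212)) (.cons (.ev (nat_lit 1339612828118564322610288625136566272) (nat_lit 2)) .nil))))) .nil)))))) (.cons (.br (nat_lit 7) (nat_lit 0) (.cons (.br (nat_lit 11) (nat_lit 0) (.cons (.rf (nat_lit 1) (nat_lit 581864287314145)) (.cons (.rf (nat_lit 800) (nat_lit 19926519232773908561233952)) (.cons (.br (nat_lit 15) (nat_lit 0) (.cons (.rf (nat_lit 800) (nat_lit 19775253772033141179058212)) (.cons (.ev (nat_lit 174225911476348609430274037098692787307010) (nat_lit 2)) .nil))) .nil)))) (.cons (.rf (nat_lit 801) (nat_lit 677582165103132179601393696)) (.cons (.rf (nat_lit 803) (nat_lit 677582165103132179601393696)) (.cons (.rf (nat_lit 804) (nat_lit 677582165103132179601393696)) (.cons (.br (nat_lit 8) (nat_lit 0) (.cons (.rf (nat_lit 803) (nat_lit 677430899642391412219217956)) (.cons (.rf (nat_lit 801) (nat_lit 677430899642391412219217956)) (.cons (.rf (nat_lit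 804) (nat_lit 677430899642391412219217956)) (.cons (.br (nat_lit 11) (nat_lit 0) (.cons (.ev (nat_lit 348449174901501929811594708513730066383363) (nat_lit 3)) (.cons (.br (nat_lit 15) (nat_lit 0) (.cons (.ev (nat_lit 681904346669993063952986745532456239616) (nat_lit 2)) .nil)) .nil))) .nil))))) .nil)))))) .nil))))))) .nil))))))),
 (.br (nat_lit 11) (nat_lit 0) (.cons (.ev (nat_lit 5192376708089991097957945983369217) (nat_lit 2)) (.cons (.ev (nat_lit 680569987145040786183669651580488122882) (nat_lit 2)) (.cons (.ev (nat_lit 20362260367722440945833309372417) (nat_lit 2)) .nil)))),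
 (.br (nat_lit 8) (nat_lit 0) (.cons (.br (nat_lit 14) (nat_lit 0) (.cons (.kr (nat_lit 1329227996094400882725433603981836288) (nat_lit 5192296858534846147332164076699648) (nat_lit 6) (nat_lit 0)) (.cons (.ev (nat_lit 340287559218106488023190966970290864385) (nat_lit 1)) (.cons (.br (nat_lit 15) (nat_lit 0) (.cons (.ev (nat_lit 341611615278362354446551873804742754560) (nat_lit 1)) (.cons (.ev (nat_lit 2668860946925890659918503194971340803) (nat_lit 2)) .nil))) .nil)))) (.cons (.br (nat_lit 11) (nat_lit 0) (.cons (.ev (nat_lit 31174460943225099112199029134458887) (nat_lit 3)) (.cons (.ev (nat_lit 1361139872640355125362391695684496786439) (nat_lit 3)) (.cons (.br (nat_lit 15) (nat_lit 0) (.cons (.ev (nat_lit 1366477553809690988051161584864952845319) (nat_lit 3)) (.cons (.ev (nat_lit 1339612828118564322609727874206269442) (nat_lit 2)) .nil))) .nil)))) (.cons (.br (nat_lit 11) (nat_lit 0) (.cons (.kr (nat_lit 1329227996094400882725433603981836288) (nat_lit 5192296858534846147332164076699648) (nat_lit 6) (nat_lit 0)) (.cons (.ev (nat_lit 340282367000477324654165471839404491009)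 (nat_lit 1)) (.cons (.br (nat_lit 14) (nat_lit 0) (.cons (.ev (nat_lit 341616807495991517815577368935629127936) (nat_lit 1)) (.cons (.ev (nat_lit 10405114433771813921483657297526787) (nat_lit 2)) .nil))) .nil)))) (.cons (.br (nat_lit 11) (nat_lit 0) (.cons (.ev (nat_lit 340282367000476111005979373236761198848) (nat_lit 1)) (.cons (.ev (nat_lit 1363787944038826857435547898564307059719) (nat_lit 3)) (.cons (.br (nat_lit 14) (nat_lit 0) (.cons (.ev (nat_lit 341611615278361150243098743149036634369) (nat_lit 1)) (.cons (.ev (nat_lit 10405114433771813921483657297526787) (nat_lit 2)) .nil))) .nil)))) (.cons (.br (nat_lit 17) (nat_lit 0) (.cons (.ev (nat_lit 20362260367722440945833309372417) (nat_lit 2)) (.cons (.rf (nat_lit 806) (nat_lit 677582165103132179601393696)) (.cons (.ev (nat_lit 2658476511665136625495315745158987777) (nat_lit 2)) (.cons (.br (nat_lit 17) (nat_lit 0) (.cons (.ev (nat_lit 20362260367722440945833309372417) (nat_lit 2)) (.cons (.rf (nat_lit 806) (nat_lit 677582165103132179601393696)) (.cons (.ev (nat_lit 2658476511665136625495315745158987777)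 (nat_lit 2)) .nil)))) .nil))))) .nil)))))),
 (.br (nat_lit 7) (nat_lit 0) (.cons (.ev (nat_lit 340282387282886928287316811540124991745) (nat_lit 1)) .nil)),
 (.br (nat_lit 14) (nat_lit 0) (.cons (.ev (nat_lit 10405114433771813921483657331212801) (nat_lit 2)) (.cons (.ev (nat_lit 10405114433771813921481466864337411) (nat_lit 2)) (.cons (.br (nat_lit 7) (nat_lit 0) (.cons (.ev (nat_lit 1334420293574323637192290706999214082) (nat_lit 2)) (.cons (.ev (nat_lit 1369125625208160273938478535385849136641) (nat_lit 3)) (.cons (.br (nat_lit 8) (nat_lit 0) (.cons (.ev (nat_lit 1369125625208160273938478530970689865221) (nat_lit 3)) (.cons (.br (nat_lit 16) (nat_lit 0) (.cons (.zr (nat_lit 1371763291652509060915299652256755875840) (nat_lit 10445678634009134657804401247388161) (nat_lit 16) (nat_lit 6)) .nil)) .nil))) .nil)))) (.cons (.ev (nat_lit 340287559218106488023190965866484203521) (nat_lit 1)) (.cons (.br (nat_lit 15) (nat_lit 0) (.cons (.br (nat_lit 8) (nat_lit 0) (.cons (.ev (nat_lit 341611594916723384077163980504434737153) (nat_lit 1)) (.cons (.br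 (nat_lit 16) (nat_lit 0) (.cons (.zr (nat_lit 1371763291731738432355383608877453934595) (nat_lit 10526570584328310553575017857286656) (nat_lit 16) (nat_lit 6)) .nil)) .nil))) (.cons (.br (nat_lit 7) (nat_lit 0) (.cons (.ev (nat_lit 341611594916723384077163980504434737153) (nat_lit 1)) (.cons (.br (nat_lit 16) (nat_lit 0) (.cons (.zr (nat_lit 1371763291731738432355383600094380032000) (nat_lit 10526570584328310553574996382450181) (nat_lit 16) (nat_lit 6)) .nil)) .nil))) (.cons (.br (nat_lit 7) (nat_lit 0) (.cons (.ev (nat_lit 341611594916723384077163980504434737153) (nat_lit 1)) (.cons (.rf (nat_lit 808) (nat_lit 21174442659472880611461152)) .nil))) (.cons (.ev (nat_lit 2668860946925890659918503194971340803) (nat_lit 2)) .nil))))) .nil)))))),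
 (.br (nat_lit 7) (nat_lit 0) (.cons (.ev (nat_lit 1361160642144701895766423151413458632711) (nat_lit 3)) (.cons (.ev (nat_lit 2668860946925890659918503195005026817) (nat_lit 2)) (.cons (.br (nat_lit 8) (nat_lit 0) (.cons (.ev (nat_lit 2668860946925890659918501004538151427) (nat_lit 2)) (.cons (.br (nat_lit 15) (nat_lit 0) (.cons (.ev (nat_lit 4088778027872698261441986789557059978241) (nat_lit 4)) .nil)) .nil))) .nil)))),
 (.br (nat_lit 15) (nat_lit 0) (.cons (.ev (nat_lit 340282387203657552143385459590468534528) (nat_lit 1)) (.cons (.kr (nat_lit 2658455992188801765450305357521879041) (nat_lit 20361638979814120859043926900736) (nat_lit 0) (nat_lit 1)) (.cons (.rf (nat_lit 788) (nat_lit 677430899642391412219217956)) .nil)))),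
 (.br (nat_lit 8) (nat_lit 0) (.cons (.ev (nat_lit 10405114433771813921481466897760257) (nat_lit 2)) (.cons (.ev (nat_lit 2668860946925890659918501004571574273) (nat_lit 2)) (.cons (.br (nat_lit 11) (nat_lit 0) (.cons (.ev (nat_lit 2679245859419773986078677147249016839) (nat_lit 3)) (.cons (.ev (nat_lit 340282367000476111005979374340584571137) (nat_lit 1)) .nil))) .nil)))),
 (.br (nat_lit 14) (nat_lit 0) (.cons (.ev (nat_lit 2668860946925890659919066153548251651) (nat_lit 2)) (.cons (.ev (nat_lit 2668860946925890659918501004571574273) (nat_lit 2)) (.cons (.ev (nat_lit 341616787292811290326357661560013324545) (nat_lit 1)) (.cons (.ev (nat_lit 10405114433771813921483657297526787) (nat_lit 2)) .nil))))),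
 (.br (nat_lit 11) (nat_lit 0) (.cons (.ev (nat_lit 340282387203657552143385460694291906817) (nat_lit 1)) (.cons (.kr (nat_lit 2658455992188801765450305357521879041) (nat_lit 20361638979814120859043926900736) (nat_lit 0) (nat_lit 1)) (.cons (.rf (nat_lit 813) (nat_lit 677582165103132179601393696)) .nil)))),
 (.br (nat_lit 14) (nat_lit 0) (.cons (.ev (nat_lit 10405114433771813921481466897760257) (nat_lit 2)) (.cons (.kr (nat_lit 2658455992188801765450305357521879041) (nat_lit 20361638979814120859043926900736) (nat_lit 0) (nat_lit 1)) (.cons (.ev (nat_lit 340287559218106488023190965866467492096) (nat_lit 1)) (.cons (.br (nat_lit 15) (nat_lit 0) (.cons (.kr (nat_lit 20282409608374036906816896499712) (nat_lit 1329227996094400882725152129005125632) (nat_lit 9) (nat_lit 0)) (.cons (.rf (nat_lit 808) (nat_lit 21174442659472879571273760)) (.cons (.ev (nat_lit 2668860946925890659918503194971340803) (nat_lit 2)) .nil)))) .nil))))),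
 (.br (nat_lit 8) (nat_lit 0) (.cons (.ev (nat_lit 10405114433771813921481466897760257) (nat_lit 2)) (.cons (.ev (nat_lit 2668860946925890659918501004571574273) (nat_lit 2)) (.cons (.br (nat_lit 11) (nat_lit 0) (.cons (.ev (nat_lit 2679245859419773986078677147249016839) (nat_lit 3)) (.cons (.ev (nat_lit 340282387203658765791571558193094983680) (nat_lit 1)) .nil))) (.cons (.br (nat_lit 11) (nat_lit 0) (.cons (.ev (nat_lit 7975388653887358201970731318184772615) (nat_lit 3)) (.cons (.br (nat_lit 15) (nat_lit 0) (.cons (.ev (nat_lit 1366456784939164663168501554819623159299) (nat_lit 3)) .nil)) (.cons (.br (nat_lit 15) (nat_lit 0) (.cons (.ev (nat_lit 1361160642144697078952609500683047141891) (nat_lit 3)) .nil)) .nil)))) .nil))))),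
 (.br (nat_lit 14) (nat_lit 0) (.cons (.ev (nat_lit 2668860946925890659918501004571574273) (nat_lit 2)) (.cons (.kr (nat_lit 2658455992188801765450305357521879041) (nat_lit 20361638979814120859043926900736) (nat_lit 0) (nat_lit 1)) (.cons (.ev (nat_lit 341616807495991517815577370039452500225) (nat_lit 1)) (.cons (.br (nat_lit 17) (nat_lit 0) (.cons (.ev (nat_lit 87113620372335299700976102264036539826433) (nat_lit 1)) (.cons (.ev (nat_lit 10405114433771813921483657297526787) (nat_lit 2)) (.cons (.kr (nat_lit 174224571883802902901621835911886515732481) (nat_lit 680564733921106298366833168185783484416) (nat_lit 0) (nat_lit 1)) .nil)))) .nil)))))]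

theorem c44 : chkAll C T R L44 (nat_lit 796) = true := by decide +kernel

theorem l44 : (nat_lit 796) + L44.length = (nat_lit 818) := by decide +kernel

/-- part of the certificates -/
def L45 : List Prf := [(.br (nat_lit 8) (nat_lit 0) (.cons (.rf (nat_lit 817) (nat_lit 677430899642391412219217956)) (.cons (.rf (nat_lit 816) (nat_lit 677430899642391412219217956)) (.cons (.rf (nat_lit 815) (nat_lit 677430899642391412219217956)) (.cons (.br (nat_lit 11) (nat_lit 0) (.cons (.ev (nat_lit 340282367000476111005979374340567728128) (nat_lit 1)) (.cons (.ev (nat_lit 1363787944038826857435547894183440154631) (nat_lit 3)) (.cons (.br (nat_lit 14) (nat_lit 0) (.cons (.ev (nat_lit 341611615278361150243098742045229973505) (nat_lit 1)) .nil)) .nil)))) .nil))))),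
 (.br (nat_lit 16) (nat_lit 0) (.cons (.ev (nat_lit 2668860946925890659918503194971340803) (nat_lit 2)) (.cons (.ev (nat_lit 340287559218106488023191248440955830273) (nat_lit 1)) .nil))),
 (.br (nat_lit 16) (nat_lit 0) (.cons (.ev (nat_lit 1339612828118564322609727874206269442) (nat_lit 2)) (.cons (.ev (nat_lit 1361139872640355125362392821601650606087) (nat_lit 3)) .nil))),
 (.br (nat_lit 16) (nat_lit 0) (.cons (.ev (nat_lit 10405114433771813921483657297526787) (nat_lit 2)) (.cons (.ev (nat_lit 340282367000477324654165190360116035585) (nat_lit 1)) .nil))),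
 (.br (nat_lit 14) (nat_lit 0) (.cons (.ev (nat_lit 341611615278361150243098461669748178945) (nat_lit 1)) .nil)),
 (.br (nat_lit 16) (nat_lit 0) (.cons (.ev (nat_lit 20362260367722440945833309372417) (nat_lit 2)) (.cons (.br (nat_lit 11) (nat_lit 0) (.cons (.ev (nat_lit 5192376708089991097957945983369217) (nat_lit 2)) (.cons (.ev (nat_lit 340282367000476111005979091766096232448) (nat_lit 1)) .nil))) (.cons (.ev (nat_lit 2658476511665136625495315745158987777) (nat_lit 2)) (.cons (.br (nat_lit 11) (nat_lit 0) (.cons (.ev (nat_lit 340282367000476111005979091766096232448) (nat_lit 1)) (.cons (.ev (nat_lit 1363787944038826857435546772681647194119) (nat_lit 3)) (.cons (.rf (nat_lit 822) (nat_lit 677582165103132179601393696)) .nil)))) .nil))))),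
 (.br (nat_lit 8) (nat_lit 0) (.cons (.br (nat_lit 14) (nat_lit 0) (.cons (.kr (nat_lit 1329227996094400882725433603981836288) (nat_lit 5192296858534846147332164076699648) (nat_lit 6) (nat_lit 0)) (.cons (.rf (nat_lit 819) (nat_lit 677582165103132179601393696)) (.cons (.rf (nat_lit 819) (nat_lit 640105464695078675185501248)) .nil)))) (.cons (.br (nat_lit 11) (nat_lit 0) (.cons (.ev (nat_lit 31174460943225099112199029134458887) (nat_lit 3)) (.cons (.rf (nat_lit 820) (nat_lit 677582165103132179601393696)) (.cons (.rf (nat_lit 820) (nat_lit 640105464695078675185501248)) .nil)))) (.cons (.br (nat_lit 11) (nat_lit 0) (.cons (.kr (nat_lit 1329227996094400882725433603981836288) (nat_lit 5192296858534846147332164076699648) (nat_lit 6) (nat_lit 0)) (.cons (.rf (nat_lit 821) (nat_lit 677582165103132179601393696)) (.cons (.rf (nat_lit 821) (nat_lit 640105464695078675185501248)) .nil)))) (.cons (.rf (nat_lit 823) (nat_lit 677582165103132179601393696)) (.cons (.rf (nat_lit 823) (nat_lit 640105464695078675185501248)) .nil)))))),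
 (.br (nat_lit 15) (nat_lit 0) (.cons (.ev (nat_lit 340282387203658761050686272556190728193) (nat_lit 1)) .nil)),
 (.br (nat_lit 15) (nat_lit 0) (.cons (.ev (nat_lit 2668860946925890659918503194971340803) (nat_lit 2)) (.cons (.rf (nat_lit 825) (nat_lit 21174441469360359728056352)) .nil))),
 (.br (nat_lit 16) (nat_lit 0) (.cons (.ev (nat_lit 340287579579744254189126008886534340865) (nat_lit 1)) (.cons (.ev (nat_lit 340282367000476111005979091766096232448) (nat_lit 1)) .nil))),
 (.br (nat_lit 14) (nat_lit 0) (.cons (.ev (nat_lit 1363819097978429546244798159599553217541) (nat_lit 3)) (.cons (.br (nat_lit 16) (nat_lit 0) (.cons (.ev (nat_lit 2722331648521477064597205886699838243331) (nat_lit 4)) .nil)) .nil))),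
 (.br (nat_lit 8) (nat_lit 0) (.cons (.br (nat_lit 16) (nat_lit 0) (.cons (.ev (nat_lit 340287579579744254189126008886534340865) (nat_lit 1)) (.cons (.ev (nat_lit 340282367000476111005979092861296115713) (nat_lit 1)) .nil))) (.cons (.br (nat_lit 14) (nat_lit 0) (.cons (.ev (nat_lit 1363819097978429546244798161789952984071) (nat_lit 3)) (.cons (.br (nat_lit 16) (nat_lit 0) (.cons (.ev (nat_lit 2722331648521477064597205895530425221643) (nat_lit 4)) .nil)) .nil))) (.cons (.br (nat_lit 14) (nat_lit 0) (.cons (.ev (nat_lit 341611594916724588280616830793265709313) (nat_lit 1)) (.cons (.br (nat_lit 15) (nat_lit 0) (.cons (.ev (nat_lit 2668860946925890659918503194971340803) (nat_lit 2)) .nil)) .nil))) (.cons (.br (nat_lit 14) (nat_lit 0) (.cons (.ev (nat_lit 10706536483947465901824420068664674819) (nat_lit 4)) (.cons (.ev (nat_lit 340282367000476111005979092861296115713) (nat_lit 1)) (.cons (.ev (nat_lit 87112285931839784294166503986866990088448) (nat_lit 1)) .nil)))) .nil))))),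
 (.br (nat_lit 7) (nat_lit 0) (.cons (.br (nat_lit 14) (nat_lit 0) (.cons (.ev (nat_lit 1334420293574323637192290706999214082) (nat_lit 2)) (.cons (.rf (nat_lit 826) (nat_lit 677582165103132179601393696)) (.cons (.rf (nat_lit 826) (nat_lit 640105464695078675185501248)) .nil)))) (.cons (.br (nat_lit 8) (nat_lit 0) (.cons (.ev (nat_lit 20362257959315534682314250387457) (nat_lit 2)) (.cons (.rf (nat_lit 827) (nat_lit 677582165103132179601393696)) (.cons (.rf (nat_lit 827) (nat_lit 640105464695078675185501248)) .nil)))) (.cons (.br (nat_lit 8) (nat_lit 0) (.cons (.ev (nat_lit 20362257959315534682314250387457) (nat_lit 2)) (.cons (.rf (nat_lit 828) (nat_lit 677582165103132179601393696)) (.cons (.rf (nat_lit 828) (nat_lit 640105464695078675185501248)) .nil)))) (.cons (.rf (nat_lit 829) (nat_lit 677582165103132179601393696)) (.cons (.rf (nat_lit 829) (nat_lit 640105464695078675185501248)) .nil)))))),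
 (.br (nat_lit 15) (nat_lit 0) (.cons (.ev (nat_lit 10404956596416916148871581277619207) (nat_lit 3)) (.cons (.ev (nat_lit 681904346669993063952987308490999464450) (nat_lit 2)) (.cons (.br (nat_lit 16) (nat_lit 0) (.cons (.ev (nat_lit 1361160642144701895766423151413458632711) (nat_lit 3)) (.cons (.ev (nat_lit 1366456784939164663168501557010123195399) (nat_lit 3)) .nil))) .nil)))),
 (.br (nat_lit 15) (nat_lit 0) (.cons (.ev (nat_lit 341611594916723384077163699033736216833) (nat_lit 1)) (.cons (.rf (nat_lit 825) (nat_lit 19995065139481746469913664)) .nil))),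
 (.br (nat_lit 8) (nat_lit 0) (.cons (.kr (nat_lit 20282409608374037188291873210368) (nat_lit 5192296858534846147332164076699648) (nat_lit 6) (nat_lit 0)) (.cons (.rf (nat_lit 832) (nat_lit 677582165103132179601393696)) (.cons (.rf (nat_lit 832) (nat_lit 640105464695078675185501248)) .nil)))),
 (.br (nat_lit 16) (nat_lit 0) (.cons (.ev (nat_lit 87113615180117670537607076487434954932225) (nat_lit 1)) .nil)),
 (.br (nat_lit 11) (nat_lit 0) (.cons (.ev (nat_lit 340282367000477324654165189264899309825) (nat_lit 1)) (.cons (.rf (nat_lit 834) (nat_lit 677582165103132179601393696)) .nil))),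
 (.br (nat_lit 8) (nat_lit 0) (.cons (.kr (nat_lit 20282409608374036906816896499712) (nat_lit 1329227996094400882725152129005125632) (nat_lit 9) (nat_lit 0)) (.cons (.rf (nat_lit 835) (nat_lit 677582165103132179601393696)) (.cons (.rf (nat_lit 835) (nat_lit 640105464695078675185501248)) .nil)))),
 (.br (nat_lit 8) (nat_lit 0) (.cons (.rf (nat_lit 836) (nat_lit 677430899642391412219217956)) (.cons (.rf (nat_lit 833) (nat_lit 677430899642391412219217956)) (.cons (.br (nat_lit 11) (nat_lit 0) (.cons (.ev (nat_lit 1369125625208162720124316657446876611591) (nat_lit 3)) (.cons (.br (nat_lit 15) (nat_lit 0) (.cons (.ev (nat_lit 681893961917822087157877841955144073730) (nat_lit 2)) .nil)) .nil))) (.cons (.br (nat_lit 11) (nat_lit 0) (.cons (.ev (nat_lit 7975388653887358201970731318184772615) (nat_lit 3)) (.cons (.br (nat_lit 15) (nat_lit 0) (.cons (.zr (nat_lit 1361139852673620198597852647377122623488) (nat_lit 7975388258976023115120786442664542209) (nat_lit 16) (nat_lit 14)) .nil)) (.cons (.br (nat_lit 15) (nat_lit 0) (.cons (.zr (nat_lit 1361139953689518974860711156841888088064)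 (nat_lit 7975368055798194588074101951680217095) (nat_lit 16) (nat_lit 7)) .nil)) .nil)))) .nil))))),
 (.br (nat_lit 17) (nat_lit 0) (.cons (.ev (nat_lit 20362260367722440948023742824961) (nat_lit 2)) (.cons (.ev (nat_lit 2658476511665136625495317935592440321) (nat_lit 2)) (.cons (.br (nat_lit 11) (nat_lit 0) (.cons (.ev (nat_lit 2735582389944137475100459878768430942733) (nat_lit 4)) .nil)) .nil)))),
 (.br (nat_lit 14) (nat_lit 0) (.cons (.ev (nat_lit 10405114433771813921481466897760257) (nat_lit 2)) (.cons (.kr (nat_lit 2658455992188801765450305357521879041) (nat_lit 20361638979814120859043926900736) (nat_lit 0) (nat_lit 1)) (.cons (.ev (nat_lit 340287579579745458392579141741297271040) (nat_lit 1)) (.cons (.br (nat_lit 15) (nat_lit 0) (.cons (.kr (nat_lit 20282409608374036906816896499712) (nat_lit 1329227996094400882725152129005125632) (nat_lit 9) (nat_lit 0)) (.cons (.rf (nat_lit 252) (nat_lit 677545531022323124199851232)) (.cons (.ev (nat_lit 2668860946925890659918503194971340803) (nat_lit 2)) .nil)))) .nil))))),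
 (.br (nat_lit 8) (nat_lit 0) (.cons (.ev (nat_lit 10405114433771813921481466897760257) (nat_lit 2)) (.cons (.ev (nat_lit 2668860946925890659918501004571574273) (nat_lit 2)) (.cons (.br (nat_lit 11) (nat_lit 0) (.cons (.ev (nat_lit 2679245859419773986078677147249016839) (nat_lit 3)) (.cons (.ev (nat_lit 340282367000476111005979091766096232448) (nat_lit 1)) .nil))) (.cons (.br (nat_lit 11) (nat_lit 0) (.cons (.ev (nat_lit 31174460943225099111070955974559235) (nat_lit 3)) (.cons (.ev (nat_lit 1361139872640355125362391689113196692999) (nat_lit 3)) (.cons (.ev (nat_lit 348449154131997587858004491273897639020039) (nat_lit 3)) .nil)))) .nil))))),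
 (.br (nat_lit 11) (nat_lit 0) (.cons (.kr (nat_lit 20282409608374036906816896499712) (nat_lit 1329227996094400882725152129005125632) (nat_lit 9) (nat_lit 0)) (.cons (.kr (nat_lit 2658455992188801765450305357521879041) (nat_lit 20361638979814120859043926900736) (nat_lit 0) (nat_lit 1)) (.cons (.br (nat_lit 8) (nat_lit 0) (.cons (.ev (nat_lit 2668860946925890659918501004571574273) (nat_lit 2)) (.cons (.ev (nat_lit 340282367000477324654165190360116035585) (nat_lit 1)) .nil))) (.cons (.rf (nat_lit 813) (nat_lit 677582165103132179601393696)) .nil))))),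
 (.br (nat_lit 8) (nat_lit 0) (.cons (.rf (nat_lit 841) (nat_lit 677430899642391412219217956)) (.cons (.rf (nat_lit 840) (nat_lit 677430899642391412219217956)) (.cons (.rf (nat_lit 839) (nat_lit 677430899642391412219217956)) (.cons (.br (nat_lit 15) (nat_lit 0) (.cons (.ev (nat_lit 1363787944038826857435546768266353704963) (nat_lit 3)) (.cons (.ev (nat_lit 341611594916724588280616831888482435073) (nat_lit 1)) (.cons (.rf (nat_lit 313) (nat_lit 640064029995631266746238020)) .nil)))) .nil))))),
 (.br (nat_lit 7) (nat_lit 0) (.cons (.br (nat_lit 17) (nat_lit 0) (.cons (.ev (nat_lit 20362260367722440948023742824961) (nat_lit 2)) (.cons (.rf (nat_lit 838) (nat_lit 677582165103132179601393696)) (.cons (.ev (nat_lit 2658476511665136625495317935592440321) (nat_lit 2)) (.cons (.br (nat_lit 17) (nat_lit 0) (.cons (.ev (nat_lit 20362260367722440948023742824961) (nat_lit 2)) (.cons (.rf (nat_lit 838) (nat_lit 677582165103132179601393696)) (.cons (.ev (nat_lit 2658476511665136625495317935592440321) (nat_lit 2)) .nil)))) .nil))))) (.cons (.rf (nat_lit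 839) (nat_lit 677582165103132179601393696)) (.cons (.rf (nat_lit 840) (nat_lit 677582165103132179601393696)) (.cons (.rf (nat_lit 841) (nat_lit 677582165103132179601393696)) (.cons (.rf (nat_lit 842) (nat_lit 677582165103132179601393696)) (.cons (.br (nat_lit 8) (nat_lit 0) (.cons (.rf (nat_lit 841) (nat_lit 677430899642391412219217956)) (.cons (.rf (nat_lit 840) (nat_lit 677430899642391412219217956)) (.cons (.rf (nat_lit 839) (nat_lit 677430899642391412219217956)) (.cons (.rf (nat_lit 842) (nat_lit 677430899642391412219217956)) (.cons (.br (nat_lit 11) (nat_lit 0) (.cons (.ev (nat_lit 87112285931839784294166503986866973376513) (nat_lit 1)) (.cons (.ev (nat_lit 348451802203396059590077646353085155770371) (nat_lit 3)) (.cons (.br (nat_lit 14) (nat_lit 0) (.cons (.ev (nat_lit 340287559218107692226644379105268596993) (nat_lit 1)) .nil)) .nil)))) .nil)))))) .nil))))))),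
 (.br (nat_lit 13) (nat_lit 0) (.cons (.br (nat_lit 1) (nat_lit 0) (.cons (.kr (nat_lit 256) (nat_lit 65536) (nat_lit 1) (nat_lit 0)) (.cons (.rf (nat_lit 778) (nat_lit 583706118939841765935136)) (.cons (.rf (nat_lit 790) (nat_lit 583706118939841765935136)) (.cons (.rf (nat_lit 790) (nat_lit 432440658199074383759396)) (.cons (.rf (nat_lit 795) (nat_lit 583706118939841765935136)) (.cons (.rf (nat_lit 805) (nat_lit 583706118939841765935136)) (.cons (.rf (nat_lit 795) (nat_lit 432440658199074383759396)) (.cons (.br (nat_lit 2) (nat_lit 0) (.cons (.rf (nat_lit 778) (nat_lit 583706118939841765934144)) (.cons (.rf (nat_lit 790) (nat_lit 583706118939841765934144)) (.cons (.rf (nat_lit 790) (nat_lit 432440658199074383758404)) (.cons (.rf (nat_lit 795) (nat_lit 583706118939841765934144)) (.cons (.rf (nat_lit 805) (nat_lit 583706118939841765934144)) (.cons (.rf (nat_lit 795) (nat_lit 432440658199074383758404)) (.cons (.br (nat_lit 6) (nat_lit 0) (.cons (.rf (nat_lit 807) (nat_lit 19926519232773908561233952)) (.cons (.rf (nat_lit 807) (nat_lit 19775253772033141179058212))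 (.cons (.rf (nat_lit 809) (nat_lit 19926519232773908561233952)) (.cons (.br (nat_lit 11) (nat_lit 0) (.cons (.ev (nat_lit 10405114433771813921483657331212801) (nat_lit 2)) (.cons (.ev (nat_lit 10405114433771813921481466864337411) (nat_lit 2)) (.cons (.ev (nat_lit 2679245859419773986078677147316388867) (nat_lit 3)) (.cons (.rf (nat_lit 810) (nat_lit 19926519232773908561233952)) (.cons (.br (nat_lit 15) (nat_lit 0) (.cons (.ev (nat_lit 2668860946925890659918503195005026817) (nat_lit 2)) (.cons (.ev (nat_lit 2668860946925890659918501004538151427) (nat_lit 2)) (.cons (.rf (nat_lit 810) (nat_lit 19775253772033141179058212)) (.cons (.ev (nat_lit 1339612828118564322609725666593210882) (nat_lit 2)) .nil))))) .nil)))))) (.cons (.rf (nat_lit 809) (nat_lit 19775253772033141179058212)) (.cons (.br (nat_lit 7) (nat_lit 0) (.cons (.br (nat_lit 11) (nat_lit 0) (.cons (.ev (nat_lit 340282367000476111005979373236761198848) (nat_lit 1)) (.cons (.ev (nat_lit 1363787944038826857435547898564307059719) (nat_lit 3)) (.cons (.br (nat_lit 14) (nat_lit 0) (.cons (.ev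 (nat_lit 341611615278361150243098743149036634369) (nat_lit 1)) (.cons (.ev (nat_lit 10405114433771813921483657297526787) (nat_lit 2)) .nil))) .nil)))) (.cons (.rf (nat_lit 811) (nat_lit 19926519232773908561233952)) (.cons (.rf (nat_lit 812) (nat_lit 19926519232773908561233952)) (.cons (.rf (nat_lit 814) (nat_lit 19926519232773908561233952)) (.cons (.br (nat_lit 8) (nat_lit 0) (.cons (.rf (nat_lit 814) (nat_lit 19775253772033141179058212)) (.cons (.rf (nat_lit 812) (nat_lit 19775253772033141179058212)) (.cons (.rf (nat_lit 811) (nat_lit 19775253772033141179058212)) (.cons (.br (nat_lit 11) (nat_lit 0) (.cons (.ev (nat_lit 340282367000476111005979374340584571137) (nat_lit 1)) (.cons (.ev (nat_lit 1363787944038826857435547894183507526659) (nat_lit 3)) (.cons (.rf (nat_lit 307) (nat_lit 646157771131823822913)) .nil)))) .nil))))) .nil)))))) (.cons (.br (nat_lit 7) (nat_lit 0) (.cons (.br (nat_lit 17) (nat_lit 0) (.cons (.ev (nat_lit 20362260367722440948023742824961) (nat_lit 2)) (.cons (.br (nat_lit 17) (nat_lit 0) (.cons (.ev (nat_lit 20362260367722440948023742824961)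 (nat_lit 2)) (.cons (.ev (nat_lit 2658476511665136625495317935592440321) (nat_lit 2)) (.cons (.kr (nat_lit 174224571883802902901621835911886515732481) (nat_lit 680564733921106298366833168185783484416) (nat_lit 0) (nat_lit 1)) .nil)))) (.cons (.ev (nat_lit 2658476511665136625495317935592440321) (nat_lit 2)) (.cons (.br (nat_lit 17) (nat_lit 0) (.cons (.ev (nat_lit 20362260367722440948023742824961) (nat_lit 2)) (.cons (.kr (nat_lit 174224571883802902901621835911886515732481) (nat_lit 680564733921106298366833168185783484416) (nat_lit 0) (nat_lit 1)) (.cons (.ev (nat_lit 2658476511665136625495317935592440321) (nat_lit 2)) .nil)))) .nil))))) (.cons (.rf (nat_lit 815) (nat_lit 677582165103132179601393696)) (.cons (.rf (nat_lit 816) (nat_lit 677582165103132179601393696)) (.cons (.rf (nat_lit 817) (nat_lit 677582165103132179601393696)) (.cons (.rf (nat_lit 818) (nat_lit 677582165103132179601393696)) (.cons (.br (nat_lit 8) (nat_lit 0) (.cons (.rf (nat_lit 817) (nat_lit 677430899642391412219217956)) (.cons (.rf (nat_lit 816) (nat_lit 677430899642391412219217956))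 (.cons (.rf (nat_lit 815) (nat_lit 677430899642391412219217956)) (.cons (.rf (nat_lit 818) (nat_lit 677430899642391412219217956)) (.cons (.br (nat_lit 11) (nat_lit 0) (.cons (.ev (nat_lit 87112285931839784294166504268337655054336) (nat_lit 1)) (.cons (.ev (nat_lit 348451802203396059590077647478967882481671) (nat_lit 3)) (.cons (.br (nat_lit 14) (nat_lit 0) (.cons (.ev (nat_lit 340287579579744254189125728511086100737) (nat_lit 1)) .nil)) .nil)))) .nil)))))) .nil))))))) .nil)))))))) (.cons (.br (nat_lit 6) (nat_lit 0) (.cons (.rf (nat_lit 824) (nat_lit 677582165103132179601393696)) (.cons (.rf (nat_lit 824) (nat_lit 677430899642391412219217956)) (.cons (.rf (nat_lit 830) (nat_lit 677582165103132179601393696)) (.cons (.br (nat_lit 7) (nat_lit 0) (.cons (.br (nat_lit 11) (nat_lit 0) (.cons (.kr (nat_lit 40564819216748074095108769710080) (nat_lit 1334420292952935728872484293081825280) (nat_lit 6) (nat_lit 0)) (.cons (.rf (nat_lit 831) (nat_lit 19926519232773908561233952)) (.cons (.rf (nat_lit 831) (nat_lit 21135445052388537735939136)) .nil))))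 (.cons (.rf (nat_lit 833) (nat_lit 677582165103132179601393696)) (.cons (.rf (nat_lit 836) (nat_lit 677582165103132179601393696)) (.cons (.rf (nat_lit 837) (nat_lit 677582165103132179601393696)) (.cons (.rf (nat_lit 837) (nat_lit 640105464695078675185501248)) .nil)))))) (.cons (.rf (nat_lit 830) (nat_lit 677430899642391412219217956)) (.cons (.rf (nat_lit 843) (nat_lit 677582165103132179601393696)) (.cons (.rf (nat_lit 843) (nat_lit 640105464695078675185501248)) .nil)))))))) .nil))))))))) .nil))))))))) .nil))]

theorem c45 : chkAll C T R L45 (nat_lit 818) = true := by decide +kernel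

theorem l45 : (nat_lit 818) + L45.length = (nat_lit 845) := by decide +kernel

/-- part of the certificates -/
def L46 : List Prf := [(.br (nat_lit 5) (nat_lit 0) (.cons (.kr (nat_lit 1099511627777) (nat_lit 4311744512) (nat_lit 0) (nat_lit 1)) (.cons (.br (nat_lit 7) (nat_lit 1) (.cons (.br (nat_lit 9) (nat_lit 1) (.cons (.br (nat_lit 9) (nat_lit 0) (.cons (.br (nat_lit 10) (nat_lit 0) (.cons (.br (nat_lit 10) (nat_lit 0) (.cons (.br (nat_lit 11) (nat_lit 1) (.cons (.br (nat_lit 13) (nat_lit 1) (.cons (.br (nat_lit 12) (nat_lit 1) (.cons (.rf (nat_lit 0) (nat_lit 17022140812752915176643)) (.cons (.br (nat_lit 14) (nat_lit 0) (.cons (.br (nat_lit 13) (nat_lit 0) (.cons (.rf (nat_lit 768) (nat_lit 470509)) .nil)) .nil)) .nil))) .nil)) .nil)) .nil)) .nil)) (.cons (.br (nat_lit 11) (nat_lit 1) (.cons (.rf (nat_lit 768) (nat_lit 335209)) (.cons (.br (nat_lit 12) (nat_lit 1) (.cons (.br (nat_lit 10) (nat_lit 0) (.cons (.rf (nat_lit 769) (nat_lit 493858305440582043680)) (.cons (.br (nat_lit 10) (nat_lit 0) (.cons (.rf (nat_lit 769) (nat_lit 493858305440582043680))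 (.cons (.br (nat_lit 8) (nat_lit 1) (.cons (.br (nat_lit 14) (nat_lit 1) (.cons (.br (nat_lit 13) (nat_lit 0) (.cons (.kr (nat_lit 20282409608374036907916408127489) (nat_lit 79229371440083952227030401024) (nat_lit 0) (nat_lit 1)) .nil)) .nil)) (.cons (.br (nat_lit 12) (nat_lit 0) (.cons (.rf (nat_lit 844) (nat_lit 583706118939841765935136)) (.cons (.rf (nat_lit 844) (nat_lit 547107778697602015528992)) .nil))) .nil))) .nil))) .nil))) .nil)) .nil))) .nil))) .nil)) .nil)) .nil))),
 (.br (nat_lit 9) (nat_lit 0) (.cons (.kr (nat_lit 18446745173221179393) (nat_lit 4722366482873956958208) (nat_lit 0) (nat_lit 1)) (.cons (.br (nat_lit 11) (nat_lit 1) (.cons (.br (nat_lit 13) (nat_lit 1) (.cons (.br (nat_lit 12) (nat_lit 1) (.cons (.rf (nat_lit 0) (nat_lit 16831720739208481254725)) (.cons (.br (nat_lit 13) (nat_lit 0) (.cons (.br (nat_lit 14) (nat_lit 0) (.cons (.kr (nat_lit 5192296858534846075275669550399489) (nat_lit 20282409608374036906821208244224) (nat_lit 0) (nat_lit 1)) .nil)) .nil)) .nil))) .nil)) .nil)) .nil))),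
 (.br (nat_lit 11) (nat_lit 0) (.cons (.ev (nat_lit 1339612827190114052621836471521772290) (nat_lit 2)) (.cons (.ev (nat_lit 20362259168222907552869681987587) (nat_lit 2)) (.cons (.br (nat_lit 14) (nat_lit 0) (.cons (.ev (nat_lit 10405113813592923943526308501258755) (nat_lit 2)) (.cons (.rf (nat_lit 2) (nat_lit 19072089643721893953)) .nil))) .nil)))),
 (.br (nat_lit 7) (nat_lit 0) (.cons (.br (nat_lit 14) (nat_lit 0) (.cons (.kr (nat_lit 1329227995786124798795479283492978944) (nat_lit 5192297168019837450157040030777344) (nat_lit 1) (nat_lit 0)) (.cons (.br (nat_lit 15) (nat_lit 0) (.cons (.ev (nat_lit 2668860946924672344706155047634862083) (nat_lit 2)) (.cons (.rf (nat_lit 1) (nat_lit 582169108097089)) .nil))) .nil))) (.cons (.br (nat_lit 11) (nat_lit 0) (.cons (.kr (nat_lit 1329227995786124798795479283492978944) (nat_lit 5192297168019837450157040030777344) (nat_lit 1) (nat_lit 0)) (.cons (.br (nat_lit 15) (nat_lit 0) (.cons (.ev (nat_lit 2658476512282897700727531983058502147) (nat_lit 2)) (.cons (.rf (nat_lit 1) (nat_lit 582172326176833))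 .nil))) .nil))) (.cons (.br (nat_lit 11) (nat_lit 0) (.cons (.ev (nat_lit 72713153349149776999752601266555405) (nat_lit 4)) (.cons (.br (nat_lit 14) (nat_lit 0) (.cons (.ev (nat_lit 18671520816912183417492674788708190221) (nat_lit 4)) (.cons (.rf (nat_lit 1) (nat_lit 582139040180289)) .nil))) .nil))) (.cons (.br (nat_lit 16) (nat_lit 0) (.cons (.ev (nat_lit 20362259168222907552869681987587) (nat_lit 2)) (.cons (.ev (nat_lit 10405113813592923943526308501258755) (nat_lit 2)) (.cons (.rf (nat_lit 847) (nat_lit 19926519232773908561233952)) (.cons (.br (nat_lit 16) (nat_lit 0) (.cons (.ev (nat_lit 20362259168222907552869681987587) (nat_lit 2)) (.cons (.ev (nat_lit 10405113813592923943526308501258755) (nat_lit 2)) (.cons (.rf (nat_lit 847) (nat_lit 19926519232773908561233952)) .nil)))) .nil))))) .nil))))),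
 (.br (nat_lit 10) (nat_lit 0) (.cons (.ev (nat_lit 5192377017579686247901069569949953) (nat_lit 2)) (.cons (.ev (nat_lit 20362259168222762874731686264833) (nat_lit 2)) (.cons (.br (nat_lit 15) (nat_lit 0) (.cons (.ev (nat_lit 2658476512282897700727531983058502147) (nat_lit 2)) (.cons (.rf (nat_lit 2) (nat_lit 19076593101481130049)) .nil))) .nil)))),
 (.br (nat_lit 7) (nat_lit 0) (.cons (.br (nat_lit 11) (nat_lit 0) (.cons (.kr (nat_lit 5192297168019837521933159091929344) (nat_lit 1329227995786124798723703164431826944) (nat_lit 1) (nat_lit 0)) (.cons (.br (nat_lit 15) (nat_lit 0) (.cons (.ev (nat_lit 2658476512282897700727531983058502147) (nat_lit 2)) (.cons (.rf (nat_lit 1) (nat_lit 582168031213633)) .nil))) .nil))) (.cons (.br (nat_lit 10) (nat_lit 0) (.cons (.ev (nat_lit 72713153349168592535159927753280525) (nat_lit 4)) (.cons (.br (nat_lit 15) (nat_lit 0) (.cons (.ev (nat_lit 15981910413458255875122737981954326529) (nat_lit 4)) (.cons (.rf (nat_lit 1) (nat_lit 582169103906881)) .nil))) .nil))) (.cons (.rf (nat_lit 848) (nat_lit 391234057766838938377411))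 (.cons (.br (nat_lit 16) (nat_lit 0) (.cons (.ev (nat_lit 10405113813592923943526308501258755) (nat_lit 2)) (.cons (.rf (nat_lit 849) (nat_lit 19926519232773908561233952)) (.cons (.ev (nat_lit 2668860946924672344850833185697693697) (nat_lit 2)) (.cons (.br (nat_lit 16) (nat_lit 0) (.cons (.ev (nat_lit 10405113813592923943526308501258755) (nat_lit 2)) (.cons (.rf (nat_lit 849) (nat_lit 19926519232773908561233952)) (.cons (.ev (nat_lit 2668860946924672344850833185697693697) (nat_lit 2)) .nil)))) .nil))))) .nil))))),
 (.br (nat_lit 11) (nat_lit 0) (.cons (.ev (nat_lit 10404957216586398288475047810303495) (nat_lit 3)) (.cons (.ev (nat_lit 340282367000477319913352243792226353408) (nat_lit 1)) (.cons (.br (nat_lit 15) (nat_lit 0) (.cons (.ev (nat_lit 341616807495991522556462936051821904129) (nat_lit 1)) (.cons (.ev (nat_lit 2658476512282897700727531983058502147) (nat_lit 2)) .nil))) .nil)))),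
 (.br (nat_lit 11) (nat_lit 0) (.cons (.ev (nat_lit 1365574391641818937336416048049553414) (nat_lit 3)) (.cons (.ev (nat_lit 13292301272703187219663193443490598405) (nat_lit 4)) (.cons (.br (nat_lit 16) (nat_lit 0) (.cons (.ev (nat_lit 13333839011270285795577685702064473605) (nat_lit 4)) (.cons (.ev (nat_lit 2735551236640210894926081340345518654981) (nat_lit 4)) .nil))) .nil)))),
 (.br (nat_lit 11) (nat_lit 0) (.cons (.ev (nat_lit 10405275372078496084328102776014345) (nat_lit 4)) (.cons (.ev (nat_lit 340282367000477324654165471839404491009) (nat_lit 1)) (.cons (.br (nat_lit 15) (nat_lit 0) (.cons (.ev (nat_lit 340287559217798211939261293025250312193) (nat_lit 1)) (.cons (.ev (nat_lit 2658476512282897700727531983058502147) (nat_lit 2)) .nil))) .nil)))),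
 (.br (nat_lit 11) (nat_lit 0) (.cons (.kr (nat_lit 1329227995786124798723421689455050752) (nat_lit 5192297168019837449875565054001152) (nat_lit 10) (nat_lit 0)) (.cons (.br (nat_lit 16) (nat_lit 0) (.cons (.ev (nat_lit 2658476512282897700727531983058502147) (nat_lit 2)) (.cons (.ev (nat_lit 340282367000477319913352243792243064833) (nat_lit 1)) .nil))) (.cons (.br (nat_lit 17) (nat_lit 0) (.cons (.ev (nat_lit 2658476512282897700727531983058502147) (nat_lit 2)) (.cons (.ev (nat_lit 87112285931839785503073804799824122413313) (nat_lit 1)) .nil))) .nil)))),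
 (.br (nat_lit 11) (nat_lit 0) (.cons (.ev (nat_lit 1365574391641818937336416048049553414) (nat_lit 3)) (.cons (.br (nat_lit 14) (nat_lit 0) (.cons (.zr (nat_lit 1361129569095801872167190789381039325701) (nat_lit 2658456229256741862606902000666017792) (nat_lit 16) (nat_lit 11)) (.cons (.br (nat_lit 16) (nat_lit 0) (.cons (.ev (nat_lit 2735613543250537422721530833418886316557) (nat_lit 4)) .nil)) .nil))) (.cons (.br (nat_lit 14) (nat_lit 0) (.cons (.br (nat_lit 16) (nat_lit 0) (.cons (.ev (nat_lit 2724938180911875368602399810549205697037) (nat_lit 4)) .nil)) (.cons (.zr (nat_lit 348449143828453034604809290932734568431621) (nat_lit 2658456229256741862894569426864046592) (nat_lit 16) (nat_lit 11)) .nil))) .nil)))),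
 (.br (nat_lit 11) (nat_lit 0) (.cons (.rf (nat_lit 855) (nat_lit 677545530987420399926609952)) (.cons (.rf (nat_lit 854) (nat_lit 677545530987420399926609952)) (.cons (.ev (nat_lit 20362259168222762874731686264833) (nat_lit 2)) (.cons (.br (nat_lit 14) (nat_lit 0) (.cons (.rf (nat_lit 384) (nat_lit 677582165103132144235021376)) (.cons (.ev (nat_lit 10405113813592923799974070345269761) (nat_lit 2)) (.cons (.ev (nat_lit 87112291124057106390395794674306364014593) (nat_lit 1)) .nil)))) .nil))))),
 (.br (nat_lit 2) (nat_lit 0) (.cons (.kr (nat_lit 72057594037928192) (nat_lit 281474976776192) (nat_lit 1) (nat_lit 0)) (.cons (.rf (nat_lit 848) (nat_lit 583706118939841765935136)) (.cons (.rf (nat_lit 848) (nat_lit 547072003228062091151392)) (.cons (.rf (nat_lit 850) (nat_lit 583706118939841765935136)) (.cons (.rf (nat_lit 850) (nat_lit 547072003228062091151392)) (.cons (.br (nat_lit 7) (nat_lit 0) (.cons (.rf (nat_lit 850) (nat_lit 427868173478618613161155)) (.cons (.rf (nat_lit 850) (nat_lit 391234057766838938377411)) (.cons (.rf (nat_lit 848)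 (nat_lit 427868173478618613161155)) (.cons (.rf (nat_lit 848) (nat_lit 391234057766838938377411)) (.cons (.br (nat_lit 10) (nat_lit 0) (.cons (.br (nat_lit 14) (nat_lit 0) (.cons (.ev (nat_lit 10404957216605213967434612352484867) (nat_lit 3)) (.cons (.ev (nat_lit 340287579579435978105196054566045548545) (nat_lit 1)) (.cons (.br (nat_lit 15) (nat_lit 0) (.cons (.ev (nat_lit 341611594917032864364618562328049287168) (nat_lit 1)) (.cons (.ev (nat_lit 2668860946924672344706155047634862083) (nat_lit 2)) .nil))) .nil)))) (.cons (.rf (nat_lit 851) (nat_lit 19926519232773908561233952)) (.cons (.rf (nat_lit 852) (nat_lit 19926519232773908561233952)) (.cons (.rf (nat_lit 853) (nat_lit 19926519232773908561233952)) (.cons (.br (nat_lit 11) (nat_lit 0) (.cons (.rf (nat_lit 852) (nat_lit 19889885117062128886450208)) (.cons (.rf (nat_lit 851) (nat_lit 19889885117062128886450208)) (.cons (.rf (nat_lit 853) (nat_lit 19889885117062128886450208)) (.cons (.ev (nat_lit 20362259168222762874731686264833) (nat_lit 2)) .nil))))) .nil)))))) (.cons (.br (nat_lit 10)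 (nat_lit 0) (.cons (.br (nat_lit 14) (nat_lit 0) (.cons (.kr (nat_lit 1329227995786124798723421689455050752) (nat_lit 5192297168019837449875565054001152) (nat_lit 10) (nat_lit 0)) (.cons (.br (nat_lit 15) (nat_lit 0) (.cons (.ev (nat_lit 2668860946924672344706155047634862083) (nat_lit 2)) (.cons (.rf (nat_lit 384) (nat_lit 639912992633905646353258723)) .nil))) (.cons (.rf (nat_lit 856) (nat_lit 639949626749617452032728259)) .nil)))) (.cons (.rf (nat_lit 854) (nat_lit 677582165103132179601393696)) (.cons (.rf (nat_lit 855) (nat_lit 677582165103132179601393696)) (.cons (.rf (nat_lit 856) (nat_lit 677582165103132179601393696)) (.cons (.br (nat_lit 11) (nat_lit 0) (.cons (.rf (nat_lit 855) (nat_lit 677545530987420399926609952)) (.cons (.rf (nat_lit 854) (nat_lit 677545530987420399926609952)) (.cons (.rf (nat_lit 856) (nat_lit 677545530987420399926609952)) (.cons (.ev (nat_lit 20362259168222762874731686264833) (nat_lit 2)) .nil))))) .nil)))))) .nil))))))) .nil))))))),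
 (.br (nat_lit 7) (nat_lit 0) (.cons (.kr (nat_lit 5192297168019837521933159091929344) (nat_lit 1329227995786124798723703164431826944) (nat_lit 1) (nat_lit 0)) (.cons (.br (nat_lit 15) (nat_lit 0) (.cons (.ev (nat_lit 5348086126547622865693468455287652869) (nat_lit 3)) (.cons (.rf (nat_lit 1) (nat_lit 582172288560193)) .nil))) .nil))),
 (.br (nat_lit 15) (nat_lit 0) (.cons (.ev (nat_lit 2668860946924672344706155047634862083) (nat_lit 2)) (.cons (.rf (nat_lit 632) (nat_lit 21164619721779534296816072)) .nil))),
 (.br (nat_lit 6) (nat_lit 0) (.cons (.kr (nat_lit 281474976710656) (nat_lit 72057594037927936) (nat_lit 6) (nat_lit 0)) (.cons (.rf (nat_lit 858) (nat_lit 583706118939841765935136)) (.cons (.rf (nat_lit 858) (nat_lit 547072003228062091150400)) (.cons (.br (nat_lit 7) (nat_lit 0) (.cons (.rf (nat_lit 858) (nat_lit 583706118939808479938592)) (.cons (.rf (nat_lit 858) (nat_lit 547072003228028805153856)) (.cons (.ev (nat_lit 20362259168222907555060115440131) (nat_lit 2)) (.cons (.br (nat_lit 14) (nat_lit 0) (.cons (.kr (nat_lit 5192297168019837449875565054001408)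 (nat_lit 1329227995786124798723421689455116288) (nat_lit 1) (nat_lit 0)) (.cons (.rf (nat_lit 859) (nat_lit 677582165103132179601393696)) (.cons (.rf (nat_lit 859) (nat_lit 640105464695078641899505696)) .nil)))) .nil))))) .nil))))),
 (.br (nat_lit 7) (nat_lit 0) (.cons (.kr (nat_lit 5192297168019837521933159091929344) (nat_lit 1329227995786124798723703164431826944) (nat_lit 1) (nat_lit 0)) (.cons (.br (nat_lit 15) (nat_lit 0) (.cons (.ev (nat_lit 5316932821384358968255821979756922369) (nat_lit 3)) (.cons (.rf (nat_lit 1) (nat_lit 582169067337793)) .nil))) .nil))),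
 (.br (nat_lit 7) (nat_lit 0) (.cons (.kr (nat_lit 5192297168019837450157040030712064) (nat_lit 1329227995786124798795479283493044224) (nat_lit 1) (nat_lit 0)) (.cons (.br (nat_lit 11) (nat_lit 0) (.cons (.ev (nat_lit 20521336881196649804093150332417) (nat_lit 3)) (.cons (.rf (nat_lit 1) (nat_lit 582035923351617)) .nil))) .nil))),
 (.br (nat_lit 15) (nat_lit 0) (.cons (.ev (nat_lit 1366446400505138231784720059419230077441) (nat_lit 3)) (.cons (.br (nat_lit 16) (nat_lit 0) (.cons (.ev (nat_lit 2724927796475995701326836307257436538369) (nat_lit 4)) .nil)) .nil))),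
 (.br (nat_lit 6) (nat_lit 0) (.cons (.kr (nat_lit 281474976710656) (nat_lit 72057594037927936) (nat_lit 6) (nat_lit 0)) (.cons (.rf (nat_lit 861) (nat_lit 583706118939841765935136)) (.cons (.rf (nat_lit 862) (nat_lit 583706118939841765935136)) (.cons (.br (nat_lit 7) (nat_lit 0) (.cons (.rf (nat_lit 861) (nat_lit 583706118939808479938592)) (.cons (.rf (nat_lit 862) (nat_lit 583706118939808479938592)) (.cons (.br (nat_lit 11) (nat_lit 0) (.cons (.ev (nat_lit 20521336881196649804093150332417) (nat_lit 3)) (.cons (.ev (nat_lit 1361129488205090753865827193384832729601) (nat_lit 3)) (.cons (.br (nat_lit 15) (nat_lit 0) (.cons (.ev (nat_lit 1366467169374421780925392704819672778241) (nat_lit 3)) (.cons (.br (nat_lit 16) (nat_lit 0) (.cons (.zr (nat_lit 1361129488203847949825670271508036976641) (nat_lit 2668840585908289273067170449397514752) (nat_lit 16) (nat_lit 6)) .nil)) .nil))) .nil)))) (.cons (.br (nat_lit 11) (nat_lit 0) (.cons (.kr (nat_lit 5192297168019837449875565054001408) (nat_lit 1329227995786124798723421689455116288) (nat_lit 1) (nat_lit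 0)) (.cons (.rf (nat_lit 863) (nat_lit 677582165103132179601393696)) (.cons (.rf (nat_lit 863) (nat_lit 640105464695078641899505696)) .nil)))) .nil))))) .nil))))),
 (.br (nat_lit 14) (nat_lit 0) (.cons (.ev (nat_lit 7985773090379998257043809860032266757) (nat_lit 3)) (.cons (.rf (nat_lit 465) (nat_lit 21169342052232404298668520)) .nil))),
 (.br (nat_lit 7) (nat_lit 0) (.cons (.ev (nat_lit 10405113813592923799971862765634051) (nat_lit 2)) (.cons (.rf (nat_lit 864) (nat_lit 391234057766838938376419)) (.cons (.br (nat_lit 14) (nat_lit 0) (.cons (.ev (nat_lit 2668860946924681752690308587102274051) (nat_lit 2)) (.cons (.ev (nat_lit 340282387203658765791499218020273815808) (nat_lit 1)) (.cons (.br (nat_lit 15) (nat_lit 0) (.cons (.ev (nat_lit 340282367000477324654165470735597830145) (nat_lit 1)) (.cons (.ev (nat_lit 2668860946924672344706155047634862083) (nat_lit 2)) .nil))) .nil)))) (.cons (.br (nat_lit 14) (nat_lit 0) (.cons (.rf (nat_lit 1) (nat_lit 581898747587777)) (.cons (.br (nat_lit 15) (nat_lit 0) (.cons (.ev (nat_lit 2668860946924672344706155047634862083)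 (nat_lit 2)) (.cons (.rf (nat_lit 639) (nat_lit 21168161496641583451511240)) .nil))) (.cons (.br (nat_lit 17) (nat_lit 0) (.cons (.ev (nat_lit 2668860946924672344706155047634862083) (nat_lit 2)) (.cons (.ev (nat_lit 87112291124057106390395794674306364014593) (nat_lit 1)) .nil))) .nil)))) .nil)))))]

theorem c46 : chkAll C T R L46 (nat_lit 845) = true := by decide +kernel

theorem l46 : (nat_lit 845) + L46.length = (nat_lit 867) := by decide +kernel

end Pool.Agent.H93.Neg.N18_8_0
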