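import Pool.Agent.H93.Neg.TabN18_8_0

/-!
Certificates.
-/

set_option autoImplicit false
set_option maxRecDepth 100000
set_option linter.all false

namespace Pool.Agent.H93.Neg.N18_8_0

/-- part of the certificates -/
def L47 : List Prf := [(.br (nat_lit 7) (nat_lit 0) (.cons (.ev (nat_lit 10405113813592923943524100888068611) (nat_lit 2)) (.cons (.rf (nat_lit 860) (nat_lit 427868173478618613161155)) (.cons (.ev (nat_lit 10405113813592923943526308501389315) (nat_lit 2)) (.cons (.br (nat_lit 11) (nat_lit 0) (.cons (.rf (nat_lit 1) (nat_lit 581898646927553)) (.cons (.br (nat_lit 16) (nat_lit 0) (.cons (.ev (nat_lit 340282367000477324654093131666583191553) (nat_lit 1)) (.cons (.ev (nat_lit 340282387203658765791571558193094983680) (nat_lit 1)) .nil))) (.cons (.br (nat_lit 15) (nat_lit 0) (.cons (.br (nat_lit 16) (nat_lit 0) (.cons (.ev (nat_lit 340282367000477324654093132770389852417) (nat_lit 1)) .nil)) (.cons (.ev (nat_lit 87113620372335299705716915490979877748736) (nat_lit 1)) .nil))) .nil)))) .nil))))),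
 (.br (nat_lit 7) (nat_lit 0) (.cons (.rf (nat_lit 864) (nat_lit 391234057766838938377411)) (.cons (.rf (nat_lit 860) (nat_lit 391234057766838938377411)) (.cons (.br (nat_lit 11) (nat_lit 0) (.cons (.ev (nat_lit 1349997737822261135095984297058041860) (nat_lit 3)) (.cons (.ev (nat_lit 1362458695918467265586809571622736953348) (nat_lit 3)) (.cons (.br (nat_lit 16) (nat_lit 0) (.cons (.ev (nat_lit 1349997737822261135095979881831400452) (nat_lit 3)) (.cons (.ev (nat_lit 1362458695918467265586809576003603858436) (nat_lit 3)) .nil))) .nil)))) (.cons (.br (nat_lit 11) (nat_lit 0) (.cons (.rf (nat_lit 1) (nat_lit 581897573186753)) (.cons (.br (nat_lit 14) (nat_lit 0) (.cons (.ev (nat_lit 2740888917178202230246129200005909056013) (nat_lit 4)) (.cons (.br (nat_lit 16) (nat_lit 0) (.cons (.ev (nat_lit 2724938180911875406528326922374379997709) (nat_lit 4)) .nil)) .nil))) (.cons (.br (nat_lit 14) (nat_lit 0) (.cons (.br (nat_lit 16) (nat_lit 0) (.cons (.ev (nat_lit 2724938180911875368602399810549205697037) (nat_lit 4)) .nil)) (.cons (.ev (nat_lit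 696916958974898885394039903044348915223053) (nat_lit 4)) .nil))) .nil)))) .nil))))),
 (.br (nat_lit 7) (nat_lit 0) (.cons (.rf (nat_lit 866) (nat_lit 19926519232773875275237408)) (.cons (.ev (nat_lit 10405113813592923799974070378954755) (nat_lit 2)) (.cons (.rf (nat_lit 868) (nat_lit 19926519232773875275237408)) (.cons (.br (nat_lit 14) (nat_lit 0) (.cons (.ev (nat_lit 340282387203658765791499218020273815808) (nat_lit 1)) (.cons (.ev (nat_lit 2668860946924681752690310777535463427) (nat_lit 2)) (.cons (.br (nat_lit 15) (nat_lit 0) (.cons (.ev (nat_lit 340282387203658761050758330145933689088) (nat_lit 1)) (.cons (.ev (nat_lit 2668860946924672344706155047634862083) (nat_lit 2)) .nil))) .nil)))) (.cons (.br (nat_lit 11) (nat_lit 0) (.cons (.br (nat_lit 15) (nat_lit 0) (.cons (.ev (nat_lit 2668860946924672344706152857201672707) (nat_lit 2)) (.cons (.rf (nat_lit 358) (nat_lit 21174441469360324361685024)) .nil))) (.cons (.br (nat_lit 16) (nat_lit 0) (.cons (.ev (nat_lit 2668860946924672344706152857201672707) (nat_lit 2)) (.cons (.ev (nat_lit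 341611615278670635234473062664780185600) (nat_lit 1)) .nil))) (.cons (.br (nat_lit 14) (nat_lit 0) (.cons (.ev (nat_lit 341611594917032869068466523909690294273) (nat_lit 1)) (.cons (.br (nat_lit 15) (nat_lit 0) (.cons (.ev (nat_lit 2668860946924672344706155047634862083) (nat_lit 2)) .nil)) .nil))) (.cons (.br (nat_lit 15) (nat_lit 0) (.cons (.rf (nat_lit 647) (nat_lit 20003069865431900895742308)) (.cons (.ev (nat_lit 341611615278670635234473061569563459840) (nat_lit 1)) (.cons (.rf (nat_lit 646) (nat_lit 677386042630397513934472260)) .nil)))) .nil))))) .nil)))))),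
 (.br (nat_lit 2) (nat_lit 0) (.cons (.rf (nat_lit 857) (nat_lit 583706118939841765934144)) (.cons (.rf (nat_lit 857) (nat_lit 583706118939808479937600)) (.cons (.rf (nat_lit 860) (nat_lit 583706118939841765935136)) (.cons (.rf (nat_lit 864) (nat_lit 583706118939841765935136)) (.cons (.br (nat_lit 6) (nat_lit 0) (.cons (.kr (nat_lit 281474976710656) (nat_lit 72057594037927936) (nat_lit 6) (nat_lit 0)) (.cons (.ev (nat_lit 2658476512282897700727534190671692291) (nat_lit 2)) (.cons (.ev (nat_lit 10405113813583442173520183669424131) (nat_lit 2)) (.cons (.br (nat_lit 7) (nat_lit 0) (.cons (.ev (nat_lit 2658476512282897700871086428794126851) (nat_lit 2)) (.cons (.ev (nat_lit 10405113813583442317072421791858691) (nat_lit 2)) (.cons (.br (nat_lit 11) (nat_lit 0) (.cons (.ev (nat_lit 1344805045129966653224716579347956482) (nat_lit 2)) (.cons (.zr (nat_lit 1361129569095801876889557272250684538889) (nat_lit 5316912062372661709302702502362350080) (nat_lit 16) (nat_lit 11)) (.cons (.br (nat_lit 14) (nat_lit 0) (.cons (.zr (nat_lit 1361129468079894699481385498894722400259)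 (nat_lit 5316932265554102902049021064229552640) (nat_lit 16) (nat_lit 14)) (.cons (.ev (nat_lit 7985773090379998257043809860032266757) (nat_lit 3)) .nil))) .nil)))) (.cons (.br (nat_lit 11) (nat_lit 0) (.cons (.ev (nat_lit 1344805045129966653224716579347956482) (nat_lit 2)) (.cons (.rf (nat_lit 865) (nat_lit 677582165103132179601393696)) (.cons (.rf (nat_lit 865) (nat_lit 640105464695078641899505696)) .nil)))) .nil))))) .nil))))) (.cons (.br (nat_lit 6) (nat_lit 0) (.cons (.kr (nat_lit 281474976710656) (nat_lit 72057594037927936) (nat_lit 6) (nat_lit 0)) (.cons (.rf (nat_lit 866) (nat_lit 19926519232773908561233952)) (.cons (.rf (nat_lit 867) (nat_lit 19926519232773908561233952)) (.cons (.rf (nat_lit 868) (nat_lit 19926519232773908561233952)) (.cons (.rf (nat_lit 869) (nat_lit 19926519232773908561233952)) (.cons (.br (nat_lit 7) (nat_lit 0) (.cons (.rf (nat_lit 866) (nat_lit 19926519232773875275237408)) (.cons (.rf (nat_lit 867) (nat_lit 19926519232773875275237408)) (.cons (.rf (nat_lit 868) (nat_lit 19926519232773875275237408)) (.cons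 (.rf (nat_lit 869) (nat_lit 19926519232773875275237408)) (.cons (.br (nat_lit 14) (nat_lit 0) (.cons (.br (nat_lit 15) (nat_lit 0) (.cons (.ev (nat_lit 2668860946924672344706152857201672707) (nat_lit 2)) (.cons (.ev (nat_lit 87113620372335299705716915490979877748736) (nat_lit 1)) .nil))) (.cons (.ev (nat_lit 2668860946924681752690310777535463427) (nat_lit 2)) (.cons (.br (nat_lit 15) (nat_lit 0) (.cons (.ev (nat_lit 2668860946924672344706152857201672707) (nat_lit 2)) (.cons (.ev (nat_lit 2668860946924672344706155047634862083) (nat_lit 2)) (.cons (.ev (nat_lit 87113620352132118259838696177682832490753) (nat_lit 1)) .nil)))) (.cons (.br (nat_lit 15) (nat_lit 0) (.cons (.ev (nat_lit 87113620352132118264579581744799008423937) (nat_lit 1)) (.cons (.ev (nat_lit 87113620372335299700976174604209344282880) (nat_lit 1)) .nil))) .nil))))) .nil)))))) .nil))))))) .nil))))))),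
 (.br (nat_lit 7) (nat_lit 0) (.cons (.kr (nat_lit 1329227995786124798795479283492978944) (nat_lit 5192297168019837450157040030777344) (nat_lit 1) (nat_lit 0)) (.cons (.br (nat_lit 11) (nat_lit 0) (.cons (.ev (nat_lit 2658476354452815136514524670720999939) (nat_lit 3)) (.cons (.rf (nat_lit 1) (nat_lit 582030554774593)) .nil))) .nil))),
 (.br (nat_lit 11) (nat_lit 0) (.cons (.ev (nat_lit 20362259168222762874731686264833) (nat_lit 2)) (.cons (.rf (nat_lit 645) (nat_lit 21173036198683501956072772)) .nil))),
 (.br (nat_lit 6) (nat_lit 0) (.cons (.kr (nat_lit 281474976710656) (nat_lit 72057594037927936) (nat_lit 6) (nat_lit 0)) (.cons (.rf (nat_lit 871) (nat_lit 583706118939841765935136)) (.cons (.rf (nat_lit 871) (nat_lit 547072003228062091150400)) (.cons (.br (nat_lit 7) (nat_lit 0) (.cons (.rf (nat_lit 871) (nat_lit 583706118939808479938592)) (.cons (.rf (nat_lit 871) (nat_lit 547072003228028805153856)) (.cons (.ev (nat_lit 2668860946924681752690310777535595011) (nat_lit 2)) (.cons (.br (nat_lit 10) (nat_lit 0) (.cons (.kr (nat_lit 1329227995786124798723421689455051008)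 (nat_lit 5192297168019837449875565054066688) (nat_lit 1) (nat_lit 0)) (.cons (.rf (nat_lit 872) (nat_lit 677582165103132179601393696)) (.cons (.rf (nat_lit 872) (nat_lit 640105464695078641899505696)) .nil)))) .nil))))) .nil))))),
 (.br (nat_lit 13) (nat_lit 0) (.cons (.ev (nat_lit 20361948460101575721238694789376) (nat_lit 1)) .nil)),
 (.br (nat_lit 7) (nat_lit 0) (.cons (.rf (nat_lit 873) (nat_lit 427868173478618613161155)) (.cons (.ev (nat_lit 10405113813583442317072421758173697) (nat_lit 2)) (.cons (.ev (nat_lit 10405113813592923943526308501389315) (nat_lit 2)) (.cons (.br (nat_lit 11) (nat_lit 0) (.cons (.rf (nat_lit 1) (nat_lit 581898647054529)) (.cons (.br (nat_lit 15) (nat_lit 0) (.cons (.ev (nat_lit 341616787292810076678171283685728321536) (nat_lit 1)) (.cons (.rf (nat_lit 874) (nat_lit 20678166659641450301472)) .nil))) (.cons (.br (nat_lit 17) (nat_lit 0) (.cons (.ev (nat_lit 87112285952042966944211210887281636278273) (nat_lit 1)) (.cons (.ev (nat_lit 87112285931839785503073804799824122413313) (nat_lit 1)) .nil))) .nil))))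 .nil))))),
 (.br (nat_lit 7) (nat_lit 0) (.cons (.rf (nat_lit 873) (nat_lit 391234057766838938377411)) (.cons (.rf (nat_lit 870) (nat_lit 391234057766838938376419)) (.cons (.br (nat_lit 10) (nat_lit 0) (.cons (.ev (nat_lit 5192536095302068117858070594387969) (nat_lit 3)) (.cons (.ev (nat_lit 5192536095283252438902886784893957) (nat_lit 3)) (.cons (.br (nat_lit 16) (nat_lit 0) (.cons (.ev (nat_lit 1366451572519896614877256246024353415173) (nat_lit 3)) (.cons (.ev (nat_lit 1361134802275944529885670823300740612614) (nat_lit 3)) .nil))) .nil)))) (.cons (.br (nat_lit 10) (nat_lit 0) (.cons (.rf (nat_lit 1) (nat_lit 581898613501121)) (.cons (.br (nat_lit 15) (nat_lit 0) (.cons (.ev (nat_lit 2738240845780966001212755251843798927873) (nat_lit 4)) (.cons (.br (nat_lit 16) (nat_lit 0) (.cons (.ev (nat_lit 2738261614647773632644077925667688415757) (nat_lit 4)) .nil)) .nil))) (.cons (.br (nat_lit 15) (nat_lit 0) (.cons (.br (nat_lit 16) (nat_lit 0) (.cons (.ev (nat_lit 2738261614647773670570005037492862716429) (nat_lit 4)) .nil)) (.cons (.ev (nat_lit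 696903635541162987073256040171711238244873) (nat_lit 4)) .nil))) .nil)))) .nil))))),
 (.br (nat_lit 7) (nat_lit 0) (.cons (.ev (nat_lit 10405113813592923799974070378954755) (nat_lit 2)) (.cons (.rf (nat_lit 876) (nat_lit 19926519232773875275237408)) (.cons (.rf (nat_lit 870) (nat_lit 391234057766838938376419)) (.cons (.br (nat_lit 10) (nat_lit 0) (.cons (.ev (nat_lit 20362259168222907555060115308547) (nat_lit 2)) (.cons (.ev (nat_lit 341616807495991517815577370039452500225) (nat_lit 1)) (.cons (.br (nat_lit 11) (nat_lit 0) (.cons (.ev (nat_lit 341616807495991517815649708004643766528) (nat_lit 1)) (.cons (.ev (nat_lit 20362259168222762874731686264833) (nat_lit 2)) .nil))) .nil)))) (.cons (.br (nat_lit 10) (nat_lit 0) (.cons (.br (nat_lit 16) (nat_lit 0) (.cons (.ev (nat_lit 341611594917032864364546786208988069888) (nat_lit 1)) (.cons (.rf (nat_lit 392) (nat_lit 21174442622281863294714944)) .nil))) (.cons (.br (nat_lit 11) (nat_lit 0) (.cons (.ev (nat_lit 20362259158814923397139781517827) (nat_lit 2)) (.cons (.rf (nat_lit 648) (nat_lit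 20003069865431900895742308)) .nil))) (.cons (.br (nat_lit 11) (nat_lit 0) (.cons (.ev (nat_lit 20362259158814923397139781517827) (nat_lit 2)) (.cons (.rf (nat_lit 560) (nat_lit 21174398811264928752698432)) .nil))) (.cons (.br (nat_lit 17) (nat_lit 0) (.cons (.ev (nat_lit 20362259168222762874731686264833) (nat_lit 2)) (.cons (.ev (nat_lit 87112291124057106395099714412007099793408) (nat_lit 1)) (.cons (.ev (nat_lit 87112291144418744161265649174643111624960) (nat_lit 1)) .nil)))) .nil))))) .nil)))))),
 (.br (nat_lit 2) (nat_lit 0) (.cons (.rf (nat_lit 857) (nat_lit 583706118939841765934144)) (.cons (.rf (nat_lit 857) (nat_lit 583706118939808479937600)) (.cons (.rf (nat_lit 870) (nat_lit 583706118939841765934144)) (.cons (.rf (nat_lit 870) (nat_lit 547072003228062091150400)) (.cons (.rf (nat_lit 873) (nat_lit 583706118939841765935136)) (.cons (.br (nat_lit 6) (nat_lit 0) (.cons (.kr (nat_lit 281474976710656) (nat_lit 72057594037927936) (nat_lit 6) (nat_lit 0)) (.cons (.rf (nat_lit 875) (nat_lit 19926519232773908561233952)) (.cons (.rf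 (nat_lit 876) (nat_lit 19926519232773908561233952)) (.cons (.rf (nat_lit 870) (nat_lit 391234057766838938377411)) (.cons (.rf (nat_lit 877) (nat_lit 19926519232773908561233952)) (.cons (.br (nat_lit 7) (nat_lit 0) (.cons (.rf (nat_lit 875) (nat_lit 19926519232773875275237408)) (.cons (.rf (nat_lit 876) (nat_lit 19926519232773875275237408)) (.cons (.rf (nat_lit 870) (nat_lit 391234057766838938376419)) (.cons (.rf (nat_lit 877) (nat_lit 19926519232773875275237408)) (.cons (.br (nat_lit 10) (nat_lit 0) (.cons (.ev (nat_lit 20362259168222907555060115308547) (nat_lit 2)) (.cons (.br (nat_lit 11) (nat_lit 0) (.cons (.ev (nat_lit 20362259158814923397139781517827) (nat_lit 2)) (.cons (.ev (nat_lit 87112285952042966944211210887281636278273) (nat_lit 1)) .nil))) (.cons (.br (nat_lit 11) (nat_lit 0) (.cons (.ev (nat_lit 20362259158814923397139781517827) (nat_lit 2)) (.cons (.ev (nat_lit 20362259168222762874731686264833) (nat_lit 2)) (.cons (.ev (nat_lit 87112285931839785503073804799824122413313) (nat_lit 1)) .nil)))) (.cons (.br (nat_lit 11)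 (nat_lit 0) (.cons (.ev (nat_lit 87112285931839785507814690366940298346497) (nat_lit 1)) (.cons (.ev (nat_lit 87112285952042966948952096452190199152897) (nat_lit 1)) .nil))) .nil))))) .nil)))))) .nil))))))) .nil))))))),
 (.br (nat_lit 11) (nat_lit 0) (.cons (.ev (nat_lit 20362259158814923397139781517827) (nat_lit 2)) (.cons (.br (nat_lit 15) (nat_lit 0) (.cons (.zr (nat_lit 4083388423571355657532953672488423790091) (nat_lit 2668840585908289272348846308950933504) (nat_lit 48) (nat_lit 1)) .nil)) .nil))),
 (.br (nat_lit 11) (nat_lit 0) (.cons (.ev (nat_lit 340282387203658761050758331249740218368) (nat_lit 1)) (.cons (.ev (nat_lit 20362259158814923397139781517827) (nat_lit 2)) (.cons (.br (nat_lit 14) (nat_lit 0) (.cons (.ev (nat_lit 341616787292810081419056848594307907585) (nat_lit 1)) (.cons (.ev (nat_lit 2689630293441388555614741410703737857) (nat_lit 3)) .nil))) .nil)))),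
 (.br (nat_lit 7) (nat_lit 0) (.cons (.rf (nat_lit 878) (nat_lit 427868173478618613160163)) (.cons (.rf (nat_lit 878) (nat_lit 391234057766838938376419)) (.cons (.rf (nat_lit 870) (nat_lit 427868173478618613160163)) (.cons (.rf (nat_lit 870) (nat_lit 391234057766838938376419)) (.cons (.br (nat_lit 10) (nat_lit 0) (.cons (.ev (nat_lit 20362259168222762876922119717377) (nat_lit 2)) (.cons (.rf (nat_lit 879) (nat_lit 677582165103132179601393696)) (.cons (.rf (nat_lit 880) (nat_lit 19926519232773908561233952)) (.cons (.br (nat_lit 11) (nat_lit 0) (.cons (.rf (nat_lit 880) (nat_lit 19889885117062128886450208)) (.cons (.rf (nat_lit 879) (nat_lit 677545530987420399926609952)) (.cons (.ev (nat_lit 20362259168222762874731686264833) (nat_lit 2)) .nil)))) .nil))))) .nil)))))),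
 (.br (nat_lit 6) (nat_lit 0) (.cons (.kr (nat_lit 281474976710656) (nat_lit 72057594037927936) (nat_lit 6) (nat_lit 0)) (.cons (.rf (nat_lit 878) (nat_lit 427868173478618613161155)) (.cons (.rf (nat_lit 878) (nat_lit 391234057766838938377411)) (.cons (.rf (nat_lit 870) (nat_lit 427868173478618613161155)) (.cons (.rf (nat_lit 870) (nat_lit 391234057766838938377411)) (.cons (.rf (nat_lit 881) (nat_lit 19926519232773908561233952)) (.cons (.br (nat_lit 7) (nat_lit 0) (.cons (.rf (nat_lit 878) (nat_lit 427868173478618613160163)) (.cons (.rf (nat_lit 878) (nat_lit 391234057766838938376419)) (.cons (.rf (nat_lit 870) (nat_lit 427868173478618613160163)) (.cons (.rf (nat_lit 870) (nat_lit 391234057766838938376419)) (.cons (.rf (nat_lit 881) (nat_lit 19926519232773875275237408)) (.cons (.br (nat_lit 10) (nat_lit 0) (.cons (.ev (nat_lit 20362259168222762876922119717377) (nat_lit 2)) (.cons (.br (nat_lit 11) (nat_lit 0) (.cons (.ev (nat_lit 20362259158814923397139781517827) (nat_lit 2)) (.cons (.ev (nat_lit 340282367000477319913352243792243064833)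 (nat_lit 1)) (.cons (.ev (nat_lit 87112285931839785503073877138893120208896) (nat_lit 1)) .nil)))) (.cons (.br (nat_lit 11) (nat_lit 0) (.cons (.ev (nat_lit 20362259158814923397139781517827) (nat_lit 2)) (.cons (.ev (nat_lit 340282367000477324654165470735581118720) (nat_lit 1)) (.cons (.ev (nat_lit 87112285952042966944211210887281636278273) (nat_lit 1)) .nil)))) (.cons (.br (nat_lit 11) (nat_lit 0) (.cons (.ev (nat_lit 340282367000477319913352244896049725697) (nat_lit 1)) (.cons (.ev (nat_lit 340282367000477324654165471839387648000) (nat_lit 1)) (.cons (.ev (nat_lit 174905136617724629388397311096850946851331) (nat_lit 2)) .nil)))) (.cons (.br (nat_lit 11) (nat_lit 0) (.cons (.ev (nat_lit 87112285952042966948952024113121167671296) (nat_lit 1)) (.cons (.ev (nat_lit 87112285931839785507814690366940298346497) (nat_lit 1)) (.cons (.ev (nat_lit 174905136617724629388397311096850946851331) (nat_lit 2)) .nil)))) .nil)))))) .nil))))))) .nil))))))))]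

theorem c47 : chkAll C T R L47 (nat_lit 867) = true := by decide +kernel

theorem l47 : (nat_lit 867) + L47.length = (nat_lit 883) := by decide +kernel

/-- part of the certificates -/
def L48 : List Prf := [(.br (nat_lit 11) (nat_lit 0) (.cons (.ev (nat_lit 1365574391641818937336416048049553414) (nat_lit 3)) (.cons (.rf (nat_lit 649) (nat_lit 639904467449546146944686312)) (.cons (.rf (nat_lit 649) (nat_lit 677381167892502548472700104)) .nil)))),
 (.br (nat_lit 13) (nat_lit 0) (.cons (.ev (nat_lit 1334420292952940432792224188545892608) (nat_lit 1)) .nil)),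
 (.br (nat_lit 11) (nat_lit 0) (.cons (.rf (nat_lit 649) (nat_lit 639942245228521718686193896)) (.cons (.ev (nat_lit 680564734000954649308259167559731052803) (nat_lit 2)) (.cons (.rf (nat_lit 884) (nat_lit 21174442622281864334903328)) .nil)))),
 (.br (nat_lit 7) (nat_lit 0) (.cons (.rf (nat_lit 878) (nat_lit 427868173478618613160163)) (.cons (.rf (nat_lit 878) (nat_lit 391234057766838938376419)) (.cons (.rf (nat_lit 870) (nat_lit 427868173478618613160163)) (.cons (.rf (nat_lit 870) (nat_lit 391234057766838938376419)) (.cons (.rf (nat_lit 882) (nat_lit 19770681287312685408459971)) (.cons (.br (nat_lit 10) (nat_lit 0) (.cons (.br (nat_lit 14) (nat_lit 0) (.cons (.kr (nat_lit 1329227995786124798723421689455050752) (nat_lit 5192297168019837449875565054001152) (nat_lit 10) (nat_lit 0)) (.cons (.ev (nat_lit 340287559217798207235269779205486805248) (nat_lit 1)) (.cons (.ev (nat_lit 87112291144418744161265720949666939469825) (nat_lit 1)) .nil)))) (.cons (.br (nat_lit 11) (nat_lit 0) (.cons (.kr (nat_lit 1329227995786124798723421689455050752)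 (nat_lit 5192297168019837449875565054001152) (nat_lit 10) (nat_lit 0)) (.cons (.ev (nat_lit 680564734000954639826632711465441886465) (nat_lit 2)) (.cons (.ev (nat_lit 174224571863679571006147682501667196174595) (nat_lit 2)) .nil)))) (.cons (.rf (nat_lit 883) (nat_lit 677582165103132179601393696)) (.cons (.rf (nat_lit 885) (nat_lit 677582165103132179601393696)) (.cons (.rf (nat_lit 885) (nat_lit 640105464695078641899504704)) .nil)))))) .nil))))))),
 (.br (nat_lit 13) (nat_lit 0) (.cons (.br (nat_lit 1) (nat_lit 0) (.cons (.kr (nat_lit 256) (nat_lit 65536) (nat_lit 1) (nat_lit 0)) (.cons (.rf (nat_lit 857) (nat_lit 583706118939841765935136)) (.cons (.rf (nat_lit 857) (nat_lit 583706118939808479938592)) (.cons (.rf (nat_lit 870) (nat_lit 583706118939841765935136)) (.cons (.rf (nat_lit 870) (nat_lit 547072003228062091151392)) (.cons (.rf (nat_lit 878) (nat_lit 583706118939841765935136)) (.cons (.rf (nat_lit 878) (nat_lit 547072003228062091151392)) (.cons (.br (nat_lit 2) (nat_lit 0) (.cons (.rf (nat_lit 857) (nat_lit 583706118939841765934144))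 (.cons (.rf (nat_lit 857) (nat_lit 583706118939808479937600)) (.cons (.rf (nat_lit 870) (nat_lit 583706118939841765934144)) (.cons (.rf (nat_lit 870) (nat_lit 547072003228062091150400)) (.cons (.rf (nat_lit 878) (nat_lit 583706118939841765934144)) (.cons (.rf (nat_lit 878) (nat_lit 547072003228062091150400)) (.cons (.rf (nat_lit 882) (nat_lit 19926519232773908561233952)) (.cons (.br (nat_lit 6) (nat_lit 0) (.cons (.kr (nat_lit 281474976710656) (nat_lit 72057594037927936) (nat_lit 6) (nat_lit 0)) (.cons (.rf (nat_lit 878) (nat_lit 427868173478618613161155)) (.cons (.rf (nat_lit 878) (nat_lit 391234057766838938377411)) (.cons (.rf (nat_lit 870) (nat_lit 427868173478618613161155)) (.cons (.rf (nat_lit 870) (nat_lit 391234057766838938377411)) (.cons (.rf (nat_lit 886) (nat_lit 677582165103132179601393696)) (.cons (.rf (nat_lit 886) (nat_lit 640105464695078675185501248)) .nil)))))))) .nil))))))))) .nil))))))))) .nil)),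
 (.br (nat_lit 10) (nat_lit 1) (.cons (.rf (nat_lit 846) (nat_lit 407901468851537952)) (.cons (.br (nat_lit 12) (nat_lit 1) (.cons (.br (nat_lit 9) (nat_lit 0) (.cons (.rf (nat_lit 846) (nat_lit 372998571739416608)) (.cons (.br (nat_lit 9) (nat_lit 0) (.cons (.rf (nat_lit 846) (nat_lit 372998571739416608)) (.cons (.br (nat_lit 11) (nat_lit 1) (.cons (.br (nat_lit 14) (nat_lit 1) (.cons (.br (nat_lit 13) (nat_lit 0) (.cons (.kr (nat_lit 20282409603670117169120472465409) (nat_lit 79228167236630820467500908544) (nat_lit 0) (nat_lit 1)) .nil)) .nil)) (.cons (.br (nat_lit 12) (nat_lit 0) (.cons (.rf (nat_lit 887) (nat_lit 583706118939841765935136)) (.cons (.rf (nat_lit 887) (nat_lit 547107778697602015528992)) .nil))) .nil))) .nil))) .nil))) .nil)) .nil))),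
 (.br (nat_lit 7) (nat_lit 0) (.cons (.br (nat_lit 7) (nat_lit 1) (.cons (.rf (nat_lit 768) (nat_lit 271559)) .nil)) .nil)),
 (.br (nat_lit 12) (nat_lit 1) (.cons (.br (nat_lit 12) (nat_lit 1) (.cons (.rf (nat_lit 889) (nat_lit 15853034836064)) .nil)) .nil)),
 (.br (nat_lit 12) (nat_lit 0) (.cons (.ev (nat_lit 618974797493521520122659329) (nat_lit 2)) (.cons (.ev (nat_lit 4740957908384230670339) (nat_lit 2)) (.cons (.br (nat_lit 12) (nat_lit 0) (.cons (.ev (nat_lit 618974797493521520122659329) (nat_lit 2)) (.cons (.ev (nat_lit 4740957908384230670339) (nat_lit 2)) (.cons (.rf (nat_lit 890) (nat_lit 16548802533347395616)) .nil)))) (.cons (.rf (nat_lit 890) (nat_lit 16548802533347395616)) .nil))))),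
 (.br (nat_lit 7) (nat_lit 0) (.cons (.br (nat_lit 10) (nat_lit 0) (.cons (.kr (nat_lit 1208925891672223212634368) (nat_lit 309485009821626543701557248) (nat_lit 1) (nat_lit 0)) (.cons (.rf (nat_lit 890) (nat_lit 14242959524133701664)) (.cons (.br (nat_lit 11) (nat_lit 0) (.cons (.ev (nat_lit 621392612095147451600601089) (nat_lit 2)) (.cons (.rf (nat_lit 890) (nat_lit 15395881028740548640)) (.cons (.br (nat_lit 12) (nat_lit 0) (.cons (.br (nat_lit 12) (nat_lit 0) (.cons (.rf (nat_lit 890) (nat_lit 16548802533347395616)) .nil)) (.cons (.rf (nat_lit 890) (nat_lit 16548802533347395616)) .nil))) .nil)))) .nil)))) (.cons (.ev (nat_lit 2422629346510610513265153) (nat_lit 2)) (.cons (.br (nat_lit 2) (nat_lit 0) (.cons (.kr (nat_lit 1208925891672223212634368) (nat_lit 309485009821626543701557248) (nat_lit 1) (nat_lit 0)) (.cons (.rf (nat_lit 890) (nat_lit 14242959524133701664)) (.cons (.br (nat_lit 12) (nat_lit 0) (.cons (.ev (nat_lit 2422629346510610546950147) (nat_lit 2)) (.cons (.rf (nat_lit 890) (nat_lit 15395881028740548640)) (.cons (.br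 (nat_lit 12) (nat_lit 0) (.cons (.ev (nat_lit 2422629346510610546950147) (nat_lit 2)) (.cons (.rf (nat_lit 890) (nat_lit 16548802533347395616)) .nil))) .nil)))) .nil)))) (.cons (.rf (nat_lit 890) (nat_lit 14242959524133701664)) (.cons (.br (nat_lit 2) (nat_lit 0) (.cons (.br (nat_lit 11) (nat_lit 0) (.cons (.ev (nat_lit 1237944891067305339543488001) (nat_lit 3)) (.cons (.rf (nat_lit 890) (nat_lit 15395881028740548640)) (.cons (.br (nat_lit 12) (nat_lit 0) (.cons (.br (nat_lit 12) (nat_lit 0) (.cons (.rf (nat_lit 890) (nat_lit 16548802533347395616)) .nil)) (.cons (.rf (nat_lit 890) (nat_lit 16548802533347395616)) .nil))) .nil)))) (.cons (.br (nat_lit 10) (nat_lit 0) (.cons (.ev (nat_lit 1859332688706926595679846919) (nat_lit 3)) (.cons (.rf (nat_lit 890) (nat_lit 15395881028740548640)) (.cons (.rf (nat_lit 891) (nat_lit 493858305440582043680)) .nil)))) (.cons (.br (nat_lit 10) (nat_lit 0) (.cons (.ev (nat_lit 618974760745841808720004611) (nat_lit 3)) (.cons (.ev (nat_lit 2422629346510610546950147) (nat_lit 2)) (.cons (.rf (nat_lit 890)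 (nat_lit 15395881028740548640)) (.cons (.rf (nat_lit 891) (nat_lit 457934183136470664260)) .nil))))) (.cons (.rf (nat_lit 890) (nat_lit 15395881028740548640)) (.cons (.br (nat_lit 10) (nat_lit 0) (.cons (.br (nat_lit 12) (nat_lit 0) (.cons (.br (nat_lit 12) (nat_lit 0) (.cons (.rf (nat_lit 890) (nat_lit 16548802533347395616)) .nil)) (.cons (.rf (nat_lit 890) (nat_lit 16548802533347395616)) .nil))) (.cons (.br (nat_lit 12) (nat_lit 0) (.cons (.ev (nat_lit 621392612095147451600601089) (nat_lit 2)) (.cons (.ev (nat_lit 79229371440084233702007177216) (nat_lit 1)) (.cons (.rf (nat_lit 890) (nat_lit 16548802533347395616)) .nil)))) (.cons (.ev (nat_lit 2422629346510610546950147) (nat_lit 2)) (.cons (.rf (nat_lit 890) (nat_lit 16548802533347395616)) .nil))))) .nil)))))) .nil)))))),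
 (.br (nat_lit 7) (nat_lit 0) (.cons (.ev (nat_lit 4740957906193797480963) (nat_lit 2)) (.cons (.ev (nat_lit 79228162532783420736268206336) (nat_lit 1)) (.cons (.rf (nat_lit 890) (nat_lit 15395881028740548640)) (.cons (.br (nat_lit 11) (nat_lit 0) (.cons (.ev (nat_lit 79538861172271781264912089345) (nat_lit 1)) (.cons (.br (nat_lit 12) (nat_lit 0) (.cons (.zr (nat_lit 316912654834764066577362978307) (nat_lit 621387871426597533828907008) (nat_lit 16) (nat_lit 1)) (.cons (.rf (nat_lit 890) (nat_lit 16548802533347395616)) .nil))) (.cons (.rf (nat_lit 890) (nat_lit 16548802533347395616)) .nil)))) .nil))))),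
 (.br (nat_lit 7) (nat_lit 0) (.cons (.ev (nat_lit 4740957906193797480963) (nat_lit 2)) (.cons (.ev (nat_lit 79228167236703159532220579841) (nat_lit 1)) (.cons (.rf (nat_lit 890) (nat_lit 15395881028740548640)) (.cons (.br (nat_lit 10) (nat_lit 0) (.cons (.ev (nat_lit 79538856468352042468959584256) (nat_lit 1)) (.cons (.ev (nat_lit 626228352412904742168298499) (nat_lit 3)) (.cons (.rf (nat_lit 890) (nat_lit 16548802533347395616)) .nil)))) .nil))))),
 (.br (nat_lit 10) (nat_lit 0) (.cons (.ev (nat_lit 79228167236703160636010397696) (nat_lit 1)) (.cons (.ev (nat_lit 621392612095149642034053633) (nat_lit 2)) (.cons (.rf (nat_lit 890) (nat_lit 15395881028740548640)) (.cons (.br (nat_lit 11) (nat_lit 0) (.cons (.ev (nat_lit 79228167236703159532203868416) (nat_lit 1)) (.cons (.ev (nat_lit 621392612095147451600601089) (nat_lit 2)) (.cons (.rf (nat_lit 890) (nat_lit 16548802533347395616)) .nil)))) .nil))))),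
 (.br (nat_lit 12) (nat_lit 0) (.cons (.ev (nat_lit 621392612095147451600601089) (nat_lit 2)) (.cons (.ev (nat_lit 79229371440084233702007177216) (nat_lit 1)) (.cons (.rf (nat_lit 890) (nat_lit 16548802533347395616)) .nil)))),
 (.br (nat_lit 10) (nat_lit 0) (.cons (.kr (nat_lit 309485009821626543701491712) (nat_lit 1208925891672223212634112) (nat_lit 6) (nat_lit 0)) (.cons (.rf (nat_lit 896) (nat_lit 493858305440582043680)) (.cons (.rf (nat_lit 896) (nat_lit 458117738797769786432)) (.cons (.rf (nat_lit 890) (nat_lit 16548802533347395616)) .nil))))),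
 (.br (nat_lit 12) (nat_lit 0) (.cons (.ev (nat_lit 4740957908384230670339) (nat_lit 2)) (.cons (.ev (nat_lit 79537652264970967203973234688) (nat_lit 1)) (.cons (.ev (nat_lit 122172302482073823435651755543559) (nat_lit 4)) (.cons (.rf (nat_lit 890) (nat_lit 16548802533347395616)) .nil))))),
 (.br (nat_lit 11) (nat_lit 0) (.cons (.ev (nat_lit 79537647524157740260601626881) (nat_lit 1)) (.cons (.rf (nat_lit 898) (nat_lit 493858305440582043680)) (.cons (.rf (nat_lit 890) (nat_lit 16548802533347395616)) .nil)))),
 (.br (nat_lit 10) (nat_lit 0) (.cons (.ev (nat_lit 4740957906193797480963) (nat_lit 2)) (.cons (.ev (nat_lit 318776818522541485803287086083) (nat_lit 3)) (.cons (.rf (nat_lit 890) (nat_lit 15395881028740548640)) (.cons (.br (nat_lit 12) (nat_lit 0) (.cons (.ev (nat_lit 79228162532783421840074735616) (nat_lit 1)) (.cons (.ev (nat_lit 79229371440084234797223772416) (nat_lit 1)) (.cons (.rf (nat_lit 890) (nat_lit 16548802533347395616)) .nil)))) .nil))))),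
 (.br (nat_lit 7) (nat_lit 0) (.cons (.ev (nat_lit 317947564563206149676990466) (nat_lit 3)) (.cons (.rf (nat_lit 900) (nat_lit 14242959524133701664)) (.cons (.rf (nat_lit 900) (nat_lit 15395881028740547648)) (.cons (.rf (nat_lit 890) (nat_lit 16548802533347395616)) .nil))))),
 (.br (nat_lit 10) (nat_lit 0) (.cons (.rf (nat_lit 900) (nat_lit 14208022508875122720)) (.cons (.rf (nat_lit 897) (nat_lit 493709686794541500452)) (.cons (.ev (nat_lit 79229376180897461740578537728) (nat_lit 1)) (.cons (.rf (nat_lit 898) (nat_lit 493823368425323464736)) (.cons (.rf (nat_lit 890) (nat_lit 16548802533347395616)) .nil)))))),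
 (.br (nat_lit 9) (nat_lit 0) (.cons (.br (nat_lit 1) (nat_lit 0) (.cons (.kr (nat_lit 256) (nat_lit 65536) (nat_lit 1) (nat_lit 0)) (.cons (.rf (nat_lit 892) (nat_lit 407901468851537952)) (.cons (.rf (nat_lit 892) (nat_lit 372964453592959008)) (.cons (.rf (nat_lit 892) (nat_lit 259282822810994724)) (.cons (.rf (nat_lit 892) (nat_lit 224345807552415780)) (.cons (.rf (nat_lit 890) (nat_lit 14242959524133701664)) (.cons (.br (nat_lit 2) (nat_lit 0) (.cons (.rf (nat_lit 892) (nat_lit 407901468851536960)) (.cons (.rf (nat_lit 892) (nat_lit 372964453592958016)) (.cons (.rf (nat_lit 892) (nat_lit 259282822810993732)) (.cons (.rf (nat_lit 892) (nat_lit 224345807552414788)) (.cons (.br (nat_lit 6) (nat_lit 0) (.cons (.ev (nat_lit 4740957908384264356353) (nat_lit 2)) (.cons (.rf (nat_lit 893) (nat_lit 14242959524133701664)) (.cons (.rf (nat_lit 894) (nat_lit 14242959524133701664)) (.cons (.rf (nat_lit 895) (nat_lit 14242959524133701664)) (.cons (.rf (nat_lit 890) (nat_lit 15395881028740548640)) (.cons (.br (nat_lit 7) (nat_lit 0) (.cons (.rf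 (nat_lit 894) (nat_lit 14208022508875122720)) (.cons (.rf (nat_lit 893) (nat_lit 14208022508875122720)) (.cons (.rf (nat_lit 895) (nat_lit 14208022508875122720)) (.cons (.ev (nat_lit 4740957908384230670339) (nat_lit 2)) (.cons (.rf (nat_lit 890) (nat_lit 16548802533347395616)) .nil)))))) .nil))))))) (.cons (.rf (nat_lit 890) (nat_lit 15395881028740548640)) (.cons (.br (nat_lit 6) (nat_lit 0) (.cons (.rf (nat_lit 897) (nat_lit 493858305440582043680)) (.cons (.br (nat_lit 7) (nat_lit 0) (.cons (.kr (nat_lit 309485009821626543701491712) (nat_lit 1208925891672223212634112) (nat_lit 6) (nat_lit 0)) (.cons (.rf (nat_lit 902) (nat_lit 493823368425323464736)) (.cons (.rf (nat_lit 902) (nat_lit 458082801782511207488)) (.cons (.rf (nat_lit 890) (nat_lit 16548802533347395616)) .nil))))) (.cons (.rf (nat_lit 901) (nat_lit 493858305440582043680)) (.cons (.rf (nat_lit 902) (nat_lit 493858305440582043680)) (.cons (.rf (nat_lit 902) (nat_lit 458117738797769786432)) (.cons (.rf (nat_lit 890) (nat_lit 16548802533347395616)) .nil))))))) .nil))))))))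 .nil)))))))) (.cons (.br (nat_lit 11) (nat_lit 1) (.cons (.br (nat_lit 13) (nat_lit 1) (.cons (.rf (nat_lit 769) (nat_lit 531903447458713438240)) .nil)) .nil)) .nil))),
 (.br (nat_lit 11) (nat_lit 0) (.cons (.kr (nat_lit 5212579268143220112182486446899201) (nat_lit 2658456150026156774336289311960334336) (nat_lit 0) (nat_lit 1)) (.cons (.br (nat_lit 12) (nat_lit 0) (.cons (.ev (nat_lit 2663668888990992395529901480207581187) (nat_lit 3)) (.cons (.rf (nat_lit 1) (nat_lit 582070421363777)) .nil))) .nil))),
 (.br (nat_lit 11) (nat_lit 0) (.cons (.ev (nat_lit 5212581132306907889595119680095239) (nat_lit 3)) (.cons (.br (nat_lit 15) (nat_lit 0) (.cons (.ev (nat_lit 2663709136276152288903897593258443267) (nat_lit 2)) (.cons (.rf (nat_lit 1) (nat_lit 582170178693185)) .nil))) .nil))),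
 (.br (nat_lit 11) (nat_lit 0) (.cons (.ev (nat_lit 5293709527945698509836513467170819) (nat_lit 3)) (.cons (.br (nat_lit 12) (nat_lit 0) (.cons (.ev (nat_lit 5212738343447713017076504540086273) (nat_lit 2)) (.cons (.rf (nat_lit 1) (nat_lit 582070320703553)) .nil))) .nil))),
 (.br (nat_lit 10) (nat_lit 0) (.cons (.ev (nat_lit 18614648544247567265725375365998445061) (nat_lit 4)) (.cons (.ev (nat_lit 5253302546102885391506113130660355) (nat_lit 2)) (.cons (.br (nat_lit 15) (nat_lit 0) (.cons (.ev (nat_lit 2663709136276152288903897593258443267) (nat_lit 2)) (.cons (.rf (nat_lit 2) (nat_lit 19076629385364844609)) .nil))) .nil)))),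
 (.br (nat_lit 15) (nat_lit 0) (.cons (.ev (nat_lit 340282387203349280781749930549898707200) (nat_lit 1)) .nil)),
 (.br (nat_lit 15) (nat_lit 0) (.cons (.ev (nat_lit 340282367000167839644343844196191371520) (nat_lit 1)) .nil)),
 (.br (nat_lit 12) (nat_lit 0) (.cons (.ev (nat_lit 340287579579435973401276316865343324160) (nat_lit 1)) (.cons (.rf (nat_lit 2) (nat_lit 19073217567492619489)) .nil)))]

theorem c48 : chkAll C T R L48 (nat_lit 883) = true := by decide +kernel

theorem l48 : (nat_lit 883) + L48.length = (nat_lit 911) := by decide +kernel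

/-- part of the certificates -/
def L49 : List Prf := [(.br (nat_lit 11) (nat_lit 0) (.cons (.ev (nat_lit 7980661843310346503124289567720473607) (nat_lit 3)) (.cons (.ev (nat_lit 7980661843310346503124289567653625859) (nat_lit 3)) (.cons (.ev (nat_lit 2663668730537085218638766692984946691) (nat_lit 3)) .nil)))),
 (.br (nat_lit 15) (nat_lit 0) (.cons (.ev (nat_lit 340287559218106483319271509645020168193) (nat_lit 1)) .nil)),
 (.br (nat_lit 15) (nat_lit 0) (.cons (.rf (nat_lit 874) (nat_lit 20668650417317463853088)) (.cons (.ev (nat_lit 87113620372335609190708290373454164656385) (nat_lit 1)) .nil))),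
 (.br (nat_lit 13) (nat_lit 0) (.cons (.ev (nat_lit 5212658497509919382907770122534913) (nat_lit 1)) .nil)),
 (.br (nat_lit 2) (nat_lit 0) (.cons (.br (nat_lit 10) (nat_lit 0) (.cons (.br (nat_lit 12) (nat_lit 0) (.cons (.kr (nat_lit 79537647524157740256306659584) (nat_lit 1329227995786124798723703164431826944) (nat_lit 1) (nat_lit 0)) (.cons (.br (nat_lit 15) (nat_lit 0) (.cons (.ev (nat_lit 5322124879941854122127171001742656007) (nat_lit 3)) (.cons (.rf (nat_lit 1) (nat_lit 582169206660161)) .nil))) .nil))) (.cons (.kr (nat_lit 1208925819896104151482368) (nat_lit 79228162514264337597855694848) (nat_lit 2) (nat_lit 0)) (.cons (.rf (nat_lit 904) (nat_lit 583706118939841765935136)) (.cons (.br (nat_lit 11) (nat_lit 0) (.cons (.rf (nat_lit 904) (nat_lit 469229049045898850567232)) (.cons (.kr (nat_lit 309485009893402662762709248) (nat_lit 1329227995784915872903807064592089088) (nat_lit 1) (nat_lit 0)) (.cons (.br (nat_lit 12) (nat_lit 0) (.cons (.ev (nat_lit 2663668730537085218638766692984946691) (nat_lit 3)) (.cons (.ev (nat_lit 5253302546102885391506113130660355)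 (nat_lit 2)) (.cons (.br (nat_lit 15) (nat_lit 0) (.cons (.ev (nat_lit 2663709136276152288903897593258443267) (nat_lit 2)) (.cons (.rf (nat_lit 528) (nat_lit 20193522128552893505)) .nil))) .nil)))) (.cons (.br (nat_lit 12) (nat_lit 0) (.cons (.rf (nat_lit 1) (nat_lit 582036127685697)) (.cons (.ev (nat_lit 5253302546102885391506113130660355) (nat_lit 2)) (.cons (.br (nat_lit 15) (nat_lit 0) (.cons (.rf (nat_lit 2) (nat_lit 20193522092957965377)) (.cons (.ev (nat_lit 2663709136276152288903897593258443267) (nat_lit 2)) .nil))) .nil)))) .nil))))) .nil))))) (.cons (.br (nat_lit 7) (nat_lit 0) (.cons (.br (nat_lit 12) (nat_lit 0) (.cons (.ev (nat_lit 5294026445441014257951859303383555) (nat_lit 3)) (.cons (.br (nat_lit 15) (nat_lit 0) (.cons (.ev (nat_lit 7981028827557152742629921928009220125) (nat_lit 5)) (.cons (.rf (nat_lit 1) (nat_lit 582169105999937)) .nil))) .nil))) (.cons (.rf (nat_lit 905) (nat_lit 583706118939841765935136)) (.cons (.rf (nat_lit 906) (nat_lit 583706118939841765935136)) (.cons (.br (nat_lit 11) (nat_lit 0) (.cons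 (.rf (nat_lit 905) (nat_lit 577618544958290991940676)) (.cons (.rf (nat_lit 906) (nat_lit 577618544958290991940676)) (.cons (.br (nat_lit 12) (nat_lit 0) (.cons (.ev (nat_lit 20441795602098735361914069648131) (nat_lit 2)) (.cons (.ev (nat_lit 680564754283672519617645101376168198403) (nat_lit 2)) (.cons (.br (nat_lit 15) (nat_lit 0) (.cons (.ev (nat_lit 683228382130618419454781451302701433600) (nat_lit 2)) (.cons (.rf (nat_lit 465) (nat_lit 21169342051143063086308553)) .nil))) .nil)))) (.cons (.br (nat_lit 12) (nat_lit 0) (.cons (.rf (nat_lit 1) (nat_lit 582036124543041)) (.cons (.ev (nat_lit 5253302546102885391506113130660355) (nat_lit 2)) (.cons (.ev (nat_lit 5212738343447713017076504540086273) (nat_lit 2)) .nil)))) .nil))))) .nil))))) (.cons (.br (nat_lit 7) (nat_lit 0) (.cons (.br (nat_lit 12) (nat_lit 0) (.cons (.kr (nat_lit 79537647524157740256306659584) (nat_lit 1329227995786124798723703164431826944) (nat_lit 1) (nat_lit 0)) (.cons (.br (nat_lit 15) (nat_lit 0) (.cons (.ev (nat_lit 2658476432746463825044403284296598016) (nat_lit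 2)) (.cons (.rf (nat_lit 1) (nat_lit 582168032259137)) .nil))) .nil))) (.cons (.ev (nat_lit 5334273725793538409955988871709187) (nat_lit 3)) (.cons (.kr (nat_lit 2663648288428366591882889794422833153) (nat_lit 20283028578393823712142421918208) (nat_lit 0) (nat_lit 2)) (.cons (.br (nat_lit 10) (nat_lit 0) (.cons (.kr (nat_lit 5192455314859874603950860950044673) (nat_lit 20282412026225676699025199464448) (nat_lit 0) (nat_lit 1)) (.cons (.ev (nat_lit 5253145330135784536811236824843779) (nat_lit 3)) (.cons (.br (nat_lit 12) (nat_lit 0) (.cons (.ev (nat_lit 1329289080700632240938183514254278912) (nat_lit 2)) (.cons (.ev (nat_lit 1361134720829084008453714200528507240963) (nat_lit 3)) (.cons (.br (nat_lit 15) (nat_lit 0) (.cons (.ev (nat_lit 1361134801957479628428655482323391874563) (nat_lit 3)) (.cons (.ev (nat_lit 18614445247877377353230333137782704655) (nat_lit 4)) .nil))) .nil)))) (.cons (.br (nat_lit 12) (nat_lit 0) (.cons (.rf (nat_lit 1) (nat_lit 582001764805697)) (.cons (.br (nat_lit 15) (nat_lit 0) (.cons (.ev (nat_lit 1366451713941857250922520763838633214471)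 (nat_lit 3)) (.cons (.br (nat_lit 16) (nat_lit 0) (.cons (.ev (nat_lit 2740873543506011334162137041327212069383) (nat_lit 4)) .nil)) .nil))) (.cons (.br (nat_lit 15) (nat_lit 0) (.cons (.br (nat_lit 16) (nat_lit 0) (.cons (.zr (nat_lit 1361145064856746315708994518464541884416) (nat_lit 2658456784470450520070217426333073927) (nat_lit 16) (nat_lit 6)) .nil)) (.cons (.ev (nat_lit 348449148980503224536633914839107677323783) (nat_lit 3)) .nil))) .nil)))) .nil))))) .nil))))) (.cons (.br (nat_lit 7) (nat_lit 0) (.cons (.br (nat_lit 11) (nat_lit 0) (.cons (.kr (nat_lit 79537647524157740256306659584) (nat_lit 1329227995786124798723703164431826944) (nat_lit 1) (nat_lit 0)) (.cons (.br (nat_lit 15) (nat_lit 0) (.cons (.ev (nat_lit 2663709136276152288903897593258443267) (nat_lit 2)) (.cons (.rf (nat_lit 1) (nat_lit 582168031211585)) .nil))) .nil))) (.cons (.br (nat_lit 10) (nat_lit 0) (.cons (.ev (nat_lit 5375632698024448879721958156928005) (nat_lit 4)) (.cons (.br (nat_lit 15) (nat_lit 0) (.cons (.ev (nat_lit 1329289001473692838039933608012087810)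 (nat_lit 2)) (.cons (.rf (nat_lit 1) (nat_lit 582169103904833)) .nil))) .nil))) (.cons (.br (nat_lit 10) (nat_lit 0) (.cons (.kr (nat_lit 79537647524157740256306659584) (nat_lit 1329227995786124798723703164431826944) (nat_lit 1) (nat_lit 0)) (.cons (.br (nat_lit 11) (nat_lit 0) (.cons (.ev (nat_lit 5212579889540536127067634438111747) (nat_lit 2)) (.cons (.rf (nat_lit 1) (nat_lit 582035959918657)) .nil))) .nil))) (.cons (.br (nat_lit 16) (nat_lit 0) (.cons (.ev (nat_lit 5253302546102885391506113130660355) (nat_lit 2)) (.cons (.rf (nat_lit 907) (nat_lit 19926519232773908561233952)) (.cons (.ev (nat_lit 2663668729294300031486640282879001091) (nat_lit 2)) (.cons (.br (nat_lit 16) (nat_lit 0) (.cons (.ev (nat_lit 5253302546102885391506113130660355) (nat_lit 2)) (.cons (.rf (nat_lit 907) (nat_lit 19926519232773908561233952)) (.cons (.ev (nat_lit 2663668729294300031486640282879001091) (nat_lit 2)) .nil)))) .nil))))) .nil))))) (.cons (.br (nat_lit 7) (nat_lit 0) (.cons (.ev (nat_lit 2663668570840392854596631412810449411) (nat_lit 2)) (.cons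 (.br (nat_lit 10) (nat_lit 0) (.cons (.ev (nat_lit 5212579889540536127067634471534593) (nat_lit 2)) (.cons (.br (nat_lit 12) (nat_lit 0) (.cons (.kr (nat_lit 2663648446884696324331305976503205889) (nat_lit 20283030991541543765554789351424) (nat_lit 0) (nat_lit 1)) (.cons (.rf (nat_lit 1) (nat_lit 582066024692801)) .nil))) .nil))) (.cons (.ev (nat_lit 2663668729294300031486640282912423937) (nat_lit 2)) (.cons (.br (nat_lit 11) (nat_lit 0) (.cons (.ev (nat_lit 5212579889531128287592233033662977) (nat_lit 2)) (.cons (.ev (nat_lit 5212738343438305177601120315506691) (nat_lit 2)) (.cons (.br (nat_lit 10) (nat_lit 0) (.cons (.ev (nat_lit 2663790425616094963194417555255198209) (nat_lit 3)) (.cons (.ev (nat_lit 1374427081919671267738932183117377439755) (nat_lit 4)) (.cons (.br (nat_lit 12) (nat_lit 0) (.cons (.ev (nat_lit 1369110332194560840977804965114551340039) (nat_lit 4)) (.cons (.br (nat_lit 16) (nat_lit 0) (.cons (.ev (nat_lit 1361134721304455373167421587738629374979) (nat_lit 3)) .nil)) .nil))) .nil)))) (.cons (.br (nat_lit 10) (nat_lit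 0) (.cons (.rf (nat_lit 1) (nat_lit 582032836213825)) (.cons (.br (nat_lit 12) (nat_lit 0) (.cons (.ev (nat_lit 5322165602603242766541236336750363655) (nat_lit 3)) (.cons (.rf (nat_lit 2) (nat_lit 19073217567497862209)) .nil))) (.cons (.br (nat_lit 12) (nat_lit 0) (.cons (.rf (nat_lit 632) (nat_lit 19993322772992241201229134)) (.cons (.ev (nat_lit 5253303784052369267425806284620807) (nat_lit 3)) .nil))) .nil)))) .nil))))) .nil))))) (.cons (.br (nat_lit 7) (nat_lit 0) (.cons (.br (nat_lit 11) (nat_lit 0) (.cons (.ev (nat_lit 5212579889540536127067634471534593) (nat_lit 2)) (.cons (.br (nat_lit 12) (nat_lit 0) (.cons (.ev (nat_lit 2663709294734904650697695174475252225) (nat_lit 2)) (.cons (.rf (nat_lit 1) (nat_lit 582070445484257)) .nil))) (.cons (.br (nat_lit 12) (nat_lit 0) (.cons (.ev (nat_lit 2663668730537085218638766692918100999) (nat_lit 3)) (.cons (.ev (nat_lit 340287579500206606665112383814008635648) (nat_lit 1)) (.cons (.br (nat_lit 15) (nat_lit 0) (.cons (.ev (nat_lit 2663709136276152288903897593258443267) (nat_lit 2)) (.cons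 (.rf (nat_lit 639) (nat_lit 21163289106243704889747821)) .nil))) .nil)))) (.cons (.br (nat_lit 15) (nat_lit 0) (.cons (.rf (nat_lit 1) (nat_lit 582036119300321)) (.cons (.br (nat_lit 12) (nat_lit 0) (.cons (.ev (nat_lit 340287579579435973401276316865326481665) (nat_lit 1)) (.cons (.rf (nat_lit 908) (nat_lit 21174442659472880612542496)) .nil))) (.cons (.ev (nat_lit 2663709136276152288903897593258443267) (nat_lit 2)) .nil)))) .nil))))) (.cons (.br (nat_lit 12) (nat_lit 0) (.cons (.ev (nat_lit 5212579889540536127067634471534593) (nat_lit 2)) (.cons (.ev (nat_lit 7980661843310346503124289567720473607) (nat_lit 3)) (.cons (.br (nat_lit 10) (nat_lit 0) (.cons (.ev (nat_lit 5253303784052369267425806351990787) (nat_lit 3)) (.cons (.ev (nat_lit 340287579500206606665112383814008635648) (nat_lit 1)) (.cons (.br (nat_lit 15) (nat_lit 0) (.cons (.ev (nat_lit 2663709136276152288903897593225019393) (nat_lit 2)) (.cons (.rf (nat_lit 909) (nat_lit 21174442659472880612542496)) .nil))) .nil)))) (.cons (.br (nat_lit 15) (nat_lit 0) (.cons (.rf (nat_lit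 1) (nat_lit 582070411930849)) (.cons (.ev (nat_lit 2663709136276152288903897593225019393) (nat_lit 2)) (.cons (.br (nat_lit 10) (nat_lit 0) (.cons (.rf (nat_lit 618) (nat_lit 19992142218492032876751213)) (.cons (.ev (nat_lit 87113615159756341047525071681309881925888) (nat_lit 1)) .nil))) .nil)))) .nil))))) (.cons (.br (nat_lit 10) (nat_lit 0) (.cons (.ev (nat_lit 5212738343447713017076504573510147) (nat_lit 2)) (.cons (.kr (nat_lit 20282409608374036906816896499712) (nat_lit 1329228075013078387168144653824294912) (nat_lit 9) (nat_lit 0)) (.cons (.br (nat_lit 11) (nat_lit 0) (.cons (.ev (nat_lit 2663709294734904650697695174475252225) (nat_lit 2)) (.cons (.ev (nat_lit 340287579500206606665112383814008635648) (nat_lit 1)) (.cons (.br (nat_lit 15) (nat_lit 0) (.cons (.ev (nat_lit 340287579579435973401276316865326481665) (nat_lit 1)) (.cons (.ev (nat_lit 2663709136276152288903897593258443267) (nat_lit 2)) .nil))) .nil)))) (.cons (.br (nat_lit 11) (nat_lit 0) (.cons (.rf (nat_lit 1) (nat_lit 582001726009569)) (.cons (.br (nat_lit 15) (nat_lit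 0) (.cons (.ev (nat_lit 2663709136276152288903897593258443267) (nat_lit 2)) (.cons (.rf (nat_lit 2) (nat_lit 19076629385359601889)) .nil))) (.cons (.br (nat_lit 15) (nat_lit 0) (.cons (.rf (nat_lit 358) (nat_lit 21168459964123278114719780)) (.cons (.ev (nat_lit 2663709136276152288903897593258443267) (nat_lit 2)) .nil))) .nil)))) .nil))))) (.cons (.br (nat_lit 10) (nat_lit 0) (.cons (.br (nat_lit 12) (nat_lit 0) (.cons (.ev (nat_lit 5212738343447713017076504540086273) (nat_lit 2)) (.cons (.rf (nat_lit 1) (nat_lit 582066116967649)) .nil))) (.cons (.kr (nat_lit 20282409608374036906816896499712) (nat_lit 1329228075013078387168144653824294912) (nat_lit 9) (nat_lit 0)) (.cons (.br (nat_lit 11) (nat_lit 0) (.cons (.ev (nat_lit 5212579889540536127067634438111747) (nat_lit 2)) (.cons (.ev (nat_lit 2663709136276152288903897593225019393) (nat_lit 2)) (.cons (.rf (nat_lit 910) (nat_lit 677582165103132179601393696)) .nil)))) (.cons (.br (nat_lit 11) (nat_lit 0) (.cons (.rf (nat_lit 1) (nat_lit 581998504787169)) (.cons (.ev (nat_lit 2663709136276152288903897593225019393)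 (nat_lit 2)) (.cons (.br (nat_lit 12) (nat_lit 0) (.cons (.br (nat_lit 16) (nat_lit 0) (.cons (.ev (nat_lit 341616787213583127830611845254473646080) (nat_lit 1)) .nil)) (.cons (.ev (nat_lit 87113615159835570423669075089754031128576) (nat_lit 1)) .nil))) .nil)))) .nil))))) (.cons (.br (nat_lit 15) (nat_lit 0) (.cons (.br (nat_lit 12) (nat_lit 0) (.cons (.kr (nat_lit 5212579268143220112182486446899201) (nat_lit 2658456150026156774336289311960334336) (nat_lit 0) (nat_lit 1)) (.cons (.ev (nat_lit 1361134802432851030921294732490675716099) (nat_lit 3)) (.cons (.br (nat_lit 16) (nat_lit 0) (.cons (.zr (nat_lit 1361129569095801905168415929563814560256) (nat_lit 2674032882147854172566719285910831107) (nat_lit 16) (nat_lit 7)) (.cons (.zr (nat_lit 1361129609660621121916489744288495698432) (nat_lit 7980560588483098029088747661618839553) (nat_lit 16) (nat_lit 7)) .nil))) .nil)))) (.cons (.br (nat_lit 10) (nat_lit 0) (.cons (.kr (nat_lit 5212579268143220112182486446899201) (nat_lit 2658456150026156774336289311960334336) (nat_lit 0) (nat_lit 1))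 (.cons (.ev (nat_lit 341616787213583123089798617215885443073) (nat_lit 1)) (.cons (.br (nat_lit 12) (nat_lit 0) (.cons (.ev (nat_lit 341616787292810076678243621650936430848) (nat_lit 1)) (.cons (.ev (nat_lit 2663709294734904650697695174441566211) (nat_lit 2)) .nil))) .nil)))) (.cons (.br (nat_lit 10) (nat_lit 0) (.cons (.ev (nat_lit 79231803514307260073747022082) (nat_lit 2)) (.cons (.ev (nat_lit 1361134802115943216567514714716112028679) (nat_lit 3)) (.cons (.rf (nat_lit 911) (nat_lit 677582165103132179601393696)) .nil)))) (.cons (.ev (nat_lit 340282366920938468185813429370444840961) (nat_lit 1)) (.cons (.br (nat_lit 11) (nat_lit 0) (.cons (.br (nat_lit 16) (nat_lit 0) (.cons (.ev (nat_lit 5212738343447713017076504540086273) (nat_lit 2)) (.cons (.rf (nat_lit 392) (nat_lit 21170605664577824646857792)) .nil))) (.cons (.br (nat_lit 10) (nat_lit 0) (.cons (.ev (nat_lit 5212579889540536127067634438111747) (nat_lit 2)) (.cons (.rf (nat_lit 912) (nat_lit 21174441469360359728056352)) .nil))) (.cons (.br (nat_lit 10) (nat_lit 0) (.cons (.ev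 (nat_lit 5212579889540536127067634438111747) (nat_lit 2)) (.cons (.rf (nat_lit 560) (nat_lit 21170866224837556556629056)) .nil))) (.cons (.ev (nat_lit 2663709136276152288903897593258443267) (nat_lit 2)) .nil))))) .nil)))))) (.cons (.br (nat_lit 10) (nat_lit 0) (.cons (.br (nat_lit 12) (nat_lit 0) (.cons (.rf (nat_lit 1) (nat_lit 581898680347969)) (.cons (.ev (nat_lit 5212738343447713017076504540086273) (nat_lit 2)) (.cons (.rf (nat_lit 913) (nat_lit 677582165103132179601393696)) .nil)))) (.cons (.br (nat_lit 11) (nat_lit 0) (.cons (.kr (nat_lit 5212579268143220112182486446899201) (nat_lit 2658456150026156774336289311960334336) (nat_lit 0) (nat_lit 1)) (.cons (.ev (nat_lit 5212579889540536127067634438111747) (nat_lit 2)) (.cons (.br (nat_lit 15) (nat_lit 0) (.cons (.kr (nat_lit 20282410817299856802921047982080) (nat_lit 1329228154241240901432482251679989760) (nat_lit 2) (nat_lit 0)) (.cons (.ev (nat_lit 2663709136276152288903897593258443267) (nat_lit 2)) .nil))) .nil)))) (.cons (.br (nat_lit 11) (nat_lit 0) (.cons (.kr (nat_lit 5212579268143220112182486446899201)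 (nat_lit 2658456150026156774336289311960334336) (nat_lit 0) (nat_lit 1)) (.cons (.br (nat_lit 12) (nat_lit 0) (.cons (.ev (nat_lit 5253303784052369267425806284620807) (nat_lit 3)) (.cons (.br (nat_lit 16) (nat_lit 0) (.cons (.ev (nat_lit 2622242509833950878326673874062812148009993) (nat_lit 5)) .nil)) .nil))) (.cons (.br (nat_lit 12) (nat_lit 0) (.cons (.br (nat_lit 16) (nat_lit 0) (.cons (.ev (nat_lit 1361134802432851030921294732490743088135) (nat_lit 3)) .nil)) (.cons (.zr (nat_lit 348449143909583918246011690193019385940485) (nat_lit 13307857799162713401542462807312695296) (nat_lit 16) (nat_lit 1)) .nil))) .nil)))) (.cons (.br (nat_lit 11) (nat_lit 0) (.cons (.ev (nat_lit 5212579889540536127067634438111747) (nat_lit 2)) (.cons (.br (nat_lit 16) (nat_lit 0) (.cons (.ev (nat_lit 2663709294734904650697695174441566211) (nat_lit 2)) (.cons (.ev (nat_lit 341611615199134196654653738705378869505) (nat_lit 1)) .nil))) (.cons (.br (nat_lit 15) (nat_lit 0) (.cons (.ev (nat_lit 5253303784052369267425806284620807) (nat_lit 3)) (.cons (.ev (nat_lit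 341611615199134196654653738705378869505) (nat_lit 1)) .nil))) (.cons (.br (nat_lit 17) (nat_lit 0) (.cons (.ev (nat_lit 87112291124057415880127982220774052266240) (nat_lit 1)) (.cons (.ev (nat_lit 2663709136276152288903897593258443267) (nat_lit 2)) (.cons (.ev (nat_lit 176266271358755652048097648869309898163715) (nat_lit 3)) .nil)))) .nil))))) (.cons (.br (nat_lit 12) (nat_lit 0) (.cons (.rf (nat_lit 913) (nat_lit 677582162799540970201384992)) (.cons (.rf (nat_lit 911) (nat_lit 677582165103132179601393696)) (.cons (.br (nat_lit 11) (nat_lit 0) (.cons (.rf (nat_lit 909) (nat_lit 21164997926507149912049696)) (.cons (.rf (nat_lit 914) (nat_lit 661701333108527519074336)) (.cons (.ev (nat_lit 87112285952122193897799655890621470670848) (nat_lit 1)) .nil)))) (.cons (.br (nat_lit 11) (nat_lit 0) (.cons (.ev (nat_lit 2663709294734904650697695174441566211) (nat_lit 2)) (.cons (.br (nat_lit 15) (nat_lit 0) (.cons (.ev (nat_lit 2663709136276152288903897593258443267) (nat_lit 2)) .nil)) .nil))) .nil))))) .nil)))))) .nil))))))) .nil))))))),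
 (.br (nat_lit 10) (nat_lit 0) (.cons (.kr (nat_lit 1208925819896104151417088) (nat_lit 79228162514264338693072355328) (nat_lit 1) (nat_lit 0)) (.cons (.ev (nat_lit 5253302546093403765052226387575297) (nat_lit 2)) (.cons (.ev (nat_lit 5253302546102885391506113130790915) (nat_lit 2)) (.cons (.br (nat_lit 11) (nat_lit 0) (.cons (.rf (nat_lit 1) (nat_lit 582001726201025)) (.cons (.br (nat_lit 15) (nat_lit 0) (.cons (.ev (nat_lit 341611615278361145502285516205665026048) (nat_lit 1)) (.cons (.rf (nat_lit 2) (nat_lit 19076629385359793345)) .nil))) (.cons (.br (nat_lit 17) (nat_lit 0) (.cons (.ev (nat_lit 87112285952122193902540469117564808593665) (nat_lit 1)) (.cons (.ev (nat_lit 87112291124136642833716427225209103253505) (nat_lit 1)) .nil))) .nil)))) .nil))))),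
 (.br (nat_lit 10) (nat_lit 0) (.cons (.kr (nat_lit 1208925819896104151417088) (nat_lit 79228162514264338693072355328) (nat_lit 1) (nat_lit 0)) (.cons (.ev (nat_lit 5212579889531128287590042600210433) (nat_lit 2)) (.cons (.ev (nat_lit 5212579889540536127067634438111747) (nat_lit 2)) (.cons (.br (nat_lit 7) (nat_lit 0) (.cons (.rf (nat_lit 1) (nat_lit 582001591987393)) (.cons (.br (nat_lit 15) (nat_lit 0) (.cons (.ev (nat_lit 341616807496301007547765479448487395585) (nat_lit 1)) (.cons (.rf (nat_lit 639) (nat_lit 21170522679884220864960744)) .nil))) (.cons (.br (nat_lit 15) (nat_lit 0) (.cons (.rf (nat_lit 908) (nat_lit 21174252350728363180034084)) (.cons (.ev (nat_lit 87112291144339514785121717540118966829056) (nat_lit 1)) .nil))) .nil)))) .nil)))))]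

theorem c49 : chkAll C T R L49 (nat_lit 911) = true := by decide +kernel

theorem l49 : (nat_lit 911) + L49.length = (nat_lit 918) := by decide +kernel

/-- part of the certificates -/
def L50 : List Prf := [(.br (nat_lit 7) (nat_lit 0) (.cons (.ev (nat_lit 5253144087350523597710722313748483) (nat_lit 2)) (.cons (.ev (nat_lit 5322206486184766150192028516784014849) (nat_lit 4)) (.cons (.br (nat_lit 10) (nat_lit 0) (.cons (.ev (nat_lit 5212738343438305177598912702185987) (nat_lit 2)) (.cons (.ev (nat_lit 5322165602603242766541236336750624775) (nat_lit 3)) (.cons (.br (nat_lit 11) (nat_lit 0) (.cons (.ev (nat_lit 341611615278361145502285516205665026048) (nat_lit 1)) (.cons (.br (nat_lit 16) (nat_lit 0) (.cons (.zr (nat_lit 4083388545345041508014742853568407011328) (nat_lit 5322104280629257763250221767876805131) (nat_lit 48) (nat_lit 7)) .nil)) .nil))) .nil)))) (.cons (.br (nat_lit 10) (nat_lit 0) (.cons (.ev (nat_lit 5212738343438305177598912702185987) (nat_lit 2)) (.cons (.br (nat_lit 16) (nat_lit 0) (.cons (.ev (nat_lit 5322246416566947281375750957509772295)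 (nat_lit 3)) (.cons (.ev (nat_lit 1361134802115943216567514714716179398659) (nat_lit 3)) .nil))) (.cons (.br (nat_lit 11) (nat_lit 0) (.cons (.br (nat_lit 16) (nat_lit 0) (.cons (.zr (nat_lit 4083476672414769303853258377746205114375) (nat_lit 5317135090276377105075106675516113408) (nat_lit 48) (nat_lit 11)) .nil)) (.cons (.ev (nat_lit 87112291144339514785121717540118966829056) (nat_lit 1)) .nil))) .nil)))) .nil))))),
 (.br (nat_lit 10) (nat_lit 0) (.cons (.ev (nat_lit 5253144087360005224164609056965121) (nat_lit 2)) (.cons (.ev (nat_lit 5212738343447713017076504540086273) (nat_lit 2)) (.cons (.rf (nat_lit 918) (nat_lit 19920431658792357787240484)) (.cons (.br (nat_lit 7) (nat_lit 0) (.cons (.ev (nat_lit 680564754283672519617645098073321505280) (nat_lit 2)) (.cons (.ev (nat_lit 1366451795228716449407410241071556329997) (nat_lit 4)) (.cons (.br (nat_lit 11) (nat_lit 0) (.cons (.ev (nat_lit 4099344554881906559269029267978663757317) (nat_lit 4)) (.cons (.ev (nat_lit 1361134761393281827923100651605863956481) (nat_lit 3)) .nil))) .nil))))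 (.cons (.br (nat_lit 7) (nat_lit 0) (.cons (.br (nat_lit 16) (nat_lit 0) (.cons (.zr (nat_lit 1361134761393279391181705566128133373957) (nat_lit 10633824441648302068816487541182038528) (nat_lit 16) (nat_lit 2)) (.cons (.zr (nat_lit 1361129529006970633525714947907765927936) (nat_lit 25961484297509970549445414218629637) (nat_lit 16) (nat_lit 7)) .nil))) (.cons (.br (nat_lit 11) (nat_lit 0) (.cons (.ev (nat_lit 341611594917032869068466523909690294273) (nat_lit 1)) (.cons (.br (nat_lit 16) (nat_lit 0) (.cons (.zr (nat_lit 1366472341151188609427129824139171332608) (nat_lit 61165998385238528486801441947649) (nat_lit 16) (nat_lit 6)) .nil)) .nil))) (.cons (.br (nat_lit 11) (nat_lit 0) (.cons (.ev (nat_lit 341611615278361150243098743149036634369) (nat_lit 1)) (.cons (.br (nat_lit 15) (nat_lit 0) (.cons (.ev (nat_lit 5322124879941854122127173226569400325) (nat_lit 3)) .nil)) .nil))) (.cons (.br (nat_lit 11) (nat_lit 0) (.cons (.br (nat_lit 16) (nat_lit 0) (.cons (.zr (nat_lit 1366461956557471539734979273908205650432) (nat_lit 20601179168490454674267160576003)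 (nat_lit 16) (nat_lit 6)) .nil)) (.cons (.br (nat_lit 15) (nat_lit 0) (.cons (.ev (nat_lit 5322205693905558784535640436870743045) (nat_lit 3)) .nil)) (.cons (.ev (nat_lit 87112285931760246646642418586779192983808) (nat_lit 1)) .nil)))) .nil))))) .nil)))))),
 (.br (nat_lit 11) (nat_lit 0) (.cons (.br (nat_lit 16) (nat_lit 0) (.cons (.ev (nat_lit 683223210195396441867267787342527660545) (nat_lit 2)) .nil)) (.cons (.ev (nat_lit 348449149224683185902225214267174537921037) (nat_lit 4)) .nil))),
 (.br (nat_lit 2) (nat_lit 0) (.cons (.rf (nat_lit 915) (nat_lit 583706118939841765934144)) (.cons (.rf (nat_lit 915) (nat_lit 469229049045898850567232)) (.cons (.rf (nat_lit 915) (nat_lit 577618544958290991940676)) (.cons (.rf (nat_lit 915) (nat_lit 463141475064348076573764)) (.cons (.kr (nat_lit 5212579268143220112181391230238721) (nat_lit 2658456150026156774336290407176994816) (nat_lit 0) (nat_lit 1)) (.cons (.br (nat_lit 6) (nat_lit 0) (.cons (.rf (nat_lit 916) (nat_lit 19926519232773908561233952)) (.cons (.br (nat_lit 7) (nat_lit 0) (.cons (.br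 (nat_lit 15) (nat_lit 0) (.cons (.ev (nat_lit 5322124563034039768347157642405479427) (nat_lit 3)) (.cons (.rf (nat_lit 1) (nat_lit 582169095710913)) .nil))) (.cons (.ev (nat_lit 5253144087350523597710722313748483) (nat_lit 2)) (.cons (.ev (nat_lit 5253144087360005224164609056965121) (nat_lit 2)) (.cons (.br (nat_lit 11) (nat_lit 0) (.cons (.ev (nat_lit 5212579889531128287590042600210433) (nat_lit 2)) (.cons (.ev (nat_lit 5212579889540536127067634438111747) (nat_lit 2)) (.cons (.rf (nat_lit 536) (nat_lit 640105464695078674145314848)) .nil)))) .nil))))) (.cons (.rf (nat_lit 917) (nat_lit 19926519232773908561233952)) (.cons (.rf (nat_lit 918) (nat_lit 19926519232773908561233952)) (.cons (.rf (nat_lit 919) (nat_lit 19926519232773908561233952)) (.cons (.br (nat_lit 10) (nat_lit 0) (.cons (.rf (nat_lit 917) (nat_lit 19920431658792357787240484)) (.cons (.rf (nat_lit 916) (nat_lit 19920431658792357787240484)) (.cons (.rf (nat_lit 918) (nat_lit 19920431658792357787240484)) (.cons (.rf (nat_lit 919) (nat_lit 19920431658792357787240484)) (.cons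 (.br (nat_lit 7) (nat_lit 0) (.cons (.br (nat_lit 15) (nat_lit 0) (.cons (.ev (nat_lit 2658476274292556648154391094185034242) (nat_lit 2)) (.cons (.ev (nat_lit 174227230339953239747665003927454886134274) (nat_lit 2)) .nil))) (.cons (.rf (nat_lit 920) (nat_lit 677582165103132179601393696)) (.cons (.br (nat_lit 11) (nat_lit 0) (.cons (.rf (nat_lit 920) (nat_lit 677576077529150628827400228)) (.cons (.ev (nat_lit 1361134761393281827923100647190704685061) (nat_lit 3)) (.cons (.ev (nat_lit 348449149224683185940151720082721510787589) (nat_lit 4)) .nil)))) (.cons (.br (nat_lit 11) (nat_lit 0) (.cons (.ev (nat_lit 1045347436515557625011760722677175588752901) (nat_lit 4)) (.cons (.ev (nat_lit 1045347436515557625049392080587542940354061) (nat_lit 4)) .nil))) .nil))))) .nil)))))) .nil))))))) .nil))))))),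
 (.br (nat_lit 11) (nat_lit 0) (.cons (.kr (nat_lit 1329227995786124798723703164431761408) (nat_lit 79537647524157740256306659328) (nat_lit 6) (nat_lit 0)) (.cons (.ev (nat_lit 340282387203658761050685991076919050496) (nat_lit 1)) (.cons (.br (nat_lit 15) (nat_lit 0) (.cons (.ev (nat_lit 341616787292810081419056849698114568449) (nat_lit 1)) (.cons (.ev (nat_lit 2663709294734895169071239097332269057) (nat_lit 2)) .nil))) .nil)))),
 (.br (nat_lit 10) (nat_lit 0) (.cons (.kr (nat_lit 5212579268143220112182486446899201) (nat_lit 2658456150026156774336289311960334336) (nat_lit 0) (nat_lit 1)) (.cons (.ev (nat_lit 340287559218107696967457324569368461313) (nat_lit 1)) (.cons (.br (nat_lit 15) (nat_lit 0) (.cons (.ev (nat_lit 341611615278361145502285516205665026048) (nat_lit 1)) (.cons (.ev (nat_lit 2663709294734895169071241287765721601) (nat_lit 2)) .nil))) .nil)))),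
 (.br (nat_lit 15) (nat_lit 0) (.cons (.ev (nat_lit 341611594996262240508550195756960645377) (nat_lit 1)) (.cons (.ev (nat_lit 341611594996262240508550195756943802368) (nat_lit 1)) (.cons (.ev (nat_lit 524718073460817647764705536336443352285191) (nat_lit 3)) .nil)))),
 (.br (nat_lit 10) (nat_lit 0) (.cons (.ev (nat_lit 1361134680581794003486260434557840131079) (nat_lit 3)) (.cons (.ev (nat_lit 341616787292810076678243622754742960128) (nat_lit 1)) (.cons (.br (nat_lit 11) (nat_lit 0) (.cons (.ev (nat_lit 341616787292810076678243621650936430848) (nat_lit 1)) (.cons (.rf (nat_lit 924) (nat_lit 677582165103132179601393696)) .nil))) .nil)))),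
 (.br (nat_lit 12) (nat_lit 0) (.cons (.rf (nat_lit 922) (nat_lit 19926519232773908561233952)) (.cons (.rf (nat_lit 923) (nat_lit 19926519232773908561233952)) (.cons (.ev (nat_lit 7980581029346623025036867173609636867) (nat_lit 3)) (.cons (.rf (nat_lit 925) (nat_lit 19926519232773908561233952)) (.cons (.br (nat_lit 15) (nat_lit 0) (.cons (.rf (nat_lit 923) (nat_lit 19812042162879965645867040)) (.cons (.rf (nat_lit 922) (nat_lit 19812042162879965645867040)) (.cons (.rf (nat_lit 925) (nat_lit 19812042162879965645867040)) (.cons (.br (nat_lit 16) (nat_lit 0) (.cons (.ev (nat_lit 2663750175850219325007121242208470533) (nat_lit 3)) (.cons (.ev (nat_lit 7980661843310318132031904202396927489) (nat_lit 3)) (.cons (.ev (nat_lit 88133133032523062051236607683796077249027) (nat_lit 2)) .nil)))) .nil))))) .nil)))))),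
 (.br (nat_lit 14) (nat_lit 0) (.cons (.ev (nat_lit 1344804886360534578373759725025231361) (nat_lit 2)) .nil)),
 (.br (nat_lit 12) (nat_lit 0) (.cons (.ev (nat_lit 5212579889540536127067634438111747) (nat_lit 2)) (.cons (.ev (nat_lit 1363793217542686578010331390369228390403) (nat_lit 3)) (.cons (.br (nat_lit 15) (nat_lit 0) (.cons (.ev (nat_lit 5212579889531128287590042600210433) (nat_lit 2)) (.cons (.ev (nat_lit 2663750175850219325007121242208470533) (nat_lit 3)) .nil))) .nil)))),
 (.br (nat_lit 7) (nat_lit 0) (.cons (.br (nat_lit 12) (nat_lit 0) (.cons (.ev (nat_lit 5212898040130669509097057415332867) (nat_lit 3)) (.cons (.ev (nat_lit 1361134680581794003486260434557840131079) (nat_lit 3)) (.cons (.br (nat_lit 15) (nat_lit 0) (.cons (.ev (nat_lit 1366451592246787912585098495142830277639) (nat_lit 3)) (.cons (.rf (nat_lit 927) (nat_lit 661698952883485750167584)) .nil))) .nil)))) (.cons (.ev (nat_lit 5253144087360005224164609056965121) (nat_lit 2)) (.cons (.ev (nat_lit 5253144087350523597710722313748483) (nat_lit 2)) (.cons (.rf (nat_lit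 928) (nat_lit 19926519232773908561233952)) (.cons (.br (nat_lit 11) (nat_lit 0) (.cons (.ev (nat_lit 5212579889540536127067634438111747) (nat_lit 2)) (.cons (.ev (nat_lit 5212579889531128287590042600210433) (nat_lit 2)) (.cons (.rf (nat_lit 928) (nat_lit 19920431658792357787240484)) (.cons (.br (nat_lit 12) (nat_lit 0) (.cons (.ev (nat_lit 2658476274292556648154394397031662081) (nat_lit 2)) (.cons (.ev (nat_lit 680569926298121464905362421010206425600) (nat_lit 2)) (.cons (.ev (nat_lit 87112291124057415880127982220774052266240) (nat_lit 1)) .nil)))) .nil))))) .nil)))))),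
 (.br (nat_lit 12) (nat_lit 0) (.cons (.ev (nat_lit 5212579889540536127067634438111747) (nat_lit 2)) (.cons (.ev (nat_lit 1363793217542686578010331385988362011651) (nat_lit 3)) (.cons (.br (nat_lit 15) (nat_lit 0) (.cons (.ev (nat_lit 5212579889531128287590042600210433) (nat_lit 2)) (.cons (.ev (nat_lit 1363793136731198762833756696167393133061) (nat_lit 3)) .nil))) .nil)))),
 (.br (nat_lit 7) (nat_lit 0) (.cons (.br (nat_lit 12) (nat_lit 0) (.cons (.ev (nat_lit 5212898040130669509092676481582087) (nat_lit 3)) (.cons (.ev (nat_lit 1361134680581794003486260430177040598019) (nat_lit 3)) (.cons (.br (nat_lit 15) (nat_lit 0) (.cons (.ev (nat_lit 1366451592246787912585098490762030744579) (nat_lit 3)) (.cons (.rf (nat_lit 927) (nat_lit 661698917980588638046240)) .nil))) .nil)))) (.cons (.ev (nat_lit 5253144087360005224162418623512577) (nat_lit 2)) (.cons (.ev (nat_lit 5253144087350523597708531880559107) (nat_lit 2)) (.cons (.rf (nat_lit 930) (nat_lit 19926519232773908561233952)) (.cons (.br (nat_lit 10) (nat_lit 0) (.cons (.ev (nat_lit 5212579889540536127067634438111747)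 (nat_lit 2)) (.cons (.ev (nat_lit 5212579889531128287590042600210433) (nat_lit 2)) (.cons (.rf (nat_lit 930) (nat_lit 19805954588898414871873572)) (.cons (.br (nat_lit 17) (nat_lit 0) (.cons (.ev (nat_lit 87112291124057415880127982219670245605376) (nat_lit 1)) (.cons (.ev (nat_lit 87112291124057415875387168992726907683073) (nat_lit 1)) (.cons (.kr (nat_lit 174224577055817351828093874279639658004481) (nat_lit 680564754124286535300786122779961327616) (nat_lit 0) (nat_lit 1)) .nil)))) .nil))))) .nil)))))),
 (.br (nat_lit 7) (nat_lit 0) (.cons (.ev (nat_lit 5253144087360005224164609056965121) (nat_lit 2)) (.cons (.ev (nat_lit 5253144087360005224162418623512577) (nat_lit 2)) (.cons (.kr (nat_lit 2658456150026156774336290407160217601) (nat_lit 5212579268143220112181391247015936) (nat_lit 0) (nat_lit 1)) (.cons (.ev (nat_lit 340282366920938463481893690574492467456) (nat_lit 1)) (.cons (.br (nat_lit 11) (nat_lit 0) (.cons (.rf (nat_lit 926) (nat_lit 19920431658792357787240484)) (.cons (.kr (nat_lit 5192296858534846075274570038771712) (nat_lit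 1329228075013078387168144653824294912) (nat_lit 8) (nat_lit 0)) (.cons (.br (nat_lit 15) (nat_lit 0) (.cons (.ev (nat_lit 340282387203658765791499218020290527233) (nat_lit 1)) (.cons (.ev (nat_lit 2663668729294300031486640282878869507) (nat_lit 2)) .nil))) (.cons (.br (nat_lit 17) (nat_lit 0) (.cons (.ev (nat_lit 87112291144339514789825637278914919334145) (nat_lit 1)) (.cons (.ev (nat_lit 2663668729294300031486640282878869507) (nat_lit 2)) (.cons (.br (nat_lit 10) (nat_lit 0) (.cons (.zr (nat_lit 1371768484580717015796918862640253501440) (nat_lit 141977488646489684945252103881221) (nat_lit 16) (nat_lit 6)) .nil)) .nil)))) .nil))))) .nil)))))),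
 (.br (nat_lit 7) (nat_lit 0) (.cons (.ev (nat_lit 5253144087350523597710722313748483) (nat_lit 2)) (.cons (.ev (nat_lit 5253144087350523597708531880559107) (nat_lit 2)) (.cons (.kr (nat_lit 2658456150026156774336290407160217601) (nat_lit 5212579268143220112181391247015936) (nat_lit 0) (nat_lit 1)) (.cons (.ev (nat_lit 340282366920938468185813429370444840961) (nat_lit 1)) (.cons (.br (nat_lit 12) (nat_lit 0) (.cons (.rf (nat_lit 932) (nat_lit 19920431658792357787240484)) (.cons (.kr (nat_lit 5192296858534846075274570038771712) (nat_lit 1329228075013078387168144653824294912) (nat_lit 8) (nat_lit 0)) (.cons (.br (nat_lit 10) (nat_lit 0) (.cons (.ev (nat_lit 341611594996262240508550194653153984513) (nat_lit 1)) (.cons (.rf (nat_lit 642) (nat_lit 661352784570078420505932)) .nil))) (.cons (.ev (nat_lit 2663668729294309439326117874783879681) (nat_lit 2)) .nil))))) .nil)))))),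
 (.br (nat_lit 7) (nat_lit 0) (.cons (.rf (nat_lit 931) (nat_lit 19812042162879965645867040)) (.cons (.rf (nat_lit 929) (nat_lit 19812042162879965645867040)) (.cons (.ev (nat_lit 340287579500206606665112384917815164928) (nat_lit 1)) (.cons (.ev (nat_lit 340282366920938468185813429370428129536) (nat_lit 1)) (.cons (.br (nat_lit 10) (nat_lit 0) (.cons (.rf (nat_lit 926) (nat_lit 19920431658792357787240484)) (.cons (.rf (nat_lit 932) (nat_lit 19920431658792357787240484)) (.cons (.rf (nat_lit 933) (nat_lit 19920431658792357787240484)) (.cons (.br (nat_lit 11) (nat_lit 0) (.cons (.rf (nat_lit 933) (nat_lit 19805954588898414871873572)) (.cons (.rf (nat_lit 932) (nat_lit 19805954588898414871873572)) (.cons (.ev (nat_lit 174905141809943502555453530207019491000839) (nat_lit 3)) .nil)))) .nil))))) .nil)))))),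
 (.br (nat_lit 15) (nat_lit 0) (.cons (.ev (nat_lit 344270051066751968184837731275260297731) (nat_lit 2)) .nil)),
 (.br (nat_lit 15) (nat_lit 0) (.cons (.ev (nat_lit 1366451592563695726938878508502234432519) (nat_lit 3)) (.cons (.rf (nat_lit 935) (nat_lit 21174404575872212308953120)) .nil))),
 (.br (nat_lit 16) (nat_lit 0) (.cons (.ev (nat_lit 2663709294734895169071239097332269057) (nat_lit 2)) (.cons (.ev (nat_lit 340282387282885714639130995520576749568) (nat_lit 1)) .nil))),
 (.br (nat_lit 11) (nat_lit 0) (.cons (.kr (nat_lit 1329227995786124798723703164431761408) (nat_lit 79537647524157740256306659328) (nat_lit 6) (nat_lit 0)) (.cons (.rf (nat_lit 937) (nat_lit 677582165103132179601393696)) (.cons (.rf (nat_lit 937) (nat_lit 640105464695078675185501248)) .nil))))]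

theorem c50 : chkAll C T R L50 (nat_lit 918) = true := by decide +kernel

theorem l50 : (nat_lit 918) + L50.length = (nat_lit 939) := by decide +kernel

/-- part of the certificates -/
def L51 : List Prf := [(.br (nat_lit 12) (nat_lit 0) (.cons (.ev (nat_lit 341616787213583127830611844159240143105) (nat_lit 1)) (.cons (.ev (nat_lit 2663709294734904650697692984008376835) (nat_lit 2)) .nil))),
 (.br (nat_lit 11) (nat_lit 0) (.cons (.kr (nat_lit 5212579268143220112182486446899201) (nat_lit 2658456150026156774336289311960334336) (nat_lit 0) (nat_lit 1)) (.cons (.rf (nat_lit 939) (nat_lit 677582165103132179601393696)) (.cons (.rf (nat_lit 939) (nat_lit 640105464695078675185501248)) .nil)))),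
 (.br (nat_lit 11) (nat_lit 0) (.cons (.rf (nat_lit 940) (nat_lit 677467688033238236686026784)) (.cons (.rf (nat_lit 938) (nat_lit 677467688033238236686026784)) (.cons (.br (nat_lit 12) (nat_lit 0) (.cons (.ev (nat_lit 2663668730537085218638766692984946691) (nat_lit 3)) (.cons (.ev (nat_lit 340282387282885714639130995520576749568) (nat_lit 1)) .nil))) (.cons (.br (nat_lit 12) (nat_lit 0) (.cons (.br (nat_lit 16) (nat_lit 0) (.cons (.ev (nat_lit 1361134680581793984523007520213188346371) (nat_lit 3)) .nil)) (.cons (.ev (nat_lit 1361134680581794003486260427986540037639) (nat_lit 3)) (.cons (.ev (nat_lit 348449148939939026736128360012770982364679) (nat_lit 3)) .nil)))) .nil))))),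
 (.br (nat_lit 10) (nat_lit 0) (.cons (.br (nat_lit 12) (nat_lit 0) (.cons (.kr (nat_lit 1329227995786124798723703164431761408) (nat_lit 79537647524157740256306659328) (nat_lit 6) (nat_lit 0)) (.cons (.rf (nat_lit 936) (nat_lit 677582165103132179601393696)) (.cons (.rf (nat_lit 936) (nat_lit 640105464695078675185501248)) .nil)))) (.cons (.rf (nat_lit 938) (nat_lit 677582165103132179601393696)) (.cons (.rf (nat_lit 940) (nat_lit 677582165103132179601393696)) (.cons (.rf (nat_lit 941) (nat_lit 677582165103132179601393696)) (.cons (.rf (nat_lit 941) (nat_lit 640105464695078675185501248)) .nil)))))),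
 (.br (nat_lit 11) (nat_lit 0) (.cons (.ev (nat_lit 7980560509566866784630587356289827590) (nat_lit 3)) (.cons (.ev (nat_lit 680564754125218612440755092506066027009) (nat_lit 2)) (.cons (.br (nat_lit 16) (nat_lit 0) (.cons (.ev (nat_lit 1363793217542686578010331390369228390403) (nat_lit 3)) (.cons (.ev (nat_lit 1363793136731198772389170121933680804871) (nat_lit 3)) .nil))) .nil)))),
 (.br (nat_lit 16) (nat_lit 0) (.cons (.ev (nat_lit 340282367000167839625897101217698414848) (nat_lit 1)) (.cons (.ev (nat_lit 341611615199134191913840510666824286208) (nat_lit 1)) .nil))),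
 (.br (nat_lit 11) (nat_lit 0) (.cons (.ev (nat_lit 340287559297334645815089103164871278848) (nat_lit 1)) (.cons (.br (nat_lit 12) (nat_lit 0) (.cons (.ev (nat_lit 87456576752410886664255630006144217843456) (nat_lit 3)) .nil)) .nil))),
 (.br (nat_lit 7) (nat_lit 0) (.cons (.br (nat_lit 12) (nat_lit 0) (.cons (.ev (nat_lit 1366451592563695726938878512917393703939) (nat_lit 3)) (.cons (.br (nat_lit 16) (nat_lit 0) (.cons (.ev (nat_lit 681893962076275999038615813502171021569) (nat_lit 2)) .nil)) .nil))) (.cons (.rf (nat_lit 944) (nat_lit 677582165103132179601393696)) (.cons (.rf (nat_lit 945) (nat_lit 677582165103132179601393696)) (.cons (.br (nat_lit 11) (nat_lit 0) (.cons (.rf (nat_lit 944) (nat_lit 677576077529150628827400228)) (.cons (.rf (nat_lit 945) (nat_lit 677576077529150628827400228)) (.cons (.ev (nat_lit 174224571883803834978761804882707854000129) (nat_lit 2)) .nil)))) .nil))))),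
 (.br (nat_lit 15) (nat_lit 0) (.cons (.ev (nat_lit 5253144087350523597710722313748483) (nat_lit 2)) (.cons (.ev (nat_lit 5212579889531128287590042600210433) (nat_lit 2)) (.cons (.br (nat_lit 7) (nat_lit 0) (.cons (.ev (nat_lit 1365635160259033621026564049022746627) (nat_lit 3)) (.cons (.rf (nat_lit 943) (nat_lit 19926519232773908561233952)) (.cons (.rf (nat_lit 943) (nat_lit 21135445052388537735939136)) .nil)))) (.cons (.rf (nat_lit 946) (nat_lit 677582165103132179601393696)) (.cons (.rf (nat_lit 946) (nat_lit 640105464695078675185501248)) .nil)))))),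
 (.br (nat_lit 15) (nat_lit 0) (.cons (.ev (nat_lit 1366451592563695726938878512917393703939) (nat_lit 3)) (.cons (.br (nat_lit 16) (nat_lit 0) (.cons (.ev (nat_lit 681893962076276008520242269596493611777) (nat_lit 2)) .nil)) .nil))),
 (.br (nat_lit 15) (nat_lit 0) (.cons (.ev (nat_lit 1329228075323772322809385830995460353) (nat_lit 1)) .nil)),
 (.br (nat_lit 12) (nat_lit 0) (.cons (.ev (nat_lit 340282367000167839625897100122464977153) (nat_lit 1)) (.cons (.rf (nat_lit 949) (nat_lit 21174442659471745632798752)) .nil))),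
 (.br (nat_lit 10) (nat_lit 0) (.cons (.kr (nat_lit 20282410817299856802921047916544) (nat_lit 158765810038422077849850609664) (nat_lit 6) (nat_lit 0)) (.cons (.rf (nat_lit 950) (nat_lit 677582165103132179601393696)) (.cons (.rf (nat_lit 950) (nat_lit 640105464695078675185501248)) .nil)))),
 (.br (nat_lit 10) (nat_lit 0) (.cons (.rf (nat_lit 951) (nat_lit 677461600459256685912033316)) (.cons (.ev (nat_lit 5212579889531128287590042600210433) (nat_lit 2)) (.cons (.br (nat_lit 12) (nat_lit 0) (.cons (.ev (nat_lit 1369110048396192681488008186933830222851) (nat_lit 3)) (.cons (.br (nat_lit 15) (nat_lit 0) (.cons (.ev (nat_lit 2735556631207201815465991601053151266823) (nat_lit 4)) .nil)) .nil))) (.cons (.br (nat_lit 12) (nat_lit 0) (.cons (.br (nat_lit 16) (nat_lit 0) (.cons (.ev (nat_lit 2735556712652505296982060697508944939525) (nat_lit 4)) .nil)) (.cons (.br (nat_lit 15) (nat_lit 0) (.cons (.ev (nat_lit 2735556712335597454109612085598567007243) (nat_lit 4)) .nil)) (.cons (.br (nat_lit 15) (nat_lit 0) (.cons (.zr (nat_lit 1361145064856746315708994518464541753344)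 (nat_lit 2658456784470450520070217426333073415) (nat_lit 16) (nat_lit 6)) .nil)) .nil)))) .nil))))),
 (.br (nat_lit 7) (nat_lit 0) (.cons (.br (nat_lit 12) (nat_lit 0) (.cons (.kr (nat_lit 1329227995786124798723703164431761408) (nat_lit 79537647524157740256306659328) (nat_lit 6) (nat_lit 0)) (.cons (.rf (nat_lit 948) (nat_lit 677582165103132179601393696)) (.cons (.rf (nat_lit 948) (nat_lit 640105464695078675185501248)) .nil)))) (.cons (.ev (nat_lit 5253144087360005224162418623512577) (nat_lit 2)) (.cons (.rf (nat_lit 951) (nat_lit 677582165103132179601393696)) (.cons (.rf (nat_lit 952) (nat_lit 677582165103132179601393696)) (.cons (.rf (nat_lit 952) (nat_lit 640105464695078675185501248)) .nil)))))),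
 (.br (nat_lit 10) (nat_lit 0) (.cons (.rf (nat_lit 942) (nat_lit 677576077529150628827400228)) (.cons (.br (nat_lit 11) (nat_lit 0) (.cons (.ev (nat_lit 1369110170408179505586343851155571868677) (nat_lit 3)) (.cons (.br (nat_lit 16) (nat_lit 0) (.cons (.ev (nat_lit 2722264147951125566174090464727851991555) (nat_lit 4)) .nil)) .nil))) (.cons (.ev (nat_lit 340287579579435978105196055661278920960) (nat_lit 1)) (.cons (.br (nat_lit 16) (nat_lit 0) (.cons (.ev (nat_lit 340282367000167834921977362421746040833) (nat_lit 1)) (.cons (.ev (nat_lit 2663668729294300031486640282878869507) (nat_lit 2)) (.cons (.ev (nat_lit 874525688483978688732998192024123099841545) (nat_lit 4)) .nil)))) .nil))))),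
 (.br (nat_lit 7) (nat_lit 0) (.cons (.rf (nat_lit 951) (nat_lit 677467688033238236686026784)) (.cons (.ev (nat_lit 5253144087360005224162418623512577) (nat_lit 2)) (.cons (.kr (nat_lit 2658456150026156774336290407160217601) (nat_lit 5212579268143220112181391247015936) (nat_lit 0) (nat_lit 1)) (.cons (.rf (nat_lit 954) (nat_lit 677582165103132179601393696)) (.cons (.rf (nat_lit 954) (nat_lit 640105464695078675185501248)) .nil)))))),
 (.br (nat_lit 10) (nat_lit 0) (.cons (.ev (nat_lit 341611594917032864364546786208988004608) (nat_lit 1)) (.cons (.rf (nat_lit 685) (nat_lit 21169241871093465524213987)) .nil))),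
 (.br (nat_lit 12) (nat_lit 0) (.cons (.rf (nat_lit 955) (nat_lit 677576077529150628827400228)) (.cons (.kr (nat_lit 5192296858534846075274570038771712) (nat_lit 1329228075013078387168144653824294912) (nat_lit 8) (nat_lit 0)) (.cons (.rf (nat_lit 956) (nat_lit 677582165103132179601393696)) (.cons (.ev (nat_lit 2663668729294309439326117874783879681) (nat_lit 2)) .nil))))),
 (.br (nat_lit 7) (nat_lit 0) (.cons (.ev (nat_lit 5253144087350523597710722313748483) (nat_lit 2)) (.cons (.rf (nat_lit 947) (nat_lit 677467688033238236686026784)) (.cons (.kr (nat_lit 2658456150026156774336290407160217601) (nat_lit 5212579268143220112181391247015936) (nat_lit 0) (nat_lit 1)) (.cons (.rf (nat_lit 957) (nat_lit 677582165103132179601393696)) (.cons (.rf (nat_lit 957) (nat_lit 640105464695078675185501248)) .nil)))))),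
 (.br (nat_lit 7) (nat_lit 0) (.cons (.rf (nat_lit 953) (nat_lit 677467688033238236686026784)) (.cons (.rf (nat_lit 947) (nat_lit 677467688033238236686026784)) (.cons (.rf (nat_lit 958) (nat_lit 677467688033238236686026784)) (.cons (.rf (nat_lit 955) (nat_lit 677467688033238236686026784)) (.cons (.br (nat_lit 10) (nat_lit 0) (.cons (.rf (nat_lit 942) (nat_lit 677576077529150628827400228)) (.cons (.rf (nat_lit 955) (nat_lit 677576077529150628827400228)) (.cons (.rf (nat_lit 958) (nat_lit 677576077529150628827400228)) (.cons (.br (nat_lit 11) (nat_lit 0) (.cons (.ev (nat_lit 340282367000167834921977362421746040833) (nat_lit 1)) (.cons (.rf (nat_lit 955) (nat_lit 677461600459256685912033316)) (.cons (.ev (nat_lit 1361134680264886189132480410212010033153) (nat_lit 3)) .nil)))) .nil))))) (.cons (.br (nat_lit 10) (nat_lit 0) (.cons (.rf (nat_lit 942) (nat_lit 677576077529150628827400228)) (.cons (.rf (nat_lit 955) (nat_lit 677576077529150628827400228)) (.cons (.rf (nat_lit 958) (nat_lit 677576077529150628827400228)) (.cons (.br (nat_lit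 11) (nat_lit 0) (.cons (.rf (nat_lit 958) (nat_lit 677461600459256685912033316)) (.cons (.ev (nat_lit 341611615199134196654653738705378934785) (nat_lit 1)) (.cons (.ev (nat_lit 1361134761393281827923100651605863695361) (nat_lit 3)) .nil)))) (.cons (.br (nat_lit 11) (nat_lit 0) (.cons (.rf (nat_lit 958) (nat_lit 677461600459256685912033316)) (.cons (.ev (nat_lit 87113615180038442379815178633806289633280) (nat_lit 1)) (.cons (.kr (nat_lit 87112291124057105181469974777102700904704) (nat_lit 340282387203348071837411514248664776704) (nat_lit 1) (nat_lit 0)) .nil)))) .nil)))))) .nil))))))),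
 (.br (nat_lit 14) (nat_lit 0) (.cons (.br (nat_lit 1) (nat_lit 0) (.cons (.kr (nat_lit 256) (nat_lit 65536) (nat_lit 1) (nat_lit 0)) (.cons (.rf (nat_lit 915) (nat_lit 583706118939841765935136)) (.cons (.rf (nat_lit 915) (nat_lit 469229049045898850568224)) (.cons (.rf (nat_lit 915) (nat_lit 577618544958290991941668)) (.cons (.rf (nat_lit 915) (nat_lit 463141475064348076574756)) (.cons (.rf (nat_lit 921) (nat_lit 583706118939841765935136)) (.cons (.rf (nat_lit 921) (nat_lit 469229049045898850568224)) (.cons (.br (nat_lit 2) (nat_lit 0) (.cons (.rf (nat_lit 915) (nat_lit 583706118939841765934144)) (.cons (.rf (nat_lit 915) (nat_lit 469229049045898850567232)) (.cons (.rf (nat_lit 915) (nat_lit 577618544958290991940676)) (.cons (.rf (nat_lit 915) (nat_lit 463141475064348076573764)) (.cons (.rf (nat_lit 921) (nat_lit 583706118939841765934144)) (.cons (.rf (nat_lit 921) (nat_lit 469229049045898850567232)) (.cons (.br (nat_lit 6) (nat_lit 0) (.cons (.rf (nat_lit 926) (nat_lit 19926519232773908561233952)) (.cons (.rf (nat_lit 929) (nat_lit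 19926519232773908561233952)) (.cons (.rf (nat_lit 931) (nat_lit 19926519232773908561233952)) (.cons (.rf (nat_lit 932) (nat_lit 19926519232773908561233952)) (.cons (.rf (nat_lit 933) (nat_lit 19926519232773908561233952)) (.cons (.rf (nat_lit 934) (nat_lit 19926519232773908561233952)) (.cons (.br (nat_lit 7) (nat_lit 0) (.cons (.rf (nat_lit 931) (nat_lit 19812042162879965645867040)) (.cons (.rf (nat_lit 929) (nat_lit 19812042162879965645867040)) (.cons (.rf (nat_lit 933) (nat_lit 19812042162879965645867040)) (.cons (.rf (nat_lit 932) (nat_lit 19812042162879965645867040)) (.cons (.rf (nat_lit 934) (nat_lit 19812042162879965645867040)) (.cons (.br (nat_lit 16) (nat_lit 0) (.cons (.rf (nat_lit 934) (nat_lit 19920431658792357787240484)) (.cons (.rf (nat_lit 934) (nat_lit 19805954588898414871873572)) (.cons (.rf (nat_lit 924) (nat_lit 677576077529150628827400228)) (.cons (.rf (nat_lit 924) (nat_lit 677461600459256685912033316)) (.cons (.kr (nat_lit 87112285931760246646623899502532662132737) (nat_lit 340282366920938463463374607431784988672)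 (nat_lit 0) (nat_lit 1)) .nil)))))) .nil))))))) .nil)))))))) (.cons (.br (nat_lit 6) (nat_lit 0) (.cons (.rf (nat_lit 942) (nat_lit 677582165103132179601393696)) (.cons (.rf (nat_lit 947) (nat_lit 677582165103132179601393696)) (.cons (.rf (nat_lit 953) (nat_lit 677582165103132179601393696)) (.cons (.rf (nat_lit 955) (nat_lit 677582165103132179601393696)) (.cons (.rf (nat_lit 958) (nat_lit 677582165103132179601393696)) (.cons (.rf (nat_lit 959) (nat_lit 677582165103132179601393696)) (.cons (.rf (nat_lit 959) (nat_lit 640105464695078675185501248)) .nil)))))))) .nil))))))))) .nil))))))))) .nil)),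
 (.br (nat_lit 8) (nat_lit 0) (.cons (.rf (nat_lit 903) (nat_lit 407901468851537952)) (.cons (.rf (nat_lit 903) (nat_lit 372998571739416608)) (.cons (.br (nat_lit 10) (nat_lit 1) (.cons (.rf (nat_lit 903) (nat_lit 407867350705080352)) (.cons (.br (nat_lit 13) (nat_lit 1) (.cons (.br (nat_lit 9) (nat_lit 0) (.cons (.rf (nat_lit 903) (nat_lit 372964453592959008)) (.cons (.rf (nat_lit 768) (nat_lit 301448)) (.cons (.br (nat_lit 11) (nat_lit 1) (.cons (.rf (nat_lit 888) (nat_lit 259464242229577764)) (.cons (.br (nat_lit 12) (nat_lit 1) (.cons (.rf (nat_lit 960) (nat_lit 583706118939841765935136)) (.cons (.rf (nat_lit 960) (nat_lit 582562385904374661613600)) .nil))) .nil))) .nil)))) .nil)) .nil))) .nil))))]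

theorem c51 : chkAll C T R L51 (nat_lit 939) = true := by decide +kernel

theorem l51 : (nat_lit 939) + L51.length = (nat_lit 962) := by decide +kernel

/-- part of the certificates -/
def L52 : List Prf := [(.br (nat_lit 11) (nat_lit 0) (.cons (.kr (nat_lit 1329227995786124798795479283492978944) (nat_lit 5192297168019837450157040030777344) (nat_lit 1) (nat_lit 0)) (.cons (.br (nat_lit 15) (nat_lit 0) (.cons (.ev (nat_lit 2658476353828990523837523112956526593) (nat_lit 2)) (.cons (.rf (nat_lit 1) (nat_lit 582172426837057)) .nil))) .nil))),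
 (.br (nat_lit 15) (nat_lit 0) (.cons (.ev (nat_lit 341616807575220893996474830676190887937) (nat_lit 1)) (.cons (.br (nat_lit 16) (nat_lit 0) (.cons (.ev (nat_lit 2740899302246664403077853977402094520843) (nat_lit 4)) .nil)) .nil))),
 (.br (nat_lit 10) (nat_lit 0) (.cons (.kr (nat_lit 1208925891672223212634368) (nat_lit 309485009821626543701557248) (nat_lit 1) (nat_lit 0)) (.cons (.rf (nat_lit 962) (nat_lit 583706118939841765935136)) (.cons (.rf (nat_lit 962) (nat_lit 547107778697602015528992)) (.cons (.br (nat_lit 11) (nat_lit 0) (.cons (.rf (nat_lit 962) (nat_lit 583553898543438798881856)) (.cons (.rf (nat_lit 962) (nat_lit 546955558301199048475712)) (.cons (.br (nat_lit 14) (nat_lit 0) (.cons (.ev (nat_lit 10404955976228433286969985054277633) (nat_lit 2)) (.cons (.ev (nat_lit 340287579500517300600681004442893418496) (nat_lit 1)) (.cons (.br (nat_lit 15) (nat_lit 0) (.cons (.ev (nat_lit 341611594996262235804630456961024917505) (nat_lit 1)) (.cons (.br (nat_lit 16) (nat_lit 0) (.cons (.zr (nat_lit 1361129488203855203381018618187852285443)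 (nat_lit 2668840588381751499280940550234701824) (nat_lit 16) (nat_lit 10)) .nil)) .nil))) .nil)))) (.cons (.br (nat_lit 14) (nat_lit 0) (.cons (.kr (nat_lit 5192296858534827628530496329220096) (nat_lit 1329227995784915872903807060280344576) (nat_lit 14) (nat_lit 0)) (.cons (.rf (nat_lit 963) (nat_lit 677582165103132179601393696)) (.cons (.rf (nat_lit 963) (nat_lit 640105312474682272218448960)) .nil)))) .nil))))) .nil))))),
 (.br (nat_lit 10) (nat_lit 0) (.cons (.kr (nat_lit 5192296859743753520202719541854464) (nat_lit 1329227996094400882725433603981901824) (nat_lit 1) (nat_lit 0)) (.cons (.br (nat_lit 15) (nat_lit 0) (.cons (.ev (nat_lit 2658476353828990523837523112923103747) (nat_lit 2)) (.cons (.rf (nat_lit 1) (nat_lit 582169103906881)) .nil))) .nil))),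
 (.br (nat_lit 15) (nat_lit 0) (.cons (.ev (nat_lit 2658476353828990523837523112923103747) (nat_lit 2)) (.cons (.rf (nat_lit 1) (nat_lit 582172417404129)) .nil))),
 (.br (nat_lit 2) (nat_lit 0) (.cons (.kr (nat_lit 1208925891672223212634368) (nat_lit 309485009821626543701557248) (nat_lit 1) (nat_lit 0)) (.cons (.rf (nat_lit 965) (nat_lit 583706118939841765935136)) (.cons (.rf (nat_lit 965) (nat_lit 547107778697602015528992)) (.cons (.br (nat_lit 10) (nat_lit 0) (.cons (.rf (nat_lit 966) (nat_lit 19926519232773908561233952)) (.cons (.rf (nat_lit 966) (nat_lit 19889920892531668810827808)) (.cons (.ev (nat_lit 20520096523231649422722654666753) (nat_lit 2)) (.cons (.br (nat_lit 14) (nat_lit 0) (.cons (.kr (nat_lit 5192296858534827628530496329220096) (nat_lit 1329227995784915872903807060280344576) (nat_lit 14) (nat_lit 0)) (.cons (.br (nat_lit 15) (nat_lit 0) (.cons (.ev (nat_lit 341616787213891399173800347655435517953) (nat_lit 1)) (.cons (.rf (nat_lit 425) (nat_lit 19534282822894884133953)) .nil))) (.cons (.br (nat_lit 15) (nat_lit 0)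 (.cons (.rf (nat_lit 425) (nat_lit 19533129936574649375809)) (.cons (.ev (nat_lit 87113620372414529077156999725777101521152) (nat_lit 1)) .nil))) .nil)))) .nil))))) .nil))))),
 (.br (nat_lit 10) (nat_lit 0) (.cons (.ev (nat_lit 41559214977166304689057850076695565) (nat_lit 4)) (.cons (.br (nat_lit 15) (nat_lit 0) (.cons (.ev (nat_lit 2668861105383415224874622451649216515) (nat_lit 2)) (.cons (.rf (nat_lit 1) (nat_lit 582172325129281)) .nil))) .nil))),
 (.br (nat_lit 11) (nat_lit 0) (.cons (.rf (nat_lit 968) (nat_lit 583706118939841765935136)) (.cons (.rf (nat_lit 967) (nat_lit 76892160953798362545613)) (.cons (.rf (nat_lit 964) (nat_lit 76892160953798362545613)) (.cons (.br (nat_lit 10) (nat_lit 0) (.cons (.br (nat_lit 15) (nat_lit 0) (.cons (.ev (nat_lit 2663648368279135384947272897982955522) (nat_lit 2)) (.cons (.rf (nat_lit 1) (nat_lit 582172326176833)) .nil))) (.cons (.rf (nat_lit 968) (nat_lit 76742178844076022184425)) (.cons (.br (nat_lit 15) (nat_lit 0) (.cons (.ev (nat_lit 10404955976228433286969985020854787) (nat_lit 2)) (.cons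 (.ev (nat_lit 341611615199443681645956281006844542976) (nat_lit 1)) (.cons (.br (nat_lit 16) (nat_lit 0) (.cons (.ev (nat_lit 20520096523231649422722654666753) (nat_lit 2)) (.cons (.ev (nat_lit 341616807575220889255661602637619396865) (nat_lit 1)) .nil))) .nil)))) (.cons (.br (nat_lit 2) (nat_lit 0) (.cons (.rf (nat_lit 1) (nat_lit 616119746640961)) (.cons (.br (nat_lit 15) (nat_lit 0) (.cons (.ev (nat_lit 341616787213891399173800347655435517953) (nat_lit 1)) (.cons (.rf (nat_lit 394) (nat_lit 20672104774892113081378)) .nil))) (.cons (.ev (nat_lit 20520096523231649422722654666753) (nat_lit 2)) .nil)))) .nil))))) .nil))))),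
 (.br (nat_lit 16) (nat_lit 0) (.cons (.ev (nat_lit 5337702007585394016262891834999965187) (nat_lit 3)) (.cons (.ev (nat_lit 1361150257392524893249838928817528635911) (nat_lit 3)) .nil))),
 (.br (nat_lit 2) (nat_lit 0) (.cons (.ev (nat_lit 2668861105999967393021635568871670275) (nat_lit 2)) (.cons (.ev (nat_lit 340287579500206606665112383814008635648) (nat_lit 1)) (.cons (.br (nat_lit 16) (nat_lit 0) (.cons (.ev (nat_lit 2668861105383415224874622451615531521) (nat_lit 2)) (.cons (.ev (nat_lit 340287579500517300600681004442910261505) (nat_lit 1)) .nil))) .nil)))),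
 (.br (nat_lit 15) (nat_lit 0) (.cons (.ev (nat_lit 344270050908603919203490201511651181056) (nat_lit 2)) .nil)),
 (.br (nat_lit 11) (nat_lit 0) (.cons (.ev (nat_lit 31174144034183022279788193200342017) (nat_lit 3)) (.cons (.ev (nat_lit 1361139872957261730808797149664278609921) (nat_lit 3)) (.cons (.br (nat_lit 15) (nat_lit 0) (.cons (.ev (nat_lit 1366456784622250804130283801259507319809) (nat_lit 3)) (.cons (.br (nat_lit 16) (nat_lit 0) (.cons (.ev (nat_lit 681893962075658247371006902069733949954) (nat_lit 2)) .nil)) .nil))) .nil)))),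
 (.br (nat_lit 11) (nat_lit 0) (.cons (.ev (nat_lit 1339653392315165402707780782098743552) (nat_lit 2)) (.cons (.rf (nat_lit 502) (nat_lit 19525173202992675076130)) .nil))),
 (.br (nat_lit 15) (nat_lit 0) (.cons (.ev (nat_lit 340282366921247953214081238137397313793) (nat_lit 1)) (.cons (.br (nat_lit 16) (nat_lit 0) (.cons (.ev (nat_lit 1369115241091051328463183251197390750721) (nat_lit 3)) .nil)) .nil))),
 (.br (nat_lit 11) (nat_lit 0) (.cons (.rf (nat_lit 1) (nat_lit 582001731254337)) (.cons (.br (nat_lit 15) (nat_lit 0) (.cons (.ev (nat_lit 340287559297025165527706297460318011393) (nat_lit 1)) (.cons (.br (nat_lit 16) (nat_lit 0) (.cons (.ev (nat_lit 1369136009960334877603568796536814960641) (nat_lit 3)) .nil)) .nil))) (.cons (.br (nat_lit 15) (nat_lit 0) (.cons (.br (nat_lit 16) (nat_lit 0) (.cons (.ev (nat_lit 1363819098295345804282082144941586252801) (nat_lit 3)) .nil)) (.cons (.ev (nat_lit 87112285931760247860290532626679680008193) (nat_lit 1)) .nil))) .nil)))),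
 (.br (nat_lit 7) (nat_lit 0) (.cons (.rf (nat_lit 964) (nat_lit 583706118939841765935136)) (.cons (.ev (nat_lit 20520096523231649422722688090627) (nat_lit 2)) (.cons (.rf (nat_lit 967) (nat_lit 583706118939841765935136)) (.cons (.rf (nat_lit 969) (nat_lit 583706118939841765935136)) (.cons (.rf (nat_lit 969) (nat_lit 547107778697602015528992)) (.cons (.br (nat_lit 10) (nat_lit 0) (.cons (.br (nat_lit 11) (nat_lit 0) (.cons (.rf (nat_lit 969) (nat_lit 583705970321195725390916)) (.cons (.rf (nat_lit 969) (nat_lit 547107630078955974984772)) (.cons (.ev (nat_lit 20838244714366106527442042749447) (nat_lit 3)) (.cons (.br (nat_lit 14) (nat_lit 0) (.cons (.kr (nat_lit 5192296858534827628530496329220096) (nat_lit 1329227995784915872903807060280344576) (nat_lit 14) (nat_lit 0)) (.cons (.rf (nat_lit 970) (nat_lit 677582165103132179601393696)) (.cons (.rf (nat_lit 970) (nat_lit 640105464546460029144958020)) .nil)))) .nil))))) (.cons (.br (nat_lit 14) (nat_lit 0) (.cons (.br (nat_lit 15) (nat_lit 0) (.cons (.ev (nat_lit 2668861105999967393021635568871670275)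 (nat_lit 2)) (.cons (.rf (nat_lit 1) (nat_lit 582169201424449)) .nil))) (.cons (.kr (nat_lit 5192296858534827628530496329220096) (nat_lit 1329227995784915872903807060280344576) (nat_lit 14) (nat_lit 0)) (.cons (.rf (nat_lit 971) (nat_lit 19926519232773908561233952)) (.cons (.br (nat_lit 15) (nat_lit 0) (.cons (.rf (nat_lit 1) (nat_lit 582134841687105)) (.cons (.rf (nat_lit 971) (nat_lit 19889920892531668810827808)) (.cons (.ev (nat_lit 2668861105383415224874622451615531521) (nat_lit 2)) .nil)))) .nil))))) (.cons (.rf (nat_lit 969) (nat_lit 76742178844076022185417)) (.cons (.rf (nat_lit 969) (nat_lit 76742178844076022184425)) (.cons (.br (nat_lit 2) (nat_lit 0) (.cons (.br (nat_lit 14) (nat_lit 0) (.cons (.ev (nat_lit 20789708154468265229934475905992197) (nat_lit 3)) (.cons (.ev (nat_lit 1361150257393141445418275302591709709829) (nat_lit 3)) (.cons (.br (nat_lit 15) (nat_lit 0) (.cons (.ev (nat_lit 1366446400188846969599376408847514207749) (nat_lit 3)) (.cons (.rf (nat_lit 972) (nat_lit 21174441469360359728056352)) .nil))) .nil))))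 (.cons (.rf (nat_lit 973) (nat_lit 19926519232773908561233952)) (.cons (.rf (nat_lit 973) (nat_lit 19889920892531668810827808)) (.cons (.ev (nat_lit 20520096523231649422722654666753) (nat_lit 2)) (.cons (.br (nat_lit 14) (nat_lit 0) (.cons (.br (nat_lit 15) (nat_lit 0) (.cons (.ev (nat_lit 2658476353828990523837523112956526593) (nat_lit 2)) (.cons (.rf (nat_lit 246) (nat_lit 19524951356388876455979)) .nil))) (.cons (.kr (nat_lit 5192296858534827628530496329220096) (nat_lit 1329227995784915872903807060280344576) (nat_lit 14) (nat_lit 0)) (.cons (.rf (nat_lit 974) (nat_lit 677582165103132179601393696)) (.cons (.br (nat_lit 15) (nat_lit 0) (.cons (.rf (nat_lit 246) (nat_lit 19524951391573248512043)) (.cons (.rf (nat_lit 974) (nat_lit 677545566762889939850987552)) (.cons (.rf (nat_lit 627) (nat_lit 661541944761768831552714)) .nil)))) .nil))))) .nil)))))) (.cons (.br (nat_lit 2) (nat_lit 0) (.cons (.br (nat_lit 14) (nat_lit 0) (.cons (.kr (nat_lit 5192296858534827628530496329220096) (nat_lit 1329227995784915872903807060280344576) (nat_lit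 14) (nat_lit 0)) (.cons (.rf (nat_lit 975) (nat_lit 677582165103132179601393696)) (.cons (.rf (nat_lit 975) (nat_lit 640105312326063626177905732)) .nil)))) (.cons (.rf (nat_lit 976) (nat_lit 677582165103132179601393696)) (.cons (.rf (nat_lit 976) (nat_lit 677545566762889939850987552)) (.cons (.br (nat_lit 11) (nat_lit 0) (.cons (.ev (nat_lit 5192535471477455370208466878726402) (nat_lit 2)) (.cons (.ev (nat_lit 1329228234397858500645485030829850882) (nat_lit 2)) (.cons (.ev (nat_lit 340282366921247948473268010098825953281) (nat_lit 1)) (.cons (.br (nat_lit 14) (nat_lit 0) (.cons (.ev (nat_lit 10404955976228433286969985054277633) (nat_lit 2)) (.cons (.ev (nat_lit 340287559297025160823786559768189010177) (nat_lit 1)) (.cons (.ev (nat_lit 87112291144339825483761205899543787339776) (nat_lit 1)) .nil)))) .nil))))) (.cons (.ev (nat_lit 20520096523231649422722654666753) (nat_lit 2)) .nil)))))) .nil))))))) .nil))))))),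
 (.br (nat_lit 7) (nat_lit 0) (.cons (.ev (nat_lit 2658476353207602652700281855153406467) (nat_lit 2)) (.cons (.ev (nat_lit 340282387282885714639202771639637901568) (nat_lit 1)) (.cons (.br (nat_lit 10) (nat_lit 0) (.cons (.ev (nat_lit 340282366920939677130007731578786021633) (nat_lit 1)) (.cons (.ev (nat_lit 5316932505093096782625071347089540097) (nat_lit 3)) .nil))) .nil)))),
 (.br (nat_lit 7) (nat_lit 0) (.cons (.ev (nat_lit 340282387282577438555129266176226492673) (nat_lit 1)) (.cons (.ev (nat_lit 2668861105999967393021633361225056257) (nat_lit 2)) (.cons (.br (nat_lit 10) (nat_lit 0) (.cons (.ev (nat_lit 2658476353828990523837525303389979137) (nat_lit 2)) (.cons (.ev (nat_lit 1366477554126602429274632473656271569409) (nat_lit 3)) .nil))) .nil)))),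
 (.br (nat_lit 10) (nat_lit 0) (.cons (.kr (nat_lit 309485009821626543701491712) (nat_lit 1208925891672223212634112) (nat_lit 6) (nat_lit 0)) (.cons (.br (nat_lit 11) (nat_lit 0) (.cons (.ev (nat_lit 340287559297335854759355180397073858817) (nat_lit 1)) (.cons (.rf (nat_lit 295) (nat_lit 19523838967281989521455)) .nil))) (.cons (.br (nat_lit 11) (nat_lit 0) (.cons (.rf (nat_lit 295) (nat_lit 19524951356388876324911)) (.cons (.ev (nat_lit 87113615180038751864806481176107738464256) (nat_lit 1)) .nil))) .nil)))),
 (.br (nat_lit 10) (nat_lit 0) (.cons (.ev (nat_lit 1361129488521382016051747295912758870021) (nat_lit 3)) (.cons (.rf (nat_lit 258) (nat_lit 19529707159927544578529)) .nil))),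
 (.br (nat_lit 7) (nat_lit 0) (.cons (.ev (nat_lit 5253144090977319431239998571021057) (nat_lit 2)) (.cons (.rf (nat_lit 981) (nat_lit 677582165103132179601393696)) (.cons (.rf (nat_lit 981) (nat_lit 639598500717828247811145165)) .nil)))),
 (.br (nat_lit 7) (nat_lit 0) (.cons (.rf (nat_lit 982) (nat_lit 677582012882735776634341408)) (.cons (.rf (nat_lit 980) (nat_lit 639598650737092631782112717)) (.cons (.ev (nat_lit 340287579500206606665112383814008635648) (nat_lit 1)) (.cons (.br (nat_lit 10) (nat_lit 0) (.cons (.rf (nat_lit 295) (nat_lit 19528594770820657774639)) (.cons (.ev (nat_lit 340282366920939672389194503540214661121) (nat_lit 1)) (.cons (.br (nat_lit 11) (nat_lit 0) (.cons (.ev (nat_lit 680575118594363433434781533468765585923) (nat_lit 2)) .nil)) .nil)))) .nil))))),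
 (.br (nat_lit 2) (nat_lit 0) (.cons (.rf (nat_lit 977) (nat_lit 583706118939841765934144)) (.cons (.rf (nat_lit 977) (nat_lit 583553898543438798881856)) (.cons (.rf (nat_lit 977) (nat_lit 583705970321195725390916)) (.cons (.rf (nat_lit 977) (nat_lit 583553749924792758338628)) (.cons (.kr (nat_lit 1329227995784915872903807060280344832) (nat_lit 5192296858534827628530496329285632) (nat_lit 1) (nat_lit 0)) (.cons (.br (nat_lit 15) (nat_lit 0) (.cons (.rf (nat_lit 977) (nat_lit 76892198108459993151977)) (.cons (.rf (nat_lit 977) (nat_lit 76892160953798362544621)) (.cons (.rf (nat_lit 977) (nat_lit 76742178844076022184425)) (.cons (.rf (nat_lit 977) (nat_lit 76742141689414391577069)) (.cons (.br (nat_lit 6) (nat_lit 0) (.cons (.ev (nat_lit 2658476353207602652700284045620281857) (nat_lit 2)) (.cons (.ev (nat_lit 2668861105383415224874620244002471937) (nat_lit 2)) (.cons (.rf (nat_lit 978) (nat_lit 19926519232773908561233952)) (.cons (.rf (nat_lit 979) (nat_lit 19926519232773908561233952)) (.cons (.br (nat_lit 7) (nat_lit 0) (.cons (.rf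 (nat_lit 978) (nat_lit 19926367012377505594181664)) (.cons (.ev (nat_lit 2668861105999967393021633361225056257) (nat_lit 2)) (.cons (.rf (nat_lit 979) (nat_lit 19926367012377505594181664)) (.cons (.br (nat_lit 10) (nat_lit 0) (.cons (.ev (nat_lit 2658476353828990523837525303389979137) (nat_lit 2)) (.cons (.rf (nat_lit 979) (nat_lit 19926519084155262520690724)) (.cons (.ev (nat_lit 348449174901183778012591282275407278113281) (nat_lit 3)) .nil)))) .nil))))) .nil)))))) (.cons (.br (nat_lit 6) (nat_lit 0) (.cons (.rf (nat_lit 980) (nat_lit 677582165103132179601393696)) (.cons (.rf (nat_lit 980) (nat_lit 639598650774247293412720073)) (.cons (.rf (nat_lit 982) (nat_lit 677582165103132179601393696)) (.cons (.rf (nat_lit 983) (nat_lit 677582165103132179601393696)) (.cons (.rf (nat_lit 983) (nat_lit 639598650774247293412720073)) .nil)))))) .nil))))))) .nil)))))))]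

theorem c52 : chkAll C T R L52 (nat_lit 962) = true := by decide +kernel

theorem l52 : (nat_lit 962) + L52.length = (nat_lit 985) := by decide +kernel

/-- part of the certificates -/
def L53 : List Prf := [(.br (nat_lit 7) (nat_lit 0) (.cons (.ev (nat_lit 340287579500206606665112384917832007937) (nat_lit 1)) (.cons (.br (nat_lit 11) (nat_lit 0) (.cons (.zr (nat_lit 4088705315430542037752559413936091305479) (nat_lit 41558657899284311224717359235858432) (nat_lit 48) (nat_lit 1)) .nil)) .nil))),
 (.br (nat_lit 7) (nat_lit 0) (.cons (.ev (nat_lit 340287559297025160823786558664365637888) (nat_lit 1)) (.cons (.ev (nat_lit 2658476353207612134326735741896359937) (nat_lit 2)) (.cons (.br (nat_lit 10) (nat_lit 0) (.cons (.ev (nat_lit 2658476353829000005463976999666057217) (nat_lit 2)) (.cons (.ev (nat_lit 1361150257391908341081981276357264671749) (nat_lit 3)) .nil))) .nil)))),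
 (.br (nat_lit 15) (nat_lit 0) (.cons (.rf (nat_lit 977) (nat_lit 76892198108459993151977)) (.cons (.rf (nat_lit 977) (nat_lit 76892160953798362544621)) (.cons (.rf (nat_lit 977) (nat_lit 76742178844076022184425)) (.cons (.rf (nat_lit 977) (nat_lit 76742141689414391577069)) (.cons (.br (nat_lit 6) (nat_lit 0) (.cons (.ev (nat_lit 340287579500206606665112383814008635648) (nat_lit 1)) (.cons (.rf (nat_lit 985) (nat_lit 677582165103132179601393696)) (.cons (.rf (nat_lit 986) (nat_lit 19926519232773908561233952)) (.cons (.br (nat_lit 7) (nat_lit 0) (.cons (.rf (nat_lit 986) (nat_lit 19926367012377505594181664)) (.cons (.rf (nat_lit 985) (nat_lit 677582012882735776634341408)) (.cons (.ev (nat_lit 340287559297025160823786559768172167168) (nat_lit 1)) .nil)))) .nil))))) .nil)))))),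
 (.br (nat_lit 7) (nat_lit 0) (.cons (.br (nat_lit 11) (nat_lit 0) (.cons (.ev (nat_lit 2668861742920174495541988420460875271) (nat_lit 4)) .nil)) (.cons (.br (nat_lit 10) (nat_lit 0) (.cons (.zr (nat_lit 4083388403605863558475744755607167571463) (nat_lit 2668901434991592453095706676881391616) (nat_lit 48) (nat_lit 1)) .nil)) (.cons (.br (nat_lit 10) (nat_lit 0) (.cons (.zr (nat_lit 4083388423571360493236232131005122614795) (nat_lit 2668840587762781479637687462950207488) (nat_lit 48) (nat_lit 1)) .nil)) .nil)))),
 (.br (nat_lit 14) (nat_lit 0) (.cons (.rf (nat_lit 977) (nat_lit 76892198108459993152969)) (.cons (.rf (nat_lit 977) (nat_lit 76892160953798362545613)) (.cons (.rf (nat_lit 977) (nat_lit 76742178844076022185417)) (.cons (.rf (nat_lit 977) (nat_lit 76742141689414391578061)) (.cons (.kr (nat_lit 5192296858534827628530496329220096) (nat_lit 1329227995784915872903807060280344576) (nat_lit 14) (nat_lit 0)) (.cons (.rf (nat_lit 987) (nat_lit 19926519232773908561233952)) (.cons (.br (nat_lit 15) (nat_lit 0) (.cons (.rf (nat_lit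 977) (nat_lit 76892198108459993151977)) (.cons (.rf (nat_lit 977) (nat_lit 76892160953798362544621)) (.cons (.rf (nat_lit 977) (nat_lit 76742178844076022184425)) (.cons (.rf (nat_lit 977) (nat_lit 76742141689414391577069)) (.cons (.rf (nat_lit 987) (nat_lit 19889920892531668810827808)) (.cons (.br (nat_lit 16) (nat_lit 0) (.cons (.rf (nat_lit 988) (nat_lit 677582165103132179601393696)) (.cons (.rf (nat_lit 988) (nat_lit 677582012882735776634341408)) (.cons (.rf (nat_lit 988) (nat_lit 677582164954513533560850468)) (.cons (.rf (nat_lit 988) (nat_lit 677582012734117130593798180)) (.cons (.kr (nat_lit 174224571863599721455780510086736872734721) (nat_lit 680564754124286535300786122779961327616) (nat_lit 0) (nat_lit 1)) .nil)))))) .nil))))))) .nil)))))))),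
 (.br (nat_lit 11) (nat_lit 0) (.cons (.ev (nat_lit 10404955976228433286969985054277633) (nat_lit 2)) (.cons (.ev (nat_lit 680575118594363433434781531278349107458) (nat_lit 2)) .nil))),
 (.br (nat_lit 10) (nat_lit 0) (.cons (.kr (nat_lit 309485009821626543701491712) (nat_lit 1208925891672223212634112) (nat_lit 6) (nat_lit 0)) (.cons (.rf (nat_lit 990) (nat_lit 677582165103132179601393696)) (.cons (.rf (nat_lit 990) (nat_lit 640068866354836435435095104)) .nil)))),
 (.br (nat_lit 7) (nat_lit 0) (.cons (.ev (nat_lit 2740899302243581642237406009720859396623) (nat_lit 4)) (.cons (.rf (nat_lit 990) (nat_lit 677075351145146136198004173)) (.cons (.br (nat_lit 10) (nat_lit 0) (.cons (.ev (nat_lit 680575118594363433434781532373548990723) (nat_lit 2)) .nil)) .nil)))),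
 (.br (nat_lit 15) (nat_lit 0) (.cons (.rf (nat_lit 977) (nat_lit 76892198108459993151977)) (.cons (.rf (nat_lit 977) (nat_lit 76892160953798362544621)) (.cons (.rf (nat_lit 977) (nat_lit 76742178844076022184425)) (.cons (.rf (nat_lit 977) (nat_lit 76742141689414391577069)) (.cons (.rf (nat_lit 989) (nat_lit 19419705311942526788451785)) (.cons (.br (nat_lit 6) (nat_lit 0) (.cons (.rf (nat_lit 991) (nat_lit 677582165103132179601393696)) (.cons (.rf (nat_lit 991) (nat_lit 677075351182300797828611529)) (.cons (.br (nat_lit 7) (nat_lit 0) (.cons (.ev (nat_lit 8006542275959673806015399677961832975) (nat_lit 4)) (.cons (.ev (nat_lit 2740899302247280955245713879471705164303) (nat_lit 4)) (.cons (.ev (nat_lit 696906335535370335372167710827767248060943) (nat_lit 4)) .nil)))) (.cons (.rf (nat_lit 992) (nat_lit 677582165103132179601393696)) (.cons (.rf (nat_lit 992) (nat_lit 640068866354836435435095104)) .nil)))))) .nil))))))),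
 (.br (nat_lit 11) (nat_lit 0) (.cons (.kr (nat_lit 1329227995786124798795479283492978944) (nat_lit 5192297168019837450157040030777344) (nat_lit 1) (nat_lit 0)) (.cons (.br (nat_lit 15) (nat_lit 0) (.cons (.ev (nat_lit 2658476512282897700727531983025078273) (nat_lit 2)) (.cons (.rf (nat_lit 1) (nat_lit 582172326176833)) .nil))) .nil))),
 (.br (nat_lit 11) (nat_lit 0) (.cons (.ev (nat_lit 31174460325445208199901707686510595) (nat_lit 3)) (.cons (.br (nat_lit 14) (nat_lit 0) (.cons (.kr (nat_lit 79847137311757858014138204161) (nat_lit 2668860867698922904374892368301654016) (nat_lit 0) (nat_lit 1)) (.cons (.rf (nat_lit 1) (nat_lit 582139040180289)) .nil))) .nil))),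
 (.br (nat_lit 11) (nat_lit 0) (.cons (.rf (nat_lit 2) (nat_lit 15497214363291459808)) (.cons (.ev (nat_lit 5192297168024578335441577423405056) (nat_lit 1)) .nil))),
 (.br (nat_lit 15) (nat_lit 0) (.cons (.ev (nat_lit 340287559218106483319271509645036880128) (nat_lit 1)) .nil)),
 (.br (nat_lit 15) (nat_lit 0) (.cons (.ev (nat_lit 1329248278195733172832386104701223168) (nat_lit 1)) .nil)),
 (.br (nat_lit 15) (nat_lit 0) (.cons (.ev (nat_lit 340287559218106488023191247345755947008) (nat_lit 1)) .nil)),
 (.br (nat_lit 10) (nat_lit 0) (.cons (.br (nat_lit 7) (nat_lit 0) (.cons (.br (nat_lit 14) (nat_lit 0) (.cons (.kr (nat_lit 1329227995786124798795479283492978944) (nat_lit 5192297168019837450157040030777344) (nat_lit 1) (nat_lit 0)) (.cons (.br (nat_lit 15) (nat_lit 0) (.cons (.ev (nat_lit 2668860946924672344706155047668548097) (nat_lit 2)) (.cons (.rf (nat_lit 1) (nat_lit 582169108097089)) .nil))) .nil))) (.cons (.rf (nat_lit 994) (nat_lit 583706118939841765935136)) (.cons (.rf (nat_lit 995) (nat_lit 583706118939841765935136)) (.cons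 (.br (nat_lit 11) (nat_lit 0) (.cons (.rf (nat_lit 995) (nat_lit 547071889512313162728516)) (.cons (.rf (nat_lit 994) (nat_lit 547071889512313162728516)) (.cons (.ev (nat_lit 20362259168222907552869681987587) (nat_lit 2)) (.cons (.br (nat_lit 14) (nat_lit 0) (.cons (.rf (nat_lit 1) (nat_lit 582036191651905)) (.cons (.ev (nat_lit 10405113813592923943526308501258755) (nat_lit 2)) (.cons (.br (nat_lit 15) (nat_lit 0) (.cons (.rf (nat_lit 2) (nat_lit 19072089643721893953)) (.cons (.ev (nat_lit 2658476512282897700727531983025078273) (nat_lit 2)) .nil))) .nil)))) .nil))))) .nil))))) (.cons (.br (nat_lit 2) (nat_lit 0) (.cons (.kr (nat_lit 20361637766184381506718328160257) (nat_lit 618974742153288195170632192) (nat_lit 0) (nat_lit 2)) (.cons (.ev (nat_lit 31174618162819032620726761514336257) (nat_lit 3)) (.cons (.ev (nat_lit 20520096513823809947338430087171) (nat_lit 2)) (.cons (.br (nat_lit 11) (nat_lit 0) (.cons (.ev (nat_lit 10404955976237914913426062163574787) (nat_lit 2)) (.cons (.br (nat_lit 14) (nat_lit 0) (.cons (.ev (nat_lit 10404955976228433286969985020854787)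 (nat_lit 2)) (.cons (.rf (nat_lit 1) (nat_lit 582139164960993)) .nil))) (.cons (.br (nat_lit 14) (nat_lit 0) (.cons (.ev (nat_lit 10404955976228433286969985020854787) (nat_lit 2)) (.cons (.ev (nat_lit 340287559217798207235341555324531245313) (nat_lit 1)) (.cons (.br (nat_lit 15) (nat_lit 0) (.cons (.ev (nat_lit 1369104856180416791900307504990729011201) (nat_lit 3)) (.cons (.br (nat_lit 16) (nat_lit 0) (.cons (.ev (nat_lit 2746216214385165598463479887631245380121) (nat_lit 5)) .nil)) .nil))) .nil)))) (.cons (.br (nat_lit 14) (nat_lit 0) (.cons (.rf (nat_lit 1) (nat_lit 582036186409185)) (.cons (.br (nat_lit 15) (nat_lit 0) (.cons (.ev (nat_lit 8190734085120181051508831525806193775129) (nat_lit 5)) (.cons (.br (nat_lit 16) (nat_lit 0) (.cons (.ev (nat_lit 1369104856180416772937054592836443571201) (nat_lit 3)) .nil)) .nil))) (.cons (.br (nat_lit 15) (nat_lit 0) (.cons (.rf (nat_lit 2) (nat_lit 19072089643716651233)) (.cons (.kr (nat_lit 2668860946927085418639232160868859905) (nat_lit 1237954225119803337990996480) (nat_lit 0) (nat_lit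 2)) .nil))) .nil)))) .nil))))) .nil))))) (.cons (.br (nat_lit 2) (nat_lit 0) (.cons (.kr (nat_lit 20361637766184381506718328160257) (nat_lit 618974742153288195170632192) (nat_lit 0) (nat_lit 2)) (.cons (.ev (nat_lit 20520096523231649422722654666753) (nat_lit 2)) (.cons (.br (nat_lit 7) (nat_lit 0) (.cons (.kr (nat_lit 1329227995786124798795479283492978944) (nat_lit 5192297168019837450157040030777344) (nat_lit 1) (nat_lit 0)) (.cons (.br (nat_lit 14) (nat_lit 0) (.cons (.ev (nat_lit 2668861105999976800861110953129934851) (nat_lit 2)) (.cons (.rf (nat_lit 1) (nat_lit 582134841687105)) .nil))) .nil))) (.cons (.br (nat_lit 15) (nat_lit 0) (.cons (.ev (nat_lit 2658476512282897700727531983058502147) (nat_lit 2)) (.cons (.kr (nat_lit 309489732187827938369994752) (nat_lit 1329227995786124798723421689455050752) (nat_lit 9) (nat_lit 0)) (.cons (.ev (nat_lit 2658476512282897700727531983025078273) (nat_lit 2)) (.cons (.br (nat_lit 7) (nat_lit 0) (.cons (.rf (nat_lit 1) (nat_lit 582169196181729)) (.cons (.br (nat_lit 16) (nat_lit 0) (.cons (.ev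 (nat_lit 340282367000477319913352243792243064833) (nat_lit 1)) (.cons (.ev (nat_lit 341611594995951546572981574024269135873) (nat_lit 1)) .nil))) (.cons (.rf (nat_lit 996) (nat_lit 20678166659641484973121)) .nil)))) .nil))))) .nil))))) (.cons (.br (nat_lit 2) (nat_lit 0) (.cons (.kr (nat_lit 79228167255221680824486199809) (nat_lit 10404876126673306928047894175023104) (nat_lit 0) (nat_lit 10)) (.cons (.ev (nat_lit 20520096523231649422722654666753) (nat_lit 2)) (.cons (.br (nat_lit 7) (nat_lit 0) (.cons (.kr (nat_lit 1329227995786124798795479283492978944) (nat_lit 5192297168019837450157040030777344) (nat_lit 1) (nat_lit 0)) (.cons (.br (nat_lit 11) (nat_lit 0) (.cons (.ev (nat_lit 2668861105999976800861110953129934851) (nat_lit 2)) (.cons (.rf (nat_lit 1) (nat_lit 582034983697473)) .nil))) .nil))) (.cons (.br (nat_lit 15) (nat_lit 0) (.cons (.ev (nat_lit 2668860946924672344706155047634862083) (nat_lit 2)) (.cons (.kr (nat_lit 79847137274720255773859905537) (nat_lit 2658476273981853249117267330473132032) (nat_lit 0) (nat_lit 1)) (.cons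 (.ev (nat_lit 2668860946924672344706155047668548097) (nat_lit 2)) (.cons (.br (nat_lit 7) (nat_lit 0) (.cons (.rf (nat_lit 1) (nat_lit 582172417404129)) (.cons (.br (nat_lit 16) (nat_lit 0) (.cons (.ev (nat_lit 340287579579435978105196054566062260480) (nat_lit 1)) (.cons (.ev (nat_lit 341611615199132983006467922685830627328) (nat_lit 1)) .nil))) (.cons (.br (nat_lit 11) (nat_lit 0) (.cons (.rf (nat_lit 997) (nat_lit 21174442622281864334903328)) (.cons (.ev (nat_lit 87112291124136644042623799813190080004096) (nat_lit 1)) .nil))) .nil)))) .nil))))) .nil))))) (.cons (.ev (nat_lit 20520096513823809947338396402177) (nat_lit 2)) (.cons (.br (nat_lit 2) (nat_lit 0) (.cons (.br (nat_lit 11) (nat_lit 0) (.cons (.br (nat_lit 15) (nat_lit 0) (.cons (.ev (nat_lit 8006542277814128086364388663287219715) (nat_lit 3)) (.cons (.rf (nat_lit 1) (nat_lit 582172459342913)) .nil))) (.cons (.kr (nat_lit 309485009893402662762709248) (nat_lit 20282409603651670423951563030528) (nat_lit 1) (nat_lit 0)) (.cons (.ev (nat_lit 20362259168222907552869715673601) (nat_lit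 2)) (.cons (.br (nat_lit 14) (nat_lit 0) (.cons (.kr (nat_lit 4722438540463683141888) (nat_lit 5192296858534827628811971305996288) (nat_lit 1) (nat_lit 0)) (.cons (.ev (nat_lit 10405113813592923943526308501258755) (nat_lit 2)) (.cons (.kr (nat_lit 309489732331943126445851136) (nat_lit 5212579268138479299235922869026816) (nat_lit 1) (nat_lit 0)) .nil)))) .nil))))) (.cons (.br (nat_lit 7) (nat_lit 0) (.cons (.br (nat_lit 15) (nat_lit 0) (.cons (.ev (nat_lit 8006542593488838103848128369165206019) (nat_lit 3)) (.cons (.rf (nat_lit 1) (nat_lit 582172325129281)) .nil))) (.cons (.kr (nat_lit 309485009893402662762709248) (nat_lit 20282409603651670423951563030528) (nat_lit 1) (nat_lit 0)) (.cons (.ev (nat_lit 20362259168222907552869681987587) (nat_lit 2)) (.cons (.br (nat_lit 14) (nat_lit 0) (.cons (.rf (nat_lit 1) (nat_lit 616086692375617)) (.cons (.br (nat_lit 15) (nat_lit 0) (.cons (.ev (nat_lit 340282366920939677130007731578786086913) (nat_lit 1)) (.cons (.rf (nat_lit 2) (nat_lit 19067551925951212609)) .nil))) (.cons (.br (nat_lit 15) (nat_lit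 0) (.cons (.br (nat_lit 16) (nat_lit 0) (.cons (.ev (nat_lit 340282387203658761050758330145950400513) (nat_lit 1)) .nil)) (.cons (.ev (nat_lit 87113620372414837353241073232335712878592) (nat_lit 1)) .nil))) .nil)))) .nil))))) (.cons (.br (nat_lit 7) (nat_lit 0) (.cons (.br (nat_lit 15) (nat_lit 0) (.cons (.ev (nat_lit 2658476830440760241454444844306137089) (nat_lit 3)) (.cons (.rf (nat_lit 1) (nat_lit 582169103906881)) .nil))) (.cons (.br (nat_lit 11) (nat_lit 0) (.cons (.kr (nat_lit 79847137311757858014138204161) (nat_lit 2668860867698922904374892368301654016) (nat_lit 0) (nat_lit 1)) (.cons (.rf (nat_lit 1) (nat_lit 582035959920705)) .nil))) (.cons (.ev (nat_lit 10405113813592923943526308501258755) (nat_lit 2)) (.cons (.br (nat_lit 11) (nat_lit 0) (.cons (.rf (nat_lit 1) (nat_lit 616086591715393)) (.cons (.br (nat_lit 15) (nat_lit 0) (.cons (.ev (nat_lit 340282366920939677130007731578786086913) (nat_lit 1)) (.cons (.rf (nat_lit 555) (nat_lit 19998537762443639321008355)) .nil))) (.cons (.br (nat_lit 15) (nat_lit 0) (.cons (.rf (nat_lit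 998) (nat_lit 21174441469360359728056352)) (.cons (.ev (nat_lit 87113620372414837353241073232335712878592) (nat_lit 1)) .nil))) .nil)))) .nil))))) (.cons (.br (nat_lit 7) (nat_lit 0) (.cons (.br (nat_lit 14) (nat_lit 0) (.cons (.ev (nat_lit 10404955976228433286969985020854787) (nat_lit 2)) (.cons (.rf (nat_lit 1) (nat_lit 582134744169537)) .nil))) (.cons (.br (nat_lit 11) (nat_lit 0) (.cons (.ev (nat_lit 10404955976228433286969985020854787) (nat_lit 2)) (.cons (.rf (nat_lit 1) (nat_lit 582034886179905)) .nil))) (.cons (.br (nat_lit 11) (nat_lit 0) (.cons (.kr (nat_lit 20283028578449163944367845539841) (nat_lit 2668840664517481766968806014594318336) (nat_lit 0) (nat_lit 1)) (.cons (.ev (nat_lit 2658476354452824692071507090358010885) (nat_lit 3)) (.cons (.br (nat_lit 16) (nat_lit 0) (.cons (.ev (nat_lit 2679245857561673946569501378320138245) (nat_lit 3)) (.cons (.ev (nat_lit 1369104856338254137501209895078543622149) (nat_lit 3)) .nil))) .nil)))) (.cons (.br (nat_lit 11) (nat_lit 0) (.cons (.rf (nat_lit 1) (nat_lit 616085517974593)) (.cons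 (.br (nat_lit 14) (nat_lit 0) (.cons (.ev (nat_lit 340282366920939677130007731578786086913) (nat_lit 1)) (.cons (.br (nat_lit 16) (nat_lit 0) (.cons (.zr (nat_lit 1363788025087374154766006888147896502789) (nat_lit 31153862236281594305515353409454080) (nat_lit 16) (nat_lit 1)) .nil)) .nil))) (.cons (.br (nat_lit 14) (nat_lit 0) (.cons (.br (nat_lit 16) (nat_lit 0) (.cons (.ev (nat_lit 2619530899731299390368149404367707392968721) (nat_lit 5)) .nil)) (.cons (.ev (nat_lit 87113620372414837353241073232335712878592) (nat_lit 1)) .nil))) .nil)))) .nil))))) (.cons (.br (nat_lit 11) (nat_lit 0) (.cons (.br (nat_lit 14) (nat_lit 0) (.cons (.ev (nat_lit 10404955976228433286969985020854787) (nat_lit 2)) (.cons (.ev (nat_lit 340282387203658765791571558193094983680) (nat_lit 1)) (.cons (.br (nat_lit 15) (nat_lit 0) (.cons (.ev (nat_lit 1369104856180416791900307504990662165509) (nat_lit 3)) (.cons (.br (nat_lit 16) (nat_lit 0) (.cons (.ev (nat_lit 1363798328631923738755950484248003478535) (nat_lit 3)) .nil)) .nil))) .nil)))) (.cons (.ev (nat_lit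 10404955976237914913426062197260801) (nat_lit 2)) (.cons (.br (nat_lit 7) (nat_lit 0) (.cons (.ev (nat_lit 10404955976228433286969985020854787) (nat_lit 2)) (.cons (.ev (nat_lit 340282367000477324654165471839404491009) (nat_lit 1)) (.cons (.br (nat_lit 16) (nat_lit 0) (.cons (.ev (nat_lit 10404955976228433286969985054277633) (nat_lit 2)) (.cons (.ev (nat_lit 340282367000477324654165471839387648000) (nat_lit 1)) .nil))) .nil)))) (.cons (.br (nat_lit 7) (nat_lit 0) (.cons (.ev (nat_lit 340282367000477319913352243792226353408) (nat_lit 1)) (.cons (.ev (nat_lit 1369104856180416791900307504990662165509) (nat_lit 3)) (.cons (.br (nat_lit 14) (nat_lit 0) (.cons (.ev (nat_lit 10404955976228433286969985054277633) (nat_lit 2)) (.cons (.br (nat_lit 15) (nat_lit 0) (.cons (.ev (nat_lit 1363798328631923738755950484247936106499) (nat_lit 3)) .nil)) .nil))) .nil)))) (.cons (.br (nat_lit 7) (nat_lit 0) (.cons (.br (nat_lit 15) (nat_lit 0) (.cons (.ev (nat_lit 1374473691288741199858734393654008349197) (nat_lit 4)) (.cons (.br (nat_lit 16) (nat_lit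 0) (.cons (.zr (nat_lit 1363787924071466916077607200991412748805) (nat_lit 20789471700657743480225127370981376) (nat_lit 16) (nat_lit 10)) .nil)) .nil))) (.cons (.br (nat_lit 14) (nat_lit 0) (.cons (.ev (nat_lit 2762187718571295284892932709088118181381) (nat_lit 5)) (.cons (.rf (nat_lit 618) (nat_lit 19992142218495297018178024)) .nil))) (.cons (.br (nat_lit 14) (nat_lit 0) (.cons (.ev (nat_lit 340287559217798211939261293025250312193) (nat_lit 1)) (.cons (.br (nat_lit 15) (nat_lit 0) (.cons (.zr (nat_lit 1361150338283236011440812541452411600896) (nat_lit 2658456071419396299029783769677564417) (nat_lit 16) (nat_lit 2)) .nil)) .nil))) (.cons (.br (nat_lit 15) (nat_lit 0) (.cons (.rf (nat_lit 999) (nat_lit 21174442622281864334903328)) (.cons (.ev (nat_lit 340282387203658761050758330145950400513) (nat_lit 1)) (.cons (.br (nat_lit 14) (nat_lit 0) (.cons (.ev (nat_lit 2700015520988622510902511417722539531) (nat_lit 4)) .nil)) .nil)))) .nil))))) .nil)))))) (.cons (.br (nat_lit 7) (nat_lit 0) (.cons (.br (nat_lit 14) (nat_lit 0) (.cons (.rf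 (nat_lit 1) (nat_lit 616086687132897)) (.cons (.br (nat_lit 15) (nat_lit 0) (.cons (.ev (nat_lit 1369125625367850931136745290024282488833) (nat_lit 3)) (.cons (.br (nat_lit 16) (nat_lit 0) (.cons (.ev (nat_lit 1363819097819357877992388269247129845763) (nat_lit 3)) .nil)) .nil))) (.cons (.br (nat_lit 17) (nat_lit 0) (.cons (.ev (nat_lit 87113615159835259725029586731433017212928) (nat_lit 1)) (.cons (.ev (nat_lit 174224577055897510863526280332752424337409) (nat_lit 2)) .nil))) .nil)))) (.cons (.br (nat_lit 11) (nat_lit 0) (.cons (.rf (nat_lit 1) (nat_lit 616086586472673)) (.cons (.br (nat_lit 15) (nat_lit 0) (.cons (.ev (nat_lit 1374452922101307060622298851589815796237) (nat_lit 4)) (.cons (.br (nat_lit 16) (nat_lit 0) (.cons (.zr (nat_lit 1363787924071466916151682403268651123205) (nat_lit 41558659134797053995472999709802496) (nat_lit 16) (nat_lit 10)) .nil)) .nil))) (.cons (.br (nat_lit 17) (nat_lit 0) (.cons (.ev (nat_lit 87113615159835259725029586731433017212928) (nat_lit 1)) (.cons (.ev (nat_lit 174224577055897510863526280332752390914563)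 (nat_lit 2)) .nil))) .nil)))) (.cons (.br (nat_lit 11) (nat_lit 0) (.cons (.rf (nat_lit 1) (nat_lit 616085512731873)) (.cons (.br (nat_lit 16) (nat_lit 0) (.cons (.kr (nat_lit 80466107331544663335368655361) (nat_lit 2668901432518130207715740267132747776) (nat_lit 0) (nat_lit 2)) (.cons (.ev (nat_lit 1369104856496091482954538332542321557505) (nat_lit 3)) .nil))) (.cons (.br (nat_lit 14) (nat_lit 0) (.cons (.br (nat_lit 16) (nat_lit 0) (.cons (.ev (nat_lit 2741003149297396033927759600849730410013) (nat_lit 5)) .nil)) (.cons (.ev (nat_lit 87113620372414837353241073232335712878592) (nat_lit 1)) .nil))) .nil)))) (.cons (.br (nat_lit 16) (nat_lit 0) (.cons (.br (nat_lit 15) (nat_lit 0) (.cons (.ev (nat_lit 10404955976228433286969985054277633) (nat_lit 2)) (.cons (.ev (nat_lit 2658476514770923706758617662445454859) (nat_lit 4)) .nil))) (.cons (.br (nat_lit 11) (nat_lit 0) (.cons (.ev (nat_lit 10404955976228433286969985054277633) (nat_lit 2)) (.cons (.br (nat_lit 15) (nat_lit 0) (.cons (.ev (nat_lit 1363819097819357877992388269247129845763)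 (nat_lit 3)) .nil)) .nil))) (.cons (.br (nat_lit 11) (nat_lit 0) (.cons (.ev (nat_lit 340287579500517295896761266750781128705) (nat_lit 1)) (.cons (.ev (nat_lit 2735551235846072407059432217435901396483) (nat_lit 4)) .nil))) (.cons (.ev (nat_lit 340282387282577443295942493119581323265) (nat_lit 1)) .nil))))) (.cons (.br (nat_lit 11) (nat_lit 0) (.cons (.br (nat_lit 15) (nat_lit 0) (.cons (.br (nat_lit 16) (nat_lit 0) (.cons (.ev (nat_lit 340287559297335859463274918089202925825) (nat_lit 1)) .nil)) (.cons (.ev (nat_lit 87113620372414837353241073232335712878592) (nat_lit 1)) .nil))) (.cons (.br (nat_lit 14) (nat_lit 0) (.cons (.ev (nat_lit 10404955976228433286969985054277633) (nat_lit 2)) (.cons (.ev (nat_lit 87113620372414837353241073232335712878592) (nat_lit 1)) .nil))) (.cons (.br (nat_lit 14) (nat_lit 0) (.cons (.ev (nat_lit 10404955976228433286969985054277633) (nat_lit 2)) (.cons (.br (nat_lit 15) (nat_lit 0) (.cons (.zr (nat_lit 1369104856178564693858749146162970755075) (nat_lit 3094883155067061155211117056) (nat_lit 16) (nat_lit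 10)) .nil)) (.cons (.br (nat_lit 15) (nat_lit 0) (.cons (.ev (nat_lit 1363819097819357859176709318478680686599) (nat_lit 3)) .nil)) .nil)))) (.cons (.br (nat_lit 14) (nat_lit 0) (.cons (.ev (nat_lit 87113620372414837353241073232335712878592) (nat_lit 1)) (.cons (.br (nat_lit 15) (nat_lit 0) (.cons (.ev (nat_lit 2735613544360350715274641400033926578699) (nat_lit 4)) .nil)) .nil))) .nil))))) .nil)))))) .nil))))))) .nil)))))))]

theorem c53 : chkAll C T R L53 (nat_lit 985) = true := by decide +kernel

theorem l53 : (nat_lit 985) + L53.length = (nat_lit 1001) := by decide +kernel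

/-- part of the certificates -/
def L54 : List Prf := [(.br (nat_lit 10) (nat_lit 0) (.cons (.ev (nat_lit 31174460325445208199899517152134657) (nat_lit 3)) (.cons (.br (nat_lit 15) (nat_lit 0) (.cons (.ev (nat_lit 1339612827190114052621837566688166401) (nat_lit 2)) (.cons (.rf (nat_lit 1) (nat_lit 582172291607617)) .nil))) .nil))),
 (.br (nat_lit 10) (nat_lit 0) (.cons (.kr (nat_lit 5192297168019837450157040030712064) (nat_lit 1329227995786124798795479283493044224) (nat_lit 1) (nat_lit 0)) (.cons (.br (nat_lit 14) (nat_lit 0) (.cons (.ev (nat_lit 10405113813592923943526308467704321) (nat_lit 2)) (.cons (.rf (nat_lit 1) (nat_lit 582139005611073)) .nil))) .nil))),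
 (.br (nat_lit 11) (nat_lit 0) (.cons (.kr (nat_lit 79228162514264338693055578113) (nat_lit 309485009893402662762774528) (nat_lit 0) (nat_lit 1)) (.cons (.ev (nat_lit 5337702008818498352556920259911746049) (nat_lit 3)) (.cons (.kr (nat_lit 5192376086697341893150664361509121) (nat_lit 309485028412204330510319616) (nat_lit 0) (nat_lit 3)) .nil)))),
 (.br (nat_lit 15) (nat_lit 0) (.cons (.ev (nat_lit 341611615199132987710387660377976471553) (nat_lit 1)) (.cons (.rf (nat_lit 639) (nat_lit 21164619721779534296816072)) .nil))),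
 (.br (nat_lit 16) (nat_lit 0) (.cons (.ev (nat_lit 340282366920939677130007730483586138368) (nat_lit 1)) (.cons (.ev (nat_lit 340282367000477319913352244896032882688) (nat_lit 1)) .nil))),
 (.br (nat_lit 2) (nat_lit 0) (.cons (.rf (nat_lit 1000) (nat_lit 583706118939841765934144)) (.cons (.rf (nat_lit 1000) (nat_lit 547071889512313162728516)) (.cons (.br (nat_lit 6) (nat_lit 0) (.cons (.br (nat_lit 14) (nat_lit 0) (.cons (.kr (nat_lit 5192297168019837450157040030712064) (nat_lit 1329227995786124798795479283493044224) (nat_lit 1) (nat_lit 0)) (.cons (.br (nat_lit 15) (nat_lit 0) (.cons (.ev (nat_lit 2668860946924672344706152857201672707) (nat_lit 2)) (.cons (.rf (nat_lit 1) (nat_lit 582168000834625)) .nil))) .nil))) (.cons (.rf (nat_lit 1001) (nat_lit 583706118939841765935136)) (.cons (.rf (nat_lit 1002) (nat_lit 583706118939841765935136)) (.cons (.br (nat_lit 10) (nat_lit 0) (.cons (.rf (nat_lit 1002) (nat_lit 547071889512313162728516)) (.cons (.rf (nat_lit 1001) (nat_lit 547071889512313162728516)) (.cons (.ev (nat_lit 20362259168222907552869681987587)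 (nat_lit 2)) (.cons (.br (nat_lit 14) (nat_lit 0) (.cons (.rf (nat_lit 1) (nat_lit 582001830898753)) (.cons (.br (nat_lit 15) (nat_lit 0) (.cons (.ev (nat_lit 2658476512282897700727534190638268417) (nat_lit 2)) (.cons (.rf (nat_lit 632) (nat_lit 21168161496641583451511240)) .nil))) (.cons (.ev (nat_lit 10405113813592923943526308467704321) (nat_lit 2)) .nil)))) .nil))))) .nil))))) (.cons (.br (nat_lit 10) (nat_lit 0) (.cons (.kr (nat_lit 5192296858534827628811971305931008) (nat_lit 18518801667747545088) (nat_lit 1) (nat_lit 0)) (.cons (.kr (nat_lit 79228162514264338693055578113) (nat_lit 309485009893402662762774528) (nat_lit 0) (nat_lit 1)) (.cons (.ev (nat_lit 5337701690667908255925963632731881989) (nat_lit 3)) (.cons (.br (nat_lit 15) (nat_lit 0) (.cons (.kr (nat_lit 10384672945232169521962635667440129) (nat_lit 20282409608392627766082993782784) (nat_lit 0) (nat_lit 10)) (.cons (.kr (nat_lit 20361637770888301245514263822337) (nat_lit 618970038233549399235100672) (nat_lit 0) (nat_lit 1)) (.cons (.br (nat_lit 6) (nat_lit 0) (.cons (.ev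 (nat_lit 1334420293575546730111916886489825795) (nat_lit 2)) (.cons (.ev (nat_lit 5316932503233768871914221628635088389) (nat_lit 3)) (.cons (.rf (nat_lit 1003) (nat_lit 677582165103132179601393696)) .nil)))) (.cons (.br (nat_lit 6) (nat_lit 0) (.cons (.rf (nat_lit 1) (nat_lit 582169070385217)) (.cons (.rf (nat_lit 1003) (nat_lit 640105464695078675185502240)) (.cons (.ev (nat_lit 5316932503233768871914221628635088389) (nat_lit 3)) .nil)))) .nil))))) .nil))))) (.cons (.br (nat_lit 11) (nat_lit 0) (.cons (.ev (nat_lit 2658456071107493492549714453096235521) (nat_lit 2)) (.cons (.br (nat_lit 6) (nat_lit 0) (.cons (.ev (nat_lit 20679174255021070626922185098759) (nat_lit 3)) (.cons (.br (nat_lit 14) (nat_lit 0) (.cons (.ev (nat_lit 1334420372494219456776137825975336962) (nat_lit 2)) (.cons (.rf (nat_lit 1) (nat_lit 582134840671297)) .nil))) .nil))) (.cons (.kr (nat_lit 20361637770888301245514263822337) (nat_lit 618970038233549399235100672) (nat_lit 0) (nat_lit 1)) (.cons (.br (nat_lit 10) (nat_lit 0) (.cons (.br (nat_lit 14) (nat_lit 0)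 (.cons (.ev (nat_lit 10404955976228433286969985020854787) (nat_lit 2)) (.cons (.rf (nat_lit 1) (nat_lit 582133637954625)) .nil))) (.cons (.ev (nat_lit 10405113813583442317072421791858691) (nat_lit 2)) (.cons (.br (nat_lit 6) (nat_lit 0) (.cons (.ev (nat_lit 10404955976228433286969985020854787) (nat_lit 2)) (.cons (.ev (nat_lit 341611615199132983006467921582040809473) (nat_lit 1)) (.cons (.br (nat_lit 16) (nat_lit 0) (.cons (.ev (nat_lit 10405113813592923943526308467704321) (nat_lit 2)) (.cons (.ev (nat_lit 341611594917032864364546785113754632193) (nat_lit 1)) .nil))) .nil)))) (.cons (.br (nat_lit 14) (nat_lit 0) (.cons (.rf (nat_lit 1) (nat_lit 616119713119297)) (.cons (.br (nat_lit 6) (nat_lit 0) (.cons (.ev (nat_lit 341611615199132987710387660377959760128) (nat_lit 1)) (.cons (.rf (nat_lit 465) (nat_lit 19992142218495297018178024)) .nil))) (.cons (.ev (nat_lit 10405113813592923943526308467704321) (nat_lit 2)) .nil)))) .nil))))) .nil))))) (.cons (.br (nat_lit 6) (nat_lit 0) (.cons (.br (nat_lit 11) (nat_lit 0) (.cons (.br (nat_lit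 15) (nat_lit 0) (.cons (.ev (nat_lit 2668860946924672344706152857201672707) (nat_lit 2)) (.cons (.rf (nat_lit 1) (nat_lit 582172450990273)) .nil))) (.cons (.kr (nat_lit 309485028268089142434332672) (nat_lit 1329227995786124798723421689455050752) (nat_lit 8) (nat_lit 0)) (.cons (.br (nat_lit 14) (nat_lit 0) (.cons (.ev (nat_lit 10404955976228433286969985020854787) (nat_lit 2)) (.cons (.ev (nat_lit 10405113813592923943526308501389315) (nat_lit 2)) (.cons (.br (nat_lit 15) (nat_lit 0) (.cons (.ev (nat_lit 341611594917032864364546785113754632193) (nat_lit 1)) (.cons (.rf (nat_lit 295) (nat_lit 20667637064460293091362)) .nil))) .nil)))) (.cons (.br (nat_lit 14) (nat_lit 0) (.cons (.rf (nat_lit 1) (nat_lit 582036186441921)) (.cons (.ev (nat_lit 10405113813592923943526308501389315) (nat_lit 2)) (.cons (.br (nat_lit 15) (nat_lit 0) (.cons (.rf (nat_lit 2) (nat_lit 19072089643716683969)) (.cons (.ev (nat_lit 87113620372414837353241073232335712813312) (nat_lit 1)) .nil))) .nil)))) .nil))))) (.cons (.br (nat_lit 10) (nat_lit 0) (.cons (.ev (nat_lit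 10404955976237914913423871763808257) (nat_lit 2)) (.cons (.br (nat_lit 14) (nat_lit 0) (.cons (.ev (nat_lit 10404955976228433286969985020854787) (nat_lit 2)) (.cons (.rf (nat_lit 1) (nat_lit 582139131440321)) .nil))) (.cons (.br (nat_lit 14) (nat_lit 0) (.cons (.ev (nat_lit 10404955976228433286969985020854787) (nat_lit 2)) (.cons (.ev (nat_lit 10405113813592923943526308467704321) (nat_lit 2)) (.cons (.br (nat_lit 15) (nat_lit 0) (.cons (.ev (nat_lit 341611615278670635234401286545702125825) (nat_lit 1)) (.cons (.rf (nat_lit 258) (nat_lit 20667637064460293091393)) .nil))) .nil)))) (.cons (.br (nat_lit 14) (nat_lit 0) (.cons (.rf (nat_lit 1) (nat_lit 582001826704577)) (.cons (.rf (nat_lit 1004) (nat_lit 677582165103132179601393696)) (.cons (.ev (nat_lit 10405113813592923943526308467704321) (nat_lit 2)) .nil)))) .nil))))) (.cons (.br (nat_lit 10) (nat_lit 0) (.cons (.ev (nat_lit 20679174255021070626922185098759) (nat_lit 3)) (.cons (.br (nat_lit 11) (nat_lit 0) (.cons (.ev (nat_lit 10404955976228433286969985020854787) (nat_lit 2)) (.cons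 (.rf (nat_lit 1) (nat_lit 582036052228289)) .nil))) (.cons (.ev (nat_lit 10405113813592923943526308501389315) (nat_lit 2)) (.cons (.br (nat_lit 11) (nat_lit 0) (.cons (.ev (nat_lit 2668861105999976800861113160709440001) (nat_lit 2)) (.cons (.br (nat_lit 15) (nat_lit 0) (.cons (.ev (nat_lit 341611594995951541869061836332123291648) (nat_lit 1)) (.cons (.rf (nat_lit 358) (nat_lit 21174441285838809294080036)) .nil))) (.cons (.br (nat_lit 15) (nat_lit 0) (.cons (.br (nat_lit 16) (nat_lit 0) (.cons (.ev (nat_lit 340282366920939677130007730483569426433) (nat_lit 1)) .nil)) (.cons (.ev (nat_lit 87113620372335299705716915490979877748736) (nat_lit 1)) .nil))) .nil)))) .nil))))) (.cons (.br (nat_lit 11) (nat_lit 0) (.cons (.kr (nat_lit 2658456070800412111711182071965679617) (nat_lit 20283028578412126341032367357952) (nat_lit 0) (nat_lit 1)) (.cons (.ev (nat_lit 2668860946924672344706152857235095553) (nat_lit 2)) (.cons (.br (nat_lit 10) (nat_lit 0) (.cons (.ev (nat_lit 10404955976237914913423871730385411) (nat_lit 2)) (.cons (.ev (nat_lit 341611594917032864364546785113771344128)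 (nat_lit 1)) (.cons (.br (nat_lit 14) (nat_lit 0) (.cons (.ev (nat_lit 341611615199132987710387660377959760128) (nat_lit 1)) (.cons (.ev (nat_lit 10405113813592923943526308467704321) (nat_lit 2)) .nil))) .nil)))) (.cons (.br (nat_lit 10) (nat_lit 0) (.cons (.rf (nat_lit 1) (nat_lit 582034978487489)) (.cons (.br (nat_lit 14) (nat_lit 0) (.cons (.ev (nat_lit 10405113813592923943526308467704321) (nat_lit 2)) (.cons (.rf (nat_lit 569) (nat_lit 661665148975727139526984)) .nil))) (.cons (.br (nat_lit 14) (nat_lit 0) (.cons (.rf (nat_lit 746) (nat_lit 640068713985787018367632708)) (.cons (.ev (nat_lit 10405113813592923943526308467704321) (nat_lit 2)) .nil))) .nil)))) .nil))))) (.cons (.br (nat_lit 10) (nat_lit 0) (.cons (.ev (nat_lit 20363499545003586891597106906627) (nat_lit 3)) (.cons (.br (nat_lit 11) (nat_lit 0) (.cons (.kr (nat_lit 79847137274720255773859905537) (nat_lit 2658476273981853249117267330473132032) (nat_lit 0) (nat_lit 1)) (.cons (.ev (nat_lit 10404955976237914913423871730385411) (nat_lit 2)) (.cons (.rf (nat_lit 1005) (nat_lit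 677582165103132179601393696)) .nil)))) (.cons (.br (nat_lit 11) (nat_lit 0) (.cons (.ev (nat_lit 2668861105999967393021635568838115841) (nat_lit 2)) (.cons (.ev (nat_lit 341611615199132983006467921582040809473) (nat_lit 1)) (.cons (.br (nat_lit 14) (nat_lit 0) (.cons (.ev (nat_lit 340282366920939677130007730483586138368) (nat_lit 1)) (.cons (.ev (nat_lit 10404955976228433286969985054277633) (nat_lit 2)) .nil))) .nil)))) (.cons (.ev (nat_lit 340282366920939672389194503540214661121) (nat_lit 1)) (.cons (.br (nat_lit 14) (nat_lit 0) (.cons (.br (nat_lit 16) (nat_lit 0) (.cons (.ev (nat_lit 2668860946924672344706152857201672707) (nat_lit 2)) (.cons (.ev (nat_lit 340282387203658765791571557089305165825) (nat_lit 1)) .nil))) (.cons (.br (nat_lit 11) (nat_lit 0) (.cons (.ev (nat_lit 341611594917032869068466523909690294273) (nat_lit 1)) (.cons (.ev (nat_lit 10404955976228433286969985054277633) (nat_lit 2)) .nil))) (.cons (.br (nat_lit 11) (nat_lit 0) (.cons (.ev (nat_lit 2668861105999976800861113160743124995) (nat_lit 2)) (.cons (.ev (nat_lit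 340282387203658765791571557089305165825) (nat_lit 1)) .nil))) (.cons (.ev (nat_lit 10405113813592923943526308467704321) (nat_lit 2)) .nil))))) .nil)))))) (.cons (.br (nat_lit 10) (nat_lit 0) (.cons (.br (nat_lit 15) (nat_lit 0) (.cons (.kr (nat_lit 309489732187827938369994752) (nat_lit 1329227995786124798723421689455050752) (nat_lit 9) (nat_lit 0)) (.cons (.kr (nat_lit 1329228075014287312987760382510628865) (nat_lit 618974742081230601132769280) (nat_lit 0) (nat_lit 1)) (.cons (.ev (nat_lit 5316932663547003959226845442925921799) (nat_lit 3)) .nil)))) (.cons (.br (nat_lit 11) (nat_lit 0) (.cons (.kr (nat_lit 79847137274720255773859905537) (nat_lit 2658476273981853249117267330473132032) (nat_lit 0) (nat_lit 1)) (.cons (.ev (nat_lit 10404955976237914913423871730385411) (nat_lit 2)) (.cons (.br (nat_lit 15) (nat_lit 0) (.cons (.br (nat_lit 16) (nat_lit 0) (.cons (.ev (nat_lit 340282366920939677130007730483569426433) (nat_lit 1)) .nil)) (.cons (.ev (nat_lit 87113620372335299705716915490979877748736) (nat_lit 1)) .nil))) .nil)))) (.cons (.br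 (nat_lit 11) (nat_lit 0) (.cons (.ev (nat_lit 2668861105999967393021635568838115841) (nat_lit 2)) (.cons (.br (nat_lit 14) (nat_lit 0) (.cons (.ev (nat_lit 10404955976228433286969985054277633) (nat_lit 2)) (.cons (.rf (nat_lit 258) (nat_lit 20678049392398331749441)) .nil))) (.cons (.br (nat_lit 14) (nat_lit 0) (.cons (.br (nat_lit 16) (nat_lit 0) (.cons (.ev (nat_lit 340282366920939677130007730483569426433) (nat_lit 1)) .nil)) (.cons (.ev (nat_lit 10404955976228433286969985054277633) (nat_lit 2)) .nil))) .nil)))) (.cons (.br (nat_lit 16) (nat_lit 0) (.cons (.br (nat_lit 15) (nat_lit 0) (.cons (.ev (nat_lit 10404955976228433286969985054277633) (nat_lit 2)) (.cons (.ev (nat_lit 341611615199132983006467921582024098048) (nat_lit 1)) .nil))) (.cons (.ev (nat_lit 10405113813592923943526308467704321) (nat_lit 2)) (.cons (.br (nat_lit 11) (nat_lit 0) (.cons (.ev (nat_lit 2668860946924672344706152857201672707) (nat_lit 2)) (.cons (.ev (nat_lit 340282387203658761050758330145950400513) (nat_lit 1)) .nil))) (.cons (.ev (nat_lit 340282366920939672389194503540231373056)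 (nat_lit 1)) .nil))))) (.cons (.br (nat_lit 17) (nat_lit 0) (.cons (.br (nat_lit 14) (nat_lit 0) (.cons (.ev (nat_lit 10404955976228433286969985054277633) (nat_lit 2)) (.cons (.br (nat_lit 15) (nat_lit 0) (.cons (.ev (nat_lit 340282366920939677130007730483569426433) (nat_lit 1)) .nil)) .nil))) (.cons (.ev (nat_lit 10405113813592923943526308467704321) (nat_lit 2)) (.cons (.rf (nat_lit 548) (nat_lit 639800871017508035492980773)) (.cons (.br (nat_lit 14) (nat_lit 0) (.cons (.br (nat_lit 15) (nat_lit 0) (.cons (.ev (nat_lit 2668860946924672344706152857201672707) (nat_lit 2)) .nil)) (.cons (.ev (nat_lit 87112291124057106395099786188126161010688) (nat_lit 1)) (.cons (.ev (nat_lit 174905136617882466743406197644859161969155) (nat_lit 2)) .nil)))) .nil))))) .nil)))))) .nil))))))) .nil))))))),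
 (.br (nat_lit 10) (nat_lit 0) (.cons (.kr (nat_lit 1329227995786124798795479283492978944) (nat_lit 5192297168019837450157040030777344) (nat_lit 1) (nat_lit 0)) (.cons (.br (nat_lit 11) (nat_lit 0) (.cons (.ev (nat_lit 20362259168222907552869715542017) (nat_lit 2)) (.cons (.rf (nat_lit 1) (nat_lit 582027336694849)) .nil))) .nil))),
 (.br (nat_lit 10) (nat_lit 0) (.cons (.ev (nat_lit 5192377017579686320803088538075137) (nat_lit 2)) (.cons (.ev (nat_lit 20362259168222907552869715542017) (nat_lit 2)) (.cons (.br (nat_lit 15) (nat_lit 0) (.cons (.ev (nat_lit 2658476353207602652700284045620281857) (nat_lit 2)) (.cons (.rf (nat_lit 295) (nat_lit 19524951356388876324911)) .nil))) .nil)))),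
 (.br (nat_lit 10) (nat_lit 0) (.cons (.ev (nat_lit 340282366920939677130007731578786021633) (nat_lit 1)) (.cons (.rf (nat_lit 246) (nat_lit 20672102629777172673889)) .nil))),
 (.br (nat_lit 15) (nat_lit 0) (.cons (.ev (nat_lit 7996157523783823380255281299108921859) (nat_lit 3)) (.cons (.ev (nat_lit 1344946863233790620801732617988736262) (nat_lit 3)) (.cons (.ev (nat_lit 7996157999771768485628109986874786817) (nat_lit 3)) .nil)))),
 (.br (nat_lit 2) (nat_lit 0) (.cons (.rf (nat_lit 1000) (nat_lit 583706118939841765934144)) (.cons (.rf (nat_lit 1006) (nat_lit 583706118939841765934144)) (.cons (.rf (nat_lit 1000) (nat_lit 547071889512313162728516)) (.cons (.rf (nat_lit 1006) (nat_lit 547071889512313162728516)) (.cons (.br (nat_lit 6) (nat_lit 0) (.cons (.rf (nat_lit 1007) (nat_lit 583706118939841765935136)) (.cons (.br (nat_lit 7) (nat_lit 0) (.cons (.kr (nat_lit 1329227995786124798795479283492978944) (nat_lit 5192297168019837450157040030777344) (nat_lit 1) (nat_lit 0)) (.cons (.br (nat_lit 11) (nat_lit 0) (.cons (.ev (nat_lit 20362259158815068075277810795011)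 (nat_lit 2)) (.cons (.rf (nat_lit 1) (nat_lit 582030554774593)) .nil))) .nil))) (.cons (.ev (nat_lit 5348086126547613457564632397025247239) (nat_lit 3)) (.cons (.br (nat_lit 10) (nat_lit 0) (.cons (.ev (nat_lit 7996157523783823380255281299108921859) (nat_lit 3)) (.cons (.rf (nat_lit 1007) (nat_lit 547071889512313162728516)) (.cons (.br (nat_lit 7) (nat_lit 0) (.cons (.ev (nat_lit 20362259158815068077468277670401) (nat_lit 2)) (.cons (.ev (nat_lit 1369104856020103566220834354387409305601) (nat_lit 3)) (.cons (.br (nat_lit 11) (nat_lit 0) (.cons (.ev (nat_lit 1361160641828404607859317083935460033031) (nat_lit 3)) (.cons (.ev (nat_lit 1344865971586944826636519067671921410) (nat_lit 2)) .nil))) .nil)))) (.cons (.br (nat_lit 7) (nat_lit 0) (.cons (.rf (nat_lit 1) (nat_lit 581997301283905)) (.cons (.br (nat_lit 11) (nat_lit 0) (.cons (.ev (nat_lit 1366456784622867337482464748111115846151) (nat_lit 3)) (.cons (.ev (nat_lit 1344865971586944826636519067671921410) (nat_lit 2)) .nil))) (.cons (.br (nat_lit 11) (nat_lit 0) (.cons (.br (nat_lit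 16) (nat_lit 0) (.cons (.ev (nat_lit 681899154135452459471314940179744228097) (nat_lit 2)) .nil)) (.cons (.ev (nat_lit 348451822972582873531608428355866910130181) (nat_lit 3)) .nil))) .nil)))) .nil))))) .nil))))) (.cons (.br (nat_lit 6) (nat_lit 0) (.cons (.br (nat_lit 16) (nat_lit 0) (.cons (.ev (nat_lit 10405113813592923943526308501389315) (nat_lit 2)) (.cons (.rf (nat_lit 1008) (nat_lit 19926519232773908561233952)) (.cons (.ev (nat_lit 2658476353207602652700284045620281857) (nat_lit 2)) (.cons (.br (nat_lit 16) (nat_lit 0) (.cons (.ev (nat_lit 10405113813592923943526308501389315) (nat_lit 2)) (.cons (.rf (nat_lit 1008) (nat_lit 19926519232773908561233952)) (.cons (.ev (nat_lit 2658476353207602652700284045620281857) (nat_lit 2)) .nil)))) .nil))))) (.cons (.br (nat_lit 7) (nat_lit 0) (.cons (.br (nat_lit 15) (nat_lit 0) (.cons (.ev (nat_lit 2658476353207602652700281855153406467) (nat_lit 2)) (.cons (.rf (nat_lit 1) (nat_lit 582169095776449)) .nil))) (.cons (.br (nat_lit 11) (nat_lit 0) (.cons (.ev (nat_lit 20362259158815068075277810795011)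 (nat_lit 2)) (.cons (.rf (nat_lit 1) (nat_lit 582035951790273)) .nil))) (.cons (.ev (nat_lit 10405113813592923943526308501389315) (nat_lit 2)) (.cons (.br (nat_lit 11) (nat_lit 0) (.cons (.kr (nat_lit 309485028268089142434332672) (nat_lit 1329227995786124798723421689455050752) (nat_lit 8) (nat_lit 0)) (.cons (.br (nat_lit 15) (nat_lit 0) (.cons (.ev (nat_lit 341611594917032864364546785113754632193) (nat_lit 1)) (.cons (.rf (nat_lit 874) (nat_lit 20678166659641450301472)) .nil))) (.cons (.br (nat_lit 15) (nat_lit 0) (.cons (.rf (nat_lit 425) (nat_lit 19529819787373777627201)) (.cons (.ev (nat_lit 87113620372414837353241073232335712813312) (nat_lit 1)) .nil))) .nil)))) .nil))))) (.cons (.br (nat_lit 7) (nat_lit 0) (.cons (.br (nat_lit 15) (nat_lit 0) (.cons (.ev (nat_lit 2658476353207602652700281855153406467) (nat_lit 2)) (.cons (.rf (nat_lit 1) (nat_lit 582168022035649)) .nil))) (.cons (.ev (nat_lit 2658476353207612134326735741896359937) (nat_lit 2)) (.cons (.br (nat_lit 10) (nat_lit 0) (.cons (.ev (nat_lit 2658476353207602652700281855153406467)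 (nat_lit 2)) (.cons (.ev (nat_lit 340287579500517300600681004442910195713) (nat_lit 1)) (.cons (.br (nat_lit 15) (nat_lit 0) (.cons (.ev (nat_lit 2668861105999967393021633361258480131) (nat_lit 2)) (.cons (.rf (nat_lit 258) (nat_lit 19529707159927544578529)) .nil))) .nil)))) (.cons (.br (nat_lit 15) (nat_lit 0) (.cons (.rf (nat_lit 1) (nat_lit 581898613501121)) (.cons (.rf (nat_lit 1009) (nat_lit 677582165103132179601393696)) (.cons (.ev (nat_lit 2668861105999967393021633361258480131) (nat_lit 2)) .nil)))) .nil))))) (.cons (.br (nat_lit 10) (nat_lit 0) (.cons (.ev (nat_lit 2658476353207612134326737932296126467) (nat_lit 2)) (.cons (.kr (nat_lit 2658456070800412111711182071965679617) (nat_lit 20283028578412126341032367357952) (nat_lit 0) (nat_lit 1)) (.cons (.br (nat_lit 7) (nat_lit 0) (.cons (.ev (nat_lit 20362259158815068077468277670401) (nat_lit 2)) (.cons (.ev (nat_lit 341616807495991517815577370039452500225) (nat_lit 1)) (.cons (.br (nat_lit 11) (nat_lit 0) (.cons (.ev (nat_lit 340282366920939677130007731578786021633) (nat_lit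 1)) (.cons (.ev (nat_lit 2668861105999967393021633361258480131) (nat_lit 2)) .nil))) .nil)))) (.cons (.br (nat_lit 7) (nat_lit 0) (.cons (.rf (nat_lit 1) (nat_lit 581997297089729)) (.cons (.br (nat_lit 11) (nat_lit 0) (.cons (.ev (nat_lit 2668861105999967393021633361258480131) (nat_lit 2)) (.cons (.br (nat_lit 16) (nat_lit 0) (.cons (.ev (nat_lit 341611615278670635234401285450485530625) (nat_lit 1)) .nil)) .nil))) (.cons (.br (nat_lit 11) (nat_lit 0) (.cons (.rf (nat_lit 197) (nat_lit 625057880451896629596198)) (.cons (.ev (nat_lit 2668861105999967393021633361258480131) (nat_lit 2)) .nil))) .nil)))) .nil))))) (.cons (.br (nat_lit 16) (nat_lit 0) (.cons (.br (nat_lit 10) (nat_lit 0) (.cons (.ev (nat_lit 20362259168222907555060115308547) (nat_lit 2)) (.cons (.ev (nat_lit 340282387282577438555129266176226492673) (nat_lit 1)) (.cons (.br (nat_lit 15) (nat_lit 0) (.cons (.ev (nat_lit 2668861105999976800861113160743124995) (nat_lit 2)) (.cons (.ev (nat_lit 7985772930066753762037512491806098435) (nat_lit 3)) .nil))) .nil)))) (.cons (.ev (nat_lit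 340282387282577443295942493119598100480) (nat_lit 1)) (.cons (.br (nat_lit 7) (nat_lit 0) (.cons (.ev (nat_lit 31174144650754005818649827453436419) (nat_lit 3)) (.cons (.ev (nat_lit 5348086126547622865404112179262916099) (nat_lit 3)) (.cons (.br (nat_lit 10) (nat_lit 0) (.cons (.ev (nat_lit 681899154372208491984427743872576323584) (nat_lit 2)) (.cons (.ev (nat_lit 1361160642144079317877377280012841911811) (nat_lit 3)) .nil))) .nil)))) (.cons (.ev (nat_lit 341616807495991522556390596982790422528) (nat_lit 1)) (.cons (.br (nat_lit 7) (nat_lit 0) (.cons (.br (nat_lit 11) (nat_lit 0) (.cons (.ev (nat_lit 2658476353207602652700281855153406467) (nat_lit 2)) (.cons (.rf (nat_lit 1010) (nat_lit 677582165103132179601393696)) .nil))) (.cons (.br (nat_lit 10) (nat_lit 0) (.cons (.ev (nat_lit 20362259158815068077468277670401) (nat_lit 2)) (.cons (.ev (nat_lit 680569926376731852213972412420755488769) (nat_lit 2)) .nil))) (.cons (.br (nat_lit 10) (nat_lit 0) (.cons (.ev (nat_lit 10405113813583442317070214178537987) (nat_lit 2)) (.cons (.br (nat_lit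 11) (nat_lit 0) (.cons (.ev (nat_lit 2658476512290151329720993785753895937) (nat_lit 3)) .nil)) .nil))) (.cons (.br (nat_lit 10) (nat_lit 0) (.cons (.rf (nat_lit 392) (nat_lit 21174442622281863294714944)) (.cons (.br (nat_lit 11) (nat_lit 0) (.cons (.ev (nat_lit 340287559297335859463274919193009520897) (nat_lit 1)) .nil)) (.cons (.br (nat_lit 11) (nat_lit 0) (.cons (.ev (nat_lit 340287559297335859463274919193009520897) (nat_lit 1)) .nil)) .nil)))) .nil))))) .nil)))))) (.cons (.br (nat_lit 7) (nat_lit 0) (.cons (.br (nat_lit 11) (nat_lit 0) (.cons (.rf (nat_lit 1) (nat_lit 581864287316193)) (.cons (.rf (nat_lit 1010) (nat_lit 640105464695078675185502240)) (.cons (.ev (nat_lit 31174144650754005818649827453436419) (nat_lit 3)) .nil)))) (.cons (.br (nat_lit 10) (nat_lit 0) (.cons (.ev (nat_lit 10405113813583442317070214178537987) (nat_lit 2)) (.cons (.br (nat_lit 15) (nat_lit 0) (.cons (.ev (nat_lit 1369125625367850931136745290024282752001) (nat_lit 3)) (.cons (.br (nat_lit 16) (nat_lit 0) (.cons (.ev (nat_lit 1363819097819357877992388269247130108931)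 (nat_lit 3)) .nil)) .nil))) (.cons (.br (nat_lit 15) (nat_lit 0) (.cons (.br (nat_lit 16) (nat_lit 0) (.cons (.ev (nat_lit 1369136009801254765815226639406785233927) (nat_lit 3)) .nil)) (.cons (.ev (nat_lit 348457119115537649524542407085394237587461) (nat_lit 3)) .nil))) .nil)))) (.cons (.br (nat_lit 10) (nat_lit 0) (.cons (.ev (nat_lit 10405113813583442317070214178537987) (nat_lit 2)) (.cons (.br (nat_lit 11) (nat_lit 0) (.cons (.ev (nat_lit 7996157999771787301307065170684805125) (nat_lit 3)) (.cons (.ev (nat_lit 10405272891324786864604534205055495) (nat_lit 3)) .nil))) (.cons (.br (nat_lit 11) (nat_lit 0) (.cons (.ev (nat_lit 1365574312723136729406872521791505665) (nat_lit 3)) (.cons (.ev (nat_lit 348449174901185637340501416664339035718151) (nat_lit 3)) .nil))) .nil)))) (.cons (.br (nat_lit 11) (nat_lit 0) (.cons (.br (nat_lit 15) (nat_lit 0) (.cons (.ev (nat_lit 340287579500517295896761266750781194497) (nat_lit 1)) (.cons (.rf (nat_lit 295) (nat_lit 19529707159927544578095)) .nil))) (.cons (.ev (nat_lit 2668861105999976800861113160743124995)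 (nat_lit 2)) (.cons (.br (nat_lit 10) (nat_lit 0) (.cons (.ev (nat_lit 1369125625683525650710218920663978477059) (nat_lit 3)) (.cons (.ev (nat_lit 340282366920939672389194504635448098816) (nat_lit 1)) .nil))) (.cons (.br (nat_lit 10) (nat_lit 0) (.cons (.br (nat_lit 16) (nat_lit 0) (.cons (.ev (nat_lit 1361139872640970449659626382366754210311) (nat_lit 3)) .nil)) (.cons (.ev (nat_lit 10405272891324786864604534205055495) (nat_lit 3)) (.cons (.ev (nat_lit 348449174901185637340501416664339035718151) (nat_lit 3)) .nil)))) .nil))))) (.cons (.br (nat_lit 10) (nat_lit 0) (.cons (.ev (nat_lit 20362259168222907555060115308547) (nat_lit 2)) (.cons (.br (nat_lit 11) (nat_lit 0) (.cons (.br (nat_lit 16) (nat_lit 0) (.cons (.ev (nat_lit 1363808713701628762887380559334910330375) (nat_lit 3)) .nil)) (.cons (.ev (nat_lit 348454471044298250660220618833185661257219) (nat_lit 3)) .nil))) (.cons (.br (nat_lit 17) (nat_lit 0) (.cons (.ev (nat_lit 10405272891324786864604534205055495) (nat_lit 3)) (.cons (.ev (nat_lit 7985772930066753762037512491806098435)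 (nat_lit 3)) (.cons (.ev (nat_lit 87112291144418744161265720950762172842240) (nat_lit 1)) .nil)))) (.cons (.br (nat_lit 11) (nat_lit 0) (.cons (.ev (nat_lit 87112285931839785507814690366940298346497) (nat_lit 1)) (.cons (.br (nat_lit 15) (nat_lit 0) (.cons (.ev (nat_lit 2668860948169884902452050105636880387) (nat_lit 3)) .nil)) .nil))) .nil))))) .nil)))))) .nil))))))) .nil)))))))]

theorem c54 : chkAll C T R L54 (nat_lit 1001) = true := by decide +kernel

theorem l54 : (nat_lit 1001) + L54.length = (nat_lit 1012) := by decide +kernel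

/-- part of the certificates -/
def L55 : List Prf := [(.br (nat_lit 15) (nat_lit 0) (.cons (.br (nat_lit 10) (nat_lit 0) (.cons (.ev (nat_lit 1334420451412896961147069458204852224) (nat_lit 2)) (.cons (.ev (nat_lit 10405430728651425090551981803700737) (nat_lit 3)) (.cons (.br (nat_lit 11) (nat_lit 0) (.cons (.ev (nat_lit 5348086602535558562937463275157587457) (nat_lit 3)) (.cons (.ev (nat_lit 7996157684097058467567905113466994689) (nat_lit 3)) .nil))) .nil)))) (.cons (.ev (nat_lit 2668860946924672344706155047668548097) (nat_lit 2)) (.cons (.ev (nat_lit 2668860946924672344706152857235095553) (nat_lit 2)) (.cons (.ev (nat_lit 341616807495991522556390596982790422528) (nat_lit 1)) (.cons (.br (nat_lit 7) (nat_lit 0) (.cons (.br (nat_lit 11) (nat_lit 0) (.cons (.ev (nat_lit 340282367000477319913352243792243064833) (nat_lit 1)) (.cons (.br (nat_lit 16) (nat_lit 0) (.cons (.zr (nat_lit 1361129488203847949825668582658143159811) (nat_lit 2668840585908289272491272647048036352) (nat_lit 16) (nat_lit 1)) .nil)) .nil))) (.cons (.br (nat_lit 10)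 (nat_lit 0) (.cons (.ev (nat_lit 340282367000477319913352243792243064833) (nat_lit 1)) (.cons (.ev (nat_lit 7975388496662919083556167490169995269) (nat_lit 3)) .nil))) (.cons (.br (nat_lit 11) (nat_lit 0) (.cons (.ev (nat_lit 340282367000477319913352243792243064833) (nat_lit 1)) (.cons (.rf (nat_lit 491) (nat_lit 645899906997114056769)) .nil))) (.cons (.ev (nat_lit 2658476353207602652700284045586595843) (nat_lit 2)) .nil))))) .nil)))))),
 (.br (nat_lit 15) (nat_lit 0) (.cons (.kr (nat_lit 10384672945232169521962635667439617) (nat_lit 20282409608392627766082993651712) (nat_lit 0) (nat_lit 1)) (.cons (.ev (nat_lit 2668860946924672344706155047634862083) (nat_lit 2)) (.cons (.ev (nat_lit 2668860946924672344706152857201672707) (nat_lit 2)) (.cons (.ev (nat_lit 341616787292810076678171282581921792256) (nat_lit 1)) (.cons (.br (nat_lit 6) (nat_lit 0) (.cons (.kr (nat_lit 5192296858534827628811971305930752) (nat_lit 18518801667747479552) (nat_lit 6) (nat_lit 0)) (.cons (.br (nat_lit 10) (nat_lit 0) (.cons (.ev (nat_lit 340282387203658765791571558193111826689)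 (nat_lit 1)) (.cons (.br (nat_lit 16) (nat_lit 0) (.cons (.zr (nat_lit 1361129488203847949936637286259760300035) (nat_lit 2699994367059498238120029308282077696) (nat_lit 16) (nat_lit 10)) .nil)) .nil))) (.cons (.br (nat_lit 10) (nat_lit 0) (.cons (.ev (nat_lit 340282387203658765791571558193111826689) (nat_lit 1)) (.cons (.br (nat_lit 11) (nat_lit 0) (.cons (.ev (nat_lit 340282387203658765791571557089305165825) (nat_lit 1)) .nil)) .nil))) (.cons (.ev (nat_lit 2658476353207602652700284045586595843) (nat_lit 2)) .nil))))) .nil)))))),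
 (.br (nat_lit 6) (nat_lit 0) (.cons (.kr (nat_lit 79228167255221680824486199297) (nat_lit 10404876126673306928047894174892032) (nat_lit 0) (nat_lit 1)) (.cons (.ev (nat_lit 10404955976237914913423871763808257) (nat_lit 2)) (.cons (.ev (nat_lit 2668860946924672344706155047668548097) (nat_lit 2)) (.cons (.br (nat_lit 7) (nat_lit 0) (.cons (.ev (nat_lit 10404955976237914913423871730385411) (nat_lit 2)) (.cons (.ev (nat_lit 2668860946924672344706155047634862083) (nat_lit 2)) (.cons (.br (nat_lit 11) (nat_lit 0) (.cons (.kr (nat_lit 79847137274720255773859905537) (nat_lit 2658476273981853249117267330473132032) (nat_lit 0) (nat_lit 1)) (.cons (.ev (nat_lit 340282387203658765791571557089305165825) (nat_lit 1)) .nil))) .nil)))) (.cons (.br (nat_lit 7) (nat_lit 0) (.cons (.ev (nat_lit 10404955976237914913423871730385411) (nat_lit 2)) (.cons (.ev (nat_lit 2668860946924672344706155047634862083) (nat_lit 2)) (.cons (.br (nat_lit 11) (nat_lit 0) (.cons (.kr (nat_lit 79847137274720255773859905537) (nat_lit 2658476273981853249117267330473132032)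 (nat_lit 0) (nat_lit 1)) (.cons (.ev (nat_lit 340282367000477319913352244896049725697) (nat_lit 1)) .nil))) (.cons (.br (nat_lit 11) (nat_lit 0) (.cons (.kr (nat_lit 79847137274720255773859905537) (nat_lit 2658476273981853249117267330473132032) (nat_lit 0) (nat_lit 1)) (.cons (.br (nat_lit 15) (nat_lit 0) (.cons (.zr (nat_lit 4088705335554500152005192644926705243653) (nat_lit 10384596192973345804919526288654336) (nat_lit 48) (nat_lit 1)) .nil)) (.cons (.br (nat_lit 15) (nat_lit 0) (.cons (.zr (nat_lit 4083388403765552969116546888443440928267) (nat_lit 10644309972054086303541232382703697920) (nat_lit 48) (nat_lit 1)) .nil)) .nil)))) .nil))))) .nil)))))),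
 (.br (nat_lit 10) (nat_lit 0) (.cons (.ev (nat_lit 10404955976237914913426062197260801) (nat_lit 2)) (.cons (.ev (nat_lit 10404955976237914913426062163574787) (nat_lit 2)) (.cons (.rf (nat_lit 1012) (nat_lit 19889885003346379958028324)) (.cons (.br (nat_lit 6) (nat_lit 0) (.cons (.ev (nat_lit 10405430728679796182935156694319623) (nat_lit 3)) (.cons (.ev (nat_lit 2668860946924672344706152857235095553) (nat_lit 2)) (.cons (.br (nat_lit 7) (nat_lit 0) (.cons (.ev (nat_lit 2668860946924672344706152857201672707) (nat_lit 2)) (.cons (.ev (nat_lit 1361139872798807823631621160010258579461) (nat_lit 3)) .nil))) .nil)))) (.cons (.br (nat_lit 15) (nat_lit 0) (.cons (.ev (nat_lit 2668860946924672344706152857235095553) (nat_lit 2)) (.cons (.ev (nat_lit 2668860946924672344706152857201672707) (nat_lit 2)) (.cons (.br (nat_lit 6) (nat_lit 0) (.cons (.ev (nat_lit 5327317415101428734339149262209025543) (nat_lit 3)) (.cons (.br (nat_lit 7) (nat_lit 0) (.cons (.ev (nat_lit 1366477553968138850691473775921411130369) (nat_lit 3)) .nil)) .nil))) (.cons (.br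 (nat_lit 6) (nat_lit 0) (.cons (.ev (nat_lit 8006542277814128086364388663287087107) (nat_lit 3)) (.cons (.ev (nat_lit 1329288923173971204443092959432343811) (nat_lit 2)) (.cons (.ev (nat_lit 87113620372335299705716915490979877748736) (nat_lit 1)) .nil)))) .nil))))) .nil)))))),
 (.br (nat_lit 15) (nat_lit 0) (.cons (.rf (nat_lit 1014) (nat_lit 19889885003346379958028324)) (.cons (.rf (nat_lit 1015) (nat_lit 19889885003346379958028324)) (.cons (.ev (nat_lit 341616807495991517815577370039435657216) (nat_lit 1)) (.cons (.ev (nat_lit 341616807495991517815577368935629127936) (nat_lit 1)) (.cons (.br (nat_lit 6) (nat_lit 0) (.cons (.br (nat_lit 10) (nat_lit 0) (.cons (.ev (nat_lit 20362259168222907555060148994561) (nat_lit 2)) (.cons (.br (nat_lit 11) (nat_lit 0) (.cons (.ev (nat_lit 20362259168222907552869715542017) (nat_lit 2)) .nil)) .nil))) (.cons (.br (nat_lit 7) (nat_lit 0) (.cons (.ev (nat_lit 20362259168222907555060148994561) (nat_lit 2)) (.cons (.br (nat_lit 11) (nat_lit 0) (.cons (.zr (nat_lit 4083388504463309580058943312281915627015)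 (nat_lit 2699994446287674919483818787873619968) (nat_lit 48) (nat_lit 1)) .nil)) .nil))) (.cons (.br (nat_lit 7) (nat_lit 0) (.cons (.ev (nat_lit 20362259168222907555060148994561) (nat_lit 2)) (.cons (.br (nat_lit 10) (nat_lit 0) (.cons (.zr (nat_lit 1361129467686848737138269160146259151365) (nat_lit 8016926869679118607834463747608805376) (nat_lit 16) (nat_lit 1)) .nil)) .nil))) (.cons (.br (nat_lit 7) (nat_lit 0) (.cons (.br (nat_lit 11) (nat_lit 0) (.cons (.ev (nat_lit 2658476512290170145399948969429172229) (nat_lit 3)) .nil)) (.cons (.br (nat_lit 10) (nat_lit 0) (.cons (.ev (nat_lit 1363808713383478163382910120700598813701) (nat_lit 3)) .nil)) (.cons (.ev (nat_lit 174907805458309294901927093852568367006211) (nat_lit 2)) .nil)))) .nil))))) .nil)))))),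
 (.br (nat_lit 7) (nat_lit 0) (.cons (.br (nat_lit 11) (nat_lit 0) (.cons (.ev (nat_lit 7996157684097058467567905113400148997) (nat_lit 3)) .nil)) (.cons (.br (nat_lit 10) (nat_lit 0) (.cons (.ev (nat_lit 1363787944196044023998898374315702748161) (nat_lit 3)) .nil)) (.cons (.ev (nat_lit 341611615199132983006467922685847470337) (nat_lit 1)) .nil)))),
 (.br (nat_lit 6) (nat_lit 0) (.cons (.br (nat_lit 11) (nat_lit 0) (.cons (.zr (nat_lit 4083409273650743719147809400906473018887) (nat_lit 2658456071419396299029783769729597440) (nat_lit 48) (nat_lit 1)) .nil)) (.cons (.br (nat_lit 10) (nat_lit 0) (.cons (.ev (nat_lit 2614081054565251450192328822716025835097095) (nat_lit 5)) .nil)) (.cons (.ev (nat_lit 341611594995951546572981574024269135873) (nat_lit 1)) .nil)))),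
 (.br (nat_lit 15) (nat_lit 0) (.cons (.ev (nat_lit 8006542277814128086364388663287087107) (nat_lit 3)) (.cons (.rf (nat_lit 425) (nat_lit 20661656110317049224683)) .nil))),
 (.br (nat_lit 15) (nat_lit 0) (.cons (.ev (nat_lit 341616787213891399173800348750668890368) (nat_lit 1)) (.cons (.rf (nat_lit 644) (nat_lit 21168161496641583451511240)) .nil))),
 (.br (nat_lit 14) (nat_lit 0) (.cons (.ev (nat_lit 1334420292952940432720448069484675328) (nat_lit 1)) .nil)),
 (.br (nat_lit 10) (nat_lit 0) (.cons (.rf (nat_lit 1020) (nat_lit 677582165103132179601393696)) (.cons (.br (nat_lit 11) (nat_lit 0) (.cons (.ev (nat_lit 10404955976228433286969985054277633) (nat_lit 2)) (.cons (.rf (nat_lit 467) (nat_lit 21173036197592786421318980)) .nil))) (.cons (.br (nat_lit 11) (nat_lit 0) (.cons (.ev (nat_lit 10404955976228433286969985054277633) (nat_lit 2)) (.cons (.rf (nat_lit 1021) (nat_lit 21174442622281864334903328)) .nil))) (.cons (.br (nat_lit 17) (nat_lit 0) (.cons (.ev (nat_lit 20362259168222907552869715542017) (nat_lit 2)) (.cons (.ev (nat_lit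 87112291124057106395099786188126160945408) (nat_lit 1)) (.cons (.ev (nat_lit 87112285931760247855549719398641125294336) (nat_lit 1)) .nil)))) .nil))))),
 (.br (nat_lit 14) (nat_lit 0) (.cons (.kr (nat_lit 79228167255221680824486199297) (nat_lit 10404876126673306928047894174892032) (nat_lit 0) (nat_lit 1)) (.cons (.br (nat_lit 10) (nat_lit 0) (.cons (.ev (nat_lit 1334420451412887553307594073980272642) (nat_lit 2)) (.cons (.rf (nat_lit 1019) (nat_lit 677582165103132179601393696)) (.cons (.rf (nat_lit 1019) (nat_lit 640105464695078675185501248)) .nil)))) (.cons (.kr (nat_lit 5192296858534827628811971305930752) (nat_lit 4722438540463683141632) (nat_lit 6) (nat_lit 0)) (.cons (.rf (nat_lit 1022) (nat_lit 677582165103132179601393696)) (.cons (.rf (nat_lit 1022) (nat_lit 640105464695078675185501248)) .nil)))))),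
 (.br (nat_lit 15) (nat_lit 0) (.cons (.ev (nat_lit 341616807575529170080548337234818892032) (nat_lit 1)) (.cons (.rf (nat_lit 645) (nat_lit 21168161496641583451511240)) .nil))),
 (.br (nat_lit 14) (nat_lit 0) (.cons (.ev (nat_lit 341616787213891399173800347655435452673) (nat_lit 1)) (.cons (.rf (nat_lit 465) (nat_lit 20001889309841080048585028)) .nil))),
 (.br (nat_lit 11) (nat_lit 0) (.cons (.kr (nat_lit 1334420292644659626352233660760981504) (nat_lit 309485046786890810181812224) (nat_lit 6) (nat_lit 0)) (.cons (.rf (nat_lit 1025) (nat_lit 677582165103132179601393696)) (.cons (.rf (nat_lit 1025) (nat_lit 640105464695078675185501248)) .nil)))),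
 (.br (nat_lit 11) (nat_lit 0) (.cons (.rf (nat_lit 1025) (nat_lit 677545530873704650998188068)) (.cons (.kr (nat_lit 309485028268089142434332672) (nat_lit 1329227995786124798723421689455050752) (nat_lit 8) (nat_lit 0)) (.cons (.br (nat_lit 14) (nat_lit 0) (.cons (.ev (nat_lit 341616787213891399173800347655435452673) (nat_lit 1)) (.cons (.br (nat_lit 15) (nat_lit 0) (.cons (.ev (nat_lit 681899154135452473656861132862422908931) (nat_lit 2)) .nil)) .nil))) (.cons (.br (nat_lit 14) (nat_lit 0) (.cons (.br (nat_lit 16) (nat_lit 0) (.cons (.ev (nat_lit 341611594917032869068466525004923666688) (nat_lit 1)) .nil)) (.cons (.ev (nat_lit 340287559217798207235341554229314584833) (nat_lit 1)) (.cons (.br (nat_lit 15) (nat_lit 0) (.cons (.ev (nat_lit 681909538729169533867240547770114899969) (nat_lit 2)) .nil)) .nil)))) .nil))))),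
 (.br (nat_lit 15) (nat_lit 0) (.cons (.ev (nat_lit 341616807575529170080548336139585454337) (nat_lit 1)) (.cons (.rf (nat_lit 949) (nat_lit 19998347503734281784624192)) .nil))),
 (.br (nat_lit 15) (nat_lit 0) (.cons (.ev (nat_lit 1363819098295345804282082149356779078659) (nat_lit 3)) (.cons (.br (nat_lit 16) (nat_lit 0) (.cons (.ev (nat_lit 2740868148464280089591177764193436303875) (nat_lit 4)) .nil)) .nil))),
 (.br (nat_lit 10) (nat_lit 0) (.cons (.ev (nat_lit 10404955976237914913423871763808257) (nat_lit 2)) (.cons (.br (nat_lit 14) (nat_lit 0) (.cons (.ev (nat_lit 1361139873114482514686428452695155147781) (nat_lit 3)) (.cons (.br (nat_lit 16) (nat_lit 0) (.cons (.ev (nat_lit 2724969334850863932465653686402791900681) (nat_lit 4)) .nil)) .nil))) (.cons (.br (nat_lit 14) (nat_lit 0) (.cons (.ev (nat_lit 340287559217798211939261293025250246913) (nat_lit 1)) (.cons (.br (nat_lit 15) (nat_lit 0) (.cons (.ev (nat_lit 2616771474335964281380329324717709634832415) (nat_lit 5)) .nil)) .nil))) (.cons (.br (nat_lit 14) (nat_lit 0) (.cons (.rf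 (nat_lit 258) (nat_lit 19529707195111883112526)) (.cons (.br (nat_lit 15) (nat_lit 0) (.cons (.ev (nat_lit 5327317096950838637708188254128571397) (nat_lit 3)) .nil)) (.cons (.br (nat_lit 15) (nat_lit 0) (.cons (.ev (nat_lit 2619509684007277508765281785545686659892231) (nat_lit 5)) .nil)) .nil)))) .nil))))),
 (.br (nat_lit 7) (nat_lit 0) (.cons (.br (nat_lit 14) (nat_lit 0) (.cons (.kr (nat_lit 1334420292644659626352233660760981504) (nat_lit 309494454626368402053136384) (nat_lit 6) (nat_lit 0)) (.cons (.rf (nat_lit 1028) (nat_lit 677582165103132179601393696)) (.cons (.rf (nat_lit 1028) (nat_lit 640105464695078675185501248)) .nil)))) (.cons (.br (nat_lit 10) (nat_lit 0) (.cons (.ev (nat_lit 20362259158815068077468243984387) (nat_lit 2)) (.cons (.rf (nat_lit 1029) (nat_lit 677582165103132179601393696)) (.cons (.rf (nat_lit 1029) (nat_lit 640105464695078675185501248)) .nil)))) (.cons (.ev (nat_lit 2658476353207612134326735741896359937) (nat_lit 2)) (.cons (.rf (nat_lit 1030) (nat_lit 677582165103132179601393696)) (.cons (.rf (nat_lit 1030)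 (nat_lit 640105464695078675185501248)) .nil)))))),
 (.br (nat_lit 11) (nat_lit 0) (.cons (.ev (nat_lit 341616807575529165339735110291464126720) (nat_lit 1)) (.cons (.rf (nat_lit 618) (nat_lit 21174216758918627610167488)) .nil))),
 (.br (nat_lit 14) (nat_lit 0) (.cons (.ev (nat_lit 1329248278195733172832386104701288448) (nat_lit 1)) .nil)),
 (.br (nat_lit 11) (nat_lit 0) (.cons (.br (nat_lit 15) (nat_lit 0) (.cons (.ev (nat_lit 7975388496662919083556167490169995269) (nat_lit 3)) (.cons (.rf (nat_lit 648) (nat_lit 19992142217404581483424232)) .nil))) (.cons (.ev (nat_lit 2668860946924672344706152857235095553) (nat_lit 2)) (.cons (.br (nat_lit 7) (nat_lit 0) (.cons (.ev (nat_lit 7996157684097058467567905113466994689) (nat_lit 3)) (.cons (.br (nat_lit 15) (nat_lit 0) (.cons (.ev (nat_lit 2658476353207602652700284045586595843) (nat_lit 2)) .nil)) .nil))) (.cons (.br (nat_lit 7) (nat_lit 0) (.cons (.rf (nat_lit 567) (nat_lit 639953133928953449912735811)) (.cons (.rf (nat_lit 576) (nat_lit 21174393046657405718463712)) (.cons (.rf (nat_lit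 1033) (nat_lit 21174441469360359728056352)) .nil)))) .nil)))))]

theorem c55 : chkAll C T R L55 (nat_lit 1012) = true := by decide +kernel

theorem l55 : (nat_lit 1012) + L55.length = (nat_lit 1035) := by decide +kernel

/-- part of the certificates -/
def L56 : List Prf := [(.br (nat_lit 10) (nat_lit 0) (.cons (.rf (nat_lit 1031) (nat_lit 677545530873704650998188068)) (.cons (.rf (nat_lit 1023) (nat_lit 677545530873704650998188068)) (.cons (.br (nat_lit 7) (nat_lit 0) (.cons (.ev (nat_lit 5192455936257190691738023630995457) (nat_lit 2)) (.cons (.rf (nat_lit 1032) (nat_lit 677582165103132179601393696)) (.cons (.rf (nat_lit 1032) (nat_lit 640105464695078675185501248)) .nil)))) (.cons (.rf (nat_lit 1034) (nat_lit 677582165103132179601393696)) (.cons (.rf (nat_lit 1034) (nat_lit 640105464695078675185501248)) .nil)))))),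
 (.br (nat_lit 14) (nat_lit 0) (.cons (.ev (nat_lit 340287579579435978105196054566045483265) (nat_lit 1)) (.cons (.br (nat_lit 16) (nat_lit 0) (.cons (.ev (nat_lit 87112285931760247860290532625584463347713) (nat_lit 1)) .nil)) .nil))),
 (.br (nat_lit 11) (nat_lit 0) (.cons (.kr (nat_lit 2658456070800412111711182071965679617) (nat_lit 20283028578412126341032367357952) (nat_lit 0) (nat_lit 1)) (.cons (.ev (nat_lit 2668860946924672344706152857235095553) (nat_lit 2)) (.cons (.br (nat_lit 14) (nat_lit 0) (.cons (.ev (nat_lit 341616807575529165339735110291464126720) (nat_lit 1)) (.cons (.ev (nat_lit 2663648289047350797288790916778361601) (nat_lit 2)) .nil))) (.cons (.br (nat_lit 14) (nat_lit 0) (.cons (.rf (nat_lit 834) (nat_lit 640105464549805671300826176)) (.cons (.br (nat_lit 10) (nat_lit 0) (.cons (.zr (nat_lit 4083388585592948084318098243009523220480) (nat_lit 2793456106653937706760340434615011343) (nat_lit 48) (nat_lit 7)) .nil)) (.cons (.ev (nat_lit 174227235511967377999053829665852254913283) (nat_lit 2)) .nil)))) .nil))))),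
 (.br (nat_lit 7) (nat_lit 0) (.cons (.ev (nat_lit 2658476353207612134326737932296126467) (nat_lit 2)) (.cons (.br (nat_lit 10) (nat_lit 0) (.cons (.kr (nat_lit 5192297168019837450157040030711808) (nat_lit 1329227995786124798795479283492978688) (nat_lit 6) (nat_lit 0)) (.cons (.rf (nat_lit 1036) (nat_lit 677582165103132179601393696)) (.cons (.rf (nat_lit 1036) (nat_lit 640105464695078675185501248)) .nil)))) (.cons (.kr (nat_lit 10384672945232169521962635667439617) (nat_lit 20282409608392627766082993651712) (nat_lit 0) (nat_lit 1)) (.cons (.rf (nat_lit 1037) (nat_lit 677582165103132179601393696)) (.cons (.rf (nat_lit 1037) (nat_lit 640105464695078675185501248)) .nil)))))),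
 (.br (nat_lit 15) (nat_lit 0) (.cons (.ev (nat_lit 1329248278195733172832387199917883648) (nat_lit 1)) .nil)),
 (.br (nat_lit 16) (nat_lit 0) (.cons (.ev (nat_lit 340282366920939672389194504635431321601) (nat_lit 1)) (.cons (.ev (nat_lit 2658476353207602652700284045586595843) (nat_lit 2)) (.cons (.ev (nat_lit 340287559217798207235341554229314584833) (nat_lit 1)) .nil)))),
 (.br (nat_lit 10) (nat_lit 0) (.cons (.rf (nat_lit 1031) (nat_lit 677545530873704650998188068)) (.cons (.rf (nat_lit 1023) (nat_lit 677545530873704650998188068)) (.cons (.rf (nat_lit 1038) (nat_lit 677545530873704650998188068)) (.cons (.rf (nat_lit 1035) (nat_lit 677545530873704650998188068)) (.cons (.ev (nat_lit 340282366920939672389194503540214595841) (nat_lit 1)) (.cons (.br (nat_lit 7) (nat_lit 0) (.cons (.br (nat_lit 14) (nat_lit 0) (.cons (.rf (nat_lit 1039) (nat_lit 21174441469360359728056352)) (.cons (.br (nat_lit 15) (nat_lit 0) (.cons (.ev (nat_lit 681909538729169543275080024266752655874) (nat_lit 2)) .nil)) (.cons (.ev (nat_lit 87112291144418744161265720949666939469825)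 (nat_lit 1)) .nil)))) (.cons (.rf (nat_lit 1040) (nat_lit 677582165103132179601393696)) (.cons (.br (nat_lit 11) (nat_lit 0) (.cons (.rf (nat_lit 358) (nat_lit 21168429097284387043547363)) (.cons (.ev (nat_lit 340282366920939672389194504635431321601) (nat_lit 1)) (.cons (.ev (nat_lit 348457119115853324215596637912945896981505) (nat_lit 3)) .nil)))) (.cons (.br (nat_lit 11) (nat_lit 0) (.cons (.ev (nat_lit 1361139873114482533649681364883800850437) (nat_lit 3)) (.cons (.rf (nat_lit 1040) (nat_lit 640068830465651146582295620)) (.cons (.kr (nat_lit 340282366920938463463374608531279904769) (nat_lit 87112285931760246646623899502536973877504) (nat_lit 0) (nat_lit 6)) .nil)))) (.cons (.ev (nat_lit 87112285931760247855549719398641125294336) (nat_lit 1)) .nil)))))) .nil))))))),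
 (.br (nat_lit 13) (nat_lit 0) (.cons (.br (nat_lit 1) (nat_lit 0) (.cons (.kr (nat_lit 256) (nat_lit 65536) (nat_lit 1) (nat_lit 0)) (.cons (.rf (nat_lit 1000) (nat_lit 583706118939841765935136)) (.cons (.rf (nat_lit 1006) (nat_lit 583706118939841765935136)) (.cons (.rf (nat_lit 1000) (nat_lit 547071889512313162729508)) (.cons (.rf (nat_lit 1006) (nat_lit 547071889512313162729508)) (.cons (.rf (nat_lit 1011) (nat_lit 583706118939841765935136)) (.cons (.rf (nat_lit 1011) (nat_lit 547071889512313162729508)) (.cons (.br (nat_lit 2) (nat_lit 0) (.cons (.rf (nat_lit 1000) (nat_lit 583706118939841765934144)) (.cons (.rf (nat_lit 1006) (nat_lit 583706118939841765934144)) (.cons (.rf (nat_lit 1000) (nat_lit 547071889512313162728516)) (.cons (.rf (nat_lit 1006) (nat_lit 547071889512313162728516)) (.cons (.rf (nat_lit 1011) (nat_lit 583706118939841765934144)) (.cons (.rf (nat_lit 1011) (nat_lit 547071889512313162728516)) (.cons (.br (nat_lit 14) (nat_lit 0) (.cons (.rf (nat_lit 1012) (nat_lit 19926519232773908561233952)) (.cons (.rf (nat_lit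 1013) (nat_lit 19926519232773908561233952)) (.cons (.rf (nat_lit 1014) (nat_lit 19926519232773908561233952)) (.cons (.rf (nat_lit 1015) (nat_lit 19926519232773908561233952)) (.cons (.ev (nat_lit 2668860946924681752545632639539872257) (nat_lit 2)) (.cons (.rf (nat_lit 1016) (nat_lit 19926519232773908561233952)) (.cons (.br (nat_lit 15) (nat_lit 0) (.cons (.rf (nat_lit 1014) (nat_lit 19889885003346379958028324)) (.cons (.rf (nat_lit 1015) (nat_lit 19889885003346379958028324)) (.cons (.rf (nat_lit 1012) (nat_lit 19889885003346379958028324)) (.cons (.rf (nat_lit 1013) (nat_lit 19889885003346379958028324)) (.cons (.rf (nat_lit 1016) (nat_lit 19889885003346379958028324)) (.cons (.br (nat_lit 16) (nat_lit 0) (.cons (.rf (nat_lit 1017) (nat_lit 677582165103132179601393696)) (.cons (.rf (nat_lit 1018) (nat_lit 677582165103132179601393696)) (.cons (.rf (nat_lit 1017) (nat_lit 677545530873704650998188068)) (.cons (.rf (nat_lit 1018) (nat_lit 677545530873704650998188068)) (.cons (.ev (nat_lit 174907805458309294901927093852568400429057) (nat_lit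 2)) .nil)))))) .nil))))))) .nil)))))))) (.cons (.br (nat_lit 6) (nat_lit 0) (.cons (.rf (nat_lit 1023) (nat_lit 677582165103132179601393696)) (.cons (.br (nat_lit 7) (nat_lit 0) (.cons (.br (nat_lit 14) (nat_lit 0) (.cons (.kr (nat_lit 5192297168019837450157040030711808) (nat_lit 1329227995786124798795479283492978688) (nat_lit 6) (nat_lit 0)) (.cons (.rf (nat_lit 1024) (nat_lit 677582165103132179601393696)) (.cons (.rf (nat_lit 1024) (nat_lit 640105464695078675185501248)) .nil)))) (.cons (.kr (nat_lit 5192296858534827628811971305930752) (nat_lit 18518801667747479552) (nat_lit 6) (nat_lit 0)) (.cons (.rf (nat_lit 1026) (nat_lit 677582165103132179601393696)) (.cons (.rf (nat_lit 1027) (nat_lit 677582165103132179601393696)) (.cons (.rf (nat_lit 1027) (nat_lit 640105464695078675185501248)) .nil)))))) (.cons (.rf (nat_lit 1031) (nat_lit 677582165103132179601393696)) (.cons (.rf (nat_lit 1035) (nat_lit 677582165103132179601393696)) (.cons (.rf (nat_lit 1038) (nat_lit 677582165103132179601393696)) (.cons (.rf (nat_lit 1041) (nat_lit 677582165103132179601393696))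 (.cons (.rf (nat_lit 1041) (nat_lit 640105464695078675185501248)) .nil)))))))) .nil))))))))) .nil))))))))) .nil)),
 (.br (nat_lit 9) (nat_lit 0) (.cons (.rf (nat_lit 961) (nat_lit 259282822810994724)) (.cons (.br (nat_lit 9) (nat_lit 0) (.cons (.rf (nat_lit 961) (nat_lit 259282822810994724)) (.cons (.br (nat_lit 11) (nat_lit 1) (.cons (.br (nat_lit 14) (nat_lit 1) (.cons (.br (nat_lit 13) (nat_lit 0) (.cons (.br (nat_lit 1) (nat_lit 0) (.cons (.kr (nat_lit 256) (nat_lit 65536) (nat_lit 1) (nat_lit 0)) (.cons (.rf (nat_lit 977) (nat_lit 583706118939841765935136)) (.cons (.rf (nat_lit 977) (nat_lit 583553898543438798882848)) (.cons (.rf (nat_lit 977) (nat_lit 583705970321195725391908)) (.cons (.rf (nat_lit 977) (nat_lit 583553749924792758339620)) (.cons (.rf (nat_lit 984) (nat_lit 583706118939841765935136)) (.cons (.rf (nat_lit 984) (nat_lit 547107778697602015528992)) (.cons (.br (nat_lit 2) (nat_lit 0) (.cons (.rf (nat_lit 977) (nat_lit 583706118939841765934144)) (.cons (.rf (nat_lit 977) (nat_lit 583553898543438798881856)) (.cons (.rf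 (nat_lit 977) (nat_lit 583705970321195725390916)) (.cons (.rf (nat_lit 977) (nat_lit 583553749924792758338628)) (.cons (.rf (nat_lit 984) (nat_lit 583706118939841765934144)) (.cons (.rf (nat_lit 984) (nat_lit 547107778697602015528000)) (.cons (.rf (nat_lit 989) (nat_lit 19926519232773908561233952)) (.cons (.br (nat_lit 14) (nat_lit 0) (.cons (.rf (nat_lit 977) (nat_lit 76892198108459993152969)) (.cons (.rf (nat_lit 977) (nat_lit 76892160953798362545613)) (.cons (.rf (nat_lit 977) (nat_lit 76742178844076022185417)) (.cons (.rf (nat_lit 977) (nat_lit 76742141689414391578061)) (.cons (.kr (nat_lit 5192296858534827628530496329220096) (nat_lit 1329227995784915872903807060280344576) (nat_lit 14) (nat_lit 0)) (.cons (.rf (nat_lit 993) (nat_lit 677582165103132179601393696)) (.cons (.rf (nat_lit 993) (nat_lit 640105464695078675185501248)) .nil)))))))) .nil))))))))) .nil))))))))) .nil)) .nil)) (.cons (.br (nat_lit 12) (nat_lit 0) (.cons (.rf (nat_lit 1042) (nat_lit 583706118939841765935136)) (.cons (.rf (nat_lit 1042) (nat_lit 547107778697602015528992))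 .nil))) .nil))) .nil))) .nil))),
 (.br (nat_lit 11) (nat_lit 0) (.cons (.ev (nat_lit 20789866605967035501351659750293507) (nat_lit 3)) (.cons (.br (nat_lit 15) (nat_lit 0) (.cons (.ev (nat_lit 2658476512282897700727531983025078273) (nat_lit 2)) (.cons (.rf (nat_lit 1) (nat_lit 582172326176833)) .nil))) .nil))),
 (.br (nat_lit 11) (nat_lit 0) (.cons (.ev (nat_lit 20789866605948219822392060848373767) (nat_lit 3)) (.cons (.br (nat_lit 14) (nat_lit 0) (.cons (.ev (nat_lit 10404955973820026381269407358779907) (nat_lit 2)) (.cons (.rf (nat_lit 1) (nat_lit 582139040180289)) .nil))) .nil))),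
 (.br (nat_lit 15) (nat_lit 0) (.cons (.ev (nat_lit 1334420371871617937235215618148401408) (nat_lit 1)) .nil)),
 (.br (nat_lit 12) (nat_lit 0) (.cons (.ev (nat_lit 5192297168024578335441577423405056) (nat_lit 1)) .nil)),
 (.br (nat_lit 2) (nat_lit 0) (.cons (.br (nat_lit 14) (nat_lit 0) (.cons (.kr (nat_lit 79228167255077565640722087937) (nat_lit 20282412021503310216155554250752) (nat_lit 0) (nat_lit 1)) (.cons (.kr (nat_lit 20361637766184381506718328160257) (nat_lit 618974742153288195170632192) (nat_lit 0) (nat_lit 2)) (.cons (.ev (nat_lit 10405113811165627571894252224905217) (nat_lit 2)) (.cons (.br (nat_lit 10) (nat_lit 0) (.cons (.br (nat_lit 15) (nat_lit 0) (.cons (.ev (nat_lit 7985773090384824478840494801337845255) (nat_lit 3)) (.cons (.rf (nat_lit 1) (nat_lit 582169208757313)) .nil))) (.cons (.kr (nat_lit 1208925819896104151482368) (nat_lit 4722366482873956958208) (nat_lit 2) (nat_lit 0)) (.cons (.ev (nat_lit 10405113813592923943526308501258755) (nat_lit 2)) (.cons (.br (nat_lit 11) (nat_lit 0) (.cons (.kr (nat_lit 309485009893402662762709248)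 (nat_lit 20282409603651670423951563030528) (nat_lit 1) (nat_lit 0)) (.cons (.ev (nat_lit 10404955973820026381269407358779907) (nat_lit 2)) (.cons (.kr (nat_lit 309489732259885532407922944) (nat_lit 20282410812577490320051402768384) (nat_lit 1) (nat_lit 0)) .nil)))) .nil))))) .nil))))) (.cons (.br (nat_lit 7) (nat_lit 0) (.cons (.br (nat_lit 14) (nat_lit 0) (.cons (.ev (nat_lit 41559372200377552477845539673869325) (nat_lit 4)) (.cons (.br (nat_lit 15) (nat_lit 0) (.cons (.ev (nat_lit 15971525819748439700706473667209986049) (nat_lit 4)) (.cons (.rf (nat_lit 1) (nat_lit 582169108097089)) .nil))) .nil))) (.cons (.rf (nat_lit 1044) (nat_lit 583706118939841765935136)) (.cons (.rf (nat_lit 1045) (nat_lit 583706118939841765935136)) (.cons (.br (nat_lit 11) (nat_lit 0) (.cons (.rf (nat_lit 1045) (nat_lit 547071889478228302267460)) (.cons (.rf (nat_lit 1044) (nat_lit 547071889478228302267460)) (.cons (.br (nat_lit 14) (nat_lit 0) (.cons (.ev (nat_lit 18640366404404319602721740122545588749) (nat_lit 4)) (.cons (.ev (nat_lit 10405113813592923943526308501258755)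 (nat_lit 2)) (.cons (.br (nat_lit 15) (nat_lit 0) (.cons (.ev (nat_lit 2658476512282897700727531983025078273) (nat_lit 2)) (.cons (.rf (nat_lit 632) (nat_lit 21172883827091223671643500)) .nil))) .nil)))) (.cons (.br (nat_lit 14) (nat_lit 0) (.cons (.rf (nat_lit 1) (nat_lit 582036191651905)) (.cons (.ev (nat_lit 10405113813592923943526308501258755) (nat_lit 2)) (.cons (.ev (nat_lit 10404955973820026381269407358779907) (nat_lit 2)) .nil)))) .nil))))) .nil))))) (.cons (.br (nat_lit 7) (nat_lit 0) (.cons (.br (nat_lit 14) (nat_lit 0) (.cons (.ev (nat_lit 20790024440894821657435470578450947) (nat_lit 3)) (.cons (.br (nat_lit 15) (nat_lit 0) (.cons (.ev (nat_lit 1344805045127553542615732575203885056) (nat_lit 2)) (.cons (.rf (nat_lit 1) (nat_lit 582168034356289)) .nil))) .nil))) (.cons (.kr (nat_lit 20361637766184381506718328160257) (nat_lit 618974742153288195170632192) (nat_lit 0) (nat_lit 2)) (.cons (.ev (nat_lit 5316912063296304776808756270396997889) (nat_lit 3)) (.cons (.br (nat_lit 10) (nat_lit 0) (.cons (.ev (nat_lit 20789708766203619276194576939222535)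 (nat_lit 3)) (.cons (.kr (nat_lit 20282409608392483651994429423617) (nat_lit 79230580365904129801846915072) (nat_lit 0) (nat_lit 1)) (.cons (.kr (nat_lit 618974760600033368391811585) (nat_lit 20361640184017574553753409945600) (nat_lit 0) (nat_lit 14)) (.cons (.br (nat_lit 14) (nat_lit 0) (.cons (.rf (nat_lit 1) (nat_lit 582001831914561)) (.cons (.br (nat_lit 15) (nat_lit 0) (.cons (.ev (nat_lit 1366446400505138231784720052813603930631) (nat_lit 3)) (.cons (.br (nat_lit 16) (nat_lit 0) (.cons (.ev (nat_lit 1366446400186987622725412649165308167683) (nat_lit 3)) .nil)) .nil))) (.cons (.br (nat_lit 17) (nat_lit 0) (.cons (.ev (nat_lit 348449164516749752771299195245108618461703) (nat_lit 3)) (.cons (.ev (nat_lit 348449164517065427500132934405165836011011) (nat_lit 3)) .nil))) .nil)))) .nil))))) .nil))))) (.cons (.br (nat_lit 7) (nat_lit 0) (.cons (.kr (nat_lit 79228167255077565640722087937) (nat_lit 20282412021503310216155554250752) (nat_lit 0) (nat_lit 1)) (.cons (.ev (nat_lit 10405113811175035411369653663040001) (nat_lit 2)) (.cons (.ev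 (nat_lit 10405113811165627571894252224905217) (nat_lit 2)) (.cons (.br (nat_lit 10) (nat_lit 0) (.cons (.kr (nat_lit 18446745173221179393) (nat_lit 1208925819896104151482368) (nat_lit 0) (nat_lit 1)) (.cons (.br (nat_lit 11) (nat_lit 0) (.cons (.ev (nat_lit 7985773090380017072868569081710773765) (nat_lit 3)) (.cons (.rf (nat_lit 1) (nat_lit 582036057438273)) .nil))) (.cons (.ev (nat_lit 10405113813592923943526308501258755) (nat_lit 2)) (.cons (.br (nat_lit 11) (nat_lit 0) (.cons (.rf (nat_lit 1) (nat_lit 582001731254337)) (.cons (.br (nat_lit 16) (nat_lit 0) (.cons (.ev (nat_lit 340287579579434764457010238537924083713) (nat_lit 1)) (.cons (.ev (nat_lit 340287559217798207235341555324531245313) (nat_lit 1)) .nil))) (.cons (.br (nat_lit 15) (nat_lit 0) (.cons (.br (nat_lit 16) (nat_lit 0) (.cons (.ev (nat_lit 340287579579435973401276316865343324160) (nat_lit 1)) .nil)) (.cons (.ev (nat_lit 87113615159756342256432444269290841964544) (nat_lit 1)) .nil))) .nil)))) .nil))))) .nil))))) (.cons (.br (nat_lit 10) (nat_lit 0) (.cons (.ev (nat_lit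 2658476353207612134326737932296258051) (nat_lit 2)) (.cons (.kr (nat_lit 20282409608392483651994429423617) (nat_lit 79230580365904129801846915072) (nat_lit 0) (nat_lit 1)) (.cons (.br (nat_lit 7) (nat_lit 0) (.cons (.ev (nat_lit 20790024448148413468050642115494405) (nat_lit 3)) (.cons (.br (nat_lit 11) (nat_lit 0) (.cons (.ev (nat_lit 1344805045128748264441568226428780546) (nat_lit 2)) (.cons (.rf (nat_lit 1) (nat_lit 582034983697473)) .nil))) .nil))) (.cons (.br (nat_lit 11) (nat_lit 0) (.cons (.br (nat_lit 14) (nat_lit 0) (.cons (.ev (nat_lit 10404955976228433286969985020854787) (nat_lit 2)) (.cons (.rf (nat_lit 1) (nat_lit 582134744169537)) .nil))) (.cons (.ev (nat_lit 10404955973810618541794023100776451) (nat_lit 2)) (.cons (.br (nat_lit 7) (nat_lit 0) (.cons (.ev (nat_lit 10404955976228433286969985020854787) (nat_lit 2)) (.cons (.ev (nat_lit 341611594995951541869061836332140134657) (nat_lit 1)) (.cons (.br (nat_lit 14) (nat_lit 0) (.cons (.ev (nat_lit 10404955973820026381269407358779907) (nat_lit 2)) (.cons (.rf (nat_lit 912)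 (nat_lit 19997195771945505368579267)) .nil))) .nil)))) (.cons (.br (nat_lit 14) (nat_lit 0) (.cons (.rf (nat_lit 1) (nat_lit 582034886179905)) (.cons (.br (nat_lit 7) (nat_lit 0) (.cons (.ev (nat_lit 341611594995951546572981574024269135873) (nat_lit 1)) (.cons (.rf (nat_lit 632) (nat_lit 19996864547854393502215405)) .nil))) (.cons (.ev (nat_lit 10404955973820026381269407358779907) (nat_lit 2)) .nil)))) .nil))))) .nil))))) (.cons (.br (nat_lit 7) (nat_lit 0) (.cons (.br (nat_lit 11) (nat_lit 0) (.cons (.ev (nat_lit 10404955976237914913426062163574787) (nat_lit 2)) (.cons (.br (nat_lit 14) (nat_lit 0) (.cons (.ev (nat_lit 10404955976228433286969985020854787) (nat_lit 2)) (.cons (.rf (nat_lit 1) (nat_lit 582139164960993)) .nil))) (.cons (.br (nat_lit 14) (nat_lit 0) (.cons (.ev (nat_lit 10404955976228433286969985020854787) (nat_lit 2)) (.cons (.ev (nat_lit 10404955973820026381269407358779907) (nat_lit 2)) (.cons (.rf (nat_lit 1004) (nat_lit 677578471111251324120959008)) .nil)))) (.cons (.br (nat_lit 14) (nat_lit 0) (.cons (.rf (nat_lit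 1) (nat_lit 582036186409185)) (.cons (.br (nat_lit 15) (nat_lit 0) (.cons (.ev (nat_lit 341611615199134196654653738705378869505) (nat_lit 1)) (.cons (.rf (nat_lit 246) (nat_lit 20678013323882534088929)) .nil))) (.cons (.ev (nat_lit 10404955973820026381269407358779907) (nat_lit 2)) .nil)))) .nil))))) (.cons (.br (nat_lit 10) (nat_lit 0) (.cons (.br (nat_lit 15) (nat_lit 0) (.cons (.kr (nat_lit 2668840585286901419511420290752053249) (nat_lit 20361640188739941036618743414784) (nat_lit 0) (nat_lit 1)) (.cons (.rf (nat_lit 1) (nat_lit 582172417404129)) .nil))) (.cons (.ev (nat_lit 2658476512282897700727531983058502147) (nat_lit 2)) (.cons (.br (nat_lit 14) (nat_lit 0) (.cons (.ev (nat_lit 10404955976228433286969985020854787) (nat_lit 2)) (.cons (.ev (nat_lit 10404955973820026381269407325356033) (nat_lit 2)) (.cons (.br (nat_lit 15) (nat_lit 0) (.cons (.ev (nat_lit 341611594995951541869061836332123291648) (nat_lit 1)) (.cons (.rf (nat_lit 1046) (nat_lit 21174442659472845144426528)) .nil))) .nil)))) (.cons (.br (nat_lit 14) (nat_lit 0) (.cons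 (.rf (nat_lit 1) (nat_lit 582001826671841)) (.cons (.ev (nat_lit 10404955973820026381269407325356033) (nat_lit 2)) (.cons (.br (nat_lit 15) (nat_lit 0) (.cons (.rf (nat_lit 160) (nat_lit 609974339761956236613)) (.cons (.ev (nat_lit 87113615159756341047525071681309881925888) (nat_lit 1)) .nil))) .nil)))) .nil))))) (.cons (.br (nat_lit 10) (nat_lit 0) (.cons (.br (nat_lit 15) (nat_lit 0) (.cons (.ev (nat_lit 2658476512282897700727531983025078273) (nat_lit 2)) (.cons (.rf (nat_lit 1) (nat_lit 582169196181729)) .nil))) (.cons (.kr (nat_lit 79228167236630820463189164032) (nat_lit 1334420292643450700532337556609564672) (nat_lit 9) (nat_lit 0)) (.cons (.br (nat_lit 11) (nat_lit 0) (.cons (.ev (nat_lit 10404955976228433286969985020854787) (nat_lit 2)) (.cons (.ev (nat_lit 10404955973820026381269407325356033) (nat_lit 2)) (.cons (.br (nat_lit 15) (nat_lit 0) (.cons (.ev (nat_lit 341611594995952750776434424313100173313) (nat_lit 1)) (.cons (.rf (nat_lit 456) (nat_lit 19534282822894884133953)) .nil))) .nil)))) (.cons (.br (nat_lit 11) (nat_lit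 0) (.cons (.rf (nat_lit 1) (nat_lit 582001726011617)) (.cons (.ev (nat_lit 10404955973820026381269407325356033) (nat_lit 2)) (.cons (.br (nat_lit 15) (nat_lit 0) (.cons (.br (nat_lit 16) (nat_lit 0) (.cons (.ev (nat_lit 340287579579435973401276316865343324160) (nat_lit 1)) .nil)) (.cons (.ev (nat_lit 87113615159756342256432444269290841964544) (nat_lit 1)) .nil))) .nil)))) .nil))))) (.cons (.br (nat_lit 10) (nat_lit 0) (.cons (.ev (nat_lit 2658476512282897700727531983058502147) (nat_lit 2)) (.cons (.ev (nat_lit 20790024443312636403746128531554817) (nat_lit 3)) (.cons (.br (nat_lit 11) (nat_lit 0) (.cons (.ev (nat_lit 10404955976237914913426062197260801) (nat_lit 2)) (.cons (.ev (nat_lit 341611594995951541869061836332140134657) (nat_lit 1)) (.cons (.br (nat_lit 14) (nat_lit 0) (.cons (.ev (nat_lit 341611615199134196654653738705378869505) (nat_lit 1)) (.cons (.ev (nat_lit 10404955973820026381269407358779907) (nat_lit 2)) .nil))) .nil)))) (.cons (.br (nat_lit 11) (nat_lit 0) (.cons (.rf (nat_lit 1) (nat_lit 582000652270817)) (.cons (.br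 (nat_lit 14) (nat_lit 0) (.cons (.ev (nat_lit 10404955973820026381269407358779907) (nat_lit 2)) (.cons (.rf (nat_lit 160) (nat_lit 609974339761821891913)) .nil))) (.cons (.br (nat_lit 17) (nat_lit 0) (.cons (.ev (nat_lit 10404955973820026381269407358779907) (nat_lit 2)) (.cons (.ev (nat_lit 87113615180117978813691006442850660450305) (nat_lit 1)) .nil))) .nil)))) .nil))))) (.cons (.br (nat_lit 14) (nat_lit 0) (.cons (.br (nat_lit 11) (nat_lit 0) (.cons (.kr (nat_lit 20361637770906747989583661629441) (nat_lit 2668840585286901401064675117530873856) (nat_lit 0) (nat_lit 1)) (.cons (.ev (nat_lit 1361150257392527311064585239475481739781) (nat_lit 3)) (.cons (.br (nat_lit 16) (nat_lit 0) (.cons (.kr (nat_lit 2668840585286901419511420290752053249) (nat_lit 20361640188739941036618743414784) (nat_lit 0) (nat_lit 1)) (.cons (.ev (nat_lit 1361150257392522475435094878755481715201) (nat_lit 3)) .nil))) .nil)))) (.cons (.br (nat_lit 10) (nat_lit 0) (.cons (.kr (nat_lit 20361637770906747989583661629441) (nat_lit 2668840585286901401064675117530873856)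 (nat_lit 0) (nat_lit 1)) (.cons (.ev (nat_lit 10404955976237914913426062197260801) (nat_lit 2)) (.cons (.br (nat_lit 15) (nat_lit 0) (.cons (.ev (nat_lit 340287579579434764457010238537924083713) (nat_lit 1)) (.cons (.rf (nat_lit 912) (nat_lit 21174406881715221522647072)) .nil))) .nil)))) (.cons (.br (nat_lit 10) (nat_lit 0) (.cons (.ev (nat_lit 2658476512285315589259688637863297027) (nat_lit 2)) (.cons (.ev (nat_lit 341611615199132983006467922685830627328) (nat_lit 1)) (.cons (.br (nat_lit 11) (nat_lit 0) (.cons (.ev (nat_lit 340287579579434764457010238537924083713) (nat_lit 1)) (.cons (.ev (nat_lit 10404955976228433286969985054277633) (nat_lit 2)) .nil))) .nil)))) (.cons (.ev (nat_lit 340287559217796998291075476997112135936) (nat_lit 1)) (.cons (.br (nat_lit 11) (nat_lit 0) (.cons (.br (nat_lit 16) (nat_lit 0) (.cons (.ev (nat_lit 2658476512282897700727531983025078273) (nat_lit 2)) (.cons (.ev (nat_lit 340287559217798207235341555324531245313) (nat_lit 1)) .nil))) (.cons (.br (nat_lit 10) (nat_lit 0) (.cons (.ev (nat_lit 341611594995952755517247652351688376320)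 (nat_lit 1)) (.cons (.ev (nat_lit 10404955976228433286969985054277633) (nat_lit 2)) .nil))) (.cons (.br (nat_lit 10) (nat_lit 0) (.cons (.ev (nat_lit 2658476512282897700727531983025078273) (nat_lit 2)) (.cons (.ev (nat_lit 340287559217798207235341555324531245313) (nat_lit 1)) .nil))) (.cons (.ev (nat_lit 10404955973820026381269407358779907) (nat_lit 2)) .nil))))) .nil)))))) (.cons (.br (nat_lit 10) (nat_lit 0) (.cons (.br (nat_lit 15) (nat_lit 0) (.cons (.ev (nat_lit 2658476512285315589259688637863297027) (nat_lit 2)) (.cons (.ev (nat_lit 2658476512282897700727531983025078273) (nat_lit 2)) (.cons (.br (nat_lit 14) (nat_lit 0) (.cons (.rf (nat_lit 160) (nat_lit 646189213511436343752)) (.cons (.ev (nat_lit 87113615159756341047525071681309881925888) (nat_lit 1)) .nil))) .nil)))) (.cons (.br (nat_lit 15) (nat_lit 0) (.cons (.kr (nat_lit 20361637770906747989583661629441) (nat_lit 2668840585286901401064675117530873856) (nat_lit 0) (nat_lit 1)) (.cons (.kr (nat_lit 2668840585286901419511420290752053249) (nat_lit 20361640188739941036618743414784)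 (nat_lit 0) (nat_lit 1)) (.cons (.br (nat_lit 17) (nat_lit 0) (.cons (.ev (nat_lit 348449164517065434734909066060772696655361) (nat_lit 3)) (.cons (.ev (nat_lit 348449164517065429899132001756259113240069) (nat_lit 3)) .nil))) .nil)))) (.cons (.br (nat_lit 11) (nat_lit 0) (.cons (.kr (nat_lit 20361637770906747989583661629441) (nat_lit 2668840585286901401064675117530873856) (nat_lit 0) (nat_lit 1)) (.cons (.ev (nat_lit 2658476512282897700727531983025078273) (nat_lit 2)) (.cons (.br (nat_lit 14) (nat_lit 0) (.cons (.kr (nat_lit 79229371440084233697695432704) (nat_lit 1334420292643450700532337560921309184) (nat_lit 2) (nat_lit 0)) (.cons (.ev (nat_lit 10404955973820026381269407358779907) (nat_lit 2)) .nil))) .nil)))) (.cons (.br (nat_lit 11) (nat_lit 0) (.cons (.ev (nat_lit 10404955976237914913426062197260801) (nat_lit 2)) (.cons (.br (nat_lit 16) (nat_lit 0) (.cons (.ev (nat_lit 10404955976228433286969985054277633) (nat_lit 2)) (.cons (.ev (nat_lit 341611594995952755517247652351671533825) (nat_lit 1)) .nil))) (.cons (.br (nat_lit 15)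 (nat_lit 0) (.cons (.ev (nat_lit 10404955976228433286969985054277633) (nat_lit 2)) (.cons (.ev (nat_lit 341611594995952755517247652351671533825) (nat_lit 1)) .nil))) (.cons (.br (nat_lit 14) (nat_lit 0) (.cons (.rf (nat_lit 394) (nat_lit 20673257670183457366050)) (.cons (.rf (nat_lit 1047) (nat_lit 20678166659641484973121)) (.cons (.ev (nat_lit 10404955973820026381269407358779907) (nat_lit 2)) .nil)))) .nil))))) (.cons (.br (nat_lit 11) (nat_lit 0) (.cons (.br (nat_lit 15) (nat_lit 0) (.cons (.rf (nat_lit 160) (nat_lit 609974332305893010757)) (.cons (.ev (nat_lit 87113615159756341047525071681309881925888) (nat_lit 1)) .nil))) (.cons (.br (nat_lit 14) (nat_lit 0) (.cons (.rf (nat_lit 160) (nat_lit 646013608310340983240)) (.cons (.ev (nat_lit 10404955976228433286969985054277633) (nat_lit 2)) .nil))) (.cons (.br (nat_lit 14) (nat_lit 0) (.cons (.rf (nat_lit 160) (nat_lit 609974332305758666057)) (.cons (.ev (nat_lit 10404955973820026381269407358779907) (nat_lit 2)) (.cons (.rf (nat_lit 162) (nat_lit 609974339761956236613)) .nil)))) (.cons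 (.br (nat_lit 15) (nat_lit 0) (.cons (.ev (nat_lit 10404955976228433286969985054277633) (nat_lit 2)) (.cons (.ev (nat_lit 87113615180117978813691006442850660450305) (nat_lit 1)) .nil))) .nil))))) .nil)))))) .nil))))))) .nil)))))))]

theorem c56 : chkAll C T R L56 (nat_lit 1035) = true := by decide +kernel

theorem l56 : (nat_lit 1035) + L56.length = (nat_lit 1049) := by decide +kernel

/-- part of the certificates -/
def L57 : List Prf := [(.br (nat_lit 7) (nat_lit 0) (.cons (.br (nat_lit 15) (nat_lit 0) (.cons (.ev (nat_lit 2658476353207602652700281855153406467) (nat_lit 2)) (.cons (.rf (nat_lit 1) (nat_lit 582169095776449)) .nil))) (.cons (.ev (nat_lit 2689630451273879564206780315372356097) (nat_lit 3)) (.cons (.ev (nat_lit 10405113813592923943526308501389315) (nat_lit 2)) (.cons (.br (nat_lit 11) (nat_lit 0) (.cons (.ev (nat_lit 10404955973810618541791815487455747) (nat_lit 2)) (.cons (.br (nat_lit 16) (nat_lit 0) (.cons (.ev (nat_lit 340287559297335859463274918089202860033) (nat_lit 1)) (.cons (.ev (nat_lit 340287579579434769197823465481262137600)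 (nat_lit 1)) .nil))) (.cons (.br (nat_lit 17) (nat_lit 0) (.cons (.ev (nat_lit 87112291124136642833716427224113886527745) (nat_lit 1)) (.cons (.ev (nat_lit 87112291144418744161265720949666956247040) (nat_lit 1)) .nil))) .nil)))) .nil))))),
 (.br (nat_lit 15) (nat_lit 0) (.cons (.kr (nat_lit 20361637770906747988488444968961) (nat_lit 2668840585286901401064676212747534336) (nat_lit 0) (nat_lit 1)) (.cons (.kr (nat_lit 309489732259885532407922944) (nat_lit 1334420292643450700532338656137969664) (nat_lit 1) (nat_lit 0)) (.cons (.kr (nat_lit 2668840585286901419511422485480341505) (nat_lit 20361640188739941036623038251520) (nat_lit 0) (nat_lit 2)) .nil)))),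
 (.br (nat_lit 7) (nat_lit 0) (.cons (.br (nat_lit 15) (nat_lit 0) (.cons (.ev (nat_lit 2658476353207602652700281855153406467) (nat_lit 2)) (.cons (.rf (nat_lit 1) (nat_lit 582168022035649)) .nil))) (.cons (.ev (nat_lit 2658476353207612134326735741896359937) (nat_lit 2)) (.cons (.br (nat_lit 10) (nat_lit 0) (.cons (.ev (nat_lit 2658476353207602652700281855153406467) (nat_lit 2)) (.cons (.kr (nat_lit 618974760600033368391811073) (nat_lit 20361640184017574553753409814528) (nat_lit 0) (nat_lit 1)) (.cons (.rf (nat_lit 1050) (nat_lit 677582165103132179601393696)) .nil)))) (.cons (.br (nat_lit 10) (nat_lit 0) (.cons (.rf (nat_lit 1) (nat_lit 581898613501121)) (.cons (.rf (nat_lit 1050) (nat_lit 640105464695078675185502240)) (.cons (.kr (nat_lit 618974760600033368391811073) (nat_lit 20361640184017574553753409814528) (nat_lit 0) (nat_lit 1)) .nil)))) .nil))))),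
 (.br (nat_lit 7) (nat_lit 0) (.cons (.ev (nat_lit 2658476353207612134326737932296126467) (nat_lit 2)) (.cons (.ev (nat_lit 2689630293434106740718606392926142977) (nat_lit 3)) (.cons (.br (nat_lit 10) (nat_lit 0) (.cons (.ev (nat_lit 10404955973810618541791815487455747) (nat_lit 2)) (.cons (.ev (nat_lit 4086098803323809416104333868595717996547) (nat_lit 4)) (.cons (.br (nat_lit 11) (nat_lit 0) (.cons (.ev (nat_lit 340287579579434764457010238537924083713) (nat_lit 1)) (.cons (.br (nat_lit 16) (nat_lit 0) (.cons (.zr (nat_lit 1361129569491945102627045751120296280071) (nat_lit 5337681172430727028589214812000486912) (nat_lit 16) (nat_lit 2)) .nil)) .nil))) .nil)))) (.cons (.br (nat_lit 11) (nat_lit 0) (.cons (.ev (nat_lit 10404955973810618541791815487455747) (nat_lit 2)) (.cons (.br (nat_lit 10) (nat_lit 0) (.cons (.ev (nat_lit 1379769834403844991658257786683580352519) (nat_lit 4)) (.cons (.br (nat_lit 16) (nat_lit 0) (.cons (.zr (nat_lit 1361129529085582220315340089174540812293) (nat_lit 5337681172430717583856250172188132864) (nat_lit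 16) (nat_lit 2)) .nil)) .nil))) (.cons (.ev (nat_lit 1344805045126335153616128852797423872) (nat_lit 2)) .nil)))) .nil))))),
 (.br (nat_lit 7) (nat_lit 0) (.cons (.rf (nat_lit 1051) (nat_lit 19926367012377505594181664)) (.cons (.ev (nat_lit 10404955973820026381269407325356033) (nat_lit 2)) (.cons (.rf (nat_lit 1052) (nat_lit 19926367012377505594181664)) (.cons (.ev (nat_lit 340287559217796998291075476997112135936) (nat_lit 1)) (.cons (.br (nat_lit 10) (nat_lit 0) (.cons (.br (nat_lit 15) (nat_lit 0) (.cons (.kr (nat_lit 2668840585286901419511422485480341505) (nat_lit 20361640188739941036623038251520) (nat_lit 0) (nat_lit 2)) (.cons (.kr (nat_lit 2668840664515063915329016005314740225) (nat_lit 20283028578412270456220426437120) (nat_lit 0) (nat_lit 2)) .nil))) (.cons (.br (nat_lit 16) (nat_lit 0) (.cons (.ev (nat_lit 340287559297335859463274918089202860033) (nat_lit 1)) (.cons (.ev (nat_lit 681909538965923153196029166187842830848) (nat_lit 2)) .nil))) (.cons (.br (nat_lit 11) (nat_lit 0) (.cons (.ev (nat_lit 1363839867324937771769755893650042128907)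 (nat_lit 4)) (.cons (.br (nat_lit 15) (nat_lit 0) (.cons (.ev (nat_lit 2658476512285315589259686447430107651) (nat_lit 2)) .nil)) .nil))) (.cons (.br (nat_lit 11) (nat_lit 0) (.cons (.br (nat_lit 16) (nat_lit 0) (.cons (.zr (nat_lit 1361129529085582253316565244716035080709) (nat_lit 5337681172430712953723486584464343040) (nat_lit 16) (nat_lit 10)) .nil)) (.cons (.br (nat_lit 15) (nat_lit 0) (.cons (.ev (nat_lit 2658476512285315589259686447430107651) (nat_lit 2)) .nil)) (.cons (.br (nat_lit 15) (nat_lit 0) (.cons (.ev (nat_lit 2658476512285315589259686447430107651) (nat_lit 2)) .nil)) .nil)))) .nil))))) .nil)))))),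
 (.br (nat_lit 16) (nat_lit 0) (.cons (.zr (nat_lit 261340861056158979776983188922939167736066) (nat_lit 340282367237854740297891646118398459904) (nat_lit 8) (nat_lit 1)) .nil)),
 (.br (nat_lit 2) (nat_lit 0) (.cons (.rf (nat_lit 1048) (nat_lit 583706118939841765934144)) (.cons (.rf (nat_lit 1048) (nat_lit 583553898543438798881856)) (.cons (.rf (nat_lit 1048) (nat_lit 547071889478228302267460)) (.cons (.rf (nat_lit 1048) (nat_lit 546919669081825335215172)) (.cons (.kr (nat_lit 20361637770906747988488444968961) (nat_lit 2668840585286901401064676212747534336) (nat_lit 0) (nat_lit 1)) (.cons (.br (nat_lit 6) (nat_lit 0) (.cons (.br (nat_lit 16) (nat_lit 0) (.cons (.ev (nat_lit 10405113813592923943526308501389315) (nat_lit 2)) (.cons (.ev (nat_lit 10404955973820026381269407325356033) (nat_lit 2)) (.cons (.ev (nat_lit 2658476353207602652700284045620281857) (nat_lit 2)) (.cons (.br (nat_lit 16) (nat_lit 0) (.cons (.ev (nat_lit 10405113813592923943526308501389315) (nat_lit 2)) (.cons (.ev (nat_lit 10404955973820026381269407325356033) (nat_lit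 2)) (.cons (.ev (nat_lit 2658476353207602652700284045620281857) (nat_lit 2)) .nil)))) .nil))))) (.cons (.rf (nat_lit 1049) (nat_lit 19926519232773908561233952)) (.cons (.rf (nat_lit 1051) (nat_lit 19926519232773908561233952)) (.cons (.rf (nat_lit 1052) (nat_lit 19926519232773908561233952)) (.cons (.rf (nat_lit 1053) (nat_lit 19926519232773908561233952)) (.cons (.br (nat_lit 7) (nat_lit 0) (.cons (.rf (nat_lit 1051) (nat_lit 19926367012377505594181664)) (.cons (.rf (nat_lit 1049) (nat_lit 19926367012377505594181664)) (.cons (.rf (nat_lit 1052) (nat_lit 19926367012377505594181664)) (.cons (.rf (nat_lit 1053) (nat_lit 19926367012377505594181664)) (.cons (.br (nat_lit 10) (nat_lit 0) (.cons (.kr (nat_lit 79229371440084233697695367168) (nat_lit 309485028340146736472260608) (nat_lit 6) (nat_lit 0)) (.cons (.br (nat_lit 11) (nat_lit 0) (.cons (.rf (nat_lit 1054) (nat_lit 677582165103132179601393696)) (.cons (.ev (nat_lit 348457191808645652136931183478298957054467) (nat_lit 4)) .nil))) (.cons (.br (nat_lit 11) (nat_lit 0) (.cons (.rf (nat_lit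 1054) (nat_lit 677582012882735776634341408)) (.cons (.ev (nat_lit 340287559217796998291075478100935508225) (nat_lit 1)) (.cons (.ev (nat_lit 87112291124057106390395866450425425231873) (nat_lit 1)) .nil)))) (.cons (.br (nat_lit 11) (nat_lit 0) (.cons (.ev (nat_lit 348457191807535841309821590155904052888067) (nat_lit 4)) (.cons (.ev (nat_lit 87112291124136642828975613998265748488193) (nat_lit 1)) .nil))) .nil))))) .nil)))))) .nil))))))) .nil))))))),
 (.br (nat_lit 11) (nat_lit 0) (.cons (.kr (nat_lit 20361637770906747989583661629441) (nat_lit 2668840585286901401064675117530873856) (nat_lit 0) (nat_lit 1)) (.cons (.ev (nat_lit 340287559297335854759355179293267197953) (nat_lit 1)) (.cons (.br (nat_lit 15) (nat_lit 0) (.cons (.ev (nat_lit 341611615199132987710387661481766289408) (nat_lit 1)) (.cons (.ev (nat_lit 2658476512285315589259686447430107651) (nat_lit 2)) .nil))) .nil)))),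
 (.br (nat_lit 11) (nat_lit 0) (.cons (.ev (nat_lit 2658476512285324997099164039301431811) (nat_lit 2)) (.cons (.ev (nat_lit 2658476512285324997099164039334854657) (nat_lit 2)) (.cons (.ev (nat_lit 341611615278671844178667363777921483009) (nat_lit 1)) (.cons (.ev (nat_lit 10404955976228433286969985054277633) (nat_lit 2)) .nil))))),
 (.br (nat_lit 14) (nat_lit 0) (.cons (.rf (nat_lit 1056) (nat_lit 19926519232773908561233952)) (.cons (.rf (nat_lit 1056) (nat_lit 19926367012377505594181664)) (.cons (.ev (nat_lit 10405113811165627571894252191350787) (nat_lit 2)) (.cons (.ev (nat_lit 340287559217796998291075476997112135936) (nat_lit 1)) (.cons (.br (nat_lit 15) (nat_lit 0) (.cons (.rf (nat_lit 1057) (nat_lit 677582165103132179601393696)) (.cons (.rf (nat_lit 1057) (nat_lit 677582012882735776634341408)) (.cons (.ev (nat_lit 341611594995951541869061835228333473793) (nat_lit 1)) (.cons (.br (nat_lit 16) (nat_lit 0) (.cons (.ev (nat_lit 2689630451276316342203740341305476613) (nat_lit 3)) (.cons (.ev (nat_lit 2689630135596770547079226538953410049)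 (nat_lit 3)) (.cons (.ev (nat_lit 88137125908886503481993219036310470131713) (nat_lit 2)) .nil)))) .nil))))) .nil)))))),
 (.br (nat_lit 14) (nat_lit 0) (.cons (.ev (nat_lit 10404955976237914913426062197260801) (nat_lit 2)) (.cons (.ev (nat_lit 340287559217797003031888703940466901248) (nat_lit 1)) (.cons (.br (nat_lit 15) (nat_lit 0) (.cons (.ev (nat_lit 2658476512285324997099166229734621187) (nat_lit 2)) (.cons (.ev (nat_lit 2689630451276316342203740341305476613) (nat_lit 3)) .nil))) .nil)))),
 (.br (nat_lit 7) (nat_lit 0) (.cons (.br (nat_lit 14) (nat_lit 0) (.cons (.ev (nat_lit 10405113811165627571892061791584257) (nat_lit 2)) (.cons (.ev (nat_lit 340287579500517300600681004442910195713) (nat_lit 1)) (.cons (.br (nat_lit 16) (nat_lit 0) (.cons (.ev (nat_lit 341611594917034073271919375293771481345) (nat_lit 1)) (.cons (.ev (nat_lit 680575118515754240921712575694801797379) (nat_lit 2)) .nil))) .nil)))) (.cons (.ev (nat_lit 10405113811175035411371844062674947) (nat_lit 2)) (.cons (.ev (nat_lit 2658476353207612134326737932329812481)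 (nat_lit 2)) (.cons (.rf (nat_lit 1059) (nat_lit 19926519232773908561233952)) (.cons (.br (nat_lit 11) (nat_lit 0) (.cons (.ev (nat_lit 10404955976237914913426062197260801) (nat_lit 2)) (.cons (.ev (nat_lit 2658476512285324997099166229734621187) (nat_lit 2)) (.cons (.rf (nat_lit 1059) (nat_lit 19889885003312295097567268)) (.cons (.br (nat_lit 16) (nat_lit 0) (.cons (.ev (nat_lit 20789550936102202344933272664278535) (nat_lit 3)) (.cons (.ev (nat_lit 5316932345398831825492606244346004995) (nat_lit 3)) (.cons (.br (nat_lit 14) (nat_lit 0) (.cons (.ev (nat_lit 681909538808084579871786438513953800963) (nat_lit 2)) .nil)) .nil)))) .nil))))) .nil)))))),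
 (.br (nat_lit 14) (nat_lit 0) (.cons (.ev (nat_lit 10404955976237914913423871763808257) (nat_lit 2)) (.cons (.ev (nat_lit 340287559217797003031888705044273430528) (nat_lit 1)) (.cons (.br (nat_lit 15) (nat_lit 0) (.cons (.ev (nat_lit 2658476512285324997099164039301431811) (nat_lit 2)) (.cons (.ev (nat_lit 1369115240931968779749270185832718926341) (nat_lit 3)) .nil))) .nil)))),
 (.br (nat_lit 7) (nat_lit 0) (.cons (.br (nat_lit 14) (nat_lit 0) (.cons (.ev (nat_lit 10405113811165627571892061791584257) (nat_lit 2)) (.cons (.ev (nat_lit 340287579500517300600681004442910195713) (nat_lit 1)) (.cons (.br (nat_lit 16) (nat_lit 0) (.cons (.ev (nat_lit 341611594917034073271919375293771481345) (nat_lit 1)) (.cons (.ev (nat_lit 680575118515754240921712575694801797379) (nat_lit 2)) .nil))) .nil)))) (.cons (.ev (nat_lit 10405113811175035411369653629485571) (nat_lit 2)) (.cons (.ev (nat_lit 2658476353207612134326735741896359937) (nat_lit 2)) (.cons (.rf (nat_lit 1061) (nat_lit 19926519232773908561233952)) (.cons (.br (nat_lit 10) (nat_lit 0) (.cons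 (.ev (nat_lit 10404955976237914913423871763808257) (nat_lit 2)) (.cons (.ev (nat_lit 2658476512285324997099164039301431811) (nat_lit 2)) (.cons (.rf (nat_lit 1061) (nat_lit 19889732782915892130514980)) (.cons (.kr (nat_lit 618974760600033368391811073) (nat_lit 20361640184017574553753409814528) (nat_lit 0) (nat_lit 1)) .nil))))) .nil)))))),
 (.br (nat_lit 7) (nat_lit 0) (.cons (.ev (nat_lit 10405113811175035411371844096360961) (nat_lit 2)) (.cons (.ev (nat_lit 10405113811175035411369653662908417) (nat_lit 2)) (.cons (.kr (nat_lit 2668840585286901401064676212730757121) (nat_lit 20361637770906747988488461746176) (nat_lit 0) (nat_lit 1)) (.cons (.ev (nat_lit 340287559217796998291075476997112135936) (nat_lit 1)) (.cons (.br (nat_lit 15) (nat_lit 0) (.cons (.br (nat_lit 11) (nat_lit 0) (.cons (.ev (nat_lit 340287559297335859463274918089202860033) (nat_lit 1)) (.cons (.br (nat_lit 16) (nat_lit 0) (.cons (.zr (nat_lit 1371804850307311063127874299313457725440) (nat_lit 555218558527842340776152531461) (nat_lit 16) (nat_lit 6)) .nil)) .nil)))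 (.cons (.kr (nat_lit 20282409603670117168020960837632) (nat_lit 1334420292643450700532337556609564672) (nat_lit 8) (nat_lit 0)) (.cons (.rf (nat_lit 175) (nat_lit 19519001793421364213959)) (.cons (.ev (nat_lit 2658476353207602652700284045586595843) (nat_lit 2)) .nil))))) .nil)))))),
 (.br (nat_lit 7) (nat_lit 0) (.cons (.ev (nat_lit 2658476353207612134326737932296126467) (nat_lit 2)) (.cons (.ev (nat_lit 2658476353207612134326735741862937091) (nat_lit 2)) (.cons (.kr (nat_lit 2668840585286901401064676212730757121) (nat_lit 20361637770906747988488461746176) (nat_lit 0) (nat_lit 1)) (.cons (.ev (nat_lit 341611594995951541869061835228333473793) (nat_lit 1)) (.cons (.br (nat_lit 11) (nat_lit 0) (.cons (.rf (nat_lit 1058) (nat_lit 19889885003312295097567268)) (.cons (.kr (nat_lit 20282409603670117168020960837632) (nat_lit 1334420292643450700532337556609564672) (nat_lit 8) (nat_lit 0)) (.cons (.br (nat_lit 14) (nat_lit 0) (.cons (.ev (nat_lit 340287579500517300600681005546700013568) (nat_lit 1)) (.cons (.ev (nat_lit 10405113811165627571894252225036801)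 (nat_lit 2)) .nil))) (.cons (.br (nat_lit 17) (nat_lit 0) (.cons (.ev (nat_lit 87113615159835259725029586731433033990145) (nat_lit 1)) (.cons (.ev (nat_lit 10405113811165627571894252225036801) (nat_lit 2)) (.cons (.br (nat_lit 10) (nat_lit 0) (.cons (.zr (nat_lit 1371804850307311063127874299313457725440) (nat_lit 555218558527842340776152531461) (nat_lit 16) (nat_lit 6)) .nil)) .nil)))) .nil))))) .nil)))))),
 (.br (nat_lit 7) (nat_lit 0) (.cons (.rf (nat_lit 1062) (nat_lit 19926367012377505594181664)) (.cons (.rf (nat_lit 1060) (nat_lit 19926367012377505594181664)) (.cons (.ev (nat_lit 340287559217796998291075476997112135936) (nat_lit 1)) (.cons (.ev (nat_lit 341611594995951541869061835228333473793) (nat_lit 1)) (.cons (.br (nat_lit 10) (nat_lit 0) (.cons (.rf (nat_lit 1058) (nat_lit 19889885003312295097567268)) (.cons (.rf (nat_lit 1064) (nat_lit 19889885003312295097567268)) (.cons (.rf (nat_lit 1063) (nat_lit 19889885003312295097567268)) (.cons (.br (nat_lit 11) (nat_lit 0) (.cons (.rf (nat_lit 1064) (nat_lit 19889732782915892130514980))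 (.cons (.rf (nat_lit 1063) (nat_lit 19889732782915892130514980)) (.cons (.kr (nat_lit 87112285952042657459201389822588359802880) (nat_lit 340282366921247953195634494063687761920) (nat_lit 4) (nat_lit 0)) .nil)))) .nil))))) .nil)))))),
 (.br (nat_lit 15) (nat_lit 0) (.cons (.ev (nat_lit 340287579579435973401276315770109821185) (nat_lit 1)) (.cons (.ev (nat_lit 2658476512285315589259686447430107651) (nat_lit 2)) .nil))),
 (.br (nat_lit 11) (nat_lit 0) (.cons (.kr (nat_lit 20361637770906747989583661629441) (nat_lit 2668840585286901401064675117530873856) (nat_lit 0) (nat_lit 1)) (.cons (.rf (nat_lit 1066) (nat_lit 677582165103132179601393696)) (.cons (.rf (nat_lit 1066) (nat_lit 640105464695078675185501248)) .nil))))]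

theorem c57 : chkAll C T R L57 (nat_lit 1049) = true := by decide +kernel

theorem l57 : (nat_lit 1049) + L57.length = (nat_lit 1068) := by decide +kernel

/-- part of the certificates -/
def L58 : List Prf := [(.br (nat_lit 16) (nat_lit 0) (.cons (.ev (nat_lit 10404955976228433286969985054277633) (nat_lit 2)) (.cons (.ev (nat_lit 340287559217798211939261293025267089408) (nat_lit 1)) .nil))),
 (.br (nat_lit 15) (nat_lit 0) (.cons (.ev (nat_lit 10404955976228433286969985054277633) (nat_lit 2)) (.cons (.ev (nat_lit 2689630451276316342203740341305476613) (nat_lit 3)) .nil))),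
 (.br (nat_lit 10) (nat_lit 0) (.cons (.br (nat_lit 15) (nat_lit 0) (.cons (.ev (nat_lit 1363819098295345804282082144941619807239) (nat_lit 3)) (.cons (.br (nat_lit 16) (nat_lit 0) (.cons (.ev (nat_lit 1369115240613818189653215685542616105473) (nat_lit 3)) .nil)) .nil))) (.cons (.rf (nat_lit 1068) (nat_lit 677582165103132179601393696)) (.cons (.rf (nat_lit 1069) (nat_lit 677582165103132179601393696)) (.cons (.br (nat_lit 11) (nat_lit 0) (.cons (.rf (nat_lit 1068) (nat_lit 677582012882735776634341408)) (.cons (.rf (nat_lit 1069) (nat_lit 677582012882735776634341408)) (.cons (.kr (nat_lit 20282410812577490320051402702848) (nat_lit 309489732259885532407922688) (nat_lit 6) (nat_lit 0)) .nil)))) .nil))))),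
 (.br (nat_lit 14) (nat_lit 0) (.cons (.rf (nat_lit 1067) (nat_lit 677582165103132179601393696)) (.cons (.rf (nat_lit 1067) (nat_lit 677582012882735776634341408)) (.cons (.ev (nat_lit 10405113811165627571894252191350787) (nat_lit 2)) (.cons (.rf (nat_lit 1070) (nat_lit 677582165103132179601393696)) (.cons (.rf (nat_lit 1070) (nat_lit 640105464695078675185501248)) .nil)))))),
 (.br (nat_lit 15) (nat_lit 0) (.cons (.ev (nat_lit 1363819098295345804282082149356779078659) (nat_lit 3)) (.cons (.br (nat_lit 16) (nat_lit 0) (.cons (.ev (nat_lit 1369115240613818189653215681161682354693) (nat_lit 3)) .nil)) .nil))),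
 (.br (nat_lit 14) (nat_lit 0) (.cons (.ev (nat_lit 10405113811165627571892061791584257) (nat_lit 2)) (.cons (.rf (nat_lit 944) (nat_lit 677537158506467892790396960)) (.cons (.rf (nat_lit 944) (nat_lit 640060458098414388374504512)) .nil)))),
 (.br (nat_lit 11) (nat_lit 0) (.cons (.rf (nat_lit 1073) (nat_lit 677545530873670566137727012)) (.cons (.ev (nat_lit 2658476512285324997099166229734621187) (nat_lit 2)) (.cons (.br (nat_lit 14) (nat_lit 0) (.cons (.ev (nat_lit 1369115241089808580944427199267099116549) (nat_lit 3)) (.cons (.ev (nat_lit 340287559217798207235341555324531310593) (nat_lit 1)) .nil))) (.cons (.br (nat_lit 14) (nat_lit 0) (.cons (.br (nat_lit 16) (nat_lit 0) (.cons (.ev (nat_lit 1366446400029157521308481392276259603971) (nat_lit 3)) .nil)) (.cons (.ev (nat_lit 1361150257234685120426353006694895846919) (nat_lit 3)) (.cons (.ev (nat_lit 20789550936102202344933272664278535) (nat_lit 3)) .nil)))) .nil))))),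
 (.br (nat_lit 7) (nat_lit 0) (.cons (.br (nat_lit 14) (nat_lit 0) (.cons (.ev (nat_lit 10405113811165627571892061791584257) (nat_lit 2)) (.cons (.rf (nat_lit 1072) (nat_lit 677582165103132179601393696)) (.cons (.rf (nat_lit 1072) (nat_lit 640105464695078675185501248)) .nil)))) (.cons (.ev (nat_lit 10405113811175035411371844062674947) (nat_lit 2)) (.cons (.rf (nat_lit 1073) (nat_lit 677582165103132179601393696)) (.cons (.rf (nat_lit 1074) (nat_lit 677582165103132179601393696)) (.cons (.rf (nat_lit 1074) (nat_lit 640105464695078675185501248)) .nil)))))),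
 (.br (nat_lit 15) (nat_lit 0) (.cons (.ev (nat_lit 1363819098295345804282082149356779078659) (nat_lit 3)) (.cons (.br (nat_lit 16) (nat_lit 0) (.cons (.ev (nat_lit 1369115240613818189653215681161682354693) (nat_lit 3)) .nil)) .nil))),
 (.br (nat_lit 15) (nat_lit 0) (.cons (.ev (nat_lit 341611615199134196654653738705395646720) (nat_lit 1)) (.cons (.rf (nat_lit 949) (nat_lit 21173036197698519657777188)) .nil))),
 (.br (nat_lit 10) (nat_lit 0) (.cons (.kr (nat_lit 79228167236630820463189164032) (nat_lit 1334420292643450700532337556609564672) (nat_lit 9) (nat_lit 0)) (.cons (.rf (nat_lit 1077) (nat_lit 677582165103132179601393696)) (.cons (.rf (nat_lit 1077) (nat_lit 640105464695078675185501248)) .nil)))),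
 (.br (nat_lit 10) (nat_lit 0) (.cons (.ev (nat_lit 10404955976237914913423871763808257) (nat_lit 2)) (.cons (.rf (nat_lit 1077) (nat_lit 677545378653274163170674724)) (.cons (.kr (nat_lit 618974760600033368391811073) (nat_lit 20361640184017574553753409814528) (nat_lit 0) (nat_lit 1)) (.cons (.br (nat_lit 14) (nat_lit 0) (.cons (.br (nat_lit 16) (nat_lit 0) (.cons (.ev (nat_lit 2724969334850863932465653686402791900681) (nat_lit 4)) .nil)) (.cons (.br (nat_lit 15) (nat_lit 0) (.cons (.ev (nat_lit 1363819098135025334418637856758634512901) (nat_lit 3)) .nil)) (.cons (.br (nat_lit 15) (nat_lit 0) (.cons (.ev (nat_lit 1363819097819355441214389057421417251333) (nat_lit 3)) .nil)) .nil)))) .nil))))),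
 (.br (nat_lit 7) (nat_lit 0) (.cons (.br (nat_lit 14) (nat_lit 0) (.cons (.ev (nat_lit 10405113811165627571892061791584257) (nat_lit 2)) (.cons (.rf (nat_lit 1076) (nat_lit 677582165103132179601393696)) (.cons (.rf (nat_lit 1076) (nat_lit 640105464695078675185501248)) .nil)))) (.cons (.rf (nat_lit 1078) (nat_lit 677582165103132179601393696)) (.cons (.ev (nat_lit 2658476353207612134326735741896359937) (nat_lit 2)) (.cons (.rf (nat_lit 1079) (nat_lit 677582165103132179601393696)) (.cons (.rf (nat_lit 1079) (nat_lit 640105464695078675185501248)) .nil)))))),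
 (.br (nat_lit 10) (nat_lit 0) (.cons (.rf (nat_lit 1071) (nat_lit 677545530873670566137727012)) (.cons (.br (nat_lit 11) (nat_lit 0) (.cons (.ev (nat_lit 1369115241089808580944427199267099116549) (nat_lit 3)) (.cons (.br (nat_lit 16) (nat_lit 0) (.cons (.ev (nat_lit 2722300494108363472334180563206024069635) (nat_lit 4)) .nil)) .nil))) (.cons (.ev (nat_lit 340287579579435978105196055661278920960) (nat_lit 1)) (.cons (.br (nat_lit 16) (nat_lit 0) (.cons (.ev (nat_lit 340287559217798207235341555324531310593) (nat_lit 1)) (.cons (.ev (nat_lit 2658476353207602652700284045586595843) (nat_lit 2)) (.cons (.ev (nat_lit 874525724546657561163268056165490694030345) (nat_lit 4)) .nil)))) .nil))))),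
 (.br (nat_lit 7) (nat_lit 0) (.cons (.rf (nat_lit 1080) (nat_lit 677582012882735776634341408)) (.cons (.ev (nat_lit 10405113811175035411369653662908417) (nat_lit 2)) (.cons (.kr (nat_lit 2668840585286901401064676212730757121) (nat_lit 20361637770906747988488461746176) (nat_lit 0) (nat_lit 1)) (.cons (.rf (nat_lit 1081) (nat_lit 677582165103132179601393696)) (.cons (.rf (nat_lit 1081) (nat_lit 640105464695078675185501248)) .nil)))))),
 (.br (nat_lit 14) (nat_lit 0) (.cons (.br (nat_lit 11) (nat_lit 0) (.cons (.ev (nat_lit 1369115241089808562128748244083356468229) (nat_lit 3)) (.cons (.br (nat_lit 16) (nat_lit 0) (.cons (.ev (nat_lit 2722300494108363510260686378752862192131) (nat_lit 4)) .nil)) .nil))) (.cons (.kr (nat_lit 20282409603670117168020960837632) (nat_lit 1334420292643450700532337556609564672) (nat_lit 8) (nat_lit 0)) (.cons (.rf (nat_lit 956) (nat_lit 677580949923866323984680992)) (.cons (.ev (nat_lit 10405113811165627571894252225036801) (nat_lit 2)) .nil))))),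
 (.br (nat_lit 7) (nat_lit 0) (.cons (.ev (nat_lit 2658476353207612134326737932296126467) (nat_lit 2)) (.cons (.rf (nat_lit 1075) (nat_lit 677582012882735776634341408)) (.cons (.kr (nat_lit 2668840585286901401064676212730757121) (nat_lit 20361637770906747988488461746176) (nat_lit 0) (nat_lit 1)) (.cons (.rf (nat_lit 1083) (nat_lit 677582165103132179601393696)) (.cons (.rf (nat_lit 1083) (nat_lit 640105464695078675185501248)) .nil)))))),
 (.br (nat_lit 7) (nat_lit 0) (.cons (.rf (nat_lit 1080) (nat_lit 677582012882735776634341408)) (.cons (.rf (nat_lit 1075) (nat_lit 677582012882735776634341408)) (.cons (.rf (nat_lit 1082) (nat_lit 677582012882735776634341408)) (.cons (.rf (nat_lit 1084) (nat_lit 677582012882735776634341408)) (.cons (.br (nat_lit 10) (nat_lit 0) (.cons (.kr (nat_lit 79229371440084233697695367168) (nat_lit 309485028340146736472260608) (nat_lit 6) (nat_lit 0)) (.cons (.rf (nat_lit 1084) (nat_lit 677545530873670566137727012)) (.cons (.rf (nat_lit 1082) (nat_lit 677545530873670566137727012)) (.cons (.br (nat_lit 11) (nat_lit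 0) (.cons (.ev (nat_lit 340287559217798207235341555324531310593) (nat_lit 1)) (.cons (.rf (nat_lit 1082) (nat_lit 677545378653274163170674724)) (.cons (.kr (nat_lit 340282366920938463463374608531279904769) (nat_lit 87112285931760246646623899502536973877504) (nat_lit 0) (nat_lit 6)) .nil)))) .nil))))) (.cons (.br (nat_lit 10) (nat_lit 0) (.cons (.rf (nat_lit 1071) (nat_lit 677545530873670566137727012)) (.cons (.rf (nat_lit 1084) (nat_lit 677545530873670566137727012)) (.cons (.rf (nat_lit 1082) (nat_lit 677545530873670566137727012)) (.cons (.br (nat_lit 11) (nat_lit 0) (.cons (.rf (nat_lit 1084) (nat_lit 677545378653274163170674724)) (.cons (.ev (nat_lit 341611615199134191913840510666824286208) (nat_lit 1)) (.cons (.br (nat_lit 14) (nat_lit 0) (.cons (.ev (nat_lit 10405113811165627571894252225036801) (nat_lit 2)) .nil)) .nil)))) (.cons (.br (nat_lit 11) (nat_lit 0) (.cons (.rf (nat_lit 1084) (nat_lit 677545378653274163170674724)) (.cons (.ev (nat_lit 87113615180038442375074365405767701430273) (nat_lit 1)) (.cons (.kr (nat_lit 87112285952042656250294016670553622970624)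 (nat_lit 340282367000166630700005427894957441024) (nat_lit 1) (nat_lit 0)) .nil)))) .nil)))))) .nil))))))),
 (.br (nat_lit 9) (nat_lit 0) (.cons (.rf (nat_lit 888) (nat_lit 259248737950533668)) (.cons (.rf (nat_lit 768) (nat_lit 301512)) (.cons (.br (nat_lit 11) (nat_lit 1) (.cons (.rf (nat_lit 1043) (nat_lit 341637909037614991392)) (.cons (.br (nat_lit 12) (nat_lit 0) (.cons (.br (nat_lit 13) (nat_lit 0) (.cons (.br (nat_lit 1) (nat_lit 0) (.cons (.kr (nat_lit 256) (nat_lit 65536) (nat_lit 1) (nat_lit 0)) (.cons (.rf (nat_lit 1048) (nat_lit 583706118939841765935136)) (.cons (.rf (nat_lit 1048) (nat_lit 583553898543438798882848)) (.cons (.rf (nat_lit 1048) (nat_lit 547071889478228302268452)) (.cons (.rf (nat_lit 1048) (nat_lit 546919669081825335216164)) (.cons (.rf (nat_lit 1055) (nat_lit 583706118939841765935136)) (.cons (.rf (nat_lit 1055) (nat_lit 547071889478228302268452)) (.cons (.br (nat_lit 2) (nat_lit 0) (.cons (.rf (nat_lit 1048) (nat_lit 583706118939841765934144)) (.cons (.rf (nat_lit 1048) (nat_lit 583553898543438798881856))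 (.cons (.rf (nat_lit 1048) (nat_lit 547071889478228302267460)) (.cons (.rf (nat_lit 1048) (nat_lit 546919669081825335215172)) (.cons (.rf (nat_lit 1055) (nat_lit 583706118939841765934144)) (.cons (.rf (nat_lit 1055) (nat_lit 547071889478228302267460)) (.cons (.br (nat_lit 6) (nat_lit 0) (.cons (.rf (nat_lit 1058) (nat_lit 19926519232773908561233952)) (.cons (.rf (nat_lit 1060) (nat_lit 19926519232773908561233952)) (.cons (.rf (nat_lit 1062) (nat_lit 19926519232773908561233952)) (.cons (.rf (nat_lit 1063) (nat_lit 19926519232773908561233952)) (.cons (.rf (nat_lit 1064) (nat_lit 19926519232773908561233952)) (.cons (.rf (nat_lit 1065) (nat_lit 19926519232773908561233952)) (.cons (.br (nat_lit 7) (nat_lit 0) (.cons (.rf (nat_lit 1062) (nat_lit 19926367012377505594181664)) (.cons (.rf (nat_lit 1060) (nat_lit 19926367012377505594181664)) (.cons (.rf (nat_lit 1063) (nat_lit 19926367012377505594181664)) (.cons (.rf (nat_lit 1064) (nat_lit 19926367012377505594181664)) (.cons (.rf (nat_lit 1065) (nat_lit 19926367012377505594181664)) (.cons (.br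 (nat_lit 14) (nat_lit 0) (.cons (.rf (nat_lit 1064) (nat_lit 19889885003312295097567268)) (.cons (.rf (nat_lit 1064) (nat_lit 19889732782915892130514980)) (.cons (.ev (nat_lit 10405113811165627571894252225036801) (nat_lit 2)) (.cons (.ev (nat_lit 340287559217796998291075476997128847361) (nat_lit 1)) (.cons (.ev (nat_lit 87112291124057105181451600372098005991424) (nat_lit 1)) .nil)))))) .nil))))))) .nil)))))))) (.cons (.br (nat_lit 6) (nat_lit 0) (.cons (.rf (nat_lit 1071) (nat_lit 677582165103132179601393696)) (.cons (.rf (nat_lit 1075) (nat_lit 677582165103132179601393696)) (.cons (.rf (nat_lit 1080) (nat_lit 677582165103132179601393696)) (.cons (.rf (nat_lit 1082) (nat_lit 677582165103132179601393696)) (.cons (.rf (nat_lit 1084) (nat_lit 677582165103132179601393696)) (.cons (.rf (nat_lit 1085) (nat_lit 677582165103132179601393696)) (.cons (.rf (nat_lit 1085) (nat_lit 640105464695078675185501248)) .nil)))))))) .nil))))))))) .nil))))))))) .nil)) (.cons (.br (nat_lit 13) (nat_lit 0) (.cons (.kr (nat_lit 79228162532711082766765129729)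 (nat_lit 20282409608374036906821208244224) (nat_lit 0) (nat_lit 1)) .nil)) .nil))) .nil))) .nil)))),
 (.br (nat_lit 6) (nat_lit 1) (.cons (.rf (nat_lit 845) (nat_lit 247132686368)) (.cons (.br (nat_lit 8) (nat_lit 1) (.cons (.br (nat_lit 5) (nat_lit 0) (.cons (.rf (nat_lit 845) (nat_lit 213846689824)) (.cons (.br (nat_lit 5) (nat_lit 0) (.cons (.rf (nat_lit 845) (nat_lit 213846689824)) (.cons (.br (nat_lit 7) (nat_lit 1) (.cons (.rf (nat_lit 888) (nat_lit 407901468851537952)) (.cons (.rf (nat_lit 961) (nat_lit 407901468851537952)) (.cons (.br (nat_lit 12) (nat_lit 1) (.cons (.br (nat_lit 8) (nat_lit 0) (.cons (.rf (nat_lit 1043) (nat_lit 493858305440582043680)) (.cons (.rf (nat_lit 1043) (nat_lit 493823402543469922336)) (.cons (.br (nat_lit 10) (nat_lit 1) (.cons (.rf (nat_lit 1086) (nat_lit 17022140995484340291616)) (.cons (.rf (nat_lit 1043) (nat_lit 341672811934727112736)) (.cons (.br (nat_lit 11) (nat_lit 1) (.cons (.rf (nat_lit 1086) (nat_lit 17022106092587228170272)) (.cons (.rf (nat_lit 961) (nat_lit 259393873485400100)) (.cons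 (.rf (nat_lit 888) (nat_lit 259393873485400100)) .nil)))) .nil)))) .nil)))) .nil)) .nil)))) .nil))) .nil))) .nil)) .nil))),
 (.br (nat_lit 14) (nat_lit 0) (.cons (.kr (nat_lit 1329227995784915891422608728027824384) (nat_lit 5192297168019837450157040030777344) (nat_lit 1) (nat_lit 0)) (.cons (.br (nat_lit 15) (nat_lit 0) (.cons (.ev (nat_lit 2668860946925890659918499892124712960) (nat_lit 2)) (.cons (.rf (nat_lit 1) (nat_lit 582169107964097)) .nil))) .nil)))]

theorem c58 : chkAll C T R L58 (nat_lit 1068) = true := by decide +kernel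

theorem l58 : (nat_lit 1068) + L58.length = (nat_lit 1089) := by decide +kernel

/-- part of the certificates -/
def L59 : List Prf := [(.br (nat_lit 11) (nat_lit 0) (.cons (.ev (nat_lit 2679225654380218697404192031078614529) (nat_lit 3)) (.cons (.ev (nat_lit 2658476353830199431210392555974819840) (nat_lit 2)) (.cons (.br (nat_lit 14) (nat_lit 0) (.cons (.ev (nat_lit 2668860946925890659918499892124712960) (nat_lit 2)) (.cons (.rf (nat_lit 2) (nat_lit 19075428857448308929)) .nil))) .nil)))),
 (.br (nat_lit 13) (nat_lit 0) (.cons (.br (nat_lit 7) (nat_lit 0) (.cons (.rf (nat_lit 1088) (nat_lit 583706118939841765935136)) (.cons (.rf (nat_lit 1088) (nat_lit 580128710506722241906720)) (.cons (.ev (nat_lit 2658456150028574662869007817240609283) (nat_lit 2)) (.cons (.br (nat_lit 16) (nat_lit 0) (.cons (.ev (nat_lit 20520714274899329831011117695491) (nat_lit 2)) (.cons (.ev (nat_lit 10405113814801831316396863966413315) (nat_lit 2)) (.cons (.rf (nat_lit 1089) (nat_lit 19926519232773908561233952)) (.cons (.br (nat_lit 16) (nat_lit 0) (.cons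 (.ev (nat_lit 20520714274899329831011117695491) (nat_lit 2)) (.cons (.ev (nat_lit 10405113814801831316396863966413315) (nat_lit 2)) (.cons (.rf (nat_lit 1089) (nat_lit 19926519232773908561233952)) .nil)))) .nil))))) .nil))))) .nil)),
 (.br (nat_lit 8) (nat_lit 1) (.cons (.br (nat_lit 8) (nat_lit 1) (.cons (.br (nat_lit 9) (nat_lit 0) (.cons (.br (nat_lit 9) (nat_lit 1) (.cons (.rf (nat_lit 768) (nat_lit 339209)) (.cons (.br (nat_lit 10) (nat_lit 1) (.cons (.br (nat_lit 12) (nat_lit 0) (.cons (.rf (nat_lit 768) (nat_lit 401769)) (.cons (.br (nat_lit 12) (nat_lit 0) (.cons (.rf (nat_lit 768) (nat_lit 401769)) (.cons (.br (nat_lit 11) (nat_lit 1) (.cons (.rf (nat_lit 1087) (nat_lit 530875559177)) (.cons (.br (nat_lit 10) (nat_lit 0) (.cons (.rf (nat_lit 1090) (nat_lit 583706118939841765935136)) (.cons (.rf (nat_lit 1090) (nat_lit 547107778697602015528992)) .nil))) .nil))) .nil))) .nil))) .nil)) .nil))) .nil)) .nil)) .nil)),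
 (.br (nat_lit 11) (nat_lit 1) (.cons (.ev (nat_lit 313125973042839207454900481) (nat_lit 2)) (.cons (.br (nat_lit 13) (nat_lit 0) (.cons (.br (nat_lit 15) (nat_lit 0) (.cons (.br (nat_lit 12) (nat_lit 1) (.cons (.ev (nat_lit 79229376162522492686401863681) (nat_lit 1)) (.cons (.ev (nat_lit 79537647542532709314778366208) (nat_lit 1)) (.cons (.br (nat_lit 13) (nat_lit 1) (.cons (.br (nat_lit 14) (nat_lit 0) (.cons (.ev (nat_lit 10425158536286440224363877694046723) (nat_lit 2)) (.cons (.br (nat_lit 15) (nat_lit 1) (.cons (.ev (nat_lit 2668881308564851621611031892477346305) (nat_lit 2)) .nil)) .nil))) .nil)) .nil)))) .nil)) .nil)) .nil))),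
 (.br (nat_lit 13) (nat_lit 1) (.cons (.ev (nat_lit 680564774407317522101516661395690618883) (nat_lit 2)) .nil)),
 (.br (nat_lit 15) (nat_lit 1) (.cons (.br (nat_lit 12) (nat_lit 1) (.cons (.ev (nat_lit 1334461016851069580354983882297245954) (nat_lit 2)) (.cons (.ev (nat_lit 680564734000333261436904345041157358083) (nat_lit 2)) (.cons (.rf (nat_lit 1093) (nat_lit 21174404575872212308953120)) .nil)))) .nil)),
 (.br (nat_lit 8) (nat_lit 0) (.cons (.br (nat_lit 9) (nat_lit 0) (.cons (.br (nat_lit 10) (nat_lit 1) (.cons (.br (nat_lit 10) (nat_lit 1) (.cons (.br (nat_lit 12) (nat_lit 0) (.cons (.rf (nat_lit 1092) (nat_lit 493858305440582043680)) (.cons (.br (nat_lit 14) (nat_lit 0) (.cons (.br (nat_lit 11) (nat_lit 1) (.cons (.rf (nat_lit 1092) (nat_lit 458117738797769787424)) (.cons (.br (nat_lit 11) (nat_lit 1) (.cons (.rf (nat_lit 1092) (nat_lit 458117738797769787424)) (.cons (.br (nat_lit 13) (nat_lit 0) (.cons (.br (nat_lit 16) (nat_lit 0) (.cons (.br (nat_lit 15) (nat_lit 1) (.cons (.ev (nat_lit 1344804887290189088852668805829165825)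 (nat_lit 2)) .nil)) .nil)) (.cons (.br (nat_lit 14) (nat_lit 1) (.cons (.rf (nat_lit 1094) (nat_lit 677582165103132179601393696)) (.cons (.rf (nat_lit 1094) (nat_lit 640105464695078675185502240)) .nil))) .nil))) .nil))) .nil))) .nil)) .nil))) .nil)) .nil)) .nil)) .nil)),
 (.br (nat_lit 15) (nat_lit 0) (.cons (.br (nat_lit 8) (nat_lit 0) (.cons (.rf (nat_lit 1095) (nat_lit 325702574508064)) (.cons (.ev (nat_lit 1344845530719793034855158364388720640) (nat_lit 2)) (.cons (.ev (nat_lit 681909538966852807706434890657960034304) (nat_lit 2)) (.cons (.ev (nat_lit 1334420531256393309683436640788283906) (nat_lit 2)) .nil))))) .nil)),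
 (.br (nat_lit 6) (nat_lit 0) (.cons (.kr (nat_lit 72057594037928192) (nat_lit 281474976776192) (nat_lit 1) (nat_lit 0)) (.cons (.rf (nat_lit 1091) (nat_lit 9043225708576)) (.cons (.br (nat_lit 7) (nat_lit 0) (.cons (.ev (nat_lit 144679241852649475) (nat_lit 2)) (.cons (.rf (nat_lit 1091) (nat_lit 10109418832960)) (.cons (.br (nat_lit 8) (nat_lit 0) (.cons (.rf (nat_lit 1095) (nat_lit 325702574508064)) (.cons (.br (nat_lit 10) (nat_lit 1) (.cons (.br (nat_lit 10) (nat_lit 1) (.cons (.br (nat_lit 11) (nat_lit 0) (.cons (.br (nat_lit 11) (nat_lit 1) (.cons (.rf (nat_lit 768) (nat_lit 406859)) (.cons (.br (nat_lit 12) (nat_lit 1) (.cons (.br (nat_lit 14) (nat_lit 0) (.cons (.rf (nat_lit 768) (nat_lit 469419)) (.cons (.br (nat_lit 14) (nat_lit 0) (.cons (.rf (nat_lit 768) (nat_lit 469419)) (.cons (.br (nat_lit 13) (nat_lit 1) (.cons (.rf (nat_lit 1087) (nat_lit 601811793227)) (.cons (.br (nat_lit 12) (nat_lit 0) (.cons (.rf (nat_lit 1096) (nat_lit 677582165103132179601393696)) (.cons (.rf (nat_lit 1096) (nat_lit 640105464695078675185502240))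 .nil))) .nil))) .nil))) .nil))) .nil)) .nil))) .nil)) .nil)) .nil)) .nil))) .nil)))) .nil)))),
 (.br (nat_lit 13) (nat_lit 0) (.cons (.br (nat_lit 6) (nat_lit 0) (.cons (.ev (nat_lit 20520714274899329827708237513218) (nat_lit 2)) (.cons (.ev (nat_lit 10405113814801831316393561086231042) (nat_lit 2)) (.cons (.ev (nat_lit 20361646261703239132908231984134) (nat_lit 3)) (.cons (.br (nat_lit 15) (nat_lit 0) (.cons (.rf (nat_lit 1097) (nat_lit 490038705517)) (.cons (.rf (nat_lit 1097) (nat_lit 386994060748)) (.cons (.ev (nat_lit 5316912300057149325883255635920815619) (nat_lit 3)) (.cons (.br (nat_lit 11) (nat_lit 0) (.cons (.rf (nat_lit 1) (nat_lit 582172455182401)) (.cons (.br (nat_lit 14) (nat_lit 0) (.cons (.ev (nat_lit 340282387282885719380015998582975889665) (nat_lit 1)) (.cons (.ev (nat_lit 2668860946925890659918499892124712960) (nat_lit 2)) .nil))) (.cons (.ev (nat_lit 2658476353830199431210392555974819840) (nat_lit 2)) .nil)))) .nil))))) .nil))))) .nil)),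
 (.br (nat_lit 8) (nat_lit 1) (.cons (.br (nat_lit 8) (nat_lit 1) (.cons (.br (nat_lit 9) (nat_lit 0) (.cons (.br (nat_lit 9) (nat_lit 1) (.cons (.rf (nat_lit 768) (nat_lit 339209)) (.cons (.br (nat_lit 10) (nat_lit 1) (.cons (.br (nat_lit 12) (nat_lit 0) (.cons (.rf (nat_lit 768) (nat_lit 401769)) (.cons (.br (nat_lit 12) (nat_lit 0) (.cons (.rf (nat_lit 768) (nat_lit 401769)) (.cons (.br (nat_lit 11) (nat_lit 1) (.cons (.rf (nat_lit 1087) (nat_lit 530875559177)) (.cons (.br (nat_lit 10) (nat_lit 0) (.cons (.rf (nat_lit 1098) (nat_lit 583706118939841765935136)) (.cons (.rf (nat_lit 1098) (nat_lit 547107778697602015528992)) .nil))) .nil))) .nil))) .nil))) .nil)) .nil))) .nil)) .nil)) .nil)),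
 (.br (nat_lit 11) (nat_lit 1) (.cons (.ev (nat_lit 1859337465981293906056578051) (nat_lit 3)) (.cons (.br (nat_lit 13) (nat_lit 0) (.cons (.br (nat_lit 12) (nat_lit 1) (.cons (.ev (nat_lit 316917504650235212937513927175) (nat_lit 3)) (.cons (.ev (nat_lit 318150590170273823235913287175) (nat_lit 3)) (.cons (.br (nat_lit 13) (nat_lit 1) (.cons (.br (nat_lit 14) (nat_lit 0) (.cons (.kr (nat_lit 40564819216748073814733304627201) (nat_lit 10384593717069692150549144389287936) (nat_lit 0) (nat_lit 1)) (.cons (.br (nat_lit 15) (nat_lit 1) (.cons (.br (nat_lit 17) (nat_lit 1) (.cons (.ev (nat_lit 340298004897048754315346965897484042242) (nat_lit 2)) .nil)) .nil)) .nil))) .nil)) .nil)))) .nil)) .nil))),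
 (.br (nat_lit 15) (nat_lit 1) (.cons (.br (nat_lit 12) (nat_lit 1) (.cons (.ev (nat_lit 1334542464640074283236428750314996997) (nat_lit 3)) (.cons (.kr (nat_lit 158456334473261642025889955841) (nat_lit 680564733841876926963642703015267270656) (nat_lit 0) (nat_lit 1)) (.cons (.br (nat_lit 13) (nat_lit 1) (.cons (.zr (nat_lit 1334420292954144691585587086855504130) (nat_lit 40723275537054236852575189270528) (nat_lit 8) (nat_lit 1)) .nil)) .nil)))) .nil)),
 (.br (nat_lit 8) (nat_lit 0) (.cons (.br (nat_lit 9) (nat_lit 0) (.cons (.br (nat_lit 10) (nat_lit 1) (.cons (.br (nat_lit 10) (nat_lit 1) (.cons (.br (nat_lit 12) (nat_lit 0) (.cons (.rf (nat_lit 1100) (nat_lit 493858305440582043680)) (.cons (.br (nat_lit 14) (nat_lit 0) (.cons (.br (nat_lit 11) (nat_lit 1) (.cons (.rf (nat_lit 1100) (nat_lit 458117738797769787424)) (.cons (.br (nat_lit 11) (nat_lit 1) (.cons (.rf (nat_lit 1100) (nat_lit 458117738797769787424)) (.cons (.br (nat_lit 13) (nat_lit 0) (.cons (.br (nat_lit 16) (nat_lit 0) (.cons (.br (nat_lit 15) (nat_lit 1) (.cons (.ev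 (nat_lit 7985752569052816838622586961997725699) (nat_lit 3)) .nil)) .nil)) (.cons (.br (nat_lit 14) (nat_lit 1) (.cons (.rf (nat_lit 1101) (nat_lit 677582165103132179601393696)) (.cons (.rf (nat_lit 1101) (nat_lit 640105464695078675185502240)) .nil))) .nil))) .nil))) .nil))) .nil)) .nil))) .nil)) .nil)) .nil)) .nil)),
 (.br (nat_lit 15) (nat_lit 0) (.cons (.br (nat_lit 8) (nat_lit 0) (.cons (.rf (nat_lit 1102) (nat_lit 325702574508064)) (.cons (.ev (nat_lit 1344845530719793034855158364388720640) (nat_lit 2)) (.cons (.ev (nat_lit 681909538966852807706434890657960034304) (nat_lit 2)) (.cons (.ev (nat_lit 8006521914935999325296483251033212423) (nat_lit 3)) .nil))))) .nil)),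
 (.br (nat_lit 2) (nat_lit 0) (.cons (.ev (nat_lit 1689970897191943) (nat_lit 3)) (.cons (.rf (nat_lit 1099) (nat_lit 9043225708576)) (.cons (.br (nat_lit 6) (nat_lit 0) (.cons (.ev (nat_lit 281479305429505) (nat_lit 2)) (.cons (.rf (nat_lit 1099) (nat_lit 9932251338979)) (.cons (.br (nat_lit 8) (nat_lit 0) (.cons (.rf (nat_lit 1102) (nat_lit 325702574508064)) (.cons (.br (nat_lit 10) (nat_lit 1) (.cons (.br (nat_lit 10) (nat_lit 1) (.cons (.br (nat_lit 11) (nat_lit 0) (.cons (.br (nat_lit 11) (nat_lit 1) (.cons (.rf (nat_lit 768) (nat_lit 406859)) (.cons (.br (nat_lit 12) (nat_lit 1) (.cons (.br (nat_lit 14) (nat_lit 0) (.cons (.rf (nat_lit 768) (nat_lit 469419)) (.cons (.br (nat_lit 14) (nat_lit 0) (.cons (.rf (nat_lit 768) (nat_lit 469419)) (.cons (.br (nat_lit 13) (nat_lit 1) (.cons (.rf (nat_lit 1087) (nat_lit 601811793227)) (.cons (.br (nat_lit 12) (nat_lit 0) (.cons (.rf (nat_lit 1103) (nat_lit 677582165103132179601393696)) (.cons (.rf (nat_lit 1103) (nat_lit 640105464695078675185502240)) .nil))) .nil))) .nil))) .nil))) .nil))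 .nil))) .nil)) .nil)) .nil)) .nil))) .nil)))) .nil)))),
 (.br (nat_lit 6) (nat_lit 0) (.cons (.kr (nat_lit 5192297168019837521933159091929344) (nat_lit 1329227995784915891350832608966672384) (nat_lit 1) (nat_lit 0)) (.cons (.br (nat_lit 14) (nat_lit 0) (.cons (.ev (nat_lit 7996137320602396354465415430756630531) (nat_lit 3)) (.cons (.rf (nat_lit 1) (nat_lit 582139035003969)) .nil))) .nil))),
 (.br (nat_lit 14) (nat_lit 0) (.cons (.ev (nat_lit 10405113814801831172281667300622337) (nat_lit 2)) (.cons (.ev (nat_lit 10404955975019489020613481159852547) (nat_lit 2)) (.cons (.ev (nat_lit 5192297171660782008171372950454787) (nat_lit 2)) (.cons (.br (nat_lit 16) (nat_lit 0) (.cons (.ev (nat_lit 144116300489293825) (nat_lit 2)) (.cons (.ev (nat_lit 2658476353830199431210392555974819840) (nat_lit 2)) (.cons (.kr (nat_lit 174224571883802902901621835912981732392961) (nat_lit 680564733921106298366833167090566823936) (nat_lit 0) (nat_lit 1)) .nil)))) .nil))))),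
 (.br (nat_lit 6) (nat_lit 0) (.cons (.rf (nat_lit 1) (nat_lit 582172288494657)) (.cons (.ev (nat_lit 144679241852649475) (nat_lit 2)) (.cons (.br (nat_lit 17) (nat_lit 0) (.cons (.ev (nat_lit 87112291144339824274835386284918907666688) (nat_lit 1)) (.cons (.ev (nat_lit 174227230319512682104458126391354524172801) (nat_lit 2)) .nil))) .nil)))),
 (.br (nat_lit 13) (nat_lit 0) (.cons (.br (nat_lit 7) (nat_lit 0) (.cons (.rf (nat_lit 1097) (nat_lit 207332973637)) (.cons (.rf (nat_lit 1097) (nat_lit 69965192387)) (.cons (.ev (nat_lit 20520714274899185715814451904513) (nat_lit 2)) (.cons (.ev (nat_lit 10405113814801831172281667300622337) (nat_lit 2)) (.cons (.br (nat_lit 2) (nat_lit 0) (.cons (.ev (nat_lit 20361646261703670915505292575236) (nat_lit 3)) (.cons (.rf (nat_lit 1105) (nat_lit 583706118939841765935136)) (.cons (.rf (nat_lit 1105) (nat_lit 580128710506722241906720)) (.cons (.br (nat_lit 6) (nat_lit 0) (.cons (.rf (nat_lit 1105) (nat_lit 319103718503566141298915)) (.cons (.rf (nat_lit 1105) (nat_lit 315597793385163311290595)) (.cons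 (.br (nat_lit 11) (nat_lit 0) (.cons (.ev (nat_lit 7975368451323682843859587087525217287) (nat_lit 3)) (.cons (.ev (nat_lit 159077722381581445136977560067) (nat_lit 2)) (.cons (.br (nat_lit 16) (nat_lit 0) (.cons (.ev (nat_lit 10384752173394720823620994546598403) (nat_lit 2)) (.cons (.ev (nat_lit 683223189834065738137076881528184701441) (nat_lit 2)) .nil))) .nil)))) (.cons (.br (nat_lit 11) (nat_lit 0) (.cons (.ev (nat_lit 7975368451323682843859587087525217287) (nat_lit 3)) (.cons (.rf (nat_lit 1106) (nat_lit 677582165103132179601393696)) (.cons (.rf (nat_lit 1106) (nat_lit 639840862294642399560866019)) .nil)))) .nil))))) .nil))))) (.cons (.br (nat_lit 15) (nat_lit 0) (.cons (.ev (nat_lit 20361641407110493057348691689987) (nat_lit 2)) (.cons (.ev (nat_lit 20361641407110493620290055045633) (nat_lit 2)) (.cons (.rf (nat_lit 1097) (nat_lit 490038705517)) (.cons (.rf (nat_lit 1097) (nat_lit 386994060748)) (.cons (.br (nat_lit 16) (nat_lit 0) (.cons (.ev (nat_lit 144116300489293825) (nat_lit 2)) (.cons (.ev (nat_lit 144679241852649475)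 (nat_lit 2)) (.cons (.ev (nat_lit 2658476353830199431210392555974819840) (nat_lit 2)) (.cons (.ev (nat_lit 2668860946925890659918499892124712960) (nat_lit 2)) (.cons (.br (nat_lit 17) (nat_lit 0) (.cons (.ev (nat_lit 683223210353542072996832817106133320194) (nat_lit 2)) (.cons (.ev (nat_lit 683223210353542072996833380047496675840) (nat_lit 2)) (.cons (.ev (nat_lit 680564734000954649308330379625065611779) (nat_lit 2)) (.cons (.ev (nat_lit 680575118594050321647572555482634650115) (nat_lit 2)) .nil))))) .nil)))))) (.cons (.br (nat_lit 2) (nat_lit 0) (.cons (.rf (nat_lit 1104) (nat_lit 213814182976)) (.cons (.rf (nat_lit 1107) (nat_lit 677582165103132179601393696)) (.cons (.rf (nat_lit 1107) (nat_lit 677578587694699060077365280)) (.cons (.ev (nat_lit 144116300489293825) (nat_lit 2)) (.cons (.br (nat_lit 6) (nat_lit 0) (.cons (.rf (nat_lit 1107) (nat_lit 677582165103132175235192868)) (.cons (.rf (nat_lit 1107) (nat_lit 677578587694699055711164452)) (.cons (.ev (nat_lit 144679241852649475) (nat_lit 2)) (.cons (.ev (nat_lit 174224571883882134700358292059111169327616)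 (nat_lit 2)) .nil))))) .nil)))))) .nil))))))) .nil))))))) .nil)),
 (.br (nat_lit 8) (nat_lit 1) (.cons (.br (nat_lit 8) (nat_lit 1) (.cons (.br (nat_lit 9) (nat_lit 0) (.cons (.br (nat_lit 9) (nat_lit 1) (.cons (.rf (nat_lit 768) (nat_lit 339209)) (.cons (.br (nat_lit 10) (nat_lit 1) (.cons (.br (nat_lit 12) (nat_lit 0) (.cons (.rf (nat_lit 768) (nat_lit 401769)) (.cons (.br (nat_lit 12) (nat_lit 0) (.cons (.rf (nat_lit 768) (nat_lit 401769)) (.cons (.br (nat_lit 11) (nat_lit 1) (.cons (.rf (nat_lit 1087) (nat_lit 530875559177)) (.cons (.br (nat_lit 10) (nat_lit 0) (.cons (.rf (nat_lit 1108) (nat_lit 583706118939841765935136)) (.cons (.rf (nat_lit 1108) (nat_lit 547107778697602015528992)) .nil))) .nil))) .nil))) .nil))) .nil)) .nil))) .nil)) .nil)) .nil)),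
 (.br (nat_lit 11) (nat_lit 1) (.cons (.ev (nat_lit 313125973043402148784701697) (nat_lit 2)) (.cons (.br (nat_lit 13) (nat_lit 0) (.cons (.br (nat_lit 15) (nat_lit 0) (.cons (.br (nat_lit 12) (nat_lit 1) (.cons (.ev (nat_lit 79229376162450435096658903296) (nat_lit 1)) (.cons (.ev (nat_lit 79537647542604766904521326593) (nat_lit 1)) (.cons (.br (nat_lit 13) (nat_lit 1) (.cons (.br (nat_lit 14) (nat_lit 0) (.cons (.ev (nat_lit 10425158536286440224363877694046723) (nat_lit 2)) (.cons (.br (nat_lit 15) (nat_lit 1) (.cons (.ev (nat_lit 2668881308564851621466916712991424515) (nat_lit 2)) .nil)) .nil))) .nil)) .nil)))) .nil)) .nil)) .nil))),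
 (.br (nat_lit 12) (nat_lit 1) (.cons (.rf (nat_lit 768) (nat_lit 440652)) (.cons (.ev (nat_lit 2658456150026166255962744298181624323) (nat_lit 2)) (.cons (.rf (nat_lit 1093) (nat_lit 15015336454314808832002080)) .nil)))),
 (.br (nat_lit 10) (nat_lit 0) (.cons (.br (nat_lit 12) (nat_lit 0) (.cons (.rf (nat_lit 230) (nat_lit 15803609959722086696992)) (.cons (.br (nat_lit 15) (nat_lit 1) (.cons (.rf (nat_lit 768) (nat_lit 437740)) .nil)) .nil))) .nil))]

theorem c59 : chkAll C T R L59 (nat_lit 1089) = true := by decide +kernel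

theorem l59 : (nat_lit 1089) + L59.length = (nat_lit 1113) := by decide +kernel

/-- part of the certificates -/
def L60 : List Prf := [(.br (nat_lit 11) (nat_lit 0) (.cons (.ev (nat_lit 5192376708089991098520887313498881) (nat_lit 2)) (.cons (.ev (nat_lit 20362260367722440382874732462593) (nat_lit 2)) (.cons (.br (nat_lit 15) (nat_lit 0) (.cons (.ev (nat_lit 2658476511665136625494752786582077953) (nat_lit 2)) (.cons (.rf (nat_lit 2) (nat_lit 19076484354218728641)) .nil))) .nil)))),
 (.br (nat_lit 8) (nat_lit 0) (.cons (.br (nat_lit 14) (nat_lit 0) (.cons (.kr (nat_lit 5192296858534846147332164076699904) (nat_lit 1329227996094400882725433603981901824) (nat_lit 1) (nat_lit 0)) (.cons (.br (nat_lit 15) (nat_lit 0) (.cons (.ev (nat_lit 2668860946925890659919066153548382211) (nat_lit 2)) (.cons (.rf (nat_lit 1) (nat_lit 582169141517505)) .nil))) .nil))) (.cons (.br (nat_lit 11) (nat_lit 0) (.cons (.ev (nat_lit 31174460943225099110510205144662535) (nat_lit 3)) (.cons (.rf (nat_lit 179) (nat_lit 18968472625698905281)) .nil))) (.cons (.br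 (nat_lit 11) (nat_lit 0) (.cons (.kr (nat_lit 5192296858534846147332164076699904) (nat_lit 1329227996094400882725433603981901824) (nat_lit 1) (nat_lit 0)) (.cons (.br (nat_lit 14) (nat_lit 0) (.cons (.ev (nat_lit 10405114433771813922046615874568195) (nat_lit 2)) (.cons (.rf (nat_lit 1) (nat_lit 582139073600705)) .nil))) .nil))) (.cons (.br (nat_lit 16) (nat_lit 0) (.cons (.ev (nat_lit 20362260367722440382874732462593) (nat_lit 2)) (.cons (.rf (nat_lit 1113) (nat_lit 19926519232773908561233952)) (.cons (.ev (nat_lit 2658476511665136625494752786582077953) (nat_lit 2)) (.cons (.br (nat_lit 16) (nat_lit 0) (.cons (.ev (nat_lit 20362260367722440382874732462593) (nat_lit 2)) (.cons (.rf (nat_lit 1113) (nat_lit 19926519232773908561233952)) (.cons (.ev (nat_lit 2658476511665136625494752786582077953) (nat_lit 2)) .nil)))) .nil))))) .nil))))),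
 (.br (nat_lit 11) (nat_lit 0) (.cons (.ev (nat_lit 5192376708089991097956833536574208) (nat_lit 2)) (.cons (.ev (nat_lit 20362260367722440382874732462593) (nat_lit 2)) (.cons (.br (nat_lit 15) (nat_lit 0) (.cons (.ev (nat_lit 2658476511665136625494752786582077953) (nat_lit 2)) (.cons (.rf (nat_lit 2) (nat_lit 19076484354217681089)) .nil))) .nil)))),
 (.br (nat_lit 7) (nat_lit 0) (.cons (.br (nat_lit 14) (nat_lit 0) (.cons (.kr (nat_lit 5192296858534846147332164076699904) (nat_lit 1329227996094400882725433603981901824) (nat_lit 1) (nat_lit 0)) (.cons (.br (nat_lit 15) (nat_lit 0) (.cons (.ev (nat_lit 2668860946925890659919063945901637633) (nat_lit 2)) (.cons (.rf (nat_lit 1) (nat_lit 582169107964097)) .nil))) .nil))) (.cons (.br (nat_lit 15) (nat_lit 0) (.cons (.ev (nat_lit 31174460943225099111629482111533569) (nat_lit 3)) (.cons (.rf (nat_lit 179) (nat_lit 18963894399000453313)) .nil))) (.cons (.br (nat_lit 11) (nat_lit 0) (.cons (.kr (nat_lit 5192296858534846147332164076699904) (nat_lit 1329227996094400882725433603981901824) (nat_lit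 1) (nat_lit 0)) (.cons (.br (nat_lit 14) (nat_lit 0) (.cons (.ev (nat_lit 10405114433771813922044408227823617) (nat_lit 2)) (.cons (.rf (nat_lit 1) (nat_lit 582139040047297)) .nil))) .nil))) (.cons (.br (nat_lit 16) (nat_lit 0) (.cons (.ev (nat_lit 20362260367722440382874732462593) (nat_lit 2)) (.cons (.rf (nat_lit 1115) (nat_lit 19926519232773908561233952)) (.cons (.ev (nat_lit 2658476511665136625494752786582077953) (nat_lit 2)) (.cons (.br (nat_lit 16) (nat_lit 0) (.cons (.ev (nat_lit 20362260367722440382874732462593) (nat_lit 2)) (.cons (.rf (nat_lit 1115) (nat_lit 19926519232773908561233952)) (.cons (.ev (nat_lit 2658476511665136625494752786582077953) (nat_lit 2)) .nil)))) .nil))))) .nil))))),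
 (.br (nat_lit 8) (nat_lit 0) (.cons (.br (nat_lit 14) (nat_lit 0) (.cons (.ev (nat_lit 10404955356049506416087421545349123) (nat_lit 2)) (.cons (.ev (nat_lit 10405114433771813922044408227823617) (nat_lit 2)) (.cons (.br (nat_lit 15) (nat_lit 0) (.cons (.ev (nat_lit 341611615278362354446551873804742754560) (nat_lit 1)) (.cons (.rf (nat_lit 1039) (nat_lit 19986315502910530216434124)) .nil))) .nil)))) (.cons (.ev (nat_lit 10404955358476802788284626831933441) (nat_lit 2)) (.cons (.br (nat_lit 11) (nat_lit 0) (.cons (.ev (nat_lit 10404955356049506416087421545349123) (nat_lit 2)) (.cons (.ev (nat_lit 340282367000477324654165471839404491009) (nat_lit 1)) (.cons (.br (nat_lit 16) (nat_lit 0) (.cons (.ev (nat_lit 2668860946925890659919063945901637633) (nat_lit 2)) (.cons (.ev (nat_lit 341611594996262235786183994362292076800) (nat_lit 1)) .nil))) .nil)))) (.cons (.ev (nat_lit 340282366920938463463374890010568294656) (nat_lit 1)) (.cons (.br (nat_lit 11) (nat_lit 0) (.cons (.br (nat_lit 15) (nat_lit 0) (.cons (.kr (nat_lit 2658455992188801765450305361833623553)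 (nat_lit 20361638979814121421989568708608) (nat_lit 0) (nat_lit 1)) (.cons (.br (nat_lit 16) (nat_lit 0) (.cons (.ev (nat_lit 1369104856179796594083681330274467054595) (nat_lit 3)) .nil)) .nil))) (.cons (.br (nat_lit 14) (nat_lit 0) (.cons (.ev (nat_lit 341611615199443676923590080715999412480) (nat_lit 1)) (.cons (.ev (nat_lit 2668861106003594152034296124992913411) (nat_lit 2)) .nil))) (.cons (.br (nat_lit 14) (nat_lit 0) (.cons (.kr (nat_lit 2658455992188801765450305361833623553) (nat_lit 20361638979814121421989568708608) (nat_lit 0) (nat_lit 1)) (.cons (.br (nat_lit 15) (nat_lit 0) (.cons (.ev (nat_lit 7996157682238958390878699636299661319) (nat_lit 3)) .nil)) .nil))) (.cons (.br (nat_lit 16) (nat_lit 0) (.cons (.ev (nat_lit 20789867849951722331549145709674503) (nat_lit 3)) (.cons (.br (nat_lit 14) (nat_lit 0) (.cons (.ev (nat_lit 5337701532834189414325588221057302535) (nat_lit 3)) .nil)) (.cons (.ev (nat_lit 1361129488047256997392290190638194885635) (nat_lit 3)) .nil)))) .nil))))) .nil)))))),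
 (.br (nat_lit 6) (nat_lit 0) (.cons (.rf (nat_lit 1114) (nat_lit 583706118939841765935136)) (.cons (.rf (nat_lit 1116) (nat_lit 583706118939841765935136)) (.cons (.br (nat_lit 7) (nat_lit 0) (.cons (.ev (nat_lit 20362260367722440385082379207171) (nat_lit 2)) (.cons (.br (nat_lit 8) (nat_lit 0) (.cons (.kr (nat_lit 79229376199343924343606345731) (nat_lit 2658476273979435397622716205841514496) (nat_lit 0) (nat_lit 1)) (.cons (.br (nat_lit 15) (nat_lit 0) (.cons (.ev (nat_lit 2689630610352810890053733103068774917) (nat_lit 3)) (.cons (.rf (nat_lit 1) (nat_lit 582172322901185)) .nil))) .nil))) (.cons (.br (nat_lit 8) (nat_lit 0) (.cons (.ev (nat_lit 51943489306943028566754548475101699) (nat_lit 4)) (.cons (.br (nat_lit 14) (nat_lit 0) (.cons (.ev (nat_lit 10404955356049506416087421545349123) (nat_lit 2)) (.cons (.rf (nat_lit 1) (nat_lit 582139036904641)) .nil))) .nil))) (.cons (.br (nat_lit 8) (nat_lit 0) (.cons (.br (nat_lit 15) (nat_lit 0) (.cons (.ev (nat_lit 16002679438721059799550702322205458947) (nat_lit 4)) (.cons (.rf (nat_lit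 1) (nat_lit 582172355407041)) .nil))) (.cons (.br (nat_lit 14) (nat_lit 0) (.cons (.ev (nat_lit 10404955356049506416087421545349123) (nat_lit 2)) (.cons (.rf (nat_lit 1) (nat_lit 582139069410497)) .nil))) (.cons (.ev (nat_lit 20362260367722440382874732462593) (nat_lit 2)) (.cons (.br (nat_lit 14) (nat_lit 0) (.cons (.ev (nat_lit 2658476353827781579571166609095655937) (nat_lit 2)) (.cons (.br (nat_lit 15) (nat_lit 0) (.cons (.ev (nat_lit 341611615199443676923590080715999412480) (nat_lit 1)) (.cons (.rf (nat_lit 203) (nat_lit 610412626262313076776)) .nil))) (.cons (.br (nat_lit 15) (nat_lit 0) (.cons (.rf (nat_lit 2) (nat_lit 19068711944034790593)) (.cons (.ev (nat_lit 87113615159835569214743255757703656505600) (nat_lit 1)) .nil))) .nil)))) .nil))))) .nil))))) (.cons (.kr (nat_lit 79229371440083953326542028801) (nat_lit 20282409608374037469766850052096) (nat_lit 0) (nat_lit 1)) (.cons (.br (nat_lit 7) (nat_lit 0) (.cons (.ev (nat_lit 2658476511665136625494754994228822531) (nat_lit 2)) (.cons (.br (nat_lit 8) (nat_lit 0) (.cons (.kr (nat_lit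 618974778903224104467300353) (nat_lit 20361638975091898492461869170688) (nat_lit 0) (nat_lit 1)) (.cons (.br (nat_lit 14) (nat_lit 0) (.cons (.ev (nat_lit 10404955356049506416087421545349123) (nat_lit 2)) (.cons (.rf (nat_lit 1) (nat_lit 582134741941441)) .nil))) .nil))) (.cons (.br (nat_lit 8) (nat_lit 0) (.cons (.ev (nat_lit 41559374670193946177926251197759489) (nat_lit 4)) (.cons (.br (nat_lit 11) (nat_lit 0) (.cons (.ev (nat_lit 18640367038235645401417715432229834241) (nat_lit 4)) (.cons (.rf (nat_lit 1) (nat_lit 582034883951809)) .nil))) .nil))) (.cons (.br (nat_lit 8) (nat_lit 0) (.cons (.br (nat_lit 14) (nat_lit 0) (.cons (.ev (nat_lit 10404955356049506416087421545349123) (nat_lit 2)) (.cons (.rf (nat_lit 1) (nat_lit 582134774447297)) .nil))) (.cons (.br (nat_lit 11) (nat_lit 0) (.cons (.ev (nat_lit 7985773407296275036365015170429224455) (nat_lit 3)) (.cons (.rf (nat_lit 1) (nat_lit 582034916457665)) .nil))) (.cons (.ev (nat_lit 2658476511665136625494752786582077953) (nat_lit 2)) (.cons (.br (nat_lit 11) (nat_lit 0) (.cons (.ev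 (nat_lit 10405114431344517549851618234728451) (nat_lit 2)) (.cons (.br (nat_lit 14) (nat_lit 0) (.cons (.ev (nat_lit 341611615199443676923590080715999412480) (nat_lit 1)) (.cons (.rf (nat_lit 203) (nat_lit 646157771131823786023)) .nil))) (.cons (.br (nat_lit 14) (nat_lit 0) (.cons (.rf (nat_lit 2) (nat_lit 20184335677833428161)) (.cons (.ev (nat_lit 87113615159835569214743255757703656505600) (nat_lit 1)) .nil))) .nil)))) .nil))))) .nil))))) (.cons (.br (nat_lit 7) (nat_lit 0) (.cons (.br (nat_lit 11) (nat_lit 0) (.cons (.kr (nat_lit 309485028268089142434332673) (nat_lit 79228162514336395187581943808) (nat_lit 0) (nat_lit 1)) (.cons (.br (nat_lit 14) (nat_lit 0) (.cons (.ev (nat_lit 2668861106003594152034298332639657985) (nat_lit 2)) (.cons (.rf (nat_lit 1) (nat_lit 582139169022177)) .nil))) (.cons (.kr (nat_lit 620178982355794017866743811) (nat_lit 20361637770888445922548469989376) (nat_lit 0) (nat_lit 1)) (.cons (.br (nat_lit 15) (nat_lit 0) (.cons (.kr (nat_lit 1208944266358702884257793) (nat_lit 1329227995784915872975864654318338048)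 (nat_lit 0) (nat_lit 1)) (.cons (.kr (nat_lit 20282410817336750572543443730433) (nat_lit 2658456070797994260216068006003867648) (nat_lit 0) (nat_lit 1)) (.cons (.kr (nat_lit 310693972534447845318590466) (nat_lit 1329228075013078387312259841900281856) (nat_lit 0) (nat_lit 1)) .nil)))) .nil))))) (.cons (.br (nat_lit 14) (nat_lit 0) (.cons (.br (nat_lit 15) (nat_lit 0) (.cons (.ev (nat_lit 2668860946925890659919063945901637633) (nat_lit 2)) (.cons (.rf (nat_lit 1) (nat_lit 582172354358497)) .nil))) (.cons (.rf (nat_lit 1114) (nat_lit 76927750760771359129034)) (.cons (.ev (nat_lit 10405114433771813922046615874568195) (nat_lit 2)) (.cons (.br (nat_lit 8) (nat_lit 0) (.cons (.kr (nat_lit 309485028268089142434332673) (nat_lit 20282409603651742481541289279488) (nat_lit 0) (nat_lit 1)) (.cons (.br (nat_lit 15) (nat_lit 0) (.cons (.ev (nat_lit 341611615278362354446551874908566126849) (nat_lit 1)) (.cons (.br (nat_lit 16) (nat_lit 0) (.cons (.ev (nat_lit 341611594996262235786183994362292076800) (nat_lit 1)) .nil)) .nil))) (.cons (.br (nat_lit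 15) (nat_lit 0) (.cons (.rf (nat_lit 2) (nat_lit 19068711944033742049)) (.cons (.ev (nat_lit 87113620352053199582352771986825744023553) (nat_lit 1)) .nil))) .nil)))) .nil))))) (.cons (.br (nat_lit 16) (nat_lit 0) (.cons (.ev (nat_lit 10404955358476802788282419185188867) (nat_lit 2)) (.cons (.ev (nat_lit 10405114433771813922046615874568195) (nat_lit 2)) (.cons (.ev (nat_lit 2668860946925890659919066153548382211) (nat_lit 2)) (.cons (.br (nat_lit 16) (nat_lit 0) (.cons (.ev (nat_lit 10404955358476802788282419185188867) (nat_lit 2)) (.cons (.ev (nat_lit 10405114433771813922046615874568195) (nat_lit 2)) (.cons (.ev (nat_lit 2668860946925890659919066153548382211) (nat_lit 2)) .nil)))) .nil))))) (.cons (.br (nat_lit 11) (nat_lit 0) (.cons (.kr (nat_lit 20282409608374036906816896499712) (nat_lit 1329227996094400882725152129005125632) (nat_lit 9) (nat_lit 0)) (.cons (.rf (nat_lit 1116) (nat_lit 227964940008006042955212)) (.cons (.br (nat_lit 8) (nat_lit 0) (.cons (.ev (nat_lit 10405114433771813922044408227823617) (nat_lit 2)) (.cons (.ev (nat_lit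 340282367000477324654165470735581118720) (nat_lit 1)) (.cons (.br (nat_lit 14) (nat_lit 0) (.cons (.ev (nat_lit 2668860946925890659919066153548382211) (nat_lit 2)) (.cons (.rf (nat_lit 203) (nat_lit 646157771131823818790)) .nil))) .nil)))) (.cons (.br (nat_lit 14) (nat_lit 0) (.cons (.rf (nat_lit 1) (nat_lit 582034915409121)) (.cons (.ev (nat_lit 2668860946925890659919066153548382211) (nat_lit 2)) (.cons (.br (nat_lit 17) (nat_lit 0) (.cons (.ev (nat_lit 87113620352053199582352771986825744023553) (nat_lit 1)) (.cons (.rf (nat_lit 392) (nat_lit 19995058929054103708704105)) .nil))) .nil)))) .nil))))) (.cons (.rf (nat_lit 1117) (nat_lit 19926519232773908561233952)) (.cons (.br (nat_lit 8) (nat_lit 0) (.cons (.br (nat_lit 14) (nat_lit 0) (.cons (.rf (nat_lit 1) (nat_lit 581898751520001)) (.cons (.ev (nat_lit 10405114433771813922044408227823617) (nat_lit 2)) (.cons (.br (nat_lit 15) (nat_lit 0) (.cons (.rf (nat_lit 203) (nat_lit 646153192905125398566)) (.cons (.ev (nat_lit 87113620352053199582352771986825744023553) (nat_lit 1)) .nil)))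 .nil)))) (.cons (.br (nat_lit 11) (nat_lit 0) (.cons (.rf (nat_lit 1) (nat_lit 581898650859777)) (.cons (.ev (nat_lit 10405114433771813922044408227823617) (nat_lit 2)) (.cons (.br (nat_lit 15) (nat_lit 0) (.cons (.ev (nat_lit 2668861106001185745128034813580673025) (nat_lit 2)) (.cons (.ev (nat_lit 87112291144419052437349650622508156583936) (nat_lit 1)) .nil))) .nil)))) (.cons (.br (nat_lit 14) (nat_lit 0) (.cons (.rf (nat_lit 1) (nat_lit 581897577118977)) (.cons (.ev (nat_lit 2668860946925890659919063945901637633) (nat_lit 2)) (.cons (.br (nat_lit 11) (nat_lit 0) (.cons (.rf (nat_lit 2) (nat_lit 19067442970243448065)) (.cons (.ev (nat_lit 87113620352053199582352771986825744023553) (nat_lit 1)) .nil))) .nil)))) (.cons (.br (nat_lit 11) (nat_lit 0) (.cons (.br (nat_lit 15) (nat_lit 0) (.cons (.kr (nat_lit 2658455992188801765450305361833623553) (nat_lit 20361638979814121421989568708608) (nat_lit 0) (nat_lit 1)) (.cons (.br (nat_lit 16) (nat_lit 0) (.cons (.ev (nat_lit 1369104856495471304027954554455057499143) (nat_lit 3)) .nil)) .nil)))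 (.cons (.br (nat_lit 14) (nat_lit 0) (.cons (.ev (nat_lit 341611615199443676923590079612176040193) (nat_lit 1)) (.cons (.ev (nat_lit 2668861106003594152034296124992913411) (nat_lit 2)) .nil))) (.cons (.br (nat_lit 14) (nat_lit 0) (.cons (.kr (nat_lit 2658455992188801765450305361833623553) (nat_lit 20361638979814121421989568708608) (nat_lit 0) (nat_lit 1)) (.cons (.br (nat_lit 15) (nat_lit 0) (.cons (.ev (nat_lit 2679246017254720698884660560952033287) (nat_lit 3)) .nil)) .nil))) (.cons (.br (nat_lit 14) (nat_lit 0) (.cons (.rf (nat_lit 1117) (nat_lit 20628666684209467329134026)) (.cons (.ev (nat_lit 1361129488362931707336563414818785330183) (nat_lit 3)) (.cons (.ev (nat_lit 20789867849951722331549145709674503) (nat_lit 3)) .nil)))) .nil))))) (.cons (.br (nat_lit 11) (nat_lit 0) (.cons (.br (nat_lit 15) (nat_lit 0) (.cons (.kr (nat_lit 2658455992188801765450305361833623553) (nat_lit 20361638979814121421989568708608) (nat_lit 0) (nat_lit 1)) (.cons (.ev (nat_lit 87113620372335300914624288361535342903296) (nat_lit 1)) .nil))) (.cons (.br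 (nat_lit 14) (nat_lit 0) (.cons (.ev (nat_lit 2668861106003594152034296124992913411) (nat_lit 2)) (.cons (.ev (nat_lit 87113620352053199582352771986825744023553) (nat_lit 1)) .nil))) (.cons (.br (nat_lit 14) (nat_lit 0) (.cons (.kr (nat_lit 2658455992188801765450305361833623553) (nat_lit 20361638979814121421989568708608) (nat_lit 0) (nat_lit 1)) (.cons (.ev (nat_lit 20789867849951722331549145709674503) (nat_lit 3)) (.cons (.ev (nat_lit 348449164516590685948195085574545969512451) (nat_lit 3)) .nil)))) (.cons (.br (nat_lit 14) (nat_lit 0) (.cons (.ev (nat_lit 87112291144419052437349650622508156583936) (nat_lit 1)) (.cons (.br (nat_lit 15) (nat_lit 0) (.cons (.ev (nat_lit 7996157682238958390878699636299661319) (nat_lit 3)) .nil)) .nil))) .nil))))) .nil)))))) .nil))))))) .nil))))))),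
 (.br (nat_lit 6) (nat_lit 0) (.cons (.ev (nat_lit 31175097254114477863464028824931845) (nat_lit 4)) (.cons (.br (nat_lit 11) (nat_lit 0) (.cons (.ev (nat_lit 5348086601925079339641241605603852803) (nat_lit 3)) (.cons (.rf (nat_lit 1) (nat_lit 582034915572801)) .nil))) .nil))),
 (.br (nat_lit 11) (nat_lit 0) (.cons (.ev (nat_lit 5192376708089991098520887313498881) (nat_lit 2)) (.cons (.ev (nat_lit 20362260367722440382874766017027) (nat_lit 2)) (.cons (.br (nat_lit 15) (nat_lit 0) (.cons (.ev (nat_lit 2658476511665136625494752786615632387) (nat_lit 2)) (.cons (.rf (nat_lit 2) (nat_lit 19076484354218891329)) .nil))) .nil)))),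
 (.br (nat_lit 15) (nat_lit 0) (.cons (.ev (nat_lit 1329248357422682057357652843328176128) (nat_lit 1)) .nil)),
 (.br (nat_lit 14) (nat_lit 0) (.cons (.ev (nat_lit 20520097722694288766796489163267) (nat_lit 2)) (.cons (.ev (nat_lit 20520097722694289329737852518913) (nat_lit 2)) (.cons (.br (nat_lit 2) (nat_lit 0) (.cons (.br (nat_lit 11) (nat_lit 0) (.cons (.ev (nat_lit 72712838287421725217582089442166285) (nat_lit 4)) (.cons (.rf (nat_lit 179) (nat_lit 18968472625699067969)) .nil))) (.cons (.br (nat_lit 6) (nat_lit 0) (.cons (.ev (nat_lit 51943331469588056429014385020371465) (nat_lit 4)) (.cons (.br (nat_lit 15) (nat_lit 0) (.cons (.ev (nat_lit 16002679280883704827414088041476915717) (nat_lit 4)) (.cons (.rf (nat_lit 1) (nat_lit 582172354522177)) .nil))) .nil))) (.cons (.rf (nat_lit 1119) (nat_lit 583706118939841765935136)) (.cons (.br (nat_lit 6) (nat_lit 0) (.cons (.rf (nat_lit 1119) (nat_lit 227964940008006042955212)) (.cons (.br (nat_lit 11) (nat_lit 0) (.cons (.ev (nat_lit 15981911046668231543998694698808249865) (nat_lit 4))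 (.cons (.rf (nat_lit 1) (nat_lit 582034911378625)) .nil))) (.cons (.ev (nat_lit 281479305429505) (nat_lit 2)) (.cons (.br (nat_lit 11) (nat_lit 0) (.cons (.rf (nat_lit 1) (nat_lit 581864287090945)) (.cons (.br (nat_lit 15) (nat_lit 0) (.cons (.ev (nat_lit 1339612828118564322609727874206269442) (nat_lit 2)) (.cons (.kr (nat_lit 20282409608374037188291873275904) (nat_lit 1329227996094400882725153228533530624) (nat_lit 2) (nat_lit 0)) .nil))) (.cons (.br (nat_lit 15) (nat_lit 0) (.cons (.kr (nat_lit 20282409608374037188291873275904) (nat_lit 1329227996094400882725153228533530624) (nat_lit 2) (nat_lit 0)) (.cons (.ev (nat_lit 1339612828118564322609727874206269442) (nat_lit 2)) .nil))) .nil)))) .nil))))) .nil))))) (.cons (.rf (nat_lit 1118) (nat_lit 227964940008006042955212)) (.cons (.rf (nat_lit 1118) (nat_lit 76927750760771359129034)) (.cons (.br (nat_lit 2) (nat_lit 0) (.cons (.br (nat_lit 16) (nat_lit 0) (.cons (.rf (nat_lit 1120) (nat_lit 19926519232773908561233952)) (.cons (.ev (nat_lit 10405114433771813922046615841013761) (nat_lit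 2)) (.cons (.ev (nat_lit 2668860946925890659919066153514827777) (nat_lit 2)) (.cons (.br (nat_lit 16) (nat_lit 0) (.cons (.rf (nat_lit 1120) (nat_lit 19926519232773908561233952)) (.cons (.ev (nat_lit 10405114433771813922046615841013761) (nat_lit 2)) (.cons (.ev (nat_lit 2668860946925890659919066153514827777) (nat_lit 2)) .nil)))) .nil))))) (.cons (.br (nat_lit 15) (nat_lit 0) (.cons (.kr (nat_lit 20282410817336750009597802053633) (nat_lit 2658456070797994260216068001692254208) (nat_lit 0) (nat_lit 1)) (.cons (.ev (nat_lit 2658476353830208875943359399122305537) (nat_lit 2)) (.cons (.br (nat_lit 11) (nat_lit 0) (.cons (.ev (nat_lit 7985773246978223171845117682651629057) (nat_lit 3)) (.cons (.ev (nat_lit 681904346669993063952986745532456108032) (nat_lit 2)) (.cons (.br (nat_lit 16) (nat_lit 0) (.cons (.ev (nat_lit 1369136009801258401908578905718970778113) (nat_lit 3)) (.cons (.ev (nat_lit 1363798328631917684626489287292859057665) (nat_lit 3)) .nil))) .nil)))) (.cons (.br (nat_lit 6) (nat_lit 0) (.cons (.rf (nat_lit 1) (nat_lit 582169074573377))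 (.cons (.br (nat_lit 11) (nat_lit 0) (.cons (.ev (nat_lit 1361160642302539250738559198337698234881) (nat_lit 3)) (.cons (.ev (nat_lit 1339612828118564322610290815569887232) (nat_lit 2)) .nil))) (.cons (.br (nat_lit 11) (nat_lit 0) (.cons (.br (nat_lit 16) (nat_lit 0) (.cons (.ev (nat_lit 1361139872798192480333952407773452305921) (nat_lit 3)) .nil)) (.cons (.ev (nat_lit 87112285952042965735303910073220680646913) (nat_lit 1)) .nil))) .nil)))) .nil))))) (.cons (.br (nat_lit 8) (nat_lit 0) (.cons (.br (nat_lit 15) (nat_lit 0) (.cons (.ev (nat_lit 7985773246978223171844550360421369347) (nat_lit 3)) (.cons (.rf (nat_lit 1) (nat_lit 582165853350977)) .nil))) (.cons (.kr (nat_lit 4740813226943354765313) (nat_lit 1329227995784915872975864654318338048) (nat_lit 0) (nat_lit 1)) (.cons (.br (nat_lit 6) (nat_lit 0) (.cons (.ev (nat_lit 31174460945633506017334475133944325) (nat_lit 3)) (.cons (.ev (nat_lit 340282367000476111005979091766079389953) (nat_lit 1)) (.cons (.br (nat_lit 15) (nat_lit 0) (.cons (.ev (nat_lit 2658476511665136625494752786615632387)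 (nat_lit 2)) (.cons (.rf (nat_lit 2) (nat_lit 20185604651621788737)) .nil))) .nil)))) (.cons (.br (nat_lit 15) (nat_lit 0) (.cons (.rf (nat_lit 1) (nat_lit 616223863974977)) (.cons (.br (nat_lit 16) (nat_lit 0) (.cons (.ev (nat_lit 341611615199443676923589799236727800065) (nat_lit 1)) (.cons (.ev (nat_lit 340287559297026369749605892922387005440) (nat_lit 1)) .nil))) (.cons (.ev (nat_lit 2658476511665136625494752786615632387) (nat_lit 2)) .nil)))) .nil))))) (.cons (.br (nat_lit 6) (nat_lit 0) (.cons (.ev (nat_lit 18609213411822077272379996752803006479) (nat_lit 4)) (.cons (.br (nat_lit 8) (nat_lit 0) (.cons (.ev (nat_lit 10404956598825323055132909936707077) (nat_lit 3)) (.cons (.rf (nat_lit 1) (nat_lit 616219569011777)) .nil))) (.cons (.br (nat_lit 8) (nat_lit 0) (.cons (.ev (nat_lit 5348086601920224746895721312303448579) (nat_lit 3)) (.cons (.ev (nat_lit 341611594916724588280616830793265709313) (nat_lit 1)) (.cons (.br (nat_lit 11) (nat_lit 0) (.cons (.ev (nat_lit 341611615199443676923589799236727800065) (nat_lit 1)) (.cons (.ev (nat_lit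 20362260367722440382874766017027) (nat_lit 2)) .nil))) .nil)))) (.cons (.br (nat_lit 8) (nat_lit 0) (.cons (.rf (nat_lit 1) (nat_lit 616219634023489)) (.cons (.br (nat_lit 11) (nat_lit 0) (.cons (.ev (nat_lit 20362260367722440382874766017027) (nat_lit 2)) (.cons (.rf (nat_lit 203) (nat_lit 610417204489011403814)) .nil))) (.cons (.br (nat_lit 11) (nat_lit 0) (.cons (.rf (nat_lit 618) (nat_lit 19986346312283995490400748)) (.cons (.ev (nat_lit 20362260367722440382874766017027) (nat_lit 2)) .nil))) .nil)))) .nil))))) (.cons (.br (nat_lit 6) (nat_lit 0) (.cons (.br (nat_lit 11) (nat_lit 0) (.cons (.ev (nat_lit 2658476353830208875943922357665530371) (nat_lit 2)) (.cons (.ev (nat_lit 1361160642302539250738558639811560997379) (nat_lit 3)) (.cons (.br (nat_lit 15) (nat_lit 0) (.cons (.ev (nat_lit 1369136009801258401908580590196554203651) (nat_lit 3)) (.cons (.ev (nat_lit 1339612828118564322610290815569887232) (nat_lit 2)) .nil))) .nil)))) (.cons (.br (nat_lit 8) (nat_lit 0) (.cons (.ev (nat_lit 1329227995784930095415826963687801344) (nat_lit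 2)) (.cons (.ev (nat_lit 340282367000476111005979091766079389953) (nat_lit 1)) (.cons (.br (nat_lit 15) (nat_lit 0) (.cons (.ev (nat_lit 341611615199443676923590080715999412480) (nat_lit 1)) (.cons (.ev (nat_lit 2658476511665136625494752786615632387) (nat_lit 2)) .nil))) .nil)))) (.cons (.br (nat_lit 8) (nat_lit 0) (.cons (.ev (nat_lit 80160249098966273058939077122) (nat_lit 2)) (.cons (.ev (nat_lit 341611594916724588280616830793265709313) (nat_lit 1)) (.cons (.br (nat_lit 11) (nat_lit 0) (.cons (.ev (nat_lit 341611615199443676923590080715999412480) (nat_lit 1)) (.cons (.ev (nat_lit 20362260367722440382874766017027) (nat_lit 2)) .nil))) .nil)))) (.cons (.ev (nat_lit 281479305429505) (nat_lit 2)) (.cons (.br (nat_lit 8) (nat_lit 0) (.cons (.br (nat_lit 15) (nat_lit 0) (.cons (.ev (nat_lit 1366456784781332124862601832734579361281) (nat_lit 3)) (.cons (.br (nat_lit 16) (nat_lit 0) (.cons (.ev (nat_lit 1366456785099477898218630782264222549509) (nat_lit 3)) .nil)) .nil))) (.cons (.br (nat_lit 11) (nat_lit 0) (.cons (.ev (nat_lit 1369115240615057366934071701093875058181)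 (nat_lit 3)) (.cons (.br (nat_lit 16) (nat_lit 0) (.cons (.ev (nat_lit 1363798328631917684626489287292859057665) (nat_lit 3)) .nil)) .nil))) (.cons (.br (nat_lit 11) (nat_lit 0) (.cons (.ev (nat_lit 4102070307672700384458998838288634611207) (nat_lit 4)) (.cons (.ev (nat_lit 20362260367722440945833309504001) (nat_lit 2)) .nil))) (.cons (.br (nat_lit 11) (nat_lit 0) (.cons (.br (nat_lit 16) (nat_lit 0) (.cons (.ev (nat_lit 2622247883294000693101088313641156474575901) (nat_lit 5)) .nil)) (.cons (.ev (nat_lit 20362260367722440945833309504001) (nat_lit 2)) (.cons (.ev (nat_lit 20362260367722440382874766017027) (nat_lit 2)) .nil)))) .nil))))) .nil)))))) (.cons (.br (nat_lit 6) (nat_lit 0) (.cons (.br (nat_lit 11) (nat_lit 0) (.cons (.ev (nat_lit 2658476353830208875943922357665530371) (nat_lit 2)) (.cons (.br (nat_lit 16) (nat_lit 0) (.cons (.ev (nat_lit 681904346669993063952986745532456108032) (nat_lit 2)) (.cons (.ev (nat_lit 1361139872798192480333951840451222046211) (nat_lit 3)) .nil))) (.cons (.br (nat_lit 15) (nat_lit 0) (.cons (.br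 (nat_lit 16) (nat_lit 0) (.cons (.ev (nat_lit 1363798328631917684626490980566535505411) (nat_lit 3)) .nil)) (.cons (.ev (nat_lit 87112285952042965735303910073220680646913) (nat_lit 1)) .nil))) .nil)))) (.cons (.br (nat_lit 8) (nat_lit 0) (.cons (.ev (nat_lit 1329227995784930095415826963687801344) (nat_lit 2)) (.cons (.br (nat_lit 15) (nat_lit 0) (.cons (.ev (nat_lit 2658476511665136625494752786615632387) (nat_lit 2)) (.cons (.rf (nat_lit 2) (nat_lit 20185604651617594561)) .nil))) (.cons (.br (nat_lit 15) (nat_lit 0) (.cons (.rf (nat_lit 1121) (nat_lit 21174442659472880612543553)) (.cons (.ev (nat_lit 2658476511665136625494752786615632387) (nat_lit 2)) .nil))) .nil)))) (.cons (.br (nat_lit 8) (nat_lit 0) (.cons (.ev (nat_lit 80160249098966273058939077122) (nat_lit 2)) (.cons (.br (nat_lit 11) (nat_lit 0) (.cons (.ev (nat_lit 20362260367722440382874766017027) (nat_lit 2)) (.cons (.rf (nat_lit 203) (nat_lit 610417204489011534882)) .nil))) (.cons (.br (nat_lit 11) (nat_lit 0) (.cons (.rf (nat_lit 358) (nat_lit 19998303219625700237910509))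 (.cons (.ev (nat_lit 20362260367722440382874766017027) (nat_lit 2)) .nil))) .nil)))) (.cons (.br (nat_lit 8) (nat_lit 0) (.cons (.br (nat_lit 16) (nat_lit 0) (.cons (.ev (nat_lit 1361139873116338215764051435186330535431) (nat_lit 3)) (.cons (.ev (nat_lit 1361139872798192480333951840451222046211) (nat_lit 3)) .nil))) (.cons (.br (nat_lit 16) (nat_lit 0) (.cons (.ev (nat_lit 1363798328947597249163507468825318655491) (nat_lit 3)) (.cons (.ev (nat_lit 1369115240930736893839155511506545935879) (nat_lit 3)) .nil))) (.cons (.br (nat_lit 11) (nat_lit 0) (.cons (.ev (nat_lit 1369156779468401550589111983638092710407) (nat_lit 4)) (.cons (.ev (nat_lit 20362260367722440945833309504001) (nat_lit 2)) .nil))) (.cons (.br (nat_lit 16) (nat_lit 0) (.cons (.ev (nat_lit 20362260367722440945833309504001) (nat_lit 2)) (.cons (.ev (nat_lit 2658476511665136625495315745159119361) (nat_lit 2)) (.cons (.kr (nat_lit 680564754124286535300786122779944550401) (nat_lit 174224571863599722664687882957292354666496) (nat_lit 0) (nat_lit 1)) .nil)))) .nil))))) (.cons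 (.ev (nat_lit 281479305429505) (nat_lit 2)) .nil)))))) .nil))))))) .nil)))))))]

theorem c60 : chkAll C T R L60 (nat_lit 1113) = true := by decide +kernel

theorem l60 : (nat_lit 1113) + L60.length = (nat_lit 1123) := by decide +kernel

/-- part of the certificates -/
def L61 : List Prf := [(.br (nat_lit 8) (nat_lit 0) (.cons (.kr (nat_lit 5192296858534846147332164076699904) (nat_lit 1329227996094400882725433603981901824) (nat_lit 1) (nat_lit 0)) (.cons (.br (nat_lit 15) (nat_lit 0) (.cons (.ev (nat_lit 2668861106001185745127469664604127235) (nat_lit 2)) (.cons (.rf (nat_lit 1) (nat_lit 582164773451841)) .nil))) .nil))),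
 (.br (nat_lit 7) (nat_lit 0) (.cons (.kr (nat_lit 5192296858534846147332164076699904) (nat_lit 1329227996094400882725433603981901824) (nat_lit 1) (nat_lit 0)) (.cons (.br (nat_lit 15) (nat_lit 0) (.cons (.ev (nat_lit 2668861106001185745127469664604127235) (nat_lit 2)) (.cons (.rf (nat_lit 1) (nat_lit 582165846145089)) .nil))) .nil))),
 (.br (nat_lit 8) (nat_lit 0) (.cons (.kr (nat_lit 5192296858534846147332164076699904) (nat_lit 1329227996094400882725433603981901824) (nat_lit 1) (nat_lit 0)) (.cons (.br (nat_lit 15) (nat_lit 0) (.cons (.ev (nat_lit 2668861106001185745128032605967482881) (nat_lit 2)) (.cons (.rf (nat_lit 1) (nat_lit 582172289637441)) .nil))) .nil))),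
 (.br (nat_lit 7) (nat_lit 0) (.cons (.kr (nat_lit 5192296858534846147332164076699904) (nat_lit 1329227996094400882725433603981901824) (nat_lit 1) (nat_lit 0)) (.cons (.br (nat_lit 15) (nat_lit 0) (.cons (.ev (nat_lit 2668861106001185745128032605967482881) (nat_lit 2)) (.cons (.rf (nat_lit 1) (nat_lit 582172288589889)) .nil))) .nil))),
 (.br (nat_lit 8) (nat_lit 0) (.cons (.ev (nat_lit 340287579579745458392579140646080675840) (nat_lit 1)) (.cons (.br (nat_lit 16) (nat_lit 0) (.cons (.ev (nat_lit 1369125625365992812244375440539349286913) (nat_lit 3)) .nil)) .nil))),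
 (.br (nat_lit 14) (nat_lit 0) (.cons (.br (nat_lit 6) (nat_lit 0) (.cons (.rf (nat_lit 1123) (nat_lit 583706118939841765935136)) (.cons (.rf (nat_lit 1124) (nat_lit 583706118939841765935136)) (.cons (.ev (nat_lit 20520095314287383066218793533953) (nat_lit 2)) (.cons (.br (nat_lit 15) (nat_lit 0) (.cons (.rf (nat_lit 1124) (nat_lit 227964940008006042955212)) (.cons (.rf (nat_lit 1123) (nat_lit 227964940008006042955212)) (.cons (.kr (nat_lit 60847228825122111283404938018817) (nat_lit 2658456071418173205534259779314122752) (nat_lit 0) (nat_lit 1)) (.cons (.br (nat_lit 7) (nat_lit 0) (.cons (.kr (nat_lit 20282409608374108964415229460480) (nat_lit 310693954087704871137443840) (nat_lit 2) (nat_lit 0)) (.cons (.br (nat_lit 8) (nat_lit 0) (.cons (.ev (nat_lit 340287559297025165546153041538322530305) (nat_lit 1)) (.cons (.br (nat_lit 16) (nat_lit 0) (.cons (.ev (nat_lit 1363808713382857984382541618135490101251) (nat_lit 3)) .nil)) .nil))) (.cons (.br (nat_lit 8) (nat_lit 0) (.cons (.br (nat_lit 16) (nat_lit 0) (.cons (.ev (nat_lit 1363808713701008574552383094703251259399)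 (nat_lit 3)) .nil)) (.cons (.ev (nat_lit 87113615159835569214743255476224368115968) (nat_lit 1)) .nil))) .nil)))) .nil))))) .nil))))) (.cons (.br (nat_lit 2) (nat_lit 0) (.cons (.rf (nat_lit 1125) (nat_lit 583706118939841765935136)) (.cons (.rf (nat_lit 1126) (nat_lit 583706118939841765935136)) (.cons (.ev (nat_lit 20520095314287382503277430178307) (nat_lit 2)) (.cons (.br (nat_lit 15) (nat_lit 0) (.cons (.rf (nat_lit 1125) (nat_lit 76927750760771359129034)) (.cons (.rf (nat_lit 1126) (nat_lit 76927750760771359129034)) (.cons (.kr (nat_lit 60847228825122111283404938018817) (nat_lit 2658456071418173205534259779314122752) (nat_lit 0) (nat_lit 1)) (.cons (.br (nat_lit 7) (nat_lit 0) (.cons (.kr (nat_lit 79228162514336395191876845568) (nat_lit 309485028268370617411043328) (nat_lit 4) (nat_lit 0)) (.cons (.rf (nat_lit 1127) (nat_lit 677582165103132179601393696)) (.cons (.rf (nat_lit 1127) (nat_lit 639598686326899604778696138)) .nil)))) .nil))))) .nil))))) (.cons (.ev (nat_lit 10405114433771813921483657331081217) (nat_lit 2)) (.cons (.ev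 (nat_lit 10405114433771813921481466864205827) (nat_lit 2)) (.cons (.kr (nat_lit 20361638979814120859043910123521) (nat_lit 2658455992188801765450305357538656256) (nat_lit 0) (nat_lit 1)) (.cons (.br (nat_lit 15) (nat_lit 0) (.cons (.ev (nat_lit 20520095314287382503277430178307) (nat_lit 2)) (.cons (.ev (nat_lit 20520095314287383066218793533953) (nat_lit 2)) (.cons (.br (nat_lit 2) (nat_lit 0) (.cons (.br (nat_lit 8) (nat_lit 0) (.cons (.ev (nat_lit 31174460945633506018460357760516615) (nat_lit 3)) (.cons (.rf (nat_lit 1) (nat_lit 616223897655361)) .nil))) (.cons (.br (nat_lit 6) (nat_lit 0) (.cons (.ev (nat_lit 10405114433771813922044408227823617) (nat_lit 2)) (.cons (.rf (nat_lit 1) (nat_lit 616223895560257)) .nil))) (.cons (.br (nat_lit 6) (nat_lit 0) (.cons (.ev (nat_lit 10405114433771813922044408227823617) (nat_lit 2)) (.cons (.ev (nat_lit 340287559218106488023190965866484203521) (nat_lit 1)) (.cons (.br (nat_lit 8) (nat_lit 0) (.cons (.ev (nat_lit 4102070308304059513531881153966085506567) (nat_lit 4)) (.cons (.br (nat_lit 16)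 (nat_lit 0) (.cons (.zr (nat_lit 1361139852673617780746212858471733264896) (nat_lit 2658557404236843635636527192353406977) (nat_lit 16) (nat_lit 14)) .nil)) .nil))) .nil)))) (.cons (.br (nat_lit 6) (nat_lit 0) (.cons (.rf (nat_lit 1) (nat_lit 616223891366081)) (.cons (.br (nat_lit 8) (nat_lit 0) (.cons (.ev (nat_lit 4086078034297927670383778818983815286283) (nat_lit 4)) (.cons (.br (nat_lit 16) (nat_lit 0) (.cons (.zr (nat_lit 1363798308269659725311243398334711333383) (nat_lit 20520097722694290453434475085824) (nat_lit 16) (nat_lit 1)) .nil)) .nil))) (.cons (.br (nat_lit 17) (nat_lit 0) (.cons (.ev (nat_lit 87112285931839785507814690084365793231105) (nat_lit 1)) (.cons (.ev (nat_lit 174224582268634927065061721333151847088128) (nat_lit 2)) .nil))) .nil)))) .nil))))) (.cons (.br (nat_lit 2) (nat_lit 0) (.cons (.br (nat_lit 7) (nat_lit 0) (.cons (.ev (nat_lit 31174460945633506018460357760516615) (nat_lit 3)) (.cons (.rf (nat_lit 1) (nat_lit 616223930161217)) .nil))) (.cons (.br (nat_lit 6) (nat_lit 0) (.cons (.ev (nat_lit 10405114433771813922046615874568195)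 (nat_lit 2)) (.cons (.rf (nat_lit 1) (nat_lit 616223929113665)) .nil))) (.cons (.br (nat_lit 6) (nat_lit 0) (.cons (.ev (nat_lit 10405114433771813922046615874568195) (nat_lit 2)) (.cons (.ev (nat_lit 340287559218106488023190965866484203521) (nat_lit 1)) (.cons (.br (nat_lit 7) (nat_lit 0) (.cons (.ev (nat_lit 4086078034297927670383778829936082554373) (nat_lit 4)) (.cons (.br (nat_lit 16) (nat_lit 0) (.cons (.zr (nat_lit 1363798308269659725311243398343301267973) (nat_lit 20520097722694290455633464786944) (nat_lit 16) (nat_lit 1)) .nil)) .nil))) .nil)))) (.cons (.br (nat_lit 6) (nat_lit 0) (.cons (.rf (nat_lit 1) (nat_lit 616223924919489)) (.cons (.br (nat_lit 7) (nat_lit 0) (.cons (.ev (nat_lit 4102070308304059513531881151775685740037) (nat_lit 4)) (.cons (.br (nat_lit 16) (nat_lit 0) (.cons (.zr (nat_lit 1361139852673617780746212860666427998721) (nat_lit 2658557404236843635636527196648374272) (nat_lit 16) (nat_lit 14)) .nil)) .nil))) (.cons (.br (nat_lit 17) (nat_lit 0) (.cons (.ev (nat_lit 87112285931839785507814690085461026668800)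 (nat_lit 1)) (.cons (.ev (nat_lit 174224582268634927065061721333151847088128) (nat_lit 2)) .nil))) .nil)))) .nil))))) (.cons (.br (nat_lit 2) (nat_lit 0) (.cons (.ev (nat_lit 2668860946925890659919066153514827777) (nat_lit 2)) (.cons (.br (nat_lit 6) (nat_lit 0) (.cons (.ev (nat_lit 10675382704650786922558230945407303683) (nat_lit 4)) (.cons (.ev (nat_lit 10405114433771813922046615874568195) (nat_lit 2)) (.cons (.br (nat_lit 16) (nat_lit 0) (.cons (.ev (nat_lit 341611615199443676923589798141511139585) (nat_lit 1)) (.cons (.ev (nat_lit 341611615199443676923590080715982635265) (nat_lit 1)) .nil))) .nil)))) (.cons (.br (nat_lit 6) (nat_lit 0) (.cons (.kr (nat_lit 281474976776192) (nat_lit 1099528404992) (nat_lit 2) (nat_lit 0)) (.cons (.ev (nat_lit 10405114433771813922044408227823617) (nat_lit 2)) (.cons (.br (nat_lit 16) (nat_lit 0) (.cons (.ev (nat_lit 341611615199443676923589798141511139585) (nat_lit 1)) (.cons (.ev (nat_lit 341611615199443676923590080715982635265) (nat_lit 1)) .nil))) .nil)))) (.cons (.br (nat_lit 6) (nat_lit 0) (.cons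 (.ev (nat_lit 10405114433771813922046615874568195) (nat_lit 2)) (.cons (.ev (nat_lit 10405114433771813922044408227823617) (nat_lit 2)) (.cons (.br (nat_lit 7) (nat_lit 0) (.cons (.kr (nat_lit 60926456987636519173245194338305) (nat_lit 2658455992808980747806100470638837760) (nat_lit 0) (nat_lit 1)) (.cons (.br (nat_lit 8) (nat_lit 0) (.cons (.ev (nat_lit 2679246017254720698882971736861704197) (nat_lit 3)) .nil)) .nil))) .nil)))) (.cons (.br (nat_lit 16) (nat_lit 0) (.cons (.br (nat_lit 7) (nat_lit 0) (.cons (.kr (nat_lit 20282410817336750572543443730433) (nat_lit 2658456070797994260216068006003867648) (nat_lit 0) (nat_lit 1)) (.cons (.br (nat_lit 8) (nat_lit 0) (.cons (.ev (nat_lit 7996157682238958390878699636299661319) (nat_lit 3)) .nil)) .nil))) (.cons (.br (nat_lit 8) (nat_lit 0) (.cons (.ev (nat_lit 341611615199443676923590079612192817408) (nat_lit 1)) (.cons (.ev (nat_lit 2679246017254720698882971736861704197) (nat_lit 3)) .nil))) (.cons (.br (nat_lit 7) (nat_lit 0) (.cons (.ev (nat_lit 341611615199443676923590079612192817408)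 (nat_lit 1)) (.cons (.ev (nat_lit 1363787944196656949408032724651943789573) (nat_lit 3)) .nil))) (.cons (.ev (nat_lit 341611594996261031582730580028274311425) (nat_lit 1)) .nil))))) .nil)))))) (.cons (.br (nat_lit 2) (nat_lit 0) (.cons (.br (nat_lit 7) (nat_lit 0) (.cons (.rf (nat_lit 1) (nat_lit 582165887031361)) (.cons (.rf (nat_lit 238) (nat_lit 677545531022323295864231971)) (.cons (.rf (nat_lit 910) (nat_lit 639951983286235853203971267)) .nil)))) (.cons (.br (nat_lit 6) (nat_lit 0) (.cons (.kr (nat_lit 281474976776192) (nat_lit 1099528404992) (nat_lit 2) (nat_lit 0)) (.cons (.ev (nat_lit 10405114433771813922046615874568195) (nat_lit 2)) (.cons (.br (nat_lit 8) (nat_lit 0) (.cons (.rf (nat_lit 2) (nat_lit 20185604651621915713)) (.cons (.ev (nat_lit 87112285931839785507814690084365793231105) (nat_lit 1)) .nil))) .nil)))) (.cons (.br (nat_lit 6) (nat_lit 0) (.cons (.kr (nat_lit 281474976776192) (nat_lit 1099528404992) (nat_lit 2) (nat_lit 0)) (.cons (.ev (nat_lit 10405114433771813922044408227823617) (nat_lit 2)) (.cons (.br (nat_lit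 7) (nat_lit 0) (.cons (.rf (nat_lit 203) (nat_lit 610412626262312919110)) (.cons (.ev (nat_lit 87112285931839785507814690085461026668800) (nat_lit 1)) .nil))) .nil)))) (.cons (.br (nat_lit 6) (nat_lit 0) (.cons (.ev (nat_lit 10405114433771813922046615874568195) (nat_lit 2)) (.cons (.ev (nat_lit 10405114433771813922044408227823617) (nat_lit 2)) (.cons (.ev (nat_lit 340287579579745458392579141741280559105) (nat_lit 1)) (.cons (.br (nat_lit 7) (nat_lit 0) (.cons (.kr (nat_lit 20282410817336750572543443730433) (nat_lit 2658456070797994260216068006003867648) (nat_lit 0) (nat_lit 1)) (.cons (.br (nat_lit 8) (nat_lit 0) (.cons (.ev (nat_lit 2679246017254720698882971736861704197) (nat_lit 3)) .nil)) (.cons (.br (nat_lit 8) (nat_lit 0) (.cons (.ev (nat_lit 2679246017254720698884097619588939777) (nat_lit 3)) .nil)) .nil)))) .nil))))) (.cons (.br (nat_lit 6) (nat_lit 0) (.cons (.br (nat_lit 8) (nat_lit 0) (.cons (.rf (nat_lit 2) (nat_lit 20185604651617721537)) (.cons (.ev (nat_lit 87112285931839785507814690084365793231105) (nat_lit 1)) .nil)))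 (.cons (.br (nat_lit 7) (nat_lit 0) (.cons (.rf (nat_lit 203) (nat_lit 610412626262312919234)) (.cons (.ev (nat_lit 87112285931839785507814690085461026668800) (nat_lit 1)) .nil))) (.cons (.br (nat_lit 7) (nat_lit 0) (.cons (.kr (nat_lit 60926456987636519173245194338305) (nat_lit 2658455992808980747806100470638837760) (nat_lit 0) (nat_lit 1)) (.cons (.br (nat_lit 8) (nat_lit 0) (.cons (.ev (nat_lit 7996157682238958390877573753572950019) (nat_lit 3)) .nil)) (.cons (.br (nat_lit 8) (nat_lit 0) (.cons (.ev (nat_lit 7996157682238958390878699636299661319) (nat_lit 3)) .nil)) .nil)))) (.cons (.kr (nat_lit 40564819216748074095113064742913) (nat_lit 2658455992188801765450306457067061248) (nat_lit 0) (nat_lit 1)) .nil))))) .nil)))))) .nil))))))) .nil))))))),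
 (.br (nat_lit 11) (nat_lit 0) (.cons (.ev (nat_lit 10405590431388437398647752828389889) (nat_lit 4)) (.cons (.br (nat_lit 15) (nat_lit 0) (.cons (.ev (nat_lit 1339612828118564322610288625136566272) (nat_lit 2)) (.cons (.rf (nat_lit 1) (nat_lit 582165883983937)) .nil))) .nil))),
 (.br (nat_lit 6) (nat_lit 0) (.cons (.ev (nat_lit 1407153175971485135500444338667980554) (nat_lit 4)) (.cons (.br (nat_lit 11) (nat_lit 0) (.cons (.ev (nat_lit 2663689012634785990402150394386055936) (nat_lit 2)) (.cons (.rf (nat_lit 1) (nat_lit 582028439796801)) .nil))) .nil))),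
 (.br (nat_lit 15) (nat_lit 0) (.cons (.kr (nat_lit 60847230034084824386181531697155) (nat_lit 5316912062986796025666374458775961600) (nat_lit 0) (nat_lit 1)) (.cons (.kr (nat_lit 20361641397702654139395337093121) (nat_lit 5316911983758633511402034670470168576) (nat_lit 0) (nat_lit 1)) (.cons (.kr (nat_lit 20282409608374037188291873275904) (nat_lit 1329227996094400882725153228533530624) (nat_lit 2) (nat_lit 0)) (.cons (.kr (nat_lit 20282410817336750572543443730433) (nat_lit 2658456070797994260216068006003867648) (nat_lit 0) (nat_lit 1)) .nil))))),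
 (.br (nat_lit 11) (nat_lit 0) (.cons (.ev (nat_lit 13292300955187302233527180185733302285) (nat_lit 4)) (.cons (.ev (nat_lit 1361160641826551305744153940767390564871) (nat_lit 3)) (.cons (.br (nat_lit 15) (nat_lit 0) (.cons (.ev (nat_lit 1361139872956024980713344625487667791363) (nat_lit 3)) (.cons (.ev (nat_lit 1339612828118564322610288625136566272) (nat_lit 2)) .nil))) .nil)))),
 (.br (nat_lit 6) (nat_lit 0) (.cons (.ev (nat_lit 7975388656358421467305997337006573569) (nat_lit 4)) (.cons (.ev (nat_lit 1361160641826551305744153940767390564871) (nat_lit 3)) (.cons (.br (nat_lit 15) (nat_lit 0) (.cons (.ev (nat_lit 1361160642144697078952608933326490698243) (nat_lit 3)) (.cons (.br (nat_lit 16) (nat_lit 0) (.cons (.ev (nat_lit 681899154214371151142640642270045537024) (nat_lit 2)) .nil)) .nil))) .nil)))),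
 (.br (nat_lit 6) (nat_lit 0) (.cons (.ev (nat_lit 10404956601271508893822327521019395) (nat_lit 3)) (.cons (.ev (nat_lit 1361139872956024980713344625487667791363) (nat_lit 3)) (.cons (.br (nat_lit 11) (nat_lit 0) (.cons (.ev (nat_lit 1361160642144697078952608933326490698243) (nat_lit 3)) (.cons (.ev (nat_lit 20679177853483066115389665575939) (nat_lit 3)) .nil))) .nil)))),
 (.br (nat_lit 11) (nat_lit 0) (.cons (.rf (nat_lit 1) (nat_lit 581933012031553)) (.cons (.br (nat_lit 15) (nat_lit 0) (.cons (.ev (nat_lit 340287579579744254189126009981751066625) (nat_lit 1)) (.cons (.br (nat_lit 16) (nat_lit 0) (.cons (.ev (nat_lit 1363798328789759894191371419676319942151) (nat_lit 3)) .nil)) .nil))) (.cons (.br (nat_lit 15) (nat_lit 0) (.cons (.br (nat_lit 16) (nat_lit 0) (.cons (.ev (nat_lit 1369136009961571637106860226567941128707) (nat_lit 3)) .nil)) (.cons (.ev (nat_lit 87112291124057415875387169275301379244033) (nat_lit 1)) .nil))) .nil)))),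
 (.br (nat_lit 6) (nat_lit 0) (.cons (.rf (nat_lit 1) (nat_lit 581932844264513)) (.cons (.br (nat_lit 15) (nat_lit 0) (.cons (.ev (nat_lit 340287579579744254189126009981751066625) (nat_lit 1)) (.cons (.br (nat_lit 16) (nat_lit 0) (.cons (.ev (nat_lit 1369104856179796594083681330274467054595) (nat_lit 3)) .nil)) .nil))) (.cons (.br (nat_lit 15) (nat_lit 0) (.cons (.br (nat_lit 16) (nat_lit 0) (.cons (.ev (nat_lit 1369104856495476158620698948865563558919) (nat_lit 3)) .nil)) (.cons (.ev (nat_lit 87112291124057415875387169275301379244033) (nat_lit 1)) .nil))) .nil)))),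
 (.br (nat_lit 8) (nat_lit 0) (.cons (.ev (nat_lit 340287559218106488023191248440955830273) (nat_lit 1)) (.cons (.ev (nat_lit 341616787292811290326357662655230050305) (nat_lit 1)) (.cons (.br (nat_lit 11) (nat_lit 0) (.cons (.ev (nat_lit 2735613543570550967376482030145570735113) (nat_lit 4)) (.cons (.ev (nat_lit 20362260367722440945833275949571) (nat_lit 2)) .nil))) .nil)))),
 (.br (nat_lit 17) (nat_lit 0) (.cons (.kr (nat_lit 174224571863599722664687882957292337889281) (nat_lit 680564754124286535300786122779961327616) (nat_lit 0) (nat_lit 1)) (.cons (.ev (nat_lit 340287579579745458392579141741280559105) (nat_lit 1)) (.cons (.ev (nat_lit 341616787292811290326357661560030167040) (nat_lit 1)) .nil)))),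
 (.br (nat_lit 16) (nat_lit 0) (.cons (.rf (nat_lit 1137) (nat_lit 19926519232773908561233952)) (.cons (.rf (nat_lit 1137) (nat_lit 19775253772033136884095012)) (.cons (.ev (nat_lit 10405114433771813922046615841013761) (nat_lit 2)) (.cons (.ev (nat_lit 2668860946925890659919066153514827777) (nat_lit 2)) (.cons (.br (nat_lit 17) (nat_lit 0) (.cons (.rf (nat_lit 1138) (nat_lit 677582165103132179601393696)) (.cons (.rf (nat_lit 1138) (nat_lit 677430899642391407924254756)) (.cons (.ev (nat_lit 340287559218106488023191247345755947008) (nat_lit 1)) (.cons (.ev (nat_lit 341616787292811290326357661560030167040) (nat_lit 1)) .nil))))) .nil))))))]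

theorem c61 : chkAll C T R L61 (nat_lit 1123) = true := by decide +kernel

theorem l61 : (nat_lit 1123) + L61.length = (nat_lit 1140) := by decide +kernel

/-- part of the certificates -/
def L62 : List Prf := [(.br (nat_lit 11) (nat_lit 0) (.cons (.ev (nat_lit 1329227995786129521090186034093752576) (nat_lit 1)) (.cons (.rf (nat_lit 465) (nat_lit 19925188865965262840693828)) .nil))),
 (.br (nat_lit 16) (nat_lit 0) (.cons (.ev (nat_lit 681893962075659442129726508442816020994) (nat_lit 2)) .nil)),
 (.br (nat_lit 6) (nat_lit 0) (.cons (.kr (nat_lit 281474976776192) (nat_lit 1099528404992) (nat_lit 2) (nat_lit 0)) (.cons (.br (nat_lit 8) (nat_lit 0) (.cons (.ev (nat_lit 2668861424159038915197755954594973189) (nat_lit 3)) (.cons (.ev (nat_lit 20362260367722440382874732462593) (nat_lit 2)) (.cons (.br (nat_lit 15) (nat_lit 0) (.cons (.ev (nat_lit 340282366920939677111560986405581619456) (nat_lit 1)) (.cons (.rf (nat_lit 648) (nat_lit 21163289120880059947033037)) .nil))) .nil)))) (.cons (.br (nat_lit 8) (nat_lit 0) (.cons (.ev (nat_lit 31174618780580071248245987733799425)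 (nat_lit 3)) (.cons (.ev (nat_lit 2658476511665136625494752786582077953) (nat_lit 2)) (.cons (.rf (nat_lit 1140) (nat_lit 21174442622281864334903328)) .nil)))) (.cons (.br (nat_lit 8) (nat_lit 0) (.cons (.ev (nat_lit 1361139872798192480333952403392585664001) (nat_lit 3)) (.cons (.ev (nat_lit 1369115240930736893839156074447909553669) (nat_lit 3)) (.cons (.br (nat_lit 11) (nat_lit 0) (.cons (.ev (nat_lit 2658476353830208875943924548065296897) (nat_lit 2)) (.cons (.ev (nat_lit 340282367000476111005979092861312827648) (nat_lit 1)) .nil))) .nil)))) (.cons (.br (nat_lit 11) (nat_lit 0) (.cons (.br (nat_lit 15) (nat_lit 0) (.cons (.ev (nat_lit 1366456784781332124862601832734579361281) (nat_lit 3)) (.cons (.rf (nat_lit 1141) (nat_lit 677582165103132179601393696)) .nil))) (.cons (.rf (nat_lit 1139) (nat_lit 19419740864594838154427850)) (.cons (.br (nat_lit 15) (nat_lit 0) (.cons (.ev (nat_lit 1369115240615057366934071701093875058181) (nat_lit 3)) (.cons (.ev (nat_lit 1369115240615057366934072270640864298501) (nat_lit 3)) .nil))) (.cons (.br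 (nat_lit 8) (nat_lit 0) (.cons (.rf (nat_lit 1141) (nat_lit 677430899642392477442344992)) (.cons (.br (nat_lit 15) (nat_lit 0) (.cons (.ev (nat_lit 681893962075659442129726788818264130050) (nat_lit 2)) .nil)) (.cons (.ev (nat_lit 348449174901344097273436384998224946004481) (nat_lit 3)) .nil)))) .nil))))) .nil)))))),
 (.br (nat_lit 7) (nat_lit 0) (.cons (.kr (nat_lit 281474976776192) (nat_lit 1099528404992) (nat_lit 2) (nat_lit 0)) (.cons (.br (nat_lit 6) (nat_lit 0) (.cons (.ev (nat_lit 10405114433771887709588051099780609) (nat_lit 3)) (.cons (.ev (nat_lit 1361160642302539250738559198337698234881) (nat_lit 3)) (.cons (.br (nat_lit 15) (nat_lit 0) (.cons (.ev (nat_lit 1366477554285678933193137982474226631169) (nat_lit 3)) (.cons (.br (nat_lit 16) (nat_lit 0) (.cons (.ev (nat_lit 681893962075659442129726506235236385280) (nat_lit 2)) .nil)) .nil))) .nil)))) (.cons (.rf (nat_lit 1142) (nat_lit 19419740864594838154427850)) (.cons (.br (nat_lit 11) (nat_lit 0) (.cons (.ev (nat_lit 20362260367722440382874732462593) (nat_lit 2)) (.cons (.ev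 (nat_lit 341611594996261031582730581123474194688) (nat_lit 1)) (.cons (.br (nat_lit 15) (nat_lit 0) (.cons (.ev (nat_lit 2658476511665136625494752786582077953) (nat_lit 2)) (.cons (.ev (nat_lit 681904407279536183161751873946461929475) (nat_lit 2)) .nil))) .nil)))) (.cons (.br (nat_lit 11) (nat_lit 0) (.cons (.br (nat_lit 15) (nat_lit 0) (.cons (.ev (nat_lit 340282366920939677111560986405581619456) (nat_lit 1)) (.cons (.rf (nat_lit 138) (nat_lit 21164690806692509095737708)) .nil))) (.cons (.rf (nat_lit 1139) (nat_lit 19419740864594838154427850)) (.cons (.br (nat_lit 6) (nat_lit 0) (.cons (.ev (nat_lit 340282366920939677111560986405581619456) (nat_lit 1)) (.cons (.br (nat_lit 15) (nat_lit 0) (.cons (.ev (nat_lit 1369136010119404137485676553042416108033) (nat_lit 3)) .nil)) .nil))) (.cons (.br (nat_lit 6) (nat_lit 0) (.cons (.rf (nat_lit 138) (nat_lit 21164690806692508963486186)) (.cons (.ev (nat_lit 340282367000476111005979092861312827648) (nat_lit 1)) (.cons (.ev (nat_lit 348449154132473575802998895412156452308481) (nat_lit 3)) .nil))))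 .nil))))) .nil)))))),
 (.br (nat_lit 6) (nat_lit 0) (.cons (.rf (nat_lit 1143) (nat_lit 19775253772033136884095012)) (.cons (.rf (nat_lit 1142) (nat_lit 19775253772033136884095012)) (.cons (.br (nat_lit 7) (nat_lit 0) (.cons (.ev (nat_lit 18671520501862506808081299464050050061) (nat_lit 4)) (.cons (.ev (nat_lit 2730255093525746728685253466639561264133) (nat_lit 4)) (.cons (.br (nat_lit 8) (nat_lit 0) (.cons (.ev (nat_lit 2730296631266789669560232638776548656133) (nat_lit 4)) (.cons (.br (nat_lit 16) (nat_lit 0) (.cons (.zr (nat_lit 1361129569095801895723682963841620115463) (nat_lit 2668840665135242897829487057421074944) (nat_lit 16) (nat_lit 1)) .nil)) .nil))) .nil)))) (.cons (.ev (nat_lit 340287579579745458392578860270598750208) (nat_lit 1)) (.cons (.br (nat_lit 15) (nat_lit 0) (.cons (.rf (nat_lit 1142) (nat_lit 19419740864594838154427850)) (.cons (.rf (nat_lit 1143) (nat_lit 19419740864594838154427850)) (.cons (.ev (nat_lit 340282366920939677111560704934899941633) (nat_lit 1)) (.cons (.br (nat_lit 7) (nat_lit 0) (.cons (.kr (nat_lit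 20282410817336750572543443730433) (nat_lit 2658456070797994260216068006003867648) (nat_lit 0) (nat_lit 1)) (.cons (.br (nat_lit 8) (nat_lit 0) (.cons (.ev (nat_lit 2668860948168685365735812727121905157) (nat_lit 3)) .nil)) (.cons (.ev (nat_lit 2689630452515455770342612087393747457) (nat_lit 3)) .nil)))) .nil))))) .nil)))))),
 (.br (nat_lit 6) (nat_lit 0) (.cons (.rf (nat_lit 1143) (nat_lit 19775253772033136884095012)) (.cons (.rf (nat_lit 1142) (nat_lit 19775253772033136884095012)) (.cons (.br (nat_lit 7) (nat_lit 0) (.cons (.ev (nat_lit 13354608203052968854973941851531641865) (nat_lit 4)) (.cons (.ev (nat_lit 2724979720235630731835354682660733453313) (nat_lit 4)) (.cons (.br (nat_lit 8) (nat_lit 0) (.cons (.ev (nat_lit 2724938181226937191026141092770508311553) (nat_lit 4)) (.cons (.br (nat_lit 16) (nat_lit 0) (.cons (.zr (nat_lit 1361129569095801895723682963841620115463) (nat_lit 2668840665135242897829487057421074944) (nat_lit 16) (nat_lit 1)) .nil)) .nil))) .nil)))) (.cons (.ev (nat_lit 341616807495991517815577370039435657216) (nat_lit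 1)) (.cons (.br (nat_lit 11) (nat_lit 0) (.cons (.rf (nat_lit 1143) (nat_lit 19570778053842072838254028)) (.cons (.rf (nat_lit 1142) (nat_lit 19570778053842072838254028)) (.cons (.ev (nat_lit 340282366920939677111560704934899941633) (nat_lit 1)) (.cons (.br (nat_lit 7) (nat_lit 0) (.cons (.ev (nat_lit 5327317415728861178945440326164416005) (nat_lit 3)) (.cons (.ev (nat_lit 1366456784781332124862603523783496304129) (nat_lit 3)) (.cons (.ev (nat_lit 348449154132473575802998895412156452308481) (nat_lit 3)) .nil)))) .nil))))) .nil)))))),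
 (.br (nat_lit 6) (nat_lit 0) (.cons (.rf (nat_lit 1143) (nat_lit 19775253772033136884095012)) (.cons (.rf (nat_lit 1142) (nat_lit 19775253772033136884095012)) (.cons (.ev (nat_lit 340287579579745458392578860270598750208) (nat_lit 1)) (.cons (.ev (nat_lit 341616807495991517815577370039435657216) (nat_lit 1)) (.cons (.br (nat_lit 11) (nat_lit 0) (.cons (.rf (nat_lit 1143) (nat_lit 19570778053842072838254028)) (.cons (.rf (nat_lit 1142) (nat_lit 19570778053842072838254028)) (.cons (.ev (nat_lit 2658476353830208875943361606701941251) (nat_lit 2)) (.cons (.br (nat_lit 7) (nat_lit 0) (.cons (.rf (nat_lit 1131) (nat_lit 677582165103132179601393696)) (.cons (.ev (nat_lit 1366456784781332124862603523783496304129) (nat_lit 3)) (.cons (.ev (nat_lit 348449154132473575802998895412156452308481) (nat_lit 3)) .nil)))) .nil))))) .nil)))))),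
 (.br (nat_lit 17) (nat_lit 0) (.cons (.br (nat_lit 11) (nat_lit 0) (.cons (.ev (nat_lit 696911621292778203491363571114754875719693) (nat_lit 4)) (.cons (.ev (nat_lit 20362260367722440945833275949571) (nat_lit 2)) .nil))) (.cons (.ev (nat_lit 10405114433771813922046615841013761) (nat_lit 2)) (.cons (.ev (nat_lit 2668860946925890659919066153514827777) (nat_lit 2)) (.cons (.br (nat_lit 16) (nat_lit 0) (.cons (.br (nat_lit 11) (nat_lit 0) (.cons (.ev (nat_lit 5322104361090548115032035652134110465) (nat_lit 3)) .nil)) (.cons (.ev (nat_lit 87112291124057414671183715860967361347584) (nat_lit 1)) (.cons (.ev (nat_lit 87113620372335299700976102265140346355713) (nat_lit 1)) .nil)))) .nil))))),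
 (.br (nat_lit 17) (nat_lit 0) (.cons (.rf (nat_lit 1147) (nat_lit 677582165103132179601393696)) (.cons (.rf (nat_lit 1147) (nat_lit 677430899642391407924254756)) (.cons (.ev (nat_lit 10405114433771813922046615841013761) (nat_lit 2)) (.cons (.ev (nat_lit 2668860946925890659919066153514827777) (nat_lit 2)) (.cons (.br (nat_lit 17) (nat_lit 0) (.cons (.rf (nat_lit 1147) (nat_lit 677582165103132179601393696)) (.cons (.rf (nat_lit 1147) (nat_lit 677430899642391407924254756)) (.cons (.ev (nat_lit 10405114433771813922046615841013761) (nat_lit 2)) (.cons (.ev (nat_lit 2668860946925890659919066153514827777) (nat_lit 2)) .nil))))) .nil)))))),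
 (.br (nat_lit 16) (nat_lit 0) (.cons (.ev (nat_lit 680564733841876926926749496342808297987) (nat_lit 2)) (.cons (.ev (nat_lit 1369115240930732077025344108160687801861) (nat_lit 3)) (.cons (.ev (nat_lit 1363798328631922539219235372752147842561) (nat_lit 3)) .nil)))),
 (.br (nat_lit 16) (nat_lit 0) (.cons (.ev (nat_lit 680564733841876926926749496342808297987) (nat_lit 2)) (.cons (.ev (nat_lit 1366456785099482715032445000351190353409) (nat_lit 3)) (.cons (.ev (nat_lit 1361139872798187625741208578529135953413) (nat_lit 3)) .nil)))),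
 (.br (nat_lit 6) (nat_lit 0) (.cons (.kr (nat_lit 281474976776192) (nat_lit 1099528404992) (nat_lit 2) (nat_lit 0)) (.cons (.br (nat_lit 8) (nat_lit 0) (.cons (.rf (nat_lit 1) (nat_lit 582139063282882)) (.cons (.ev (nat_lit 20362260367722440382874732462593) (nat_lit 2)) (.cons (.br (nat_lit 15) (nat_lit 0) (.cons (.rf (nat_lit 2) (nat_lit 19068711944028662978)) (.cons (.ev (nat_lit 87113620352053199582352772268305032413185) (nat_lit 1)) .nil))) .nil)))) (.cons (.br (nat_lit 8) (nat_lit 0) (.cons (.rf (nat_lit 1) (nat_lit 582134768319682)) (.cons (.ev (nat_lit 2658476511665136625494752786582077953) (nat_lit 2)) (.cons (.br (nat_lit 11) (nat_lit 0) (.cons (.rf (nat_lit 203) (nat_lit 646157771131823791169)) (.cons (.ev (nat_lit 87113620352053199582352772268305032413185) (nat_lit 1)) .nil))) .nil)))) (.cons (.br (nat_lit 11) (nat_lit 0) (.cons (.br (nat_lit 15) (nat_lit 0) (.cons (.ev (nat_lit 340282387203657552143385179215020163328) (nat_lit 1)) (.cons (.rf (nat_lit 1149) (nat_lit 677582165103132179601393696)) .nil))) (.cons (.ev (nat_lit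 2658476353830208875943924548065296897) (nat_lit 2)) (.cons (.br (nat_lit 15) (nat_lit 0) (.cons (.ev (nat_lit 340282387203657552143385459590468534528) (nat_lit 1)) (.cons (.rf (nat_lit 1149) (nat_lit 639749723516146839462522316)) .nil))) (.cons (.br (nat_lit 15) (nat_lit 0) (.cons (.rf (nat_lit 1150) (nat_lit 677582165103132179601393696)) (.cons (.br (nat_lit 8) (nat_lit 0) (.cons (.ev (nat_lit 1361139872798187625741208578529135953413) (nat_lit 3)) .nil)) (.cons (.ev (nat_lit 174225911476348609430274036535734243950592) (nat_lit 2)) .nil)))) .nil))))) (.cons (.br (nat_lit 11) (nat_lit 0) (.cons (.br (nat_lit 15) (nat_lit 0) (.cons (.br (nat_lit 16) (nat_lit 0) (.cons (.ev (nat_lit 1369115240615062183747884793298048517633) (nat_lit 3)) .nil)) (.cons (.ev (nat_lit 87112291124136334552910130788023264149505) (nat_lit 1)) .nil))) (.cons (.rf (nat_lit 1148) (nat_lit 639598686326899604778696138)) (.cons (.br (nat_lit 16) (nat_lit 0) (.cons (.ev (nat_lit 1361139873116343070356796953254737217029) (nat_lit 3)) (.cons (.ev (nat_lit 1339612828118564322610288625103011842)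 (nat_lit 2)) (.cons (.ev (nat_lit 1361139873116343070356795831752943732229) (nat_lit 3)) .nil)))) (.cons (.br (nat_lit 8) (nat_lit 0) (.cons (.ev (nat_lit 87112291124136334552910130788023264149505) (nat_lit 1)) (.cons (.br (nat_lit 15) (nat_lit 0) (.cons (.ev (nat_lit 1369115240615062183747884793298048517633) (nat_lit 3)) .nil)) .nil))) .nil))))) .nil)))))),
 (.br (nat_lit 7) (nat_lit 0) (.cons (.kr (nat_lit 281474976776192) (nat_lit 1099528404992) (nat_lit 2) (nat_lit 0)) (.cons (.br (nat_lit 6) (nat_lit 0) (.cons (.kr (nat_lit 1329227995784915872975865753829900288) (nat_lit 4740813508418331475968) (nat_lit 5) (nat_lit 0)) (.cons (.br (nat_lit 15) (nat_lit 0) (.cons (.ev (nat_lit 340282387203657552143385178119786725633) (nat_lit 1)) (.cons (.br (nat_lit 16) (nat_lit 0) (.cons (.ev (nat_lit 1369136009801253547315835076474587841025) (nat_lit 3)) .nil)) .nil))) (.cons (.br (nat_lit 15) (nat_lit 0) (.cons (.br (nat_lit 16) (nat_lit 0) (.cons (.ev (nat_lit 1363819097818113902787185655928687165953) (nat_lit 3)) .nil)) (.cons (.ev (nat_lit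 87112291124136334552910130786919474331648) (nat_lit 1)) .nil))) .nil)))) (.cons (.rf (nat_lit 1151) (nat_lit 639598686326899604778696138)) (.cons (.br (nat_lit 6) (nat_lit 0) (.cons (.ev (nat_lit 20362260367722440382874732462593) (nat_lit 2)) (.cons (.ev (nat_lit 2658476511665136625494752786582077953) (nat_lit 2)) (.cons (.br (nat_lit 11) (nat_lit 0) (.cons (.ev (nat_lit 2658476353830208875943924548065296897) (nat_lit 2)) (.cons (.rf (nat_lit 1150) (nat_lit 639598686326899604778696138)) .nil))) (.cons (.br (nat_lit 15) (nat_lit 0) (.cons (.rf (nat_lit 2) (nat_lit 20184113390465334626)) (.cons (.ev (nat_lit 1363819097818113902787184525630800658945) (nat_lit 3)) (.cons (.br (nat_lit 11) (nat_lit 0) (.cons (.ev (nat_lit 1366477554285674078600395283527729676801) (nat_lit 3)) .nil)) .nil)))) .nil))))) (.cons (.br (nat_lit 11) (nat_lit 0) (.cons (.br (nat_lit 15) (nat_lit 0) (.cons (.rf (nat_lit 203) (nat_lit 646153192905125339201)) (.cons (.ev (nat_lit 87113620352053199582352772269400232296448) (nat_lit 1)) .nil))) (.cons (.rf (nat_lit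 1148) (nat_lit 639598686326899604778696138)) (.cons (.br (nat_lit 15) (nat_lit 0) (.cons (.rf (nat_lit 2) (nat_lit 19067442970238401730)) (.cons (.ev (nat_lit 1329288843323226004835875891131318787) (nat_lit 2)) (.cons (.br (nat_lit 6) (nat_lit 0) (.cons (.ev (nat_lit 1369136009801253547315835076474587841025) (nat_lit 3)) .nil)) .nil)))) (.cons (.br (nat_lit 6) (nat_lit 0) (.cons (.ev (nat_lit 87113620352053199582352772269400232296448) (nat_lit 1)) (.cons (.ev (nat_lit 348449154132155425212976051427426131248641) (nat_lit 3)) .nil))) .nil))))) .nil)))))),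
 (.br (nat_lit 8) (nat_lit 0) (.cons (.ev (nat_lit 2740868148621494913972011359432830224393) (nat_lit 4)) (.cons (.ev (nat_lit 7980560510495317091585710043099825415) (nat_lit 3)) .nil))),
 (.br (nat_lit 15) (nat_lit 0) (.cons (.rf (nat_lit 1151) (nat_lit 639598686326899604778696138)) (.cons (.rf (nat_lit 1152) (nat_lit 639598686326899604778696138)) (.cons (.br (nat_lit 7) (nat_lit 0) (.cons (.kr (nat_lit 20282410817336750572543443730433) (nat_lit 2658456070797994260216068006003867648) (nat_lit 0) (nat_lit 1)) (.cons (.br (nat_lit 8) (nat_lit 0) (.cons (.ev (nat_lit 7975388811717450174457255025937744899) (nat_lit 3)) .nil)) .nil))) (.cons (.br (nat_lit 7) (nat_lit 0) (.cons (.br (nat_lit 16) (nat_lit 0) (.cons (.ev (nat_lit 1369136009801253547315835076474587841025) (nat_lit 3)) .nil)) (.cons (.ev (nat_lit 2689630452515455770342612087393747457) (nat_lit 3)) (.cons (.ev (nat_lit 348451833357493497225452129221062651019781) (nat_lit 3)) .nil)))) .nil))))),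
 (.br (nat_lit 6) (nat_lit 0) (.cons (.rf (nat_lit 1152) (nat_lit 677430899642391407924254756)) (.cons (.rf (nat_lit 1151) (nat_lit 677430899642391407924254756)) (.cons (.br (nat_lit 7) (nat_lit 0) (.cons (.rf (nat_lit 1) (nat_lit 582131513670850)) (.cons (.rf (nat_lit 1153) (nat_lit 677582165103132179601393696)) (.cons (.rf (nat_lit 1153) (nat_lit 639598686326899604778696138)) .nil)))) (.cons (.rf (nat_lit 1154) (nat_lit 677582165103132179601393696)) (.cons (.br (nat_lit 15) (nat_lit 0) (.cons (.rf (nat_lit 1151) (nat_lit 639598686326899604778696138)) (.cons (.rf (nat_lit 1152) (nat_lit 639598686326899604778696138)) (.cons (.br (nat_lit 7) (nat_lit 0) (.cons (.br (nat_lit 16) (nat_lit 0) (.cons (.ev (nat_lit 1369115240615062183747884793298048517633) (nat_lit 3)) .nil)) (.cons (.ev (nat_lit 2689630452515455770342612087393747457) (nat_lit 3)) (.cons (.ev (nat_lit 348451812588304829981805608177336313972229) (nat_lit 3)) .nil)))) (.cons (.rf (nat_lit 1154) (nat_lit 639749723516146839462522316)) .nil))))) .nil))))))]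

theorem c62 : chkAll C T R L62 (nat_lit 1140) = true := by decide +kernel

theorem l62 : (nat_lit 1140) + L62.length = (nat_lit 1156) := by decide +kernel

/-- part of the certificates -/
def L63 : List Prf := [(.br (nat_lit 8) (nat_lit 0) (.cons (.ev (nat_lit 2724917411725066300700679262912524453893) (nat_lit 4)) (.cons (.ev (nat_lit 2663790265304083079409258346982671620) (nat_lit 3)) .nil))),
 (.br (nat_lit 8) (nat_lit 0) (.cons (.ev (nat_lit 87456566428268255175132063572552296103938) (nat_lit 2)) .nil)),
 (.br (nat_lit 11) (nat_lit 0) (.cons (.rf (nat_lit 1152) (nat_lit 639749723516146839462522316)) (.cons (.rf (nat_lit 1151) (nat_lit 639749723516146839462522316)) (.cons (.br (nat_lit 7) (nat_lit 0) (.cons (.ev (nat_lit 1377080224630501344723726970352510437385) (nat_lit 4)) (.cons (.br (nat_lit 8) (nat_lit 0) (.cons (.ev (nat_lit 1366446400030396679699872608854504375299) (nat_lit 3)) .nil)) .nil))) (.cons (.br (nat_lit 7) (nat_lit 0) (.cons (.ev (nat_lit 5327317415728861178945440326164416005) (nat_lit 3)) (.cons (.rf (nat_lit 1157)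 (nat_lit 677582165103132179601393696)) (.cons (.rf (nat_lit 1157) (nat_lit 639598686326899604778696138)) .nil)))) .nil))))),
 (.br (nat_lit 8) (nat_lit 0) (.cons (.ev (nat_lit 88137120777517031584571559187310830486016) (nat_lit 2)) .nil)),
 (.br (nat_lit 6) (nat_lit 0) (.cons (.rf (nat_lit 1152) (nat_lit 677430899642391407924254756)) (.cons (.rf (nat_lit 1151) (nat_lit 677430899642391407924254756)) (.cons (.br (nat_lit 7) (nat_lit 0) (.cons (.rf (nat_lit 1) (nat_lit 582131513797826)) (.cons (.rf (nat_lit 1156) (nat_lit 677582165103132179601393696)) (.cons (.rf (nat_lit 1156) (nat_lit 639598686326899604778696138)) .nil)))) (.cons (.rf (nat_lit 1158) (nat_lit 677582165103132179601393696)) (.cons (.br (nat_lit 11) (nat_lit 0) (.cons (.rf (nat_lit 1152) (nat_lit 639749723516146839462522316)) (.cons (.rf (nat_lit 1151) (nat_lit 639749723516146839462522316)) (.cons (.br (nat_lit 7) (nat_lit 0) (.cons (.ev (nat_lit 5348086286250369248369397480087093765) (nat_lit 3)) (.cons (.rf (nat_lit 1159) (nat_lit 677582165103132179601393696)) (.cons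 (.rf (nat_lit 1159) (nat_lit 639598686326899604778696138)) .nil)))) (.cons (.rf (nat_lit 1158) (nat_lit 639598686326899604778696138)) .nil))))) .nil)))))),
 (.br (nat_lit 6) (nat_lit 0) (.cons (.rf (nat_lit 1152) (nat_lit 677430899642391407924254756)) (.cons (.rf (nat_lit 1151) (nat_lit 677430899642391407924254756)) (.cons (.rf (nat_lit 1160) (nat_lit 677430899642391407924254756)) (.cons (.rf (nat_lit 1155) (nat_lit 677430899642391407924254756)) (.cons (.ev (nat_lit 680564733841876926926749496342808297987) (nat_lit 2)) (.cons (.br (nat_lit 11) (nat_lit 0) (.cons (.rf (nat_lit 1152) (nat_lit 639749723516146839462522316)) (.cons (.rf (nat_lit 1151) (nat_lit 639749723516146839462522316)) (.cons (.ev (nat_lit 2658476353830208875943361606701941251) (nat_lit 2)) (.cons (.br (nat_lit 7) (nat_lit 0) (.cons (.kr (nat_lit 620178982355794013571776513) (nat_lit 20361637770888445359602811404288) (nat_lit 0) (nat_lit 1)) (.cons (.rf (nat_lit 1151) (nat_lit 639598686326899604778696138)) (.cons (.ev (nat_lit 1361139873116343070356795831752943732229)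 (nat_lit 3)) .nil)))) (.cons (.br (nat_lit 15) (nat_lit 0) (.cons (.rf (nat_lit 1151) (nat_lit 639598686326899604778696138)) (.cons (.rf (nat_lit 1152) (nat_lit 639598686326899604778696138)) (.cons (.kr (nat_lit 20282409608374037188291873275904) (nat_lit 1329227996094400882725153228533530624) (nat_lit 2) (nat_lit 0)) .nil)))) .nil)))))) .nil))))))),
 (.br (nat_lit 13) (nat_lit 0) (.cons (.br (nat_lit 1) (nat_lit 0) (.cons (.rf (nat_lit 1118) (nat_lit 583706118939841765935136)) (.cons (.rf (nat_lit 1118) (nat_lit 432440658199070088796196)) (.cons (.rf (nat_lit 1122) (nat_lit 583706118939841765935136)) (.cons (.rf (nat_lit 1122) (nat_lit 432440658199070088796196)) (.cons (.rf (nat_lit 1128) (nat_lit 583706118939841765935136)) (.cons (.br (nat_lit 7) (nat_lit 0) (.cons (.ev (nat_lit 20520097722694288766796489163267) (nat_lit 2)) (.cons (.ev (nat_lit 20520097722694289329737852518913) (nat_lit 2)) (.cons (.br (nat_lit 2) (nat_lit 0) (.cons (.rf (nat_lit 1129) (nat_lit 583706118939841765935136)) (.cons (.br (nat_lit 6) (nat_lit 0) (.cons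 (.ev (nat_lit 72712838292238539030104746693494285) (nat_lit 4)) (.cons (.br (nat_lit 15) (nat_lit 0) (.cons (.kr (nat_lit 20282410817336750572543443730433) (nat_lit 2658456070797994260216068006003867648) (nat_lit 0) (nat_lit 1)) (.cons (.rf (nat_lit 1) (nat_lit 582165878746177)) .nil))) .nil))) (.cons (.rf (nat_lit 1130) (nat_lit 583706118939841765935136)) (.cons (.br (nat_lit 11) (nat_lit 0) (.cons (.rf (nat_lit 1130) (nat_lit 432440658199070088796196)) (.cons (.rf (nat_lit 1129) (nat_lit 76927750760771359129034)) (.cons (.kr (nat_lit 620178982355794013571776513) (nat_lit 20361637770888445359602811404288) (nat_lit 0) (nat_lit 1)) (.cons (.br (nat_lit 6) (nat_lit 0) (.cons (.rf (nat_lit 1) (nat_lit 582028435602625)) (.cons (.br (nat_lit 15) (nat_lit 0) (.cons (.kr (nat_lit 20282410817336750572543443730433) (nat_lit 2658456070797994260216068006003867648) (nat_lit 0) (nat_lit 1)) (.cons (.kr (nat_lit 310693972534729320295301121) (nat_lit 1329228075013078387312259846195183616) (nat_lit 0) (nat_lit 1)) .nil))) (.cons (.rf (nat_lit 1131)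 (nat_lit 677582165103132179601393696)) .nil)))) .nil))))) .nil))))) (.cons (.ev (nat_lit 10405114433771813921483657331081217) (nat_lit 2)) (.cons (.ev (nat_lit 2668860946925890659918503195004895233) (nat_lit 2)) (.cons (.br (nat_lit 8) (nat_lit 0) (.cons (.ev (nat_lit 20520097722694288764588909527553) (nat_lit 2)) (.cons (.ev (nat_lit 20520097722694289327547452752387) (nat_lit 2)) (.cons (.ev (nat_lit 10405114433771813921481466864205827) (nat_lit 2)) (.cons (.ev (nat_lit 2668860946925890659918501004538019843) (nat_lit 2)) (.cons (.br (nat_lit 2) (nat_lit 0) (.cons (.rf (nat_lit 1132) (nat_lit 19926519232773908561233952)) (.cons (.rf (nat_lit 1133) (nat_lit 19926519232773908561233952)) (.cons (.br (nat_lit 6) (nat_lit 0) (.cons (.ev (nat_lit 2700015366252133802895993348603904005) (nat_lit 4)) (.cons (.ev (nat_lit 5348086125937134197662590006183854595) (nat_lit 3)) (.cons (.br (nat_lit 11) (nat_lit 0) (.cons (.ev (nat_lit 5327316939740916036966790917211293187) (nat_lit 3)) (.cons (.ev (nat_lit 20679177853483066115389665575939) (nat_lit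 3)) .nil))) .nil)))) (.cons (.rf (nat_lit 1134) (nat_lit 19926519232773908561233952)) (.cons (.br (nat_lit 15) (nat_lit 0) (.cons (.rf (nat_lit 1133) (nat_lit 19775253772033136884095012)) (.cons (.rf (nat_lit 1132) (nat_lit 19419740864594838154427850)) (.cons (.rf (nat_lit 1134) (nat_lit 19419740864594838154427850)) (.cons (.ev (nat_lit 2658476828582622459617537980952347649) (nat_lit 3)) .nil))))) .nil)))))) (.cons (.br (nat_lit 2) (nat_lit 0) (.cons (.rf (nat_lit 1135) (nat_lit 677582165103132179601393696)) (.cons (.rf (nat_lit 1136) (nat_lit 677582165103132179601393696)) (.cons (.br (nat_lit 6) (nat_lit 0) (.cons (.rf (nat_lit 1) (nat_lit 581928549301313)) (.cons (.br (nat_lit 11) (nat_lit 0) (.cons (.ev (nat_lit 341611615199443676923589799236727800065) (nat_lit 1)) (.cons (.ev (nat_lit 20789867849951722330423228622700547) (nat_lit 3)) .nil))) (.cons (.br (nat_lit 11) (nat_lit 0) (.cons (.ev (nat_lit 20679177853483066115389665575939) (nat_lit 3)) (.cons (.ev (nat_lit 87113615180038751860084114693242388283648) (nat_lit 1)) .nil)))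 .nil)))) (.cons (.br (nat_lit 15) (nat_lit 0) (.cons (.rf (nat_lit 1136) (nat_lit 639954199234337903508363300)) (.cons (.rf (nat_lit 1135) (nat_lit 677075386734953109194587594)) (.cons (.ev (nat_lit 681899154372206078818404777892019110659) (nat_lit 2)) (.cons (.ev (nat_lit 2658476828582622459617537980952347649) (nat_lit 3)) .nil))))) (.cons (.br (nat_lit 15) (nat_lit 0) (.cons (.rf (nat_lit 1136) (nat_lit 639954199234337903508363300)) (.cons (.rf (nat_lit 1135) (nat_lit 677075386734953109194587594)) (.cons (.ev (nat_lit 7996157682238958390877010812209332229) (nat_lit 3)) (.cons (.ev (nat_lit 174225916729412541376920394034896628285698) (nat_lit 2)) .nil))))) .nil)))))) .nil))))))) .nil))))))) (.cons (.rf (nat_lit 1128) (nat_lit 432440658199070088796196)) (.cons (.br (nat_lit 14) (nat_lit 0) (.cons (.rf (nat_lit 1128) (nat_lit 227964940008006042955212)) (.cons (.rf (nat_lit 1128) (nat_lit 76927750760771359129034)) (.cons (.rf (nat_lit 1122) (nat_lit 76927750760771359129034)) (.cons (.rf (nat_lit 1122) (nat_lit 227964940008006042955212))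 (.cons (.rf (nat_lit 1118) (nat_lit 227964940008006042955212)) (.cons (.rf (nat_lit 1118) (nat_lit 76927750760771359129034)) (.cons (.br (nat_lit 2) (nat_lit 0) (.cons (.rf (nat_lit 1139) (nat_lit 19926519232773908561233952)) (.cons (.rf (nat_lit 1142) (nat_lit 19926519232773908561233952)) (.cons (.rf (nat_lit 1143) (nat_lit 19926519232773908561233952)) (.cons (.rf (nat_lit 1144) (nat_lit 19926519232773908561233952)) (.cons (.rf (nat_lit 1145) (nat_lit 19926519232773908561233952)) (.cons (.rf (nat_lit 1146) (nat_lit 19926519232773908561233952)) (.cons (.br (nat_lit 6) (nat_lit 0) (.cons (.rf (nat_lit 1143) (nat_lit 19775253772033136884095012)) (.cons (.rf (nat_lit 1142) (nat_lit 19775253772033136884095012)) (.cons (.rf (nat_lit 1145) (nat_lit 19775253772033136884095012)) (.cons (.rf (nat_lit 1144) (nat_lit 19775253772033136884095012)) (.cons (.rf (nat_lit 1146) (nat_lit 19775253772033136884095012)) (.cons (.br (nat_lit 16) (nat_lit 0) (.cons (.ev (nat_lit 680564754361974649621038826072070750720) (nat_lit 2)) (.cons (.ev (nat_lit 680564754361974649621038823881670984194)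 (nat_lit 2)) (.cons (.rf (nat_lit 1146) (nat_lit 19570778053842072838254028)) (.cons (.rf (nat_lit 1146) (nat_lit 19419740864594838154427850)) (.cons (.ev (nat_lit 87112285952121885626438020362671805759745) (nat_lit 1)) .nil)))))) .nil))))))) .nil)))))))) (.cons (.br (nat_lit 2) (nat_lit 0) (.cons (.rf (nat_lit 1148) (nat_lit 677582165103132179601393696)) (.cons (.rf (nat_lit 1151) (nat_lit 677582165103132179601393696)) (.cons (.rf (nat_lit 1152) (nat_lit 677582165103132179601393696)) (.cons (.rf (nat_lit 1155) (nat_lit 677582165103132179601393696)) (.cons (.rf (nat_lit 1160) (nat_lit 677582165103132179601393696)) (.cons (.rf (nat_lit 1161) (nat_lit 677582165103132179601393696)) (.cons (.br (nat_lit 6) (nat_lit 0) (.cons (.rf (nat_lit 1152) (nat_lit 677430899642391407924254756)) (.cons (.rf (nat_lit 1151) (nat_lit 677430899642391407924254756)) (.cons (.rf (nat_lit 1160) (nat_lit 677430899642391407924254756)) (.cons (.rf (nat_lit 1155) (nat_lit 677430899642391407924254756)) (.cons (.rf (nat_lit 1161) (nat_lit 677430899642391407924254756))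 (.cons (.br (nat_lit 7) (nat_lit 0) (.cons (.ev (nat_lit 174224582268475851770050587571162804453378) (nat_lit 2)) (.cons (.ev (nat_lit 10405114433771813922328086556377090) (nat_lit 2)) (.cons (.ev (nat_lit 2668860946925890659919347624230191106) (nat_lit 2)) (.cons (.br (nat_lit 8) (nat_lit 0) (.cons (.ev (nat_lit 10405114433771813922325878909632512) (nat_lit 2)) (.cons (.ev (nat_lit 2668860946925890659919345416583446528) (nat_lit 2)) (.cons (.ev (nat_lit 174905136617882467942868836984517736661507) (nat_lit 2)) .nil)))) .nil))))) .nil))))))) .nil)))))))) .nil))))))))) .nil))))))))) .nil)),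
 (.br (nat_lit 5) (nat_lit 0) (.cons (.br (nat_lit 1) (nat_lit 0) (.cons (.rf (nat_lit 1097) (nat_lit 247132686368)) (.cons (.rf (nat_lit 1097) (nat_lit 242766485540)) (.cons (.rf (nat_lit 1104) (nat_lit 247132686368)) (.cons (.rf (nat_lit 1109) (nat_lit 9043225708576)) (.cons (.br (nat_lit 2) (nat_lit 0) (.cons (.rf (nat_lit 1104) (nat_lit 213814182976)) (.cons (.rf (nat_lit 1097) (nat_lit 207332973637)) (.cons (.ev (nat_lit 1103857058305) (nat_lit 2)) (.cons (.rf (nat_lit 1109) (nat_lit 10109418832960)) (.cons (.br (nat_lit 6) (nat_lit 0) (.cons (.rf (nat_lit 1097) (nat_lit 69965192387)) (.cons (.ev (nat_lit 564062400283139) (nat_lit 2)) (.cons (.br (nat_lit 7) (nat_lit 0) (.cons (.br (nat_lit 8) (nat_lit 0) (.cons (.ev (nat_lit 18519083147019157504) (nat_lit 1)) (.cons (.br (nat_lit 9) (nat_lit 0) (.cons (.br (nat_lit 10) (nat_lit 1) (.cons (.br (nat_lit 10) (nat_lit 1) (.cons (.br (nat_lit 12) (nat_lit 0) (.cons (.rf (nat_lit 1110) (nat_lit 493858305440582043680)) (.cons (.br (nat_lit 14) (nat_lit 0) (.cons (.br (nat_lit 11) (nat_lit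 1) (.cons (.rf (nat_lit 1110) (nat_lit 458117738797769787424)) (.cons (.br (nat_lit 11) (nat_lit 1) (.cons (.rf (nat_lit 1110) (nat_lit 458117738797769787424)) (.cons (.br (nat_lit 13) (nat_lit 0) (.cons (.br (nat_lit 16) (nat_lit 0) (.cons (.br (nat_lit 15) (nat_lit 1) (.cons (.ev (nat_lit 1344804887290189088996783985315086595) (nat_lit 2)) .nil)) .nil)) (.cons (.br (nat_lit 14) (nat_lit 1) (.cons (.rf (nat_lit 1111) (nat_lit 21173223984251494897649696)) (.cons (.rf (nat_lit 1111) (nat_lit 20002077096499822884653088)) .nil))) .nil))) .nil))) .nil))) .nil)) .nil))) .nil)) .nil)) .nil)) .nil))) (.cons (.ev (nat_lit 144116300489293825) (nat_lit 2)) (.cons (.rf (nat_lit 1109) (nat_lit 11031762966755)) .nil)))) (.cons (.rf (nat_lit 1109) (nat_lit 11065081470147)) .nil))))) .nil)))))) .nil)))))) (.cons (.br (nat_lit 7) (nat_lit 1) (.cons (.br (nat_lit 9) (nat_lit 1) (.cons (.br (nat_lit 9) (nat_lit 0) (.cons (.br (nat_lit 10) (nat_lit 0) (.cons (.br (nat_lit 10) (nat_lit 0) (.cons (.br (nat_lit 11) (nat_lit 1) (.cons (.br (nat_lit 13) (nat_lit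 1) (.cons (.rf (nat_lit 229) (nat_lit 17022140995483164743716)) .nil)) .nil)) .nil)) .nil)) (.cons (.br (nat_lit 11) (nat_lit 1) (.cons (.rf (nat_lit 768) (nat_lit 335209)) (.cons (.br (nat_lit 12) (nat_lit 1) (.cons (.br (nat_lit 10) (nat_lit 0) (.cons (.rf (nat_lit 1112) (nat_lit 493858305440582043680)) (.cons (.br (nat_lit 10) (nat_lit 0) (.cons (.rf (nat_lit 1112) (nat_lit 493858305440582043680)) (.cons (.br (nat_lit 8) (nat_lit 1) (.cons (.br (nat_lit 14) (nat_lit 1) (.cons (.br (nat_lit 13) (nat_lit 0) (.cons (.rf (nat_lit 1087) (nat_lit 385889910218)) .nil)) .nil)) (.cons (.br (nat_lit 12) (nat_lit 0) (.cons (.rf (nat_lit 1162) (nat_lit 583706118939841765935136)) (.cons (.rf (nat_lit 1162) (nat_lit 547107778697602015528992)) .nil))) .nil))) .nil))) .nil))) .nil)) .nil))) .nil))) .nil)) .nil)) .nil))),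
 (.br (nat_lit 12) (nat_lit 1) (.cons (.br (nat_lit 12) (nat_lit 1) (.cons (.rf (nat_lit 889) (nat_lit 15853069439072)) .nil)) .nil)),
 (.br (nat_lit 7) (nat_lit 0) (.cons (.kr (nat_lit 618970056536178284868665345) (nat_lit 1213648186098602643292160) (nat_lit 0) (nat_lit 1)) (.cons (.rf (nat_lit 1164) (nat_lit 14242959524133701664)) (.cons (.br (nat_lit 8) (nat_lit 0) (.cons (.ev (nat_lit 620183741904560568682939911) (nat_lit 3)) (.cons (.rf (nat_lit 1164) (nat_lit 15395881028740548640)) (.cons (.br (nat_lit 12) (nat_lit 0) (.cons (.br (nat_lit 12) (nat_lit 0) (.cons (.rf (nat_lit 1164) (nat_lit 16548802533347395616)) .nil)) (.cons (.rf (nat_lit 1164) (nat_lit 16548802533347395616)) .nil))) .nil)))) .nil)))),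
 (.br (nat_lit 6) (nat_lit 0) (.cons (.br (nat_lit 8) (nat_lit 0) (.cons (.kr (nat_lit 309485009821626543701491968) (nat_lit 18518801667747545088) (nat_lit 1) (nat_lit 0)) (.cons (.rf (nat_lit 1164) (nat_lit 14242959524133701664)) (.cons (.br (nat_lit 11) (nat_lit 0) (.cons (.ev (nat_lit 1239153761403135518057039361) (nat_lit 3)) (.cons (.rf (nat_lit 1164) (nat_lit 15395881028740548640)) (.cons (.br (nat_lit 12) (nat_lit 0) (.cons (.br (nat_lit 12) (nat_lit 0) (.cons (.rf (nat_lit 1164) (nat_lit 16548802533347395616)) .nil)) (.cons (.rf (nat_lit 1164) (nat_lit 16548802533347395616)) .nil))) .nil)))) .nil)))) (.cons (.kr (nat_lit 18446744073709551617) (nat_lit 281474976710912) (nat_lit 0) (nat_lit 2)) (.cons (.rf (nat_lit 1165) (nat_lit 407901468851537952)) (.cons (.rf (nat_lit 1164) (nat_lit 14242959524133701664)) (.cons (.br (nat_lit 7) (nat_lit 0) (.cons (.rf (nat_lit 1165) (nat_lit 298727627476272192)) (.cons (.kr (nat_lit 309485009821345068724781057) (nat_lit 72057594037993472) (nat_lit 0) (nat_lit 1)) (.cons (.br (nat_lit 8) (nat_lit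 0) (.cons (.ev (nat_lit 620183705011635371217256453) (nat_lit 3)) (.cons (.ev (nat_lit 1223129813117646953119747) (nat_lit 2)) (.cons (.rf (nat_lit 1164) (nat_lit 15395881028740548640)) (.cons (.br (nat_lit 12) (nat_lit 0) (.cons (.ev (nat_lit 620193112705869667459138049) (nat_lit 2)) (.cons (.ev (nat_lit 79228167255149622130936643841) (nat_lit 1)) (.cons (.rf (nat_lit 1164) (nat_lit 16548802533347395616)) .nil)))) .nil))))) (.cons (.rf (nat_lit 1164) (nat_lit 15395881028740548640)) (.cons (.br (nat_lit 8) (nat_lit 0) (.cons (.br (nat_lit 12) (nat_lit 0) (.cons (.br (nat_lit 12) (nat_lit 0) (.cons (.rf (nat_lit 1164) (nat_lit 16548802533347395616)) .nil)) (.cons (.rf (nat_lit 1164) (nat_lit 16548802533347395616)) .nil))) (.cons (.ev (nat_lit 1223129813117646953119747) (nat_lit 2)) (.cons (.br (nat_lit 13) (nat_lit 0) (.cons (.ev (nat_lit 620193112705869667459138049) (nat_lit 2)) (.cons (.ev (nat_lit 20282410812577562378749264003073) (nat_lit 1)) (.cons (.rf (nat_lit 1164) (nat_lit 16548802533347395616)) .nil)))) (.cons (.rf (nat_lit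 1164) (nat_lit 16548802533347395616)) .nil))))) .nil)))))) .nil))))))]

theorem c63 : chkAll C T R L63 (nat_lit 1156) = true := by decide +kernel

theorem l63 : (nat_lit 1156) + L63.length = (nat_lit 1167) := by decide +kernel

/-- part of the certificates -/
def L64 : List Prf := [(.br (nat_lit 12) (nat_lit 0) (.cons (.ev (nat_lit 620193112705869667459138049) (nat_lit 2)) (.cons (.ev (nat_lit 620183667829351698636341249) (nat_lit 2)) (.cons (.br (nat_lit 12) (nat_lit 0) (.cons (.ev (nat_lit 620193112705869667459138049) (nat_lit 2)) (.cons (.ev (nat_lit 620183667829351698636341249) (nat_lit 2)) (.cons (.rf (nat_lit 1164) (nat_lit 16548802533347395616)) .nil)))) (.cons (.rf (nat_lit 1164) (nat_lit 16548802533347395616)) .nil))))),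
 (.br (nat_lit 12) (nat_lit 0) (.cons (.ev (nat_lit 1858152041457181429596554241) (nat_lit 3)) (.cons (.rf (nat_lit 1164) (nat_lit 15395881028740548640)) (.cons (.br (nat_lit 12) (nat_lit 0) (.cons (.ev (nat_lit 1858152041457181429596554241) (nat_lit 3)) (.cons (.rf (nat_lit 1164) (nat_lit 16548802533347395616)) .nil))) .nil)))),
 (.br (nat_lit 8) (nat_lit 0) (.cons (.ev (nat_lit 1858133152280606244186750981) (nat_lit 3)) (.cons (.ev (nat_lit 1223129813117646953119747) (nat_lit 2)) (.cons (.rf (nat_lit 1164) (nat_lit 15395881028740548640)) (.cons (.rf (nat_lit 1167) (nat_lit 458008564956394521664)) .nil))))),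
 (.br (nat_lit 11) (nat_lit 0) (.cons (.ev (nat_lit 1223092919064341967405569) (nat_lit 2)) (.cons (.ev (nat_lit 1213648330776749262503939) (nat_lit 2)) (.cons (.br (nat_lit 2) (nat_lit 0) (.cons (.ev (nat_lit 9463324109778915951363) (nat_lit 2)) (.cons (.rf (nat_lit 1164) (nat_lit 14242959524133701664)) (.cons (.br (nat_lit 7) (nat_lit 0) (.cons (.ev (nat_lit 1858152041457181429596554241) (nat_lit 3)) (.cons (.rf (nat_lit 1164) (nat_lit 15395881028740548640)) (.cons (.br (nat_lit 12) (nat_lit 0) (.cons (.br (nat_lit 12) (nat_lit 0) (.cons (.rf (nat_lit 1164) (nat_lit 16548802533347395616)) .nil)) (.cons (.rf (nat_lit 1164) (nat_lit 16548802533347395616)) .nil))) .nil)))) .nil)))) (.cons (.rf (nat_lit 1164) (nat_lit 14242959524133701664)) (.cons (.br (nat_lit 2) (nat_lit 0) (.cons (.br (nat_lit 8) (nat_lit 0) (.cons (.ev (nat_lit 1239153761403135518124148229) (nat_lit 3)) (.cons (.rf (nat_lit 1164) (nat_lit 15395881028740548640)) (.cons (.rf (nat_lit 1167) (nat_lit 493858305440582043680)) .nil)))) (.cons (.rf (nat_lit 1168) (nat_lit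 14242959524133701664)) (.cons (.rf (nat_lit 1169) (nat_lit 14242959524133701664)) (.cons (.rf (nat_lit 1164) (nat_lit 15395881028740548640)) (.cons (.br (nat_lit 7) (nat_lit 0) (.cons (.rf (nat_lit 1168) (nat_lit 14237153925744565443)) (.cons (.rf (nat_lit 1169) (nat_lit 14237153925744565443)) (.cons (.br (nat_lit 8) (nat_lit 0) (.cons (.ev (nat_lit 618974778975002426897269507) (nat_lit 2)) (.cons (.ev (nat_lit 40564819212062817273181592683265) (nat_lit 2)) (.cons (.rf (nat_lit 1164) (nat_lit 16548802533347395616)) .nil)))) (.cons (.rf (nat_lit 1164) (nat_lit 16548802533347395616)) .nil))))) .nil)))))) .nil)))))),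
 (.br (nat_lit 2) (nat_lit 0) (.cons (.br (nat_lit 11) (nat_lit 0) (.cons (.kr (nat_lit 309485009821626543701491968) (nat_lit 18518801667747545088) (nat_lit 1) (nat_lit 0)) (.cons (.rf (nat_lit 1164) (nat_lit 14242959524133701664)) (.cons (.br (nat_lit 12) (nat_lit 0) (.cons (.ev (nat_lit 1239153761403135518124148229) (nat_lit 3)) (.cons (.rf (nat_lit 1164) (nat_lit 15395881028740548640)) (.cons (.br (nat_lit 12) (nat_lit 0) (.cons (.ev (nat_lit 1239153761403135518124148229) (nat_lit 3)) (.cons (.rf (nat_lit 1164) (nat_lit 16548802533347395616)) .nil))) .nil)))) .nil)))) (.cons (.ev (nat_lit 1223092919066549547041283) (nat_lit 2)) (.cons (.kr (nat_lit 620178945462304770936012801) (nat_lit 4722510599157232828416) (nat_lit 0) (nat_lit 1)) (.cons (.rf (nat_lit 1164) (nat_lit 14242959524133701664)) (.cons (.br (nat_lit 6) (nat_lit 0) (.cons (.kr (nat_lit 1208962713102780905553921) (nat_lit 4722367046919110263296) (nat_lit 0) (nat_lit 2)) (.cons (.ev (nat_lit 1213648330776749262503939) (nat_lit 2)) (.cons (.br (nat_lit 8) (nat_lit 0) (.cons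 (.ev (nat_lit 620202667976317166598488069) (nat_lit 3)) (.cons (.ev (nat_lit 79229371440156292395539890176) (nat_lit 1)) (.cons (.rf (nat_lit 1164) (nat_lit 15395881028740548640)) (.cons (.br (nat_lit 11) (nat_lit 0) (.cons (.ev (nat_lit 79228162514264338693072421121) (nat_lit 1)) (.cons (.ev (nat_lit 620231149893851726559710729) (nat_lit 4)) (.cons (.rf (nat_lit 1164) (nat_lit 16548802533347395616)) .nil)))) .nil))))) (.cons (.rf (nat_lit 1164) (nat_lit 15395881028740548640)) (.cons (.br (nat_lit 8) (nat_lit 0) (.cons (.br (nat_lit 12) (nat_lit 0) (.cons (.br (nat_lit 12) (nat_lit 0) (.cons (.rf (nat_lit 1164) (nat_lit 16548802533347395616)) .nil)) (.cons (.rf (nat_lit 1164) (nat_lit 16548802533347395616)) .nil))) (.cons (.br (nat_lit 11) (nat_lit 0) (.cons (.ev (nat_lit 79538861172343838854654984448) (nat_lit 1)) (.cons (.br (nat_lit 12) (nat_lit 0) (.cons (.ev (nat_lit 634445493338079197714601610761) (nat_lit 4)) (.cons (.rf (nat_lit 1164) (nat_lit 16548802533347395616)) .nil))) (.cons (.rf (nat_lit 1164) (nat_lit 16548802533347395616))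 .nil)))) (.cons (.br (nat_lit 11) (nat_lit 0) (.cons (.br (nat_lit 12) (nat_lit 0) (.cons (.zr (nat_lit 316916281556884366019860104707) (nat_lit 618970204254251560296644608) (nat_lit 16) (nat_lit 1)) (.cons (.rf (nat_lit 1164) (nat_lit 16548802533347395616)) .nil))) (.cons (.ev (nat_lit 20282409608392555709588450574593) (nat_lit 1)) (.cons (.rf (nat_lit 1164) (nat_lit 16548802533347395616)) .nil)))) (.cons (.rf (nat_lit 1164) (nat_lit 16548802533347395616)) .nil))))) .nil)))))) .nil)))))),
 (.br (nat_lit 2) (nat_lit 0) (.cons (.kr (nat_lit 4759259972116592721921) (nat_lit 1208925820177583423095296) (nat_lit 0) (nat_lit 2)) (.cons (.ev (nat_lit 1223092919066549547041283) (nat_lit 2)) (.cons (.kr (nat_lit 1213648186098602626514945) (nat_lit 618970056536178284885442560) (nat_lit 0) (nat_lit 1)) (.cons (.rf (nat_lit 1164) (nat_lit 14242959524133701664)) (.cons (.br (nat_lit 6) (nat_lit 0) (.cons (.kr (nat_lit 281474976710912) (nat_lit 18446744073726328832) (nat_lit 1) (nat_lit 0)) (.cons (.br (nat_lit 7) (nat_lit 0) (.cons (.ev (nat_lit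 1858133262961635826830803459) (nat_lit 3)) (.cons (.rf (nat_lit 1164) (nat_lit 15395881028740548640)) (.cons (.br (nat_lit 12) (nat_lit 0) (.cons (.br (nat_lit 12) (nat_lit 0) (.cons (.rf (nat_lit 1164) (nat_lit 16548802533347395616)) .nil)) (.cons (.rf (nat_lit 1164) (nat_lit 16548802533347395616)) .nil))) .nil)))) (.cons (.ev (nat_lit 1223129813117646953119747) (nat_lit 2)) (.cons (.rf (nat_lit 1164) (nat_lit 15395881028740548640)) (.cons (.br (nat_lit 11) (nat_lit 0) (.cons (.kr (nat_lit 1208925819614633469673472) (nat_lit 309485028268089142434332672) (nat_lit 4) (nat_lit 0)) (.cons (.ev (nat_lit 620183704722276896135578113) (nat_lit 2)) (.cons (.kr (nat_lit 1208925819896108446384384) (nat_lit 309485046714833216160661504) (nat_lit 1) (nat_lit 0)) (.cons (.rf (nat_lit 1164) (nat_lit 16548802533347395616)) .nil))))) .nil)))))) .nil)))))),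
 (.br (nat_lit 2) (nat_lit 0) (.cons (.ev (nat_lit 1223092919064341967405569) (nat_lit 2)) (.cons (.rf (nat_lit 1170) (nat_lit 298727627476272192)) (.cons (.kr (nat_lit 1213648186098602626514945) (nat_lit 618970056536178284885442560) (nat_lit 0) (nat_lit 1)) (.cons (.rf (nat_lit 1164) (nat_lit 14242959524133701664)) (.cons (.br (nat_lit 6) (nat_lit 0) (.cons (.rf (nat_lit 1166) (nat_lit 402095870462401731)) (.cons (.rf (nat_lit 1172) (nat_lit 402095870462401731)) (.cons (.br (nat_lit 8) (nat_lit 0) (.cons (.ev (nat_lit 1213685223701946761740803) (nat_lit 2)) (.cons (.ev (nat_lit 1239163242886597934821147139) (nat_lit 3)) (.cons (.rf (nat_lit 1164) (nat_lit 15395881028740548640)) (.cons (.br (nat_lit 12) (nat_lit 0) (.cons (.ev (nat_lit 79228162514264338693072421121) (nat_lit 1)) (.cons (.ev (nat_lit 79538856468352042468976427265) (nat_lit 1)) (.cons (.rf (nat_lit 1164) (nat_lit 16548802533347395616)) .nil)))) .nil))))) (.cons (.rf (nat_lit 1164) (nat_lit 15395881028740548640)) (.cons (.br (nat_lit 7) (nat_lit 0) (.cons (.ev (nat_lit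 1213685223701946761740803) (nat_lit 2)) (.cons (.br (nat_lit 8) (nat_lit 0) (.cons (.ev (nat_lit 79538861172343838854654984448) (nat_lit 1)) (.cons (.br (nat_lit 12) (nat_lit 0) (.cons (.ev (nat_lit 318151813226155850495051433475) (nat_lit 3)) (.cons (.rf (nat_lit 1164) (nat_lit 16548802533347395616)) .nil))) (.cons (.rf (nat_lit 1164) (nat_lit 16548802533347395616)) .nil)))) (.cons (.br (nat_lit 13) (nat_lit 0) (.cons (.ev (nat_lit 81130877596665535479266540519943) (nat_lit 3)) (.cons (.ev (nat_lit 20282720297587311665120127549441) (nat_lit 1)) (.cons (.rf (nat_lit 1164) (nat_lit 16548802533347395616)) .nil)))) (.cons (.rf (nat_lit 1164) (nat_lit 16548802533347395616)) .nil))))) .nil)))))) .nil)))))),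
 (.br (nat_lit 7) (nat_lit 0) (.cons (.ev (nat_lit 79229371440156292395539890176) (nat_lit 1)) (.cons (.ev (nat_lit 620183667829351698636341249) (nat_lit 2)) (.cons (.rf (nat_lit 1164) (nat_lit 15395881028740548640)) (.cons (.br (nat_lit 11) (nat_lit 0) (.cons (.ev (nat_lit 316913892076337527615886983683) (nat_lit 3)) (.cons (.ev (nat_lit 79538861172343837759421546753) (nat_lit 1)) (.cons (.rf (nat_lit 1164) (nat_lit 16548802533347395616)) .nil)))) .nil))))),
 (.br (nat_lit 11) (nat_lit 0) (.cons (.ev (nat_lit 1239153761403135518090593799) (nat_lit 3)) (.cons (.rf (nat_lit 1164) (nat_lit 16548802533347395616)) .nil))),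
 (.br (nat_lit 6) (nat_lit 0) (.cons (.rf (nat_lit 1166) (nat_lit 402095870462401731)) (.cons (.rf (nat_lit 1172) (nat_lit 402095870462401731)) (.cons (.rf (nat_lit 1173) (nat_lit 402095870462401731)) (.cons (.rf (nat_lit 1174) (nat_lit 14242959524133701664)) (.cons (.rf (nat_lit 1164) (nat_lit 15395881028740548640)) (.cons (.br (nat_lit 7) (nat_lit 0) (.cons (.rf (nat_lit 1173) (nat_lit 292922029087135971)) (.cons (.rf (nat_lit 1172) (nat_lit 292922029087135971)) (.cons (.rf (nat_lit 1174) (nat_lit 14133785682758435904)) (.cons (.br (nat_lit 8) (nat_lit 0) (.cons (.ev (nat_lit 1858123817794635664963404801) (nat_lit 3)) (.cons (.rf (nat_lit 1175) (nat_lit 493858305440582043680)) (.cons (.rf (nat_lit 1175) (nat_lit 458111933199380651203)) (.cons (.rf (nat_lit 1164) (nat_lit 16548802533347395616)) .nil))))) (.cons (.rf (nat_lit 1164) (nat_lit 16548802533347395616)) .nil)))))) .nil))))))),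
 (.br (nat_lit 11) (nat_lit 0) (.cons (.ev (nat_lit 318151803744674635497267921415) (nat_lit 3)) (.cons (.rf (nat_lit 1164) (nat_lit 16548802533347395616)) .nil))),
 (.br (nat_lit 10) (nat_lit 0) (.cons (.br (nat_lit 1) (nat_lit 0) (.cons (.rf (nat_lit 1166) (nat_lit 407901468851537952)) (.cons (.rf (nat_lit 1170) (nat_lit 407901468851537952)) (.cons (.rf (nat_lit 1171) (nat_lit 407901468851537952)) (.cons (.rf (nat_lit 1172) (nat_lit 407901468851537952)) (.cons (.rf (nat_lit 1173) (nat_lit 407901468851537952)) (.cons (.rf (nat_lit 1164) (nat_lit 14242959524133701664)) (.cons (.br (nat_lit 2) (nat_lit 0) (.cons (.rf (nat_lit 1171) (nat_lit 298727627476272192)) (.cons (.rf (nat_lit 1170) (nat_lit 298727627476272192)) (.cons (.rf (nat_lit 1173) (nat_lit 298727627476272192)) (.cons (.rf (nat_lit 1172) (nat_lit 298727627476272192)) (.cons (.rf (nat_lit 1176) (nat_lit 14242959524133701664)) (.cons (.rf (nat_lit 1164) (nat_lit 15395881028740548640)) (.cons (.br (nat_lit 6) (nat_lit 0) (.cons (.rf (nat_lit 1166) (nat_lit 402095870462401731))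 (.cons (.rf (nat_lit 1172) (nat_lit 402095870462401731)) (.cons (.rf (nat_lit 1173) (nat_lit 402095870462401731)) (.cons (.br (nat_lit 7) (nat_lit 0) (.cons (.rf (nat_lit 1173) (nat_lit 292922029087135971)) (.cons (.rf (nat_lit 1172) (nat_lit 292922029087135971)) (.cons (.rf (nat_lit 1176) (nat_lit 14237153925744565443)) (.cons (.br (nat_lit 12) (nat_lit 0) (.cons (.ev (nat_lit 316913863779463340408677991943) (nat_lit 3)) (.cons (.ev (nat_lit 318151803744674639912561410563) (nat_lit 3)) (.cons (.ev (nat_lit 121852915179476347933695609800197) (nat_lit 3)) (.cons (.rf (nat_lit 1164) (nat_lit 16548802533347395616)) .nil))))) (.cons (.rf (nat_lit 1164) (nat_lit 16548802533347395616)) .nil)))))) (.cons (.br (nat_lit 7) (nat_lit 0) (.cons (.rf (nat_lit 1173) (nat_lit 292922029087135971)) (.cons (.ev (nat_lit 620183667829351698636341249) (nat_lit 2)) (.cons (.br (nat_lit 8) (nat_lit 0) (.cons (.ev (nat_lit 1858142633761825622836904961) (nat_lit 3)) (.cons (.rf (nat_lit 1177) (nat_lit 493858305440582043680)) (.cons (.rf (nat_lit 1177) (nat_lit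 458111933199380651203)) (.cons (.rf (nat_lit 1164) (nat_lit 16548802533347395616)) .nil))))) (.cons (.rf (nat_lit 1176) (nat_lit 15390075430351412419)) (.cons (.rf (nat_lit 1164) (nat_lit 16548802533347395616)) .nil)))))) (.cons (.rf (nat_lit 1164) (nat_lit 16548802533347395616)) .nil))))))) .nil)))))))) .nil)))))))) (.cons (.br (nat_lit 11) (nat_lit 1) (.cons (.br (nat_lit 13) (nat_lit 1) (.cons (.rf (nat_lit 1112) (nat_lit 531904573078373406985)) .nil)) .nil)) .nil))),
 (.br (nat_lit 7) (nat_lit 0) (.cons (.kr (nat_lit 79229376162450436196187242499) (nat_lit 20282409603651815102085280694784) (nat_lit 0) (nat_lit 8)) (.cons (.ev (nat_lit 10404955358467357911203699465781251) (nat_lit 2)) (.cons (.br (nat_lit 11) (nat_lit 0) (.cons (.kr (nat_lit 1329227996094400882725433603981836544) (nat_lit 5192296858534846147332164076765184) (nat_lit 1) (nat_lit 0)) (.cons (.br (nat_lit 14) (nat_lit 0) (.cons (.ev (nat_lit 10404955977437340660403481849364993) (nat_lit 2)) (.cons (.rf (nat_lit 1) (nat_lit 582139040047297)) .nil))) .nil))) (.cons (.br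 (nat_lit 15) (nat_lit 0) (.cons (.ev (nat_lit 20520714284343918681562332266497) (nat_lit 2)) (.cons (.kr (nat_lit 5192296858534846075274570038771713) (nat_lit 20282409603651670705422227996928) (nat_lit 0) (nat_lit 2)) (.cons (.br (nat_lit 11) (nat_lit 0) (.cons (.ev (nat_lit 2668861106001185745128032605933928451) (nat_lit 2)) (.cons (.ev (nat_lit 340282387282576234351748190911223300096) (nat_lit 1)) (.cons (.br (nat_lit 14) (nat_lit 0) (.cons (.ev (nat_lit 341611615199134191932215478617160810753) (nat_lit 1)) (.cons (.ev (nat_lit 10404955977437340660403481849364993) (nat_lit 2)) .nil))) .nil)))) (.cons (.br (nat_lit 11) (nat_lit 0) (.cons (.rf (nat_lit 1) (nat_lit 582172456067265)) (.cons (.br (nat_lit 14) (nat_lit 0) (.cons (.ev (nat_lit 10404955977437340660403481849364993) (nat_lit 2)) (.cons (.rf (nat_lit 647) (nat_lit 21158673760130089084139885)) .nil))) (.cons (.br (nat_lit 14) (nat_lit 0) (.cons (.rf (nat_lit 2) (nat_lit 20184369900169535681)) (.cons (.ev (nat_lit 10404955977437340660403481849364993) (nat_lit 2)) .nil))) .nil))))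 .nil))))) .nil))))),
 (.br (nat_lit 6) (nat_lit 0) (.cons (.br (nat_lit 11) (nat_lit 0) (.cons (.kr (nat_lit 5192297168019837521933159091929344) (nat_lit 1329227995784915891350832608966672384) (nat_lit 1) (nat_lit 0)) (.cons (.br (nat_lit 15) (nat_lit 0) (.cons (.ev (nat_lit 2663648368277926422307072136062173442) (nat_lit 2)) (.cons (.rf (nat_lit 1) (nat_lit 582172359597249)) .nil))) .nil))) (.cons (.rf (nat_lit 1179) (nat_lit 583706010856749211419712)) (.cons (.ev (nat_lit 10404955356058951004940180406796291) (nat_lit 2)) (.cons (.br (nat_lit 11) (nat_lit 0) (.cons (.ev (nat_lit 20520716692750824945081391251457) (nat_lit 2)) (.cons (.br (nat_lit 7) (nat_lit 0) (.cons (.ev (nat_lit 8006542276582260991785684639324308483) (nat_lit 3)) (.cons (.rf (nat_lit 1) (nat_lit 581898650859777)) .nil))) (.cons (.ev (nat_lit 10404955977437340660403481849364993) (nat_lit 2)) (.cons (.br (nat_lit 7) (nat_lit 0) (.cons (.rf (nat_lit 1) (nat_lit 582034915409121)) (.cons (.br (nat_lit 15) (nat_lit 0) (.cons (.ev (nat_lit 340287579500206606683558846412741411073)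 (nat_lit 1)) (.cons (.rf (nat_lit 1039) (nat_lit 19987458155082082456837613)) .nil))) (.cons (.br (nat_lit 15) (nat_lit 0) (.cons (.rf (nat_lit 2) (nat_lit 20193376815620897025)) (.cons (.ev (nat_lit 87113620372414529072416186216259241639936) (nat_lit 1)) .nil))) .nil)))) .nil))))) .nil))))),
 (.br (nat_lit 7) (nat_lit 0) (.cons (.kr (nat_lit 1329227995784915872904088535257055232) (nat_lit 5192296858534827700588090367148032) (nat_lit 6) (nat_lit 0)) (.cons (.ev (nat_lit 340282366921247953214081518512862462208) (nat_lit 1)) (.cons (.br (nat_lit 15) (nat_lit 0) (.cons (.ev (nat_lit 341616807575530374283929411404605489409) (nat_lit 1)) (.cons (.ev (nat_lit 2668861105382215688591854321065394691) (nat_lit 2)) .nil))) .nil)))),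
 (.br (nat_lit 7) (nat_lit 0) (.cons (.kr (nat_lit 20282410817299856522549894578179) (nat_lit 79228162514409015731573359104) (nat_lit 0) (nat_lit 8)) (.cons (.ev (nat_lit 340282387282576234351748190911223300096) (nat_lit 1)) (.cons (.br (nat_lit 14) (nat_lit 0) (.cons (.ev (nat_lit 341616787213583123089726560721375854593) (nat_lit 1)) (.cons (.ev (nat_lit 2668861106003594152034298332639657985) (nat_lit 2)) .nil))) .nil)))),
 (.br (nat_lit 7) (nat_lit 0) (.cons (.ev (nat_lit 340282387282577438555201322670752792576) (nat_lit 1)) (.cons (.ev (nat_lit 340282366921249157417534650272391954688) (nat_lit 1)) (.cons (.br (nat_lit 14) (nat_lit 0) (.cons (.ev (nat_lit 1363819098294728071466974179992874910211) (nat_lit 3)) (.cons (.br (nat_lit 15) (nat_lit 0) (.cons (.ev (nat_lit 2668861107243971006356498192630285313) (nat_lit 3)) .nil)) .nil))) .nil)))),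
 (.br (nat_lit 16) (nat_lit 0) (.cons (.ev (nat_lit 5337702007584184998642465342868555267) (nat_lit 3)) (.cons (.ev (nat_lit 1361150257392528519935209856348671051271) (nat_lit 3)) .nil))),
 (.br (nat_lit 15) (nat_lit 0) (.cons (.ev (nat_lit 2668861105382215688591854321065394691) (nat_lit 2)) (.cons (.rf (nat_lit 644) (nat_lit 21157493204539268304091405)) .nil))),
 (.br (nat_lit 7) (nat_lit 0) (.cons (.kr (nat_lit 1329227995784915872904088535257055232) (nat_lit 5192296858534827700588090367148032) (nat_lit 6) (nat_lit 0)) (.cons (.rf (nat_lit 1185) (nat_lit 677582165103132179601393696)) (.cons (.rf (nat_lit 1185) (nat_lit 640105464586995582630986816)) .nil))))]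

theorem c64 : chkAll C T R L64 (nat_lit 1167) = true := by decide +kernel

theorem l64 : (nat_lit 1167) + L64.length = (nat_lit 1187) := by decide +kernel

/-- part of the certificates -/
def L65 : List Prf := [(.br (nat_lit 14) (nat_lit 0) (.cons (.ev (nat_lit 341611615199134191932215478617160810753) (nat_lit 1)) (.cons (.ev (nat_lit 2668861106003594152034298332639657985) (nat_lit 2)) .nil))),
 (.br (nat_lit 7) (nat_lit 0) (.cons (.kr (nat_lit 20282410817299856522549894578179) (nat_lit 79228162514409015731573359104) (nat_lit 0) (nat_lit 8)) (.cons (.rf (nat_lit 1187) (nat_lit 677582165103132179601393696)) (.cons (.rf (nat_lit 1187) (nat_lit 640105464586995582630986816)) .nil)))),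
 (.br (nat_lit 7) (nat_lit 0) (.cons (.rf (nat_lit 1188) (nat_lit 677545566761799191030237216)) (.cons (.rf (nat_lit 1186) (nat_lit 677545566761799191030237216)) (.cons (.br (nat_lit 14) (nat_lit 0) (.cons (.ev (nat_lit 1369136009959712290269790522381087146499) (nat_lit 3)) (.cons (.ev (nat_lit 340287559297334650537527361054049370113) (nat_lit 1)) .nil))) (.cons (.br (nat_lit 14) (nat_lit 0) (.cons (.br (nat_lit 16) (nat_lit 0) (.cons (.ev (nat_lit 681909538729165902330665848053602386179) (nat_lit 2)) .nil)) (.cons (.ev (nat_lit 20789708155677209783399836878372869) (nat_lit 3)) (.cons (.ev (nat_lit 348449143747879858714491211148946485542917) (nat_lit 3)) .nil)))) .nil))))),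
 (.br (nat_lit 8) (nat_lit 0) (.cons (.rf (nat_lit 1179) (nat_lit 583706118939841765935136)) (.cons (.rf (nat_lit 1179) (nat_lit 547107777606853194778656)) (.cons (.kr (nat_lit 309485009821345068724781312) (nat_lit 18446744073709617152) (nat_lit 1) (nat_lit 0)) (.cons (.rf (nat_lit 1180) (nat_lit 583706118939841765935136)) (.cons (.rf (nat_lit 1180) (nat_lit 547107777606853194778656)) (.cons (.br (nat_lit 11) (nat_lit 0) (.cons (.rf (nat_lit 1179) (nat_lit 583706010856749211419712)) (.cons (.rf (nat_lit 1179) (nat_lit 547107669523760640263232)) (.cons (.rf (nat_lit 1180) (nat_lit 583706010856749211419712)) (.cons (.rf (nat_lit 1180) (nat_lit 547107669523760640263232)) (.cons (.br (nat_lit 6) (nat_lit 0) (.cons (.ev (nat_lit 20838253176902040509820681978375) (nat_lit 3)) (.cons (.rf (nat_lit 1181) (nat_lit 19926519232773908561233952)) (.cons (.rf (nat_lit 1182) (nat_lit 19926519232773908561233952)) (.cons (.rf (nat_lit 1183) (nat_lit 19926519232773908561233952)) (.cons (.br (nat_lit 7) (nat_lit 0) (.cons (.rf (nat_lit 1182) (nat_lit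 19889920891440919990077472)) (.cons (.rf (nat_lit 1181) (nat_lit 19889920891440919990077472)) (.cons (.rf (nat_lit 1183) (nat_lit 19889920891440919990077472)) (.cons (.br (nat_lit 16) (nat_lit 0) (.cons (.ev (nat_lit 20789708155677209783399836878372869) (nat_lit 3)) (.cons (.ev (nat_lit 5316932503856384576784874578320031749) (nat_lit 3)) (.cons (.ev (nat_lit 88133133032523681007070559506424305549313) (nat_lit 2)) .nil)))) .nil))))) .nil)))))) (.cons (.br (nat_lit 6) (nat_lit 0) (.cons (.br (nat_lit 14) (nat_lit 0) (.cons (.kr (nat_lit 1329227995784915872904088535257055232) (nat_lit 5192296858534827700588090367148032) (nat_lit 6) (nat_lit 0)) (.cons (.rf (nat_lit 1184) (nat_lit 677582165103132179601393696)) (.cons (.rf (nat_lit 1184) (nat_lit 640105464586995582630986816)) .nil)))) (.cons (.rf (nat_lit 1186) (nat_lit 677582165103132179601393696)) (.cons (.rf (nat_lit 1188) (nat_lit 677582165103132179601393696)) (.cons (.rf (nat_lit 1189) (nat_lit 677582165103132179601393696)) (.cons (.rf (nat_lit 1189) (nat_lit 640105464586995582630986816))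 .nil)))))) .nil))))))) .nil))))))),
 (.br (nat_lit 15) (nat_lit 0) (.cons (.ev (nat_lit 340287559297025160823786278288917266688) (nat_lit 1)) .nil)),
 (.br (nat_lit 14) (nat_lit 0) (.cons (.br (nat_lit 8) (nat_lit 0) (.cons (.ev (nat_lit 20789708153249913124104761073992707) (nat_lit 3)) (.cons (.br (nat_lit 15) (nat_lit 0) (.cons (.ev (nat_lit 2668861106001176300250388737204290051) (nat_lit 2)) (.cons (.rf (nat_lit 1) (nat_lit 582172323032129)) .nil))) .nil))) (.cons (.br (nat_lit 7) (nat_lit 0) (.cons (.kr (nat_lit 5192297168019837521933159091929344) (nat_lit 1329227995784915891350832608966672384) (nat_lit 1) (nat_lit 0)) (.cons (.br (nat_lit 15) (nat_lit 0) (.cons (.ev (nat_lit 5316932503856375132194332978188517891) (nat_lit 3)) (.cons (.rf (nat_lit 1) (nat_lit 582172355537985)) .nil))) .nil))) (.cons (.rf (nat_lit 1190) (nat_lit 76742172089945672793549)) (.cons (.br (nat_lit 8) (nat_lit 0) (.cons (.br (nat_lit 15) (nat_lit 0) (.cons (.ev (nat_lit 2668861106001176300250388737204290051) (nat_lit 2)) (.cons (.rf (nat_lit 1) (nat_lit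 582165886872641)) .nil))) (.cons (.br (nat_lit 7) (nat_lit 0) (.cons (.ev (nat_lit 10404955356049506415526670615183873) (nat_lit 2)) (.cons (.rf (nat_lit 1) (nat_lit 616223930002497)) .nil))) (.cons (.ev (nat_lit 10404955358467357911201491819036673) (nat_lit 2)) (.cons (.br (nat_lit 7) (nat_lit 0) (.cons (.rf (nat_lit 1) (nat_lit 616223897496641)) (.cons (.br (nat_lit 15) (nat_lit 0) (.cons (.ev (nat_lit 341616807575220893978100143101319381249) (nat_lit 1)) (.cons (.rf (nat_lit 2) (nat_lit 20184369900166523969)) .nil))) (.cons (.br (nat_lit 15) (nat_lit 0) (.cons (.rf (nat_lit 1191) (nat_lit 21174442659472880611461152)) (.cons (.ev (nat_lit 87113615180038442379815178633806289633280) (nat_lit 1)) .nil))) .nil)))) .nil))))) .nil))))),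
 (.br (nat_lit 8) (nat_lit 0) (.cons (.ev (nat_lit 20837626943919640656506679197699) (nat_lit 3)) (.cons (.br (nat_lit 15) (nat_lit 0) (.cons (.ev (nat_lit 2663648367968441430932471141080563712) (nat_lit 2)) (.cons (.rf (nat_lit 1) (nat_lit 582172457245761)) .nil))) .nil))),
 (.br (nat_lit 7) (nat_lit 0) (.cons (.rf (nat_lit 1193) (nat_lit 583706118939841765935136)) (.cons (.ev (nat_lit 20520716692750824945081391251457) (nat_lit 2)) (.cons (.rf (nat_lit 1192) (nat_lit 425471239513252595506371)) (.cons (.br (nat_lit 15) (nat_lit 0) (.cons (.ev (nat_lit 20520095314287382501069850542593) (nat_lit 2)) (.cons (.rf (nat_lit 1193) (nat_lit 271646800836631884898668)) (.cons (.br (nat_lit 2) (nat_lit 0) (.cons (.ev (nat_lit 2658476353208821041699045546397925377) (nat_lit 2)) (.cons (.ev (nat_lit 340282387282576234351748192015029895168) (nat_lit 1)) (.cons (.br (nat_lit 8) (nat_lit 0) (.cons (.ev (nat_lit 341616787213581918886273428961846362113) (nat_lit 1)) (.cons (.ev (nat_lit 10404955358467357911201491819036673) (nat_lit 2)) .nil))) .nil))))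 (.cons (.br (nat_lit 2) (nat_lit 0) (.cons (.rf (nat_lit 1) (nat_lit 582172456198209)) (.cons (.br (nat_lit 8) (nat_lit 0) (.cons (.ev (nat_lit 10404955358467357911201491819036673) (nat_lit 2)) (.cons (.rf (nat_lit 998) (nat_lit 19994911550973876468988099)) .nil))) (.cons (.br (nat_lit 17) (nat_lit 0) (.cons (.ev (nat_lit 10404955358467357911201491819036673) (nat_lit 2)) (.cons (.ev (nat_lit 87112291144339824274835458342508667404288) (nat_lit 1)) .nil))) .nil)))) .nil))))) .nil))))),
 (.br (nat_lit 7) (nat_lit 0) (.cons (.ev (nat_lit 72712517675387898355743504994994954) (nat_lit 4)) (.cons (.ev (nat_lit 2658476353208821041699045546397925377) (nat_lit 2)) (.cons (.br (nat_lit 14) (nat_lit 0) (.cons (.ev (nat_lit 340282366921249162139828794077334208513) (nat_lit 1)) (.cons (.rf (nat_lit 2) (nat_lit 19067477192581783617)) .nil))) .nil)))),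
 (.br (nat_lit 7) (nat_lit 0) (.cons (.ev (nat_lit 10664998111552644784997838147235154698) (nat_lit 4)) (.cons (.ev (nat_lit 2668861105382215688591854321065394691) (nat_lit 2)) (.cons (.br (nat_lit 16) (nat_lit 0) (.cons (.ev (nat_lit 340287579500516086952495188423345176833) (nat_lit 1)) (.cons (.ev (nat_lit 340287579500516091674933447407773483008) (nat_lit 1)) .nil))) .nil)))),
 (.br (nat_lit 7) (nat_lit 0) (.cons (.ev (nat_lit 20520716702195702588950087598595) (nat_lit 2)) (.cons (.ev (nat_lit 10404955977446785536921467852292097) (nat_lit 2)) (.cons (.br (nat_lit 8) (nat_lit 0) (.cons (.ev (nat_lit 340282366921249162139828794077334208513) (nat_lit 1)) (.cons (.br (nat_lit 14) (nat_lit 0) (.cons (.ev (nat_lit 1363819098294101819595395499693816415233) (nat_lit 3)) .nil)) .nil))) .nil)))),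
 (.br (nat_lit 14) (nat_lit 0) (.cons (.ev (nat_lit 340287559297025160823714501074639454208) (nat_lit 1)) (.cons (.rf (nat_lit 648) (nat_lit 21158673760130089084139885)) .nil))),
 (.br (nat_lit 8) (nat_lit 0) (.cons (.ev (nat_lit 340287559297025160823714501074639454208) (nat_lit 1)) (.cons (.rf (nat_lit 645) (nat_lit 21158673760130089084139885)) .nil))),
 (.br (nat_lit 11) (nat_lit 0) (.cons (.rf (nat_lit 1192) (nat_lit 583706118939841765935136)) (.cons (.ev (nat_lit 20520097732139166410665252356097) (nat_lit 2)) (.cons (.rf (nat_lit 1190) (nat_lit 271646836864329424743692)) (.cons (.rf (nat_lit 1194) (nat_lit 583706118939841765935136)) (.cons (.br (nat_lit 2) (nat_lit 0) (.cons (.br (nat_lit 8) (nat_lit 0) (.cons (.kr (nat_lit 5192297168019837521933159091929344) (nat_lit 1329227995784915891350832608966672384) (nat_lit 1) (nat_lit 0)) (.cons (.br (nat_lit 14) (nat_lit 0) (.cons (.ev (nat_lit 13333839648201335173831607288138042881) (nat_lit 4)) (.cons (.rf (nat_lit 1) (nat_lit 582139171249217)) .nil))) .nil))) (.cons (.ev (nat_lit 7975388974518720822059784381155771909)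 (nat_lit 4)) (.cons (.kr (nat_lit 10384594336044397266234004064960513) (nat_lit 20361638975091754940219435122688) (nat_lit 0) (nat_lit 1)) (.cons (.br (nat_lit 7) (nat_lit 0) (.cons (.kr (nat_lit 2658455991569836505067585141936750593) (nat_lit 20361638975091898492457557426688) (nat_lit 0) (nat_lit 2)) (.cons (.ev (nat_lit 18609212306963038358689268287114579469) (nat_lit 4)) (.cons (.br (nat_lit 8) (nat_lit 0) (.cons (.ev (nat_lit 18629982442668957168653276963062415881) (nat_lit 4)) (.cons (.ev (nat_lit 2730234324339540876896933735010773501453) (nat_lit 4)) (.cons (.br (nat_lit 14) (nat_lit 0) (.cons (.ev (nat_lit 2730234324339540839117423159467001253381) (nat_lit 4)) (.cons (.ev (nat_lit 5192852081929187948603604474331140) (nat_lit 3)) .nil))) .nil)))) (.cons (.br (nat_lit 8) (nat_lit 0) (.cons (.rf (nat_lit 1) (nat_lit 581898646796545)) (.cons (.br (nat_lit 14) (nat_lit 0) (.cons (.ev (nat_lit 2730275862083069406888398495029454179853) (nat_lit 4)) (.cons (.br (nat_lit 16) (nat_lit 0) (.cons (.ev (nat_lit 1366451572202057960698940602303975063556)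 (nat_lit 3)) .nil)) .nil))) (.cons (.br (nat_lit 14) (nat_lit 0) (.cons (.br (nat_lit 16) (nat_lit 0) (.cons (.zr (nat_lit 1361129488521383191902553659381171358209) (nat_lit 7985752568426579244246795999057674240) (nat_lit 16) (nat_lit 1)) .nil)) (.cons (.ev (nat_lit 696916896666386470002824871197465424956933) (nat_lit 4)) .nil))) .nil)))) .nil))))) .nil))))) (.cons (.br (nat_lit 15) (nat_lit 0) (.cons (.ev (nat_lit 20520095314287382501069850542593) (nat_lit 2)) (.cons (.rf (nat_lit 1192) (nat_lit 425471239513252595506371)) (.cons (.rf (nat_lit 1194) (nat_lit 425471239513252595506371)) (.cons (.rf (nat_lit 1190) (nat_lit 76742172089945672793549)) (.cons (.br (nat_lit 2) (nat_lit 0) (.cons (.br (nat_lit 8) (nat_lit 0) (.cons (.ev (nat_lit 10685768249724786286862872989343288321) (nat_lit 4)) (.cons (.ev (nat_lit 20838253176902040509820681978375) (nat_lit 3)) (.cons (.br (nat_lit 16) (nat_lit 0) (.cons (.ev (nat_lit 5337702007584184998642465342868555267) (nat_lit 3)) (.cons (.ev (nat_lit 1366446400186996104151099663100726870531) (nat_lit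 3)) .nil))) .nil)))) (.cons (.rf (nat_lit 1195) (nat_lit 19926519232773908561233952)) (.cons (.rf (nat_lit 1196) (nat_lit 19926519232773908561233952)) (.cons (.rf (nat_lit 1197) (nat_lit 19926519232773908561233952)) (.cons (.br (nat_lit 7) (nat_lit 0) (.cons (.rf (nat_lit 1196) (nat_lit 19768284353347319390805187)) (.cons (.rf (nat_lit 1195) (nat_lit 19768284353347319390805187)) (.cons (.rf (nat_lit 1197) (nat_lit 19768284353347319390805187)) (.cons (.br (nat_lit 16) (nat_lit 0) (.cons (.ev (nat_lit 1369104856021964103001881034249950330881) (nat_lit 3)) (.cons (.ev (nat_lit 1369104856021964084112125746512423945221) (nat_lit 3)) (.cons (.br (nat_lit 8) (nat_lit 0) (.cons (.ev (nat_lit 2724927797108577026199140874086654019083) (nat_lit 4)) .nil)) .nil)))) .nil))))) .nil)))))) (.cons (.br (nat_lit 2) (nat_lit 0) (.cons (.br (nat_lit 8) (nat_lit 0) (.cons (.rf (nat_lit 1) (nat_lit 582172359728193)) (.cons (.ev (nat_lit 20838253176902040509820681978375) (nat_lit 3)) (.cons (.br (nat_lit 17) (nat_lit 0) (.cons (.ev (nat_lit 5337702007584184998642465342868555267)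 (nat_lit 3)) (.cons (.ev (nat_lit 348454460659545466776758697647484296103431) (nat_lit 3)) .nil))) .nil)))) (.cons (.br (nat_lit 7) (nat_lit 0) (.cons (.ev (nat_lit 72712517675387898355743504994994954) (nat_lit 4)) (.cons (.rf (nat_lit 1198) (nat_lit 677582165103132179601393696)) (.cons (.ev (nat_lit 2658476353208821041699045546397925377) (nat_lit 2)) .nil)))) (.cons (.br (nat_lit 7) (nat_lit 0) (.cons (.kr (nat_lit 4722366482873956958209) (nat_lit 72339069014704384) (nat_lit 0) (nat_lit 5)) (.cons (.rf (nat_lit 1199) (nat_lit 677582165103132179601393696)) (.cons (.ev (nat_lit 2668861105382215688591854321065394691) (nat_lit 2)) .nil)))) (.cons (.br (nat_lit 7) (nat_lit 0) (.cons (.ev (nat_lit 20520716702195702588950087598595) (nat_lit 2)) (.cons (.ev (nat_lit 10404955977446785536921467852292097) (nat_lit 2)) (.cons (.ev (nat_lit 340282366920938463463374608531296682241) (nat_lit 1)) (.cons (.br (nat_lit 16) (nat_lit 0) (.cons (.br (nat_lit 14) (nat_lit 0) (.cons (.ev (nat_lit 2663648367658961161852016141390643712) (nat_lit 2)) .nil))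 (.cons (.br (nat_lit 8) (nat_lit 0) (.cons (.ev (nat_lit 680569926376419954038200724114471190530) (nat_lit 2)) .nil)) (.cons (.kr (nat_lit 174224571863599721460484429826628025057281) (nat_lit 680564754124287739504239253444274159616) (nat_lit 0) (nat_lit 1)) .nil)))) .nil))))) (.cons (.br (nat_lit 7) (nat_lit 0) (.cons (.rf (nat_lit 1199) (nat_lit 639947229815652086015073475)) (.cons (.rf (nat_lit 1198) (nat_lit 639947229815652086015073475)) (.cons (.br (nat_lit 8) (nat_lit 0) (.cons (.br (nat_lit 16) (nat_lit 0) (.cons (.ev (nat_lit 2724969334852105518412247980135156155907) (nat_lit 4)) .nil)) (.cons (.br (nat_lit 14) (nat_lit 0) (.cons (.ev (nat_lit 2663648367658961161852016141390643712) (nat_lit 2)) .nil)) (.cons (.br (nat_lit 14) (nat_lit 0) (.cons (.ev (nat_lit 683228382210154848626761019502379467264) (nat_lit 2)) .nil)) .nil)))) (.cons (.ev (nat_lit 87112285931760247855549791456230868254721) (nat_lit 1)) .nil))))) .nil)))))) .nil))))))) .nil))))))),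
 (.br (nat_lit 15) (nat_lit 0) (.cons (.ev (nat_lit 1334420371871613233315477917429399808) (nat_lit 1)) .nil)),
 (.br (nat_lit 6) (nat_lit 0) (.cons (.rf (nat_lit 1190) (nat_lit 425471239513252595506371)) (.cons (.br (nat_lit 7) (nat_lit 0) (.cons (.kr (nat_lit 5192297168019837521933159091929344) (nat_lit 1329227995784915891350832608966672384) (nat_lit 1) (nat_lit 0)) (.cons (.br (nat_lit 15) (nat_lit 0) (.cons (.ev (nat_lit 5316932503856375132194335168621838851) (nat_lit 3)) (.cons (.rf (nat_lit 1) (nat_lit 582169067272257)) .nil))) .nil))) (.cons (.br (nat_lit 7) (nat_lit 0) (.cons (.ev (nat_lit 20789707529463116562371352059052547) (nat_lit 3)) (.cons (.br (nat_lit 11) (nat_lit 0) (.cons (.ev (nat_lit 20520714274899330393952447758851) (nat_lit 2)) (.cons (.rf (nat_lit 1) (nat_lit 582035923286081)) .nil))) .nil))) (.cons (.br (nat_lit 11) (nat_lit 0) (.cons (.br (nat_lit 15) (nat_lit 0) (.cons (.ev (nat_lit 2658476353827781579571727359992266753) (nat_lit 2)) (.cons (.rf (nat_lit 1) (nat_lit 582169099778113)) .nil))) (.cons (.rf (nat_lit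 1200) (nat_lit 235048459503643313742188)) (.cons (.ev (nat_lit 10404955977437340660403481849364993) (nat_lit 2)) (.cons (.br (nat_lit 7) (nat_lit 0) (.cons (.rf (nat_lit 1) (nat_lit 582035955791937)) (.cons (.br (nat_lit 15) (nat_lit 0) (.cons (.ev (nat_lit 341616807575220893978100144196536041729) (nat_lit 1)) (.cons (.rf (nat_lit 1201) (nat_lit 21174442659472880611461152)) .nil))) (.cons (.br (nat_lit 15) (nat_lit 0) (.cons (.rf (nat_lit 2) (nat_lit 20193376815621093441)) (.cons (.ev (nat_lit 87113615180038751864806553233706088136960) (nat_lit 1)) .nil))) .nil)))) .nil))))) .nil)))))]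

theorem c65 : chkAll C T R L65 (nat_lit 1187) = true := by decide +kernel

theorem l65 : (nat_lit 1187) + L65.length = (nat_lit 1203) := by decide +kernel

/-- part of the certificates -/
def L66 : List Prf := [(.br (nat_lit 16) (nat_lit 0) (.cons (.ev (nat_lit 1369104856020721327332814811079085522945) (nat_lit 3)) (.cons (.ev (nat_lit 1363787944354499130638570718746797802501) (nat_lit 3)) (.cons (.kr (nat_lit 174224571863599721460484429826628025057281) (nat_lit 680564754124287739504239253444274159616) (nat_lit 0) (nat_lit 1)) .nil)))),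
 (.br (nat_lit 7) (nat_lit 0) (.cons (.ev (nat_lit 10404955977446785536921467852292097) (nat_lit 2)) (.cons (.ev (nat_lit 340282366921249157417534650272391954688) (nat_lit 1)) (.cons (.br (nat_lit 15) (nat_lit 0) (.cons (.ev (nat_lit 2668861106003603596622585925277450755) (nat_lit 2)) (.cons (.ev (nat_lit 1369104856020721327332814811079085522945) (nat_lit 3)) .nil))) .nil)))),
 (.br (nat_lit 7) (nat_lit 0) (.cons (.kr (nat_lit 1329227995784915872904088535257055232) (nat_lit 5192296858534827700588090367148032) (nat_lit 6) (nat_lit 0)) (.cons (.br (nat_lit 15) (nat_lit 0) (.cons (.ev (nat_lit 341611594995951541869061554852851679233) (nat_lit 1)) (.cons (.br (nat_lit 16) (nat_lit 0) (.cons (.ev (nat_lit 2740899302246663241356967594719096996363) (nat_lit 4)) .nil)) .nil))) (.cons (.br (nat_lit 15) (nat_lit 0) (.cons (.br (nat_lit 16) (nat_lit 0) (.cons (.ev (nat_lit 2730265477646558614112624936820676889091) (nat_lit 4)) .nil)) (.cons (.ev (nat_lit 87113615180038751864806553233706088136960) (nat_lit 1)) .nil))) .nil)))),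
 (.br (nat_lit 16) (nat_lit 0) (.cons (.ev (nat_lit 87113615159835570423669147148447580684545) (nat_lit 1)) .nil)),
 (.br (nat_lit 7) (nat_lit 0) (.cons (.ev (nat_lit 5253144087355245963908814152401664) (nat_lit 2)) (.cons (.br (nat_lit 14) (nat_lit 0) (.cons (.ev (nat_lit 341616807575220893978100144196536041729) (nat_lit 1)) (.cons (.rf (nat_lit 1206) (nat_lit 677582165103132179601393696)) .nil))) (.cons (.br (nat_lit 14) (nat_lit 0) (.cons (.rf (nat_lit 467) (nat_lit 21173188385269099753736384)) (.cons (.ev (nat_lit 87113620352053199582352772268305015635968) (nat_lit 1)) .nil))) .nil)))),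
 (.br (nat_lit 14) (nat_lit 0) (.cons (.ev (nat_lit 344280476066833119559028065924687135488) (nat_lit 2)) .nil)),
 (.br (nat_lit 14) (nat_lit 0) (.cons (.rf (nat_lit 1207) (nat_lit 677545566761799191030237216)) (.cons (.rf (nat_lit 1190) (nat_lit 76742172089945672793549)) (.cons (.ev (nat_lit 340287579500207815609306684927166709760) (nat_lit 1)) (.cons (.br (nat_lit 7) (nat_lit 0) (.cons (.rf (nat_lit 1205) (nat_lit 677545566761799191030237216)) (.cons (.rf (nat_lit 1208) (nat_lit 21174442659472880612542496)) (.cons (.br (nat_lit 15) (nat_lit 0) (.cons (.ev (nat_lit 681899154292977925785839798398830641154) (nat_lit 2)) .nil)) .nil)))) .nil))))),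
 (.br (nat_lit 2) (nat_lit 0) (.cons (.rf (nat_lit 1200) (nat_lit 583706010856749211419712)) (.cons (.rf (nat_lit 1200) (nat_lit 547107669523760640263232)) (.cons (.kr (nat_lit 309485009821345068724781312) (nat_lit 18446744073709617152) (nat_lit 1) (nat_lit 0)) (.cons (.rf (nat_lit 1202) (nat_lit 583706118939841765935136)) (.cons (.rf (nat_lit 1202) (nat_lit 547107777606853194778656)) (.cons (.br (nat_lit 11) (nat_lit 0) (.cons (.rf (nat_lit 1202) (nat_lit 271646836864329424743692)) (.cons (.rf (nat_lit 1202) (nat_lit 235048495531340853587212)) (.cons (.rf (nat_lit 1200) (nat_lit 271646800836631884898668)) (.cons (.rf (nat_lit 1200) (nat_lit 235048459503643313742188)) (.cons (.br (nat_lit 6) (nat_lit 0) (.cons (.ev (nat_lit 20520716702195702588950087598595) (nat_lit 2)) (.cons (.br (nat_lit 7) (nat_lit 0) (.cons (.ev (nat_lit 20520714274899330393952447758851) (nat_lit 2)) (.cons (.ev (nat_lit 340282366921247953214081518512862462208) (nat_lit 1)) (.cons (.br (nat_lit 15) (nat_lit 0) (.cons (.ev (nat_lit 341616807575530374283929411404605489409)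 (nat_lit 1)) (.cons (.rf (nat_lit 1203) (nat_lit 677582165103132179601393696)) .nil))) .nil)))) (.cons (.ev (nat_lit 2658476353830208875943922357632106497) (nat_lit 2)) (.cons (.rf (nat_lit 1204) (nat_lit 19926519232773908561233952)) (.cons (.br (nat_lit 14) (nat_lit 0) (.cons (.ev (nat_lit 10404955977446785536921467852292097) (nat_lit 2)) (.cons (.ev (nat_lit 2668861106003603596622585925277450755) (nat_lit 2)) (.cons (.rf (nat_lit 1204) (nat_lit 19614459950698396220042508)) (.cons (.rf (nat_lit 1203) (nat_lit 677545566761799191030237216)) .nil))))) .nil)))))) (.cons (.br (nat_lit 6) (nat_lit 0) (.cons (.rf (nat_lit 1190) (nat_lit 425471239513252595506371)) (.cons (.rf (nat_lit 1205) (nat_lit 677582165103132179601393696)) (.cons (.rf (nat_lit 1207) (nat_lit 677582165103132179601393696)) (.cons (.rf (nat_lit 1209) (nat_lit 677582165103132179601393696)) (.cons (.br (nat_lit 7) (nat_lit 0) (.cons (.rf (nat_lit 1207) (nat_lit 677545566761799191030237216)) (.cons (.rf (nat_lit 1205) (nat_lit 677545566761799191030237216)) (.cons (.rf (nat_lit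 1209) (nat_lit 677545566761799191030237216)) (.cons (.br (nat_lit 14) (nat_lit 0) (.cons (.ev (nat_lit 87113620352053199582352772268305015635968) (nat_lit 1)) (.cons (.rf (nat_lit 1208) (nat_lit 20003295329242304692235532)) .nil))) .nil))))) .nil)))))) .nil))))))) .nil))))))),
 (.br (nat_lit 7) (nat_lit 0) (.cons (.ev (nat_lit 20520097732139166408474819035137) (nat_lit 2)) (.cons (.br (nat_lit 2) (nat_lit 0) (.cons (.ev (nat_lit 10405906715415846464262595649736193) (nat_lit 4)) (.cons (.br (nat_lit 15) (nat_lit 0) (.cons (.ev (nat_lit 37374173466287775253262753568934595083) (nat_lit 5)) (.cons (.rf (nat_lit 1) (nat_lit 582172316901569)) .nil))) .nil))) (.cons (.rf (nat_lit 1210) (nat_lit 425471203485555055663331)) (.cons (.br (nat_lit 15) (nat_lit 0) (.cons (.br (nat_lit 14) (nat_lit 0) (.cons (.ev (nat_lit 18650751311323827067016111428624844805) (nat_lit 4)) (.cons (.rf (nat_lit 1) (nat_lit 582131486407745)) .nil))) (.cons (.ev (nat_lit 2658476353208811596822525369995231747) (nat_lit 2)) (.cons (.ev (nat_lit 2658476353827791024448247536428253697)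 (nat_lit 2)) (.cons (.br (nat_lit 14) (nat_lit 0) (.cons (.rf (nat_lit 1) (nat_lit 582165846145089)) (.cons (.br (nat_lit 2) (nat_lit 0) (.cons (.ev (nat_lit 340287579500517300600681285922165096705) (nat_lit 1)) (.cons (.rf (nat_lit 2) (nat_lit 20184369900160393409)) .nil))) (.cons (.rf (nat_lit 359) (nat_lit 639598686515940014205253833)) .nil)))) .nil))))) .nil))))),
 (.br (nat_lit 7) (nat_lit 0) (.cons (.ev (nat_lit 7996258856915577189938401253901403904) (nat_lit 3)) (.cons (.br (nat_lit 14) (nat_lit 0) (.cons (.ev (nat_lit 20850317386874685924086181819516164) (nat_lit 3)) (.cons (.rf (nat_lit 1) (nat_lit 582139002593345)) .nil))) .nil))),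
 (.br (nat_lit 2) (nat_lit 0) (.cons (.ev (nat_lit 18609212306959449359800597509187504394) (nat_lit 4)) (.cons (.rf (nat_lit 1212) (nat_lit 583706118939841765935136)) (.cons (.rf (nat_lit 1211) (nat_lit 315676217695784523537603)) (.cons (.br (nat_lit 7) (nat_lit 0) (.cons (.rf (nat_lit 1211) (nat_lit 547107777606853194778656)) (.cons (.rf (nat_lit 1212) (nat_lit 425471239513252595506371)) (.cons (.br (nat_lit 8) (nat_lit 0) (.cons (.ev (nat_lit 31174779096252157778027821219711499) (nat_lit 4)) (.cons (.ev (nat_lit 2740868147671994903913046982581903429133) (nat_lit 4)) (.cons (.br (nat_lit 14) (nat_lit 0) (.cons (.ev (nat_lit 2730275862083069406888398486267855113733) (nat_lit 4)) (.cons (.ev (nat_lit 5192852081929187948603604474331140) (nat_lit 3)) .nil))) .nil)))) (.cons (.br (nat_lit 8) (nat_lit 0) (.cons (.ev (nat_lit 31174779096252157778027821219711499) (nat_lit 4)) (.cons (.br (nat_lit 14) (nat_lit 0) (.cons (.ev (nat_lit 2730234324339540839117423150705402187277) (nat_lit 4)) (.cons (.br (nat_lit 16) (nat_lit 0) (.cons (.ev (nat_lit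 1361134660537073723006945437311607833604) (nat_lit 3)) .nil)) .nil))) (.cons (.br (nat_lit 14) (nat_lit 0) (.cons (.br (nat_lit 16) (nat_lit 0) (.cons (.zr (nat_lit 4102049517967655282642773504349110796307) (nat_lit 264542834677630933201631961285120) (nat_lit 48) (nat_lit 1)) .nil)) (.cons (.ev (nat_lit 696906262843054015975808757949894026593797) (nat_lit 4)) .nil))) .nil)))) .nil))))) .nil))))),
 (.br (nat_lit 6) (nat_lit 0) (.cons (.rf (nat_lit 1200) (nat_lit 583706010856749211419712)) (.cons (.rf (nat_lit 1190) (nat_lit 425471239513252595506371)) (.cons (.rf (nat_lit 1211) (nat_lit 583706118939841765935136)) (.cons (.rf (nat_lit 1210) (nat_lit 425471239513252595506371)) (.cons (.rf (nat_lit 1213) (nat_lit 583706118939841765935136)) (.cons (.br (nat_lit 14) (nat_lit 0) (.cons (.rf (nat_lit 1211) (nat_lit 271646800836631884898668)) (.cons (.rf (nat_lit 1213) (nat_lit 547107777606853194778656)) (.cons (.rf (nat_lit 1200) (nat_lit 271646836864329424743692)) (.cons (.rf (nat_lit 1190) (nat_lit 76742172089945672793549)) (.cons (.ev (nat_lit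 10404955977437340660405689462555137) (nat_lit 2)) (.cons (.br (nat_lit 7) (nat_lit 0) (.cons (.rf (nat_lit 1200) (nat_lit 547107669523760640263232)) (.cons (.rf (nat_lit 1211) (nat_lit 547107777606853194778656)) (.cons (.rf (nat_lit 1210) (nat_lit 425471203485555055663331)) (.cons (.br (nat_lit 15) (nat_lit 0) (.cons (.rf (nat_lit 1211) (nat_lit 235048459503643313742188)) (.cons (.rf (nat_lit 1200) (nat_lit 235048495531340853587212)) (.cons (.ev (nat_lit 2658476353827791024448247536428253697) (nat_lit 2)) (.cons (.br (nat_lit 2) (nat_lit 0) (.cons (.rf (nat_lit 528) (nat_lit 20193377057313497153)) (.cons (.ev (nat_lit 341616787213583127812165382655740805377) (nat_lit 1)) (.cons (.ev (nat_lit 87113620372414529077138625038202196525312) (nat_lit 1)) .nil)))) .nil))))) (.cons (.br (nat_lit 15) (nat_lit 0) (.cons (.rf (nat_lit 1211) (nat_lit 235048459503643313742188)) (.cons (.rf (nat_lit 1200) (nat_lit 235048495531340853587212)) (.cons (.br (nat_lit 2) (nat_lit 0) (.cons (.ev (nat_lit 20769504656293322487218109805954304) (nat_lit 3)) (.cons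 (.ev (nat_lit 2043039047136513250155389829930482532868) (nat_lit 3)) (.cons (.ev (nat_lit 174225916709131373335326281895329291961856) (nat_lit 3)) .nil)))) (.cons (.ev (nat_lit 2658476353827791024448247536428253697) (nat_lit 2)) .nil))))) .nil)))))) .nil))))))) .nil))))))),
 (.br (nat_lit 7) (nat_lit 0) (.cons (.kr (nat_lit 1329227996094400882725433603981836544) (nat_lit 5192296858534846147332164076765184) (nat_lit 1) (nat_lit 0)) (.cons (.br (nat_lit 11) (nat_lit 0) (.cons (.ev (nat_lit 7975388972661773095459041183114594317) (nat_lit 4)) (.cons (.rf (nat_lit 1) (nat_lit 582028407290945)) .nil))) .nil))),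
 (.br (nat_lit 6) (nat_lit 0) (.cons (.ev (nat_lit 20837634188030114728230082577415) (nat_lit 3)) (.cons (.ev (nat_lit 2658476353208811596822527560394998273) (nat_lit 2)) (.cons (.rf (nat_lit 1140) (nat_lit 21173294315944358648618053)) .nil)))),
 (.br (nat_lit 8) (nat_lit 0) (.cons (.ev (nat_lit 20837634188030114728230082577415) (nat_lit 3)) (.cons (.ev (nat_lit 10404955358467357911201491819036673) (nat_lit 2)) (.cons (.br (nat_lit 7) (nat_lit 0) (.cons (.br (nat_lit 16) (nat_lit 0) (.cons (.ev (nat_lit 341611615199442472720136947852663390208) (nat_lit 1)) .nil)) (.cons (.ev (nat_lit 87112285952121884417512273086012117221376) (nat_lit 1)) .nil))) .nil)))),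
 (.br (nat_lit 8) (nat_lit 0) (.cons (.rf (nat_lit 1217) (nat_lit 639598500748228779092360653)) (.cons (.ev (nat_lit 10404955358467357911201491819036673) (nat_lit 2)) (.cons (.br (nat_lit 7) (nat_lit 0) (.cons (.ev (nat_lit 2722331647887040057499993202676378109453) (nat_lit 4)) (.cons (.br (nat_lit 11) (nat_lit 0) (.cons (.ev (nat_lit 5316932503856384576784874578320031749) (nat_lit 3)) .nil)) .nil))) (.cons (.ev (nat_lit 1360422896358523944825294021779064322) (nat_lit 3)) .nil))))),
 (.br (nat_lit 2) (nat_lit 0) (.cons (.rf (nat_lit 1200) (nat_lit 583706010856749211419712)) (.cons (.ev (nat_lit 20520097722694288764588909527553) (nat_lit 2)) (.cons (.rf (nat_lit 1214) (nat_lit 583706010856749211419712)) (.cons (.rf (nat_lit 1210) (nat_lit 583706010856749211419712)) (.cons (.br (nat_lit 6) (nat_lit 0) (.cons (.kr (nat_lit 20282410817299856522549928132609) (nat_lit 79228162514409015731573359104) (nat_lit 0) (nat_lit 8)) (.cons (.rf (nat_lit 1215) (nat_lit 583706118939841765935136)) (.cons (.ev (nat_lit 7985773405441782792038572871334887939)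 (nat_lit 3)) (.cons (.br (nat_lit 7) (nat_lit 0) (.cons (.ev (nat_lit 8006542275963272119281194877474440707) (nat_lit 3)) (.cons (.rf (nat_lit 1215) (nat_lit 547107669523760640263232)) (.cons (.br (nat_lit 8) (nat_lit 0) (.cons (.kr (nat_lit 20520095304842649535330509651969) (nat_lit 2668840585905871457600853398104571904) (nat_lit 0) (nat_lit 1)) (.cons (.ev (nat_lit 1369115241089195636645536998217608200711) (nat_lit 3)) (.cons (.br (nat_lit 11) (nat_lit 0) (.cons (.ev (nat_lit 1363819098293485295650910473780797243911) (nat_lit 3)) (.cons (.br (nat_lit 16) (nat_lit 0) (.cons (.ev (nat_lit 681899154293288614980667530058175414529) (nat_lit 2)) .nil)) .nil))) .nil)))) (.cons (.br (nat_lit 8) (nat_lit 0) (.cons (.kr (nat_lit 20520095304842649535330509651969) (nat_lit 2668840585905871457600853398104571904) (nat_lit 0) (nat_lit 1)) (.cons (.br (nat_lit 11) (nat_lit 0) (.cons (.ev (nat_lit 1369136009959717125972779620223613535751) (nat_lit 3)) (.cons (.br (nat_lit 16) (nat_lit 0) (.cons (.ev (nat_lit 681909538729165902330665848053602386179)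 (nat_lit 2)) .nil)) .nil))) (.cons (.br (nat_lit 11) (nat_lit 0) (.cons (.br (nat_lit 16) (nat_lit 0) (.cons (.ev (nat_lit 681909538728549359644288841061245190913) (nat_lit 2)) .nil)) (.cons (.ev (nat_lit 348457150269318182981766565081949999071751) (nat_lit 3)) .nil))) .nil)))) .nil))))) .nil))))) (.cons (.br (nat_lit 15) (nat_lit 0) (.cons (.rf (nat_lit 1214) (nat_lit 425471239513252595506371)) (.cons (.rf (nat_lit 1210) (nat_lit 425471203485555055663331)) (.cons (.rf (nat_lit 1200) (nat_lit 235048495531340853587212)) (.cons (.ev (nat_lit 2668861105382206243714212642802368513) (nat_lit 2)) (.cons (.br (nat_lit 7) (nat_lit 0) (.cons (.rf (nat_lit 1190) (nat_lit 425471239513252595506371)) (.cons (.rf (nat_lit 1216) (nat_lit 19926519232773908561233952)) (.cons (.br (nat_lit 6) (nat_lit 0) (.cons (.ev (nat_lit 10664998110933688970283993457505076749) (nat_lit 4)) (.cons (.ev (nat_lit 2732923933480926948014260368987174471173) (nat_lit 4)) (.cons (.br (nat_lit 8) (nat_lit 0) (.cons (.ev (nat_lit 2732965472489620526896975005665569803789)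 (nat_lit 4)) (.cons (.br (nat_lit 16) (nat_lit 0) (.cons (.zr (nat_lit 1369115220255275283011491232390481707529) (nat_lit 142056099014890742549071979479040) (nat_lit 16) (nat_lit 1)) .nil)) .nil))) .nil)))) (.cons (.ev (nat_lit 341616807575220889255661322262154313728) (nat_lit 1)) (.cons (.br (nat_lit 11) (nat_lit 0) (.cons (.rf (nat_lit 1216) (nat_lit 19419555285924012468092365)) (.cons (.rf (nat_lit 1190) (nat_lit 271646836864329424743692)) (.cons (.ev (nat_lit 340282366920939677111560706030116602113) (nat_lit 1)) (.cons (.br (nat_lit 17) (nat_lit 0) (.cons (.ev (nat_lit 7996157841314262773102003316573996037) (nat_lit 3)) (.cons (.ev (nat_lit 2679245541266785001493738010886669317) (nat_lit 3)) (.cons (.br (nat_lit 6) (nat_lit 0) (.cons (.ev (nat_lit 2724969334852095884784622934889372976643) (nat_lit 4)) .nil)) .nil)))) .nil))))) .nil)))))) (.cons (.br (nat_lit 6) (nat_lit 0) (.cons (.rf (nat_lit 1190) (nat_lit 425471239513252595506371)) (.cons (.br (nat_lit 7) (nat_lit 0) (.cons (.rf (nat_lit 1) (nat_lit 582169095774401)) (.cons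 (.br (nat_lit 11) (nat_lit 0) (.cons (.ev (nat_lit 340287579500517300600681285922165096705) (nat_lit 1)) (.cons (.br (nat_lit 16) (nat_lit 0) (.cons (.ev (nat_lit 2724927797108586659826765936993342719499) (nat_lit 4)) .nil)) .nil))) (.cons (.br (nat_lit 11) (nat_lit 0) (.cons (.br (nat_lit 16) (nat_lit 0) (.cons (.zr (nat_lit 4083399010830716103361760106735177695249) (nat_lit 18609191947797492436726831005627848192) (nat_lit 48) (nat_lit 2)) .nil)) (.cons (.ev (nat_lit 87112285952121884417512273086012117221376) (nat_lit 1)) .nil))) .nil)))) (.cons (.rf (nat_lit 1217) (nat_lit 677582165103132179601393696)) (.cons (.rf (nat_lit 1218) (nat_lit 677582165103132179601393696)) (.cons (.br (nat_lit 8) (nat_lit 0) (.cons (.ev (nat_lit 2658476353208811596822527560394998273) (nat_lit 2)) (.cons (.rf (nat_lit 1190) (nat_lit 271646836864329424743692)) (.cons (.br (nat_lit 7) (nat_lit 0) (.cons (.br (nat_lit 16) (nat_lit 0) (.cons (.ev (nat_lit 1362489849541164543781801519982672151040) (nat_lit 3)) .nil)) (.cons (.ev (nat_lit 1362489971392833306644958971321154339334)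 (nat_lit 3)) (.cons (.ev (nat_lit 348450504108897154500755413598563593159168) (nat_lit 3)) .nil)))) (.cons (.rf (nat_lit 1218) (nat_lit 639598500748228779092360653)) .nil))))) .nil)))))) .nil))))))) .nil)))))))]

theorem c66 : chkAll C T R L66 (nat_lit 1203) = true := by decide +kernel

theorem l66 : (nat_lit 1203) + L66.length = (nat_lit 1220) := by decide +kernel

/-- part of the certificates -/
def L67 : List Prf := [(.br (nat_lit 7) (nat_lit 0) (.cons (.rf (nat_lit 1219) (nat_lit 425471203485555055663331)) (.cons (.rf (nat_lit 1219) (nat_lit 315676181668086983694563)) (.cons (.ev (nat_lit 340282387282577438555201323774559387648) (nat_lit 1)) (.cons (.rf (nat_lit 1210) (nat_lit 425471203485555055663331)) (.cons (.br (nat_lit 8) (nat_lit 0) (.cons (.rf (nat_lit 1190) (nat_lit 271646836864329424743692)) (.cons (.rf (nat_lit 1200) (nat_lit 271646836864329424743692)) (.cons (.rf (nat_lit 1200) (nat_lit 235048495531340853587212)) (.cons (.br (nat_lit 11) (nat_lit 0) (.cons (.ev (nat_lit 340282366921247953214081519616685834497) (nat_lit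 1)) (.cons (.rf (nat_lit 1200) (nat_lit 235048459503643313742188)) (.cons (.rf (nat_lit 884) (nat_lit 21174439015043831418757156)) .nil)))) .nil))))) .nil)))))),
 (.br (nat_lit 6) (nat_lit 0) (.cons (.rf (nat_lit 1190) (nat_lit 425471239513252595506371)) (.cons (.rf (nat_lit 1219) (nat_lit 425471239513252595506371)) (.cons (.rf (nat_lit 1219) (nat_lit 315676217695784523537603)) (.cons (.rf (nat_lit 1210) (nat_lit 425471239513252595506371)) (.cons (.rf (nat_lit 1214) (nat_lit 425471239513252595506371)) (.cons (.rf (nat_lit 1220) (nat_lit 19926519232773908561233952)) (.cons (.br (nat_lit 7) (nat_lit 0) (.cons (.rf (nat_lit 1219) (nat_lit 425471203485555055663331)) (.cons (.rf (nat_lit 1219) (nat_lit 315676181668086983694563)) (.cons (.rf (nat_lit 1214) (nat_lit 425471203485555055663331)) (.cons (.rf (nat_lit 1210) (nat_lit 425471203485555055663331)) (.cons (.rf (nat_lit 1220) (nat_lit 19889920891440919990077472)) (.cons (.br (nat_lit 8) (nat_lit 0) (.cons (.rf (nat_lit 1190) (nat_lit 271646836864329424743692)) (.cons (.rf (nat_lit 1200)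 (nat_lit 271646836864329424743692)) (.cons (.rf (nat_lit 1200) (nat_lit 235048495531340853587212)) (.cons (.br (nat_lit 11) (nat_lit 0) (.cons (.rf (nat_lit 1200) (nat_lit 271646800836631884898668)) (.cons (.rf (nat_lit 1200) (nat_lit 235048459503643313742188)) (.cons (.ev (nat_lit 349810273215561755677138064593108632733185) (nat_lit 3)) .nil)))) (.cons (.br (nat_lit 11) (nat_lit 0) (.cons (.rf (nat_lit 1200) (nat_lit 271646800836631884898668)) (.cons (.rf (nat_lit 1200) (nat_lit 235048459503643313742188)) (.cons (.ev (nat_lit 349810273215561755677138064593108632733185) (nat_lit 3)) .nil)))) .nil)))))) .nil))))))) .nil)))))))),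
 (.br (nat_lit 11) (nat_lit 0) (.cons (.rf (nat_lit 1200) (nat_lit 271646800836631884898668)) (.cons (.rf (nat_lit 1200) (nat_lit 235048459503643313742188)) (.cons (.ev (nat_lit 20837634206919291310021118525445) (nat_lit 3)) .nil)))),
 (.br (nat_lit 7) (nat_lit 0) (.cons (.rf (nat_lit 1219) (nat_lit 425471203485555055663331)) (.cons (.rf (nat_lit 1219) (nat_lit 315676181668086983694563)) (.cons (.rf (nat_lit 1214) (nat_lit 425471203485555055663331)) (.cons (.rf (nat_lit 1210) (nat_lit 425471203485555055663331)) (.cons (.rf (nat_lit 1221) (nat_lit 19768284353347319390805187)) (.cons (.br (nat_lit 8) (nat_lit 0) (.cons (.rf (nat_lit 1190) (nat_lit 271646836864329424743692)) (.cons (.rf (nat_lit 1200) (nat_lit 271646836864329424743692)) (.cons (.rf (nat_lit 1200) (nat_lit 235048495531340853587212)) (.cons (.rf (nat_lit 1222) (nat_lit 677582165103132179601393696)) (.cons (.br (nat_lit 14) (nat_lit 0) (.cons (.rf (nat_lit 1200) (nat_lit 271646800836631884898668)) (.cons (.ev (nat_lit 348449164516748518458019066647192233443841) (nat_lit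 3)) (.cons (.rf (nat_lit 1222) (nat_lit 677423930223705590430964931)) .nil)))) .nil)))))) .nil))))))),
 (.br (nat_lit 11) (nat_lit 0) (.cons (.kr (nat_lit 5192297168019837521933159091929344) (nat_lit 1329227995784915891350832608966672384) (nat_lit 1) (nat_lit 0)) (.cons (.br (nat_lit 15) (nat_lit 0) (.cons (.ev (nat_lit 2658476512284106608100402538490102273) (nat_lit 2)) (.cons (.rf (nat_lit 1) (nat_lit 582172359597249)) .nil))) .nil))),
 (.br (nat_lit 11) (nat_lit 0) (.cons (.ev (nat_lit 31174460324236226896502636440192515) (nat_lit 3)) (.cons (.br (nat_lit 14) (nat_lit 0) (.cons (.kr (nat_lit 79848346218986613377232535553) (nat_lit 2668860867696505052735100164293787648) (nat_lit 0) (nat_lit 1)) (.cons (.rf (nat_lit 1) (nat_lit 582139073600705)) .nil))) .nil))),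
 (.br (nat_lit 14) (nat_lit 0) (.cons (.kr (nat_lit 79229376162450436196187242499) (nat_lit 20282409603651815102085280694784) (nat_lit 0) (nat_lit 8)) (.cons (.kr (nat_lit 620178982355792914043371521) (nat_lit 20361637770888301245514263822336) (nat_lit 0) (nat_lit 1)) (.cons (.ev (nat_lit 2679245857555619927648038017130693635) (nat_lit 3)) (.cons (.br (nat_lit 16) (nat_lit 0) (.cons (.ev (nat_lit 10405113814801831316396863966543875) (nat_lit 2)) (.cons (.ev (nat_lit 10404955977437340660403481849364993) (nat_lit 2)) (.cons (.ev (nat_lit 2668860946925881215185537464304534017) (nat_lit 2)) (.cons (.br (nat_lit 16) (nat_lit 0) (.cons (.ev (nat_lit 10405113814801831316396863966543875) (nat_lit 2)) (.cons (.ev (nat_lit 10404955977437340660403481849364993) (nat_lit 2)) (.cons (.ev (nat_lit 2668860946925881215185537464304534017) (nat_lit 2)) .nil)))) .nil))))) .nil))))),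
 (.br (nat_lit 7) (nat_lit 0) (.cons (.br (nat_lit 14) (nat_lit 0) (.cons (.kr (nat_lit 5192297168019837521933159091929344) (nat_lit 1329227995784915891350832608966672384) (nat_lit 1) (nat_lit 0)) (.cons (.br (nat_lit 15) (nat_lit 0) (.cons (.ev (nat_lit 2668860946925881215185537464304534017) (nat_lit 2)) (.cons (.rf (nat_lit 1) (nat_lit 582165886741697)) .nil))) .nil))) (.cons (.ev (nat_lit 10404955977437340660405689496109571) (nat_lit 2)) (.cons (.kr (nat_lit 310693935640959697899487233) (nat_lit 1329227995784915872904088535257120768) (nat_lit 0) (nat_lit 1)) (.cons (.br (nat_lit 8) (nat_lit 0) (.cons (.kr (nat_lit 620178982355792914043371521) (nat_lit 20361637770888301245514263822336) (nat_lit 0) (nat_lit 1)) (.cons (.ev (nat_lit 2658476512284106608100404746136846851) (nat_lit 2)) (.cons (.br (nat_lit 14) (nat_lit 0) (.cons (.ev (nat_lit 2668861106003594152034298332639657985) (nat_lit 2)) (.cons (.ev (nat_lit 340282387203658765791499218020273815808) (nat_lit 1)) (.cons (.br (nat_lit 15) (nat_lit 0) (.cons (.ev (nat_lit 340282366920939672389266562233780928513)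 (nat_lit 1)) (.cons (.ev (nat_lit 2668860946925881215185537464304534017) (nat_lit 2)) .nil))) .nil)))) (.cons (.br (nat_lit 14) (nat_lit 0) (.cons (.rf (nat_lit 1) (nat_lit 581933112306881)) (.cons (.br (nat_lit 15) (nat_lit 0) (.cons (.ev (nat_lit 2668860946925881215185537464304534017) (nat_lit 2)) (.cons (.rf (nat_lit 569) (nat_lit 625056438761970151534061)) .nil))) (.cons (.br (nat_lit 15) (nat_lit 0) (.cons (.rf (nat_lit 647) (nat_lit 21157493196657968956226028)) (.cons (.ev (nat_lit 2668860946925881215185537464304534017) (nat_lit 2)) .nil))) .nil)))) .nil))))) .nil))))),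
 (.br (nat_lit 7) (nat_lit 0) (.cons (.kr (nat_lit 10384672946441095341014319200468993) (nat_lit 20282409608410930957914269155328) (nat_lit 0) (nat_lit 1)) (.cons (.rf (nat_lit 1226) (nat_lit 547071928957117828006976)) (.cons (.br (nat_lit 8) (nat_lit 0) (.cons (.kr (nat_lit 5192297168019837521933159091929344) (nat_lit 1329227995784915891350832608966672384) (nat_lit 1) (nat_lit 0)) (.cons (.br (nat_lit 11) (nat_lit 0) (.cons (.ev (nat_lit 20362257949870801716566336471043) (nat_lit 2)) (.cons (.rf (nat_lit 1) (nat_lit 582035957692609)) .nil))) .nil))) (.cons (.br (nat_lit 8) (nat_lit 0) (.cons (.br (nat_lit 15) (nat_lit 0) (.cons (.ev (nat_lit 2658476353208821041699043338784735233) (nat_lit 2)) (.cons (.rf (nat_lit 1) (nat_lit 582169134184641)) .nil))) (.cons (.br (nat_lit 11) (nat_lit 0) (.cons (.ev (nat_lit 20362257949870801716566336471043) (nat_lit 2)) (.cons (.rf (nat_lit 1) (nat_lit 582035990198465)) .nil))) (.cons (.ev (nat_lit 10405113814801831316396863966543875) (nat_lit 2)) (.cons (.br (nat_lit 11) (nat_lit 0) (.cons (.kr (nat_lit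 5192297168019837449875565054001153) (nat_lit 20282409603651670705422228062208) (nat_lit 0) (nat_lit 1)) (.cons (.br (nat_lit 15) (nat_lit 0) (.cons (.ev (nat_lit 341611615278671844160292677298249859072) (nat_lit 1)) (.cons (.rf (nat_lit 458) (nat_lit 20668543693334082006273)) .nil))) (.cons (.br (nat_lit 15) (nat_lit 0) (.cons (.rf (nat_lit 644) (nat_lit 21157493196657968956226028)) (.cons (.ev (nat_lit 87113620352053199587075066412101351309568) (nat_lit 1)) .nil))) .nil)))) .nil))))) .nil))))),
 (.br (nat_lit 7) (nat_lit 0) (.cons (.ev (nat_lit 2658476353208821041699045546431479811) (nat_lit 2)) (.cons (.kr (nat_lit 20282410817299856522549894578179) (nat_lit 79228162514409015731573359104) (nat_lit 0) (nat_lit 8)) (.cons (.br (nat_lit 8) (nat_lit 0) (.cons (.ev (nat_lit 10404957215405788364570198932455937) (nat_lit 3)) (.cons (.br (nat_lit 11) (nat_lit 0) (.cons (.ev (nat_lit 20362257949870801716566336471043) (nat_lit 2)) (.cons (.rf (nat_lit 1) (nat_lit 582034883951809)) .nil))) .nil))) (.cons (.br (nat_lit 14) (nat_lit 0) (.cons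 (.br (nat_lit 11) (nat_lit 0) (.cons (.ev (nat_lit 20362257949870801716566336471043) (nat_lit 2)) (.cons (.rf (nat_lit 1) (nat_lit 582034916457665)) .nil))) (.cons (.ev (nat_lit 10404955975028933754142170437124611) (nat_lit 2)) (.cons (.kr (nat_lit 2668840585288110326884290846217207811) (nat_lit 20361637770888445922548469858816) (nat_lit 0) (nat_lit 8)) (.cons (.br (nat_lit 8) (nat_lit 0) (.cons (.rf (nat_lit 1) (nat_lit 582134774447297)) (.cons (.br (nat_lit 11) (nat_lit 0) (.cons (.ev (nat_lit 340282366920939672389266562233780928513) (nat_lit 1)) (.cons (.rf (nat_lit 586) (nat_lit 661539990233405841357068)) .nil))) (.cons (.br (nat_lit 11) (nat_lit 0) (.cons (.br (nat_lit 16) (nat_lit 0) (.cons (.ev (nat_lit 1366456784780710737028215088128446300163) (nat_lit 3)) .nil)) (.cons (.ev (nat_lit 348454471044456089224136876565098471490567) (nat_lit 3)) .nil))) .nil)))) .nil))))) .nil))))),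
 (.br (nat_lit 11) (nat_lit 0) (.cons (.ev (nat_lit 20362257949870801716566336471043) (nat_lit 2)) (.cons (.ev (nat_lit 10404955977437340660403481849364993) (nat_lit 2)) (.cons (.br (nat_lit 15) (nat_lit 0) (.cons (.ev (nat_lit 341616807495992731463835806607286992897) (nat_lit 1)) (.cons (.br (nat_lit 16) (nat_lit 0) (.cons (.ev (nat_lit 341611594995952750794809392263453475073) (nat_lit 1)) .nil)) .nil))) .nil)))),
 (.br (nat_lit 11) (nat_lit 0) (.cons (.ev (nat_lit 20362257949870801716566336471043) (nat_lit 2)) (.cons (.ev (nat_lit 341611594995951546591356261607747354880) (nat_lit 1)) (.cons (.br (nat_lit 14) (nat_lit 0) (.cons (.ev (nat_lit 1366456784780705920214402565505621819399) (nat_lit 3)) (.cons (.kr (nat_lit 79848346218986613377232535553) (nat_lit 2668860867696505052735100164293787648) (nat_lit 0) (nat_lit 1)) .nil))) .nil)))),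
 (.br (nat_lit 11) (nat_lit 0) (.cons (.ev (nat_lit 340287559297334650537527361054049370113) (nat_lit 1)) (.cons (.ev (nat_lit 2658476353208821041699043338784735233) (nat_lit 2)) (.cons (.br (nat_lit 14) (nat_lit 0) (.cons (.ev (nat_lit 1366456784780705920214402565505621819399) (nat_lit 3)) (.cons (.br (nat_lit 15) (nat_lit 0) (.cons (.ev (nat_lit 2668860946925881215185537464304534017) (nat_lit 2)) .nil)) .nil))) .nil)))),
 (.br (nat_lit 14) (nat_lit 0) (.cons (.ev (nat_lit 340282387203658765773052755421540974593) (nat_lit 1)) .nil)),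
 (.br (nat_lit 14) (nat_lit 0) (.cons (.ev (nat_lit 1329248357423890983105208778936614913) (nat_lit 1)) .nil)),
 (.br (nat_lit 11) (nat_lit 0) (.cons (.rf (nat_lit 1) (nat_lit 581898650859777)) (.cons (.ev (nat_lit 10404955977437340660403481849364993) (nat_lit 2)) (.cons (.br (nat_lit 15) (nat_lit 0) (.cons (.rf (nat_lit 2) (nat_lit 20193376815620897025)) (.cons (.ev (nat_lit 87113615159756341047506696712255705251841) (nat_lit 1)) .nil))) .nil)))),
 (.br (nat_lit 11) (nat_lit 0) (.cons (.rf (nat_lit 1) (nat_lit 581897577118977)) (.cons (.br (nat_lit 14) (nat_lit 0) (.cons (.kr (nat_lit 79848346218986613377232535553) (nat_lit 2668860867696505052735100164293787648) (nat_lit 0) (nat_lit 1)) (.cons (.rf (nat_lit 2) (nat_lit 19075324089979714817)) .nil))) (.cons (.br (nat_lit 14) (nat_lit 0) (.cons (.br (nat_lit 16) (nat_lit 0) (.cons (.ev (nat_lit 1361160642301917881793637268140691947527) (nat_lit 3)) .nil)) (.cons (.kr (nat_lit 79848346218986613377232535553) (nat_lit 2668860867696505052735100164293787648) (nat_lit 0) (nat_lit 1)) .nil)))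 .nil)))),
 (.br (nat_lit 11) (nat_lit 0) (.cons (.rf (nat_lit 1236) (nat_lit 640068830505095951247574080)) (.cons (.rf (nat_lit 1235) (nat_lit 640068830505095951247574080)) (.cons (.br (nat_lit 14) (nat_lit 0) (.cons (.ev (nat_lit 1366456785098856491494776984694895805447) (nat_lit 3)) (.cons (.br (nat_lit 15) (nat_lit 0) (.cons (.ev (nat_lit 2668860946925881215185537464304534017) (nat_lit 2)) .nil)) .nil))) (.cons (.br (nat_lit 16) (nat_lit 0) (.cons (.ev (nat_lit 340287559217796998309450163476783694081) (nat_lit 1)) (.cons (.ev (nat_lit 341611615278671844160292676194426486785) (nat_lit 1)) (.cons (.ev (nat_lit 88133133032682137341543965823281066409987) (nat_lit 2)) .nil)))) .nil))))),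
 (.br (nat_lit 13) (nat_lit 0) (.cons (.ev (nat_lit 1329248278505218182581955050053107713) (nat_lit 1)) .nil)),
 (.br (nat_lit 6) (nat_lit 0) (.cons (.br (nat_lit 8) (nat_lit 0) (.cons (.br (nat_lit 14) (nat_lit 0) (.cons (.kr (nat_lit 5192297168019837521933159091929344) (nat_lit 1329227995784915891350832608966672384) (nat_lit 1) (nat_lit 0)) (.cons (.br (nat_lit 15) (nat_lit 0) (.cons (.ev (nat_lit 2668860946925881215185537464304534017) (nat_lit 2)) (.cons (.rf (nat_lit 1) (nat_lit 582169141517505)) .nil))) .nil))) (.cons (.rf (nat_lit 1224) (nat_lit 583706118939841765935136)) (.cons (.rf (nat_lit 1225) (nat_lit 583706118939841765935136)) (.cons (.br (nat_lit 11) (nat_lit 0) (.cons (.rf (nat_lit 1225) (nat_lit 547071928957117828006976)) (.cons (.rf (nat_lit 1224) (nat_lit 547071928957117828006976)) (.cons (.ev (nat_lit 20362260377167173911563976310787) (nat_lit 2)) (.cons (.br (nat_lit 14) (nat_lit 0) (.cons (.rf (nat_lit 1) (nat_lit 582036192566465)) (.cons (.ev (nat_lit 10405113814801831316396863966543875) (nat_lit 2)) (.cons (.br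 (nat_lit 15) (nat_lit 0) (.cons (.rf (nat_lit 586) (nat_lit 661539711010228944386316)) (.cons (.ev (nat_lit 2658476512284106608100402538490102273) (nat_lit 2)) .nil))) .nil)))) .nil))))) .nil))))) (.cons (.rf (nat_lit 1226) (nat_lit 583706118939841765935136)) (.cons (.rf (nat_lit 1227) (nat_lit 583706118939841765935136)) (.cons (.rf (nat_lit 1228) (nat_lit 583706118939841765935136)) (.cons (.rf (nat_lit 1229) (nat_lit 583706118939841765935136)) (.cons (.br (nat_lit 7) (nat_lit 0) (.cons (.rf (nat_lit 1227) (nat_lit 547071928957117828006976)) (.cons (.rf (nat_lit 1226) (nat_lit 547071928957117828006976)) (.cons (.rf (nat_lit 1229) (nat_lit 547071928957117828006976)) (.cons (.rf (nat_lit 1228) (nat_lit 547071928957117828006976)) (.cons (.br (nat_lit 8) (nat_lit 0) (.cons (.ev (nat_lit 20362260377167173913771623055361) (nat_lit 2)) (.cons (.rf (nat_lit 1230) (nat_lit 19926519232773908561233952)) (.cons (.rf (nat_lit 1231) (nat_lit 19926519232773908561233952)) (.cons (.rf (nat_lit 1232) (nat_lit 19926519232773908561233952)) (.cons (.br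 (nat_lit 11) (nat_lit 0) (.cons (.rf (nat_lit 1231) (nat_lit 19889885042791184623305792)) (.cons (.rf (nat_lit 1230) (nat_lit 19889885042791184623305792)) (.cons (.rf (nat_lit 1232) (nat_lit 19889885042791184623305792)) (.cons (.br (nat_lit 14) (nat_lit 0) (.cons (.ev (nat_lit 1344805045126339894285522095938011905) (nat_lit 2)) (.cons (.rf (nat_lit 1233) (nat_lit 21174442659472880612509728)) (.cons (.rf (nat_lit 1234) (nat_lit 21174442659472880612509728)) .nil)))) .nil))))) .nil)))))) (.cons (.br (nat_lit 8) (nat_lit 0) (.cons (.br (nat_lit 14) (nat_lit 0) (.cons (.rf (nat_lit 1) (nat_lit 581898751520001)) (.cons (.ev (nat_lit 10404955977437340660403481849364993) (nat_lit 2)) (.cons (.br (nat_lit 15) (nat_lit 0) (.cons (.rf (nat_lit 2) (nat_lit 20193376815624039681)) (.cons (.ev (nat_lit 2658476353208821041699043338784735233) (nat_lit 2)) .nil))) .nil)))) (.cons (.rf (nat_lit 1235) (nat_lit 677582165103132179601393696)) (.cons (.rf (nat_lit 1236) (nat_lit 677582165103132179601393696)) (.cons (.rf (nat_lit 1237) (nat_lit 677582165103132179601393696))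 (.cons (.br (nat_lit 11) (nat_lit 0) (.cons (.rf (nat_lit 1236) (nat_lit 640068830505095951247574080)) (.cons (.ev (nat_lit 2658476353208821041699043338784735233) (nat_lit 2)) (.cons (.br (nat_lit 14) (nat_lit 0) (.cons (.ev (nat_lit 1344805045126339894285522095938011905) (nat_lit 2)) (.cons (.rf (nat_lit 526) (nat_lit 624941370767989193980172)) (.cons (.rf (nat_lit 1238) (nat_lit 661701333108492050991136)) .nil)))) (.cons (.rf (nat_lit 1237) (nat_lit 640068830505095951247574080)) .nil))))) .nil)))))) .nil))))))) .nil)))))))]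

theorem c67 : chkAll C T R L67 (nat_lit 1220) = true := by decide +kernel

theorem l67 : (nat_lit 1220) + L67.length = (nat_lit 1240) := by decide +kernel

/-- part of the certificates -/
def L68 : List Prf := [(.br (nat_lit 11) (nat_lit 0) (.cons (.kr (nat_lit 5192297168019837521933159091929344) (nat_lit 1329227995784915891350832608966672384) (nat_lit 1) (nat_lit 0)) (.cons (.br (nat_lit 15) (nat_lit 0) (.cons (.ev (nat_lit 2658476512284106608100402538523656707) (nat_lit 2)) (.cons (.rf (nat_lit 1) (nat_lit 582172359728193)) .nil))) .nil))),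
 (.br (nat_lit 11) (nat_lit 0) (.cons (.ev (nat_lit 31174460324236226896502636373083655) (nat_lit 3)) (.cons (.br (nat_lit 14) (nat_lit 0) (.cons (.kr (nat_lit 79848346218986613377232535553) (nat_lit 2668860867696505052735100164293787648) (nat_lit 0) (nat_lit 1)) (.cons (.rf (nat_lit 1) (nat_lit 582139073731649)) .nil))) .nil))),
 (.br (nat_lit 7) (nat_lit 0) (.cons (.br (nat_lit 14) (nat_lit 0) (.cons (.kr (nat_lit 5192297168019837521933159091929344) (nat_lit 1329227995784915891350832608966672384) (nat_lit 1) (nat_lit 0)) (.cons (.br (nat_lit 15) (nat_lit 0) (.cons (.ev (nat_lit 2668861106001185745128032605967482881) (nat_lit 2)) (.cons (.rf (nat_lit 1) (nat_lit 582165886872641)) .nil))) .nil))) (.cons (.ev (nat_lit 20520097732139166410665252356097) (nat_lit 2)) (.cons (.kr (nat_lit 20283029787319499211587832512513) (nat_lit 2658456070797994260072515763569819648) (nat_lit 0) (nat_lit 1)) (.cons (.br (nat_lit 8) (nat_lit 0) (.cons (.kr (nat_lit 79228162514264338693055578112) (nat_lit 309485028268089142434332672) (nat_lit 5) (nat_lit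 0)) (.cons (.ev (nat_lit 20362257959315390006366654562817) (nat_lit 2)) (.cons (.ev (nat_lit 20362260377167173911564009865217) (nat_lit 2)) (.cons (.br (nat_lit 14) (nat_lit 0) (.cons (.rf (nat_lit 1) (nat_lit 581933112437825)) (.cons (.br (nat_lit 15) (nat_lit 0) (.cons (.ev (nat_lit 341611615278671839437854417210014957825) (nat_lit 1)) (.cons (.br (nat_lit 16) (nat_lit 0) (.cons (.ev (nat_lit 341611594917034077994357914653648027648) (nat_lit 1)) .nil)) .nil))) (.cons (.br (nat_lit 15) (nat_lit 0) (.cons (.rf (nat_lit 1201) (nat_lit 19993543933793074471634285)) (.cons (.ev (nat_lit 87112291124136644042623800095764585120000) (nat_lit 1)) .nil))) .nil)))) .nil))))) .nil))))),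
 (.br (nat_lit 15) (nat_lit 0) (.cons (.ev (nat_lit 340282387203658761069133016625622089728) (nat_lit 1)) .nil)),
 (.br (nat_lit 7) (nat_lit 0) (.cons (.kr (nat_lit 4740813226943354765313) (nat_lit 5192296858534827700588090367148288) (nat_lit 0) (nat_lit 2)) (.cons (.br (nat_lit 8) (nat_lit 0) (.cons (.kr (nat_lit 618974778902661154513879041) (nat_lit 20361638975091754377273793314816) (nat_lit 0) (nat_lit 1)) (.cons (.br (nat_lit 15) (nat_lit 0) (.cons (.ev (nat_lit 2668861106001176300250388737204290051) (nat_lit 2)) (.cons (.rf (nat_lit 1) (nat_lit 582169101809729)) .nil))) .nil))) (.cons (.rf (nat_lit 1242) (nat_lit 425506980079895407762627)) (.cons (.br (nat_lit 11) (nat_lit 0) (.cons (.br (nat_lit 15) (nat_lit 0) (.cons (.ev (nat_lit 2658476512284116052976920524493029377) (nat_lit 2)) (.cons (.rf (nat_lit 1) (nat_lit 582169134315585)) .nil))) (.cons (.kr (nat_lit 20361638979814120860139126784001) (nat_lit 2668840585286901401064675117530873856) (nat_lit 0) (nat_lit 1)) (.cons (.br (nat_lit 8) (nat_lit 0) (.cons (.ev (nat_lit 2658476512284116052976920524493029377)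 (nat_lit 2)) (.cons (.ev (nat_lit 340282387203658761069205075319171579905) (nat_lit 1)) (.cons (.br (nat_lit 16) (nat_lit 0) (.cons (.ev (nat_lit 2658476512284106608100402538523656707) (nat_lit 2)) (.cons (.ev (nat_lit 340282387203658765791499219124080410880) (nat_lit 1)) .nil))) .nil)))) (.cons (.br (nat_lit 15) (nat_lit 0) (.cons (.rf (nat_lit 1) (nat_lit 582035990329409)) (.cons (.br (nat_lit 8) (nat_lit 0) (.cons (.ev (nat_lit 341611594995951541869061553757635018753) (nat_lit 1)) (.cons (.rf (nat_lit 1243) (nat_lit 21174442659472880612509728)) .nil))) (.cons (.ev (nat_lit 2658476512284106608100402538523656707) (nat_lit 2)) .nil)))) .nil))))) .nil))))),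
 (.br (nat_lit 7) (nat_lit 0) (.cons (.rf (nat_lit 1244) (nat_lit 425506980079895407762627)) (.cons (.kr (nat_lit 20282409608374036906821208244225) (nat_lit 79228162514336676662558654720) (nat_lit 0) (nat_lit 5)) (.cons (.ev (nat_lit 20520097732139166410665252356097) (nat_lit 2)) (.cons (.br (nat_lit 14) (nat_lit 0) (.cons (.ev (nat_lit 2658476353208811596822527560428552707) (nat_lit 2)) (.cons (.kr (nat_lit 20361638979814120860139126784001) (nat_lit 2668840585286901401064675117530873856) (nat_lit 0) (nat_lit 1)) (.cons (.kr (nat_lit 2668860867696509775101581943050862593) (nat_lit 237685696468757306647347593728) (nat_lit 0) (nat_lit 8)) (.cons (.br (nat_lit 8) (nat_lit 0) (.cons (.rf (nat_lit 1) (nat_lit 582134774578241)) (.cons (.br (nat_lit 11) (nat_lit 0) (.cons (.ev (nat_lit 341611615278670635234401286545718903040) (nat_lit 1)) (.cons (.rf (nat_lit 802) (nat_lit 661170657064734551319791)) .nil))) (.cons (.br (nat_lit 17) (nat_lit 0) (.cons (.ev (nat_lit 348454471044137943488559491243751724418051) (nat_lit 3)) (.cons (.ev (nat_lit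 348454471044137938652856502145909130395651) (nat_lit 3)) .nil))) .nil)))) .nil))))) .nil))))),
 (.br (nat_lit 14) (nat_lit 0) (.cons (.ev (nat_lit 2658476512284116052976920524493029377) (nat_lit 2)) (.cons (.ev (nat_lit 31174618166426902454560332513018375) (nat_lit 3)) (.cons (.br (nat_lit 15) (nat_lit 0) (.cons (.ev (nat_lit 340282366920939672389266561129974333441) (nat_lit 1)) (.cons (.br (nat_lit 16) (nat_lit 0) (.cons (.ev (nat_lit 2619530982809627492088317062998118239575043) (nat_lit 5)) .nil)) .nil))) .nil)))),
 (.br (nat_lit 8) (nat_lit 0) (.cons (.ev (nat_lit 2658476512284116052976920524493029377) (nat_lit 2)) (.cons (.ev (nat_lit 1361139873114486160408403545471536334339) (nat_lit 3)) (.cons (.br (nat_lit 15) (nat_lit 0) (.cons (.ev (nat_lit 341611615278671839437854417210014957825) (nat_lit 1)) (.cons (.kr (nat_lit 20283029787356392699730939871233) (nat_lit 2668840664515063915329013810586451968) (nat_lit 0) (nat_lit 1)) .nil))) .nil)))),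
 (.br (nat_lit 14) (nat_lit 0) (.cons (.rf (nat_lit 1) (nat_lit 581898747456769)) (.cons (.br (nat_lit 15) (nat_lit 0) (.cons (.ev (nat_lit 341616787292810081400537765455861973248) (nat_lit 1)) (.cons (.br (nat_lit 16) (nat_lit 0) (.cons (.zr (nat_lit 1363787923755174449817506402035780681729) (nat_lit 31255193199227224555655975040714240) (nat_lit 16) (nat_lit 8)) .nil)) .nil))) (.cons (.br (nat_lit 17) (nat_lit 0) (.cons (.ev (nat_lit 5348086602539194730077831816582005255) (nat_lit 3)) (.cons (.ev (nat_lit 348449154132156044182958944175082950624771) (nat_lit 3)) .nil))) .nil)))),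
 (.br (nat_lit 16) (nat_lit 0) (.cons (.ev (nat_lit 87112285931839785503092323884066358165505) (nat_lit 1)) .nil)),
 (.br (nat_lit 11) (nat_lit 0) (.cons (.rf (nat_lit 1) (nat_lit 581897573055745)) (.cons (.br (nat_lit 14) (nat_lit 0) (.cons (.kr (nat_lit 79848346218986613377232535553) (nat_lit 2668860867696505052735100164293787648) (nat_lit 0) (nat_lit 1)) (.cons (.rf (nat_lit 159) (nat_lit 677537152888255907262268772)) .nil))) (.cons (.br (nat_lit 14) (nat_lit 0) (.cons (.br (nat_lit 16) (nat_lit 0) (.cons (.ev (nat_lit 1366456784780705920214402565505554710531) (nat_lit 3)) .nil)) (.cons (.kr (nat_lit 79848346218986613377232535553) (nat_lit 2668860867696505052735100164293787648) (nat_lit 0) (nat_lit 1)) .nil))) .nil)))),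
 (.br (nat_lit 15) (nat_lit 0) (.cons (.ev (nat_lit 87456561175124783172610126418127574074114) (nat_lit 2)) .nil)),
 (.br (nat_lit 14) (nat_lit 0) (.cons (.rf (nat_lit 1250) (nat_lit 639947265556218728827329731)) (.cons (.rf (nat_lit 1248) (nat_lit 639947265556218728827329731)) (.cons (.br (nat_lit 11) (nat_lit 0) (.cons (.ev (nat_lit 340287579500516086952495188423345176833) (nat_lit 1)) (.cons (.rf (nat_lit 1251) (nat_lit 677582165103132179601393696)) .nil))) (.cons (.br (nat_lit 11) (nat_lit 0) (.cons (.rf (nat_lit 41) (nat_lit 677315353845715324052342116)) (.cons (.br (nat_lit 15) (nat_lit 0) (.cons (.ev (nat_lit 341616787292811285603990898310624903425) (nat_lit 1)) .nil)) (.cons (.ev (nat_lit 87112285952042966948952024114224974332160) (nat_lit 1)) .nil)))) .nil))))),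
 (.br (nat_lit 2) (nat_lit 0) (.cons (.br (nat_lit 8) (nat_lit 0) (.cons (.br (nat_lit 14) (nat_lit 0) (.cons (.kr (nat_lit 5192297168019837521933159091929344) (nat_lit 1329227995784915891350832608966672384) (nat_lit 1) (nat_lit 0)) (.cons (.br (nat_lit 15) (nat_lit 0) (.cons (.ev (nat_lit 2668860946925881215185537464270979587) (nat_lit 2)) (.cons (.rf (nat_lit 1) (nat_lit 582169141648449)) .nil))) .nil))) (.cons (.rf (nat_lit 1240) (nat_lit 583706118939841765935136)) (.cons (.rf (nat_lit 1241) (nat_lit 583706118939841765935136)) (.cons (.br (nat_lit 11) (nat_lit 0) (.cons (.rf (nat_lit 1241) (nat_lit 547071928957117828006976)) (.cons (.rf (nat_lit 1240) (nat_lit 547071928957117828006976)) (.cons (.ev (nat_lit 20362260377167173911564009865217) (nat_lit 2)) (.cons (.br (nat_lit 14) (nat_lit 0) (.cons (.rf (nat_lit 1) (nat_lit 582036192697409)) (.cons (.ev (nat_lit 10405113814801831316396863932989441) (nat_lit 2)) (.cons (.br (nat_lit 15) (nat_lit 0) (.cons (.rf (nat_lit 802) (nat_lit 624762734788178772103522)) (.cons (.ev (nat_lit 2658476512284106608100402538523656707)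 (nat_lit 2)) .nil))) .nil)))) .nil))))) .nil))))) (.cons (.ev (nat_lit 20520097722694288766796489163267) (nat_lit 2)) (.cons (.rf (nat_lit 1242) (nat_lit 583706118939841765935136)) (.cons (.rf (nat_lit 1244) (nat_lit 583706118939841765935136)) (.cons (.rf (nat_lit 1245) (nat_lit 583706118939841765935136)) (.cons (.br (nat_lit 7) (nat_lit 0) (.cons (.rf (nat_lit 1244) (nat_lit 425506980079895407762627)) (.cons (.rf (nat_lit 1245) (nat_lit 425506980079895407762627)) (.cons (.ev (nat_lit 20520097732139166410665252356097) (nat_lit 2)) (.cons (.rf (nat_lit 1242) (nat_lit 425506980079895407762627)) (.cons (.br (nat_lit 11) (nat_lit 0) (.cons (.rf (nat_lit 1246) (nat_lit 19926519232773908561233952)) (.cons (.rf (nat_lit 1247) (nat_lit 19926519232773908561233952)) (.cons (.ev (nat_lit 2658476512286524459883186234018889731) (nat_lit 2)) (.cons (.ev (nat_lit 340282366920938463463374608531296682241) (nat_lit 1)) (.cons (.br (nat_lit 15) (nat_lit 0) (.cons (.rf (nat_lit 1247) (nat_lit 19768320093913962203061443)) (.cons (.rf (nat_lit 1246) (nat_lit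 19768320093913962203061443)) (.cons (.ev (nat_lit 340282366920939672389266561129974333441) (nat_lit 1)) (.cons (.ev (nat_lit 2658476512284106608100402538523656707) (nat_lit 2)) .nil))))) .nil)))))) (.cons (.br (nat_lit 8) (nat_lit 0) (.cons (.rf (nat_lit 1248) (nat_lit 677582165103132179601393696)) (.cons (.br (nat_lit 11) (nat_lit 0) (.cons (.rf (nat_lit 1) (nat_lit 581898646796545)) (.cons (.br (nat_lit 15) (nat_lit 0) (.cons (.ev (nat_lit 2658476512284106608100402538523656707) (nat_lit 2)) (.cons (.rf (nat_lit 1249) (nat_lit 677582165103132179601393696)) .nil))) (.cons (.br (nat_lit 17) (nat_lit 0) (.cons (.ev (nat_lit 2658476512284106608100402538523656707) (nat_lit 2)) (.cons (.ev (nat_lit 87112285952042966948952024114224974332160) (nat_lit 1)) .nil))) .nil)))) (.cons (.rf (nat_lit 1250) (nat_lit 677582165103132179601393696)) (.cons (.rf (nat_lit 1252) (nat_lit 677582165103132179601393696)) (.cons (.br (nat_lit 14) (nat_lit 0) (.cons (.rf (nat_lit 1250) (nat_lit 639947265556218728827329731)) (.cons (.rf (nat_lit 1248) (nat_lit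 639947265556218728827329731)) (.cons (.br (nat_lit 11) (nat_lit 0) (.cons (.br (nat_lit 16) (nat_lit 0) (.cons (.ev (nat_lit 341616807495991517815649708004660477953) (nat_lit 1)) .nil)) (.cons (.rf (nat_lit 914) (nat_lit 661700146407862117173280)) (.cons (.ev (nat_lit 87112285931839784298888870751211595235328) (nat_lit 1)) .nil)))) (.cons (.rf (nat_lit 1252) (nat_lit 639947265556218728827329731)) .nil))))) .nil)))))) .nil))))))) .nil))))))),
 (.br (nat_lit 11) (nat_lit 0) (.cons (.ev (nat_lit 31174460326644633802763930639009287) (nat_lit 3)) (.cons (.br (nat_lit 15) (nat_lit 0) (.cons (.ev (nat_lit 2658476512284106608100402538490102273) (nat_lit 2)) (.cons (.rf (nat_lit 1) (nat_lit 582172359759937)) .nil))) .nil))),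
 (.br (nat_lit 11) (nat_lit 0) (.cons (.ev (nat_lit 72713153347940721622272776117161485) (nat_lit 4)) (.cons (.br (nat_lit 14) (nat_lit 0) (.cons (.kr (nat_lit 79848346218986613377232535553) (nat_lit 2668860867696505052735100164293787648) (nat_lit 0) (nat_lit 1)) (.cons (.rf (nat_lit 1) (nat_lit 582139073763393)) .nil))) .nil))),
 (.br (nat_lit 6) (nat_lit 0) (.cons (.br (nat_lit 14) (nat_lit 0) (.cons (.ev (nat_lit 72713626852752083116099101096543239) (nat_lit 4)) (.cons (.br (nat_lit 15) (nat_lit 0) (.cons (.ev (nat_lit 2668861106001185745128034813547118595) (nat_lit 2)) (.cons (.rf (nat_lit 1) (nat_lit 582169074573377)) .nil))) .nil))) (.cons (.ev (nat_lit 20520097732139166410665252356097) (nat_lit 2)) (.cons (.ev (nat_lit 18609212302626659480556191245490785034) (nat_lit 4)) (.cons (.br (nat_lit 11) (nat_lit 0) (.cons (.ev (nat_lit 72712443089514459639247592835515909) (nat_lit 4)) (.cons (.ev (nat_lit 20362257959315390004176187687427) (nat_lit 2)) (.cons (.ev (nat_lit 20362260377167173911564009865217) (nat_lit 2)) (.cons (.br (nat_lit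 14) (nat_lit 0) (.cons (.rf (nat_lit 1) (nat_lit 582036190634049)) (.cons (.rf (nat_lit 1198) (nat_lit 677432230074296710602000416)) (.cons (.br (nat_lit 17) (nat_lit 0) (.cons (.ev (nat_lit 87112291124057106390395866450425425231873) (nat_lit 1)) (.cons (.ev (nat_lit 87112291124057105181469975059681500987648) (nat_lit 1)) .nil))) .nil)))) .nil))))) .nil))))),
 (.br (nat_lit 15) (nat_lit 0) (.cons (.rf (nat_lit 1256) (nat_lit 315676181668086983694563)) (.cons (.ev (nat_lit 2658476353211229448605309065490464771) (nat_lit 2)) (.cons (.kr (nat_lit 20361638979814120860139126784001) (nat_lit 2668840585286901401064675117530873856) (nat_lit 0) (nat_lit 1)) (.cons (.br (nat_lit 6) (nat_lit 0) (.cons (.br (nat_lit 11) (nat_lit 0) (.cons (.ev (nat_lit 2668861106001176300250388737204290051) (nat_lit 2)) (.cons (.rf (nat_lit 1) (nat_lit 616250710669377)) .nil))) (.cons (.ev (nat_lit 10404955977446785536921467885846531) (nat_lit 2)) (.cons (.br (nat_lit 11) (nat_lit 0) (.cons (.ev (nat_lit 1329228075635684684487839559398260736) (nat_lit 2)) (.cons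 (.ev (nat_lit 4096753395528016808581751190167357358597) (nat_lit 4)) (.cons (.br (nat_lit 16) (nat_lit 0) (.cons (.ev (nat_lit 681893962075347553454028014807022698754) (nat_lit 2)) (.cons (.ev (nat_lit 1363860636196705710638205311545990319629) (nat_lit 4)) .nil))) .nil)))) (.cons (.br (nat_lit 8) (nat_lit 0) (.cons (.rf (nat_lit 1) (nat_lit 616253993760833)) (.cons (.br (nat_lit 11) (nat_lit 0) (.cons (.ev (nat_lit 340287579579434769197823184010597171200) (nat_lit 1)) (.cons (.ev (nat_lit 1329289002089031376232266042401882881) (nat_lit 2)) .nil))) (.cons (.br (nat_lit 11) (nat_lit 0) (.cons (.br (nat_lit 16) (nat_lit 0) (.cons (.ev (nat_lit 4083440347175007910648159804013127273477) (nat_lit 4)) .nil)) (.cons (.ev (nat_lit 1045347462355743611728429213778368253790221) (nat_lit 4)) .nil))) .nil)))) .nil))))) .nil))))),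
 (.br (nat_lit 6) (nat_lit 0) (.cons (.kr (nat_lit 1208925819614633486450689) (nat_lit 72339069014704384) (nat_lit 0) (nat_lit 5)) (.cons (.rf (nat_lit 1257) (nat_lit 315676181668086983694563)) (.cons (.ev (nat_lit 20520097732139166410665252356097) (nat_lit 2)) (.cons (.br (nat_lit 11) (nat_lit 0) (.cons (.ev (nat_lit 2658476512286524459883184043585568771) (nat_lit 2)) (.cons (.kr (nat_lit 20361638979814120860139126784001) (nat_lit 2668840585286901401064675117530873856) (nat_lit 0) (nat_lit 1)) (.cons (.ev (nat_lit 2658476512284106608100402538490102273) (nat_lit 2)) (.cons (.br (nat_lit 14) (nat_lit 0) (.cons (.rf (nat_lit 1) (nat_lit 582034915572801)) (.cons (.rf (nat_lit 1199) (nat_lit 677432230074296710602000416)) (.cons (.br (nat_lit 17) (nat_lit 0) (.cons (.ev (nat_lit 87113620352132118264561062661651989332225) (nat_lit 1)) (.cons (.ev (nat_lit 87113620352132119473486954615354456801280) (nat_lit 1)) .nil))) .nil)))) .nil))))) .nil)))))]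

theorem c68 : chkAll C T R L68 (nat_lit 1240) = true := by decide +kernel

theorem l68 : (nat_lit 1240) + L68.length = (nat_lit 1259) := by decide +kernel

/-- part of the certificates -/
def L69 : List Prf := [(.br (nat_lit 11) (nat_lit 0) (.cons (.ev (nat_lit 2722290110145997078845503455064740072973) (nat_lit 4)) (.cons (.ev (nat_lit 2658476353208821041699043338784735233) (nat_lit 2)) (.cons (.br (nat_lit 14) (nat_lit 0) (.cons (.ev (nat_lit 2658476353208811596822527560394998273) (nat_lit 2)) (.cons (.br (nat_lit 15) (nat_lit 0) (.cons (.ev (nat_lit 1366456784622870973649316329923337650181) (nat_lit 3)) .nil)) .nil))) .nil)))),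
 (.br (nat_lit 15) (nat_lit 0) (.cons (.rf (nat_lit 1) (nat_lit 581864387751169)) (.cons (.ev (nat_lit 2658476353208821041699043338784735233) (nat_lit 2)) (.cons (.br (nat_lit 17) (nat_lit 0) (.cons (.ev (nat_lit 87112285931839785503092323882971124727808) (nat_lit 1)) (.cons (.ev (nat_lit 87113615159756341047506696713359528624128) (nat_lit 1)) .nil))) .nil)))),
 (.br (nat_lit 15) (nat_lit 0) (.cons (.rf (nat_lit 1) (nat_lit 581864287090945)) (.cons (.br (nat_lit 16) (nat_lit 0) (.cons (.ev (nat_lit 340287579579434769197823184010597171200) (nat_lit 1)) (.cons (.ev (nat_lit 341616807495992731463835806607270215680) (nat_lit 1)) .nil))) (.cons (.ev (nat_lit 2658476353208811596822527560394998273) (nat_lit 2)) .nil)))),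
 (.br (nat_lit 15) (nat_lit 0) (.cons (.ev (nat_lit 2658476353208821041699043338784735233) (nat_lit 2)) (.cons (.rf (nat_lit 1260) (nat_lit 639837434757806920403261667)) (.cons (.br (nat_lit 11) (nat_lit 0) (.cons (.kr (nat_lit 20283029787356392699730939871233) (nat_lit 2668840664515063915329013810586451968) (nat_lit 0) (nat_lit 1)) (.cons (.ev (nat_lit 1329289002089031376232266042401882881) (nat_lit 2)) .nil))) (.cons (.br (nat_lit 11) (nat_lit 0) (.cons (.br (nat_lit 16) (nat_lit 0) (.cons (.ev (nat_lit 2732965471853309712929090546497466404357) (nat_lit 4)) .nil)) (.cons (.br (nat_lit 14) (nat_lit 0) (.cons (.ev (nat_lit 1366477553810305093996289309343857378305) (nat_lit 3)) .nil)) (.cons (.br (nat_lit 14) (nat_lit 0) (.cons (.ev (nat_lit 1366477553810305112886042349696729874433) (nat_lit 3)) .nil)) .nil)))) .nil))))),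
 (.br (nat_lit 2) (nat_lit 0) (.cons (.br (nat_lit 8) (nat_lit 0) (.cons (.br (nat_lit 14) (nat_lit 0) (.cons (.ev (nat_lit 31174460321827819990232511721506307) (nat_lit 3)) (.cons (.br (nat_lit 15) (nat_lit 0) (.cons (.ev (nat_lit 2668860946925881215185537464270979587) (nat_lit 2)) (.cons (.rf (nat_lit 1) (nat_lit 582169141680193)) .nil))) .nil))) (.cons (.rf (nat_lit 1254) (nat_lit 583706118939841765935136)) (.cons (.rf (nat_lit 1255) (nat_lit 583706118939841765935136)) (.cons (.br (nat_lit 11) (nat_lit 0) (.cons (.rf (nat_lit 1255) (nat_lit 547071928957117828006976)) (.cons (.rf (nat_lit 1254) (nat_lit 547071928957117828006976)) (.cons (.ev (nat_lit 20362260377167173911564009865217) (nat_lit 2)) (.cons (.br (nat_lit 14) (nat_lit 0) (.cons (.rf (nat_lit 1) (nat_lit 582036192729153)) (.cons (.ev (nat_lit 10405113814801831316396863966543875) (nat_lit 2)) (.cons (.br (nat_lit 17) (nat_lit 0) (.cons (.ev (nat_lit 2658476512284106608100402538490102273) (nat_lit 2)) (.cons (.ev (nat_lit 87112291124057105181469975059681500987648) (nat_lit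 1)) .nil))) .nil)))) .nil))))) .nil))))) (.cons (.rf (nat_lit 1256) (nat_lit 583706118939841765935136)) (.cons (.ev (nat_lit 20520097722694288764588909527553) (nat_lit 2)) (.cons (.rf (nat_lit 1257) (nat_lit 583706118939841765935136)) (.cons (.rf (nat_lit 1258) (nat_lit 583706118939841765935136)) (.cons (.br (nat_lit 6) (nat_lit 0) (.cons (.rf (nat_lit 1258) (nat_lit 315676181668086983694563)) (.cons (.rf (nat_lit 1257) (nat_lit 315676181668086983694563)) (.cons (.ev (nat_lit 20520097732139166410665252356097) (nat_lit 2)) (.cons (.rf (nat_lit 1256) (nat_lit 315676181668086983694563)) (.cons (.br (nat_lit 16) (nat_lit 0) (.cons (.rf (nat_lit 1259) (nat_lit 19926519232773908561233952)) (.cons (.ev (nat_lit 340282387282577443277495466475678400768) (nat_lit 1)) (.cons (.ev (nat_lit 340282366920938468185813429370444840961) (nat_lit 1)) (.cons (.rf (nat_lit 1259) (nat_lit 19658489295502153778993379)) (.cons (.br (nat_lit 8) (nat_lit 0) (.cons (.br (nat_lit 15) (nat_lit 0) (.cons (.ev (nat_lit 1329228075635684684487839559398260736) (nat_lit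 2)) (.cons (.ev (nat_lit 341611594995952755517247652351671599105) (nat_lit 1)) .nil))) (.cons (.br (nat_lit 15) (nat_lit 0) (.cons (.ev (nat_lit 1329228075633257388115642354111676418) (nat_lit 2)) (.cons (.ev (nat_lit 341611615199132987728762347961454690560) (nat_lit 1)) .nil))) (.cons (.br (nat_lit 11) (nat_lit 0) (.cons (.ev (nat_lit 5389624819584644525991101332740902401) (nat_lit 4)) (.cons (.br (nat_lit 14) (nat_lit 0) (.cons (.zr (nat_lit 2041694201921777637980667413400783945733) (nat_lit 174224571883804140851179785912333589676544) (nat_lit 16) (nat_lit 2)) .nil)) .nil))) (.cons (.br (nat_lit 15) (nat_lit 0) (.cons (.ev (nat_lit 341611594995952755517247652351671599105) (nat_lit 1)) (.cons (.ev (nat_lit 341611615199132987728762347961454690560) (nat_lit 1)) (.cons (.br (nat_lit 11) (nat_lit 0) (.cons (.zr (nat_lit 2041694202080233963009196088587871846405) (nat_lit 174224571924368960058483126760228092248576) (nat_lit 16) (nat_lit 2)) .nil)) .nil)))) .nil))))) .nil)))))) (.cons (.br (nat_lit 8) (nat_lit 0) (.cons (.rf (nat_lit 1260)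 (nat_lit 677582165103132179601393696)) (.cons (.rf (nat_lit 1261) (nat_lit 677582165103132179601393696)) (.cons (.br (nat_lit 11) (nat_lit 0) (.cons (.rf (nat_lit 1) (nat_lit 581863213350145)) (.cons (.br (nat_lit 14) (nat_lit 0) (.cons (.kr (nat_lit 79848346218986613377232535553) (nat_lit 2668860867696505052735100164293787648) (nat_lit 0) (nat_lit 1)) (.cons (.br (nat_lit 16) (nat_lit 0) (.cons (.ev (nat_lit 1366477553810305093996289309343857378305) (nat_lit 3)) .nil)) .nil))) (.cons (.br (nat_lit 14) (nat_lit 0) (.cons (.br (nat_lit 16) (nat_lit 0) (.cons (.ev (nat_lit 1366477553810305112886042349696729874433) (nat_lit 3)) .nil)) (.cons (.kr (nat_lit 79848346218986613377232535553) (nat_lit 2668860867696505052735100164293787648) (nat_lit 0) (nat_lit 1)) .nil))) .nil)))) (.cons (.rf (nat_lit 1262) (nat_lit 677582165103132179601393696)) (.cons (.br (nat_lit 15) (nat_lit 0) (.cons (.rf (nat_lit 1261) (nat_lit 639837434757806920403261667)) (.cons (.ev (nat_lit 2658476353208811596822527560394998273) (nat_lit 2)) (.cons (.br (nat_lit 11)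 (nat_lit 0) (.cons (.br (nat_lit 16) (nat_lit 0) (.cons (.ev (nat_lit 2732965471853319384336226176117474592269) (nat_lit 4)) .nil)) (.cons (.br (nat_lit 14) (nat_lit 0) (.cons (.ev (nat_lit 1366477553810309929699854872354048311301) (nat_lit 3)) .nil)) (.cons (.br (nat_lit 14) (nat_lit 0) (.cons (.ev (nat_lit 1366477553810309948589033703754430546949) (nat_lit 3)) .nil)) .nil)))) (.cons (.rf (nat_lit 1262) (nat_lit 639837434757806920403261667)) .nil))))) .nil)))))) .nil))))))) .nil))))))),
 (.br (nat_lit 7) (nat_lit 0) (.cons (.kr (nat_lit 5192297168019837521933159091929344) (nat_lit 1329227995784915891350832608966672384) (nat_lit 1) (nat_lit 0)) (.cons (.br (nat_lit 15) (nat_lit 0) (.cons (.ev (nat_lit 2658476353208821041699043338784735233) (nat_lit 2)) (.cons (.rf (nat_lit 1) (nat_lit 582172288494657)) .nil))) .nil))),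
 (.br (nat_lit 7) (nat_lit 0) (.cons (.ev (nat_lit 1344804888529361703116471408326148864) (nat_lit 3)) (.cons (.br (nat_lit 14) (nat_lit 0) (.cons (.ev (nat_lit 5192296860966901924176316860465408) (nat_lit 2)) (.cons (.rf (nat_lit 1) (nat_lit 582139002498113)) .nil))) .nil))),
 (.br (nat_lit 6) (nat_lit 0) (.cons (.rf (nat_lit 1239) (nat_lit 425506980079895407762627)) (.cons (.rf (nat_lit 1264) (nat_lit 583706118939841765935136)) (.cons (.rf (nat_lit 1265) (nat_lit 583706118939841765935136)) (.cons (.br (nat_lit 7) (nat_lit 0) (.cons (.rf (nat_lit 1265) (nat_lit 547071928957117828006976)) (.cons (.rf (nat_lit 1264) (nat_lit 547071928957117828006976)) (.cons (.ev (nat_lit 20362260377167173911564009865217) (nat_lit 2)) (.cons (.br (nat_lit 14) (nat_lit 0) (.cons (.rf (nat_lit 1) (nat_lit 581898751716417)) (.cons (.ev (nat_lit 10404955977437340660403481849364993) (nat_lit 2)) (.cons (.br (nat_lit 15) (nat_lit 0) (.cons (.rf (nat_lit 2) (nat_lit 20193376815624236097)) (.cons (.ev (nat_lit 2658476353208821041699043338784735233) (nat_lit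 2)) .nil))) .nil)))) .nil))))) .nil))))),
 (.br (nat_lit 6) (nat_lit 0) (.cons (.kr (nat_lit 18447025548686327808) (nat_lit 5192296858534827628530500640964608) (nat_lit 2) (nat_lit 0)) (.cons (.br (nat_lit 7) (nat_lit 0) (.cons (.kr (nat_lit 5192297168019837521933159091929344) (nat_lit 1329227995784915891350832608966672384) (nat_lit 1) (nat_lit 0)) (.cons (.br (nat_lit 15) (nat_lit 0) (.cons (.ev (nat_lit 2668861106001185745128034813547118595) (nat_lit 2)) (.cons (.rf (nat_lit 1) (nat_lit 582169067272257)) .nil))) .nil))) (.cons (.ev (nat_lit 10405113812383979533615358904631811) (nat_lit 2)) (.cons (.br (nat_lit 11) (nat_lit 0) (.cons (.ev (nat_lit 20362260367722296267695280226817) (nat_lit 2)) (.cons (.kr (nat_lit 20282409603651670423951546253312) (nat_lit 309485028268089142434332672) (nat_lit 4) (nat_lit 0)) (.cons (.ev (nat_lit 10404955977437340660403481849364993) (nat_lit 2)) (.cons (.br (nat_lit 7) (nat_lit 0) (.cons (.rf (nat_lit 1) (nat_lit 582035955791937)) (.cons (.br (nat_lit 16) (nat_lit 0) (.cons (.ev (nat_lit 340287579579434769197823185105797054465)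 (nat_lit 1)) (.cons (.ev (nat_lit 340287559297334650537527362157855965185) (nat_lit 1)) .nil))) (.cons (.br (nat_lit 15) (nat_lit 0) (.cons (.rf (nat_lit 2) (nat_lit 20193376815621093441)) (.cons (.ev (nat_lit 87113620352132118264561062661651989332225) (nat_lit 1)) .nil))) .nil)))) .nil))))) .nil))))),
 (.br (nat_lit 6) (nat_lit 0) (.cons (.rf (nat_lit 1239) (nat_lit 425506980079895407762627)) (.cons (.ev (nat_lit 20362257959315390004176221241857) (nat_lit 2)) (.cons (.br (nat_lit 7) (nat_lit 0) (.cons (.kr (nat_lit 1344804886360520355861456151895867648) (nat_lit 309494509894824504120639488) (nat_lit 1) (nat_lit 0)) (.cons (.br (nat_lit 11) (nat_lit 0) (.cons (.ev (nat_lit 10404955975019489164726470212452353) (nat_lit 2)) (.cons (.rf (nat_lit 1) (nat_lit 582034849545281)) .nil))) .nil))) (.cons (.br (nat_lit 14) (nat_lit 0) (.cons (.ev (nat_lit 10405113812374534944201866326704131) (nat_lit 2)) (.cons (.kr (nat_lit 20361638979814120860139126784001) (nat_lit 2668840585286901401064675117530873856) (nat_lit 0) (nat_lit 1)) (.cons (.br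 (nat_lit 7) (nat_lit 0) (.cons (.ev (nat_lit 10405115055159722098580076246467587) (nat_lit 3)) (.cons (.ev (nat_lit 680569926138735466532301196182757048576) (nat_lit 2)) (.cons (.br (nat_lit 16) (nat_lit 0) (.cons (.ev (nat_lit 1366456784780710755917391663348148732931) (nat_lit 3)) (.cons (.ev (nat_lit 1361160642301917881793637268140691947527) (nat_lit 3)) .nil))) .nil)))) (.cons (.br (nat_lit 7) (nat_lit 0) (.cons (.rf (nat_lit 1) (nat_lit 582134740040769)) (.cons (.br (nat_lit 11) (nat_lit 0) (.cons (.ev (nat_lit 1366446400505144247987817297601515356679) (nat_lit 3)) (.cons (.br (nat_lit 16) (nat_lit 0) (.cons (.ev (nat_lit 1361129488205091953402398748261497307651) (nat_lit 3)) .nil)) .nil))) (.cons (.br (nat_lit 11) (nat_lit 0) (.cons (.ev (nat_lit 5192455933834616829860695328686338) (nat_lit 2)) (.cons (.ev (nat_lit 87113615180038442379815178632711072972800) (nat_lit 1)) .nil))) .nil)))) .nil))))) .nil))))),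
 (.br (nat_lit 16) (nat_lit 0) (.cons (.ev (nat_lit 87112291124136644042623800095764568342785) (nat_lit 1)) .nil)),
 (.br (nat_lit 16) (nat_lit 0) (.cons (.ev (nat_lit 5192455933834616829860695328686338) (nat_lit 2)) (.cons (.ev (nat_lit 1361139872956643960140683245385469264901) (nat_lit 3)) (.cons (.ev (nat_lit 1361139872640974067010510774221035144193) (nat_lit 3)) .nil)))),
 (.br (nat_lit 2) (nat_lit 0) (.cons (.ev (nat_lit 20520097722694288766796489163267) (nat_lit 2)) (.cons (.rf (nat_lit 1253) (nat_lit 547071928957117828006976)) (.cons (.rf (nat_lit 1266) (nat_lit 583706118939841765935136)) (.cons (.rf (nat_lit 1267) (nat_lit 583706118939841765935136)) (.cons (.rf (nat_lit 1268) (nat_lit 583706118939841765935136)) (.cons (.br (nat_lit 6) (nat_lit 0) (.cons (.rf (nat_lit 1239) (nat_lit 425506980079895407762627)) (.cons (.br (nat_lit 7) (nat_lit 0) (.cons (.br (nat_lit 15) (nat_lit 0) (.cons (.ev (nat_lit 2668861263843395309864923918760281605) (nat_lit 3)) (.cons (.rf (nat_lit 1) (nat_lit 582172316806337)) .nil))) (.cons (.rf (nat_lit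 1267) (nat_lit 315676181668086983694563)) (.cons (.br (nat_lit 14) (nat_lit 0) (.cons (.ev (nat_lit 10404955975019489164726470212452353) (nat_lit 2)) (.cons (.ev (nat_lit 340282367000476111005907035271569932545) (nat_lit 1)) (.cons (.br (nat_lit 15) (nat_lit 0) (.cons (.ev (nat_lit 4091363791547937835699091527239474219011) (nat_lit 4)) (.cons (.br (nat_lit 16) (nat_lit 0) (.cons (.zr (nat_lit 1363787924071468129781134091462291619845) (nat_lit 31255193818197244198338437400495616) (nat_lit 16) (nat_lit 2)) .nil)) .nil))) .nil)))) (.cons (.br (nat_lit 14) (nat_lit 0) (.cons (.rf (nat_lit 1) (nat_lit 581898747522241)) (.cons (.br (nat_lit 15) (nat_lit 0) (.cons (.ev (nat_lit 4101997615832358081298323077240482826247) (nat_lit 4)) (.cons (.br (nat_lit 16) (nat_lit 0) (.cons (.zr (nat_lit 1361139913127798216098843143354282148361) (nat_lit 7975368529306632837274902063015657472) (nat_lit 16) (nat_lit 1)) .nil)) .nil))) (.cons (.br (nat_lit 17) (nat_lit 0) (.cons (.ev (nat_lit 87113615159756341052228991419010600927488) (nat_lit 1)) (.cons (.ev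 (nat_lit 174224577116902885314981945895660531352323) (nat_lit 2)) .nil))) .nil)))) .nil))))) (.cons (.br (nat_lit 7) (nat_lit 0) (.cons (.rf (nat_lit 1268) (nat_lit 425506980079895407762627)) (.cons (.rf (nat_lit 1266) (nat_lit 425506980079895407762627)) (.cons (.ev (nat_lit 10405113814801831316396863966543875) (nat_lit 2)) (.cons (.br (nat_lit 11) (nat_lit 0) (.cons (.kr (nat_lit 20282409603651670423951546253312) (nat_lit 309485028268089142434332672) (nat_lit 4) (nat_lit 0)) (.cons (.br (nat_lit 15) (nat_lit 0) (.cons (.ev (nat_lit 341616807575530374283929411404605489409) (nat_lit 1)) (.cons (.br (nat_lit 16) (nat_lit 0) (.cons (.ev (nat_lit 341616787292811285603990898310624903425) (nat_lit 1)) .nil)) .nil))) (.cons (.br (nat_lit 15) (nat_lit 0) (.cons (.rf (nat_lit 458) (nat_lit 19524845560764096097345)) (.cons (.ev (nat_lit 87113620352053199582352772268305015635968) (nat_lit 1)) .nil))) .nil)))) .nil))))) (.cons (.br (nat_lit 11) (nat_lit 0) (.cons (.ev (nat_lit 1329288843016144698073672778101293824) (nat_lit 2)) (.cons (.kr (nat_lit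 20282409608374036906816896499712) (nat_lit 1334420292643450700532337556609564672) (nat_lit 9) (nat_lit 0)) (.cons (.br (nat_lit 7) (nat_lit 0) (.cons (.ev (nat_lit 10404955977446785536921467852292097) (nat_lit 2)) (.cons (.ev (nat_lit 1366446400186988841151449011811181265411) (nat_lit 3)) (.cons (.br (nat_lit 14) (nat_lit 0) (.cons (.ev (nat_lit 1366456785098856491494776984694895805447) (nat_lit 3)) (.cons (.ev (nat_lit 5192296860966901924176316860465408) (nat_lit 2)) .nil))) .nil)))) (.cons (.br (nat_lit 7) (nat_lit 0) (.cons (.rf (nat_lit 1) (nat_lit 582034877856961)) (.cons (.br (nat_lit 14) (nat_lit 0) (.cons (.ev (nat_lit 5192296860966901924176316860465408) (nat_lit 2)) (.cons (.br (nat_lit 16) (nat_lit 0) (.cons (.ev (nat_lit 1361150257708200802730683718827050926599) (nat_lit 3)) .nil)) .nil))) (.cons (.br (nat_lit 14) (nat_lit 0) (.cons (.br (nat_lit 16) (nat_lit 0) (.cons (.ev (nat_lit 1361160641986243152959896982166320841731) (nat_lit 3)) .nil)) (.cons (.ev (nat_lit 87113615159756341052228991419010600927488) (nat_lit 1)) .nil)))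 .nil)))) .nil))))) (.cons (.br (nat_lit 11) (nat_lit 0) (.cons (.br (nat_lit 14) (nat_lit 0) (.cons (.ev (nat_lit 10405115055159722098580076246467587) (nat_lit 3)) (.cons (.ev (nat_lit 340282387203658765791499218020273815808) (nat_lit 1)) (.cons (.br (nat_lit 15) (nat_lit 0) (.cons (.ev (nat_lit 2658476353208821041699043338784735233) (nat_lit 2)) (.cons (.rf (nat_lit 1269) (nat_lit 677582165103132179601393696)) .nil))) .nil)))) (.cons (.br (nat_lit 7) (nat_lit 0) (.cons (.ev (nat_lit 20521333244956155928539144782339) (nat_lit 3)) (.cons (.ev (nat_lit 340282387203658765791499218020273815808) (nat_lit 1)) (.cons (.br (nat_lit 15) (nat_lit 0) (.cons (.ev (nat_lit 2668860946925881215185535256691343873) (nat_lit 2)) (.cons (.rf (nat_lit 138) (nat_lit 21174331975449106646899145)) .nil))) .nil)))) (.cons (.kr (nat_lit 20282409603651670423951546253312) (nat_lit 309485028268089142434332672) (nat_lit 4) (nat_lit 0)) (.cons (.br (nat_lit 7) (nat_lit 0) (.cons (.ev (nat_lit 10404955977446785536921467852292097) (nat_lit 2)) (.cons (.ev (nat_lit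 1366446400505144247987817297601515356679) (nat_lit 3)) (.cons (.br (nat_lit 14) (nat_lit 0) (.cons (.ev (nat_lit 1366456785098856491494776984694895805447) (nat_lit 3)) (.cons (.ev (nat_lit 5192455933834616829860695328686338) (nat_lit 2)) .nil))) .nil)))) (.cons (.br (nat_lit 7) (nat_lit 0) (.cons (.br (nat_lit 15) (nat_lit 0) (.cons (.ev (nat_lit 340287579579434769197823185105797054465) (nat_lit 1)) (.cons (.rf (nat_lit 1201) (nat_lit 19992400220989689724057868)) .nil))) (.cons (.br (nat_lit 14) (nat_lit 0) (.cons (.ev (nat_lit 1361150257708195948137939328831771247111) (nat_lit 3)) (.cons (.rf (nat_lit 740) (nat_lit 639756807073896228240925132)) .nil))) (.cons (.br (nat_lit 14) (nat_lit 0) (.cons (.ev (nat_lit 1361139873114483742556908996533059715079) (nat_lit 3)) (.cons (.ev (nat_lit 1361160642144082935228551032558407778309) (nat_lit 3)) .nil))) (.cons (.br (nat_lit 14) (nat_lit 0) (.cons (.br (nat_lit 16) (nat_lit 0) (.cons (.ev (nat_lit 680569926218895715557408152765429973249) (nat_lit 2)) .nil)) (.cons (.ev (nat_lit 1361150257234691164963217359472322283009)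 (nat_lit 3)) (.cons (.br (nat_lit 15) (nat_lit 0) (.cons (.ev (nat_lit 680569926297813179395073626687775310594) (nat_lit 2)) .nil)) .nil)))) .nil))))) .nil)))))) (.cons (.br (nat_lit 11) (nat_lit 0) (.cons (.br (nat_lit 15) (nat_lit 0) (.cons (.rf (nat_lit 1) (nat_lit 581864387783905)) (.cons (.ev (nat_lit 2658476353208821041699043338784735233) (nat_lit 2)) (.cons (.br (nat_lit 14) (nat_lit 0) (.cons (.br (nat_lit 16) (nat_lit 0) (.cons (.ev (nat_lit 341611594917034077994357914653648027648) (nat_lit 1)) .nil)) (.cons (.ev (nat_lit 87113620352053199582352772268305015635968) (nat_lit 1)) .nil))) .nil)))) (.cons (.br (nat_lit 15) (nat_lit 0) (.cons (.kr (nat_lit 1334420292643450700532337560904531968) (nat_lit 310693954087703771609038848) (nat_lit 4) (nat_lit 0)) (.cons (.ev (nat_lit 2668860946925881215185535256691343873) (nat_lit 2)) (.cons (.br (nat_lit 7) (nat_lit 0) (.cons (.rf (nat_lit 2) (nat_lit 19076484108023773537)) (.cons (.ev (nat_lit 87113620352053199582352772268305015635968) (nat_lit 1)) .nil))) .nil)))) (.cons (.kr (nat_lit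 20282409603651670423951546253312) (nat_lit 309485028268089142434332672) (nat_lit 4) (nat_lit 0)) (.cons (.br (nat_lit 7) (nat_lit 0) (.cons (.ev (nat_lit 10404955977446785536921467852292097) (nat_lit 2)) (.cons (.br (nat_lit 14) (nat_lit 0) (.cons (.ev (nat_lit 341611615199134196654653737610179051520) (nat_lit 1)) (.cons (.br (nat_lit 16) (nat_lit 0) (.cons (.ev (nat_lit 1366477553810305093996289309343857378305) (nat_lit 3)) .nil)) .nil))) (.cons (.br (nat_lit 14) (nat_lit 0) (.cons (.ev (nat_lit 341611615278670630512106579799413161985) (nat_lit 1)) (.cons (.br (nat_lit 15) (nat_lit 0) (.cons (.ev (nat_lit 1366477553810305093996289309343857378305) (nat_lit 3)) .nil)) .nil))) (.cons (.br (nat_lit 17) (nat_lit 0) (.cons (.ev (nat_lit 174224577055817351832853350986384544891136) (nat_lit 2)) (.cons (.ev (nat_lit 348449143747720159613719829276475538146821) (nat_lit 3)) (.cons (.ev (nat_lit 348449143747404489758368588668268265735681) (nat_lit 3)) .nil)))) .nil))))) (.cons (.br (nat_lit 7) (nat_lit 0) (.cons (.br (nat_lit 15) (nat_lit 0)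 (.cons (.rf (nat_lit 458) (nat_lit 20662665223479264165063)) (.cons (.ev (nat_lit 87113620352053199582352772268305015635968) (nat_lit 1)) .nil))) (.cons (.br (nat_lit 14) (nat_lit 0) (.cons (.rf (nat_lit 1270) (nat_lit 677582165103132179601393696)) (.cons (.ev (nat_lit 87113615180038441170889287241958542016768) (nat_lit 1)) .nil))) (.cons (.br (nat_lit 14) (nat_lit 0) (.cons (.br (nat_lit 16) (nat_lit 0) (.cons (.ev (nat_lit 1361150257234686310370472969477042603521) (nat_lit 3)) .nil)) (.cons (.ev (nat_lit 5192455933834616829860695328686338) (nat_lit 2)) (.cons (.br (nat_lit 15) (nat_lit 0) (.cons (.ev (nat_lit 1361150257234686310370472969477042603521) (nat_lit 3)) .nil)) .nil)))) (.cons (.br (nat_lit 14) (nat_lit 0) (.cons (.ev (nat_lit 87113615180038441170889287241958542016768) (nat_lit 1)) (.cons (.rf (nat_lit 1270) (nat_lit 677582165103132179601393696)) .nil))) .nil))))) .nil)))))) .nil))))))) .nil)))))))]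

theorem c69 : chkAll C T R L69 (nat_lit 1259) = true := by decide +kernel

theorem l69 : (nat_lit 1259) + L69.length = (nat_lit 1272) := by decide +kernel

/-- part of the certificates -/
def L70 : List Prf := [(.br (nat_lit 2) (nat_lit 0) (.cons (.ev (nat_lit 20520097722694288764588909527553) (nat_lit 2)) (.cons (.ev (nat_lit 20362260367722296269885679993347) (nat_lit 2)) (.cons (.ev (nat_lit 18609212938941099930539084288883034125) (nat_lit 4)) (.cons (.br (nat_lit 15) (nat_lit 0) (.cons (.ev (nat_lit 2658476512284106608100404746103292417) (nat_lit 2)) (.cons (.ev (nat_lit 2658476353208811596822525369995231747) (nat_lit 2)) (.cons (.br (nat_lit 7) (nat_lit 0) (.cons (.ev (nat_lit 16023448467698855192793047572412630533) (nat_lit 4)) (.cons (.ev (nat_lit 341611594995951546591356261607747354880) (nat_lit 1)) (.cons (.br (nat_lit 14) (nat_lit 0) (.cons (.ev (nat_lit 341611615278671839437854418305248395520) (nat_lit 1)) (.cons (.br (nat_lit 16) (nat_lit 0) (.cons (.ev (nat_lit 1361139872798806595724100209064961902083) (nat_lit 3)) .nil))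 .nil))) .nil)))) (.cons (.br (nat_lit 7) (nat_lit 0) (.cons (.rf (nat_lit 1) (nat_lit 582172316901569)) (.cons (.br (nat_lit 14) (nat_lit 0) (.cons (.ev (nat_lit 31174618166426902454560332513018375) (nat_lit 3)) (.cons (.br (nat_lit 16) (nat_lit 0) (.cons (.zr (nat_lit 4083388666725681330002814982465024688147) (nat_lit 13302665581535967847337317226762600960) (nat_lit 48) (nat_lit 1)) .nil)) .nil))) (.cons (.br (nat_lit 14) (nat_lit 0) (.cons (.br (nat_lit 16) (nat_lit 0) (.cons (.zr (nat_lit 4083388423340490730185965701982511431699) (nat_lit 13302665581532341069878473339238482432) (nat_lit 48) (nat_lit 1)) .nil)) (.cons (.ev (nat_lit 5348086602539194730077831816582005255) (nat_lit 3)) .nil))) .nil)))) .nil))))) .nil))))),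
 (.br (nat_lit 7) (nat_lit 0) (.cons (.ev (nat_lit 72713153347940721622272776117161485) (nat_lit 4)) (.cons (.br (nat_lit 14) (nat_lit 0) (.cons (.ev (nat_lit 8037696532488329763821358185336671245) (nat_lit 4)) (.cons (.rf (nat_lit 1) (nat_lit 582139002593345)) .nil))) .nil))),
 (.br (nat_lit 7) (nat_lit 0) (.cons (.kr (nat_lit 618974815796712251886534657) (nat_lit 10404955356044747011438275075244032) (nat_lit 0) (nat_lit 1)) (.cons (.br (nat_lit 8) (nat_lit 0) (.cons (.ev (nat_lit 20679170599928148425415594213891) (nat_lit 3)) (.cons (.rf (nat_lit 1) (nat_lit 581932844169281)) .nil))) .nil))),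
 (.br (nat_lit 2) (nat_lit 0) (.cons (.ev (nat_lit 20520094095917046939007890555138) (nat_lit 2)) (.cons (.rf (nat_lit 1273) (nat_lit 583706118939841765935136)) (.cons (.rf (nat_lit 1274) (nat_lit 583706118939841765935136)) (.cons (.br (nat_lit 7) (nat_lit 0) (.cons (.rf (nat_lit 1274) (nat_lit 425506980079895407762627)) (.cons (.rf (nat_lit 1273) (nat_lit 425506980079895407762627)) (.cons (.br (nat_lit 8) (nat_lit 0) (.cons (.ev (nat_lit 20679170599928148425415594213891) (nat_lit 3)) (.cons (.ev (nat_lit 341611594995951546591356261607747354880) (nat_lit 1)) (.cons (.br (nat_lit 14) (nat_lit 0) (.cons (.ev (nat_lit 340287579500516086952495189518578614528) (nat_lit 1)) (.cons (.ev (nat_lit 10405113812383979533613168471310851) (nat_lit 2)) .nil))) .nil)))) (.cons (.br (nat_lit 8) (nat_lit 0) (.cons (.kr (nat_lit 20361637770888301244414735417344) (nat_lit 1334420292952935728800426699043897344) (nat_lit 4) (nat_lit 0)) (.cons (.br (nat_lit 14) (nat_lit 0) (.cons (.ev (nat_lit 10405113812383979533613168471310851) (nat_lit 2)) (.cons (.br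 (nat_lit 16) (nat_lit 0) (.cons (.ev (nat_lit 341616787292811285603990898310624903425) (nat_lit 1)) .nil)) .nil))) (.cons (.br (nat_lit 14) (nat_lit 0) (.cons (.br (nat_lit 16) (nat_lit 0) (.cons (.ev (nat_lit 340282367000476111005907034167746560256) (nat_lit 1)) .nil)) (.cons (.ev (nat_lit 10405113812383979533613168471310851) (nat_lit 2)) .nil))) .nil)))) .nil))))) .nil))))),
 (.br (nat_lit 6) (nat_lit 0) (.cons (.rf (nat_lit 1263) (nat_lit 547071928957117828006976)) (.cons (.rf (nat_lit 1239) (nat_lit 425506980079895407762627)) (.cons (.rf (nat_lit 1272) (nat_lit 583706118939841765935136)) (.cons (.rf (nat_lit 1271) (nat_lit 425506980079895407762627)) (.cons (.rf (nat_lit 1275) (nat_lit 583706118939841765935136)) (.cons (.br (nat_lit 7) (nat_lit 0) (.cons (.ev (nat_lit 20520097722694288764588909527553) (nat_lit 2)) (.cons (.br (nat_lit 2) (nat_lit 0) (.cons (.br (nat_lit 15) (nat_lit 0) (.cons (.ev (nat_lit 2668861106001185745128032605967482881) (nat_lit 2)) (.cons (.rf (nat_lit 1) (nat_lit 582165878650945)) .nil))) (.cons (.ev (nat_lit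 20362257959315390006366621008387) (nat_lit 2)) (.cons (.br (nat_lit 14) (nat_lit 0) (.cons (.ev (nat_lit 18609213412441056699862731795630130693) (nat_lit 4)) (.cons (.ev (nat_lit 10404955977437340660405689462555137) (nat_lit 2)) (.cons (.br (nat_lit 15) (nat_lit 0) (.cons (.ev (nat_lit 340282367000477324654093131666566480128) (nat_lit 1)) (.cons (.rf (nat_lit 1243) (nat_lit 21163595978279920232045923)) .nil))) .nil)))) (.cons (.br (nat_lit 14) (nat_lit 0) (.cons (.rf (nat_lit 1) (nat_lit 615949248340193)) (.cons (.ev (nat_lit 10404955977437340660405689462555137) (nat_lit 2)) (.cons (.br (nat_lit 15) (nat_lit 0) (.cons (.rf (nat_lit 569) (nat_lit 625094838704159605432780)) (.cons (.ev (nat_lit 87112285952121884412789834264077752402176) (nat_lit 1)) .nil))) .nil)))) .nil))))) (.cons (.br (nat_lit 2) (nat_lit 0) (.cons (.rf (nat_lit 1275) (nat_lit 547071928957117828006976)) (.cons (.rf (nat_lit 1272) (nat_lit 315676181668086983694563)) (.cons (.ev (nat_lit 10405906729904067412423565721732613) (nat_lit 4)) (.cons (.br (nat_lit 8) (nat_lit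 0) (.cons (.kr (nat_lit 20282409603651670423951546253312) (nat_lit 309485028268089142434332672) (nat_lit 4) (nat_lit 0)) (.cons (.br (nat_lit 15) (nat_lit 0) (.cons (.ev (nat_lit 2732965472489620564676485589970806900229) (nat_lit 4)) (.cons (.br (nat_lit 16) (nat_lit 0) (.cons (.ev (nat_lit 2732965471853309675150737387296462472717) (nat_lit 4)) .nil)) .nil))) (.cons (.br (nat_lit 15) (nat_lit 0) (.cons (.br (nat_lit 16) (nat_lit 0) (.cons (.ev (nat_lit 2722290109514637987551555271736181130757) (nat_lit 4)) .nil)) (.cons (.ev (nat_lit 696908993991204085992181174166472721174029) (nat_lit 4)) .nil))) .nil)))) .nil))))) (.cons (.rf (nat_lit 1271) (nat_lit 315676181668086983694563)) (.cons (.br (nat_lit 2) (nat_lit 0) (.cons (.ev (nat_lit 20362260377167173911564009865217) (nat_lit 2)) (.cons (.ev (nat_lit 20789708774647192532599636475904517) (nat_lit 3)) (.cons (.br (nat_lit 8) (nat_lit 0) (.cons (.kr (nat_lit 20520095304842649535330509651969) (nat_lit 2668840585905871457600853398104571904) (nat_lit 0) (nat_lit 1)) (.cons (.ev (nat_lit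 341611594917034073271919655669219721473) (nat_lit 1)) (.cons (.br (nat_lit 14) (nat_lit 0) (.cons (.ev (nat_lit 10404955977437340660405689462555137) (nat_lit 2)) (.cons (.rf (nat_lit 1121) (nat_lit 21163554385210795199206671)) .nil))) .nil)))) (.cons (.ev (nat_lit 340282366920938463463374608531296682241) (nat_lit 1)) (.cons (.br (nat_lit 8) (nat_lit 0) (.cons (.br (nat_lit 15) (nat_lit 0) (.cons (.ev (nat_lit 341616807495992731463835806607286992897) (nat_lit 1)) (.cons (.ev (nat_lit 2668860946925881215185535256691343873) (nat_lit 2)) .nil))) (.cons (.kr (nat_lit 20282409603651670423951546253312) (nat_lit 309485028268089142434332672) (nat_lit 4) (nat_lit 0)) (.cons (.br (nat_lit 14) (nat_lit 0) (.cons (.ev (nat_lit 10405113812383979533613168471310851) (nat_lit 2)) (.cons (.br (nat_lit 15) (nat_lit 0) (.cons (.ev (nat_lit 341616787213892612840433471798175072257) (nat_lit 1)) .nil)) .nil))) (.cons (.br (nat_lit 14) (nat_lit 0) (.cons (.rf (nat_lit 618) (nat_lit 20003221943222958668389411)) (.cons (.ev (nat_lit 10404955977437340660405689462555137)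 (nat_lit 2)) (.cons (.rf (nat_lit 685) (nat_lit 20003295771616790427305024)) .nil)))) .nil))))) .nil)))))) (.cons (.br (nat_lit 8) (nat_lit 0) (.cons (.br (nat_lit 14) (nat_lit 0) (.cons (.rf (nat_lit 1) (nat_lit 581898751811649)) (.cons (.ev (nat_lit 10404955977437340660405689462555137) (nat_lit 2)) (.cons (.br (nat_lit 15) (nat_lit 0) (.cons (.rf (nat_lit 2) (nat_lit 20193376815624331329)) (.cons (.ev (nat_lit 2658476353208821041699045546397925377) (nat_lit 2)) .nil))) .nil)))) (.cons (.br (nat_lit 2) (nat_lit 0) (.cons (.kr (nat_lit 20520095304842649535330509651969) (nat_lit 2668840585905871457600853398104571904) (nat_lit 0) (nat_lit 1)) (.cons (.br (nat_lit 15) (nat_lit 0) (.cons (.ev (nat_lit 2668860946925881215185535256691343873) (nat_lit 2)) (.cons (.br (nat_lit 16) (nat_lit 0) (.cons (.ev (nat_lit 341616787292811285603990898310624903425) (nat_lit 1)) .nil)) .nil))) (.cons (.br (nat_lit 15) (nat_lit 0) (.cons (.rf (nat_lit 2) (nat_lit 20193376815611754753)) (.cons (.ev (nat_lit 2668860946925881215185535256691343873) (nat_lit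 2)) .nil))) .nil)))) (.cons (.kr (nat_lit 20282409603651670423951546253312) (nat_lit 309485028268089142434332672) (nat_lit 4) (nat_lit 0)) (.cons (.br (nat_lit 14) (nat_lit 0) (.cons (.br (nat_lit 15) (nat_lit 0) (.cons (.ev (nat_lit 1366477554922599074071417579868160133129) (nat_lit 4)) (.cons (.br (nat_lit 16) (nat_lit 0) (.cons (.ev (nat_lit 1366477553970628038380491766725685936133) (nat_lit 4)) .nil)) .nil))) (.cons (.ev (nat_lit 10405113812383979533613168471310851) (nat_lit 2)) (.cons (.ev (nat_lit 10404955977437340660405689462555137) (nat_lit 2)) (.cons (.br (nat_lit 17) (nat_lit 0) (.cons (.ev (nat_lit 87112291124057105181469975059681500987648) (nat_lit 1)) (.cons (.ev (nat_lit 87112285952042965740026276837565302571008) (nat_lit 1)) (.cons (.ev (nat_lit 87112285931760246651346338324471321985024) (nat_lit 1)) .nil)))) .nil))))) (.cons (.br (nat_lit 14) (nat_lit 0) (.cons (.rf (nat_lit 67) (nat_lit 639951990233250691121579268)) (.cons (.br (nat_lit 2) (nat_lit 0) (.cons (.br (nat_lit 16) (nat_lit 0) (.cons (.ev (nat_lit 340287579579434764475384925017578930433)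 (nat_lit 1)) .nil)) (.cons (.ev (nat_lit 87113620352132118264561062661651989332225) (nat_lit 1)) .nil))) (.cons (.ev (nat_lit 10404955977437340660405689462555137) (nat_lit 2)) (.cons (.br (nat_lit 2) (nat_lit 0) (.cons (.ev (nat_lit 87113620352132118264561062661651989332225) (nat_lit 1)) (.cons (.br (nat_lit 15) (nat_lit 0) (.cons (.ev (nat_lit 340287579579434764475384925017578930433) (nat_lit 1)) .nil)) .nil))) .nil))))) .nil)))))) .nil))))))) .nil))))))),
 (.br (nat_lit 7) (nat_lit 0) (.cons (.ev (nat_lit 31174460329090819640886025993061895) (nat_lit 3)) (.cons (.br (nat_lit 8) (nat_lit 0) (.cons (.ev (nat_lit 2668861106001185745128034813547118595) (nat_lit 2)) (.cons (.rf (nat_lit 1) (nat_lit 581928549301313)) .nil))) .nil))),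
 (.br (nat_lit 2) (nat_lit 0) (.cons (.rf (nat_lit 1263) (nat_lit 547071928957117828006976)) (.cons (.rf (nat_lit 1253) (nat_lit 547071928957117828006976)) (.cons (.rf (nat_lit 1276) (nat_lit 547071928957117828006976)) (.cons (.rf (nat_lit 1271) (nat_lit 547071928957117828006976)) (.cons (.br (nat_lit 6) (nat_lit 0) (.cons (.rf (nat_lit 1239) (nat_lit 425506980079895407762627)) (.cons (.ev (nat_lit 8016927345044500230783146818248509445) (nat_lit 4)) (.cons (.rf (nat_lit 1277) (nat_lit 583706118939841765935136)) (.cons (.br (nat_lit 7) (nat_lit 0) (.cons (.rf (nat_lit 1277) (nat_lit 547071928957117828006976)) (.cons (.ev (nat_lit 10664998747244578200884273360444851725) (nat_lit 4)) (.cons (.br (nat_lit 8) (nat_lit 0) (.cons (.ev (nat_lit 20362260377167173913771623055361) (nat_lit 2)) (.cons (.ev (nat_lit 1361160642301913046090069453330687853571) (nat_lit 3)) (.cons (.br (nat_lit 11) (nat_lit 0) (.cons (.ev (nat_lit 1363787944514188578892572247144897184261) (nat_lit 3)) (.cons (.ev (nat_lit 1344805045128748301191785614963442435) (nat_lit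 2)) .nil))) .nil)))) (.cons (.br (nat_lit 8) (nat_lit 0) (.cons (.rf (nat_lit 1) (nat_lit 581894255623233)) (.cons (.br (nat_lit 11) (nat_lit 0) (.cons (.ev (nat_lit 1366456784780710755917391663348148732931) (nat_lit 3)) (.cons (.br (nat_lit 16) (nat_lit 0) (.cons (.ev (nat_lit 681909538729165902330665848053602386179) (nat_lit 2)) .nil)) .nil))) (.cons (.br (nat_lit 11) (nat_lit 0) (.cons (.ev (nat_lit 1344805045128748301191785614963442435) (nat_lit 2)) (.cons (.ev (nat_lit 348457139884725087299983022285917367042561) (nat_lit 3)) .nil))) .nil)))) .nil))))) .nil))))) (.cons (.br (nat_lit 15) (nat_lit 0) (.cons (.rf (nat_lit 1276) (nat_lit 425506980079895407762627)) (.cons (.rf (nat_lit 1271) (nat_lit 315676181668086983694563)) (.cons (.kr (nat_lit 20361638979814120859043910123521) (nat_lit 2668840585286901401064676212747534336) (nat_lit 0) (nat_lit 1)) (.cons (.br (nat_lit 7) (nat_lit 0) (.cons (.rf (nat_lit 1239) (nat_lit 425506980079895407762627)) (.cons (.kr (nat_lit 618974778902661154513879041) (nat_lit 20361638975091754377273793314816)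 (nat_lit 0) (nat_lit 1)) (.cons (.ev (nat_lit 2658476512286524459883186234018889731) (nat_lit 2)) (.cons (.br (nat_lit 6) (nat_lit 0) (.cons (.ev (nat_lit 10404955975028933754139962823934467) (nat_lit 2)) (.cons (.br (nat_lit 16) (nat_lit 0) (.cons (.ev (nat_lit 340287579500516086952495188423345176833) (nat_lit 1)) (.cons (.ev (nat_lit 341611594917032864346171817154828107776) (nat_lit 1)) .nil))) (.cons (.br (nat_lit 17) (nat_lit 0) (.cons (.ev (nat_lit 87113615159756341052228991419010600927488) (nat_lit 1)) (.cons (.ev (nat_lit 87112291144339824274835458342508650627073) (nat_lit 1)) .nil))) .nil)))) .nil))))) (.cons (.br (nat_lit 6) (nat_lit 0) (.cons (.kr (nat_lit 20282409603651742763016265990400) (nat_lit 1334420292643450700532338656154746880) (nat_lit 1) (nat_lit 0)) (.cons (.br (nat_lit 7) (nat_lit 0) (.cons (.ev (nat_lit 72713153357649907111043936223759885) (nat_lit 4)) (.cons (.ev (nat_lit 10405113814801831316396863966543875) (nat_lit 2)) (.cons (.br (nat_lit 16) (nat_lit 0) (.cons (.ev (nat_lit 340282366920939677111560706030116602113)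 (nat_lit 1)) (.cons (.ev (nat_lit 341616787292810076678243621650953142273) (nat_lit 1)) .nil))) .nil)))) (.cons (.br (nat_lit 8) (nat_lit 0) (.cons (.ev (nat_lit 31174460329090819640886025993061895) (nat_lit 3)) (.cons (.ev (nat_lit 1374484076045246194662115386199063791619) (nat_lit 4)) (.cons (.br (nat_lit 16) (nat_lit 0) (.cons (.ev (nat_lit 1361150257392523684232218502325430780421) (nat_lit 3)) (.cons (.ev (nat_lit 4086088417940889883610381729800246134791) (nat_lit 4)) .nil))) .nil)))) (.cons (.br (nat_lit 8) (nat_lit 0) (.cons (.ev (nat_lit 2658476353208811596822527560394998273) (nat_lit 2)) (.cons (.ev (nat_lit 340287559297335859463275200663691198720) (nat_lit 1)) (.cons (.br (nat_lit 11) (nat_lit 0) (.cons (.ev (nat_lit 2732903165242992856615140111209391195653) (nat_lit 4)) (.cons (.ev (nat_lit 2668861106001176300250388737237844481) (nat_lit 2)) .nil))) .nil)))) (.cons (.br (nat_lit 11) (nat_lit 0) (.cons (.br (nat_lit 16) (nat_lit 0) (.cons (.ev (nat_lit 2722290110145987369660014675074180713997) (nat_lit 4)) (.cons (.ev (nat_lit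 2732965471853319384336226176117474592269) (nat_lit 4)) .nil))) (.cons (.br (nat_lit 7) (nat_lit 0) (.cons (.ev (nat_lit 341611615278671844160292676194443264000) (nat_lit 1)) (.cons (.ev (nat_lit 20362260377167173913771623055361) (nat_lit 2)) .nil))) (.cons (.ev (nat_lit 340282366920939677111560706030116602113) (nat_lit 1)) (.cons (.br (nat_lit 8) (nat_lit 0) (.cons (.br (nat_lit 16) (nat_lit 0) (.cons (.ev (nat_lit 341616807495992731463835806607270215680) (nat_lit 1)) .nil)) (.cons (.br (nat_lit 7) (nat_lit 0) (.cons (.ev (nat_lit 341616807495992731463835806607270215680) (nat_lit 1)) .nil)) (.cons (.ev (nat_lit 2668861106001176300250388737237844481) (nat_lit 2)) .nil)))) .nil))))) .nil)))))) (.cons (.br (nat_lit 6) (nat_lit 0) (.cons (.rf (nat_lit 1239) (nat_lit 425506980079895407762627)) (.cons (.br (nat_lit 7) (nat_lit 0) (.cons (.ev (nat_lit 72713153357649907111043936223759885) (nat_lit 4)) (.cons (.ev (nat_lit 10405113814801831316396863966543875) (nat_lit 2)) (.cons (.br (nat_lit 17) (nat_lit 0) (.cons (.ev (nat_lit 87112285952121884417512273086012117221376)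 (nat_lit 1)) (.cons (.ev (nat_lit 87113620352132118264561062660556772671745) (nat_lit 1)) .nil))) .nil)))) (.cons (.br (nat_lit 7) (nat_lit 0) (.cons (.ev (nat_lit 31174460329090819640886025993061895) (nat_lit 3)) (.cons (.br (nat_lit 8) (nat_lit 0) (.cons (.ev (nat_lit 20790024449357284091550428637299205) (nat_lit 3)) (.cons (.ev (nat_lit 5337702008822144000891397132341609985) (nat_lit 3)) .nil))) (.cons (.rf (nat_lit 1140) (nat_lit 19998600933553938300699882)) .nil)))) (.cons (.br (nat_lit 7) (nat_lit 0) (.cons (.br (nat_lit 11) (nat_lit 0) (.cons (.ev (nat_lit 340287579579435973401276315770126663680) (nat_lit 1)) (.cons (.rf (nat_lit 358) (nat_lit 19987458157333986325871850)) .nil))) (.cons (.br (nat_lit 8) (nat_lit 0) (.cons (.ev (nat_lit 2722269340642888191886439295445484439053) (nat_lit 4)) (.cons (.ev (nat_lit 10644229239174259677542971852305729029) (nat_lit 4)) .nil))) (.cons (.br (nat_lit 8) (nat_lit 0) (.cons (.ev (nat_lit 20362260377167173913771623055361) (nat_lit 2)) (.cons (.ev (nat_lit 341611594995952750794809392263453475073)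 (nat_lit 1)) .nil))) (.cons (.br (nat_lit 16) (nat_lit 0) (.cons (.br (nat_lit 11) (nat_lit 0) (.cons (.ev (nat_lit 2668861106001176300250388737237844481) (nat_lit 2)) .nil)) (.cons (.br (nat_lit 8) (nat_lit 0) (.cons (.ev (nat_lit 2668861106001176300250388737237844481) (nat_lit 2)) .nil)) (.cons (.ev (nat_lit 87113620352132118264561062660556772671745) (nat_lit 1)) .nil)))) .nil))))) (.cons (.br (nat_lit 7) (nat_lit 0) (.cons (.ev (nat_lit 2658476353208811596822527560394998273) (nat_lit 2)) (.cons (.br (nat_lit 17) (nat_lit 0) (.cons (.ev (nat_lit 696898318628860452872723724420186569180677) (nat_lit 4)) (.cons (.ev (nat_lit 696908993990567784811840914752619120430597) (nat_lit 4)) .nil))) (.cons (.br (nat_lit 8) (nat_lit 0) (.cons (.rf (nat_lit 2) (nat_lit 19076484108023966977)) (.cons (.br (nat_lit 11) (nat_lit 0) (.cons (.ev (nat_lit 2668861106001176300250388737237844481) (nat_lit 2)) .nil)) (.cons (.br (nat_lit 11) (nat_lit 0) (.cons (.ev (nat_lit 2668861106001176300250388737237844481) (nat_lit 2)) .nil)) .nil)))) (.cons (.br (nat_lit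 11) (nat_lit 0) (.cons (.ev (nat_lit 20362260377167173913771623055361) (nat_lit 2)) (.cons (.ev (nat_lit 87112291124136644037901505389018296156160) (nat_lit 1)) .nil))) .nil))))) .nil)))))) .nil))))))) .nil))))))),
 (.br (nat_lit 7) (nat_lit 0) (.cons (.kr (nat_lit 5192297168019837521933159091929344) (nat_lit 1329227995784915891350832608966672384) (nat_lit 1) (nat_lit 0)) (.cons (.br (nat_lit 8) (nat_lit 0) (.cons (.ev (nat_lit 2668861106001185745128034813547118595) (nat_lit 2)) (.cons (.rf (nat_lit 1) (nat_lit 581928549333057)) .nil))) .nil)))]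

theorem c70 : chkAll C T R L70 (nat_lit 1272) = true := by decide +kernel

theorem l70 : (nat_lit 1272) + L70.length = (nat_lit 1280) := by decide +kernel

/-- part of the certificates -/
def L71 : List Prf := [(.br (nat_lit 6) (nat_lit 0) (.cons (.rf (nat_lit 1239) (nat_lit 425506980079895407762627)) (.cons (.ev (nat_lit 2679245857555619927648038017130693635) (nat_lit 3)) (.cons (.rf (nat_lit 1279) (nat_lit 583706118939841765935136)) (.cons (.br (nat_lit 7) (nat_lit 0) (.cons (.rf (nat_lit 1279) (nat_lit 547071928957117828006976)) (.cons (.ev (nat_lit 5327317257265291966876849414198264327) (nat_lit 3)) (.cons (.br (nat_lit 8) (nat_lit 0) (.cons (.ev (nat_lit 20362260377167173913771623055361) (nat_lit 2)) (.cons (.ev (nat_lit 4088757259156909634100201421620176357381) (nat_lit 4)) (.cons (.br (nat_lit 11) (nat_lit 0) (.cons (.ev (nat_lit 1379800987711485316023979289630774658575) (nat_lit 4)) (.cons (.ev (nat_lit 1344805045126339894285522095938011905) (nat_lit 2)) .nil))) .nil)))) (.cons (.br (nat_lit 8) (nat_lit 0) (.cons (.rf (nat_lit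 1) (nat_lit 581894255654977)) (.cons (.br (nat_lit 11) (nat_lit 0) (.cons (.ev (nat_lit 4083461116678121595531859906620211988485) (nat_lit 4)) (.cons (.br (nat_lit 16) (nat_lit 0) (.cons (.ev (nat_lit 681909538729168329627038043051275780353) (nat_lit 2)) .nil)) .nil))) (.cons (.br (nat_lit 11) (nat_lit 0) (.cons (.ev (nat_lit 1344805045126339894285522095938011905) (nat_lit 2)) (.cons (.ev (nat_lit 348451802204507729754727584411960931255819) (nat_lit 4)) .nil))) .nil)))) .nil))))) .nil))))),
 (.br (nat_lit 2) (nat_lit 0) (.cons (.rf (nat_lit 1263) (nat_lit 547071928957117828006976)) (.cons (.rf (nat_lit 1253) (nat_lit 547071928957117828006976)) (.cons (.rf (nat_lit 1276) (nat_lit 547071928957117828006976)) (.cons (.rf (nat_lit 1271) (nat_lit 547071928957117828006976)) (.cons (.rf (nat_lit 1280) (nat_lit 583706118939841765935136)) (.cons (.br (nat_lit 6) (nat_lit 0) (.cons (.rf (nat_lit 1239) (nat_lit 425506980079895407762627)) (.cons (.rf (nat_lit 1278) (nat_lit 425506980079895407762627)) (.cons (.br (nat_lit 7) (nat_lit 0) (.cons (.rf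 (nat_lit 1280) (nat_lit 425506980079895407762627)) (.cons (.rf (nat_lit 1276) (nat_lit 315676181668086983694563)) (.cons (.br (nat_lit 8) (nat_lit 0) (.cons (.kr (nat_lit 310693954087703771609038849) (nat_lit 1334420292643450700532338656137969664) (nat_lit 0) (nat_lit 1)) (.cons (.ev (nat_lit 341611615199132983006467641206559014913) (nat_lit 1)) (.cons (.br (nat_lit 14) (nat_lit 0) (.cons (.ev (nat_lit 340287559297334650537527362157855965185) (nat_lit 1)) (.cons (.ev (nat_lit 10405113812383979533613168471310851) (nat_lit 2)) .nil))) .nil)))) (.cons (.br (nat_lit 8) (nat_lit 0) (.cons (.kr (nat_lit 310693954087703771609038849) (nat_lit 1334420292643450700532338656137969664) (nat_lit 0) (nat_lit 1)) (.cons (.br (nat_lit 16) (nat_lit 0) (.cons (.ev (nat_lit 10405113812383979533613168471310851) (nat_lit 2)) (.cons (.ev (nat_lit 340282387203658761069205075319154802688) (nat_lit 1)) .nil))) (.cons (.br (nat_lit 17) (nat_lit 0) (.cons (.ev (nat_lit 10405113812383979533613168471310851) (nat_lit 2)) (.cons (.ev (nat_lit 87112285952042965735303838015622364594433)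 (nat_lit 1)) .nil))) .nil)))) .nil))))) (.cons (.rf (nat_lit 1271) (nat_lit 425506980079895407762627)) (.cons (.br (nat_lit 7) (nat_lit 0) (.cons (.br (nat_lit 11) (nat_lit 0) (.cons (.ev (nat_lit 20790024446948877185284719111438855) (nat_lit 3)) (.cons (.ev (nat_lit 1361129488205091953402398752642363949571) (nat_lit 3)) (.cons (.br (nat_lit 14) (nat_lit 0) (.cons (.ev (nat_lit 1366467169374422980388177287799545922051) (nat_lit 3)) (.cons (.br (nat_lit 16) (nat_lit 0) (.cons (.ev (nat_lit 683228382209846577283428963759488500483) (nat_lit 2)) .nil)) .nil))) .nil)))) (.cons (.rf (nat_lit 1278) (nat_lit 315676181668086983694563)) (.cons (.rf (nat_lit 1276) (nat_lit 315676181668086983694563)) (.cons (.br (nat_lit 8) (nat_lit 0) (.cons (.ev (nat_lit 20362260377167173913771623055361) (nat_lit 2)) (.cons (.kr (nat_lit 20361638979814120859043910123521) (nat_lit 2668840585286901401064676212747534336) (nat_lit 0) (nat_lit 1)) (.cons (.br (nat_lit 11) (nat_lit 0) (.cons (.ev (nat_lit 341611615278671839437854417210014957825) (nat_lit 1)) (.cons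 (.br (nat_lit 14) (nat_lit 0) (.cons (.ev (nat_lit 5327316939121955498807002419725468677) (nat_lit 3)) .nil)) .nil))) .nil)))) (.cons (.br (nat_lit 8) (nat_lit 0) (.cons (.br (nat_lit 14) (nat_lit 0) (.cons (.ev (nat_lit 10405113812383979533613168471310851) (nat_lit 2)) (.cons (.rf (nat_lit 2) (nat_lit 19075324089970699521)) .nil))) (.cons (.kr (nat_lit 20361638979814120859043910123521) (nat_lit 2668840585286901401064676212747534336) (nat_lit 0) (nat_lit 1)) (.cons (.br (nat_lit 11) (nat_lit 0) (.cons (.ev (nat_lit 10405113812383979533613168471310851) (nat_lit 2)) (.cons (.br (nat_lit 14) (nat_lit 0) (.cons (.ev (nat_lit 1361160642144078099524983217748537902081) (nat_lit 3)) .nil)) .nil))) (.cons (.br (nat_lit 11) (nat_lit 0) (.cons (.br (nat_lit 16) (nat_lit 0) (.cons (.ev (nat_lit 340287579579434764475384925017578930433) (nat_lit 1)) .nil)) (.cons (.ev (nat_lit 341611615199132983006467640111359131648) (nat_lit 1)) (.cons (.br (nat_lit 14) (nat_lit 0) (.cons (.ev (nat_lit 1379800988027164861966105785658807419395) (nat_lit 4)) .nil))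 .nil)))) .nil))))) .nil)))))) (.cons (.br (nat_lit 7) (nat_lit 0) (.cons (.br (nat_lit 11) (nat_lit 0) (.cons (.kr (nat_lit 20282719093402304995959330832385) (nat_lit 1334420371871613214796676249681920000) (nat_lit 0) (nat_lit 1)) (.cons (.br (nat_lit 14) (nat_lit 0) (.cons (.ev (nat_lit 340282366920939677111560706030116602113) (nat_lit 1)) (.cons (.br (nat_lit 16) (nat_lit 0) (.cons (.ev (nat_lit 1361139872640974085900263814573907640321) (nat_lit 3)) .nil)) .nil))) (.cons (.br (nat_lit 14) (nat_lit 0) (.cons (.br (nat_lit 16) (nat_lit 0) (.cons (.ev (nat_lit 1366477553810305112886042349696729874433) (nat_lit 3)) .nil)) (.cons (.ev (nat_lit 87112285931760246651346338325575145357313) (nat_lit 1)) .nil))) .nil)))) (.cons (.rf (nat_lit 1278) (nat_lit 315676181668086983694563)) (.cons (.rf (nat_lit 1276) (nat_lit 315676181668086983694563)) (.cons (.br (nat_lit 8) (nat_lit 0) (.cons (.ev (nat_lit 2658476353208821041699043338784735233) (nat_lit 2)) (.cons (.kr (nat_lit 20361638979814120859043910123521) (nat_lit 2668840585286901401064676212747534336)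 (nat_lit 0) (nat_lit 1)) (.cons (.ev (nat_lit 341611594995952755517247651256471715840) (nat_lit 1)) (.cons (.br (nat_lit 11) (nat_lit 0) (.cons (.ev (nat_lit 10405113812383979533613168471310851) (nat_lit 2)) (.cons (.br (nat_lit 14) (nat_lit 0) (.cons (.ev (nat_lit 31174460329081375052602831402041345) (nat_lit 3)) .nil)) (.cons (.br (nat_lit 14) (nat_lit 0) (.cons (.ev (nat_lit 5327316939121955498807002419725468677) (nat_lit 3)) .nil)) .nil)))) .nil))))) (.cons (.br (nat_lit 8) (nat_lit 0) (.cons (.ev (nat_lit 20362260377167173913771623055361) (nat_lit 2)) (.cons (.kr (nat_lit 20361638979814120859043910123521) (nat_lit 2668840585286901401064676212747534336) (nat_lit 0) (nat_lit 1)) (.cons (.br (nat_lit 11) (nat_lit 0) (.cons (.rf (nat_lit 1191) (nat_lit 19993543933793074471634285)) (.cons (.br (nat_lit 14) (nat_lit 0) (.cons (.ev (nat_lit 31174460329081375052602831402041345) (nat_lit 3)) .nil)) (.cons (.br (nat_lit 14) (nat_lit 0) (.cons (.ev (nat_lit 1361139872956643960140683245385469264901) (nat_lit 3)) .nil)) .nil)))) (.cons (.br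 (nat_lit 11) (nat_lit 0) (.cons (.ev (nat_lit 10405113812383979533613168471310851) (nat_lit 2)) (.cons (.ev (nat_lit 87112285931839785507814618027871266996480) (nat_lit 1)) .nil))) .nil))))) .nil)))))) .nil))))))) .nil))))))),
 (.br (nat_lit 15) (nat_lit 0) (.cons (.kr (nat_lit 20361638979814120860139126784001) (nat_lit 2668840585286901401064675117530873856) (nat_lit 0) (nat_lit 1)) (.cons (.ev (nat_lit 1363787944038200615008270957734591989253) (nat_lit 3)) (.cons (.kr (nat_lit 20283029787356392699730939871233) (nat_lit 2668840664515063915329013810586451968) (nat_lit 0) (nat_lit 1)) .nil)))),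
 (.br (nat_lit 7) (nat_lit 0) (.cons (.rf (nat_lit 1281) (nat_lit 315676181668086983694563)) (.cons (.rf (nat_lit 1278) (nat_lit 315676181668086983694563)) (.cons (.ev (nat_lit 340282387282577438555201323774559387648) (nat_lit 1)) (.cons (.rf (nat_lit 1271) (nat_lit 315676181668086983694563)) (.cons (.br (nat_lit 14) (nat_lit 0) (.cons (.ev (nat_lit 10405113814792386439878877930062337) (nat_lit 2)) (.cons (.br (nat_lit 8) (nat_lit 0) (.cons (.ev (nat_lit 10405113812383979533613168471310851) (nat_lit 2)) (.cons (.rf (nat_lit 1282) (nat_lit 677582165103132179601393696)) .nil))) (.cons (.ev (nat_lit 2668860946928308511557732461910819331) (nat_lit 2)) (.cons (.br (nat_lit 8) (nat_lit 0) (.cons (.rf (nat_lit 576) (nat_lit 21174296052777261411207205)) (.cons (.br (nat_lit 11) (nat_lit 0) (.cons (.zr (nat_lit 2041694201526868744505152415508690108416) (nat_lit 174224571884040591011219865964922567524867) (nat_lit 16) (nat_lit 6)) .nil)) (.cons (.rf (nat_lit 884) (nat_lit 21174328334579285008463941)) .nil)))) .nil))))) .nil)))))),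
 (.br (nat_lit 11) (nat_lit 0) (.cons (.ev (nat_lit 20362257949870801716566336471043) (nat_lit 2)) (.cons (.br (nat_lit 14) (nat_lit 0) (.cons (.ev (nat_lit 1361139872640969250196698251563850925061) (nat_lit 3)) .nil)) (.cons (.br (nat_lit 14) (nat_lit 0) (.cons (.ev (nat_lit 1366477553810305112886042349696729874433) (nat_lit 3)) .nil)) .nil)))),
 (.br (nat_lit 6) (nat_lit 0) (.cons (.rf (nat_lit 1239) (nat_lit 425506980079895407762627)) (.cons (.rf (nat_lit 1278) (nat_lit 425506980079895407762627)) (.cons (.rf (nat_lit 1281) (nat_lit 425506980079895407762627)) (.cons (.rf (nat_lit 1271) (nat_lit 425506980079895407762627)) (.cons (.rf (nat_lit 1276) (nat_lit 425506980079895407762627)) (.cons (.rf (nat_lit 1283) (nat_lit 19926519232773908561233952)) (.cons (.br (nat_lit 7) (nat_lit 0) (.cons (.rf (nat_lit 1281) (nat_lit 315676181668086983694563)) (.cons (.rf (nat_lit 1278) (nat_lit 315676181668086983694563)) (.cons (.rf (nat_lit 1276) (nat_lit 315676181668086983694563)) (.cons (.rf (nat_lit 1271) (nat_lit 315676181668086983694563))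 (.cons (.rf (nat_lit 1283) (nat_lit 19889885042791184623305792)) (.cons (.br (nat_lit 8) (nat_lit 0) (.cons (.ev (nat_lit 20362260377167173913771623055361) (nat_lit 2)) (.cons (.br (nat_lit 11) (nat_lit 0) (.cons (.ev (nat_lit 20362257949870801716566336471043) (nat_lit 2)) (.cons (.ev (nat_lit 340282387203658765791499219124097188097) (nat_lit 1)) (.cons (.ev (nat_lit 87112285931839784294166431929268657258753) (nat_lit 1)) .nil)))) (.cons (.rf (nat_lit 1284) (nat_lit 677582165103132179601393696)) (.cons (.br (nat_lit 11) (nat_lit 0) (.cons (.rf (nat_lit 1284) (nat_lit 677545530913149455663465536)) (.cons (.ev (nat_lit 340282387203657552143313120521453895936) (nat_lit 1)) (.cons (.ev (nat_lit 174905136617724630597341722133700450189315) (nat_lit 2)) .nil)))) (.cons (.br (nat_lit 11) (nat_lit 0) (.cons (.rf (nat_lit 1284) (nat_lit 677545530913149455663465536)) (.cons (.ev (nat_lit 87112285952042965735303838015622364594433) (nat_lit 1)) (.cons (.ev (nat_lit 174905136617724630597341722133700450189315) (nat_lit 2)) .nil)))) .nil)))))) .nil)))))))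 .nil)))))))),
 (.br (nat_lit 11) (nat_lit 0) (.cons (.ev (nat_lit 10405113812383979533613168471310851) (nat_lit 2)) (.cons (.rf (nat_lit 1282) (nat_lit 640068830505095951247574080)) (.cons (.br (nat_lit 14) (nat_lit 0) (.cons (.ev (nat_lit 1361139872640969231307519420163401580545) (nat_lit 3)) .nil)) .nil)))),
 (.br (nat_lit 13) (nat_lit 0) (.cons (.ev (nat_lit 5212579578837137306678486101983233) (nat_lit 1)) .nil)),
 (.br (nat_lit 12) (nat_lit 0) (.cons (.ev (nat_lit 5192376397391277605886481338990848) (nat_lit 1)) .nil)),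
 (.br (nat_lit 11) (nat_lit 0) (.cons (.rf (nat_lit 138) (nat_lit 21158974773067617928519146)) (.cons (.br (nat_lit 15) (nat_lit 0) (.cons (.ev (nat_lit 87112285931839785503092323884066341388288) (nat_lit 1)) .nil)) (.cons (.br (nat_lit 15) (nat_lit 0) (.cons (.ev (nat_lit 340282367000477319931798988965464244225) (nat_lit 1)) .nil)) .nil)))),
 (.br (nat_lit 11) (nat_lit 0) (.cons (.rf (nat_lit 1287) (nat_lit 661694415579670568339488)) (.cons (.rf (nat_lit 1289) (nat_lit 640068830505095951247574080)) (.cons (.br (nat_lit 14) (nat_lit 0) (.cons (.ev (nat_lit 341611615278670630512106578695606566913) (nat_lit 1)) .nil)) .nil)))),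
 (.br (nat_lit 13) (nat_lit 0) (.cons (.br (nat_lit 1) (nat_lit 0) (.cons (.rf (nat_lit 1239) (nat_lit 583706118939841765935136)) (.cons (.rf (nat_lit 1253) (nat_lit 583706118939841765935136)) (.cons (.rf (nat_lit 1263) (nat_lit 583706118939841765935136)) (.cons (.rf (nat_lit 1271) (nat_lit 583706118939841765935136)) (.cons (.rf (nat_lit 1276) (nat_lit 583706118939841765935136)) (.cons (.rf (nat_lit 1278) (nat_lit 583706118939841765935136)) (.cons (.rf (nat_lit 1281) (nat_lit 583706118939841765935136)) (.cons (.br (nat_lit 2) (nat_lit 0) (.cons (.rf (nat_lit 1263) (nat_lit 547071928957117828006976)) (.cons (.rf (nat_lit 1253) (nat_lit 547071928957117828006976)) (.cons (.rf (nat_lit 1276) (nat_lit 547071928957117828006976)) (.cons (.rf (nat_lit 1271) (nat_lit 547071928957117828006976)) (.cons (.rf (nat_lit 1281) (nat_lit 547071928957117828006976)) (.cons (.rf (nat_lit 1278) (nat_lit 547071928957117828006976)) (.cons (.rf (nat_lit 1285) (nat_lit 19926519232773908561233952)) (.cons (.br (nat_lit 6) (nat_lit 0) (.cons (.rf (nat_lit 1239)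 (nat_lit 425506980079895407762627)) (.cons (.rf (nat_lit 1278) (nat_lit 425506980079895407762627)) (.cons (.rf (nat_lit 1281) (nat_lit 425506980079895407762627)) (.cons (.rf (nat_lit 1271) (nat_lit 425506980079895407762627)) (.cons (.rf (nat_lit 1276) (nat_lit 425506980079895407762627)) (.cons (.br (nat_lit 7) (nat_lit 0) (.cons (.rf (nat_lit 1281) (nat_lit 315676181668086983694563)) (.cons (.rf (nat_lit 1278) (nat_lit 315676181668086983694563)) (.cons (.rf (nat_lit 1276) (nat_lit 315676181668086983694563)) (.cons (.rf (nat_lit 1271) (nat_lit 315676181668086983694563)) (.cons (.rf (nat_lit 1285) (nat_lit 19768320093913962203061443)) (.cons (.br (nat_lit 8) (nat_lit 0) (.cons (.br (nat_lit 14) (nat_lit 0) (.cons (.ev (nat_lit 10405113812383979533613168471310851) (nat_lit 2)) (.cons (.ev (nat_lit 340287559217796998309450164580590289153) (nat_lit 1)) (.cons (.ev (nat_lit 87112291124057105181469975059681500987648) (nat_lit 1)) .nil)))) (.cons (.ev (nat_lit 10405113814792386439878877930062337) (nat_lit 2)) (.cons (.rf (nat_lit 1286) (nat_lit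 677582165103132179601393696)) (.cons (.br (nat_lit 14) (nat_lit 0) (.cons (.rf (nat_lit 1286) (nat_lit 640068830505095951247574080)) (.cons (.ev (nat_lit 340287579579434764475384926121385525505) (nat_lit 1)) (.cons (.ev (nat_lit 174905147002476185012560988098806824305155) (nat_lit 2)) .nil)))) (.cons (.br (nat_lit 14) (nat_lit 0) (.cons (.rf (nat_lit 1282) (nat_lit 677582165103132179601393696)) (.cons (.ev (nat_lit 87112291144418742947635909821222296224000) (nat_lit 1)) (.cons (.ev (nat_lit 174905147002476185012560988098806824305155) (nat_lit 2)) .nil)))) .nil)))))) .nil))))))) (.cons (.br (nat_lit 7) (nat_lit 0) (.cons (.rf (nat_lit 1281) (nat_lit 315676181668086983694563)) (.cons (.rf (nat_lit 1278) (nat_lit 315676181668086983694563)) (.cons (.rf (nat_lit 1276) (nat_lit 315676181668086983694563)) (.cons (.rf (nat_lit 1271) (nat_lit 315676181668086983694563)) (.cons (.br (nat_lit 8) (nat_lit 0) (.cons (.br (nat_lit 16) (nat_lit 0) (.cons (.rf (nat_lit 1287) (nat_lit 661701333108492050991136)) (.cons (.rf (nat_lit 1288) (nat_lit 661701333107392538314784))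 (.cons (.ev (nat_lit 340282387203658761069205075319171579905) (nat_lit 1)) .nil)))) (.cons (.rf (nat_lit 1289) (nat_lit 677582165103132179601393696)) (.cons (.br (nat_lit 11) (nat_lit 0) (.cons (.br (nat_lit 16) (nat_lit 0) (.cons (.ev (nat_lit 340282367000477319931798988965464244225) (nat_lit 1)) .nil)) (.cons (.rf (nat_lit 1288) (nat_lit 661553759295540350257184)) (.cons (.rf (nat_lit 1287) (nat_lit 625062605604280797856832)) .nil)))) (.cons (.rf (nat_lit 1290) (nat_lit 677582165103132179601393696)) (.cons (.br (nat_lit 15) (nat_lit 0) (.cons (.rf (nat_lit 1289) (nat_lit 640068830505095951247574080)) (.cons (.rf (nat_lit 1287) (nat_lit 624948501520075540405443)) (.cons (.rf (nat_lit 1290) (nat_lit 677314135165860424819153123)) .nil)))) .nil)))))) (.cons (.rf (nat_lit 1285) (nat_lit 20977245913528591377767619)) .nil))))))) .nil)))))))) .nil))))))))) .nil))))))))) .nil))]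

theorem c71 : chkAll C T R L71 (nat_lit 1280) = true := by decide +kernel

theorem l71 : (nat_lit 1280) + L71.length = (nat_lit 1292) := by decide +kernel

/-- part of the certificates -/
def L72 : List Prf := [(.br (nat_lit 14) (nat_lit 0) (.cons (.rf (nat_lit 295) (nat_lit 18300400061329015516327)) (.cons (.ev (nat_lit 340287579579434769197751126412247433216) (nat_lit 1)) .nil))),
 (.br (nat_lit 13) (nat_lit 0) (.cons (.ev (nat_lit 1334440575362544102837333515940397056) (nat_lit 1)) (.cons (.rf (nat_lit 425) (nat_lit 18314568150419159254245)) .nil))),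
 (.br (nat_lit 15) (nat_lit 0) (.cons (.ev (nat_lit 1334420292952935728872765768058536193) (nat_lit 1)) .nil)),
 (.br (nat_lit 8) (nat_lit 0) (.cons (.br (nat_lit 14) (nat_lit 0) (.cons (.ev (nat_lit 10404957217795342554272991107351557) (nat_lit 3)) (.cons (.ev (nat_lit 340282387203658765773124531540602191873) (nat_lit 1)) (.cons (.br (nat_lit 15) (nat_lit 0) (.cons (.ev (nat_lit 2658476512284106608100402538490102273) (nat_lit 2)) (.cons (.rf (nat_lit 647) (nat_lit 21158673759004363127569610)) .nil))) .nil)))) (.cons (.ev (nat_lit 10405113814801794423471666500862465) (nat_lit 2)) (.cons (.br (nat_lit 11) (nat_lit 0) (.cons (.ev (nat_lit 2658476512286533941365522733595623427) (nat_lit 2)) (.cons (.ev (nat_lit 2658476512284106608100402538490102273) (nat_lit 2)) (.cons (.rf (nat_lit 1293) (nat_lit 21174442659472811960141856)) .nil)))) (.cons (.br (nat_lit 11) (nat_lit 0) (.cons (.ev (nat_lit 340282387203658765773124531540602191873) (nat_lit 1)) (.cons (.ev (nat_lit 340282367000477324654165471839404491009) (nat_lit 1)) (.cons (.br (nat_lit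 14) (nat_lit 0) (.cons (.ev (nat_lit 1369115240613826652189293220193737246209) (nat_lit 3)) (.cons (.br (nat_lit 15) (nat_lit 0) (.cons (.ev (nat_lit 2668860948168685402918657142043313155) (nat_lit 3)) .nil)) .nil))) .nil)))) (.cons (.br (nat_lit 11) (nat_lit 0) (.cons (.br (nat_lit 15) (nat_lit 0) (.cons (.ev (nat_lit 340287579500516091674861672392518860800) (nat_lit 1)) (.cons (.ev (nat_lit 2668861106001185745128034813580673025) (nat_lit 2)) .nil))) (.cons (.br (nat_lit 14) (nat_lit 0) (.cons (.ev (nat_lit 2668861106003594115140247235267133955) (nat_lit 2)) (.cons (.rf (nat_lit 644) (nat_lit 21158673759004363127569610)) .nil))) (.cons (.br (nat_lit 14) (nat_lit 0) (.cons (.ev (nat_lit 1363798328631920092959897937415978222081) (nat_lit 3)) (.cons (.ev (nat_lit 340287559297334650555902047533720994048) (nat_lit 1)) .nil))) (.cons (.br (nat_lit 14) (nat_lit 0) (.cons (.br (nat_lit 16) (nat_lit 0) (.cons (.ev (nat_lit 681909538729165902367415221012945634049) (nat_lit 2)) .nil)) (.cons (.ev (nat_lit 20789866612011756833145165648756743)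 (nat_lit 3)) (.cons (.ev (nat_lit 348449143747720164439978375890746116146183) (nat_lit 3)) .nil)))) .nil))))) .nil)))))),
 (.br (nat_lit 6) (nat_lit 0) (.cons (.br (nat_lit 8) (nat_lit 0) (.cons (.kr (nat_lit 20361637770888301245514263822337) (nat_lit 620178945606419954700124672) (nat_lit 0) (nat_lit 2)) (.cons (.br (nat_lit 11) (nat_lit 0) (.cons (.kr (nat_lit 5192297168019837450157040030712064) (nat_lit 1329227995784915891422608728027889664) (nat_lit 1) (nat_lit 0)) (.cons (.br (nat_lit 15) (nat_lit 0) (.cons (.ev (nat_lit 2668861106001185745128032605933928451) (nat_lit 2)) (.cons (.rf (nat_lit 1) (nat_lit 582172359597249)) .nil))) .nil))) (.cons (.ev (nat_lit 20520095314324276554374836256771) (nat_lit 2)) (.cons (.br (nat_lit 14) (nat_lit 0) (.cons (.ev (nat_lit 10405113814801794423469458854117891) (nat_lit 2)) (.cons (.kr (nat_lit 5192296858534827628811971305930752) (nat_lit 1208925891672223212634112) (nat_lit 6) (nat_lit 0)) (.cons (.ev (nat_lit 10405113814801831316396863966543875) (nat_lit 2)) (.cons (.br (nat_lit 11) (nat_lit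 0) (.cons (.rf (nat_lit 1) (nat_lit 582139171118273)) (.cons (.br (nat_lit 15) (nat_lit 0) (.cons (.ev (nat_lit 340282367000477324635718445186894856193) (nat_lit 1)) (.cons (.rf (nat_lit 999) (nat_lit 19987459210050289935890666)) .nil))) (.cons (.rf (nat_lit 996) (nat_lit 20677048671683988229377)) .nil)))) .nil))))) .nil))))) (.cons (.kr (nat_lit 18446744073709551617) (nat_lit 281474976710912) (nat_lit 0) (nat_lit 2)) (.cons (.br (nat_lit 7) (nat_lit 0) (.cons (.kr (nat_lit 20361637770888301245514263822337) (nat_lit 620178945606419954700124672) (nat_lit 0) (nat_lit 2)) (.cons (.br (nat_lit 8) (nat_lit 0) (.cons (.kr (nat_lit 10384594336039711793239277527105537) (nat_lit 20361638979814120860143438528512) (nat_lit 0) (nat_lit 1)) (.cons (.br (nat_lit 15) (nat_lit 0) (.cons (.ev (nat_lit 2658476512284106644993327735955783683) (nat_lit 2)) (.cons (.rf (nat_lit 1) (nat_lit 582172322901185)) .nil))) .nil))) (.cons (.ev (nat_lit 2658476512284106608100404746136846851) (nat_lit 2)) (.cons (.br (nat_lit 14) (nat_lit 0) (.cons (.ev (nat_lit 20520097722731182815686248497153)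 (nat_lit 2)) (.cons (.kr (nat_lit 310693935640959697899487233) (nat_lit 1329227995784915872904088535257120768) (nat_lit 0) (nat_lit 1)) (.cons (.br (nat_lit 8) (nat_lit 0) (.cons (.ev (nat_lit 2668861106003594152034298332639657985) (nat_lit 2)) (.cons (.ev (nat_lit 340282387203658765773124531540602191873) (nat_lit 1)) (.cons (.br (nat_lit 15) (nat_lit 0) (.cons (.ev (nat_lit 340287579500516091674861672392518860800) (nat_lit 1)) (.cons (.ev (nat_lit 2658476512284106644993327735955783683) (nat_lit 2)) .nil))) .nil)))) (.cons (.br (nat_lit 8) (nat_lit 0) (.cons (.rf (nat_lit 1) (nat_lit 582139069410497)) (.cons (.br (nat_lit 15) (nat_lit 0) (.cons (.ev (nat_lit 2658476512284106644993327735955783683) (nat_lit 2)) (.cons (.rf (nat_lit 246) (nat_lit 19526098233119373473121)) .nil))) (.cons (.br (nat_lit 15) (nat_lit 0) (.cons (.rf (nat_lit 2) (nat_lit 20184444633570421953)) (.cons (.ev (nat_lit 2658476512284106644993327735955783683) (nat_lit 2)) .nil))) .nil)))) .nil))))) .nil))))) (.cons (.br (nat_lit 7) (nat_lit 0) (.cons (.br (nat_lit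 11) (nat_lit 0) (.cons (.kr (nat_lit 10384594336039711793239277527105537) (nat_lit 20361638979814120860143438528512) (nat_lit 0) (nat_lit 1)) (.cons (.br (nat_lit 15) (nat_lit 0) (.cons (.ev (nat_lit 2668861106001185745128032605933928451) (nat_lit 2)) (.cons (.rf (nat_lit 1) (nat_lit 582165883599041)) .nil))) .nil))) (.cons (.br (nat_lit 8) (nat_lit 0) (.cons (.kr (nat_lit 10384594336039711793239277527105537) (nat_lit 20361638979814120860143438528512) (nat_lit 0) (nat_lit 1)) (.cons (.br (nat_lit 15) (nat_lit 0) (.cons (.ev (nat_lit 2663648289049768648927458337604239361) (nat_lit 2)) (.cons (.rf (nat_lit 1) (nat_lit 582169101678785)) .nil))) .nil))) (.cons (.ev (nat_lit 10405113812374498051276668861022721) (nat_lit 2)) (.cons (.br (nat_lit 8) (nat_lit 0) (.cons (.ev (nat_lit 20520097722731182815686248497153) (nat_lit 2)) (.cons (.br (nat_lit 11) (nat_lit 0) (.cons (.ev (nat_lit 2668860948171093809824920661102298115) (nat_lit 3)) (.cons (.rf (nat_lit 1) (nat_lit 582035990198465)) .nil))) (.cons (.ev (nat_lit 10405113814801831316396863966543875)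 (nat_lit 2)) (.cons (.br (nat_lit 11) (nat_lit 0) (.cons (.rf (nat_lit 1) (nat_lit 581933011646657)) (.cons (.br (nat_lit 15) (nat_lit 0) (.cons (.ev (nat_lit 340287579500516091674861672392518860800) (nat_lit 1)) (.cons (.rf (nat_lit 258) (nat_lit 20676749926914562730337)) .nil))) (.cons (.rf (nat_lit 1292) (nat_lit 21174442659472880612509728)) .nil)))) .nil))))) .nil))))) (.cons (.br (nat_lit 7) (nat_lit 0) (.cons (.ev (nat_lit 20520095314324276554374836256771) (nat_lit 2)) (.cons (.br (nat_lit 8) (nat_lit 0) (.cons (.kr (nat_lit 5192297168019837450157040030712064) (nat_lit 1329227995784915891422608728027889664) (nat_lit 1) (nat_lit 0)) (.cons (.br (nat_lit 14) (nat_lit 0) (.cons (.ev (nat_lit 1339612590432872613401469248340164610) (nat_lit 2)) (.cons (.rf (nat_lit 1) (nat_lit 582134741941441)) .nil))) .nil))) (.cons (.br (nat_lit 8) (nat_lit 0) (.cons (.kr (nat_lit 5192297168019837450157040030712064) (nat_lit 1329227995784915891422608728027889664) (nat_lit 1) (nat_lit 0)) (.cons (.br (nat_lit 11) (nat_lit 0) (.cons (.ev (nat_lit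 2658476512284106644993327735955783683) (nat_lit 2)) (.cons (.rf (nat_lit 1) (nat_lit 582034883951809)) .nil))) .nil))) (.cons (.br (nat_lit 11) (nat_lit 0) (.cons (.br (nat_lit 14) (nat_lit 0) (.cons (.ev (nat_lit 2668861106003594152034298332639657985) (nat_lit 2)) (.cons (.rf (nat_lit 1) (nat_lit 582134774447297)) .nil))) (.cons (.ev (nat_lit 2658476512286533904472597536129942017) (nat_lit 2)) (.cons (.br (nat_lit 8) (nat_lit 0) (.cons (.ev (nat_lit 2668860948171093809824920661102298115) (nat_lit 3)) (.cons (.ev (nat_lit 2658476512284106644993327735955783683) (nat_lit 2)) (.cons (.br (nat_lit 14) (nat_lit 0) (.cons (.ev (nat_lit 341611615199134191913840792137489186816) (nat_lit 1)) (.cons (.rf (nat_lit 1206) (nat_lit 639572527731482171058469354)) .nil))) .nil)))) (.cons (.br (nat_lit 8) (nat_lit 0) (.cons (.rf (nat_lit 1) (nat_lit 582034916457665)) (.cons (.rf (nat_lit 1293) (nat_lit 21174442659472880612509728)) (.cons (.ev (nat_lit 2658476512284106644993327735955783683) (nat_lit 2)) .nil)))) .nil))))) .nil))))) (.cons (.br (nat_lit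 7) (nat_lit 0) (.cons (.br (nat_lit 14) (nat_lit 0) (.cons (.ev (nat_lit 10405113814801831316394656319799297) (nat_lit 2)) (.cons (.kr (nat_lit 5192296858534846075274570038771713) (nat_lit 1208925891672223212634368) (nat_lit 0) (nat_lit 2)) (.cons (.ev (nat_lit 10405113814801794423471666500862465) (nat_lit 2)) (.cons (.br (nat_lit 15) (nat_lit 0) (.cons (.rf (nat_lit 1) (nat_lit 582139169022177)) (.cons (.br (nat_lit 11) (nat_lit 0) (.cons (.ev (nat_lit 340282367000477324635718445186894856193) (nat_lit 1)) (.cons (.rf (nat_lit 2) (nat_lit 19072089643754266849)) .nil))) (.cons (.rf (nat_lit 572) (nat_lit 639828909585711106092342732)) .nil)))) .nil))))) (.cons (.br (nat_lit 8) (nat_lit 0) (.cons (.br (nat_lit 15) (nat_lit 0) (.cons (.ev (nat_lit 2663648289049768630480995738871398656) (nat_lit 2)) (.cons (.rf (nat_lit 1) (nat_lit 582172354358497)) .nil))) (.cons (.br (nat_lit 14) (nat_lit 0) (.cons (.ev (nat_lit 1339612590432872594955006649607323905) (nat_lit 2)) (.cons (.rf (nat_lit 1) (nat_lit 582139068361953)) .nil))) (.cons (.ev (nat_lit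 20363503143502187068297455076867) (nat_lit 3)) (.cons (.br (nat_lit 14) (nat_lit 0) (.cons (.kr (nat_lit 5192297168019837449875565054001153) (nat_lit 1329227995784915872975864654318338048) (nat_lit 0) (nat_lit 1)) (.cons (.br (nat_lit 16) (nat_lit 0) (.cons (.ev (nat_lit 5337701532834189377142178639979217411) (nat_lit 3)) (.cons (.ev (nat_lit 1361150257234691155555376199627660592647) (nat_lit 3)) .nil))) (.cons (.br (nat_lit 17) (nat_lit 0) (.cons (.ev (nat_lit 5337701532834189377142178639979217411) (nat_lit 3)) (.cons (.ev (nat_lit 348449164516591923888123689929636304912899) (nat_lit 3)) .nil))) .nil)))) .nil))))) (.cons (.br (nat_lit 11) (nat_lit 0) (.cons (.br (nat_lit 15) (nat_lit 0) (.cons (.ev (nat_lit 2658476512284106608100402538490102273) (nat_lit 2)) (.cons (.rf (nat_lit 1) (nat_lit 582169133136097)) .nil))) (.cons (.kr (nat_lit 5192297168019837449875565054001153) (nat_lit 1329227995784915872975864654318338048) (nat_lit 0) (nat_lit 1)) (.cons (.br (nat_lit 8) (nat_lit 0) (.cons (.ev (nat_lit 2658476512284106608100402538490102273)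 (nat_lit 2)) (.cons (.ev (nat_lit 340282367000476111005979373236761198848) (nat_lit 1)) (.cons (.br (nat_lit 15) (nat_lit 0) (.cons (.ev (nat_lit 2668861106001185708233981508561404417) (nat_lit 2)) (.cons (.rf (nat_lit 295) (nat_lit 20676749926914562730027)) .nil))) .nil)))) (.cons (.br (nat_lit 15) (nat_lit 0) (.cons (.rf (nat_lit 1) (nat_lit 582035989149921)) (.cons (.br (nat_lit 8) (nat_lit 0) (.cons (.ev (nat_lit 341616807495992731482210493086958616832) (nat_lit 1)) (.cons (.rf (nat_lit 1294) (nat_lit 21174442659472880611461152)) .nil))) (.cons (.ev (nat_lit 2668861106001185708233981508561404417) (nat_lit 2)) .nil)))) .nil))))) (.cons (.br (nat_lit 8) (nat_lit 0) (.cons (.ev (nat_lit 2658476512284106644993329943602528257) (nat_lit 2)) (.cons (.ev (nat_lit 10405113812374534944201866326704131) (nat_lit 2)) (.cons (.br (nat_lit 11) (nat_lit 0) (.cons (.kr (nat_lit 20361638975091754377273793314817) (nat_lit 618974742153288195170632192) (nat_lit 0) (nat_lit 2)) (.cons (.ev (nat_lit 340282387203657552124938435145605644288) (nat_lit 1))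 (.cons (.br (nat_lit 14) (nat_lit 0) (.cons (.ev (nat_lit 341616787292811290326357380080741646336) (nat_lit 1)) (.cons (.ev (nat_lit 2668861106003594152034296124992913411) (nat_lit 2)) .nil))) .nil)))) (.cons (.br (nat_lit 11) (nat_lit 0) (.cons (.kr (nat_lit 20361638975091754377273793314817) (nat_lit 618974742153288195170632192) (nat_lit 0) (nat_lit 2)) (.cons (.br (nat_lit 14) (nat_lit 0) (.cons (.ev (nat_lit 341611615199134191913840792137489186816) (nat_lit 1)) (.cons (.ev (nat_lit 2668861106003594152034296124992913411) (nat_lit 2)) .nil))) (.cons (.br (nat_lit 14) (nat_lit 0) (.cons (.ev (nat_lit 2668861106003594152034296124992913411) (nat_lit 2)) (.cons (.ev (nat_lit 87113615159835259729751952932827702493440) (nat_lit 1)) .nil))) .nil)))) .nil))))) (.cons (.rf (nat_lit 1295) (nat_lit 19926519232773908561233952)) (.cons (.br (nat_lit 8) (nat_lit 0) (.cons (.br (nat_lit 15) (nat_lit 0) (.cons (.kr (nat_lit 310693935640959697899487488) (nat_lit 1329227995784915891350551133989961728) (nat_lit 1) (nat_lit 0)) (.cons (.ev (nat_lit 2658476512284106608100402538490102273)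 (nat_lit 2)) (.cons (.br (nat_lit 14) (nat_lit 0) (.cons (.rf (nat_lit 2) (nat_lit 19067551925980441857)) (.cons (.ev (nat_lit 87112291124136644037919880074394144407808) (nat_lit 1)) .nil))) .nil)))) (.cons (.br (nat_lit 11) (nat_lit 0) (.cons (.rf (nat_lit 1) (nat_lit 581898650859777)) (.cons (.rf (nat_lit 1292) (nat_lit 20003295771721139947145248)) (.cons (.br (nat_lit 15) (nat_lit 0) (.cons (.rf (nat_lit 1039) (nat_lit 21158605043959649111682538)) (.cons (.ev (nat_lit 87112291124136644037919880074394144407808) (nat_lit 1)) .nil))) .nil)))) (.cons (.br (nat_lit 11) (nat_lit 0) (.cons (.ev (nat_lit 2658476512286533941365522733595623427) (nat_lit 2)) (.cons (.ev (nat_lit 2658476512284106608100402538490102273) (nat_lit 2)) (.cons (.rf (nat_lit 580) (nat_lit 19994663441932189970111852)) .nil)))) (.cons (.br (nat_lit 14) (nat_lit 0) (.cons (.br (nat_lit 15) (nat_lit 0) (.cons (.ev (nat_lit 341616787292810076678171283685745098753) (nat_lit 1)) (.cons (.ev (nat_lit 2668861106001185745128034813580673025) (nat_lit 2)) .nil))) (.cons (.rf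 (nat_lit 1295) (nat_lit 19419741044737752728649162)) (.cons (.br (nat_lit 11) (nat_lit 0) (.cons (.ev (nat_lit 341616807495991517834024394484315324673) (nat_lit 1)) (.cons (.ev (nat_lit 20789866612011756833145165648756743) (nat_lit 3)) .nil))) (.cons (.br (nat_lit 11) (nat_lit 0) (.cons (.ev (nat_lit 2668861106003594115140247235267133955) (nat_lit 2)) (.cons (.br (nat_lit 15) (nat_lit 0) (.cons (.ev (nat_lit 2668860948168685402918657142043313155) (nat_lit 3)) .nil)) (.cons (.br (nat_lit 15) (nat_lit 0) (.cons (.ev (nat_lit 5316932663550621384187006909627236359) (nat_lit 3)) .nil)) .nil)))) .nil))))) (.cons (.br (nat_lit 11) (nat_lit 0) (.cons (.br (nat_lit 15) (nat_lit 0) (.cons (.ev (nat_lit 2668861106001185745128034813580673025) (nat_lit 2)) (.cons (.ev (nat_lit 87112291124136644037919880074394144407808) (nat_lit 1)) .nil))) (.cons (.br (nat_lit 14) (nat_lit 0) (.cons (.rf (nat_lit 456) (nat_lit 19526214654810292071873)) (.cons (.ev (nat_lit 2668861106003594115140247235267133955) (nat_lit 2)) .nil))) (.cons (.br (nat_lit 14) (nat_lit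 0) (.cons (.rf (nat_lit 935) (nat_lit 21166139395142145738284227)) (.cons (.ev (nat_lit 1361129488362931707410062160737471823875) (nat_lit 3)) (.cons (.ev (nat_lit 20789866612011756833145165648756743) (nat_lit 3)) .nil)))) (.cons (.br (nat_lit 14) (nat_lit 0) (.cons (.ev (nat_lit 348451812587989152825675783368214485272069) (nat_lit 3)) (.cons (.ev (nat_lit 87112291144339825479038839699252942274560) (nat_lit 1)) .nil))) .nil))))) .nil)))))) .nil))))))) .nil))))))),
 (.br (nat_lit 15) (nat_lit 0) (.cons (.ev (nat_lit 340282366920939677111560704934883164416) (nat_lit 1)) (.cons (.rf (nat_lit 452) (nat_lit 661663245031468038590726)) .nil))),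
 (.br (nat_lit 14) (nat_lit 0) (.cons (.ev (nat_lit 20520097722694288766796489163267) (nat_lit 2)) (.cons (.br (nat_lit 2) (nat_lit 0) (.cons (.ev (nat_lit 5192296858549013390895969678262529) (nat_lit 2)) (.cons (.br (nat_lit 8) (nat_lit 0) (.cons (.kr (nat_lit 20283029787319499211587832512513) (nat_lit 2658456070797994260072515763569819648) (nat_lit 0) (nat_lit 1)) (.cons (.br (nat_lit 15) (nat_lit 0) (.cons (.ev (nat_lit 2658476353208811596966079798517432833) (nat_lit 2)) (.cons (.rf (nat_lit 1) (nat_lit 582172323032129)) .nil))) .nil))) (.cons (.ev (nat_lit 2668860946925890659918503194971340803) (nat_lit 2)) (.cons (.br (nat_lit 11) (nat_lit 0) (.cons (.br (nat_lit 15) (nat_lit 0) (.cons (.ev (nat_lit 8006542277812928549938068311727276037) (nat_lit 3)) (.cons (.rf (nat_lit 1) (nat_lit 582169129072865)) .nil))) (.cons (.ev (nat_lit 2658476353208811560073152410618429443) (nat_lit 2)) (.cons (.br (nat_lit 8) (nat_lit 0) (.cons (.ev (nat_lit 8006542277812928549938068311727276037) (nat_lit 3)) (.cons (.ev (nat_lit 340282367000476111005979373236761198848)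 (nat_lit 1)) (.cons (.br (nat_lit 15) (nat_lit 0) (.cons (.ev (nat_lit 341611594995951546572981575128058953728) (nat_lit 1)) (.cons (.ev (nat_lit 2658476353208811596966079798517432833) (nat_lit 2)) .nil))) .nil)))) (.cons (.br (nat_lit 8) (nat_lit 0) (.cons (.rf (nat_lit 1) (nat_lit 582035985086689)) (.cons (.br (nat_lit 15) (nat_lit 0) (.cons (.ev (nat_lit 2658476353208811596966079798517432833) (nat_lit 2)) (.cons (.rf (nat_lit 213) (nat_lit 19987457896236083891845484)) .nil))) (.cons (.br (nat_lit 15) (nat_lit 0) (.cons (.rf (nat_lit 467) (nat_lit 21158673751369354384293066)) (.cons (.ev (nat_lit 2658476353208811596966079798517432833) (nat_lit 2)) .nil))) .nil)))) .nil))))) .nil))))) (.cons (.br (nat_lit 11) (nat_lit 0) (.cons (.ev (nat_lit 20520097722731182815686248497153) (nat_lit 2)) (.cons (.br (nat_lit 2) (nat_lit 0) (.cons (.ev (nat_lit 10404957215386861859909467770191879) (nat_lit 3)) (.cons (.br (nat_lit 15) (nat_lit 0) (.cons (.ev (nat_lit 1329228075635675184486136234457104642) (nat_lit 2)) (.cons (.rf (nat_lit 1) (nat_lit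 582172350295265)) .nil))) .nil))) (.cons (.ev (nat_lit 5348086126548841180616455945799598599) (nat_lit 3)) (.cons (.br (nat_lit 7) (nat_lit 0) (.cons (.br (nat_lit 15) (nat_lit 0) (.cons (.ev (nat_lit 2668861106001185745128032605967482881) (nat_lit 2)) (.cons (.rf (nat_lit 1) (nat_lit 582172359728193)) .nil))) (.cons (.ev (nat_lit 2658476353211238856445349598725144577) (nat_lit 2)) (.cons (.br (nat_lit 2) (nat_lit 0) (.cons (.ev (nat_lit 2668861106001185745128032605967482881) (nat_lit 2)) (.cons (.ev (nat_lit 340282387282577443277495466475678400768) (nat_lit 1)) (.cons (.br (nat_lit 15) (nat_lit 0) (.cons (.ev (nat_lit 2658476353208811596966079798517432833) (nat_lit 2)) (.cons (.rf (nat_lit 648) (nat_lit 19992518117551592460786755)) .nil))) .nil)))) (.cons (.br (nat_lit 15) (nat_lit 0) (.cons (.rf (nat_lit 1) (nat_lit 616119777049665)) (.cons (.br (nat_lit 2) (nat_lit 0) (.cons (.ev (nat_lit 340282366920939677130007731578786086913) (nat_lit 1)) (.cons (.br (nat_lit 16) (nat_lit 0) (.cons (.ev (nat_lit 340287559297335854759355179293267263745)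 (nat_lit 1)) .nil)) .nil))) (.cons (.ev (nat_lit 2658476353208811596966079798517432833) (nat_lit 2)) .nil)))) .nil))))) .nil))))) (.cons (.br (nat_lit 2) (nat_lit 0) (.cons (.ev (nat_lit 10405113814801794423469458854117891) (nat_lit 2)) (.cons (.ev (nat_lit 10404955977446822286296617662415361) (nat_lit 2)) (.cons (.ev (nat_lit 1334420530327947688058882333627056897) (nat_lit 2)) (.cons (.br (nat_lit 15) (nat_lit 0) (.cons (.ev (nat_lit 2658476353211238856445349598725144577) (nat_lit 2)) (.cons (.ev (nat_lit 2658476512286533941365522733595623427) (nat_lit 2)) (.cons (.ev (nat_lit 8006542117499693462048977139573850629) (nat_lit 3)) (.cons (.br (nat_lit 7) (nat_lit 0) (.cons (.rf (nat_lit 1) (nat_lit 582172450955489)) (.cons (.br (nat_lit 8) (nat_lit 0) (.cons (.ev (nat_lit 10405115057596463346164952302093827) (nat_lit 3)) (.cons (.ev (nat_lit 1329370448640119725734822430592270340) (nat_lit 3)) .nil))) (.cons (.br (nat_lit 8) (nat_lit 0) (.cons (.ev (nat_lit 1350098595888466091263654891400528902) (nat_lit 3)) (.cons (.ev (nat_lit 5327317415105074382815491704710235655)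 (nat_lit 3)) .nil))) .nil)))) .nil))))) .nil))))) (.cons (.rf (nat_lit 1296) (nat_lit 76927930903685933350346)) (.cons (.br (nat_lit 7) (nat_lit 0) (.cons (.br (nat_lit 8) (nat_lit 0) (.cons (.kr (nat_lit 20361637770888301245514263822337) (nat_lit 620178945606419954700124672) (nat_lit 0) (nat_lit 2)) (.cons (.ev (nat_lit 20520095314324276554374836256771) (nat_lit 2)) (.cons (.ev (nat_lit 10405113814801831316396863932989441) (nat_lit 2)) (.cons (.br (nat_lit 11) (nat_lit 0) (.cons (.rf (nat_lit 1) (nat_lit 616224031710273)) (.cons (.br (nat_lit 15) (nat_lit 0) (.cons (.ev (nat_lit 341611594995951546572981575128058953728) (nat_lit 1)) (.cons (.rf (nat_lit 2) (nat_lit 20188982351344376897)) .nil))) (.cons (.br (nat_lit 15) (nat_lit 0) (.cons (.rf (nat_lit 618) (nat_lit 19987526871252691114573002)) (.cons (.ev (nat_lit 87112285931839785507796243340287805554688) (nat_lit 1)) .nil))) .nil)))) .nil))))) (.cons (.br (nat_lit 2) (nat_lit 0) (.cons (.kr (nat_lit 20361637770888301245514263822337) (nat_lit 620178945606419954700124672) (nat_lit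 0) (nat_lit 2)) (.cons (.ev (nat_lit 20520095314324276554374836256771) (nat_lit 2)) (.cons (.br (nat_lit 11) (nat_lit 0) (.cons (.ev (nat_lit 8006521835399574820271955850773529349) (nat_lit 3)) (.cons (.ev (nat_lit 20362260367722440945833309504001) (nat_lit 2)) (.cons (.rf (nat_lit 1297) (nat_lit 677582165103132179601393696)) .nil)))) (.cons (.br (nat_lit 11) (nat_lit 0) (.cons (.kr (nat_lit 309485009893402662762709248) (nat_lit 20282409603651670423951563030528) (nat_lit 1) (nat_lit 0)) (.cons (.br (nat_lit 15) (nat_lit 0) (.cons (.ev (nat_lit 341616807575530378987921207790267269377) (nat_lit 1)) (.cons (.rf (nat_lit 2) (nat_lit 20188982351338086625)) .nil))) (.cons (.ev (nat_lit 20362260367722440945833309504001) (nat_lit 2)) .nil)))) .nil))))) (.cons (.br (nat_lit 2) (nat_lit 0) (.cons (.ev (nat_lit 20362260367685546896926370299907) (nat_lit 2)) (.cons (.ev (nat_lit 2658476354454033488763352444112863747) (nat_lit 3)) (.cons (.br (nat_lit 8) (nat_lit 0) (.cons (.ev (nat_lit 2658476512284106608100402538523656707) (nat_lit 2)) (.cons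 (.ev (nat_lit 1361160642301920280755665885583408103939) (nat_lit 3)) (.cons (.br (nat_lit 15) (nat_lit 0) (.cons (.ev (nat_lit 340282366920939677111560704934883164416) (nat_lit 1)) (.cons (.br (nat_lit 16) (nat_lit 0) (.cons (.ev (nat_lit 1369115240613819427005467350418732483591) (nat_lit 3)) .nil)) .nil))) .nil)))) (.cons (.br (nat_lit 15) (nat_lit 0) (.cons (.ev (nat_lit 2658476512284106608100402538523656707) (nat_lit 2)) (.cons (.br (nat_lit 8) (nat_lit 0) (.cons (.ev (nat_lit 1366456784780713154953495491842720924163) (nat_lit 3)) (.cons (.br (nat_lit 16) (nat_lit 0) (.cons (.ev (nat_lit 1369136009801258401945184728665051758599) (nat_lit 3)) .nil)) .nil))) (.cons (.ev (nat_lit 1329228075635675184486136234457104642) (nat_lit 2)) .nil)))) .nil))))) (.cons (.ev (nat_lit 2658476353211238856445349598725144577) (nat_lit 2)) (.cons (.br (nat_lit 2) (nat_lit 0) (.cons (.ev (nat_lit 10405430732306444513446818744632325) (nat_lit 3)) (.cons (.br (nat_lit 8) (nat_lit 0) (.cons (.kr (nat_lit 20283029787319499211587832512513) (nat_lit 2658456070797994260072515763569819648)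 (nat_lit 0) (nat_lit 1)) (.cons (.ev (nat_lit 31174302491716921576643503929426945) (nat_lit 3)) (.cons (.br (nat_lit 15) (nat_lit 0) (.cons (.ev (nat_lit 1361160641986240753887476695797885829121) (nat_lit 3)) (.cons (.ev (nat_lit 5348086602539194766683654728236138497) (nat_lit 3)) .nil))) .nil)))) (.cons (.br (nat_lit 8) (nat_lit 0) (.cons (.ev (nat_lit 10384593719487525487434299223441667) (nat_lit 2)) (.cons (.ev (nat_lit 1361139873114481305779055588745349955589) (nat_lit 3)) (.cons (.br (nat_lit 11) (nat_lit 0) (.cons (.ev (nat_lit 10405115052741833708851949990051841) (nat_lit 3)) (.cons (.ev (nat_lit 5348086602539194766683654728236138497) (nat_lit 3)) .nil))) .nil)))) (.cons (.br (nat_lit 8) (nat_lit 0) (.cons (.ev (nat_lit 10384752792374166608418717602808577) (nat_lit 2)) (.cons (.ev (nat_lit 1366477553968142458450339486385620123653) (nat_lit 3)) (.cons (.br (nat_lit 11) (nat_lit 0) (.cons (.ev (nat_lit 10405115052741833708851949990051841) (nat_lit 3)) (.cons (.br (nat_lit 15) (nat_lit 0) (.cons (.ev (nat_lit 681904346511229681229528287095302586369)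 (nat_lit 2)) .nil)) .nil))) .nil)))) (.cons (.br (nat_lit 11) (nat_lit 0) (.cons (.br (nat_lit 15) (nat_lit 0) (.cons (.ev (nat_lit 683233574427782798366048284904727249155) (nat_lit 2)) (.cons (.br (nat_lit 16) (nat_lit 0) (.cons (.ev (nat_lit 683233574585622580671162351962952827649) (nat_lit 2)) .nil)) .nil))) (.cons (.ev (nat_lit 5327317415109891085949249756090860545) (nat_lit 3)) (.cons (.br (nat_lit 8) (nat_lit 0) (.cons (.ev (nat_lit 1366456784780713154916602564454889030661) (nat_lit 3)) (.cons (.br (nat_lit 15) (nat_lit 0) (.cons (.ev (nat_lit 1366456785098858928199421002840044208129) (nat_lit 3)) .nil)) .nil))) (.cons (.br (nat_lit 16) (nat_lit 0) (.cons (.br (nat_lit 15) (nat_lit 0) (.cons (.ev (nat_lit 681893962075349957138423680264048935425) (nat_lit 2)) .nil)) (.cons (.br (nat_lit 8) (nat_lit 0) (.cons (.ev (nat_lit 1329228075635675239826648835312255491) (nat_lit 2)) .nil)) (.cons (.kr (nat_lit 680564754124286535300786122779944550401) (nat_lit 174224571863599722664687882957292354666496) (nat_lit 0) (nat_lit 1)) .nil))))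 .nil))))) .nil)))))) (.cons (.br (nat_lit 2) (nat_lit 0) (.cons (.br (nat_lit 11) (nat_lit 0) (.cons (.kr (nat_lit 309489732187827938369994753) (nat_lit 1329227995784915872904088535257120768) (nat_lit 0) (nat_lit 1)) (.cons (.br (nat_lit 15) (nat_lit 0) (.cons (.ev (nat_lit 7996157684095868375873989741711066627) (nat_lit 3)) (.cons (.rf (nat_lit 2) (nat_lit 20188982351343329345)) .nil))) (.cons (.br (nat_lit 15) (nat_lit 0) (.cons (.rf (nat_lit 528) (nat_lit 20188982077672464449)) (.cons (.ev (nat_lit 2658476512288942422348123230188208647) (nat_lit 3)) .nil))) .nil)))) (.cons (.br (nat_lit 15) (nat_lit 0) (.cons (.kr (nat_lit 20283029787319499211587832512513) (nat_lit 2658456070797994260072515763569819648) (nat_lit 0) (nat_lit 1)) (.cons (.br (nat_lit 8) (nat_lit 0) (.cons (.ev (nat_lit 8006542117499693535834831915371857409) (nat_lit 3)) (.cons (.ev (nat_lit 2689630451277515804844764443137409537) (nat_lit 3)) .nil))) (.cons (.kr (nat_lit 620178945534362360662196480) (nat_lit 1329228075013078387168427228312698880) (nat_lit 1) (nat_lit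 0)) .nil)))) (.cons (.br (nat_lit 8) (nat_lit 0) (.cons (.ev (nat_lit 20520095314342723013670705693442) (nat_lit 2)) (.cons (.ev (nat_lit 1334521863153843468005744735005509127) (nat_lit 3)) (.cons (.br (nat_lit 11) (nat_lit 0) (.cons (.ev (nat_lit 7996157841940486384842976068938892293) (nat_lit 3)) (.cons (.ev (nat_lit 2658476354454033599444377645823165445) (nat_lit 3)) .nil))) .nil)))) (.cons (.br (nat_lit 11) (nat_lit 0) (.cons (.ev (nat_lit 10384752792374166608418717602808577) (nat_lit 2)) (.cons (.ev (nat_lit 8006542117499693462048977139573850629) (nat_lit 3)) (.cons (.br (nat_lit 8) (nat_lit 0) (.cons (.ev (nat_lit 340282366920939677130007731578786086913) (nat_lit 1)) (.cons (.br (nat_lit 15) (nat_lit 0) (.cons (.ev (nat_lit 1369115240613819427005467350418732483591) (nat_lit 3)) .nil)) .nil))) (.cons (.br (nat_lit 8) (nat_lit 0) (.cons (.br (nat_lit 16) (nat_lit 0) (.cons (.ev (nat_lit 2735582389627239275336688581321968193033) (nat_lit 4)) .nil)) (.cons (.ev (nat_lit 340282367000476110987532348791881531393) (nat_lit 1)) (.cons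 (.ev (nat_lit 87112291144339825479038839699252942274560) (nat_lit 1)) .nil)))) .nil))))) (.cons (.br (nat_lit 11) (nat_lit 0) (.cons (.ev (nat_lit 20362260367740887409527225450752) (nat_lit 2)) (.cons (.kr (nat_lit 618974742081230601132704001) (nat_lit 1329248278194519524574512486820151296) (nat_lit 0) (nat_lit 5)) (.cons (.br (nat_lit 8) (nat_lit 0) (.cons (.br (nat_lit 16) (nat_lit 0) (.cons (.ev (nat_lit 2724990104038294473426008536036359671305) (nat_lit 4)) .nil)) (.cons (.br (nat_lit 15) (nat_lit 0) (.cons (.ev (nat_lit 1363819097819356659603390075120155754499) (nat_lit 3)) .nil)) (.cons (.br (nat_lit 15) (nat_lit 0) (.cons (.ev (nat_lit 1369136009801258402018972826444570428419) (nat_lit 3)) .nil)) .nil)))) (.cons (.ev (nat_lit 87112285952121885626438020361576572322048) (nat_lit 1)) .nil))))) .nil)))))) .nil))))))) .nil)))))))]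

theorem c72 : chkAll C T R L72 (nat_lit 1292) = true := by decide +kernel

theorem l72 : (nat_lit 1292) + L72.length = (nat_lit 1299) := by decide +kernel

/-- part of the certificates -/
def L73 : List Prf := [(.br (nat_lit 15) (nat_lit 0) (.cons (.ev (nat_lit 340282387203658765773052475046092668928) (nat_lit 1)) .nil)),
 (.br (nat_lit 11) (nat_lit 0) (.cons (.kr (nat_lit 5192297168019837450157040030712064) (nat_lit 1329227995784915891422608728027889664) (nat_lit 1) (nat_lit 0)) (.cons (.br (nat_lit 15) (nat_lit 0) (.cons (.ev (nat_lit 2668861106001185745128032605967482881) (nat_lit 2)) (.cons (.rf (nat_lit 1) (nat_lit 582172359759937)) .nil))) .nil))),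
 (.br (nat_lit 11) (nat_lit 0) (.cons (.ev (nat_lit 20362257959315534682314250519041) (nat_lit 2)) (.cons (.ev (nat_lit 340282387282577443277495466475678400768) (nat_lit 1)) (.cons (.br (nat_lit 15) (nat_lit 0) (.cons (.ev (nat_lit 1363798328947592394570475413602830779911) (nat_lit 3)) (.cons (.br (nat_lit 16) (nat_lit 0) (.cons (.ev (nat_lit 1369125625367849722192479494271318228993) (nat_lit 3)) .nil)) .nil))) .nil)))),
 (.br (nat_lit 15) (nat_lit 0) (.cons (.ev (nat_lit 5316932663550621347291834327674913287) (nat_lit 3)) (.cons (.ev (nat_lit 5337701532834189377142180830412538371) (nat_lit 3)) (.cons (.ev (nat_lit 5316932663550621273505979517450061319) (nat_lit 3)) .nil)))),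
 (.br (nat_lit 14) (nat_lit 0) (.cons (.br (nat_lit 6) (nat_lit 0) (.cons (.br (nat_lit 11) (nat_lit 0) (.cons (.kr (nat_lit 5192297168019837450157040030712064) (nat_lit 1329227995784915891422608728027889664) (nat_lit 1) (nat_lit 0)) (.cons (.br (nat_lit 15) (nat_lit 0) (.cons (.ev (nat_lit 2658476512284106644993327735955783683) (nat_lit 2)) (.cons (.rf (nat_lit 1) (nat_lit 582165850208321)) .nil))) .nil))) (.cons (.br (nat_lit 8) (nat_lit 0) (.cons (.ev (nat_lit 20837012800084613486966661710339) (nat_lit 3)) (.cons (.br (nat_lit 15) (nat_lit 0) (.cons (.ev (nat_lit 2658476512284106644993327735955783683) (nat_lit 2)) (.cons (.rf (nat_lit 1) (nat_lit 582169068288065)) .nil))) .nil))) (.cons (.br (nat_lit 8) (nat_lit 0) (.cons (.kr (nat_lit 5192297168019837450157040030712064) (nat_lit 1329227995784915891422608728027889664) (nat_lit 1) (nat_lit 0)) (.cons (.br (nat_lit 11) (nat_lit 0) (.cons (.ev (nat_lit 20362257959315534682314250519041) (nat_lit 2)) (.cons (.rf (nat_lit 1) (nat_lit 582035924301889)) .nil))) .nil))) (.cons (.br (nat_lit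 8) (nat_lit 0) (.cons (.br (nat_lit 15) (nat_lit 0) (.cons (.ev (nat_lit 5316932663550621273505979517450061319) (nat_lit 3)) (.cons (.rf (nat_lit 1) (nat_lit 582169133299777)) .nil))) (.cons (.br (nat_lit 11) (nat_lit 0) (.cons (.ev (nat_lit 20362257959315534682314250519041) (nat_lit 2)) (.cons (.rf (nat_lit 1) (nat_lit 582035989313601)) .nil))) (.cons (.br (nat_lit 11) (nat_lit 0) (.cons (.ev (nat_lit 20362257959315534682314250519041) (nat_lit 2)) (.cons (.ev (nat_lit 10404955977446822286294427195539971) (nat_lit 2)) (.cons (.br (nat_lit 15) (nat_lit 0) (.cons (.ev (nat_lit 341616807495992731482210493086958616832) (nat_lit 1)) (.cons (.rf (nat_lit 1299) (nat_lit 21174442659472880612509728)) .nil))) .nil)))) (.cons (.br (nat_lit 11) (nat_lit 0) (.cons (.rf (nat_lit 1) (nat_lit 581933010761793)) (.cons (.br (nat_lit 15) (nat_lit 0) (.cons (.ev (nat_lit 341611594917032869068466523909707006208) (nat_lit 1)) (.cons (.rf (nat_lit 197) (nat_lit 661217780133121653975495)) .nil))) (.cons (.ev (nat_lit 10404955977446822286294427195539971) (nat_lit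 2)) .nil)))) .nil))))) .nil))))) (.cons (.rf (nat_lit 1298) (nat_lit 76927930903685933350346)) (.cons (.br (nat_lit 2) (nat_lit 0) (.cons (.rf (nat_lit 1300) (nat_lit 583706118939841765935136)) (.cons (.br (nat_lit 6) (nat_lit 0) (.cons (.kr (nat_lit 5192297168019837450157040030712064) (nat_lit 1329227995784915891422608728027889664) (nat_lit 1) (nat_lit 0)) (.cons (.br (nat_lit 15) (nat_lit 0) (.cons (.ev (nat_lit 2668861106001185745128032605967482881) (nat_lit 2)) (.cons (.rf (nat_lit 1) (nat_lit 582172354522177)) .nil))) .nil))) (.cons (.ev (nat_lit 10405113812374534944201866326704131) (nat_lit 2)) (.cons (.br (nat_lit 6) (nat_lit 0) (.cons (.kr (nat_lit 79228162514264619072815628288) (nat_lit 309485028340146736472260608) (nat_lit 4) (nat_lit 0)) (.cons (.rf (nat_lit 1300) (nat_lit 76927930903685933350346)) (.cons (.rf (nat_lit 1301) (nat_lit 19926519232773908561233952)) (.cons (.br (nat_lit 15) (nat_lit 0) (.cons (.rf (nat_lit 1) (nat_lit 581864287090945)) (.cons (.br (nat_lit 11) (nat_lit 0) (.cons (.ev (nat_lit 1363798328631917684626777524291817047559)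 (nat_lit 3)) (.cons (.br (nat_lit 16) (nat_lit 0) (.cons (.ev (nat_lit 683228382209842945783675413121380385539) (nat_lit 2)) .nil)) .nil))) (.cons (.rf (nat_lit 1301) (nat_lit 20628666864352381903355338)) .nil)))) .nil))))) .nil))))) (.cons (.br (nat_lit 2) (nat_lit 0) (.cons (.ev (nat_lit 10405113814801794423469458854117891) (nat_lit 2)) (.cons (.br (nat_lit 6) (nat_lit 0) (.cons (.ev (nat_lit 72713311180516584948257367112813065) (nat_lit 4)) (.cons (.br (nat_lit 15) (nat_lit 0) (.cons (.ev (nat_lit 1339612827190109293362709879387783939) (nat_lit 2)) (.cons (.rf (nat_lit 1) (nat_lit 582172455182401)) .nil))) .nil))) (.cons (.br (nat_lit 6) (nat_lit 0) (.cons (.ev (nat_lit 31174460324255079613061138431083525) (nat_lit 3)) (.cons (.br (nat_lit 8) (nat_lit 0) (.cons (.ev (nat_lit 20362257959315534682314250519041) (nat_lit 2)) (.cons (.rf (nat_lit 1) (nat_lit 581931937020993)) .nil))) .nil))) (.cons (.br (nat_lit 6) (nat_lit 0) (.cons (.br (nat_lit 15) (nat_lit 0) (.cons (.ev (nat_lit 1339612827190109293362709879387783939) (nat_lit 2))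 (.cons (.rf (nat_lit 1) (nat_lit 582172450988225)) .nil))) (.cons (.br (nat_lit 8) (nat_lit 0) (.cons (.ev (nat_lit 20362257959315534682314250519041) (nat_lit 2)) (.cons (.rf (nat_lit 1) (nat_lit 581931932826817)) .nil))) (.cons (.ev (nat_lit 10404955977446785393371420196732931) (nat_lit 2)) (.cons (.br (nat_lit 8) (nat_lit 0) (.cons (.ev (nat_lit 2658476512286533941365522733595623427) (nat_lit 2)) (.cons (.br (nat_lit 15) (nat_lit 0) (.cons (.ev (nat_lit 341616807575530378987921207790284046592) (nat_lit 1)) (.cons (.rf (nat_lit 258) (nat_lit 19533351457310318334145)) .nil))) (.cons (.br (nat_lit 15) (nat_lit 0) (.cons (.br (nat_lit 16) (nat_lit 0) (.cons (.ev (nat_lit 340287579500516091674861672392502083585) (nat_lit 1)) .nil)) (.cons (.ev (nat_lit 87113620372335300914624288361535342903296) (nat_lit 1)) .nil))) .nil)))) .nil))))) .nil))))) (.cons (.rf (nat_lit 1296) (nat_lit 76927930903685933350346)) (.cons (.br (nat_lit 2) (nat_lit 0) (.cons (.br (nat_lit 8) (nat_lit 0) (.cons (.br (nat_lit 15) (nat_lit 0) (.cons (.ev (nat_lit 5337701532834189377142180830412538371)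 (nat_lit 3)) (.cons (.rf (nat_lit 1) (nat_lit 582169141680193)) .nil))) (.cons (.ev (nat_lit 20520095314324276554374802702337) (nat_lit 2)) (.cons (.ev (nat_lit 10405113814801831316396863966543875) (nat_lit 2)) (.cons (.br (nat_lit 11) (nat_lit 0) (.cons (.rf (nat_lit 1) (nat_lit 616224031742017)) (.cons (.br (nat_lit 15) (nat_lit 0) (.cons (.ev (nat_lit 341611594995951546572981575128058953728) (nat_lit 1)) (.cons (.rf (nat_lit 2) (nat_lit 20188982351344408641)) .nil))) (.cons (.br (nat_lit 17) (nat_lit 0) (.cons (.ev (nat_lit 87112285952042965735285463330246499565568) (nat_lit 1)) (.cons (.ev (nat_lit 87112291124136642833697980480035898851328) (nat_lit 1)) .nil))) .nil)))) .nil))))) (.cons (.br (nat_lit 6) (nat_lit 0) (.cons (.br (nat_lit 15) (nat_lit 0) (.cons (.ev (nat_lit 7985773248216163137342393589585544707) (nat_lit 3)) (.cons (.rf (nat_lit 1) (nat_lit 582169074573377)) .nil))) (.cons (.br (nat_lit 11) (nat_lit 0) (.cons (.ev (nat_lit 2668861106003594152034296125026467841) (nat_lit 2)) (.cons (.rf (nat_lit 1) (nat_lit 616223867117633))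 .nil))) (.cons (.br (nat_lit 11) (nat_lit 0) (.cons (.kr (nat_lit 10384594955014453802412284638658561) (nat_lit 2658476353208806837562554344290779136) (nat_lit 0) (nat_lit 1)) (.cons (.ev (nat_lit 1361139872798811450353739778248021378049) (nat_lit 3)) (.cons (.br (nat_lit 16) (nat_lit 0) (.cons (.ev (nat_lit 1339612827190109330255632869206720771) (nat_lit 2)) (.cons (.ev (nat_lit 1361139872798811450279951671672342577153) (nat_lit 3)) .nil))) .nil)))) (.cons (.br (nat_lit 15) (nat_lit 0) (.cons (.rf (nat_lit 1) (nat_lit 616224029646913)) (.cons (.br (nat_lit 16) (nat_lit 0) (.cons (.ev (nat_lit 1369136009801258401982077649447190398471) (nat_lit 3)) (.cons (.ev (nat_lit 1369136009801258401908291803467552522759) (nat_lit 3)) .nil))) (.cons (.ev (nat_lit 1329288843013741031980918776902385922) (nat_lit 2)) .nil)))) .nil))))) (.cons (.br (nat_lit 8) (nat_lit 0) (.cons (.br (nat_lit 15) (nat_lit 0) (.cons (.ev (nat_lit 2668860946925890696812554292343865857) (nat_lit 2)) (.cons (.rf (nat_lit 1) (nat_lit 582165853350977)) .nil))) (.cons (.ev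 (nat_lit 2658476670123888950395622971377320961) (nat_lit 3)) (.cons (.br (nat_lit 6) (nat_lit 0) (.cons (.ev (nat_lit 2668861106003594152034296125026467841) (nat_lit 2)) (.cons (.ev (nat_lit 1361139872798811450353739778248021378049) (nat_lit 3)) (.cons (.br (nat_lit 15) (nat_lit 0) (.cons (.ev (nat_lit 1369125625367854539043184953078235399681) (nat_lit 3)) (.cons (.ev (nat_lit 1344865813745948873048692594854527235) (nat_lit 2)) .nil))) .nil)))) (.cons (.br (nat_lit 6) (nat_lit 0) (.cons (.rf (nat_lit 1) (nat_lit 616223863974977)) (.cons (.br (nat_lit 15) (nat_lit 0) (.cons (.ev (nat_lit 1366477554286297903139138372255776506881) (nat_lit 3)) (.cons (.br (nat_lit 16) (nat_lit 0) (.cons (.ev (nat_lit 681899154293289828628708948315176370944) (nat_lit 2)) .nil)) .nil))) (.cons (.br (nat_lit 15) (nat_lit 0) (.cons (.ev (nat_lit 1344865813745948873048692594854527235) (nat_lit 2)) (.cons (.ev (nat_lit 348451802203871421302200188104388062348801) (nat_lit 3)) .nil))) .nil)))) .nil))))) (.cons (.br (nat_lit 6) (nat_lit 0) (.cons (.br (nat_lit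 11) (nat_lit 0) (.cons (.ev (nat_lit 5192377017574982401064292602479361) (nat_lit 2)) (.cons (.rf (nat_lit 1) (nat_lit 616216350932033)) .nil))) (.cons (.ev (nat_lit 2658476512284106608100404746136846851) (nat_lit 2)) (.cons (.ev (nat_lit 5327317096954484175505761675566383109) (nat_lit 3)) (.cons (.br (nat_lit 8) (nat_lit 0) (.cons (.ev (nat_lit 5316932663550621347291834327674913287) (nat_lit 3)) (.cons (.br (nat_lit 11) (nat_lit 0) (.cons (.ev (nat_lit 8006542277820191623374572221030859783) (nat_lit 3)) (.cons (.rf (nat_lit 258) (nat_lit 19519372278401904092353)) .nil))) (.cons (.br (nat_lit 11) (nat_lit 0) (.cons (.ev (nat_lit 2689630293442569203009162507203249155) (nat_lit 3)) (.cons (.ev (nat_lit 87112285931839785507796243340287788777473) (nat_lit 1)) .nil))) .nil)))) .nil))))) (.cons (.br (nat_lit 8) (nat_lit 0) (.cons (.ev (nat_lit 10405113814801831316396863966543875) (nat_lit 2)) (.cons (.br (nat_lit 6) (nat_lit 0) (.cons (.ev (nat_lit 10384673874900902584667734611722752) (nat_lit 2)) (.cons (.ev (nat_lit 1361129488362931707299381137760521029123)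 (nat_lit 3)) (.cons (.rf (nat_lit 1302) (nat_lit 677582165103132179601393696)) .nil)))) (.cons (.br (nat_lit 11) (nat_lit 0) (.cons (.ev (nat_lit 1334420372493001104669736390833143808) (nat_lit 2)) (.cons (.ev (nat_lit 1363798328631917684626777524291817047559) (nat_lit 3)) (.cons (.br (nat_lit 16) (nat_lit 0) (.cons (.ev (nat_lit 681904346669064608960632652735103303939) (nat_lit 2)) (.cons (.ev (nat_lit 1363819097819356659566494893707616453123) (nat_lit 3)) .nil))) .nil)))) (.cons (.ev (nat_lit 340287559217797003031888422469801934848) (nat_lit 1)) (.cons (.br (nat_lit 6) (nat_lit 0) (.cons (.br (nat_lit 15) (nat_lit 0) (.cons (.ev (nat_lit 341611594995951546572981575128058953728) (nat_lit 1)) (.cons (.ev (nat_lit 2658476512284106644993327735955783683) (nat_lit 2)) .nil))) (.cons (.br (nat_lit 11) (nat_lit 0) (.cons (.ev (nat_lit 340287559297335854740908716694534422528) (nat_lit 1)) (.cons (.ev (nat_lit 2658476512284106644993327735955783683) (nat_lit 2)) .nil))) (.cons (.br (nat_lit 11) (nat_lit 0) (.cons (.ev (nat_lit 10405115052741833708851949990051841)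 (nat_lit 3)) (.cons (.br (nat_lit 15) (nat_lit 0) (.cons (.ev (nat_lit 1344805045129961931074972744583152130) (nat_lit 2)) .nil)) .nil))) (.cons (.br (nat_lit 16) (nat_lit 0) (.cons (.br (nat_lit 15) (nat_lit 0) (.cons (.ev (nat_lit 1363808713383476954438644320566767911941) (nat_lit 3)) .nil)) (.cons (.br (nat_lit 11) (nat_lit 0) (.cons (.ev (nat_lit 1369125625367854539006292021309436198913) (nat_lit 3)) .nil)) (.cons (.kr (nat_lit 174224571863599722664687882958387554549761) (nat_lit 680564754124286535300786121684744667136) (nat_lit 0) (nat_lit 1)) .nil)))) .nil))))) .nil)))))) (.cons (.br (nat_lit 6) (nat_lit 0) (.cons (.br (nat_lit 11) (nat_lit 0) (.cons (.rf (nat_lit 1) (nat_lit 616224025452737)) (.cons (.rf (nat_lit 605) (nat_lit 677538375842957795094856964)) (.cons (.ev (nat_lit 20362260367722440945833309504001) (nat_lit 2)) .nil)))) (.cons (.br (nat_lit 8) (nat_lit 0) (.cons (.rf (nat_lit 1) (nat_lit 616223924792513)) (.cons (.br (nat_lit 15) (nat_lit 0) (.cons (.ev (nat_lit 2658476512284106644993327735955783683) (nat_lit 2))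 (.cons (.rf (nat_lit 246) (nat_lit 20663070410971896292545)) .nil))) (.cons (.br (nat_lit 15) (nat_lit 0) (.cons (.rf (nat_lit 1299) (nat_lit 21165868047817003085737005)) (.cons (.ev (nat_lit 2658476512284106644993327735955783683) (nat_lit 2)) .nil))) .nil)))) (.cons (.br (nat_lit 8) (nat_lit 0) (.cons (.rf (nat_lit 1) (nat_lit 616219629829313)) (.cons (.br (nat_lit 16) (nat_lit 0) (.cons (.ev (nat_lit 2658476512284106644993327735955783683) (nat_lit 2)) (.cons (.ev (nat_lit 340282387282576229647756395620778180608) (nat_lit 1)) .nil))) (.cons (.br (nat_lit 11) (nat_lit 0) (.cons (.rf (nat_lit 394) (nat_lit 19529883499918252248264)) (.cons (.ev (nat_lit 2658476512284106644993327735955783683) (nat_lit 2)) .nil))) .nil)))) (.cons (.br (nat_lit 16) (nat_lit 0) (.cons (.br (nat_lit 11) (nat_lit 0) (.cons (.ev (nat_lit 5327317096954484249291607689698214917) (nat_lit 3)) (.cons (.ev (nat_lit 1361139872798811450279951671672342577153) (nat_lit 3)) .nil))) (.cons (.br (nat_lit 15) (nat_lit 0) (.cons (.ev (nat_lit 1366456784780713154916602564454889030661)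 (nat_lit 3)) (.cons (.ev (nat_lit 681909538729169533811900036281622790658) (nat_lit 2)) .nil))) (.cons (.br (nat_lit 8) (nat_lit 0) (.cons (.ev (nat_lit 5316932663550621273505979517450061319) (nat_lit 3)) (.cons (.br (nat_lit 11) (nat_lit 0) (.cons (.ev (nat_lit 681899154135450046342041347158496706560) (nat_lit 2)) .nil)) .nil))) (.cons (.ev (nat_lit 1361160642301920280718772962576308634629) (nat_lit 3)) .nil))))) (.cons (.br (nat_lit 11) (nat_lit 0) (.cons (.rf (nat_lit 1302) (nat_lit 677582165103132179601393696)) (.cons (.br (nat_lit 8) (nat_lit 0) (.cons (.br (nat_lit 16) (nat_lit 0) (.cons (.ev (nat_lit 2616771484720558002208822131136448902992927) (nat_lit 5)) .nil)) (.cons (.ev (nat_lit 87112285931839785507814690366940298412289) (nat_lit 1)) .nil))) (.cons (.br (nat_lit 8) (nat_lit 0) (.cons (.ev (nat_lit 1339612669350327024853339832909497091) (nat_lit 2)) (.cons (.ev (nat_lit 340287559217797003013441960966268977408) (nat_lit 1)) (.cons (.br (nat_lit 15) (nat_lit 0) (.cons (.ev (nat_lit 1363787944196037979425141096340877870081)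 (nat_lit 3)) .nil)) .nil)))) (.cons (.ev (nat_lit 87112285931760246646623899503632190603521) (nat_lit 1)) .nil))))) .nil)))))) .nil))))))) .nil))))))),
 (.br (nat_lit 7) (nat_lit 0) (.cons (.ev (nat_lit 5192377017574963953475793946017793) (nat_lit 2)) (.cons (.ev (nat_lit 20362260367685546894735903424513) (nat_lit 2)) (.cons (.br (nat_lit 15) (nat_lit 0) (.cons (.ev (nat_lit 2658476512284106608100402538490102273) (nat_lit 2)) (.cons (.rf (nat_lit 2) (nat_lit 20188982351343392833)) .nil))) .nil)))),
 (.br (nat_lit 14) (nat_lit 0) (.cons (.br (nat_lit 11) (nat_lit 0) (.cons (.kr (nat_lit 5192297168019837450157040030712064) (nat_lit 1329227995784915891422608728027889664) (nat_lit 1) (nat_lit 0)) (.cons (.br (nat_lit 15) (nat_lit 0) (.cons (.ev (nat_lit 2658476512284106608100402538490102273) (nat_lit 2)) (.cons (.rf (nat_lit 1) (nat_lit 582172326238273)) .nil))) .nil))) (.cons (.br (nat_lit 7) (nat_lit 0) (.cons (.ev (nat_lit 31174460324255042720135941032510983) (nat_lit 3)) (.cons (.br (nat_lit 15) (nat_lit 0) (.cons (.ev (nat_lit 1339612827190109330255635076836688130)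 (nat_lit 2)) (.cons (.rf (nat_lit 1) (nat_lit 582172456261697)) .nil))) .nil))) (.cons (.rf (nat_lit 1296) (nat_lit 76927930903685933350346)) (.cons (.br (nat_lit 16) (nat_lit 0) (.cons (.ev (nat_lit 10405113814801831316396863966543875) (nat_lit 2)) (.cons (.rf (nat_lit 1304) (nat_lit 19926519232773908561233952)) (.cons (.ev (nat_lit 2668860946925890696812554292377420291) (nat_lit 2)) (.cons (.br (nat_lit 16) (nat_lit 0) (.cons (.ev (nat_lit 10405113814801831316396863966543875) (nat_lit 2)) (.cons (.rf (nat_lit 1304) (nat_lit 19926519232773908561233952)) (.cons (.ev (nat_lit 2668860946925890696812554292377420291) (nat_lit 2)) .nil)))) .nil))))) .nil))))),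
 (.br (nat_lit 2) (nat_lit 0) (.cons (.br (nat_lit 11) (nat_lit 0) (.cons (.ev (nat_lit 10404955977446822286296617628860931) (nat_lit 2)) (.cons (.ev (nat_lit 1369104856180420418696211967052055970309) (nat_lit 3)) (.cons (.br (nat_lit 14) (nat_lit 0) (.cons (.ev (nat_lit 1363819098135026552844530673737651323399) (nat_lit 3)) (.cons (.ev (nat_lit 2663709136589268798550570527203787266) (nat_lit 2)) .nil))) .nil)))) (.cons (.ev (nat_lit 2658476512284106608100402538490102273) (nat_lit 2)) (.cons (.ev (nat_lit 2668860946925890696812554292377420291) (nat_lit 2)) (.cons (.br (nat_lit 7) (nat_lit 0) (.cons (.ev (nat_lit 1369104856180420418622426116657057498629) (nat_lit 3)) (.cons (.ev (nat_lit 1363819098135026552844530673737651323399) (nat_lit 3)) (.cons (.br (nat_lit 11) (nat_lit 0) (.cons (.ev (nat_lit 10404955977446785393371420196732931) (nat_lit 2)) (.cons (.ev (nat_lit 340282367000477324635718446290701451265) (nat_lit 1)) .nil))) .nil)))) (.cons (.br (nat_lit 7) (nat_lit 0) (.cons (.br (nat_lit 14) (nat_lit 0) (.cons (.ev (nat_lit 341611615199134191932287254736238805248)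 (nat_lit 1)) (.cons (.br (nat_lit 16) (nat_lit 0) (.cons (.ev (nat_lit 1369115240613824243745494027061919088643) (nat_lit 3)) .nil)) .nil))) (.cons (.br (nat_lit 11) (nat_lit 0) (.cons (.ev (nat_lit 341611615199134191932287254736238805248) (nat_lit 1)) (.cons (.br (nat_lit 16) (nat_lit 0) (.cons (.ev (nat_lit 1363808713701622689942530891579534999553) (nat_lit 3)) .nil)) .nil))) (.cons (.br (nat_lit 11) (nat_lit 0) (.cons (.ev (nat_lit 341616807575530379006368233338970308609) (nat_lit 1)) (.cons (.br (nat_lit 14) (nat_lit 0) (.cons (.ev (nat_lit 5192534852521565789084335472771587) (nat_lit 2)) .nil)) .nil))) (.cons (.br (nat_lit 11) (nat_lit 0) (.cons (.rf (nat_lit 295) (nat_lit 20661805144692185334127)) (.cons (.br (nat_lit 14) (nat_lit 0) (.cons (.ev (nat_lit 1369115240613824243745494027061919088643) (nat_lit 3)) .nil)) (.cons (.ev (nat_lit 348457119115853323006726157967587931193345) (nat_lit 3)) .nil)))) .nil))))) .nil))))))]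

theorem c73 : chkAll C T R L73 (nat_lit 1299) = true := by decide +kernel

theorem l73 : (nat_lit 1299) + L73.length = (nat_lit 1307) := by decide +kernel

/-- part of the certificates -/
def L74 : List Prf := [(.br (nat_lit 6) (nat_lit 0) (.cons (.rf (nat_lit 1305) (nat_lit 583706118939841765935136)) (.cons (.kr (nat_lit 281474976710912) (nat_lit 18446744073726328832) (nat_lit 1) (nat_lit 0)) (.cons (.br (nat_lit 2) (nat_lit 0) (.cons (.kr (nat_lit 20361637770888301245514263822337) (nat_lit 620178945606419954700124672) (nat_lit 0) (nat_lit 2)) (.cons (.ev (nat_lit 20520097722731182815686248497153) (nat_lit 2)) (.cons (.ev (nat_lit 20520095314287382503277430178307) (nat_lit 2)) (.cons (.br (nat_lit 7) (nat_lit 0) (.cons (.kr (nat_lit 79228162514264619072815628288) (nat_lit 309485028340146736472260608) (nat_lit 4) (nat_lit 0)) (.cons (.kr (nat_lit 309485009893402662762709248) (nat_lit 20282409603651670423951563030528) (nat_lit 1) (nat_lit 0)) (.cons (.ev (nat_lit 20362260367685546894735903424513) (nat_lit 2)) (.cons (.br (nat_lit 14)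 (nat_lit 0) (.cons (.rf (nat_lit 1) (nat_lit 581898747522241)) (.cons (.br (nat_lit 15) (nat_lit 0) (.cons (.ev (nat_lit 340282366920939677130007731578786086913) (nat_lit 1)) (.cons (.rf (nat_lit 2) (nat_lit 19067551925976444097)) .nil))) (.cons (.br (nat_lit 15) (nat_lit 0) (.cons (.rf (nat_lit 246) (nat_lit 19534351295003878689985)) (.cons (.ev (nat_lit 87113620352053199582352772268305015635968) (nat_lit 1)) .nil))) .nil)))) .nil))))) .nil))))) (.cons (.rf (nat_lit 1298) (nat_lit 76927930903685933350346)) (.cons (.br (nat_lit 7) (nat_lit 0) (.cons (.ev (nat_lit 20520095314324276554374836256771) (nat_lit 2)) (.cons (.br (nat_lit 2) (nat_lit 0) (.cons (.kr (nat_lit 5192297168019837450157040030712064) (nat_lit 1329227995784915891422608728027889664) (nat_lit 1) (nat_lit 0)) (.cons (.br (nat_lit 14) (nat_lit 0) (.cons (.ev (nat_lit 10404955975019489021174232090017793) (nat_lit 2)) (.cons (.rf (nat_lit 1) (nat_lit 582134735846593)) .nil))) .nil))) (.cons (.rf (nat_lit 1305) (nat_lit 76927930903685933350346)) (.cons (.br (nat_lit 2) (nat_lit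 0) (.cons (.br (nat_lit 14) (nat_lit 0) (.cons (.ev (nat_lit 2668861106003594152034296125026467841) (nat_lit 2)) (.cons (.rf (nat_lit 1) (nat_lit 582139002498113)) .nil))) (.cons (.br (nat_lit 11) (nat_lit 0) (.cons (.ev (nat_lit 2668861106003594152034296125026467841) (nat_lit 2)) (.cons (.rf (nat_lit 1) (nat_lit 582035923286081)) .nil))) (.cons (.br (nat_lit 11) (nat_lit 0) (.cons (.ev (nat_lit 7985773406058335034261353410511110147) (nat_lit 3)) (.cons (.ev (nat_lit 4091363792021442599800024233017269422595) (nat_lit 4)) (.cons (.br (nat_lit 14) (nat_lit 0) (.cons (.ev (nat_lit 4101997615353891847561052200004349199887) (nat_lit 4)) (.cons (.br (nat_lit 16) (nat_lit 0) (.cons (.ev (nat_lit 683228382209845373098494070717769843203) (nat_lit 2)) .nil)) .nil))) .nil)))) (.cons (.br (nat_lit 11) (nat_lit 0) (.cons (.rf (nat_lit 1) (nat_lit 615982433582273)) (.cons (.br (nat_lit 14) (nat_lit 0) (.cons (.ev (nat_lit 341611615199134191913840792137489186816) (nat_lit 1)) (.cons (.br (nat_lit 16) (nat_lit 0) (.cons (.zr (nat_lit 1361139994254958342183010215028963934211)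 (nat_lit 7975368212393982817542251803914404352) (nat_lit 16) (nat_lit 11)) .nil)) .nil))) (.cons (.br (nat_lit 14) (nat_lit 0) (.cons (.br (nat_lit 16) (nat_lit 0) (.cons (.zr (nat_lit 1363788065652196955790241762783770313216) (nat_lit 31154020692611400539214582420340737) (nat_lit 16) (nat_lit 15)) .nil)) (.cons (.ev (nat_lit 87112285952121884412808281289626455441408) (nat_lit 1)) .nil))) .nil)))) .nil))))) .nil))))) (.cons (.br (nat_lit 15) (nat_lit 0) (.cons (.ev (nat_lit 20520095314287382503277430178307) (nat_lit 2)) (.cons (.br (nat_lit 2) (nat_lit 0) (.cons (.ev (nat_lit 2658476512284106644993327735989338113) (nat_lit 2)) (.cons (.ev (nat_lit 2668860946925890659918503194971340803) (nat_lit 2)) (.cons (.br (nat_lit 11) (nat_lit 0) (.cons (.ev (nat_lit 10404955977446785393371420196732931) (nat_lit 2)) (.cons (.ev (nat_lit 1369104856180420418622426116657057498629) (nat_lit 3)) (.cons (.br (nat_lit 14) (nat_lit 0) (.cons (.ev (nat_lit 1363819098135026552770742571542973384199) (nat_lit 3)) (.cons (.ev (nat_lit 2663709136589268835443495724703023106)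 (nat_lit 2)) .nil))) .nil)))) (.cons (.br (nat_lit 11) (nat_lit 0) (.cons (.rf (nat_lit 1) (nat_lit 615948073843937)) (.cons (.br (nat_lit 14) (nat_lit 0) (.cons (.ev (nat_lit 341611615199134191913840792137489186816) (nat_lit 1)) (.cons (.br (nat_lit 16) (nat_lit 0) (.cons (.ev (nat_lit 1369115240613824243782386952259418326531) (nat_lit 3)) .nil)) .nil))) (.cons (.br (nat_lit 17) (nat_lit 0) (.cons (.ev (nat_lit 5192534852521565789084335472771587) (nat_lit 2)) (.cons (.ev (nat_lit 348457119115853323006689265042390431957505) (nat_lit 3)) .nil))) .nil)))) .nil))))) (.cons (.br (nat_lit 2) (nat_lit 0) (.cons (.br (nat_lit 14) (nat_lit 0) (.cons (.ev (nat_lit 10404955975019489021174232090017793) (nat_lit 2)) (.cons (.rf (nat_lit 1) (nat_lit 582139169217601)) .nil))) (.cons (.kr (nat_lit 20361638979814120860143421751297) (nat_lit 10384594336039711793239277543882752) (nat_lit 0) (nat_lit 1)) (.cons (.br (nat_lit 7) (nat_lit 0) (.cons (.ev (nat_lit 10404955975019489021174232090017793) (nat_lit 2)) (.cons (.ev (nat_lit 340282367000477324654165471839404491009)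 (nat_lit 1)) (.cons (.br (nat_lit 14) (nat_lit 0) (.cons (.ev (nat_lit 10404955975019525914099429589254657) (nat_lit 2)) (.cons (.rf (nat_lit 425) (nat_lit 20667379226854310460865)) .nil))) .nil)))) (.cons (.br (nat_lit 14) (nat_lit 0) (.cons (.rf (nat_lit 1) (nat_lit 615949147584737)) (.cons (.br (nat_lit 7) (nat_lit 0) (.cons (.ev (nat_lit 341616807575530379006368233338970308609) (nat_lit 1)) (.cons (.rf (nat_lit 295) (nat_lit 20661805179876557422958)) .nil))) (.cons (.ev (nat_lit 10404955975019525914099429589254657) (nat_lit 2)) .nil)))) .nil))))) (.cons (.rf (nat_lit 1296) (nat_lit 76927930903685933350346)) (.cons (.rf (nat_lit 1306) (nat_lit 19926519232773908561233952)) (.cons (.br (nat_lit 2) (nat_lit 0) (.cons (.br (nat_lit 11) (nat_lit 0) (.cons (.ev (nat_lit 10404955977446822286296617628860931) (nat_lit 2)) (.cons (.br (nat_lit 14) (nat_lit 0) (.cons (.ev (nat_lit 340282387203658765773124532644408786945) (nat_lit 1)) (.cons (.br (nat_lit 16) (nat_lit 0) (.cons (.ev (nat_lit 1363798328631922539219521914287096727047) (nat_lit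 3)) .nil)) .nil))) (.cons (.br (nat_lit 14) (nat_lit 0) (.cons (.br (nat_lit 16) (nat_lit 0) (.cons (.ev (nat_lit 1369104856180415564029681722280978286081) (nat_lit 3)) .nil)) (.cons (.ev (nat_lit 174224577056055348223220494350712276386305) (nat_lit 2)) .nil))) .nil)))) (.cons (.br (nat_lit 7) (nat_lit 0) (.cons (.rf (nat_lit 1) (nat_lit 582172321000513)) (.cons (.br (nat_lit 16) (nat_lit 0) (.cons (.ev (nat_lit 340282387203658765773124532644408786945) (nat_lit 1)) (.cons (.ev (nat_lit 341611615199132987728834124080499130625) (nat_lit 1)) .nil))) (.cons (.br (nat_lit 14) (nat_lit 0) (.cons (.rf (nat_lit 2) (nat_lit 19067551925980638273)) (.cons (.ev (nat_lit 87112291124136644037919880074394144407808) (nat_lit 1)) .nil))) .nil)))) (.cons (.br (nat_lit 7) (nat_lit 0) (.cons (.rf (nat_lit 1) (nat_lit 582169099778113)) (.cons (.br (nat_lit 11) (nat_lit 0) (.cons (.ev (nat_lit 340287579579435973401276315770126663680) (nat_lit 1)) (.cons (.rf (nat_lit 1201) (nat_lit 21174439092730826344990752)) .nil))) (.cons (.br (nat_lit 11) (nat_lit 0)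 (.cons (.br (nat_lit 16) (nat_lit 0) (.cons (.ev (nat_lit 340287559217797003013441960966285754625) (nat_lit 1)) .nil)) (.cons (.ev (nat_lit 87112291124136644037919880074394144407808) (nat_lit 1)) .nil))) .nil)))) (.cons (.br (nat_lit 14) (nat_lit 0) (.cons (.rf (nat_lit 1306) (nat_lit 19419741044737752728649162)) (.cons (.ev (nat_lit 10404955977446785393371420196732931) (nat_lit 2)) (.cons (.br (nat_lit 7) (nat_lit 0) (.cons (.ev (nat_lit 340282387203658765773124532644408786945) (nat_lit 1)) (.cons (.br (nat_lit 11) (nat_lit 0) (.cons (.ev (nat_lit 1369104856180415564066574647478343304193) (nat_lit 3)) .nil)) .nil))) (.cons (.br (nat_lit 17) (nat_lit 0) (.cons (.ev (nat_lit 348457150269158491134661072411263305384967) (nat_lit 3)) (.cons (.ev (nat_lit 174224577056055348223257388401809615355905) (nat_lit 2)) (.cons (.ev (nat_lit 348457150269158491134587284309068627443719) (nat_lit 3)) .nil)))) .nil))))) (.cons (.br (nat_lit 11) (nat_lit 0) (.cons (.br (nat_lit 14) (nat_lit 0) (.cons (.br (nat_lit 16) (nat_lit 0) (.cons (.ev (nat_lit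 680569926218892093465349966730140713219) (nat_lit 2)) .nil)) (.cons (.ev (nat_lit 348457139884725087271685284526910511121921) (nat_lit 3)) .nil))) (.cons (.rf (nat_lit 736) (nat_lit 639756807034489764754894317)) (.cons (.br (nat_lit 7) (nat_lit 0) (.cons (.br (nat_lit 16) (nat_lit 0) (.cons (.ev (nat_lit 680569926218892093502244017827479683843) (nat_lit 2)) .nil)) (.cons (.ev (nat_lit 1363787944196042796238953623378995840001) (nat_lit 3)) (.cons (.br (nat_lit 14) (nat_lit 0) (.cons (.ev (nat_lit 680569926218892093520690480426229301763) (nat_lit 2)) .nil)) .nil)))) (.cons (.br (nat_lit 14) (nat_lit 0) (.cons (.ev (nat_lit 348451833357176584575394781951488233439751) (nat_lit 3)) (.cons (.ev (nat_lit 348451833357176584575505462978880544834567) (nat_lit 3)) .nil))) .nil))))) .nil)))))) .nil))))))) .nil))))))),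
 (.br (nat_lit 15) (nat_lit 0) (.cons (.ev (nat_lit 1329248278194524247013054045719953665) (nat_lit 1)) .nil)),
 (.br (nat_lit 14) (nat_lit 0) (.cons (.br (nat_lit 6) (nat_lit 0) (.cons (.kr (nat_lit 79229376162594551379951353857) (nat_lit 10404876126673306928047894174892032) (nat_lit 0) (nat_lit 1)) (.cons (.ev (nat_lit 10404955977446785393369229763411971) (nat_lit 2)) (.cons (.br (nat_lit 7) (nat_lit 0) (.cons (.ev (nat_lit 20790024442103765924357106269685255) (nat_lit 3)) (.cons (.br (nat_lit 8) (nat_lit 0) (.cons (.ev (nat_lit 2668861106003594152034296125026467841) (nat_lit 2)) (.cons (.rf (nat_lit 1) (nat_lit 581932844169281)) .nil))) .nil))) (.cons (.br (nat_lit 15) (nat_lit 0) (.cons (.ev (nat_lit 2668860946925890659918503194971340803) (nat_lit 2)) (.cons (.kr (nat_lit 20361638979814120860143421751297) (nat_lit 10384594336039711793239277543882752) (nat_lit 0) (nat_lit 1)) (.cons (.ev (nat_lit 2658476512284106608100404746103292417) (nat_lit 2)) (.cons (.br (nat_lit 7) (nat_lit 0) (.cons (.rf (nat_lit 1) (nat_lit 582165878650945))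 (.cons (.br (nat_lit 8) (nat_lit 0) (.cons (.ev (nat_lit 340282367000476110987532348791898308608) (nat_lit 1)) (.cons (.rf (nat_lit 197) (nat_lit 661213168447103226587595)) .nil))) (.cons (.br (nat_lit 8) (nat_lit 0) (.cons (.rf (nat_lit 1308) (nat_lit 21174441469360359728056352)) (.cons (.ev (nat_lit 87112291124136644037919880074394144407808) (nat_lit 1)) .nil))) .nil)))) .nil))))) .nil))))) (.cons (.rf (nat_lit 1298) (nat_lit 76927930903685933350346)) (.cons (.rf (nat_lit 1307) (nat_lit 76927930903685933350346)) (.cons (.rf (nat_lit 1303) (nat_lit 76927930903685933350346)) (.cons (.rf (nat_lit 1296) (nat_lit 76927930903685933350346)) (.cons (.br (nat_lit 2) (nat_lit 0) (.cons (.br (nat_lit 8) (nat_lit 0) (.cons (.br (nat_lit 15) (nat_lit 0) (.cons (.kr (nat_lit 10445440945885369528304955333541891) (nat_lit 2658456070799203186180359669384610816) (nat_lit 0) (nat_lit 11)) (.cons (.rf (nat_lit 1) (nat_lit 582165887031361)) .nil))) (.cons (.ev (nat_lit 20520095314324276554374802702337) (nat_lit 2)) (.cons (.ev (nat_lit 5192534852521602683135432845295617)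 (nat_lit 2)) (.cons (.br (nat_lit 7) (nat_lit 0) (.cons (.rf (nat_lit 1) (nat_lit 616223897655361)) (.cons (.br (nat_lit 15) (nat_lit 0) (.cons (.ev (nat_lit 1363819098135026552770742564937280128513) (nat_lit 3)) (.cons (.br (nat_lit 16) (nat_lit 0) (.cons (.ev (nat_lit 1369104856180415564103467579247176057351) (nat_lit 3)) .nil)) .nil))) (.cons (.br (nat_lit 15) (nat_lit 0) (.cons (.br (nat_lit 16) (nat_lit 0) (.cons (.ev (nat_lit 1363798328631917684552991667291192427013) (nat_lit 3)) .nil)) (.cons (.ev (nat_lit 348451802203871421302126400006608577233411) (nat_lit 3)) .nil))) .nil)))) .nil))))) (.cons (.ev (nat_lit 20362260367685546894735936978947) (nat_lit 2)) (.cons (.br (nat_lit 7) (nat_lit 0) (.cons (.kr (nat_lit 20361637770888301808464200466433) (nat_lit 620178982499908102136004608) (nat_lit 0) (nat_lit 1)) (.cons (.ev (nat_lit 2658476512284106644993327735989338113) (nat_lit 2)) (.cons (.br (nat_lit 6) (nat_lit 0) (.cons (.ev (nat_lit 2668861106003594152034296125026467841) (nat_lit 2)) (.cons (.ev (nat_lit 340282387203658765773124531540602191873)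 (nat_lit 1)) (.cons (.br (nat_lit 15) (nat_lit 0) (.cons (.ev (nat_lit 340287579500516091693308134991251702017) (nat_lit 1)) (.cons (.ev (nat_lit 2658476512284106608100404746103292417) (nat_lit 2)) .nil))) .nil)))) (.cons (.br (nat_lit 6) (nat_lit 0) (.cons (.rf (nat_lit 1) (nat_lit 616223863054401)) (.cons (.br (nat_lit 15) (nat_lit 0) (.cons (.ev (nat_lit 2658476512284106608100404746103292417) (nat_lit 2)) (.cons (.rf (nat_lit 2) (nat_lit 19067551925980733505)) .nil))) (.cons (.br (nat_lit 15) (nat_lit 0) (.cons (.rf (nat_lit 358) (nat_lit 20003175461543673159031049)) (.cons (.ev (nat_lit 2658476512284106608100404746103292417) (nat_lit 2)) .nil))) .nil)))) .nil))))) (.cons (.br (nat_lit 6) (nat_lit 0) (.cons (.ev (nat_lit 20679173036632070183185729979909) (nat_lit 3)) (.cons (.ev (nat_lit 1329227996713385124808088245495857922) (nat_lit 2)) (.cons (.br (nat_lit 7) (nat_lit 0) (.cons (.ev (nat_lit 2658476512284106644993327735989338113) (nat_lit 2)) (.cons (.ev (nat_lit 1369136010277248755420570891259117437959) (nat_lit 3)) (.cons (.br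 (nat_lit 8) (nat_lit 0) (.cons (.ev (nat_lit 341611615278670635234401286545718903040) (nat_lit 1)) (.cons (.br (nat_lit 16) (nat_lit 0) (.cons (.ev (nat_lit 1369125625207543750141710449168831610881) (nat_lit 3)) .nil)) .nil))) .nil)))) (.cons (.br (nat_lit 7) (nat_lit 0) (.cons (.ev (nat_lit 2658476512284106644993327735989338113) (nat_lit 2)) (.cons (.br (nat_lit 16) (nat_lit 0) (.cons (.ev (nat_lit 680569926376731856899444560510488543745) (nat_lit 2)) (.cons (.ev (nat_lit 1363798328789762302561384195056617259011) (nat_lit 3)) .nil))) (.cons (.br (nat_lit 8) (nat_lit 0) (.cons (.ev (nat_lit 5192377017575000847529081751863811) (nat_lit 2)) (.cons (.ev (nat_lit 348457119115377342324584119332384568115201) (nat_lit 3)) .nil))) .nil)))) .nil))))) (.cons (.br (nat_lit 6) (nat_lit 0) (.cons (.ev (nat_lit 20789866612011646152119963804239365) (nat_lit 3)) (.cons (.br (nat_lit 7) (nat_lit 0) (.cons (.ev (nat_lit 2658476353211238893338272605757506051) (nat_lit 2)) (.cons (.ev (nat_lit 31174302491716958469562130095145475) (nat_lit 3)) (.cons (.br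 (nat_lit 15) (nat_lit 0) (.cons (.ev (nat_lit 7975388812336420193667034450183193091) (nat_lit 3)) (.cons (.rf (nat_lit 2) (nat_lit 19067551925976539329)) .nil))) .nil)))) (.cons (.br (nat_lit 8) (nat_lit 0) (.cons (.ev (nat_lit 20789708767393747864156648021164547) (nat_lit 3)) (.cons (.ev (nat_lit 680569926376731856936338613815440703489) (nat_lit 2)) (.cons (.br (nat_lit 16) (nat_lit 0) (.cons (.ev (nat_lit 1363819097819356659566494891517149577733) (nat_lit 3)) (.cons (.ev (nat_lit 1369115240931974833878441450324694794753) (nat_lit 3)) .nil))) .nil)))) (.cons (.br (nat_lit 7) (nat_lit 0) (.cons (.ev (nat_lit 340287559217797003013441960966285754625) (nat_lit 1)) (.cons (.ev (nat_lit 4091363792342069069900863650033640016397) (nat_lit 4)) (.cons (.br (nat_lit 8) (nat_lit 0) (.cons (.ev (nat_lit 341611615278670635234401286545718903040) (nat_lit 1)) (.cons (.ev (nat_lit 20362260367722440948023709270531) (nat_lit 2)) .nil))) .nil)))) (.cons (.br (nat_lit 17) (nat_lit 0) (.cons (.ev (nat_lit 10405113814801794423469458887672321) (nat_lit 2))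 (.cons (.br (nat_lit 16) (nat_lit 0) (.cons (.ev (nat_lit 20362260367722440948023709270531) (nat_lit 2)) (.cons (.ev (nat_lit 2668860946925890696812552101944099331) (nat_lit 2)) (.cons (.kr (nat_lit 174224571863599722664687882958387554549761) (nat_lit 680564754124286535300786121684744667136) (nat_lit 0) (nat_lit 1)) .nil)))) (.cons (.ev (nat_lit 2658476512284106608100404746103292417) (nat_lit 2)) (.cons (.br (nat_lit 17) (nat_lit 0) (.cons (.ev (nat_lit 10405113814801794423469458887672321) (nat_lit 2)) (.cons (.kr (nat_lit 174224571863599722664687882958387554549761) (nat_lit 680564754124286535300786121684744667136) (nat_lit 0) (nat_lit 1)) (.cons (.ev (nat_lit 2658476512284106608100404746103292417) (nat_lit 2)) .nil)))) .nil))))) .nil)))))) (.cons (.br (nat_lit 6) (nat_lit 0) (.cons (.br (nat_lit 8) (nat_lit 0) (.cons (.kr (nat_lit 20282409603651670705426522963968) (nat_lit 309485028340146736472260608) (nat_lit 4) (nat_lit 0)) (.cons (.kr (nat_lit 5212579268138479299517397828894720) (nat_lit 310693954231818959684894720) (nat_lit 4)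 (nat_lit 0)) (.cons (.ev (nat_lit 20363503143502187068297488631297) (nat_lit 3)) .nil)))) (.cons (.br (nat_lit 15) (nat_lit 0) (.cons (.ev (nat_lit 2658476353211238893338272605757506051) (nat_lit 2)) (.cons (.br (nat_lit 7) (nat_lit 0) (.cons (.ev (nat_lit 5327317096954484286184535077530108419) (nat_lit 3)) (.cons (.rf (nat_lit 295) (nat_lit 19526098549778722272290)) .nil))) (.cons (.ev (nat_lit 7975388812336420193667034450183193091) (nat_lit 3)) .nil)))) (.cons (.br (nat_lit 7) (nat_lit 0) (.cons (.ev (nat_lit 5316932821385567912234511066076283399) (nat_lit 3)) (.cons (.br (nat_lit 8) (nat_lit 0) (.cons (.ev (nat_lit 341611594917034073290366119363185999873) (nat_lit 1)) (.cons (.br (nat_lit 16) (nat_lit 0) (.cons (.ev (nat_lit 1363808713383476954475537247954666914311) (nat_lit 3)) .nil)) .nil))) (.cons (.br (nat_lit 8) (nat_lit 0) (.cons (.ev (nat_lit 5192377017575000847529081751863811) (nat_lit 2)) (.cons (.ev (nat_lit 348451802203553275528844158033356592121351) (nat_lit 3)) .nil))) .nil)))) (.cons (.br (nat_lit 7) (nat_lit 0) (.cons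 (.br (nat_lit 15) (nat_lit 0) (.cons (.ev (nat_lit 2658476512284106608100404746103292417) (nat_lit 2)) (.cons (.rf (nat_lit 1243) (nat_lit 20003070847137625260694883)) .nil))) (.cons (.br (nat_lit 8) (nat_lit 0) (.cons (.ev (nat_lit 341611594917034073290366119363185999873) (nat_lit 1)) (.cons (.br (nat_lit 16) (nat_lit 0) (.cons (.ev (nat_lit 2619504377480530546847928274430676180671491) (nat_lit 5)) .nil)) .nil))) (.cons (.br (nat_lit 8) (nat_lit 0) (.cons (.ev (nat_lit 341616787292811290326357380080741646336) (nat_lit 1)) (.cons (.ev (nat_lit 20362260367722440948023709270531) (nat_lit 2)) .nil))) (.cons (.ev (nat_lit 10405113814801794423469458887672321) (nat_lit 2)) .nil))))) (.cons (.br (nat_lit 7) (nat_lit 0) (.cons (.br (nat_lit 15) (nat_lit 0) (.cons (.rf (nat_lit 258) (nat_lit 19526098549778722272321)) (.cons (.ev (nat_lit 2658476512284106608100404746103292417) (nat_lit 2)) .nil))) (.cons (.br (nat_lit 8) (nat_lit 0) (.cons (.ev (nat_lit 5192377017575000847529081751863811) (nat_lit 2)) (.cons (.ev (nat_lit 348462436028313690982732590582672708993541)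 (nat_lit 4)) .nil))) (.cons (.ev (nat_lit 10405113814801794423469458887672321) (nat_lit 2)) (.cons (.ev (nat_lit 87112285931760246646623899503632190603521) (nat_lit 1)) .nil))))) .nil)))))) .nil))))))) .nil))))))),
 (.br (nat_lit 8) (nat_lit 0) (.cons (.ev (nat_lit 1334420530331579224777133193045410051) (nat_lit 2)) (.cons (.ev (nat_lit 10405113814801831316396863966543875) (nat_lit 2)) (.cons (.br (nat_lit 11) (nat_lit 0) (.cons (.ev (nat_lit 20362260367685546894735903424513) (nat_lit 2)) (.cons (.rf (nat_lit 425) (nat_lit 19529522093491214392801)) .nil))) .nil))))]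

theorem c74 : chkAll C T R L74 (nat_lit 1307) = true := by decide +kernel

theorem l74 : (nat_lit 1307) + L74.length = (nat_lit 1311) := by decide +kernel

end Pool.Agent.H93.Neg.N18_8_0
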