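import Pool.Agent.H93.Neg.TabN18_8_0

/-!
Certificates.
-/

set_option autoImplicit false
set_option maxRecDepth 100000
set_option linter.all false

namespace Pool.Agent.H93.Neg.N18_8_0

/-- part of the certificates -/
def L75 : List Prf := [(.br (nat_lit 2) (nat_lit 0) (.cons (.br (nat_lit 11) (nat_lit 0) (.cons (.kr (nat_lit 20361638979814120860143421751297) (nat_lit 10384594336039711793239277543882752) (nat_lit 0) (nat_lit 1)) (.cons (.br (nat_lit 15) (nat_lit 0) (.cons (.ev (nat_lit 2668861106001185708233981508594958851) (nat_lit 2)) (.cons (.rf (nat_lit 1) (nat_lit 582164776689729)) .nil))) .nil))) (.cons (.br (nat_lit 8) (nat_lit 0) (.cons (.kr (nat_lit 20361638979814120860143421751297) (nat_lit 10384594336039711793239277543882752) (nat_lit 0) (nat_lit 1)) (.cons (.br (nat_lit 15) (nat_lit 0) (.cons (.ev (nat_lit 2658476353208811596966079798517432833) (nat_lit 2)) (.cons (.rf (nat_lit 1) (nat_lit 582164773547073)) .nil))) .nil))) (.cons (.br (nat_lit 11) (nat_lit 0) (.cons (.ev (nat_lit 20679173036742751210578041372677) (nat_lit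 3)) (.cons (.rf (nat_lit 722) (nat_lit 19579275561583591104191555)) .nil))) (.cons (.br (nat_lit 16) (nat_lit 0) (.cons (.ev (nat_lit 10405113814801831316396863966543875) (nat_lit 2)) (.cons (.ev (nat_lit 20362260367685546894735903424513) (nat_lit 2)) (.cons (.rf (nat_lit 1310) (nat_lit 19926519232773908561233952)) (.cons (.br (nat_lit 16) (nat_lit 0) (.cons (.ev (nat_lit 10405113814801831316396863966543875) (nat_lit 2)) (.cons (.ev (nat_lit 20362260367685546894735903424513) (nat_lit 2)) (.cons (.rf (nat_lit 1310) (nat_lit 19926519232773908561233952)) .nil)))) .nil))))) .nil))))),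
 (.br (nat_lit 8) (nat_lit 0) (.cons (.kr (nat_lit 40564821634599785100494770274560) (nat_lit 1344804886670005420951257314098216960) (nat_lit 1) (nat_lit 0)) (.cons (.br (nat_lit 15) (nat_lit 0) (.cons (.ev (nat_lit 2658476512284106644993327735955783683) (nat_lit 2)) (.cons (.rf (nat_lit 1) (nat_lit 582169068510273)) .nil))) .nil))),
 (.br (nat_lit 7) (nat_lit 0) (.cons (.kr (nat_lit 1329227996094410327674572125386113792) (nat_lit 5232861680160001055351731547799552) (nat_lit 1) (nat_lit 0)) (.cons (.br (nat_lit 15) (nat_lit 0) (.cons (.ev (nat_lit 2668861106001185708233981508594958851) (nat_lit 2)) (.cons (.rf (nat_lit 1) (nat_lit 582169067462721)) .nil))) .nil))),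
 (.br (nat_lit 8) (nat_lit 0) (.cons (.ev (nat_lit 10404955977446822286296617628860931) (nat_lit 2)) (.cons (.kr (nat_lit 10384672945232206414887833149898753) (nat_lit 20282410817300000636638442029568) (nat_lit 0) (nat_lit 2)) (.cons (.br (nat_lit 11) (nat_lit 0) (.cons (.kr (nat_lit 20361638975091754377273793314817) (nat_lit 618974742153288195170632192) (nat_lit 0) (nat_lit 2)) (.cons (.ev (nat_lit 1361129488205094352327534447078114854401) (nat_lit 3)) (.cons (.br (nat_lit 15) (nat_lit 0) (.cons (.ev (nat_lit 5316932503237386296874383095336272389) (nat_lit 3)) (.cons (.ev (nat_lit 5337702008822134519410186515491324417) (nat_lit 3)) .nil))) .nil)))) (.cons (.br (nat_lit 11) (nat_lit 0) (.cons (.kr (nat_lit 20361638975091754377273793314817) (nat_lit 618974742153288195170632192) (nat_lit 0) (nat_lit 2)) (.cons (.br (nat_lit 15) (nat_lit 0) (.cons (.ev (nat_lit 5327317257267719262818385489857349127) (nat_lit 3)) (.cons (.ev (nat_lit 5348086126551249661310826040470275587) (nat_lit 3)) .nil))) (.cons (.kr (nat_lit 5192376086697360339613263111127041)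 (nat_lit 309489732331943126445851136) (nat_lit 0) (nat_lit 2)) .nil)))) .nil))))),
 (.br (nat_lit 7) (nat_lit 0) (.cons (.ev (nat_lit 20362260367685546896926370299907) (nat_lit 2)) (.cons (.kr (nat_lit 79228176681507902490067075585) (nat_lit 10404876127882269640587720848834560) (nat_lit 0) (nat_lit 2)) (.cons (.br (nat_lit 11) (nat_lit 0) (.cons (.kr (nat_lit 20361638979814120860143421751297) (nat_lit 10384594336039711793239277543882752) (nat_lit 0) (nat_lit 1)) (.cons (.ev (nat_lit 1361129487968338319814421638987236245766) (nat_lit 3)) (.cons (.br (nat_lit 15) (nat_lit 0) (.cons (.ev (nat_lit 5348086284388604670629158853359436805) (nat_lit 3)) (.cons (.ev (nat_lit 5348086602539194766683654728236138497) (nat_lit 3)) .nil))) .nil)))) (.cons (.br (nat_lit 11) (nat_lit 0) (.cons (.kr (nat_lit 20361638979814120860143421751297) (nat_lit 10384594336039711793239277543882752) (nat_lit 0) (nat_lit 1)) (.cons (.br (nat_lit 15) (nat_lit 0) (.cons (.ev (nat_lit 5327317257267719262818385489857349127) (nat_lit 3)) (.cons (.ev (nat_lit 5327316939117129166763889614980645379)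 (nat_lit 3)) .nil))) (.cons (.kr (nat_lit 79228171959069362026383933697) (nat_lit 10384594026554701971894208835878912) (nat_lit 0) (nat_lit 2)) .nil)))) .nil))))),
 (.br (nat_lit 7) (nat_lit 0) (.cons (.ev (nat_lit 10405113814801831316394656319799297) (nat_lit 2)) (.cons (.kr (nat_lit 20361638975091754377273793314817) (nat_lit 618974742153288195170632192) (nat_lit 0) (nat_lit 2)) (.cons (.br (nat_lit 8) (nat_lit 0) (.cons (.kr (nat_lit 20361638979814120860143421751297) (nat_lit 10384594336039711793239277543882752) (nat_lit 0) (nat_lit 1)) (.cons (.ev (nat_lit 1361129488205094352327534447078114854401) (nat_lit 3)) (.cons (.br (nat_lit 15) (nat_lit 0) (.cons (.ev (nat_lit 5327317415105074272136718302746510337) (nat_lit 3)) (.cons (.ev (nat_lit 5348086602539194766683654728236138497) (nat_lit 3)) .nil))) .nil)))) (.cons (.br (nat_lit 8) (nat_lit 0) (.cons (.kr (nat_lit 20361638979814120860143421751297) (nat_lit 10384594336039711793239277543882752) (nat_lit 0) (nat_lit 1)) (.cons (.br (nat_lit 15) (nat_lit 0) (.cons (.ev (nat_lit 5316932821387976392928878970212976129)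 (nat_lit 3)) (.cons (.ev (nat_lit 5337702008822134519410186515491324417) (nat_lit 3)) .nil))) (.cons (.kr (nat_lit 4722438540463683141888) (nat_lit 5192296858534846075274570055548928) (nat_lit 1) (nat_lit 0)) .nil)))) .nil))))),
 (.br (nat_lit 15) (nat_lit 0) (.cons (.rf (nat_lit 1315) (nat_lit 19419741044737752728649162)) (.cons (.rf (nat_lit 1314) (nat_lit 19419741044737752728649162)) (.cons (.rf (nat_lit 1316) (nat_lit 19419741044737752728649162)) (.cons (.ev (nat_lit 341616807495992731463763467538255577088) (nat_lit 1)) (.cons (.br (nat_lit 11) (nat_lit 0) (.cons (.br (nat_lit 8) (nat_lit 0) (.cons (.ev (nat_lit 1361129488205094352327534447078114854401) (nat_lit 3)) (.cons (.br (nat_lit 16) (nat_lit 0) (.cons (.ev (nat_lit 1369115240613819427005467350418732483591) (nat_lit 3)) .nil)) .nil))) (.cons (.br (nat_lit 7) (nat_lit 0) (.cons (.ev (nat_lit 1361139872798811450353739778248021378049) (nat_lit 3)) (.cons (.br (nat_lit 16) (nat_lit 0) (.cons (.ev (nat_lit 1369104856020102328979262019248825959943) (nat_lit 3)) .nil)) .nil))) (.cons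 (.ev (nat_lit 31174144654361838472455915242258947) (nat_lit 3)) (.cons (.br (nat_lit 7) (nat_lit 0) (.cons (.ev (nat_lit 2679246017873690681776851847741833217) (nat_lit 3)) (.cons (.br (nat_lit 8) (nat_lit 0) (.cons (.ev (nat_lit 20363503143465294140909522518019) (nat_lit 3)) .nil)) (.cons (.br (nat_lit 8) (nat_lit 0) (.cons (.ev (nat_lit 20789866612011756833145165648756743) (nat_lit 3)) .nil)) .nil)))) .nil))))) .nil)))))),
 (.br (nat_lit 8) (nat_lit 0) (.cons (.kr (nat_lit 79848346182093126329325060609) (nat_lit 2658476273979435434371526219542953984) (nat_lit 0) (nat_lit 6)) (.cons (.ev (nat_lit 1369136009801260810315198066986577953281) (nat_lit 3)) (.cons (.br (nat_lit 11) (nat_lit 0) (.cons (.ev (nat_lit 1363819098135033777991461357719250142721) (nat_lit 3)) (.cons (.ev (nat_lit 1344804887291402700145275949616922881) (nat_lit 2)) .nil))) .nil)))),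
 (.br (nat_lit 6) (nat_lit 0) (.cons (.ev (nat_lit 340282366920939677111560704934883164416) (nat_lit 1)) (.cons (.rf (nat_lit 450) (nat_lit 661663245031468038295823)) .nil))),
 (.br (nat_lit 14) (nat_lit 0) (.cons (.ev (nat_lit 1329248278195728468840590814239260673) (nat_lit 1)) .nil)),
 (.br (nat_lit 7) (nat_lit 0) (.cons (.ev (nat_lit 1329227996095609808616824352234602496) (nat_lit 1)) (.cons (.rf (nat_lit 456) (nat_lit 18307348735288349600161)) .nil))),
 (.br (nat_lit 14) (nat_lit 0) (.cons (.br (nat_lit 6) (nat_lit 0) (.cons (.kr (nat_lit 79229376162594551379951353857) (nat_lit 10404876126673306928047894174892032) (nat_lit 0) (nat_lit 1)) (.cons (.kr (nat_lit 20282410812614383526728156839937) (nat_lit 79228167236631384512654213632) (nat_lit 0) (nat_lit 2)) (.cons (.ev (nat_lit 31174144651953431566194586616594947) (nat_lit 3)) (.cons (.br (nat_lit 7) (nat_lit 0) (.cons (.ev (nat_lit 7975388336353329755400909129758409735) (nat_lit 3)) (.cons (.kr (nat_lit 10404876746852252389789710845739009) (nat_lit 2658456070797998982582550871337467904)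 (nat_lit 0) (nat_lit 1)) (.cons (.rf (nat_lit 1318) (nat_lit 19926519232773908561233952)) (.cons (.br (nat_lit 8) (nat_lit 0) (.cons (.kr (nat_lit 79848346182093126329325060609) (nat_lit 2658476273979435434371526219542953984) (nat_lit 0) (nat_lit 6)) (.cons (.rf (nat_lit 1318) (nat_lit 19419741044737752728649162)) (.cons (.br (nat_lit 11) (nat_lit 0) (.cons (.br (nat_lit 16) (nat_lit 0) (.cons (.ev (nat_lit 681899154135448842157035806105220088577) (nat_lit 2)) .nil)) (.cons (.ev (nat_lit 348451833357176586983801688215007325979141) (nat_lit 3)) .nil))) .nil)))) .nil))))) .nil))))) (.cons (.ev (nat_lit 2668860946925890659918503195004895233) (nat_lit 2)) (.cons (.rf (nat_lit 1307) (nat_lit 76927930903685933350346)) (.cons (.rf (nat_lit 1303) (nat_lit 76927930903685933350346)) (.cons (.rf (nat_lit 1309) (nat_lit 76927930903685933350346)) (.cons (.br (nat_lit 8) (nat_lit 0) (.cons (.ev (nat_lit 20520095314287382503277430178307) (nat_lit 2)) (.cons (.kr (nat_lit 20282410812614383526728156839937) (nat_lit 79228167236631384512654213632) (nat_lit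 0) (nat_lit 2)) (.cons (.br (nat_lit 11) (nat_lit 0) (.cons (.ev (nat_lit 2658476512284106644993327735989338113) (nat_lit 2)) (.cons (.ev (nat_lit 5316912063304767239099881966056506625) (nat_lit 3)) (.cons (.ev (nat_lit 2668861106003594115140245027653943811) (nat_lit 2)) (.cons (.br (nat_lit 2) (nat_lit 0) (.cons (.rf (nat_lit 1) (nat_lit 616216384739393)) (.cons (.br (nat_lit 6) (nat_lit 0) (.cons (.ev (nat_lit 340282366920939677111560704934883164416) (nat_lit 1)) (.cons (.rf (nat_lit 452) (nat_lit 661663245031468038295823)) .nil))) (.cons (.br (nat_lit 6) (nat_lit 0) (.cons (.rf (nat_lit 1243) (nat_lit 19998348480654755615481315)) (.cons (.ev (nat_lit 87113615180038441170870912555478870392833) (nat_lit 1)) .nil))) .nil)))) .nil))))) (.cons (.br (nat_lit 7) (nat_lit 0) (.cons (.ev (nat_lit 2658476353211238893338272605723951617) (nat_lit 2)) (.cons (.kr (nat_lit 309485009893402662762709248) (nat_lit 20282409603651670423951563030528) (nat_lit 1) (nat_lit 0)) (.cons (.ev (nat_lit 2668861106003594115140245027653943811) (nat_lit 2)) (.cons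 (.br (nat_lit 2) (nat_lit 0) (.cons (.rf (nat_lit 1) (nat_lit 616219635324993)) (.cons (.rf (nat_lit 1319) (nat_lit 677582165103132179601393696)) (.cons (.br (nat_lit 6) (nat_lit 0) (.cons (.rf (nat_lit 1320) (nat_lit 661701333108527519074336)) (.cons (.ev (nat_lit 87113615159756341052228991420105817587968) (nat_lit 1)) .nil))) .nil)))) .nil))))) (.cons (.br (nat_lit 2) (nat_lit 0) (.cons (.br (nat_lit 7) (nat_lit 0) (.cons (.ev (nat_lit 7996157841940486421738155256584471043) (nat_lit 3)) (.cons (.ev (nat_lit 340287579579435973401276316865343324160) (nat_lit 1)) (.cons (.br (nat_lit 11) (nat_lit 0) (.cons (.ev (nat_lit 340287579500516091693308134991234924800) (nat_lit 1)) (.cons (.ev (nat_lit 20362260367685546894735903424513) (nat_lit 2)) .nil))) .nil)))) (.cons (.ev (nat_lit 10405113814801831316396863932989441) (nat_lit 2)) (.cons (.ev (nat_lit 10404955975019525914101620022575617) (nat_lit 2)) (.cons (.ev (nat_lit 341616787292811290326357380080758423553) (nat_lit 1)) (.cons (.br (nat_lit 6) (nat_lit 0) (.cons (.br (nat_lit 11) (nat_lit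 0) (.cons (.ev (nat_lit 341611615199134191932287254736238805248) (nat_lit 1)) (.cons (.ev (nat_lit 20362260367685546894735903424513) (nat_lit 2)) .nil))) (.cons (.br (nat_lit 7) (nat_lit 0) (.cons (.ev (nat_lit 341611594917034073290366119363185999873) (nat_lit 1)) (.cons (.ev (nat_lit 20362260367685546894735903424513) (nat_lit 2)) .nil))) (.cons (.br (nat_lit 7) (nat_lit 0) (.cons (.ev (nat_lit 341611615199134191932287254736238805248) (nat_lit 1)) (.cons (.br (nat_lit 11) (nat_lit 0) (.cons (.ev (nat_lit 20363503143465294140909522518019) (nat_lit 3)) .nil)) .nil))) (.cons (.br (nat_lit 7) (nat_lit 0) (.cons (.ev (nat_lit 18681905252793135083789165155123071495) (nat_lit 4)) (.cons (.ev (nat_lit 1369136009801258402018972830859729699847) (nat_lit 3)) (.cons (.ev (nat_lit 7985772930070389965781452145003987975) (nat_lit 3)) .nil)))) .nil))))) .nil)))))) (.cons (.br (nat_lit 2) (nat_lit 0) (.cons (.br (nat_lit 7) (nat_lit 0) (.cons (.rf (nat_lit 1) (nat_lit 616219602819137)) (.cons (.br (nat_lit 16) (nat_lit 0) (.cons (.ev (nat_lit 20362260367685546894735903424513)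 (nat_lit 2)) (.cons (.ev (nat_lit 341611594995951546591428036623001977088) (nat_lit 1)) .nil))) (.cons (.br (nat_lit 11) (nat_lit 0) (.cons (.rf (nat_lit 246) (nat_lit 19533351422125946408994)) (.cons (.ev (nat_lit 20362260367685546894735903424513) (nat_lit 2)) .nil))) .nil)))) (.cons (.br (nat_lit 6) (nat_lit 0) (.cons (.rf (nat_lit 1) (nat_lit 616219569265729)) (.cons (.br (nat_lit 11) (nat_lit 0) (.cons (.ev (nat_lit 340282387203658765773124532644408786945) (nat_lit 1)) (.cons (.rf (nat_lit 394) (nat_lit 20670127518591690833966)) .nil))) (.cons (.br (nat_lit 11) (nat_lit 0) (.cons (.rf (nat_lit 246) (nat_lit 19533351457310318465058)) (.cons (.ev (nat_lit 87113615180038441170870912555478870392833) (nat_lit 1)) .nil))) .nil)))) (.cons (.br (nat_lit 6) (nat_lit 0) (.cons (.rf (nat_lit 1) (nat_lit 616215274302529)) (.cons (.rf (nat_lit 1321) (nat_lit 21174442659436561260709920)) (.cons (.br (nat_lit 17) (nat_lit 0) (.cons (.ev (nat_lit 87113615159756341052228991420105817587968) (nat_lit 1)) (.cons (.ev (nat_lit 87112291124136642833697980480035898851328)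 (nat_lit 1)) .nil))) .nil)))) (.cons (.br (nat_lit 6) (nat_lit 0) (.cons (.br (nat_lit 11) (nat_lit 0) (.cons (.ev (nat_lit 20362260367685546894735903424513) (nat_lit 2)) (.cons (.rf (nat_lit 425) (nat_lit 19529522093491215441345)) .nil))) (.cons (.br (nat_lit 7) (nat_lit 0) (.cons (.ev (nat_lit 20362260367685546894735903424513) (nat_lit 2)) (.cons (.rf (nat_lit 246) (nat_lit 20668650650040999023969)) .nil))) (.cons (.ev (nat_lit 340282366920939677111560704934883164416) (nat_lit 1)) (.cons (.br (nat_lit 16) (nat_lit 0) (.cons (.ev (nat_lit 7985772930070389965781452145003987975) (nat_lit 3)) (.cons (.ev (nat_lit 2689630135597989009864964334669923335) (nat_lit 3)) (.cons (.kr (nat_lit 174224571863599722664687882958387554549761) (nat_lit 680564754124286535300786121684744667136) (nat_lit 0) (nat_lit 1)) .nil)))) .nil))))) (.cons (.br (nat_lit 6) (nat_lit 0) (.cons (.br (nat_lit 11) (nat_lit 0) (.cons (.rf (nat_lit 246) (nat_lit 19533351457310318333990)) (.cons (.ev (nat_lit 20362260367685546894735903424513) (nat_lit 2)) .nil))) (.cons (.br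 (nat_lit 17) (nat_lit 0) (.cons (.ev (nat_lit 20362260367685546894735903424513) (nat_lit 2)) (.cons (.ev (nat_lit 87112291144339825479038839699252925497345) (nat_lit 1)) .nil))) (.cons (.br (nat_lit 16) (nat_lit 0) (.cons (.ev (nat_lit 7985772930070389965781452145003987975) (nat_lit 3)) (.cons (.ev (nat_lit 1369136009801258402018972826444570428419) (nat_lit 3)) (.cons (.ev (nat_lit 1224335956203007427270977058219861115145227) (nat_lit 4)) .nil)))) (.cons (.br (nat_lit 7) (nat_lit 0) (.cons (.ev (nat_lit 87113615180038441170870912555478870392833) (nat_lit 1)) (.cons (.br (nat_lit 11) (nat_lit 0) (.cons (.ev (nat_lit 5337701532834189414037357827725459459) (nat_lit 3)) .nil)) .nil))) .nil))))) .nil)))))) .nil))))))) .nil))))))),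
 (.br (nat_lit 15) (nat_lit 0) (.cons (.ev (nat_lit 2658476353211238856445349598691590147) (nat_lit 2)) (.cons (.br (nat_lit 6) (nat_lit 0) (.cons (.ev (nat_lit 7985772930070389928888522532278371847) (nat_lit 3)) (.cons (.ev (nat_lit 1363819098135026552844530673737651323399) (nat_lit 3)) (.cons (.br (nat_lit 11) (nat_lit 0) (.cons (.ev (nat_lit 1363798328631917684626777524291817047559) (nat_lit 3)) (.cons (.br (nat_lit 16) (nat_lit 0) (.cons (.zr (nat_lit 1361129569095810358204852611810070627840) (nat_lit 2710379040002312740467953800480686081) (nat_lit 16) (nat_lit 1)) .nil)) .nil))) .nil)))) (.cons (.ev (nat_lit 2668861106003594115140247235267133955) (nat_lit 2)) (.cons (.ev (nat_lit 340282387282576229629309370072075141376) (nat_lit 1)) (.cons (.br (nat_lit 8) (nat_lit 0) (.cons (.br (nat_lit 11) (nat_lit 0) (.cons (.ev (nat_lit 340287579579435973401276315770126663680) (nat_lit 1)) (.cons (.ev (nat_lit 2658476512284106644993327735955783683) (nat_lit 2)) .nil))) (.cons (.br (nat_lit 6) (nat_lit 0) (.cons (.ev (nat_lit 340287579579435973401276315770126663680)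 (nat_lit 1)) (.cons (.ev (nat_lit 2668860946925890696812552101944099331) (nat_lit 2)) .nil))) (.cons (.ev (nat_lit 10405113814801831316396863932989441) (nat_lit 2)) (.cons (.br (nat_lit 6) (nat_lit 0) (.cons (.ev (nat_lit 2658476512284106644993327735955783683) (nat_lit 2)) (.cons (.ev (nat_lit 341616807495991517834024395588121919745) (nat_lit 1)) (.cons (.ev (nat_lit 87112291144418742952339901617607974912257) (nat_lit 1)) .nil)))) .nil))))) .nil)))))),
 (.br (nat_lit 8) (nat_lit 0) (.cons (.ev (nat_lit 10405113814801794423471666467308035) (nat_lit 2)) (.cons (.kr (nat_lit 310693935785074885975343360) (nat_lit 5212579268138479299235922868961280) (nat_lit 1) (nat_lit 0)) (.cons (.rf (nat_lit 1323) (nat_lit 19419741044737752728649162)) (.cons (.br (nat_lit 2) (nat_lit 0) (.cons (.ev (nat_lit 20362260367722440948023742824961) (nat_lit 2)) (.cons (.ev (nat_lit 341616807495991517815577370039435657216) (nat_lit 1)) (.cons (.br (nat_lit 11) (nat_lit 0) (.cons (.ev (nat_lit 341616807495991517834024394484332101888) (nat_lit 1)) (.cons (.ev (nat_lit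 20362260367685546894735903424513) (nat_lit 2)) .nil))) .nil)))) (.cons (.br (nat_lit 2) (nat_lit 0) (.cons (.rf (nat_lit 1020) (nat_lit 677582165094161264230375456)) (.cons (.br (nat_lit 11) (nat_lit 0) (.cons (.ev (nat_lit 10404955975019489021174232090017793) (nat_lit 2)) (.cons (.rf (nat_lit 467) (nat_lit 21173074244002644605699140)) .nil))) (.cons (.br (nat_lit 11) (nat_lit 0) (.cons (.ev (nat_lit 10404955975019489021174232090017793) (nat_lit 2)) (.cons (.rf (nat_lit 1021) (nat_lit 21174442613310948963885088)) .nil))) (.cons (.br (nat_lit 17) (nat_lit 0) (.cons (.ev (nat_lit 20362260367685546894735903424513) (nat_lit 2)) (.cons (.ev (nat_lit 87112291124057106390377419986731475730688) (nat_lit 1)) (.cons (.ev (nat_lit 87112285931760246646623899502536957165824) (nat_lit 1)) .nil)))) .nil))))) .nil))))))]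

theorem c75 : chkAll C T R L75 (nat_lit 1311) = true := by decide +kernel

theorem l75 : (nat_lit 1311) + L75.length = (nat_lit 1325) := by decide +kernel

/-- part of the certificates -/
def L76 : List Prf := [(.br (nat_lit 8) (nat_lit 0) (.cons (.ev (nat_lit 20362260367685546896926370299907) (nat_lit 2)) (.cons (.kr (nat_lit 5192297168019874343363712473104385) (nat_lit 79228167236631103037677502720) (nat_lit 0) (nat_lit 2)) (.cons (.rf (nat_lit 1323) (nat_lit 19419741044737752728649162)) (.cons (.br (nat_lit 2) (nat_lit 0) (.cons (.ev (nat_lit 20362260367722440948023742824961) (nat_lit 2)) (.cons (.ev (nat_lit 341616807495991517815577370039435657216) (nat_lit 1)) (.cons (.br (nat_lit 6) (nat_lit 0) (.cons (.ev (nat_lit 341611594917034073290366119363185999873) (nat_lit 1)) (.cons (.ev (nat_lit 10405113814801794423469458887672321) (nat_lit 2)) .nil))) .nil)))) (.cons (.br (nat_lit 2) (nat_lit 0) (.cons (.br (nat_lit 15) (nat_lit 0) (.cons (.ev (nat_lit 341611594995951546572981575128058953728) (nat_lit 1)) (.cons (.rf (nat_lit 645) (nat_lit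 21158716770431243602172361)) .nil))) (.cons (.br (nat_lit 6) (nat_lit 0) (.cons (.ev (nat_lit 10404955975019489021174232090017793) (nat_lit 2)) (.cons (.rf (nat_lit 465) (nat_lit 19992142218846798214406633)) .nil))) (.cons (.br (nat_lit 15) (nat_lit 0) (.cons (.ev (nat_lit 10404955975019489021174232090017793) (nat_lit 2)) (.cons (.rf (nat_lit 681) (nat_lit 21163812647652695091588165)) .nil))) (.cons (.br (nat_lit 17) (nat_lit 0) (.cons (.ev (nat_lit 10405113814801794423469458887672321) (nat_lit 2)) (.cons (.ev (nat_lit 87112285931839785507796243340287805554688) (nat_lit 1)) (.cons (.ev (nat_lit 87112285931760246646623899502536957165824) (nat_lit 1)) .nil)))) .nil))))) .nil)))))),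
 (.br (nat_lit 8) (nat_lit 0) (.cons (.br (nat_lit 6) (nat_lit 0) (.cons (.ev (nat_lit 7985773248216163137342393589585544707) (nat_lit 3)) (.cons (.ev (nat_lit 1363798328947597249163219803598043350531) (nat_lit 3)) (.cons (.br (nat_lit 11) (nat_lit 0) (.cons (.ev (nat_lit 1363819097819356659566494898122842833411) (nat_lit 3)) (.cons (.br (nat_lit 16) (nat_lit 0) (.cons (.zr (nat_lit 1369104856178557445007752890431748571139) (nat_lit 10384596817964419606188182867018240) (nat_lit 16) (nat_lit 2)) .nil)) .nil))) .nil)))) (.cons (.ev (nat_lit 2668860946925890696812554292343865857) (nat_lit 2)) (.cons (.ev (nat_lit 2658476512284106644993329943602528257) (nat_lit 2)) (.cons (.br (nat_lit 2) (nat_lit 0) (.cons (.ev (nat_lit 4096691088281393955518837737949600285697) (nat_lit 4)) (.cons (.ev (nat_lit 1363787944514193386298112948827926692353) (nat_lit 3)) (.cons (.br (nat_lit 6) (nat_lit 0) (.cons (.ev (nat_lit 341616807495991517834024394484332101888) (nat_lit 1)) (.cons (.br (nat_lit 11) (nat_lit 0) (.cons (.ev (nat_lit 2668861106003594152034296124992913411)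 (nat_lit 2)) .nil)) .nil))) .nil)))) (.cons (.br (nat_lit 16) (nat_lit 0) (.cons (.br (nat_lit 6) (nat_lit 0) (.cons (.ev (nat_lit 2689630611588342411463029149250487297) (nat_lit 3)) (.cons (.br (nat_lit 11) (nat_lit 0) (.cons (.ev (nat_lit 341611594917034073271919656764453159168) (nat_lit 1)) .nil)) .nil))) (.cons (.br (nat_lit 11) (nat_lit 0) (.cons (.kr (nat_lit 2658476353207597911742939715116072961) (nat_lit 1239153687615592961811677696) (nat_lit 0) (nat_lit 8)) (.cons (.ev (nat_lit 2668861106003594152034296124992913411) (nat_lit 2)) .nil))) (.cons (.br (nat_lit 6) (nat_lit 0) (.cons (.ev (nat_lit 2689630611588342411463029149250487297) (nat_lit 3)) (.cons (.ev (nat_lit 2668861106003594152034296124992913411) (nat_lit 2)) .nil))) (.cons (.ev (nat_lit 341611594995951546591428036623001977088) (nat_lit 1)) .nil))))) .nil)))))),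
 (.br (nat_lit 14) (nat_lit 0) (.cons (.ev (nat_lit 340282387203349276059383448775470153728) (nat_lit 1)) .nil)),
 (.br (nat_lit 8) (nat_lit 0) (.cons (.rf (nat_lit 1326) (nat_lit 19419741044737752728649162)) (.cons (.rf (nat_lit 1324) (nat_lit 19419741044737752728649162)) (.cons (.rf (nat_lit 1325) (nat_lit 19419741044737752728649162)) (.cons (.ev (nat_lit 2658476353211238893338274796157272577) (nat_lit 2)) (.cons (.br (nat_lit 2) (nat_lit 0) (.cons (.br (nat_lit 15) (nat_lit 0) (.cons (.ev (nat_lit 2689630451277515731056666663618741765) (nat_lit 3)) (.cons (.rf (nat_lit 560) (nat_lit 21169677746176808771918051)) .nil))) (.cons (.br (nat_lit 6) (nat_lit 0) (.cons (.ev (nat_lit 8006542435655138151424328142900299265) (nat_lit 3)) (.cons (.rf (nat_lit 1327) (nat_lit 21174441469360359728056352)) .nil))) (.cons (.ev (nat_lit 340282366920939677111560704934899941633) (nat_lit 1)) (.cons (.br (nat_lit 6) (nat_lit 0) (.cons (.br (nat_lit 15) (nat_lit 0) (.cons (.ev (nat_lit 2658476512284106644993327735955783683) (nat_lit 2)) .nil)) (.cons (.br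 (nat_lit 11) (nat_lit 0) (.cons (.ev (nat_lit 2658476512284106644993327735955783683) (nat_lit 2)) .nil)) (.cons (.br (nat_lit 11) (nat_lit 0) (.cons (.ev (nat_lit 2668860946925890696812552101944099331) (nat_lit 2)) .nil)) .nil)))) .nil))))) .nil)))))),
 (.br (nat_lit 17) (nat_lit 0) (.cons (.ev (nat_lit 20362260367685546894735903424513) (nat_lit 2)) (.cons (.ev (nat_lit 87112291124057106390377419986731475730688) (nat_lit 1)) (.cons (.br (nat_lit 11) (nat_lit 0) (.cons (.ev (nat_lit 1363798328947597249237005651802574946821) (nat_lit 3)) .nil)) .nil)))),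
 (.br (nat_lit 14) (nat_lit 0) (.cons (.ev (nat_lit 340282366921249162139829075548016017408) (nat_lit 1)) .nil)),
 (.br (nat_lit 6) (nat_lit 0) (.cons (.rf (nat_lit 1329) (nat_lit 677075386915096023768808906)) (.cons (.rf (nat_lit 1330) (nat_lit 21174442659472880612509728)) (.cons (.ev (nat_lit 10405113814801794423469458887672321) (nat_lit 2)) .nil)))),
 (.br (nat_lit 8) (nat_lit 0) (.cons (.br (nat_lit 15) (nat_lit 0) (.cons (.rf (nat_lit 1) (nat_lit 582139163910370)) (.cons (.rf (nat_lit 624) (nat_lit 21174254801811326339483680)) (.cons (.br (nat_lit 11) (nat_lit 0) (.cons (.br (nat_lit 16) (nat_lit 0) (.cons (.ev (nat_lit 5447249040831316780184192490747607517193) (nat_lit 5)) .nil)) (.cons (.ev (nat_lit 1393809939902865275008228959815083667095561) (nat_lit 5)) .nil))) .nil)))) (.cons (.br (nat_lit 15) (nat_lit 0) (.cons (.ev (nat_lit 2658476512284106644993329943602528257) (nat_lit 2)) (.cons (.ev (nat_lit 2658476512284106608100402538490102273) (nat_lit 2)) (.cons (.br (nat_lit 17) (nat_lit 0) (.cons (.ev (nat_lit 87112291124136644037901433612899218161665)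 (nat_lit 1)) (.cons (.ev (nat_lit 87112291144339824274853833030092128846080) (nat_lit 1)) .nil))) .nil)))) (.cons (.ev (nat_lit 20520095314324276554374802702337) (nat_lit 2)) (.cons (.br (nat_lit 7) (nat_lit 0) (.cons (.ev (nat_lit 20362260367722440948023742824961) (nat_lit 2)) (.cons (.br (nat_lit 11) (nat_lit 0) (.cons (.ev (nat_lit 340282367000477324635718445186894856193) (nat_lit 1)) (.cons (.ev (nat_lit 2689630293442569203009162507236803585) (nat_lit 3)) .nil))) (.cons (.ev (nat_lit 340282387282577443277495467570895061248) (nat_lit 1)) (.cons (.br (nat_lit 11) (nat_lit 0) (.cons (.br (nat_lit 16) (nat_lit 0) (.cons (.zr (nat_lit 1363798409681088773512918039347907920384) (nat_lit 81086295777224282349999489035) (nat_lit 16) (nat_lit 6)) .nil)) (.cons (.ev (nat_lit 340282387282577443295942492024381440000) (nat_lit 1)) (.cons (.ev (nat_lit 20362260367685546894735903424513) (nat_lit 2)) .nil)))) .nil))))) (.cons (.br (nat_lit 7) (nat_lit 0) (.cons (.br (nat_lit 17) (nat_lit 0) (.cons (.ev (nat_lit 87112291124136644037901433612899218161665)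 (nat_lit 1)) (.cons (.ev (nat_lit 87112291144418744156543354748272270967040) (nat_lit 1)) .nil))) (.cons (.br (nat_lit 11) (nat_lit 0) (.cons (.br (nat_lit 16) (nat_lit 0) (.cons (.ev (nat_lit 4102049539274460339786747719295938461709) (nat_lit 4)) .nil)) (.cons (.ev (nat_lit 348457150269634481488136456322057590931461) (nat_lit 3)) .nil))) (.cons (.br (nat_lit 11) (nat_lit 0) (.cons (.br (nat_lit 16) (nat_lit 0) (.cons (.ev (nat_lit 2619515032072093512275074083846970870336529) (nat_lit 5)) .nil)) (.cons (.ev (nat_lit 20362260367685546894735903424513) (nat_lit 2)) (.cons (.ev (nat_lit 87112291144418744156543354748272270967040) (nat_lit 1)) .nil)))) (.cons (.ev (nat_lit 87112291144418744156561801211966237245440) (nat_lit 1)) .nil))))) .nil)))))),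
 (.br (nat_lit 8) (nat_lit 0) (.cons (.br (nat_lit 15) (nat_lit 0) (.cons (.ev (nat_lit 341611615278671839456300880903981236225) (nat_lit 1)) (.cons (.ev (nat_lit 2668860946925890696812552101944099331) (nat_lit 2)) .nil))) (.cons (.br (nat_lit 11) (nat_lit 0) (.cons (.ev (nat_lit 341611594995952750776434706887588446208) (nat_lit 1)) (.cons (.ev (nat_lit 2689630295918449318472848271815085579) (nat_lit 4)) .nil))) (.cons (.ev (nat_lit 340282366920938463463374607436080021761) (nat_lit 1)) (.cons (.ev (nat_lit 10405113814801831316396863932989441) (nat_lit 2)) .nil))))),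
 (.br (nat_lit 6) (nat_lit 0) (.cons (.br (nat_lit 11) (nat_lit 0) (.cons (.rf (nat_lit 1) (nat_lit 582139163943106)) (.cons (.br (nat_lit 16) (nat_lit 0) (.cons (.ev (nat_lit 2658476512284106644993327735955783683) (nat_lit 2)) (.cons (.ev (nat_lit 340287559297334650537455584934988152833) (nat_lit 1)) .nil))) (.cons (.br (nat_lit 15) (nat_lit 0) (.cons (.rf (nat_lit 2) (nat_lit 19072089643749187778)) (.cons (.ev (nat_lit 2658476512284106644993327735955783683) (nat_lit 2)) .nil))) .nil)))) (.cons (.br (nat_lit 8) (nat_lit 0) (.cons (.rf (nat_lit 1) (nat_lit 582139063282882)) (.cons (.ev (nat_lit 20362260367722440948023742824961) (nat_lit 2)) (.cons (.ev (nat_lit 10405113814801831316396863932989441) (nat_lit 2)) .nil)))) (.cons (.ev (nat_lit 2658476353211238856445349598691590147) (nat_lit 2)) (.cons (.rf (nat_lit 1333) (nat_lit 677582165103132179601393696)) (.cons (.br (nat_lit 8) (nat_lit 0) (.cons (.br (nat_lit 15) (nat_lit 0) (.cons (.ev (nat_lit 2668860946925890696812552101944099331) (nat_lit 2)) (.cons (.ev (nat_lit 87112285952121884412808281289626438664193)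 (nat_lit 1)) .nil))) (.cons (.rf (nat_lit 1333) (nat_lit 639598686507042519352917450)) (.cons (.br (nat_lit 11) (nat_lit 0) (.cons (.ev (nat_lit 10404955975019489021174232090017793) (nat_lit 2)) (.cons (.ev (nat_lit 340287559297334650537455584934988152833) (nat_lit 1)) (.cons (.ev (nat_lit 87112285931839784294148057242788985634816) (nat_lit 1)) .nil)))) (.cons (.ev (nat_lit 10405113814801831316396863932989441) (nat_lit 2)) .nil))))) .nil)))))),
 (.br (nat_lit 7) (nat_lit 0) (.cons (.ev (nat_lit 20362260367685546896926370299907) (nat_lit 2)) (.cons (.br (nat_lit 11) (nat_lit 0) (.cons (.ev (nat_lit 340282367000477324635718445186894856193) (nat_lit 1)) (.cons (.ev (nat_lit 2731169302136185753979155994070615555) (nat_lit 4)) .nil))) (.cons (.ev (nat_lit 340282387282577443277495467570895061248) (nat_lit 1)) (.cons (.br (nat_lit 11) (nat_lit 0) (.cons (.br (nat_lit 16) (nat_lit 0) (.cons (.ev (nat_lit 1363798328789757448042425653265768514563) (nat_lit 3)) .nil)) (.cons (.ev (nat_lit 340282387282577443295942492024381440000) (nat_lit 1)) (.cons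 (.ev (nat_lit 20362260367722440945833275949571) (nat_lit 2)) .nil)))) .nil))))),
 (.br (nat_lit 6) (nat_lit 0) (.cons (.br (nat_lit 11) (nat_lit 0) (.cons (.rf (nat_lit 1) (nat_lit 582139163974850)) (.cons (.br (nat_lit 16) (nat_lit 0) (.cons (.ev (nat_lit 340282367000477324635718445186894856193) (nat_lit 1)) (.cons (.ev (nat_lit 340287559297334650537455584934988152833) (nat_lit 1)) .nil))) (.cons (.rf (nat_lit 996) (nat_lit 20677048671683988425762)) .nil)))) (.cons (.br (nat_lit 15) (nat_lit 0) (.cons (.rf (nat_lit 1) (nat_lit 582139029761218)) (.cons (.ev (nat_lit 7975388812336420193667032259749872131) (nat_lit 3)) (.cons (.br (nat_lit 7) (nat_lit 0) (.cons (.br (nat_lit 16) (nat_lit 0) (.cons (.ev (nat_lit 1379811372142401153104272998335231953923) (nat_lit 4)) .nil)) (.cons (.ev (nat_lit 1045350120812208057758703200708506891714571) (nat_lit 4)) .nil))) .nil)))) (.cons (.rf (nat_lit 1332) (nat_lit 639598686507042519352917450)) (.cons (.rf (nat_lit 1335) (nat_lit 677582165103132179601393696)) (.cons (.br (nat_lit 7) (nat_lit 0) (.cons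 (.ev (nat_lit 20362260367685546896926370299907) (nat_lit 2)) (.cons (.rf (nat_lit 1335) (nat_lit 639598686507042519352917450)) (.cons (.br (nat_lit 11) (nat_lit 0) (.cons (.kr (nat_lit 10384594955014453802412284638658561) (nat_lit 2658476353208806837562554344290779136) (nat_lit 0) (nat_lit 1)) (.cons (.ev (nat_lit 340287559297334650537455584934988152833) (nat_lit 1)) (.cons (.ev (nat_lit 20362260367722440945833275949571) (nat_lit 2)) .nil)))) (.cons (.br (nat_lit 11) (nat_lit 0) (.cons (.kr (nat_lit 10384594955014453802412284638658561) (nat_lit 2658476353208806837562554344290779136) (nat_lit 0) (nat_lit 1)) (.cons (.ev (nat_lit 20362260367722440945833275949571) (nat_lit 2)) .nil))) .nil))))) .nil)))))),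
 (.br (nat_lit 15) (nat_lit 0) (.cons (.rf (nat_lit 1332) (nat_lit 639598686507042519352917450)) (.cons (.rf (nat_lit 1336) (nat_lit 639598686507042519352917450)) (.cons (.rf (nat_lit 1334) (nat_lit 639598686507042519352917450)) (.cons (.br (nat_lit 6) (nat_lit 0) (.cons (.br (nat_lit 8) (nat_lit 0) (.cons (.ev (nat_lit 20362260367722440948023742824961) (nat_lit 2)) (.cons (.rf (nat_lit 295) (nat_lit 20663070410971896292545)) .nil))) (.cons (.ev (nat_lit 2658476512284106608100402538490102273) (nat_lit 2)) (.cons (.br (nat_lit 7) (nat_lit 0) (.cons (.ev (nat_lit 1363787944514188569484300421789808722433) (nat_lit 3)) (.cons (.ev (nat_lit 10405113814801794423469458887672321) (nat_lit 2)) .nil))) (.cons (.br (nat_lit 7) (nat_lit 0) (.cons (.br (nat_lit 16) (nat_lit 0) (.cons (.ev (nat_lit 1363808713383472099882792862340354540033) (nat_lit 3)) .nil)) (.cons (.ev (nat_lit 10405113814801794423469458887672321) (nat_lit 2)) (.cons (.ev (nat_lit 87112285931839784294148057242788985634816) (nat_lit 1)) .nil)))) .nil))))) (.cons (.br (nat_lit 6)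 (nat_lit 0) (.cons (.br (nat_lit 8) (nat_lit 0) (.cons (.ev (nat_lit 20362260367722440948023742824961) (nat_lit 2)) (.cons (.ev (nat_lit 87113620352053199582352772269400232296448) (nat_lit 1)) .nil))) (.cons (.br (nat_lit 7) (nat_lit 0) (.cons (.rf (nat_lit 295) (nat_lit 20669796682348714472513)) (.cons (.ev (nat_lit 87113620352053199582352772269400232296448) (nat_lit 1)) .nil))) (.cons (.br (nat_lit 17) (nat_lit 0) (.cons (.ev (nat_lit 10405113814801794423469458887672321) (nat_lit 2)) (.cons (.rf (nat_lit 549) (nat_lit 20673151755327899117602)) (.cons (.ev (nat_lit 87112291144339824274835386567493396004865) (nat_lit 1)) .nil)))) (.cons (.br (nat_lit 7) (nat_lit 0) (.cons (.ev (nat_lit 87113620352053199582352772269400232296448) (nat_lit 1)) (.cons (.ev (nat_lit 10405113814801794423469458887672321) (nat_lit 2)) .nil))) .nil))))) .nil)))))),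
 (.br (nat_lit 11) (nat_lit 0) (.cons (.ev (nat_lit 20679173036742751210578041372677) (nat_lit 3)) (.cons (.br (nat_lit 8) (nat_lit 0) (.cons (.ev (nat_lit 340282367000477324635718445186894856193) (nat_lit 1)) (.cons (.rf (nat_lit 258) (nat_lit 20663070410971896292390)) .nil))) (.cons (.ev (nat_lit 10404955975019489021174232090017793) (nat_lit 2)) .nil)))),
 (.br (nat_lit 8) (nat_lit 0) (.cons (.br (nat_lit 11) (nat_lit 0) (.cons (.ev (nat_lit 340282367000477324635718445186894856193) (nat_lit 1)) (.cons (.br (nat_lit 16) (nat_lit 0) (.cons (.ev (nat_lit 2740899302561112053370272608822829125135) (nat_lit 4)) .nil)) .nil))) (.cons (.ev (nat_lit 2658476512284106608100402538490102273) (nat_lit 2)) (.cons (.br (nat_lit 7) (nat_lit 0) (.cons (.ev (nat_lit 341611594995952750776434706887588446208) (nat_lit 1)) (.cons (.br (nat_lit 11) (nat_lit 0) (.cons (.ev (nat_lit 1366467169216588043341321637949729670151) (nat_lit 3)) .nil)) .nil))) (.cons (.br (nat_lit 11) (nat_lit 0) (.cons (.rf (nat_lit 1320) (nat_lit 661206432534273460582890)) (.cons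 (.ev (nat_lit 1339612748267800325771144103656096257) (nat_lit 2)) (.cons (.br (nat_lit 7) (nat_lit 0) (.cons (.ev (nat_lit 1361129488362926890596249638114647343111) (nat_lit 3)) .nil)) .nil)))) .nil))))),
 (.br (nat_lit 11) (nat_lit 0) (.cons (.ev (nat_lit 20363503143539079993494987867137) (nat_lit 3)) (.cons (.ev (nat_lit 20362260367685546894735903424513) (nat_lit 2)) (.cons (.ev (nat_lit 87113615180038442375074365687238383108096) (nat_lit 1)) .nil)))),
 (.br (nat_lit 8) (nat_lit 0) (.cons (.br (nat_lit 11) (nat_lit 0) (.cons (.ev (nat_lit 1369125625367849722266267596465996170241) (nat_lit 3)) .nil)) (.cons (.ev (nat_lit 2668860946925890696812552101944099331) (nat_lit 2)) (.cons (.ev (nat_lit 87112285952121884412808281290721672101888) (nat_lit 1)) .nil))))]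

theorem c76 : chkAll C T R L76 (nat_lit 1325) = true := by decide +kernel

theorem l76 : (nat_lit 1325) + L76.length = (nat_lit 1342) := by decide +kernel

/-- part of the certificates -/
def L77 : List Prf := [(.br (nat_lit 15) (nat_lit 0) (.cons (.rf (nat_lit 1332) (nat_lit 639598686507042519352917450)) (.cons (.rf (nat_lit 1336) (nat_lit 639598686507042519352917450)) (.cons (.rf (nat_lit 1334) (nat_lit 639598686507042519352917450)) (.cons (.rf (nat_lit 1337) (nat_lit 639598686507042519352917450)) (.cons (.br (nat_lit 6) (nat_lit 0) (.cons (.br (nat_lit 8) (nat_lit 0) (.cons (.ev (nat_lit 20363503143539079993494987867137) (nat_lit 3)) (.cons (.ev (nat_lit 340287559217798207235341554229331427328) (nat_lit 1)) .nil))) (.cons (.br (nat_lit 7) (nat_lit 0) (.cons (.ev (nat_lit 5316932663550621310398911320575443969) (nat_lit 3)) (.cons (.ev (nat_lit 340287559217798207235341554229331427328) (nat_lit 1)) .nil))) (.cons (.br (nat_lit 7) (nat_lit 0) (.cons (.ev (nat_lit 1366446400029158739660587226372025352193) (nat_lit 3)) (.cons (.ev (nat_lit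 10405113814801794423469458887672321) (nat_lit 2)) .nil))) (.cons (.br (nat_lit 11) (nat_lit 0) (.cons (.ev (nat_lit 10405113814801794423469458887672321) (nat_lit 2)) (.cons (.ev (nat_lit 2668860946925890696812552101944099331) (nat_lit 2)) (.cons (.ev (nat_lit 1363787944514188569447407494401809056773) (nat_lit 3)) .nil)))) .nil))))) (.cons (.br (nat_lit 6) (nat_lit 0) (.cons (.rf (nat_lit 1340) (nat_lit 677582165103132179601393696)) (.cons (.rf (nat_lit 1340) (nat_lit 639598686507042519352917450)) (.cons (.br (nat_lit 16) (nat_lit 0) (.cons (.ev (nat_lit 20362260367685546894735903424513) (nat_lit 2)) (.cons (.ev (nat_lit 2668860946925890696812552101944099331) (nat_lit 2)) (.cons (.ev (nat_lit 176274251838294347462386107833802662479365) (nat_lit 3)) .nil)))) (.cons (.rf (nat_lit 1341) (nat_lit 677582165103132179601393696)) (.cons (.rf (nat_lit 1341) (nat_lit 639598686507042519352917450)) .nil)))))) .nil))))))),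
 (.br (nat_lit 11) (nat_lit 0) (.cons (.ev (nat_lit 20789866612011756833147356115632133) (nat_lit 3)) (.cons (.ev (nat_lit 340287559217798207216895092725798469888) (nat_lit 1)) (.cons (.ev (nat_lit 20362260367685546894735903424513) (nat_lit 2)) .nil)))),
 (.br (nat_lit 7) (nat_lit 0) (.cons (.br (nat_lit 11) (nat_lit 0) (.cons (.ev (nat_lit 1369104856180420418585533187078691618821) (nat_lit 3)) .nil)) (.cons (.ev (nat_lit 10405113814801794423469458887672321) (nat_lit 2)) (.cons (.ev (nat_lit 87112291144418744156543354749367504404737) (nat_lit 1)) .nil)))),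
 (.br (nat_lit 13) (nat_lit 0) (.cons (.br (nat_lit 1) (nat_lit 0) (.cons (.rf (nat_lit 1296) (nat_lit 583706118939841765935136)) (.cons (.rf (nat_lit 1298) (nat_lit 583706118939841765935136)) (.cons (.rf (nat_lit 1303) (nat_lit 583706118939841765935136)) (.cons (.rf (nat_lit 1307) (nat_lit 583706118939841765935136)) (.cons (.rf (nat_lit 1309) (nat_lit 583706118939841765935136)) (.cons (.br (nat_lit 6) (nat_lit 0) (.cons (.ev (nat_lit 20520097722694288766796489163267) (nat_lit 2)) (.cons (.rf (nat_lit 1311) (nat_lit 583706118939841765935136)) (.cons (.rf (nat_lit 1311) (nat_lit 76927930903685933350346)) (.cons (.br (nat_lit 2) (nat_lit 0) (.cons (.rf (nat_lit 1312) (nat_lit 583706118939841765935136)) (.cons (.rf (nat_lit 1313) (nat_lit 583706118939841765935136)) (.cons (.ev (nat_lit 8006542117506956461699632844345836037) (nat_lit 3)) (.cons (.br (nat_lit 15) (nat_lit 0) (.cons (.rf (nat_lit 1313) (nat_lit 76927930903685933350346)) (.cons (.rf (nat_lit 1312) (nat_lit 76927930903685933350346)) (.cons (.ev (nat_lit 1334481139872271100277141394732286722)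 (nat_lit 2)) (.cons (.br (nat_lit 7) (nat_lit 0) (.cons (.rf (nat_lit 1) (nat_lit 582165874552001)) (.cons (.ev (nat_lit 20362260367685546894735903424513) (nat_lit 2)) (.cons (.ev (nat_lit 2668861106001185708233981508594958851) (nat_lit 2)) .nil)))) .nil))))) .nil))))) (.cons (.ev (nat_lit 2668860946925890659918503195004895233) (nat_lit 2)) (.cons (.br (nat_lit 2) (nat_lit 0) (.cons (.rf (nat_lit 1314) (nat_lit 19926519232773908561233952)) (.cons (.rf (nat_lit 1315) (nat_lit 19926519232773908561233952)) (.cons (.rf (nat_lit 1316) (nat_lit 19926519232773908561233952)) (.cons (.br (nat_lit 7) (nat_lit 0) (.cons (.br (nat_lit 11) (nat_lit 0) (.cons (.ev (nat_lit 1329228154550740115391726988317360641) (nat_lit 2)) (.cons (.rf (nat_lit 1) (nat_lit 582028439796801)) .nil))) (.cons (.ev (nat_lit 2689630451279924137962927992244405765) (nat_lit 3)) (.cons (.ev (nat_lit 10405430727451851769056823464952837) (nat_lit 3)) (.cons (.br (nat_lit 8) (nat_lit 0) (.cons (.ev (nat_lit 2668861263845803790413483404127764997) (nat_lit 3)) (.cons (.ev (nat_lit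 20837010391751493080448093128197) (nat_lit 3)) (.cons (.kr (nat_lit 4722438540463683141888) (nat_lit 5192296858534846075274570055548928) (nat_lit 1) (nat_lit 0)) .nil)))) .nil))))) (.cons (.rf (nat_lit 1317) (nat_lit 19926519232773908561233952)) (.cons (.br (nat_lit 15) (nat_lit 0) (.cons (.rf (nat_lit 1315) (nat_lit 19419741044737752728649162)) (.cons (.rf (nat_lit 1314) (nat_lit 19419741044737752728649162)) (.cons (.rf (nat_lit 1316) (nat_lit 19419741044737752728649162)) (.cons (.rf (nat_lit 1317) (nat_lit 19419741044737752728649162)) (.cons (.br (nat_lit 11) (nat_lit 0) (.cons (.ev (nat_lit 1344805124048639398551855487103730435) (nat_lit 2)) (.cons (.ev (nat_lit 1334420530331579224777133193045410051) (nat_lit 2)) (.cons (.br (nat_lit 17) (nat_lit 0) (.cons (.ev (nat_lit 31174460329071856532660788717159943) (nat_lit 3)) (.cons (.ev (nat_lit 10405272894951508983216200600519175) (nat_lit 3)) (.cons (.ev (nat_lit 348449154132313876683338048734141224322563) (nat_lit 3)) .nil)))) (.cons (.ev (nat_lit 174225916729413160346903143236886658744578)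 (nat_lit 2)) .nil))))) .nil)))))) .nil))))))) .nil))))))) (.cons (.rf (nat_lit 1322) (nat_lit 583706118939841765935136)) (.cons (.br (nat_lit 14) (nat_lit 0) (.cons (.rf (nat_lit 1322) (nat_lit 76927930903685933350346)) (.cons (.rf (nat_lit 1298) (nat_lit 76927930903685933350346)) (.cons (.rf (nat_lit 1307) (nat_lit 76927930903685933350346)) (.cons (.rf (nat_lit 1303) (nat_lit 76927930903685933350346)) (.cons (.rf (nat_lit 1309) (nat_lit 76927930903685933350346)) (.cons (.rf (nat_lit 1296) (nat_lit 76927930903685933350346)) (.cons (.br (nat_lit 7) (nat_lit 0) (.cons (.rf (nat_lit 1323) (nat_lit 19926519232773908561233952)) (.cons (.rf (nat_lit 1324) (nat_lit 19926519232773908561233952)) (.cons (.kr (nat_lit 10404876126673343820973091640573953) (nat_lit 79229376162594551379951354368) (nat_lit 0) (nat_lit 2)) (.cons (.rf (nat_lit 1325) (nat_lit 19926519232773908561233952)) (.cons (.rf (nat_lit 1326) (nat_lit 19926519232773908561233952)) (.cons (.rf (nat_lit 1328) (nat_lit 19926519232773908561233952)) (.cons (.br (nat_lit 8) (nat_lit 0)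 (.cons (.rf (nat_lit 1326) (nat_lit 19419741044737752728649162)) (.cons (.rf (nat_lit 1324) (nat_lit 19419741044737752728649162)) (.cons (.rf (nat_lit 1325) (nat_lit 19419741044737752728649162)) (.cons (.rf (nat_lit 1323) (nat_lit 19419741044737752728649162)) (.cons (.rf (nat_lit 1328) (nat_lit 19419741044737752728649162)) (.cons (.br (nat_lit 2) (nat_lit 0) (.cons (.rf (nat_lit 1329) (nat_lit 677582165103132179601393696)) (.cons (.rf (nat_lit 1331) (nat_lit 677582165103132179601393696)) (.cons (.br (nat_lit 6) (nat_lit 0) (.cons (.ev (nat_lit 7975388336355738088521317838626095109) (nat_lit 3)) (.cons (.ev (nat_lit 1363787944353882597470426551494067486721) (nat_lit 3)) (.cons (.ev (nat_lit 348457119115377342324584119332384568115201) (nat_lit 3)) .nil)))) (.cons (.br (nat_lit 15) (nat_lit 0) (.cons (.rf (nat_lit 1329) (nat_lit 677075386915096023768808906)) (.cons (.rf (nat_lit 1331) (nat_lit 677075386915096023768808906)) (.cons (.br (nat_lit 6) (nat_lit 0) (.cons (.ev (nat_lit 2658476512284106644993327735955783683) (nat_lit 2)) .nil))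 .nil)))) (.cons (.br (nat_lit 6) (nat_lit 0) (.cons (.ev (nat_lit 20362260367685546894735903424513) (nat_lit 2)) (.cons (.ev (nat_lit 87113620352132118259857143203231501910273) (nat_lit 1)) (.cons (.ev (nat_lit 340287579579435973382829854266593706240) (nat_lit 1)) .nil)))) .nil)))))) .nil))))))) .nil)))))))) (.cons (.br (nat_lit 2) (nat_lit 0) (.cons (.rf (nat_lit 1332) (nat_lit 677582165103132179601393696)) (.cons (.rf (nat_lit 1334) (nat_lit 677582165103132179601393696)) (.cons (.rf (nat_lit 1336) (nat_lit 677582165103132179601393696)) (.cons (.rf (nat_lit 1337) (nat_lit 677582165103132179601393696)) (.cons (.br (nat_lit 6) (nat_lit 0) (.cons (.rf (nat_lit 1338) (nat_lit 677582165103132179601393696)) (.cons (.rf (nat_lit 1338) (nat_lit 639598686507042519352917450)) (.cons (.br (nat_lit 7) (nat_lit 0) (.cons (.rf (nat_lit 1) (nat_lit 582131513797826)) (.cons (.br (nat_lit 8) (nat_lit 0) (.cons (.ev (nat_lit 7975388336355738088521317838626095109) (nat_lit 3)) (.cons (.br (nat_lit 16) (nat_lit 0) (.cons (.ev (nat_lit 2619493722885791046698050284031660738479121)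 (nat_lit 5)) .nil)) .nil))) (.cons (.br (nat_lit 8) (nat_lit 0) (.cons (.br (nat_lit 16) (nat_lit 0) (.cons (.zr (nat_lit 1363787924229920846811135751309985188352) (nat_lit 31214630238139163784557992848916483) (nat_lit 16) (nat_lit 1)) .nil)) (.cons (.ev (nat_lit 7975388336355738088521317838626095109) (nat_lit 3)) .nil))) .nil)))) (.cons (.rf (nat_lit 1339) (nat_lit 677582165103132179601393696)) (.cons (.rf (nat_lit 1339) (nat_lit 639598686507042519352917450)) .nil)))))) (.cons (.rf (nat_lit 1342) (nat_lit 677582165103132179601393696)) (.cons (.br (nat_lit 15) (nat_lit 0) (.cons (.rf (nat_lit 1332) (nat_lit 639598686507042519352917450)) (.cons (.rf (nat_lit 1336) (nat_lit 639598686507042519352917450)) (.cons (.rf (nat_lit 1334) (nat_lit 639598686507042519352917450)) (.cons (.rf (nat_lit 1337) (nat_lit 639598686507042519352917450)) (.cons (.br (nat_lit 6) (nat_lit 0) (.cons (.rf (nat_lit 1343) (nat_lit 677582165103132179601393696)) (.cons (.rf (nat_lit 1343) (nat_lit 639598686507042519352917450)) (.cons (.br (nat_lit 16) (nat_lit 0) (.cons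 (.ev (nat_lit 10405113814801794423469458887672321) (nat_lit 2)) (.cons (.ev (nat_lit 2658476512284106644993327735955783683) (nat_lit 2)) (.cons (.ev (nat_lit 523356949185667197755794029473073425942017) (nat_lit 3)) .nil)))) (.cons (.rf (nat_lit 1344) (nat_lit 677582165103132179601393696)) (.cons (.rf (nat_lit 1344) (nat_lit 639598686507042519352917450)) .nil)))))) (.cons (.rf (nat_lit 1342) (nat_lit 639598686507042519352917450)) .nil))))))) .nil)))))))) .nil))))))))) .nil))))))))) .nil)),
 (.br (nat_lit 10) (nat_lit 0) (.cons (.rf (nat_lit 1112) (nat_lit 493713982412596480032)) (.cons (.br (nat_lit 10) (nat_lit 0) (.cons (.rf (nat_lit 1112) (nat_lit 493713982412596480032)) (.cons (.br (nat_lit 11) (nat_lit 1) (.cons (.br (nat_lit 14) (nat_lit 1) (.cons (.br (nat_lit 13) (nat_lit 0) (.cons (.rf (nat_lit 1087) (nat_lit 281736953290)) .nil)) .nil)) (.cons (.br (nat_lit 12) (nat_lit 0) (.cons (.rf (nat_lit 1345) (nat_lit 583706118939841765935136)) (.cons (.rf (nat_lit 1345) (nat_lit 547107778697602015528992)) .nil))) .nil))) .nil))) .nil))),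
 (.br (nat_lit 11) (nat_lit 0) (.cons (.kr (nat_lit 2668840664515063915329013810586451969) (nat_lit 20283029787319643326771596624384) (nat_lit 0) (nat_lit 2)) (.cons (.ev (nat_lit 20362260377167173911563976310787) (nat_lit 2)) (.cons (.br (nat_lit 14) (nat_lit 0) (.cons (.ev (nat_lit 10405113814801831316396863966543875) (nat_lit 2)) (.cons (.rf (nat_lit 160) (nat_lit 646034663109998024931)) .nil))) .nil)))),
 (.br (nat_lit 7) (nat_lit 0) (.cons (.br (nat_lit 14) (nat_lit 0) (.cons (.kr (nat_lit 10384594336039711793239277527105537) (nat_lit 20361638979814120860143438528512) (nat_lit 0) (nat_lit 1)) (.cons (.br (nat_lit 15) (nat_lit 0) (.cons (.ev (nat_lit 2668860946925881215185537464304534017) (nat_lit 2)) (.cons (.rf (nat_lit 1) (nat_lit 582169107964097)) .nil))) .nil))) (.cons (.br (nat_lit 11) (nat_lit 0) (.cons (.kr (nat_lit 10384594336039711793239277527105537) (nat_lit 20361638979814120860143438528512) (nat_lit 0) (nat_lit 1)) (.cons (.br (nat_lit 15) (nat_lit 0) (.cons (.ev (nat_lit 2658476512284106608100402538490102273) (nat_lit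 2)) (.cons (.rf (nat_lit 1) (nat_lit 582172326043841)) .nil))) .nil))) (.cons (.br (nat_lit 11) (nat_lit 0) (.cons (.ev (nat_lit 31174460324236190147129677096943617) (nat_lit 3)) (.cons (.br (nat_lit 14) (nat_lit 0) (.cons (.kr (nat_lit 2668860867696505052735100164293787649) (nat_lit 79848346182237240417889288704) (nat_lit 0) (nat_lit 2)) (.cons (.rf (nat_lit 1) (nat_lit 582139040047297)) .nil))) .nil))) (.cons (.br (nat_lit 16) (nat_lit 0) (.cons (.ev (nat_lit 20362260377167173911563976310787) (nat_lit 2)) (.cons (.ev (nat_lit 10405113814801831316396863966543875) (nat_lit 2)) (.cons (.rf (nat_lit 1347) (nat_lit 19926519232773908561233952)) (.cons (.br (nat_lit 16) (nat_lit 0) (.cons (.ev (nat_lit 20362260377167173911563976310787) (nat_lit 2)) (.cons (.ev (nat_lit 10405113814801831316396863966543875) (nat_lit 2)) (.cons (.rf (nat_lit 1347) (nat_lit 19926519232773908561233952)) .nil)))) .nil))))) .nil))))),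
 (.br (nat_lit 7) (nat_lit 0) (.cons (.br (nat_lit 14) (nat_lit 0) (.cons (.kr (nat_lit 10384594336039711793239277527105537) (nat_lit 20361638979814120860143438528512) (nat_lit 0) (nat_lit 1)) (.cons (.br (nat_lit 15) (nat_lit 0) (.cons (.ev (nat_lit 2668860946925881215185537464304534017) (nat_lit 2)) (.cons (.rf (nat_lit 1) (nat_lit 582165886741697)) .nil))) .nil))) (.cons (.kr (nat_lit 5192297168019837449875565054001153) (nat_lit 79228162514264619068520726528) (nat_lit 0) (nat_lit 1)) (.cons (.ev (nat_lit 2658476512284106608100404746136846851) (nat_lit 2)) (.cons (.br (nat_lit 8) (nat_lit 0) (.cons (.ev (nat_lit 10404955977437340660405689496109571) (nat_lit 2)) (.cons (.kr (nat_lit 79848341496620130507587321857) (nat_lit 2658476273979440119844522041280561152) (nat_lit 0) (nat_lit 1)) (.cons (.br (nat_lit 14) (nat_lit 0) (.cons (.ev (nat_lit 2668861106003594152034298332639657985) (nat_lit 2)) (.cons (.ev (nat_lit 340282387203658765773124531540602191873) (nat_lit 1)) (.cons (.br (nat_lit 15) (nat_lit 0) (.cons (.ev (nat_lit 340282366920939672407641248713452552448)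 (nat_lit 1)) (.cons (.ev (nat_lit 2668860946925881215185537464304534017) (nat_lit 2)) .nil))) .nil)))) (.cons (.br (nat_lit 14) (nat_lit 0) (.cons (.rf (nat_lit 1) (nat_lit 581933112306881)) (.cons (.br (nat_lit 15) (nat_lit 0) (.cons (.ev (nat_lit 2668860946925881215185537464304534017) (nat_lit 2)) (.cons (.rf (nat_lit 246) (nat_lit 19533015762147014358369)) .nil))) (.cons (.br (nat_lit 17) (nat_lit 0) (.cons (.ev (nat_lit 2668860946925881215185537464304534017) (nat_lit 2)) (.cons (.ev (nat_lit 87112291144418744161265721231137621147648) (nat_lit 1)) .nil))) .nil)))) .nil))))) .nil))))),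
 (.br (nat_lit 7) (nat_lit 0) (.cons (.kr (nat_lit 79229376162450436196187242497) (nat_lit 20282409603688564475044623941632) (nat_lit 0) (nat_lit 1)) (.cons (.rf (nat_lit 1348) (nat_lit 583591875111012684366912)) (.cons (.br (nat_lit 8) (nat_lit 0) (.cons (.kr (nat_lit 309494454626368402053136640) (nat_lit 1334420292643450718979363105295892480) (nat_lit 1) (nat_lit 0)) (.cons (.br (nat_lit 11) (nat_lit 0) (.cons (.ev (nat_lit 20362257949870801716566336471043) (nat_lit 2)) (.cons (.rf (nat_lit 1) (nat_lit 582035957692609)) .nil))) .nil))) (.cons (.br (nat_lit 8) (nat_lit 0) (.cons (.br (nat_lit 15) (nat_lit 0) (.cons (.ev (nat_lit 2658476353208821041699043338784735233) (nat_lit 2)) (.cons (.rf (nat_lit 1) (nat_lit 582169134184641)) .nil))) (.cons (.br (nat_lit 11) (nat_lit 0) (.cons (.ev (nat_lit 20362257949870801716566336471043) (nat_lit 2)) (.cons (.rf (nat_lit 1) (nat_lit 582035990198465)) .nil))) (.cons (.ev (nat_lit 10405113814801831316396863966543875) (nat_lit 2)) (.cons (.br (nat_lit 11) (nat_lit 0) (.cons (.kr (nat_lit 5192297168019837449875565054001153)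 (nat_lit 20282409603651670705422228062208) (nat_lit 0) (nat_lit 1)) (.cons (.br (nat_lit 15) (nat_lit 0) (.cons (.ev (nat_lit 341616807575530374265554724924933865472) (nat_lit 1)) (.cons (.rf (nat_lit 425) (nat_lit 20673517919944864545025)) .nil))) (.cons (.br (nat_lit 15) (nat_lit 0) (.cons (.rf (nat_lit 295) (nat_lit 19517886331279233233096)) (.cons (.ev (nat_lit 87113615159756341047525071398735376875776) (nat_lit 1)) .nil))) .nil)))) .nil))))) .nil))))),
 (.br (nat_lit 7) (nat_lit 0) (.cons (.ev (nat_lit 2658476353208821041699045546431479811) (nat_lit 2)) (.cons (.rf (nat_lit 1348) (nat_lit 583591875111012684366912)) (.cons (.rf (nat_lit 1350) (nat_lit 583591875111012684366912)) (.cons (.br (nat_lit 11) (nat_lit 0) (.cons (.kr (nat_lit 20282410817299856522549894578177) (nat_lit 79228162551158388690916605952) (nat_lit 0) (nat_lit 1)) (.cons (.ev (nat_lit 10404955975028933754142170437124611) (nat_lit 2)) (.cons (.br (nat_lit 8) (nat_lit 0) (.cons (.ev (nat_lit 20362257949870801716566336471043) (nat_lit 2)) (.cons (.ev (nat_lit 340282387282576234370122877390894924033)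 (nat_lit 1)) (.cons (.br (nat_lit 14) (nat_lit 0) (.cons (.ev (nat_lit 1366456785098856491384528865816866062849) (nat_lit 3)) (.cons (.kr (nat_lit 2668840585288110326884290846217207809) (nat_lit 20361637770925195295507813105664) (nat_lit 0) (nat_lit 1)) .nil))) .nil)))) (.cons (.br (nat_lit 8) (nat_lit 0) (.cons (.rf (nat_lit 1) (nat_lit 582034916457665)) (.cons (.br (nat_lit 14) (nat_lit 0) (.cons (.kr (nat_lit 2668840585288110326884290846217207809) (nat_lit 20361637770925195295507813105664) (nat_lit 0) (nat_lit 1)) (.cons (.rf (nat_lit 160) (nat_lit 646034655653934799075)) .nil))) (.cons (.br (nat_lit 14) (nat_lit 0) (.cons (.br (nat_lit 16) (nat_lit 0) (.cons (.ev (nat_lit 1361160641986243152849648863288291099141) (nat_lit 3)) .nil)) (.cons (.kr (nat_lit 2668840585288110326884290846217207809) (nat_lit 20361637770925195295507813105664) (nat_lit 0) (nat_lit 1)) .nil))) .nil)))) .nil))))) .nil)))))]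

theorem c77 : chkAll C T R L77 (nat_lit 1342) = true := by decide +kernel

theorem l77 : (nat_lit 1342) + L77.length = (nat_lit 1352) := by decide +kernel

/-- part of the certificates -/
def L78 : List Prf := [(.br (nat_lit 11) (nat_lit 0) (.cons (.ev (nat_lit 20362257949870801716566336471043) (nat_lit 2)) (.cons (.ev (nat_lit 340287559297334650555902047533720994048) (nat_lit 1)) (.cons (.br (nat_lit 15) (nat_lit 0) (.cons (.kr (nat_lit 2668840585286906123431159086687715329) (nat_lit 20361638975128648427267342598144) (nat_lit 0) (nat_lit 1)) (.cons (.br (nat_lit 16) (nat_lit 0) (.cons (.ev (nat_lit 1369125625367849731674106511082144138243) (nat_lit 3)) .nil)) .nil))) .nil)))),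
 (.br (nat_lit 11) (nat_lit 0) (.cons (.ev (nat_lit 20362257949870801716566336471043) (nat_lit 2)) (.cons (.ev (nat_lit 2658476512284106608100402538490102273) (nat_lit 2)) (.cons (.br (nat_lit 14) (nat_lit 0) (.cons (.ev (nat_lit 340287579579435978105196337140550598657) (nat_lit 1)) (.cons (.rf (nat_lit 425) (nat_lit 19533243371769407112392)) .nil))) .nil)))),
 (.br (nat_lit 11) (nat_lit 0) (.cons (.ev (nat_lit 340287559297334650555902047533720994048) (nat_lit 1)) (.cons (.ev (nat_lit 2658476353208821041699043338784735233) (nat_lit 2)) (.cons (.br (nat_lit 14) (nat_lit 0) (.cons (.ev (nat_lit 1366456784780705920251151938464965068289) (nat_lit 3)) (.cons (.br (nat_lit 15) (nat_lit 0) (.cons (.ev (nat_lit 2668860946925881215185537464304534017) (nat_lit 2)) .nil)) .nil))) .nil)))),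
 (.br (nat_lit 15) (nat_lit 0) (.cons (.rf (nat_lit 1) (nat_lit 581898650859777)) (.cons (.kr (nat_lit 2668840585286906123431159086687715329) (nat_lit 20361638975128648427267342598144) (nat_lit 0) (nat_lit 1)) (.cons (.br (nat_lit 11) (nat_lit 0) (.cons (.rf (nat_lit 160) (nat_lit 610294096466917046508)) (.cons (.ev (nat_lit 348457139885040762010111330600872778661891) (nat_lit 3)) .nil))) .nil)))),
 (.br (nat_lit 11) (nat_lit 0) (.cons (.rf (nat_lit 1) (nat_lit 581897577118977)) (.cons (.ev (nat_lit 2658476512284106608100402538490102273) (nat_lit 2)) (.cons (.br (nat_lit 14) (nat_lit 0) (.cons (.rf (nat_lit 456) (nat_lit 20676941781560532771169)) (.cons (.ev (nat_lit 87113620352053200791260144857381209178113) (nat_lit 1)) .nil))) .nil)))),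
 (.br (nat_lit 11) (nat_lit 0) (.cons (.rf (nat_lit 1355) (nat_lit 640105350451249846103934016)) (.cons (.rf (nat_lit 1356) (nat_lit 640105350451249846103934016)) (.cons (.br (nat_lit 14) (nat_lit 0) (.cons (.ev (nat_lit 1369125625367854548487919042535555597319) (nat_lit 3)) (.cons (.br (nat_lit 15) (nat_lit 0) (.cons (.ev (nat_lit 2668860946925881215185537464304534017) (nat_lit 2)) .nil)) .nil))) (.cons (.br (nat_lit 14) (nat_lit 0) (.cons (.ev (nat_lit 1344805045126339857536149136594764035) (nat_lit 2)) (.cons (.rf (nat_lit 502) (nat_lit 19533243648990540570667)) (.cons (.rf (nat_lit 502) (nat_lit 20676830316407925353512)) .nil)))) .nil))))),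
 (.br (nat_lit 15) (nat_lit 0) (.cons (.ev (nat_lit 1329228075014292053801267701347319808) (nat_lit 1)) .nil)),
 (.br (nat_lit 15) (nat_lit 0) (.cons (.ev (nat_lit 341611615199132987710387661481766289408) (nat_lit 1)) (.cons (.ev (nat_lit 341616807575529170062101592061597777920) (nat_lit 1)) .nil))),
 (.br (nat_lit 15) (nat_lit 0) (.cons (.ev (nat_lit 340282367000167834921977643896739463168) (nat_lit 1)) .nil)),
 (.br (nat_lit 14) (nat_lit 0) (.cons (.ev (nat_lit 340282367000167834921977643896739463168) (nat_lit 1)) .nil)),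
 (.br (nat_lit 2) (nat_lit 0) (.cons (.br (nat_lit 14) (nat_lit 0) (.cons (.kr (nat_lit 79229376162450436196187242497) (nat_lit 20282409603688564475044623941632) (nat_lit 0) (nat_lit 1)) (.cons (.kr (nat_lit 20361637770888301245514263822337) (nat_lit 620178945606419954700124672) (nat_lit 0) (nat_lit 2)) (.cons (.ev (nat_lit 2679245857555619817399919139033842177) (nat_lit 3)) (.cons (.br (nat_lit 16) (nat_lit 0) (.cons (.ev (nat_lit 10405113814801831316396863932989441) (nat_lit 2)) (.cons (.ev (nat_lit 10404955977437340660403481882919427) (nat_lit 2)) (.cons (.ev (nat_lit 2668860946925881215185537464270979587) (nat_lit 2)) (.cons (.br (nat_lit 16) (nat_lit 0) (.cons (.ev (nat_lit 10405113814801831316396863932989441) (nat_lit 2)) (.cons (.ev (nat_lit 10404955977437340660403481882919427) (nat_lit 2)) (.cons (.ev (nat_lit 2668860946925881215185537464270979587) (nat_lit 2)) .nil)))) .nil))))) .nil))))) (.cons (.ev (nat_lit 20520097722694288766796489163267) (nat_lit 2)) (.cons (.br (nat_lit 7) (nat_lit 0) (.cons (.ev (nat_lit 20362260377167173911564009865217)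 (nat_lit 2)) (.cons (.kr (nat_lit 5192297477504847343278227816710400) (nat_lit 158456325028528957761576304640) (nat_lit 1) (nat_lit 0)) (.cons (.ev (nat_lit 2658476353211238856445349598725144577) (nat_lit 2)) (.cons (.br (nat_lit 8) (nat_lit 0) (.cons (.ev (nat_lit 10404955977446822286296617662415361) (nat_lit 2)) (.cons (.kr (nat_lit 1329227995784915872903808159791972352) (nat_lit 309485028268089142434332672) (nat_lit 5) (nat_lit 0)) (.cons (.br (nat_lit 14) (nat_lit 0) (.cons (.ev (nat_lit 2668860946928308511557730254331183617) (nat_lit 2)) (.cons (.ev (nat_lit 340282366920938468204188115850116464896) (nat_lit 1)) (.cons (.br (nat_lit 15) (nat_lit 0) (.cons (.ev (nat_lit 340282387203657552124938435145588867073) (nat_lit 1)) (.cons (.ev (nat_lit 2668861106001185745128032605967482881) (nat_lit 2)) .nil))) .nil)))) (.cons (.br (nat_lit 14) (nat_lit 0) (.cons (.ev (nat_lit 2668860946928308511557730254331183617) (nat_lit 2)) (.cons (.br (nat_lit 15) (nat_lit 0) (.cons (.ev (nat_lit 341611615278671839437854417210014957825) (nat_lit 1)) (.cons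 (.ev (nat_lit 2668861106001185745128032605967482881) (nat_lit 2)) .nil))) (.cons (.br (nat_lit 15) (nat_lit 0) (.cons (.ev (nat_lit 2668861106001185745128032605967482881) (nat_lit 2)) (.cons (.ev (nat_lit 87112291124136644042623800095764585120000) (nat_lit 1)) .nil))) .nil)))) .nil))))) .nil))))) (.cons (.br (nat_lit 7) (nat_lit 0) (.cons (.kr (nat_lit 79229371440156010916268212480) (nat_lit 5212579268138497745698521601802240) (nat_lit 1) (nat_lit 0)) (.cons (.ev (nat_lit 20362260367685546896926370299907) (nat_lit 2)) (.cons (.ev (nat_lit 2658476353211238856445349598725144577) (nat_lit 2)) (.cons (.br (nat_lit 8) (nat_lit 0) (.cons (.ev (nat_lit 10404955977446822286296617662415361) (nat_lit 2)) (.cons (.ev (nat_lit 2668860946928299103718817811436405251) (nat_lit 2)) (.cons (.br (nat_lit 11) (nat_lit 0) (.cons (.kr (nat_lit 20361638979814120860139126784001) (nat_lit 2668840585286901401064675117530873856) (nat_lit 0) (nat_lit 1)) (.cons (.ev (nat_lit 340287559297334645815089102069637841153) (nat_lit 1)) (.cons (.br (nat_lit 15) (nat_lit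 0) (.cons (.ev (nat_lit 341616807495992726741396984664332239105) (nat_lit 1)) (.cons (.ev (nat_lit 2668861106001185745128032605967482881) (nat_lit 2)) .nil))) .nil)))) (.cons (.br (nat_lit 11) (nat_lit 0) (.cons (.kr (nat_lit 20361638979814120860139126784001) (nat_lit 2668840585286901401064675117530873856) (nat_lit 0) (nat_lit 1)) (.cons (.br (nat_lit 15) (nat_lit 0) (.cons (.ev (nat_lit 340287579579434764457010238537924083713) (nat_lit 1)) (.cons (.ev (nat_lit 2668861106001185745128032605967482881) (nat_lit 2)) .nil))) (.cons (.br (nat_lit 15) (nat_lit 0) (.cons (.ev (nat_lit 2668861106001185745128032605967482881) (nat_lit 2)) (.cons (.ev (nat_lit 87112285931760247855568166143814329696513) (nat_lit 1)) .nil))) .nil)))) .nil))))) .nil))))) (.cons (.br (nat_lit 11) (nat_lit 0) (.cons (.ev (nat_lit 2658476354454033488763352444112863747) (nat_lit 3)) (.cons (.kr (nat_lit 20282410817299856522549894578177) (nat_lit 79228162551158388690916605952) (nat_lit 0) (nat_lit 1)) (.cons (.kr (nat_lit 20361638979814120860139126784001) (nat_lit 2668840585286901401064675117530873856)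 (nat_lit 0) (nat_lit 1)) (.cons (.br (nat_lit 16) (nat_lit 0) (.cons (.ev (nat_lit 20362257959278640631216844439553) (nat_lit 2)) (.cons (.ev (nat_lit 2658476512286524496632557002895262211) (nat_lit 2)) (.cons (.ev (nat_lit 10404955977437340660403481882919427) (nat_lit 2)) (.cons (.br (nat_lit 16) (nat_lit 0) (.cons (.ev (nat_lit 20362257959278640631216844439553) (nat_lit 2)) (.cons (.ev (nat_lit 2658476512286524496632557002895262211) (nat_lit 2)) (.cons (.ev (nat_lit 10404955977437340660403481882919427) (nat_lit 2)) .nil)))) .nil))))) .nil))))) (.cons (.br (nat_lit 7) (nat_lit 0) (.cons (.br (nat_lit 15) (nat_lit 0) (.cons (.kr (nat_lit 309485009893402662762709248) (nat_lit 20282409603651670423951563030528) (nat_lit 1) (nat_lit 0)) (.cons (.ev (nat_lit 10405113812383942784242399561383937) (nat_lit 2)) (.cons (.br (nat_lit 11) (nat_lit 0) (.cons (.ev (nat_lit 2668861106001176263501017968327917571) (nat_lit 2)) (.cons (.ev (nat_lit 341611615199134191913840792137505964033) (nat_lit 1)) (.cons (.br (nat_lit 14) (nat_lit 0) (.cons (.ev (nat_lit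 340282366920939677111560704934883164416) (nat_lit 1)) (.cons (.ev (nat_lit 10404955977437340660403481882919427) (nat_lit 2)) .nil))) .nil)))) (.cons (.br (nat_lit 11) (nat_lit 0) (.cons (.rf (nat_lit 1) (nat_lit 582172450955489)) (.cons (.br (nat_lit 14) (nat_lit 0) (.cons (.ev (nat_lit 10404955977437340660403481882919427) (nat_lit 2)) (.cons (.rf (nat_lit 997) (nat_lit 19998315255348366475802819)) .nil))) (.cons (.br (nat_lit 14) (nat_lit 0) (.cons (.rf (nat_lit 452) (nat_lit 661663245031468038590726)) (.cons (.ev (nat_lit 10404955977437340660403481882919427) (nat_lit 2)) .nil))) .nil)))) .nil))))) (.cons (.br (nat_lit 15) (nat_lit 0) (.cons (.ev (nat_lit 2658476512284106608100402538523656707) (nat_lit 2)) (.cons (.ev (nat_lit 2658476353208811560073152410618429443) (nat_lit 2)) (.cons (.br (nat_lit 8) (nat_lit 0) (.cons (.kr (nat_lit 2668840585286906123431159086687715329) (nat_lit 20361638975128648427267342598144) (nat_lit 0) (nat_lit 1)) (.cons (.ev (nat_lit 341611615199134191913840792137505964033) (nat_lit 1)) (.cons (.br (nat_lit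 14) (nat_lit 0) (.cons (.ev (nat_lit 340282366920939677111560704934883164416) (nat_lit 1)) (.cons (.ev (nat_lit 31174302491735774149647611723776515) (nat_lit 3)) .nil))) .nil)))) (.cons (.br (nat_lit 8) (nat_lit 0) (.cons (.rf (nat_lit 1) (nat_lit 582172350295265)) (.cons (.br (nat_lit 14) (nat_lit 0) (.cons (.ev (nat_lit 31174302491735774149647611723776515) (nat_lit 3)) (.cons (.br (nat_lit 16) (nat_lit 0) (.cons (.ev (nat_lit 2622226553339148344604204826394722516866071) (nat_lit 5)) .nil)) .nil))) (.cons (.br (nat_lit 14) (nat_lit 0) (.cons (.br (nat_lit 16) (nat_lit 0) (.cons (.zr (nat_lit 1361139994257433022817531926721459126789) (nat_lit 7975368846220491820151862672547512320) (nat_lit 16) (nat_lit 11)) .nil)) (.cons (.ev (nat_lit 31174302491735774149647611723776515) (nat_lit 3)) .nil))) .nil)))) .nil))))) (.cons (.br (nat_lit 15) (nat_lit 0) (.cons (.kr (nat_lit 79229371440083952222718656512) (nat_lit 1334420292643450700532337556609564672) (nat_lit 10) (nat_lit 0)) (.cons (.ev (nat_lit 2658476353208811560073152410618429443) (nat_lit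 2)) (.cons (.ev (nat_lit 2668860946925881215185537464270979587) (nat_lit 2)) (.cons (.br (nat_lit 8) (nat_lit 0) (.cons (.rf (nat_lit 1) (nat_lit 582169129072865)) (.cons (.br (nat_lit 11) (nat_lit 0) (.cons (.ev (nat_lit 340287579500517300600681287017398534400) (nat_lit 1)) (.cons (.rf (nat_lit 1358) (nat_lit 21174442659472880612509728)) .nil))) (.cons (.br (nat_lit 11) (nat_lit 0) (.cons (.rf (nat_lit 555) (nat_lit 21174406878373839005385792)) (.cons (.ev (nat_lit 87112285931760247855568166143814329696513) (nat_lit 1)) .nil))) .nil)))) .nil))))) (.cons (.ev (nat_lit 2658476353211238856445349598725144577) (nat_lit 2)) (.cons (.br (nat_lit 11) (nat_lit 0) (.cons (.kr (nat_lit 620183667972903923856966145) (nat_lit 20361637766202828812642479636480) (nat_lit 0) (nat_lit 14)) (.cons (.br (nat_lit 8) (nat_lit 0) (.cons (.ev (nat_lit 2668861106001176263501017968327917571) (nat_lit 2)) (.cons (.ev (nat_lit 10405115057596463346164952302093827) (nat_lit 3)) (.cons (.br (nat_lit 15) (nat_lit 0) (.cons (.ev (nat_lit 340287579579434764457010238537924083713)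 (nat_lit 1)) (.cons (.ev (nat_lit 7975388496661738510381063863179411459) (nat_lit 3)) .nil))) .nil)))) (.cons (.ev (nat_lit 20362257959278640631216844439553) (nat_lit 2)) (.cons (.ev (nat_lit 340282366920938463463374608531296682241) (nat_lit 1)) (.cons (.br (nat_lit 14) (nat_lit 0) (.cons (.br (nat_lit 15) (nat_lit 0) (.cons (.kr (nat_lit 2668840585286906123431159086687715329) (nat_lit 20361638975128648427267342598144) (nat_lit 0) (nat_lit 1)) (.cons (.br (nat_lit 16) (nat_lit 0) (.cons (.ev (nat_lit 1369125625367849712858426430015674778631) (nat_lit 3)) .nil)) .nil))) (.cons (.br (nat_lit 8) (nat_lit 0) (.cons (.ev (nat_lit 341616807495992726741396984664332239105) (nat_lit 1)) (.cons (.ev (nat_lit 7975388496661738510381063863179411459) (nat_lit 3)) .nil))) (.cons (.rf (nat_lit 1359) (nat_lit 677582165103132179601393696)) (.cons (.ev (nat_lit 10404955977437340660403481882919427) (nat_lit 2)) .nil))))) .nil)))))) (.cons (.br (nat_lit 8) (nat_lit 0) (.cons (.br (nat_lit 14) (nat_lit 0) (.cons (.rf (nat_lit 1) (nat_lit 581898747456769))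 (.cons (.rf (nat_lit 1319) (nat_lit 677242154715274859274930208)) (.cons (.br (nat_lit 15) (nat_lit 0) (.cons (.br (nat_lit 16) (nat_lit 0) (.cons (.ev (nat_lit 1361160641986240753998155469199916663299) (nat_lit 3)) .nil)) (.cons (.ev (nat_lit 348454471044456096477618440178478612480519) (nat_lit 3)) .nil))) .nil)))) (.cons (.br (nat_lit 15) (nat_lit 0) (.cons (.rf (nat_lit 1) (nat_lit 581898646796545)) (.cons (.kr (nat_lit 2668840585286906123431159086687715329) (nat_lit 20361638975128648427267342598144) (nat_lit 0) (nat_lit 1)) (.cons (.br (nat_lit 11) (nat_lit 0) (.cons (.rf (nat_lit 997) (nat_lit 19998573509765398409518275)) (.cons (.ev (nat_lit 348457139885040761991148078819016446050311) (nat_lit 3)) .nil))) .nil)))) (.cons (.br (nat_lit 11) (nat_lit 0) (.cons (.rf (nat_lit 1) (nat_lit 581897573055745)) (.cons (.br (nat_lit 14) (nat_lit 0) (.cons (.ev (nat_lit 10404955977437340660403481882919427) (nat_lit 2)) (.cons (.rf (nat_lit 1249) (nat_lit 639947115640395432501189827)) .nil))) (.cons (.br (nat_lit 14) (nat_lit 0) (.cons (.rf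 (nat_lit 160) (nat_lit 646049531554243680713)) (.cons (.ev (nat_lit 10404955977437340660403481882919427) (nat_lit 2)) .nil))) .nil)))) (.cons (.br (nat_lit 11) (nat_lit 0) (.cons (.br (nat_lit 15) (nat_lit 0) (.cons (.ev (nat_lit 2679245699723109992984805455910142979) (nat_lit 3)) (.cons (.kr (nat_lit 310693935713017291937415424) (nat_lit 1334420292643450700532337560921309184) (nat_lit 1) (nat_lit 0)) .nil))) (.cons (.br (nat_lit 14) (nat_lit 0) (.cons (.ev (nat_lit 340287579500516086952495188423345176833) (nat_lit 1)) (.cons (.rf (nat_lit 1360) (nat_lit 21174442659472880612543553)) .nil))) (.cons (.br (nat_lit 14) (nat_lit 0) (.cons (.ev (nat_lit 7996157684100694634420608393256371207) (nat_lit 3)) (.cons (.rf (nat_lit 1361) (nat_lit 21174442659472880612543553)) .nil))) (.cons (.br (nat_lit 14) (nat_lit 0) (.cons (.br (nat_lit 16) (nat_lit 0) (.cons (.ev (nat_lit 2614081127256460463702177751951289804919837) (nat_lit 5)) .nil)) (.cons (.ev (nat_lit 340282367000476110987532348791881531393) (nat_lit 1)) (.cons (.ev (nat_lit 10404955977437340660403481882919427)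 (nat_lit 2)) .nil)))) .nil))))) (.cons (.br (nat_lit 14) (nat_lit 0) (.cons (.br (nat_lit 15) (nat_lit 0) (.cons (.ev (nat_lit 5348086284388623523199906746181353987) (nat_lit 3)) (.cons (.ev (nat_lit 348449174901659148177694487003072171083271) (nat_lit 3)) .nil))) (.cons (.br (nat_lit 11) (nat_lit 0) (.cons (.br (nat_lit 16) (nat_lit 0) (.cons (.zr (nat_lit 1363839846644528027543959941474202681349) (nat_lit 60926467853802086178810493273600) (nat_lit 16) (nat_lit 14)) .nil)) (.cons (.ev (nat_lit 7996157684100694634420608393256371207) (nat_lit 3)) .nil))) (.cons (.br (nat_lit 16) (nat_lit 0) (.cons (.ev (nat_lit 10404955977437340660403481882919427) (nat_lit 2)) (.cons (.ev (nat_lit 340282366920939677111560704934883164416) (nat_lit 1)) (.cons (.ev (nat_lit 340287559217796998291075476997128847361) (nat_lit 1)) .nil)))) (.cons (.ev (nat_lit 87112285931760246651364713010951010386176) (nat_lit 1)) .nil))))) .nil)))))) .nil))))))) .nil))))))),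
 (.br (nat_lit 15) (nat_lit 0) (.cons (.ev (nat_lit 1329268719990112196951315852399018497) (nat_lit 2)) (.cons (.rf (nat_lit 1) (nat_lit 582172359759937)) .nil))),
 (.br (nat_lit 11) (nat_lit 0) (.cons (.ev (nat_lit 20521335691178743427974708723717) (nat_lit 3)) (.cons (.rf (nat_lit 1363) (nat_lit 19926519232773908561233952)) .nil))),
 (.br (nat_lit 2) (nat_lit 0) (.cons (.br (nat_lit 14) (nat_lit 0) (.cons (.rf (nat_lit 1364) (nat_lit 583706118939841765935136)) (.cons (.rf (nat_lit 1364) (nat_lit 583591875111012684366912)) (.cons (.ev (nat_lit 2679245857555619817399919139033842177) (nat_lit 3)) (.cons (.br (nat_lit 16) (nat_lit 0) (.cons (.ev (nat_lit 10405113814801831316396863966543875) (nat_lit 2)) (.cons (.ev (nat_lit 10404955977437340660403481849364993) (nat_lit 2)) (.cons (.ev (nat_lit 2668860946925881215185537464270979587) (nat_lit 2)) (.cons (.br (nat_lit 16) (nat_lit 0) (.cons (.ev (nat_lit 10405113814801831316396863966543875) (nat_lit 2)) (.cons (.ev (nat_lit 10404955977437340660403481849364993) (nat_lit 2)) (.cons (.ev (nat_lit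 2668860946925881215185537464270979587) (nat_lit 2)) .nil)))) .nil))))) .nil))))) (.cons (.br (nat_lit 6) (nat_lit 0) (.cons (.ev (nat_lit 20362260377167173913771589500931) (nat_lit 2)) (.cons (.ev (nat_lit 10405113814792349690505918620368897) (nat_lit 2)) (.cons (.ev (nat_lit 20837012790639879401924500784129) (nat_lit 3)) (.cons (.br (nat_lit 11) (nat_lit 0) (.cons (.ev (nat_lit 20363503143428398963912343814659) (nat_lit 3)) (.cons (.ev (nat_lit 2658476512286524496632559193362137601) (nat_lit 2)) (.cons (.br (nat_lit 14) (nat_lit 0) (.cons (.ev (nat_lit 2668860946928308511557732461910819331) (nat_lit 2)) (.cons (.ev (nat_lit 340282387282577438573576009150424416513) (nat_lit 1)) (.cons (.br (nat_lit 15) (nat_lit 0) (.cons (.ev (nat_lit 340282367000477324635718445186894856193) (nat_lit 1)) (.cons (.ev (nat_lit 2668861106001185745128032605967482881) (nat_lit 2)) .nil))) .nil)))) (.cons (.br (nat_lit 14) (nat_lit 0) (.cons (.ev (nat_lit 2668860946928308511557732461910819331) (nat_lit 2)) (.cons (.br (nat_lit 15) (nat_lit 0) (.cons (.ev (nat_lit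 340287579579434769197823185105797054465) (nat_lit 1)) (.cons (.ev (nat_lit 2668861106001185745128032605967482881) (nat_lit 2)) .nil))) (.cons (.br (nat_lit 15) (nat_lit 0) (.cons (.ev (nat_lit 2668861106001185745128032605967482881) (nat_lit 2)) (.cons (.ev (nat_lit 87113615159835259725029586449953745600513) (nat_lit 1)) .nil))) .nil)))) .nil))))) .nil))))) (.cons (.ev (nat_lit 20520097722694288764588909527553) (nat_lit 2)) (.cons (.br (nat_lit 11) (nat_lit 0) (.cons (.br (nat_lit 8) (nat_lit 0) (.cons (.kr (nat_lit 79848341496620130507587321857) (nat_lit 2658476273979440119844522041280561152) (nat_lit 0) (nat_lit 1)) (.cons (.rf (nat_lit 1363) (nat_lit 19916960255979615067145280)) .nil))) (.cons (.br (nat_lit 6) (nat_lit 0) (.cons (.ev (nat_lit 72712679840711288137635524632118789) (nat_lit 4)) (.cons (.br (nat_lit 15) (nat_lit 0) (.cons (.ev (nat_lit 1329228075635684666113149776896786691) (nat_lit 2)) (.cons (.rf (nat_lit 1) (nat_lit 582169133299777)) .nil))) .nil))) (.cons (.kr (nat_lit 20361638979814120860139126784001) (nat_lit 2668840585286901401064675117530873856)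 (nat_lit 0) (nat_lit 1)) (.cons (.br (nat_lit 16) (nat_lit 0) (.cons (.ev (nat_lit 10404955977437340660403481849364993) (nat_lit 2)) (.cons (.ev (nat_lit 10404955977446822286294427195539971) (nat_lit 2)) (.cons (.ev (nat_lit 2668861106001176263501015777894596611) (nat_lit 2)) (.cons (.br (nat_lit 16) (nat_lit 0) (.cons (.ev (nat_lit 10404955977437340660403481849364993) (nat_lit 2)) (.cons (.ev (nat_lit 10404955977446822286294427195539971) (nat_lit 2)) (.cons (.ev (nat_lit 2668861106001176263501015777894596611) (nat_lit 2)) .nil)))) .nil))))) .nil))))) (.cons (.br (nat_lit 11) (nat_lit 0) (.cons (.ev (nat_lit 2658476512284106608100404746136846851) (nat_lit 2)) (.cons (.ev (nat_lit 2658476512286524496632559193362137601) (nat_lit 2)) (.cons (.kr (nat_lit 20361638979814120860139126784001) (nat_lit 2668840585286901401064675117530873856) (nat_lit 0) (nat_lit 1)) (.cons (.br (nat_lit 14) (nat_lit 0) (.cons (.ev (nat_lit 10405113814792349690505918620368897) (nat_lit 2)) (.cons (.ev (nat_lit 10405113812374534944201866326704131) (nat_lit 2)) (.cons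 (.br (nat_lit 6) (nat_lit 0) (.cons (.ev (nat_lit 2679245541888153983310286679135618565) (nat_lit 3)) (.cons (.ev (nat_lit 341611615199132987710387660377976471553) (nat_lit 1)) (.cons (.br (nat_lit 8) (nat_lit 0) (.cons (.ev (nat_lit 341611615199134196654653737610179051520) (nat_lit 1)) (.cons (.ev (nat_lit 2668861106001185745128032605967482881) (nat_lit 2)) .nil))) .nil)))) (.cons (.br (nat_lit 6) (nat_lit 0) (.cons (.rf (nat_lit 1) (nat_lit 582131490470977)) (.cons (.br (nat_lit 8) (nat_lit 0) (.cons (.ev (nat_lit 340282367000477324635718445186894856193) (nat_lit 1)) (.cons (.ev (nat_lit 2668861106001185745128032605967482881) (nat_lit 2)) .nil))) (.cons (.br (nat_lit 8) (nat_lit 0) (.cons (.ev (nat_lit 2668861106001185745128032605967482881) (nat_lit 2)) (.cons (.ev (nat_lit 87113620352132118264561062660556755894528) (nat_lit 1)) .nil))) .nil)))) .nil))))) .nil))))) (.cons (.br (nat_lit 6) (nat_lit 0) (.cons (.br (nat_lit 14) (nat_lit 0) (.cons (.br (nat_lit 15) (nat_lit 0) (.cons (.ev (nat_lit 2663648289049759222640952997973197057)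 (nat_lit 2)) (.cons (.rf (nat_lit 1) (nat_lit 582172450988225)) .nil))) (.cons (.ev (nat_lit 10405113812383942784242399561383937) (nat_lit 2)) (.cons (.ev (nat_lit 10405113814801831316396863966543875) (nat_lit 2)) (.cons (.br (nat_lit 11) (nat_lit 0) (.cons (.rf (nat_lit 1) (nat_lit 582139164991681)) (.cons (.br (nat_lit 15) (nat_lit 0) (.cons (.ev (nat_lit 341611594995951546572981575128058953728) (nat_lit 1)) (.cons (.rf (nat_lit 645) (nat_lit 21157571818078028864855404)) .nil))) (.cons (.br (nat_lit 15) (nat_lit 0) (.cons (.rf (nat_lit 394) (nat_lit 20673329430909111700687)) (.cons (.ev (nat_lit 87112285931839785503092323882971124727808) (nat_lit 1)) .nil))) .nil)))) .nil))))) (.cons (.br (nat_lit 14) (nat_lit 0) (.cons (.ev (nat_lit 20520097732175915781434162283011) (nat_lit 2)) (.cons (.ev (nat_lit 2658476353208811560073152410618429443) (nat_lit 2)) (.cons (.kr (nat_lit 10384594337248600719366858811113473) (nat_lit 20361637770888301807364688969728) (nat_lit 0) (nat_lit 1)) (.cons (.br (nat_lit 8) (nat_lit 0) (.cons (.kr (nat_lit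 79848341496620130507587321857) (nat_lit 2658476273979440119844522041280561152) (nat_lit 0) (nat_lit 1)) (.cons (.br (nat_lit 15) (nat_lit 0) (.cons (.ev (nat_lit 340282366920939672407641248713452552448) (nat_lit 1)) (.cons (.br (nat_lit 16) (nat_lit 0) (.cons (.ev (nat_lit 2724948566294782896655854969035285726723) (nat_lit 4)) .nil)) .nil))) (.cons (.br (nat_lit 15) (nat_lit 0) (.cons (.br (nat_lit 16) (nat_lit 0) (.cons (.ev (nat_lit 2735623928002105202293570660733715088899) (nat_lit 4)) .nil)) (.cons (.ev (nat_lit 87112285952042965740026276838660536008705) (nat_lit 1)) .nil))) .nil)))) .nil))))) (.cons (.ev (nat_lit 10405113814792349690505918620368897) (nat_lit 2)) (.cons (.br (nat_lit 14) (nat_lit 0) (.cons (.ev (nat_lit 10405113812383942784242399561383937) (nat_lit 2)) (.cons (.ev (nat_lit 20789550932465924813458781344105987) (nat_lit 3)) (.cons (.ev (nat_lit 2668860946925881215185537464270979587) (nat_lit 2)) (.cons (.br (nat_lit 8) (nat_lit 0) (.cons (.rf (nat_lit 1) (nat_lit 582134769368257)) (.cons (.br (nat_lit 11) (nat_lit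 0) (.cons (.ev (nat_lit 340282366920939672407641248713452552448) (nat_lit 1)) (.cons (.rf (nat_lit 394) (nat_lit 20673581632488244448456)) .nil))) (.cons (.br (nat_lit 11) (nat_lit 0) (.cons (.rf (nat_lit 465) (nat_lit 21169646609457071507245093)) (.cons (.ev (nat_lit 87113615159756341052228991419010600927488) (nat_lit 1)) .nil))) .nil)))) .nil))))) (.cons (.br (nat_lit 11) (nat_lit 0) (.cons (.br (nat_lit 14) (nat_lit 0) (.cons (.ev (nat_lit 1329228075635684666113149776896786691) (nat_lit 2)) (.cons (.ev (nat_lit 340282387282577438573576009150424416513) (nat_lit 1)) (.cons (.br (nat_lit 15) (nat_lit 0) (.cons (.ev (nat_lit 2658476353208821041699043338784735233) (nat_lit 2)) (.cons (.rf (nat_lit 1046) (nat_lit 19992215759353271198825829)) .nil))) .nil)))) (.cons (.br (nat_lit 8) (nat_lit 0) (.cons (.ev (nat_lit 1334420372490583289924558221266190338) (nat_lit 2)) (.cons (.ev (nat_lit 1361129488362931707299381137760521029123) (nat_lit 3)) (.cons (.br (nat_lit 15) (nat_lit 0) (.cons (.ev (nat_lit 1361150257550361029796372084585731719683)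 (nat_lit 3)) (.cons (.br (nat_lit 16) (nat_lit 0) (.cons (.ev (nat_lit 681904346511229685951894204811726422784) (nat_lit 2)) .nil)) .nil))) .nil)))) (.cons (.br (nat_lit 8) (nat_lit 0) (.cons (.ev (nat_lit 2668840743745649058940141277678731777) (nat_lit 2)) (.cons (.ev (nat_lit 2658476353208821041699043338784735233) (nat_lit 2)) (.cons (.br (nat_lit 14) (nat_lit 0) (.cons (.ev (nat_lit 341611594995952750776434706887588446208) (nat_lit 1)) (.cons (.rf (nat_lit 1269) (nat_lit 677317712580090654835705888)) .nil))) .nil)))) (.cons (.ev (nat_lit 340282366920938463463374608531296682241) (nat_lit 1)) (.cons (.br (nat_lit 15) (nat_lit 0) (.cons (.br (nat_lit 14) (nat_lit 0) (.cons (.ev (nat_lit 2668860946928299103718817811402850817) (nat_lit 2)) (.cons (.rf (nat_lit 394) (nat_lit 20673581632488244448518)) .nil))) (.cons (.ev (nat_lit 1339673436733219057394870337832812802) (nat_lit 2)) (.cons (.br (nat_lit 8) (nat_lit 0) (.cons (.ev (nat_lit 340287559217798211939261574495948767233) (nat_lit 1)) (.cons (.br (nat_lit 14) (nat_lit 0) (.cons (.ev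 (nat_lit 20789866612021127779134618657227265) (nat_lit 3)) .nil)) .nil))) (.cons (.ev (nat_lit 2658476830439532407721591712921289729) (nat_lit 3)) .nil))))) .nil)))))) (.cons (.br (nat_lit 8) (nat_lit 0) (.cons (.br (nat_lit 15) (nat_lit 0) (.cons (.rf (nat_lit 1) (nat_lit 581864387751169)) (.cons (.ev (nat_lit 2658476353208821041699043338784735233) (nat_lit 2)) (.cons (.br (nat_lit 14) (nat_lit 0) (.cons (.rf (nat_lit 160) (nat_lit 646189143142658514380)) (.cons (.ev (nat_lit 87112285931839785503092323882971124727808) (nat_lit 1)) .nil))) .nil)))) (.cons (.br (nat_lit 11) (nat_lit 0) (.cons (.rf (nat_lit 1) (nat_lit 581864287090945)) (.cons (.br (nat_lit 15) (nat_lit 0) (.cons (.ev (nat_lit 2679245699723109992984809871069414407) (nat_lit 3)) (.cons (.ev (nat_lit 2658476830439551370975625403426800645) (nat_lit 3)) .nil))) (.cons (.br (nat_lit 15) (nat_lit 0) (.cons (.ev (nat_lit 2658476830439532407721591712921289729) (nat_lit 3)) (.cons (.ev (nat_lit 2679245699723091177306980570053477379) (nat_lit 3)) .nil))) .nil)))) (.cons (.br (nat_lit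 14) (nat_lit 0) (.cons (.rf (nat_lit 1) (nat_lit 581863213350145)) (.cons (.br (nat_lit 11) (nat_lit 0) (.cons (.ev (nat_lit 341611615199134196654653737610179051520) (nat_lit 1)) (.cons (.rf (nat_lit 160) (nat_lit 646049531554210029004)) .nil))) (.cons (.ev (nat_lit 2668860946928299103718817811402850817) (nat_lit 2)) .nil)))) (.cons (.br (nat_lit 11) (nat_lit 0) (.cons (.br (nat_lit 15) (nat_lit 0) (.cons (.ev (nat_lit 1339612827190114034175092384893894912) (nat_lit 2)) (.cons (.br (nat_lit 16) (nat_lit 0) (.cons (.ev (nat_lit 1366467169216588024341174674680925390343) (nat_lit 3)) .nil)) .nil))) (.cons (.ev (nat_lit 2658476353208821041699043338784735233) (nat_lit 2)) (.cons (.br (nat_lit 15) (nat_lit 0) (.cons (.ev (nat_lit 1369104856180415592363879497971118899203) (nat_lit 3)) (.cons (.ev (nat_lit 7975388496661729102542149212671705089) (nat_lit 3)) .nil))) (.cons (.br (nat_lit 14) (nat_lit 0) (.cons (.br (nat_lit 16) (nat_lit 0) (.cons (.ev (nat_lit 1361150257234686310370472969477042603521) (nat_lit 3)) .nil)) (.cons (.ev (nat_lit 20789866612021127779134618657227265)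 (nat_lit 3)) (.cons (.ev (nat_lit 348449143747720164468312573662089884075521) (nat_lit 3)) .nil)))) .nil))))) (.cons (.br (nat_lit 11) (nat_lit 0) (.cons (.br (nat_lit 17) (nat_lit 0) (.cons (.ev (nat_lit 174225911476347680989467228919297831076098) (nat_lit 2)) (.cons (.ev (nat_lit 348449164516591923888197475777806443218439) (nat_lit 3)) .nil))) (.cons (.br (nat_lit 14) (nat_lit 0) (.cons (.rf (nat_lit 160) (nat_lit 645941550716269403596)) (.cons (.ev (nat_lit 87113615159756341052228991419010600927488) (nat_lit 1)) .nil))) (.cons (.br (nat_lit 16) (nat_lit 0) (.cons (.ev (nat_lit 20789866612021127779134618657227265) (nat_lit 3)) (.cons (.br (nat_lit 14) (nat_lit 0) (.cons (.ev (nat_lit 5337701532834180043091368409076729345) (nat_lit 3)) .nil)) (.cons (.ev (nat_lit 1361129488047257025652990346361297043969) (nat_lit 3)) .nil)))) (.cons (.br (nat_lit 15) (nat_lit 0) (.cons (.ev (nat_lit 348457119115853323016207784984433183949831) (nat_lit 3)) (.cons (.ev (nat_lit 2658476830439532407721591712921289729) (nat_lit 3)) .nil))) .nil))))) .nil))))))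 .nil))))))) .nil)))))))]

theorem c78 : chkAll C T R L78 (nat_lit 1352) = true := by decide +kernel

theorem l78 : (nat_lit 1352) + L78.length = (nat_lit 1366) := by decide +kernel

/-- part of the certificates -/
def L79 : List Prf := [(.br (nat_lit 13) (nat_lit 0) (.cons (.rf (nat_lit 160) (nat_lit 571892992131456047266)) (.cons (.ev (nat_lit 340287579500207810868565516673066467328) (nat_lit 1)) .nil))),
 (.br (nat_lit 14) (nat_lit 0) (.cons (.kr (nat_lit 20282409608374036906816896499712) (nat_lit 1334420292643450700532337556609564672) (nat_lit 9) (nat_lit 0)) (.cons (.kr (nat_lit 2668840585288110326884290846217207809) (nat_lit 20361637770925195295507813105664) (nat_lit 0) (nat_lit 1)) (.cons (.kr (nat_lit 4722438540463683141888) (nat_lit 5192296858534846075274570055548928) (nat_lit 1) (nat_lit 0)) .nil)))),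
 (.br (nat_lit 13) (nat_lit 0) (.cons (.rf (nat_lit 160) (nat_lit 571892987870848489634)) (.cons (.ev (nat_lit 340287579500207810868565516673066467328) (nat_lit 1)) .nil))),
 (.br (nat_lit 2) (nat_lit 0) (.cons (.ev (nat_lit 20520097722694288766796489163267) (nat_lit 2)) (.cons (.rf (nat_lit 1362) (nat_lit 583591875111012684366912)) (.cons (.br (nat_lit 15) (nat_lit 0) (.cons (.kr (nat_lit 20282410817299856522549894578177) (nat_lit 79228162551158388690916605952) (nat_lit 0) (nat_lit 1)) (.cons (.kr (nat_lit 20361638975091754377273793314817) (nat_lit 618974742153288195170632192) (nat_lit 0) (nat_lit 2)) (.cons (.kr (nat_lit 20361638979814120860143421751297) (nat_lit 10384594336039711793239277543882752) (nat_lit 0) (nat_lit 1)) (.cons (.br (nat_lit 16) (nat_lit 0) (.cons (.ev (nat_lit 2658476512284106608100402538490102273) (nat_lit 2)) (.cons (.ev (nat_lit 2658476353208821041699043338784735233) (nat_lit 2)) (.cons (.ev (nat_lit 2668860946925881215185535256691343873) (nat_lit 2)) (.cons (.br (nat_lit 16) (nat_lit 0) (.cons (.ev (nat_lit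 2658476512284106608100402538490102273) (nat_lit 2)) (.cons (.ev (nat_lit 2658476353208821041699043338784735233) (nat_lit 2)) (.cons (.ev (nat_lit 2668860946925881215185535256691343873) (nat_lit 2)) .nil)))) .nil))))) .nil))))) (.cons (.br (nat_lit 6) (nat_lit 0) (.cons (.kr (nat_lit 79229376162450436196187242497) (nat_lit 20282409603688564475044623941632) (nat_lit 0) (nat_lit 1)) (.cons (.ev (nat_lit 10404955977437340660405689496109571) (nat_lit 2)) (.cons (.ev (nat_lit 2668860946928299103718817811436405251) (nat_lit 2)) (.cons (.br (nat_lit 7) (nat_lit 0) (.cons (.ev (nat_lit 20362260367685546896926370299907) (nat_lit 2)) (.cons (.ev (nat_lit 2658476353211229448605309065490464771) (nat_lit 2)) (.cons (.br (nat_lit 11) (nat_lit 0) (.cons (.kr (nat_lit 1329227995784915872903807064575311872) (nat_lit 309485028268089142434332672) (nat_lit 4) (nat_lit 0)) (.cons (.ev (nat_lit 340287559297334650555902047533720994048) (nat_lit 1)) (.cons (.br (nat_lit 15) (nat_lit 0) (.cons (.ev (nat_lit 341616807495992726741396984664332239105) (nat_lit 1))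 (.cons (.ev (nat_lit 2668861106001185745128032605967482881) (nat_lit 2)) .nil))) .nil)))) (.cons (.br (nat_lit 11) (nat_lit 0) (.cons (.kr (nat_lit 1329227995784915872903807064575311872) (nat_lit 309485028268089142434332672) (nat_lit 4) (nat_lit 0)) (.cons (.br (nat_lit 15) (nat_lit 0) (.cons (.ev (nat_lit 340282387282576234370122877390911701248) (nat_lit 1)) (.cons (.ev (nat_lit 2668861106001185745128032605967482881) (nat_lit 2)) .nil))) (.cons (.br (nat_lit 15) (nat_lit 0) (.cons (.ev (nat_lit 2668861106001185745128032605967482881) (nat_lit 2)) (.cons (.ev (nat_lit 87112291124057106390395866450425425231873) (nat_lit 1)) .nil))) .nil)))) .nil))))) .nil))))) (.cons (.br (nat_lit 11) (nat_lit 0) (.cons (.kr (nat_lit 20282410817299856522549894578177) (nat_lit 79228162551158388690916605952) (nat_lit 0) (nat_lit 1)) (.cons (.kr (nat_lit 20361638975128647865416917450753) (nat_lit 2658455991569836468318212182576726528) (nat_lit 0) (nat_lit 2)) (.cons (.kr (nat_lit 20361638979814120860139126784001) (nat_lit 2668840585286901401064675117530873856)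 (nat_lit 0) (nat_lit 1)) (.cons (.br (nat_lit 16) (nat_lit 0) (.cons (.ev (nat_lit 2658476512284106608100402538490102273) (nat_lit 2)) (.cons (.ev (nat_lit 20362257959278640631216844439553) (nat_lit 2)) (.cons (.ev (nat_lit 10404955975019525914099429589254657) (nat_lit 2)) (.cons (.br (nat_lit 16) (nat_lit 0) (.cons (.ev (nat_lit 2658476512284106608100402538490102273) (nat_lit 2)) (.cons (.ev (nat_lit 20362257959278640631216844439553) (nat_lit 2)) (.cons (.ev (nat_lit 10404955975019525914099429589254657) (nat_lit 2)) .nil)))) .nil))))) .nil))))) (.cons (.br (nat_lit 11) (nat_lit 0) (.cons (.br (nat_lit 7) (nat_lit 0) (.cons (.br (nat_lit 15) (nat_lit 0) (.cons (.ev (nat_lit 2668861106001176263501015777861042177) (nat_lit 2)) (.cons (.rf (nat_lit 1) (nat_lit 582172316806337)) .nil))) (.cons (.kr (nat_lit 309485009893402662762709248) (nat_lit 20282409603651670423951563030528) (nat_lit 1) (nat_lit 0)) (.cons (.kr (nat_lit 620183667972903923856966145) (nat_lit 20361637766202828812642479636480) (nat_lit 0) (nat_lit 14)) (.cons (.br (nat_lit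 14) (nat_lit 0) (.cons (.kr (nat_lit 20282409608374036906821191467008) (nat_lit 5192297168019855896619638763552768) (nat_lit 4) (nat_lit 0)) (.cons (.kr (nat_lit 10384594337248600719366858811113473) (nat_lit 20361637770888301807364688969728) (nat_lit 0) (nat_lit 1)) (.cons (.kr (nat_lit 4722438540463683141888) (nat_lit 5192296858534846075274570055548928) (nat_lit 1) (nat_lit 0)) .nil)))) .nil))))) (.cons (.br (nat_lit 15) (nat_lit 0) (.cons (.kr (nat_lit 1329227995784915872975864654318272768) (nat_lit 20282409603670117168020977614848) (nat_lit 1) (nat_lit 0)) (.cons (.br (nat_lit 6) (nat_lit 0) (.cons (.ev (nat_lit 2689630293442588055582170995964903943) (nat_lit 3)) (.cons (.rf (nat_lit 1) (nat_lit 581864387783905)) .nil))) (.cons (.ev (nat_lit 2658476353208821041699043338784735233) (nat_lit 2)) (.cons (.br (nat_lit 6) (nat_lit 0) (.cons (.rf (nat_lit 1) (nat_lit 582169095583937)) (.cons (.br (nat_lit 16) (nat_lit 0) (.cons (.ev (nat_lit 340282387203658765773124532644408786945) (nat_lit 1)) (.cons (.ev (nat_lit 341611615199132983006467640111359131648)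 (nat_lit 1)) .nil))) (.cons (.rf (nat_lit 1366) (nat_lit 21174442659472880612543553)) .nil)))) .nil))))) (.cons (.br (nat_lit 15) (nat_lit 0) (.cons (.kr (nat_lit 20282409608374036906816896499712) (nat_lit 1334420292643450700532337556609564672) (nat_lit 9) (nat_lit 0)) (.cons (.br (nat_lit 6) (nat_lit 0) (.cons (.ev (nat_lit 2689630293442588055582170995964903943) (nat_lit 3)) (.cons (.rf (nat_lit 1) (nat_lit 581863213382881)) .nil))) (.cons (.ev (nat_lit 2668860946925881215185535256691343873) (nat_lit 2)) (.cons (.br (nat_lit 6) (nat_lit 0) (.cons (.rf (nat_lit 1) (nat_lit 582172451019969)) (.cons (.br (nat_lit 16) (nat_lit 0) (.cons (.ev (nat_lit 340287579500517295896761266750781194497) (nat_lit 1)) (.cons (.ev (nat_lit 341616807495991522537943851809569308928) (nat_lit 1)) .nil))) (.cons (.rf (nat_lit 1366) (nat_lit 21174184405049259125253185)) .nil)))) .nil))))) (.cons (.kr (nat_lit 1329227995784915872903807064575311872) (nat_lit 309485028268089142434332672) (nat_lit 4) (nat_lit 0)) (.cons (.br (nat_lit 15) (nat_lit 0) (.cons (.br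 (nat_lit 7) (nat_lit 0) (.cons (.ev (nat_lit 2668861106001176263501015777861042177) (nat_lit 2)) (.cons (.kr (nat_lit 2658455991571045394137827911263060481) (nat_lit 20361637766239722300785603772416) (nat_lit 0) (nat_lit 11)) (.cons (.rf (nat_lit 1367) (nat_lit 677582165103132179601393696)) .nil)))) (.cons (.ev (nat_lit 20362257959278640631216844439553) (nat_lit 2)) (.cons (.ev (nat_lit 10404955975019525914099429589254657) (nat_lit 2)) (.cons (.ev (nat_lit 341611594917032864364546503634482954496) (nat_lit 1)) (.cons (.br (nat_lit 6) (nat_lit 0) (.cons (.br (nat_lit 14) (nat_lit 0) (.cons (.ev (nat_lit 10405113814801831316396863966543875) (nat_lit 2)) (.cons (.rf (nat_lit 644) (nat_lit 21157571818078028864855404)) .nil))) (.cons (.br (nat_lit 16) (nat_lit 0) (.cons (.ev (nat_lit 10405113814801831316396863966543875) (nat_lit 2)) (.cons (.ev (nat_lit 341616807495991522537943851809569308928) (nat_lit 1)) .nil))) (.cons (.br (nat_lit 7) (nat_lit 0) (.cons (.ev (nat_lit 1361160641986245561256555131222542909959) (nat_lit 3)) (.cons (.ev (nat_lit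 341611594995952755517247652351671599105) (nat_lit 1)) .nil))) (.cons (.br (nat_lit 16) (nat_lit 0) (.cons (.ev (nat_lit 7975388496661729102542149212671705089) (nat_lit 3)) (.cons (.ev (nat_lit 7996157684095849449515133048484922369) (nat_lit 3)) (.cons (.ev (nat_lit 1369104856496090274010272536789357036545) (nat_lit 3)) .nil)))) .nil))))) .nil)))))) (.cons (.br (nat_lit 6) (nat_lit 0) (.cons (.br (nat_lit 14) (nat_lit 0) (.cons (.rf (nat_lit 1) (nat_lit 582036186471617)) (.cons (.ev (nat_lit 10405113814801831316396863966543875) (nat_lit 2)) (.cons (.br (nat_lit 15) (nat_lit 0) (.cons (.rf (nat_lit 456) (nat_lit 20678129328737990384065)) (.cons (.ev (nat_lit 87113620352053199582352772268305015635968) (nat_lit 1)) .nil))) .nil)))) (.cons (.br (nat_lit 7) (nat_lit 0) (.cons (.rf (nat_lit 1) (nat_lit 582035951597761)) (.cons (.ev (nat_lit 10405113814801831316396863966543875) (nat_lit 2)) (.cons (.br (nat_lit 15) (nat_lit 0) (.cons (.rf (nat_lit 425) (nat_lit 19529819787374878636097)) (.cons (.ev (nat_lit 87113620352053199582352772268305015635968)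 (nat_lit 1)) .nil))) .nil)))) (.cons (.br (nat_lit 7) (nat_lit 0) (.cons (.rf (nat_lit 1) (nat_lit 582034877856961)) (.cons (.kr (nat_lit 2658455991571045394137827911263060481) (nat_lit 20361637766239722300785603772416) (nat_lit 0) (nat_lit 11)) (.cons (.rf (nat_lit 1367) (nat_lit 677582165103132179601393696)) .nil)))) (.cons (.br (nat_lit 7) (nat_lit 0) (.cons (.br (nat_lit 15) (nat_lit 0) (.cons (.ev (nat_lit 1366477553968147284782671955466423501319) (nat_lit 3)) (.cons (.br (nat_lit 16) (nat_lit 0) (.cons (.ev (nat_lit 681909538887006884098564216586743316739) (nat_lit 2)) .nil)) .nil))) (.cons (.rf (nat_lit 580) (nat_lit 21174296083176559941355712)) (.cons (.br (nat_lit 14) (nat_lit 0) (.cons (.ev (nat_lit 341616807495992726741396984664332239105) (nat_lit 1)) (.cons (.br (nat_lit 15) (nat_lit 0) (.cons (.ev (nat_lit 7996157684095849449515133048484922369) (nat_lit 3)) .nil)) .nil))) (.cons (.br (nat_lit 15) (nat_lit 0) (.cons (.rf (nat_lit 394) (nat_lit 20668715648089001928738)) (.cons (.ev (nat_lit 340282367000477324635718446290701451265)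 (nat_lit 1)) (.cons (.ev (nat_lit 7975388496661729102542149212671705089) (nat_lit 3)) .nil)))) .nil))))) (.cons (.br (nat_lit 15) (nat_lit 0) (.cons (.rf (nat_lit 1368) (nat_lit 21174442659472880612543553)) (.cons (.rf (nat_lit 1368) (nat_lit 21174184405049259125253185)) (.cons (.br (nat_lit 16) (nat_lit 0) (.cons (.ev (nat_lit 7975388496661729102542149212671705089) (nat_lit 3)) (.cons (.ev (nat_lit 7996157684095849449515133048484922369) (nat_lit 3)) (.cons (.ev (nat_lit 1363787944514188550631729665135152858113) (nat_lit 3)) .nil)))) (.cons (.ev (nat_lit 87112285952121884417530647772491805622528) (nat_lit 1)) .nil))))) .nil)))))) .nil))))))) .nil))))))),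
 (.br (nat_lit 7) (nat_lit 0) (.cons (.ev (nat_lit 20363495899392002350659709960709) (nat_lit 3)) (.cons (.br (nat_lit 15) (nat_lit 0) (.cons (.ev (nat_lit 2658476353208821041699045546397925377) (nat_lit 2)) (.cons (.rf (nat_lit 1) (nat_lit 582172288589889)) .nil))) .nil))),
 (.br (nat_lit 7) (nat_lit 0) (.cons (.kr (nat_lit 10404876127882232747100672941359105) (nat_lit 79228167236775498601218572800) (nat_lit 0) (nat_lit 8)) (.cons (.rf (nat_lit 1) (nat_lit 616223863054401)) .nil))),
 (.br (nat_lit 14) (nat_lit 0) (.cons (.ev (nat_lit 340282367000167834921977643896739463168) (nat_lit 1)) .nil)),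
 (.br (nat_lit 2) (nat_lit 0) (.cons (.rf (nat_lit 1365) (nat_lit 583591875111012684366912)) (.cons (.ev (nat_lit 20520097722694288764588909527553) (nat_lit 2)) (.cons (.br (nat_lit 14) (nat_lit 0) (.cons (.rf (nat_lit 1370) (nat_lit 583706118939841765935136)) (.cons (.rf (nat_lit 1370) (nat_lit 583591875111012684366912)) (.cons (.kr (nat_lit 20361638979814120860143421751297) (nat_lit 10384594336039711793239277543882752) (nat_lit 0) (nat_lit 1)) (.cons (.br (nat_lit 15) (nat_lit 0) (.cons (.rf (nat_lit 1371) (nat_lit 19926519232773908561233952)) (.cons (.rf (nat_lit 1371) (nat_lit 19926404988945079479665728)) (.cons (.ev (nat_lit 2668860946925881215185535256691343873) (nat_lit 2)) (.cons (.br (nat_lit 6) (nat_lit 0) (.cons (.rf (nat_lit 1) (nat_lit 582164779737153)) (.cons (.br (nat_lit 7) (nat_lit 0) (.cons (.ev (nat_lit 340287579500517295896761266750781194497) (nat_lit 1)) (.cons (.ev (nat_lit 2658476353208821041699045546397925377) (nat_lit 2)) .nil))) (.cons (.ev (nat_lit 2658476512284106608100404746103292417) (nat_lit 2)) .nil))))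 .nil))))) .nil))))) (.cons (.br (nat_lit 8) (nat_lit 0) (.cons (.br (nat_lit 7) (nat_lit 0) (.cons (.ev (nat_lit 20789866604767535967393530066764289) (nat_lit 3)) (.cons (.br (nat_lit 15) (nat_lit 0) (.cons (.ev (nat_lit 2668861106001176263501015777894596611) (nat_lit 2)) (.cons (.rf (nat_lit 1) (nat_lit 582165846145089)) .nil))) .nil))) (.cons (.br (nat_lit 6) (nat_lit 0) (.cons (.kr (nat_lit 1329228154243658753143771298778841344) (nat_lit 5232861987227196131237155662004224) (nat_lit 1) (nat_lit 0)) (.cons (.br (nat_lit 15) (nat_lit 0) (.cons (.ev (nat_lit 2658476512284106608100404746103292417) (nat_lit 2)) (.cons (.rf (nat_lit 1) (nat_lit 582165878650945)) .nil))) .nil))) (.cons (.kr (nat_lit 20361638979814120860143421751297) (nat_lit 10384594336039711793239277543882752) (nat_lit 0) (nat_lit 1)) (.cons (.br (nat_lit 15) (nat_lit 0) (.cons (.br (nat_lit 7) (nat_lit 0) (.cons (.ev (nat_lit 5316932345402467955450693277819470339) (nat_lit 3)) (.cons (.rf (nat_lit 1) (nat_lit 616017704630337)) .nil))) (.cons (.br (nat_lit 6) (nat_lit 0)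 (.cons (.ev (nat_lit 2658455992191224394796530095028896257) (nat_lit 2)) (.cons (.rf (nat_lit 1) (nat_lit 616017737136193)) .nil))) (.cons (.ev (nat_lit 2658476512284116089726295674269598211) (nat_lit 2)) (.cons (.br (nat_lit 6) (nat_lit 0) (.cons (.rf (nat_lit 1) (nat_lit 582164773451841)) (.cons (.br (nat_lit 7) (nat_lit 0) (.cons (.ev (nat_lit 340287579500517295896761266750781194497) (nat_lit 1)) (.cons (.ev (nat_lit 2668861106001185745128032605967482881) (nat_lit 2)) .nil))) (.cons (.ev (nat_lit 2658476512284106608100404746103292417) (nat_lit 2)) .nil)))) .nil))))) .nil))))) (.cons (.br (nat_lit 6) (nat_lit 0) (.cons (.br (nat_lit 8) (nat_lit 0) (.cons (.ev (nat_lit 20520097732175915781434162283011) (nat_lit 2)) (.cons (.br (nat_lit 14) (nat_lit 0) (.cons (.kr (nat_lit 20361637770925195295507813105665) (nat_lit 2668840585288110326884290846250762240) (nat_lit 0) (nat_lit 1)) (.cons (.rf (nat_lit 1) (nat_lit 582130413714497)) .nil))) .nil))) (.cons (.br (nat_lit 7) (nat_lit 0) (.cons (.ev (nat_lit 10404955977437340660405689462555137)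 (nat_lit 2)) (.cons (.br (nat_lit 14) (nat_lit 0) (.cons (.kr (nat_lit 10404876127882232747100672941359105) (nat_lit 79228167236775498601218572800) (nat_lit 0) (nat_lit 8)) (.cons (.rf (nat_lit 1) (nat_lit 582131486407745)) .nil))) .nil))) (.cons (.ev (nat_lit 5253144396830792461994030761312769) (nat_lit 2)) (.cons (.br (nat_lit 7) (nat_lit 0) (.cons (.kr (nat_lit 20282409603670117168020960837633) (nat_lit 1329227995784915872975864654318272768) (nat_lit 0) (nat_lit 2)) (.cons (.br (nat_lit 8) (nat_lit 0) (.cons (.ev (nat_lit 20789866609574941941005917609918979) (nat_lit 3)) (.cons (.rf (nat_lit 1) (nat_lit 581931802934337)) .nil))) (.cons (.br (nat_lit 8) (nat_lit 0) (.cons (.ev (nat_lit 5316932663548203458760803572642874887) (nat_lit 3)) (.cons (.ev (nat_lit 340282387203658761069205074223938142208) (nat_lit 1)) (.cons (.br (nat_lit 14) (nat_lit 0) (.cons (.ev (nat_lit 340287579579435978105196337140550598657) (nat_lit 1)) (.cons (.ev (nat_lit 2668861106001185745128032605967482881) (nat_lit 2)) .nil))) .nil)))) (.cons (.br (nat_lit 8)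 (nat_lit 0) (.cons (.rf (nat_lit 1) (nat_lit 581897476750401)) (.cons (.br (nat_lit 14) (nat_lit 0) (.cons (.ev (nat_lit 341616807495991517834024394484315324673) (nat_lit 1)) (.cons (.ev (nat_lit 2668861106001185745128032605967482881) (nat_lit 2)) .nil))) (.cons (.br (nat_lit 14) (nat_lit 0) (.cons (.ev (nat_lit 2668861106001185745128032605967482881) (nat_lit 2)) (.cons (.ev (nat_lit 87112291144418742952358348080206707752960) (nat_lit 1)) .nil))) .nil)))) .nil))))) .nil))))) (.cons (.br (nat_lit 6) (nat_lit 0) (.cons (.br (nat_lit 8) (nat_lit 0) (.cons (.ev (nat_lit 20520097732175915781434162283011) (nat_lit 2)) (.cons (.br (nat_lit 14) (nat_lit 0) (.cons (.ev (nat_lit 2668860946925881215185535256691343873) (nat_lit 2)) (.cons (.rf (nat_lit 1) (nat_lit 582139064458433)) .nil))) (.cons (.br (nat_lit 14) (nat_lit 0) (.cons (.ev (nat_lit 2658476512284116089726295674269598211) (nat_lit 2)) (.cons (.ev (nat_lit 10405430732306481406369825776992775) (nat_lit 3)) (.cons (.br (nat_lit 15) (nat_lit 0) (.cons (.ev (nat_lit 341611615278671844178667363777921483009)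 (nat_lit 1)) (.cons (.br (nat_lit 16) (nat_lit 0) (.cons (.ev (nat_lit 2614075789576553814656342371629741087918107) (nat_lit 5)) .nil)) .nil))) .nil)))) (.cons (.br (nat_lit 14) (nat_lit 0) (.cons (.rf (nat_lit 1) (nat_lit 581933107354817)) (.cons (.br (nat_lit 15) (nat_lit 0) (.cons (.ev (nat_lit 340287579500516086952495189518578614528) (nat_lit 1)) (.cons (.br (nat_lit 16) (nat_lit 0) (.cons (.zr (nat_lit 1361139852280574236124743852644372578816) (nat_lit 7975388494803600598987416587016208387) (nat_lit 16) (nat_lit 11)) .nil)) .nil))) (.cons (.br (nat_lit 17) (nat_lit 0) (.cons (.ev (nat_lit 5327317415105074309029641309845979655) (nat_lit 3)) (.cons (.ev (nat_lit 348449174901343478303454067572260743676419) (nat_lit 3)) .nil))) .nil)))) .nil))))) (.cons (.br (nat_lit 14) (nat_lit 0) (.cons (.ev (nat_lit 10404955977437340660405689462555137) (nat_lit 2)) (.cons (.kr (nat_lit 20282409608374036906821191467008) (nat_lit 5192297168019855896619638763552768) (nat_lit 4) (nat_lit 0)) (.cons (.br (nat_lit 7) (nat_lit 0) (.cons (.kr (nat_lit 10404876127882232747100672941359105)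 (nat_lit 79228167236775498601218572800) (nat_lit 0) (nat_lit 8)) (.cons (.kr (nat_lit 20769188054318292869915998922211329) (nat_lit 20361637780333178888292055253504) (nat_lit 0) (nat_lit 15)) (.cons (.rf (nat_lit 666) (nat_lit 677545416699683738155648068)) .nil)))) (.cons (.br (nat_lit 7) (nat_lit 0) (.cons (.rf (nat_lit 1) (nat_lit 582139030905025)) (.cons (.br (nat_lit 16) (nat_lit 0) (.cons (.ev (nat_lit 8166776826789128740139254295665990044191) (nat_lit 5)) (.cons (.ev (nat_lit 8166818365795375377308902118531178306071) (nat_lit 5)) .nil))) (.cons (.br (nat_lit 15) (nat_lit 0) (.cons (.br (nat_lit 16) (nat_lit 0) (.cons (.ev (nat_lit 1361139872798806595724100209064961902083) (nat_lit 3)) .nil)) (.cons (.ev (nat_lit 348454471044456096477618440178478612480519) (nat_lit 3)) .nil))) .nil)))) .nil))))) (.cons (.br (nat_lit 8) (nat_lit 0) (.cons (.ev (nat_lit 20520097732175915781434162283011) (nat_lit 2)) (.cons (.kr (nat_lit 20282409608374036906821191467008) (nat_lit 5192297168019855896619638763552768) (nat_lit 4) (nat_lit 0)) (.cons (.ev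 (nat_lit 4777707561719022289409) (nat_lit 2)) (.cons (.br (nat_lit 7) (nat_lit 0) (.cons (.rf (nat_lit 1) (nat_lit 581932872480961)) (.cons (.br (nat_lit 16) (nat_lit 0) (.cons (.ev (nat_lit 1361160641986240744442742597578798793221) (nat_lit 3)) (.cons (.ev (nat_lit 1361139873114486150927065884902409241089) (nat_lit 3)) .nil))) (.cons (.br (nat_lit 15) (nat_lit 0) (.cons (.br (nat_lit 16) (nat_lit 0) (.cons (.ev (nat_lit 1361139872798806595724100209064961902083) (nat_lit 3)) .nil)) (.cons (.ev (nat_lit 348454471044456096477618440178478612480519) (nat_lit 3)) .nil))) .nil)))) .nil))))) (.cons (.br (nat_lit 7) (nat_lit 0) (.cons (.kr (nat_lit 60847228815714271242863129919489) (nat_lit 2658456070799203186035682630866829824) (nat_lit 0) (nat_lit 2)) (.cons (.br (nat_lit 8) (nat_lit 0) (.cons (.ev (nat_lit 1334420530327938298666429186618491393) (nat_lit 2)) (.cons (.rf (nat_lit 1) (nat_lit 581931798740161)) .nil))) (.cons (.br (nat_lit 8) (nat_lit 0) (.cons (.ev (nat_lit 5316932345402467955450693277819470339) (nat_lit 3)) (.cons (.ev (nat_lit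 340282387282576234370122877390894924033) (nat_lit 1)) (.cons (.br (nat_lit 14) (nat_lit 0) (.cons (.ev (nat_lit 340287579500516086952495189518578614528) (nat_lit 1)) (.cons (.ev (nat_lit 2668860946928299103718815621003084291) (nat_lit 2)) .nil))) .nil)))) (.cons (.br (nat_lit 8) (nat_lit 0) (.cons (.rf (nat_lit 1) (nat_lit 581897472556225)) (.cons (.br (nat_lit 14) (nat_lit 0) (.cons (.ev (nat_lit 2668860946928299103718815621003084291) (nat_lit 2)) (.cons (.rf (nat_lit 912) (nat_lit 21164594191260011565588516)) .nil))) (.cons (.br (nat_lit 14) (nat_lit 0) (.cons (.rf (nat_lit 160) (nat_lit 609979962937113450723)) (.cons (.ev (nat_lit 2668860946928299103718815621003084291) (nat_lit 2)) .nil))) .nil)))) .nil))))) (.cons (.br (nat_lit 16) (nat_lit 0) (.cons (.ev (nat_lit 340282366920938463463374608531296682241) (nat_lit 1)) (.cons (.br (nat_lit 7) (nat_lit 0) (.cons (.ev (nat_lit 340287559297334645815089102069637841153) (nat_lit 1)) (.cons (.ev (nat_lit 4091363792342069069900863650033640016397) (nat_lit 4)) (.cons (.br (nat_lit 14) (nat_lit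 0) (.cons (.ev (nat_lit 2658476512284116089726295674269598211) (nat_lit 2)) (.cons (.rf (nat_lit 1372) (nat_lit 21174442659472880612543553)) .nil))) .nil)))) (.cons (.br (nat_lit 7) (nat_lit 0) (.cons (.ev (nat_lit 340282387282577438573576009150424416513) (nat_lit 1)) (.cons (.kr (nat_lit 2679245461413574707992161156985782273) (nat_lit 237685701191123788417481179648) (nat_lit 0) (nat_lit 8)) (.cons (.br (nat_lit 8) (nat_lit 0) (.cons (.ev (nat_lit 2668860946925881215185535256691343873) (nat_lit 2)) (.cons (.br (nat_lit 15) (nat_lit 0) (.cons (.ev (nat_lit 341611615278670630530481266279101563137) (nat_lit 1)) .nil)) .nil))) .nil)))) (.cons (.ev (nat_lit 2658476512284106608100404746103292417) (nat_lit 2)) (.cons (.br (nat_lit 8) (nat_lit 0) (.cons (.br (nat_lit 15) (nat_lit 0) (.cons (.ev (nat_lit 7985773406060743404274691732070859267) (nat_lit 3)) (.cons (.ev (nat_lit 341611615278670635234401286545718903040) (nat_lit 1)) .nil))) (.cons (.ev (nat_lit 4777707561719022289409) (nat_lit 2)) (.cons (.br (nat_lit 14) (nat_lit 0) (.cons (.ev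 (nat_lit 20789866609574941941005917609918979) (nat_lit 3)) (.cons (.ev (nat_lit 341616787292811285603990898310624903425) (nat_lit 1)) .nil))) (.cons (.br (nat_lit 14) (nat_lit 0) (.cons (.br (nat_lit 15) (nat_lit 0) (.cons (.ev (nat_lit 341611615278670635234401286545718903040) (nat_lit 1)) .nil)) (.cons (.ev (nat_lit 341611615278670630530481266279101563137) (nat_lit 1)) (.cons (.ev (nat_lit 178988597712935640030384962615042946893837) (nat_lit 4)) .nil)))) .nil))))) .nil)))))) (.cons (.br (nat_lit 15) (nat_lit 0) (.cons (.br (nat_lit 8) (nat_lit 0) (.cons (.kr (nat_lit 79229371440083952222718656512) (nat_lit 1334420292643450700532337556609564672) (nat_lit 10) (nat_lit 0)) (.cons (.br (nat_lit 14) (nat_lit 0) (.cons (.ev (nat_lit 1361150257550358602573785742190670250501) (nat_lit 3)) (.cons (.br (nat_lit 16) (nat_lit 0) (.cons (.ev (nat_lit 1366467169534741060623643768805111628289) (nat_lit 3)) .nil)) .nil))) (.cons (.br (nat_lit 14) (nat_lit 0) (.cons (.br (nat_lit 16) (nat_lit 0) (.cons (.ev (nat_lit 1366446400029156312401107956588997771781)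 (nat_lit 3)) .nil)) (.cons (.ev (nat_lit 348454481428573818367539622031861506639361) (nat_lit 3)) .nil))) .nil)))) (.cons (.br (nat_lit 14) (nat_lit 0) (.cons (.kr (nat_lit 79229371440083952222718656512) (nat_lit 1334420292643450700532337556609564672) (nat_lit 10) (nat_lit 0)) (.cons (.ev (nat_lit 2668860946925881215185535256691343873) (nat_lit 2)) (.cons (.rf (nat_lit 653) (nat_lit 20677048671682948079681)) .nil)))) (.cons (.br (nat_lit 8) (nat_lit 0) (.cons (.rf (nat_lit 1) (nat_lit 581864387879137)) (.cons (.ev (nat_lit 2658476512284116089726295674269598211) (nat_lit 2)) (.cons (.br (nat_lit 7) (nat_lit 0) (.cons (.rf (nat_lit 394) (nat_lit 20667670848053526672418)) (.cons (.ev (nat_lit 87112285952042966944229729969324832063488) (nat_lit 1)) .nil))) .nil)))) (.cons (.br (nat_lit 8) (nat_lit 0) (.cons (.br (nat_lit 14) (nat_lit 0) (.cons (.ev (nat_lit 341616787292810081400537766551095410945) (nat_lit 1)) (.cons (.rf (nat_lit 246) (nat_lit 20676750243573911333121)) .nil))) (.cons (.ev (nat_lit 2658476512284116089726295674269598211)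 (nat_lit 2)) (.cons (.ev (nat_lit 341611615278671844178667363777921483009) (nat_lit 1)) (.cons (.br (nat_lit 7) (nat_lit 0) (.cons (.rf (nat_lit 425) (nat_lit 19526249557708453820481)) (.cons (.rf (nat_lit 1047) (nat_lit 20677045187368278395969)) (.cons (.ev (nat_lit 87112285931839784298888870752306828673025) (nat_lit 1)) .nil)))) .nil))))) (.cons (.ev (nat_lit 2658476512284106608100404746103292417) (nat_lit 2)) .nil)))))) .nil))))))) .nil)))))))]

theorem c79 : chkAll C T R L79 (nat_lit 1366) = true := by decide +kernel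

theorem l79 : (nat_lit 1366) + L79.length = (nat_lit 1374) := by decide +kernel

/-- part of the certificates -/
def L80 : List Prf := [(.br (nat_lit 15) (nat_lit 0) (.cons (.kr (nat_lit 20361638979814120859043910123521) (nat_lit 2668840585286901401064676212747534336) (nat_lit 0) (nat_lit 1)) (.cons (.ev (nat_lit 1369125625367854557895757952770770338821) (nat_lit 3)) (.cons (.ev (nat_lit 348457119115377339916140320139252749959683) (nat_lit 3)) .nil)))),
 (.br (nat_lit 2) (nat_lit 0) (.cons (.rf (nat_lit 1365) (nat_lit 583591875111012684366912)) (.cons (.rf (nat_lit 1362) (nat_lit 583591875111012684366912)) (.cons (.rf (nat_lit 1373) (nat_lit 583591875111012684366912)) (.cons (.rf (nat_lit 1369) (nat_lit 583591875111012684366912)) (.cons (.ev (nat_lit 20520095314287382503277430178307) (nat_lit 2)) (.cons (.br (nat_lit 8) (nat_lit 0) (.cons (.ev (nat_lit 20520097732175915783624562049537) (nat_lit 2)) (.cons (.br (nat_lit 6) (nat_lit 0) (.cons (.ev (nat_lit 20520097732175915781434162283011) (nat_lit 2)) (.cons (.ev (nat_lit 10405113812383942784242399561383937)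 (nat_lit 2)) (.cons (.br (nat_lit 11) (nat_lit 0) (.cons (.kr (nat_lit 20283028578430573085101765165057) (nat_lit 2658456070799203185891567447102717952) (nat_lit 0) (nat_lit 1)) (.cons (.ev (nat_lit 340282387282577438573576009150424416513) (nat_lit 1)) (.cons (.br (nat_lit 15) (nat_lit 0) (.cons (.ev (nat_lit 340282366920939677111560704934883164416) (nat_lit 1)) (.cons (.ev (nat_lit 2658476830439551370975625403426800645) (nat_lit 3)) .nil))) .nil)))) (.cons (.br (nat_lit 11) (nat_lit 0) (.cons (.kr (nat_lit 20283028578430573085101765165057) (nat_lit 2658456070799203185891567447102717952) (nat_lit 0) (nat_lit 1)) (.cons (.br (nat_lit 15) (nat_lit 0) (.cons (.ev (nat_lit 1369115241410438687544156778914669660679) (nat_lit 4)) (.cons (.ev (nat_lit 2658476830439551370975625403426800645) (nat_lit 3)) .nil))) (.cons (.br (nat_lit 15) (nat_lit 0) (.cons (.ev (nat_lit 2679246017873690681776851847741833217) (nat_lit 3)) (.cons (.ev (nat_lit 1045360754635382684111303605863141712334351) (nat_lit 4)) .nil))) .nil)))) .nil))))) (.cons (.br (nat_lit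 6) (nat_lit 0) (.cons (.ev (nat_lit 20520097732175915781434162283011) (nat_lit 2)) (.cons (.ev (nat_lit 10404955975028933754139962823934467) (nat_lit 2)) (.cons (.br (nat_lit 7) (nat_lit 0) (.cons (.ev (nat_lit 2720784234916722479198067376798303755) (nat_lit 4)) (.cons (.ev (nat_lit 340287559297334650555902047533720994048) (nat_lit 1)) (.cons (.br (nat_lit 15) (nat_lit 0) (.cons (.ev (nat_lit 340287579500516086952495188423345176833) (nat_lit 1)) (.cons (.ev (nat_lit 7975388654499084111284025688483825155) (nat_lit 3)) .nil))) .nil)))) (.cons (.br (nat_lit 7) (nat_lit 0) (.cons (.rf (nat_lit 1) (nat_lit 581859891690721)) (.cons (.br (nat_lit 15) (nat_lit 0) (.cons (.ev (nat_lit 1379790604064794794494461823098074697219) (nat_lit 4)) (.cons (.ev (nat_lit 7975388654499084111284025688483825155) (nat_lit 3)) .nil))) (.cons (.br (nat_lit 15) (nat_lit 0) (.cons (.ev (nat_lit 7996157523782633325456538509473089027) (nat_lit 3)) (.cons (.ev (nat_lit 1045350162350109413981631477698985619096075) (nat_lit 4)) .nil))) .nil)))) .nil))))) (.cons (.kr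 (nat_lit 20361638979814120859043910123521) (nat_lit 2668840585286901401064676212747534336) (nat_lit 0) (nat_lit 1)) (.cons (.br (nat_lit 6) (nat_lit 0) (.cons (.ev (nat_lit 10405113814801831316396863966543875) (nat_lit 2)) (.cons (.ev (nat_lit 10404955977446822286294427229094401) (nat_lit 2)) (.cons (.br (nat_lit 7) (nat_lit 0) (.cons (.ev (nat_lit 2689630611590760336889241316620502533) (nat_lit 3)) (.cons (.ev (nat_lit 4102028769135043028302872604642583642127) (nat_lit 4)) (.cons (.br (nat_lit 11) (nat_lit 0) (.cons (.ev (nat_lit 1369177548178604988088729876392068122639) (nat_lit 4)) (.cons (.ev (nat_lit 10384673873696680683946381259440897) (nat_lit 2)) .nil))) .nil)))) (.cons (.br (nat_lit 7) (nat_lit 0) (.cons (.ev (nat_lit 20362260377167173913771623055361) (nat_lit 2)) (.cons (.ev (nat_lit 340287559217798211939261574495948767233) (nat_lit 1)) (.cons (.br (nat_lit 11) (nat_lit 0) (.cons (.ev (nat_lit 340287579500516086952495188423345176833) (nat_lit 1)) (.cons (.ev (nat_lit 10384673873696680683946381259440897) (nat_lit 2)) .nil)))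 .nil)))) (.cons (.br (nat_lit 16) (nat_lit 0) (.cons (.br (nat_lit 11) (nat_lit 0) (.cons (.ev (nat_lit 20362257959278640631216844439553) (nat_lit 2)) (.cons (.rf (nat_lit 1374) (nat_lit 677582165103132179601393696)) .nil))) (.cons (.br (nat_lit 15) (nat_lit 0) (.cons (.ev (nat_lit 20362257959278640631216844439553) (nat_lit 2)) (.cons (.ev (nat_lit 1369104856496090292973524318680049386501) (nat_lit 3)) .nil))) (.cons (.br (nat_lit 7) (nat_lit 0) (.cons (.ev (nat_lit 340282387203657552124938435145588867073) (nat_lit 1)) (.cons (.br (nat_lit 11) (nat_lit 0) (.cons (.ev (nat_lit 10384673873696680683946381259440897) (nat_lit 2)) .nil)) .nil))) (.cons (.ev (nat_lit 340282366920938468204188115850099687681) (nat_lit 1)) .nil))))) .nil)))))) (.cons (.br (nat_lit 6) (nat_lit 0) (.cons (.br (nat_lit 11) (nat_lit 0) (.cons (.rf (nat_lit 1) (nat_lit 581933006789825)) (.cons (.br (nat_lit 16) (nat_lit 0) (.cons (.ev (nat_lit 340287579500516086952495189518578614528) (nat_lit 1)) (.cons (.ev (nat_lit 340282387203658761069205075319154802688) (nat_lit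 1)) .nil))) (.cons (.rf (nat_lit 1321) (nat_lit 20001889129615120939785260)) .nil)))) (.cons (.br (nat_lit 7) (nat_lit 0) (.cons (.rf (nat_lit 1) (nat_lit 581932872576193)) (.cons (.br (nat_lit 16) (nat_lit 0) (.cons (.ev (nat_lit 340287579579434764457010238537924083713) (nat_lit 1)) (.cons (.ev (nat_lit 340282387203658761069205075319154802688) (nat_lit 1)) .nil))) (.cons (.br (nat_lit 15) (nat_lit 0) (.cons (.rf (nat_lit 246) (nat_lit 19534351506110111026369)) (.cons (.ev (nat_lit 87113615159756341052228991419010600927488) (nat_lit 1)) .nil))) .nil)))) (.cons (.br (nat_lit 7) (nat_lit 0) (.cons (.ev (nat_lit 2689630293435334463770432132133945857) (nat_lit 3)) (.cons (.br (nat_lit 11) (nat_lit 0) (.cons (.ev (nat_lit 340287559297335859463275199568457761025) (nat_lit 1)) (.cons (.br (nat_lit 16) (nat_lit 0) (.cons (.zr (nat_lit 1369135989440234737002298875042921972227) (nat_lit 20837006746084569424363333746688) (nat_lit 16) (nat_lit 1)) .nil)) .nil))) (.cons (.br (nat_lit 11) (nat_lit 0) (.cons (.br (nat_lit 16) (nat_lit 0) (.cons (.zr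 (nat_lit 1363798308823637892891307524590030422021) (nat_lit 60849086944107290751060752205312) (nat_lit 16) (nat_lit 2)) .nil)) (.cons (.ev (nat_lit 87113615159756341052228991419010600927488) (nat_lit 1)) .nil))) .nil)))) (.cons (.br (nat_lit 15) (nat_lit 0) (.cons (.br (nat_lit 11) (nat_lit 0) (.cons (.ev (nat_lit 20362257959278640631216844439553) (nat_lit 2)) (.cons (.rf (nat_lit 394) (nat_lit 19519471509175956353064)) .nil))) (.cons (.br (nat_lit 7) (nat_lit 0) (.cons (.ev (nat_lit 20362257959278640631216844439553) (nat_lit 2)) (.cons (.rf (nat_lit 425) (nat_lit 20667379226854316752129)) .nil))) (.cons (.ev (nat_lit 340282387282576229629309370072091918593) (nat_lit 1)) (.cons (.br (nat_lit 17) (nat_lit 0) (.cons (.ev (nat_lit 348457119115377339916140320143668043448839) (nat_lit 3)) (.cons (.ev (nat_lit 348451822972740704851303679592041600386053) (nat_lit 3)) (.cons (.ev (nat_lit 87113620372335300909901921879765209383168) (nat_lit 1)) .nil)))) .nil))))) (.cons (.br (nat_lit 7) (nat_lit 0) (.cons (.ev (nat_lit 20362260377167173913771623055361)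 (nat_lit 2)) (.cons (.br (nat_lit 11) (nat_lit 0) (.cons (.ev (nat_lit 20362257959278640631216844439553) (nat_lit 2)) (.cons (.ev (nat_lit 87113615159835259729733506470228969652225) (nat_lit 1)) .nil))) (.cons (.br (nat_lit 11) (nat_lit 0) (.cons (.ev (nat_lit 20362257959278640631216844439553) (nat_lit 2)) (.cons (.ev (nat_lit 680564754125218626589552192604866609408) (nat_lit 2)) (.cons (.rf (nat_lit 1374) (nat_lit 677582165103132179601393696)) .nil)))) (.cons (.br (nat_lit 15) (nat_lit 0) (.cons (.ev (nat_lit 87113615159756341052228991419010600927488) (nat_lit 1)) (.cons (.ev (nat_lit 348457139884564769219821054553055280891399) (nat_lit 3)) .nil))) .nil))))) .nil)))))) .nil))))))) .nil))))))),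
 (.br (nat_lit 2) (nat_lit 0) (.cons (.rf (nat_lit 1365) (nat_lit 583591875111012684366912)) (.cons (.rf (nat_lit 1362) (nat_lit 583591875111012684366912)) (.cons (.rf (nat_lit 1373) (nat_lit 583591875111012684366912)) (.cons (.rf (nat_lit 1369) (nat_lit 583591875111012684366912)) (.cons (.ev (nat_lit 20520095314287382503277430178307) (nat_lit 2)) (.cons (.br (nat_lit 8) (nat_lit 0) (.cons (.br (nat_lit 11) (nat_lit 0) (.cons (.br (nat_lit 14) (nat_lit 0) (.cons (.kr (nat_lit 10404876127882232747100672941359105) (nat_lit 79228167236775498601218572800) (nat_lit 0) (nat_lit 8)) (.cons (.rf (nat_lit 1) (nat_lit 582134736068801)) .nil))) (.cons (.ev (nat_lit 31174144649526172086924803622044677) (nat_lit 3)) (.cons (.br (nat_lit 7) (nat_lit 0) (.cons (.ev (nat_lit 5348086444701830239421840659191037957) (nat_lit 3)) (.cons (.ev (nat_lit 20362260377167173911563976310787) (nat_lit 2)) (.cons (.br (nat_lit 14) (nat_lit 0) (.cons (.ev (nat_lit 341611615278671839437854418305248395520) (nat_lit 1)) (.cons (.rf (nat_lit 648) (nat_lit 21157571818078028864855404))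 .nil))) .nil)))) (.cons (.br (nat_lit 7) (nat_lit 0) (.cons (.rf (nat_lit 1) (nat_lit 582034878079169)) (.cons (.br (nat_lit 16) (nat_lit 0) (.cons (.ev (nat_lit 341611594995952750776434705783798628353) (nat_lit 1)) (.cons (.ev (nat_lit 341611615278671844178667362674098110720) (nat_lit 1)) .nil))) (.cons (.ev (nat_lit 20362260377167173911563976310787) (nat_lit 2)) .nil)))) .nil))))) (.cons (.br (nat_lit 11) (nat_lit 0) (.cons (.kr (nat_lit 309485009893402662762709248) (nat_lit 20282409603651670423951563030528) (nat_lit 1) (nat_lit 0)) (.cons (.br (nat_lit 6) (nat_lit 0) (.cons (.ev (nat_lit 2689630611593178151636666870841607683) (nat_lit 3)) (.cons (.rf (nat_lit 1) (nat_lit 581863213605089)) .nil))) (.cons (.ev (nat_lit 2658476512286524496632557002928816641) (nat_lit 2)) (.cons (.br (nat_lit 14) (nat_lit 0) (.cons (.rf (nat_lit 1) (nat_lit 582028435634369)) (.cons (.rf (nat_lit 1297) (nat_lit 677242154715274859274930208)) (.cons (.br (nat_lit 6) (nat_lit 0) (.cons (.rf (nat_lit 656) (nat_lit 19523871489968799036769)) (.cons (.ev (nat_lit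 87112291144339824270113020084619455758593) (nat_lit 1)) .nil))) .nil)))) .nil))))) (.cons (.br (nat_lit 7) (nat_lit 0) (.cons (.kr (nat_lit 309485009893402662762709248) (nat_lit 20282409603651670423951563030528) (nat_lit 1) (nat_lit 0)) (.cons (.br (nat_lit 6) (nat_lit 0) (.cons (.ev (nat_lit 31174144649516764248012343446995969) (nat_lit 3)) (.cons (.rf (nat_lit 1) (nat_lit 581859891722465)) .nil))) (.cons (.ev (nat_lit 2658476353208821041699043338784735233) (nat_lit 2)) (.cons (.br (nat_lit 6) (nat_lit 0) (.cons (.rf (nat_lit 1) (nat_lit 581894251460801)) (.cons (.br (nat_lit 14) (nat_lit 0) (.cons (.ev (nat_lit 340282366920939677111560704934883164416) (nat_lit 1)) (.cons (.rf (nat_lit 1121) (nat_lit 21163362640027593122163147)) .nil))) (.cons (.br (nat_lit 14) (nat_lit 0) (.cons (.rf (nat_lit 450) (nat_lit 661663245031468038295823)) (.cons (.ev (nat_lit 87112291124057105181451600372098005991424) (nat_lit 1)) .nil))) .nil)))) .nil))))) (.cons (.kr (nat_lit 20361638979814120859043910123521) (nat_lit 2668840585286901401064676212747534336)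 (nat_lit 0) (nat_lit 1)) (.cons (.br (nat_lit 16) (nat_lit 0) (.cons (.ev (nat_lit 20520095304879543588626922209793) (nat_lit 2)) (.cons (.ev (nat_lit 341611594995952755517247651256471715840) (nat_lit 1)) (.cons (.ev (nat_lit 341611594917032864364546503634482954496) (nat_lit 1)) (.cons (.br (nat_lit 7) (nat_lit 0) (.cons (.ev (nat_lit 1361160642301913046053320080371378161159) (nat_lit 3)) (.cons (.ev (nat_lit 2658476512286524496632557002928816641) (nat_lit 2)) (.cons (.br (nat_lit 11) (nat_lit 0) (.cons (.kr (nat_lit 10384594337248600719366858811113473) (nat_lit 20361637770888301807364688969728) (nat_lit 0) (nat_lit 1)) (.cons (.ev (nat_lit 340282367000476110987532348791881531393) (nat_lit 1)) .nil))) .nil)))) (.cons (.br (nat_lit 7) (nat_lit 0) (.cons (.br (nat_lit 11) (nat_lit 0) (.cons (.ev (nat_lit 2658476512286533904472597536163496451) (nat_lit 2)) (.cons (.br (nat_lit 14) (nat_lit 0) (.cons (.zr (nat_lit 7486212072973700910250026613563650475017) (nat_lit 871122900957390620703342128773051478835200) (nat_lit 48) (nat_lit 2)) .nil))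 .nil))) (.cons (.ev (nat_lit 2658476512286524496632557002928816641) (nat_lit 2)) (.cons (.br (nat_lit 11) (nat_lit 0) (.cons (.ev (nat_lit 2658476353208811560073152410618429443) (nat_lit 2)) (.cons (.ev (nat_lit 340282367000476110987532348791881531393) (nat_lit 1)) .nil))) (.cons (.br (nat_lit 14) (nat_lit 0) (.cons (.ev (nat_lit 683223210195085733782902912139334320130) (nat_lit 2)) (.cons (.ev (nat_lit 340282367000476110987532348791881531393) (nat_lit 1)) (.cons (.br (nat_lit 6) (nat_lit 0) (.cons (.zr (nat_lit 174905136698775664640989816510513183457287) (nat_lit 10633824045507494220151199469979173888) (nat_lit 16) (nat_lit 8)) .nil)) .nil)))) .nil))))) .nil)))))) (.cons (.br (nat_lit 6) (nat_lit 0) (.cons (.br (nat_lit 11) (nat_lit 0) (.cons (.ev (nat_lit 2658476512286533904472597536163496451) (nat_lit 2)) (.cons (.br (nat_lit 14) (nat_lit 0) (.cons (.kr (nat_lit 79848346182237240417889288705) (nat_lit 2668860867696505052735100164327342080) (nat_lit 0) (nat_lit 2)) (.cons (.rf (nat_lit 467) (nat_lit 21169646609457071507245093)) .nil)))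 (.cons (.br (nat_lit 14) (nat_lit 0) (.cons (.br (nat_lit 16) (nat_lit 0) (.cons (.ev (nat_lit 1361160641986243152849648863288324653571) (nat_lit 3)) .nil)) (.cons (.kr (nat_lit 79848346182237240417889288705) (nat_lit 2668860867696505052735100164327342080) (nat_lit 0) (nat_lit 2)) .nil))) .nil)))) (.cons (.br (nat_lit 7) (nat_lit 0) (.cons (.ev (nat_lit 2658476353208811560073152410618429443) (nat_lit 2)) (.cons (.kr (nat_lit 620178945534362360662196481) (nat_lit 1329248278194519524574512486820151296) (nat_lit 0) (nat_lit 5)) (.cons (.br (nat_lit 14) (nat_lit 0) (.cons (.kr (nat_lit 10384594337248600719366858811113473) (nat_lit 20361637770888301807364688969728) (nat_lit 0) (nat_lit 1)) (.cons (.kr (nat_lit 79848346182237240417889288705) (nat_lit 2668860867696505052735100164327342080) (nat_lit 0) (nat_lit 2)) .nil))) .nil)))) (.cons (.br (nat_lit 7) (nat_lit 0) (.cons (.ev (nat_lit 2658476512286533904472597536163496451) (nat_lit 2)) (.cons (.br (nat_lit 11) (nat_lit 0) (.cons (.ev (nat_lit 4091436483703945205473144362072662869511) (nat_lit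 4)) (.cons (.br (nat_lit 16) (nat_lit 0) (.cons (.zr (nat_lit 1361129468080519695240804448078040924672) (nat_lit 2668941997334919770098948141593526273) (nat_lit 16) (nat_lit 7)) .nil)) .nil))) (.cons (.br (nat_lit 11) (nat_lit 0) (.cons (.br (nat_lit 16) (nat_lit 0) (.cons (.zr (nat_lit 1363798308269659748886182324544108233221) (nat_lit 60926458182505777380655142141952) (nat_lit 16) (nat_lit 1)) .nil)) (.cons (.ev (nat_lit 1045360733866515874052576777928418065911307) (nat_lit 4)) .nil))) .nil)))) (.cons (.br (nat_lit 11) (nat_lit 0) (.cons (.rf (nat_lit 572) (nat_lit 677580949920524941467419712)) (.cons (.rf (nat_lit 572) (nat_lit 677580941857955708567389248)) (.cons (.br (nat_lit 7) (nat_lit 0) (.cons (.ev (nat_lit 341611594995952750776434706887588446208) (nat_lit 1)) (.cons (.ev (nat_lit 341611615199132983006467640111359131648) (nat_lit 1)) .nil))) (.cons (.br (nat_lit 14) (nat_lit 0) (.cons (.rf (nat_lit 258) (nat_lit 19534242290416425700711)) (.cons (.ev (nat_lit 340282366920939677111560704934883164416) (nat_lit 1)) (.cons (.rf (nat_lit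 691) (nat_lit 20677048671682948079650)) .nil)))) .nil))))) (.cons (.ev (nat_lit 20520095304879543588626922209793) (nat_lit 2)) .nil)))))) .nil))))))) .nil))))))),
 (.br (nat_lit 11) (nat_lit 0) (.cons (.ev (nat_lit 2668860946925881215185535256691343873) (nat_lit 2)) (.cons (.ev (nat_lit 31174144654352393738364267421631489) (nat_lit 3)) (.cons (.br (nat_lit 15) (nat_lit 0) (.cons (.ev (nat_lit 340287579579434769197823185105797054465) (nat_lit 1)) (.cons (.ev (nat_lit 7975388812336448527864807984350888967) (nat_lit 3)) .nil))) .nil)))),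
 (.br (nat_lit 11) (nat_lit 0) (.cons (.ev (nat_lit 2668860946925881215185535256691343873) (nat_lit 2)) (.cons (.ev (nat_lit 341611594917032864364546503634482954496) (nat_lit 1)) (.cons (.br (nat_lit 14) (nat_lit 0) (.cons (.ev (nat_lit 2668860946928299103718817811402850817) (nat_lit 2)) (.cons (.rf (nat_lit 1294) (nat_lit 21157640813289369182183914)) .nil))) .nil)))),
 (.br (nat_lit 11) (nat_lit 0) (.cons (.ev (nat_lit 10405430732306481406369825776992775) (nat_lit 3)) (.cons (.ev (nat_lit 341611594917032864364546503634482954496) (nat_lit 1)) (.cons (.br (nat_lit 14) (nat_lit 0) (.cons (.ev (nat_lit 1361139873114483742520159623573682913799) (nat_lit 3)) (.cons (.rf (nat_lit 1021) (nat_lit 21174221252382064449271840)) .nil))) .nil)))),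
 (.br (nat_lit 11) (nat_lit 0) (.cons (.br (nat_lit 14) (nat_lit 0) (.cons (.kr (nat_lit 10384594336039711793239277527105537) (nat_lit 20361638979814120860143438528512) (nat_lit 0) (nat_lit 1)) (.cons (.ev (nat_lit 1361129487968338334036861035069508223746) (nat_lit 3)) (.cons (.br (nat_lit 15) (nat_lit 0) (.cons (.ev (nat_lit 341611594917032864364546504738306326785) (nat_lit 1)) (.cons (.ev (nat_lit 5337701453915507242639886383944107782) (nat_lit 3)) .nil))) .nil)))) (.cons (.ev (nat_lit 31174144654361949151233698072626177) (nat_lit 3)) (.cons (.br (nat_lit 7) (nat_lit 0) (.cons (.kr (nat_lit 10384594336039711793239277527105537) (nat_lit 20361638979814120860143438528512) (nat_lit 0) (nat_lit 1)) (.cons (.ev (nat_lit 20362257959278640631216844439553) (nat_lit 2)) (.cons (.br (nat_lit 14) (nat_lit 0) (.cons (.ev (nat_lit 341611615278671839437854418305248395520) (nat_lit 1)) (.cons (.rf (nat_lit 1039) (nat_lit 21169753507146107927541829)) .nil))) .nil)))) (.cons (.br (nat_lit 7) (nat_lit 0) (.cons (.ev (nat_lit 680564733922033544470693763743903514881)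 (nat_lit 2)) (.cons (.ev (nat_lit 20362257959278640631216844439553) (nat_lit 2)) (.cons (.br (nat_lit 14) (nat_lit 0) (.cons (.ev (nat_lit 341611594917034078012732601133302874368) (nat_lit 1)) (.cons (.rf (nat_lit 1361) (nat_lit 21174184404697174886196296)) .nil))) .nil)))) (.cons (.br (nat_lit 7) (nat_lit 0) (.cons (.br (nat_lit 15) (nat_lit 0) (.cons (.ev (nat_lit 1366477553968147284782671955466423501319) (nat_lit 3)) (.cons (.br (nat_lit 16) (nat_lit 0) (.cons (.ev (nat_lit 1366477553968142449005607646571972919811) (nat_lit 3)) .nil)) .nil))) (.cons (.br (nat_lit 16) (nat_lit 0) (.cons (.ev (nat_lit 341611615199134196654653738705378934785) (nat_lit 1)) (.cons (.ev (nat_lit 341611594917034073271919656764453159168) (nat_lit 1)) .nil))) (.cons (.br (nat_lit 14) (nat_lit 0) (.cons (.ev (nat_lit 341611594995952750776434705783798628353) (nat_lit 1)) (.cons (.rf (nat_lit 576) (nat_lit 21174406872744339471172832)) .nil))) (.cons (.ev (nat_lit 20362260377167173911563976310787) (nat_lit 2)) .nil))))) .nil))))))]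

theorem c80 : chkAll C T R L80 (nat_lit 1374) = true := by decide +kernel

theorem l80 : (nat_lit 1374) + L80.length = (nat_lit 1381) := by decide +kernel

/-- part of the certificates -/
def L81 : List Prf := [(.br (nat_lit 15) (nat_lit 0) (.cons (.ev (nat_lit 1334420292954144636173578733780730113) (nat_lit 1)) .nil)),
 (.br (nat_lit 7) (nat_lit 0) (.cons (.kr (nat_lit 310693935713018391449043200) (nat_lit 20282409603670117449500232581120) (nat_lit 1) (nat_lit 0)) (.cons (.br (nat_lit 8) (nat_lit 0) (.cons (.kr (nat_lit 79229371440083952222718656512) (nat_lit 1334420292643450700532337556609564672) (nat_lit 10) (nat_lit 0)) (.cons (.ev (nat_lit 340287559297334645815089102069637841153) (nat_lit 1)) (.cons (.br (nat_lit 15) (nat_lit 0) (.cons (.ev (nat_lit 2668861106001176263501015777861042177) (nat_lit 2)) (.cons (.rf (nat_lit 1381) (nat_lit 21174442622281864334903328)) .nil))) .nil)))) (.cons (.kr (nat_lit 80469729331152678043554677249) (nat_lit 2658516838798647423185931794814992384) (nat_lit 0) (nat_lit 8)) (.cons (.br (nat_lit 8)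 (nat_lit 0) (.cons (.ev (nat_lit 340287559297334645815089102069637841153) (nat_lit 1)) (.cons (.kr (nat_lit 79848341496620130507587321857) (nat_lit 2658476273979440119844522041280561152) (nat_lit 0) (nat_lit 1)) (.cons (.br (nat_lit 15) (nat_lit 0) (.cons (.ev (nat_lit 340287579579434764457010238537924083713) (nat_lit 1)) (.cons (.ev (nat_lit 1363787944353880160729320264865887290881) (nat_lit 3)) .nil))) .nil)))) (.cons (.br (nat_lit 8) (nat_lit 0) (.cons (.br (nat_lit 15) (nat_lit 0) (.cons (.ev (nat_lit 2668860946925890696812552101944099331) (nat_lit 2)) (.cons (.rf (nat_lit 1191) (nat_lit 21158600040637459643832777)) .nil))) (.cons (.kr (nat_lit 79848341496620130507587321857) (nat_lit 2658476273979440119844522041280561152) (nat_lit 0) (nat_lit 1)) (.cons (.br (nat_lit 15) (nat_lit 0) (.cons (.ev (nat_lit 340287579500516091693308133887428329728) (nat_lit 1)) (.cons (.ev (nat_lit 1363787944038205469527516606226344444421) (nat_lit 3)) .nil))) (.cons (.br (nat_lit 14) (nat_lit 0) (.cons (.ev (nat_lit 2668861106003594152034298332639657985)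 (nat_lit 2)) (.cons (.kr (nat_lit 10384594337248600719366858811113473) (nat_lit 20361637770888301807364688969728) (nat_lit 0) (nat_lit 1)) (.cons (.br (nat_lit 15) (nat_lit 0) (.cons (.ev (nat_lit 1369125625525691922460489152823910728197) (nat_lit 3)) .nil)) .nil)))) .nil))))) .nil)))))),
 (.br (nat_lit 7) (nat_lit 0) (.cons (.rf (nat_lit 1382) (nat_lit 19926404988945079479665728)) (.cons (.rf (nat_lit 1380) (nat_lit 19926404988945079479665728)) (.cons (.ev (nat_lit 2668860946925881215185537464270979587) (nat_lit 2)) (.cons (.br (nat_lit 8) (nat_lit 0) (.cons (.ev (nat_lit 1361139873114486160334904799552916947459) (nat_lit 3)) (.cons (.ev (nat_lit 341611615199132987710387661481766289408) (nat_lit 1)) (.cons (.br (nat_lit 15) (nat_lit 0) (.cons (.ev (nat_lit 20362257959278640631216844439553) (nat_lit 2)) (.cons (.ev (nat_lit 1363787944353880160729320264865887290881) (nat_lit 3)) .nil))) .nil)))) (.cons (.br (nat_lit 8) (nat_lit 0) (.cons (.br (nat_lit 15) (nat_lit 0) (.cons (.ev (nat_lit 340287579500516086952495188423345176833) (nat_lit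 1)) (.cons (.br (nat_lit 16) (nat_lit 0) (.cons (.ev (nat_lit 1369104856020102328905476173269120975363) (nat_lit 3)) .nil)) .nil))) (.cons (.br (nat_lit 11) (nat_lit 0) (.cons (.ev (nat_lit 341611615278671844178667363777921483009) (nat_lit 1)) (.cons (.ev (nat_lit 20362257949870801716566336471043) (nat_lit 2)) .nil))) (.cons (.ev (nat_lit 680564733841876931704456774392125391361) (nat_lit 2)) (.cons (.br (nat_lit 11) (nat_lit 0) (.cons (.ev (nat_lit 20362257949870801716566336471043) (nat_lit 2)) (.cons (.br (nat_lit 15) (nat_lit 0) (.cons (.ev (nat_lit 1363808713541314290484710871489031832071) (nat_lit 3)) .nil)) (.cons (.br (nat_lit 15) (nat_lit 0) (.cons (.ev (nat_lit 1369125625525691922460489152823910728197) (nat_lit 3)) .nil)) .nil)))) .nil))))) .nil)))))),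
 (.br (nat_lit 7) (nat_lit 0) (.cons (.kr (nat_lit 60847228815751165293960485797889) (nat_lit 2658456070801621037674914088256274944) (nat_lit 0) (nat_lit 11)) (.cons (.rf (nat_lit 1380) (nat_lit 19926404988945079479665728)) (.cons (.ev (nat_lit 2668860946925881215185537464270979587) (nat_lit 2)) (.cons (.ev (nat_lit 341611615199134191913840793241295781888) (nat_lit 1)) (.cons (.br (nat_lit 8) (nat_lit 0) (.cons (.br (nat_lit 14) (nat_lit 0) (.cons (.ev (nat_lit 2668860946928299103718815621003084291) (nat_lit 2)) (.cons (.rf (nat_lit 358) (nat_lit 19986542637597277309377731)) .nil))) (.cons (.br (nat_lit 11) (nat_lit 0) (.cons (.ev (nat_lit 341611594917034078012732601133302874368) (nat_lit 1)) (.cons (.ev (nat_lit 20362257949870801716566336471043) (nat_lit 2)) .nil))) (.cons (.ev (nat_lit 20520095304879543588626922209793) (nat_lit 2)) (.cons (.br (nat_lit 11) (nat_lit 0) (.cons (.ev (nat_lit 20362257949870801716566336471043) (nat_lit 2)) (.cons (.ev (nat_lit 341611594995952755517247652351671599105) (nat_lit 1)) (.cons (.ev (nat_lit 87113615180038442375074365687238383108096)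 (nat_lit 1)) .nil)))) .nil))))) .nil)))))),
 (.br (nat_lit 15) (nat_lit 0) (.cons (.ev (nat_lit 20362257949870801716566336471043) (nat_lit 2)) (.cons (.ev (nat_lit 7996157523782623917615372059151697409) (nat_lit 3)) (.cons (.ev (nat_lit 7975388812336448527864807984350888967) (nat_lit 3)) .nil)))),
 (.br (nat_lit 7) (nat_lit 0) (.cons (.rf (nat_lit 1382) (nat_lit 19926404988945079479665728)) (.cons (.rf (nat_lit 1380) (nat_lit 19926404988945079479665728)) (.cons (.rf (nat_lit 1383) (nat_lit 19926404988945079479665728)) (.cons (.ev (nat_lit 341611615199134191913840793241295781888) (nat_lit 1)) (.cons (.br (nat_lit 8) (nat_lit 0) (.cons (.br (nat_lit 14) (nat_lit 0) (.cons (.ev (nat_lit 31174144647098949500580183733961729) (nat_lit 3)) (.cons (.rf (nat_lit 1372) (nat_lit 21174184404697174886196296)) .nil))) (.cons (.br (nat_lit 11) (nat_lit 0) (.cons (.ev (nat_lit 683233574585622575985689356141248709123) (nat_lit 2)) (.cons (.br (nat_lit 15) (nat_lit 0) (.cons (.ev (nat_lit 7975388812336448527864807984350888967) (nat_lit 3)) .nil)) .nil)))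 (.cons (.ev (nat_lit 20520095304879543588626922209793) (nat_lit 2)) (.cons (.br (nat_lit 11) (nat_lit 0) (.cons (.rf (nat_lit 1385) (nat_lit 677582165103132179601393696)) (.cons (.ev (nat_lit 341611615199132983006467640111359131648) (nat_lit 1)) (.cons (.br (nat_lit 14) (nat_lit 0) (.cons (.ev (nat_lit 7975388812336429712186978683334951939) (nat_lit 3)) .nil)) .nil)))) .nil))))) .nil)))))),
 (.br (nat_lit 11) (nat_lit 0) (.cons (.ev (nat_lit 20362257949870801716566336471043) (nat_lit 2)) (.cons (.br (nat_lit 15) (nat_lit 0) (.cons (.ev (nat_lit 7996157684095849449515133048484922369) (nat_lit 3)) .nil)) (.cons (.rf (nat_lit 1385) (nat_lit 677582050859303350519825472)) .nil)))),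
 (.br (nat_lit 15) (nat_lit 0) (.cons (.rf (nat_lit 1) (nat_lit 581726847088902)) (.cons (.br (nat_lit 11) (nat_lit 0) (.cons (.ev (nat_lit 2679245699723091177306980570053477379) (nat_lit 3)) (.cons (.ev (nat_lit 5327317257267709891872396071208616965) (nat_lit 3)) .nil))) (.cons (.kr (nat_lit 20282409603670117449495937613824) (nat_lit 1334420292643450700532338656137969664) (nat_lit 2) (nat_lit 0)) .nil)))),
 (.br (nat_lit 14) (nat_lit 0) (.cons (.rf (nat_lit 1) (nat_lit 581725773348102)) (.cons (.ev (nat_lit 2668860946928299103718817811402850817) (nat_lit 2)) (.cons (.br (nat_lit 11) (nat_lit 0) (.cons (.rf (nat_lit 2) (nat_lit 20188691619310189830)) (.cons (.ev (nat_lit 87113620352053200791260144857381225955328) (nat_lit 1)) .nil))) .nil)))),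
 (.br (nat_lit 15) (nat_lit 0) (.cons (.kr (nat_lit 20361637770925195295507813105665) (nat_lit 2668840585288110326884290846250762240) (nat_lit 0) (nat_lit 1)) (.cons (.ev (nat_lit 2668861106001185745128032605933928451) (nat_lit 2)) .nil))),
 (.br (nat_lit 11) (nat_lit 0) (.cons (.rf (nat_lit 1388) (nat_lit 640105350451249846103934016)) (.cons (.rf (nat_lit 1389) (nat_lit 640105350451249846103934016)) (.cons (.br (nat_lit 14) (nat_lit 0) (.cons (.ev (nat_lit 1369125625367854548487919042535488488451) (nat_lit 3)) (.cons (.br (nat_lit 15) (nat_lit 0) (.cons (.ev (nat_lit 2668861106001185745128032605933928451) (nat_lit 2)) .nil)) .nil))) (.cons (.br (nat_lit 14) (nat_lit 0) (.cons (.ev (nat_lit 1334481220032510754654560591053652225) (nat_lit 2)) (.cons (.rf (nat_lit 1390) (nat_lit 677582165103132179601393696)) (.cons (.rf (nat_lit 1390) (nat_lit 640105350451249846103934016)) .nil)))) .nil))))),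
 (.br (nat_lit 15) (nat_lit 0) (.cons (.ev (nat_lit 1361160642301913046053320075990511519239) (nat_lit 3)) (.cons (.ev (nat_lit 2668861106001185745128032605933928451) (nat_lit 2)) .nil))),
 (.br (nat_lit 15) (nat_lit 0) (.cons (.ev (nat_lit 5348086602539194803576577735201392135) (nat_lit 3)) (.cons (.ev (nat_lit 5348086284388623523199906746181353987) (nat_lit 3)) .nil))),
 (.br (nat_lit 7) (nat_lit 0) (.cons (.br (nat_lit 14) (nat_lit 0) (.cons (.kr (nat_lit 10384594336039711793239277527105537) (nat_lit 20361638979814120860143438528512) (nat_lit 0) (nat_lit 1)) (.cons (.rf (nat_lit 1393) (nat_lit 677582165103132179601393696)) (.cons (.rf (nat_lit 1393) (nat_lit 640105350451249846103934016)) .nil)))) (.cons (.br (nat_lit 11) (nat_lit 0) (.cons (.kr (nat_lit 10384594336039711793239277527105537) (nat_lit 20361638979814120860143438528512) (nat_lit 0) (nat_lit 1)) (.cons (.br (nat_lit 15) (nat_lit 0) (.cons (.ev (nat_lit 340282367000477319931798987870230806528) (nat_lit 1)) (.cons (.ev (nat_lit 2668840664826966776861647935000150787) (nat_lit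 2)) .nil))) (.cons (.br (nat_lit 17) (nat_lit 0) (.cons (.ev (nat_lit 348449154131998201963949619004982203645953) (nat_lit 3)) (.cons (.ev (nat_lit 348449154132313881509596595348411869430785) (nat_lit 3)) .nil))) .nil)))) (.cons (.br (nat_lit 11) (nat_lit 0) (.cons (.ev (nat_lit 31174460324236190147129677096943617) (nat_lit 3)) (.cons (.br (nat_lit 14) (nat_lit 0) (.cons (.ev (nat_lit 340282387203657556865751943559642087425) (nat_lit 1)) (.cons (.rf (nat_lit 2) (nat_lit 20188691619310222566)) .nil))) (.cons (.ev (nat_lit 20362257959278640631216844439553) (nat_lit 2)) .nil)))) (.cons (.br (nat_lit 16) (nat_lit 0) (.cons (.ev (nat_lit 20362260377167173911563976310787) (nat_lit 2)) (.cons (.ev (nat_lit 340282366920938468204188115850116464896) (nat_lit 1)) (.cons (.br (nat_lit 11) (nat_lit 0) (.cons (.ev (nat_lit 1363808692943535858769927126084378167041) (nat_lit 3)) (.cons (.ev (nat_lit 340282367000477324635718446290718228480) (nat_lit 1)) .nil))) (.cons (.br (nat_lit 11) (nat_lit 0) (.cons (.ev (nat_lit 1361139872956648805325586466740027786241)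 (nat_lit 3)) (.cons (.ev (nat_lit 340282367000477324635718446290718228480) (nat_lit 1)) (.cons (.ev (nat_lit 340282387203658761069205074223938142208) (nat_lit 1)) .nil)))) .nil))))) (.cons (.br (nat_lit 11) (nat_lit 0) (.cons (.ev (nat_lit 31174460329071967211438571547525125) (nat_lit 3)) (.cons (.ev (nat_lit 20362257959278640631216844439553) (nat_lit 2)) (.cons (.br (nat_lit 14) (nat_lit 0) (.cons (.rf (nat_lit 2) (nat_lit 20188691619302882758)) (.cons (.ev (nat_lit 340282367000476110987532347688074936321) (nat_lit 1)) (.cons (.rf (nat_lit 1359) (nat_lit 640105464695070978604108032)) .nil)))) (.cons (.ev (nat_lit 20362260377167173911563976310787) (nat_lit 2)) .nil))))) .nil)))))),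
 (.br (nat_lit 8) (nat_lit 0) (.cons (.br (nat_lit 14) (nat_lit 0) (.cons (.kr (nat_lit 10384594336039711793239277527105537) (nat_lit 20361638979814120860143438528512) (nat_lit 0) (nat_lit 1)) (.cons (.kr (nat_lit 10404876126673343820973091640573953) (nat_lit 79229376162594551379951354368) (nat_lit 0) (nat_lit 2)) (.cons (.kr (nat_lit 10384594337248600719366858811113473) (nat_lit 20361637770888301807364688969728) (nat_lit 0) (nat_lit 1)) .nil)))) (.cons (.br (nat_lit 15) (nat_lit 0) (.cons (.kr (nat_lit 79229371440083952222718656512) (nat_lit 1334420292643450700532337556609564672) (nat_lit 10) (nat_lit 0)) (.cons (.ev (nat_lit 2668860946925890696812552101944099331) (nat_lit 2)) (.cons (.br (nat_lit 7) (nat_lit 0) (.cons (.rf (nat_lit 246) (nat_lit 20678049638680102997192)) (.cons (.ev (nat_lit 87113620352053199587056691726725486280705) (nat_lit 1)) .nil))) .nil)))) (.cons (.kr (nat_lit 79848341496620130507587321857) (nat_lit 2658476273979440119844522041280561152) (nat_lit 0) (nat_lit 1)) (.cons (.br (nat_lit 14) (nat_lit 0) (.cons (.br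 (nat_lit 15) (nat_lit 0) (.cons (.ev (nat_lit 340282387203657556865751943559642087425) (nat_lit 1)) (.cons (.ev (nat_lit 2668861106001176263501015777861042177) (nat_lit 2)) .nil))) (.cons (.br (nat_lit 7) (nat_lit 0) (.cons (.ev (nat_lit 2668861106003594152034298332639657985) (nat_lit 2)) (.cons (.rf (nat_lit 1299) (nat_lit 21158983166361153511430601)) .nil))) (.cons (.br (nat_lit 7) (nat_lit 0) (.cons (.ev (nat_lit 340282387203657556865751943559642087425) (nat_lit 1)) (.cons (.br (nat_lit 15) (nat_lit 0) (.cons (.ev (nat_lit 1363808713225639608837741367537623631361) (nat_lit 3)) .nil)) .nil))) (.cons (.kr (nat_lit 10384594337248600719366858811113473) (nat_lit 20361637770888301807364688969728) (nat_lit 0) (nat_lit 1)) .nil))))) (.cons (.br (nat_lit 17) (nat_lit 0) (.cons (.br (nat_lit 14) (nat_lit 0) (.cons (.ev (nat_lit 2668861106003594152034298332639657985) (nat_lit 2)) (.cons (.br (nat_lit 15) (nat_lit 0) (.cons (.ev (nat_lit 1369104856338257783149687930760328119809) (nat_lit 3)) .nil)) .nil))) (.cons (.kr (nat_lit 10384594337248600719366858811113473)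 (nat_lit 20361637770888301807364688969728) (nat_lit 0) (nat_lit 1)) (.cons (.br (nat_lit 7) (nat_lit 0) (.cons (.ev (nat_lit 2668861106001176263501015777861042177) (nat_lit 2)) (.cons (.ev (nat_lit 348457119115695490496828533473092531652101) (nat_lit 3)) .nil))) (.cons (.ev (nat_lit 87112285952121885626438020362671805759745) (nat_lit 1)) .nil))))) .nil)))))),
 (.br (nat_lit 15) (nat_lit 0) (.cons (.ev (nat_lit 20520095304879543588626922209793) (nat_lit 2)) (.cons (.ev (nat_lit 7975388496661738510381063863179411459) (nat_lit 3)) (.cons (.ev (nat_lit 1369104856020102357276566865360734913025) (nat_lit 3)) .nil)))),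
 (.br (nat_lit 7) (nat_lit 0) (.cons (.rf (nat_lit 1395) (nat_lit 640105350451249846103934016)) (.cons (.rf (nat_lit 1394) (nat_lit 640105350451249846103934016)) (.cons (.br (nat_lit 8) (nat_lit 0) (.cons (.rf (nat_lit 1) (nat_lit 581722451688678)) (.cons (.ev (nat_lit 2668860946925890696812554292343865857) (nat_lit 2)) (.cons (.br (nat_lit 11) (nat_lit 0) (.cons (.rf (nat_lit 2) (nat_lit 20188691619304127718)) (.cons (.ev (nat_lit 174224571883882751238414681266514020073474) (nat_lit 2)) .nil))) .nil)))) (.cons (.br (nat_lit 11) (nat_lit 0) (.cons (.br (nat_lit 15) (nat_lit 0) (.cons (.ev (nat_lit 1366456785098863744976340598075036795399) (nat_lit 3)) (.cons (.br (nat_lit 16) (nat_lit 0) (.cons (.ev (nat_lit 681899154372208496725240969712157917698) (nat_lit 2)) .nil)) .nil))) (.cons (.kr (nat_lit 20282409608374036906816896499712) (nat_lit 1334420292643450700532337556609564672) (nat_lit 9) (nat_lit 0)) (.cons (.br (nat_lit 8) (nat_lit 0) (.cons (.ev (nat_lit 20362257949870801716566336471043) (nat_lit 2)) (.cons (.ev (nat_lit 680564754361974644917118522127192097280)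 (nat_lit 2)) .nil))) (.cons (.br (nat_lit 15) (nat_lit 0) (.cons (.rf (nat_lit 138) (nat_lit 21169757189855822534051076)) (.cons (.ev (nat_lit 340282367000477324635718446290718228480) (nat_lit 1)) (.cons (.ev (nat_lit 348451802203395433356984710711285148680711) (nat_lit 3)) .nil)))) .nil))))) (.cons (.br (nat_lit 8) (nat_lit 0) (.cons (.br (nat_lit 15) (nat_lit 0) (.cons (.br (nat_lit 16) (nat_lit 0) (.cons (.ev (nat_lit 1363787944038200624342611126466346615303) (nat_lit 3)) .nil)) (.cons (.ev (nat_lit 87112285931839785503092323882971141505025) (nat_lit 1)) .nil))) (.cons (.br (nat_lit 11) (nat_lit 0) (.cons (.rf (nat_lit 2) (nat_lit 20188691619303079174)) (.cons (.ev (nat_lit 20362257949870801716566336471043) (nat_lit 2)) .nil))) (.cons (.br (nat_lit 11) (nat_lit 0) (.cons (.ev (nat_lit 20362257959278640631216844439553) (nat_lit 2)) (.cons (.rf (nat_lit 1396) (nat_lit 677582165103132179601393696)) (.cons (.br (nat_lit 15) (nat_lit 0) (.cons (.ev (nat_lit 1363787944038200624342611126466346615303) (nat_lit 3)) .nil)) .nil)))) (.cons (.ev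 (nat_lit 10405113814787645771048593366515712) (nat_lit 2)) .nil))))) .nil))))))]

theorem c81 : chkAll C T R L81 (nat_lit 1381) = true := by decide +kernel

theorem l81 : (nat_lit 1381) + L81.length = (nat_lit 1398) := by decide +kernel

/-- part of the certificates -/
def L82 : List Prf := [(.br (nat_lit 14) (nat_lit 0) (.cons (.ev (nat_lit 1329227995786129521161963256944852993) (nat_lit 1)) .nil)),
 (.br (nat_lit 15) (nat_lit 0) (.cons (.ev (nat_lit 1329228075014287331506843525251596288) (nat_lit 1)) .nil)),
 (.br (nat_lit 7) (nat_lit 0) (.cons (.rf (nat_lit 1395) (nat_lit 640105350451249846103934016)) (.cons (.rf (nat_lit 1394) (nat_lit 640105350451249846103934016)) (.cons (.rf (nat_lit 1397) (nat_lit 640105350451249846103934016)) (.cons (.br (nat_lit 8) (nat_lit 0) (.cons (.br (nat_lit 14) (nat_lit 0) (.cons (.ev (nat_lit 2668860946928299103718815621003084291) (nat_lit 2)) (.cons (.rf (nat_lit 1398) (nat_lit 661701333106257559652384)) .nil))) (.cons (.br (nat_lit 11) (nat_lit 0) (.cons (.ev (nat_lit 20362257949870801716566336471043)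 (nat_lit 2)) (.cons (.rf (nat_lit 1399) (nat_lit 21174442659472880612543553)) .nil))) (.cons (.ev (nat_lit 20520095304879543588626922209793) (nat_lit 2)) (.cons (.br (nat_lit 14) (nat_lit 0) (.cons (.ev (nat_lit 10404877056351429383206140144255746) (nat_lit 2)) (.cons (.rf (nat_lit 685) (nat_lit 21169240681861683749394889)) (.cons (.rf (nat_lit 725) (nat_lit 624607911175046296777158)) .nil)))) .nil))))) (.cons (.br (nat_lit 8) (nat_lit 0) (.cons (.br (nat_lit 14) (nat_lit 0) (.cons (.ev (nat_lit 2668860946928299103718815621003084291) (nat_lit 2)) (.cons (.ev (nat_lit 87112285931839785503092323882971141505025) (nat_lit 1)) .nil))) (.cons (.br (nat_lit 11) (nat_lit 0) (.cons (.rf (nat_lit 2) (nat_lit 20188691619303110918)) (.cons (.ev (nat_lit 20362257949870801716566336471043) (nat_lit 2)) .nil))) (.cons (.ev (nat_lit 20520095304879543588626922209793) (nat_lit 2)) (.cons (.br (nat_lit 11) (nat_lit 0) (.cons (.ev (nat_lit 20362257949870801716566336471043) (nat_lit 2)) (.cons (.rf (nat_lit 554) (nat_lit 19532988697743177780424)) .nil)))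 .nil))))) .nil)))))),
 (.br (nat_lit 17) (nat_lit 0) (.cons (.ev (nat_lit 349812931671394861911447853966067725501957) (nat_lit 3)) (.cons (.ev (nat_lit 349812931671237024565846951004276781350917) (nat_lit 3)) (.cons (.ev (nat_lit 174905136617882465534461930723206324421121) (nat_lit 2)) .nil)))),
 (.br (nat_lit 7) (nat_lit 0) (.cons (.rf (nat_lit 1395) (nat_lit 640105350451249846103934016)) (.cons (.rf (nat_lit 1394) (nat_lit 640105350451249846103934016)) (.cons (.rf (nat_lit 1397) (nat_lit 640105350451249846103934016)) (.cons (.rf (nat_lit 1400) (nat_lit 640105350451249846103934016)) (.cons (.br (nat_lit 8) (nat_lit 0) (.cons (.br (nat_lit 14) (nat_lit 0) (.cons (.ev (nat_lit 5327316939114683017818686145792311301) (nat_lit 3)) (.cons (.br (nat_lit 15) (nat_lit 0) (.cons (.ev (nat_lit 2668861106001185745128034813580673025) (nat_lit 2)) .nil)) .nil))) (.cons (.br (nat_lit 11) (nat_lit 0) (.cons (.ev (nat_lit 20362257949870801716566336471043) (nat_lit 2)) (.cons (.br (nat_lit 15) (nat_lit 0) (.cons (.ev (nat_lit 7975388812336429712186978683334951939)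 (nat_lit 3)) .nil)) .nil))) (.cons (.ev (nat_lit 20520095304879543588626922209793) (nat_lit 2)) (.cons (.br (nat_lit 17) (nat_lit 0) (.cons (.rf (nat_lit 1396) (nat_lit 640105350451249846103934016)) (.cons (.ev (nat_lit 87112285931760246651364713010950993608961) (nat_lit 1)) (.cons (.ev (nat_lit 349812931671394861911447853966067725501957) (nat_lit 3)) .nil)))) .nil))))) (.cons (.br (nat_lit 15) (nat_lit 0) (.cons (.ev (nat_lit 20520095304879543588626922209793) (nat_lit 2)) (.cons (.ev (nat_lit 20362257959278640631216844439553) (nat_lit 2)) (.cons (.ev (nat_lit 2679245857555619817399919139067396615) (nat_lit 3)) (.cons (.rf (nat_lit 1401) (nat_lit 677582165103132179601393696)) (.cons (.rf (nat_lit 1401) (nat_lit 640105350451249846103934016)) .nil)))))) .nil))))))),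
 (.br (nat_lit 14) (nat_lit 0) (.cons (.ev (nat_lit 680575118435596419174603691683789996035) (nat_lit 2)) (.cons (.kr (nat_lit 20282720302309749924108833915136) (nat_lit 2668840585286901401064675117530873856) (nat_lit 1) (nat_lit 0)) (.cons (.ev (nat_lit 174905136617882465534461930723206324421121) (nat_lit 2)) .nil)))),
 (.br (nat_lit 11) (nat_lit 0) (.cons (.kr (nat_lit 2668840664515063915329013810586451969) (nat_lit 20283029787319643326771596624384) (nat_lit 0) (nat_lit 2)) (.cons (.ev (nat_lit 20362260377167173911563976310787) (nat_lit 2)) (.cons (.br (nat_lit 15) (nat_lit 0) (.cons (.ev (nat_lit 2658476511667563884974024794403111425) (nat_lit 2)) (.cons (.rf (nat_lit 295) (nat_lit 19517886120173000667343)) .nil))) .nil)))),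
 (.br (nat_lit 7) (nat_lit 0) (.cons (.br (nat_lit 14) (nat_lit 0) (.cons (.kr (nat_lit 1329227996094400882725433603981836544) (nat_lit 5192296858534846147332164076765184) (nat_lit 1) (nat_lit 0)) (.cons (.br (nat_lit 15) (nat_lit 0) (.cons (.ev (nat_lit 2668860946925881215185537464304534017) (nat_lit 2)) (.cons (.rf (nat_lit 1) (nat_lit 582169107964097)) .nil))) .nil))) (.cons (.br (nat_lit 11) (nat_lit 0) (.cons (.ev (nat_lit 31174460948060802390090206457233415) (nat_lit 3)) (.cons (.br (nat_lit 15) (nat_lit 0) (.cons (.kr (nat_lit 2668860867696505052735100164293787649) (nat_lit 79848346182237240417889288704) (nat_lit 0) (nat_lit 2)) (.cons (.rf (nat_lit 1) (nat_lit 582172326043841)) .nil))) .nil))) (.cons (.br (nat_lit 11) (nat_lit 0) (.cons (.kr (nat_lit 1329227996094400882725433603981836544) (nat_lit 5192296858534846147332164076765184) (nat_lit 1) (nat_lit 0)) (.cons (.br (nat_lit 14) (nat_lit 0) (.cons (.ev (nat_lit 10405114431344554442774608053534723) (nat_lit 2)) (.cons (.rf (nat_lit 1) (nat_lit 582139040047297)) .nil))) .nil)))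 (.cons (.br (nat_lit 16) (nat_lit 0) (.cons (.ev (nat_lit 20362260377167173911563976310787) (nat_lit 2)) (.cons (.rf (nat_lit 1404) (nat_lit 19926519232773908561233952)) (.cons (.ev (nat_lit 2658476511667563884974024794403111425) (nat_lit 2)) (.cons (.br (nat_lit 16) (nat_lit 0) (.cons (.ev (nat_lit 20362260377167173911563976310787) (nat_lit 2)) (.cons (.rf (nat_lit 1404) (nat_lit 19926519232773908561233952)) (.cons (.ev (nat_lit 2658476511667563884974024794403111425) (nat_lit 2)) .nil)))) .nil))))) .nil))))),
 (.br (nat_lit 14) (nat_lit 0) (.cons (.kr (nat_lit 20361637770888301245514263822337) (nat_lit 620178945606419954700124672) (nat_lit 0) (nat_lit 2)) (.cons (.kr (nat_lit 20282410817299856522549894578177) (nat_lit 79228162551158388690916605952) (nat_lit 0) (nat_lit 1)) (.cons (.ev (nat_lit 2679245859417346689708166610046681607) (nat_lit 3)) (.cons (.br (nat_lit 16) (nat_lit 0) (.cons (.ev (nat_lit 10404955358467321161828532475789827) (nat_lit 2)) (.cons (.ev (nat_lit 10405114431344554442774608053534723) (nat_lit 2)) (.cons (.ev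 (nat_lit 2668860946925881215185537464304534017) (nat_lit 2)) (.cons (.br (nat_lit 16) (nat_lit 0) (.cons (.ev (nat_lit 10404955358467321161828532475789827) (nat_lit 2)) (.cons (.ev (nat_lit 10405114431344554442774608053534723) (nat_lit 2)) (.cons (.ev (nat_lit 2668860946925881215185537464304534017) (nat_lit 2)) .nil)))) .nil))))) .nil))))),
 (.br (nat_lit 7) (nat_lit 0) (.cons (.rf (nat_lit 1406) (nat_lit 546993534868772933960768)) (.cons (.rf (nat_lit 1405) (nat_lit 546993534868772933960768)) (.cons (.kr (nat_lit 79228162514264619068520660992) (nat_lit 5192296858534827700588090367148032) (nat_lit 6) (nat_lit 0)) (.cons (.br (nat_lit 8) (nat_lit 0) (.cons (.kr (nat_lit 309489732187827938369995008) (nat_lit 5192296858534846075274570038837248) (nat_lit 1) (nat_lit 0)) (.cons (.br (nat_lit 11) (nat_lit 0) (.cons (.ev (nat_lit 20362257949870801716566336471043) (nat_lit 2)) (.cons (.rf (nat_lit 1) (nat_lit 582035990198465)) .nil))) (.cons (.br (nat_lit 11) (nat_lit 0) (.cons (.ev (nat_lit 20362257949870801716566336471043) (nat_lit 2)) (.cons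 (.ev (nat_lit 10405114431344554442774608053534723) (nat_lit 2)) (.cons (.br (nat_lit 15) (nat_lit 0) (.cons (.ev (nat_lit 341611615278362359168918076303234564352) (nat_lit 1)) (.cons (.rf (nat_lit 425) (nat_lit 19534396293274012910854)) .nil))) .nil)))) (.cons (.br (nat_lit 11) (nat_lit 0) (.cons (.rf (nat_lit 1) (nat_lit 581933011646657)) (.cons (.br (nat_lit 15) (nat_lit 0) (.cons (.ev (nat_lit 341616807575530374265554724924933865472) (nat_lit 1)) (.cons (.br (nat_lit 16) (nat_lit 0) (.cons (.ev (nat_lit 341611594996261031582730861498939277313) (nat_lit 1)) .nil)) .nil))) (.cons (.ev (nat_lit 10405114431344554442774608053534723) (nat_lit 2)) .nil)))) .nil))))) .nil))))),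
 (.br (nat_lit 7) (nat_lit 0) (.cons (.kr (nat_lit 79229376162450436196187242497) (nat_lit 20282409603688564475044623941632) (nat_lit 0) (nat_lit 1)) (.cons (.rf (nat_lit 1405) (nat_lit 546993534868772933960768)) (.cons (.ev (nat_lit 10404955356058914255567221063549441) (nat_lit 2)) (.cons (.br (nat_lit 8) (nat_lit 0) (.cons (.ev (nat_lit 2658476353827791061197620495805054977) (nat_lit 2)) (.cons (.br (nat_lit 11) (nat_lit 0) (.cons (.ev (nat_lit 20362257949870801716566336471043) (nat_lit 2)) (.cons (.rf (nat_lit 1) (nat_lit 582034916457665)) .nil))) (.cons (.br (nat_lit 11) (nat_lit 0) (.cons (.ev (nat_lit 20362257949870801716566336471043) (nat_lit 2)) (.cons (.ev (nat_lit 341611594996262235786183993258468769793) (nat_lit 1)) (.cons (.br (nat_lit 14) (nat_lit 0) (.cons (.kr (nat_lit 2668840585288110326884290846217207809) (nat_lit 20361637770925195295507813105664) (nat_lit 0) (nat_lit 1)) (.cons (.br (nat_lit 16) (nat_lit 0) (.cons (.ev (nat_lit 1366477553970004194841167673708884525573) (nat_lit 3)) .nil)) .nil))) .nil)))) (.cons (.br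 (nat_lit 14) (nat_lit 0) (.cons (.rf (nat_lit 1) (nat_lit 581931937905857)) (.cons (.br (nat_lit 11) (nat_lit 0) (.cons (.ev (nat_lit 1366477554285678923674907955267962668549) (nat_lit 3)) (.cons (.rf (nat_lit 295) (nat_lit 19517886366463605289160)) .nil))) (.cons (.kr (nat_lit 2668840585288110326884290846217207809) (nat_lit 20361637770925195295507813105664) (nat_lit 0) (nat_lit 1)) .nil)))) .nil))))) .nil))))),
 (.br (nat_lit 15) (nat_lit 0) (.cons (.ev (nat_lit 20362257949870801716566336471043) (nat_lit 2)) (.cons (.kr (nat_lit 2668840585286906123431159086687715329) (nat_lit 20361638975128648427267342598144) (nat_lit 0) (nat_lit 1)) (.cons (.rf (nat_lit 643) (nat_lit 677077560324195874663381193)) .nil)))),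
 (.br (nat_lit 11) (nat_lit 0) (.cons (.ev (nat_lit 10404955358467321161828532475789827) (nat_lit 2)) (.cons (.ev (nat_lit 341611594996262235786183993258468769793) (nat_lit 1)) (.cons (.br (nat_lit 14) (nat_lit 0) (.cons (.ev (nat_lit 1363808713382860383418213101091705455619) (nat_lit 3)) (.cons (.br (nat_lit 15) (nat_lit 0) (.cons (.ev (nat_lit 2668860946925881215185537464304534017) (nat_lit 2)) .nil)) .nil))) .nil)))),
 (.br (nat_lit 15) (nat_lit 0) (.cons (.ev (nat_lit 10405114433771850814969605693374467) (nat_lit 2)) (.cons (.kr (nat_lit 2668840585286906123431159086687715329) (nat_lit 20361638975128648427267342598144) (nat_lit 0) (nat_lit 1)) (.cons (.br (nat_lit 11) (nat_lit 0) (.cons (.br (nat_lit 16) (nat_lit 0) (.cons (.ev (nat_lit 1363808713382855566604400569638293996551) (nat_lit 3)) .nil)) (.cons (.ev (nat_lit 348451822973058238870379877081809064165379) (nat_lit 3)) .nil))) .nil)))),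
 (.br (nat_lit 10) (nat_lit 0) (.cons (.kr (nat_lit 79228167236630820463189164032) (nat_lit 5212579268138479298954443580506112) (nat_lit 9) (nat_lit 0)) (.cons (.br (nat_lit 13) (nat_lit 0) (.cons (.ev (nat_lit 1329248278195728450393846736218030081) (nat_lit 1)) (.cons (.rf (nat_lit 295) (nat_lit 19444098229083379772645)) .nil))) (.cons (.br (nat_lit 13) (nat_lit 0) (.cons (.rf (nat_lit 644) (nat_lit 19910788442857146728987051)) (.cons (.ev (nat_lit 340287579500207815590859940849145413633) (nat_lit 1)) .nil))) .nil)))),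
 (.br (nat_lit 11) (nat_lit 0) (.cons (.rf (nat_lit 1412) (nat_lit 20002148503468987698480192)) (.cons (.rf (nat_lit 1411) (nat_lit 640068752111007606353527872)) (.cons (.br (nat_lit 14) (nat_lit 0) (.cons (.ev (nat_lit 1366477553969999378027355151086060044801) (nat_lit 3)) (.cons (.br (nat_lit 15) (nat_lit 0) (.cons (.ev (nat_lit 2668860946925881215185537464304534017) (nat_lit 2)) .nil)) .nil))) (.cons (.br (nat_lit 14) (nat_lit 0) (.cons (.ev (nat_lit 1344805045747718283940985397380841731) (nat_lit 2)) (.cons (.rf (nat_lit 1234) (nat_lit 20003292201567302239487040)) (.cons (.rf (nat_lit 1233) (nat_lit 20003292201567302239487040)) .nil)))) .nil))))),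
 (.br (nat_lit 14) (nat_lit 0) (.cons (.ev (nat_lit 1329228075014292053800987325865459713) (nat_lit 1)) .nil)),
 (.br (nat_lit 15) (nat_lit 0) (.cons (.kr (nat_lit 20282410812577490038576425992192) (nat_lit 1334420292643450700532337556609564672) (nat_lit 10) (nat_lit 0)) (.cons (.ev (nat_lit 5327317097571017453898045615860090369) (nat_lit 3)) (.cons (.kr (nat_lit 310693935713017291937415424) (nat_lit 1334420292643450700532337560921309184) (nat_lit 1) (nat_lit 0)) .nil)))),
 (.br (nat_lit 2) (nat_lit 0) (.cons (.br (nat_lit 8) (nat_lit 0) (.cons (.br (nat_lit 14) (nat_lit 0) (.cons (.ev (nat_lit 31174460945614616551961539803217927) (nat_lit 3)) (.cons (.br (nat_lit 15) (nat_lit 0) (.cons (.ev (nat_lit 2668860946925881215185537464270979587) (nat_lit 2)) (.cons (.rf (nat_lit 1) (nat_lit 582169141648449)) .nil))) .nil))) (.cons (.ev (nat_lit 10404955358467321161830740122534401) (nat_lit 2)) (.cons (.kr (nat_lit 79229376162450436196187242497) (nat_lit 20282409603688564475044623941632) (nat_lit 0) (nat_lit 1)) (.cons (.br (nat_lit 11) (nat_lit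 0) (.cons (.kr (nat_lit 20361637770888301245514263822337) (nat_lit 620178945606419954700124672) (nat_lit 0) (nat_lit 2)) (.cons (.ev (nat_lit 2658476511667563884974022586756366851) (nat_lit 2)) (.cons (.br (nat_lit 14) (nat_lit 0) (.cons (.ev (nat_lit 2668861106001185745128032605967482881) (nat_lit 2)) (.cons (.ev (nat_lit 340282367000477324635718445186911633408) (nat_lit 1)) (.cons (.br (nat_lit 15) (nat_lit 0) (.cons (.ev (nat_lit 340282387282576234370122877390911701248) (nat_lit 1)) (.cons (.ev (nat_lit 2668860946925881215185537464270979587) (nat_lit 2)) .nil))) .nil)))) (.cons (.br (nat_lit 14) (nat_lit 0) (.cons (.rf (nat_lit 1) (nat_lit 582036192697409)) (.cons (.br (nat_lit 16) (nat_lit 0) (.cons (.ev (nat_lit 2668860946925881215185537464270979587) (nat_lit 2)) (.cons (.ev (nat_lit 340287559218106483300824765575622361088) (nat_lit 1)) .nil))) (.cons (.br (nat_lit 15) (nat_lit 0) (.cons (.rf (nat_lit 1399) (nat_lit 19993370310764194137675022)) (.cons (.ev (nat_lit 2668860946925881215185537464270979587) (nat_lit 2)) .nil))) .nil))))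 .nil))))) .nil))))) (.cons (.br (nat_lit 11) (nat_lit 0) (.cons (.br (nat_lit 14) (nat_lit 0) (.cons (.ev (nat_lit 31174618780589590059233182275602955) (nat_lit 4)) (.cons (.br (nat_lit 15) (nat_lit 0) (.cons (.ev (nat_lit 2668861106003594152034298332606103555) (nat_lit 2)) (.cons (.rf (nat_lit 1) (nat_lit 582169108095041)) .nil))) .nil))) (.cons (.ev (nat_lit 31174618778162219320225593611781637) (nat_lit 3)) (.cons (.br (nat_lit 7) (nat_lit 0) (.cons (.ev (nat_lit 72713627488637581738884526045137419) (nat_lit 4)) (.cons (.br (nat_lit 14) (nat_lit 0) (.cons (.ev (nat_lit 2668861106001176263501017968327917571) (nat_lit 2)) (.cons (.rf (nat_lit 1) (nat_lit 582139170201665)) .nil))) .nil))) (.cons (.br (nat_lit 7) (nat_lit 0) (.cons (.br (nat_lit 15) (nat_lit 0) (.cons (.ev (nat_lit 2668861106003603559873210775500881921) (nat_lit 2)) (.cons (.rf (nat_lit 1) (nat_lit 582172326174785)) .nil))) (.cons (.br (nat_lit 14) (nat_lit 0) (.cons (.ev (nat_lit 1334420293571919897311995261935026433) (nat_lit 2)) (.cons (.rf (nat_lit 1) (nat_lit 582139040178241))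 .nil))) (.cons (.br (nat_lit 14) (nat_lit 0) (.cons (.ev (nat_lit 2668861106001185745128032605967482881) (nat_lit 2)) (.cons (.ev (nat_lit 31174303108259607810091669617246727) (nat_lit 3)) (.cons (.br (nat_lit 15) (nat_lit 0) (.cons (.ev (nat_lit 2658476828585068535063999946646881285) (nat_lit 3)) (.cons (.rf (nat_lit 394) (nat_lit 20676725462647461875751)) .nil))) .nil)))) (.cons (.br (nat_lit 15) (nat_lit 0) (.cons (.rf (nat_lit 1) (nat_lit 616121052110913)) (.cons (.br (nat_lit 16) (nat_lit 0) (.cons (.ev (nat_lit 5327317097571027009310915046477530627) (nat_lit 3)) (.cons (.ev (nat_lit 341611594916723379354797217263619408128) (nat_lit 1)) .nil))) (.cons (.ev (nat_lit 2658476828585068535063999946646881285) (nat_lit 3)) .nil)))) .nil))))) .nil))))) (.cons (.br (nat_lit 14) (nat_lit 0) (.cons (.kr (nat_lit 20361637770888301245514263822337) (nat_lit 620178945606419954700124672) (nat_lit 0) (nat_lit 2)) (.cons (.kr (nat_lit 20282410817299856522549894578177) (nat_lit 79228162551158388690916605952) (nat_lit 0) (nat_lit 1)) (.cons (.ev (nat_lit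 10405114433762369189080867960651777) (nat_lit 2)) (.cons (.br (nat_lit 7) (nat_lit 0) (.cons (.ev (nat_lit 20362260377167173911564009865217) (nat_lit 2)) (.cons (.br (nat_lit 8) (nat_lit 0) (.cons (.ev (nat_lit 10404955356049506415526670615183873) (nat_lit 2)) (.cons (.rf (nat_lit 1) (nat_lit 616223897496641)) .nil))) (.cons (.br (nat_lit 8) (nat_lit 0) (.cons (.ev (nat_lit 10404955356049506415526670615183873) (nat_lit 2)) (.cons (.ev (nat_lit 340282366920938468204188115850116464896) (nat_lit 1)) (.cons (.br (nat_lit 15) (nat_lit 0) (.cons (.ev (nat_lit 7996157682246202390670063905169212417) (nat_lit 3)) (.cons (.ev (nat_lit 7996157842557019663237516155553186305) (nat_lit 3)) .nil))) .nil)))) (.cons (.br (nat_lit 8) (nat_lit 0) (.cons (.rf (nat_lit 1) (nat_lit 616223930002497)) (.cons (.br (nat_lit 15) (nat_lit 0) (.cons (.ev (nat_lit 7996157524401593937113947008558827009) (nat_lit 3)) (.cons (.ev (nat_lit 7996158000391956857234207856138387457) (nat_lit 3)) .nil))) (.cons (.kr (nat_lit 310693935713017291937415424) (nat_lit 79228162532711363142230278144)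 (nat_lit 1) (nat_lit 0)) .nil)))) .nil))))) .nil))))) (.cons (.br (nat_lit 11) (nat_lit 0) (.cons (.ev (nat_lit 20362260367685546896926370299907) (nat_lit 2)) (.cons (.kr (nat_lit 20282410817299856522549894578177) (nat_lit 79228162551158388690916605952) (nat_lit 0) (nat_lit 1)) (.cons (.kr (nat_lit 20361638979814120860139126784001) (nat_lit 2668840585286901401064675117530873856) (nat_lit 0) (nat_lit 1)) (.cons (.br (nat_lit 8) (nat_lit 0) (.cons (.br (nat_lit 15) (nat_lit 0) (.cons (.ev (nat_lit 2658476353827791061197618288158310403) (nat_lit 2)) (.cons (.rf (nat_lit 1) (nat_lit 582165883729985)) .nil))) (.cons (.ev (nat_lit 2668860946928299103718817811436405251) (nat_lit 2)) (.cons (.br (nat_lit 7) (nat_lit 0) (.cons (.ev (nat_lit 2658476353827791061197618288158310403) (nat_lit 2)) (.cons (.ev (nat_lit 31174460943206209645700211143999489) (nat_lit 3)) (.cons (.br (nat_lit 15) (nat_lit 0) (.cons (.ev (nat_lit 340282387282576234370122877390911701248) (nat_lit 1)) (.cons (.ev (nat_lit 7996158000391956857234207856138387457) (nat_lit 3))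 .nil))) .nil)))) (.cons (.br (nat_lit 15) (nat_lit 0) (.cons (.rf (nat_lit 1) (nat_lit 616120818284609)) (.cons (.br (nat_lit 7) (nat_lit 0) (.cons (.ev (nat_lit 2658476512905503924259405077892300801) (nat_lit 3)) (.cons (.ev (nat_lit 5327316939736080407475306504950775809) (nat_lit 3)) .nil))) (.cons (.kr (nat_lit 79228162532711363142230278144) (nat_lit 1334420292643450700532337560921309184) (nat_lit 2) (nat_lit 0)) .nil)))) .nil))))) .nil))))) (.cons (.br (nat_lit 7) (nat_lit 0) (.cons (.kr (nat_lit 79229376162450436196187242497) (nat_lit 20282409603688564475044623941632) (nat_lit 0) (nat_lit 1)) (.cons (.br (nat_lit 8) (nat_lit 0) (.cons (.ev (nat_lit 10404956596426250202500968718008327) (nat_lit 3)) (.cons (.br (nat_lit 14) (nat_lit 0) (.cons (.ev (nat_lit 2668861106003594152034298332606103555) (nat_lit 2)) (.cons (.rf (nat_lit 1) (nat_lit 582134742072385)) .nil))) .nil))) (.cons (.ev (nat_lit 2658476511665136588601829796763271681) (nat_lit 2)) (.cons (.br (nat_lit 11) (nat_lit 0) (.cons (.ev (nat_lit 2658476353830208875943922357665660931)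 (nat_lit 2)) (.cons (.kr (nat_lit 20361638979814120860139126784001) (nat_lit 2668840585286901401064675117530873856) (nat_lit 0) (nat_lit 1)) (.cons (.ev (nat_lit 20362257959278640631216844439553) (nat_lit 2)) (.cons (.br (nat_lit 8) (nat_lit 0) (.cons (.rf (nat_lit 1) (nat_lit 582034916588609)) (.cons (.br (nat_lit 14) (nat_lit 0) (.cons (.ev (nat_lit 340282387282577438573576010254231011585) (nat_lit 1)) (.cons (.rf (nat_lit 246) (nat_lit 19525277596227318780993)) .nil))) (.cons (.br (nat_lit 14) (nat_lit 0) (.cons (.rf (nat_lit 1414) (nat_lit 661701331946308260431904)) (.cons (.ev (nat_lit 87113620352132119468764515793411518824705) (nat_lit 1)) .nil))) .nil)))) .nil))))) .nil))))) (.cons (.br (nat_lit 7) (nat_lit 0) (.cons (.br (nat_lit 14) (nat_lit 0) (.cons (.kr (nat_lit 309485009893402662762709248) (nat_lit 20282409603651670423951563030528) (nat_lit 1) (nat_lit 0)) (.cons (.ev (nat_lit 2658476511667554477133984243954745857) (nat_lit 2)) (.cons (.br (nat_lit 11) (nat_lit 0) (.cons (.ev (nat_lit 2668861106001176263501017968327917571)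 (nat_lit 2)) (.cons (.ev (nat_lit 340287559297026369749605892922386940160) (nat_lit 1)) (.cons (.br (nat_lit 15) (nat_lit 0) (.cons (.ev (nat_lit 340282366920939677111560704934883164416) (nat_lit 1)) (.cons (.ev (nat_lit 2658476353827791061197618288158310403) (nat_lit 2)) .nil))) .nil)))) (.cons (.br (nat_lit 11) (nat_lit 0) (.cons (.rf (nat_lit 1) (nat_lit 582139164958945)) (.cons (.br (nat_lit 16) (nat_lit 0) (.cons (.ev (nat_lit 2658476353827791061197618288158310403) (nat_lit 2)) (.cons (.ev (nat_lit 340287579579745458411025604340013334528) (nat_lit 1)) .nil))) (.cons (.br (nat_lit 15) (nat_lit 0) (.cons (.rf (nat_lit 452) (nat_lit 661700138519615457661190)) (.cons (.ev (nat_lit 2658476353827791061197618288158310403) (nat_lit 2)) .nil))) .nil)))) .nil))))) (.cons (.br (nat_lit 8) (nat_lit 0) (.cons (.br (nat_lit 15) (nat_lit 0) (.cons (.kr (nat_lit 2668840585286906123431159086687715329) (nat_lit 20361638975128648427267342598144) (nat_lit 0) (nat_lit 1)) (.cons (.rf (nat_lit 1) (nat_lit 582172350295265)) .nil))) (.cons (.ev (nat_lit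 2658476511665146070227718534495994371) (nat_lit 2)) (.cons (.br (nat_lit 14) (nat_lit 0) (.cons (.ev (nat_lit 51943809943037386369519317246281219) (nat_lit 4)) (.cons (.ev (nat_lit 340282367000477324635718445186911633408) (nat_lit 1)) (.cons (.br (nat_lit 15) (nat_lit 0) (.cons (.ev (nat_lit 2658476353827791061197618288158310403) (nat_lit 2)) (.cons (.rf (nat_lit 394) (nat_lit 19526106569408094745646)) .nil))) .nil)))) (.cons (.br (nat_lit 15) (nat_lit 0) (.cons (.rf (nat_lit 1) (nat_lit 581933107195105)) (.cons (.br (nat_lit 14) (nat_lit 0) (.cons (.ev (nat_lit 340282366920939677111560704934883164416) (nat_lit 1)) (.cons (.rf (nat_lit 1414) (nat_lit 624948396458041541663939)) .nil))) (.cons (.ev (nat_lit 2658476353827791061197618288158310403) (nat_lit 2)) .nil)))) .nil))))) (.cons (.br (nat_lit 8) (nat_lit 0) (.cons (.ev (nat_lit 10384673258358161010698189054935811) (nat_lit 2)) (.cons (.br (nat_lit 11) (nat_lit 0) (.cons (.ev (nat_lit 2668861106003603559873210775500881921) (nat_lit 2)) (.cons (.rf (nat_lit 1) (nat_lit 582035985086689))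 .nil))) (.cons (.br (nat_lit 11) (nat_lit 0) (.cons (.ev (nat_lit 15981910568209270508786567268364716555) (nat_lit 4)) (.cons (.ev (nat_lit 340287559297026369749605892922386940160) (nat_lit 1)) (.cons (.br (nat_lit 15) (nat_lit 0) (.cons (.ev (nat_lit 2668860946925881215185537464270979587) (nat_lit 2)) (.cons (.rf (nat_lit 358) (nat_lit 21174172942343460066861092)) .nil))) .nil)))) (.cons (.br (nat_lit 15) (nat_lit 0) (.cons (.rf (nat_lit 1) (nat_lit 581933006534881)) (.cons (.ev (nat_lit 2668860946925881215185537464270979587) (nat_lit 2)) (.cons (.br (nat_lit 17) (nat_lit 0) (.cons (.ev (nat_lit 87112285931760247855568166143814329696513) (nat_lit 1)) (.cons (.ev (nat_lit 87113615180117670537588630025931438752000) (nat_lit 1)) .nil))) .nil)))) .nil))))) (.cons (.br (nat_lit 11) (nat_lit 0) (.cons (.br (nat_lit 14) (nat_lit 0) (.cons (.ev (nat_lit 2668860946925881215185537464270979587) (nat_lit 2)) (.cons (.rf (nat_lit 1) (nat_lit 582134769335521)) .nil))) (.cons (.rf (nat_lit 791) (nat_lit 19383106963929944877832653)) (.cons (.ev (nat_lit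 20362257959278640631216844439553) (nat_lit 2)) (.cons (.br (nat_lit 8) (nat_lit 0) (.cons (.rf (nat_lit 1) (nat_lit 582034911345889)) (.cons (.br (nat_lit 14) (nat_lit 0) (.cons (.ev (nat_lit 10404955356049506415526670615183873) (nat_lit 2)) (.cons (.rf (nat_lit 425) (nat_lit 20662844249502583692737)) .nil))) (.cons (.ev (nat_lit 2658476353827791061197618288158310403) (nat_lit 2)) .nil)))) .nil))))) (.cons (.br (nat_lit 11) (nat_lit 0) (.cons (.kr (nat_lit 620183667972903923856966145) (nat_lit 20361637766202828812642479636480) (nat_lit 0) (nat_lit 14)) (.cons (.ev (nat_lit 31174303108269015649008510558274049) (nat_lit 3)) (.cons (.ev (nat_lit 20362257959278640631216844439553) (nat_lit 2)) (.cons (.ev (nat_lit 340282387282577443277495466475678400768) (nat_lit 1)) (.cons (.br (nat_lit 8) (nat_lit 0) (.cons (.br (nat_lit 15) (nat_lit 0) (.cons (.kr (nat_lit 2668840585286906123431159086687715329) (nat_lit 20361638975128648427267342598144) (nat_lit 0) (nat_lit 1)) (.cons (.br (nat_lit 16) (nat_lit 0) (.cons (.ev (nat_lit 341616787292810081400537765455861973248)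 (nat_lit 1)) .nil)) .nil))) (.cons (.br (nat_lit 14) (nat_lit 0) (.cons (.ev (nat_lit 10404955356049506415526670615183873) (nat_lit 2)) (.cons (.rf (nat_lit 465) (nat_lit 20001962774587935485734381)) .nil))) (.cons (.br (nat_lit 14) (nat_lit 0) (.cons (.ev (nat_lit 10404955356049506415526670615183873) (nat_lit 2)) (.cons (.ev (nat_lit 680570027790640416716550080714798072581) (nat_lit 3)) .nil))) (.cons (.br (nat_lit 14) (nat_lit 0) (.cons (.br (nat_lit 16) (nat_lit 0) (.cons (.ev (nat_lit 341611615278361145520731978804414644480) (nat_lit 1)) .nil)) (.cons (.ev (nat_lit 5192455626776940202142290004738816) (nat_lit 2)) (.cons (.br (nat_lit 15) (nat_lit 0) (.cons (.ev (nat_lit 1363808713701006147145618663440583491589) (nat_lit 3)) .nil)) .nil)))) .nil))))) .nil)))))) (.cons (.br (nat_lit 8) (nat_lit 0) (.cons (.br (nat_lit 14) (nat_lit 0) (.cons (.rf (nat_lit 1) (nat_lit 581898747456769)) (.cons (.br (nat_lit 15) (nat_lit 0) (.cons (.ev (nat_lit 341611615199442468016216928681245802496) (nat_lit 1)) (.cons (.br (nat_lit 16) (nat_lit 0) (.cons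 (.ev (nat_lit 1369104856179803856972940877838911012869) (nat_lit 3)) .nil)) .nil))) (.cons (.br (nat_lit 15) (nat_lit 0) (.cons (.rf (nat_lit 450) (nat_lit 661700138519615457661190)) (.cons (.ev (nat_lit 348451822973058238898750970030115717644289) (nat_lit 3)) .nil))) .nil)))) (.cons (.br (nat_lit 15) (nat_lit 0) (.cons (.ev (nat_lit 10405114433771850814969605693374467) (nat_lit 2)) (.cons (.kr (nat_lit 2668840585286906123431159086687715329) (nat_lit 20361638975128648427267342598144) (nat_lit 0) (nat_lit 1)) (.cons (.br (nat_lit 11) (nat_lit 0) (.cons (.br (nat_lit 16) (nat_lit 0) (.cons (.ev (nat_lit 1363808713382855557048987702398109877253) (nat_lit 3)) .nil)) (.cons (.ev (nat_lit 348451822973058238898750970030115717644289) (nat_lit 3)) .nil))) .nil)))) (.cons (.br (nat_lit 14) (nat_lit 0) (.cons (.kr (nat_lit 20282410812577490038576425992192) (nat_lit 1334420292643450700532337556609564672) (nat_lit 10) (nat_lit 0)) (.cons (.rf (nat_lit 585) (nat_lit 625060229883946961245255)) (.cons (.ev (nat_lit 10404955356049506415526670615183873)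 (nat_lit 2)) .nil)))) (.cons (.br (nat_lit 11) (nat_lit 0) (.cons (.rf (nat_lit 1415) (nat_lit 677582165103132179601393696)) (.cons (.br (nat_lit 16) (nat_lit 0) (.cons (.ev (nat_lit 341611615199442468016216928681245802496) (nat_lit 1)) (.cons (.ev (nat_lit 340282367000476110987532348791881531393) (nat_lit 1)) .nil))) (.cons (.br (nat_lit 14) (nat_lit 0) (.cons (.ev (nat_lit 341616807495991522537943851809569308928) (nat_lit 1)) (.cons (.br (nat_lit 15) (nat_lit 0) (.cons (.ev (nat_lit 1363808713382855557048987702398109877253) (nat_lit 3)) .nil)) .nil))) (.cons (.br (nat_lit 14) (nat_lit 0) (.cons (.rf (nat_lit 912) (nat_lit 19994654218594424303558124)) (.cons (.br (nat_lit 15) (nat_lit 0) (.cons (.ev (nat_lit 1369104856179803856972940877838911012869) (nat_lit 3)) .nil)) (.cons (.ev (nat_lit 5192455626776940202142290004738816) (nat_lit 2)) .nil)))) .nil))))) (.cons (.br (nat_lit 14) (nat_lit 0) (.cons (.rf (nat_lit 1415) (nat_lit 677582165103132179601393696)) (.cons (.ev (nat_lit 10404955356049506415526670615183873) (nat_lit 2)) (.cons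 (.br (nat_lit 15) (nat_lit 0) (.cons (.rf (nat_lit 246) (nat_lit 19519372243216456985057)) (.cons (.ev (nat_lit 340282366920939677111560704934883164416) (nat_lit 1)) (.cons (.ev (nat_lit 348457119115852711318595775984219923153921) (nat_lit 3)) .nil)))) (.cons (.ev (nat_lit 87112285952121885621734100905355124932865) (nat_lit 1)) .nil))))) .nil)))))) .nil))))))) .nil)))))))]

theorem c82 : chkAll C T R L82 (nat_lit 1398) = true := by decide +kernel

theorem l82 : (nat_lit 1398) + L82.length = (nat_lit 1417) := by decide +kernel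

/-- part of the certificates -/
def L83 : List Prf := [(.br (nat_lit 11) (nat_lit 0) (.cons (.ev (nat_lit 2668840743743231170406860930546860547) (nat_lit 2)) (.cons (.ev (nat_lit 680575138956308266777272534353949294594) (nat_lit 2)) (.cons (.br (nat_lit 15) (nat_lit 0) (.cons (.ev (nat_lit 683223189833446763413515015544753029635) (nat_lit 2)) (.cons (.rf (nat_lit 295) (nat_lit 19524092055411292704815)) .nil))) .nil)))),
 (.br (nat_lit 15) (nat_lit 0) (.cons (.kr (nat_lit 20282410812577490038576425992192) (nat_lit 1334420292643450700532337556609564672) (nat_lit 10) (nat_lit 0)) (.cons (.ev (nat_lit 5337701850989615177051600372338262535) (nat_lit 3)) (.cons (.kr (nat_lit 20282720297587311665120127484160) (nat_lit 1339612589501985528160868057250529280) (nat_lit 1) (nat_lit 0)) .nil)))),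
 (.br (nat_lit 2) (nat_lit 0) (.cons (.br (nat_lit 8) (nat_lit 0) (.cons (.br (nat_lit 14) (nat_lit 0) (.cons (.kr (nat_lit 1329227996094400882725433603981836544) (nat_lit 5192296858534846147332164076765184) (nat_lit 1) (nat_lit 0)) (.cons (.br (nat_lit 15) (nat_lit 0) (.cons (.ev (nat_lit 2668860946925881215185537464270979587) (nat_lit 2)) (.cons (.rf (nat_lit 1) (nat_lit 582169141680193)) .nil))) .nil))) (.cons (.ev (nat_lit 10404955358467321161830740122534401) (nat_lit 2)) (.cons (.kr (nat_lit 2658456070797998982438435687573225473) (nat_lit 20282410812614527641911921082368) (nat_lit 0) (nat_lit 1)) (.cons (.br (nat_lit 11) (nat_lit 0) (.cons (.kr (nat_lit 10384672945236891887882559670976513) (nat_lit 20283029782597133291663828976128) (nat_lit 0) (nat_lit 2)) (.cons (.ev (nat_lit 2658476511667563884974022586756366851) (nat_lit 2)) (.cons (.br (nat_lit 14) (nat_lit 0) (.cons (.ev (nat_lit 2668861106001185745128032605967482881) (nat_lit 2)) (.cons (.ev (nat_lit 340282387203657552124938435145605644288) (nat_lit 1)) (.cons (.br (nat_lit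 15) (nat_lit 0) (.cons (.ev (nat_lit 340282366920939672407641248713452552448) (nat_lit 1)) (.cons (.ev (nat_lit 2668860946925881215185537464270979587) (nat_lit 2)) .nil))) .nil)))) (.cons (.br (nat_lit 14) (nat_lit 0) (.cons (.rf (nat_lit 1) (nat_lit 582036192729153)) (.cons (.br (nat_lit 15) (nat_lit 0) (.cons (.ev (nat_lit 2668860946925881215185537464270979587) (nat_lit 2)) (.cons (.rf (nat_lit 802) (nat_lit 624608092186484830283239)) .nil))) (.cons (.br (nat_lit 15) (nat_lit 0) (.cons (.br (nat_lit 16) (nat_lit 0) (.cons (.ev (nat_lit 340287579500207810887011979276077498625) (nat_lit 1)) .nil)) (.cons (.ev (nat_lit 2668860946925881215185537464270979587) (nat_lit 2)) .nil))) .nil)))) .nil))))) .nil))))) (.cons (.br (nat_lit 11) (nat_lit 0) (.cons (.ev (nat_lit 20362260377167173913771589500931) (nat_lit 2)) (.cons (.ev (nat_lit 20363503143428398963912343814659) (nat_lit 3)) (.cons (.br (nat_lit 6) (nat_lit 0) (.cons (.ev (nat_lit 20521333244992905301498488029189) (nat_lit 3)) (.cons (.br (nat_lit 14) (nat_lit 0) (.cons (.ev (nat_lit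 10405114433762369189078677527330817) (nat_lit 2)) (.cons (.rf (nat_lit 1) (nat_lit 582139169185857)) .nil))) .nil))) (.cons (.br (nat_lit 14) (nat_lit 0) (.cons (.br (nat_lit 15) (nat_lit 0) (.cons (.ev (nat_lit 1339612828114942267518210181712445697) (nat_lit 2)) (.cons (.rf (nat_lit 1) (nat_lit 582172292653121)) .nil))) (.cons (.ev (nat_lit 10404955356049506415526670648738307) (nat_lit 2)) (.cons (.br (nat_lit 6) (nat_lit 0) (.cons (.ev (nat_lit 10405114433762369189078677527330817) (nat_lit 2)) (.cons (.ev (nat_lit 340282367000477324635718445186894856193) (nat_lit 1)) (.cons (.br (nat_lit 15) (nat_lit 0) (.cons (.ev (nat_lit 1369125625208160302383356764540377368071) (nat_lit 3)) (.cons (.br (nat_lit 16) (nat_lit 0) (.cons (.ev (nat_lit 1369125625366000075207422527322680460289) (nat_lit 3)) .nil)) .nil))) .nil)))) (.cons (.br (nat_lit 6) (nat_lit 0) (.cons (.rf (nat_lit 1) (nat_lit 582139006656577)) (.cons (.br (nat_lit 15) (nat_lit 0) (.cons (.ev (nat_lit 683223189913607003049156620264329511169) (nat_lit 2)) (.cons (.ev (nat_lit 2668840664825767351116075695519892225)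 (nat_lit 2)) .nil))) (.cons (.br (nat_lit 15) (nat_lit 0) (.cons (.br (nat_lit 16) (nat_lit 0) (.cons (.ev (nat_lit 1363808713225015784225498400402537055751) (nat_lit 3)) .nil)) (.cons (.ev (nat_lit 348457119115852711299632524202363591066629) (nat_lit 3)) .nil))) .nil)))) .nil))))) .nil))))) (.cons (.br (nat_lit 6) (nat_lit 0) (.cons (.br (nat_lit 14) (nat_lit 0) (.cons (.kr (nat_lit 1329227996094400882725433603981836544) (nat_lit 5192296858534846147332164076765184) (nat_lit 1) (nat_lit 0)) (.cons (.br (nat_lit 15) (nat_lit 0) (.cons (.ev (nat_lit 2668861106003594152034296125026467841) (nat_lit 2)) (.cons (.rf (nat_lit 1) (nat_lit 582165853350977)) .nil))) .nil))) (.cons (.br (nat_lit 8) (nat_lit 0) (.cons (.kr (nat_lit 1329227996094400882725433603981836544) (nat_lit 5192296858534846147332164076765184) (nat_lit 1) (nat_lit 0)) (.cons (.br (nat_lit 15) (nat_lit 0) (.cons (.ev (nat_lit 2668860946925890696812554292343865857) (nat_lit 2)) (.cons (.rf (nat_lit 1) (nat_lit 582172289510465)) .nil))) .nil))) (.cons (.ev (nat_lit 2658476670747713525745662718564894209)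 (nat_lit 3)) (.cons (.br (nat_lit 8) (nat_lit 0) (.cons (.ev (nat_lit 10405272271126859845069843475072001) (nat_lit 3)) (.cons (.br (nat_lit 14) (nat_lit 0) (.cons (.ev (nat_lit 2668860946928299103718817811402850817) (nat_lit 2)) (.cons (.rf (nat_lit 1) (nat_lit 582139068525633)) .nil))) (.cons (.br (nat_lit 14) (nat_lit 0) (.cons (.ev (nat_lit 2668861106001185745128032605967482881) (nat_lit 2)) (.cons (.ev (nat_lit 1361160642302532006664979740670210475521) (nat_lit 3)) (.cons (.br (nat_lit 15) (nat_lit 0) (.cons (.ev (nat_lit 1369104856495478585953676403816347468801) (nat_lit 3)) (.cons (.ev (nat_lit 1344865813129406186815237840586212099) (nat_lit 2)) .nil))) .nil)))) (.cons (.br (nat_lit 14) (nat_lit 0) (.cons (.rf (nat_lit 1) (nat_lit 581933111422017)) (.cons (.br (nat_lit 15) (nat_lit 0) (.cons (.ev (nat_lit 1363808713382860411641732092393456665601) (nat_lit 3)) (.cons (.ev (nat_lit 1344865813129406186815237840586212099) (nat_lit 2)) .nil))) (.cons (.br (nat_lit 15) (nat_lit 0) (.cons (.br (nat_lit 16) (nat_lit 0) (.cons (.ev (nat_lit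 681899154293289828628708948315176370944) (nat_lit 2)) .nil)) (.cons (.ev (nat_lit 348454471044138562430318721449990484526593) (nat_lit 3)) .nil))) .nil)))) .nil))))) .nil))))) (.cons (.br (nat_lit 15) (nat_lit 0) (.cons (.ev (nat_lit 10404955356058914255567221063549441) (nat_lit 2)) (.cons (.ev (nat_lit 10404955356049506415526670648738307) (nat_lit 2)) (.cons (.kr (nat_lit 20361638979814120860139126784001) (nat_lit 2668840585286901401064675117530873856) (nat_lit 0) (nat_lit 1)) (.cons (.br (nat_lit 6) (nat_lit 0) (.cons (.br (nat_lit 11) (nat_lit 0) (.cons (.ev (nat_lit 2668861106003594152034296125026467841) (nat_lit 2)) (.cons (.rf (nat_lit 1) (nat_lit 616250710669377)) .nil))) (.cons (.br (nat_lit 8) (nat_lit 0) (.cons (.kr (nat_lit 237684492302053546747649720321) (nat_lit 2668860867697713978554714793502048256) (nat_lit 0) (nat_lit 1)) (.cons (.rf (nat_lit 1) (nat_lit 616253928749121)) .nil))) (.cons (.br (nat_lit 8) (nat_lit 0) (.cons (.kr (nat_lit 237684492302053546747649720321) (nat_lit 2668860867697713978554714793502048256) (nat_lit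 0) (nat_lit 1)) (.cons (.ev (nat_lit 1366477553809690955049935592569339708418) (nat_lit 3)) (.cons (.br (nat_lit 11) (nat_lit 0) (.cons (.ev (nat_lit 2658476512905503924259405077892300801) (nat_lit 3)) (.cons (.ev (nat_lit 2658476512905522887513438734038073349) (nat_lit 3)) .nil))) .nil)))) (.cons (.br (nat_lit 8) (nat_lit 0) (.cons (.rf (nat_lit 1) (nat_lit 616253993760833)) (.cons (.br (nat_lit 11) (nat_lit 0) (.cons (.ev (nat_lit 7996158000391947449393041440176734215) (nat_lit 3)) (.cons (.ev (nat_lit 7996158000391966265073122506646618115) (nat_lit 3)) .nil))) (.cons (.br (nat_lit 11) (nat_lit 0) (.cons (.ev (nat_lit 5327316939736075703555849179696922624) (nat_lit 3)) (.cons (.ev (nat_lit 87112285931839785507796243340287788777473) (nat_lit 1)) .nil))) .nil)))) .nil))))) .nil))))) (.cons (.br (nat_lit 6) (nat_lit 0) (.cons (.kr (nat_lit 18518801667747545088) (nat_lit 1329227995784915872903807064592089088) (nat_lit 2) (nat_lit 0)) (.cons (.br (nat_lit 8) (nat_lit 0) (.cons (.ev (nat_lit 31174142797461298496673109805892615) (nat_lit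 3)) (.cons (.br (nat_lit 14) (nat_lit 0) (.cons (.ev (nat_lit 10405114431344554442774608053534723) (nat_lit 2)) (.cons (.rf (nat_lit 1) (nat_lit 582134708550721)) .nil))) .nil))) (.cons (.br (nat_lit 8) (nat_lit 0) (.cons (.kr (nat_lit 1329227996094400882725433603981836544) (nat_lit 5192296858534846147332164076765184) (nat_lit 1) (nat_lit 0)) (.cons (.br (nat_lit 11) (nat_lit 0) (.cons (.ev (nat_lit 10405114431344554442774608053534723) (nat_lit 2)) (.cons (.rf (nat_lit 1) (nat_lit 582034850561089)) .nil))) .nil))) (.cons (.br (nat_lit 11) (nat_lit 0) (.cons (.br (nat_lit 14) (nat_lit 0) (.cons (.ev (nat_lit 10405114433762369189078677527330817) (nat_lit 2)) (.cons (.rf (nat_lit 1) (nat_lit 582134773562433)) .nil))) (.cons (.kr (nat_lit 20361638979814120860139126784001) (nat_lit 2668840585286901401064675117530873856) (nat_lit 0) (nat_lit 1)) (.cons (.br (nat_lit 8) (nat_lit 0) (.cons (.ev (nat_lit 10405114433762369189078677527330817) (nat_lit 2)) (.cons (.ev (nat_lit 340282387203657556865751943559642087425) (nat_lit 1)) (.cons (.br (nat_lit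 14) (nat_lit 0) (.cons (.ev (nat_lit 2668861106001176263501015777894596611) (nat_lit 2)) (.cons (.rf (nat_lit 660) (nat_lit 625102957820489710638145)) .nil))) .nil)))) (.cons (.br (nat_lit 14) (nat_lit 0) (.cons (.rf (nat_lit 1) (nat_lit 582034915572801)) (.cons (.br (nat_lit 8) (nat_lit 0) (.cons (.ev (nat_lit 341616807495992731482210493086958616832) (nat_lit 1)) (.cons (.rf (nat_lit 1299) (nat_lit 21166215411616212310919200)) .nil))) (.cons (.ev (nat_lit 2668861106001176263501015777894596611) (nat_lit 2)) .nil)))) .nil))))) .nil))))) (.cons (.br (nat_lit 6) (nat_lit 0) (.cons (.br (nat_lit 11) (nat_lit 0) (.cons (.kr (nat_lit 309485009821626543701491968) (nat_lit 5192296858534827628530500640964608) (nat_lit 1) (nat_lit 0)) (.cons (.br (nat_lit 14) (nat_lit 0) (.cons (.ev (nat_lit 10405114433762369189078677527330817) (nat_lit 2)) (.cons (.rf (nat_lit 1) (nat_lit 582139164991681)) .nil))) (.cons (.br (nat_lit 14) (nat_lit 0) (.cons (.ev (nat_lit 10405114433762369189078677527330817) (nat_lit 2)) (.cons (.ev (nat_lit 10405114431344554442774608053534723)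 (nat_lit 2)) (.cons (.br (nat_lit 15) (nat_lit 0) (.cons (.ev (nat_lit 341611594996262235786183993258485547008) (nat_lit 1)) (.cons (.br (nat_lit 16) (nat_lit 0) (.cons (.ev (nat_lit 341611594996261026878810841232338583553) (nat_lit 1)) .nil)) .nil))) .nil)))) (.cons (.br (nat_lit 14) (nat_lit 0) (.cons (.rf (nat_lit 1) (nat_lit 582036186439873)) (.cons (.br (nat_lit 15) (nat_lit 0) (.cons (.ev (nat_lit 341616787292811285603990897215391465728) (nat_lit 1)) (.cons (.rf (nat_lit 394) (nat_lit 20673329430909111733454)) .nil))) (.cons (.ev (nat_lit 10405114431344554442774608053534723) (nat_lit 2)) .nil)))) .nil))))) (.cons (.br (nat_lit 8) (nat_lit 0) (.cons (.ev (nat_lit 31174142797461298496673109805892615) (nat_lit 3)) (.cons (.ev (nat_lit 20520097732175915781434162283011) (nat_lit 2)) (.cons (.br (nat_lit 14) (nat_lit 0) (.cons (.ev (nat_lit 2658476828585059127225080915339641863) (nat_lit 3)) (.cons (.ev (nat_lit 10405114431344554442774608053534723) (nat_lit 2)) (.cons (.br (nat_lit 15) (nat_lit 0) (.cons (.ev (nat_lit 340282366920939672407641248713452552448)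 (nat_lit 1)) (.cons (.rf (nat_lit 258) (nat_lit 19524092055411292705249)) .nil))) .nil)))) (.cons (.br (nat_lit 14) (nat_lit 0) (.cons (.rf (nat_lit 1) (nat_lit 581933107227841)) (.cons (.br (nat_lit 15) (nat_lit 0) (.cons (.ev (nat_lit 341616787292811285603990897215391465728) (nat_lit 1)) (.cons (.rf (nat_lit 1299) (nat_lit 20001804709789395055946797)) .nil))) (.cons (.ev (nat_lit 10405114431344554442774608053534723) (nat_lit 2)) .nil)))) .nil))))) (.cons (.br (nat_lit 16) (nat_lit 0) (.cons (.rf (nat_lit 1417) (nat_lit 19926519232773908561233952)) (.cons (.ev (nat_lit 10405114431353962282815158468345857) (nat_lit 2)) (.cons (.ev (nat_lit 2668860946925881215185537464270979587) (nat_lit 2)) (.cons (.br (nat_lit 16) (nat_lit 0) (.cons (.rf (nat_lit 1417) (nat_lit 19926519232773908561233952)) (.cons (.ev (nat_lit 10405114431353962282815158468345857) (nat_lit 2)) (.cons (.ev (nat_lit 2668860946925881215185537464270979587) (nat_lit 2)) .nil)))) .nil))))) (.cons (.br (nat_lit 8) (nat_lit 0) (.cons (.ev (nat_lit 20520097732175915781434162283011)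 (nat_lit 2)) (.cons (.br (nat_lit 11) (nat_lit 0) (.cons (.ev (nat_lit 10405114433762369189078677527330817) (nat_lit 2)) (.cons (.rf (nat_lit 1) (nat_lit 582034911378625)) .nil))) (.cons (.br (nat_lit 11) (nat_lit 0) (.cons (.ev (nat_lit 1334420372491796901216604631303651328) (nat_lit 2)) (.cons (.ev (nat_lit 340282387282576234370122877390894924033) (nat_lit 1)) (.cons (.br (nat_lit 14) (nat_lit 0) (.cons (.ev (nat_lit 2668860946925881215185537464270979587) (nat_lit 2)) (.cons (.rf (nat_lit 648) (nat_lit 20003257535062816952984010)) .nil))) .nil)))) (.cons (.br (nat_lit 14) (nat_lit 0) (.cons (.rf (nat_lit 1) (nat_lit 581931932826817)) (.cons (.ev (nat_lit 2668860946925881215185537464270979587) (nat_lit 2)) (.cons (.br (nat_lit 17) (nat_lit 0) (.cons (.ev (nat_lit 87113615180117669328681256872801501970688) (nat_lit 1)) (.cons (.ev (nat_lit 87112291144339515998751456894643588890880) (nat_lit 1)) .nil))) .nil)))) .nil))))) (.cons (.br (nat_lit 11) (nat_lit 0) (.cons (.br (nat_lit 14) (nat_lit 0) (.cons (.ev (nat_lit 10405114433762369189078677527330817)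 (nat_lit 2)) (.cons (.ev (nat_lit 340282387282577438573576009150424416513) (nat_lit 1)) (.cons (.br (nat_lit 15) (nat_lit 0) (.cons (.ev (nat_lit 7975388811719896323113665194824565765) (nat_lit 3)) (.cons (.br (nat_lit 16) (nat_lit 0) (.cons (.ev (nat_lit 2619520390524036097898877277580730353063943) (nat_lit 5)) .nil)) .nil))) .nil)))) (.cons (.ev (nat_lit 20789549699342699628831505421436419) (nat_lit 3)) (.cons (.ev (nat_lit 2658476353830208875943924548098981891) (nat_lit 2)) (.cons (.ev (nat_lit 340282387282577443277495466475678400768) (nat_lit 1)) (.cons (.br (nat_lit 8) (nat_lit 0) (.cons (.ev (nat_lit 31153939614792290463962885576262659) (nat_lit 3)) (.cons (.br (nat_lit 14) (nat_lit 0) (.cons (.ev (nat_lit 2668860946928299103718817811402850817) (nat_lit 2)) (.cons (.rf (nat_lit 645) (nat_lit 20003257535062816952984010)) .nil))) (.cons (.br (nat_lit 14) (nat_lit 0) (.cons (.ev (nat_lit 1363808713382860383418213101091705455619) (nat_lit 3)) (.cons (.ev (nat_lit 340287559218106488041637711039688605696) (nat_lit 1)) .nil))) (.cons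 (.br (nat_lit 14) (nat_lit 0) (.cons (.br (nat_lit 16) (nat_lit 0) (.cons (.ev (nat_lit 1361150257233448370331475823959094986241) (nat_lit 3)) .nil)) (.cons (.ev (nat_lit 20789867845106574031890106965950977) (nat_lit 3)) (.cons (.ev (nat_lit 348449143747720159613719829272094604396033) (nat_lit 3)) .nil)))) .nil))))) .nil)))))) (.cons (.br (nat_lit 8) (nat_lit 0) (.cons (.br (nat_lit 14) (nat_lit 0) (.cons (.rf (nat_lit 1) (nat_lit 581864387751169)) (.cons (.br (nat_lit 15) (nat_lit 0) (.cons (.ev (nat_lit 341616787292811285603990897215391465728) (nat_lit 1)) (.cons (.br (nat_lit 16) (nat_lit 0) (.cons (.ev (nat_lit 1369104856179803856972940877838911012869) (nat_lit 3)) .nil)) .nil))) (.cons (.br (nat_lit 15) (nat_lit 0) (.cons (.br (nat_lit 16) (nat_lit 0) (.cons (.zr (nat_lit 1363787923678418568754229552760427121157) (nat_lit 31174301248927048373931338621124608) (nat_lit 16) (nat_lit 1)) .nil)) (.cons (.ev (nat_lit 7996158000391956857234212271364767745) (nat_lit 3)) .nil))) .nil)))) (.cons (.br (nat_lit 15) (nat_lit 0) (.cons (.ev (nat_lit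 10405114433771850814969605693374467) (nat_lit 2)) (.cons (.ev (nat_lit 7996157682246211946082935560512603143) (nat_lit 3)) (.cons (.ev (nat_lit 7975388811719877507433584093994943489) (nat_lit 3)) .nil)))) (.cons (.br (nat_lit 14) (nat_lit 0) (.cons (.kr (nat_lit 20282410812577490038576425992192) (nat_lit 1334420292643450700532337556609564672) (nat_lit 10) (nat_lit 0)) (.cons (.rf (nat_lit 585) (nat_lit 625060229919131333334086)) (.cons (.ev (nat_lit 2668860946928299103718817811402850817) (nat_lit 2)) .nil)))) (.cons (.br (nat_lit 11) (nat_lit 0) (.cons (.rf (nat_lit 1418) (nat_lit 677582165103132179601393696)) (.cons (.br (nat_lit 16) (nat_lit 0) (.cons (.ev (nat_lit 341611615199442468016216928681245802496) (nat_lit 1)) (.cons (.ev (nat_lit 341611615199442472720136948956453208065) (nat_lit 1)) .nil))) (.cons (.br (nat_lit 15) (nat_lit 0) (.cons (.ev (nat_lit 1363787944196659367333170706426015907843) (nat_lit 3)) (.cons (.ev (nat_lit 2658476512905522887513438734038073349) (nat_lit 3)) .nil))) (.cons (.br (nat_lit 14) (nat_lit 0) (.cons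 (.br (nat_lit 16) (nat_lit 0) (.cons (.ev (nat_lit 681904346510916564738400136557429261059) (nat_lit 2)) .nil)) (.cons (.ev (nat_lit 1361150257233453224924220213954374665729) (nat_lit 3)) (.cons (.ev (nat_lit 20789867845106574031890106965950977) (nat_lit 3)) .nil)))) .nil))))) (.cons (.br (nat_lit 11) (nat_lit 0) (.cons (.rf (nat_lit 1418) (nat_lit 677582165103132179601393696)) (.cons (.br (nat_lit 14) (nat_lit 0) (.cons (.rf (nat_lit 246) (nat_lit 19519372278400829041121)) (.cons (.ev (nat_lit 87113615180117669328681256872801501970688) (nat_lit 1)) .nil))) (.cons (.br (nat_lit 16) (nat_lit 0) (.cons (.ev (nat_lit 20789867845106574031890106965950977) (nat_lit 3)) (.cons (.br (nat_lit 14) (nat_lit 0) (.cons (.ev (nat_lit 5337701532834180043091368409076729345) (nat_lit 3)) .nil)) (.cons (.ev (nat_lit 1361129488047257025652990346361297043969) (nat_lit 3)) .nil)))) (.cons (.ev (nat_lit 87112285952042965740026276838660536008705) (nat_lit 1)) .nil))))) .nil)))))) .nil))))))) .nil))))))),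
 (.br (nat_lit 15) (nat_lit 0) (.cons (.ev (nat_lit 1334420292954144654620042427747074048) (nat_lit 1)) .nil)),
 (.br (nat_lit 15) (nat_lit 0) (.cons (.kr (nat_lit 79228167236630820463189164032) (nat_lit 1334420292643450700532337556609564672) (nat_lit 9) (nat_lit 0)) (.cons (.ev (nat_lit 7996157682246211946082935560512603143) (nat_lit 3)) (.cons (.kr (nat_lit 79537652246524223125951873280) (nat_lit 1334440575053054352202761508172595200) (nat_lit 1) (nat_lit 0)) .nil)))),
 (.br (nat_lit 2) (nat_lit 0) (.cons (.rf (nat_lit 1419) (nat_lit 546993534868772933960768)) (.cons (.rf (nat_lit 1416) (nat_lit 546993534868772933960768)) (.cons (.br (nat_lit 6) (nat_lit 0) (.cons (.br (nat_lit 14) (nat_lit 0) (.cons (.kr (nat_lit 1329227996094400882725433603981836544) (nat_lit 5192296858534846147332164076765184) (nat_lit 1) (nat_lit 0)) (.cons (.br (nat_lit 15) (nat_lit 0) (.cons (.ev (nat_lit 2668860946925881215185535256691343873) (nat_lit 2)) (.cons (.rf (nat_lit 1) (nat_lit 582164779641921)) .nil))) .nil))) (.cons (.kr (nat_lit 309489732187827938369995008)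 (nat_lit 5192296858534846075274570038837248) (nat_lit 1) (nat_lit 0)) (.cons (.ev (nat_lit 2658476353827791061197618288191864833) (nat_lit 2)) (.cons (.br (nat_lit 7) (nat_lit 0) (.cons (.ev (nat_lit 10405114431344554442774608087089153) (nat_lit 2)) (.cons (.kr (nat_lit 1329227996094400882725152129005125888) (nat_lit 79228162532711081667253567488) (nat_lit 1) (nat_lit 0)) (.cons (.br (nat_lit 14) (nat_lit 0) (.cons (.ev (nat_lit 2668861106001185745128032605967482881) (nat_lit 2)) (.cons (.ev (nat_lit 340282366920938468204188115850116464896) (nat_lit 1)) (.cons (.br (nat_lit 15) (nat_lit 0) (.cons (.ev (nat_lit 340282387203658765773124532644408786945) (nat_lit 1)) (.cons (.ev (nat_lit 2668860946925881215185535256691343873) (nat_lit 2)) .nil))) .nil)))) (.cons (.br (nat_lit 14) (nat_lit 0) (.cons (.rf (nat_lit 1) (nat_lit 581898751716417)) (.cons (.br (nat_lit 15) (nat_lit 0) (.cons (.ev (nat_lit 2668860946925881215185535256691343873) (nat_lit 2)) (.cons (.rf (nat_lit 1420) (nat_lit 20002148503468987698480192)) .nil))) (.cons (.br (nat_lit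 15) (nat_lit 0) (.cons (.rf (nat_lit 458) (nat_lit 20678021239014041983426)) (.cons (.ev (nat_lit 2668860946925881215185535256691343873) (nat_lit 2)) .nil))) .nil)))) .nil))))) .nil))))) (.cons (.br (nat_lit 11) (nat_lit 0) (.cons (.kr (nat_lit 20282410817299856522549894578177) (nat_lit 79228162551158388690916605952) (nat_lit 0) (nat_lit 1)) (.cons (.ev (nat_lit 20362260367685546896926370299907) (nat_lit 2)) (.cons (.kr (nat_lit 20361638979814120860139126784001) (nat_lit 2668840585286901401064675117530873856) (nat_lit 0) (nat_lit 1)) (.cons (.br (nat_lit 6) (nat_lit 0) (.cons (.br (nat_lit 15) (nat_lit 0) (.cons (.ev (nat_lit 2658476353827781579571727359992266753) (nat_lit 2)) (.cons (.rf (nat_lit 1) (nat_lit 582164776499265)) .nil))) (.cons (.ev (nat_lit 2668860946928299103718817811436405251) (nat_lit 2)) (.cons (.br (nat_lit 7) (nat_lit 0) (.cons (.ev (nat_lit 2658476353827781579571727359992266753) (nat_lit 2)) (.cons (.ev (nat_lit 31174460943215617484614861651705859) (nat_lit 3)) (.cons (.br (nat_lit 15) (nat_lit 0) (.cons (.ev (nat_lit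 340282387282576234370122877390911701248) (nat_lit 1)) (.cons (.ev (nat_lit 7996158000391966265073122506646618115) (nat_lit 3)) .nil))) .nil)))) (.cons (.br (nat_lit 15) (nat_lit 0) (.cons (.rf (nat_lit 1) (nat_lit 616120816252993)) (.cons (.br (nat_lit 7) (nat_lit 0) (.cons (.ev (nat_lit 2658476512905513479672272318076420099) (nat_lit 3)) (.cons (.ev (nat_lit 5327316939736089815316472920912429059) (nat_lit 3)) .nil))) (.cons (.kr (nat_lit 79228162532711363142230278144) (nat_lit 1334420292643450700532337560921309184) (nat_lit 2) (nat_lit 0)) .nil)))) .nil))))) .nil))))) (.cons (.br (nat_lit 6) (nat_lit 0) (.cons (.kr (nat_lit 18518801667747545088) (nat_lit 1329227995784915872903807064592089088) (nat_lit 2) (nat_lit 0)) (.cons (.ev (nat_lit 2658476353827791061197618288191864833) (nat_lit 2)) (.cons (.br (nat_lit 7) (nat_lit 0) (.cons (.kr (nat_lit 1329227996094400882725433603981836544) (nat_lit 5192296858534846147332164076765184) (nat_lit 1) (nat_lit 0)) (.cons (.br (nat_lit 11) (nat_lit 0) (.cons (.ev (nat_lit 20362257959278640631216844439553)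 (nat_lit 2)) (.cons (.rf (nat_lit 1) (nat_lit 582034849545281)) .nil))) .nil))) (.cons (.br (nat_lit 14) (nat_lit 0) (.cons (.ev (nat_lit 2658476511667554477133984243988300291) (nat_lit 2)) (.cons (.kr (nat_lit 1329227996094400882725152129005125888) (nat_lit 20282409603670117168020960903168) (nat_lit 1) (nat_lit 0)) (.cons (.br (nat_lit 7) (nat_lit 0) (.cons (.ev (nat_lit 2668861106003594152034298332606103555) (nat_lit 2)) (.cons (.ev (nat_lit 340282366920938468204188115850116464896) (nat_lit 1)) (.cons (.br (nat_lit 11) (nat_lit 0) (.cons (.ev (nat_lit 341616807495991522537943851809569308928) (nat_lit 1)) (.cons (.ev (nat_lit 20362257959278640631216844439553) (nat_lit 2)) .nil))) .nil)))) (.cons (.br (nat_lit 7) (nat_lit 0) (.cons (.rf (nat_lit 1) (nat_lit 582134740040769)) (.cons (.br (nat_lit 11) (nat_lit 0) (.cons (.ev (nat_lit 20362257959278640631216844439553) (nat_lit 2)) (.cons (.rf (nat_lit 1420) (nat_lit 19993725034868301426368586)) .nil))) (.cons (.br (nat_lit 11) (nat_lit 0) (.cons (.rf (nat_lit 456) (nat_lit 20667606707006193698018))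 (.cons (.ev (nat_lit 20362257959278640631216844439553) (nat_lit 2)) .nil))) .nil)))) .nil))))) .nil))))) (.cons (.br (nat_lit 6) (nat_lit 0) (.cons (.br (nat_lit 11) (nat_lit 0) (.cons (.kr (nat_lit 309485009893402662762709248) (nat_lit 20282409603651670423951563030528) (nat_lit 1) (nat_lit 0)) (.cons (.br (nat_lit 14) (nat_lit 0) (.cons (.ev (nat_lit 2668860946925881215185535256691343873) (nat_lit 2)) (.cons (.rf (nat_lit 1) (nat_lit 582139165023425)) .nil))) (.cons (.br (nat_lit 14) (nat_lit 0) (.cons (.ev (nat_lit 2658476353827781579571727359992266753) (nat_lit 2)) (.cons (.ev (nat_lit 340287559218106483300824764471815766016) (nat_lit 1)) (.cons (.br (nat_lit 15) (nat_lit 0) (.cons (.ev (nat_lit 2658476511667563884974024794369556995) (nat_lit 2)) (.cons (.rf (nat_lit 425) (nat_lit 19533278420010486006854)) .nil))) .nil)))) (.cons (.br (nat_lit 15) (nat_lit 0) (.cons (.rf (nat_lit 1) (nat_lit 582036186471617)) (.cons (.ev (nat_lit 2658476511667563884974024794369556995) (nat_lit 2)) (.cons (.br (nat_lit 14) (nat_lit 0) (.cons (.rf (nat_lit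 456) (nat_lit 20676976407233383537121)) (.cons (.ev (nat_lit 87113620352053199582352772268305015635968) (nat_lit 1)) .nil))) .nil)))) .nil))))) (.cons (.br (nat_lit 7) (nat_lit 0) (.cons (.kr (nat_lit 309485009893402662762709248) (nat_lit 20282409603651670423951563030528) (nat_lit 1) (nat_lit 0)) (.cons (.br (nat_lit 14) (nat_lit 0) (.cons (.ev (nat_lit 2668861106001176263501015777861042177) (nat_lit 2)) (.cons (.rf (nat_lit 1) (nat_lit 582139030809793)) .nil))) (.cons (.kr (nat_lit 620183667972903923856966145) (nat_lit 20361637766202828812642479636480) (nat_lit 0) (nat_lit 14)) (.cons (.br (nat_lit 14) (nat_lit 0) (.cons (.rf (nat_lit 1) (nat_lit 581898747522241)) (.cons (.br (nat_lit 15) (nat_lit 0) (.cons (.ev (nat_lit 1363787944354499130748818837624793990661) (nat_lit 3)) (.cons (.rf (nat_lit 246) (nat_lit 19533198373499271875777)) .nil))) (.cons (.br (nat_lit 15) (nat_lit 0) (.cons (.br (nat_lit 16) (nat_lit 0) (.cons (.ev (nat_lit 1363787944038819603917522566465504543233) (nat_lit 3)) .nil)) (.cons (.ev (nat_lit 87112291144419052437368097366586161102848)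 (nat_lit 1)) .nil))) .nil)))) .nil))))) (.cons (.br (nat_lit 7) (nat_lit 0) (.cons (.br (nat_lit 15) (nat_lit 0) (.cons (.ev (nat_lit 2658476353827781579571727359992266753) (nat_lit 2)) (.cons (.rf (nat_lit 1) (nat_lit 582169095583937)) .nil))) (.cons (.kr (nat_lit 79228162514264619068520660992) (nat_lit 5192296858534827700588090367148032) (nat_lit 6) (nat_lit 0)) (.cons (.br (nat_lit 11) (nat_lit 0) (.cons (.ev (nat_lit 20362257959278640631216844439553) (nat_lit 2)) (.cons (.ev (nat_lit 10405114431353962282815158468345857) (nat_lit 2)) (.cons (.br (nat_lit 15) (nat_lit 0) (.cons (.ev (nat_lit 341611615278362354428105130830561607937) (nat_lit 1)) (.cons (.rf (nat_lit 1294) (nat_lit 19998084268265729003174089)) .nil))) .nil)))) (.cons (.br (nat_lit 11) (nat_lit 0) (.cons (.rf (nat_lit 1) (nat_lit 581898646862017)) (.cons (.ev (nat_lit 10405114431353962282815158468345857) (nat_lit 2)) (.cons (.br (nat_lit 15) (nat_lit 0) (.cons (.rf (nat_lit 295) (nat_lit 20661806270602067293378)) (.cons (.ev (nat_lit 87113620352053199582352772268305015635968)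 (nat_lit 1)) .nil))) .nil)))) .nil))))) (.cons (.br (nat_lit 14) (nat_lit 0) (.cons (.kr (nat_lit 79228167236630820463189164032) (nat_lit 1334420292643450700532337556609564672) (nat_lit 9) (nat_lit 0)) (.cons (.br (nat_lit 7) (nat_lit 0) (.cons (.ev (nat_lit 2668861106003603559873212965967757315) (nat_lit 2)) (.cons (.rf (nat_lit 1) (nat_lit 581897573121217)) .nil))) (.cons (.kr (nat_lit 2668840585288110326884290846217207809) (nat_lit 20361637770925195295507813105664) (nat_lit 0) (nat_lit 1)) (.cons (.br (nat_lit 7) (nat_lit 0) (.cons (.rf (nat_lit 1) (nat_lit 582134735846593)) (.cons (.br (nat_lit 11) (nat_lit 0) (.cons (.ev (nat_lit 1363787944354494313935006306171516749313) (nat_lit 3)) (.cons (.rf (nat_lit 467) (nat_lit 20001962774587935485734381)) .nil))) (.cons (.br (nat_lit 11) (nat_lit 0) (.cons (.br (nat_lit 16) (nat_lit 0) (.cons (.ev (nat_lit 1369125625208155447790612374545198351873) (nat_lit 3)) .nil)) (.cons (.ev (nat_lit 87113615180117669328681256872801501970688) (nat_lit 1)) .nil))) .nil)))) .nil))))) (.cons (.br (nat_lit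 11) (nat_lit 0) (.cons (.br (nat_lit 14) (nat_lit 0) (.cons (.ev (nat_lit 2658476353827781579571727359992266753) (nat_lit 2)) (.cons (.ev (nat_lit 31174303108259607810096084877181445) (nat_lit 3)) (.cons (.br (nat_lit 15) (nat_lit 0) (.cons (.ev (nat_lit 341611594996262235786183994362275364865) (nat_lit 1)) (.cons (.br (nat_lit 16) (nat_lit 0) (.cons (.ev (nat_lit 2622226553339140924189191562285887208821791) (nat_lit 5)) .nil)) .nil))) .nil)))) (.cons (.br (nat_lit 7) (nat_lit 0) (.cons (.ev (nat_lit 2658476353827781579571727359992266753) (nat_lit 2)) (.cons (.ev (nat_lit 340287559297026374453525913189004411137) (nat_lit 1)) (.cons (.br (nat_lit 15) (nat_lit 0) (.cons (.ev (nat_lit 2668860946925881215185535256691343873) (nat_lit 2)) (.cons (.rf (nat_lit 425) (nat_lit 20667379226854310459873)) .nil))) .nil)))) (.cons (.ev (nat_lit 2658476353830208875943924548098981891) (nat_lit 2)) (.cons (.br (nat_lit 7) (nat_lit 0) (.cons (.ev (nat_lit 10405114436180258009467907641574917) (nat_lit 3)) (.cons (.ev (nat_lit 20362257959278640631216844439553)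 (nat_lit 2)) (.cons (.br (nat_lit 14) (nat_lit 0) (.cons (.ev (nat_lit 341611594996261031582730861498956054528) (nat_lit 1)) (.cons (.ev (nat_lit 10404955358467321161830740088979971) (nat_lit 2)) .nil))) .nil)))) (.cons (.br (nat_lit 7) (nat_lit 0) (.cons (.rf (nat_lit 1421) (nat_lit 677582165103132179601393696)) (.cons (.br (nat_lit 14) (nat_lit 0) (.cons (.ev (nat_lit 340287579500207815590931999542711746817) (nat_lit 1)) (.cons (.rf (nat_lit 644) (nat_lit 20003257535062816952984010)) .nil))) (.cons (.br (nat_lit 14) (nat_lit 0) (.cons (.ev (nat_lit 2679245699106529564714671364565500935) (nat_lit 3)) (.cons (.rf (nat_lit 1327) (nat_lit 21174172480757626177888330)) .nil))) (.cons (.br (nat_lit 14) (nat_lit 0) (.cons (.br (nat_lit 16) (nat_lit 0) (.cons (.ev (nat_lit 2614059776531775680569151861350669278774285) (nat_lit 5)) .nil)) (.cons (.ev (nat_lit 340282367000477324635718446290701451265) (nat_lit 1)) (.cons (.ev (nat_lit 10404955358467321161830740088979971) (nat_lit 2)) .nil)))) .nil))))) .nil)))))) (.cons (.br (nat_lit 7) (nat_lit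 0) (.cons (.br (nat_lit 14) (nat_lit 0) (.cons (.rf (nat_lit 1) (nat_lit 581864387783905)) (.cons (.br (nat_lit 16) (nat_lit 0) (.cons (.ev (nat_lit 5348086286243087395857505118081909249) (nat_lit 3)) (.cons (.ev (nat_lit 1361139873116335788578072037204749844993) (nat_lit 3)) .nil))) (.cons (.br (nat_lit 15) (nat_lit 0) (.cons (.br (nat_lit 16) (nat_lit 0) (.cons (.zr (nat_lit 1361139852674230739193899313000215609856) (nat_lit 7975550516399554879917193927174651907) (nat_lit 16) (nat_lit 7)) .nil)) (.cons (.ev (nat_lit 87112291144419052437368097366586161102848) (nat_lit 1)) .nil))) .nil)))) (.cons (.br (nat_lit 11) (nat_lit 0) (.cons (.rf (nat_lit 1) (nat_lit 581864287123681)) (.cons (.ev (nat_lit 10405114436180258009467907641574917) (nat_lit 3)) (.cons (.rf (nat_lit 1421) (nat_lit 677582165103132179601393696)) .nil)))) (.cons (.br (nat_lit 11) (nat_lit 0) (.cons (.rf (nat_lit 1) (nat_lit 581863213382881)) (.cons (.ev (nat_lit 20362257959278640631216844439553) (nat_lit 2)) (.cons (.br (nat_lit 14) (nat_lit 0) (.cons (.rf (nat_lit 456)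 (nat_lit 19523908574436201497671)) (.cons (.ev (nat_lit 87113620352053199582352772268305015635968) (nat_lit 1)) .nil))) .nil)))) (.cons (.br (nat_lit 11) (nat_lit 0) (.cons (.br (nat_lit 15) (nat_lit 0) (.cons (.ev (nat_lit 2668860946925881215185535256691343873) (nat_lit 2)) (.cons (.rf (nat_lit 458) (nat_lit 19534323106444052928587)) .nil))) (.cons (.ev (nat_lit 20362257959278640631216844439553) (nat_lit 2)) (.cons (.br (nat_lit 14) (nat_lit 0) (.cons (.ev (nat_lit 2658476512905513479672272318076420099) (nat_lit 3)) (.cons (.ev (nat_lit 10404955358467321161830740088979971) (nat_lit 2)) .nil))) (.cons (.br (nat_lit 14) (nat_lit 0) (.cons (.br (nat_lit 16) (nat_lit 0) (.cons (.ev (nat_lit 1363787944512338912980723515023279129607) (nat_lit 3)) .nil)) (.cons (.rf (nat_lit 1330) (nat_lit 21174169081632985614426186)) (.cons (.ev (nat_lit 10404955358467321161830740088979971) (nat_lit 2)) .nil)))) .nil))))) (.cons (.br (nat_lit 14) (nat_lit 0) (.cons (.br (nat_lit 15) (nat_lit 0) (.cons (.ev (nat_lit 2668860946925881215185535256691343873) (nat_lit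 2)) (.cons (.ev (nat_lit 87113620352053199582352772268305015635968) (nat_lit 1)) .nil))) (.cons (.br (nat_lit 11) (nat_lit 0) (.cons (.br (nat_lit 16) (nat_lit 0) (.cons (.zr (nat_lit 1363839948055957052170981071912859467776) (nat_lit 714914004187134127659808720387) (nat_lit 16) (nat_lit 14)) .nil)) (.cons (.ev (nat_lit 87113615180117669328681256872801501970688) (nat_lit 1)) .nil))) (.cons (.ev (nat_lit 10404955358467321161830740088979971) (nat_lit 2)) (.cons (.ev (nat_lit 87112285931760246651364713010951010386176) (nat_lit 1)) .nil))))) .nil)))))) .nil))))))) .nil)))))))]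

theorem c83 : chkAll C T R L83 (nat_lit 1417) = true := by decide +kernel

theorem l83 : (nat_lit 1417) + L83.length = (nat_lit 1423) := by decide +kernel

/-- part of the certificates -/
def L84 : List Prf := [(.br (nat_lit 15) (nat_lit 0) (.cons (.rf (nat_lit 258) (nat_lit 20661584252742992867814)) (.cons (.ev (nat_lit 87112291124057415875405615737900128796673) (nat_lit 1)) .nil))),
 (.br (nat_lit 16) (nat_lit 0) (.cons (.ev (nat_lit 20520095314287382503277430178307) (nat_lit 2)) (.cons (.ev (nat_lit 2658476353827791061197618288158310403) (nat_lit 2)) (.cons (.kr (nat_lit 174224571863599722664687882958387554549761) (nat_lit 680564754124286535300786121684744667136) (nat_lit 0) (nat_lit 1)) .nil)))),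
 (.br (nat_lit 2) (nat_lit 0) (.cons (.rf (nat_lit 1419) (nat_lit 546993534868772933960768)) (.cons (.rf (nat_lit 1416) (nat_lit 546993534868772933960768)) (.cons (.br (nat_lit 6) (nat_lit 0) (.cons (.br (nat_lit 14) (nat_lit 0) (.cons (.ev (nat_lit 10405272268718452938808549142037509) (nat_lit 3)) (.cons (.br (nat_lit 15) (nat_lit 0) (.cons (.ev (nat_lit 2668860946925881215185535256691343873) (nat_lit 2)) (.cons (.rf (nat_lit 1) (nat_lit 582164779737153)) .nil))) .nil))) (.cons (.ev (nat_lit 20837007973826066870505449063429) (nat_lit 3)) (.cons (.ev (nat_lit 2658476353827791061197618288191864833) (nat_lit 2)) (.cons (.br (nat_lit 7) (nat_lit 0) (.cons (.ev (nat_lit 10405114431344554442774608087089153) (nat_lit 2)) (.cons (.ev (nat_lit 20679170628225163919666670994949) (nat_lit 3)) (.cons (.br (nat_lit 14) (nat_lit 0) (.cons (.ev (nat_lit 2668861106001185745128032605967482881) (nat_lit 2)) (.cons (.ev (nat_lit 340282387282577438573576009150424416513) (nat_lit 1)) (.cons (.br (nat_lit 15) (nat_lit 0) (.cons (.ev (nat_lit 340282367000476110987532348791898308608)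 (nat_lit 1)) (.cons (.ev (nat_lit 2668860946925881215185535256691343873) (nat_lit 2)) .nil))) .nil)))) (.cons (.br (nat_lit 14) (nat_lit 0) (.cons (.rf (nat_lit 1) (nat_lit 581898751811649)) (.cons (.br (nat_lit 15) (nat_lit 0) (.cons (.ev (nat_lit 2668860946925881215185535256691343873) (nat_lit 2)) (.cons (.rf (nat_lit 648) (nat_lit 19987526862245491859864041)) .nil))) (.cons (.br (nat_lit 17) (nat_lit 0) (.cons (.ev (nat_lit 2668860946925881215185535256691343873) (nat_lit 2)) (.cons (.ev (nat_lit 87112291144419053646275470518612308066305) (nat_lit 1)) .nil))) .nil)))) .nil))))) .nil))))) (.cons (.br (nat_lit 7) (nat_lit 0) (.cons (.ev (nat_lit 10405114431353962282815158501900291) (nat_lit 2)) (.cons (.ev (nat_lit 10405114431344554442774608087089153) (nat_lit 2)) (.cons (.br (nat_lit 6) (nat_lit 0) (.cons (.ev (nat_lit 20789867842688759284466743144088069) (nat_lit 3)) (.cons (.br (nat_lit 8) (nat_lit 0) (.cons (.ev (nat_lit 2658455991569836486765802888829796867) (nat_lit 2)) (.cons (.rf (nat_lit 1) (nat_lit 581932876675137)) .nil)))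 .nil))) (.cons (.br (nat_lit 8) (nat_lit 0) (.cons (.br (nat_lit 15) (nat_lit 0) (.cons (.ev (nat_lit 2668861106003594152034296125026467841) (nat_lit 2)) (.cons (.rf (nat_lit 1) (nat_lit 582165846145089)) .nil))) (.cons (.ev (nat_lit 2663648447195395037678977470919934722) (nat_lit 2)) (.cons (.ev (nat_lit 31174460943225172897482101835825157) (nat_lit 3)) (.cons (.br (nat_lit 6) (nat_lit 0) (.cons (.rf (nat_lit 1) (nat_lit 581932844169281)) (.cons (.br (nat_lit 15) (nat_lit 0) (.cons (.ev (nat_lit 5327316939736070852062439264766656519) (nat_lit 3)) (.cons (.ev (nat_lit 5327316939736089815316472920912429059) (nat_lit 3)) .nil))) (.cons (.br (nat_lit 15) (nat_lit 0) (.cons (.ev (nat_lit 7996158000391942745473584114922881030) (nat_lit 3)) (.cons (.ev (nat_lit 87113620352132119468764515793411518824705) (nat_lit 1)) .nil))) .nil)))) .nil))))) .nil))))) (.cons (.br (nat_lit 6) (nat_lit 0) (.cons (.kr (nat_lit 79229376162594551379951353857) (nat_lit 2658476273979435397478601022077140992) (nat_lit 0) (nat_lit 1)) (.cons (.ev (nat_lit 2658476353830208875943922357665660931)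 (nat_lit 2)) (.cons (.br (nat_lit 7) (nat_lit 0) (.cons (.ev (nat_lit 10405114431372852038109510177654277) (nat_lit 3)) (.cons (.br (nat_lit 8) (nat_lit 0) (.cons (.ev (nat_lit 5192534543027148200881115044577793) (nat_lit 2)) (.cons (.rf (nat_lit 1) (nat_lit 581931770428481)) .nil))) .nil))) (.cons (.br (nat_lit 7) (nat_lit 0) (.cons (.br (nat_lit 14) (nat_lit 0) (.cons (.kr (nat_lit 20361637770925195295507813105665) (nat_lit 2668840585288110326884290846250762240) (nat_lit 0) (nat_lit 1)) (.cons (.rf (nat_lit 1) (nat_lit 582131518913601)) .nil))) (.cons (.br (nat_lit 8) (nat_lit 0) (.cons (.ev (nat_lit 20789867842679351445552092703490567) (nat_lit 3)) (.cons (.rf (nat_lit 1) (nat_lit 581931802934337)) .nil))) (.cons (.br (nat_lit 8) (nat_lit 0) (.cons (.ev (nat_lit 5316932662315099196827966983639270915) (nat_lit 3)) (.cons (.ev (nat_lit 340282387203658765773124531540602191873) (nat_lit 1)) (.cons (.br (nat_lit 14) (nat_lit 0) (.cons (.ev (nat_lit 2668861106001176263501015777894596611) (nat_lit 2)) (.cons (.rf (nat_lit 694) (nat_lit 21174442259778513541368032))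 .nil))) .nil)))) (.cons (.br (nat_lit 14) (nat_lit 0) (.cons (.rf (nat_lit 1) (nat_lit 581897476750401)) (.cons (.br (nat_lit 8) (nat_lit 0) (.cons (.ev (nat_lit 341616807495991522537943851809569308928) (nat_lit 1)) (.cons (.rf (nat_lit 1308) (nat_lit 21166214221510082337802272)) .nil))) (.cons (.ev (nat_lit 2668861106001176263501015777894596611) (nat_lit 2)) .nil)))) .nil))))) .nil))))) (.cons (.br (nat_lit 6) (nat_lit 0) (.cons (.br (nat_lit 8) (nat_lit 0) (.cons (.br (nat_lit 15) (nat_lit 0) (.cons (.ev (nat_lit 2668860946925881215185535256691343873) (nat_lit 2)) (.cons (.rf (nat_lit 1) (nat_lit 582172350454977)) .nil))) (.cons (.ev (nat_lit 20520097732175915781434162283011) (nat_lit 2)) (.cons (.br (nat_lit 14) (nat_lit 0) (.cons (.ev (nat_lit 5192534543036556039795765552546307) (nat_lit 2)) (.cons (.ev (nat_lit 10404955358467321161828532509344257) (nat_lit 2)) (.cons (.br (nat_lit 15) (nat_lit 0) (.cons (.ev (nat_lit 340282366920939672407641248713452552448) (nat_lit 1)) (.cons (.rf (nat_lit 394) (nat_lit 20677910928703139288258))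 .nil))) .nil)))) (.cons (.br (nat_lit 14) (nat_lit 0) (.cons (.rf (nat_lit 1) (nat_lit 581933107354817)) (.cons (.ev (nat_lit 10404955358467321161828532509344257) (nat_lit 2)) (.cons (.br (nat_lit 15) (nat_lit 0) (.cons (.rf (nat_lit 586) (nat_lit 661655132536747363541482)) (.cons (.ev (nat_lit 87112285931839784298888870752306828673025) (nat_lit 1)) .nil))) .nil)))) .nil))))) (.cons (.br (nat_lit 7) (nat_lit 0) (.cons (.ev (nat_lit 10404955358476802787719477855257091) (nat_lit 2)) (.cons (.br (nat_lit 14) (nat_lit 0) (.cons (.ev (nat_lit 5192534543036556039795765552546307) (nat_lit 2)) (.cons (.rf (nat_lit 1) (nat_lit 582139030905025)) .nil))) (.cons (.br (nat_lit 14) (nat_lit 0) (.cons (.ev (nat_lit 5192534543036556039795765552546307) (nat_lit 2)) (.cons (.ev (nat_lit 1361139872798190034111507899825114187271) (nat_lit 3)) (.cons (.br (nat_lit 15) (nat_lit 0) (.cons (.ev (nat_lit 1377080223999161605465394324149399062019) (nat_lit 4)) (.cons (.br (nat_lit 16) (nat_lit 0) (.cons (.ev (nat_lit 4099380698375358018352114417223087031823) (nat_lit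 4)) .nil)) .nil))) .nil)))) (.cons (.br (nat_lit 14) (nat_lit 0) (.cons (.rf (nat_lit 1) (nat_lit 581898747617473)) (.cons (.br (nat_lit 15) (nat_lit 0) (.cons (.ev (nat_lit 5348086286243087395857511723708056067) (nat_lit 3)) (.cons (.ev (nat_lit 5327317415726452735434486383905210883) (nat_lit 3)) .nil))) (.cons (.rf (nat_lit 1423) (nat_lit 677582165103132179601393696)) .nil)))) .nil))))) (.cons (.br (nat_lit 7) (nat_lit 0) (.cons (.br (nat_lit 15) (nat_lit 0) (.cons (.ev (nat_lit 1334420530327947706505343837126459907) (nat_lit 2)) (.cons (.rf (nat_lit 1) (nat_lit 582165874456769)) .nil))) (.cons (.kr (nat_lit 79228162514264619068520660992) (nat_lit 5192296858534827700588090367148032) (nat_lit 6) (nat_lit 0)) (.cons (.br (nat_lit 15) (nat_lit 0) (.cons (.ev (nat_lit 5192534543036556039795765552546307) (nat_lit 2)) (.cons (.ev (nat_lit 1366456785099475461404027440766138974721) (nat_lit 3)) (.cons (.br (nat_lit 16) (nat_lit 0) (.cons (.ev (nat_lit 4777707561719022289409) (nat_lit 2)) (.cons (.ev (nat_lit 1366477553969996950657197107901035184641)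 (nat_lit 3)) .nil))) .nil)))) (.cons (.br (nat_lit 8) (nat_lit 0) (.cons (.rf (nat_lit 1) (nat_lit 581898546297025)) (.cons (.ev (nat_lit 4777707561719022289409) (nat_lit 2)) (.cons (.br (nat_lit 15) (nat_lit 0) (.cons (.br (nat_lit 16) (nat_lit 0) (.cons (.ev (nat_lit 1361160641986857306055334915614739530241) (nat_lit 3)) .nil)) (.cons (.ev (nat_lit 348454491813642904412280608670653551216129) (nat_lit 3)) .nil))) .nil)))) .nil))))) (.cons (.br (nat_lit 7) (nat_lit 0) (.cons (.ev (nat_lit 20520097732175915781434162283011) (nat_lit 2)) (.cons (.kr (nat_lit 79228167236630820463189164032) (nat_lit 1334420292643450700532337556609564672) (nat_lit 9) (nat_lit 0)) (.cons (.br (nat_lit 8) (nat_lit 0) (.cons (.ev (nat_lit 15961141382008178865882709509219290625) (nat_lit 4)) (.cons (.ev (nat_lit 340282387282576234370122877390894924033) (nat_lit 1)) (.cons (.br (nat_lit 14) (nat_lit 0) (.cons (.ev (nat_lit 340287579500207815590931998447478309120) (nat_lit 1)) (.cons (.ev (nat_lit 2668860946928299103718815621003084291) (nat_lit 2)) .nil))) .nil))))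 (.cons (.br (nat_lit 8) (nat_lit 0) (.cons (.rf (nat_lit 1) (nat_lit 581897472556225)) (.cons (.br (nat_lit 14) (nat_lit 0) (.cons (.ev (nat_lit 2668860946928299103718815621003084291) (nat_lit 2)) (.cons (.rf (nat_lit 258) (nat_lit 20661584499033597489414)) .nil))) (.cons (.br (nat_lit 14) (nat_lit 0) (.cons (.br (nat_lit 16) (nat_lit 0) (.cons (.ev (nat_lit 341611594916723384058717237530236879105) (nat_lit 1)) .nil)) (.cons (.ev (nat_lit 2668860946928299103718815621003084291) (nat_lit 2)) .nil))) .nil)))) .nil))))) (.cons (.br (nat_lit 7) (nat_lit 0) (.cons (.br (nat_lit 14) (nat_lit 0) (.cons (.ev (nat_lit 10404955356049506415524480215417347) (nat_lit 2)) (.cons (.ev (nat_lit 340282387282577438573576009150424416513) (nat_lit 1)) (.cons (.br (nat_lit 15) (nat_lit 0) (.cons (.ev (nat_lit 1369104856337633977353122795082398172679) (nat_lit 3)) (.cons (.br (nat_lit 16) (nat_lit 0) (.cons (.ev (nat_lit 2740920070797813097176432013530987104783) (nat_lit 4)) .nil)) .nil))) .nil)))) (.cons (.br (nat_lit 8) (nat_lit 0) (.cons (.ev (nat_lit 1334420530331579206330670594295792131)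 (nat_lit 2)) (.cons (.ev (nat_lit 340287559297026369749605892922386940160) (nat_lit 1)) (.cons (.br (nat_lit 15) (nat_lit 0) (.cons (.ev (nat_lit 341611615278362354428105129735328170240) (nat_lit 1)) (.cons (.ev (nat_lit 2658476511667554477133982053554979331) (nat_lit 2)) .nil))) .nil)))) (.cons (.br (nat_lit 14) (nat_lit 0) (.cons (.ev (nat_lit 4777707561719022289409) (nat_lit 2)) (.cons (.ev (nat_lit 1361150257551596561428462977571046556161) (nat_lit 3)) (.cons (.br (nat_lit 16) (nat_lit 0) (.cons (.ev (nat_lit 1329227995784915928460214266841072129) (nat_lit 2)) (.cons (.ev (nat_lit 1366467169534736206030899378809831948801) (nat_lit 3)) .nil))) .nil)))) (.cons (.ev (nat_lit 340282387282577443277495466475678400768) (nat_lit 1)) (.cons (.br (nat_lit 8) (nat_lit 0) (.cons (.ev (nat_lit 4777707561719022289409) (nat_lit 2)) (.cons (.br (nat_lit 14) (nat_lit 0) (.cons (.ev (nat_lit 2668860946925881215185535256691343873) (nat_lit 2)) (.cons (.rf (nat_lit 258) (nat_lit 20661584499033597489352)) .nil))) (.cons (.br (nat_lit 15) (nat_lit 0)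 (.cons (.ev (nat_lit 341616807495991522537943851809569308928) (nat_lit 1)) (.cons (.ev (nat_lit 2658476511667563884974022586789921281) (nat_lit 2)) .nil))) (.cons (.br (nat_lit 15) (nat_lit 0) (.cons (.ev (nat_lit 2658476511667554477133982053554979331) (nat_lit 2)) (.cons (.ev (nat_lit 341611615278362359168918075199411192065) (nat_lit 1)) (.cons (.ev (nat_lit 2658476511667563884974022586789921281) (nat_lit 2)) .nil)))) .nil))))) .nil)))))) (.cons (.br (nat_lit 7) (nat_lit 0) (.cons (.br (nat_lit 14) (nat_lit 0) (.cons (.ev (nat_lit 10404955356049506415524480215417347) (nat_lit 2)) (.cons (.br (nat_lit 15) (nat_lit 0) (.cons (.ev (nat_lit 1363787944354499130748818839815260866051) (nat_lit 3)) (.cons (.br (nat_lit 16) (nat_lit 0) (.cons (.ev (nat_lit 2730286246831524136417426089664888834567) (nat_lit 4)) .nil)) .nil))) (.cons (.br (nat_lit 15) (nat_lit 0) (.cons (.rf (nat_lit 1424) (nat_lit 677582165103132179601393696)) (.cons (.ev (nat_lit 87112285931839784298888870752306828673025) (nat_lit 1)) .nil))) .nil)))) (.cons (.br (nat_lit 8)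 (nat_lit 0) (.cons (.rf (nat_lit 1) (nat_lit 581864186558689)) (.cons (.br (nat_lit 15) (nat_lit 0) (.cons (.ev (nat_lit 2658476511667554477133982053554979331) (nat_lit 2)) (.cons (.br (nat_lit 16) (nat_lit 0) (.cons (.ev (nat_lit 341611615278361145520731977700591272193) (nat_lit 1)) .nil)) .nil))) (.cons (.br (nat_lit 15) (nat_lit 0) (.cons (.rf (nat_lit 679) (nat_lit 661665446000216235020322)) (.cons (.ev (nat_lit 2658476511667554477133982053554979331) (nat_lit 2)) .nil))) .nil)))) (.cons (.br (nat_lit 8) (nat_lit 0) (.cons (.rf (nat_lit 1) (nat_lit 581863112817889)) (.cons (.ev (nat_lit 1329227995784915928460214266841072129) (nat_lit 2)) (.cons (.br (nat_lit 14) (nat_lit 0) (.cons (.br (nat_lit 16) (nat_lit 0) (.cons (.ev (nat_lit 1366446400030389416663040801974094397953) (nat_lit 3)) .nil)) (.cons (.ev (nat_lit 348454481428573818367539622031861506639361) (nat_lit 3)) .nil))) .nil)))) (.cons (.br (nat_lit 15) (nat_lit 0) (.cons (.br (nat_lit 14) (nat_lit 0) (.cons (.ev (nat_lit 2668860946925881215185535256691343873) (nat_lit 2)) (.cons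 (.rf (nat_lit 467) (nat_lit 20002041361524200899090467)) .nil))) (.cons (.br (nat_lit 8) (nat_lit 0) (.cons (.ev (nat_lit 2658476511667554477133982053554979331) (nat_lit 2)) (.cons (.rf (nat_lit 618) (nat_lit 21173188241640864168810531)) .nil))) (.cons (.br (nat_lit 8) (nat_lit 0) (.cons (.ev (nat_lit 2658476511667554477133982053554979331) (nat_lit 2)) (.cons (.rf (nat_lit 681) (nat_lit 21173294272006919584580672)) .nil))) (.cons (.ev (nat_lit 2658476511667563884974022586789921281) (nat_lit 2)) .nil))))) (.cons (.br (nat_lit 15) (nat_lit 0) (.cons (.br (nat_lit 14) (nat_lit 0) (.cons (.ev (nat_lit 2668860946925881215185535256691343873) (nat_lit 2)) (.cons (.ev (nat_lit 87112291144419052437368097366586161102848) (nat_lit 1)) .nil))) (.cons (.br (nat_lit 8) (nat_lit 0) (.cons (.rf (nat_lit 701) (nat_lit 19986656913060118890813667)) (.cons (.ev (nat_lit 2658476511667554477133982053554979331) (nat_lit 2)) .nil))) (.cons (.ev (nat_lit 2658476511667563884974022586789921281) (nat_lit 2)) (.cons (.br (nat_lit 8) (nat_lit 0) (.cons (.ev (nat_lit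 2658476511667554477133982053554979331) (nat_lit 2)) (.cons (.rf (nat_lit 682) (nat_lit 661665477703495820870720)) .nil))) .nil))))) .nil)))))) .nil))))))) .nil))))))),
 (.br (nat_lit 2) (nat_lit 0) (.cons (.rf (nat_lit 1419) (nat_lit 546993534868772933960768)) (.cons (.rf (nat_lit 1416) (nat_lit 546993534868772933960768)) (.cons (.rf (nat_lit 1425) (nat_lit 546993534868772933960768)) (.cons (.rf (nat_lit 1422) (nat_lit 546993534868772933960768)) (.cons (.kr (nat_lit 79228167236630820463189164033) (nat_lit 1334420292643450700532337556626341888) (nat_lit 0) (nat_lit 1)) (.cons (.br (nat_lit 6) (nat_lit 0) (.cons (.kr (nat_lit 20361637770888301807364688838657) (nat_lit 10384593718278581220791909437407232) (nat_lit 0) (nat_lit 1)) (.cons (.br (nat_lit 7) (nat_lit 0) (.cons (.kr (nat_lit 79847137256274073550592147969) (nat_lit 10404876127882232747100672941359104) (nat_lit 0) (nat_lit 2)) (.cons (.br (nat_lit 11) (nat_lit 0) (.cons (.ev (nat_lit 20362257959278640631216844439553) (nat_lit 2)) (.cons (.rf (nat_lit 1) (nat_lit 582035951788225))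 .nil))) (.cons (.br (nat_lit 11) (nat_lit 0) (.cons (.ev (nat_lit 20362257959278640631216844439553) (nat_lit 2)) (.cons (.ev (nat_lit 20362260377167173911563976310787) (nat_lit 2)) (.cons (.br (nat_lit 15) (nat_lit 0) (.cons (.ev (nat_lit 341611615278362354428105130830561607937) (nat_lit 1)) (.cons (.rf (nat_lit 569) (nat_lit 624792679922691963271533)) .nil))) .nil)))) (.cons (.br (nat_lit 11) (nat_lit 0) (.cons (.rf (nat_lit 1) (nat_lit 581898647052481)) (.cons (.br (nat_lit 15) (nat_lit 0) (.cons (.ev (nat_lit 341611594996262235786183993258485547008) (nat_lit 1)) (.cons (.br (nat_lit 16) (nat_lit 0) (.cons (.ev (nat_lit 341611594996261026878810841232338583553) (nat_lit 1)) .nil)) .nil))) (.cons (.ev (nat_lit 20362260377167173911563976310787) (nat_lit 2)) .nil)))) .nil))))) (.cons (.br (nat_lit 8) (nat_lit 0) (.cons (.ev (nat_lit 31153860697342656719651821005571335) (nat_lit 3)) (.cons (.kr (nat_lit 20361638979814120859043910123521) (nat_lit 2668840585286901401064676212747534336) (nat_lit 0) (nat_lit 1)) (.cons (.br (nat_lit 7) (nat_lit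 0) (.cons (.ev (nat_lit 1329227995784925336300254817255883267) (nat_lit 2)) (.cons (.ev (nat_lit 1361160642302531997257140826054095537669) (nat_lit 3)) (.cons (.br (nat_lit 15) (nat_lit 0) (.cons (.ev (nat_lit 1361160642302536832886631177977935955461) (nat_lit 3)) (.cons (.kr (nat_lit 79848346182237240417889288705) (nat_lit 2668860867696505052735100164327342080) (nat_lit 0) (nat_lit 2)) .nil))) .nil)))) (.cons (.br (nat_lit 7) (nat_lit 0) (.cons (.rf (nat_lit 1) (nat_lit 581932872576193)) (.cons (.br (nat_lit 16) (nat_lit 0) (.cons (.kr (nat_lit 79848346182237240417889288705) (nat_lit 2668860867696505052735100164327342080) (nat_lit 0) (nat_lit 2)) (.cons (.ev (nat_lit 1361160641986862141832401471928203739649) (nat_lit 3)) .nil))) (.cons (.br (nat_lit 15) (nat_lit 0) (.cons (.br (nat_lit 16) (nat_lit 0) (.cons (.ev (nat_lit 1361160641986857306055334915614739530241) (nat_lit 3)) .nil)) (.cons (.kr (nat_lit 79848346182237240417889288705) (nat_lit 2668860867696505052735100164327342080) (nat_lit 0) (nat_lit 2)) .nil))) .nil)))) .nil)))))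 (.cons (.br (nat_lit 8) (nat_lit 0) (.cons (.ev (nat_lit 2658476511667554477133984243954745857) (nat_lit 2)) (.cons (.ev (nat_lit 2658476353827791061197620495805054977) (nat_lit 2)) (.cons (.br (nat_lit 7) (nat_lit 0) (.cons (.ev (nat_lit 2689630610352810890053176767365121543) (nat_lit 3)) (.cons (.ev (nat_lit 1379769834401360583078630283769490573319) (nat_lit 4)) (.cons (.br (nat_lit 11) (nat_lit 0) (.cons (.ev (nat_lit 4091436484179947629537466499466759634951) (nat_lit 4)) (.cons (.ev (nat_lit 10384673257149253638111311851225856) (nat_lit 2)) .nil))) .nil)))) (.cons (.br (nat_lit 7) (nat_lit 0) (.cons (.rf (nat_lit 1) (nat_lit 581928577612993)) (.cons (.br (nat_lit 11) (nat_lit 0) (.cons (.ev (nat_lit 4102028770247341815451496227454235181571) (nat_lit 4)) (.cons (.ev (nat_lit 10384673257149253638111311851225856) (nat_lit 2)) .nil))) (.cons (.br (nat_lit 11) (nat_lit 0) (.cons (.ev (nat_lit 2658476274909108852907224932645142787) (nat_lit 2)) (.cons (.ev (nat_lit 348462446412431434671061716226148174663179) (nat_lit 4)) .nil))) .nil))))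 .nil))))) (.cons (.br (nat_lit 15) (nat_lit 0) (.cons (.ev (nat_lit 2658476511665136588601829796729717251) (nat_lit 2)) (.cons (.kr (nat_lit 20361638979814120859043910123521) (nat_lit 2668840585286901401064676212747534336) (nat_lit 0) (nat_lit 1)) (.cons (.ev (nat_lit 2658476353830208875943924548098981891) (nat_lit 2)) (.cons (.ev (nat_lit 340282387282576229629309370072091918593) (nat_lit 1)) (.cons (.br (nat_lit 8) (nat_lit 0) (.cons (.br (nat_lit 11) (nat_lit 0) (.cons (.ev (nat_lit 340282366920938468204188116953923059968) (nat_lit 1)) (.cons (.ev (nat_lit 2658476353827791061197618288158310403) (nat_lit 2)) .nil))) (.cons (.br (nat_lit 7) (nat_lit 0) (.cons (.ev (nat_lit 340282366920938468204188116953923059968) (nat_lit 1)) (.cons (.ev (nat_lit 2658476511667554477133982053554979331) (nat_lit 2)) .nil))) (.cons (.ev (nat_lit 20520095304879543588626922209793) (nat_lit 2)) (.cons (.br (nat_lit 7) (nat_lit 0) (.cons (.ev (nat_lit 2658476511667554477133982053554979331) (nat_lit 2)) (.cons (.ev (nat_lit 341611615278361145520731978804414644480)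 (nat_lit 1)) (.cons (.ev (nat_lit 87112291144339515998751456894643588890880) (nat_lit 1)) .nil)))) .nil))))) .nil)))))) (.cons (.br (nat_lit 8) (nat_lit 0) (.cons (.br (nat_lit 11) (nat_lit 0) (.cons (.rf (nat_lit 1) (nat_lit 581864287314145)) (.cons (.br (nat_lit 16) (nat_lit 0) (.cons (.ev (nat_lit 2658476353827791061197618288158310403) (nat_lit 2)) (.cons (.ev (nat_lit 340282367000477319931798987870247583745) (nat_lit 1)) .nil))) (.cons (.br (nat_lit 15) (nat_lit 0) (.cons (.rf (nat_lit 452) (nat_lit 661700138519615457399054)) (.cons (.ev (nat_lit 2658476353827791061197618288158310403) (nat_lit 2)) .nil))) .nil)))) (.cons (.br (nat_lit 7) (nat_lit 0) (.cons (.rf (nat_lit 1) (nat_lit 581859891690721)) (.cons (.br (nat_lit 15) (nat_lit 0) (.cons (.ev (nat_lit 2658476511667554477133982053554979331) (nat_lit 2)) (.cons (.rf (nat_lit 997) (nat_lit 19993359681473989432229124)) .nil))) (.cons (.br (nat_lit 15) (nat_lit 0) (.cons (.rf (nat_lit 450) (nat_lit 661700138519615457399054)) (.cons (.ev (nat_lit 2658476511667554477133982053554979331)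 (nat_lit 2)) .nil))) .nil)))) (.cons (.kr (nat_lit 20361638979814120859043910123521) (nat_lit 2668840585286901401064676212747534336) (nat_lit 0) (nat_lit 1)) (.cons (.br (nat_lit 16) (nat_lit 0) (.cons (.br (nat_lit 15) (nat_lit 0) (.cons (.ev (nat_lit 20362257959278640631216844439553) (nat_lit 2)) (.cons (.rf (nat_lit 502) (nat_lit 19525173066580093110310)) .nil))) (.cons (.br (nat_lit 7) (nat_lit 0) (.cons (.ev (nat_lit 20362257959278640631216844439553) (nat_lit 2)) (.cons (.br (nat_lit 15) (nat_lit 0) (.cons (.ev (nat_lit 341611615278361145520731977700591272193) (nat_lit 1)) .nil)) .nil))) (.cons (.br (nat_lit 7) (nat_lit 0) (.cons (.ev (nat_lit 2658476511667554477133982053554979331) (nat_lit 2)) (.cons (.br (nat_lit 11) (nat_lit 0) (.cons (.ev (nat_lit 340282367000476110987532348791881531393) (nat_lit 1)) .nil)) .nil))) (.cons (.ev (nat_lit 340282366920938468204188115850099687681) (nat_lit 1)) .nil))))) (.cons (.ev (nat_lit 20520095304879543588626922209793) (nat_lit 2)) .nil)))))) .nil))))))) .nil)))))))]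

theorem c84 : chkAll C T R L84 (nat_lit 1423) = true := by decide +kernel

theorem l84 : (nat_lit 1423) + L84.length = (nat_lit 1427) := by decide +kernel

/-- part of the certificates -/
def L85 : List Prf := [(.br (nat_lit 15) (nat_lit 0) (.cons (.ev (nat_lit 340287559218107692245090842799218163713) (nat_lit 1)) .nil)),
 (.br (nat_lit 9) (nat_lit 0) (.cons (.ev (nat_lit 5192376086702064259352059046854656) (nat_lit 1)) (.cons (.rf (nat_lit 456) (nat_lit 18239625999717267281121)) .nil))),
 (.br (nat_lit 2) (nat_lit 0) (.cons (.rf (nat_lit 1419) (nat_lit 546993534868772933960768)) (.cons (.rf (nat_lit 1416) (nat_lit 546993534868772933960768)) (.cons (.rf (nat_lit 1425) (nat_lit 546993534868772933960768)) (.cons (.rf (nat_lit 1422) (nat_lit 546993534868772933960768)) (.cons (.kr (nat_lit 79228167236630820463189164033) (nat_lit 1334420292643450700532337556626341888) (nat_lit 0) (nat_lit 1)) (.cons (.br (nat_lit 8) (nat_lit 0) (.cons (.ev (nat_lit 20520097732175915783624562049537) (nat_lit 2)) (.cons (.br (nat_lit 11) (nat_lit 0) (.cons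 (.ev (nat_lit 20520097732175915781434162283011) (nat_lit 2)) (.cons (.ev (nat_lit 10404955356049506415524480215417347) (nat_lit 2)) (.cons (.br (nat_lit 6) (nat_lit 0) (.cons (.ev (nat_lit 10405114431353962282815158468345857) (nat_lit 2)) (.cons (.ev (nat_lit 1363787944038822021732270000815818670599) (nat_lit 3)) (.cons (.br (nat_lit 14) (nat_lit 0) (.cons (.kr (nat_lit 79847146701150591528005009921) (nat_lit 2668860867697713978554714793502048256) (nat_lit 0) (nat_lit 2)) (.cons (.rf (nat_lit 1381) (nat_lit 21163842516768998676367717)) .nil))) .nil)))) (.cons (.br (nat_lit 14) (nat_lit 0) (.cons (.rf (nat_lit 1) (nat_lit 582028435634369)) (.cons (.br (nat_lit 6) (nat_lit 0) (.cons (.ev (nat_lit 340282366920939677111560704934883164416) (nat_lit 1)) (.cons (.br (nat_lit 16) (nat_lit 0) (.cons (.ev (nat_lit 1363787944354496712786499706865550886403) (nat_lit 3)) .nil)) .nil))) (.cons (.kr (nat_lit 79847146701150591528005009921) (nat_lit 2668860867697713978554714793502048256) (nat_lit 0) (nat_lit 2)) .nil)))) .nil))))) (.cons (.br (nat_lit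 7) (nat_lit 0) (.cons (.ev (nat_lit 20520097732175915781434162283011) (nat_lit 2)) (.cons (.ev (nat_lit 10405114431344554442776815700279297) (nat_lit 2)) (.cons (.br (nat_lit 6) (nat_lit 0) (.cons (.ev (nat_lit 10404955356058914255567221029995011) (nat_lit 2)) (.cons (.ev (nat_lit 1369104856495478585953676399435480826881) (nat_lit 3)) (.cons (.br (nat_lit 14) (nat_lit 0) (.cons (.kr (nat_lit 79847146701150591528005009921) (nat_lit 2668860867697713978554714793502048256) (nat_lit 0) (nat_lit 2)) (.cons (.rf (nat_lit 358) (nat_lit 19987458193362609428117869)) .nil))) .nil)))) (.cons (.br (nat_lit 14) (nat_lit 0) (.cons (.rf (nat_lit 1) (nat_lit 581894251460801)) (.cons (.br (nat_lit 6) (nat_lit 0) (.cons (.ev (nat_lit 340287579579745463114945623511430922240) (nat_lit 1)) (.cons (.br (nat_lit 16) (nat_lit 0) (.cons (.ev (nat_lit 1369104856179803856972940877838911012869) (nat_lit 3)) .nil)) .nil))) (.cons (.kr (nat_lit 79847146701150591528005009921) (nat_lit 2668860867697713978554714793502048256) (nat_lit 0) (nat_lit 2)) .nil)))) .nil)))))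 (.cons (.kr (nat_lit 20361638979814120859043910123521) (nat_lit 2668840585286901401064676212747534336) (nat_lit 0) (nat_lit 1)) (.cons (.br (nat_lit 11) (nat_lit 0) (.cons (.br (nat_lit 7) (nat_lit 0) (.cons (.ev (nat_lit 7975388811724722692339055057967383555) (nat_lit 3)) (.cons (.ev (nat_lit 340282387282576234370122877390894924033) (nat_lit 1)) (.cons (.br (nat_lit 14) (nat_lit 0) (.cons (.ev (nat_lit 10405114431344554442774608053534723) (nat_lit 2)) (.cons (.rf (nat_lit 258) (nat_lit 19524092336886269415649)) .nil))) .nil)))) (.cons (.br (nat_lit 6) (nat_lit 0) (.cons (.ev (nat_lit 10384752173399461636850136891064833) (nat_lit 2)) (.cons (.ev (nat_lit 20362260377167173913771623055361) (nat_lit 2)) (.cons (.br (nat_lit 16) (nat_lit 0) (.cons (.ev (nat_lit 340282387203657552124938435145588867073) (nat_lit 1)) (.cons (.ev (nat_lit 340282387203657556865751943559625310208) (nat_lit 1)) .nil))) .nil)))) (.cons (.ev (nat_lit 2679245859419783467705128860739043845) (nat_lit 3)) (.cons (.br (nat_lit 6) (nat_lit 0) (.cons (.ev (nat_lit 340282387282576234370122877390894924033)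 (nat_lit 1)) (.cons (.ev (nat_lit 680575138956308266777272534353949294594) (nat_lit 2)) (.cons (.br (nat_lit 7) (nat_lit 0) (.cons (.ev (nat_lit 1363787944196659367333170706426015907843) (nat_lit 3)) (.cons (.ev (nat_lit 2658476512905522887513438734038073349) (nat_lit 3)) .nil))) .nil)))) (.cons (.br (nat_lit 6) (nat_lit 0) (.cons (.br (nat_lit 14) (nat_lit 0) (.cons (.ev (nat_lit 10404955356049506415526670615183873) (nat_lit 2)) (.cons (.rf (nat_lit 1427) (nat_lit 21174442659472880612509728)) .nil))) (.cons (.br (nat_lit 7) (nat_lit 0) (.cons (.ev (nat_lit 683223189833446763413515015544753029635) (nat_lit 2)) (.cons (.rf (nat_lit 258) (nat_lit 20661806270602067293254)) .nil))) (.cons (.br (nat_lit 7) (nat_lit 0) (.cons (.ev (nat_lit 1363808713382860383418213101091705455619) (nat_lit 3)) (.cons (.ev (nat_lit 683223189913603376253250748624817619201) (nat_lit 2)) .nil))) (.cons (.br (nat_lit 14) (nat_lit 0) (.cons (.ev (nat_lit 2668840664826971554569207454999053056) (nat_lit 2)) (.cons (.ev (nat_lit 7996157524404011751861379168372524547)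 (nat_lit 3)) (.cons (.br (nat_lit 7) (nat_lit 0) (.cons (.ev (nat_lit 7996157842554601848492335795552649735) (nat_lit 3)) .nil)) .nil)))) .nil))))) .nil)))))) (.cons (.br (nat_lit 6) (nat_lit 0) (.cons (.br (nat_lit 14) (nat_lit 0) (.cons (.kr (nat_lit 20282409603651670705422227996672) (nat_lit 5192296858534827700588090367148032) (nat_lit 6) (nat_lit 0)) (.cons (.rf (nat_lit 1428) (nat_lit 661701333107392539363360)) (.cons (.ev (nat_lit 10404955356049506415526670615183873) (nat_lit 2)) .nil)))) (.cons (.br (nat_lit 14) (nat_lit 0) (.cons (.rf (nat_lit 1) (nat_lit 581931798867137)) (.cons (.br (nat_lit 7) (nat_lit 0) (.cons (.ev (nat_lit 340287579500207815590931998447478309120) (nat_lit 1)) (.cons (.rf (nat_lit 246) (nat_lit 19533198619789876268225)) .nil))) (.cons (.ev (nat_lit 10405114431344554442774608053534723) (nat_lit 2)) .nil)))) (.cons (.br (nat_lit 7) (nat_lit 0) (.cons (.rf (nat_lit 1) (nat_lit 581928577644737)) (.cons (.ev (nat_lit 10404955356058914255567221029995011) (nat_lit 2)) (.cons (.ev (nat_lit 10404955356049506415526670615183873)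 (nat_lit 2)) .nil)))) (.cons (.br (nat_lit 16) (nat_lit 0) (.cons (.br (nat_lit 11) (nat_lit 0) (.cons (.ev (nat_lit 2658476512905503924259405077892300801) (nat_lit 3)) (.cons (.ev (nat_lit 2658476512905522887513438734038073349) (nat_lit 3)) .nil))) (.cons (.br (nat_lit 14) (nat_lit 0) (.cons (.ev (nat_lit 1363808713225023056632990220332870927879) (nat_lit 3)) (.cons (.ev (nat_lit 7996157524404011751861379168372524547) (nat_lit 3)) .nil))) (.cons (.ev (nat_lit 340282366920939677111560704934883164416) (nat_lit 1)) (.cons (.ev (nat_lit 340282387282576234370122878494718296320) (nat_lit 1)) .nil))))) (.cons (.br (nat_lit 7) (nat_lit 0) (.cons (.ev (nat_lit 20362260377167173913771623055361) (nat_lit 2)) (.cons (.br (nat_lit 11) (nat_lit 0) (.cons (.ev (nat_lit 10404876437376705965173865516827395) (nat_lit 2)) (.cons (.ev (nat_lit 348457139884565390598247459384918087304711) (nat_lit 3)) .nil))) (.cons (.br (nat_lit 16) (nat_lit 0) (.cons (.ev (nat_lit 680564754125218626589552192604866609408) (nat_lit 2)) (.cons (.br (nat_lit 11) (nat_lit 0)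 (.cons (.ev (nat_lit 7996157842554601848492335795552649735) (nat_lit 3)) .nil)) (.cons (.ev (nat_lit 87113615180117670542329442971404111708417) (nat_lit 1)) .nil)))) (.cons (.ev (nat_lit 2658476828580232905573643607512974337) (nat_lit 3)) .nil))))) .nil)))))) .nil))))))) .nil))))))),
 (.br (nat_lit 15) (nat_lit 0) (.cons (.ev (nat_lit 10405114433771850814969605693374467) (nat_lit 2)) (.cons (.rf (nat_lit 664) (nat_lit 624582990503176652956866)) (.cons (.br (nat_lit 11) (nat_lit 0) (.cons (.rf (nat_lit 2) (nat_lit 20188691619311237382)) (.cons (.ev (nat_lit 87112285931839784298888870751211612012545) (nat_lit 1)) .nil))) .nil)))),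
 (.br (nat_lit 15) (nat_lit 0) (.cons (.rf (nat_lit 1430) (nat_lit 640068752111007606353527872)) (.cons (.ev (nat_lit 10404955356049506415526670615183873) (nat_lit 2)) (.cons (.ev (nat_lit 341611594916723379354797216159812813056) (nat_lit 1)) (.cons (.br (nat_lit 11) (nat_lit 0) (.cons (.ev (nat_lit 2658476353827781579571727359992266753) (nat_lit 2)) (.cons (.ev (nat_lit 341611594916724588262170369289749594368) (nat_lit 1)) (.cons (.ev (nat_lit 87113615159756031562515322112364513329408) (nat_lit 1)) .nil)))) .nil))))),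
 (.br (nat_lit 15) (nat_lit 0) (.cons (.rf (nat_lit 912) (nat_lit 19986390343728923143453037)) (.cons (.ev (nat_lit 87113615180038750651176741822686939840513) (nat_lit 1)) .nil))),
 (.br (nat_lit 15) (nat_lit 0) (.cons (.ev (nat_lit 340282367000476115728345857205934751745) (nat_lit 1)) (.cons (.rf (nat_lit 295) (nat_lit 19533198373499271417039)) .nil))),
 (.br (nat_lit 7) (nat_lit 0) (.cons (.br (nat_lit 14) (nat_lit 0) (.cons (.rf (nat_lit 1) (nat_lit 581726947781862)) (.cons (.rf (nat_lit 1005) (nat_lit 677573410647125451453269258)) (.cons (.rf (nat_lit 1432) (nat_lit 677582165103132179601393696)) .nil)))) (.cons (.br (nat_lit 11) (nat_lit 0) (.cons (.rf (nat_lit 1) (nat_lit 581726847121638)) (.cons (.br (nat_lit 15) (nat_lit 0) (.cons (.ev (nat_lit 340282387282576234370122877390911701248) (nat_lit 1)) (.cons (.rf (nat_lit 2) (nat_lit 20188691619311270118)) .nil))) (.cons (.br (nat_lit 15) (nat_lit 0) (.cons (.br (nat_lit 16) (nat_lit 0) (.cons (.ev (nat_lit 340287559297025160805339814594967830785) (nat_lit 1)) .nil)) (.cons (.ev (nat_lit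 87113615180038750655880661844057347129345) (nat_lit 1)) .nil))) .nil)))) (.cons (.br (nat_lit 11) (nat_lit 0) (.cons (.rf (nat_lit 1) (nat_lit 581725773380838)) (.cons (.br (nat_lit 14) (nat_lit 0) (.cons (.ev (nat_lit 683233594709884140119190830935154098944) (nat_lit 2)) (.cons (.rf (nat_lit 2) (nat_lit 20188691619310222566)) .nil))) (.cons (.ev (nat_lit 20362257959278640631216844439553) (nat_lit 2)) .nil)))) (.cons (.br (nat_lit 14) (nat_lit 0) (.cons (.rf (nat_lit 1433) (nat_lit 677582165103132179601393696)) (.cons (.ev (nat_lit 10404955356049506415526670615183873) (nat_lit 2)) (.cons (.ev (nat_lit 340282387282577438573576010254231011585) (nat_lit 1)) (.cons (.ev (nat_lit 10404955358467321161830740088979971) (nat_lit 2)) .nil))))) (.cons (.br (nat_lit 11) (nat_lit 0) (.cons (.br (nat_lit 15) (nat_lit 0) (.cons (.br (nat_lit 16) (nat_lit 0) (.cons (.ev (nat_lit 340287559297025165546152761162840670465) (nat_lit 1)) .nil)) (.cons (.ev (nat_lit 87113615180038750651176741822686939840513) (nat_lit 1)) .nil))) (.cons (.ev (nat_lit 20362257959278640631216844439553)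 (nat_lit 2)) (.cons (.br (nat_lit 14) (nat_lit 0) (.cons (.rf (nat_lit 2) (nat_lit 20188691619302882758)) (.cons (.ev (nat_lit 10405114431344554442774608053534723) (nat_lit 2)) (.cons (.ev (nat_lit 174224577055818280287882598849920985268480) (nat_lit 2)) .nil)))) (.cons (.ev (nat_lit 20362260377167173911563976310787) (nat_lit 2)) .nil))))) .nil)))))),
 (.br (nat_lit 15) (nat_lit 0) (.cons (.ev (nat_lit 1329248278505213478661935878669074433) (nat_lit 1)) (.cons (.ev (nat_lit 1329248278504004534395857551233187841) (nat_lit 1)) .nil))),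
 (.br (nat_lit 7) (nat_lit 0) (.cons (.br (nat_lit 14) (nat_lit 0) (.cons (.rf (nat_lit 1) (nat_lit 581726947877094)) (.cons (.rf (nat_lit 1435) (nat_lit 21174442622281864334903328)) (.cons (.br (nat_lit 15) (nat_lit 0) (.cons (.rf (nat_lit 1299) (nat_lit 20003022193881004363784554)) (.cons (.ev (nat_lit 87113615180038750651176741822686939840513) (nat_lit 1)) .nil))) .nil)))) (.cons (.br (nat_lit 8) (nat_lit 0) (.cons (.rf (nat_lit 1) (nat_lit 581726746556646)) (.cons (.br (nat_lit 15) (nat_lit 0) (.cons (.ev (nat_lit 341616807495991517834024394484332101888) (nat_lit 1)) (.cons (.br (nat_lit 16) (nat_lit 0) (.cons (.ev (nat_lit 341611594996261026878810842327555244033) (nat_lit 1)) .nil)) .nil))) (.cons (.br (nat_lit 15) (nat_lit 0) (.cons (.rf (nat_lit 2) (nat_lit 19068387093856499942)) (.cons (.ev (nat_lit 87112291144419052432627284422217294741505) (nat_lit 1)) .nil))) .nil)))) (.cons (.br (nat_lit 8) (nat_lit 0) (.cons (.rf (nat_lit 1) (nat_lit 581725672815846)) (.cons (.ev (nat_lit 2658476511665146070227720724895760897) (nat_lit 2))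 (.cons (.br (nat_lit 14) (nat_lit 0) (.cons (.rf (nat_lit 2) (nat_lit 19068387093855452390)) (.cons (.ev (nat_lit 10405114431344554442774608053534723) (nat_lit 2)) .nil))) .nil)))) (.cons (.br (nat_lit 8) (nat_lit 0) (.cons (.ev (nat_lit 10404955358476802787721668255023617) (nat_lit 2)) (.cons (.rf (nat_lit 1009) (nat_lit 677280731294380209163371780)) (.cons (.br (nat_lit 14) (nat_lit 0) (.cons (.ev (nat_lit 340287559297025165546152760059050852608) (nat_lit 1)) (.cons (.ev (nat_lit 2041699536038594498446340096930766848263) (nat_lit 3)) .nil))) (.cons (.br (nat_lit 14) (nat_lit 0) (.cons (.rf (nat_lit 2) (nat_lit 19068387093848112582)) (.cons (.ev (nat_lit 680569926139663921561549061909630746880) (nat_lit 2)) (.cons (.ev (nat_lit 10405114431344554442774608053534723) (nat_lit 2)) .nil)))) .nil))))) (.cons (.br (nat_lit 15) (nat_lit 0) (.cons (.br (nat_lit 17) (nat_lit 0) (.cons (.ev (nat_lit 87112285931839784298888870751211612012545) (nat_lit 1)) (.cons (.ev (nat_lit 87113615180117670542329442971404128485632) (nat_lit 1)) .nil))) (.cons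 (.br (nat_lit 17) (nat_lit 0) (.cons (.ev (nat_lit 87112291144419052432627284422217294741505) (nat_lit 1)) (.cons (.ev (nat_lit 87113620352132119468764515792316285387008) (nat_lit 1)) .nil))) (.cons (.ev (nat_lit 2658476511667563884974022586789921281) (nat_lit 2)) (.cons (.br (nat_lit 14) (nat_lit 0) (.cons (.ev (nat_lit 87112291144419052432627284422217294741505) (nat_lit 1)) (.cons (.rf (nat_lit 1424) (nat_lit 677545452519061110769419328)) .nil))) .nil))))) .nil)))))),
 (.br (nat_lit 7) (nat_lit 0) (.cons (.rf (nat_lit 1436) (nat_lit 640068752111007606353527872)) (.cons (.rf (nat_lit 1434) (nat_lit 640068752111007606353527872)) (.cons (.kr (nat_lit 79228162514264619068520660992) (nat_lit 5192296858534827700588090367148032) (nat_lit 6) (nat_lit 0)) (.cons (.br (nat_lit 8) (nat_lit 0) (.cons (.br (nat_lit 15) (nat_lit 0) (.cons (.ev (nat_lit 341611615278362359168918075199427969280) (nat_lit 1)) (.cons (.rf (nat_lit 1398) (nat_lit 661665592539614747396128)) .nil))) (.cons (.ev (nat_lit 10404955356049506415526670615183873) (nat_lit 2))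 (.cons (.ev (nat_lit 20520095304879543588626922209793) (nat_lit 2)) (.cons (.br (nat_lit 11) (nat_lit 0) (.cons (.rf (nat_lit 2) (nat_lit 19068387093848210790)) (.cons (.rf (nat_lit 549) (nat_lit 19533173351958393885766)) (.cons (.ev (nat_lit 174224582268634924633098322324555737137154) (nat_lit 2)) .nil)))) .nil))))) (.cons (.br (nat_lit 11) (nat_lit 0) (.cons (.br (nat_lit 15) (nat_lit 0) (.cons (.br (nat_lit 16) (nat_lit 0) (.cons (.ev (nat_lit 340287559297025165546152761162840670465) (nat_lit 1)) .nil)) (.cons (.ev (nat_lit 87113620352053199587056691726725486280705) (nat_lit 1)) .nil))) (.cons (.ev (nat_lit 20362257959278640631216844439553) (nat_lit 2)) (.cons (.br (nat_lit 8) (nat_lit 0) (.cons (.rf (nat_lit 2) (nat_lit 20188691619303079174)) (.cons (.ev (nat_lit 20520095304879543588626922209793) (nat_lit 2)) (.cons (.rf (nat_lit 554) (nat_lit 19534141619247784594632)) .nil)))) (.cons (.ev (nat_lit 10405114431353962282815158468345857) (nat_lit 2)) .nil))))) .nil)))))),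
 (.br (nat_lit 7) (nat_lit 0) (.cons (.rf (nat_lit 1436) (nat_lit 640068752111007606353527872)) (.cons (.rf (nat_lit 1434) (nat_lit 640068752111007606353527872)) (.cons (.kr (nat_lit 79228167236630820463189164032) (nat_lit 1334420292643450700532337556609564672) (nat_lit 9) (nat_lit 0)) (.cons (.br (nat_lit 8) (nat_lit 0) (.cons (.ev (nat_lit 2658476353827791061197620495805054977) (nat_lit 2)) (.cons (.ev (nat_lit 10404955358476802787721668255023617) (nat_lit 2)) (.cons (.br (nat_lit 11) (nat_lit 0) (.cons (.ev (nat_lit 20362257949870801716566336471043) (nat_lit 2)) (.cons (.br (nat_lit 14) (nat_lit 0) (.cons (.ev (nat_lit 340287559218106488041637711039705382913) (nat_lit 1)) .nil)) .nil))) (.cons (.br (nat_lit 16) (nat_lit 0) (.cons (.rf (nat_lit 1033) (nat_lit 20001808103251688140713037)) (.cons (.rf (nat_lit 549) (nat_lit 19534141619247784594694)) (.cons (.ev (nat_lit 340282366920939672407641247609645957376) (nat_lit 1)) .nil)))) .nil))))) (.cons (.br (nat_lit 11) (nat_lit 0) (.cons (.ev (nat_lit 2658476353827791061197620495805054977)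 (nat_lit 2)) (.cons (.ev (nat_lit 2668861106003603559873212965967757315) (nat_lit 2)) (.cons (.br (nat_lit 14) (nat_lit 0) (.cons (.rf (nat_lit 2) (nat_lit 20188691619303110918)) (.cons (.br (nat_lit 8) (nat_lit 0) (.cons (.ev (nat_lit 340282367000476115728345856110701314048) (nat_lit 1)) .nil)) (.cons (.rf (nat_lit 1288) (nat_lit 625059035299805409586403)) .nil)))) (.cons (.br (nat_lit 8) (nat_lit 0) (.cons (.ev (nat_lit 20362257949870801716566336471043) (nat_lit 2)) (.cons (.br (nat_lit 14) (nat_lit 0) (.cons (.ev (nat_lit 341611594916723384058717236435020218625) (nat_lit 1)) .nil)) .nil))) .nil))))) .nil)))))),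
 (.br (nat_lit 14) (nat_lit 0) (.cons (.ev (nat_lit 340282387282576234351748190911223300353) (nat_lit 1)) .nil)),
 (.br (nat_lit 14) (nat_lit 0) (.cons (.ev (nat_lit 1329248357422686761277390539752210688) (nat_lit 1)) .nil))]

theorem c85 : chkAll C T R L85 (nat_lit 1427) = true := by decide +kernel

theorem l85 : (nat_lit 1427) + L85.length = (nat_lit 1441) := by decide +kernel

/-- part of the certificates -/
def L86 : List Prf := [(.br (nat_lit 14) (nat_lit 0) (.cons (.kr (nat_lit 20282410812577490038576425992192) (nat_lit 1334420292643450700532337556609564672) (nat_lit 10) (nat_lit 0)) (.cons (.rf (nat_lit 1021) (nat_lit 21169710698179864892349641)) (.cons (.rf (nat_lit 1233) (nat_lit 19998299827432365205266922)) .nil)))),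
 (.br (nat_lit 7) (nat_lit 0) (.cons (.rf (nat_lit 1436) (nat_lit 640068752111007606353527872)) (.cons (.rf (nat_lit 1434) (nat_lit 640068752111007606353527872)) (.cons (.rf (nat_lit 1438) (nat_lit 640068752111007606353527872)) (.cons (.rf (nat_lit 1437) (nat_lit 640068752111007606353527872)) (.cons (.br (nat_lit 14) (nat_lit 0) (.cons (.ev (nat_lit 20520095304879543588626922209793) (nat_lit 2)) (.cons (.br (nat_lit 15) (nat_lit 0) (.cons (.ev (nat_lit 20362257949870801716566336471043) (nat_lit 2)) (.cons (.ev (nat_lit 341616807495992726741396983569115578625) (nat_lit 1)) .nil))) (.cons (.br (nat_lit 8) (nat_lit 0) (.cons (.ev (nat_lit 2658476511667554477133982053554979331) (nat_lit 2)) (.cons (.rf (nat_lit 1288) (nat_lit 661402691671341281583299)) .nil))) (.cons (.ev (nat_lit 340287559297026374453525912093787750657) (nat_lit 1)) .nil))))) (.cons (.br (nat_lit 8) (nat_lit 0) (.cons (.br (nat_lit 14) (nat_lit 0) (.cons (.rf (nat_lit 997) (nat_lit 21165023078059725312656644)) (.cons (.rf (nat_lit 1439) (nat_lit 21174442659472880611461152))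 (.cons (.rf (nat_lit 1440) (nat_lit 21174442659472880611461152)) .nil)))) (.cons (.ev (nat_lit 20520095304879543588626922209793) (nat_lit 2)) (.cons (.rf (nat_lit 1441) (nat_lit 677582165103132179601393696)) (.cons (.br (nat_lit 15) (nat_lit 0) (.cons (.ev (nat_lit 20362257959278640631216844439553) (nat_lit 2)) (.cons (.rf (nat_lit 576) (nat_lit 21169380962629737889732873)) (.cons (.rf (nat_lit 884) (nat_lit 21169710698180097894325449)) .nil)))) (.cons (.br (nat_lit 11) (nat_lit 0) (.cons (.rf (nat_lit 1441) (nat_lit 640068752111007606353527872)) (.cons (.ev (nat_lit 20362257959278640631216844439553) (nat_lit 2)) (.cons (.br (nat_lit 15) (nat_lit 0) (.cons (.ev (nat_lit 340287559297025165546152761162840670465) (nat_lit 1)) .nil)) .nil)))) .nil)))))) .nil))))))),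
 (.br (nat_lit 15) (nat_lit 0) (.cons (.rf (nat_lit 1047) (nat_lit 19458108542937886823464)) (.cons (.rf (nat_lit 549) (nat_lit 18315502462943006985416)) (.cons (.ev (nat_lit 344280435502010280774380692940812976643) (nat_lit 2)) .nil)))),
 (.br (nat_lit 12) (nat_lit 0) (.cons (.rf (nat_lit 1112) (nat_lit 379542099098233865280)) (.cons (.br (nat_lit 13) (nat_lit 0) (.cons (.br (nat_lit 9) (nat_lit 0) (.cons (.rf (nat_lit 34) (nat_lit 12298507692488276614339)) (.cons (.br (nat_lit 15) (nat_lit 1) (.cons (.rf (nat_lit 768) (nat_lit 334313)) .nil)) .nil))) (.cons (.rf (nat_lit 768) (nat_lit 433612)) (.cons (.br (nat_lit 11) (nat_lit 1) (.cons (.rf (nat_lit 1346) (nat_lit 493750222348027528256)) (.cons (.br (nat_lit 9) (nat_lit 0) (.cons (.br (nat_lit 10) (nat_lit 0) (.cons (.br (nat_lit 1) (nat_lit 0) (.cons (.br (nat_lit 7) (nat_lit 0) (.cons (.br (nat_lit 14) (nat_lit 0) (.cons (.kr (nat_lit 20361637770888301245514263822337) (nat_lit 1208962857217964669796352) (nat_lit 0) (nat_lit 1)) (.cons (.kr (nat_lit 79229376162450436196187242497)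 (nat_lit 20283028573671313677034654269952) (nat_lit 0) (nat_lit 2)) (.cons (.ev (nat_lit 2679245857555619817399919139100951045) (nat_lit 3)) (.cons (.br (nat_lit 16) (nat_lit 0) (.cons (.ev (nat_lit 10404955358467357911201491819036673) (nat_lit 2)) (.cons (.ev (nat_lit 10405114433771814065598853996872195) (nat_lit 2)) (.cons (.ev (nat_lit 2668860946925881215185537464304534017) (nat_lit 2)) (.cons (.br (nat_lit 16) (nat_lit 0) (.cons (.ev (nat_lit 10404955358467357911201491819036673) (nat_lit 2)) (.cons (.ev (nat_lit 10405114433771814065598853996872195) (nat_lit 2)) (.cons (.ev (nat_lit 2668860946925881215185537464304534017) (nat_lit 2)) .nil)))) .nil))))) .nil))))) (.cons (.rf (nat_lit 1348) (nat_lit 583591983194105238882336)) (.cons (.rf (nat_lit 1349) (nat_lit 583591983194105238882336)) (.cons (.rf (nat_lit 1350) (nat_lit 583591983194105238882336)) (.cons (.rf (nat_lit 1351) (nat_lit 583591983194105238882336)) (.cons (.br (nat_lit 6) (nat_lit 0) (.cons (.rf (nat_lit 1349) (nat_lit 583706010856749211419712)) (.cons (.rf (nat_lit 1348)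 (nat_lit 583706010856749211419712)) (.cons (.rf (nat_lit 1350) (nat_lit 583706010856749211419712)) (.cons (.rf (nat_lit 1351) (nat_lit 583706010856749211419712)) (.cons (.br (nat_lit 8) (nat_lit 0) (.cons (.kr (nat_lit 79537647524085964137245442304) (nat_lit 4740885284537392758784) (nat_lit 1) (nat_lit 0)) (.cons (.rf (nat_lit 1352) (nat_lit 19926405097028172034181152)) (.cons (.rf (nat_lit 1353) (nat_lit 19926405097028172034181152)) (.cons (.rf (nat_lit 1354) (nat_lit 19926405097028172034181152)) (.cons (.br (nat_lit 11) (nat_lit 0) (.cons (.rf (nat_lit 1352) (nat_lit 19926519124690816006718528)) (.cons (.rf (nat_lit 1353) (nat_lit 19926519124690816006718528)) (.cons (.rf (nat_lit 1354) (nat_lit 19926519124690816006718528)) (.cons (.br (nat_lit 16) (nat_lit 0) (.cons (.ev (nat_lit 340287559217796998291075476997112070144) (nat_lit 1)) (.cons (.ev (nat_lit 341611615278671844178667362674098110720) (nat_lit 1)) (.cons (.ev (nat_lit 88133133032682137341543965823281066409987) (nat_lit 2)) .nil)))) .nil))))) .nil)))))) (.cons (.br (nat_lit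 8) (nat_lit 0) (.cons (.br (nat_lit 15) (nat_lit 0) (.cons (.ev (nat_lit 5327317257265292077124968292228006917) (nat_lit 3)) (.cons (.ev (nat_lit 2658476353827791024448245328815063553) (nat_lit 2)) (.cons (.ev (nat_lit 2658476511665136625351200548459773953) (nat_lit 2)) .nil)))) (.cons (.rf (nat_lit 1355) (nat_lit 677582050967386443074340896)) (.cons (.rf (nat_lit 1356) (nat_lit 677582050967386443074340896)) (.cons (.rf (nat_lit 1357) (nat_lit 677582050967386443074340896)) (.cons (.br (nat_lit 11) (nat_lit 0) (.cons (.rf (nat_lit 1355) (nat_lit 640105464586995582630986816)) (.cons (.ev (nat_lit 2658476511665136625351200548459773953) (nat_lit 2)) (.cons (.br (nat_lit 15) (nat_lit 0) (.cons (.ev (nat_lit 1344805045126339857536149136594764035) (nat_lit 2)) (.cons (.rf (nat_lit 162) (nat_lit 645926576822020348131)) (.cons (.rf (nat_lit 162) (nat_lit 610294096470410042563)) .nil)))) (.cons (.rf (nat_lit 1357) (nat_lit 640105464586995582630986816)) .nil))))) .nil)))))) .nil))))))) .nil))))))) (.cons (.rf (nat_lit 1365) (nat_lit 583591983194105238882336))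 (.cons (.rf (nat_lit 1362) (nat_lit 583591983194105238882336)) (.cons (.rf (nat_lit 1369) (nat_lit 583591983194105238882336)) (.cons (.rf (nat_lit 1373) (nat_lit 583591983194105238882336)) (.cons (.rf (nat_lit 1375) (nat_lit 583591983194105238882336)) (.cons (.rf (nat_lit 1376) (nat_lit 583591983194105238882336)) (.cons (.br (nat_lit 2) (nat_lit 0) (.cons (.rf (nat_lit 1362) (nat_lit 583706010856749211419712)) (.cons (.rf (nat_lit 1365) (nat_lit 583706010856749211419712)) (.cons (.rf (nat_lit 1373) (nat_lit 583706010856749211419712)) (.cons (.rf (nat_lit 1369) (nat_lit 583706010856749211419712)) (.cons (.rf (nat_lit 1375) (nat_lit 583706010856749211419712)) (.cons (.rf (nat_lit 1376) (nat_lit 583706010856749211419712)) (.cons (.br (nat_lit 7) (nat_lit 0) (.cons (.br (nat_lit 8) (nat_lit 0) (.cons (.kr (nat_lit 20282719088661492051590464405760) (nat_lit 1208944338416301217218560) (nat_lit 1) (nat_lit 0)) (.cons (.rf (nat_lit 1377) (nat_lit 19926405097028172034181152)) (.cons (.rf (nat_lit 1378) (nat_lit 19926405097028172034181152)) (.cons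 (.rf (nat_lit 1379) (nat_lit 19926405097028172034181152)) (.cons (.br (nat_lit 11) (nat_lit 0) (.cons (.rf (nat_lit 1377) (nat_lit 19926519124690816006718528)) (.cons (.rf (nat_lit 1378) (nat_lit 19926519124690816006718528)) (.cons (.rf (nat_lit 1379) (nat_lit 19926519124690816006718528)) (.cons (.br (nat_lit 14) (nat_lit 0) (.cons (.rf (nat_lit 528) (nat_lit 20188691826568347078)) (.cons (.ev (nat_lit 340287559297334650555902048637544366337) (nat_lit 1)) (.cons (.ev (nat_lit 87112291124136642833716426942634631692545) (nat_lit 1)) .nil)))) .nil))))) .nil)))))) (.cons (.rf (nat_lit 1380) (nat_lit 19926405097028172034181152)) (.cons (.rf (nat_lit 1382) (nat_lit 19926405097028172034181152)) (.cons (.rf (nat_lit 1383) (nat_lit 19926405097028172034181152)) (.cons (.rf (nat_lit 1384) (nat_lit 19926405097028172034181152)) (.cons (.rf (nat_lit 1386) (nat_lit 19926405097028172034181152)) (.cons (.br (nat_lit 6) (nat_lit 0) (.cons (.rf (nat_lit 1382) (nat_lit 19926519124690816006718528)) (.cons (.rf (nat_lit 1380) (nat_lit 19926519124690816006718528))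 (.cons (.rf (nat_lit 1383) (nat_lit 19926519124690816006718528)) (.cons (.rf (nat_lit 1384) (nat_lit 19926519124690816006718528)) (.cons (.rf (nat_lit 1386) (nat_lit 19926519124690816006718528)) (.cons (.br (nat_lit 14) (nat_lit 0) (.cons (.rf (nat_lit 1387) (nat_lit 677582050967386443074340896)) (.cons (.rf (nat_lit 1387) (nat_lit 677582164995049087046878272)) (.cons (.br (nat_lit 8) (nat_lit 0) (.cons (.ev (nat_lit 31174144647098949500580183733961729) (nat_lit 3)) (.cons (.br (nat_lit 11) (nat_lit 0) (.cons (.ev (nat_lit 2679245541880890983659633164763399687) (nat_lit 3)) .nil)) (.cons (.br (nat_lit 11) (nat_lit 0) (.cons (.ev (nat_lit 2679245541880890983659633164763399687) (nat_lit 3)) .nil)) .nil)))) (.cons (.ev (nat_lit 340287559217796998291075476997128847361) (nat_lit 1)) (.cons (.ev (nat_lit 87112291124057105181451600372098005991424) (nat_lit 1)) .nil)))))) .nil))))))) .nil)))))))) (.cons (.br (nat_lit 7) (nat_lit 0) (.cons (.br (nat_lit 8) (nat_lit 0) (.cons (.br (nat_lit 14) (nat_lit 0) (.cons (.ev (nat_lit 31174460321827783240861742744469509)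 (nat_lit 3)) (.cons (.ev (nat_lit 31174460948051357801802596572201477) (nat_lit 3)) (.cons (.ev (nat_lit 10405115676547630417544247043817475) (nat_lit 3)) .nil)))) (.cons (.rf (nat_lit 1388) (nat_lit 677582050967386443074340896)) (.cons (.rf (nat_lit 1389) (nat_lit 677582050967386443074340896)) (.cons (.rf (nat_lit 1391) (nat_lit 677582050967386443074340896)) (.cons (.br (nat_lit 11) (nat_lit 0) (.cons (.rf (nat_lit 1388) (nat_lit 640105464586995582630986816)) (.cons (.rf (nat_lit 1389) (nat_lit 640105464586995582630986816)) (.cons (.br (nat_lit 14) (nat_lit 0) (.cons (.ev (nat_lit 1334481220032510754654560591053652225) (nat_lit 2)) (.cons (.rf (nat_lit 1392) (nat_lit 677582050967386443074340896)) (.cons (.rf (nat_lit 1392) (nat_lit 640105464586995582630986816)) .nil)))) (.cons (.rf (nat_lit 1391) (nat_lit 640105464586995582630986816)) .nil))))) .nil)))))) (.cons (.rf (nat_lit 1394) (nat_lit 677582050967386443074340896)) (.cons (.rf (nat_lit 1395) (nat_lit 677582050967386443074340896)) (.cons (.rf (nat_lit 1397) (nat_lit 677582050967386443074340896))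 (.cons (.rf (nat_lit 1400) (nat_lit 677582050967386443074340896)) (.cons (.rf (nat_lit 1402) (nat_lit 677582050967386443074340896)) (.cons (.br (nat_lit 6) (nat_lit 0) (.cons (.rf (nat_lit 1395) (nat_lit 640105464586995582630986816)) (.cons (.rf (nat_lit 1394) (nat_lit 640105464586995582630986816)) (.cons (.rf (nat_lit 1397) (nat_lit 640105464586995582630986816)) (.cons (.rf (nat_lit 1400) (nat_lit 640105464586995582630986816)) (.cons (.br (nat_lit 15) (nat_lit 0) (.cons (.rf (nat_lit 1289) (nat_lit 639947229779624388475230435)) (.cons (.rf (nat_lit 1289) (nat_lit 677314021026631468845112515)) (.cons (.ev (nat_lit 2679245857555619817399919139067396615) (nat_lit 3)) (.cons (.rf (nat_lit 1403) (nat_lit 677582050967386443074340896)) (.cons (.rf (nat_lit 1403) (nat_lit 640105464586995582630986816)) .nil)))))) (.cons (.rf (nat_lit 1402) (nat_lit 640105464586995582630986816)) .nil))))))) .nil)))))))) .nil))))))))) .nil))))))))) .nil)) (.cons (.br (nat_lit 10) (nat_lit 0) (.cons (.br (nat_lit 1) (nat_lit 0) (.cons (.br (nat_lit 7) (nat_lit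 0) (.cons (.br (nat_lit 8) (nat_lit 0) (.cons (.br (nat_lit 14) (nat_lit 0) (.cons (.kr (nat_lit 1329227996094400882797209723043053824) (nat_lit 5192296858534846075556045015547904) (nat_lit 1) (nat_lit 0)) (.cons (.br (nat_lit 15) (nat_lit 0) (.cons (.ev (nat_lit 2668860946925881215185537464304534017) (nat_lit 2)) (.cons (.rf (nat_lit 1) (nat_lit 582169141517505)) .nil))) .nil))) (.cons (.ev (nat_lit 10405113814801794423469458854117891) (nat_lit 2)) (.cons (.kr (nat_lit 20282409603651670705422227996672) (nat_lit 1329227995784915872975864654318272512) (nat_lit 6) (nat_lit 0)) (.cons (.br (nat_lit 11) (nat_lit 0) (.cons (.kr (nat_lit 5192296858534827628811971305930752) (nat_lit 1208925891672223212634112) (nat_lit 6) (nat_lit 0)) (.cons (.ev (nat_lit 2658476353211229411712383868024783361) (nat_lit 2)) (.cons (.br (nat_lit 14) (nat_lit 0) (.cons (.ev (nat_lit 2668861106001185745128032605933928451) (nat_lit 2)) (.cons (.ev (nat_lit 340282387282885719361497478385910218753) (nat_lit 1)) (.cons (.br (nat_lit 15) (nat_lit 0) (.cons (.ev (nat_lit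 340282367000167839644343844191879561473) (nat_lit 1)) (.cons (.ev (nat_lit 2668860946925881215185537464304534017) (nat_lit 2)) .nil))) .nil)))) (.cons (.br (nat_lit 14) (nat_lit 0) (.cons (.rf (nat_lit 1) (nat_lit 582036192566465)) (.cons (.br (nat_lit 15) (nat_lit 0) (.cons (.ev (nat_lit 2668860946925881215185537464304534017) (nat_lit 2)) (.cons (.rf (nat_lit 586) (nat_lit 661691672492357321108938)) .nil))) (.cons (.br (nat_lit 15) (nat_lit 0) (.cons (.rf (nat_lit 999) (nat_lit 19986314246406465170749674)) (.cons (.ev (nat_lit 2668860946925881215185537464304534017) (nat_lit 2)) .nil))) .nil)))) .nil))))) .nil))))) (.cons (.rf (nat_lit 1405) (nat_lit 583591983194105238882336)) (.cons (.rf (nat_lit 1406) (nat_lit 583591983194105238882336)) (.cons (.rf (nat_lit 1407) (nat_lit 583591983194105238882336)) (.cons (.rf (nat_lit 1408) (nat_lit 583591983194105238882336)) (.cons (.br (nat_lit 6) (nat_lit 0) (.cons (.rf (nat_lit 1406) (nat_lit 547107670614509461013568)) (.cons (.rf (nat_lit 1405) (nat_lit 547107670614509461013568)) (.cons (.rf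 (nat_lit 1408) (nat_lit 547107670614509461013568)) (.cons (.rf (nat_lit 1407) (nat_lit 547107670614509461013568)) (.cons (.br (nat_lit 8) (nat_lit 0) (.cons (.br (nat_lit 14) (nat_lit 0) (.cons (.ev (nat_lit 2668861106001185745128034813580673025) (nat_lit 2)) (.cons (.ev (nat_lit 340282387203349280781749930545586897153) (nat_lit 1)) (.cons (.br (nat_lit 15) (nat_lit 0) (.cons (.ev (nat_lit 340282366921247953195562717948938354688) (nat_lit 1)) (.cons (.ev (nat_lit 2668860946925881215185537464304534017) (nat_lit 2)) .nil))) .nil)))) (.cons (.rf (nat_lit 1409) (nat_lit 19926405097028172034181152)) (.cons (.ev (nat_lit 2658476353211229411712381660378038787) (nat_lit 2)) (.cons (.rf (nat_lit 1410) (nat_lit 19926405097028172034181152)) (.cons (.br (nat_lit 11) (nat_lit 0) (.cons (.ev (nat_lit 10405113814801794423471666500862465) (nat_lit 2)) (.cons (.rf (nat_lit 1409) (nat_lit 19889920784448576256312384)) (.cons (.rf (nat_lit 1410) (nat_lit 19889920784448576256312384)) (.cons (.br (nat_lit 16) (nat_lit 0) (.cons (.rf (nat_lit 526) (nat_lit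 624755786434582128277866)) (.cons (.rf (nat_lit 526) (nat_lit 624793939804687686581517)) (.cons (.kr (nat_lit 87112285931839474813860530322995851296768) (nat_lit 340282387203349276040864646008194203648) (nat_lit 9) (nat_lit 0)) .nil)))) .nil))))) .nil)))))) (.cons (.br (nat_lit 8) (nat_lit 0) (.cons (.br (nat_lit 14) (nat_lit 0) (.cons (.rf (nat_lit 1) (nat_lit 615983611981057)) (.cons (.br (nat_lit 15) (nat_lit 0) (.cons (.ev (nat_lit 2668860946925881215185537464304534017) (nat_lit 2)) (.cons (.rf (nat_lit 647) (nat_lit 19987526863336204170344940)) .nil))) (.cons (.br (nat_lit 17) (nat_lit 0) (.cons (.ev (nat_lit 2668860946925881215185537464304534017) (nat_lit 2)) (.cons (.ev (nat_lit 87112291144419053646275542294731369283585) (nat_lit 1)) .nil))) .nil)))) (.cons (.rf (nat_lit 1411) (nat_lit 677582050967386443074340896)) (.cons (.rf (nat_lit 1412) (nat_lit 21174439092730826346039328)) (.cons (.rf (nat_lit 1413) (nat_lit 677582050967386443074340896)) (.cons (.br (nat_lit 11) (nat_lit 0) (.cons (.rf (nat_lit 1412) (nat_lit 20002152070211041964950592))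 (.cons (.rf (nat_lit 1411) (nat_lit 640068866246753342880580672)) (.cons (.br (nat_lit 16) (nat_lit 0) (.cons (.ev (nat_lit 340287559218106483300896540590860206081) (nat_lit 1)) (.cons (.ev (nat_lit 341611615278362359168846299080349974785) (nat_lit 1)) (.cons (.ev (nat_lit 88133133032682139749950872086800125394947) (nat_lit 2)) .nil)))) (.cons (.rf (nat_lit 1413) (nat_lit 640068866246753342880580672)) .nil))))) .nil)))))) .nil))))))) .nil))))))) (.cons (.rf (nat_lit 1419) (nat_lit 583591983194105238882336)) (.cons (.rf (nat_lit 1416) (nat_lit 583591983194105238882336)) (.cons (.rf (nat_lit 1422) (nat_lit 583591983194105238882336)) (.cons (.rf (nat_lit 1425) (nat_lit 583591983194105238882336)) (.cons (.rf (nat_lit 1426) (nat_lit 583591983194105238882336)) (.cons (.rf (nat_lit 1429) (nat_lit 583591983194105238882336)) (.cons (.br (nat_lit 2) (nat_lit 0) (.cons (.rf (nat_lit 1416) (nat_lit 547107670614509461013568)) (.cons (.rf (nat_lit 1419) (nat_lit 547107670614509461013568)) (.cons (.rf (nat_lit 1425) (nat_lit 547107670614509461013568))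 (.cons (.rf (nat_lit 1422) (nat_lit 547107670614509461013568)) (.cons (.rf (nat_lit 1429) (nat_lit 547107670614509461013568)) (.cons (.rf (nat_lit 1426) (nat_lit 547107670614509461013568)) (.cons (.ev (nat_lit 20520095314287382503277430178307) (nat_lit 2)) (.cons (.br (nat_lit 7) (nat_lit 0) (.cons (.br (nat_lit 8) (nat_lit 0) (.cons (.br (nat_lit 14) (nat_lit 0) (.cons (.rf (nat_lit 1) (nat_lit 581726947749126)) (.cons (.br (nat_lit 15) (nat_lit 0) (.cons (.ev (nat_lit 340287579500516086970941651022078017536) (nat_lit 1)) (.cons (.rf (nat_lit 695) (nat_lit 19993628564341507316783171)) .nil))) (.cons (.br (nat_lit 15) (nat_lit 0) (.cons (.rf (nat_lit 1360) (nat_lit 19993875965128473476141131)) (.cons (.ev (nat_lit 87113615159756342256450891014464063143936) (nat_lit 1)) .nil))) .nil)))) (.cons (.rf (nat_lit 1430) (nat_lit 677582050967386443074340896)) (.cons (.kr (nat_lit 20282409603651670705422227996672) (nat_lit 1329227995784915872975864654318272512) (nat_lit 6) (nat_lit 0)) (.cons (.rf (nat_lit 1431) (nat_lit 677582050967386443074340896))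 (.cons (.br (nat_lit 11) (nat_lit 0) (.cons (.kr (nat_lit 5192296858534827628811971305930752) (nat_lit 1208925891672223212634112) (nat_lit 6) (nat_lit 0)) (.cons (.rf (nat_lit 1430) (nat_lit 640068866246753342880580672)) (.cons (.br (nat_lit 14) (nat_lit 0) (.cons (.rf (nat_lit 2) (nat_lit 20188691619303898566)) (.cons (.br (nat_lit 15) (nat_lit 0) (.cons (.ev (nat_lit 341611594996261031582802637618000494593) (nat_lit 1)) .nil)) (.cons (.br (nat_lit 15) (nat_lit 0) (.cons (.ev (nat_lit 340287559297025165546080985043779453185) (nat_lit 1)) .nil)) .nil)))) (.cons (.rf (nat_lit 1431) (nat_lit 640068866246753342880580672)) .nil))))) .nil)))))) (.cons (.rf (nat_lit 1434) (nat_lit 677582050967386443074340896)) (.cons (.rf (nat_lit 1436) (nat_lit 677582050967386443074340896)) (.cons (.rf (nat_lit 1437) (nat_lit 677582050967386443074340896)) (.cons (.rf (nat_lit 1438) (nat_lit 677582050967386443074340896)) (.cons (.rf (nat_lit 1442) (nat_lit 677582050967386443074340896)) (.cons (.br (nat_lit 6) (nat_lit 0) (.cons (.rf (nat_lit 1436) (nat_lit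 640068866246753342880580672)) (.cons (.rf (nat_lit 1434) (nat_lit 640068866246753342880580672)) (.cons (.rf (nat_lit 1438) (nat_lit 640068866246753342880580672)) (.cons (.rf (nat_lit 1437) (nat_lit 640068866246753342880580672)) (.cons (.br (nat_lit 8) (nat_lit 0) (.cons (.br (nat_lit 14) (nat_lit 0) (.cons (.ev (nat_lit 10405114433762369332633106116640771) (nat_lit 2)) (.cons (.ev (nat_lit 340287559218106483300896541694683578368) (nat_lit 1)) (.cons (.ev (nat_lit 87112291124057414666461421436795560722433) (nat_lit 1)) .nil)))) (.cons (.ev (nat_lit 10405113814801794423469458887672321) (nat_lit 2)) (.cons (.rf (nat_lit 1443) (nat_lit 21174439092726360585635872)) (.cons (.br (nat_lit 14) (nat_lit 0) (.cons (.rf (nat_lit 1443) (nat_lit 20002152070213102409450560)) (.cons (.ev (nat_lit 340287559297025165546080983939989635328) (nat_lit 1)) (.cons (.ev (nat_lit 174905147002317728696977192387168559956481) (nat_lit 2)) .nil)))) (.cons (.br (nat_lit 14) (nat_lit 0) (.cons (.rf (nat_lit 1047) (nat_lit 19534201361074814914635)) (.cons (.ev (nat_lit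 87112291144339515994047465098257926979840) (nat_lit 1)) (.cons (.ev (nat_lit 174905147002317728696977192387168559956481) (nat_lit 2)) .nil)))) .nil)))))) (.cons (.rf (nat_lit 1442) (nat_lit 640068866246753342880580672)) .nil))))))) .nil)))))))) .nil))))))))) .nil))))))))) .nil)) .nil))) .nil))) .nil)))) .nil)))]

theorem c86 : chkAll C T R L86 (nat_lit 1441) = true := by decide +kernel

theorem l86 : (nat_lit 1441) + L86.length = (nat_lit 1445) := by decide +kernel

/-- part of the certificates -/
def L87 : List Prf := [(.br (nat_lit 4) (nat_lit 0) (.cons (.br (nat_lit 4) (nat_lit 0) (.cons (.br (nat_lit 0) (nat_lit 0) (.cons (.rf (nat_lit 1163) (nat_lit 247027864611)) (.cons (.rf (nat_lit 1163) (nat_lit 213741868067)) (.cons (.br (nat_lit 6) (nat_lit 1) (.cons (.rf (nat_lit 1163) (nat_lit 276089018530)) (.cons (.br (nat_lit 9) (nat_lit 1) (.cons (.br (nat_lit 2) (nat_lit 0) (.cons (.rf (nat_lit 1163) (nat_lit 276089019554)) (.cons (.rf (nat_lit 768) (nat_lit 66816)) (.cons (.br (nat_lit 7) (nat_lit 1) (.cons (.rf (nat_lit 1087) (nat_lit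 173217520836)) (.cons (.br (nat_lit 8) (nat_lit 1) (.cons (.rf (nat_lit 1178) (nat_lit 407901468746716195)) (.cons (.rf (nat_lit 1178) (nat_lit 406810719925965859)) (.cons (.br (nat_lit 12) (nat_lit 1) (.cons (.br (nat_lit 9) (nat_lit 0) (.cons (.rf (nat_lit 1178) (nat_lit 299818376159691939)) (.cons (.br (nat_lit 10) (nat_lit 0) (.cons (.rf (nat_lit 1178) (nat_lit 298727627338941603)) (.cons (.rf (nat_lit 768) (nat_lit 334281)) (.cons (.br (nat_lit 11) (nat_lit 1) (.cons (.br (nat_lit 14) (nat_lit 1) (.cons (.br (nat_lit 13) (nat_lit 0) (.cons (.br (nat_lit 1) (nat_lit 0) (.cons (.rf (nat_lit 1190) (nat_lit 583706118939841661113379)) (.cons (.rf (nat_lit 1200) (nat_lit 583706118939841661113379)) (.cons (.rf (nat_lit 1200) (nat_lit 547107777606853089956899)) (.cons (.rf (nat_lit 1210) (nat_lit 583706118939841661113379)) (.cons (.rf (nat_lit 1214) (nat_lit 583706118939841661113379)) (.cons (.rf (nat_lit 1219) (nat_lit 583706118939841661113379)) (.cons (.rf (nat_lit 1219) (nat_lit 547107777606853089956899)) (.cons (.br (nat_lit 5) (nat_lit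 0) (.cons (.rf (nat_lit 1200) (nat_lit 583706010856749074089123)) (.cons (.rf (nat_lit 1200) (nat_lit 547107669523760502932643)) (.cons (.rf (nat_lit 1214) (nat_lit 583706010856749074089123)) (.cons (.rf (nat_lit 1210) (nat_lit 583706010856749074089123)) (.cons (.rf (nat_lit 1219) (nat_lit 583706010856749074089123)) (.cons (.rf (nat_lit 1219) (nat_lit 547107669523760502932643)) (.cons (.rf (nat_lit 1221) (nat_lit 19926519232773908456412195)) (.cons (.br (nat_lit 6) (nat_lit 0) (.cons (.rf (nat_lit 1190) (nat_lit 425471235994918465936580)) (.cons (.rf (nat_lit 1219) (nat_lit 425471235994918465936580)) (.cons (.rf (nat_lit 1219) (nat_lit 315676213086635001224388)) (.cons (.rf (nat_lit 1210) (nat_lit 425471235994918465936580)) (.cons (.rf (nat_lit 1214) (nat_lit 425471235994918465936580)) (.cons (.rf (nat_lit 1223) (nat_lit 677582165103132179496571939)) (.cons (.rf (nat_lit 1223) (nat_lit 640105464586995582493656227)) .nil)))))))) .nil))))))))) .nil))))))))) .nil)) .nil)) (.cons (.br (nat_lit 12) (nat_lit 0) (.cons (.rf (nat_lit 1291) (nat_lit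 583706118939841661113379)) (.cons (.rf (nat_lit 1291) (nat_lit 547107777606853089956899)) .nil))) .nil))) .nil)))) .nil))) .nil)) .nil)))) (.cons (.br (nat_lit 12) (nat_lit 1) (.cons (.br (nat_lit 8) (nat_lit 1) (.cons (.rf (nat_lit 1346) (nat_lit 493858305440477221923)) (.cons (.rf (nat_lit 1444) (nat_lit 379722559703950169123)) (.cons (.rf (nat_lit 1346) (nat_lit 379722559703950169123)) (.cons (.rf (nat_lit 1444) (nat_lit 493858305440477221923)) .nil))))) .nil)) .nil)))) .nil)))) .nil)) .nil))) .nil)))) .nil)) .nil)),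
 (.br (nat_lit 12) (nat_lit 1) (.cons (.br (nat_lit 12) (nat_lit 1) (.cons (.rf (nat_lit 889) (nat_lit 15853034836064)) .nil)) .nil)),
 (.br (nat_lit 10) (nat_lit 0) (.cons (.kr (nat_lit 18446745177532923905) (nat_lit 4722367045819598635520) (nat_lit 0) (nat_lit 2)) (.cons (.kr (nat_lit 4740813226947666509825) (nat_lit 144116287587614720) (nat_lit 0) (nat_lit 1)) (.cons (.ev (nat_lit 2422629345945461570273793) (nat_lit 2)) (.cons (.rf (nat_lit 1446) (nat_lit 14242959524133701664)) (.cons (.br (nat_lit 6) (nat_lit 0) (.cons (.br (nat_lit 11) (nat_lit 0) (.cons (.ev (nat_lit 1859332688708050288006791681) (nat_lit 3)) (.cons (.rf (nat_lit 1446) (nat_lit 15395881028740548640)) (.cons (.br (nat_lit 12) (nat_lit 0) (.cons (.br (nat_lit 12) (nat_lit 0) (.cons (.rf (nat_lit 1446) (nat_lit 16548802533347395616)) .nil)) (.cons (.rf (nat_lit 1446) (nat_lit 16548802533347395616)) .nil))) .nil)))) (.cons (.kr (nat_lit 1099511627777) (nat_lit 281474976710912) (nat_lit 0) (nat_lit 2)) (.cons (.ev (nat_lit 2422629346510610546950147) (nat_lit 2)) (.cons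 (.rf (nat_lit 1446) (nat_lit 15395881028740548640)) (.cons (.br (nat_lit 7) (nat_lit 0) (.cons (.kr (nat_lit 4722366482869645213697) (nat_lit 72057594037993472) (nat_lit 0) (nat_lit 1)) (.cons (.ev (nat_lit 2422592596574692626661889) (nat_lit 2)) (.cons (.kr (nat_lit 4722366764344621924608) (nat_lit 72058693549621248) (nat_lit 1) (nat_lit 0)) (.cons (.rf (nat_lit 1446) (nat_lit 16548802533347395616)) .nil))))) .nil)))))) .nil)))))),
 (.br (nat_lit 10) (nat_lit 0) (.cons (.ev (nat_lit 2422629345945461536719363) (nat_lit 2)) (.cons (.rf (nat_lit 1446) (nat_lit 14242959524133701664)) (.cons (.br (nat_lit 11) (nat_lit 0) (.cons (.ev (nat_lit 1859332688708050288073900549) (nat_lit 3)) (.cons (.rf (nat_lit 1446) (nat_lit 15395881028740548640)) (.cons (.br (nat_lit 12) (nat_lit 0) (.cons (.br (nat_lit 12) (nat_lit 0) (.cons (.rf (nat_lit 1446) (nat_lit 16548802533347395616)) .nil)) (.cons (.rf (nat_lit 1446) (nat_lit 16548802533347395616)) .nil))) .nil)))) .nil)))),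
 (.br (nat_lit 7) (nat_lit 0) (.cons (.ev (nat_lit 2422629345945461536719363) (nat_lit 2)) (.cons (.rf (nat_lit 1446) (nat_lit 14242959524133701664)) (.cons (.br (nat_lit 10) (nat_lit 0) (.cons (.kr (nat_lit 621392593648402265460965377) (nat_lit 18590860365592133632) (nat_lit 0) (nat_lit 1)) (.cons (.rf (nat_lit 1446) (nat_lit 15395881028740548640)) (.cons (.br (nat_lit 12) (nat_lit 0) (.cons (.br (nat_lit 12) (nat_lit 0) (.cons (.rf (nat_lit 1446) (nat_lit 16548802533347395616)) .nil)) (.cons (.rf (nat_lit 1446) (nat_lit 16548802533347395616)) .nil))) .nil)))) .nil)))),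
 (.br (nat_lit 2) (nat_lit 0) (.cons (.rf (nat_lit 1448) (nat_lit 407901468851537952)) (.cons (.ev (nat_lit 2422629345947652003594753) (nat_lit 2)) (.cons (.rf (nat_lit 1449) (nat_lit 407901468851537952)) (.cons (.rf (nat_lit 1446) (nat_lit 14242959524133701664)) (.cons (.br (nat_lit 10) (nat_lit 0) (.cons (.rf (nat_lit 1449) (nat_lit 372964309678955715)) (.cons (.rf (nat_lit 1448) (nat_lit 254779218888665124)) (.cons (.ev (nat_lit 2422629346510610546950147) (nat_lit 2)) (.cons (.rf (nat_lit 1446) (nat_lit 15395881028740548640)) (.cons (.br (nat_lit 7) (nat_lit 0) (.cons (.ev (nat_lit 618974797494086669132890113) (nat_lit 2)) (.cons (.br (nat_lit 11) (nat_lit 0) (.cons (.ev (nat_lit 618974797493521520122659329) (nat_lit 2)) (.cons (.ev (nat_lit 313126009792208863917966082) (nat_lit 2)) (.cons (.rf (nat_lit 1446) (nat_lit 16548802533347395616)) .nil)))) (.cons (.br (nat_lit 11) (nat_lit 0) (.cons (.ev (nat_lit 313126009792208863917966082) (nat_lit 2)) (.cons (.ev (nat_lit 618974797493521520122659329) (nat_lit 2)) (.cons (.rf (nat_lit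 1446) (nat_lit 16548802533347395616)) .nil)))) (.cons (.rf (nat_lit 1446) (nat_lit 16548802533347395616)) .nil))))) .nil)))))) .nil)))))),
 (.br (nat_lit 10) (nat_lit 0) (.cons (.kr (nat_lit 4740813226947666509825) (nat_lit 144116287587614720) (nat_lit 0) (nat_lit 1)) (.cons (.ev (nat_lit 2422592596574692660216323) (nat_lit 2)) (.cons (.rf (nat_lit 1450) (nat_lit 254559150342833476)) (.cons (.rf (nat_lit 1446) (nat_lit 14242959524133701664)) (.cons (.br (nat_lit 11) (nat_lit 0) (.cons (.ev (nat_lit 618970038161495116633801218) (nat_lit 2)) (.cons (.kr (nat_lit 4722366483973468585985) (nat_lit 18447307023662973440) (nat_lit 0) (nat_lit 2)) (.cons (.br (nat_lit 2) (nat_lit 0) (.cons (.ev (nat_lit 1859332688708050288073900549) (nat_lit 3)) (.cons (.ev (nat_lit 79537647524157740260601626881) (nat_lit 1)) (.cons (.rf (nat_lit 1446) (nat_lit 15395881028740548640)) (.cons (.br (nat_lit 6) (nat_lit 0) (.cons (.ev (nat_lit 79229376162522492686418575616) (nat_lit 1)) (.cons (.kr (nat_lit 4740813789893308187137) (nat_lit 144116291899359232) (nat_lit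 0) (nat_lit 10)) (.cons (.rf (nat_lit 1446) (nat_lit 16548802533347395616)) .nil)))) .nil))))) (.cons (.rf (nat_lit 1446) (nat_lit 15395881028740548640)) (.cons (.br (nat_lit 2) (nat_lit 0) (.cons (.br (nat_lit 12) (nat_lit 0) (.cons (.br (nat_lit 12) (nat_lit 0) (.cons (.rf (nat_lit 1446) (nat_lit 16548802533347395616)) .nil)) (.cons (.rf (nat_lit 1446) (nat_lit 16548802533347395616)) .nil))) (.cons (.br (nat_lit 12) (nat_lit 0) (.cons (.kr (nat_lit 4740813789893308187137) (nat_lit 144116291899359232) (nat_lit 0) (nat_lit 10)) (.cons (.ev (nat_lit 79537652246452165536208978176) (nat_lit 1)) (.cons (.rf (nat_lit 1446) (nat_lit 16548802533347395616)) .nil)))) (.cons (.br (nat_lit 6) (nat_lit 0) (.cons (.br (nat_lit 12) (nat_lit 0) (.cons (.ev (nat_lit 79229376180897180269880082688) (nat_lit 1)) (.cons (.rf (nat_lit 1446) (nat_lit 16548802533347395616)) .nil))) (.cons (.kr (nat_lit 4740813789893308187137) (nat_lit 144116291899359232) (nat_lit 0) (nat_lit 10)) (.cons (.rf (nat_lit 1446) (nat_lit 16548802533347395616)) .nil)))) (.cons (.rf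 (nat_lit 1446) (nat_lit 16548802533347395616)) .nil))))) .nil)))))) .nil)))))),
 (.br (nat_lit 10) (nat_lit 0) (.cons (.rf (nat_lit 1451) (nat_lit 254559150342833476)) (.cons (.rf (nat_lit 1451) (nat_lit 217404487638485320)) (.cons (.ev (nat_lit 618974760455918184661385729) (nat_lit 2)) (.cons (.ev (nat_lit 79229371440083952222718722304) (nat_lit 1)) (.cons (.rf (nat_lit 1446) (nat_lit 15395881028740548640)) (.cons (.br (nat_lit 6) (nat_lit 0) (.cons (.kr (nat_lit 18447025548686262528) (nat_lit 72057598332960768) (nat_lit 1) (nat_lit 0)) (.cons (.rf (nat_lit 1447) (nat_lit 80230608641600709)) (.cons (.br (nat_lit 7) (nat_lit 0) (.cons (.ev (nat_lit 618974760456481143171186689) (nat_lit 2)) (.cons (.ev (nat_lit 79229371458602753890482913536) (nat_lit 1)) (.cons (.rf (nat_lit 1446) (nat_lit 16548802533347395616)) .nil)))) (.cons (.br (nat_lit 7) (nat_lit 0) (.cons (.ev (nat_lit 2422592597135443556827139) (nat_lit 2)) (.cons (.ev (nat_lit 79229371440084233702007177216) (nat_lit 1)) (.cons (.ev (nat_lit 20282410812577490038576442835201)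 (nat_lit 1)) (.cons (.rf (nat_lit 1446) (nat_lit 16548802533347395616)) .nil))))) (.cons (.rf (nat_lit 1446) (nat_lit 16548802533347395616)) .nil)))))) .nil))))))),
 (.br (nat_lit 9) (nat_lit 0) (.cons (.br (nat_lit 1) (nat_lit 0) (.cons (.rf (nat_lit 1447) (nat_lit 407901468851537952)) (.cons (.rf (nat_lit 1450) (nat_lit 407901468851537952)) (.cons (.rf (nat_lit 1451) (nat_lit 407901468851537952)) (.cons (.rf (nat_lit 1447) (nat_lit 254779218888665124)) (.cons (.rf (nat_lit 1451) (nat_lit 254779218888665124)) (.cons (.rf (nat_lit 1446) (nat_lit 14242959524133701664)) (.cons (.br (nat_lit 2) (nat_lit 0) (.cons (.rf (nat_lit 1451) (nat_lit 407756300169086016)) (.cons (.rf (nat_lit 1450) (nat_lit 407756300169086016)) (.cons (.rf (nat_lit 1447) (nat_lit 217479387501865032)) (.cons (.rf (nat_lit 1451) (nat_lit 217479387501865032)) (.cons (.rf (nat_lit 1452) (nat_lit 14242959524133701664)) (.cons (.rf (nat_lit 1446) (nat_lit 15395881028740548640)) (.cons (.br (nat_lit 10) (nat_lit 0) (.cons (.rf (nat_lit 1451) (nat_lit 254559150342833476))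 (.cons (.rf (nat_lit 1451) (nat_lit 217404487638485320)) (.cons (.rf (nat_lit 1450) (nat_lit 254559150342833476)) (.cons (.rf (nat_lit 1452) (nat_lit 14089837274170828836)) (.cons (.rf (nat_lit 1452) (nat_lit 15205458947390875720)) (.cons (.rf (nat_lit 1446) (nat_lit 16548802533347395616)) .nil))))))) .nil)))))))) .nil)))))))) (.cons (.br (nat_lit 11) (nat_lit 1) (.cons (.br (nat_lit 13) (nat_lit 1) (.cons (.br (nat_lit 12) (nat_lit 1) (.cons (.rf (nat_lit 34) (nat_lit 17022139727710024501280)) (.cons (.br (nat_lit 13) (nat_lit 0) (.cons (.br (nat_lit 14) (nat_lit 0) (.cons (.rf (nat_lit 768) (nat_lit 470509)) .nil)) .nil)) .nil))) .nil)) .nil)) .nil))),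
 (.br (nat_lit 13) (nat_lit 0) (.cons (.rf (nat_lit 1445) (nat_lit 382112804)) (.cons (.rf (nat_lit 1445) (nat_lit 382113092)) (.cons (.rf (nat_lit 1445) (nat_lit 512013772)) .nil)))),
 (.br (nat_lit 5) (nat_lit 0) (.cons (.rf (nat_lit 1087) (nat_lit 69932686531)) (.cons (.br (nat_lit 7) (nat_lit 1) (.cons (.rf (nat_lit 1453) (nat_lit 407901468851537952)) (.cons (.br (nat_lit 12) (nat_lit 1) (.cons (.br (nat_lit 9) (nat_lit 0) (.cons (.rf (nat_lit 1453) (nat_lit 254779218888665124)) (.cons (.br (nat_lit 9) (nat_lit 0) (.cons (.rf (nat_lit 1453) (nat_lit 254779218888665124)) (.cons (.br (nat_lit 11) (nat_lit 1) (.cons (.br (nat_lit 14) (nat_lit 1) (.cons (.br (nat_lit 13) (nat_lit 0) (.cons (.rf (nat_lit 1087) (nat_lit 346161429961)) .nil)) .nil)) (.cons (.br (nat_lit 13) (nat_lit 0) (.cons (.rf (nat_lit 1454) (nat_lit 583670225250948990806052)) (.cons (.rf (nat_lit 1454) (nat_lit 547071885008709240399908)) .nil))) .nil))) .nil))) .nil))) .nil)) .nil))) .nil))),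
 (.br (nat_lit 5) (nat_lit 0) (.cons (.br (nat_lit 5) (nat_lit 0) (.cons (.br (nat_lit 9) (nat_lit 1) (.cons (.rf (nat_lit 1455) (nat_lit 2505040849969188)) (.cons (.rf (nat_lit 1455) (nat_lit 2357706432349444)) (.cons (.br (nat_lit 11) (nat_lit 1) (.cons (.br (nat_lit 10) (nat_lit 1) (.cons (.rf (nat_lit 1455) (nat_lit 2505007563972644)) (.cons (.rf (nat_lit 1455) (nat_lit 2357673146352900)) (.cons (.rf (nat_lit 1087) (nat_lit 276365977893)) (.cons (.rf (nat_lit 1445) (nat_lit 339915051)) .nil))))) .nil)) .nil)))) .nil)) .nil)),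
 (.br (nat_lit 7) (nat_lit 1) (.cons (.kr (nat_lit 4722366483969156841473) (nat_lit 18446744078021296128) (nat_lit 0) (nat_lit 1)) (.cons (.br (nat_lit 12) (nat_lit 1) (.cons (.rf (nat_lit 1112) (nat_lit 493712855416369742912)) .nil)) .nil))),
 (.br (nat_lit 6) (nat_lit 1) (.cons (.rf (nat_lit 1457) (nat_lit 407901468851537952)) (.cons (.rf (nat_lit 1457) (nat_lit 372853436342961216)) (.cons (.br (nat_lit 12) (nat_lit 1) (.cons (.br (nat_lit 7) (nat_lit 1) (.cons (.rf (nat_lit 1457) (nat_lit 407901435565541408)) (.cons (.rf (nat_lit 1457) (nat_lit 372853403056964672)) (.cons (.rf (nat_lit 1087) (nat_lit 70242016451)) (.cons (.rf (nat_lit 1445) (nat_lit 234992844)) .nil))))) .nil)) .nil)))),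
 (.br (nat_lit 11) (nat_lit 0) (.cons (.ev (nat_lit 5192376706885750751057654946398208) (nat_lit 2)) (.cons (.ev (nat_lit 20362256750371267762851812605953) (nat_lit 2)) (.cons (.br (nat_lit 15) (nat_lit 0) (.cons (.ev (nat_lit 2658476511663927681228957033651372547) (nat_lit 2)) (.cons (.rf (nat_lit 295) (nat_lit 19517889568241464325327)) .nil))) .nil)))),
 (.br (nat_lit 14) (nat_lit 0) (.cons (.rf (nat_lit 586) (nat_lit 585760592190022426442024)) (.cons (.ev (nat_lit 340287559297334645833535846139052490753) (nat_lit 1)) .nil))),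
 (.br (nat_lit 12) (nat_lit 0) (.cons (.ev (nat_lit 5192376087906267712764194024652801) (nat_lit 1)) (.cons (.rf (nat_lit 458) (nat_lit 18237213399596556884263)) .nil))),
 (.br (nat_lit 6) (nat_lit 0) (.cons (.kr (nat_lit 20282409603670117169124784209921) (nat_lit 79228167236631383413142585856) (nat_lit 0) (nat_lit 2)) (.cons (.br (nat_lit 7) (nat_lit 0) (.cons (.br (nat_lit 14) (nat_lit 0) (.cons (.kr (nat_lit 1329227996094400882725433603981836544) (nat_lit 5192296859743753520202719541919744) (nat_lit 1) (nat_lit 0)) (.cons (.br (nat_lit 15) (nat_lit 0) (.cons (.ev (nat_lit 2668860946927090196345945065537929731) (nat_lit 2)) (.cons (.rf (nat_lit 1) (nat_lit 582169107966145)) .nil))) .nil))) (.cons (.br (nat_lit 11) (nat_lit 0) (.cons (.ev (nat_lit 31174460946833079337138584589303815) (nat_lit 3)) (.cons (.br (nat_lit 15) (nat_lit 0) (.cons (.ev (nat_lit 1339612828117360156050366836584218881) (nat_lit 2)) (.cons (.rf (nat_lit 1) (nat_lit 582172326045889)) .nil))) .nil))) (.cons (.br (nat_lit 11) (nat_lit 0) (.cons (.kr (nat_lit 1329227996094400882725433603981836544)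 (nat_lit 5192296859743753520202719541919744) (nat_lit 1) (nat_lit 0)) (.cons (.br (nat_lit 14) (nat_lit 0) (.cons (.ev (nat_lit 10405114432562943442101257874964481) (nat_lit 2)) (.cons (.rf (nat_lit 1) (nat_lit 582139040049345)) .nil))) .nil))) (.cons (.br (nat_lit 16) (nat_lit 0) (.cons (.ev (nat_lit 20362256750371267762851812605953) (nat_lit 2)) (.cons (.rf (nat_lit 1459) (nat_lit 19926519232773908561233952)) (.cons (.ev (nat_lit 2658476511663927681228957033651372547) (nat_lit 2)) (.cons (.br (nat_lit 16) (nat_lit 0) (.cons (.ev (nat_lit 20362256750371267762851812605953) (nat_lit 2)) (.cons (.rf (nat_lit 1459) (nat_lit 19926519232773908561233952)) (.cons (.ev (nat_lit 2658476511663927681228957033651372547) (nat_lit 2)) .nil)))) .nil))))) .nil))))) (.cons (.br (nat_lit 10) (nat_lit 0) (.cons (.kr (nat_lit 1208925819896104151482368) (nat_lit 18446744078021296128) (nat_lit 2) (nat_lit 0)) (.cons (.kr (nat_lit 79228167255077565640722087937) (nat_lit 20282412021503310216155554250752) (nat_lit 0) (nat_lit 1)) (.cons (.kr (nat_lit 4722366482869645213952)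 (nat_lit 1208925819614629174771712) (nat_lit 1) (nat_lit 0)) (.cons (.br (nat_lit 14) (nat_lit 0) (.cons (.ev (nat_lit 10405114430145054909946793436512257) (nat_lit 2)) (.cons (.ev (nat_lit 10405114430135647069906260235256321) (nat_lit 2)) (.cons (.ev (nat_lit 10405114432562943442101257874964481) (nat_lit 2)) (.cons (.br (nat_lit 7) (nat_lit 0) (.cons (.rf (nat_lit 1) (nat_lit 582139039001793)) (.cons (.rf (nat_lit 1428) (nat_lit 661548998985437292797123)) (.cons (.br (nat_lit 15) (nat_lit 0) (.cons (.rf (nat_lit 533) (nat_lit 661546700572871178294465)) (.cons (.ev (nat_lit 87112291144419052432627284140738023063808) (nat_lit 1)) .nil))) .nil)))) .nil))))) .nil))))) (.cons (.kr (nat_lit 1099511627777) (nat_lit 281474976710912) (nat_lit 0) (nat_lit 2)) (.cons (.br (nat_lit 10) (nat_lit 0) (.cons (.kr (nat_lit 20282409608392483651994429423617) (nat_lit 79230580365904129801846915072) (nat_lit 0) (nat_lit 1)) (.cons (.kr (nat_lit 20282412021503309654305112457217) (nat_lit 79228167255077564541210460672) (nat_lit 0) (nat_lit 6)) (.cons (.ev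 (nat_lit 2668860946924681789439681546479075331) (nat_lit 2)) (.cons (.br (nat_lit 7) (nat_lit 0) (.cons (.ev (nat_lit 20362256740963428848218518192641) (nat_lit 2)) (.cons (.br (nat_lit 11) (nat_lit 0) (.cons (.ev (nat_lit 20362259158778174587121801625603) (nat_lit 2)) (.cons (.rf (nat_lit 1) (nat_lit 582034886048961)) .nil))) (.cons (.br (nat_lit 11) (nat_lit 0) (.cons (.ev (nat_lit 20362259158778174587121801625603) (nat_lit 2)) (.cons (.ev (nat_lit 20362256750371267762851812605953) (nat_lit 2)) (.cons (.br (nat_lit 14) (nat_lit 0) (.cons (.ev (nat_lit 341616807495991522537944133280251052033) (nat_lit 1)) (.cons (.rf (nat_lit 246) (nat_lit 19525276330657323521217)) .nil))) .nil)))) (.cons (.br (nat_lit 11) (nat_lit 0) (.cons (.rf (nat_lit 1) (nat_lit 616085517843649)) (.cons (.br (nat_lit 14) (nat_lit 0) (.cons (.ev (nat_lit 341616807495991517834024113013650424065) (nat_lit 1)) (.cons (.rf (nat_lit 295) (nat_lit 20661587876733316969674)) .nil))) (.cons (.ev (nat_lit 20362256750371267762851812605953) (nat_lit 2)) .nil)))) .nil))))) .nil)))))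 (.cons (.br (nat_lit 10) (nat_lit 0) (.cons (.br (nat_lit 15) (nat_lit 0) (.cons (.ev (nat_lit 2658476511666345569761111498089824771) (nat_lit 2)) (.cons (.ev (nat_lit 2658476511663927681228396282721206273) (nat_lit 2)) (.cons (.ev (nat_lit 2658476511663927681228957033651372547) (nat_lit 2)) (.cons (.br (nat_lit 14) (nat_lit 0) (.cons (.rf (nat_lit 1) (nat_lit 582172455020769)) (.cons (.br (nat_lit 11) (nat_lit 0) (.cons (.ev (nat_lit 340287579579744254207572754059772362752) (nat_lit 1)) (.cons (.br (nat_lit 16) (nat_lit 0) (.cons (.ev (nat_lit 340287559218107692245090841704018214913) (nat_lit 1)) .nil)) .nil))) (.cons (.rf (nat_lit 1435) (nat_lit 19998610115161683201759685)) .nil)))) .nil))))) (.cons (.kr (nat_lit 20282412021503309654305112457217) (nat_lit 79228167255077564541210460672) (nat_lit 0) (nat_lit 6)) (.cons (.br (nat_lit 7) (nat_lit 0) (.cons (.ev (nat_lit 20362259168259800478067181224451) (nat_lit 2)) (.cons (.br (nat_lit 11) (nat_lit 0) (.cons (.ev (nat_lit 20362259158778174587121801625603) (nat_lit 2)) (.cons (.rf (nat_lit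 1) (nat_lit 582034982517985)) .nil))) (.cons (.br (nat_lit 11) (nat_lit 0) (.cons (.ev (nat_lit 20362259158778174587121801625603) (nat_lit 2)) (.cons (.ev (nat_lit 20362256750371267762851812605953) (nat_lit 2)) (.cons (.rf (nat_lit 675) (nat_lit 677578471103369883337000132)) .nil)))) (.cons (.br (nat_lit 11) (nat_lit 0) (.cons (.rf (nat_lit 1) (nat_lit 581898650859841)) (.cons (.br (nat_lit 15) (nat_lit 0) (.cons (.ev (nat_lit 341616807495992731482210210512470278145) (nat_lit 1)) (.cons (.rf (nat_lit 647) (nat_lit 19987526862245596078845416)) .nil))) (.cons (.ev (nat_lit 20362256750371267762851812605953) (nat_lit 2)) .nil)))) .nil))))) (.cons (.kr (nat_lit 4722366482869645213952) (nat_lit 1208925819614629174771712) (nat_lit 1) (nat_lit 0)) (.cons (.br (nat_lit 7) (nat_lit 0) (.cons (.ev (nat_lit 20362259168259801043216157900801) (nat_lit 2)) (.cons (.br (nat_lit 11) (nat_lit 0) (.cons (.ev (nat_lit 20362259158778174587121801625603) (nat_lit 2)) (.cons (.ev (nat_lit 20362256750371268323602742772227) (nat_lit 2)) (.cons (.br (nat_lit 15)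 (nat_lit 0) (.cons (.ev (nat_lit 341616807495991522537943852904785969408) (nat_lit 1)) (.cons (.rf (nat_lit 394) (nat_lit 19528267171329427583019)) .nil))) .nil)))) (.cons (.br (nat_lit 11) (nat_lit 0) (.cons (.ev (nat_lit 20362259158778174587121801625603) (nat_lit 2)) (.cons (.ev (nat_lit 20362259158778174026370871460353) (nat_lit 2)) (.cons (.br (nat_lit 14) (nat_lit 0) (.cons (.ev (nat_lit 341616807495992726741397265039780479233) (nat_lit 1)) (.cons (.rf (nat_lit 425) (nat_lit 20667456043272106188129)) .nil))) .nil)))) (.cons (.br (nat_lit 11) (nat_lit 0) (.cons (.ev (nat_lit 20362256750371268323602742772227) (nat_lit 2)) (.cons (.ev (nat_lit 20362259158778174026370871460353) (nat_lit 2)) (.cons (.br (nat_lit 15) (nat_lit 0) (.cons (.ev (nat_lit 341616807495991522537944133280251052033) (nat_lit 1)) (.cons (.rf (nat_lit 502) (nat_lit 19525208075099028363307)) .nil))) .nil)))) (.cons (.br (nat_lit 11) (nat_lit 0) (.cons (.br (nat_lit 15) (nat_lit 0) (.cons (.ev (nat_lit 341616807495992731482210493086958616832) (nat_lit 1)) (.cons (.rf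 (nat_lit 644) (nat_lit 19987526862245596078845416)) .nil))) (.cons (.br (nat_lit 14) (nat_lit 0) (.cons (.ev (nat_lit 341616807495991517834024113013650424065) (nat_lit 1)) (.cons (.br (nat_lit 16) (nat_lit 0) (.cons (.ev (nat_lit 341616787292810081400538046926543716353) (nat_lit 1)) .nil)) .nil))) (.cons (.br (nat_lit 14) (nat_lit 0) (.cons (.ev (nat_lit 341616807495992731482210210512470278145) (nat_lit 1)) (.cons (.rf (nat_lit 1234) (nat_lit 20003180334438443131176000)) .nil))) (.cons (.ev (nat_lit 20362256750371267762851812605953) (nat_lit 2)) .nil))))) .nil)))))) (.cons (.br (nat_lit 7) (nat_lit 0) (.cons (.br (nat_lit 14) (nat_lit 0) (.cons (.rf (nat_lit 1) (nat_lit 582001830735073)) (.cons (.br (nat_lit 16) (nat_lit 0) (.cons (.ev (nat_lit 340287559218106488041637709944488788225) (nat_lit 1)) (.cons (.ev (nat_lit 340287559218107692245090841704018214913) (nat_lit 1)) .nil))) (.cons (.rf (nat_lit 1460) (nat_lit 21174442659472880611461152)) .nil)))) (.cons (.br (nat_lit 11) (nat_lit 0) (.cons (.rf (nat_lit 1) (nat_lit 582001730074849))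 (.cons (.ev (nat_lit 20362256750371268323602742772227) (nat_lit 2)) (.cons (.rf (nat_lit 1460) (nat_lit 21174331982386138074679328)) .nil)))) (.cons (.br (nat_lit 11) (nat_lit 0) (.cons (.rf (nat_lit 1) (nat_lit 582000656334049)) (.cons (.rf (nat_lit 1461) (nat_lit 661701295916376261756960)) (.cons (.ev (nat_lit 20362259158778174026370871460353) (nat_lit 2)) .nil)))) (.cons (.br (nat_lit 11) (nat_lit 0) (.cons (.ev (nat_lit 20362256750371268323602742772227) (nat_lit 2)) (.cons (.br (nat_lit 14) (nat_lit 0) (.cons (.ev (nat_lit 340287559218106488041637709944488788225) (nat_lit 1)) (.cons (.rf (nat_lit 694) (nat_lit 21157913330606424348264672)) .nil))) (.cons (.ev (nat_lit 20362256750371267762851812605953) (nat_lit 2)) (.cons (.br (nat_lit 15) (nat_lit 0) (.cons (.br (nat_lit 16) (nat_lit 0) (.cons (.ev (nat_lit 340287579579744249466759526012594225153) (nat_lit 1)) .nil)) (.cons (.rf (nat_lit 526) (nat_lit 624757046316576778894665)) (.cons (.ev (nat_lit 87113615180117669333385176894171909259520) (nat_lit 1)) .nil)))) .nil))))) (.cons (.br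 (nat_lit 11) (nat_lit 0) (.cons (.rf (nat_lit 1428) (nat_lit 625061339207364921793891)) (.cons (.ev (nat_lit 20362259158778174026370871460353) (nat_lit 2)) (.cons (.br (nat_lit 14) (nat_lit 0) (.cons (.rf (nat_lit 246) (nat_lit 19524090748985390900705)) (.cons (.ev (nat_lit 340287579579744254207572754059772362752) (nat_lit 1)) (.cons (.rf (nat_lit 554) (nat_lit 19534394009834574909479)) .nil)))) (.cons (.ev (nat_lit 20362256750371267762851812605953) (nat_lit 2)) .nil))))) .nil)))))) .nil))))))) .nil)))))))]

theorem c87 : chkAll C T R L87 (nat_lit 1445) = true := by decide +kernel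

theorem l87 : (nat_lit 1445) + L87.length = (nat_lit 1463) := by decide +kernel

/-- part of the certificates -/
def L88 : List Prf := [(.br (nat_lit 10) (nat_lit 0) (.cons (.ev (nat_lit 20521332064309050865909170963975) (nat_lit 3)) (.cons (.br (nat_lit 11) (nat_lit 0) (.cons (.ev (nat_lit 20790025678834860655152691522306567) (nat_lit 3)) (.cons (.br (nat_lit 15) (nat_lit 0) (.cons (.ev (nat_lit 1344805045746523562114027149079019521) (nat_lit 2)) (.cons (.rf (nat_lit 1) (nat_lit 582172426837057)) .nil))) .nil))) (.cons (.kr (nat_lit 20282409608392483651994429423617) (nat_lit 79230580365904129801846915072) (nat_lit 0) (nat_lit 1)) (.cons (.br (nat_lit 14) (nat_lit 0) (.cons (.kr (nat_lit 20361637766184381506718328160257) (nat_lit 10384593717074377767659050379510272) (nat_lit 0) (nat_lit 2)) (.cons (.ev (nat_lit 5316932820146418928972132770988164615) (nat_lit 3)) (.cons (.kr (nat_lit 20361640184017574554848609828865) (nat_lit 10384593717074396214403128400806400) (nat_lit 0) (nat_lit 11)) (.cons (.br (nat_lit 11) (nat_lit 0) (.cons (.rf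 (nat_lit 1) (nat_lit 582139173346369)) (.cons (.br (nat_lit 16) (nat_lit 0) (.cons (.ev (nat_lit 1361129488205085899346869214535414448643) (nat_lit 3)) (.cons (.ev (nat_lit 1361150257709432707529831411719610828291) (nat_lit 3)) .nil))) (.cons (.br (nat_lit 15) (nat_lit 0) (.cons (.br (nat_lit 16) (nat_lit 0) (.cons (.ev (nat_lit 1361129488205090734976361822674294407683) (nat_lit 3)) .nil)) (.cons (.ev (nat_lit 348454460659861133024387821924757969043971) (nat_lit 3)) .nil))) .nil)))) .nil))))) .nil))))),
 (.br (nat_lit 14) (nat_lit 0) (.cons (.ev (nat_lit 20790025678834860655152691522306567) (nat_lit 3)) (.cons (.br (nat_lit 15) (nat_lit 0) (.cons (.kr (nat_lit 2658456071416964279714642955377573889) (nat_lit 10404876126678047884827071340347904) (nat_lit 0) (nat_lit 2)) (.cons (.rf (nat_lit 1) (nat_lit 582169108097089)) .nil))) .nil))),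
 (.br (nat_lit 7) (nat_lit 0) (.cons (.rf (nat_lit 1464) (nat_lit 583706118939841765935136)) (.cons (.br (nat_lit 11) (nat_lit 0) (.cons (.ev (nat_lit 20790025678834860655152691522306567) (nat_lit 3)) (.cons (.br (nat_lit 15) (nat_lit 0) (.cons (.ev (nat_lit 1344805045746523562114027149079019521) (nat_lit 2)) (.cons (.rf (nat_lit 1) (nat_lit 582172326176833)) .nil))) .nil))) (.cons (.ev (nat_lit 5316932820151273521715392468314228227) (nat_lit 3)) (.cons (.br (nat_lit 14) (nat_lit 0) (.cons (.ev (nat_lit 20790025678853676334103494465421827) (nat_lit 3)) (.cons (.rf (nat_lit 1464) (nat_lit 424290644650492835309604)) (.cons (.br (nat_lit 11) (nat_lit 0) (.cons (.ev (nat_lit 1344805045746509376567835561700818946) (nat_lit 2)) (.cons (.ev (nat_lit 20790025683689453398416804141859335) (nat_lit 3)) (.cons (.br (nat_lit 15) (nat_lit 0) (.cons (.ev (nat_lit 5316932820146418928972128355694675459) (nat_lit 3)) (.cons (.ev (nat_lit 7985773089146884439843907878246285317) (nat_lit 3)) .nil))) .nil)))) (.cons (.br (nat_lit 11) (nat_lit 0) (.cons (.rf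 (nat_lit 1) (nat_lit 582139170203713)) (.cons (.br (nat_lit 15) (nat_lit 0) (.cons (.ev (nat_lit 5316932820146418928972128355694675459) (nat_lit 3)) (.cons (.ev (nat_lit 2689630294674483557713279258936607745) (nat_lit 3)) .nil))) (.cons (.ev (nat_lit 20790025683689453398416804141859335) (nat_lit 3)) .nil)))) .nil))))) .nil))))),
 (.br (nat_lit 15) (nat_lit 0) (.cons (.kr (nat_lit 20282409603670117168020960837632) (nat_lit 1329227996094400882725152129005125632) (nat_lit 8) (nat_lit 0)) (.cons (.ev (nat_lit 5337701690667908182140669607931019779) (nat_lit 3)) (.cons (.kr (nat_lit 20282410812577490320051402768384) (nat_lit 1329227996094400882725152133316870144) (nat_lit 2) (nat_lit 0)) .nil)))),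
 (.br (nat_lit 7) (nat_lit 0) (.cons (.kr (nat_lit 1208925819896104151482368) (nat_lit 18446744078021296128) (nat_lit 2) (nat_lit 0)) (.cons (.ev (nat_lit 20790025678853676334107875264954887) (nat_lit 3)) (.cons (.kr (nat_lit 20282409603670117168020960837632) (nat_lit 1329227996094400882725152129005125632) (nat_lit 8) (nat_lit 0)) (.cons (.br (nat_lit 14) (nat_lit 0) (.cons (.kr (nat_lit 79228167255077565640722087937) (nat_lit 20282412021503310216155554250752) (nat_lit 0) (nat_lit 1)) (.cons (.kr (nat_lit 20361637770906747989583661629441) (nat_lit 2658455992188801765450304262321995776) (nat_lit 0) (nat_lit 1)) (.cons (.br (nat_lit 10) (nat_lit 0) (.cons (.ev (nat_lit 1344805045746518784407313153572143106) (nat_lit 2)) (.cons (.ev (nat_lit 20790025683689453398416804141859335) (nat_lit 3)) (.cons (.rf (nat_lit 1466) (nat_lit 677582165103132179601393696)) .nil)))) (.cons (.br (nat_lit 10) (nat_lit 0) (.cons (.rf (nat_lit 1) (nat_lit 582139136650305)) (.cons (.rf (nat_lit 1466) (nat_lit 640105464695078675185502240)) (.cons (.ev (nat_lit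 20790025683689453398416804141859335) (nat_lit 3)) .nil)))) .nil))))) .nil))))),
 (.br (nat_lit 11) (nat_lit 0) (.cons (.kr (nat_lit 20361637766184381506718328160257) (nat_lit 10384593717074377767659050379510272) (nat_lit 0) (nat_lit 2)) (.cons (.kr (nat_lit 79228167255077565640722087937) (nat_lit 20282412021503310216155554250752) (nat_lit 0) (nat_lit 1)) (.cons (.ev (nat_lit 20790025678834860655148310722773507) (nat_lit 3)) (.cons (.br (nat_lit 7) (nat_lit 0) (.cons (.br (nat_lit 15) (nat_lit 0) (.cons (.ev (nat_lit 1344805045746523562114024958679252995) (nat_lit 2)) (.cons (.rf (nat_lit 1) (nat_lit 582168031213633)) .nil))) (.cons (.kr (nat_lit 20282409603651670425046762913793) (nat_lit 5192296858534827700588090367148288) (nat_lit 0) (nat_lit 2)) (.cons (.ev (nat_lit 20521332064309050861493877474819) (nat_lit 3)) (.cons (.br (nat_lit 10) (nat_lit 0) (.cons (.kr (nat_lit 4722366483969156841473) (nat_lit 1208925819896104151482368) (nat_lit 0) (nat_lit 1)) (.cons (.ev (nat_lit 20790025683689453398416804141859335) (nat_lit 3)) (.cons (.kr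 (nat_lit 5192296858539550067070960012361984) (nat_lit 20282410812577490320051402768384) (nat_lit 1) (nat_lit 0)) .nil)))) .nil))))) .nil))))),
 (.br (nat_lit 7) (nat_lit 0) (.cons (.kr (nat_lit 20282409608392483651994429423617) (nat_lit 79230580365904129801846915072) (nat_lit 0) (nat_lit 1)) (.cons (.ev (nat_lit 20521332045493371910725428315655) (nat_lit 3)) (.cons (.rf (nat_lit 1465) (nat_lit 427680247529553735457987)) (.cons (.br (nat_lit 14) (nat_lit 0) (.cons (.ev (nat_lit 5337701690667927145393577381350081027) (nat_lit 3)) (.cons (.kr (nat_lit 20361637770906747989583661629441) (nat_lit 2658455992188801765450304262321995776) (nat_lit 0) (nat_lit 1)) (.cons (.br (nat_lit 10) (nat_lit 0) (.cons (.ev (nat_lit 1344805045746509376567835561700818946) (nat_lit 2)) (.cons (.ev (nat_lit 1366467169374421780998890885606495487491) (nat_lit 3)) (.cons (.br (nat_lit 11) (nat_lit 0) (.cons (.ev (nat_lit 1366446400503900291745722344354393358851) (nat_lit 3)) (.cons (.kr (nat_lit 2658455992188806487816788231478837249) (nat_lit 20361640184036021297822807752704)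 (nat_lit 0) (nat_lit 1)) .nil))) .nil)))) (.cons (.br (nat_lit 10) (nat_lit 0) (.cons (.rf (nat_lit 1) (nat_lit 582134841687105)) (.cons (.br (nat_lit 16) (nat_lit 0) (.cons (.kr (nat_lit 2658455992188806487816788231478837249) (nat_lit 20361640184036021297822807752704) (nat_lit 0) (nat_lit 1)) (.cons (.ev (nat_lit 1366467169374426597812704534146473526791) (nat_lit 3)) .nil))) (.cons (.br (nat_lit 11) (nat_lit 0) (.cons (.br (nat_lit 16) (nat_lit 0) (.cons (.ev (nat_lit 1366446400503905108559535992894371398151) (nat_lit 3)) .nil)) (.cons (.kr (nat_lit 2658455992188806487816788231478837249) (nat_lit 20361640184036021297822807752704) (nat_lit 0) (nat_lit 1)) .nil))) .nil)))) .nil))))) .nil))))),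
 (.br (nat_lit 11) (nat_lit 0) (.cons (.ev (nat_lit 20521332064309050861493877474819) (nat_lit 3)) (.cons (.ev (nat_lit 20521336881122862267030134851079) (nat_lit 3)) (.cons (.br (nat_lit 14) (nat_lit 0) (.cons (.ev (nat_lit 1366467169374421780998890885606495487491) (nat_lit 3)) (.cons (.br (nat_lit 15) (nat_lit 0) (.cons (.ev (nat_lit 1366467169374426597812704534146473526791) (nat_lit 3)) .nil)) .nil))) .nil)))),
 (.br (nat_lit 15) (nat_lit 0) (.cons (.kr (nat_lit 2658476274598405417120729309084909569) (nat_lit 10384672945236910478740717633012224) (nat_lit 0) (nat_lit 2)) (.cons (.ev (nat_lit 1366446400503905108559535992894371398151) (nat_lit 3)) .nil))),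
 (.br (nat_lit 10) (nat_lit 0) (.cons (.rf (nat_lit 1469) (nat_lit 424290644650492835309604)) (.cons (.kr (nat_lit 10384593717074396214404223600689665) (nat_lit 20361640184017574553753409945600) (nat_lit 0) (nat_lit 11)) (.cons (.ev (nat_lit 5316932820146418928972128355694675459) (nat_lit 3)) (.cons (.rf (nat_lit 1470) (nat_lit 19926519232773908561233952)) (.cons (.br (nat_lit 14) (nat_lit 0) (.cons (.ev (nat_lit 20521332064309050861493877474819) (nat_lit 3)) (.cons (.rf (nat_lit 1469) (nat_lit 569386830620158082562245)) (.cons (.rf (nat_lit 1470) (nat_lit 19770493361363620530756803)) (.cons (.br (nat_lit 11) (nat_lit 0) (.cons (.ev (nat_lit 7985773089146912810935167326449959937) (nat_lit 3)) (.cons (.rf (nat_lit 1471) (nat_lit 677582165103132179601393696)) (.cons (.rf (nat_lit 1471) (nat_lit 640091145406758991502129349)) .nil)))) .nil))))) .nil)))))),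
 (.br (nat_lit 15) (nat_lit 0) (.cons (.ev (nat_lit 20521336881122862267030134851079) (nat_lit 3)) (.cons (.ev (nat_lit 1366467169374421762035637973417917154823) (nat_lit 3)) .nil))),
 (.br (nat_lit 15) (nat_lit 0) (.cons (.ev (nat_lit 340282367000167834903530898727813316865) (nat_lit 1)) .nil)),
 (.br (nat_lit 15) (nat_lit 0) (.cons (.ev (nat_lit 340282367000167834903530898727813316865) (nat_lit 1)) .nil)),
 (.br (nat_lit 12) (nat_lit 0) (.cons (.ev (nat_lit 5212579578832433386940789694660608) (nat_lit 1)) .nil)),
 (.br (nat_lit 6) (nat_lit 0) (.cons (.kr (nat_lit 20282409603670117169124784209921) (nat_lit 79228167236631383413142585856) (nat_lit 0) (nat_lit 2)) (.cons (.kr (nat_lit 281474976710912) (nat_lit 4311744512) (nat_lit 1) (nat_lit 0)) (.cons (.br (nat_lit 10) (nat_lit 0) (.cons (.ev (nat_lit 20362259168259801043216124346371) (nat_lit 2)) (.cons (.ev (nat_lit 31174460944434080270913408231015427) (nat_lit 3)) (.cons (.ev (nat_lit 20362259158778174026370905014787) (nat_lit 2)) (.cons (.br (nat_lit 14) (nat_lit 0) (.cons (.br (nat_lit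 15) (nat_lit 0) (.cons (.ev (nat_lit 7985773089142048810352427846886360065) (nat_lit 3)) (.cons (.rf (nat_lit 1) (nat_lit 582169070385217)) .nil))) (.cons (.br (nat_lit 2) (nat_lit 0) (.cons (.ev (nat_lit 7985773089142077033870297681170399745) (nat_lit 3)) (.cons (.rf (nat_lit 1) (nat_lit 616086687165633)) .nil))) (.cons (.ev (nat_lit 10405114432562943442101257874964481) (nat_lit 2)) (.cons (.br (nat_lit 2) (nat_lit 0) (.cons (.rf (nat_lit 1) (nat_lit 582134710647873)) (.cons (.br (nat_lit 15) (nat_lit 0) (.cons (.ev (nat_lit 340282387203658761069204792744683241728) (nat_lit 1)) (.cons (.rf (nat_lit 258) (nat_lit 19524090924907251181025)) .nil))) (.cons (.br (nat_lit 15) (nat_lit 0) (.cons (.br (nat_lit 16) (nat_lit 0) (.cons (.ev (nat_lit 340287559218107696949010863074442215680) (nat_lit 1)) .nil)) (.cons (.ev (nat_lit 87113620372335299705698468746910463230208) (nat_lit 1)) .nil))) .nil)))) .nil))))) .nil))))) (.cons (.rf (nat_lit 1462) (nat_lit 569386830620158082562245)) (.cons (.br (nat_lit 2) (nat_lit 0) (.cons (.br (nat_lit 11)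 (nat_lit 0) (.cons (.ev (nat_lit 10404956592808935921673654910583299) (nat_lit 3)) (.cons (.br (nat_lit 14) (nat_lit 0) (.cons (.ev (nat_lit 10405114430135647070469201598742531) (nat_lit 2)) (.cons (.rf (nat_lit 1) (nat_lit 582139006658625)) .nil))) .nil))) (.cons (.ev (nat_lit 20362256740963428848218518192641) (nat_lit 2)) (.cons (.br (nat_lit 10) (nat_lit 0) (.cons (.ev (nat_lit 31174460939570079688171703807247367) (nat_lit 3)) (.cons (.br (nat_lit 11) (nat_lit 0) (.cons (.ev (nat_lit 1339612828116137063131863254154018817) (nat_lit 2)) (.cons (.rf (nat_lit 1) (nat_lit 582035926399041)) .nil))) .nil))) (.cons (.br (nat_lit 10) (nat_lit 0) (.cons (.br (nat_lit 14) (nat_lit 0) (.cons (.ev (nat_lit 10405114430135647070469201598742531) (nat_lit 2)) (.cons (.rf (nat_lit 1) (nat_lit 582134836477121)) .nil))) (.cons (.ev (nat_lit 2658476511666354977601154238904270851) (nat_lit 2)) (.cons (.br (nat_lit 11) (nat_lit 0) (.cons (.ev (nat_lit 1339612828116146470970777887515542017) (nat_lit 2)) (.cons (.ev (nat_lit 20362256750371267762851812605953)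 (nat_lit 2)) (.cons (.br (nat_lit 14) (nat_lit 0) (.cons (.ev (nat_lit 341611594916724588262170369289766305793) (nat_lit 1)) (.cons (.rf (nat_lit 679) (nat_lit 625099385444644901027886)) .nil))) .nil)))) (.cons (.br (nat_lit 11) (nat_lit 0) (.cons (.rf (nat_lit 1) (nat_lit 582000652303553)) (.cons (.ev (nat_lit 20362256750371267762851812605953) (nat_lit 2)) (.cons (.br (nat_lit 14) (nat_lit 0) (.cons (.rf (nat_lit 660) (nat_lit 625099533961036692526273)) (.cons (.ev (nat_lit 87113615180117670537588629743356967125248) (nat_lit 1)) .nil))) .nil)))) .nil))))) .nil))))) (.cons (.br (nat_lit 2) (nat_lit 0) (.cons (.br (nat_lit 11) (nat_lit 0) (.cons (.ev (nat_lit 10404956592808935921673654910583299) (nat_lit 3)) (.cons (.br (nat_lit 14) (nat_lit 0) (.cons (.ev (nat_lit 10405114430135647070469201598742531) (nat_lit 2)) (.cons (.rf (nat_lit 1) (nat_lit 582139169187905)) .nil))) (.cons (.ev (nat_lit 20362256750371268325810389516801) (nat_lit 2)) (.cons (.br (nat_lit 14) (nat_lit 0) (.cons (.ev (nat_lit 2658476511663927681228396282721206273)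 (nat_lit 2)) (.cons (.br (nat_lit 15) (nat_lit 0) (.cons (.ev (nat_lit 341611594916724588262170087819067785473) (nat_lit 1)) (.cons (.rf (nat_lit 1474) (nat_lit 21174442659471745632798752)) .nil))) (.cons (.rf (nat_lit 1432) (nat_lit 677578435081287854147647685)) .nil)))) .nil))))) (.cons (.br (nat_lit 14) (nat_lit 0) (.cons (.ev (nat_lit 10405114430145054909383852073026051) (nat_lit 2)) (.cons (.kr (nat_lit 20361637770906747989583661629441) (nat_lit 2658455992188801765450304262321995776) (nat_lit 0) (nat_lit 1)) (.cons (.ev (nat_lit 10405114430145054909946793470066691) (nat_lit 2)) (.cons (.br (nat_lit 10) (nat_lit 0) (.cons (.rf (nat_lit 1) (nat_lit 582139135634497)) (.cons (.rf (nat_lit 1433) (nat_lit 677567810069279359496239301)) (.cons (.br (nat_lit 15) (nat_lit 0) (.cons (.rf (nat_lit 1039) (nat_lit 19998115519690018769738181)) (.cons (.ev (nat_lit 87113615180117669333385176611597420920833) (nat_lit 1)) .nil))) .nil)))) .nil))))) (.cons (.br (nat_lit 15) (nat_lit 0) (.cons (.ev (nat_lit 2658476511663927681228396282721206273) (nat_lit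 2)) (.cons (.ev (nat_lit 2668860946924672307812666908805825027) (nat_lit 2)) (.cons (.ev (nat_lit 2658476511663927681228959241298117121) (nat_lit 2)) (.cons (.br (nat_lit 10) (nat_lit 0) (.cons (.rf (nat_lit 1) (nat_lit 582169200408641)) (.cons (.br (nat_lit 11) (nat_lit 0) (.cons (.ev (nat_lit 340282367000477319931798988965464244225) (nat_lit 1)) (.cons (.rf (nat_lit 258) (nat_lit 19519371155971318682081)) .nil))) (.cons (.br (nat_lit 17) (nat_lit 0) (.cons (.ev (nat_lit 87113615180117669333385176611597420920833) (nat_lit 1)) (.cons (.ev (nat_lit 87113620352132118259857143204335308570625) (nat_lit 1)) .nil))) .nil)))) .nil))))) (.cons (.br (nat_lit 11) (nat_lit 0) (.cons (.br (nat_lit 14) (nat_lit 0) (.cons (.ev (nat_lit 10405114430135647070469201598742531) (nat_lit 2)) (.cons (.rf (nat_lit 1) (nat_lit 582134840671297)) .nil))) (.cons (.kr (nat_lit 20361637770906747989583661629441) (nat_lit 2658455992188801765450304262321995776) (nat_lit 0) (nat_lit 1)) (.cons (.br (nat_lit 10) (nat_lit 0) (.cons (.ev (nat_lit 10405114430135647070469201598742531)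 (nat_lit 2)) (.cons (.ev (nat_lit 340282387203658765773124813019873804288) (nat_lit 1)) (.cons (.br (nat_lit 14) (nat_lit 0) (.cons (.ev (nat_lit 10405114430135647069906260201701891) (nat_lit 2)) (.cons (.rf (nat_lit 997) (nat_lit 21172773008532672151333960)) .nil))) .nil)))) (.cons (.br (nat_lit 14) (nat_lit 0) (.cons (.rf (nat_lit 1) (nat_lit 582034982681665)) (.cons (.br (nat_lit 10) (nat_lit 0) (.cons (.ev (nat_lit 341616807495992726741397265039780479233) (nat_lit 1)) (.cons (.rf (nat_lit 1475) (nat_lit 21174442659471745632798752)) .nil))) (.cons (.ev (nat_lit 10405114430135647069906260201701891) (nat_lit 2)) .nil)))) .nil))))) (.cons (.br (nat_lit 11) (nat_lit 0) (.cons (.ev (nat_lit 20362256750371268325810389516801) (nat_lit 2)) (.cons (.ev (nat_lit 10404956592808935922799537570448899) (nat_lit 3)) (.cons (.br (nat_lit 10) (nat_lit 0) (.cons (.ev (nat_lit 10405114430135647070469201598742531) (nat_lit 2)) (.cons (.ev (nat_lit 340282367000477324635718446290701385985) (nat_lit 1)) (.cons (.br (nat_lit 14) (nat_lit 0) (.cons (.ev (nat_lit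 10405114430135647069906260201701891) (nat_lit 2)) (.cons (.rf (nat_lit 998) (nat_lit 19996897997281356879764969)) .nil))) .nil)))) (.cons (.ev (nat_lit 20362256750371267762851812605953) (nat_lit 2)) (.cons (.br (nat_lit 14) (nat_lit 0) (.cons (.br (nat_lit 15) (nat_lit 0) (.cons (.ev (nat_lit 341611594916724588262170087819067785473) (nat_lit 1)) (.cons (.rf (nat_lit 394) (nat_lit 20673548981357660048710)) .nil))) (.cons (.ev (nat_lit 2658476511663927681228959241298117121) (nat_lit 2)) (.cons (.br (nat_lit 10) (nat_lit 0) (.cons (.ev (nat_lit 341611594916724588262170369289766305793) (nat_lit 1)) (.cons (.br (nat_lit 15) (nat_lit 0) (.cons (.ev (nat_lit 341616787292811290344804125253962825728) (nat_lit 1)) .nil)) .nil))) (.cons (.br (nat_lit 10) (nat_lit 0) (.cons (.rf (nat_lit 645) (nat_lit 19997049994115299333651817)) (.cons (.ev (nat_lit 340287579579745463114945342040749113345) (nat_lit 1)) (.cons (.rf (nat_lit 681) (nat_lit 20003180329725037568492868)) .nil)))) .nil))))) .nil)))))) (.cons (.br (nat_lit 11) (nat_lit 0) (.cons (.br (nat_lit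 14) (nat_lit 0) (.cons (.kr (nat_lit 79228167236630820463189164032) (nat_lit 1329227996094400882725152129005125632) (nat_lit 9) (nat_lit 0)) (.cons (.br (nat_lit 15) (nat_lit 0) (.cons (.ev (nat_lit 341616807495992731482210491983135244545) (nat_lit 1)) (.cons (.rf (nat_lit 684) (nat_lit 21157656075845709545515460)) .nil))) (.cons (.br (nat_lit 15) (nat_lit 0) (.cons (.br (nat_lit 16) (nat_lit 0) (.cons (.ev (nat_lit 340287559218107696949010863074442215680) (nat_lit 1)) .nil)) (.cons (.ev (nat_lit 87113620372335299705698468746910463230208) (nat_lit 1)) .nil))) .nil)))) (.cons (.br (nat_lit 15) (nat_lit 0) (.cons (.kr (nat_lit 79228167236630820463189164032) (nat_lit 1329227996094400882725152129005125632) (nat_lit 9) (nat_lit 0)) (.cons (.kr (nat_lit 79228167236631101938165874944) (nat_lit 1329227996094400882725152133316870144) (nat_lit 1) (nat_lit 0)) (.cons (.ev (nat_lit 5327317255407163555842940516727783939) (nat_lit 3)) .nil)))) (.cons (.br (nat_lit 14) (nat_lit 0) (.cons (.rf (nat_lit 1) (nat_lit 615949147552065)) (.cons (.br (nat_lit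 10) (nat_lit 0) (.cons (.ev (nat_lit 341611594916724593002983314762422550785) (nat_lit 1)) (.cons (.rf (nat_lit 701) (nat_lit 21169756779957881528261061)) .nil))) (.cons (.ev (nat_lit 10405114430135647069906260201701891) (nat_lit 2)) .nil)))) (.cons (.br (nat_lit 15) (nat_lit 0) (.cons (.rf (nat_lit 585) (nat_lit 624948360506553288135874)) (.cons (.kr (nat_lit 79228167236631101938165874944) (nat_lit 1329227996094400882725152133316870144) (nat_lit 1) (nat_lit 0)) (.cons (.rf (nat_lit 696) (nat_lit 624807845101671021748258)) (.cons (.br (nat_lit 10) (nat_lit 0) (.cons (.rf (nat_lit 1414) (nat_lit 661402535108622189495620)) (.cons (.ev (nat_lit 340282367000477319931798988965464244225) (nat_lit 1)) (.cons (.rf (nat_lit 1476) (nat_lit 661701333108526410763329)) .nil)))) .nil))))) (.cons (.ev (nat_lit 20362256750371267762851812605953) (nat_lit 2)) .nil)))))) .nil))))))) .nil)))))))]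

theorem c88 : chkAll C T R L88 (nat_lit 1463) = true := by decide +kernel

theorem l88 : (nat_lit 1463) + L88.length = (nat_lit 1478) := by decide +kernel

/-- part of the certificates -/
def L89 : List Prf := [(.br (nat_lit 7) (nat_lit 0) (.cons (.ev (nat_lit 1329228075943965472408462175208735232) (nat_lit 2)) (.cons (.br (nat_lit 14) (nat_lit 0) (.cons (.ev (nat_lit 1360462987354995842503805872484910592) (nat_lit 3)) (.cons (.rf (nat_lit 1) (nat_lit 582139002595393)) .nil))) .nil))),
 (.br (nat_lit 7) (nat_lit 0) (.cons (.ev (nat_lit 1339612828118554877877607650767733251) (nat_lit 2)) (.cons (.ev (nat_lit 20362256750371267762851812605953) (nat_lit 2)) (.cons (.br (nat_lit 14) (nat_lit 0) (.cons (.ev (nat_lit 10405114432553461816210312528921091) (nat_lit 2)) (.cons (.rf (nat_lit 258) (nat_lit 20661587876733316969674)) .nil))) .nil)))),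
 (.br (nat_lit 6) (nat_lit 0) (.cons (.rf (nat_lit 1477) (nat_lit 427680247529553735457987)) (.cons (.rf (nat_lit 1462) (nat_lit 427680247529553735457987)) (.cons (.rf (nat_lit 1477) (nat_lit 569386830620158082562245)) (.cons (.rf (nat_lit 1462) (nat_lit 569386830620158082562245)) (.cons (.br (nat_lit 2) (nat_lit 0) (.cons (.ev (nat_lit 20362256740963428848218518192641) (nat_lit 2)) (.cons (.rf (nat_lit 1478) (nat_lit 583706118939841765935136)) (.cons (.ev (nat_lit 1339612828114932859678451119159377922) (nat_lit 2)) (.cons (.br (nat_lit 7) (nat_lit 0) (.cons (.ev (nat_lit 1329228075943965472408464365608501762) (nat_lit 2)) (.cons (.rf (nat_lit 1478) (nat_lit 427680247529553735457987)) (.cons (.ev (nat_lit 20362256750371267762851812605953) (nat_lit 2)) (.cons (.br (nat_lit 10) (nat_lit 0) (.cons (.ev (nat_lit 10405114432562943442099050261774337) (nat_lit 2)) (.cons (.br (nat_lit 14) (nat_lit 0) (.cons (.ev (nat_lit 10405114432553461816210312528921091) (nat_lit 2)) (.cons (.ev (nat_lit 5253303166267626933210984784921346) (nat_lit 2)) .nil)))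 (.cons (.ev (nat_lit 1329289002400934237764896851167805441) (nat_lit 2)) .nil)))) .nil))))) .nil))))) (.cons (.br (nat_lit 10) (nat_lit 0) (.cons (.br (nat_lit 7) (nat_lit 0) (.cons (.ev (nat_lit 10405114432562943442101257841410051) (nat_lit 2)) (.cons (.ev (nat_lit 1329289002399725256604487059484377856) (nat_lit 2)) (.cons (.br (nat_lit 14) (nat_lit 0) (.cons (.ev (nat_lit 31174460941987894433917230031176195) (nat_lit 3)) (.cons (.ev (nat_lit 340287579579744254207572472580483907840) (nat_lit 1)) (.cons (.br (nat_lit 15) (nat_lit 0) (.cons (.ev (nat_lit 341611615278361150224651999071032115457) (nat_lit 1)) (.cons (.ev (nat_lit 2668860946924672307812664701226189313) (nat_lit 2)) .nil))) .nil)))) (.cons (.br (nat_lit 14) (nat_lit 0) (.cons (.rf (nat_lit 1) (nat_lit 581898751813697)) (.cons (.br (nat_lit 15) (nat_lit 0) (.cons (.ev (nat_lit 2668860946924672307812664701226189313) (nat_lit 2)) (.cons (.br (nat_lit 16) (nat_lit 0) (.cons (.ev (nat_lit 341616787292811290344804125253962825728) (nat_lit 1)) .nil)) .nil))) (.cons (.br (nat_lit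 15) (nat_lit 0) (.cons (.rf (nat_lit 1121) (nat_lit 19993851037448383929516235)) (.cons (.ev (nat_lit 2668860946924672307812664701226189313) (nat_lit 2)) .nil))) .nil)))) .nil))))) (.cons (.br (nat_lit 2) (nat_lit 0) (.cons (.ev (nat_lit 10405114432562943442101257841410051) (nat_lit 2)) (.cons (.ev (nat_lit 2658476511666345569761111498089824771) (nat_lit 2)) (.cons (.br (nat_lit 14) (nat_lit 0) (.cons (.ev (nat_lit 2668860946924681789439683736912396291) (nat_lit 2)) (.cons (.ev (nat_lit 1361139872640349080751740922965317256199) (nat_lit 3)) (.cons (.br (nat_lit 15) (nat_lit 0) (.cons (.ev (nat_lit 1369104856337635176852656183665058252291) (nat_lit 3)) (.cons (.ev (nat_lit 1344805045747732469486335858413928706) (nat_lit 2)) .nil))) .nil)))) (.cons (.br (nat_lit 14) (nat_lit 0) (.cons (.rf (nat_lit 1) (nat_lit 615949248342241)) (.cons (.br (nat_lit 15) (nat_lit 0) (.cons (.ev (nat_lit 340282387203658761069205075319171579905) (nat_lit 1)) (.cons (.br (nat_lit 16) (nat_lit 0) (.cons (.ev (nat_lit 1363787944038825639046548569724152841731)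 (nat_lit 3)) .nil)) .nil))) (.cons (.br (nat_lit 17) (nat_lit 0) (.cons (.ev (nat_lit 1344805045747732469486335858413928706) (nat_lit 2)) (.cons (.ev (nat_lit 348449174901501928602761123745369346670599) (nat_lit 3)) .nil))) .nil)))) .nil))))) (.cons (.ev (nat_lit 10405114432562943442099050261774337) (nat_lit 2)) (.cons (.br (nat_lit 16) (nat_lit 0) (.cons (.rf (nat_lit 1479) (nat_lit 19926519232773908561233952)) (.cons (.ev (nat_lit 2658476511666354977601152031291080707) (nat_lit 2)) (.cons (.ev (nat_lit 10405114432553461816210312528921091) (nat_lit 2)) (.cons (.br (nat_lit 16) (nat_lit 0) (.cons (.rf (nat_lit 1479) (nat_lit 19926519232773908561233952)) (.cons (.ev (nat_lit 2658476511666354977601152031291080707) (nat_lit 2)) (.cons (.ev (nat_lit 10405114432553461816210312528921091) (nat_lit 2)) .nil)))) .nil))))) (.cons (.br (nat_lit 14) (nat_lit 0) (.cons (.br (nat_lit 7) (nat_lit 0) (.cons (.ev (nat_lit 2668860946924672307812666908805825027) (nat_lit 2)) (.cons (.ev (nat_lit 31174460942016265525741844391395333) (nat_lit 3)) (.cons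 (.br (nat_lit 15) (nat_lit 0) (.cons (.ev (nat_lit 340287559218106488041637991415153754113) (nat_lit 1)) (.cons (.br (nat_lit 16) (nat_lit 0) (.cons (.ev (nat_lit 4102070308304060684660324402343417481737) (nat_lit 4)) .nil)) .nil))) .nil)))) (.cons (.br (nat_lit 2) (nat_lit 0) (.cons (.ev (nat_lit 10404956600053119893941532529657345) (nat_lit 3)) (.cons (.ev (nat_lit 340282367000477319931798706390975906048) (nat_lit 1)) (.cons (.br (nat_lit 15) (nat_lit 0) (.cons (.ev (nat_lit 2658476511666345569761113688489591297) (nat_lit 2)) (.cons (.rf (nat_lit 394) (nat_lit 19528591430502598258722)) .nil))) .nil)))) (.cons (.ev (nat_lit 10405114432553461816210312528921091) (nat_lit 2)) (.cons (.br (nat_lit 2) (nat_lit 0) (.cons (.ev (nat_lit 340282367000477319931798706390975906048) (nat_lit 1)) (.cons (.ev (nat_lit 4091405330400647314317277458069102657551) (nat_lit 4)) (.cons (.br (nat_lit 7) (nat_lit 0) (.cons (.ev (nat_lit 7985773089144476032937081383497498629) (nat_lit 3)) (.cons (.ev (nat_lit 20362256750371267762851812605953) (nat_lit 2)) .nil)))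 .nil)))) (.cons (.br (nat_lit 2) (nat_lit 0) (.cons (.br (nat_lit 15) (nat_lit 0) (.cons (.ev (nat_lit 7975388653886139812971406858830087687) (nat_lit 3)) (.cons (.br (nat_lit 16) (nat_lit 0) (.cons (.ev (nat_lit 4086057264159751972847793064815683177997) (nat_lit 4)) .nil)) .nil))) (.cons (.br (nat_lit 7) (nat_lit 0) (.cons (.ev (nat_lit 1363787944356976276477527647459686090759) (nat_lit 4)) (.cons (.ev (nat_lit 2663648526114077246258725990112101121) (nat_lit 2)) .nil))) (.cons (.br (nat_lit 7) (nat_lit 0) (.cons (.ev (nat_lit 7975388653886158776223188749589283335) (nat_lit 3)) (.cons (.rf (nat_lit 549) (nat_lit 19529822848482656190913)) .nil))) (.cons (.br (nat_lit 17) (nat_lit 0) (.cons (.ev (nat_lit 20362256750371267762851812605953) (nat_lit 2)) (.cons (.rf (nat_lit 1047) (nat_lit 19525234774721587160129)) (.cons (.ev (nat_lit 87112291144419053646275470238236859695105) (nat_lit 1)) .nil)))) .nil))))) .nil)))))) (.cons (.br (nat_lit 2) (nat_lit 0) (.cons (.br (nat_lit 14) (nat_lit 0) (.cons (.rf (nat_lit 1) (nat_lit 582001831025729))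 (.cons (.br (nat_lit 15) (nat_lit 0) (.cons (.ev (nat_lit 4086119572038952477205444211888815079941) (nat_lit 4)) (.cons (.ev (nat_lit 7996157524402793436648465889138968067) (nat_lit 3)) .nil))) (.cons (.br (nat_lit 15) (nat_lit 0) (.cons (.rf (nat_lit 1414) (nat_lit 661554765749107116049472)) (.cons (.ev (nat_lit 348457119115694872745271821203261037347331) (nat_lit 3)) .nil))) .nil)))) (.cons (.br (nat_lit 7) (nat_lit 0) (.cons (.ev (nat_lit 2668860946924672307812666908805825027) (nat_lit 2)) (.cons (.br (nat_lit 15) (nat_lit 0) (.cons (.ev (nat_lit 4091374177094853019587603171161632409097) (nat_lit 4)) (.cons (.rf (nat_lit 1381) (nat_lit 19992550605994379147749865)) .nil))) (.cons (.br (nat_lit 15) (nat_lit 0) (.cons (.ev (nat_lit 5348086125935906400823790179717350405) (nat_lit 3)) (.cons (.ev (nat_lit 348449154131997586630207651906714683442181) (nat_lit 3)) .nil))) .nil)))) (.cons (.br (nat_lit 7) (nat_lit 0) (.cons (.rf (nat_lit 1) (nat_lit 582000522411073)) (.cons (.br (nat_lit 14) (nat_lit 0) (.cons (.ev (nat_lit 1363819098930401809807790342235268582925)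 (nat_lit 4)) (.cons (.ev (nat_lit 5253303166267626933210984784921346) (nat_lit 2)) .nil))) (.cons (.br (nat_lit 14) (nat_lit 0) (.cons (.ev (nat_lit 2663648526114077246258725990112101121) (nat_lit 2)) (.cons (.ev (nat_lit 1045360733866829074044384440601313277905421) (nat_lit 4)) .nil))) .nil)))) (.cons (.br (nat_lit 7) (nat_lit 0) (.cons (.br (nat_lit 15) (nat_lit 0) (.cons (.ev (nat_lit 341611615278361150224651997975798677760) (nat_lit 1)) (.cons (.ev (nat_lit 2658476511666345569761113688489591297) (nat_lit 2)) .nil))) (.cons (.br (nat_lit 14) (nat_lit 0) (.cons (.ev (nat_lit 8006542593486448586408922228694713345) (nat_lit 3)) (.cons (.rf (nat_lit 999) (nat_lit 19993876190342138019719209)) .nil))) (.cons (.ev (nat_lit 20362256750371267762851812605953) (nat_lit 2)) (.cons (.br (nat_lit 15) (nat_lit 0) (.cons (.ev (nat_lit 2658476511666345569761113688489591297) (nat_lit 2)) (.cons (.ev (nat_lit 340282367000477324635718727761399906305) (nat_lit 1)) (.cons (.ev (nat_lit 87112285952042965735285463610621964648705) (nat_lit 1)) .nil)))) .nil)))))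 (.cons (.br (nat_lit 7) (nat_lit 0) (.cons (.br (nat_lit 15) (nat_lit 0) (.cons (.br (nat_lit 16) (nat_lit 0) (.cons (.ev (nat_lit 340287579579744249466759526012594225153) (nat_lit 1)) .nil)) (.cons (.ev (nat_lit 2658476511666345569761113688489591297) (nat_lit 2)) .nil))) (.cons (.ev (nat_lit 7975388653886158776223188749589283335) (nat_lit 3)) (.cons (.br (nat_lit 15) (nat_lit 0) (.cons (.ev (nat_lit 5253303166267626933210984784921346) (nat_lit 2)) (.cons (.rf (nat_lit 682) (nat_lit 625067101431396047094848)) (.cons (.rf (nat_lit 688) (nat_lit 625057994015600560776234)) .nil)))) (.cons (.ev (nat_lit 20362256750371267762851812605953) (nat_lit 2)) .nil))))) .nil)))))) .nil))))))) .nil))))))),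
 (.br (nat_lit 14) (nat_lit 0) (.cons (.ev (nat_lit 1329228075014287331506562050274951168) (nat_lit 1)) .nil)),
 (.br (nat_lit 14) (nat_lit 0) (.cons (.ev (nat_lit 31174460946823523923710593407778819) (nat_lit 3)) (.cons (.ev (nat_lit 340282367000477319931798706390975906048) (nat_lit 1)) (.cons (.br (nat_lit 15) (nat_lit 0) (.cons (.ev (nat_lit 2658476511666345569761674439419756547) (nat_lit 2)) (.cons (.rf (nat_lit 1481) (nat_lit 661701295917511241467936)) .nil))) .nil)))),
 (.br (nat_lit 11) (nat_lit 0) (.cons (.ev (nat_lit 10404956595217342829063056629564419) (nat_lit 3)) (.cons (.ev (nat_lit 20362259158778174026370871460353) (nat_lit 2)) (.cons (.br (nat_lit 14) (nat_lit 0) (.cons (.ev (nat_lit 341611594916724588262170369289766305793) (nat_lit 1)) (.cons (.rf (nat_lit 465) (nat_lit 19998382817290197103950149)) .nil))) .nil)))),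
 (.br (nat_lit 11) (nat_lit 0) (.cons (.ev (nat_lit 340287579579744254207572472580483907840) (nat_lit 1)) (.cons (.ev (nat_lit 20362259158778174026370871460353) (nat_lit 2)) (.cons (.br (nat_lit 14) (nat_lit 0) (.cons (.ev (nat_lit 341616807495991522537944133280251052033) (nat_lit 1)) (.cons (.br (nat_lit 15) (nat_lit 0) (.cons (.ev (nat_lit 8174772963950059812183780491664154171931) (nat_lit 5)) .nil)) .nil))) .nil)))),
 (.br (nat_lit 10) (nat_lit 0) (.cons (.rf (nat_lit 1482) (nat_lit 19926519232773908561233952)) (.cons (.kr (nat_lit 20361640184017574553753393168385) (nat_lit 10384593717074396214404223617466880) (nat_lit 0) (nat_lit 11)) (.cons (.rf (nat_lit 1483) (nat_lit 19926519232773908561233952)) (.cons (.rf (nat_lit 1484) (nat_lit 19926519232773908561233952)) (.cons (.br (nat_lit 14) (nat_lit 0) (.cons (.rf (nat_lit 1483) (nat_lit 19770493361363620530756803)) (.cons (.rf (nat_lit 1482) (nat_lit 19770493361363620530756803)) (.cons (.rf (nat_lit 1484) (nat_lit 19770493361363620530756803)) (.cons (.br (nat_lit 11) (nat_lit 0) (.cons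 (.rf (nat_lit 1481) (nat_lit 661516828652696006395936)) (.cons (.rf (nat_lit 1439) (nat_lit 21174326096290245445302469)) (.cons (.rf (nat_lit 1440) (nat_lit 21174326096290245445302469)) .nil)))) .nil))))) .nil)))))),
 (.br (nat_lit 14) (nat_lit 0) (.cons (.ev (nat_lit 1329228075943965472409307699667271936) (nat_lit 2)) (.cons (.ev (nat_lit 340282367000477319931798987870230806528) (nat_lit 1)) (.cons (.br (nat_lit 15) (nat_lit 0) (.cons (.ev (nat_lit 2658476511666345569761674439419756547) (nat_lit 2)) (.cons (.rf (nat_lit 569) (nat_lit 624578308478036166749644)) .nil))) .nil)))),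
 (.br (nat_lit 16) (nat_lit 0) (.cons (.zr (nat_lit 87452573490978044853840795157108902396672) (nat_lit 1329227996094400882725154336651870210) (nat_lit 8) (nat_lit 16)) .nil)),
 (.br (nat_lit 11) (nat_lit 0) (.cons (.ev (nat_lit 1329228075943955990782851605310996738) (nat_lit 2)) (.cons (.ev (nat_lit 20362259158778174026370871460353) (nat_lit 2)) (.cons (.br (nat_lit 14) (nat_lit 0) (.cons (.ev (nat_lit 341611594916724588262170087819067785473) (nat_lit 1)) (.cons (.rf (nat_lit 467) (nat_lit 19998382817290197103950149)) .nil))) .nil)))),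
 (.br (nat_lit 11) (nat_lit 0) (.cons (.ev (nat_lit 340287579579744254207572472580483907840) (nat_lit 1)) (.cons (.ev (nat_lit 20362259158778174026370871460353) (nat_lit 2)) (.cons (.br (nat_lit 14) (nat_lit 0) (.cons (.ev (nat_lit 341616807495991522537944133280251052033) (nat_lit 1)) (.cons (.br (nat_lit 15) (nat_lit 0) (.cons (.ev (nat_lit 2740971994567342080889705096172944494083) (nat_lit 5)) .nil)) .nil))) .nil)))),
 (.br (nat_lit 7) (nat_lit 0) (.cons (.rf (nat_lit 1486) (nat_lit 19926519232773908561233952)) (.cons (.br (nat_lit 11) (nat_lit 0) (.cons (.ev (nat_lit 114252798984696204767817167551467013) (nat_lit 5)) (.cons (.ev (nat_lit 5444632123534000186881472853279905553941) (nat_lit 5)) (.cons (.br (nat_lit 15) (nat_lit 0) (.cons (.ev (nat_lit 5465899770193956480757715270019257601541) (nat_lit 5)) (.cons (.rf (nat_lit 1487) (nat_lit 677582165103132179601393696)) .nil))) .nil)))) (.cons (.rf (nat_lit 1488) (nat_lit 19926519232773908561233952)) (.cons (.rf (nat_lit 1489) (nat_lit 19926519232773908561233952)) (.cons (.br (nat_lit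 14) (nat_lit 0) (.cons (.rf (nat_lit 1488) (nat_lit 19767103758484559630608420)) (.cons (.rf (nat_lit 1486) (nat_lit 19767103758484559630608420)) (.cons (.rf (nat_lit 1489) (nat_lit 19767103758484559630608420)) (.cons (.br (nat_lit 11) (nat_lit 0) (.cons (.rf (nat_lit 618) (nat_lit 21174216618207706656808003)) (.cons (.rf (nat_lit 1288) (nat_lit 661554728242429030414368)) (.cons (.br (nat_lit 15) (nat_lit 0) (.cons (.ev (nat_lit 340282367000477324635718727761399906305) (nat_lit 1)) .nil)) .nil)))) .nil))))) .nil)))))),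
 (.br (nat_lit 14) (nat_lit 0) (.cons (.rf (nat_lit 1490) (nat_lit 19770493361363620530756803)) (.cons (.rf (nat_lit 1485) (nat_lit 19767103758484559630608420)) (.cons (.kr (nat_lit 20361637770906747989583661629441) (nat_lit 2658455992188801765450304262321995776) (nat_lit 0) (nat_lit 1)) (.cons (.ev (nat_lit 10405114430145054909946793470066691) (nat_lit 2)) (.cons (.br (nat_lit 7) (nat_lit 0) (.cons (.br (nat_lit 16) (nat_lit 0) (.cons (.ev (nat_lit 340282387203658761069204792744683241728) (nat_lit 1)) (.cons (.ev (nat_lit 340287579579744254207572471485284024577) (nat_lit 1)) .nil))) (.cons (.kr (nat_lit 20282409603670117168020960837632) (nat_lit 1329227996094400882725152129005125632) (nat_lit 8) (nat_lit 0)) (.cons (.br (nat_lit 15) (nat_lit 0) (.cons (.ev (nat_lit 20362259158778174026370871460353) (nat_lit 2)) (.cons (.ev (nat_lit 341616787292810081400537765455878750465) (nat_lit 1)) .nil))) (.cons (.br (nat_lit 10) (nat_lit 0) (.cons (.rf (nat_lit 458) (nat_lit 19533234329382659824682)) (.cons (.br (nat_lit 15) (nat_lit 0) (.cons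 (.ev (nat_lit 341616787292810081400538046926543716353) (nat_lit 1)) .nil)) (.cons (.br (nat_lit 15) (nat_lit 0) (.cons (.ev (nat_lit 340282367000477324635718727761399906305) (nat_lit 1)) .nil)) .nil)))) .nil))))) .nil)))))),
 (.br (nat_lit 10) (nat_lit 0) (.cons (.kr (nat_lit 2658455992188801765450305357521879041) (nat_lit 20361637770906747988488461746176) (nat_lit 0) (nat_lit 1)) (.cons (.ev (nat_lit 20362259168259801043216157900801) (nat_lit 2)) (.cons (.br (nat_lit 16) (nat_lit 0) (.cons (.ev (nat_lit 340287559218106488041637709944488788225) (nat_lit 1)) (.cons (.ev (nat_lit 340282387203658765773124531540618903808) (nat_lit 1)) .nil))) .nil))))]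

theorem c89 : chkAll C T R L89 (nat_lit 1478) = true := by decide +kernel

theorem l89 : (nat_lit 1478) + L89.length = (nat_lit 1493) := by decide +kernel

/-- part of the certificates -/
def L90 : List Prf := [(.br (nat_lit 10) (nat_lit 0) (.cons (.ev (nat_lit 20362259168259800480257580990977) (nat_lit 2)) (.cons (.ev (nat_lit 2658476511666354977601152031291080707) (nat_lit 2)) (.cons (.br (nat_lit 11) (nat_lit 0) (.cons (.ev (nat_lit 341616807495991517834024394484315389953) (nat_lit 1)) (.cons (.br (nat_lit 15) (nat_lit 0) (.cons (.ev (nat_lit 8190806776959918910573799828556200281627) (nat_lit 5)) .nil)) .nil))) .nil)))),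
 (.br (nat_lit 7) (nat_lit 0) (.cons (.kr (nat_lit 20361640184017574553753393168385) (nat_lit 10384593717074396214404223617466880) (nat_lit 0) (nat_lit 11)) (.cons (.rf (nat_lit 1492) (nat_lit 19926519232773908561233952)) (.cons (.rf (nat_lit 1491) (nat_lit 19770493361363620530756803)) (.cons (.rf (nat_lit 1493) (nat_lit 19926519232773908561233952)) (.cons (.br (nat_lit 10) (nat_lit 0) (.cons (.rf (nat_lit 1492) (nat_lit 19912199944454224877861061)) (.cons (.rf (nat_lit 1491) (nat_lit 19767103758484559630608420)) (.cons (.rf (nat_lit 1493) (nat_lit 19912199944454224877861061)) (.cons (.br (nat_lit 11) (nat_lit 0) (.cons (.ev (nat_lit 31174460946833079337138584555749377) (nat_lit 3)) (.cons (.ev (nat_lit 1361160642144700705748515649378098217989) (nat_lit 3)) (.cons (.ev (nat_lit 348449154131997581813393840509974519088129) (nat_lit 3)) .nil)))) .nil))))) .nil)))))),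
 (.br (nat_lit 14) (nat_lit 0) (.cons (.rf (nat_lit 1490) (nat_lit 19770493361363620530756803)) (.cons (.rf (nat_lit 1485) (nat_lit 19767103758484559630608420)) (.cons (.kr (nat_lit 20361637770906747989583661629441) (nat_lit 2658455992188801765450304262321995776) (nat_lit 0) (nat_lit 1)) (.cons (.ev (nat_lit 2668860946924681789439118587935719937) (nat_lit 2)) (.cons (.br (nat_lit 7) (nat_lit 0) (.cons (.rf (nat_lit 1494) (nat_lit 19770493361363620530756803)) (.cons (.kr (nat_lit 20282409603670117168020960837632) (nat_lit 1329227996094400882725152129005125632) (nat_lit 8) (nat_lit 0)) (.cons (.br (nat_lit 10) (nat_lit 0) (.cons (.ev (nat_lit 20362259168259800480257580990977) (nat_lit 2)) (.cons (.rf (nat_lit 519) (nat_lit 624757151025268115258697)) .nil))) (.cons (.br (nat_lit 16) (nat_lit 0) (.cons (.rf (nat_lit 1288) (nat_lit 661513258427182974409764)) (.cons (.rf (nat_lit 1287) (nat_lit 661513258418381526146243)) (.cons (.ev (nat_lit 341616787292810076696618308130608054273) (nat_lit 1)) .nil)))) .nil))))) .nil)))))),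
 (.br (nat_lit 7) (nat_lit 0) (.cons (.rf (nat_lit 1494) (nat_lit 19770493361363620530756803)) (.cons (.rf (nat_lit 1495) (nat_lit 19770493361363620530756803)) (.cons (.rf (nat_lit 1490) (nat_lit 19770493361363620530756803)) (.cons (.rf (nat_lit 1491) (nat_lit 19770493361363620530756803)) (.cons (.br (nat_lit 10) (nat_lit 0) (.cons (.rf (nat_lit 1495) (nat_lit 19767103758484559630608420)) (.cons (.rf (nat_lit 1485) (nat_lit 19767103758484559630608420)) (.cons (.rf (nat_lit 1491) (nat_lit 19767103758484559630608420)) (.cons (.br (nat_lit 11) (nat_lit 0) (.cons (.ev (nat_lit 10405114430145054909381644493390337) (nat_lit 2)) (.cons (.ev (nat_lit 341611615278362354428104849359863021825) (nat_lit 1)) (.cons (.ev (nat_lit 174905136617724629388434348700186475233795) (nat_lit 2)) .nil)))) .nil))))) .nil)))))),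
 (.br (nat_lit 15) (nat_lit 0) (.cons (.ev (nat_lit 20362259158778174026370871460353) (nat_lit 2)) (.cons (.ev (nat_lit 10405114430135647069906260201701891) (nat_lit 2)) (.cons (.ev (nat_lit 341611594916723379354797216159796101121) (nat_lit 1)) (.cons (.kr (nat_lit 2658455992188801765450305361833623553) (nat_lit 20361637770906748551434103423488) (nat_lit 0) (nat_lit 2)) .nil))))),
 (.br (nat_lit 11) (nat_lit 0) (.cons (.kr (nat_lit 79228167236630820463189164032) (nat_lit 1329227996094400882725152129005125632) (nat_lit 9) (nat_lit 0)) (.cons (.ev (nat_lit 20362259158778174026370871460353) (nat_lit 2)) (.cons (.rf (nat_lit 585) (nat_lit 661546700748793038574785)) .nil)))),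
 (.br (nat_lit 10) (nat_lit 0) (.cons (.br (nat_lit 15) (nat_lit 0) (.cons (.ev (nat_lit 31174460946823523923710593407778819) (nat_lit 3)) (.cons (.rf (nat_lit 664) (nat_lit 624586484172786507161670)) (.cons (.ev (nat_lit 2658476511666345569761674439419756547) (nat_lit 2)) .nil)))) (.cons (.br (nat_lit 11) (nat_lit 0) (.cons (.rf (nat_lit 1) (nat_lit 581864286042434)) (.cons (.rf (nat_lit 1497) (nat_lit 677582165103132179601393696)) (.cons (.rf (nat_lit 1497) (nat_lit 640091145406758991502129349)) .nil)))) (.cons (.rf (nat_lit 1498) (nat_lit 677582165103132179601393696)) (.cons (.br (nat_lit 11) (nat_lit 0) (.cons (.rf (nat_lit 1498) (nat_lit 639949438823668387155025091)) (.cons (.ev (nat_lit 20362259158778174026370871460353) (nat_lit 2)) (.cons (.rf (nat_lit 1497) (nat_lit 677582165103132179601393696)) (.cons (.br (nat_lit 15) (nat_lit 0) (.cons (.rf (nat_lit 246) (nat_lit 20667789057477243348450)) (.cons (.kr (nat_lit 2658455992188801765450305361833623553) (nat_lit 20361637770906748551434103423488) (nat_lit 0) (nat_lit 2)) (.cons (.ev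 (nat_lit 87112285931839784298888870470836130217985) (nat_lit 1)) .nil)))) .nil))))) (.cons (.br (nat_lit 11) (nat_lit 0) (.cons (.rf (nat_lit 1498) (nat_lit 639949438823668387155025091)) (.cons (.ev (nat_lit 2658476511666345569761674439419756547) (nat_lit 2)) (.cons (.rf (nat_lit 1497) (nat_lit 677582165103132179601393696)) (.cons (.br (nat_lit 15) (nat_lit 0) (.cons (.ev (nat_lit 87113620352132119468764515793411501981696) (nat_lit 1)) (.cons (.kr (nat_lit 2658455992188801765450305361833623553) (nat_lit 20361637770906748551434103423488) (nat_lit 0) (nat_lit 2)) .nil))) .nil))))) .nil)))))),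
 (.br (nat_lit 16) (nat_lit 0) (.cons (.ev (nat_lit 341611594916723379354797217263619473408) (nat_lit 1)) (.cons (.ev (nat_lit 340282387203657552124938715521070727425) (nat_lit 1)) .nil))),
 (.br (nat_lit 15) (nat_lit 0) (.cons (.rf (nat_lit 1) (nat_lit 581864386800866)) (.cons (.rf (nat_lit 1500) (nat_lit 677582165103132179601393696)) (.cons (.ev (nat_lit 2658476511666345569761674439419756547) (nat_lit 2)) .nil)))),
 (.br (nat_lit 15) (nat_lit 0) (.cons (.ev (nat_lit 340287559218107696949010581595170537473) (nat_lit 1)) (.cons (.kr (nat_lit 2658455992188801765450305361833623553) (nat_lit 20361637770906748551434103423488) (nat_lit 0) (nat_lit 2)) .nil))),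
 (.br (nat_lit 11) (nat_lit 0) (.cons (.rf (nat_lit 1) (nat_lit 581863212399842)) (.cons (.ev (nat_lit 20362259158778174026370871460353) (nat_lit 2)) (.cons (.br (nat_lit 14) (nat_lit 0) (.cons (.rf (nat_lit 394) (nat_lit 19533350463206921905382)) (.cons (.ev (nat_lit 87112285952042965735285463330246482788353) (nat_lit 1)) .nil))) .nil)))),
 (.br (nat_lit 11) (nat_lit 0) (.cons (.rf (nat_lit 1503) (nat_lit 677422749628842830670768164)) (.cons (.ev (nat_lit 20362259158778174026370871460353) (nat_lit 2)) (.cons (.br (nat_lit 15) (nat_lit 0) (.cons (.ev (nat_lit 340287559218107696949010581595170537473) (nat_lit 1)) (.cons (.kr (nat_lit 2658455992188801765450305361833623553) (nat_lit 20361637770906748551434103423488) (nat_lit 0) (nat_lit 2)) .nil))) (.cons (.br (nat_lit 15) (nat_lit 0) (.cons (.ev (nat_lit 10405114430135647070469201598742531) (nat_lit 2)) (.cons (.kr (nat_lit 2658455992188801765450305361833623553) (nat_lit 20361637770906748551434103423488) (nat_lit 0) (nat_lit 2)) (.cons (.br (nat_lit 14) (nat_lit 0) (.cons (.ev (nat_lit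 1363798329107911683787534645574833931269) (nat_lit 3)) .nil)) .nil)))) .nil))))),
 (.br (nat_lit 7) (nat_lit 0) (.cons (.rf (nat_lit 1501) (nat_lit 677582165103132179601393696)) (.cons (.br (nat_lit 11) (nat_lit 0) (.cons (.rf (nat_lit 1) (nat_lit 581864286140642)) (.cons (.rf (nat_lit 1502) (nat_lit 677582165103132179601393696)) (.cons (.rf (nat_lit 1502) (nat_lit 640091145406758991502129349)) .nil)))) (.cons (.rf (nat_lit 1503) (nat_lit 677582165103132179601393696)) (.cons (.rf (nat_lit 1504) (nat_lit 677582165103132179601393696)) (.cons (.br (nat_lit 14) (nat_lit 0) (.cons (.rf (nat_lit 1503) (nat_lit 677422749628842830670768164)) (.cons (.rf (nat_lit 1501) (nat_lit 677422749628842830670768164)) (.cons (.rf (nat_lit 1504) (nat_lit 677422749628842830670768164)) (.cons (.br (nat_lit 11) (nat_lit 0) (.cons (.ev (nat_lit 10405114430135647070469201598742531) (nat_lit 2)) (.cons (.br (nat_lit 15) (nat_lit 0) (.cons (.ev (nat_lit 1363798329107911664971855694806250554369) (nat_lit 3)) .nil)) .nil))) .nil))))) .nil)))))),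
 (.br (nat_lit 14) (nat_lit 0) (.cons (.rf (nat_lit 1505) (nat_lit 639949438823668387155025091)) (.cons (.rf (nat_lit 1499) (nat_lit 677422749628842830670768164)) (.cons (.kr (nat_lit 20361637770906747989583661629441) (nat_lit 2658455992188801765450304262321995776) (nat_lit 0) (nat_lit 1)) (.cons (.br (nat_lit 10) (nat_lit 0) (.cons (.br (nat_lit 15) (nat_lit 0) (.cons (.ev (nat_lit 341611594916723379354797217263619473408) (nat_lit 1)) (.cons (.rf (nat_lit 258) (nat_lit 19525276647316671993026)) .nil))) (.cons (.ev (nat_lit 2668860946924672307812664701226189313) (nat_lit 2)) (.cons (.br (nat_lit 15) (nat_lit 0) (.cons (.ev (nat_lit 20362259158778174026370871460353) (nat_lit 2)) (.cons (.ev (nat_lit 341616787292811290344804406733234503937) (nat_lit 1)) .nil))) (.cons (.rf (nat_lit 1443) (nat_lit 21169462042998718515554340)) .nil))))) (.cons (.ev (nat_lit 10405114430145054909946793470066691) (nat_lit 2)) .nil)))))),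
 (.br (nat_lit 11) (nat_lit 0) (.cons (.br (nat_lit 10) (nat_lit 0) (.cons (.ev (nat_lit 341611594916723379354797217263619473408) (nat_lit 1)) (.cons (.ev (nat_lit 20362259168259801043216157900801) (nat_lit 2)) .nil))) (.cons (.br (nat_lit 16) (nat_lit 0) (.cons (.ev (nat_lit 20362259168259800480257580990977) (nat_lit 2)) (.cons (.ev (nat_lit 340287559218107696949010863074425438465) (nat_lit 1)) .nil))) (.cons (.br (nat_lit 7) (nat_lit 0) (.cons (.ev (nat_lit 340287559218107696949010581595170537473) (nat_lit 1)) (.cons (.br (nat_lit 10) (nat_lit 0) (.cons (.ev (nat_lit 1361139872640353897565553452228127358981) (nat_lit 3)) .nil)) .nil))) (.cons (.kr (nat_lit 2658455992188801765450305361833623553) (nat_lit 20361637770906748551434103423488) (nat_lit 0) (nat_lit 2)) .nil))))),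
 (.br (nat_lit 15) (nat_lit 0) (.cons (.rf (nat_lit 1506) (nat_lit 639949438823668387155025091)) (.cons (.rf (nat_lit 1506) (nat_lit 677422749628842830670768164)) (.cons (.br (nat_lit 7) (nat_lit 0) (.cons (.rf (nat_lit 1) (nat_lit 581864286267618)) (.cons (.br (nat_lit 10) (nat_lit 0) (.cons (.ev (nat_lit 31174460946833079337138584555749377) (nat_lit 3)) (.cons (.br (nat_lit 16) (nat_lit 0) (.cons (.ev (nat_lit 2616797986204355319329902096968300337039371) (nat_lit 5)) .nil)) .nil))) (.cons (.br (nat_lit 10) (nat_lit 0) (.cons (.br (nat_lit 16) (nat_lit 0) (.cons (.zr (nat_lit 1374432132238417350187790356477800218624) (nat_lit 182779370972372306573895072220675) (nat_lit 16) (nat_lit 11)) .nil)) (.cons (.ev (nat_lit 31174460946833079337138584555749377) (nat_lit 3)) .nil))) .nil)))) (.cons (.rf (nat_lit 1507) (nat_lit 677582165103132179601393696)) (.cons (.rf (nat_lit 1507) (nat_lit 640091145406758991502129349)) .nil)))))),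
 (.br (nat_lit 14) (nat_lit 0) (.cons (.rf (nat_lit 1505) (nat_lit 639949438823668387155025091)) (.cons (.rf (nat_lit 1499) (nat_lit 677422749628842830670768164)) (.cons (.kr (nat_lit 20361637770906747989583661629441) (nat_lit 2658455992188801765450304262321995776) (nat_lit 0) (nat_lit 1)) (.cons (.ev (nat_lit 2668860946924681789439118587935719937) (nat_lit 2)) (.cons (.br (nat_lit 7) (nat_lit 0) (.cons (.rf (nat_lit 1508) (nat_lit 639949438823668387155025091)) (.cons (.kr (nat_lit 20282409603670117168020960837632) (nat_lit 1329227996094400882725152129005125632) (nat_lit 8) (nat_lit 0)) (.cons (.br (nat_lit 11) (nat_lit 0) (.cons (.ev (nat_lit 20362259168259800480257580990977) (nat_lit 2)) (.cons (.ev (nat_lit 341611594916723379354797216159796101121) (nat_lit 1)) (.cons (.ev (nat_lit 87113615180117669333385176893076692599040) (nat_lit 1)) .nil)))) (.cons (.br (nat_lit 10) (nat_lit 0) (.cons (.ev (nat_lit 10405114430135647070469201598742531) (nat_lit 2)) (.cons (.br (nat_lit 11) (nat_lit 0) (.cons (.ev (nat_lit 341611594916723379354797497639084556545)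 (nat_lit 1)) .nil)) .nil))) .nil))))) .nil)))))),
 (.br (nat_lit 7) (nat_lit 0) (.cons (.rf (nat_lit 1508) (nat_lit 639949438823668387155025091)) (.cons (.rf (nat_lit 1509) (nat_lit 639949438823668387155025091)) (.cons (.rf (nat_lit 1505) (nat_lit 639949438823668387155025091)) (.cons (.rf (nat_lit 1506) (nat_lit 639949438823668387155025091)) (.cons (.br (nat_lit 10) (nat_lit 0) (.cons (.ev (nat_lit 20362259168259800480257580990977) (nat_lit 2)) (.cons (.rf (nat_lit 1499) (nat_lit 677422749628842830670768164)) (.cons (.rf (nat_lit 1506) (nat_lit 677422749628842830670768164)) (.cons (.br (nat_lit 11) (nat_lit 0) (.cons (.ev (nat_lit 10405114430145054909381644493390337) (nat_lit 2)) (.cons (.br (nat_lit 14) (nat_lit 0) (.cons (.ev (nat_lit 1369115240772900766664433597053589914629) (nat_lit 3)) .nil)) (.cons (.ev (nat_lit 340282387203657556865751942464425492737) (nat_lit 1)) .nil)))) .nil))))) (.cons (.br (nat_lit 10) (nat_lit 0) (.cons (.rf (nat_lit 1509) (nat_lit 677422749628842830670768164)) (.cons (.rf (nat_lit 1499) (nat_lit 677422749628842830670768164))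 (.cons (.ev (nat_lit 2658476511666354977601152031291080707) (nat_lit 2)) (.cons (.br (nat_lit 11) (nat_lit 0) (.cons (.ev (nat_lit 10405114430145054909381644493390337) (nat_lit 2)) (.cons (.br (nat_lit 14) (nat_lit 0) (.cons (.ev (nat_lit 1363798329107911693195374127581864526849) (nat_lit 3)) .nil)) (.cons (.ev (nat_lit 340282367000476110987532348791898308608) (nat_lit 1)) .nil)))) (.cons (.br (nat_lit 11) (nat_lit 0) (.cons (.ev (nat_lit 10405114430145054909381644493390337) (nat_lit 2)) (.cons (.br (nat_lit 14) (nat_lit 0) (.cons (.ev (nat_lit 1369136010277242720254652534540527337477) (nat_lit 3)) .nil)) (.cons (.ev (nat_lit 87112285952042965740026276556086047735808) (nat_lit 1)) .nil)))) .nil)))))) .nil))))))),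
 (.br (nat_lit 5) (nat_lit 0) (.cons (.rf (nat_lit 1087) (nat_lit 69932686531)) (.cons (.br (nat_lit 9) (nat_lit 0) (.cons (.rf (nat_lit 1458) (nat_lit 254745237107419172)) (.cons (.rf (nat_lit 1445) (nat_lit 478451012)) (.cons (.br (nat_lit 15) (nat_lit 1) (.cons (.rf (nat_lit 1445) (nat_lit 517350760)) (.cons (.br (nat_lit 7) (nat_lit 1) (.cons (.br (nat_lit 13) (nat_lit 0) (.cons (.kr (nat_lit 79228167236630821562700791809) (nat_lit 20282409603670117168025272582144) (nat_lit 0) (nat_lit 1)) .nil)) (.cons (.br (nat_lit 12) (nat_lit 0) (.cons (.br (nat_lit 1) (nat_lit 0) (.cons (.rf (nat_lit 1462) (nat_lit 583706118939841765935136)) (.cons (.br (nat_lit 2) (nat_lit 0) (.cons (.rf (nat_lit 1463) (nat_lit 583706118939841765935136)) (.cons (.rf (nat_lit 1465) (nat_lit 583706118939841765935136)) (.cons (.rf (nat_lit 1467) (nat_lit 583706118939841765935136)) (.cons (.rf (nat_lit 1468) (nat_lit 583706118939841765935136)) (.cons (.rf (nat_lit 1469) (nat_lit 583706118939841765935136)) (.cons (.br (nat_lit 7) (nat_lit 0) (.cons (.rf (nat_lit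 1468) (nat_lit 427680247529553735457987)) (.cons (.rf (nat_lit 1469) (nat_lit 427680247529553735457987)) (.cons (.rf (nat_lit 1465) (nat_lit 427680247529553735457987)) (.cons (.rf (nat_lit 1467) (nat_lit 427680247529553735457987)) (.cons (.rf (nat_lit 1472) (nat_lit 19926519232773908561233952)) (.cons (.br (nat_lit 10) (nat_lit 0) (.cons (.rf (nat_lit 1469) (nat_lit 424290644650492835309604)) (.cons (.rf (nat_lit 1463) (nat_lit 424290644650492835309604)) (.cons (.rf (nat_lit 1467) (nat_lit 424290644650492835309604)) (.cons (.br (nat_lit 14) (nat_lit 0) (.cons (.rf (nat_lit 1467) (nat_lit 569386830620158082562245)) (.cons (.rf (nat_lit 1469) (nat_lit 569386830620158082562245)) (.cons (.rf (nat_lit 1472) (nat_lit 19767103758484559630608420)) (.cons (.br (nat_lit 11) (nat_lit 0) (.cons (.ev (nat_lit 7985773089146912810935167326449959937) (nat_lit 3)) (.cons (.rf (nat_lit 1473) (nat_lit 677582165103132179601393696)) (.cons (.rf (nat_lit 1473) (nat_lit 640091145406758991502129349)) .nil)))) .nil))))) (.cons (.br (nat_lit 14) (nat_lit 0) (.cons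 (.rf (nat_lit 1467) (nat_lit 569386830620158082562245)) (.cons (.rf (nat_lit 1469) (nat_lit 569386830620158082562245)) (.cons (.br (nat_lit 11) (nat_lit 0) (.cons (.ev (nat_lit 20521336881122862267030134851079) (nat_lit 3)) (.cons (.ev (nat_lit 1361150257709432707529831407304451556871) (nat_lit 3)) (.cons (.ev (nat_lit 348449164517066665440171930992123186513411) (nat_lit 3)) .nil)))) (.cons (.rf (nat_lit 1472) (nat_lit 20976029578099188805314596)) .nil))))) .nil)))))) .nil))))))) .nil))))))) (.cons (.rf (nat_lit 1477) (nat_lit 583706118939841765935136)) (.cons (.rf (nat_lit 1462) (nat_lit 424290644650492835309604)) (.cons (.rf (nat_lit 1480) (nat_lit 583706118939841765935136)) (.cons (.rf (nat_lit 1477) (nat_lit 424290644650492835309604)) (.cons (.rf (nat_lit 1480) (nat_lit 424290644650492835309604)) (.cons (.br (nat_lit 6) (nat_lit 0) (.cons (.rf (nat_lit 1477) (nat_lit 427680247529553735457987)) (.cons (.rf (nat_lit 1462) (nat_lit 427680247529553735457987)) (.cons (.rf (nat_lit 1477) (nat_lit 569386830620158082562245)) (.cons (.rf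 (nat_lit 1480) (nat_lit 569386830620158082562245)) (.cons (.rf (nat_lit 1462) (nat_lit 569386830620158082562245)) (.cons (.rf (nat_lit 1480) (nat_lit 427680247529553735457987)) (.cons (.br (nat_lit 2) (nat_lit 0) (.cons (.rf (nat_lit 1485) (nat_lit 19926519232773908561233952)) (.cons (.rf (nat_lit 1490) (nat_lit 19926519232773908561233952)) (.cons (.rf (nat_lit 1491) (nat_lit 19926519232773908561233952)) (.cons (.rf (nat_lit 1494) (nat_lit 19926519232773908561233952)) (.cons (.rf (nat_lit 1495) (nat_lit 19926519232773908561233952)) (.cons (.rf (nat_lit 1496) (nat_lit 19926519232773908561233952)) (.cons (.br (nat_lit 7) (nat_lit 0) (.cons (.rf (nat_lit 1494) (nat_lit 19770493361363620530756803)) (.cons (.rf (nat_lit 1495) (nat_lit 19770493361363620530756803)) (.cons (.rf (nat_lit 1490) (nat_lit 19770493361363620530756803)) (.cons (.rf (nat_lit 1491) (nat_lit 19770493361363620530756803)) (.cons (.rf (nat_lit 1496) (nat_lit 19770493361363620530756803)) (.cons (.br (nat_lit 10) (nat_lit 0) (.cons (.rf (nat_lit 1495) (nat_lit 19767103758484559630608420))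 (.cons (.rf (nat_lit 1485) (nat_lit 19767103758484559630608420)) (.cons (.rf (nat_lit 1491) (nat_lit 19767103758484559630608420)) (.cons (.rf (nat_lit 1496) (nat_lit 19767103758484559630608420)) (.cons (.br (nat_lit 14) (nat_lit 0) (.cons (.rf (nat_lit 1491) (nat_lit 19912199944454224877861061)) (.cons (.rf (nat_lit 1495) (nat_lit 19912199944454224877861061)) (.cons (.rf (nat_lit 1496) (nat_lit 19912199944454224877861061)) .nil)))) .nil)))))) .nil))))))) .nil)))))))) (.cons (.br (nat_lit 2) (nat_lit 0) (.cons (.rf (nat_lit 1499) (nat_lit 677582165103132179601393696)) (.cons (.rf (nat_lit 1505) (nat_lit 677582165103132179601393696)) (.cons (.rf (nat_lit 1506) (nat_lit 677582165103132179601393696)) (.cons (.rf (nat_lit 1508) (nat_lit 677582165103132179601393696)) (.cons (.rf (nat_lit 1509) (nat_lit 677582165103132179601393696)) (.cons (.rf (nat_lit 1510) (nat_lit 677582165103132179601393696)) (.cons (.br (nat_lit 7) (nat_lit 0) (.cons (.rf (nat_lit 1508) (nat_lit 639949438823668387155025091)) (.cons (.rf (nat_lit 1509) (nat_lit 639949438823668387155025091))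 (.cons (.rf (nat_lit 1505) (nat_lit 639949438823668387155025091)) (.cons (.rf (nat_lit 1506) (nat_lit 639949438823668387155025091)) (.cons (.br (nat_lit 10) (nat_lit 0) (.cons (.ev (nat_lit 20362259168259800480257580990977) (nat_lit 2)) (.cons (.rf (nat_lit 1499) (nat_lit 677422749628842830670768164)) (.cons (.rf (nat_lit 1443) (nat_lit 21174441542546052796745760)) (.cons (.rf (nat_lit 1510) (nat_lit 677422749628842830670768164)) (.cons (.br (nat_lit 11) (nat_lit 0) (.cons (.rf (nat_lit 549) (nat_lit 20676979745566468931627)) (.cons (.br (nat_lit 14) (nat_lit 0) (.cons (.ev (nat_lit 1363798329107911693195374123166705255429) (nat_lit 3)) .nil)) (.cons (.ev (nat_lit 174905136617724629388434348700186475233795) (nat_lit 2)) .nil)))) .nil)))))) (.cons (.rf (nat_lit 1510) (nat_lit 639949438823668387155025091)) .nil))))))) .nil)))))))) .nil))))))))) .nil))))))))) .nil)) .nil))) .nil))) .nil)))) .nil)))]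

theorem c90 : chkAll C T R L90 (nat_lit 1493) = true := by decide +kernel

theorem l90 : (nat_lit 1493) + L90.length = (nat_lit 1512) := by decide +kernel

/-- part of the certificates -/
def L91 : List Prf := [(.br (nat_lit 11) (nat_lit 1) (.cons (.rf (nat_lit 1458) (nat_lit 407901468851537952)) (.cons (.rf (nat_lit 768) (nat_lit 297320)) (.cons (.br (nat_lit 12) (nat_lit 1) (.cons (.br (nat_lit 5) (nat_lit 0) (.cons (.rf (nat_lit 1511) (nat_lit 493858305440582043680)) (.cons (.rf (nat_lit 1511) (nat_lit 493858305407296047136)) (.cons (.br (nat_lit 5) (nat_lit 0) (.cons (.rf (nat_lit 1511) (nat_lit 493858305440582043680)) (.cons (.rf (nat_lit 1511) (nat_lit 493858305407296047136)) (.cons (.br (nat_lit 9) (nat_lit 0) (.cons (.rf (nat_lit 1458) (nat_lit 218716483038128164)) (.cons (.rf (nat_lit 1458) (nat_lit 254745280057092132)) (.cons (.rf (nat_lit 1445) (nat_lit 478451012)) (.cons (.rf (nat_lit 1445) (nat_lit 512005444)) .nil))))) .nil)))) .nil)))) .nil)) .nil)))),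
 (.br (nat_lit 11) (nat_lit 0) (.cons (.ev (nat_lit 5192376706885750751338030411481347) (nat_lit 2)) (.cons (.ev (nat_lit 20362256750371268323602742772227) (nat_lit 2)) (.cons (.br (nat_lit 15) (nat_lit 0) (.cons (.ev (nat_lit 2658476511663927681228396282721206273) (nat_lit 2)) (.cons (.rf (nat_lit 394) (nat_lit 20677729875455181688871)) .nil))) .nil)))),
 (.br (nat_lit 10) (nat_lit 0) (.cons (.kr (nat_lit 5192297168019837521933159091929344) (nat_lit 1329227995786124798723703164431826944) (nat_lit 1) (nat_lit 0)) (.cons (.br (nat_lit 14) (nat_lit 0) (.cons (.ev (nat_lit 10405114432562943442101257874964481) (nat_lit 2)) (.cons (.rf (nat_lit 1) (nat_lit 582139039001793)) .nil))) .nil))),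
 (.br (nat_lit 6) (nat_lit 0) (.cons (.kr (nat_lit 20282409603670117169124784209921) (nat_lit 79228167236631383413142585856) (nat_lit 0) (nat_lit 2)) (.cons (.br (nat_lit 7) (nat_lit 0) (.cons (.br (nat_lit 14) (nat_lit 0) (.cons (.kr (nat_lit 1329227996094400882725433603981836544) (nat_lit 5192296859743753520202719541919744) (nat_lit 1) (nat_lit 0)) (.cons (.br (nat_lit 15) (nat_lit 0) (.cons (.ev (nat_lit 2668860946927090196345945065537929731) (nat_lit 2)) (.cons (.rf (nat_lit 1) (nat_lit 582169107966145)) .nil))) .nil))) (.cons (.br (nat_lit 11) (nat_lit 0) (.cons (.ev (nat_lit 31174460946833079338829633472824833) (nat_lit 3)) (.cons (.br (nat_lit 15) (nat_lit 0) (.cons (.ev (nat_lit 1339612828117360156050366836584218881) (nat_lit 2)) (.cons (.rf (nat_lit 1) (nat_lit 582172326045889)) .nil))) .nil))) (.cons (.br (nat_lit 11) (nat_lit 0) (.cons (.kr (nat_lit 1329227996094400882725433603981836544) (nat_lit 5192296859743753520202719541919744) (nat_lit 1) (nat_lit 0)) (.cons (.br (nat_lit 14) (nat_lit 0) (.cons (.ev (nat_lit 10405114432562943442101257874964481)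 (nat_lit 2)) (.cons (.rf (nat_lit 1) (nat_lit 582139040049345)) .nil))) .nil))) (.cons (.br (nat_lit 16) (nat_lit 0) (.cons (.ev (nat_lit 20362256750371268323602742772227) (nat_lit 2)) (.cons (.rf (nat_lit 1513) (nat_lit 19926519232773908561233952)) (.cons (.ev (nat_lit 2658476511663927681228396282721206273) (nat_lit 2)) (.cons (.br (nat_lit 16) (nat_lit 0) (.cons (.ev (nat_lit 20362256750371268323602742772227) (nat_lit 2)) (.cons (.rf (nat_lit 1513) (nat_lit 19926519232773908561233952)) (.cons (.ev (nat_lit 2658476511663927681228396282721206273) (nat_lit 2)) .nil)))) .nil))))) .nil))))) (.cons (.br (nat_lit 7) (nat_lit 0) (.cons (.br (nat_lit 14) (nat_lit 0) (.cons (.kr (nat_lit 5192297168019837521933159091929344) (nat_lit 1329227995786124798723703164431826944) (nat_lit 1) (nat_lit 0)) (.cons (.br (nat_lit 15) (nat_lit 0) (.cons (.ev (nat_lit 2668860947543642364349405944638210051) (nat_lit 2)) (.cons (.rf (nat_lit 1) (nat_lit 582168034225345)) .nil))) .nil))) (.cons (.br (nat_lit 10) (nat_lit 0) (.cons (.ev (nat_lit 31174461563385247342290512572841985)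 (nat_lit 3)) (.cons (.br (nat_lit 15) (nat_lit 0) (.cons (.ev (nat_lit 1339612827809084072048636397034209281) (nat_lit 2)) (.cons (.rf (nat_lit 1) (nat_lit 582172324998337)) .nil))) .nil))) (.cons (.rf (nat_lit 1514) (nat_lit 583706118939841765935136)) (.cons (.br (nat_lit 15) (nat_lit 0) (.cons (.br (nat_lit 14) (nat_lit 0) (.cons (.ev (nat_lit 5192376398609666749607590861209603) (nat_lit 2)) (.cons (.rf (nat_lit 1) (nat_lit 582139136519361)) .nil))) (.cons (.rf (nat_lit 1514) (nat_lit 49588531035042550659561)) (.cons (.ev (nat_lit 2658476511663927681228396282721206273) (nat_lit 2)) (.cons (.br (nat_lit 10) (nat_lit 0) (.cons (.rf (nat_lit 1) (nat_lit 582172422515905)) (.cons (.ev (nat_lit 20361640198203264862723642490883) (nat_lit 2)) (.cons (.br (nat_lit 14) (nat_lit 0) (.cons (.rf (nat_lit 246) (nat_lit 19533015757542642921825)) (.cons (.ev (nat_lit 10405114432562943442101257874964481) (nat_lit 2)) .nil))) .nil)))) .nil))))) .nil))))) (.cons (.kr (nat_lit 1099511627777) (nat_lit 281474976710912) (nat_lit 0) (nat_lit 2)) (.cons (.br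 (nat_lit 7) (nat_lit 0) (.cons (.ev (nat_lit 20361640188795425387339417911297) (nat_lit 2)) (.cons (.ev (nat_lit 20362256740963428848218518192641) (nat_lit 2)) (.cons (.ev (nat_lit 1334420292643460145481759752013873664) (nat_lit 2)) (.cons (.br (nat_lit 14) (nat_lit 0) (.cons (.ev (nat_lit 2668860946927090196345384314607763457) (nat_lit 2)) (.cons (.ev (nat_lit 2668860947543642364348845193708044801) (nat_lit 2)) (.cons (.ev (nat_lit 2668861422293656838564566714951140359) (nat_lit 3)) (.cons (.br (nat_lit 10) (nat_lit 0) (.cons (.kr (nat_lit 309485009821345068724781312) (nat_lit 1208925819614629174771712) (nat_lit 1) (nat_lit 0)) (.cons (.br (nat_lit 11) (nat_lit 0) (.cons (.ev (nat_lit 20520715502733206799330612477959) (nat_lit 3)) (.cons (.rf (nat_lit 258) (nat_lit 19524087371289970585953)) .nil))) (.cons (.br (nat_lit 11) (nat_lit 0) (.cons (.rf (nat_lit 258) (nat_lit 20677902849484149690721)) (.cons (.ev (nat_lit 5337701692532062461932802806001041415) (nat_lit 3)) .nil))) .nil)))) .nil))))) .nil))))) (.cons (.br (nat_lit 10) (nat_lit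 0) (.cons (.br (nat_lit 11) (nat_lit 0) (.cons (.ev (nat_lit 20362256750371267762851812605953) (nat_lit 2)) (.cons (.kr (nat_lit 2658455991572249597446844478421860353) (nat_lit 20361637770906747988488461746688) (nat_lit 0) (nat_lit 6)) (.cons (.ev (nat_lit 20362256750371268323602742772227) (nat_lit 2)) (.cons (.br (nat_lit 15) (nat_lit 0) (.cons (.rf (nat_lit 1) (nat_lit 582036190472417)) (.cons (.rf (nat_lit 585) (nat_lit 624757788533028137706987)) (.cons (.br (nat_lit 17) (nat_lit 0) (.cons (.ev (nat_lit 87113615180117669333385176611597420920833) (nat_lit 1)) (.cons (.ev (nat_lit 87113615180117669333385176894171909259520) (nat_lit 1)) .nil))) .nil)))) .nil))))) (.cons (.kr (nat_lit 309485009821345068724781312) (nat_lit 1208925819614629174771712) (nat_lit 1) (nat_lit 0)) (.cons (.br (nat_lit 11) (nat_lit 0) (.cons (.ev (nat_lit 20361640198203264301972712325633) (nat_lit 2)) (.cons (.kr (nat_lit 79228167236630820463189164288) (nat_lit 1329227995786124798723421689455116288) (nat_lit 1) (nat_lit 0)) (.cons (.br (nat_lit 7) (nat_lit 0)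 (.cons (.ev (nat_lit 2658476512285325034137332523806490625) (nat_lit 2)) (.cons (.ev (nat_lit 340287579579434769179304663813514657793) (nat_lit 1)) (.cons (.br (nat_lit 15) (nat_lit 0) (.cons (.ev (nat_lit 340287579579745458411025603244813451265) (nat_lit 1)) (.cons (.ev (nat_lit 2658476511663927681228396282721206273) (nat_lit 2)) .nil))) .nil)))) (.cons (.br (nat_lit 7) (nat_lit 0) (.cons (.rf (nat_lit 1) (nat_lit 582034982517985)) (.cons (.br (nat_lit 15) (nat_lit 0) (.cons (.ev (nat_lit 2658476511663927681228396282721206273) (nat_lit 2)) (.cons (.rf (nat_lit 425) (nat_lit 19534431196171125130442)) .nil))) (.cons (.br (nat_lit 15) (nat_lit 0) (.cons (.rf (nat_lit 394) (nat_lit 20668499475340002168879)) (.cons (.ev (nat_lit 2658476511663927681228396282721206273) (nat_lit 2)) .nil))) .nil)))) .nil))))) (.cons (.br (nat_lit 7) (nat_lit 0) (.cons (.kr (nat_lit 2658455992188801765450305357521879041) (nat_lit 20361637770906747988488461746176) (nat_lit 0) (nat_lit 1)) (.cons (.ev (nat_lit 7975388653262362424248031730293147137) (nat_lit 3))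 (.cons (.ev (nat_lit 7975388653262362424249153232153477637) (nat_lit 3)) (.cons (.br (nat_lit 11) (nat_lit 0) (.cons (.kr (nat_lit 79228167236630820463189164032) (nat_lit 1329227996094400882725152129005125632) (nat_lit 9) (nat_lit 0)) (.cons (.kr (nat_lit 1329227996094400882725153228516753409) (nat_lit 79228167236631101938165874944) (nat_lit 0) (nat_lit 2)) (.cons (.ev (nat_lit 2658476354447970025394901911314236929) (nat_lit 3)) .nil)))) .nil))))) (.cons (.br (nat_lit 11) (nat_lit 0) (.cons (.ev (nat_lit 20361640198203264862723642490883) (nat_lit 2)) (.cons (.br (nat_lit 7) (nat_lit 0) (.cons (.ev (nat_lit 2658476512285325034137332523806490625) (nat_lit 2)) (.cons (.ev (nat_lit 340287579579434769179304663813514657793) (nat_lit 1)) (.cons (.br (nat_lit 15) (nat_lit 0) (.cons (.ev (nat_lit 340287579579745458411025603244813451265) (nat_lit 1)) (.cons (.ev (nat_lit 2658476511663927681228396282721206273) (nat_lit 2)) .nil))) .nil)))) (.cons (.kr (nat_lit 1329227995786124798723422788966744065) (nat_lit 79228167236631101938165875200) (nat_lit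 0) (nat_lit 3)) (.cons (.br (nat_lit 7) (nat_lit 0) (.cons (.ev (nat_lit 340287579579434769179304663813514657793) (nat_lit 1)) (.cons (.ev (nat_lit 2658476512285325034136767374829814275) (nat_lit 2)) (.cons (.br (nat_lit 15) (nat_lit 0) (.cons (.ev (nat_lit 340287579579745458411025885819301789952) (nat_lit 1)) (.cons (.ev (nat_lit 2658476511663927681228396282721206273) (nat_lit 2)) .nil))) .nil)))) (.cons (.br (nat_lit 7) (nat_lit 0) (.cons (.br (nat_lit 15) (nat_lit 0) (.cons (.ev (nat_lit 2658476511663927681228957033651372547) (nat_lit 2)) (.cons (.rf (nat_lit 258) (nat_lit 19525276330661485154657)) .nil))) (.cons (.br (nat_lit 14) (nat_lit 0) (.cons (.ev (nat_lit 341616807495992726741397265039780479233) (nat_lit 1)) (.cons (.rf (nat_lit 295) (nat_lit 19525276330661485154347)) .nil))) (.cons (.br (nat_lit 14) (nat_lit 0) (.cons (.ev (nat_lit 2658476511663927681228957033651372547) (nat_lit 2)) (.cons (.rf (nat_lit 549) (nat_lit 19519302447591704465761)) .nil))) (.cons (.br (nat_lit 15) (nat_lit 0) (.cons (.rf (nat_lit 295) (nat_lit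 20662700265840203642310)) (.cons (.rf (nat_lit 1047) (nat_lit 20676869618408891682273)) (.cons (.ev (nat_lit 2658476511663927681228396282721206273) (nat_lit 2)) .nil)))) .nil))))) .nil)))))) (.cons (.br (nat_lit 7) (nat_lit 0) (.cons (.br (nat_lit 15) (nat_lit 0) (.cons (.rf (nat_lit 1) (nat_lit 582001830735073)) (.cons (.rf (nat_lit 585) (nat_lit 624757788568212509795818)) (.cons (.br (nat_lit 17) (nat_lit 0) (.cons (.ev (nat_lit 87113615180117669333385176611597420920833) (nat_lit 1)) (.cons (.ev (nat_lit 87113615180117669333385176894171909259520) (nat_lit 1)) .nil))) .nil)))) (.cons (.br (nat_lit 15) (nat_lit 0) (.cons (.ev (nat_lit 7975388653878914592251492609393164289) (nat_lit 3)) (.cons (.ev (nat_lit 2658476511663927681228957033651372547) (nat_lit 2)) (.cons (.rf (nat_lit 1423) (nat_lit 677432229820927581045791173)) .nil)))) (.cons (.br (nat_lit 11) (nat_lit 0) (.cons (.rf (nat_lit 1) (nat_lit 582000656334049)) (.cons (.br (nat_lit 14) (nat_lit 0) (.cons (.ev (nat_lit 341616807496301002825398995479330619393) (nat_lit 1)) (.cons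 (.rf (nat_lit 295) (nat_lit 20677902849484149690411)) .nil))) (.cons (.ev (nat_lit 2658476512285325034136767374829814275) (nat_lit 2)) .nil)))) (.cons (.br (nat_lit 15) (nat_lit 0) (.cons (.ev (nat_lit 7975388653878914592252614111253496837) (nat_lit 3)) (.cons (.ev (nat_lit 2658476511663927681228957033651372547) (nat_lit 2)) (.cons (.ev (nat_lit 2658476511663927681228396282721206273) (nat_lit 2)) (.cons (.br (nat_lit 17) (nat_lit 0) (.cons (.ev (nat_lit 87113615180117669333385176894171909259520) (nat_lit 1)) (.cons (.ev (nat_lit 87112285931839476022804869020772061937665) (nat_lit 1)) (.cons (.ev (nat_lit 87112285931839476022804868740396596855040) (nat_lit 1)) .nil)))) .nil))))) (.cons (.br (nat_lit 15) (nat_lit 0) (.cons (.ev (nat_lit 2658476353831417857391441032213693441) (nat_lit 3)) (.cons (.br (nat_lit 11) (nat_lit 0) (.cons (.rf (nat_lit 295) (nat_lit 20661587876733316838854)) (.cons (.ev (nat_lit 87113615159756342261154882809754525106433) (nat_lit 1)) .nil))) (.cons (.br (nat_lit 11) (nat_lit 0) (.cons (.rf (nat_lit 246) (nat_lit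 19524087371289970585953)) (.cons (.rf (nat_lit 696) (nat_lit 624623193998511759897639)) (.cons (.ev (nat_lit 87113615159756342261154883092329013444608) (nat_lit 1)) .nil)))) (.cons (.ev (nat_lit 2658476511663927681228396282721206273) (nat_lit 2)) .nil))))) .nil)))))) .nil))))))) .nil))))))),
 (.br (nat_lit 15) (nat_lit 0) (.cons (.ev (nat_lit 20521332045493371910725428315655) (nat_lit 3)) (.cons (.kr (nat_lit 2658455992188801765450305357521879041) (nat_lit 20361637770906747988488461746176) (nat_lit 0) (nat_lit 1)) (.cons (.rf (nat_lit 1515) (nat_lit 49588531035042550659561)) (.cons (.br (nat_lit 10) (nat_lit 0) (.cons (.br (nat_lit 14) (nat_lit 0) (.cons (.ev (nat_lit 1344805044819277421576399895392157697) (nat_lit 2)) (.cons (.rf (nat_lit 1) (nat_lit 616253968558145)) .nil))) (.cons (.ev (nat_lit 20520098959973042818233816581639) (nat_lit 3)) (.cons (.br (nat_lit 2) (nat_lit 0) (.cons (.ev (nat_lit 2663648527043736497622638141938598400) (nat_lit 2)) (.cons (.ev (nat_lit 1361129488205085899346869214535414448643) (nat_lit 3)) (.cons (.br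 (nat_lit 16) (nat_lit 0) (.cons (.ev (nat_lit 1334420293264852794470392048203595777) (nat_lit 2)) (.cons (.ev (nat_lit 1366446400503900291745722339973459608071) (nat_lit 3)) .nil))) .nil)))) (.cons (.br (nat_lit 2) (nat_lit 0) (.cons (.rf (nat_lit 1) (nat_lit 616253964367937)) (.cons (.br (nat_lit 14) (nat_lit 0) (.cons (.ev (nat_lit 681909538887312747108489035104760496129) (nat_lit 2)) (.cons (.br (nat_lit 16) (nat_lit 0) (.cons (.ev (nat_lit 1361150257708194748601080095550971577863) (nat_lit 3)) .nil)) .nil))) (.cons (.br (nat_lit 14) (nat_lit 0) (.cons (.rf (nat_lit 972) (nat_lit 20003284988941589695305965)) (.cons (.ev (nat_lit 348449143747561085546468641954281551823363) (nat_lit 3)) .nil))) .nil)))) .nil))))) .nil))))),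
 (.br (nat_lit 10) (nat_lit 0) (.cons (.kr (nat_lit 5192297168019837521933159091929344) (nat_lit 1329227995786124798723703164431826944) (nat_lit 1) (nat_lit 0)) (.cons (.br (nat_lit 14) (nat_lit 0) (.cons (.ev (nat_lit 1339612828117345970504173058688811267) (nat_lit 2)) (.cons (.rf (nat_lit 1) (nat_lit 582139173346369)) .nil))) .nil))),
 (.br (nat_lit 7) (nat_lit 0) (.cons (.ev (nat_lit 20521958259660091119997104030209) (nat_lit 3)) (.cons (.br (nat_lit 14) (nat_lit 0) (.cons (.ev (nat_lit 1344805044819277421576399895392157697) (nat_lit 2)) (.cons (.rf (nat_lit 1) (nat_lit 582139170203713)) .nil))) .nil))),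
 (.br (nat_lit 7) (nat_lit 0) (.cons (.ev (nat_lit 2663648526735460413620064368346595841) (nat_lit 2)) (.cons (.ev (nat_lit 20521332064309050861493877474819) (nat_lit 3)) (.cons (.br (nat_lit 14) (nat_lit 0) (.cons (.ev (nat_lit 20790025683689453398416804141859335) (nat_lit 3)) (.cons (.ev (nat_lit 5348086127169010736830711937917911045) (nat_lit 3)) .nil))) .nil)))),
 (.br (nat_lit 7) (nat_lit 0) (.cons (.ev (nat_lit 2663648526735460413620062177946829315) (nat_lit 2)) (.cons (.ev (nat_lit 5316932820146418928972128355694675459) (nat_lit 3)) (.cons (.br (nat_lit 16) (nat_lit 0) (.cons (.ev (nat_lit 20790025683689453398416804141859335) (nat_lit 3)) (.cons (.ev (nat_lit 1361129488205085899346869210154480697863) (nat_lit 3)) .nil))) .nil)))),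
 (.br (nat_lit 10) (nat_lit 0) (.cons (.ev (nat_lit 20521332064309050861493877474819) (nat_lit 3)) (.cons (.ev (nat_lit 1361150257709437524343645064640522618371) (nat_lit 3)) (.cons (.br (nat_lit 14) (nat_lit 0) (.cons (.ev (nat_lit 5316932820146418928972128355694675459) (nat_lit 3)) (.cons (.ev (nat_lit 1366467169374426616628383493711149925891) (nat_lit 3)) .nil))) .nil)))),
 (.br (nat_lit 10) (nat_lit 0) (.cons (.rf (nat_lit 1) (nat_lit 582172426837057)) (.cons (.br (nat_lit 14) (nat_lit 0) (.cons (.ev (nat_lit 1361129488203852813826542373877976138243) (nat_lit 3)) (.cons (.br (nat_lit 16) (nat_lit 0) (.cons (.zr (nat_lit 1361129569095809125795897140101763170309) (nat_lit 2668840667609928180786027229828088320) (nat_lit 16) (nat_lit 2)) .nil)) .nil))) (.cons (.br (nat_lit 14) (nat_lit 0) (.cons (.br (nat_lit 16) (nat_lit 0) (.cons (.ev (nat_lit 2740940840621542352957580330949551456773) (nat_lit 4)) .nil)) (.cons (.ev (nat_lit 348449164517065427481243179680369706534403) (nat_lit 3)) .nil))) .nil)))),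
 (.br (nat_lit 7) (nat_lit 0) (.cons (.rf (nat_lit 1) (nat_lit 582172326176833)) (.cons (.ev (nat_lit 20521332064309050861493877474819) (nat_lit 3)) (.cons (.br (nat_lit 14) (nat_lit 0) (.cons (.ev (nat_lit 20790025683689453398416804141859335) (nat_lit 3)) (.cons (.ev (nat_lit 348449143747561085527652962994682649903623) (nat_lit 3)) .nil))) .nil)))),
 (.br (nat_lit 7) (nat_lit 0) (.cons (.rf (nat_lit 1) (nat_lit 582168031213633)) (.cons (.br (nat_lit 16) (nat_lit 0) (.cons (.ev (nat_lit 20790025683689453398416804141859335) (nat_lit 3)) (.cons (.ev (nat_lit 1366467169375659702148710334402813756931) (nat_lit 3)) .nil))) (.cons (.ev (nat_lit 5316932820146418928972128355694675459) (nat_lit 3)) .nil)))),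
 (.br (nat_lit 7) (nat_lit 0) (.cons (.ev (nat_lit 20521332064309050861493877474819) (nat_lit 3)) (.cons (.rf (nat_lit 1523) (nat_lit 639949438823668387155025091)) (.cons (.br (nat_lit 10) (nat_lit 0) (.cons (.ev (nat_lit 1361150257708194767564333007739549910531) (nat_lit 3)) (.cons (.br (nat_lit 14) (nat_lit 0) (.cons (.ev (nat_lit 683228382367990999469087921682281333248) (nat_lit 2)) .nil)) .nil))) (.cons (.br (nat_lit 10) (nat_lit 0) (.cons (.rf (nat_lit 1522) (nat_lit 677573748767286726345533476)) (.cons (.br (nat_lit 14) (nat_lit 0) (.cons (.ev (nat_lit 680569926218583803269660796021828157440) (nat_lit 2)) .nil)) (.cons (.br (nat_lit 14) (nat_lit 0) (.cons (.ev (nat_lit 2663648526735460413620063273146712576) (nat_lit 2)) .nil)) .nil)))) .nil)))))]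

theorem c91 : chkAll C T R L91 (nat_lit 1512) = true := by decide +kernel

theorem l91 : (nat_lit 1512) + L91.length = (nat_lit 1526) := by decide +kernel

/-- part of the certificates -/
def L92 : List Prf := [(.br (nat_lit 11) (nat_lit 0) (.cons (.rf (nat_lit 1515) (nat_lit 235126859043367167494504)) (.cons (.rf (nat_lit 1516) (nat_lit 583706118939841765935136)) (.cons (.rf (nat_lit 1515) (nat_lit 243312592793402660530540)) (.cons (.rf (nat_lit 1516) (nat_lit 575289783094388510074916)) (.cons (.br (nat_lit 2) (nat_lit 0) (.cons (.rf (nat_lit 1517) (nat_lit 583706118939841765935136)) (.cons (.rf (nat_lit 1518) (nat_lit 583706118939841765935136)) (.cons (.rf (nat_lit 1517) (nat_lit 235126859043367167494504)) (.cons (.br (nat_lit 7) (nat_lit 0) (.cons (.rf (nat_lit 1517) (nat_lit 243312592793402660530540)) (.cons (.rf (nat_lit 1518) (nat_lit 427680247529553735457987)) (.cons (.ev (nat_lit 1329228075941533472116808757098447107) (nat_lit 2)) (.cons (.br (nat_lit 10) (nat_lit 0) (.cons (.rf (nat_lit 1) (nat_lit 581898646796609)) (.cons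 (.br (nat_lit 16) (nat_lit 0) (.cons (.ev (nat_lit 680575118435907122591726709704858075394) (nat_lit 2)) (.cons (.ev (nat_lit 681893961917818460398866586561998357249) (nat_lit 2)) .nil))) (.cons (.ev (nat_lit 1329228075324990711952827660302811907) (nat_lit 2)) .nil)))) .nil))))) .nil))))) (.cons (.br (nat_lit 15) (nat_lit 0) (.cons (.rf (nat_lit 1516) (nat_lit 427680247529553735457987)) (.cons (.rf (nat_lit 1515) (nat_lit 40293685603539726245357)) (.cons (.rf (nat_lit 1516) (nat_lit 418387692176262407796933)) (.cons (.rf (nat_lit 1515) (nat_lit 49588531035042550659561)) (.cons (.br (nat_lit 2) (nat_lit 0) (.cons (.br (nat_lit 10) (nat_lit 0) (.cons (.ev (nat_lit 2663648526735460413620064368346595841) (nat_lit 2)) (.cons (.ev (nat_lit 1361129488205085899346869214535414448643) (nat_lit 3)) (.cons (.br (nat_lit 14) (nat_lit 0) (.cons (.ev (nat_lit 1366446400503900291745722344354393358851) (nat_lit 3)) (.cons (.ev (nat_lit 18640366242865186585020179534376471045) (nat_lit 4)) .nil))) .nil)))) (.cons (.rf (nat_lit 1519) (nat_lit 19926519232773908561233952))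 (.cons (.rf (nat_lit 1520) (nat_lit 19926519232773908561233952)) (.cons (.rf (nat_lit 1521) (nat_lit 19926519232773908561233952)) (.cons (.br (nat_lit 7) (nat_lit 0) (.cons (.rf (nat_lit 1520) (nat_lit 19770493361363620530756803)) (.cons (.rf (nat_lit 1519) (nat_lit 19770493361363620530756803)) (.cons (.rf (nat_lit 1521) (nat_lit 19770493361363620530756803)) (.cons (.br (nat_lit 10) (nat_lit 0) (.cons (.ev (nat_lit 18681905251549093765455800483543910915) (nat_lit 4)) (.cons (.ev (nat_lit 1366446400503900291745722339973459608071) (nat_lit 3)) (.cons (.br (nat_lit 14) (nat_lit 0) (.cons (.ev (nat_lit 1361129488205085899346869210154480697863) (nat_lit 3)) .nil)) .nil)))) .nil))))) .nil)))))) (.cons (.br (nat_lit 2) (nat_lit 0) (.cons (.rf (nat_lit 1522) (nat_lit 677582165103132179601393696)) (.cons (.rf (nat_lit 1523) (nat_lit 677582165103132179601393696)) (.cons (.rf (nat_lit 1524) (nat_lit 677582165103132179601393696)) (.cons (.rf (nat_lit 1525) (nat_lit 677582165103132179601393696)) (.cons (.br (nat_lit 7) (nat_lit 0) (.cons (.rf (nat_lit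 1524) (nat_lit 639949438823668387155025091)) (.cons (.ev (nat_lit 5316932820146418928972128355694675459) (nat_lit 3)) (.cons (.br (nat_lit 10) (nat_lit 0) (.cons (.rf (nat_lit 1522) (nat_lit 677573748767286726345533476)) (.cons (.rf (nat_lit 1525) (nat_lit 677573748767286726345533476)) (.cons (.br (nat_lit 14) (nat_lit 0) (.cons (.ev (nat_lit 680569926218583803269660793831428390914) (nat_lit 2)) .nil)) .nil)))) (.cons (.rf (nat_lit 1525) (nat_lit 639949438823668387155025091)) .nil))))) .nil)))))) .nil))))))) .nil))))))),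
 (.br (nat_lit 10) (nat_lit 0) (.cons (.ev (nat_lit 20789711877988161457646904724029959) (nat_lit 4)) (.cons (.br (nat_lit 14) (nat_lit 0) (.cons (.ev (nat_lit 10405114432562943442101257874964481) (nat_lit 2)) (.cons (.rf (nat_lit 1) (nat_lit 582134710647873)) .nil))) .nil))),
 (.br (nat_lit 10) (nat_lit 0) (.cons (.ev (nat_lit 341611594917034077994358197228136300545) (nat_lit 1)) (.cons (.rf (nat_lit 679) (nat_lit 661175268717659443930603)) .nil))),
 (.br (nat_lit 6) (nat_lit 0) (.cons (.kr (nat_lit 20282409603670117169124784209921) (nat_lit 79228167236631383413142585856) (nat_lit 0) (nat_lit 2)) (.cons (.kr (nat_lit 281474976710912) (nat_lit 4311744512) (nat_lit 1) (nat_lit 0)) (.cons (.br (nat_lit 2) (nat_lit 0) (.cons (.ev (nat_lit 20520715512141046274732050481159) (nat_lit 3)) (.cons (.br (nat_lit 10) (nat_lit 0) (.cons (.ev (nat_lit 62328719328772485355298282035875331) (nat_lit 4)) (.cons (.br (nat_lit 15) (nat_lit 0) (.cons (.ev (nat_lit 2658476512285315552510878637063405571) (nat_lit 2)) (.cons (.rf (nat_lit 1) (nat_lit 582169070385217))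 .nil))) .nil))) (.cons (.rf (nat_lit 1527) (nat_lit 583706118939841765935136)) (.cons (.br (nat_lit 15) (nat_lit 0) (.cons (.rf (nat_lit 1527) (nat_lit 40293685603539726245357)) (.cons (.rf (nat_lit 1515) (nat_lit 49588531035042550659561)) (.cons (.ev (nat_lit 2658476511663927681228396282721206273) (nat_lit 2)) (.cons (.br (nat_lit 10) (nat_lit 0) (.cons (.rf (nat_lit 1) (nat_lit 582172417436865)) (.cons (.ev (nat_lit 20362569862158548794029673349122) (nat_lit 2)) (.cons (.ev (nat_lit 2658476512285315552510878637063405571) (nat_lit 2)) .nil)))) .nil))))) .nil))))) (.cons (.rf (nat_lit 1515) (nat_lit 418387692176262407796933)) (.cons (.br (nat_lit 2) (nat_lit 0) (.cons (.br (nat_lit 11) (nat_lit 0) (.cons (.ev (nat_lit 20362256750371267762851812605953) (nat_lit 2)) (.cons (.br (nat_lit 14) (nat_lit 0) (.cons (.ev (nat_lit 10404957211769510831960994399650819) (nat_lit 3)) (.cons (.rf (nat_lit 1) (nat_lit 582139006658625)) .nil))) .nil))) (.cons (.ev (nat_lit 20362256740963428848218518192641) (nat_lit 2)) (.cons (.ev (nat_lit 10405113811165590534290916730077187)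 (nat_lit 2)) (.cons (.br (nat_lit 10) (nat_lit 0) (.cons (.ev (nat_lit 2658476512285315552510315678553604611) (nat_lit 2)) (.cons (.ev (nat_lit 2668860946927090196345384314607763457) (nat_lit 2)) (.cons (.br (nat_lit 11) (nat_lit 0) (.cons (.ev (nat_lit 2658476354447970025395460471811080199) (nat_lit 3)) (.cons (.ev (nat_lit 1363787944038201842842147923855097070599) (nat_lit 3)) (.cons (.br (nat_lit 14) (nat_lit 0) (.cons (.ev (nat_lit 1363808713541310692096358809285880578051) (nat_lit 3)) (.cons (.ev (nat_lit 1334420293573119396845952279339270656) (nat_lit 2)) .nil))) .nil)))) (.cons (.br (nat_lit 11) (nat_lit 0) (.cons (.rf (nat_lit 1) (nat_lit 582000652303553)) (.cons (.br (nat_lit 14) (nat_lit 0) (.cons (.ev (nat_lit 1361139872640965604548652561454749450243) (nat_lit 3)) (.cons (.ev (nat_lit 1344865971584512789306701563136508417) (nat_lit 2)) .nil))) (.cons (.br (nat_lit 14) (nat_lit 0) (.cons (.ev (nat_lit 1334420293573119396845952279339270656) (nat_lit 2)) (.cons (.ev (nat_lit 348454471044298255486368915076778395959303) (nat_lit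 3)) .nil))) .nil)))) .nil))))) .nil))))) (.cons (.br (nat_lit 11) (nat_lit 0) (.cons (.rf (nat_lit 1515) (nat_lit 235126859043367167494504)) (.cons (.rf (nat_lit 1515) (nat_lit 243312592793402660530540)) (.cons (.br (nat_lit 2) (nat_lit 0) (.cons (.ev (nat_lit 20362256750371267762851812605953) (nat_lit 2)) (.cons (.kr (nat_lit 20361637770906747989583661629441) (nat_lit 2658455992188801765450304262321995776) (nat_lit 0) (nat_lit 1)) (.cons (.ev (nat_lit 20362256750371268325810389516801) (nat_lit 2)) (.cons (.br (nat_lit 15) (nat_lit 0) (.cons (.kr (nat_lit 79228167236630820463189164032) (nat_lit 1329227996094400882725152129005125632) (nat_lit 9) (nat_lit 0)) (.cons (.kr (nat_lit 79228167236631101938165874944) (nat_lit 1329227996094400882725152133316870144) (nat_lit 1) (nat_lit 0)) (.cons (.ev (nat_lit 2658476511663927681228396282721206273) (nat_lit 2)) .nil)))) .nil))))) (.cons (.rf (nat_lit 1526) (nat_lit 235126859043367167494504)) (.cons (.br (nat_lit 14) (nat_lit 0) (.cons (.ev (nat_lit 20362256750371268325810389516801) (nat_lit 2))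 (.cons (.br (nat_lit 2) (nat_lit 0) (.cons (.ev (nat_lit 2668860947543651772188885726942855171) (nat_lit 2)) (.cons (.ev (nat_lit 340282387203349280781750212024858574848) (nat_lit 1)) (.cons (.br (nat_lit 15) (nat_lit 0) (.cons (.ev (nat_lit 340287579579745458411025603244813451265) (nat_lit 1)) (.cons (.ev (nat_lit 2658476511663927681228396282721206273) (nat_lit 2)) .nil))) .nil)))) (.cons (.kr (nat_lit 79228167236631101938165874944) (nat_lit 1329227996094400882725152133316870144) (nat_lit 1) (nat_lit 0)) (.cons (.br (nat_lit 2) (nat_lit 0) (.cons (.ev (nat_lit 340282387203349280781750212024858574848) (nat_lit 1)) (.cons (.ev (nat_lit 2668860947543651772188322785545814531) (nat_lit 2)) (.cons (.br (nat_lit 15) (nat_lit 0) (.cons (.ev (nat_lit 340287579579745458411025884715478417665) (nat_lit 1)) (.cons (.ev (nat_lit 2658476511663927681228396282721206273) (nat_lit 2)) .nil))) .nil)))) (.cons (.br (nat_lit 2) (nat_lit 0) (.cons (.br (nat_lit 15) (nat_lit 0) (.cons (.ev (nat_lit 2658476511663927681228959241298117121) (nat_lit 2)) (.cons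 (.rf (nat_lit 1500) (nat_lit 677241771576985740495989100)) .nil))) (.cons (.rf (nat_lit 1528) (nat_lit 677582165103132179601393696)) (.cons (.br (nat_lit 15) (nat_lit 0) (.cons (.ev (nat_lit 2658476511663927681228959241298117121) (nat_lit 2)) (.cons (.rf (nat_lit 688) (nat_lit 661516533166644765625579)) .nil))) (.cons (.br (nat_lit 15) (nat_lit 0) (.cons (.rf (nat_lit 679) (nat_lit 661697725827622139920422)) (.cons (.rf (nat_lit 502) (nat_lit 19523757774363717577762)) (.cons (.ev (nat_lit 2658476511663927681228396282721206273) (nat_lit 2)) .nil)))) .nil))))) .nil)))))) (.cons (.br (nat_lit 14) (nat_lit 0) (.cons (.br (nat_lit 15) (nat_lit 0) (.cons (.rf (nat_lit 1) (nat_lit 582036056422465)) (.cons (.rf (nat_lit 664) (nat_lit 625098083763615069306955)) (.cons (.br (nat_lit 10) (nat_lit 0) (.cons (.rf (nat_lit 394) (nat_lit 19528450546779191190575)) (.cons (.ev (nat_lit 87113615180117669333385176611597420920833) (nat_lit 1)) .nil))) .nil)))) (.cons (.br (nat_lit 2) (nat_lit 0) (.cons (.rf (nat_lit 1) (nat_lit 582034982681665)) (.cons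 (.br (nat_lit 15) (nat_lit 0) (.cons (.ev (nat_lit 2658476511663927681228396282721206273) (nat_lit 2)) (.cons (.rf (nat_lit 394) (nat_lit 20673548981357660048710)) .nil))) (.cons (.br (nat_lit 17) (nat_lit 0) (.cons (.ev (nat_lit 2658476511663927681228396282721206273) (nat_lit 2)) (.cons (.ev (nat_lit 87112291144418742952339829558914425356288) (nat_lit 1)) .nil))) .nil)))) (.cons (.rf (nat_lit 1515) (nat_lit 49588531035042550659561)) (.cons (.br (nat_lit 2) (nat_lit 0) (.cons (.br (nat_lit 15) (nat_lit 0) (.cons (.ev (nat_lit 2658476511663927681228959241298117121) (nat_lit 2)) (.cons (.rf (nat_lit 1474) (nat_lit 21174442659471745632798752)) .nil))) (.cons (.br (nat_lit 10) (nat_lit 0) (.cons (.ev (nat_lit 341616807495992726741397265039780479233) (nat_lit 1)) (.cons (.rf (nat_lit 1475) (nat_lit 21174442659471745632798752)) .nil))) (.cons (.br (nat_lit 10) (nat_lit 0) (.cons (.ev (nat_lit 2658476511663927681228959241298117121) (nat_lit 2)) (.cons (.br (nat_lit 15) (nat_lit 0) (.cons (.ev (nat_lit 341616787292811290344804125253962825728)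 (nat_lit 1)) .nil)) .nil))) (.cons (.br (nat_lit 17) (nat_lit 0) (.cons (.ev (nat_lit 87112291144418742952339829558914425356288) (nat_lit 1)) (.cons (.ev (nat_lit 2658476511663927681228396282721206273) (nat_lit 2)) (.cons (.ev (nat_lit 87112291144418742952339829277443726835968) (nat_lit 1)) .nil)))) .nil))))) (.cons (.br (nat_lit 2) (nat_lit 0) (.cons (.br (nat_lit 15) (nat_lit 0) (.cons (.ev (nat_lit 2658476511663927681228959241298117121) (nat_lit 2)) (.cons (.ev (nat_lit 87113615180117669333385176611597420920833) (nat_lit 1)) .nil))) (.cons (.ev (nat_lit 2668860947543651772188322785545814531) (nat_lit 2)) (.cons (.br (nat_lit 15) (nat_lit 0) (.cons (.ev (nat_lit 2658476511663927681228959241298117121) (nat_lit 2)) (.cons (.ev (nat_lit 2658476511663927681228396282721206273) (nat_lit 2)) (.cons (.ev (nat_lit 87113615180117669333385176893076709376257) (nat_lit 1)) .nil)))) (.cons (.br (nat_lit 15) (nat_lit 0) (.cons (.ev (nat_lit 87113620352132427749589330750794423664897) (nat_lit 1)) (.cons (.ev (nat_lit 87113620352132427749589331032273678565377)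 (nat_lit 1)) .nil))) .nil))))) .nil)))))) .nil))))))) .nil))))))),
 (.br (nat_lit 15) (nat_lit 0) (.cons (.ev (nat_lit 341611615278671844160292958768931536897) (nat_lit 1)) (.cons (.rf (nat_lit 1358) (nat_lit 19993691497721856770979881)) .nil))),
 (.br (nat_lit 7) (nat_lit 0) (.cons (.ev (nat_lit 1361129488204469365994545271815713194501) (nat_lit 3)) (.cons (.ev (nat_lit 5316932822005765802790646975788615173) (nat_lit 3)) (.cons (.br (nat_lit 14) (nat_lit 0) (.cons (.ev (nat_lit 5337701691289314942886831623860781569) (nat_lit 3)) (.cons (.ev (nat_lit 680569926217967251101657898101271232514) (nat_lit 2)) .nil))) .nil)))),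
 (.br (nat_lit 14) (nat_lit 0) (.cons (.ev (nat_lit 1361160642144074482173954149963673110021) (nat_lit 3)) (.cons (.ev (nat_lit 1344805045127539320031936557080576257) (nat_lit 2)) .nil))),
 (.br (nat_lit 15) (nat_lit 0) (.cons (.rf (nat_lit 1515) (nat_lit 40293685603539726245357)) (.cons (.rf (nat_lit 1515) (nat_lit 49588531035042550659561)) (.cons (.br (nat_lit 7) (nat_lit 0) (.cons (.ev (nat_lit 341611615278361150224651997975798677760) (nat_lit 1)) (.cons (.br (nat_lit 14) (nat_lit 0) (.cons (.ev (nat_lit 1366456784939780006355344612495536162309) (nat_lit 3)) .nil)) .nil))) (.cons (.br (nat_lit 7) (nat_lit 0) (.cons (.rf (nat_lit 258) (nat_lit 19533351596909437059393)) (.cons (.ev (nat_lit 341611594917034077994357915757437780225) (nat_lit 1)) (.cons (.ev (nat_lit 87112285931839784298888870752306811961600) (nat_lit 1)) .nil)))) .nil))))),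
 (.br (nat_lit 2) (nat_lit 0) (.cons (.rf (nat_lit 1529) (nat_lit 427680247529553735457987)) (.cons (.ev (nat_lit 20362256750371267760661412839427) (nat_lit 2)) (.cons (.br (nat_lit 7) (nat_lit 0) (.cons (.ev (nat_lit 158767018964314313031606796544) (nat_lit 2)) (.cons (.ev (nat_lit 20361640198203264301972712325633) (nat_lit 2)) (.cons (.ev (nat_lit 2658455991882943570125406412304613634) (nat_lit 2)) (.cons (.br (nat_lit 14) (nat_lit 0) (.cons (.ev (nat_lit 10384594030181479431301046279930114) (nat_lit 2)) (.cons (.ev (nat_lit 2668840744053920365234310006796648704) (nat_lit 2)) (.cons (.ev (nat_lit 31174460320628320455715855800731137) (nat_lit 3)) (.cons (.br (nat_lit 6) (nat_lit 0) (.cons (.rf (nat_lit 1) (nat_lit 582139002595393)) (.cons (.rf (nat_lit 1530) (nat_lit 677582165103132179601393696)) (.cons (.rf (nat_lit 1530) (nat_lit 640097048359233221929642020)) .nil)))) .nil))))) .nil))))) (.cons (.ev (nat_lit 10405113811175072160179654462931457) (nat_lit 2)) (.cons (.rf (nat_lit 1529) (nat_lit 49588531035042550659561)) (.cons (.br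 (nat_lit 10) (nat_lit 0) (.cons (.rf (nat_lit 1529) (nat_lit 418387692176262407796933)) (.cons (.ev (nat_lit 20361640198203264299782312559107) (nat_lit 2)) (.cons (.ev (nat_lit 10405114432562943442099050261774337) (nat_lit 2)) (.cons (.rf (nat_lit 1529) (nat_lit 40293685603539726245357)) (.cons (.br (nat_lit 6) (nat_lit 0) (.cons (.ev (nat_lit 20520715512141046837673481077249) (nat_lit 3)) (.cons (.ev (nat_lit 20790026300241621402436243739248133) (nat_lit 3)) (.cons (.br (nat_lit 7) (nat_lit 0) (.cons (.ev (nat_lit 2658476354447988988649498543183496195) (nat_lit 3)) (.cons (.ev (nat_lit 1363787944038201842842147923855097070599) (nat_lit 3)) (.cons (.br (nat_lit 14) (nat_lit 0) (.cons (.ev (nat_lit 1363808713541310692096358809285880578051) (nat_lit 3)) (.cons (.ev (nat_lit 1344805045127539320031936557080576257) (nat_lit 2)) .nil))) .nil)))) (.cons (.rf (nat_lit 1531) (nat_lit 19926519232773908561233952)) (.cons (.br (nat_lit 15) (nat_lit 0) (.cons (.ev (nat_lit 5316932822005765802790646975788615173) (nat_lit 3)) (.cons (.ev (nat_lit 5337701691289314942886831623860781569)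 (nat_lit 3)) (.cons (.rf (nat_lit 1531) (nat_lit 19577939972877433962793320)) (.cons (.br (nat_lit 7) (nat_lit 0) (.cons (.ev (nat_lit 5316932820772642503531943326828856837) (nat_lit 3)) (.cons (.ev (nat_lit 1366446400504526496357030377469195191809) (nat_lit 3)) (.cons (.ev (nat_lit 348449143747561702079820964771118526629381) (nat_lit 3)) .nil)))) .nil))))) .nil)))))) (.cons (.br (nat_lit 6) (nat_lit 0) (.cons (.rf (nat_lit 1515) (nat_lit 427680247529553735457987)) (.cons (.rf (nat_lit 1515) (nat_lit 418387692176262407796933)) (.cons (.br (nat_lit 7) (nat_lit 0) (.cons (.rf (nat_lit 1) (nat_lit 582000518216897)) (.cons (.rf (nat_lit 1532) (nat_lit 677582165103132179601393696)) (.cons (.rf (nat_lit 1532) (nat_lit 639765071168932236080097644)) .nil)))) (.cons (.rf (nat_lit 1533) (nat_lit 677582165103132179601393696)) (.cons (.rf (nat_lit 1533) (nat_lit 640097048359233221929642020)) .nil)))))) .nil))))))) .nil))))))),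
 (.br (nat_lit 10) (nat_lit 0) (.cons (.kr (nat_lit 5192297168019837521933159091929344) (nat_lit 1329227995786124798723703164431826944) (nat_lit 1) (nat_lit 0)) (.cons (.br (nat_lit 14) (nat_lit 0) (.cons (.ev (nat_lit 10405114432562943442101257874964481) (nat_lit 2)) (.cons (.rf (nat_lit 1) (nat_lit 582134710901825)) .nil))) .nil)))]

theorem c92 : chkAll C T R L92 (nat_lit 1526) = true := by decide +kernel

theorem l92 : (nat_lit 1526) + L92.length = (nat_lit 1536) := by decide +kernel

/-- part of the certificates -/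
def L93 : List Prf := [(.br (nat_lit 7) (nat_lit 0) (.cons (.ev (nat_lit 10404957211750695153575357713745415) (nat_lit 3)) (.cons (.br (nat_lit 14) (nat_lit 0) (.cons (.ev (nat_lit 5192376398614370669626762261954818) (nat_lit 2)) (.cons (.rf (nat_lit 1) (nat_lit 582134707759169)) .nil))) .nil))),
 (.br (nat_lit 10) (nat_lit 0) (.cons (.ev (nat_lit 5192376706885750751618405893341697) (nat_lit 2)) (.cons (.ev (nat_lit 341611594917034077994358197228136300545) (nat_lit 1)) (.cons (.br (nat_lit 14) (nat_lit 0) (.cons (.ev (nat_lit 341616807496301002825398995479330619393) (nat_lit 1)) (.cons (.ev (nat_lit 2668860946927090196345382106994573313) (nat_lit 2)) .nil))) .nil)))),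
 (.br (nat_lit 7) (nat_lit 0) (.cons (.ev (nat_lit 5192376706885750751620613472977411) (nat_lit 2)) (.cons (.ev (nat_lit 7975388653262362424249153232153477637) (nat_lit 3)) (.cons (.br (nat_lit 14) (nat_lit 0) (.cons (.ev (nat_lit 2679245857556838242859820998310888965) (nat_lit 3)) (.cons (.ev (nat_lit 10404956595207934989587689517745157) (nat_lit 3)) .nil))) .nil)))),
 (.br (nat_lit 7) (nat_lit 0) (.cons (.ev (nat_lit 340282367000476115728345857205934817537) (nat_lit 1)) (.cons (.ev (nat_lit 7985773089758629201873191203680551427) (nat_lit 3)) (.cons (.br (nat_lit 10) (nat_lit 0) (.cons (.ev (nat_lit 341616807496301002825398996583153991680) (nat_lit 1)) (.cons (.ev (nat_lit 20361640188795424824380841001473) (nat_lit 2)) .nil))) .nil)))),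
 (.br (nat_lit 10) (nat_lit 0) (.cons (.rf (nat_lit 1) (nat_lit 582034982935617)) (.cons (.br (nat_lit 14) (nat_lit 0) (.cons (.ev (nat_lit 2668860946927090196345382106994573313) (nat_lit 2)) (.cons (.rf (nat_lit 394) (nat_lit 20677040544194724462634)) .nil))) (.cons (.br (nat_lit 17) (nat_lit 0) (.cons (.ev (nat_lit 2668860946927090196345382106994573313) (nat_lit 2)) (.cons (.ev (nat_lit 87112285931839476018064055793828707172353) (nat_lit 1)) .nil))) .nil)))),
 (.br (nat_lit 7) (nat_lit 0) (.cons (.rf (nat_lit 1) (nat_lit 582034882275393)) (.cons (.ev (nat_lit 7975388653262362424249153232153477637) (nat_lit 3)) (.cons (.br (nat_lit 14) (nat_lit 0) (.cons (.ev (nat_lit 2679245857556838242859820998310888965) (nat_lit 3)) (.cons (.ev (nat_lit 348449174901501933438390614108279746461701) (nat_lit 3)) .nil))) .nil)))),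
 (.br (nat_lit 6) (nat_lit 0) (.cons (.rf (nat_lit 1529) (nat_lit 427680247529553735457987)) (.cons (.rf (nat_lit 1515) (nat_lit 427680247529553735457987)) (.cons (.rf (nat_lit 1529) (nat_lit 418387692176262407796933)) (.cons (.br (nat_lit 2) (nat_lit 0) (.cons (.rf (nat_lit 1535) (nat_lit 583706118939841765935136)) (.cons (.rf (nat_lit 1536) (nat_lit 583706118939841765935136)) (.cons (.rf (nat_lit 1535) (nat_lit 235126859043367167494504)) (.cons (.br (nat_lit 7) (nat_lit 0) (.cons (.rf (nat_lit 1535) (nat_lit 243312592793402660530540)) (.cons (.rf (nat_lit 1536) (nat_lit 427680247529553735457987)) (.cons (.ev (nat_lit 20362256750371267760661379284993) (nat_lit 2)) (.cons (.br (nat_lit 10) (nat_lit 0) (.cons (.rf (nat_lit 1) (nat_lit 581897539792065)) (.cons (.br (nat_lit 14) (nat_lit 0) (.cons (.ev (nat_lit 10405113811175072160744803439607811) (nat_lit 2)) (.cons (.rf (nat_lit 246) (nat_lit 20677049729479429390374)) .nil))) (.cons (.ev (nat_lit 20361640198203264862723642490883) (nat_lit 2)) .nil)))) .nil))))) .nil))))) (.cons (.rf (nat_lit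 1515) (nat_lit 418387692176262407796933)) (.cons (.br (nat_lit 11) (nat_lit 0) (.cons (.rf (nat_lit 1515) (nat_lit 235126859043367167494504)) (.cons (.rf (nat_lit 1529) (nat_lit 243312592793402660530540)) (.cons (.rf (nat_lit 1515) (nat_lit 243312592793402660530540)) (.cons (.rf (nat_lit 1529) (nat_lit 235126859043367167494504)) (.cons (.br (nat_lit 2) (nat_lit 0) (.cons (.rf (nat_lit 1537) (nat_lit 19926519232773908561233952)) (.cons (.rf (nat_lit 1538) (nat_lit 19926519232773908561233952)) (.cons (.rf (nat_lit 1537) (nat_lit 19392401644869109345958377)) (.cons (.rf (nat_lit 1539) (nat_lit 19926519232773908561233952)) (.cons (.br (nat_lit 7) (nat_lit 0) (.cons (.rf (nat_lit 1537) (nat_lit 19383106799437606521544173)) (.cons (.rf (nat_lit 1538) (nat_lit 19392401644869109345958377)) (.cons (.rf (nat_lit 1539) (nat_lit 19383106799437606521544173)) (.cons (.ev (nat_lit 2658476511663927681228396282721206273) (nat_lit 2)) .nil))))) .nil)))))) (.cons (.br (nat_lit 2) (nat_lit 0) (.cons (.rf (nat_lit 1540) (nat_lit 677582165103132179601393696))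 (.cons (.rf (nat_lit 1541) (nat_lit 677582165103132179601393696)) (.cons (.rf (nat_lit 1540) (nat_lit 639571347107173875970226665)) (.cons (.br (nat_lit 7) (nat_lit 0) (.cons (.rf (nat_lit 1540) (nat_lit 639562052261742373145812461)) (.cons (.rf (nat_lit 1541) (nat_lit 639571347107173875970226665)) (.cons (.ev (nat_lit 2658476511663927681228396282721206273) (nat_lit 2)) (.cons (.br (nat_lit 10) (nat_lit 0) (.cons (.rf (nat_lit 394) (nat_lit 20668967849701248700450)) (.cons (.ev (nat_lit 340282367000476110987532347688091713536) (nat_lit 1)) (.cons (.ev (nat_lit 20361640188795424824380841001473) (nat_lit 2)) .nil)))) .nil))))) (.cons (.br (nat_lit 7) (nat_lit 0) (.cons (.rf (nat_lit 1540) (nat_lit 639562052261742373145812461)) (.cons (.ev (nat_lit 7985773089758629201873191203680551427) (nat_lit 3)) (.cons (.br (nat_lit 10) (nat_lit 0) (.cons (.rf (nat_lit 1540) (nat_lit 677573748767286726345533476)) (.cons (.ev (nat_lit 20361640188795424824380841001473) (nat_lit 2)) (.cons (.ev (nat_lit 87112285931839476018064055793828707172353) (nat_lit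 1)) .nil)))) (.cons (.ev (nat_lit 2658476511663927681228396282721206273) (nat_lit 2)) .nil))))) .nil)))))) .nil))))))) .nil))))))),
 (.br (nat_lit 15) (nat_lit 0) (.cons (.rf (nat_lit 1529) (nat_lit 49588531035042550659561)) (.cons (.rf (nat_lit 1515) (nat_lit 40293685603539726245357)) (.cons (.rf (nat_lit 1529) (nat_lit 40293685603539726245357)) (.cons (.rf (nat_lit 1515) (nat_lit 49588531035042550659561)) (.cons (.br (nat_lit 2) (nat_lit 0) (.cons (.br (nat_lit 10) (nat_lit 0) (.cons (.ev (nat_lit 340282367000167834903530899823029911553) (nat_lit 1)) (.cons (.br (nat_lit 14) (nat_lit 0) (.cons (.ev (nat_lit 1366477553809689760254321656931033416193) (nat_lit 3)) .nil)) .nil))) (.cons (.br (nat_lit 7) (nat_lit 0) (.cons (.ev (nat_lit 340282367000167834903530899823029911553) (nat_lit 1)) (.cons (.br (nat_lit 14) (nat_lit 0) (.cons (.ev (nat_lit 1361160642144700705748515649378098217989) (nat_lit 3)) .nil)) .nil))) (.cons (.ev (nat_lit 340287579579434769179304664917338030080) (nat_lit 1)) (.cons (.br (nat_lit 7) (nat_lit 0) (.cons (.ev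 (nat_lit 340282387203349280781750213120092012545) (nat_lit 1)) (.cons (.br (nat_lit 10) (nat_lit 0) (.cons (.ev (nat_lit 1361160642144700705748515647187698451459) (nat_lit 3)) .nil)) (.cons (.ev (nat_lit 523356938800758421347826797496242509447175) (nat_lit 3)) .nil)))) .nil))))) .nil)))))),
 (.br (nat_lit 10) (nat_lit 0) (.cons (.br (nat_lit 16) (nat_lit 0) (.cons (.ev (nat_lit 685886838677099714365177324614499632129) (nat_lit 3)) .nil)) (.cons (.br (nat_lit 14) (nat_lit 0) (.cons (.ev (nat_lit 2746205830745312761186384871194069045763) (nat_lit 5)) .nil)) (.cons (.br (nat_lit 14) (nat_lit 0) (.cons (.ev (nat_lit 2746247368491297828296890047940069167627) (nat_lit 5)) .nil)) .nil)))),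
 (.br (nat_lit 14) (nat_lit 0) (.cons (.zr (nat_lit 87452573490978044853840795157108902396672) (nat_lit 1329227996094400882725154336651870210) (nat_lit 8) (nat_lit 16)) .nil)),
 (.br (nat_lit 7) (nat_lit 0) (.cons (.br (nat_lit 16) (nat_lit 0) (.cons (.ev (nat_lit 680569926378285321966324192605120955399) (nat_lit 3)) .nil)) (.cons (.rf (nat_lit 1545) (nat_lit 677582165103132179601393696)) (.cons (.rf (nat_lit 1545) (nat_lit 639765071168932236080097644)) .nil)))),
 (.br (nat_lit 7) (nat_lit 0) (.cons (.rf (nat_lit 1544) (nat_lit 639765071168932236080097644)) (.cons (.rf (nat_lit 1545) (nat_lit 677426139231721891570916547)) (.cons (.br (nat_lit 10) (nat_lit 0) (.cons (.ev (nat_lit 2756839654080242630355141789565754022415) (nat_lit 5)) .nil)) .nil)))),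
 (.br (nat_lit 11) (nat_lit 0) (.cons (.rf (nat_lit 1515) (nat_lit 235126859043367167494504)) (.cons (.rf (nat_lit 1529) (nat_lit 243312592793402660530540)) (.cons (.rf (nat_lit 1515) (nat_lit 243312592793402660530540)) (.cons (.rf (nat_lit 1529) (nat_lit 235126859043367167494504)) (.cons (.rf (nat_lit 1526) (nat_lit 235126859043367167494504)) (.cons (.rf (nat_lit 1543) (nat_lit 19926519232773908561233952)) (.cons (.br (nat_lit 15) (nat_lit 0) (.cons (.rf (nat_lit 1529) (nat_lit 49588531035042550659561)) (.cons (.rf (nat_lit 1515) (nat_lit 40293685603539726245357)) (.cons (.rf (nat_lit 1529) (nat_lit 40293685603539726245357)) (.cons (.rf (nat_lit 1515) (nat_lit 49588531035042550659561)) (.cons (.rf (nat_lit 1543) (nat_lit 19770493361363620530756803)) (.cons (.br (nat_lit 2) (nat_lit 0) (.cons (.rf (nat_lit 1544) (nat_lit 677582165103132179601393696)) (.cons (.rf (nat_lit 1546) (nat_lit 677582165103132179601393696)) (.cons (.rf (nat_lit 1544) (nat_lit 639756885435182200587061608)) (.cons (.rf (nat_lit 1547) (nat_lit 677582165103132179601393696))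 (.cons (.rf (nat_lit 1547) (nat_lit 639756885435182200587061608)) .nil)))))) .nil))))))) .nil)))))))),
 (.br (nat_lit 5) (nat_lit 0) (.cons (.rf (nat_lit 1087) (nat_lit 69932686531)) (.cons (.br (nat_lit 7) (nat_lit 1) (.cons (.br (nat_lit 9) (nat_lit 0) (.cons (.rf (nat_lit 1456) (nat_lit 15677843840195)) (.cons (.br (nat_lit 14) (nat_lit 1) (.cons (.br (nat_lit 13) (nat_lit 0) (.cons (.kr (nat_lit 79228167236630821562700791809) (nat_lit 20282409603670117168025272582144) (nat_lit 0) (nat_lit 1)) .nil)) .nil)) .nil))) (.cons (.br (nat_lit 13) (nat_lit 0) (.cons (.rf (nat_lit 1456) (nat_lit 15819577760963)) (.cons (.br (nat_lit 14) (nat_lit 1) (.cons (.br (nat_lit 9) (nat_lit 0) (.cons (.br (nat_lit 1) (nat_lit 0) (.cons (.rf (nat_lit 1515) (nat_lit 583706118939841765935136)) (.cons (.rf (nat_lit 1526) (nat_lit 583706118939841765935136)) (.cons (.rf (nat_lit 1529) (nat_lit 583706118939841765935136)) (.cons (.rf (nat_lit 1515) (nat_lit 575289783094388510074916)) (.cons (.rf (nat_lit 1534) (nat_lit 583706118939841765935136)) (.cons (.rf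 (nat_lit 1529) (nat_lit 575289783094388510074916)) (.cons (.rf (nat_lit 1542) (nat_lit 583706118939841765935136)) (.cons (.br (nat_lit 6) (nat_lit 0) (.cons (.rf (nat_lit 1529) (nat_lit 427680247529553735457987)) (.cons (.rf (nat_lit 1515) (nat_lit 427680247529553735457987)) (.cons (.rf (nat_lit 1529) (nat_lit 418387692176262407796933)) (.cons (.rf (nat_lit 1542) (nat_lit 427680247529553735457987)) (.cons (.rf (nat_lit 1515) (nat_lit 418387692176262407796933)) (.cons (.rf (nat_lit 1534) (nat_lit 427680247529553735457987)) (.cons (.rf (nat_lit 1548) (nat_lit 19926519232773908561233952)) (.cons (.br (nat_lit 11) (nat_lit 0) (.cons (.rf (nat_lit 1515) (nat_lit 235126859043367167494504)) (.cons (.rf (nat_lit 1529) (nat_lit 243312592793402660530540)) (.cons (.rf (nat_lit 1515) (nat_lit 243312592793402660530540)) (.cons (.rf (nat_lit 1529) (nat_lit 235126859043367167494504)) (.cons (.rf (nat_lit 1526) (nat_lit 235126859043367167494504)) (.cons (.br (nat_lit 15) (nat_lit 0) (.cons (.rf (nat_lit 1529) (nat_lit 49588531035042550659561)) (.cons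 (.rf (nat_lit 1515) (nat_lit 40293685603539726245357)) (.cons (.rf (nat_lit 1529) (nat_lit 40293685603539726245357)) (.cons (.rf (nat_lit 1515) (nat_lit 49588531035042550659561)) (.cons (.rf (nat_lit 1548) (nat_lit 19577939972877433962793320)) (.cons (.kr (nat_lit 2658455992188801765450305361833623553) (nat_lit 20361637770906748551434103423488) (nat_lit 0) (nat_lit 2)) .nil))))))) (.cons (.br (nat_lit 15) (nat_lit 0) (.cons (.rf (nat_lit 1529) (nat_lit 49588531035042550659561)) (.cons (.rf (nat_lit 1515) (nat_lit 40293685603539726245357)) (.cons (.rf (nat_lit 1529) (nat_lit 40293685603539726245357)) (.cons (.rf (nat_lit 1515) (nat_lit 49588531035042550659561)) (.cons (.kr (nat_lit 2658455992188801765450305361833623553) (nat_lit 20361637770906748551434103423488) (nat_lit 0) (nat_lit 2)) (.cons (.rf (nat_lit 1548) (nat_lit 20786865792492063137499496)) .nil))))))) .nil)))))))) .nil))))))))) .nil))))))))) .nil)) .nil)) .nil))) .nil))) .nil))),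
 (.br (nat_lit 11) (nat_lit 0) (.cons (.ev (nat_lit 31174460942016192025870008584373255) (nat_lit 3)) (.cons (.br (nat_lit 15) (nat_lit 0) (.cons (.ev (nat_lit 1329228075943960731451402609659872002) (nat_lit 2)) (.cons (.rf (nat_lit 1) (nat_lit 582172426706113)) .nil))) .nil))),
 (.br (nat_lit 11) (nat_lit 0) (.cons (.kr (nat_lit 1329227996094400882725433603981836544) (nat_lit 5192296859743753520202719541919744) (nat_lit 1) (nat_lit 0)) (.cons (.br (nat_lit 14) (nat_lit 0) (.cons (.ev (nat_lit 10405114430135610320531093245133313) (nat_lit 2)) (.cons (.rf (nat_lit 1) (nat_lit 582139140709569)) .nil))) .nil))),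
 (.br (nat_lit 7) (nat_lit 0) (.cons (.kr (nat_lit 18446744078021296129) (nat_lit 72339069014704384) (nat_lit 0) (nat_lit 5)) (.cons (.kr (nat_lit 20282409608392483651994429423619) (nat_lit 79228162514409015731573359104) (nat_lit 0) (nat_lit 10)) (.cons (.kr (nat_lit 4722366482869645213697) (nat_lit 72057594037993472) (nat_lit 0) (nat_lit 1)) (.cons (.br (nat_lit 14) (nat_lit 0) (.cons (.ev (nat_lit 10405114430135647070467011165421571) (nat_lit 2)) (.cons (.ev (nat_lit 10405114430145054909381644459835907) (nat_lit 2)) (.cons (.ev (nat_lit 10405114430135610320531093245133313) (nat_lit 2)) (.cons (.br (nat_lit 10) (nat_lit 0) (.cons (.rf (nat_lit 1) (nat_lit 582139136519361)) (.cons (.rf (nat_lit 1461) (nat_lit 661554873895697579607104)) (.cons (.br (nat_lit 15) (nat_lit 0) (.cons (.rf (nat_lit 1427) (nat_lit 19987685074579013113128996)) (.cons (.ev (nat_lit 87112291144419052432627284140738023063808) (nat_lit 1)) .nil))) .nil)))) .nil))))) .nil))))),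
 (.br (nat_lit 13) (nat_lit 0) (.cons (.ev (nat_lit 20361948460101575722342501318656) (nat_lit 1)) .nil)),
 (.br (nat_lit 7) (nat_lit 0) (.cons (.kr (nat_lit 79228167255077565640722087939) (nat_lit 20282409603651815102085280694784) (nat_lit 0) (nat_lit 10)) (.cons (.kr (nat_lit 20282409608392483650894917795841) (nat_lit 79228162514408453881131565056) (nat_lit 0) (nat_lit 1)) (.cons (.ev (nat_lit 2668860946924667622556125344192070401) (nat_lit 2)) (.cons (.br (nat_lit 11) (nat_lit 0) (.cons (.ev (nat_lit 20362259158814923962288791748611) (nat_lit 2)) (.cons (.rf (nat_lit 1552) (nat_lit 46153972243598286403949)) (.cons (.br (nat_lit 10) (nat_lit 0) (.cons (.ev (nat_lit 20362259158778174587121801625603) (nat_lit 2)) (.cons (.ev (nat_lit 20362259168222762876922086162947) (nat_lit 2)) (.cons (.br (nat_lit 14) (nat_lit 0) (.cons (.ev (nat_lit 341616807495991522537943852904785969408) (nat_lit 1)) (.cons (.rf (nat_lit 1553) (nat_lit 20678166659641450335297)) .nil))) .nil)))) (.cons (.br (nat_lit 10) (nat_lit 0) (.cons (.rf (nat_lit 1) (nat_lit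 582034983566529)) (.cons (.br (nat_lit 14) (nat_lit 0) (.cons (.ev (nat_lit 341616807495991517834024395588138762240) (nat_lit 1)) (.cons (.rf (nat_lit 999) (nat_lit 21158609547559482672982500)) .nil))) (.cons (.ev (nat_lit 20362259168222762876922086162947) (nat_lit 2)) .nil)))) .nil))))) .nil)))))]

theorem c93 : chkAll C T R L93 (nat_lit 1536) = true := by decide +kernel

theorem l93 : (nat_lit 1536) + L93.length = (nat_lit 1555) := by decide +kernel

/-- part of the certificates -/
def L94 : List Prf := [(.br (nat_lit 15) (nat_lit 0) (.cons (.ev (nat_lit 20362259158778174587121801625603) (nat_lit 2)) (.cons (.ev (nat_lit 341616787292810081400537766551078633728) (nat_lit 1)) (.cons (.br (nat_lit 16) (nat_lit 0) (.cons (.ev (nat_lit 20362259168222763437673016328193) (nat_lit 2)) (.cons (.ev (nat_lit 341616787292810076678243341275471282433) (nat_lit 1)) .nil))) .nil)))),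
 (.br (nat_lit 14) (nat_lit 0) (.cons (.ev (nat_lit 20362259158778174587121801625603) (nat_lit 2)) (.cons (.ev (nat_lit 341616787292810076678243621650936365056) (nat_lit 1)) (.cons (.br (nat_lit 16) (nat_lit 0) (.cons (.ev (nat_lit 20362259158778174026370871460353) (nat_lit 2)) (.cons (.ev (nat_lit 341616787292810076678243341275471282433) (nat_lit 1)) .nil))) .nil)))),
 (.br (nat_lit 11) (nat_lit 0) (.cons (.ev (nat_lit 20362259168222763437673016328193) (nat_lit 2)) (.cons (.ev (nat_lit 20362259158778174026370871460353) (nat_lit 2)) (.cons (.br (nat_lit 15) (nat_lit 0) (.cons (.ev (nat_lit 341616807495991517834024395588138762240) (nat_lit 1)) (.cons (.rf (nat_lit 1233) (nat_lit 21173114493718393587337248)) .nil))) .nil)))),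
 (.br (nat_lit 15) (nat_lit 0) (.cons (.ev (nat_lit 340287559217798211957708038198488203520) (nat_lit 1)) .nil)),
 (.br (nat_lit 15) (nat_lit 0) (.cons (.ev (nat_lit 340287559217798211957708038198488203520) (nat_lit 1)) .nil)),
 (.br (nat_lit 11) (nat_lit 0) (.cons (.rf (nat_lit 1) (nat_lit 581898650859841)) (.cons (.ev (nat_lit 20362259168222763437673016328193) (nat_lit 2)) (.cons (.br (nat_lit 15) (nat_lit 0) (.cons (.rf (nat_lit 1559) (nat_lit 21174441469360359728056352)) (.cons (.ev (nat_lit 87113615180117670542310924168632557699328) (nat_lit 1)) .nil))) .nil)))),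
 (.br (nat_lit 11) (nat_lit 0) (.cons (.rf (nat_lit 1) (nat_lit 581897577119041)) (.cons (.rf (nat_lit 1461) (nat_lit 661701331839723243669536)) (.cons (.ev (nat_lit 20362259158778174026370871460353) (nat_lit 2)) .nil)))),
 (.br (nat_lit 6) (nat_lit 0) (.cons (.br (nat_lit 10) (nat_lit 0) (.cons (.br (nat_lit 14) (nat_lit 0) (.cons (.kr (nat_lit 1329227996094400882725433603981836544) (nat_lit 5192296859743753520202719541919744) (nat_lit 1) (nat_lit 0)) (.cons (.br (nat_lit 15) (nat_lit 0) (.cons (.ev (nat_lit 2668860946924672344850830995264372737) (nat_lit 2)) (.cons (.rf (nat_lit 1) (nat_lit 582169208626369)) .nil))) .nil))) (.cons (.rf (nat_lit 1550) (nat_lit 583706118939841765935136)) (.cons (.rf (nat_lit 1551) (nat_lit 583706118939841765935136)) (.cons (.br (nat_lit 11) (nat_lit 0) (.cons (.rf (nat_lit 1551) (nat_lit 547072003082893408699456)) (.cons (.rf (nat_lit 1550) (nat_lit 547072003082893408699456)) (.cons (.ev (nat_lit 20362259168222762876922086162947) (nat_lit 2)) (.cons (.br (nat_lit 14) (nat_lit 0) (.cons (.rf (nat_lit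 1) (nat_lit 582036194663617)) (.cons (.br (nat_lit 16) (nat_lit 0) (.cons (.ev (nat_lit 2658476511666355014350527198281203715) (nat_lit 2)) (.cons (.ev (nat_lit 340287579579744254189197786100812218625) (nat_lit 1)) .nil))) (.cons (.ev (nat_lit 10405114430135610320531093245133313) (nat_lit 2)) .nil)))) .nil))))) .nil))))) (.cons (.kr (nat_lit 79228162532711082771076874241) (nat_lit 20282409608374037469766849921536) (nat_lit 0) (nat_lit 2)) (.cons (.rf (nat_lit 1552) (nat_lit 583706118939841765935136)) (.cons (.kr (nat_lit 1099511627777) (nat_lit 281474976710912) (nat_lit 0) (nat_lit 2)) (.cons (.rf (nat_lit 1554) (nat_lit 583706118939841765935136)) (.cons (.br (nat_lit 7) (nat_lit 0) (.cons (.rf (nat_lit 1552) (nat_lit 547072003082893408699456)) (.cons (.kr (nat_lit 20282409608392483650894917795841) (nat_lit 79228162514408453881131565056) (nat_lit 0) (nat_lit 1)) (.cons (.rf (nat_lit 1554) (nat_lit 547072003082893408699456)) (.cons (.kr (nat_lit 4722366482869645213697) (nat_lit 72057594037993472) (nat_lit 0) (nat_lit 1)) (.cons (.br (nat_lit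 10) (nat_lit 0) (.cons (.ev (nat_lit 20362259168259801043216157900801) (nat_lit 2)) (.cons (.rf (nat_lit 1555) (nat_lit 19926519232773908561233952)) (.cons (.rf (nat_lit 1556) (nat_lit 19926519232773908561233952)) (.cons (.rf (nat_lit 1557) (nat_lit 19926519232773908561233952)) (.cons (.br (nat_lit 11) (nat_lit 0) (.cons (.rf (nat_lit 1556) (nat_lit 19889885116916960203998272)) (.cons (.rf (nat_lit 1555) (nat_lit 19889885116916960203998272)) (.cons (.rf (nat_lit 1557) (nat_lit 19889885116916960203998272)) (.cons (.ev (nat_lit 20362259168222762876922086162947) (nat_lit 2)) .nil))))) .nil)))))) (.cons (.br (nat_lit 10) (nat_lit 0) (.cons (.br (nat_lit 14) (nat_lit 0) (.cons (.rf (nat_lit 1) (nat_lit 581898751520065)) (.cons (.br (nat_lit 16) (nat_lit 0) (.cons (.ev (nat_lit 340287559218106488041637709944488788225) (nat_lit 1)) (.cons (.ev (nat_lit 340287559218106483319343284668881436928) (nat_lit 1)) .nil))) (.cons (.br (nat_lit 15) (nat_lit 0) (.cons (.rf (nat_lit 1558) (nat_lit 21174441469360359728056352)) (.cons (.ev (nat_lit 87113615180117670542310924168632557699328)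 (nat_lit 1)) .nil))) .nil)))) (.cons (.rf (nat_lit 1560) (nat_lit 677582165103132179601393696)) (.cons (.rf (nat_lit 1561) (nat_lit 677582165103132179601393696)) (.cons (.br (nat_lit 11) (nat_lit 0) (.cons (.ev (nat_lit 20362259168222763437673016328193) (nat_lit 2)) (.cons (.rf (nat_lit 1560) (nat_lit 640068830579221726828266560)) (.cons (.ev (nat_lit 20362259168222762876922086162947) (nat_lit 2)) (.cons (.br (nat_lit 14) (nat_lit 0) (.cons (.br (nat_lit 16) (nat_lit 0) (.cons (.ev (nat_lit 340287579579744249466759526012594225153) (nat_lit 1)) .nil)) (.cons (.ev (nat_lit 340287559218106483319343284668881436928) (nat_lit 1)) (.cons (.rf (nat_lit 1238) (nat_lit 661701298169414133318720)) .nil)))) .nil))))) (.cons (.br (nat_lit 11) (nat_lit 0) (.cons (.rf (nat_lit 1461) (nat_lit 625067213836596908491840)) (.cons (.ev (nat_lit 20362259158778174026370871460353) (nat_lit 2)) (.cons (.br (nat_lit 17) (nat_lit 0) (.cons (.br (nat_lit 15) (nat_lit 0) (.cons (.ev (nat_lit 340287559218106488023263024560016982273) (nat_lit 1)) .nil)) (.cons (.ev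 (nat_lit 87113615159756032771422694981816155111681) (nat_lit 1)) (.cons (.rf (nat_lit 822) (nat_lit 677545566721058809624665283)) .nil)))) (.cons (.ev (nat_lit 20362259168222762876922086162947) (nat_lit 2)) .nil))))) .nil)))))) .nil))))))) .nil))))))),
 (.br (nat_lit 10) (nat_lit 0) (.cons (.ev (nat_lit 20362259168222763439880663072771) (nat_lit 2)) (.cons (.br (nat_lit 2) (nat_lit 0) (.cons (.ev (nat_lit 31174460942006710111185745756947457) (nat_lit 3)) (.cons (.br (nat_lit 15) (nat_lit 0) (.cons (.ev (nat_lit 2658476511666355014349962049270972931) (nat_lit 2)) (.cons (.rf (nat_lit 1) (nat_lit 582172417404129)) .nil))) .nil))) (.cons (.kr (nat_lit 2658455992188801765450305357521879041) (nat_lit 20361637770906747988488461746176) (nat_lit 0) (nat_lit 1)) (.cons (.br (nat_lit 2) (nat_lit 0) (.cons (.br (nat_lit 15) (nat_lit 0) (.cons (.ev (nat_lit 2658476511666355014349962049270972931) (nat_lit 2)) (.cons (.rf (nat_lit 1) (nat_lit 582169103906881)) .nil))) (.cons (.br (nat_lit 14) (nat_lit 0) (.cons (.ev (nat_lit 2663648526116490357084450137288278016)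 (nat_lit 2)) (.cons (.rf (nat_lit 1) (nat_lit 582134744169537)) .nil))) (.cons (.ev (nat_lit 20362259168222762876922119717377) (nat_lit 2)) (.cons (.br (nat_lit 14) (nat_lit 0) (.cons (.ev (nat_lit 10405114430145091946984979954663937) (nat_lit 2)) (.cons (.br (nat_lit 16) (nat_lit 0) (.cons (.ev (nat_lit 340287579579744249485278047304876556545) (nat_lit 1)) (.cons (.ev (nat_lit 340282387203658761050685991076935827713) (nat_lit 1)) .nil))) (.cons (.br (nat_lit 15) (nat_lit 0) (.cons (.rf (nat_lit 912) (nat_lit 21158866656936343707494436)) (.cons (.ev (nat_lit 87112291144419052432645803223885042155520) (nat_lit 1)) .nil))) .nil)))) .nil))))) .nil))))),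
 (.br (nat_lit 7) (nat_lit 0) (.cons (.ev (nat_lit 72713153965758465685750524504310785) (nat_lit 4)) (.cons (.br (nat_lit 14) (nat_lit 0) (.cons (.ev (nat_lit 1344805045746518784407310963105267712) (nat_lit 2)) (.cons (.rf (nat_lit 1) (nat_lit 582139170203713)) .nil))) .nil))),
 (.br (nat_lit 14) (nat_lit 0) (.cons (.ev (nat_lit 2730255093846374426877789088944937763333) (nat_lit 4)) (.cons (.kr (nat_lit 10384593719492247709517194379395073) (nat_lit 20361637766166078877832677818368) (nat_lit 0) (nat_lit 1)) .nil))),
 (.br (nat_lit 10) (nat_lit 0) (.cons (.ev (nat_lit 16023449419059421252580936430725496841) (nat_lit 4)) (.cons (.ev (nat_lit 20362259168222762876922119717377) (nat_lit 2)) (.cons (.br (nat_lit 14) (nat_lit 0) (.cons (.ev (nat_lit 10405114430135610320531093245133313) (nat_lit 2)) (.cons (.rf (nat_lit 1046) (nat_lit 19998604416044573187483680)) .nil))) .nil)))),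
 (.br (nat_lit 7) (nat_lit 0) (.cons (.ev (nat_lit 16023449419059421252578688977351608325) (nat_lit 4)) (.cons (.ev (nat_lit 340282367000477319913280186202500169728) (nat_lit 1)) (.cons (.br (nat_lit 14) (nat_lit 0) (.cons (.ev (nat_lit 341611615278362359150399555010952232960) (nat_lit 1)) (.cons (.ev (nat_lit 2689630294674474002300968388782325767) (nat_lit 3)) .nil))) .nil)))),
 (.br (nat_lit 7) (nat_lit 0) (.cons (.ev (nat_lit 16023449419059421252578680215484106765) (nat_lit 4)) (.cons (.ev (nat_lit 10405114430135610320531093245133313) (nat_lit 2)) (.cons (.br (nat_lit 10) (nat_lit 0) (.cons (.ev (nat_lit 20362259168222763437673016328193) (nat_lit 2)) (.cons (.rf (nat_lit 1559) (nat_lit 19997087242206111844317256)) .nil))) .nil)))),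
 (.br (nat_lit 7) (nat_lit 0) (.cons (.ev (nat_lit 20362259168222762876922119717377) (nat_lit 2)) (.cons (.ev (nat_lit 340287579579744249485278328784148234240) (nat_lit 1)) (.cons (.br (nat_lit 10) (nat_lit 0) (.cons (.ev (nat_lit 20362259168222763437673016328193) (nat_lit 2)) (.cons (.rf (nat_lit 1372) (nat_lit 21172994296132647345205601)) .nil))) .nil)))),
 (.br (nat_lit 7) (nat_lit 0) (.cons (.rf (nat_lit 1) (nat_lit 582172326176833)) (.cons (.br (nat_lit 14) (nat_lit 0) (.cons (.ev (nat_lit 1361160641829035704917098841481247326729) (nat_lit 4)) (.cons (.ev (nat_lit 2689630294674474002300968388782325767) (nat_lit 3)) .nil))) (.cons (.br (nat_lit 14) (nat_lit 0) (.cons (.ev (nat_lit 8006542593488847585474017106931876867) (nat_lit 3)) (.cons (.ev (nat_lit 1045358075410995344032833505176892238597637) (nat_lit 4)) .nil))) .nil)))),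
 (.br (nat_lit 7) (nat_lit 0) (.cons (.ev (nat_lit 20362259168222762876922119717377) (nat_lit 2)) (.cons (.rf (nat_lit 1570) (nat_lit 639949591009161859723959491)) (.cons (.br (nat_lit 10) (nat_lit 0) (.cons (.ev (nat_lit 20362259168222763437673016328193) (nat_lit 2)) (.cons (.br (nat_lit 14) (nat_lit 0) (.cons (.ev (nat_lit 8172124892551580817332049713616981724179) (nat_lit 5)) .nil)) .nil))) (.cons (.br (nat_lit 10) (nat_lit 0) (.cons (.ev (nat_lit 20362259168222763437673016328193) (nat_lit 2)) (.cons (.br (nat_lit 14) (nat_lit 0) (.cons (.zr (nat_lit 174905136739339237469348364647033764841984) (nat_lit 7975368055794567865955492488787525635) (nat_lit 16) (nat_lit 1)) .nil)) (.cons (.br (nat_lit 14) (nat_lit 0) (.cons (.zr (nat_lit 3405482125439257928664644667564976505344) (nat_lit 522673715691973527898130876348945754226695) (nat_lit 16) (nat_lit 16)) .nil)) .nil)))) .nil))))),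
 (.br (nat_lit 11) (nat_lit 0) (.cons (.rf (nat_lit 1562) (nat_lit 385062453446718909623368)) (.cons (.rf (nat_lit 1563) (nat_lit 583706118939841765935136)) (.cons (.rf (nat_lit 1563) (nat_lit 569351090019430409844933)) (.cons (.rf (nat_lit 1562) (nat_lit 46153972243598286403949)) (.cons (.br (nat_lit 2) (nat_lit 0) (.cons (.br (nat_lit 10) (nat_lit 0) (.cons (.ev (nat_lit 72713153965758465683503071130422285) (nat_lit 4)) (.cons (.br (nat_lit 14) (nat_lit 0) (.cons (.ev (nat_lit 8037696219899988492793453440458031629) (nat_lit 4)) (.cons (.rf (nat_lit 1) (nat_lit 582139173346369)) .nil))) .nil))) (.cons (.rf (nat_lit 1564) (nat_lit 583706118939841765935136)) (.cons (.rf (nat_lit 1564) (nat_lit 238632897842235665844584)) (.cons (.br (nat_lit 7) (nat_lit 0) (.cons (.rf (nat_lit 1564) (nat_lit 54496521114917139652073)) (.cons (.rf (nat_lit 1564) (nat_lit 427832433023026304392387)) (.cons (.br (nat_lit 10) (nat_lit 0) (.cons (.ev (nat_lit 2658476673224840365273956709849894409) (nat_lit 4)) (.cons (.ev (nat_lit 2724917412040732548072270824994582564353)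 (nat_lit 4)) (.cons (.br (nat_lit 14) (nat_lit 0) (.cons (.ev (nat_lit 2724958951049416417621348528936345931273) (nat_lit 4)) (.cons (.br (nat_lit 16) (nat_lit 0) (.cons (.ev (nat_lit 2043059775917889170701772844682801513221) (nat_lit 3)) .nil)) .nil))) .nil)))) (.cons (.br (nat_lit 10) (nat_lit 0) (.cons (.rf (nat_lit 1) (nat_lit 581898646796609)) (.cons (.rf (nat_lit 1565) (nat_lit 677582165103132179601393696)) (.cons (.rf (nat_lit 1565) (nat_lit 639576255097253750559219177)) .nil)))) .nil))))) .nil))))) (.cons (.br (nat_lit 15) (nat_lit 0) (.cons (.rf (nat_lit 1563) (nat_lit 427832433023026304392387)) (.cons (.rf (nat_lit 1562) (nat_lit 530239343776571101297897)) (.cons (.rf (nat_lit 1562) (nat_lit 82752347533903831416140)) (.cons (.rf (nat_lit 1563) (nat_lit 424174199757747939092516)) (.cons (.br (nat_lit 2) (nat_lit 0) (.cons (.rf (nat_lit 1566) (nat_lit 19926519232773908561233952)) (.cons (.rf (nat_lit 1567) (nat_lit 19926519232773908561233952)) (.cons (.rf (nat_lit 1568) (nat_lit 19926519232773908561233952)) (.cons (.rf (nat_lit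 1569) (nat_lit 19926519232773908561233952)) (.cons (.br (nat_lit 7) (nat_lit 0) (.cons (.rf (nat_lit 1568) (nat_lit 19770645546857093099691203)) (.cons (.rf (nat_lit 1567) (nat_lit 19770645546857093099691203)) (.cons (.rf (nat_lit 1569) (nat_lit 19770645546857093099691203)) (.cons (.br (nat_lit 10) (nat_lit 0) (.cons (.rf (nat_lit 1046) (nat_lit 20003183973132810710059044)) (.cons (.rf (nat_lit 1287) (nat_lit 661659530523891113139689)) (.cons (.rf (nat_lit 1288) (nat_lit 624918192936423578156265)) .nil)))) .nil))))) .nil)))))) (.cons (.br (nat_lit 2) (nat_lit 0) (.cons (.br (nat_lit 10) (nat_lit 0) (.cons (.rf (nat_lit 1) (nat_lit 582172426837057)) (.cons (.ev (nat_lit 20362259168222762876922119717377) (nat_lit 2)) (.cons (.ev (nat_lit 2658476511666355014350527198281203715) (nat_lit 2)) .nil)))) (.cons (.rf (nat_lit 1570) (nat_lit 677582165103132179601393696)) (.cons (.br (nat_lit 7) (nat_lit 0) (.cons (.rf (nat_lit 1) (nat_lit 582168031213633)) (.cons (.ev (nat_lit 10405114430135610320531093245133313) (nat_lit 2)) (.cons (.ev (nat_lit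 2668860946924672344850830995230818307) (nat_lit 2)) .nil)))) (.cons (.rf (nat_lit 1571) (nat_lit 677582165103132179601393696)) (.cons (.br (nat_lit 7) (nat_lit 0) (.cons (.ev (nat_lit 2658476511666355014350527198281203715) (nat_lit 2)) (.cons (.rf (nat_lit 1570) (nat_lit 639949591009161859723959491)) (.cons (.br (nat_lit 10) (nat_lit 0) (.cons (.ev (nat_lit 10405114430135610321094051788488707) (nat_lit 2)) (.cons (.br (nat_lit 14) (nat_lit 0) (.cons (.zr (nat_lit 174905136739339237469348364647033764841984) (nat_lit 7975368055794567865955492488787525635) (nat_lit 16) (nat_lit 1)) .nil)) (.cons (.rf (nat_lit 1571) (nat_lit 639945932775896581358659620)) .nil)))) (.cons (.rf (nat_lit 1571) (nat_lit 639949591009161859723959491)) .nil))))) .nil)))))) .nil))))))) .nil)))))))]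

theorem c94 : chkAll C T R L94 (nat_lit 1555) = true := by decide +kernel

theorem l94 : (nat_lit 1555) + L94.length = (nat_lit 1573) := by decide +kernel

/-- part of the certificates -/
def L95 : List Prf := [(.br (nat_lit 6) (nat_lit 0) (.cons (.kr (nat_lit 20282409608392483650903541284865) (nat_lit 79228162514409016831084986880) (nat_lit 0) (nat_lit 10)) (.cons (.kr (nat_lit 20282409608374036907920719872001) (nat_lit 79228162532711644617206923776) (nat_lit 0) (nat_lit 2)) (.cons (.ev (nat_lit 2658476511666340847467532842090692866) (nat_lit 2)) (.cons (.br (nat_lit 11) (nat_lit 0) (.cons (.ev (nat_lit 10405114430135647069906260201701891) (nat_lit 2)) (.cons (.rf (nat_lit 1572) (nat_lit 238632897842235665844584)) (.cons (.br (nat_lit 15) (nat_lit 0) (.cons (.ev (nat_lit 10405114430145054909944603003191297) (nat_lit 2)) (.cons (.ev (nat_lit 341611615278362359150399274635470373120) (nat_lit 1)) (.cons (.br (nat_lit 16) (nat_lit 0) (.cons (.ev (nat_lit 10405114430135610320531093278687747) (nat_lit 2)) (.cons (.ev (nat_lit 341611615278362354428105130830561542145)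 (nat_lit 1)) .nil))) .nil)))) (.cons (.br (nat_lit 14) (nat_lit 0) (.cons (.rf (nat_lit 1) (nat_lit 582036190636097)) (.cons (.br (nat_lit 15) (nat_lit 0) (.cons (.ev (nat_lit 341611594916724588262170087819067785473) (nat_lit 1)) (.cons (.br (nat_lit 16) (nat_lit 0) (.cons (.ev (nat_lit 341611615278362354446479816214999793665) (nat_lit 1)) .nil)) .nil))) (.cons (.ev (nat_lit 10405114430135610320531093278687747) (nat_lit 2)) .nil)))) .nil))))) .nil))))),
 (.br (nat_lit 2) (nat_lit 0) (.cons (.br (nat_lit 14) (nat_lit 0) (.cons (.kr (nat_lit 1329227996094400882725433603981836544) (nat_lit 5192296859743753520202719541919744) (nat_lit 1) (nat_lit 0)) (.cons (.br (nat_lit 15) (nat_lit 0) (.cons (.ev (nat_lit 2668860946924672344850830995230818307) (nat_lit 2)) (.cons (.rf (nat_lit 1) (nat_lit 582169208789057)) .nil))) .nil))) (.cons (.rf (nat_lit 1573) (nat_lit 46153972243598286403949)) (.cons (.kr (nat_lit 4722366482869645213697) (nat_lit 72057594037993472) (nat_lit 0) (nat_lit 1)) (.cons (.br (nat_lit 6) (nat_lit 0) (.cons (.kr (nat_lit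 5192296859743753448426600480637184) (nat_lit 20282409603651670425051074658304) (nat_lit 1) (nat_lit 0)) (.cons (.rf (nat_lit 1573) (nat_lit 391269798299363571669219)) (.cons (.br (nat_lit 14) (nat_lit 0) (.cons (.ev (nat_lit 10405114430145054909944603003191297) (nat_lit 2)) (.cons (.ev (nat_lit 10405114430135610321094051788488707) (nat_lit 2)) (.cons (.br (nat_lit 15) (nat_lit 0) (.cons (.ev (nat_lit 341611594916724588280545054674204557313) (nat_lit 1)) (.cons (.br (nat_lit 16) (nat_lit 0) (.cons (.ev (nat_lit 341611615278362354428105130830561542145) (nat_lit 1)) .nil)) .nil))) .nil)))) (.cons (.br (nat_lit 14) (nat_lit 0) (.cons (.rf (nat_lit 1) (nat_lit 581864387751233)) (.cons (.br (nat_lit 15) (nat_lit 0) (.cons (.ev (nat_lit 341616787292810081400537765455861973248) (nat_lit 1)) (.cons (.br (nat_lit 16) (nat_lit 0) (.cons (.ev (nat_lit 341616807495991522556462654572550160640) (nat_lit 1)) .nil)) .nil))) (.cons (.ev (nat_lit 10405114430135610321094051788488707) (nat_lit 2)) .nil)))) .nil))))) .nil))))),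
 (.br (nat_lit 6) (nat_lit 0) (.cons (.ev (nat_lit 2668840587151093368060762532664771842) (nat_lit 3)) (.cons (.ev (nat_lit 2668860946924672344850830995230818307) (nat_lit 2)) (.cons (.br (nat_lit 16) (nat_lit 0) (.cons (.ev (nat_lit 341616807495991517815649426533961957633) (nat_lit 1)) (.cons (.ev (nat_lit 341616807495991517834024395588121985025) (nat_lit 1)) .nil))) .nil)))),
 (.br (nat_lit 6) (nat_lit 0) (.cons (.ev (nat_lit 20362259168222762876922119717377) (nat_lit 2)) (.cons (.kr (nat_lit 5192296859748475814627995149139969) (nat_lit 79228162514336396287093571584) (nat_lit 0) (nat_lit 1)) (.cons (.br (nat_lit 11) (nat_lit 0) (.cons (.ev (nat_lit 341616807495991517815649426533961957633) (nat_lit 1)) (.cons (.rf (nat_lit 1251) (nat_lit 677545566757262606154696736)) .nil))) .nil)))),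
 (.br (nat_lit 2) (nat_lit 0) (.cons (.kr (nat_lit 20282409608374036906821208244225) (nat_lit 79228162514336676662558654720) (nat_lit 0) (nat_lit 5)) (.cons (.ev (nat_lit 20362259168222762876922119717377) (nat_lit 2)) (.cons (.br (nat_lit 14) (nat_lit 0) (.cons (.br (nat_lit 16) (nat_lit 0) (.cons (.ev (nat_lit 340282387203658761050685991076935827713) (nat_lit 1)) .nil)) (.cons (.ev (nat_lit 87113620372335299700994549009209761005825) (nat_lit 1)) .nil))) .nil)))),
 (.br (nat_lit 10) (nat_lit 0) (.cons (.rf (nat_lit 1573) (nat_lit 583706118939841765935136)) (.cons (.kr (nat_lit 281474976710912) (nat_lit 4311744512) (nat_lit 1) (nat_lit 0)) (.cons (.rf (nat_lit 1574) (nat_lit 583706118939841765935136)) (.cons (.rf (nat_lit 1572) (nat_lit 277744644119179867358532)) (.cons (.rf (nat_lit 1562) (nat_lit 82752347533903831416140)) (.cons (.br (nat_lit 15) (nat_lit 0) (.cons (.kr (nat_lit 4722366482869645213697) (nat_lit 72057594037993472) (nat_lit 0) (nat_lit 1)) (.cons (.rf (nat_lit 1573) (nat_lit 391269798299363571669219)) (.cons (.rf (nat_lit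 1572) (nat_lit 238632897842235665844584)) (.cons (.rf (nat_lit 1574) (nat_lit 391269798299363571669219)) (.cons (.br (nat_lit 2) (nat_lit 0) (.cons (.ev (nat_lit 2658476511666355014350527198247649281) (nat_lit 2)) (.cons (.kr (nat_lit 20282409608392483650894917795841) (nat_lit 79228162514408453881131565056) (nat_lit 0) (nat_lit 1)) (.cons (.rf (nat_lit 1575) (nat_lit 19926519232773908561233952)) (.cons (.rf (nat_lit 1576) (nat_lit 19926519232773908561233952)) (.cons (.br (nat_lit 6) (nat_lit 0) (.cons (.rf (nat_lit 1575) (nat_lit 19734082912133430366968035)) (.cons (.kr (nat_lit 20282409608374036907920719872001) (nat_lit 79228162532711644617206923776) (nat_lit 0) (nat_lit 2)) (.cons (.rf (nat_lit 1576) (nat_lit 19734082912133430366968035)) (.cons (.br (nat_lit 11) (nat_lit 0) (.cons (.ev (nat_lit 10405114430135647070469201598742531) (nat_lit 2)) (.cons (.rf (nat_lit 1476) (nat_lit 624918193114749249814887)) (.cons (.ev (nat_lit 87113615180117670537588630025931455463425) (nat_lit 1)) .nil)))) .nil))))) .nil)))))) (.cons (.br (nat_lit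 11) (nat_lit 0) (.cons (.kr (nat_lit 20282409608392483650894917795841) (nat_lit 79228162514408453881131565056) (nat_lit 0) (nat_lit 1)) (.cons (.rf (nat_lit 1577) (nat_lit 677582165103132179601393696)) (.cons (.rf (nat_lit 1562) (nat_lit 46153972243598286403949)) (.cons (.br (nat_lit 6) (nat_lit 0) (.cons (.ev (nat_lit 20362259168222762876922119717377) (nat_lit 2)) (.cons (.kr (nat_lit 20282409608374036907920719872001) (nat_lit 79228162532711644617206923776) (nat_lit 0) (nat_lit 2)) (.cons (.ev (nat_lit 340282387203658761069205075319171579905) (nat_lit 1)) (.cons (.br (nat_lit 14) (nat_lit 0) (.cons (.ev (nat_lit 2668860946924672344850830995230818307) (nat_lit 2)) (.cons (.ev (nat_lit 10405114430135610320531093278687747) (nat_lit 2)) (.cons (.ev (nat_lit 87112285952042966948933649708120767725568) (nat_lit 1)) .nil)))) .nil))))) (.cons (.br (nat_lit 14) (nat_lit 0) (.cons (.rf (nat_lit 1577) (nat_lit 639913028374438196991236323)) (.cons (.kr (nat_lit 20282409608374036907920719872001) (nat_lit 79228162532711644617206923776) (nat_lit 0)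 (nat_lit 2)) (.cons (.br (nat_lit 16) (nat_lit 0) (.cons (.rf (nat_lit 1287) (nat_lit 661355082711873048984908)) (.cons (.rf (nat_lit 1288) (nat_lit 661355082715171578625356)) (.cons (.ev (nat_lit 340287559218106483319343284668864659713) (nat_lit 1)) .nil)))) (.cons (.ev (nat_lit 10405114430135610320531093278687747) (nat_lit 2)) .nil))))) .nil)))))) .nil))))))) .nil))))))),
 (.br (nat_lit 7) (nat_lit 0) (.cons (.ev (nat_lit 72713153965739501856390760448525325) (nat_lit 4)) (.cons (.br (nat_lit 14) (nat_lit 0) (.cons (.ev (nat_lit 31174460942006710112867998480335367) (nat_lit 3)) (.cons (.rf (nat_lit 1) (nat_lit 582139002595393)) .nil))) .nil))),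
 (.br (nat_lit 14) (nat_lit 0) (.cons (.ev (nat_lit 2730296631587407715162466768746239754753) (nat_lit 4)) (.cons (.kr (nat_lit 10384593719492247709517194379395073) (nat_lit 20361637766166078877832677818368) (nat_lit 0) (nat_lit 1)) .nil))),
 (.br (nat_lit 2) (nat_lit 0) (.cons (.rf (nat_lit 1572) (nat_lit 547072003082893408699456)) (.cons (.rf (nat_lit 1579) (nat_lit 583706118939841765935136)) (.cons (.rf (nat_lit 1579) (nat_lit 238632897842235665844584)) (.cons (.br (nat_lit 7) (nat_lit 0) (.cons (.rf (nat_lit 1579) (nat_lit 54496521114917139652073)) (.cons (.rf (nat_lit 1579) (nat_lit 427832433023026304392387)) (.cons (.br (nat_lit 10) (nat_lit 0) (.cons (.ev (nat_lit 13292301270853568567795189288706770445) (nat_lit 4)) (.cons (.ev (nat_lit 2735551236638361276274792057504719963653) (nat_lit 4)) (.cons (.br (nat_lit 14) (nat_lit 0) (.cons (.ev (nat_lit 2735592774379394545596793281523105400333) (nat_lit 4)) (.cons (.rf (nat_lit 1487) (nat_lit 677545271580218169680299072)) .nil))) .nil)))) (.cons (.br (nat_lit 10) (nat_lit 0) (.cons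 (.rf (nat_lit 1) (nat_lit 581897539665089)) (.cons (.rf (nat_lit 1580) (nat_lit 677582165103132179601393696)) (.cons (.rf (nat_lit 1580) (nat_lit 639576255097253750559219177)) .nil)))) .nil))))) .nil))))),
 (.br (nat_lit 7) (nat_lit 0) (.cons (.ev (nat_lit 7975388653883740924728635430245893635) (nat_lit 3)) (.cons (.ev (nat_lit 341611615278362359150399274635470373120) (nat_lit 1)) (.cons (.br (nat_lit 14) (nat_lit 0) (.cons (.ev (nat_lit 2668860946924672307812664701226189313) (nat_lit 2)) (.cons (.rf (nat_lit 1558) (nat_lit 21174441145101186557389856)) .nil))) .nil)))),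
 (.br (nat_lit 14) (nat_lit 0) (.cons (.ev (nat_lit 7975388653883740924728639811045426695) (nat_lit 3)) (.cons (.ev (nat_lit 10405114430135610321094051788488707) (nat_lit 2)) (.cons (.br (nat_lit 16) (nat_lit 0) (.cons (.ev (nat_lit 340282387203658765773124814115107241985) (nat_lit 1)) (.cons (.ev (nat_lit 341616787292810081419056568218826047745) (nat_lit 1)) .nil))) .nil)))),
 (.br (nat_lit 14) (nat_lit 0) (.cons (.rf (nat_lit 1) (nat_lit 582172321097793)) (.cons (.br (nat_lit 16) (nat_lit 0) (.cons (.ev (nat_lit 340287559218106483300824483001134022913) (nat_lit 1)) (.cons (.ev (nat_lit 341611594916724592984464794565373657088) (nat_lit 1)) .nil))) (.cons (.ev (nat_lit 2668860946924672307812664701226189313) (nat_lit 2)) .nil)))),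
 (.br (nat_lit 10) (nat_lit 0) (.cons (.br (nat_lit 14) (nat_lit 0) (.cons (.ev (nat_lit 10405114430135610321094051788488707) (nat_lit 2)) (.cons (.rf (nat_lit 1553) (nat_lit 19528406403525188363617)) .nil))) (.cons (.ev (nat_lit 20362259168222763437673016328193) (nat_lit 2)) (.cons (.br (nat_lit 7) (nat_lit 0) (.cons (.ev (nat_lit 340282387203658761069204792744683241728) (nat_lit 1)) (.cons (.br (nat_lit 14) (nat_lit 0) (.cons (.zr (nat_lit 2049669569502197186076598562862315601920) (nat_lit 174224571924605406596486705309970055037441) (nat_lit 16) (nat_lit 6)) .nil)) .nil))) (.cons (.br (nat_lit 7) (nat_lit 0) (.cons (.ev (nat_lit 2658476511666354977600589089961148931) (nat_lit 2)) (.cons (.br (nat_lit 14) (nat_lit 0) (.cons (.ev (nat_lit 2748999286770243322969536530833424129035) (nat_lit 5)) .nil)) (.cons (.br (nat_lit 14) (nat_lit 0) (.cons (.zr (nat_lit 522673715691973527898130878032298056353280) (nat_lit 683223190071750220957647248459412275201) (nat_lit 16) (nat_lit 11)) .nil)) .nil)))) .nil))))),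
 (.br (nat_lit 6) (nat_lit 0) (.cons (.rf (nat_lit 1578) (nat_lit 547072003082893408699456)) (.cons (.rf (nat_lit 1562) (nat_lit 427832433023026304392387)) (.cons (.rf (nat_lit 1578) (nat_lit 277744644119179867358532)) (.cons (.rf (nat_lit 1562) (nat_lit 569351090019430409844933)) (.cons (.rf (nat_lit 1581) (nat_lit 583706118939841765935136)) (.cons (.br (nat_lit 15) (nat_lit 0) (.cons (.rf (nat_lit 1578) (nat_lit 385062453446718909623368)) (.cons (.rf (nat_lit 1562) (nat_lit 530239343776571101297897)) (.cons (.rf (nat_lit 1562) (nat_lit 82752347533903831416140)) (.cons (.rf (nat_lit 1578) (nat_lit 229038277274601013029356)) (.cons (.br (nat_lit 2) (nat_lit 0) (.cons (.rf (nat_lit 1572) (nat_lit 547072003082893408699456)) (.cons (.rf (nat_lit 1582) (nat_lit 19926519232773908561233952)) (.cons (.rf (nat_lit 1582) (nat_lit 19581446011676302461143400)) (.cons (.br (nat_lit 10) (nat_lit 0) (.cons (.ev (nat_lit 340282367000477319931798987870230806528) (nat_lit 1)) (.cons (.ev (nat_lit 20362259168222763437673016328193) (nat_lit 2)) (.cons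 (.br (nat_lit 14) (nat_lit 0) (.cons (.ev (nat_lit 341616807495991517815649427629178618113) (nat_lit 1)) (.cons (.ev (nat_lit 1369115240772900747811429373324357273089) (nat_lit 3)) .nil))) .nil)))) (.cons (.br (nat_lit 10) (nat_lit 0) (.cons (.rf (nat_lit 1583) (nat_lit 19926519232773908561233952)) (.cons (.rf (nat_lit 1572) (nat_lit 277744644119179867358532)) (.cons (.br (nat_lit 7) (nat_lit 0) (.cons (.ev (nat_lit 2658476511666354977600589089961148931) (nat_lit 2)) (.cons (.rf (nat_lit 1440) (nat_lit 20001956966502735542336576)) .nil))) (.cons (.br (nat_lit 14) (nat_lit 0) (.cons (.rf (nat_lit 1583) (nat_lit 20645347200840557246159301)) (.cons (.ev (nat_lit 341611594916724588280544774298739474688) (nat_lit 1)) (.cons (.ev (nat_lit 348451812588465144425947723509116260581889) (nat_lit 3)) .nil)))) .nil))))) .nil)))))) (.cons (.br (nat_lit 2) (nat_lit 0) (.cons (.rf (nat_lit 1572) (nat_lit 547072003082893408699456)) (.cons (.rf (nat_lit 1584) (nat_lit 677582165103132179601393696)) (.cons (.rf (nat_lit 1584) (nat_lit 639760391473981069085411688))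 (.cons (.rf (nat_lit 1585) (nat_lit 677582165103132179601393696)) (.cons (.rf (nat_lit 1585) (nat_lit 639760391473981069085411688)) .nil)))))) .nil))))))) .nil))))))),
 (.br (nat_lit 7) (nat_lit 0) (.cons (.rf (nat_lit 1586) (nat_lit 530239343776571101297897)) (.cons (.rf (nat_lit 1578) (nat_lit 238632897842235665844584)) (.cons (.rf (nat_lit 1586) (nat_lit 391269798299363571669219)) (.cons (.rf (nat_lit 1562) (nat_lit 530239343776571101297897)) (.cons (.br (nat_lit 10) (nat_lit 0) (.cons (.rf (nat_lit 1578) (nat_lit 82752347533903831416140)) (.cons (.rf (nat_lit 1572) (nat_lit 277744644119179867358532)) (.cons (.rf (nat_lit 1562) (nat_lit 82752347533903831416140)) (.cons (.br (nat_lit 11) (nat_lit 0) (.cons (.ev (nat_lit 10405114430135647070469201598742531) (nat_lit 2)) (.cons (.ev (nat_lit 340282367000477319931798706390975906048) (nat_lit 1)) (.cons (.ev (nat_lit 174905136617724629388434349263144985034755) (nat_lit 2)) .nil)))) .nil))))) .nil)))))),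
 (.br (nat_lit 6) (nat_lit 0) (.cons (.rf (nat_lit 1562) (nat_lit 427832433023026304392387)) (.cons (.rf (nat_lit 1578) (nat_lit 277744644119179867358532)) (.cons (.rf (nat_lit 1586) (nat_lit 569351090019430409844933)) (.cons (.rf (nat_lit 1562) (nat_lit 569351090019430409844933)) (.cons (.rf (nat_lit 1586) (nat_lit 427832433023026304392387)) (.cons (.rf (nat_lit 1587) (nat_lit 19926519232773908561233952)) (.cons (.br (nat_lit 7) (nat_lit 0) (.cons (.rf (nat_lit 1586) (nat_lit 530239343776571101297897)) (.cons (.rf (nat_lit 1578) (nat_lit 238632897842235665844584)) (.cons (.rf (nat_lit 1586) (nat_lit 391269798299363571669219)) (.cons (.rf (nat_lit 1562) (nat_lit 530239343776571101297897)) (.cons (.rf (nat_lit 1587) (nat_lit 19889885116916960203998272)) (.cons (.br (nat_lit 10) (nat_lit 0) (.cons (.ev (nat_lit 20362259168259801043216157900801) (nat_lit 2)) (.cons (.rf (nat_lit 1572) (nat_lit 277744644119179867358532)) (.cons (.rf (nat_lit 1562) (nat_lit 82752347533903831416140)) (.cons (.br (nat_lit 11) (nat_lit 0) (.cons (.ev (nat_lit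 340282387203658761050685991076919050496) (nat_lit 1)) (.cons (.rf (nat_lit 1572) (nat_lit 238632897842235665844584)) (.cons (.ev (nat_lit 174905136617724629388434349263144985034755) (nat_lit 2)) .nil)))) (.cons (.br (nat_lit 11) (nat_lit 0) (.cons (.ev (nat_lit 87112285952042966944211210886177829748993) (nat_lit 1)) (.cons (.rf (nat_lit 1572) (nat_lit 238632897842235665844584)) (.cons (.ev (nat_lit 174905136617724629388434349263144985034755) (nat_lit 2)) .nil)))) .nil)))))) .nil))))))) .nil))))))))]

theorem c95 : chkAll C T R L95 (nat_lit 1573) = true := by decide +kernel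

theorem l95 : (nat_lit 1573) + L95.length = (nat_lit 1589) := by decide +kernel

/-- part of the certificates -/
def L96 : List Prf := [(.br (nat_lit 5) (nat_lit 0) (.cons (.rf (nat_lit 1087) (nat_lit 69932686531)) (.cons (.br (nat_lit 12) (nat_lit 0) (.cons (.rf (nat_lit 1512) (nat_lit 515808462622431459)) (.cons (.rf (nat_lit 1445) (nat_lit 483792196)) (.cons (.br (nat_lit 7) (nat_lit 1) (.cons (.br (nat_lit 9) (nat_lit 0) (.cons (.rf (nat_lit 1456) (nat_lit 15677843840195)) (.cons (.br (nat_lit 13) (nat_lit 0) (.cons (.br (nat_lit 1) (nat_lit 0) (.cons (.rf (nat_lit 1562) (nat_lit 583706118939841765935136)) (.cons (.rf (nat_lit 1572) (nat_lit 583706118939841765935136)) (.cons (.rf (nat_lit 1578) (nat_lit 583706118939841765935136)) (.cons (.rf (nat_lit 1562) (nat_lit 424174199757747939092516)) (.cons (.rf (nat_lit 1586) (nat_lit 583706118939841765935136)) (.cons (.rf (nat_lit 1578) (nat_lit 424174199757747939092516)) (.cons (.rf (nat_lit 1586) (nat_lit 424174199757747939092516)) (.cons (.br (nat_lit 2) (nat_lit 0) (.cons (.rf (nat_lit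 1578) (nat_lit 547072003082893408699456)) (.cons (.rf (nat_lit 1572) (nat_lit 547072003082893408699456)) (.cons (.rf (nat_lit 1586) (nat_lit 547072003082893408699456)) (.cons (.rf (nat_lit 1562) (nat_lit 385062453446718909623368)) (.cons (.rf (nat_lit 1586) (nat_lit 385062453446718909623368)) (.cons (.rf (nat_lit 1578) (nat_lit 385062453446718909623368)) (.cons (.rf (nat_lit 1588) (nat_lit 19926519232773908561233952)) (.cons (.br (nat_lit 10) (nat_lit 0) (.cons (.rf (nat_lit 1578) (nat_lit 277744644119179867358532)) (.cons (.rf (nat_lit 1586) (nat_lit 530239343776571101297897)) (.cons (.rf (nat_lit 1578) (nat_lit 82752347533903831416140)) (.cons (.rf (nat_lit 1572) (nat_lit 277744644119179867358532)) (.cons (.rf (nat_lit 1562) (nat_lit 82752347533903831416140)) (.cons (.rf (nat_lit 1588) (nat_lit 19766987313591814734391332)) (.cons (.br (nat_lit 11) (nat_lit 0) (.cons (.rf (nat_lit 1586) (nat_lit 569351090019430409844933)) (.cons (.rf (nat_lit 1578) (nat_lit 238632897842235665844584)) (.cons (.rf (nat_lit 1562) (nat_lit 46153972243598286403949))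 (.cons (.rf (nat_lit 1572) (nat_lit 238632897842235665844584)) (.cons (.br (nat_lit 14) (nat_lit 0) (.cons (.rf (nat_lit 1562) (nat_lit 569351090019430409844933)) (.cons (.rf (nat_lit 1586) (nat_lit 391269798299363571669219)) (.cons (.rf (nat_lit 1578) (nat_lit 229038277274601013029356)) (.cons (.rf (nat_lit 1588) (nat_lit 19388967086077665081702765)) (.cons (.br (nat_lit 6) (nat_lit 0) (.cons (.ev (nat_lit 87112291144419052437349722681201706139905) (nat_lit 1)) (.cons (.ev (nat_lit 348451833357335661069942488396427235164679) (nat_lit 3)) (.cons (.br (nat_lit 7) (nat_lit 0) (.cons (.ev (nat_lit 341616787292810076696618309234431426560) (nat_lit 1)) .nil)) .nil)))) .nil)))))) (.cons (.rf (nat_lit 1588) (nat_lit 20936801386895414879628360)) .nil))))))) .nil)))))))) .nil))))))))) .nil))))))))) .nil)) .nil))) (.cons (.rf (nat_lit 1512) (nat_lit 218428406906625389)) .nil))) .nil)))) .nil))),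
 (.br (nat_lit 0) (nat_lit 0) (.cons (.br (nat_lit 0) (nat_lit 0) (.cons (.br (nat_lit 0) (nat_lit 1) (.cons (.br (nat_lit 1) (nat_lit 1) (.cons (.rf (nat_lit 768) (nat_lit 100384)) (.cons (.br (nat_lit 4) (nat_lit 1) (.cons (.br (nat_lit 3) (nat_lit 0) (.cons (.rf (nat_lit 768) (nat_lit 99392)) (.cons (.br (nat_lit 3) (nat_lit 0) (.cons (.rf (nat_lit 768) (nat_lit 99392)) (.cons (.br (nat_lit 2) (nat_lit 1) (.cons (.rf (nat_lit 1087) (nat_lit 247132686368)) (.cons (.rf (nat_lit 1445) (nat_lit 70259748)) (.cons (.br (nat_lit 8) (nat_lit 1) (.cons (.br (nat_lit 4) (nat_lit 0) (.cons (.rf (nat_lit 1445) (nat_lit 206703648)) (.cons (.rf (nat_lit 1445) (nat_lit 240258080)) (.cons (.br (nat_lit 8) (nat_lit 0) (.cons (.rf (nat_lit 1445) (nat_lit 211029056)) (.cons (.rf (nat_lit 1445) (nat_lit 244583488)) (.cons (.rf (nat_lit 1456) (nat_lit 11313115924512)) (.cons (.br (nat_lit 10) (nat_lit 1) (.cons (.rf (nat_lit 768) (nat_lit 165188)) (.cons (.rf (nat_lit 1512) (nat_lit 407901468851537952)) (.cons (.br (nat_lit 12) (nat_lit 1) (.cons (.br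 (nat_lit 11) (nat_lit 1) (.cons (.rf (nat_lit 1512) (nat_lit 372853436342961216)) (.cons (.rf (nat_lit 768) (nat_lit 297320)) (.cons (.br (nat_lit 5) (nat_lit 0) (.cons (.rf (nat_lit 1549) (nat_lit 493858305440582043680)) (.cons (.rf (nat_lit 1549) (nat_lit 493858305407296047136)) (.cons (.br (nat_lit 5) (nat_lit 0) (.cons (.rf (nat_lit 1549) (nat_lit 493858305440582043680)) (.cons (.rf (nat_lit 1549) (nat_lit 493858305407296047136)) (.cons (.br (nat_lit 6) (nat_lit 1) (.cons (.rf (nat_lit 1549) (nat_lit 493823257408073466944)) (.cons (.br (nat_lit 7) (nat_lit 1) (.cons (.rf (nat_lit 1549) (nat_lit 493823257374787470400)) (.cons (.rf (nat_lit 1087) (nat_lit 70209510595)) .nil))) .nil))) .nil)))) .nil)))) (.cons (.br (nat_lit 5) (nat_lit 0) (.cons (.rf (nat_lit 1589) (nat_lit 493858305440582043680)) (.cons (.rf (nat_lit 1589) (nat_lit 493858305407296047136)) (.cons (.br (nat_lit 5) (nat_lit 0) (.cons (.rf (nat_lit 1589) (nat_lit 493858305440582043680)) (.cons (.rf (nat_lit 1589) (nat_lit 493858305407296047136)) (.cons (.br (nat_lit 12)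 (nat_lit 0) (.cons (.rf (nat_lit 1512) (nat_lit 78919077472666948)) (.cons (.rf (nat_lit 1512) (nat_lit 80044977379509572)) (.cons (.rf (nat_lit 1445) (nat_lit 483792196)) (.cons (.rf (nat_lit 1445) (nat_lit 517346628)) .nil))))) .nil)))) .nil)))) .nil))))) .nil)) .nil)))) .nil))))) .nil)))) .nil)) .nil)))) .nil))) .nil))) .nil)) .nil))) .nil)) .nil)) .nil))]

theorem c96 : chkAll C T R L96 (nat_lit 1589) = true := by decide +kernel

theorem l96 : (nat_lit 1589) + L96.length = (nat_lit 1591) := by decide +kernel

end Pool.Agent.H93.Neg.N18_8_0
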