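import Pool.Agent.H93.Neg.Fin
import Pool.Agent.H93.Neg.PrfN18_2_8_0
import Pool.Agent.H93.Neg.PrfN18_4_0_0
import Pool.Agent.H93.Neg.PrfN18_4_0_1
import Pool.Agent.H93.Neg.PrfN18_4_4_0
import Pool.Agent.H93.Neg.PrfN18_4_8_0
import Pool.Agent.H93.Neg.PrfN18_6_0_0
import Pool.Agent.H93.Neg.PrfN18_6_0_1
import Pool.Agent.H93.Neg.PrfN18_6_0_2
import Pool.Agent.H93.Neg.PrfN18_6_0_3
import Pool.Agent.H93.Neg.PrfN18_6_4_0
import Pool.Agent.H93.Neg.PrfN18_6_4_1
import Pool.Agent.H93.Neg.PrfN18_6_4_2
import Pool.Agent.H93.Neg.PrfN18_8_0_0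
import Pool.Agent.H93.Neg.PrfN18_8_0_1
import Pool.Agent.H93.Neg.PrfN18_8_0_2
import Pool.Agent.H93.Neg.PrfN18_8_0_3

/-!
The cases for degree 3 and order 18.
-/

set_option autoImplicit false
set_option maxRecDepth 100000
set_option linter.all false

namespace Pool.Agent.H93.Neg

namespace N18_2_0

open Finset Classical

/-- degree, order and types -/
def C : Cl := ⟨nat_lit 3,nat_lit 18,[nat_lit 3,nat_lit 7,nat_lit 4,nat_lit 0]⟩

/-- the numbers of vertices of each type -/
def R : ℕ := nat_lit 139278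

/-- part of the table -/
noncomputable def T0 : Tr := (lf (nat_lit 1) (nat_lit 3))

/-- the table -/
noncomputable def T : Tr := T0

/-- part of the certificates -/
def L0 : List Prf := [(.br (nat_lit 0) (nat_lit 0) (.cons (.br (nat_lit 0) (nat_lit 0) (.cons (.br (nat_lit 0) (nat_lit 1) (.cons (.br (nat_lit 1) (nat_lit 1) (.cons (.br (nat_lit 2) (nat_lit 1) (.cons (.kr (nat_lit 1) (nat_lit 16777216) (nat_lit 0) (nat_lit 1)) .nil)) .nil)) .nil)) .nil)) .nil))]

theorem c0 : chkAll C T R L0 (nat_lit 0) = true := by decide +kernel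

theorem l0 : (nat_lit 0) + L0.length = (nat_lit 1) := by decide +kernel

theorem r : isRoot (T.get (nat_lit 0)) (nat_lit 3) = true := by decide +kernel

theorem no {V : Type} [Fintype V] {Nb : V → Finset V} {x : V → ℤ} (H : Hyp C Nb x)
    (hR : ∀ t, (univ.filter (fun w => ty Nb x w = t)).card ≤ R / 16 ^ t % 16) (v : V)
    (hv : ty Nb x v = 3) : False := by
  have h0 : ∀ i < (nat_lit 0), ∀ φ, ¬ PEmb Nb x (T.get i) φ := fun i hi => absurd hi (Nat.not_lt_zero i)
  have h1 := chkAll_sound H hR c0 h0
  rw [l0] at h1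
  exact no_root h1 (Nat.lt_succ_self (nat_lit 0)) r v hv

end N18_2_0

namespace N18_2_4

open Finset Classical

/-- degree, order and types -/
def C : Cl := ⟨nat_lit 3,nat_lit 18,[nat_lit 3,nat_lit 7,nat_lit 4,nat_lit 0]⟩

/-- the numbers of vertices of each type -/
def R : ℕ := nat_lit 1073881098

/-- part of the table -/
noncomputable def T0 : Tr := (.node (.node (lf (nat_lit 4) (nat_lit 14167100293036399133479)) (lf (nat_lit 1) (nat_lit 3))) (lf (nat_lit 8) (nat_lit 1122436557980619549519651281573631371203517138077719)))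

/-- the table -/
noncomputable def T : Tr := T0

/-- part of the certificates -/
def L0 : List Prf := [(.br (nat_lit 2) (nat_lit 1) (.cons (.br (nat_lit 3) (nat_lit 1) (.cons (.br (nat_lit 4) (nat_lit 1) (.cons (.br (nat_lit 5) (nat_lit 1) .nil) .nil)) (.cons (.br (nat_lit 4) (nat_lit 1) (.cons (.br (nat_lit 4) (nat_lit 1) .nil) .nil)) .nil))) .nil)),
 (.br (nat_lit 5) (nat_lit 1) (.cons (.kr (nat_lit 1099511627777) (nat_lit 4311744512) (nat_lit 0) (nat_lit 1)) .nil)),
 (.br (nat_lit 0) (nat_lit 0) (.cons (.br (nat_lit 0) (nat_lit 0) (.cons (.br (nat_lit 1) (nat_lit 1) (.cons (.br (nat_lit 2) (nat_lit 1) (.cons (.br (nat_lit 0) (nat_lit 1) (.cons (.kr (nat_lit 1) (nat_lit 16777216) (nat_lit 0) (nat_lit 1)) (.cons (.br (nat_lit 3) (nat_lit 1) (.cons (.br (nat_lit 4) (nat_lit 1) (.cons (.br (nat_lit 5) (nat_lit 1) (.cons (.br (nat_lit 6) (nat_lit 1) (.cons (.br (nat_lit 6) (nat_lit 1) .nil) .nil)) .nil)) .nil)) (.cons (.br (nat_lit 4) (nat_lit 1) (.cons (.rf (nat_lit 0) (nat_lit 168032)) (.cons (.br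 (nat_lit 4) (nat_lit 1) (.cons (.rf (nat_lit 0) (nat_lit 168032)) (.cons (.br (nat_lit 5) (nat_lit 1) (.cons (.rf (nat_lit 1) (nat_lit 247132686368)) (.cons (.rf (nat_lit 1) (nat_lit 213846689824)) .nil))) .nil))) .nil))) .nil))) .nil))) .nil)) .nil)) .nil)) .nil))]

theorem c0 : chkAll C T R L0 (nat_lit 0) = true := by decide +kernel

theorem l0 : (nat_lit 0) + L0.length = (nat_lit 3) := by decide +kernel

theorem r : isRoot (T.get (nat_lit 2)) (nat_lit 3) = true := by decide +kernel

theorem no {V : Type} [Fintype V] {Nb : V → Finset V} {x : V → ℤ} (H : Hyp C Nb x)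
    (hR : ∀ t, (univ.filter (fun w => ty Nb x w = t)).card ≤ R / 16 ^ t % 16) (v : V)
    (hv : ty Nb x v = 3) : False := by
  have h0 : ∀ i < (nat_lit 0), ∀ φ, ¬ PEmb Nb x (T.get i) φ := fun i hi => absurd hi (Nat.not_lt_zero i)
  have h1 := chkAll_sound H hR c0 h0
  rw [l0] at h1
  exact no_root h1 (Nat.lt_succ_self (nat_lit 2)) r v hv

end N18_2_4

namespace N18_2_8

open Finset Classical

theorem r : isRoot (T.get (nat_lit 110)) (nat_lit 3) = true := by decide +kernel

theorem no {V : Type} [Fintype V] {Nb : V → Finset V} {x : V → ℤ} (H : Hyp C Nb x)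
    (hR : ∀ t, (univ.filter (fun w => ty Nb x w = t)).card ≤ R / 16 ^ t % 16) (v : V)
    (hv : ty Nb x v = 3) : False := by
  have h0 : ∀ i < (nat_lit 0), ∀ φ, ¬ PEmb Nb x (T.get i) φ := fun i hi => absurd hi (Nat.not_lt_zero i)
  have h1 := chkAll_sound H hR c0 h0
  rw [l0] at h1
  have h2 := chkAll_sound H hR c1 h1
  rw [l1] at h2
  have h3 := chkAll_sound H hR c2 h2
  rw [l2] at h3
  have h4 := chkAll_sound H hR c3 h3
  rw [l3] at h4
  exact no_root h4 (Nat.lt_succ_self (nat_lit 110)) r v hv

end N18_2_8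

namespace N18_2_12

open Finset Classical

/-- degree, order and types -/
def C : Cl := ⟨nat_lit 3,nat_lit 18,[nat_lit 3,nat_lit 7,nat_lit 4,nat_lit 0]⟩

/-- the numbers of vertices of each type -/
def R : ℕ := nat_lit 3221364738

/-- part of the table -/
noncomputable def T0 : Tr := (lf (nat_lit 1) (nat_lit 3))

/-- the table -/
noncomputable def T : Tr := T0

/-- part of the certificates -/
def L0 : List Prf := [(.br (nat_lit 0) (nat_lit 0) (.cons (.br (nat_lit 0) (nat_lit 0) (.cons (.br (nat_lit 1) (nat_lit 1) (.cons (.br (nat_lit 2) (nat_lit 1) (.cons (.br (nat_lit 1) (nat_lit 0) (.cons (.kr (nat_lit 256) (nat_lit 65536) (nat_lit 1) (nat_lit 0)) (.cons (.br (nat_lit 2) (nat_lit 0) (.cons (.br (nat_lit 4) (nat_lit 0) (.cons (.br (nat_lit 5) (nat_lit 0) .nil) .nil)) (.cons (.br (nat_lit 4) (nat_lit 0) (.cons (.br (nat_lit 4) (nat_lit 0) .nil) .nil)) .nil))) .nil))) .nil)) .nil)) .nil)) .nil))]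

theorem c0 : chkAll C T R L0 (nat_lit 0) = true := by decide +kernel

theorem l0 : (nat_lit 0) + L0.length = (nat_lit 1) := by decide +kernel

theorem r : isRoot (T.get (nat_lit 0)) (nat_lit 3) = true := by decide +kernel

theorem no {V : Type} [Fintype V] {Nb : V → Finset V} {x : V → ℤ} (H : Hyp C Nb x)
    (hR : ∀ t, (univ.filter (fun w => ty Nb x w = t)).card ≤ R / 16 ^ t % 16) (v : V)
    (hv : ty Nb x v = 3) : False := by
  have h0 : ∀ i < (nat_lit 0), ∀ φ, ¬ PEmb Nb x (T.get i) φ := fun i hi => absurd hi (Nat.not_lt_zero i)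
  have h1 := chkAll_sound H hR c0 h0
  rw [l0] at h1
  exact no_root h1 (Nat.lt_succ_self (nat_lit 0)) r v hv

end N18_2_12

namespace N18_4_0

open Finset Classical

theorem r : isRoot (T.get (nat_lit 920)) (nat_lit 3) = true := by decide +kernel

theorem no {V : Type} [Fintype V] {Nb : V → Finset V} {x : V → ℤ} (H : Hyp C Nb x)
    (hR : ∀ t, (univ.filter (fun w => ty Nb x w = t)).card ≤ R / 16 ^ t % 16) (v : V)
    (hv : ty Nb x v = 3) : False := by
  have h0 : ∀ i < (nat_lit 0), ∀ φ, ¬ PEmb Nb x (T.get i) φ := fun i hi => absurd hi (Nat.not_lt_zero i)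
  have h1 := chkAll_sound H hR c0 h0
  rw [l0] at h1
  have h2 := chkAll_sound H hR c1 h1
  rw [l1] at h2
  have h3 := chkAll_sound H hR c2 h2
  rw [l2] at h3
  have h4 := chkAll_sound H hR c3 h3
  rw [l3] at h4
  have h5 := chkAll_sound H hR c4 h4
  rw [l4] at h5
  have h6 := chkAll_sound H hR c5 h5
  rw [l5] at h6
  have h7 := chkAll_sound H hR c6 h6
  rw [l6] at h7
  have h8 := chkAll_sound H hR c7 h7
  rw [l7] at h8
  have h9 := chkAll_sound H hR c8 h8
  rw [l8] at h9
  have h10 := chkAll_sound H hR c9 h9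
  rw [l9] at h10
  have h11 := chkAll_sound H hR c10 h10
  rw [l10] at h11
  have h12 := chkAll_sound H hR c11 h11
  rw [l11] at h12
  have h13 := chkAll_sound H hR c12 h12
  rw [l12] at h13
  have h14 := chkAll_sound H hR c13 h13
  rw [l13] at h14
  have h15 := chkAll_sound H hR c14 h14
  rw [l14] at h15
  have h16 := chkAll_sound H hR c15 h15
  rw [l15] at h16
  have h17 := chkAll_sound H hR c16 h16
  rw [l16] at h17
  have h18 := chkAll_sound H hR c17 h17
  rw [l17] at h18
  have h19 := chkAll_sound H hR c18 h18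
  rw [l18] at h19
  have h20 := chkAll_sound H hR c19 h19
  rw [l19] at h20
  have h21 := chkAll_sound H hR c20 h20
  rw [l20] at h21
  have h22 := chkAll_sound H hR c21 h21
  rw [l21] at h22
  have h23 := chkAll_sound H hR c22 h22
  rw [l22] at h23
  have h24 := chkAll_sound H hR c23 h23
  rw [l23] at h24
  have h25 := chkAll_sound H hR c24 h24
  rw [l24] at h25
  have h26 := chkAll_sound H hR c25 h25
  rw [l25] at h26
  have h27 := chkAll_sound H hR c26 h26
  rw [l26] at h27
  have h28 := chkAll_sound H hR c27 h27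
  rw [l27] at h28
  have h29 := chkAll_sound H hR c28 h28
  rw [l28] at h29
  have h30 := chkAll_sound H hR c29 h29
  rw [l29] at h30
  have h31 := chkAll_sound H hR c30 h30
  rw [l30] at h31
  have h32 := chkAll_sound H hR c31 h31
  rw [l31] at h32
  have h33 := chkAll_sound H hR c32 h32
  rw [l32] at h33
  have h34 := chkAll_sound H hR c33 h33
  rw [l33] at h34
  have h35 := chkAll_sound H hR c34 h34
  rw [l34] at h35
  exact no_root h35 (Nat.lt_succ_self (nat_lit 920)) r v hv

end N18_4_0

namespace N18_4_4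

open Finset Classical

theorem r : isRoot (T.get (nat_lit 361)) (nat_lit 3) = true := by decide +kernel

theorem no {V : Type} [Fintype V] {Nb : V → Finset V} {x : V → ℤ} (H : Hyp C Nb x)
    (hR : ∀ t, (univ.filter (fun w => ty Nb x w = t)).card ≤ R / 16 ^ t % 16) (v : V)
    (hv : ty Nb x v = 3) : False := by
  have h0 : ∀ i < (nat_lit 0), ∀ φ, ¬ PEmb Nb x (T.get i) φ := fun i hi => absurd hi (Nat.not_lt_zero i)
  have h1 := chkAll_sound H hR c0 h0
  rw [l0] at h1
  have h2 := chkAll_sound H hR c1 h1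
  rw [l1] at h2
  have h3 := chkAll_sound H hR c2 h2
  rw [l2] at h3
  have h4 := chkAll_sound H hR c3 h3
  rw [l3] at h4
  have h5 := chkAll_sound H hR c4 h4
  rw [l4] at h5
  have h6 := chkAll_sound H hR c5 h5
  rw [l5] at h6
  have h7 := chkAll_sound H hR c6 h6
  rw [l6] at h7
  have h8 := chkAll_sound H hR c7 h7
  rw [l7] at h8
  have h9 := chkAll_sound H hR c8 h8
  rw [l8] at h9
  have h10 := chkAll_sound H hR c9 h9
  rw [l9] at h10
  have h11 := chkAll_sound H hR c10 h10
  rw [l10] at h11
  exact no_root h11 (Nat.lt_succ_self (nat_lit 361)) r v hv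

end N18_4_4

namespace N18_4_8

open Finset Classical

theorem r : isRoot (T.get (nat_lit 824)) (nat_lit 0) = true := by decide +kernel

theorem no {V : Type} [Fintype V] {Nb : V → Finset V} {x : V → ℤ} (H : Hyp C Nb x)
    (hR : ∀ t, (univ.filter (fun w => ty Nb x w = t)).card ≤ R / 16 ^ t % 16) (v : V)
    (hv : ty Nb x v = 0) : False := by
  have h0 : ∀ i < (nat_lit 0), ∀ φ, ¬ PEmb Nb x (T.get i) φ := fun i hi => absurd hi (Nat.not_lt_zero i)
  have h1 := chkAll_sound H hR c0 h0
  rw [l0] at h1
  have h2 := chkAll_sound H hR c1 h1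
  rw [l1] at h2
  have h3 := chkAll_sound H hR c2 h2
  rw [l2] at h3
  have h4 := chkAll_sound H hR c3 h3
  rw [l3] at h4
  have h5 := chkAll_sound H hR c4 h4
  rw [l4] at h5
  have h6 := chkAll_sound H hR c5 h5
  rw [l5] at h6
  have h7 := chkAll_sound H hR c6 h6
  rw [l6] at h7
  have h8 := chkAll_sound H hR c7 h7
  rw [l7] at h8
  have h9 := chkAll_sound H hR c8 h8
  rw [l8] at h9
  have h10 := chkAll_sound H hR c9 h9
  rw [l9] at h10
  have h11 := chkAll_sound H hR c10 h10
  rw [l10] at h11
  have h12 := chkAll_sound H hR c11 h11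
  rw [l11] at h12
  have h13 := chkAll_sound H hR c12 h12
  rw [l12] at h13
  have h14 := chkAll_sound H hR c13 h13
  rw [l13] at h14
  have h15 := chkAll_sound H hR c14 h14
  rw [l14] at h15
  have h16 := chkAll_sound H hR c15 h15
  rw [l15] at h16
  have h17 := chkAll_sound H hR c16 h16
  rw [l16] at h17
  have h18 := chkAll_sound H hR c17 h17
  rw [l17] at h18
  have h19 := chkAll_sound H hR c18 h18
  rw [l18] at h19
  have h20 := chkAll_sound H hR c19 h19
  rw [l19] at h20
  have h21 := chkAll_sound H hR c20 h20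
  rw [l20] at h21
  have h22 := chkAll_sound H hR c21 h21
  rw [l21] at h22
  have h23 := chkAll_sound H hR c22 h22
  rw [l22] at h23
  have h24 := chkAll_sound H hR c23 h23
  rw [l23] at h24
  have h25 := chkAll_sound H hR c24 h24
  rw [l24] at h25
  have h26 := chkAll_sound H hR c25 h25
  rw [l25] at h26
  have h27 := chkAll_sound H hR c26 h26
  rw [l26] at h27
  have h28 := chkAll_sound H hR c27 h27
  rw [l27] at h28
  have h29 := chkAll_sound H hR c28 h28
  rw [l28] at h29
  exact no_root h29 (Nat.lt_succ_self (nat_lit 824)) r v hv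

end N18_4_8

namespace N18_6_0

open Finset Classical

theorem r : isRoot (T.get (nat_lit 2354)) (nat_lit 3) = true := by decide +kernel

theorem no {V : Type} [Fintype V] {Nb : V → Finset V} {x : V → ℤ} (H : Hyp C Nb x)
    (hR : ∀ t, (univ.filter (fun w => ty Nb x w = t)).card ≤ R / 16 ^ t % 16) (v : V)
    (hv : ty Nb x v = 3) : False := by
  have h0 : ∀ i < (nat_lit 0), ∀ φ, ¬ PEmb Nb x (T.get i) φ := fun i hi => absurd hi (Nat.not_lt_zero i)
  have h1 := chkAll_sound H hR c0 h0
  rw [l0] at h1
  have h2 := chkAll_sound H hR c1 h1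
  rw [l1] at h2
  have h3 := chkAll_sound H hR c2 h2
  rw [l2] at h3
  have h4 := chkAll_sound H hR c3 h3
  rw [l3] at h4
  have h5 := chkAll_sound H hR c4 h4
  rw [l4] at h5
  have h6 := chkAll_sound H hR c5 h5
  rw [l5] at h6
  have h7 := chkAll_sound H hR c6 h6
  rw [l6] at h7
  have h8 := chkAll_sound H hR c7 h7
  rw [l7] at h8
  have h9 := chkAll_sound H hR c8 h8
  rw [l8] at h9
  have h10 := chkAll_sound H hR c9 h9
  rw [l9] at h10
  have h11 := chkAll_sound H hR c10 h10
  rw [l10] at h11
  have h12 := chkAll_sound H hR c11 h11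
  rw [l11] at h12
  have h13 := chkAll_sound H hR c12 h12
  rw [l12] at h13
  have h14 := chkAll_sound H hR c13 h13
  rw [l13] at h14
  have h15 := chkAll_sound H hR c14 h14
  rw [l14] at h15
  have h16 := chkAll_sound H hR c15 h15
  rw [l15] at h16
  have h17 := chkAll_sound H hR c16 h16
  rw [l16] at h17
  have h18 := chkAll_sound H hR c17 h17
  rw [l17] at h18
  have h19 := chkAll_sound H hR c18 h18
  rw [l18] at h19
  have h20 := chkAll_sound H hR c19 h19
  rw [l19] at h20
  have h21 := chkAll_sound H hR c20 h20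
  rw [l20] at h21
  have h22 := chkAll_sound H hR c21 h21
  rw [l21] at h22
  have h23 := chkAll_sound H hR c22 h22
  rw [l22] at h23
  have h24 := chkAll_sound H hR c23 h23
  rw [l23] at h24
  have h25 := chkAll_sound H hR c24 h24
  rw [l24] at h25
  have h26 := chkAll_sound H hR c25 h25
  rw [l25] at h26
  have h27 := chkAll_sound H hR c26 h26
  rw [l26] at h27
  have h28 := chkAll_sound H hR c27 h27
  rw [l27] at h28
  have h29 := chkAll_sound H hR c28 h28
  rw [l28] at h29
  have h30 := chkAll_sound H hR c29 h29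
  rw [l29] at h30
  have h31 := chkAll_sound H hR c30 h30
  rw [l30] at h31
  have h32 := chkAll_sound H hR c31 h31
  rw [l31] at h32
  have h33 := chkAll_sound H hR c32 h32
  rw [l32] at h33
  have h34 := chkAll_sound H hR c33 h33
  rw [l33] at h34
  have h35 := chkAll_sound H hR c34 h34
  rw [l34] at h35
  have h36 := chkAll_sound H hR c35 h35
  rw [l35] at h36
  have h37 := chkAll_sound H hR c36 h36
  rw [l36] at h37
  have h38 := chkAll_sound H hR c37 h37
  rw [l37] at h38
  have h39 := chkAll_sound H hR c38 h38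
  rw [l38] at h39
  have h40 := chkAll_sound H hR c39 h39
  rw [l39] at h40
  have h41 := chkAll_sound H hR c40 h40
  rw [l40] at h41
  have h42 := chkAll_sound H hR c41 h41
  rw [l41] at h42
  have h43 := chkAll_sound H hR c42 h42
  rw [l42] at h43
  have h44 := chkAll_sound H hR c43 h43
  rw [l43] at h44
  have h45 := chkAll_sound H hR c44 h44
  rw [l44] at h45
  have h46 := chkAll_sound H hR c45 h45
  rw [l45] at h46
  have h47 := chkAll_sound H hR c46 h46
  rw [l46] at h47
  have h48 := chkAll_sound H hR c47 h47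
  rw [l47] at h48
  have h49 := chkAll_sound H hR c48 h48
  rw [l48] at h49
  have h50 := chkAll_sound H hR c49 h49
  rw [l49] at h50
  have h51 := chkAll_sound H hR c50 h50
  rw [l50] at h51
  have h52 := chkAll_sound H hR c51 h51
  rw [l51] at h52
  have h53 := chkAll_sound H hR c52 h52
  rw [l52] at h53
  have h54 := chkAll_sound H hR c53 h53
  rw [l53] at h54
  have h55 := chkAll_sound H hR c54 h54
  rw [l54] at h55
  have h56 := chkAll_sound H hR c55 h55
  rw [l55] at h56
  have h57 := chkAll_sound H hR c56 h56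
  rw [l56] at h57
  have h58 := chkAll_sound H hR c57 h57
  rw [l57] at h58
  have h59 := chkAll_sound H hR c58 h58
  rw [l58] at h59
  have h60 := chkAll_sound H hR c59 h59
  rw [l59] at h60
  have h61 := chkAll_sound H hR c60 h60
  rw [l60] at h61
  have h62 := chkAll_sound H hR c61 h61
  rw [l61] at h62
  have h63 := chkAll_sound H hR c62 h62
  rw [l62] at h63
  have h64 := chkAll_sound H hR c63 h63
  rw [l63] at h64
  have h65 := chkAll_sound H hR c64 h64
  rw [l64] at h65
  have h66 := chkAll_sound H hR c65 h65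
  rw [l65] at h66
  have h67 := chkAll_sound H hR c66 h66
  rw [l66] at h67
  have h68 := chkAll_sound H hR c67 h67
  rw [l67] at h68
  have h69 := chkAll_sound H hR c68 h68
  rw [l68] at h69
  have h70 := chkAll_sound H hR c69 h69
  rw [l69] at h70
  have h71 := chkAll_sound H hR c70 h70
  rw [l70] at h71
  have h72 := chkAll_sound H hR c71 h71
  rw [l71] at h72
  have h73 := chkAll_sound H hR c72 h72
  rw [l72] at h73
  have h74 := chkAll_sound H hR c73 h73
  rw [l73] at h74
  have h75 := chkAll_sound H hR c74 h74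
  rw [l74] at h75
  have h76 := chkAll_sound H hR c75 h75
  rw [l75] at h76
  have h77 := chkAll_sound H hR c76 h76
  rw [l76] at h77
  have h78 := chkAll_sound H hR c77 h77
  rw [l77] at h78
  have h79 := chkAll_sound H hR c78 h78
  rw [l78] at h79
  have h80 := chkAll_sound H hR c79 h79
  rw [l79] at h80
  have h81 := chkAll_sound H hR c80 h80
  rw [l80] at h81
  have h82 := chkAll_sound H hR c81 h81
  rw [l81] at h82
  have h83 := chkAll_sound H hR c82 h82
  rw [l82] at h83
  have h84 := chkAll_sound H hR c83 h83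
  rw [l83] at h84
  have h85 := chkAll_sound H hR c84 h84
  rw [l84] at h85
  have h86 := chkAll_sound H hR c85 h85
  rw [l85] at h86
  have h87 := chkAll_sound H hR c86 h86
  rw [l86] at h87
  have h88 := chkAll_sound H hR c87 h87
  rw [l87] at h88
  have h89 := chkAll_sound H hR c88 h88
  rw [l88] at h89
  have h90 := chkAll_sound H hR c89 h89
  rw [l89] at h90
  have h91 := chkAll_sound H hR c90 h90
  rw [l90] at h91
  have h92 := chkAll_sound H hR c91 h91
  rw [l91] at h92
  exact no_root h92 (Nat.lt_succ_self (nat_lit 2354)) r v hv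

end N18_6_0

namespace N18_6_4

open Finset Classical

theorem r : isRoot (T.get (nat_lit 1246)) (nat_lit 0) = true := by decide +kernel

theorem no {V : Type} [Fintype V] {Nb : V → Finset V} {x : V → ℤ} (H : Hyp C Nb x)
    (hR : ∀ t, (univ.filter (fun w => ty Nb x w = t)).card ≤ R / 16 ^ t % 16) (v : V)
    (hv : ty Nb x v = 0) : False := by
  have h0 : ∀ i < (nat_lit 0), ∀ φ, ¬ PEmb Nb x (T.get i) φ := fun i hi => absurd hi (Nat.not_lt_zero i)
  have h1 := chkAll_sound H hR c0 h0
  rw [l0] at h1
  have h2 := chkAll_sound H hR c1 h1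
  rw [l1] at h2
  have h3 := chkAll_sound H hR c2 h2
  rw [l2] at h3
  have h4 := chkAll_sound H hR c3 h3
  rw [l3] at h4
  have h5 := chkAll_sound H hR c4 h4
  rw [l4] at h5
  have h6 := chkAll_sound H hR c5 h5
  rw [l5] at h6
  have h7 := chkAll_sound H hR c6 h6
  rw [l6] at h7
  have h8 := chkAll_sound H hR c7 h7
  rw [l7] at h8
  have h9 := chkAll_sound H hR c8 h8
  rw [l8] at h9
  have h10 := chkAll_sound H hR c9 h9
  rw [l9] at h10
  have h11 := chkAll_sound H hR c10 h10
  rw [l10] at h11
  have h12 := chkAll_sound H hR c11 h11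
  rw [l11] at h12
  have h13 := chkAll_sound H hR c12 h12
  rw [l12] at h13
  have h14 := chkAll_sound H hR c13 h13
  rw [l13] at h14
  have h15 := chkAll_sound H hR c14 h14
  rw [l14] at h15
  have h16 := chkAll_sound H hR c15 h15
  rw [l15] at h16
  have h17 := chkAll_sound H hR c16 h16
  rw [l16] at h17
  have h18 := chkAll_sound H hR c17 h17
  rw [l17] at h18
  have h19 := chkAll_sound H hR c18 h18
  rw [l18] at h19
  have h20 := chkAll_sound H hR c19 h19
  rw [l19] at h20
  have h21 := chkAll_sound H hR c20 h20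
  rw [l20] at h21
  have h22 := chkAll_sound H hR c21 h21
  rw [l21] at h22
  have h23 := chkAll_sound H hR c22 h22
  rw [l22] at h23
  have h24 := chkAll_sound H hR c23 h23
  rw [l23] at h24
  have h25 := chkAll_sound H hR c24 h24
  rw [l24] at h25
  have h26 := chkAll_sound H hR c25 h25
  rw [l25] at h26
  have h27 := chkAll_sound H hR c26 h26
  rw [l26] at h27
  have h28 := chkAll_sound H hR c27 h27
  rw [l27] at h28
  have h29 := chkAll_sound H hR c28 h28
  rw [l28] at h29
  have h30 := chkAll_sound H hR c29 h29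
  rw [l29] at h30
  have h31 := chkAll_sound H hR c30 h30
  rw [l30] at h31
  have h32 := chkAll_sound H hR c31 h31
  rw [l31] at h32
  have h33 := chkAll_sound H hR c32 h32
  rw [l32] at h33
  have h34 := chkAll_sound H hR c33 h33
  rw [l33] at h34
  have h35 := chkAll_sound H hR c34 h34
  rw [l34] at h35
  have h36 := chkAll_sound H hR c35 h35
  rw [l35] at h36
  have h37 := chkAll_sound H hR c36 h36
  rw [l36] at h37
  have h38 := chkAll_sound H hR c37 h37
  rw [l37] at h38
  have h39 := chkAll_sound H hR c38 h38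
  rw [l38] at h39
  have h40 := chkAll_sound H hR c39 h39
  rw [l39] at h40
  have h41 := chkAll_sound H hR c40 h40
  rw [l40] at h41
  have h42 := chkAll_sound H hR c41 h41
  rw [l41] at h42
  have h43 := chkAll_sound H hR c42 h42
  rw [l42] at h43
  have h44 := chkAll_sound H hR c43 h43
  rw [l43] at h44
  have h45 := chkAll_sound H hR c44 h44
  rw [l44] at h45
  have h46 := chkAll_sound H hR c45 h45
  rw [l45] at h46
  have h47 := chkAll_sound H hR c46 h46
  rw [l46] at h47
  have h48 := chkAll_sound H hR c47 h47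
  rw [l47] at h48
  have h49 := chkAll_sound H hR c48 h48
  rw [l48] at h49
  have h50 := chkAll_sound H hR c49 h49
  rw [l49] at h50
  have h51 := chkAll_sound H hR c50 h50
  rw [l50] at h51
  have h52 := chkAll_sound H hR c51 h51
  rw [l51] at h52
  have h53 := chkAll_sound H hR c52 h52
  rw [l52] at h53
  have h54 := chkAll_sound H hR c53 h53
  rw [l53] at h54
  have h55 := chkAll_sound H hR c54 h54
  rw [l54] at h55
  have h56 := chkAll_sound H hR c55 h55
  rw [l55] at h56
  exact no_root h56 (Nat.lt_succ_self (nat_lit 1246)) r v hv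

end N18_6_4

namespace N18_8_0

open Finset Classical

theorem r : isRoot (T.get (nat_lit 1590)) (nat_lit 3) = true := by decide +kernel

theorem no {V : Type} [Fintype V] {Nb : V → Finset V} {x : V → ℤ} (H : Hyp C Nb x)
    (hR : ∀ t, (univ.filter (fun w => ty Nb x w = t)).card ≤ R / 16 ^ t % 16) (v : V)
    (hv : ty Nb x v = 3) : False := by
  have h0 : ∀ i < (nat_lit 0), ∀ φ, ¬ PEmb Nb x (T.get i) φ := fun i hi => absurd hi (Nat.not_lt_zero i)
  have h1 := chkAll_sound H hR c0 h0
  rw [l0] at h1
  have h2 := chkAll_sound H hR c1 h1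
  rw [l1] at h2
  have h3 := chkAll_sound H hR c2 h2
  rw [l2] at h3
  have h4 := chkAll_sound H hR c3 h3
  rw [l3] at h4
  have h5 := chkAll_sound H hR c4 h4
  rw [l4] at h5
  have h6 := chkAll_sound H hR c5 h5
  rw [l5] at h6
  have h7 := chkAll_sound H hR c6 h6
  rw [l6] at h7
  have h8 := chkAll_sound H hR c7 h7
  rw [l7] at h8
  have h9 := chkAll_sound H hR c8 h8
  rw [l8] at h9
  have h10 := chkAll_sound H hR c9 h9
  rw [l9] at h10
  have h11 := chkAll_sound H hR c10 h10
  rw [l10] at h11
  have h12 := chkAll_sound H hR c11 h11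
  rw [l11] at h12
  have h13 := chkAll_sound H hR c12 h12
  rw [l12] at h13
  have h14 := chkAll_sound H hR c13 h13
  rw [l13] at h14
  have h15 := chkAll_sound H hR c14 h14
  rw [l14] at h15
  have h16 := chkAll_sound H hR c15 h15
  rw [l15] at h16
  have h17 := chkAll_sound H hR c16 h16
  rw [l16] at h17
  have h18 := chkAll_sound H hR c17 h17
  rw [l17] at h18
  have h19 := chkAll_sound H hR c18 h18
  rw [l18] at h19
  have h20 := chkAll_sound H hR c19 h19
  rw [l19] at h20
  have h21 := chkAll_sound H hR c20 h20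
  rw [l20] at h21
  have h22 := chkAll_sound H hR c21 h21
  rw [l21] at h22
  have h23 := chkAll_sound H hR c22 h22
  rw [l22] at h23
  have h24 := chkAll_sound H hR c23 h23
  rw [l23] at h24
  have h25 := chkAll_sound H hR c24 h24
  rw [l24] at h25
  have h26 := chkAll_sound H hR c25 h25
  rw [l25] at h26
  have h27 := chkAll_sound H hR c26 h26
  rw [l26] at h27
  have h28 := chkAll_sound H hR c27 h27
  rw [l27] at h28
  have h29 := chkAll_sound H hR c28 h28
  rw [l28] at h29
  have h30 := chkAll_sound H hR c29 h29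
  rw [l29] at h30
  have h31 := chkAll_sound H hR c30 h30
  rw [l30] at h31
  have h32 := chkAll_sound H hR c31 h31
  rw [l31] at h32
  have h33 := chkAll_sound H hR c32 h32
  rw [l32] at h33
  have h34 := chkAll_sound H hR c33 h33
  rw [l33] at h34
  have h35 := chkAll_sound H hR c34 h34
  rw [l34] at h35
  have h36 := chkAll_sound H hR c35 h35
  rw [l35] at h36
  have h37 := chkAll_sound H hR c36 h36
  rw [l36] at h37
  have h38 := chkAll_sound H hR c37 h37
  rw [l37] at h38
  have h39 := chkAll_sound H hR c38 h38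
  rw [l38] at h39
  have h40 := chkAll_sound H hR c39 h39
  rw [l39] at h40
  have h41 := chkAll_sound H hR c40 h40
  rw [l40] at h41
  have h42 := chkAll_sound H hR c41 h41
  rw [l41] at h42
  have h43 := chkAll_sound H hR c42 h42
  rw [l42] at h43
  have h44 := chkAll_sound H hR c43 h43
  rw [l43] at h44
  have h45 := chkAll_sound H hR c44 h44
  rw [l44] at h45
  have h46 := chkAll_sound H hR c45 h45
  rw [l45] at h46
  have h47 := chkAll_sound H hR c46 h46
  rw [l46] at h47
  have h48 := chkAll_sound H hR c47 h47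
  rw [l47] at h48
  have h49 := chkAll_sound H hR c48 h48
  rw [l48] at h49
  have h50 := chkAll_sound H hR c49 h49
  rw [l49] at h50
  have h51 := chkAll_sound H hR c50 h50
  rw [l50] at h51
  have h52 := chkAll_sound H hR c51 h51
  rw [l51] at h52
  have h53 := chkAll_sound H hR c52 h52
  rw [l52] at h53
  have h54 := chkAll_sound H hR c53 h53
  rw [l53] at h54
  have h55 := chkAll_sound H hR c54 h54
  rw [l54] at h55
  have h56 := chkAll_sound H hR c55 h55
  rw [l55] at h56
  have h57 := chkAll_sound H hR c56 h56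
  rw [l56] at h57
  have h58 := chkAll_sound H hR c57 h57
  rw [l57] at h58
  have h59 := chkAll_sound H hR c58 h58
  rw [l58] at h59
  have h60 := chkAll_sound H hR c59 h59
  rw [l59] at h60
  have h61 := chkAll_sound H hR c60 h60
  rw [l60] at h61
  have h62 := chkAll_sound H hR c61 h61
  rw [l61] at h62
  have h63 := chkAll_sound H hR c62 h62
  rw [l62] at h63
  have h64 := chkAll_sound H hR c63 h63
  rw [l63] at h64
  have h65 := chkAll_sound H hR c64 h64
  rw [l64] at h65
  have h66 := chkAll_sound H hR c65 h65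
  rw [l65] at h66
  have h67 := chkAll_sound H hR c66 h66
  rw [l66] at h67
  have h68 := chkAll_sound H hR c67 h67
  rw [l67] at h68
  have h69 := chkAll_sound H hR c68 h68
  rw [l68] at h69
  have h70 := chkAll_sound H hR c69 h69
  rw [l69] at h70
  have h71 := chkAll_sound H hR c70 h70
  rw [l70] at h71
  have h72 := chkAll_sound H hR c71 h71
  rw [l71] at h72
  have h73 := chkAll_sound H hR c72 h72
  rw [l72] at h73
  have h74 := chkAll_sound H hR c73 h73
  rw [l73] at h74
  have h75 := chkAll_sound H hR c74 h74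
  rw [l74] at h75
  have h76 := chkAll_sound H hR c75 h75
  rw [l75] at h76
  have h77 := chkAll_sound H hR c76 h76
  rw [l76] at h77
  have h78 := chkAll_sound H hR c77 h77
  rw [l77] at h78
  have h79 := chkAll_sound H hR c78 h78
  rw [l78] at h79
  have h80 := chkAll_sound H hR c79 h79
  rw [l79] at h80
  have h81 := chkAll_sound H hR c80 h80
  rw [l80] at h81
  have h82 := chkAll_sound H hR c81 h81
  rw [l81] at h82
  have h83 := chkAll_sound H hR c82 h82
  rw [l82] at h83
  have h84 := chkAll_sound H hR c83 h83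
  rw [l83] at h84
  have h85 := chkAll_sound H hR c84 h84
  rw [l84] at h85
  have h86 := chkAll_sound H hR c85 h85
  rw [l85] at h86
  have h87 := chkAll_sound H hR c86 h86
  rw [l86] at h87
  have h88 := chkAll_sound H hR c87 h87
  rw [l87] at h88
  have h89 := chkAll_sound H hR c88 h88
  rw [l88] at h89
  have h90 := chkAll_sound H hR c89 h89
  rw [l89] at h90
  have h91 := chkAll_sound H hR c90 h90
  rw [l90] at h91
  have h92 := chkAll_sound H hR c91 h91
  rw [l91] at h92
  have h93 := chkAll_sound H hR c92 h92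
  rw [l92] at h93
  have h94 := chkAll_sound H hR c93 h93
  rw [l93] at h94
  have h95 := chkAll_sound H hR c94 h94
  rw [l94] at h95
  have h96 := chkAll_sound H hR c95 h95
  rw [l95] at h96
  have h97 := chkAll_sound H hR c96 h96
  rw [l96] at h97
  exact no_root h97 (Nat.lt_succ_self (nat_lit 1590)) r v hv

end N18_8_0

end Pool.Agent.H93.Neg
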