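import Pool.Agent.H93.Neg.Fin

/-!
The cases for degree 4 and order 11.
-/

set_option autoImplicit false
set_option maxRecDepth 100000
set_option linter.all false

namespace Pool.Agent.H93.Neg

namespace Q11_0_4_5_2_0

open Finset Classical

/-- degree, order and types -/
def C : Cl := ⟨nat_lit 4,nat_lit 11,[nat_lit 3,nat_lit 7,nat_lit 0,nat_lit 4,nat_lit 8]⟩

/-- the numbers of vertices of each type -/
def R : ℕ := nat_lit 1073872901

/-- part of the table -/
noncomputable def T0 : Tr := (.node (.node (lf (nat_lit 5) (nat_lit 554597836510208891788839616663)) (lf (nat_lit 1) (nat_lit 7))) (lf (nat_lit 5) (nat_lit 554597836510208891779981246615)))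

/-- the table -/
noncomputable def T : Tr := T0

/-- part of the certificates -/
def L0 : List Prf := [(.br (nat_lit 2) (nat_lit 1) (.cons (.kr (nat_lit 1) (nat_lit 65536) (nat_lit 0) (nat_lit 1)) .nil)),
 (.br (nat_lit 2) (nat_lit 1) (.cons (.rf (nat_lit 0) (nat_lit 4294688)) (.cons (.rf (nat_lit 0) (nat_lit 3278880)) .nil))),
 (.br (nat_lit 0) (nat_lit 0) (.cons (.br (nat_lit 0) (nat_lit 1) (.cons (.br (nat_lit 0) (nat_lit 1) (.cons (.br (nat_lit 0) (nat_lit 1) (.cons (.br (nat_lit 1) (nat_lit 1) (.cons (.rf (nat_lit 1) (nat_lit 4294688)) (.cons (.rf (nat_lit 1) (nat_lit 4262944)) (.cons (.rf (nat_lit 1) (nat_lit 3215392)) .nil)))) .nil)) .nil)) .nil)) .nil))]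

theorem c0 : chkAll C T R L0 (nat_lit 0) = true := by decide +kernel

theorem l0 : (nat_lit 0) + L0.length = (nat_lit 3) := by decide +kernel

theorem r : isRoot (T.get (nat_lit 2)) (nat_lit 7) = true := by decide +kernel

theorem no {V : Type} [Fintype V] {Nb : V → Finset V} {x : V → ℤ} (H : Hyp C Nb x)
    (hR : ∀ t, (univ.filter (fun w => ty Nb x w = t)).card ≤ R / 16 ^ t % 16) (v : V)
    (hv : ty Nb x v = 7) : False := by
  have h0 : ∀ i < (nat_lit 0), ∀ φ, ¬ PEmb Nb x (T.get i) φ := fun i hi => absurd hi (Nat.not_lt_zero i)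
  have h1 := chkAll_sound H hR c0 h0
  rw [l0] at h1
  exact no_root h1 (Nat.lt_succ_self (nat_lit 2)) r v hv

end Q11_0_4_5_2_0

namespace Q11_0_4_6_0_1

open Finset Classical

/-- degree, order and types -/
def C : Cl := ⟨nat_lit 4,nat_lit 11,[nat_lit 3,nat_lit 7,nat_lit 0,nat_lit 4,nat_lit 8]⟩

/-- the numbers of vertices of each type -/
def R : ℕ := nat_lit 5368709126

/-- part of the table -/
noncomputable def T0 : Tr := (lf (nat_lit 1) (nat_lit 7))

/-- the table -/
noncomputable def T : Tr := T0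

/-- part of the certificates -/
def L0 : List Prf := [(.br (nat_lit 0) (nat_lit 0) (.cons (.br (nat_lit 0) (nat_lit 1) (.cons (.br (nat_lit 0) (nat_lit 1) (.cons (.br (nat_lit 0) (nat_lit 1) (.cons (.br (nat_lit 2) (nat_lit 0) (.cons (.br (nat_lit 3) (nat_lit 0) (.cons (.br (nat_lit 1) (nat_lit 1) (.cons (.kr (nat_lit 1) (nat_lit 256) (nat_lit 0) (nat_lit 2)) .nil)) .nil)) .nil)) .nil)) .nil)) .nil)) .nil))]

theorem c0 : chkAll C T R L0 (nat_lit 0) = true := by decide +kernel

theorem l0 : (nat_lit 0) + L0.length = (nat_lit 1) := by decide +kernel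

theorem r : isRoot (T.get (nat_lit 0)) (nat_lit 7) = true := by decide +kernel

theorem no {V : Type} [Fintype V] {Nb : V → Finset V} {x : V → ℤ} (H : Hyp C Nb x)
    (hR : ∀ t, (univ.filter (fun w => ty Nb x w = t)).card ≤ R / 16 ^ t % 16) (v : V)
    (hv : ty Nb x v = 7) : False := by
  have h0 : ∀ i < (nat_lit 0), ∀ φ, ¬ PEmb Nb x (T.get i) φ := fun i hi => absurd hi (Nat.not_lt_zero i)
  have h1 := chkAll_sound H hR c0 h0
  rw [l0] at h1
  exact no_root h1 (Nat.lt_succ_self (nat_lit 0)) r v hv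

end Q11_0_4_6_0_1

namespace Q11_0_8_0_2_1

open Finset Classical

/-- degree, order and types -/
def C : Cl := ⟨nat_lit 4,nat_lit 11,[nat_lit 3,nat_lit 7,nat_lit 0,nat_lit 4,nat_lit 8]⟩

/-- the numbers of vertices of each type -/
def R : ℕ := nat_lit 6442582016

/-- part of the table -/
noncomputable def T0 : Tr := (lf (nat_lit 1) (nat_lit 4))

/-- the table -/
noncomputable def T : Tr := T0

/-- part of the certificates -/
def L0 : List Prf := [(.br (nat_lit 0) (nat_lit 0) (.cons (.br (nat_lit 0) (nat_lit 0) .nil) .nil))]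

theorem c0 : chkAll C T R L0 (nat_lit 0) = true := by decide +kernel

theorem l0 : (nat_lit 0) + L0.length = (nat_lit 1) := by decide +kernel

theorem r : isRoot (T.get (nat_lit 0)) (nat_lit 4) = true := by decide +kernel

theorem no {V : Type} [Fintype V] {Nb : V → Finset V} {x : V → ℤ} (H : Hyp C Nb x)
    (hR : ∀ t, (univ.filter (fun w => ty Nb x w = t)).card ≤ R / 16 ^ t % 16) (v : V)
    (hv : ty Nb x v = 4) : False := by
  have h0 : ∀ i < (nat_lit 0), ∀ φ, ¬ PEmb Nb x (T.get i) φ := fun i hi => absurd hi (Nat.not_lt_zero i)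
  have h1 := chkAll_sound H hR c0 h0
  rw [l0] at h1
  exact no_root h1 (Nat.lt_succ_self (nat_lit 0)) r v hv

end Q11_0_8_0_2_1

namespace Q11_0_8_1_0_2

open Finset Classical

/-- degree, order and types -/
def C : Cl := ⟨nat_lit 4,nat_lit 11,[nat_lit 3,nat_lit 7,nat_lit 0,nat_lit 4,nat_lit 8]⟩

/-- the numbers of vertices of each type -/
def R : ℕ := nat_lit 10737418241

/-- part of the table -/
noncomputable def T0 : Tr := (lf (nat_lit 1) (nat_lit 0))

/-- the table -/
noncomputable def T : Tr := T0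

/-- part of the certificates -/
def L0 : List Prf := [(.br (nat_lit 0) (nat_lit 0) .nil)]

theorem c0 : chkAll C T R L0 (nat_lit 0) = true := by decide +kernel

theorem l0 : (nat_lit 0) + L0.length = (nat_lit 1) := by decide +kernel

theorem r : isRoot (T.get (nat_lit 0)) (nat_lit 0) = true := by decide +kernel

theorem no {V : Type} [Fintype V] {Nb : V → Finset V} {x : V → ℤ} (H : Hyp C Nb x)
    (hR : ∀ t, (univ.filter (fun w => ty Nb x w = t)).card ≤ R / 16 ^ t % 16) (v : V)
    (hv : ty Nb x v = 0) : False := by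
  have h0 : ∀ i < (nat_lit 0), ∀ φ, ¬ PEmb Nb x (T.get i) φ := fun i hi => absurd hi (Nat.not_lt_zero i)
  have h1 := chkAll_sound H hR c0 h0
  rw [l0] at h1
  exact no_root h1 (Nat.lt_succ_self (nat_lit 0)) r v hv

end Q11_0_8_1_0_2

namespace Q11_2_0_6_3_0

open Finset Classical

/-- degree, order and types -/
def C : Cl := ⟨nat_lit 4,nat_lit 11,[nat_lit 3,nat_lit 7,nat_lit 0,nat_lit 4,nat_lit 8]⟩

/-- the numbers of vertices of each type -/
def R : ℕ := nat_lit 204806

/-- part of the table -/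
noncomputable def T0 : Tr := (lf (nat_lit 1) (nat_lit 3))

/-- the table -/
noncomputable def T : Tr := T0

/-- part of the certificates -/
def L0 : List Prf := [(.br (nat_lit 0) (nat_lit 0) (.cons (.br (nat_lit 0) (nat_lit 0) (.cons (.br (nat_lit 0) (nat_lit 0) (.cons (.br (nat_lit 0) (nat_lit 1) (.cons (.br (nat_lit 1) (nat_lit 1) (.cons (.br (nat_lit 2) (nat_lit 1) (.cons (.br (nat_lit 3) (nat_lit 1) (.cons (.kr (nat_lit 1) (nat_lit 4294967296) (nat_lit 0) (nat_lit 1)) .nil)) .nil)) .nil)) .nil)) .nil)) .nil)) .nil))]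

theorem c0 : chkAll C T R L0 (nat_lit 0) = true := by decide +kernel

theorem l0 : (nat_lit 0) + L0.length = (nat_lit 1) := by decide +kernel

theorem r : isRoot (T.get (nat_lit 0)) (nat_lit 3) = true := by decide +kernel

theorem no {V : Type} [Fintype V] {Nb : V → Finset V} {x : V → ℤ} (H : Hyp C Nb x)
    (hR : ∀ t, (univ.filter (fun w => ty Nb x w = t)).card ≤ R / 16 ^ t % 16) (v : V)
    (hv : ty Nb x v = 3) : False := by
  have h0 : ∀ i < (nat_lit 0), ∀ φ, ¬ PEmb Nb x (T.get i) φ := fun i hi => absurd hi (Nat.not_lt_zero i)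
  have h1 := chkAll_sound H hR c0 h0
  rw [l0] at h1
  exact no_root h1 (Nat.lt_succ_self (nat_lit 0)) r v hv

end Q11_2_0_6_3_0

namespace Q11_2_0_7_1_1

open Finset Classical

/-- degree, order and types -/
def C : Cl := ⟨nat_lit 4,nat_lit 11,[nat_lit 3,nat_lit 7,nat_lit 0,nat_lit 4,nat_lit 8]⟩

/-- the numbers of vertices of each type -/
def R : ℕ := nat_lit 4295041031

/-- part of the table -/
noncomputable def T0 : Tr := (lf (nat_lit 1) (nat_lit 8))

/-- the table -/
noncomputable def T : Tr := T0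

/-- part of the certificates -/
def L0 : List Prf := [(.br (nat_lit 0) (nat_lit 1) (.cons (.br (nat_lit 0) (nat_lit 1) (.cons (.br (nat_lit 0) (nat_lit 1) .nil) .nil)) .nil))]

theorem c0 : chkAll C T R L0 (nat_lit 0) = true := by decide +kernel

theorem l0 : (nat_lit 0) + L0.length = (nat_lit 1) := by decide +kernel

theorem r : isRoot (T.get (nat_lit 0)) (nat_lit 8) = true := by decide +kernel

theorem no {V : Type} [Fintype V] {Nb : V → Finset V} {x : V → ℤ} (H : Hyp C Nb x)
    (hR : ∀ t, (univ.filter (fun w => ty Nb x w = t)).card ≤ R / 16 ^ t % 16) (v : V)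
    (hv : ty Nb x v = 8) : False := by
  have h0 : ∀ i < (nat_lit 0), ∀ φ, ¬ PEmb Nb x (T.get i) φ := fun i hi => absurd hi (Nat.not_lt_zero i)
  have h1 := chkAll_sound H hR c0 h0
  rw [l0] at h1
  exact no_root h1 (Nat.lt_succ_self (nat_lit 0)) r v hv

end Q11_2_0_7_1_1

namespace Q11_2_4_0_5_0

open Finset Classical

/-- degree, order and types -/
def C : Cl := ⟨nat_lit 4,nat_lit 11,[nat_lit 3,nat_lit 7,nat_lit 0,nat_lit 4,nat_lit 8]⟩

/-- the numbers of vertices of each type -/
def R : ℕ := nat_lit 1074077696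

/-- part of the table -/
noncomputable def T0 : Tr := (.node (.node (.node (.node (.node (.node (lf (nat_lit 4) (nat_lit 18889507589782180462596)) (lf (nat_lit 11) (nat_lit 7067403845333633276010425038497692207435165558849357533544729977605439543))) (.node (lf (nat_lit 9) (nat_lit 25108462314924058759439251750544264877964694457392243413015)) (lf (nat_lit 4) (nat_lit 18889507589782180463011)))) (.node (.node (lf (nat_lit 10) (nat_lit 421250095685340957415579157941236359269513601019562031087781699623)) (lf (nat_lit 11) (nat_lit 7067403845333633276010425038497693568564511548146873960703956564668694583))) (.node (lf (nat_lit 11) (nat_lit 7067403845333633276207973291812437054212552440999235371836805873924161591)) (lf (nat_lit 9) (nat_lit 25108462314924058759077701653610391381590053515644953952535))))) (.node (.node (.node (lf (nat_lit 5) (nat_lit 316913348967338473391709487108)) (lf (nat_lit 10) (nat_lit 421250095685340957403804364816694678866200724758458474937572147223))) (.node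 (lf (nat_lit 10) (nat_lit 421250095685340957415579157941236317437043793487991781696575954999)) (lf (nat_lit 10) (nat_lit 421249191782637184937190598826149590474984038444705028377036197911)))) (.node (.node (lf (nat_lit 10) (nat_lit 421250095685340957397738561420861845902787908971607821486743625751)) (lf (nat_lit 11) (nat_lit 7067403845333633276010425038497690825038049942536849713585387286047080503))) (lf (nat_lit 11) (nat_lit 7067403845333633276010425050272488415785917877685339639052231323871723575))))) (.node (.node (.node (.node (lf (nat_lit 4) (nat_lit 14167100293036399133479)) (lf (nat_lit 11) (nat_lit 7067403845333633276010425044563493519038094215649513732130404857452544055))) (.node (lf (nat_lit 10) (nat_lit 421250095685340957397738562803258919686626982484267453156482359319)) (lf (nat_lit 7) (nat_lit 89203177519877594506216255077782501009129751)))) (.node (.node (lf (nat_lit 10) (nat_lit 421250095685340957403804364816694639569010220069889400930100600871)) (lf (nat_lit 11)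 (nat_lit 7067403845333633276010425038497693568564879166822149073050005237772959799))) (.node (lf (nat_lit 11) (nat_lit 7067403845333633276010425050272488415785917877644160605631954351302934551)) (lf (nat_lit 3) (nat_lit 1125902389870867))))) (.node (.node (.node (lf (nat_lit 10) (nat_lit 421250095685340957403804365497259373410883520220909154163023159319)) (lf (nat_lit 11) (nat_lit 7067403845333633276010425050272487033388884658623085469912591870107697207))) (.node (lf (nat_lit 11) (nat_lit 7067403845333633276207973291812437054212552440999235371913367071884410919)) (lf (nat_lit 9) (nat_lit 25108462314920847452130663258731507355588627671975555236375)))) (.node (.node (lf (nat_lit 10) (nat_lit 421250095685340957403804366199091691802789089702649207155884875831)) (lf (nat_lit 11) (nat_lit 7067403845333633275908657756487065393037690960265149494360705391214477335))) (lf (nat_lit 11) (nat_lit 7067403845333633276010425050272485672259498104507646223095857656893653047)))))) (.node (.node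 (.node (.node (.node (lf (nat_lit 3) (nat_lit 844424980464039)) (lf (nat_lit 11) (nat_lit 7067403845333633276010425044563493519038257742579436583226153104838803495))) (.node (lf (nat_lit 6) (nat_lit 5316923708908414513094594828273975572)) (lf (nat_lit 9) (nat_lit 25108462314924058760141084050238326573321373480764064141331)))) (.node (.node (lf (nat_lit 10) (nat_lit 421250095685340957415579157579686344416016483589726510691527974951)) (lf (nat_lit 11) (nat_lit 7067403845333633276010425038497693568564879166822149073050005306760871991))) (.node (lf (nat_lit 11) (nat_lit 7067403845333633276207973291812437054212388914071805930244012794647265335)) (lf (nat_lit 8) (nat_lit 1496580977137330696527820924139642201756838173606163))))) (.node (.node (.node (lf (nat_lit 10) (nat_lit 421250095685340957403804366199091755185319101114119281991045111847)) (lf (nat_lit 11) (nat_lit 7067403845333633276010425050272487033388884658623085469989152784063168535))) (.node (lf (nat_lit 11) (nat_lit 7067403845333633276207973291812437054212184822326453668993712368929325111))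 (lf (nat_lit 8) (nat_lit 1496577765830022108181471073007622333906422807396631)))) (.node (.node (lf (nat_lit 10) (nat_lit 421249191782637184925415807440238252788079347347821401112364245047)) (lf (nat_lit 11) (nat_lit 7067403845333633275908657756487066775434806576577657314320048082772934711))) (lf (nat_lit 11) (nat_lit 7067403845333633276010425050272485672259498104507646223172418304829669431))))) (.node (.node (.node (.node (lf (nat_lit 5) (nat_lit 316913348967415034578915557523)) (lf (nat_lit 10) (nat_lit 421250095685340957403804364816694678866180111628684187871398125623))) (.node (lf (nat_lit 10) (nat_lit 421250095685340957415579157941236459413913512459187704500007788599)) (lf (nat_lit 6) (nat_lit 5316923708908414513094594810892780324)))) (.node (.node (lf (nat_lit 10) (nat_lit 421250095685340957403804364114862175397285624341768175816370315303)) (lf (nat_lit 11) (nat_lit 7067403845333633276010425038497693568564715639892226221954256990386634807))) (.node (lf (nat_lit 11) (nat_lit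 7067388680363633003775540550076501605693649103289573269079067073775206423)) (lf (nat_lit 1) (nat_lit 4))))) (.node (.node (.node (lf (nat_lit 6) (nat_lit 5316923708908414513094594828273976100)) (lf (nat_lit 11) (nat_lit 7067403845333633276010425050272484289862301358556723796454819446913089591))) (.node (lf (nat_lit 11) (nat_lit 7067403845333633276207973291812437054212552440999235371913367063026057271)) (lf (nat_lit 7) (nat_lit 89203177519877594503722845574827319477932580)))) (.node (.node (lf (nat_lit 9) (nat_lit 25108408438133743695323159286201728836014490148009288953911)) (lf (nat_lit 5) (nat_lit 316913348967338473380686856339))) (lf (nat_lit 11) (nat_lit 7067403845333633276010425050272485672259334577580216781503064852763099191)))))))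

/-- the table -/
noncomputable def T : Tr := T0

/-- part of the certificates -/
def L0 : List Prf := [(.br (nat_lit 3) (nat_lit 0) (.cons (.br (nat_lit 3) (nat_lit 0) .nil) .nil)),
 (.br (nat_lit 2) (nat_lit 1) (.cons (.br (nat_lit 3) (nat_lit 1) (.cons (.br (nat_lit 4) (nat_lit 1) (.cons (.br (nat_lit 4) (nat_lit 1) .nil) .nil)) .nil)) .nil)),
 (.br (nat_lit 2) (nat_lit 1) (.cons (.br (nat_lit 3) (nat_lit 1) (.cons (.br (nat_lit 4) (nat_lit 1) (.cons (.br (nat_lit 5) (nat_lit 1) .nil) .nil)) (.cons (.br (nat_lit 4) (nat_lit 1) (.cons (.br (nat_lit 4) (nat_lit 1) .nil) .nil)) .nil))) .nil)),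
 (.br (nat_lit 3) (nat_lit 0) (.cons (.br (nat_lit 4) (nat_lit 0) (.cons (.kr (nat_lit 1) (nat_lit 256) (nat_lit 0) (nat_lit 2)) (.cons (.kr (nat_lit 1) (nat_lit 65536) (nat_lit 0) (nat_lit 1)) (.cons (.rf (nat_lit 0) (nat_lit 165920)) .nil)))) (.cons (.rf (nat_lit 0) (nat_lit 165920)) .nil))),
 (.br (nat_lit 4) (nat_lit 0) .nil),
 (.br (nat_lit 4) (nat_lit 0) (.cons (.br (nat_lit 7) (nat_lit 0) (.cons (.kr (nat_lit 72057594054705152) (nat_lit 281479271677952) (nat_lit 3) (nat_lit 0)) (.cons (.rf (nat_lit 4) (nat_lit 10651680)) .nil))) (.cons (.rf (nat_lit 4) (nat_lit 10651680)) .nil))),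
 (.br (nat_lit 8) (nat_lit 1) (.cons (.br (nat_lit 4) (nat_lit 0) (.cons (.rf (nat_lit 5) (nat_lit 324637422618656)) (.cons (.br (nat_lit 4) (nat_lit 0) (.cons (.rf (nat_lit 5) (nat_lit 324637422618656)) (.cons (.rf (nat_lit 4) (nat_lit 10651680)) .nil))) (.cons (.rf (nat_lit 4) (nat_lit 10651680)) .nil)))) .nil)),
 (.br (nat_lit 1) (nat_lit 1) (.cons (.br (nat_lit 3) (nat_lit 0) (.cons (.kr (nat_lit 1) (nat_lit 16777216) (nat_lit 0) (nat_lit 1)) (.cons (.kr (nat_lit 256) (nat_lit 16777216) (nat_lit 1) (nat_lit 0)) (.cons (.rf (nat_lit 4) (nat_lit 6457376)) .nil)))) (.cons (.br (nat_lit 6) (nat_lit 1) (.cons (.br (nat_lit 6) (nat_lit 1) (.cons (.br (nat_lit 6) (nat_lit 1) (.cons (.br (nat_lit 3) (nat_lit 0) (.cons (.kr (nat_lit 1) (nat_lit 16777216) (nat_lit 0) (nat_lit 1)) (.cons (.br (nat_lit 7) (nat_lit 1) (.cons (.rf (nat_lit 6) (nat_lit 325702574508064)) (.cons (.rf (nat_lit 6) (nat_lit 291617714047008)) .nil))) (.cons (.rf (nat_lit 4) (nat_lit 10651680)) .nil)))) .nil))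 .nil)) .nil)) .nil))),
 (.br (nat_lit 4) (nat_lit 0) (.cons (.br (nat_lit 6) (nat_lit 0) (.cons (.br (nat_lit 7) (nat_lit 0) (.cons (.kr (nat_lit 72057594054705152) (nat_lit 281479271677952) (nat_lit 3) (nat_lit 0)) (.cons (.rf (nat_lit 4) (nat_lit 10651680)) .nil))) (.cons (.rf (nat_lit 4) (nat_lit 10651680)) .nil))) (.cons (.br (nat_lit 6) (nat_lit 0) (.cons (.br (nat_lit 7) (nat_lit 0) (.cons (.kr (nat_lit 72057594054705152) (nat_lit 281479271677952) (nat_lit 3) (nat_lit 0)) (.cons (.rf (nat_lit 4) (nat_lit 10651680)) .nil))) (.cons (.br (nat_lit 7) (nat_lit 0) (.cons (.kr (nat_lit 281479271677954) (nat_lit 72057594054705664) (nat_lit 0) (nat_lit 2)) (.cons (.rf (nat_lit 4) (nat_lit 10651680)) .nil))) (.cons (.rf (nat_lit 4) (nat_lit 10651680)) .nil)))) (.cons (.rf (nat_lit 4) (nat_lit 10651680)) .nil)))),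
 (.br (nat_lit 4) (nat_lit 0) (.cons (.rf (nat_lit 8) (nat_lit 325702574508064)) (.cons (.rf (nat_lit 8) (nat_lit 325702574507072)) (.cons (.br (nat_lit 4) (nat_lit 0) (.cons (.rf (nat_lit 8) (nat_lit 325702574508064)) (.cons (.rf (nat_lit 8) (nat_lit 325702574507072)) (.cons (.rf (nat_lit 4) (nat_lit 10651680)) .nil)))) (.cons (.rf (nat_lit 4) (nat_lit 10651680)) .nil))))),
 (.br (nat_lit 4) (nat_lit 0) (.cons (.rf (nat_lit 9) (nat_lit 325669287495712)) (.cons (.br (nat_lit 6) (nat_lit 0) (.cons (.kr (nat_lit 256) (nat_lit 16777216) (nat_lit 1) (nat_lit 0)) (.cons (.br (nat_lit 7) (nat_lit 0) (.cons (.kr (nat_lit 65792) (nat_lit 4311744512) (nat_lit 1) (nat_lit 0)) (.cons (.rf (nat_lit 4) (nat_lit 10651680)) .nil))) (.cons (.rf (nat_lit 4) (nat_lit 10651680)) .nil)))) (.cons (.rf (nat_lit 4) (nat_lit 10651680)) .nil)))),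
 (.br (nat_lit 3) (nat_lit 0) (.cons (.rf (nat_lit 9) (nat_lit 325702574508064)) (.cons (.br (nat_lit 4) (nat_lit 0) (.cons (.rf (nat_lit 9) (nat_lit 325702473847809)) (.cons (.rf (nat_lit 10) (nat_lit 325702574508064)) (.cons (.br (nat_lit 4) (nat_lit 0) (.cons (.rf (nat_lit 9) (nat_lit 325702473847809)) (.cons (.rf (nat_lit 10) (nat_lit 325702574508064)) (.cons (.rf (nat_lit 4) (nat_lit 10651680)) .nil)))) (.cons (.rf (nat_lit 4) (nat_lit 10651680)) .nil))))) (.cons (.rf (nat_lit 4) (nat_lit 10651680)) .nil)))),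
 (.br (nat_lit 7) (nat_lit 1) (.cons (.br (nat_lit 3) (nat_lit 0) (.cons (.rf (nat_lit 11) (nat_lit 325702574508064)) (.cons (.rf (nat_lit 11) (nat_lit 325702574507072)) (.cons (.br (nat_lit 3) (nat_lit 0) (.cons (.rf (nat_lit 11) (nat_lit 325702574508064)) (.cons (.rf (nat_lit 11) (nat_lit 325702574507072)) (.cons (.rf (nat_lit 4) (nat_lit 10651680)) .nil)))) (.cons (.rf (nat_lit 4) (nat_lit 10651680)) .nil))))) .nil)),
 (.br (nat_lit 2) (nat_lit 1) (.cons (.kr (nat_lit 72057594054705152) (nat_lit 281479271677952) (nat_lit 3) (nat_lit 0)) (.cons (.kr (nat_lit 18446744073726328832) (nat_lit 281479271677952) (nat_lit 3) (nat_lit 0)) (.cons (.kr (nat_lit 4722366482869661990912) (nat_lit 281479271677952) (nat_lit 3) (nat_lit 0)) .nil)))),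
 (.br (nat_lit 4) (nat_lit 0) (.cons (.rf (nat_lit 13) (nat_lit 325702574508064)) (.cons (.br (nat_lit 10) (nat_lit 1) (.cons (.kr (nat_lit 72057594037927937) (nat_lit 281479271677952) (nat_lit 0) (nat_lit 1)) (.cons (.kr (nat_lit 18446744073709551617) (nat_lit 281479271677952) (nat_lit 0) (nat_lit 1)) (.cons (.kr (nat_lit 4722366482869645213697) (nat_lit 281479271677952) (nat_lit 0) (nat_lit 1)) .nil)))) .nil))),
 (.br (nat_lit 3) (nat_lit 0) (.cons (.rf (nat_lit 13) (nat_lit 289383222682656)) .nil)),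
 (.br (nat_lit 6) (nat_lit 1) (.cons (.br (nat_lit 7) (nat_lit 1) (.cons (.br (nat_lit 3) (nat_lit 0) (.cons (.kr (nat_lit 1) (nat_lit 16777216) (nat_lit 0) (nat_lit 1)) (.cons (.br (nat_lit 4) (nat_lit 0) (.cons (.rf (nat_lit 14) (nat_lit 289383391528992)) (.cons (.rf (nat_lit 15) (nat_lit 9043230985248)) (.cons (.br (nat_lit 4) (nat_lit 0) (.cons (.rf (nat_lit 14) (nat_lit 289383391528992)) (.cons (.rf (nat_lit 15) (nat_lit 9043230985248)) .nil))) .nil)))) .nil))) .nil)) .nil)),
 (.br (nat_lit 1) (nat_lit 1) (.cons (.br (nat_lit 3) (nat_lit 0) (.cons (.kr (nat_lit 1) (nat_lit 16777216) (nat_lit 0) (nat_lit 1)) (.cons (.kr (nat_lit 256) (nat_lit 16777216) (nat_lit 1) (nat_lit 0)) (.cons (.br (nat_lit 4) (nat_lit 0) (.cons (.kr (nat_lit 1) (nat_lit 4294967296) (nat_lit 0) (nat_lit 1)) (.cons (.kr (nat_lit 256) (nat_lit 4294967296) (nat_lit 1) (nat_lit 0)) (.cons (.kr (nat_lit 16777216) (nat_lit 4294967296) (nat_lit 3) (nat_lit 0)) .nil)))) .nil)))) (.cons (.br (nat_lit 6) (nat_lit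 1) (.cons (.br (nat_lit 6) (nat_lit 1) (.cons (.br (nat_lit 6) (nat_lit 1) (.cons (.br (nat_lit 7) (nat_lit 1) (.cons (.rf (nat_lit 16) (nat_lit 10178204370976)) (.cons (.rf (nat_lit 16) (nat_lit 9113052481568)) .nil))) .nil)) .nil)) .nil)) .nil))),
 (.br (nat_lit 7) (nat_lit 1) (.cons (.br (nat_lit 8) (nat_lit 1) (.cons (.br (nat_lit 1) (nat_lit 1) (.cons (.rf (nat_lit 17) (nat_lit 172066848)) (.cons (.rf (nat_lit 17) (nat_lit 171051040)) (.cons (.kr (nat_lit 281474976710656) (nat_lit 72057594037927936) (nat_lit 6) (nat_lit 0)) (.cons (.kr (nat_lit 281474976710656) (nat_lit 18446744073709551616) (nat_lit 6) (nat_lit 0)) (.cons (.kr (nat_lit 281474976710656) (nat_lit 4722366482869645213696) (nat_lit 6) (nat_lit 0)) .nil)))))) .nil)) .nil)),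
 (.br (nat_lit 5) (nat_lit 1) (.cons (.kr (nat_lit 72057594054705152) (nat_lit 281479271677952) (nat_lit 3) (nat_lit 0)) (.cons (.kr (nat_lit 18446744073709551617) (nat_lit 281479271677952) (nat_lit 0) (nat_lit 1)) (.cons (.kr (nat_lit 4722366482869645213697) (nat_lit 281479271677952) (nat_lit 0) (nat_lit 1)) .nil)))),
 (.br (nat_lit 4) (nat_lit 0) (.cons (.br (nat_lit 6) (nat_lit 0) (.cons (.br (nat_lit 5) (nat_lit 1) (.cons (.kr (nat_lit 72057594054705152) (nat_lit 281479271677952) (nat_lit 3) (nat_lit 0)) (.cons (.kr (nat_lit 18446744073709551617) (nat_lit 281479271677952) (nat_lit 0) (nat_lit 1)) (.cons (.kr (nat_lit 4722366482869645213697) (nat_lit 281479271677952) (nat_lit 0) (nat_lit 1)) .nil)))) (.cons (.br (nat_lit 10) (nat_lit 1) (.cons (.kr (nat_lit 72057594054705152) (nat_lit 281479271677952) (nat_lit 3) (nat_lit 0)) (.cons (.kr (nat_lit 18446744073709551617) (nat_lit 281479271677952) (nat_lit 0) (nat_lit 1)) (.cons (.kr (nat_lit 4722366482869645213697) (nat_lit 281479271677952)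 (nat_lit 0) (nat_lit 1)) .nil)))) .nil))) (.cons (.br (nat_lit 6) (nat_lit 0) (.cons (.rf (nat_lit 19) (nat_lit 325702574508064)) (.cons (.br (nat_lit 2) (nat_lit 1) (.cons (.kr (nat_lit 281479271677954) (nat_lit 72057594054705664) (nat_lit 0) (nat_lit 2)) (.cons (.kr (nat_lit 281479271677953) (nat_lit 18446744073709552128) (nat_lit 0) (nat_lit 2)) (.cons (.kr (nat_lit 281479271677953) (nat_lit 4722366482869645214208) (nat_lit 0) (nat_lit 2)) .nil)))) (.cons (.br (nat_lit 10) (nat_lit 1) (.cons (.kr (nat_lit 281479271677953) (nat_lit 72057594054705408) (nat_lit 0) (nat_lit 2)) (.cons (.kr (nat_lit 18446744073709551872) (nat_lit 281479271677952) (nat_lit 1) (nat_lit 0)) (.cons (.kr (nat_lit 4722366482869645213952) (nat_lit 281479271677952) (nat_lit 1) (nat_lit 0)) .nil)))) .nil)))) (.cons (.br (nat_lit 6) (nat_lit 0) (.cons (.rf (nat_lit 19) (nat_lit 325702742280224)) (.cons (.br (nat_lit 10) (nat_lit 1) (.cons (.kr (nat_lit 281479271677953) (nat_lit 72057594054705408) (nat_lit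 0) (nat_lit 2)) (.cons (.kr (nat_lit 18446744073709551872) (nat_lit 281479271677952) (nat_lit 1) (nat_lit 0)) (.cons (.kr (nat_lit 4722366482869645213952) (nat_lit 281479271677952) (nat_lit 1) (nat_lit 0)) .nil)))) (.cons (.br (nat_lit 7) (nat_lit 0) (.cons (.br (nat_lit 8) (nat_lit 0) (.cons (.kr (nat_lit 18446744073709551618) (nat_lit 72057594054705408) (nat_lit 0) (nat_lit 2)) .nil)) (.cons (.br (nat_lit 2) (nat_lit 1) (.cons (.kr (nat_lit 18446744073709551872) (nat_lit 72057594054705152) (nat_lit 1) (nat_lit 0)) (.cons (.kr (nat_lit 4722366482869645213952) (nat_lit 72057594054705152) (nat_lit 1) (nat_lit 0)) .nil))) .nil))) .nil)))) .nil)))),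
 (.br (nat_lit 6) (nat_lit 1) (.cons (.kr (nat_lit 18446744073709551872) (nat_lit 72057598332895232) (nat_lit 1) (nat_lit 0)) (.cons (.kr (nat_lit 4722366482869645213953) (nat_lit 72057598349672448) (nat_lit 0) (nat_lit 2)) (.cons (.kr (nat_lit 1208925819614629174706433) (nat_lit 72057598349672448) (nat_lit 0) (nat_lit 2)) .nil)))),
 (.br (nat_lit 10) (nat_lit 0) (.cons (.ev (nat_lit 4722366483969173684481) (nat_lit 1)) (.cons (.ev (nat_lit 18447025548686328064) (nat_lit 1)) .nil))),
 (.br (nat_lit 2) (nat_lit 1) (.cons (.rf (nat_lit 21) (nat_lit 11584700602745920)) (.cons (.rf (nat_lit 22) (nat_lit 11584701642934304)) (.cons (.rf (nat_lit 22) (nat_lit 10493986108180512)) .nil)))),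
 (.br (nat_lit 2) (nat_lit 1) (.cons (.rf (nat_lit 21) (nat_lit 11584700602745920)) (.cons (.rf (nat_lit 22) (nat_lit 11584700602745920)) (.cons (.br (nat_lit 8) (nat_lit 0) (.cons (.ev (nat_lit 1208925819615728703176961) (nat_lit 1)) (.cons (.ev (nat_lit 4722366764344638767361) (nat_lit 1)) .nil))) .nil)))),
 (.br (nat_lit 4) (nat_lit 0) (.cons (.rf (nat_lit 20) (nat_lit 362021891704864)) (.cons (.rf (nat_lit 20) (nat_lit 362021925258304)) (.cons (.br (nat_lit 1) (nat_lit 1) (.cons (.rf (nat_lit 21) (nat_lit 11584701642934304)) (.cons (.rf (nat_lit 23) (nat_lit 11584701642934304)) (.cons (.rf (nat_lit 24) (nat_lit 11584701642934304)) (.cons (.rf (nat_lit 24) (nat_lit 10493986108180512)) .nil))))) .nil)))),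
 (.br (nat_lit 6) (nat_lit 1) (.cons (.ev (nat_lit 18447025548686262529) (nat_lit 1)) .nil)),
 (.br (nat_lit 6) (nat_lit 1) (.cons (.ev (nat_lit 4722366764348916957184) (nat_lit 1)) .nil)),
 (.br (nat_lit 2) (nat_lit 1) (.cons (.kr (nat_lit 4722438540472273076225) (nat_lit 36893488147452723200) (nat_lit 0) (nat_lit 1)) (.cons (.br (nat_lit 6) (nat_lit 1) (.cons (.zr (nat_lit 9444733248313778831617) (nat_lit 216172794998685696) (nat_lit 5) (nat_lit 1)) .nil)) .nil))),
 (.br (nat_lit 10) (nat_lit 0) (.cons (.ev (nat_lit 1208925819615728703176961) (nat_lit 1)) (.cons (.ev (nat_lit 1208925819896108463226881) (nat_lit 1)) .nil))),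
 (.br (nat_lit 2) (nat_lit 1) (.cons (.rf (nat_lit 29) (nat_lit 11583635449840704)) (.cons (.kr (nat_lit 65536) (nat_lit 4294967296) (nat_lit 2) (nat_lit 0)) (.cons (.br (nat_lit 5) (nat_lit 1) (.cons (.br (nat_lit 6) (nat_lit 1) (.cons (.zr (nat_lit 2417851639511832837816577) (nat_lit 55340232221178986496) (nat_lit 5) (nat_lit 2)) .nil)) (.cons (.ev (nat_lit 1208944266360901957976577) (nat_lit 2)) .nil))) .nil)))),
 (.br (nat_lit 4) (nat_lit 0) (.cons (.rf (nat_lit 20) (nat_lit 361988604692512)) (.cons (.br (nat_lit 7) (nat_lit 0) (.cons (.kr (nat_lit 256) (nat_lit 16777216) (nat_lit 1) (nat_lit 0)) (.cons (.br (nat_lit 8) (nat_lit 0) (.cons (.br (nat_lit 9) (nat_lit 0) (.cons (.kr (nat_lit 9444732965743602171906) (nat_lit 18518801667747611136) (nat_lit 0) (nat_lit 5)) .nil)) (.cons (.br (nat_lit 1) (nat_lit 1) (.cons (.rf (nat_lit 26) (nat_lit 11584701642934304)) (.cons (.rf (nat_lit 26) (nat_lit 10493986108180512)) .nil))) .nil))) (.cons (.br (nat_lit 1) (nat_lit 1) (.cons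 (.br (nat_lit 2) (nat_lit 1) (.cons (.rf (nat_lit 27) (nat_lit 11584701642934304)) (.cons (.rf (nat_lit 27) (nat_lit 10493986108180512)) .nil))) (.cons (.rf (nat_lit 28) (nat_lit 11584701642934304)) (.cons (.rf (nat_lit 28) (nat_lit 10493986108180512)) .nil)))) .nil)))) (.cons (.br (nat_lit 1) (nat_lit 1) (.cons (.kr (nat_lit 256) (nat_lit 16777216) (nat_lit 1) (nat_lit 0)) (.cons (.br (nat_lit 2) (nat_lit 1) (.cons (.kr (nat_lit 65792) (nat_lit 4311744512) (nat_lit 1) (nat_lit 0)) (.cons (.rf (nat_lit 29) (nat_lit 11584701642934304)) (.cons (.rf (nat_lit 29) (nat_lit 10493986108180512)) .nil)))) (.cons (.rf (nat_lit 30) (nat_lit 11584701642934304)) (.cons (.rf (nat_lit 30) (nat_lit 10493986108180512)) .nil))))) .nil)))),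
 (.br (nat_lit 4) (nat_lit 0) (.cons (.rf (nat_lit 20) (nat_lit 362021791044609)) (.cons (.rf (nat_lit 31) (nat_lit 11584701642934304)) (.cons (.br (nat_lit 4) (nat_lit 0) (.cons (.rf (nat_lit 20) (nat_lit 362021791044609)) (.cons (.rf (nat_lit 31) (nat_lit 11584701642934304)) (.cons (.rf (nat_lit 31) (nat_lit 11584697180198949)) .nil)))) (.cons (.br (nat_lit 4) (nat_lit 0) (.cons (.rf (nat_lit 20) (nat_lit 362021791044609)) (.cons (.rf (nat_lit 31) (nat_lit 11584701642934304)) (.cons (.rf (nat_lit 31) (nat_lit 11584697180198949)) .nil)))) .nil))))),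
 (.br (nat_lit 8) (nat_lit 0) (.cons (.kr (nat_lit 18446744073726328832) (nat_lit 72057598332895232) (nat_lit 3) (nat_lit 0)) (.cons (.kr (nat_lit 18446744073726328833) (nat_lit 72057598332895488) (nat_lit 0) (nat_lit 2)) .nil))),
 (.br (nat_lit 4) (nat_lit 0) (.cons (.rf (nat_lit 20) (nat_lit 361988604692512)) (.cons (.rf (nat_lit 20) (nat_lit 361988504032257)) (.cons (.br (nat_lit 7) (nat_lit 0) (.cons (.rf (nat_lit 33) (nat_lit 11584701642934304)) (.cons (.rf (nat_lit 33) (nat_lit 11584701542274049)) .nil))) .nil)))),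
 (.br (nat_lit 5) (nat_lit 1) (.cons (.kr (nat_lit 256) (nat_lit 16777216) (nat_lit 1) (nat_lit 0)) (.cons (.br (nat_lit 2) (nat_lit 1) (.cons (.kr (nat_lit 72057594054705152) (nat_lit 281479271677952) (nat_lit 3) (nat_lit 0)) (.cons (.kr (nat_lit 18518801667747479809) (nat_lit 562958543355904) (nat_lit 0) (nat_lit 2)) (.cons (.kr (nat_lit 4722438540463683141889) (nat_lit 562958543355904) (nat_lit 0) (nat_lit 2)) .nil)))) (.cons (.kr (nat_lit 18446744073709551617) (nat_lit 281479271677952) (nat_lit 0) (nat_lit 1)) (.cons (.kr (nat_lit 4722366482869645213697) (nat_lit 281479271677952) (nat_lit 0) (nat_lit 1)) .nil))))),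
 (.br (nat_lit 9) (nat_lit 0) (.cons (.ev (nat_lit 72058697844588544) (nat_lit 1)) (.cons (.ev (nat_lit 72339069014704384) (nat_lit 1)) .nil))),
 (.br (nat_lit 2) (nat_lit 1) (.cons (.kr (nat_lit 65792) (nat_lit 4311744512) (nat_lit 1) (nat_lit 0)) (.cons (.rf (nat_lit 36) (nat_lit 362020817963040)) (.cons (.rf (nat_lit 36) (nat_lit 327935957501984)) .nil)))),
 (.br (nat_lit 2) (nat_lit 1) (.cons (.rf (nat_lit 36) (nat_lit 361985417020480)) (.cons (.rf (nat_lit 35) (nat_lit 361988638245952)) (.cons (.br (nat_lit 5) (nat_lit 1) (.cons (.ev (nat_lit 2422574221887113426764291) (nat_lit 2)) (.cons (.br (nat_lit 6) (nat_lit 1) (.cons (.zr (nat_lit 9444733248313778831617) (nat_lit 216172794998685696) (nat_lit 5) (nat_lit 1)) .nil)) .nil))) .nil)))),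
 (.br (nat_lit 4) (nat_lit 0) (.cons (.rf (nat_lit 20) (nat_lit 361988604692512)) (.cons (.br (nat_lit 1) (nat_lit 1) (.cons (.rf (nat_lit 35) (nat_lit 362021891704864)) (.cons (.rf (nat_lit 37) (nat_lit 11584701642934304)) (.cons (.rf (nat_lit 38) (nat_lit 11584701642934304)) (.cons (.rf (nat_lit 38) (nat_lit 10493986108180512)) .nil))))) (.cons (.rf (nat_lit 32) (nat_lit 11583635449840704)) .nil)))),
 (.br (nat_lit 8) (nat_lit 0) (.cons (.br (nat_lit 2) (nat_lit 1) (.cons (.kr (nat_lit 4722438540467978108929) (nat_lit 36893488147435880704) (nat_lit 0) (nat_lit 2)) (.cons (.kr (nat_lit 1208925891672227507601409) (nat_lit 36893488147435880704) (nat_lit 0) (nat_lit 2)) .nil))) (.cons (.kr (nat_lit 18446744073726328832) (nat_lit 72057598332895232) (nat_lit 3) (nat_lit 0)) .nil))),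
 (.br (nat_lit 2) (nat_lit 1) (.cons (.br (nat_lit 1) (nat_lit 1) (.cons (.zr (nat_lit 9444733248313778831617) (nat_lit 55340232221178986496) (nat_lit 5) (nat_lit 5)) .nil)) (.cons (.ev (nat_lit 1213648258156192369541121) (nat_lit 1)) .nil))),
 (.br (nat_lit 5) (nat_lit 1) (.cons (.rf (nat_lit 40) (nat_lit 11583629913360550)) (.cons (.rf (nat_lit 41) (nat_lit 11584701642934304)) (.cons (.rf (nat_lit 41) (nat_lit 10493986108180512)) .nil)))),
 (.br (nat_lit 4) (nat_lit 0) (.cons (.rf (nat_lit 20) (nat_lit 361988504032257)) (.cons (.rf (nat_lit 39) (nat_lit 11584701642934304)) (.cons (.br (nat_lit 7) (nat_lit 0) (.cons (.rf (nat_lit 40) (nat_lit 11584701642934304)) (.cons (.rf (nat_lit 42) (nat_lit 11584701642934304)) (.cons (.br (nat_lit 8) (nat_lit 0) (.cons (.br (nat_lit 9) (nat_lit 0) (.cons (.br (nat_lit 2) (nat_lit 1) (.cons (.ev (nat_lit 72058693549621249) (nat_lit 1)) .nil)) .nil)) (.cons (.rf (nat_lit 42) (nat_lit 11583629913360550)) .nil))) .nil)))) .nil)))),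
 (.br (nat_lit 3) (nat_lit 0) (.cons (.br (nat_lit 4) (nat_lit 0) (.cons (.rf (nat_lit 20) (nat_lit 362021891704864)) (.cons (.rf (nat_lit 20) (nat_lit 362021925258304)) (.cons (.rf (nat_lit 25) (nat_lit 11584701642934304)) (.cons (.rf (nat_lit 25) (nat_lit 11584700602745920)) .nil))))) (.cons (.rf (nat_lit 32) (nat_lit 11584701642934304)) (.cons (.br (nat_lit 4) (nat_lit 0) (.cons (.rf (nat_lit 34) (nat_lit 11584701642934304)) (.cons (.rf (nat_lit 39) (nat_lit 11584701642934304)) (.cons (.rf (nat_lit 43) (nat_lit 11584701642934304)) (.cons (.br (nat_lit 4) (nat_lit 0) (.cons (.rf (nat_lit 34) (nat_lit 11584701642934304)) (.cons (.rf (nat_lit 32) (nat_lit 11583635449840704)) (.cons (.rf (nat_lit 43) (nat_lit 11584701642934304)) .nil)))) .nil))))) .nil)))),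
 (.br (nat_lit 3) (nat_lit 0) (.cons (.rf (nat_lit 44) (nat_lit 11584701642934304)) (.cons (.rf (nat_lit 44) (nat_lit 11584700602745920)) (.cons (.br (nat_lit 4) (nat_lit 0) (.cons (.rf (nat_lit 44) (nat_lit 11583636490029088)) (.cons (.rf (nat_lit 44) (nat_lit 11583635449840704)) (.cons (.rf (nat_lit 44) (nat_lit 11584695099819205)) (.cons (.rf (nat_lit 44) (nat_lit 11584695066265766)) .nil))))) .nil)))),
 (.br (nat_lit 8) (nat_lit 1) (.cons (.br (nat_lit 9) (nat_lit 1) (.cons (.br (nat_lit 3) (nat_lit 0) (.cons (.rf (nat_lit 44) (nat_lit 11584701642934304)) (.cons (.rf (nat_lit 44) (nat_lit 11584700602745920)) (.cons (.rf (nat_lit 45) (nat_lit 11584701642934304)) (.cons (.rf (nat_lit 45) (nat_lit 11584700602745920)) .nil))))) .nil)) .nil)),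
 (.br (nat_lit 1) (nat_lit 0) (.cons (.br (nat_lit 3) (nat_lit 0) (.cons (.rf (nat_lit 3) (nat_lit 4294688)) (.cons (.rf (nat_lit 3) (nat_lit 4293696)) (.cons (.rf (nat_lit 0) (nat_lit 165920)) .nil)))) (.cons (.br (nat_lit 2) (nat_lit 0) (.cons (.br (nat_lit 3) (nat_lit 1) (.cons (.br (nat_lit 3) (nat_lit 0) (.cons (.rf (nat_lit 17) (nat_lit 172066848)) (.cons (.rf (nat_lit 17) (nat_lit 172065856)) (.cons (.br (nat_lit 3) (nat_lit 0) (.cons (.rf (nat_lit 17) (nat_lit 172066848)) (.cons (.rf (nat_lit 17) (nat_lit 172065856)) (.cons (.rf (nat_lit 4) (nat_lit 6457376)) .nil)))) (.cons (.rf (nat_lit 4) (nat_lit 6457376)) .nil))))) (.cons (.br (nat_lit 4) (nat_lit 1) (.cons (.rf (nat_lit 1) (nat_lit 6275)) (.cons (.br (nat_lit 6) (nat_lit 1) (.cons (.rf (nat_lit 2) (nat_lit 235651)) (.cons (.br (nat_lit 6) (nat_lit 1) (.cons (.rf (nat_lit 2) (nat_lit 235651)) (.cons (.br (nat_lit 7) (nat_lit 1) (.cons (.rf (nat_lit 12) (nat_lit 325702574508064)) (.cons (.rf (nat_lit 12) (nat_lit 291617714047008))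 .nil))) .nil))) .nil))) .nil))) .nil))) (.cons (.br (nat_lit 5) (nat_lit 0) (.cons (.br (nat_lit 3) (nat_lit 1) (.cons (.br (nat_lit 1) (nat_lit 1) (.cons (.rf (nat_lit 17) (nat_lit 172066848)) (.cons (.rf (nat_lit 17) (nat_lit 171051040)) (.cons (.br (nat_lit 7) (nat_lit 1) (.cons (.br (nat_lit 7) (nat_lit 1) (.cons (.br (nat_lit 7) (nat_lit 1) (.cons (.br (nat_lit 8) (nat_lit 1) (.cons (.rf (nat_lit 18) (nat_lit 362021891704864)) (.cons (.rf (nat_lit 18) (nat_lit 327937031243808)) .nil))) .nil)) .nil)) .nil)) .nil)))) (.cons (.br (nat_lit 4) (nat_lit 1) (.cons (.rf (nat_lit 1) (nat_lit 7299)) (.cons (.br (nat_lit 7) (nat_lit 1) (.cons (.rf (nat_lit 2) (nat_lit 269443)) (.cons (.br (nat_lit 7) (nat_lit 1) (.cons (.rf (nat_lit 2) (nat_lit 269443)) (.cons (.br (nat_lit 8) (nat_lit 1) (.cons (.rf (nat_lit 46) (nat_lit 11584701642934304)) (.cons (.rf (nat_lit 46) (nat_lit 10493986108180512)) .nil))) .nil))) .nil))) .nil))) .nil))) .nil)) .nil))) .nil))),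
 (.br (nat_lit 3) (nat_lit 0) (.cons (.br (nat_lit 3) (nat_lit 1) (.cons (.br (nat_lit 4) (nat_lit 0) (.cons (.kr (nat_lit 1) (nat_lit 16777216) (nat_lit 0) (nat_lit 1)) (.cons (.kr (nat_lit 256) (nat_lit 16777216) (nat_lit 1) (nat_lit 0)) (.cons (.kr (nat_lit 65536) (nat_lit 16777216) (nat_lit 2) (nat_lit 0)) (.cons (.rf (nat_lit 0) (nat_lit 165920)) .nil))))) (.cons (.br (nat_lit 4) (nat_lit 0) (.cons (.kr (nat_lit 1) (nat_lit 16777216) (nat_lit 0) (nat_lit 1)) (.cons (.kr (nat_lit 256) (nat_lit 16777216) (nat_lit 1) (nat_lit 0)) (.cons (.kr (nat_lit 65536) (nat_lit 16777216) (nat_lit 2) (nat_lit 0)) (.cons (.rf (nat_lit 0) (nat_lit 165920)) .nil))))) .nil))) (.cons (.rf (nat_lit 0) (nat_lit 133152)) .nil)))]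

theorem c0 : chkAll C T R L0 (nat_lit 0) = true := by decide +kernel

theorem l0 : (nat_lit 0) + L0.length = (nat_lit 49) := by decide +kernel

/-- part of the certificates -/
def L1 : List Prf := [(.br (nat_lit 8) (nat_lit 0) (.cons (.rf (nat_lit 4) (nat_lit 9603104)) .nil)),
 (.br (nat_lit 2) (nat_lit 1) (.cons (.rf (nat_lit 47) (nat_lit 7443458)) (.cons (.br (nat_lit 5) (nat_lit 1) (.cons (.rf (nat_lit 49) (nat_lit 9043225708576)) (.cons (.br (nat_lit 5) (nat_lit 1) (.cons (.rf (nat_lit 49) (nat_lit 10142737336352)) .nil)) .nil))) .nil))),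
 (.br (nat_lit 1) (nat_lit 1) (.cons (.rf (nat_lit 47) (nat_lit 6394881)) (.cons (.br (nat_lit 3) (nat_lit 0) (.cons (.rf (nat_lit 50) (nat_lit 6614517792)) (.cons (.rf (nat_lit 50) (nat_lit 4368471041)) (.cons (.rf (nat_lit 4) (nat_lit 7505952)) .nil)))) .nil))),
 (.br (nat_lit 6) (nat_lit 1) (.cons (.br (nat_lit 6) (nat_lit 1) .nil) .nil)),
 (.br (nat_lit 2) (nat_lit 1) (.cons (.rf (nat_lit 47) (nat_lit 8493058)) (.cons (.br (nat_lit 5) (nat_lit 1) (.cons (.br (nat_lit 5) (nat_lit 1) (.cons (.rf (nat_lit 52) (nat_lit 360886946596896)) .nil)) (.cons (.rf (nat_lit 52) (nat_lit 325702574508064)) .nil))) .nil))),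
 (.br (nat_lit 3) (nat_lit 0) (.cons (.rf (nat_lit 53) (nat_lit 280452236352)) (.cons (.rf (nat_lit 53) (nat_lit 143955956737)) (.cons (.br (nat_lit 6) (nat_lit 1) (.cons (.rf (nat_lit 47) (nat_lit 9540678)) (.cons (.rf (nat_lit 52) (nat_lit 291616539645984)) .nil))) .nil)))),
 (.br (nat_lit 1) (nat_lit 1) (.cons (.rf (nat_lit 47) (nat_lit 7443457)) (.cons (.br (nat_lit 2) (nat_lit 1) (.cons (.rf (nat_lit 53) (nat_lit 247132686368)) (.cons (.br (nat_lit 2) (nat_lit 1) (.cons (.rf (nat_lit 47) (nat_lit 8493058)) (.cons (.rf (nat_lit 54) (nat_lit 10142737336352)) .nil))) (.cons (.rf (nat_lit 54) (nat_lit 9043225708576)) .nil)))) .nil))),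
 (.br (nat_lit 2) (nat_lit 1) (.cons (.rf (nat_lit 47) (nat_lit 7444482)) (.cons (.br (nat_lit 7) (nat_lit 0) (.cons (.rf (nat_lit 55) (nat_lit 2357428385)) (.cons (.rf (nat_lit 55) (nat_lit 1251180738)) .nil))) .nil))),
 (.br (nat_lit 1) (nat_lit 1) (.cons (.rf (nat_lit 47) (nat_lit 7443457)) (.cons (.br (nat_lit 2) (nat_lit 1) (.cons (.rf (nat_lit 55) (nat_lit 5574329408)) (.cons (.rf (nat_lit 56) (nat_lit 9043225708576)) (.cons (.br (nat_lit 2) (nat_lit 1) (.cons (.rf (nat_lit 55) (nat_lit 5574329408)) (.cons (.rf (nat_lit 56) (nat_lit 9043225708576)) (.cons (.br (nat_lit 5) (nat_lit 1) (.cons (.rf (nat_lit 56) (nat_lit 4507643909121)) (.cons (.rf (nat_lit 55) (nat_lit 2357428385)) .nil))) .nil)))) .nil)))) .nil))),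
 (.br (nat_lit 1) (nat_lit 0) (.cons (.br (nat_lit 1) (nat_lit 1) (.cons (.rf (nat_lit 47) (nat_lit 4262913)) (.cons (.br (nat_lit 0) (nat_lit 0) (.cons (.br (nat_lit 2) (nat_lit 0) (.cons (.rf (nat_lit 48) (nat_lit 68640)) (.cons (.rf (nat_lit 48) (nat_lit 65633)) (.cons (.rf (nat_lit 0) (nat_lit 166944)) .nil)))) (.cons (.br (nat_lit 3) (nat_lit 0) (.cons (.br (nat_lit 2) (nat_lit 0) (.cons (.rf (nat_lit 51) (nat_lit 172035073)) (.cons (.rf (nat_lit 51) (nat_lit 172032097)) (.cons (.br (nat_lit 2) (nat_lit 0) (.cons (.rf (nat_lit 51) (nat_lit 172035073)) (.cons (.rf (nat_lit 51) (nat_lit 172032097)) (.cons (.rf (nat_lit 4) (nat_lit 6394912)) .nil)))) (.cons (.rf (nat_lit 4) (nat_lit 6394912)) .nil))))) (.cons (.br (nat_lit 5) (nat_lit 0) (.cons (.br (nat_lit 0) (nat_lit 1) (.cons (.rf (nat_lit 55) (nat_lit 6614486017)) (.cons (.rf (nat_lit 57) (nat_lit 247132654593)) (.cons (.br (nat_lit 0) (nat_lit 1) (.cons (.rf (nat_lit 55) (nat_lit 6550524960)) (.cons (.rf (nat_lit 57) (nat_lit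 75270198304)) (.cons (.br (nat_lit 3) (nat_lit 1) (.cons (.rf (nat_lit 55) (nat_lit 5574295649)) (.cons (.rf (nat_lit 57) (nat_lit 314811940961)) (.cons (.br (nat_lit 3) (nat_lit 1) (.cons (.rf (nat_lit 55) (nat_lit 5574295649)) (.cons (.rf (nat_lit 57) (nat_lit 349171679329)) .nil))) .nil)))) .nil)))) .nil)))) .nil)) .nil))) .nil))) .nil))) .nil)),
 (.br (nat_lit 0) (nat_lit 0) (.cons (.br (nat_lit 0) (nat_lit 0) (.cons (.br (nat_lit 0) (nat_lit 1) (.cons (.rf (nat_lit 58) (nat_lit 3073)) (.cons (.br (nat_lit 0) (nat_lit 1) (.cons (.rf (nat_lit 58) (nat_lit 4097)) (.cons (.br (nat_lit 1) (nat_lit 0) (.cons (.br (nat_lit 1) (nat_lit 1) (.cons (.rf (nat_lit 58) (nat_lit 5152)) (.cons (.br (nat_lit 1) (nat_lit 1) (.cons (.rf (nat_lit 58) (nat_lit 6176)) (.cons (.br (nat_lit 2) (nat_lit 1) (.cons (.rf (nat_lit 58) (nat_lit 7232)) .nil)) .nil))) .nil))) (.cons (.br (nat_lit 1) (nat_lit 1) (.cons (.rf (nat_lit 58) (nat_lit 6176)) (.cons (.br (nat_lit 1) (nat_lit 1) (.cons (.rf (nat_lit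 58) (nat_lit 7200)) (.cons (.br (nat_lit 2) (nat_lit 1) (.cons (.rf (nat_lit 58) (nat_lit 8256)) .nil)) .nil))) .nil))) .nil))) .nil))) .nil))) .nil)) .nil))]

theorem c1 : chkAll C T R L1 (nat_lit 49) = true := by decide +kernel

theorem l1 : (nat_lit 49) + L1.length = (nat_lit 60) := by decide +kernel

theorem r : isRoot (T.get (nat_lit 59)) (nat_lit 4) = true := by decide +kernel

theorem no {V : Type} [Fintype V] {Nb : V → Finset V} {x : V → ℤ} (H : Hyp C Nb x)
    (hR : ∀ t, (univ.filter (fun w => ty Nb x w = t)).card ≤ R / 16 ^ t % 16) (v : V)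
    (hv : ty Nb x v = 4) : False := by
  have h0 : ∀ i < (nat_lit 0), ∀ φ, ¬ PEmb Nb x (T.get i) φ := fun i hi => absurd hi (Nat.not_lt_zero i)
  have h1 := chkAll_sound H hR c0 h0
  rw [l0] at h1
  have h2 := chkAll_sound H hR c1 h1
  rw [l1] at h2
  exact no_root h2 (Nat.lt_succ_self (nat_lit 59)) r v hv

end Q11_2_4_0_5_0

namespace Q11_2_4_1_3_1

open Finset Classical

/-- degree, order and types -/
def C : Cl := ⟨nat_lit 4,nat_lit 11,[nat_lit 3,nat_lit 7,nat_lit 0,nat_lit 4,nat_lit 8]⟩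

/-- the numbers of vertices of each type -/
def R : ℕ := nat_lit 5368913921

/-- part of the table -/
noncomputable def T0 : Tr := (lf (nat_lit 1) (nat_lit 0))

/-- the table -/
noncomputable def T : Tr := T0

/-- part of the certificates -/
def L0 : List Prf := [(.br (nat_lit 0) (nat_lit 0) (.cons (.br (nat_lit 0) (nat_lit 0) (.cons (.br (nat_lit 0) (nat_lit 0) (.cons (.br (nat_lit 0) (nat_lit 0) .nil) .nil)) .nil)) .nil))]

theorem c0 : chkAll C T R L0 (nat_lit 0) = true := by decide +kernel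

theorem l0 : (nat_lit 0) + L0.length = (nat_lit 1) := by decide +kernel

theorem r : isRoot (T.get (nat_lit 0)) (nat_lit 0) = true := by decide +kernel

theorem no {V : Type} [Fintype V] {Nb : V → Finset V} {x : V → ℤ} (H : Hyp C Nb x)
    (hR : ∀ t, (univ.filter (fun w => ty Nb x w = t)).card ≤ R / 16 ^ t % 16) (v : V)
    (hv : ty Nb x v = 0) : False := by
  have h0 : ∀ i < (nat_lit 0), ∀ φ, ¬ PEmb Nb x (T.get i) φ := fun i hi => absurd hi (Nat.not_lt_zero i)
  have h1 := chkAll_sound H hR c0 h0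
  rw [l0] at h1
  exact no_root h1 (Nat.lt_succ_self (nat_lit 0)) r v hv

end Q11_2_4_1_3_1

namespace Q11_2_4_2_1_2

open Finset Classical

/-- degree, order and types -/
def C : Cl := ⟨nat_lit 4,nat_lit 11,[nat_lit 3,nat_lit 7,nat_lit 0,nat_lit 4,nat_lit 8]⟩

/-- the numbers of vertices of each type -/
def R : ℕ := nat_lit 9663750146

/-- part of the table -/
noncomputable def T0 : Tr := (.node (lf (nat_lit 2) (nat_lit 144)) (lf (nat_lit 1) (nat_lit 0)))

/-- the table -/
noncomputable def T : Tr := T0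

/-- part of the certificates -/
def L0 : List Prf := [(.br (nat_lit 0) (nat_lit 0) (.cons (.br (nat_lit 0) (nat_lit 0) .nil) .nil)),
 (.br (nat_lit 0) (nat_lit 0) (.cons (.rf (nat_lit 0) (nat_lit 32)) (.cons (.br (nat_lit 0) (nat_lit 0) (.cons (.rf (nat_lit 0) (nat_lit 64)) .nil)) .nil)))]

theorem c0 : chkAll C T R L0 (nat_lit 0) = true := by decide +kernel

theorem l0 : (nat_lit 0) + L0.length = (nat_lit 2) := by decide +kernel

theorem r : isRoot (T.get (nat_lit 1)) (nat_lit 0) = true := by decide +kernel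

theorem no {V : Type} [Fintype V] {Nb : V → Finset V} {x : V → ℤ} (H : Hyp C Nb x)
    (hR : ∀ t, (univ.filter (fun w => ty Nb x w = t)).card ≤ R / 16 ^ t % 16) (v : V)
    (hv : ty Nb x v = 0) : False := by
  have h0 : ∀ i < (nat_lit 0), ∀ φ, ¬ PEmb Nb x (T.get i) φ := fun i hi => absurd hi (Nat.not_lt_zero i)
  have h1 := chkAll_sound H hR c0 h0
  rw [l0] at h1
  exact no_root h1 (Nat.lt_succ_self (nat_lit 1)) r v hv

end Q11_2_4_2_1_2

namespace Q11_4_0_1_6_0

open Finset Classical

/-- degree, order and types -/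
def C : Cl := ⟨nat_lit 4,nat_lit 11,[nat_lit 3,nat_lit 7,nat_lit 0,nat_lit 4,nat_lit 8]⟩

/-- the numbers of vertices of each type -/
def R : ℕ := nat_lit 409601

/-- part of the table -/
noncomputable def T0 : Tr := (.node (.node (.node (.node (.node (.node (lf (nat_lit 7) (nat_lit 89202986111034792618475311495660367324907043)) (lf (nat_lit 11) (nat_lit 15586220095957575841897956849486576195602519231962825468879451458596))) (lf (nat_lit 10) (nat_lit 929011213977888099376864708274713993078302688202094716914724))) (.node (.node (lf (nat_lit 10) (nat_lit 929011112210606088751432707875166926500411084991741869199396)) (lf (nat_lit 11) (nat_lit 15586220095957575841897956848784743771995611425686405862401874332708))) (lf (nat_lit 11) (nat_lit 15586221803329247867075124613501864163624116542789080245222030510116)))) (.node (.node (.node (lf (nat_lit 9) (nat_lit 55373377335703735873188537833545459529814080867025955)) (lf (nat_lit 11) (nat_lit 15586220095957575841897956849486576236167348186230735578509378329652)))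 (lf (nat_lit 11) (nat_lit 15586221803329247867075124612821299348652598707845853645352049117220))) (.node (lf (nat_lit 10) (nat_lit 929011213977888099376864708316546462885834109832698219465764)) (lf (nat_lit 8) (nat_lit 1496577765829830699275365891629976901134145334284307))))) (.node (.node (.node (.node (lf (nat_lit 7) (nat_lit 196725755101936300211243092990079533060)) (lf (nat_lit 11) (nat_lit 15586220095957575841897956850868973351783646035825132093822193372196))) (lf (nat_lit 11) (nat_lit 15586221803329247867075124614203696464268911215665812988043607474196))) (.node (lf (nat_lit 7) (nat_lit 196725776651996504091359091203246133267)) (lf (nat_lit 11) (nat_lit 15586221803329247867075124612119466884480876605527086756623288436772)))) (.node (.node (.node (lf (nat_lit 9) (nat_lit 55373377335703735873188537833545458948849728936230931)) (lf (nat_lit 11) (nat_lit 15586220095957575841897956850167141051138851362948399351000616406052))) (lf (nat_lit 11) (nat_lit 15586221803329247867075124613501864082494478128182105815457246283812)))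 (.node (lf (nat_lit 10) (nat_lit 929011213977888099376864708234149178782260340919843533364276)) (lf (nat_lit 10) (nat_lit 929011112210606088751432707957564189901131201810303106976820)))))) (.node (.node (.node (.node (.node (lf (nat_lit 7) (nat_lit 89202986111034792622928503156560426166128659)) (lf (nat_lit 11) (nat_lit 15586219192054925946212715551206708163674238150060700163241943239716))) (lf (nat_lit 11) (nat_lit 15586221803329247867075124614203696464268920962627923284657633820692))) (.node (.node (lf (nat_lit 7) (nat_lit 196725755101936300211166531774654189859)) (lf (nat_lit 1) (nat_lit 0))) (lf (nat_lit 11) (nat_lit 15586221803329247867075124613501864163624116542789080245153042569268)))) (.node (.node (.node (lf (nat_lit 11) (nat_lit 15586220095957575841897956850868973595172554101651154142277136293908)) (lf (nat_lit 11) (nat_lit 15586220095957575841897956849486576153770044513170113035057223437348))) (lf (nat_lit 8) (nat_lit 1496577765829830699275365895256754576150802087285027)))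 (.node (lf (nat_lit 10) (nat_lit 929011213977888099376864708234149183617963912112336011271220)) (lf (nat_lit 11) (nat_lit 15586220095957575841897956850868973474745764004927948797413347559444))))) (.node (.node (.node (.node (lf (nat_lit 10) (nat_lit 929011112210606088751794257990164805168719512169651059580964)) (lf (nat_lit 11) (nat_lit 15586220095957575841897956849486576236167348186230735578578366237732))) (lf (nat_lit 11) (nat_lit 15586221803329247867075124612821299512179531048548588622926772766756))) (.node (lf (nat_lit 10) (nat_lit 929011112210606088751432707957564196096876027335225550842932)) (lf (nat_lit 9) (nat_lit 55373377335704437705570312262930606099466344667815955)))) (.node (.node (.node (lf (nat_lit 11) (nat_lit 15586220095957575841904022652180576891448028324036266251415929774116)) (lf (nat_lit 10) (nat_lit 929011112210606088751432707915731729840564052203833852468292))) (lf (nat_lit 11) (nat_lit 15586221803329247867075124616245390583397255475021526188986598426644)))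 (.node (lf (nat_lit 8) (nat_lit 3300510847658302180380703946263455396828023844)) (lf (nat_lit 11) (nat_lit 15586220095957575841897956850868973311218826828521642627139987573796)))))))

/-- part of the table -/
noncomputable def T1 : Tr := (.node (.node (.node (.node (.node (.node (lf (nat_lit 4) (nat_lit 18889467057385517351859)) (lf (nat_lit 11) (nat_lit 15586220095957575841897956849486576195602514320701683284448429214756))) (lf (nat_lit 10) (nat_lit 929011213977888099376864708192316704063467777104800150195236))) (.node (.node (lf (nat_lit 7) (nat_lit 196725755101936300211166531783512559907)) (lf (nat_lit 10) (nat_lit 929011112210606088751432707833334432363248403804117614461732))) (lf (nat_lit 11) (nat_lit 15586221803329247867075124613501864000097189113347487452147317016612)))) (.node (.node (.node (lf (nat_lit 11) (nat_lit 15586220095957575841897956850868973595172554101651154142311764500516)) (lf (nat_lit 11) (nat_lit 15586220095957575841897956849486576236167333528005172751130635013156)))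 (lf (nat_lit 11) (nat_lit 15586221803329247867075124612821299266255309693010793929278637541412))) (.node (lf (nat_lit 10) (nat_lit 929011213977888099376864708234149173871000072433602513607732)) (lf (nat_lit 8) (nat_lit 1496577765829830699275365891629976901134127885979667))))) (.node (.node (.node (.node (lf (nat_lit 10) (nat_lit 929011112210606088751794257990164805168719512169668507885604)) (lf (nat_lit 11) (nat_lit 15586220095957575841897956850868973269386357020990220996536485022756))) (lf (nat_lit 11) (nat_lit 15586221803329247867075124614203696381871622200830901890757899124756))) (.node (lf (nat_lit 7) (nat_lit 196725776651996504091359091211836067859)) (lf (nat_lit 9) (nat_lit 55373383401506429873518032323856157306639410763145235)))) (.node (.node (.node (lf (nat_lit 10) (nat_lit 929011213977888099376864708234149198200630890638040708976676)) (lf (nat_lit 11) (nat_lit 15586220095957575841897956850167140887611923933506806557925902912548))) (lf (nat_lit 11) (nat_lit 15586221803329247867075124613501864082494478128182105815388258371620)))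 (.node (lf (nat_lit 10) (nat_lit 929011213977888099376864708234149173870999198735403652746276)) (lf (nat_lit 11) (nat_lit 15586220095957575841897956850868973311218836575486356004063487724580)))))) (.node (.node (.node (.node (.node (lf (nat_lit 6) (nat_lit 11725770035505086427411978911748)) (lf (nat_lit 11) (nat_lit 15586220095957575841897956850868973351783655782787242390573927105556))) (lf (nat_lit 11) (nat_lit 15586221803329247867075124614203696464268920962627923284382487478292))) (.node (lf (nat_lit 7) (nat_lit 196725776651996504091359091220694437907)) (lf (nat_lit 11) (nat_lit 15586221803329247867075124613501864000097189113347194718102550022180)))) (.node (.node (.node (lf (nat_lit 11) (nat_lit 15586220095957575841897956850868973595172554101650573177650059157524)) (lf (nat_lit 11) (nat_lit 15586220095957575841897956850167140970009212948341424921235832179748))) (lf (nat_lit 11) (nat_lit 15586221803329247867075124616245390665794544489855563587806889576484))) (.node (lf (nat_lit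 10) (nat_lit 929011213977888099376864708234149173870999491469388290202676)) (lf (nat_lit 11) (nat_lit 15586220095957575841897956850868973474745754257963528154190480148500))))) (.node (.node (.node (.node (lf (nat_lit 10) (nat_lit 929011112210606088751432707957564220350949855511913655443476)) (lf (nat_lit 11) (nat_lit 15586220095957575841897956849486576236167328767858028636684203072564))) (lf (nat_lit 11) (nat_lit 15586221803329247867075124612821299348652613366071416472799780341796))) (.node (lf (nat_lit 10) (nat_lit 929011213977888099376864708316546467797095252017120383339556)) (lf (nat_lit 9) (nat_lit 55373377335704437705570312260437196596511171994984467)))) (.node (.node (.node (lf (nat_lit 11) (nat_lit 15586220095957575841897956849486576561953530608666105897082008133668)) (lf (nat_lit 11) (nat_lit 15586220095957575841897956850167140887611923933506513823881135918116))) (lf (nat_lit 11) (nat_lit 15586221803329247867075124616245390583397255475020945224496960309284))) (.node (lf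 (nat_lit 9) (nat_lit 55373383401506429873518032328767418664996667385723972)) (lf (nat_lit 11) (nat_lit 15586220095957575841897956849486576195602519231963118202924218453028)))))))

/-- the table -/
noncomputable def T : Tr := (.node T0 T1)

/-- part of the certificates -/
def L0 : List Prf := [(.br (nat_lit 6) (nat_lit 0) (.cons (.br (nat_lit 7) (nat_lit 1) (.cons (.br (nat_lit 8) (nat_lit 0) (.cons (.br (nat_lit 8) (nat_lit 0) .nil) .nil)) .nil)) .nil)),
 (.br (nat_lit 2) (nat_lit 0) (.cons (.br (nat_lit 4) (nat_lit 1) (.cons (.kr (nat_lit 65536) (nat_lit 16777216) (nat_lit 2) (nat_lit 0)) (.cons (.br (nat_lit 5) (nat_lit 1) (.cons (.br (nat_lit 3) (nat_lit 0) (.cons (.br (nat_lit 7) (nat_lit 1) (.cons (.rf (nat_lit 0) (nat_lit 5471703072)) (.cons (.br (nat_lit 5) (nat_lit 0) (.cons (.br (nat_lit 5) (nat_lit 0) (.cons (.br (nat_lit 8) (nat_lit 1) (.cons (.br (nat_lit 6) (nat_lit 0) (.cons (.kr (nat_lit 281474976776192) (nat_lit 1099528404992) (nat_lit 2) (nat_lit 0)) .nil)) .nil))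 .nil)) .nil)) .nil))) .nil)) .nil)) .nil))) .nil)),
 (.br (nat_lit 4) (nat_lit 0) (.cons (.br (nat_lit 4) (nat_lit 0) (.cons (.br (nat_lit 7) (nat_lit 1) (.cons (.rf (nat_lit 0) (nat_lit 4466114625)) (.cons (.br (nat_lit 5) (nat_lit 0) (.cons (.rf (nat_lit 0) (nat_lit 4466147393)) (.cons (.br (nat_lit 8) (nat_lit 1) (.cons (.br (nat_lit 6) (nat_lit 0) (.cons (.kr (nat_lit 281474993487872) (nat_lit 1103806595072) (nat_lit 3) (nat_lit 0)) .nil)) .nil)) .nil))) .nil))) .nil)) .nil)),
 (.br (nat_lit 5) (nat_lit 0) (.cons (.br (nat_lit 5) (nat_lit 0) .nil) .nil)),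
 (.br (nat_lit 6) (nat_lit 0) .nil),
 (.br (nat_lit 2) (nat_lit 0) (.cons (.rf (nat_lit 4) (nat_lit 9936406560)) (.cons (.br (nat_lit 8) (nat_lit 0) (.cons (.ev (nat_lit 4740813226947649732609) (nat_lit 1)) .nil)) .nil))),
 (.br (nat_lit 3) (nat_lit 0) (.cons (.rf (nat_lit 3) (nat_lit 271650848)) (.cons (.rf (nat_lit 5) (nat_lit 325702574508064)) (.cons (.rf (nat_lit 5) (nat_lit 291616673859616)) .nil)))),
 (.br (nat_lit 7) (nat_lit 0) (.cons (.rf (nat_lit 0) (nat_lit 5609948452)) (.cons (.br (nat_lit 9) (nat_lit 1) (.cons (.br (nat_lit 8) (nat_lit 0) (.cons (.br (nat_lit 1) (nat_lit 0) (.cons (.br (nat_lit 3) (nat_lit 0) (.cons (.rf (nat_lit 3) (nat_lit 306284576)) (.cons (.br (nat_lit 4) (nat_lit 0) (.cons (.ev (nat_lit 4740885566012386181121) (nat_lit 1)) (.cons (.zr (nat_lit 4311745025) (nat_lit 72341268037894144) (nat_lit 5) (nat_lit 0)) .nil))) (.cons (.br (nat_lit 4) (nat_lit 0) (.cons (.zr (nat_lit 4311745025) (nat_lit 72341268037894144) (nat_lit 5) (nat_lit 0)) (.cons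 (.ev (nat_lit 1208944338697771915739393) (nat_lit 1)) .nil))) .nil)))) (.cons (.br (nat_lit 2) (nat_lit 0) (.cons (.rf (nat_lit 3) (nat_lit 306252832)) (.cons (.br (nat_lit 4) (nat_lit 0) (.cons (.ev (nat_lit 4295033089) (nat_lit 1)) (.cons (.kr (nat_lit 72057594037928448) (nat_lit 1103823372288) (nat_lit 1) (nat_lit 0)) .nil))) (.cons (.ev (nat_lit 72058693566398721) (nat_lit 1)) .nil)))) (.cons (.rf (nat_lit 6) (nat_lit 362021925259296)) (.cons (.br (nat_lit 4) (nat_lit 0) (.cons (.ev (nat_lit 282578783371521) (nat_lit 1)) (.cons (.rf (nat_lit 6) (nat_lit 362021925225568)) (.cons (.br (nat_lit 2) (nat_lit 0) (.cons (.ev (nat_lit 4295033089) (nat_lit 1)) (.cons (.kr (nat_lit 72057594037928192) (nat_lit 4722366482869645279232) (nat_lit 1) (nat_lit 0)) .nil))) (.cons (.br (nat_lit 2) (nat_lit 0) (.cons (.zr (nat_lit 36893770726219186177) (nat_lit 216172782113784576) (nat_lit 5) (nat_lit 3)) (.cons (.ev (nat_lit 4740813226947649732609) (nat_lit 1)) (.cons (.kr (nat_lit 72057594037927936)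 (nat_lit 1208925819614629174706176) (nat_lit 7) (nat_lit 0)) .nil)))) .nil))))) (.cons (.br (nat_lit 4) (nat_lit 0) (.cons (.rf (nat_lit 6) (nat_lit 362021925258304)) (.cons (.rf (nat_lit 6) (nat_lit 362021925225568)) (.cons (.br (nat_lit 9) (nat_lit 0) (.cons (.br (nat_lit 3) (nat_lit 0) (.cons (.ev (nat_lit 1218370696979234886255106) (nat_lit 2)) .nil)) (.cons (.ev (nat_lit 4740885566012386181121) (nat_lit 1)) (.cons (.ev (nat_lit 1213648186380077603225601) (nat_lit 1)) .nil)))) (.cons (.br (nat_lit 2) (nat_lit 0) (.cons (.ev (nat_lit 4295033089) (nat_lit 1)) (.cons (.br (nat_lit 3) (nat_lit 0) (.cons (.ev (nat_lit 4722366766547990676226) (nat_lit 2)) .nil)) .nil))) .nil))))) .nil)))))) .nil)) .nil)) .nil))),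
 (.br (nat_lit 6) (nat_lit 0) (.cons (.br (nat_lit 4) (nat_lit 1) (.cons (.rf (nat_lit 7) (nat_lit 325702574508064)) (.cons (.rf (nat_lit 7) (nat_lit 324637422586912)) .nil))) .nil)),
 (.br (nat_lit 1) (nat_lit 0) (.cons (.br (nat_lit 3) (nat_lit 0) (.cons (.ev (nat_lit 4311810049) (nat_lit 1)) (.cons (.ev (nat_lit 72339069031481601) (nat_lit 1)) .nil))) (.cons (.kr (nat_lit 72057594037928192) (nat_lit 1103806595072) (nat_lit 1) (nat_lit 0)) (.cons (.kr (nat_lit 18518801667747480064) (nat_lit 282583078273024) (nat_lit 1) (nat_lit 0)) (.cons (.br (nat_lit 2) (nat_lit 0) (.cons (.br (nat_lit 9) (nat_lit 0) (.cons (.ev (nat_lit 4722366764344621989889) (nat_lit 1)) .nil)) (.cons (.ev (nat_lit 4740885566012369469441) (nat_lit 1)) (.cons (.br (nat_lit 3) (nat_lit 0) (.cons (.ev (nat_lit 4722366764344621989889) (nat_lit 1)) .nil)) .nil)))) .nil))))),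
 (.br (nat_lit 8) (nat_lit 0) (.cons (.br (nat_lit 4) (nat_lit 0) (.cons (.rf (nat_lit 6) (nat_lit 361954313078816)) (.cons (.rf (nat_lit 6) (nat_lit 361954313077824)) (.cons (.rf (nat_lit 6) (nat_lit 361954313045088)) (.cons (.rf (nat_lit 9) (nat_lit 11584701642934304)) (.cons (.rf (nat_lit 9) (nat_lit 10492920956259360)) .nil)))))) .nil)),
 (.br (nat_lit 4) (nat_lit 1) (.cons (.br (nat_lit 7) (nat_lit 0) (.cons (.rf (nat_lit 10) (nat_lit 11584701642934304)) (.cons (.rf (nat_lit 10) (nat_lit 10493986108180512)) .nil))) .nil)),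
 (.br (nat_lit 3) (nat_lit 1) (.cons (.rf (nat_lit 1) (nat_lit 201825)) (.cons (.rf (nat_lit 2) (nat_lit 8831274049)) (.cons (.br (nat_lit 6) (nat_lit 0) (.cons (.rf (nat_lit 8) (nat_lit 9043225708576)) (.cons (.br (nat_lit 6) (nat_lit 0) (.cons (.rf (nat_lit 8) (nat_lit 9043225708576)) (.cons (.br (nat_lit 4) (nat_lit 1) (.cons (.rf (nat_lit 11) (nat_lit 11584701642934304)) (.cons (.rf (nat_lit 11) (nat_lit 11583636491013152)) .nil))) .nil))) .nil))) .nil)))),
 (.br (nat_lit 3) (nat_lit 0) (.cons (.kr (nat_lit 18446744073709551872) (nat_lit 1103806595072) (nat_lit 1) (nat_lit 0)) (.cons (.br (nat_lit 4) (nat_lit 0) (.cons (.ev (nat_lit 4740813226947666510081) (nat_lit 1)) (.cons (.br (nat_lit 9) (nat_lit 0) (.cons (.ev (nat_lit 4722366483973451874561) (nat_lit 1)) .nil)) .nil))) (.cons (.br (nat_lit 4) (nat_lit 0) (.cons (.br (nat_lit 9) (nat_lit 0) (.cons (.ev (nat_lit 4722366483969173618689) (nat_lit 1)) .nil)) (.cons (.rf (nat_lit 4) (nat_lit 10001452064)) .nil))) .nil)))),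
 (.br (nat_lit 3) (nat_lit 0) (.cons (.rf (nat_lit 4) (nat_lit 11043702816)) (.cons (.br (nat_lit 9) (nat_lit 0) (.cons (.ev (nat_lit 2446204791245132578292740) (nat_lit 3)) .nil)) .nil))),
 (.br (nat_lit 4) (nat_lit 0) (.cons (.rf (nat_lit 13) (nat_lit 358621415311488)) (.cons (.rf (nat_lit 13) (nat_lit 322370851114112)) (.cons (.kr (nat_lit 18518801667747480064) (nat_lit 282583078273024) (nat_lit 1) (nat_lit 0)) (.cons (.kr (nat_lit 72057594037928192) (nat_lit 1103806595072) (nat_lit 1) (nat_lit 0)) .nil))))),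
 (.br (nat_lit 3) (nat_lit 1) (.cons (.br (nat_lit 6) (nat_lit 0) (.cons (.rf (nat_lit 12) (nat_lit 9042183457824)) (.cons (.br (nat_lit 7) (nat_lit 0) (.cons (.br (nat_lit 4) (nat_lit 1) (.cons (.rf (nat_lit 12) (nat_lit 6777694423168)) .nil)) (.cons (.rf (nat_lit 0) (nat_lit 5609948483)) .nil))) .nil))) (.cons (.br (nat_lit 6) (nat_lit 0) (.cons (.rf (nat_lit 12) (nat_lit 7977031568416)) (.cons (.br (nat_lit 8) (nat_lit 0) (.cons (.br (nat_lit 4) (nat_lit 1) (.cons (.br (nat_lit 7) (nat_lit 0) (.cons (.br (nat_lit 1) (nat_lit 0) (.cons (.rf (nat_lit 13) (nat_lit 325702574508064)) (.cons (.rf (nat_lit 13) (nat_lit 359820754488352)) (.cons (.br (nat_lit 2) (nat_lit 0) (.cons (.rf (nat_lit 3) (nat_lit 305205280)) (.cons (.rf (nat_lit 14) (nat_lit 11584701642934304)) (.cons (.rf (nat_lit 14) (nat_lit 10491720576895104)) .nil)))) (.cons (.rf (nat_lit 15) (nat_lit 11584701642934304)) (.cons (.rf (nat_lit 15) (nat_lit 10492919916071968)) .nil)))))) .nil)) .nil)) (.cons (.rf (nat_lit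 0) (nat_lit 5643732291)) .nil))) .nil))) .nil))),
 (.br (nat_lit 2) (nat_lit 1) (.cons (.rf (nat_lit 1) (nat_lit 201793)) (.cons (.br (nat_lit 7) (nat_lit 1) (.cons (.br (nat_lit 5) (nat_lit 0) (.cons (.rf (nat_lit 12) (nat_lit 9043225708576)) (.cons (.rf (nat_lit 12) (nat_lit 9043224692768)) (.cons (.br (nat_lit 9) (nat_lit 1) (.cons (.rf (nat_lit 1) (nat_lit 202017)) (.cons (.rf (nat_lit 2) (nat_lit 8831280193)) (.cons (.br (nat_lit 6) (nat_lit 0) (.cons (.rf (nat_lit 16) (nat_lit 325702574508064)) (.cons (.rf (nat_lit 16) (nat_lit 325702573492256)) (.cons (.br (nat_lit 6) (nat_lit 0) (.cons (.rf (nat_lit 16) (nat_lit 325702574508064)) (.cons (.rf (nat_lit 16) (nat_lit 325702573492256)) .nil))) .nil)))) .nil)))) .nil)))) .nil)) .nil))),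
 (.br (nat_lit 2) (nat_lit 1) (.cons (.rf (nat_lit 17) (nat_lit 6614517792)) (.cons (.rf (nat_lit 17) (nat_lit 5574330400)) (.cons (.br (nat_lit 7) (nat_lit 1) (.cons (.br (nat_lit 2) (nat_lit 1) (.cons (.rf (nat_lit 17) (nat_lit 6614517792)) (.cons (.rf (nat_lit 17) (nat_lit 5574330400)) (.cons (.br (nat_lit 3) (nat_lit 1) (.cons (.rf (nat_lit 17) (nat_lit 6614486048)) (.cons (.rf (nat_lit 17) (nat_lit 5574298656)) (.cons (.rf (nat_lit 17) (nat_lit 8829045824)) (.cons (.rf (nat_lit 17) (nat_lit 7788858432)) .nil))))) .nil)))) .nil)) .nil)))),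
 (.br (nat_lit 6) (nat_lit 0) (.cons (.rf (nat_lit 18) (nat_lit 6614517792)) (.cons (.rf (nat_lit 18) (nat_lit 6614516800)) (.cons (.rf (nat_lit 18) (nat_lit 6614484064)) (.cons (.br (nat_lit 6) (nat_lit 0) (.cons (.rf (nat_lit 18) (nat_lit 6614517792)) (.cons (.rf (nat_lit 18) (nat_lit 6614516800)) (.cons (.rf (nat_lit 18) (nat_lit 6614484064)) (.cons (.rf (nat_lit 3) (nat_lit 239175712)) .nil))))) (.cons (.rf (nat_lit 3) (nat_lit 239175712)) .nil)))))),
 (.br (nat_lit 5) (nat_lit 0) (.cons (.rf (nat_lit 19) (nat_lit 6614517792)) (.cons (.rf (nat_lit 19) (nat_lit 6613501984)) (.cons (.rf (nat_lit 3) (nat_lit 239175712)) .nil)))),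
 (.br (nat_lit 5) (nat_lit 0) (.cons (.rf (nat_lit 20) (nat_lit 6614517792)) (.cons (.rf (nat_lit 20) (nat_lit 6612357216)) (.cons (.rf (nat_lit 3) (nat_lit 239175712)) .nil)))),
 (.br (nat_lit 9) (nat_lit 1) (.cons (.ev (nat_lit 4722366483969173618689) (nat_lit 1)) (.cons (.rf (nat_lit 2) (nat_lit 7692553257)) .nil))),
 (.br (nat_lit 6) (nat_lit 0) (.cons (.kr (nat_lit 256) (nat_lit 65536) (nat_lit 1) (nat_lit 0)) (.cons (.br (nat_lit 4) (nat_lit 1) (.cons (.br (nat_lit 7) (nat_lit 0) (.cons (.ev (nat_lit 4311810049) (nat_lit 1)) (.cons (.br (nat_lit 7) (nat_lit 0) (.cons (.ev (nat_lit 4311810049) (nat_lit 1)) (.cons (.rf (nat_lit 4) (nat_lit 11041639456)) .nil))) (.cons (.rf (nat_lit 4) (nat_lit 11041639456)) .nil)))) (.cons (.rf (nat_lit 18) (nat_lit 8794473600)) .nil))) (.cons (.rf (nat_lit 22) (nat_lit 325702574508064)) (.cons (.rf (nat_lit 4) (nat_lit 11041639456)) .nil))))),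
 (.br (nat_lit 3) (nat_lit 1) (.cons (.rf (nat_lit 23) (nat_lit 325702574508064)) (.cons (.rf (nat_lit 18) (nat_lit 7688225888)) (.cons (.rf (nat_lit 23) (nat_lit 323505698735168)) .nil)))),
 (.br (nat_lit 7) (nat_lit 0) (.cons (.kr (nat_lit 72057594037927936) (nat_lit 4722366482869645213696) (nat_lit 7) (nat_lit 0)) (.cons (.rf (nat_lit 4) (nat_lit 11041639456)) .nil))),
 (.br (nat_lit 4) (nat_lit 1) (.cons (.rf (nat_lit 25) (nat_lit 325702574508064)) (.cons (.rf (nat_lit 18) (nat_lit 8794473600)) .nil))),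
 (.br (nat_lit 4) (nat_lit 1) (.cons (.rf (nat_lit 26) (nat_lit 325702574508064)) (.cons (.rf (nat_lit 25) (nat_lit 325702574508064)) (.cons (.rf (nat_lit 26) (nat_lit 323505698735168)) .nil)))),
 (.br (nat_lit 3) (nat_lit 1) (.cons (.rf (nat_lit 27) (nat_lit 325702574508064)) (.cons (.rf (nat_lit 18) (nat_lit 8795522144)) .nil))),
 (.br (nat_lit 2) (nat_lit 1) (.cons (.kr (nat_lit 256) (nat_lit 65536) (nat_lit 1) (nat_lit 0)) (.cons (.rf (nat_lit 18) (nat_lit 7688258624)) (.cons (.br (nat_lit 5) (nat_lit 0) (.cons (.rf (nat_lit 24) (nat_lit 325702574508064)) (.cons (.rf (nat_lit 24) (nat_lit 325702573492256)) (.cons (.br (nat_lit 3) (nat_lit 1) (.cons (.rf (nat_lit 28) (nat_lit 325702574508064)) (.cons (.rf (nat_lit 27) (nat_lit 325702574508064)) (.cons (.rf (nat_lit 28) (nat_lit 323505698735168)) .nil)))) (.cons (.rf (nat_lit 4) (nat_lit 11041639456)) .nil))))) .nil)))),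
 (.br (nat_lit 6) (nat_lit 0) (.cons (.rf (nat_lit 18) (nat_lit 6614517792)) (.cons (.rf (nat_lit 18) (nat_lit 6614484064)) (.cons (.rf (nat_lit 18) (nat_lit 6613435520)) (.cons (.br (nat_lit 6) (nat_lit 0) (.cons (.rf (nat_lit 18) (nat_lit 6614517792)) (.cons (.rf (nat_lit 18) (nat_lit 6614484064)) (.cons (.rf (nat_lit 18) (nat_lit 6613435520)) (.cons (.rf (nat_lit 4) (nat_lit 8827046944)) .nil))))) (.cons (.rf (nat_lit 4) (nat_lit 8827046944)) .nil)))))),
 (.br (nat_lit 7) (nat_lit 0) (.cons (.kr (nat_lit 18446744073709551872) (nat_lit 72057594054705152) (nat_lit 1) (nat_lit 0)) (.cons (.rf (nat_lit 4) (nat_lit 9934343200)) .nil))),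
 (.br (nat_lit 3) (nat_lit 1) (.cons (.br (nat_lit 5) (nat_lit 0) (.cons (.rf (nat_lit 30) (nat_lit 316925904928)) (.cons (.br (nat_lit 6) (nat_lit 0) (.cons (.rf (nat_lit 30) (nat_lit 318033201184)) (.cons (.br (nat_lit 7) (nat_lit 0) (.cons (.rf (nat_lit 31) (nat_lit 10142737336352)) (.cons (.rf (nat_lit 4) (nat_lit 11041639456)) .nil))) (.cons (.rf (nat_lit 4) (nat_lit 11041639456)) .nil)))) (.cons (.rf (nat_lit 4) (nat_lit 11041639456)) .nil)))) (.cons (.rf (nat_lit 18) (nat_lit 7688225888)) (.cons (.br (nat_lit 5) (nat_lit 0) (.cons (.rf (nat_lit 30) (nat_lit 316925904928)) (.cons (.br (nat_lit 8) (nat_lit 0) (.cons (.rf (nat_lit 30) (nat_lit 315952825408)) (.cons (.br (nat_lit 4) (nat_lit 1) (.cons (.rf (nat_lit 31) (nat_lit 10107404518464)) (.cons (.rf (nat_lit 31) (nat_lit 10144884820000)) .nil))) (.cons (.rf (nat_lit 4) (nat_lit 11041639456)) .nil)))) (.cons (.rf (nat_lit 4) (nat_lit 11041639456)) .nil)))) .nil)))),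
 (.br (nat_lit 2) (nat_lit 1) (.cons (.rf (nat_lit 18) (nat_lit 7688258624)) (.cons (.rf (nat_lit 29) (nat_lit 324636382431264)) (.cons (.br (nat_lit 5) (nat_lit 0) (.cons (.rf (nat_lit 32) (nat_lit 325702574508064)) (.cons (.rf (nat_lit 32) (nat_lit 325702573492256)) (.cons (.br (nat_lit 5) (nat_lit 0) (.cons (.rf (nat_lit 32) (nat_lit 325702574508064)) (.cons (.rf (nat_lit 32) (nat_lit 325702573492256)) (.cons (.rf (nat_lit 4) (nat_lit 11041639456)) .nil)))) (.cons (.rf (nat_lit 4) (nat_lit 11041639456)) .nil))))) .nil)))),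
 (.br (nat_lit 7) (nat_lit 0) (.cons (.br (nat_lit 9) (nat_lit 1) (.cons (.ev (nat_lit 4722438540463683141889) (nat_lit 1)) (.cons (.ev (nat_lit 4722438540463683207169) (nat_lit 1)) .nil))) .nil)),
 (.br (nat_lit 7) (nat_lit 0) (.cons (.rf (nat_lit 34) (nat_lit 11584701642934304)) (.cons (.br (nat_lit 7) (nat_lit 0) (.cons (.rf (nat_lit 34) (nat_lit 11584701642934304)) .nil)) .nil))),
 (.br (nat_lit 4) (nat_lit 1) (.cons (.br (nat_lit 4) (nat_lit 1) (.cons (.rf (nat_lit 35) (nat_lit 11584701642934304)) (.cons (.rf (nat_lit 18) (nat_lit 8794473600)) .nil))) (.cons (.rf (nat_lit 35) (nat_lit 11584701642934304)) (.cons (.br (nat_lit 4) (nat_lit 1) (.cons (.rf (nat_lit 18) (nat_lit 8794473600)) (.cons (.rf (nat_lit 35) (nat_lit 11584701642934304)) .nil))) .nil)))),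
 (.br (nat_lit 3) (nat_lit 1) (.cons (.rf (nat_lit 36) (nat_lit 11584701642934304)) (.cons (.rf (nat_lit 18) (nat_lit 7688225888)) (.cons (.rf (nat_lit 36) (nat_lit 11582504767161408)) .nil)))),
 (.br (nat_lit 4) (nat_lit 1) (.cons (.br (nat_lit 9) (nat_lit 1) (.cons (.rf (nat_lit 0) (nat_lit 5610177667)) (.cons (.ev (nat_lit 4722366483973451874561) (nat_lit 1)) .nil))) (.cons (.rf (nat_lit 18) (nat_lit 8794473600)) .nil))),
 (.br (nat_lit 4) (nat_lit 1) (.cons (.rf (nat_lit 38) (nat_lit 11584701642934304)) (.cons (.br (nat_lit 6) (nat_lit 0) (.cons (.ev (nat_lit 4722366483973451874561) (nat_lit 1)) (.cons (.br (nat_lit 8) (nat_lit 0) (.cons (.ev (nat_lit 4722366483973451808769) (nat_lit 1)) (.cons (.br (nat_lit 7) (nat_lit 0) (.cons (.ev (nat_lit 1218370552581472271860482) (nat_lit 2)) .nil)) .nil))) .nil))) .nil))),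
 (.br (nat_lit 3) (nat_lit 1) (.cons (.rf (nat_lit 37) (nat_lit 11584701642934304)) (.cons (.br (nat_lit 5) (nat_lit 0) (.cons (.rf (nat_lit 37) (nat_lit 10493986107164704)) (.cons (.br (nat_lit 4) (nat_lit 1) (.cons (.rf (nat_lit 38) (nat_lit 11584701642934304)) (.cons (.rf (nat_lit 39) (nat_lit 11584701642934304)) (.cons (.br (nat_lit 4) (nat_lit 1) (.cons (.rf (nat_lit 18) (nat_lit 8794473600)) (.cons (.rf (nat_lit 39) (nat_lit 11584701642934304)) .nil))) .nil)))) (.cons (.br (nat_lit 10) (nat_lit 1) (.cons (.ev (nat_lit 1208925819615728703111169) (nat_lit 1)) (.cons (.br (nat_lit 6) (nat_lit 0) (.cons (.br (nat_lit 4) (nat_lit 1) (.cons (.rf (nat_lit 0) (nat_lit 5610210435)) (.cons (.rf (nat_lit 18) (nat_lit 8794473600)) .nil))) (.cons (.br (nat_lit 9) (nat_lit 1) (.cons (.ev (nat_lit 1213648186097498819920129) (nat_lit 1)) (.cons (.ev (nat_lit 2422574005713227523228162) (nat_lit 2)) .nil))) .nil))) (.cons (.ev (nat_lit 1208925819615728703176961) (nat_lit 1)) .nil)))) .nil))))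 (.cons (.rf (nat_lit 18) (nat_lit 8795522144)) .nil)))),
 (.br (nat_lit 2) (nat_lit 1) (.cons (.kr (nat_lit 256) (nat_lit 65536) (nat_lit 1) (nat_lit 0)) (.cons (.rf (nat_lit 18) (nat_lit 7688258624)) (.cons (.br (nat_lit 3) (nat_lit 1) (.cons (.rf (nat_lit 37) (nat_lit 11584701642934304)) (.cons (.rf (nat_lit 40) (nat_lit 11584701642934304)) (.cons (.br (nat_lit 3) (nat_lit 1) (.cons (.rf (nat_lit 18) (nat_lit 7688225888)) (.cons (.rf (nat_lit 40) (nat_lit 11584701642934304)) (.cons (.rf (nat_lit 40) (nat_lit 11582504767161408)) .nil)))) (.cons (.rf (nat_lit 40) (nat_lit 11582504767161408)) .nil))))) .nil)))),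
 (.br (nat_lit 6) (nat_lit 0) (.cons (.br (nat_lit 6) (nat_lit 0) (.cons (.br (nat_lit 8) (nat_lit 1) (.cons (.br (nat_lit 7) (nat_lit 0) (.cons (.kr (nat_lit 72057598332895232) (nat_lit 282574488338432) (nat_lit 4) (nat_lit 0)) .nil)) .nil)) .nil)) .nil)),
 (.br (nat_lit 4) (nat_lit 1) (.cons (.rf (nat_lit 42) (nat_lit 282600803393)) (.cons (.rf (nat_lit 18) (nat_lit 7687177344)) (.cons (.br (nat_lit 6) (nat_lit 0) (.cons (.br (nat_lit 8) (nat_lit 0) (.cons (.ev (nat_lit 9463180276070128615426) (nat_lit 2)) (.cons (.br (nat_lit 9) (nat_lit 1) (.cons (.br (nat_lit 7) (nat_lit 0) (.cons (.ev (nat_lit 18664331944468546052) (nat_lit 3)) .nil)) .nil)) .nil))) (.cons (.br (nat_lit 8) (nat_lit 0) (.cons (.br (nat_lit 9) (nat_lit 1) (.cons (.br (nat_lit 7) (nat_lit 0) (.cons (.ev (nat_lit 4845166458738976250593284) (nat_lit 3)) .nil)) .nil)) (.cons (.rf (nat_lit 0) (nat_lit 8796835937)) .nil))) .nil))) .nil)))),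
 (.br (nat_lit 6) (nat_lit 0) (.cons (.rf (nat_lit 43) (nat_lit 11583635450857504)) (.cons (.rf (nat_lit 42) (nat_lit 282600967233)) (.cons (.br (nat_lit 9) (nat_lit 1) (.cons (.rf (nat_lit 2) (nat_lit 8798768169)) (.cons (.br (nat_lit 8) (nat_lit 0) (.cons (.br (nat_lit 4) (nat_lit 1) (.cons (.br (nat_lit 7) (nat_lit 0) (.cons (.ev (nat_lit 1223092919908766897471746) (nat_lit 2)) .nil)) .nil)) (.cons (.ev (nat_lit 1213666633123047522959361) (nat_lit 1)) .nil))) .nil))) .nil)))),
 (.br (nat_lit 5) (nat_lit 0) (.cons (.rf (nat_lit 43) (nat_lit 11584701642934304)) (.cons (.rf (nat_lit 44) (nat_lit 11584701642934304)) (.cons (.br (nat_lit 6) (nat_lit 0) (.cons (.rf (nat_lit 43) (nat_lit 11583635450857504)) (.cons (.rf (nat_lit 44) (nat_lit 11583635450857504)) (.cons (.rf (nat_lit 42) (nat_lit 282601000001)) .nil)))) .nil)))),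
 (.br (nat_lit 6) (nat_lit 0) (.cons (.ev (nat_lit 36893770734842872066) (nat_lit 2)) .nil)),
 (.br (nat_lit 4) (nat_lit 1) (.cons (.rf (nat_lit 45) (nat_lit 10493986107164704)) (.cons (.rf (nat_lit 18) (nat_lit 7687177344)) (.cons (.br (nat_lit 6) (nat_lit 0) (.cons (.rf (nat_lit 46) (nat_lit 11584701642934304)) (.cons (.rf (nat_lit 46) (nat_lit 10493986107164704)) .nil))) .nil)))),
 (.br (nat_lit 4) (nat_lit 1) (.cons (.br (nat_lit 6) (nat_lit 0) (.cons (.br (nat_lit 7) (nat_lit 0) (.cons (.br (nat_lit 8) (nat_lit 0) (.cons (.zr (nat_lit 9444732965743602302977) (nat_lit 36965829415456997376) (nat_lit 5) (nat_lit 0)) .nil)) .nil)) (.cons (.br (nat_lit 7) (nat_lit 0) (.cons (.br (nat_lit 8) (nat_lit 0) (.cons (.ev (nat_lit 2427296372479784053113346) (nat_lit 2)) .nil)) (.cons (.br (nat_lit 8) (nat_lit 0) (.cons (.ev (nat_lit 2427296372479784053113346) (nat_lit 2)) .nil)) .nil))) .nil))) (.cons (.rf (nat_lit 18) (nat_lit 8794473600)) .nil))),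
 (.br (nat_lit 4) (nat_lit 1) (.cons (.rf (nat_lit 48) (nat_lit 11584701642934304)) (.cons (.br (nat_lit 4) (nat_lit 1) (.cons (.rf (nat_lit 48) (nat_lit 11584701642934304)) (.cons (.rf (nat_lit 45) (nat_lit 10491720579023936)) .nil))) (.cons (.rf (nat_lit 47) (nat_lit 11581369922716736)) .nil)))),
 (.br (nat_lit 4) (nat_lit 1) (.cons (.br (nat_lit 6) (nat_lit 0) (.cons (.ev (nat_lit 284777856893442) (nat_lit 2)) .nil)) .nil))]

theorem c0 : chkAll C T R L0 (nat_lit 0) = true := by decide +kernel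

theorem l0 : (nat_lit 0) + L0.length = (nat_lit 51) := by decide +kernel

/-- part of the certificates -/
def L1 : List Prf := [(.br (nat_lit 3) (nat_lit 1) (.cons (.rf (nat_lit 45) (nat_lit 11584701642934304)) (.cons (.rf (nat_lit 18) (nat_lit 7688225888)) (.cons (.br (nat_lit 5) (nat_lit 0) (.cons (.rf (nat_lit 47) (nat_lit 11584701642934304)) (.cons (.rf (nat_lit 49) (nat_lit 11584701642934304)) (.cons (.br (nat_lit 8) (nat_lit 0) (.cons (.rf (nat_lit 47) (nat_lit 11581369922716736)) (.cons (.rf (nat_lit 49) (nat_lit 11581369922716736)) (.cons (.br (nat_lit 4) (nat_lit 1) (.cons (.rf (nat_lit 50) (nat_lit 11584701642934304)) (.cons (.rf (nat_lit 50) (nat_lit 11581369922716736)) .nil))) .nil)))) .nil)))) .nil)))),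
 (.br (nat_lit 2) (nat_lit 1) (.cons (.rf (nat_lit 18) (nat_lit 7688258624)) (.cons (.rf (nat_lit 41) (nat_lit 11583635450857504)) (.cons (.br (nat_lit 3) (nat_lit 1) (.cons (.rf (nat_lit 51) (nat_lit 11584701642934304)) (.cons (.rf (nat_lit 51) (nat_lit 11583635450857504)) (.cons (.rf (nat_lit 51) (nat_lit 11582436114793536)) (.cons (.rf (nat_lit 51) (nat_lit 11581369922716736)) .nil))))) .nil)))),
 (.br (nat_lit 3) (nat_lit 0) (.cons (.br (nat_lit 5) (nat_lit 0) (.cons (.rf (nat_lit 20) (nat_lit 7688259616)) (.cons (.rf (nat_lit 21) (nat_lit 7688259616)) (.cons (.rf (nat_lit 21) (nat_lit 7687243808)) (.cons (.rf (nat_lit 3) (nat_lit 306284576)) .nil))))) (.cons (.br (nat_lit 4) (nat_lit 0) (.cons (.br (nat_lit 2) (nat_lit 1) (.cons (.rf (nat_lit 29) (nat_lit 325702574508064)) (.cons (.rf (nat_lit 29) (nat_lit 324636382431264)) (.cons (.rf (nat_lit 33) (nat_lit 325702574508064)) (.cons (.rf (nat_lit 33) (nat_lit 324636382431264)) .nil))))) (.cons (.br (nat_lit 9) (nat_lit 0)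 (.cons (.br (nat_lit 2) (nat_lit 1) (.cons (.rf (nat_lit 41) (nat_lit 11584701642934304)) (.cons (.rf (nat_lit 41) (nat_lit 11583635450857504)) (.cons (.rf (nat_lit 52) (nat_lit 11584701642934304)) (.cons (.rf (nat_lit 52) (nat_lit 11583635450857504)) .nil))))) .nil)) .nil))) .nil))),
 (.br (nat_lit 2) (nat_lit 1) (.cons (.rf (nat_lit 53) (nat_lit 9043225644096)) (.cons (.rf (nat_lit 18) (nat_lit 7688258624)) (.cons (.rf (nat_lit 53) (nat_lit 6846349872192)) .nil)))),
 (.br (nat_lit 2) (nat_lit 1) (.cons (.rf (nat_lit 54) (nat_lit 9043225708576)) (.cons (.rf (nat_lit 54) (nat_lit 7977033631776)) (.cons (.rf (nat_lit 54) (nat_lit 8974573340704)) (.cons (.rf (nat_lit 54) (nat_lit 7908381263904)) .nil))))),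
 (.br (nat_lit 3) (nat_lit 1) (.cons (.rf (nat_lit 42) (nat_lit 247132652640)) .nil)),
 (.br (nat_lit 3) (nat_lit 1) (.cons (.rf (nat_lit 56) (nat_lit 247132686368)) (.cons (.rf (nat_lit 56) (nat_lit 213814183968)) .nil))),
 (.br (nat_lit 7) (nat_lit 0) (.cons (.br (nat_lit 9) (nat_lit 1) (.cons (.ev (nat_lit 4722438823042466447361) (nat_lit 1)) .nil)) .nil)),
 (.br (nat_lit 4) (nat_lit 1) (.cons (.br (nat_lit 7) (nat_lit 0) (.cons (.rf (nat_lit 58) (nat_lit 11584701642934304)) (.cons (.br (nat_lit 7) (nat_lit 0) (.cons (.rf (nat_lit 58) (nat_lit 11584701642934304)) .nil)) .nil))) (.cons (.rf (nat_lit 18) (nat_lit 8794473600)) .nil))),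
 (.br (nat_lit 9) (nat_lit 1) (.cons (.kr (nat_lit 18446744073709551616) (nat_lit 4722366482869645213696) (nat_lit 8) (nat_lit 0)) (.cons (.ev (nat_lit 4722366483969173618689) (nat_lit 1)) .nil))),
 (.br (nat_lit 4) (nat_lit 1) (.cons (.rf (nat_lit 59) (nat_lit 11584701642934304)) (.cons (.br (nat_lit 6) (nat_lit 0) (.cons (.br (nat_lit 8) (nat_lit 0) (.cons (.kr (nat_lit 281474976710656) (nat_lit 4722366482869645213696) (nat_lit 6) (nat_lit 0)) (.cons (.rf (nat_lit 60) (nat_lit 360886946596896)) .nil))) (.cons (.br (nat_lit 8) (nat_lit 0) (.cons (.br (nat_lit 9) (nat_lit 1) (.cons (.ev (nat_lit 4740813509517859880961) (nat_lit 1)) .nil)) (.cons (.kr (nat_lit 18446744073709551616) (nat_lit 1208925819614629174706176) (nat_lit 8) (nat_lit 0)) .nil))) .nil))) .nil))),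
 (.br (nat_lit 3) (nat_lit 1) (.cons (.rf (nat_lit 57) (nat_lit 282600803393)) (.cons (.rf (nat_lit 18) (nat_lit 7688225888)) (.cons (.br (nat_lit 4) (nat_lit 1) (.cons (.rf (nat_lit 59) (nat_lit 11584701642934304)) (.cons (.rf (nat_lit 61) (nat_lit 11584701642934304)) (.cons (.br (nat_lit 4) (nat_lit 1) (.cons (.rf (nat_lit 18) (nat_lit 8794473600)) (.cons (.rf (nat_lit 61) (nat_lit 11584701642934304)) .nil))) .nil)))) .nil)))),
 (.br (nat_lit 6) (nat_lit 0) (.cons (.rf (nat_lit 62) (nat_lit 11583635449841696)) (.cons (.rf (nat_lit 57) (nat_lit 282600776769)) (.cons (.br (nat_lit 9) (nat_lit 1) (.cons (.kr (nat_lit 1099511627776) (nat_lit 4722366482869645213696) (nat_lit 5) (nat_lit 0)) (.cons (.br (nat_lit 8) (nat_lit 0) (.cons (.br (nat_lit 4) (nat_lit 1) (.cons (.br (nat_lit 7) (nat_lit 0) (.cons (.zr (nat_lit 4311810305) (nat_lit 18519084242235817984) (nat_lit 5) (nat_lit 0)) .nil)) .nil)) (.cons (.rf (nat_lit 0) (nat_lit 8796841025)) .nil))) .nil))) .nil)))),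
 (.br (nat_lit 3) (nat_lit 1) (.cons (.rf (nat_lit 18) (nat_lit 7688225888)) (.cons (.rf (nat_lit 62) (nat_lit 11583635450857504)) (.cons (.br (nat_lit 5) (nat_lit 0) (.cons (.rf (nat_lit 62) (nat_lit 11584701641918496)) (.cons (.rf (nat_lit 63) (nat_lit 11584701642934304)) (.cons (.br (nat_lit 6) (nat_lit 0) (.cons (.rf (nat_lit 62) (nat_lit 11583635449841696)) (.cons (.rf (nat_lit 63) (nat_lit 11583635450857504)) (.cons (.rf (nat_lit 57) (nat_lit 282600777793)) .nil)))) .nil)))) .nil)))),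
 (.br (nat_lit 3) (nat_lit 1) (.cons (.rf (nat_lit 62) (nat_lit 11584701642934304)) (.cons (.rf (nat_lit 62) (nat_lit 11583635450857504)) (.cons (.rf (nat_lit 64) (nat_lit 11584701642934304)) (.cons (.rf (nat_lit 64) (nat_lit 11583635450857504)) .nil))))),
 (.br (nat_lit 7) (nat_lit 0) (.cons (.br (nat_lit 9) (nat_lit 1) (.cons (.br (nat_lit 8) (nat_lit 0) (.cons (.kr (nat_lit 2417870085974431570592256) (nat_lit 9444805304808338620416) (nat_lit 1) (nat_lit 0)) .nil)) .nil)) .nil)),
 (.br (nat_lit 7) (nat_lit 0) (.cons (.ev (nat_lit 4722438540463699918849) (nat_lit 1)) .nil)),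
 (.br (nat_lit 6) (nat_lit 0) (.cons (.br (nat_lit 4) (nat_lit 1) (.cons (.br (nat_lit 7) (nat_lit 0) (.cons (.rf (nat_lit 66) (nat_lit 11584701642934304)) (.cons (.br (nat_lit 7) (nat_lit 0) (.cons (.rf (nat_lit 66) (nat_lit 11584701642934304)) .nil)) .nil))) (.cons (.rf (nat_lit 18) (nat_lit 8794473600)) .nil))) (.cons (.br (nat_lit 9) (nat_lit 1) (.cons (.br (nat_lit 4) (nat_lit 1) (.cons (.rf (nat_lit 67) (nat_lit 11584701642934304)) (.cons (.br (nat_lit 4) (nat_lit 1) (.cons (.rf (nat_lit 67) (nat_lit 11584701642934304)) .nil)) .nil))) (.cons (.rf (nat_lit 0) (nat_lit 8796801121)) .nil))) (.cons (.rf (nat_lit 22) (nat_lit 360886946596896)) .nil)))),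
 (.br (nat_lit 3) (nat_lit 1) (.cons (.rf (nat_lit 68) (nat_lit 11584701642934304)) (.cons (.rf (nat_lit 18) (nat_lit 7688225888)) (.cons (.rf (nat_lit 68) (nat_lit 11582504767161408)) .nil)))),
 (.br (nat_lit 4) (nat_lit 1) (.cons (.rf (nat_lit 60) (nat_lit 322439504498784)) (.cons (.br (nat_lit 7) (nat_lit 0) (.cons (.kr (nat_lit 1099511627776) (nat_lit 4722366482869645213696) (nat_lit 5) (nat_lit 0)) (.cons (.br (nat_lit 6) (nat_lit 0) (.cons (.zr (nat_lit 16843265) (nat_lit 9444805304808305065984) (nat_lit 5) (nat_lit 0)) (.cons (.zr (nat_lit 4328521985) (nat_lit 2417851639511832837750784) (nat_lit 5) (nat_lit 0)) .nil))) .nil))) .nil))),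
 (.br (nat_lit 8) (nat_lit 0) (.cons (.zr (nat_lit 4311810305) (nat_lit 2427296372194997639839744) (nat_lit 5) (nat_lit 0)) .nil)),
 (.br (nat_lit 4) (nat_lit 1) (.cons (.rf (nat_lit 65) (nat_lit 10490723038171232)) (.cons (.br (nat_lit 7) (nat_lit 0) (.cons (.br (nat_lit 6) (nat_lit 0) (.cons (.rf (nat_lit 71) (nat_lit 11584701642934304)) (.cons (.rf (nat_lit 71) (nat_lit 10493917453652064)) .nil))) (.cons (.kr (nat_lit 72057594037927936) (nat_lit 1208925819614629174706176) (nat_lit 7) (nat_lit 0)) .nil))) .nil))),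
 (.br (nat_lit 3) (nat_lit 1) (.cons (.rf (nat_lit 69) (nat_lit 11584701642934304)) (.cons (.br (nat_lit 5) (nat_lit 0) (.cons (.rf (nat_lit 69) (nat_lit 11584701641918496)) (.cons (.br (nat_lit 4) (nat_lit 1) (.cons (.rf (nat_lit 60) (nat_lit 322439504498784)) (.cons (.rf (nat_lit 70) (nat_lit 11584701642934304)) (.cons (.br (nat_lit 4) (nat_lit 1) (.cons (.rf (nat_lit 18) (nat_lit 8794473600)) (.cons (.rf (nat_lit 70) (nat_lit 11584701642934304)) .nil))) .nil)))) (.cons (.br (nat_lit 4) (nat_lit 1) (.cons (.br (nat_lit 4) (nat_lit 1) (.cons (.rf (nat_lit 65) (nat_lit 10490723038171232)) (.cons (.rf (nat_lit 18) (nat_lit 8794473600)) .nil))) (.cons (.rf (nat_lit 72) (nat_lit 11584701642934304)) (.cons (.br (nat_lit 4) (nat_lit 1) (.cons (.rf (nat_lit 18) (nat_lit 8794473600)) (.cons (.rf (nat_lit 72) (nat_lit 11584701642934304)) .nil))) .nil)))) .nil)))) (.cons (.rf (nat_lit 18) (nat_lit 8795522144)) .nil)))),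
 (.br (nat_lit 2) (nat_lit 1) (.cons (.rf (nat_lit 65) (nat_lit 11584701642934304)) (.cons (.rf (nat_lit 18) (nat_lit 7688258624)) (.cons (.br (nat_lit 3) (nat_lit 1) (.cons (.rf (nat_lit 69) (nat_lit 11584701642934304)) (.cons (.rf (nat_lit 73) (nat_lit 11584701642934304)) (.cons (.br (nat_lit 3) (nat_lit 1) (.cons (.rf (nat_lit 18) (nat_lit 7688225888)) (.cons (.rf (nat_lit 73) (nat_lit 11584701642934304)) (.cons (.rf (nat_lit 73) (nat_lit 11582504767161408)) .nil)))) (.cons (.rf (nat_lit 73) (nat_lit 11582504767161408)) .nil))))) .nil)))),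
 (.br (nat_lit 6) (nat_lit 0) (.cons (.rf (nat_lit 22) (nat_lit 324636380270688)) (.cons (.rf (nat_lit 57) (nat_lit 282600744033)) (.cons (.br (nat_lit 9) (nat_lit 1) (.cons (.rf (nat_lit 2) (nat_lit 8798768169)) (.cons (.br (nat_lit 8) (nat_lit 0) (.cons (.br (nat_lit 4) (nat_lit 1) (.cons (.br (nat_lit 7) (nat_lit 0) (.cons (.zr (nat_lit 4311810305) (nat_lit 18519084242235817984) (nat_lit 5) (nat_lit 0)) .nil)) .nil)) (.cons (.rf (nat_lit 0) (nat_lit 8796841057)) .nil))) .nil))) .nil)))),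
 (.br (nat_lit 4) (nat_lit 1) (.cons (.br (nat_lit 6) (nat_lit 0) (.cons (.zr (nat_lit 66305) (nat_lit 9444733248313778765824) (nat_lit 5) (nat_lit 0)) (.cons (.br (nat_lit 7) (nat_lit 0) (.cons (.br (nat_lit 8) (nat_lit 0) (.cons (.zr (nat_lit 4311810305) (nat_lit 18519084242235817984) (nat_lit 5) (nat_lit 0)) .nil)) (.cons (.zr (nat_lit 12901679105) (nat_lit 2417851711568327364050944) (nat_lit 5) (nat_lit 0)) .nil))) .nil))) (.cons (.rf (nat_lit 18) (nat_lit 8794473600)) .nil))),
 (.br (nat_lit 4) (nat_lit 1) (.cons (.rf (nat_lit 76) (nat_lit 11584701642934304)) (.cons (.br (nat_lit 4) (nat_lit 1) (.cons (.rf (nat_lit 76) (nat_lit 11584701642934304)) (.cons (.rf (nat_lit 74) (nat_lit 10492851261575264)) .nil))) (.cons (.rf (nat_lit 74) (nat_lit 10492851261575264)) .nil)))),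
 (.br (nat_lit 4) (nat_lit 1) (.cons (.zr (nat_lit 4345298945) (nat_lit 9463179710912511606784) (nat_lit 5) (nat_lit 0)) .nil)),
 (.br (nat_lit 3) (nat_lit 1) (.cons (.br (nat_lit 5) (nat_lit 0) (.cons (.rf (nat_lit 74) (nat_lit 10493986106019936)) (.cons (.rf (nat_lit 75) (nat_lit 11584701642934304)) (.cons (.br (nat_lit 6) (nat_lit 0) (.cons (.rf (nat_lit 74) (nat_lit 10492919913943136)) (.cons (.rf (nat_lit 75) (nat_lit 11583635450857504)) (.cons (.rf (nat_lit 57) (nat_lit 282600745057)) .nil)))) .nil)))) (.cons (.rf (nat_lit 18) (nat_lit 7688225888)) (.cons (.br (nat_lit 5) (nat_lit 0) (.cons (.rf (nat_lit 74) (nat_lit 10491789230248032)) (.cons (.rf (nat_lit 77) (nat_lit 11584701642934304)) (.cons (.br (nat_lit 8) (nat_lit 0) (.cons (.rf (nat_lit 74) (nat_lit 10492851261575264)) (.cons (.rf (nat_lit 77) (nat_lit 11581369922716736)) (.cons (.br (nat_lit 4) (nat_lit 1) (.cons (.rf (nat_lit 78) (nat_lit 360886946596896)) (.cons (.rf (nat_lit 78) (nat_lit 357555226379328)) .nil)))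 .nil)))) .nil)))) .nil)))),
 (.br (nat_lit 2) (nat_lit 1) (.cons (.rf (nat_lit 18) (nat_lit 7688258624)) (.cons (.rf (nat_lit 74) (nat_lit 11583635450857504)) (.cons (.br (nat_lit 3) (nat_lit 1) (.cons (.rf (nat_lit 79) (nat_lit 11584701642934304)) (.cons (.rf (nat_lit 79) (nat_lit 11583635450857504)) (.cons (.rf (nat_lit 79) (nat_lit 11582436114793536)) (.cons (.rf (nat_lit 79) (nat_lit 11581369922716736)) .nil))))) .nil)))),
 (.br (nat_lit 3) (nat_lit 0) (.cons (.rf (nat_lit 55) (nat_lit 9043223645216)) (.cons (.br (nat_lit 4) (nat_lit 0) (.cons (.br (nat_lit 2) (nat_lit 1) (.cons (.rf (nat_lit 74) (nat_lit 11584701642934304)) (.cons (.rf (nat_lit 74) (nat_lit 11583635450857504)) (.cons (.rf (nat_lit 80) (nat_lit 11584701642934304)) (.cons (.rf (nat_lit 80) (nat_lit 11583635450857504)) .nil))))) .nil)) .nil))),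
 (.br (nat_lit 0) (nat_lit 0) (.cons (.br (nat_lit 0) (nat_lit 0) (.cons (.br (nat_lit 0) (nat_lit 0) (.cons (.br (nat_lit 0) (nat_lit 0) (.cons (.br (nat_lit 1) (nat_lit 1) (.cons (.br (nat_lit 1) (nat_lit 1) (.cons (.br (nat_lit 5) (nat_lit 1) (.cons (.rf (nat_lit 18) (nat_lit 6614517792)) (.cons (.br (nat_lit 6) (nat_lit 1) (.cons (.br (nat_lit 1) (nat_lit 0) (.cons (.rf (nat_lit 55) (nat_lit 9043225674848)) (.cons (.rf (nat_lit 55) (nat_lit 9043225707584)) (.cons (.rf (nat_lit 55) (nat_lit 9043224691776)) (.cons (.br (nat_lit 2) (nat_lit 0) (.cons (.rf (nat_lit 55) (nat_lit 9043225708576)) (.cons (.rf (nat_lit 55) (nat_lit 9043224692768)) (.cons (.rf (nat_lit 81) (nat_lit 325702574508064)) (.cons (.br (nat_lit 3) (nat_lit 0) (.cons (.rf (nat_lit 55) (nat_lit 9043223645216)) (.cons (.rf (nat_lit 81) (nat_lit 325702574476320)) (.cons (.br (nat_lit 4) (nat_lit 0) (.cons (.rf (nat_lit 81) (nat_lit 325702573428768)) .nil)) .nil)))) .nil))))) .nil))))) .nil)) .nil))) .nil)) .nil))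 .nil)) .nil)) .nil)) .nil))]

theorem c1 : chkAll C T R L1 (nat_lit 51) = true := by decide +kernel

theorem l1 : (nat_lit 51) + L1.length = (nat_lit 83) := by decide +kernel

theorem r : isRoot (T.get (nat_lit 82)) (nat_lit 0) = true := by decide +kernel

theorem no {V : Type} [Fintype V] {Nb : V → Finset V} {x : V → ℤ} (H : Hyp C Nb x)
    (hR : ∀ t, (univ.filter (fun w => ty Nb x w = t)).card ≤ R / 16 ^ t % 16) (v : V)
    (hv : ty Nb x v = 0) : False := by
  have h0 : ∀ i < (nat_lit 0), ∀ φ, ¬ PEmb Nb x (T.get i) φ := fun i hi => absurd hi (Nat.not_lt_zero i)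
  have h1 := chkAll_sound H hR c0 h0
  rw [l0] at h1
  have h2 := chkAll_sound H hR c1 h1
  rw [l1] at h2
  exact no_root h2 (Nat.lt_succ_self (nat_lit 82)) r v hv

end Q11_4_0_1_6_0

namespace Q11_4_0_2_4_1

open Finset Classical

/-- degree, order and types -/
def C : Cl := ⟨nat_lit 4,nat_lit 11,[nat_lit 3,nat_lit 7,nat_lit 0,nat_lit 4,nat_lit 8]⟩

/-- the numbers of vertices of each type -/
def R : ℕ := nat_lit 4295245826

/-- part of the table -/
noncomputable def T0 : Tr := (.node (.node (.node (.node (.node (lf (nat_lit 8) (nat_lit 2993158631463790307024628768399326497821171875054100)) (lf (nat_lit 10) (nat_lit 842499256082569361940321378423004606990794220465242556739568570400))) (.node (lf (nat_lit 10) (nat_lit 842499256082569361940321378423004606990813638836220116651699367984)) (lf (nat_lit 9) (nat_lit 50216868882332406159658514167249477326320676416190217716244)))) (.node (.node (lf (nat_lit 6) (nat_lit 5316923708907734492244781874181833744)) (lf (nat_lit 11) (nat_lit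 14134791999136580020254950875220487660479664648296994866811997240095178768))) (lf (nat_lit 9) (nat_lit 50216868882332406159658514167249477326322414805663831034404)))) (.node (.node (.node (lf (nat_lit 11) (nat_lit 14134791999136580020254950875220487660479990434520671891588317250739798032)) (lf (nat_lit 11) (nat_lit 14134791999136580020254950875220487660479664648335756050903391150301806608))) (.node (lf (nat_lit 11) (nat_lit 14134791999136580020254950852027710910060826820506847945768979903348236320)) (lf (nat_lit 1) (nat_lit 8)))) (.node (.node (lf (nat_lit 6) (nat_lit 5316923708907734492352868267654644752)) (lf (nat_lit 11) (nat_lit 14134791999136580020254950875220487660479664648296994865654572135860932624))) (lf (nat_lit 10) (nat_lit 842499256082569361940321378423004606990794220467552903348409634848))))) (.node (.node (.node (.node (lf (nat_lit 7) (nat_lit 178406156984793562115706728005369096864530708)) (lf (nat_lit 11) (nat_lit 14134791999136580020254950875220487660479664648335756050903391288009195536)))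 (.node (lf (nat_lit 10) (nat_lit 315936893836977888687120747825974721679652091024823129857759121424)) (lf (nat_lit 7) (nat_lit 178406156984793562115706727712635112227078420)))) (.node (.node (lf (nat_lit 9) (nat_lit 50216868882332406159658514167249477326322414805663831038516)) (lf (nat_lit 9) (nat_lit 50216868882332406159658514167249477326321257380559596821044))) (lf (nat_lit 6) (nat_lit 5316912300053616921822976557147226912)))) (.node (.node (.node (lf (nat_lit 9) (nat_lit 50216868882332406159658514167249477326322414805732818946596)) (lf (nat_lit 11) (nat_lit 14134791999136580020254950875220487660479664648296994866811997515241529376))) (lf (nat_lit 11) (nat_lit 14134791999136580020254950852027712654008142367304106517056460959804039184))) (.node (.node (lf (nat_lit 9) (nat_lit 18831306328593366663880392779467983345964675606776662464544)) (lf (nat_lit 9) (nat_lit 50216868882332406159658514167249477326321257380559596814868))) (lf (nat_lit 10) (nat_lit 842499256082569361940321378423004606990794220465242556739568578608))))))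

/-- the table -/
noncomputable def T : Tr := T0

/-- part of the certificates -/
def L0 : List Prf := [(.br (nat_lit 3) (nat_lit 0) (.cons (.br (nat_lit 4) (nat_lit 0) (.cons (.br (nat_lit 4) (nat_lit 0) .nil) .nil)) (.cons (.br (nat_lit 7) (nat_lit 1) (.cons (.br (nat_lit 4) (nat_lit 0) (.cons (.kr (nat_lit 4294967552) (nat_lit 16842752) (nat_lit 1) (nat_lit 0)) .nil)) .nil)) .nil))),
 (.br (nat_lit 2) (nat_lit 0) (.cons (.kr (nat_lit 256) (nat_lit 65536) (nat_lit 1) (nat_lit 0)) (.cons (.br (nat_lit 6) (nat_lit 1) (.cons (.rf (nat_lit 0) (nat_lit 247132686368)) (.cons (.rf (nat_lit 0) (nat_lit 247131670560)) .nil))) .nil))),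
 (.br (nat_lit 7) (nat_lit 0) (.cons (.br (nat_lit 9) (nat_lit 0) (.cons (.ev (nat_lit 9481699355918562557952) (nat_lit 2)) .nil)) (.cons (.kr (nat_lit 36893490346459136256) (nat_lit 144678142324310016) (nat_lit 1) (nat_lit 0)) .nil))),
 (.br (nat_lit 8) (nat_lit 0) (.cons (.ev (nat_lit 282574488403969) (nat_lit 1)) (.cons (.ev (nat_lit 72058697844523009) (nat_lit 1)) (.cons (.br (nat_lit 8) (nat_lit 0) (.cons (.ev (nat_lit 282574488403969) (nat_lit 1)) (.cons (.ev (nat_lit 72058693566398721) (nat_lit 1)) (.cons (.br (nat_lit 6) (nat_lit 0) (.cons (.br (nat_lit 9) (nat_lit 0) (.cons (.br (nat_lit 9) (nat_lit 0) .nil) .nil)) (.cons (.rf (nat_lit 2) (nat_lit 11584701642934304)) (.cons (.rf (nat_lit 2) (nat_lit 10493986108180512)) .nil)))) .nil)))) .nil)))),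
 (.br (nat_lit 4) (nat_lit 0) (.cons (.br (nat_lit 4) (nat_lit 0) .nil) .nil)),
 (.br (nat_lit 6) (nat_lit 0) (.cons (.ev (nat_lit 282574488403969) (nat_lit 1)) (.cons (.rf (nat_lit 3) (nat_lit 7977032615968)) (.cons (.br (nat_lit 8) (nat_lit 0) (.cons (.br (nat_lit 7) (nat_lit 0) (.cons (.br (nat_lit 9) (nat_lit 0) (.cons (.br (nat_lit 9) (nat_lit 0) .nil) .nil)) (.cons (.br (nat_lit 9) (nat_lit 0) (.cons (.br (nat_lit 9) (nat_lit 0) .nil) .nil)) .nil))) (.cons (.ev (nat_lit 18447025552981229569) (nat_lit 1)) (.cons (.br (nat_lit 7) (nat_lit 0) (.cons (.rf (nat_lit 4) (nat_lit 345251013)) (.cons (.rf (nat_lit 4) (nat_lit 312679685)) .nil))) .nil)))) .nil)))),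
 (.br (nat_lit 4) (nat_lit 0) (.cons (.br (nat_lit 5) (nat_lit 0) .nil) .nil)),
 (.br (nat_lit 6) (nat_lit 0) (.cons (.br (nat_lit 7) (nat_lit 0) (.cons (.kr (nat_lit 72057598332895232) (nat_lit 282574488338432) (nat_lit 4) (nat_lit 0)) (.cons (.rf (nat_lit 6) (nat_lit 310614180)) .nil))) (.cons (.br (nat_lit 7) (nat_lit 0) (.cons (.rf (nat_lit 6) (nat_lit 310582436)) (.cons (.kr (nat_lit 72057598332895232) (nat_lit 282574488338432) (nat_lit 4) (nat_lit 0)) .nil))) .nil))),
 (.br (nat_lit 7) (nat_lit 0) (.cons (.rf (nat_lit 7) (nat_lit 10178205453377)) (.cons (.br (nat_lit 8) (nat_lit 0) (.cons (.br (nat_lit 8) (nat_lit 0) (.cons (.ev (nat_lit 18518801672059224321) (nat_lit 1)) .nil)) (.cons (.br (nat_lit 8) (nat_lit 0) (.cons (.ev (nat_lit 18518801672059224321) (nat_lit 1)) .nil)) .nil))) .nil))),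
 (.br (nat_lit 6) (nat_lit 0) (.cons (.br (nat_lit 7) (nat_lit 0) (.cons (.rf (nat_lit 6) (nat_lit 310546662)) (.cons (.kr (nat_lit 72057598332895232) (nat_lit 282574488338432) (nat_lit 4) (nat_lit 0)) .nil))) (.cons (.br (nat_lit 7) (nat_lit 0) (.cons (.br (nat_lit 8) (nat_lit 0) (.cons (.br (nat_lit 8) (nat_lit 0) .nil) .nil)) (.cons (.rf (nat_lit 6) (nat_lit 278009062)) .nil))) .nil))),
 (.br (nat_lit 8) (nat_lit 0) (.cons (.ev (nat_lit 18518801667747545089) (nat_lit 1)) .nil)),
 (.br (nat_lit 7) (nat_lit 0) (.cons (.rf (nat_lit 9) (nat_lit 362021926341697)) (.cons (.br (nat_lit 8) (nat_lit 0) (.cons (.rf (nat_lit 10) (nat_lit 11584701642934304)) (.cons (.rf (nat_lit 10) (nat_lit 10493985067993120)) .nil))) .nil))),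
 (.br (nat_lit 5) (nat_lit 0) (.cons (.rf (nat_lit 3) (nat_lit 9043225708576)) (.cons (.rf (nat_lit 5) (nat_lit 9043225708576)) (.cons (.br (nat_lit 6) (nat_lit 0) (.cons (.rf (nat_lit 5) (nat_lit 7977032615968)) (.cons (.rf (nat_lit 3) (nat_lit 7977032615968)) (.cons (.br (nat_lit 7) (nat_lit 0) (.cons (.rf (nat_lit 7) (nat_lit 10178205453377)) (.cons (.rf (nat_lit 8) (nat_lit 325702574508064)) (.cons (.br (nat_lit 7) (nat_lit 0) (.cons (.rf (nat_lit 7) (nat_lit 10178205453377)) (.cons (.rf (nat_lit 8) (nat_lit 325702574508064)) .nil))) .nil)))) (.cons (.br (nat_lit 7) (nat_lit 0) (.cons (.rf (nat_lit 9) (nat_lit 362021926341697)) (.cons (.rf (nat_lit 11) (nat_lit 11584701642934304)) (.cons (.br (nat_lit 7) (nat_lit 0) (.cons (.rf (nat_lit 9) (nat_lit 362021926341697)) (.cons (.rf (nat_lit 11) (nat_lit 11584701642934304)) .nil))) .nil)))) .nil))))) .nil)))),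
 (.br (nat_lit 4) (nat_lit 0) (.cons (.br (nat_lit 4) (nat_lit 0) .nil) .nil)),
 (.br (nat_lit 6) (nat_lit 0) (.cons (.br (nat_lit 7) (nat_lit 0) (.cons (.ev (nat_lit 18889898844395187667712) (nat_lit 3)) (.cons (.rf (nat_lit 6) (nat_lit 345217285)) .nil))) (.cons (.br (nat_lit 7) (nat_lit 0) (.cons (.rf (nat_lit 6) (nat_lit 345185541)) (.cons (.rf (nat_lit 13) (nat_lit 312713382)) .nil))) .nil))),
 (.br (nat_lit 6) (nat_lit 0) (.cons (.rf (nat_lit 14) (nat_lit 325702574508064)) (.cons (.br (nat_lit 10) (nat_lit 0) (.cons (.rf (nat_lit 13) (nat_lit 312713382)) (.cons (.ev (nat_lit 19000147524024147314432) (nat_lit 3)) .nil))) .nil))),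
 (.br (nat_lit 6) (nat_lit 0) (.cons (.rf (nat_lit 14) (nat_lit 325702574508064)) (.cons (.rf (nat_lit 15) (nat_lit 325702574508064)) (.cons (.br (nat_lit 6) (nat_lit 0) (.cons (.rf (nat_lit 14) (nat_lit 325702574508064)) (.cons (.rf (nat_lit 15) (nat_lit 325702574508064)) .nil))) .nil)))),
 (.br (nat_lit 7) (nat_lit 0) (.cons (.rf (nat_lit 6) (nat_lit 345248998)) (.cons (.ev (nat_lit 18951997163153916932) (nat_lit 3)) .nil))),
 (.br (nat_lit 6) (nat_lit 0) (.cons (.rf (nat_lit 17) (nat_lit 11584701642934304)) (.cons (.rf (nat_lit 17) (nat_lit 10490687670783104)) .nil))),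
 (.br (nat_lit 7) (nat_lit 0) (.cons (.zr (nat_lit 36893490346492691200) (nat_lit 72339077604704258) (nat_lit 10) (nat_lit 5)) .nil)),
 (.br (nat_lit 6) (nat_lit 0) (.cons (.rf (nat_lit 18) (nat_lit 11584701642934304)) (.cons (.br (nat_lit 7) (nat_lit 0) (.cons (.rf (nat_lit 19) (nat_lit 11584701642934304)) (.cons (.rf (nat_lit 19) (nat_lit 10490687670783104)) .nil))) .nil))),
 (.br (nat_lit 5) (nat_lit 0) (.cons (.rf (nat_lit 12) (nat_lit 9043225708576)) (.cons (.rf (nat_lit 12) (nat_lit 9009937551456)) (.cons (.br (nat_lit 8) (nat_lit 0) (.cons (.rf (nat_lit 12) (nat_lit 7877173480576)) (.cons (.rf (nat_lit 12) (nat_lit 6777697567808)) (.cons (.rf (nat_lit 16) (nat_lit 325702574508064)) (.cons (.br (nat_lit 6) (nat_lit 0) (.cons (.rf (nat_lit 18) (nat_lit 11584701642934304)) (.cons (.rf (nat_lit 20) (nat_lit 11584701642934304)) (.cons (.rf (nat_lit 20) (nat_lit 10490687670783104)) .nil)))) .nil))))) .nil)))),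
 (.br (nat_lit 6) (nat_lit 0) (.cons (.rf (nat_lit 21) (nat_lit 7977032615968)) (.cons (.rf (nat_lit 12) (nat_lit 7877173480576)) (.cons (.ev (nat_lit 282578800148481) (nat_lit 1)) .nil)))),
 (.br (nat_lit 4) (nat_lit 0) (.cons (.br (nat_lit 5) (nat_lit 0) (.cons (.rf (nat_lit 12) (nat_lit 9043225708576)) (.cons (.rf (nat_lit 12) (nat_lit 9009937551456)) (.cons (.rf (nat_lit 21) (nat_lit 9043225708576)) (.cons (.br (nat_lit 5) (nat_lit 0) (.cons (.rf (nat_lit 12) (nat_lit 9043225708576)) (.cons (.rf (nat_lit 12) (nat_lit 9009937551456)) (.cons (.rf (nat_lit 21) (nat_lit 9043225708576)) (.cons (.br (nat_lit 6) (nat_lit 0) (.cons (.rf (nat_lit 21) (nat_lit 7977032615968)) (.cons (.rf (nat_lit 12) (nat_lit 7877173480576)) (.cons (.rf (nat_lit 22) (nat_lit 11584701642934304)) (.cons (.rf (nat_lit 22) (nat_lit 10493986108180512)) .nil))))) .nil))))) .nil))))) .nil)),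
 (.br (nat_lit 6) (nat_lit 1) (.cons (.br (nat_lit 7) (nat_lit 1) (.cons (.br (nat_lit 4) (nat_lit 0) (.cons (.kr (nat_lit 4294967552) (nat_lit 16842752) (nat_lit 1) (nat_lit 0)) .nil)) .nil)) (.cons (.br (nat_lit 3) (nat_lit 0) (.cons (.rf (nat_lit 23) (nat_lit 9043225708576)) (.cons (.rf (nat_lit 23) (nat_lit 7978073819168)) .nil))) .nil))),
 (.br (nat_lit 3) (nat_lit 1) (.cons (.br (nat_lit 2) (nat_lit 0) (.cons (.rf (nat_lit 1) (nat_lit 6614517792)) (.cons (.rf (nat_lit 1) (nat_lit 5574330400)) (.cons (.br (nat_lit 2) (nat_lit 0) (.cons (.rf (nat_lit 1) (nat_lit 6614517792)) (.cons (.rf (nat_lit 1) (nat_lit 5574330400)) (.cons (.br (nat_lit 5) (nat_lit 1) (.cons (.rf (nat_lit 24) (nat_lit 9043225708576)) (.cons (.rf (nat_lit 24) (nat_lit 9043224692768)) .nil))) .nil)))) .nil)))) .nil)),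
 (.br (nat_lit 0) (nat_lit 1) (.cons (.br (nat_lit 0) (nat_lit 1) (.cons (.br (nat_lit 0) (nat_lit 1) (.cons (.br (nat_lit 0) (nat_lit 1) (.cons (.br (nat_lit 1) (nat_lit 0) (.cons (.br (nat_lit 1) (nat_lit 0) (.cons (.br (nat_lit 1) (nat_lit 1) (.cons (.rf (nat_lit 25) (nat_lit 6614517792)) (.cons (.rf (nat_lit 25) (nat_lit 6614486048)) (.cons (.rf (nat_lit 25) (nat_lit 6613438496)) .nil)))) .nil)) .nil)) .nil)) .nil)) .nil)) .nil))]

theorem c0 : chkAll C T R L0 (nat_lit 0) = true := by decide +kernel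

theorem l0 : (nat_lit 0) + L0.length = (nat_lit 27) := by decide +kernel

theorem r : isRoot (T.get (nat_lit 26)) (nat_lit 8) = true := by decide +kernel

theorem no {V : Type} [Fintype V] {Nb : V → Finset V} {x : V → ℤ} (H : Hyp C Nb x)
    (hR : ∀ t, (univ.filter (fun w => ty Nb x w = t)).card ≤ R / 16 ^ t % 16) (v : V)
    (hv : ty Nb x v = 8) : False := by
  have h0 : ∀ i < (nat_lit 0), ∀ φ, ¬ PEmb Nb x (T.get i) φ := fun i hi => absurd hi (Nat.not_lt_zero i)
  have h1 := chkAll_sound H hR c0 h0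
  rw [l0] at h1
  exact no_root h1 (Nat.lt_succ_self (nat_lit 26)) r v hv

end Q11_4_0_2_4_1

namespace Q11_4_0_3_2_2

open Finset Classical

/-- degree, order and types -/
def C : Cl := ⟨nat_lit 4,nat_lit 11,[nat_lit 3,nat_lit 7,nat_lit 0,nat_lit 4,nat_lit 8]⟩

/-- the numbers of vertices of each type -/
def R : ℕ := nat_lit 8590082051

/-- part of the table -/
noncomputable def T0 : Tr := (.node (.node (.node (.node (lf (nat_lit 7) (nat_lit 178405965575929210172215095892713502211573028)) (lf (nat_lit 1) (nat_lit 8))) (lf (nat_lit 8) (nat_lit 2993158631463790307024628768399326641936351428084244))) (.node (lf (nat_lit 7) (nat_lit 178405965575962169087821029564418431857459476)) (lf (nat_lit 7) (nat_lit 178406156984793562115706727712635112227078424)))) (.node (.node (lf (nat_lit 7) (nat_lit 178405965575929210172215095892713502211571988)) (lf (nat_lit 7) (nat_lit 178406156984793562115706728005369088073269780))) (.node (lf (nat_lit 7) (nat_lit 178405965575940619027617149664592987902968084))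 (lf (nat_lit 6) (nat_lit 10633835612819910768002441395092586772)))))

/-- the table -/
noncomputable def T : Tr := T0

/-- part of the certificates -/
def L0 : List Prf := [(.br (nat_lit 3) (nat_lit 0) (.cons (.br (nat_lit 4) (nat_lit 0) (.cons (.br (nat_lit 4) (nat_lit 0) .nil) .nil)) .nil)),
 (.br (nat_lit 3) (nat_lit 0) (.cons (.rf (nat_lit 0) (nat_lit 6614517792)) (.cons (.br (nat_lit 3) (nat_lit 0) (.cons (.rf (nat_lit 0) (nat_lit 6614517792)) .nil)) .nil))),
 (.br (nat_lit 3) (nat_lit 1) (.cons (.br (nat_lit 2) (nat_lit 0) (.cons (.rf (nat_lit 1) (nat_lit 6614517792)) (.cons (.rf (nat_lit 1) (nat_lit 5574330400)) (.cons (.br (nat_lit 2) (nat_lit 0) (.cons (.rf (nat_lit 1) (nat_lit 6614517792)) (.cons (.rf (nat_lit 1) (nat_lit 5574330400)) .nil))) .nil)))) .nil)),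
 (.br (nat_lit 1) (nat_lit 1) (.cons (.rf (nat_lit 2) (nat_lit 6614517792)) (.cons (.rf (nat_lit 2) (nat_lit 6614486048)) (.cons (.rf (nat_lit 2) (nat_lit 6613438496)) .nil)))),
 (.br (nat_lit 3) (nat_lit 0) (.cons (.br (nat_lit 6) (nat_lit 1) (.cons (.br (nat_lit 4) (nat_lit 0) (.cons (.kr (nat_lit 4294967552) (nat_lit 16842752) (nat_lit 1) (nat_lit 0)) .nil)) .nil)) (.cons (.rf (nat_lit 3) (nat_lit 7688225888)) .nil))),
 (.br (nat_lit 2) (nat_lit 0) (.cons (.br (nat_lit 1) (nat_lit 0) (.cons (.kr (nat_lit 256) (nat_lit 65536) (nat_lit 1) (nat_lit 0)) (.cons (.br (nat_lit 7) (nat_lit 1) (.cons (.rf (nat_lit 4) (nat_lit 211766315040)) (.cons (.rf (nat_lit 4) (nat_lit 211765299232)) .nil))) .nil))) (.cons (.rf (nat_lit 3) (nat_lit 7721813056)) .nil))),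
 (.br (nat_lit 3) (nat_lit 1) (.cons (.br (nat_lit 2) (nat_lit 0) (.cons (.rf (nat_lit 5) (nat_lit 5574330400)) (.cons (.rf (nat_lit 5) (nat_lit 5574329408)) (.cons (.rf (nat_lit 5) (nat_lit 7721814048)) .nil)))) .nil)),
 (.br (nat_lit 1) (nat_lit 0) (.cons (.rf (nat_lit 3) (nat_lit 6614517792)) (.cons (.br (nat_lit 1) (nat_lit 1) (.cons (.rf (nat_lit 6) (nat_lit 6614517792)) (.cons (.rf (nat_lit 6) (nat_lit 6614486048)) (.cons (.rf (nat_lit 6) (nat_lit 6613438496)) .nil)))) .nil))),
 (.br (nat_lit 0) (nat_lit 1) (.cons (.br (nat_lit 0) (nat_lit 1) (.cons (.br (nat_lit 0) (nat_lit 1) (.cons (.br (nat_lit 0) (nat_lit 1) (.cons (.br (nat_lit 1) (nat_lit 0) (.cons (.rf (nat_lit 7) (nat_lit 172066848)) (.cons (.br (nat_lit 1) (nat_lit 0) (.cons (.rf (nat_lit 7) (nat_lit 205621280)) .nil)) .nil))) .nil)) .nil)) .nil)) .nil))]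

theorem c0 : chkAll C T R L0 (nat_lit 0) = true := by decide +kernel

theorem l0 : (nat_lit 0) + L0.length = (nat_lit 9) := by decide +kernel

theorem r : isRoot (T.get (nat_lit 8)) (nat_lit 8) = true := by decide +kernel

theorem no {V : Type} [Fintype V] {Nb : V → Finset V} {x : V → ℤ} (H : Hyp C Nb x)
    (hR : ∀ t, (univ.filter (fun w => ty Nb x w = t)).card ≤ R / 16 ^ t % 16) (v : V)
    (hv : ty Nb x v = 8) : False := by
  have h0 : ∀ i < (nat_lit 0), ∀ φ, ¬ PEmb Nb x (T.get i) φ := fun i hi => absurd hi (Nat.not_lt_zero i)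
  have h1 := chkAll_sound H hR c0 h0
  rw [l0] at h1
  exact no_root h1 (Nat.lt_succ_self (nat_lit 8)) r v hv

end Q11_4_0_3_2_2

namespace Q11_4_0_4_0_3

open Finset Classical

/-- degree, order and types -/
def C : Cl := ⟨nat_lit 4,nat_lit 11,[nat_lit 3,nat_lit 7,nat_lit 0,nat_lit 4,nat_lit 8]⟩

/-- the numbers of vertices of each type -/
def R : ℕ := nat_lit 12884918276

/-- part of the table -/
noncomputable def T0 : Tr := (lf (nat_lit 1) (nat_lit 0))

/-- the table -/
noncomputable def T : Tr := T0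

/-- part of the certificates -/
def L0 : List Prf := [(.br (nat_lit 0) (nat_lit 0) (.cons (.br (nat_lit 0) (nat_lit 0) (.cons (.br (nat_lit 0) (nat_lit 0) (.cons (.br (nat_lit 0) (nat_lit 0) .nil) .nil)) .nil)) .nil))]

theorem c0 : chkAll C T R L0 (nat_lit 0) = true := by decide +kernel

theorem l0 : (nat_lit 0) + L0.length = (nat_lit 1) := by decide +kernel

theorem r : isRoot (T.get (nat_lit 0)) (nat_lit 0) = true := by decide +kernel

theorem no {V : Type} [Fintype V] {Nb : V → Finset V} {x : V → ℤ} (H : Hyp C Nb x)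
    (hR : ∀ t, (univ.filter (fun w => ty Nb x w = t)).card ≤ R / 16 ^ t % 16) (v : V)
    (hv : ty Nb x v = 0) : False := by
  have h0 : ∀ i < (nat_lit 0), ∀ φ, ¬ PEmb Nb x (T.get i) φ := fun i hi => absurd hi (Nat.not_lt_zero i)
  have h1 := chkAll_sound H hR c0 h0
  rw [l0] at h1
  exact no_root h1 (Nat.lt_succ_self (nat_lit 0)) r v hv

end Q11_4_0_4_0_3

namespace Q11_6_0_0_1_4

open Finset Classical

/-- degree, order and types -/
def C : Cl := ⟨nat_lit 4,nat_lit 11,[nat_lit 3,nat_lit 7,nat_lit 0,nat_lit 4,nat_lit 8]⟩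

/-- the numbers of vertices of each type -/
def R : ℕ := nat_lit 17179959296

/-- part of the table -/
noncomputable def T0 : Tr := (lf (nat_lit 1) (nat_lit 4))

/-- the table -/
noncomputable def T : Tr := T0

/-- part of the certificates -/
def L0 : List Prf := [(.br (nat_lit 0) (nat_lit 0) .nil)]

theorem c0 : chkAll C T R L0 (nat_lit 0) = true := by decide +kernel

theorem l0 : (nat_lit 0) + L0.length = (nat_lit 1) := by decide +kernel

theorem r : isRoot (T.get (nat_lit 0)) (nat_lit 4) = true := by decide +kernel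

theorem no {V : Type} [Fintype V] {Nb : V → Finset V} {x : V → ℤ} (H : Hyp C Nb x)
    (hR : ∀ t, (univ.filter (fun w => ty Nb x w = t)).card ≤ R / 16 ^ t % 16) (v : V)
    (hv : ty Nb x v = 4) : False := by
  have h0 : ∀ i < (nat_lit 0), ∀ φ, ¬ PEmb Nb x (T.get i) φ := fun i hi => absurd hi (Nat.not_lt_zero i)
  have h1 := chkAll_sound H hR c0 h0
  rw [l0] at h1
  exact no_root h1 (Nat.lt_succ_self (nat_lit 0)) r v hv

end Q11_6_0_0_1_4

end Pool.Agent.H93.Neg
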