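import Pool.Agent.H93.Neg.TabQ13_0_8_1_4_0

/-!
Certificates.
-/

set_option autoImplicit false
set_option maxRecDepth 100000
set_option linter.all false

namespace Pool.Agent.H93.Neg.Q13_0_8_1_4_0

/-- part of the certificates -/
def L0 : List Prf := [(.br (nat_lit 5) (nat_lit 1) (.cons (.br (nat_lit 5) (nat_lit 1) .nil) .nil)),
 (.br (nat_lit 5) (nat_lit 1) (.cons (.rf (nat_lit 0) (nat_lit 6614517792)) (.cons (.br (nat_lit 5) (nat_lit 1) (.cons (.rf (nat_lit 0) (nat_lit 6614517792)) .nil)) .nil))),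
 (.br (nat_lit 6) (nat_lit 1) (.cons (.rf (nat_lit 1) (nat_lit 7791087714)) (.cons (.rf (nat_lit 1) (nat_lit 8831275106)) (.cons (.rf (nat_lit 1) (nat_lit 9905016930)) .nil)))),
 (.br (nat_lit 10) (nat_lit 1) (.cons (.ev (nat_lit 1213666633123047522959361) (nat_lit 1)) (.cons (.br (nat_lit 11) (nat_lit 1) (.cons (.br (nat_lit 11) (nat_lit 1) .nil) .nil)) .nil))),
 (.br (nat_lit 9) (nat_lit 1) (.cons (.rf (nat_lit 3) (nat_lit 14242959524133701664)) (.cons (.rf (nat_lit 3) (nat_lit 13126066816545818656)) .nil))),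
 (.br (nat_lit 8) (nat_lit 1) (.cons (.kr (nat_lit 72339069031415808) (nat_lit 18446745177516146688) (nat_lit 3) (nat_lit 0)) .nil)),
 (.br (nat_lit 9) (nat_lit 1) (.cons (.rf (nat_lit 4) (nat_lit 14242959524133701664)) (.cons (.br (nat_lit 10) (nat_lit 1) (.cons (.rf (nat_lit 5) (nat_lit 13909140160285761)) (.cons (.rf (nat_lit 5) (nat_lit 12818424625531969)) .nil))) .nil))),
 (.br (nat_lit 10) (nat_lit 1) (.cons (.br (nat_lit 10) (nat_lit 1) (.cons (.ev (nat_lit 1213666632842676336066561) (nat_lit 1)) .nil)) (.cons (.br (nat_lit 10) (nat_lit 1) (.cons (.ev (nat_lit 1213666632842676336066561) (nat_lit 1)) .nil)) .nil))),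
 (.br (nat_lit 7) (nat_lit 1) (.cons (.br (nat_lit 7) (nat_lit 1) (.cons (.kr (nat_lit 72057598332895232) (nat_lit 282574488338432) (nat_lit 4) (nat_lit 0)) .nil)) (.cons (.br (nat_lit 7) (nat_lit 1) (.cons (.kr (nat_lit 72057598332895232) (nat_lit 282574488338432) (nat_lit 4) (nat_lit 0)) .nil)) .nil))),
 (.br (nat_lit 9) (nat_lit 1) (.cons (.rf (nat_lit 7) (nat_lit 14242959524133701664)) (.cons (.rf (nat_lit 8) (nat_lit 434660630008930)) .nil))),
 (.br (nat_lit 5) (nat_lit 1) (.cons (.br (nat_lit 5) (nat_lit 1) .nil) .nil)),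
 (.br (nat_lit 11) (nat_lit 1) (.cons (.rf (nat_lit 10) (nat_lit 424473271493)) (.cons (.rf (nat_lit 7) (nat_lit 11867378823910786112)) .nil))),
 (.br (nat_lit 9) (nat_lit 1) (.cons (.rf (nat_lit 9) (nat_lit 14242959524133701664)) (.cons (.br (nat_lit 9) (nat_lit 1) (.cons (.rf (nat_lit 7) (nat_lit 14242959524133701664)) (.cons (.rf (nat_lit 11) (nat_lit 14242959524133701664)) .nil))) (.cons (.br (nat_lit 9) (nat_lit 1) (.cons (.rf (nat_lit 8) (nat_lit 434660630008930)) (.cons (.rf (nat_lit 11) (nat_lit 14242959524133701664)) .nil))) .nil)))),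
 (.br (nat_lit 7) (nat_lit 1) (.cons (.br (nat_lit 7) (nat_lit 1) (.cons (.kr (nat_lit 72057598332895232) (nat_lit 282574488338432) (nat_lit 4) (nat_lit 0)) .nil)) (.cons (.br (nat_lit 7) (nat_lit 1) (.cons (.kr (nat_lit 72057598332895232) (nat_lit 282574488338432) (nat_lit 4) (nat_lit 0)) .nil)) .nil))),
 (.br (nat_lit 9) (nat_lit 1) (.cons (.br (nat_lit 10) (nat_lit 1) (.cons (.ev (nat_lit 1213666633123047522959361) (nat_lit 1)) (.cons (.rf (nat_lit 10) (nat_lit 389105884326)) .nil))) (.cons (.br (nat_lit 11) (nat_lit 1) (.cons (.br (nat_lit 10) (nat_lit 1) (.cons (.ev (nat_lit 1213666633123051801149441) (nat_lit 1)) .nil)) (.cons (.rf (nat_lit 10) (nat_lit 355819887782)) .nil))) (.cons (.rf (nat_lit 13) (nat_lit 434660630008930)) .nil)))),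
 (.br (nat_lit 8) (nat_lit 1) (.cons (.rf (nat_lit 1) (nat_lit 11115207846)) (.cons (.rf (nat_lit 14) (nat_lit 14242959524133701664)) (.cons (.rf (nat_lit 14) (nat_lit 13126066816545818656)) .nil)))),
 (.br (nat_lit 8) (nat_lit 1) (.cons (.kr (nat_lit 18446745173237956608) (nat_lit 72339073309605888) (nat_lit 3) (nat_lit 0)) .nil)),
 (.br (nat_lit 5) (nat_lit 1) (.cons (.rf (nat_lit 10) (nat_lit 247131670529)) (.cons (.br (nat_lit 5) (nat_lit 1) (.cons (.rf (nat_lit 10) (nat_lit 247131670529)) .nil)) .nil))),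
 (.br (nat_lit 8) (nat_lit 1) (.cons (.rf (nat_lit 1) (nat_lit 12155395238)) (.cons (.rf (nat_lit 15) (nat_lit 14242959524133701664)) (.cons (.br (nat_lit 9) (nat_lit 1) (.cons (.br (nat_lit 10) (nat_lit 1) (.cons (.rf (nat_lit 16) (nat_lit 13909140160285761)) (.cons (.rf (nat_lit 16) (nat_lit 12818424625531969)) .nil))) (.cons (.rf (nat_lit 17) (nat_lit 424473271493)) (.cons (.rf (nat_lit 17) (nat_lit 391187274949)) .nil)))) .nil)))),
 (.br (nat_lit 11) (nat_lit 1) (.cons (.ev (nat_lit 1213666632842672057876481) (nat_lit 1)) (.cons (.zr (nat_lit 4345430528) (nat_lit 309489750634853487056257027) (nat_lit 5) (nat_lit 0)) .nil))),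
 (.br (nat_lit 6) (nat_lit 1) (.cons (.br (nat_lit 6) (nat_lit 1) .nil) .nil)),
 (.br (nat_lit 5) (nat_lit 1) (.cons (.br (nat_lit 7) (nat_lit 1) .nil) .nil)),
 (.br (nat_lit 5) (nat_lit 1) (.cons (.rf (nat_lit 21) (nat_lit 6614517792)) (.cons (.br (nat_lit 5) (nat_lit 1) (.cons (.rf (nat_lit 21) (nat_lit 6614517792)) .nil)) .nil))),
 (.br (nat_lit 10) (nat_lit 1) (.cons (.br (nat_lit 11) (nat_lit 1) (.cons (.ev (nat_lit 310693935640959697899552769) (nat_lit 1)) .nil)) .nil)),
 (.br (nat_lit 10) (nat_lit 1) (.cons (.rf (nat_lit 23) (nat_lit 14242959524133701664)) (.cons (.br (nat_lit 10) (nat_lit 1) (.cons (.rf (nat_lit 23) (nat_lit 14242959524133701664)) .nil)) .nil))),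
 (.br (nat_lit 5) (nat_lit 1) (.cons (.rf (nat_lit 22) (nat_lit 7721880610)) (.cons (.br (nat_lit 6) (nat_lit 1) (.cons (.br (nat_lit 6) (nat_lit 1) .nil) .nil)) (.cons (.rf (nat_lit 22) (nat_lit 7788989474)) .nil)))),
 (.br (nat_lit 10) (nat_lit 1) (.cons (.br (nat_lit 11) (nat_lit 1) (.cons (.ev (nat_lit 79228167255149622130936709121) (nat_lit 1)) .nil)) .nil)),
 (.br (nat_lit 10) (nat_lit 1) (.cons (.rf (nat_lit 26) (nat_lit 14242959524133701664)) (.cons (.br (nat_lit 10) (nat_lit 1) (.cons (.rf (nat_lit 26) (nat_lit 14242959524133701664)) .nil)) .nil))),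
 (.br (nat_lit 8) (nat_lit 1) (.cons (.br (nat_lit 9) (nat_lit 1) (.cons (.br (nat_lit 10) (nat_lit 1) (.cons (.rf (nat_lit 19) (nat_lit 14242959524133701664)) (.cons (.rf (nat_lit 20) (nat_lit 424473271493)) .nil))) (.cons (.rf (nat_lit 22) (nat_lit 12156411077)) (.cons (.rf (nat_lit 24) (nat_lit 14242959524133701664)) .nil)))) (.cons (.rf (nat_lit 25) (nat_lit 389005154467)) (.cons (.br (nat_lit 9) (nat_lit 1) (.cons (.rf (nat_lit 27) (nat_lit 14242959524133701664)) (.cons (.rf (nat_lit 22) (nat_lit 12223519941)) (.cons (.br (nat_lit 10) (nat_lit 1) (.cons (.br (nat_lit 10) (nat_lit 1) (.cons (.ev (nat_lit 79228167255149622135248453633) (nat_lit 1)) .nil)) (.cons (.ev (nat_lit 79228167255149622135248453633) (nat_lit 1)) .nil))) .nil)))) .nil)))),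
 (.br (nat_lit 9) (nat_lit 1) (.cons (.rf (nat_lit 22) (nat_lit 10011023589)) (.cons (.br (nat_lit 11) (nat_lit 1) (.cons (.ev (nat_lit 310693935641242272387891201) (nat_lit 1)) (.cons (.zr (nat_lit 8623620608) (nat_lit 309489750634853487056257027) (nat_lit 5) (nat_lit 0)) .nil))) .nil))),
 (.br (nat_lit 9) (nat_lit 1) (.cons (.br (nat_lit 11) (nat_lit 1) (.cons (.ev (nat_lit 310693935640959697899552769) (nat_lit 1)) (.cons (.zr (nat_lit 8623620608) (nat_lit 309489750634573111591174147) (nat_lit 5) (nat_lit 0)) .nil))) (.cons (.br (nat_lit 10) (nat_lit 1) (.cons (.br (nat_lit 11) (nat_lit 1) (.cons (.ev (nat_lit 81395799694887659357553557508) (nat_lit 3)) .nil)) (.cons (.ev (nat_lit 79228167255149904709736792065) (nat_lit 1)) .nil))) .nil))),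
 (.br (nat_lit 9) (nat_lit 1) (.cons (.rf (nat_lit 30) (nat_lit 14242959524133701664)) (.cons (.br (nat_lit 11) (nat_lit 1) (.cons (.zr (nat_lit 8623620608) (nat_lit 309489750634573111591174147) (nat_lit 5) (nat_lit 0)) (.cons (.ev (nat_lit 79228167255149904709736792065) (nat_lit 1)) .nil))) .nil))),
 (.br (nat_lit 8) (nat_lit 1) (.cons (.rf (nat_lit 28) (nat_lit 14242959524133701664)) (.cons (.br (nat_lit 9) (nat_lit 1) (.cons (.rf (nat_lit 29) (nat_lit 14242959524133701664)) (.cons (.rf (nat_lit 22) (nat_lit 10011023589)) (.cons (.br (nat_lit 9) (nat_lit 1) (.cons (.rf (nat_lit 29) (nat_lit 14242959524133701664)) (.cons (.rf (nat_lit 22) (nat_lit 10011023589)) .nil))) .nil)))) (.cons (.br (nat_lit 9) (nat_lit 1) (.cons (.rf (nat_lit 30) (nat_lit 14242959524133701664)) (.cons (.rf (nat_lit 31) (nat_lit 14242959524133701664)) (.cons (.br (nat_lit 9) (nat_lit 1) (.cons (.rf (nat_lit 30) (nat_lit 14242959524133701664)) (.cons (.rf (nat_lit 31) (nat_lit 14242959524133701664))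 .nil))) .nil)))) .nil)))),
 (.br (nat_lit 9) (nat_lit 1) (.cons (.rf (nat_lit 22) (nat_lit 10078132453)) (.cons (.br (nat_lit 11) (nat_lit 1) (.cons (.zr (nat_lit 8623620608) (nat_lit 309489750634853487056257027) (nat_lit 5) (nat_lit 0)) (.cons (.ev (nat_lit 79228167255149904709736792065) (nat_lit 1)) .nil))) .nil))),
 (.br (nat_lit 8) (nat_lit 1) (.cons (.rf (nat_lit 25) (nat_lit 389005154467)) (.cons (.rf (nat_lit 32) (nat_lit 14242959524133701664)) (.cons (.br (nat_lit 9) (nat_lit 1) (.cons (.rf (nat_lit 33) (nat_lit 14242959524133701664)) (.cons (.rf (nat_lit 22) (nat_lit 10078132453)) (.cons (.br (nat_lit 9) (nat_lit 1) (.cons (.rf (nat_lit 33) (nat_lit 14242959524133701664)) (.cons (.rf (nat_lit 22) (nat_lit 10078132453)) .nil))) .nil)))) .nil)))),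
 (.br (nat_lit 8) (nat_lit 1) (.cons (.rf (nat_lit 28) (nat_lit 14242959524133701664)) (.cons (.rf (nat_lit 32) (nat_lit 14242959524133701664)) (.cons (.rf (nat_lit 34) (nat_lit 14242959524133701664)) (.cons (.br (nat_lit 8) (nat_lit 1) (.cons (.rf (nat_lit 28) (nat_lit 14242959524133701664)) (.cons (.rf (nat_lit 32) (nat_lit 14242959524133701664)) (.cons (.rf (nat_lit 34) (nat_lit 14242959524133701664)) .nil)))) .nil))))),
 (.br (nat_lit 7) (nat_lit 1) (.cons (.br (nat_lit 8) (nat_lit 1) (.cons (.rf (nat_lit 2) (nat_lit 12448164942979)) (.cons (.br (nat_lit 9) (nat_lit 1) (.cons (.rf (nat_lit 4) (nat_lit 14242959524133701664)) (.cons (.rf (nat_lit 6) (nat_lit 14242959524133701664)) (.cons (.rf (nat_lit 6) (nat_lit 13126066816545818656)) .nil)))) (.cons (.rf (nat_lit 12) (nat_lit 14242959524133701664)) (.cons (.rf (nat_lit 12) (nat_lit 13126066816545818656)) .nil))))) (.cons (.br (nat_lit 8) (nat_lit 1) (.cons (.rf (nat_lit 2) (nat_lit 12447124723843)) (.cons (.rf (nat_lit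 15) (nat_lit 14242959524133701664)) (.cons (.rf (nat_lit 18) (nat_lit 14242959524133701664)) (.cons (.rf (nat_lit 18) (nat_lit 13126066816545818656)) .nil))))) (.cons (.ev (nat_lit 72339069031415809) (nat_lit 1)) (.cons (.rf (nat_lit 35) (nat_lit 14242959524133701664)) (.cons (.rf (nat_lit 35) (nat_lit 13126066816545818656)) .nil)))))),
 (.br (nat_lit 6) (nat_lit 1) (.cons (.kr (nat_lit 1099511627776) (nat_lit 281474976710656) (nat_lit 5) (nat_lit 0)) (.cons (.rf (nat_lit 36) (nat_lit 14242959524133701664)) (.cons (.rf (nat_lit 36) (nat_lit 14241868808598947872)) (.cons (.rf (nat_lit 36) (nat_lit 11867381089438926880)) (.cons (.rf (nat_lit 36) (nat_lit 11866290373904173088)) .nil)))))),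
 (.br (nat_lit 11) (nat_lit 1) (.cons (.zr (nat_lit 8623620608) (nat_lit 309489750634853487056257027) (nat_lit 5) (nat_lit 0)) .nil)),
 (.br (nat_lit 9) (nat_lit 1) (.cons (.br (nat_lit 10) (nat_lit 1) (.cons (.br (nat_lit 11) (nat_lit 1) (.cons (.zr (nat_lit 4345430528) (nat_lit 309489732260167007384633347) (nat_lit 5) (nat_lit 0)) .nil)) (.cons (.rf (nat_lit 20) (nat_lit 424473207013)) .nil))) (.cons (.rf (nat_lit 22) (nat_lit 12156346597)) (.cons (.br (nat_lit 10) (nat_lit 1) (.cons (.rf (nat_lit 38) (nat_lit 14242959524133701664)) (.cons (.br (nat_lit 10) (nat_lit 1) (.cons (.rf (nat_lit 38) (nat_lit 14242959524133701664)) .nil)) .nil))) .nil)))),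
 (.br (nat_lit 8) (nat_lit 1) (.cons (.kr (nat_lit 72057594037927936) (nat_lit 18446744073709551616) (nat_lit 7) (nat_lit 0)) (.cons (.rf (nat_lit 25) (nat_lit 355717094564)) (.cons (.rf (nat_lit 39) (nat_lit 14242959524133701664)) (.cons (.rf (nat_lit 39) (nat_lit 13126066816545818656)) .nil))))),
 (.br (nat_lit 7) (nat_lit 1) (.cons (.kr (nat_lit 281474976710656) (nat_lit 72057594037927936) (nat_lit 6) (nat_lit 0)) (.cons (.kr (nat_lit 72057598332895232) (nat_lit 282574488338432) (nat_lit 4) (nat_lit 0)) .nil))),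
 (.br (nat_lit 6) (nat_lit 1) (.cons (.rf (nat_lit 41) (nat_lit 325702574508064)) (.cons (.rf (nat_lit 41) (nat_lit 291617681541152)) .nil))),
 (.br (nat_lit 10) (nat_lit 1) (.cons (.ev (nat_lit 79543715783535823962908263428) (nat_lit 3)) .nil)),
 (.br (nat_lit 9) (nat_lit 1) (.cons (.rf (nat_lit 42) (nat_lit 434660630008930)) (.cons (.br (nat_lit 10) (nat_lit 1) (.cons (.rf (nat_lit 43) (nat_lit 14242959524133701664)) (.cons (.rf (nat_lit 43) (nat_lit 13126065751393929248)) .nil))) .nil))),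
 (.br (nat_lit 8) (nat_lit 1) (.cons (.rf (nat_lit 40) (nat_lit 14242958458981812256)) (.cons (.rf (nat_lit 40) (nat_lit 14241867743447058464)) (.cons (.kr (nat_lit 72057594037927936) (nat_lit 18446744073709551616) (nat_lit 7) (nat_lit 0)) (.cons (.br (nat_lit 9) (nat_lit 1) (.cons (.rf (nat_lit 42) (nat_lit 434660630008930)) (.cons (.rf (nat_lit 44) (nat_lit 14242959524133701664)) (.cons (.rf (nat_lit 44) (nat_lit 13126065751393929248)) .nil)))) .nil))))),
 (.br (nat_lit 7) (nat_lit 1) (.cons (.rf (nat_lit 40) (nat_lit 14242959524133701664)) (.cons (.rf (nat_lit 40) (nat_lit 14241868808598947872)) (.cons (.rf (nat_lit 45) (nat_lit 14242959524133701664)) (.cons (.rf (nat_lit 45) (nat_lit 13126066816545818656)) .nil))))),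
 (.br (nat_lit 6) (nat_lit 1) (.cons (.br (nat_lit 6) (nat_lit 1) .nil) .nil)),
 (.br (nat_lit 6) (nat_lit 1) (.cons (.br (nat_lit 6) (nat_lit 1) .nil) .nil)),
 (.br (nat_lit 10) (nat_lit 1) (.cons (.br (nat_lit 11) (nat_lit 1) (.cons (.zr (nat_lit 4345430528) (nat_lit 309489732260167007384633347) (nat_lit 5) (nat_lit 0)) .nil)) (.cons (.rf (nat_lit 48) (nat_lit 424473271493)) .nil))),
 (.br (nat_lit 8) (nat_lit 1) (.cons (.rf (nat_lit 47) (nat_lit 12156411077)) (.cons (.rf (nat_lit 49) (nat_lit 14242959524133701664)) (.cons (.rf (nat_lit 49) (nat_lit 13126066816545818656)) .nil)))),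
 (.br (nat_lit 7) (nat_lit 1) .nil),
 (.br (nat_lit 8) (nat_lit 1) (.cons (.rf (nat_lit 50) (nat_lit 14241868808598947872)) (.cons (.br (nat_lit 10) (nat_lit 1) (.cons (.rf (nat_lit 51) (nat_lit 424473271493)) (.cons (.br (nat_lit 11) (nat_lit 1) (.cons (.ev (nat_lit 79543715857612152135758513156) (nat_lit 3)) .nil)) .nil))) .nil))),
 (.br (nat_lit 8) (nat_lit 1) (.cons (.rf (nat_lit 50) (nat_lit 14241868808598947872)) (.cons (.rf (nat_lit 52) (nat_lit 14242959524133701664)) (.cons (.br (nat_lit 8) (nat_lit 1) (.cons (.rf (nat_lit 48) (nat_lit 391154769093)) (.cons (.rf (nat_lit 52) (nat_lit 14242959524133701664)) .nil))) .nil))))]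

theorem c0 : chkAll C T R L0 (nat_lit 0) = true := by decide +kernel

theorem l0 : (nat_lit 0) + L0.length = (nat_lit 54) := by decide +kernel

/-- part of the certificates -/
def L1 : List Prf := [(.br (nat_lit 6) (nat_lit 1) (.cons (.br (nat_lit 5) (nat_lit 1) (.cons (.rf (nat_lit 51) (nat_lit 247063547905)) .nil)) (.cons (.rf (nat_lit 48) (nat_lit 246092434496)) .nil))),
 (.br (nat_lit 10) (nat_lit 1) (.cons (.br (nat_lit 11) (nat_lit 1) (.cons (.ev (nat_lit 79543715857611030633898181636) (nat_lit 3)) .nil)) .nil)),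
 (.br (nat_lit 8) (nat_lit 1) (.cons (.rf (nat_lit 54) (nat_lit 11116222693)) (.cons (.rf (nat_lit 54) (nat_lit 12156411077)) (.cons (.br (nat_lit 10) (nat_lit 1) (.cons (.rf (nat_lit 55) (nat_lit 14242959524133701664)) (.cons (.rf (nat_lit 55) (nat_lit 13126065751393929248)) .nil))) .nil)))),
 (.br (nat_lit 7) (nat_lit 1) (.cons (.rf (nat_lit 22) (nat_lit 6747758727)) (.cons (.rf (nat_lit 22) (nat_lit 6714172583)) (.cons (.br (nat_lit 8) (nat_lit 1) (.cons (.rf (nat_lit 22) (nat_lit 5606876360)) (.cons (.kr (nat_lit 18446745173221179392) (nat_lit 72339069014638592) (nat_lit 5) (nat_lit 0)) .nil))) .nil)))),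
 (.br (nat_lit 8) (nat_lit 1) (.cons (.rf (nat_lit 54) (nat_lit 11116222693)) (.cons (.rf (nat_lit 57) (nat_lit 398341278175330)) (.cons (.br (nat_lit 9) (nat_lit 1) (.cons (.rf (nat_lit 22) (nat_lit 8964516041)) (.cons (.br (nat_lit 10) (nat_lit 1) (.cons (.rf (nat_lit 22) (nat_lit 11012320551)) (.cons (.kr (nat_lit 1208925891672223212634112) (nat_lit 4740813226943354765312) (nat_lit 7) (nat_lit 0)) .nil))) (.cons (.br (nat_lit 10) (nat_lit 1) (.cons (.br (nat_lit 11) (nat_lit 1) (.cons (.ev (nat_lit 80775615898002592709015110660) (nat_lit 3)) .nil)) (.cons (.rf (nat_lit 22) (nat_lit 9905025352)) .nil))) .nil)))) .nil)))),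
 (.br (nat_lit 8) (nat_lit 1) (.cons (.rf (nat_lit 54) (nat_lit 12156411077)) (.cons (.rf (nat_lit 57) (nat_lit 398341278175330)) (.cons (.br (nat_lit 9) (nat_lit 1) (.cons (.br (nat_lit 11) (nat_lit 1) (.cons (.ev (nat_lit 311917028632362005041447426) (nat_lit 2)) (.cons (.zr (nat_lit 8623620608) (nat_lit 309489750634853487056257027) (nat_lit 5) (nat_lit 0)) .nil))) (.cons (.ev (nat_lit 309489787672176451381297666) (nat_lit 2)) (.cons (.br (nat_lit 11) (nat_lit 1) (.cons (.zr (nat_lit 8623620608) (nat_lit 309489750634853487056257027) (nat_lit 5) (nat_lit 0)) (.cons (.ev (nat_lit 158765824205666486080399016450) (nat_lit 2)) .nil))) .nil)))) .nil)))),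
 (.br (nat_lit 8) (nat_lit 1) (.cons (.rf (nat_lit 56) (nat_lit 14242959524133701664)) (.cons (.rf (nat_lit 58) (nat_lit 14242959524133701664)) (.cons (.rf (nat_lit 59) (nat_lit 14242959524133701664)) (.cons (.br (nat_lit 8) (nat_lit 1) (.cons (.rf (nat_lit 56) (nat_lit 14242959524133701664)) (.cons (.rf (nat_lit 58) (nat_lit 14242959524133701664)) (.cons (.rf (nat_lit 59) (nat_lit 14242959524133701664)) .nil)))) .nil))))),
 (.br (nat_lit 7) (nat_lit 1) (.cons (.rf (nat_lit 46) (nat_lit 14242959524133701664)) (.cons (.br (nat_lit 9) (nat_lit 1) (.cons (.rf (nat_lit 50) (nat_lit 14242959524133701664)) (.cons (.kr (nat_lit 4722366482869645213696) (nat_lit 1208925819614629174706176) (nat_lit 9) (nat_lit 0)) (.cons (.rf (nat_lit 53) (nat_lit 14242959524133701664)) (.cons (.rf (nat_lit 53) (nat_lit 13126066816545818656)) .nil))))) (.cons (.rf (nat_lit 60) (nat_lit 14242959524133701664)) (.cons (.rf (nat_lit 60) (nat_lit 13126066816545818656)) .nil))))),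
 (.br (nat_lit 9) (nat_lit 1) (.cons (.br (nat_lit 10) (nat_lit 1) (.cons (.ev (nat_lit 79543715783535823945661285380) (nat_lit 3)) .nil)) (.cons (.rf (nat_lit 54) (nat_lit 9873796263)) .nil))),
 (.br (nat_lit 8) (nat_lit 1) (.cons (.rf (nat_lit 61) (nat_lit 14242958458981812256)) (.cons (.rf (nat_lit 61) (nat_lit 14241867743447058464)) (.cons (.br (nat_lit 11) (nat_lit 1) (.cons (.rf (nat_lit 62) (nat_lit 14242959524133701664)) (.cons (.rf (nat_lit 62) (nat_lit 14241868808598947872)) (.cons (.kr (nat_lit 309485009821345068724781056) (nat_lit 79228162514264337593543950336) (nat_lit 11) (nat_lit 0)) .nil)))) .nil)))),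
 (.br (nat_lit 7) (nat_lit 1) (.cons (.rf (nat_lit 46) (nat_lit 14242959524133701664)) (.cons (.rf (nat_lit 61) (nat_lit 14242959524133701664)) (.cons (.rf (nat_lit 61) (nat_lit 14241868808598947872)) (.cons (.br (nat_lit 8) (nat_lit 1) (.cons (.rf (nat_lit 61) (nat_lit 14242958458981812256)) (.cons (.rf (nat_lit 61) (nat_lit 14241867743447058464)) (.cons (.rf (nat_lit 63) (nat_lit 14242959524133701664)) (.cons (.rf (nat_lit 63) (nat_lit 13126066816545818656)) .nil))))) .nil))))),
 (.br (nat_lit 10) (nat_lit 1) (.cons (.br (nat_lit 10) (nat_lit 1) (.cons (.ev (nat_lit 1213648258436567851335681) (nat_lit 1)) .nil)) (.cons (.br (nat_lit 10) (nat_lit 1) (.cons (.ev (nat_lit 1213648258436567851335681) (nat_lit 1)) .nil)) .nil))),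
 (.br (nat_lit 10) (nat_lit 1) (.cons (.ev (nat_lit 1213666633123047522959361) (nat_lit 1)) (.cons (.br (nat_lit 11) (nat_lit 1) (.cons (.ev (nat_lit 309489750706629606117539841) (nat_lit 1)) (.cons (.zr (nat_lit 8623620608) (nat_lit 310693935713018391449042947) (nat_lit 5) (nat_lit 0)) .nil))) .nil))),
 (.br (nat_lit 5) (nat_lit 1) (.cons (.rf (nat_lit 20) (nat_lit 179520441408)) (.cons (.br (nat_lit 5) (nat_lit 1) (.cons (.rf (nat_lit 20) (nat_lit 179520441408)) .nil)) .nil))),
 (.br (nat_lit 8) (nat_lit 1) (.cons (.kr (nat_lit 72057594037927936) (nat_lit 18446744073709551616) (nat_lit 7) (nat_lit 0)) (.cons (.br (nat_lit 9) (nat_lit 1) (.cons (.rf (nat_lit 22) (nat_lit 11116159205)) (.cons (.rf (nat_lit 67) (nat_lit 355820903621)) (.cons (.rf (nat_lit 65) (nat_lit 14242959524133701664)) .nil)))) (.cons (.rf (nat_lit 25) (nat_lit 389003091107)) (.cons (.br (nat_lit 9) (nat_lit 1) (.cons (.br (nat_lit 10) (nat_lit 1) (.cons (.rf (nat_lit 66) (nat_lit 14242959524133701664))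 (.cons (.br (nat_lit 10) (nat_lit 1) (.cons (.rf (nat_lit 66) (nat_lit 14242959524133701664)) .nil)) .nil))) (.cons (.rf (nat_lit 67) (nat_lit 424473271493)) (.cons (.rf (nat_lit 22) (nat_lit 13263642853)) .nil)))) .nil))))),
 (.br (nat_lit 9) (nat_lit 1) (.cons (.br (nat_lit 11) (nat_lit 1) (.cons (.ev (nat_lit 309489750706912184917622785) (nat_lit 1)) (.cons (.ev (nat_lit 309489732188110517170143233) (nat_lit 1)) .nil))) (.cons (.br (nat_lit 10) (nat_lit 1) (.cons (.br (nat_lit 11) (nat_lit 1) (.cons (.ev (nat_lit 309489732188110512858398721) (nat_lit 1)) .nil)) (.cons (.ev (nat_lit 79229371440083952222718722049) (nat_lit 1)) .nil))) .nil))),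
 (.br (nat_lit 9) (nat_lit 1) (.cons (.rf (nat_lit 69) (nat_lit 14242959524133701664)) (.cons (.br (nat_lit 11) (nat_lit 1) (.cons (.ev (nat_lit 309489732188110517170143233) (nat_lit 1)) (.cons (.ev (nat_lit 309489750706912184917622785) (nat_lit 1)) .nil))) .nil))),
 (.br (nat_lit 8) (nat_lit 1) (.cons (.rf (nat_lit 68) (nat_lit 14242958458981812256)) (.cons (.kr (nat_lit 72057594037927936) (nat_lit 18446744073709551616) (nat_lit 7) (nat_lit 0)) (.cons (.rf (nat_lit 68) (nat_lit 11867380024287037472)) (.cons (.br (nat_lit 9) (nat_lit 1) (.cons (.rf (nat_lit 69) (nat_lit 14242959524133701664)) (.cons (.rf (nat_lit 70) (nat_lit 14242959524133701664)) (.cons (.br (nat_lit 9) (nat_lit 1) (.cons (.rf (nat_lit 69) (nat_lit 14242959524133701664)) (.cons (.rf (nat_lit 70) (nat_lit 14242959524133701664)) .nil))) .nil)))) .nil))))),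
 (.br (nat_lit 7) (nat_lit 1) (.cons (.rf (nat_lit 68) (nat_lit 14242959524133701664)) (.cons (.rf (nat_lit 71) (nat_lit 14242959524133701664)) (.cons (.rf (nat_lit 68) (nat_lit 11867381089438926880)) (.cons (.rf (nat_lit 71) (nat_lit 11867381089438926880)) .nil))))),
 (.br (nat_lit 10) (nat_lit 1) (.cons (.ev (nat_lit 1213666633123047522959361) (nat_lit 1)) .nil)),
 (.br (nat_lit 8) (nat_lit 1) (.cons (.rf (nat_lit 54) (nat_lit 11116223685)) (.cons (.rf (nat_lit 54) (nat_lit 12156410085)) (.cons (.br (nat_lit 10) (nat_lit 1) (.cons (.rf (nat_lit 73) (nat_lit 14242959524133701664)) (.cons (.rf (nat_lit 73) (nat_lit 13126064619670045760)) .nil))) .nil)))),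
 (.br (nat_lit 11) (nat_lit 1) (.cons (.ev (nat_lit 310693935641242276699570433) (nat_lit 1)) (.cons (.ev (nat_lit 309489732187827938370060289) (nat_lit 1)) (.cons (.zr (nat_lit 8623620608) (nat_lit 310693935713298766914125827) (nat_lit 5) (nat_lit 0)) .nil)))),
 (.br (nat_lit 8) (nat_lit 1) (.cons (.rf (nat_lit 54) (nat_lit 11116223685)) (.cons (.br (nat_lit 10) (nat_lit 1) (.cons (.ev (nat_lit 1213666633123047522959361) (nat_lit 1)) (.cons (.ev (nat_lit 310693935713583540442694146) (nat_lit 2)) (.cons (.rf (nat_lit 75) (nat_lit 14242959524133701664)) .nil)))) (.cons (.br (nat_lit 9) (nat_lit 1) (.cons (.ev (nat_lit 1213648258156192386252801) (nat_lit 1)) (.cons (.br (nat_lit 10) (nat_lit 1) (.cons (.ev (nat_lit 1213666633123051801149441) (nat_lit 1)) (.cons (.ev (nat_lit 1213648258156196664442881) (nat_lit 1)) .nil))) (.cons (.br (nat_lit 10) (nat_lit 1) (.cons (.ev (nat_lit 1213648258156196664442881) (nat_lit 1)) (.cons (.ev (nat_lit 1213666633123051801149441) (nat_lit 1))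 .nil))) .nil)))) .nil)))),
 (.br (nat_lit 8) (nat_lit 1) (.cons (.rf (nat_lit 54) (nat_lit 12156410085)) (.cons (.rf (nat_lit 76) (nat_lit 14242959524133701664)) (.cons (.br (nat_lit 9) (nat_lit 1) (.cons (.br (nat_lit 11) (nat_lit 1) (.cons (.ev (nat_lit 309489750706912184917622785) (nat_lit 1)) (.cons (.ev (nat_lit 309489732187827942681804801) (nat_lit 1)) .nil))) (.cons (.ev (nat_lit 309489732187827938370060289) (nat_lit 1)) (.cons (.br (nat_lit 11) (nat_lit 1) (.cons (.ev (nat_lit 309489732187827942681804801) (nat_lit 1)) (.cons (.ev (nat_lit 309489750706912184917622785) (nat_lit 1)) .nil))) .nil)))) .nil)))),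
 (.br (nat_lit 8) (nat_lit 1) (.cons (.rf (nat_lit 74) (nat_lit 407901468851537952)) (.cons (.rf (nat_lit 76) (nat_lit 14242959524133701664)) (.cons (.rf (nat_lit 77) (nat_lit 14242959524133701664)) (.cons (.br (nat_lit 8) (nat_lit 1) (.cons (.rf (nat_lit 74) (nat_lit 407901468851537952)) (.cons (.rf (nat_lit 76) (nat_lit 14242959524133701664)) (.cons (.rf (nat_lit 77) (nat_lit 14242959524133701664)) .nil)))) .nil))))),
 (.br (nat_lit 8) (nat_lit 1) (.cons (.rf (nat_lit 74) (nat_lit 407900403699648544)) (.cons (.rf (nat_lit 54) (nat_lit 12223518949)) (.cons (.rf (nat_lit 54) (nat_lit 13263707333)) .nil)))),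
 (.br (nat_lit 8) (nat_lit 1) (.cons (.rf (nat_lit 74) (nat_lit 407900403699648544)) (.cons (.br (nat_lit 9) (nat_lit 1) (.cons (.br (nat_lit 11) (nat_lit 1) (.cons (.ev (nat_lit 309489750706912184917622785) (nat_lit 1)) (.cons (.ev (nat_lit 309489732187827942681804801) (nat_lit 1)) .nil))) (.cons (.ev (nat_lit 309489732187827938370060289) (nat_lit 1)) (.cons (.br (nat_lit 11) (nat_lit 1) (.cons (.ev (nat_lit 309489732187827942681804801) (nat_lit 1)) (.cons (.ev (nat_lit 309489750706912184917622785) (nat_lit 1)) .nil))) .nil)))) (.cons (.br (nat_lit 9) (nat_lit 1) (.cons (.br (nat_lit 12) (nat_lit 1) (.cons (.rf (nat_lit 22) (nat_lit 9872517512)) (.cons (.zr (nat_lit 8623620608) (nat_lit 79228167255077846011875426307) (nat_lit 5) (nat_lit 0)) .nil))) (.cons (.br (nat_lit 12) (nat_lit 1) (.cons (.zr (nat_lit 8623620608) (nat_lit 79228167255077846011875426307) (nat_lit 5) (nat_lit 0)) (.cons (.rf (nat_lit 22) (nat_lit 13160852774)) .nil))) (.cons (.rf (nat_lit 22) (nat_lit 8964485353))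 .nil)))) .nil)))),
 (.br (nat_lit 7) (nat_lit 1) (.cons (.rf (nat_lit 72) (nat_lit 14242959524133701664)) (.cons (.rf (nat_lit 78) (nat_lit 14242959524133701664)) (.cons (.br (nat_lit 9) (nat_lit 1) (.cons (.br (nat_lit 8) (nat_lit 1) (.cons (.rf (nat_lit 54) (nat_lit 12156377349)) (.cons (.ev (nat_lit 309489732188110512858398721) (nat_lit 1)) (.cons (.rf (nat_lit 54) (nat_lit 12223486213)) .nil)))) (.cons (.rf (nat_lit 74) (nat_lit 369553736341721184)) (.cons (.rf (nat_lit 1) (nat_lit 8930962633)) (.cons (.rf (nat_lit 74) (nat_lit 441611330379649120)) .nil))))) (.cons (.br (nat_lit 8) (nat_lit 1) (.cons (.rf (nat_lit 79) (nat_lit 14242959524133701664)) (.cons (.rf (nat_lit 80) (nat_lit 14242959524133701664)) (.cons (.br (nat_lit 8) (nat_lit 1) (.cons (.rf (nat_lit 54) (nat_lit 12223518949)) (.cons (.rf (nat_lit 80) (nat_lit 14242959524133701664)) (.cons (.rf (nat_lit 78) (nat_lit 11867380024287037472)) .nil)))) (.cons (.br (nat_lit 8) (nat_lit 1) (.cons (.rf (nat_lit 54) (nat_lit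 13263707333)) (.cons (.rf (nat_lit 80) (nat_lit 14242959524133701664)) (.cons (.rf (nat_lit 78) (nat_lit 11867380024287037472)) .nil)))) .nil))))) .nil))))),
 (.br (nat_lit 8) (nat_lit 1) (.cons (.rf (nat_lit 81) (nat_lit 14242958458981812256)) (.cons (.rf (nat_lit 81) (nat_lit 11867380024287037472)) (.cons (.br (nat_lit 10) (nat_lit 1) (.cons (.br (nat_lit 12) (nat_lit 1) (.cons (.ev (nat_lit 79229371440084234801518804993) (nat_lit 1)) (.cons (.ev (nat_lit 79229371458602753894777946113) (nat_lit 1)) .nil))) (.cons (.br (nat_lit 12) (nat_lit 1) (.cons (.ev (nat_lit 79229371458602753894777946113) (nat_lit 1)) (.cons (.ev (nat_lit 79229371440084234801518804993) (nat_lit 1)) .nil))) (.cons (.ev (nat_lit 79229371458602753890466201601) (nat_lit 1)) .nil)))) .nil)))),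
 (.br (nat_lit 7) (nat_lit 1) (.cons (.rf (nat_lit 72) (nat_lit 14242959524133701664)) (.cons (.rf (nat_lit 81) (nat_lit 14242959524133701664)) (.cons (.rf (nat_lit 81) (nat_lit 11867381089438926880)) (.cons (.br (nat_lit 8) (nat_lit 1) (.cons (.rf (nat_lit 81) (nat_lit 14242958458981812256)) (.cons (.rf (nat_lit 82) (nat_lit 14242959524133701664)) (.cons (.rf (nat_lit 81) (nat_lit 11867380024287037472)) (.cons (.rf (nat_lit 82) (nat_lit 11867381089438926880)) .nil))))) .nil))))),
 (.br (nat_lit 7) (nat_lit 1) (.cons (.rf (nat_lit 72) (nat_lit 14242959524133701664)) (.cons (.rf (nat_lit 81) (nat_lit 14242959524133701664)) (.cons (.rf (nat_lit 83) (nat_lit 14242959524133701664)) (.cons (.rf (nat_lit 81) (nat_lit 11867381089438926880)) (.cons (.rf (nat_lit 83) (nat_lit 11867381089438926880)) .nil)))))),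
 (.br (nat_lit 6) (nat_lit 1) (.cons (.rf (nat_lit 37) (nat_lit 14242959524133701664)) (.cons (.rf (nat_lit 37) (nat_lit 14242958458981812256)) (.cons (.br (nat_lit 7) (nat_lit 1) (.cons (.rf (nat_lit 46) (nat_lit 14242959524133701664)) (.cons (.rf (nat_lit 61) (nat_lit 14242959524133701664)) (.cons (.rf (nat_lit 61) (nat_lit 14241868808598947872)) (.cons (.rf (nat_lit 64) (nat_lit 14242959524133701664)) (.cons (.rf (nat_lit 64) (nat_lit 13126066816545818656)) .nil)))))) (.cons (.rf (nat_lit 84) (nat_lit 14242959524133701664)) (.cons (.rf (nat_lit 84) (nat_lit 13126066816545818656)) .nil)))))),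
 (.br (nat_lit 6) (nat_lit 1) (.cons (.rf (nat_lit 37) (nat_lit 14242959524133701664)) (.cons (.rf (nat_lit 37) (nat_lit 14242958458981812256)) (.cons (.rf (nat_lit 85) (nat_lit 14242959524133701664)) (.cons (.rf (nat_lit 85) (nat_lit 14241868808598947872)) (.cons (.rf (nat_lit 85) (nat_lit 11867381089438926880)) (.cons (.rf (nat_lit 85) (nat_lit 11866290373904173088)) .nil))))))),
 (.br (nat_lit 10) (nat_lit 1) (.cons (.rf (nat_lit 22) (nat_lit 11017689317)) (.cons (.br (nat_lit 11) (nat_lit 1) (.cons (.kr (nat_lit 929668677650414179970974208) (nat_lit 79228162532783142568416247808) (nat_lit 1) (nat_lit 0)) .nil)) .nil))),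
 (.br (nat_lit 8) (nat_lit 1) (.cons (.br (nat_lit 9) (nat_lit 1) (.cons (.rf (nat_lit 67) (nat_lit 386960431397)) (.cons (.rf (nat_lit 67) (nat_lit 352601709861)) (.cons (.br (nat_lit 10) (nat_lit 1) (.cons (.rf (nat_lit 67) (nat_lit 318241938758)) (.cons (.br (nat_lit 11) (nat_lit 1) (.cons (.ev (nat_lit 80779228637561814848538804228) (nat_lit 3)) .nil)) .nil))) .nil)))) (.cons (.br (nat_lit 9) (nat_lit 1) (.cons (.rf (nat_lit 67) (nat_lit 386960431397)) (.cons (.rf (nat_lit 87) (nat_lit 14242959524133701664)) (.cons (.br (nat_lit 10) (nat_lit 1) (.cons (.rf (nat_lit 87) (nat_lit 14241868807558760480)) (.cons (.rf (nat_lit 17) (nat_lit 247340380425)) .nil))) .nil)))) .nil))),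
 (.br (nat_lit 8) (nat_lit 1) (.cons (.rf (nat_lit 88) (nat_lit 14242959524133701664)) (.cons (.br (nat_lit 8) (nat_lit 1) (.cons (.rf (nat_lit 88) (nat_lit 14242959524133701664)) (.cons (.ev (nat_lit 18446745177516212481) (nat_lit 1)) .nil))) (.cons (.br (nat_lit 8) (nat_lit 1) (.cons (.rf (nat_lit 88) (nat_lit 14242959524133701664)) (.cons (.ev (nat_lit 18446745177516212481) (nat_lit 1)) .nil))) .nil))))]

theorem c1 : chkAll C T R L1 (nat_lit 54) = true := by decide +kernel

theorem l1 : (nat_lit 54) + L1.length = (nat_lit 90) := by decide +kernel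

/-- part of the certificates -/
def L2 : List Prf := [(.br (nat_lit 8) (nat_lit 1) (.cons (.rf (nat_lit 89) (nat_lit 14242959524133701664)) (.cons (.rf (nat_lit 89) (nat_lit 14241868807558760480)) (.cons (.br (nat_lit 8) (nat_lit 1) (.cons (.ev (nat_lit 18446745177516212481) (nat_lit 1)) (.cons (.ev (nat_lit 18447025552981295361) (nat_lit 1)) .nil))) .nil)))),
 (.br (nat_lit 8) (nat_lit 1) (.cons (.rf (nat_lit 89) (nat_lit 14242959524133701664)) (.cons (.rf (nat_lit 89) (nat_lit 14241868807558760480)) (.cons (.rf (nat_lit 90) (nat_lit 14242959524133701664)) (.cons (.br (nat_lit 8) (nat_lit 1) (.cons (.rf (nat_lit 89) (nat_lit 14242959524133701664)) (.cons (.rf (nat_lit 89) (nat_lit 14241868807558760480)) (.cons (.rf (nat_lit 90) (nat_lit 14242959524133701664)) .nil)))) .nil))))),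
 (.br (nat_lit 11) (nat_lit 1) (.cons (.zr (nat_lit 8623620608) (nat_lit 309489750634853487056257027) (nat_lit 5) (nat_lit 0)) .nil)),
 (.br (nat_lit 8) (nat_lit 1) (.cons (.ev (nat_lit 18447025548703105281) (nat_lit 1)) (.cons (.br (nat_lit 10) (nat_lit 1) (.cons (.rf (nat_lit 92) (nat_lit 14242959524133701664)) (.cons (.br (nat_lit 10) (nat_lit 1) (.cons (.rf (nat_lit 92) (nat_lit 14242959524133701664)) .nil)) .nil))) .nil))),
 (.br (nat_lit 8) (nat_lit 1) (.cons (.br (nat_lit 11) (nat_lit 1) (.cons (.zr (nat_lit 8623620608) (nat_lit 309489750634573111591174147) (nat_lit 5) (nat_lit 0)) .nil)) .nil)),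
 (.br (nat_lit 10) (nat_lit 1) (.cons (.rf (nat_lit 17) (nat_lit 287098346665)) (.cons (.br (nat_lit 8) (nat_lit 1) (.cons (.rf (nat_lit 94) (nat_lit 14242959524133701664)) (.cons (.br (nat_lit 8) (nat_lit 1) (.cons (.rf (nat_lit 94) (nat_lit 14242959524133701664)) .nil)) .nil))) .nil))),
 (.br (nat_lit 8) (nat_lit 1) (.cons (.rf (nat_lit 95) (nat_lit 14242959524133701664)) (.cons (.br (nat_lit 8) (nat_lit 1) (.cons (.rf (nat_lit 95) (nat_lit 14242959524133701664)) .nil)) .nil))),
 (.br (nat_lit 8) (nat_lit 1) (.cons (.br (nat_lit 11) (nat_lit 1) (.cons (.zr (nat_lit 8623620608) (nat_lit 309489750634573111591174147) (nat_lit 5) (nat_lit 0)) (.cons (.zr (nat_lit 12901810688) (nat_lit 309489750634853487056257027) (nat_lit 5) (nat_lit 0)) .nil))) .nil)),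
 (.br (nat_lit 8) (nat_lit 1) (.cons (.rf (nat_lit 97) (nat_lit 14242959524133701664)) (.cons (.br (nat_lit 8) (nat_lit 1) (.cons (.rf (nat_lit 97) (nat_lit 14242959524133701664)) .nil)) .nil))),
 (.br (nat_lit 8) (nat_lit 1) (.cons (.rf (nat_lit 98) (nat_lit 14242959524133701664)) (.cons (.br (nat_lit 8) (nat_lit 1) (.cons (.rf (nat_lit 98) (nat_lit 14242959524133701664)) .nil)) .nil))),
 (.br (nat_lit 9) (nat_lit 1) (.cons (.br (nat_lit 8) (nat_lit 1) (.cons (.rf (nat_lit 93) (nat_lit 14242959524133701664)) (.cons (.br (nat_lit 8) (nat_lit 1) (.cons (.ev (nat_lit 18447025548703105281) (nat_lit 1)) (.cons (.ev (nat_lit 18446745177516212481) (nat_lit 1)) .nil))) (.cons (.br (nat_lit 8) (nat_lit 1) (.cons (.rf (nat_lit 93) (nat_lit 14242959524133701664)) (.cons (.ev (nat_lit 18446745177516212481) (nat_lit 1)) .nil))) .nil)))) (.cons (.br (nat_lit 8) (nat_lit 1) (.cons (.rf (nat_lit 95) (nat_lit 14242959524133701664)) (.cons (.rf (nat_lit 96) (nat_lit 14242959524133701664)) (.cons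 (.br (nat_lit 8) (nat_lit 1) (.cons (.rf (nat_lit 95) (nat_lit 14242959524133701664)) (.cons (.rf (nat_lit 96) (nat_lit 14242959524133701664)) .nil))) .nil)))) (.cons (.rf (nat_lit 2) (nat_lit 11282114876514)) (.cons (.br (nat_lit 8) (nat_lit 1) (.cons (.rf (nat_lit 98) (nat_lit 14242959524133701664)) (.cons (.rf (nat_lit 99) (nat_lit 14242959524133701664)) (.cons (.br (nat_lit 8) (nat_lit 1) (.cons (.rf (nat_lit 98) (nat_lit 14242959524133701664)) (.cons (.rf (nat_lit 99) (nat_lit 14242959524133701664)) .nil))) .nil)))) .nil))))),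
 (.br (nat_lit 7) (nat_lit 1) (.cons (.rf (nat_lit 86) (nat_lit 14242957258605560896)) (.cons (.rf (nat_lit 100) (nat_lit 14242959524133701664)) (.cons (.ev (nat_lit 72058693566332929) (nat_lit 1)) (.cons (.rf (nat_lit 100) (nat_lit 11867381088398739488)) (.cons (.ev (nat_lit 72339073309605889) (nat_lit 1)) .nil)))))),
 (.br (nat_lit 6) (nat_lit 1) (.cons (.rf (nat_lit 86) (nat_lit 14242959523093514272)) (.cons (.kr (nat_lit 1099511627776) (nat_lit 281474976710656) (nat_lit 5) (nat_lit 0)) (.cons (.br (nat_lit 7) (nat_lit 1) (.cons (.rf (nat_lit 86) (nat_lit 14242957258605560896)) (.cons (.ev (nat_lit 72339069031415809) (nat_lit 1)) (.cons (.ev (nat_lit 72058693566332929) (nat_lit 1)) (.cons (.rf (nat_lit 91) (nat_lit 14242959524133701664)) (.cons (.rf (nat_lit 91) (nat_lit 13126066816545818656)) .nil)))))) (.cons (.rf (nat_lit 101) (nat_lit 14242959524133701664)) (.cons (.rf (nat_lit 101) (nat_lit 13126066816545818656)) .nil)))))),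
 (.br (nat_lit 10) (nat_lit 1) (.cons (.br (nat_lit 11) (nat_lit 1) (.cons (.ev (nat_lit 310693935640959697899552769) (nat_lit 1)) .nil)) .nil)),
 (.br (nat_lit 9) (nat_lit 1) (.cons (.rf (nat_lit 22) (nat_lit 11114128550)) (.cons (.rf (nat_lit 22) (nat_lit 12155331781)) (.cons (.br (nat_lit 10) (nat_lit 1) (.cons (.rf (nat_lit 103) (nat_lit 14242959524133701664)) (.cons (.br (nat_lit 10) (nat_lit 1) (.cons (.rf (nat_lit 103) (nat_lit 14242959524133701664)) .nil)) .nil))) .nil)))),
 (.br (nat_lit 10) (nat_lit 1) (.cons (.rf (nat_lit 86) (nat_lit 9482518519387033696)) .nil)),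
 (.br (nat_lit 8) (nat_lit 1) (.cons (.rf (nat_lit 1) (nat_lit 12154315942)) (.cons (.rf (nat_lit 104) (nat_lit 407900402659461152)) (.cons (.br (nat_lit 9) (nat_lit 1) (.cons (.rf (nat_lit 67) (nat_lit 355819886821)) (.cons (.ev (nat_lit 309489750706629606117539841) (nat_lit 1)) (.cons (.rf (nat_lit 67) (nat_lit 424472254693)) .nil)))) (.cons (.br (nat_lit 9) (nat_lit 1) (.cons (.br (nat_lit 10) (nat_lit 1) (.cons (.rf (nat_lit 105) (nat_lit 14242959524133701664)) (.cons (.rf (nat_lit 105) (nat_lit 13126065750353741856)) .nil))) (.cons (.rf (nat_lit 22) (nat_lit 12221424806)) (.cons (.rf (nat_lit 22) (nat_lit 13262628037)) .nil)))) .nil))))),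
 (.br (nat_lit 7) (nat_lit 1) (.cons (.rf (nat_lit 2) (nat_lit 12447059743875)) (.cons (.br (nat_lit 8) (nat_lit 1) (.cons (.rf (nat_lit 1) (nat_lit 11114128550)) (.cons (.ev (nat_lit 18519649391246246146) (nat_lit 2)) (.cons (.rf (nat_lit 104) (nat_lit 407901468851537952)) (.cons (.rf (nat_lit 104) (nat_lit 443930265870501920)) .nil))))) (.cons (.rf (nat_lit 106) (nat_lit 14242959524133701664)) (.cons (.rf (nat_lit 106) (nat_lit 13126066816545818656)) .nil))))),
 (.br (nat_lit 4) (nat_lit 1) (.cons (.rf (nat_lit 17) (nat_lit 247232336930)) (.cons (.rf (nat_lit 17) (nat_lit 281558520866)) .nil))),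
 (.br (nat_lit 11) (nat_lit 1) (.cons (.ev (nat_lit 309489732188110517170077953) (nat_lit 1)) .nil)),
 (.br (nat_lit 8) (nat_lit 1) (.cons (.rf (nat_lit 17) (nat_lit 389104805030)) (.cons (.br (nat_lit 10) (nat_lit 1) (.cons (.rf (nat_lit 109) (nat_lit 14242959524133701664)) (.cons (.rf (nat_lit 109) (nat_lit 13126066816545818656)) .nil))) .nil))),
 (.br (nat_lit 11) (nat_lit 1) (.cons (.ev (nat_lit 309489750706629606117539841) (nat_lit 1)) .nil)),
 (.br (nat_lit 10) (nat_lit 1) (.cons (.rf (nat_lit 111) (nat_lit 14242959524133701664)) (.cons (.br (nat_lit 10) (nat_lit 1) (.cons (.rf (nat_lit 111) (nat_lit 14242959524133701664)) .nil)) .nil))),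
 (.br (nat_lit 8) (nat_lit 1) (.cons (.rf (nat_lit 17) (nat_lit 355818808486)) (.cons (.rf (nat_lit 112) (nat_lit 14242959524133701664)) .nil))),
 (.br (nat_lit 5) (nat_lit 1) (.cons (.rf (nat_lit 17) (nat_lit 249414457411)) (.cons (.rf (nat_lit 17) (nat_lit 318066825283)) .nil))),
 (.br (nat_lit 8) (nat_lit 1) (.cons (.rf (nat_lit 113) (nat_lit 14242959524133701664)) (.cons (.rf (nat_lit 114) (nat_lit 434660630008963)) (.cons (.br (nat_lit 8) (nat_lit 1) (.cons (.rf (nat_lit 112) (nat_lit 14242959524133701664)) (.cons (.rf (nat_lit 17) (nat_lit 424471176358)) .nil))) .nil)))),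
 (.br (nat_lit 7) (nat_lit 1) (.cons (.rf (nat_lit 2) (nat_lit 12447059743875)) (.cons (.br (nat_lit 8) (nat_lit 1) (.cons (.rf (nat_lit 108) (nat_lit 13583144687780)) (.cons (.rf (nat_lit 110) (nat_lit 14242959524133701664)) (.cons (.rf (nat_lit 110) (nat_lit 13126066816545818656)) .nil)))) (.cons (.rf (nat_lit 115) (nat_lit 14242959524133701664)) (.cons (.rf (nat_lit 115) (nat_lit 13126066816545818656)) .nil))))),
 (.br (nat_lit 8) (nat_lit 1) (.cons (.rf (nat_lit 17) (nat_lit 389105820869)) (.cons (.br (nat_lit 9) (nat_lit 1) (.cons (.kr (nat_lit 1208925819614629174706432) (nat_lit 4722366482869645279232) (nat_lit 1) (nat_lit 0)) (.cons (.ev (nat_lit 309489750706912180605878273) (nat_lit 1)) (.cons (.br (nat_lit 10) (nat_lit 1) (.cons (.ev (nat_lit 309489750706912184917622785) (nat_lit 1)) (.cons (.br (nat_lit 11) (nat_lit 1) (.cons (.ev (nat_lit 80784083230306204843818222596) (nat_lit 3)) .nil)) .nil))) .nil)))) (.cons (.zr (nat_lit 4328653568) (nat_lit 18519084242235817987)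 (nat_lit 5) (nat_lit 0)) .nil)))),
 (.br (nat_lit 8) (nat_lit 1) (.cons (.rf (nat_lit 17) (nat_lit 355819824325)) (.cons (.rf (nat_lit 117) (nat_lit 14242959524133701664)) (.cons (.br (nat_lit 9) (nat_lit 1) (.cons (.br (nat_lit 11) (nat_lit 1) (.cons (.ev (nat_lit 309489750706912184917622785) (nat_lit 1)) (.cons (.ev (nat_lit 309489732188110517170077953) (nat_lit 1)) .nil))) (.cons (.ev (nat_lit 309489732188110512858333441) (nat_lit 1)) (.cons (.br (nat_lit 11) (nat_lit 1) (.cons (.ev (nat_lit 309489732188110517170077953) (nat_lit 1)) (.cons (.ev (nat_lit 309489750706912184917622785) (nat_lit 1)) .nil))) .nil)))) .nil)))),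
 (.br (nat_lit 8) (nat_lit 1) (.cons (.rf (nat_lit 116) (nat_lit 14242958457941624864)) (.cons (.rf (nat_lit 117) (nat_lit 14242959524133701664)) (.cons (.rf (nat_lit 118) (nat_lit 14242959524133701664)) (.cons (.br (nat_lit 8) (nat_lit 1) (.cons (.rf (nat_lit 112) (nat_lit 13126065750353741856)) (.cons (.zr (nat_lit 4328653568) (nat_lit 18519084242235817987) (nat_lit 5) (nat_lit 0)) (.cons (.rf (nat_lit 118) (nat_lit 14242959524133701664)) .nil)))) .nil))))),
 (.br (nat_lit 7) (nat_lit 1) (.cons (.rf (nat_lit 107) (nat_lit 14242959524133701664)) (.cons (.rf (nat_lit 116) (nat_lit 14242959524133701664)) (.cons (.rf (nat_lit 119) (nat_lit 14242959524133701664)) (.cons (.rf (nat_lit 119) (nat_lit 13126066816545818656)) .nil))))),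
 (.br (nat_lit 8) (nat_lit 1) (.cons (.rf (nat_lit 17) (nat_lit 424472192197)) (.cons (.rf (nat_lit 120) (nat_lit 14242958457941624864)) (.cons (.br (nat_lit 9) (nat_lit 1) (.cons (.br (nat_lit 11) (nat_lit 1) (.cons (.br (nat_lit 10) (nat_lit 1) (.cons (.ev (nat_lit 79546124264517854912443581956) (nat_lit 3)) .nil)) (.cons (.ev (nat_lit 309489750706912184917622785) (nat_lit 1)) .nil))) (.cons (.ev (nat_lit 309489750706912180605878273) (nat_lit 1)) (.cons (.ev (nat_lit 79228167255149904705425047553) (nat_lit 1)) .nil)))) .nil)))),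
 (.br (nat_lit 7) (nat_lit 1) (.cons (.rf (nat_lit 107) (nat_lit 14242959524133701664)) (.cons (.rf (nat_lit 115) (nat_lit 14242959524133701664)) (.cons (.rf (nat_lit 120) (nat_lit 14242959524133701664)) (.cons (.br (nat_lit 8) (nat_lit 1) (.cons (.rf (nat_lit 116) (nat_lit 14242958457941624864)) (.cons (.rf (nat_lit 120) (nat_lit 14242958457941624864)) (.cons (.rf (nat_lit 121) (nat_lit 14242959524133701664)) (.cons (.rf (nat_lit 121) (nat_lit 13126066816545818656)) .nil))))) .nil))))),
 (.br (nat_lit 7) (nat_lit 1) (.cons (.rf (nat_lit 107) (nat_lit 14242959524133701664)) (.cons (.rf (nat_lit 116) (nat_lit 14242959524133701664)) (.cons (.rf (nat_lit 120) (nat_lit 14242959524133701664)) (.cons (.rf (nat_lit 122) (nat_lit 14242959524133701664)) (.cons (.rf (nat_lit 122) (nat_lit 13126066816545818656)) .nil)))))),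
 (.br (nat_lit 11) (nat_lit 1) (.cons (.zr (nat_lit 8623620608) (nat_lit 309489750634853487056257027) (nat_lit 5) (nat_lit 0)) .nil)),
 (.br (nat_lit 8) (nat_lit 1) (.cons (.rf (nat_lit 67) (nat_lit 389105884357)) (.cons (.rf (nat_lit 22) (nat_lit 12155299045)) (.cons (.br (nat_lit 10) (nat_lit 1) (.cons (.rf (nat_lit 124) (nat_lit 14242959524133701664)) (.cons (.br (nat_lit 10) (nat_lit 1) (.cons (.rf (nat_lit 124) (nat_lit 14242959524133701664)) .nil)) .nil))) .nil)))),
 (.br (nat_lit 9) (nat_lit 1) (.cons (.rf (nat_lit 1) (nat_lit 11113079975)) (.cons (.rf (nat_lit 25) (nat_lit 355683572900)) (.cons (.rf (nat_lit 125) (nat_lit 14242959524133701664)) (.cons (.rf (nat_lit 125) (nat_lit 13126066816545818656)) .nil))))),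
 (.br (nat_lit 9) (nat_lit 1) (.cons (.br (nat_lit 11) (nat_lit 1) (.cons (.ev (nat_lit 80157840655600554694152685060) (nat_lit 3)) .nil)) .nil)),
 (.br (nat_lit 10) (nat_lit 1) (.cons (.rf (nat_lit 54) (nat_lit 10040448262)) (.cons (.rf (nat_lit 54) (nat_lit 12120826022)) (.cons (.br (nat_lit 9) (nat_lit 1) (.cons (.rf (nat_lit 127) (nat_lit 14242959524133701664)) (.cons (.br (nat_lit 9) (nat_lit 1) (.cons (.rf (nat_lit 127) (nat_lit 14242959524133701664)) .nil)) .nil))) .nil)))),
 (.br (nat_lit 8) (nat_lit 1) (.cons (.br (nat_lit 9) (nat_lit 1) (.cons (.ev (nat_lit 1223093063180625243209986) (nat_lit 2)) (.cons (.rf (nat_lit 54) (nat_lit 11115141413)) (.cons (.rf (nat_lit 54) (nat_lit 11148695845)) .nil)))) (.cons (.rf (nat_lit 1) (nat_lit 10038257864)) (.cons (.rf (nat_lit 128) (nat_lit 14242959524133701664)) (.cons (.rf (nat_lit 128) (nat_lit 13126066816545818656)) .nil))))),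
 (.br (nat_lit 9) (nat_lit 1) (.cons (.br (nat_lit 10) (nat_lit 1) (.cons (.ev (nat_lit 2427314891279252810957570) (nat_lit 2)) (.cons (.kr (nat_lit 1208925891672223212634112) (nat_lit 4740813226943354765312) (nat_lit 7) (nat_lit 0)) .nil))) (.cons (.br (nat_lit 10) (nat_lit 1) (.cons (.ev (nat_lit 1223093064026153963159810) (nat_lit 2)) (.cons (.ev (nat_lit 2427314891279252810957570) (nat_lit 2)) .nil))) .nil))),
 (.br (nat_lit 9) (nat_lit 1) (.cons (.rf (nat_lit 130) (nat_lit 14242959524133701664)) (.cons (.br (nat_lit 11) (nat_lit 1) (.cons (.zr (nat_lit 8623620608) (nat_lit 309489750634853487056257027) (nat_lit 5) (nat_lit 0)) (.cons (.ev (nat_lit 159075295066690449579708711170) (nat_lit 2)) .nil))) .nil)))]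

theorem c2 : chkAll C T R L2 (nat_lit 90) = true := by decide +kernel

theorem l2 : (nat_lit 90) + L2.length = (nat_lit 132) := by decide +kernel

/-- part of the certificates -/
def L3 : List Prf := [(.br (nat_lit 8) (nat_lit 1) (.cons (.rf (nat_lit 128) (nat_lit 14241867742406871072)) (.cons (.rf (nat_lit 126) (nat_lit 14241867742406871072)) (.cons (.rf (nat_lit 123) (nat_lit 11867378823910786112)) (.cons (.br (nat_lit 9) (nat_lit 1) (.cons (.rf (nat_lit 130) (nat_lit 14242959524133701664)) (.cons (.rf (nat_lit 131) (nat_lit 14242959524133701664)) (.cons (.br (nat_lit 9) (nat_lit 1) (.cons (.rf (nat_lit 130) (nat_lit 14242959524133701664)) (.cons (.rf (nat_lit 131) (nat_lit 14242959524133701664)) .nil))) .nil)))) .nil))))),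
 (.br (nat_lit 7) (nat_lit 1) (.cons (.rf (nat_lit 126) (nat_lit 14242959524133701664)) (.cons (.rf (nat_lit 129) (nat_lit 14242959524133701664)) (.cons (.rf (nat_lit 132) (nat_lit 14242959524133701664)) (.cons (.rf (nat_lit 132) (nat_lit 13126066816545818656)) .nil))))),
 (.br (nat_lit 10) (nat_lit 1) (.cons (.rf (nat_lit 67) (nat_lit 386960497861)) (.cons (.rf (nat_lit 22) (nat_lit 12090287333)) (.cons (.br (nat_lit 8) (nat_lit 1) (.cons (.br (nat_lit 8) (nat_lit 1) (.cons (.zr (nat_lit 4328653568) (nat_lit 18519084242235817987) (nat_lit 5) (nat_lit 0)) .nil)) (.cons (.br (nat_lit 8) (nat_lit 1) (.cons (.zr (nat_lit 4328653568) (nat_lit 18519084242235817987) (nat_lit 5) (nat_lit 0)) .nil)) .nil))) .nil)))),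
 (.br (nat_lit 10) (nat_lit 1) (.cons (.br (nat_lit 11) (nat_lit 1) (.cons (.kr (nat_lit 237685701190979111378963399168) (nat_lit 309485028340991169992327168) (nat_lit 1) (nat_lit 0)) .nil)) .nil)),
 (.br (nat_lit 8) (nat_lit 1) (.cons (.rf (nat_lit 67) (nat_lit 389105820869)) (.cons (.rf (nat_lit 22) (nat_lit 12155297061)) (.cons (.br (nat_lit 10) (nat_lit 1) (.cons (.rf (nat_lit 135) (nat_lit 14242959524133701664)) (.cons (.br (nat_lit 10) (nat_lit 1) (.cons (.rf (nat_lit 135) (nat_lit 14242959524133701664)) .nil)) .nil))) .nil)))),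
 (.br (nat_lit 8) (nat_lit 1) (.cons (.rf (nat_lit 67) (nat_lit 389105820869)) (.cons (.br (nat_lit 9) (nat_lit 1) (.cons (.rf (nat_lit 67) (nat_lit 386960434373)) (.cons (.rf (nat_lit 17) (nat_lit 352601711845)) (.cons (.br (nat_lit 10) (nat_lit 1) (.cons (.zr (nat_lit 1208925819614633503359744) (nat_lit 4759260253591552655363) (nat_lit 5) (nat_lit 0)) (.cons (.kr (nat_lit 1208925891672223212634112) (nat_lit 4740813226943354765312) (nat_lit 7) (nat_lit 0)) .nil))) .nil)))) (.cons (.zr (nat_lit 4328653568) (nat_lit 18519084242235817987) (nat_lit 5) (nat_lit 0)) .nil)))),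
 (.br (nat_lit 8) (nat_lit 1) (.cons (.rf (nat_lit 22) (nat_lit 12155297061)) (.cons (.rf (nat_lit 137) (nat_lit 14242959524133701664)) (.cons (.br (nat_lit 9) (nat_lit 1) (.cons (.br (nat_lit 10) (nat_lit 1) (.cons (.rf (nat_lit 22) (nat_lit 12090285349)) (.cons (.br (nat_lit 11) (nat_lit 1) (.cons (.zr (nat_lit 8623620608) (nat_lit 310693935713298766914125827) (nat_lit 5) (nat_lit 0)) .nil)) .nil))) (.cons (.rf (nat_lit 17) (nat_lit 352601711845)) (.cons (.br (nat_lit 11) (nat_lit 1) (.cons (.br (nat_lit 10) (nat_lit 1) (.cons (.ev (nat_lit 313121232085778550984081410) (nat_lit 2)) .nil)) (.cons (.rf (nat_lit 67) (nat_lit 215096665447)) .nil))) .nil)))) .nil)))),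
 (.br (nat_lit 8) (nat_lit 1) (.cons (.rf (nat_lit 136) (nat_lit 14242959524133701664)) (.cons (.rf (nat_lit 137) (nat_lit 14242959524133701664)) (.cons (.rf (nat_lit 138) (nat_lit 14242959524133701664)) (.cons (.br (nat_lit 8) (nat_lit 1) (.cons (.rf (nat_lit 136) (nat_lit 14242959524133701664)) (.cons (.zr (nat_lit 4328653568) (nat_lit 18519084242235817987) (nat_lit 5) (nat_lit 0)) (.cons (.rf (nat_lit 138) (nat_lit 14242959524133701664)) .nil)))) .nil))))),
 (.br (nat_lit 7) (nat_lit 1) (.cons (.rf (nat_lit 133) (nat_lit 14242959524133701664)) (.cons (.br (nat_lit 9) (nat_lit 1) (.cons (.rf (nat_lit 25) (nat_lit 287031205028)) (.cons (.rf (nat_lit 1) (nat_lit 8965661863)) (.cons (.rf (nat_lit 134) (nat_lit 14242959524133701664)) (.cons (.rf (nat_lit 134) (nat_lit 13126066816545818656)) .nil))))) (.cons (.rf (nat_lit 139) (nat_lit 14242959524133701664)) (.cons (.rf (nat_lit 139) (nat_lit 13126066816545818656)) .nil))))),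
 (.br (nat_lit 8) (nat_lit 1) (.cons (.rf (nat_lit 22) (nat_lit 10038255818)) (.cons (.br (nat_lit 9) (nat_lit 1) (.cons (.rf (nat_lit 54) (nat_lit 8969820389)) (.cons (.rf (nat_lit 22) (nat_lit 7857188136)) (.cons (.br (nat_lit 10) (nat_lit 1) (.cons (.rf (nat_lit 22) (nat_lit 8898391367)) (.cons (.br (nat_lit 11) (nat_lit 1) (.cons (.ev (nat_lit 80775616008251833088905184260) (nat_lit 3)) .nil)) .nil))) .nil)))) (.cons (.zr (nat_lit 4328653568) (nat_lit 18519084242235817987) (nat_lit 5) (nat_lit 0)) .nil)))),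
 (.br (nat_lit 8) (nat_lit 1) (.cons (.rf (nat_lit 141) (nat_lit 14242959524133701664)) (.cons (.rf (nat_lit 22) (nat_lit 12120662342)) (.cons (.br (nat_lit 10) (nat_lit 1) (.cons (.br (nat_lit 9) (nat_lit 1) (.cons (.ev (nat_lit 311917047007048497614618626) (nat_lit 2)) (.cons (.br (nat_lit 11) (nat_lit 1) (.cons (.ev (nat_lit 314344435973814788324459268) (nat_lit 3)) .nil)) .nil))) (.cons (.rf (nat_lit 22) (nat_lit 8898391367)) (.cons (.br (nat_lit 11) (nat_lit 1) (.cons (.br (nat_lit 9) (nat_lit 1) (.cons (.ev (nat_lit 80781637007143374953904472068) (nat_lit 3)) .nil)) (.cons (.ev (nat_lit 79850759311582047707773075970) (nat_lit 2)) .nil))) .nil)))) .nil)))),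
 (.br (nat_lit 8) (nat_lit 1) (.cons (.rf (nat_lit 141) (nat_lit 14242959524133701664)) (.cons (.rf (nat_lit 140) (nat_lit 14241867742406871072)) (.cons (.rf (nat_lit 142) (nat_lit 14242959524133701664)) (.cons (.br (nat_lit 8) (nat_lit 1) (.cons (.zr (nat_lit 4328653568) (nat_lit 18519084242235817987) (nat_lit 5) (nat_lit 0)) (.cons (.rf (nat_lit 136) (nat_lit 13124975034818988064)) (.cons (.rf (nat_lit 142) (nat_lit 14242959524133701664)) .nil)))) .nil))))),
 (.br (nat_lit 7) (nat_lit 1) (.cons (.rf (nat_lit 133) (nat_lit 14242959524133701664)) (.cons (.rf (nat_lit 140) (nat_lit 14242959524133701664)) (.cons (.rf (nat_lit 143) (nat_lit 14242959524133701664)) (.cons (.rf (nat_lit 143) (nat_lit 13126066816545818656)) .nil))))),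
 (.br (nat_lit 8) (nat_lit 1) (.cons (.rf (nat_lit 144) (nat_lit 14241867742406871072)) (.cons (.rf (nat_lit 140) (nat_lit 14241867742406871072)) (.cons (.zr (nat_lit 8606843648) (nat_lit 18519084242235817987) (nat_lit 5) (nat_lit 0)) .nil)))),
 (.br (nat_lit 7) (nat_lit 1) (.cons (.rf (nat_lit 133) (nat_lit 14242959524133701664)) (.cons (.rf (nat_lit 140) (nat_lit 14242959524133701664)) (.cons (.rf (nat_lit 144) (nat_lit 14242959524133701664)) (.cons (.br (nat_lit 8) (nat_lit 1) (.cons (.rf (nat_lit 144) (nat_lit 14241867742406871072)) (.cons (.rf (nat_lit 140) (nat_lit 14241867742406871072)) (.cons (.rf (nat_lit 145) (nat_lit 14242959524133701664)) (.cons (.rf (nat_lit 145) (nat_lit 13126066816545818656)) .nil))))) .nil))))),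
 (.br (nat_lit 7) (nat_lit 1) (.cons (.rf (nat_lit 133) (nat_lit 14242959524133701664)) (.cons (.rf (nat_lit 140) (nat_lit 14242959524133701664)) (.cons (.rf (nat_lit 144) (nat_lit 14242959524133701664)) (.cons (.rf (nat_lit 146) (nat_lit 14242959524133701664)) (.cons (.rf (nat_lit 146) (nat_lit 13126066816545818656)) .nil)))))),
 (.br (nat_lit 6) (nat_lit 1) (.cons (.rf (nat_lit 67) (nat_lit 249415536738)) (.cons (.rf (nat_lit 25) (nat_lit 282565218368)) (.cons (.rf (nat_lit 67) (nat_lit 318067904610)) .nil)))),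
 (.br (nat_lit 10) (nat_lit 1) (.cons (.ev (nat_lit 1213648258156196664508673) (nat_lit 1)) .nil)),
 (.br (nat_lit 8) (nat_lit 1) (.cons (.rf (nat_lit 1) (nat_lit 12153267367)) (.cons (.rf (nat_lit 147) (nat_lit 14242957258605560896)) (.cons (.rf (nat_lit 148) (nat_lit 434660630008963)) (.cons (.br (nat_lit 9) (nat_lit 1) (.cons (.br (nat_lit 10) (nat_lit 1) (.cons (.rf (nat_lit 149) (nat_lit 14242959524133701664)) (.cons (.rf (nat_lit 149) (nat_lit 13126064551017677888)) .nil))) (.cons (.rf (nat_lit 22) (nat_lit 12220376231)) (.cons (.rf (nat_lit 22) (nat_lit 13262595301)) .nil)))) .nil))))),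
 (.br (nat_lit 9) (nat_lit 1) (.cons (.br (nat_lit 10) (nat_lit 1) (.cons (.ev (nat_lit 1213648258156192386318593) (nat_lit 1)) (.cons (.br (nat_lit 11) (nat_lit 1) (.cons (.zr (nat_lit 8623620608) (nat_lit 310693935713298766914125827) (nat_lit 5) (nat_lit 0)) .nil)) .nil))) (.cons (.br (nat_lit 10) (nat_lit 1) (.cons (.br (nat_lit 11) (nat_lit 1) (.cons (.ev (nat_lit 81403024915605319608220911108) (nat_lit 3)) .nil)) (.cons (.ev (nat_lit 1213648258156192386318593) (nat_lit 1)) .nil))) .nil))),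
 (.br (nat_lit 9) (nat_lit 1) (.cons (.rf (nat_lit 151) (nat_lit 14242959524133701664)) (.cons (.br (nat_lit 11) (nat_lit 1) (.cons (.br (nat_lit 10) (nat_lit 1) (.cons (.ev (nat_lit 81403024915605319608220911108) (nat_lit 3)) .nil)) (.cons (.ev (nat_lit 309489732187827938369995009) (nat_lit 1)) .nil))) .nil))),
 (.br (nat_lit 5) (nat_lit 1) (.cons (.rf (nat_lit 54) (nat_lit 7721814177)) (.cons (.rf (nat_lit 47) (nat_lit 6681693249)) (.cons (.rf (nat_lit 54) (nat_lit 7788923041)) .nil)))),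
 (.br (nat_lit 9) (nat_lit 1) (.cons (.br (nat_lit 10) (nat_lit 1) (.cons (.ev (nat_lit 1213666632842672057876481) (nat_lit 1)) .nil)) .nil)),
 (.br (nat_lit 8) (nat_lit 1) (.cons (.rf (nat_lit 153) (nat_lit 389005154467)) (.cons (.br (nat_lit 11) (nat_lit 1) (.cons (.rf (nat_lit 54) (nat_lit 10006926598)) (.cons (.rf (nat_lit 54) (nat_lit 11047116966)) (.cons (.br (nat_lit 9) (nat_lit 1) (.cons (.rf (nat_lit 154) (nat_lit 14242959524133701664)) (.cons (.br (nat_lit 9) (nat_lit 1) (.cons (.rf (nat_lit 154) (nat_lit 14242959524133701664)) .nil)) .nil))) .nil)))) (.cons (.rf (nat_lit 1) (nat_lit 10004704456)) (.cons (.rf (nat_lit 147) (nat_lit 11867378823910786112)) .nil))))),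
 (.br (nat_lit 9) (nat_lit 1) (.cons (.br (nat_lit 10) (nat_lit 1) (.cons (.ev (nat_lit 1213666632842672057876481) (nat_lit 1)) (.cons (.br (nat_lit 11) (nat_lit 1) (.cons (.ev (nat_lit 81403024915605880376263837188) (nat_lit 3)) .nil)) .nil))) (.cons (.br (nat_lit 12) (nat_lit 1) (.cons (.ev (nat_lit 1213666632842672057876481) (nat_lit 1)) (.cons (.zr (nat_lit 8623620608) (nat_lit 79228167255077846011875426307) (nat_lit 5) (nat_lit 0)) .nil))) .nil))),
 (.br (nat_lit 9) (nat_lit 1) (.cons (.rf (nat_lit 156) (nat_lit 14242959524133701664)) (.cons (.br (nat_lit 12) (nat_lit 1) (.cons (.zr (nat_lit 8623620608) (nat_lit 79228167255077846011875426307) (nat_lit 5) (nat_lit 0)) (.cons (.ev (nat_lit 309489732187827938369995009) (nat_lit 1)) .nil))) .nil))),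
 (.br (nat_lit 7) (nat_lit 1) (.cons (.rf (nat_lit 150) (nat_lit 14242959524133701664)) (.cons (.br (nat_lit 8) (nat_lit 1) (.cons (.rf (nat_lit 147) (nat_lit 14241866543070807104)) (.cons (.rf (nat_lit 104) (nat_lit 406808487788643392)) (.cons (.rf (nat_lit 150) (nat_lit 11867380023246850080)) (.cons (.br (nat_lit 9) (nat_lit 1) (.cons (.rf (nat_lit 151) (nat_lit 14242959524133701664)) (.cons (.rf (nat_lit 152) (nat_lit 14242959524133701664)) (.cons (.br (nat_lit 9) (nat_lit 1) (.cons (.rf (nat_lit 151) (nat_lit 14242959524133701664)) (.cons (.rf (nat_lit 152) (nat_lit 14242959524133701664)) .nil))) .nil)))) .nil))))) (.cons (.rf (nat_lit 155) (nat_lit 14242959524133701664)) (.cons (.br (nat_lit 8) (nat_lit 1) (.cons (.rf (nat_lit 155) (nat_lit 11867380023246850080)) (.cons (.br (nat_lit 9) (nat_lit 1) (.cons (.rf (nat_lit 156) (nat_lit 14242959524133701664)) (.cons (.rf (nat_lit 157) (nat_lit 14242959524133701664)) (.cons (.br (nat_lit 9) (nat_lit 1) (.cons (.rf (nat_lit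 156) (nat_lit 14242959524133701664)) (.cons (.rf (nat_lit 157) (nat_lit 14242959524133701664)) .nil))) .nil)))) (.cons (.rf (nat_lit 147) (nat_lit 11866288108376032320)) (.cons (.rf (nat_lit 104) (nat_lit 406878856532821056)) .nil))))) .nil))))),
 (.br (nat_lit 8) (nat_lit 1) (.cons (.rf (nat_lit 22) (nat_lit 11115109669)) (.cons (.rf (nat_lit 67) (nat_lit 355819824325)) (.cons (.rf (nat_lit 24) (nat_lit 13056155468264769568)) .nil)))),
 (.br (nat_lit 8) (nat_lit 1) (.cons (.rf (nat_lit 22) (nat_lit 11115109669)) (.cons (.br (nat_lit 9) (nat_lit 1) (.cons (.rf (nat_lit 17) (nat_lit 386960401637)) (.cons (.ev (nat_lit 309489750706912180605878273) (nat_lit 1)) (.cons (.br (nat_lit 11) (nat_lit 1) (.cons (.ev (nat_lit 309489750706912184917622785) (nat_lit 1)) (.cons (.ev (nat_lit 309489732188110512858333441) (nat_lit 1)) .nil))) .nil)))) (.cons (.zr (nat_lit 4328653568) (nat_lit 18519084242235817987) (nat_lit 5) (nat_lit 0)) .nil)))),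
 (.br (nat_lit 10) (nat_lit 1) (.cons (.kr (nat_lit 309485028340146740767227904) (nat_lit 1213648186380073308258304) (nat_lit 4) (nat_lit 0)) .nil)),
 (.br (nat_lit 8) (nat_lit 1) (.cons (.rf (nat_lit 67) (nat_lit 355819824325)) (.cons (.rf (nat_lit 160) (nat_lit 14242959524133701664)) (.cons (.br (nat_lit 9) (nat_lit 1) (.cons (.br (nat_lit 10) (nat_lit 1) (.cons (.ev (nat_lit 1213648258436567851401473) (nat_lit 1)) (.cons (.rf (nat_lit 161) (nat_lit 445092485129178177)) .nil))) (.cons (.rf (nat_lit 67) (nat_lit 352601744581)) (.cons (.br (nat_lit 11) (nat_lit 1) (.cons (.br (nat_lit 10) (nat_lit 1) (.cons (.ev (nat_lit 80165103728748832651120738308) (nat_lit 3)) .nil)) (.cons (.ev (nat_lit 309489750706912184917622785) (nat_lit 1)) .nil))) .nil)))) .nil)))),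
 (.br (nat_lit 8) (nat_lit 1) (.cons (.rf (nat_lit 159) (nat_lit 14242959524133701664)) (.cons (.rf (nat_lit 160) (nat_lit 14242959524133701664)) (.cons (.rf (nat_lit 162) (nat_lit 14242959524133701664)) (.cons (.br (nat_lit 8) (nat_lit 1) (.cons (.rf (nat_lit 159) (nat_lit 14242959524133701664)) (.cons (.zr (nat_lit 4328653568) (nat_lit 18519084242235817987) (nat_lit 5) (nat_lit 0)) (.cons (.rf (nat_lit 162) (nat_lit 14242959524133701664)) .nil)))) .nil))))),
 (.br (nat_lit 10) (nat_lit 1) (.cons (.rf (nat_lit 22) (nat_lit 11017594085)) (.cons (.ev (nat_lit 1213666632842672057876481) (nat_lit 1)) .nil))),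
 (.br (nat_lit 11) (nat_lit 1) (.cons (.ev (nat_lit 309489750706629606117539841) (nat_lit 1)) (.cons (.rf (nat_lit 22) (nat_lit 13165077733)) .nil))),
 (.br (nat_lit 9) (nat_lit 1) (.cons (.rf (nat_lit 165) (nat_lit 11939368314733692960)) (.cons (.ev (nat_lit 309489732187827938369995009) (nat_lit 1)) (.cons (.rf (nat_lit 165) (nat_lit 14242959524133701664)) .nil)))),
 (.br (nat_lit 8) (nat_lit 1) (.cons (.rf (nat_lit 159) (nat_lit 11939368314732677152)) (.cons (.br (nat_lit 9) (nat_lit 1) (.cons (.br (nat_lit 10) (nat_lit 1) (.cons (.ev (nat_lit 1213648258156196664508673) (nat_lit 1)) (.cons (.br (nat_lit 11) (nat_lit 1) (.cons (.ev (nat_lit 80165103728749393384938143748) (nat_lit 3)) .nil)) .nil))) (.cons (.rf (nat_lit 67) (nat_lit 421254112453)) (.cons (.br (nat_lit 12) (nat_lit 1) (.cons (.zr (nat_lit 8623620608) (nat_lit 79228167255077846011875426307) (nat_lit 5) (nat_lit 0)) (.cons (.ev (nat_lit 309489750706912184917622785) (nat_lit 1)) .nil))) .nil)))) (.cons (.br (nat_lit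 9) (nat_lit 1) (.cons (.br (nat_lit 10) (nat_lit 1) (.cons (.ev (nat_lit 1213648258156196664508673) (nat_lit 1)) (.cons (.ev (nat_lit 1213666632842672057876481) (nat_lit 1)) .nil))) (.cons (.br (nat_lit 11) (nat_lit 1) (.cons (.br (nat_lit 10) (nat_lit 1) (.cons (.ev (nat_lit 1213648258156192386318593) (nat_lit 1)) .nil)) (.cons (.ev (nat_lit 79537647524158021735578337281) (nat_lit 1)) .nil))) (.cons (.rf (nat_lit 17) (nat_lit 386895389925)) .nil)))) .nil))))]

theorem c3 : chkAll C T R L3 (nat_lit 132) = true := by decide +kernel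

theorem l3 : (nat_lit 132) + L3.length = (nat_lit 168) := by decide +kernel

/-- part of the certificates -/
def L4 : List Prf := [(.br (nat_lit 7) (nat_lit 1) (.cons (.rf (nat_lit 158) (nat_lit 14242959524133701664)) (.cons (.rf (nat_lit 163) (nat_lit 14242959524133701664)) (.cons (.br (nat_lit 8) (nat_lit 1) (.cons (.rf (nat_lit 25) (nat_lit 285991017635)) (.cons (.br (nat_lit 8) (nat_lit 1) (.cons (.rf (nat_lit 22) (nat_lit 12153265321)) (.cons (.rf (nat_lit 67) (nat_lit 353671326886)) (.cons (.rf (nat_lit 166) (nat_lit 14242959524133701664)) .nil)))) (.cons (.rf (nat_lit 148) (nat_lit 431362195788931)) (.cons (.br (nat_lit 8) (nat_lit 1) (.cons (.rf (nat_lit 22) (nat_lit 12220374185)) (.cons (.rf (nat_lit 166) (nat_lit 14242959524133701664)) (.cons (.rf (nat_lit 67) (nat_lit 422323694758)) .nil)))) .nil))))) (.cons (.br (nat_lit 8) (nat_lit 1) (.cons (.rf (nat_lit 159) (nat_lit 11939368314732677152)) (.cons (.rf (nat_lit 167) (nat_lit 14242959524133701664)) (.cons (.br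 (nat_lit 8) (nat_lit 1) (.cons (.rf (nat_lit 67) (nat_lit 424472192197)) (.cons (.rf (nat_lit 167) (nat_lit 14242959524133701664)) (.cons (.rf (nat_lit 163) (nat_lit 11867380023246850080)) .nil)))) (.cons (.br (nat_lit 8) (nat_lit 1) (.cons (.rf (nat_lit 22) (nat_lit 13262593317)) (.cons (.rf (nat_lit 167) (nat_lit 14242959524133701664)) (.cons (.rf (nat_lit 163) (nat_lit 11867380023246850080)) .nil)))) .nil))))) .nil))))),
 (.br (nat_lit 8) (nat_lit 1) (.cons (.br (nat_lit 9) (nat_lit 1) (.cons (.ev (nat_lit 81412734138132837690371473416) (nat_lit 4)) .nil)) .nil)),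
 (.br (nat_lit 9) (nat_lit 1) (.cons (.br (nat_lit 8) (nat_lit 1) (.cons (.ev (nat_lit 309489750706912184917622785) (nat_lit 1)) (.cons (.br (nat_lit 10) (nat_lit 1) (.cons (.ev (nat_lit 80165103728748271874387214340) (nat_lit 3)) .nil)) .nil))) (.cons (.ev (nat_lit 309489732188110512858333441) (nat_lit 1)) .nil))),
 (.br (nat_lit 8) (nat_lit 1) (.cons (.rf (nat_lit 170) (nat_lit 14242959524133701664)) (.cons (.br (nat_lit 12) (nat_lit 1) (.cons (.ev (nat_lit 79537647524158021731300147201) (nat_lit 1)) (.cons (.ev (nat_lit 79537647542532708215250026753) (nat_lit 1)) .nil))) .nil))),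
 (.br (nat_lit 11) (nat_lit 1) (.cons (.rf (nat_lit 168) (nat_lit 11867380023246850080)) (.cons (.rf (nat_lit 79) (nat_lit 11831353391931590688)) (.cons (.br (nat_lit 10) (nat_lit 1) (.cons (.rf (nat_lit 22) (nat_lit 8898390375)) (.cons (.rf (nat_lit 22) (nat_lit 9937561835)) (.cons (.br (nat_lit 8) (nat_lit 1) (.cons (.rf (nat_lit 169) (nat_lit 14242959524133701664)) (.cons (.br (nat_lit 8) (nat_lit 1) (.cons (.rf (nat_lit 169) (nat_lit 14242959524133701664)) .nil)) .nil))) .nil)))) (.cons (.br (nat_lit 8) (nat_lit 1) (.cons (.rf (nat_lit 170) (nat_lit 14242959524133701664)) (.cons (.rf (nat_lit 171) (nat_lit 14242959524133701664)) (.cons (.br (nat_lit 8) (nat_lit 1) (.cons (.rf (nat_lit 170) (nat_lit 14242959524133701664)) (.cons (.rf (nat_lit 171) (nat_lit 14242959524133701664)) .nil))) .nil)))) .nil))))),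
 (.br (nat_lit 8) (nat_lit 1) (.cons (.zr (nat_lit 4328653568) (nat_lit 18519084242235817987) (nat_lit 5) (nat_lit 0)) (.cons (.rf (nat_lit 168) (nat_lit 11867380023246850080)) (.cons (.br (nat_lit 10) (nat_lit 1) (.cons (.br (nat_lit 9) (nat_lit 1) (.cons (.br (nat_lit 11) (nat_lit 1) (.cons (.zr (nat_lit 8623620608) (nat_lit 310693935713298766914125827) (nat_lit 5) (nat_lit 0)) .nil)) (.cons (.ev (nat_lit 1213666632842672057876481) (nat_lit 1)) .nil))) (.cons (.br (nat_lit 11) (nat_lit 1) (.cons (.br (nat_lit 9) (nat_lit 1) (.cons (.ev (nat_lit 80165103728749954135868309508) (nat_lit 3)) .nil)) (.cons (.ev (nat_lit 79537647524158021735578337281) (nat_lit 1)) .nil))) (.cons (.rf (nat_lit 17) (nat_lit 316057760071)) .nil)))) .nil)))),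
 (.br (nat_lit 7) (nat_lit 1) (.cons (.rf (nat_lit 158) (nat_lit 14242959524133701664)) (.cons (.rf (nat_lit 168) (nat_lit 14242959524133701664)) (.cons (.rf (nat_lit 172) (nat_lit 14242959524133701664)) (.cons (.br (nat_lit 8) (nat_lit 1) (.cons (.br (nat_lit 8) (nat_lit 1) (.cons (.zr (nat_lit 4328653568) (nat_lit 18519084242235817987) (nat_lit 5) (nat_lit 0)) (.cons (.rf (nat_lit 166) (nat_lit 14170971232646858784)) (.cons (.rf (nat_lit 172) (nat_lit 11867380023246850080)) .nil)))) (.cons (.rf (nat_lit 173) (nat_lit 14242959524133701664)) (.cons (.rf (nat_lit 168) (nat_lit 11867380023246850080)) (.cons (.br (nat_lit 8) (nat_lit 1) (.cons (.rf (nat_lit 172) (nat_lit 11867380023246850080)) (.cons (.rf (nat_lit 173) (nat_lit 14242959524133701664)) (.cons (.zr (nat_lit 8606843648) (nat_lit 18519084242235817987) (nat_lit 5) (nat_lit 0)) .nil)))) .nil))))) .nil))))),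
 (.br (nat_lit 8) (nat_lit 1) (.cons (.br (nat_lit 9) (nat_lit 1) (.cons (.br (nat_lit 10) (nat_lit 1) (.cons (.ev (nat_lit 1213648258436572129591553) (nat_lit 1)) (.cons (.rf (nat_lit 19) (nat_lit 13126066815505631264)) .nil))) (.cons (.rf (nat_lit 54) (nat_lit 9004423397)) (.cons (.br (nat_lit 11) (nat_lit 1) (.cons (.br (nat_lit 10) (nat_lit 1) (.cons (.ev (nat_lit 80165103728748832625317380100) (nat_lit 3)) .nil)) (.cons (.ev (nat_lit 309489750706912184917622785) (nat_lit 1)) .nil))) .nil)))) (.cons (.rf (nat_lit 22) (nat_lit 10071810251)) (.cons (.rf (nat_lit 174) (nat_lit 11867380023246850080)) .nil)))),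
 (.br (nat_lit 7) (nat_lit 1) (.cons (.rf (nat_lit 158) (nat_lit 14242959524133701664)) (.cons (.rf (nat_lit 168) (nat_lit 14242959524133701664)) (.cons (.rf (nat_lit 174) (nat_lit 14242959524133701664)) (.cons (.br (nat_lit 8) (nat_lit 1) (.cons (.rf (nat_lit 175) (nat_lit 14242959524133701664)) (.cons (.br (nat_lit 8) (nat_lit 1) (.cons (.rf (nat_lit 175) (nat_lit 14242959524133701664)) (.cons (.rf (nat_lit 159) (nat_lit 14170971232647874592)) (.cons (.zr (nat_lit 8606843648) (nat_lit 18519084242235817987) (nat_lit 5) (nat_lit 0)) .nil)))) (.cons (.rf (nat_lit 168) (nat_lit 11867380023246850080)) (.cons (.rf (nat_lit 174) (nat_lit 11867380023246850080)) .nil))))) .nil))))),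
 (.br (nat_lit 7) (nat_lit 1) (.cons (.rf (nat_lit 158) (nat_lit 14242959524133701664)) (.cons (.rf (nat_lit 168) (nat_lit 14242959524133701664)) (.cons (.rf (nat_lit 174) (nat_lit 14242959524133701664)) (.cons (.rf (nat_lit 176) (nat_lit 14242959524133701664)) (.cons (.br (nat_lit 7) (nat_lit 1) (.cons (.rf (nat_lit 158) (nat_lit 14242959524133701664)) (.cons (.rf (nat_lit 168) (nat_lit 14242959524133701664)) (.cons (.rf (nat_lit 174) (nat_lit 14242959524133701664)) (.cons (.rf (nat_lit 176) (nat_lit 14242959524133701664)) .nil))))) .nil)))))),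
 (.br (nat_lit 6) (nat_lit 1) (.cons (.rf (nat_lit 86) (nat_lit 14242959523093514272)) (.cons (.rf (nat_lit 123) (nat_lit 14242959524133701664)) (.cons (.rf (nat_lit 147) (nat_lit 14242959524133701664)) (.cons (.rf (nat_lit 177) (nat_lit 14242959524133701664)) (.cons (.rf (nat_lit 177) (nat_lit 13126066816545818656)) .nil)))))),
 (.br (nat_lit 8) (nat_lit 1) (.cons (.kr (nat_lit 18446745173237956608) (nat_lit 72339073309605888) (nat_lit 3) (nat_lit 0)) .nil)),
 (.br (nat_lit 7) (nat_lit 1) (.cons (.rf (nat_lit 17) (nat_lit 353635639430)) (.cons (.br (nat_lit 9) (nat_lit 1) (.cons (.rf (nat_lit 179) (nat_lit 12746920901609504)) (.cons (.rf (nat_lit 179) (nat_lit 11656205366855712)) .nil))) .nil))),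
 (.br (nat_lit 10) (nat_lit 1) (.cons (.rf (nat_lit 67) (nat_lit 386960496869)) (.cons (.rf (nat_lit 22) (nat_lit 12090320069)) (.cons (.ev (nat_lit 1213648258156196664508673) (nat_lit 1)) .nil)))),
 (.br (nat_lit 11) (nat_lit 1) (.cons (.ev (nat_lit 1213666632842672057876481) (nat_lit 1)) (.cons (.ev (nat_lit 72339069031481601) (nat_lit 1)) (.cons (.ev (nat_lit 79228167236630820467500908801) (nat_lit 1)) .nil)))),
 (.br (nat_lit 8) (nat_lit 1) (.cons (.rf (nat_lit 22) (nat_lit 11115141413)) (.cons (.rf (nat_lit 67) (nat_lit 355819791589)) (.cons (.br (nat_lit 10) (nat_lit 1) (.cons (.br (nat_lit 10) (nat_lit 1) (.cons (.rf (nat_lit 182) (nat_lit 14242959524133701664)) .nil)) (.cons (.br (nat_lit 10) (nat_lit 1) (.cons (.rf (nat_lit 182) (nat_lit 14242959524133701664)) .nil)) .nil))) .nil)))),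
 (.br (nat_lit 8) (nat_lit 1) (.cons (.rf (nat_lit 22) (nat_lit 11115141413)) (.cons (.br (nat_lit 9) (nat_lit 1) (.cons (.rf (nat_lit 17) (nat_lit 386960434373)) (.cons (.rf (nat_lit 67) (nat_lit 352601711845)) (.cons (.br (nat_lit 11) (nat_lit 1) (.cons (.ev (nat_lit 310693954160043940135305473) (nat_lit 1)) (.cons (.zr (nat_lit 8623620608) (nat_lit 309489750634853487056257027) (nat_lit 5) (nat_lit 0)) .nil))) .nil)))) (.cons (.br (nat_lit 9) (nat_lit 1) (.cons (.zr (nat_lit 4722366482873973932544) (nat_lit 1208944338698871410524163) (nat_lit 5) (nat_lit 0)) (.cons (.br (nat_lit 10) (nat_lit 1) (.cons (.ev (nat_lit 309489732188110512858333441) (nat_lit 1)) (.cons (.br (nat_lit 11) (nat_lit 1) (.cons (.zr (nat_lit 8623620608) (nat_lit 310693935713298766914125827) (nat_lit 5) (nat_lit 0)) .nil)) .nil))) (.cons (.br (nat_lit 10) (nat_lit 1) (.cons (.br (nat_lit 11) (nat_lit 1) (.cons (.ev (nat_lit 79236634514026829619420005380) (nat_lit 3)) .nil)) (.cons (.ev (nat_lit 79229371458602753894777880833)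 (nat_lit 1)) .nil))) .nil)))) .nil)))),
 (.br (nat_lit 8) (nat_lit 1) (.cons (.rf (nat_lit 67) (nat_lit 355819791589)) (.cons (.rf (nat_lit 184) (nat_lit 14242959524133701664)) (.cons (.br (nat_lit 9) (nat_lit 1) (.cons (.br (nat_lit 10) (nat_lit 1) (.cons (.ev (nat_lit 1213648258436567851401473) (nat_lit 1)) (.cons (.kr (nat_lit 1208925891672223212634112) (nat_lit 4740813226943354765312) (nat_lit 7) (nat_lit 0)) .nil))) (.cons (.rf (nat_lit 67) (nat_lit 352601711845)) (.cons (.br (nat_lit 11) (nat_lit 1) (.cons (.zr (nat_lit 8623620608) (nat_lit 309489750634853487056257027) (nat_lit 5) (nat_lit 0)) (.cons (.ev (nat_lit 79537647542532427839784943873) (nat_lit 1)) .nil))) .nil)))) .nil)))),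
 (.br (nat_lit 8) (nat_lit 1) (.cons (.rf (nat_lit 183) (nat_lit 14242959524133701664)) (.cons (.rf (nat_lit 184) (nat_lit 14242959524133701664)) (.cons (.rf (nat_lit 185) (nat_lit 14242959524133701664)) (.cons (.br (nat_lit 8) (nat_lit 1) (.cons (.rf (nat_lit 183) (nat_lit 14242959524133701664)) (.cons (.rf (nat_lit 184) (nat_lit 14242959524133701664)) (.cons (.rf (nat_lit 185) (nat_lit 14242959524133701664)) .nil)))) .nil))))),
 (.br (nat_lit 7) (nat_lit 1) (.cons (.br (nat_lit 8) (nat_lit 1) (.cons (.rf (nat_lit 108) (nat_lit 13580999301284)) (.cons (.rf (nat_lit 180) (nat_lit 445092485129178177)) (.cons (.rf (nat_lit 180) (nat_lit 410189588017056833)) .nil)))) (.cons (.br (nat_lit 9) (nat_lit 1) (.cons (.rf (nat_lit 25) (nat_lit 287032252580)) (.cons (.ev (nat_lit 1213648258156192386318593) (nat_lit 1)) (.cons (.rf (nat_lit 181) (nat_lit 14242959524133701664)) (.cons (.rf (nat_lit 181) (nat_lit 13126066816545818656)) .nil))))) (.cons (.rf (nat_lit 186) (nat_lit 14242959524133701664))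 (.cons (.rf (nat_lit 186) (nat_lit 13126066816545818656)) .nil))))),
 (.br (nat_lit 7) (nat_lit 1) (.cons (.rf (nat_lit 13) (nat_lit 291546916260865)) (.cons (.rf (nat_lit 17) (nat_lit 317999781955)) .nil))),
 (.br (nat_lit 10) (nat_lit 1) (.cons (.br (nat_lit 10) (nat_lit 1) (.cons (.ev (nat_lit 1213648258156192386318593) (nat_lit 1)) (.cons (.rf (nat_lit 188) (nat_lit 434660630008930)) .nil))) (.cons (.rf (nat_lit 114) (nat_lit 434591977641090)) (.cons (.rf (nat_lit 188) (nat_lit 434660630008930)) .nil)))),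
 (.br (nat_lit 7) (nat_lit 1) (.cons (.rf (nat_lit 187) (nat_lit 14242959524133701664)) (.cons (.rf (nat_lit 2) (nat_lit 12380487750786)) (.cons (.rf (nat_lit 189) (nat_lit 14242959524133701664)) (.cons (.rf (nat_lit 189) (nat_lit 13126066816545818656)) .nil))))),
 (.br (nat_lit 9) (nat_lit 1) (.cons (.br (nat_lit 10) (nat_lit 1) (.cons (.rf (nat_lit 22) (nat_lit 8969757893)) (.cons (.rf (nat_lit 67) (nat_lit 287102507237)) (.cons (.ev (nat_lit 1213648258156196664508673) (nat_lit 1)) .nil)))) (.cons (.rf (nat_lit 1) (nat_lit 12087272614)) (.cons (.rf (nat_lit 25) (nat_lit 386890242210)) (.cons (.br (nat_lit 10) (nat_lit 1) (.cons (.ev (nat_lit 1213648258156196664508673) (nat_lit 1)) (.cons (.rf (nat_lit 67) (nat_lit 424407242981)) (.cons (.rf (nat_lit 22) (nat_lit 13264725189)) .nil)))) .nil))))),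
 (.br (nat_lit 7) (nat_lit 1) (.cons (.rf (nat_lit 187) (nat_lit 14242959524133701664)) (.cons (.rf (nat_lit 2) (nat_lit 12380487750786)) (.cons (.rf (nat_lit 191) (nat_lit 14242959524133701664)) (.cons (.rf (nat_lit 191) (nat_lit 13126066816545818656)) .nil))))),
 (.br (nat_lit 11) (nat_lit 1) (.cons (.rf (nat_lit 67) (nat_lit 252740543814)) (.cons (.ev (nat_lit 309489732188110517170077953) (nat_lit 1)) .nil))),
 (.br (nat_lit 8) (nat_lit 1) (.cons (.rf (nat_lit 193) (nat_lit 14242959524133701664)) (.cons (.rf (nat_lit 193) (nat_lit 13126066816545818656)) .nil))),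
 (.br (nat_lit 8) (nat_lit 1) (.cons (.rf (nat_lit 193) (nat_lit 14242959524133701664)) (.cons (.ev (nat_lit 18446745177516212481) (nat_lit 1)) .nil))),
 (.br (nat_lit 8) (nat_lit 1) (.cons (.rf (nat_lit 194) (nat_lit 14242959524133701664)) (.cons (.rf (nat_lit 195) (nat_lit 14242959524133701664)) (.cons (.rf (nat_lit 195) (nat_lit 13126066816545818656)) .nil)))),
 (.br (nat_lit 10) (nat_lit 1) (.cons (.ev (nat_lit 18446745177516212481) (nat_lit 1)) (.cons (.ev (nat_lit 309489750706629606117474561) (nat_lit 1)) (.cons (.zr (nat_lit 8623620608) (nat_lit 310693935713298766914125827) (nat_lit 5) (nat_lit 0)) .nil)))),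
 (.br (nat_lit 8) (nat_lit 1) (.cons (.rf (nat_lit 193) (nat_lit 14242959524133701664)) (.cons (.br (nat_lit 9) (nat_lit 1) (.cons (.kr (nat_lit 4740813228042866393088) (nat_lit 1208925891953698189344768) (nat_lit 5) (nat_lit 0)) (.cons (.rf (nat_lit 197) (nat_lit 14242959524133701664)) (.cons (.rf (nat_lit 197) (nat_lit 13126066816545818656)) .nil)))) .nil))),
 (.br (nat_lit 8) (nat_lit 1) (.cons (.rf (nat_lit 194) (nat_lit 14242959524133701664)) (.cons (.rf (nat_lit 198) (nat_lit 14242959524133701664)) (.cons (.rf (nat_lit 198) (nat_lit 13126066816545818656)) .nil)))),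
 (.br (nat_lit 8) (nat_lit 1) (.cons (.rf (nat_lit 196) (nat_lit 14242959524133701664)) (.cons (.rf (nat_lit 199) (nat_lit 14242959524133701664)) (.cons (.br (nat_lit 8) (nat_lit 1) (.cons (.ev (nat_lit 18446745177516212481) (nat_lit 1)) (.cons (.rf (nat_lit 199) (nat_lit 14242959524133701664)) .nil))) .nil)))),
 (.br (nat_lit 7) (nat_lit 1) (.cons (.rf (nat_lit 187) (nat_lit 14242959524133701664)) (.cons (.rf (nat_lit 189) (nat_lit 14242959524133701664)) (.cons (.rf (nat_lit 192) (nat_lit 14242959524133701664)) (.cons (.br (nat_lit 8) (nat_lit 1) (.cons (.rf (nat_lit 196) (nat_lit 14242959524133701664)) (.cons (.rf (nat_lit 199) (nat_lit 14242959524133701664)) (.cons (.rf (nat_lit 200) (nat_lit 14242959524133701664)) (.cons (.rf (nat_lit 200) (nat_lit 13126066816545818656)) .nil))))) .nil))))),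
 (.br (nat_lit 7) (nat_lit 1) (.cons (.rf (nat_lit 187) (nat_lit 14242959524133701664)) (.cons (.rf (nat_lit 190) (nat_lit 14242959524133701664)) (.cons (.rf (nat_lit 192) (nat_lit 14242959524133701664)) (.cons (.rf (nat_lit 201) (nat_lit 14242959524133701664)) (.cons (.rf (nat_lit 201) (nat_lit 13126066816545818656)) .nil))))))]

theorem c4 : chkAll C T R L4 (nat_lit 168) = true := by decide +kernel

theorem l4 : (nat_lit 168) + L4.length = (nat_lit 203) := by decide +kernel

/-- part of the certificates -/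
def L5 : List Prf := [(.br (nat_lit 9) (nat_lit 1) (.cons (.rf (nat_lit 161) (nat_lit 372853507140714561)) .nil)),
 (.br (nat_lit 9) (nat_lit 1) (.cons (.rf (nat_lit 203) (nat_lit 407901468851537952)) (.cons (.br (nat_lit 9) (nat_lit 1) (.cons (.rf (nat_lit 203) (nat_lit 407901468851537952)) .nil)) .nil))),
 (.br (nat_lit 7) (nat_lit 1) (.cons (.rf (nat_lit 204) (nat_lit 407901468851537952)) (.cons (.rf (nat_lit 17) (nat_lit 389002010758)) .nil))),
 (.br (nat_lit 8) (nat_lit 1) (.cons (.rf (nat_lit 67) (nat_lit 389105788133)) (.cons (.ev (nat_lit 18447025548703105281) (nat_lit 1)) (.cons (.br (nat_lit 9) (nat_lit 1) (.cons (.kr (nat_lit 1208925819614629174706432) (nat_lit 4722366482869645279232) (nat_lit 1) (nat_lit 0)) (.cons (.br (nat_lit 11) (nat_lit 1) (.cons (.ev (nat_lit 1213666633123051801149441) (nat_lit 1)) (.cons (.rf (nat_lit 205) (nat_lit 296473839127301249)) .nil))) (.cons (.br (nat_lit 10) (nat_lit 1) (.cons (.br (nat_lit 11) (nat_lit 1) (.cons (.zr (nat_lit 8623555328)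 (nat_lit 309489732260167007384633347) (nat_lit 5) (nat_lit 0)) .nil)) (.cons (.ev (nat_lit 1213666633123051801149441) (nat_lit 1)) .nil))) .nil)))) .nil)))),
 (.br (nat_lit 8) (nat_lit 1) (.cons (.rf (nat_lit 22) (nat_lit 12155328805)) (.cons (.ev (nat_lit 18447025548703105281) (nat_lit 1)) (.cons (.br (nat_lit 9) (nat_lit 1) (.cons (.br (nat_lit 10) (nat_lit 1) (.cons (.ev (nat_lit 309489750706912184917622785) (nat_lit 1)) (.cons (.br (nat_lit 11) (nat_lit 1) (.cons (.zr (nat_lit 8623620608) (nat_lit 310693935713298766914125827) (nat_lit 5) (nat_lit 0)) .nil)) .nil))) (.cons (.rf (nat_lit 17) (nat_lit 352601744581)) (.cons (.br (nat_lit 11) (nat_lit 1) (.cons (.br (nat_lit 10) (nat_lit 1) (.cons (.ev (nat_lit 81403024878856507408364340228) (nat_lit 3)) .nil)) (.cons (.ev (nat_lit 309489750706912184917622785) (nat_lit 1)) .nil))) .nil)))) .nil)))),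
 (.br (nat_lit 8) (nat_lit 1) (.cons (.rf (nat_lit 22) (nat_lit 12154312873)) (.cons (.ev (nat_lit 18447025548703105281) (nat_lit 1)) (.cons (.br (nat_lit 9) (nat_lit 1) (.cons (.rf (nat_lit 164) (nat_lit 14242959490847705120)) (.cons (.rf (nat_lit 1) (nat_lit 8933188774)) (.cons (.br (nat_lit 11) (nat_lit 1) (.cons (.rf (nat_lit 65) (nat_lit 11831353358645593152)) (.cons (.ev (nat_lit 80156617599284780006295798530) (nat_lit 2)) .nil))) .nil)))) .nil)))),
 (.br (nat_lit 8) (nat_lit 1) (.cons (.rf (nat_lit 104) (nat_lit 443823646662821920)) (.cons (.ev (nat_lit 18447025548703105281) (nat_lit 1)) (.cons (.br (nat_lit 9) (nat_lit 1) (.cons (.br (nat_lit 10) (nat_lit 1) (.cons (.kr (nat_lit 1208925819615728686334208) (nat_lit 4722366764344621989888) (nat_lit 1) (nat_lit 0)) (.cons (.ev (nat_lit 1213666632842672057876481) (nat_lit 1)) .nil))) (.cons (.br (nat_lit 12) (nat_lit 1) (.cons (.zr (nat_lit 8623620608) (nat_lit 79228167255077846011875426307) (nat_lit 5) (nat_lit 0)) (.cons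 (.ev (nat_lit 79537647524158021735578337281) (nat_lit 1)) .nil))) (.cons (.rf (nat_lit 67) (nat_lit 386895389925)) .nil)))) .nil)))),
 (.br (nat_lit 7) (nat_lit 1) (.cons (.br (nat_lit 8) (nat_lit 1) (.cons (.br (nat_lit 8) (nat_lit 1) (.cons (.ev (nat_lit 18447025548703105281) (nat_lit 1)) (.cons (.rf (nat_lit 205) (nat_lit 445092485129178177)) .nil))) (.cons (.rf (nat_lit 114) (nat_lit 431362195788931)) (.cons (.rf (nat_lit 205) (nat_lit 445092485129178177)) .nil)))) (.cons (.br (nat_lit 8) (nat_lit 1) (.cons (.br (nat_lit 8) (nat_lit 1) (.cons (.rf (nat_lit 67) (nat_lit 389105788133)) (.cons (.rf (nat_lit 22) (nat_lit 12155328805)) (.cons (.ev (nat_lit 18447025552981295361) (nat_lit 1)) .nil)))) (.cons (.rf (nat_lit 206) (nat_lit 14242959524133701664)) (.cons (.rf (nat_lit 207) (nat_lit 14242959524133701664)) (.cons (.br (nat_lit 8) (nat_lit 1) (.cons (.ev (nat_lit 18447025552981295361) (nat_lit 1)) (.cons (.rf (nat_lit 206) (nat_lit 14242959524133701664)) (.cons (.rf (nat_lit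 207) (nat_lit 14242959524133701664)) .nil)))) .nil))))) (.cons (.br (nat_lit 8) (nat_lit 1) (.cons (.rf (nat_lit 25) (nat_lit 285992065187)) (.cons (.rf (nat_lit 208) (nat_lit 14242959524133701664)) (.cons (.rf (nat_lit 148) (nat_lit 431362194773123)) (.cons (.br (nat_lit 8) (nat_lit 1) (.cons (.ev (nat_lit 18447025552981295361) (nat_lit 1)) (.cons (.rf (nat_lit 208) (nat_lit 14242959524133701664)) (.cons (.rf (nat_lit 67) (nat_lit 422322646183)) .nil)))) .nil))))) (.cons (.br (nat_lit 8) (nat_lit 1) (.cons (.br (nat_lit 8) (nat_lit 1) (.cons (.rf (nat_lit 104) (nat_lit 443823646662821920)) (.cons (.rf (nat_lit 22) (nat_lit 12222437669)) (.cons (.ev (nat_lit 18447025552981295361) (nat_lit 1)) .nil)))) (.cons (.rf (nat_lit 209) (nat_lit 14242959524133701664)) (.cons (.br (nat_lit 8) (nat_lit 1) (.cons (.rf (nat_lit 22) (nat_lit 12222437669)) (.cons (.ev (nat_lit 18447025548703105281) (nat_lit 1)) (.cons (.rf (nat_lit 202) (nat_lit 11866288108376032320)) .nil)))) (.cons (.br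 (nat_lit 8) (nat_lit 1) (.cons (.ev (nat_lit 18447025552981295361) (nat_lit 1)) (.cons (.rf (nat_lit 209) (nat_lit 14242959524133701664)) (.cons (.rf (nat_lit 202) (nat_lit 11866288108376032320)) .nil)))) .nil))))) .nil))))),
 (.br (nat_lit 10) (nat_lit 1) (.cons (.rf (nat_lit 17) (nat_lit 287098348711)) (.cons (.br (nat_lit 8) (nat_lit 1) (.cons (.rf (nat_lit 75) (nat_lit 14242959524133701664)) (.cons (.br (nat_lit 8) (nat_lit 1) (.cons (.rf (nat_lit 75) (nat_lit 14242959524133701664)) .nil)) .nil))) .nil))),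
 (.br (nat_lit 10) (nat_lit 1) (.cons (.zr (nat_lit 8623620608) (nat_lit 310693935713018391449042947) (nat_lit 5) (nat_lit 0)) .nil)),
 (.br (nat_lit 11) (nat_lit 1) (.cons (.br (nat_lit 8) (nat_lit 1) (.cons (.rf (nat_lit 212) (nat_lit 14242959524133701664)) (.cons (.br (nat_lit 8) (nat_lit 1) (.cons (.rf (nat_lit 212) (nat_lit 14242959524133701664)) .nil)) .nil))) (.cons (.rf (nat_lit 17) (nat_lit 288106063014)) .nil))),
 (.br (nat_lit 7) (nat_lit 1) (.cons (.rf (nat_lit 210) (nat_lit 14242959524133701664)) (.cons (.br (nat_lit 10) (nat_lit 1) (.cons (.rf (nat_lit 211) (nat_lit 14242959524133701664)) (.cons (.rf (nat_lit 114) (nat_lit 433492499567746)) (.cons (.br (nat_lit 10) (nat_lit 1) (.cons (.rf (nat_lit 211) (nat_lit 14242959524133701664)) (.cons (.rf (nat_lit 17) (nat_lit 424403084455)) .nil))) .nil)))) (.cons (.rf (nat_lit 2) (nat_lit 11282049864802)) (.cons (.br (nat_lit 11) (nat_lit 1) (.cons (.rf (nat_lit 213) (nat_lit 14242959524133701664)) (.cons (.br (nat_lit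 11) (nat_lit 1) (.cons (.rf (nat_lit 213) (nat_lit 14242959524133701664)) (.cons (.rf (nat_lit 17) (nat_lit 356758430886)) .nil))) (.cons (.rf (nat_lit 114) (nat_lit 365322778645602)) .nil)))) .nil))))),
 (.br (nat_lit 8) (nat_lit 1) (.cons (.br (nat_lit 10) (nat_lit 1) (.cons (.ev (nat_lit 310693954160043944447049985) (nat_lit 1)) .nil)) .nil)),
 (.br (nat_lit 11) (nat_lit 1) (.cons (.rf (nat_lit 67) (nat_lit 251666802022)) (.cons (.ev (nat_lit 309489750706629606117539841) (nat_lit 1)) .nil))),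
 (.br (nat_lit 8) (nat_lit 1) (.cons (.rf (nat_lit 216) (nat_lit 14242959524133701664)) (.cons (.br (nat_lit 10) (nat_lit 1) (.cons (.br (nat_lit 11) (nat_lit 1) (.cons (.zr (nat_lit 8623555328) (nat_lit 309489732260167007384633347) (nat_lit 5) (nat_lit 0)) .nil)) (.cons (.ev (nat_lit 79228167236631103041989247233) (nat_lit 1)) .nil))) .nil))),
 (.br (nat_lit 8) (nat_lit 1) (.cons (.rf (nat_lit 217) (nat_lit 14242959524133701664)) (.cons (.br (nat_lit 8) (nat_lit 1) (.cons (.rf (nat_lit 216) (nat_lit 14242959524133701664)) (.cons (.ev (nat_lit 18446745177516212481) (nat_lit 1)) .nil))) (.cons (.br (nat_lit 8) (nat_lit 1) (.cons (.rf (nat_lit 217) (nat_lit 14242959524133701664)) (.cons (.ev (nat_lit 18446745177516212481) (nat_lit 1)) .nil))) .nil)))),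
 (.br (nat_lit 8) (nat_lit 1) (.cons (.rf (nat_lit 216) (nat_lit 14242959524133701664)) (.cons (.br (nat_lit 9) (nat_lit 1) (.cons (.kr (nat_lit 1208925819614629174706432) (nat_lit 4722366482869645279232) (nat_lit 1) (nat_lit 0)) (.cons (.br (nat_lit 10) (nat_lit 1) (.cons (.zr (nat_lit 8623620608) (nat_lit 310693935713298766914125827) (nat_lit 5) (nat_lit 0)) .nil)) (.cons (.br (nat_lit 10) (nat_lit 1) (.cons (.zr (nat_lit 8623555328) (nat_lit 309489732260167007384633347) (nat_lit 5) (nat_lit 0)) .nil)) .nil)))) .nil))),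
 (.br (nat_lit 8) (nat_lit 1) (.cons (.rf (nat_lit 218) (nat_lit 14242959524133701664)) (.cons (.rf (nat_lit 219) (nat_lit 14242959524133701664)) (.cons (.br (nat_lit 8) (nat_lit 1) (.cons (.rf (nat_lit 218) (nat_lit 14242959524133701664)) (.cons (.rf (nat_lit 219) (nat_lit 14242959524133701664)) .nil))) .nil)))),
 (.br (nat_lit 8) (nat_lit 1) (.cons (.rf (nat_lit 218) (nat_lit 14242959524133701664)) (.cons (.rf (nat_lit 220) (nat_lit 14242959524133701664)) (.cons (.br (nat_lit 8) (nat_lit 1) (.cons (.ev (nat_lit 18446745177516212481) (nat_lit 1)) (.cons (.rf (nat_lit 220) (nat_lit 14242959524133701664)) .nil))) .nil)))),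
 (.br (nat_lit 7) (nat_lit 1) (.cons (.rf (nat_lit 210) (nat_lit 14242959524133701664)) (.cons (.rf (nat_lit 214) (nat_lit 14242959524133701664)) (.cons (.br (nat_lit 9) (nat_lit 1) (.cons (.br (nat_lit 11) (nat_lit 1) (.cons (.rf (nat_lit 22) (nat_lit 8937252037)) (.cons (.rf (nat_lit 67) (nat_lit 286029813989)) (.cons (.br (nat_lit 8) (nat_lit 1) (.cons (.rf (nat_lit 215) (nat_lit 14242959524133701664)) (.cons (.br (nat_lit 8) (nat_lit 1) (.cons (.rf (nat_lit 215) (nat_lit 14242959524133701664)) .nil)) .nil))) .nil)))) (.cons (.rf (nat_lit 25) (nat_lit 352564058274)) (.cons (.rf (nat_lit 1) (nat_lit 11013563558)) (.cons (.br (nat_lit 11) (nat_lit 1) (.cons (.rf (nat_lit 65) (nat_lit 9597567943469827136)) (.cons (.ev (nat_lit 309489732260732169279766786) (nat_lit 2)) (.cons (.rf (nat_lit 22) (nat_lit 13232219333)) .nil)))) .nil))))) (.cons (.br (nat_lit 8) (nat_lit 1) (.cons (.rf (nat_lit 218) (nat_lit 14242959524133701664)) (.cons (.rf (nat_lit 220) (nat_lit 14242959524133701664))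 (.cons (.rf (nat_lit 221) (nat_lit 14242959524133701664)) (.cons (.br (nat_lit 8) (nat_lit 1) (.cons (.rf (nat_lit 218) (nat_lit 14242959524133701664)) (.cons (.rf (nat_lit 220) (nat_lit 14242959524133701664)) (.cons (.rf (nat_lit 221) (nat_lit 14242959524133701664)) .nil)))) .nil))))) .nil))))),
 (.br (nat_lit 8) (nat_lit 1) (.cons (.br (nat_lit 10) (nat_lit 1) (.cons (.ev (nat_lit 310693954159761369958711553) (nat_lit 1)) .nil)) .nil)),
 (.br (nat_lit 7) (nat_lit 1) (.cons (.rf (nat_lit 210) (nat_lit 14242959524133701664)) (.cons (.rf (nat_lit 2) (nat_lit 11282049864802)) (.cons (.rf (nat_lit 222) (nat_lit 14242959524133701664)) (.cons (.br (nat_lit 9) (nat_lit 1) (.cons (.br (nat_lit 11) (nat_lit 1) (.cons (.rf (nat_lit 22) (nat_lit 9004360901)) (.cons (.br (nat_lit 8) (nat_lit 1) (.cons (.rf (nat_lit 223) (nat_lit 14242959524133701664)) (.cons (.br (nat_lit 8) (nat_lit 1) (.cons (.rf (nat_lit 223) (nat_lit 14242959524133701664)) .nil)) .nil))) (.cons (.rf (nat_lit 67) (nat_lit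 288110188773)) .nil)))) (.cons (.br (nat_lit 11) (nat_lit 1) (.cons (.br (nat_lit 8) (nat_lit 1) (.cons (.br (nat_lit 8) (nat_lit 1) (.cons (.rf (nat_lit 164) (nat_lit 14098844272740632608)) .nil)) (.cons (.br (nat_lit 8) (nat_lit 1) (.cons (.rf (nat_lit 164) (nat_lit 14098844272740632608)) .nil)) .nil))) (.cons (.ev (nat_lit 309489732260732169279766786) (nat_lit 2)) (.cons (.rf (nat_lit 67) (nat_lit 356762556645)) .nil)))) (.cons (.rf (nat_lit 1) (nat_lit 13161047206)) (.cons (.rf (nat_lit 25) (nat_lit 421283535010)) .nil))))) .nil))))),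
 (.br (nat_lit 7) (nat_lit 1) (.cons (.rf (nat_lit 210) (nat_lit 14242959524133701664)) (.cons (.rf (nat_lit 214) (nat_lit 14242959524133701664)) (.cons (.rf (nat_lit 222) (nat_lit 14242959524133701664)) (.cons (.rf (nat_lit 224) (nat_lit 14242959524133701664)) (.cons (.br (nat_lit 7) (nat_lit 1) (.cons (.rf (nat_lit 210) (nat_lit 14242959524133701664)) (.cons (.rf (nat_lit 214) (nat_lit 14242959524133701664)) (.cons (.rf (nat_lit 222) (nat_lit 14242959524133701664)) (.cons (.rf (nat_lit 224) (nat_lit 14242959524133701664)) .nil))))) .nil)))))),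
 (.br (nat_lit 6) (nat_lit 1) (.cons (.kr (nat_lit 1099511627776) (nat_lit 281474976710656) (nat_lit 5) (nat_lit 0)) (.cons (.rf (nat_lit 178) (nat_lit 14242959524133701664)) (.cons (.rf (nat_lit 202) (nat_lit 14242959524133701664)) (.cons (.rf (nat_lit 225) (nat_lit 14242959524133701664)) (.cons (.rf (nat_lit 225) (nat_lit 13126066816545818656)) .nil)))))),
 (.br (nat_lit 10) (nat_lit 1) (.cons (.rf (nat_lit 17) (nat_lit 317165055302)) (.cons (.ev (nat_lit 1213666633123047522959361) (nat_lit 1)) .nil))),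
 (.br (nat_lit 9) (nat_lit 1) (.cons (.rf (nat_lit 22) (nat_lit 8969723173)) (.cons (.rf (nat_lit 22) (nat_lit 8937217317)) (.cons (.rf (nat_lit 227) (nat_lit 14242959524133701664)) .nil)))),
 (.br (nat_lit 8) (nat_lit 1) (.cons (.ev (nat_lit 18447025548703105281) (nat_lit 1)) (.cons (.rf (nat_lit 228) (nat_lit 407901468851537952)) (.cons (.br (nat_lit 9) (nat_lit 1) (.cons (.br (nat_lit 10) (nat_lit 1) (.cons (.rf (nat_lit 67) (nat_lit 287102444741)) (.cons (.br (nat_lit 11) (nat_lit 1) (.cons (.ev (nat_lit 310693935641242272387891201) (nat_lit 1)) .nil)) .nil))) (.cons (.rf (nat_lit 22) (nat_lit 8937217317)) (.cons (.br (nat_lit 12) (nat_lit 1) (.cons (.ev (nat_lit 79228167255149622135248453633) (nat_lit 1)) (.cons (.zr (nat_lit 12901810688) (nat_lit 309489750634853487056257027) (nat_lit 5) (nat_lit 0)) .nil))) .nil)))) .nil)))),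
 (.br (nat_lit 8) (nat_lit 1) (.cons (.rf (nat_lit 22) (nat_lit 10038223082)) (.cons (.ev (nat_lit 18447025548703105281) (nat_lit 1)) (.cons (.br (nat_lit 9) (nat_lit 1) (.cons (.ev (nat_lit 1223093063180625243209986) (nat_lit 2)) (.cons (.br (nat_lit 10) (nat_lit 1) (.cons (.ev (nat_lit 1213666633123051801149441) (nat_lit 1)) (.cons (.br (nat_lit 11) (nat_lit 1) (.cons (.ev (nat_lit 81400616434624979716125229060) (nat_lit 3)) .nil)) .nil))) (.cons (.br (nat_lit 10) (nat_lit 1) (.cons (.br (nat_lit 11) (nat_lit 1) (.cons (.ev (nat_lit 81403024915605319608220911108) (nat_lit 3)) .nil)) (.cons (.ev (nat_lit 1213666633123051801149441) (nat_lit 1)) .nil))) .nil)))) .nil)))),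
 (.br (nat_lit 8) (nat_lit 1) (.cons (.ev (nat_lit 18447025548703105281) (nat_lit 1)) (.cons (.rf (nat_lit 22) (nat_lit 12119613767)) (.cons (.br (nat_lit 10) (nat_lit 1) (.cons (.br (nat_lit 11) (nat_lit 1) (.cons (.rf (nat_lit 54) (nat_lit 12090382565)) (.cons (.ev (nat_lit 310693935640959702211297281) (nat_lit 1)) .nil))) (.cons (.ev (nat_lit 310693935640959697899552769) (nat_lit 1)) (.cons (.br (nat_lit 11) (nat_lit 1) (.cons (.ev (nat_lit 310693935640959702211297281) (nat_lit 1)) (.cons (.ev (nat_lit 158769436871149940802280620290) (nat_lit 2)) .nil))) .nil)))) .nil)))),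
 (.br (nat_lit 8) (nat_lit 1) (.cons (.ev (nat_lit 310693935640959697899552769) (nat_lit 1)) (.cons (.br (nat_lit 9) (nat_lit 1) (.cons (.ev (nat_lit 1213666632842676336066561) (nat_lit 1)) (.cons (.zr (nat_lit 8623620608) (nat_lit 309489750634853487056257027) (nat_lit 5) (nat_lit 0)) .nil))) .nil))),
 (.br (nat_lit 9) (nat_lit 1) (.cons (.ev (nat_lit 72339069031481601) (nat_lit 1)) (.cons (.ev (nat_lit 310693935640959702211297281) (nat_lit 1)) (.cons (.zr (nat_lit 8623620608) (nat_lit 309489750634853487056257027) (nat_lit 5) (nat_lit 0)) .nil)))),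
 (.br (nat_lit 8) (nat_lit 1) (.cons (.rf (nat_lit 233) (nat_lit 14242959524133701664)) (.cons (.br (nat_lit 9) (nat_lit 1) (.cons (.zr (nat_lit 8623620608) (nat_lit 309489750634853487056257027) (nat_lit 5) (nat_lit 0)) (.cons (.ev (nat_lit 79537647524158021731300147201) (nat_lit 1)) .nil))) .nil))),
 (.br (nat_lit 8) (nat_lit 1) (.cons (.br (nat_lit 9) (nat_lit 1) (.cons (.rf (nat_lit 22) (nat_lit 6850586920)) (.cons (.br (nat_lit 10) (nat_lit 1) (.cons (.rf (nat_lit 22) (nat_lit 8834427238)) (.cons (.br (nat_lit 11) (nat_lit 1) (.cons (.ev (nat_lit 310693935641242272387891201) (nat_lit 1)) .nil)) .nil))) (.cons (.br (nat_lit 12) (nat_lit 1) (.cons (.rf (nat_lit 54) (nat_lit 10948583591)) (.cons (.ev (nat_lit 79228167255149622135248453633) (nat_lit 1)) .nil))) .nil)))) (.cons (.ev (nat_lit 18447025548703105281) (nat_lit 1)) (.cons (.rf (nat_lit 226) (nat_lit 11866288108376032320)) .nil))))]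

theorem c5 : chkAll C T R L5 (nat_lit 203) = true := by decide +kernel

theorem l5 : (nat_lit 203) + L5.length = (nat_lit 236) := by decide +kernel

/-- part of the certificates -/
def L6 : List Prf := [(.br (nat_lit 8) (nat_lit 1) (.cons (.rf (nat_lit 235) (nat_lit 14242959524133701664)) (.cons (.br (nat_lit 10) (nat_lit 1) (.cons (.br (nat_lit 9) (nat_lit 1) (.cons (.ev (nat_lit 1213666632842672057876481) (nat_lit 1)) (.cons (.br (nat_lit 11) (nat_lit 1) (.cons (.zr (nat_lit 8623620608) (nat_lit 309489750634573111591174147) (nat_lit 5) (nat_lit 0)) .nil)) .nil))) (.cons (.rf (nat_lit 17) (nat_lit 317165055302)) (.cons (.br (nat_lit 11) (nat_lit 1) (.cons (.br (nat_lit 9) (nat_lit 1) (.cons (.ev (nat_lit 80174775172919809408697502216) (nat_lit 4)) .nil)) (.cons (.ev (nat_lit 79537647524158021735578337281) (nat_lit 1)) .nil))) .nil)))) (.cons (.ev (nat_lit 18447025552981295361) (nat_lit 1)) .nil)))),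
 (.br (nat_lit 7) (nat_lit 1) (.cons (.br (nat_lit 8) (nat_lit 1) (.cons (.rf (nat_lit 226) (nat_lit 14242957258605560896)) (.cons (.br (nat_lit 8) (nat_lit 1) (.cons (.rf (nat_lit 17) (nat_lit 389105788133)) (.cons (.rf (nat_lit 228) (nat_lit 407901468851537952)) (.cons (.ev (nat_lit 18447025552981295361) (nat_lit 1)) .nil)))) (.cons (.rf (nat_lit 229) (nat_lit 14242959524133701664)) (.cons (.br (nat_lit 8) (nat_lit 1) (.cons (.rf (nat_lit 205) (nat_lit 410189517219302434)) (.cons (.ev (nat_lit 18447025552981295361) (nat_lit 1)) (.cons (.rf (nat_lit 229) (nat_lit 14242959524133701664)) .nil)))) .nil))))) (.cons (.br (nat_lit 8) (nat_lit 1) (.cons (.rf (nat_lit 230) (nat_lit 14242959524133701664)) (.cons (.rf (nat_lit 104) (nat_lit 406738121191949376)) (.cons (.rf (nat_lit 231) (nat_lit 14242959524133701664)) (.cons (.br (nat_lit 8) (nat_lit 1) (.cons (.rf (nat_lit 230) (nat_lit 14242959524133701664)) (.cons (.ev (nat_lit 18447025552981295361) (nat_lit 1)) (.cons (.rf (nat_lit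 231) (nat_lit 14242959524133701664)) .nil)))) .nil))))) (.cons (.br (nat_lit 11) (nat_lit 1) (.cons (.rf (nat_lit 226) (nat_lit 11867378823910786112)) (.cons (.rf (nat_lit 79) (nat_lit 9597567976755824672)) (.cons (.br (nat_lit 8) (nat_lit 1) (.cons (.rf (nat_lit 232) (nat_lit 14242959524133701664)) (.cons (.ev (nat_lit 310693935640959697899552769) (nat_lit 1)) (.cons (.br (nat_lit 8) (nat_lit 1) (.cons (.rf (nat_lit 232) (nat_lit 14242959524133701664)) (.cons (.ev (nat_lit 18447025552981295361) (nat_lit 1)) .nil))) .nil)))) (.cons (.br (nat_lit 8) (nat_lit 1) (.cons (.rf (nat_lit 234) (nat_lit 14242959524133701664)) (.cons (.br (nat_lit 8) (nat_lit 1) (.cons (.rf (nat_lit 233) (nat_lit 14242959524133701664)) (.cons (.ev (nat_lit 18447025552981295361) (nat_lit 1)) .nil))) (.cons (.br (nat_lit 8) (nat_lit 1) (.cons (.rf (nat_lit 234) (nat_lit 14242959524133701664)) (.cons (.ev (nat_lit 18447025552981295361) (nat_lit 1)) .nil))) .nil)))) .nil))))) (.cons (.br (nat_lit 8) (nat_lit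 1) (.cons (.rf (nat_lit 235) (nat_lit 14242959524133701664)) (.cons (.rf (nat_lit 236) (nat_lit 14242959524133701664)) (.cons (.br (nat_lit 8) (nat_lit 1) (.cons (.ev (nat_lit 18447025548703105281) (nat_lit 1)) (.cons (.rf (nat_lit 236) (nat_lit 14242959524133701664)) (.cons (.rf (nat_lit 226) (nat_lit 11866288108376032320)) .nil)))) (.cons (.rf (nat_lit 226) (nat_lit 11866288108376032320)) .nil))))) .nil))))),
 (.br (nat_lit 10) (nat_lit 1) (.cons (.rf (nat_lit 27) (nat_lit 9668324916249791616)) (.cons (.rf (nat_lit 67) (nat_lit 424407243973)) (.cons (.rf (nat_lit 22) (nat_lit 13264692453)) .nil)))),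
 (.br (nat_lit 10) (nat_lit 1) (.cons (.ev (nat_lit 309489732188110512858333441) (nat_lit 1)) (.cons (.br (nat_lit 11) (nat_lit 1) (.cons (.ev (nat_lit 158765824224040611813418795010) (nat_lit 2)) .nil)) .nil))),
 (.br (nat_lit 8) (nat_lit 1) (.cons (.rf (nat_lit 239) (nat_lit 14242959524133701664)) (.cons (.br (nat_lit 12) (nat_lit 1) (.cons (.rf (nat_lit 67) (nat_lit 217273509255)) (.cons (.ev (nat_lit 79228167255149622135248453633) (nat_lit 1)) .nil))) .nil))),
 (.br (nat_lit 8) (nat_lit 1) (.cons (.rf (nat_lit 240) (nat_lit 14242959524133701664)) (.cons (.br (nat_lit 8) (nat_lit 1) (.cons (.rf (nat_lit 239) (nat_lit 14242959524133701664)) (.cons (.ev (nat_lit 18446745177516212481) (nat_lit 1)) .nil))) (.cons (.br (nat_lit 8) (nat_lit 1) (.cons (.rf (nat_lit 240) (nat_lit 14242959524133701664)) (.cons (.ev (nat_lit 18446745177516212481) (nat_lit 1)) .nil))) .nil)))),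
 (.br (nat_lit 8) (nat_lit 1) (.cons (.rf (nat_lit 241) (nat_lit 14242959524133701664)) (.cons (.br (nat_lit 9) (nat_lit 1) (.cons (.kr (nat_lit 4759259973216087572736) (nat_lit 1208925964292767204048896) (nat_lit 1) (nat_lit 0)) (.cons (.br (nat_lit 10) (nat_lit 1) (.cons (.zr (nat_lit 18446745181844734720) (nat_lit 310693935785637835928764419) (nat_lit 5) (nat_lit 0)) .nil)) (.cons (.br (nat_lit 10) (nat_lit 1) (.cons (.zr (nat_lit 8623620608) (nat_lit 309489750634573111591174147) (nat_lit 5) (nat_lit 0)) .nil)) .nil)))) .nil))),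
 (.br (nat_lit 8) (nat_lit 1) (.cons (.rf (nat_lit 241) (nat_lit 14242959524133701664)) (.cons (.rf (nat_lit 242) (nat_lit 14242959524133701664)) (.cons (.br (nat_lit 8) (nat_lit 1) (.cons (.rf (nat_lit 241) (nat_lit 14242959524133701664)) (.cons (.rf (nat_lit 242) (nat_lit 14242959524133701664)) .nil))) .nil)))),
 (.br (nat_lit 8) (nat_lit 1) (.cons (.rf (nat_lit 241) (nat_lit 14242959524133701664)) (.cons (.rf (nat_lit 243) (nat_lit 14242959524133701664)) (.cons (.br (nat_lit 8) (nat_lit 1) (.cons (.ev (nat_lit 18446745177516212481) (nat_lit 1)) (.cons (.rf (nat_lit 243) (nat_lit 14242959524133701664)) .nil))) .nil)))),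
 (.br (nat_lit 7) (nat_lit 1) (.cons (.rf (nat_lit 237) (nat_lit 14242959524133701664)) (.cons (.br (nat_lit 9) (nat_lit 1) (.cons (.br (nat_lit 10) (nat_lit 1) (.cons (.rf (nat_lit 22) (nat_lit 8969725157)) (.cons (.rf (nat_lit 67) (nat_lit 287102508229)) (.cons (.br (nat_lit 8) (nat_lit 1) (.cons (.br (nat_lit 8) (nat_lit 1) (.cons (.ev (nat_lit 18446745177516212481) (nat_lit 1)) .nil)) (.cons (.br (nat_lit 8) (nat_lit 1) (.cons (.ev (nat_lit 18446745177516212481) (nat_lit 1)) .nil)) .nil))) .nil)))) (.cons (.rf (nat_lit 1) (nat_lit 12086224039)) (.cons (.rf (nat_lit 25) (nat_lit 386889194658)) (.cons (.rf (nat_lit 238) (nat_lit 14242959524133701664)) .nil))))) (.cons (.br (nat_lit 9) (nat_lit 1) (.cons (.br (nat_lit 11) (nat_lit 1) (.cons (.rf (nat_lit 22) (nat_lit 8937219301)) (.cons (.rf (nat_lit 67) (nat_lit 286029814981)) (.cons (.br (nat_lit 8) (nat_lit 1) (.cons (.br (nat_lit 8) (nat_lit 1) (.cons (.zr (nat_lit 8623620608) (nat_lit 309489750634853487056257027) (nat_lit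 5) (nat_lit 0)) .nil)) (.cons (.br (nat_lit 8) (nat_lit 1) (.cons (.zr (nat_lit 8623620608) (nat_lit 309489750634853487056257027) (nat_lit 5) (nat_lit 0)) .nil)) .nil))) .nil)))) (.cons (.rf (nat_lit 25) (nat_lit 352563010722)) (.cons (.ev (nat_lit 309489732187827938369995009) (nat_lit 1)) (.cons (.br (nat_lit 11) (nat_lit 1) (.cons (.rf (nat_lit 65) (nat_lit 9597567976755824672)) (.cons (.ev (nat_lit 309489732187827942681739521) (nat_lit 1)) (.cons (.rf (nat_lit 22) (nat_lit 13232186597)) .nil)))) .nil))))) (.cons (.br (nat_lit 8) (nat_lit 1) (.cons (.rf (nat_lit 241) (nat_lit 14242959524133701664)) (.cons (.rf (nat_lit 243) (nat_lit 14242959524133701664)) (.cons (.rf (nat_lit 244) (nat_lit 14242959524133701664)) (.cons (.br (nat_lit 8) (nat_lit 1) (.cons (.rf (nat_lit 241) (nat_lit 14242959524133701664)) (.cons (.rf (nat_lit 243) (nat_lit 14242959524133701664)) (.cons (.rf (nat_lit 244) (nat_lit 14242959524133701664)) .nil)))) .nil))))) .nil))))),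
 (.br (nat_lit 9) (nat_lit 1) (.cons (.rf (nat_lit 54) (nat_lit 12090317093)) (.cons (.rf (nat_lit 54) (nat_lit 11017623845)) (.cons (.br (nat_lit 10) (nat_lit 1) (.cons (.br (nat_lit 8) (nat_lit 1) (.cons (.ev (nat_lit 311917047007048488991129602) (nat_lit 2)) (.cons (.br (nat_lit 11) (nat_lit 1) (.cons (.ev (nat_lit 310693991125588582097486082) (nat_lit 2)) .nil)) .nil))) (.cons (.rf (nat_lit 1) (nat_lit 9937595594)) (.cons (.br (nat_lit 11) (nat_lit 1) (.cons (.br (nat_lit 8) (nat_lit 1) (.cons (.ev (nat_lit 18446745177516212481) (nat_lit 1)) .nil)) (.cons (.ev (nat_lit 79537647524158021731300147201) (nat_lit 1)) .nil))) .nil)))) .nil)))),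
 (.br (nat_lit 8) (nat_lit 1) (.cons (.br (nat_lit 9) (nat_lit 1) (.cons (.ev (nat_lit 309489732187827938369995009) (nat_lit 1)) (.cons (.br (nat_lit 11) (nat_lit 1) (.cons (.zr (nat_lit 21575894784) (nat_lit 620183704866675745276035081) (nat_lit 15) (nat_lit 0)) .nil)) .nil))) (.cons (.br (nat_lit 9) (nat_lit 1) (.cons (.br (nat_lit 11) (nat_lit 1) (.cons (.ev (nat_lit 310693935640959702211297281) (nat_lit 1)) .nil)) (.cons (.rf (nat_lit 22) (nat_lit 5577713032)) .nil))) .nil))),
 (.br (nat_lit 8) (nat_lit 1) (.cons (.rf (nat_lit 247) (nat_lit 14242959524133701664)) (.cons (.br (nat_lit 11) (nat_lit 1) (.cons (.br (nat_lit 9) (nat_lit 1) (.cons (.ev (nat_lit 81400616434624410169102041092) (nat_lit 3)) .nil)) (.cons (.ev (nat_lit 79537647524158021735578337281) (nat_lit 1)) .nil))) .nil))),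
 (.br (nat_lit 8) (nat_lit 1) (.cons (.ev (nat_lit 1213666632842676336066561) (nat_lit 1)) .nil)),
 (.br (nat_lit 11) (nat_lit 1) (.cons (.ev (nat_lit 310693935640959697899552769) (nat_lit 1)) (.cons (.rf (nat_lit 22) (nat_lit 10071813322)) (.cons (.rf (nat_lit 22) (nat_lit 13194407238)) .nil)))),
 (.br (nat_lit 7) (nat_lit 1) (.cons (.rf (nat_lit 237) (nat_lit 14242959524133701664)) (.cons (.rf (nat_lit 245) (nat_lit 14242959524133701664)) (.cons (.br (nat_lit 9) (nat_lit 1) (.cons (.rf (nat_lit 246) (nat_lit 14242959524133701664)) (.cons (.rf (nat_lit 153) (nat_lit 386859767970)) (.cons (.rf (nat_lit 153) (nat_lit 352501078178)) (.cons (.br (nat_lit 9) (nat_lit 1) (.cons (.rf (nat_lit 246) (nat_lit 14242959524133701664)) (.cons (.rf (nat_lit 54) (nat_lit 12224534821)) (.cons (.ev (nat_lit 309489732188110517170077953) (nat_lit 1)) .nil)))) .nil))))) (.cons (.br (nat_lit 10) (nat_lit 1) (.cons (.br (nat_lit 8) (nat_lit 1) (.cons (.rf (nat_lit 247) (nat_lit 14242959524133701664))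 (.cons (.rf (nat_lit 248) (nat_lit 14242959524133701664)) (.cons (.br (nat_lit 8) (nat_lit 1) (.cons (.rf (nat_lit 247) (nat_lit 14242959524133701664)) (.cons (.rf (nat_lit 248) (nat_lit 14242959524133701664)) .nil))) .nil)))) (.cons (.br (nat_lit 9) (nat_lit 1) (.cons (.br (nat_lit 8) (nat_lit 1) (.cons (.rf (nat_lit 249) (nat_lit 13126066783259822112)) (.cons (.rf (nat_lit 249) (nat_lit 14242959524133701664)) .nil))) (.cons (.rf (nat_lit 54) (nat_lit 12224600293)) (.cons (.rf (nat_lit 54) (nat_lit 13264788677)) .nil)))) (.cons (.rf (nat_lit 250) (nat_lit 14242959524133701664)) (.cons (.rf (nat_lit 104) (nat_lit 406878858680304704)) .nil))))) .nil))))),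
 (.br (nat_lit 10) (nat_lit 1) (.cons (.br (nat_lit 11) (nat_lit 1) (.cons (.br (nat_lit 8) (nat_lit 1) (.cons (.ev (nat_lit 309489732188110512858333441) (nat_lit 1)) (.cons (.br (nat_lit 9) (nat_lit 1) (.cons (.zr (nat_lit 8623620608) (nat_lit 309489750634573111591174147) (nat_lit 5) (nat_lit 0)) .nil)) .nil))) (.cons (.rf (nat_lit 54) (nat_lit 11151907045)) (.cons (.ev (nat_lit 310693935640959702211297281) (nat_lit 1)) .nil)))) (.cons (.ev (nat_lit 310693935640959697899552769) (nat_lit 1)) (.cons (.br (nat_lit 9) (nat_lit 1) (.cons (.br (nat_lit 9) (nat_lit 1) (.cons (.ev (nat_lit 310693935640959702211297281) (nat_lit 1)) (.cons (.ev (nat_lit 79229371440156576069540053506) (nat_lit 2)) .nil))) (.cons (.ev (nat_lit 310693935640959702211297281) (nat_lit 1)) (.cons (.ev (nat_lit 79229371440156576069540053506) (nat_lit 2)) .nil)))) .nil)))),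
 (.br (nat_lit 10) (nat_lit 1) (.cons (.rf (nat_lit 252) (nat_lit 14242959524133701664)) (.cons (.rf (nat_lit 22) (nat_lit 10071812299)) (.cons (.br (nat_lit 11) (nat_lit 1) (.cons (.ev (nat_lit 310693935640959702211297281) (nat_lit 1)) (.cons (.rf (nat_lit 54) (nat_lit 11151907045)) (.cons (.rf (nat_lit 22) (nat_lit 11045876071)) .nil)))) .nil)))),
 (.br (nat_lit 7) (nat_lit 1) (.cons (.rf (nat_lit 237) (nat_lit 14242959524133701664)) (.cons (.rf (nat_lit 245) (nat_lit 14242959524133701664)) (.cons (.rf (nat_lit 251) (nat_lit 14242959524133701664)) (.cons (.br (nat_lit 10) (nat_lit 1) (.cons (.rf (nat_lit 252) (nat_lit 14242959524133701664)) (.cons (.rf (nat_lit 253) (nat_lit 14242959524133701664)) (.cons (.rf (nat_lit 250) (nat_lit 14208056627020564512)) (.cons (.br (nat_lit 10) (nat_lit 1) (.cons (.rf (nat_lit 252) (nat_lit 14242959524133701664)) (.cons (.rf (nat_lit 253) (nat_lit 14242959524133701664)) (.cons (.rf (nat_lit 22) (nat_lit 13194406246)) .nil)))) .nil))))) .nil))))),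
 (.br (nat_lit 7) (nat_lit 1) (.cons (.rf (nat_lit 237) (nat_lit 14242959524133701664)) (.cons (.rf (nat_lit 245) (nat_lit 14242959524133701664)) (.cons (.rf (nat_lit 251) (nat_lit 14242959524133701664)) (.cons (.rf (nat_lit 254) (nat_lit 14242959524133701664)) (.cons (.br (nat_lit 7) (nat_lit 1) (.cons (.rf (nat_lit 237) (nat_lit 14242959524133701664)) (.cons (.rf (nat_lit 245) (nat_lit 14242959524133701664)) (.cons (.rf (nat_lit 251) (nat_lit 14242959524133701664)) (.cons (.rf (nat_lit 254) (nat_lit 14242959524133701664)) .nil))))) .nil)))))),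
 (.br (nat_lit 6) (nat_lit 1) (.cons (.rf (nat_lit 102) (nat_lit 14242959524133701664)) (.cons (.rf (nat_lit 178) (nat_lit 14242959524133701664)) (.cons (.rf (nat_lit 226) (nat_lit 14242959524133701664)) (.cons (.rf (nat_lit 255) (nat_lit 14242959524133701664)) (.cons (.rf (nat_lit 255) (nat_lit 13126066816545818656)) .nil)))))),
 (.br (nat_lit 8) (nat_lit 1) (.cons (.rf (nat_lit 17) (nat_lit 424472159461)) (.cons (.rf (nat_lit 256) (nat_lit 14242957258605560896)) (.cons (.br (nat_lit 9) (nat_lit 1) (.cons (.br (nat_lit 11) (nat_lit 1) (.cons (.br (nat_lit 10) (nat_lit 1) (.cons (.ev (nat_lit 1213648258156196664508673) (nat_lit 1)) .nil)) (.cons (.zr (nat_lit 12901810688) (nat_lit 309489750634853487056257027) (nat_lit 5) (nat_lit 0)) .nil))) (.cons (.rf (nat_lit 22) (nat_lit 9004326181)) (.cons (.rf (nat_lit 22) (nat_lit 8971820325)) .nil)))) .nil)))),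
 (.br (nat_lit 9) (nat_lit 1) (.cons (.br (nat_lit 10) (nat_lit 1) (.cons (.zr (nat_lit 8623620608) (nat_lit 310693935713298766914125827) (nat_lit 5) (nat_lit 0)) .nil)) (.cons (.ev (nat_lit 79537647542532708215250026753) (nat_lit 1)) .nil))),
 (.br (nat_lit 8) (nat_lit 1) (.cons (.rf (nat_lit 256) (nat_lit 14241866543070807104)) (.cons (.rf (nat_lit 226) (nat_lit 14241866543070807104)) (.cons (.br (nat_lit 11) (nat_lit 1) (.cons (.rf (nat_lit 258) (nat_lit 14242959524133701664)) (.cons (.rf (nat_lit 258) (nat_lit 14241866543070807104)) (.cons (.kr (nat_lit 309485009821345068724781056) (nat_lit 79228162514264337593543950336) (nat_lit 11) (nat_lit 0)) .nil)))) .nil)))),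
 (.br (nat_lit 8) (nat_lit 1) (.cons (.br (nat_lit 9) (nat_lit 1) (.cons (.br (nat_lit 10) (nat_lit 1) (.cons (.ev (nat_lit 1213648258436572129591553) (nat_lit 1)) (.cons (.kr (nat_lit 1208925891672223229411328) (nat_lit 4740813226947649732608) (nat_lit 3) (nat_lit 0)) .nil))) (.cons (.rf (nat_lit 54) (nat_lit 9004424389)) (.cons (.br (nat_lit 11) (nat_lit 1) (.cons (.zr (nat_lit 8623620608) (nat_lit 309489750634853487056257027) (nat_lit 5) (nat_lit 0)) (.cons (.ev (nat_lit 79537647542532427835506753793) (nat_lit 1)) .nil))) .nil)))) (.cons (.rf (nat_lit 22) (nat_lit 10071777515)) (.cons (.rf (nat_lit 256) (nat_lit 11867378823910786112)) .nil)))),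
 (.br (nat_lit 8) (nat_lit 1) (.cons (.rf (nat_lit 260) (nat_lit 14242959524133701664)) (.cons (.br (nat_lit 8) (nat_lit 1) (.cons (.rf (nat_lit 260) (nat_lit 14242959524133701664)) (.cons (.rf (nat_lit 104) (nat_lit 442766919284655168)) (.cons (.rf (nat_lit 256) (nat_lit 11867378823910786112)) .nil)))) (.cons (.rf (nat_lit 104) (nat_lit 442766919284655168)) (.cons (.rf (nat_lit 256) (nat_lit 11867378823910786112)) .nil))))),
 (.br (nat_lit 7) (nat_lit 1) (.cons (.br (nat_lit 8) (nat_lit 1) (.cons (.rf (nat_lit 226) (nat_lit 14242957258605560896)) (.cons (.rf (nat_lit 256) (nat_lit 14242957258605560896)) (.cons (.rf (nat_lit 257) (nat_lit 14242959524133701664)) (.cons (.rf (nat_lit 257) (nat_lit 13126066816545818656)) .nil))))) (.cons (.br (nat_lit 8) (nat_lit 1) (.cons (.rf (nat_lit 256) (nat_lit 14241866543070807104)) (.cons (.rf (nat_lit 226) (nat_lit 14241866543070807104)) (.cons (.rf (nat_lit 259) (nat_lit 14242959524133701664)) (.cons (.rf (nat_lit 259) (nat_lit 13126066816545818656))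 .nil))))) (.cons (.rf (nat_lit 261) (nat_lit 14242959524133701664)) (.cons (.rf (nat_lit 261) (nat_lit 13126066816545818656)) .nil))))),
 (.br (nat_lit 10) (nat_lit 1) (.cons (.rf (nat_lit 67) (nat_lit 218380805447)) (.cons (.rf (nat_lit 197) (nat_lit 10749397666316290080)) .nil)))]

theorem c6 : chkAll C T R L6 (nat_lit 236) = true := by decide +kernel

theorem l6 : (nat_lit 236) + L6.length = (nat_lit 264) := by decide +kernel

/-- part of the certificates -/
def L7 : List Prf := [(.br (nat_lit 8) (nat_lit 1) (.cons (.rf (nat_lit 263) (nat_lit 14242959524133701664)) (.cons (.rf (nat_lit 263) (nat_lit 13126066816545818656)) .nil))),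
 (.br (nat_lit 8) (nat_lit 1) (.cons (.rf (nat_lit 264) (nat_lit 14242959524133701664)) (.cons (.ev (nat_lit 18446745177516212481) (nat_lit 1)) .nil))),
 (.br (nat_lit 8) (nat_lit 1) (.cons (.rf (nat_lit 264) (nat_lit 14242959524133701664)) (.cons (.rf (nat_lit 265) (nat_lit 14242959524133701664)) (.cons (.rf (nat_lit 265) (nat_lit 13126066816545818656)) .nil)))),
 (.br (nat_lit 9) (nat_lit 1) (.cons (.kr (nat_lit 309485028340146740767227904) (nat_lit 1213648186380073308258304) (nat_lit 4) (nat_lit 0)) .nil)),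
 (.br (nat_lit 8) (nat_lit 1) (.cons (.rf (nat_lit 266) (nat_lit 14242959524133701664)) (.cons (.br (nat_lit 9) (nat_lit 1) (.cons (.kr (nat_lit 4740813228042866393088) (nat_lit 1208925891953698189344768) (nat_lit 5) (nat_lit 0)) (.cons (.rf (nat_lit 267) (nat_lit 445092485129178177)) (.cons (.rf (nat_lit 267) (nat_lit 410189588017056833)) .nil)))) .nil))),
 (.br (nat_lit 8) (nat_lit 1) (.cons (.rf (nat_lit 266) (nat_lit 14242959524133701664)) (.cons (.rf (nat_lit 268) (nat_lit 14242959524133701664)) (.cons (.rf (nat_lit 268) (nat_lit 13126066816545818656)) .nil)))),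
 (.br (nat_lit 8) (nat_lit 1) (.cons (.rf (nat_lit 266) (nat_lit 14242959524133701664)) (.cons (.rf (nat_lit 269) (nat_lit 14242959524133701664)) (.cons (.br (nat_lit 8) (nat_lit 1) (.cons (.ev (nat_lit 18446745177516212481) (nat_lit 1)) (.cons (.rf (nat_lit 269) (nat_lit 14242959524133701664)) .nil))) .nil)))),
 (.br (nat_lit 10) (nat_lit 1) (.cons (.ev (nat_lit 1223093063741376173375746) (nat_lit 2)) (.cons (.ev (nat_lit 1213648258156196664508673) (nat_lit 1)) .nil))),
 (.br (nat_lit 9) (nat_lit 1) (.cons (.br (nat_lit 11) (nat_lit 1) (.cons (.rf (nat_lit 22) (nat_lit 9004328165)) (.cons (.br (nat_lit 8) (nat_lit 1) (.cons (.br (nat_lit 8) (nat_lit 1) (.cons (.zr (nat_lit 8623620608) (nat_lit 309489750634853487056257027) (nat_lit 5) (nat_lit 0)) .nil)) (.cons (.br (nat_lit 8) (nat_lit 1) (.cons (.zr (nat_lit 8623620608) (nat_lit 309489750634853487056257027) (nat_lit 5) (nat_lit 0)) .nil)) .nil))) (.cons (.rf (nat_lit 67) (nat_lit 288110189765)) .nil)))) (.cons (.br (nat_lit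 11) (nat_lit 1) (.cons (.br (nat_lit 8) (nat_lit 1) (.cons (.rf (nat_lit 271) (nat_lit 14242959524133701664)) (.cons (.br (nat_lit 8) (nat_lit 1) (.cons (.rf (nat_lit 271) (nat_lit 14242959524133701664)) .nil)) .nil))) (.cons (.rf (nat_lit 22) (nat_lit 11151811813)) (.cons (.ev (nat_lit 309489732187827942681739521) (nat_lit 1)) .nil)))) (.cons (.ev (nat_lit 309489732187827938369995009) (nat_lit 1)) (.cons (.rf (nat_lit 25) (nat_lit 421282487458)) .nil))))),
 (.br (nat_lit 7) (nat_lit 1) (.cons (.rf (nat_lit 262) (nat_lit 14242959524133701664)) (.cons (.br (nat_lit 8) (nat_lit 1) (.cons (.rf (nat_lit 266) (nat_lit 14242959524133701664)) (.cons (.rf (nat_lit 269) (nat_lit 14242959524133701664)) (.cons (.rf (nat_lit 270) (nat_lit 14242959524133701664)) (.cons (.rf (nat_lit 270) (nat_lit 13126066816545818656)) .nil))))) (.cons (.rf (nat_lit 272) (nat_lit 14242959524133701664)) (.cons (.rf (nat_lit 272) (nat_lit 13126066816545818656)) .nil))))),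
 (.br (nat_lit 10) (nat_lit 1) (.cons (.br (nat_lit 9) (nat_lit 1) (.cons (.br (nat_lit 8) (nat_lit 1) (.cons (.rf (nat_lit 22) (nat_lit 5577745736)) (.cons (.br (nat_lit 11) (nat_lit 1) (.cons (.ev (nat_lit 310693954160043944447049985) (nat_lit 1)) .nil)) .nil))) (.cons (.ev (nat_lit 1213648258156192386318593) (nat_lit 1)) (.cons (.br (nat_lit 12) (nat_lit 1) (.cons (.zr (nat_lit 8623620608) (nat_lit 79229371440156291291733295107) (nat_lit 5) (nat_lit 0)) (.cons (.ev (nat_lit 79538861172344119230120132865) (nat_lit 1)) .nil))) .nil)))) (.cons (.rf (nat_lit 104) (nat_lit 442837288028832832)) (.cons (.br (nat_lit 11) (nat_lit 1) (.cons (.br (nat_lit 8) (nat_lit 1) (.cons (.br (nat_lit 9) (nat_lit 1) (.cons (.ev (nat_lit 309489732188110512858333441) (nat_lit 1)) .nil)) (.cons (.ev (nat_lit 79537647542532708215250026753) (nat_lit 1)) .nil))) (.cons (.br (nat_lit 9) (nat_lit 1) (.cons (.br (nat_lit 8) (nat_lit 1) (.cons (.ev (nat_lit 310693954160043944447049985) (nat_lit 1)) .nil))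 (.cons (.ev (nat_lit 79538861172344119230120132865) (nat_lit 1)) .nil))) (.cons (.ev (nat_lit 310693935713863928809456130) (nat_lit 2)) .nil)))) .nil)))),
 (.br (nat_lit 10) (nat_lit 1) (.cons (.rf (nat_lit 274) (nat_lit 14242959524133701664)) (.cons (.rf (nat_lit 22) (nat_lit 10071779563)) (.cons (.br (nat_lit 9) (nat_lit 1) (.cons (.rf (nat_lit 256) (nat_lit 7106939019540369504)) (.cons (.ev (nat_lit 309489732188110517170077953) (nat_lit 1)) (.cons (.ev (nat_lit 79228167236630820463189164289) (nat_lit 1)) .nil)))) .nil)))),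
 (.br (nat_lit 10) (nat_lit 1) (.cons (.rf (nat_lit 274) (nat_lit 14242959524133701664)) (.cons (.rf (nat_lit 275) (nat_lit 14242959524133701664)) (.cons (.rf (nat_lit 104) (nat_lit 442837288028832832)) (.cons (.br (nat_lit 10) (nat_lit 1) (.cons (.rf (nat_lit 274) (nat_lit 14242959524133701664)) (.cons (.rf (nat_lit 275) (nat_lit 14242959524133701664)) (.cons (.rf (nat_lit 22) (nat_lit 13193357671)) .nil)))) .nil))))),
 (.br (nat_lit 7) (nat_lit 1) (.cons (.rf (nat_lit 262) (nat_lit 14242959524133701664)) (.cons (.rf (nat_lit 273) (nat_lit 14242959524133701664)) (.cons (.rf (nat_lit 276) (nat_lit 14242959524133701664)) (.cons (.rf (nat_lit 276) (nat_lit 13126066816545818656)) .nil))))),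
 (.br (nat_lit 8) (nat_lit 1) (.cons (.br (nat_lit 10) (nat_lit 1) (.cons (.zr (nat_lit 12901810688) (nat_lit 310693935713298766914125827) (nat_lit 5) (nat_lit 0)) .nil)) (.cons (.ev (nat_lit 18446745177516212481) (nat_lit 1)) .nil))),
 (.br (nat_lit 9) (nat_lit 1) (.cons (.br (nat_lit 11) (nat_lit 1) (.cons (.rf (nat_lit 278) (nat_lit 14242959524133701664)) (.cons (.br (nat_lit 8) (nat_lit 1) (.cons (.rf (nat_lit 226) (nat_lit 7105849369157505120)) (.cons (.rf (nat_lit 278) (nat_lit 13126066816545818656)) .nil))) (.cons (.kr (nat_lit 309485009821345068724781056) (nat_lit 79228162514264337593543950336) (nat_lit 11) (nat_lit 0)) .nil)))) (.cons (.rf (nat_lit 54) (nat_lit 13165107493)) (.cons (.rf (nat_lit 54) (nat_lit 12092414245)) .nil)))),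
 (.br (nat_lit 7) (nat_lit 1) (.cons (.rf (nat_lit 262) (nat_lit 14242959524133701664)) (.cons (.rf (nat_lit 273) (nat_lit 14242959524133701664)) (.cons (.rf (nat_lit 277) (nat_lit 14242959524133701664)) (.cons (.br (nat_lit 9) (nat_lit 1) (.cons (.rf (nat_lit 279) (nat_lit 14242959524133701664)) (.cons (.br (nat_lit 9) (nat_lit 1) (.cons (.rf (nat_lit 279) (nat_lit 14242959524133701664)) (.cons (.ev (nat_lit 309489732188110517170077953) (nat_lit 1)) (.cons (.ev (nat_lit 79228167236631103041989247233) (nat_lit 1)) .nil)))) (.cons (.rf (nat_lit 153) (nat_lit 421220554914)) (.cons (.rf (nat_lit 153) (nat_lit 386861865122)) .nil))))) .nil))))),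
 (.br (nat_lit 6) (nat_lit 1) (.cons (.rf (nat_lit 102) (nat_lit 14242959524133701664)) (.cons (.rf (nat_lit 178) (nat_lit 14242959524133701664)) (.cons (.rf (nat_lit 226) (nat_lit 14242959524133701664)) (.cons (.rf (nat_lit 256) (nat_lit 14242959524133701664)) (.cons (.br (nat_lit 7) (nat_lit 1) (.cons (.rf (nat_lit 262) (nat_lit 14242959524133701664)) (.cons (.rf (nat_lit 273) (nat_lit 14242959524133701664)) (.cons (.rf (nat_lit 277) (nat_lit 14242959524133701664)) (.cons (.rf (nat_lit 280) (nat_lit 14242959524133701664)) (.cons (.rf (nat_lit 280) (nat_lit 13126066816545818656)) .nil)))))) .nil)))))),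
 (.br (nat_lit 6) (nat_lit 1) (.cons (.rf (nat_lit 102) (nat_lit 14242959524133701664)) (.cons (.rf (nat_lit 178) (nat_lit 14242959524133701664)) (.cons (.rf (nat_lit 226) (nat_lit 14242959524133701664)) (.cons (.rf (nat_lit 256) (nat_lit 14242959524133701664)) (.cons (.rf (nat_lit 281) (nat_lit 14242959524133701664)) (.cons (.rf (nat_lit 281) (nat_lit 13126066816545818656)) .nil))))))),
 (.br (nat_lit 5) (nat_lit 1) (.cons (.rf (nat_lit 86) (nat_lit 14242959524133701664)) (.cons (.rf (nat_lit 282) (nat_lit 14242959524133701664)) (.cons (.rf (nat_lit 282) (nat_lit 14241868808598947872)) (.cons (.rf (nat_lit 282) (nat_lit 11867381089438926880)) (.cons (.rf (nat_lit 282) (nat_lit 11866290373904173088)) .nil)))))),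
 (.br (nat_lit 7) (nat_lit 1) (.cons (.br (nat_lit 10) (nat_lit 1) (.cons (.rf (nat_lit 67) (nat_lit 386957256005)) (.cons (.rf (nat_lit 22) (nat_lit 12090316969)) (.cons (.br (nat_lit 11) (nat_lit 1) (.cons (.br (nat_lit 8) (nat_lit 1) (.cons (.kr (nat_lit 18446744073726328832) (nat_lit 72057598332895232) (nat_lit 3) (nat_lit 0)) .nil)) (.cons (.rf (nat_lit 283) (nat_lit 9482515188707003520)) .nil))) .nil)))) (.cons (.br (nat_lit 11) (nat_lit 1) (.cons (.rf (nat_lit 67) (nat_lit 352597484902)) (.cons (.rf (nat_lit 22) (nat_lit 11017622729)) (.cons (.br (nat_lit 10) (nat_lit 1) (.cons (.rf (nat_lit 233) (nat_lit 14241865476878730304)) (.cons (.rf (nat_lit 283) (nat_lit 9482515188707003520)) .nil))) .nil)))) (.cons (.ev (nat_lit 72339073309671681) (nat_lit 1)) .nil)))),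
 (.br (nat_lit 7) (nat_lit 1) (.cons (.rf (nat_lit 284) (nat_lit 14242959524133701664)) (.cons (.ev (nat_lit 72339069031481601) (nat_lit 1)) (.cons (.br (nat_lit 9) (nat_lit 1) (.cons (.rf (nat_lit 284) (nat_lit 14242958458981812256)) (.cons (.rf (nat_lit 8) (nat_lit 434589693977665)) (.cons (.br (nat_lit 11) (nat_lit 1) (.cons (.rf (nat_lit 188) (nat_lit 255440373061732)) (.cons (.rf (nat_lit 1) (nat_lit 7795483814)) (.cons (.rf (nat_lit 180) (nat_lit 296473839127301249)) .nil)))) (.cons (.br (nat_lit 12) (nat_lit 1) (.cons (.rf (nat_lit 42) (nat_lit 398305810326593)) (.cons (.rf (nat_lit 67) (nat_lit 385754539333)) (.cons (.rf (nat_lit 283) (nat_lit 9482516253858892928)) .nil)))) .nil))))) .nil)))),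
 (.br (nat_lit 7) (nat_lit 1) (.cons (.rf (nat_lit 284) (nat_lit 14242959524133701664)) (.cons (.ev (nat_lit 72339069031481601) (nat_lit 1)) (.cons (.br (nat_lit 8) (nat_lit 1) (.cons (.rf (nat_lit 284) (nat_lit 14242958458981812256)) (.cons (.rf (nat_lit 285) (nat_lit 14242958458981812256)) (.cons (.br (nat_lit 8) (nat_lit 1) (.cons (.kr (nat_lit 72339069031415808) (nat_lit 18446745177516146688) (nat_lit 3) (nat_lit 0)) (.cons (.ev (nat_lit 18447025548703105281) (nat_lit 1)) (.cons (.kr (nat_lit 72057594037927936) (nat_lit 18446744073709551616) (nat_lit 7) (nat_lit 0)) .nil)))) (.cons (.br (nat_lit 8) (nat_lit 1) (.cons (.ev (nat_lit 18447025552981295361) (nat_lit 1)) (.cons (.kr (nat_lit 72058693549555712) (nat_lit 18447025548686262272) (nat_lit 5) (nat_lit 0)) (.cons (.kr (nat_lit 72057594037927936) (nat_lit 18446744073709551616) (nat_lit 7) (nat_lit 0)) .nil)))) .nil))))) .nil)))),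
 (.br (nat_lit 7) (nat_lit 1) (.cons (.rf (nat_lit 284) (nat_lit 14242959524133701664)) (.cons (.rf (nat_lit 285) (nat_lit 14242959524133701664)) (.cons (.rf (nat_lit 286) (nat_lit 14242959524133701664)) (.cons (.br (nat_lit 7) (nat_lit 1) (.cons (.ev (nat_lit 72339073309671681) (nat_lit 1)) (.cons (.rf (nat_lit 285) (nat_lit 14242959524133701664)) (.cons (.rf (nat_lit 286) (nat_lit 14242959524133701664)) .nil)))) .nil))))),
 (.br (nat_lit 11) (nat_lit 1) (.cons (.zr (nat_lit 8623620608) (nat_lit 310693935713298766914125827) (nat_lit 5) (nat_lit 0)) .nil)),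
 (.br (nat_lit 7) (nat_lit 1) (.cons (.rf (nat_lit 287) (nat_lit 14242959524133701664)) (.cons (.rf (nat_lit 25) (nat_lit 386890143010)) (.cons (.br (nat_lit 10) (nat_lit 1) (.cons (.br (nat_lit 8) (nat_lit 1) (.cons (.rf (nat_lit 288) (nat_lit 14242959524133701664)) (.cons (.br (nat_lit 8) (nat_lit 1) (.cons (.rf (nat_lit 288) (nat_lit 14242959524133701664)) .nil)) .nil))) (.cons (.rf (nat_lit 22) (nat_lit 12224534697)) (.cons (.rf (nat_lit 67) (nat_lit 391118005573)) .nil)))) .nil)))),
 (.br (nat_lit 10) (nat_lit 1) (.cons (.zr (nat_lit 8623620608) (nat_lit 310693935713018391449042947) (nat_lit 5) (nat_lit 0)) .nil)),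
 (.br (nat_lit 7) (nat_lit 1) (.cons (.rf (nat_lit 287) (nat_lit 14242959524133701664)) (.cons (.rf (nat_lit 25) (nat_lit 386890143010)) (.cons (.br (nat_lit 11) (nat_lit 1) (.cons (.br (nat_lit 8) (nat_lit 1) (.cons (.rf (nat_lit 290) (nat_lit 14242959524133701664)) (.cons (.br (nat_lit 8) (nat_lit 1) (.cons (.rf (nat_lit 290) (nat_lit 14242959524133701664)) .nil)) .nil))) (.cons (.rf (nat_lit 22) (nat_lit 11151840457)) (.cons (.rf (nat_lit 67) (nat_lit 356758234470)) .nil)))) .nil)))),
 (.br (nat_lit 7) (nat_lit 1) (.cons (.rf (nat_lit 287) (nat_lit 14242959524133701664)) (.cons (.rf (nat_lit 289) (nat_lit 14242959524133701664)) (.cons (.rf (nat_lit 291) (nat_lit 14242959524133701664)) (.cons (.br (nat_lit 7) (nat_lit 1) (.cons (.ev (nat_lit 72339073309671681) (nat_lit 1)) (.cons (.rf (nat_lit 289) (nat_lit 14242959524133701664)) (.cons (.rf (nat_lit 291) (nat_lit 14242959524133701664)) .nil)))) .nil))))),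
 (.br (nat_lit 7) (nat_lit 1) (.cons (.ev (nat_lit 72339069031481601) (nat_lit 1)) (.cons (.rf (nat_lit 25) (nat_lit 386890143010)) (.cons (.br (nat_lit 9) (nat_lit 1) (.cons (.rf (nat_lit 292) (nat_lit 14242958458981812256)) (.cons (.rf (nat_lit 17) (nat_lit 424402986154)) (.cons (.rf (nat_lit 17) (nat_lit 423328195787)) (.cons (.br (nat_lit 10) (nat_lit 1) (.cons (.br (nat_lit 11) (nat_lit 1) (.cons (.ev (nat_lit 310693935641242272387825921) (nat_lit 1)) (.cons (.rf (nat_lit 67) (nat_lit 351394768230)) .nil))) (.cons (.ev (nat_lit 310693935640959697899487489) (nat_lit 1)) (.cons (.rf (nat_lit 67) (nat_lit 385754539333)) .nil)))) .nil))))) .nil)))),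
 (.br (nat_lit 7) (nat_lit 1) (.cons (.rf (nat_lit 287) (nat_lit 14242959524133701664)) (.cons (.rf (nat_lit 292) (nat_lit 14242959524133701664)) (.cons (.rf (nat_lit 293) (nat_lit 14242959524133701664)) (.cons (.br (nat_lit 7) (nat_lit 1) (.cons (.rf (nat_lit 287) (nat_lit 14242959524133701664)) (.cons (.rf (nat_lit 292) (nat_lit 14242959524133701664)) (.cons (.rf (nat_lit 293) (nat_lit 14242959524133701664)) .nil)))) .nil))))),
 (.br (nat_lit 7) (nat_lit 1) (.cons (.rf (nat_lit 287) (nat_lit 14242959524133701664)) (.cons (.rf (nat_lit 292) (nat_lit 14242959524133701664)) (.cons (.rf (nat_lit 294) (nat_lit 14242959524133701664)) (.cons (.br (nat_lit 7) (nat_lit 1) (.cons (.rf (nat_lit 287) (nat_lit 14242959524133701664)) (.cons (.rf (nat_lit 292) (nat_lit 14242959524133701664)) (.cons (.rf (nat_lit 294) (nat_lit 14242959524133701664)) .nil)))) .nil))))),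
 (.br (nat_lit 7) (nat_lit 1) (.cons (.rf (nat_lit 287) (nat_lit 14242959524133701664)) (.cons (.rf (nat_lit 292) (nat_lit 14242959524133701664)) (.cons (.rf (nat_lit 294) (nat_lit 14242959524133701664)) (.cons (.rf (nat_lit 295) (nat_lit 14242959524133701664)) (.cons (.br (nat_lit 7) (nat_lit 1) (.cons (.rf (nat_lit 287) (nat_lit 14242959524133701664)) (.cons (.rf (nat_lit 292) (nat_lit 14242959524133701664)) (.cons (.rf (nat_lit 294) (nat_lit 14242959524133701664)) (.cons (.rf (nat_lit 295) (nat_lit 14242959524133701664)) .nil))))) .nil)))))),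
 (.br (nat_lit 6) (nat_lit 1) (.cons (.rf (nat_lit 283) (nat_lit 14242959523093514272)) (.cons (.rf (nat_lit 283) (nat_lit 14242958457941624864)) (.cons (.kr (nat_lit 1099511627776) (nat_lit 281474976710656) (nat_lit 5) (nat_lit 0)) (.cons (.rf (nat_lit 296) (nat_lit 14242959524133701664)) (.cons (.rf (nat_lit 296) (nat_lit 13126066816545818656)) .nil))))))]

theorem c7 : chkAll C T R L7 (nat_lit 264) = true := by decide +kernel

theorem l7 : (nat_lit 264) + L7.length = (nat_lit 298) := by decide +kernel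

/-- part of the certificates -/
def L8 : List Prf := [(.br (nat_lit 6) (nat_lit 1) (.cons (.rf (nat_lit 283) (nat_lit 14242959523093514272)) (.cons (.rf (nat_lit 283) (nat_lit 14242958457941624864)) (.cons (.rf (nat_lit 297) (nat_lit 14242959524133701664)) (.cons (.rf (nat_lit 297) (nat_lit 14241868808598947872)) (.cons (.kr (nat_lit 281474993487872) (nat_lit 1103806595072) (nat_lit 3) (nat_lit 0)) .nil)))))),
 (.br (nat_lit 6) (nat_lit 1) (.cons (.rf (nat_lit 283) (nat_lit 14242959523093514272)) (.cons (.rf (nat_lit 283) (nat_lit 14242958457941624864)) (.cons (.rf (nat_lit 297) (nat_lit 14242959524133701664)) (.cons (.rf (nat_lit 297) (nat_lit 14241868808598947872)) (.cons (.rf (nat_lit 298) (nat_lit 14242959524133701664)) (.cons (.rf (nat_lit 298) (nat_lit 13126066816545818656)) .nil))))))),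
 (.br (nat_lit 11) (nat_lit 1) (.cons (.rf (nat_lit 65) (nat_lit 9597564610709423168)) (.cons (.rf (nat_lit 67) (nat_lit 423330260325)) (.cons (.rf (nat_lit 22) (nat_lit 13232216233)) .nil)))),
 (.br (nat_lit 7) (nat_lit 1) (.cons (.ev (nat_lit 72339073309671681) (nat_lit 1)) (.cons (.rf (nat_lit 25) (nat_lit 386890143010)) (.cons (.rf (nat_lit 300) (nat_lit 13056261022321575968)) .nil)))),
 (.br (nat_lit 7) (nat_lit 1) (.cons (.br (nat_lit 7) (nat_lit 1) (.cons (.rf (nat_lit 299) (nat_lit 14242957258605560896)) (.cons (.ev (nat_lit 72339073309671681) (nat_lit 1)) (.cons (.ev (nat_lit 72058697844588801) (nat_lit 1)) .nil)))) (.cons (.br (nat_lit 7) (nat_lit 1) (.cons (.rf (nat_lit 299) (nat_lit 14242957258605560896)) (.cons (.rf (nat_lit 301) (nat_lit 445056165777344544)) (.cons (.rf (nat_lit 301) (nat_lit 410153267625035808)) .nil)))) (.cons (.rf (nat_lit 301) (nat_lit 445056165777344544)) (.cons (.rf (nat_lit 301) (nat_lit 410153267625035808)) .nil))))),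
 (.br (nat_lit 12) (nat_lit 1) (.cons (.rf (nat_lit 114) (nat_lit 359825258255458)) (.cons (.br (nat_lit 12) (nat_lit 1) (.cons (.rf (nat_lit 17) (nat_lit 282741580966)) (.cons (.rf (nat_lit 112) (nat_lit 11790613325159632992)) .nil))) (.cons (.rf (nat_lit 113) (nat_lit 9487022115759624288)) .nil)))),
 (.br (nat_lit 7) (nat_lit 1) (.cons (.br (nat_lit 7) (nat_lit 1) (.cons (.ev (nat_lit 72339069031481601) (nat_lit 1)) .nil)) (.cons (.br (nat_lit 7) (nat_lit 1) (.cons (.ev (nat_lit 72339069031481601) (nat_lit 1)) .nil)) .nil))),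
 (.br (nat_lit 11) (nat_lit 1) (.cons (.rf (nat_lit 303) (nat_lit 14242959524133701664)) (.cons (.rf (nat_lit 303) (nat_lit 14242958458981812256)) (.cons (.br (nat_lit 10) (nat_lit 1) (.cons (.rf (nat_lit 304) (nat_lit 14242959524133701664)) (.cons (.rf (nat_lit 304) (nat_lit 14242958458981812256)) (.cons (.rf (nat_lit 108) (nat_lit 9047663548578)) .nil)))) (.cons (.rf (nat_lit 2) (nat_lit 11248898085986)) .nil))))),
 (.br (nat_lit 6) (nat_lit 1) (.cons (.rf (nat_lit 283) (nat_lit 14242959523093514272)) (.cons (.rf (nat_lit 283) (nat_lit 14242958457941624864)) (.cons (.rf (nat_lit 299) (nat_lit 14242959523093514272)) (.cons (.kr (nat_lit 1099511627776) (nat_lit 281474976710656) (nat_lit 5) (nat_lit 0)) (.cons (.br (nat_lit 9) (nat_lit 1) (.cons (.rf (nat_lit 302) (nat_lit 14242959524133701664)) (.cons (.rf (nat_lit 302) (nat_lit 14242958458981812256)) (.cons (.rf (nat_lit 299) (nat_lit 9482518520427221088)) (.cons (.rf (nat_lit 305) (nat_lit 14242959524133701664)) (.cons (.rf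 (nat_lit 305) (nat_lit 13126066815505631264)) .nil)))))) .nil)))))),
 (.br (nat_lit 8) (nat_lit 1) (.cons (.kr (nat_lit 144396663069343744) (nat_lit 36893489251225698304) (nat_lit 3) (nat_lit 0)) (.cons (.ev (nat_lit 18446745173238022401) (nat_lit 1)) (.cons (.kr (nat_lit 18446745173221179392) (nat_lit 72339069014638592) (nat_lit 5) (nat_lit 0)) .nil)))),
 (.br (nat_lit 7) (nat_lit 1) (.cons (.rf (nat_lit 299) (nat_lit 14242957258605560896)) (.cons (.br (nat_lit 8) (nat_lit 1) (.cons (.rf (nat_lit 306) (nat_lit 14242957258605560896)) (.cons (.rf (nat_lit 307) (nat_lit 14242959524133701664)) (.cons (.rf (nat_lit 306) (nat_lit 11867378823910786112)) (.cons (.rf (nat_lit 307) (nat_lit 11867381089438926880)) .nil))))) (.cons (.ev (nat_lit 72339069031481601) (nat_lit 1)) .nil)))),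
 (.br (nat_lit 7) (nat_lit 1) (.cons (.rf (nat_lit 308) (nat_lit 14242959524133701664)) (.cons (.rf (nat_lit 308) (nat_lit 13124976099970877472)) (.cons (.rf (nat_lit 308) (nat_lit 11867381089438926880)) (.cons (.rf (nat_lit 308) (nat_lit 10749397665276102688)) .nil))))),
 (.br (nat_lit 10) (nat_lit 1) (.cons (.br (nat_lit 11) (nat_lit 1) (.cons (.ev (nat_lit 621387871282204182212248066) (nat_lit 2)) (.cons (.rf (nat_lit 17) (nat_lit 423330262309)) (.cons (.br (nat_lit 9) (nat_lit 1) (.cons (.br (nat_lit 8) (nat_lit 1) (.cons (.zr (nat_lit 8623620608) (nat_lit 310693954087704871120666627) (nat_lit 5) (nat_lit 0)) .nil)) (.cons (.ev (nat_lit 79229371440084234797207060481) (nat_lit 1)) .nil))) .nil)))) (.cons (.rf (nat_lit 22) (nat_lit 12219260202)) (.cons (.ev (nat_lit 310693935640959697899487489) (nat_lit 1)) (.cons (.rf (nat_lit 228) (nat_lit 337074330363103264)) .nil))))),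
 (.br (nat_lit 7) (nat_lit 1) (.cons (.rf (nat_lit 299) (nat_lit 14242957258605560896)) (.cons (.rf (nat_lit 310) (nat_lit 14242959524133701664)) (.cons (.rf (nat_lit 310) (nat_lit 13124976099970877472)) .nil)))),
 (.br (nat_lit 7) (nat_lit 1) (.cons (.rf (nat_lit 309) (nat_lit 14242959524133701664)) (.cons (.rf (nat_lit 311) (nat_lit 14242959524133701664)) (.cons (.br (nat_lit 7) (nat_lit 1) (.cons (.rf (nat_lit 309) (nat_lit 14242959524133701664)) (.cons (.rf (nat_lit 311) (nat_lit 14242959524133701664)) (.cons (.rf (nat_lit 311) (nat_lit 11867381089438926880)) .nil)))) (.cons (.br (nat_lit 7) (nat_lit 1) (.cons (.ev (nat_lit 72339069031481601) (nat_lit 1)) (.cons (.rf (nat_lit 311) (nat_lit 14242959524133701664)) (.cons (.rf (nat_lit 311) (nat_lit 11867381089438926880)) .nil)))) .nil))))),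
 (.br (nat_lit 6) (nat_lit 1) (.cons (.rf (nat_lit 283) (nat_lit 14242959523093514272)) (.cons (.rf (nat_lit 283) (nat_lit 14242958457941624864)) (.cons (.rf (nat_lit 299) (nat_lit 14242959523093514272)) (.cons (.rf (nat_lit 306) (nat_lit 11867381089438926880)) (.cons (.br (nat_lit 7) (nat_lit 1) (.cons (.rf (nat_lit 309) (nat_lit 14242959524133701664)) (.cons (.rf (nat_lit 312) (nat_lit 14242959524133701664)) (.cons (.rf (nat_lit 312) (nat_lit 13124976099970877472)) (.cons (.rf (nat_lit 312) (nat_lit 11867381089438926880)) (.cons (.rf (nat_lit 312) (nat_lit 10749397665276102688)) .nil)))))) .nil)))))),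
 (.br (nat_lit 6) (nat_lit 1) (.cons (.rf (nat_lit 283) (nat_lit 14242959523093514272)) (.cons (.rf (nat_lit 283) (nat_lit 14242958457941624864)) (.cons (.rf (nat_lit 306) (nat_lit 14242959524133701664)) (.cons (.rf (nat_lit 313) (nat_lit 14242959524133701664)) (.cons (.rf (nat_lit 306) (nat_lit 11867381089438926880)) (.cons (.rf (nat_lit 313) (nat_lit 11867381089438926880)) .nil))))))),
 (.br (nat_lit 5) (nat_lit 1) (.cons (.rf (nat_lit 283) (nat_lit 14242959524133701664)) (.cons (.rf (nat_lit 283) (nat_lit 14242958458981812256)) (.cons (.rf (nat_lit 299) (nat_lit 14242959524133701664)) (.cons (.rf (nat_lit 314) (nat_lit 14242959524133701664)) (.cons (.rf (nat_lit 314) (nat_lit 13126066816545818656)) .nil)))))),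
 (.br (nat_lit 5) (nat_lit 1) (.cons (.rf (nat_lit 283) (nat_lit 14242959524133701664)) (.cons (.rf (nat_lit 283) (nat_lit 14242958458981812256)) (.cons (.rf (nat_lit 315) (nat_lit 14242959524133701664)) (.cons (.rf (nat_lit 315) (nat_lit 14241868808598947872)) (.cons (.rf (nat_lit 315) (nat_lit 11867381089438926880)) (.cons (.rf (nat_lit 315) (nat_lit 11866290373904173088)) .nil))))))),
 (.br (nat_lit 8) (nat_lit 1) (.cons (.kr (nat_lit 18446745173237956608) (nat_lit 72339073309605888) (nat_lit 3) (nat_lit 0)) .nil)),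
 (.br (nat_lit 8) (nat_lit 1) (.cons (.rf (nat_lit 17) (nat_lit 389103756517)) (.cons (.br (nat_lit 11) (nat_lit 1) (.cons (.rf (nat_lit 317) (nat_lit 13909140160285761)) (.cons (.rf (nat_lit 316) (nat_lit 9482516254899080320)) .nil))) .nil))),
 (.br (nat_lit 11) (nat_lit 1) (.cons (.rf (nat_lit 114) (nat_lit 434660628929667)) (.cons (.br (nat_lit 11) (nat_lit 1) (.cons (.rf (nat_lit 17) (nat_lit 352595584230)) (.cons (.rf (nat_lit 316) (nat_lit 9482516254899080320)) .nil))) (.cons (.rf (nat_lit 316) (nat_lit 9482516254899080320)) .nil)))),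
 (.br (nat_lit 6) (nat_lit 1) (.cons (.rf (nat_lit 2) (nat_lit 12447026158723)) (.cons (.br (nat_lit 8) (nat_lit 1) (.cons (.rf (nat_lit 108) (nat_lit 13583144654052)) (.cons (.rf (nat_lit 318) (nat_lit 14242959524133701664)) (.cons (.rf (nat_lit 318) (nat_lit 13126066816545818656)) .nil)))) (.cons (.rf (nat_lit 319) (nat_lit 14242959524133701664)) (.cons (.rf (nat_lit 319) (nat_lit 13126066816545818656)) .nil))))),
 (.br (nat_lit 11) (nat_lit 1) (.cons (.rf (nat_lit 25) (nat_lit 217176053027)) (.cons (.br (nat_lit 6) (nat_lit 1) (.cons (.rf (nat_lit 22) (nat_lit 8932136169)) (.cons (.rf (nat_lit 67) (nat_lit 286029685959)) (.cons (.ev (nat_lit 309489732188110517170143233) (nat_lit 1)) .nil)))) (.cons (.rf (nat_lit 316) (nat_lit 9482516254899080320)) .nil)))),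
 (.br (nat_lit 11) (nat_lit 1) (.cons (.rf (nat_lit 321) (nat_lit 14242959524133701664)) (.cons (.rf (nat_lit 321) (nat_lit 14242957258605560896)) (.cons (.br (nat_lit 11) (nat_lit 1) (.cons (.rf (nat_lit 321) (nat_lit 14242959524133701664)) (.cons (.rf (nat_lit 321) (nat_lit 14242957258605560896)) (.cons (.rf (nat_lit 316) (nat_lit 9482516254899080320)) .nil)))) (.cons (.rf (nat_lit 316) (nat_lit 9482516254899080320)) .nil))))),
 (.br (nat_lit 9) (nat_lit 1) (.cons (.rf (nat_lit 320) (nat_lit 14242959524133701664)) (.cons (.rf (nat_lit 320) (nat_lit 14242957258605560896)) (.cons (.rf (nat_lit 316) (nat_lit 9482518520427221088)) (.cons (.rf (nat_lit 322) (nat_lit 14242959524133701664)) (.cons (.rf (nat_lit 322) (nat_lit 13126066816545818656)) .nil)))))),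
 (.br (nat_lit 6) (nat_lit 1) (.cons (.rf (nat_lit 67) (nat_lit 389103756517)) (.cons (.rf (nat_lit 22) (nat_lit 12153233701)) (.cons (.ev (nat_lit 18447025552981295361) (nat_lit 1)) .nil)))),
 (.br (nat_lit 11) (nat_lit 1) (.cons (.rf (nat_lit 22) (nat_lit 8930962726)) (.cons (.br (nat_lit 6) (nat_lit 1) (.cons (.rf (nat_lit 54) (nat_lit 12153299173)) (.cons (.rf (nat_lit 22) (nat_lit 12089206983)) (.cons (.br (nat_lit 8) (nat_lit 1) (.cons (.ev (nat_lit 1213666633123051801149441) (nat_lit 1)) (.cons (.br (nat_lit 10) (nat_lit 1) (.cons (.ev (nat_lit 83871717478605562819209465352) (nat_lit 4)) .nil)) .nil))) .nil)))) (.cons (.rf (nat_lit 316) (nat_lit 9482516254899080320)) .nil)))),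
 (.br (nat_lit 11) (nat_lit 1) (.cons (.br (nat_lit 11) (nat_lit 1) (.cons (.rf (nat_lit 22) (nat_lit 8930962726)) (.cons (.rf (nat_lit 22) (nat_lit 11013369033)) (.cons (.rf (nat_lit 316) (nat_lit 9482516254899080320)) .nil)))) (.cons (.rf (nat_lit 325) (nat_lit 14242959524133701664)) (.cons (.br (nat_lit 11) (nat_lit 1) (.cons (.rf (nat_lit 22) (nat_lit 11013369033)) (.cons (.rf (nat_lit 325) (nat_lit 14242959524133701664)) (.cons (.rf (nat_lit 316) (nat_lit 9482516254899080320)) .nil)))) (.cons (.rf (nat_lit 316) (nat_lit 9482516254899080320)) .nil))))),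
 (.br (nat_lit 9) (nat_lit 1) (.cons (.br (nat_lit 8) (nat_lit 1) (.cons (.rf (nat_lit 1) (nat_lit 11114063016)) (.cons (.rf (nat_lit 25) (nat_lit 218312777892)) (.cons (.rf (nat_lit 324) (nat_lit 14242959524133701664)) (.cons (.rf (nat_lit 324) (nat_lit 13126066816545818656)) .nil))))) (.cons (.rf (nat_lit 316) (nat_lit 9482518520427221088)) (.cons (.rf (nat_lit 326) (nat_lit 14242959524133701664)) (.cons (.rf (nat_lit 326) (nat_lit 13126066816545818656)) .nil))))),
 (.br (nat_lit 9) (nat_lit 1) (.cons (.rf (nat_lit 324) (nat_lit 14242959524133701664)) (.cons (.rf (nat_lit 316) (nat_lit 9482518520427221088)) (.cons (.br (nat_lit 11) (nat_lit 1) (.cons (.ev (nat_lit 309489732187827938369995009) (nat_lit 1)) (.cons (.rf (nat_lit 17) (nat_lit 217310274821)) (.cons (.rf (nat_lit 316) (nat_lit 9482516254899080320)) .nil)))) (.cons (.br (nat_lit 11) (nat_lit 1) (.cons (.br (nat_lit 11) (nat_lit 1) (.cons (.ev (nat_lit 309489732187827942681739521) (nat_lit 1)) (.cons (.rf (nat_lit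 316) (nat_lit 9482516254899080320)) .nil))) (.cons (.br (nat_lit 11) (nat_lit 1) (.cons (.ev (nat_lit 309489732187827942681739521) (nat_lit 1)) (.cons (.rf (nat_lit 316) (nat_lit 9482516254899080320)) .nil))) (.cons (.rf (nat_lit 316) (nat_lit 9482516254899080320)) .nil)))) .nil))))),
 (.br (nat_lit 8) (nat_lit 1) (.cons (.rf (nat_lit 323) (nat_lit 14242958458981812256)) (.cons (.rf (nat_lit 327) (nat_lit 14241866543070807104)) (.cons (.rf (nat_lit 328) (nat_lit 14242959524133701664)) (.cons (.rf (nat_lit 328) (nat_lit 13126066816545818656)) .nil))))),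
 (.br (nat_lit 7) (nat_lit 1) (.cons (.kr (nat_lit 1213648258155097152815104) (nat_lit 309485028268371716922671104) (nat_lit 4) (nat_lit 0)) .nil)),
 (.br (nat_lit 6) (nat_lit 1) (.cons (.rf (nat_lit 330) (nat_lit 445092485129178177)) (.cons (.ev (nat_lit 79538861172343838858933240065) (nat_lit 1)) .nil))),
 (.br (nat_lit 10) (nat_lit 1) (.cons (.rf (nat_lit 329) (nat_lit 14241866543070807104)) (.cons (.rf (nat_lit 327) (nat_lit 14241866543070807104)) (.cons (.br (nat_lit 11) (nat_lit 1) (.cons (.rf (nat_lit 331) (nat_lit 14242959524133701664)) (.cons (.rf (nat_lit 331) (nat_lit 14241866543070807104)) (.cons (.zr (nat_lit 313111787280191155272155906) (nat_lit 9444949138530011054080) (nat_lit 5) (nat_lit 1)) .nil)))) .nil)))),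
 (.br (nat_lit 9) (nat_lit 1) (.cons (.rf (nat_lit 327) (nat_lit 14242959524133701664)) (.cons (.rf (nat_lit 329) (nat_lit 14242959524133701664)) (.cons (.rf (nat_lit 316) (nat_lit 9482518520427221088)) (.cons (.br (nat_lit 10) (nat_lit 1) (.cons (.rf (nat_lit 329) (nat_lit 14241866543070807104)) (.cons (.rf (nat_lit 327) (nat_lit 14241866543070807104)) (.cons (.rf (nat_lit 332) (nat_lit 14242959524133701664)) (.cons (.rf (nat_lit 332) (nat_lit 13126066816545818656)) .nil))))) .nil))))),
 (.br (nat_lit 9) (nat_lit 1) (.cons (.rf (nat_lit 327) (nat_lit 14242959524133701664)) (.cons (.rf (nat_lit 329) (nat_lit 14242959524133701664)) (.cons (.rf (nat_lit 316) (nat_lit 9482518520427221088)) (.cons (.rf (nat_lit 333) (nat_lit 14242959524133701664)) (.cons (.rf (nat_lit 333) (nat_lit 13126066816545818656)) .nil)))))),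
 (.br (nat_lit 8) (nat_lit 1) (.cons (.br (nat_lit 10) (nat_lit 1) (.cons (.ev (nat_lit 79537647524158021735578403073) (nat_lit 1)) .nil)) .nil))]

theorem c8 : chkAll C T R L8 (nat_lit 298) = true := by decide +kernel

theorem l8 : (nat_lit 298) + L8.length = (nat_lit 336) := by decide +kernel

/-- part of the certificates -/
def L9 : List Prf := [(.br (nat_lit 10) (nat_lit 1) (.cons (.rf (nat_lit 22) (nat_lit 8964581606)) (.cons (.rf (nat_lit 22) (nat_lit 12089206983)) (.cons (.br (nat_lit 8) (nat_lit 1) (.cons (.br (nat_lit 8) (nat_lit 1) (.cons (.rf (nat_lit 335) (nat_lit 13056261022321575968)) .nil)) (.cons (.rf (nat_lit 335) (nat_lit 13056261022321575968)) .nil))) .nil)))),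
 (.br (nat_lit 11) (nat_lit 1) (.cons (.rf (nat_lit 22) (nat_lit 8998137062)) (.cons (.br (nat_lit 6) (nat_lit 1) (.cons (.ev (nat_lit 309489750706629610429219073) (nat_lit 1)) (.cons (.br (nat_lit 8) (nat_lit 1) (.cons (.ev (nat_lit 310693954160043940135305473) (nat_lit 1)) (.cons (.zr (nat_lit 8623620608) (nat_lit 309489750634853487056257027) (nat_lit 5) (nat_lit 0)) .nil))) (.cons (.br (nat_lit 8) (nat_lit 1) (.cons (.zr (nat_lit 8623620608) (nat_lit 309489750634853487056257027) (nat_lit 5) (nat_lit 0)) (.cons (.ev (nat_lit 79228167255149904705425047553) (nat_lit 1)) .nil))) .nil)))) (.cons (.rf (nat_lit 316) (nat_lit 9482516254899080320)) .nil)))),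
 (.br (nat_lit 9) (nat_lit 1) (.cons (.br (nat_lit 11) (nat_lit 1) (.cons (.rf (nat_lit 148) (nat_lit 434659491288195)) (.cons (.rf (nat_lit 25) (nat_lit 217272590499)) (.cons (.br (nat_lit 11) (nat_lit 1) (.cons (.rf (nat_lit 67) (nat_lit 352595582246)) (.cons (.rf (nat_lit 22) (nat_lit 6785705128)) (.cons (.rf (nat_lit 316) (nat_lit 9482516254899080320)) .nil)))) (.cons (.rf (nat_lit 316) (nat_lit 9482516254899080320)) .nil))))) (.cons (.rf (nat_lit 316) (nat_lit 9482518520427221088)) (.cons (.br (nat_lit 11) (nat_lit 1) (.cons (.rf (nat_lit 1) (nat_lit 8931028198)) (.cons (.rf (nat_lit 153) (nat_lit 217176120483)) (.cons (.br (nat_lit 6) (nat_lit 1) (.cons (.rf (nat_lit 54) (nat_lit 8935118183)) (.cons (.ev (nat_lit 309489732188110512858398721) (nat_lit 1)) (.cons (.br (nat_lit 8) (nat_lit 1) (.cons (.br (nat_lit 8) (nat_lit 1) (.cons (.ev (nat_lit 18447025548703105281) (nat_lit 1)) .nil)) (.cons (.br (nat_lit 8) (nat_lit 1) (.cons (.ev (nat_lit 18447025548703105281) (nat_lit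 1)) .nil)) .nil))) .nil)))) (.cons (.rf (nat_lit 316) (nat_lit 9482516254899080320)) .nil))))) (.cons (.br (nat_lit 11) (nat_lit 1) (.cons (.rf (nat_lit 336) (nat_lit 445056165777344544)) (.cons (.rf (nat_lit 337) (nat_lit 14242959524133701664)) (.cons (.br (nat_lit 11) (nat_lit 1) (.cons (.rf (nat_lit 336) (nat_lit 445056165777344544)) (.cons (.rf (nat_lit 337) (nat_lit 14242959524133701664)) (.cons (.rf (nat_lit 316) (nat_lit 9482516254899080320)) .nil)))) (.cons (.rf (nat_lit 316) (nat_lit 9482516254899080320)) .nil))))) .nil))))),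
 (.br (nat_lit 11) (nat_lit 1) (.cons (.br (nat_lit 6) (nat_lit 1) (.cons (.ev (nat_lit 310693935640959697899552769) (nat_lit 1)) (.cons (.zr (nat_lit 8623620608) (nat_lit 309489750634853487056257027) (nat_lit 5) (nat_lit 0)) .nil))) (.cons (.rf (nat_lit 316) (nat_lit 9482516254899080320)) .nil))),
 (.br (nat_lit 8) (nat_lit 1) (.cons (.rf (nat_lit 323) (nat_lit 14242958458981812256)) (.cons (.br (nat_lit 9) (nat_lit 1) (.cons (.rf (nat_lit 338) (nat_lit 14242959524133701664)) (.cons (.rf (nat_lit 316) (nat_lit 9482518520427221088)) (.cons (.br (nat_lit 11) (nat_lit 1) (.cons (.rf (nat_lit 67) (nat_lit 350454293733)) (.cons (.rf (nat_lit 22) (nat_lit 10950517029)) (.cons (.ev (nat_lit 309489750706629610429219073) (nat_lit 1)) .nil)))) (.cons (.br (nat_lit 11) (nat_lit 1) (.cons (.rf (nat_lit 339) (nat_lit 14242959524133701664)) (.cons (.br (nat_lit 11) (nat_lit 1) (.cons (.rf (nat_lit 339) (nat_lit 14242959524133701664)) (.cons (.ev (nat_lit 309489750706629606117474561) (nat_lit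 1)) .nil))) (.cons (.rf (nat_lit 316) (nat_lit 9482516254899080320)) .nil)))) .nil))))) (.cons (.rf (nat_lit 338) (nat_lit 11867378823910786112)) (.cons (.br (nat_lit 9) (nat_lit 1) (.cons (.rf (nat_lit 338) (nat_lit 14242959524133701664)) (.cons (.rf (nat_lit 316) (nat_lit 9482518520427221088)) (.cons (.br (nat_lit 11) (nat_lit 1) (.cons (.rf (nat_lit 67) (nat_lit 419106661605)) (.cons (.ev (nat_lit 309489750706629610429219073) (nat_lit 1)) (.cons (.rf (nat_lit 22) (nat_lit 13098000677)) .nil)))) (.cons (.br (nat_lit 12) (nat_lit 1) (.cons (.ev (nat_lit 79228167236630820463189164289) (nat_lit 1)) (.cons (.rf (nat_lit 188) (nat_lit 222350838768708)) (.cons (.rf (nat_lit 17) (nat_lit 218317956357)) .nil)))) .nil))))) .nil))))),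
 (.br (nat_lit 6) (nat_lit 1) (.cons (.rf (nat_lit 57) (nat_lit 292785952622689)) (.cons (.br (nat_lit 10) (nat_lit 1) (.cons (.ev (nat_lit 620183667974315705377095684) (nat_lit 3)) (.cons (.ev (nat_lit 310693935713583544720752642) (nat_lit 2)) .nil))) .nil))),
 (.br (nat_lit 9) (nat_lit 1) (.cons (.rf (nat_lit 338) (nat_lit 14242959524133701664)) (.cons (.rf (nat_lit 340) (nat_lit 14242959524133701664)) (.cons (.rf (nat_lit 316) (nat_lit 9482518520427221088)) (.cons (.br (nat_lit 11) (nat_lit 1) (.cons (.rf (nat_lit 340) (nat_lit 11867378823910786112)) (.cons (.rf (nat_lit 338) (nat_lit 11867378823910786112)) (.cons (.br (nat_lit 6) (nat_lit 1) (.cons (.br (nat_lit 6) (nat_lit 1) (.cons (.rf (nat_lit 57) (nat_lit 292785952622689)) (.cons (.rf (nat_lit 334) (nat_lit 11866290372863985696)) .nil))) (.cons (.rf (nat_lit 341) (nat_lit 14242959524133701664)) (.cons (.br (nat_lit 6) (nat_lit 1) (.cons (.rf (nat_lit 334) (nat_lit 11866290372863985696)) (.cons (.rf (nat_lit 341) (nat_lit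 14242959524133701664)) .nil))) .nil)))) (.cons (.rf (nat_lit 316) (nat_lit 9482516254899080320)) .nil))))) .nil))))),
 (.br (nat_lit 9) (nat_lit 1) (.cons (.rf (nat_lit 338) (nat_lit 14242959524133701664)) (.cons (.rf (nat_lit 340) (nat_lit 14242959524133701664)) (.cons (.rf (nat_lit 316) (nat_lit 9482518520427221088)) (.cons (.rf (nat_lit 342) (nat_lit 14242959524133701664)) (.cons (.br (nat_lit 9) (nat_lit 1) (.cons (.rf (nat_lit 338) (nat_lit 14242959524133701664)) (.cons (.rf (nat_lit 340) (nat_lit 14242959524133701664)) (.cons (.rf (nat_lit 316) (nat_lit 9482518520427221088)) (.cons (.rf (nat_lit 342) (nat_lit 14242959524133701664)) .nil))))) .nil)))))),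
 (.br (nat_lit 7) (nat_lit 1) (.cons (.rf (nat_lit 316) (nat_lit 14242957258605560896)) (.cons (.rf (nat_lit 323) (nat_lit 14242959524133701664)) (.cons (.rf (nat_lit 334) (nat_lit 14242959524133701664)) (.cons (.rf (nat_lit 343) (nat_lit 14242959524133701664)) (.cons (.rf (nat_lit 343) (nat_lit 13126066816545818656)) .nil)))))),
 (.br (nat_lit 10) (nat_lit 1) (.cons (.rf (nat_lit 25) (nat_lit 218248811748)) (.cons (.rf (nat_lit 238) (nat_lit 9626633639716491360)) (.cons (.rf (nat_lit 238) (nat_lit 9662661337223827552)) .nil)))),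
 (.br (nat_lit 11) (nat_lit 1) (.cons (.br (nat_lit 8) (nat_lit 1) (.cons (.ev (nat_lit 1213666633123051801149441) (nat_lit 1)) (.cons (.br (nat_lit 10) (nat_lit 1) (.cons (.ev (nat_lit 1223148476031199896208130) (nat_lit 2)) .nil)) .nil))) (.cons (.rf (nat_lit 316) (nat_lit 9482516254899080320)) .nil))),
 (.br (nat_lit 6) (nat_lit 1) (.cons (.rf (nat_lit 159) (nat_lit 14242818786779564064)) (.cons (.rf (nat_lit 345) (nat_lit 14242959524133701664)) (.cons (.br (nat_lit 11) (nat_lit 1) (.cons (.rf (nat_lit 346) (nat_lit 14242959524133701664)) (.cons (.br (nat_lit 11) (nat_lit 1) (.cons (.rf (nat_lit 346) (nat_lit 14242959524133701664)) (.cons (.rf (nat_lit 316) (nat_lit 9482516254899080320)) .nil))) (.cons (.rf (nat_lit 316) (nat_lit 9482516254899080320)) .nil)))) .nil)))),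
 (.br (nat_lit 6) (nat_lit 1) (.cons (.rf (nat_lit 344) (nat_lit 14242958458981812256)) (.cons (.rf (nat_lit 345) (nat_lit 14242959524133701664)) (.cons (.rf (nat_lit 347) (nat_lit 14242959524133701664)) (.cons (.rf (nat_lit 347) (nat_lit 13126066816545818656)) .nil))))),
 (.br (nat_lit 11) (nat_lit 1) (.cons (.ev (nat_lit 1213666632842672057942273) (nat_lit 1)) (.cons (.zr (nat_lit 8623620608) (nat_lit 309489732260167007384633347) (nat_lit 5) (nat_lit 0)) .nil))),
 (.br (nat_lit 11) (nat_lit 1) (.cons (.rf (nat_lit 159) (nat_lit 14062674807053453344)) (.cons (.rf (nat_lit 67) (nat_lit 281734718791)) (.cons (.rf (nat_lit 316) (nat_lit 9482516254899080320)) .nil)))),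
 (.br (nat_lit 6) (nat_lit 1) (.cons (.rf (nat_lit 344) (nat_lit 14242958458981812256)) (.cons (.rf (nat_lit 345) (nat_lit 14242959524133701664)) (.cons (.br (nat_lit 9) (nat_lit 1) (.cons (.br (nat_lit 8) (nat_lit 1) (.cons (.rf (nat_lit 1) (nat_lit 6822307045)) (.cons (.rf (nat_lit 349) (nat_lit 14242959524133701664)) (.cons (.rf (nat_lit 349) (nat_lit 13126066816545818656)) .nil)))) (.cons (.rf (nat_lit 316) (nat_lit 9482518520427221088)) (.cons (.rf (nat_lit 350) (nat_lit 14242959524133701664)) (.cons (.rf (nat_lit 350) (nat_lit 13126066816545818656)) .nil))))) .nil)))),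
 (.br (nat_lit 6) (nat_lit 1) (.cons (.rf (nat_lit 344) (nat_lit 14242958458981812256)) (.cons (.rf (nat_lit 345) (nat_lit 14242959524133701664)) (.cons (.rf (nat_lit 351) (nat_lit 14242959524133701664)) (.cons (.rf (nat_lit 351) (nat_lit 13126066816545818656)) .nil))))),
 (.br (nat_lit 6) (nat_lit 1) (.cons (.rf (nat_lit 344) (nat_lit 14242958458981812256)) (.cons (.rf (nat_lit 348) (nat_lit 14242959524133701664)) (.cons (.rf (nat_lit 352) (nat_lit 14242959524133701664)) (.cons (.br (nat_lit 6) (nat_lit 1) (.cons (.rf (nat_lit 344) (nat_lit 14242958458981812256)) (.cons (.rf (nat_lit 348) (nat_lit 14242959524133701664)) (.cons (.rf (nat_lit 352) (nat_lit 14242959524133701664)) .nil)))) .nil))))),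
 (.br (nat_lit 6) (nat_lit 1) (.cons (.rf (nat_lit 344) (nat_lit 14242958458981812256)) (.cons (.rf (nat_lit 348) (nat_lit 14242959524133701664)) (.cons (.rf (nat_lit 352) (nat_lit 14242959524133701664)) (.cons (.rf (nat_lit 353) (nat_lit 14242959524133701664)) (.cons (.rf (nat_lit 353) (nat_lit 13126066816545818656)) .nil)))))),
 (.br (nat_lit 11) (nat_lit 1) (.cons (.br (nat_lit 8) (nat_lit 1) (.cons (.rf (nat_lit 67) (nat_lit 217310338309)) (.cons (.zr (nat_lit 8623620608) (nat_lit 309489750634853487056257027) (nat_lit 5) (nat_lit 0)) .nil))) (.cons (.rf (nat_lit 316) (nat_lit 9482516254899080320)) .nil))),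
 (.br (nat_lit 6) (nat_lit 1) (.cons (.rf (nat_lit 344) (nat_lit 14242958458981812256)) (.cons (.br (nat_lit 11) (nat_lit 1) (.cons (.rf (nat_lit 22) (nat_lit 8937215209)) (.cons (.rf (nat_lit 67) (nat_lit 286024443239)) (.cons (.rf (nat_lit 316) (nat_lit 9482516254899080320)) .nil)))) (.cons (.br (nat_lit 11) (nat_lit 1) (.cons (.rf (nat_lit 355) (nat_lit 14242959524133701664)) (.cons (.br (nat_lit 11) (nat_lit 1) (.cons (.rf (nat_lit 355) (nat_lit 14242959524133701664)) (.cons (.ev (nat_lit 309489732187827942681739521) (nat_lit 1)) .nil))) (.cons (.rf (nat_lit 316) (nat_lit 9482516254899080320)) .nil)))) .nil)))),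
 (.br (nat_lit 8) (nat_lit 1) (.cons (.br (nat_lit 10) (nat_lit 1) (.cons (.ev (nat_lit 83269672568729186820875485192) (nat_lit 4)) .nil)) .nil)),
 (.br (nat_lit 6) (nat_lit 1) (.cons (.rf (nat_lit 25) (nat_lit 388969501987)) (.cons (.rf (nat_lit 356) (nat_lit 14242959524133701664)) (.cons (.br (nat_lit 11) (nat_lit 1) (.cons (.rf (nat_lit 22) (nat_lit 9004324073)) (.cons (.br (nat_lit 8) (nat_lit 1) (.cons (.rf (nat_lit 357) (nat_lit 14242959524133701664)) (.cons (.br (nat_lit 8) (nat_lit 1) (.cons (.rf (nat_lit 357) (nat_lit 14242959524133701664)) .nil)) .nil))) (.cons (.rf (nat_lit 67) (nat_lit 288104818023)) .nil)))) .nil)))),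
 (.br (nat_lit 6) (nat_lit 1) (.cons (.rf (nat_lit 344) (nat_lit 14242958458981812256)) (.cons (.rf (nat_lit 356) (nat_lit 14242959524133701664)) (.cons (.rf (nat_lit 358) (nat_lit 14242959524133701664)) (.cons (.br (nat_lit 6) (nat_lit 1) (.cons (.ev (nat_lit 72339073309671681) (nat_lit 1)) (.cons (.rf (nat_lit 356) (nat_lit 14242959524133701664)) (.cons (.rf (nat_lit 358) (nat_lit 14242959524133701664)) .nil)))) .nil))))),
 (.br (nat_lit 6) (nat_lit 1) (.cons (.ev (nat_lit 72339069031481601) (nat_lit 1)) (.cons (.rf (nat_lit 359) (nat_lit 14242959524133701664)) (.cons (.br (nat_lit 9) (nat_lit 1) (.cons (.br (nat_lit 8) (nat_lit 1) (.cons (.rf (nat_lit 354) (nat_lit 14242958458981812256)) (.cons (.rf (nat_lit 1) (nat_lit 6789801189)) (.cons (.br (nat_lit 10) (nat_lit 1) (.cons (.zr (nat_lit 8623620608) (nat_lit 309489750634853487056257027) (nat_lit 5) (nat_lit 0)) (.cons (.zr (nat_lit 8623620608) (nat_lit 79228167236703159532203802627) (nat_lit 5) (nat_lit 0)) .nil))) .nil))))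 (.cons (.rf (nat_lit 316) (nat_lit 9482518520427221088)) (.cons (.ev (nat_lit 309489732187827938369995009) (nat_lit 1)) (.cons (.br (nat_lit 11) (nat_lit 1) (.cons (.br (nat_lit 8) (nat_lit 1) (.cons (.br (nat_lit 10) (nat_lit 1) (.cons (.ev (nat_lit 80786529489933003044628072456) (nat_lit 4)) .nil)) (.cons (.zr (nat_lit 12901810688) (nat_lit 309489750634853487056257027) (nat_lit 5) (nat_lit 0)) .nil))) (.cons (.ev (nat_lit 309489732187827942681739521) (nat_lit 1)) (.cons (.rf (nat_lit 67) (nat_lit 281668658535)) .nil)))) .nil))))) .nil)))),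
 (.br (nat_lit 6) (nat_lit 1) (.cons (.rf (nat_lit 344) (nat_lit 14242958458981812256)) (.cons (.rf (nat_lit 359) (nat_lit 14242959524133701664)) (.cons (.rf (nat_lit 360) (nat_lit 14242959524133701664)) (.cons (.br (nat_lit 6) (nat_lit 1) (.cons (.rf (nat_lit 344) (nat_lit 14242958458981812256)) (.cons (.rf (nat_lit 359) (nat_lit 14242959524133701664)) (.cons (.rf (nat_lit 360) (nat_lit 14242959524133701664)) .nil)))) .nil))))),
 (.br (nat_lit 6) (nat_lit 1) (.cons (.rf (nat_lit 344) (nat_lit 14242958458981812256)) (.cons (.rf (nat_lit 359) (nat_lit 14242959524133701664)) (.cons (.rf (nat_lit 361) (nat_lit 14242959524133701664)) (.cons (.br (nat_lit 6) (nat_lit 1) (.cons (.rf (nat_lit 344) (nat_lit 14242958458981812256)) (.cons (.rf (nat_lit 359) (nat_lit 14242959524133701664)) (.cons (.rf (nat_lit 361) (nat_lit 14242959524133701664)) .nil)))) .nil))))),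
 (.br (nat_lit 6) (nat_lit 1) (.cons (.rf (nat_lit 344) (nat_lit 14242958458981812256)) (.cons (.rf (nat_lit 359) (nat_lit 14242959524133701664)) (.cons (.rf (nat_lit 361) (nat_lit 14242959524133701664)) (.cons (.rf (nat_lit 362) (nat_lit 14242959524133701664)) (.cons (.br (nat_lit 6) (nat_lit 1) (.cons (.rf (nat_lit 344) (nat_lit 14242958458981812256)) (.cons (.rf (nat_lit 359) (nat_lit 14242959524133701664)) (.cons (.rf (nat_lit 361) (nat_lit 14242959524133701664)) (.cons (.rf (nat_lit 362) (nat_lit 14242959524133701664)) .nil))))) .nil)))))),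
 (.br (nat_lit 7) (nat_lit 1) (.cons (.rf (nat_lit 344) (nat_lit 14242959524133701664)) (.cons (.rf (nat_lit 316) (nat_lit 14242957258605560896)) (.cons (.rf (nat_lit 354) (nat_lit 14242959524133701664)) (.cons (.rf (nat_lit 363) (nat_lit 14242959524133701664)) (.cons (.rf (nat_lit 363) (nat_lit 13126066816545818656)) .nil)))))),
 (.br (nat_lit 6) (nat_lit 1) (.cons (.br (nat_lit 9) (nat_lit 1) (.cons (.ev (nat_lit 620183667829072414126505986) (nat_lit 2)) .nil)) .nil)),
 (.br (nat_lit 11) (nat_lit 1) (.cons (.br (nat_lit 6) (nat_lit 1) (.cons (.rf (nat_lit 22) (nat_lit 5644821862)) (.cons (.br (nat_lit 10) (nat_lit 1) (.cons (.ev (nat_lit 79548570413320634250962798600) (nat_lit 4)) .nil)) .nil))) (.cons (.rf (nat_lit 22) (nat_lit 10071846122)) (.cons (.rf (nat_lit 316) (nat_lit 9482516254899080320)) .nil)))),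
 (.br (nat_lit 9) (nat_lit 1) (.cons (.kr (nat_lit 1208925819614629174706432) (nat_lit 4722366482869645279232) (nat_lit 1) (nat_lit 0)) (.cons (.rf (nat_lit 366) (nat_lit 14242959524133701664)) (.cons (.rf (nat_lit 366) (nat_lit 13126065751393929248)) .nil))))]

theorem c9 : chkAll C T R L9 (nat_lit 336) = true := by decide +kernel

theorem l9 : (nat_lit 336) + L9.length = (nat_lit 368) := by decide +kernel

/-- part of the certificates -/
def L10 : List Prf := [(.br (nat_lit 9) (nat_lit 1) (.cons (.rf (nat_lit 367) (nat_lit 14242959524133701664)) (.cons (.rf (nat_lit 54) (nat_lit 12224601349)) (.cons (.rf (nat_lit 57) (nat_lit 365424651963522)) .nil)))),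
 (.br (nat_lit 8) (nat_lit 1) (.cons (.rf (nat_lit 344) (nat_lit 14242958458981812256)) (.cons (.rf (nat_lit 364) (nat_lit 14242958458981812256)) (.cons (.br (nat_lit 11) (nat_lit 1) (.cons (.br (nat_lit 10) (nat_lit 1) (.cons (.rf (nat_lit 54) (nat_lit 6753200295)) (.cons (.rf (nat_lit 54) (nat_lit 9873724775)) (.cons (.br (nat_lit 6) (nat_lit 1) (.cons (.rf (nat_lit 365) (nat_lit 14242959524133701664)) (.cons (.br (nat_lit 6) (nat_lit 1) (.cons (.rf (nat_lit 365) (nat_lit 14242959524133701664)) .nil)) .nil))) .nil)))) (.cons (.rf (nat_lit 153) (nat_lit 350353628321)) (.cons (.ev (nat_lit 310693954159761365647032321) (nat_lit 1)) (.cons (.rf (nat_lit 316) (nat_lit 9482516254899080320)) .nil))))) (.cons (.br (nat_lit 9) (nat_lit 1) (.cons (.rf (nat_lit 367) (nat_lit 14242959524133701664)) (.cons (.rf (nat_lit 316) (nat_lit 9482518520427221088)) (.cons (.rf (nat_lit 368) (nat_lit 14242959524133701664)) (.cons (.rf (nat_lit 368) (nat_lit 13126065751393929248)) .nil))))) .nil))))),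
 (.br (nat_lit 6) (nat_lit 1) (.cons (.ev (nat_lit 309489750706912180605878273) (nat_lit 1)) .nil)),
 (.br (nat_lit 6) (nat_lit 1) (.cons (.rf (nat_lit 370) (nat_lit 14242959524133701664)) (.cons (.rf (nat_lit 370) (nat_lit 11939367249581803552)) .nil))),
 (.br (nat_lit 9) (nat_lit 1) (.cons (.rf (nat_lit 316) (nat_lit 9482518520427221088)) (.cons (.rf (nat_lit 371) (nat_lit 14242959524133701664)) (.cons (.br (nat_lit 11) (nat_lit 1) (.cons (.br (nat_lit 6) (nat_lit 1) (.cons (.br (nat_lit 10) (nat_lit 1) (.cons (.ev (nat_lit 83883759624535099415810149896) (nat_lit 4)) .nil)) (.cons (.ev (nat_lit 79537647542532708215250026753) (nat_lit 1)) .nil))) (.cons (.br (nat_lit 10) (nat_lit 1) (.cons (.br (nat_lit 6) (nat_lit 1) (.cons (.ev (nat_lit 309489750706912184917622785) (nat_lit 1)) .nil)) (.cons (.ev (nat_lit 79541288487306892014551892226) (nat_lit 2)) .nil))) (.cons (.ev (nat_lit 309489750706629610429219073) (nat_lit 1)) .nil)))) .nil)))),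
 (.br (nat_lit 8) (nat_lit 1) (.cons (.rf (nat_lit 344) (nat_lit 14242958458981812256)) (.cons (.rf (nat_lit 364) (nat_lit 14242958458981812256)) (.cons (.rf (nat_lit 369) (nat_lit 14242959524133701664)) (.cons (.br (nat_lit 9) (nat_lit 1) (.cons (.rf (nat_lit 372) (nat_lit 14242959524133701664)) (.cons (.rf (nat_lit 316) (nat_lit 9482518520427221088)) (.cons (.br (nat_lit 9) (nat_lit 1) (.cons (.rf (nat_lit 371) (nat_lit 14242959524133701664)) (.cons (.rf (nat_lit 54) (nat_lit 11151908101)) (.cons (.rf (nat_lit 54) (nat_lit 13232283877)) .nil)))) (.cons (.br (nat_lit 9) (nat_lit 1) (.cons (.rf (nat_lit 372) (nat_lit 14242959524133701664)) (.cons (.rf (nat_lit 316) (nat_lit 9482518520427221088)) (.cons (.rf (nat_lit 54) (nat_lit 13232283877)) .nil)))) .nil))))) .nil))))),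
 (.br (nat_lit 8) (nat_lit 1) (.cons (.rf (nat_lit 344) (nat_lit 14242958458981812256)) (.cons (.rf (nat_lit 364) (nat_lit 14242958458981812256)) (.cons (.rf (nat_lit 369) (nat_lit 14242959524133701664)) (.cons (.rf (nat_lit 373) (nat_lit 14242959524133701664)) (.cons (.br (nat_lit 8) (nat_lit 1) (.cons (.rf (nat_lit 344) (nat_lit 14242958458981812256)) (.cons (.rf (nat_lit 364) (nat_lit 14242958458981812256)) (.cons (.rf (nat_lit 369) (nat_lit 14242959524133701664)) (.cons (.rf (nat_lit 373) (nat_lit 14242959524133701664)) .nil))))) .nil)))))),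
 (.br (nat_lit 7) (nat_lit 1) (.cons (.rf (nat_lit 344) (nat_lit 14242959524133701664)) (.cons (.ev (nat_lit 72058693566332929) (nat_lit 1)) (.cons (.rf (nat_lit 364) (nat_lit 14242959524133701664)) (.cons (.rf (nat_lit 374) (nat_lit 14242959524133701664)) (.cons (.rf (nat_lit 374) (nat_lit 13126066816545818656)) .nil)))))),
 (.br (nat_lit 8) (nat_lit 1) (.cons (.rf (nat_lit 344) (nat_lit 14242958458981812256)) (.cons (.rf (nat_lit 364) (nat_lit 14242958458981812256)) (.cons (.rf (nat_lit 375) (nat_lit 14242958458981812256)) (.cons (.br (nat_lit 9) (nat_lit 1) (.cons (.br (nat_lit 9) (nat_lit 1) (.cons (.rf (nat_lit 316) (nat_lit 9482518520427221088)) (.cons (.ev (nat_lit 309489750706629606117474561) (nat_lit 1)) (.cons (.ev (nat_lit 79228167255149622130936643841) (nat_lit 1)) .nil)))) (.cons (.rf (nat_lit 316) (nat_lit 9482518520427221088)) (.cons (.rf (nat_lit 153) (nat_lit 419073105057)) (.cons (.rf (nat_lit 153) (nat_lit 384714415265)) .nil))))) .nil))))),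
 (.br (nat_lit 7) (nat_lit 1) (.cons (.rf (nat_lit 344) (nat_lit 14242959524133701664)) (.cons (.rf (nat_lit 316) (nat_lit 14242957258605560896)) (.cons (.rf (nat_lit 364) (nat_lit 14242959524133701664)) (.cons (.rf (nat_lit 375) (nat_lit 14242959524133701664)) (.cons (.br (nat_lit 8) (nat_lit 1) (.cons (.rf (nat_lit 344) (nat_lit 14242958458981812256)) (.cons (.rf (nat_lit 364) (nat_lit 14242958458981812256)) (.cons (.rf (nat_lit 375) (nat_lit 14242958458981812256)) (.cons (.rf (nat_lit 376) (nat_lit 14242959524133701664)) (.cons (.rf (nat_lit 376) (nat_lit 13126066816545818656)) .nil)))))) .nil)))))),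
 (.br (nat_lit 7) (nat_lit 1) (.cons (.rf (nat_lit 344) (nat_lit 14242959524133701664)) (.cons (.rf (nat_lit 316) (nat_lit 14242957258605560896)) (.cons (.rf (nat_lit 364) (nat_lit 14242959524133701664)) (.cons (.rf (nat_lit 375) (nat_lit 14242959524133701664)) (.cons (.rf (nat_lit 377) (nat_lit 14242959524133701664)) (.cons (.rf (nat_lit 377) (nat_lit 13126066816545818656)) .nil))))))),
 (.br (nat_lit 5) (nat_lit 1) (.cons (.rf (nat_lit 316) (nat_lit 14242959524133701664)) (.cons (.rf (nat_lit 378) (nat_lit 14242959524133701664)) (.cons (.rf (nat_lit 378) (nat_lit 14241868808598947872)) (.cons (.rf (nat_lit 378) (nat_lit 11867381089438926880)) (.cons (.rf (nat_lit 378) (nat_lit 11866290373904173088)) .nil)))))),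
 (.br (nat_lit 10) (nat_lit 1) (.cons (.rf (nat_lit 17) (nat_lit 386960399529)) (.cons (.rf (nat_lit 17) (nat_lit 287102409897)) (.cons (.br (nat_lit 11) (nat_lit 1) (.cons (.br (nat_lit 11) (nat_lit 1) (.cons (.zr (nat_lit 8623620608) (nat_lit 310693935713298766914125827) (nat_lit 5) (nat_lit 0)) .nil)) (.cons (.rf (nat_lit 316) (nat_lit 9482516254899080320)) .nil))) .nil)))),
 (.br (nat_lit 6) (nat_lit 1) (.cons (.ev (nat_lit 1213648258436567851401473) (nat_lit 1)) (.cons (.rf (nat_lit 380) (nat_lit 14242959524133701664)) (.cons (.rf (nat_lit 380) (nat_lit 13126066816545818656)) .nil)))),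
 (.br (nat_lit 6) (nat_lit 1) (.cons (.rf (nat_lit 381) (nat_lit 14242959524133701664)) (.cons (.ev (nat_lit 1213648258156192386252801) (nat_lit 1)) (.cons (.br (nat_lit 10) (nat_lit 1) (.cons (.br (nat_lit 8) (nat_lit 1) (.cons (.rf (nat_lit 317) (nat_lit 13906870207285283)) (.cons (.rf (nat_lit 317) (nat_lit 12816154672531491)) .nil))) (.cons (.rf (nat_lit 17) (nat_lit 424407145641)) (.cons (.rf (nat_lit 17) (nat_lit 391121149097)) .nil)))) .nil)))),
 (.br (nat_lit 6) (nat_lit 1) (.cons (.rf (nat_lit 381) (nat_lit 14242959524133701664)) (.cons (.ev (nat_lit 1213648258156192386252801) (nat_lit 1)) (.cons (.rf (nat_lit 382) (nat_lit 14242959524133701664)) (.cons (.rf (nat_lit 382) (nat_lit 13126066816545818656)) .nil))))),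
 (.br (nat_lit 11) (nat_lit 1) (.cons (.br (nat_lit 6) (nat_lit 1) (.cons (.br (nat_lit 6) (nat_lit 1) (.cons (.zr (nat_lit 8623620608) (nat_lit 310693935713298766914125827) (nat_lit 5) (nat_lit 0)) .nil)) (.cons (.br (nat_lit 6) (nat_lit 1) (.cons (.zr (nat_lit 8623620608) (nat_lit 310693935713298766914125827) (nat_lit 5) (nat_lit 0)) .nil)) .nil))) (.cons (.rf (nat_lit 17) (nat_lit 219322621097)) .nil))),
 (.br (nat_lit 10) (nat_lit 1) (.cons (.rf (nat_lit 383) (nat_lit 14241868808598947872)) (.cons (.rf (nat_lit 383) (nat_lit 14241866543070807104)) (.cons (.ev (nat_lit 1213648258156192386252801) (nat_lit 1)) (.cons (.br (nat_lit 11) (nat_lit 1) (.cons (.rf (nat_lit 384) (nat_lit 14242959524133701664)) (.cons (.rf (nat_lit 384) (nat_lit 14242957258605560896)) (.cons (.rf (nat_lit 114) (nat_lit 294883170751553)) .nil)))) .nil))))),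
 (.br (nat_lit 11) (nat_lit 1) (.cons (.rf (nat_lit 159) (nat_lit 14134870870769894464)) (.cons (.rf (nat_lit 25) (nat_lit 215095743714)) (.cons (.rf (nat_lit 316) (nat_lit 9482516254899080320)) .nil)))),
 (.br (nat_lit 11) (nat_lit 1) (.cons (.rf (nat_lit 159) (nat_lit 14134870870769894464)) (.cons (.br (nat_lit 10) (nat_lit 1) (.cons (.rf (nat_lit 22) (nat_lit 6721741991)) (.cons (.rf (nat_lit 67) (nat_lit 215162854725)) (.cons (.rf (nat_lit 379) (nat_lit 9482518519387033696)) .nil)))) (.cons (.rf (nat_lit 316) (nat_lit 9482516254899080320)) .nil)))),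
 (.br (nat_lit 11) (nat_lit 1) (.cons (.br (nat_lit 8) (nat_lit 1) (.cons (.rf (nat_lit 67) (nat_lit 350451049831)) (.cons (.rf (nat_lit 22) (nat_lit 10947499303)) (.cons (.br (nat_lit 6) (nat_lit 1) (.cons (.br (nat_lit 6) (nat_lit 1) (.cons (.zr (nat_lit 33056783241719507320836) (nat_lit 928455103251019206183879424) (nat_lit 10) (nat_lit 3)) .nil)) (.cons (.br (nat_lit 6) (nat_lit 1) (.cons (.zr (nat_lit 33056783241719507320836) (nat_lit 928455103251019206183879424) (nat_lit 10) (nat_lit 3)) .nil)) .nil))) .nil)))) (.cons (.br (nat_lit 10) (nat_lit 1) (.cons (.rf (nat_lit 67) (nat_lit 281734847813)) (.cons (.rf (nat_lit 22) (nat_lit 8802116775)) (.cons (.rf (nat_lit 379) (nat_lit 9482518519387033696)) .nil)))) (.cons (.rf (nat_lit 316) (nat_lit 9482516254899080320)) .nil)))),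
 (.br (nat_lit 11) (nat_lit 1) (.cons (.rf (nat_lit 388) (nat_lit 14242959524133701664)) (.cons (.rf (nat_lit 25) (nat_lit 281667736801)) (.cons (.rf (nat_lit 316) (nat_lit 9482516254899080320)) .nil)))),
 (.br (nat_lit 6) (nat_lit 1) (.cons (.br (nat_lit 6) (nat_lit 1) (.cons (.rf (nat_lit 17) (nat_lit 146367782057)) (.cons (.rf (nat_lit 188) (nat_lit 360851478715424)) .nil))) (.cons (.rf (nat_lit 114) (nat_lit 358586023777344)) (.cons (.rf (nat_lit 188) (nat_lit 360851478715424)) .nil)))),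
 (.br (nat_lit 6) (nat_lit 1) (.cons (.rf (nat_lit 17) (nat_lit 179627464840)) (.cons (.kr (nat_lit 281474993487872) (nat_lit 1103806595072) (nat_lit 3) (nat_lit 0)) .nil))),
 (.br (nat_lit 6) (nat_lit 1) (.cons (.rf (nat_lit 391) (nat_lit 13909140160286785)) (.cons (.br (nat_lit 11) (nat_lit 1) (.cons (.rf (nat_lit 17) (nat_lit 181810733259)) (.cons (.ev (nat_lit 309489732187827942681739521) (nat_lit 1)) .nil))) .nil))),
 (.br (nat_lit 6) (nat_lit 1) (.cons (.rf (nat_lit 391) (nat_lit 13909140160286785)) (.cons (.br (nat_lit 8) (nat_lit 1) (.cons (.rf (nat_lit 228) (nat_lit 225439786256633952)) (.cons (.ev (nat_lit 309489732188110512858398721) (nat_lit 1)) .nil))) .nil))),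
 (.br (nat_lit 12) (nat_lit 1) (.cons (.br (nat_lit 6) (nat_lit 1) (.cons (.rf (nat_lit 392) (nat_lit 14242959524133701664)) (.cons (.rf (nat_lit 393) (nat_lit 14242959524133701664)) (.cons (.br (nat_lit 6) (nat_lit 1) (.cons (.rf (nat_lit 392) (nat_lit 14242959524133701664)) (.cons (.rf (nat_lit 393) (nat_lit 14242959524133701664)) .nil))) .nil)))) (.cons (.rf (nat_lit 379) (nat_lit 9482516253858892928)) (.cons (.rf (nat_lit 316) (nat_lit 9482516254899080320)) .nil)))),
 (.br (nat_lit 9) (nat_lit 1) (.cons (.br (nat_lit 11) (nat_lit 1) (.cons (.rf (nat_lit 386) (nat_lit 14242959524133701664)) (.cons (.rf (nat_lit 387) (nat_lit 14242959524133701664)) (.cons (.br (nat_lit 11) (nat_lit 1) (.cons (.rf (nat_lit 25) (nat_lit 215095743714)) (.cons (.rf (nat_lit 387) (nat_lit 14242959524133701664)) (.cons (.ev (nat_lit 309489732187827942681739521) (nat_lit 1)) .nil)))) (.cons (.rf (nat_lit 316) (nat_lit 9482516254899080320)) .nil))))) (.cons (.br (nat_lit 11) (nat_lit 1) (.cons (.rf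 (nat_lit 388) (nat_lit 14242959524133701664)) (.cons (.rf (nat_lit 389) (nat_lit 14242959524133701664)) (.cons (.br (nat_lit 11) (nat_lit 1) (.cons (.rf (nat_lit 388) (nat_lit 14242959524133701664)) (.cons (.rf (nat_lit 25) (nat_lit 281667736801)) (.cons (.rf (nat_lit 316) (nat_lit 9482516254899080320)) .nil)))) (.cons (.rf (nat_lit 316) (nat_lit 9482516254899080320)) .nil))))) (.cons (.rf (nat_lit 316) (nat_lit 9482518520427221088)) (.cons (.br (nat_lit 11) (nat_lit 1) (.cons (.ev (nat_lit 309489732187827938369995009) (nat_lit 1)) (.cons (.rf (nat_lit 390) (nat_lit 13909140160286785)) (.cons (.rf (nat_lit 2) (nat_lit 9013367577665)) (.cons (.rf (nat_lit 316) (nat_lit 9482516254899080320)) .nil))))) (.cons (.br (nat_lit 12) (nat_lit 1) (.cons (.rf (nat_lit 394) (nat_lit 14242959524133701664)) (.cons (.br (nat_lit 12) (nat_lit 1) (.cons (.rf (nat_lit 394) (nat_lit 14242959524133701664)) (.cons (.rf (nat_lit 379) (nat_lit 9482516253858892928)) (.cons (.rf (nat_lit 316) (nat_lit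 9482516254899080320)) .nil)))) (.cons (.rf (nat_lit 379) (nat_lit 9482516253858892928)) (.cons (.rf (nat_lit 316) (nat_lit 9482516254899080320)) .nil))))) .nil)))))),
 (.br (nat_lit 7) (nat_lit 1) (.cons (.rf (nat_lit 379) (nat_lit 14242957258605560896)) (.cons (.rf (nat_lit 316) (nat_lit 14242957258605560896)) (.cons (.br (nat_lit 9) (nat_lit 1) (.cons (.rf (nat_lit 383) (nat_lit 14242959524133701664)) (.cons (.rf (nat_lit 383) (nat_lit 14242957258605560896)) (.cons (.kr (nat_lit 4722366482869645213696) (nat_lit 1208925819614629174706176) (nat_lit 9) (nat_lit 0)) (.cons (.rf (nat_lit 385) (nat_lit 14242959524133701664)) (.cons (.rf (nat_lit 385) (nat_lit 13126066816545818656)) .nil)))))) (.cons (.rf (nat_lit 395) (nat_lit 14242959524133701664)) (.cons (.rf (nat_lit 395) (nat_lit 13126066816545818656)) .nil)))))),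
 (.br (nat_lit 11) (nat_lit 1) (.cons (.br (nat_lit 6) (nat_lit 1) (.cons (.kr (nat_lit 72339069031415808) (nat_lit 18446745177516146688) (nat_lit 3) (nat_lit 0)) (.cons (.br (nat_lit 8) (nat_lit 1) (.cons (.ev (nat_lit 1213648258156196664442881) (nat_lit 1)) (.cons (.rf (nat_lit 330) (nat_lit 445019988228704353)) .nil))) (.cons (.br (nat_lit 8) (nat_lit 1) (.cons (.br (nat_lit 10) (nat_lit 1) (.cons (.zr (nat_lit 12901810688) (nat_lit 310693935713298766914125827) (nat_lit 5) (nat_lit 0)) .nil)) (.cons (.ev (nat_lit 79537647524157741355835064321) (nat_lit 1)) .nil))) .nil)))) (.cons (.br (nat_lit 10) (nat_lit 1) (.cons (.ev (nat_lit 1213648258436572129591553) (nat_lit 1)) (.cons (.br (nat_lit 8) (nat_lit 1) (.cons (.rf (nat_lit 22) (nat_lit 5614445830)) (.cons (.zr (nat_lit 4345430528) (nat_lit 309489750634573111591174147) (nat_lit 5) (nat_lit 0)) .nil))) (.cons (.rf (nat_lit 379) (nat_lit 9482518519387033696)) .nil)))) (.cons (.rf (nat_lit 316) (nat_lit 9482516254899080320))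 .nil)))),
 (.br (nat_lit 11) (nat_lit 1) (.cons (.rf (nat_lit 397) (nat_lit 14242959524133701664)) (.cons (.br (nat_lit 10) (nat_lit 1) (.cons (.br (nat_lit 6) (nat_lit 1) (.cons (.rf (nat_lit 22) (nat_lit 5614445768)) (.cons (.zr (nat_lit 8623620608) (nat_lit 309489732260167007384633347) (nat_lit 5) (nat_lit 0)) .nil))) (.cons (.ev (nat_lit 1213666632842672057942273) (nat_lit 1)) (.cons (.rf (nat_lit 379) (nat_lit 9482518519387033696)) .nil)))) (.cons (.rf (nat_lit 316) (nat_lit 9482516254899080320)) .nil)))),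
 (.br (nat_lit 11) (nat_lit 1) (.cons (.rf (nat_lit 397) (nat_lit 14242959524133701664)) (.cons (.rf (nat_lit 398) (nat_lit 14242959524133701664)) (.cons (.br (nat_lit 11) (nat_lit 1) (.cons (.rf (nat_lit 397) (nat_lit 14242959524133701664)) (.cons (.rf (nat_lit 398) (nat_lit 14242959524133701664)) (.cons (.rf (nat_lit 316) (nat_lit 9482516254899080320)) .nil)))) (.cons (.rf (nat_lit 316) (nat_lit 9482516254899080320)) .nil))))),
 (.br (nat_lit 6) (nat_lit 1) (.cons (.rf (nat_lit 57) (nat_lit 360886954134593)) (.cons (.br (nat_lit 8) (nat_lit 1) (.cons (.br (nat_lit 10) (nat_lit 1) (.cons (.ev (nat_lit 81395799676512122972640641028) (nat_lit 3)) .nil)) (.cons (.rf (nat_lit 22) (nat_lit 7695806726)) .nil))) .nil)))]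

theorem c10 : chkAll C T R L10 (nat_lit 368) = true := by decide +kernel

theorem l10 : (nat_lit 368) + L10.length = (nat_lit 401) := by decide +kernel

/-- part of the certificates -/
def L11 : List Prf := [(.br (nat_lit 11) (nat_lit 1) (.cons (.rf (nat_lit 396) (nat_lit 9481427804892467296)) (.cons (.br (nat_lit 6) (nat_lit 1) (.cons (.rf (nat_lit 400) (nat_lit 14242959524133701664)) (.cons (.br (nat_lit 6) (nat_lit 1) (.cons (.rf (nat_lit 57) (nat_lit 360886954134593)) (.cons (.rf (nat_lit 399) (nat_lit 9481427804892467296)) .nil))) (.cons (.br (nat_lit 6) (nat_lit 1) (.cons (.rf (nat_lit 400) (nat_lit 14242959524133701664)) (.cons (.rf (nat_lit 399) (nat_lit 9481427804892467296)) .nil))) .nil)))) (.cons (.rf (nat_lit 379) (nat_lit 9482516254899080320)) (.cons (.rf (nat_lit 316) (nat_lit 9482516254899080320)) .nil))))),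
 (.br (nat_lit 9) (nat_lit 1) (.cons (.rf (nat_lit 399) (nat_lit 14242959524133701664)) (.cons (.rf (nat_lit 316) (nat_lit 9482518520427221088)) (.cons (.rf (nat_lit 401) (nat_lit 14242959524133701664)) (.cons (.rf (nat_lit 401) (nat_lit 13126066816545818656)) .nil))))),
 (.br (nat_lit 6) (nat_lit 1) (.cons (.rf (nat_lit 396) (nat_lit 14242956192413484096)) (.cons (.rf (nat_lit 396) (nat_lit 14241865476878730304)) (.cons (.kr (nat_lit 72339069048193024) (nat_lit 18446745181811113984) (nat_lit 3) (nat_lit 0)) .nil)))),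
 (.br (nat_lit 8) (nat_lit 1) (.cons (.br (nat_lit 6) (nat_lit 1) (.cons (.rf (nat_lit 396) (nat_lit 14242956192413484096)) (.cons (.rf (nat_lit 396) (nat_lit 14241865476878730304)) (.cons (.rf (nat_lit 403) (nat_lit 14242959524133701664)) (.cons (.rf (nat_lit 403) (nat_lit 13126066816545818656)) .nil))))) (.cons (.rf (nat_lit 402) (nat_lit 11867378823910786112)) (.cons (.rf (nat_lit 402) (nat_lit 11866288108376032320)) .nil)))),
 (.br (nat_lit 8) (nat_lit 1) (.cons (.rf (nat_lit 404) (nat_lit 14242959524133701664)) (.cons (.br (nat_lit 8) (nat_lit 1) (.cons (.rf (nat_lit 404) (nat_lit 14242959524133701664)) (.cons (.rf (nat_lit 402) (nat_lit 11867378823910786112)) (.cons (.rf (nat_lit 402) (nat_lit 11866288108376032320)) .nil)))) (.cons (.rf (nat_lit 402) (nat_lit 11867378823910786112)) (.cons (.rf (nat_lit 402) (nat_lit 11866288108376032320)) .nil))))),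
 (.br (nat_lit 9) (nat_lit 1) (.cons (.rf (nat_lit 402) (nat_lit 14242959524133701664)) (.cons (.rf (nat_lit 405) (nat_lit 14242959524133701664)) (.cons (.rf (nat_lit 316) (nat_lit 9482518520427221088)) (.cons (.rf (nat_lit 379) (nat_lit 9482518520427221088)) .nil))))),
 (.br (nat_lit 7) (nat_lit 1) (.cons (.rf (nat_lit 379) (nat_lit 14242957258605560896)) (.cons (.rf (nat_lit 316) (nat_lit 14242957258605560896)) (.cons (.rf (nat_lit 396) (nat_lit 14242959524133701664)) (.cons (.rf (nat_lit 396) (nat_lit 14241868808598947872)) (.cons (.br (nat_lit 9) (nat_lit 1) (.cons (.rf (nat_lit 402) (nat_lit 14242959524133701664)) (.cons (.rf (nat_lit 405) (nat_lit 14242959524133701664)) (.cons (.rf (nat_lit 316) (nat_lit 9482518520427221088)) (.cons (.rf (nat_lit 406) (nat_lit 14242959524133701664)) (.cons (.rf (nat_lit 406) (nat_lit 13126066816545818656)) .nil)))))) .nil)))))),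
 (.br (nat_lit 7) (nat_lit 1) (.cons (.rf (nat_lit 379) (nat_lit 14242957258605560896)) (.cons (.rf (nat_lit 316) (nat_lit 14242957258605560896)) (.cons (.rf (nat_lit 396) (nat_lit 14242959524133701664)) (.cons (.rf (nat_lit 396) (nat_lit 14241868808598947872)) (.cons (.rf (nat_lit 407) (nat_lit 14242959524133701664)) (.cons (.rf (nat_lit 407) (nat_lit 13126066816545818656)) .nil))))))),
 (.br (nat_lit 11) (nat_lit 1) (.cons (.rf (nat_lit 2) (nat_lit 11276813374562)) (.cons (.rf (nat_lit 390) (nat_lit 13904604679147587)) (.cons (.rf (nat_lit 390) (nat_lit 9335100861155364)) (.cons (.rf (nat_lit 316) (nat_lit 9482516254899080320)) .nil))))),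
 (.br (nat_lit 6) (nat_lit 1) (.cons (.zr (nat_lit 1108135248384) (nat_lit 309489732260448482361344003) (nat_lit 5) (nat_lit 0)) .nil)),
 (.br (nat_lit 6) (nat_lit 1) (.cons (.rf (nat_lit 410) (nat_lit 14242959524133701664)) (.cons (.rf (nat_lit 410) (nat_lit 11867381089438926880)) .nil))),
 (.br (nat_lit 6) (nat_lit 1) (.cons (.rf (nat_lit 411) (nat_lit 14242959524133701664)) (.cons (.br (nat_lit 6) (nat_lit 1) (.cons (.zr (nat_lit 1108135248384) (nat_lit 309489732260448482361344003) (nat_lit 5) (nat_lit 0)) .nil)) .nil))),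
 (.br (nat_lit 10) (nat_lit 1) (.cons (.br (nat_lit 6) (nat_lit 1) (.cons (.br (nat_lit 6) (nat_lit 1) (.cons (.ev (nat_lit 1223093064026158241153026) (nat_lit 2)) .nil)) (.cons (.br (nat_lit 6) (nat_lit 1) (.cons (.ev (nat_lit 1223093064026158241153026) (nat_lit 2)) .nil)) .nil))) (.cons (.rf (nat_lit 17) (nat_lit 219321539755)) .nil))),
 (.br (nat_lit 7) (nat_lit 1) (.cons (.rf (nat_lit 379) (nat_lit 14242957258605560896)) (.cons (.rf (nat_lit 316) (nat_lit 14242957258605560896)) (.cons (.rf (nat_lit 408) (nat_lit 14242957258605560896)) (.cons (.br (nat_lit 9) (nat_lit 1) (.cons (.rf (nat_lit 409) (nat_lit 14242959524133701664)) (.cons (.rf (nat_lit 409) (nat_lit 14242957258605560896)) (.cons (.rf (nat_lit 316) (nat_lit 9482518520427221088)) (.cons (.br (nat_lit 6) (nat_lit 1) (.cons (.rf (nat_lit 411) (nat_lit 14242959524133701664)) (.cons (.rf (nat_lit 412) (nat_lit 14242959524133701664)) (.cons (.rf (nat_lit 412) (nat_lit 11867381089438926880)) .nil)))) (.cons (.br (nat_lit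 11) (nat_lit 1) (.cons (.rf (nat_lit 390) (nat_lit 9407668626425891)) (.cons (.rf (nat_lit 390) (nat_lit 7155802307855427)) (.cons (.br (nat_lit 10) (nat_lit 1) (.cons (.rf (nat_lit 413) (nat_lit 14242959524133701664)) (.cons (.rf (nat_lit 413) (nat_lit 14242957258605560896)) (.cons (.rf (nat_lit 114) (nat_lit 292684182099009)) .nil)))) (.cons (.rf (nat_lit 2) (nat_lit 9015513093185)) .nil))))) .nil)))))) (.cons (.ev (nat_lit 72058697844523009) (nat_lit 1)) .nil)))))),
 (.br (nat_lit 11) (nat_lit 1) (.cons (.br (nat_lit 6) (nat_lit 1) (.cons (.rf (nat_lit 1) (nat_lit 7857348902)) (.cons (.rf (nat_lit 74) (nat_lit 263786245543528480)) (.cons (.rf (nat_lit 74) (nat_lit 266108414033266720)) .nil)))) (.cons (.rf (nat_lit 408) (nat_lit 9482515189747190912)) (.cons (.rf (nat_lit 316) (nat_lit 9482516254899080320)) .nil)))),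
 (.br (nat_lit 11) (nat_lit 1) (.cons (.rf (nat_lit 415) (nat_lit 14242959524133701664)) (.cons (.br (nat_lit 8) (nat_lit 1) (.cons (.rf (nat_lit 250) (nat_lit 11754654899970838624)) (.cons (.rf (nat_lit 22) (nat_lit 7723067752)) (.cons (.br (nat_lit 10) (nat_lit 1) (.cons (.ev (nat_lit 1858142615387138039375725060) (nat_lit 3)) (.cons (.rf (nat_lit 22) (nat_lit 8903635271)) .nil))) .nil)))) (.cons (.rf (nat_lit 316) (nat_lit 9482516254899080320)) .nil)))),
 (.br (nat_lit 9) (nat_lit 1) (.cons (.br (nat_lit 11) (nat_lit 1) (.cons (.rf (nat_lit 415) (nat_lit 14242959524133701664)) (.cons (.rf (nat_lit 416) (nat_lit 14242959524133701664)) (.cons (.br (nat_lit 11) (nat_lit 1) (.cons (.rf (nat_lit 408) (nat_lit 9482515189747190912)) (.cons (.rf (nat_lit 416) (nat_lit 14242959524133701664)) (.cons (.rf (nat_lit 316) (nat_lit 9482516254899080320)) .nil)))) (.cons (.rf (nat_lit 316) (nat_lit 9482516254899080320)) .nil))))) (.cons (.rf (nat_lit 316) (nat_lit 9482518520427221088)) (.cons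 (.rf (nat_lit 408) (nat_lit 9482518520427221088)) (.cons (.rf (nat_lit 408) (nat_lit 9482517455275331680)) .nil))))),
 (.br (nat_lit 6) (nat_lit 1) (.cons (.br (nat_lit 8) (nat_lit 1) (.cons (.rf (nat_lit 22) (nat_lit 7696853192)) (.cons (.br (nat_lit 10) (nat_lit 1) (.cons (.ev (nat_lit 81403024915605319608220778500) (nat_lit 3)) .nil)) .nil))) (.cons (.rf (nat_lit 408) (nat_lit 11867380023246850080)) .nil))),
 (.br (nat_lit 9) (nat_lit 1) (.cons (.rf (nat_lit 417) (nat_lit 14242959524133701664)) (.cons (.rf (nat_lit 316) (nat_lit 9482518520427221088)) (.cons (.rf (nat_lit 414) (nat_lit 8365625812839338080)) (.cons (.br (nat_lit 12) (nat_lit 1) (.cons (.br (nat_lit 6) (nat_lit 1) (.cons (.rf (nat_lit 418) (nat_lit 14242959524133701664)) (.cons (.br (nat_lit 6) (nat_lit 1) (.cons (.rf (nat_lit 418) (nat_lit 14242959524133701664)) (.cons (.rf (nat_lit 417) (nat_lit 11867381089438926880)) .nil))) (.cons (.rf (nat_lit 417) (nat_lit 11867381089438926880)) .nil)))) (.cons (.rf (nat_lit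 408) (nat_lit 7106937819164118144)) (.cons (.rf (nat_lit 379) (nat_lit 9482516253858892928)) (.cons (.rf (nat_lit 316) (nat_lit 9482516254899080320)) .nil))))) .nil))))),
 (.br (nat_lit 7) (nat_lit 1) (.cons (.rf (nat_lit 379) (nat_lit 14242957258605560896)) (.cons (.rf (nat_lit 316) (nat_lit 14242957258605560896)) (.cons (.rf (nat_lit 408) (nat_lit 14242957258605560896)) (.cons (.ev (nat_lit 72058693566332929) (nat_lit 1)) (.cons (.br (nat_lit 9) (nat_lit 1) (.cons (.rf (nat_lit 417) (nat_lit 14242959524133701664)) (.cons (.rf (nat_lit 419) (nat_lit 14242959524133701664)) (.cons (.rf (nat_lit 316) (nat_lit 9482518520427221088)) (.cons (.br (nat_lit 9) (nat_lit 1) (.cons (.rf (nat_lit 408) (nat_lit 9482518520427221088)) (.cons (.rf (nat_lit 414) (nat_lit 8365625812839338080)) (.cons (.rf (nat_lit 316) (nat_lit 9482518520427221088)) (.cons (.rf (nat_lit 379) (nat_lit 9482518520427221088)) .nil))))) (.cons (.br (nat_lit 9) (nat_lit 1) (.cons (.rf (nat_lit 408) (nat_lit 9482517455275331680))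 (.cons (.rf (nat_lit 419) (nat_lit 14242959524133701664)) (.cons (.rf (nat_lit 316) (nat_lit 9482518520427221088)) (.cons (.rf (nat_lit 379) (nat_lit 9482518520427221088)) .nil))))) .nil)))))) .nil)))))),
 (.br (nat_lit 7) (nat_lit 1) (.cons (.rf (nat_lit 379) (nat_lit 14242957258605560896)) (.cons (.rf (nat_lit 316) (nat_lit 14242957258605560896)) (.cons (.rf (nat_lit 414) (nat_lit 14242959524133701664)) (.cons (.rf (nat_lit 420) (nat_lit 14242959524133701664)) (.cons (.rf (nat_lit 414) (nat_lit 11867381089438926880)) (.cons (.rf (nat_lit 420) (nat_lit 11867381089438926880)) .nil))))))),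
 (.br (nat_lit 5) (nat_lit 1) (.cons (.rf (nat_lit 316) (nat_lit 14242959524133701664)) (.cons (.rf (nat_lit 379) (nat_lit 14242959524133701664)) (.cons (.rf (nat_lit 408) (nat_lit 14242959524133701664)) (.cons (.rf (nat_lit 421) (nat_lit 14242959524133701664)) (.cons (.rf (nat_lit 421) (nat_lit 13126066816545818656)) .nil)))))),
 (.br (nat_lit 5) (nat_lit 1) (.cons (.rf (nat_lit 316) (nat_lit 14242959524133701664)) (.cons (.rf (nat_lit 379) (nat_lit 14242959524133701664)) (.cons (.rf (nat_lit 422) (nat_lit 14242959524133701664)) (.cons (.rf (nat_lit 422) (nat_lit 14241868808598947872)) (.cons (.rf (nat_lit 422) (nat_lit 11867381089438926880)) (.cons (.rf (nat_lit 422) (nat_lit 11866290373904173088)) .nil))))))),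
 (.br (nat_lit 7) (nat_lit 1) (.cons (.rf (nat_lit 316) (nat_lit 14242957258605560896)) (.cons (.rf (nat_lit 153) (nat_lit 249483830434)) (.cons (.rf (nat_lit 153) (nat_lit 249450308770)) (.cons (.br (nat_lit 7) (nat_lit 1) (.cons (.rf (nat_lit 316) (nat_lit 14242957258605560896)) (.cons (.rf (nat_lit 54) (nat_lit 12224500969)) (.cons (.rf (nat_lit 54) (nat_lit 11151807721)) .nil)))) .nil))))),
 (.br (nat_lit 7) (nat_lit 1) (.cons (.rf (nat_lit 316) (nat_lit 14242957258605560896)) (.cons (.rf (nat_lit 57) (nat_lit 365422435404929)) .nil))),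
 (.br (nat_lit 6) (nat_lit 1) (.cons (.rf (nat_lit 423) (nat_lit 14242959523093514272)) (.cons (.rf (nat_lit 423) (nat_lit 14242958457941624864)) (.cons (.rf (nat_lit 424) (nat_lit 14242959524133701664)) (.cons (.br (nat_lit 10) (nat_lit 1) (.cons (.rf (nat_lit 424) (nat_lit 9482518520427221088)) (.cons (.br (nat_lit 7) (nat_lit 1) (.cons (.rf (nat_lit 316) (nat_lit 14242957258605560896)) (.cons (.rf (nat_lit 425) (nat_lit 14242959524133701664)) (.cons (.rf (nat_lit 425) (nat_lit 13126066815505631264)) .nil)))) (.cons (.rf (nat_lit 423) (nat_lit 9482518519387033696)) (.cons (.rf (nat_lit 423) (nat_lit 9482517454235144288)) .nil))))) .nil))))),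
 (.br (nat_lit 7) (nat_lit 1) (.cons (.rf (nat_lit 316) (nat_lit 14242957258605560896)) (.cons (.br (nat_lit 10) (nat_lit 1) (.cons (.zr (nat_lit 8623620608) (nat_lit 310693935713298766914125827) (nat_lit 5) (nat_lit 0)) (.cons (.ev (nat_lit 79229371440083952222718656769) (nat_lit 1)) .nil))) .nil))),
 (.br (nat_lit 6) (nat_lit 1) (.cons (.rf (nat_lit 423) (nat_lit 14242959523093514272)) (.cons (.rf (nat_lit 423) (nat_lit 14242958457941624864)) (.cons (.rf (nat_lit 426) (nat_lit 14242959524133701664)) (.cons (.br (nat_lit 11) (nat_lit 1) (.cons (.ev (nat_lit 309489732188110517170077953) (nat_lit 1)) (.cons (.br (nat_lit 7) (nat_lit 1) (.cons (.rf (nat_lit 316) (nat_lit 14242957258605560896)) (.cons (.rf (nat_lit 427) (nat_lit 14242959524133701664)) (.cons (.br (nat_lit 7) (nat_lit 1) (.cons (.rf (nat_lit 316) (nat_lit 14242957258605560896)) (.cons (.rf (nat_lit 427) (nat_lit 14242959524133701664)) .nil))) .nil)))) (.cons (.rf (nat_lit 423) (nat_lit 9482518519387033696)) (.cons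 (.rf (nat_lit 316) (nat_lit 9482516254899080320)) .nil))))) .nil))))),
 (.br (nat_lit 6) (nat_lit 1) (.cons (.rf (nat_lit 423) (nat_lit 14242959523093514272)) (.cons (.rf (nat_lit 423) (nat_lit 14242958457941624864)) (.cons (.rf (nat_lit 426) (nat_lit 14242959524133701664)) (.cons (.rf (nat_lit 428) (nat_lit 14242959524133701664)) (.cons (.br (nat_lit 6) (nat_lit 1) (.cons (.rf (nat_lit 423) (nat_lit 14242959523093514272)) (.cons (.rf (nat_lit 423) (nat_lit 14242958457941624864)) (.cons (.rf (nat_lit 426) (nat_lit 14242959524133701664)) (.cons (.rf (nat_lit 428) (nat_lit 14242959524133701664)) .nil))))) .nil)))))),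
 (.br (nat_lit 9) (nat_lit 1) (.cons (.rf (nat_lit 429) (nat_lit 14242959524133701664)) (.cons (.rf (nat_lit 429) (nat_lit 14242958458981812256)) (.cons (.rf (nat_lit 316) (nat_lit 9482518520427221088)) (.cons (.rf (nat_lit 423) (nat_lit 9482518520427221088)) (.cons (.rf (nat_lit 423) (nat_lit 9482517455275331680)) .nil)))))),
 (.br (nat_lit 9) (nat_lit 1) (.cons (.rf (nat_lit 430) (nat_lit 14242959524133701664)) (.cons (.br (nat_lit 10) (nat_lit 1) (.cons (.rf (nat_lit 430) (nat_lit 14241868808598947872)) (.cons (.rf (nat_lit 430) (nat_lit 7106940085732446304)) (.cons (.rf (nat_lit 430) (nat_lit 7105849370197692512)) (.cons (.rf (nat_lit 423) (nat_lit 9482518519387033696)) (.cons (.rf (nat_lit 423) (nat_lit 9482517454235144288)) .nil)))))) (.cons (.rf (nat_lit 316) (nat_lit 9482518520427221088)) (.cons (.rf (nat_lit 423) (nat_lit 9482518520427221088)) (.cons (.rf (nat_lit 423) (nat_lit 9482517455275331680)) .nil)))))),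
 (.br (nat_lit 9) (nat_lit 1) (.cons (.rf (nat_lit 430) (nat_lit 14242959524133701664)) (.cons (.rf (nat_lit 431) (nat_lit 14242959524133701664)) (.cons (.rf (nat_lit 431) (nat_lit 14242958458981812256)) (.cons (.rf (nat_lit 316) (nat_lit 9482518520427221088)) (.cons (.rf (nat_lit 423) (nat_lit 9482518520427221088)) (.cons (.rf (nat_lit 423) (nat_lit 9482517455275331680)) .nil))))))),
 (.br (nat_lit 5) (nat_lit 1) (.cons (.rf (nat_lit 316) (nat_lit 14242959524133701664)) (.cons (.rf (nat_lit 423) (nat_lit 14242959524133701664)) (.cons (.rf (nat_lit 423) (nat_lit 14242958458981812256)) (.cons (.rf (nat_lit 432) (nat_lit 14242959524133701664)) (.cons (.rf (nat_lit 432) (nat_lit 13126066816545818656)) .nil))))))]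

theorem c11 : chkAll C T R L11 (nat_lit 401) = true := by decide +kernel

theorem l11 : (nat_lit 401) + L11.length = (nat_lit 434) := by decide +kernel

/-- part of the certificates -/
def L12 : List Prf := [(.br (nat_lit 5) (nat_lit 1) (.cons (.rf (nat_lit 316) (nat_lit 14242959524133701664)) (.cons (.rf (nat_lit 423) (nat_lit 14242959524133701664)) (.cons (.rf (nat_lit 423) (nat_lit 14242958458981812256)) (.cons (.rf (nat_lit 433) (nat_lit 14242959524133701664)) (.cons (.rf (nat_lit 433) (nat_lit 11867381089438926880)) .nil)))))),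
 (.br (nat_lit 5) (nat_lit 1) (.cons (.rf (nat_lit 316) (nat_lit 14242959524133701664)) (.cons (.rf (nat_lit 423) (nat_lit 14242959524133701664)) (.cons (.rf (nat_lit 423) (nat_lit 14242958458981812256)) (.cons (.rf (nat_lit 433) (nat_lit 14242959524133701664)) (.cons (.rf (nat_lit 434) (nat_lit 14242959524133701664)) (.cons (.rf (nat_lit 434) (nat_lit 13126066816545818656)) .nil))))))),
 (.br (nat_lit 3) (nat_lit 0) (.cons (.br (nat_lit 5) (nat_lit 1) (.cons (.rf (nat_lit 316) (nat_lit 14242959524133701664)) (.cons (.rf (nat_lit 423) (nat_lit 14242959524133701664)) (.cons (.rf (nat_lit 423) (nat_lit 14242958458981812256)) (.cons (.rf (nat_lit 435) (nat_lit 14242959524133701664)) (.cons (.rf (nat_lit 435) (nat_lit 14241868808598947872)) (.cons (.rf (nat_lit 435) (nat_lit 11867381089438926880)) (.cons (.rf (nat_lit 435) (nat_lit 11866290373904173088)) .nil)))))))) .nil)),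
 (.br (nat_lit 0) (nat_lit 0) (.cons (.br (nat_lit 0) (nat_lit 0) (.cons (.br (nat_lit 0) (nat_lit 0) (.cons (.br (nat_lit 0) (nat_lit 0) (.cons (.br (nat_lit 1) (nat_lit 1) (.cons (.br (nat_lit 1) (nat_lit 1) (.cons (.br (nat_lit 2) (nat_lit 1) (.cons (.br (nat_lit 2) (nat_lit 1) (.cons (.br (nat_lit 3) (nat_lit 1) (.cons (.br (nat_lit 3) (nat_lit 1) (.cons (.br (nat_lit 4) (nat_lit 1) (.cons (.br (nat_lit 4) (nat_lit 1) (.cons (.br (nat_lit 1) (nat_lit 0) (.cons (.rf (nat_lit 436) (nat_lit 14242959524133701664)) (.cons (.rf (nat_lit 436) (nat_lit 14240639623318539296)) (.cons (.rf (nat_lit 436) (nat_lit 11862741287808602144)) .nil)))) .nil)) .nil)) .nil)) .nil)) .nil)) .nil)) .nil)) .nil)) .nil)) .nil)) .nil)) .nil))]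

theorem c12 : chkAll C T R L12 (nat_lit 434) = true := by decide +kernel

theorem l12 : (nat_lit 434) + L12.length = (nat_lit 438) := by decide +kernel

end Pool.Agent.H93.Neg.Q13_0_8_1_4_0
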