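import Pool.Agent.H93.Neg.TabQ13_2_4_2_5_0

/-!
Certificates.
-/

set_option autoImplicit false
set_option maxRecDepth 100000
set_option linter.all false

namespace Pool.Agent.H93.Neg.Q13_2_4_2_5_0

/-- part of the certificates -/
def L0 : List Prf := [(.br (nat_lit 7) (nat_lit 1) (.cons (.kr (nat_lit 72057594054705152) (nat_lit 1103806595072) (nat_lit 3) (nat_lit 0)) .nil)),
 (.br (nat_lit 7) (nat_lit 1) (.cons (.rf (nat_lit 0) (nat_lit 325702574508064)) (.cons (.rf (nat_lit 0) (nat_lit 291617714047008)) .nil))),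
 (.br (nat_lit 2) (nat_lit 0) (.cons (.br (nat_lit 4) (nat_lit 1) (.cons (.kr (nat_lit 65536) (nat_lit 16777216) (nat_lit 2) (nat_lit 0)) (.cons (.br (nat_lit 3) (nat_lit 0) (.cons (.br (nat_lit 5) (nat_lit 1) (.cons (.br (nat_lit 5) (nat_lit 1) (.cons (.br (nat_lit 5) (nat_lit 1) (.cons (.br (nat_lit 6) (nat_lit 1) (.cons (.rf (nat_lit 1) (nat_lit 325702573428768)) (.cons (.rf (nat_lit 1) (nat_lit 324637421539360)) (.cons (.rf (nat_lit 1) (nat_lit 289487409188896)) .nil)))) .nil)) .nil)) .nil)) .nil)) .nil))) .nil)),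
 (.br (nat_lit 8) (nat_lit 0) (.cons (.kr (nat_lit 18518801667764256768) (nat_lit 282578783305728) (nat_lit 3) (nat_lit 0)) .nil)),
 (.br (nat_lit 7) (nat_lit 0) (.cons (.rf (nat_lit 3) (nat_lit 11584701642934304)) (.cons (.rf (nat_lit 3) (nat_lit 10493986108180512)) .nil))),
 (.br (nat_lit 6) (nat_lit 1) (.cons (.br (nat_lit 7) (nat_lit 1) (.cons (.br (nat_lit 2) (nat_lit 1) (.cons (.rf (nat_lit 4) (nat_lit 11584701642934304)) (.cons (.rf (nat_lit 4) (nat_lit 11584668356937760)) (.cons (.rf (nat_lit 4) (nat_lit 11583569919051808)) .nil)))) .nil)) .nil)),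
 (.br (nat_lit 1) (nat_lit 0) (.cons (.br (nat_lit 3) (nat_lit 1) (.cons (.rf (nat_lit 2) (nat_lit 66656)) (.cons (.br (nat_lit 4) (nat_lit 1) (.cons (.br (nat_lit 4) (nat_lit 1) (.cons (.br (nat_lit 4) (nat_lit 1) (.cons (.br (nat_lit 1) (nat_lit 0) (.cons (.br (nat_lit 2) (nat_lit 0) (.cons (.rf (nat_lit 2) (nat_lit 66816)) (.cons (.br (nat_lit 2) (nat_lit 0) (.cons (.rf (nat_lit 2) (nat_lit 66816)) (.cons (.br (nat_lit 5) (nat_lit 1) (.cons (.rf (nat_lit 5) (nat_lit 11583566662115424)) (.cons (.rf (nat_lit 5) (nat_lit 11582501510226016)) .nil))) .nil))) .nil))) .nil)) .nil)) .nil)) .nil)) .nil))) .nil)),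
 (.br (nat_lit 2) (nat_lit 1) (.cons (.br (nat_lit 3) (nat_lit 1) (.cons (.br (nat_lit 4) (nat_lit 1) (.cons (.br (nat_lit 4) (nat_lit 1) .nil) .nil)) .nil)) .nil)),
 (.br (nat_lit 2) (nat_lit 1) (.cons (.br (nat_lit 3) (nat_lit 1) (.cons (.br (nat_lit 4) (nat_lit 1) (.cons (.br (nat_lit 5) (nat_lit 1) .nil) .nil)) (.cons (.br (nat_lit 4) (nat_lit 1) (.cons (.br (nat_lit 4) (nat_lit 1) .nil) .nil)) .nil))) .nil)),
 (.br (nat_lit 8) (nat_lit 0) (.cons (.kr (nat_lit 72339069031415808) (nat_lit 18446745177516146688) (nat_lit 3) (nat_lit 0)) .nil)),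
 (.br (nat_lit 5) (nat_lit 0) (.cons (.br (nat_lit 6) (nat_lit 0) (.cons (.kr (nat_lit 281474993487872) (nat_lit 1103806595072) (nat_lit 3) (nat_lit 0)) (.cons (.br (nat_lit 7) (nat_lit 0) (.cons (.rf (nat_lit 9) (nat_lit 11584701642934304)) (.cons (.rf (nat_lit 9) (nat_lit 10493985066977312)) .nil))) .nil))) .nil)),
 (.br (nat_lit 6) (nat_lit 0) (.cons (.kr (nat_lit 281474993487872) (nat_lit 1103806595072) (nat_lit 3) (nat_lit 0)) (.cons (.br (nat_lit 7) (nat_lit 0) (.cons (.br (nat_lit 8) (nat_lit 0) (.cons (.kr (nat_lit 72339069031415808) (nat_lit 18446745177516146688) (nat_lit 3) (nat_lit 0)) .nil)) (.cons (.br (nat_lit 8) (nat_lit 0) (.cons (.kr (nat_lit 18447025548703039488) (nat_lit 72058697844523008) (nat_lit 3) (nat_lit 0)) .nil)) .nil))) .nil))),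
 (.br (nat_lit 7) (nat_lit 0) (.cons (.br (nat_lit 8) (nat_lit 0) (.cons (.kr (nat_lit 72057594037927936) (nat_lit 18446744073709551616) (nat_lit 7) (nat_lit 0)) .nil)) .nil)),
 (.br (nat_lit 1) (nat_lit 0) (.cons (.kr (nat_lit 1) (nat_lit 256) (nat_lit 0) (nat_lit 2)) (.cons (.br (nat_lit 3) (nat_lit 0) (.cons (.ev (nat_lit 309485009821346168253186049) (nat_lit 1)) (.cons (.br (nat_lit 11) (nat_lit 0) (.cons (.ev (nat_lit 309485009821346168253186304) (nat_lit 1)) .nil)) .nil))) (.cons (.br (nat_lit 3) (nat_lit 0) (.cons (.br (nat_lit 11) (nat_lit 0) (.cons (.ev (nat_lit 79228162514336677766381961473) (nat_lit 1)) .nil)) (.cons (.ev (nat_lit 79228162514336677766381961216) (nat_lit 1)) .nil))) .nil)))),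
 (.br (nat_lit 3) (nat_lit 0) (.cons (.br (nat_lit 8) (nat_lit 0) (.cons (.ev (nat_lit 18446745173237956864) (nat_lit 1)) .nil)) (.cons (.ev (nat_lit 18446745173237956609) (nat_lit 1)) (.cons (.br (nat_lit 4) (nat_lit 0) (.cons (.ev (nat_lit 18446745173237956864) (nat_lit 1)) .nil)) .nil)))),
 (.br (nat_lit 1) (nat_lit 0) (.cons (.br (nat_lit 1) (nat_lit 0) (.cons (.kr (nat_lit 1) (nat_lit 256) (nat_lit 0) (nat_lit 2)) (.cons (.kr (nat_lit 1208925891953698189344770) (nat_lit 4740813228042866393600) (nat_lit 0) (nat_lit 2)) (.cons (.kr (nat_lit 1208925819614629174706177) (nat_lit 4722366482869645213952) (nat_lit 0) (nat_lit 2)) .nil)))) (.cons (.rf (nat_lit 13) (nat_lit 14242959524133701664)) (.cons (.br (nat_lit 1) (nat_lit 0) (.cons (.kr (nat_lit 1208925891953698189344770) (nat_lit 4740813228042866393600) (nat_lit 0) (nat_lit 2)) (.cons (.rf (nat_lit 13) (nat_lit 14242959524133701664)) (.cons (.rf (nat_lit 14) (nat_lit 434554225657888)) .nil)))) (.cons (.br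 (nat_lit 1) (nat_lit 0) (.cons (.kr (nat_lit 1208925819614629174706177) (nat_lit 4722366482869645213952) (nat_lit 0) (nat_lit 2)) (.cons (.rf (nat_lit 13) (nat_lit 14242959524133701664)) (.cons (.rf (nat_lit 14) (nat_lit 434554225657888)) .nil)))) .nil))))),
 (.br (nat_lit 1) (nat_lit 0) (.cons (.rf (nat_lit 15) (nat_lit 14242959524133669920)) (.cons (.br (nat_lit 1) (nat_lit 0) (.cons (.rf (nat_lit 14) (nat_lit 434554225626144)) .nil)) .nil))),
 (.br (nat_lit 1) (nat_lit 0) (.cons (.rf (nat_lit 15) (nat_lit 14242959524133669920)) (.cons (.rf (nat_lit 16) (nat_lit 14242959524133701664)) (.cons (.br (nat_lit 1) (nat_lit 0) (.cons (.rf (nat_lit 15) (nat_lit 14242959524133669920)) (.cons (.rf (nat_lit 16) (nat_lit 14242959524133701664)) .nil))) .nil)))),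
 (.br (nat_lit 1) (nat_lit 0) (.cons (.rf (nat_lit 13) (nat_lit 14242959524133669920)) (.cons (.ev (nat_lit 310698676526525710268956673) (nat_lit 1)) (.cons (.br (nat_lit 1) (nat_lit 0) (.cons (.rf (nat_lit 13) (nat_lit 14242959524133669920)) (.cons (.ev (nat_lit 310698676526525710268956673) (nat_lit 1)) .nil))) .nil)))),
 (.br (nat_lit 1) (nat_lit 0) (.cons (.rf (nat_lit 15) (nat_lit 14242959524133669920)) (.cons (.rf (nat_lit 18) (nat_lit 14242959524133701664)) (.cons (.ev (nat_lit 310698676526525710268956673) (nat_lit 1)) (.cons (.br (nat_lit 1) (nat_lit 0) (.cons (.rf (nat_lit 15) (nat_lit 14242959524133669920)) (.cons (.rf (nat_lit 18) (nat_lit 14242959524133701664)) (.cons (.ev (nat_lit 310698676526525710268956673) (nat_lit 1)) .nil)))) .nil))))),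
 (.br (nat_lit 1) (nat_lit 0) (.cons (.br (nat_lit 1) (nat_lit 0) (.cons (.br (nat_lit 1) (nat_lit 0) .nil) .nil)) .nil)),
 (.br (nat_lit 10) (nat_lit 0) (.cons (.br (nat_lit 2) (nat_lit 0) (.cons (.rf (nat_lit 15) (nat_lit 14242959524133701664)) (.cons (.kr (nat_lit 65536) (nat_lit 16777216) (nat_lit 2) (nat_lit 0)) (.cons (.rf (nat_lit 17) (nat_lit 14242959524133701664)) (.cons (.rf (nat_lit 19) (nat_lit 14242959524133701664)) (.cons (.br (nat_lit 3) (nat_lit 0) (.cons (.rf (nat_lit 15) (nat_lit 14242959524133669920)) (.cons (.rf (nat_lit 17) (nat_lit 14242959524133669920)) (.cons (.rf (nat_lit 19) (nat_lit 14242959524133669920)) (.cons (.rf (nat_lit 20) (nat_lit 12683296)) .nil))))) .nil)))))) .nil)),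
 (.br (nat_lit 5) (nat_lit 0) .nil),
 (.br (nat_lit 1) (nat_lit 0) (.cons (.ev (nat_lit 4740813509522154913793) (nat_lit 1)) (.cons (.br (nat_lit 3) (nat_lit 0) (.cons (.rf (nat_lit 22) (nat_lit 12218107936)) (.cons (.br (nat_lit 11) (nat_lit 0) (.cons (.ev (nat_lit 79538856449905578766436991233) (nat_lit 1)) .nil)) .nil))) (.cons (.br (nat_lit 3) (nat_lit 0) (.cons (.br (nat_lit 11) (nat_lit 0) (.cons (.ev (nat_lit 79538856449905578766436991233) (nat_lit 1)) .nil)) (.cons (.rf (nat_lit 22) (nat_lit 13258295328)) .nil))) .nil)))),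
 (.br (nat_lit 1) (nat_lit 0) (.cons (.kr (nat_lit 4722438821938659852290) (nat_lit 1208944266359802395886080) (nat_lit 0) (nat_lit 2)) (.cons (.rf (nat_lit 23) (nat_lit 14242959524133701664)) (.cons (.br (nat_lit 3) (nat_lit 0) (.cons (.ev (nat_lit 4722438540467994951936) (nat_lit 1)) (.cons (.br (nat_lit 4) (nat_lit 0) (.cons (.ev (nat_lit 4722438540467994951681) (nat_lit 1)) .nil)) (.cons (.br (nat_lit 4) (nat_lit 0) (.cons (.ev (nat_lit 4722438540467994951681) (nat_lit 1)) .nil)) .nil)))) .nil)))),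
 (.br (nat_lit 1) (nat_lit 0) (.cons (.br (nat_lit 1) (nat_lit 0) (.cons (.ev (nat_lit 4740813509522154913793) (nat_lit 1)) (.cons (.kr (nat_lit 4722438821938659852290) (nat_lit 1208944266359802395886080) (nat_lit 0) (nat_lit 2)) (.cons (.kr (nat_lit 1208925891953698189344770) (nat_lit 4740813228042866393600) (nat_lit 0) (nat_lit 2)) .nil)))) (.cons (.rf (nat_lit 23) (nat_lit 14242959524133701664)) (.cons (.rf (nat_lit 24) (nat_lit 14242959524133701664)) (.cons (.br (nat_lit 1) (nat_lit 0) (.cons (.kr (nat_lit 1208925891953698189344770) (nat_lit 4740813228042866393600) (nat_lit 0) (nat_lit 2)) (.cons (.rf (nat_lit 23) (nat_lit 14242959524133701664)) (.cons (.rf (nat_lit 24) (nat_lit 14242959524133701664)) .nil)))) .nil))))),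
 (.br (nat_lit 1) (nat_lit 0) (.cons (.rf (nat_lit 25) (nat_lit 14242959524133669920)) (.cons (.br (nat_lit 1) (nat_lit 0) (.cons (.ev (nat_lit 4722438540467994951936) (nat_lit 1)) .nil)) .nil))),
 (.br (nat_lit 1) (nat_lit 0) (.cons (.rf (nat_lit 25) (nat_lit 14242959524133669920)) (.cons (.rf (nat_lit 26) (nat_lit 14242959524133701664)) (.cons (.br (nat_lit 1) (nat_lit 0) (.cons (.rf (nat_lit 25) (nat_lit 14242959524133669920)) (.cons (.rf (nat_lit 26) (nat_lit 14242959524133701664)) .nil))) .nil)))),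
 (.br (nat_lit 3) (nat_lit 0) (.cons (.rf (nat_lit 25) (nat_lit 14242959524133669920)) (.cons (.rf (nat_lit 27) (nat_lit 14242959524133669920)) (.cons (.rf (nat_lit 20) (nat_lit 11634720)) (.cons (.br (nat_lit 4) (nat_lit 0) (.cons (.ev (nat_lit 4722438540467994951681) (nat_lit 1)) (.cons (.rf (nat_lit 20) (nat_lit 11667488)) (.cons (.rf (nat_lit 20) (nat_lit 12717088)) .nil)))) .nil))))),
 (.br (nat_lit 10) (nat_lit 0) (.cons (.br (nat_lit 2) (nat_lit 0) (.cons (.rf (nat_lit 25) (nat_lit 14242959524133701664)) (.cons (.kr (nat_lit 65536) (nat_lit 16777216) (nat_lit 2) (nat_lit 0)) (.cons (.rf (nat_lit 27) (nat_lit 14242959524133701664)) (.cons (.rf (nat_lit 28) (nat_lit 14242959524133701664)) (.cons (.br (nat_lit 3) (nat_lit 0) (.cons (.rf (nat_lit 25) (nat_lit 14242959524133669920)) (.cons (.rf (nat_lit 27) (nat_lit 14242959524133669920)) (.cons (.rf (nat_lit 28) (nat_lit 14242959524133669920)) (.cons (.rf (nat_lit 20) (nat_lit 12683296)) .nil))))) .nil))))))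 .nil)),
 (.br (nat_lit 8) (nat_lit 0) (.cons (.kr (nat_lit 18447025548703039488) (nat_lit 72058697844523008) (nat_lit 3) (nat_lit 0)) .nil)),
 (.br (nat_lit 2) (nat_lit 1) (.cons (.rf (nat_lit 30) (nat_lit 11584701642934304)) (.cons (.rf (nat_lit 30) (nat_lit 11583636491044896)) .nil))),
 (.br (nat_lit 6) (nat_lit 0) (.cons (.rf (nat_lit 10) (nat_lit 11313185198178)) (.cons (.br (nat_lit 7) (nat_lit 0) (.cons (.rf (nat_lit 11) (nat_lit 398341278175330)) (.cons (.br (nat_lit 8) (nat_lit 0) (.cons (.rf (nat_lit 12) (nat_lit 398341278175330)) (.cons (.br (nat_lit 4) (nat_lit 1) (.cons (.rf (nat_lit 21) (nat_lit 14242959524133701664)) (.cons (.rf (nat_lit 21) (nat_lit 14241868808598947872)) .nil))) .nil))) (.cons (.br (nat_lit 8) (nat_lit 0) (.cons (.br (nat_lit 9) (nat_lit 0) (.cons (.rf (nat_lit 29) (nat_lit 14242959524133701664)) (.cons (.br (nat_lit 10) (nat_lit 0) (.cons (.rf (nat_lit 29) (nat_lit 14241868808598947872)) .nil)) .nil))) (.cons (.rf (nat_lit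 11) (nat_lit 152049632357474)) (.cons (.rf (nat_lit 31) (nat_lit 13909140160286818)) .nil)))) .nil)))) .nil))),
 (.br (nat_lit 4) (nat_lit 0) (.cons (.br (nat_lit 1) (nat_lit 0) (.cons (.rf (nat_lit 22) (nat_lit 12218107936)) (.cons (.br (nat_lit 11) (nat_lit 0) (.cons (.ev (nat_lit 79538856449905578766436990976) (nat_lit 1)) .nil)) .nil))) (.cons (.rf (nat_lit 20) (nat_lit 11668512)) (.cons (.br (nat_lit 11) (nat_lit 0) (.cons (.br (nat_lit 1) (nat_lit 0) (.cons (.ev (nat_lit 18518801672059289856) (nat_lit 1)) .nil)) (.cons (.zr (nat_lit 79540065375724911924913111040) (nat_lit 4759259971017081094144) (nat_lit 5) (nat_lit 12)) .nil))) .nil)))),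
 (.br (nat_lit 1) (nat_lit 0) (.cons (.br (nat_lit 9) (nat_lit 0) (.cons (.ev (nat_lit 1213648186380073308258561) (nat_lit 1)) .nil)) .nil)),
 (.br (nat_lit 1) (nat_lit 0) (.cons (.rf (nat_lit 34) (nat_lit 11584701642934304)) (.cons (.rf (nat_lit 34) (nat_lit 10492920956291104)) .nil))),
 (.br (nat_lit 1) (nat_lit 0) (.cons (.rf (nat_lit 35) (nat_lit 11584701642934304)) (.cons (.br (nat_lit 1) (nat_lit 0) (.cons (.rf (nat_lit 35) (nat_lit 11584701642934304)) .nil)) .nil))),
 (.br (nat_lit 1) (nat_lit 0) (.cons (.ev (nat_lit 1208944266641281667563776) (nat_lit 1)) (.cons (.br (nat_lit 4) (nat_lit 0) (.cons (.ev (nat_lit 79537647542532708210954993664) (nat_lit 1)) .nil)) .nil))),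
 (.br (nat_lit 1) (nat_lit 0) (.cons (.ev (nat_lit 4722438540467978109184) (nat_lit 1)) (.cons (.br (nat_lit 3) (nat_lit 0) (.cons (.ev (nat_lit 1232593497514296563860998) (nat_lit 3)) .nil)) .nil))),
 (.br (nat_lit 1) (nat_lit 0) (.cons (.br (nat_lit 1) (nat_lit 0) .nil) .nil)),
 (.br (nat_lit 11) (nat_lit 0) (.cons (.br (nat_lit 1) (nat_lit 0) (.cons (.rf (nat_lit 37) (nat_lit 14242959524133701664)) (.cons (.rf (nat_lit 38) (nat_lit 14242959524133701664)) (.cons (.br (nat_lit 1) (nat_lit 0) (.cons (.rf (nat_lit 37) (nat_lit 14242959524133701664)) (.cons (.rf (nat_lit 38) (nat_lit 14242959524133701664)) .nil))) .nil)))) (.cons (.rf (nat_lit 20) (nat_lit 11634720)) (.cons (.rf (nat_lit 20) (nat_lit 11667488)) (.cons (.br (nat_lit 4) (nat_lit 0) (.cons (.br (nat_lit 3) (nat_lit 0) (.cons (.br (nat_lit 1) (nat_lit 0) (.cons (.ev (nat_lit 4740813509522138071296) (nat_lit 1)) .nil)) (.cons (.ev (nat_lit 79537657005928593017993887745) (nat_lit 2)) .nil))) (.cons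 (.rf (nat_lit 39) (nat_lit 13258295328)) (.cons (.ev (nat_lit 79537647524157741355818287104) (nat_lit 1)) .nil)))) .nil))))),
 (.br (nat_lit 10) (nat_lit 0) (.cons (.br (nat_lit 2) (nat_lit 0) (.cons (.br (nat_lit 3) (nat_lit 0) (.cons (.br (nat_lit 1) (nat_lit 0) (.cons (.kr (nat_lit 1) (nat_lit 256) (nat_lit 0) (nat_lit 2)) (.cons (.kr (nat_lit 4722438821938659852290) (nat_lit 1208944266359802395886080) (nat_lit 0) (nat_lit 2)) (.cons (.kr (nat_lit 1208925891953698189344770) (nat_lit 4740813228042866393600) (nat_lit 0) (nat_lit 2)) .nil)))) (.cons (.ev (nat_lit 18518801672059289601) (nat_lit 1)) (.cons (.rf (nat_lit 33) (nat_lit 14242959524133701664)) (.cons (.rf (nat_lit 33) (nat_lit 13124976101011064864)) .nil))))) (.cons (.kr (nat_lit 1213648186098598331678720) (nat_lit 18519083142757744640) (nat_lit 2) (nat_lit 0)) (.cons (.br (nat_lit 1) (nat_lit 0) (.cons (.rf (nat_lit 35) (nat_lit 13909140124567584)) (.cons (.rf (nat_lit 36) (nat_lit 13909140124567584))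 (.cons (.rf (nat_lit 36) (nat_lit 12817359437924384)) .nil)))) (.cons (.rf (nat_lit 40) (nat_lit 14242959524133701664)) (.cons (.rf (nat_lit 40) (nat_lit 13124976101011064864)) .nil)))))) .nil)),
 (.br (nat_lit 8) (nat_lit 0) (.cons (.kr (nat_lit 18447025548703039488) (nat_lit 72058697844523008) (nat_lit 3) (nat_lit 0)) .nil)),
 (.br (nat_lit 6) (nat_lit 0) (.cons (.rf (nat_lit 42) (nat_lit 11584701642934304)) (.cons (.rf (nat_lit 42) (nat_lit 10493986108180512)) .nil))),
 (.br (nat_lit 4) (nat_lit 1) (.cons (.br (nat_lit 9) (nat_lit 0) (.cons (.rf (nat_lit 41) (nat_lit 14242959524133701664)) (.cons (.rf (nat_lit 41) (nat_lit 13126066816545818656)) .nil))) (.cons (.rf (nat_lit 43) (nat_lit 13909140160286818)) (.cons (.rf (nat_lit 43) (nat_lit 13908075008397410)) .nil)))),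
 (.br (nat_lit 1) (nat_lit 0) (.cons (.kr (nat_lit 1) (nat_lit 256) (nat_lit 0) (nat_lit 2)) (.cons (.br (nat_lit 4) (nat_lit 0) (.cons (.rf (nat_lit 22) (nat_lit 12217092128)) (.cons (.br (nat_lit 11) (nat_lit 0) (.cons (.ev (nat_lit 79537652246452447011185688833) (nat_lit 1)) .nil)) .nil))) (.cons (.kr (nat_lit 1208925819614629174706177) (nat_lit 4722366482869645213952) (nat_lit 0) (nat_lit 2)) .nil)))),
 (.br (nat_lit 3) (nat_lit 0) (.cons (.br (nat_lit 11) (nat_lit 0) (.cons (.ev (nat_lit 79228162514336677766381961216) (nat_lit 1)) .nil)) (.cons (.ev (nat_lit 79228162514336677766381961473) (nat_lit 1)) .nil))),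
 (.br (nat_lit 1) (nat_lit 0) (.cons (.rf (nat_lit 45) (nat_lit 14242959524133701664)) (.cons (.br (nat_lit 1) (nat_lit 0) (.cons (.kr (nat_lit 1) (nat_lit 256) (nat_lit 0) (nat_lit 2)) (.cons (.kr (nat_lit 4722438821938659852290) (nat_lit 1208944266359802395886080) (nat_lit 0) (nat_lit 2)) (.cons (.rf (nat_lit 46) (nat_lit 14242959524133701664)) .nil)))) (.cons (.br (nat_lit 1) (nat_lit 0) (.cons (.rf (nat_lit 45) (nat_lit 14242959524133701664)) (.cons (.kr (nat_lit 4722438821938659852290) (nat_lit 1208944266359802395886080) (nat_lit 0) (nat_lit 2)) (.cons (.kr (nat_lit 1208925891953698189344770) (nat_lit 4740813228042866393600) (nat_lit 0) (nat_lit 2)) .nil)))) (.cons (.br (nat_lit 1) (nat_lit 0) (.cons (.kr (nat_lit 1208925819614629174706177) (nat_lit 4722366482869645213952) (nat_lit 0) (nat_lit 2)) (.cons (.rf (nat_lit 46) (nat_lit 14242959524133701664)) (.cons (.kr (nat_lit 1208925891953698189344770) (nat_lit 4740813228042866393600) (nat_lit 0) (nat_lit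 2)) .nil)))) .nil)))))]

theorem c0 : chkAll C T R L0 (nat_lit 0) = true := by decide +kernel

theorem l0 : (nat_lit 0) + L0.length = (nat_lit 48) := by decide +kernel

/-- part of the certificates -/
def L1 : List Prf := [(.br (nat_lit 2) (nat_lit 0) (.cons (.br (nat_lit 11) (nat_lit 0) (.cons (.ev (nat_lit 79537652246452447011185688833) (nat_lit 1)) .nil)) (.cons (.rf (nat_lit 22) (nat_lit 13258263584)) .nil))),
 (.br (nat_lit 1) (nat_lit 0) (.cons (.kr (nat_lit 1) (nat_lit 256) (nat_lit 0) (nat_lit 2)) (.cons (.rf (nat_lit 48) (nat_lit 13122689219904505888)) (.cons (.rf (nat_lit 48) (nat_lit 14242959524133701664)) .nil)))),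
 (.br (nat_lit 1) (nat_lit 0) (.cons (.rf (nat_lit 45) (nat_lit 14242959524133701664)) (.cons (.rf (nat_lit 49) (nat_lit 14242959524133701664)) (.cons (.br (nat_lit 1) (nat_lit 0) (.cons (.rf (nat_lit 45) (nat_lit 14242959524133701664)) (.cons (.ev (nat_lit 4722438540463699919104) (nat_lit 1)) (.cons (.ev (nat_lit 4740813509517859881216) (nat_lit 1)) .nil)))) (.cons (.br (nat_lit 1) (nat_lit 0) (.cons (.kr (nat_lit 1208925819614629174706177) (nat_lit 4722366482869645213952) (nat_lit 0) (nat_lit 2)) (.cons (.rf (nat_lit 49) (nat_lit 14242959524133701664)) (.cons (.ev (nat_lit 4740813509517859881216) (nat_lit 1)) .nil)))) .nil))))),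
 (.br (nat_lit 1) (nat_lit 0) (.cons (.rf (nat_lit 47) (nat_lit 14242959524133701664)) (.cons (.rf (nat_lit 49) (nat_lit 14242959524133701664)) (.cons (.br (nat_lit 1) (nat_lit 0) (.cons (.kr (nat_lit 4722438821938659852290) (nat_lit 1208944266359802395886080) (nat_lit 0) (nat_lit 2)) (.cons (.ev (nat_lit 4722438540463699919104) (nat_lit 1)) (.cons (.rf (nat_lit 14) (nat_lit 434554224578592)) .nil)))) (.cons (.br (nat_lit 1) (nat_lit 0) (.cons (.rf (nat_lit 46) (nat_lit 14242959524133701664)) (.cons (.rf (nat_lit 49) (nat_lit 14242959524133701664)) (.cons (.rf (nat_lit 14) (nat_lit 434554224578592)) .nil)))) .nil))))),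
 (.br (nat_lit 1) (nat_lit 0) (.cons (.rf (nat_lit 47) (nat_lit 14242959524133701664)) (.cons (.rf (nat_lit 50) (nat_lit 14242959524133701664)) (.cons (.rf (nat_lit 51) (nat_lit 14242959524133701664)) (.cons (.br (nat_lit 1) (nat_lit 0) (.cons (.kr (nat_lit 1208925891953698189344770) (nat_lit 4740813228042866393600) (nat_lit 0) (nat_lit 2)) (.cons (.ev (nat_lit 4740813509517859881216) (nat_lit 1)) (.cons (.rf (nat_lit 14) (nat_lit 434554224578592)) .nil)))) .nil))))),
 (.br (nat_lit 10) (nat_lit 0) (.cons (.br (nat_lit 1) (nat_lit 0) (.cons (.rf (nat_lit 47) (nat_lit 14242959524133701664)) (.cons (.rf (nat_lit 50) (nat_lit 14242959524133701664)) (.cons (.rf (nat_lit 51) (nat_lit 14242959524133701664)) (.cons (.rf (nat_lit 52) (nat_lit 14242959524133701664)) (.cons (.br (nat_lit 1) (nat_lit 0) (.cons (.rf (nat_lit 47) (nat_lit 14242959524133701664)) (.cons (.rf (nat_lit 50) (nat_lit 14242959524133701664)) (.cons (.rf (nat_lit 51) (nat_lit 14242959524133701664))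 (.cons (.rf (nat_lit 52) (nat_lit 14242959524133701664)) .nil))))) .nil)))))) .nil)),
 (.br (nat_lit 7) (nat_lit 0) (.cons (.rf (nat_lit 53) (nat_lit 14242959524133701664)) (.cons (.rf (nat_lit 53) (nat_lit 13126066816545818656)) .nil))),
 (.br (nat_lit 4) (nat_lit 1) (.cons (.rf (nat_lit 44) (nat_lit 14242959524132685856)) (.cons (.rf (nat_lit 54) (nat_lit 14242959524133701664)) (.cons (.rf (nat_lit 54) (nat_lit 14241868808598947872)) .nil)))),
 (.br (nat_lit 1) (nat_lit 0) (.cons (.kr (nat_lit 1) (nat_lit 256) (nat_lit 0) (nat_lit 2)) (.cons (.kr (nat_lit 4722438821938659852290) (nat_lit 1208944266359802395886080) (nat_lit 0) (nat_lit 2)) (.cons (.br (nat_lit 4) (nat_lit 0) (.cons (.br (nat_lit 11) (nat_lit 0) (.cons (.ev (nat_lit 79229376180897179170385166336) (nat_lit 1)) .nil)) (.cons (.ev (nat_lit 79228162514336677766381961473) (nat_lit 1)) .nil))) .nil)))),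
 (.br (nat_lit 1) (nat_lit 0) (.cons (.rf (nat_lit 56) (nat_lit 14242959524133701664)) (.cons (.rf (nat_lit 56) (nat_lit 14241868808597932064)) (.cons (.br (nat_lit 1) (nat_lit 0) (.cons (.kr (nat_lit 4722438821938659852290) (nat_lit 1208944266359802395886080) (nat_lit 0) (nat_lit 2)) (.cons (.kr (nat_lit 1208925891953698189344770) (nat_lit 4740813228042866393600) (nat_lit 0) (nat_lit 2)) (.cons (.rf (nat_lit 44) (nat_lit 4731356044942772225)) .nil)))) (.cons (.br (nat_lit 1) (nat_lit 0) (.cons (.rf (nat_lit 56) (nat_lit 14242959524133701664)) (.cons (.rf (nat_lit 56) (nat_lit 14241868808597932064)) (.cons (.rf (nat_lit 44) (nat_lit 4731356044942772225)) .nil)))) .nil))))),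
 (.br (nat_lit 1) (nat_lit 0) (.cons (.kr (nat_lit 1) (nat_lit 256) (nat_lit 0) (nat_lit 2)) (.cons (.ev (nat_lit 72058697861300481) (nat_lit 1)) (.cons (.br (nat_lit 2) (nat_lit 0) (.cons (.br (nat_lit 11) (nat_lit 0) (.cons (.ev (nat_lit 79537647524085965236757135616) (nat_lit 1)) .nil)) (.cons (.rf (nat_lit 22) (nat_lit 13258263584)) .nil))) .nil)))),
 (.br (nat_lit 1) (nat_lit 0) (.cons (.kr (nat_lit 4722438821938659852290) (nat_lit 1208944266359802395886080) (nat_lit 0) (nat_lit 2)) (.cons (.ev (nat_lit 72058697861300481) (nat_lit 1)) (.cons (.rf (nat_lit 14) (nat_lit 434554225626144)) .nil)))),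
 (.br (nat_lit 1) (nat_lit 0) (.cons (.rf (nat_lit 57) (nat_lit 14242959524133701664)) (.cons (.rf (nat_lit 58) (nat_lit 14242959524133701664)) (.cons (.rf (nat_lit 59) (nat_lit 14242959524133701664)) (.cons (.br (nat_lit 1) (nat_lit 0) (.cons (.rf (nat_lit 57) (nat_lit 14242959524133701664)) (.cons (.rf (nat_lit 58) (nat_lit 14242959524133701664)) (.cons (.rf (nat_lit 14) (nat_lit 434554225626144)) .nil)))) .nil))))),
 (.br (nat_lit 1) (nat_lit 0) (.cons (.rf (nat_lit 57) (nat_lit 14242959524133701664)) (.cons (.rf (nat_lit 60) (nat_lit 14242959524133701664)) (.cons (.rf (nat_lit 60) (nat_lit 14241868808597932064)) (.cons (.br (nat_lit 1) (nat_lit 0) (.cons (.rf (nat_lit 44) (nat_lit 4731356044942772225)) (.cons (.rf (nat_lit 14) (nat_lit 434554225626144)) (.cons (.rf (nat_lit 14) (nat_lit 434554224578592)) .nil)))) .nil))))),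
 (.br (nat_lit 8) (nat_lit 0) (.cons (.br (nat_lit 1) (nat_lit 0) (.cons (.rf (nat_lit 57) (nat_lit 14242959524133701664)) (.cons (.rf (nat_lit 60) (nat_lit 14242959524133701664)) (.cons (.rf (nat_lit 60) (nat_lit 14241868808597932064)) (.cons (.rf (nat_lit 61) (nat_lit 14242959524133701664)) (.cons (.br (nat_lit 1) (nat_lit 0) (.cons (.rf (nat_lit 57) (nat_lit 14242959524133701664)) (.cons (.rf (nat_lit 60) (nat_lit 14242959524133701664)) (.cons (.rf (nat_lit 60) (nat_lit 14241868808597932064)) (.cons (.rf (nat_lit 61) (nat_lit 14242959524133701664)) .nil))))) .nil)))))) .nil)),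
 (.br (nat_lit 4) (nat_lit 1) (.cons (.rf (nat_lit 43) (nat_lit 13909140160285826)) (.cons (.rf (nat_lit 55) (nat_lit 14242959524132685856)) (.cons (.br (nat_lit 7) (nat_lit 0) (.cons (.rf (nat_lit 62) (nat_lit 14242959524133701664)) (.cons (.rf (nat_lit 62) (nat_lit 13126066816545818656)) .nil))) .nil)))),
 (.br (nat_lit 6) (nat_lit 0) (.cons (.rf (nat_lit 32) (nat_lit 11584701642934304)) (.cons (.rf (nat_lit 32) (nat_lit 11584701641918496)) (.cons (.br (nat_lit 6) (nat_lit 0) (.cons (.rf (nat_lit 32) (nat_lit 11584701642934304)) (.cons (.rf (nat_lit 32) (nat_lit 11584701641918496)) (.cons (.br (nat_lit 3) (nat_lit 1) (.cons (.rf (nat_lit 44) (nat_lit 14242959524133701664)) (.cons (.rf (nat_lit 55) (nat_lit 14242959524133701664)) (.cons (.rf (nat_lit 63) (nat_lit 14242959524133701664)) (.cons (.rf (nat_lit 63) (nat_lit 14241868808598947872)) .nil))))) .nil)))) .nil)))),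
 (.br (nat_lit 1) (nat_lit 0) (.cons (.kr (nat_lit 1) (nat_lit 256) (nat_lit 0) (nat_lit 2)) (.cons (.br (nat_lit 3) (nat_lit 0) (.cons (.ev (nat_lit 309485028340147836000665601) (nat_lit 1)) (.cons (.br (nat_lit 11) (nat_lit 0) (.cons (.ev (nat_lit 309485028340147836000665856) (nat_lit 1)) .nil)) .nil))) (.cons (.br (nat_lit 3) (nat_lit 0) (.cons (.br (nat_lit 11) (nat_lit 0) (.cons (.ev (nat_lit 79228162514336395191893623041) (nat_lit 1)) .nil)) (.cons (.ev (nat_lit 79228162514336395191893622784) (nat_lit 1)) .nil))) .nil)))),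
 (.br (nat_lit 3) (nat_lit 0) (.cons (.br (nat_lit 11) (nat_lit 0) (.cons (.ev (nat_lit 309485028340147836000665856) (nat_lit 1)) .nil)) (.cons (.ev (nat_lit 309485028340147836000665601) (nat_lit 1)) (.cons (.br (nat_lit 4) (nat_lit 0) (.cons (.ev (nat_lit 309485028340147836000665856) (nat_lit 1)) .nil)) .nil)))),
 (.br (nat_lit 1) (nat_lit 0) (.cons (.br (nat_lit 1) (nat_lit 0) (.cons (.kr (nat_lit 1) (nat_lit 256) (nat_lit 0) (nat_lit 2)) (.cons (.kr (nat_lit 1208944266359802395885570) (nat_lit 4722438821938659852800) (nat_lit 0) (nat_lit 2)) (.cons (.kr (nat_lit 1208925819614629174706177) (nat_lit 4722366482869645213952) (nat_lit 0) (nat_lit 2)) .nil)))) (.cons (.rf (nat_lit 65) (nat_lit 14242959524133701664)) (.cons (.br (nat_lit 1) (nat_lit 0) (.cons (.kr (nat_lit 1208944266359802395885570) (nat_lit 4722438821938659852800) (nat_lit 0) (nat_lit 2)) (.cons (.rf (nat_lit 65) (nat_lit 14242959524133701664)) (.cons (.rf (nat_lit 66) (nat_lit 14242959524133701664))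 .nil)))) (.cons (.br (nat_lit 1) (nat_lit 0) (.cons (.kr (nat_lit 1208925819614629174706177) (nat_lit 4722366482869645213952) (nat_lit 0) (nat_lit 2)) (.cons (.rf (nat_lit 65) (nat_lit 14242959524133701664)) (.cons (.rf (nat_lit 66) (nat_lit 14242959524133701664)) .nil)))) .nil))))),
 (.br (nat_lit 1) (nat_lit 0) (.cons (.rf (nat_lit 67) (nat_lit 14242959524133669920)) (.cons (.br (nat_lit 1) (nat_lit 0) (.cons (.rf (nat_lit 66) (nat_lit 14242959524133669920)) .nil)) .nil))),
 (.br (nat_lit 1) (nat_lit 0) (.cons (.rf (nat_lit 67) (nat_lit 14242959524133669920)) (.cons (.rf (nat_lit 68) (nat_lit 14242959524133701664)) (.cons (.br (nat_lit 1) (nat_lit 0) (.cons (.rf (nat_lit 67) (nat_lit 14242959524133669920)) (.cons (.rf (nat_lit 68) (nat_lit 14242959524133701664)) .nil))) .nil)))),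
 (.br (nat_lit 3) (nat_lit 0) (.cons (.rf (nat_lit 67) (nat_lit 14242959524133669920)) (.cons (.rf (nat_lit 69) (nat_lit 14242959524133669920)) (.cons (.rf (nat_lit 20) (nat_lit 11634720)) (.cons (.br (nat_lit 4) (nat_lit 0) (.cons (.br (nat_lit 1) (nat_lit 0) (.cons (.ev (nat_lit 310698658007724042521477121) (nat_lit 1)) (.cons (.ev (nat_lit 79229376180897461744873504768) (nat_lit 1)) .nil))) (.cons (.rf (nat_lit 20) (nat_lit 11667488)) (.cons (.ev (nat_lit 79229376162522492690713542656) (nat_lit 1)) .nil)))) .nil))))),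
 (.br (nat_lit 10) (nat_lit 0) (.cons (.br (nat_lit 2) (nat_lit 0) (.cons (.rf (nat_lit 67) (nat_lit 14242959524133701664)) (.cons (.kr (nat_lit 65536) (nat_lit 16777216) (nat_lit 2) (nat_lit 0)) (.cons (.rf (nat_lit 69) (nat_lit 14242959524133701664)) (.cons (.rf (nat_lit 70) (nat_lit 14242959524133701664)) (.cons (.br (nat_lit 3) (nat_lit 0) (.cons (.rf (nat_lit 67) (nat_lit 14242959524133669920)) (.cons (.rf (nat_lit 69) (nat_lit 14242959524133669920)) (.cons (.rf (nat_lit 70) (nat_lit 14242959524133669920)) (.cons (.rf (nat_lit 20) (nat_lit 12683296)) .nil))))) .nil)))))) .nil)),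
 (.br (nat_lit 8) (nat_lit 0) (.cons (.rf (nat_lit 31) (nat_lit 4937125277641826)) (.cons (.br (nat_lit 4) (nat_lit 1) (.cons (.rf (nat_lit 71) (nat_lit 14242959524133701664)) (.cons (.rf (nat_lit 71) (nat_lit 14241868808598947872)) .nil))) (.cons (.rf (nat_lit 11) (nat_lit 398340236980322)) .nil)))),
 (.br (nat_lit 6) (nat_lit 0) (.cons (.rf (nat_lit 64) (nat_lit 11583635450857504)) (.cons (.rf (nat_lit 10) (nat_lit 11313185205346)) (.cons (.br (nat_lit 7) (nat_lit 0) (.cons (.rf (nat_lit 72) (nat_lit 14242959524133701664)) (.cons (.rf (nat_lit 11) (nat_lit 433525650271330)) (.cons (.br (nat_lit 8) (nat_lit 0) (.cons (.rf (nat_lit 72) (nat_lit 13126065750353741856)) (.cons (.rf (nat_lit 12) (nat_lit 433525650271330)) .nil))) .nil)))) .nil)))),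
 (.br (nat_lit 1) (nat_lit 0) (.cons (.kr (nat_lit 1) (nat_lit 256) (nat_lit 0) (nat_lit 2)) (.cons (.rf (nat_lit 64) (nat_lit 11583635458230273)) (.cons (.kr (nat_lit 1208925819614629174706177) (nat_lit 4722366482869645213952) (nat_lit 0) (nat_lit 2)) .nil)))),
 (.br (nat_lit 1) (nat_lit 0) (.cons (.br (nat_lit 1) (nat_lit 0) (.cons (.kr (nat_lit 1) (nat_lit 256) (nat_lit 0) (nat_lit 2)) (.cons (.rf (nat_lit 64) (nat_lit 11584701650274305)) (.cons (.kr (nat_lit 1208944266359802395885570) (nat_lit 4722438821938659852800) (nat_lit 0) (nat_lit 2)) .nil)))) (.cons (.rf (nat_lit 74) (nat_lit 14242959524133701664)) (.cons (.br (nat_lit 1) (nat_lit 0) (.cons (.rf (nat_lit 64) (nat_lit 11584701650274305)) (.cons (.rf (nat_lit 64) (nat_lit 11583635458230273)) (.cons (.rf (nat_lit 73) (nat_lit 119671092708476929)) .nil)))) (.cons (.br (nat_lit 1) (nat_lit 0) (.cons (.kr (nat_lit 1208944266359802395885570) (nat_lit 4722438821938659852800) (nat_lit 0) (nat_lit 2)) (.cons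 (.kr (nat_lit 1208925819614629174706177) (nat_lit 4722366482869645213952) (nat_lit 0) (nat_lit 2)) (.cons (.rf (nat_lit 73) (nat_lit 119671092708476929)) .nil)))) .nil))))),
 (.br (nat_lit 1) (nat_lit 0) (.cons (.kr (nat_lit 1) (nat_lit 256) (nat_lit 0) (nat_lit 2)) (.cons (.br (nat_lit 2) (nat_lit 0) (.cons (.rf (nat_lit 22) (nat_lit 12218076192)) (.cons (.br (nat_lit 11) (nat_lit 0) (.cons (.ev (nat_lit 79538856449905298390971908353) (nat_lit 1)) .nil)) .nil))) (.cons (.ev (nat_lit 1208925891954801995940096) (nat_lit 1)) .nil)))),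
 (.br (nat_lit 1) (nat_lit 0) (.cons (.rf (nat_lit 64) (nat_lit 11584701650274305)) (.cons (.rf (nat_lit 76) (nat_lit 14242959524133701664)) (.cons (.br (nat_lit 2) (nat_lit 0) (.cons (.br (nat_lit 11) (nat_lit 0) (.cons (.ev (nat_lit 79229376180897179166090264833) (nat_lit 1)) .nil)) (.cons (.br (nat_lit 4) (nat_lit 0) (.cons (.ev (nat_lit 79229376180897179166090264833) (nat_lit 1)) .nil)) (.cons (.ev (nat_lit 79228162514336677762087059456) (nat_lit 1)) .nil)))) .nil)))),
 (.br (nat_lit 1) (nat_lit 0) (.cons (.rf (nat_lit 75) (nat_lit 14242959524133701664)) (.cons (.rf (nat_lit 76) (nat_lit 14242959524133701664)) (.cons (.rf (nat_lit 77) (nat_lit 14242959524133701664)) (.cons (.br (nat_lit 1) (nat_lit 0) (.cons (.kr (nat_lit 1208944266359802395885570) (nat_lit 4722438821938659852800) (nat_lit 0) (nat_lit 2)) (.cons (.ev (nat_lit 4740813226947649732864) (nat_lit 1)) (.cons (.rf (nat_lit 77) (nat_lit 14242959524133701664)) .nil)))) .nil))))),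
 (.br (nat_lit 1) (nat_lit 0) (.cons (.rf (nat_lit 64) (nat_lit 11583635458230273)) (.cons (.rf (nat_lit 76) (nat_lit 14242959524133701664)) (.cons (.br (nat_lit 2) (nat_lit 0) (.cons (.br (nat_lit 11) (nat_lit 0) (.cons (.ev (nat_lit 79538856449905298390971908353) (nat_lit 1)) .nil)) (.cons (.br (nat_lit 3) (nat_lit 0) (.cons (.ev (nat_lit 79538856449905298390971908353) (nat_lit 1)) .nil)) (.cons (.br (nat_lit 3) (nat_lit 0) (.cons (.ev (nat_lit 79538856449905298390971908353) (nat_lit 1)) .nil)) .nil)))) .nil)))),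
 (.br (nat_lit 1) (nat_lit 0) (.cons (.rf (nat_lit 74) (nat_lit 14242959524133701664)) (.cons (.rf (nat_lit 76) (nat_lit 14242959524133701664)) (.cons (.rf (nat_lit 79) (nat_lit 14242959524133701664)) (.cons (.br (nat_lit 1) (nat_lit 0) (.cons (.kr (nat_lit 1208925819614629174706177) (nat_lit 4722366482869645213952) (nat_lit 0) (nat_lit 2)) (.cons (.ev (nat_lit 4740813226947649732864) (nat_lit 1)) (.cons (.rf (nat_lit 79) (nat_lit 14242959524133701664)) .nil)))) .nil))))),
 (.br (nat_lit 1) (nat_lit 0) (.cons (.rf (nat_lit 75) (nat_lit 14242959524133701664)) (.cons (.rf (nat_lit 78) (nat_lit 14242959524133701664)) (.cons (.rf (nat_lit 80) (nat_lit 14242959524133701664)) (.cons (.br (nat_lit 1) (nat_lit 0) (.cons (.rf (nat_lit 73) (nat_lit 119671092708476929)) (.cons (.rf (nat_lit 78) (nat_lit 14242959524133701664)) (.cons (.rf (nat_lit 80) (nat_lit 14242959524133701664)) .nil)))) .nil)))))]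

theorem c1 : chkAll C T R L1 (nat_lit 48) = true := by decide +kernel

theorem l1 : (nat_lit 48) + L1.length = (nat_lit 82) := by decide +kernel

/-- part of the certificates -/
def L2 : List Prf := [(.br (nat_lit 10) (nat_lit 0) (.cons (.br (nat_lit 1) (nat_lit 0) (.cons (.rf (nat_lit 75) (nat_lit 14242959524133701664)) (.cons (.rf (nat_lit 78) (nat_lit 14242959524133701664)) (.cons (.rf (nat_lit 80) (nat_lit 14242959524133701664)) (.cons (.rf (nat_lit 81) (nat_lit 14242959524133701664)) (.cons (.br (nat_lit 1) (nat_lit 0) (.cons (.rf (nat_lit 75) (nat_lit 14242959524133701664)) (.cons (.rf (nat_lit 78) (nat_lit 14242959524133701664)) (.cons (.rf (nat_lit 80) (nat_lit 14242959524133701664)) (.cons (.rf (nat_lit 81) (nat_lit 14242959524133701664)) .nil))))) .nil)))))) .nil)),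
 (.br (nat_lit 8) (nat_lit 0) (.cons (.rf (nat_lit 12) (nat_lit 152050673552738)) (.cons (.br (nat_lit 3) (nat_lit 1) (.cons (.rf (nat_lit 82) (nat_lit 14242959524133701664)) (.cons (.rf (nat_lit 82) (nat_lit 14241868808598947872)) .nil))) .nil))),
 (.br (nat_lit 1) (nat_lit 0) (.cons (.kr (nat_lit 1) (nat_lit 256) (nat_lit 0) (nat_lit 2)) (.cons (.br (nat_lit 3) (nat_lit 0) (.cons (.ev (nat_lit 309489732259886631936327936) (nat_lit 1)) (.cons (.br (nat_lit 11) (nat_lit 0) (.cons (.ev (nat_lit 309489732259886631936327681) (nat_lit 1)) .nil)) .nil))) (.cons (.rf (nat_lit 64) (nat_lit 11583635459278849)) .nil)))),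
 (.br (nat_lit 4) (nat_lit 0) (.cons (.ev (nat_lit 309489750634853487073034241) (nat_lit 1)) .nil)),
 (.br (nat_lit 1) (nat_lit 0) (.cons (.kr (nat_lit 1208944266359802395885570) (nat_lit 4722438821938659852800) (nat_lit 0) (nat_lit 2)) (.cons (.rf (nat_lit 84) (nat_lit 14242959524133701664)) (.cons (.br (nat_lit 3) (nat_lit 0) (.cons (.br (nat_lit 11) (nat_lit 0) (.cons (.ev (nat_lit 310693935713018391465820161) (nat_lit 1)) .nil)) (.cons (.ev (nat_lit 310693935713018391465820416) (nat_lit 1)) (.cons (.rf (nat_lit 85) (nat_lit 14242959524133701664)) .nil)))) .nil)))),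
 (.br (nat_lit 1) (nat_lit 0) (.cons (.br (nat_lit 10) (nat_lit 0) (.cons (.ev (nat_lit 309485009893402667074453761) (nat_lit 1)) .nil)) .nil)),
 (.br (nat_lit 1) (nat_lit 0) (.cons (.br (nat_lit 1) (nat_lit 0) (.cons (.rf (nat_lit 87) (nat_lit 372998571739416608)) .nil)) (.cons (.rf (nat_lit 87) (nat_lit 372998571739416608)) .nil))),
 (.br (nat_lit 1) (nat_lit 0) (.cons (.rf (nat_lit 88) (nat_lit 12710601549776928)) (.cons (.br (nat_lit 1) (nat_lit 0) (.cons (.rf (nat_lit 88) (nat_lit 12710601549776928)) .nil)) .nil))),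
 (.br (nat_lit 1) (nat_lit 0) (.cons (.rf (nat_lit 88) (nat_lit 11584701642934304)) (.cons (.br (nat_lit 1) (nat_lit 0) (.cons (.rf (nat_lit 88) (nat_lit 11584701642934304)) (.cons (.rf (nat_lit 89) (nat_lit 372998571739416608)) .nil))) (.cons (.rf (nat_lit 89) (nat_lit 372998571739416608)) .nil)))),
 (.br (nat_lit 1) (nat_lit 0) (.cons (.rf (nat_lit 22) (nat_lit 11110779936)) (.cons (.br (nat_lit 4) (nat_lit 0) (.cons (.ev (nat_lit 309485009893402667074453504) (nat_lit 1)) .nil)) .nil))),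
 (.br (nat_lit 1) (nat_lit 0) (.cons (.rf (nat_lit 22) (nat_lit 12218076192)) (.cons (.br (nat_lit 3) (nat_lit 0) (.cons (.ev (nat_lit 1239172706282766372809344518) (nat_lit 3)) .nil)) .nil))),
 (.br (nat_lit 1) (nat_lit 0) (.cons (.rf (nat_lit 22) (nat_lit 12150967328)) (.cons (.br (nat_lit 4) (nat_lit 0) (.cons (.ev (nat_lit 309485009893402667074453761) (nat_lit 1)) .nil)) .nil))),
 (.br (nat_lit 1) (nat_lit 0) (.cons (.rf (nat_lit 22) (nat_lit 13258263584)) (.cons (.br (nat_lit 3) (nat_lit 0) (.cons (.ev (nat_lit 1239153817103934972494218758) (nat_lit 3)) .nil)) .nil))),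
 (.br (nat_lit 10) (nat_lit 0) (.cons (.br (nat_lit 2) (nat_lit 0) (.cons (.br (nat_lit 1) (nat_lit 0) (.cons (.rf (nat_lit 74) (nat_lit 14242958457940609056)) (.cons (.rf (nat_lit 84) (nat_lit 14242959524133701664)) (.cons (.rf (nat_lit 86) (nat_lit 14242959524133701664)) (.cons (.br (nat_lit 1) (nat_lit 0) (.cons (.kr (nat_lit 1208925819614629174706177) (nat_lit 4722366482869645213952) (nat_lit 0) (nat_lit 2)) (.cons (.rf (nat_lit 64) (nat_lit 11583635459278849)) (.cons (.rf (nat_lit 86) (nat_lit 14242959524133701664)) .nil)))) .nil))))) (.cons (.kr (nat_lit 1213648186098598331678720) (nat_lit 18519083142757744640) (nat_lit 2) (nat_lit 0)) (.cons (.rf (nat_lit 90) (nat_lit 13872785340336160)) (.cons (.br (nat_lit 11) (nat_lit 0) (.cons (.br (nat_lit 1) (nat_lit 0) (.cons (.rf (nat_lit 91) (nat_lit 445092449661061152)) (.cons (.rf (nat_lit 92) (nat_lit 14242959524133701664)) (.cons (.br (nat_lit 1) (nat_lit 0) (.cons (.rf (nat_lit 91) (nat_lit 445092449661061152))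 (.cons (.rf (nat_lit 92) (nat_lit 14242959524133701664)) .nil))) .nil)))) (.cons (.rf (nat_lit 20) (nat_lit 11634720)) (.cons (.rf (nat_lit 20) (nat_lit 11667488)) (.cons (.br (nat_lit 4) (nat_lit 0) (.cons (.br (nat_lit 1) (nat_lit 0) (.cons (.br (nat_lit 1) (nat_lit 0) (.cons (.ev (nat_lit 310693954087985246602526976) (nat_lit 1)) .nil)) (.cons (.br (nat_lit 1) (nat_lit 0) (.cons (.ev (nat_lit 310693954087985246602526976) (nat_lit 1)) .nil)) .nil))) (.cons (.rf (nat_lit 39) (nat_lit 13258295328)) (.cons (.zr (nat_lit 79540065375724911924913111040) (nat_lit 9463179709813000044544) (nat_lit 5) (nat_lit 12)) .nil)))) .nil))))) (.cons (.br (nat_lit 12) (nat_lit 0) (.cons (.br (nat_lit 1) (nat_lit 0) (.cons (.rf (nat_lit 93) (nat_lit 445092449661061152)) (.cons (.rf (nat_lit 94) (nat_lit 14242959524133701664)) (.cons (.br (nat_lit 1) (nat_lit 0) (.cons (.rf (nat_lit 93) (nat_lit 445092449661061152)) (.cons (.rf (nat_lit 94) (nat_lit 14242959524133701664)) .nil)))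 .nil)))) (.cons (.rf (nat_lit 20) (nat_lit 12683296)) (.cons (.rf (nat_lit 20) (nat_lit 12716064)) (.cons (.br (nat_lit 4) (nat_lit 0) (.cons (.br (nat_lit 1) (nat_lit 0) (.cons (.br (nat_lit 1) (nat_lit 0) (.cons (.ev (nat_lit 79229376162522492690713542913) (nat_lit 1)) .nil)) (.cons (.br (nat_lit 1) (nat_lit 0) (.cons (.ev (nat_lit 79229376162522492690713542913) (nat_lit 1)) .nil)) .nil))) (.cons (.ev (nat_lit 79229371440084234801502027776) (nat_lit 1)) (.cons (.zr (nat_lit 79537656968890987474868764672) (nat_lit 2417888532718505280208896) (nat_lit 5) (nat_lit 4)) .nil)))) .nil))))) .nil)))))) .nil)),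
 (.br (nat_lit 11) (nat_lit 1) (.cons (.br (nat_lit 4) (nat_lit 1) (.cons (.rf (nat_lit 95) (nat_lit 14242959524133701664)) (.cons (.rf (nat_lit 95) (nat_lit 14241868808598947872)) .nil))) (.cons (.rf (nat_lit 43) (nat_lit 13662849555672162)) (.cons (.rf (nat_lit 43) (nat_lit 13661784403782754)) .nil)))),
 (.br (nat_lit 4) (nat_lit 0) (.cons (.br (nat_lit 11) (nat_lit 0) (.cons (.ev (nat_lit 79537652246452447011185688833) (nat_lit 1)) .nil)) (.cons (.rf (nat_lit 22) (nat_lit 13257279520)) .nil))),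
 (.br (nat_lit 1) (nat_lit 0) (.cons (.kr (nat_lit 1) (nat_lit 256) (nat_lit 0) (nat_lit 2)) (.cons (.rf (nat_lit 64) (nat_lit 11584701650274305)) (.cons (.rf (nat_lit 97) (nat_lit 14242959524133701664)) .nil)))),
 (.br (nat_lit 3) (nat_lit 0) (.cons (.rf (nat_lit 98) (nat_lit 14242959524133701664)) (.cons (.ev (nat_lit 1242038087486341048958980) (nat_lit 3)) (.cons (.br (nat_lit 4) (nat_lit 0) (.cons (.rf (nat_lit 98) (nat_lit 13124975034817972256)) (.cons (.ev (nat_lit 1223092919908775453917186) (nat_lit 2)) (.cons (.ev (nat_lit 37037888121908363266) (nat_lit 2)) .nil)))) (.cons (.br (nat_lit 4) (nat_lit 0) (.cons (.rf (nat_lit 98) (nat_lit 13124975034817972256)) (.cons (.ev (nat_lit 284777857024002) (nat_lit 2)) (.cons (.ev (nat_lit 1223092919908775453917186) (nat_lit 2)) .nil)))) .nil))))),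
 (.br (nat_lit 1) (nat_lit 0) (.cons (.rf (nat_lit 64) (nat_lit 11584701650274305)) (.cons (.ev (nat_lit 1208925891954801995940096) (nat_lit 1)) (.cons (.br (nat_lit 2) (nat_lit 0) (.cons (.br (nat_lit 11) (nat_lit 0) (.cons (.ev (nat_lit 79537652246452447011185688833) (nat_lit 1)) .nil)) (.cons (.br (nat_lit 4) (nat_lit 0) (.cons (.ev (nat_lit 79537652246452447011185688833) (nat_lit 1)) .nil)) (.cons (.br (nat_lit 4) (nat_lit 0) (.cons (.ev (nat_lit 79537652246452447011185688833) (nat_lit 1)) .nil)) .nil)))) .nil)))),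
 (.br (nat_lit 1) (nat_lit 0) (.cons (.rf (nat_lit 98) (nat_lit 14242959524133701664)) (.cons (.br (nat_lit 1) (nat_lit 0) (.cons (.ev (nat_lit 1223092919908775453917186) (nat_lit 2)) (.cons (.ev (nat_lit 4722438540463699919104) (nat_lit 1)) (.cons (.ev (nat_lit 4740813509517859881216) (nat_lit 1)) .nil)))) (.cons (.rf (nat_lit 100) (nat_lit 14242959524133701664)) (.cons (.br (nat_lit 1) (nat_lit 0) (.cons (.rf (nat_lit 97) (nat_lit 14242959524133701664)) (.cons (.ev (nat_lit 4740813509517859881216) (nat_lit 1)) (.cons (.rf (nat_lit 100) (nat_lit 14242959524133701664)) .nil)))) .nil))))),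
 (.br (nat_lit 1) (nat_lit 0) (.cons (.rf (nat_lit 99) (nat_lit 14242959524133701664)) (.cons (.rf (nat_lit 100) (nat_lit 14242959524133701664)) (.cons (.rf (nat_lit 101) (nat_lit 13124975034817972256)) (.cons (.br (nat_lit 1) (nat_lit 0) (.cons (.rf (nat_lit 99) (nat_lit 14242959524133701664)) (.cons (.rf (nat_lit 100) (nat_lit 14242959524133701664)) (.cons (.rf (nat_lit 100) (nat_lit 13124975034817972256)) .nil)))) .nil))))),
 (.br (nat_lit 10) (nat_lit 0) (.cons (.br (nat_lit 1) (nat_lit 0) (.cons (.rf (nat_lit 99) (nat_lit 14242959524133701664)) (.cons (.rf (nat_lit 101) (nat_lit 14242959524133701664)) (.cons (.rf (nat_lit 101) (nat_lit 13124975034817972256)) (.cons (.rf (nat_lit 102) (nat_lit 14242959524133701664)) (.cons (.rf (nat_lit 102) (nat_lit 13124975034817972256)) .nil)))))) .nil)),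
 (.br (nat_lit 9) (nat_lit 0) (.cons (.rf (nat_lit 103) (nat_lit 14242959524133701664)) (.cons (.rf (nat_lit 103) (nat_lit 13126065750352726048)) .nil))),
 (.br (nat_lit 1) (nat_lit 0) (.cons (.rf (nat_lit 74) (nat_lit 14242958457940609056)) (.cons (.br (nat_lit 1) (nat_lit 0) (.cons (.kr (nat_lit 1) (nat_lit 256) (nat_lit 0) (nat_lit 2)) (.cons (.rf (nat_lit 96) (nat_lit 13954729147982252033)) (.cons (.kr (nat_lit 1208925891953698189344770) (nat_lit 4740813228042866393600) (nat_lit 0) (nat_lit 2)) .nil)))) (.cons (.br (nat_lit 1) (nat_lit 0) (.cons (.rf (nat_lit 64) (nat_lit 11584701650274305)) (.cons (.rf (nat_lit 96) (nat_lit 13954729147982252033)) (.cons (.rf (nat_lit 96) (nat_lit 4731357111135864833)) .nil)))) (.cons (.br (nat_lit 1) (nat_lit 0) (.cons (.kr (nat_lit 1208925819614629174706177) (nat_lit 4722366482869645213952) (nat_lit 0) (nat_lit 2)) (.cons (.kr (nat_lit 1208925891953698189344770) (nat_lit 4740813228042866393600) (nat_lit 0) (nat_lit 2))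 (.cons (.rf (nat_lit 96) (nat_lit 4731357111135864833)) .nil)))) .nil))))),
 (.br (nat_lit 1) (nat_lit 0) (.cons (.kr (nat_lit 1) (nat_lit 256) (nat_lit 0) (nat_lit 2)) (.cons (.ev (nat_lit 4722438540463699919104) (nat_lit 1)) (.cons (.br (nat_lit 2) (nat_lit 0) (.cons (.br (nat_lit 11) (nat_lit 0) (.cons (.zr (nat_lit 316913858982949305189123751940) (nat_lit 14222439680830064690688) (nat_lit 10) (nat_lit 1)) .nil)) (.cons (.rf (nat_lit 22) (nat_lit 13258263584)) .nil))) .nil)))),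
 (.br (nat_lit 1) (nat_lit 0) (.cons (.rf (nat_lit 74) (nat_lit 14242958457940609056)) (.cons (.rf (nat_lit 106) (nat_lit 14242959524133701664)) (.cons (.br (nat_lit 1) (nat_lit 0) (.cons (.rf (nat_lit 64) (nat_lit 11584701650274305)) (.cons (.ev (nat_lit 4722438540463699919104) (nat_lit 1)) (.cons (.ev (nat_lit 4740813509517859881216) (nat_lit 1)) .nil)))) (.cons (.br (nat_lit 1) (nat_lit 0) (.cons (.kr (nat_lit 1208925819614629174706177) (nat_lit 4722366482869645213952) (nat_lit 0) (nat_lit 2)) (.cons (.rf (nat_lit 106) (nat_lit 14242959524133701664)) (.cons (.ev (nat_lit 4740813509517859881216) (nat_lit 1)) .nil)))) .nil))))),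
 (.br (nat_lit 1) (nat_lit 0) (.cons (.rf (nat_lit 96) (nat_lit 13954729147982252033)) (.cons (.ev (nat_lit 4722438540463699919104) (nat_lit 1)) (.cons (.br (nat_lit 11) (nat_lit 0) (.cons (.rf (nat_lit 85) (nat_lit 2424423386387419137)) (.cons (.ev (nat_lit 309489732259886631936327681) (nat_lit 1)) (.cons (.br (nat_lit 2) (nat_lit 0) (.cons (.ev (nat_lit 310693954087985246602526976) (nat_lit 1)) .nil)) .nil)))) .nil)))),
 (.br (nat_lit 1) (nat_lit 0) (.cons (.rf (nat_lit 105) (nat_lit 14242959524133701664)) (.cons (.rf (nat_lit 107) (nat_lit 14242959524133701664)) (.cons (.rf (nat_lit 108) (nat_lit 14242959524133701664)) (.cons (.br (nat_lit 1) (nat_lit 0) (.cons (.kr (nat_lit 1208925891953698189344770) (nat_lit 4740813228042866393600) (nat_lit 0) (nat_lit 2)) (.cons (.rf (nat_lit 107) (nat_lit 14242959524133701664)) (.cons (.rf (nat_lit 108) (nat_lit 14242959524133701664)) .nil)))) .nil))))),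
 (.br (nat_lit 1) (nat_lit 0) (.cons (.rf (nat_lit 105) (nat_lit 14242959524133701664)) (.cons (.rf (nat_lit 107) (nat_lit 14242959524133701664)) (.cons (.rf (nat_lit 109) (nat_lit 14242959524133701664)) (.cons (.br (nat_lit 1) (nat_lit 0) (.cons (.rf (nat_lit 96) (nat_lit 4731357111135864833)) (.cons (.ev (nat_lit 4740813509517859881216) (nat_lit 1)) (.cons (.rf (nat_lit 109) (nat_lit 14242959524133701664)) .nil)))) .nil))))),
 (.br (nat_lit 1) (nat_lit 0) (.cons (.kr (nat_lit 1) (nat_lit 256) (nat_lit 0) (nat_lit 2)) (.cons (.br (nat_lit 3) (nat_lit 0) (.cons (.ev (nat_lit 309485009893685241562792193) (nat_lit 1)) (.cons (.br (nat_lit 11) (nat_lit 0) (.cons (.ev (nat_lit 310698676454186645565997056) (nat_lit 1)) .nil)) .nil))) (.cons (.kr (nat_lit 1208925891953698189344770) (nat_lit 4740813228042866393600) (nat_lit 0) (nat_lit 2)) .nil)))),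
 (.br (nat_lit 1) (nat_lit 0) (.cons (.br (nat_lit 1) (nat_lit 0) (.cons (.kr (nat_lit 1) (nat_lit 256) (nat_lit 0) (nat_lit 2)) (.cons (.kr (nat_lit 1208925819614629174706177) (nat_lit 4722366482869645213952) (nat_lit 0) (nat_lit 2)) (.cons (.rf (nat_lit 97) (nat_lit 14239617077504739360)) .nil)))) (.cons (.rf (nat_lit 111) (nat_lit 14242959524133701664)) (.cons (.br (nat_lit 1) (nat_lit 0) (.cons (.kr (nat_lit 1208925819614629174706177) (nat_lit 4722366482869645213952) (nat_lit 0) (nat_lit 2)) (.cons (.rf (nat_lit 111) (nat_lit 14242959524133701664)) (.cons (.kr (nat_lit 3626777531182956538757122) (nat_lit 14185546193782156820992) (nat_lit 0) (nat_lit 2)) .nil)))) (.cons (.br (nat_lit 1) (nat_lit 0) (.cons (.rf (nat_lit 97) (nat_lit 14239617077504739360)) (.cons (.kr (nat_lit 1208925891953698189344770) (nat_lit 4740813228042866393600) (nat_lit 0) (nat_lit 2)) (.cons (.kr (nat_lit 3626777531182956538757122) (nat_lit 14185546193782156820992) (nat_lit 0) (nat_lit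 2)) .nil)))) .nil))))),
 (.br (nat_lit 1) (nat_lit 0) (.cons (.kr (nat_lit 1) (nat_lit 256) (nat_lit 0) (nat_lit 2)) (.cons (.br (nat_lit 2) (nat_lit 0) (.cons (.rf (nat_lit 22) (nat_lit 12218076192)) (.cons (.br (nat_lit 11) (nat_lit 0) (.cons (.ev (nat_lit 79538856449905578770715181313) (nat_lit 1)) .nil)) .nil))) (.cons (.ev (nat_lit 1208944266641277389373696) (nat_lit 1)) .nil)))),
 (.br (nat_lit 1) (nat_lit 0) (.cons (.rf (nat_lit 112) (nat_lit 14242959524133701664)) (.cons (.rf (nat_lit 113) (nat_lit 14242959524133701664)) (.cons (.br (nat_lit 1) (nat_lit 0) (.cons (.kr (nat_lit 1208925819614629174706177) (nat_lit 4722366482869645213952) (nat_lit 0) (nat_lit 2)) (.cons (.rf (nat_lit 113) (nat_lit 14242959524133701664)) (.cons (.ev (nat_lit 4740813509517859881216) (nat_lit 1)) .nil)))) (.cons (.br (nat_lit 1) (nat_lit 0) (.cons (.rf (nat_lit 97) (nat_lit 14239617077504739360)) (.cons (.ev (nat_lit 4722438540463699919104) (nat_lit 1)) (.cons (.ev (nat_lit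 4740813509517859881216) (nat_lit 1)) .nil)))) .nil))))),
 (.br (nat_lit 1) (nat_lit 0) (.cons (.rf (nat_lit 112) (nat_lit 14242959524133701664)) (.cons (.rf (nat_lit 113) (nat_lit 14242959524133701664)) (.cons (.rf (nat_lit 66) (nat_lit 13126065750352662560)) .nil)))),
 (.br (nat_lit 1) (nat_lit 0) (.cons (.rf (nat_lit 112) (nat_lit 14242959524133701664)) (.cons (.rf (nat_lit 113) (nat_lit 14242959524133701664)) (.cons (.rf (nat_lit 115) (nat_lit 14242959524133701664)) (.cons (.br (nat_lit 1) (nat_lit 0) (.cons (.kr (nat_lit 1208925891953698189344770) (nat_lit 4740813228042866393600) (nat_lit 0) (nat_lit 2)) (.cons (.ev (nat_lit 4722438540463699919104) (nat_lit 1)) (.cons (.rf (nat_lit 66) (nat_lit 13126065750352662560)) .nil)))) .nil)))))]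

theorem c2 : chkAll C T R L2 (nat_lit 82) = true := by decide +kernel

theorem l2 : (nat_lit 82) + L2.length = (nat_lit 117) := by decide +kernel

/-- part of the certificates -/
def L3 : List Prf := [(.br (nat_lit 1) (nat_lit 0) (.cons (.rf (nat_lit 112) (nat_lit 14242959524133701664)) (.cons (.rf (nat_lit 114) (nat_lit 14242959524133701664)) (.cons (.rf (nat_lit 116) (nat_lit 14242959524133701664)) (.cons (.br (nat_lit 1) (nat_lit 0) (.cons (.kr (nat_lit 3626777531182956538757122) (nat_lit 14185546193782156820992) (nat_lit 0) (nat_lit 2)) (.cons (.ev (nat_lit 4740813509517859881216) (nat_lit 1)) (.cons (.rf (nat_lit 66) (nat_lit 13126065750352662560)) .nil)))) .nil))))),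
 (.br (nat_lit 7) (nat_lit 0) (.cons (.br (nat_lit 10) (nat_lit 0) (.cons (.br (nat_lit 1) (nat_lit 0) (.cons (.rf (nat_lit 105) (nat_lit 14242959524133701664)) (.cons (.rf (nat_lit 107) (nat_lit 14242959524133701664)) (.cons (.rf (nat_lit 109) (nat_lit 14242959524133701664)) (.cons (.rf (nat_lit 110) (nat_lit 14242959524133701664)) (.cons (.br (nat_lit 1) (nat_lit 0) (.cons (.rf (nat_lit 105) (nat_lit 14242959524133701664)) (.cons (.rf (nat_lit 107) (nat_lit 14242959524133701664)) (.cons (.rf (nat_lit 109) (nat_lit 14242959524133701664)) (.cons (.rf (nat_lit 110) (nat_lit 14242959524133701664)) .nil))))) .nil)))))) .nil)) (.cons (.br (nat_lit 10) (nat_lit 0) (.cons (.br (nat_lit 1) (nat_lit 0) (.cons (.rf (nat_lit 112) (nat_lit 14242959524133701664)) (.cons (.rf (nat_lit 114) (nat_lit 14242959524133701664)) (.cons (.rf (nat_lit 116) (nat_lit 14242959524133701664)) (.cons (.rf (nat_lit 117) (nat_lit 14242959524133701664)) (.cons (.br (nat_lit 1) (nat_lit 0)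 (.cons (.rf (nat_lit 112) (nat_lit 14242959524133701664)) (.cons (.rf (nat_lit 114) (nat_lit 14242959524133701664)) (.cons (.rf (nat_lit 116) (nat_lit 14242959524133701664)) (.cons (.rf (nat_lit 117) (nat_lit 14242959524133701664)) .nil))))) .nil)))))) .nil)) .nil))),
 (.br (nat_lit 4) (nat_lit 1) (.cons (.rf (nat_lit 104) (nat_lit 14242959524133701664)) (.cons (.rf (nat_lit 118) (nat_lit 14242959524133701664)) (.cons (.rf (nat_lit 118) (nat_lit 14241868808598947872)) .nil)))),
 (.br (nat_lit 1) (nat_lit 0) (.cons (.kr (nat_lit 1) (nat_lit 256) (nat_lit 0) (nat_lit 2)) (.cons (.rf (nat_lit 64) (nat_lit 11584701650274305)) (.cons (.rf (nat_lit 119) (nat_lit 12837835374201276417)) .nil)))),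
 (.br (nat_lit 1) (nat_lit 0) (.cons (.rf (nat_lit 64) (nat_lit 11584701650274305)) (.cons (.rf (nat_lit 119) (nat_lit 13954729147982252033)) (.cons (.rf (nat_lit 119) (nat_lit 4731357111135864833)) .nil)))),
 (.br (nat_lit 1) (nat_lit 0) (.cons (.rf (nat_lit 120) (nat_lit 14242959524133701664)) (.cons (.rf (nat_lit 120) (nat_lit 13126065750352726048)) (.cons (.rf (nat_lit 121) (nat_lit 14242959524133701664)) (.cons (.rf (nat_lit 121) (nat_lit 13126065750352726048)) .nil))))),
 (.br (nat_lit 4) (nat_lit 0) (.cons (.br (nat_lit 1) (nat_lit 0) (.cons (.rf (nat_lit 22) (nat_lit 12218076192)) (.cons (.br (nat_lit 11) (nat_lit 0) (.cons (.ev (nat_lit 310698676454186645565997313) (nat_lit 1)) .nil)) .nil))) (.cons (.rf (nat_lit 20) (nat_lit 11667488)) (.cons (.br (nat_lit 1) (nat_lit 0) (.cons (.br (nat_lit 1) (nat_lit 0) (.cons (.ev (nat_lit 1239182151015169187983524356) (nat_lit 3)) .nil)) (.cons (.br (nat_lit 1) (nat_lit 0) (.cons (.ev (nat_lit 1239182151015169187983524356)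 (nat_lit 3)) .nil)) .nil))) .nil)))),
 (.br (nat_lit 2) (nat_lit 0) (.cons (.rf (nat_lit 120) (nat_lit 14242959524133701664)) (.cons (.kr (nat_lit 4740885284537392824322) (nat_lit 1208925819897212286533632) (nat_lit 0) (nat_lit 1)) (.cons (.rf (nat_lit 123) (nat_lit 14242959524133701664)) (.cons (.br (nat_lit 4) (nat_lit 0) (.cons (.rf (nat_lit 123) (nat_lit 13124975034817972256)) (.cons (.br (nat_lit 1) (nat_lit 0) (.cons (.br (nat_lit 1) (nat_lit 0) (.cons (.ev (nat_lit 1239182077227066975991235072) (nat_lit 3)) .nil)) (.cons (.br (nat_lit 1) (nat_lit 0) (.cons (.ev (nat_lit 1239182077227066975991235072) (nat_lit 3)) .nil)) .nil))) (.cons (.rf (nat_lit 20) (nat_lit 12716064)) .nil)))) .nil))))),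
 (.br (nat_lit 1) (nat_lit 0) (.cons (.rf (nat_lit 121) (nat_lit 14242959524133701664)) (.cons (.rf (nat_lit 124) (nat_lit 14242959524133701664)) (.cons (.rf (nat_lit 124) (nat_lit 13124975034817972256)) (.cons (.br (nat_lit 1) (nat_lit 0) (.cons (.rf (nat_lit 121) (nat_lit 14242959524133701664)) (.cons (.rf (nat_lit 124) (nat_lit 14242959524133701664)) (.cons (.rf (nat_lit 124) (nat_lit 13124975034817972256)) .nil)))) .nil))))),
 (.br (nat_lit 4) (nat_lit 1) (.cons (.rf (nat_lit 121) (nat_lit 12837835374201276417)) (.cons (.rf (nat_lit 96) (nat_lit 13126065750352726048)) (.cons (.br (nat_lit 7) (nat_lit 0) (.cons (.rf (nat_lit 43) (nat_lit 13662849555664226)) (.cons (.br (nat_lit 8) (nat_lit 0) (.cons (.br (nat_lit 1) (nat_lit 0) (.cons (.rf (nat_lit 122) (nat_lit 14242959524133701664)) (.cons (.rf (nat_lit 124) (nat_lit 14242959524133701664)) (.cons (.rf (nat_lit 124) (nat_lit 13124975034817972256)) (.cons (.rf (nat_lit 125) (nat_lit 14242959524133701664))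 (.cons (.rf (nat_lit 125) (nat_lit 13124975034817972256)) .nil)))))) .nil)) .nil))) .nil)))),
 (.br (nat_lit 6) (nat_lit 0) (.cons (.rf (nat_lit 64) (nat_lit 11583635450857504)) (.cons (.br (nat_lit 7) (nat_lit 0) (.cons (.rf (nat_lit 11) (nat_lit 152050673552738)) (.cons (.rf (nat_lit 83) (nat_lit 407901468851537952)) (.cons (.br (nat_lit 8) (nat_lit 0) (.cons (.rf (nat_lit 83) (nat_lit 407900402658445344)) (.cons (.rf (nat_lit 11) (nat_lit 116865260261730)) (.cons (.rf (nat_lit 31) (nat_lit 13662849555664226)) .nil)))) .nil)))) (.cons (.br (nat_lit 3) (nat_lit 1) (.cons (.rf (nat_lit 96) (nat_lit 14242959524133701664)) (.cons (.rf (nat_lit 121) (nat_lit 13954729147982252033)) (.cons (.rf (nat_lit 126) (nat_lit 14242959524133701664)) (.cons (.rf (nat_lit 126) (nat_lit 14241868808598947872)) .nil))))) .nil)))),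
 (.br (nat_lit 1) (nat_lit 0) (.cons (.rf (nat_lit 64) (nat_lit 10422482391631873)) (.cons (.rf (nat_lit 64) (nat_lit 10421416200833025)) (.cons (.rf (nat_lit 73) (nat_lit 118508873450850305)) .nil)))),
 (.br (nat_lit 1) (nat_lit 0) (.cons (.rf (nat_lit 74) (nat_lit 14242958457940609056)) (.cons (.br (nat_lit 1) (nat_lit 0) (.cons (.kr (nat_lit 1) (nat_lit 256) (nat_lit 0) (nat_lit 2)) (.cons (.rf (nat_lit 73) (nat_lit 119671092700088321)) (.cons (.kr (nat_lit 1208925891953698189344770) (nat_lit 4740813228042866393600) (nat_lit 0) (nat_lit 2)) .nil)))) (.cons (.rf (nat_lit 128) (nat_lit 445092485129144352)) (.cons (.br (nat_lit 1) (nat_lit 0) (.cons (.kr (nat_lit 1208925819614629174706177) (nat_lit 4722366482869645213952) (nat_lit 0) (nat_lit 2)) (.cons (.kr (nat_lit 1208925891953698189344770) (nat_lit 4740813228042866393600) (nat_lit 0) (nat_lit 2)) (.cons (.rf (nat_lit 14) (nat_lit 144316484126721)) .nil)))) .nil))))),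
 (.br (nat_lit 2) (nat_lit 0) (.cons (.rf (nat_lit 22) (nat_lit 12218076192)) (.cons (.br (nat_lit 11) (nat_lit 0) (.cons (.ev (nat_lit 79537652246452447011185688833) (nat_lit 1)) .nil)) .nil))),
 (.br (nat_lit 1) (nat_lit 0) (.cons (.rf (nat_lit 74) (nat_lit 14242958457940609056)) (.cons (.br (nat_lit 1) (nat_lit 0) (.cons (.kr (nat_lit 1) (nat_lit 256) (nat_lit 0) (nat_lit 2)) (.cons (.rf (nat_lit 130) (nat_lit 14242959524133701664)) (.cons (.ev (nat_lit 4740813509517859881216) (nat_lit 1)) .nil)))) (.cons (.br (nat_lit 1) (nat_lit 0) (.cons (.rf (nat_lit 64) (nat_lit 11584701650274305)) (.cons (.rf (nat_lit 130) (nat_lit 14242959524133701664)) (.cons (.rf (nat_lit 127) (nat_lit 83642295689260033)) .nil)))) (.cons (.br (nat_lit 1) (nat_lit 0) (.cons (.kr (nat_lit 1208925819614629174706177) (nat_lit 4722366482869645213952) (nat_lit 0) (nat_lit 2)) (.cons (.ev (nat_lit 4740813509517859881216) (nat_lit 1)) (.cons (.rf (nat_lit 127) (nat_lit 83642295689260033))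 .nil)))) .nil))))),
 (.br (nat_lit 1) (nat_lit 0) (.cons (.rf (nat_lit 73) (nat_lit 119671092700088321)) (.cons (.rf (nat_lit 130) (nat_lit 14242959524133701664)) (.cons (.br (nat_lit 2) (nat_lit 0) (.cons (.br (nat_lit 11) (nat_lit 0) (.cons (.ev (nat_lit 79229376180897461744856793345) (nat_lit 1)) .nil)) (.cons (.br (nat_lit 3) (nat_lit 0) (.cons (.ev (nat_lit 79229376180897461744856793345) (nat_lit 1)) .nil)) (.cons (.ev (nat_lit 79228162514336395191876911104) (nat_lit 1)) .nil)))) .nil)))),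
 (.br (nat_lit 1) (nat_lit 0) (.cons (.rf (nat_lit 129) (nat_lit 14242959524133701664)) (.cons (.rf (nat_lit 131) (nat_lit 14242959524133701664)) (.cons (.rf (nat_lit 132) (nat_lit 14242959524133701664)) (.cons (.br (nat_lit 1) (nat_lit 0) (.cons (.kr (nat_lit 1208925891953698189344770) (nat_lit 4740813228042866393600) (nat_lit 0) (nat_lit 2)) (.cons (.ev (nat_lit 4740813509517859881216) (nat_lit 1)) (.cons (.rf (nat_lit 132) (nat_lit 14242959524133701664)) .nil)))) .nil))))),
 (.br (nat_lit 1) (nat_lit 0) (.cons (.rf (nat_lit 128) (nat_lit 445092485129144352)) (.cons (.rf (nat_lit 131) (nat_lit 14242959524133701664)) (.cons (.rf (nat_lit 133) (nat_lit 14242959524133701664)) (.cons (.br (nat_lit 1) (nat_lit 0) (.cons (.rf (nat_lit 14) (nat_lit 144316484126721)) (.cons (.rf (nat_lit 127) (nat_lit 83642295689260033)) (.cons (.rf (nat_lit 133) (nat_lit 14242959524133701664)) .nil)))) .nil))))),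
 (.br (nat_lit 10) (nat_lit 0) (.cons (.br (nat_lit 1) (nat_lit 0) (.cons (.rf (nat_lit 129) (nat_lit 14242959524133701664)) (.cons (.rf (nat_lit 131) (nat_lit 14242959524133701664)) (.cons (.rf (nat_lit 133) (nat_lit 14242959524133701664)) (.cons (.rf (nat_lit 134) (nat_lit 14242959524133701664)) (.cons (.br (nat_lit 1) (nat_lit 0) (.cons (.rf (nat_lit 129) (nat_lit 14242959524133701664)) (.cons (.rf (nat_lit 131) (nat_lit 14242959524133701664)) (.cons (.rf (nat_lit 133) (nat_lit 14242959524133701664)) (.cons (.rf (nat_lit 134) (nat_lit 14242959524133701664)) .nil))))) .nil)))))) .nil)),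
 (.br (nat_lit 8) (nat_lit 0) (.cons (.br (nat_lit 4) (nat_lit 1) (.cons (.rf (nat_lit 135) (nat_lit 14242959524133701664)) (.cons (.rf (nat_lit 135) (nat_lit 14241868808598947872)) .nil))) (.cons (.rf (nat_lit 31) (nat_lit 4937125277633890)) (.cons (.rf (nat_lit 11) (nat_lit 116865260269922)) .nil)))),
 (.br (nat_lit 1) (nat_lit 0) (.cons (.br (nat_lit 1) (nat_lit 0) (.cons (.kr (nat_lit 1) (nat_lit 256) (nat_lit 0) (nat_lit 2)) (.cons (.rf (nat_lit 64) (nat_lit 11584701650274305)) (.cons (.kr (nat_lit 4722438821938659852290) (nat_lit 1208944266359802395886080) (nat_lit 0) (nat_lit 2)) .nil)))) (.cons (.br (nat_lit 1) (nat_lit 0) (.cons (.kr (nat_lit 1) (nat_lit 256) (nat_lit 0) (nat_lit 2)) (.cons (.rf (nat_lit 73) (nat_lit 119671092700088321)) (.cons (.kr (nat_lit 1208925891953698189344770) (nat_lit 4740813228042866393600) (nat_lit 0) (nat_lit 2)) .nil)))) (.cons (.rf (nat_lit 128) (nat_lit 445092485129144352)) (.cons (.br (nat_lit 1) (nat_lit 0) (.cons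 (.kr (nat_lit 4722438821938659852290) (nat_lit 1208944266359802395886080) (nat_lit 0) (nat_lit 2)) (.cons (.kr (nat_lit 1208925891953698189344770) (nat_lit 4740813228042866393600) (nat_lit 0) (nat_lit 2)) (.cons (.rf (nat_lit 64) (nat_lit 11583635459508225)) .nil)))) .nil))))),
 (.br (nat_lit 1) (nat_lit 0) (.cons (.kr (nat_lit 1) (nat_lit 256) (nat_lit 0) (nat_lit 2)) (.cons (.ev (nat_lit 4740885566016681148673) (nat_lit 1)) (.cons (.br (nat_lit 2) (nat_lit 0) (.cons (.br (nat_lit 11) (nat_lit 0) (.cons (.zr (nat_lit 316912650075576434633658597380) (nat_lit 3640944558292496460154368) (nat_lit 10) (nat_lit 1)) .nil)) (.cons (.rf (nat_lit 22) (nat_lit 13258263584)) .nil))) .nil)))),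
 (.br (nat_lit 1) (nat_lit 0) (.cons (.rf (nat_lit 137) (nat_lit 14242959524133701664)) (.cons (.rf (nat_lit 138) (nat_lit 14242959524133701664)) (.cons (.br (nat_lit 1) (nat_lit 0) (.cons (.rf (nat_lit 64) (nat_lit 11584701650274305)) (.cons (.ev (nat_lit 4740885566016681148673) (nat_lit 1)) (.cons (.rf (nat_lit 127) (nat_lit 83642295689260033)) .nil)))) (.cons (.br (nat_lit 1) (nat_lit 0) (.cons (.kr (nat_lit 4722438821938659852290) (nat_lit 1208944266359802395886080) (nat_lit 0) (nat_lit 2)) (.cons (.rf (nat_lit 138) (nat_lit 14242959524133701664)) (.cons (.rf (nat_lit 127) (nat_lit 83642295689260033)) .nil)))) .nil))))),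
 (.br (nat_lit 1) (nat_lit 0) (.cons (.rf (nat_lit 137) (nat_lit 14242959524133701664)) (.cons (.rf (nat_lit 139) (nat_lit 14242959524133701664)) (.cons (.br (nat_lit 1) (nat_lit 0) (.cons (.rf (nat_lit 73) (nat_lit 119671092700088321)) (.cons (.ev (nat_lit 4740885566016681148673) (nat_lit 1)) (.cons (.rf (nat_lit 136) (nat_lit 3542405743309630465)) .nil)))) (.cons (.br (nat_lit 1) (nat_lit 0) (.cons (.kr (nat_lit 1208925891953698189344770) (nat_lit 4740813228042866393600) (nat_lit 0) (nat_lit 2)) (.cons (.rf (nat_lit 139) (nat_lit 14242959524133701664)) (.cons (.rf (nat_lit 136) (nat_lit 3542405743309630465)) .nil)))) .nil))))),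
 (.br (nat_lit 1) (nat_lit 0) (.cons (.rf (nat_lit 128) (nat_lit 445092485129144352)) (.cons (.rf (nat_lit 139) (nat_lit 14242959524133701664)) (.cons (.rf (nat_lit 140) (nat_lit 14242959524133701664)) (.cons (.br (nat_lit 1) (nat_lit 0) (.cons (.rf (nat_lit 64) (nat_lit 11583635459508225)) (.cons (.rf (nat_lit 127) (nat_lit 83642295689260033)) (.cons (.rf (nat_lit 136) (nat_lit 3542405743309630465)) .nil)))) .nil))))),
 (.br (nat_lit 4) (nat_lit 1) (.cons (.br (nat_lit 1) (nat_lit 0) (.cons (.rf (nat_lit 137) (nat_lit 14242959524133701664)) (.cons (.rf (nat_lit 139) (nat_lit 14242959524133701664)) (.cons (.rf (nat_lit 140) (nat_lit 14242959524133701664)) (.cons (.rf (nat_lit 141) (nat_lit 14242959524133701664)) (.cons (.br (nat_lit 1) (nat_lit 0) (.cons (.rf (nat_lit 137) (nat_lit 14242959524133701664)) (.cons (.rf (nat_lit 139) (nat_lit 14242959524133701664)) (.cons (.rf (nat_lit 140) (nat_lit 14242959524133701664)) (.cons (.rf (nat_lit 141) (nat_lit 14242959524133701664))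 .nil))))) .nil)))))) .nil)),
 (.br (nat_lit 6) (nat_lit 0) (.cons (.rf (nat_lit 10) (nat_lit 11313185205346)) (.cons (.rf (nat_lit 127) (nat_lit 407901468851537952)) (.cons (.br (nat_lit 7) (nat_lit 0) (.cons (.rf (nat_lit 11) (nat_lit 433525650263394)) (.cons (.rf (nat_lit 136) (nat_lit 14242959524133701664)) (.cons (.br (nat_lit 8) (nat_lit 0) (.cons (.rf (nat_lit 12) (nat_lit 433525650263394)) (.cons (.br (nat_lit 3) (nat_lit 1) (.cons (.rf (nat_lit 142) (nat_lit 14242959524133701664)) (.cons (.rf (nat_lit 142) (nat_lit 14241868808598947872)) .nil))) .nil))) .nil)))) .nil)))),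
 (.br (nat_lit 5) (nat_lit 0) (.cons (.rf (nat_lit 64) (nat_lit 11584701642934304)) (.cons (.br (nat_lit 6) (nat_lit 0) (.cons (.rf (nat_lit 73) (nat_lit 407901468851537952)) (.cons (.rf (nat_lit 127) (nat_lit 407901468851537952)) (.cons (.rf (nat_lit 143) (nat_lit 407901468851537952)) (.cons (.br (nat_lit 6) (nat_lit 0) (.cons (.rf (nat_lit 73) (nat_lit 407901468851537952)) (.cons (.rf (nat_lit 127) (nat_lit 407901468851537952)) (.cons (.rf (nat_lit 143) (nat_lit 407901468851537952)) .nil)))) .nil))))) .nil))),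
 (.br (nat_lit 6) (nat_lit 0) (.cons (.rf (nat_lit 144) (nat_lit 11583635450857504)) (.cons (.rf (nat_lit 144) (nat_lit 11583635449841696)) (.cons (.rf (nat_lit 10) (nat_lit 11313185206626)) .nil)))),
 (.br (nat_lit 8) (nat_lit 1) (.cons (.br (nat_lit 9) (nat_lit 1) (.cons (.br (nat_lit 5) (nat_lit 0) (.cons (.rf (nat_lit 144) (nat_lit 11584701642934304)) (.cons (.rf (nat_lit 144) (nat_lit 11584701641918496)) (.cons (.br (nat_lit 5) (nat_lit 0) (.cons (.rf (nat_lit 144) (nat_lit 11584701642934304)) (.cons (.rf (nat_lit 144) (nat_lit 11584701641918496)) (.cons (.br (nat_lit 6) (nat_lit 0) (.cons (.rf (nat_lit 144) (nat_lit 11583635450857504)) (.cons (.rf (nat_lit 144) (nat_lit 11583635449841696)) (.cons (.rf (nat_lit 145) (nat_lit 14242959524133701664)) (.cons (.rf (nat_lit 145) (nat_lit 13126066816545818656)) .nil))))) .nil)))) .nil)))) .nil)) .nil))]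

theorem c3 : chkAll C T R L3 (nat_lit 117) = true := by decide +kernel

theorem l3 : (nat_lit 117) + L3.length = (nat_lit 147) := by decide +kernel

/-- part of the certificates -/
def L4 : List Prf := [(.br (nat_lit 5) (nat_lit 1) (.cons (.rf (nat_lit 6) (nat_lit 6306)) (.cons (.br (nat_lit 6) (nat_lit 1) (.cons (.rf (nat_lit 7) (nat_lit 7365)) (.cons (.br (nat_lit 7) (nat_lit 1) (.cons (.rf (nat_lit 8) (nat_lit 269509)) (.cons (.br (nat_lit 7) (nat_lit 1) (.cons (.rf (nat_lit 8) (nat_lit 269509)) (.cons (.br (nat_lit 8) (nat_lit 1) (.cons (.rf (nat_lit 146) (nat_lit 11584701642934304)) (.cons (.rf (nat_lit 146) (nat_lit 10493986108180512)) .nil))) .nil))) .nil))) .nil))) .nil))),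
 (.br (nat_lit 10) (nat_lit 0) (.cons (.rf (nat_lit 22) (nat_lit 10036054048)) .nil)),
 (.br (nat_lit 8) (nat_lit 1) (.cons (.br (nat_lit 8) (nat_lit 1) .nil) .nil)),
 (.br (nat_lit 1) (nat_lit 0) (.cons (.kr (nat_lit 1) (nat_lit 256) (nat_lit 0) (nat_lit 2)) (.cons (.br (nat_lit 4) (nat_lit 0) (.cons (.br (nat_lit 9) (nat_lit 1) (.cons (.rf (nat_lit 148) (nat_lit 11584701642934304)) (.cons (.br (nat_lit 9) (nat_lit 1) (.cons (.rf (nat_lit 148) (nat_lit 12710601549776928)) .nil)) .nil))) (.cons (.br (nat_lit 9) (nat_lit 0) (.cons (.br (nat_lit 9) (nat_lit 1) (.cons (.br (nat_lit 9) (nat_lit 1) (.cons (.rf (nat_lit 149) (nat_lit 433525650264162)) .nil)) (.cons (.rf (nat_lit 149) (nat_lit 398341278175330)) .nil))) .nil)) .nil))) .nil))),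
 (.br (nat_lit 8) (nat_lit 1) (.cons (.br (nat_lit 8) (nat_lit 1) (.cons (.rf (nat_lit 149) (nat_lit 397206298430529)) .nil)) (.cons (.rf (nat_lit 149) (nat_lit 362021926341697)) .nil))),
 (.br (nat_lit 1) (nat_lit 0) (.cons (.rf (nat_lit 150) (nat_lit 9043225708576)) (.cons (.rf (nat_lit 150) (nat_lit 7978072803360)) (.cons (.br (nat_lit 1) (nat_lit 0) (.cons (.rf (nat_lit 150) (nat_lit 9043225708576)) (.cons (.rf (nat_lit 150) (nat_lit 7978072803360)) (.cons (.rf (nat_lit 151) (nat_lit 327937065880641)) .nil)))) .nil)))),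
 (.br (nat_lit 4) (nat_lit 1) (.cons (.rf (nat_lit 147) (nat_lit 8760922144)) (.cons (.br (nat_lit 1) (nat_lit 0) (.cons (.rf (nat_lit 152) (nat_lit 9043225708576)) (.cons (.rf (nat_lit 152) (nat_lit 9009939680288)) (.cons (.rf (nat_lit 152) (nat_lit 7911500746784)) (.cons (.br (nat_lit 1) (nat_lit 0) (.cons (.rf (nat_lit 152) (nat_lit 9043225708576)) (.cons (.rf (nat_lit 152) (nat_lit 9009939680288)) (.cons (.rf (nat_lit 152) (nat_lit 7911500746784)) (.cons (.rf (nat_lit 151) (nat_lit 327937065880641)) .nil))))) .nil))))) .nil))),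
 (.br (nat_lit 5) (nat_lit 1) (.cons (.br (nat_lit 8) (nat_lit 1) (.cons (.kr (nat_lit 1208944266358702901035008) (nat_lit 72058697844523008) (nat_lit 3) (nat_lit 0)) .nil)) .nil)),
 (.br (nat_lit 7) (nat_lit 1) (.cons (.rf (nat_lit 8) (nat_lit 168163)) (.cons (.rf (nat_lit 8) (nat_lit 266467)) (.cons (.br (nat_lit 5) (nat_lit 1) (.cons (.rf (nat_lit 154) (nat_lit 11584701642934304)) (.cons (.br (nat_lit 5) (nat_lit 1) (.cons (.rf (nat_lit 154) (nat_lit 11584701642934304)) .nil)) .nil))) .nil)))),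
 (.br (nat_lit 4) (nat_lit 1) (.cons (.rf (nat_lit 7) (nat_lit 4323)) (.cons (.rf (nat_lit 155) (nat_lit 11584701642934304)) (.cons (.rf (nat_lit 155) (nat_lit 9088810247889952)) .nil)))),
 (.br (nat_lit 1) (nat_lit 0) (.cons (.rf (nat_lit 147) (nat_lit 5475733505)) .nil)),
 (.br (nat_lit 1) (nat_lit 0) (.cons (.rf (nat_lit 157) (nat_lit 241340448)) (.cons (.br (nat_lit 1) (nat_lit 0) (.cons (.rf (nat_lit 157) (nat_lit 241340448)) .nil)) .nil))),
 (.br (nat_lit 1) (nat_lit 0) (.cons (.rf (nat_lit 157) (nat_lit 137434144)) .nil)),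
 (.br (nat_lit 1) (nat_lit 0) (.cons (.br (nat_lit 1) (nat_lit 0) .nil) .nil)),
 (.br (nat_lit 7) (nat_lit 1) (.cons (.br (nat_lit 10) (nat_lit 1) (.cons (.br (nat_lit 3) (nat_lit 0) (.cons (.ev (nat_lit 1208925819896104168194049) (nat_lit 1)) (.cons (.br (nat_lit 1) (nat_lit 0) (.cons (.rf (nat_lit 158) (nat_lit 13909140091013152)) (.cons (.rf (nat_lit 159) (nat_lit 9704480)) (.cons (.rf (nat_lit 158) (nat_lit 11413248703301664)) .nil)))) (.cons (.rf (nat_lit 90) (nat_lit 12818322550754336)) (.cons (.br (nat_lit 8) (nat_lit 0) (.cons (.rf (nat_lit 159) (nat_lit 9704480)) (.cons (.kr (nat_lit 4722438823038171480064) (nat_lit 79229371476977440370137759744) (nat_lit 5) (nat_lit 0)) (.cons (.rf (nat_lit 20) (nat_lit 8522784)) (.cons (.br (nat_lit 2) (nat_lit 0) (.cons (.br (nat_lit 4) (nat_lit 0) (.cons (.br (nat_lit 1) (nat_lit 0) (.cons (.zr (nat_lit 618970019642694544119562496) (nat_lit 1208981231904444341485570) (nat_lit 5) (nat_lit 8)) .nil)) (.cons (.ev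 (nat_lit 310693972535012998640762881) (nat_lit 2)) .nil))) (.cons (.rf (nat_lit 39) (nat_lit 12083858464)) (.cons (.rf (nat_lit 160) (nat_lit 377587744)) .nil)))) .nil))))) (.cons (.br (nat_lit 11) (nat_lit 0) (.cons (.br (nat_lit 1) (nat_lit 0) (.cons (.rf (nat_lit 93) (nat_lit 405757390038830112)) (.cons (.br (nat_lit 1) (nat_lit 0) (.cons (.kr (nat_lit 79228167236631101938165874690) (nat_lit 1208925891673322724262400) (nat_lit 0) (nat_lit 2)) (.cons (.rf (nat_lit 159) (nat_lit 9704480)) .nil))) (.cons (.rf (nat_lit 159) (nat_lit 9704480)) .nil)))) (.cons (.rf (nat_lit 20) (nat_lit 11634720)) (.cons (.rf (nat_lit 20) (nat_lit 11668512)) (.cons (.br (nat_lit 8) (nat_lit 0) (.cons (.rf (nat_lit 159) (nat_lit 9704480)) (.cons (.kr (nat_lit 4722366764344621924352) (nat_lit 1208944266358702884257792) (nat_lit 6) (nat_lit 0)) (.cons (.rf (nat_lit 160) (nat_lit 377621536)) .nil)))) .nil))))) .nil)))))) .nil)) .nil)),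
 (.br (nat_lit 6) (nat_lit 1) (.cons (.rf (nat_lit 156) (nat_lit 13909140160286818)) (.cons (.rf (nat_lit 7) (nat_lit 6437)) (.cons (.br (nat_lit 9) (nat_lit 1) (.cons (.br (nat_lit 7) (nat_lit 1) (.cons (.rf (nat_lit 161) (nat_lit 14242959524133701664)) (.cons (.br (nat_lit 7) (nat_lit 1) (.cons (.rf (nat_lit 161) (nat_lit 14242959524133701664)) .nil)) .nil))) (.cons (.rf (nat_lit 8) (nat_lit 334117)) (.cons (.rf (nat_lit 8) (nat_lit 399653)) .nil)))) .nil)))),
 (.br (nat_lit 6) (nat_lit 1) (.cons (.rf (nat_lit 156) (nat_lit 13909140160286818)) (.cons (.rf (nat_lit 7) (nat_lit 6437)) (.cons (.rf (nat_lit 162) (nat_lit 14242959524133701664)) (.cons (.br (nat_lit 6) (nat_lit 1) (.cons (.rf (nat_lit 156) (nat_lit 13909140160286818)) (.cons (.rf (nat_lit 7) (nat_lit 6437)) (.cons (.rf (nat_lit 162) (nat_lit 14242959524133701664)) .nil)))) .nil))))),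
 (.br (nat_lit 1) (nat_lit 0) (.cons (.ev (nat_lit 1208925891672223212699649) (nat_lit 1)) (.cons (.ev (nat_lit 72339073309605889) (nat_lit 1)) (.cons (.rf (nat_lit 159) (nat_lit 9704480)) (.cons (.br (nat_lit 1) (nat_lit 0) (.cons (.ev (nat_lit 1208925891672223212699649) (nat_lit 1)) (.cons (.ev (nat_lit 72339073309605889) (nat_lit 1)) (.cons (.rf (nat_lit 159) (nat_lit 9704480)) .nil)))) .nil))))),
 (.br (nat_lit 7) (nat_lit 1) (.cons (.br (nat_lit 10) (nat_lit 1) (.cons (.br (nat_lit 1) (nat_lit 0) (.cons (.ev (nat_lit 1208925891672223212699649) (nat_lit 1)) (.cons (.rf (nat_lit 164) (nat_lit 407901468851537952)) (.cons (.ev (nat_lit 72339073309605889) (nat_lit 1)) (.cons (.rf (nat_lit 159) (nat_lit 9704480)) (.cons (.br (nat_lit 1) (nat_lit 0) (.cons (.ev (nat_lit 1208925891672223212699649) (nat_lit 1)) (.cons (.rf (nat_lit 164) (nat_lit 407901468851537952)) (.cons (.ev (nat_lit 72339073309605889) (nat_lit 1)) (.cons (.rf (nat_lit 159) (nat_lit 9704480))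 .nil))))) .nil)))))) .nil)) .nil)),
 (.br (nat_lit 6) (nat_lit 1) (.cons (.rf (nat_lit 8) (nat_lit 333993)) (.cons (.br (nat_lit 7) (nat_lit 1) (.cons (.rf (nat_lit 165) (nat_lit 407901468851537952)) (.cons (.br (nat_lit 7) (nat_lit 1) (.cons (.rf (nat_lit 165) (nat_lit 407901468851537952)) .nil)) .nil))) .nil))),
 (.br (nat_lit 6) (nat_lit 1) (.cons (.rf (nat_lit 166) (nat_lit 11584701642934304)) (.cons (.rf (nat_lit 8) (nat_lit 333993)) (.cons (.br (nat_lit 6) (nat_lit 1) (.cons (.rf (nat_lit 166) (nat_lit 11584701642934304)) (.cons (.rf (nat_lit 8) (nat_lit 333993)) .nil))) .nil)))),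
 (.br (nat_lit 1) (nat_lit 0) (.cons (.kr (nat_lit 1) (nat_lit 256) (nat_lit 0) (nat_lit 2)) (.cons (.ev (nat_lit 1208925819615728703176961) (nat_lit 1)) (.cons (.br (nat_lit 4) (nat_lit 0) (.cons (.br (nat_lit 8) (nat_lit 0) (.cons (.zr (nat_lit 18889465931487204475392) (nat_lit 80157826506441476675823730691) (nat_lit 5) (nat_lit 0)) .nil)) (.cons (.rf (nat_lit 22) (nat_lit 12082874400)) .nil))) .nil)))),
 (.br (nat_lit 1) (nat_lit 0) (.cons (.rf (nat_lit 168) (nat_lit 14242959524133701664)) (.cons (.br (nat_lit 1) (nat_lit 0) (.cons (.kr (nat_lit 1) (nat_lit 256) (nat_lit 0) (nat_lit 2)) (.cons (.rf (nat_lit 159) (nat_lit 9704480)) (.cons (.ev (nat_lit 1213648258156196664443136) (nat_lit 1)) .nil)))) (.cons (.rf (nat_lit 159) (nat_lit 9704480)) (.cons (.br (nat_lit 1) (nat_lit 0) (.cons (.rf (nat_lit 168) (nat_lit 14242959524133701664)) (.cons (.ev (nat_lit 1213648258156196664443136) (nat_lit 1)) (.cons (.rf (nat_lit 159) (nat_lit 9704480)) .nil)))) .nil))))),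
 (.br (nat_lit 1) (nat_lit 0) (.cons (.ev (nat_lit 79228162514264619072815628544) (nat_lit 1)) (.cons (.ev (nat_lit 79228162514336395191876845824) (nat_lit 1)) (.cons (.rf (nat_lit 159) (nat_lit 9704480)) .nil)))),
 (.br (nat_lit 6) (nat_lit 1) (.cons (.br (nat_lit 7) (nat_lit 1) (.cons (.br (nat_lit 1) (nat_lit 0) (.cons (.rf (nat_lit 169) (nat_lit 14242959524133701664)) (.cons (.rf (nat_lit 169) (nat_lit 14242959490847673376)) (.cons (.br (nat_lit 1) (nat_lit 0) (.cons (.rf (nat_lit 169) (nat_lit 14242959524133701664)) (.cons (.rf (nat_lit 169) (nat_lit 14242959490847673376)) (.cons (.rf (nat_lit 159) (nat_lit 9704480)) (.cons (.rf (nat_lit 170) (nat_lit 14242959524133701664)) .nil))))) (.cons (.rf (nat_lit 159) (nat_lit 9704480)) (.cons (.br (nat_lit 1) (nat_lit 0) (.cons (.rf (nat_lit 169) (nat_lit 14242959524133701664)) (.cons (.rf (nat_lit 169) (nat_lit 14242959490847673376)) (.cons (.rf (nat_lit 170) (nat_lit 14242959524133701664)) (.cons (.rf (nat_lit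 159) (nat_lit 9704480)) .nil))))) .nil)))))) .nil)) .nil)),
 (.br (nat_lit 10) (nat_lit 1) (.cons (.br (nat_lit 6) (nat_lit 1) (.cons (.rf (nat_lit 171) (nat_lit 14242959524133701664)) (.cons (.br (nat_lit 6) (nat_lit 1) (.cons (.rf (nat_lit 171) (nat_lit 14242959524133701664)) .nil)) .nil))) (.cons (.rf (nat_lit 8) (nat_lit 403749)) .nil))),
 (.br (nat_lit 9) (nat_lit 1) (.cons (.rf (nat_lit 167) (nat_lit 11584701642934304)) (.cons (.rf (nat_lit 167) (nat_lit 11584668356906016)) (.cons (.rf (nat_lit 7) (nat_lit 10533)) (.cons (.br (nat_lit 10) (nat_lit 1) (.cons (.rf (nat_lit 172) (nat_lit 14242959524133701664)) (.cons (.rf (nat_lit 172) (nat_lit 14242959490847673376)) (.cons (.rf (nat_lit 8) (nat_lit 403749)) .nil)))) .nil))))),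
 (.br (nat_lit 1) (nat_lit 0) (.cons (.br (nat_lit 1) (nat_lit 0) (.cons (.kr (nat_lit 1) (nat_lit 256) (nat_lit 0) (nat_lit 2)) (.cons (.rf (nat_lit 159) (nat_lit 9704480)) (.cons (.ev (nat_lit 1213648186380073308324096) (nat_lit 1)) .nil)))) (.cons (.br (nat_lit 1) (nat_lit 0) (.cons (.kr (nat_lit 1) (nat_lit 256) (nat_lit 0) (nat_lit 2)) (.cons (.rf (nat_lit 159) (nat_lit 9704480)) (.cons (.ev (nat_lit 4722438823038171545856) (nat_lit 1)) .nil)))) (.cons (.rf (nat_lit 159) (nat_lit 9704480)) (.cons (.rf (nat_lit 170) (nat_lit 14238315291303087136)) .nil))))),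
 (.br (nat_lit 1) (nat_lit 0) (.cons (.rf (nat_lit 174) (nat_lit 14242959524133701664)) (.cons (.br (nat_lit 1) (nat_lit 0) (.cons (.kr (nat_lit 1) (nat_lit 256) (nat_lit 0) (nat_lit 2)) (.cons (.rf (nat_lit 159) (nat_lit 9704480)) (.cons (.kr (nat_lit 79228167236702878057227091970) (nat_lit 1208925819897203663045120) (nat_lit 0) (nat_lit 2)) .nil)))) (.cons (.rf (nat_lit 159) (nat_lit 9704480)) (.cons (.br (nat_lit 1) (nat_lit 0) (.cons (.ev (nat_lit 1213648186380073308324096) (nat_lit 1)) (.cons (.kr (nat_lit 79228167236702878057227091970) (nat_lit 1208925819897203663045120) (nat_lit 0) (nat_lit 2)) (.cons (.rf (nat_lit 159) (nat_lit 9704480)) .nil)))) .nil))))),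
 (.br (nat_lit 1) (nat_lit 0) (.cons (.rf (nat_lit 174) (nat_lit 14242959524133701664)) (.cons (.rf (nat_lit 175) (nat_lit 14242959524133701664)) (.cons (.rf (nat_lit 159) (nat_lit 9704480)) (.cons (.br (nat_lit 1) (nat_lit 0) (.cons (.ev (nat_lit 4722438823038171545856) (nat_lit 1)) (.cons (.kr (nat_lit 79228167236702878057227091970) (nat_lit 1208925819897203663045120) (nat_lit 0) (nat_lit 2)) (.cons (.rf (nat_lit 159) (nat_lit 9704480)) .nil)))) .nil))))),
 (.br (nat_lit 7) (nat_lit 1) (.cons (.br (nat_lit 10) (nat_lit 1) (.cons (.br (nat_lit 1) (nat_lit 0) (.cons (.rf (nat_lit 174) (nat_lit 14242959524133701664)) (.cons (.rf (nat_lit 175) (nat_lit 14242959524133701664)) (.cons (.rf (nat_lit 176) (nat_lit 14242959524133701664)) (.cons (.rf (nat_lit 159) (nat_lit 9704480)) (.cons (.br (nat_lit 1) (nat_lit 0) (.cons (.rf (nat_lit 170) (nat_lit 14238315291303087136)) (.cons (.rf (nat_lit 175) (nat_lit 14242959524133701664)) (.cons (.rf (nat_lit 176) (nat_lit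 14242959524133701664)) (.cons (.rf (nat_lit 159) (nat_lit 9704480)) .nil))))) .nil)))))) .nil)) .nil)),
 (.br (nat_lit 6) (nat_lit 1) (.cons (.br (nat_lit 7) (nat_lit 1) (.cons (.rf (nat_lit 177) (nat_lit 14242959524133701664)) (.cons (.br (nat_lit 7) (nat_lit 1) (.cons (.rf (nat_lit 177) (nat_lit 14242959524133701664)) .nil)) .nil))) (.cons (.rf (nat_lit 8) (nat_lit 399529)) .nil))),
 (.br (nat_lit 6) (nat_lit 1) (.cons (.rf (nat_lit 178) (nat_lit 14242959524133701664)) (.cons (.br (nat_lit 6) (nat_lit 1) (.cons (.rf (nat_lit 178) (nat_lit 14242959524133701664)) (.cons (.rf (nat_lit 8) (nat_lit 399529)) .nil))) (.cons (.rf (nat_lit 8) (nat_lit 399529)) .nil)))),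
 (.br (nat_lit 1) (nat_lit 0) (.cons (.br (nat_lit 1) (nat_lit 0) (.cons (.kr (nat_lit 1) (nat_lit 256) (nat_lit 0) (nat_lit 2)) (.cons (.rf (nat_lit 159) (nat_lit 9704480)) (.cons (.rf (nat_lit 173) (nat_lit 11687166735608285185)) .nil)))) (.cons (.br (nat_lit 1) (nat_lit 0) (.cons (.kr (nat_lit 1) (nat_lit 256) (nat_lit 0) (nat_lit 2)) (.cons (.rf (nat_lit 159) (nat_lit 9704480)) (.cons (.kr (nat_lit 79228167236631101938165874690) (nat_lit 1208925891673322724262400) (nat_lit 0) (nat_lit 2)) .nil)))) (.cons (.rf (nat_lit 159) (nat_lit 9704480)) (.cons (.br (nat_lit 1) (nat_lit 0) (.cons (.rf (nat_lit 173) (nat_lit 11687166735608285185)) (.cons (.kr (nat_lit 79228167236631101938165874690) (nat_lit 1208925891673322724262400) (nat_lit 0) (nat_lit 2)) (.cons (.rf (nat_lit 159) (nat_lit 9704480)) .nil)))) .nil))))),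
 (.br (nat_lit 1) (nat_lit 0) (.cons (.rf (nat_lit 180) (nat_lit 14242959524133701664)) (.cons (.rf (nat_lit 180) (nat_lit 14242959490847673376)) (.cons (.rf (nat_lit 159) (nat_lit 9704480)) (.cons (.br (nat_lit 1) (nat_lit 0) (.cons (.kr (nat_lit 79228167236631101938165874690) (nat_lit 1208925891673322724262400) (nat_lit 0) (nat_lit 2)) (.cons (.kr (nat_lit 79228167236702878057227091970) (nat_lit 1208925819897203663045120) (nat_lit 0) (nat_lit 2)) (.cons (.rf (nat_lit 159) (nat_lit 9704480)) .nil)))) .nil))))),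
 (.br (nat_lit 6) (nat_lit 1) (.cons (.br (nat_lit 7) (nat_lit 1) (.cons (.br (nat_lit 1) (nat_lit 0) (.cons (.rf (nat_lit 180) (nat_lit 14242959524133701664)) (.cons (.rf (nat_lit 180) (nat_lit 14242959490847673376)) (.cons (.rf (nat_lit 181) (nat_lit 14242959524133701664)) (.cons (.rf (nat_lit 159) (nat_lit 9704480)) (.cons (.br (nat_lit 1) (nat_lit 0) (.cons (.rf (nat_lit 180) (nat_lit 14242959524133701664)) (.cons (.rf (nat_lit 180) (nat_lit 14242959490847673376)) (.cons (.rf (nat_lit 181) (nat_lit 14242959524133701664)) (.cons (.rf (nat_lit 159) (nat_lit 9704480)) .nil))))) .nil)))))) .nil)) .nil)),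
 (.br (nat_lit 10) (nat_lit 1) (.cons (.br (nat_lit 6) (nat_lit 1) (.cons (.rf (nat_lit 182) (nat_lit 14242959524133701664)) (.cons (.br (nat_lit 6) (nat_lit 1) (.cons (.rf (nat_lit 182) (nat_lit 14242959524133701664)) .nil)) .nil))) (.cons (.rf (nat_lit 8) (nat_lit 403625)) .nil))),
 (.br (nat_lit 8) (nat_lit 0) (.cons (.rf (nat_lit 151) (nat_lit 116864084838432)) .nil)),
 (.br (nat_lit 4) (nat_lit 1) (.cons (.br (nat_lit 8) (nat_lit 1) (.cons (.br (nat_lit 9) (nat_lit 0) (.cons (.br (nat_lit 11) (nat_lit 1) (.cons (.br (nat_lit 5) (nat_lit 1) (.cons (.rf (nat_lit 163) (nat_lit 14242959524133701664)) (.cons (.rf (nat_lit 163) (nat_lit 14242959490847673376)) (.cons (.rf (nat_lit 6) (nat_lit 9384)) (.cons (.rf (nat_lit 173) (nat_lit 14242959524133701664)) (.cons (.br (nat_lit 9) (nat_lit 1) (.cons (.rf (nat_lit 179) (nat_lit 14242959524133701664)) (.cons (.rf (nat_lit 179) (nat_lit 14242959490847673376)) (.cons (.br (nat_lit 10) (nat_lit 1) (.cons (.rf (nat_lit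 183) (nat_lit 14242959524133701664)) (.cons (.rf (nat_lit 183) (nat_lit 14242959490847673376)) (.cons (.rf (nat_lit 8) (nat_lit 403625)) .nil)))) (.cons (.rf (nat_lit 7) (nat_lit 12581)) .nil))))) .nil)))))) .nil)) .nil)) (.cons (.rf (nat_lit 184) (nat_lit 397206298430528)) .nil))) .nil)),
 (.br (nat_lit 3) (nat_lit 1) (.cons (.rf (nat_lit 159) (nat_lit 7443457)) (.cons (.br (nat_lit 5) (nat_lit 0) (.cons (.rf (nat_lit 153) (nat_lit 247132686368)) (.cons (.br (nat_lit 4) (nat_lit 1) (.cons (.rf (nat_lit 185) (nat_lit 325702574508064)) (.cons (.br (nat_lit 4) (nat_lit 1) (.cons (.rf (nat_lit 185) (nat_lit 360886946596896)) (.cons (.br (nat_lit 8) (nat_lit 1) (.cons (.br (nat_lit 11) (nat_lit 0) (.cons (.br (nat_lit 11) (nat_lit 0) .nil) .nil)) .nil)) .nil))) .nil))) .nil))) .nil))),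
 (.br (nat_lit 1) (nat_lit 0) (.cons (.kr (nat_lit 1) (nat_lit 256) (nat_lit 0) (nat_lit 2)) (.cons (.rf (nat_lit 159) (nat_lit 6525984)) (.cons (.rf (nat_lit 159) (nat_lit 6558752)) .nil)))),
 (.br (nat_lit 1) (nat_lit 0) (.cons (.rf (nat_lit 187) (nat_lit 9043225708576)) (.cons (.rf (nat_lit 187) (nat_lit 9043224692768)) (.cons (.rf (nat_lit 159) (nat_lit 6525984)) (.cons (.rf (nat_lit 159) (nat_lit 6558752)) .nil))))),
 (.br (nat_lit 3) (nat_lit 1) (.cons (.rf (nat_lit 159) (nat_lit 7443457)) (.cons (.br (nat_lit 5) (nat_lit 0) (.cons (.rf (nat_lit 186) (nat_lit 6613501984)) (.cons (.br (nat_lit 5) (nat_lit 0) (.cons (.rf (nat_lit 186) (nat_lit 6613501984)) (.cons (.br (nat_lit 4) (nat_lit 1) (.cons (.rf (nat_lit 186) (nat_lit 8827046944)) (.cons (.br (nat_lit 4) (nat_lit 1) (.cons (.rf (nat_lit 186) (nat_lit 8827046944)) (.cons (.br (nat_lit 9) (nat_lit 1) (.cons (.br (nat_lit 7) (nat_lit 0) (.cons (.br (nat_lit 1) (nat_lit 0) (.cons (.rf (nat_lit 188)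 (nat_lit 11312042182688)) (.cons (.rf (nat_lit 188) (nat_lit 11312042150944)) (.cons (.rf (nat_lit 188) (nat_lit 11312041103392)) (.cons (.rf (nat_lit 159) (nat_lit 7640096)) (.cons (.rf (nat_lit 159) (nat_lit 7672864)) .nil)))))) .nil)) .nil)) .nil))) .nil))) .nil))) .nil))) .nil))),
 (.br (nat_lit 2) (nat_lit 1) (.cons (.rf (nat_lit 159) (nat_lit 6362113)) (.cons (.br (nat_lit 3) (nat_lit 1) (.cons (.rf (nat_lit 186) (nat_lit 6614517792)) (.cons (.rf (nat_lit 189) (nat_lit 247132686368)) (.cons (.br (nat_lit 3) (nat_lit 1) (.cons (.rf (nat_lit 186) (nat_lit 6614517792)) (.cons (.rf (nat_lit 189) (nat_lit 281492424736)) (.cons (.br (nat_lit 5) (nat_lit 0) (.cons (.rf (nat_lit 186) (nat_lit 6613501984)) (.cons (.br (nat_lit 5) (nat_lit 0) (.cons (.rf (nat_lit 186) (nat_lit 6613501984)) (.cons (.br (nat_lit 4) (nat_lit 1) (.cons (.rf (nat_lit 189) (nat_lit 384570624032)) (.cons (.br (nat_lit 4) (nat_lit 1) (.cons (.rf (nat_lit 189) (nat_lit 418930362400)) .nil))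 .nil))) .nil))) .nil))) .nil)))) .nil)))) .nil))),
 (.br (nat_lit 0) (nat_lit 0) (.cons (.br (nat_lit 0) (nat_lit 0) (.cons (.br (nat_lit 0) (nat_lit 0) (.cons (.br (nat_lit 2) (nat_lit 1) (.cons (.rf (nat_lit 190) (nat_lit 172066848)) (.cons (.br (nat_lit 2) (nat_lit 1) (.cons (.rf (nat_lit 190) (nat_lit 205621280)) (.cons (.br (nat_lit 3) (nat_lit 1) (.cons (.rf (nat_lit 190) (nat_lit 239143968)) (.cons (.br (nat_lit 3) (nat_lit 1) (.cons (.rf (nat_lit 190) (nat_lit 272698400)) (.cons (.br (nat_lit 4) (nat_lit 1) (.cons (.rf (nat_lit 190) (nat_lit 305205280)) .nil)) .nil))) .nil))) .nil))) .nil))) .nil)) .nil)) .nil))]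

theorem c4 : chkAll C T R L4 (nat_lit 147) = true := by decide +kernel

theorem l4 : (nat_lit 147) + L4.length = (nat_lit 192) := by decide +kernel

/-- part of the certificates -/
def L5 : List Prf := [(.br (nat_lit 5) (nat_lit 0) (.cons (.br (nat_lit 5) (nat_lit 0) .nil) .nil)),
 (.br (nat_lit 5) (nat_lit 0) (.cons (.br (nat_lit 6) (nat_lit 0) .nil) .nil)),
 (.br (nat_lit 2) (nat_lit 0) (.cons (.rf (nat_lit 192) (nat_lit 373393440)) (.cons (.br (nat_lit 4) (nat_lit 0) (.cons (.ev (nat_lit 4722438823042466513153) (nat_lit 1)) (.cons (.rf (nat_lit 193) (nat_lit 13258295328)) .nil))) (.cons (.br (nat_lit 4) (nat_lit 0) (.cons (.rf (nat_lit 193) (nat_lit 13256200224)) (.cons (.ev (nat_lit 4722438823042466513153) (nat_lit 1)) .nil))) .nil)))),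
 (.br (nat_lit 5) (nat_lit 0) (.cons (.br (nat_lit 5) (nat_lit 0) .nil) .nil)),
 (.br (nat_lit 3) (nat_lit 0) (.cons (.rf (nat_lit 193) (nat_lit 7719750688)) (.cons (.rf (nat_lit 195) (nat_lit 7721814048)) .nil))),
 (.br (nat_lit 2) (nat_lit 0) (.cons (.rf (nat_lit 192) (nat_lit 338823200)) (.cons (.br (nat_lit 3) (nat_lit 0) (.cons (.ev (nat_lit 1208925891672223229476864) (nat_lit 1)) (.cons (.rf (nat_lit 193) (nat_lit 12149983264)) .nil))) (.cons (.rf (nat_lit 196) (nat_lit 388933716000)) .nil)))),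
 (.br (nat_lit 4) (nat_lit 0) (.cons (.br (nat_lit 6) (nat_lit 0) .nil) .nil)),
 (.br (nat_lit 2) (nat_lit 0) (.cons (.rf (nat_lit 194) (nat_lit 407901468851536960)) (.cons (.rf (nat_lit 197) (nat_lit 12746919793230912)) (.cons (.br (nat_lit 3) (nat_lit 0) (.cons (.ev (nat_lit 4722438823042466513153) (nat_lit 1)) (.cons (.rf (nat_lit 198) (nat_lit 13258295328)) .nil))) (.cons (.br (nat_lit 4) (nat_lit 0) (.cons (.rf (nat_lit 193) (nat_lit 13256229984)) (.cons (.rf (nat_lit 198) (nat_lit 13257216032)) (.cons (.ev (nat_lit 4740813226947649798401) (nat_lit 1)) .nil)))) .nil))))),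
 (.br (nat_lit 10) (nat_lit 0) (.cons (.br (nat_lit 1) (nat_lit 0) (.cons (.kr (nat_lit 256) (nat_lit 65536) (nat_lit 1) (nat_lit 0)) (.cons (.rf (nat_lit 194) (nat_lit 407901468851537952)) (.cons (.rf (nat_lit 197) (nat_lit 12746919793231904)) (.cons (.rf (nat_lit 199) (nat_lit 407901468851537952)) (.cons (.br (nat_lit 2) (nat_lit 0) (.cons (.rf (nat_lit 196) (nat_lit 424399733824)) (.cons (.rf (nat_lit 196) (nat_lit 424400749632)) (.cons (.rf (nat_lit 199) (nat_lit 407901468851536960)) (.cons (.br (nat_lit 4) (nat_lit 0) (.cons (.ev (nat_lit 4722438823042466513153) (nat_lit 1)) (.cons (.ev (nat_lit 4740813226947649798401) (nat_lit 1)) (.cons (.br (nat_lit 12) (nat_lit 0) (.cons (.zr (nat_lit 3631499825326757169463814) (nat_lit 316912650112469924962853978112) (nat_lit 10) (nat_lit 0)) (.cons (.zr (nat_lit 8462480737302404223074822) (nat_lit 316912664279569373571789619200) (nat_lit 10) (nat_lit 0)) .nil))) .nil)))) .nil))))) .nil)))))) .nil)),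
 (.br (nat_lit 8) (nat_lit 0) (.cons (.rf (nat_lit 12) (nat_lit 152050673552449)) (.cons (.br (nat_lit 3) (nat_lit 1) (.cons (.rf (nat_lit 200) (nat_lit 407901468851537952)) (.cons (.rf (nat_lit 200) (nat_lit 406810753316784160)) .nil))) .nil))),
 (.br (nat_lit 2) (nat_lit 0) (.cons (.rf (nat_lit 192) (nat_lit 373393440)) (.cons (.br (nat_lit 4) (nat_lit 0) (.cons (.ev (nat_lit 310698658079500165877661696) (nat_lit 1)) (.cons (.rf (nat_lit 193) (nat_lit 13258295328)) .nil))) (.cons (.rf (nat_lit 196) (nat_lit 424466843680)) .nil)))),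
 (.br (nat_lit 2) (nat_lit 0) (.cons (.rf (nat_lit 192) (nat_lit 372377632)) (.cons (.br (nat_lit 3) (nat_lit 0) (.cons (.ev (nat_lit 4722438540463699984641) (nat_lit 1)) (.cons (.rf (nat_lit 193) (nat_lit 13257279520)) .nil))) (.cons (.rf (nat_lit 196) (nat_lit 424467859488)) .nil)))),
 (.br (nat_lit 2) (nat_lit 0) (.cons (.rf (nat_lit 202) (nat_lit 407901468851536960)) (.cons (.rf (nat_lit 203) (nat_lit 407901468851536960)) (.cons (.br (nat_lit 3) (nat_lit 0) (.cons (.ev (nat_lit 4722438540463699984641) (nat_lit 1)) (.cons (.rf (nat_lit 198) (nat_lit 13258295328)) .nil))) (.cons (.br (nat_lit 3) (nat_lit 0) (.cons (.rf (nat_lit 193) (nat_lit 13256229984)) (.cons (.rf (nat_lit 198) (nat_lit 13258263584)) (.cons (.ev (nat_lit 1208925891672223229477121) (nat_lit 1)) .nil)))) .nil))))),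
 (.br (nat_lit 10) (nat_lit 0) (.cons (.br (nat_lit 1) (nat_lit 0) (.cons (.kr (nat_lit 256) (nat_lit 65536) (nat_lit 1) (nat_lit 0)) (.cons (.rf (nat_lit 202) (nat_lit 407901468851537952)) (.cons (.rf (nat_lit 203) (nat_lit 407901468851537952)) (.cons (.rf (nat_lit 204) (nat_lit 407901468851537952)) (.cons (.br (nat_lit 2) (nat_lit 0) (.cons (.rf (nat_lit 196) (nat_lit 424466842688)) (.cons (.rf (nat_lit 196) (nat_lit 424467858496)) (.cons (.rf (nat_lit 204) (nat_lit 407901468851536960)) (.cons (.br (nat_lit 3) (nat_lit 0) (.cons (.ev (nat_lit 4722438540463699984641) (nat_lit 1)) (.cons (.ev (nat_lit 4740813509517859946753) (nat_lit 1)) (.cons (.br (nat_lit 12) (nat_lit 0) (.cons (.zr (nat_lit 3631499825326757169463814) (nat_lit 316912650075721112754440896512) (nat_lit 10) (nat_lit 0)) (.cons (.zr (nat_lit 8462480737302404223074822) (nat_lit 316912664242820561363376537600) (nat_lit 10) (nat_lit 0)) .nil))) .nil)))) .nil))))) .nil)))))) .nil)),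
 (.br (nat_lit 2) (nat_lit 0) (.cons (.ev (nat_lit 4740885566016681148416) (nat_lit 1)) (.cons (.br (nat_lit 4) (nat_lit 0) (.cons (.ev (nat_lit 310698676526525710268956673) (nat_lit 1)) (.cons (.rf (nat_lit 193) (nat_lit 13258295328)) .nil))) (.cons (.rf (nat_lit 196) (nat_lit 424366180384)) .nil)))),
 (.br (nat_lit 3) (nat_lit 0) (.cons (.ev (nat_lit 310698658007443667056394241) (nat_lit 1)) (.cons (.rf (nat_lit 193) (nat_lit 13257279520)) .nil))),
 (.br (nat_lit 2) (nat_lit 0) (.cons (.rf (nat_lit 206) (nat_lit 407901468851536960)) (.cons (.rf (nat_lit 207) (nat_lit 407901468851536960)) (.cons (.br (nat_lit 3) (nat_lit 0) (.cons (.ev (nat_lit 4722366483973468651776) (nat_lit 1)) (.cons (.rf (nat_lit 198) (nat_lit 13258295328)) .nil))) (.cons (.br (nat_lit 3) (nat_lit 0) (.cons (.rf (nat_lit 193) (nat_lit 13256229984)) (.cons (.ev (nat_lit 309485028340428211448971521) (nat_lit 1)) (.cons (.br (nat_lit 4) (nat_lit 0) (.cons (.ev (nat_lit 4740885566016681214208)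 (nat_lit 1)) (.cons (.br (nat_lit 11) (nat_lit 0) (.cons (.ev (nat_lit 79537657005784475630928134146) (nat_lit 2)) .nil)) .nil))) .nil)))) .nil))))),
 (.br (nat_lit 4) (nat_lit 1) (.cons (.br (nat_lit 1) (nat_lit 0) (.cons (.kr (nat_lit 256) (nat_lit 65536) (nat_lit 1) (nat_lit 0)) (.cons (.rf (nat_lit 206) (nat_lit 407901468851537952)) (.cons (.br (nat_lit 2) (nat_lit 0) (.cons (.ev (nat_lit 4740885566016681148416) (nat_lit 1)) (.cons (.rf (nat_lit 207) (nat_lit 407901468851537952)) (.cons (.rf (nat_lit 196) (nat_lit 424367196192)) .nil)))) (.cons (.rf (nat_lit 208) (nat_lit 407901468851537952)) (.cons (.br (nat_lit 2) (nat_lit 0) (.cons (.rf (nat_lit 196) (nat_lit 424366179392)) (.cons (.rf (nat_lit 196) (nat_lit 424367195200)) (.cons (.rf (nat_lit 208) (nat_lit 407901468851536960)) (.cons (.br (nat_lit 3) (nat_lit 0) (.cons (.ev (nat_lit 4722366483973468651776) (nat_lit 1)) (.cons (.br (nat_lit 4) (nat_lit 0) (.cons (.ev (nat_lit 4740885566016681214208)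 (nat_lit 1)) (.cons (.br (nat_lit 11) (nat_lit 0) (.cons (.ev (nat_lit 79538856449977637459969769728) (nat_lit 1)) .nil)) .nil))) (.cons (.br (nat_lit 12) (nat_lit 0) (.cons (.ev (nat_lit 4740885566016681214208) (nat_lit 1)) (.cons (.zr (nat_lit 9444805304808305131779) (nat_lit 158456325083868910706751438848) (nat_lit 5) (nat_lit 0)) .nil))) .nil)))) .nil))))) .nil)))))) .nil)),
 (.br (nat_lit 6) (nat_lit 0) (.cons (.rf (nat_lit 10) (nat_lit 11313185197121)) (.cons (.br (nat_lit 7) (nat_lit 0) (.cons (.rf (nat_lit 11) (nat_lit 152050673552449)) (.cons (.rf (nat_lit 201) (nat_lit 11584701642934304)) (.cons (.br (nat_lit 8) (nat_lit 0) (.cons (.rf (nat_lit 201) (nat_lit 11583635449841696)) (.cons (.rf (nat_lit 11) (nat_lit 116865260261441)) (.cons (.rf (nat_lit 31) (nat_lit 12536949648821313)) .nil)))) .nil)))) (.cons (.br (nat_lit 7) (nat_lit 0) (.cons (.rf (nat_lit 11) (nat_lit 398341278174273)) (.cons (.br (nat_lit 8) (nat_lit 0) (.cons (.br (nat_lit 4) (nat_lit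 1) (.cons (.rf (nat_lit 205) (nat_lit 407901468851537952)) (.cons (.rf (nat_lit 205) (nat_lit 406810753316784160)) .nil))) (.cons (.rf (nat_lit 31) (nat_lit 4901940905544769)) (.cons (.rf (nat_lit 11) (nat_lit 116865260268609)) .nil)))) (.cons (.br (nat_lit 8) (nat_lit 0) (.cons (.rf (nat_lit 12) (nat_lit 398341278174273)) (.cons (.br (nat_lit 3) (nat_lit 1) (.cons (.rf (nat_lit 209) (nat_lit 407901468851537952)) (.cons (.rf (nat_lit 209) (nat_lit 406810753316784160)) .nil))) .nil))) .nil)))) .nil)))),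
 (.br (nat_lit 10) (nat_lit 0) (.cons (.br (nat_lit 1) (nat_lit 0) (.cons (.kr (nat_lit 1213648186098598331548160) (nat_lit 18519083142724321280) (nat_lit 1) (nat_lit 0)) (.cons (.ev (nat_lit 4722438540463699918849) (nat_lit 1)) (.cons (.br (nat_lit 2) (nat_lit 0) (.cons (.ev (nat_lit 18518801667764322561) (nat_lit 1)) (.cons (.br (nat_lit 3) (nat_lit 0) (.cons (.ev (nat_lit 310693954159761369941934336) (nat_lit 1)) (.cons (.rf (nat_lit 193) (nat_lit 13257279520)) .nil))) (.cons (.rf (nat_lit 196) (nat_lit 424467859488)) .nil)))) (.cons (.br (nat_lit 2) (nat_lit 0) (.cons (.ev (nat_lit 282574505181441) (nat_lit 1)) (.cons (.br (nat_lit 3) (nat_lit 0) (.cons (.ev (nat_lit 310693935641242276682793216) (nat_lit 1)) (.cons (.rf (nat_lit 193) (nat_lit 13257278528)) .nil))) (.cons (.br (nat_lit 3) (nat_lit 0) (.cons (.ev (nat_lit 310693935641242276682793216) (nat_lit 1)) (.cons (.rf (nat_lit 198) (nat_lit 13258295328)) .nil))) (.cons (.br (nat_lit 3) (nat_lit 0)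 (.cons (.rf (nat_lit 193) (nat_lit 13256229984)) (.cons (.rf (nat_lit 198) (nat_lit 13258263584)) (.cons (.br (nat_lit 4) (nat_lit 0) (.cons (.ev (nat_lit 309489732331943130791215617) (nat_lit 2)) (.cons (.br (nat_lit 11) (nat_lit 0) (.cons (.ev (nat_lit 475370198307992867860086390790) (nat_lit 3)) .nil)) .nil))) .nil)))) .nil))))) (.cons (.br (nat_lit 2) (nat_lit 0) (.cons (.rf (nat_lit 196) (nat_lit 424466842688)) (.cons (.rf (nat_lit 196) (nat_lit 424467858496)) (.cons (.br (nat_lit 3) (nat_lit 0) (.cons (.rf (nat_lit 193) (nat_lit 13255182432)) (.cons (.rf (nat_lit 198) (nat_lit 13258230848)) (.cons (.br (nat_lit 4) (nat_lit 0) (.cons (.rf (nat_lit 198) (nat_lit 13257183296)) (.cons (.br (nat_lit 11) (nat_lit 0) (.cons (.ev (nat_lit 1858133170654454891719688710) (nat_lit 3)) .nil)) .nil))) .nil)))) (.cons (.br (nat_lit 3) (nat_lit 0) (.cons (.rf (nat_lit 195) (nat_lit 13258261600)) (.cons (.br (nat_lit 4) (nat_lit 0) (.cons (.rf (nat_lit 198) (nat_lit 13256134752))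 (.cons (.br (nat_lit 11) (nat_lit 0) (.cons (.ev (nat_lit 79229371458530977771421761536) (nat_lit 1)) .nil)) .nil))) (.cons (.br (nat_lit 12) (nat_lit 0) (.cons (.zr (nat_lit 1208925819614629174771971) (nat_lit 158456325028601015355614167040) (nat_lit 5) (nat_lit 0)) (.cons (.zr (nat_lit 3626777458843887524184323) (nat_lit 158456334473333981094904594432) (nat_lit 5) (nat_lit 0)) .nil))) .nil)))) .nil))))) .nil)))))) .nil)),
 (.br (nat_lit 3) (nat_lit 1) (.cons (.br (nat_lit 4) (nat_lit 1) (.cons (.rf (nat_lit 211) (nat_lit 407901468851537952)) (.cons (.rf (nat_lit 211) (nat_lit 406810753316784160)) .nil))) (.cons (.rf (nat_lit 43) (nat_lit 12536949648821313)) (.cons (.rf (nat_lit 43) (nat_lit 12535884496931905)) .nil)))),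
 (.br (nat_lit 11) (nat_lit 0) (.cons (.ev (nat_lit 79538856449905298390971908353) (nat_lit 1)) .nil)),
 (.br (nat_lit 11) (nat_lit 0) (.cons (.ev (nat_lit 79537652246452447011202400513) (nat_lit 1)) .nil)),
 (.br (nat_lit 4) (nat_lit 1) (.cons (.br (nat_lit 10) (nat_lit 0) (.cons (.br (nat_lit 1) (nat_lit 0) (.cons (.ev (nat_lit 4722438540463683207169) (nat_lit 1)) (.cons (.br (nat_lit 2) (nat_lit 0) (.cons (.ev (nat_lit 1242038087486340948427780) (nat_lit 3)) (.cons (.br (nat_lit 4) (nat_lit 0) (.cons (.ev (nat_lit 618979483039137885868720640) (nat_lit 2)) (.cons (.rf (nat_lit 193) (nat_lit 13258295328)) .nil))) (.cons (.rf (nat_lit 196) (nat_lit 424466843680)) .nil)))) (.cons (.ev (nat_lit 4740813226947649732609) (nat_lit 1)) (.cons (.br (nat_lit 2) (nat_lit 0) (.cons (.br (nat_lit 4) (nat_lit 0) (.cons (.ev (nat_lit 284777806758402) (nat_lit 2)) (.cons (.rf (nat_lit 193) (nat_lit 13258294336)) .nil))) (.cons (.ev (nat_lit 1242111585110757774590980) (nat_lit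 3)) (.cons (.br (nat_lit 3) (nat_lit 0) (.cons (.ev (nat_lit 37037888121891521026) (nat_lit 2)) (.cons (.rf (nat_lit 198) (nat_lit 13258295328)) .nil))) (.cons (.br (nat_lit 4) (nat_lit 0) (.cons (.rf (nat_lit 193) (nat_lit 13256229984)) (.cons (.rf (nat_lit 198) (nat_lit 13257216032)) (.cons (.ev (nat_lit 1223092919348015917105666) (nat_lit 2)) .nil)))) .nil))))) (.cons (.br (nat_lit 2) (nat_lit 0) (.cons (.rf (nat_lit 196) (nat_lit 424466842688)) (.cons (.rf (nat_lit 196) (nat_lit 424467858496)) (.cons (.br (nat_lit 3) (nat_lit 0) (.cons (.rf (nat_lit 193) (nat_lit 13255182432)) (.cons (.rf (nat_lit 198) (nat_lit 13258230848)) (.cons (.br (nat_lit 4) (nat_lit 0) (.cons (.ev (nat_lit 1856928967201033964994363910) (nat_lit 3)) (.cons (.rf (nat_lit 213) (nat_lit 14242959524133701664)) .nil))) .nil)))) (.cons (.br (nat_lit 3) (nat_lit 0) (.cons (.rf (nat_lit 195) (nat_lit 13258261600)) (.cons (.br (nat_lit 4) (nat_lit 0) (.cons (.rf (nat_lit 198) (nat_lit 13256134752))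 (.cons (.rf (nat_lit 213) (nat_lit 14242925439273208864)) .nil))) (.cons (.br (nat_lit 4) (nat_lit 0) (.cons (.rf (nat_lit 214) (nat_lit 14242959524133701664)) (.cons (.zr (nat_lit 79228162514553412398920826881) (nat_lit 3626795905590160256926464) (nat_lit 10) (nat_lit 4)) .nil))) .nil)))) .nil))))) .nil)))))) .nil)) (.cons (.br (nat_lit 7) (nat_lit 0) (.cons (.br (nat_lit 1) (nat_lit 0) (.cons (.br (nat_lit 3) (nat_lit 0) (.cons (.zr (nat_lit 14185546477464780275712) (nat_lit 6044629170130739911459840) (nat_lit 10) (nat_lit 3)) (.cons (.br (nat_lit 4) (nat_lit 0) (.cons (.ev (nat_lit 310698676454469220054335488) (nat_lit 1)) (.cons (.rf (nat_lit 193) (nat_lit 13258263584)) .nil))) (.cons (.rf (nat_lit 196) (nat_lit 424365132832)) .nil)))) (.cons (.br (nat_lit 4) (nat_lit 0) (.cons (.kr (nat_lit 1208944338416296922186242) (nat_lit 4722366765452757041152) (nat_lit 0) (nat_lit 2)) (.cons (.kr (nat_lit 72057594037928193) (nat_lit 1103823372288) (nat_lit 0) (nat_lit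 2)) (.cons (.rf (nat_lit 196) (nat_lit 424366116896)) .nil)))) (.cons (.br (nat_lit 3) (nat_lit 0) (.cons (.kr (nat_lit 4740885284537392693762) (nat_lit 1208925819897212286533632) (nat_lit 0) (nat_lit 2)) (.cons (.kr (nat_lit 4722438540463683141889) (nat_lit 1208925819615732998078464) (nat_lit 0) (nat_lit 2)) (.cons (.rf (nat_lit 196) (nat_lit 424367164448)) .nil)))) (.cons (.br (nat_lit 4) (nat_lit 0) (.cons (.rf (nat_lit 207) (nat_lit 407901468851536960)) (.cons (.zr (nat_lit 3626777531747014627295232) (nat_lit 23630279158421935621120) (nat_lit 10) (nat_lit 4)) (.cons (.ev (nat_lit 310698676526525710268891393) (nat_lit 1)) (.cons (.br (nat_lit 2) (nat_lit 0) (.cons (.rf (nat_lit 193) (nat_lit 13258294336)) (.cons (.zr (nat_lit 311907583827057196719473409) (nat_lit 18591705885738795008) (nat_lit 5) (nat_lit 0)) (.cons (.br (nat_lit 3) (nat_lit 0) (.cons (.ev (nat_lit 4740885566016681214208) (nat_lit 1)) (.cons (.br (nat_lit 11) (nat_lit 0) (.cons (.ev (nat_lit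 79538856468424100063014289665) (nat_lit 1)) .nil)) .nil))) .nil)))) .nil))))) (.cons (.br (nat_lit 2) (nat_lit 0) (.cons (.rf (nat_lit 196) (nat_lit 424366179392)) (.cons (.rf (nat_lit 196) (nat_lit 424367195200)) (.cons (.br (nat_lit 11) (nat_lit 0) (.cons (.rf (nat_lit 198) (nat_lit 13258230848)) (.cons (.rf (nat_lit 198) (nat_lit 13257183296)) (.cons (.ev (nat_lit 1858142689174959849998516740) (nat_lit 3)) .nil)))) (.cons (.br (nat_lit 3) (nat_lit 0) (.cons (.ev (nat_lit 4722366483973468651776) (nat_lit 1)) (.cons (.br (nat_lit 4) (nat_lit 0) (.cons (.ev (nat_lit 4740885566016681214208) (nat_lit 1)) (.cons (.br (nat_lit 11) (nat_lit 0) (.cons (.ev (nat_lit 79538856468424100063014289665) (nat_lit 1)) .nil)) .nil))) (.cons (.br (nat_lit 4) (nat_lit 0) (.cons (.rf (nat_lit 214) (nat_lit 14239581927492388896)) (.cons (.ev (nat_lit 4740885566016681214208) (nat_lit 1)) .nil))) .nil)))) .nil))))) .nil)))))) .nil)) .nil))),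
 (.br (nat_lit 3) (nat_lit 1) (.cons (.rf (nat_lit 212) (nat_lit 407901468851506208)) (.cons (.rf (nat_lit 215) (nat_lit 407901468851537952)) (.cons (.rf (nat_lit 215) (nat_lit 406810753316784160)) .nil)))),
 (.br (nat_lit 3) (nat_lit 0) (.cons (.ev (nat_lit 72058693566398464) (nat_lit 1)) (.cons (.br (nat_lit 4) (nat_lit 0) (.cons (.ev (nat_lit 310693935713018395744010241) (nat_lit 1)) (.cons (.rf (nat_lit 193) (nat_lit 13258263584)) .nil))) (.cons (.rf (nat_lit 196) (nat_lit 424398687264)) .nil)))),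
 (.br (nat_lit 3) (nat_lit 0) (.cons (.rf (nat_lit 193) (nat_lit 13255182432)) (.cons (.ev (nat_lit 309485028268089142451175424) (nat_lit 1)) (.cons (.br (nat_lit 4) (nat_lit 0) (.cons (.ev (nat_lit 309489732259886636214517761) (nat_lit 1)) (.cons (.br (nat_lit 11) (nat_lit 0) (.cons (.ev (nat_lit 158457548250792530422500820480) (nat_lit 3)) .nil)) .nil))) .nil)))),
 (.br (nat_lit 5) (nat_lit 0) .nil),
 (.br (nat_lit 8) (nat_lit 0) (.cons (.br (nat_lit 1) (nat_lit 0) (.cons (.rf (nat_lit 217) (nat_lit 407901468851537952)) (.cons (.rf (nat_lit 217) (nat_lit 406810753316752416)) (.cons (.br (nat_lit 2) (nat_lit 0) (.cons (.rf (nat_lit 192) (nat_lit 372377632)) (.cons (.br (nat_lit 3) (nat_lit 0) (.cons (.ev (nat_lit 310698658079782736087810048) (nat_lit 1)) (.cons (.rf (nat_lit 193) (nat_lit 13257279520)) .nil))) (.cons (.rf (nat_lit 196) (nat_lit 424400750624)) .nil)))) (.cons (.br (nat_lit 11) (nat_lit 0) (.cons (.kr (nat_lit 4740813509517843103744) (nat_lit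 620178945534362360662196224) (nat_lit 5) (nat_lit 0)) (.cons (.kr (nat_lit 1208944266641277372596224) (nat_lit 618974742081230601132703744) (nat_lit 5) (nat_lit 0)) (.cons (.kr (nat_lit 281474976710656) (nat_lit 309485009821345068724781056) (nat_lit 6) (nat_lit 0)) (.cons (.br (nat_lit 2) (nat_lit 0) (.cons (.br (nat_lit 4) (nat_lit 0) (.cons (.rf (nat_lit 193) (nat_lit 13258294336)) .nil)) (.cons (.br (nat_lit 3) (nat_lit 0) (.cons (.rf (nat_lit 193) (nat_lit 13257278528)) .nil)) (.cons (.br (nat_lit 3) (nat_lit 0) (.cons (.rf (nat_lit 193) (nat_lit 13256229984)) (.cons (.br (nat_lit 4) (nat_lit 0) (.cons (.ev (nat_lit 79228162514264338697350545664) (nat_lit 1)) .nil)) .nil))) .nil)))) .nil))))) (.cons (.br (nat_lit 2) (nat_lit 0) (.cons (.rf (nat_lit 196) (nat_lit 424399733824)) (.cons (.rf (nat_lit 196) (nat_lit 424400749632)) (.cons (.rf (nat_lit 218) (nat_lit 14242959524133701664)) (.cons (.br (nat_lit 3) (nat_lit 0) (.cons (.rf (nat_lit 195) (nat_lit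 13258261600)) (.cons (.rf (nat_lit 218) (nat_lit 14241868808598916128)) (.cons (.br (nat_lit 4) (nat_lit 0) (.cons (.br (nat_lit 11) (nat_lit 0) (.cons (.ev (nat_lit 159695478845344381982419976710) (nat_lit 3)) .nil)) (.cons (.rf (nat_lit 219) (nat_lit 13258295328)) .nil))) .nil)))) .nil))))) .nil)))))) .nil)),
 (.br (nat_lit 3) (nat_lit 0) (.cons (.rf (nat_lit 192) (nat_lit 306252832)) (.cons (.ev (nat_lit 282574505181184) (nat_lit 1)) (.cons (.rf (nat_lit 196) (nat_lit 353464618016)) .nil)))),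
 (.br (nat_lit 3) (nat_lit 0) (.cons (.ev (nat_lit 4722366483973468651776) (nat_lit 1)) (.cons (.rf (nat_lit 193) (nat_lit 13257278528)) .nil))),
 (.br (nat_lit 3) (nat_lit 0) (.cons (.rf (nat_lit 193) (nat_lit 13255182432)) (.cons (.rf (nat_lit 198) (nat_lit 13258230848)) (.cons (.br (nat_lit 4) (nat_lit 0) (.cons (.rf (nat_lit 198) (nat_lit 13257183296)) (.cons (.br (nat_lit 11) (nat_lit 0) (.cons (.ev (nat_lit 309489732259886636214517761) (nat_lit 1)) .nil)) .nil))) .nil)))),
 (.br (nat_lit 3) (nat_lit 1) (.cons (.rf (nat_lit 43) (nat_lit 12536949648820321)) (.cons (.rf (nat_lit 216) (nat_lit 407901468851506208)) (.cons (.br (nat_lit 4) (nat_lit 1) (.cons (.rf (nat_lit 220) (nat_lit 407901468851537952)) (.cons (.br (nat_lit 7) (nat_lit 0) (.cons (.br (nat_lit 1) (nat_lit 0) (.cons (.rf (nat_lit 221) (nat_lit 398340135159840)) (.cons (.rf (nat_lit 221) (nat_lit 397274983238688)) (.cons (.kr (nat_lit 1213648186378973796631040) (nat_lit 18518802775849041920)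 (nat_lit 1) (nat_lit 0)) (.cons (.br (nat_lit 4) (nat_lit 0) (.cons (.rf (nat_lit 222) (nat_lit 407901468851537952)) (.cons (.rf (nat_lit 222) (nat_lit 406810753316752416)) (.cons (.ev (nat_lit 310698676526525710268891393) (nat_lit 1)) (.cons (.br (nat_lit 2) (nat_lit 0) (.cons (.rf (nat_lit 193) (nat_lit 13258294336)) (.cons (.rf (nat_lit 198) (nat_lit 13257279520)) (.cons (.br (nat_lit 3) (nat_lit 0) (.cons (.ev (nat_lit 313111787424306347693507075) (nat_lit 2)) (.cons (.br (nat_lit 11) (nat_lit 0) (.cons (.ev (nat_lit 1858123836601949196640191490) (nat_lit 3)) .nil)) .nil))) .nil)))) .nil))))) (.cons (.br (nat_lit 2) (nat_lit 0) (.cons (.rf (nat_lit 196) (nat_lit 424366179392)) (.cons (.rf (nat_lit 196) (nat_lit 424367195200)) (.cons (.rf (nat_lit 223) (nat_lit 14242959524133701664)) (.cons (.br (nat_lit 3) (nat_lit 0) (.cons (.ev (nat_lit 4740885566016681214208) (nat_lit 1)) (.cons (.rf (nat_lit 223) (nat_lit 14241868808598916128)) (.cons (.br (nat_lit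 12) (nat_lit 0) (.cons (.ev (nat_lit 79228162514336677766382026753) (nat_lit 1)) (.cons (.rf (nat_lit 220) (nat_lit 155699889726130220)) .nil))) .nil)))) .nil))))) .nil)))))) .nil)) .nil))) .nil))))]

theorem c5 : chkAll C T R L5 (nat_lit 192) = true := by decide +kernel

theorem l5 : (nat_lit 192) + L5.length = (nat_lit 225) := by decide +kernel

/-- part of the certificates -/
def L6 : List Prf := [(.br (nat_lit 6) (nat_lit 0) (.cons (.rf (nat_lit 210) (nat_lit 11584701642934304)) (.cons (.rf (nat_lit 210) (nat_lit 11584701642902560)) (.cons (.br (nat_lit 2) (nat_lit 1) (.cons (.rf (nat_lit 212) (nat_lit 407901468851537952)) (.cons (.rf (nat_lit 216) (nat_lit 407901468851537952)) (.cons (.rf (nat_lit 224) (nat_lit 407901468851537952)) (.cons (.rf (nat_lit 224) (nat_lit 406810753316784160)) .nil))))) .nil)))),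
 (.br (nat_lit 6) (nat_lit 0) (.cons (.rf (nat_lit 210) (nat_lit 11584701642934304)) (.cons (.rf (nat_lit 210) (nat_lit 11584701642902560)) (.cons (.rf (nat_lit 225) (nat_lit 11584701642934304)) (.cons (.br (nat_lit 6) (nat_lit 0) (.cons (.rf (nat_lit 210) (nat_lit 11584701642934304)) (.cons (.rf (nat_lit 210) (nat_lit 11584701642902560)) (.cons (.rf (nat_lit 225) (nat_lit 11584701642934304)) .nil)))) .nil))))),
 (.br (nat_lit 3) (nat_lit 0) (.cons (.rf (nat_lit 193) (nat_lit 7721782304)) (.cons (.rf (nat_lit 195) (nat_lit 7719750688)) .nil))),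
 (.br (nat_lit 11) (nat_lit 0) (.cons (.rf (nat_lit 198) (nat_lit 13258295328)) (.cons (.rf (nat_lit 198) (nat_lit 13255151680)) (.cons (.ev (nat_lit 309485028340428211465748481) (nat_lit 1)) .nil)))),
 (.br (nat_lit 4) (nat_lit 1) (.cons (.br (nat_lit 1) (nat_lit 0) (.cons (.br (nat_lit 4) (nat_lit 0) (.cons (.rf (nat_lit 192) (nat_lit 373361696)) (.cons (.ev (nat_lit 4740885566016664436736) (nat_lit 1)) (.cons (.rf (nat_lit 227) (nat_lit 424300087328)) .nil)))) (.cons (.ev (nat_lit 4740813226943371542529) (nat_lit 1)) (.cons (.br (nat_lit 2) (nat_lit 0) (.cons (.rf (nat_lit 192) (nat_lit 372377632)) (.cons (.ev (nat_lit 4740885566016664436736) (nat_lit 1)) (.cons (.rf (nat_lit 227) (nat_lit 424297992224)) .nil)))) (.cons (.br (nat_lit 11) (nat_lit 0) (.cons (.kr (nat_lit 18446745173221179392) (nat_lit 310693935640959697899487232) (nat_lit 5) (nat_lit 0)) (.cons (.kr (nat_lit 18519084242235817984) (nat_lit 620183667828787636269481984) (nat_lit 5) (nat_lit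 0)) (.cons (.kr (nat_lit 18446745173221179392) (nat_lit 309489732187827938369994752) (nat_lit 5) (nat_lit 0)) (.cons (.br (nat_lit 2) (nat_lit 0) (.cons (.br (nat_lit 4) (nat_lit 0) (.cons (.rf (nat_lit 193) (nat_lit 13258294336)) .nil)) (.cons (.br (nat_lit 3) (nat_lit 0) (.cons (.rf (nat_lit 193) (nat_lit 13257278528)) .nil)) (.cons (.br (nat_lit 3) (nat_lit 0) (.cons (.rf (nat_lit 193) (nat_lit 13256229984)) (.cons (.br (nat_lit 4) (nat_lit 0) (.cons (.ev (nat_lit 79538856449905298395250098433) (nat_lit 1)) .nil)) .nil))) .nil)))) .nil))))) (.cons (.br (nat_lit 2) (nat_lit 0) (.cons (.rf (nat_lit 227) (nat_lit 424296975424)) (.cons (.rf (nat_lit 227) (nat_lit 424296943680)) (.cons (.br (nat_lit 3) (nat_lit 0) (.cons (.rf (nat_lit 193) (nat_lit 13255182432)) (.cons (.rf (nat_lit 198) (nat_lit 13258230848)) (.cons (.rf (nat_lit 228) (nat_lit 14242959524133701664)) .nil)))) (.cons (.br (nat_lit 3) (nat_lit 0) (.cons (.rf (nat_lit 195) (nat_lit 13258261600))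 (.cons (.br (nat_lit 4) (nat_lit 0) (.cons (.rf (nat_lit 198) (nat_lit 13256134752)) (.cons (.ev (nat_lit 1223111365810623256658435) (nat_lit 2)) .nil))) (.cons (.br (nat_lit 12) (nat_lit 0) (.cons (.rf (nat_lit 219) (nat_lit 13258295328)) (.cons (.rf (nat_lit 226) (nat_lit 11584701642147884)) .nil))) .nil)))) .nil))))) .nil)))))) .nil)),
 (.br (nat_lit 8) (nat_lit 0) (.cons (.rf (nat_lit 12) (nat_lit 116866301462881)) (.cons (.br (nat_lit 2) (nat_lit 1) (.cons (.rf (nat_lit 229) (nat_lit 407901468851537952)) (.cons (.rf (nat_lit 229) (nat_lit 406810753316784160)) .nil))) .nil))),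
 (.br (nat_lit 6) (nat_lit 0) (.cons (.rf (nat_lit 226) (nat_lit 11583635450857504)) (.cons (.rf (nat_lit 226) (nat_lit 11583635448794144)) (.cons (.br (nat_lit 7) (nat_lit 0) (.cons (.rf (nat_lit 11) (nat_lit 116866301462881)) (.cons (.rf (nat_lit 230) (nat_lit 407901468851537952)) (.cons (.br (nat_lit 8) (nat_lit 0) (.cons (.rf (nat_lit 230) (nat_lit 407900402659429408)) (.cons (.rf (nat_lit 11) (nat_lit 81680888171873)) (.cons (.rf (nat_lit 31) (nat_lit 4620465928833377)) .nil)))) .nil)))) .nil)))),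
 (.br (nat_lit 6) (nat_lit 0) (.cons (.br (nat_lit 5) (nat_lit 0) (.cons (.rf (nat_lit 226) (nat_lit 11584701642934304)) (.cons (.rf (nat_lit 226) (nat_lit 11584701641918496)) (.cons (.rf (nat_lit 10) (nat_lit 11313185205313)) .nil)))) (.cons (.rf (nat_lit 231) (nat_lit 407900402659429408)) (.cons (.rf (nat_lit 231) (nat_lit 407900402658381856)) .nil)))),
 (.br (nat_lit 5) (nat_lit 0) (.cons (.rf (nat_lit 226) (nat_lit 11584701642934304)) (.cons (.rf (nat_lit 226) (nat_lit 11584701641918496)) (.cons (.br (nat_lit 6) (nat_lit 0) (.cons (.rf (nat_lit 232) (nat_lit 407900402659461152)) (.cons (.rf (nat_lit 232) (nat_lit 407900402659429408)) (.cons (.rf (nat_lit 232) (nat_lit 407900402658381856)) (.cons (.rf (nat_lit 232) (nat_lit 407901468851537952)) .nil))))) .nil)))),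
 (.br (nat_lit 8) (nat_lit 1) (.cons (.br (nat_lit 9) (nat_lit 1) (.cons (.br (nat_lit 5) (nat_lit 0) (.cons (.rf (nat_lit 233) (nat_lit 11584701642934304)) (.cons (.rf (nat_lit 233) (nat_lit 11584701642902560)) (.cons (.rf (nat_lit 233) (nat_lit 11584701641855008)) (.cons (.br (nat_lit 5) (nat_lit 0) (.cons (.rf (nat_lit 233) (nat_lit 11584701642934304)) (.cons (.rf (nat_lit 233) (nat_lit 11584701642902560)) (.cons (.rf (nat_lit 233) (nat_lit 11584701641855008)) .nil)))) .nil))))) .nil)) .nil)),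
 (.br (nat_lit 5) (nat_lit 1) (.cons (.rf (nat_lit 6) (nat_lit 6305)) (.cons (.br (nat_lit 6) (nat_lit 1) (.cons (.rf (nat_lit 7) (nat_lit 7365)) (.cons (.br (nat_lit 7) (nat_lit 1) (.cons (.rf (nat_lit 8) (nat_lit 269509)) (.cons (.br (nat_lit 7) (nat_lit 1) (.cons (.rf (nat_lit 8) (nat_lit 269509)) (.cons (.br (nat_lit 8) (nat_lit 1) (.cons (.rf (nat_lit 234) (nat_lit 11584701642934304)) (.cons (.rf (nat_lit 234) (nat_lit 10493986108180512)) .nil))) .nil))) .nil))) .nil))) .nil))),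
 (.br (nat_lit 3) (nat_lit 1) (.cons (.rf (nat_lit 235) (nat_lit 8761967712)) (.cons (.br (nat_lit 4) (nat_lit 1) (.cons (.rf (nat_lit 184) (nat_lit 291481383471136)) (.cons (.br (nat_lit 4) (nat_lit 1) (.cons (.rf (nat_lit 184) (nat_lit 292580895098912)) .nil)) .nil))) .nil))),
 (.br (nat_lit 4) (nat_lit 0) (.cons (.ev (nat_lit 1213648258436572146302976) (nat_lit 1)) (.cons (.rf (nat_lit 193) (nat_lit 13224740896)) .nil))),
 (.br (nat_lit 4) (nat_lit 0) (.cons (.rf (nat_lit 198) (nat_lit 13222580320)) (.cons (.br (nat_lit 10) (nat_lit 0) (.cons (.ev (nat_lit 158765824261151962679438737922) (nat_lit 3)) .nil)) .nil))),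
 (.br (nat_lit 7) (nat_lit 1) (.cons (.br (nat_lit 9) (nat_lit 1) (.cons (.br (nat_lit 2) (nat_lit 0) (.cons (.br (nat_lit 3) (nat_lit 0) (.cons (.rf (nat_lit 192) (nat_lit 339807264)) (.cons (.br (nat_lit 4) (nat_lit 0) (.cons (.ev (nat_lit 1208925891954797701038081) (nat_lit 1)) (.cons (.rf (nat_lit 193) (nat_lit 13224709152)) .nil))) (.cons (.rf (nat_lit 227) (nat_lit 423225329696)) .nil)))) (.cons (.ev (nat_lit 4740885285636904386561) (nat_lit 1)) (.cons (.ev (nat_lit 4722366764344621989889) (nat_lit 1)) (.cons (.br (nat_lit 1) (nat_lit 0) (.cons (.rf (nat_lit 237) (nat_lit 407901468851537952)) (.cons (.rf (nat_lit 237) (nat_lit 335914243556771872)) (.cons (.kr (nat_lit 18519084242235817984) (nat_lit 311907583827057196719407104) (nat_lit 5) (nat_lit 0)) (.cons (.br (nat_lit 3) (nat_lit 0) (.cons (.rf (nat_lit 193) (nat_lit 13221628000)) (.cons (.rf (nat_lit 198) (nat_lit 13224676416)) (.cons (.br (nat_lit 4) (nat_lit 0) (.cons (.rf (nat_lit 198) (nat_lit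 13223628864)) (.cons (.br (nat_lit 10) (nat_lit 0) (.cons (.ev (nat_lit 158770650519697453266447500800) (nat_lit 3)) .nil)) .nil))) .nil)))) .nil))))) (.cons (.br (nat_lit 1) (nat_lit 0) (.cons (.rf (nat_lit 227) (nat_lit 423224282144)) (.cons (.rf (nat_lit 227) (nat_lit 423224250400)) (.cons (.br (nat_lit 10) (nat_lit 0) (.cons (.kr (nat_lit 18447025548686262272) (nat_lit 310693935640959697899487232) (nat_lit 6) (nat_lit 0)) (.cons (.kr (nat_lit 18447025548686262272) (nat_lit 1213648186097498819919872) (nat_lit 6) (nat_lit 0)) (.cons (.ev (nat_lit 1208944266358702884323329) (nat_lit 1)) .nil)))) (.cons (.br (nat_lit 3) (nat_lit 0) (.cons (.rf (nat_lit 195) (nat_lit 13224707168)) (.cons (.rf (nat_lit 238) (nat_lit 14242959524133701664)) (.cons (.br (nat_lit 4) (nat_lit 0) (.cons (.rf (nat_lit 238) (nat_lit 14170972298838935584)) (.cons (.ev (nat_lit 79537652246452447011202400513) (nat_lit 1)) .nil))) .nil)))) .nil))))) .nil)))))) .nil)) .nil)),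
 (.br (nat_lit 6) (nat_lit 1) (.cons (.rf (nat_lit 156) (nat_lit 12535817924938817)) (.cons (.rf (nat_lit 7) (nat_lit 6405)) (.cons (.br (nat_lit 8) (nat_lit 1) (.cons (.br (nat_lit 7) (nat_lit 1) (.cons (.rf (nat_lit 239) (nat_lit 407901468851537952)) (.cons (.rf (nat_lit 239) (nat_lit 335914243556771872)) .nil))) (.cons (.rf (nat_lit 8) (nat_lit 301317)) (.cons (.rf (nat_lit 8) (nat_lit 366853)) .nil)))) .nil)))),
 (.br (nat_lit 6) (nat_lit 1) (.cons (.rf (nat_lit 156) (nat_lit 12535817924938817)) (.cons (.rf (nat_lit 7) (nat_lit 6405)) (.cons (.rf (nat_lit 240) (nat_lit 407901468851537952)) (.cons (.rf (nat_lit 240) (nat_lit 335914243556771872)) .nil))))),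
 (.br (nat_lit 3) (nat_lit 0) (.cons (.ev (nat_lit 4740885285636921098241) (nat_lit 1)) (.cons (.ev (nat_lit 72339069031415809) (nat_lit 1)) (.cons (.kr (nat_lit 4740813509517843103744) (nat_lit 311902861532631921112121344) (nat_lit 5) (nat_lit 0)) (.cons (.br (nat_lit 2) (nat_lit 0) (.cons (.rf (nat_lit 193) (nat_lit 13223724096)) (.cons (.rf (nat_lit 198) (nat_lit 13224740896)) (.cons (.br (nat_lit 4) (nat_lit 0) (.cons (.rf (nat_lit 198) (nat_lit 13223661600)) (.cons (.br (nat_lit 10) (nat_lit 0) (.cons (.ev (nat_lit 79538856449905298395250098433) (nat_lit 1)) .nil)) .nil))) .nil)))) .nil))))),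
 (.br (nat_lit 7) (nat_lit 1) (.cons (.br (nat_lit 9) (nat_lit 1) (.cons (.br (nat_lit 1) (nat_lit 0) (.cons (.ev (nat_lit 18519084242235818241) (nat_lit 1)) (.cons (.br (nat_lit 2) (nat_lit 0) (.cons (.rf (nat_lit 192) (nat_lit 339839008)) (.cons (.br (nat_lit 4) (nat_lit 0) (.cons (.ev (nat_lit 1223111582545242910360066) (nat_lit 2)) (.cons (.rf (nat_lit 193) (nat_lit 13224740896)) .nil))) (.cons (.rf (nat_lit 227) (nat_lit 423224282144)) .nil)))) (.cons (.ev (nat_lit 4722438540463683141889) (nat_lit 1)) (.cons (.rf (nat_lit 242) (nat_lit 407901468851537952)) (.cons (.br (nat_lit 3) (nat_lit 0) (.cons (.ev (nat_lit 4740885285636921098241) (nat_lit 1)) (.cons (.ev (nat_lit 72339069031415809) (nat_lit 1)) (.cons (.rf (nat_lit 242) (nat_lit 263677569883213920)) (.cons (.br (nat_lit 2) (nat_lit 0) (.cons (.rf (nat_lit 195) (nat_lit 13224739904)) (.cons (.rf (nat_lit 228) (nat_lit 14207984130117961856)) (.cons (.br (nat_lit 4) (nat_lit 0) (.cons (.rf (nat_lit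 228) (nat_lit 14207987322455101504)) (.cons (.ev (nat_lit 79228162532711364246053650433) (nat_lit 1)) .nil))) .nil)))) .nil))))) .nil)))))) .nil)) .nil)),
 (.br (nat_lit 6) (nat_lit 1) (.cons (.rf (nat_lit 8) (nat_lit 301224)) (.cons (.br (nat_lit 7) (nat_lit 1) (.cons (.rf (nat_lit 243) (nat_lit 407901468851537952)) (.cons (.br (nat_lit 7) (nat_lit 1) (.cons (.rf (nat_lit 243) (nat_lit 407901468851537952)) .nil)) .nil))) .nil))),
 (.br (nat_lit 6) (nat_lit 1) (.cons (.rf (nat_lit 244) (nat_lit 407901468851537952)) (.cons (.rf (nat_lit 8) (nat_lit 301224)) (.cons (.br (nat_lit 6) (nat_lit 1) (.cons (.rf (nat_lit 244) (nat_lit 407901468851537952)) (.cons (.rf (nat_lit 8) (nat_lit 301224)) .nil))) .nil)))),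
 (.br (nat_lit 8) (nat_lit 1) (.cons (.rf (nat_lit 245) (nat_lit 407901468851537952)) (.cons (.rf (nat_lit 245) (nat_lit 407901435565540416)) (.cons (.rf (nat_lit 7) (nat_lit 9477)) (.cons (.rf (nat_lit 241) (nat_lit 263677503311219840)) .nil))))),
 (.br (nat_lit 3) (nat_lit 1) (.cons (.rf (nat_lit 235) (nat_lit 8761967712)) (.cons (.br (nat_lit 5) (nat_lit 0) (.cons (.rf (nat_lit 236) (nat_lit 247131670560)) (.cons (.br (nat_lit 10) (nat_lit 1) (.cons (.br (nat_lit 8) (nat_lit 0) (.cons (.br (nat_lit 4) (nat_lit 1) (.cons (.br (nat_lit 5) (nat_lit 1) (.cons (.rf (nat_lit 241) (nat_lit 407901468851537952)) (.cons (.rf (nat_lit 241) (nat_lit 407901435565540416)) (.cons (.rf (nat_lit 6) (nat_lit 8362)) (.cons (.rf (nat_lit 246) (nat_lit 407901468851537952)) (.cons (.rf (nat_lit 246) (nat_lit 335914243556771872)) .nil)))))) .nil)) .nil)) (.cons (.rf (nat_lit 149) (nat_lit 321172527032385)) .nil))) .nil))) .nil))),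
 (.br (nat_lit 2) (nat_lit 1) (.cons (.rf (nat_lit 235) (nat_lit 7688258624)) (.cons (.br (nat_lit 3) (nat_lit 1) (.cons (.rf (nat_lit 236) (nat_lit 247132686368)) (.cons (.rf (nat_lit 247) (nat_lit 9043225708576)) (.cons (.br (nat_lit 3) (nat_lit 1) (.cons (.rf (nat_lit 236) (nat_lit 247132686368)) (.cons (.rf (nat_lit 247) (nat_lit 10142737336352)) (.cons (.br (nat_lit 4) (nat_lit 1) (.cons (.rf (nat_lit 236) (nat_lit 247131670560)) (.cons (.rf (nat_lit 247) (nat_lit 11242247948320)) .nil))) .nil)))) .nil)))) .nil))),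
 (.br (nat_lit 2) (nat_lit 1) (.cons (.rf (nat_lit 235) (nat_lit 7688258624)) (.cons (.br (nat_lit 3) (nat_lit 1) (.cons (.rf (nat_lit 248) (nat_lit 6614486048)) (.cons (.rf (nat_lit 248) (nat_lit 8829045824)) (.cons (.br (nat_lit 3) (nat_lit 1) (.cons (.rf (nat_lit 248) (nat_lit 6614486048)) (.cons (.rf (nat_lit 248) (nat_lit 8829045824)) (.cons (.br (nat_lit 4) (nat_lit 1) (.cons (.rf (nat_lit 248) (nat_lit 6613438496)) (.cons (.rf (nat_lit 248) (nat_lit 8827998272)) .nil))) .nil)))) .nil)))) .nil))),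
 (.br (nat_lit 1) (nat_lit 1) (.cons (.rf (nat_lit 235) (nat_lit 6614517792)) (.cons (.br (nat_lit 2) (nat_lit 1) (.cons (.rf (nat_lit 248) (nat_lit 6614517792)) (.cons (.rf (nat_lit 249) (nat_lit 247132686368)) (.cons (.br (nat_lit 2) (nat_lit 1) (.cons (.rf (nat_lit 248) (nat_lit 6614517792)) (.cons (.rf (nat_lit 249) (nat_lit 281492424736)) (.cons (.br (nat_lit 3) (nat_lit 1) (.cons (.rf (nat_lit 248) (nat_lit 6614486048)) (.cons (.rf (nat_lit 249) (nat_lit 315852131360)) (.cons (.br (nat_lit 3) (nat_lit 1) (.cons (.rf (nat_lit 248) (nat_lit 6614486048)) (.cons (.rf (nat_lit 249) (nat_lit 350211869728)) .nil))) .nil)))) .nil)))) .nil)))) .nil))),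
 (.br (nat_lit 0) (nat_lit 0) (.cons (.rf (nat_lit 191) (nat_lit 32)) (.cons (.br (nat_lit 0) (nat_lit 0) (.cons (.rf (nat_lit 191) (nat_lit 64)) (.cons (.br (nat_lit 0) (nat_lit 0) (.cons (.rf (nat_lit 191) (nat_lit 96)) (.cons (.br (nat_lit 0) (nat_lit 0) (.cons (.rf (nat_lit 191) (nat_lit 128)) (.cons (.br (nat_lit 1) (nat_lit 1) (.cons (.rf (nat_lit 250) (nat_lit 172066848)) (.cons (.br (nat_lit 1) (nat_lit 1) (.cons (.rf (nat_lit 250) (nat_lit 205621280)) (.cons (.br (nat_lit 2) (nat_lit 1) (.cons (.rf (nat_lit 250) (nat_lit 239174720)) (.cons (.br (nat_lit 2) (nat_lit 1) (.cons (.rf (nat_lit 250) (nat_lit 272729152)) (.cons (.br (nat_lit 3) (nat_lit 1) (.cons (.rf (nat_lit 250) (nat_lit 306250848)) .nil)) .nil))) .nil))) .nil))) .nil))) .nil))) .nil))) .nil))) .nil)))]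

theorem c6 : chkAll C T R L6 (nat_lit 225) = true := by decide +kernel

theorem l6 : (nat_lit 225) + L6.length = (nat_lit 252) := by decide +kernel

end Pool.Agent.H93.Neg.Q13_2_4_2_5_0
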