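import Pool.Agent.H93.Neg.TabQ13_4_0_3_6_0

/-!
Certificates.
-/

set_option autoImplicit false
set_option maxRecDepth 100000
set_option linter.all false

namespace Pool.Agent.H93.Neg.Q13_4_0_3_6_0

/-- part of the certificates -/
def L0 : List Prf := [(.br (nat_lit 6) (nat_lit 0) (.cons (.br (nat_lit 7) (nat_lit 1) (.cons (.br (nat_lit 8) (nat_lit 0) (.cons (.br (nat_lit 8) (nat_lit 0) .nil) .nil)) .nil)) .nil)),
 (.br (nat_lit 3) (nat_lit 0) (.cons (.kr (nat_lit 65536) (nat_lit 16777216) (nat_lit 2) (nat_lit 0)) (.cons (.br (nat_lit 4) (nat_lit 1) (.cons (.br (nat_lit 6) (nat_lit 1) (.cons (.br (nat_lit 5) (nat_lit 1) (.cons (.rf (nat_lit 0) (nat_lit 6614517792)) (.cons (.br (nat_lit 6) (nat_lit 0) (.cons (.br (nat_lit 6) (nat_lit 0) (.cons (.br (nat_lit 8) (nat_lit 1) (.cons (.br (nat_lit 7) (nat_lit 0) (.cons (.kr (nat_lit 72057594037993472) (nat_lit 281474993487872) (nat_lit 2) (nat_lit 0)) .nil)) .nil)) .nil)) .nil)) .nil))) .nil)) .nil)) .nil))),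
 (.br (nat_lit 5) (nat_lit 0) (.cons (.br (nat_lit 5) (nat_lit 0) (.cons (.br (nat_lit 5) (nat_lit 0) (.cons (.br (nat_lit 7) (nat_lit 1) (.cons (.br (nat_lit 8) (nat_lit 1) (.cons (.br (nat_lit 6) (nat_lit 0) (.cons (.kr (nat_lit 281474976776192) (nat_lit 1099528404992) (nat_lit 2) (nat_lit 0)) .nil)) .nil)) .nil)) .nil)) .nil)) .nil)),
 (.br (nat_lit 5) (nat_lit 0) (.cons (.rf (nat_lit 0) (nat_lit 5607884832)) (.cons (.br (nat_lit 8) (nat_lit 1) (.cons (.br (nat_lit 5) (nat_lit 0) (.cons (.rf (nat_lit 0) (nat_lit 5607884832)) (.cons (.br (nat_lit 7) (nat_lit 1) (.cons (.br (nat_lit 6) (nat_lit 0) (.cons (.kr (nat_lit 281474976776192) (nat_lit 1099528404992) (nat_lit 2) (nat_lit 0)) .nil)) .nil)) .nil))) .nil)) .nil))),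
 (.br (nat_lit 10) (nat_lit 0) (.cons (.ev (nat_lit 2422666672060661129020420) (nat_lit 3)) .nil)),
 (.br (nat_lit 8) (nat_lit 0) .nil),
 (.br (nat_lit 11) (nat_lit 0) (.cons (.ev (nat_lit 1208944266358702901035264) (nat_lit 1)) (.cons (.kr (nat_lit 158456329750895159156244742144) (nat_lit 618970038089715686135824384) (nat_lit 5) (nat_lit 0)) .nil))),
 (.br (nat_lit 2) (nat_lit 0) (.cons (.br (nat_lit 10) (nat_lit 0) (.cons (.rf (nat_lit 5) (nat_lit 13583073249312)) (.cons (.rf (nat_lit 6) (nat_lit 14242959524133701664)) .nil))) (.cons (.br (nat_lit 10) (nat_lit 0) (.cons (.rf (nat_lit 6) (nat_lit 13122655134002840640)) .nil)) (.cons (.ev (nat_lit 18519084246530850816) (nat_lit 1)) .nil)))),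
 (.br (nat_lit 7) (nat_lit 0) (.cons (.br (nat_lit 10) (nat_lit 0) (.cons (.rf (nat_lit 4) (nat_lit 14242959524133701664)) (.cons (.rf (nat_lit 4) (nat_lit 13126066816545818656)) .nil))) (.cons (.ev (nat_lit 72339073309606144) (nat_lit 1)) (.cons (.rf (nat_lit 7) (nat_lit 14242959524133701664)) (.cons (.rf (nat_lit 7) (nat_lit 13126066816545818656)) .nil))))),
 (.br (nat_lit 2) (nat_lit 0) (.cons (.br (nat_lit 10) (nat_lit 0) (.cons (.rf (nat_lit 5) (nat_lit 13582975731713)) (.cons (.br (nat_lit 11) (nat_lit 0) (.cons (.zr (nat_lit 4835722013714458716669952) (nat_lit 618984186742142045021143040) (nat_lit 10) (nat_lit 2)) .nil)) .nil))) (.cons (.br (nat_lit 10) (nat_lit 0) (.cons (.br (nat_lit 10) (nat_lit 0) .nil) .nil)) (.cons (.ev (nat_lit 18519084246530851073) (nat_lit 1)) .nil)))),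
 (.br (nat_lit 4) (nat_lit 0) (.cons (.rf (nat_lit 8) (nat_lit 14242959524133701664)) (.cons (.ev (nat_lit 72339073309606144) (nat_lit 1)) (.cons (.rf (nat_lit 9) (nat_lit 14242959524133701664)) (.cons (.rf (nat_lit 9) (nat_lit 13126066816545818656)) .nil))))),
 (.br (nat_lit 8) (nat_lit 0) .nil),
 (.br (nat_lit 10) (nat_lit 0) (.cons (.br (nat_lit 7) (nat_lit 0) (.cons (.rf (nat_lit 11) (nat_lit 13583073249312)) (.cons (.br (nat_lit 11) (nat_lit 0) (.cons (.ev (nat_lit 79537652246524223130246906113) (nat_lit 1)) .nil)) .nil))) (.cons (.br (nat_lit 4) (nat_lit 0) (.cons (.rf (nat_lit 11) (nat_lit 13549787252768)) (.cons (.br (nat_lit 11) (nat_lit 0) (.cons (.ev (nat_lit 79537652246524223130246905856) (nat_lit 1)) .nil)) .nil))) (.cons (.ev (nat_lit 1208925819615728703176961) (nat_lit 1)) (.cons (.br (nat_lit 4) (nat_lit 0) (.cons (.br (nat_lit 11) (nat_lit 0) (.cons (.ev (nat_lit 79537652264970968303468019713) (nat_lit 1)) .nil)) (.cons (.br (nat_lit 7) (nat_lit 0) (.cons (.ev (nat_lit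 79537652264970968303468019713) (nat_lit 1)) .nil)) (.cons (.br (nat_lit 7) (nat_lit 0) (.cons (.ev (nat_lit 79537652264970968303468019713) (nat_lit 1)) .nil)) .nil)))) .nil))))),
 (.br (nat_lit 2) (nat_lit 0) (.cons (.rf (nat_lit 8) (nat_lit 14242959524133701664)) (.cons (.rf (nat_lit 10) (nat_lit 14242959524133701664)) (.cons (.rf (nat_lit 12) (nat_lit 14242959524133701664)) (.cons (.rf (nat_lit 12) (nat_lit 13126066816545818656)) .nil))))),
 (.br (nat_lit 2) (nat_lit 0) (.cons (.rf (nat_lit 8) (nat_lit 14242959524133701664)) (.cons (.rf (nat_lit 10) (nat_lit 14242959524133701664)) (.cons (.rf (nat_lit 13) (nat_lit 14242959524133701664)) (.cons (.kr (nat_lit 4740813226943354765314) (nat_lit 282574488469504) (nat_lit 0) (nat_lit 1)) .nil))))),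
 (.br (nat_lit 2) (nat_lit 0) (.cons (.rf (nat_lit 8) (nat_lit 14242959524133701664)) (.cons (.rf (nat_lit 10) (nat_lit 14242959524133701664)) (.cons (.rf (nat_lit 13) (nat_lit 14242959524133701664)) (.cons (.rf (nat_lit 14) (nat_lit 14242959524133701664)) (.cons (.rf (nat_lit 14) (nat_lit 13126066816545818656)) .nil)))))),
 (.br (nat_lit 7) (nat_lit 0) (.cons (.br (nat_lit 10) (nat_lit 0) (.cons (.ev (nat_lit 80159035413814347244224250370) (nat_lit 2)) .nil)) .nil)),
 (.br (nat_lit 2) (nat_lit 0) (.cons (.rf (nat_lit 15) (nat_lit 14242959524132684864)) (.cons (.rf (nat_lit 15) (nat_lit 14239547841590723648)) (.cons (.br (nat_lit 7) (nat_lit 0) (.cons (.rf (nat_lit 16) (nat_lit 14242959524133701664)) (.cons (.br (nat_lit 7) (nat_lit 0) (.cons (.rf (nat_lit 16) (nat_lit 14242959524133701664)) .nil)) .nil))) (.cons (.kr (nat_lit 4740813226943354765316) (nat_lit 282574488470016) (nat_lit 0) (nat_lit 3)) .nil))))),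
 (.br (nat_lit 2) (nat_lit 0) (.cons (.rf (nat_lit 15) (nat_lit 14242959524132684864)) (.cons (.br (nat_lit 7) (nat_lit 0) (.cons (.ev (nat_lit 72339069031481344) (nat_lit 1)) (.cons (.br (nat_lit 4) (nat_lit 0) (.cons (.br (nat_lit 12) (nat_lit 0) .nil) (.cons (.br (nat_lit 11) (nat_lit 0) (.cons (.zr (nat_lit 2422592596571389780033541) (nat_lit 309485009821910221996622080) (nat_lit 5) (nat_lit 2)) .nil)) .nil))) (.cons (.ev (nat_lit 72339069031481601) (nat_lit 1)) (.cons (.ev (nat_lit 18519084242252595456) (nat_lit 1)) .nil))))) (.cons (.br (nat_lit 7) (nat_lit 0) (.cons (.br (nat_lit 10) (nat_lit 0) (.cons (.br (nat_lit 10) (nat_lit 0) .nil) .nil)) (.cons (.ev (nat_lit 72339069031481601) (nat_lit 1)) (.cons (.ev (nat_lit 18519084242252595456) (nat_lit 1)) .nil)))) (.cons (.br (nat_lit 7) (nat_lit 0) (.cons (.br (nat_lit 11) (nat_lit 0) (.cons (.br (nat_lit 10) (nat_lit 0) (.cons (.ev (nat_lit 79538861172272062739872022785) (nat_lit 1)) .nil)) (.cons (.rf (nat_lit 11) (nat_lit 11415322724384))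 .nil))) (.cons (.br (nat_lit 4) (nat_lit 0) (.cons (.br (nat_lit 11) (nat_lit 0) (.cons (.ev (nat_lit 79538861190718805714069880833) (nat_lit 1)) .nil)) (.cons (.br (nat_lit 10) (nat_lit 0) (.cons (.ev (nat_lit 79538861190718805714069880833) (nat_lit 1)) .nil)) (.cons (.br (nat_lit 10) (nat_lit 0) (.cons (.ev (nat_lit 79538861190718805714069880833) (nat_lit 1)) .nil)) .nil)))) (.cons (.br (nat_lit 4) (nat_lit 0) (.cons (.br (nat_lit 10) (nat_lit 0) (.cons (.ev (nat_lit 79538861172272062739872022528) (nat_lit 1)) .nil)) (.cons (.rf (nat_lit 11) (nat_lit 11248892741664)) .nil))) (.cons (.ev (nat_lit 18519084242252595456) (nat_lit 1)) .nil))))) .nil))))),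
 (.br (nat_lit 2) (nat_lit 0) (.cons (.rf (nat_lit 17) (nat_lit 14242959524133701664)) (.cons (.rf (nat_lit 18) (nat_lit 14242959524133701664)) (.cons (.rf (nat_lit 18) (nat_lit 14239547841591740448)) (.cons (.br (nat_lit 2) (nat_lit 0) (.cons (.rf (nat_lit 17) (nat_lit 14242959524133701664)) (.cons (.rf (nat_lit 18) (nat_lit 14242959524133701664)) (.cons (.rf (nat_lit 18) (nat_lit 14239547841591740448)) (.cons (.kr (nat_lit 4740813226943354765314) (nat_lit 282574488469504) (nat_lit 0) (nat_lit 1)) .nil))))) (.cons (.br (nat_lit 2) (nat_lit 0) (.cons (.kr (nat_lit 4740813226943354765316) (nat_lit 282574488470016) (nat_lit 0) (nat_lit 3)) (.cons (.rf (nat_lit 18) (nat_lit 14242959524133701664)) (.cons (.rf (nat_lit 18) (nat_lit 14239547841591740448)) (.cons (.kr (nat_lit 4740813226943354765314) (nat_lit 282574488469504) (nat_lit 0) (nat_lit 1)) .nil))))) .nil)))))),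
 (.br (nat_lit 1) (nat_lit 0) (.cons (.kr (nat_lit 1) (nat_lit 256) (nat_lit 0) (nat_lit 2)) (.cons (.rf (nat_lit 15) (nat_lit 14242959524133701664)) (.cons (.rf (nat_lit 15) (nat_lit 14239547841591740448)) (.cons (.rf (nat_lit 19) (nat_lit 14242959524133701664)) (.cons (.rf (nat_lit 19) (nat_lit 13126066816545818656)) .nil)))))),
 (.br (nat_lit 10) (nat_lit 0) (.cons (.ev (nat_lit 2422703565555388371043330) (nat_lit 3)) (.cons (.br (nat_lit 11) (nat_lit 0) (.cons (.zr (nat_lit 9463179993487067054085) (nat_lit 620178945534362386432066048) (nat_lit 10) (nat_lit 3)) .nil)) .nil))),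
 (.br (nat_lit 2) (nat_lit 0) (.cons (.rf (nat_lit 21) (nat_lit 14242959524133701664)) (.cons (.rf (nat_lit 21) (nat_lit 13126066816545818656)) .nil))),
 (.br (nat_lit 2) (nat_lit 0) (.cons (.rf (nat_lit 22) (nat_lit 14242959524133701664)) (.cons (.br (nat_lit 11) (nat_lit 0) (.cons (.br (nat_lit 10) (nat_lit 0) (.cons (.ev (nat_lit 159076504011100923470668824834) (nat_lit 2)) .nil)) (.cons (.kr (nat_lit 309485009821345068724781056) (nat_lit 79228162514264337593543950336) (nat_lit 11) (nat_lit 0)) .nil))) .nil))),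
 (.br (nat_lit 2) (nat_lit 0) (.cons (.rf (nat_lit 22) (nat_lit 14242959524133701664)) (.cons (.rf (nat_lit 23) (nat_lit 14242959524133701664)) (.cons (.rf (nat_lit 23) (nat_lit 13126066816545818656)) .nil)))),
 (.br (nat_lit 10) (nat_lit 0) (.cons (.ev (nat_lit 80159035413814347235600629762) (nat_lit 2)) .nil)),
 (.br (nat_lit 2) (nat_lit 0) (.cons (.rf (nat_lit 24) (nat_lit 14242959524133701664)) (.cons (.br (nat_lit 7) (nat_lit 0) (.cons (.ev (nat_lit 2422666961425724657502724) (nat_lit 4)) (.cons (.rf (nat_lit 25) (nat_lit 14242959524133701664)) (.cons (.rf (nat_lit 25) (nat_lit 13126066816545818656)) .nil)))) .nil))),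
 (.br (nat_lit 2) (nat_lit 0) (.cons (.rf (nat_lit 24) (nat_lit 14242959524133701664)) (.cons (.rf (nat_lit 26) (nat_lit 14242959524133701664)) (.cons (.rf (nat_lit 26) (nat_lit 13126066816545818656)) .nil)))),
 (.br (nat_lit 2) (nat_lit 0) (.cons (.rf (nat_lit 24) (nat_lit 14242959524133701664)) (.cons (.rf (nat_lit 27) (nat_lit 14242959524133701664)) (.cons (.br (nat_lit 2) (nat_lit 0) (.cons (.rf (nat_lit 24) (nat_lit 14242959524133701664)) (.cons (.rf (nat_lit 27) (nat_lit 14242959524133701664)) .nil))) .nil)))),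
 (.br (nat_lit 2) (nat_lit 0) (.cons (.rf (nat_lit 24) (nat_lit 14242959524133701664)) (.cons (.rf (nat_lit 27) (nat_lit 14242959524133701664)) (.cons (.rf (nat_lit 28) (nat_lit 14242959524133701664)) (.cons (.rf (nat_lit 28) (nat_lit 13126066816545818656)) .nil))))),
 (.br (nat_lit 8) (nat_lit 0) .nil),
 (.br (nat_lit 2) (nat_lit 0) (.cons (.br (nat_lit 7) (nat_lit 0) (.cons (.rf (nat_lit 30) (nat_lit 13583073249312)) (.cons (.br (nat_lit 10) (nat_lit 0) (.cons (.ev (nat_lit 1109813250108309034805558903300) (nat_lit 4)) .nil)) .nil))) (.cons (.br (nat_lit 7) (nat_lit 0) (.cons (.br (nat_lit 11) (nat_lit 0) (.cons (.ev (nat_lit 478466247850760901973169015300) (nat_lit 4)) .nil)) (.cons (.br (nat_lit 10) (nat_lit 0) (.cons (.ev (nat_lit 2422666672060643881780224) (nat_lit 3)) .nil)) (.cons (.br (nat_lit 10) (nat_lit 0) (.cons (.ev (nat_lit 7258369663419082382246912) (nat_lit 3)) .nil)) .nil)))) .nil))),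
 (.br (nat_lit 2) (nat_lit 0) (.cons (.rf (nat_lit 31) (nat_lit 14242959524133701664)) (.cons (.br (nat_lit 7) (nat_lit 0) (.cons (.br (nat_lit 10) (nat_lit 0) (.cons (.ev (nat_lit 1208981376301111705600257) (nat_lit 2)) .nil)) (.cons (.ev (nat_lit 80156617580766541288501870595) (nat_lit 2)) .nil))) .nil))),
 (.br (nat_lit 2) (nat_lit 0) (.cons (.rf (nat_lit 31) (nat_lit 14242959524133701664)) (.cons (.rf (nat_lit 32) (nat_lit 14242959524133701664)) (.cons (.br (nat_lit 2) (nat_lit 0) (.cons (.rf (nat_lit 31) (nat_lit 14242959524133701664)) (.cons (.rf (nat_lit 32) (nat_lit 14242959524133701664)) .nil))) .nil)))),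
 (.br (nat_lit 2) (nat_lit 0) (.cons (.rf (nat_lit 33) (nat_lit 14242959524133701664)) (.cons (.rf (nat_lit 33) (nat_lit 14239547841591740448)) (.cons (.br (nat_lit 2) (nat_lit 0) (.cons (.rf (nat_lit 33) (nat_lit 14242959524133701664)) (.cons (.rf (nat_lit 33) (nat_lit 14239547841591740448)) .nil))) .nil)))),
 (.br (nat_lit 2) (nat_lit 0) (.cons (.rf (nat_lit 33) (nat_lit 14242959524133701664)) (.cons (.rf (nat_lit 33) (nat_lit 14239547841591740448)) (.cons (.rf (nat_lit 34) (nat_lit 14242959524133701664)) (.cons (.br (nat_lit 2) (nat_lit 0) (.cons (.rf (nat_lit 33) (nat_lit 14242959524133701664)) (.cons (.rf (nat_lit 33) (nat_lit 14239547841591740448)) (.cons (.rf (nat_lit 34) (nat_lit 14242959524133701664)) .nil)))) .nil))))),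
 (.br (nat_lit 1) (nat_lit 0) (.cons (.kr (nat_lit 1) (nat_lit 256) (nat_lit 0) (nat_lit 2)) (.cons (.rf (nat_lit 29) (nat_lit 14242959524133701664)) (.cons (.rf (nat_lit 29) (nat_lit 14239547841591740448)) (.cons (.rf (nat_lit 35) (nat_lit 14242959524133701664)) (.cons (.rf (nat_lit 35) (nat_lit 13126066816545818656)) .nil)))))),
 (.br (nat_lit 2) (nat_lit 0) (.cons (.ev (nat_lit 72339073309606144) (nat_lit 1)) (.cons (.ev (nat_lit 1208926036072184833638912) (nat_lit 2)) (.cons (.br (nat_lit 10) (nat_lit 0) (.cons (.ev (nat_lit 7258407420470302444357130) (nat_lit 4)) (.cons (.zr (nat_lit 1218389071382036212613379) (nat_lit 309485009821909118206803968) (nat_lit 5) (nat_lit 1)) (.cons (.zr (nat_lit 1218389071382036212613379) (nat_lit 79228162514264901643025973248) (nat_lit 5) (nat_lit 1)) .nil)))) .nil)))),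
 (.br (nat_lit 2) (nat_lit 0) (.cons (.ev (nat_lit 72339073309606144) (nat_lit 1)) (.cons (.ev (nat_lit 1208926036072184833638912) (nat_lit 2)) (.cons (.rf (nat_lit 37) (nat_lit 14242959524133701664)) (.cons (.rf (nat_lit 37) (nat_lit 13126066816545818656)) .nil))))),
 (.br (nat_lit 2) (nat_lit 0) (.cons (.rf (nat_lit 38) (nat_lit 14239547841591740448)) (.cons (.br (nat_lit 2) (nat_lit 0) (.cons (.ev (nat_lit 2422703854911673053219334) (nat_lit 4)) .nil)) .nil))),
 (.br (nat_lit 2) (nat_lit 0) (.cons (.rf (nat_lit 38) (nat_lit 14239547841591740448)) (.cons (.rf (nat_lit 39) (nat_lit 14242959524133701664)) (.cons (.rf (nat_lit 39) (nat_lit 13126066816545818656)) .nil)))),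
 (.br (nat_lit 10) (nat_lit 0) (.cons (.rf (nat_lit 38) (nat_lit 14239547841591740448)) (.cons (.rf (nat_lit 40) (nat_lit 14239547841591740448)) (.cons (.ev (nat_lit 1208926036072184833638912) (nat_lit 2)) (.cons (.br (nat_lit 4) (nat_lit 0) (.cons (.br (nat_lit 11) (nat_lit 0) (.cons (.br (nat_lit 2) (nat_lit 0) (.cons (.ev (nat_lit 160320493494013650621658301440) (nat_lit 3)) .nil)) (.cons (.kr (nat_lit 158456329750895159156244742144) (nat_lit 618970038089715686135824384) (nat_lit 5) (nat_lit 0)) .nil))) (.cons (.ev (nat_lit 72339073309606144) (nat_lit 1)) (.cons (.ev (nat_lit 1213666633123051801149696) (nat_lit 1)) .nil)))) .nil)))))]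

theorem c0 : chkAll C T R L0 (nat_lit 0) = true := by decide +kernel

theorem l0 : (nat_lit 0) + L0.length = (nat_lit 42) := by decide +kernel

/-- part of the certificates -/
def L1 : List Prf := [(.br (nat_lit 10) (nat_lit 0) (.cons (.ev (nat_lit 7258369663419099629487108) (nat_lit 3)) .nil)),
 (.br (nat_lit 2) (nat_lit 0) (.cons (.ev (nat_lit 72339069031481344) (nat_lit 1)) (.cons (.kr (nat_lit 4294967552) (nat_lit 16842752) (nat_lit 1) (nat_lit 0)) (.cons (.br (nat_lit 10) (nat_lit 0) (.cons (.rf (nat_lit 42) (nat_lit 14242959524133701664)) (.cons (.rf (nat_lit 42) (nat_lit 13126066816544801856)) .nil))) .nil)))),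
 (.br (nat_lit 2) (nat_lit 0) (.cons (.ev (nat_lit 72339069031481344) (nat_lit 1)) (.cons (.kr (nat_lit 18447025557276197376) (nat_lit 4722366483969190526976) (nat_lit 1) (nat_lit 0)) (.cons (.br (nat_lit 7) (nat_lit 0) (.cons (.br (nat_lit 11) (nat_lit 0) (.cons (.ev (nat_lit 951978312877418857122084030980) (nat_lit 4)) .nil)) (.cons (.br (nat_lit 10) (nat_lit 0) (.cons (.ev (nat_lit 80159035450707837582043120130) (nat_lit 2)) .nil)) (.cons (.br (nat_lit 10) (nat_lit 0) (.cons (.ev (nat_lit 80159035450707837590666477570) (nat_lit 2)) .nil)) .nil)))) .nil)))),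
 (.br (nat_lit 10) (nat_lit 0) (.cons (.ev (nat_lit 626228426199030036397295110) (nat_lit 3)) (.cons (.zr (nat_lit 1213648258156192369475840) (nat_lit 309485028268370617427820544) (nat_lit 5) (nat_lit 7)) (.cons (.ev (nat_lit 1208944266358702901035264) (nat_lit 1)) .nil)))),
 (.br (nat_lit 6) (nat_lit 0) .nil),
 (.br (nat_lit 2) (nat_lit 0) (.cons (.kr (nat_lit 4294967552) (nat_lit 16842752) (nat_lit 1) (nat_lit 0)) (.cons (.kr (nat_lit 18447025557276197376) (nat_lit 4722366483969190526976) (nat_lit 1) (nat_lit 0)) (.cons (.br (nat_lit 7) (nat_lit 0) (.cons (.rf (nat_lit 45) (nat_lit 14242959524133701664)) (.cons (.rf (nat_lit 46) (nat_lit 13583073249312)) .nil))) .nil)))),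
 (.br (nat_lit 2) (nat_lit 0) (.cons (.rf (nat_lit 43) (nat_lit 14242959524133701664)) (.cons (.rf (nat_lit 44) (nat_lit 14242959524133701664)) (.cons (.rf (nat_lit 47) (nat_lit 14242959524133701664)) (.cons (.br (nat_lit 2) (nat_lit 0) (.cons (.rf (nat_lit 43) (nat_lit 14242959524133701664)) (.cons (.rf (nat_lit 44) (nat_lit 14242959524133701664)) (.cons (.rf (nat_lit 47) (nat_lit 14242959524133701664)) .nil)))) .nil))))),
 (.br (nat_lit 8) (nat_lit 0) .nil),
 (.br (nat_lit 11) (nat_lit 0) (.cons (.ev (nat_lit 79537652246524223130246906113) (nat_lit 1)) .nil)),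
 (.br (nat_lit 2) (nat_lit 0) (.cons (.ev (nat_lit 72339069031481344) (nat_lit 1)) (.cons (.br (nat_lit 4) (nat_lit 0) (.cons (.rf (nat_lit 49) (nat_lit 13583073249312)) (.cons (.br (nat_lit 10) (nat_lit 0) (.cons (.ev (nat_lit 1208944482815167588008451) (nat_lit 2)) .nil)) .nil))) (.cons (.br (nat_lit 10) (nat_lit 0) (.cons (.rf (nat_lit 50) (nat_lit 14242959524133701664)) (.cons (.ev (nat_lit 1223130029288217142034945) (nat_lit 2)) (.cons (.br (nat_lit 4) (nat_lit 0) (.cons (.ev (nat_lit 162796373721021937802954673666) (nat_lit 4)) .nil)) .nil)))) .nil)))),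
 (.br (nat_lit 2) (nat_lit 0) (.cons (.kr (nat_lit 4294967552) (nat_lit 16842752) (nat_lit 1) (nat_lit 0)) (.cons (.rf (nat_lit 51) (nat_lit 14242959524133701664)) (.cons (.br (nat_lit 4) (nat_lit 0) (.cons (.br (nat_lit 10) (nat_lit 0) (.cons (.ev (nat_lit 1208944482815163309883651) (nat_lit 2)) .nil)) (.cons (.ev (nat_lit 79537647542604766904521326593) (nat_lit 1)) .nil))) .nil)))),
 (.br (nat_lit 2) (nat_lit 0) (.cons (.rf (nat_lit 48) (nat_lit 14242959524133701664)) (.cons (.rf (nat_lit 51) (nat_lit 14242959524133701664)) (.cons (.rf (nat_lit 52) (nat_lit 14242959524133701664)) (.cons (.br (nat_lit 2) (nat_lit 0) (.cons (.rf (nat_lit 48) (nat_lit 14242959524133701664)) (.cons (.rf (nat_lit 51) (nat_lit 14242959524133701664)) (.cons (.rf (nat_lit 52) (nat_lit 14242959524133701664)) .nil)))) .nil))))),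
 (.br (nat_lit 2) (nat_lit 0) (.cons (.kr (nat_lit 18447025557276197376) (nat_lit 4722366483969190526976) (nat_lit 1) (nat_lit 0)) (.cons (.rf (nat_lit 53) (nat_lit 14242959524133701664)) (.cons (.br (nat_lit 4) (nat_lit 0) (.cons (.br (nat_lit 10) (nat_lit 0) (.cons (.ev (nat_lit 80159035450707837582043119616) (nat_lit 2)) .nil)) (.cons (.ev (nat_lit 1213648186380077603291136) (nat_lit 1)) (.cons (.zr (nat_lit 309485028268370630295945219) (nat_lit 158456325028528675187155140608) (nat_lit 5) (nat_lit 4)) .nil)))) .nil)))),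
 (.br (nat_lit 2) (nat_lit 0) (.cons (.rf (nat_lit 48) (nat_lit 14242959524133701664)) (.cons (.rf (nat_lit 53) (nat_lit 14242959524133701664)) (.cons (.rf (nat_lit 54) (nat_lit 14242959524133701664)) (.cons (.br (nat_lit 2) (nat_lit 0) (.cons (.rf (nat_lit 48) (nat_lit 14242959524133701664)) (.cons (.rf (nat_lit 53) (nat_lit 14242959524133701664)) (.cons (.rf (nat_lit 54) (nat_lit 14242959524133701664)) .nil)))) .nil))))),
 (.br (nat_lit 2) (nat_lit 0) (.cons (.rf (nat_lit 48) (nat_lit 14242959524133701664)) (.cons (.rf (nat_lit 53) (nat_lit 14242959524133701664)) (.cons (.rf (nat_lit 55) (nat_lit 14242959524133701664)) (.cons (.br (nat_lit 2) (nat_lit 0) (.cons (.rf (nat_lit 48) (nat_lit 14242959524133701664)) (.cons (.rf (nat_lit 53) (nat_lit 14242959524133701664)) (.cons (.rf (nat_lit 55) (nat_lit 14242959524133701664)) .nil)))) .nil))))),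
 (.br (nat_lit 2) (nat_lit 0) (.cons (.rf (nat_lit 48) (nat_lit 14242959524133701664)) (.cons (.rf (nat_lit 53) (nat_lit 14242959524133701664)) (.cons (.rf (nat_lit 55) (nat_lit 14242959524133701664)) (.cons (.rf (nat_lit 56) (nat_lit 14242959524133701664)) (.cons (.br (nat_lit 2) (nat_lit 0) (.cons (.rf (nat_lit 48) (nat_lit 14242959524133701664)) (.cons (.rf (nat_lit 53) (nat_lit 14242959524133701664)) (.cons (.rf (nat_lit 55) (nat_lit 14242959524133701664)) (.cons (.rf (nat_lit 56) (nat_lit 14242959524133701664)) .nil))))) .nil)))))),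
 (.br (nat_lit 1) (nat_lit 0) (.cons (.rf (nat_lit 20) (nat_lit 14242959524133701664)) (.cons (.rf (nat_lit 36) (nat_lit 14242959524133701664)) (.cons (.br (nat_lit 7) (nat_lit 0) (.cons (.rf (nat_lit 38) (nat_lit 14242959524133701664)) (.cons (.rf (nat_lit 40) (nat_lit 14242959524133701664)) (.cons (.ev (nat_lit 7258406556905022221714432) (nat_lit 3)) (.cons (.rf (nat_lit 41) (nat_lit 14242959524133701664)) (.cons (.rf (nat_lit 41) (nat_lit 13126066816545818656)) .nil)))))) (.cons (.rf (nat_lit 57) (nat_lit 14242959524133701664)) (.cons (.rf (nat_lit 57) (nat_lit 13126066816545818656)) .nil)))))),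
 (.br (nat_lit 10) (nat_lit 0) (.cons (.ev (nat_lit 79538856468352041369448022273) (nat_lit 1)) .nil)),
 (.br (nat_lit 2) (nat_lit 0) (.cons (.rf (nat_lit 58) (nat_lit 14242959524132684864)) (.cons (.br (nat_lit 4) (nat_lit 0) (.cons (.rf (nat_lit 59) (nat_lit 14242959524133701664)) (.cons (.rf (nat_lit 59) (nat_lit 14239547841591740448)) (.cons (.br (nat_lit 7) (nat_lit 0) (.cons (.ev (nat_lit 7258406556905039334736900) (nat_lit 3)) .nil)) .nil)))) (.cons (.br (nat_lit 4) (nat_lit 0) (.cons (.ev (nat_lit 18519084246530850816) (nat_lit 1)) (.cons (.br (nat_lit 7) (nat_lit 0) (.cons (.ev (nat_lit 159076503974207437522272846080) (nat_lit 2)) .nil)) .nil))) .nil)))),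
 (.br (nat_lit 2) (nat_lit 0) (.cons (.br (nat_lit 2) (nat_lit 0) (.cons (.rf (nat_lit 58) (nat_lit 14242959524132684864)) (.cons (.rf (nat_lit 58) (nat_lit 14239547841590723648)) (.cons (.kr (nat_lit 4294967552) (nat_lit 16842752) (nat_lit 1) (nat_lit 0)) .nil)))) (.cons (.rf (nat_lit 60) (nat_lit 14242959524133701664)) (.cons (.rf (nat_lit 60) (nat_lit 14239547841591740448)) (.cons (.br (nat_lit 2) (nat_lit 0) (.cons (.kr (nat_lit 4294967552) (nat_lit 16842752) (nat_lit 1) (nat_lit 0)) (.cons (.rf (nat_lit 60) (nat_lit 14242959524133701664)) (.cons (.rf (nat_lit 60) (nat_lit 14239547841591740448)) .nil)))) .nil))))),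
 (.br (nat_lit 2) (nat_lit 0) (.cons (.br (nat_lit 2) (nat_lit 0) (.cons (.rf (nat_lit 61) (nat_lit 13126066816545818656)) .nil)) (.cons (.rf (nat_lit 61) (nat_lit 13126066816545818656)) .nil))),
 (.br (nat_lit 2) (nat_lit 0) (.cons (.rf (nat_lit 62) (nat_lit 14242959524133701664)) (.cons (.rf (nat_lit 62) (nat_lit 14239547841591740448)) (.cons (.rf (nat_lit 61) (nat_lit 13126066816545818656)) .nil)))),
 (.br (nat_lit 12) (nat_lit 0) (.cons (.rf (nat_lit 61) (nat_lit 13126066816545818656)) (.cons (.rf (nat_lit 63) (nat_lit 13126066816545818656)) (.cons (.ev (nat_lit 79537647542604766904521326848) (nat_lit 1)) (.cons (.br (nat_lit 7) (nat_lit 0) (.cons (.br (nat_lit 2) (nat_lit 0) (.cons (.rf (nat_lit 58) (nat_lit 14242959524132684864)) (.cons (.ev (nat_lit 475995203511785620720934978560) (nat_lit 3)) .nil))) (.cons (.br (nat_lit 2) (nat_lit 0) (.cons (.kr (nat_lit 4740813226943354765313) (nat_lit 1208925891672223212634368) (nat_lit 0) (nat_lit 2)) .nil)) (.cons (.ev (nat_lit 80157840655310918042662208000)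 (nat_lit 2)) .nil)))) .nil))))),
 (.br (nat_lit 1) (nat_lit 0) (.cons (.rf (nat_lit 20) (nat_lit 14242959524133701664)) (.cons (.rf (nat_lit 36) (nat_lit 14242959524133701664)) (.cons (.rf (nat_lit 58) (nat_lit 14242959524133701664)) (.cons (.rf (nat_lit 58) (nat_lit 14239547841591740448)) (.cons (.br (nat_lit 11) (nat_lit 0) (.cons (.rf (nat_lit 61) (nat_lit 14242959524133701664)) (.cons (.rf (nat_lit 63) (nat_lit 14242959524133701664)) (.cons (.rf (nat_lit 64) (nat_lit 14242959524133701664)) (.cons (.rf (nat_lit 64) (nat_lit 14239547841591740448)) (.cons (.kr (nat_lit 309485009821345068724781056) (nat_lit 79228162514264337593543950336) (nat_lit 11) (nat_lit 0)) .nil)))))) .nil)))))),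
 (.br (nat_lit 1) (nat_lit 0) (.cons (.rf (nat_lit 20) (nat_lit 14242959524133701664)) (.cons (.rf (nat_lit 36) (nat_lit 14242959524133701664)) (.cons (.rf (nat_lit 58) (nat_lit 14242959524133701664)) (.cons (.rf (nat_lit 58) (nat_lit 14239547841591740448)) (.cons (.rf (nat_lit 65) (nat_lit 14242959524133701664)) (.cons (.rf (nat_lit 65) (nat_lit 13126066816545818656)) .nil))))))),
 (.br (nat_lit 2) (nat_lit 0) (.cons (.br (nat_lit 2) (nat_lit 0) (.cons (.kr (nat_lit 256) (nat_lit 65536) (nat_lit 1) (nat_lit 0)) (.cons (.ev (nat_lit 4840444093659109296309760) (nat_lit 3)) .nil))) (.cons (.br (nat_lit 2) (nat_lit 0) (.cons (.kr (nat_lit 256) (nat_lit 65536) (nat_lit 1) (nat_lit 0)) (.cons (.kr (nat_lit 4740813226943354765314) (nat_lit 282574488469504) (nat_lit 0) (nat_lit 1)) .nil))) (.cons (.br (nat_lit 2) (nat_lit 0) (.cons (.ev (nat_lit 4840444093659109296309760) (nat_lit 3)) (.cons (.kr (nat_lit 4740813226943354765314) (nat_lit 282574488469504) (nat_lit 0) (nat_lit 1)) .nil))) .nil)))),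
 (.br (nat_lit 1) (nat_lit 0) (.cons (.rf (nat_lit 67) (nat_lit 14242959524133701664)) (.cons (.rf (nat_lit 67) (nat_lit 13126066816545818656)) .nil))),
 (.br (nat_lit 1) (nat_lit 0) (.cons (.rf (nat_lit 68) (nat_lit 14242959524133701664)) (.cons (.kr (nat_lit 4740813226943354765314) (nat_lit 282574488338944) (nat_lit 0) (nat_lit 2)) .nil))),
 (.br (nat_lit 1) (nat_lit 0) (.cons (.rf (nat_lit 68) (nat_lit 14242959524133701664)) (.cons (.rf (nat_lit 69) (nat_lit 14242959524133701664)) (.cons (.rf (nat_lit 69) (nat_lit 13126066816545818656)) .nil)))),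
 (.br (nat_lit 1) (nat_lit 0) (.cons (.rf (nat_lit 70) (nat_lit 14242959524133701664)) (.cons (.br (nat_lit 11) (nat_lit 0) (.cons (.br (nat_lit 10) (nat_lit 0) (.cons (.br (nat_lit 2) (nat_lit 0) (.cons (.ev (nat_lit 159076503974207437513649488640) (nat_lit 2)) .nil)) (.cons (.ev (nat_lit 80159035395367604261402706177) (nat_lit 2)) .nil))) (.cons (.br (nat_lit 2) (nat_lit 0) (.cons (.ev (nat_lit 80159035395367604270026195715) (nat_lit 2)) .nil)) (.cons (.kr (nat_lit 309485009821345068724781056) (nat_lit 79228162514264337593543950336) (nat_lit 11) (nat_lit 0)) .nil)))) .nil))),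
 (.br (nat_lit 1) (nat_lit 0) (.cons (.rf (nat_lit 70) (nat_lit 14242959524133701664)) (.cons (.rf (nat_lit 71) (nat_lit 14242959524133701664)) (.cons (.rf (nat_lit 71) (nat_lit 13126066816545818656)) .nil)))),
 (.br (nat_lit 1) (nat_lit 0) (.cons (.rf (nat_lit 70) (nat_lit 14242959524133701664)) (.cons (.rf (nat_lit 72) (nat_lit 14242959524133701664)) (.cons (.br (nat_lit 1) (nat_lit 0) (.cons (.kr (nat_lit 4740813226943354765314) (nat_lit 282574488338944) (nat_lit 0) (nat_lit 2)) (.cons (.rf (nat_lit 72) (nat_lit 14242959524133701664)) .nil))) .nil)))),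
 (.br (nat_lit 2) (nat_lit 0) (.cons (.kr (nat_lit 4740813226943354765314) (nat_lit 282574488469504) (nat_lit 0) (nat_lit 1)) .nil)),
 (.br (nat_lit 2) (nat_lit 0) (.cons (.kr (nat_lit 18447025548686262784) (nat_lit 4722366483969156972544) (nat_lit 1) (nat_lit 0)) (.cons (.br (nat_lit 11) (nat_lit 0) (.cons (.ev (nat_lit 80157826525104673915702149376) (nat_lit 2)) .nil)) .nil))),
 (.br (nat_lit 2) (nat_lit 0) (.cons (.rf (nat_lit 75) (nat_lit 14242959524133701664)) (.cons (.br (nat_lit 2) (nat_lit 0) (.cons (.kr (nat_lit 18447025548686262784) (nat_lit 4722366483969156972544) (nat_lit 1) (nat_lit 0)) (.cons (.kr (nat_lit 4740813226943354765314) (nat_lit 282574488469504) (nat_lit 0) (nat_lit 1)) .nil))) (.cons (.br (nat_lit 2) (nat_lit 0) (.cons (.rf (nat_lit 75) (nat_lit 14242959524133701664)) (.cons (.kr (nat_lit 4740813226943354765314) (nat_lit 282574488469504) (nat_lit 0) (nat_lit 1)) .nil))) .nil)))),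
 (.br (nat_lit 1) (nat_lit 0) (.cons (.br (nat_lit 2) (nat_lit 0) (.cons (.rf (nat_lit 74) (nat_lit 14242959524133701664)) (.cons (.rf (nat_lit 74) (nat_lit 13126066816545818656)) .nil))) (.cons (.rf (nat_lit 76) (nat_lit 14242959524133701664)) (.cons (.rf (nat_lit 76) (nat_lit 13126066816545818656)) .nil)))),
 (.br (nat_lit 1) (nat_lit 0) (.cons (.rf (nat_lit 77) (nat_lit 14242959524133701664)) (.cons (.rf (nat_lit 77) (nat_lit 14239547841590724640)) (.cons (.kr (nat_lit 4740813226943354765314) (nat_lit 282574488338944) (nat_lit 0) (nat_lit 2)) .nil)))),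
 (.br (nat_lit 1) (nat_lit 0) (.cons (.rf (nat_lit 77) (nat_lit 14242959524133701664)) (.cons (.rf (nat_lit 77) (nat_lit 14239547841590724640)) (.cons (.rf (nat_lit 78) (nat_lit 14242959524133701664)) (.cons (.rf (nat_lit 78) (nat_lit 13126066816545818656)) .nil))))),
 (.br (nat_lit 2) (nat_lit 0) (.cons (.br (nat_lit 2) (nat_lit 0) .nil) .nil)),
 (.br (nat_lit 2) (nat_lit 0) (.cons (.rf (nat_lit 80) (nat_lit 247132686368)) (.cons (.br (nat_lit 2) (nat_lit 0) (.cons (.rf (nat_lit 80) (nat_lit 247132686368)) .nil)) .nil)))]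

theorem c1 : chkAll C T R L1 (nat_lit 42) = true := by decide +kernel

theorem l1 : (nat_lit 42) + L1.length = (nat_lit 82) := by decide +kernel

/-- part of the certificates -/
def L2 : List Prf := [(.br (nat_lit 1) (nat_lit 0) (.cons (.rf (nat_lit 79) (nat_lit 14242959524133701664)) (.cons (.rf (nat_lit 81) (nat_lit 388933716000)) (.cons (.rf (nat_lit 81) (nat_lit 423293454368)) .nil)))),
 (.br (nat_lit 1) (nat_lit 0) (.cons (.rf (nat_lit 79) (nat_lit 14242959524133701664)) (.cons (.rf (nat_lit 81) (nat_lit 388933716000)) (.cons (.ev (nat_lit 18519084242252595456) (nat_lit 1)) .nil)))),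
 (.br (nat_lit 1) (nat_lit 0) (.cons (.rf (nat_lit 79) (nat_lit 14242959524133701664)) (.cons (.rf (nat_lit 82) (nat_lit 14242959524133701664)) (.cons (.rf (nat_lit 83) (nat_lit 14242959524133701664)) (.cons (.rf (nat_lit 83) (nat_lit 13126066816545818656)) .nil))))),
 (.br (nat_lit 1) (nat_lit 0) (.cons (.rf (nat_lit 79) (nat_lit 14242959524133701664)) (.cons (.rf (nat_lit 84) (nat_lit 14242959524133701664)) (.cons (.rf (nat_lit 84) (nat_lit 14239547841590724640)) (.cons (.br (nat_lit 1) (nat_lit 0) (.cons (.kr (nat_lit 4740813226943354765314) (nat_lit 282574488338944) (nat_lit 0) (nat_lit 2)) (.cons (.ev (nat_lit 18519084242252595456) (nat_lit 1)) (.cons (.ev (nat_lit 1213648186380077603225856) (nat_lit 1)) .nil)))) .nil))))),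
 (.br (nat_lit 2) (nat_lit 0) (.cons (.br (nat_lit 10) (nat_lit 0) (.cons (.ev (nat_lit 160315657791022300987807498240) (nat_lit 3)) .nil)) .nil)),
 (.br (nat_lit 2) (nat_lit 0) (.cons (.br (nat_lit 10) (nat_lit 0) (.cons (.ev (nat_lit 80160244321260119805755719681) (nat_lit 2)) .nil)) (.cons (.kr (nat_lit 18447025548686262784) (nat_lit 4722366483969156972544) (nat_lit 1) (nat_lit 0)) .nil))),
 (.br (nat_lit 1) (nat_lit 0) (.cons (.br (nat_lit 2) (nat_lit 0) (.cons (.br (nat_lit 2) (nat_lit 0) (.cons (.ev (nat_lit 4840554774125750576612358) (nat_lit 3)) (.cons (.ev (nat_lit 4840444093659109296309760) (nat_lit 3)) .nil))) (.cons (.br (nat_lit 2) (nat_lit 0) (.cons (.ev (nat_lit 4840554774125750576612358) (nat_lit 3)) (.cons (.kr (nat_lit 4740813226943354765314) (nat_lit 282574488469504) (nat_lit 0) (nat_lit 1)) .nil))) (.cons (.br (nat_lit 2) (nat_lit 0) (.cons (.ev (nat_lit 4840444093659109296309760) (nat_lit 3)) (.cons (.kr (nat_lit 4740813226943354765314) (nat_lit 282574488469504)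 (nat_lit 0) (nat_lit 1)) .nil))) .nil)))) (.cons (.br (nat_lit 2) (nat_lit 0) (.cons (.rf (nat_lit 86) (nat_lit 14242959524133701664)) (.cons (.br (nat_lit 2) (nat_lit 0) (.cons (.rf (nat_lit 86) (nat_lit 14242959524133701664)) .nil)) .nil))) (.cons (.br (nat_lit 2) (nat_lit 0) (.cons (.rf (nat_lit 87) (nat_lit 14242959524133701664)) (.cons (.br (nat_lit 2) (nat_lit 0) (.cons (.rf (nat_lit 87) (nat_lit 14242959524133701664)) (.cons (.kr (nat_lit 4740813226943354765314) (nat_lit 282574488469504) (nat_lit 0) (nat_lit 1)) .nil))) (.cons (.br (nat_lit 2) (nat_lit 0) (.cons (.kr (nat_lit 18447025548686262784) (nat_lit 4722366483969156972544) (nat_lit 1) (nat_lit 0)) (.cons (.kr (nat_lit 4740813226943354765314) (nat_lit 282574488469504) (nat_lit 0) (nat_lit 1)) .nil))) .nil)))) .nil)))),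
 (.br (nat_lit 1) (nat_lit 0) (.cons (.rf (nat_lit 88) (nat_lit 14242959524133701664)) (.cons (.br (nat_lit 2) (nat_lit 0) (.cons (.rf (nat_lit 88) (nat_lit 14242959524133700672)) (.cons (.br (nat_lit 2) (nat_lit 0) (.cons (.ev (nat_lit 4840554774125750576742918) (nat_lit 3)) (.cons (.ev (nat_lit 4840480987145057692026370) (nat_lit 3)) .nil))) (.cons (.br (nat_lit 2) (nat_lit 0) (.cons (.rf (nat_lit 88) (nat_lit 14242959524133700672)) (.cons (.ev (nat_lit 4840480987145057692026370) (nat_lit 3)) .nil))) .nil)))) (.cons (.br (nat_lit 2) (nat_lit 0) (.cons (.rf (nat_lit 88) (nat_lit 14242959524133700672)) (.cons (.br (nat_lit 2) (nat_lit 0) (.cons (.ev (nat_lit 4840444093659109296309760) (nat_lit 3)) (.cons (.ev (nat_lit 4840480987145057692156930) (nat_lit 3)) (.cons (.kr (nat_lit 256) (nat_lit 65536) (nat_lit 1) (nat_lit 0)) .nil)))) (.cons (.br (nat_lit 2) (nat_lit 0) (.cons (.rf (nat_lit 88) (nat_lit 14242959524133700672)) (.cons (.ev (nat_lit 4840480987145057692156930) (nat_lit 3))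 (.cons (.kr (nat_lit 4740813226943354765314) (nat_lit 282574488469504) (nat_lit 0) (nat_lit 1)) .nil)))) (.cons (.br (nat_lit 2) (nat_lit 0) (.cons (.kr (nat_lit 4722366483969156841984) (nat_lit 18447025548686393344) (nat_lit 1) (nat_lit 0)) (.cons (.kr (nat_lit 256) (nat_lit 65536) (nat_lit 1) (nat_lit 0)) (.cons (.kr (nat_lit 4740813226943354765314) (nat_lit 282574488469504) (nat_lit 0) (nat_lit 1)) .nil)))) .nil))))) .nil)))),
 (.br (nat_lit 1) (nat_lit 0) (.cons (.rf (nat_lit 88) (nat_lit 14242959524133701664)) (.cons (.rf (nat_lit 89) (nat_lit 14242959524133701664)) (.cons (.br (nat_lit 1) (nat_lit 0) (.cons (.rf (nat_lit 88) (nat_lit 14242959524133701664)) (.cons (.rf (nat_lit 89) (nat_lit 14242959524133701664)) (.cons (.kr (nat_lit 4740813226943354765314) (nat_lit 282574488338944) (nat_lit 0) (nat_lit 2)) .nil)))) (.cons (.br (nat_lit 1) (nat_lit 0) (.cons (.rf (nat_lit 88) (nat_lit 14242959524133701664)) (.cons (.rf (nat_lit 89) (nat_lit 14242959524133701664)) (.cons (.kr (nat_lit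 4740813226943354765314) (nat_lit 282574488338944) (nat_lit 0) (nat_lit 2)) .nil)))) .nil))))),
 (.br (nat_lit 2) (nat_lit 0) (.cons (.br (nat_lit 2) (nat_lit 0) (.cons (.ev (nat_lit 79538861190718805709791756288) (nat_lit 1)) .nil)) (.cons (.br (nat_lit 2) (nat_lit 0) (.cons (.ev (nat_lit 79538861190718805709791756288) (nat_lit 1)) .nil)) .nil))),
 (.br (nat_lit 10) (nat_lit 0) (.cons (.rf (nat_lit 91) (nat_lit 14242959524133701664)) (.cons (.zr (nat_lit 620178945534363460173824768) (nat_lit 237684487561239756858636369922) (nat_lit 5) (nat_lit 7)) .nil))),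
 (.br (nat_lit 1) (nat_lit 0) (.cons (.rf (nat_lit 90) (nat_lit 14242959524133701664)) (.cons (.ev (nat_lit 72339073309606144) (nat_lit 1)) (.cons (.br (nat_lit 2) (nat_lit 0) (.cons (.rf (nat_lit 91) (nat_lit 14242959524133701664)) (.cons (.rf (nat_lit 92) (nat_lit 14242959524133701664)) (.cons (.br (nat_lit 2) (nat_lit 0) (.cons (.rf (nat_lit 91) (nat_lit 14242959524133701664)) (.cons (.rf (nat_lit 92) (nat_lit 14242959524133701664)) .nil))) .nil)))) .nil)))),
 (.br (nat_lit 1) (nat_lit 0) (.cons (.rf (nat_lit 90) (nat_lit 14242959524133701664)) (.cons (.rf (nat_lit 93) (nat_lit 14242959524133701664)) (.cons (.br (nat_lit 1) (nat_lit 0) (.cons (.rf (nat_lit 90) (nat_lit 14242959524133701664)) (.cons (.ev (nat_lit 72339073309606144) (nat_lit 1)) (.cons (.ev (nat_lit 18519084242252595456) (nat_lit 1)) .nil)))) (.cons (.br (nat_lit 1) (nat_lit 0) (.cons (.rf (nat_lit 90) (nat_lit 14242959524133701664)) (.cons (.rf (nat_lit 93) (nat_lit 14242959524133701664)) (.cons (.ev (nat_lit 18519084242252595456)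 (nat_lit 1)) .nil)))) .nil))))),
 (.br (nat_lit 1) (nat_lit 0) (.cons (.rf (nat_lit 90) (nat_lit 14242959524133701664)) (.cons (.ev (nat_lit 72339073309606144) (nat_lit 1)) (.cons (.br (nat_lit 12) (nat_lit 0) (.cons (.zr (nat_lit 79228162514264623479452074496) (nat_lit 618970074982922358645325825) (nat_lit 5) (nat_lit 4)) (.cons (.zr (nat_lit 79228162514264622379940446464) (nat_lit 618970056536178284935774208) (nat_lit 5) (nat_lit 4)) (.cons (.ev (nat_lit 79538861172272062739871957248) (nat_lit 1)) .nil)))) .nil)))),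
 (.br (nat_lit 1) (nat_lit 0) (.cons (.rf (nat_lit 90) (nat_lit 14242959524133701664)) (.cons (.rf (nat_lit 94) (nat_lit 14242959524133701664)) (.cons (.rf (nat_lit 95) (nat_lit 14242959524133701664)) (.cons (.br (nat_lit 1) (nat_lit 0) (.cons (.rf (nat_lit 90) (nat_lit 14242959524133701664)) (.cons (.rf (nat_lit 94) (nat_lit 14242959524133701664)) (.cons (.rf (nat_lit 95) (nat_lit 14242959524133701664)) .nil)))) .nil))))),
 (.br (nat_lit 1) (nat_lit 0) (.cons (.rf (nat_lit 90) (nat_lit 14242959524133701664)) (.cons (.rf (nat_lit 94) (nat_lit 14242959524133701664)) (.cons (.rf (nat_lit 96) (nat_lit 14242959524133701664)) (.cons (.br (nat_lit 1) (nat_lit 0) (.cons (.kr (nat_lit 4740813226943354765314) (nat_lit 282574488338944) (nat_lit 0) (nat_lit 2)) (.cons (.ev (nat_lit 18519084242252595456) (nat_lit 1)) (.cons (.rf (nat_lit 96) (nat_lit 14242959524133701664)) .nil)))) .nil))))),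
 (.br (nat_lit 1) (nat_lit 0) (.cons (.rf (nat_lit 90) (nat_lit 14242959524133701664)) (.cons (.rf (nat_lit 94) (nat_lit 14242959524133701664)) (.cons (.rf (nat_lit 96) (nat_lit 14242959524133701664)) (.cons (.rf (nat_lit 97) (nat_lit 14242959524133701664)) (.cons (.br (nat_lit 1) (nat_lit 0) (.cons (.rf (nat_lit 90) (nat_lit 14242959524133701664)) (.cons (.rf (nat_lit 94) (nat_lit 14242959524133701664)) (.cons (.rf (nat_lit 96) (nat_lit 14242959524133701664)) (.cons (.rf (nat_lit 97) (nat_lit 14242959524133701664)) .nil))))) .nil)))))),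
 (.br (nat_lit 4) (nat_lit 0) (.cons (.rf (nat_lit 66) (nat_lit 14242959524132685856)) (.cons (.rf (nat_lit 66) (nat_lit 14242959524132684864)) (.cons (.br (nat_lit 1) (nat_lit 0) (.cons (.rf (nat_lit 70) (nat_lit 14242959524133701664)) (.cons (.rf (nat_lit 72) (nat_lit 14242959524133701664)) (.cons (.rf (nat_lit 73) (nat_lit 14242959524133701664)) (.cons (.rf (nat_lit 73) (nat_lit 13126066816545818656)) .nil))))) (.cons (.br (nat_lit 1) (nat_lit 0) (.cons (.rf (nat_lit 79) (nat_lit 14242959524133701664)) (.cons (.rf (nat_lit 84) (nat_lit 14242959524133701664)) (.cons (.rf (nat_lit 84) (nat_lit 14239547841590724640)) (.cons (.rf (nat_lit 85) (nat_lit 14242959524133701664)) (.cons (.rf (nat_lit 85) (nat_lit 13126066816545818656)) .nil)))))) (.cons (.rf (nat_lit 98) (nat_lit 14242959524133701664)) (.cons (.rf (nat_lit 98) (nat_lit 13126066816545818656)) .nil))))))),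
 (.br (nat_lit 2) (nat_lit 0) (.cons (.kr (nat_lit 256) (nat_lit 65536) (nat_lit 1) (nat_lit 0)) (.cons (.ev (nat_lit 4777995795398037602822) (nat_lit 3)) .nil))),
 (.br (nat_lit 1) (nat_lit 0) (.cons (.br (nat_lit 2) (nat_lit 0) (.cons (.rf (nat_lit 100) (nat_lit 14242959524133701664)) (.cons (.rf (nat_lit 100) (nat_lit 14239547841591740448)) (.cons (.br (nat_lit 2) (nat_lit 0) (.cons (.ev (nat_lit 4777995795398037602822) (nat_lit 3)) (.cons (.ev (nat_lit 4840480987145057692026370) (nat_lit 3)) .nil))) .nil)))) (.cons (.br (nat_lit 2) (nat_lit 0) (.cons (.br (nat_lit 2) (nat_lit 0) (.cons (.ev (nat_lit 4777995795398037472262) (nat_lit 3)) (.cons (.kr (nat_lit 256) (nat_lit 65536) (nat_lit 1) (nat_lit 0)) .nil))) (.cons (.br (nat_lit 2) (nat_lit 0) (.cons (.ev (nat_lit 4777995795398037472262) (nat_lit 3)) (.cons (.kr (nat_lit 18447025548686262784) (nat_lit 4722366483969156972544) (nat_lit 1) (nat_lit 0)) .nil))) (.cons (.br (nat_lit 2) (nat_lit 0) (.cons (.kr (nat_lit 256) (nat_lit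 65536) (nat_lit 1) (nat_lit 0)) (.cons (.kr (nat_lit 18447025548686262784) (nat_lit 4722366483969156972544) (nat_lit 1) (nat_lit 0)) .nil))) .nil)))) .nil))),
 (.br (nat_lit 1) (nat_lit 0) (.cons (.rf (nat_lit 101) (nat_lit 14242959524133701664)) (.cons (.rf (nat_lit 101) (nat_lit 14239547841591740448)) (.cons (.br (nat_lit 1) (nat_lit 0) (.cons (.rf (nat_lit 101) (nat_lit 14242959524133701664)) (.cons (.rf (nat_lit 101) (nat_lit 14239547841591740448)) .nil))) .nil)))),
 (.br (nat_lit 10) (nat_lit 0) (.cons (.br (nat_lit 2) (nat_lit 0) (.cons (.ev (nat_lit 318151799022523485378574681600) (nat_lit 3)) .nil)) (.cons (.ev (nat_lit 318153012799908286037445575170) (nat_lit 3)) .nil))),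
 (.br (nat_lit 1) (nat_lit 0) (.cons (.rf (nat_lit 102) (nat_lit 14242959524133701664)) (.cons (.br (nat_lit 2) (nat_lit 0) (.cons (.rf (nat_lit 103) (nat_lit 14242959524133701664)) (.cons (.rf (nat_lit 103) (nat_lit 14239547841591740448)) (.cons (.br (nat_lit 2) (nat_lit 0) (.cons (.rf (nat_lit 103) (nat_lit 14242959524133701664)) (.cons (.rf (nat_lit 103) (nat_lit 14239547841591740448)) .nil))) .nil)))) .nil))),
 (.br (nat_lit 1) (nat_lit 0) (.cons (.rf (nat_lit 102) (nat_lit 14242959524133701664)) (.cons (.rf (nat_lit 104) (nat_lit 14242959524133701664)) (.cons (.br (nat_lit 1) (nat_lit 0) (.cons (.rf (nat_lit 102) (nat_lit 14242959524133701664)) (.cons (.rf (nat_lit 104) (nat_lit 14242959524133701664)) .nil))) .nil)))),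
 (.br (nat_lit 2) (nat_lit 0) (.cons (.ev (nat_lit 4741102309466888471552) (nat_lit 3)) (.cons (.ev (nat_lit 4840444093659109295916032) (nat_lit 3)) (.cons (.kr (nat_lit 79228162514264337593560727552) (nat_lit 309485009821345073019748352) (nat_lit 3) (nat_lit 0)) .nil)))),
 (.br (nat_lit 2) (nat_lit 0) (.cons (.ev (nat_lit 4741102309466888732672) (nat_lit 3)) (.cons (.br (nat_lit 7) (nat_lit 0) (.cons (.ev (nat_lit 80157826525104673907145703426) (nat_lit 2)) .nil)) .nil))),
 (.br (nat_lit 2) (nat_lit 0) (.cons (.br (nat_lit 2) (nat_lit 0) (.cons (.ev (nat_lit 4741102309466888732672) (nat_lit 3)) (.cons (.ev (nat_lit 4814889281363680429060) (nat_lit 3)) .nil))) (.cons (.rf (nat_lit 107) (nat_lit 14242959524133701664)) (.cons (.br (nat_lit 2) (nat_lit 0) (.cons (.ev (nat_lit 4814889281363680429060) (nat_lit 3)) (.cons (.rf (nat_lit 107) (nat_lit 14242959524133701664)) .nil))) .nil)))),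
 (.br (nat_lit 1) (nat_lit 0) (.cons (.br (nat_lit 2) (nat_lit 0) (.cons (.ev (nat_lit 4741102309466888471552) (nat_lit 3)) (.cons (.ev (nat_lit 4840444093659109295916032) (nat_lit 3)) (.cons (.rf (nat_lit 106) (nat_lit 14242959524133701664)) (.cons (.rf (nat_lit 106) (nat_lit 13126066816544802848)) .nil))))) (.cons (.rf (nat_lit 108) (nat_lit 14242959524133701664)) (.cons (.rf (nat_lit 108) (nat_lit 13126066816544802848)) .nil)))),
 (.br (nat_lit 1) (nat_lit 0) (.cons (.rf (nat_lit 109) (nat_lit 14242959524133701664)) (.cons (.rf (nat_lit 109) (nat_lit 14239547841591740448)) (.cons (.kr (nat_lit 79228162514264337593560727552) (nat_lit 309485009821345073019748352) (nat_lit 3) (nat_lit 0)) .nil)))),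
 (.br (nat_lit 1) (nat_lit 0) (.cons (.rf (nat_lit 109) (nat_lit 14242959524133701664)) (.cons (.rf (nat_lit 109) (nat_lit 14239547841591740448)) (.cons (.rf (nat_lit 110) (nat_lit 14242959524133701664)) (.cons (.rf (nat_lit 110) (nat_lit 13126066816544802848)) .nil))))),
 (.br (nat_lit 10) (nat_lit 0) (.cons (.br (nat_lit 2) (nat_lit 0) (.cons (.ev (nat_lit 318150594911232011995508376580) (nat_lit 3)) .nil)) (.cons (.ev (nat_lit 318157848429112663783061325318) (nat_lit 3)) .nil))),
 (.br (nat_lit 2) (nat_lit 0) (.cons (.rf (nat_lit 112) (nat_lit 14242959524133701664)) (.cons (.rf (nat_lit 112) (nat_lit 14239547841591740448)) (.cons (.br (nat_lit 2) (nat_lit 0) (.cons (.rf (nat_lit 112) (nat_lit 14242959524133701664)) (.cons (.rf (nat_lit 112) (nat_lit 14239547841591740448)) .nil))) .nil)))),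
 (.br (nat_lit 1) (nat_lit 0) (.cons (.rf (nat_lit 111) (nat_lit 14242959524133701664)) (.cons (.rf (nat_lit 113) (nat_lit 14242959524133701664)) (.cons (.rf (nat_lit 113) (nat_lit 13126066816544802848)) .nil)))),
 (.br (nat_lit 1) (nat_lit 0) (.cons (.rf (nat_lit 111) (nat_lit 14242959524133701664)) (.cons (.rf (nat_lit 114) (nat_lit 14242959524133701664)) (.cons (.kr (nat_lit 79228162514264337593560727552) (nat_lit 309485009821345073019748352) (nat_lit 3) (nat_lit 0)) .nil))))]

theorem c2 : chkAll C T R L2 (nat_lit 82) = true := by decide +kernel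

theorem l2 : (nat_lit 82) + L2.length = (nat_lit 116) := by decide +kernel

/-- part of the certificates -/
def L3 : List Prf := [(.br (nat_lit 1) (nat_lit 0) (.cons (.rf (nat_lit 111) (nat_lit 14242959524133701664)) (.cons (.rf (nat_lit 114) (nat_lit 14242959524133701664)) (.cons (.rf (nat_lit 115) (nat_lit 14242959524133701664)) (.cons (.rf (nat_lit 115) (nat_lit 13126066816544802848)) .nil))))),
 (.br (nat_lit 1) (nat_lit 0) (.cons (.rf (nat_lit 111) (nat_lit 14242959524133701664)) (.cons (.rf (nat_lit 116) (nat_lit 14242959524133701664)) (.cons (.rf (nat_lit 116) (nat_lit 14239547841591740448)) (.cons (.kr (nat_lit 79228162514264337593560727552) (nat_lit 309485009821345073019748352) (nat_lit 3) (nat_lit 0)) .nil))))),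
 (.br (nat_lit 4) (nat_lit 0) (.cons (.rf (nat_lit 66) (nat_lit 14242959524132685856)) (.cons (.rf (nat_lit 66) (nat_lit 14242959524132684864)) (.cons (.rf (nat_lit 99) (nat_lit 14242959524132685856)) (.cons (.rf (nat_lit 99) (nat_lit 14239547841590724640)) (.cons (.br (nat_lit 1) (nat_lit 0) (.cons (.rf (nat_lit 102) (nat_lit 14242959524133701664)) (.cons (.rf (nat_lit 105) (nat_lit 14242959524133701664)) (.cons (.rf (nat_lit 105) (nat_lit 14239547841591740448)) (.cons (.br (nat_lit 1) (nat_lit 0) (.cons (.rf (nat_lit 102) (nat_lit 14242959524133701664)) (.cons (.rf (nat_lit 105) (nat_lit 14242959524133701664)) (.cons (.rf (nat_lit 105) (nat_lit 14239547841591740448)) .nil)))) .nil))))) (.cons (.br (nat_lit 1) (nat_lit 0) (.cons (.rf (nat_lit 111) (nat_lit 14242959524133701664)) (.cons (.rf (nat_lit 116) (nat_lit 14242959524133701664)) (.cons (.rf (nat_lit 116) (nat_lit 14239547841591740448)) (.cons (.rf (nat_lit 117) (nat_lit 14242959524133701664)) (.cons (.rf (nat_lit 117) (nat_lit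 13126066816544802848)) .nil)))))) .nil))))))),
 (.br (nat_lit 5) (nat_lit 1) (.cons (.rf (nat_lit 1) (nat_lit 7541891)) (.cons (.br (nat_lit 6) (nat_lit 1) (.cons (.br (nat_lit 6) (nat_lit 0) (.cons (.rf (nat_lit 2) (nat_lit 9939653763)) (.cons (.br (nat_lit 7) (nat_lit 1) (.cons (.rf (nat_lit 3) (nat_lit 353537037443)) (.cons (.br (nat_lit 9) (nat_lit 0) (.cons (.rf (nat_lit 0) (nat_lit 10006762627)) (.cons (.br (nat_lit 11) (nat_lit 1) (.cons (.br (nat_lit 9) (nat_lit 0) (.cons (.rf (nat_lit 0) (nat_lit 10006762627)) (.cons (.br (nat_lit 10) (nat_lit 1) (.cons (.br (nat_lit 8) (nat_lit 0) (.cons (.br (nat_lit 3) (nat_lit 0) (.cons (.rf (nat_lit 66) (nat_lit 14242959524133701664)) (.cons (.rf (nat_lit 66) (nat_lit 14242959524133700672)) (.cons (.kr (nat_lit 16777216) (nat_lit 4294967296) (nat_lit 3) (nat_lit 0)) (.cons (.rf (nat_lit 99) (nat_lit 14242959524133701664)) (.cons (.rf (nat_lit 99) (nat_lit 14239547841591740448)) (.cons (.rf (nat_lit 118) (nat_lit 14242959524133701664))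 (.cons (.rf (nat_lit 118) (nat_lit 13126066816545818656)) .nil)))))))) .nil)) .nil)) .nil))) .nil)) .nil))) .nil))) .nil))) .nil)) .nil))),
 (.br (nat_lit 7) (nat_lit 0) (.cons (.br (nat_lit 9) (nat_lit 0) (.cons (.zr (nat_lit 9671443738636656547528704) (nat_lit 619003076208914679960961281) (nat_lit 15) (nat_lit 1)) (.cons (.br (nat_lit 10) (nat_lit 0) (.cons (.ev (nat_lit 79537652264970968299189895425) (nat_lit 1)) .nil)) .nil))) (.cons (.ev (nat_lit 1208925819615732981301504) (nat_lit 1)) (.cons (.br (nat_lit 10) (nat_lit 0) (.cons (.br (nat_lit 9) (nat_lit 0) (.cons (.ev (nat_lit 79537652246524505700456988673) (nat_lit 1)) .nil)) (.cons (.rf (nat_lit 5) (nat_lit 10315777542176)) .nil))) .nil)))),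
 (.br (nat_lit 7) (nat_lit 0) (.cons (.rf (nat_lit 120) (nat_lit 14242959524133701664)) (.cons (.ev (nat_lit 1208925819615732981301504) (nat_lit 1)) (.cons (.br (nat_lit 2) (nat_lit 0) (.cons (.ev (nat_lit 4722366483969173684224) (nat_lit 1)) (.cons (.br (nat_lit 9) (nat_lit 0) (.cons (.ev (nat_lit 1223148404255076556866050) (nat_lit 2)) .nil)) (.cons (.br (nat_lit 9) (nat_lit 0) (.cons (.ev (nat_lit 1208944266641281667629056) (nat_lit 1)) .nil)) .nil)))) .nil)))),
 (.br (nat_lit 7) (nat_lit 0) (.cons (.rf (nat_lit 120) (nat_lit 14242959524133701664)) (.cons (.rf (nat_lit 121) (nat_lit 14242959524133701664)) (.cons (.ev (nat_lit 1208925819615732981301504) (nat_lit 1)) (.cons (.br (nat_lit 7) (nat_lit 0) (.cons (.rf (nat_lit 120) (nat_lit 14242959524133701664)) (.cons (.rf (nat_lit 121) (nat_lit 14242959524133701664)) (.cons (.ev (nat_lit 1208925819615732981301504) (nat_lit 1)) .nil)))) .nil))))),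
 (.br (nat_lit 2) (nat_lit 0) (.cons (.rf (nat_lit 122) (nat_lit 14242959524133701664)) (.cons (.br (nat_lit 9) (nat_lit 0) (.cons (.ev (nat_lit 4722366483969173684224) (nat_lit 1)) (.cons (.br (nat_lit 4) (nat_lit 0) (.cons (.zr (nat_lit 618970019644381186333082628) (nat_lit 2427333337740747703910400) (nat_lit 15) (nat_lit 3)) (.cons (.br (nat_lit 10) (nat_lit 0) (.cons (.ev (nat_lit 79538856449977637464264737025) (nat_lit 1)) .nil)) .nil))) (.cons (.ev (nat_lit 4722366483969173684481) (nat_lit 1)) (.cons (.ev (nat_lit 4740813509517859881216) (nat_lit 1)) .nil))))) (.cons (.br (nat_lit 4) (nat_lit 0) (.cons (.ev (nat_lit 1208925819615732981301504) (nat_lit 1)) (.cons (.br (nat_lit 7) (nat_lit 0) (.cons (.zr (nat_lit 309485009823886040096574978) (nat_lit 4854611335249274279165952) (nat_lit 30) (nat_lit 3)) (.cons (.br (nat_lit 9) (nat_lit 0) (.cons (.ev (nat_lit 79537652246524505700456988928) (nat_lit 1)) .nil)) .nil))) (.cons (.br (nat_lit 7) (nat_lit 0) (.cons (.br (nat_lit 9) (nat_lit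 0) (.cons (.ev (nat_lit 79537652264970968299189895425) (nat_lit 1)) .nil)) (.cons (.rf (nat_lit 5) (nat_lit 10315582507009)) .nil))) .nil)))) (.cons (.br (nat_lit 4) (nat_lit 0) (.cons (.br (nat_lit 10) (nat_lit 0) (.cons (.br (nat_lit 9) (nat_lit 0) (.cons (.ev (nat_lit 311931288183400319687066118) (nat_lit 3)) .nil)) (.cons (.rf (nat_lit 11) (nat_lit 10315777542176)) .nil))) (.cons (.br (nat_lit 7) (nat_lit 0) (.cons (.br (nat_lit 10) (nat_lit 0) (.cons (.ev (nat_lit 317224581271165539624826175492) (nat_lit 3)) .nil)) (.cons (.br (nat_lit 9) (nat_lit 0) (.cons (.ev (nat_lit 311931288183400319687066628) (nat_lit 3)) .nil)) (.cons (.br (nat_lit 9) (nat_lit 0) (.cons (.ev (nat_lit 475683295854460382771618512900) (nat_lit 3)) .nil)) .nil)))) (.cons (.br (nat_lit 7) (nat_lit 0) (.cons (.br (nat_lit 9) (nat_lit 0) (.cons (.ev (nat_lit 316748065100750377772515330) (nat_lit 3)) .nil)) (.cons (.ev (nat_lit 475683295854460382771618513920) (nat_lit 3)) .nil))) (.cons (.br (nat_lit 7) (nat_lit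 0) (.cons (.br (nat_lit 9) (nat_lit 0) (.cons (.ev (nat_lit 317224581271165539624826177030) (nat_lit 3)) .nil)) (.cons (.rf (nat_lit 11) (nat_lit 10149347559456)) .nil))) .nil))))) .nil))))),
 (.br (nat_lit 5) (nat_lit 0) (.cons (.br (nat_lit 5) (nat_lit 0) .nil) .nil)),
 (.br (nat_lit 2) (nat_lit 0) (.cons (.rf (nat_lit 122) (nat_lit 14242959524133701664)) (.cons (.rf (nat_lit 123) (nat_lit 14242959524133701664)) (.cons (.br (nat_lit 4) (nat_lit 0) (.cons (.ev (nat_lit 1208925819615732981301504) (nat_lit 1)) (.cons (.rf (nat_lit 124) (nat_lit 353500235808)) (.cons (.ev (nat_lit 1208944266641281667629313) (nat_lit 1)) .nil)))) (.cons (.br (nat_lit 9) (nat_lit 0) (.cons (.br (nat_lit 10) (nat_lit 0) (.cons (.br (nat_lit 7) (nat_lit 0) (.cons (.ev (nat_lit 79538856468424100062997512193) (nat_lit 1)) .nil)) (.cons (.rf (nat_lit 11) (nat_lit 8118901770272)) .nil))) (.cons (.br (nat_lit 4) (nat_lit 0) (.cons (.br (nat_lit 10) (nat_lit 0) (.cons (.ev (nat_lit 79538856449977637464264737025)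 (nat_lit 1)) .nil)) (.cons (.br (nat_lit 7) (nat_lit 0) (.cons (.ev (nat_lit 79538856449977637464264737025) (nat_lit 1)) .nil)) (.cons (.br (nat_lit 7) (nat_lit 0) (.cons (.ev (nat_lit 79538856449977637464264737025) (nat_lit 1)) .nil)) .nil)))) (.cons (.br (nat_lit 4) (nat_lit 0) (.cons (.br (nat_lit 7) (nat_lit 0) (.cons (.ev (nat_lit 79538856468424100062997512448) (nat_lit 1)) .nil)) (.cons (.rf (nat_lit 11) (nat_lit 8019043780640)) .nil))) (.cons (.ev (nat_lit 4740813509517859881216) (nat_lit 1)) .nil))))) .nil))))),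
 (.br (nat_lit 2) (nat_lit 0) (.cons (.rf (nat_lit 122) (nat_lit 14242959524133701664)) (.cons (.rf (nat_lit 123) (nat_lit 14242959524133701664)) (.cons (.rf (nat_lit 125) (nat_lit 14242959524133701664)) (.cons (.br (nat_lit 2) (nat_lit 0) (.cons (.rf (nat_lit 122) (nat_lit 14242959524133701664)) (.cons (.rf (nat_lit 123) (nat_lit 14242959524133701664)) (.cons (.rf (nat_lit 125) (nat_lit 14242959524133701664)) (.cons (.rf (nat_lit 119) (nat_lit 149531460610)) .nil))))) (.cons (.br (nat_lit 2) (nat_lit 0) (.cons (.rf (nat_lit 122) (nat_lit 14242959524133701664)) (.cons (.rf (nat_lit 123) (nat_lit 14242959524133701664)) (.cons (.rf (nat_lit 125) (nat_lit 14242959524133701664)) (.cons (.rf (nat_lit 119) (nat_lit 149531460610)) .nil))))) .nil)))))),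
 (.br (nat_lit 1) (nat_lit 0) (.cons (.kr (nat_lit 1) (nat_lit 256) (nat_lit 0) (nat_lit 2)) (.cons (.rf (nat_lit 119) (nat_lit 144056616961)) (.cons (.kr (nat_lit 309485009821626543701491714) (nat_lit 18446745173221179904) (nat_lit 0) (nat_lit 2)) (.cons (.rf (nat_lit 126) (nat_lit 14242959524133701664)) (.cons (.rf (nat_lit 126) (nat_lit 11939368314733692960)) .nil)))))),
 (.br (nat_lit 7) (nat_lit 0) (.cons (.rf (nat_lit 11) (nat_lit 13547638753312)) (.cons (.br (nat_lit 10) (nat_lit 0) (.cons (.ev (nat_lit 79228167236703159532220645633) (nat_lit 1)) .nil)) .nil))),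
 (.br (nat_lit 9) (nat_lit 0) (.cons (.rf (nat_lit 128) (nat_lit 14242959524133701664)) (.cons (.rf (nat_lit 128) (nat_lit 14242959386694879233)) (.cons (.ev (nat_lit 1208925819615732981367041) (nat_lit 1)) (.cons (.br (nat_lit 3) (nat_lit 0) (.cons (.br (nat_lit 10) (nat_lit 0) (.cons (.ev (nat_lit 79537652264970968299189895425) (nat_lit 1)) .nil)) (.cons (.br (nat_lit 7) (nat_lit 0) (.cons (.ev (nat_lit 79537652246524505700456988673) (nat_lit 1)) .nil)) (.cons (.br (nat_lit 7) (nat_lit 0) (.cons (.ev (nat_lit 79537652246524505700456988928) (nat_lit 1)) .nil)) .nil)))) .nil))))),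
 (.br (nat_lit 2) (nat_lit 0) (.cons (.kr (nat_lit 309485009821626543701491714) (nat_lit 18446745173221310464) (nat_lit 0) (nat_lit 1)) (.cons (.kr (nat_lit 309485009821626543701492224) (nat_lit 18446745173221310464) (nat_lit 1) (nat_lit 0)) (.cons (.rf (nat_lit 129) (nat_lit 14242959524133701664)) (.cons (.rf (nat_lit 129) (nat_lit 11939368314733692960)) .nil))))),
 (.br (nat_lit 2) (nat_lit 0) (.cons (.rf (nat_lit 127) (nat_lit 14242959524133700672)) (.cons (.rf (nat_lit 127) (nat_lit 14242959386694877249)) (.cons (.rf (nat_lit 130) (nat_lit 14242959524133701664)) (.cons (.rf (nat_lit 119) (nat_lit 149531460610)) .nil))))),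
 (.br (nat_lit 2) (nat_lit 0) (.cons (.rf (nat_lit 119) (nat_lit 144056615938)) (.cons (.br (nat_lit 3) (nat_lit 0) (.cons (.rf (nat_lit 5) (nat_lit 13545363343361)) (.cons (.br (nat_lit 10) (nat_lit 0) (.cons (.zr (nat_lit 2166395068751385805910444032) (nat_lit 4845166602284625909776388) (nat_lit 20) (nat_lit 9)) .nil)) .nil))) (.cons (.br (nat_lit 3) (nat_lit 0) (.cons (.ev (nat_lit 311921880199800934113738752) (nat_lit 3)) (.cons (.br (nat_lit 9) (nat_lit 0) (.cons (.ev (nat_lit 311921880199800934113739780) (nat_lit 3)) .nil)) .nil))) (.cons (.ev (nat_lit 18518801672042512384) (nat_lit 1)) .nil))))),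
 (.br (nat_lit 7) (nat_lit 0) (.cons (.ev (nat_lit 72339073309606144) (nat_lit 1)) (.cons (.ev (nat_lit 72339073309605889) (nat_lit 1)) (.cons (.rf (nat_lit 132) (nat_lit 14242959524133701664)) (.cons (.rf (nat_lit 132) (nat_lit 11939368314733692960)) .nil))))),
 (.br (nat_lit 3) (nat_lit 0) (.cons (.ev (nat_lit 4722366483969173618944) (nat_lit 1)) (.cons (.rf (nat_lit 124) (nat_lit 320213223456)) (.cons (.ev (nat_lit 4740813509517859946753) (nat_lit 1)) .nil)))),
 (.br (nat_lit 2) (nat_lit 0) (.cons (.kr (nat_lit 309485009821626543701491714) (nat_lit 18446745173221310464) (nat_lit 0) (nat_lit 1)) (.cons (.rf (nat_lit 133) (nat_lit 14242959524133701664)) (.cons (.rf (nat_lit 134) (nat_lit 14242959524133701664)) (.cons (.rf (nat_lit 134) (nat_lit 11939368314733692960)) .nil))))),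
 (.br (nat_lit 2) (nat_lit 0) (.cons (.rf (nat_lit 127) (nat_lit 14242959524133700672)) (.cons (.rf (nat_lit 133) (nat_lit 14242959524133701664)) (.cons (.rf (nat_lit 134) (nat_lit 14242959524133701664)) (.cons (.rf (nat_lit 119) (nat_lit 149531460610)) .nil))))),
 (.br (nat_lit 6) (nat_lit 0) .nil),
 (.br (nat_lit 2) (nat_lit 0) (.cons (.rf (nat_lit 119) (nat_lit 144056615938)) (.cons (.br (nat_lit 7) (nat_lit 0) (.cons (.br (nat_lit 9) (nat_lit 0) (.cons (.rf (nat_lit 11) (nat_lit 13511232194592)) (.cons (.br (nat_lit 10) (nat_lit 0) (.cons (.ev (nat_lit 79538861172271780161105494273) (nat_lit 1)) .nil)) .nil))) (.cons (.ev (nat_lit 72339073309605889) (nat_lit 1)) (.cons (.br (nat_lit 3) (nat_lit 0) (.cons (.rf (nat_lit 11) (nat_lit 13444660201504)) (.cons (.br (nat_lit 9) (nat_lit 0) (.cons (.ev (nat_lit 79538861172271780161105494016) (nat_lit 1)) .nil)) .nil))) (.cons (.br (nat_lit 3) (nat_lit 0) (.cons (.br (nat_lit 10) (nat_lit 0) (.cons (.ev (nat_lit 79538861190718805709791690753)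 (nat_lit 1)) .nil)) (.cons (.br (nat_lit 9) (nat_lit 0) (.cons (.ev (nat_lit 79538861190718805709791690753) (nat_lit 1)) .nil)) (.cons (.br (nat_lit 9) (nat_lit 0) (.cons (.ev (nat_lit 79538861190718805709791690753) (nat_lit 1)) .nil)) .nil)))) .nil))))) (.cons (.rf (nat_lit 127) (nat_lit 8290323595390156865)) (.cons (.br (nat_lit 7) (nat_lit 0) (.cons (.ev (nat_lit 18518801672042512641) (nat_lit 1)) (.cons (.ev (nat_lit 72339073309605889) (nat_lit 1)) (.cons (.ev (nat_lit 18518801672042512384) (nat_lit 1)) (.cons (.br (nat_lit 3) (nat_lit 0) (.cons (.br (nat_lit 9) (nat_lit 0) (.cons (.zr (nat_lit 158457533954492405004355240450) (nat_lit 9463179710921101737984) (nat_lit 5) (nat_lit 2)) .nil)) (.cons (.rf (nat_lit 137) (nat_lit 13547639769120)) .nil))) .nil))))) .nil))))),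
 (.br (nat_lit 2) (nat_lit 0) (.cons (.rf (nat_lit 127) (nat_lit 14242959524133700672)) (.cons (.rf (nat_lit 138) (nat_lit 14242959524133701664)) (.cons (.br (nat_lit 2) (nat_lit 0) (.cons (.kr (nat_lit 309485009821626543701491714) (nat_lit 18446745173221310464) (nat_lit 0) (nat_lit 1)) (.cons (.rf (nat_lit 138) (nat_lit 14242959524133701664)) (.cons (.kr (nat_lit 309485009821626543701492224) (nat_lit 18446745173221310464) (nat_lit 1) (nat_lit 0)) (.cons (.rf (nat_lit 138) (nat_lit 8290323595390158849)) .nil))))) (.cons (.rf (nat_lit 127) (nat_lit 8290323595390156865)) (.cons (.rf (nat_lit 138) (nat_lit 8290323595390158849)) .nil)))))),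
 (.br (nat_lit 1) (nat_lit 0) (.cons (.kr (nat_lit 1) (nat_lit 256) (nat_lit 0) (nat_lit 2)) (.cons (.br (nat_lit 2) (nat_lit 0) (.cons (.rf (nat_lit 127) (nat_lit 14242959524133700672)) (.cons (.rf (nat_lit 127) (nat_lit 14242959386694877249)) (.cons (.rf (nat_lit 130) (nat_lit 14242959524133701664)) (.cons (.rf (nat_lit 131) (nat_lit 14242959524133701664)) (.cons (.rf (nat_lit 131) (nat_lit 11939368314733692960)) .nil)))))) (.cons (.br (nat_lit 2) (nat_lit 0) (.cons (.rf (nat_lit 127) (nat_lit 14242959524133700672)) (.cons (.rf (nat_lit 133) (nat_lit 14242959524133701664)) (.cons (.rf (nat_lit 135) (nat_lit 14242959524133701664)) (.cons (.rf (nat_lit 136) (nat_lit 14242959524133701664)) (.cons (.rf (nat_lit 136) (nat_lit 11939368314733692960)) .nil)))))) (.cons (.rf (nat_lit 139) (nat_lit 14242959524133701664)) (.cons (.rf (nat_lit 139) (nat_lit 11939368314733692960)) .nil)))))),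
 (.br (nat_lit 2) (nat_lit 0) (.cons (.rf (nat_lit 127) (nat_lit 14242959524133700672)) (.cons (.rf (nat_lit 140) (nat_lit 14242959524133700672)) (.cons (.rf (nat_lit 127) (nat_lit 14134700371277480001)) (.cons (.rf (nat_lit 140) (nat_lit 14134700371277480001)) (.cons (.rf (nat_lit 119) (nat_lit 149531460610)) .nil)))))),
 (.br (nat_lit 2) (nat_lit 0) (.cons (.rf (nat_lit 119) (nat_lit 144056615938)) (.cons (.rf (nat_lit 127) (nat_lit 14242959386694877218)) (.cons (.rf (nat_lit 127) (nat_lit 14134700371277479970)) (.cons (.kr (nat_lit 256) (nat_lit 65536) (nat_lit 1) (nat_lit 0)) (.cons (.br (nat_lit 4) (nat_lit 0) (.cons (.br (nat_lit 10) (nat_lit 0) (.cons (.br (nat_lit 9) (nat_lit 0) (.cons (.ev (nat_lit 79538861172271780161105494273) (nat_lit 1)) .nil)) (.cons (.zr (nat_lit 36894057694442554368) (nat_lit 159077712899882652176975134725) (nat_lit 15) (nat_lit 7)) .nil))) (.cons (.ev (nat_lit 72339073309605889) (nat_lit 1)) (.cons (.ev (nat_lit 18518801672042512384) (nat_lit 1)) (.cons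 (.ev (nat_lit 18518801672042447104) (nat_lit 1)) .nil))))) .nil)))))),
 (.br (nat_lit 9) (nat_lit 0) (.cons (.br (nat_lit 10) (nat_lit 0) (.cons (.ev (nat_lit 158768237463995510407714571268) (nat_lit 3)) .nil)) (.cons (.br (nat_lit 7) (nat_lit 0) (.cons (.ev (nat_lit 158768237463995510407714571268) (nat_lit 3)) .nil)) (.cons (.kr (nat_lit 79228162514264337593560727552) (nat_lit 4722366482873940180992) (nat_lit 3) (nat_lit 0)) .nil)))),
 (.br (nat_lit 9) (nat_lit 0) (.cons (.br (nat_lit 10) (nat_lit 0) (.cons (.ev (nat_lit 158457534009760580739530883586) (nat_lit 2)) .nil)) (.cons (.ev (nat_lit 313121287570124847791997699) (nat_lit 2)) (.cons (.rf (nat_lit 143) (nat_lit 3646937485387628578)) .nil))))]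

theorem c3 : chkAll C T R L3 (nat_lit 116) = true := by decide +kernel

theorem l3 : (nat_lit 116) + L3.length = (nat_lit 145) := by decide +kernel

/-- part of the certificates -/
def L4 : List Prf := [(.br (nat_lit 2) (nat_lit 0) (.cons (.kr (nat_lit 309485009821626543701491714) (nat_lit 18446745173221310464) (nat_lit 0) (nat_lit 1)) (.cons (.rf (nat_lit 140) (nat_lit 14242959524133700672)) (.cons (.rf (nat_lit 127) (nat_lit 14134700371277479970)) (.cons (.rf (nat_lit 127) (nat_lit 8254119972907057186)) (.cons (.br (nat_lit 3) (nat_lit 0) (.cons (.rf (nat_lit 143) (nat_lit 14242959524133701664)) (.cons (.rf (nat_lit 144) (nat_lit 14242959524133701664)) (.cons (.br (nat_lit 10) (nat_lit 0) (.cons (.br (nat_lit 7) (nat_lit 0) (.cons (.ev (nat_lit 158457533954421192943332294912) (nat_lit 2)) .nil)) (.cons (.ev (nat_lit 311921880199800934113477632) (nat_lit 3)) (.cons (.rf (nat_lit 144) (nat_lit 3646937485387628578)) .nil)))) (.cons (.br (nat_lit 9) (nat_lit 0) (.cons (.br (nat_lit 7)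 (nat_lit 0) (.cons (.ev (nat_lit 158457533972867655542065070592) (nat_lit 2)) .nil)) (.cons (.ev (nat_lit 313121287570124847791997699) (nat_lit 2)) (.cons (.rf (nat_lit 143) (nat_lit 3646937485387628578)) .nil)))) (.cons (.br (nat_lit 4) (nat_lit 0) (.cons (.br (nat_lit 9) (nat_lit 0) (.cons (.ev (nat_lit 158457533972867655542065136131) (nat_lit 2)) .nil)) (.cons (.br (nat_lit 7) (nat_lit 0) (.cons (.ev (nat_lit 311921880199800934113739780) (nat_lit 3)) .nil)) (.cons (.br (nat_lit 7) (nat_lit 0) (.cons (.ev (nat_lit 158457534009760580739530949121) (nat_lit 2)) .nil)) .nil)))) .nil)))))) .nil)))))),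
 (.br (nat_lit 2) (nat_lit 0) (.cons (.rf (nat_lit 127) (nat_lit 14242959524133700672)) (.cons (.rf (nat_lit 140) (nat_lit 14242959524133700672)) (.cons (.rf (nat_lit 142) (nat_lit 14242959524133701664)) (.cons (.rf (nat_lit 145) (nat_lit 14242959524133701664)) (.cons (.br (nat_lit 2) (nat_lit 0) (.cons (.rf (nat_lit 127) (nat_lit 14242959524133700672)) (.cons (.rf (nat_lit 127) (nat_lit 8290323595390156834)) (.cons (.kr (nat_lit 256) (nat_lit 65536) (nat_lit 1) (nat_lit 0)) (.cons (.rf (nat_lit 127) (nat_lit 8254119972907057186)) (.cons (.rf (nat_lit 119) (nat_lit 149531460610)) .nil)))))) (.cons (.br (nat_lit 2) (nat_lit 0) (.cons (.rf (nat_lit 127) (nat_lit 14242959524133700672)) (.cons (.rf (nat_lit 140) (nat_lit 14242959524133700672)) (.cons (.rf (nat_lit 142) (nat_lit 14242959524133701664)) (.cons (.rf (nat_lit 145) (nat_lit 14242959524133701664)) (.cons (.rf (nat_lit 119) (nat_lit 149531460610)) .nil)))))) .nil))))))),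
 (.br (nat_lit 1) (nat_lit 0) (.cons (.rf (nat_lit 119) (nat_lit 144056616961)) (.cons (.rf (nat_lit 140) (nat_lit 14242959524133701664)) (.cons (.br (nat_lit 2) (nat_lit 0) (.cons (.rf (nat_lit 127) (nat_lit 14242959524133700672)) (.cons (.rf (nat_lit 140) (nat_lit 14242959524133700672)) (.cons (.rf (nat_lit 127) (nat_lit 14134700371277480001)) (.cons (.rf (nat_lit 140) (nat_lit 14134700371277480001)) (.cons (.rf (nat_lit 141) (nat_lit 14242959524133701664)) (.cons (.rf (nat_lit 141) (nat_lit 11939368314733692960)) .nil))))))) (.cons (.rf (nat_lit 146) (nat_lit 14242959524133701664)) (.cons (.rf (nat_lit 146) (nat_lit 11939368314733692960)) .nil)))))),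
 (.br (nat_lit 2) (nat_lit 0) (.cons (.rf (nat_lit 127) (nat_lit 14242959524133700672)) (.cons (.rf (nat_lit 140) (nat_lit 14242959524133700672)) (.cons (.rf (nat_lit 147) (nat_lit 14242959524133700672)) (.cons (.rf (nat_lit 140) (nat_lit 8254119972907057217)) (.cons (.rf (nat_lit 127) (nat_lit 8254119972907057217)) (.cons (.rf (nat_lit 147) (nat_lit 8254119972907057217)) .nil))))))),
 (.br (nat_lit 1) (nat_lit 0) (.cons (.kr (nat_lit 309485009821626543701491714) (nat_lit 18446745173221179904) (nat_lit 0) (nat_lit 2)) (.cons (.rf (nat_lit 140) (nat_lit 14242959524133701664)) (.cons (.rf (nat_lit 147) (nat_lit 14242959524133701664)) (.cons (.rf (nat_lit 148) (nat_lit 14242959524133701664)) (.cons (.rf (nat_lit 148) (nat_lit 11939368314733692960)) .nil)))))),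
 (.br (nat_lit 1) (nat_lit 0) (.cons (.rf (nat_lit 127) (nat_lit 14242959524133701664)) (.cons (.rf (nat_lit 140) (nat_lit 14242959524133701664)) (.cons (.rf (nat_lit 147) (nat_lit 14242959524133701664)) (.cons (.rf (nat_lit 149) (nat_lit 14242959524133701664)) (.cons (.rf (nat_lit 119) (nat_lit 149531461633)) .nil)))))),
 (.br (nat_lit 1) (nat_lit 0) (.cons (.rf (nat_lit 127) (nat_lit 14242959524133701664)) (.cons (.rf (nat_lit 140) (nat_lit 14242959524133701664)) (.cons (.rf (nat_lit 147) (nat_lit 14242959524133701664)) (.cons (.rf (nat_lit 149) (nat_lit 14242959524133701664)) (.cons (.rf (nat_lit 150) (nat_lit 14242959524133701664)) (.cons (.rf (nat_lit 150) (nat_lit 11939368314733692960)) .nil))))))),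
 (.br (nat_lit 9) (nat_lit 0) (.cons (.ev (nat_lit 314330287106064478975951878) (nat_lit 3)) (.cons (.br (nat_lit 10) (nat_lit 0) (.cons (.ev (nat_lit 79537652264970968299189895425) (nat_lit 1)) .nil)) .nil))),
 (.br (nat_lit 2) (nat_lit 0) (.cons (.rf (nat_lit 152) (nat_lit 14242959524133701664)) (.cons (.rf (nat_lit 152) (nat_lit 11939368314733692960)) .nil))),
 (.br (nat_lit 2) (nat_lit 0) (.cons (.rf (nat_lit 153) (nat_lit 14242959524133701664)) (.cons (.ev (nat_lit 18518801672042512384) (nat_lit 1)) .nil))),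
 (.br (nat_lit 2) (nat_lit 0) (.cons (.rf (nat_lit 153) (nat_lit 14242959524133701664)) (.cons (.rf (nat_lit 154) (nat_lit 14242959524133701664)) (.cons (.rf (nat_lit 154) (nat_lit 11939368314733692960)) .nil)))),
 (.br (nat_lit 9) (nat_lit 0) (.cons (.ev (nat_lit 313125954379638669007912962) (nat_lit 2)) .nil)),
 (.br (nat_lit 2) (nat_lit 0) (.cons (.rf (nat_lit 155) (nat_lit 14242959524133701664)) (.cons (.br (nat_lit 7) (nat_lit 0) (.cons (.ev (nat_lit 18518801672042512641) (nat_lit 1)) (.cons (.rf (nat_lit 156) (nat_lit 14242959524133701664)) (.cons (.rf (nat_lit 156) (nat_lit 11939368314733692960)) .nil)))) .nil))),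
 (.br (nat_lit 2) (nat_lit 0) (.cons (.rf (nat_lit 155) (nat_lit 14242959524133701664)) (.cons (.rf (nat_lit 157) (nat_lit 14242959524133701664)) (.cons (.rf (nat_lit 157) (nat_lit 11939368314733692960)) .nil)))),
 (.br (nat_lit 2) (nat_lit 0) (.cons (.rf (nat_lit 155) (nat_lit 14242959524133701664)) (.cons (.rf (nat_lit 158) (nat_lit 14242959524133701664)) (.cons (.br (nat_lit 2) (nat_lit 0) (.cons (.ev (nat_lit 18518801672042512384) (nat_lit 1)) (.cons (.rf (nat_lit 158) (nat_lit 14242959524133701664)) .nil))) .nil)))),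
 (.br (nat_lit 2) (nat_lit 0) (.cons (.ev (nat_lit 309513473293537423611266050) (nat_lit 3)) (.cons (.br (nat_lit 10) (nat_lit 0) (.cons (.ev (nat_lit 1213648258436567851401473) (nat_lit 1)) .nil)) .nil))),
 (.br (nat_lit 2) (nat_lit 0) (.cons (.ev (nat_lit 309513473293537423611266050) (nat_lit 3)) (.cons (.br (nat_lit 9) (nat_lit 0) (.cons (.ev (nat_lit 317224571863758409787649556480) (nat_lit 3)) .nil)) .nil))),
 (.br (nat_lit 2) (nat_lit 0) (.cons (.rf (nat_lit 160) (nat_lit 14242959524133701664)) (.cons (.rf (nat_lit 161) (nat_lit 14242959524133701664)) (.cons (.br (nat_lit 2) (nat_lit 0) (.cons (.rf (nat_lit 160) (nat_lit 14242959524133701664)) (.cons (.rf (nat_lit 161) (nat_lit 14242959524133701664)) .nil))) .nil)))),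
 (.br (nat_lit 7) (nat_lit 0) (.cons (.ev (nat_lit 72339073309605889) (nat_lit 1)) (.cons (.rf (nat_lit 162) (nat_lit 14242959524133701664)) (.cons (.rf (nat_lit 162) (nat_lit 11939368314733692960)) .nil)))),
 (.br (nat_lit 2) (nat_lit 0) (.cons (.rf (nat_lit 163) (nat_lit 14242959524133701664)) (.cons (.br (nat_lit 10) (nat_lit 0) (.cons (.br (nat_lit 7) (nat_lit 0) (.cons (.ev (nat_lit 79538856468424100062997512448) (nat_lit 1)) .nil)) (.cons (.ev (nat_lit 1213685080150808150999041) (nat_lit 2)) .nil))) .nil))),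
 (.br (nat_lit 2) (nat_lit 0) (.cons (.rf (nat_lit 163) (nat_lit 14242959524133701664)) (.cons (.rf (nat_lit 164) (nat_lit 14242959524133701664)) (.cons (.rf (nat_lit 164) (nat_lit 11939368314733692960)) .nil)))),
 (.br (nat_lit 2) (nat_lit 0) (.cons (.rf (nat_lit 163) (nat_lit 14242959524133701664)) (.cons (.rf (nat_lit 165) (nat_lit 14242959524133701664)) (.cons (.br (nat_lit 2) (nat_lit 0) (.cons (.rf (nat_lit 163) (nat_lit 14242959524133701664)) (.cons (.rf (nat_lit 165) (nat_lit 14242959524133701664)) .nil))) .nil)))),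
 (.br (nat_lit 2) (nat_lit 0) (.cons (.br (nat_lit 9) (nat_lit 0) (.cons (.ev (nat_lit 317222163493745071474612372480) (nat_lit 3)) .nil)) .nil)),
 (.br (nat_lit 9) (nat_lit 0) (.cons (.br (nat_lit 2) (nat_lit 0) (.cons (.ev (nat_lit 80156622266094858980833624066) (nat_lit 2)) .nil)) (.cons (.ev (nat_lit 79537652246524505700456988928) (nat_lit 1)) .nil))),
 (.br (nat_lit 7) (nat_lit 0) (.cons (.ev (nat_lit 72339073309605889) (nat_lit 1)) (.cons (.br (nat_lit 2) (nat_lit 0) (.cons (.rf (nat_lit 167) (nat_lit 14242959524133701664)) (.cons (.br (nat_lit 2) (nat_lit 0) (.cons (.rf (nat_lit 167) (nat_lit 14242959524133701664)) .nil)) .nil))) (.cons (.br (nat_lit 2) (nat_lit 0) (.cons (.rf (nat_lit 168) (nat_lit 14242959524133701664)) (.cons (.br (nat_lit 2) (nat_lit 0) (.cons (.rf (nat_lit 168) (nat_lit 14242959524133701664)) (.cons (.rf (nat_lit 30) (nat_lit 10252326111264)) .nil))) (.cons (.br (nat_lit 2) (nat_lit 0) (.cons (.rf (nat_lit 168) (nat_lit 14242959524133701664)) (.cons (.rf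 (nat_lit 30) (nat_lit 10252326111264)) .nil))) .nil)))) .nil)))),
 (.br (nat_lit 2) (nat_lit 0) (.cons (.rf (nat_lit 169) (nat_lit 14242959524133701664)) (.cons (.br (nat_lit 9) (nat_lit 0) (.cons (.br (nat_lit 7) (nat_lit 0) (.cons (.ev (nat_lit 79538856449977637464264737025) (nat_lit 1)) .nil)) (.cons (.ev (nat_lit 1213685080150808150999041) (nat_lit 2)) .nil))) .nil))),
 (.br (nat_lit 2) (nat_lit 0) (.cons (.rf (nat_lit 169) (nat_lit 14242959524133701664)) (.cons (.rf (nat_lit 170) (nat_lit 14242959524133701664)) (.cons (.br (nat_lit 2) (nat_lit 0) (.cons (.rf (nat_lit 169) (nat_lit 14242959524133701664)) (.cons (.rf (nat_lit 170) (nat_lit 14242959524133701664)) .nil))) .nil)))),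
 (.br (nat_lit 2) (nat_lit 0) (.cons (.rf (nat_lit 169) (nat_lit 14242959524133701664)) (.cons (.rf (nat_lit 171) (nat_lit 14242959524133701664)) (.cons (.br (nat_lit 2) (nat_lit 0) (.cons (.rf (nat_lit 169) (nat_lit 14242959524133701664)) (.cons (.rf (nat_lit 171) (nat_lit 14242959524133701664)) .nil))) .nil)))),
 (.br (nat_lit 2) (nat_lit 0) (.cons (.rf (nat_lit 169) (nat_lit 14242959524133701664)) (.cons (.rf (nat_lit 171) (nat_lit 14242959524133701664)) (.cons (.rf (nat_lit 172) (nat_lit 14242959524133701664)) (.cons (.br (nat_lit 2) (nat_lit 0) (.cons (.rf (nat_lit 169) (nat_lit 14242959524133701664)) (.cons (.rf (nat_lit 171) (nat_lit 14242959524133701664)) (.cons (.rf (nat_lit 172) (nat_lit 14242959524133701664)) .nil)))) .nil))))),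
 (.br (nat_lit 1) (nat_lit 0) (.cons (.kr (nat_lit 1) (nat_lit 256) (nat_lit 0) (nat_lit 2)) (.cons (.br (nat_lit 2) (nat_lit 0) (.cons (.rf (nat_lit 155) (nat_lit 14242959524133701664)) (.cons (.rf (nat_lit 158) (nat_lit 14242959524133701664)) (.cons (.rf (nat_lit 159) (nat_lit 14242959524133701664)) (.cons (.rf (nat_lit 159) (nat_lit 11939368314733692960)) .nil))))) (.cons (.br (nat_lit 2) (nat_lit 0) (.cons (.rf (nat_lit 163) (nat_lit 14242959524133701664)) (.cons (.rf (nat_lit 165) (nat_lit 14242959524133701664)) (.cons (.rf (nat_lit 166) (nat_lit 14242959524133701664)) (.cons (.rf (nat_lit 166) (nat_lit 11939368314733692960)) .nil))))) (.cons (.rf (nat_lit 173) (nat_lit 14242959524133701664)) (.cons (.rf (nat_lit 173) (nat_lit 11939368314733692960)) .nil)))))),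
 (.br (nat_lit 9) (nat_lit 0) (.cons (.rf (nat_lit 46) (nat_lit 11248825632800)) (.cons (.br (nat_lit 10) (nat_lit 0) (.cons (.ev (nat_lit 79538856468424100062997512193) (nat_lit 1)) .nil)) .nil))),
 (.br (nat_lit 2) (nat_lit 0) (.cons (.rf (nat_lit 46) (nat_lit 11317478000672)) (.cons (.br (nat_lit 10) (nat_lit 0) (.cons (.zr (nat_lit 3626777747357937676058624) (nat_lit 1237944816992095369984737282) (nat_lit 10) (nat_lit 7)) .nil)) .nil))),
 (.br (nat_lit 9) (nat_lit 0) (.cons (.rf (nat_lit 46) (nat_lit 11317478000672)) (.cons (.ev (nat_lit 1223111510203979184209922) (nat_lit 2)) .nil))),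
 (.br (nat_lit 2) (nat_lit 0) (.cons (.rf (nat_lit 176) (nat_lit 14242959524133701664)) (.cons (.rf (nat_lit 177) (nat_lit 14242959524133701664)) (.cons (.br (nat_lit 2) (nat_lit 0) (.cons (.rf (nat_lit 176) (nat_lit 14242959524133701664)) (.cons (.rf (nat_lit 177) (nat_lit 14242959524133701664)) .nil))) .nil)))),
 (.br (nat_lit 2) (nat_lit 0) (.cons (.ev (nat_lit 309485028340147840278855681) (nat_lit 1)) (.cons (.br (nat_lit 2) (nat_lit 0) (.cons (.ev (nat_lit 309485028340147840278855681) (nat_lit 1)) .nil)) .nil))),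
 (.br (nat_lit 10) (nat_lit 0) (.cons (.rf (nat_lit 49) (nat_lit 13514353772576)) (.cons (.ev (nat_lit 1213666704899166584176896) (nat_lit 1)) .nil))),
 (.br (nat_lit 2) (nat_lit 0) (.cons (.rf (nat_lit 180) (nat_lit 14242959524133701664)) (.cons (.br (nat_lit 2) (nat_lit 0) (.cons (.rf (nat_lit 49) (nat_lit 13514353772576)) (.cons (.zr (nat_lit 309485009893965612716195843) (nat_lit 36893489246947508992) (nat_lit 5) (nat_lit 2)) .nil))) (.cons (.br (nat_lit 2) (nat_lit 0) (.cons (.rf (nat_lit 180) (nat_lit 14242959524133701664)) (.cons (.zr (nat_lit 309485009893965612716195843) (nat_lit 36893489246947508992) (nat_lit 5) (nat_lit 2)) .nil))) .nil)))),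
 (.br (nat_lit 2) (nat_lit 0) (.cons (.rf (nat_lit 180) (nat_lit 14242959524133701664)) (.cons (.br (nat_lit 2) (nat_lit 0) (.cons (.rf (nat_lit 49) (nat_lit 13514353772576)) (.cons (.ev (nat_lit 1208944266641281667629056) (nat_lit 1)) .nil))) (.cons (.br (nat_lit 2) (nat_lit 0) (.cons (.rf (nat_lit 180) (nat_lit 14242959524133701664)) (.cons (.ev (nat_lit 1208944266641281667629056) (nat_lit 1)) .nil))) .nil))))]

theorem c4 : chkAll C T R L4 (nat_lit 145) = true := by decide +kernel

theorem l4 : (nat_lit 145) + L4.length = (nat_lit 183) := by decide +kernel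

/-- part of the certificates -/
def L5 : List Prf := [(.br (nat_lit 2) (nat_lit 0) (.cons (.rf (nat_lit 181) (nat_lit 14242959524133701664)) (.cons (.rf (nat_lit 182) (nat_lit 14242959524133701664)) (.cons (.br (nat_lit 2) (nat_lit 0) (.cons (.zr (nat_lit 309485009893965612716195843) (nat_lit 36893489246947508992) (nat_lit 5) (nat_lit 2)) (.cons (.ev (nat_lit 1208944266641281667629056) (nat_lit 1)) .nil))) .nil)))),
 (.br (nat_lit 2) (nat_lit 0) (.cons (.rf (nat_lit 181) (nat_lit 14242959524133701664)) (.cons (.rf (nat_lit 182) (nat_lit 14242959524133701664)) (.cons (.rf (nat_lit 183) (nat_lit 14242959524133701664)) (.cons (.br (nat_lit 2) (nat_lit 0) (.cons (.rf (nat_lit 181) (nat_lit 14242959524133701664)) (.cons (.rf (nat_lit 182) (nat_lit 14242959524133701664)) (.cons (.rf (nat_lit 183) (nat_lit 14242959524133701664)) .nil)))) .nil))))),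
 (.br (nat_lit 2) (nat_lit 0) (.cons (.br (nat_lit 9) (nat_lit 0) (.cons (.ev (nat_lit 1208926036072193390150401) (nat_lit 2)) (.cons (.br (nat_lit 10) (nat_lit 0) (.cons (.ev (nat_lit 79537652264970968299189895425) (nat_lit 1)) .nil)) .nil))) (.cons (.ev (nat_lit 1208925819615732981301504) (nat_lit 1)) (.cons (.br (nat_lit 10) (nat_lit 0) (.cons (.br (nat_lit 9) (nat_lit 0) (.cons (.ev (nat_lit 317222144603989779339173691392) (nat_lit 3)) .nil)) (.cons (.rf (nat_lit 46) (nat_lit 13444661217312)) .nil))) .nil)))),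
 (.br (nat_lit 2) (nat_lit 0) (.cons (.rf (nat_lit 185) (nat_lit 14242959524133701664)) (.cons (.ev (nat_lit 1208925819615732981301504) (nat_lit 1)) (.cons (.br (nat_lit 7) (nat_lit 0) (.cons (.ev (nat_lit 72339073309605889) (nat_lit 1)) (.cons (.br (nat_lit 9) (nat_lit 0) (.cons (.ev (nat_lit 1223148404255076556866050) (nat_lit 2)) .nil)) (.cons (.br (nat_lit 9) (nat_lit 0) (.cons (.ev (nat_lit 309513436398360426331505664) (nat_lit 3)) .nil)) .nil)))) .nil)))),
 (.br (nat_lit 2) (nat_lit 0) (.cons (.rf (nat_lit 185) (nat_lit 14242959524133701664)) (.cons (.rf (nat_lit 186) (nat_lit 14242959524133701664)) (.cons (.ev (nat_lit 1208925819615732981301504) (nat_lit 1)) (.cons (.br (nat_lit 2) (nat_lit 0) (.cons (.rf (nat_lit 185) (nat_lit 14242959524133701664)) (.cons (.rf (nat_lit 186) (nat_lit 14242959524133701664)) (.cons (.ev (nat_lit 1208925819615732981301504) (nat_lit 1)) .nil)))) .nil))))),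
 (.br (nat_lit 2) (nat_lit 0) (.cons (.br (nat_lit 9) (nat_lit 0) (.cons (.ev (nat_lit 317224572084833360147500237326) (nat_lit 4)) .nil)) .nil)),
 (.br (nat_lit 4) (nat_lit 0) (.cons (.rf (nat_lit 187) (nat_lit 14242959524133701664)) (.cons (.ev (nat_lit 72339073309605889) (nat_lit 1)) (.cons (.br (nat_lit 2) (nat_lit 0) (.cons (.rf (nat_lit 188) (nat_lit 14242959524133701664)) (.cons (.br (nat_lit 2) (nat_lit 0) (.cons (.rf (nat_lit 188) (nat_lit 14242959524133701664)) .nil)) .nil))) (.cons (.br (nat_lit 10) (nat_lit 0) (.cons (.br (nat_lit 2) (nat_lit 0) (.cons (.br (nat_lit 9) (nat_lit 0) (.cons (.ev (nat_lit 79537652264970968299189895425) (nat_lit 1)) .nil)) (.cons (.rf (nat_lit 49) (nat_lit 10252326111264)) .nil))) (.cons (.br (nat_lit 9) (nat_lit 0) (.cons (.ev (nat_lit 309513436398360426331505664) (nat_lit 3)) (.cons (.ev (nat_lit 158769446315954119697827365635) (nat_lit 2)) .nil))) (.cons (.ev (nat_lit 1208925819615732981301504) (nat_lit 1)) .nil)))) .nil))))),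
 (.br (nat_lit 2) (nat_lit 0) (.cons (.ev (nat_lit 1208925819615732981301504) (nat_lit 1)) (.cons (.rf (nat_lit 189) (nat_lit 14242959524133701664)) (.cons (.br (nat_lit 4) (nat_lit 0) (.cons (.br (nat_lit 9) (nat_lit 0) (.cons (.ev (nat_lit 1223148404255076556866050) (nat_lit 2)) .nil)) (.cons (.br (nat_lit 7) (nat_lit 0) (.cons (.ev (nat_lit 79538861190718805709791756288) (nat_lit 1)) .nil)) (.cons (.ev (nat_lit 79537647524085682666563764224) (nat_lit 1)) .nil)))) .nil)))),
 (.br (nat_lit 2) (nat_lit 0) (.cons (.rf (nat_lit 187) (nat_lit 14242959524133701664)) (.cons (.rf (nat_lit 189) (nat_lit 14242959524133701664)) (.cons (.rf (nat_lit 190) (nat_lit 14242959524133701664)) (.cons (.br (nat_lit 2) (nat_lit 0) (.cons (.rf (nat_lit 187) (nat_lit 14242959524133701664)) (.cons (.rf (nat_lit 189) (nat_lit 14242959524133701664)) (.cons (.rf (nat_lit 190) (nat_lit 14242959524133701664)) .nil)))) .nil))))),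
 (.br (nat_lit 2) (nat_lit 0) (.cons (.ev (nat_lit 1208925819615732981301504) (nat_lit 1)) (.cons (.rf (nat_lit 189) (nat_lit 14242959524133701664)) (.cons (.rf (nat_lit 191) (nat_lit 14242959524133701664)) (.cons (.br (nat_lit 2) (nat_lit 0) (.cons (.ev (nat_lit 1208925819615732981301504) (nat_lit 1)) (.cons (.rf (nat_lit 189) (nat_lit 14242959524133701664)) (.cons (.rf (nat_lit 191) (nat_lit 14242959524133701664)) .nil)))) .nil))))),
 (.br (nat_lit 2) (nat_lit 0) (.cons (.rf (nat_lit 187) (nat_lit 14242959524133701664)) (.cons (.rf (nat_lit 189) (nat_lit 14242959524133701664)) (.cons (.rf (nat_lit 191) (nat_lit 14242959524133701664)) (.cons (.rf (nat_lit 192) (nat_lit 14242959524133701664)) (.cons (.br (nat_lit 2) (nat_lit 0) (.cons (.rf (nat_lit 187) (nat_lit 14242959524133701664)) (.cons (.rf (nat_lit 189) (nat_lit 14242959524133701664)) (.cons (.rf (nat_lit 191) (nat_lit 14242959524133701664)) (.cons (.rf (nat_lit 192) (nat_lit 14242959524133701664)) .nil))))) .nil)))))),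
 (.br (nat_lit 1) (nat_lit 0) (.cons (.rf (nat_lit 119) (nat_lit 144056616961)) (.cons (.rf (nat_lit 174) (nat_lit 14242959524133701664)) (.cons (.br (nat_lit 4) (nat_lit 0) (.cons (.br (nat_lit 7) (nat_lit 0) (.cons (.br (nat_lit 2) (nat_lit 0) (.cons (.ev (nat_lit 4722366483969173684224) (nat_lit 1)) (.cons (.rf (nat_lit 175) (nat_lit 14242959524133701664)) (.cons (.rf (nat_lit 175) (nat_lit 11939368314733692960)) .nil)))) (.cons (.ev (nat_lit 72339073309605889) (nat_lit 1)) (.cons (.rf (nat_lit 178) (nat_lit 14242959524133701664)) (.cons (.rf (nat_lit 178) (nat_lit 11939368314733692960)) .nil))))) (.cons (.ev (nat_lit 72339073309606144) (nat_lit 1)) (.cons (.br (nat_lit 2) (nat_lit 0) (.cons (.ev (nat_lit 72339073309605889) (nat_lit 1)) (.cons (.rf (nat_lit 179) (nat_lit 14242959524133701664)) (.cons (.rf (nat_lit 179) (nat_lit 11939368314733692960)) .nil)))) (.cons (.rf (nat_lit 184) (nat_lit 14242959524133701664)) (.cons (.rf (nat_lit 184) (nat_lit 11939368314733692960)) .nil))))))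 (.cons (.rf (nat_lit 193) (nat_lit 14242959524133701664)) (.cons (.rf (nat_lit 193) (nat_lit 11939368314733692960)) .nil)))))),
 (.br (nat_lit 6) (nat_lit 0) (.cons (.rf (nat_lit 46) (nat_lit 6918391302176)) (.cons (.br (nat_lit 8) (nat_lit 0) (.cons (.ev (nat_lit 310693935640959702194520064) (nat_lit 1)) .nil)) .nil))),
 (.br (nat_lit 2) (nat_lit 0) (.cons (.ev (nat_lit 4722366483969173684224) (nat_lit 1)) (.cons (.rf (nat_lit 195) (nat_lit 445092485094541344)) (.cons (.br (nat_lit 7) (nat_lit 0) (.cons (.ev (nat_lit 18518801672042512641) (nat_lit 1)) (.cons (.br (nat_lit 9) (nat_lit 0) (.cons (.ev (nat_lit 317222144603989779339173691392) (nat_lit 3)) .nil)) (.cons (.br (nat_lit 9) (nat_lit 0) (.cons (.ev (nat_lit 79228176736848978040926110210) (nat_lit 2)) .nil)) .nil)))) .nil)))),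
 (.br (nat_lit 5) (nat_lit 0) (.cons (.br (nat_lit 5) (nat_lit 0) .nil) .nil)),
 (.br (nat_lit 2) (nat_lit 0) (.cons (.ev (nat_lit 4722366483969173684224) (nat_lit 1)) (.cons (.rf (nat_lit 197) (nat_lit 353500235808)) (.cons (.br (nat_lit 10) (nat_lit 0) (.cons (.br (nat_lit 7) (nat_lit 0) (.cons (.ev (nat_lit 309494547221789639102956548) (nat_lit 3)) .nil)) (.cons (.rf (nat_lit 46) (nat_lit 13511233210400)) .nil))) .nil)))),
 (.br (nat_lit 9) (nat_lit 0) (.cons (.br (nat_lit 7) (nat_lit 0) (.cons (.ev (nat_lit 1213666704899166584176641) (nat_lit 1)) .nil)) (.cons (.rf (nat_lit 46) (nat_lit 13545559394336)) .nil))),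
 (.br (nat_lit 2) (nat_lit 0) (.cons (.rf (nat_lit 196) (nat_lit 14242959524133701664)) (.cons (.rf (nat_lit 198) (nat_lit 14242959524133701664)) (.cons (.br (nat_lit 2) (nat_lit 0) (.cons (.rf (nat_lit 195) (nat_lit 445092485094541344)) (.cons (.rf (nat_lit 197) (nat_lit 353500235808)) (.cons (.rf (nat_lit 199) (nat_lit 14242959524133701664)) .nil)))) (.cons (.br (nat_lit 2) (nat_lit 0) (.cons (.rf (nat_lit 196) (nat_lit 14242959524133701664)) (.cons (.rf (nat_lit 198) (nat_lit 14242959524133701664)) (.cons (.rf (nat_lit 199) (nat_lit 14242959524133701664)) .nil)))) .nil))))),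
 (.br (nat_lit 2) (nat_lit 0) (.cons (.ev (nat_lit 4722366483969173684224) (nat_lit 1)) (.cons (.br (nat_lit 4) (nat_lit 0) (.cons (.ev (nat_lit 1213648186099710778605571) (nat_lit 2)) (.cons (.br (nat_lit 7) (nat_lit 0) (.cons (.ev (nat_lit 79537652264970968299189895425) (nat_lit 1)) .nil)) .nil))) (.cons (.br (nat_lit 7) (nat_lit 0) (.cons (.br (nat_lit 10) (nat_lit 0) (.cons (.ev (nat_lit 311912435321033381713937920) (nat_lit 3)) .nil)) (.cons (.ev (nat_lit 1218389071946085711413506) (nat_lit 2)) (.cons (.br (nat_lit 4) (nat_lit 0) (.cons (.ev (nat_lit 79228176736848978040926109696) (nat_lit 2)) .nil)) .nil)))) .nil)))),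
 (.br (nat_lit 4) (nat_lit 0) (.cons (.ev (nat_lit 79228167236703159532220645633) (nat_lit 1)) .nil)),
 (.br (nat_lit 2) (nat_lit 0) (.cons (.rf (nat_lit 195) (nat_lit 445092485094541344)) (.cons (.rf (nat_lit 201) (nat_lit 14242959524133701664)) (.cons (.br (nat_lit 9) (nat_lit 0) (.cons (.br (nat_lit 7) (nat_lit 0) (.cons (.ev (nat_lit 324058398953705543561381390) (nat_lit 4)) .nil)) (.cons (.rf (nat_lit 202) (nat_lit 14242959524133701664)) (.cons (.ev (nat_lit 4722366483969173684481) (nat_lit 1)) .nil)))) .nil)))),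
 (.br (nat_lit 2) (nat_lit 0) (.cons (.rf (nat_lit 200) (nat_lit 14242959524133701664)) (.cons (.rf (nat_lit 201) (nat_lit 14242959524133701664)) (.cons (.rf (nat_lit 203) (nat_lit 14242959524133701664)) (.cons (.br (nat_lit 2) (nat_lit 0) (.cons (.rf (nat_lit 200) (nat_lit 14242959524133701664)) (.cons (.rf (nat_lit 201) (nat_lit 14242959524133701664)) (.cons (.rf (nat_lit 203) (nat_lit 14242959524133701664)) .nil)))) .nil))))),
 (.br (nat_lit 2) (nat_lit 0) (.cons (.rf (nat_lit 197) (nat_lit 353500235808)) (.cons (.rf (nat_lit 204) (nat_lit 14242959524133701664)) (.cons (.br (nat_lit 4) (nat_lit 0) (.cons (.br (nat_lit 7) (nat_lit 0) (.cons (.ev (nat_lit 79538856468424100062997512448) (nat_lit 1)) .nil)) (.cons (.ev (nat_lit 79229376180897461740578537473) (nat_lit 1)) .nil))) .nil)))),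
 (.br (nat_lit 2) (nat_lit 0) (.cons (.rf (nat_lit 200) (nat_lit 14242959524133701664)) (.cons (.rf (nat_lit 204) (nat_lit 14242959524133701664)) (.cons (.rf (nat_lit 205) (nat_lit 14242959524133701664)) (.cons (.br (nat_lit 2) (nat_lit 0) (.cons (.rf (nat_lit 200) (nat_lit 14242959524133701664)) (.cons (.rf (nat_lit 204) (nat_lit 14242959524133701664)) (.cons (.rf (nat_lit 205) (nat_lit 14242959524133701664)) .nil)))) .nil))))),
 (.br (nat_lit 2) (nat_lit 0) (.cons (.rf (nat_lit 200) (nat_lit 14242959524133701664)) (.cons (.rf (nat_lit 204) (nat_lit 14242959524133701664)) (.cons (.rf (nat_lit 206) (nat_lit 14242959524133701664)) (.cons (.br (nat_lit 2) (nat_lit 0) (.cons (.rf (nat_lit 199) (nat_lit 14242959524133701664)) (.cons (.rf (nat_lit 204) (nat_lit 14242959524133701664)) (.cons (.rf (nat_lit 206) (nat_lit 14242959524133701664)) .nil)))) .nil))))),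
 (.br (nat_lit 2) (nat_lit 0) (.cons (.rf (nat_lit 200) (nat_lit 14242959524133701664)) (.cons (.rf (nat_lit 204) (nat_lit 14242959524133701664)) (.cons (.rf (nat_lit 206) (nat_lit 14242959524133701664)) (.cons (.rf (nat_lit 207) (nat_lit 14242959524133701664)) (.cons (.br (nat_lit 2) (nat_lit 0) (.cons (.rf (nat_lit 200) (nat_lit 14242959524133701664)) (.cons (.rf (nat_lit 204) (nat_lit 14242959524133701664)) (.cons (.rf (nat_lit 206) (nat_lit 14242959524133701664)) (.cons (.rf (nat_lit 207) (nat_lit 14242959524133701664)) .nil))))) .nil)))))),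
 (.br (nat_lit 1) (nat_lit 0) (.cons (.kr (nat_lit 309485009821626543701491714) (nat_lit 18446745173221179904) (nat_lit 0) (nat_lit 2)) (.cons (.rf (nat_lit 174) (nat_lit 14242959524133701664)) (.cons (.rf (nat_lit 194) (nat_lit 14242959524133701664)) (.cons (.rf (nat_lit 208) (nat_lit 14242959524133701664)) (.cons (.rf (nat_lit 208) (nat_lit 11939368314733692960)) .nil)))))),
 (.br (nat_lit 2) (nat_lit 0) (.cons (.br (nat_lit 7) (nat_lit 0) (.cons (.br (nat_lit 9) (nat_lit 0) (.cons (.ev (nat_lit 475678488521840835948496291330) (nat_lit 3)) .nil)) (.cons (.rf (nat_lit 46) (nat_lit 8050249402400)) .nil))) (.cons (.br (nat_lit 9) (nat_lit 0) (.cons (.br (nat_lit 7) (nat_lit 0) (.cons (.ev (nat_lit 79538856449977637464264737025) (nat_lit 1)) .nil)) (.cons (.ev (nat_lit 475680896891854174261532951042) (nat_lit 3)) .nil))) (.cons (.rf (nat_lit 197) (nat_lit 423293454368)) .nil)))),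
 (.br (nat_lit 4) (nat_lit 0) (.cons (.rf (nat_lit 49) (nat_lit 10281417803808)) (.cons (.br (nat_lit 7) (nat_lit 0) (.cons (.ev (nat_lit 18518801672042512384) (nat_lit 1)) .nil)) .nil))),
 (.br (nat_lit 2) (nat_lit 0) (.cons (.rf (nat_lit 210) (nat_lit 14242959524133701664)) (.cons (.br (nat_lit 9) (nat_lit 0) (.cons (.br (nat_lit 7) (nat_lit 0) (.cons (.ev (nat_lit 18518801672042512384) (nat_lit 1)) .nil)) (.cons (.ev (nat_lit 1213648258436567851401216) (nat_lit 1)) (.cons (.ev (nat_lit 475680896891854174261532951042) (nat_lit 3)) .nil)))) (.cons (.rf (nat_lit 211) (nat_lit 443930265870501920)) .nil)))),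
 (.br (nat_lit 2) (nat_lit 0) (.cons (.rf (nat_lit 210) (nat_lit 14242959524133701664)) (.cons (.rf (nat_lit 212) (nat_lit 14242959524133701664)) (.cons (.br (nat_lit 4) (nat_lit 0) (.cons (.br (nat_lit 7) (nat_lit 0) (.cons (.ev (nat_lit 79538856449977637464264737025) (nat_lit 1)) .nil)) (.cons (.ev (nat_lit 79229376180897461740578537473) (nat_lit 1)) .nil))) .nil)))),
 (.br (nat_lit 2) (nat_lit 0) (.cons (.rf (nat_lit 210) (nat_lit 14242959524133701664)) (.cons (.rf (nat_lit 212) (nat_lit 14242959524133701664)) (.cons (.rf (nat_lit 213) (nat_lit 14242959524133701664)) (.cons (.br (nat_lit 2) (nat_lit 0) (.cons (.rf (nat_lit 197) (nat_lit 423293454368)) (.cons (.rf (nat_lit 211) (nat_lit 443930265870501920)) (.cons (.rf (nat_lit 213) (nat_lit 14242959524133701664)) .nil)))) .nil))))),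
 (.br (nat_lit 2) (nat_lit 0) (.cons (.br (nat_lit 2) (nat_lit 0) .nil) .nil)),
 (.br (nat_lit 2) (nat_lit 0) (.cons (.br (nat_lit 2) (nat_lit 0) (.cons (.rf (nat_lit 215) (nat_lit 7908381263904)) .nil)) (.cons (.rf (nat_lit 215) (nat_lit 7908381263904)) .nil))),
 (.br (nat_lit 2) (nat_lit 0) (.cons (.br (nat_lit 2) (nat_lit 0) (.cons (.br (nat_lit 2) (nat_lit 0) .nil) .nil)) .nil)),
 (.br (nat_lit 2) (nat_lit 0) (.cons (.br (nat_lit 2) (nat_lit 0) (.cons (.ev (nat_lit 1223111510203979184209922) (nat_lit 2)) .nil)) (.cons (.br (nat_lit 2) (nat_lit 0) (.cons (.ev (nat_lit 1223111510203979184209922) (nat_lit 2)) .nil)) .nil))),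
 (.br (nat_lit 4) (nat_lit 0) (.cons (.rf (nat_lit 218) (nat_lit 14242959524133701664)) (.cons (.ev (nat_lit 316748101995927375051751428) (nat_lit 3)) .nil)))]

theorem c5 : chkAll C T R L5 (nat_lit 183) = true := by decide +kernel

theorem l5 : (nat_lit 183) + L5.length = (nat_lit 220) := by decide +kernel

/-- part of the certificates -/
def L6 : List Prf := [(.br (nat_lit 12) (nat_lit 0) (.cons (.rf (nat_lit 214) (nat_lit 11939368314733692960)) (.cons (.ev (nat_lit 1208925819615732981301504) (nat_lit 1)) (.cons (.rf (nat_lit 217) (nat_lit 13227886624)) (.cons (.br (nat_lit 2) (nat_lit 0) (.cons (.rf (nat_lit 218) (nat_lit 14242959524133701664)) (.cons (.rf (nat_lit 219) (nat_lit 14242959524133701664)) (.cons (.br (nat_lit 2) (nat_lit 0) (.cons (.rf (nat_lit 218) (nat_lit 14242959524133701664)) (.cons (.rf (nat_lit 219) (nat_lit 14242959524133701664)) .nil))) .nil)))) .nil))))),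
 (.br (nat_lit 1) (nat_lit 0) (.cons (.rf (nat_lit 151) (nat_lit 14242959524133701664)) (.cons (.rf (nat_lit 174) (nat_lit 14242959524133701664)) (.cons (.rf (nat_lit 194) (nat_lit 14242959524133701664)) (.cons (.rf (nat_lit 209) (nat_lit 14242959524133701664)) (.cons (.br (nat_lit 10) (nat_lit 0) (.cons (.rf (nat_lit 214) (nat_lit 14242959524133701664)) (.cons (.br (nat_lit 12) (nat_lit 0) (.cons (.rf (nat_lit 214) (nat_lit 11939368314733692960)) (.cons (.ev (nat_lit 79537647542532708215249961216) (nat_lit 1)) (.cons (.rf (nat_lit 216) (nat_lit 423360563232)) .nil)))) (.cons (.rf (nat_lit 220) (nat_lit 14242959524133701664)) (.cons (.br (nat_lit 12) (nat_lit 0) (.cons (.rf (nat_lit 214) (nat_lit 11939368314733692960)) (.cons (.rf (nat_lit 216) (nat_lit 356788570144)) (.cons (.rf (nat_lit 220) (nat_lit 11939368314733692960)) (.cons (.ev (nat_lit 79538861172271780161105428736) (nat_lit 1)) .nil))))) (.cons (.kr (nat_lit 1208925819614629174706176) (nat_lit 79228162514264337593543950336)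 (nat_lit 10) (nat_lit 0)) .nil)))))) .nil)))))),
 (.br (nat_lit 1) (nat_lit 0) (.cons (.rf (nat_lit 151) (nat_lit 14242959524133701664)) (.cons (.rf (nat_lit 174) (nat_lit 14242959524133701664)) (.cons (.rf (nat_lit 194) (nat_lit 14242959524133701664)) (.cons (.rf (nat_lit 209) (nat_lit 14242959524133701664)) (.cons (.rf (nat_lit 221) (nat_lit 14242959524133701664)) (.cons (.rf (nat_lit 221) (nat_lit 11939368314733692960)) .nil))))))),
 (.br (nat_lit 3) (nat_lit 0) (.cons (.rf (nat_lit 49) (nat_lit 13514352756768)) (.cons (.br (nat_lit 10) (nat_lit 0) (.cons (.ev (nat_lit 79228167236703159532220645633) (nat_lit 1)) .nil)) .nil))),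
 (.br (nat_lit 2) (nat_lit 0) (.cons (.ev (nat_lit 4722366483969173618944) (nat_lit 1)) (.cons (.rf (nat_lit 223) (nat_lit 14242959524133701664)) (.cons (.rf (nat_lit 223) (nat_lit 11939368314733692960)) .nil)))),
 (.br (nat_lit 2) (nat_lit 0) (.cons (.rf (nat_lit 222) (nat_lit 14242959524133700672)) (.cons (.rf (nat_lit 223) (nat_lit 14242959524133701664)) (.cons (.ev (nat_lit 18518801672042512384) (nat_lit 1)) .nil)))),
 (.br (nat_lit 2) (nat_lit 0) (.cons (.rf (nat_lit 222) (nat_lit 14242959524133700672)) (.cons (.rf (nat_lit 224) (nat_lit 14242959524133701664)) (.cons (.rf (nat_lit 225) (nat_lit 14242959524133701664)) (.cons (.rf (nat_lit 225) (nat_lit 11939368314733692960)) .nil))))),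
 (.br (nat_lit 2) (nat_lit 0) (.cons (.ev (nat_lit 4722366483969173618944) (nat_lit 1)) (.cons (.rf (nat_lit 223) (nat_lit 14242959524133701664)) (.cons (.br (nat_lit 3) (nat_lit 0) (.cons (.ev (nat_lit 18518801672042512641) (nat_lit 1)) (.cons (.ev (nat_lit 316766954279572964815142912) (nat_lit 3)) (.cons (.ev (nat_lit 475678488484947910751030607872) (nat_lit 3)) .nil)))) .nil)))),
 (.br (nat_lit 2) (nat_lit 0) (.cons (.ev (nat_lit 4722366483969173618944) (nat_lit 1)) (.cons (.rf (nat_lit 224) (nat_lit 14242959524133701664)) (.cons (.rf (nat_lit 227) (nat_lit 14242959524133701664)) (.cons (.rf (nat_lit 227) (nat_lit 11939368314733692960)) .nil))))),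
 (.br (nat_lit 2) (nat_lit 0) (.cons (.rf (nat_lit 222) (nat_lit 14242959524133700672)) (.cons (.rf (nat_lit 226) (nat_lit 14242959524133701664)) (.cons (.rf (nat_lit 228) (nat_lit 14242959524133701664)) (.cons (.br (nat_lit 2) (nat_lit 0) (.cons (.rf (nat_lit 222) (nat_lit 14242959524133700672)) (.cons (.ev (nat_lit 18518801672042512384) (nat_lit 1)) (.cons (.rf (nat_lit 228) (nat_lit 14242959524133701664)) .nil)))) .nil))))),
 (.br (nat_lit 10) (nat_lit 0) (.cons (.ev (nat_lit 1213648258436567851401473) (nat_lit 1)) .nil)),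
 (.br (nat_lit 2) (nat_lit 0) (.cons (.rf (nat_lit 222) (nat_lit 14242959524133700672)) (.cons (.br (nat_lit 3) (nat_lit 0) (.cons (.rf (nat_lit 49) (nat_lit 13547638753312)) (.cons (.br (nat_lit 9) (nat_lit 0) (.cons (.ev (nat_lit 79537652246524505700456988928) (nat_lit 1)) .nil)) .nil))) (.cons (.br (nat_lit 3) (nat_lit 0) (.cons (.rf (nat_lit 230) (nat_lit 14242959524133701664)) (.cons (.br (nat_lit 9) (nat_lit 0) (.cons (.ev (nat_lit 317224572084833360147500237326) (nat_lit 4)) .nil)) (.cons (.br (nat_lit 9) (nat_lit 0) (.cons (.ev (nat_lit 314349139966179617135394820) (nat_lit 3)) .nil)) .nil)))) .nil)))),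
 (.br (nat_lit 2) (nat_lit 0) (.cons (.rf (nat_lit 222) (nat_lit 14242959524133700672)) (.cons (.rf (nat_lit 231) (nat_lit 14242959524133701664)) (.cons (.br (nat_lit 2) (nat_lit 0) (.cons (.ev (nat_lit 1208925819615732981366784) (nat_lit 1)) (.cons (.rf (nat_lit 231) (nat_lit 14242959524133701664)) (.cons (.ev (nat_lit 18518801672042512384) (nat_lit 1)) .nil)))) (.cons (.br (nat_lit 2) (nat_lit 0) (.cons (.rf (nat_lit 222) (nat_lit 14242959524133700672)) (.cons (.rf (nat_lit 231) (nat_lit 14242959524133701664)) (.cons (.ev (nat_lit 18518801672042512384) (nat_lit 1)) .nil)))) .nil))))),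
 (.br (nat_lit 2) (nat_lit 0) (.cons (.rf (nat_lit 195) (nat_lit 445092485094540352)) (.cons (.rf (nat_lit 232) (nat_lit 14242959524133701664)) (.cons (.br (nat_lit 3) (nat_lit 0) (.cons (.br (nat_lit 9) (nat_lit 0) (.cons (.ev (nat_lit 1223148404255076556866050) (nat_lit 2)) .nil)) (.cons (.ev (nat_lit 4740813509517859946496) (nat_lit 1)) (.cons (.br (nat_lit 7) (nat_lit 0) (.cons (.ev (nat_lit 158765819575317554112986480642) (nat_lit 3)) .nil)) .nil)))) .nil)))),
 (.br (nat_lit 2) (nat_lit 0) (.cons (.rf (nat_lit 222) (nat_lit 14242959524133700672)) (.cons (.rf (nat_lit 232) (nat_lit 14242959524133701664)) (.cons (.rf (nat_lit 233) (nat_lit 14242959524133701664)) (.cons (.br (nat_lit 2) (nat_lit 0) (.cons (.rf (nat_lit 222) (nat_lit 14242959524133700672)) (.cons (.rf (nat_lit 232) (nat_lit 14242959524133701664)) (.cons (.rf (nat_lit 233) (nat_lit 14242959524133701664)) .nil)))) .nil))))),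
 (.br (nat_lit 2) (nat_lit 0) (.cons (.rf (nat_lit 222) (nat_lit 14242959524133700672)) (.cons (.rf (nat_lit 232) (nat_lit 14242959524133701664)) (.cons (.rf (nat_lit 234) (nat_lit 14242959524133701664)) (.cons (.br (nat_lit 2) (nat_lit 0) (.cons (.rf (nat_lit 222) (nat_lit 14242959524133700672)) (.cons (.ev (nat_lit 18518801672042512384) (nat_lit 1)) (.cons (.rf (nat_lit 234) (nat_lit 14242959524133701664)) .nil)))) .nil))))),
 (.br (nat_lit 2) (nat_lit 0) (.cons (.rf (nat_lit 222) (nat_lit 14242959524133700672)) (.cons (.rf (nat_lit 232) (nat_lit 14242959524133701664)) (.cons (.rf (nat_lit 234) (nat_lit 14242959524133701664)) (.cons (.rf (nat_lit 235) (nat_lit 14242959524133701664)) (.cons (.br (nat_lit 2) (nat_lit 0) (.cons (.rf (nat_lit 222) (nat_lit 14242959524133700672)) (.cons (.rf (nat_lit 232) (nat_lit 14242959524133701664)) (.cons (.rf (nat_lit 234) (nat_lit 14242959524133701664)) (.cons (.rf (nat_lit 235) (nat_lit 14242959524133701664)) .nil))))) .nil)))))),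
 (.br (nat_lit 1) (nat_lit 0) (.cons (.rf (nat_lit 151) (nat_lit 14242959524133701664)) (.cons (.rf (nat_lit 222) (nat_lit 14242959524133701664)) (.cons (.br (nat_lit 2) (nat_lit 0) (.cons (.rf (nat_lit 222) (nat_lit 14242959524133700672)) (.cons (.rf (nat_lit 226) (nat_lit 14242959524133701664)) (.cons (.rf (nat_lit 228) (nat_lit 14242959524133701664)) (.cons (.rf (nat_lit 229) (nat_lit 14242959524133701664)) (.cons (.rf (nat_lit 229) (nat_lit 11939368314733692960)) .nil)))))) (.cons (.rf (nat_lit 236) (nat_lit 14242959524133701664)) (.cons (.rf (nat_lit 236) (nat_lit 11939368314733692960)) .nil)))))),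
 (.br (nat_lit 2) (nat_lit 0) (.cons (.rf (nat_lit 222) (nat_lit 14242959524133700672)) (.cons (.br (nat_lit 3) (nat_lit 0) (.cons (.ev (nat_lit 1223093063741380451565571) (nat_lit 2)) (.cons (.br (nat_lit 7) (nat_lit 0) (.cons (.ev (nat_lit 79537652246524505700456988928) (nat_lit 1)) .nil)) .nil))) (.cons (.br (nat_lit 3) (nat_lit 0) (.cons (.rf (nat_lit 50) (nat_lit 14203623463816661024)) (.cons (.br (nat_lit 7) (nat_lit 0) (.cons (.ev (nat_lit 79228176736848978040926109696) (nat_lit 2)) .nil)) (.cons (.br (nat_lit 7) (nat_lit 0) (.cons (.ev (nat_lit 79230580384422932577695956992) (nat_lit 2)) .nil)) .nil)))) .nil)))),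
 (.br (nat_lit 2) (nat_lit 0) (.cons (.ev (nat_lit 1208925819615732981366784) (nat_lit 1)) (.cons (.rf (nat_lit 238) (nat_lit 14242959524133701664)) (.cons (.br (nat_lit 7) (nat_lit 0) (.cons (.br (nat_lit 9) (nat_lit 0) (.cons (.ev (nat_lit 79538861172271780161105494273) (nat_lit 1)) .nil)) (.cons (.ev (nat_lit 72339073309605889) (nat_lit 1)) (.cons (.br (nat_lit 3) (nat_lit 0) (.cons (.ev (nat_lit 951052318274102908136997784070) (nat_lit 4)) .nil)) .nil)))) .nil)))),
 (.br (nat_lit 2) (nat_lit 0) (.cons (.rf (nat_lit 222) (nat_lit 14242959524133700672)) (.cons (.rf (nat_lit 238) (nat_lit 14242959524133701664)) (.cons (.rf (nat_lit 239) (nat_lit 14242959524133701664)) (.cons (.br (nat_lit 2) (nat_lit 0) (.cons (.rf (nat_lit 222) (nat_lit 14242959524133700672)) (.cons (.rf (nat_lit 238) (nat_lit 14242959524133701664)) (.cons (.rf (nat_lit 239) (nat_lit 14242959524133701664)) .nil)))) .nil))))),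
 (.br (nat_lit 2) (nat_lit 0) (.cons (.rf (nat_lit 197) (nat_lit 353499220000)) (.cons (.rf (nat_lit 240) (nat_lit 14242959524133701664)) (.cons (.br (nat_lit 3) (nat_lit 0) (.cons (.br (nat_lit 7) (nat_lit 0) (.cons (.ev (nat_lit 79538856449977637464264737025) (nat_lit 1)) .nil)) (.cons (.ev (nat_lit 475678488484947910751030607872) (nat_lit 3)) .nil))) .nil)))),
 (.br (nat_lit 2) (nat_lit 0) (.cons (.rf (nat_lit 222) (nat_lit 14242959524133700672)) (.cons (.rf (nat_lit 240) (nat_lit 14242959524133701664)) (.cons (.rf (nat_lit 241) (nat_lit 14242959524133701664)) (.cons (.br (nat_lit 2) (nat_lit 0) (.cons (.rf (nat_lit 222) (nat_lit 14242959524133700672)) (.cons (.rf (nat_lit 240) (nat_lit 14242959524133701664)) (.cons (.rf (nat_lit 241) (nat_lit 14242959524133701664)) .nil)))) .nil))))),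
 (.br (nat_lit 2) (nat_lit 0) (.cons (.rf (nat_lit 222) (nat_lit 14242959524133700672)) (.cons (.rf (nat_lit 240) (nat_lit 14242959524133701664)) (.cons (.rf (nat_lit 242) (nat_lit 14242959524133701664)) (.cons (.br (nat_lit 2) (nat_lit 0) (.cons (.rf (nat_lit 222) (nat_lit 14242959524133700672)) (.cons (.rf (nat_lit 240) (nat_lit 14242959524133701664)) (.cons (.rf (nat_lit 242) (nat_lit 14242959524133701664)) .nil)))) .nil))))),
 (.br (nat_lit 2) (nat_lit 0) (.cons (.rf (nat_lit 222) (nat_lit 14242959524133700672)) (.cons (.rf (nat_lit 240) (nat_lit 14242959524133701664)) (.cons (.rf (nat_lit 242) (nat_lit 14242959524133701664)) (.cons (.rf (nat_lit 243) (nat_lit 14242959524133701664)) (.cons (.br (nat_lit 2) (nat_lit 0) (.cons (.rf (nat_lit 222) (nat_lit 14242959524133700672)) (.cons (.rf (nat_lit 240) (nat_lit 14242959524133701664)) (.cons (.rf (nat_lit 242) (nat_lit 14242959524133701664)) (.cons (.rf (nat_lit 243) (nat_lit 14242959524133701664)) .nil))))) .nil)))))),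
 (.br (nat_lit 1) (nat_lit 0) (.cons (.rf (nat_lit 151) (nat_lit 14242959524133701664)) (.cons (.rf (nat_lit 222) (nat_lit 14242959524133701664)) (.cons (.rf (nat_lit 237) (nat_lit 14242959524133701664)) (.cons (.rf (nat_lit 244) (nat_lit 14242959524133701664)) (.cons (.rf (nat_lit 244) (nat_lit 11939368314733692960)) .nil)))))),
 (.br (nat_lit 7) (nat_lit 0) (.cons (.rf (nat_lit 59) (nat_lit 14205772941369673760)) (.cons (.ev (nat_lit 72339073309605889) (nat_lit 1)) (.cons (.br (nat_lit 3) (nat_lit 0) (.cons (.ev (nat_lit 79537652246524505700456988928) (nat_lit 1)) .nil)) .nil)))),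
 (.br (nat_lit 2) (nat_lit 0) (.cons (.rf (nat_lit 222) (nat_lit 14242959524133700672)) (.cons (.rf (nat_lit 246) (nat_lit 14242959524133701664)) (.cons (.rf (nat_lit 246) (nat_lit 11939368314733692960)) .nil)))),
 (.br (nat_lit 2) (nat_lit 0) (.cons (.ev (nat_lit 1208925819615732981366784) (nat_lit 1)) (.cons (.rf (nat_lit 247) (nat_lit 14242959524133701664)) (.cons (.br (nat_lit 7) (nat_lit 0) (.cons (.rf (nat_lit 49) (nat_lit 10315776526368)) (.cons (.ev (nat_lit 72339073309605889) (nat_lit 1)) .nil))) .nil)))),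
 (.br (nat_lit 2) (nat_lit 0) (.cons (.rf (nat_lit 222) (nat_lit 14242959524133700672)) (.cons (.rf (nat_lit 247) (nat_lit 14242959524133701664)) (.cons (.rf (nat_lit 248) (nat_lit 14242959524133701664)) (.cons (.rf (nat_lit 248) (nat_lit 11939368314733692960)) .nil))))),
 (.br (nat_lit 2) (nat_lit 0) (.cons (.rf (nat_lit 222) (nat_lit 14242959524133700672)) (.cons (.rf (nat_lit 249) (nat_lit 14242959524133701664)) (.cons (.br (nat_lit 3) (nat_lit 0) (.cons (.br (nat_lit 7) (nat_lit 0) (.cons (.ev (nat_lit 79538856468424100062997512448) (nat_lit 1)) .nil)) (.cons (.ev (nat_lit 4740813509517859946496) (nat_lit 1)) .nil))) .nil)))),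
 (.br (nat_lit 2) (nat_lit 0) (.cons (.rf (nat_lit 222) (nat_lit 14242959524133700672)) (.cons (.rf (nat_lit 249) (nat_lit 14242959524133701664)) (.cons (.rf (nat_lit 250) (nat_lit 14242959524133701664)) (.cons (.rf (nat_lit 250) (nat_lit 11939368314733692960)) .nil))))),
 (.br (nat_lit 2) (nat_lit 0) (.cons (.rf (nat_lit 222) (nat_lit 14242959524133700672)) (.cons (.rf (nat_lit 249) (nat_lit 14242959524133701664)) (.cons (.rf (nat_lit 251) (nat_lit 14242959524133701664)) (.cons (.br (nat_lit 2) (nat_lit 0) (.cons (.rf (nat_lit 197) (nat_lit 423292438560)) (.cons (.rf (nat_lit 249) (nat_lit 14242959524133701664)) (.cons (.rf (nat_lit 251) (nat_lit 14242959524133701664)) .nil)))) .nil))))),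
 (.br (nat_lit 1) (nat_lit 0) (.cons (.rf (nat_lit 151) (nat_lit 14242959524133701664)) (.cons (.rf (nat_lit 222) (nat_lit 14242959524133701664)) (.cons (.rf (nat_lit 237) (nat_lit 14242959524133701664)) (.cons (.rf (nat_lit 245) (nat_lit 14242959524133701664)) (.cons (.br (nat_lit 2) (nat_lit 0) (.cons (.rf (nat_lit 222) (nat_lit 14242959524133700672)) (.cons (.rf (nat_lit 249) (nat_lit 14242959524133701664)) (.cons (.rf (nat_lit 251) (nat_lit 14242959524133701664)) (.cons (.rf (nat_lit 252) (nat_lit 14242959524133701664)) (.cons (.rf (nat_lit 252) (nat_lit 11939368314733692960)) .nil)))))) .nil))))))]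

theorem c6 : chkAll C T R L6 (nat_lit 220) = true := by decide +kernel

theorem l6 : (nat_lit 220) + L6.length = (nat_lit 254) := by decide +kernel

/-- part of the certificates -/
def L7 : List Prf := [(.br (nat_lit 1) (nat_lit 0) (.cons (.rf (nat_lit 151) (nat_lit 14242959524133701664)) (.cons (.rf (nat_lit 222) (nat_lit 14242959524133701664)) (.cons (.rf (nat_lit 237) (nat_lit 14242959524133701664)) (.cons (.rf (nat_lit 245) (nat_lit 14242959524133701664)) (.cons (.rf (nat_lit 253) (nat_lit 14242959524133701664)) (.cons (.rf (nat_lit 253) (nat_lit 11939368314733692960)) .nil))))))),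
 (.br (nat_lit 8) (nat_lit 0) .nil),
 (.br (nat_lit 4) (nat_lit 0) (.cons (.ev (nat_lit 317222144603989779339173430272) (nat_lit 3)) .nil)),
 (.br (nat_lit 2) (nat_lit 0) (.cons (.rf (nat_lit 222) (nat_lit 14242959524133700672)) (.cons (.rf (nat_lit 223) (nat_lit 14242959524133700672)) (.cons (.br (nat_lit 3) (nat_lit 0) (.cons (.rf (nat_lit 255) (nat_lit 13547639769120)) (.cons (.br (nat_lit 4) (nat_lit 0) (.cons (.ev (nat_lit 79537652264970968299189895425) (nat_lit 1)) .nil)) .nil))) (.cons (.br (nat_lit 3) (nat_lit 0) (.cons (.br (nat_lit 10) (nat_lit 0) (.cons (.ev (nat_lit 79538861172271780161105494273) (nat_lit 1)) .nil)) (.cons (.rf (nat_lit 256) (nat_lit 14242959524133701664)) (.cons (.rf (nat_lit 256) (nat_lit 11939368314733691968)) .nil)))) .nil))))),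
 (.br (nat_lit 3) (nat_lit 0) (.cons (.ev (nat_lit 79228167236703159532220645633) (nat_lit 1)) .nil)),
 (.br (nat_lit 2) (nat_lit 0) (.cons (.rf (nat_lit 222) (nat_lit 14242959524133700672)) (.cons (.rf (nat_lit 254) (nat_lit 14242959524133700672)) (.cons (.rf (nat_lit 257) (nat_lit 14242959524133701664)) (.cons (.br (nat_lit 4) (nat_lit 0) (.cons (.br (nat_lit 9) (nat_lit 0) (.cons (.ev (nat_lit 79538861172271780161105494273) (nat_lit 1)) .nil)) (.cons (.ev (nat_lit 72339073309605889) (nat_lit 1)) (.cons (.rf (nat_lit 258) (nat_lit 14242959524133701664)) .nil)))) .nil))))),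
 (.br (nat_lit 2) (nat_lit 0) (.cons (.rf (nat_lit 222) (nat_lit 14242959524133700672)) (.cons (.rf (nat_lit 254) (nat_lit 14242959524133700672)) (.cons (.rf (nat_lit 257) (nat_lit 14242959524133701664)) (.cons (.rf (nat_lit 259) (nat_lit 14242959524133701664)) (.cons (.br (nat_lit 2) (nat_lit 0) (.cons (.rf (nat_lit 222) (nat_lit 14242959524133700672)) (.cons (.rf (nat_lit 254) (nat_lit 14242959524133700672)) (.cons (.rf (nat_lit 257) (nat_lit 14242959524133701664)) (.cons (.rf (nat_lit 259) (nat_lit 14242959524133701664)) .nil))))) .nil)))))),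
 (.br (nat_lit 7) (nat_lit 0) (.cons (.zr (nat_lit 2417851711286852387340547) (nat_lit 2199040229376) (nat_lit 5) (nat_lit 1)) .nil)),
 (.br (nat_lit 2) (nat_lit 0) (.cons (.rf (nat_lit 222) (nat_lit 14242959524133700672)) (.cons (.rf (nat_lit 254) (nat_lit 14242959524133700672)) (.cons (.rf (nat_lit 260) (nat_lit 14242959524133701664)) (.cons (.br (nat_lit 4) (nat_lit 0) (.cons (.rf (nat_lit 261) (nat_lit 445092449661061152)) (.cons (.br (nat_lit 3) (nat_lit 0) (.cons (.ev (nat_lit 158765819501531703718055378950) (nat_lit 3)) .nil)) (.cons (.ev (nat_lit 79537647524085682666563764224) (nat_lit 1)) .nil)))) .nil))))),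
 (.br (nat_lit 2) (nat_lit 0) (.cons (.rf (nat_lit 222) (nat_lit 14242959524133700672)) (.cons (.rf (nat_lit 254) (nat_lit 14242959524133700672)) (.cons (.rf (nat_lit 260) (nat_lit 14242959524133701664)) (.cons (.rf (nat_lit 262) (nat_lit 14242959524133701664)) (.cons (.br (nat_lit 2) (nat_lit 0) (.cons (.rf (nat_lit 222) (nat_lit 14242959524133700672)) (.cons (.rf (nat_lit 254) (nat_lit 14242959524133700672)) (.cons (.rf (nat_lit 260) (nat_lit 14242959524133701664)) (.cons (.rf (nat_lit 262) (nat_lit 14242959524133701664)) .nil))))) .nil)))))),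
 (.br (nat_lit 2) (nat_lit 0) (.cons (.rf (nat_lit 222) (nat_lit 14242959524133700672)) (.cons (.rf (nat_lit 254) (nat_lit 14242959524133700672)) (.cons (.rf (nat_lit 260) (nat_lit 14242959524133701664)) (.cons (.rf (nat_lit 263) (nat_lit 14242959524133701664)) (.cons (.br (nat_lit 2) (nat_lit 0) (.cons (.rf (nat_lit 222) (nat_lit 14242959524133700672)) (.cons (.rf (nat_lit 254) (nat_lit 14242959524133700672)) (.cons (.rf (nat_lit 260) (nat_lit 14242959524133701664)) (.cons (.rf (nat_lit 263) (nat_lit 14242959524133701664)) .nil))))) .nil)))))),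
 (.br (nat_lit 2) (nat_lit 0) (.cons (.rf (nat_lit 222) (nat_lit 14242959524133700672)) (.cons (.rf (nat_lit 254) (nat_lit 14242959524133700672)) (.cons (.rf (nat_lit 260) (nat_lit 14242959524133701664)) (.cons (.rf (nat_lit 263) (nat_lit 14242959524133701664)) (.cons (.rf (nat_lit 264) (nat_lit 14242959524133701664)) (.cons (.br (nat_lit 2) (nat_lit 0) (.cons (.rf (nat_lit 222) (nat_lit 14242959524133700672)) (.cons (.rf (nat_lit 254) (nat_lit 14242959524133700672)) (.cons (.rf (nat_lit 260) (nat_lit 14242959524133701664)) (.cons (.rf (nat_lit 263) (nat_lit 14242959524133701664)) (.cons (.rf (nat_lit 264) (nat_lit 14242959524133701664)) .nil)))))) .nil))))))),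
 (.br (nat_lit 1) (nat_lit 0) (.cons (.rf (nat_lit 151) (nat_lit 14242959524133701664)) (.cons (.rf (nat_lit 222) (nat_lit 14242959524133701664)) (.cons (.rf (nat_lit 254) (nat_lit 14242959524133701664)) (.cons (.rf (nat_lit 265) (nat_lit 14242959524133701664)) (.cons (.rf (nat_lit 265) (nat_lit 11939368314733692960)) .nil)))))),
 (.br (nat_lit 4) (nat_lit 0) (.cons (.rf (nat_lit 255) (nat_lit 10284538365984)) (.cons (.ev (nat_lit 72339073309605889) (nat_lit 1)) .nil))),
 (.br (nat_lit 2) (nat_lit 0) (.cons (.rf (nat_lit 222) (nat_lit 14242959524133700672)) (.cons (.ev (nat_lit 18518801672042447104) (nat_lit 1)) (.cons (.rf (nat_lit 266) (nat_lit 14242959524133700672)) (.cons (.rf (nat_lit 267) (nat_lit 443930265870501920)) .nil))))),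
 (.br (nat_lit 2) (nat_lit 0) (.cons (.rf (nat_lit 222) (nat_lit 14242959524133700672)) (.cons (.ev (nat_lit 18518801672042447104) (nat_lit 1)) (.cons (.rf (nat_lit 266) (nat_lit 14242959524133700672)) (.cons (.rf (nat_lit 268) (nat_lit 14242959524133701664)) (.cons (.rf (nat_lit 268) (nat_lit 11939368314733692960)) .nil)))))),
 (.br (nat_lit 2) (nat_lit 0) (.cons (.rf (nat_lit 222) (nat_lit 14242959524133700672)) (.cons (.rf (nat_lit 254) (nat_lit 14242959524133700672)) (.cons (.rf (nat_lit 266) (nat_lit 14242959524133700672)) (.cons (.br (nat_lit 3) (nat_lit 0) (.cons (.rf (nat_lit 261) (nat_lit 337077526859974688)) (.cons (.br (nat_lit 4) (nat_lit 0) (.cons (.ev (nat_lit 79538861190718805709791756288) (nat_lit 1)) .nil)) (.cons (.ev (nat_lit 4740813509517859946496) (nat_lit 1)) .nil)))) .nil))))),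
 (.br (nat_lit 2) (nat_lit 0) (.cons (.rf (nat_lit 222) (nat_lit 14242959524133700672)) (.cons (.rf (nat_lit 254) (nat_lit 14242959524133700672)) (.cons (.rf (nat_lit 266) (nat_lit 14242959524133700672)) (.cons (.rf (nat_lit 270) (nat_lit 14242959524133701664)) (.cons (.rf (nat_lit 270) (nat_lit 11939368314733692960)) .nil)))))),
 (.br (nat_lit 2) (nat_lit 0) (.cons (.rf (nat_lit 222) (nat_lit 14242959524133700672)) (.cons (.rf (nat_lit 254) (nat_lit 14242959524133700672)) (.cons (.rf (nat_lit 269) (nat_lit 14242959524133701664)) (.cons (.rf (nat_lit 271) (nat_lit 14242959524133701664)) (.cons (.br (nat_lit 2) (nat_lit 0) (.cons (.rf (nat_lit 211) (nat_lit 443930265870500928)) (.cons (.rf (nat_lit 254) (nat_lit 14242959524133700672)) (.cons (.rf (nat_lit 267) (nat_lit 443930265870501920)) (.cons (.rf (nat_lit 271) (nat_lit 14242959524133701664)) .nil))))) .nil)))))),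
 (.br (nat_lit 1) (nat_lit 0) (.cons (.rf (nat_lit 151) (nat_lit 14242959524133701664)) (.cons (.rf (nat_lit 222) (nat_lit 14242959524133701664)) (.cons (.rf (nat_lit 254) (nat_lit 14242959524133701664)) (.cons (.rf (nat_lit 266) (nat_lit 14242959524133701664)) (.cons (.br (nat_lit 2) (nat_lit 0) (.cons (.rf (nat_lit 222) (nat_lit 14242959524133700672)) (.cons (.rf (nat_lit 254) (nat_lit 14242959524133700672)) (.cons (.rf (nat_lit 269) (nat_lit 14242959524133701664)) (.cons (.rf (nat_lit 271) (nat_lit 14242959524133701664)) (.cons (.rf (nat_lit 272) (nat_lit 14242959524133701664)) (.cons (.rf (nat_lit 272) (nat_lit 11939368314733692960)) .nil))))))) .nil)))))),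
 (.br (nat_lit 1) (nat_lit 0) (.cons (.rf (nat_lit 151) (nat_lit 14242959524133701664)) (.cons (.rf (nat_lit 222) (nat_lit 14242959524133701664)) (.cons (.rf (nat_lit 254) (nat_lit 14242959524133701664)) (.cons (.rf (nat_lit 266) (nat_lit 14242959524133701664)) (.cons (.rf (nat_lit 273) (nat_lit 14242959524133701664)) (.cons (.rf (nat_lit 273) (nat_lit 11939368314733692960)) .nil))))))),
 (.br (nat_lit 2) (nat_lit 0) (.cons (.rf (nat_lit 222) (nat_lit 14242959524133700672)) (.cons (.rf (nat_lit 254) (nat_lit 14242959524133700672)) (.cons (.rf (nat_lit 274) (nat_lit 14242959524133700672)) (.cons (.br (nat_lit 3) (nat_lit 0) (.cons (.ev (nat_lit 79538861172271780161105428481) (nat_lit 1)) (.cons (.br (nat_lit 4) (nat_lit 0) (.cons (.ev (nat_lit 79538856449977637464264737025) (nat_lit 1)) .nil)) .nil))) .nil))))),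
 (.br (nat_lit 2) (nat_lit 0) (.cons (.rf (nat_lit 222) (nat_lit 14242959524133700672)) (.cons (.rf (nat_lit 254) (nat_lit 14242959524133700672)) (.cons (.rf (nat_lit 274) (nat_lit 14242959524133700672)) (.cons (.rf (nat_lit 275) (nat_lit 14242959524133701664)) (.cons (.rf (nat_lit 275) (nat_lit 11939368314733692960)) .nil)))))),
 (.br (nat_lit 2) (nat_lit 0) (.cons (.rf (nat_lit 222) (nat_lit 14242959524133700672)) (.cons (.rf (nat_lit 254) (nat_lit 14242959524133700672)) (.cons (.rf (nat_lit 274) (nat_lit 14242959524133700672)) (.cons (.rf (nat_lit 276) (nat_lit 14242959524133701664)) (.cons (.br (nat_lit 2) (nat_lit 0) (.cons (.rf (nat_lit 222) (nat_lit 14242959524133700672)) (.cons (.rf (nat_lit 254) (nat_lit 14242959524133700672)) (.cons (.rf (nat_lit 274) (nat_lit 14242959524133700672)) (.cons (.rf (nat_lit 276) (nat_lit 14242959524133701664)) .nil))))) .nil)))))),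
 (.br (nat_lit 1) (nat_lit 0) (.cons (.rf (nat_lit 151) (nat_lit 14242959524133701664)) (.cons (.rf (nat_lit 222) (nat_lit 14242959524133701664)) (.cons (.rf (nat_lit 254) (nat_lit 14242959524133701664)) (.cons (.rf (nat_lit 274) (nat_lit 14242959524133701664)) (.cons (.br (nat_lit 2) (nat_lit 0) (.cons (.rf (nat_lit 222) (nat_lit 14242959524133700672)) (.cons (.rf (nat_lit 254) (nat_lit 14242959524133700672)) (.cons (.rf (nat_lit 274) (nat_lit 14242959524133700672)) (.cons (.rf (nat_lit 276) (nat_lit 14242959524133701664)) (.cons (.rf (nat_lit 277) (nat_lit 14242959524133701664)) (.cons (.rf (nat_lit 277) (nat_lit 11939368314733692960)) .nil))))))) .nil)))))),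
 (.br (nat_lit 1) (nat_lit 0) (.cons (.rf (nat_lit 151) (nat_lit 14242959524133701664)) (.cons (.rf (nat_lit 222) (nat_lit 14242959524133701664)) (.cons (.rf (nat_lit 254) (nat_lit 14242959524133701664)) (.cons (.rf (nat_lit 274) (nat_lit 14242959524133701664)) (.cons (.rf (nat_lit 278) (nat_lit 14242959524133701664)) (.cons (.rf (nat_lit 278) (nat_lit 11939368314733692960)) .nil))))))),
 (.br (nat_lit 1) (nat_lit 0) (.cons (.rf (nat_lit 151) (nat_lit 14242959524133701664)) (.cons (.rf (nat_lit 222) (nat_lit 14242959524133701664)) (.cons (.rf (nat_lit 254) (nat_lit 14242959524133701664)) (.cons (.rf (nat_lit 274) (nat_lit 14242959524133701664)) (.cons (.rf (nat_lit 279) (nat_lit 14242959524133701664)) (.cons (.br (nat_lit 1) (nat_lit 0) (.cons (.rf (nat_lit 119) (nat_lit 149531461633)) (.cons (.rf (nat_lit 222) (nat_lit 14242959524133701664)) (.cons (.rf (nat_lit 254) (nat_lit 14242959524133701664)) (.cons (.rf (nat_lit 274) (nat_lit 14242959524133701664)) (.cons (.rf (nat_lit 279)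 (nat_lit 14242959524133701664)) .nil)))))) .nil))))))),
 (.br (nat_lit 6) (nat_lit 0) (.cons (.br (nat_lit 8) (nat_lit 0) (.cons (.rf (nat_lit 0) (nat_lit 8896320739)) (.cons (.br (nat_lit 10) (nat_lit 1) (.cons (.br (nat_lit 8) (nat_lit 0) (.cons (.rf (nat_lit 0) (nat_lit 8896320739)) (.cons (.br (nat_lit 9) (nat_lit 1) (.cons (.br (nat_lit 11) (nat_lit 0) (.cons (.br (nat_lit 5) (nat_lit 1) (.cons (.rf (nat_lit 1) (nat_lit 4396259)) (.cons (.br (nat_lit 6) (nat_lit 1) (.cons (.kr (nat_lit 309485009821346168236408832) (nat_lit 18447025548686262272) (nat_lit 5) (nat_lit 0)) .nil)) (.cons (.br (nat_lit 6) (nat_lit 1) (.cons (.br (nat_lit 1) (nat_lit 0) (.cons (.rf (nat_lit 151) (nat_lit 14242959524133701664)) (.cons (.rf (nat_lit 222) (nat_lit 14242959524133701664)) (.cons (.rf (nat_lit 254) (nat_lit 14242959524133701664)) (.cons (.rf (nat_lit 274) (nat_lit 14242959524133701664)) (.cons (.rf (nat_lit 279) (nat_lit 14242959524133701664)) (.cons (.rf (nat_lit 280) (nat_lit 14242959524133701664))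 (.cons (.rf (nat_lit 280) (nat_lit 11939368314733692960)) .nil)))))))) .nil)) .nil)))) .nil)) .nil)) .nil))) .nil)) .nil))) .nil)),
 (.br (nat_lit 9) (nat_lit 0) (.cons (.br (nat_lit 10) (nat_lit 0) (.cons (.zr (nat_lit 79230580365903566860516983296) (nat_lit 14167315622490561052675) (nat_lit 5) (nat_lit 0)) .nil)) .nil)),
 (.br (nat_lit 2) (nat_lit 0) (.cons (.br (nat_lit 9) (nat_lit 0) (.cons (.rf (nat_lit 282) (nat_lit 14242959524133701664)) (.cons (.br (nat_lit 9) (nat_lit 0) (.cons (.rf (nat_lit 282) (nat_lit 14242959524133701664)) .nil)) .nil))) (.cons (.br (nat_lit 7) (nat_lit 0) (.cons (.rf (nat_lit 124) (nat_lit 147445614593)) (.cons (.br (nat_lit 9) (nat_lit 0) (.cons (.rf (nat_lit 5) (nat_lit 13547639769120)) (.cons (.br (nat_lit 10) (nat_lit 0) (.cons (.zr (nat_lit 928464474341117233085939714) (nat_lit 3626814352894997781545728) (nat_lit 5) (nat_lit 1)) .nil)) .nil))) (.cons (.ev (nat_lit 18518801672042512641) (nat_lit 1)) .nil)))) (.cons (.br (nat_lit 7) (nat_lit 0) (.cons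 (.br (nat_lit 9) (nat_lit 0) (.cons (.rf (nat_lit 5) (nat_lit 13514353772576)) (.cons (.br (nat_lit 10) (nat_lit 0) (.cons (.zr (nat_lit 2166395068751385805910966272) (nat_lit 2427351856543514979467778) (nat_lit 20) (nat_lit 10)) .nil)) .nil))) (.cons (.rf (nat_lit 124) (nat_lit 148485801985)) (.cons (.ev (nat_lit 18519084246530850816) (nat_lit 1)) .nil)))) (.cons (.br (nat_lit 7) (nat_lit 0) (.cons (.ev (nat_lit 18518801672042512641) (nat_lit 1)) (.cons (.ev (nat_lit 18519084246530850816) (nat_lit 1)) (.cons (.rf (nat_lit 124) (nat_lit 150633285633)) .nil)))) .nil))))),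
 (.br (nat_lit 7) (nat_lit 0) (.cons (.ev (nat_lit 1213648402273592403820801) (nat_lit 2)) (.cons (.br (nat_lit 10) (nat_lit 0) (.cons (.ev (nat_lit 316767028209536348798845952) (nat_lit 3)) .nil)) .nil))),
 (.br (nat_lit 7) (nat_lit 0) (.cons (.ev (nat_lit 1213648402273592403820801) (nat_lit 2)) (.cons (.br (nat_lit 9) (nat_lit 0) (.cons (.ev (nat_lit 311912435755072193847886338) (nat_lit 3)) .nil)) .nil))),
 (.br (nat_lit 9) (nat_lit 0) (.cons (.ev (nat_lit 309485009821626547996524801) (nat_lit 1)) .nil))]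

theorem c7 : chkAll C T R L7 (nat_lit 254) = true := by decide +kernel

theorem l7 : (nat_lit 254) + L7.length = (nat_lit 287) := by decide +kernel

/-- part of the certificates -/
def L8 : List Prf := [(.br (nat_lit 6) (nat_lit 0) (.cons (.rf (nat_lit 286) (nat_lit 407901468851537952)) (.cons (.rf (nat_lit 11) (nat_lit 10282357327904)) .nil))),
 (.br (nat_lit 6) (nat_lit 0) (.cons (.ev (nat_lit 309485009821626547996524801) (nat_lit 1)) .nil)),
 (.br (nat_lit 2) (nat_lit 0) (.cons (.rf (nat_lit 283) (nat_lit 14242959524133701664)) (.cons (.rf (nat_lit 283) (nat_lit 14133785613000869889)) (.cons (.br (nat_lit 4) (nat_lit 0) (.cons (.br (nat_lit 9) (nat_lit 0) (.cons (.ev (nat_lit 1213648402834343333986561) (nat_lit 2)) (.cons (.br (nat_lit 10) (nat_lit 0) (.cons (.zr (nat_lit 2417906979462587613315584) (nat_lit 618984186958874478452408323) (nat_lit 5) (nat_lit 0)) .nil)) .nil))) (.cons (.rf (nat_lit 284) (nat_lit 14242959524133701664)) (.cons (.rf (nat_lit 285) (nat_lit 14242959524133701664))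 (.cons (.br (nat_lit 7) (nat_lit 0) (.cons (.rf (nat_lit 285) (nat_lit 14133785613000869889)) (.cons (.rf (nat_lit 284) (nat_lit 14133785613000869889)) (.cons (.kr (nat_lit 309485028268090241945960448) (nat_lit 158456325028528956662064611328) (nat_lit 5) (nat_lit 0)) .nil)))) .nil))))) (.cons (.br (nat_lit 4) (nat_lit 0) (.cons (.br (nat_lit 12) (nat_lit 0) (.cons (.ev (nat_lit 79228162514336395191876911104) (nat_lit 1)) (.cons (.ev (nat_lit 79537647542604484334311244033) (nat_lit 1)) .nil))) (.cons (.rf (nat_lit 287) (nat_lit 445092485094541344)) (.cons (.br (nat_lit 9) (nat_lit 0) (.cons (.rf (nat_lit 286) (nat_lit 441714885235148801)) (.cons (.ev (nat_lit 1213666632842672057942273) (nat_lit 1)) (.cons (.rf (nat_lit 288) (nat_lit 445092485094541344)) .nil)))) (.cons (.br (nat_lit 7) (nat_lit 0) (.cons (.rf (nat_lit 11) (nat_lit 11317478000672)) (.cons (.br (nat_lit 9) (nat_lit 0) (.cons (.ev (nat_lit 1213666632842672057942016) (nat_lit 1)) .nil)) .nil))) .nil))))) .nil))))),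
 (.br (nat_lit 7) (nat_lit 0) (.cons (.br (nat_lit 10) (nat_lit 0) (.cons (.kr (nat_lit 309485009821345068724781056) (nat_lit 79228162514264337593543950336) (nat_lit 11) (nat_lit 0)) .nil)) .nil)),
 (.br (nat_lit 9) (nat_lit 0) (.cons (.br (nat_lit 7) (nat_lit 0) (.cons (.rf (nat_lit 290) (nat_lit 14242959524133701664)) (.cons (.br (nat_lit 7) (nat_lit 0) (.cons (.rf (nat_lit 290) (nat_lit 14242959524133701664)) .nil)) .nil))) (.cons (.ev (nat_lit 4722366483973451809024) (nat_lit 1)) (.cons (.ev (nat_lit 4722366764348916891649) (nat_lit 1)) (.cons (.br (nat_lit 12) (nat_lit 0) (.cons (.rf (nat_lit 124) (nat_lit 150568273921)) (.cons (.kr (nat_lit 158456325028528956662064611330) (nat_lit 309485028268090241945960960) (nat_lit 0) (nat_lit 2)) (.cons (.kr (nat_lit 158456325028528676286599528448) (nat_lit 309485028268370617411043328) (nat_lit 5) (nat_lit 0)) .nil)))) .nil))))),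
 (.br (nat_lit 9) (nat_lit 0) (.cons (.rf (nat_lit 11) (nat_lit 13545559394336)) (.cons (.br (nat_lit 10) (nat_lit 0) (.cons (.zr (nat_lit 79228171959141418520943919106) (nat_lit 3626777458844999920648960) (nat_lit 5) (nat_lit 1)) .nil)) .nil))),
 (.br (nat_lit 7) (nat_lit 0) (.cons (.rf (nat_lit 11) (nat_lit 13445701404704)) (.cons (.br (nat_lit 9) (nat_lit 0) (.cons (.zr (nat_lit 158456325028528680684646301952) (nat_lit 1213648258718047123013635) (nat_lit 10) (nat_lit 7)) .nil)) .nil))),
 (.br (nat_lit 7) (nat_lit 0) (.cons (.rf (nat_lit 11) (nat_lit 10148206708768)) (.cons (.br (nat_lit 8) (nat_lit 0) (.cons (.ev (nat_lit 4722438540463699919104) (nat_lit 1)) .nil)) .nil))),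
 (.br (nat_lit 2) (nat_lit 0) (.cons (.rf (nat_lit 291) (nat_lit 14242959524133701664)) (.cons (.rf (nat_lit 291) (nat_lit 14239406004597000193)) (.cons (.br (nat_lit 4) (nat_lit 0) (.cons (.rf (nat_lit 292) (nat_lit 14242959524133701664)) (.cons (.br (nat_lit 7) (nat_lit 0) (.cons (.rf (nat_lit 137) (nat_lit 11317476984864)) (.cons (.br (nat_lit 10) (nat_lit 0) (.cons (.ev (nat_lit 311931251144101554509053952) (nat_lit 3)) .nil)) .nil))) (.cons (.rf (nat_lit 293) (nat_lit 14242959524133701664)) (.cons (.br (nat_lit 9) (nat_lit 0) (.cons (.rf (nat_lit 293) (nat_lit 14239406004597000193)) (.cons (.rf (nat_lit 292) (nat_lit 14239406004597000193)) (.cons (.kr (nat_lit 18446744073709551616) (nat_lit 79228162514264337593543950336) (nat_lit 8) (nat_lit 0)) .nil)))) .nil))))) (.cons (.br (nat_lit 4) (nat_lit 0) (.cons (.br (nat_lit 9) (nat_lit 0) (.cons (.br (nat_lit 10) (nat_lit 0) (.cons (.ev (nat_lit 79228167255077565640705310721) (nat_lit 1)) .nil)) (.cons (.rf (nat_lit 11) (nat_lit 11415255615520))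 .nil))) (.cons (.br (nat_lit 12) (nat_lit 0) (.cons (.ev (nat_lit 79537652246452447011185623296) (nat_lit 1)) (.cons (.ev (nat_lit 79537652246452166635720540161) (nat_lit 1)) .nil))) (.cons (.br (nat_lit 7) (nat_lit 0) (.cons (.br (nat_lit 10) (nat_lit 0) (.cons (.ev (nat_lit 79228167255077565640705310721) (nat_lit 1)) .nil)) (.cons (.ev (nat_lit 1208925891672223229411329) (nat_lit 1)) (.cons (.br (nat_lit 9) (nat_lit 0) (.cons (.ev (nat_lit 79228167255077565640705310721) (nat_lit 1)) .nil)) .nil)))) (.cons (.rf (nat_lit 294) (nat_lit 445092449661061152)) .nil))))) .nil))))),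
 (.br (nat_lit 7) (nat_lit 0) (.cons (.br (nat_lit 9) (nat_lit 0) (.cons (.ev (nat_lit 79231798736456994948135322115) (nat_lit 2)) .nil)) .nil)),
 (.br (nat_lit 2) (nat_lit 0) (.cons (.br (nat_lit 7) (nat_lit 0) (.cons (.br (nat_lit 9) (nat_lit 0) (.cons (.br (nat_lit 10) (nat_lit 0) (.cons (.ev (nat_lit 79228167255077565640705310721) (nat_lit 1)) .nil)) (.cons (.rf (nat_lit 5) (nat_lit 11312277063712)) .nil))) (.cons (.br (nat_lit 10) (nat_lit 0) (.cons (.br (nat_lit 9) (nat_lit 0) (.cons (.ev (nat_lit 79537652246452166635720540416) (nat_lit 1)) .nil)) (.cons (.ev (nat_lit 1208925891672223229411584) (nat_lit 1)) .nil))) (.cons (.rf (nat_lit 124) (nat_lit 145269819393)) .nil)))) (.cons (.br (nat_lit 9) (nat_lit 0) (.cons (.br (nat_lit 7) (nat_lit 0) (.cons (.br (nat_lit 10) (nat_lit 0) (.cons (.ev (nat_lit 1213666633123047523024896) (nat_lit 1)) .nil)) (.cons (.ev (nat_lit 79228162514336395191876911104) (nat_lit 1)) .nil))) (.cons (.br (nat_lit 10) (nat_lit 0) (.cons (.ev (nat_lit 1213666632842672057942273)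 (nat_lit 1)) (.cons (.rf (nat_lit 5) (nat_lit 8050249402400)) .nil))) (.cons (.rf (nat_lit 124) (nat_lit 147350194177)) .nil)))) (.cons (.br (nat_lit 10) (nat_lit 0) (.cons (.br (nat_lit 7) (nat_lit 0) (.cons (.br (nat_lit 9) (nat_lit 0) (.cons (.ev (nat_lit 314349065891533688519393282) (nat_lit 3)) .nil)) (.cons (.ev (nat_lit 1208925891672223229411584) (nat_lit 1)) .nil))) (.cons (.br (nat_lit 9) (nat_lit 0) (.cons (.br (nat_lit 7) (nat_lit 0) (.cons (.ev (nat_lit 314349065890412186659062790) (nat_lit 3)) .nil)) (.cons (.ev (nat_lit 1213666633123047523024896) (nat_lit 1)) .nil))) (.cons (.rf (nat_lit 124) (nat_lit 148423936001)) .nil)))) (.cons (.br (nat_lit 7) (nat_lit 0) (.cons (.rf (nat_lit 296) (nat_lit 14242959524133701664)) (.cons (.br (nat_lit 7) (nat_lit 0) (.cons (.rf (nat_lit 296) (nat_lit 14242959524133701664)) .nil)) .nil))) .nil))))),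
 (.br (nat_lit 4) (nat_lit 0) (.cons (.ev (nat_lit 1208925819896108446449664) (nat_lit 1)) (.cons (.rf (nat_lit 288) (nat_lit 226701888236652576)) .nil))),
 (.br (nat_lit 9) (nat_lit 0) (.cons (.ev (nat_lit 309485009821626547996524801) (nat_lit 1)) .nil)),
 (.br (nat_lit 2) (nat_lit 0) (.cons (.rf (nat_lit 297) (nat_lit 14242959524133701664)) (.cons (.br (nat_lit 9) (nat_lit 0) (.cons (.rf (nat_lit 294) (nat_lit 337009357139052576)) (.cons (.rf (nat_lit 298) (nat_lit 13908005145905184)) (.cons (.br (nat_lit 10) (nat_lit 0) (.cons (.ev (nat_lit 1213666632842672057942273) (nat_lit 1)) (.cons (.br (nat_lit 4) (nat_lit 0) (.cons (.ev (nat_lit 158773082611862263105497203718) (nat_lit 3)) .nil)) (.cons (.ev (nat_lit 1213666632842672057942016) (nat_lit 1)) .nil)))) (.cons (.rf (nat_lit 294) (nat_lit 337000561054418945)) .nil))))) (.cons (.br (nat_lit 7) (nat_lit 0) (.cons (.br (nat_lit 12) (nat_lit 0) (.cons (.ev (nat_lit 79228162514336677766365249793) (nat_lit 1)) (.cons (.rf (nat_lit 11)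 (nat_lit 10247125174304)) .nil))) (.cons (.br (nat_lit 9) (nat_lit 0) (.cons (.rf (nat_lit 299) (nat_lit 445092485094541344)) (.cons (.ev (nat_lit 1213666633123047523025153) (nat_lit 1)) (.cons (.rf (nat_lit 299) (nat_lit 150106709711489025)) .nil)))) (.cons (.rf (nat_lit 298) (nat_lit 13909104657532960)) (.cons (.br (nat_lit 4) (nat_lit 0) (.cons (.ev (nat_lit 79228162514336677766365249536) (nat_lit 1)) (.cons (.rf (nat_lit 11) (nat_lit 10147267184672)) .nil))) .nil))))) (.cons (.br (nat_lit 4) (nat_lit 0) (.cons (.rf (nat_lit 124) (nat_lit 420139337760)) (.cons (.br (nat_lit 9) (nat_lit 0) (.cons (.rf (nat_lit 5) (nat_lit 11312017016833)) (.cons (.ev (nat_lit 79537652246452166635720540161) (nat_lit 1)) .nil))) (.cons (.br (nat_lit 7) (nat_lit 0) (.cons (.br (nat_lit 9) (nat_lit 0) (.cons (.ev (nat_lit 79228167255077565640705310721) (nat_lit 1)) .nil)) (.cons (.ev (nat_lit 1208925891672223229411329) (nat_lit 1)) .nil))) .nil)))) .nil))))),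
 (.br (nat_lit 2) (nat_lit 0) (.cons (.rf (nat_lit 297) (nat_lit 14242959524133701664)) (.cons (.rf (nat_lit 300) (nat_lit 14242959524133701664)) (.cons (.br (nat_lit 9) (nat_lit 0) (.cons (.rf (nat_lit 294) (nat_lit 336903906061813792)) (.cons (.br (nat_lit 4) (nat_lit 0) (.cons (.br (nat_lit 10) (nat_lit 0) (.cons (.ev (nat_lit 1208925891954797717750016) (nat_lit 1)) .nil)) (.cons (.br (nat_lit 7) (nat_lit 0) (.cons (.ev (nat_lit 1208925891954797717750016) (nat_lit 1)) .nil)) (.cons (.ev (nat_lit 79537652246452447011185623296) (nat_lit 1)) .nil)))) (.cons (.br (nat_lit 4) (nat_lit 0) (.cons (.br (nat_lit 7) (nat_lit 0) (.cons (.ev (nat_lit 1208925891954797717750016) (nat_lit 1)) .nil)) (.cons (.rf (nat_lit 137) (nat_lit 11415254599712)) .nil))) (.cons (.rf (nat_lit 294) (nat_lit 336895109977180161)) .nil))))) (.cons (.rf (nat_lit 300) (nat_lit 3647148388582293538)) .nil))))),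
 (.br (nat_lit 7) (nat_lit 0) (.cons (.br (nat_lit 9) (nat_lit 0) (.cons (.ev (nat_lit 314349065890412186659062790) (nat_lit 3)) .nil)) (.cons (.ev (nat_lit 1208925891672223229411329) (nat_lit 1)) .nil))),
 (.br (nat_lit 2) (nat_lit 0) (.cons (.rf (nat_lit 297) (nat_lit 14242959524133701664)) (.cons (.rf (nat_lit 300) (nat_lit 14242959524133701664)) (.cons (.rf (nat_lit 301) (nat_lit 14242959524133701664)) (.cons (.br (nat_lit 4) (nat_lit 0) (.cons (.rf (nat_lit 302) (nat_lit 14242959524133701664)) (.cons (.br (nat_lit 10) (nat_lit 0) (.cons (.rf (nat_lit 302) (nat_lit 3643735604449378338)) (.cons (.ev (nat_lit 1213666633123047523024896) (nat_lit 1)) .nil))) (.cons (.rf (nat_lit 124) (nat_lit 423293454368)) .nil)))) .nil))))),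
 (.br (nat_lit 1) (nat_lit 0) (.cons (.kr (nat_lit 1) (nat_lit 256) (nat_lit 0) (nat_lit 2)) (.cons (.br (nat_lit 2) (nat_lit 0) (.cons (.rf (nat_lit 283) (nat_lit 14242959524133701664)) (.cons (.rf (nat_lit 283) (nat_lit 14133785613000869889)) (.cons (.rf (nat_lit 289) (nat_lit 14242959524133701664)) (.cons (.rf (nat_lit 289) (nat_lit 14133785613000869889)) (.cons (.br (nat_lit 2) (nat_lit 0) (.cons (.rf (nat_lit 283) (nat_lit 14242959524133701664)) (.cons (.rf (nat_lit 283) (nat_lit 14133785613000869889)) (.cons (.rf (nat_lit 289) (nat_lit 14242959524133701664)) (.cons (.rf (nat_lit 289) (nat_lit 14133785613000869889)) .nil))))) .nil)))))) (.cons (.br (nat_lit 2) (nat_lit 0) (.cons (.rf (nat_lit 291) (nat_lit 14242959524133701664)) (.cons (.rf (nat_lit 295) (nat_lit 14242959524133701664)) (.cons (.rf (nat_lit 291) (nat_lit 14239406004597000193)) (.cons (.rf (nat_lit 295) (nat_lit 14239406004597000193)) (.cons (.br (nat_lit 2) (nat_lit 0) (.cons (.rf (nat_lit 291) (nat_lit 14242959524133701664))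 (.cons (.rf (nat_lit 295) (nat_lit 14242959524133701664)) (.cons (.rf (nat_lit 291) (nat_lit 14239406004597000193)) (.cons (.rf (nat_lit 295) (nat_lit 14239406004597000193)) .nil))))) .nil)))))) (.cons (.kr (nat_lit 309485009821626543701491714) (nat_lit 18446745173221179904) (nat_lit 0) (nat_lit 2)) (.cons (.br (nat_lit 2) (nat_lit 0) (.cons (.rf (nat_lit 297) (nat_lit 14242959524133701664)) (.cons (.rf (nat_lit 300) (nat_lit 14242959524133701664)) (.cons (.rf (nat_lit 301) (nat_lit 14242959524133701664)) (.cons (.rf (nat_lit 303) (nat_lit 14242959524133701664)) (.cons (.br (nat_lit 2) (nat_lit 0) (.cons (.rf (nat_lit 297) (nat_lit 14242959524133701664)) (.cons (.rf (nat_lit 300) (nat_lit 14242959524133701664)) (.cons (.rf (nat_lit 300) (nat_lit 3647148388582293538)) (.cons (.rf (nat_lit 303) (nat_lit 14242959524133701664)) .nil))))) .nil)))))) .nil)))))),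
 (.br (nat_lit 2) (nat_lit 0) (.cons (.rf (nat_lit 304) (nat_lit 14242959524133700672)) (.cons (.br (nat_lit 9) (nat_lit 0) (.cons (.ev (nat_lit 4722366483973451874304) (nat_lit 1)) (.cons (.ev (nat_lit 4722366764348916891649) (nat_lit 1)) (.cons (.br (nat_lit 12) (nat_lit 0) (.cons (.kr (nat_lit 309485028268090241946091522) (nat_lit 158456325028528956662064612352) (nat_lit 0) (nat_lit 3)) (.cons (.kr (nat_lit 158456325028528676286599528448) (nat_lit 309485028268370617411043328) (nat_lit 5) (nat_lit 0)) .nil))) .nil)))) (.cons (.kr (nat_lit 309485009821626543701492224) (nat_lit 18446745173221310464) (nat_lit 1) (nat_lit 0)) (.cons (.br (nat_lit 3) (nat_lit 0) (.cons (.br (nat_lit 9) (nat_lit 0) (.cons (.br (nat_lit 10) (nat_lit 0) (.cons (.ev (nat_lit 79228167255077565640705310976) (nat_lit 1)) .nil)) (.cons (.rf (nat_lit 5) (nat_lit 11317346961409)) .nil))) (.cons (.br (nat_lit 10) (nat_lit 0) (.cons (.br (nat_lit 9) (nat_lit 0) (.cons (.ev (nat_lit 79537652246452166635720605953) (nat_lit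 1)) .nil)) (.cons (.ev (nat_lit 1208925891672223229476864) (nat_lit 1)) .nil))) (.cons (.rf (nat_lit 124) (nat_lit 253708339232)) .nil)))) .nil))))),
 (.br (nat_lit 2) (nat_lit 0) (.cons (.rf (nat_lit 304) (nat_lit 14242959524133700672)) (.cons (.rf (nat_lit 305) (nat_lit 14242959524133701664)) (.cons (.kr (nat_lit 281474976710912) (nat_lit 1099511693312) (nat_lit 1) (nat_lit 0)) (.cons (.br (nat_lit 9) (nat_lit 0) (.cons (.br (nat_lit 7) (nat_lit 0) (.cons (.br (nat_lit 10) (nat_lit 0) (.cons (.ev (nat_lit 79538856449977354885498208513) (nat_lit 1)) .nil)) (.cons (.rf (nat_lit 11) (nat_lit 11417334974496)) .nil))) (.cons (.br (nat_lit 3) (nat_lit 0) (.cons (.br (nat_lit 10) (nat_lit 0) (.cons (.ev (nat_lit 79538856449977354885498208256) (nat_lit 1)) .nil)) (.cons (.rf (nat_lit 11) (nat_lit 11317476984864)) .nil))) (.cons (.ev (nat_lit 4722366764348916891649) (nat_lit 1)) (.cons (.ev (nat_lit 4722366483973451874561) (nat_lit 1)) .nil))))) .nil))))),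
 (.br (nat_lit 2) (nat_lit 0) (.cons (.kr (nat_lit 309485009821626543701491714) (nat_lit 18446745173221310464) (nat_lit 0) (nat_lit 1)) (.cons (.kr (nat_lit 309485009821626543701492224) (nat_lit 18446745173221310464) (nat_lit 1) (nat_lit 0)) (.cons (.kr (nat_lit 281474976710912) (nat_lit 1099511693312) (nat_lit 1) (nat_lit 0)) (.cons (.br (nat_lit 12) (nat_lit 0) (.cons (.br (nat_lit 7) (nat_lit 0) (.cons (.rf (nat_lit 286) (nat_lit 373002936498915360)) (.cons (.rf (nat_lit 11) (nat_lit 10252325095456)) .nil))) (.cons (.rf (nat_lit 287) (nat_lit 367373604472621057)) (.cons (.br (nat_lit 9) (nat_lit 0) (.cons (.ev (nat_lit 79537652246452166635720605696) (nat_lit 1)) (.cons (.ev (nat_lit 79537652246452166635720605953) (nat_lit 1)) (.cons (.br (nat_lit 3) (nat_lit 0) (.cons (.ev (nat_lit 1208925891954797717750016) (nat_lit 1)) .nil)) .nil)))) (.cons (.rf (nat_lit 298) (nat_lit 8281704321124384)) .nil))))) .nil))))),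
 (.br (nat_lit 2) (nat_lit 0) (.cons (.rf (nat_lit 304) (nat_lit 14242959524133700672)) (.cons (.rf (nat_lit 305) (nat_lit 14242959524133701664)) (.cons (.rf (nat_lit 306) (nat_lit 14242959524133701664)) (.cons (.rf (nat_lit 307) (nat_lit 14242959524133701664)) (.cons (.br (nat_lit 2) (nat_lit 0) (.cons (.rf (nat_lit 304) (nat_lit 14242959524133700672)) (.cons (.rf (nat_lit 305) (nat_lit 14242959524133701664)) (.cons (.rf (nat_lit 306) (nat_lit 14242959524133701664)) (.cons (.rf (nat_lit 307) (nat_lit 14242959524133701664)) .nil))))) .nil)))))),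
 (.br (nat_lit 2) (nat_lit 0) (.cons (.rf (nat_lit 304) (nat_lit 14242959524133700672)) (.cons (.br (nat_lit 7) (nat_lit 0) (.cons (.rf (nat_lit 124) (nat_lit 317092661280)) (.cons (.br (nat_lit 3) (nat_lit 0) (.cons (.rf (nat_lit 5) (nat_lit 13545363343361)) (.cons (.br (nat_lit 10) (nat_lit 0) (.cons (.zr (nat_lit 928464474341117233085809920) (nat_lit 3626814352894997781741569) (nat_lit 5) (nat_lit 2)) .nil)) .nil))) (.cons (.ev (nat_lit 18518801672042512384) (nat_lit 1)) .nil)))) (.cons (.kr (nat_lit 309485009821345068724781312) (nat_lit 18446744073709617152) (nat_lit 1) (nat_lit 0)) (.cons (.br (nat_lit 7) (nat_lit 0) (.cons (.ev (nat_lit 18518801672042512641) (nat_lit 1)) (.cons (.ev (nat_lit 18518801672042512384) (nat_lit 1)) (.cons (.br (nat_lit 3) (nat_lit 0) (.cons (.br (nat_lit 10) (nat_lit 0) (.cons (.ev (nat_lit 79538861190718805709791690753) (nat_lit 1)) .nil)) (.cons (.br (nat_lit 9) (nat_lit 0) (.cons (.ev (nat_lit 79538861190718805709791690753) (nat_lit 1)) .nil)) (.cons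 (.br (nat_lit 9) (nat_lit 0) (.cons (.ev (nat_lit 79538861190718805709791690753) (nat_lit 1)) .nil)) .nil)))) (.cons (.br (nat_lit 3) (nat_lit 0) (.cons (.rf (nat_lit 137) (nat_lit 13514353772576)) (.cons (.br (nat_lit 9) (nat_lit 0) (.cons (.ev (nat_lit 79538861190718525334326673665) (nat_lit 1)) .nil)) .nil))) .nil))))) .nil))))),
 (.br (nat_lit 2) (nat_lit 0) (.cons (.kr (nat_lit 309485009821626543701491714) (nat_lit 18446745173221310464) (nat_lit 0) (nat_lit 1)) (.cons (.kr (nat_lit 309485009821345068724781312) (nat_lit 18446744073709617152) (nat_lit 1) (nat_lit 0)) (.cons (.kr (nat_lit 309485009821626543701492224) (nat_lit 18446745173221310464) (nat_lit 1) (nat_lit 0)) (.cons (.br (nat_lit 10) (nat_lit 0) (.cons (.rf (nat_lit 294) (nat_lit 372929473331464224)) (.cons (.br (nat_lit 3) (nat_lit 0) (.cons (.br (nat_lit 9) (nat_lit 0) (.cons (.ev (nat_lit 1213666633123047522959616) (nat_lit 1)) .nil)) (.cons (.ev (nat_lit 1213666632842672057942273) (nat_lit 1)) (.cons (.br (nat_lit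 7) (nat_lit 0) (.cons (.ev (nat_lit 1213666633123047522959616) (nat_lit 1)) .nil)) .nil)))) (.cons (.rf (nat_lit 294) (nat_lit 372922876267988993)) (.cons (.br (nat_lit 3) (nat_lit 0) (.cons (.br (nat_lit 7) (nat_lit 0) (.cons (.ev (nat_lit 1213666633123047522959616) (nat_lit 1)) .nil)) (.cons (.ev (nat_lit 1213666633123047522959361) (nat_lit 1)) .nil))) .nil))))) .nil)))))]

theorem c8 : chkAll C T R L8 (nat_lit 287) = true := by decide +kernel

theorem l8 : (nat_lit 287) + L8.length = (nat_lit 311) := by decide +kernel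

/-- part of the certificates -/
def L9 : List Prf := [(.br (nat_lit 2) (nat_lit 0) (.cons (.rf (nat_lit 304) (nat_lit 14242959524133700672)) (.cons (.br (nat_lit 9) (nat_lit 0) (.cons (.ev (nat_lit 4722366483973451874304) (nat_lit 1)) (.cons (.ev (nat_lit 9444733248322368766722) (nat_lit 2)) (.cons (.ev (nat_lit 4722366483973451874561) (nat_lit 1)) (.cons (.br (nat_lit 12) (nat_lit 0) (.cons (.kr (nat_lit 309485028268370617411043330) (nat_lit 158456325028528676286599528960) (nat_lit 0) (nat_lit 2)) (.cons (.ev (nat_lit 18518801672042512384) (nat_lit 1)) (.cons (.kr (nat_lit 158456325028528676286599528448) (nat_lit 309485028268370617411043328) (nat_lit 5) (nat_lit 0)) .nil)))) .nil))))) (.cons (.br (nat_lit 7) (nat_lit 0) (.cons (.rf (nat_lit 124) (nat_lit 351418845216)) (.cons (.br (nat_lit 3) (nat_lit 0) (.cons (.rf (nat_lit 5) (nat_lit 13511004653569)) (.cons (.br (nat_lit 9) (nat_lit 0) (.cons (.zr (nat_lit 129127218411571513856) (nat_lit 930882325981189825443790852) (nat_lit 20)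 (nat_lit 4)) .nil)) .nil))) (.cons (.ev (nat_lit 18519084246530785536) (nat_lit 1)) .nil)))) (.cons (.br (nat_lit 7) (nat_lit 0) (.cons (.br (nat_lit 10) (nat_lit 0) (.cons (.br (nat_lit 9) (nat_lit 0) (.cons (.zr (nat_lit 311902861460856910152597506) (nat_lit 4759332028611152577280) (nat_lit 5) (nat_lit 1)) .nil)) (.cons (.rf (nat_lit 11) (nat_lit 10315776526368)) .nil))) (.cons (.ev (nat_lit 18518801672042512384) (nat_lit 1)) (.cons (.br (nat_lit 3) (nat_lit 0) (.cons (.br (nat_lit 9) (nat_lit 0) (.cons (.zr (nat_lit 4835721727172932425482244) (nat_lit 928464474341119432176174592) (nat_lit 10) (nat_lit 1)) .nil)) (.cons (.rf (nat_lit 11) (nat_lit 10149346543648)) .nil))) (.cons (.ev (nat_lit 18519084246530785536) (nat_lit 1)) .nil))))) .nil))))),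
 (.br (nat_lit 2) (nat_lit 0) (.cons (.rf (nat_lit 304) (nat_lit 14242959524133700672)) (.cons (.rf (nat_lit 311) (nat_lit 14242959524133701664)) (.cons (.br (nat_lit 9) (nat_lit 0) (.cons (.ev (nat_lit 4722366764348916891904) (nat_lit 1)) (.cons (.ev (nat_lit 4722366483973451874561) (nat_lit 1)) (.cons (.br (nat_lit 12) (nat_lit 0) (.cons (.kr (nat_lit 309485028268370617411043330) (nat_lit 158456325028528676286599528960) (nat_lit 0) (nat_lit 2)) (.cons (.kr (nat_lit 158456325028528956662064611840) (nat_lit 309485028268090241946091520) (nat_lit 1) (nat_lit 0)) .nil))) .nil)))) (.cons (.br (nat_lit 9) (nat_lit 0) (.cons (.ev (nat_lit 4722366764348916891904) (nat_lit 1)) (.cons (.br (nat_lit 7) (nat_lit 0) (.cons (.br (nat_lit 10) (nat_lit 0) (.cons (.ev (nat_lit 1109503807710033024126336241160) (nat_lit 4)) .nil)) (.cons (.br (nat_lit 3) (nat_lit 0) (.cons (.ev (nat_lit 1109503807710033024126336240140) (nat_lit 4)) .nil)) (.cons (.ev (nat_lit 475678488558877874143570691590) (nat_lit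 3)) .nil)))) (.cons (.ev (nat_lit 4722366764348916891649) (nat_lit 1)) (.cons (.br (nat_lit 3) (nat_lit 0) (.cons (.br (nat_lit 7) (nat_lit 0) (.cons (.zr (nat_lit 311902861460856910152597506) (nat_lit 4759332028611152577280) (nat_lit 5) (nat_lit 1)) .nil)) (.cons (.rf (nat_lit 137) (nat_lit 13545559394336)) .nil))) .nil))))) .nil))))),
 (.br (nat_lit 7) (nat_lit 0) (.cons (.br (nat_lit 9) (nat_lit 0) (.cons (.ev (nat_lit 314349065891533688519263232) (nat_lit 3)) .nil)) (.cons (.ev (nat_lit 1208925891672223229476864) (nat_lit 1)) .nil))),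
 (.br (nat_lit 2) (nat_lit 0) (.cons (.kr (nat_lit 309485009821626543701491714) (nat_lit 18446745173221310464) (nat_lit 0) (nat_lit 1)) (.cons (.rf (nat_lit 311) (nat_lit 14242959524133701664)) (.cons (.rf (nat_lit 312) (nat_lit 14242959524133701664)) (.cons (.br (nat_lit 3) (nat_lit 0) (.cons (.rf (nat_lit 313) (nat_lit 14242959524133701664)) (.cons (.br (nat_lit 12) (nat_lit 0) (.cons (.rf (nat_lit 313) (nat_lit 3643735604449378338)) (.cons (.ev (nat_lit 1213666633123047522959361) (nat_lit 1)) .nil))) (.cons (.rf (nat_lit 124) (nat_lit 356720445472)) .nil)))) .nil))))),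
 (.br (nat_lit 2) (nat_lit 0) (.cons (.rf (nat_lit 304) (nat_lit 14242959524133700672)) (.cons (.br (nat_lit 7) (nat_lit 0) (.cons (.ev (nat_lit 18518801672042512641) (nat_lit 1)) (.cons (.br (nat_lit 3) (nat_lit 0) (.cons (.br (nat_lit 10) (nat_lit 0) (.cons (.zr (nat_lit 309503899575788398434059268) (nat_lit 2417906979464786603278336) (nat_lit 10) (nat_lit 2)) .nil)) (.cons (.rf (nat_lit 137) (nat_lit 10318898104352)) .nil))) (.cons (.ev (nat_lit 18519084246530785536) (nat_lit 1)) (.cons (.ev (nat_lit 18518801672042512384) (nat_lit 1)) .nil))))) (.cons (.br (nat_lit 7) (nat_lit 0) (.cons (.br (nat_lit 10) (nat_lit 0) (.cons (.br (nat_lit 9) (nat_lit 0) (.cons (.ev (nat_lit 79538861190718525334326673408) (nat_lit 1)) .nil)) (.cons (.rf (nat_lit 11) (nat_lit 10247124158496)) .nil))) (.cons (.br (nat_lit 3) (nat_lit 0) (.cons (.br (nat_lit 10) (nat_lit 0) (.cons (.ev (nat_lit 79538861190718805709791690753) (nat_lit 1)) .nil)) (.cons (.br (nat_lit 9) (nat_lit 0) (.cons (.ev (nat_lit 79538861190718805709791690753)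 (nat_lit 1)) .nil)) (.cons (.br (nat_lit 9) (nat_lit 0) (.cons (.ev (nat_lit 79538861190718805709791690753) (nat_lit 1)) .nil)) .nil)))) (.cons (.ev (nat_lit 18519084246530785536) (nat_lit 1)) (.cons (.br (nat_lit 3) (nat_lit 0) (.cons (.br (nat_lit 9) (nat_lit 0) (.cons (.ev (nat_lit 79538861190718525334326673665) (nat_lit 1)) .nil)) (.cons (.rf (nat_lit 11) (nat_lit 10147266168864)) .nil))) .nil))))) (.cons (.rf (nat_lit 304) (nat_lit 3686448404487340097)) .nil))))),
 (.br (nat_lit 1) (nat_lit 0) (.cons (.kr (nat_lit 1) (nat_lit 256) (nat_lit 0) (nat_lit 2)) (.cons (.rf (nat_lit 308) (nat_lit 14242959524133701664)) (.cons (.br (nat_lit 2) (nat_lit 0) (.cons (.rf (nat_lit 304) (nat_lit 14242959524133700672)) (.cons (.rf (nat_lit 309) (nat_lit 14242959524133701664)) (.cons (.br (nat_lit 2) (nat_lit 0) (.cons (.rf (nat_lit 304) (nat_lit 14242959524133700672)) (.cons (.rf (nat_lit 309) (nat_lit 14242959524133701664)) (.cons (.kr (nat_lit 309485009821626543701492224) (nat_lit 18446745173221310464)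 (nat_lit 1) (nat_lit 0)) (.cons (.rf (nat_lit 308) (nat_lit 3647148388582293538)) .nil))))) (.cons (.rf (nat_lit 310) (nat_lit 14242959524133701664)) (.cons (.br (nat_lit 2) (nat_lit 0) (.cons (.rf (nat_lit 304) (nat_lit 14242959524133700672)) (.cons (.rf (nat_lit 309) (nat_lit 14242959524133701664)) (.cons (.rf (nat_lit 308) (nat_lit 3647148388582293538)) (.cons (.rf (nat_lit 310) (nat_lit 14242959524133701664)) .nil))))) .nil)))))) (.cons (.br (nat_lit 2) (nat_lit 0) (.cons (.rf (nat_lit 304) (nat_lit 14242959524133700672)) (.cons (.rf (nat_lit 311) (nat_lit 14242959524133701664)) (.cons (.rf (nat_lit 312) (nat_lit 14242959524133701664)) (.cons (.rf (nat_lit 314) (nat_lit 14242959524133701664)) (.cons (.br (nat_lit 2) (nat_lit 0) (.cons (.rf (nat_lit 304) (nat_lit 14242959524133700672)) (.cons (.rf (nat_lit 311) (nat_lit 14242959524133701664)) (.cons (.rf (nat_lit 312) (nat_lit 14242959524133701664)) (.cons (.rf (nat_lit 314) (nat_lit 14242959524133701664)) .nil))))) .nil)))))) (.cons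 (.br (nat_lit 2) (nat_lit 0) (.cons (.rf (nat_lit 304) (nat_lit 14242959524133700672)) (.cons (.rf (nat_lit 315) (nat_lit 14242959524133701664)) (.cons (.rf (nat_lit 315) (nat_lit 3686448404487342081)) (.cons (.br (nat_lit 2) (nat_lit 0) (.cons (.kr (nat_lit 309485009821626543701491714) (nat_lit 18446745173221310464) (nat_lit 0) (nat_lit 1)) (.cons (.rf (nat_lit 315) (nat_lit 14242959524133701664)) (.cons (.rf (nat_lit 315) (nat_lit 3686448404487342081)) (.cons (.kr (nat_lit 309485009821626543701492224) (nat_lit 18446745173221310464) (nat_lit 1) (nat_lit 0)) .nil))))) (.cons (.rf (nat_lit 304) (nat_lit 3686448404487340097)) .nil)))))) .nil)))))),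
 (.br (nat_lit 2) (nat_lit 0) (.cons (.rf (nat_lit 304) (nat_lit 14242959524133700672)) (.cons (.rf (nat_lit 316) (nat_lit 14242959524133700672)) (.cons (.kr (nat_lit 256) (nat_lit 65536) (nat_lit 1) (nat_lit 0)) (.cons (.br (nat_lit 3) (nat_lit 0) (.cons (.br (nat_lit 9) (nat_lit 0) (.cons (.rf (nat_lit 137) (nat_lit 4754637094977)) (.cons (.br (nat_lit 10) (nat_lit 0) (.cons (.zr (nat_lit 309503918022532472210980868) (nat_lit 7253554917691099352925696) (nat_lit 10) (nat_lit 1)) .nil)) .nil))) (.cons (.rf (nat_lit 294) (nat_lit 117526947320528961)) (.cons (.rf (nat_lit 294) (nat_lit 117525847809949730)) (.cons (.br (nat_lit 12) (nat_lit 0) (.cons (.ev (nat_lit 18518801672042447104) (nat_lit 1)) (.cons (.kr (nat_lit 928455029464316681151054338) (nat_lit 158456325046975420360309342208) (nat_lit 0) (nat_lit 3)) (.cons (.kr (nat_lit 928455029464316681151053826) (nat_lit 158456325046975420360309211136) (nat_lit 0) (nat_lit 1)) .nil)))) .nil))))) (.cons (.rf (nat_lit 316) (nat_lit 3685216982706552866))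 .nil)))))),
 (.br (nat_lit 2) (nat_lit 0) (.cons (.rf (nat_lit 304) (nat_lit 14242959524133700672)) (.cons (.rf (nat_lit 316) (nat_lit 14242959524133700672)) (.cons (.kr (nat_lit 256) (nat_lit 65536) (nat_lit 1) (nat_lit 0)) (.cons (.br (nat_lit 4) (nat_lit 0) (.cons (.ev (nat_lit 4722366483973451809024) (nat_lit 1)) (.cons (.ev (nat_lit 4722366764348916957441) (nat_lit 1)) (.cons (.ev (nat_lit 4722366764348916891649) (nat_lit 1)) (.cons (.br (nat_lit 12) (nat_lit 0) (.cons (.kr (nat_lit 309485028268370617411043330) (nat_lit 158456325028528676286599659520) (nat_lit 0) (nat_lit 1)) (.cons (.kr (nat_lit 309485028268090241945960448) (nat_lit 158456325028528956662064611328) (nat_lit 5) (nat_lit 0)) (.cons (.kr (nat_lit 158456325028528956662064611840) (nat_lit 309485028268090241946091520) (nat_lit 1) (nat_lit 0)) .nil)))) .nil))))) (.cons (.rf (nat_lit 316) (nat_lit 3647148388582293538)) .nil)))))),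
 (.br (nat_lit 10) (nat_lit 0) (.cons (.ev (nat_lit 1208925891954797717750016) (nat_lit 1)) (.cons (.br (nat_lit 4) (nat_lit 0) (.cons (.ev (nat_lit 158768246834796828311207281158) (nat_lit 3)) .nil)) (.cons (.ev (nat_lit 1208925891672223229476864) (nat_lit 1)) .nil)))),
 (.br (nat_lit 10) (nat_lit 0) (.cons (.ev (nat_lit 1213666632842672057942273) (nat_lit 1)) (.cons (.br (nat_lit 4) (nat_lit 0) (.cons (.ev (nat_lit 158768228019404977603709239810) (nat_lit 3)) .nil)) (.cons (.ev (nat_lit 1213666633123047522959361) (nat_lit 1)) .nil)))),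
 (.br (nat_lit 7) (nat_lit 0) (.cons (.ev (nat_lit 4722438540463699984641) (nat_lit 1)) .nil)),
 (.br (nat_lit 2) (nat_lit 0) (.cons (.kr (nat_lit 309485009821626543701491714) (nat_lit 18446745173221310464) (nat_lit 0) (nat_lit 1)) (.cons (.rf (nat_lit 316) (nat_lit 14242959524133700672)) (.cons (.rf (nat_lit 317) (nat_lit 14242959524133701664)) (.cons (.rf (nat_lit 318) (nat_lit 14242959524133701664)) (.cons (.br (nat_lit 3) (nat_lit 0) (.cons (.br (nat_lit 10) (nat_lit 0) (.cons (.ev (nat_lit 1208925891672223229411329) (nat_lit 1)) (.cons (.ev (nat_lit 1213666633123047523024896) (nat_lit 1)) (.cons (.kr (nat_lit 79228162514264337593560727552) (nat_lit 1208925819614633469673472) (nat_lit 3) (nat_lit 0)) .nil)))) (.cons (.rf (nat_lit 319) (nat_lit 14242959524133701664)) (.cons (.rf (nat_lit 320) (nat_lit 14242959524133701664)) (.cons (.br (nat_lit 12) (nat_lit 0) (.cons (.kr (nat_lit 79228162514264337593560727552) (nat_lit 1208925819614633469673472) (nat_lit 3) (nat_lit 0)) (.cons (.rf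 (nat_lit 319) (nat_lit 3643735604449378338)) (.cons (.rf (nat_lit 320) (nat_lit 3643735604449378338)) .nil)))) (.cons (.br (nat_lit 4) (nat_lit 0) (.cons (.ev (nat_lit 79537647542604484334311244033) (nat_lit 1)) (.cons (.ev (nat_lit 79537652246452447011185623296) (nat_lit 1)) (.cons (.rf (nat_lit 321) (nat_lit 445092449661061152)) .nil)))) .nil)))))) .nil)))))),
 (.br (nat_lit 2) (nat_lit 0) (.cons (.rf (nat_lit 304) (nat_lit 14242959524133700672)) (.cons (.rf (nat_lit 316) (nat_lit 14242959524133700672)) (.cons (.rf (nat_lit 317) (nat_lit 14242959524133701664)) (.cons (.rf (nat_lit 318) (nat_lit 14242959524133701664)) (.cons (.rf (nat_lit 322) (nat_lit 14242959524133701664)) (.cons (.br (nat_lit 2) (nat_lit 0) (.cons (.rf (nat_lit 304) (nat_lit 14242959524133700672)) (.cons (.rf (nat_lit 316) (nat_lit 14242959524133700672)) (.cons (.rf (nat_lit 316) (nat_lit 3685216982706552866)) (.cons (.rf (nat_lit 316) (nat_lit 3647148388582293538)) (.cons (.rf (nat_lit 322) (nat_lit 14242959524133701664))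 .nil)))))) .nil))))))),
 (.br (nat_lit 6) (nat_lit 0) (.cons (.br (nat_lit 9) (nat_lit 0) (.cons (.ev (nat_lit 309485009821626547996524801) (nat_lit 1)) .nil)) (.cons (.br (nat_lit 8) (nat_lit 0) (.cons (.ev (nat_lit 309485009821626547996524801) (nat_lit 1)) .nil)) (.cons (.ev (nat_lit 309485009821626547996459009) (nat_lit 1)) .nil)))),
 (.br (nat_lit 9) (nat_lit 0) (.cons (.ev (nat_lit 309485009821626547996524801) (nat_lit 1)) .nil)),
 (.br (nat_lit 2) (nat_lit 0) (.cons (.rf (nat_lit 304) (nat_lit 14242959524133700672)) (.cons (.kr (nat_lit 18446744073709551872) (nat_lit 309485009821345068724846592) (nat_lit 1) (nat_lit 0)) (.cons (.rf (nat_lit 323) (nat_lit 14242959524133700672)) (.cons (.kr (nat_lit 18447025548686262784) (nat_lit 309485009821346168236539904) (nat_lit 1) (nat_lit 0)) (.cons (.br (nat_lit 3) (nat_lit 0) (.cons (.rf (nat_lit 324) (nat_lit 445092485094541344)) (.cons (.br (nat_lit 9) (nat_lit 0) (.cons (.rf (nat_lit 325) (nat_lit 445092485094541344)) (.cons (.ev (nat_lit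 1213666632842672057942016) (nat_lit 1)) (.cons (.rf (nat_lit 324) (nat_lit 257948009432908802)) .nil)))) (.cons (.br (nat_lit 10) (nat_lit 0) (.cons (.ev (nat_lit 1213666632842672057942273) (nat_lit 1)) (.cons (.rf (nat_lit 324) (nat_lit 441468594630756353)) (.cons (.ev (nat_lit 1213666633123047522959361) (nat_lit 1)) .nil)))) (.cons (.br (nat_lit 9) (nat_lit 0) (.cons (.br (nat_lit 7) (nat_lit 0) (.cons (.ev (nat_lit 79228162514336677766365184256) (nat_lit 1)) .nil)) (.cons (.ev (nat_lit 1213666633123047523025153) (nat_lit 1)) (.cons (.rf (nat_lit 324) (nat_lit 257948009432908802)) .nil)))) (.cons (.br (nat_lit 4) (nat_lit 0) (.cons (.ev (nat_lit 79228162514336677766365249793) (nat_lit 1)) (.cons (.rf (nat_lit 321) (nat_lit 337077529006442528)) (.cons (.rf (nat_lit 325) (nat_lit 264914317529416768)) .nil)))) .nil)))))) .nil)))))),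
 (.br (nat_lit 2) (nat_lit 0) (.cons (.rf (nat_lit 304) (nat_lit 14242959524133700672)) (.cons (.rf (nat_lit 316) (nat_lit 14242959524133700672)) (.cons (.br (nat_lit 2) (nat_lit 0) (.cons (.rf (nat_lit 304) (nat_lit 14242959524133700672)) (.cons (.kr (nat_lit 18446745173221179904) (nat_lit 309485009821626543701622784) (nat_lit 1) (nat_lit 0)) (.cons (.rf (nat_lit 323) (nat_lit 14242959524133700672)) (.cons (.kr (nat_lit 256) (nat_lit 65536) (nat_lit 1) (nat_lit 0)) (.cons (.rf (nat_lit 316) (nat_lit 3685216982706552866)) .nil)))))) (.cons (.rf (nat_lit 326) (nat_lit 14242959524133701664)) (.cons (.br (nat_lit 2) (nat_lit 0) (.cons (.kr (nat_lit 309485009821626543701491714) (nat_lit 18446745173221310464) (nat_lit 0) (nat_lit 1)) (.cons (.rf (nat_lit 316) (nat_lit 14242959524133700672)) (.cons (.kr (nat_lit 256) (nat_lit 65536) (nat_lit 1) (nat_lit 0)) (.cons (.kr (nat_lit 18447025548686262784) (nat_lit 309485009821346168236539904) (nat_lit 1) (nat_lit 0)) (.cons (.rf (nat_lit 316) (nat_lit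 3643735604449378338)) .nil)))))) (.cons (.br (nat_lit 2) (nat_lit 0) (.cons (.rf (nat_lit 304) (nat_lit 14242959524133700672)) (.cons (.rf (nat_lit 316) (nat_lit 14242959524133700672)) (.cons (.rf (nat_lit 316) (nat_lit 3685216982706552866)) (.cons (.rf (nat_lit 326) (nat_lit 14242959524133701664)) (.cons (.rf (nat_lit 316) (nat_lit 3643735604449378338)) .nil)))))) .nil))))))),
 (.br (nat_lit 1) (nat_lit 0) (.cons (.rf (nat_lit 304) (nat_lit 14242959524133701664)) (.cons (.rf (nat_lit 316) (nat_lit 14242959524133701664)) (.cons (.rf (nat_lit 323) (nat_lit 14242959524133701664)) (.cons (.rf (nat_lit 327) (nat_lit 14242959524133701664)) (.cons (.br (nat_lit 2) (nat_lit 0) (.cons (.rf (nat_lit 304) (nat_lit 14242959524133700672)) (.cons (.rf (nat_lit 316) (nat_lit 14242959524133700672)) (.cons (.rf (nat_lit 316) (nat_lit 3685216982706552897)) (.cons (.br (nat_lit 2) (nat_lit 0) (.cons (.rf (nat_lit 304) (nat_lit 14242959524133700672)) (.cons (.rf (nat_lit 316) (nat_lit 14242959524133700672))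 (.cons (.rf (nat_lit 316) (nat_lit 3685216982706552897)) (.cons (.rf (nat_lit 327) (nat_lit 3685216982706552897)) (.cons (.kr (nat_lit 18447025548686262784) (nat_lit 309485009821346168236539904) (nat_lit 1) (nat_lit 0)) .nil)))))) (.cons (.br (nat_lit 2) (nat_lit 0) (.cons (.kr (nat_lit 309485009821626543701491714) (nat_lit 18446745173221310464) (nat_lit 0) (nat_lit 1)) (.cons (.rf (nat_lit 316) (nat_lit 14242959524133700672)) (.cons (.rf (nat_lit 316) (nat_lit 3685216982706552897)) (.cons (.rf (nat_lit 327) (nat_lit 3685216982706552897)) (.cons (.rf (nat_lit 304) (nat_lit 3685216982706552897)) .nil)))))) (.cons (.rf (nat_lit 304) (nat_lit 3685216982706552897)) .nil))))))) .nil)))))),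
 (.br (nat_lit 1) (nat_lit 0) (.cons (.rf (nat_lit 304) (nat_lit 14242959524133701664)) (.cons (.rf (nat_lit 316) (nat_lit 14242959524133701664)) (.cons (.rf (nat_lit 328) (nat_lit 14242959524133701664)) (.cons (.br (nat_lit 2) (nat_lit 0) (.cons (.rf (nat_lit 304) (nat_lit 14242959524133700672)) (.cons (.rf (nat_lit 316) (nat_lit 14242959524133700672)) (.cons (.rf (nat_lit 328) (nat_lit 14242959524133700672)) (.cons (.br (nat_lit 2) (nat_lit 0) (.cons (.rf (nat_lit 304) (nat_lit 14242959524133700672)) (.cons (.kr (nat_lit 18446745173221179904) (nat_lit 309485009821626543701622784) (nat_lit 1) (nat_lit 0)) (.cons (.rf (nat_lit 328) (nat_lit 14242959524133700672)) (.cons (.kr (nat_lit 256) (nat_lit 65536) (nat_lit 1) (nat_lit 0)) (.cons (.rf (nat_lit 316) (nat_lit 3647148388582293538)) .nil)))))) (.cons (.br (nat_lit 2) (nat_lit 0) (.cons (.kr (nat_lit 309485009821626543701491714) (nat_lit 18446745173221310464) (nat_lit 0) (nat_lit 1)) (.cons (.rf (nat_lit 316) (nat_lit 14242959524133700672))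 (.cons (.kr (nat_lit 309485009821346168236409344) (nat_lit 18447025548686393344) (nat_lit 1) (nat_lit 0)) (.cons (.kr (nat_lit 256) (nat_lit 65536) (nat_lit 1) (nat_lit 0)) (.cons (.rf (nat_lit 316) (nat_lit 3643735604449378338)) .nil)))))) (.cons (.br (nat_lit 2) (nat_lit 0) (.cons (.rf (nat_lit 304) (nat_lit 14242959524133700672)) (.cons (.rf (nat_lit 316) (nat_lit 14242959524133700672)) (.cons (.rf (nat_lit 328) (nat_lit 14242959524133700672)) (.cons (.rf (nat_lit 316) (nat_lit 3647148388582293538)) (.cons (.rf (nat_lit 316) (nat_lit 3643735604449378338)) .nil)))))) .nil))))))) (.cons (.rf (nat_lit 328) (nat_lit 3647148388582295553)) .nil)))))),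
 (.br (nat_lit 1) (nat_lit 0) (.cons (.kr (nat_lit 309485009821626543701491714) (nat_lit 18446745173221179904) (nat_lit 0) (nat_lit 2)) (.cons (.rf (nat_lit 316) (nat_lit 14242959524133701664)) (.cons (.rf (nat_lit 328) (nat_lit 14242959524133701664)) (.cons (.rf (nat_lit 329) (nat_lit 14242959524133701664)) (.cons (.br (nat_lit 2) (nat_lit 0) (.cons (.rf (nat_lit 304) (nat_lit 14242959524133700672)) (.cons (.rf (nat_lit 316) (nat_lit 14242959524133700672)) (.cons (.rf (nat_lit 328) (nat_lit 14242959524133700672)) (.cons (.rf (nat_lit 329) (nat_lit 14242959524133700672)) (.cons (.rf (nat_lit 316) (nat_lit 3643735604449378369)) (.cons (.rf (nat_lit 304) (nat_lit 3643735604449378369)) .nil))))))) .nil))))))]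

theorem c9 : chkAll C T R L9 (nat_lit 311) = true := by decide +kernel

theorem l9 : (nat_lit 311) + L9.length = (nat_lit 331) := by decide +kernel

/-- part of the certificates -/
def L10 : List Prf := [(.br (nat_lit 1) (nat_lit 0) (.cons (.rf (nat_lit 304) (nat_lit 14242959524133701664)) (.cons (.rf (nat_lit 316) (nat_lit 14242959524133701664)) (.cons (.rf (nat_lit 328) (nat_lit 14242959524133701664)) (.cons (.rf (nat_lit 329) (nat_lit 14242959524133701664)) (.cons (.rf (nat_lit 330) (nat_lit 14242959524133701664)) (.cons (.br (nat_lit 1) (nat_lit 0) (.cons (.rf (nat_lit 304) (nat_lit 14242959524133701664)) (.cons (.rf (nat_lit 316) (nat_lit 14242959524133701664)) (.cons (.rf (nat_lit 328) (nat_lit 14242959524133701664)) (.cons (.rf (nat_lit 328) (nat_lit 3647148388582295553)) (.cons (.rf (nat_lit 330) (nat_lit 14242959524133701664)) .nil)))))) .nil))))))),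
 (.br (nat_lit 10) (nat_lit 0) (.cons (.ev (nat_lit 1208925891672223229411584) (nat_lit 1)) (.cons (.ev (nat_lit 311917028632081629593010177) (nat_lit 2)) (.cons (.kr (nat_lit 158456325028528676286599528448) (nat_lit 309485028268370617411043328) (nat_lit 5) (nat_lit 0)) .nil)))),
 (.br (nat_lit 2) (nat_lit 0) (.cons (.br (nat_lit 9) (nat_lit 0) (.cons (.ev (nat_lit 4722366764348916891649) (nat_lit 1)) (.cons (.rf (nat_lit 332) (nat_lit 14242959524133701664)) .nil))) (.cons (.ev (nat_lit 18518801672042512384) (nat_lit 1)) .nil))),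
 (.br (nat_lit 11) (nat_lit 0) (.cons (.ev (nat_lit 310693935713298771209158913) (nat_lit 1)) (.cons (.kr (nat_lit 1208925819614629174706177) (nat_lit 309485009821345068724781312) (nat_lit 0) (nat_lit 2)) .nil))),
 (.br (nat_lit 2) (nat_lit 0) (.cons (.rf (nat_lit 333) (nat_lit 14242959524133701664)) (.cons (.br (nat_lit 2) (nat_lit 0) (.cons (.rf (nat_lit 333) (nat_lit 14242959524133701664)) (.cons (.rf (nat_lit 334) (nat_lit 445092485094541344)) .nil))) (.cons (.br (nat_lit 2) (nat_lit 0) (.cons (.ev (nat_lit 18518801672042512384) (nat_lit 1)) (.cons (.rf (nat_lit 334) (nat_lit 445092485094541344)) .nil))) .nil)))),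
 (.br (nat_lit 10) (nat_lit 0) (.cons (.ev (nat_lit 18518801672042512641) (nat_lit 1)) (.cons (.ev (nat_lit 4722366764348916891649) (nat_lit 1)) (.cons (.kr (nat_lit 309485009821345068724781057) (nat_lit 79228162514264337593543950592) (nat_lit 0) (nat_lit 2)) .nil)))),
 (.br (nat_lit 2) (nat_lit 0) (.cons (.rf (nat_lit 335) (nat_lit 14242959524133701664)) (.cons (.br (nat_lit 2) (nat_lit 0) (.cons (.rf (nat_lit 335) (nat_lit 14242959524133701664)) (.cons (.rf (nat_lit 336) (nat_lit 14242959524133701664)) .nil))) (.cons (.br (nat_lit 2) (nat_lit 0) (.cons (.ev (nat_lit 18518801672042512384) (nat_lit 1)) (.cons (.rf (nat_lit 336) (nat_lit 14242959524133701664)) .nil))) .nil)))),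
 (.br (nat_lit 2) (nat_lit 0) (.cons (.rf (nat_lit 335) (nat_lit 14242959524133701664)) (.cons (.rf (nat_lit 337) (nat_lit 14242959524133701664)) (.cons (.br (nat_lit 2) (nat_lit 0) (.cons (.rf (nat_lit 334) (nat_lit 445092485094541344)) (.cons (.rf (nat_lit 337) (nat_lit 14242959524133701664)) .nil))) .nil)))),
 (.br (nat_lit 2) (nat_lit 0) (.cons (.br (nat_lit 7) (nat_lit 0) (.cons (.zr (nat_lit 4740885284537392759296) (nat_lit 310693935640959702194454530) (nat_lit 5) (nat_lit 9)) (.cons (.ev (nat_lit 4741030244158988681731) (nat_lit 2)) .nil))) (.cons (.br (nat_lit 12) (nat_lit 0) (.cons (.rf (nat_lit 30) (nat_lit 11317478000672)) (.cons (.kr (nat_lit 309485028268370617411043330) (nat_lit 158456325028528676286599528960) (nat_lit 0) (nat_lit 2)) .nil))) .nil))),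
 (.br (nat_lit 2) (nat_lit 0) (.cons (.rf (nat_lit 339) (nat_lit 14242959524133701664)) (.cons (.br (nat_lit 10) (nat_lit 0) (.cons (.br (nat_lit 9) (nat_lit 0) (.cons (.ev (nat_lit 79229371458602753890482913281) (nat_lit 1)) .nil)) (.cons (.br (nat_lit 7) (nat_lit 0) (.cons (.ev (nat_lit 79538861190718525334326673665) (nat_lit 1)) .nil)) (.cons (.kr (nat_lit 309485028268370617411043330) (nat_lit 158456325028528676286599528960) (nat_lit 0) (nat_lit 2)) .nil)))) .nil))),
 (.br (nat_lit 2) (nat_lit 0) (.cons (.rf (nat_lit 339) (nat_lit 14242959524133701664)) (.cons (.rf (nat_lit 340) (nat_lit 14242959524133701664)) (.cons (.br (nat_lit 2) (nat_lit 0) (.cons (.rf (nat_lit 339) (nat_lit 14242959524133701664)) (.cons (.rf (nat_lit 340) (nat_lit 14242959524133701664)) .nil))) .nil)))),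
 (.br (nat_lit 2) (nat_lit 0) (.cons (.rf (nat_lit 341) (nat_lit 14242959524133701664)) (.cons (.br (nat_lit 10) (nat_lit 0) (.cons (.ev (nat_lit 1213666632842672057942273) (nat_lit 1)) (.cons (.kr (nat_lit 309485028268370617411043330) (nat_lit 158456325028528676286599528960) (nat_lit 0) (nat_lit 2)) .nil))) .nil))),
 (.br (nat_lit 2) (nat_lit 0) (.cons (.rf (nat_lit 341) (nat_lit 14242959524133701664)) (.cons (.rf (nat_lit 342) (nat_lit 14242959524133701664)) (.cons (.br (nat_lit 2) (nat_lit 0) (.cons (.rf (nat_lit 341) (nat_lit 14242959524133701664)) (.cons (.rf (nat_lit 342) (nat_lit 14242959524133701664)) .nil))) .nil)))),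
 (.br (nat_lit 2) (nat_lit 0) (.cons (.rf (nat_lit 341) (nat_lit 14242959524133701664)) (.cons (.rf (nat_lit 343) (nat_lit 14242959524133701664)) (.cons (.br (nat_lit 2) (nat_lit 0) (.cons (.rf (nat_lit 341) (nat_lit 14242959524133701664)) (.cons (.rf (nat_lit 343) (nat_lit 14242959524133701664)) .nil))) .nil)))),
 (.br (nat_lit 2) (nat_lit 0) (.cons (.br (nat_lit 7) (nat_lit 0) (.cons (.zr (nat_lit 310693935641522652147941376) (nat_lit 4740885284537426247680) (nat_lit 5) (nat_lit 10)) (.cons (.br (nat_lit 9) (nat_lit 0) (.cons (.ev (nat_lit 79538861190718525334326673665) (nat_lit 1)) .nil)) .nil))) (.cons (.br (nat_lit 9) (nat_lit 0) (.cons (.br (nat_lit 10) (nat_lit 0) (.cons (.ev (nat_lit 79228167255077565640705310976) (nat_lit 1)) .nil)) (.cons (.ev (nat_lit 4722366764348916891649) (nat_lit 1)) (.cons (.kr (nat_lit 309485028268370617411043330) (nat_lit 158456325028528676286599528960) (nat_lit 0) (nat_lit 2)) .nil)))) .nil))),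
 (.br (nat_lit 12) (nat_lit 0) (.cons (.kr (nat_lit 309485009821345068724781057) (nat_lit 79228162514264337593543950592) (nat_lit 0) (nat_lit 2)) (.cons (.kr (nat_lit 309485028268370617411043330) (nat_lit 158456325028528676286599528960) (nat_lit 0) (nat_lit 2)) .nil))),
 (.br (nat_lit 2) (nat_lit 0) (.cons (.rf (nat_lit 345) (nat_lit 14242959524133701664)) (.cons (.br (nat_lit 2) (nat_lit 0) (.cons (.rf (nat_lit 345) (nat_lit 14242959524133701664)) (.cons (.rf (nat_lit 346) (nat_lit 14242959524133701664)) .nil))) (.cons (.br (nat_lit 2) (nat_lit 0) (.cons (.rf (nat_lit 345) (nat_lit 14242959524133701664)) (.cons (.rf (nat_lit 346) (nat_lit 14242959524133701664)) .nil))) .nil)))),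
 (.br (nat_lit 2) (nat_lit 0) (.cons (.rf (nat_lit 347) (nat_lit 14242959524133701664)) (.cons (.br (nat_lit 2) (nat_lit 0) (.cons (.rf (nat_lit 347) (nat_lit 14242959524133701664)) (.cons (.rf (nat_lit 346) (nat_lit 14242959524133701664)) .nil))) (.cons (.br (nat_lit 2) (nat_lit 0) (.cons (.rf (nat_lit 347) (nat_lit 14242959524133701664)) (.cons (.rf (nat_lit 346) (nat_lit 14242959524133701664)) .nil))) .nil)))),
 (.br (nat_lit 2) (nat_lit 0) (.cons (.rf (nat_lit 347) (nat_lit 14242959524133701664)) (.cons (.rf (nat_lit 348) (nat_lit 14242959524133701664)) (.cons (.rf (nat_lit 346) (nat_lit 14242959524133701664)) .nil)))),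
 (.br (nat_lit 2) (nat_lit 0) (.cons (.br (nat_lit 7) (nat_lit 0) (.cons (.br (nat_lit 10) (nat_lit 0) (.cons (.ev (nat_lit 1208925891954797717750016) (nat_lit 1)) .nil)) (.cons (.br (nat_lit 9) (nat_lit 0) (.cons (.ev (nat_lit 311912435755072193847887366) (nat_lit 3)) .nil)) (.cons (.ev (nat_lit 79228162514336677766365249536) (nat_lit 1)) .nil)))) (.cons (.br (nat_lit 9) (nat_lit 0) (.cons (.zr (nat_lit 237684487542793296454632013824) (nat_lit 309494454698425996107841538) (nat_lit 5) (nat_lit 12)) (.cons (.ev (nat_lit 4722366764348916891649) (nat_lit 1)) .nil))) .nil))),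
 (.br (nat_lit 2) (nat_lit 0) (.cons (.rf (nat_lit 350) (nat_lit 14242959524133701664)) (.cons (.br (nat_lit 7) (nat_lit 0) (.cons (.br (nat_lit 9) (nat_lit 0) (.cons (.ev (nat_lit 79230594533075639303388856835) (nat_lit 2)) .nil)) (.cons (.ev (nat_lit 79229371440228067423729811971) (nat_lit 2)) .nil))) .nil))),
 (.br (nat_lit 2) (nat_lit 0) (.cons (.rf (nat_lit 350) (nat_lit 14242959524133701664)) (.cons (.rf (nat_lit 351) (nat_lit 14242959524133701664)) (.cons (.br (nat_lit 2) (nat_lit 0) (.cons (.rf (nat_lit 350) (nat_lit 14242959524133701664)) (.cons (.rf (nat_lit 351) (nat_lit 14242959524133701664)) .nil))) .nil)))),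
 (.br (nat_lit 2) (nat_lit 0) (.cons (.rf (nat_lit 352) (nat_lit 14242959524133701664)) (.cons (.br (nat_lit 9) (nat_lit 0) (.cons (.br (nat_lit 7) (nat_lit 0) (.cons (.ev (nat_lit 1213648402273592403820546) (nat_lit 2)) .nil)) (.cons (.ev (nat_lit 4722366764348916891649) (nat_lit 1)) .nil))) .nil))),
 (.br (nat_lit 2) (nat_lit 0) (.cons (.rf (nat_lit 352) (nat_lit 14242959524133701664)) (.cons (.rf (nat_lit 353) (nat_lit 14242959524133701664)) (.cons (.br (nat_lit 2) (nat_lit 0) (.cons (.rf (nat_lit 352) (nat_lit 14242959524133701664)) (.cons (.rf (nat_lit 353) (nat_lit 14242959524133701664)) .nil))) .nil)))),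
 (.br (nat_lit 2) (nat_lit 0) (.cons (.rf (nat_lit 352) (nat_lit 14242959524133701664)) (.cons (.rf (nat_lit 354) (nat_lit 14242959524133701664)) (.cons (.br (nat_lit 2) (nat_lit 0) (.cons (.rf (nat_lit 352) (nat_lit 14242959524133701664)) (.cons (.rf (nat_lit 354) (nat_lit 14242959524133701664)) .nil))) .nil)))),
 (.br (nat_lit 1) (nat_lit 0) (.cons (.kr (nat_lit 1) (nat_lit 256) (nat_lit 0) (nat_lit 2)) (.cons (.br (nat_lit 2) (nat_lit 0) (.cons (.rf (nat_lit 335) (nat_lit 14242959524133701664)) (.cons (.rf (nat_lit 337) (nat_lit 14242959524133701664)) (.cons (.rf (nat_lit 338) (nat_lit 14242959524133701664)) (.cons (.br (nat_lit 2) (nat_lit 0) (.cons (.rf (nat_lit 335) (nat_lit 14242959524133701664)) (.cons (.rf (nat_lit 337) (nat_lit 14242959524133701664)) (.cons (.rf (nat_lit 338) (nat_lit 14242959524133701664)) .nil)))) .nil))))) (.cons (.br (nat_lit 2) (nat_lit 0) (.cons (.rf (nat_lit 341) (nat_lit 14242959524133701664)) (.cons (.rf (nat_lit 343) (nat_lit 14242959524133701664))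 (.cons (.rf (nat_lit 344) (nat_lit 14242959524133701664)) (.cons (.br (nat_lit 2) (nat_lit 0) (.cons (.rf (nat_lit 341) (nat_lit 14242959524133701664)) (.cons (.rf (nat_lit 343) (nat_lit 14242959524133701664)) (.cons (.rf (nat_lit 344) (nat_lit 14242959524133701664)) .nil)))) .nil))))) (.cons (.br (nat_lit 2) (nat_lit 0) (.cons (.rf (nat_lit 347) (nat_lit 14242959524133701664)) (.cons (.rf (nat_lit 348) (nat_lit 14242959524133701664)) (.cons (.rf (nat_lit 349) (nat_lit 14242959524133701664)) (.cons (.br (nat_lit 2) (nat_lit 0) (.cons (.rf (nat_lit 347) (nat_lit 14242959524133701664)) (.cons (.rf (nat_lit 348) (nat_lit 14242959524133701664)) (.cons (.rf (nat_lit 349) (nat_lit 14242959524133701664)) .nil)))) .nil))))) (.cons (.br (nat_lit 2) (nat_lit 0) (.cons (.rf (nat_lit 352) (nat_lit 14242959524133701664)) (.cons (.rf (nat_lit 354) (nat_lit 14242959524133701664)) (.cons (.rf (nat_lit 355) (nat_lit 14242959524133701664)) (.cons (.br (nat_lit 2) (nat_lit 0) (.cons (.rf (nat_lit 352)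 (nat_lit 14242959524133701664)) (.cons (.rf (nat_lit 354) (nat_lit 14242959524133701664)) (.cons (.rf (nat_lit 355) (nat_lit 14242959524133701664)) .nil)))) .nil))))) .nil)))))),
 (.br (nat_lit 2) (nat_lit 0) (.cons (.br (nat_lit 10) (nat_lit 0) (.cons (.ev (nat_lit 79228167255077846016170393856) (nat_lit 1)) .nil)) .nil)),
 (.br (nat_lit 9) (nat_lit 0) (.cons (.ev (nat_lit 4722366483973451809024) (nat_lit 1)) (.cons (.br (nat_lit 2) (nat_lit 0) (.cons (.rf (nat_lit 357) (nat_lit 14242959524133701664)) (.cons (.br (nat_lit 2) (nat_lit 0) (.cons (.rf (nat_lit 357) (nat_lit 14242959524133701664)) .nil)) .nil))) (.cons (.ev (nat_lit 4722366764348916891649) (nat_lit 1)) (.cons (.br (nat_lit 12) (nat_lit 0) (.cons (.br (nat_lit 2) (nat_lit 0) (.cons (.rf (nat_lit 46) (nat_lit 13445701404704)) (.cons (.br (nat_lit 7) (nat_lit 0) (.cons (.ev (nat_lit 316757472653684227082159110) (nat_lit 3)) .nil)) .nil))) (.cons (.rf (nat_lit 217) (nat_lit 9911240736)) (.cons (.kr (nat_lit 158456325028528676286599528448)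 (nat_lit 309485028268370617411043328) (nat_lit 5) (nat_lit 0)) .nil)))) .nil))))),
 (.br (nat_lit 4) (nat_lit 0) (.cons (.ev (nat_lit 4722366483973451809024) (nat_lit 1)) (.cons (.ev (nat_lit 4722366764348916891649) (nat_lit 1)) (.cons (.br (nat_lit 2) (nat_lit 0) (.cons (.br (nat_lit 10) (nat_lit 0) (.cons (.ev (nat_lit 79229376162450716567357423873) (nat_lit 1)) .nil)) (.cons (.rf (nat_lit 49) (nat_lit 11317478000672)) .nil))) .nil)))),
 (.br (nat_lit 10) (nat_lit 0) (.cons (.ev (nat_lit 4722366764348916891904) (nat_lit 1)) (.cons (.ev (nat_lit 18518801672042512384) (nat_lit 1)) (.cons (.ev (nat_lit 79228167255077846016170393601) (nat_lit 1)) .nil)))),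
 (.br (nat_lit 2) (nat_lit 0) (.cons (.rf (nat_lit 358) (nat_lit 14242959524133701664)) (.cons (.rf (nat_lit 359) (nat_lit 14242959524133701664)) (.cons (.br (nat_lit 4) (nat_lit 0) (.cons (.rf (nat_lit 360) (nat_lit 14242959524133701664)) (.cons (.br (nat_lit 9) (nat_lit 0) (.cons (.ev (nat_lit 311921843160510973585262080) (nat_lit 3)) .nil)) (.cons (.br (nat_lit 9) (nat_lit 0) (.cons (.ev (nat_lit 79538861190718525334326673665) (nat_lit 1)) .nil)) .nil)))) .nil)))),
 (.br (nat_lit 2) (nat_lit 0) (.cons (.rf (nat_lit 358) (nat_lit 14242959524133701664)) (.cons (.rf (nat_lit 359) (nat_lit 14242959524133701664)) (.cons (.rf (nat_lit 361) (nat_lit 14242959524133701664)) (.cons (.br (nat_lit 2) (nat_lit 0) (.cons (.rf (nat_lit 358) (nat_lit 14242959524133701664)) (.cons (.rf (nat_lit 359) (nat_lit 14242959524133701664)) (.cons (.rf (nat_lit 361) (nat_lit 14242959524133701664)) .nil)))) .nil))))),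
 (.br (nat_lit 10) (nat_lit 0) (.cons (.ev (nat_lit 79228167255077846016170393856) (nat_lit 1)) .nil)),
 (.br (nat_lit 2) (nat_lit 0) (.cons (.ev (nat_lit 4722366483973451809024) (nat_lit 1)) (.cons (.rf (nat_lit 359) (nat_lit 14242959524133701664)) (.cons (.br (nat_lit 4) (nat_lit 0) (.cons (.rf (nat_lit 363) (nat_lit 14242959524133701664)) (.cons (.ev (nat_lit 4722366764348916891649) (nat_lit 1)) (.cons (.br (nat_lit 7) (nat_lit 0) (.cons (.ev (nat_lit 79229376162450436191892340736) (nat_lit 1)) .nil)) .nil)))) .nil)))),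
 (.br (nat_lit 2) (nat_lit 0) (.cons (.ev (nat_lit 4722366483973451809024) (nat_lit 1)) (.cons (.rf (nat_lit 359) (nat_lit 14242959524133701664)) (.cons (.rf (nat_lit 364) (nat_lit 14242959524133701664)) (.cons (.br (nat_lit 2) (nat_lit 0) (.cons (.ev (nat_lit 4722366483973451809024) (nat_lit 1)) (.cons (.rf (nat_lit 359) (nat_lit 14242959524133701664)) (.cons (.rf (nat_lit 364) (nat_lit 14242959524133701664)) .nil)))) .nil))))),
 (.br (nat_lit 2) (nat_lit 0) (.cons (.rf (nat_lit 358) (nat_lit 14242959524133701664)) (.cons (.rf (nat_lit 362) (nat_lit 14242959524133701664)) (.cons (.rf (nat_lit 365) (nat_lit 14242959524133701664)) (.cons (.br (nat_lit 2) (nat_lit 0) (.cons (.rf (nat_lit 358) (nat_lit 14242959524133701664)) (.cons (.rf (nat_lit 362) (nat_lit 14242959524133701664)) (.cons (.rf (nat_lit 365) (nat_lit 14242959524133701664)) .nil)))) .nil)))))]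

theorem c10 : chkAll C T R L10 (nat_lit 331) = true := by decide +kernel

theorem l10 : (nat_lit 331) + L10.length = (nat_lit 367) := by decide +kernel

/-- part of the certificates -/
def L11 : List Prf := [(.br (nat_lit 10) (nat_lit 0) (.cons (.ev (nat_lit 1208925891672223229411584) (nat_lit 1)) (.cons (.ev (nat_lit 1208925891954797717749761) (nat_lit 1)) (.cons (.br (nat_lit 12) (nat_lit 0) (.cons (.kr (nat_lit 928455029464316681151053826) (nat_lit 158456325046975420360309080576) (nat_lit 0) (nat_lit 2)) (.cons (.kr (nat_lit 158456325028528676286599528448) (nat_lit 309485028268370617411043328) (nat_lit 5) (nat_lit 0)) .nil))) .nil)))),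
 (.br (nat_lit 7) (nat_lit 0) (.cons (.ev (nat_lit 1208925891954797717749761) (nat_lit 1)) (.cons (.br (nat_lit 9) (nat_lit 0) (.cons (.ev (nat_lit 79229376162450716567357423873) (nat_lit 1)) .nil)) .nil))),
 (.br (nat_lit 2) (nat_lit 0) (.cons (.rf (nat_lit 367) (nat_lit 14242959524133701664)) (.cons (.rf (nat_lit 368) (nat_lit 14242959524133701664)) (.cons (.br (nat_lit 10) (nat_lit 0) (.cons (.br (nat_lit 9) (nat_lit 0) (.cons (.ev (nat_lit 79229371458602753890482913281) (nat_lit 1)) .nil)) (.cons (.br (nat_lit 7) (nat_lit 0) (.cons (.ev (nat_lit 79538861190718525334326673665) (nat_lit 1)) .nil)) (.cons (.kr (nat_lit 928455029464316681151053826) (nat_lit 158456325046975420360309080576) (nat_lit 0) (nat_lit 2)) .nil)))) .nil)))),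
 (.br (nat_lit 2) (nat_lit 0) (.cons (.ev (nat_lit 1208925891672223229411584) (nat_lit 1)) (.cons (.rf (nat_lit 368) (nat_lit 14242959524133701664)) (.cons (.br (nat_lit 7) (nat_lit 0) (.cons (.ev (nat_lit 1208925891954797717749761) (nat_lit 1)) (.cons (.rf (nat_lit 46) (nat_lit 13547639769120)) .nil))) .nil)))),
 (.br (nat_lit 2) (nat_lit 0) (.cons (.rf (nat_lit 367) (nat_lit 14242959524133701664)) (.cons (.rf (nat_lit 369) (nat_lit 14242959524133701664)) (.cons (.rf (nat_lit 370) (nat_lit 14242959524133701664)) (.cons (.br (nat_lit 2) (nat_lit 0) (.cons (.rf (nat_lit 367) (nat_lit 14242959524133701664)) (.cons (.rf (nat_lit 369) (nat_lit 14242959524133701664)) (.cons (.rf (nat_lit 370) (nat_lit 14242959524133701664)) .nil)))) .nil))))),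
 (.br (nat_lit 9) (nat_lit 0) (.cons (.kr (nat_lit 309485009821345068724781057) (nat_lit 18446744073709551872) (nat_lit 0) (nat_lit 2)) (.cons (.ev (nat_lit 79229371458602753890482913536) (nat_lit 1)) .nil))),
 (.br (nat_lit 2) (nat_lit 0) (.cons (.rf (nat_lit 371) (nat_lit 14242959524133701664)) (.cons (.ev (nat_lit 1208925891672223229411584) (nat_lit 1)) (.cons (.br (nat_lit 10) (nat_lit 0) (.cons (.rf (nat_lit 372) (nat_lit 14242959524133701664)) (.cons (.ev (nat_lit 1213666632842672057942016) (nat_lit 1)) (.cons (.kr (nat_lit 928455029464316681151053826) (nat_lit 158456325046975420360309080576) (nat_lit 0) (nat_lit 2)) .nil)))) .nil)))),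
 (.br (nat_lit 2) (nat_lit 0) (.cons (.rf (nat_lit 371) (nat_lit 14242959524133701664)) (.cons (.rf (nat_lit 373) (nat_lit 14242959524133701664)) (.cons (.ev (nat_lit 1208925891672223229411584) (nat_lit 1)) (.cons (.br (nat_lit 2) (nat_lit 0) (.cons (.rf (nat_lit 371) (nat_lit 14242959524133701664)) (.cons (.rf (nat_lit 373) (nat_lit 14242959524133701664)) (.cons (.ev (nat_lit 1208925891672223229411584) (nat_lit 1)) .nil)))) .nil))))),
 (.br (nat_lit 2) (nat_lit 0) (.cons (.rf (nat_lit 370) (nat_lit 14242959524133701664)) (.cons (.ev (nat_lit 1208925891672223229411584) (nat_lit 1)) (.cons (.br (nat_lit 4) (nat_lit 0) (.cons (.rf (nat_lit 372) (nat_lit 14239581926452201504)) (.cons (.br (nat_lit 7) (nat_lit 0) (.cons (.ev (nat_lit 79538861190718805709791756288) (nat_lit 1)) .nil)) (.cons (.kr (nat_lit 309485009821345068724781057) (nat_lit 79228162514264337593543950592) (nat_lit 0) (nat_lit 2)) .nil)))) .nil)))),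
 (.br (nat_lit 2) (nat_lit 0) (.cons (.rf (nat_lit 371) (nat_lit 14242959524133701664)) (.cons (.rf (nat_lit 374) (nat_lit 14242959524133701664)) (.cons (.rf (nat_lit 375) (nat_lit 14242959524133701664)) (.cons (.br (nat_lit 2) (nat_lit 0) (.cons (.rf (nat_lit 371) (nat_lit 14242959524133701664)) (.cons (.rf (nat_lit 374) (nat_lit 14242959524133701664)) (.cons (.rf (nat_lit 375) (nat_lit 14242959524133701664)) .nil)))) .nil))))),
 (.br (nat_lit 2) (nat_lit 0) (.cons (.rf (nat_lit 370) (nat_lit 14242959524133701664)) (.cons (.ev (nat_lit 1208925891672223229411584) (nat_lit 1)) (.cons (.rf (nat_lit 376) (nat_lit 14242959524133701664)) (.cons (.br (nat_lit 2) (nat_lit 0) (.cons (.rf (nat_lit 370) (nat_lit 14242959524133701664)) (.cons (.ev (nat_lit 1208925891672223229411584) (nat_lit 1)) (.cons (.rf (nat_lit 376) (nat_lit 14242959524133701664)) .nil)))) .nil))))),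
 (.br (nat_lit 2) (nat_lit 0) (.cons (.br (nat_lit 11) (nat_lit 0) (.cons (.rf (nat_lit 46) (nat_lit 9012288522272)) (.cons (.ev (nat_lit 310693935713298771209158913) (nat_lit 1)) .nil))) (.cons (.br (nat_lit 11) (nat_lit 0) (.cons (.ev (nat_lit 310693935713298771209158913) (nat_lit 1)) (.cons (.rf (nat_lit 46) (nat_lit 10110726408224)) .nil))) (.cons (.ev (nat_lit 309485009821626547996524544) (nat_lit 1)) .nil)))),
 (.br (nat_lit 2) (nat_lit 0) (.cons (.rf (nat_lit 378) (nat_lit 445092485094541344)) (.cons (.br (nat_lit 7) (nat_lit 0) (.cons (.br (nat_lit 10) (nat_lit 0) (.cons (.ev (nat_lit 317236651714402750328950360580) (nat_lit 4)) .nil)) (.cons (.br (nat_lit 9) (nat_lit 0) (.cons (.ev (nat_lit 79229371458602753890482913281) (nat_lit 1)) .nil)) (.cons (.br (nat_lit 9) (nat_lit 0) (.cons (.ev (nat_lit 79538861190718525334326673665) (nat_lit 1)) .nil)) .nil)))) (.cons (.br (nat_lit 7) (nat_lit 0) (.cons (.ev (nat_lit 79537652246452447011185623041) (nat_lit 1)) (.cons (.br (nat_lit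 9) (nat_lit 0) (.cons (.ev (nat_lit 79229371458602753890482913281) (nat_lit 1)) .nil)) .nil))) .nil)))),
 (.br (nat_lit 2) (nat_lit 0) (.cons (.rf (nat_lit 378) (nat_lit 445092485094541344)) (.cons (.rf (nat_lit 379) (nat_lit 14242959524133701664)) (.cons (.br (nat_lit 7) (nat_lit 0) (.cons (.br (nat_lit 9) (nat_lit 0) (.cons (.ev (nat_lit 951054717347821922290015930372) (nat_lit 4)) .nil)) (.cons (.rf (nat_lit 46) (nat_lit 11417335990304)) .nil))) .nil)))),
 (.br (nat_lit 2) (nat_lit 0) (.cons (.rf (nat_lit 378) (nat_lit 445092485094541344)) (.cons (.rf (nat_lit 379) (nat_lit 14242959524133701664)) (.cons (.rf (nat_lit 380) (nat_lit 14242959524133701664)) (.cons (.br (nat_lit 2) (nat_lit 0) (.cons (.ev (nat_lit 79228162514336395191876911104) (nat_lit 1)) (.cons (.rf (nat_lit 379) (nat_lit 14242959524133701664)) (.cons (.rf (nat_lit 380) (nat_lit 14242959524133701664)) .nil)))) .nil))))),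
 (.br (nat_lit 2) (nat_lit 0) (.cons (.rf (nat_lit 378) (nat_lit 445092485094541344)) (.cons (.br (nat_lit 9) (nat_lit 0) (.cons (.br (nat_lit 10) (nat_lit 0) (.cons (.ev (nat_lit 79537652246452166635720540161) (nat_lit 1)) .nil)) (.cons (.br (nat_lit 4) (nat_lit 0) (.cons (.ev (nat_lit 79538861190718525334326673665) (nat_lit 1)) .nil)) (.cons (.rf (nat_lit 332) (nat_lit 14242959524133701664)) .nil)))) (.cons (.br (nat_lit 4) (nat_lit 0) (.cons (.rf (nat_lit 49) (nat_lit 11417335990304)) (.cons (.br (nat_lit 9) (nat_lit 0) (.cons (.ev (nat_lit 4741029683408058515971) (nat_lit 2)) .nil)) .nil))) .nil)))),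
 (.br (nat_lit 2) (nat_lit 0) (.cons (.rf (nat_lit 378) (nat_lit 445092485094541344)) (.cons (.rf (nat_lit 382) (nat_lit 14242959524133701664)) (.cons (.br (nat_lit 4) (nat_lit 0) (.cons (.br (nat_lit 9) (nat_lit 0) (.cons (.ev (nat_lit 79537652246452166635720540161) (nat_lit 1)) .nil)) (.cons (.ev (nat_lit 79229371458603036464971251713) (nat_lit 1)) .nil))) .nil)))),
 (.br (nat_lit 2) (nat_lit 0) (.cons (.rf (nat_lit 378) (nat_lit 445092485094541344)) (.cons (.rf (nat_lit 382) (nat_lit 14242959524133701664)) (.cons (.rf (nat_lit 383) (nat_lit 14242959524133701664)) (.cons (.br (nat_lit 2) (nat_lit 0) (.cons (.ev (nat_lit 79228162514336395191876911104) (nat_lit 1)) (.cons (.rf (nat_lit 382) (nat_lit 14242959524133701664)) (.cons (.rf (nat_lit 383) (nat_lit 14242959524133701664)) .nil)))) .nil))))),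
 (.br (nat_lit 2) (nat_lit 0) (.cons (.rf (nat_lit 381) (nat_lit 14242959524133701664)) (.cons (.rf (nat_lit 384) (nat_lit 14242959524133701664)) (.cons (.br (nat_lit 9) (nat_lit 0) (.cons (.br (nat_lit 7) (nat_lit 0) (.cons (.ev (nat_lit 79538861190718805709791756288) (nat_lit 1)) .nil)) (.cons (.zr (nat_lit 309489732259886631919550720) (nat_lit 79228162532711363142246989824) (nat_lit 5) (nat_lit 7)) (.cons (.ev (nat_lit 79229376162450716567357423616) (nat_lit 1)) .nil)))) .nil)))),
 (.br (nat_lit 2) (nat_lit 0) (.cons (.rf (nat_lit 381) (nat_lit 14242959524133701664)) (.cons (.rf (nat_lit 384) (nat_lit 14242959524133701664)) (.cons (.rf (nat_lit 385) (nat_lit 14242959524133701664)) (.cons (.br (nat_lit 2) (nat_lit 0) (.cons (.rf (nat_lit 381) (nat_lit 14242959524133701664)) (.cons (.rf (nat_lit 384) (nat_lit 14242959524133701664)) (.cons (.rf (nat_lit 385) (nat_lit 14242959524133701664)) .nil)))) .nil))))),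
 (.br (nat_lit 2) (nat_lit 0) (.cons (.rf (nat_lit 381) (nat_lit 14242959524133701664)) (.cons (.rf (nat_lit 384) (nat_lit 14242959524133701664)) (.cons (.rf (nat_lit 386) (nat_lit 14242959524133701664)) (.cons (.br (nat_lit 2) (nat_lit 0) (.cons (.rf (nat_lit 381) (nat_lit 14242959524133701664)) (.cons (.rf (nat_lit 384) (nat_lit 14242959524133701664)) (.cons (.rf (nat_lit 386) (nat_lit 14242959524133701664)) .nil)))) .nil))))),
 (.br (nat_lit 1) (nat_lit 0) (.cons (.rf (nat_lit 331) (nat_lit 14242959524133701664)) (.cons (.rf (nat_lit 356) (nat_lit 14242959524133701664)) (.cons (.br (nat_lit 2) (nat_lit 0) (.cons (.rf (nat_lit 358) (nat_lit 14242959524133701664)) (.cons (.rf (nat_lit 362) (nat_lit 14242959524133701664)) (.cons (.rf (nat_lit 365) (nat_lit 14242959524133701664)) (.cons (.rf (nat_lit 366) (nat_lit 14242959524133701664)) (.cons (.br (nat_lit 2) (nat_lit 0) (.cons (.rf (nat_lit 358) (nat_lit 14242959524133701664)) (.cons (.rf (nat_lit 362) (nat_lit 14242959524133701664))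 (.cons (.rf (nat_lit 365) (nat_lit 14242959524133701664)) (.cons (.rf (nat_lit 366) (nat_lit 14242959524133701664)) .nil))))) .nil)))))) (.cons (.br (nat_lit 2) (nat_lit 0) (.cons (.rf (nat_lit 371) (nat_lit 14242959524133701664)) (.cons (.rf (nat_lit 374) (nat_lit 14242959524133701664)) (.cons (.rf (nat_lit 376) (nat_lit 14242959524133701664)) (.cons (.rf (nat_lit 377) (nat_lit 14242959524133701664)) (.cons (.br (nat_lit 2) (nat_lit 0) (.cons (.rf (nat_lit 371) (nat_lit 14242959524133701664)) (.cons (.rf (nat_lit 374) (nat_lit 14242959524133701664)) (.cons (.rf (nat_lit 376) (nat_lit 14242959524133701664)) (.cons (.rf (nat_lit 377) (nat_lit 14242959524133701664)) .nil))))) .nil)))))) (.cons (.br (nat_lit 2) (nat_lit 0) (.cons (.rf (nat_lit 381) (nat_lit 14242959524133701664)) (.cons (.rf (nat_lit 384) (nat_lit 14242959524133701664)) (.cons (.rf (nat_lit 386) (nat_lit 14242959524133701664)) (.cons (.rf (nat_lit 387) (nat_lit 14242959524133701664)) (.cons (.br (nat_lit 2) (nat_lit 0)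 (.cons (.rf (nat_lit 381) (nat_lit 14242959524133701664)) (.cons (.rf (nat_lit 384) (nat_lit 14242959524133701664)) (.cons (.rf (nat_lit 386) (nat_lit 14242959524133701664)) (.cons (.rf (nat_lit 387) (nat_lit 14242959524133701664)) .nil))))) .nil)))))) .nil)))))),
 (.br (nat_lit 2) (nat_lit 0) (.cons (.zr (nat_lit 309489732260448482361409539) (nat_lit 1208944266360906202481408) (nat_lit 5) (nat_lit 2)) (.cons (.br (nat_lit 10) (nat_lit 0) (.cons (.ev (nat_lit 324039361916638415537964034) (nat_lit 4)) .nil)) .nil))),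
 (.br (nat_lit 2) (nat_lit 0) (.cons (.zr (nat_lit 309489732260448482361409539) (nat_lit 1208944266360906202481408) (nat_lit 5) (nat_lit 2)) (.cons (.br (nat_lit 7) (nat_lit 0) (.cons (.ev (nat_lit 79228167255077846016170393856) (nat_lit 1)) .nil)) .nil))),
 (.br (nat_lit 2) (nat_lit 0) (.cons (.br (nat_lit 2) (nat_lit 0) .nil) .nil)),
 (.br (nat_lit 2) (nat_lit 0) (.cons (.rf (nat_lit 391) (nat_lit 247132686368)) (.cons (.br (nat_lit 2) (nat_lit 0) (.cons (.rf (nat_lit 391) (nat_lit 247132686368)) .nil)) .nil))),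
 (.br (nat_lit 8) (nat_lit 0) (.cons (.ev (nat_lit 18447025552981229569) (nat_lit 1)) (.cons (.rf (nat_lit 216) (nat_lit 284881422368)) .nil))),
 (.br (nat_lit 2) (nat_lit 0) (.cons (.br (nat_lit 7) (nat_lit 0) (.cons (.ev (nat_lit 309485009893685241546080513) (nat_lit 1)) .nil)) .nil)),
 (.br (nat_lit 9) (nat_lit 0) (.cons (.br (nat_lit 2) (nat_lit 0) (.cons (.br (nat_lit 7) (nat_lit 0) (.cons (.br (nat_lit 10) (nat_lit 0) (.cons (.ev (nat_lit 1213666633123047523024896) (nat_lit 1)) .nil)) (.cons (.rf (nat_lit 46) (nat_lit 8016963405856)) .nil))) (.cons (.br (nat_lit 10) (nat_lit 0) (.cons (.ev (nat_lit 1213666632842672057942273) (nat_lit 1)) (.cons (.rf (nat_lit 46) (nat_lit 11312277063712)) .nil))) (.cons (.rf (nat_lit 197) (nat_lit 422219712544)) .nil)))) (.cons (.br (nat_lit 7) (nat_lit 0) (.cons (.br (nat_lit 2) (nat_lit 0) (.cons (.br (nat_lit 10) (nat_lit 0) (.cons (.ev (nat_lit 317222201272675804159557633544) (nat_lit 4)) .nil)) (.cons (.zr (nat_lit 4740885566012369404160)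 (nat_lit 79537647524085683761797136384) (nat_lit 5) (nat_lit 9)) .nil))) (.cons (.br (nat_lit 10) (nat_lit 0) (.cons (.br (nat_lit 2) (nat_lit 0) (.cons (.ev (nat_lit 317222144604279705153564705798) (nat_lit 3)) .nil)) (.cons (.ev (nat_lit 1208925891672223229411584) (nat_lit 1)) .nil))) (.cons (.rf (nat_lit 217) (nat_lit 13194332192)) .nil)))) (.cons (.ev (nat_lit 4722366764348916891649) (nat_lit 1)) (.cons (.br (nat_lit 2) (nat_lit 0) (.cons (.rf (nat_lit 394) (nat_lit 14242959524133701664)) (.cons (.br (nat_lit 2) (nat_lit 0) (.cons (.rf (nat_lit 394) (nat_lit 14242959524133701664)) .nil)) .nil))) .nil))))),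
 (.br (nat_lit 2) (nat_lit 0) (.cons (.rf (nat_lit 395) (nat_lit 14242959524133701664)) (.cons (.br (nat_lit 4) (nat_lit 0) (.cons (.br (nat_lit 10) (nat_lit 0) (.cons (.ev (nat_lit 1208925891954797717750016) (nat_lit 1)) .nil)) (.cons (.ev (nat_lit 4722366764348916891649) (nat_lit 1)) (.cons (.br (nat_lit 7) (nat_lit 0) (.cons (.ev (nat_lit 18518801672042512384) (nat_lit 1)) .nil)) .nil)))) (.cons (.rf (nat_lit 211) (nat_lit 442839555704457248)) .nil)))),
 (.br (nat_lit 2) (nat_lit 0) (.cons (.rf (nat_lit 395) (nat_lit 14242959524133701664)) (.cons (.rf (nat_lit 396) (nat_lit 14242959524133701664)) (.cons (.br (nat_lit 4) (nat_lit 0) (.cons (.ev (nat_lit 18519084246530850816) (nat_lit 1)) (.cons (.rf (nat_lit 360) (nat_lit 14242959524133701664)) (.cons (.zr (nat_lit 79541274301544527662189380864) (nat_lit 92233720368614998018) (nat_lit 5) (nat_lit 10)) .nil)))) .nil)))),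
 (.br (nat_lit 2) (nat_lit 0) (.cons (.rf (nat_lit 395) (nat_lit 14242959524133701664)) (.cons (.rf (nat_lit 396) (nat_lit 14242959524133701664)) (.cons (.rf (nat_lit 397) (nat_lit 14242959524133701664)) (.cons (.br (nat_lit 2) (nat_lit 0) (.cons (.rf (nat_lit 395) (nat_lit 14242959524133701664)) (.cons (.rf (nat_lit 211) (nat_lit 442839555704457248)) (.cons (.rf (nat_lit 397) (nat_lit 14242959524133701664)) .nil)))) .nil))))),
 (.br (nat_lit 7) (nat_lit 0) (.cons (.ev (nat_lit 4722438540463699918849) (nat_lit 1)) .nil)),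
 (.br (nat_lit 2) (nat_lit 0) (.cons (.rf (nat_lit 395) (nat_lit 14242959524133701664)) (.cons (.rf (nat_lit 398) (nat_lit 14242959524133701664)) (.cons (.br (nat_lit 4) (nat_lit 0) (.cons (.rf (nat_lit 399) (nat_lit 445092449661061152)) (.cons (.ev (nat_lit 4722366764348916891649) (nat_lit 1)) .nil))) .nil)))),
 (.br (nat_lit 2) (nat_lit 0) (.cons (.rf (nat_lit 395) (nat_lit 14242959524133701664)) (.cons (.rf (nat_lit 398) (nat_lit 14242959524133701664)) (.cons (.rf (nat_lit 400) (nat_lit 14242959524133701664)) (.cons (.br (nat_lit 2) (nat_lit 0) (.cons (.rf (nat_lit 197) (nat_lit 422219712544)) (.cons (.rf (nat_lit 211) (nat_lit 442839555704457248)) (.cons (.rf (nat_lit 400) (nat_lit 14242959524133701664)) .nil)))) .nil)))))]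

theorem c11 : chkAll C T R L11 (nat_lit 367) = true := by decide +kernel

theorem l11 : (nat_lit 367) + L11.length = (nat_lit 402) := by decide +kernel

/-- part of the certificates -/
def L12 : List Prf := [(.br (nat_lit 2) (nat_lit 0) (.cons (.rf (nat_lit 395) (nat_lit 14242959524133701664)) (.cons (.rf (nat_lit 398) (nat_lit 14242959524133701664)) (.cons (.rf (nat_lit 401) (nat_lit 14242959524133701664)) (.cons (.br (nat_lit 2) (nat_lit 0) (.cons (.rf (nat_lit 395) (nat_lit 14242959524133701664)) (.cons (.rf (nat_lit 398) (nat_lit 14242959524133701664)) (.cons (.rf (nat_lit 401) (nat_lit 14242959524133701664)) .nil)))) .nil))))),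
 (.br (nat_lit 1) (nat_lit 0) (.cons (.rf (nat_lit 331) (nat_lit 14242959524133701664)) (.cons (.rf (nat_lit 356) (nat_lit 14242959524133701664)) (.cons (.rf (nat_lit 388) (nat_lit 14242959524133701664)) (.cons (.br (nat_lit 4) (nat_lit 0) (.cons (.br (nat_lit 9) (nat_lit 0) (.cons (.br (nat_lit 2) (nat_lit 0) (.cons (.br (nat_lit 7) (nat_lit 0) (.cons (.zr (nat_lit 309489732260448482361409539) (nat_lit 1208944266360906202481408) (nat_lit 5) (nat_lit 2)) (.cons (.br (nat_lit 10) (nat_lit 0) (.cons (.ev (nat_lit 324039361915516913677633550) (nat_lit 4)) .nil)) .nil))) (.cons (.rf (nat_lit 197) (nat_lit 353500235808)) (.cons (.br (nat_lit 12) (nat_lit 0) (.cons (.ev (nat_lit 79537652246452447011185623041) (nat_lit 1)) (.cons (.kr (nat_lit 309485009821626543701491713) (nat_lit 79228162514264338693055578368) (nat_lit 0) (nat_lit 2)) .nil))) .nil)))) (.cons (.br (nat_lit 7) (nat_lit 0) (.cons (.br (nat_lit 2) (nat_lit 0) (.cons (.zr (nat_lit 309489732259886631919616000) (nat_lit 1208944266640182155935744)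 (nat_lit 5) (nat_lit 7)) (.cons (.br (nat_lit 10) (nat_lit 0) (.cons (.ev (nat_lit 324039361913817068701093384) (nat_lit 4)) .nil)) .nil))) (.cons (.rf (nat_lit 217) (nat_lit 11046848544)) (.cons (.br (nat_lit 12) (nat_lit 0) (.cons (.ev (nat_lit 79537652246452166635720540416) (nat_lit 1)) (.cons (.kr (nat_lit 309485009821345068724781056) (nat_lit 79228162514264337593543950336) (nat_lit 11) (nat_lit 0)) .nil))) .nil)))) (.cons (.ev (nat_lit 4722366764348916891649) (nat_lit 1)) (.cons (.br (nat_lit 10) (nat_lit 0) (.cons (.br (nat_lit 2) (nat_lit 0) (.cons (.br (nat_lit 7) (nat_lit 0) (.cons (.ev (nat_lit 18518801672042512641) (nat_lit 1)) .nil)) (.cons (.rf (nat_lit 46) (nat_lit 13545559394336)) .nil))) (.cons (.br (nat_lit 2) (nat_lit 0) (.cons (.br (nat_lit 2) (nat_lit 0) (.cons (.ev (nat_lit 18518801672042512641) (nat_lit 1)) .nil)) (.cons (.br (nat_lit 2) (nat_lit 0) (.cons (.ev (nat_lit 18518801672042512641) (nat_lit 1)) .nil)) .nil))) (.cons (.kr (nat_lit 158456325028528676286599528448)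 (nat_lit 309485028268370617411043328) (nat_lit 5) (nat_lit 0)) .nil)))) .nil))))) (.cons (.br (nat_lit 9) (nat_lit 0) (.cons (.br (nat_lit 2) (nat_lit 0) (.cons (.rf (nat_lit 389) (nat_lit 14242959524133701664)) (.cons (.rf (nat_lit 390) (nat_lit 14242959524133701664)) (.cons (.br (nat_lit 2) (nat_lit 0) (.cons (.rf (nat_lit 389) (nat_lit 14242959524133701664)) (.cons (.rf (nat_lit 390) (nat_lit 14242959524133701664)) .nil))) .nil)))) (.cons (.rf (nat_lit 392) (nat_lit 353500235808)) (.cons (.ev (nat_lit 4722366483973451809024) (nat_lit 1)) (.cons (.br (nat_lit 10) (nat_lit 0) (.cons (.br (nat_lit 2) (nat_lit 0) (.cons (.br (nat_lit 2) (nat_lit 0) (.cons (.ev (nat_lit 18519084246530850816) (nat_lit 1)) .nil)) (.cons (.br (nat_lit 2) (nat_lit 0) (.cons (.ev (nat_lit 18519084246530850816) (nat_lit 1)) .nil)) .nil))) (.cons (.rf (nat_lit 392) (nat_lit 320214239264)) (.cons (.kr (nat_lit 158456325028528676286599528448) (nat_lit 309485028268370617411043328) (nat_lit 5) (nat_lit 0)) .nil))))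 .nil))))) (.cons (.ev (nat_lit 4722366764348916891904) (nat_lit 1)) (.cons (.rf (nat_lit 393) (nat_lit 362020817963040)) (.cons (.br (nat_lit 12) (nat_lit 0) (.cons (.kr (nat_lit 309485028268370617411043330) (nat_lit 158456325028528676286599528960) (nat_lit 0) (nat_lit 2)) (.cons (.kr (nat_lit 309485028268090241945960448) (nat_lit 158456325028528956662064611328) (nat_lit 5) (nat_lit 0)) (.cons (.kr (nat_lit 18446744073709551616) (nat_lit 79228162514264337593543950336) (nat_lit 8) (nat_lit 0)) (.cons (.rf (nat_lit 392) (nat_lit 320382011424)) .nil))))) .nil)))))) (.cons (.br (nat_lit 2) (nat_lit 0) (.cons (.rf (nat_lit 395) (nat_lit 14242959524133701664)) (.cons (.rf (nat_lit 398) (nat_lit 14242959524133701664)) (.cons (.rf (nat_lit 401) (nat_lit 14242959524133701664)) (.cons (.rf (nat_lit 402) (nat_lit 14242959524133701664)) (.cons (.br (nat_lit 2) (nat_lit 0) (.cons (.rf (nat_lit 395) (nat_lit 14242959524133701664)) (.cons (.rf (nat_lit 398) (nat_lit 14242959524133701664)) (.cons (.rf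 (nat_lit 401) (nat_lit 14242959524133701664)) (.cons (.rf (nat_lit 402) (nat_lit 14242959524133701664)) .nil))))) .nil)))))) .nil)))))),
 (.br (nat_lit 2) (nat_lit 0) (.cons (.br (nat_lit 7) (nat_lit 0) (.cons (.br (nat_lit 10) (nat_lit 0) (.cons (.ev (nat_lit 1213666633123047523024896) (nat_lit 1)) .nil)) (.cons (.ev (nat_lit 18518801672042512641) (nat_lit 1)) (.cons (.br (nat_lit 9) (nat_lit 0) (.cons (.ev (nat_lit 316748065244863349578270210) (nat_lit 3)) .nil)) .nil)))) (.cons (.br (nat_lit 7) (nat_lit 0) (.cons (.ev (nat_lit 18518801672042512641) (nat_lit 1)) (.cons (.rf (nat_lit 46) (nat_lit 8050249402400)) .nil))) (.cons (.br (nat_lit 7) (nat_lit 0) (.cons (.br (nat_lit 9) (nat_lit 0) (.cons (.ev (nat_lit 79229380921711253845828633089) (nat_lit 2)) .nil)) (.cons (.rf (nat_lit 46) (nat_lit 8118901770272)) .nil))) .nil)))),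
 (.br (nat_lit 9) (nat_lit 0) (.cons (.ev (nat_lit 79228176718330178576480141825) (nat_lit 2)) .nil)),
 (.br (nat_lit 9) (nat_lit 0) (.cons (.ev (nat_lit 1213666632842672057942016) (nat_lit 1)) .nil)),
 (.br (nat_lit 2) (nat_lit 0) (.cons (.br (nat_lit 2) (nat_lit 0) .nil) .nil)),
 (.br (nat_lit 2) (nat_lit 0) (.cons (.br (nat_lit 7) (nat_lit 0) (.cons (.ev (nat_lit 310698658007443667073171713) (nat_lit 1)) .nil)) .nil)),
 (.br (nat_lit 1) (nat_lit 0) (.cons (.kr (nat_lit 309485009821626543701491714) (nat_lit 18446745173221179904) (nat_lit 0) (nat_lit 2)) (.cons (.rf (nat_lit 356) (nat_lit 14242959524133701664)) (.cons (.rf (nat_lit 388) (nat_lit 14242959524133701664)) (.cons (.rf (nat_lit 403) (nat_lit 14242959524133701664)) (.cons (.br (nat_lit 4) (nat_lit 0) (.cons (.br (nat_lit 2) (nat_lit 0) (.cons (.rf (nat_lit 404) (nat_lit 14242959524133701664)) (.cons (.br (nat_lit 2) (nat_lit 0) (.cons (.rf (nat_lit 404) (nat_lit 14242959524133701664)) (.cons (.rf (nat_lit 195) (nat_lit 264951697703536672))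 (.cons (.rf (nat_lit 195) (nat_lit 265019867424458784)) .nil)))) (.cons (.br (nat_lit 2) (nat_lit 0) (.cons (.rf (nat_lit 404) (nat_lit 14242959524133701664)) (.cons (.rf (nat_lit 195) (nat_lit 264951697703536672)) (.cons (.zr (nat_lit 237684487542793013880160452608) (nat_lit 311902861460574335664128002) (nat_lit 5) (nat_lit 12)) .nil)))) (.cons (.br (nat_lit 2) (nat_lit 0) (.cons (.rf (nat_lit 404) (nat_lit 14242959524133701664)) (.cons (.rf (nat_lit 195) (nat_lit 265019867424458784)) (.cons (.zr (nat_lit 237684487542793013880160452608) (nat_lit 311902861460574335664128002) (nat_lit 5) (nat_lit 12)) .nil)))) .nil))))) (.cons (.br (nat_lit 7) (nat_lit 0) (.cons (.br (nat_lit 2) (nat_lit 0) (.cons (.br (nat_lit 2) (nat_lit 0) (.cons (.rf (nat_lit 405) (nat_lit 14242959524133701664)) (.cons (.rf (nat_lit 406) (nat_lit 14242959524133701664)) .nil))) (.cons (.br (nat_lit 2) (nat_lit 0) (.cons (.rf (nat_lit 405) (nat_lit 14242959524133701664)) (.cons (.ev (nat_lit 18519084246530850816) (nat_lit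 1)) .nil))) (.cons (.br (nat_lit 2) (nat_lit 0) (.cons (.rf (nat_lit 406) (nat_lit 14242959524133701664)) (.cons (.ev (nat_lit 18519084246530850816) (nat_lit 1)) .nil))) .nil)))) (.cons (.br (nat_lit 9) (nat_lit 0) (.cons (.br (nat_lit 10) (nat_lit 0) (.cons (.br (nat_lit 2) (nat_lit 0) (.cons (.ev (nat_lit 79228176718330178576480141825) (nat_lit 2)) .nil)) (.cons (.ev (nat_lit 158457538713824997677840990979) (nat_lit 2)) .nil))) (.cons (.zr (nat_lit 14185762365464775753984) (nat_lit 621387871281921603412164608) (nat_lit 5) (nat_lit 9)) (.cons (.ev (nat_lit 79228167255077846016170393856) (nat_lit 1)) .nil)))) (.cons (.rf (nat_lit 392) (nat_lit 423293454368)) (.cons (.rf (nat_lit 392) (nat_lit 356721461280)) .nil))))) (.cons (.br (nat_lit 9) (nat_lit 0) (.cons (.br (nat_lit 10) (nat_lit 0) (.cons (.br (nat_lit 2) (nat_lit 0) (.cons (.br (nat_lit 7) (nat_lit 0) (.cons (.ev (nat_lit 158768246834796828311207412228) (nat_lit 3)) .nil)) (.cons (.ev (nat_lit 79229380921710969072317039105)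 (nat_lit 2)) .nil))) (.cons (.br (nat_lit 7) (nat_lit 0) (.cons (.br (nat_lit 2) (nat_lit 0) (.cons (.ev (nat_lit 1213666633123047523024896) (nat_lit 1)) .nil)) (.cons (.ev (nat_lit 79229371458603036464971251968) (nat_lit 1)) .nil))) (.cons (.ev (nat_lit 79537652246452166635720540161) (nat_lit 1)) .nil)))) (.cons (.br (nat_lit 7) (nat_lit 0) (.cons (.br (nat_lit 2) (nat_lit 0) (.cons (.br (nat_lit 2) (nat_lit 0) (.cons (.ev (nat_lit 158457538713825278053306073090) (nat_lit 2)) .nil)) (.cons (.br (nat_lit 2) (nat_lit 0) (.cons (.ev (nat_lit 158457538713825278053306073090) (nat_lit 2)) .nil)) .nil))) (.cons (.zr (nat_lit 14185762365464775753984) (nat_lit 621387871281921603412164608) (nat_lit 5) (nat_lit 9)) (.cons (.rf (nat_lit 407) (nat_lit 13547639769120)) .nil)))) (.cons (.rf (nat_lit 392) (nat_lit 423360563232)) (.cons (.rf (nat_lit 392) (nat_lit 356788570144)) .nil))))) (.cons (.zr (nat_lit 1208944266360906202480896) (nat_lit 618970019642971612459827200) (nat_lit 5) (nat_lit 4))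 (.cons (.br (nat_lit 10) (nat_lit 0) (.cons (.br (nat_lit 2) (nat_lit 0) (.cons (.rf (nat_lit 408) (nat_lit 14242959524133701664)) (.cons (.br (nat_lit 2) (nat_lit 0) (.cons (.rf (nat_lit 408) (nat_lit 14242959524133701664)) .nil)) .nil))) (.cons (.rf (nat_lit 216) (nat_lit 356721461280)) (.cons (.rf (nat_lit 216) (nat_lit 356788570144)) .nil)))) .nil)))))) .nil)))))),
 (.br (nat_lit 1) (nat_lit 0) (.cons (.rf (nat_lit 331) (nat_lit 14242959524133701664)) (.cons (.rf (nat_lit 356) (nat_lit 14242959524133701664)) (.cons (.rf (nat_lit 388) (nat_lit 14242959524133701664)) (.cons (.rf (nat_lit 403) (nat_lit 14242959524133701664)) (.cons (.rf (nat_lit 409) (nat_lit 14242959524133701664)) (.cons (.br (nat_lit 1) (nat_lit 0) (.cons (.rf (nat_lit 331) (nat_lit 14242959524133701664)) (.cons (.rf (nat_lit 356) (nat_lit 14242959524133701664)) (.cons (.rf (nat_lit 388) (nat_lit 14242959524133701664)) (.cons (.rf (nat_lit 403) (nat_lit 14242959524133701664)) (.cons (.rf (nat_lit 409) (nat_lit 14242959524133701664))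 .nil)))))) .nil))))))),
 (.br (nat_lit 2) (nat_lit 0) (.cons (.ev (nat_lit 4722366483973451874304) (nat_lit 1)) (.cons (.br (nat_lit 3) (nat_lit 0) (.cons (.rf (nat_lit 49) (nat_lit 13514352756768)) (.cons (.br (nat_lit 10) (nat_lit 0) (.cons (.ev (nat_lit 79538856449977637459986481408) (nat_lit 1)) .nil)) .nil))) (.cons (.ev (nat_lit 18518801672042512384) (nat_lit 1)) .nil)))),
 (.br (nat_lit 2) (nat_lit 0) (.cons (.rf (nat_lit 410) (nat_lit 14242959524133700672)) (.cons (.rf (nat_lit 411) (nat_lit 14242959524133701664)) (.cons (.br (nat_lit 3) (nat_lit 0) (.cons (.br (nat_lit 10) (nat_lit 0) (.cons (.ev (nat_lit 1213666633123047522959361) (nat_lit 1)) .nil)) (.cons (.br (nat_lit 9) (nat_lit 0) (.cons (.ev (nat_lit 317224553011040164643378431488) (nat_lit 3)) .nil)) (.cons (.ev (nat_lit 79537647542604484334311244033) (nat_lit 1)) .nil)))) .nil)))),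
 (.br (nat_lit 2) (nat_lit 0) (.cons (.rf (nat_lit 410) (nat_lit 14242959524133700672)) (.cons (.rf (nat_lit 411) (nat_lit 14242959524133701664)) (.cons (.rf (nat_lit 412) (nat_lit 14242959524133701664)) (.cons (.br (nat_lit 2) (nat_lit 0) (.cons (.rf (nat_lit 378) (nat_lit 445092485094540352)) (.cons (.ev (nat_lit 18518801672042512384) (nat_lit 1)) (.cons (.rf (nat_lit 412) (nat_lit 14242959524133701664)) .nil)))) .nil))))),
 (.br (nat_lit 2) (nat_lit 0) (.cons (.rf (nat_lit 410) (nat_lit 14242959524133700672)) (.cons (.rf (nat_lit 413) (nat_lit 14242959524133701664)) (.cons (.br (nat_lit 3) (nat_lit 0) (.cons (.br (nat_lit 10) (nat_lit 0) (.cons (.ev (nat_lit 1213666633123047522959616) (nat_lit 1)) .nil)) (.cons (.br (nat_lit 7) (nat_lit 0) (.cons (.ev (nat_lit 311912435754502646824828930) (nat_lit 3)) .nil)) (.cons (.br (nat_lit 7) (nat_lit 0) (.cons (.ev (nat_lit 1213666633123047522959616) (nat_lit 1)) .nil)) .nil)))) .nil)))),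
 (.br (nat_lit 2) (nat_lit 0) (.cons (.rf (nat_lit 410) (nat_lit 14242959524133700672)) (.cons (.rf (nat_lit 413) (nat_lit 14242959524133701664)) (.cons (.rf (nat_lit 414) (nat_lit 14242959524133701664)) (.cons (.br (nat_lit 2) (nat_lit 0) (.cons (.rf (nat_lit 410) (nat_lit 14242959524133700672)) (.cons (.ev (nat_lit 18518801672042512384) (nat_lit 1)) (.cons (.rf (nat_lit 414) (nat_lit 14242959524133701664)) .nil)))) .nil))))),
 (.br (nat_lit 2) (nat_lit 0) (.cons (.rf (nat_lit 410) (nat_lit 14242959524133700672)) (.cons (.rf (nat_lit 413) (nat_lit 14242959524133701664)) (.cons (.rf (nat_lit 415) (nat_lit 14242959524133701664)) (.cons (.br (nat_lit 2) (nat_lit 0) (.cons (.rf (nat_lit 410) (nat_lit 14242959524133700672)) (.cons (.rf (nat_lit 413) (nat_lit 14242959524133701664)) (.cons (.rf (nat_lit 415) (nat_lit 14242959524133701664)) .nil)))) .nil))))),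
 (.br (nat_lit 2) (nat_lit 0) (.cons (.rf (nat_lit 410) (nat_lit 14242959524133700672)) (.cons (.br (nat_lit 3) (nat_lit 0) (.cons (.rf (nat_lit 49) (nat_lit 13547638753312)) (.cons (.ev (nat_lit 316738657261833519584249350) (nat_lit 3)) .nil))) (.cons (.ev (nat_lit 18518801672042512384) (nat_lit 1)) .nil)))),
 (.br (nat_lit 2) (nat_lit 0) (.cons (.ev (nat_lit 1208925891672223229476864) (nat_lit 1)) (.cons (.rf (nat_lit 417) (nat_lit 14242959524133701664)) (.cons (.br (nat_lit 3) (nat_lit 0) (.cons (.br (nat_lit 9) (nat_lit 0) (.cons (.ev (nat_lit 1213666633123047522959361) (nat_lit 1)) .nil)) (.cons (.ev (nat_lit 316738657261833519584249350) (nat_lit 3)) .nil))) .nil)))),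
 (.br (nat_lit 2) (nat_lit 0) (.cons (.rf (nat_lit 410) (nat_lit 14242959524133700672)) (.cons (.rf (nat_lit 417) (nat_lit 14242959524133701664)) (.cons (.rf (nat_lit 418) (nat_lit 14242959524133701664)) (.cons (.br (nat_lit 2) (nat_lit 0) (.cons (.rf (nat_lit 378) (nat_lit 445092485094540352)) (.cons (.ev (nat_lit 18518801672042512384) (nat_lit 1)) (.cons (.rf (nat_lit 418) (nat_lit 14242959524133701664)) .nil)))) .nil))))),
 (.br (nat_lit 2) (nat_lit 0) (.cons (.rf (nat_lit 410) (nat_lit 14242959524133700672)) (.cons (.rf (nat_lit 419) (nat_lit 14242959524133701664)) (.cons (.br (nat_lit 3) (nat_lit 0) (.cons (.ev (nat_lit 18518801672042512641) (nat_lit 1)) (.cons (.br (nat_lit 7) (nat_lit 0) (.cons (.ev (nat_lit 79538856449977354885498208513) (nat_lit 1)) .nil)) (.cons (.zr (nat_lit 311902861460579833222660098) (nat_lit 55341076646125897216) (nat_lit 10) (nat_lit 2)) .nil)))) .nil)))),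
 (.br (nat_lit 2) (nat_lit 0) (.cons (.rf (nat_lit 410) (nat_lit 14242959524133700672)) (.cons (.rf (nat_lit 419) (nat_lit 14242959524133701664)) (.cons (.rf (nat_lit 420) (nat_lit 14242959524133701664)) (.cons (.br (nat_lit 2) (nat_lit 0) (.cons (.rf (nat_lit 410) (nat_lit 14242959524133700672)) (.cons (.ev (nat_lit 18518801672042512384) (nat_lit 1)) (.cons (.rf (nat_lit 420) (nat_lit 14242959524133701664)) .nil)))) .nil))))),
 (.br (nat_lit 2) (nat_lit 0) (.cons (.rf (nat_lit 410) (nat_lit 14242959524133700672)) (.cons (.rf (nat_lit 419) (nat_lit 14242959524133701664)) (.cons (.rf (nat_lit 421) (nat_lit 14242959524133701664)) (.cons (.br (nat_lit 2) (nat_lit 0) (.cons (.rf (nat_lit 410) (nat_lit 14242959524133700672)) (.cons (.rf (nat_lit 419) (nat_lit 14242959524133701664)) (.cons (.rf (nat_lit 421) (nat_lit 14242959524133701664)) .nil)))) .nil))))),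
 (.br (nat_lit 10) (nat_lit 0) (.cons (.ev (nat_lit 79538856449977354885498208513) (nat_lit 1)) .nil)),
 (.br (nat_lit 2) (nat_lit 0) (.cons (.rf (nat_lit 410) (nat_lit 14242959524133700672)) (.cons (.br (nat_lit 9) (nat_lit 0) (.cons (.rf (nat_lit 423) (nat_lit 14242959524133701664)) (.cons (.ev (nat_lit 4722366764348916891649) (nat_lit 1)) (.cons (.ev (nat_lit 309499213886905676195758595) (nat_lit 2)) .nil)))) (.cons (.ev (nat_lit 18518801672042512384) (nat_lit 1)) .nil)))),
 (.br (nat_lit 2) (nat_lit 0) (.cons (.rf (nat_lit 410) (nat_lit 14242959524133700672)) (.cons (.rf (nat_lit 424) (nat_lit 14242959524133701664)) (.cons (.br (nat_lit 2) (nat_lit 0) (.cons (.rf (nat_lit 410) (nat_lit 14242959524133700672)) (.cons (.rf (nat_lit 424) (nat_lit 14242959524133701664)) (.cons (.ev (nat_lit 79228162514336395191876845824) (nat_lit 1)) .nil)))) (.cons (.ev (nat_lit 79228162514336395191876845824) (nat_lit 1)) .nil))))),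
 (.br (nat_lit 7) (nat_lit 0) (.cons (.ev (nat_lit 79538856449977354885498208513) (nat_lit 1)) .nil)),
 (.br (nat_lit 2) (nat_lit 0) (.cons (.rf (nat_lit 410) (nat_lit 14242959524133700672)) (.cons (.rf (nat_lit 425) (nat_lit 14242959524133701664)) (.cons (.br (nat_lit 9) (nat_lit 0) (.cons (.rf (nat_lit 426) (nat_lit 14242959524133701664)) (.cons (.ev (nat_lit 79537652246452166635720605953) (nat_lit 1)) (.cons (.ev (nat_lit 4722366764348916891649) (nat_lit 1)) .nil)))) .nil))))]

theorem c12 : chkAll C T R L12 (nat_lit 402) = true := by decide +kernel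

theorem l12 : (nat_lit 402) + L12.length = (nat_lit 428) := by decide +kernel

/-- part of the certificates -/
def L13 : List Prf := [(.br (nat_lit 2) (nat_lit 0) (.cons (.rf (nat_lit 410) (nat_lit 14242959524133700672)) (.cons (.rf (nat_lit 425) (nat_lit 14242959524133701664)) (.cons (.rf (nat_lit 427) (nat_lit 14242959524133701664)) (.cons (.br (nat_lit 2) (nat_lit 0) (.cons (.rf (nat_lit 410) (nat_lit 14242959524133700672)) (.cons (.ev (nat_lit 18518801672042512384) (nat_lit 1)) (.cons (.rf (nat_lit 427) (nat_lit 14242959524133701664)) .nil)))) .nil))))),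
 (.br (nat_lit 2) (nat_lit 0) (.cons (.rf (nat_lit 410) (nat_lit 14242959524133700672)) (.cons (.rf (nat_lit 425) (nat_lit 14242959524133701664)) (.cons (.rf (nat_lit 428) (nat_lit 14242959524133701664)) (.cons (.br (nat_lit 2) (nat_lit 0) (.cons (.rf (nat_lit 410) (nat_lit 14242959524133700672)) (.cons (.ev (nat_lit 79228162514336395191876845824) (nat_lit 1)) (.cons (.rf (nat_lit 428) (nat_lit 14242959524133701664)) .nil)))) .nil))))),
 (.br (nat_lit 1) (nat_lit 0) (.cons (.rf (nat_lit 331) (nat_lit 14242959524133701664)) (.cons (.rf (nat_lit 410) (nat_lit 14242959524133701664)) (.cons (.br (nat_lit 2) (nat_lit 0) (.cons (.rf (nat_lit 410) (nat_lit 14242959524133700672)) (.cons (.rf (nat_lit 413) (nat_lit 14242959524133701664)) (.cons (.rf (nat_lit 415) (nat_lit 14242959524133701664)) (.cons (.rf (nat_lit 416) (nat_lit 14242959524133701664)) (.cons (.br (nat_lit 2) (nat_lit 0) (.cons (.rf (nat_lit 410) (nat_lit 14242959524133700672)) (.cons (.rf (nat_lit 413) (nat_lit 14242959524133701664))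 (.cons (.rf (nat_lit 415) (nat_lit 14242959524133701664)) (.cons (.rf (nat_lit 416) (nat_lit 14242959524133701664)) .nil))))) .nil)))))) (.cons (.br (nat_lit 2) (nat_lit 0) (.cons (.rf (nat_lit 410) (nat_lit 14242959524133700672)) (.cons (.rf (nat_lit 419) (nat_lit 14242959524133701664)) (.cons (.rf (nat_lit 421) (nat_lit 14242959524133701664)) (.cons (.rf (nat_lit 422) (nat_lit 14242959524133701664)) (.cons (.br (nat_lit 2) (nat_lit 0) (.cons (.rf (nat_lit 410) (nat_lit 14242959524133700672)) (.cons (.rf (nat_lit 419) (nat_lit 14242959524133701664)) (.cons (.rf (nat_lit 421) (nat_lit 14242959524133701664)) (.cons (.rf (nat_lit 422) (nat_lit 14242959524133701664)) .nil))))) .nil)))))) (.cons (.br (nat_lit 2) (nat_lit 0) (.cons (.rf (nat_lit 410) (nat_lit 14242959524133700672)) (.cons (.rf (nat_lit 425) (nat_lit 14242959524133701664)) (.cons (.rf (nat_lit 428) (nat_lit 14242959524133701664)) (.cons (.rf (nat_lit 429) (nat_lit 14242959524133701664)) (.cons (.br (nat_lit 2) (nat_lit 0)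 (.cons (.rf (nat_lit 410) (nat_lit 14242959524133700672)) (.cons (.ev (nat_lit 79228162514336395191876845824) (nat_lit 1)) (.cons (.rf (nat_lit 428) (nat_lit 14242959524133701664)) (.cons (.rf (nat_lit 429) (nat_lit 14242959524133701664)) .nil))))) .nil)))))) .nil)))))),
 (.br (nat_lit 3) (nat_lit 0) (.cons (.rf (nat_lit 49) (nat_lit 12410579716128)) (.cons (.rf (nat_lit 399) (nat_lit 335738458128648224)) .nil))),
 (.br (nat_lit 7) (nat_lit 0) (.cons (.ev (nat_lit 79229376162450716567357423873) (nat_lit 1)) .nil)),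
 (.br (nat_lit 2) (nat_lit 0) (.cons (.ev (nat_lit 4722366483973451874304) (nat_lit 1)) (.cons (.rf (nat_lit 431) (nat_lit 445092485094541344)) (.cons (.br (nat_lit 3) (nat_lit 0) (.cons (.br (nat_lit 10) (nat_lit 0) (.cons (.ev (nat_lit 158780383464663547290826706436) (nat_lit 4)) .nil)) (.cons (.rf (nat_lit 432) (nat_lit 14242959524133701664)) (.cons (.kr (nat_lit 309485028268370617411043330) (nat_lit 158456325028528676286599528960) (nat_lit 0) (nat_lit 2)) .nil)))) .nil)))),
 (.br (nat_lit 2) (nat_lit 0) (.cons (.rf (nat_lit 410) (nat_lit 14242959524133700672)) (.cons (.rf (nat_lit 431) (nat_lit 445092485094541344)) (.cons (.br (nat_lit 9) (nat_lit 0) (.cons (.rf (nat_lit 432) (nat_lit 14133785716076939296)) (.cons (.zr (nat_lit 4740885566012369404160) (nat_lit 310693935640960801706082304) (nat_lit 5) (nat_lit 9)) (.cons (.ev (nat_lit 4722366483973451874561) (nat_lit 1)) .nil)))) .nil)))),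
 (.br (nat_lit 2) (nat_lit 0) (.cons (.rf (nat_lit 410) (nat_lit 14242959524133700672)) (.cons (.rf (nat_lit 433) (nat_lit 14242959524133701664)) (.cons (.rf (nat_lit 434) (nat_lit 14242959524133701664)) (.cons (.br (nat_lit 2) (nat_lit 0) (.cons (.rf (nat_lit 410) (nat_lit 14242959524133700672)) (.cons (.rf (nat_lit 433) (nat_lit 14242959524133701664)) (.cons (.rf (nat_lit 434) (nat_lit 14242959524133701664)) .nil)))) .nil))))),
 (.br (nat_lit 2) (nat_lit 0) (.cons (.rf (nat_lit 410) (nat_lit 14242959524133700672)) (.cons (.rf (nat_lit 435) (nat_lit 14242959524133701664)) (.cons (.br (nat_lit 2) (nat_lit 0) (.cons (.rf (nat_lit 197) (nat_lit 353499220000)) (.cons (.rf (nat_lit 431) (nat_lit 445092485094541344)) (.cons (.rf (nat_lit 431) (nat_lit 264948402389878816)) .nil)))) (.cons (.br (nat_lit 2) (nat_lit 0) (.cons (.rf (nat_lit 410) (nat_lit 14242959524133700672)) (.cons (.rf (nat_lit 435) (nat_lit 14242959524133701664)) (.cons (.rf (nat_lit 431) (nat_lit 264948402389878816)) .nil))))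 .nil))))),
 (.br (nat_lit 2) (nat_lit 0) (.cons (.rf (nat_lit 410) (nat_lit 14242959524133700672)) (.cons (.rf (nat_lit 435) (nat_lit 14242959524133701664)) (.cons (.rf (nat_lit 436) (nat_lit 14242959524133701664)) (.cons (.br (nat_lit 2) (nat_lit 0) (.cons (.rf (nat_lit 195) (nat_lit 264951697703535680)) (.cons (.rf (nat_lit 435) (nat_lit 14242959524133701664)) (.cons (.rf (nat_lit 431) (nat_lit 264948402389878816)) .nil)))) .nil))))),
 (.br (nat_lit 2) (nat_lit 0) (.cons (.ev (nat_lit 4722366483973451874304) (nat_lit 1)) (.cons (.br (nat_lit 7) (nat_lit 0) (.cons (.br (nat_lit 10) (nat_lit 0) (.cons (.ev (nat_lit 79538856449977637459986481408) (nat_lit 1)) .nil)) (.cons (.br (nat_lit 3) (nat_lit 0) (.cons (.ev (nat_lit 79538856449977637459986481408) (nat_lit 1)) .nil)) (.cons (.ev (nat_lit 79228167255077565640705310721) (nat_lit 1)) .nil)))) (.cons (.br (nat_lit 3) (nat_lit 0) (.cons (.rf (nat_lit 49) (nat_lit 11415254599712)) (.cons (.br (nat_lit 7) (nat_lit 0) (.cons (.ev (nat_lit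 158458747621197587844939448321) (nat_lit 2)) .nil)) .nil))) .nil)))),
 (.br (nat_lit 2) (nat_lit 0) (.cons (.rf (nat_lit 410) (nat_lit 14242959524133700672)) (.cons (.rf (nat_lit 438) (nat_lit 14242959524133701664)) (.cons (.br (nat_lit 9) (nat_lit 0) (.cons (.br (nat_lit 7) (nat_lit 0) (.cons (.ev (nat_lit 79229371458602753890482913281) (nat_lit 1)) .nil)) (.cons (.ev (nat_lit 79228167255077565640705310721) (nat_lit 1)) (.cons (.ev (nat_lit 4722366483973451874561) (nat_lit 1)) .nil)))) .nil)))),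
 (.br (nat_lit 2) (nat_lit 0) (.cons (.rf (nat_lit 410) (nat_lit 14242959524133700672)) (.cons (.rf (nat_lit 438) (nat_lit 14242959524133701664)) (.cons (.rf (nat_lit 439) (nat_lit 14242959524133701664)) (.cons (.br (nat_lit 2) (nat_lit 0) (.cons (.rf (nat_lit 410) (nat_lit 14242959524133700672)) (.cons (.rf (nat_lit 438) (nat_lit 14242959524133701664)) (.cons (.rf (nat_lit 439) (nat_lit 14242959524133701664)) .nil)))) .nil))))),
 (.br (nat_lit 2) (nat_lit 0) (.cons (.rf (nat_lit 410) (nat_lit 14242959524133700672)) (.cons (.rf (nat_lit 440) (nat_lit 14242959524133701664)) (.cons (.br (nat_lit 3) (nat_lit 0) (.cons (.br (nat_lit 7) (nat_lit 0) (.cons (.ev (nat_lit 1213666633123047522959616) (nat_lit 1)) .nil)) (.cons (.zr (nat_lit 79538856449905860245691826944) (nat_lit 55340233320673968128) (nat_lit 5) (nat_lit 1)) .nil))) .nil)))),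
 (.br (nat_lit 2) (nat_lit 0) (.cons (.rf (nat_lit 410) (nat_lit 14242959524133700672)) (.cons (.rf (nat_lit 440) (nat_lit 14242959524133701664)) (.cons (.rf (nat_lit 441) (nat_lit 14242959524133701664)) (.cons (.br (nat_lit 2) (nat_lit 0) (.cons (.rf (nat_lit 197) (nat_lit 422218696736)) (.cons (.rf (nat_lit 440) (nat_lit 14242959524133701664)) (.cons (.rf (nat_lit 441) (nat_lit 14242959524133701664)) .nil)))) .nil))))),
 (.br (nat_lit 2) (nat_lit 0) (.cons (.rf (nat_lit 410) (nat_lit 14242959524133700672)) (.cons (.rf (nat_lit 440) (nat_lit 14242959524133701664)) (.cons (.rf (nat_lit 442) (nat_lit 14242959524133701664)) (.cons (.br (nat_lit 2) (nat_lit 0) (.cons (.rf (nat_lit 195) (nat_lit 265019867424457792)) (.cons (.rf (nat_lit 440) (nat_lit 14242959524133701664)) (.cons (.rf (nat_lit 442) (nat_lit 14242959524133701664)) .nil)))) .nil))))),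
 (.br (nat_lit 1) (nat_lit 0) (.cons (.rf (nat_lit 331) (nat_lit 14242959524133701664)) (.cons (.rf (nat_lit 410) (nat_lit 14242959524133701664)) (.cons (.rf (nat_lit 430) (nat_lit 14242959524133701664)) (.cons (.br (nat_lit 2) (nat_lit 0) (.cons (.rf (nat_lit 410) (nat_lit 14242959524133700672)) (.cons (.rf (nat_lit 435) (nat_lit 14242959524133701664)) (.cons (.rf (nat_lit 436) (nat_lit 14242959524133701664)) (.cons (.rf (nat_lit 437) (nat_lit 14242959524133701664)) (.cons (.br (nat_lit 2) (nat_lit 0) (.cons (.rf (nat_lit 410) (nat_lit 14242959524133700672)) (.cons (.rf (nat_lit 435) (nat_lit 14242959524133701664)) (.cons (.rf (nat_lit 436) (nat_lit 14242959524133701664)) (.cons (.rf (nat_lit 437) (nat_lit 14242959524133701664)) .nil))))) .nil)))))) (.cons (.br (nat_lit 2) (nat_lit 0) (.cons (.rf (nat_lit 410) (nat_lit 14242959524133700672)) (.cons (.rf (nat_lit 440) (nat_lit 14242959524133701664)) (.cons (.rf (nat_lit 442) (nat_lit 14242959524133701664)) (.cons (.rf (nat_lit 443)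 (nat_lit 14242959524133701664)) (.cons (.br (nat_lit 2) (nat_lit 0) (.cons (.rf (nat_lit 410) (nat_lit 14242959524133700672)) (.cons (.rf (nat_lit 440) (nat_lit 14242959524133701664)) (.cons (.rf (nat_lit 442) (nat_lit 14242959524133701664)) (.cons (.rf (nat_lit 443) (nat_lit 14242959524133701664)) .nil))))) .nil)))))) .nil)))))),
 (.br (nat_lit 2) (nat_lit 0) (.cons (.rf (nat_lit 410) (nat_lit 14242959524133700672)) (.cons (.br (nat_lit 3) (nat_lit 0) (.cons (.br (nat_lit 9) (nat_lit 0) (.cons (.ev (nat_lit 158456329806451566367100502530) (nat_lit 2)) .nil)) (.cons (.rf (nat_lit 423) (nat_lit 14239581926452201504)) (.cons (.br (nat_lit 7) (nat_lit 0) (.cons (.ev (nat_lit 79228167255077846016170459136) (nat_lit 1)) .nil)) .nil)))) (.cons (.br (nat_lit 9) (nat_lit 0) (.cons (.rf (nat_lit 426) (nat_lit 14239581926452201504)) (.cons (.ev (nat_lit 79537652246452166635720605953) (nat_lit 1)) (.cons (.ev (nat_lit 4722366764348916891649) (nat_lit 1)) .nil)))) .nil)))),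
 (.br (nat_lit 2) (nat_lit 0) (.cons (.rf (nat_lit 410) (nat_lit 14242959524133700672)) (.cons (.rf (nat_lit 445) (nat_lit 14242959524133701664)) (.cons (.br (nat_lit 3) (nat_lit 0) (.cons (.ev (nat_lit 311902880197520227154788870) (nat_lit 3)) (.cons (.br (nat_lit 7) (nat_lit 0) (.cons (.ev (nat_lit 1109511032931473518748760672262) (nat_lit 4)) .nil)) .nil))) .nil)))),
 (.br (nat_lit 2) (nat_lit 0) (.cons (.rf (nat_lit 410) (nat_lit 14242959524133700672)) (.cons (.rf (nat_lit 445) (nat_lit 14242959524133701664)) (.cons (.rf (nat_lit 446) (nat_lit 14242959524133701664)) (.cons (.br (nat_lit 2) (nat_lit 0) (.cons (.rf (nat_lit 410) (nat_lit 14242959524133700672)) (.cons (.rf (nat_lit 445) (nat_lit 14242959524133701664)) (.cons (.rf (nat_lit 446) (nat_lit 14242959524133701664)) .nil)))) .nil))))),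
 (.br (nat_lit 2) (nat_lit 0) (.cons (.rf (nat_lit 410) (nat_lit 14242959524133700672)) (.cons (.rf (nat_lit 447) (nat_lit 14242959524133701664)) (.cons (.br (nat_lit 3) (nat_lit 0) (.cons (.br (nat_lit 7) (nat_lit 0) (.cons (.ev (nat_lit 158773120317298192746390883342) (nat_lit 4)) .nil)) (.cons (.ev (nat_lit 79231798736456710174623858691) (nat_lit 2)) .nil))) .nil)))),
 (.br (nat_lit 2) (nat_lit 0) (.cons (.rf (nat_lit 410) (nat_lit 14242959524133700672)) (.cons (.rf (nat_lit 447) (nat_lit 14242959524133701664)) (.cons (.rf (nat_lit 448) (nat_lit 14242959524133701664)) (.cons (.br (nat_lit 2) (nat_lit 0) (.cons (.rf (nat_lit 410) (nat_lit 14242959524133700672)) (.cons (.rf (nat_lit 447) (nat_lit 14242959524133701664)) (.cons (.rf (nat_lit 448) (nat_lit 14242959524133701664)) .nil)))) .nil))))),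
 (.br (nat_lit 2) (nat_lit 0) (.cons (.rf (nat_lit 410) (nat_lit 14242959524133700672)) (.cons (.rf (nat_lit 447) (nat_lit 14242959524133701664)) (.cons (.rf (nat_lit 449) (nat_lit 14242959524133701664)) (.cons (.br (nat_lit 2) (nat_lit 0) (.cons (.zr (nat_lit 237684487542793013880160256768) (nat_lit 311902861460574335664128002) (nat_lit 5) (nat_lit 12)) (.cons (.rf (nat_lit 447) (nat_lit 14242959524133701664)) (.cons (.rf (nat_lit 449) (nat_lit 14242959524133701664)) .nil)))) .nil))))),
 (.br (nat_lit 1) (nat_lit 0) (.cons (.rf (nat_lit 331) (nat_lit 14242959524133701664)) (.cons (.rf (nat_lit 410) (nat_lit 14242959524133701664)) (.cons (.rf (nat_lit 430) (nat_lit 14242959524133701664)) (.cons (.rf (nat_lit 444) (nat_lit 14242959524133701664)) (.cons (.br (nat_lit 2) (nat_lit 0) (.cons (.rf (nat_lit 410) (nat_lit 14242959524133700672)) (.cons (.rf (nat_lit 447) (nat_lit 14242959524133701664)) (.cons (.rf (nat_lit 449) (nat_lit 14242959524133701664)) (.cons (.rf (nat_lit 450) (nat_lit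 14242959524133701664)) (.cons (.br (nat_lit 2) (nat_lit 0) (.cons (.rf (nat_lit 410) (nat_lit 14242959524133700672)) (.cons (.rf (nat_lit 447) (nat_lit 14242959524133701664)) (.cons (.rf (nat_lit 449) (nat_lit 14242959524133701664)) (.cons (.rf (nat_lit 450) (nat_lit 14242959524133701664)) .nil))))) .nil)))))) .nil)))))),
 (.br (nat_lit 1) (nat_lit 0) (.cons (.rf (nat_lit 331) (nat_lit 14242959524133701664)) (.cons (.rf (nat_lit 410) (nat_lit 14242959524133701664)) (.cons (.rf (nat_lit 430) (nat_lit 14242959524133701664)) (.cons (.rf (nat_lit 444) (nat_lit 14242959524133701664)) (.cons (.rf (nat_lit 451) (nat_lit 14242959524133701664)) (.cons (.br (nat_lit 1) (nat_lit 0) (.cons (.rf (nat_lit 331) (nat_lit 14242959524133701664)) (.cons (.rf (nat_lit 410) (nat_lit 14242959524133701664)) (.cons (.rf (nat_lit 430) (nat_lit 14242959524133701664)) (.cons (.rf (nat_lit 444) (nat_lit 14242959524133701664)) (.cons (.rf (nat_lit 451) (nat_lit 14242959524133701664)) .nil)))))) .nil))))))),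
 (.br (nat_lit 10) (nat_lit 0) (.cons (.ev (nat_lit 79538856449977354885498208513) (nat_lit 1)) .nil)),
 (.br (nat_lit 3) (nat_lit 0) (.cons (.ev (nat_lit 79229376162450716567357423873) (nat_lit 1)) .nil)),
 (.br (nat_lit 2) (nat_lit 0) (.cons (.rf (nat_lit 410) (nat_lit 14242959524133700672)) (.cons (.rf (nat_lit 452) (nat_lit 14242959524133700672)) (.cons (.br (nat_lit 3) (nat_lit 0) (.cons (.rf (nat_lit 255) (nat_lit 13547639769120)) (.cons (.br (nat_lit 4) (nat_lit 0) (.cons (.ev (nat_lit 79538861190718525334326673665) (nat_lit 1)) .nil)) .nil))) (.cons (.br (nat_lit 4) (nat_lit 0) (.cons (.rf (nat_lit 453) (nat_lit 14242959524133701664)) (.cons (.ev (nat_lit 4722366764348916891649) (nat_lit 1)) (.cons (.rf (nat_lit 454) (nat_lit 14242959524133701664)) .nil)))) .nil))))),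
 (.br (nat_lit 2) (nat_lit 0) (.cons (.ev (nat_lit 1208925891672223229476864) (nat_lit 1)) (.cons (.rf (nat_lit 452) (nat_lit 14242959524133700672)) (.cons (.rf (nat_lit 455) (nat_lit 14242959524133701664)) (.cons (.br (nat_lit 12) (nat_lit 0) (.cons (.ev (nat_lit 1208925891954797717815553) (nat_lit 1)) (.cons (.rf (nat_lit 454) (nat_lit 14133785716076939296)) (.cons (.br (nat_lit 3) (nat_lit 0) (.cons (.ev (nat_lit 4741029683408058581251) (nat_lit 2)) .nil)) .nil)))) .nil)))))]

theorem c13 : chkAll C T R L13 (nat_lit 428) = true := by decide +kernel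

theorem l13 : (nat_lit 428) + L13.length = (nat_lit 457) := by decide +kernel

/-- part of the certificates -/
def L14 : List Prf := [(.br (nat_lit 2) (nat_lit 0) (.cons (.rf (nat_lit 410) (nat_lit 14242959524133700672)) (.cons (.rf (nat_lit 452) (nat_lit 14242959524133700672)) (.cons (.rf (nat_lit 455) (nat_lit 14242959524133701664)) (.cons (.rf (nat_lit 456) (nat_lit 14242959524133701664)) (.cons (.br (nat_lit 2) (nat_lit 0) (.cons (.rf (nat_lit 410) (nat_lit 14242959524133700672)) (.cons (.rf (nat_lit 452) (nat_lit 14242959524133700672)) (.cons (.rf (nat_lit 455) (nat_lit 14242959524133701664)) (.cons (.rf (nat_lit 456) (nat_lit 14242959524133701664)) .nil))))) .nil)))))),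
 (.br (nat_lit 2) (nat_lit 0) (.cons (.rf (nat_lit 410) (nat_lit 14242959524133700672)) (.cons (.rf (nat_lit 431) (nat_lit 445092485094540352)) (.cons (.rf (nat_lit 457) (nat_lit 14242959524133701664)) (.cons (.br (nat_lit 3) (nat_lit 0) (.cons (.rf (nat_lit 453) (nat_lit 14239581926452201504)) (.cons (.br (nat_lit 4) (nat_lit 0) (.cons (.ev (nat_lit 79538861190718805709791756288) (nat_lit 1)) .nil)) (.cons (.br (nat_lit 4) (nat_lit 0) (.cons (.ev (nat_lit 79228167255077846016170393856) (nat_lit 1)) .nil)) .nil)))) .nil))))),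
 (.br (nat_lit 2) (nat_lit 0) (.cons (.rf (nat_lit 410) (nat_lit 14242959524133700672)) (.cons (.rf (nat_lit 452) (nat_lit 14242959524133700672)) (.cons (.rf (nat_lit 457) (nat_lit 14242959524133701664)) (.cons (.rf (nat_lit 458) (nat_lit 14242959524133701664)) (.cons (.br (nat_lit 2) (nat_lit 0) (.cons (.rf (nat_lit 410) (nat_lit 14242959524133700672)) (.cons (.rf (nat_lit 452) (nat_lit 14242959524133700672)) (.cons (.rf (nat_lit 457) (nat_lit 14242959524133701664)) (.cons (.rf (nat_lit 458) (nat_lit 14242959524133701664)) .nil))))) .nil)))))),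
 (.br (nat_lit 2) (nat_lit 0) (.cons (.rf (nat_lit 410) (nat_lit 14242959524133700672)) (.cons (.rf (nat_lit 452) (nat_lit 14242959524133700672)) (.cons (.rf (nat_lit 457) (nat_lit 14242959524133701664)) (.cons (.rf (nat_lit 459) (nat_lit 14242959524133701664)) (.cons (.br (nat_lit 2) (nat_lit 0) (.cons (.rf (nat_lit 410) (nat_lit 14242959524133700672)) (.cons (.rf (nat_lit 452) (nat_lit 14242959524133700672)) (.cons (.rf (nat_lit 457) (nat_lit 14242959524133701664)) (.cons (.rf (nat_lit 459) (nat_lit 14242959524133701664)) .nil))))) .nil)))))),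
 (.br (nat_lit 2) (nat_lit 0) (.cons (.rf (nat_lit 410) (nat_lit 14242959524133700672)) (.cons (.rf (nat_lit 452) (nat_lit 14242959524133700672)) (.cons (.rf (nat_lit 457) (nat_lit 14242959524133701664)) (.cons (.rf (nat_lit 459) (nat_lit 14242959524133701664)) (.cons (.rf (nat_lit 460) (nat_lit 14242959524133701664)) (.cons (.br (nat_lit 2) (nat_lit 0) (.cons (.rf (nat_lit 410) (nat_lit 14242959524133700672)) (.cons (.rf (nat_lit 452) (nat_lit 14242959524133700672)) (.cons (.rf (nat_lit 457) (nat_lit 14242959524133701664)) (.cons (.rf (nat_lit 459) (nat_lit 14242959524133701664)) (.cons (.rf (nat_lit 460) (nat_lit 14242959524133701664)) .nil)))))) .nil))))))),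
 (.br (nat_lit 2) (nat_lit 0) (.cons (.rf (nat_lit 410) (nat_lit 14242959524133700672)) (.cons (.ev (nat_lit 18518801672042447104) (nat_lit 1)) (.cons (.rf (nat_lit 461) (nat_lit 14242959524133700672)) (.cons (.br (nat_lit 4) (nat_lit 0) (.cons (.br (nat_lit 9) (nat_lit 0) (.cons (.ev (nat_lit 4741029683408058581251) (nat_lit 2)) .nil)) (.cons (.ev (nat_lit 158765829020051087191586244100) (nat_lit 3)) (.cons (.br (nat_lit 3) (nat_lit 0) (.cons (.ev (nat_lit 326428953861147199093080590) (nat_lit 4)) .nil)) .nil)))) .nil))))),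
 (.br (nat_lit 2) (nat_lit 0) (.cons (.rf (nat_lit 410) (nat_lit 14242959524133700672)) (.cons (.ev (nat_lit 18518801672042447104) (nat_lit 1)) (.cons (.br (nat_lit 2) (nat_lit 0) (.cons (.rf (nat_lit 410) (nat_lit 14242959524133700672)) (.cons (.ev (nat_lit 18518801672042447104) (nat_lit 1)) (.cons (.rf (nat_lit 461) (nat_lit 14242959524133700672)) (.cons (.rf (nat_lit 267) (nat_lit 440584520807319584)) .nil))))) (.cons (.rf (nat_lit 462) (nat_lit 14242959524133701664)) (.cons (.br (nat_lit 2) (nat_lit 0) (.cons (.rf (nat_lit 410) (nat_lit 14242959524133700672)) (.cons (.ev (nat_lit 18518801672042447104) (nat_lit 1)) (.cons (.rf (nat_lit 267) (nat_lit 440584520807319584)) (.cons (.rf (nat_lit 462) (nat_lit 14242959524133701664)) .nil))))) .nil)))))),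
 (.br (nat_lit 7) (nat_lit 0) (.cons (.ev (nat_lit 4722438540463699918849) (nat_lit 1)) .nil)),
 (.br (nat_lit 2) (nat_lit 0) (.cons (.rf (nat_lit 410) (nat_lit 14242959524133700672)) (.cons (.rf (nat_lit 452) (nat_lit 14242959524133700672)) (.cons (.rf (nat_lit 461) (nat_lit 14242959524133700672)) (.cons (.br (nat_lit 4) (nat_lit 0) (.cons (.rf (nat_lit 464) (nat_lit 445092449661061152)) (.cons (.br (nat_lit 3) (nat_lit 0) (.cons (.ev (nat_lit 158770655242134309269760508930) (nat_lit 3)) .nil)) (.cons (.ev (nat_lit 4722366764348916891649) (nat_lit 1)) .nil)))) .nil))))),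
 (.br (nat_lit 2) (nat_lit 0) (.cons (.rf (nat_lit 410) (nat_lit 14242959524133700672)) (.cons (.rf (nat_lit 452) (nat_lit 14242959524133700672)) (.cons (.rf (nat_lit 463) (nat_lit 14242959524133701664)) (.cons (.rf (nat_lit 465) (nat_lit 14242959524133701664)) (.cons (.br (nat_lit 2) (nat_lit 0) (.cons (.rf (nat_lit 431) (nat_lit 373105191080297536)) (.cons (.rf (nat_lit 452) (nat_lit 14242959524133700672)) (.cons (.rf (nat_lit 267) (nat_lit 440584520807319584)) (.cons (.rf (nat_lit 465) (nat_lit 14242959524133701664)) .nil))))) .nil)))))),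
 (.br (nat_lit 2) (nat_lit 0) (.cons (.rf (nat_lit 410) (nat_lit 14242959524133700672)) (.cons (.rf (nat_lit 452) (nat_lit 14242959524133700672)) (.cons (.rf (nat_lit 463) (nat_lit 14242959524133701664)) (.cons (.rf (nat_lit 466) (nat_lit 14242959524133701664)) (.cons (.br (nat_lit 2) (nat_lit 0) (.cons (.rf (nat_lit 410) (nat_lit 14242959524133700672)) (.cons (.rf (nat_lit 452) (nat_lit 14242959524133700672)) (.cons (.rf (nat_lit 463) (nat_lit 14242959524133701664)) (.cons (.rf (nat_lit 466) (nat_lit 14242959524133701664)) .nil))))) .nil)))))),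
 (.br (nat_lit 1) (nat_lit 0) (.cons (.rf (nat_lit 331) (nat_lit 14242959524133701664)) (.cons (.rf (nat_lit 410) (nat_lit 14242959524133701664)) (.cons (.rf (nat_lit 452) (nat_lit 14242959524133701664)) (.cons (.rf (nat_lit 461) (nat_lit 14242959524133701664)) (.cons (.br (nat_lit 2) (nat_lit 0) (.cons (.rf (nat_lit 410) (nat_lit 14242959524133700672)) (.cons (.rf (nat_lit 452) (nat_lit 14242959524133700672)) (.cons (.rf (nat_lit 463) (nat_lit 14242959524133701664)) (.cons (.rf (nat_lit 466) (nat_lit 14242959524133701664)) (.cons (.rf (nat_lit 467) (nat_lit 14242959524133701664)) (.cons (.br (nat_lit 2) (nat_lit 0) (.cons (.rf (nat_lit 410) (nat_lit 14242959524133700672)) (.cons (.rf (nat_lit 452) (nat_lit 14242959524133700672)) (.cons (.rf (nat_lit 463) (nat_lit 14242959524133701664)) (.cons (.rf (nat_lit 466) (nat_lit 14242959524133701664)) (.cons (.rf (nat_lit 467) (nat_lit 14242959524133701664)) .nil)))))) .nil))))))) .nil)))))),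
 (.br (nat_lit 2) (nat_lit 0) (.cons (.ev (nat_lit 1208925891672223229476864) (nat_lit 1)) (.cons (.rf (nat_lit 452) (nat_lit 14242959524133700672)) (.cons (.rf (nat_lit 468) (nat_lit 14242959524133700672)) (.cons (.br (nat_lit 3) (nat_lit 0) (.cons (.ev (nat_lit 79538856449977354885498142721) (nat_lit 1)) (.cons (.ev (nat_lit 1208925891954797717815553) (nat_lit 1)) .nil))) .nil))))),
 (.br (nat_lit 2) (nat_lit 0) (.cons (.rf (nat_lit 410) (nat_lit 14242959524133700672)) (.cons (.rf (nat_lit 452) (nat_lit 14242959524133700672)) (.cons (.rf (nat_lit 468) (nat_lit 14242959524133700672)) (.cons (.rf (nat_lit 469) (nat_lit 14242959524133701664)) (.cons (.br (nat_lit 2) (nat_lit 0) (.cons (.rf (nat_lit 410) (nat_lit 14242959524133700672)) (.cons (.ev (nat_lit 79228162514336395191876911104) (nat_lit 1)) (.cons (.rf (nat_lit 468) (nat_lit 14242959524133700672)) (.cons (.rf (nat_lit 469) (nat_lit 14242959524133701664)) .nil))))) .nil)))))),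
 (.br (nat_lit 2) (nat_lit 0) (.cons (.rf (nat_lit 410) (nat_lit 14242959524133700672)) (.cons (.rf (nat_lit 452) (nat_lit 14242959524133700672)) (.cons (.rf (nat_lit 468) (nat_lit 14242959524133700672)) (.cons (.br (nat_lit 4) (nat_lit 0) (.cons (.zr (nat_lit 79229371458530977775699886848) (nat_lit 928455029464035206208028672) (nat_lit 5) (nat_lit 1)) (.cons (.ev (nat_lit 18519084246530785536) (nat_lit 1)) (.cons (.br (nat_lit 3) (nat_lit 0) (.cons (.ev (nat_lit 79538861190718805709791756288) (nat_lit 1)) .nil)) .nil)))) .nil))))),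
 (.br (nat_lit 2) (nat_lit 0) (.cons (.rf (nat_lit 410) (nat_lit 14242959524133700672)) (.cons (.rf (nat_lit 452) (nat_lit 14242959524133700672)) (.cons (.rf (nat_lit 468) (nat_lit 14242959524133700672)) (.cons (.rf (nat_lit 471) (nat_lit 14242959524133701664)) (.cons (.br (nat_lit 2) (nat_lit 0) (.cons (.rf (nat_lit 410) (nat_lit 14242959524133700672)) (.cons (.rf (nat_lit 452) (nat_lit 14242959524133700672)) (.cons (.rf (nat_lit 468) (nat_lit 14242959524133700672)) (.cons (.rf (nat_lit 471) (nat_lit 14242959524133701664)) .nil))))) .nil)))))),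
 (.br (nat_lit 2) (nat_lit 0) (.cons (.rf (nat_lit 410) (nat_lit 14242959524133700672)) (.cons (.rf (nat_lit 452) (nat_lit 14242959524133700672)) (.cons (.rf (nat_lit 470) (nat_lit 14242959524133701664)) (.cons (.rf (nat_lit 472) (nat_lit 14242959524133701664)) (.cons (.br (nat_lit 2) (nat_lit 0) (.cons (.rf (nat_lit 410) (nat_lit 14242959524133700672)) (.cons (.rf (nat_lit 452) (nat_lit 14242959524133700672)) (.cons (.rf (nat_lit 470) (nat_lit 14242959524133701664)) (.cons (.rf (nat_lit 472) (nat_lit 14242959524133701664)) .nil))))) .nil)))))),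
 (.br (nat_lit 1) (nat_lit 0) (.cons (.rf (nat_lit 331) (nat_lit 14242959524133701664)) (.cons (.rf (nat_lit 410) (nat_lit 14242959524133701664)) (.cons (.rf (nat_lit 452) (nat_lit 14242959524133701664)) (.cons (.rf (nat_lit 468) (nat_lit 14242959524133701664)) (.cons (.br (nat_lit 2) (nat_lit 0) (.cons (.rf (nat_lit 410) (nat_lit 14242959524133700672)) (.cons (.rf (nat_lit 452) (nat_lit 14242959524133700672)) (.cons (.rf (nat_lit 470) (nat_lit 14242959524133701664)) (.cons (.rf (nat_lit 472) (nat_lit 14242959524133701664)) (.cons (.rf (nat_lit 473) (nat_lit 14242959524133701664)) (.cons (.br (nat_lit 2) (nat_lit 0) (.cons (.rf (nat_lit 410) (nat_lit 14242959524133700672)) (.cons (.rf (nat_lit 452) (nat_lit 14242959524133700672)) (.cons (.rf (nat_lit 470) (nat_lit 14242959524133701664)) (.cons (.rf (nat_lit 472) (nat_lit 14242959524133701664)) (.cons (.rf (nat_lit 473) (nat_lit 14242959524133701664)) .nil)))))) .nil))))))) .nil)))))),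
 (.br (nat_lit 1) (nat_lit 0) (.cons (.rf (nat_lit 331) (nat_lit 14242959524133701664)) (.cons (.rf (nat_lit 410) (nat_lit 14242959524133701664)) (.cons (.rf (nat_lit 452) (nat_lit 14242959524133701664)) (.cons (.rf (nat_lit 468) (nat_lit 14242959524133701664)) (.cons (.rf (nat_lit 474) (nat_lit 14242959524133701664)) (.cons (.br (nat_lit 1) (nat_lit 0) (.cons (.rf (nat_lit 331) (nat_lit 14242959524133701664)) (.cons (.rf (nat_lit 410) (nat_lit 14242959524133701664)) (.cons (.rf (nat_lit 452) (nat_lit 14242959524133701664)) (.cons (.rf (nat_lit 468) (nat_lit 14242959524133701664)) (.cons (.rf (nat_lit 474) (nat_lit 14242959524133701664)) .nil)))))) .nil))))))),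
 (.br (nat_lit 2) (nat_lit 0) (.cons (.rf (nat_lit 331) (nat_lit 14242959524133701664)) (.cons (.rf (nat_lit 410) (nat_lit 14242959524133700672)) (.cons (.rf (nat_lit 452) (nat_lit 14242959524133700672)) (.cons (.rf (nat_lit 475) (nat_lit 14242959524133700672)) (.cons (.br (nat_lit 1) (nat_lit 0) (.cons (.rf (nat_lit 410) (nat_lit 14242959524133701664)) (.cons (.rf (nat_lit 431) (nat_lit 264948402389878816)) (.cons (.rf (nat_lit 475) (nat_lit 14242959524133701664)) (.cons (.br (nat_lit 4) (nat_lit 0) (.cons (.zr (nat_lit 158458742880167907752562132480) (nat_lit 928455047911060754927976448) (nat_lit 10) (nat_lit 1)) (.cons (.ev (nat_lit 79537652246452447011185688833) (nat_lit 1)) .nil))) .nil))))) .nil)))))),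
 (.br (nat_lit 2) (nat_lit 0) (.cons (.rf (nat_lit 410) (nat_lit 14242959524133700672)) (.cons (.rf (nat_lit 452) (nat_lit 14242959524133700672)) (.cons (.rf (nat_lit 475) (nat_lit 14242959524133700672)) (.cons (.rf (nat_lit 476) (nat_lit 14242959524133700672)) (.cons (.rf (nat_lit 476) (nat_lit 14242959524133701664)) .nil)))))),
 (.br (nat_lit 2) (nat_lit 0) (.cons (.rf (nat_lit 410) (nat_lit 14242959524133700672)) (.cons (.rf (nat_lit 452) (nat_lit 14242959524133700672)) (.cons (.rf (nat_lit 475) (nat_lit 14242959524133700672)) (.cons (.rf (nat_lit 476) (nat_lit 14242959524133700672)) (.cons (.br (nat_lit 2) (nat_lit 0) (.cons (.rf (nat_lit 410) (nat_lit 14242959524133700672)) (.cons (.rf (nat_lit 452) (nat_lit 14242959524133700672)) (.cons (.rf (nat_lit 475) (nat_lit 14242959524133700672)) (.cons (.rf (nat_lit 476) (nat_lit 14242959524133701664)) .nil))))) .nil)))))),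
 (.br (nat_lit 1) (nat_lit 0) (.cons (.rf (nat_lit 331) (nat_lit 14242959524133701664)) (.cons (.rf (nat_lit 410) (nat_lit 14242959524133701664)) (.cons (.rf (nat_lit 452) (nat_lit 14242959524133701664)) (.cons (.rf (nat_lit 475) (nat_lit 14242959524133701664)) (.cons (.br (nat_lit 2) (nat_lit 0) (.cons (.rf (nat_lit 410) (nat_lit 14242959524133700672)) (.cons (.rf (nat_lit 452) (nat_lit 14242959524133700672)) (.cons (.rf (nat_lit 475) (nat_lit 14242959524133700672)) (.cons (.rf (nat_lit 477) (nat_lit 14242959524133701664)) (.cons (.rf (nat_lit 478) (nat_lit 14242959524133701664)) (.cons (.br (nat_lit 2) (nat_lit 0) (.cons (.rf (nat_lit 410) (nat_lit 14242959524133700672)) (.cons (.rf (nat_lit 452) (nat_lit 14242959524133700672)) (.cons (.rf (nat_lit 475) (nat_lit 14242959524133700672)) (.cons (.rf (nat_lit 476) (nat_lit 14242959524133701664)) (.cons (.rf (nat_lit 478) (nat_lit 14242959524133701664)) .nil)))))) .nil))))))) .nil)))))),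
 (.br (nat_lit 1) (nat_lit 0) (.cons (.rf (nat_lit 331) (nat_lit 14242959524133701664)) (.cons (.rf (nat_lit 410) (nat_lit 14242959524133701664)) (.cons (.rf (nat_lit 452) (nat_lit 14242959524133701664)) (.cons (.rf (nat_lit 475) (nat_lit 14242959524133701664)) (.cons (.rf (nat_lit 479) (nat_lit 14242959524133701664)) (.cons (.br (nat_lit 1) (nat_lit 0) (.cons (.rf (nat_lit 331) (nat_lit 14242959524133701664)) (.cons (.rf (nat_lit 410) (nat_lit 14242959524133701664)) (.cons (.rf (nat_lit 452) (nat_lit 14242959524133701664)) (.cons (.rf (nat_lit 475) (nat_lit 14242959524133701664)) (.cons (.rf (nat_lit 479) (nat_lit 14242959524133701664)) .nil)))))) .nil))))))),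
 (.br (nat_lit 1) (nat_lit 0) (.cons (.rf (nat_lit 331) (nat_lit 14242959524133701664)) (.cons (.rf (nat_lit 410) (nat_lit 14242959524133701664)) (.cons (.rf (nat_lit 452) (nat_lit 14242959524133701664)) (.cons (.rf (nat_lit 475) (nat_lit 14242959524133701664)) (.cons (.rf (nat_lit 480) (nat_lit 14242959524133701664)) (.cons (.br (nat_lit 1) (nat_lit 0) (.cons (.rf (nat_lit 331) (nat_lit 14242959524133701664)) (.cons (.rf (nat_lit 410) (nat_lit 14242959524133701664)) (.cons (.rf (nat_lit 452) (nat_lit 14242959524133701664)) (.cons (.rf (nat_lit 475) (nat_lit 14242959524133701664)) (.cons (.rf (nat_lit 480) (nat_lit 14242959524133701664)) .nil)))))) .nil)))))))]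

theorem c14 : chkAll C T R L14 (nat_lit 457) = true := by decide +kernel

theorem l14 : (nat_lit 457) + L14.length = (nat_lit 482) := by decide +kernel

/-- part of the certificates -/
def L15 : List Prf := [(.br (nat_lit 8) (nat_lit 1) (.cons (.br (nat_lit 1) (nat_lit 0) (.cons (.rf (nat_lit 331) (nat_lit 14242959524133701664)) (.cons (.rf (nat_lit 410) (nat_lit 14242959524133701664)) (.cons (.rf (nat_lit 452) (nat_lit 14242959524133701664)) (.cons (.rf (nat_lit 475) (nat_lit 14242959524133701664)) (.cons (.rf (nat_lit 480) (nat_lit 14242959524133701664)) (.cons (.rf (nat_lit 481) (nat_lit 14242959524133701664)) (.cons (.br (nat_lit 1) (nat_lit 0) (.cons (.rf (nat_lit 331) (nat_lit 14242959524133701664)) (.cons (.rf (nat_lit 410) (nat_lit 14242959524133701664)) (.cons (.rf (nat_lit 452) (nat_lit 14242959524133701664)) (.cons (.rf (nat_lit 475) (nat_lit 14242959524133701664)) (.cons (.rf (nat_lit 480) (nat_lit 14242959524133701664)) (.cons (.rf (nat_lit 481) (nat_lit 14242959524133701664))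 .nil))))))) .nil)))))))) .nil)),
 (.br (nat_lit 2) (nat_lit 0) (.cons (.rf (nat_lit 482) (nat_lit 10604156446264493058)) (.cons (.br (nat_lit 9) (nat_lit 0) (.cons (.rf (nat_lit 294) (nat_lit 337009357139052576)) (.cons (.rf (nat_lit 298) (nat_lit 13908005145905184)) (.cons (.br (nat_lit 7) (nat_lit 0) (.cons (.kr (nat_lit 4722366483969156841472) (nat_lit 72339069014638592) (nat_lit 5) (nat_lit 0)) (.cons (.kr (nat_lit 309494454554311907526836224) (nat_lit 18591140736762118144) (nat_lit 5) (nat_lit 0)) (.cons (.kr (nat_lit 72339069014638593) (nat_lit 4722366483969156841728) (nat_lit 0) (nat_lit 2)) .nil)))) (.cons (.rf (nat_lit 294) (nat_lit 337000561054418945)) .nil))))) (.cons (.rf (nat_lit 482) (nat_lit 10669140085492122626)) (.cons (.rf (nat_lit 482) (nat_lit 10595993906225316866)) .nil))))),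
 (.br (nat_lit 1) (nat_lit 0) (.cons (.kr (nat_lit 1) (nat_lit 256) (nat_lit 0) (nat_lit 2)) (.cons (.rf (nat_lit 482) (nat_lit 10678393306707363841)) (.cons (.rf (nat_lit 482) (nat_lit 8480424685777225729)) (.cons (.kr (nat_lit 309485009821626543701491714) (nat_lit 18446745173221179904) (nat_lit 0) (nat_lit 2)) (.cons (.br (nat_lit 2) (nat_lit 0) (.cons (.br (nat_lit 2) (nat_lit 0) (.cons (.rf (nat_lit 482) (nat_lit 10604156446264493058)) (.cons (.rf (nat_lit 482) (nat_lit 8478137768231601154)) (.cons (.kr (nat_lit 309485009821345068724781058) (nat_lit 1099511693568) (nat_lit 0) (nat_lit 3)) (.cons (.kr (nat_lit 309485028268089142434332674) (nat_lit 282574488469504) (nat_lit 0) (nat_lit 1)) .nil))))) (.cons (.rf (nat_lit 483) (nat_lit 14242959524133701664)) (.cons (.br (nat_lit 2) (nat_lit 0) (.cons (.rf (nat_lit 482) (nat_lit 8478137768231601154)) (.cons (.rf (nat_lit 483) (nat_lit 14242959524133701664)) (.cons (.rf (nat_lit 482) (nat_lit 8255532535944348674)) (.cons (.rf (nat_lit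 482) (nat_lit 8254336299574789122)) .nil))))) (.cons (.br (nat_lit 2) (nat_lit 0) (.cons (.kr (nat_lit 309485009821345068724781058) (nat_lit 1099511693568) (nat_lit 0) (nat_lit 3)) (.cons (.rf (nat_lit 482) (nat_lit 10669140085492122626)) (.cons (.rf (nat_lit 482) (nat_lit 8255532535944348674)) (.cons (.kr (nat_lit 309485009821345068724781057) (nat_lit 1099511693312) (nat_lit 0) (nat_lit 1)) .nil))))) (.cons (.br (nat_lit 2) (nat_lit 0) (.cons (.kr (nat_lit 309485028268089142434332674) (nat_lit 282574488469504) (nat_lit 0) (nat_lit 1)) (.cons (.rf (nat_lit 482) (nat_lit 10595993906225316866)) (.cons (.rf (nat_lit 482) (nat_lit 8254336299574789122)) (.cons (.kr (nat_lit 309485009821345068724781057) (nat_lit 1099511693312) (nat_lit 0) (nat_lit 1)) .nil))))) .nil)))))) .nil)))))),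
 (.br (nat_lit 2) (nat_lit 0) (.cons (.rf (nat_lit 482) (nat_lit 10678393306707362818)) (.cons (.rf (nat_lit 482) (nat_lit 10604156446264493058)) (.cons (.kr (nat_lit 256) (nat_lit 65536) (nat_lit 1) (nat_lit 0)) (.cons (.rf (nat_lit 482) (nat_lit 10669140085492122626)) (.cons (.rf (nat_lit 482) (nat_lit 10595993906225316866)) .nil)))))),
 (.br (nat_lit 2) (nat_lit 0) (.cons (.kr (nat_lit 309485009821626543701491714) (nat_lit 18446745173221310464) (nat_lit 0) (nat_lit 1)) (.cons (.rf (nat_lit 484) (nat_lit 11939366117856904256)) (.cons (.rf (nat_lit 482) (nat_lit 10669140085492122626)) (.cons (.rf (nat_lit 482) (nat_lit 8255532535944348674)) (.cons (.kr (nat_lit 309485009821345068724781057) (nat_lit 1099511693312) (nat_lit 0) (nat_lit 1)) .nil)))))),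
 (.br (nat_lit 1) (nat_lit 0) (.cons (.rf (nat_lit 482) (nat_lit 10678393306707363841)) (.cons (.rf (nat_lit 482) (nat_lit 10604156446264494081)) (.cons (.br (nat_lit 2) (nat_lit 0) (.cons (.rf (nat_lit 484) (nat_lit 14242959524133700672)) (.cons (.rf (nat_lit 484) (nat_lit 11939366117856904256)) (.cons (.rf (nat_lit 485) (nat_lit 14242959524133701664)) (.cons (.rf (nat_lit 485) (nat_lit 14128050731112040480)) (.cons (.rf (nat_lit 486) (nat_lit 14242959524133701664)) (.cons (.rf (nat_lit 486) (nat_lit 11939366117856905248)) .nil))))))) (.cons (.rf (nat_lit 482) (nat_lit 10669140085492123649)) (.cons (.rf (nat_lit 482) (nat_lit 10595993906225317889)) .nil)))))),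
 (.br (nat_lit 1) (nat_lit 0) (.cons (.rf (nat_lit 484) (nat_lit 14242959524133701664)) (.cons (.rf (nat_lit 484) (nat_lit 11939366117856905248)) (.cons (.rf (nat_lit 487) (nat_lit 14242959524133701664)) (.cons (.br (nat_lit 1) (nat_lit 0) (.cons (.rf (nat_lit 482) (nat_lit 8480424685777225729)) (.cons (.rf (nat_lit 482) (nat_lit 8478137768231602177)) (.cons (.rf (nat_lit 487) (nat_lit 14242959524133701664)) (.cons (.rf (nat_lit 482) (nat_lit 8255532535944349697)) (.cons (.rf (nat_lit 482) (nat_lit 8254336299574790145)) .nil)))))) (.cons (.rf (nat_lit 486) (nat_lit 14242959524133700672)) (.cons (.rf (nat_lit 486) (nat_lit 11939366117856904256)) .nil))))))),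
 (.br (nat_lit 9) (nat_lit 0) (.cons (.ev (nat_lit 1213648258436567851401216) (nat_lit 1)) (.cons (.br (nat_lit 10) (nat_lit 0) (.cons (.ev (nat_lit 1213648186380073325035776) (nat_lit 1)) .nil)) .nil))),
 (.br (nat_lit 2) (nat_lit 0) (.cons (.rf (nat_lit 489) (nat_lit 407901468851537952)) (.cons (.rf (nat_lit 489) (nat_lit 410151071788435488)) .nil))),
 (.br (nat_lit 2) (nat_lit 0) (.cons (.rf (nat_lit 489) (nat_lit 407901468851537952)) (.cons (.br (nat_lit 10) (nat_lit 0) (.cons (.br (nat_lit 9) (nat_lit 0) (.cons (.zr (nat_lit 158458742880167904454060933632) (nat_lit 18889682105360206266371) (nat_lit 5) (nat_lit 0)) .nil)) (.cons (.ev (nat_lit 80157826506514098332262007040) (nat_lit 2)) .nil))) .nil))),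
 (.br (nat_lit 2) (nat_lit 0) (.cons (.rf (nat_lit 490) (nat_lit 14242959524133701664)) (.cons (.rf (nat_lit 491) (nat_lit 14242959524133701664)) (.cons (.rf (nat_lit 491) (nat_lit 11939366117856905248)) .nil)))),
 (.br (nat_lit 9) (nat_lit 0) (.cons (.ev (nat_lit 79228167255149622135231676673) (nat_lit 1)) .nil)),
 (.br (nat_lit 2) (nat_lit 0) (.cons (.rf (nat_lit 489) (nat_lit 407901468851537952)) (.cons (.br (nat_lit 7) (nat_lit 0) (.cons (.br (nat_lit 10) (nat_lit 0) (.cons (.ev (nat_lit 158768237390063295223916659202) (nat_lit 3)) .nil)) (.cons (.rf (nat_lit 493) (nat_lit 14242959524133701664)) (.cons (.rf (nat_lit 493) (nat_lit 11939366117856905248)) .nil)))) .nil))),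
 (.br (nat_lit 2) (nat_lit 0) (.cons (.rf (nat_lit 492) (nat_lit 14242959524133701664)) (.cons (.rf (nat_lit 494) (nat_lit 14242959524133701664)) (.cons (.rf (nat_lit 494) (nat_lit 11939366117856905248)) .nil)))),
 (.br (nat_lit 2) (nat_lit 0) (.cons (.rf (nat_lit 492) (nat_lit 14242959524133701664)) (.cons (.rf (nat_lit 495) (nat_lit 14242959524133701664)) (.cons (.br (nat_lit 2) (nat_lit 0) (.cons (.rf (nat_lit 492) (nat_lit 14242959524133701664)) (.cons (.rf (nat_lit 495) (nat_lit 14242959524133701664)) .nil))) .nil)))),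
 (.br (nat_lit 10) (nat_lit 0) (.cons (.rf (nat_lit 30) (nat_lit 13514353772576)) (.cons (.ev (nat_lit 310698658007724042538254593) (nat_lit 1)) .nil))),
 (.br (nat_lit 2) (nat_lit 0) (.cons (.rf (nat_lit 497) (nat_lit 14242959524133701664)) (.cons (.rf (nat_lit 497) (nat_lit 11939366117856905248)) .nil))),
 (.br (nat_lit 9) (nat_lit 0) (.cons (.ev (nat_lit 79228167255149622135231676673) (nat_lit 1)) .nil)),
 (.br (nat_lit 2) (nat_lit 0) (.cons (.rf (nat_lit 497) (nat_lit 14242959524133701664)) (.cons (.br (nat_lit 7) (nat_lit 0) (.cons (.br (nat_lit 10) (nat_lit 0) (.cons (.ev (nat_lit 158768256316711512574068655106) (nat_lit 3)) .nil)) (.cons (.rf (nat_lit 499) (nat_lit 14242959524133701664)) (.cons (.rf (nat_lit 499) (nat_lit 11939366117856905248)) .nil)))) .nil))),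
 (.br (nat_lit 2) (nat_lit 0) (.cons (.rf (nat_lit 498) (nat_lit 14242959524133701664)) (.cons (.rf (nat_lit 500) (nat_lit 14242959524133701664)) (.cons (.rf (nat_lit 500) (nat_lit 11939366117856905248)) .nil)))),
 (.br (nat_lit 2) (nat_lit 0) (.cons (.rf (nat_lit 497) (nat_lit 14242959524133701664)) (.cons (.rf (nat_lit 497) (nat_lit 8478352172898158624)) .nil))),
 (.br (nat_lit 2) (nat_lit 0) (.cons (.rf (nat_lit 498) (nat_lit 14242959524133701664)) (.cons (.rf (nat_lit 502) (nat_lit 14242959524133701664)) (.cons (.rf (nat_lit 502) (nat_lit 11939366117856905248)) .nil)))),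
 (.br (nat_lit 2) (nat_lit 0) (.cons (.rf (nat_lit 501) (nat_lit 14242959524133701664)) (.cons (.rf (nat_lit 502) (nat_lit 14242959524133701664)) (.cons (.br (nat_lit 2) (nat_lit 0) (.cons (.rf (nat_lit 501) (nat_lit 14242959524133701664)) (.cons (.rf (nat_lit 502) (nat_lit 14242959524133701664)) .nil))) .nil)))),
 (.br (nat_lit 2) (nat_lit 0) (.cons (.rf (nat_lit 30) (nat_lit 13547639769120)) (.cons (.br (nat_lit 10) (nat_lit 0) (.cons (.ev (nat_lit 79537652246452447011185623296) (nat_lit 1)) .nil)) .nil))),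
 (.br (nat_lit 9) (nat_lit 0) (.cons (.ev (nat_lit 311912435753383343954068480) (nat_lit 3)) (.cons (.ev (nat_lit 4740813508422643286016) (nat_lit 1)) (.cons (.ev (nat_lit 79537652264970968303468019968) (nat_lit 1)) .nil)))),
 (.br (nat_lit 9) (nat_lit 0) (.cons (.kr (nat_lit 309485028268370617411043330) (nat_lit 9444732966838802055680) (nat_lit 0) (nat_lit 2)) .nil)),
 (.br (nat_lit 7) (nat_lit 0) (.cons (.br (nat_lit 2) (nat_lit 0) (.cons (.rf (nat_lit 505) (nat_lit 14242959524133701664)) (.cons (.br (nat_lit 2) (nat_lit 0) (.cons (.rf (nat_lit 30) (nat_lit 13547639769120)) (.cons (.rf (nat_lit 506) (nat_lit 14242959524133701664)) .nil))) (.cons (.br (nat_lit 2) (nat_lit 0) (.cons (.rf (nat_lit 505) (nat_lit 14242959524133701664)) (.cons (.rf (nat_lit 506) (nat_lit 14242959524133701664)) .nil))) .nil)))) (.cons (.br (nat_lit 2) (nat_lit 0) (.cons (.rf (nat_lit 507) (nat_lit 14242959524133701664)) (.cons (.br (nat_lit 2) (nat_lit 0) (.cons (.rf (nat_lit 507) (nat_lit 14242959524133701664))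 .nil)) .nil))) (.cons (.kr (nat_lit 309485009821345068724781057) (nat_lit 72057594037928192) (nat_lit 0) (nat_lit 2)) .nil)))),
 (.br (nat_lit 2) (nat_lit 0) (.cons (.rf (nat_lit 508) (nat_lit 14242959524133701664)) (.cons (.br (nat_lit 9) (nat_lit 0) (.cons (.br (nat_lit 7) (nat_lit 0) (.cons (.ev (nat_lit 1213648258436567851401473) (nat_lit 1)) .nil)) (.cons (.kr (nat_lit 309485028268370617411043330) (nat_lit 9444732966838802055680) (nat_lit 0) (nat_lit 2)) .nil))) .nil))),
 (.br (nat_lit 2) (nat_lit 0) (.cons (.rf (nat_lit 508) (nat_lit 14242959524133701664)) (.cons (.rf (nat_lit 509) (nat_lit 14242959524133701664)) (.cons (.br (nat_lit 2) (nat_lit 0) (.cons (.rf (nat_lit 508) (nat_lit 14242959524133701664)) (.cons (.rf (nat_lit 509) (nat_lit 14242959524133701664)) .nil))) .nil)))),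
 (.br (nat_lit 2) (nat_lit 0) (.cons (.rf (nat_lit 508) (nat_lit 14242959524133701664)) (.cons (.rf (nat_lit 510) (nat_lit 14242959524133701664)) (.cons (.br (nat_lit 2) (nat_lit 0) (.cons (.rf (nat_lit 508) (nat_lit 14242959524133701664)) (.cons (.rf (nat_lit 510) (nat_lit 14242959524133701664)) .nil))) .nil)))),
 (.br (nat_lit 2) (nat_lit 0) (.cons (.rf (nat_lit 508) (nat_lit 14242959524133701664)) (.cons (.rf (nat_lit 510) (nat_lit 14242959524133701664)) (.cons (.rf (nat_lit 511) (nat_lit 14242959524133701664)) (.cons (.br (nat_lit 2) (nat_lit 0) (.cons (.rf (nat_lit 508) (nat_lit 14242959524133701664)) (.cons (.rf (nat_lit 510) (nat_lit 14242959524133701664)) (.cons (.rf (nat_lit 511) (nat_lit 14242959524133701664)) .nil)))) .nil))))),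
 (.br (nat_lit 1) (nat_lit 0) (.cons (.kr (nat_lit 1) (nat_lit 256) (nat_lit 0) (nat_lit 2)) (.cons (.br (nat_lit 2) (nat_lit 0) (.cons (.rf (nat_lit 492) (nat_lit 14242959524133701664)) (.cons (.rf (nat_lit 495) (nat_lit 14242959524133701664)) (.cons (.rf (nat_lit 496) (nat_lit 14242959524133701664)) (.cons (.rf (nat_lit 496) (nat_lit 11939366117856905248)) .nil))))) (.cons (.br (nat_lit 2) (nat_lit 0) (.cons (.rf (nat_lit 501) (nat_lit 14242959524133701664)) (.cons (.rf (nat_lit 503) (nat_lit 14242959524133701664)) (.cons (.rf (nat_lit 504) (nat_lit 14242959524133701664)) (.cons (.rf (nat_lit 504) (nat_lit 11939366117856905248)) .nil))))) (.cons (.rf (nat_lit 512) (nat_lit 14242959524133701664)) (.cons (.rf (nat_lit 512) (nat_lit 11939366117856905248)) .nil)))))),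
 (.br (nat_lit 8) (nat_lit 0) (.cons (.rf (nat_lit 46) (nat_lit 10113846970400)) (.cons (.br (nat_lit 9) (nat_lit 0) (.cons (.ev (nat_lit 310693935641242276682793216) (nat_lit 1)) .nil)) .nil))),
 (.br (nat_lit 10) (nat_lit 0) (.cons (.rf (nat_lit 46) (nat_lit 11317478000672)) (.cons (.ev (nat_lit 310698658007724042538254593) (nat_lit 1)) .nil))),
 (.br (nat_lit 2) (nat_lit 0) (.cons (.kr (nat_lit 309494454554311907526836224) (nat_lit 18591140736762118144) (nat_lit 5) (nat_lit 0)) (.cons (.rf (nat_lit 515) (nat_lit 14242959524133701664)) (.cons (.br (nat_lit 7) (nat_lit 0) (.cons (.br (nat_lit 10) (nat_lit 0) (.cons (.ev (nat_lit 1213666704899166584176641) (nat_lit 1)) .nil)) (.cons (.ev (nat_lit 79228167255077565640705310721) (nat_lit 1)) .nil))) .nil)))),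
 (.br (nat_lit 2) (nat_lit 0) (.cons (.rf (nat_lit 514) (nat_lit 445092485094541344)) (.cons (.rf (nat_lit 515) (nat_lit 14242959524133701664)) (.cons (.br (nat_lit 7) (nat_lit 0) (.cons (.br (nat_lit 10) (nat_lit 0) (.cons (.ev (nat_lit 79537647524157741360113254656) (nat_lit 1)) .nil)) (.cons (.ev (nat_lit 1208944338697771915739136) (nat_lit 1)) (.cons (.kr (nat_lit 928455047910779279883894786) (nat_lit 144397762564325376) (nat_lit 0) (nat_lit 1)) .nil)))) .nil)))),
 (.br (nat_lit 2) (nat_lit 0) (.cons (.br (nat_lit 2) (nat_lit 0) (.cons (.kr (nat_lit 309494454554311907526836224) (nat_lit 18591140736762118144) (nat_lit 5) (nat_lit 0)) (.cons (.rf (nat_lit 514) (nat_lit 445092485094541344)) (.cons (.rf (nat_lit 195) (nat_lit 372932569902220352)) .nil)))) (.cons (.rf (nat_lit 516) (nat_lit 14242959524133701664)) (.cons (.rf (nat_lit 517) (nat_lit 14242959524133701664)) (.cons (.br (nat_lit 2) (nat_lit 0) (.cons (.rf (nat_lit 195) (nat_lit 372932569902220352)) (.cons (.rf (nat_lit 516)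 (nat_lit 14242959524133701664)) (.cons (.rf (nat_lit 517) (nat_lit 14242959524133701664)) .nil)))) .nil)))))]

theorem c15 : chkAll C T R L15 (nat_lit 482) = true := by decide +kernel

theorem l15 : (nat_lit 482) + L15.length = (nat_lit 519) := by decide +kernel

/-- part of the certificates -/
def L16 : List Prf := [(.br (nat_lit 2) (nat_lit 0) (.cons (.rf (nat_lit 514) (nat_lit 445092485094541344)) (.cons (.kr (nat_lit 309494454554311907526836224) (nat_lit 18591140736762118144) (nat_lit 5) (nat_lit 0)) (.cons (.br (nat_lit 4) (nat_lit 0) (.cons (.br (nat_lit 10) (nat_lit 0) (.cons (.ev (nat_lit 79537647524157741360113254656) (nat_lit 1)) .nil)) (.cons (.br (nat_lit 9) (nat_lit 0) (.cons (.ev (nat_lit 79537647524157741360113254656) (nat_lit 1)) .nil)) (.cons (.ev (nat_lit 79537647524085682666563764224) (nat_lit 1)) .nil)))) .nil)))),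
 (.br (nat_lit 2) (nat_lit 0) (.cons (.rf (nat_lit 518) (nat_lit 14242959524133701664)) (.cons (.kr (nat_lit 309494454554311907526836224) (nat_lit 18591140736762118144) (nat_lit 5) (nat_lit 0)) (.cons (.rf (nat_lit 519) (nat_lit 14242959524133701664)) (.cons (.br (nat_lit 2) (nat_lit 0) (.cons (.rf (nat_lit 195) (nat_lit 372932569902220352)) (.cons (.kr (nat_lit 309494454554311907526836224) (nat_lit 18591140736762118144) (nat_lit 5) (nat_lit 0)) (.cons (.rf (nat_lit 519) (nat_lit 14242959524133701664)) .nil)))) .nil))))),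
 (.br (nat_lit 2) (nat_lit 0) (.cons (.rf (nat_lit 515) (nat_lit 14242959524133701664)) (.cons (.kr (nat_lit 309494454554311907526836224) (nat_lit 18591140736762118144) (nat_lit 5) (nat_lit 0)) (.cons (.br (nat_lit 4) (nat_lit 0) (.cons (.br (nat_lit 10) (nat_lit 0) (.cons (.ev (nat_lit 79228162532783420740563107841) (nat_lit 1)) .nil)) (.cons (.ev (nat_lit 1213666632842672057942273) (nat_lit 1)) (.cons (.br (nat_lit 7) (nat_lit 0) (.cons (.ev (nat_lit 79537652246524505704735244545) (nat_lit 1)) .nil)) .nil)))) .nil)))),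
 (.br (nat_lit 2) (nat_lit 0) (.cons (.rf (nat_lit 518) (nat_lit 14242959524133701664)) (.cons (.kr (nat_lit 309494454554311907526836224) (nat_lit 18591140736762118144) (nat_lit 5) (nat_lit 0)) (.cons (.rf (nat_lit 521) (nat_lit 14242959524133701664)) (.cons (.br (nat_lit 2) (nat_lit 0) (.cons (.rf (nat_lit 518) (nat_lit 14242959524133701664)) (.cons (.kr (nat_lit 309494454554311907526836224) (nat_lit 18591140736762118144) (nat_lit 5) (nat_lit 0)) (.cons (.rf (nat_lit 521) (nat_lit 14242959524133701664)) .nil)))) .nil))))),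
 (.br (nat_lit 2) (nat_lit 0) (.cons (.rf (nat_lit 518) (nat_lit 14242959524133701664)) (.cons (.rf (nat_lit 520) (nat_lit 14242959524133701664)) (.cons (.rf (nat_lit 522) (nat_lit 14242959524133701664)) (.cons (.br (nat_lit 2) (nat_lit 0) (.cons (.rf (nat_lit 518) (nat_lit 14242959524133701664)) (.cons (.rf (nat_lit 520) (nat_lit 14242959524133701664)) (.cons (.rf (nat_lit 522) (nat_lit 14242959524133701664)) .nil)))) .nil))))),
 (.br (nat_lit 2) (nat_lit 0) (.cons (.rf (nat_lit 518) (nat_lit 14242959524133701664)) (.cons (.rf (nat_lit 520) (nat_lit 14242959524133701664)) (.cons (.rf (nat_lit 522) (nat_lit 14242959524133701664)) (.cons (.rf (nat_lit 523) (nat_lit 14242959524133701664)) (.cons (.br (nat_lit 2) (nat_lit 0) (.cons (.rf (nat_lit 518) (nat_lit 14242959524133701664)) (.cons (.rf (nat_lit 520) (nat_lit 14242959524133701664)) (.cons (.rf (nat_lit 522) (nat_lit 14242959524133701664)) (.cons (.rf (nat_lit 523) (nat_lit 14242959524133701664)) .nil))))) .nil)))))),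
 (.br (nat_lit 2) (nat_lit 0) (.cons (.rf (nat_lit 195) (nat_lit 444988033637386272)) (.cons (.ev (nat_lit 1208925819615728703176704) (nat_lit 1)) (.cons (.br (nat_lit 10) (nat_lit 0) (.cons (.br (nat_lit 9) (nat_lit 0) (.cons (.zr (nat_lit 158458742880167904454060933632) (nat_lit 18889682105360206266371) (nat_lit 5) (nat_lit 0)) .nil)) (.cons (.ev (nat_lit 80157826469620047234889614080) (nat_lit 2)) .nil))) .nil)))),
 (.br (nat_lit 9) (nat_lit 0) (.cons (.ev (nat_lit 1213666704899166584176641) (nat_lit 1)) .nil)),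
 (.br (nat_lit 2) (nat_lit 0) (.cons (.rf (nat_lit 195) (nat_lit 444988033637386272)) (.cons (.rf (nat_lit 195) (nat_lit 445090288218769440)) (.cons (.br (nat_lit 7) (nat_lit 0) (.cons (.br (nat_lit 10) (nat_lit 0) (.cons (.ev (nat_lit 158768246798335120579038937090) (nat_lit 3)) .nil)) (.cons (.rf (nat_lit 526) (nat_lit 14242959524133701664)) (.cons (.br (nat_lit 9) (nat_lit 0) (.cons (.ev (nat_lit 79228167236703159536498769921) (nat_lit 1)) .nil)) .nil)))) .nil)))),
 (.br (nat_lit 2) (nat_lit 0) (.cons (.ev (nat_lit 1208925819615728703176704) (nat_lit 1)) (.cons (.rf (nat_lit 195) (nat_lit 445090288218769440)) (.cons (.br (nat_lit 7) (nat_lit 0) (.cons (.br (nat_lit 9) (nat_lit 0) (.cons (.ev (nat_lit 79537647524157741360113254656) (nat_lit 1)) .nil)) (.cons (.kr (nat_lit 928455047910779279883894786) (nat_lit 144397762564325376) (nat_lit 0) (nat_lit 1)) .nil))) .nil)))),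
 (.br (nat_lit 2) (nat_lit 0) (.cons (.rf (nat_lit 525) (nat_lit 14242959524133701664)) (.cons (.rf (nat_lit 527) (nat_lit 14242959524133701664)) (.cons (.rf (nat_lit 528) (nat_lit 14242959524133701664)) (.cons (.br (nat_lit 2) (nat_lit 0) (.cons (.rf (nat_lit 525) (nat_lit 14242959524133701664)) (.cons (.rf (nat_lit 527) (nat_lit 14242959524133701664)) (.cons (.rf (nat_lit 528) (nat_lit 14242959524133701664)) .nil)))) .nil))))),
 (.br (nat_lit 2) (nat_lit 0) (.cons (.rf (nat_lit 195) (nat_lit 444988033637386272)) (.cons (.ev (nat_lit 1208925891672223229411584) (nat_lit 1)) (.cons (.br (nat_lit 9) (nat_lit 0) (.cons (.br (nat_lit 10) (nat_lit 0) (.cons (.ev (nat_lit 1213666704899166584176896) (nat_lit 1)) .nil)) (.cons (.ev (nat_lit 1213666632842672057942016) (nat_lit 1)) (.cons (.br (nat_lit 4) (nat_lit 0) (.cons (.ev (nat_lit 1213666704899166584176896) (nat_lit 1)) .nil)) .nil)))) .nil)))),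
 (.br (nat_lit 2) (nat_lit 0) (.cons (.rf (nat_lit 529) (nat_lit 14242959524133701664)) (.cons (.rf (nat_lit 530) (nat_lit 14242959524133701664)) (.cons (.ev (nat_lit 1208925891672223229411584) (nat_lit 1)) (.cons (.br (nat_lit 2) (nat_lit 0) (.cons (.rf (nat_lit 529) (nat_lit 14242959524133701664)) (.cons (.rf (nat_lit 530) (nat_lit 14242959524133701664)) (.cons (.ev (nat_lit 1208925891672223229411584) (nat_lit 1)) .nil)))) .nil))))),
 (.br (nat_lit 2) (nat_lit 0) (.cons (.rf (nat_lit 195) (nat_lit 445090288218769440)) (.cons (.ev (nat_lit 1208925891672223229411584) (nat_lit 1)) (.cons (.br (nat_lit 7) (nat_lit 0) (.cons (.br (nat_lit 9) (nat_lit 0) (.cons (.ev (nat_lit 1213666704899166584176896) (nat_lit 1)) .nil)) (.cons (.ev (nat_lit 2422592525077845240905986) (nat_lit 2)) (.cons (.br (nat_lit 4) (nat_lit 0) (.cons (.ev (nat_lit 1213666704899166584176896) (nat_lit 1)) .nil)) .nil)))) .nil)))),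
 (.br (nat_lit 2) (nat_lit 0) (.cons (.rf (nat_lit 529) (nat_lit 14242959524133701664)) (.cons (.rf (nat_lit 531) (nat_lit 14242959524133701664)) (.cons (.rf (nat_lit 532) (nat_lit 14242959524133701664)) (.cons (.br (nat_lit 2) (nat_lit 0) (.cons (.rf (nat_lit 529) (nat_lit 14242959524133701664)) (.cons (.rf (nat_lit 531) (nat_lit 14242959524133701664)) (.cons (.rf (nat_lit 532) (nat_lit 14242959524133701664)) .nil)))) .nil))))),
 (.br (nat_lit 2) (nat_lit 0) (.cons (.rf (nat_lit 529) (nat_lit 14242959524133701664)) (.cons (.ev (nat_lit 1208925891672223229411584) (nat_lit 1)) (.cons (.rf (nat_lit 533) (nat_lit 14242959524133701664)) (.cons (.br (nat_lit 2) (nat_lit 0) (.cons (.rf (nat_lit 529) (nat_lit 14242959524133701664)) (.cons (.ev (nat_lit 1208925891672223229411584) (nat_lit 1)) (.cons (.rf (nat_lit 533) (nat_lit 14242959524133701664)) .nil)))) .nil))))),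
 (.br (nat_lit 2) (nat_lit 0) (.cons (.rf (nat_lit 514) (nat_lit 373105191080297536)) (.cons (.br (nat_lit 10) (nat_lit 0) (.cons (.br (nat_lit 9) (nat_lit 0) (.cons (.zr (nat_lit 158456329751039273244842655746) (nat_lit 3626777458844999920648960) (nat_lit 5) (nat_lit 1)) .nil)) (.cons (.ev (nat_lit 80157826469620047234889614080) (nat_lit 2)) .nil))) (.cons (.ev (nat_lit 79228162514264338697350545664) (nat_lit 1)) .nil)))),
 (.br (nat_lit 2) (nat_lit 0) (.cons (.rf (nat_lit 514) (nat_lit 373105191080297536)) (.cons (.br (nat_lit 7) (nat_lit 0) (.cons (.br (nat_lit 10) (nat_lit 0) (.cons (.ev (nat_lit 2422592453021350714409217) (nat_lit 2)) .nil)) (.cons (.br (nat_lit 9) (nat_lit 0) (.cons (.ev (nat_lit 79537652246524505704735244545) (nat_lit 1)) .nil)) (.cons (.br (nat_lit 9) (nat_lit 0) (.cons (.ev (nat_lit 1213648258436567851401473) (nat_lit 1)) .nil)) .nil)))) (.cons (.ev (nat_lit 79537647542532708215249961216) (nat_lit 1)) .nil)))),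
 (.br (nat_lit 2) (nat_lit 0) (.cons (.rf (nat_lit 535) (nat_lit 14242959524133701664)) (.cons (.rf (nat_lit 536) (nat_lit 14242959524133701664)) (.cons (.br (nat_lit 2) (nat_lit 0) (.cons (.rf (nat_lit 535) (nat_lit 14242959524133701664)) (.cons (.rf (nat_lit 536) (nat_lit 14242959524133701664)) (.cons (.ev (nat_lit 79537647542532708215249961216) (nat_lit 1)) .nil)))) (.cons (.ev (nat_lit 79537647542532708215249961216) (nat_lit 1)) .nil))))),
 (.br (nat_lit 2) (nat_lit 0) (.cons (.rf (nat_lit 514) (nat_lit 373105191080297536)) (.cons (.br (nat_lit 9) (nat_lit 0) (.cons (.br (nat_lit 10) (nat_lit 0) (.cons (.ev (nat_lit 1213648186380073325035776) (nat_lit 1)) .nil)) (.cons (.ev (nat_lit 1213648258436567851401216) (nat_lit 1)) (.cons (.br (nat_lit 4) (nat_lit 0) (.cons (.ev (nat_lit 1213648186380073325035776) (nat_lit 1)) .nil)) .nil)))) (.cons (.br (nat_lit 4) (nat_lit 0) (.cons (.rf (nat_lit 49) (nat_lit 11417335990304)) (.cons (.br (nat_lit 9) (nat_lit 0) (.cons (.ev (nat_lit 1208944338697771915739136)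 (nat_lit 1)) .nil)) .nil))) .nil)))),
 (.br (nat_lit 2) (nat_lit 0) (.cons (.rf (nat_lit 535) (nat_lit 14242959524133701664)) (.cons (.rf (nat_lit 538) (nat_lit 14242959524133701664)) (.cons (.br (nat_lit 4) (nat_lit 0) (.cons (.br (nat_lit 9) (nat_lit 0) (.cons (.ev (nat_lit 79229371458675655922369430016) (nat_lit 2)) .nil)) (.cons (.ev (nat_lit 158768227908726202011312194560) (nat_lit 3)) .nil))) .nil)))),
 (.br (nat_lit 2) (nat_lit 0) (.cons (.rf (nat_lit 535) (nat_lit 14242959524133701664)) (.cons (.rf (nat_lit 538) (nat_lit 14242959524133701664)) (.cons (.rf (nat_lit 539) (nat_lit 14242959524133701664)) (.cons (.br (nat_lit 2) (nat_lit 0) (.cons (.ev (nat_lit 79228162514264338697350545664) (nat_lit 1)) (.cons (.rf (nat_lit 538) (nat_lit 14242959524133701664)) (.cons (.rf (nat_lit 539) (nat_lit 14242959524133701664)) .nil)))) .nil))))),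
 (.br (nat_lit 2) (nat_lit 0) (.cons (.rf (nat_lit 537) (nat_lit 14242959524133701664)) (.cons (.rf (nat_lit 540) (nat_lit 14242959524133701664)) (.cons (.br (nat_lit 4) (nat_lit 0) (.cons (.br (nat_lit 9) (nat_lit 0) (.cons (.ev (nat_lit 1213648258436567851401473) (nat_lit 1)) .nil)) (.cons (.br (nat_lit 7) (nat_lit 0) (.cons (.ev (nat_lit 79537652246524505704735244545) (nat_lit 1)) .nil)) (.cons (.br (nat_lit 7) (nat_lit 0) (.cons (.ev (nat_lit 158456329806379505474527691011) (nat_lit 2)) .nil)) .nil)))) .nil)))),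
 (.br (nat_lit 2) (nat_lit 0) (.cons (.rf (nat_lit 537) (nat_lit 14242959524133701664)) (.cons (.rf (nat_lit 540) (nat_lit 14242959524133701664)) (.cons (.rf (nat_lit 541) (nat_lit 14242959524133701664)) (.cons (.br (nat_lit 2) (nat_lit 0) (.cons (.ev (nat_lit 79537647542532708215249961216) (nat_lit 1)) (.cons (.rf (nat_lit 540) (nat_lit 14242959524133701664)) (.cons (.rf (nat_lit 541) (nat_lit 14242959524133701664)) .nil)))) .nil))))),
 (.br (nat_lit 2) (nat_lit 0) (.cons (.rf (nat_lit 537) (nat_lit 14242959524133701664)) (.cons (.rf (nat_lit 540) (nat_lit 14242959524133701664)) (.cons (.rf (nat_lit 542) (nat_lit 14242959524133701664)) (.cons (.br (nat_lit 2) (nat_lit 0) (.cons (.ev (nat_lit 79537647542532708215249961216) (nat_lit 1)) (.cons (.rf (nat_lit 540) (nat_lit 14242959524133701664)) (.cons (.rf (nat_lit 542) (nat_lit 14242959524133701664)) .nil)))) .nil))))),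
 (.br (nat_lit 1) (nat_lit 0) (.cons (.rf (nat_lit 482) (nat_lit 10678393306707363841)) (.cons (.rf (nat_lit 513) (nat_lit 14242959524133701664)) (.cons (.rf (nat_lit 524) (nat_lit 14242959524133701664)) (.cons (.br (nat_lit 2) (nat_lit 0) (.cons (.rf (nat_lit 529) (nat_lit 14242959524133701664)) (.cons (.rf (nat_lit 531) (nat_lit 14242959524133701664)) (.cons (.rf (nat_lit 533) (nat_lit 14242959524133701664)) (.cons (.rf (nat_lit 534) (nat_lit 14242959524133701664)) (.cons (.br (nat_lit 2) (nat_lit 0) (.cons (.rf (nat_lit 529) (nat_lit 14242959524133701664)) (.cons (.rf (nat_lit 531) (nat_lit 14242959524133701664)) (.cons (.rf (nat_lit 533) (nat_lit 14242959524133701664)) (.cons (.rf (nat_lit 534) (nat_lit 14242959524133701664)) .nil))))) .nil)))))) (.cons (.br (nat_lit 2) (nat_lit 0) (.cons (.rf (nat_lit 537) (nat_lit 14242959524133701664)) (.cons (.rf (nat_lit 540) (nat_lit 14242959524133701664)) (.cons (.rf (nat_lit 542) (nat_lit 14242959524133701664)) (.cons (.rf (nat_lit 543)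 (nat_lit 14242959524133701664)) (.cons (.br (nat_lit 2) (nat_lit 0) (.cons (.ev (nat_lit 79537647542532708215249961216) (nat_lit 1)) (.cons (.rf (nat_lit 540) (nat_lit 14242959524133701664)) (.cons (.rf (nat_lit 542) (nat_lit 14242959524133701664)) (.cons (.rf (nat_lit 543) (nat_lit 14242959524133701664)) .nil))))) .nil)))))) .nil)))))),
 (.br (nat_lit 2) (nat_lit 0) (.cons (.rf (nat_lit 544) (nat_lit 11939366117856904256)) (.cons (.rf (nat_lit 197) (nat_lit 353500235808)) (.cons (.br (nat_lit 7) (nat_lit 0) (.cons (.ev (nat_lit 1213648186380073325035521) (nat_lit 1)) (.cons (.ev (nat_lit 79537652246452447011185623041) (nat_lit 1)) .nil))) .nil)))),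
 (.br (nat_lit 2) (nat_lit 0) (.cons (.ev (nat_lit 1208925819615728703176704) (nat_lit 1)) (.cons (.rf (nat_lit 197) (nat_lit 353500235808)) (.cons (.br (nat_lit 9) (nat_lit 0) (.cons (.ev (nat_lit 1213648186380073325035521) (nat_lit 1)) (.cons (.kr (nat_lit 309485028268089142434332673) (nat_lit 4722366483969156907008) (nat_lit 0) (nat_lit 1)) .nil))) .nil)))),
 (.br (nat_lit 2) (nat_lit 0) (.cons (.rf (nat_lit 544) (nat_lit 11939366117856904256)) (.cons (.rf (nat_lit 545) (nat_lit 14242959524133701664)) (.cons (.rf (nat_lit 546) (nat_lit 14242959524133701664)) (.cons (.br (nat_lit 2) (nat_lit 0) (.cons (.rf (nat_lit 544) (nat_lit 11939366117856904256)) (.cons (.rf (nat_lit 545) (nat_lit 14242959524133701664)) (.cons (.rf (nat_lit 546) (nat_lit 14242959524133701664)) .nil)))) .nil))))),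
 (.br (nat_lit 2) (nat_lit 0) (.cons (.rf (nat_lit 544) (nat_lit 11939366117856904256)) (.cons (.br (nat_lit 7) (nat_lit 0) (.cons (.rf (nat_lit 49) (nat_lit 13545559394336)) (.cons (.ev (nat_lit 1208944338697771915739393) (nat_lit 1)) .nil))) (.cons (.br (nat_lit 10) (nat_lit 0) (.cons (.br (nat_lit 7) (nat_lit 0) (.cons (.ev (nat_lit 79228167236703159536498769921) (nat_lit 1)) .nil)) (.cons (.ev (nat_lit 1213648186380073325035521) (nat_lit 1)) (.cons (.ev (nat_lit 1208925819615728703176961) (nat_lit 1)) .nil)))) .nil)))),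
 (.br (nat_lit 2) (nat_lit 0) (.cons (.ev (nat_lit 1208925819615728703176704) (nat_lit 1)) (.cons (.rf (nat_lit 548) (nat_lit 14242959524133701664)) (.cons (.br (nat_lit 4) (nat_lit 0) (.cons (.br (nat_lit 9) (nat_lit 0) (.cons (.ev (nat_lit 79537652264970968303468019968) (nat_lit 1)) .nil)) (.cons (.br (nat_lit 7) (nat_lit 0) (.cons (.ev (nat_lit 79537652264970968303468019968) (nat_lit 1)) .nil)) (.cons (.ev (nat_lit 79228162532711364246036873216) (nat_lit 1)) .nil)))) .nil)))),
 (.br (nat_lit 2) (nat_lit 0) (.cons (.rf (nat_lit 544) (nat_lit 11939366117856904256)) (.cons (.rf (nat_lit 548) (nat_lit 14242959524133701664)) (.cons (.rf (nat_lit 549) (nat_lit 14242959524133701664)) (.cons (.br (nat_lit 2) (nat_lit 0) (.cons (.rf (nat_lit 544) (nat_lit 11939366117856904256)) (.cons (.rf (nat_lit 548) (nat_lit 14242959524133701664)) (.cons (.rf (nat_lit 549) (nat_lit 14242959524133701664)) .nil)))) .nil)))))]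

theorem c16 : chkAll C T R L16 (nat_lit 519) = true := by decide +kernel

theorem l16 : (nat_lit 519) + L16.length = (nat_lit 551) := by decide +kernel

/-- part of the certificates -/
def L17 : List Prf := [(.br (nat_lit 7) (nat_lit 0) (.cons (.ev (nat_lit 1213648186380073325035521) (nat_lit 1)) (.cons (.ev (nat_lit 4740813508422643286016) (nat_lit 1)) (.cons (.kr (nat_lit 309485028268090241945960448) (nat_lit 144396663052566528) (nat_lit 5) (nat_lit 0)) .nil)))),
 (.br (nat_lit 2) (nat_lit 0) (.cons (.rf (nat_lit 197) (nat_lit 353500235808)) (.cons (.rf (nat_lit 550) (nat_lit 14242959524133701664)) (.cons (.br (nat_lit 4) (nat_lit 0) (.cons (.rf (nat_lit 551) (nat_lit 14242959524133701664)) (.cons (.rf (nat_lit 49) (nat_lit 8053369964576)) .nil))) .nil)))),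
 (.br (nat_lit 2) (nat_lit 0) (.cons (.rf (nat_lit 547) (nat_lit 14242959524133701664)) (.cons (.rf (nat_lit 550) (nat_lit 14242959524133701664)) (.cons (.rf (nat_lit 552) (nat_lit 14242959524133701664)) (.cons (.br (nat_lit 2) (nat_lit 0) (.cons (.rf (nat_lit 547) (nat_lit 14242959524133701664)) (.cons (.rf (nat_lit 550) (nat_lit 14242959524133701664)) (.cons (.rf (nat_lit 552) (nat_lit 14242959524133701664)) .nil)))) .nil))))),
 (.br (nat_lit 2) (nat_lit 0) (.cons (.rf (nat_lit 547) (nat_lit 14242959524133701664)) (.cons (.rf (nat_lit 550) (nat_lit 14242959524133701664)) (.cons (.rf (nat_lit 553) (nat_lit 14242959524133701664)) (.cons (.br (nat_lit 2) (nat_lit 0) (.cons (.rf (nat_lit 547) (nat_lit 14242959524133701664)) (.cons (.rf (nat_lit 550) (nat_lit 14242959524133701664)) (.cons (.rf (nat_lit 553) (nat_lit 14242959524133701664)) .nil)))) .nil))))),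
 (.br (nat_lit 2) (nat_lit 0) (.cons (.rf (nat_lit 515) (nat_lit 11939366117856904256)) (.cons (.rf (nat_lit 515) (nat_lit 8480601707115578432)) (.cons (.rf (nat_lit 197) (nat_lit 422219712544)) .nil)))),
 (.br (nat_lit 9) (nat_lit 0) (.cons (.br (nat_lit 7) (nat_lit 0) (.cons (.ev (nat_lit 79228167255149622135231676673) (nat_lit 1)) .nil)) (.cons (.rf (nat_lit 46) (nat_lit 11415255615520)) .nil))),
 (.br (nat_lit 2) (nat_lit 0) (.cons (.rf (nat_lit 544) (nat_lit 11939366117856904256)) (.cons (.rf (nat_lit 555) (nat_lit 14242959524133701664)) (.cons (.br (nat_lit 2) (nat_lit 0) (.cons (.rf (nat_lit 544) (nat_lit 11939366117856904256)) (.cons (.rf (nat_lit 555) (nat_lit 14242959524133701664)) (.cons (.rf (nat_lit 556) (nat_lit 14242959524133701664)) .nil)))) (.cons (.br (nat_lit 2) (nat_lit 0) (.cons (.rf (nat_lit 195) (nat_lit 373102994204525632)) (.cons (.rf (nat_lit 197) (nat_lit 422219712544)) (.cons (.rf (nat_lit 556) (nat_lit 14242959524133701664)) .nil)))) .nil))))),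
 (.br (nat_lit 2) (nat_lit 0) (.cons (.rf (nat_lit 555) (nat_lit 14242959524133701664)) (.cons (.br (nat_lit 4) (nat_lit 0) (.cons (.br (nat_lit 10) (nat_lit 0) (.cons (.ev (nat_lit 79228162532783420740563107841) (nat_lit 1)) .nil)) (.cons (.ev (nat_lit 1213666632842672057942273) (nat_lit 1)) (.cons (.br (nat_lit 7) (nat_lit 0) (.cons (.ev (nat_lit 79537652246524505704735244545) (nat_lit 1)) .nil)) .nil)))) (.cons (.rf (nat_lit 431) (nat_lit 373105191080298528)) .nil)))),
 (.br (nat_lit 7) (nat_lit 0) (.cons (.ev (nat_lit 79228167255149622135231676673) (nat_lit 1)) .nil)),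
 (.br (nat_lit 2) (nat_lit 0) (.cons (.rf (nat_lit 544) (nat_lit 11939366117856904256)) (.cons (.rf (nat_lit 558) (nat_lit 14242959524133701664)) (.cons (.br (nat_lit 4) (nat_lit 0) (.cons (.br (nat_lit 9) (nat_lit 0) (.cons (.ev (nat_lit 1213648258436567851401473) (nat_lit 1)) .nil)) (.cons (.rf (nat_lit 559) (nat_lit 14242959524133701664)) (.cons (.ev (nat_lit 475685713742559626505673244672) (nat_lit 3)) .nil)))) .nil)))),
 (.br (nat_lit 2) (nat_lit 0) (.cons (.rf (nat_lit 544) (nat_lit 11939366117856904256)) (.cons (.rf (nat_lit 558) (nat_lit 14242959524133701664)) (.cons (.rf (nat_lit 560) (nat_lit 14242959524133701664)) (.cons (.br (nat_lit 2) (nat_lit 0) (.cons (.rf (nat_lit 195) (nat_lit 373102994204525632)) (.cons (.rf (nat_lit 431) (nat_lit 373105191080298528)) (.cons (.rf (nat_lit 560) (nat_lit 14242959524133701664)) .nil)))) .nil))))),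
 (.br (nat_lit 2) (nat_lit 0) (.cons (.rf (nat_lit 555) (nat_lit 14242959524133701664)) (.cons (.rf (nat_lit 561) (nat_lit 14242959524133701664)) (.cons (.rf (nat_lit 431) (nat_lit 265018768918448160)) .nil)))),
 (.br (nat_lit 2) (nat_lit 0) (.cons (.rf (nat_lit 555) (nat_lit 14242959524133701664)) (.cons (.rf (nat_lit 561) (nat_lit 14242959524133701664)) (.cons (.rf (nat_lit 562) (nat_lit 14242959524133701664)) (.cons (.br (nat_lit 2) (nat_lit 0) (.cons (.rf (nat_lit 197) (nat_lit 422219712544)) (.cons (.rf (nat_lit 431) (nat_lit 373105191080298528)) (.cons (.rf (nat_lit 431) (nat_lit 265018768918448160)) .nil)))) .nil))))),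
 (.br (nat_lit 2) (nat_lit 0) (.cons (.rf (nat_lit 557) (nat_lit 14242959524133701664)) (.cons (.rf (nat_lit 561) (nat_lit 14242959524133701664)) (.cons (.rf (nat_lit 563) (nat_lit 14242959524133701664)) (.cons (.br (nat_lit 2) (nat_lit 0) (.cons (.rf (nat_lit 556) (nat_lit 14242959524133701664)) (.cons (.rf (nat_lit 561) (nat_lit 14242959524133701664)) (.cons (.rf (nat_lit 431) (nat_lit 265018768918448160)) .nil)))) .nil))))),
 (.br (nat_lit 1) (nat_lit 0) (.cons (.rf (nat_lit 482) (nat_lit 8480424685777225729)) (.cons (.rf (nat_lit 513) (nat_lit 14242959524133701664)) (.cons (.rf (nat_lit 544) (nat_lit 14242959524133701664)) (.cons (.br (nat_lit 2) (nat_lit 0) (.cons (.rf (nat_lit 547) (nat_lit 14242959524133701664)) (.cons (.rf (nat_lit 550) (nat_lit 14242959524133701664)) (.cons (.rf (nat_lit 553) (nat_lit 14242959524133701664)) (.cons (.rf (nat_lit 554) (nat_lit 14242959524133701664)) (.cons (.br (nat_lit 2) (nat_lit 0) (.cons (.rf (nat_lit 547) (nat_lit 14242959524133701664))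 (.cons (.rf (nat_lit 550) (nat_lit 14242959524133701664)) (.cons (.rf (nat_lit 553) (nat_lit 14242959524133701664)) (.cons (.rf (nat_lit 554) (nat_lit 14242959524133701664)) .nil))))) .nil)))))) (.cons (.br (nat_lit 2) (nat_lit 0) (.cons (.rf (nat_lit 557) (nat_lit 14242959524133701664)) (.cons (.rf (nat_lit 561) (nat_lit 14242959524133701664)) (.cons (.rf (nat_lit 563) (nat_lit 14242959524133701664)) (.cons (.rf (nat_lit 564) (nat_lit 14242959524133701664)) (.cons (.br (nat_lit 2) (nat_lit 0) (.cons (.rf (nat_lit 557) (nat_lit 14242959524133701664)) (.cons (.rf (nat_lit 561) (nat_lit 14242959524133701664)) (.cons (.rf (nat_lit 563) (nat_lit 14242959524133701664)) (.cons (.rf (nat_lit 564) (nat_lit 14242959524133701664)) .nil))))) .nil)))))) .nil)))))),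
 (.br (nat_lit 2) (nat_lit 0) (.cons (.rf (nat_lit 544) (nat_lit 11939366117856904256)) (.cons (.rf (nat_lit 565) (nat_lit 11939366117856904256)) (.cons (.br (nat_lit 2) (nat_lit 0) (.cons (.ev (nat_lit 1208925819615728703176704) (nat_lit 1)) (.cons (.rf (nat_lit 556) (nat_lit 11939366117856904256)) (.cons (.rf (nat_lit 197) (nat_lit 423293454368)) .nil)))) (.cons (.br (nat_lit 2) (nat_lit 0) (.cons (.rf (nat_lit 544) (nat_lit 11939366117856904256)) (.cons (.rf (nat_lit 565) (nat_lit 11939366117856904256)) (.cons (.rf (nat_lit 197) (nat_lit 423293454368)) .nil)))) .nil))))),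
 (.br (nat_lit 2) (nat_lit 0) (.cons (.rf (nat_lit 544) (nat_lit 11939366117856904256)) (.cons (.ev (nat_lit 1208944338697771915739393) (nat_lit 1)) (.cons (.br (nat_lit 4) (nat_lit 0) (.cons (.ev (nat_lit 1208944338697771915739136) (nat_lit 1)) .nil)) .nil)))),
 (.br (nat_lit 2) (nat_lit 0) (.cons (.ev (nat_lit 1208925819615728703176704) (nat_lit 1)) (.cons (.ev (nat_lit 1208944338697771915739393) (nat_lit 1)) (.cons (.br (nat_lit 4) (nat_lit 0) (.cons (.ev (nat_lit 79537652264970968303468019968) (nat_lit 1)) .nil)) .nil)))),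
 (.br (nat_lit 7) (nat_lit 0) (.cons (.kr (nat_lit 309485009821345068724781057) (nat_lit 72057594037928192) (nat_lit 0) (nat_lit 2)) (.cons (.br (nat_lit 2) (nat_lit 0) (.cons (.rf (nat_lit 544) (nat_lit 11939366117856904256)) (.cons (.rf (nat_lit 567) (nat_lit 14242959524133701664)) (.cons (.rf (nat_lit 568) (nat_lit 14242959524133701664)) (.cons (.br (nat_lit 2) (nat_lit 0) (.cons (.rf (nat_lit 544) (nat_lit 11939366117856904256)) (.cons (.rf (nat_lit 567) (nat_lit 14242959524133701664)) (.cons (.rf (nat_lit 568) (nat_lit 14242959524133701664)) .nil)))) .nil))))) (.cons (.kr (nat_lit 928455029464316681151053826) (nat_lit 18590860361297035776) (nat_lit 0) (nat_lit 2)) (.cons (.br (nat_lit 4) (nat_lit 0) (.cons (.ev (nat_lit 79228162532783420740563108096) (nat_lit 1)) (.cons (.br (nat_lit 9) (nat_lit 0) (.cons (.kr (nat_lit 309485028268370617411043330) (nat_lit 9444732966838802055680) (nat_lit 0) (nat_lit 2)) (.cons (.kr (nat_lit 928455047911060754860605442) (nat_lit 9444877082026877911552)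 (nat_lit 0) (nat_lit 2)) .nil))) (.cons (.ev (nat_lit 79228162514264338697350545664) (nat_lit 1)) .nil)))) .nil))))),
 (.br (nat_lit 2) (nat_lit 0) (.cons (.rf (nat_lit 556) (nat_lit 11939366117856904256)) (.cons (.rf (nat_lit 569) (nat_lit 14242959524133701664)) (.cons (.br (nat_lit 4) (nat_lit 0) (.cons (.br (nat_lit 7) (nat_lit 0) (.cons (.ev (nat_lit 1213648258436567851401473) (nat_lit 1)) .nil)) (.cons (.kr (nat_lit 309485028268370617411043330) (nat_lit 9444732966838802055680) (nat_lit 0) (nat_lit 2)) .nil))) .nil)))),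
 (.br (nat_lit 2) (nat_lit 0) (.cons (.rf (nat_lit 565) (nat_lit 11939366117856904256)) (.cons (.rf (nat_lit 569) (nat_lit 14242959524133701664)) (.cons (.rf (nat_lit 570) (nat_lit 14242959524133701664)) (.cons (.br (nat_lit 2) (nat_lit 0) (.cons (.rf (nat_lit 565) (nat_lit 11939366117856904256)) (.cons (.rf (nat_lit 569) (nat_lit 14242959524133701664)) (.cons (.rf (nat_lit 570) (nat_lit 14242959524133701664)) .nil)))) .nil))))),
 (.br (nat_lit 2) (nat_lit 0) (.cons (.rf (nat_lit 566) (nat_lit 14242959524133701664)) (.cons (.rf (nat_lit 569) (nat_lit 14242959524133701664)) (.cons (.rf (nat_lit 571) (nat_lit 14242959524133701664)) (.cons (.br (nat_lit 2) (nat_lit 0) (.cons (.rf (nat_lit 197) (nat_lit 423293454368)) (.cons (.rf (nat_lit 569) (nat_lit 14242959524133701664)) (.cons (.rf (nat_lit 571) (nat_lit 14242959524133701664)) .nil)))) .nil))))),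
 (.br (nat_lit 1) (nat_lit 0) (.cons (.kr (nat_lit 309485009821626543701491714) (nat_lit 18446745173221179904) (nat_lit 0) (nat_lit 2)) (.cons (.rf (nat_lit 513) (nat_lit 14242959524133701664)) (.cons (.rf (nat_lit 544) (nat_lit 14242959524133701664)) (.cons (.rf (nat_lit 565) (nat_lit 14242959524133701664)) (.cons (.br (nat_lit 2) (nat_lit 0) (.cons (.rf (nat_lit 566) (nat_lit 14242959524133701664)) (.cons (.rf (nat_lit 569) (nat_lit 14242959524133701664)) (.cons (.rf (nat_lit 571) (nat_lit 14242959524133701664)) (.cons (.rf (nat_lit 572) (nat_lit 14242959524133701664)) (.cons (.br (nat_lit 2) (nat_lit 0) (.cons (.rf (nat_lit 566) (nat_lit 14242959524133701664)) (.cons (.rf (nat_lit 569) (nat_lit 14242959524133701664)) (.cons (.rf (nat_lit 571) (nat_lit 14242959524133701664)) (.cons (.rf (nat_lit 572) (nat_lit 14242959524133701664)) .nil))))) .nil)))))) .nil)))))),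
 (.br (nat_lit 1) (nat_lit 0) (.cons (.rf (nat_lit 488) (nat_lit 14242959524133701664)) (.cons (.rf (nat_lit 513) (nat_lit 14242959524133701664)) (.cons (.rf (nat_lit 544) (nat_lit 14242959524133701664)) (.cons (.rf (nat_lit 565) (nat_lit 14242959524133701664)) (.cons (.rf (nat_lit 573) (nat_lit 14242959524133701664)) (.cons (.br (nat_lit 1) (nat_lit 0) (.cons (.rf (nat_lit 488) (nat_lit 14242959524133701664)) (.cons (.rf (nat_lit 513) (nat_lit 14242959524133701664)) (.cons (.rf (nat_lit 544) (nat_lit 14242959524133701664)) (.cons (.rf (nat_lit 565) (nat_lit 14242959524133701664)) (.cons (.rf (nat_lit 573) (nat_lit 14242959524133701664)) .nil)))))) .nil))))))),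
 (.br (nat_lit 2) (nat_lit 0) (.cons (.ev (nat_lit 1208925891672223229476864) (nat_lit 1)) (.cons (.rf (nat_lit 574) (nat_lit 11939366117856904256)) (.cons (.kr (nat_lit 309494454554311907526836224) (nat_lit 18591140736762118144) (nat_lit 5) (nat_lit 0)) (.cons (.br (nat_lit 4) (nat_lit 0) (.cons (.br (nat_lit 9) (nat_lit 0) (.cons (.ev (nat_lit 79537647524157741360113254656) (nat_lit 1)) .nil)) (.cons (.br (nat_lit 3) (nat_lit 0) (.cons (.ev (nat_lit 79537647524157741360113254656) (nat_lit 1)) .nil)) (.cons (.ev (nat_lit 79537647524085682666563764224) (nat_lit 1)) .nil)))) .nil))))),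
 (.br (nat_lit 2) (nat_lit 0) (.cons (.rf (nat_lit 574) (nat_lit 14242959524133700672)) (.cons (.rf (nat_lit 574) (nat_lit 11939366117856904256)) (.cons (.kr (nat_lit 309494454554311907526836224) (nat_lit 18591140736762118144) (nat_lit 5) (nat_lit 0)) (.cons (.rf (nat_lit 575) (nat_lit 14242959524133701664)) (.cons (.br (nat_lit 2) (nat_lit 0) (.cons (.rf (nat_lit 574) (nat_lit 14242959524133700672)) (.cons (.rf (nat_lit 574) (nat_lit 11939366117856904256)) (.cons (.kr (nat_lit 309494454554311907526836224) (nat_lit 18591140736762118144) (nat_lit 5) (nat_lit 0)) (.cons (.rf (nat_lit 575) (nat_lit 14242959524133701664)) .nil))))) .nil)))))),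
 (.br (nat_lit 2) (nat_lit 0) (.cons (.rf (nat_lit 574) (nat_lit 14242959524133700672)) (.cons (.rf (nat_lit 431) (nat_lit 445092485094540352)) (.cons (.kr (nat_lit 309494454554311907526836224) (nat_lit 18591140736762118144) (nat_lit 5) (nat_lit 0)) (.cons (.br (nat_lit 3) (nat_lit 0) (.cons (.rf (nat_lit 464) (nat_lit 373105226513778720)) (.cons (.br (nat_lit 4) (nat_lit 0) (.cons (.ev (nat_lit 79537652246524505704735244545) (nat_lit 1)) .nil)) (.cons (.ev (nat_lit 1213648186380073325101313) (nat_lit 1)) .nil)))) .nil))))),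
 (.br (nat_lit 2) (nat_lit 0) (.cons (.rf (nat_lit 574) (nat_lit 14242959524133700672)) (.cons (.rf (nat_lit 574) (nat_lit 11939366117856904256)) (.cons (.kr (nat_lit 309494454554311907526836224) (nat_lit 18591140736762118144) (nat_lit 5) (nat_lit 0)) (.cons (.rf (nat_lit 577) (nat_lit 14242959524133701664)) (.cons (.br (nat_lit 2) (nat_lit 0) (.cons (.rf (nat_lit 574) (nat_lit 14242959524133700672)) (.cons (.rf (nat_lit 574) (nat_lit 11939366117856904256)) (.cons (.kr (nat_lit 309494454554311907526836224) (nat_lit 18591140736762118144) (nat_lit 5) (nat_lit 0)) (.cons (.rf (nat_lit 577) (nat_lit 14242959524133701664)) .nil))))) .nil)))))),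
 (.br (nat_lit 2) (nat_lit 0) (.cons (.rf (nat_lit 574) (nat_lit 14242959524133700672)) (.cons (.rf (nat_lit 574) (nat_lit 11939366117856904256)) (.cons (.rf (nat_lit 576) (nat_lit 14242959524133701664)) (.cons (.rf (nat_lit 578) (nat_lit 14242959524133701664)) (.cons (.br (nat_lit 2) (nat_lit 0) (.cons (.rf (nat_lit 574) (nat_lit 14242959524133700672)) (.cons (.rf (nat_lit 574) (nat_lit 11939366117856904256)) (.cons (.rf (nat_lit 576) (nat_lit 14242959524133701664)) (.cons (.rf (nat_lit 578) (nat_lit 14242959524133701664)) .nil))))) .nil)))))),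
 (.br (nat_lit 2) (nat_lit 0) (.cons (.rf (nat_lit 574) (nat_lit 14242959524133700672)) (.cons (.rf (nat_lit 574) (nat_lit 11939366117856904256)) (.cons (.rf (nat_lit 576) (nat_lit 14242959524133701664)) (.cons (.rf (nat_lit 578) (nat_lit 14242959524133701664)) (.cons (.rf (nat_lit 579) (nat_lit 14242959524133701664)) (.cons (.br (nat_lit 2) (nat_lit 0) (.cons (.rf (nat_lit 574) (nat_lit 14242959524133700672)) (.cons (.rf (nat_lit 574) (nat_lit 11939366117856904256)) (.cons (.rf (nat_lit 576) (nat_lit 14242959524133701664)) (.cons (.rf (nat_lit 578) (nat_lit 14242959524133701664)) (.cons (.rf (nat_lit 579) (nat_lit 14242959524133701664)) .nil)))))) .nil)))))))]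

theorem c17 : chkAll C T R L17 (nat_lit 551) = true := by decide +kernel

theorem l17 : (nat_lit 551) + L17.length = (nat_lit 581) := by decide +kernel

/-- part of the certificates -/
def L18 : List Prf := [(.br (nat_lit 1) (nat_lit 0) (.cons (.rf (nat_lit 488) (nat_lit 14242959524133701664)) (.cons (.rf (nat_lit 574) (nat_lit 14242959524133701664)) (.cons (.rf (nat_lit 574) (nat_lit 11939366117856905248)) (.cons (.rf (nat_lit 580) (nat_lit 14242959524133701664)) (.cons (.rf (nat_lit 580) (nat_lit 11939366117856905248)) .nil)))))),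
 (.br (nat_lit 2) (nat_lit 0) (.cons (.ev (nat_lit 1208925891672223229476864) (nat_lit 1)) (.cons (.rf (nat_lit 574) (nat_lit 11939366117856904256)) (.cons (.rf (nat_lit 581) (nat_lit 14242959524133700672)) (.cons (.br (nat_lit 3) (nat_lit 0) (.cons (.ev (nat_lit 80157826506658211321314738944) (nat_lit 2)) (.cons (.br (nat_lit 4) (nat_lit 0) (.cons (.zr (nat_lit 55629307022210499588) (nat_lit 79229390329549885904634904576) (nat_lit 10) (nat_lit 1)) .nil)) .nil))) .nil))))),
 (.br (nat_lit 2) (nat_lit 0) (.cons (.rf (nat_lit 574) (nat_lit 14242959524133700672)) (.cons (.rf (nat_lit 574) (nat_lit 11939366117856904256)) (.cons (.rf (nat_lit 581) (nat_lit 14242959524133700672)) (.cons (.rf (nat_lit 582) (nat_lit 14242959524133701664)) (.cons (.rf (nat_lit 582) (nat_lit 11939366117856905248)) .nil)))))),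
 (.br (nat_lit 2) (nat_lit 0) (.cons (.rf (nat_lit 574) (nat_lit 14242959524133700672)) (.cons (.rf (nat_lit 574) (nat_lit 11939366117856904256)) (.cons (.rf (nat_lit 581) (nat_lit 14242959524133700672)) (.cons (.br (nat_lit 3) (nat_lit 0) (.cons (.br (nat_lit 7) (nat_lit 0) (.cons (.ev (nat_lit 158768237464139632192860193286) (nat_lit 3)) .nil)) (.cons (.br (nat_lit 4) (nat_lit 0) (.cons (.ev (nat_lit 79537652246524505704735244545) (nat_lit 1)) .nil)) (.cons (.br (nat_lit 4) (nat_lit 0) (.cons (.ev (nat_lit 1213648258436567851401473) (nat_lit 1)) .nil)) .nil)))) .nil))))),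
 (.br (nat_lit 2) (nat_lit 0) (.cons (.rf (nat_lit 574) (nat_lit 14242959524133700672)) (.cons (.rf (nat_lit 574) (nat_lit 11939366117856904256)) (.cons (.rf (nat_lit 581) (nat_lit 14242959524133700672)) (.cons (.rf (nat_lit 584) (nat_lit 14242959524133701664)) (.cons (.rf (nat_lit 584) (nat_lit 11939366117856905248)) .nil)))))),
 (.br (nat_lit 2) (nat_lit 0) (.cons (.rf (nat_lit 574) (nat_lit 14242959524133700672)) (.cons (.rf (nat_lit 574) (nat_lit 11939366117856904256)) (.cons (.rf (nat_lit 583) (nat_lit 14242959524133701664)) (.cons (.rf (nat_lit 585) (nat_lit 14242959524133701664)) (.cons (.br (nat_lit 2) (nat_lit 0) (.cons (.rf (nat_lit 574) (nat_lit 14242959524133700672)) (.cons (.rf (nat_lit 574) (nat_lit 11939366117856904256)) (.cons (.rf (nat_lit 583) (nat_lit 14242959524133701664)) (.cons (.rf (nat_lit 585) (nat_lit 14242959524133701664)) .nil))))) .nil)))))),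
 (.br (nat_lit 1) (nat_lit 0) (.cons (.rf (nat_lit 482) (nat_lit 10669140085492123649)) (.cons (.rf (nat_lit 574) (nat_lit 14242959524133701664)) (.cons (.rf (nat_lit 574) (nat_lit 11939366117856905248)) (.cons (.rf (nat_lit 581) (nat_lit 14242959524133701664)) (.cons (.br (nat_lit 2) (nat_lit 0) (.cons (.rf (nat_lit 574) (nat_lit 14242959524133700672)) (.cons (.rf (nat_lit 574) (nat_lit 11939366117856904256)) (.cons (.rf (nat_lit 583) (nat_lit 14242959524133701664)) (.cons (.rf (nat_lit 585) (nat_lit 14242959524133701664)) (.cons (.rf (nat_lit 586) (nat_lit 14242959524133701664)) (.cons (.rf (nat_lit 586) (nat_lit 11939366117856905248)) .nil))))))) .nil)))))),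
 (.br (nat_lit 1) (nat_lit 0) (.cons (.rf (nat_lit 488) (nat_lit 14242959524133701664)) (.cons (.rf (nat_lit 574) (nat_lit 14242959524133701664)) (.cons (.rf (nat_lit 574) (nat_lit 11939366117856905248)) (.cons (.rf (nat_lit 581) (nat_lit 14242959524133701664)) (.cons (.rf (nat_lit 587) (nat_lit 14242959524133701664)) (.cons (.rf (nat_lit 587) (nat_lit 11939366117856905248)) .nil))))))),
 (.br (nat_lit 2) (nat_lit 0) (.cons (.rf (nat_lit 574) (nat_lit 14242959524133700672)) (.cons (.rf (nat_lit 431) (nat_lit 264948402389877824)) (.cons (.rf (nat_lit 588) (nat_lit 14242959524133700672)) (.cons (.br (nat_lit 3) (nat_lit 0) (.cons (.rf (nat_lit 255) (nat_lit 8119941957664)) (.cons (.ev (nat_lit 1213648186380073325101313) (nat_lit 1)) .nil))) .nil))))),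
 (.br (nat_lit 2) (nat_lit 0) (.cons (.kr (nat_lit 309485009821345068724781057) (nat_lit 1099511693312) (nat_lit 0) (nat_lit 1)) (.cons (.rf (nat_lit 574) (nat_lit 14242959524133700672)) (.cons (.rf (nat_lit 574) (nat_lit 11939366117856904256)) (.cons (.rf (nat_lit 588) (nat_lit 14242959524133700672)) (.cons (.br (nat_lit 1) (nat_lit 0) (.cons (.rf (nat_lit 574) (nat_lit 14242959524133701664)) (.cons (.rf (nat_lit 574) (nat_lit 11939366117856905248)) (.cons (.rf (nat_lit 588) (nat_lit 14242959524133701664)) (.cons (.rf (nat_lit 589) (nat_lit 14242959524133700672)) (.cons (.rf (nat_lit 589) (nat_lit 11939366117856904256)) .nil)))))) .nil)))))),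
 (.br (nat_lit 2) (nat_lit 0) (.cons (.rf (nat_lit 574) (nat_lit 14242959524133700672)) (.cons (.rf (nat_lit 574) (nat_lit 11939366117856904256)) (.cons (.rf (nat_lit 588) (nat_lit 14242959524133700672)) (.cons (.rf (nat_lit 590) (nat_lit 14242959524133700672)) (.cons (.rf (nat_lit 590) (nat_lit 14242959524133701664)) .nil)))))),
 (.br (nat_lit 1) (nat_lit 0) (.cons (.rf (nat_lit 482) (nat_lit 8255532535944349697)) (.cons (.rf (nat_lit 574) (nat_lit 14242959524133701664)) (.cons (.rf (nat_lit 574) (nat_lit 11939366117856905248)) (.cons (.rf (nat_lit 588) (nat_lit 14242959524133701664)) (.cons (.br (nat_lit 2) (nat_lit 0) (.cons (.rf (nat_lit 574) (nat_lit 14242959524133700672)) (.cons (.rf (nat_lit 574) (nat_lit 11939366117856904256)) (.cons (.rf (nat_lit 588) (nat_lit 14242959524133700672)) (.cons (.rf (nat_lit 590) (nat_lit 14242959524133700672)) (.cons (.rf (nat_lit 591) (nat_lit 14242959524133701664)) (.cons (.rf (nat_lit 591) (nat_lit 11939366117856905248)) .nil))))))) .nil)))))),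
 (.br (nat_lit 1) (nat_lit 0) (.cons (.rf (nat_lit 488) (nat_lit 14242959524133701664)) (.cons (.rf (nat_lit 574) (nat_lit 14242959524133701664)) (.cons (.rf (nat_lit 574) (nat_lit 11939366117856905248)) (.cons (.rf (nat_lit 588) (nat_lit 14242959524133701664)) (.cons (.rf (nat_lit 592) (nat_lit 14242959524133701664)) (.cons (.rf (nat_lit 592) (nat_lit 11939366117856905248)) .nil))))))),
 (.br (nat_lit 1) (nat_lit 0) (.cons (.rf (nat_lit 488) (nat_lit 14242959524133701664)) (.cons (.rf (nat_lit 574) (nat_lit 14242959524133701664)) (.cons (.rf (nat_lit 574) (nat_lit 11939366117856905248)) (.cons (.rf (nat_lit 588) (nat_lit 14242959524133701664)) (.cons (.rf (nat_lit 593) (nat_lit 14242959524133701664)) (.cons (.br (nat_lit 1) (nat_lit 0) (.cons (.kr (nat_lit 309485009821345068724781057) (nat_lit 1099511628032) (nat_lit 0) (nat_lit 2)) (.cons (.rf (nat_lit 574) (nat_lit 14242959524133701664)) (.cons (.rf (nat_lit 574) (nat_lit 11939366117856905248)) (.cons (.rf (nat_lit 588) (nat_lit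 14242959524133701664)) (.cons (.rf (nat_lit 593) (nat_lit 14242959524133701664)) .nil)))))) .nil))))))),
 (.br (nat_lit 8) (nat_lit 0) (.cons (.rf (nat_lit 0) (nat_lit 5506341193)) (.cons (.br (nat_lit 10) (nat_lit 1) (.cons (.br (nat_lit 11) (nat_lit 0) (.cons (.br (nat_lit 5) (nat_lit 1) (.cons (.rf (nat_lit 482) (nat_lit 14242959524133701664)) (.cons (.rf (nat_lit 482) (nat_lit 11939366117856905248)) (.cons (.br (nat_lit 6) (nat_lit 1) (.cons (.br (nat_lit 1) (nat_lit 0) (.cons (.rf (nat_lit 488) (nat_lit 14242959524133701664)) (.cons (.rf (nat_lit 574) (nat_lit 14242959524133701664)) (.cons (.rf (nat_lit 574) (nat_lit 11939366117856905248)) (.cons (.rf (nat_lit 588) (nat_lit 14242959524133701664)) (.cons (.rf (nat_lit 593) (nat_lit 14242959524133701664)) (.cons (.rf (nat_lit 594) (nat_lit 14242959524133701664)) (.cons (.rf (nat_lit 594) (nat_lit 11939366117856905248)) .nil)))))))) .nil)) .nil)))) .nil)) .nil)) .nil))),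
 (.br (nat_lit 5) (nat_lit 0) (.cons (.br (nat_lit 4) (nat_lit 1) (.cons (.rf (nat_lit 119) (nat_lit 247132686368)) (.cons (.br (nat_lit 6) (nat_lit 0) (.cons (.rf (nat_lit 281) (nat_lit 9043225708576)) (.cons (.br (nat_lit 6) (nat_lit 0) (.cons (.rf (nat_lit 281) (nat_lit 9043225708576)) (.cons (.br (nat_lit 7) (nat_lit 1) (.cons (.rf (nat_lit 281) (nat_lit 6846348920864)) (.cons (.br (nat_lit 9) (nat_lit 1) (.cons (.rf (nat_lit 595) (nat_lit 407901468851537952)) (.cons (.br (nat_lit 10) (nat_lit 1) (.cons (.rf (nat_lit 595) (nat_lit 406810753316784160)) (.cons (.rf (nat_lit 0) (nat_lit 5607102793)) .nil))) .nil))) .nil))) .nil))) .nil))) .nil))) .nil)),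
 (.br (nat_lit 2) (nat_lit 0) (.cons (.rf (nat_lit 596) (nat_lit 8761050114)) (.cons (.rf (nat_lit 596) (nat_lit 5641536514)) (.cons (.rf (nat_lit 596) (nat_lit 8765244418)) (.cons (.rf (nat_lit 596) (nat_lit 5646779394)) (.cons (.kr (nat_lit 256) (nat_lit 65536) (nat_lit 1) (nat_lit 0)) .nil)))))),
 (.br (nat_lit 4) (nat_lit 0) (.cons (.kr (nat_lit 282583078273280) (nat_lit 2417851639229258383032320) (nat_lit 1) (nat_lit 0)) (.cons (.kr (nat_lit 2207613190400) (nat_lit 1213648186097498853539840) (nat_lit 1) (nat_lit 0)) (.cons (.kr (nat_lit 1208925819614629191483392) (nat_lit 1103806595072) (nat_lit 3) (nat_lit 0)) .nil)))),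
 (.br (nat_lit 2) (nat_lit 0) (.cons (.rf (nat_lit 596) (nat_lit 6618711042)) (.cons (.rf (nat_lit 596) (nat_lit 10007741442)) (.cons (.rf (nat_lit 596) (nat_lit 9840067586)) (.cons (.br (nat_lit 3) (nat_lit 0) (.cons (.rf (nat_lit 324) (nat_lit 294294534198757408)) (.cons (.rf (nat_lit 598) (nat_lit 14242959524133701664)) (.cons (.rf (nat_lit 598) (nat_lit 13124975035859174464)) (.cons (.rf (nat_lit 598) (nat_lit 9487162852075734080)) (.cons (.rf (nat_lit 598) (nat_lit 8369178363801208864)) .nil)))))) (.cons (.rf (nat_lit 596) (nat_lit 5717099522)) .nil)))))),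
 (.br (nat_lit 1) (nat_lit 0) (.cons (.rf (nat_lit 596) (nat_lit 6617663489)) (.cons (.rf (nat_lit 596) (nat_lit 11046881281)) (.cons (.rf (nat_lit 596) (nat_lit 9840068609)) (.cons (.rf (nat_lit 596) (nat_lit 5682464769)) (.cons (.br (nat_lit 2) (nat_lit 0) (.cons (.rf (nat_lit 597) (nat_lit 4932687440873473)) (.cons (.rf (nat_lit 597) (nat_lit 3811289864570881)) (.cons (.rf (nat_lit 597) (nat_lit 13908005145905184)) (.cons (.rf (nat_lit 599) (nat_lit 14242959524133701664)) (.cons (.rf (nat_lit 599) (nat_lit 8369178363801208864)) (.cons (.rf (nat_lit 597) (nat_lit 8174160488532000)) .nil))))))) .nil)))))),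
 (.br (nat_lit 1) (nat_lit 0) (.cons (.rf (nat_lit 597) (nat_lit 4932687440872450)) (.cons (.rf (nat_lit 597) (nat_lit 3811289864569858)) (.cons (.rf (nat_lit 600) (nat_lit 14242959524133701664)) (.cons (.rf (nat_lit 600) (nat_lit 13124975035859175456)) (.cons (.rf (nat_lit 600) (nat_lit 9487162852075735072)) (.cons (.rf (nat_lit 600) (nat_lit 8369178363801208864)) .nil))))))),
 (.br (nat_lit 11) (nat_lit 0) (.cons (.zr (nat_lit 310693954087705970632294401) (nat_lit 9444733247214300692480) (nat_lit 5) (nat_lit 8)) (.cons (.ev (nat_lit 4740885567111881097216) (nat_lit 1)) (.cons (.ev (nat_lit 79229371458530697400234803456) (nat_lit 1)) .nil)))),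
 (.br (nat_lit 2) (nat_lit 0) (.cons (.ev (nat_lit 18518801672042512384) (nat_lit 1)) (.cons (.br (nat_lit 8) (nat_lit 0) (.cons (.rf (nat_lit 46) (nat_lit 12348303706144)) (.cons (.br (nat_lit 11) (nat_lit 0) (.cons (.zr (nat_lit 1208925819896112775037440) (nat_lit 309494473001057080748015619) (nat_lit 5) (nat_lit 0)) .nil)) .nil))) (.cons (.br (nat_lit 8) (nat_lit 0) (.cons (.rf (nat_lit 602) (nat_lit 14242959524133701664)) (.cons (.rf (nat_lit 46) (nat_lit 13446741592096)) .nil))) .nil)))),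
 (.br (nat_lit 2) (nat_lit 0) (.cons (.rf (nat_lit 603) (nat_lit 14242959524133701664)) (.cons (.rf (nat_lit 603) (nat_lit 13124975035859175456)) (.cons (.br (nat_lit 7) (nat_lit 0) (.cons (.br (nat_lit 11) (nat_lit 0) (.cons (.ev (nat_lit 620183778798334576257271300) (nat_lit 3)) .nil)) (.cons (.br (nat_lit 8) (nat_lit 0) (.cons (.ev (nat_lit 620183778799456078117602820) (nat_lit 3)) .nil)) (.cons (.br (nat_lit 8) (nat_lit 0) (.cons (.ev (nat_lit 80156636562682365930612196352) (nat_lit 3)) .nil)) .nil)))) .nil)))),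
 (.br (nat_lit 2) (nat_lit 0) (.cons (.rf (nat_lit 603) (nat_lit 14242959524133701664)) (.cons (.rf (nat_lit 603) (nat_lit 13124975035859175456)) (.cons (.rf (nat_lit 604) (nat_lit 14242959524133701664)) (.cons (.rf (nat_lit 604) (nat_lit 13124975035859175456)) .nil))))),
 (.br (nat_lit 4) (nat_lit 0) (.cons (.rf (nat_lit 49) (nat_lit 12346089113632)) (.cons (.ev (nat_lit 4740885566016664436993) (nat_lit 1)) .nil))),
 (.br (nat_lit 2) (nat_lit 0) (.cons (.ev (nat_lit 72339073309671424) (nat_lit 1)) (.cons (.rf (nat_lit 606) (nat_lit 407901468851537952)) (.cons (.rf (nat_lit 606) (nat_lit 372964453592959008)) .nil)))),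
 (.br (nat_lit 2) (nat_lit 0) (.cons (.rf (nat_lit 605) (nat_lit 14242959524133701664)) (.cons (.rf (nat_lit 607) (nat_lit 445092485094541344)) (.cons (.br (nat_lit 8) (nat_lit 0) (.cons (.br (nat_lit 11) (nat_lit 0) (.cons (.ev (nat_lit 620183778798334576257270272) (nat_lit 3)) .nil)) (.cons (.br (nat_lit 4) (nat_lit 0) (.cons (.ev (nat_lit 79229371458530977775699886081) (nat_lit 1)) .nil)) (.cons (.ev (nat_lit 79231798773566089624901714435) (nat_lit 2)) .nil)))) .nil)))),
 (.br (nat_lit 2) (nat_lit 0) (.cons (.rf (nat_lit 605) (nat_lit 14242959524133701664)) (.cons (.rf (nat_lit 607) (nat_lit 445092485094541344)) (.cons (.rf (nat_lit 608) (nat_lit 14242959524133701664)) (.cons (.br (nat_lit 2) (nat_lit 0) (.cons (.rf (nat_lit 605) (nat_lit 14242959524133701664)) (.cons (.rf (nat_lit 607) (nat_lit 445092485094541344)) (.cons (.rf (nat_lit 608) (nat_lit 14242959524133701664)) .nil)))) .nil))))),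
 (.br (nat_lit 2) (nat_lit 0) (.cons (.rf (nat_lit 605) (nat_lit 14242959524133701664)) (.cons (.rf (nat_lit 609) (nat_lit 14242959524133701664)) (.cons (.rf (nat_lit 609) (nat_lit 13124975035859175456)) (.cons (.br (nat_lit 2) (nat_lit 0) (.cons (.rf (nat_lit 605) (nat_lit 14242959524133701664)) (.cons (.rf (nat_lit 609) (nat_lit 14242959524133701664)) (.cons (.rf (nat_lit 609) (nat_lit 13124975035859175456)) .nil)))) .nil))))),
 (.br (nat_lit 2) (nat_lit 0) (.cons (.rf (nat_lit 605) (nat_lit 14242959524133701664)) (.cons (.rf (nat_lit 609) (nat_lit 14242959524133701664)) (.cons (.rf (nat_lit 609) (nat_lit 13124975035859175456)) (.cons (.rf (nat_lit 610) (nat_lit 14242959524133701664)) (.cons (.rf (nat_lit 610) (nat_lit 13124975035859175456)) .nil)))))),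
 (.br (nat_lit 2) (nat_lit 0) (.cons (.br (nat_lit 8) (nat_lit 0) (.cons (.rf (nat_lit 46) (nat_lit 9049869486112)) (.cons (.br (nat_lit 11) (nat_lit 0) (.cons (.zr (nat_lit 1208925819896112775037440) (nat_lit 309494473001057080748015619) (nat_lit 5) (nat_lit 0)) .nil)) .nil))) (.cons (.ev (nat_lit 310698658079782736087744768) (nat_lit 1)) (.cons (.br (nat_lit 11) (nat_lit 0) (.cons (.br (nat_lit 8) (nat_lit 0) (.cons (.ev (nat_lit 4740885285636921163776) (nat_lit 1)) .nil)) (.cons (.ev (nat_lit 79538856449905298390971908096) (nat_lit 1)) .nil))) .nil)))),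
 (.br (nat_lit 2) (nat_lit 0) (.cons (.rf (nat_lit 612) (nat_lit 14242959524133701664)) (.cons (.rf (nat_lit 612) (nat_lit 9487162852075735072)) (.cons (.rf (nat_lit 611) (nat_lit 12941282930129503296)) .nil))))]

theorem c18 : chkAll C T R L18 (nat_lit 581) = true := by decide +kernel

theorem l18 : (nat_lit 581) + L18.length = (nat_lit 614) := by decide +kernel

/-- part of the certificates -/
def L19 : List Prf := [(.br (nat_lit 2) (nat_lit 0) (.cons (.rf (nat_lit 612) (nat_lit 14242959524133701664)) (.cons (.rf (nat_lit 613) (nat_lit 14242959524133701664)) (.cons (.rf (nat_lit 612) (nat_lit 9487162852075735072)) (.cons (.rf (nat_lit 613) (nat_lit 9487162852075735072)) .nil))))),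
 (.br (nat_lit 2) (nat_lit 0) (.cons (.rf (nat_lit 614) (nat_lit 14242959524133701664)) (.cons (.ev (nat_lit 310698658079782736087744768) (nat_lit 1)) (.cons (.br (nat_lit 8) (nat_lit 0) (.cons (.br (nat_lit 11) (nat_lit 0) (.cons (.ev (nat_lit 79847137256490249639830946305) (nat_lit 2)) .nil)) (.cons (.ev (nat_lit 4740885566012386246913) (nat_lit 1)) (.cons (.br (nat_lit 4) (nat_lit 0) (.cons (.ev (nat_lit 620202668265391971857729028) (nat_lit 3)) .nil)) .nil)))) .nil)))),
 (.br (nat_lit 2) (nat_lit 0) (.cons (.rf (nat_lit 614) (nat_lit 14242959524133701664)) (.cons (.rf (nat_lit 615) (nat_lit 14242959524133701664)) (.cons (.ev (nat_lit 310698658079782736087744768) (nat_lit 1)) (.cons (.br (nat_lit 2) (nat_lit 0) (.cons (.rf (nat_lit 614) (nat_lit 14242959524133701664)) (.cons (.rf (nat_lit 615) (nat_lit 14242959524133701664)) (.cons (.ev (nat_lit 309485009893402662779486464) (nat_lit 1)) .nil)))) .nil))))),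
 (.br (nat_lit 2) (nat_lit 0) (.cons (.rf (nat_lit 614) (nat_lit 14242959524133701664)) (.cons (.rf (nat_lit 616) (nat_lit 14242959524133701664)) (.cons (.rf (nat_lit 616) (nat_lit 9487162852075735072)) (.cons (.br (nat_lit 2) (nat_lit 0) (.cons (.rf (nat_lit 611) (nat_lit 12941282930129503296)) (.cons (.rf (nat_lit 616) (nat_lit 14242959524133701664)) (.cons (.rf (nat_lit 616) (nat_lit 9487162852075735072)) .nil)))) .nil))))),
 (.br (nat_lit 2) (nat_lit 0) (.cons (.rf (nat_lit 614) (nat_lit 14242959524133701664)) (.cons (.rf (nat_lit 616) (nat_lit 14242959524133701664)) (.cons (.rf (nat_lit 617) (nat_lit 14242959524133701664)) (.cons (.rf (nat_lit 616) (nat_lit 9487162852075735072)) (.cons (.rf (nat_lit 617) (nat_lit 9487162852075735072)) .nil)))))),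
 (.br (nat_lit 2) (nat_lit 0) (.cons (.rf (nat_lit 618) (nat_lit 14130232098924135488)) (.cons (.rf (nat_lit 611) (nat_lit 14130232098924135488)) (.cons (.rf (nat_lit 197) (nat_lit 420105783328)) .nil)))),
 (.br (nat_lit 2) (nat_lit 0) (.cons (.rf (nat_lit 618) (nat_lit 14130232098924135488)) (.cons (.br (nat_lit 7) (nat_lit 0) (.cons (.ev (nat_lit 4740885285636921163776) (nat_lit 1)) (.cons (.ev (nat_lit 310693935713018395744010496) (nat_lit 1)) (.cons (.br (nat_lit 8) (nat_lit 0) (.cons (.ev (nat_lit 4740885566012386246656) (nat_lit 1)) .nil)) .nil)))) (.cons (.rf (nat_lit 611) (nat_lit 12941282930129503296)) .nil)))),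
 (.br (nat_lit 2) (nat_lit 0) (.cons (.rf (nat_lit 619) (nat_lit 14242959524133701664)) (.cons (.rf (nat_lit 620) (nat_lit 14242959524133701664)) (.cons (.rf (nat_lit 620) (nat_lit 8369178363801208864)) (.cons (.rf (nat_lit 619) (nat_lit 8369178363801208864)) .nil))))),
 (.br (nat_lit 2) (nat_lit 0) (.cons (.rf (nat_lit 618) (nat_lit 14130232098924135488)) (.cons (.br (nat_lit 8) (nat_lit 0) (.cons (.br (nat_lit 11) (nat_lit 0) (.cons (.ev (nat_lit 309489732259886636214518016) (nat_lit 1)) .nil)) (.cons (.ev (nat_lit 4740885566012386246913) (nat_lit 1)) (.cons (.br (nat_lit 4) (nat_lit 0) (.cons (.ev (nat_lit 79537652246452447006907498496) (nat_lit 1)) .nil)) .nil)))) (.cons (.br (nat_lit 4) (nat_lit 0) (.cons (.ev (nat_lit 79228171996107529424279240705) (nat_lit 2)) (.cons (.br (nat_lit 8) (nat_lit 0) (.cons (.ev (nat_lit 620212112998355503568520708) (nat_lit 3)) .nil)) .nil))) .nil)))),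
 (.br (nat_lit 2) (nat_lit 0) (.cons (.rf (nat_lit 621) (nat_lit 14242959524133701664)) (.cons (.rf (nat_lit 622) (nat_lit 14242959524133701664)) (.cons (.br (nat_lit 2) (nat_lit 0) (.cons (.rf (nat_lit 611) (nat_lit 14130232098924135488)) (.cons (.rf (nat_lit 622) (nat_lit 14242959524133701664)) (.cons (.rf (nat_lit 622) (nat_lit 8369178363801208864)) .nil)))) (.cons (.br (nat_lit 2) (nat_lit 0) (.cons (.rf (nat_lit 197) (nat_lit 420105783328)) (.cons (.rf (nat_lit 622) (nat_lit 14242959524133701664)) (.cons (.rf (nat_lit 622) (nat_lit 8369178363801208864)) .nil)))) .nil))))),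
 (.br (nat_lit 2) (nat_lit 0) (.cons (.rf (nat_lit 621) (nat_lit 14242959524133701664)) (.cons (.rf (nat_lit 623) (nat_lit 14242959524133701664)) (.cons (.br (nat_lit 2) (nat_lit 0) (.cons (.rf (nat_lit 621) (nat_lit 14242959524133701664)) (.cons (.rf (nat_lit 623) (nat_lit 14242959524133701664)) (.cons (.rf (nat_lit 623) (nat_lit 8369178363801208864)) .nil)))) (.cons (.rf (nat_lit 623) (nat_lit 8369178363801208864)) .nil))))),
 (.br (nat_lit 1) (nat_lit 0) (.cons (.rf (nat_lit 596) (nat_lit 6617663489)) (.cons (.kr (nat_lit 1213648186097498853474304) (nat_lit 282583078273024) (nat_lit 3) (nat_lit 0)) (.cons (.rf (nat_lit 611) (nat_lit 14242959524133701664)) (.cons (.rf (nat_lit 618) (nat_lit 14242959524133701664)) (.cons (.br (nat_lit 2) (nat_lit 0) (.cons (.rf (nat_lit 621) (nat_lit 14242959524133701664)) (.cons (.rf (nat_lit 623) (nat_lit 14242959524133701664)) (.cons (.rf (nat_lit 624) (nat_lit 14242959524133701664)) (.cons (.rf (nat_lit 624) (nat_lit 8369178363801208864)) (.cons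 (.rf (nat_lit 623) (nat_lit 8369178363801208864)) .nil)))))) .nil)))))),
 (.br (nat_lit 1) (nat_lit 0) (.cons (.rf (nat_lit 597) (nat_lit 4932687440872450)) (.cons (.kr (nat_lit 1213648186097498853474304) (nat_lit 282583078273024) (nat_lit 3) (nat_lit 0)) (.cons (.rf (nat_lit 625) (nat_lit 14242959524133701664)) (.cons (.rf (nat_lit 625) (nat_lit 13124975035859175456)) (.cons (.rf (nat_lit 625) (nat_lit 9487162852075735072)) (.cons (.rf (nat_lit 625) (nat_lit 8369178363801208864)) .nil))))))),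
 (.br (nat_lit 4) (nat_lit 0) (.cons (.ev (nat_lit 309489732259886636214583296) (nat_lit 1)) .nil)),
 (.br (nat_lit 2) (nat_lit 0) (.cons (.rf (nat_lit 607) (nat_lit 445092485094540352)) (.cons (.ev (nat_lit 18518801672042512384) (nat_lit 1)) (.cons (.br (nat_lit 3) (nat_lit 0) (.cons (.rf (nat_lit 255) (nat_lit 13580925765664)) (.cons (.br (nat_lit 4) (nat_lit 0) (.cons (.zr (nat_lit 309508640102473815497441537) (nat_lit 316912650057345584057469108224) (nat_lit 15) (nat_lit 11)) .nil)) .nil))) (.cons (.br (nat_lit 3) (nat_lit 0) (.cons (.ev (nat_lit 18519084246530851073) (nat_lit 1)) (.cons (.rf (nat_lit 627) (nat_lit 14242959524133701664)) (.cons (.rf (nat_lit 627) (nat_lit 13124975035859174464)) .nil)))) .nil))))),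
 (.br (nat_lit 2) (nat_lit 0) (.cons (.rf (nat_lit 626) (nat_lit 14242959524133700672)) (.cons (.rf (nat_lit 626) (nat_lit 14130232098924135488)) (.cons (.rf (nat_lit 628) (nat_lit 14242959524133701664)) (.cons (.rf (nat_lit 628) (nat_lit 14130232098924136480)) (.cons (.br (nat_lit 2) (nat_lit 0) (.cons (.rf (nat_lit 626) (nat_lit 14242959524133700672)) (.cons (.rf (nat_lit 626) (nat_lit 14130232098924135488)) (.cons (.rf (nat_lit 628) (nat_lit 14242959524133701664)) (.cons (.rf (nat_lit 628) (nat_lit 14130232098924136480)) .nil))))) .nil)))))),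
 (.br (nat_lit 4) (nat_lit 0) (.cons (.kr (nat_lit 1208925819614629191483392) (nat_lit 1103806595072) (nat_lit 3) (nat_lit 0)) .nil)),
 (.br (nat_lit 2) (nat_lit 0) (.cons (.rf (nat_lit 626) (nat_lit 14242959524133700672)) (.cons (.rf (nat_lit 626) (nat_lit 14130232098924135488)) (.cons (.rf (nat_lit 629) (nat_lit 14242959524133701664)) (.cons (.br (nat_lit 3) (nat_lit 0) (.cons (.br (nat_lit 7) (nat_lit 0) (.cons (.ev (nat_lit 79537647579642933189986550530) (nat_lit 2)) .nil)) (.cons (.rf (nat_lit 630) (nat_lit 14242959524133701664)) (.cons (.rf (nat_lit 630) (nat_lit 8369178363801207872)) .nil)))) .nil))))),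
 (.br (nat_lit 2) (nat_lit 0) (.cons (.rf (nat_lit 626) (nat_lit 14242959524133700672)) (.cons (.rf (nat_lit 626) (nat_lit 14130232098924135488)) (.cons (.rf (nat_lit 629) (nat_lit 14242959524133701664)) (.cons (.rf (nat_lit 631) (nat_lit 14242959524133701664)) (.cons (.br (nat_lit 2) (nat_lit 0) (.cons (.rf (nat_lit 626) (nat_lit 14242959524133700672)) (.cons (.rf (nat_lit 626) (nat_lit 14130232098924135488)) (.cons (.rf (nat_lit 629) (nat_lit 14242959524133701664)) (.cons (.rf (nat_lit 631) (nat_lit 14242959524133701664)) .nil))))) .nil)))))),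
 (.br (nat_lit 2) (nat_lit 0) (.cons (.rf (nat_lit 626) (nat_lit 14242959524133700672)) (.cons (.rf (nat_lit 626) (nat_lit 14130232098924135488)) (.cons (.rf (nat_lit 629) (nat_lit 14242959524133701664)) (.cons (.rf (nat_lit 632) (nat_lit 14242959524133701664)) (.cons (.rf (nat_lit 632) (nat_lit 14130232098924136480)) (.cons (.br (nat_lit 2) (nat_lit 0) (.cons (.rf (nat_lit 626) (nat_lit 14242959524133700672)) (.cons (.rf (nat_lit 626) (nat_lit 14130232098924135488)) (.cons (.rf (nat_lit 629) (nat_lit 14242959524133701664)) (.cons (.rf (nat_lit 632) (nat_lit 14242959524133701664)) (.cons (.rf (nat_lit 632) (nat_lit 14130232098924136480)) .nil)))))) .nil))))))),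
 (.br (nat_lit 1) (nat_lit 0) (.cons (.rf (nat_lit 596) (nat_lit 9840068609)) (.cons (.rf (nat_lit 626) (nat_lit 14242959524133701664)) (.cons (.rf (nat_lit 626) (nat_lit 14130232098924136480)) (.cons (.rf (nat_lit 633) (nat_lit 14242959524133701664)) (.cons (.rf (nat_lit 633) (nat_lit 13124975035859175456)) .nil)))))),
 (.br (nat_lit 1) (nat_lit 0) (.cons (.rf (nat_lit 601) (nat_lit 14242959524133701664)) (.cons (.rf (nat_lit 626) (nat_lit 14242959524133701664)) (.cons (.rf (nat_lit 626) (nat_lit 14130232098924136480)) (.cons (.rf (nat_lit 634) (nat_lit 14242959524133701664)) (.cons (.rf (nat_lit 634) (nat_lit 14130232098924136480)) (.cons (.br (nat_lit 1) (nat_lit 0) (.cons (.rf (nat_lit 601) (nat_lit 14242959524133701664)) (.cons (.rf (nat_lit 626) (nat_lit 14242959524133701664)) (.cons (.rf (nat_lit 626) (nat_lit 14130232098924136480)) (.cons (.rf (nat_lit 634) (nat_lit 14242959524133701664)) (.cons (.rf (nat_lit 634) (nat_lit 9487162852075735072)) .nil)))))) .nil))))))),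
 (.br (nat_lit 10) (nat_lit 0) (.cons (.br (nat_lit 1) (nat_lit 0) (.cons (.rf (nat_lit 601) (nat_lit 14242959524133701664)) (.cons (.rf (nat_lit 626) (nat_lit 14242959524133701664)) (.cons (.rf (nat_lit 626) (nat_lit 14130232098924136480)) (.cons (.rf (nat_lit 635) (nat_lit 14242959524133701664)) (.cons (.rf (nat_lit 635) (nat_lit 13124975035859175456)) (.cons (.rf (nat_lit 635) (nat_lit 9487162852075735072)) (.cons (.rf (nat_lit 635) (nat_lit 8369178363801208864)) .nil)))))))) .nil)),
 (.br (nat_lit 8) (nat_lit 1) (.cons (.rf (nat_lit 3) (nat_lit 148381144327)) (.cons (.br (nat_lit 9) (nat_lit 0) (.cons (.rf (nat_lit 636) (nat_lit 14242959524133701664)) (.cons (.rf (nat_lit 636) (nat_lit 13126066816545818656)) .nil))) .nil))),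
 (.br (nat_lit 9) (nat_lit 1) (.cons (.br (nat_lit 6) (nat_lit 0) (.cons (.rf (nat_lit 1) (nat_lit 8590563)) (.cons (.rf (nat_lit 1) (nat_lit 7542019)) (.cons (.br (nat_lit 6) (nat_lit 0) (.cons (.rf (nat_lit 1) (nat_lit 8590563)) (.cons (.rf (nat_lit 1) (nat_lit 7542019)) (.cons (.br (nat_lit 7) (nat_lit 1) (.cons (.rf (nat_lit 637) (nat_lit 14242959524133701664)) (.cons (.rf (nat_lit 637) (nat_lit 14241868808598947872)) .nil))) .nil)))) .nil)))) .nil)),
 (.br (nat_lit 8) (nat_lit 0) (.cons (.br (nat_lit 11) (nat_lit 0) (.cons (.ev (nat_lit 1110433476332920513487373730312) (nat_lit 4)) .nil)) (.cons (.ev (nat_lit 792282895607810887736999018496) (nat_lit 4)) .nil))),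
 (.br (nat_lit 2) (nat_lit 0) (.cons (.br (nat_lit 7) (nat_lit 0) (.cons (.rf (nat_lit 639) (nat_lit 14242959524133701664)) (.cons (.rf (nat_lit 639) (nat_lit 14133785715036751904)) (.cons (.rf (nat_lit 124) (nat_lit 145236264961)) .nil)))) (.cons (.rf (nat_lit 596) (nat_lit 10007741442)) (.cons (.rf (nat_lit 596) (nat_lit 11051074562)) (.cons (.rf (nat_lit 596) (nat_lit 11052123138)) .nil))))),
 (.br (nat_lit 2) (nat_lit 0) (.cons (.rf (nat_lit 596) (nat_lit 10007741442)) (.cons (.rf (nat_lit 596) (nat_lit 6618842114)) (.cons (.br (nat_lit 8) (nat_lit 0) (.cons (.ev (nat_lit 4740813509517859881216) (nat_lit 1)) (.cons (.ev (nat_lit 18447025548703105024) (nat_lit 1)) (.cons (.br (nat_lit 4) (nat_lit 0) (.cons (.br (nat_lit 7) (nat_lit 0) (.cons (.zr (nat_lit 4835703278462914745597952) (nat_lit 79537652264971248678949880065) (nat_lit 10) (nat_lit 8)) .nil)) (.cons (.rf (nat_lit 137) (nat_lit 12514732673056)) .nil))) (.cons (.ev (nat_lit 4740813509517859880961) (nat_lit 1)) .nil)))))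 (.cons (.rf (nat_lit 596) (nat_lit 5717099522)) .nil))))),
 (.br (nat_lit 1) (nat_lit 0) (.cons (.kr (nat_lit 1) (nat_lit 256) (nat_lit 0) (nat_lit 2)) (.cons (.rf (nat_lit 596) (nat_lit 6617663489)) (.cons (.rf (nat_lit 596) (nat_lit 6618712065)) (.cons (.rf (nat_lit 596) (nat_lit 5581670401)) (.cons (.br (nat_lit 2) (nat_lit 0) (.cons (.rf (nat_lit 640) (nat_lit 14242959524133701664)) (.cons (.br (nat_lit 2) (nat_lit 0) (.cons (.rf (nat_lit 640) (nat_lit 14242959524133701664)) (.cons (.rf (nat_lit 596) (nat_lit 6618842114)) (.cons (.rf (nat_lit 596) (nat_lit 5581800450)) (.cons (.rf (nat_lit 640) (nat_lit 5019587487287314433)) .nil))))) (.cons (.rf (nat_lit 641) (nat_lit 14242959524133701664)) (.cons (.rf (nat_lit 641) (nat_lit 14133785715036751904)) (.cons (.rf (nat_lit 640) (nat_lit 5019587487287314433)) .nil)))))) .nil)))))),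
 (.br (nat_lit 11) (nat_lit 0) (.cons (.ev (nat_lit 1584564502009576738165982233090) (nat_lit 5)) .nil)),
 (.br (nat_lit 4) (nat_lit 0) (.cons (.rf (nat_lit 643) (nat_lit 14242959524133701664)) (.cons (.rf (nat_lit 643) (nat_lit 14133785715036751904)) (.cons (.kr (nat_lit 79228162514264337593560727552) (nat_lit 72057598332895232) (nat_lit 3) (nat_lit 0)) .nil)))),
 (.br (nat_lit 12) (nat_lit 0) (.cons (.rf (nat_lit 644) (nat_lit 8472617123635660832)) (.cons (.ev (nat_lit 158457567084845050558318380032) (nat_lit 3)) (.cons (.br (nat_lit 4) (nat_lit 0) (.cons (.ev (nat_lit 1589516318539968135396817110554) (nat_lit 5)) .nil)) .nil)))),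
 (.br (nat_lit 2) (nat_lit 0) (.cons (.rf (nat_lit 596) (nat_lit 6618711042)) (.cons (.rf (nat_lit 596) (nat_lit 10007741442)) (.cons (.rf (nat_lit 596) (nat_lit 6618842114)) (.cons (.br (nat_lit 3) (nat_lit 0) (.cons (.br (nat_lit 7) (nat_lit 0) (.cons (.ev (nat_lit 1242056460490567862714372) (nat_lit 3)) (.cons (.ev (nat_lit 1239182021958894565170610180) (nat_lit 3)) (.cons (.kr (nat_lit 79228162514264337593560727552) (nat_lit 72057598332895232) (nat_lit 3) (nat_lit 0)) .nil)))) (.cons (.rf (nat_lit 644) (nat_lit 14242959524133701664)) (.cons (.rf (nat_lit 645) (nat_lit 14242959524133701664)) (.cons (.rf (nat_lit 645) (nat_lit 14133785715036751904)) (.cons (.br (nat_lit 4) (nat_lit 0) (.cons (.br (nat_lit 8) (nat_lit 0) (.cons (.ev (nat_lit 4759404369883451884032) (nat_lit 2)) .nil)) (.cons (.rf (nat_lit 645) (nat_lit 8472617123635660832)) (.cons (.rf (nat_lit 645) (nat_lit 8365624747688593440)) .nil)))) .nil)))))) (.cons (.rf (nat_lit 596) (nat_lit 5717099522)) .nil))))))]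

theorem c19 : chkAll C T R L19 (nat_lit 614) = true := by decide +kernel

theorem l19 : (nat_lit 614) + L19.length = (nat_lit 647) := by decide +kernel

/-- part of the certificates -/
def L20 : List Prf := [(.br (nat_lit 1) (nat_lit 0) (.cons (.rf (nat_lit 596) (nat_lit 6617663489)) (.cons (.rf (nat_lit 642) (nat_lit 8365624747688593440)) (.cons (.rf (nat_lit 596) (nat_lit 6618843137)) (.cons (.rf (nat_lit 596) (nat_lit 5581801473)) (.cons (.br (nat_lit 2) (nat_lit 0) (.cons (.rf (nat_lit 642) (nat_lit 14242959524133700672)) (.cons (.rf (nat_lit 642) (nat_lit 8365624747688592448)) (.cons (.rf (nat_lit 642) (nat_lit 5019587349848490049)) (.cons (.rf (nat_lit 646) (nat_lit 14242959524133701664)) (.cons (.rf (nat_lit 646) (nat_lit 14133785715036751904)) (.cons (.rf (nat_lit 642) (nat_lit 3753938454387753025)) .nil))))))) .nil)))))),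
 (.br (nat_lit 1) (nat_lit 0) (.cons (.rf (nat_lit 596) (nat_lit 6618712065)) (.cons (.rf (nat_lit 596) (nat_lit 10007742465)) (.cons (.rf (nat_lit 596) (nat_lit 6618843137)) (.cons (.br (nat_lit 2) (nat_lit 0) (.cons (.rf (nat_lit 642) (nat_lit 14242959524133700672)) (.cons (.rf (nat_lit 642) (nat_lit 8365624747688592448)) (.cons (.rf (nat_lit 647) (nat_lit 14242959524133700672)) (.cons (.rf (nat_lit 597) (nat_lit 12818355836782624)) (.cons (.rf (nat_lit 597) (nat_lit 9439559859406880)) (.cons (.rf (nat_lit 647) (nat_lit 8365624747688592448)) .nil))))))) (.cons (.rf (nat_lit 596) (nat_lit 5717100545)) .nil)))))),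
 (.br (nat_lit 1) (nat_lit 0) (.cons (.rf (nat_lit 642) (nat_lit 14242959524133701664)) (.cons (.rf (nat_lit 642) (nat_lit 8365624747688593440)) (.cons (.rf (nat_lit 647) (nat_lit 14242959524133701664)) (.cons (.rf (nat_lit 648) (nat_lit 14242959524133701664)) (.cons (.rf (nat_lit 648) (nat_lit 14133785715036751904)) (.cons (.rf (nat_lit 647) (nat_lit 8365624747688593440)) .nil))))))),
 (.br (nat_lit 8) (nat_lit 0) (.cons (.br (nat_lit 2) (nat_lit 0) (.cons (.rf (nat_lit 30) (nat_lit 13446741592096)) (.cons (.br (nat_lit 11) (nat_lit 0) (.cons (.ev (nat_lit 1858142633762665645409042950) (nat_lit 3)) .nil)) .nil))) (.cons (.ev (nat_lit 4740813509517859880961) (nat_lit 1)) .nil))),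
 (.br (nat_lit 2) (nat_lit 0) (.cons (.rf (nat_lit 650) (nat_lit 14242959524133701664)) (.cons (.rf (nat_lit 650) (nat_lit 14133785715036751904)) (.cons (.br (nat_lit 2) (nat_lit 0) (.cons (.rf (nat_lit 650) (nat_lit 14242959524133701664)) (.cons (.rf (nat_lit 650) (nat_lit 14133785715036751904)) .nil))) .nil)))),
 (.br (nat_lit 2) (nat_lit 0) (.cons (.rf (nat_lit 30) (nat_lit 13446741592096)) (.cons (.br (nat_lit 7) (nat_lit 0) (.cons (.ev (nat_lit 476608185663252241289904000516) (nat_lit 4)) .nil)) .nil))),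
 (.br (nat_lit 8) (nat_lit 0) (.cons (.ev (nat_lit 18446745177516146689) (nat_lit 1)) (.cons (.br (nat_lit 2) (nat_lit 0) (.cons (.rf (nat_lit 651) (nat_lit 14242959524133701664)) (.cons (.rf (nat_lit 652) (nat_lit 14242959524133701664)) (.cons (.br (nat_lit 2) (nat_lit 0) (.cons (.rf (nat_lit 651) (nat_lit 14242959524133701664)) (.cons (.rf (nat_lit 652) (nat_lit 14242959524133701664)) .nil))) .nil)))) (.cons (.ev (nat_lit 4740813509517859880961) (nat_lit 1)) .nil)))),
 (.br (nat_lit 2) (nat_lit 0) (.cons (.rf (nat_lit 651) (nat_lit 14242959524133701664)) (.cons (.rf (nat_lit 653) (nat_lit 14242959524133701664)) (.cons (.rf (nat_lit 653) (nat_lit 14133785715036751904)) (.cons (.br (nat_lit 2) (nat_lit 0) (.cons (.rf (nat_lit 651) (nat_lit 14242959524133701664)) (.cons (.rf (nat_lit 653) (nat_lit 14242959524133701664)) (.cons (.rf (nat_lit 653) (nat_lit 14133785715036751904)) .nil)))) .nil))))),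
 (.br (nat_lit 2) (nat_lit 0) (.cons (.ev (nat_lit 18447025548703105024) (nat_lit 1)) (.cons (.br (nat_lit 7) (nat_lit 0) (.cons (.br (nat_lit 11) (nat_lit 0) (.cons (.ev (nat_lit 476608166774071718883688711176) (nat_lit 4)) .nil)) (.cons (.rf (nat_lit 30) (nat_lit 12382629890080)) .nil))) .nil))),
 (.br (nat_lit 2) (nat_lit 0) (.cons (.ev (nat_lit 18447025548703105024) (nat_lit 1)) (.cons (.br (nat_lit 7) (nat_lit 0) (.cons (.ev (nat_lit 4740813226947649798401) (nat_lit 1)) (.cons (.ev (nat_lit 310698658007443671351296001) (nat_lit 1)) (.cons (.br (nat_lit 8) (nat_lit 0) (.cons (.ev (nat_lit 1858161744878321576751007236) (nat_lit 4)) .nil)) .nil)))) .nil))),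
 (.br (nat_lit 2) (nat_lit 0) (.cons (.rf (nat_lit 655) (nat_lit 14242959524133701664)) (.cons (.rf (nat_lit 656) (nat_lit 14242959524133701664)) (.cons (.br (nat_lit 2) (nat_lit 0) (.cons (.rf (nat_lit 655) (nat_lit 14242959524133701664)) (.cons (.rf (nat_lit 656) (nat_lit 14242959524133701664)) .nil))) .nil)))),
 (.br (nat_lit 2) (nat_lit 0) (.cons (.ev (nat_lit 18447025548703105024) (nat_lit 1)) (.cons (.ev (nat_lit 4740813226947649798144) (nat_lit 1)) .nil))),
 (.br (nat_lit 2) (nat_lit 0) (.cons (.rf (nat_lit 657) (nat_lit 14242959524133701664)) (.cons (.br (nat_lit 2) (nat_lit 0) (.cons (.rf (nat_lit 657) (nat_lit 14242959524133701664)) (.cons (.rf (nat_lit 658) (nat_lit 14242959524133701664)) (.cons (.rf (nat_lit 657) (nat_lit 8472617123635660832)) .nil)))) (.cons (.br (nat_lit 2) (nat_lit 0) (.cons (.rf (nat_lit 657) (nat_lit 14242959524133701664)) (.cons (.rf (nat_lit 658) (nat_lit 14242959524133701664)) (.cons (.rf (nat_lit 657) (nat_lit 8472617123635660832)) .nil)))) (.cons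 (.rf (nat_lit 657) (nat_lit 8472617123635660832)) .nil))))),
 (.br (nat_lit 1) (nat_lit 0) (.cons (.kr (nat_lit 1) (nat_lit 256) (nat_lit 0) (nat_lit 2)) (.cons (.rf (nat_lit 654) (nat_lit 14242959524133701664)) (.cons (.rf (nat_lit 659) (nat_lit 14242959524133701664)) (.cons (.rf (nat_lit 659) (nat_lit 14133785715036751904)) (.cons (.rf (nat_lit 654) (nat_lit 8365624747688593440)) .nil)))))),
 (.br (nat_lit 8) (nat_lit 0) (.cons (.ev (nat_lit 18447025548703105024) (nat_lit 1)) (.cons (.ev (nat_lit 1858142633763795960609113606) (nat_lit 3)) .nil))),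
 (.br (nat_lit 2) (nat_lit 0) (.cons (.ev (nat_lit 18447025548703105024) (nat_lit 1)) (.cons (.br (nat_lit 7) (nat_lit 0) (.cons (.ev (nat_lit 79538861172344119234398257408) (nat_lit 1)) .nil)) .nil))),
 (.br (nat_lit 8) (nat_lit 0) (.cons (.rf (nat_lit 49) (nat_lit 12382629890080)) (.cons (.ev (nat_lit 79229371458603036464971251968) (nat_lit 1)) .nil))),
 (.br (nat_lit 7) (nat_lit 0) (.cons (.rf (nat_lit 49) (nat_lit 12382629890080)) (.cons (.ev (nat_lit 79228167255149622130953421056) (nat_lit 1)) .nil))),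
 (.br (nat_lit 10) (nat_lit 0) (.cons (.ev (nat_lit 1213648186097498836697089) (nat_lit 1)) (.cons (.rf (nat_lit 407) (nat_lit 7983610300448)) (.cons (.rf (nat_lit 407) (nat_lit 9048762189856)) .nil)))),
 (.br (nat_lit 4) (nat_lit 0) (.cons (.br (nat_lit 7) (nat_lit 0) (.cons (.br (nat_lit 2) (nat_lit 0) (.cons (.ev (nat_lit 1242056460490567863109120) (nat_lit 3)) (.cons (.rf (nat_lit 199) (nat_lit 9447819066286933056)) (.cons (.br (nat_lit 8) (nat_lit 0) (.cons (.br (nat_lit 11) (nat_lit 0) (.cons (.ev (nat_lit 79537647524157741360113254401) (nat_lit 1)) .nil)) (.cons (.rf (nat_lit 46) (nat_lit 13446741592096)) .nil))) .nil)))) (.cons (.ev (nat_lit 18446745177516146689) (nat_lit 1)) (.cons (.br (nat_lit 8) (nat_lit 0) (.cons (.br (nat_lit 2) (nat_lit 0) (.cons (.rf (nat_lit 46) (nat_lit 12382629890080)) (.cons (.br (nat_lit 11) (nat_lit 0) (.cons (.zr (nat_lit 4722366764361869165568) (nat_lit 622596833995025470927667206) (nat_lit 10) (nat_lit 0)) .nil)) .nil))) (.cons (.rf (nat_lit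 217) (nat_lit 8836450336)) (.cons (.br (nat_lit 2) (nat_lit 0) (.cons (.ev (nat_lit 309489787672176451397877762) (nat_lit 2)) (.cons (.ev (nat_lit 79228167273740482496545423362) (nat_lit 2)) .nil))) .nil)))) (.cons (.br (nat_lit 8) (nat_lit 0) (.cons (.br (nat_lit 2) (nat_lit 0) (.cons (.br (nat_lit 11) (nat_lit 0) (.cons (.ev (nat_lit 309489732187827938386771969) (nat_lit 1)) .nil)) (.cons (.rf (nat_lit 46) (nat_lit 13481067776032)) .nil))) (.cons (.br (nat_lit 2) (nat_lit 0) (.cons (.br (nat_lit 2) (nat_lit 0) (.cons (.ev (nat_lit 79537657061412658947943301124) (nat_lit 3)) .nil)) (.cons (.br (nat_lit 2) (nat_lit 0) (.cons (.ev (nat_lit 79537657061412658947943301124) (nat_lit 3)) .nil)) .nil))) (.cons (.rf (nat_lit 217) (nat_lit 8837498912)) .nil)))) .nil))))) (.cons (.rf (nat_lit 393) (nat_lit 255435970021408)) (.cons (.ev (nat_lit 18446745177516146944) (nat_lit 1)) (.cons (.br (nat_lit 11) (nat_lit 0) (.cons (.br (nat_lit 2) (nat_lit 0) (.cons (.rf (nat_lit 661) (nat_lit 14242959524133701664))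 (.cons (.rf (nat_lit 662) (nat_lit 14242959524133701664)) (.cons (.br (nat_lit 2) (nat_lit 0) (.cons (.rf (nat_lit 661) (nat_lit 14242959524133701664)) (.cons (.rf (nat_lit 662) (nat_lit 14242959524133701664)) .nil))) .nil)))) (.cons (.rf (nat_lit 392) (nat_lit 282767493152)) (.cons (.rf (nat_lit 392) (nat_lit 249481496608)) (.cons (.br (nat_lit 12) (nat_lit 0) (.cons (.br (nat_lit 7) (nat_lit 0) (.cons (.br (nat_lit 2) (nat_lit 0) (.cons (.ev (nat_lit 476608166774071718883688711176) (nat_lit 4)) .nil)) (.cons (.ev (nat_lit 79228167255149622130953420801) (nat_lit 1)) .nil))) (.cons (.rf (nat_lit 407) (nat_lit 7983677409312)) (.cons (.rf (nat_lit 407) (nat_lit 9048829298720)) .nil)))) .nil))))) (.cons (.br (nat_lit 12) (nat_lit 0) (.cons (.br (nat_lit 2) (nat_lit 0) (.cons (.rf (nat_lit 663) (nat_lit 14242959524133701664)) (.cons (.rf (nat_lit 664) (nat_lit 14242959524133701664)) (.cons (.br (nat_lit 2) (nat_lit 0) (.cons (.rf (nat_lit 663) (nat_lit 14242959524133701664)) (.cons (.rf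 (nat_lit 664) (nat_lit 14242959524133701664)) .nil))) .nil)))) (.cons (.rf (nat_lit 392) (nat_lit 282801047584)) (.cons (.rf (nat_lit 392) (nat_lit 249515051040)) (.cons (.rf (nat_lit 665) (nat_lit 445056165777344544)) .nil))))) .nil)))))),
 (.br (nat_lit 8) (nat_lit 0) (.cons (.ev (nat_lit 1208944266641281667629313) (nat_lit 1)) (.cons (.ev (nat_lit 1208944266358702901035009) (nat_lit 1)) .nil))),
 (.br (nat_lit 2) (nat_lit 0) (.cons (.rf (nat_lit 667) (nat_lit 14242959524133701664)) (.cons (.rf (nat_lit 667) (nat_lit 14133785715036751904)) (.cons (.rf (nat_lit 197) (nat_lit 420105783328)) .nil)))),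
 (.br (nat_lit 2) (nat_lit 0) (.cons (.rf (nat_lit 667) (nat_lit 14242959524133701664)) (.cons (.br (nat_lit 8) (nat_lit 0) (.cons (.ev (nat_lit 4740813226947649798401) (nat_lit 1)) (.cons (.ev (nat_lit 620212112709559986996641792) (nat_lit 3)) (.cons (.ev (nat_lit 4740813509517859880961) (nat_lit 1)) .nil)))) (.cons (.rf (nat_lit 666) (nat_lit 8472617123635659840)) .nil)))),
 (.br (nat_lit 2) (nat_lit 0) (.cons (.rf (nat_lit 668) (nat_lit 14242959524133701664)) (.cons (.rf (nat_lit 669) (nat_lit 14242959524133701664)) (.cons (.rf (nat_lit 669) (nat_lit 14133785715036751904)) (.cons (.br (nat_lit 2) (nat_lit 0) (.cons (.rf (nat_lit 197) (nat_lit 420105783328)) (.cons (.rf (nat_lit 666) (nat_lit 8472617123635659840)) (.cons (.rf (nat_lit 666) (nat_lit 8365624747688592448)) .nil)))) .nil))))),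
 (.br (nat_lit 2) (nat_lit 0) (.cons (.rf (nat_lit 667) (nat_lit 14242959524133701664)) (.cons (.br (nat_lit 12) (nat_lit 0) (.cons (.zr (nat_lit 475377437566323333463112417280) (nat_lit 14167533201582406500866) (nat_lit 20) (nat_lit 8)) (.cons (.ev (nat_lit 4740813509517859880961) (nat_lit 1)) (.cons (.ev (nat_lit 310693935641242272404602881) (nat_lit 1)) .nil)))) (.cons (.br (nat_lit 4) (nat_lit 0) (.cons (.ev (nat_lit 79228171996107529424279240705) (nat_lit 2)) (.cons (.br (nat_lit 8) (nat_lit 0) (.cons (.ev (nat_lit 620212112998355503568520708) (nat_lit 3)) .nil)) .nil))) .nil)))),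
 (.br (nat_lit 2) (nat_lit 0) (.cons (.rf (nat_lit 670) (nat_lit 14242959524133701664)) (.cons (.rf (nat_lit 671) (nat_lit 14242959524133701664)) (.cons (.rf (nat_lit 671) (nat_lit 14133785715036751904)) (.cons (.br (nat_lit 2) (nat_lit 0) (.cons (.rf (nat_lit 197) (nat_lit 420105783328)) (.cons (.rf (nat_lit 671) (nat_lit 14242959524133701664)) (.cons (.rf (nat_lit 671) (nat_lit 14133785715036751904)) .nil)))) .nil))))),
 (.br (nat_lit 2) (nat_lit 0) (.cons (.rf (nat_lit 670) (nat_lit 14242959524133701664)) (.cons (.rf (nat_lit 672) (nat_lit 14242959524133701664)) (.cons (.br (nat_lit 4) (nat_lit 0) (.cons (.br (nat_lit 8) (nat_lit 0) (.cons (.ev (nat_lit 620212112709559986996642820) (nat_lit 3)) .nil)) (.cons (.rf (nat_lit 230) (nat_lit 12870450330524059680)) (.cons (.rf (nat_lit 230) (nat_lit 9447819066286934048)) .nil)))) .nil)))),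
 (.br (nat_lit 2) (nat_lit 0) (.cons (.rf (nat_lit 670) (nat_lit 14242959524133701664)) (.cons (.rf (nat_lit 672) (nat_lit 14242959524133701664)) (.cons (.rf (nat_lit 673) (nat_lit 14242959524133701664)) (.cons (.br (nat_lit 2) (nat_lit 0) (.cons (.rf (nat_lit 666) (nat_lit 8472617123635659840)) (.cons (.rf (nat_lit 672) (nat_lit 14242959524133701664)) (.cons (.rf (nat_lit 673) (nat_lit 14242959524133701664)) .nil)))) .nil))))),
 (.br (nat_lit 1) (nat_lit 0) (.cons (.rf (nat_lit 596) (nat_lit 6617663489)) (.cons (.rf (nat_lit 660) (nat_lit 14242959524133701664)) (.cons (.rf (nat_lit 666) (nat_lit 14242959524133701664)) (.cons (.rf (nat_lit 666) (nat_lit 14133785715036751904)) (.cons (.br (nat_lit 2) (nat_lit 0) (.cons (.rf (nat_lit 670) (nat_lit 14242959524133701664)) (.cons (.rf (nat_lit 672) (nat_lit 14242959524133701664)) (.cons (.rf (nat_lit 674) (nat_lit 14242959524133701664)) (.cons (.rf (nat_lit 674) (nat_lit 14133785715036751904)) (.cons (.br (nat_lit 2) (nat_lit 0) (.cons (.rf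 (nat_lit 670) (nat_lit 14242959524133701664)) (.cons (.rf (nat_lit 672) (nat_lit 14242959524133701664)) (.cons (.rf (nat_lit 674) (nat_lit 14242959524133701664)) (.cons (.rf (nat_lit 674) (nat_lit 14133785715036751904)) .nil))))) .nil)))))) .nil)))))),
 (.br (nat_lit 2) (nat_lit 0) (.cons (.br (nat_lit 7) (nat_lit 0) (.cons (.ev (nat_lit 309485009821626547996459009) (nat_lit 1)) (.cons (.br (nat_lit 11) (nat_lit 0) (.cons (.ev (nat_lit 79229376180969518235104903425) (nat_lit 1)) .nil)) .nil))) (.cons (.ev (nat_lit 309485065161862063398584832) (nat_lit 2)) (.cons (.rf (nat_lit 675) (nat_lit 8365624747688592448)) .nil)))),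
 (.br (nat_lit 2) (nat_lit 0) (.cons (.rf (nat_lit 676) (nat_lit 14242959524133701664)) (.cons (.ev (nat_lit 18447025548703105024) (nat_lit 1)) (.cons (.br (nat_lit 7) (nat_lit 0) (.cons (.ev (nat_lit 18446745177516146689) (nat_lit 1)) (.cons (.rf (nat_lit 202) (nat_lit 14168722698049521696)) (.cons (.br (nat_lit 4) (nat_lit 0) (.cons (.ev (nat_lit 158457548195380244996757128192) (nat_lit 3)) .nil)) .nil)))) .nil)))),
 (.br (nat_lit 2) (nat_lit 0) (.cons (.rf (nat_lit 676) (nat_lit 14242959524133701664)) (.cons (.rf (nat_lit 677) (nat_lit 14242959524133701664)) (.cons (.ev (nat_lit 309485065161862063398584832) (nat_lit 2)) (.cons (.br (nat_lit 2) (nat_lit 0) (.cons (.rf (nat_lit 675) (nat_lit 8365624747688592448)) (.cons (.rf (nat_lit 677) (nat_lit 14242959524133701664)) (.cons (.ev (nat_lit 309485065161862063398584832) (nat_lit 2)) .nil)))) .nil))))),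
 (.br (nat_lit 11) (nat_lit 0) (.cons (.rf (nat_lit 678) (nat_lit 14133785715036751904)) (.cons (.rf (nat_lit 216) (nat_lit 386786232352)) (.cons (.rf (nat_lit 216) (nat_lit 386954004512)) .nil))))]

theorem c20 : chkAll C T R L20 (nat_lit 647) = true := by decide +kernel

theorem l20 : (nat_lit 647) + L20.length = (nat_lit 680) := by decide +kernel

/-- part of the certificates -/
def L21 : List Prf := [(.br (nat_lit 4) (nat_lit 0) (.cons (.ev (nat_lit 18446745177516146689) (nat_lit 1)) (.cons (.rf (nat_lit 392) (nat_lit 386786232352)) (.cons (.rf (nat_lit 216) (nat_lit 286928242720)) (.cons (.br (nat_lit 11) (nat_lit 0) (.cons (.rf (nat_lit 678) (nat_lit 14133785715036751904)) (.cons (.ev (nat_lit 309485065161862063398584832) (nat_lit 2)) (.cons (.rf (nat_lit 392) (nat_lit 287096014880)) .nil)))) .nil))))),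
 (.br (nat_lit 8) (nat_lit 0) (.cons (.rf (nat_lit 678) (nat_lit 14242959524133701664)) (.cons (.rf (nat_lit 679) (nat_lit 14242959524133701664)) (.cons (.rf (nat_lit 680) (nat_lit 14242959524133701664)) (.cons (.ev (nat_lit 1858152078207963949944538112) (nat_lit 3)) (.cons (.br (nat_lit 11) (nat_lit 0) (.cons (.rf (nat_lit 678) (nat_lit 14133785715036751904)) (.cons (.rf (nat_lit 216) (nat_lit 287096014880)) (.cons (.rf (nat_lit 680) (nat_lit 14133785715036751904)) (.cons (.ev (nat_lit 309485065161862063398584832) (nat_lit 2)) .nil))))) .nil)))))),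
 (.br (nat_lit 2) (nat_lit 0) (.cons (.br (nat_lit 7) (nat_lit 0) (.cons (.br (nat_lit 11) (nat_lit 0) (.cons (.zr (nat_lit 1208926179903707465908738) (nat_lit 309494473001617831728709632) (nat_lit 5) (nat_lit 2)) .nil)) (.cons (.rf (nat_lit 46) (nat_lit 7983677409312)) .nil))) (.cons (.br (nat_lit 7) (nat_lit 0) (.cons (.ev (nat_lit 18446745177516146689) (nat_lit 1)) (.cons (.ev (nat_lit 310693935640959702194520321) (nat_lit 1)) (.cons (.br (nat_lit 8) (nat_lit 0) (.cons (.ev (nat_lit 79537675950878594824570930180) (nat_lit 3)) .nil)) .nil)))) (.cons (.rf (nat_lit 675) (nat_lit 8365624747688592448)) .nil)))),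
 (.br (nat_lit 2) (nat_lit 0) (.cons (.rf (nat_lit 682) (nat_lit 14242959524133701664)) (.cons (.br (nat_lit 2) (nat_lit 0) (.cons (.rf (nat_lit 682) (nat_lit 14242959524133701664)) (.cons (.rf (nat_lit 681) (nat_lit 8472617123635659840)) (.cons (.ev (nat_lit 316913892113229610583133913600) (nat_lit 3)) .nil)))) (.cons (.br (nat_lit 2) (nat_lit 0) (.cons (.rf (nat_lit 682) (nat_lit 14242959524133701664)) (.cons (.rf (nat_lit 681) (nat_lit 8472617123635659840)) (.cons (.rf (nat_lit 675) (nat_lit 8365624747688592448)) .nil)))) (.cons (.rf (nat_lit 675) (nat_lit 8365624747688592448)) .nil))))),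
 (.br (nat_lit 2) (nat_lit 0) (.cons (.rf (nat_lit 683) (nat_lit 14242959524133701664)) (.cons (.ev (nat_lit 18447025548703105024) (nat_lit 1)) (.cons (.br (nat_lit 4) (nat_lit 0) (.cons (.ev (nat_lit 18446745177516146689) (nat_lit 1)) (.cons (.br (nat_lit 7) (nat_lit 0) (.cons (.ev (nat_lit 794758737759878084539772305416) (nat_lit 4)) .nil)) .nil))) .nil)))),
 (.br (nat_lit 2) (nat_lit 0) (.cons (.rf (nat_lit 683) (nat_lit 14242959524133701664)) (.cons (.ev (nat_lit 18447025548703105024) (nat_lit 1)) (.cons (.br (nat_lit 4) (nat_lit 0) (.cons (.zr (nat_lit 2417851639230362206535681) (nat_lit 79228167236847556195256369920) (nat_lit 5) (nat_lit 0)) (.cons (.ev (nat_lit 18447025548703105281) (nat_lit 1)) (.cons (.br (nat_lit 7) (nat_lit 0) (.cons (.ev (nat_lit 620202668264261682594841090) (nat_lit 3)) .nil)) .nil)))) .nil)))),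
 (.br (nat_lit 2) (nat_lit 0) (.cons (.rf (nat_lit 683) (nat_lit 14242959524133701664)) (.cons (.rf (nat_lit 684) (nat_lit 14242959524133701664)) (.cons (.rf (nat_lit 685) (nat_lit 14242959524133701664)) (.cons (.br (nat_lit 2) (nat_lit 0) (.cons (.rf (nat_lit 675) (nat_lit 8365624747688592448)) (.cons (.rf (nat_lit 684) (nat_lit 14242959524133701664)) (.cons (.rf (nat_lit 685) (nat_lit 14242959524133701664)) .nil)))) .nil))))),
 (.br (nat_lit 2) (nat_lit 0) (.cons (.rf (nat_lit 681) (nat_lit 8472617123635659840)) (.cons (.ev (nat_lit 18447025548703105024) (nat_lit 1)) (.cons (.rf (nat_lit 211) (nat_lit 441610433909065760)) .nil)))),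
 (.br (nat_lit 2) (nat_lit 0) (.cons (.rf (nat_lit 683) (nat_lit 14242959524133701664)) (.cons (.rf (nat_lit 686) (nat_lit 14242959524133701664)) (.cons (.rf (nat_lit 687) (nat_lit 14242959524133701664)) (.cons (.br (nat_lit 2) (nat_lit 0) (.cons (.ev (nat_lit 316913892113229610583133913600) (nat_lit 3)) (.cons (.rf (nat_lit 686) (nat_lit 14242959524133701664)) (.cons (.rf (nat_lit 211) (nat_lit 441610433909065760)) .nil)))) .nil))))),
 (.br (nat_lit 2) (nat_lit 0) (.cons (.rf (nat_lit 683) (nat_lit 14242959524133701664)) (.cons (.rf (nat_lit 686) (nat_lit 14242959524133701664)) (.cons (.rf (nat_lit 688) (nat_lit 14242959524133701664)) (.cons (.br (nat_lit 2) (nat_lit 0) (.cons (.rf (nat_lit 675) (nat_lit 8365624747688592448)) (.cons (.rf (nat_lit 686) (nat_lit 14242959524133701664)) (.cons (.rf (nat_lit 211) (nat_lit 441610433909065760)) .nil)))) .nil))))),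
 (.br (nat_lit 1) (nat_lit 0) (.cons (.rf (nat_lit 596) (nat_lit 6618712065)) (.cons (.rf (nat_lit 660) (nat_lit 14242959524133701664)) (.cons (.rf (nat_lit 675) (nat_lit 14242959524133701664)) (.cons (.rf (nat_lit 681) (nat_lit 14242959524133701664)) (.cons (.br (nat_lit 2) (nat_lit 0) (.cons (.rf (nat_lit 683) (nat_lit 14242959524133701664)) (.cons (.rf (nat_lit 686) (nat_lit 14242959524133701664)) (.cons (.rf (nat_lit 688) (nat_lit 14242959524133701664)) (.cons (.rf (nat_lit 689) (nat_lit 14242959524133701664)) (.cons (.br (nat_lit 2) (nat_lit 0) (.cons (.rf (nat_lit 675) (nat_lit 8365624747688592448)) (.cons (.rf (nat_lit 686) (nat_lit 14242959524133701664)) (.cons (.rf (nat_lit 688) (nat_lit 14242959524133701664)) (.cons (.rf (nat_lit 689) (nat_lit 14242959524133701664)) .nil))))) .nil)))))) .nil)))))),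
 (.br (nat_lit 1) (nat_lit 0) (.cons (.rf (nat_lit 649) (nat_lit 14242959524133701664)) (.cons (.rf (nat_lit 660) (nat_lit 14242959524133701664)) (.cons (.rf (nat_lit 675) (nat_lit 14242959524133701664)) (.cons (.rf (nat_lit 690) (nat_lit 14242959524133701664)) (.cons (.rf (nat_lit 690) (nat_lit 14133785715036751904)) (.cons (.br (nat_lit 1) (nat_lit 0) (.cons (.rf (nat_lit 649) (nat_lit 14242959524133701664)) (.cons (.rf (nat_lit 660) (nat_lit 14242959524133701664)) (.cons (.rf (nat_lit 675) (nat_lit 14242959524133701664)) (.cons (.rf (nat_lit 690) (nat_lit 14242959524133701664)) (.cons (.rf (nat_lit 690) (nat_lit 14133785715036751904)) .nil)))))) .nil))))))),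
 (.br (nat_lit 2) (nat_lit 0) (.cons (.ev (nat_lit 18447025548703039744) (nat_lit 1)) (.cons (.rf (nat_lit 211) (nat_lit 296539773348217920)) (.cons (.rf (nat_lit 267) (nat_lit 404627161877710880)) (.cons (.br (nat_lit 12) (nat_lit 0) (.cons (.ev (nat_lit 4740813509517859880961) (nat_lit 1)) (.cons (.rf (nat_lit 258) (nat_lit 14168722698049521696)) (.cons (.br (nat_lit 3) (nat_lit 0) (.cons (.ev (nat_lit 316913873223764804987212792832) (nat_lit 3)) .nil)) .nil)))) .nil))))),
 (.br (nat_lit 2) (nat_lit 0) (.cons (.rf (nat_lit 691) (nat_lit 14242959524133700672)) (.cons (.rf (nat_lit 691) (nat_lit 8365624747688592448)) (.cons (.rf (nat_lit 692) (nat_lit 14242959524133701664)) (.cons (.rf (nat_lit 692) (nat_lit 14133785715036751904)) (.cons (.br (nat_lit 2) (nat_lit 0) (.cons (.rf (nat_lit 691) (nat_lit 14242959524133700672)) (.cons (.rf (nat_lit 691) (nat_lit 8365624747688592448)) (.cons (.rf (nat_lit 692) (nat_lit 14242959524133701664)) (.cons (.rf (nat_lit 692) (nat_lit 14133785715036751904))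 .nil))))) .nil)))))),
 (.br (nat_lit 2) (nat_lit 0) (.cons (.ev (nat_lit 18447025548703039744) (nat_lit 1)) (.cons (.ev (nat_lit 313116564986904055612833792) (nat_lit 2)) (.cons (.rf (nat_lit 267) (nat_lit 404627161877710880)) (.cons (.br (nat_lit 3) (nat_lit 0) (.cons (.br (nat_lit 7) (nat_lit 0) (.cons (.ev (nat_lit 158765810093835213189492506626) (nat_lit 2)) .nil)) (.cons (.br (nat_lit 4) (nat_lit 0) (.cons (.ev (nat_lit 79538861172343838854655049985) (nat_lit 1)) .nil)) (.cons (.ev (nat_lit 4740813509517859880961) (nat_lit 1)) .nil)))) .nil))))),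
 (.br (nat_lit 2) (nat_lit 0) (.cons (.ev (nat_lit 18447025548703039744) (nat_lit 1)) (.cons (.rf (nat_lit 691) (nat_lit 8365624747688592448)) (.cons (.rf (nat_lit 693) (nat_lit 14242959524133701664)) (.cons (.rf (nat_lit 694) (nat_lit 14242959524133701664)) (.cons (.br (nat_lit 2) (nat_lit 0) (.cons (.ev (nat_lit 18447025548703039744) (nat_lit 1)) (.cons (.rf (nat_lit 691) (nat_lit 8365624747688592448)) (.cons (.rf (nat_lit 693) (nat_lit 14242959524133701664)) (.cons (.rf (nat_lit 694) (nat_lit 14242959524133701664)) .nil))))) .nil)))))),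
 (.br (nat_lit 2) (nat_lit 0) (.cons (.rf (nat_lit 691) (nat_lit 14242959524133700672)) (.cons (.rf (nat_lit 691) (nat_lit 8365624747688592448)) (.cons (.rf (nat_lit 693) (nat_lit 14242959524133701664)) (.cons (.rf (nat_lit 695) (nat_lit 14242959524133701664)) (.cons (.rf (nat_lit 695) (nat_lit 14133785715036751904)) (.cons (.br (nat_lit 2) (nat_lit 0) (.cons (.rf (nat_lit 691) (nat_lit 14242959524133700672)) (.cons (.rf (nat_lit 691) (nat_lit 8365624747688592448)) (.cons (.rf (nat_lit 693) (nat_lit 14242959524133701664)) (.cons (.rf (nat_lit 695) (nat_lit 14242959524133701664)) (.cons (.rf (nat_lit 695) (nat_lit 14133785715036751904)) .nil)))))) .nil))))))),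
 (.br (nat_lit 4) (nat_lit 0) (.cons (.ev (nat_lit 620212112998355503568781828) (nat_lit 3)) .nil)),
 (.br (nat_lit 2) (nat_lit 0) (.cons (.rf (nat_lit 596) (nat_lit 6618843137)) (.cons (.rf (nat_lit 691) (nat_lit 14242959524133700672)) (.cons (.rf (nat_lit 691) (nat_lit 8365624747688592448)) (.cons (.br (nat_lit 1) (nat_lit 0) (.cons (.rf (nat_lit 691) (nat_lit 14242959524133701664)) (.cons (.rf (nat_lit 691) (nat_lit 8365624747688593440)) (.cons (.rf (nat_lit 696) (nat_lit 14242959524133701664)) (.cons (.br (nat_lit 3) (nat_lit 0) (.cons (.rf (nat_lit 255) (nat_lit 12515773876256)) (.cons (.br (nat_lit 4) (nat_lit 0) (.cons (.ev (nat_lit 1112909346818606766839858727936) (nat_lit 4)) .nil)) .nil))) .nil))))) (.cons (.br (nat_lit 1) (nat_lit 0) (.cons (.rf (nat_lit 691) (nat_lit 14242959524133701664)) (.cons (.rf (nat_lit 691) (nat_lit 8365624747688593440)) (.cons (.rf (nat_lit 696) (nat_lit 14242959524133701664)) (.cons (.br (nat_lit 3) (nat_lit 0) (.cons (.br (nat_lit 8) (nat_lit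 0) (.cons (.ev (nat_lit 309485065162422822885196546) (nat_lit 2)) .nil)) (.cons (.rf (nat_lit 697) (nat_lit 14242959524133701664)) (.cons (.rf (nat_lit 697) (nat_lit 14133785715036750912)) .nil)))) .nil))))) .nil)))))),
 (.br (nat_lit 2) (nat_lit 0) (.cons (.rf (nat_lit 691) (nat_lit 14242959524133700672)) (.cons (.rf (nat_lit 691) (nat_lit 8365624747688592448)) (.cons (.rf (nat_lit 698) (nat_lit 14242959524133700672)) (.cons (.rf (nat_lit 698) (nat_lit 14133785715036750912)) (.cons (.rf (nat_lit 698) (nat_lit 14242959524133701664)) .nil)))))),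
 (.br (nat_lit 2) (nat_lit 0) (.cons (.rf (nat_lit 691) (nat_lit 14242959524133700672)) (.cons (.rf (nat_lit 691) (nat_lit 8365624747688592448)) (.cons (.rf (nat_lit 698) (nat_lit 14242959524133700672)) (.cons (.br (nat_lit 2) (nat_lit 0) (.cons (.rf (nat_lit 691) (nat_lit 14242959524133700672)) (.cons (.rf (nat_lit 691) (nat_lit 8365624747688592448)) (.cons (.rf (nat_lit 696) (nat_lit 14242959524133700672)) (.cons (.rf (nat_lit 696) (nat_lit 8472617123635659840)) .nil))))) (.cons (.rf (nat_lit 698) (nat_lit 8472617123635659840)) .nil)))))),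
 (.br (nat_lit 1) (nat_lit 0) (.cons (.rf (nat_lit 596) (nat_lit 6618843137)) (.cons (.rf (nat_lit 691) (nat_lit 14242959524133701664)) (.cons (.rf (nat_lit 691) (nat_lit 8365624747688593440)) (.cons (.rf (nat_lit 696) (nat_lit 14242959524133701664)) (.cons (.br (nat_lit 2) (nat_lit 0) (.cons (.rf (nat_lit 691) (nat_lit 14242959524133700672)) (.cons (.rf (nat_lit 691) (nat_lit 8365624747688592448)) (.cons (.rf (nat_lit 699) (nat_lit 14242959524133701664)) (.cons (.rf (nat_lit 700) (nat_lit 14242959524133701664)) (.cons (.br (nat_lit 2) (nat_lit 0) (.cons (.rf (nat_lit 691) (nat_lit 14242959524133700672)) (.cons (.rf (nat_lit 691) (nat_lit 8365624747688592448)) (.cons (.rf (nat_lit 698) (nat_lit 14133785715036750912)) (.cons (.rf (nat_lit 700) (nat_lit 14242959524133701664)) (.cons (.rf (nat_lit 698) (nat_lit 8365624747688592448)) .nil)))))) (.cons (.rf (nat_lit 699) (nat_lit 8472617123635660832)) .nil))))))) .nil)))))),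
 (.br (nat_lit 1) (nat_lit 0) (.cons (.rf (nat_lit 649) (nat_lit 14242959524133701664)) (.cons (.rf (nat_lit 691) (nat_lit 14242959524133701664)) (.cons (.rf (nat_lit 691) (nat_lit 8365624747688593440)) (.cons (.rf (nat_lit 701) (nat_lit 14242959524133701664)) (.cons (.rf (nat_lit 701) (nat_lit 14133785715036751904)) (.cons (.br (nat_lit 1) (nat_lit 0) (.cons (.rf (nat_lit 649) (nat_lit 14242959524133701664)) (.cons (.rf (nat_lit 691) (nat_lit 14242959524133701664)) (.cons (.rf (nat_lit 691) (nat_lit 8365624747688593440)) (.cons (.rf (nat_lit 701) (nat_lit 14242959524133701664)) (.cons (.rf (nat_lit 701) (nat_lit 14133785715036751904)) .nil)))))) .nil))))))),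
 (.br (nat_lit 1) (nat_lit 0) (.cons (.rf (nat_lit 649) (nat_lit 14242959524133701664)) (.cons (.rf (nat_lit 691) (nat_lit 14242959524133701664)) (.cons (.rf (nat_lit 691) (nat_lit 8365624747688593440)) (.cons (.rf (nat_lit 702) (nat_lit 14242959524133701664)) (.cons (.br (nat_lit 1) (nat_lit 0) (.cons (.rf (nat_lit 649) (nat_lit 14242959524133701664)) (.cons (.rf (nat_lit 691) (nat_lit 14242959524133701664)) (.cons (.rf (nat_lit 691) (nat_lit 8365624747688593440)) (.cons (.rf (nat_lit 702) (nat_lit 14242959524133701664)) (.cons (.rf (nat_lit 702) (nat_lit 8365624747688593440)) .nil)))))) (.cons (.rf (nat_lit 702) (nat_lit 8365624747688593440)) .nil))))))),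
 (.br (nat_lit 6) (nat_lit 0) (.cons (.rf (nat_lit 2) (nat_lit 11047998691)) (.cons (.br (nat_lit 8) (nat_lit 1) (.cons (.rf (nat_lit 3) (nat_lit 389005120739)) (.cons (.br (nat_lit 10) (nat_lit 0) (.cons (.rf (nat_lit 0) (nat_lit 11115107555)) (.cons (.br (nat_lit 11) (nat_lit 1) (.cons (.br (nat_lit 9) (nat_lit 0) (.cons (.br (nat_lit 1) (nat_lit 0) (.cons (.rf (nat_lit 649) (nat_lit 14242959524133701664)) (.cons (.rf (nat_lit 691) (nat_lit 14242959524133701664)) (.cons (.rf (nat_lit 691) (nat_lit 8365624747688593440)) (.cons (.rf (nat_lit 702) (nat_lit 14242959524133701664)) (.cons (.rf (nat_lit 703) (nat_lit 14242959524133701664)) (.cons (.rf (nat_lit 703) (nat_lit 14133785715036751904)) (.cons (.rf (nat_lit 702) (nat_lit 8365624747688593440)) .nil)))))))) .nil)) .nil)) .nil))) .nil))) .nil))),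
 (.br (nat_lit 1) (nat_lit 0) (.cons (.rf (nat_lit 596) (nat_lit 9834825729)) (.cons (.rf (nat_lit 596) (nat_lit 5675124737)) (.cons (.rf (nat_lit 596) (nat_lit 9840068609)) (.cons (.rf (nat_lit 596) (nat_lit 5682464769)) (.cons (.rf (nat_lit 638) (nat_lit 11479014317459457)) .nil)))))),
 (.br (nat_lit 1) (nat_lit 0) (.cons (.rf (nat_lit 596) (nat_lit 6618712065)) (.cons (.rf (nat_lit 596) (nat_lit 10007742465)) (.cons (.rf (nat_lit 596) (nat_lit 9840068609)) (.cons (.br (nat_lit 2) (nat_lit 0) (.cons (.rf (nat_lit 597) (nat_lit 4932687440873473)) (.cons (.rf (nat_lit 597) (nat_lit 3811289864570881)) (.cons (.rf (nat_lit 705) (nat_lit 14242959524133700672)) (.cons (.rf (nat_lit 597) (nat_lit 12818355836782624)) (.cons (.rf (nat_lit 597) (nat_lit 9263809797654560)) (.cons (.rf (nat_lit 705) (nat_lit 8369178363801207872)) .nil))))))) (.cons (.rf (nat_lit 596) (nat_lit 5717100545)) .nil)))))),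
 (.br (nat_lit 1) (nat_lit 0) (.cons (.rf (nat_lit 597) (nat_lit 4932687440872450)) (.cons (.rf (nat_lit 597) (nat_lit 3811289864569858)) (.cons (.rf (nat_lit 705) (nat_lit 14242959524133701664)) (.cons (.rf (nat_lit 706) (nat_lit 14242959524133701664)) (.cons (.rf (nat_lit 706) (nat_lit 8369178363801208864)) (.cons (.rf (nat_lit 705) (nat_lit 8369178363801208864)) .nil)))))))]

theorem c21 : chkAll C T R L21 (nat_lit 680) = true := by decide +kernel

theorem l21 : (nat_lit 680) + L21.length = (nat_lit 708) := by decide +kernel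

/-- part of the certificates -/
def L22 : List Prf := [(.br (nat_lit 8) (nat_lit 0) (.cons (.br (nat_lit 2) (nat_lit 0) (.cons (.rf (nat_lit 30) (nat_lit 13446741592096)) (.cons (.br (nat_lit 11) (nat_lit 0) (.cons (.ev (nat_lit 620212112996664446128752130) (nat_lit 3)) .nil)) .nil))) (.cons (.ev (nat_lit 4740813509517859880961) (nat_lit 1)) .nil))),
 (.br (nat_lit 2) (nat_lit 0) (.cons (.rf (nat_lit 708) (nat_lit 14242959524133701664)) (.cons (.rf (nat_lit 708) (nat_lit 14130232098924136480)) (.cons (.br (nat_lit 2) (nat_lit 0) (.cons (.rf (nat_lit 708) (nat_lit 14242959524133701664)) (.cons (.rf (nat_lit 708) (nat_lit 14130232098924136480)) .nil))) .nil)))),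
 (.br (nat_lit 2) (nat_lit 0) (.cons (.rf (nat_lit 30) (nat_lit 13446741592096)) (.cons (.br (nat_lit 7) (nat_lit 0) (.cons (.ev (nat_lit 1112909365708937950189000197636) (nat_lit 4)) .nil)) .nil))),
 (.br (nat_lit 8) (nat_lit 0) (.cons (.ev (nat_lit 18446745177516146689) (nat_lit 1)) (.cons (.br (nat_lit 2) (nat_lit 0) (.cons (.rf (nat_lit 709) (nat_lit 14242959524133701664)) (.cons (.rf (nat_lit 710) (nat_lit 14242959524133701664)) (.cons (.br (nat_lit 2) (nat_lit 0) (.cons (.rf (nat_lit 709) (nat_lit 14242959524133701664)) (.cons (.rf (nat_lit 710) (nat_lit 14242959524133701664)) .nil))) .nil)))) (.cons (.ev (nat_lit 4740813509517859880961) (nat_lit 1)) .nil)))),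
 (.br (nat_lit 2) (nat_lit 0) (.cons (.rf (nat_lit 709) (nat_lit 14242959524133701664)) (.cons (.rf (nat_lit 711) (nat_lit 14242959524133701664)) (.cons (.rf (nat_lit 711) (nat_lit 14130232098924136480)) (.cons (.br (nat_lit 2) (nat_lit 0) (.cons (.rf (nat_lit 709) (nat_lit 14242959524133701664)) (.cons (.rf (nat_lit 711) (nat_lit 14242959524133701664)) (.cons (.rf (nat_lit 711) (nat_lit 14130232098924136480)) .nil)))) .nil))))),
 (.br (nat_lit 2) (nat_lit 0) (.cons (.ev (nat_lit 4740813226947649798144) (nat_lit 1)) (.cons (.br (nat_lit 7) (nat_lit 0) (.cons (.br (nat_lit 11) (nat_lit 0) (.cons (.zr (nat_lit 1208926396356873702081536) (nat_lit 1856924336707986762076520454) (nat_lit 10) (nat_lit 0)) .nil)) (.cons (.rf (nat_lit 30) (nat_lit 12382629890080)) .nil))) .nil))),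
 (.br (nat_lit 2) (nat_lit 0) (.cons (.ev (nat_lit 4740813226947649798144) (nat_lit 1)) (.cons (.br (nat_lit 7) (nat_lit 0) (.cons (.ev (nat_lit 18447025548703105281) (nat_lit 1)) (.cons (.ev (nat_lit 310693935641242272404602881) (nat_lit 1)) (.cons (.br (nat_lit 8) (nat_lit 0) (.cons (.ev (nat_lit 4334022786408080937096449540) (nat_lit 4)) .nil)) .nil)))) .nil))),
 (.br (nat_lit 2) (nat_lit 0) (.cons (.rf (nat_lit 713) (nat_lit 14242959524133701664)) (.cons (.rf (nat_lit 714) (nat_lit 14242959524133701664)) (.cons (.br (nat_lit 2) (nat_lit 0) (.cons (.rf (nat_lit 713) (nat_lit 14242959524133701664)) (.cons (.rf (nat_lit 714) (nat_lit 14242959524133701664)) .nil))) .nil)))),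
 (.br (nat_lit 2) (nat_lit 0) (.cons (.rf (nat_lit 715) (nat_lit 14242959524133701664)) (.cons (.rf (nat_lit 658) (nat_lit 8478352172898158624)) (.cons (.rf (nat_lit 715) (nat_lit 8472617123635660832)) .nil)))),
 (.br (nat_lit 2) (nat_lit 0) (.cons (.rf (nat_lit 715) (nat_lit 14242959524133701664)) (.cons (.rf (nat_lit 716) (nat_lit 14242959524133701664)) (.cons (.br (nat_lit 2) (nat_lit 0) (.cons (.rf (nat_lit 715) (nat_lit 14242959524133701664)) (.cons (.rf (nat_lit 658) (nat_lit 8478352172898158624)) (.cons (.rf (nat_lit 715) (nat_lit 8472617123635660832)) .nil)))) (.cons (.rf (nat_lit 715) (nat_lit 8472617123635660832)) .nil))))),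
 (.br (nat_lit 1) (nat_lit 0) (.cons (.kr (nat_lit 1) (nat_lit 256) (nat_lit 0) (nat_lit 2)) (.cons (.rf (nat_lit 712) (nat_lit 14242959524133701664)) (.cons (.rf (nat_lit 717) (nat_lit 14242959524133701664)) (.cons (.rf (nat_lit 717) (nat_lit 8369178363801208864)) (.cons (.rf (nat_lit 712) (nat_lit 8369178363801208864)) .nil)))))),
 (.br (nat_lit 8) (nat_lit 0) (.cons (.rf (nat_lit 46) (nat_lit 11247718336544)) (.cons (.ev (nat_lit 18447025548703105281) (nat_lit 1)) .nil))),
 (.br (nat_lit 2) (nat_lit 0) (.cons (.br (nat_lit 2) (nat_lit 0) .nil) .nil)),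
 (.br (nat_lit 4) (nat_lit 0) (.cons (.br (nat_lit 7) (nat_lit 0) (.cons (.br (nat_lit 2) (nat_lit 0) (.cons (.ev (nat_lit 18518801672042512384) (nat_lit 1)) (.cons (.rf (nat_lit 719) (nat_lit 445091350149433376)) (.cons (.rf (nat_lit 719) (nat_lit 410188453037312032)) .nil)))) (.cons (.ev (nat_lit 18446745177516146689) (nat_lit 1)) (.cons (.br (nat_lit 11) (nat_lit 0) (.cons (.ev (nat_lit 309489732187827938386771969) (nat_lit 1)) (.cons (.rf (nat_lit 217) (nat_lit 8836450336)) (.cons (.br (nat_lit 2) (nat_lit 0) (.cons (.br (nat_lit 2) (nat_lit 0) (.cons (.zr (nat_lit 4722366764361869165568) (nat_lit 622596833995025470927667206) (nat_lit 10) (nat_lit 0)) .nil)) (.cons (.br (nat_lit 2) (nat_lit 0) (.cons (.zr (nat_lit 4722366764361869165568) (nat_lit 622596833995025470927667206) (nat_lit 10) (nat_lit 0)) .nil)) .nil))) .nil)))) (.cons (.br (nat_lit 8) (nat_lit 0) (.cons (.br (nat_lit 2) (nat_lit 0) (.cons (.br (nat_lit 11) (nat_lit 0) (.cons (.ev (nat_lit 794139758553323374187781688326)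 (nat_lit 4)) .nil)) (.cons (.rf (nat_lit 46) (nat_lit 13481067776032)) .nil))) (.cons (.br (nat_lit 2) (nat_lit 0) (.cons (.br (nat_lit 2) (nat_lit 0) (.cons (.ev (nat_lit 955071991846470715491669117440) (nat_lit 4)) .nil)) (.cons (.br (nat_lit 2) (nat_lit 0) (.cons (.ev (nat_lit 955071991846470715491669117440) (nat_lit 4)) .nil)) .nil))) (.cons (.rf (nat_lit 217) (nat_lit 8837498912)) .nil)))) .nil))))) (.cons (.rf (nat_lit 393) (nat_lit 255435970021408)) (.cons (.ev (nat_lit 18446745177516146944) (nat_lit 1)) (.cons (.br (nat_lit 11) (nat_lit 0) (.cons (.br (nat_lit 7) (nat_lit 0) (.cons (.br (nat_lit 2) (nat_lit 0) (.cons (.ev (nat_lit 1223166852132759622779392) (nat_lit 3)) (.cons (.br (nat_lit 8) (nat_lit 0) (.cons (.ev (nat_lit 159076518251915858132649378310) (nat_lit 3)) .nil)) .nil))) (.cons (.rf (nat_lit 720) (nat_lit 386786232352)) (.cons (.ev (nat_lit 310693935713018395744010241) (nat_lit 1)) .nil)))) (.cons (.rf (nat_lit 392) (nat_lit 282767493152)) (.cons (.ev (nat_lit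 309489732187827938386772224) (nat_lit 1)) (.cons (.br (nat_lit 7) (nat_lit 0) (.cons (.ev (nat_lit 309489732260167011679600641) (nat_lit 1)) (.cons (.kr (nat_lit 618970056536179384380293120) (nat_lit 1213648330494161872486400) (nat_lit 5) (nat_lit 0)) (.cons (.rf (nat_lit 407) (nat_lit 7983677409312)) .nil)))) .nil))))) (.cons (.br (nat_lit 12) (nat_lit 0) (.cons (.br (nat_lit 7) (nat_lit 0) (.cons (.br (nat_lit 2) (nat_lit 0) (.cons (.rf (nat_lit 49) (nat_lit 12382629890080)) (.cons (.br (nat_lit 8) (nat_lit 0) (.cons (.ev (nat_lit 1109814506276242469589281800206) (nat_lit 4)) .nil)) .nil))) (.cons (.rf (nat_lit 720) (nat_lit 421145970720)) (.cons (.br (nat_lit 11) (nat_lit 0) (.cons (.ev (nat_lit 310693935641242272404602881) (nat_lit 1)) (.cons (.ev (nat_lit 309489732260167011679600896) (nat_lit 1)) .nil))) .nil)))) (.cons (.rf (nat_lit 392) (nat_lit 282801047584)) (.cons (.kr (nat_lit 1208925819614629174706176) (nat_lit 79228162514264337593543950336) (nat_lit 10) (nat_lit 0)) (.cons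 (.kr (nat_lit 158456325028528676286599528448) (nat_lit 1213648186378973796630528) (nat_lit 5) (nat_lit 0)) .nil))))) .nil)))))),
 (.br (nat_lit 11) (nat_lit 0) (.cons (.br (nat_lit 2) (nat_lit 0) (.cons (.ev (nat_lit 310698658079782736087744768) (nat_lit 1)) (.cons (.rf (nat_lit 556) (nat_lit 12907573136278521888)) (.cons (.br (nat_lit 7) (nat_lit 0) (.cons (.br (nat_lit 8) (nat_lit 0) (.cons (.zr (nat_lit 1208925819615745933575168) (nat_lit 618984223636471318734438406) (nat_lit 10) (nat_lit 0)) .nil)) (.cons (.rf (nat_lit 46) (nat_lit 13580925765664)) .nil))) .nil)))) (.cons (.br (nat_lit 2) (nat_lit 0) (.cons (.br (nat_lit 2) (nat_lit 0) (.cons (.rf (nat_lit 526) (nat_lit 9560449563714750496)) .nil)) (.cons (.rf (nat_lit 526) (nat_lit 9560449563714750496)) .nil))) (.cons (.br (nat_lit 7) (nat_lit 0) (.cons (.br (nat_lit 2) (nat_lit 0) (.cons (.rf (nat_lit 46) (nat_lit 9049869486112)) (.cons (.br (nat_lit 8) (nat_lit 0) (.cons (.ev (nat_lit 320008751619714893231063304710) (nat_lit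 4)) .nil)) .nil))) (.cons (.ev (nat_lit 309485009893402662779486464) (nat_lit 1)) (.cons (.br (nat_lit 8) (nat_lit 0) (.cons (.br (nat_lit 2) (nat_lit 0) (.cons (.ev (nat_lit 4334022786698549884697054720) (nat_lit 4)) .nil)) (.cons (.ev (nat_lit 79228162532783420740563107841) (nat_lit 1)) .nil))) .nil)))) (.cons (.ev (nat_lit 310698658007443671351296001) (nat_lit 1)) .nil))))),
 (.br (nat_lit 2) (nat_lit 0) (.cons (.rf (nat_lit 722) (nat_lit 14242959524133701664)) (.cons (.ev (nat_lit 310698658007724042538254336) (nat_lit 1)) (.cons (.br (nat_lit 8) (nat_lit 0) (.cons (.br (nat_lit 11) (nat_lit 0) (.cons (.ev (nat_lit 159076537141382915494024316418) (nat_lit 3)) .nil)) (.cons (.ev (nat_lit 4740885566012386246913) (nat_lit 1)) (.cons (.ev (nat_lit 4740813509517859880961) (nat_lit 1)) .nil)))) .nil)))),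
 (.br (nat_lit 2) (nat_lit 0) (.cons (.rf (nat_lit 722) (nat_lit 14242959524133701664)) (.cons (.rf (nat_lit 723) (nat_lit 14242959524133701664)) (.cons (.ev (nat_lit 309485009893402662779486464) (nat_lit 1)) (.cons (.br (nat_lit 2) (nat_lit 0) (.cons (.rf (nat_lit 722) (nat_lit 14242959524133701664)) (.cons (.rf (nat_lit 723) (nat_lit 14242959524133701664)) (.cons (.ev (nat_lit 309485009893402662779486464) (nat_lit 1)) .nil)))) .nil))))),
 (.br (nat_lit 2) (nat_lit 0) (.cons (.rf (nat_lit 556) (nat_lit 12907573136278521888)) (.cons (.ev (nat_lit 310698658007724042538254336) (nat_lit 1)) (.cons (.br (nat_lit 4) (nat_lit 0) (.cons (.rf (nat_lit 559) (nat_lit 12907573136278521888)) (.cons (.br (nat_lit 7) (nat_lit 0) (.cons (.zr (nat_lit 1130297953353732) (nat_lit 79538861190790581833147941120) (nat_lit 10) (nat_lit 3)) .nil)) (.cons (.ev (nat_lit 310698658007443671351296001) (nat_lit 1)) .nil)))) .nil)))),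
 (.br (nat_lit 2) (nat_lit 0) (.cons (.rf (nat_lit 722) (nat_lit 14242959524133701664)) (.cons (.rf (nat_lit 724) (nat_lit 14242959524133701664)) (.cons (.rf (nat_lit 725) (nat_lit 14242959524133701664)) (.cons (.br (nat_lit 2) (nat_lit 0) (.cons (.rf (nat_lit 721) (nat_lit 8472617123635659840)) (.cons (.rf (nat_lit 724) (nat_lit 14242959524133701664)) (.cons (.rf (nat_lit 725) (nat_lit 14242959524133701664)) .nil)))) .nil))))),
 (.br (nat_lit 2) (nat_lit 0) (.cons (.rf (nat_lit 722) (nat_lit 14242959524133701664)) (.cons (.ev (nat_lit 309485009893402662779486464) (nat_lit 1)) (.cons (.rf (nat_lit 726) (nat_lit 14242959524133701664)) (.cons (.br (nat_lit 2) (nat_lit 0) (.cons (.rf (nat_lit 722) (nat_lit 14242959524133701664)) (.cons (.ev (nat_lit 309485009893402662779486464) (nat_lit 1)) (.cons (.rf (nat_lit 726) (nat_lit 14242959524133701664)) .nil)))) .nil))))),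
 (.br (nat_lit 2) (nat_lit 0) (.cons (.rf (nat_lit 722) (nat_lit 14242959524133701664)) (.cons (.rf (nat_lit 724) (nat_lit 14242959524133701664)) (.cons (.rf (nat_lit 726) (nat_lit 14242959524133701664)) (.cons (.rf (nat_lit 727) (nat_lit 14242959524133701664)) (.cons (.br (nat_lit 2) (nat_lit 0) (.cons (.rf (nat_lit 722) (nat_lit 14242959524133701664)) (.cons (.rf (nat_lit 724) (nat_lit 14242959524133701664)) (.cons (.rf (nat_lit 726) (nat_lit 14242959524133701664)) (.cons (.rf (nat_lit 727) (nat_lit 14242959524133701664)) .nil))))) .nil)))))),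
 (.br (nat_lit 2) (nat_lit 0) (.cons (.rf (nat_lit 728) (nat_lit 14130232098924135488)) (.cons (.rf (nat_lit 719) (nat_lit 301964627455116352)) (.cons (.kr (nat_lit 158456329750895159156244742144) (nat_lit 1208925964011292227272704) (nat_lit 5) (nat_lit 0)) .nil)))),
 (.br (nat_lit 2) (nat_lit 0) (.cons (.rf (nat_lit 728) (nat_lit 14130232098924135488)) (.cons (.br (nat_lit 7) (nat_lit 0) (.cons (.br (nat_lit 11) (nat_lit 0) (.cons (.ev (nat_lit 309485065306540209984241666) (nat_lit 2)) .nil)) (.cons (.ev (nat_lit 310693935641242272404602881) (nat_lit 1)) (.cons (.zr (nat_lit 8623555328) (nat_lit 79228162514336677762070216707) (nat_lit 5) (nat_lit 0)) .nil)))) (.cons (.rf (nat_lit 719) (nat_lit 404383206829327424)) .nil)))),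
 (.br (nat_lit 2) (nat_lit 0) (.cons (.rf (nat_lit 729) (nat_lit 14242959524133701664)) (.cons (.rf (nat_lit 730) (nat_lit 14242959524133701664)) (.cons (.rf (nat_lit 730) (nat_lit 8369178363801208864)) (.cons (.rf (nat_lit 729) (nat_lit 8369178363801208864)) .nil))))),
 (.br (nat_lit 2) (nat_lit 0) (.cons (.rf (nat_lit 728) (nat_lit 14130232098924135488)) (.cons (.br (nat_lit 8) (nat_lit 0) (.cons (.br (nat_lit 11) (nat_lit 0) (.cons (.ev (nat_lit 1112290405096991187604321992710) (nat_lit 4)) .nil)) (.cons (.ev (nat_lit 4740885566012386246913) (nat_lit 1)) (.cons (.ev (nat_lit 4740813509517859880961) (nat_lit 1)) .nil)))) (.cons (.kr (nat_lit 158456329750895159156244742144) (nat_lit 1208925964011292227272704) (nat_lit 5) (nat_lit 0)) .nil)))),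
 (.br (nat_lit 2) (nat_lit 0) (.cons (.rf (nat_lit 731) (nat_lit 14242959524133701664)) (.cons (.rf (nat_lit 732) (nat_lit 14242959524133701664)) (.cons (.br (nat_lit 2) (nat_lit 0) (.cons (.rf (nat_lit 719) (nat_lit 301964627455116352)) (.cons (.rf (nat_lit 732) (nat_lit 14242959524133701664)) (.cons (.kr (nat_lit 158456329750895159156244742144) (nat_lit 1208925964011292227272704) (nat_lit 5) (nat_lit 0)) .nil)))) (.cons (.kr (nat_lit 158456329750895159156244742144) (nat_lit 1208925964011292227272704) (nat_lit 5) (nat_lit 0)) .nil))))),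
 (.br (nat_lit 2) (nat_lit 0) (.cons (.rf (nat_lit 731) (nat_lit 14242959524133701664)) (.cons (.rf (nat_lit 733) (nat_lit 14242959524133701664)) (.cons (.br (nat_lit 2) (nat_lit 0) (.cons (.rf (nat_lit 731) (nat_lit 14242959524133701664)) (.cons (.rf (nat_lit 733) (nat_lit 14242959524133701664)) (.cons (.rf (nat_lit 733) (nat_lit 8369178363801208864)) .nil)))) (.cons (.rf (nat_lit 733) (nat_lit 8369178363801208864)) .nil))))),
 (.br (nat_lit 1) (nat_lit 0) (.cons (.rf (nat_lit 596) (nat_lit 6617663489)) (.cons (.rf (nat_lit 718) (nat_lit 14242959524133701664)) (.cons (.rf (nat_lit 721) (nat_lit 14242959524133701664)) (.cons (.rf (nat_lit 728) (nat_lit 14242959524133701664)) (.cons (.br (nat_lit 2) (nat_lit 0) (.cons (.rf (nat_lit 731) (nat_lit 14242959524133701664)) (.cons (.rf (nat_lit 733) (nat_lit 14242959524133701664)) (.cons (.rf (nat_lit 734) (nat_lit 14242959524133701664)) (.cons (.rf (nat_lit 734) (nat_lit 8369178363801208864)) (.cons (.rf (nat_lit 733) (nat_lit 8369178363801208864))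 .nil)))))) .nil)))))),
 (.br (nat_lit 2) (nat_lit 0) (.cons (.rf (nat_lit 556) (nat_lit 9596297116367586368)) (.cons (.rf (nat_lit 197) (nat_lit 386786232352)) (.cons (.rf (nat_lit 735) (nat_lit 8472617123635659840)) .nil)))),
 (.br (nat_lit 2) (nat_lit 0) (.cons (.rf (nat_lit 735) (nat_lit 14130232098924135488)) (.cons (.rf (nat_lit 736) (nat_lit 14242959524133701664)) (.cons (.rf (nat_lit 736) (nat_lit 8369178363801208864)) (.cons (.rf (nat_lit 735) (nat_lit 8472617123635659840)) .nil))))),
 (.br (nat_lit 2) (nat_lit 0) (.cons (.rf (nat_lit 556) (nat_lit 9596297116367586368)) (.cons (.ev (nat_lit 310698658007724042538254336) (nat_lit 1)) (.cons (.br (nat_lit 4) (nat_lit 0) (.cons (.ev (nat_lit 18446745177516146689) (nat_lit 1)) (.cons (.rf (nat_lit 363) (nat_lit 14059404990468950048)) (.cons (.br (nat_lit 7) (nat_lit 0) (.cons (.zr (nat_lit 4240816348332046) (nat_lit 1246416761341453164370723328) (nat_lit 40) (nat_lit 3)) .nil)) .nil)))) .nil)))),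
 (.br (nat_lit 2) (nat_lit 0) (.cons (.rf (nat_lit 735) (nat_lit 14130232098924135488)) (.cons (.rf (nat_lit 738) (nat_lit 14242959524133701664)) (.cons (.br (nat_lit 2) (nat_lit 0) (.cons (.rf (nat_lit 735) (nat_lit 14130232098924135488)) (.cons (.ev (nat_lit 310698658007724042538254336) (nat_lit 1)) (.cons (.rf (nat_lit 738) (nat_lit 8369178363801208864)) .nil)))) (.cons (.br (nat_lit 2) (nat_lit 0) (.cons (.rf (nat_lit 735) (nat_lit 14130232098924135488)) (.cons (.rf (nat_lit 738) (nat_lit 14242959524133701664)) (.cons (.rf (nat_lit 738) (nat_lit 8369178363801208864)) .nil)))) .nil)))))]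

theorem c22 : chkAll C T R L22 (nat_lit 708) = true := by decide +kernel

theorem l22 : (nat_lit 708) + L22.length = (nat_lit 740) := by decide +kernel

/-- part of the certificates -/
def L23 : List Prf := [(.br (nat_lit 2) (nat_lit 0) (.cons (.rf (nat_lit 197) (nat_lit 386786232352)) (.cons (.ev (nat_lit 309485009821346168253251584) (nat_lit 1)) (.cons (.ev (nat_lit 18447025548703105024) (nat_lit 1)) .nil)))),
 (.br (nat_lit 2) (nat_lit 0) (.cons (.rf (nat_lit 737) (nat_lit 14242959524133701664)) (.cons (.rf (nat_lit 739) (nat_lit 14242959524133701664)) (.cons (.rf (nat_lit 740) (nat_lit 14242959524133701664)) (.cons (.rf (nat_lit 739) (nat_lit 8369178363801208864)) .nil))))),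
 (.br (nat_lit 1) (nat_lit 0) (.cons (.rf (nat_lit 596) (nat_lit 6618712065)) (.cons (.rf (nat_lit 718) (nat_lit 14242959524133701664)) (.cons (.rf (nat_lit 735) (nat_lit 14242959524133701664)) (.cons (.br (nat_lit 2) (nat_lit 0) (.cons (.rf (nat_lit 737) (nat_lit 14242959524133701664)) (.cons (.rf (nat_lit 739) (nat_lit 14242959524133701664)) (.cons (.rf (nat_lit 741) (nat_lit 14242959524133701664)) (.cons (.rf (nat_lit 741) (nat_lit 8369178363801208864)) (.cons (.rf (nat_lit 739) (nat_lit 8369178363801208864)) .nil)))))) (.cons (.rf (nat_lit 735) (nat_lit 8369178363801208864)) .nil)))))),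
 (.br (nat_lit 1) (nat_lit 0) (.cons (.rf (nat_lit 597) (nat_lit 4932687440872450)) (.cons (.rf (nat_lit 718) (nat_lit 14242959524133701664)) (.cons (.rf (nat_lit 735) (nat_lit 14242959524133701664)) (.cons (.rf (nat_lit 742) (nat_lit 14242959524133701664)) (.cons (.rf (nat_lit 742) (nat_lit 8369178363801208864)) (.cons (.rf (nat_lit 735) (nat_lit 8369178363801208864)) .nil))))))),
 (.br (nat_lit 2) (nat_lit 0) (.cons (.rf (nat_lit 743) (nat_lit 14242959524133700672)) (.cons (.ev (nat_lit 18518801672042512384) (nat_lit 1)) (.cons (.rf (nat_lit 267) (nat_lit 296545267786811424)) (.cons (.br (nat_lit 3) (nat_lit 0) (.cons (.ev (nat_lit 18519084242252660993) (nat_lit 1)) (.cons (.ev (nat_lit 620202668119587916809110530) (nat_lit 3)) (.cons (.ev (nat_lit 4740813509517859880961) (nat_lit 1)) .nil)))) .nil))))),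
 (.br (nat_lit 2) (nat_lit 0) (.cons (.rf (nat_lit 743) (nat_lit 14242959524133700672)) (.cons (.rf (nat_lit 743) (nat_lit 14130232098924135488)) (.cons (.rf (nat_lit 744) (nat_lit 14242959524133701664)) (.cons (.rf (nat_lit 744) (nat_lit 14130232098924136480)) (.cons (.br (nat_lit 2) (nat_lit 0) (.cons (.rf (nat_lit 743) (nat_lit 14242959524133700672)) (.cons (.rf (nat_lit 743) (nat_lit 14130232098924135488)) (.cons (.rf (nat_lit 744) (nat_lit 14242959524133701664)) (.cons (.rf (nat_lit 744) (nat_lit 14130232098924136480)) .nil))))) .nil)))))),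
 (.br (nat_lit 2) (nat_lit 0) (.cons (.ev (nat_lit 310698658007724042538189056) (nat_lit 1)) (.cons (.ev (nat_lit 4740813226947649732864) (nat_lit 1)) (.cons (.rf (nat_lit 267) (nat_lit 296545267786811424)) (.cons (.br (nat_lit 3) (nat_lit 0) (.cons (.br (nat_lit 7) (nat_lit 0) (.cons (.ev (nat_lit 1112909375152806235794951505416) (nat_lit 4)) .nil)) (.cons (.ev (nat_lit 309489732187827938386771969) (nat_lit 1)) (.cons (.ev (nat_lit 4740813509517859880961) (nat_lit 1)) .nil)))) .nil))))),
 (.br (nat_lit 2) (nat_lit 0) (.cons (.rf (nat_lit 743) (nat_lit 14242959524133700672)) (.cons (.ev (nat_lit 4740813226947649732864) (nat_lit 1)) (.cons (.rf (nat_lit 745) (nat_lit 14242959524133701664)) (.cons (.rf (nat_lit 746) (nat_lit 14242959524133701664)) (.cons (.br (nat_lit 2) (nat_lit 0) (.cons (.rf (nat_lit 743) (nat_lit 14242959524133700672)) (.cons (.ev (nat_lit 4740813226947649732864) (nat_lit 1)) (.cons (.rf (nat_lit 745) (nat_lit 14242959524133701664)) (.cons (.rf (nat_lit 746) (nat_lit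 14242959524133701664)) .nil))))) .nil)))))),
 (.br (nat_lit 2) (nat_lit 0) (.cons (.rf (nat_lit 743) (nat_lit 14242959524133700672)) (.cons (.rf (nat_lit 743) (nat_lit 14130232098924135488)) (.cons (.rf (nat_lit 745) (nat_lit 14242959524133701664)) (.cons (.rf (nat_lit 747) (nat_lit 14242959524133701664)) (.cons (.rf (nat_lit 747) (nat_lit 14130232098924136480)) (.cons (.br (nat_lit 2) (nat_lit 0) (.cons (.rf (nat_lit 743) (nat_lit 14242959524133700672)) (.cons (.rf (nat_lit 743) (nat_lit 14130232098924135488)) (.cons (.rf (nat_lit 745) (nat_lit 14242959524133701664)) (.cons (.rf (nat_lit 747) (nat_lit 14242959524133701664)) (.cons (.rf (nat_lit 747) (nat_lit 14130232098924136480)) .nil)))))) .nil))))))),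
 (.br (nat_lit 2) (nat_lit 0) (.cons (.rf (nat_lit 743) (nat_lit 14242959524133700672)) (.cons (.rf (nat_lit 743) (nat_lit 14130232098924135488)) (.cons (.br (nat_lit 2) (nat_lit 0) (.cons (.rf (nat_lit 743) (nat_lit 14242959524133700672)) (.cons (.ev (nat_lit 18518801672042512384) (nat_lit 1)) (.cons (.rf (nat_lit 748) (nat_lit 14242959524133700672)) (.cons (.kr (nat_lit 158456329750895159156244742144) (nat_lit 1208925964011292227272704) (nat_lit 5) (nat_lit 0)) .nil))))) (.cons (.br (nat_lit 2) (nat_lit 0) (.cons (.rf (nat_lit 743) (nat_lit 14242959524133700672)) (.cons (.rf (nat_lit 743) (nat_lit 14130232098924135488)) (.cons (.rf (nat_lit 748) (nat_lit 14242959524133700672)) (.cons (.kr (nat_lit 158456329750895159156244742144) (nat_lit 1208925964011292227272704) (nat_lit 5) (nat_lit 0)) .nil))))) (.cons (.kr (nat_lit 158456329750895159156244742144) (nat_lit 1208925964011292227272704) (nat_lit 5) (nat_lit 0)) .nil)))))),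
 (.br (nat_lit 2) (nat_lit 0) (.cons (.rf (nat_lit 743) (nat_lit 14242959524133700672)) (.cons (.rf (nat_lit 743) (nat_lit 14130232098924135488)) (.cons (.rf (nat_lit 749) (nat_lit 14242959524133701664)) (.cons (.br (nat_lit 2) (nat_lit 0) (.cons (.rf (nat_lit 743) (nat_lit 14242959524133700672)) (.cons (.rf (nat_lit 743) (nat_lit 14130232098924135488)) (.cons (.rf (nat_lit 748) (nat_lit 14242959524133700672)) (.cons (.rf (nat_lit 748) (nat_lit 8369178363801207872)) .nil))))) (.cons (.rf (nat_lit 749) (nat_lit 8472617123635660832)) .nil)))))),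
 (.br (nat_lit 1) (nat_lit 0) (.cons (.rf (nat_lit 596) (nat_lit 9840068609)) (.cons (.rf (nat_lit 743) (nat_lit 14242959524133701664)) (.cons (.rf (nat_lit 743) (nat_lit 14130232098924136480)) (.cons (.rf (nat_lit 748) (nat_lit 14242959524133701664)) (.cons (.br (nat_lit 2) (nat_lit 0) (.cons (.rf (nat_lit 743) (nat_lit 14242959524133700672)) (.cons (.rf (nat_lit 743) (nat_lit 14130232098924135488)) (.cons (.rf (nat_lit 749) (nat_lit 14242959524133701664)) (.cons (.rf (nat_lit 750) (nat_lit 14242959524133701664)) (.cons (.br (nat_lit 2) (nat_lit 0) (.cons (.rf (nat_lit 743) (nat_lit 14242959524133700672)) (.cons (.rf (nat_lit 743) (nat_lit 14130232098924135488)) (.cons (.rf (nat_lit 749) (nat_lit 14242959524133701664)) (.cons (.rf (nat_lit 750) (nat_lit 14242959524133701664)) (.cons (.rf (nat_lit 749) (nat_lit 8472617123635660832)) .nil)))))) (.cons (.rf (nat_lit 749) (nat_lit 8472617123635660832)) .nil))))))) .nil)))))),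
 (.br (nat_lit 1) (nat_lit 0) (.cons (.rf (nat_lit 705) (nat_lit 14242959524133701664)) (.cons (.rf (nat_lit 743) (nat_lit 14242959524133701664)) (.cons (.rf (nat_lit 743) (nat_lit 14130232098924136480)) (.cons (.rf (nat_lit 751) (nat_lit 14242959524133701664)) (.cons (.rf (nat_lit 751) (nat_lit 14130232098924136480)) (.cons (.br (nat_lit 1) (nat_lit 0) (.cons (.rf (nat_lit 638) (nat_lit 11479014317459457)) (.cons (.rf (nat_lit 743) (nat_lit 14242959524133701664)) (.cons (.rf (nat_lit 743) (nat_lit 14130232098924136480)) (.cons (.rf (nat_lit 751) (nat_lit 14242959524133701664)) (.cons (.rf (nat_lit 751) (nat_lit 8369178363801208864)) .nil)))))) .nil))))))),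
 (.br (nat_lit 1) (nat_lit 0) (.cons (.rf (nat_lit 707) (nat_lit 14242959524133701664)) (.cons (.rf (nat_lit 743) (nat_lit 14242959524133701664)) (.cons (.rf (nat_lit 743) (nat_lit 14130232098924136480)) (.cons (.rf (nat_lit 752) (nat_lit 14242959524133701664)) (.cons (.br (nat_lit 1) (nat_lit 0) (.cons (.rf (nat_lit 707) (nat_lit 14242959524133701664)) (.cons (.rf (nat_lit 743) (nat_lit 14242959524133701664)) (.cons (.rf (nat_lit 743) (nat_lit 14130232098924136480)) (.cons (.rf (nat_lit 752) (nat_lit 14242959524133701664)) (.cons (.rf (nat_lit 752) (nat_lit 8369178363801208864)) .nil)))))) (.cons (.rf (nat_lit 752) (nat_lit 8369178363801208864)) .nil))))))),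
 (.br (nat_lit 10) (nat_lit 0) (.cons (.br (nat_lit 1) (nat_lit 0) (.cons (.rf (nat_lit 707) (nat_lit 14242959524133701664)) (.cons (.rf (nat_lit 743) (nat_lit 14242959524133701664)) (.cons (.rf (nat_lit 743) (nat_lit 14130232098924136480)) (.cons (.rf (nat_lit 752) (nat_lit 14242959524133701664)) (.cons (.rf (nat_lit 753) (nat_lit 14242959524133701664)) (.cons (.rf (nat_lit 753) (nat_lit 8369178363801208864)) (.cons (.rf (nat_lit 752) (nat_lit 8369178363801208864)) .nil)))))))) .nil)),
 (.br (nat_lit 8) (nat_lit 1) (.cons (.rf (nat_lit 1) (nat_lit 3446023)) (.cons (.br (nat_lit 9) (nat_lit 0) (.cons (.rf (nat_lit 754) (nat_lit 14242959524133701664)) (.cons (.rf (nat_lit 754) (nat_lit 13126066816545818656)) .nil))) .nil))),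
 (.br (nat_lit 1) (nat_lit 0) (.cons (.rf (nat_lit 596) (nat_lit 6617663489)) (.cons (.rf (nat_lit 596) (nat_lit 5708679169)) (.cons (.rf (nat_lit 596) (nat_lit 10913810433)) (.cons (.rf (nat_lit 704) (nat_lit 5985063979550721)) (.cons (.rf (nat_lit 704) (nat_lit 5985029619845121)) .nil)))))),
 (.br (nat_lit 1) (nat_lit 0) (.cons (.rf (nat_lit 597) (nat_lit 4932687440872450)) (.cons (.rf (nat_lit 597) (nat_lit 3670586735035394)) (.cons (.rf (nat_lit 756) (nat_lit 14242959524133701664)) (.cons (.rf (nat_lit 756) (nat_lit 14242958458981812256)) (.cons (.rf (nat_lit 756) (nat_lit 9486072136540981280)) (.cons (.rf (nat_lit 756) (nat_lit 9486071071389091872)) .nil))))))),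
 (.br (nat_lit 11) (nat_lit 0) (.cons (.ev (nat_lit 309499213886620894127784451) (nat_lit 2)) (.cons (.ev (nat_lit 309489732187827938386771969) (nat_lit 1)) .nil))),
 (.br (nat_lit 2) (nat_lit 0) (.cons (.rf (nat_lit 758) (nat_lit 14242959524133701664)) (.cons (.rf (nat_lit 758) (nat_lit 13126066816545818656)) .nil))),
 (.br (nat_lit 2) (nat_lit 0) (.cons (.rf (nat_lit 759) (nat_lit 14242959524133701664)) (.cons (.ev (nat_lit 72339069031481344) (nat_lit 1)) .nil))),
 (.br (nat_lit 2) (nat_lit 0) (.cons (.rf (nat_lit 759) (nat_lit 14242959524133701664)) (.cons (.rf (nat_lit 760) (nat_lit 14242959524133701664)) (.cons (.rf (nat_lit 760) (nat_lit 13126066816545818656)) .nil)))),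
 (.br (nat_lit 8) (nat_lit 0) (.cons (.ev (nat_lit 18447025548703105024) (nat_lit 1)) (.cons (.ev (nat_lit 18446745177516146689) (nat_lit 1)) (.cons (.ev (nat_lit 475989168271935605154217197572) (nat_lit 3)) .nil)))),
 (.br (nat_lit 2) (nat_lit 0) (.cons (.rf (nat_lit 761) (nat_lit 14242959524133701664)) (.cons (.br (nat_lit 7) (nat_lit 0) (.cons (.ev (nat_lit 72339069031481601) (nat_lit 1)) (.cons (.rf (nat_lit 762) (nat_lit 14242959524133701664)) (.cons (.rf (nat_lit 762) (nat_lit 13126066816545818656)) .nil)))) .nil))),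
 (.br (nat_lit 2) (nat_lit 0) (.cons (.rf (nat_lit 761) (nat_lit 14242959524133701664)) (.cons (.rf (nat_lit 763) (nat_lit 14242959524133701664)) (.cons (.rf (nat_lit 763) (nat_lit 13126066816545818656)) .nil)))),
 (.br (nat_lit 2) (nat_lit 0) (.cons (.rf (nat_lit 761) (nat_lit 14242959524133701664)) (.cons (.rf (nat_lit 764) (nat_lit 14242959524133701664)) (.cons (.br (nat_lit 2) (nat_lit 0) (.cons (.ev (nat_lit 72339069031481344) (nat_lit 1)) (.cons (.rf (nat_lit 764) (nat_lit 14242959524133701664)) .nil))) .nil)))),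
 (.br (nat_lit 2) (nat_lit 0) (.cons (.rf (nat_lit 761) (nat_lit 14242959524133701664)) (.cons (.rf (nat_lit 764) (nat_lit 14242959524133701664)) (.cons (.rf (nat_lit 765) (nat_lit 14242959524133701664)) (.cons (.rf (nat_lit 765) (nat_lit 13126066816545818656)) .nil))))),
 (.br (nat_lit 1) (nat_lit 0) (.cons (.kr (nat_lit 1) (nat_lit 256) (nat_lit 0) (nat_lit 2)) (.cons (.rf (nat_lit 766) (nat_lit 14242959524133701664)) (.cons (.rf (nat_lit 766) (nat_lit 14242958458981812256)) (.cons (.rf (nat_lit 766) (nat_lit 9486072136540981280)) (.cons (.rf (nat_lit 766) (nat_lit 9486071071389091872)) .nil)))))),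
 (.br (nat_lit 2) (nat_lit 0) (.cons (.rf (nat_lit 197) (nat_lit 282733938720)) (.cons (.rf (nat_lit 719) (nat_lit 407901468851537952)) (.cons (.rf (nat_lit 719) (nat_lit 372998571739416608)) .nil)))),
 (.br (nat_lit 8) (nat_lit 0) (.cons (.rf (nat_lit 768) (nat_lit 445090284997543968)) (.cons (.rf (nat_lit 217) (nat_lit 8836450336)) (.cons (.ev (nat_lit 1242019424573891761143812) (nat_lit 3)) .nil)))),
 (.br (nat_lit 11) (nat_lit 0) (.cons (.br (nat_lit 7) (nat_lit 0) (.cons (.br (nat_lit 2) (nat_lit 0) (.cons (.zr (nat_lit 3631500545903797060371456) (nat_lit 184467722220695715842) (nat_lit 20) (nat_lit 7)) (.cons (.ev (nat_lit 72339069031481344) (nat_lit 1)) .nil))) (.cons (.kr (nat_lit 72057594037927936) (nat_lit 18446744073709551616) (nat_lit 7) (nat_lit 0)) (.cons (.br (nat_lit 2) (nat_lit 0) (.cons (.ev (nat_lit 309489750706629606134251776) (nat_lit 1)) (.cons (.ev (nat_lit 79537647524157741360113254656) (nat_lit 1)) .nil))) .nil)))) (.cons (.rf (nat_lit 392) (nat_lit 282767493152))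 (.cons (.rf (nat_lit 392) (nat_lit 249481496608)) (.cons (.rf (nat_lit 665) (nat_lit 410153268665223200)) .nil))))),
 (.br (nat_lit 4) (nat_lit 0) (.cons (.br (nat_lit 7) (nat_lit 0) (.cons (.rf (nat_lit 768) (nat_lit 445091350149433376)) (.cons (.ev (nat_lit 72058697844523009) (nat_lit 1)) (.cons (.rf (nat_lit 769) (nat_lit 14242959524133701664)) (.cons (.rf (nat_lit 769) (nat_lit 13126066816545818656)) .nil))))) (.cons (.ev (nat_lit 72058697844523264) (nat_lit 1)) (.cons (.ev (nat_lit 18446745177516146944) (nat_lit 1)) (.cons (.rf (nat_lit 770) (nat_lit 14242959524133701664)) (.cons (.rf (nat_lit 770) (nat_lit 13126066816545818656)) .nil)))))),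
 (.br (nat_lit 2) (nat_lit 0) (.cons (.rf (nat_lit 768) (nat_lit 444915431676970048)) (.cons (.rf (nat_lit 197) (nat_lit 385746044960)) (.cons (.br (nat_lit 11) (nat_lit 0) (.cons (.br (nat_lit 8) (nat_lit 0) (.cons (.zr (nat_lit 1978021418369032) (nat_lit 1239153724509081117837754368) (nat_lit 20) (nat_lit 3)) .nil)) (.cons (.ev (nat_lit 309485009821626547996459009) (nat_lit 1)) .nil))) .nil)))),
 (.br (nat_lit 2) (nat_lit 0) (.cons (.zr (nat_lit 8623555328) (nat_lit 309485009893685237251047427) (nat_lit 5) (nat_lit 0)) .nil)),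
 (.br (nat_lit 7) (nat_lit 0) (.cons (.rf (nat_lit 772) (nat_lit 14242959524133701664)) (.cons (.ev (nat_lit 72058697844523009) (nat_lit 1)) (.cons (.br (nat_lit 2) (nat_lit 0) (.cons (.rf (nat_lit 773) (nat_lit 14242959524133701664)) (.cons (.rf (nat_lit 773) (nat_lit 9486072136540981280)) .nil))) (.cons (.br (nat_lit 11) (nat_lit 0) (.cons (.rf (nat_lit 772) (nat_lit 9486072136540981280)) (.cons (.ev (nat_lit 309485010037802624383713792) (nat_lit 2)) (.cons (.ev (nat_lit 310698658007443671351296001) (nat_lit 1)) .nil)))) .nil)))))]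

theorem c23 : chkAll C T R L23 (nat_lit 740) = true := by decide +kernel

theorem l23 : (nat_lit 740) + L23.length = (nat_lit 775) := by decide +kernel

/-- part of the certificates -/
def L24 : List Prf := [(.br (nat_lit 2) (nat_lit 0) (.cons (.rf (nat_lit 768) (nat_lit 444915431676970048)) (.cons (.ev (nat_lit 310698658007724042538254336) (nat_lit 1)) (.cons (.br (nat_lit 4) (nat_lit 0) (.cons (.ev (nat_lit 72058697844523009) (nat_lit 1)) (.cons (.br (nat_lit 8) (nat_lit 0) (.cons (.zr (nat_lit 2427296660707948280086528) (nat_lit 618970130323154584018616321) (nat_lit 10) (nat_lit 7)) .nil)) (.cons (.br (nat_lit 8) (nat_lit 0) (.cons (.zr (nat_lit 1130297953353732) (nat_lit 79538861190790581833147941120) (nat_lit 10) (nat_lit 3)) .nil)) .nil)))) .nil)))),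
 (.br (nat_lit 2) (nat_lit 0) (.cons (.rf (nat_lit 774) (nat_lit 14242959524133701664)) (.cons (.rf (nat_lit 775) (nat_lit 14242959524133701664)) (.cons (.rf (nat_lit 740) (nat_lit 14242958458981812256)) (.cons (.br (nat_lit 2) (nat_lit 0) (.cons (.rf (nat_lit 774) (nat_lit 14242959524133701664)) (.cons (.rf (nat_lit 775) (nat_lit 14242959524133701664)) (.cons (.ev (nat_lit 72339069031481344) (nat_lit 1)) .nil)))) .nil))))),
 (.br (nat_lit 2) (nat_lit 0) (.cons (.rf (nat_lit 774) (nat_lit 14242959524133701664)) (.cons (.rf (nat_lit 776) (nat_lit 14242959524133701664)) (.cons (.rf (nat_lit 776) (nat_lit 9486072136540981280)) (.cons (.br (nat_lit 2) (nat_lit 0) (.cons (.rf (nat_lit 774) (nat_lit 14242959524133701664)) (.cons (.rf (nat_lit 776) (nat_lit 14242959524133701664)) (.cons (.rf (nat_lit 776) (nat_lit 9486072136540981280)) .nil)))) .nil))))),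
 (.br (nat_lit 2) (nat_lit 0) (.cons (.rf (nat_lit 774) (nat_lit 14242959524133701664)) (.cons (.rf (nat_lit 776) (nat_lit 14242959524133701664)) (.cons (.rf (nat_lit 777) (nat_lit 14242959524133701664)) (.cons (.rf (nat_lit 776) (nat_lit 9486072136540981280)) (.cons (.rf (nat_lit 777) (nat_lit 9486072136540981280)) .nil)))))),
 (.br (nat_lit 1) (nat_lit 0) (.cons (.rf (nat_lit 596) (nat_lit 6617663489)) (.cons (.rf (nat_lit 767) (nat_lit 14242959524133701664)) (.cons (.rf (nat_lit 771) (nat_lit 14242959524133701664)) (.cons (.rf (nat_lit 778) (nat_lit 14242959524133701664)) (.cons (.rf (nat_lit 778) (nat_lit 13126066816545818656)) .nil)))))),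
 (.br (nat_lit 1) (nat_lit 0) (.cons (.rf (nat_lit 597) (nat_lit 4932687440872450)) (.cons (.rf (nat_lit 767) (nat_lit 14242959524133701664)) (.cons (.rf (nat_lit 779) (nat_lit 14242959524133701664)) (.cons (.rf (nat_lit 779) (nat_lit 14242958458981812256)) (.cons (.rf (nat_lit 779) (nat_lit 9486072136540981280)) (.cons (.rf (nat_lit 779) (nat_lit 9486071071389091872)) .nil))))))),
 (.br (nat_lit 4) (nat_lit 0) (.cons (.ev (nat_lit 309489732188110517153300736) (nat_lit 1)) (.cons (.kr (nat_lit 158456325028528957761576239616) (nat_lit 620183667828787636269613056) (nat_lit 1) (nat_lit 0)) .nil))),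
 (.br (nat_lit 2) (nat_lit 0) (.cons (.rf (nat_lit 211) (nat_lit 296545267786810432)) (.cons (.rf (nat_lit 211) (nat_lit 296539773348217920)) (.cons (.rf (nat_lit 267) (nat_lit 296545267786811424)) (.cons (.br (nat_lit 3) (nat_lit 0) (.cons (.br (nat_lit 11) (nat_lit 0) (.cons (.zr (nat_lit 1130297953353732) (nat_lit 79538861190790581833147941120) (nat_lit 10) (nat_lit 3)) .nil)) (.cons (.rf (nat_lit 781) (nat_lit 14242959524133701664)) (.cons (.rf (nat_lit 781) (nat_lit 13126066816545817664)) .nil)))) .nil))))),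
 (.br (nat_lit 2) (nat_lit 0) (.cons (.ev (nat_lit 310698658007724042538189056) (nat_lit 1)) (.cons (.ev (nat_lit 310693935640959702194454784) (nat_lit 1)) (.cons (.rf (nat_lit 267) (nat_lit 296545267786811424)) (.cons (.br (nat_lit 8) (nat_lit 0) (.cons (.ev (nat_lit 4722438823038188257281) (nat_lit 1)) (.cons (.ev (nat_lit 72058697844523009) (nat_lit 1)) (.cons (.kr (nat_lit 158456329751039554719785681408) (nat_lit 620178982355794013555130368) (nat_lit 1) (nat_lit 0)) .nil)))) .nil))))),
 (.br (nat_lit 2) (nat_lit 0) (.cons (.rf (nat_lit 780) (nat_lit 14242959524133700672)) (.cons (.rf (nat_lit 780) (nat_lit 9482518520428364864)) (.cons (.rf (nat_lit 782) (nat_lit 14242959524133701664)) (.cons (.rf (nat_lit 783) (nat_lit 14242959524133701664)) (.cons (.br (nat_lit 2) (nat_lit 0) (.cons (.rf (nat_lit 780) (nat_lit 14242959524133700672)) (.cons (.rf (nat_lit 780) (nat_lit 9482518520428364864)) (.cons (.rf (nat_lit 782) (nat_lit 14242959524133701664)) (.cons (.rf (nat_lit 783) (nat_lit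 14242959524133701664)) .nil))))) .nil)))))),
 (.br (nat_lit 2) (nat_lit 0) (.cons (.ev (nat_lit 310698658007724042538189056) (nat_lit 1)) (.cons (.ev (nat_lit 309489732188110517153300736) (nat_lit 1)) (.cons (.rf (nat_lit 784) (nat_lit 14242959524133701664)) (.cons (.rf (nat_lit 784) (nat_lit 14242958458981812256)) (.cons (.br (nat_lit 2) (nat_lit 0) (.cons (.ev (nat_lit 310698658007724042538189056) (nat_lit 1)) (.cons (.ev (nat_lit 309489732188110517153300736) (nat_lit 1)) (.cons (.rf (nat_lit 784) (nat_lit 14242959524133701664)) (.cons (.rf (nat_lit 784) (nat_lit 14242958458981812256)) .nil))))) .nil)))))),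
 (.br (nat_lit 2) (nat_lit 0) (.cons (.rf (nat_lit 780) (nat_lit 14242959524133700672)) (.cons (.rf (nat_lit 780) (nat_lit 9482518520428364864)) (.cons (.rf (nat_lit 784) (nat_lit 14242959524133701664)) (.cons (.rf (nat_lit 784) (nat_lit 14242958458981812256)) (.cons (.rf (nat_lit 785) (nat_lit 14242959524133701664)) (.cons (.br (nat_lit 2) (nat_lit 0) (.cons (.rf (nat_lit 780) (nat_lit 14242959524133700672)) (.cons (.rf (nat_lit 780) (nat_lit 9482518520428364864)) (.cons (.rf (nat_lit 784) (nat_lit 14242959524133701664)) (.cons (.rf (nat_lit 784) (nat_lit 14242958458981812256)) (.cons (.rf (nat_lit 785) (nat_lit 14242959524133701664)) .nil)))))) .nil))))))),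
 (.br (nat_lit 1) (nat_lit 0) (.cons (.rf (nat_lit 596) (nat_lit 10913810433)) (.cons (.rf (nat_lit 780) (nat_lit 14242959524133701664)) (.cons (.rf (nat_lit 780) (nat_lit 9482518520428365856)) (.cons (.rf (nat_lit 786) (nat_lit 14242959524133701664)) (.cons (.rf (nat_lit 786) (nat_lit 13126066816545818656)) .nil)))))),
 (.br (nat_lit 1) (nat_lit 0) (.cons (.rf (nat_lit 704) (nat_lit 7075643119601665)) (.cons (.rf (nat_lit 780) (nat_lit 14242959524133701664)) (.cons (.rf (nat_lit 780) (nat_lit 9482518520428365856)) (.cons (.rf (nat_lit 787) (nat_lit 14242959524133701664)) (.cons (.rf (nat_lit 787) (nat_lit 9486072136540981280)) .nil)))))),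
 (.br (nat_lit 1) (nat_lit 0) (.cons (.rf (nat_lit 756) (nat_lit 14242959524133701664)) (.cons (.rf (nat_lit 780) (nat_lit 14242959524133701664)) (.cons (.rf (nat_lit 780) (nat_lit 9482518520428365856)) (.cons (.rf (nat_lit 787) (nat_lit 14242959524133701664)) (.cons (.rf (nat_lit 788) (nat_lit 14242959524133701664)) (.cons (.rf (nat_lit 788) (nat_lit 13126066816545818656)) .nil))))))),
 (.br (nat_lit 6) (nat_lit 1) (.cons (.br (nat_lit 6) (nat_lit 0) (.cons (.rf (nat_lit 704) (nat_lit 11584701642934304)) (.cons (.rf (nat_lit 704) (nat_lit 11583636491044896)) (.cons (.br (nat_lit 6) (nat_lit 0) (.cons (.rf (nat_lit 704) (nat_lit 11584701642934304)) (.cons (.rf (nat_lit 704) (nat_lit 11583636491044896)) (.cons (.br (nat_lit 7) (nat_lit 1) (.cons (.rf (nat_lit 755) (nat_lit 14242959524133701664)) (.cons (.br (nat_lit 8) (nat_lit 1) (.cons (.rf (nat_lit 755) (nat_lit 14242958458981812256)) (.cons (.br (nat_lit 11) (nat_lit 1) (.cons (.br (nat_lit 9) (nat_lit 0) (.cons (.br (nat_lit 1)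 (nat_lit 0) (.cons (.rf (nat_lit 757) (nat_lit 14242959524133701664)) (.cons (.rf (nat_lit 780) (nat_lit 14242959524133701664)) (.cons (.rf (nat_lit 780) (nat_lit 9482518520428365856)) (.cons (.rf (nat_lit 789) (nat_lit 14242959524133701664)) (.cons (.rf (nat_lit 789) (nat_lit 14242958458981812256)) (.cons (.rf (nat_lit 789) (nat_lit 9486072136540981280)) (.cons (.rf (nat_lit 789) (nat_lit 9486071071389091872)) .nil)))))))) .nil)) .nil)) .nil))) .nil))) .nil)))) .nil)))) .nil)),
 (.br (nat_lit 0) (nat_lit 0) (.cons (.br (nat_lit 0) (nat_lit 0) (.cons (.br (nat_lit 3) (nat_lit 1) (.cons (.br (nat_lit 3) (nat_lit 1) (.cons (.br (nat_lit 5) (nat_lit 0) (.cons (.rf (nat_lit 596) (nat_lit 6614517792)) (.cons (.br (nat_lit 5) (nat_lit 0) (.cons (.rf (nat_lit 596) (nat_lit 6614517792)) (.cons (.br (nat_lit 4) (nat_lit 1) (.cons (.rf (nat_lit 596) (nat_lit 5574330400)) (.cons (.br (nat_lit 4) (nat_lit 1) (.cons (.rf (nat_lit 596) (nat_lit 5574330400)) (.cons (.br (nat_lit 5) (nat_lit 1) (.cons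 (.rf (nat_lit 638) (nat_lit 11584701642934304)) (.cons (.rf (nat_lit 790) (nat_lit 11584701642934304)) (.cons (.rf (nat_lit 790) (nat_lit 10493986108180512)) .nil)))) .nil))) .nil))) .nil))) .nil))) .nil)) .nil)) .nil)) .nil)),
 (.br (nat_lit 5) (nat_lit 0) (.cons (.rf (nat_lit 3) (nat_lit 247027893379)) .nil)),
 (.br (nat_lit 7) (nat_lit 0) (.cons (.br (nat_lit 7) (nat_lit 0) .nil) .nil)),
 (.br (nat_lit 8) (nat_lit 0) (.cons (.br (nat_lit 7) (nat_lit 0) (.cons (.br (nat_lit 9) (nat_lit 0) .nil) .nil)) (.cons (.rf (nat_lit 793) (nat_lit 10144918374432)) .nil))),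
 (.br (nat_lit 7) (nat_lit 0) (.cons (.br (nat_lit 8) (nat_lit 0) .nil) .nil)),
 (.br (nat_lit 8) (nat_lit 0) (.cons (.ev (nat_lit 18446745177516146944) (nat_lit 1)) (.cons (.rf (nat_lit 795) (nat_lit 12448163858464)) .nil))),
 (.br (nat_lit 9) (nat_lit 0) (.cons (.br (nat_lit 10) (nat_lit 0) (.cons (.br (nat_lit 12) (nat_lit 0) .nil) .nil)) .nil)),
 (.br (nat_lit 9) (nat_lit 0) (.cons (.ev (nat_lit 4722366483973451809024) (nat_lit 1)) (.cons (.br (nat_lit 10) (nat_lit 0) (.cons (.rf (nat_lit 795) (nat_lit 13411349071873)) (.cons (.br (nat_lit 11) (nat_lit 0) (.cons (.ev (nat_lit 79540079542824642013170893315) (nat_lit 2)) .nil)) .nil))) .nil))),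
 (.br (nat_lit 1) (nat_lit 0) (.cons (.kr (nat_lit 1) (nat_lit 256) (nat_lit 0) (nat_lit 2)) (.cons (.kr (nat_lit 72057598332895234) (nat_lit 18446744073726329344) (nat_lit 0) (nat_lit 2)) (.cons (.br (nat_lit 6) (nat_lit 0) (.cons (.br (nat_lit 9) (nat_lit 0) (.cons (.ev (nat_lit 4722366483973451808769) (nat_lit 1)) (.cons (.br (nat_lit 10) (nat_lit 0) (.cons (.zr (nat_lit 37037603344085090307) (nat_lit 2427296372760146633294336) (nat_lit 5) (nat_lit 2)) (.cons (.br (nat_lit 11) (nat_lit 0) (.cons (.ev (nat_lit 310693935713298771209093121) (nat_lit 1)) .nil)) .nil))) (.cons (.rf (nat_lit 794) (nat_lit 433595443480608)) .nil)))) (.cons (.ev (nat_lit 1208944338697776193863681) (nat_lit 1)) (.cons (.br (nat_lit 11) (nat_lit 0) (.cons (.kr (nat_lit 18518801672042446850) (nat_lit 618970019642690137466339840) (nat_lit 0) (nat_lit 2)) (.cons (.ev (nat_lit 1208944338697776193863936) (nat_lit 1)) (.cons (.rf (nat_lit 794) (nat_lit 433528770824224)) .nil)))) (.cons (.br (nat_lit 10) (nat_lit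 0) (.cons (.br (nat_lit 9) (nat_lit 0) (.cons (.br (nat_lit 11) (nat_lit 0) (.cons (.ev (nat_lit 310693935713298771209093121) (nat_lit 1)) .nil)) (.cons (.rf (nat_lit 793) (nat_lit 13578851747841)) .nil))) (.cons (.br (nat_lit 11) (nat_lit 0) (.cons (.kr (nat_lit 618970019642690137466339328) (nat_lit 18518801672042446848) (nat_lit 3) (nat_lit 0)) (.cons (.rf (nat_lit 793) (nat_lit 13510199379969)) .nil))) (.cons (.ev (nat_lit 1208944338697776193863936) (nat_lit 1)) .nil)))) .nil))))) (.cons (.br (nat_lit 6) (nat_lit 0) (.cons (.br (nat_lit 9) (nat_lit 0) (.cons (.ev (nat_lit 4722366483973451808769) (nat_lit 1)) (.cons (.zr (nat_lit 309489732188109421936640001) (nat_lit 36893488147436011520) (nat_lit 5) (nat_lit 9)) (.cons (.rf (nat_lit 794) (nat_lit 434660494706720)) .nil)))) (.cons (.br (nat_lit 10) (nat_lit 0) (.cons (.rf (nat_lit 796) (nat_lit 12746885433493536)) (.cons (.ev (nat_lit 310693935713298771209093376) (nat_lit 1)) (.cons (.rf (nat_lit 794) (nat_lit 434627208710176)) .nil))))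 (.cons (.br (nat_lit 9) (nat_lit 0) (.cons (.rf (nat_lit 797) (nat_lit 407901468851537952)) (.cons (.br (nat_lit 9) (nat_lit 0) (.cons (.rf (nat_lit 797) (nat_lit 407901468851537952)) .nil)) .nil))) (.cons (.br (nat_lit 9) (nat_lit 0) (.cons (.rf (nat_lit 798) (nat_lit 14242959524133701664)) (.cons (.br (nat_lit 9) (nat_lit 0) (.cons (.ev (nat_lit 4722366483973451809024) (nat_lit 1)) (.cons (.rf (nat_lit 793) (nat_lit 13544493058049)) .nil))) (.cons (.br (nat_lit 9) (nat_lit 0) (.cons (.rf (nat_lit 798) (nat_lit 14242959524133701664)) (.cons (.rf (nat_lit 793) (nat_lit 13544493058049)) .nil))) .nil)))) .nil))))) (.cons (.rf (nat_lit 791) (nat_lit 12289)) .nil)))))),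
 (.br (nat_lit 7) (nat_lit 0) (.cons (.br (nat_lit 8) (nat_lit 0) .nil) .nil)),
 (.br (nat_lit 6) (nat_lit 0) (.cons (.br (nat_lit 8) (nat_lit 0) .nil) .nil)),
 (.br (nat_lit 8) (nat_lit 0) .nil),
 (.br (nat_lit 6) (nat_lit 0) (.cons (.br (nat_lit 8) (nat_lit 0) .nil) .nil)),
 (.br (nat_lit 6) (nat_lit 0) (.cons (.rf (nat_lit 803) (nat_lit 8940082595841)) (.cons (.br (nat_lit 6) (nat_lit 0) (.cons (.rf (nat_lit 803) (nat_lit 8940082595841)) .nil)) .nil))),
 (.br (nat_lit 4) (nat_lit 0) (.cons (.rf (nat_lit 801) (nat_lit 10006342862849)) (.cons (.br (nat_lit 7) (nat_lit 0) (.cons (.br (nat_lit 7) (nat_lit 0) .nil) .nil)) .nil))),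
 (.br (nat_lit 1) (nat_lit 0) (.cons (.kr (nat_lit 72057598332895234) (nat_lit 18446744073726329344) (nat_lit 0) (nat_lit 2)) (.cons (.rf (nat_lit 799) (nat_lit 406809687124707360)) (.cons (.kr (nat_lit 4294967297) (nat_lit 16777472) (nat_lit 0) (nat_lit 2)) (.cons (.br (nat_lit 9) (nat_lit 0) (.cons (.ev (nat_lit 4722366483969173618689) (nat_lit 1)) (.cons (.zr (nat_lit 4740813508418365030656) (nat_lit 144115192370954240) (nat_lit 5) (nat_lit 6)) (.cons (.br (nat_lit 5) (nat_lit 0) (.cons (.ev (nat_lit 4722366483973451808769) (nat_lit 1)) (.cons (.br (nat_lit 6) (nat_lit 0) (.cons (.ev (nat_lit 310693954087985246602526976) (nat_lit 1)) (.cons (.rf (nat_lit 800) (nat_lit 13583141505056)) .nil))) (.cons (.br (nat_lit 6) (nat_lit 0) (.cons (.ev (nat_lit 310693954087985250880716801) (nat_lit 1)) (.cons (.rf (nat_lit 801) (nat_lit 13583141505056)) .nil))) (.cons (.br (nat_lit 6) (nat_lit 0) (.cons (.rf (nat_lit 800) (nat_lit 13583142520864)) (.cons (.rf (nat_lit 801) (nat_lit 13583142520864))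 (.cons (.br (nat_lit 10) (nat_lit 0) (.cons (.rf (nat_lit 802) (nat_lit 13583142520864)) (.cons (.br (nat_lit 11) (nat_lit 0) (.cons (.ev (nat_lit 1864191966564022234894041092) (nat_lit 3)) .nil)) .nil))) .nil)))) .nil))))) (.cons (.br (nat_lit 5) (nat_lit 0) (.cons (.ev (nat_lit 4722366483969173618944) (nat_lit 1)) (.cons (.br (nat_lit 6) (nat_lit 0) (.cons (.ev (nat_lit 310693954087985250880716801) (nat_lit 1)) (.cons (.rf (nat_lit 804) (nat_lit 13376888801281)) .nil))) (.cons (.rf (nat_lit 804) (nat_lit 13411214985217)) .nil)))) (.cons (.br (nat_lit 5) (nat_lit 0) (.cons (.rf (nat_lit 804) (nat_lit 13583142520864)) (.cons (.br (nat_lit 11) (nat_lit 0) (.cons (.rf (nat_lit 801) (nat_lit 13411214985217)) (.cons (.zr (nat_lit 310693935640960806001049601) (nat_lit 144115188092764160) (nat_lit 5) (nat_lit 10)) (.cons (.br (nat_lit 6) (nat_lit 0) (.cons (.rf (nat_lit 802) (nat_lit 13411214985217)) (.cons (.rf (nat_lit 602) (nat_lit 10744749994099683329)) .nil))) .nil)))) (.cons (.rf (nat_lit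 805) (nat_lit 434660494706720)) (.cons (.br (nat_lit 6) (nat_lit 0) (.cons (.br (nat_lit 10) (nat_lit 0) (.cons (.ev (nat_lit 310698713348522512171926275) (nat_lit 2)) (.cons (.br (nat_lit 11) (nat_lit 0) (.cons (.ev (nat_lit 158456334491782135872147948550) (nat_lit 3)) .nil)) .nil))) (.cons (.rf (nat_lit 805) (nat_lit 434660493690912)) (.cons (.br (nat_lit 10) (nat_lit 0) (.cons (.br (nat_lit 10) (nat_lit 0) (.cons (.ev (nat_lit 310693954087985250880717056) (nat_lit 1)) .nil)) (.cons (.br (nat_lit 10) (nat_lit 0) (.cons (.ev (nat_lit 310693954087985250880717056) (nat_lit 1)) .nil)) .nil))) .nil)))) .nil))))) .nil)))))) (.cons (.rf (nat_lit 791) (nat_lit 12289)) .nil)))))),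
 (.br (nat_lit 1) (nat_lit 0) (.cons (.rf (nat_lit 799) (nat_lit 407901468851537952)) (.cons (.rf (nat_lit 799) (nat_lit 406809687124707360)) (.cons (.rf (nat_lit 806) (nat_lit 407901468851537952)) (.cons (.rf (nat_lit 806) (nat_lit 406809687124707360)) (.cons (.br (nat_lit 1) (nat_lit 0) (.cons (.rf (nat_lit 799) (nat_lit 407901468851537952)) (.cons (.rf (nat_lit 799) (nat_lit 406809687124707360)) (.cons (.rf (nat_lit 806) (nat_lit 407901468851537952)) (.cons (.rf (nat_lit 806) (nat_lit 406809687124707360)) (.cons (.rf (nat_lit 791) (nat_lit 12289)) .nil)))))) (.cons (.rf (nat_lit 791) (nat_lit 12289)) .nil))))))),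
 (.br (nat_lit 10) (nat_lit 0) (.cons (.br (nat_lit 11) (nat_lit 0) (.cons (.ev (nat_lit 310698676526244239587213313) (nat_lit 1)) .nil)) .nil)),
 (.br (nat_lit 7) (nat_lit 0) (.cons (.br (nat_lit 7) (nat_lit 0) .nil) .nil)),
 (.br (nat_lit 10) (nat_lit 0) (.cons (.br (nat_lit 11) (nat_lit 0) (.cons (.ev (nat_lit 310698676526244239587213568) (nat_lit 1)) .nil)) .nil)),
 (.br (nat_lit 2) (nat_lit 0) (.cons (.br (nat_lit 10) (nat_lit 0) (.cons (.rf (nat_lit 808) (nat_lit 407901468851537952)) (.cons (.br (nat_lit 10) (nat_lit 0) (.cons (.rf (nat_lit 808) (nat_lit 407901468851537952)) .nil)) .nil))) (.cons (.br (nat_lit 10) (nat_lit 0) (.cons (.rf (nat_lit 809) (nat_lit 389002987552)) (.cons (.br (nat_lit 11) (nat_lit 0) (.cons (.zr (nat_lit 3626814352335342068040448) (nat_lit 9444949701471374540802) (nat_lit 5) (nat_lit 10)) (.cons (.rf (nat_lit 795) (nat_lit 13514485994528)) .nil))) (.cons (.rf (nat_lit 794) (nat_lit 432497001436192)) .nil)))) (.cons (.br (nat_lit 11) (nat_lit 0) (.cons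 (.rf (nat_lit 809) (nat_lit 355716991008)) (.cons (.kr (nat_lit 18518801672042446850) (nat_lit 618970019642690137466339840) (nat_lit 0) (nat_lit 2)) (.cons (.rf (nat_lit 794) (nat_lit 432463614776352)) .nil)))) (.cons (.br (nat_lit 9) (nat_lit 0) (.cons (.br (nat_lit 10) (nat_lit 0) (.cons (.br (nat_lit 11) (nat_lit 0) (.cons (.rf (nat_lit 795) (nat_lit 13273975165953)) .nil)) (.cons (.rf (nat_lit 793) (nat_lit 13574589322241)) .nil))) (.cons (.br (nat_lit 11) (nat_lit 0) (.cons (.kr (nat_lit 618970019642690137466339328) (nat_lit 18518801672042446848) (nat_lit 3) (nat_lit 0)) (.cons (.rf (nat_lit 793) (nat_lit 13540263138305)) .nil))) (.cons (.br (nat_lit 10) (nat_lit 0) (.cons (.rf (nat_lit 810) (nat_lit 14242959524133701664)) (.cons (.br (nat_lit 10) (nat_lit 0) (.cons (.rf (nat_lit 810) (nat_lit 14242959524133701664)) .nil)) .nil))) .nil)))) .nil)))))]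

theorem c24 : chkAll C T R L24 (nat_lit 775) = true := by decide +kernel

theorem l24 : (nat_lit 775) + L24.length = (nat_lit 812) := by decide +kernel

/-- part of the certificates -/
def L25 : List Prf := [(.br (nat_lit 9) (nat_lit 0) (.cons (.br (nat_lit 10) (nat_lit 0) (.cons (.ev (nat_lit 309485028340429310977442048) (nat_lit 1)) (.cons (.rf (nat_lit 795) (nat_lit 13582098175008)) .nil))) (.cons (.kr (nat_lit 618970038089434211176022016) (nat_lit 9444805586287576743936) (nat_lit 2) (nat_lit 0)) (.cons (.rf (nat_lit 794) (nat_lit 434660490548256)) .nil)))),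
 (.br (nat_lit 9) (nat_lit 0) (.cons (.br (nat_lit 10) (nat_lit 0) (.cons (.ev (nat_lit 310698658007442567561543681) (nat_lit 1)) .nil)) .nil)),
 (.br (nat_lit 6) (nat_lit 0) (.cons (.rf (nat_lit 795) (nat_lit 8870390008833)) .nil)),
 (.br (nat_lit 9) (nat_lit 0) (.cons (.rf (nat_lit 814) (nat_lit 13583142520864)) (.cons (.br (nat_lit 10) (nat_lit 0) (.cons (.rf (nat_lit 795) (nat_lit 13273910154241)) (.cons (.br (nat_lit 11) (nat_lit 0) (.cons (.zr (nat_lit 18518801667747676417) (nat_lit 79847132533907027731043844096) (nat_lit 5) (nat_lit 0)) .nil)) .nil))) .nil))),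
 (.br (nat_lit 6) (nat_lit 0) (.cons (.rf (nat_lit 814) (nat_lit 10178205452320)) (.cons (.rf (nat_lit 793) (nat_lit 10138480185345)) .nil))),
 (.br (nat_lit 1) (nat_lit 0) (.cons (.kr (nat_lit 1) (nat_lit 256) (nat_lit 0) (nat_lit 2)) (.cons (.rf (nat_lit 811) (nat_lit 407901468851537952)) (.cons (.rf (nat_lit 811) (nat_lit 406809687124707360)) (.cons (.br (nat_lit 2) (nat_lit 0) (.cons (.rf (nat_lit 812) (nat_lit 407901468851537952)) (.cons (.rf (nat_lit 812) (nat_lit 406809687124707360)) (.cons (.br (nat_lit 9) (nat_lit 0) (.cons (.rf (nat_lit 813) (nat_lit 407901468851537952)) (.cons (.br (nat_lit 9) (nat_lit 0) (.cons (.rf (nat_lit 813) (nat_lit 407901468851537952)) .nil)) .nil))) (.cons (.br (nat_lit 9) (nat_lit 0) (.cons (.rf (nat_lit 815) (nat_lit 14242959524133701664)) (.cons (.rf (nat_lit 816) (nat_lit 434660560734240)) (.cons (.br (nat_lit 9) (nat_lit 0) (.cons (.rf (nat_lit 815) (nat_lit 14242959524133701664)) (.cons (.rf (nat_lit 793) (nat_lit 13540198126593)) .nil))) .nil))))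 .nil))))) (.cons (.rf (nat_lit 791) (nat_lit 12289)) .nil)))))),
 (.br (nat_lit 7) (nat_lit 0) .nil),
 (.br (nat_lit 9) (nat_lit 0) (.cons (.br (nat_lit 11) (nat_lit 0) (.cons (.ev (nat_lit 309489732259886631936327681) (nat_lit 1)) (.cons (.rf (nat_lit 804) (nat_lit 13514490057760)) .nil))) (.cons (.kr (nat_lit 309485009821345068724846592) (nat_lit 4722366764344621924352) (nat_lit 2) (nat_lit 0)) (.cons (.rf (nat_lit 804) (nat_lit 13583142425632)) .nil)))),
 (.br (nat_lit 6) (nat_lit 0) (.cons (.br (nat_lit 11) (nat_lit 0) (.cons (.ev (nat_lit 1213648258155097152880641) (nat_lit 1)) (.cons (.rf (nat_lit 801) (nat_lit 13273807557633)) .nil))) (.cons (.kr (nat_lit 309485009821345068724846592) (nat_lit 4722366764344621924352) (nat_lit 2) (nat_lit 0)) (.cons (.rf (nat_lit 805) (nat_lit 424761674208257)) .nil)))),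
 (.br (nat_lit 9) (nat_lit 0) (.cons (.rf (nat_lit 801) (nat_lit 13411112293377)) (.cons (.rf (nat_lit 800) (nat_lit 13411112293377)) (.cons (.ev (nat_lit 309489732259886631936327681) (nat_lit 1)) .nil)))),
 (.br (nat_lit 1) (nat_lit 0) (.cons (.kr (nat_lit 72057598332895234) (nat_lit 18446744073726329344) (nat_lit 0) (nat_lit 2)) (.cons (.rf (nat_lit 817) (nat_lit 407901468851537952)) (.cons (.br (nat_lit 6) (nat_lit 0) (.cons (.br (nat_lit 9) (nat_lit 0) (.cons (.ev (nat_lit 1208925819896104168194304) (nat_lit 1)) (.cons (.br (nat_lit 10) (nat_lit 0) (.cons (.zr (nat_lit 1208926107846104888443137) (nat_lit 18907913801456492216320) (nat_lit 10) (nat_lit 5)) (.cons (.rf (nat_lit 804) (nat_lit 13515530245152)) .nil))) (.cons (.rf (nat_lit 804) (nat_lit 13549856429088)) .nil)))) (.cons (.br (nat_lit 2) (nat_lit 0) (.cons (.ev (nat_lit 1208925819896104168194304) (nat_lit 1)) (.cons (.br (nat_lit 10) (nat_lit 0) (.cons (.ev (nat_lit 309485009821627647508152321) (nat_lit 1)) (.cons (.rf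 (nat_lit 801) (nat_lit 13412186002433)) .nil))) (.cons (.rf (nat_lit 805) (nat_lit 429189885105153)) .nil)))) (.cons (.ev (nat_lit 1208925819896104168194049) (nat_lit 1)) (.cons (.br (nat_lit 2) (nat_lit 0) (.cons (.br (nat_lit 10) (nat_lit 0) (.cons (.ev (nat_lit 7272462902423133301638662) (nat_lit 3)) (.cons (.rf (nat_lit 801) (nat_lit 13274881266689)) .nil))) (.cons (.ev (nat_lit 72340168543109376) (nat_lit 1)) (.cons (.kr (nat_lit 18518801672042446850) (nat_lit 618970019642690137466339840) (nat_lit 0) (nat_lit 2)) (.cons (.br (nat_lit 11) (nat_lit 0) (.cons (.rf (nat_lit 800) (nat_lit 13549856429088)) (.cons (.kr (nat_lit 18446744073709551616) (nat_lit 309485009821345068724781056) (nat_lit 8) (nat_lit 0)) (.cons (.ev (nat_lit 309485028340429310977442048) (nat_lit 1)) .nil)))) .nil))))) (.cons (.br (nat_lit 2) (nat_lit 0) (.cons (.rf (nat_lit 805) (nat_lit 424796133561345)) (.cons (.rf (nat_lit 805) (nat_lit 424796132545537)) (.cons (.br (nat_lit 9) (nat_lit 0) (.cons (.rf (nat_lit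 804) (nat_lit 13274882282497)) (.cons (.kr (nat_lit 72057598332895233) (nat_lit 309485009821345068741558528) (nat_lit 0) (nat_lit 2)) (.cons (.br (nat_lit 10) (nat_lit 0) (.cons (.rf (nat_lit 800) (nat_lit 13515526181920)) (.cons (.br (nat_lit 11) (nat_lit 0) (.cons (.ev (nat_lit 1111060922797557540452990716416) (nat_lit 4)) .nil)) .nil))) .nil)))) (.cons (.br (nat_lit 9) (nat_lit 0) (.cons (.rf (nat_lit 804) (nat_lit 13412187018241)) (.cons (.br (nat_lit 10) (nat_lit 0) (.cons (.kr (nat_lit 618970019642690137466339328) (nat_lit 18518801672042446848) (nat_lit 3) (nat_lit 0)) (.cons (.rf (nat_lit 551) (nat_lit 11824275969874767873)) .nil))) (.cons (.br (nat_lit 10) (nat_lit 0) (.cons (.br (nat_lit 11) (nat_lit 0) (.cons (.ev (nat_lit 476002518347435922293013089796) (nat_lit 4)) .nil)) (.cons (.rf (nat_lit 818) (nat_lit 13583142520864)) .nil))) .nil)))) .nil))))) .nil)))))) (.cons (.br (nat_lit 2) (nat_lit 0) (.cons (.rf (nat_lit 819) (nat_lit 407901468851537952)) (.cons (.rf (nat_lit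 820) (nat_lit 407901468851537952)) (.cons (.br (nat_lit 11) (nat_lit 0) (.cons (.rf (nat_lit 820) (nat_lit 83532210304691201)) (.cons (.rf (nat_lit 819) (nat_lit 83532210304691201)) (.cons (.kr (nat_lit 618970019714747731504398336) (nat_lit 2417870085975535377186816) (nat_lit 2) (nat_lit 0)) (.cons (.rf (nat_lit 821) (nat_lit 14242959524133701664)) .nil))))) (.cons (.br (nat_lit 6) (nat_lit 0) (.cons (.ev (nat_lit 309518177500383994326615558) (nat_lit 3)) (.cons (.br (nat_lit 9) (nat_lit 0) (.cons (.zr (nat_lit 4722510879532697976835) (nat_lit 618970038089434215504413184) (nat_lit 5) (nat_lit 0)) (.cons (.rf (nat_lit 801) (nat_lit 13273809589249)) .nil))) (.cons (.rf (nat_lit 805) (nat_lit 424761672176641)) .nil)))) (.cons (.br (nat_lit 6) (nat_lit 0) (.cons (.rf (nat_lit 805) (nat_lit 429155425752065)) (.cons (.br (nat_lit 11) (nat_lit 0) (.cons (.rf (nat_lit 804) (nat_lit 13411114324993)) (.cons (.rf (nat_lit 800) (nat_lit 13514490057760)) (.cons (.rf (nat_lit 821) (nat_lit 14242959519838738464))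 .nil)))) (.cons (.rf (nat_lit 805) (nat_lit 429155423720449)) (.cons (.ev (nat_lit 72340168543109376) (nat_lit 1)) .nil))))) .nil)))))) (.cons (.rf (nat_lit 791) (nat_lit 12289)) .nil)))))),
 (.br (nat_lit 2) (nat_lit 0) (.cons (.ev (nat_lit 1213648258155097152880641) (nat_lit 1)) (.cons (.rf (nat_lit 804) (nat_lit 13410040615937)) .nil))),
 (.br (nat_lit 9) (nat_lit 0) (.cons (.rf (nat_lit 802) (nat_lit 13582102238240)) (.cons (.ev (nat_lit 1213648258155097152880896) (nat_lit 1)) .nil))),
 (.br (nat_lit 1) (nat_lit 0) (.cons (.rf (nat_lit 807) (nat_lit 407901468851537952)) (.cons (.rf (nat_lit 817) (nat_lit 407901468851537952)) (.cons (.rf (nat_lit 822) (nat_lit 407901468851537952)) (.cons (.br (nat_lit 6) (nat_lit 0) (.cons (.br (nat_lit 10) (nat_lit 0) (.cons (.br (nat_lit 11) (nat_lit 0) (.cons (.zr (nat_lit 1208926107846104888377601) (nat_lit 1237940057732124352903839744) (nat_lit 10) (nat_lit 5)) (.cons (.rf (nat_lit 804) (nat_lit 13547776054304)) .nil))) (.cons (.ev (nat_lit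 1208925819896104168194304) (nat_lit 1)) (.cons (.rf (nat_lit 804) (nat_lit 13582102238240)) .nil)))) (.cons (.br (nat_lit 10) (nat_lit 0) (.cons (.ev (nat_lit 72340168543109376) (nat_lit 1)) (.cons (.ev (nat_lit 4722366483973451808769) (nat_lit 1)) (.cons (.rf (nat_lit 823) (nat_lit 407901468851537952)) (.cons (.br (nat_lit 11) (nat_lit 0) (.cons (.rf (nat_lit 801) (nat_lit 13272735880193)) (.cons (.rf (nat_lit 800) (nat_lit 13272735880193)) (.cons (.br (nat_lit 2) (nat_lit 0) (.cons (.rf (nat_lit 802) (nat_lit 13410040615937)) (.cons (.br (nat_lit 9) (nat_lit 0) (.cons (.ev (nat_lit 159077717622249979475845513985) (nat_lit 2)) .nil)) .nil))) .nil)))) .nil))))) (.cons (.ev (nat_lit 1208925819896104168194049) (nat_lit 1)) (.cons (.br (nat_lit 2) (nat_lit 0) (.cons (.br (nat_lit 10) (nat_lit 0) (.cons (.ev (nat_lit 1245193612722997829527012870) (nat_lit 3)) (.cons (.rf (nat_lit 801) (nat_lit 13410040615937)) .nil))) (.cons (.ev (nat_lit 1208925819896104168194304) (nat_lit 1)) (.cons (.rf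 (nat_lit 805) (nat_lit 429121065030657)) .nil)))) (.cons (.br (nat_lit 2) (nat_lit 0) (.cons (.br (nat_lit 9) (nat_lit 0) (.cons (.rf (nat_lit 800) (nat_lit 13582098175008)) (.cons (.ev (nat_lit 4740885285636921098496) (nat_lit 1)) (.cons (.br (nat_lit 10) (nat_lit 0) (.cons (.rf (nat_lit 804) (nat_lit 13272735880193)) (.cons (.br (nat_lit 11) (nat_lit 0) (.cons (.ev (nat_lit 79538856468352322840129765633) (nat_lit 1)) .nil)) .nil))) .nil)))) (.cons (.rf (nat_lit 805) (nat_lit 424727314502657)) (.cons (.rf (nat_lit 805) (nat_lit 424727313486849)) (.cons (.br (nat_lit 10) (nat_lit 0) (.cons (.rf (nat_lit 824) (nat_lit 14242959524133701664)) (.cons (.rf (nat_lit 804) (nat_lit 13410040615937)) (.cons (.br (nat_lit 11) (nat_lit 0) (.cons (.br (nat_lit 9) (nat_lit 0) (.cons (.ev (nat_lit 162801261111285491835857011204) (nat_lit 4)) .nil)) (.cons (.ev (nat_lit 316915067927216513827331244550) (nat_lit 3)) .nil))) .nil)))) .nil))))) .nil)))))) (.cons (.rf (nat_lit 791) (nat_lit 12289)) .nil)))))),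
 (.br (nat_lit 1) (nat_lit 0) (.cons (.rf (nat_lit 807) (nat_lit 407901468851537952)) (.cons (.rf (nat_lit 817) (nat_lit 407901468851537952)) (.cons (.rf (nat_lit 822) (nat_lit 407901468851537952)) (.cons (.rf (nat_lit 825) (nat_lit 407901468851537952)) (.cons (.br (nat_lit 1) (nat_lit 0) (.cons (.rf (nat_lit 807) (nat_lit 407901468851537952)) (.cons (.rf (nat_lit 817) (nat_lit 407901468851537952)) (.cons (.rf (nat_lit 822) (nat_lit 407901468851537952)) (.cons (.rf (nat_lit 825) (nat_lit 407901468851537952)) (.cons (.rf (nat_lit 791) (nat_lit 12289)) .nil)))))) (.cons (.rf (nat_lit 791) (nat_lit 12289)) .nil))))))),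
 (.br (nat_lit 6) (nat_lit 0) (.cons (.br (nat_lit 10) (nat_lit 0) (.cons (.ev (nat_lit 7281908068297404019900930) (nat_lit 3)) (.cons (.br (nat_lit 11) (nat_lit 0) (.cons (.ev (nat_lit 310698676526244239587213568) (nat_lit 1)) .nil)) .nil))) (.cons (.ev (nat_lit 1208944338697776193863681) (nat_lit 1)) (.cons (.ev (nat_lit 309485028340429315255631873) (nat_lit 1)) (.cons (.br (nat_lit 10) (nat_lit 0) (.cons (.br (nat_lit 11) (nat_lit 0) (.cons (.ev (nat_lit 309489732188674562357003011) (nat_lit 2)) .nil)) (.cons (.kr (nat_lit 309485009821345068724846592) (nat_lit 1208925819615728686333952) (nat_lit 2) (nat_lit 0)) (.cons (.br (nat_lit 9) (nat_lit 0) (.cons (.ev (nat_lit 1213648186945222318490371) (nat_lit 2)) (.cons (.br (nat_lit 11) (nat_lit 0) (.cons (.ev (nat_lit 79538856468352322840129765633) (nat_lit 1)) .nil)) .nil))) .nil)))) .nil))))),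
 (.br (nat_lit 10) (nat_lit 0) (.cons (.ev (nat_lit 310698676526244239587213313) (nat_lit 1)) (.cons (.br (nat_lit 11) (nat_lit 0) (.cons (.ev (nat_lit 313121232013155803640955651) (nat_lit 2)) .nil)) .nil))),
 (.br (nat_lit 6) (nat_lit 0) (.cons (.rf (nat_lit 827) (nat_lit 406809687124707360)) (.cons (.ev (nat_lit 4722366483973451808769) (nat_lit 1)) (.cons (.br (nat_lit 2) (nat_lit 0) (.cons (.ev (nat_lit 2427315325037698137195010) (nat_lit 3)) (.cons (.br (nat_lit 9) (nat_lit 0) (.cons (.ev (nat_lit 310698676526244239587213568) (nat_lit 1)) .nil)) .nil))) (.cons (.br (nat_lit 9) (nat_lit 0) (.cons (.br (nat_lit 11) (nat_lit 0) (.cons (.ev (nat_lit 309485028340429315255632128) (nat_lit 1)) .nil)) (.cons (.br (nat_lit 2) (nat_lit 0) (.cons (.ev (nat_lit 309485028340429315255632128) (nat_lit 1)) .nil)) (.cons (.ev (nat_lit 2427315325037706693574660) (nat_lit 3)) .nil)))) .nil))))),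
 (.br (nat_lit 6) (nat_lit 0) (.cons (.ev (nat_lit 309485028340429315255631873) (nat_lit 1)) (.cons (.rf (nat_lit 829) (nat_lit 406809687124707360)) (.cons (.ev (nat_lit 1208944338697776193863681) (nat_lit 1)) (.cons (.br (nat_lit 2) (nat_lit 0) (.cons (.br (nat_lit 10) (nat_lit 0) (.cons (.ev (nat_lit 1213648186945230874870017) (nat_lit 2)) .nil)) (.cons (.kr (nat_lit 309485009821345068724846592) (nat_lit 1208925819615728686333952) (nat_lit 2) (nat_lit 0)) (.cons (.br (nat_lit 9) (nat_lit 0) (.cons (.ev (nat_lit 309489732188674570913382657) (nat_lit 2)) (.cons (.br (nat_lit 10) (nat_lit 0) (.cons (.ev (nat_lit 79538856468352322844441509888) (nat_lit 1)) .nil)) .nil))) .nil)))) .nil))))),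
 (.br (nat_lit 10) (nat_lit 0) (.cons (.ev (nat_lit 310698658007442567561543681) (nat_lit 1)) (.cons (.br (nat_lit 11) (nat_lit 0) (.cons (.ev (nat_lit 79538856468352322840129765633) (nat_lit 1)) .nil)) .nil))),
 (.br (nat_lit 10) (nat_lit 0) (.cons (.ev (nat_lit 310693954087985250897559553) (nat_lit 1)) (.cons (.ev (nat_lit 79538856468352322844441509888) (nat_lit 1)) .nil))),
 (.br (nat_lit 1) (nat_lit 0) (.cons (.kr (nat_lit 4294967297) (nat_lit 16777472) (nat_lit 0) (nat_lit 2)) (.cons (.rf (nat_lit 826) (nat_lit 407901468851537952)) (.cons (.rf (nat_lit 826) (nat_lit 406809687124707360)) (.cons (.br (nat_lit 5) (nat_lit 0) (.cons (.rf (nat_lit 827) (nat_lit 407901468851537952)) (.cons (.br (nat_lit 2) (nat_lit 0) (.cons (.rf (nat_lit 828) (nat_lit 407901468851537952)) (.cons (.rf (nat_lit 828) (nat_lit 406809687124707360)) (.cons (.ev (nat_lit 309485028340429315255631873) (nat_lit 1)) (.cons (.br (nat_lit 9) (nat_lit 0) (.cons (.ev (nat_lit 4722366483973451808769) (nat_lit 1)) (.cons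 (.br (nat_lit 10) (nat_lit 0) (.cons (.ev (nat_lit 313121232013155795084574977) (nat_lit 2)) .nil)) (.cons (.br (nat_lit 11) (nat_lit 0) (.cons (.ev (nat_lit 311917028560304411020165377) (nat_lit 2)) (.cons (.ev (nat_lit 309485028340429310977442048) (nat_lit 1)) .nil))) .nil)))) .nil))))) (.cons (.ev (nat_lit 4722366483969173618689) (nat_lit 1)) (.cons (.rf (nat_lit 829) (nat_lit 407901468851537952)) (.cons (.rf (nat_lit 830) (nat_lit 407901468851537952)) (.cons (.br (nat_lit 6) (nat_lit 0) (.cons (.rf (nat_lit 827) (nat_lit 406809687124707360)) (.cons (.rf (nat_lit 829) (nat_lit 406809687124707360)) (.cons (.ev (nat_lit 1208944338697776193863681) (nat_lit 1)) (.cons (.rf (nat_lit 830) (nat_lit 406809687124707360)) (.cons (.br (nat_lit 2) (nat_lit 0) (.cons (.rf (nat_lit 831) (nat_lit 14242959524133701664)) (.cons (.rf (nat_lit 831) (nat_lit 14241867742406871072)) (.cons (.br (nat_lit 9) (nat_lit 0) (.cons (.ev (nat_lit 310698676526244239587213313) (nat_lit 1)) (.cons (.br (nat_lit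 10) (nat_lit 0) (.cons (.ev (nat_lit 1213648186945235220168706) (nat_lit 2)) .nil)) .nil))) (.cons (.br (nat_lit 11) (nat_lit 0) (.cons (.rf (nat_lit 832) (nat_lit 14242959524133701664)) (.cons (.rf (nat_lit 832) (nat_lit 14241867742406871072)) (.cons (.zr (nat_lit 18518801667747676417) (nat_lit 79847132533907027739600224256) (nat_lit 5) (nat_lit 0)) .nil)))) .nil))))) .nil)))))) .nil))))))) (.cons (.rf (nat_lit 791) (nat_lit 12289)) .nil)))))),
 (.br (nat_lit 1) (nat_lit 0) (.cons (.rf (nat_lit 807) (nat_lit 407901468851537952)) (.cons (.rf (nat_lit 826) (nat_lit 407901468851537952)) (.cons (.rf (nat_lit 826) (nat_lit 406809687124707360)) (.cons (.rf (nat_lit 833) (nat_lit 407901468851537952)) (.cons (.br (nat_lit 1) (nat_lit 0) (.cons (.rf (nat_lit 807) (nat_lit 407901468851537952)) (.cons (.rf (nat_lit 826) (nat_lit 407901468851537952)) (.cons (.rf (nat_lit 826) (nat_lit 406809687124707360)) (.cons (.rf (nat_lit 833) (nat_lit 407901468851537952)) (.cons (.rf (nat_lit 791) (nat_lit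 12289)) .nil)))))) (.cons (.rf (nat_lit 791) (nat_lit 12289)) .nil))))))),
 (.br (nat_lit 1) (nat_lit 0) (.cons (.rf (nat_lit 807) (nat_lit 407901468851537952)) (.cons (.rf (nat_lit 826) (nat_lit 407901468851537952)) (.cons (.rf (nat_lit 826) (nat_lit 406809687124707360)) (.cons (.rf (nat_lit 834) (nat_lit 407901468851537952)) (.cons (.rf (nat_lit 834) (nat_lit 406809687124707360)) (.cons (.br (nat_lit 1) (nat_lit 0) (.cons (.rf (nat_lit 807) (nat_lit 407901468851537952)) (.cons (.rf (nat_lit 826) (nat_lit 407901468851537952)) (.cons (.rf (nat_lit 826) (nat_lit 406809687124707360)) (.cons (.rf (nat_lit 834) (nat_lit 407901468851537952)) (.cons (.rf (nat_lit 834) (nat_lit 406809687124707360)) (.cons (.rf (nat_lit 791) (nat_lit 12289)) .nil))))))) (.cons (.rf (nat_lit 791) (nat_lit 12289)) .nil)))))))),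
 (.br (nat_lit 6) (nat_lit 0) (.cons (.ev (nat_lit 1213648186945226630365955) (nat_lit 2)) (.cons (.br (nat_lit 10) (nat_lit 0) (.cons (.ev (nat_lit 2427315325037680957588480) (nat_lit 3)) (.cons (.rf (nat_lit 814) (nat_lit 13515394983937)) .nil))) (.cons (.rf (nat_lit 794) (nat_lit 433592225400864)) .nil)))),
 (.br (nat_lit 6) (nat_lit 0) (.cons (.ev (nat_lit 1213648186945226630365955) (nat_lit 2)) (.cons (.br (nat_lit 9) (nat_lit 0) (.cons (.ev (nat_lit 2427315325037680957588998) (nat_lit 3)) (.cons (.rf (nat_lit 814) (nat_lit 13549754721312)) .nil))) (.cons (.rf (nat_lit 794) (nat_lit 432492714821633)) .nil)))),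
 (.br (nat_lit 6) (nat_lit 0) (.cons (.rf (nat_lit 836) (nat_lit 407901468851537952)) (.cons (.rf (nat_lit 837) (nat_lit 407901468851537952)) (.cons (.br (nat_lit 11) (nat_lit 0) (.cons (.kr (nat_lit 18446744073709551617) (nat_lit 309485009821345068724781312) (nat_lit 0) (nat_lit 2)) (.cons (.kr (nat_lit 18446744073709551616) (nat_lit 309485009821345068724781056) (nat_lit 8) (nat_lit 0)) (.cons (.br (nat_lit 9) (nat_lit 0) (.cons (.br (nat_lit 12) (nat_lit 0) .nil) (.cons (.br (nat_lit 10) (nat_lit 0) (.cons (.ev (nat_lit 79538861190790581828852973825) (nat_lit 1)) .nil)) .nil))) .nil)))) .nil)))),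
 (.br (nat_lit 11) (nat_lit 0) (.cons (.zr (nat_lit 309489732188109421936640001) (nat_lit 36893488147436011520) (nat_lit 5) (nat_lit 9)) (.cons (.ev (nat_lit 309489750634573111591239681) (nat_lit 1)) (.cons (.rf (nat_lit 816) (nat_lit 432458279562241)) .nil)))),
 (.br (nat_lit 9) (nat_lit 0) (.cons (.zr (nat_lit 309489732188109421936640001) (nat_lit 36893488147436011520) (nat_lit 5) (nat_lit 9)) (.cons (.ev (nat_lit 309489750634573111591239681) (nat_lit 1)) (.cons (.rf (nat_lit 816) (nat_lit 434657302815776)) .nil)))),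
 (.br (nat_lit 6) (nat_lit 0) (.cons (.rf (nat_lit 839) (nat_lit 407901468851537952)) (.cons (.rf (nat_lit 840) (nat_lit 407901468851537952)) (.cons (.br (nat_lit 10) (nat_lit 0) (.cons (.rf (nat_lit 795) (nat_lit 13583045003296)) (.cons (.rf (nat_lit 795) (nat_lit 13514327623681)) (.cons (.br (nat_lit 9) (nat_lit 0) (.cons (.ev (nat_lit 310698658224463073123631875) (nat_lit 2)) (.cons (.br (nat_lit 11) (nat_lit 0) (.cons (.ev (nat_lit 158458742898687838640343614470) (nat_lit 3)) .nil)) .nil))) .nil)))) .nil))))]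

theorem c25 : chkAll C T R L25 (nat_lit 812) = true := by decide +kernel

theorem l25 : (nat_lit 812) + L25.length = (nat_lit 842) := by decide +kernel

/-- part of the certificates -/
def L26 : List Prf := [(.br (nat_lit 1) (nat_lit 0) (.cons (.kr (nat_lit 18446744073726328834) (nat_lit 72057598332895744) (nat_lit 0) (nat_lit 2)) (.cons (.ev (nat_lit 4722366483969156907009) (nat_lit 1)) (.cons (.br (nat_lit 6) (nat_lit 0) (.cons (.rf (nat_lit 836) (nat_lit 407901468851537952)) (.cons (.rf (nat_lit 837) (nat_lit 407901468851537952)) (.cons (.rf (nat_lit 838) (nat_lit 407901468851537952)) (.cons (.br (nat_lit 6) (nat_lit 0) (.cons (.rf (nat_lit 794) (nat_lit 433592225400864)) (.cons (.rf (nat_lit 794) (nat_lit 432492714821633)) (.cons (.rf (nat_lit 838) (nat_lit 407901468851537952)) .nil)))) .nil))))) (.cons (.br (nat_lit 6) (nat_lit 0) (.cons (.rf (nat_lit 839) (nat_lit 407901468851537952)) (.cons (.rf (nat_lit 841) (nat_lit 407901468851537952)) (.cons (.rf (nat_lit 840) (nat_lit 407901468851537952))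 (.cons (.br (nat_lit 6) (nat_lit 0) (.cons (.rf (nat_lit 794) (nat_lit 434657276626976)) (.cons (.rf (nat_lit 841) (nat_lit 407901468851537952)) (.cons (.rf (nat_lit 794) (nat_lit 432458255468545)) .nil)))) .nil))))) (.cons (.rf (nat_lit 791) (nat_lit 12289)) .nil)))))),
 (.br (nat_lit 6) (nat_lit 0) (.cons (.br (nat_lit 6) (nat_lit 0) .nil) .nil)),
 (.br (nat_lit 6) (nat_lit 0) (.cons (.br (nat_lit 6) (nat_lit 0) .nil) .nil)),
 (.br (nat_lit 8) (nat_lit 0) (.cons (.ev (nat_lit 18446745173221244929) (nat_lit 1)) (.cons (.rf (nat_lit 804) (nat_lit 12276369393665)) .nil))),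
 (.br (nat_lit 5) (nat_lit 0) (.cons (.rf (nat_lit 844) (nat_lit 353535952928)) (.cons (.rf (nat_lit 845) (nat_lit 11584701642934304)) (.cons (.rf (nat_lit 804) (nat_lit 12379347945473)) .nil)))),
 (.br (nat_lit 1) (nat_lit 0) (.cons (.kr (nat_lit 18446744073726328834) (nat_lit 72057598332895744) (nat_lit 0) (nat_lit 2)) (.cons (.rf (nat_lit 842) (nat_lit 403257136163981344)) (.cons (.kr (nat_lit 18446744073709551617) (nat_lit 72057594037928192) (nat_lit 0) (nat_lit 2)) (.cons (.br (nat_lit 6) (nat_lit 0) (.cons (.br (nat_lit 9) (nat_lit 0) (.cons (.br (nat_lit 11) (nat_lit 0) (.cons (.ev (nat_lit 310693935713298766914191616) (nat_lit 1)) (.cons (.rf (nat_lit 801) (nat_lit 13376984287233)) .nil))) (.cons (.rf (nat_lit 843) (nat_lit 389002987552)) (.cons (.rf (nat_lit 805) (nat_lit 428063430215681)) .nil)))) (.cons (.zr (nat_lit 4722438821947249787136) (nat_lit 36893488147436011520) (nat_lit 5) (nat_lit 9)) (.cons (.br (nat_lit 10) (nat_lit 0) (.cons (.br (nat_lit 9) (nat_lit 0) (.cons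 (.ev (nat_lit 4740885285636904386816) (nat_lit 1)) (.cons (.rf (nat_lit 800) (nat_lit 13583040940064)) .nil))) (.cons (.br (nat_lit 5) (nat_lit 0) (.cons (.ev (nat_lit 4740885285636904386816) (nat_lit 1)) (.cons (.rf (nat_lit 800) (nat_lit 13583045003296)) .nil))) (.cons (.ev (nat_lit 310693954087985246585815296) (nat_lit 1)) (.cons (.br (nat_lit 11) (nat_lit 0) (.cons (.br (nat_lit 9) (nat_lit 0) (.cons (.rf (nat_lit 801) (nat_lit 13583040940064)) .nil)) (.cons (.br (nat_lit 5) (nat_lit 0) (.cons (.rf (nat_lit 801) (nat_lit 13583045003296)) .nil)) (.cons (.ev (nat_lit 310693935713298766914191361) (nat_lit 1)) .nil)))) .nil))))) (.cons (.rf (nat_lit 846) (nat_lit 12746885433493536)) (.cons (.br (nat_lit 5) (nat_lit 0) (.cons (.rf (nat_lit 804) (nat_lit 13583045003296)) (.cons (.br (nat_lit 9) (nat_lit 0) (.cons (.ev (nat_lit 4740885285641216131073) (nat_lit 1)) (.cons (.ev (nat_lit 4740885285636904386816) (nat_lit 1)) (.cons (.br (nat_lit 10) (nat_lit 0) (.cons (.zr (nat_lit 310693935640960797444669441)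 (nat_lit 36893488151714201600) (nat_lit 5) (nat_lit 5)) (.cons (.br (nat_lit 11) (nat_lit 0) (.cons (.ev (nat_lit 79538861190790581833131163648) (nat_lit 1)) .nil)) .nil))) .nil)))) (.cons (.rf (nat_lit 805) (nat_lit 434657276626976)) (.cons (.br (nat_lit 9) (nat_lit 0) (.cons (.br (nat_lit 10) (nat_lit 0) (.cons (.rf (nat_lit 800) (nat_lit 13411414083616)) (.cons (.br (nat_lit 11) (nat_lit 0) (.cons (.ev (nat_lit 80160253766064298722727035395) (nat_lit 2)) .nil)) .nil))) (.cons (.rf (nat_lit 805) (nat_lit 434657272563744)) (.cons (.ev (nat_lit 4740885285641216131073) (nat_lit 1)) .nil)))) .nil))))) .nil)))))) (.cons (.rf (nat_lit 791) (nat_lit 12289)) .nil)))))),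
 (.br (nat_lit 1) (nat_lit 0) (.cons (.rf (nat_lit 842) (nat_lit 407901468851537952)) (.cons (.rf (nat_lit 847) (nat_lit 407901468851537952)) (.cons (.rf (nat_lit 842) (nat_lit 403257136163981344)) (.cons (.rf (nat_lit 847) (nat_lit 403257136163981344)) (.cons (.br (nat_lit 1) (nat_lit 0) (.cons (.rf (nat_lit 842) (nat_lit 407901468851537952)) (.cons (.rf (nat_lit 847) (nat_lit 407901468851537952)) (.cons (.rf (nat_lit 842) (nat_lit 403257136163981344)) (.cons (.rf (nat_lit 847) (nat_lit 403257136163981344)) (.cons (.rf (nat_lit 791) (nat_lit 12289)) .nil)))))) (.cons (.rf (nat_lit 791) (nat_lit 12289)) .nil))))))),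
 (.br (nat_lit 10) (nat_lit 0) (.cons (.br (nat_lit 11) (nat_lit 0) (.cons (.br (nat_lit 12) (nat_lit 0) .nil) .nil)) .nil)),
 (.br (nat_lit 10) (nat_lit 0) (.cons (.br (nat_lit 11) (nat_lit 0) (.cons (.ev (nat_lit 79537647524085965236773912833) (nat_lit 1)) .nil)) .nil)),
 (.br (nat_lit 10) (nat_lit 0) (.cons (.rf (nat_lit 850) (nat_lit 14242959524133701664)) (.cons (.br (nat_lit 10) (nat_lit 0) (.cons (.rf (nat_lit 850) (nat_lit 14242959524133701664)) .nil)) .nil))),
 (.br (nat_lit 11) (nat_lit 0) (.cons (.ev (nat_lit 79537647524085965236773912833) (nat_lit 1)) .nil)),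
 (.br (nat_lit 11) (nat_lit 0) (.cons (.ev (nat_lit 1208944338697771898962176) (nat_lit 1)) (.cons (.rf (nat_lit 801) (nat_lit 13273905075201)) .nil))),
 (.br (nat_lit 9) (nat_lit 0) (.cons (.rf (nat_lit 853) (nat_lit 407901468851537952)) (.cons (.kr (nat_lit 309485009821345068724846592) (nat_lit 4722366764344621924352) (nat_lit 2) (nat_lit 0)) (.cons (.rf (nat_lit 805) (nat_lit 424764895335425)) .nil)))),
 (.br (nat_lit 6) (nat_lit 0) (.cons (.rf (nat_lit 845) (nat_lit 10497314744538113)) (.cons (.kr (nat_lit 309485009821345068724846592) (nat_lit 4722366764344621924352) (nat_lit 2) (nat_lit 0)) (.cons (.rf (nat_lit 804) (nat_lit 13583044908064)) .nil)))),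
 (.br (nat_lit 5) (nat_lit 0) (.cons (.rf (nat_lit 801) (nat_lit 12379242172417)) (.cons (.rf (nat_lit 800) (nat_lit 12379242172417)) (.cons (.ev (nat_lit 1208925819615732981301504) (nat_lit 1)) .nil)))),
 (.br (nat_lit 1) (nat_lit 0) (.cons (.kr (nat_lit 18446744073726328834) (nat_lit 72057598332895744) (nat_lit 0) (nat_lit 2)) (.cons (.br (nat_lit 2) (nat_lit 0) (.cons (.br (nat_lit 10) (nat_lit 0) (.cons (.rf (nat_lit 849) (nat_lit 407901468851537952)) (.cons (.br (nat_lit 10) (nat_lit 0) (.cons (.rf (nat_lit 849) (nat_lit 407901468851537952)) .nil)) .nil))) (.cons (.br (nat_lit 6) (nat_lit 0) (.cons (.ev (nat_lit 1208944338697771898962176) (nat_lit 1)) (.cons (.ev (nat_lit 9463253460659357483522) (nat_lit 3)) (.cons (.rf (nat_lit 816) (nat_lit 424800490330113)) .nil)))) (.cons (.br (nat_lit 6) (nat_lit 0) (.cons (.ev (nat_lit 9463253460659357483522) (nat_lit 3)) (.cons (.rf (nat_lit 809) (nat_lit 355619473440)) (.cons (.rf (nat_lit 816) (nat_lit 424767204235265)) .nil)))) (.cons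 (.br (nat_lit 6) (nat_lit 0) (.cons (.rf (nat_lit 816) (nat_lit 429198536837152)) (.cons (.rf (nat_lit 816) (nat_lit 429165250742304)) (.cons (.rf (nat_lit 851) (nat_lit 14242959524133701664)) .nil)))) .nil))))) (.cons (.br (nat_lit 6) (nat_lit 0) (.cons (.br (nat_lit 9) (nat_lit 0) (.cons (.rf (nat_lit 843) (nat_lit 355716895776)) (.cons (.br (nat_lit 10) (nat_lit 0) (.cons (.zr (nat_lit 14167244408230531564288) (nat_lit 2417906979463678518231042) (nat_lit 5) (nat_lit 9)) (.cons (.rf (nat_lit 801) (nat_lit 13274978784257)) .nil))) (.cons (.rf (nat_lit 805) (nat_lit 424799354688513)) .nil)))) (.cons (.br (nat_lit 10) (nat_lit 0) (.cons (.rf (nat_lit 843) (nat_lit 218282136608)) (.cons (.ev (nat_lit 1213648258155092857848064) (nat_lit 1)) (.cons (.rf (nat_lit 805) (nat_lit 429198466651168)) .nil)))) (.cons (.rf (nat_lit 846) (nat_lit 11656066722010144)) (.cons (.br (nat_lit 11) (nat_lit 0) (.cons (.kr (nat_lit 55340232221145432066) (nat_lit 618970019714747735782457856) (nat_lit 0) (nat_lit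 2)) (.cons (.br (nat_lit 2) (nat_lit 0) (.cons (.ev (nat_lit 310698658007442571856445441) (nat_lit 1)) (.cons (.rf (nat_lit 800) (nat_lit 13549758911520)) .nil))) (.cons (.kr (nat_lit 18446744073709551616) (nat_lit 309485009821345068724781056) (nat_lit 8) (nat_lit 0)) (.cons (.br (nat_lit 2) (nat_lit 0) (.cons (.br (nat_lit 10) (nat_lit 0) (.cons (.rf (nat_lit 804) (nat_lit 13412454175776)) .nil)) (.cons (.br (nat_lit 9) (nat_lit 0) (.cons (.ev (nat_lit 309489750634573111591239681) (nat_lit 1)) .nil)) (.cons (.br (nat_lit 9) (nat_lit 0) (.cons (.ev (nat_lit 309489750634573111591239681) (nat_lit 1)) (.cons (.ev (nat_lit 4740885285641216131073) (nat_lit 1)) .nil))) .nil)))) .nil))))) (.cons (.br (nat_lit 2) (nat_lit 0) (.cons (.rf (nat_lit 804) (nat_lit 13549758911520)) (.cons (.rf (nat_lit 805) (nat_lit 433592225305632)) (.cons (.br (nat_lit 9) (nat_lit 0) (.cons (.rf (nat_lit 801) (nat_lit 13515266135041)) (.cons (.ev (nat_lit 4740885285641216131073) (nat_lit 1)) (.cons (.br (nat_lit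 10) (nat_lit 0) (.cons (.rf (nat_lit 800) (nat_lit 13412447065120)) (.cons (.br (nat_lit 11) (nat_lit 0) (.cons (.ev (nat_lit 621387890234199129163432960) (nat_lit 3)) .nil)) .nil))) .nil)))) (.cons (.br (nat_lit 9) (nat_lit 0) (.cons (.rf (nat_lit 805) (nat_lit 433592218194976)) (.cons (.br (nat_lit 10) (nat_lit 0) (.cons (.kr (nat_lit 618970019642690137466339328) (nat_lit 18518801672042446848) (nat_lit 3) (nat_lit 0)) (.cons (.rf (nat_lit 852) (nat_lit 14242959524133701664)) .nil))) (.cons (.ev (nat_lit 4740885285641216131073) (nat_lit 1)) .nil)))) .nil))))) .nil)))))) (.cons (.br (nat_lit 2) (nat_lit 0) (.cons (.rf (nat_lit 854) (nat_lit 407901468851537952)) (.cons (.rf (nat_lit 855) (nat_lit 407901468851537952)) (.cons (.br (nat_lit 11) (nat_lit 0) (.cons (.rf (nat_lit 845) (nat_lit 12746782256763936)) (.cons (.rf (nat_lit 854) (nat_lit 83532210304691201)) (.cons (.kr (nat_lit 618970019714747731504398336) (nat_lit 2417870085975535377186816) (nat_lit 2) (nat_lit 0)) (.cons (.rf (nat_lit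 856) (nat_lit 445092485129144352)) .nil))))) (.cons (.br (nat_lit 6) (nat_lit 0) (.cons (.ev (nat_lit 309499214248602137994265090) (nat_lit 3)) (.cons (.br (nat_lit 9) (nat_lit 0) (.cons (.zr (nat_lit 9500073760910372896774) (nat_lit 1237940039357437899018601472) (nat_lit 10) (nat_lit 0)) (.cons (.rf (nat_lit 801) (nat_lit 13583037797408)) .nil))) (.cons (.rf (nat_lit 805) (nat_lit 434657276531744)) .nil)))) (.cons (.br (nat_lit 6) (nat_lit 0) (.cons (.rf (nat_lit 805) (nat_lit 432453960537089)) (.cons (.rf (nat_lit 856) (nat_lit 434961443357693953)) (.cons (.rf (nat_lit 804) (nat_lit 13514193441793)) (.cons (.br (nat_lit 9) (nat_lit 0) (.cons (.rf (nat_lit 856) (nat_lit 439455284886479904)) (.cons (.rf (nat_lit 805) (nat_lit 434657269421088)) (.cons (.ev (nat_lit 4740885285641216131073) (nat_lit 1)) .nil)))) .nil))))) .nil)))))) (.cons (.rf (nat_lit 791) (nat_lit 12289)) .nil)))))),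
 (.br (nat_lit 7) (nat_lit 0) (.cons (.rf (nat_lit 804) (nat_lit 9006786612256)) .nil)),
 (.br (nat_lit 9) (nat_lit 0) (.cons (.ev (nat_lit 1213648258155092857848064) (nat_lit 1)) (.cons (.rf (nat_lit 801) (nat_lit 13578877047840)) .nil))),
 (.br (nat_lit 1) (nat_lit 0) (.cons (.rf (nat_lit 848) (nat_lit 407901468851537952)) (.cons (.rf (nat_lit 857) (nat_lit 407901468851537952)) (.cons (.rf (nat_lit 857) (nat_lit 403257136163981344)) (.cons (.br (nat_lit 10) (nat_lit 0) (.cons (.br (nat_lit 9) (nat_lit 0) (.cons (.rf (nat_lit 853) (nat_lit 403397873518118944)) (.cons (.zr (nat_lit 1208962713103888990339328) (nat_lit 928455029464035206208028672) (nat_lit 5) (nat_lit 10)) (.cons (.rf (nat_lit 805) (nat_lit 424627422958593)) .nil)))) (.cons (.br (nat_lit 6) (nat_lit 0) (.cons (.br (nat_lit 9) (nat_lit 0) (.cons (.zr (nat_lit 1208926107846104888377601) (nat_lit 1237940057732124352903839744) (nat_lit 10) (nat_lit 5)) (.cons (.rf (nat_lit 800) (nat_lit 13578877047840)) .nil))) (.cons (.ev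 (nat_lit 1213666632841576841216256) (nat_lit 1)) (.cons (.br (nat_lit 2) (nat_lit 0) (.cons (.ev (nat_lit 1245193612722997846706619910) (nat_lit 3)) (.cons (.br (nat_lit 9) (nat_lit 0) (.cons (.ev (nat_lit 4740885285641216131073) (nat_lit 1)) .nil)) .nil))) (.cons (.br (nat_lit 2) (nat_lit 0) (.cons (.rf (nat_lit 858) (nat_lit 13583142520864)) (.cons (.rf (nat_lit 859) (nat_lit 407901468851537952)) (.cons (.br (nat_lit 9) (nat_lit 0) (.cons (.rf (nat_lit 801) (nat_lit 13578884158496)) (.cons (.ev (nat_lit 4740885285641216131073) (nat_lit 1)) .nil))) .nil)))) .nil))))) (.cons (.br (nat_lit 2) (nat_lit 0) (.cons (.br (nat_lit 11) (nat_lit 0) (.cons (.zr (nat_lit 928455029608150402840199936) (nat_lit 2417906979463678518099970) (nat_lit 5) (nat_lit 11)) (.cons (.rf (nat_lit 801) (nat_lit 13509897589761)) .nil))) (.cons (.rf (nat_lit 843) (nat_lit 350353429536)) (.cons (.rf (nat_lit 805) (nat_lit 432316488160257)) .nil)))) (.cons (.rf (nat_lit 846) (nat_lit 12598352712799264)) (.cons (.br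 (nat_lit 9) (nat_lit 0) (.cons (.rf (nat_lit 804) (nat_lit 13578884158496)) (.cons (.br (nat_lit 2) (nat_lit 0) (.cons (.ev (nat_lit 4740885285641216131073) (nat_lit 1)) (.cons (.rf (nat_lit 801) (nat_lit 13269615318017)) (.cons (.br (nat_lit 6) (nat_lit 0) (.cons (.rf (nat_lit 800) (nat_lit 13544557974560)) (.cons (.br (nat_lit 11) (nat_lit 0) (.cons (.ev (nat_lit 1245221947065447277031325700) (nat_lit 3)) .nil)) .nil))) .nil)))) (.cons (.rf (nat_lit 805) (nat_lit 434524091880480)) (.cons (.ev (nat_lit 1213648258155092857848064) (nat_lit 1)) .nil))))) .nil)))))) (.cons (.rf (nat_lit 791) (nat_lit 12289)) .nil)))))),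
 (.br (nat_lit 1) (nat_lit 0) (.cons (.rf (nat_lit 848) (nat_lit 407901468851537952)) (.cons (.rf (nat_lit 857) (nat_lit 407901468851537952)) (.cons (.br (nat_lit 1) (nat_lit 0) (.cons (.ev (nat_lit 4722366483969156907009) (nat_lit 1)) (.cons (.rf (nat_lit 857) (nat_lit 407901468851537952)) (.cons (.rf (nat_lit 857) (nat_lit 403257136163981344)) (.cons (.rf (nat_lit 835) (nat_lit 83532210304691201)) (.cons (.rf (nat_lit 791) (nat_lit 12289)) .nil)))))) (.cons (.rf (nat_lit 860) (nat_lit 407901468851537952)) (.cons (.br (nat_lit 1) (nat_lit 0) (.cons (.rf (nat_lit 848) (nat_lit 407901468851537952)) (.cons (.rf (nat_lit 857) (nat_lit 407901468851537952)) (.cons (.rf (nat_lit 835) (nat_lit 83532210304691201)) (.cons (.rf (nat_lit 860) (nat_lit 407901468851537952)) (.cons (.rf (nat_lit 791) (nat_lit 12289)) .nil)))))) (.cons (.rf (nat_lit 791) (nat_lit 12289)) .nil))))))),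
 (.br (nat_lit 1) (nat_lit 0) (.cons (.rf (nat_lit 848) (nat_lit 407901468851537952)) (.cons (.rf (nat_lit 861) (nat_lit 407901468851537952)) (.cons (.rf (nat_lit 861) (nat_lit 403257136163981344)) (.cons (.br (nat_lit 1) (nat_lit 0) (.cons (.kr (nat_lit 18446744073709551617) (nat_lit 72057594037928192) (nat_lit 0) (nat_lit 2)) (.cons (.rf (nat_lit 861) (nat_lit 407901468851537952)) (.cons (.rf (nat_lit 861) (nat_lit 403257136163981344)) (.cons (.rf (nat_lit 835) (nat_lit 82371127132040193)) (.cons (.rf (nat_lit 791) (nat_lit 12289)) .nil)))))) (.cons (.br (nat_lit 1) (nat_lit 0) (.cons (.rf (nat_lit 848) (nat_lit 407901468851537952)) (.cons (.rf (nat_lit 861) (nat_lit 407901468851537952)) (.cons (.rf (nat_lit 861) (nat_lit 403257136163981344)) (.cons (.rf (nat_lit 835) (nat_lit 82371127132040193)) (.cons (.rf (nat_lit 791) (nat_lit 12289)) .nil)))))) (.cons (.rf (nat_lit 791) (nat_lit 12289)) .nil))))))),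
 (.br (nat_lit 1) (nat_lit 0) (.cons (.rf (nat_lit 848) (nat_lit 407901468851537952)) (.cons (.rf (nat_lit 861) (nat_lit 407901468851537952)) (.cons (.rf (nat_lit 862) (nat_lit 407901468851537952)) (.cons (.rf (nat_lit 861) (nat_lit 403257136163981344)) (.cons (.rf (nat_lit 862) (nat_lit 403257136163981344)) (.cons (.br (nat_lit 1) (nat_lit 0) (.cons (.rf (nat_lit 848) (nat_lit 407901468851537952)) (.cons (.rf (nat_lit 861) (nat_lit 407901468851537952)) (.cons (.rf (nat_lit 862) (nat_lit 407901468851537952)) (.cons (.rf (nat_lit 861) (nat_lit 403257136163981344)) (.cons (.rf (nat_lit 862) (nat_lit 403257136163981344)) (.cons (.rf (nat_lit 791) (nat_lit 12289)) .nil))))))) (.cons (.rf (nat_lit 791) (nat_lit 12289)) .nil)))))))),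
 (.br (nat_lit 6) (nat_lit 0) (.cons (.br (nat_lit 9) (nat_lit 0) (.cons (.ev (nat_lit 79228162514336677766365249536) (nat_lit 1)) .nil)) .nil)),
 (.br (nat_lit 1) (nat_lit 0) (.cons (.rf (nat_lit 835) (nat_lit 407901468851537921)) (.cons (.rf (nat_lit 863) (nat_lit 407901468851537921)) (.cons (.kr (nat_lit 1) (nat_lit 256) (nat_lit 0) (nat_lit 2)) (.cons (.br (nat_lit 10) (nat_lit 0) (.cons (.br (nat_lit 6) (nat_lit 0) (.cons (.br (nat_lit 9) (nat_lit 0) (.cons (.ev (nat_lit 310693954087985246602526721) (nat_lit 1)) (.cons (.rf (nat_lit 795) (nat_lit 13578851747872)) .nil))) (.cons (.rf (nat_lit 809) (nat_lit 316054513696)) (.cons (.rf (nat_lit 794) (nat_lit 434622917937184)) .nil)))) (.cons (.br (nat_lit 9) (nat_lit 0) (.cons (.br (nat_lit 6) (nat_lit 0) (.cons (.ev (nat_lit 310693954087985246602526976) (nat_lit 1)) (.cons (.rf (nat_lit 795) (nat_lit 13581972310048)) .nil))) (.cons (.ev (nat_lit 4722366483973451809024) (nat_lit 1)) (.cons (.rf (nat_lit 794) (nat_lit 434523026393120))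 .nil)))) (.cons (.zr (nat_lit 310693935640960806001049601) (nat_lit 144115188076052480) (nat_lit 5) (nat_lit 10)) (.cons (.br (nat_lit 11) (nat_lit 0) (.cons (.rf (nat_lit 816) (nat_lit 434622943078432)) (.cons (.rf (nat_lit 816) (nat_lit 434523085056032)) (.cons (.br (nat_lit 6) (nat_lit 0) (.cons (.rf (nat_lit 864) (nat_lit 14242959524133701664)) (.cons (.br (nat_lit 6) (nat_lit 0) (.cons (.rf (nat_lit 864) (nat_lit 14242959524133701664)) .nil)) .nil))) .nil)))) .nil))))) (.cons (.rf (nat_lit 791) (nat_lit 12289)) .nil)))))),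
 (.br (nat_lit 6) (nat_lit 0) (.cons (.ev (nat_lit 9444732967942625427713) (nat_lit 2)) (.cons (.br (nat_lit 9) (nat_lit 0) (.cons (.ev (nat_lit 1859337355446076049407083783) (nat_lit 3)) (.cons (.rf (nat_lit 804) (nat_lit 13412421765152)) .nil))) (.cons (.rf (nat_lit 804) (nat_lit 13515400316960)) .nil)))),
 (.br (nat_lit 6) (nat_lit 0) (.cons (.rf (nat_lit 866) (nat_lit 406809687124707329)) (.cons (.ev (nat_lit 2417851639792212614578947) (nat_lit 2)) (.cons (.kr (nat_lit 18518801667764256768) (nat_lit 618970019642690141744529408) (nat_lit 3) (nat_lit 0)) (.cons (.br (nat_lit 10) (nat_lit 0) (.cons (.rf (nat_lit 801) (nat_lit 13549725485057)) (.cons (.kr (nat_lit 18518801667747479553) (nat_lit 618970019642690137449562368) (nat_lit 0) (nat_lit 2)) (.cons (.ev (nat_lit 1208944338697776193863681) (nat_lit 1)) .nil)))) .nil))))),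
 (.br (nat_lit 8) (nat_lit 0) (.cons (.ev (nat_lit 4722366764348916891904) (nat_lit 1)) (.cons (.rf (nat_lit 858) (nat_lit 12409578264577)) .nil))),
 (.br (nat_lit 1) (nat_lit 0) (.cons (.rf (nat_lit 835) (nat_lit 407901468851537921)) (.cons (.br (nat_lit 5) (nat_lit 0) (.cons (.br (nat_lit 9) (nat_lit 0) (.cons (.ev (nat_lit 9444732967942625427713) (nat_lit 2)) (.cons (.rf (nat_lit 867) (nat_lit 403257136163981313)) (.cons (.rf (nat_lit 805) (nat_lit 429197401163808)) .nil)))) (.cons (.ev (nat_lit 9444732967942625428227) (nat_lit 2)) (.cons (.rf (nat_lit 866) (nat_lit 407901468851537952)) (.cons (.rf (nat_lit 867) (nat_lit 407901468851537952)) (.cons (.br (nat_lit 9) (nat_lit 0) (.cons (.rf (nat_lit 804) (nat_lit 13549725485057)) (.cons (.rf (nat_lit 805) (nat_lit 433591148644353)) (.cons (.rf (nat_lit 867) (nat_lit 403257136163981313)) (.cons (.ev (nat_lit 4722366483973451808769) (nat_lit 1)) .nil))))) .nil)))))) (.cons (.rf (nat_lit 863) (nat_lit 406809687124707329)) (.cons (.br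 (nat_lit 5) (nat_lit 0) (.cons (.br (nat_lit 10) (nat_lit 0) (.cons (.br (nat_lit 11) (nat_lit 0) (.cons (.ev (nat_lit 309489750634573111607951616) (nat_lit 1)) (.cons (.rf (nat_lit 801) (nat_lit 13375944099841)) .nil))) (.cons (.zr (nat_lit 620178945462305874725830657) (nat_lit 18590859261785604096) (nat_lit 5) (nat_lit 10)) (.cons (.rf (nat_lit 805) (nat_lit 428030144219137)) .nil)))) (.cons (.br (nat_lit 11) (nat_lit 0) (.cons (.rf (nat_lit 868) (nat_lit 12746919793231904)) (.cons (.ev (nat_lit 309489750634573115886141696) (nat_lit 1)) (.cons (.zr (nat_lit 1208962713103876105568257) (nat_lit 928455029464035210502864896) (nat_lit 5) (nat_lit 0)) (.cons (.br (nat_lit 6) (nat_lit 0) (.cons (.rf (nat_lit 800) (nat_lit 13547575019521)) (.cons (.rf (nat_lit 801) (nat_lit 13547575019521)) (.cons (.rf (nat_lit 824) (nat_lit 14201295626845826049)) .nil)))) .nil))))) (.cons (.br (nat_lit 6) (nat_lit 0) (.cons (.rf (nat_lit 823) (nat_lit 366237571563662337)) (.cons (.rf (nat_lit 844) (nat_lit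 387962800160)) (.cons (.rf (nat_lit 804) (nat_lit 13581972310048)) .nil)))) (.cons (.br (nat_lit 10) (nat_lit 0) (.cons (.zr (nat_lit 1208925963730916762320897) (nat_lit 928455029464035214781054976) (nat_lit 5) (nat_lit 0)) (.cons (.zr (nat_lit 620178945462305866169450497) (nat_lit 36965545741457227776) (nat_lit 5) (nat_lit 5)) (.cons (.rf (nat_lit 805) (nat_lit 428030139140097)) .nil)))) (.cons (.br (nat_lit 6) (nat_lit 0) (.cons (.br (nat_lit 10) (nat_lit 0) (.cons (.ev (nat_lit 1208925819896104168194049) (nat_lit 1)) (.cons (.ev (nat_lit 1208925819896108446384384) (nat_lit 1)) (.cons (.br (nat_lit 9) (nat_lit 0) (.cons (.rf (nat_lit 802) (nat_lit 13581972310048)) (.cons (.br (nat_lit 11) (nat_lit 0) (.cons (.ev (nat_lit 79538861190790581833131163648) (nat_lit 1)) .nil)) .nil))) .nil)))) (.cons (.rf (nat_lit 805) (nat_lit 433522333648897)) (.cons (.rf (nat_lit 804) (nat_lit 13547580098561)) (.cons (.br (nat_lit 10) (nat_lit 0) (.cons (.br (nat_lit 9) (nat_lit 0) (.cons (.rf (nat_lit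 800) (nat_lit 13410341390368)) (.cons (.br (nat_lit 11) (nat_lit 0) (.cons (.ev (nat_lit 621397334823612656000434180) (nat_lit 3)) .nil)) .nil))) (.cons (.rf (nat_lit 805) (nat_lit 434622912858144)) (.cons (.ev (nat_lit 1208925819896104168194049) (nat_lit 1)) .nil)))) .nil))))) .nil)))))) (.cons (.rf (nat_lit 791) (nat_lit 12289)) .nil))))))]

theorem c26 : chkAll C T R L26 (nat_lit 842) = true := by decide +kernel

theorem l26 : (nat_lit 842) + L26.length = (nat_lit 870) := by decide +kernel

/-- part of the certificates -/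
def L27 : List Prf := [(.br (nat_lit 1) (nat_lit 0) (.cons (.rf (nat_lit 865) (nat_lit 407901468851537952)) (.cons (.rf (nat_lit 869) (nat_lit 407901468851537952)) (.cons (.rf (nat_lit 869) (nat_lit 402165354437150752)) (.cons (.rf (nat_lit 865) (nat_lit 402165354437150752)) (.cons (.br (nat_lit 1) (nat_lit 0) (.cons (.rf (nat_lit 865) (nat_lit 407901468851537952)) (.cons (.rf (nat_lit 869) (nat_lit 407901468851537952)) (.cons (.rf (nat_lit 869) (nat_lit 402165354437150752)) (.cons (.rf (nat_lit 865) (nat_lit 402165354437150752)) (.cons (.rf (nat_lit 791) (nat_lit 12289)) .nil)))))) (.cons (.rf (nat_lit 791) (nat_lit 12289)) .nil))))))),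
 (.br (nat_lit 5) (nat_lit 0) (.cons (.rf (nat_lit 844) (nat_lit 285922627616)) (.cons (.rf (nat_lit 868) (nat_lit 2544382823862273)) (.cons (.rf (nat_lit 804) (nat_lit 12380420509728)) .nil)))),
 (.br (nat_lit 9) (nat_lit 0) (.cons (.rf (nat_lit 802) (nat_lit 12414678668289)) (.cons (.ev (nat_lit 4722366764344638701569) (nat_lit 1)) .nil))),
 (.br (nat_lit 9) (nat_lit 0) (.cons (.rf (nat_lit 801) (nat_lit 13549624824833)) (.cons (.rf (nat_lit 800) (nat_lit 13549624824833)) (.cons (.rf (nat_lit 872) (nat_lit 445092484020799520)) .nil)))),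
 (.br (nat_lit 9) (nat_lit 0) (.cons (.br (nat_lit 11) (nat_lit 0) (.cons (.br (nat_lit 12) (nat_lit 0) .nil) .nil)) .nil)),
 (.br (nat_lit 9) (nat_lit 0) (.cons (.ev (nat_lit 4722366483973451809024) (nat_lit 1)) (.cons (.ev (nat_lit 1213648258155092857847809) (nat_lit 1)) (.cons (.rf (nat_lit 794) (nat_lit 429197392942112)) .nil)))),
 (.br (nat_lit 10) (nat_lit 0) (.cons (.rf (nat_lit 809) (nat_lit 285792667680)) (.cons (.rf (nat_lit 796) (nat_lit 5990244883337248)) (.cons (.rf (nat_lit 794) (nat_lit 392811369500704)) .nil)))),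
 (.br (nat_lit 1) (nat_lit 0) (.cons (.rf (nat_lit 835) (nat_lit 407901468851537921)) (.cons (.br (nat_lit 2) (nat_lit 0) (.cons (.br (nat_lit 9) (nat_lit 0) (.cons (.rf (nat_lit 843) (nat_lit 321390711840)) (.cons (.br (nat_lit 10) (nat_lit 0) (.cons (.zr (nat_lit 4722654994720774029318) (nat_lit 4835721725206992783410176) (nat_lit 10) (nat_lit 2)) (.cons (.rf (nat_lit 801) (nat_lit 13412413543456)) .nil))) (.cons (.rf (nat_lit 805) (nat_lit 429197401068576)) .nil)))) (.cons (.br (nat_lit 6) (nat_lit 0) (.cons (.rf (nat_lit 843) (nat_lit 218314642464)) (.cons (.ev (nat_lit 4722439387087686861312) (nat_lit 2)) (.cons (.rf (nat_lit 805) (nat_lit 432492714726432)) .nil)))) (.cons (.rf (nat_lit 871) (nat_lit 12746920901609504)) (.cons (.br (nat_lit 6) (nat_lit 0) (.cons (.br (nat_lit 10) (nat_lit 0) (.cons (.ev (nat_lit 310698658007442571856445441) (nat_lit 1)) (.cons (.rf (nat_lit 804) (nat_lit 13275015353345)) .nil))) (.cons (.br (nat_lit 9) (nat_lit 0) (.cons (.ev (nat_lit 311902861677310072076632321)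 (nat_lit 2)) (.cons (.rf (nat_lit 801) (nat_lit 13549621777409)) .nil))) (.cons (.br (nat_lit 9) (nat_lit 0) (.cons (.ev (nat_lit 309499177065192552654700546) (nat_lit 2)) (.cons (.rf (nat_lit 800) (nat_lit 13549621777409)) .nil))) (.cons (.rf (nat_lit 873) (nat_lit 14242959524133701664)) .nil))))) (.cons (.br (nat_lit 6) (nat_lit 0) (.cons (.rf (nat_lit 804) (nat_lit 13549624824833)) (.cons (.rf (nat_lit 805) (nat_lit 433587930469377)) (.cons (.br (nat_lit 10) (nat_lit 0) (.cons (.rf (nat_lit 801) (nat_lit 13515400221728)) (.cons (.ev (nat_lit 1208925819896104168194049) (nat_lit 1)) (.cons (.br (nat_lit 9) (nat_lit 0) (.cons (.rf (nat_lit 802) (nat_lit 13515400221728)) (.cons (.br (nat_lit 11) (nat_lit 0) (.cons (.ev (nat_lit 159696692382850862766759477250) (nat_lit 3)) .nil)) .nil))) .nil)))) (.cons (.br (nat_lit 10) (nat_lit 0) (.cons (.rf (nat_lit 805) (nat_lit 432492706599968)) (.cons (.br (nat_lit 9) (nat_lit 0) (.cons (.kr (nat_lit 618970019642690137466339328) (nat_lit 18518801672042446848)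 (nat_lit 3) (nat_lit 0)) (.cons (.rf (nat_lit 852) (nat_lit 14241868808598947872)) .nil))) (.cons (.ev (nat_lit 1208925819896104168194049) (nat_lit 1)) .nil)))) .nil))))) .nil)))))) (.cons (.br (nat_lit 2) (nat_lit 0) (.cons (.br (nat_lit 9) (nat_lit 0) (.cons (.rf (nat_lit 874) (nat_lit 407901468851537952)) (.cons (.br (nat_lit 9) (nat_lit 0) (.cons (.rf (nat_lit 874) (nat_lit 407901468851537952)) .nil)) .nil))) (.cons (.rf (nat_lit 875) (nat_lit 407901468851537952)) (.cons (.rf (nat_lit 876) (nat_lit 12746920901609504)) (.cons (.br (nat_lit 6) (nat_lit 0) (.cons (.rf (nat_lit 816) (nat_lit 429197496649760)) (.cons (.rf (nat_lit 816) (nat_lit 429130924558368)) (.cons (.rf (nat_lit 851) (nat_lit 14241868808598947872)) .nil)))) .nil))))) (.cons (.rf (nat_lit 863) (nat_lit 83532210304691201)) (.cons (.rf (nat_lit 791) (nat_lit 12289)) .nil)))))),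
 (.br (nat_lit 6) (nat_lit 0) (.cons (.br (nat_lit 9) (nat_lit 0) (.cons (.ev (nat_lit 620178945679043801521455875) (nat_lit 2)) (.cons (.rf (nat_lit 795) (nat_lit 13578843526176)) .nil))) (.cons (.ev (nat_lit 72340172838010881) (nat_lit 1)) (.cons (.rf (nat_lit 794) (nat_lit 434622909715488)) .nil)))),
 (.br (nat_lit 6) (nat_lit 0) (.cons (.br (nat_lit 9) (nat_lit 0) (.cons (.ev (nat_lit 158457533954420913671673741571) (nat_lit 2)) .nil)) .nil)),
 (.br (nat_lit 11) (nat_lit 0) (.cons (.rf (nat_lit 816) (nat_lit 434623113988128)) (.cons (.rf (nat_lit 816) (nat_lit 434523255965728)) (.cons (.br (nat_lit 6) (nat_lit 0) (.cons (.rf (nat_lit 879) (nat_lit 14237223409719314464)) (.cons (.br (nat_lit 6) (nat_lit 0) (.cons (.rf (nat_lit 879) (nat_lit 14237223409719314464)) .nil)) .nil))) .nil)))),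
 (.br (nat_lit 1) (nat_lit 0) (.cons (.kr (nat_lit 1) (nat_lit 256) (nat_lit 0) (nat_lit 2)) (.cons (.rf (nat_lit 877) (nat_lit 407901468851537952)) (.cons (.rf (nat_lit 877) (nat_lit 402165354437150752)) (.cons (.br (nat_lit 2) (nat_lit 0) (.cons (.rf (nat_lit 878) (nat_lit 407901468851537952)) (.cons (.rf (nat_lit 878) (nat_lit 402165354437150752)) (.cons (.zr (nat_lit 309485009821345068724846595) (nat_lit 1208925819615728686334464) (nat_lit 5) (nat_lit 2)) (.cons (.rf (nat_lit 880) (nat_lit 14242959524133701664)) .nil))))) (.cons (.rf (nat_lit 791) (nat_lit 12289)) .nil)))))),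
 (.br (nat_lit 1) (nat_lit 0) (.cons (.rf (nat_lit 870) (nat_lit 407901468851537952)) (.cons (.rf (nat_lit 877) (nat_lit 407901468851537952)) (.cons (.br (nat_lit 1) (nat_lit 0) (.cons (.rf (nat_lit 863) (nat_lit 407901468851537921)) (.cons (.rf (nat_lit 877) (nat_lit 407901468851537952)) (.cons (.rf (nat_lit 877) (nat_lit 402165354437150752)) (.cons (.rf (nat_lit 835) (nat_lit 83532210304691201)) (.cons (.rf (nat_lit 791) (nat_lit 12289)) .nil)))))) (.cons (.rf (nat_lit 881) (nat_lit 407901468851537952)) (.cons (.br (nat_lit 1) (nat_lit 0) (.cons (.rf (nat_lit 870) (nat_lit 407901468851537952)) (.cons (.rf (nat_lit 863) (nat_lit 83532210304691201)) (.cons (.rf (nat_lit 835) (nat_lit 83532210304691201)) (.cons (.rf (nat_lit 881) (nat_lit 407901468851537952)) (.cons (.rf (nat_lit 791) (nat_lit 12289)) .nil)))))) (.cons (.rf (nat_lit 791) (nat_lit 12289)) .nil))))))),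
 (.br (nat_lit 5) (nat_lit 0) (.cons (.br (nat_lit 8) (nat_lit 0) .nil) .nil)),
 (.br (nat_lit 9) (nat_lit 0) (.cons (.rf (nat_lit 883) (nat_lit 12310794111008)) (.cons (.rf (nat_lit 883) (nat_lit 12310729099296)) (.cons (.ev (nat_lit 4722366764344638701569) (nat_lit 1)) .nil)))),
 (.br (nat_lit 11) (nat_lit 0) (.cons (.ev (nat_lit 72340172838010881) (nat_lit 1)) (.cons (.ev (nat_lit 4722366483969173618944) (nat_lit 1)) (.cons (.kr (nat_lit 18446744073709682688) (nat_lit 1208925819615728703111168) (nat_lit 2) (nat_lit 0)) (.cons (.br (nat_lit 6) (nat_lit 0) (.cons (.br (nat_lit 10) (nat_lit 0) (.cons (.br (nat_lit 12) (nat_lit 0) .nil) .nil)) (.cons (.rf (nat_lit 883) (nat_lit 13583142520864)) (.cons (.rf (nat_lit 884) (nat_lit 445092484020799520)) .nil)))) .nil))))),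
 (.br (nat_lit 11) (nat_lit 0) (.cons (.ev (nat_lit 72340172838010881) (nat_lit 1)) (.cons (.kr (nat_lit 618970019642690137466339328) (nat_lit 4722438821938659852288) (nat_lit 3) (nat_lit 0)) (.cons (.ev (nat_lit 1208944338697771915673856) (nat_lit 1)) (.cons (.br (nat_lit 5) (nat_lit 0) (.cons (.br (nat_lit 10) (nat_lit 0) (.cons (.br (nat_lit 12) (nat_lit 0) .nil) .nil)) (.cons (.ev (nat_lit 2417870159163427385509382) (nat_lit 3)) (.cons (.br (nat_lit 12) (nat_lit 0) (.cons (.ev (nat_lit 4722366483973451808769) (nat_lit 1)) (.cons (.ev (nat_lit 1208925892238471717847811) (nat_lit 2)) .nil))) .nil)))) .nil))))),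
 (.br (nat_lit 9) (nat_lit 0) (.cons (.ev (nat_lit 1858123707403811168453001220) (nat_lit 3)) (.cons (.br (nat_lit 10) (nat_lit 0) (.cons (.ev (nat_lit 1213648258155097169592576) (nat_lit 1)) .nil)) .nil))),
 (.br (nat_lit 9) (nat_lit 0) (.cons (.ev (nat_lit 4740885284537392693504) (nat_lit 1)) .nil)),
 (.br (nat_lit 9) (nat_lit 0) (.cons (.kr (nat_lit 4740885566012369534976) (nat_lit 620178945462305870447640576) (nat_lit 2) (nat_lit 0)) (.cons (.rf (nat_lit 888) (nat_lit 445092485129177120)) .nil))),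
 (.br (nat_lit 6) (nat_lit 0) (.cons (.ev (nat_lit 620193242195340902369984516) (nat_lit 3)) (.cons (.br (nat_lit 9) (nat_lit 0) (.cons (.ev (nat_lit 158456329750968062287643017475) (nat_lit 2)) .nil)) .nil))),
 (.br (nat_lit 1) (nat_lit 0) (.cons (.rf (nat_lit 870) (nat_lit 407901468851537952)) (.cons (.rf (nat_lit 882) (nat_lit 407901468851537952)) (.cons (.rf (nat_lit 882) (nat_lit 402165354437150752)) (.cons (.br (nat_lit 2) (nat_lit 0) (.cons (.rf (nat_lit 885) (nat_lit 407901468851537952)) (.cons (.rf (nat_lit 886) (nat_lit 407901468851537952)) (.cons (.rf (nat_lit 886) (nat_lit 402165354437150752)) (.cons (.rf (nat_lit 885) (nat_lit 402165354437150752)) (.cons (.br (nat_lit 5) (nat_lit 0) (.cons (.rf (nat_lit 887) (nat_lit 407901468851537952)) (.cons (.rf (nat_lit 887) (nat_lit 79168278853037057)) (.cons (.br (nat_lit 6) (nat_lit 0) (.cons (.ev (nat_lit 1237949502827071327487133190) (nat_lit 3)) (.cons (.rf (nat_lit 883) (nat_lit 13402759304224)) .nil))) (.cons (.br (nat_lit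 6) (nat_lit 0) (.cons (.rf (nat_lit 883) (nat_lit 13378087327745)) (.cons (.rf (nat_lit 887) (nat_lit 82371127132040193)) (.cons (.ev (nat_lit 72340168526266624) (nat_lit 1)) .nil)))) .nil))))) (.cons (.br (nat_lit 11) (nat_lit 0) (.cons (.rf (nat_lit 886) (nat_lit 79168278853037057)) (.cons (.rf (nat_lit 885) (nat_lit 82371127132040193)) (.cons (.rf (nat_lit 885) (nat_lit 79168278853037057)) (.cons (.rf (nat_lit 886) (nat_lit 82371127132040193)) (.cons (.br (nat_lit 5) (nat_lit 0) (.cons (.rf (nat_lit 889) (nat_lit 14242959524133701664)) (.cons (.rf (nat_lit 889) (nat_lit 13914226334135200769)) (.cons (.rf (nat_lit 890) (nat_lit 14242959524133701664)) (.cons (.br (nat_lit 6) (nat_lit 0) (.cons (.rf (nat_lit 890) (nat_lit 13917429182414203905)) (.cons (.rf (nat_lit 888) (nat_lit 434919661950446593)) (.cons (.ev (nat_lit 72340168526266624) (nat_lit 1)) .nil)))) .nil))))) .nil)))))) .nil))))))) (.cons (.rf (nat_lit 791) (nat_lit 12289)) .nil)))))),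
 (.br (nat_lit 1) (nat_lit 0) (.cons (.rf (nat_lit 870) (nat_lit 407901468851537952)) (.cons (.rf (nat_lit 882) (nat_lit 407901468851537952)) (.cons (.rf (nat_lit 891) (nat_lit 407901468851537952)) (.cons (.rf (nat_lit 882) (nat_lit 402165354437150752)) (.cons (.br (nat_lit 1) (nat_lit 0) (.cons (.rf (nat_lit 870) (nat_lit 407901468851537952)) (.cons (.rf (nat_lit 863) (nat_lit 83532210304691201)) (.cons (.rf (nat_lit 891) (nat_lit 407901468851537952)) (.cons (.rf (nat_lit 835) (nat_lit 82371127132040193)) (.cons (.rf (nat_lit 791) (nat_lit 12289)) .nil)))))) (.cons (.rf (nat_lit 791) (nat_lit 12289)) .nil))))))),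
 (.br (nat_lit 1) (nat_lit 0) (.cons (.rf (nat_lit 870) (nat_lit 407901468851537952)) (.cons (.rf (nat_lit 882) (nat_lit 407901468851537952)) (.cons (.rf (nat_lit 892) (nat_lit 407901468851537952)) (.cons (.rf (nat_lit 892) (nat_lit 402165354437150752)) (.cons (.rf (nat_lit 882) (nat_lit 402165354437150752)) (.cons (.br (nat_lit 1) (nat_lit 0) (.cons (.rf (nat_lit 870) (nat_lit 407901468851537952)) (.cons (.rf (nat_lit 882) (nat_lit 407901468851537952)) (.cons (.rf (nat_lit 892) (nat_lit 407901468851537952)) (.cons (.rf (nat_lit 892) (nat_lit 402165354437150752)) (.cons (.rf (nat_lit 882) (nat_lit 402165354437150752)) (.cons (.rf (nat_lit 791) (nat_lit 12289)) .nil))))))) (.cons (.rf (nat_lit 791) (nat_lit 12289)) .nil)))))))),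
 (.br (nat_lit 1) (nat_lit 0) (.cons (.rf (nat_lit 835) (nat_lit 407901468851537921)) (.cons (.rf (nat_lit 863) (nat_lit 407901468851537921)) (.cons (.rf (nat_lit 893) (nat_lit 407901468851537921)) (.cons (.kr (nat_lit 18518801667747610624) (nat_lit 618970019642690141761306624) (nat_lit 2) (nat_lit 0)) (.cons (.rf (nat_lit 791) (nat_lit 12289)) .nil)))))),
 (.br (nat_lit 1) (nat_lit 0) (.cons (.rf (nat_lit 894) (nat_lit 407901468851537952)) (.cons (.rf (nat_lit 894) (nat_lit 406809687124707360)) (.cons (.rf (nat_lit 894) (nat_lit 403257136163981344)) (.cons (.rf (nat_lit 894) (nat_lit 402165354437150752)) (.cons (.kr (nat_lit 18518801667747610624) (nat_lit 618970019642690141761306624) (nat_lit 2) (nat_lit 0)) (.cons (.rf (nat_lit 791) (nat_lit 12289)) .nil))))))),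
 (.br (nat_lit 6) (nat_lit 0) (.cons (.br (nat_lit 11) (nat_lit 0) (.cons (.ev (nat_lit 310693954087985246602526721) (nat_lit 1)) (.cons (.rf (nat_lit 801) (nat_lit 13514318386208)) .nil))) (.cons (.kr (nat_lit 18446744073709617152) (nat_lit 309485009821345073019748352) (nat_lit 2) (nat_lit 0)) (.cons (.rf (nat_lit 805) (nat_lit 432458255373344)) .nil)))),
 (.br (nat_lit 10) (nat_lit 0) (.cons (.ev (nat_lit 1208925819896108463227136) (nat_lit 1)) (.cons (.ev (nat_lit 1213648258155097152880641) (nat_lit 1)) (.cons (.kr (nat_lit 18518801667747610624) (nat_lit 618970019642690141761306624) (nat_lit 2) (nat_lit 0)) (.cons (.br (nat_lit 6) (nat_lit 0) (.cons (.rf (nat_lit 858) (nat_lit 13574556784641)) (.cons (.rf (nat_lit 896) (nat_lit 83532210304691232)) (.cons (.br (nat_lit 9) (nat_lit 0) (.cons (.ev (nat_lit 310693935713298771209093376) (nat_lit 1)) (.cons (.br (nat_lit 11) (nat_lit 0) (.cons (.ev (nat_lit 159701537531004708988720776708) (nat_lit 3)) .nil)) .nil))) .nil)))) .nil))))),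
 (.br (nat_lit 1) (nat_lit 0) (.cons (.rf (nat_lit 835) (nat_lit 407901468851537921)) (.cons (.br (nat_lit 2) (nat_lit 0) (.cons (.br (nat_lit 9) (nat_lit 0) (.cons (.br (nat_lit 11) (nat_lit 0) (.cons (.ev (nat_lit 310698676526244235292180736) (nat_lit 1)) (.cons (.rf (nat_lit 801) (nat_lit 13411339834400)) .nil))) (.cons (.ev (nat_lit 4777851676907131633666) (nat_lit 2)) (.cons (.rf (nat_lit 805) (nat_lit 429162941715488)) .nil)))) (.cons (.rf (nat_lit 896) (nat_lit 407901468851537952)) (.cons (.rf (nat_lit 897) (nat_lit 407901468851537952)) (.cons (.br (nat_lit 6) (nat_lit 0) (.cons (.ev (nat_lit 309499232477482359214768130) (nat_lit 2)) (.cons (.br (nat_lit 9) (nat_lit 0) (.cons (.ev (nat_lit 1856938412078682240276628480) (nat_lit 3)) (.cons (.rf (nat_lit 804) (nat_lit 13411348976672)) .nil))) (.cons (.rf (nat_lit 804) (nat_lit 13514327528480)) .nil)))) (.cons (.br (nat_lit 11) (nat_lit 0) (.cons (.rf (nat_lit 805) (nat_lit 434652981695489)) (.cons (.rf (nat_lit 805) (nat_lit 434652978648065))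 (.cons (.rf (nat_lit 897) (nat_lit 83532210304691232)) (.cons (.kr (nat_lit 18518801667747610624) (nat_lit 618970019642690141761306624) (nat_lit 2) (nat_lit 0)) .nil))))) .nil)))))) (.cons (.br (nat_lit 2) (nat_lit 0) (.cons (.br (nat_lit 11) (nat_lit 0) (.cons (.kr (nat_lit 72057594037993472) (nat_lit 309485009821345068741558272) (nat_lit 2) (nat_lit 0)) (.cons (.rf (nat_lit 843) (nat_lit 353636520992)) (.cons (.rf (nat_lit 805) (nat_lit 424732682032129)) .nil)))) (.cons (.br (nat_lit 6) (nat_lit 0) (.cons (.ev (nat_lit 4722366483973451809024) (nat_lit 1)) (.cons (.br (nat_lit 9) (nat_lit 0) (.cons (.zr (nat_lit 14167244408221941695232) (nat_lit 2417906979463682813067266) (nat_lit 5) (nat_lit 9)) (.cons (.rf (nat_lit 858) (nat_lit 13574589290497)) .nil))) (.cons (.kr (nat_lit 18446744073709617152) (nat_lit 309485009821345073019748352) (nat_lit 2) (nat_lit 0)) (.cons (.br (nat_lit 9) (nat_lit 0) (.cons (.rf (nat_lit 800) (nat_lit 13581838128129)) (.cons (.kr (nat_lit 18518801667747610624)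 (nat_lit 618970019642690141761306624) (nat_lit 2) (nat_lit 0)) (.cons (.br (nat_lit 10) (nat_lit 0) (.cons (.rf (nat_lit 801) (nat_lit 13581838128129)) (.cons (.ev (nat_lit 1213666632841572546314241) (nat_lit 1)) .nil))) .nil)))) .nil))))) (.cons (.br (nat_lit 6) (nat_lit 0) (.cons (.br (nat_lit 11) (nat_lit 0) (.cons (.ev (nat_lit 309489732259886636231360513) (nat_lit 1)) (.cons (.rf (nat_lit 801) (nat_lit 13547604382752)) .nil))) (.cons (.rf (nat_lit 843) (nat_lit 216201761824)) (.cons (.rf (nat_lit 805) (nat_lit 433523407262752)) .nil)))) (.cons (.br (nat_lit 6) (nat_lit 0) (.cons (.br (nat_lit 9) (nat_lit 0) (.cons (.ev (nat_lit 1213666632841572546314496) (nat_lit 1)) (.cons (.rf (nat_lit 858) (nat_lit 13544558069792)) .nil))) (.cons (.rf (nat_lit 844) (nat_lit 353636520992)) (.cons (.rf (nat_lit 804) (nat_lit 13547613525024)) .nil)))) (.cons (.br (nat_lit 11) (nat_lit 0) (.cons (.rf (nat_lit 805) (nat_lit 434618623005697)) (.cons (.br (nat_lit 6) (nat_lit 0) (.cons (.rf (nat_lit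 800) (nat_lit 13547613525024)) (.cons (.rf (nat_lit 804) (nat_lit 13581838128129)) (.cons (.br (nat_lit 9) (nat_lit 0) (.cons (.ev (nat_lit 4722366483973451808769) (nat_lit 1)) (.cons (.br (nat_lit 10) (nat_lit 0) (.cons (.ev (nat_lit 792281634606186197328998303240) (nat_lit 4)) .nil)) .nil))) .nil)))) (.cons (.rf (nat_lit 805) (nat_lit 434618618942465)) (.cons (.kr (nat_lit 18518801667747610624) (nat_lit 618970019642690141761306624) (nat_lit 2) (nat_lit 0)) .nil))))) .nil)))))) (.cons (.rf (nat_lit 863) (nat_lit 83532210304691201)) (.cons (.rf (nat_lit 791) (nat_lit 12289)) .nil)))))),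
 (.br (nat_lit 1) (nat_lit 0) (.cons (.rf (nat_lit 895) (nat_lit 407901468851537952)) (.cons (.rf (nat_lit 898) (nat_lit 407901468851537952)) (.cons (.rf (nat_lit 898) (nat_lit 83532210304691232)) (.cons (.br (nat_lit 1) (nat_lit 0) (.cons (.rf (nat_lit 893) (nat_lit 407901468851537921)) (.cons (.rf (nat_lit 898) (nat_lit 407901468851537952)) (.cons (.rf (nat_lit 898) (nat_lit 83532210304691232)) (.cons (.rf (nat_lit 893) (nat_lit 83532210304691201)) (.cons (.rf (nat_lit 791) (nat_lit 12289)) .nil)))))) (.cons (.rf (nat_lit 895) (nat_lit 83532210304691232)) (.cons (.rf (nat_lit 791) (nat_lit 12289)) .nil)))))))]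

theorem c27 : chkAll C T R L27 (nat_lit 870) = true := by decide +kernel

theorem l27 : (nat_lit 870) + L27.length = (nat_lit 900) := by decide +kernel

/-- part of the certificates -/
def L28 : List Prf := [(.br (nat_lit 10) (nat_lit 0) (.cons (.ev (nat_lit 72340172838010881) (nat_lit 1)) (.cons (.ev (nat_lit 4722366483969173618944) (nat_lit 1)) (.cons (.kr (nat_lit 18446744073709617152) (nat_lit 309485009821345068741558272) (nat_lit 2) (nat_lit 0)) (.cons (.br (nat_lit 11) (nat_lit 0) (.cons (.rf (nat_lit 883) (nat_lit 13549856524320)) (.cons (.rf (nat_lit 883) (nat_lit 13549759006752)) (.cons (.br (nat_lit 12) (nat_lit 0) (.cons (.ev (nat_lit 309485009821627643229962241) (nat_lit 1)) (.cons (.ev (nat_lit 309489732259886636231360768) (nat_lit 1)) .nil))) .nil)))) .nil))))),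
 (.br (nat_lit 7) (nat_lit 0) (.cons (.br (nat_lit 8) (nat_lit 0) .nil) .nil)),
 (.br (nat_lit 5) (nat_lit 0) (.cons (.br (nat_lit 10) (nat_lit 0) (.cons (.ev (nat_lit 309485009821627647508152321) (nat_lit 1)) (.cons (.rf (nat_lit 901) (nat_lit 13583142520864)) .nil))) (.cons (.ev (nat_lit 72340172838010881) (nat_lit 1)) (.cons (.rf (nat_lit 900) (nat_lit 83532210304691232)) (.cons (.br (nat_lit 9) (nat_lit 0) (.cons (.rf (nat_lit 883) (nat_lit 13372752208897)) (.cons (.kr (nat_lit 72057594037993472) (nat_lit 309485009821345068741558272) (nat_lit 2) (nat_lit 0)) (.cons (.br (nat_lit 10) (nat_lit 0) (.cons (.rf (nat_lit 901) (nat_lit 13375944099872)) (.cons (.br (nat_lit 11) (nat_lit 0) (.cons (.ev (nat_lit 79538861190790581833131163648) (nat_lit 1)) .nil)) .nil))) .nil)))) .nil))))),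
 (.br (nat_lit 5) (nat_lit 0) (.cons (.br (nat_lit 10) (nat_lit 0) (.cons (.ev (nat_lit 309489732259886631919616256) (nat_lit 1)) (.cons (.rf (nat_lit 901) (nat_lit 13583045003296)) .nil))) (.cons (.ev (nat_lit 4722366483969173618944) (nat_lit 1)) (.cons (.rf (nat_lit 900) (nat_lit 83532210304691232)) (.cons (.br (nat_lit 6) (nat_lit 0) (.cons (.rf (nat_lit 883) (nat_lit 13375973431297)) (.cons (.kr (nat_lit 18446744073709617152) (nat_lit 309485009821345073019748352) (nat_lit 2) (nat_lit 0)) (.cons (.br (nat_lit 10) (nat_lit 0) (.cons (.rf (nat_lit 901) (nat_lit 13372726020128)) (.cons (.br (nat_lit 11) (nat_lit 0) (.cons (.ev (nat_lit 79538856468352322840129765633) (nat_lit 1)) .nil)) .nil))) .nil)))) .nil))))),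
 (.br (nat_lit 11) (nat_lit 0) (.cons (.kr (nat_lit 72057594037993472) (nat_lit 309485009821345073019748352) (nat_lit 2) (nat_lit 0)) (.cons (.rf (nat_lit 903) (nat_lit 83532210304691232)) (.cons (.rf (nat_lit 902) (nat_lit 83532210304691232)) (.cons (.br (nat_lit 5) (nat_lit 0) (.cons (.rf (nat_lit 901) (nat_lit 13515261024257)) (.cons (.rf (nat_lit 901) (nat_lit 13412181812225)) (.cons (.br (nat_lit 6) (nat_lit 0) (.cons (.ev (nat_lit 4864055996720356583015942) (nat_lit 3)) (.cons (.br (nat_lit 9) (nat_lit 0) (.cons (.ev (nat_lit 2422574222729347923575041) (nat_lit 2)) .nil)) .nil))) .nil)))) .nil))))),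
 (.br (nat_lit 5) (nat_lit 0) (.cons (.br (nat_lit 8) (nat_lit 0) .nil) .nil)),
 (.br (nat_lit 1) (nat_lit 0) (.cons (.rf (nat_lit 893) (nat_lit 406809687124707329)) (.cons (.rf (nat_lit 899) (nat_lit 407901468851537952)) (.cons (.br (nat_lit 2) (nat_lit 0) (.cons (.rf (nat_lit 900) (nat_lit 407901468851537952)) (.cons (.rf (nat_lit 902) (nat_lit 407901468851537952)) (.cons (.rf (nat_lit 903) (nat_lit 407901468851537952)) (.cons (.rf (nat_lit 904) (nat_lit 407901468851537952)) (.cons (.br (nat_lit 5) (nat_lit 0) (.cons (.ev (nat_lit 618970038162622107462534662) (nat_lit 3)) (.cons (.ev (nat_lit 1856928966912807961035408902) (nat_lit 3)) (.cons (.br (nat_lit 6) (nat_lit 0) (.cons (.ev (nat_lit 4845166820145171240584710) (nat_lit 3)) (.cons (.rf (nat_lit 883) (nat_lit 13405979510816)) .nil))) (.cons (.br (nat_lit 6) (nat_lit 0) (.cons (.rf (nat_lit 905) (nat_lit 13582102333472)) (.cons (.rf (nat_lit 905) (nat_lit 13583142520864)) (.cons (.br (nat_lit 9) (nat_lit 0) (.cons (.rf (nat_lit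 905) (nat_lit 13583045003296)) (.cons (.br (nat_lit 10) (nat_lit 0) (.cons (.ev (nat_lit 159075299770754867604578369795) (nat_lit 2)) .nil)) .nil))) .nil)))) .nil))))) (.cons (.br (nat_lit 11) (nat_lit 0) (.cons (.rf (nat_lit 900) (nat_lit 83532210304691232)) (.cons (.rf (nat_lit 903) (nat_lit 83532210304691232)) (.cons (.rf (nat_lit 902) (nat_lit 83532210304691232)) (.cons (.rf (nat_lit 904) (nat_lit 83532210304691232)) (.cons (.kr (nat_lit 18518801667747610624) (nat_lit 618970019642690141761306624) (nat_lit 2) (nat_lit 0)) .nil)))))) .nil))))))) (.cons (.rf (nat_lit 893) (nat_lit 82371127132040193)) (.cons (.rf (nat_lit 791) (nat_lit 12289)) .nil)))))),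
 (.br (nat_lit 1) (nat_lit 0) (.cons (.rf (nat_lit 895) (nat_lit 407901468851537952)) (.cons (.rf (nat_lit 899) (nat_lit 407901468851537952)) (.cons (.rf (nat_lit 906) (nat_lit 407901468851537952)) (.cons (.br (nat_lit 1) (nat_lit 0) (.cons (.rf (nat_lit 863) (nat_lit 406809687124707329)) (.cons (.rf (nat_lit 899) (nat_lit 407901468851537952)) (.cons (.rf (nat_lit 906) (nat_lit 407901468851537952)) (.cons (.rf (nat_lit 835) (nat_lit 82371127132040193)) (.cons (.rf (nat_lit 791) (nat_lit 12289)) .nil)))))) (.cons (.rf (nat_lit 895) (nat_lit 83532210304691232)) (.cons (.rf (nat_lit 791) (nat_lit 12289)) .nil))))))),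
 (.br (nat_lit 0) (nat_lit 0) (.cons (.rf (nat_lit 835) (nat_lit 407901468851537952)) (.cons (.rf (nat_lit 863) (nat_lit 407901468851537952)) (.cons (.rf (nat_lit 893) (nat_lit 407901468851537952)) (.cons (.br (nat_lit 1) (nat_lit 0) (.cons (.rf (nat_lit 895) (nat_lit 407901468851537952)) (.cons (.rf (nat_lit 899) (nat_lit 407901468851537952)) (.cons (.rf (nat_lit 907) (nat_lit 407901468851537952)) (.cons (.rf (nat_lit 907) (nat_lit 83532210304691232)) (.cons (.br (nat_lit 1) (nat_lit 0) (.cons (.rf (nat_lit 895) (nat_lit 407901468851537952)) (.cons (.rf (nat_lit 899) (nat_lit 407901468851537952)) (.cons (.rf (nat_lit 907) (nat_lit 407901468851537952)) (.cons (.rf (nat_lit 907) (nat_lit 83532210304691232)) (.cons (.rf (nat_lit 895) (nat_lit 83532210304691232)) (.cons (.rf (nat_lit 791) (nat_lit 12289)) .nil))))))) (.cons (.rf (nat_lit 895) (nat_lit 83532210304691232)) (.cons (.rf (nat_lit 791) (nat_lit 12289)) .nil)))))))) (.cons (.rf (nat_lit 791) (nat_lit 12320)) .nil)))))),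
 (.br (nat_lit 7) (nat_lit 0) (.cons (.rf (nat_lit 0) (nat_lit 3391328585)) (.cons (.br (nat_lit 10) (nat_lit 1) (.cons (.br (nat_lit 8) (nat_lit 0) (.cons (.br (nat_lit 0) (nat_lit 0) (.cons (.rf (nat_lit 908) (nat_lit 407901468851537952)) (.cons (.rf (nat_lit 908) (nat_lit 406809687124707360)) (.cons (.rf (nat_lit 908) (nat_lit 403257136163981344)) (.cons (.rf (nat_lit 908) (nat_lit 402165354437150752)) (.cons (.br (nat_lit 0) (nat_lit 0) (.cons (.rf (nat_lit 908) (nat_lit 407901468851537952)) (.cons (.rf (nat_lit 908) (nat_lit 406809687124707360)) (.cons (.rf (nat_lit 908) (nat_lit 403257136163981344)) (.cons (.rf (nat_lit 908) (nat_lit 402165354437150752)) (.cons (.rf (nat_lit 791) (nat_lit 12320)) .nil)))))) (.cons (.rf (nat_lit 791) (nat_lit 12320)) .nil))))))) .nil)) .nil)) .nil))),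
 (.br (nat_lit 5) (nat_lit 1) (.cons (.rf (nat_lit 1) (nat_lit 6425762)) (.cons (.br (nat_lit 7) (nat_lit 1) (.cons (.br (nat_lit 4) (nat_lit 0) (.cons (.rf (nat_lit 1) (nat_lit 5377218)) (.cons (.br (nat_lit 4) (nat_lit 0) (.cons (.rf (nat_lit 1) (nat_lit 5377218)) (.cons (.br (nat_lit 6) (nat_lit 1) (.cons (.rf (nat_lit 792) (nat_lit 8831275106)) (.cons (.br (nat_lit 9) (nat_lit 1) (.cons (.rf (nat_lit 909) (nat_lit 11584701642934304)) (.cons (.rf (nat_lit 909) (nat_lit 11583635450857504)) .nil))) .nil))) .nil))) .nil))) .nil)) .nil))),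
 (.br (nat_lit 10) (nat_lit 0) (.cons (.ev (nat_lit 1208925819896104168194304) (nat_lit 1)) (.cons (.ev (nat_lit 1208925891954797701038081) (nat_lit 1)) (.cons (.rf (nat_lit 816) (nat_lit 429197325740033)) .nil)))),
 (.br (nat_lit 9) (nat_lit 0) (.cons (.rf (nat_lit 816) (nat_lit 397276021462048)) (.cons (.rf (nat_lit 816) (nat_lit 397209449468960)) (.cons (.ev (nat_lit 4722366483969173618944) (nat_lit 1)) .nil)))),
 (.br (nat_lit 6) (nat_lit 0) (.cons (.rf (nat_lit 911) (nat_lit 407901468851537952)) (.cons (.ev (nat_lit 1208925819896104168194049) (nat_lit 1)) (.cons (.rf (nat_lit 911) (nat_lit 335914243557787680)) (.cons (.rf (nat_lit 912) (nat_lit 445092485129144352)) .nil))))),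
 (.br (nat_lit 1) (nat_lit 0) (.cons (.kr (nat_lit 1) (nat_lit 256) (nat_lit 0) (nat_lit 2)) (.cons (.kr (nat_lit 72057598332895234) (nat_lit 18446744073726329344) (nat_lit 0) (nat_lit 2)) (.cons (.rf (nat_lit 913) (nat_lit 407901468851537952)) (.cons (.rf (nat_lit 913) (nat_lit 372998571739416608)) (.cons (.rf (nat_lit 791) (nat_lit 12289)) .nil)))))),
 (.br (nat_lit 9) (nat_lit 0) (.cons (.ev (nat_lit 4722366483969173618944) (nat_lit 1)) (.cons (.br (nat_lit 10) (nat_lit 0) (.cons (.kr (nat_lit 309485009821345068724781057) (nat_lit 1208925819614629174706432) (nat_lit 0) (nat_lit 2)) (.cons (.rf (nat_lit 794) (nat_lit 432497004578848)) .nil))) (.cons (.rf (nat_lit 816) (nat_lit 428098921407489)) .nil)))),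
 (.br (nat_lit 9) (nat_lit 0) (.cons (.br (nat_lit 11) (nat_lit 0) (.cons (.ev (nat_lit 310698658007443667073105921) (nat_lit 1)) .nil)) .nil)),
 (.br (nat_lit 9) (nat_lit 0) (.cons (.br (nat_lit 11) (nat_lit 0) (.cons (.ev (nat_lit 310698658007443667073106176) (nat_lit 1)) .nil)) .nil)),
 (.br (nat_lit 5) (nat_lit 0) (.cons (.br (nat_lit 10) (nat_lit 0) (.cons (.kr (nat_lit 2417870085975531098996736) (nat_lit 9444805586287576743936) (nat_lit 3) (nat_lit 0)) (.cons (.ev (nat_lit 1208944266641281684406273) (nat_lit 1)) (.cons (.rf (nat_lit 816) (nat_lit 428097847666689)) .nil)))) (.cons (.br (nat_lit 9) (nat_lit 0) (.cons (.rf (nat_lit 916) (nat_lit 407901468851537952)) (.cons (.br (nat_lit 9) (nat_lit 0) (.cons (.rf (nat_lit 916) (nat_lit 407901468851537952)) .nil)) .nil))) (.cons (.br (nat_lit 10) (nat_lit 0) (.cons (.ev (nat_lit 1208944266641281684406273) (nat_lit 1)) (.cons (.kr (nat_lit 618970038161491805197172738) (nat_lit 2417851639231461684412928) (nat_lit 0) (nat_lit 6)) (.cons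 (.rf (nat_lit 816) (nat_lit 428031275575297)) .nil)))) (.cons (.br (nat_lit 10) (nat_lit 0) (.cons (.rf (nat_lit 816) (nat_lit 433595405800480)) (.cons (.rf (nat_lit 816) (nat_lit 433528833709088)) (.cons (.br (nat_lit 9) (nat_lit 0) (.cons (.rf (nat_lit 917) (nat_lit 14242959524133701664)) (.cons (.br (nat_lit 9) (nat_lit 0) (.cons (.rf (nat_lit 917) (nat_lit 14242959524133701664)) .nil)) .nil))) .nil)))) .nil))))),
 (.br (nat_lit 1) (nat_lit 0) (.cons (.kr (nat_lit 1) (nat_lit 256) (nat_lit 0) (nat_lit 2)) (.cons (.br (nat_lit 5) (nat_lit 0) (.cons (.ev (nat_lit 4740885285641199288321) (nat_lit 1)) (.cons (.rf (nat_lit 915) (nat_lit 407901468851537952)) (.cons (.rf (nat_lit 915) (nat_lit 372998571739416608)) (.cons (.rf (nat_lit 912) (nat_lit 445058262797223968)) .nil))))) (.cons (.rf (nat_lit 918) (nat_lit 407901468851537952)) (.cons (.rf (nat_lit 918) (nat_lit 372998571739416608)) (.cons (.rf (nat_lit 791) (nat_lit 12289)) .nil)))))),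
 (.br (nat_lit 5) (nat_lit 0) (.cons (.br (nat_lit 9) (nat_lit 0) (.cons (.ev (nat_lit 4722366483969173618944) (nat_lit 1)) (.cons (.br (nat_lit 10) (nat_lit 0) (.cons (.ev (nat_lit 310698676454186645566062848) (nat_lit 1)) (.cons (.rf (nat_lit 804) (nat_lit 13515530340384)) .nil))) (.cons (.rf (nat_lit 804) (nat_lit 13549856524320)) .nil)))) (.cons (.ev (nat_lit 4722366483969173618689) (nat_lit 1)) (.cons (.br (nat_lit 6) (nat_lit 0) (.cons (.ev (nat_lit 4722366483969173618944) (nat_lit 1)) (.cons (.br (nat_lit 9) (nat_lit 0) (.cons (.ev (nat_lit 2427315325037706693574660) (nat_lit 3)) (.cons (.rf (nat_lit 801) (nat_lit 13377961494529)) .nil))) (.cons (.rf (nat_lit 805) (nat_lit 428094667425793)) .nil)))) (.cons (.br (nat_lit 6) (nat_lit 0) (.cons (.br (nat_lit 10) (nat_lit 0) (.cons (.ev (nat_lit 7281908068297404019900930) (nat_lit 3)) (.cons (.rf (nat_lit 801) (nat_lit 13412286662657)) .nil))) (.cons (.ev (nat_lit 1208944338697776193863681) (nat_lit 1)) (.cons (.ev (nat_lit 309485028268371721234481408)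 (nat_lit 1)) (.cons (.br (nat_lit 9) (nat_lit 0) (.cons (.rf (nat_lit 804) (nat_lit 13377961494529)) (.cons (.rf (nat_lit 800) (nat_lit 13549855508512)) (.cons (.br (nat_lit 10) (nat_lit 0) (.cons (.ev (nat_lit 1213648186945222318490371) (nat_lit 2)) (.cons (.br (nat_lit 11) (nat_lit 0) (.cons (.ev (nat_lit 79538856468424380434184470528) (nat_lit 1)) .nil)) .nil))) .nil)))) .nil))))) (.cons (.br (nat_lit 6) (nat_lit 0) (.cons (.rf (nat_lit 805) (nat_lit 429193106327553)) (.cons (.ev (nat_lit 1208944338697776193863681) (nat_lit 1)) (.cons (.br (nat_lit 9) (nat_lit 0) (.cons (.rf (nat_lit 804) (nat_lit 13412287678465)) (.cons (.kr (nat_lit 309485009893402662762774529) (nat_lit 4722366764344638701824) (nat_lit 0) (nat_lit 4)) (.cons (.br (nat_lit 10) (nat_lit 0) (.cons (.ev (nat_lit 1213648186945222318490371) (nat_lit 2)) (.cons (.br (nat_lit 11) (nat_lit 0) (.cons (.ev (nat_lit 79537652264970968299189895425) (nat_lit 1)) .nil)) .nil))) .nil)))) (.cons (.br (nat_lit 9) (nat_lit 0) (.cons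 (.rf (nat_lit 804) (nat_lit 13412287678465)) (.cons (.br (nat_lit 10) (nat_lit 0) (.cons (.ev (nat_lit 309485028268371721234481153) (nat_lit 1)) (.cons (.br (nat_lit 11) (nat_lit 0) (.cons (.ev (nat_lit 79538856468424380434184470528) (nat_lit 1)) .nil)) .nil))) (.cons (.br (nat_lit 10) (nat_lit 0) (.cons (.br (nat_lit 11) (nat_lit 0) (.cons (.ev (nat_lit 79537652264970968299189895425) (nat_lit 1)) .nil)) (.cons (.ev (nat_lit 1213648186945222318490371) (nat_lit 2)) .nil))) .nil)))) .nil))))) .nil)))))),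
 (.br (nat_lit 1) (nat_lit 0) (.cons (.kr (nat_lit 72057598332895234) (nat_lit 18446744073726329344) (nat_lit 0) (nat_lit 2)) (.cons (.rf (nat_lit 919) (nat_lit 407901468851537952)) (.cons (.rf (nat_lit 920) (nat_lit 407901468851537952)) (.cons (.rf (nat_lit 920) (nat_lit 372998571739416608)) (.cons (.rf (nat_lit 791) (nat_lit 12289)) .nil)))))),
 (.br (nat_lit 9) (nat_lit 0) (.cons (.rf (nat_lit 800) (nat_lit 13582101317664)) (.cons (.rf (nat_lit 800) (nat_lit 13547775133728)) (.cons (.br (nat_lit 10) (nat_lit 0) (.cons (.kr (nat_lit 1208925819614629174706176) (nat_lit 309485009821345068724781056) (nat_lit 10) (nat_lit 0)) (.cons (.br (nat_lit 11) (nat_lit 0) (.cons (.ev (nat_lit 79538856468352323939641327873) (nat_lit 1)) .nil)) .nil))) .nil)))),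
 (.br (nat_lit 9) (nat_lit 0) (.cons (.ev (nat_lit 310698676454186645566062848) (nat_lit 1)) (.cons (.br (nat_lit 11) (nat_lit 0) (.cons (.ev (nat_lit 159699110235067687525052190216) (nat_lit 4)) .nil)) .nil))),
 (.br (nat_lit 1) (nat_lit 0) (.cons (.rf (nat_lit 913) (nat_lit 407901468851537952)) (.cons (.rf (nat_lit 919) (nat_lit 407901468851537952)) (.cons (.rf (nat_lit 921) (nat_lit 407901468851537952)) (.cons (.br (nat_lit 6) (nat_lit 0) (.cons (.br (nat_lit 10) (nat_lit 0) (.cons (.br (nat_lit 9) (nat_lit 0) (.cons (.ev (nat_lit 310698676454186645566062848) (nat_lit 1)) (.cons (.rf (nat_lit 858) (nat_lit 13583044908064)) .nil))) (.cons (.ev (nat_lit 1208944338697776193863936) (nat_lit 1)) (.cons (.rf (nat_lit 804) (nat_lit 13582102333472)) .nil)))) (.cons (.br (nat_lit 10) (nat_lit 0) (.cons (.br (nat_lit 11) (nat_lit 0) (.cons (.ev (nat_lit 311917028776479392174113025) (nat_lit 2)) (.cons (.rf (nat_lit 801) (nat_lit 13375814076417)) .nil))) (.cons (.br (nat_lit 5) (nat_lit 0)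 (.cons (.ev (nat_lit 620193112778209831724187905) (nat_lit 2)) (.cons (.rf (nat_lit 800) (nat_lit 13582102333472)) .nil))) (.cons (.kr (nat_lit 1208925819614629174706176) (nat_lit 309485009821345068724781056) (nat_lit 10) (nat_lit 0)) (.cons (.br (nat_lit 11) (nat_lit 0) (.cons (.rf (nat_lit 801) (nat_lit 13375815092225)) (.cons (.rf (nat_lit 800) (nat_lit 13375815092225)) (.cons (.br (nat_lit 5) (nat_lit 0) (.cons (.ev (nat_lit 310698676454186645566062593) (nat_lit 1)) (.cons (.br (nat_lit 9) (nat_lit 0) (.cons (.ev (nat_lit 79228162514336677766381961216) (nat_lit 1)) .nil)) .nil))) .nil)))) .nil))))) (.cons (.ev (nat_lit 1208944338697776193863681) (nat_lit 1)) (.cons (.ev (nat_lit 309485028340428215743938561) (nat_lit 1)) (.cons (.br (nat_lit 5) (nat_lit 0) (.cons (.rf (nat_lit 922) (nat_lit 14242959524133701664)) (.cons (.rf (nat_lit 805) (nat_lit 428025849382913)) (.cons (.rf (nat_lit 805) (nat_lit 428025848367105)) (.cons (.br (nat_lit 10) (nat_lit 0) (.cons (.rf (nat_lit 923)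 (nat_lit 14242959524133701664)) (.cons (.kr (nat_lit 1208925819614629174706176) (nat_lit 309485009821345068724781056) (nat_lit 10) (nat_lit 0)) (.cons (.br (nat_lit 11) (nat_lit 0) (.cons (.rf (nat_lit 923) (nat_lit 14208056627021580320)) (.cons (.rf (nat_lit 818) (nat_lit 13515530245152)) .nil))) .nil)))) .nil))))) .nil)))))) (.cons (.rf (nat_lit 791) (nat_lit 12289)) .nil)))))),
 (.br (nat_lit 1) (nat_lit 0) (.cons (.rf (nat_lit 914) (nat_lit 407901468851537952)) (.cons (.rf (nat_lit 919) (nat_lit 407901468851537952)) (.cons (.rf (nat_lit 921) (nat_lit 407901468851537952)) (.cons (.rf (nat_lit 924) (nat_lit 407901468851537952)) (.cons (.rf (nat_lit 924) (nat_lit 372998571739416608)) (.cons (.rf (nat_lit 791) (nat_lit 12289)) .nil))))))),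
 (.br (nat_lit 5) (nat_lit 0) (.cons (.ev (nat_lit 4740885285641199288321) (nat_lit 1)) (.cons (.br (nat_lit 9) (nat_lit 0) (.cons (.ev (nat_lit 311917047151164785168483075) (nat_lit 2)) (.cons (.rf (nat_lit 801) (nat_lit 13274848729089)) .nil))) (.cons (.rf (nat_lit 805) (nat_lit 424795058804737)) .nil)))),
 (.br (nat_lit 5) (nat_lit 0) (.cons (.ev (nat_lit 4722366483969173618689) (nat_lit 1)) (.cons (.rf (nat_lit 926) (nat_lit 407901468750877728)) (.cons (.ev (nat_lit 309485009893685237251113216) (nat_lit 1)) (.cons (.br (nat_lit 9) (nat_lit 0) (.cons (.rf (nat_lit 804) (nat_lit 13274848729089)) (.cons (.rf (nat_lit 800) (nat_lit 13549852334112)) (.cons (.br (nat_lit 10) (nat_lit 0) (.cons (.ev (nat_lit 311917028632363104552878082) (nat_lit 2)) (.cons (.br (nat_lit 11) (nat_lit 0) (.cons (.ev (nat_lit 161568109551903662857947711502) (nat_lit 4)) .nil)) .nil))) .nil)))) .nil))))),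
 (.br (nat_lit 2) (nat_lit 0) (.cons (.kr (nat_lit 65536) (nat_lit 1099511627776) (nat_lit 2) (nat_lit 0)) (.cons (.ev (nat_lit 4740885284541687726081) (nat_lit 1)) (.cons (.rf (nat_lit 926) (nat_lit 407901468851537952)) (.cons (.rf (nat_lit 927) (nat_lit 407901468851537952)) (.cons (.br (nat_lit 5) (nat_lit 0) (.cons (.ev (nat_lit 4722366483969173618689) (nat_lit 1)) (.cons (.rf (nat_lit 805) (nat_lit 428090372462593)) (.cons (.rf (nat_lit 927) (nat_lit 407901468750877728)) (.cons (.br (nat_lit 9) (nat_lit 0) (.cons (.rf (nat_lit 804) (nat_lit 13377827280897)) (.cons (.br (nat_lit 10) (nat_lit 0) (.cons (.ev (nat_lit 309485028268371721234481153) (nat_lit 1)) (.cons (.br (nat_lit 11) (nat_lit 0) (.cons (.ev (nat_lit 79229376162450435096658837504) (nat_lit 1)) .nil)) .nil))) (.cons (.br (nat_lit 10) (nat_lit 0) (.cons (.rf (nat_lit 922) (nat_lit 14017845379417217025)) (.cons (.rf (nat_lit 818) (nat_lit 13583141505056)) .nil))) .nil)))) .nil))))) .nil)))))),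
 (.br (nat_lit 1) (nat_lit 0) (.cons (.rf (nat_lit 925) (nat_lit 407901468851537952)) (.cons (.rf (nat_lit 925) (nat_lit 407901468750877728)) (.cons (.rf (nat_lit 928) (nat_lit 407901468851537952)) (.cons (.rf (nat_lit 928) (nat_lit 372998571739416608)) (.cons (.rf (nat_lit 791) (nat_lit 12289)) .nil))))))]

theorem c28 : chkAll C T R L28 (nat_lit 900) = true := by decide +kernel

theorem l28 : (nat_lit 900) + L28.length = (nat_lit 930) := by decide +kernel

/-- part of the certificates -/
def L29 : List Prf := [(.br (nat_lit 1) (nat_lit 0) (.cons (.rf (nat_lit 925) (nat_lit 407901468851537952)) (.cons (.rf (nat_lit 925) (nat_lit 407901468750877728)) (.cons (.rf (nat_lit 929) (nat_lit 407901468851537952)) (.cons (.kr (nat_lit 18518801667747479554) (nat_lit 4311745024) (nat_lit 0) (nat_lit 2)) (.cons (.rf (nat_lit 791) (nat_lit 12289)) .nil)))))),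
 (.br (nat_lit 1) (nat_lit 0) (.cons (.rf (nat_lit 925) (nat_lit 407901468851537952)) (.cons (.rf (nat_lit 925) (nat_lit 407901468750877728)) (.cons (.rf (nat_lit 929) (nat_lit 407901468851537952)) (.cons (.rf (nat_lit 930) (nat_lit 407901468851537952)) (.cons (.rf (nat_lit 930) (nat_lit 372998571739416608)) (.cons (.rf (nat_lit 791) (nat_lit 12289)) .nil))))))),
 (.br (nat_lit 1) (nat_lit 0) (.cons (.rf (nat_lit 925) (nat_lit 407901468851537952)) (.cons (.rf (nat_lit 925) (nat_lit 407901468750877728)) (.cons (.rf (nat_lit 931) (nat_lit 407901468851537952)) (.cons (.kr (nat_lit 72057594037927937) (nat_lit 16777472) (nat_lit 0) (nat_lit 2)) (.cons (.rf (nat_lit 791) (nat_lit 12289)) .nil)))))),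
 (.br (nat_lit 1) (nat_lit 0) (.cons (.rf (nat_lit 925) (nat_lit 407901468851537952)) (.cons (.rf (nat_lit 925) (nat_lit 407901468750877728)) (.cons (.rf (nat_lit 931) (nat_lit 407901468851537952)) (.cons (.rf (nat_lit 932) (nat_lit 407901468851537952)) (.cons (.rf (nat_lit 932) (nat_lit 372998571739416608)) (.cons (.rf (nat_lit 791) (nat_lit 12289)) .nil))))))),
 (.br (nat_lit 1) (nat_lit 0) (.cons (.rf (nat_lit 925) (nat_lit 407901468851537952)) (.cons (.rf (nat_lit 925) (nat_lit 407901468750877728)) (.cons (.rf (nat_lit 931) (nat_lit 407901468851537952)) (.cons (.rf (nat_lit 933) (nat_lit 407901468851537952)) (.cons (.br (nat_lit 1) (nat_lit 0) (.cons (.rf (nat_lit 925) (nat_lit 407901468851537952)) (.cons (.rf (nat_lit 925) (nat_lit 407901468750877728)) (.cons (.kr (nat_lit 18518801667747479554) (nat_lit 4311745024) (nat_lit 0) (nat_lit 2)) (.cons (.kr (nat_lit 72057594037927937) (nat_lit 16777472) (nat_lit 0) (nat_lit 2)) (.cons (.rf (nat_lit 791) (nat_lit 12289)) .nil)))))) (.cons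 (.rf (nat_lit 791) (nat_lit 12289)) .nil))))))),
 (.br (nat_lit 1) (nat_lit 0) (.cons (.rf (nat_lit 925) (nat_lit 407901468851537952)) (.cons (.rf (nat_lit 925) (nat_lit 407901468750877728)) (.cons (.rf (nat_lit 931) (nat_lit 407901468851537952)) (.cons (.rf (nat_lit 933) (nat_lit 407901468851537952)) (.cons (.rf (nat_lit 934) (nat_lit 407901468851537952)) (.cons (.rf (nat_lit 934) (nat_lit 372998571739416608)) (.cons (.rf (nat_lit 791) (nat_lit 12289)) .nil)))))))),
 (.br (nat_lit 9) (nat_lit 0) (.cons (.ev (nat_lit 4722583501180495790082) (nat_lit 2)) (.cons (.rf (nat_lit 795) (nat_lit 13578851747872)) .nil))),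
 (.br (nat_lit 6) (nat_lit 0) (.cons (.rf (nat_lit 936) (nat_lit 407901468851537952)) (.cons (.rf (nat_lit 936) (nat_lit 372998571739416577)) (.cons (.br (nat_lit 9) (nat_lit 0) (.cons (.rf (nat_lit 795) (nat_lit 13581972310048)) (.cons (.rf (nat_lit 795) (nat_lit 13547613620225)) (.cons (.ev (nat_lit 4722583501180495790337) (nat_lit 2)) .nil)))) .nil)))),
 (.br (nat_lit 6) (nat_lit 0) (.cons (.rf (nat_lit 937) (nat_lit 407901468851537952)) (.cons (.ev (nat_lit 18808164553811428870) (nat_lit 3)) (.cons (.rf (nat_lit 794) (nat_lit 434622917937184)) .nil)))),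
 (.br (nat_lit 1) (nat_lit 0) (.cons (.rf (nat_lit 913) (nat_lit 407901468851537921)) (.cons (.rf (nat_lit 913) (nat_lit 407794853803591681)) (.cons (.kr (nat_lit 1) (nat_lit 256) (nat_lit 0) (nat_lit 2)) (.cons (.br (nat_lit 6) (nat_lit 0) (.cons (.rf (nat_lit 937) (nat_lit 407901468851537952)) (.cons (.rf (nat_lit 938) (nat_lit 407901468851537952)) (.cons (.rf (nat_lit 938) (nat_lit 372998571739416577)) (.cons (.br (nat_lit 6) (nat_lit 0) (.cons (.rf (nat_lit 937) (nat_lit 407901468851537952)) (.cons (.rf (nat_lit 794) (nat_lit 434622917937184)) (.cons (.rf (nat_lit 794) (nat_lit 433523407357953)) .nil)))) .nil))))) (.cons (.rf (nat_lit 791) (nat_lit 12289)) .nil)))))),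
 (.br (nat_lit 9) (nat_lit 0) (.cons (.rf (nat_lit 843) (nat_lit 321390807072)) (.cons (.br (nat_lit 10) (nat_lit 0) (.cons (.ev (nat_lit 1213666704899166584176641) (nat_lit 1)) (.cons (.rf (nat_lit 801) (nat_lit 13412416686112)) .nil))) (.cons (.rf (nat_lit 805) (nat_lit 429197401163808)) .nil)))),
 (.br (nat_lit 9) (nat_lit 0) (.cons (.rf (nat_lit 843) (nat_lit 218314737696)) (.cons (.rf (nat_lit 859) (nat_lit 226489614679156768)) (.cons (.rf (nat_lit 805) (nat_lit 429197429639200)) .nil)))),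
 (.br (nat_lit 5) (nat_lit 0) (.cons (.rf (nat_lit 940) (nat_lit 407794853803591712)) (.cons (.br (nat_lit 9) (nat_lit 0) (.cons (.ev (nat_lit 4722367327298920776192) (nat_lit 2)) (.cons (.rf (nat_lit 804) (nat_lit 13412421765152)) .nil))) (.cons (.ev (nat_lit 282578783305984) (nat_lit 1)) (.cons (.rf (nat_lit 873) (nat_lit 14241864443740919809)) .nil))))),
 (.br (nat_lit 5) (nat_lit 0) (.cons (.br (nat_lit 7) (nat_lit 0) (.cons (.br (nat_lit 8) (nat_lit 0) .nil) .nil)) .nil)),
 (.br (nat_lit 5) (nat_lit 0) (.cons (.br (nat_lit 5) (nat_lit 0) (.cons (.rf (nat_lit 943) (nat_lit 281492424736)) .nil)) (.cons (.rf (nat_lit 943) (nat_lit 247132686368)) .nil))),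
 (.br (nat_lit 9) (nat_lit 0) (.cons (.br (nat_lit 11) (nat_lit 0) (.cons (.ev (nat_lit 79537647524085965236773912833) (nat_lit 1)) .nil)) .nil)),
 (.br (nat_lit 6) (nat_lit 0) (.cons (.rf (nat_lit 800) (nat_lit 13547575019521)) (.cons (.rf (nat_lit 801) (nat_lit 13547575019521)) (.cons (.rf (nat_lit 872) (nat_lit 442842883132855328)) .nil)))),
 (.br (nat_lit 1) (nat_lit 0) (.cons (.rf (nat_lit 913) (nat_lit 407901468851537921)) (.cons (.br (nat_lit 6) (nat_lit 0) (.cons (.rf (nat_lit 940) (nat_lit 407901468851537952)) (.cons (.ev (nat_lit 28353150607421325181952) (nat_lit 3)) (.cons (.rf (nat_lit 941) (nat_lit 407901468851537952)) (.cons (.rf (nat_lit 942) (nat_lit 407901468851537952)) (.cons (.br (nat_lit 9) (nat_lit 0) (.cons (.rf (nat_lit 805) (nat_lit 432492714821664)) (.cons (.rf (nat_lit 805) (nat_lit 432492709742624)) (.cons (.rf (nat_lit 942) (nat_lit 407794853803591712)) (.cons (.ev (nat_lit 4722367327298920776192) (nat_lit 2)) .nil))))) .nil)))))) (.cons (.br (nat_lit 5)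 (nat_lit 0) (.cons (.rf (nat_lit 944) (nat_lit 11045865504)) (.cons (.rf (nat_lit 875) (nat_lit 398888772206597152)) (.cons (.rf (nat_lit 876) (nat_lit 12465274131452960)) (.cons (.br (nat_lit 6) (nat_lit 0) (.cons (.rf (nat_lit 816) (nat_lit 429197493507104)) (.cons (.rf (nat_lit 816) (nat_lit 429130921415712)) (.cons (.br (nat_lit 9) (nat_lit 0) (.cons (.rf (nat_lit 945) (nat_lit 14242959524133701664)) (.cons (.br (nat_lit 9) (nat_lit 0) (.cons (.rf (nat_lit 945) (nat_lit 14242959524133701664)) .nil)) .nil))) .nil)))) .nil))))) (.cons (.br (nat_lit 11) (nat_lit 0) (.cons (.rf (nat_lit 941) (nat_lit 337000560010037249)) (.cons (.rf (nat_lit 871) (nat_lit 10349982462880769)) (.cons (.br (nat_lit 5) (nat_lit 0) (.cons (.br (nat_lit 10) (nat_lit 0) (.cons (.ev (nat_lit 1213648258156196681285633) (nat_lit 1)) (.cons (.rf (nat_lit 801) (nat_lit 13410336311328)) .nil))) (.cons (.ev (nat_lit 4722438540463683207169) (nat_lit 1)) (.cons (.br (nat_lit 6) (nat_lit 0) (.cons (.ev (nat_lit 1245193613155343385265177600)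 (nat_lit 3)) (.cons (.rf (nat_lit 804) (nat_lit 13581972310048)) .nil))) (.cons (.br (nat_lit 10) (nat_lit 0) (.cons (.rf (nat_lit 801) (nat_lit 13410341390368)) (.cons (.rf (nat_lit 800) (nat_lit 13410341390368)) (.cons (.br (nat_lit 6) (nat_lit 0) (.cons (.zr (nat_lit 1232556100180426027434497) (nat_lit 1547425049322899233839448064) (nat_lit 15) (nat_lit 6)) (.cons (.ev (nat_lit 1208925819896104168194049) (nat_lit 1)) .nil))) .nil)))) .nil))))) (.cons (.br (nat_lit 5) (nat_lit 0) (.cons (.rf (nat_lit 843) (nat_lit 387962800160)) (.cons (.br (nat_lit 6) (nat_lit 0) (.cons (.ev (nat_lit 620178945462871028014383361) (nat_lit 2)) (.cons (.rf (nat_lit 801) (nat_lit 13547580098561)) .nil))) (.cons (.rf (nat_lit 805) (nat_lit 433522328569857)) .nil)))) (.cons (.br (nat_lit 5) (nat_lit 0) (.cons (.rf (nat_lit 805) (nat_lit 429130728507424)) (.cons (.rf (nat_lit 946) (nat_lit 14242959524133701664)) (.cons (.rf (nat_lit 804) (nat_lit 13410341390368)) (.cons (.br (nat_lit 6) (nat_lit 0) (.cons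 (.rf (nat_lit 45) (nat_lit 11935954294556143648)) (.cons (.rf (nat_lit 805) (nat_lit 429130723428384)) (.cons (.br (nat_lit 10) (nat_lit 0) (.cons (.br (nat_lit 9) (nat_lit 0) (.cons (.ev (nat_lit 1112301252353849218337168163336) (nat_lit 4)) .nil)) (.cons (.ev (nat_lit 1208925819896104168194049) (nat_lit 1)) .nil))) .nil)))) .nil))))) .nil)))))) (.cons (.rf (nat_lit 791) (nat_lit 12289)) .nil)))))),
 (.br (nat_lit 6) (nat_lit 0) (.cons (.br (nat_lit 9) (nat_lit 0) (.cons (.ev (nat_lit 620178945534927522523971841) (nat_lit 2)) (.cons (.rf (nat_lit 795) (nat_lit 13578846668832)) .nil))) (.cons (.ev (nat_lit 72339073326448641) (nat_lit 1)) (.cons (.rf (nat_lit 794) (nat_lit 434622912858144)) .nil)))),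
 (.br (nat_lit 1) (nat_lit 0) (.cons (.kr (nat_lit 1) (nat_lit 256) (nat_lit 0) (nat_lit 2)) (.cons (.rf (nat_lit 947) (nat_lit 407901468851537952)) (.cons (.rf (nat_lit 947) (nat_lit 407794853803591712)) (.cons (.br (nat_lit 5) (nat_lit 0) (.cons (.rf (nat_lit 948) (nat_lit 407901468851537952)) (.cons (.rf (nat_lit 948) (nat_lit 407794853803591712)) (.cons (.zr (nat_lit 309485009821346168236408835) (nat_lit 1208925819614629174772224) (nat_lit 5) (nat_lit 5)) (.cons (.rf (nat_lit 880) (nat_lit 14242959420956972064)) .nil))))) (.cons (.rf (nat_lit 791) (nat_lit 12289)) .nil)))))),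
 (.br (nat_lit 1) (nat_lit 0) (.cons (.rf (nat_lit 939) (nat_lit 407901468851537952)) (.cons (.rf (nat_lit 947) (nat_lit 407901468851537952)) (.cons (.rf (nat_lit 947) (nat_lit 407794853803591712)) (.cons (.rf (nat_lit 949) (nat_lit 407901468851537952)) (.cons (.br (nat_lit 1) (nat_lit 0) (.cons (.rf (nat_lit 939) (nat_lit 407901468851537952)) (.cons (.rf (nat_lit 947) (nat_lit 407901468851537952)) (.cons (.rf (nat_lit 947) (nat_lit 407794853803591712)) (.cons (.rf (nat_lit 949) (nat_lit 407901468851537952)) (.cons (.rf (nat_lit 791) (nat_lit 12289)) .nil)))))) (.cons (.rf (nat_lit 791) (nat_lit 12289)) .nil))))))),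
 (.br (nat_lit 5) (nat_lit 0) (.cons (.ev (nat_lit 4845166964266956419630080) (nat_lit 3)) (.cons (.ev (nat_lit 72340172838010881) (nat_lit 1)) (.cons (.rf (nat_lit 805) (nat_lit 424795058677761)) .nil)))),
 (.br (nat_lit 5) (nat_lit 0) (.cons (.ev (nat_lit 72339073326448641) (nat_lit 1)) (.cons (.ev (nat_lit 4722438540463683207169) (nat_lit 1)) (.cons (.br (nat_lit 6) (nat_lit 0) (.cons (.ev (nat_lit 18664044967722354182) (nat_lit 3)) (.cons (.br (nat_lit 9) (nat_lit 0) (.cons (.ev (nat_lit 2422574006558764849823746) (nat_lit 2)) .nil)) .nil))) (.cons (.br (nat_lit 6) (nat_lit 0) (.cons (.ev (nat_lit 4845166964260359349732352) (nat_lit 3)) (.cons (.rf (nat_lit 800) (nat_lit 13515391936544)) (.cons (.br (nat_lit 9) (nat_lit 0) (.cons (.rf (nat_lit 800) (nat_lit 13412413384736)) (.cons (.ev (nat_lit 2422629418846368091341312) (nat_lit 2)) .nil))) .nil)))) .nil))))),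
 (.br (nat_lit 9) (nat_lit 0) (.cons (.ev (nat_lit 2422574006558764849823746) (nat_lit 2)) (.cons (.br (nat_lit 11) (nat_lit 0) (.cons (.zr (nat_lit 37778934114756975394822) (nat_lit 1237940057948299342647525888) (nat_lit 20) (nat_lit 1)) .nil)) .nil))),
 (.br (nat_lit 5) (nat_lit 0) (.cons (.ev (nat_lit 2417851711852001380926211) (nat_lit 2)) (.cons (.ev (nat_lit 9444805025532368388867) (nat_lit 2)) (.cons (.br (nat_lit 6) (nat_lit 0) (.cons (.ev (nat_lit 620193112778209831724187905) (nat_lit 2)) (.cons (.rf (nat_lit 883) (nat_lit 13405980526624)) .nil))) (.cons (.br (nat_lit 6) (nat_lit 0) (.cons (.rf (nat_lit 905) (nat_lit 13547776149536)) (.cons (.rf (nat_lit 905) (nat_lit 13549856524320)) (.cons (.br (nat_lit 9) (nat_lit 0) (.cons (.ev (nat_lit 620193112778210931235749890) (nat_lit 2)) (.cons (.br (nat_lit 11) (nat_lit 0) (.cons (.ev (nat_lit 162801213888054699804190311936) (nat_lit 4)) .nil)) .nil))) .nil)))) .nil))))),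
 (.br (nat_lit 5) (nat_lit 0) (.cons (.ev (nat_lit 281479271743744) (nat_lit 1)) (.cons (.ev (nat_lit 4722366482869662056704) (nat_lit 1)) (.cons (.rf (nat_lit 954) (nat_lit 407901468750877728)) (.cons (.br (nat_lit 6) (nat_lit 0) (.cons (.rf (nat_lit 883) (nat_lit 13378087327745)) (.cons (.ev (nat_lit 2417851711849802357539587) (nat_lit 2)) (.cons (.br (nat_lit 9) (nat_lit 0) (.cons (.ev (nat_lit 2417851711852001380925697) (nat_lit 2)) (.cons (.rf (nat_lit 888) (nat_lit 442837348290663456)) .nil))) .nil)))) .nil))))),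
 (.br (nat_lit 1) (nat_lit 0) (.cons (.rf (nat_lit 950) (nat_lit 407901468851537952)) (.cons (.rf (nat_lit 950) (nat_lit 407901468750877728)) (.cons (.br (nat_lit 2) (nat_lit 0) (.cons (.kr (nat_lit 65536) (nat_lit 1099511627776) (nat_lit 2) (nat_lit 0)) (.cons (.rf (nat_lit 951) (nat_lit 407901468851537952)) (.cons (.rf (nat_lit 951) (nat_lit 407794853803591712)) (.cons (.rf (nat_lit 952) (nat_lit 407901468851537952)) (.cons (.br (nat_lit 5) (nat_lit 0) (.cons (.rf (nat_lit 805) (nat_lit 428090372335617)) (.cons (.rf (nat_lit 805) (nat_lit 428090369288193)) (.cons (.rf (nat_lit 952) (nat_lit 407901468750877728)) (.cons (.br (nat_lit 6) (nat_lit 0) (.cons (.ev (nat_lit 4845166964260359349732352) (nat_lit 3)) (.cons (.rf (nat_lit 953) (nat_lit 14242959524133701664)) (.cons (.br (nat_lit 9) (nat_lit 0) (.cons (.rf (nat_lit 953) (nat_lit 14242852909085755424)) (.cons (.ev (nat_lit 2422574006558764849823746) (nat_lit 2)) .nil))) .nil)))) .nil))))) .nil)))))) (.cons (.br (nat_lit 2) (nat_lit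 0) (.cons (.kr (nat_lit 65536) (nat_lit 1099511627776) (nat_lit 2) (nat_lit 0)) (.cons (.ev (nat_lit 18447307027958072067) (nat_lit 2)) (.cons (.ev (nat_lit 9444805023333345264387) (nat_lit 2)) (.cons (.rf (nat_lit 954) (nat_lit 407901468851537952)) (.cons (.rf (nat_lit 955) (nat_lit 407901468851537952)) (.cons (.br (nat_lit 5) (nat_lit 0) (.cons (.ev (nat_lit 18447309226981196547) (nat_lit 2)) (.cons (.ev (nat_lit 9444805025532368388867) (nat_lit 2)) (.cons (.rf (nat_lit 954) (nat_lit 407901468750877728)) (.cons (.rf (nat_lit 955) (nat_lit 407901468750877728)) (.cons (.br (nat_lit 10) (nat_lit 0) (.cons (.ev (nat_lit 2417851711849802357539587) (nat_lit 2)) (.cons (.ev (nat_lit 2427314818939075644359427) (nat_lit 2)) (.cons (.br (nat_lit 6) (nat_lit 0) (.cons (.ev (nat_lit 2417851711852001380925697) (nat_lit 2)) (.cons (.br (nat_lit 9) (nat_lit 0) (.cons (.ev (nat_lit 79537652264970968299189895425) (nat_lit 1)) .nil)) .nil))) (.cons (.br (nat_lit 6) (nat_lit 0) (.cons (.br (nat_lit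 11) (nat_lit 0) (.cons (.ev (nat_lit 159075304492976388666506085121) (nat_lit 2)) .nil)) (.cons (.rf (nat_lit 884) (nat_lit 438294173762983937)) (.cons (.ev (nat_lit 1208925891953698189345024) (nat_lit 1)) .nil)))) .nil))))) .nil)))))) .nil))))))) (.cons (.rf (nat_lit 791) (nat_lit 12289)) .nil)))))),
 (.br (nat_lit 1) (nat_lit 0) (.cons (.rf (nat_lit 950) (nat_lit 407901468851537952)) (.cons (.rf (nat_lit 950) (nat_lit 407901468750877728)) (.cons (.rf (nat_lit 956) (nat_lit 407901468851537952)) (.cons (.br (nat_lit 1) (nat_lit 0) (.cons (.rf (nat_lit 950) (nat_lit 407901468851537952)) (.cons (.rf (nat_lit 950) (nat_lit 407901468750877728)) (.cons (.rf (nat_lit 956) (nat_lit 407901468851537952)) (.cons (.rf (nat_lit 935) (nat_lit 182715887050303489)) (.cons (.rf (nat_lit 791) (nat_lit 12289)) .nil)))))) (.cons (.br (nat_lit 1) (nat_lit 0) (.cons (.rf (nat_lit 950) (nat_lit 407901468851537952)) (.cons (.rf (nat_lit 950) (nat_lit 407901468750877728)) (.cons (.rf (nat_lit 956) (nat_lit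 407901468851537952)) (.cons (.rf (nat_lit 935) (nat_lit 182715887050303489)) (.cons (.rf (nat_lit 791) (nat_lit 12289)) .nil)))))) (.cons (.rf (nat_lit 791) (nat_lit 12289)) .nil))))))),
 (.br (nat_lit 1) (nat_lit 0) (.cons (.rf (nat_lit 950) (nat_lit 407901468851537952)) (.cons (.rf (nat_lit 950) (nat_lit 407901468750877728)) (.cons (.rf (nat_lit 957) (nat_lit 407901468851537952)) (.cons (.rf (nat_lit 957) (nat_lit 407794853803591712)) (.cons (.br (nat_lit 1) (nat_lit 0) (.cons (.rf (nat_lit 950) (nat_lit 407901468851537952)) (.cons (.rf (nat_lit 950) (nat_lit 407901468750877728)) (.cons (.rf (nat_lit 935) (nat_lit 182715887050303489)) (.cons (.rf (nat_lit 935) (nat_lit 182611402308167681)) (.cons (.rf (nat_lit 791) (nat_lit 12289)) .nil)))))) (.cons (.rf (nat_lit 791) (nat_lit 12289)) .nil))))))),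
 (.br (nat_lit 1) (nat_lit 0) (.cons (.rf (nat_lit 950) (nat_lit 407901468851537952)) (.cons (.rf (nat_lit 950) (nat_lit 407901468750877728)) (.cons (.rf (nat_lit 957) (nat_lit 407901468851537952)) (.cons (.rf (nat_lit 957) (nat_lit 407794853803591712)) (.cons (.rf (nat_lit 958) (nat_lit 407901468851537952)) (.cons (.br (nat_lit 1) (nat_lit 0) (.cons (.rf (nat_lit 950) (nat_lit 407901468851537952)) (.cons (.rf (nat_lit 950) (nat_lit 407901468750877728)) (.cons (.rf (nat_lit 957) (nat_lit 407901468851537952)) (.cons (.rf (nat_lit 957) (nat_lit 407794853803591712)) (.cons (.rf (nat_lit 958) (nat_lit 407901468851537952)) (.cons (.rf (nat_lit 791) (nat_lit 12289)) .nil))))))) (.cons (.rf (nat_lit 791) (nat_lit 12289)) .nil)))))))),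
 (.br (nat_lit 0) (nat_lit 0) (.cons (.rf (nat_lit 935) (nat_lit 407901468851537952)) (.cons (.rf (nat_lit 935) (nat_lit 407794853803591712)) (.cons (.rf (nat_lit 959) (nat_lit 407901468851537952)) (.cons (.rf (nat_lit 959) (nat_lit 372998571739416608)) (.cons (.rf (nat_lit 791) (nat_lit 12320)) .nil)))))),
 (.br (nat_lit 5) (nat_lit 0) (.cons (.br (nat_lit 11) (nat_lit 0) (.cons (.zr (nat_lit 1213648474611566151467014) (nat_lit 1237940076178868422352110336) (nat_lit 15) (nat_lit 9)) .nil)) .nil))]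

theorem c29 : chkAll C T R L29 (nat_lit 930) = true := by decide +kernel

theorem l29 : (nat_lit 930) + L29.length = (nat_lit 962) := by decide +kernel

end Pool.Agent.H93.Neg.Q13_4_0_3_6_0
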