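import Pool.Agent.H93.Neg.TabQ13_4_0_3_6_0

/-!
Certificates.
-/

set_option autoImplicit false
set_option maxRecDepth 100000
set_option linter.all false

namespace Pool.Agent.H93.Neg.Q13_4_0_3_6_0

/-- part of the certificates -/
def L30 : List Prf := [(.br (nat_lit 9) (nat_lit 0) (.cons (.br (nat_lit 5) (nat_lit 0) (.cons (.ev (nat_lit 282578783305984) (nat_lit 1)) (.cons (.br (nat_lit 10) (nat_lit 0) (.cons (.ev (nat_lit 313125954379919053063061506) (nat_lit 2)) (.cons (.rf (nat_lit 814) (nat_lit 13515362478081)) .nil))) (.cons (.rf (nat_lit 794) (nat_lit 433591151691808)) .nil)))) (.cons (.rf (nat_lit 944) (nat_lit 6621005856)) (.cons (.br (nat_lit 10) (nat_lit 0) (.cons (.br (nat_lit 5) (nat_lit 0) (.cons (.ev (nat_lit 313125954379919053063061761) (nat_lit 2)) (.cons (.rf (nat_lit 794) (nat_lit 432491641112577)) .nil))) (.cons (.rf (nat_lit 809) (nat_lit 183951762464)) (.cons (.rf (nat_lit 816) (nat_lit 432291883100161)) .nil)))) (.cons (.br (nat_lit 10)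 (nat_lit 0) (.cons (.rf (nat_lit 816) (nat_lit 433591110837280)) (.cons (.rf (nat_lit 816) (nat_lit 433391394726944)) (.cons (.br (nat_lit 5) (nat_lit 0) (.cons (.rf (nat_lit 961) (nat_lit 14242959524133701664)) (.cons (.br (nat_lit 5) (nat_lit 0) (.cons (.rf (nat_lit 961) (nat_lit 14242959524133701664)) .nil)) .nil))) .nil)))) .nil))))),
 (.br (nat_lit 1) (nat_lit 0) (.cons (.rf (nat_lit 960) (nat_lit 407901468851537921)) (.cons (.ev (nat_lit 4722367327298920775682) (nat_lit 2)) (.cons (.rf (nat_lit 962) (nat_lit 407901468851537952)) (.cons (.rf (nat_lit 962) (nat_lit 372998571739416608)) (.cons (.rf (nat_lit 791) (nat_lit 12289)) .nil)))))),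
 (.br (nat_lit 1) (nat_lit 0) (.cons (.rf (nat_lit 960) (nat_lit 407901468851537921)) (.cons (.rf (nat_lit 963) (nat_lit 407901468851537952)) (.cons (.rf (nat_lit 963) (nat_lit 407794853803591712)) (.cons (.rf (nat_lit 960) (nat_lit 182611402308167681)) (.cons (.rf (nat_lit 791) (nat_lit 12289)) .nil)))))),
 (.br (nat_lit 1) (nat_lit 0) (.cons (.rf (nat_lit 960) (nat_lit 407901468851537921)) (.cons (.rf (nat_lit 963) (nat_lit 407901468851537952)) (.cons (.rf (nat_lit 963) (nat_lit 407794853803591712)) (.cons (.rf (nat_lit 964) (nat_lit 407901468851537952)) (.cons (.rf (nat_lit 964) (nat_lit 372998571739416608)) (.cons (.rf (nat_lit 791) (nat_lit 12289)) .nil))))))),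
 (.br (nat_lit 9) (nat_lit 0) (.cons (.ev (nat_lit 4722366765444133552129) (nat_lit 1)) (.cons (.ev (nat_lit 4722366765444133552384) (nat_lit 1)) (.cons (.br (nat_lit 10) (nat_lit 0) (.cons (.ev (nat_lit 1208925819897203663044609) (nat_lit 1)) (.cons (.ev (nat_lit 1208925819897203663044864) (nat_lit 1)) (.cons (.kr (nat_lit 4722366482869645213696) (nat_lit 1208925819614629174706176) (nat_lit 9) (nat_lit 0)) .nil)))) .nil)))),
 (.br (nat_lit 2) (nat_lit 0) (.cons (.br (nat_lit 9) (nat_lit 0) (.cons (.rf (nat_lit 843) (nat_lit 355715848224)) (.cons (.br (nat_lit 10) (nat_lit 0) (.cons (.ev (nat_lit 618998372793299749174511110) (nat_lit 3)) (.cons (.rf (nat_lit 801) (nat_lit 13274977736705)) .nil))) (.cons (.rf (nat_lit 805) (nat_lit 424799354656769)) .nil)))) (.cons (.rf (nat_lit 871) (nat_lit 12712699643529248)) (.cons (.rf (nat_lit 941) (nat_lit 407901464556574721)) (.cons (.br (nat_lit 10) (nat_lit 0) (.cons (.br (nat_lit 9) (nat_lit 0) (.cons (.ev (nat_lit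 313116509647516255169675521) (nat_lit 2)) (.cons (.rf (nat_lit 804) (nat_lit 13274982815745)) .nil))) (.cons (.br (nat_lit 5) (nat_lit 0) (.cons (.ev (nat_lit 310693935641242276682793216) (nat_lit 1)) (.cons (.rf (nat_lit 801) (nat_lit 13515266103297)) .nil))) (.cons (.ev (nat_lit 309485028268370621722787841) (nat_lit 1)) (.cons (.rf (nat_lit 946) (nat_lit 14205870796735354912)) .nil))))) (.cons (.br (nat_lit 5) (nat_lit 0) (.cons (.rf (nat_lit 805) (nat_lit 432488419858433)) (.cons (.rf (nat_lit 804) (nat_lit 13515266103297)) (.cons (.br (nat_lit 9) (nat_lit 0) (.cons (.rf (nat_lit 801) (nat_lit 13549725358112)) (.cons (.ev (nat_lit 4722366483969173618689) (nat_lit 1)) (.cons (.br (nat_lit 10) (nat_lit 0) (.cons (.rf (nat_lit 802) (nat_lit 13549725358112)) (.cons (.br (nat_lit 11) (nat_lit 0) (.cons (.ev (nat_lit 1861755225892332979345425408) (nat_lit 3)) .nil)) .nil))) .nil)))) (.cons (.br (nat_lit 9) (nat_lit 0) (.cons (.rf (nat_lit 805) (nat_lit 433591144454176))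 (.cons (.br (nat_lit 10) (nat_lit 0) (.cons (.rf (nat_lit 800) (nat_lit 13378094438432)) (.cons (.br (nat_lit 11) (nat_lit 0) (.cons (.ev (nat_lit 79537647542604766908799582465) (nat_lit 1)) .nil)) .nil))) (.cons (.ev (nat_lit 4722366483969173618689) (nat_lit 1)) .nil)))) .nil))))) .nil)))))),
 (.br (nat_lit 1) (nat_lit 0) (.cons (.rf (nat_lit 960) (nat_lit 407901468851537921)) (.cons (.br (nat_lit 2) (nat_lit 0) (.cons (.ev (nat_lit 4722367896854601269762) (nat_lit 3)) (.cons (.rf (nat_lit 876) (nat_lit 11587899248314400)) (.cons (.rf (nat_lit 876) (nat_lit 12712699643529248)) (.cons (.br (nat_lit 5) (nat_lit 0) (.cons (.rf (nat_lit 816) (nat_lit 428099026257952)) (.cons (.rf (nat_lit 816) (nat_lit 428065740261408)) (.cons (.br (nat_lit 10) (nat_lit 0) (.cons (.rf (nat_lit 966) (nat_lit 12746920901576736)) (.cons (.br (nat_lit 10) (nat_lit 0) (.cons (.rf (nat_lit 966) (nat_lit 12746920901576736)) .nil)) .nil))) .nil)))) .nil))))) (.cons (.rf (nat_lit 967)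 (nat_lit 407901468851537952)) (.cons (.rf (nat_lit 967) (nat_lit 372998571739416608)) (.cons (.rf (nat_lit 791) (nat_lit 12289)) .nil)))))),
 (.br (nat_lit 1) (nat_lit 0) (.cons (.rf (nat_lit 960) (nat_lit 407901468851537921)) (.cons (.rf (nat_lit 968) (nat_lit 407901468851537952)) (.cons (.rf (nat_lit 968) (nat_lit 407794853803591712)) (.cons (.rf (nat_lit 960) (nat_lit 182611402308167681)) (.cons (.rf (nat_lit 791) (nat_lit 12289)) .nil)))))),
 (.br (nat_lit 1) (nat_lit 0) (.cons (.rf (nat_lit 960) (nat_lit 407901468851537921)) (.cons (.rf (nat_lit 968) (nat_lit 407901468851537952)) (.cons (.rf (nat_lit 968) (nat_lit 407794853803591712)) (.cons (.rf (nat_lit 969) (nat_lit 407901468851537952)) (.cons (.rf (nat_lit 969) (nat_lit 372998571739416608)) (.cons (.rf (nat_lit 791) (nat_lit 12289)) .nil))))))),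
 (.br (nat_lit 5) (nat_lit 0) (.cons (.br (nat_lit 11) (nat_lit 0) (.cons (.ev (nat_lit 158456329769558921536509837826) (nat_lit 2)) .nil)) .nil)),
 (.br (nat_lit 2) (nat_lit 0) (.cons (.br (nat_lit 5) (nat_lit 0) (.cons (.ev (nat_lit 282578783305984) (nat_lit 1)) (.cons (.br (nat_lit 10) (nat_lit 0) (.cons (.ev (nat_lit 621392593649246694719750146) (nat_lit 2)) (.cons (.rf (nat_lit 814) (nat_lit 13274847586305)) .nil))) (.cons (.rf (nat_lit 794) (nat_lit 433591144454176)) .nil)))) (.cons (.zr (nat_lit 1208925819614629174771715) (nat_lit 4722366764344621924864) (nat_lit 5) (nat_lit 2)) (.cons (.br (nat_lit 10) (nat_lit 0) (.cons (.br (nat_lit 5) (nat_lit 0) (.cons (.ev (nat_lit 621392593649246694719750656) (nat_lit 2)) (.cons (.rf (nat_lit 794) (nat_lit 424795059820545)) .nil))) (.cons (.ev (nat_lit 309485009893684137739419649) (nat_lit 1)) (.cons (.rf (nat_lit 816) (nat_lit 424595406563329)) .nil)))) (.cons (.br (nat_lit 10) (nat_lit 0) (.cons (.rf (nat_lit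 816) (nat_lit 433591215687712)) (.cons (.rf (nat_lit 816) (nat_lit 433391499577376)) (.cons (.br (nat_lit 5) (nat_lit 0) (.cons (.rf (nat_lit 971) (nat_lit 14242959524133701664)) (.cons (.br (nat_lit 5) (nat_lit 0) (.cons (.rf (nat_lit 971) (nat_lit 14242959524133701664)) .nil)) .nil))) .nil)))) .nil))))),
 (.br (nat_lit 1) (nat_lit 0) (.cons (.ev (nat_lit 4722367327298920775682) (nat_lit 2)) (.cons (.rf (nat_lit 970) (nat_lit 407901468851537952)) (.cons (.rf (nat_lit 972) (nat_lit 407901468851537952)) (.cons (.rf (nat_lit 972) (nat_lit 372998571739416608)) (.cons (.rf (nat_lit 791) (nat_lit 12289)) .nil)))))),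
 (.br (nat_lit 1) (nat_lit 0) (.cons (.rf (nat_lit 965) (nat_lit 407901468851537952)) (.cons (.rf (nat_lit 970) (nat_lit 407901468851537952)) (.cons (.rf (nat_lit 973) (nat_lit 407901468851537952)) (.cons (.rf (nat_lit 960) (nat_lit 182611402308167681)) (.cons (.rf (nat_lit 791) (nat_lit 12289)) .nil)))))),
 (.br (nat_lit 1) (nat_lit 0) (.cons (.rf (nat_lit 965) (nat_lit 407901468851537952)) (.cons (.rf (nat_lit 970) (nat_lit 407901468851537952)) (.cons (.rf (nat_lit 973) (nat_lit 407901468851537952)) (.cons (.rf (nat_lit 974) (nat_lit 407901468851537952)) (.cons (.rf (nat_lit 974) (nat_lit 372998571739416608)) (.cons (.rf (nat_lit 791) (nat_lit 12289)) .nil))))))),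
 (.br (nat_lit 1) (nat_lit 0) (.cons (.rf (nat_lit 965) (nat_lit 407901468851537952)) (.cons (.rf (nat_lit 970) (nat_lit 407901468851537952)) (.cons (.rf (nat_lit 975) (nat_lit 407901468851537952)) (.cons (.rf (nat_lit 975) (nat_lit 407794853803591712)) (.cons (.rf (nat_lit 960) (nat_lit 182611402308167681)) (.cons (.rf (nat_lit 791) (nat_lit 12289)) .nil))))))),
 (.br (nat_lit 1) (nat_lit 0) (.cons (.rf (nat_lit 965) (nat_lit 407901468851537952)) (.cons (.rf (nat_lit 970) (nat_lit 407901468851537952)) (.cons (.rf (nat_lit 975) (nat_lit 407901468851537952)) (.cons (.rf (nat_lit 975) (nat_lit 407794853803591712)) (.cons (.rf (nat_lit 976) (nat_lit 407901468851537952)) (.cons (.rf (nat_lit 976) (nat_lit 372998571739416608)) (.cons (.rf (nat_lit 791) (nat_lit 12289)) .nil)))))))),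
 (.br (nat_lit 5) (nat_lit 0) (.cons (.ev (nat_lit 282578783305729) (nat_lit 1)) (.cons (.ev (nat_lit 282578783305984) (nat_lit 1)) (.cons (.br (nat_lit 9) (nat_lit 0) (.cons (.rf (nat_lit 795) (nat_lit 13581938788384)) (.cons (.rf (nat_lit 795) (nat_lit 13547580098561)) (.cons (.br (nat_lit 10) (nat_lit 0) (.cons (.rf (nat_lit 944) (nat_lit 6622087200)) (.cons (.br (nat_lit 11) (nat_lit 0) (.cons (.ev (nat_lit 79538856468352323939641327873) (nat_lit 1)) .nil)) .nil))) .nil)))) .nil)))),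
 (.br (nat_lit 11) (nat_lit 0) (.cons (.ev (nat_lit 309489750634573111591239936) (nat_lit 1)) (.cons (.rf (nat_lit 801) (nat_lit 13543316752385)) .nil))),
 (.br (nat_lit 9) (nat_lit 0) (.cons (.zr (nat_lit 30182343170) (nat_lit 28352719389934502281216) (nat_lit 20) (nat_lit 2)) (.cons (.rf (nat_lit 979) (nat_lit 407901468851537952)) (.cons (.ev (nat_lit 309485009821626543718269184) (nat_lit 1)) (.cons (.br (nat_lit 11) (nat_lit 0) (.cons (.rf (nat_lit 800) (nat_lit 13543318784001)) (.cons (.rf (nat_lit 801) (nat_lit 13543318784001)) (.cons (.br (nat_lit 5) (nat_lit 0) (.cons (.rf (nat_lit 802) (nat_lit 13543318784001)) (.cons (.br (nat_lit 10) (nat_lit 0) (.cons (.ev (nat_lit 1208925891954797701038336) (nat_lit 1)) .nil)) .nil))) .nil)))) .nil))))),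
 (.br (nat_lit 9) (nat_lit 0) (.cons (.rf (nat_lit 979) (nat_lit 372891956691470337)) (.cons (.rf (nat_lit 843) (nat_lit 314953631776)) (.cons (.rf (nat_lit 805) (nat_lit 434488666687520)) .nil)))),
 (.br (nat_lit 4) (nat_lit 0) (.cons (.rf (nat_lit 800) (nat_lit 12374145927200)) (.cons (.br (nat_lit 10) (nat_lit 0) (.cons (.ev (nat_lit 309489732188110512858333184) (nat_lit 1)) .nil)) .nil))),
 (.br (nat_lit 1) (nat_lit 0) (.cons (.rf (nat_lit 960) (nat_lit 407901468851537921)) (.cons (.br (nat_lit 0) (nat_lit 0) (.cons (.rf (nat_lit 960) (nat_lit 407901468851537952)) (.cons (.rf (nat_lit 977) (nat_lit 407901468851537952)) (.cons (.br (nat_lit 9) (nat_lit 0) (.cons (.rf (nat_lit 978) (nat_lit 407901468851537952)) (.cons (.rf (nat_lit 876) (nat_lit 10349982496434208)) (.cons (.rf (nat_lit 876) (nat_lit 10349982462880769)) (.cons (.br (nat_lit 9) (nat_lit 0) (.cons (.rf (nat_lit 978) (nat_lit 407901468851537952)) (.cons (.rf (nat_lit 794) (nat_lit 434488666687520))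 (.cons (.rf (nat_lit 794) (nat_lit 433389156108289)) .nil)))) .nil))))) (.cons (.kr (nat_lit 1) (nat_lit 256) (nat_lit 0) (nat_lit 2)) (.cons (.rf (nat_lit 791) (nat_lit 12320)) .nil)))))) (.cons (.br (nat_lit 0) (nat_lit 0) (.cons (.rf (nat_lit 960) (nat_lit 407901468851537952)) (.cons (.rf (nat_lit 977) (nat_lit 407901468851537952)) (.cons (.br (nat_lit 6) (nat_lit 0) (.cons (.rf (nat_lit 980) (nat_lit 407901468851537952)) (.cons (.rf (nat_lit 981) (nat_lit 335914243557787680)) (.cons (.rf (nat_lit 871) (nat_lit 5991518404057120)) (.cons (.rf (nat_lit 981) (nat_lit 407901468851537952)) (.cons (.br (nat_lit 9) (nat_lit 0) (.cons (.rf (nat_lit 980) (nat_lit 372891956691470337)) (.cons (.rf (nat_lit 805) (nat_lit 433385934981121)) (.cons (.rf (nat_lit 804) (nat_lit 13543318784001)) (.cons (.br (nat_lit 10) (nat_lit 0) (.cons (.rf (nat_lit 982) (nat_lit 445092485129144352)) (.cons (.rf (nat_lit 805) (nat_lit 434488662624288)) (.cons (.br (nat_lit 11) (nat_lit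 0) (.cons (.rf (nat_lit 982) (nat_lit 443998437874206721)) (.cons (.rf (nat_lit 818) (nat_lit 13378061932576)) .nil))) .nil)))) .nil))))) .nil)))))) (.cons (.kr (nat_lit 72057598332895234) (nat_lit 18446744073726329344) (nat_lit 0) (nat_lit 2)) (.cons (.rf (nat_lit 791) (nat_lit 12320)) .nil)))))) (.cons (.rf (nat_lit 960) (nat_lit 182611402308167681)) (.cons (.rf (nat_lit 791) (nat_lit 12289)) .nil)))))),
 (.br (nat_lit 1) (nat_lit 0) (.cons (.rf (nat_lit 960) (nat_lit 407901468851537921)) (.cons (.rf (nat_lit 983) (nat_lit 372998571739416577)) (.cons (.rf (nat_lit 983) (nat_lit 372891956691470337)) (.cons (.rf (nat_lit 983) (nat_lit 372998571739416608)) (.cons (.rf (nat_lit 983) (nat_lit 407901468851537952)) (.cons (.rf (nat_lit 791) (nat_lit 12289)) .nil))))))),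
 (.br (nat_lit 11) (nat_lit 0) (.cons (.br (nat_lit 9) (nat_lit 0) (.cons (.ev (nat_lit 1861745781158804264365326340) (nat_lit 3)) (.cons (.rf (nat_lit 858) (nat_lit 13540263138305)) .nil))) (.cons (.kr (nat_lit 618970038089434211176022016) (nat_lit 9444805586287576743936) (nat_lit 2) (nat_lit 0)) (.cons (.br (nat_lit 5) (nat_lit 0) (.cons (.ev (nat_lit 1242785205817297251898361350) (nat_lit 3)) (.cons (.rf (nat_lit 801) (nat_lit 13547479406593)) .nil))) (.cons (.br (nat_lit 5) (nat_lit 0) (.cons (.rf (nat_lit 800) (nat_lit 13547473311745)) (.cons (.rf (nat_lit 801) (nat_lit 13547473311745)) (.cons (.br (nat_lit 9) (nat_lit 0) (.cons (.ev (nat_lit 631059296648135713568983040) (nat_lit 4)) (.cons (.br (nat_lit 10) (nat_lit 0) (.cons (.ev (nat_lit 159080159104168087905946829312) (nat_lit 3)) .nil)) .nil))) .nil)))) .nil))))),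
 (.br (nat_lit 1) (nat_lit 0) (.cons (.rf (nat_lit 960) (nat_lit 407901468851537921)) (.cons (.rf (nat_lit 977) (nat_lit 407901468750877697)) (.cons (.rf (nat_lit 983) (nat_lit 182715887050303520)) (.cons (.br (nat_lit 9) (nat_lit 0) (.cons (.rf (nat_lit 985) (nat_lit 407901468851537952)) (.cons (.rf (nat_lit 985) (nat_lit 372998571638756353)) (.cons (.rf (nat_lit 985) (nat_lit 182715887050303520)) (.cons (.rf (nat_lit 985) (nat_lit 78007195680386049)) (.cons (.br (nat_lit 9) (nat_lit 0) (.cons (.rf (nat_lit 985) (nat_lit 407901468851537952)) (.cons (.rf (nat_lit 985) (nat_lit 372998571638756353)) (.cons (.rf (nat_lit 985) (nat_lit 182715887050303520)) (.cons (.rf (nat_lit 985) (nat_lit 78007195680386049)) .nil))))) .nil)))))) (.cons (.rf (nat_lit 791) (nat_lit 12289)) .nil)))))),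
 (.br (nat_lit 10) (nat_lit 0) (.cons (.ev (nat_lit 2417851711852001380926211) (nat_lit 2)) (.cons (.ev (nat_lit 2427314818939075644359427) (nat_lit 2)) (.cons (.ev (nat_lit 621387889729226423757046531) (nat_lit 2)) (.cons (.br (nat_lit 5) (nat_lit 0) (.cons (.rf (nat_lit 905) (nat_lit 13410336311328)) (.cons (.rf (nat_lit 905) (nat_lit 13412416686112)) (.cons (.ev (nat_lit 1208944338698875705556993) (nat_lit 1)) .nil)))) .nil))))),
 (.br (nat_lit 10) (nat_lit 0) (.cons (.kr (nat_lit 309485009821345068724846592) (nat_lit 1208925819615728686333952) (nat_lit 2) (nat_lit 0)) (.cons (.rf (nat_lit 901) (nat_lit 13583037797377)) .nil))),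
 (.br (nat_lit 5) (nat_lit 0) (.cons (.kr (nat_lit 309485009821345068724846592) (nat_lit 1208925819615728686333952) (nat_lit 2) (nat_lit 0)) (.cons (.rf (nat_lit 883) (nat_lit 13372759541792)) .nil))),
 (.br (nat_lit 10) (nat_lit 0) (.cons (.kr (nat_lit 309485009821345068724846592) (nat_lit 1208925819615728686333952) (nat_lit 2) (nat_lit 0)) (.cons (.br (nat_lit 11) (nat_lit 0) (.cons (.ev (nat_lit 79538856468352323939641327873) (nat_lit 1)) .nil)) .nil))),
 (.br (nat_lit 5) (nat_lit 0) (.cons (.kr (nat_lit 309485009821345068724846592) (nat_lit 1208925819615728686333952) (nat_lit 2) (nat_lit 0)) (.cons (.br (nat_lit 11) (nat_lit 0) (.cons (.ev (nat_lit 159077712936776705473370915075) (nat_lit 2)) .nil)) .nil))),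
 (.br (nat_lit 1) (nat_lit 0) (.cons (.rf (nat_lit 960) (nat_lit 407901468851537921)) (.cons (.rf (nat_lit 977) (nat_lit 407901468750877697)) (.cons (.rf (nat_lit 983) (nat_lit 182715887050303520)) (.cons (.br (nat_lit 6) (nat_lit 0) (.cons (.rf (nat_lit 987) (nat_lit 407901468851537952)) (.cons (.ev (nat_lit 18447309226981196547) (nat_lit 2)) (.cons (.br (nat_lit 2) (nat_lit 0) (.cons (.rf (nat_lit 988) (nat_lit 407901468851537952)) (.cons (.rf (nat_lit 989) (nat_lit 407901468851537952)) (.cons (.ev (nat_lit 4722366482869662056704) (nat_lit 1)) (.cons (.br (nat_lit 11) (nat_lit 0) (.cons (.rf (nat_lit 883) (nat_lit 13272864887809)) (.cons (.rf (nat_lit 901) (nat_lit 13368427914241)) (.cons (.ev (nat_lit 1856938412006620248276075265) (nat_lit 3)) .nil)))) .nil))))) (.cons (.rf (nat_lit 987) (nat_lit 182715887050303520)) (.cons (.ev (nat_lit 618970019715310681457689347) (nat_lit 2)) (.cons (.br (nat_lit 9) (nat_lit 0) (.cons (.ev (nat_lit 9444805023333345264387)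 (nat_lit 2)) (.cons (.rf (nat_lit 987) (nat_lit 372891956590810113)) (.cons (.ev (nat_lit 2427314818939075644359427) (nat_lit 2)) (.cons (.rf (nat_lit 987) (nat_lit 77902710938250241)) (.cons (.br (nat_lit 2) (nat_lit 0) (.cons (.rf (nat_lit 990) (nat_lit 14242959524133701664)) (.cons (.rf (nat_lit 991) (nat_lit 14242959524133701664)) (.cons (.ev (nat_lit 618979483184376800682050050) (nat_lit 3)) (.cons (.br (nat_lit 11) (nat_lit 0) (.cons (.rf (nat_lit 991) (nat_lit 14207950011872973825)) (.cons (.rf (nat_lit 990) (nat_lit 14017773942332467232)) (.cons (.ev (nat_lit 618979464449402320688907527) (nat_lit 3)) .nil)))) .nil))))) .nil)))))) .nil))))))) (.cons (.rf (nat_lit 791) (nat_lit 12289)) .nil))))))]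

theorem c30 : chkAll C T R L30 (nat_lit 962) = true := by decide +kernel

theorem l30 : (nat_lit 962) + L30.length = (nat_lit 993) := by decide +kernel

/-- part of the certificates -/
def L31 : List Prf := [(.br (nat_lit 1) (nat_lit 0) (.cons (.rf (nat_lit 960) (nat_lit 407901468851537921)) (.cons (.rf (nat_lit 986) (nat_lit 407901468851537952)) (.cons (.rf (nat_lit 992) (nat_lit 407901468851537952)) (.cons (.rf (nat_lit 983) (nat_lit 182715887050303520)) (.cons (.br (nat_lit 1) (nat_lit 0) (.cons (.rf (nat_lit 960) (nat_lit 407901468851537921)) (.cons (.rf (nat_lit 986) (nat_lit 407901468851537952)) (.cons (.rf (nat_lit 992) (nat_lit 407901468851537952)) (.cons (.rf (nat_lit 960) (nat_lit 182611402308167681)) (.cons (.rf (nat_lit 791) (nat_lit 12289)) .nil)))))) (.cons (.rf (nat_lit 791) (nat_lit 12289)) .nil))))))),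
 (.br (nat_lit 1) (nat_lit 0) (.cons (.rf (nat_lit 983) (nat_lit 372998571739416577)) (.cons (.rf (nat_lit 993) (nat_lit 407901468851537952)) (.cons (.br (nat_lit 1) (nat_lit 0) (.cons (.rf (nat_lit 977) (nat_lit 407901468851537921)) (.cons (.rf (nat_lit 977) (nat_lit 407901468750877697)) (.cons (.rf (nat_lit 977) (nat_lit 182715887050303489)) (.cons (.rf (nat_lit 977) (nat_lit 182715887016750081)) (.cons (.rf (nat_lit 791) (nat_lit 12289)) .nil)))))) (.cons (.rf (nat_lit 983) (nat_lit 78007195713939457)) (.cons (.rf (nat_lit 993) (nat_lit 182715887050303520)) (.cons (.rf (nat_lit 791) (nat_lit 12289)) .nil))))))),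
 (.br (nat_lit 1) (nat_lit 0) (.cons (.rf (nat_lit 984) (nat_lit 407901468851537952)) (.cons (.rf (nat_lit 993) (nat_lit 407901468851537952)) (.cons (.rf (nat_lit 994) (nat_lit 407901468851537952)) (.cons (.br (nat_lit 1) (nat_lit 0) (.cons (.rf (nat_lit 983) (nat_lit 372891956691470337)) (.cons (.rf (nat_lit 993) (nat_lit 407901468851537952)) (.cons (.rf (nat_lit 994) (nat_lit 407901468851537952)) (.cons (.rf (nat_lit 983) (nat_lit 77902710971803649)) (.cons (.rf (nat_lit 993) (nat_lit 182715887050303520)) (.cons (.rf (nat_lit 791) (nat_lit 12289)) .nil))))))) (.cons (.rf (nat_lit 984) (nat_lit 182715887050303520)) (.cons (.rf (nat_lit 993) (nat_lit 182715887050303520)) (.cons (.rf (nat_lit 791) (nat_lit 12289)) .nil)))))))),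
 (.br (nat_lit 0) (nat_lit 0) (.cons (.rf (nat_lit 960) (nat_lit 407901468851537952)) (.cons (.rf (nat_lit 977) (nat_lit 407901468851537952)) (.cons (.rf (nat_lit 995) (nat_lit 407901468851537952)) (.cons (.rf (nat_lit 995) (nat_lit 372998571739416608)) (.cons (.rf (nat_lit 791) (nat_lit 12320)) .nil)))))),
 (.br (nat_lit 0) (nat_lit 0) (.cons (.rf (nat_lit 960) (nat_lit 407901468851537952)) (.cons (.rf (nat_lit 996) (nat_lit 407901468851537952)) (.cons (.rf (nat_lit 996) (nat_lit 407794853803591712)) (.cons (.rf (nat_lit 960) (nat_lit 182611402308167712)) (.cons (.rf (nat_lit 791) (nat_lit 12320)) .nil)))))),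
 (.br (nat_lit 4) (nat_lit 0) (.cons (.rf (nat_lit 2) (nat_lit 8831241378)) (.cons (.br (nat_lit 6) (nat_lit 1) (.cons (.rf (nat_lit 792) (nat_lit 8729468006)) (.cons (.br (nat_lit 8) (nat_lit 0) (.cons (.rf (nat_lit 0) (nat_lit 8898350242)) (.cons (.br (nat_lit 10) (nat_lit 1) (.cons (.br (nat_lit 8) (nat_lit 0) (.cons (.rf (nat_lit 0) (nat_lit 8898350242)) (.cons (.br (nat_lit 9) (nat_lit 1) (.cons (.br (nat_lit 7) (nat_lit 0) (.cons (.br (nat_lit 0) (nat_lit 0) (.cons (.rf (nat_lit 960) (nat_lit 407901468851537952)) (.cons (.rf (nat_lit 996) (nat_lit 407901468851537952)) (.cons (.rf (nat_lit 996) (nat_lit 407794853803591712)) (.cons (.rf (nat_lit 997) (nat_lit 407901468851537952)) (.cons (.rf (nat_lit 997) (nat_lit 372998571739416608)) (.cons (.rf (nat_lit 791) (nat_lit 12320)) .nil))))))) .nil)) .nil)) .nil))) .nil)) .nil))) .nil))) .nil))),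
 (.br (nat_lit 5) (nat_lit 0) (.cons (.br (nat_lit 10) (nat_lit 0) (.cons (.ev (nat_lit 310698676454186645549220096) (nat_lit 1)) (.cons (.rf (nat_lit 795) (nat_lit 13577810544672)) .nil))) (.cons (.kr (nat_lit 1099511627776) (nat_lit 72057594037927936) (nat_lit 5) (nat_lit 0)) (.cons (.rf (nat_lit 794) (nat_lit 434656202917920)) .nil)))),
 (.br (nat_lit 11) (nat_lit 0) (.cons (.rf (nat_lit 999) (nat_lit 335909841220507649)) (.cons (.kr (nat_lit 2417851639229258366189568) (nat_lit 18518801672042446848) (nat_lit 3) (nat_lit 0)) (.cons (.rf (nat_lit 816) (nat_lit 432290809359361)) .nil)))),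
 (.br (nat_lit 5) (nat_lit 0) (.cons (.rf (nat_lit 506) (nat_lit 12944832044984250369)) .nil)),
 (.br (nat_lit 1) (nat_lit 0) (.cons (.rf (nat_lit 910) (nat_lit 6517003265)) (.cons (.kr (nat_lit 1) (nat_lit 256) (nat_lit 0) (nat_lit 2)) (.cons (.rf (nat_lit 910) (nat_lit 9739315201)) (.cons (.br (nat_lit 9) (nat_lit 0) (.cons (.rf (nat_lit 999) (nat_lit 407901468851537952)) (.cons (.rf (nat_lit 1000) (nat_lit 407901468851537952)) (.cons (.rf (nat_lit 944) (nat_lit 6622054432)) (.cons (.br (nat_lit 11) (nat_lit 0) (.cons (.rf (nat_lit 816) (nat_lit 434656262628384)) (.cons (.rf (nat_lit 816) (nat_lit 434489832612896)) (.cons (.br (nat_lit 5) (nat_lit 0) (.cons (.rf (nat_lit 1001) (nat_lit 14242959524133701664)) (.cons (.br (nat_lit 5) (nat_lit 0) (.cons (.rf (nat_lit 506) (nat_lit 12944832044984250369)) .nil)) .nil))) .nil)))) .nil))))) (.cons (.rf (nat_lit 791) (nat_lit 12289)) .nil)))))),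
 (.br (nat_lit 1) (nat_lit 0) (.cons (.rf (nat_lit 910) (nat_lit 6517003265)) (.cons (.rf (nat_lit 1002) (nat_lit 407901468851537952)) (.cons (.rf (nat_lit 1002) (nat_lit 402165354437150752)) (.cons (.rf (nat_lit 910) (nat_lit 9739315201)) (.cons (.br (nat_lit 1) (nat_lit 0) (.cons (.rf (nat_lit 910) (nat_lit 6517003265)) (.cons (.rf (nat_lit 1002) (nat_lit 407901468851537952)) (.cons (.rf (nat_lit 1002) (nat_lit 402165354437150752)) (.cons (.rf (nat_lit 910) (nat_lit 9739315201)) (.cons (.rf (nat_lit 791) (nat_lit 12289)) .nil)))))) (.cons (.rf (nat_lit 791) (nat_lit 12289)) .nil))))))),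
 (.br (nat_lit 1) (nat_lit 0) (.cons (.rf (nat_lit 1003) (nat_lit 407901468851537952)) (.cons (.rf (nat_lit 910) (nat_lit 6517003265)) (.cons (.br (nat_lit 1) (nat_lit 0) (.cons (.kr (nat_lit 1) (nat_lit 256) (nat_lit 0) (nat_lit 2)) (.cons (.rf (nat_lit 910) (nat_lit 6517003265)) (.cons (.rf (nat_lit 910) (nat_lit 9739315201)) (.cons (.kr (nat_lit 18518801667747479554) (nat_lit 4311745024) (nat_lit 0) (nat_lit 2)) (.cons (.rf (nat_lit 791) (nat_lit 12289)) .nil)))))) (.cons (.rf (nat_lit 910) (nat_lit 9739315201)) (.cons (.br (nat_lit 1) (nat_lit 0) (.cons (.rf (nat_lit 1003) (nat_lit 407901468851537952)) (.cons (.rf (nat_lit 910) (nat_lit 6517003265)) (.cons (.kr (nat_lit 18518801667747479554) (nat_lit 4311745024) (nat_lit 0) (nat_lit 2)) (.cons (.rf (nat_lit 910) (nat_lit 9739315201)) (.cons (.rf (nat_lit 791) (nat_lit 12289)) .nil)))))) (.cons (.rf (nat_lit 791) (nat_lit 12289)) .nil))))))),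
 (.br (nat_lit 1) (nat_lit 0) (.cons (.rf (nat_lit 1003) (nat_lit 407901468851537952)) (.cons (.rf (nat_lit 910) (nat_lit 6517003265)) (.cons (.rf (nat_lit 1004) (nat_lit 407901468851537952)) (.cons (.rf (nat_lit 1004) (nat_lit 402165354437150752)) (.cons (.rf (nat_lit 910) (nat_lit 9739315201)) (.cons (.br (nat_lit 1) (nat_lit 0) (.cons (.rf (nat_lit 1003) (nat_lit 407901468851537952)) (.cons (.rf (nat_lit 910) (nat_lit 6517003265)) (.cons (.rf (nat_lit 1004) (nat_lit 407901468851537952)) (.cons (.rf (nat_lit 1004) (nat_lit 402165354437150752)) (.cons (.rf (nat_lit 910) (nat_lit 9739315201)) (.cons (.rf (nat_lit 791) (nat_lit 12289)) .nil))))))) (.cons (.rf (nat_lit 791) (nat_lit 12289)) .nil)))))))),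
 (.br (nat_lit 0) (nat_lit 0) (.cons (.rf (nat_lit 910) (nat_lit 6517003296)) (.cons (.rf (nat_lit 1005) (nat_lit 407901468851537952)) (.cons (.rf (nat_lit 910) (nat_lit 9739315232)) (.cons (.rf (nat_lit 1005) (nat_lit 335909841220507680)) (.cons (.rf (nat_lit 791) (nat_lit 12320)) .nil)))))),
 (.br (nat_lit 10) (nat_lit 1) (.cons (.br (nat_lit 8) (nat_lit 0) (.cons (.rf (nat_lit 0) (nat_lit 4599319749)) (.cons (.br (nat_lit 5) (nat_lit 1) (.cons (.br (nat_lit 7) (nat_lit 0) (.cons (.br (nat_lit 0) (nat_lit 0) (.cons (.rf (nat_lit 910) (nat_lit 6517003296)) (.cons (.rf (nat_lit 1006) (nat_lit 406810753316784160)) (.cons (.rf (nat_lit 910) (nat_lit 10813056032)) (.cons (.rf (nat_lit 1006) (nat_lit 402165355477338144)) (.cons (.br (nat_lit 0) (nat_lit 0) (.cons (.rf (nat_lit 910) (nat_lit 6517003296)) (.cons (.rf (nat_lit 1006) (nat_lit 406810753316784160)) (.cons (.rf (nat_lit 910) (nat_lit 10813056032)) (.cons (.rf (nat_lit 1006) (nat_lit 402165355477338144))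 (.cons (.rf (nat_lit 791) (nat_lit 12320)) .nil)))))) (.cons (.rf (nat_lit 791) (nat_lit 12320)) .nil))))))) .nil)) .nil)) .nil))) (.cons (.rf (nat_lit 1) (nat_lit 2363721)) .nil))),
 (.br (nat_lit 6) (nat_lit 1) (.cons (.rf (nat_lit 1) (nat_lit 2329797)) (.cons (.br (nat_lit 9) (nat_lit 1) (.cons (.rf (nat_lit 1007) (nat_lit 6939302763300896)) (.cons (.rf (nat_lit 1007) (nat_lit 11584701642934304)) .nil))) .nil))),
 (.br (nat_lit 0) (nat_lit 0) (.cons (.rf (nat_lit 791) (nat_lit 2080)) (.cons (.br (nat_lit 2) (nat_lit 1) (.cons (.br (nat_lit 2) (nat_lit 1) (.cons (.br (nat_lit 3) (nat_lit 0) (.cons (.br (nat_lit 3) (nat_lit 0) (.cons (.br (nat_lit 3) (nat_lit 1) (.cons (.rf (nat_lit 910) (nat_lit 6614517792)) (.cons (.br (nat_lit 4) (nat_lit 1) (.cons (.br (nat_lit 4) (nat_lit 0) (.cons (.rf (nat_lit 998) (nat_lit 9043225708576)) (.cons (.rf (nat_lit 998) (nat_lit 9042185521184)) (.cons (.br (nat_lit 4) (nat_lit 0) (.cons (.rf (nat_lit 998) (nat_lit 9043225708576))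 (.cons (.rf (nat_lit 998) (nat_lit 9042185521184)) (.cons (.br (nat_lit 5) (nat_lit 1) (.cons (.rf (nat_lit 1008) (nat_lit 11584701642934304)) (.cons (.br (nat_lit 6) (nat_lit 1) (.cons (.rf (nat_lit 1008) (nat_lit 11584700602746912)) (.cons (.br (nat_lit 9) (nat_lit 1) (.cons (.br (nat_lit 8) (nat_lit 0) (.cons (.rf (nat_lit 0) (nat_lit 4632874181)) (.cons (.br (nat_lit 10) (nat_lit 1) (.cons (.br (nat_lit 0) (nat_lit 0) (.cons (.rf (nat_lit 998) (nat_lit 4640921981984)) (.cons (.rf (nat_lit 998) (nat_lit 4640888428576)) (.cons (.rf (nat_lit 998) (nat_lit 3575903298592)) (.cons (.rf (nat_lit 998) (nat_lit 3575869745184)) (.cons (.br (nat_lit 0) (nat_lit 0) (.cons (.rf (nat_lit 998) (nat_lit 4640921981984)) (.cons (.rf (nat_lit 998) (nat_lit 4640888428576)) (.cons (.rf (nat_lit 998) (nat_lit 3575903298592)) (.cons (.rf (nat_lit 998) (nat_lit 3575869745184)) (.cons (.rf (nat_lit 791) (nat_lit 12320)) .nil)))))) (.cons (.rf (nat_lit 791) (nat_lit 12320)) .nil)))))))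 .nil)) .nil))) (.cons (.rf (nat_lit 0) (nat_lit 4599319749)) .nil))) .nil))) .nil))) .nil)))) .nil)))) .nil)) .nil))) .nil)) .nil)) .nil)) .nil)) .nil))),
 (.br (nat_lit 9) (nat_lit 0) (.cons (.br (nat_lit 11) (nat_lit 0) (.cons (.kr (nat_lit 1208925819614629174706432) (nat_lit 4722366482873940180992) (nat_lit 1) (nat_lit 0)) (.cons (.rf (nat_lit 1009) (nat_lit 395)) .nil))) .nil)),
 (.br (nat_lit 11) (nat_lit 0) (.cons (.br (nat_lit 9) (nat_lit 0) (.cons (.kr (nat_lit 1208925819614629174706432) (nat_lit 4722366482873940180992) (nat_lit 1) (nat_lit 0)) (.cons (.br (nat_lit 10) (nat_lit 0) (.cons (.ev (nat_lit 310698676526525710285668608) (nat_lit 1)) .nil)) .nil))) (.cons (.rf (nat_lit 1009) (nat_lit 395)) .nil))),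
 (.br (nat_lit 11) (nat_lit 0) (.cons (.rf (nat_lit 1011) (nat_lit 407901468851537952)) (.cons (.br (nat_lit 11) (nat_lit 0) (.cons (.rf (nat_lit 1011) (nat_lit 407901468851537952)) (.cons (.rf (nat_lit 1009) (nat_lit 395)) .nil))) (.cons (.rf (nat_lit 1009) (nat_lit 395)) .nil)))),
 (.br (nat_lit 11) (nat_lit 0) (.cons (.rf (nat_lit 1012) (nat_lit 407901468851537952)) (.cons (.br (nat_lit 11) (nat_lit 0) (.cons (.rf (nat_lit 1012) (nat_lit 407901468851537952)) (.cons (.rf (nat_lit 1009) (nat_lit 395)) .nil))) (.cons (.rf (nat_lit 1009) (nat_lit 395)) .nil)))),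
 (.br (nat_lit 6) (nat_lit 0) (.cons (.rf (nat_lit 1009) (nat_lit 230)) (.cons (.br (nat_lit 6) (nat_lit 0) (.cons (.rf (nat_lit 1009) (nat_lit 262)) .nil)) .nil))),
 (.br (nat_lit 8) (nat_lit 0) (.cons (.ev (nat_lit 72057598332895489) (nat_lit 1)) (.cons (.rf (nat_lit 1009) (nat_lit 296)) (.cons (.br (nat_lit 8) (nat_lit 0) (.cons (.ev (nat_lit 72057598332895489) (nat_lit 1)) (.cons (.rf (nat_lit 1009) (nat_lit 328)) (.cons (.br (nat_lit 8) (nat_lit 0) (.cons (.ev (nat_lit 72057598332895489) (nat_lit 1)) (.cons (.rf (nat_lit 1009) (nat_lit 360)) .nil))) .nil)))) .nil)))),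
 (.br (nat_lit 5) (nat_lit 0) (.cons (.rf (nat_lit 1014) (nat_lit 6613501984)) (.cons (.br (nat_lit 5) (nat_lit 0) (.cons (.rf (nat_lit 1014) (nat_lit 7687243808)) .nil)) .nil))),
 (.br (nat_lit 6) (nat_lit 0) (.cons (.br (nat_lit 7) (nat_lit 0) (.cons (.rf (nat_lit 1009) (nat_lit 263)) .nil)) .nil)),
 (.br (nat_lit 6) (nat_lit 0) (.cons (.rf (nat_lit 1009) (nat_lit 192)) (.cons (.rf (nat_lit 1009) (nat_lit 230)) (.cons (.br (nat_lit 6) (nat_lit 0) (.cons (.rf (nat_lit 1009) (nat_lit 192)) (.cons (.rf (nat_lit 1009) (nat_lit 262)) .nil))) .nil)))),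
 (.br (nat_lit 6) (nat_lit 0) (.cons (.rf (nat_lit 1009) (nat_lit 192)) (.cons (.rf (nat_lit 1018) (nat_lit 6614517792)) (.cons (.rf (nat_lit 1009) (nat_lit 230)) (.cons (.br (nat_lit 6) (nat_lit 0) (.cons (.rf (nat_lit 1009) (nat_lit 192)) (.cons (.rf (nat_lit 1018) (nat_lit 6614517792)) (.cons (.rf (nat_lit 1009) (nat_lit 262)) .nil)))) .nil))))),
 (.br (nat_lit 11) (nat_lit 0) (.cons (.br (nat_lit 9) (nat_lit 0) (.cons (.ev (nat_lit 310693935640960801706082304) (nat_lit 1)) (.cons (.br (nat_lit 10) (nat_lit 0) (.cons (.br (nat_lit 12) (nat_lit 0) .nil) .nil)) .nil))) (.cons (.rf (nat_lit 1009) (nat_lit 395)) .nil))),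
 (.br (nat_lit 5) (nat_lit 0) (.cons (.rf (nat_lit 1009) (nat_lit 160)) (.cons (.rf (nat_lit 1009) (nat_lit 197)) (.cons (.br (nat_lit 5) (nat_lit 0) (.cons (.rf (nat_lit 1009) (nat_lit 160)) (.cons (.rf (nat_lit 1009) (nat_lit 197)) (.cons (.br (nat_lit 5) (nat_lit 0) (.cons (.rf (nat_lit 1009) (nat_lit 160)) (.cons (.rf (nat_lit 1009) (nat_lit 197)) .nil))) .nil)))) .nil)))),
 (.br (nat_lit 5) (nat_lit 0) (.cons (.rf (nat_lit 1009) (nat_lit 160)) (.cons (.rf (nat_lit 1009) (nat_lit 197)) (.cons (.br (nat_lit 5) (nat_lit 0) (.cons (.rf (nat_lit 1009) (nat_lit 160)) (.cons (.rf (nat_lit 1009) (nat_lit 229)) (.cons (.br (nat_lit 5) (nat_lit 0) (.cons (.rf (nat_lit 1009) (nat_lit 160)) (.cons (.rf (nat_lit 1009) (nat_lit 261)) .nil))) .nil)))) .nil)))),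
 (.br (nat_lit 8) (nat_lit 0) (.cons (.ev (nat_lit 4740885284537392693249) (nat_lit 1)) (.cons (.rf (nat_lit 1019) (nat_lit 11046854784)) .nil))),
 (.br (nat_lit 11) (nat_lit 0) (.cons (.rf (nat_lit 1009) (nat_lit 352)) (.cons (.kr (nat_lit 1208925819614629174706432) (nat_lit 4722366482873940180992) (nat_lit 1) (nat_lit 0)) (.cons (.rf (nat_lit 1009) (nat_lit 395)) .nil)))),
 (.br (nat_lit 11) (nat_lit 0) (.cons (.rf (nat_lit 1009) (nat_lit 352)) (.cons (.rf (nat_lit 1024) (nat_lit 407901468851537952)) (.cons (.rf (nat_lit 1024) (nat_lit 406810750092511360)) (.cons (.rf (nat_lit 1009) (nat_lit 395)) .nil))))),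
 (.br (nat_lit 11) (nat_lit 0) (.cons (.rf (nat_lit 1009) (nat_lit 352)) (.cons (.kr (nat_lit 1208925819614629174706432) (nat_lit 4722366482873940180992) (nat_lit 1) (nat_lit 0)) (.cons (.rf (nat_lit 1009) (nat_lit 395)) .nil)))),
 (.br (nat_lit 6) (nat_lit 0) (.cons (.br (nat_lit 6) (nat_lit 0) .nil) .nil)),
 (.br (nat_lit 6) (nat_lit 0) (.cons (.br (nat_lit 8) (nat_lit 0) .nil) .nil)),
 (.br (nat_lit 11) (nat_lit 0) (.cons (.br (nat_lit 10) (nat_lit 0) (.cons (.ev (nat_lit 1208944338416301217153281) (nat_lit 1)) .nil)) (.cons (.rf (nat_lit 1009) (nat_lit 395)) .nil))),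
 (.br (nat_lit 6) (nat_lit 0) (.cons (.br (nat_lit 8) (nat_lit 0) .nil) .nil)),
 (.br (nat_lit 7) (nat_lit 0) (.cons (.rf (nat_lit 1030) (nat_lit 9043225708576)) (.cons (.rf (nat_lit 1009) (nat_lit 263)) .nil))),
 (.br (nat_lit 4) (nat_lit 0) (.cons (.rf (nat_lit 1023) (nat_lit 291617612370976)) (.cons (.rf (nat_lit 1017) (nat_lit 8899396704)) (.cons (.rf (nat_lit 1019) (nat_lit 11046785120)) .nil)))),
 (.br (nat_lit 7) (nat_lit 0) (.cons (.ev (nat_lit 18446745173221244929) (nat_lit 1)) (.cons (.rf (nat_lit 1022) (nat_lit 345215008)) .nil))),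
 (.br (nat_lit 6) (nat_lit 0) (.cons (.rf (nat_lit 1009) (nat_lit 230)) (.cons (.rf (nat_lit 1028) (nat_lit 7911501826080)) .nil))),
 (.br (nat_lit 6) (nat_lit 0) (.cons (.rf (nat_lit 1034) (nat_lit 247132686368)) (.cons (.rf (nat_lit 1009) (nat_lit 230)) (.cons (.br (nat_lit 6) (nat_lit 0) (.cons (.rf (nat_lit 1034) (nat_lit 247132686368)) (.cons (.rf (nat_lit 1009) (nat_lit 230)) .nil))) .nil)))),
 (.br (nat_lit 10) (nat_lit 0) (.cons (.br (nat_lit 10) (nat_lit 0) (.cons (.ev (nat_lit 1208925819896108463161344) (nat_lit 1)) .nil)) (.cons (.rf (nat_lit 1009) (nat_lit 362)) .nil))),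
 (.br (nat_lit 6) (nat_lit 0) (.cons (.br (nat_lit 6) (nat_lit 0) (.cons (.rf (nat_lit 1009) (nat_lit 230)) (.cons (.rf (nat_lit 1031) (nat_lit 7911501826080)) .nil))) (.cons (.rf (nat_lit 1009) (nat_lit 230)) (.cons (.rf (nat_lit 1031) (nat_lit 7911501826080)) .nil)))),
 (.br (nat_lit 7) (nat_lit 0) (.cons (.br (nat_lit 10) (nat_lit 0) (.cons (.rf (nat_lit 1036) (nat_lit 407901468851537952)) (.cons (.rf (nat_lit 1036) (nat_lit 407867177832646880)) (.cons (.rf (nat_lit 1009) (nat_lit 362)) .nil)))) (.cons (.rf (nat_lit 1022) (nat_lit 345087008)) (.cons (.rf (nat_lit 1037) (nat_lit 389004004384)) (.cons (.rf (nat_lit 1037) (nat_lit 355717976096)) .nil))))),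
 (.br (nat_lit 11) (nat_lit 0) (.cons (.ev (nat_lit 1213648258156192386252801) (nat_lit 1)) (.cons (.rf (nat_lit 1009) (nat_lit 395)) .nil))),
 (.br (nat_lit 6) (nat_lit 0) (.cons (.rf (nat_lit 1035) (nat_lit 247132652640)) (.cons (.rf (nat_lit 1035) (nat_lit 247130621024)) (.cons (.rf (nat_lit 1009) (nat_lit 230)) (.cons (.br (nat_lit 6) (nat_lit 0) (.cons (.rf (nat_lit 1035) (nat_lit 247132652640)) (.cons (.rf (nat_lit 1035) (nat_lit 247130621024)) (.cons (.rf (nat_lit 1009) (nat_lit 230)) .nil)))) .nil))))),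
 (.br (nat_lit 9) (nat_lit 0) (.cons (.br (nat_lit 10) (nat_lit 0) (.cons (.zr (nat_lit 9444805023341918290438) (nat_lit 1240357890924891008242221056) (nat_lit 10) (nat_lit 0)) .nil)) .nil)),
 (.br (nat_lit 10) (nat_lit 0) (.cons (.kr (nat_lit 281474976710656) (nat_lit 1208925819614629174706176) (nat_lit 6) (nat_lit 0)) (.cons (.kr (nat_lit 2417851639229258349477888) (nat_lit 72339069031415808) (nat_lit 2) (nat_lit 0)) (.cons (.zr (nat_lit 2417870085974431604146177) (nat_lit 144396663052567296) (nat_lit 5) (nat_lit 8)) (.cons (.rf (nat_lit 1040) (nat_lit 424469073952)) .nil))))),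
 (.br (nat_lit 6) (nat_lit 0) (.cons (.br (nat_lit 6) (nat_lit 0) .nil) .nil)),
 (.br (nat_lit 11) (nat_lit 0) (.cons (.br (nat_lit 9) (nat_lit 0) (.cons (.rf (nat_lit 1041) (nat_lit 407901468851537952)) (.cons (.br (nat_lit 9) (nat_lit 0) (.cons (.rf (nat_lit 1041) (nat_lit 407901468851537952)) .nil)) .nil))) (.cons (.br (nat_lit 8) (nat_lit 0) (.cons (.kr (nat_lit 4722438540467978108929) (nat_lit 309485028268371716922671104) (nat_lit 0) (nat_lit 1)) (.cons (.rf (nat_lit 1042) (nat_lit 407901468851537952)) (.cons (.br (nat_lit 9) (nat_lit 0) (.cons (.rf (nat_lit 1042) (nat_lit 11550583463970859)) (.cons (.rf (nat_lit 1043) (nat_lit 13583144620064)) .nil))) .nil)))) (.cons (.br (nat_lit 8) (nat_lit 0) (.cons (.br (nat_lit 9) (nat_lit 0) (.cons (.ev (nat_lit 310698658007725142033039616) (nat_lit 1)) (.cons (.rf (nat_lit 1040) (nat_lit 424435519520)) .nil))) (.cons (.zr (nat_lit 2417870085974431604146177) (nat_lit 144396663052567296) (nat_lit 5) (nat_lit 8))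 (.cons (.br (nat_lit 10) (nat_lit 0) (.cons (.br (nat_lit 9) (nat_lit 0) (.cons (.rf (nat_lit 1040) (nat_lit 412624425003)) .nil)) (.cons (.rf (nat_lit 1043) (nat_lit 13582104432672)) .nil))) .nil)))) (.cons (.rf (nat_lit 1009) (nat_lit 395)) .nil))))),
 (.br (nat_lit 10) (nat_lit 0) (.cons (.ev (nat_lit 1223148260140987975794946) (nat_lit 2)) (.cons (.rf (nat_lit 1040) (nat_lit 424472089632)) .nil))),
 (.br (nat_lit 11) (nat_lit 0) (.cons (.rf (nat_lit 1044) (nat_lit 407901468851537952)) (.cons (.br (nat_lit 4) (nat_lit 0) (.cons (.ev (nat_lit 4722366483969173618689) (nat_lit 1)) (.cons (.rf (nat_lit 1045) (nat_lit 407901468851537952)) (.cons (.br (nat_lit 9) (nat_lit 0) (.cons (.rf (nat_lit 1045) (nat_lit 11405448067484715)) (.cons (.rf (nat_lit 1043) (nat_lit 13583140525088)) .nil))) .nil)))) (.cons (.br (nat_lit 10) (nat_lit 0) (.cons (.ev (nat_lit 309485028268089146729365504) (nat_lit 1)) (.cons (.zr (nat_lit 309485028268371716956225536) (nat_lit 1208925891672223212700160)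 (nat_lit 5) (nat_lit 8)) (.cons (.br (nat_lit 4) (nat_lit 0) (.cons (.br (nat_lit 9) (nat_lit 0) (.cons (.rf (nat_lit 1040) (nat_lit 424438535200)) .nil)) (.cons (.rf (nat_lit 1043) (nat_lit 13582100337696)) .nil))) .nil)))) (.cons (.rf (nat_lit 1009) (nat_lit 395)) .nil)))))]

theorem c31 : chkAll C T R L31 (nat_lit 993) = true := by decide +kernel

theorem l31 : (nat_lit 993) + L31.length = (nat_lit 1047) := by decide +kernel

/-- part of the certificates -/
def L32 : List Prf := [(.br (nat_lit 11) (nat_lit 0) (.cons (.rf (nat_lit 1044) (nat_lit 407901468851537952)) (.cons (.rf (nat_lit 1046) (nat_lit 407901468851537952)) (.cons (.br (nat_lit 9) (nat_lit 0) (.cons (.ev (nat_lit 4722366483969173618689) (nat_lit 1)) (.cons (.br (nat_lit 4) (nat_lit 0) (.cons (.ev (nat_lit 310693954159761369958711296) (nat_lit 1)) (.cons (.rf (nat_lit 1040) (nat_lit 391149520000)) .nil))) (.cons (.ev (nat_lit 309489732260168106913104128) (nat_lit 1)) (.cons (.br (nat_lit 4)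 (nat_lit 0) (.cons (.rf (nat_lit 1021) (nat_lit 12222497920)) (.cons (.rf (nat_lit 1040) (nat_lit 13024691499)) (.cons (.br (nat_lit 8) (nat_lit 0) (.cons (.zr (nat_lit 2417870085974431604146177) (nat_lit 144396663052567296) (nat_lit 5) (nat_lit 8)) (.cons (.br (nat_lit 10) (nat_lit 0) (.cons (.ev (nat_lit 79848355663719579120851681795) (nat_lit 2)) .nil)) .nil))) .nil)))) .nil))))) (.cons (.rf (nat_lit 1009) (nat_lit 395)) .nil))))),
 (.br (nat_lit 7) (nat_lit 0) (.cons (.rf (nat_lit 1040) (nat_lit 249278104672)) (.cons (.rf (nat_lit 1040) (nat_lit 249313690720)) (.cons (.rf (nat_lit 1009) (nat_lit 263)) .nil)))),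
 (.br (nat_lit 11) (nat_lit 0) (.cons (.br (nat_lit 9) (nat_lit 0) (.cons (.rf (nat_lit 1021) (nat_lit 413304107)) (.cons (.br (nat_lit 10) (nat_lit 0) (.cons (.ev (nat_lit 953230802471851461097101266436) (nat_lit 4)) .nil)) .nil))) (.cons (.ev (nat_lit 309485028340428215744004096) (nat_lit 1)) .nil))),
 (.br (nat_lit 11) (nat_lit 0) (.cons (.br (nat_lit 9) (nat_lit 0) (.cons (.rf (nat_lit 1021) (nat_lit 413271339)) (.cons (.br (nat_lit 10) (nat_lit 0) (.cons (.ev (nat_lit 79849550404065624914168644355) (nat_lit 2)) .nil)) .nil))) (.cons (.rf (nat_lit 1009) (nat_lit 395)) .nil))),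
 (.br (nat_lit 1) (nat_lit 0) (.cons (.br (nat_lit 5) (nat_lit 0) (.cons (.rf (nat_lit 1016) (nat_lit 306451488)) (.cons (.br (nat_lit 8) (nat_lit 0) (.cons (.ev (nat_lit 4722438823038188257281) (nat_lit 1)) (.cons (.zr (nat_lit 18446745173221179905) (nat_lit 281474993618944) (nat_lit 5) (nat_lit 0)) (.cons (.rf (nat_lit 1019) (nat_lit 12117516320)) .nil)))) (.cons (.br (nat_lit 8) (nat_lit 0) (.cons (.zr (nat_lit 18446745173221179905) (nat_lit 281474993618944) (nat_lit 5) (nat_lit 0)) (.cons (.ev (nat_lit 1208925891954802012717313) (nat_lit 1)) (.cons (.rf (nat_lit 1019) (nat_lit 12151070752)) .nil)))) (.cons (.br (nat_lit 11) (nat_lit 0) (.cons (.rf (nat_lit 1012) (nat_lit 407901468851537952)) (.cons (.rf (nat_lit 1013) (nat_lit 407901468851537952)) (.cons (.br (nat_lit 11) (nat_lit 0) (.cons (.rf (nat_lit 1012) (nat_lit 407901468851537952)) (.cons (.rf (nat_lit 1013) (nat_lit 407901468851537952)) (.cons (.rf (nat_lit 1009) (nat_lit 395)) .nil)))) (.cons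 (.rf (nat_lit 1009) (nat_lit 395)) .nil))))) .nil))))) (.cons (.br (nat_lit 10) (nat_lit 0) (.cons (.ev (nat_lit 282578783371521) (nat_lit 1)) (.cons (.kr (nat_lit 281474976711168) (nat_lit 18446745173221244928) (nat_lit 1) (nat_lit 0)) (.cons (.br (nat_lit 10) (nat_lit 0) (.cons (.ev (nat_lit 282578783371521) (nat_lit 1)) (.cons (.kr (nat_lit 2417851639229258349412864) (nat_lit 18518802767275884544) (nat_lit 1) (nat_lit 0)) (.cons (.br (nat_lit 4) (nat_lit 0) (.cons (.rf (nat_lit 1016) (nat_lit 307499040)) (.cons (.zr (nat_lit 4722366482873940312065) (nat_lit 72057594054705664) (nat_lit 5) (nat_lit 4)) (.cons (.rf (nat_lit 1015) (nat_lit 12376120330272)) (.cons (.rf (nat_lit 1021) (nat_lit 13259575328)) .nil))))) .nil)))) (.cons (.br (nat_lit 4) (nat_lit 0) (.cons (.rf (nat_lit 1016) (nat_lit 307499040)) (.cons (.rf (nat_lit 1019) (nat_lit 12118534176)) (.cons (.ev (nat_lit 282578783371521) (nat_lit 1)) (.cons (.rf (nat_lit 1015) (nat_lit 12376120330272))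 (.cons (.rf (nat_lit 1021) (nat_lit 13259575328)) .nil)))))) .nil))))) (.cons (.br (nat_lit 5) (nat_lit 0) (.cons (.rf (nat_lit 1016) (nat_lit 310546464)) (.cons (.rf (nat_lit 1032) (nat_lit 327936964073632)) (.cons (.kr (nat_lit 72057594037928448) (nat_lit 18446745173237956608) (nat_lit 1) (nat_lit 0)) (.cons (.br (nat_lit 4) (nat_lit 0) (.cons (.rf (nat_lit 1019) (nat_lit 12121674784)) (.cons (.rf (nat_lit 1019) (nat_lit 12155229216)) (.cons (.br (nat_lit 11) (nat_lit 0) (.cons (.rf (nat_lit 1020) (nat_lit 407901468851537952)) (.cons (.br (nat_lit 11) (nat_lit 0) (.cons (.rf (nat_lit 1020) (nat_lit 407901468851537952)) (.cons (.rf (nat_lit 1009) (nat_lit 395)) .nil))) (.cons (.rf (nat_lit 1009) (nat_lit 395)) .nil)))) (.cons (.rf (nat_lit 1021) (nat_lit 13262557216)) .nil))))) .nil))))) (.cons (.br (nat_lit 4) (nat_lit 0) (.cons (.br (nat_lit 8) (nat_lit 0) (.cons (.ev (nat_lit 18519083147036000513) (nat_lit 1)) (.cons (.zr (nat_lit 18590860361313878017)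 (nat_lit 844424930132736) (nat_lit 5) (nat_lit 5)) (.cons (.rf (nat_lit 1019) (nat_lit 12118433920)) .nil)))) (.cons (.ev (nat_lit 18446744078021361921) (nat_lit 1)) (.cons (.br (nat_lit 8) (nat_lit 0) (.cons (.ev (nat_lit 18519083147036000513) (nat_lit 1)) (.cons (.ev (nat_lit 4740885284537392693249) (nat_lit 1)) (.cons (.rf (nat_lit 1022) (nat_lit 378802208)) .nil)))) (.cons (.br (nat_lit 5) (nat_lit 0) (.cons (.rf (nat_lit 1032) (nat_lit 327936964204576)) (.cons (.kr (nat_lit 72339069014704640) (nat_lit 9444732965747897139200) (nat_lit 1) (nat_lit 0)) (.cons (.kr (nat_lit 72339069014704128) (nat_lit 2417851639229258366189568) (nat_lit 2) (nat_lit 0)) (.cons (.br (nat_lit 8) (nat_lit 0) (.cons (.kr (nat_lit 281474976710912) (nat_lit 4722366482873940180992) (nat_lit 1) (nat_lit 0)) (.cons (.kr (nat_lit 281474976710656) (nat_lit 1208925819614629174706176) (nat_lit 6) (nat_lit 0)) (.cons (.rf (nat_lit 1025) (nat_lit 407901468851537952)) (.cons (.rf (nat_lit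 1048) (nat_lit 13582100333728)) .nil))))) .nil))))) (.cons (.br (nat_lit 5) (nat_lit 0) (.cons (.rf (nat_lit 1019) (nat_lit 12121575584)) (.cons (.rf (nat_lit 1022) (nat_lit 378672160)) (.cons (.br (nat_lit 8) (nat_lit 0) (.cons (.zr (nat_lit 18446745173221179905) (nat_lit 72057594071547904) (nat_lit 5) (nat_lit 0)) (.cons (.rf (nat_lit 1022) (nat_lit 379723936)) (.cons (.br (nat_lit 10) (nat_lit 0) (.cons (.kr (nat_lit 72057594037927936) (nat_lit 1208925819614629174706176) (nat_lit 7) (nat_lit 0)) (.cons (.zr (nat_lit 18446745173221179905) (nat_lit 1208925819614629208326144) (nat_lit 5) (nat_lit 0)) (.cons (.rf (nat_lit 1040) (nat_lit 424472118400)) .nil)))) (.cons (.rf (nat_lit 1048) (nat_lit 13582101382272)) .nil))))) (.cons (.br (nat_lit 8) (nat_lit 0) (.cons (.zr (nat_lit 18447026648197890817) (nat_lit 4722438540468011728896) (nat_lit 5) (nat_lit 0)) (.cons (.br (nat_lit 10) (nat_lit 0) (.cons (.kr (nat_lit 2417851639229258349477888) (nat_lit 72339069031415808)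 (nat_lit 2) (nat_lit 0)) (.cons (.zr (nat_lit 18590860361313878017) (nat_lit 1208925820177579128128256) (nat_lit 5) (nat_lit 5)) (.cons (.rf (nat_lit 1040) (nat_lit 424469070976)) .nil)))) (.cons (.br (nat_lit 11) (nat_lit 0) (.cons (.rf (nat_lit 1027) (nat_lit 389005086752)) (.cons (.br (nat_lit 9) (nat_lit 0) (.cons (.zr (nat_lit 309485028556320618097868801) (nat_lit 14167100011571790741504) (nat_lit 10) (nat_lit 5)) (.cons (.rf (nat_lit 1040) (nat_lit 424438436992)) .nil))) (.cons (.rf (nat_lit 1009) (nat_lit 395)) .nil)))) (.cons (.rf (nat_lit 1037) (nat_lit 424435519520)) .nil))))) (.cons (.rf (nat_lit 1038) (nat_lit 445058400268716064)) .nil)))))) .nil)))))) (.cons (.br (nat_lit 4) (nat_lit 0) (.cons (.br (nat_lit 8) (nat_lit 0) (.cons (.br (nat_lit 9) (nat_lit 0) (.cons (.ev (nat_lit 1213666705180641544110081) (nat_lit 1)) (.cons (.rf (nat_lit 1019) (nat_lit 12151989376)) .nil))) (.cons (.ev (nat_lit 18519083147036000513) (nat_lit 1)) (.cons (.rf (nat_lit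 1019) (nat_lit 12151988352)) .nil)))) (.cons (.rf (nat_lit 1032) (nat_lit 362021926341664)) (.cons (.br (nat_lit 5) (nat_lit 0) (.cons (.rf (nat_lit 1032) (nat_lit 362021925325856)) (.cons (.br (nat_lit 8) (nat_lit 0) (.cons (.ev (nat_lit 4740813230254791459586) (nat_lit 2)) (.cons (.rf (nat_lit 1022) (nat_lit 378803328)) .nil))) (.cons (.br (nat_lit 8) (nat_lit 0) (.cons (.ev (nat_lit 1218388999890690679898626) (nat_lit 2)) (.cons (.rf (nat_lit 1022) (nat_lit 379851808)) .nil))) (.cons (.br (nat_lit 11) (nat_lit 0) (.cons (.br (nat_lit 11) (nat_lit 0) (.cons (.ev (nat_lit 4722366483969173618689) (nat_lit 1)) (.cons (.ev (nat_lit 1208925891954801996005633) (nat_lit 1)) (.cons (.rf (nat_lit 1009) (nat_lit 395)) .nil)))) (.cons (.ev (nat_lit 4722366483969173618689) (nat_lit 1)) (.cons (.ev (nat_lit 1208925891954801996005633) (nat_lit 1)) (.cons (.rf (nat_lit 1009) (nat_lit 395)) .nil))))) .nil))))) (.cons (.br (nat_lit 5) (nat_lit 0) (.cons (.ev (nat_lit 18519083147036000513)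 (nat_lit 1)) (.cons (.rf (nat_lit 1033) (nat_lit 362021891704864)) (.cons (.rf (nat_lit 1022) (nat_lit 379752480)) .nil)))) (.cons (.br (nat_lit 5) (nat_lit 0) (.cons (.rf (nat_lit 1019) (nat_lit 12155130016)) (.cons (.br (nat_lit 8) (nat_lit 0) (.cons (.ev (nat_lit 4722438823038188257281) (nat_lit 1)) (.cons (.rf (nat_lit 1022) (nat_lit 379723808)) (.cons (.br (nat_lit 11) (nat_lit 0) (.cons (.br (nat_lit 11) (nat_lit 0) (.cons (.ev (nat_lit 1208925819615732998078721) (nat_lit 1)) (.cons (.rf (nat_lit 1009) (nat_lit 395)) .nil))) (.cons (.ev (nat_lit 1208925891954801996005633) (nat_lit 1)) (.cons (.rf (nat_lit 1009) (nat_lit 395)) .nil)))) (.cons (.rf (nat_lit 1048) (nat_lit 13583141569664)) .nil))))) (.cons (.rf (nat_lit 1022) (nat_lit 379720736)) (.cons (.br (nat_lit 10) (nat_lit 0) (.cons (.rf (nat_lit 1022) (nat_lit 379723808)) (.cons (.ev (nat_lit 1208925819615732998078721) (nat_lit 1)) (.cons (.br (nat_lit 11) (nat_lit 0) (.cons (.rf (nat_lit 1027) (nat_lit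 387964899360)) (.cons (.br (nat_lit 8) (nat_lit 0) (.cons (.ev (nat_lit 310698658007725142033039616) (nat_lit 1)) (.cons (.rf (nat_lit 1040) (nat_lit 391182848256)) .nil))) (.cons (.rf (nat_lit 1009) (nat_lit 395)) .nil)))) (.cons (.rf (nat_lit 1040) (nat_lit 424471991424)) .nil))))) (.cons (.rf (nat_lit 1038) (nat_lit 445092485129177120)) .nil)))))) .nil)))))) (.cons (.br (nat_lit 5) (nat_lit 0) (.cons (.rf (nat_lit 1015) (nat_lit 12372896057472)) (.cons (.rf (nat_lit 1015) (nat_lit 12234383363328)) (.cons (.br (nat_lit 4) (nat_lit 0) (.cons (.rf (nat_lit 1019) (nat_lit 12121703552)) (.cons (.rf (nat_lit 1022) (nat_lit 378573952)) (.cons (.br (nat_lit 8) (nat_lit 0) (.cons (.ev (nat_lit 4722438823038188257281) (nat_lit 1)) (.cons (.kr (nat_lit 281474976710656) (nat_lit 1208925819614629174706176) (nat_lit 6) (nat_lit 0)) (.cons (.br (nat_lit 9) (nat_lit 0) (.cons (.ev (nat_lit 28444953391786734322180) (nat_lit 3)) (.cons (.br (nat_lit 10) (nat_lit 0) (.cons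 (.ev (nat_lit 1213648258156192386252801) (nat_lit 1)) (.cons (.rf (nat_lit 1040) (nat_lit 424472089632)) .nil))) (.cons (.rf (nat_lit 1040) (nat_lit 424438566944)) .nil)))) (.cons (.rf (nat_lit 1048) (nat_lit 13583141572640)) .nil))))) (.cons (.br (nat_lit 8) (nat_lit 0) (.cons (.ev (nat_lit 4722438823038188257281) (nat_lit 1)) (.cons (.br (nat_lit 10) (nat_lit 0) (.cons (.kr (nat_lit 2417851639229258349477888) (nat_lit 72339069031415808) (nat_lit 2) (nat_lit 0)) (.cons (.zr (nat_lit 18447026648197890561) (nat_lit 2417851639229258366320640) (nat_lit 5) (nat_lit 0)) (.cons (.rf (nat_lit 1040) (nat_lit 424469073952)) .nil)))) (.cons (.br (nat_lit 9) (nat_lit 0) (.cons (.br (nat_lit 11) (nat_lit 0) (.cons (.ev (nat_lit 1208944338416301217153281) (nat_lit 1)) (.cons (.rf (nat_lit 1009) (nat_lit 395)) .nil))) (.cons (.ev (nat_lit 28444953391786734322180) (nat_lit 3)) (.cons (.rf (nat_lit 1040) (nat_lit 424438566944)) .nil)))) (.cons (.rf (nat_lit 1037) (nat_lit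 424434468000)) .nil))))) (.cons (.br (nat_lit 8) (nat_lit 0) (.cons (.ev (nat_lit 4722438823038188257281) (nat_lit 1)) (.cons (.rf (nat_lit 1048) (nat_lit 13582104400928)) (.cons (.rf (nat_lit 1037) (nat_lit 424438531232)) (.cons (.rf (nat_lit 1037) (nat_lit 391152439456)) .nil))))) .nil)))))) (.cons (.br (nat_lit 10) (nat_lit 0) (.cons (.kr (nat_lit 72339069014704128) (nat_lit 2417851639229258366189568) (nat_lit 2) (nat_lit 0)) (.cons (.rf (nat_lit 1022) (nat_lit 379625632)) (.cons (.kr (nat_lit 72057594037927936) (nat_lit 1208925819614629174706176) (nat_lit 7) (nat_lit 0)) (.cons (.br (nat_lit 8) (nat_lit 0) (.cons (.ev (nat_lit 1208944338416301233996033) (nat_lit 1)) (.cons (.zr (nat_lit 18518802767259107841) (nat_lit 2417851639229258383032320) (nat_lit 5) (nat_lit 0)) (.cons (.zr (nat_lit 18590860361297035777) (nat_lit 3626777458843887557738496) (nat_lit 5) (nat_lit 0)) (.cons (.rf (nat_lit 1040) (nat_lit 391181927680)) .nil))))) (.cons (.rf (nat_lit 1040)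 (nat_lit 424472121376)) .nil)))))) (.cons (.br (nat_lit 11) (nat_lit 0) (.cons (.rf (nat_lit 1044) (nat_lit 407901468851537952)) (.cons (.rf (nat_lit 1046) (nat_lit 407901468851537952)) (.cons (.rf (nat_lit 1047) (nat_lit 407901468851537952)) (.cons (.br (nat_lit 11) (nat_lit 0) (.cons (.rf (nat_lit 1044) (nat_lit 407901468851537952)) (.cons (.rf (nat_lit 1046) (nat_lit 407901468851537952)) (.cons (.rf (nat_lit 1047) (nat_lit 407901468851537952)) (.cons (.rf (nat_lit 1009) (nat_lit 395)) .nil))))) (.cons (.rf (nat_lit 1009) (nat_lit 395)) .nil)))))) (.cons (.br (nat_lit 4) (nat_lit 0) (.cons (.rf (nat_lit 1021) (nat_lit 12222366848)) (.cons (.br (nat_lit 8) (nat_lit 0) (.cons (.rf (nat_lit 1022) (nat_lit 378577024)) (.cons (.rf (nat_lit 1048) (nat_lit 13582104432672)) (.cons (.rf (nat_lit 1037) (nat_lit 424438563968)) (.cons (.rf (nat_lit 1037) (nat_lit 391152440448)) .nil))))) (.cons (.br (nat_lit 8) (nat_lit 0) (.cons (.rf (nat_lit 1048) (nat_lit 13583144620064))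 (.cons (.kr (nat_lit 281474976710656) (nat_lit 1208925819614629174706176) (nat_lit 6) (nat_lit 0)) (.cons (.rf (nat_lit 1037) (nat_lit 424472118400)) (.cons (.rf (nat_lit 1037) (nat_lit 391185994880)) .nil))))) (.cons (.br (nat_lit 8) (nat_lit 0) (.cons (.rf (nat_lit 1037) (nat_lit 424434369792)) (.cons (.rf (nat_lit 1037) (nat_lit 424467924224)) (.cons (.br (nat_lit 11) (nat_lit 0) (.cons (.ev (nat_lit 1856910132789074643258507782) (nat_lit 3)) (.cons (.br (nat_lit 10) (nat_lit 0) (.cons (.ev (nat_lit 1208944338416301217153281) (nat_lit 1)) (.cons (.rf (nat_lit 1043) (nat_lit 13582101385248)) .nil))) (.cons (.rf (nat_lit 1009) (nat_lit 395)) .nil)))) (.cons (.br (nat_lit 11) (nat_lit 0) (.cons (.rf (nat_lit 1049) (nat_lit 14242959524133701664)) (.cons (.br (nat_lit 11) (nat_lit 0) (.cons (.rf (nat_lit 1049) (nat_lit 14242959524133701664)) (.cons (.rf (nat_lit 1009) (nat_lit 395)) .nil))) (.cons (.rf (nat_lit 1009) (nat_lit 395)) .nil)))) .nil))))) (.cons (.br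 (nat_lit 8) (nat_lit 0) (.cons (.rf (nat_lit 1037) (nat_lit 391149293824)) (.cons (.rf (nat_lit 1037) (nat_lit 391182848256)) (.cons (.br (nat_lit 11) (nat_lit 0) (.cons (.rf (nat_lit 1050) (nat_lit 14242959524133701664)) (.cons (.br (nat_lit 11) (nat_lit 0) (.cons (.rf (nat_lit 1050) (nat_lit 14242959524133701664)) (.cons (.rf (nat_lit 1009) (nat_lit 395)) .nil))) (.cons (.rf (nat_lit 1009) (nat_lit 395)) .nil)))) (.cons (.br (nat_lit 11) (nat_lit 0) (.cons (.br (nat_lit 9) (nat_lit 0) (.cons (.br (nat_lit 10) (nat_lit 0) (.cons (.ev (nat_lit 1208944338416301217153281) (nat_lit 1)) (.cons (.rf (nat_lit 1040) (nat_lit 378267833484)) .nil))) (.cons (.rf (nat_lit 1043) (nat_lit 12517985490048)) .nil))) (.cons (.br (nat_lit 10) (nat_lit 0) (.cons (.ev (nat_lit 1208944338416301217153281) (nat_lit 1)) (.cons (.rf (nat_lit 1043) (nat_lit 12516945302656)) .nil))) (.cons (.rf (nat_lit 1009) (nat_lit 395)) .nil)))) .nil))))) .nil)))))) .nil))))))) .nil))))))),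
 (.br (nat_lit 5) (nat_lit 0) (.cons (.br (nat_lit 9) (nat_lit 0) (.cons (.zr (nat_lit 18446745173221310465) (nat_lit 281474993488384) (nat_lit 5) (nat_lit 5)) (.cons (.kr (nat_lit 72057594037928192) (nat_lit 1208925819614629174771712) (nat_lit 1) (nat_lit 0)) (.cons (.rf (nat_lit 1019) (nat_lit 12083962912)) .nil)))) (.cons (.ev (nat_lit 282578800083201) (nat_lit 1)) (.cons (.rf (nat_lit 1016) (nat_lit 272962592)) (.cons (.rf (nat_lit 1015) (nat_lit 12445780478080)) .nil))))),
 (.br (nat_lit 7) (nat_lit 0) (.cons (.ev (nat_lit 18446745173237956609) (nat_lit 1)) (.cons (.rf (nat_lit 1019) (nat_lit 11011398784)) .nil))),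
 (.br (nat_lit 7) (nat_lit 0) (.cons (.rf (nat_lit 1009) (nat_lit 224)) (.cons (.rf (nat_lit 1009) (nat_lit 263)) .nil))),
 (.br (nat_lit 3) (nat_lit 0) (.cons (.rf (nat_lit 1048) (nat_lit 7975925384256)) (.cons (.rf (nat_lit 1037) (nat_lit 282534677536)) (.cons (.rf (nat_lit 1037) (nat_lit 249245665312)) .nil)))),
 (.br (nat_lit 11) (nat_lit 0) (.cons (.rf (nat_lit 1009) (nat_lit 352)) (.cons (.kr (nat_lit 72339069014639104) (nat_lit 2417851639229258366255104) (nat_lit 1) (nat_lit 0)) (.cons (.rf (nat_lit 1051) (nat_lit 1448162313345355)) (.cons (.rf (nat_lit 1051) (nat_lit 1311789455481163)) (.cons (.rf (nat_lit 1009) (nat_lit 395)) .nil)))))),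
 (.br (nat_lit 10) (nat_lit 0) (.cons (.rf (nat_lit 1032) (nat_lit 291717606677536)) (.cons (.kr (nat_lit 72057594037928192) (nat_lit 1208925819614629191483392) (nat_lit 1) (nat_lit 0)) (.cons (.kr (nat_lit 72339069014639104) (nat_lit 2417851639229258366255104) (nat_lit 1) (nat_lit 0)) (.cons (.br (nat_lit 5) (nat_lit 0) (.cons (.rf (nat_lit 1053) (nat_lit 362021891704864)) (.cons (.br (nat_lit 4) (nat_lit 0) (.cons (.ev (nat_lit 4722366483969173618689) (nat_lit 1)) (.cons (.rf (nat_lit 1022) (nat_lit 377623584)) .nil))) (.cons (.ev (nat_lit 4722366483969156907009) (nat_lit 1)) (.cons (.br (nat_lit 4) (nat_lit 0) (.cons (.rf (nat_lit 1022) (nat_lit 377655328)) (.cons (.rf (nat_lit 1022) (nat_lit 378710144)) (.cons (.br (nat_lit 9) (nat_lit 0) (.cons (.rf (nat_lit 1054) (nat_lit 389005086752)) (.cons (.ev (nat_lit 1213648186380073308258561) (nat_lit 1)) (.cons (.rf (nat_lit 1040) (nat_lit 424435582080)) .nil)))) (.cons (.rf (nat_lit 1048) (nat_lit 12515847341184))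 .nil))))) .nil))))) (.cons (.br (nat_lit 8) (nat_lit 0) (.cons (.rf (nat_lit 1022) (nat_lit 377819168)) (.cons (.rf (nat_lit 1022) (nat_lit 377820192)) (.cons (.br (nat_lit 4) (nat_lit 0) (.cons (.rf (nat_lit 1019) (nat_lit 12084881536)) (.cons (.ev (nat_lit 4740813508418331541761) (nat_lit 1)) (.cons (.br (nat_lit 5) (nat_lit 0) (.cons (.rf (nat_lit 1054) (nat_lit 383636541472)) (.cons (.br (nat_lit 11) (nat_lit 0) (.cons (.ev (nat_lit 310693935713299870720786688) (nat_lit 1)) (.cons (.rf (nat_lit 1009) (nat_lit 395)) .nil))) (.cons (.rf (nat_lit 1037) (nat_lit 424407109664)) .nil)))) (.cons (.rf (nat_lit 1055) (nat_lit 13583144620064)) .nil))))) (.cons (.br (nat_lit 4) (nat_lit 0) (.cons (.rf (nat_lit 1019) (nat_lit 12084881536)) (.cons (.br (nat_lit 9) (nat_lit 0) (.cons (.zr (nat_lit 4722366482873940181761) (nat_lit 281475010396160) (nat_lit 5) (nat_lit 0)) (.cons (.zr (nat_lit 4722438540468011663361) (nat_lit 1208925819896104151548160) (nat_lit 5) (nat_lit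 9)) (.cons (.rf (nat_lit 1040) (nat_lit 424435385664)) .nil)))) (.cons (.rf (nat_lit 1056) (nat_lit 407901468851537952)) (.cons (.rf (nat_lit 1040) (nat_lit 391120983168)) .nil))))) (.cons (.rf (nat_lit 1040) (nat_lit 424401736000)) .nil)))))) .nil)))))),
 (.br (nat_lit 11) (nat_lit 0) (.cons (.rf (nat_lit 1009) (nat_lit 352)) (.cons (.rf (nat_lit 1056) (nat_lit 397764929521948992)) (.cons (.br (nat_lit 11) (nat_lit 0) (.cons (.rf (nat_lit 1009) (nat_lit 352)) (.cons (.rf (nat_lit 1051) (nat_lit 11584701642934315)) (.cons (.rf (nat_lit 1051) (nat_lit 11439566246448171)) (.cons (.kr (nat_lit 72339069014639104) (nat_lit 2417851639229258366255104) (nat_lit 1) (nat_lit 0)) (.cons (.rf (nat_lit 1009) (nat_lit 395)) .nil)))))) (.cons (.br (nat_lit 11) (nat_lit 0) (.cons (.rf (nat_lit 1009) (nat_lit 352)) (.cons (.rf (nat_lit 1051) (nat_lit 11550583463970859)) (.cons (.rf (nat_lit 1051) (nat_lit 11439566246448171)) (.cons (.kr (nat_lit 72339069014639104) (nat_lit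 2417851639229258366255104) (nat_lit 1) (nat_lit 0)) (.cons (.rf (nat_lit 1009) (nat_lit 395)) .nil)))))) (.cons (.kr (nat_lit 72339069014639104) (nat_lit 2417851639229258366255104) (nat_lit 1) (nat_lit 0)) (.cons (.rf (nat_lit 1009) (nat_lit 395)) .nil))))))),
 (.br (nat_lit 11) (nat_lit 0) (.cons (.rf (nat_lit 1009) (nat_lit 352)) (.cons (.rf (nat_lit 1058) (nat_lit 407901468851537952)) (.cons (.rf (nat_lit 1058) (nat_lit 407867350672574496)) (.cons (.rf (nat_lit 1058) (nat_lit 407756333455051808)) (.cons (.rf (nat_lit 1058) (nat_lit 407722215276088352)) (.cons (.kr (nat_lit 72339069014639104) (nat_lit 2417851639229258366255104) (nat_lit 1) (nat_lit 0)) (.cons (.rf (nat_lit 1009) (nat_lit 395)) .nil)))))))),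
 (.br (nat_lit 0) (nat_lit 0) (.cons (.rf (nat_lit 1051) (nat_lit 11584701642934304)) (.cons (.rf (nat_lit 1051) (nat_lit 11550583463970848)) (.cons (.br (nat_lit 1) (nat_lit 0) (.cons (.rf (nat_lit 1052) (nat_lit 11584701642934304)) (.cons (.rf (nat_lit 1052) (nat_lit 11550583463970848)) (.cons (.rf (nat_lit 1057) (nat_lit 11584701642934304)) (.cons (.rf (nat_lit 1057) (nat_lit 11550583463970848)) (.cons (.br (nat_lit 4) (nat_lit 0) (.cons (.rf (nat_lit 1016) (nat_lit 279089184)) (.cons (.rf (nat_lit 1032) (nat_lit 291717606579328)) (.cons (.rf (nat_lit 1032) (nat_lit 325802500593792)) (.cons (.rf (nat_lit 1015) (nat_lit 12268612065600)) .nil))))) (.cons (.rf (nat_lit 1059) (nat_lit 407901468851537952)) .nil))))))) (.cons (.rf (nat_lit 1009) (nat_lit 352)) .nil))))),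
 (.br (nat_lit 5) (nat_lit 0) (.cons (.ev (nat_lit 18446745173221244929) (nat_lit 1)) (.cons (.rf (nat_lit 1019) (nat_lit 10976760864)) .nil))),
 (.br (nat_lit 10) (nat_lit 0) (.cons (.br (nat_lit 9) (nat_lit 0) (.cons (.ev (nat_lit 1213648258156192369475841) (nat_lit 1)) (.cons (.rf (nat_lit 1061) (nat_lit 362021891704864)) (.cons (.rf (nat_lit 1019) (nat_lit 11983463456)) .nil)))) (.cons (.br (nat_lit 9) (nat_lit 0) (.cons (.br (nat_lit 5) (nat_lit 0) (.cons (.ev (nat_lit 1208925819615732981367041) (nat_lit 1)) (.cons (.rf (nat_lit 1019) (nat_lit 12084122656)) .nil))) (.cons (.rf (nat_lit 1017) (nat_lit 5641675808)) (.cons (.rf (nat_lit 1019) (nat_lit 12084126752)) .nil)))) (.cons (.kr (nat_lit 1208925819614629174706432) (nat_lit 4722366482873940180992) (nat_lit 1) (nat_lit 0)) (.cons (.rf (nat_lit 1059) (nat_lit 397764929521948992)) .nil))))),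
 (.br (nat_lit 10) (nat_lit 0) (.cons (.rf (nat_lit 1062) (nat_lit 1448162313345344)) (.cons (.kr (nat_lit 72339069014639104) (nat_lit 2417851639229258366255104) (nat_lit 1) (nat_lit 0)) (.cons (.kr (nat_lit 281474976710912) (nat_lit 1208925819614629174771712) (nat_lit 1) (nat_lit 0)) (.cons (.rf (nat_lit 1062) (nat_lit 1275505606335808)) (.cons (.rf (nat_lit 1059) (nat_lit 397764929521948992)) .nil)))))),
 (.br (nat_lit 9) (nat_lit 0) (.cons (.rf (nat_lit 1017) (nat_lit 8768491552)) (.cons (.br (nat_lit 5) (nat_lit 0) (.cons (.ev (nat_lit 9481700488428541510660) (nat_lit 3)) (.cons (.rf (nat_lit 1019) (nat_lit 12090381344)) .nil))) (.cons (.rf (nat_lit 1019) (nat_lit 11989558304)) .nil)))),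
 (.br (nat_lit 5) (nat_lit 0) (.cons (.br (nat_lit 8) (nat_lit 0) (.cons (.kr (nat_lit 18446745173221179394) (nat_lit 620178945462304766624268544) (nat_lit 0) (nat_lit 2)) (.cons (.rf (nat_lit 1021) (nat_lit 12224565280)) .nil))) (.cons (.rf (nat_lit 1021) (nat_lit 12224466976)) .nil))),
 (.br (nat_lit 9) (nat_lit 0) (.cons (.rf (nat_lit 1019) (nat_lit 11989717024)) (.cons (.rf (nat_lit 1019) (nat_lit 12090380320)) (.cons (.br (nat_lit 5) (nat_lit 0) (.cons (.rf (nat_lit 1065) (nat_lit 407901468851537952)) (.cons (.br (nat_lit 5) (nat_lit 0) (.cons (.rf (nat_lit 1065) (nat_lit 407901468851537952)) (.cons (.rf (nat_lit 1021) (nat_lit 12224466976)) .nil))) (.cons (.rf (nat_lit 1021) (nat_lit 12224466976)) .nil)))) (.cons (.rf (nat_lit 1021) (nat_lit 12224598048)) .nil))))),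
 (.br (nat_lit 0) (nat_lit 0) (.cons (.rf (nat_lit 1060) (nat_lit 11584701642934304)) (.cons (.rf (nat_lit 1060) (nat_lit 11439566246448160)) (.cons (.br (nat_lit 1) (nat_lit 0) (.cons (.rf (nat_lit 1062) (nat_lit 11584701642934304)) (.cons (.rf (nat_lit 1063) (nat_lit 11584701642934304)) (.cons (.rf (nat_lit 1063) (nat_lit 11405448067484704)) (.cons (.rf (nat_lit 1062) (nat_lit 11405448067484704)) (.cons (.br (nat_lit 4) (nat_lit 0) (.cons (.rf (nat_lit 1064) (nat_lit 11584701642934304)) (.cons (.rf (nat_lit 1064) (nat_lit 1448162313345344)) (.cons (.rf (nat_lit 1016) (nat_lit 178556960)) (.cons (.rf (nat_lit 1066) (nat_lit 407901468851537952)) .nil))))) (.cons (.rf (nat_lit 1059) (nat_lit 407901468851537952)) .nil))))))) (.cons (.rf (nat_lit 1009) (nat_lit 352)) .nil)))))]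

theorem c32 : chkAll C T R L32 (nat_lit 1047) = true := by decide +kernel

theorem l32 : (nat_lit 1047) + L32.length = (nat_lit 1068) := by decide +kernel

/-- part of the certificates -/
def L33 : List Prf := [(.br (nat_lit 0) (nat_lit 0) (.cons (.rf (nat_lit 1060) (nat_lit 11584701642934304)) (.cons (.br (nat_lit 0) (nat_lit 0) (.cons (.rf (nat_lit 1060) (nat_lit 11584701642934304)) (.cons (.rf (nat_lit 1060) (nat_lit 11439566246448160)) (.cons (.rf (nat_lit 1060) (nat_lit 1448162313345344)) (.cons (.rf (nat_lit 1009) (nat_lit 352)) .nil))))) (.cons (.rf (nat_lit 1067) (nat_lit 11584701642934304)) (.cons (.br (nat_lit 0) (nat_lit 0) (.cons (.rf (nat_lit 1060) (nat_lit 11584701642934304)) (.cons (.rf (nat_lit 1060) (nat_lit 1448162313345344)) (.cons (.rf (nat_lit 1067) (nat_lit 11584701642934304)) (.cons (.rf (nat_lit 1009) (nat_lit 352)) .nil))))) (.cons (.rf (nat_lit 1009) (nat_lit 352)) .nil)))))),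
 (.br (nat_lit 6) (nat_lit 0) (.cons (.rf (nat_lit 0) (nat_lit 2282949928)) (.cons (.br (nat_lit 9) (nat_lit 1) (.cons (.br (nat_lit 7) (nat_lit 0) (.cons (.br (nat_lit 0) (nat_lit 0) (.cons (.rf (nat_lit 1068) (nat_lit 11584701642934304)) (.cons (.rf (nat_lit 1068) (nat_lit 11550583463970848)) (.cons (.rf (nat_lit 1068) (nat_lit 11439566246448160)) (.cons (.rf (nat_lit 1068) (nat_lit 11405448067484704)) (.cons (.br (nat_lit 0) (nat_lit 0) (.cons (.rf (nat_lit 1068) (nat_lit 11584701642934304)) (.cons (.rf (nat_lit 1068) (nat_lit 11550583463970848)) (.cons (.rf (nat_lit 1068) (nat_lit 11439566246448160)) (.cons (.rf (nat_lit 1068) (nat_lit 11405448067484704)) (.cons (.rf (nat_lit 1009) (nat_lit 352)) .nil)))))) (.cons (.rf (nat_lit 1009) (nat_lit 352)) .nil))))))) .nil)) .nil)) .nil))),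
 (.br (nat_lit 4) (nat_lit 1) (.cons (.rf (nat_lit 1) (nat_lit 5343361)) (.cons (.br (nat_lit 6) (nat_lit 1) (.cons (.br (nat_lit 3) (nat_lit 0) (.cons (.rf (nat_lit 1) (nat_lit 4294817)) (.cons (.br (nat_lit 3) (nat_lit 0) (.cons (.rf (nat_lit 1) (nat_lit 4294817)) (.cons (.br (nat_lit 5) (nat_lit 1) (.cons (.rf (nat_lit 792) (nat_lit 7722896449)) (.cons (.br (nat_lit 8) (nat_lit 1) (.cons (.rf (nat_lit 1069) (nat_lit 325702574508064)) (.cons (.rf (nat_lit 1069) (nat_lit 325669256005664)) .nil))) .nil))) .nil))) .nil))) .nil)) .nil))),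
 (.br (nat_lit 8) (nat_lit 0) (.cons (.ev (nat_lit 4722366483973451874561) (nat_lit 1)) (.cons (.rf (nat_lit 1053) (nat_lit 150984375601408)) (.cons (.rf (nat_lit 1019) (nat_lit 12118532128)) .nil)))),
 (.br (nat_lit 8) (nat_lit 0) (.cons (.ev (nat_lit 18446745177516146689) (nat_lit 1)) (.cons (.br (nat_lit 9) (nat_lit 0) (.cons (.ev (nat_lit 4722366483973451808769) (nat_lit 1)) (.cons (.kr (nat_lit 18446744073709551616) (nat_lit 4722366482869645213696) (nat_lit 8) (nat_lit 0)) (.cons (.rf (nat_lit 1021) (nat_lit 11111013408)) .nil)))) (.cons (.rf (nat_lit 1021) (nat_lit 11110980640)) .nil)))),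
 (.br (nat_lit 4) (nat_lit 0) (.cons (.rf (nat_lit 1016) (nat_lit 307499040)) (.cons (.rf (nat_lit 1071) (nat_lit 11584701642934304)) (.cons (.rf (nat_lit 1071) (nat_lit 10493986108180512)) (.cons (.br (nat_lit 8) (nat_lit 0) (.cons (.rf (nat_lit 1019) (nat_lit 12118659104)) (.cons (.rf (nat_lit 1019) (nat_lit 12152213536)) (.cons (.br (nat_lit 9) (nat_lit 0) (.cons (.rf (nat_lit 1072) (nat_lit 12746920901609504)) (.cons (.br (nat_lit 9) (nat_lit 0) (.cons (.rf (nat_lit 1072) (nat_lit 12746920901609504)) (.cons (.rf (nat_lit 1021) (nat_lit 12219355168)) .nil))) (.cons (.rf (nat_lit 1021) (nat_lit 12219355168)) .nil)))) (.cons (.rf (nat_lit 1021) (nat_lit 12219322400)) .nil))))) .nil))))),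
 (.br (nat_lit 8) (nat_lit 0) (.cons (.zr (nat_lit 9463179710921101541377) (nat_lit 144396663069474816) (nat_lit 5) (nat_lit 0)) (.cons (.rf (nat_lit 1022) (nat_lit 378803232)) .nil))),
 (.br (nat_lit 4) (nat_lit 0) (.cons (.rf (nat_lit 1071) (nat_lit 11584701639788672)) (.cons (.rf (nat_lit 1071) (nat_lit 11581369919540352)) (.cons (.br (nat_lit 5) (nat_lit 0) (.cons (.rf (nat_lit 1017) (nat_lit 11047928992)) (.cons (.ev (nat_lit 4722366765444133552129) (nat_lit 1)) (.cons (.rf (nat_lit 1022) (nat_lit 378703904)) .nil)))) (.cons (.br (nat_lit 5) (nat_lit 0) (.cons (.ev (nat_lit 18447028860122956546) (nat_lit 2)) (.cons (.rf (nat_lit 1074) (nat_lit 11584701642934304)) (.cons (.rf (nat_lit 1074) (nat_lit 10493986105034880)) (.cons (.br (nat_lit 8) (nat_lit 0) (.cons (.rf (nat_lit 1022) (nat_lit 378708000)) (.cons (.rf (nat_lit 1022) (nat_lit 379756672)) (.cons (.ev (nat_lit 36965833839290418692) (nat_lit 3)) (.cons (.rf (nat_lit 1048) (nat_lit 13582100333728))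 .nil))))) .nil))))) (.cons (.br (nat_lit 5) (nat_lit 0) (.cons (.rf (nat_lit 1019) (nat_lit 12121575584)) (.cons (.rf (nat_lit 1022) (nat_lit 378672160)) (.cons (.br (nat_lit 8) (nat_lit 0) (.cons (.rf (nat_lit 1022) (nat_lit 378675232)) (.cons (.ev (nat_lit 1208925891954797717749761) (nat_lit 1)) (.cons (.ev (nat_lit 36965833839290418692) (nat_lit 3)) (.cons (.rf (nat_lit 1048) (nat_lit 13582101382272)) .nil))))) (.cons (.br (nat_lit 8) (nat_lit 0) (.cons (.rf (nat_lit 1022) (nat_lit 378675232)) (.cons (.ev (nat_lit 110752805736148960772) (nat_lit 3)) (.cons (.br (nat_lit 9) (nat_lit 0) (.cons (.br (nat_lit 11) (nat_lit 0) (.cons (.ev (nat_lit 2427314818942378491183106) (nat_lit 2)) (.cons (.rf (nat_lit 1009) (nat_lit 395)) .nil))) (.cons (.ev (nat_lit 309485009821346168253186304) (nat_lit 1)) (.cons (.rf (nat_lit 1040) (nat_lit 424438436992)) .nil)))) (.cons (.rf (nat_lit 1037) (nat_lit 424435519520)) .nil))))) (.cons (.rf (nat_lit 1038) (nat_lit 445058400168052768))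 .nil)))))) .nil)))))),
 (.br (nat_lit 9) (nat_lit 0) (.cons (.rf (nat_lit 1027) (nat_lit 389001905408)) (.cons (.ev (nat_lit 4722366765448428519681) (nat_lit 1)) (.cons (.br (nat_lit 8) (nat_lit 0) (.cons (.br (nat_lit 10) (nat_lit 0) (.cons (.rf (nat_lit 1040) (nat_lit 424469073952)) .nil)) (.cons (.rf (nat_lit 1043) (nat_lit 13583144620064)) .nil))) .nil)))),
 (.br (nat_lit 11) (nat_lit 0) (.cons (.ev (nat_lit 1856910077374819992257102342) (nat_lit 3)) (.cons (.rf (nat_lit 1076) (nat_lit 407901468851537952)) (.cons (.rf (nat_lit 1076) (nat_lit 406810753316784160)) (.cons (.rf (nat_lit 1009) (nat_lit 395)) .nil))))),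
 (.br (nat_lit 8) (nat_lit 0) (.cons (.ev (nat_lit 620193149527862079905596160) (nat_lit 2)) (.cons (.rf (nat_lit 1040) (nat_lit 391148373248)) .nil))),
 (.br (nat_lit 11) (nat_lit 0) (.cons (.rf (nat_lit 1076) (nat_lit 407901468851537952)) (.cons (.rf (nat_lit 1076) (nat_lit 407898137131289632)) (.cons (.br (nat_lit 9) (nat_lit 0) (.cons (.rf (nat_lit 1078) (nat_lit 407901468851537952)) (.cons (.rf (nat_lit 1078) (nat_lit 407898137131289632)) (.cons (.kr (nat_lit 4722366482869645213696) (nat_lit 1208925819614629174706176) (nat_lit 9) (nat_lit 0)) (.cons (.br (nat_lit 5) (nat_lit 0) (.cons (.rf (nat_lit 1021) (nat_lit 12222497952)) (.cons (.rf (nat_lit 1040) (nat_lit 13057197355)) (.cons (.br (nat_lit 8) (nat_lit 0) (.cons (.rf (nat_lit 1040) (nat_lit 391182025888)) (.cons (.br (nat_lit 10) (nat_lit 0) (.cons (.ev (nat_lit 476614197032434740400467673090) (nat_lit 3)) .nil)) .nil))) .nil)))) .nil))))) (.cons (.rf (nat_lit 1009) (nat_lit 395)) .nil))))),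
 (.br (nat_lit 8) (nat_lit 0) (.cons (.ev (nat_lit 4740813226943371542529) (nat_lit 1)) (.cons (.rf (nat_lit 1048) (nat_lit 13582104400928)) (.cons (.rf (nat_lit 1037) (nat_lit 424438531232)) (.cons (.rf (nat_lit 1037) (nat_lit 391152439456)) .nil))))),
 (.br (nat_lit 9) (nat_lit 0) (.cons (.br (nat_lit 10) (nat_lit 0) (.cons (.ev (nat_lit 1208925819897207958012161) (nat_lit 1)) .nil)) (.cons (.rf (nat_lit 1043) (nat_lit 13583140525088)) .nil))),
 (.br (nat_lit 9) (nat_lit 0) (.cons (.ev (nat_lit 4740813508422643286273) (nat_lit 1)) (.cons (.br (nat_lit 11) (nat_lit 0) (.cons (.br (nat_lit 10) (nat_lit 0) (.cons (.zr (nat_lit 4854593249074628521888270) (nat_lit 3713820228536611872765575168) (nat_lit 10) (nat_lit 0)) .nil)) (.cons (.rf (nat_lit 1009) (nat_lit 395)) .nil))) .nil))),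
 (.br (nat_lit 8) (nat_lit 0) (.cons (.rf (nat_lit 1037) (nat_lit 424435385600)) (.cons (.rf (nat_lit 1037) (nat_lit 424468940032)) (.cons (.br (nat_lit 11) (nat_lit 0) (.cons (.rf (nat_lit 1081) (nat_lit 14242959524133701664)) (.cons (.rf (nat_lit 1081) (nat_lit 14241868808598947872)) (.cons (.ev (nat_lit 309485009821346172548153344) (nat_lit 1)) .nil)))) (.cons (.br (nat_lit 11) (nat_lit 0) (.cons (.rf (nat_lit 1082) (nat_lit 14242959524133701664)) (.cons (.rf (nat_lit 1082) (nat_lit 14241868808598947872)) (.cons (.rf (nat_lit 1009) (nat_lit 395)) .nil)))) .nil))))),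
 (.br (nat_lit 1) (nat_lit 0) (.cons (.kr (nat_lit 256) (nat_lit 4294967296) (nat_lit 1) (nat_lit 0)) (.cons (.rf (nat_lit 1073) (nat_lit 11584701642934304)) (.cons (.rf (nat_lit 1073) (nat_lit 11581369922685984)) (.cons (.rf (nat_lit 1075) (nat_lit 11584701642934304)) (.cons (.rf (nat_lit 1075) (nat_lit 10493986108180512)) (.cons (.br (nat_lit 4) (nat_lit 0) (.cons (.rf (nat_lit 1073) (nat_lit 11584701639788672)) (.cons (.rf (nat_lit 1073) (nat_lit 11581369919540352)) (.cons (.rf (nat_lit 1075) (nat_lit 11584701639788672)) (.cons (.rf (nat_lit 1075) (nat_lit 10493986105034880)) (.cons (.br (nat_lit 11) (nat_lit 0) (.cons (.rf (nat_lit 1077) (nat_lit 407901468851537952)) (.cons (.rf (nat_lit 1077) (nat_lit 407898137131289632)) (.cons (.rf (nat_lit 1079) (nat_lit 407901468851537952)) (.cons (.rf (nat_lit 1079) (nat_lit 406810753316784160)) (.cons (.rf (nat_lit 1009) (nat_lit 395)) .nil)))))) (.cons (.br (nat_lit 5) (nat_lit 0) (.cons (.rf (nat_lit 1021) (nat_lit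 12222334112)) (.cons (.rf (nat_lit 1080) (nat_lit 14242959524133701664)) (.cons (.rf (nat_lit 1080) (nat_lit 14241868808598947872)) (.cons (.rf (nat_lit 1083) (nat_lit 14242959524133701664)) (.cons (.rf (nat_lit 1083) (nat_lit 13126066816542673024)) .nil)))))) .nil))))))) .nil))))))),
 (.br (nat_lit 8) (nat_lit 0) (.cons (.ev (nat_lit 18447025548686262529) (nat_lit 1)) (.cons (.br (nat_lit 10) (nat_lit 0) (.cons (.ev (nat_lit 1208925819897203663044609) (nat_lit 1)) (.cons (.kr (nat_lit 1208925819614629174706432) (nat_lit 18446745173221179392) (nat_lit 1) (nat_lit 0)) (.cons (.rf (nat_lit 1021) (nat_lit 12219393056)) .nil)))) (.cons (.rf (nat_lit 1021) (nat_lit 12219327520)) .nil)))),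
 (.br (nat_lit 4) (nat_lit 0) (.cons (.br (nat_lit 9) (nat_lit 0) (.cons (.ev (nat_lit 18519083147035934721) (nat_lit 1)) (.cons (.rf (nat_lit 1053) (nat_lit 149880438982944)) (.cons (.rf (nat_lit 1019) (nat_lit 12084978720)) .nil)))) (.cons (.rf (nat_lit 1016) (nat_lit 273977376)) (.cons (.rf (nat_lit 1071) (nat_lit 9369185712965664)) (.cons (.br (nat_lit 9) (nat_lit 0) (.cons (.rf (nat_lit 1019) (nat_lit 12085137440)) (.cons (.rf (nat_lit 1019) (nat_lit 12152246304)) (.cons (.br (nat_lit 8) (nat_lit 0) (.cons (.rf (nat_lit 1085) (nat_lit 407901468851537952)) (.cons (.br (nat_lit 8) (nat_lit 0) (.cons (.rf (nat_lit 1085) (nat_lit 407901468851537952)) (.cons (.rf (nat_lit 1021) (nat_lit 12219322400)) .nil))) (.cons (.rf (nat_lit 1021) (nat_lit 12219322400)) .nil)))) (.cons (.rf (nat_lit 1021) (nat_lit 12219355168)) .nil))))) .nil))))),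
 (.br (nat_lit 4) (nat_lit 0) (.cons (.rf (nat_lit 1086) (nat_lit 11584701639788672)) (.cons (.br (nat_lit 5) (nat_lit 0) (.cons (.ev (nat_lit 4740885566016664436993) (nat_lit 1)) (.cons (.rf (nat_lit 1033) (nat_lit 292787018991648)) (.cons (.rf (nat_lit 1022) (nat_lit 377655328)) .nil)))) (.cons (.br (nat_lit 5) (nat_lit 0) (.cons (.ev (nat_lit 9444806998064819012612) (nat_lit 3)) (.cons (.ev (nat_lit 28334271803643560132612) (nat_lit 3)) (.cons (.rf (nat_lit 1019) (nat_lit 12089070720)) .nil)))) (.cons (.br (nat_lit 5) (nat_lit 0) (.cons (.ev (nat_lit 18447025552981229569) (nat_lit 1)) (.cons (.br (nat_lit 8) (nat_lit 0) (.cons (.ev (nat_lit 1213648186380073325101313) (nat_lit 1)) (.cons (.rf (nat_lit 1019) (nat_lit 12156280992)) .nil))) (.cons (.rf (nat_lit 1033) (nat_lit 360952311777408)) (.cons (.br (nat_lit 9) (nat_lit 0) (.cons (.ev (nat_lit 18519083142740967681) (nat_lit 1)) (.cons (.rf (nat_lit 1022) (nat_lit 379757696)) (.cons (.br (nat_lit 8) (nat_lit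 0) (.cons (.ev (nat_lit 1213648186098602643292161) (nat_lit 1)) (.cons (.br (nat_lit 10) (nat_lit 0) (.cons (.ev (nat_lit 7263036616487327859278852) (nat_lit 3)) (.cons (.rf (nat_lit 1040) (nat_lit 424473134240)) .nil))) (.cons (.rf (nat_lit 1040) (nat_lit 424405930144)) .nil)))) (.cons (.rf (nat_lit 1048) (nat_lit 13581026624672)) .nil))))) .nil))))) (.cons (.br (nat_lit 8) (nat_lit 0) (.cons (.rf (nat_lit 1022) (nat_lit 377623584)) (.cons (.ev (nat_lit 18519083142740967681) (nat_lit 1)) (.cons (.br (nat_lit 5) (nat_lit 0) (.cons (.rf (nat_lit 1019) (nat_lit 12089069728)) (.cons (.br (nat_lit 9) (nat_lit 0) (.cons (.rf (nat_lit 1054) (nat_lit 383670063136)) (.cons (.rf (nat_lit 1048) (nat_lit 13581027673216)) .nil))) (.cons (.br (nat_lit 9) (nat_lit 0) (.cons (.rf (nat_lit 1054) (nat_lit 387964899360)) (.cons (.br (nat_lit 11) (nat_lit 0) (.cons (.zr (nat_lit 18447308136093057027) (nat_lit 618979464447713470777984256) (nat_lit 5) (nat_lit 4)) (.cons (.rf (nat_lit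 1009) (nat_lit 395)) .nil))) (.cons (.rf (nat_lit 1037) (nat_lit 424401997856)) .nil)))) (.cons (.rf (nat_lit 1055) (nat_lit 12512657707040)) .nil))))) (.cons (.br (nat_lit 5) (nat_lit 0) (.cons (.rf (nat_lit 1019) (nat_lit 12089069728)) (.cons (.br (nat_lit 9) (nat_lit 0) (.cons (.ev (nat_lit 1208925891954797717749761) (nat_lit 1)) (.cons (.rf (nat_lit 1025) (nat_lit 407867350672574496)) (.cons (.rf (nat_lit 1040) (nat_lit 391115739424)) .nil)))) (.cons (.br (nat_lit 9) (nat_lit 0) (.cons (.br (nat_lit 10) (nat_lit 0) (.cons (.ev (nat_lit 1856928985360961613014042118) (nat_lit 3)) (.cons (.rf (nat_lit 1040) (nat_lit 424469103744)) .nil))) (.cons (.rf (nat_lit 1027) (nat_lit 388972580896)) (.cons (.rf (nat_lit 1040) (nat_lit 391115739424)) .nil)))) (.cons (.rf (nat_lit 1040) (nat_lit 391119933600)) .nil))))) (.cons (.rf (nat_lit 1040) (nat_lit 424405931136)) .nil)))))) .nil)))))),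
 (.br (nat_lit 4) (nat_lit 0) (.cons (.rf (nat_lit 1016) (nat_lit 278040608)) (.cons (.rf (nat_lit 1087) (nat_lit 11584701639788672)) (.cons (.br (nat_lit 5) (nat_lit 0) (.cons (.br (nat_lit 8) (nat_lit 0) (.cons (.ev (nat_lit 73860441289647392260) (nat_lit 3)) (.cons (.rf (nat_lit 1019) (nat_lit 12156280864)) .nil))) (.cons (.ev (nat_lit 4835703350802009647415812) (nat_lit 3)) (.cons (.rf (nat_lit 1019) (nat_lit 12156277792)) .nil)))) (.cons (.br (nat_lit 5) (nat_lit 0) (.cons (.rf (nat_lit 1019) (nat_lit 12089200672)) (.cons (.ev (nat_lit 28334271803634970198532) (nat_lit 3)) (.cons (.ev (nat_lit 9444806998073408946692) (nat_lit 3)) (.cons (.rf (nat_lit 1021) (nat_lit 12223418400)) .nil))))) .nil))))),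
 (.br (nat_lit 5) (nat_lit 0) (.cons (.rf (nat_lit 1054) (nat_lit 243880069152)) (.cons (.rf (nat_lit 1048) (nat_lit 9043191170112)) .nil))),
 (.br (nat_lit 4) (nat_lit 0) (.cons (.rf (nat_lit 1071) (nat_lit 9369185709820032)) (.cons (.rf (nat_lit 1087) (nat_lit 11584701639788672)) (.cons (.rf (nat_lit 1088) (nat_lit 11584701639788672)) (.cons (.br (nat_lit 5) (nat_lit 0) (.cons (.ev (nat_lit 1208925891673322741104641) (nat_lit 1)) (.cons (.rf (nat_lit 1017) (nat_lit 8935048352)) (.cons (.rf (nat_lit 1022) (nat_lit 379752480)) .nil)))) (.cons (.br (nat_lit 10) (nat_lit 0) (.cons (.rf (nat_lit 1022) (nat_lit 379720736)) (.cons (.br (nat_lit 5) (nat_lit 0) (.cons (.rf (nat_lit 1089) (nat_lit 389005086752)) (.cons (.rf (nat_lit 1019) (nat_lit 12156178592)) (.cons (.br (nat_lit 9) (nat_lit 0) (.cons (.rf (nat_lit 1054) (nat_lit 387899887648)) (.cons (.ev (nat_lit 1213648186098598348325121) (nat_lit 1)) (.cons (.rf (nat_lit 1037) (nat_lit 424469106720)) .nil))))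 (.cons (.rf (nat_lit 1055) (nat_lit 12512592695328)) .nil))))) (.cons (.rf (nat_lit 1022) (nat_lit 379724832)) (.cons (.br (nat_lit 5) (nat_lit 0) (.cons (.br (nat_lit 8) (nat_lit 0) (.cons (.rf (nat_lit 1022) (nat_lit 377627808)) (.cons (.ev (nat_lit 1208944483379217069965570) (nat_lit 2)) (.cons (.rf (nat_lit 1040) (nat_lit 424406058112)) .nil)))) (.cons (.ev (nat_lit 1213648186380077620068353) (nat_lit 1)) (.cons (.br (nat_lit 9) (nat_lit 0) (.cons (.ev (nat_lit 1213648186098598348325121) (nat_lit 1)) (.cons (.kr (nat_lit 2417851711568335953985538) (nat_lit 618979464375655876756832768) (nat_lit 0) (nat_lit 5)) (.cons (.rf (nat_lit 1040) (nat_lit 391182848288)) .nil)))) (.cons (.rf (nat_lit 1040) (nat_lit 391187042464)) .nil))))) (.cons (.rf (nat_lit 1040) (nat_lit 424473040000)) .nil)))))) .nil)))))),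
 (.br (nat_lit 4) (nat_lit 0) (.cons (.br (nat_lit 6) (nat_lit 0) (.cons (.br (nat_lit 8) (nat_lit 0) .nil) .nil)) .nil)),
 (.br (nat_lit 4) (nat_lit 0) (.cons (.br (nat_lit 4) (nat_lit 0) (.cons (.rf (nat_lit 1091) (nat_lit 214920431648)) .nil)) (.cons (.rf (nat_lit 1091) (nat_lit 213846689824)) .nil))),
 (.br (nat_lit 11) (nat_lit 0) (.cons (.rf (nat_lit 1076) (nat_lit 11584701642934315)) (.cons (.rf (nat_lit 1092) (nat_lit 12121706528)) (.cons (.rf (nat_lit 1076) (nat_lit 9335100852504619)) (.cons (.rf (nat_lit 1009) (nat_lit 395)) .nil))))),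
 (.br (nat_lit 10) (nat_lit 0) (.cons (.ev (nat_lit 620193131009345177046221056) (nat_lit 2)) (.cons (.rf (nat_lit 1040) (nat_lit 424473169952)) .nil))),
 (.br (nat_lit 11) (nat_lit 0) (.cons (.rf (nat_lit 1084) (nat_lit 11584701642934315)) (.cons (.br (nat_lit 5) (nat_lit 0) (.cons (.ev (nat_lit 4740813226943371542529) (nat_lit 1)) (.cons (.rf (nat_lit 1094) (nat_lit 407901468851537952)) (.cons (.br (nat_lit 8) (nat_lit 0) (.cons (.rf (nat_lit 1094) (nat_lit 11581369922685995)) (.cons (.rf (nat_lit 1043) (nat_lit 13583108050976)) .nil))) .nil)))) (.cons (.br (nat_lit 5) (nat_lit 0) (.cons (.zr (nat_lit 618970019642690137500092930) (nat_lit 36965829458406670336) (nat_lit 20) (nat_lit 1)) (.cons (.br (nat_lit 8) (nat_lit 0) (.cons (.ev (nat_lit 2427407126689574992413700) (nat_lit 3)) (.cons (.rf (nat_lit 1021) (nat_lit 12223513760)) .nil))) (.cons (.br (nat_lit 8) (nat_lit 0) (.cons (.ev (nat_lit 7281926082981756460793860) (nat_lit 3)) (.cons (.rf (nat_lit 1040)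 (nat_lit 13057197323)) .nil))) (.cons (.br (nat_lit 8) (nat_lit 0) (.cons (.rf (nat_lit 1040) (nat_lit 391114949792)) (.cons (.rf (nat_lit 1021) (nat_lit 413304075)) (.cons (.br (nat_lit 9) (nat_lit 0) (.cons (.rf (nat_lit 1040) (nat_lit 391182058656)) (.cons (.br (nat_lit 10) (nat_lit 0) (.cons (.zr (nat_lit 1109194322423365555023264547840) (nat_lit 2417962538406354580668428) (nat_lit 10) (nat_lit 12)) .nil)) .nil))) .nil)))) .nil))))) (.cons (.rf (nat_lit 1009) (nat_lit 395)) .nil))))),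
 (.br (nat_lit 11) (nat_lit 0) (.cons (.rf (nat_lit 1092) (nat_lit 12121706528)) (.cons (.rf (nat_lit 1095) (nat_lit 407901468851537952)) (.cons (.br (nat_lit 5) (nat_lit 0) (.cons (.br (nat_lit 8) (nat_lit 0) (.cons (.ev (nat_lit 310693954087985250897559808) (nat_lit 1)) (.cons (.rf (nat_lit 1040) (nat_lit 424406061088)) .nil))) (.cons (.ev (nat_lit 309489732187829037881688064) (nat_lit 1)) (.cons (.br (nat_lit 10) (nat_lit 0) (.cons (.br (nat_lit 8) (nat_lit 0) (.cons (.rf (nat_lit 1040) (nat_lit 412595064875)) .nil)) (.cons (.rf (nat_lit 1043) (nat_lit 13581027676192)) .nil))) .nil)))) (.cons (.rf (nat_lit 1009) (nat_lit 395)) .nil))))),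
 (.br (nat_lit 4) (nat_lit 0) (.cons (.rf (nat_lit 1022) (nat_lit 205558880)) (.cons (.rf (nat_lit 1040) (nat_lit 213814182976)) (.cons (.rf (nat_lit 1040) (nat_lit 247100180512)) (.cons (.rf (nat_lit 1055) (nat_lit 6840008213600)) .nil))))),
 (.br (nat_lit 11) (nat_lit 0) (.cons (.br (nat_lit 8) (nat_lit 0) (.cons (.rf (nat_lit 1021) (nat_lit 413271307)) (.cons (.br (nat_lit 10) (nat_lit 0) (.cons (.ev (nat_lit 319405502357734508549137042956) (nat_lit 4)) .nil)) .nil))) (.cons (.ev (nat_lit 309485009821346172548153344) (nat_lit 1)) .nil))),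
 (.br (nat_lit 9) (nat_lit 0) (.cons (.rf (nat_lit 1097) (nat_lit 424304480288)) (.cons (.rf (nat_lit 1097) (nat_lit 424306577440)) (.cons (.br (nat_lit 11) (nat_lit 0) (.cons (.rf (nat_lit 1081) (nat_lit 14242925439273240608)) (.cons (.br (nat_lit 10) (nat_lit 0) (.cons (.rf (nat_lit 1087) (nat_lit 4547652210597195)) (.cons (.rf (nat_lit 1043) (nat_lit 13581026628640)) .nil))) (.cons (.rf (nat_lit 1009) (nat_lit 395)) .nil)))) (.cons (.br (nat_lit 11) (nat_lit 0) (.cons (.rf (nat_lit 1098) (nat_lit 14242959524133701664)) (.cons (.br (nat_lit 11) (nat_lit 0) (.cons (.rf (nat_lit 1098) (nat_lit 14242959524133701664)) (.cons (.rf (nat_lit 1009) (nat_lit 395)) .nil))) (.cons (.rf (nat_lit 1009) (nat_lit 395)) .nil)))) .nil)))))]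

theorem c33 : chkAll C T R L33 (nat_lit 1068) = true := by decide +kernel

theorem l33 : (nat_lit 1068) + L33.length = (nat_lit 1100) := by decide +kernel

/-- part of the certificates -/
def L34 : List Prf := [(.br (nat_lit 1) (nat_lit 0) (.cons (.kr (nat_lit 256) (nat_lit 4294967296) (nat_lit 1) (nat_lit 0)) (.cons (.rf (nat_lit 1086) (nat_lit 11584701642934304)) (.cons (.rf (nat_lit 1087) (nat_lit 11584701642934304)) (.cons (.rf (nat_lit 1088) (nat_lit 11584701642934304)) (.cons (.rf (nat_lit 1090) (nat_lit 11584701642934304)) (.cons (.br (nat_lit 4) (nat_lit 0) (.cons (.rf (nat_lit 1086) (nat_lit 11584701639788672)) (.cons (.rf (nat_lit 1087) (nat_lit 11584701639788672)) (.cons (.rf (nat_lit 1088) (nat_lit 11584701639788672)) (.cons (.rf (nat_lit 1090) (nat_lit 11584701639788672)) (.cons (.br (nat_lit 11) (nat_lit 0) (.cons (.rf (nat_lit 1093) (nat_lit 407901468851537952)) (.cons (.rf (nat_lit 1095) (nat_lit 407901468851537952)) (.cons (.rf (nat_lit 1096)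 (nat_lit 407901468851537952)) (.cons (.br (nat_lit 11) (nat_lit 0) (.cons (.rf (nat_lit 1093) (nat_lit 407901468851537952)) (.cons (.rf (nat_lit 1095) (nat_lit 407901468851537952)) (.cons (.rf (nat_lit 1096) (nat_lit 407901468851537952)) (.cons (.rf (nat_lit 1009) (nat_lit 395)) .nil))))) (.cons (.rf (nat_lit 1009) (nat_lit 395)) .nil)))))) (.cons (.br (nat_lit 5) (nat_lit 0) (.cons (.rf (nat_lit 1097) (nat_lit 424438566944)) (.cons (.rf (nat_lit 1021) (nat_lit 12223382688)) (.cons (.rf (nat_lit 1097) (nat_lit 424440664096)) (.cons (.rf (nat_lit 1099) (nat_lit 14242959524133701664)) (.cons (.rf (nat_lit 1099) (nat_lit 13126066816542673024)) .nil)))))) .nil))))))) .nil))))))),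
 (.br (nat_lit 0) (nat_lit 0) (.cons (.rf (nat_lit 1084) (nat_lit 11584701642934304)) (.cons (.rf (nat_lit 1100) (nat_lit 11584701642934304)) (.cons (.rf (nat_lit 1100) (nat_lit 10493986108180512)) (.cons (.rf (nat_lit 1009) (nat_lit 352)) .nil))))),
 (.br (nat_lit 10) (nat_lit 0) (.cons (.rf (nat_lit 1017) (nat_lit 8767472768)) (.cons (.br (nat_lit 5) (nat_lit 0) (.cons (.ev (nat_lit 1213666632844875409720066) (nat_lit 2)) (.cons (.rf (nat_lit 1019) (nat_lit 12089365632)) .nil))) (.cons (.rf (nat_lit 1019) (nat_lit 11988412544)) .nil)))),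
 (.br (nat_lit 4) (nat_lit 0) (.cons (.br (nat_lit 8) (nat_lit 0) (.cons (.zr (nat_lit 1213648186097503114887425) (nat_lit 72339069031481344) (nat_lit 5) (nat_lit 0)) (.cons (.rf (nat_lit 1022) (nat_lit 374613024)) .nil))) (.cons (.rf (nat_lit 1017) (nat_lit 8768488576)) (.cons (.rf (nat_lit 1022) (nat_lit 374481952)) .nil)))),
 (.br (nat_lit 5) (nat_lit 0) (.cons (.rf (nat_lit 1089) (nat_lit 349275688992)) (.cons (.rf (nat_lit 1022) (nat_lit 340927520)) (.cons (.ev (nat_lit 282578783305729) (nat_lit 1)) (.cons (.rf (nat_lit 1040) (nat_lit 388871790720)) .nil))))),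
 (.br (nat_lit 9) (nat_lit 0) (.cons (.rf (nat_lit 1102) (nat_lit 11584701642934304)) (.cons (.rf (nat_lit 1103) (nat_lit 11584701642934304)) (.cons (.br (nat_lit 4) (nat_lit 0) (.cons (.br (nat_lit 8) (nat_lit 0) (.cons (.zr (nat_lit 1213648186097503114887425) (nat_lit 72339069031481344) (nat_lit 5) (nat_lit 0)) (.cons (.rf (nat_lit 1022) (nat_lit 374607904)) .nil))) (.cons (.rf (nat_lit 1103) (nat_lit 11581369919540352)) (.cons (.rf (nat_lit 1102) (nat_lit 10493986108180512)) (.cons (.rf (nat_lit 1104) (nat_lit 12746920866973728)) .nil))))) (.cons (.kr (nat_lit 4722366482869645213696) (nat_lit 1208925819614629174706176) (nat_lit 9) (nat_lit 0)) (.cons (.br (nat_lit 10) (nat_lit 0) (.cons (.rf (nat_lit 1019) (nat_lit 11989460096)) (.cons (.rf (nat_lit 1022) (nat_lit 374646816)) (.cons (.rf (nat_lit 1104) (nat_lit 12526911273277760)) (.cons (.br (nat_lit 5) (nat_lit 0) (.cons (.rf (nat_lit 1022) (nat_lit 374640672)) (.cons (.ev (nat_lit 1213648258437667346252033)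 (nat_lit 1)) (.cons (.rf (nat_lit 1101) (nat_lit 4547652211645739)) (.cons (.rf (nat_lit 1040) (nat_lit 424306315552)) .nil))))) (.cons (.rf (nat_lit 1097) (nat_lit 424267524384)) .nil)))))) .nil)))))),
 (.br (nat_lit 4) (nat_lit 0) (.cons (.rf (nat_lit 1105) (nat_lit 11584701639788672)) (.cons (.rf (nat_lit 1105) (nat_lit 11581369919540352)) (.cons (.kr (nat_lit 1208925819614629174706432) (nat_lit 4722366482873940180992) (nat_lit 1) (nat_lit 0)) (.cons (.rf (nat_lit 1066) (nat_lit 406810753316784160)) .nil))))),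
 (.br (nat_lit 5) (nat_lit 0) (.cons (.ev (nat_lit 4722366765448428519681) (nat_lit 1)) (.cons (.ev (nat_lit 1208925819897207958012161) (nat_lit 1)) (.cons (.rf (nat_lit 1101) (nat_lit 11584701642934315)) (.cons (.br (nat_lit 8) (nat_lit 0) (.cons (.ev (nat_lit 4740885284541687660801) (nat_lit 1)) (.cons (.ev (nat_lit 1208944338416301217153281) (nat_lit 1)) (.cons (.rf (nat_lit 1101) (nat_lit 11581369922685995)) (.cons (.br (nat_lit 12) (nat_lit 0) (.cons (.rf (nat_lit 1021) (nat_lit 377529516)) (.cons (.rf (nat_lit 1021) (nat_lit 377530540)) (.cons (.rf (nat_lit 1009) (nat_lit 395)) .nil)))) .nil))))) .nil))))),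
 (.br (nat_lit 5) (nat_lit 0) (.cons (.rf (nat_lit 1107) (nat_lit 407901468851537952)) (.cons (.rf (nat_lit 1105) (nat_lit 4547652211645728)) (.cons (.rf (nat_lit 1105) (nat_lit 4547652210597184)) (.cons (.rf (nat_lit 1101) (nat_lit 11584701642934315)) (.cons (.br (nat_lit 5) (nat_lit 0) (.cons (.rf (nat_lit 1107) (nat_lit 407901468851537952)) (.cons (.rf (nat_lit 1040) (nat_lit 424306577440)) (.cons (.rf (nat_lit 1040) (nat_lit 424305561632)) (.cons (.rf (nat_lit 1101) (nat_lit 11584701642934315)) .nil))))) .nil)))))),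
 (.br (nat_lit 11) (nat_lit 0) (.cons (.br (nat_lit 5) (nat_lit 0) (.cons (.ev (nat_lit 2487978781573346371805580800) (nat_lit 4)) (.cons (.br (nat_lit 8) (nat_lit 0) (.cons (.ev (nat_lit 318155444707534996124169601540) (nat_lit 3)) .nil)) .nil))) (.cons (.rf (nat_lit 1009) (nat_lit 395)) .nil))),
 (.br (nat_lit 10) (nat_lit 0) (.cons (.rf (nat_lit 1097) (nat_lit 424435585056)) (.cons (.rf (nat_lit 1097) (nat_lit 424438730784)) (.cons (.rf (nat_lit 1108) (nat_lit 400861154272057632)) (.cons (.br (nat_lit 11) (nat_lit 0) (.cons (.rf (nat_lit 1109) (nat_lit 14242959524133701664)) (.cons (.rf (nat_lit 1109) (nat_lit 14242956192413453344)) (.cons (.rf (nat_lit 1009) (nat_lit 395)) .nil)))) .nil))))),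
 (.br (nat_lit 0) (nat_lit 0) (.cons (.rf (nat_lit 1101) (nat_lit 11584701642934304)) (.cons (.rf (nat_lit 1101) (nat_lit 11581369922685984)) (.cons (.br (nat_lit 1) (nat_lit 0) (.cons (.kr (nat_lit 256) (nat_lit 4294967296) (nat_lit 1) (nat_lit 0)) (.cons (.rf (nat_lit 1105) (nat_lit 11584701642934304)) (.cons (.rf (nat_lit 1105) (nat_lit 11581369922685984)) (.cons (.rf (nat_lit 1106) (nat_lit 11584701642934304)) (.cons (.rf (nat_lit 1106) (nat_lit 10493986108180512)) (.cons (.br (nat_lit 4) (nat_lit 0) (.cons (.rf (nat_lit 1105) (nat_lit 11584701639788672)) (.cons (.rf (nat_lit 1105) (nat_lit 11581369919540352)) (.cons (.rf (nat_lit 1066) (nat_lit 406810753313638528)) (.cons (.rf (nat_lit 1066) (nat_lit 407901468848392320)) (.cons (.rf (nat_lit 1108) (nat_lit 407901468851537952)) (.cons (.br (nat_lit 9) (nat_lit 0) (.cons (.rf (nat_lit 1097) (nat_lit 424469106720)) (.cons (.rf (nat_lit 1097) (nat_lit 424472252448)) (.cons (.kr (nat_lit 4722366482869645213696)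 (nat_lit 1208925819614629174706176) (nat_lit 9) (nat_lit 0)) (.cons (.rf (nat_lit 1110) (nat_lit 14242959524133701664)) (.cons (.rf (nat_lit 1110) (nat_lit 13126066816542673024)) .nil)))))) .nil))))))) .nil))))))) (.cons (.rf (nat_lit 1009) (nat_lit 352)) .nil))))),
 (.br (nat_lit 0) (nat_lit 0) (.cons (.rf (nat_lit 1101) (nat_lit 11584701642934304)) (.cons (.rf (nat_lit 1101) (nat_lit 11581369922685984)) (.cons (.rf (nat_lit 1111) (nat_lit 11584701642934304)) (.cons (.rf (nat_lit 1111) (nat_lit 10493986108180512)) (.cons (.rf (nat_lit 1009) (nat_lit 352)) .nil)))))),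
 (.br (nat_lit 8) (nat_lit 0) (.cons (.ev (nat_lit 4722366483973451874561) (nat_lit 1)) (.cons (.zr (nat_lit 18446745173221179905) (nat_lit 281483583422464) (nat_lit 5) (nat_lit 0)) (.cons (.rf (nat_lit 1022) (nat_lit 373560352)) .nil)))),
 (.br (nat_lit 5) (nat_lit 0) (.cons (.rf (nat_lit 1019) (nat_lit 6513792096)) (.cons (.rf (nat_lit 1019) (nat_lit 7587533920)) (.cons (.rf (nat_lit 1019) (nat_lit 6681692256)) .nil)))),
 (.br (nat_lit 8) (nat_lit 0) (.cons (.rf (nat_lit 1019) (nat_lit 12156309760)) (.cons (.kr (nat_lit 2417851639229258349412864) (nat_lit 18446745173238022144) (nat_lit 1) (nat_lit 0)) (.cons (.br (nat_lit 9) (nat_lit 0) (.cons (.kr (nat_lit 2417851639229258349412608) (nat_lit 4722438540463683207168) (nat_lit 1) (nat_lit 0)) (.cons (.br (nat_lit 10) (nat_lit 0) (.cons (.ev (nat_lit 1859327910640206087729645062) (nat_lit 3)) (.cons (.rf (nat_lit 1040) (nat_lit 424473167104)) .nil))) (.cons (.rf (nat_lit 1040) (nat_lit 390984668448)) .nil))))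 (.cons (.rf (nat_lit 1040) (nat_lit 390985716992)) .nil))))),
 (.br (nat_lit 4) (nat_lit 0) (.cons (.rf (nat_lit 1113) (nat_lit 11584701642934304)) (.cons (.rf (nat_lit 1113) (nat_lit 11581369922685984)) (.cons (.zr (nat_lit 4722366482869645214465) (nat_lit 8606777344) (nat_lit 5) (nat_lit 0)) (.cons (.br (nat_lit 5) (nat_lit 0) (.cons (.br (nat_lit 9) (nat_lit 0) (.cons (.ev (nat_lit 2422610900044708950573826) (nat_lit 2)) (.cons (.rf (nat_lit 1019) (nat_lit 11953808544)) .nil))) (.cons (.br (nat_lit 8) (nat_lit 0) (.cons (.ev (nat_lit 1213648186380073325101313) (nat_lit 1)) (.cons (.rf (nat_lit 1019) (nat_lit 11954856096)) .nil))) (.cons (.br (nat_lit 8) (nat_lit 0) (.cons (.ev (nat_lit 1213666633123047506182401) (nat_lit 1)) (.cons (.rf (nat_lit 1089) (nat_lit 382564737056)) .nil))) (.cons (.br (nat_lit 8) (nat_lit 0) (.cons (.rf (nat_lit 1019) (nat_lit 11954853120)) (.cons (.rf (nat_lit 1089) (nat_lit 382564832288)) (.cons (.br (nat_lit 9) (nat_lit 0) (.cons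 (.rf (nat_lit 1054) (nat_lit 387960804384)) (.cons (.br (nat_lit 11) (nat_lit 0) (.cons (.ev (nat_lit 2427314818942378491183106) (nat_lit 2)) (.cons (.rf (nat_lit 1009) (nat_lit 395)) .nil))) (.cons (.rf (nat_lit 1097) (nat_lit 424400692384)) .nil)))) (.cons (.rf (nat_lit 1097) (nat_lit 424434245792)) .nil))))) .nil))))) (.cons (.br (nat_lit 5) (nat_lit 0) (.cons (.rf (nat_lit 1114) (nat_lit 12121706528)) (.cons (.rf (nat_lit 1114) (nat_lit 12089200672)) (.cons (.rf (nat_lit 1115) (nat_lit 407901468851537952)) (.cons (.br (nat_lit 8) (nat_lit 0) (.cons (.rf (nat_lit 1019) (nat_lit 11954853120)) (.cons (.rf (nat_lit 1115) (nat_lit 407898137131289632)) (.cons (.br (nat_lit 11) (nat_lit 0) (.cons (.ev (nat_lit 1856928966986555500217565190) (nat_lit 3)) (.cons (.ev (nat_lit 1856910169680876131317776902) (nat_lit 3)) (.cons (.rf (nat_lit 1009) (nat_lit 395)) .nil)))) (.cons (.rf (nat_lit 1040) (nat_lit 390985716992)) .nil))))) (.cons (.rf (nat_lit 1040) (nat_lit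 390985719968)) .nil)))))) .nil)))))),
 (.br (nat_lit 9) (nat_lit 0) (.cons (.br (nat_lit 8) (nat_lit 0) (.cons (.rf (nat_lit 1017) (nat_lit 10877181984)) (.cons (.rf (nat_lit 1061) (nat_lit 325802400090144)) (.cons (.rf (nat_lit 1019) (nat_lit 11950923808)) .nil)))) (.cons (.kr (nat_lit 4722366482869645213952) (nat_lit 18446745173221179392) (nat_lit 1) (nat_lit 0)) (.cons (.rf (nat_lit 1116) (nat_lit 4547652211645728)) (.cons (.br (nat_lit 8) (nat_lit 0) (.cons (.rf (nat_lit 1019) (nat_lit 11950892064)) (.cons (.rf (nat_lit 1019) (nat_lit 12152218656)) (.cons (.br (nat_lit 10) (nat_lit 0) (.cons (.br (nat_lit 10) (nat_lit 0) (.cons (.rf (nat_lit 1112) (nat_lit 4544387063453995)) (.cons (.rf (nat_lit 1021) (nat_lit 12219392032)) .nil))) (.cons (.rf (nat_lit 1112) (nat_lit 4544387063453995)) (.cons (.rf (nat_lit 1021) (nat_lit 12219392032)) .nil)))) (.cons (.rf (nat_lit 1021) (nat_lit 13259546656)) .nil))))) .nil))))),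
 (.br (nat_lit 4) (nat_lit 0) (.cons (.ev (nat_lit 18446747372261409282) (nat_lit 2)) (.cons (.br (nat_lit 8) (nat_lit 0) (.cons (.zr (nat_lit 9463179710921101541377) (nat_lit 144396663069474816) (nat_lit 5) (nat_lit 0)) (.cons (.rf (nat_lit 1019) (nat_lit 11954987040)) .nil))) (.cons (.rf (nat_lit 1114) (nat_lit 12089069728)) .nil)))),
 (.br (nat_lit 8) (nat_lit 0) (.cons (.zr (nat_lit 4740813228042866393345) (nat_lit 2417851639229266939346944) (nat_lit 5) (nat_lit 0)) (.cons (.rf (nat_lit 1022) (nat_lit 373564576)) .nil))),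
 (.br (nat_lit 9) (nat_lit 0) (.cons (.br (nat_lit 5) (nat_lit 0) (.cons (.rf (nat_lit 1119) (nat_lit 11584701642934304)) (.cons (.ev (nat_lit 4759260252492091360002) (nat_lit 2)) (.cons (.rf (nat_lit 1119) (nat_lit 4547652211645728)) (.cons (.rf (nat_lit 1104) (nat_lit 12676413778893856)) .nil))))) (.cons (.rf (nat_lit 1117) (nat_lit 4547652211645728)) (.cons (.rf (nat_lit 1117) (nat_lit 4544387063453984)) (.cons (.zr (nat_lit 14167099448608935641345) (nat_lit 2417851711568327364050944) (nat_lit 5) (nat_lit 0)) (.cons (.br (nat_lit 10) (nat_lit 0) (.cons (.br (nat_lit 5) (nat_lit 0) (.cons (.ev (nat_lit 1208925819897203663044609) (nat_lit 1)) (.cons (.rf (nat_lit 1019) (nat_lit 12155135136)) (.cons (.ev (nat_lit 1213648258437667346252033) (nat_lit 1)) (.cons (.rf (nat_lit 1097) (nat_lit 391120987296)) .nil))))) (.cons (.rf (nat_lit 1022) (nat_lit 379884576)) (.cons (.rf (nat_lit 1022) (nat_lit 379887648)) (.cons (.rf (nat_lit 1112) (nat_lit 4544387063453995))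 (.cons (.rf (nat_lit 1040) (nat_lit 424471991584)) .nil)))))) .nil)))))),
 (.br (nat_lit 11) (nat_lit 0) (.cons (.rf (nat_lit 1112) (nat_lit 11584701642934315)) (.cons (.rf (nat_lit 1092) (nat_lit 12117611552)) (.cons (.rf (nat_lit 1112) (nat_lit 4544387063453995)) (.cons (.rf (nat_lit 1009) (nat_lit 395)) .nil))))),
 (.br (nat_lit 11) (nat_lit 0) (.cons (.ev (nat_lit 1240357890998641858777121792) (nat_lit 3)) (.cons (.ev (nat_lit 1856910077736515328790365190) (nat_lit 3)) (.cons (.rf (nat_lit 1009) (nat_lit 395)) .nil)))),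
 (.br (nat_lit 4) (nat_lit 0) (.cons (.rf (nat_lit 1097) (nat_lit 424400823328)) (.cons (.rf (nat_lit 1097) (nat_lit 424300258336)) (.cons (.rf (nat_lit 1112) (nat_lit 11584701642934315)) (.cons (.br (nat_lit 10) (nat_lit 0) (.cons (.rf (nat_lit 1097) (nat_lit 424407114784)) (.cons (.rf (nat_lit 1097) (nat_lit 424306549792)) (.cons (.br (nat_lit 5) (nat_lit 0) (.cons (.rf (nat_lit 1021) (nat_lit 12222334112)) (.cons (.rf (nat_lit 1122) (nat_lit 14242959524133701664)) (.cons (.rf (nat_lit 1122) (nat_lit 13119029767114530080)) .nil)))) (.cons (.rf (nat_lit 1021) (nat_lit 379626636)) .nil))))) .nil))))),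
 (.br (nat_lit 1) (nat_lit 0) (.cons (.rf (nat_lit 1116) (nat_lit 11584701642934304)) (.cons (.rf (nat_lit 1117) (nat_lit 11584701642934304)) (.cons (.rf (nat_lit 1117) (nat_lit 11581369922685984)) (.cons (.br (nat_lit 5) (nat_lit 0) (.cons (.rf (nat_lit 1118) (nat_lit 11584701642934304)) (.cons (.ev (nat_lit 110754494560239551492) (nat_lit 3)) (.cons (.rf (nat_lit 1118) (nat_lit 4547652211645728)) (.cons (.br (nat_lit 8) (nat_lit 0) (.cons (.rf (nat_lit 1019) (nat_lit 11955082272)) (.cons (.rf (nat_lit 1019) (nat_lit 12156408864)) (.cons (.ev (nat_lit 18446747372261409282) (nat_lit 2)) (.cons (.rf (nat_lit 1021) (nat_lit 12223517728)) .nil))))) .nil))))) (.cons (.rf (nat_lit 1120) (nat_lit 11584701642934304)) (.cons (.br (nat_lit 9) (nat_lit 0) (.cons (.rf (nat_lit 1120) (nat_lit 4547652211645728)) (.cons (.rf (nat_lit 1117) (nat_lit 4547652211645728)) (.cons (.rf (nat_lit 1117) (nat_lit 4544387063453984)) (.cons (.rf (nat_lit 1116) (nat_lit 4547652211645728))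 (.cons (.br (nat_lit 11) (nat_lit 0) (.cons (.rf (nat_lit 1112) (nat_lit 11584701642934315)) (.cons (.rf (nat_lit 1121) (nat_lit 407901468851537952)) (.cons (.rf (nat_lit 1121) (nat_lit 407898137131289632)) (.cons (.rf (nat_lit 1112) (nat_lit 4544387063453995)) (.cons (.rf (nat_lit 1009) (nat_lit 395)) .nil)))))) (.cons (.br (nat_lit 4) (nat_lit 0) (.cons (.rf (nat_lit 1097) (nat_lit 424400823328)) (.cons (.rf (nat_lit 1097) (nat_lit 424300258336)) (.cons (.rf (nat_lit 1123) (nat_lit 14242959524133701664)) (.cons (.rf (nat_lit 1112) (nat_lit 11584701642934315)) (.cons (.br (nat_lit 4) (nat_lit 0) (.cons (.rf (nat_lit 1040) (nat_lit 424271847456)) (.cons (.rf (nat_lit 1040) (nat_lit 424271942688)) (.cons (.rf (nat_lit 1123) (nat_lit 14242959524133701664)) (.cons (.rf (nat_lit 1112) (nat_lit 11584701642934315)) .nil))))) .nil)))))) .nil))))))) .nil))))))),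
 (.br (nat_lit 0) (nat_lit 0) (.cons (.rf (nat_lit 1112) (nat_lit 11584701642934304)) (.cons (.rf (nat_lit 1124) (nat_lit 11584701642934304)) (.cons (.rf (nat_lit 1124) (nat_lit 10493986108180512)) (.cons (.rf (nat_lit 1009) (nat_lit 352)) .nil))))),
 (.br (nat_lit 0) (nat_lit 0) (.cons (.rf (nat_lit 1112) (nat_lit 11584701642934304)) (.cons (.rf (nat_lit 1125) (nat_lit 11584701642934304)) (.cons (.rf (nat_lit 1112) (nat_lit 4544387063453984)) (.cons (.rf (nat_lit 1009) (nat_lit 352)) .nil))))),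
 (.br (nat_lit 0) (nat_lit 0) (.cons (.rf (nat_lit 1112) (nat_lit 11584701642934304)) (.cons (.rf (nat_lit 1125) (nat_lit 11584701642934304)) (.cons (.rf (nat_lit 1126) (nat_lit 11584701642934304)) (.cons (.rf (nat_lit 1126) (nat_lit 10493986108180512)) (.cons (.rf (nat_lit 1009) (nat_lit 352)) .nil)))))),
 (.br (nat_lit 0) (nat_lit 0) (.cons (.rf (nat_lit 1112) (nat_lit 11584701642934304)) (.cons (.rf (nat_lit 1127) (nat_lit 11584701642934304)) (.cons (.rf (nat_lit 1127) (nat_lit 11581369922685984)) (.cons (.rf (nat_lit 1112) (nat_lit 4544387063453984)) (.cons (.rf (nat_lit 1009) (nat_lit 352)) .nil)))))),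
 (.br (nat_lit 3) (nat_lit 0) (.cons (.rf (nat_lit 2) (nat_lit 7722862721)) (.cons (.br (nat_lit 5) (nat_lit 1) (.cons (.rf (nat_lit 792) (nat_lit 7621089349)) (.cons (.br (nat_lit 7) (nat_lit 0) (.cons (.rf (nat_lit 0) (nat_lit 7789971585)) (.cons (.br (nat_lit 9) (nat_lit 1) (.cons (.br (nat_lit 7) (nat_lit 0) (.cons (.rf (nat_lit 0) (nat_lit 7789971585)) (.cons (.br (nat_lit 8) (nat_lit 1) (.cons (.br (nat_lit 6) (nat_lit 0) (.cons (.br (nat_lit 0) (nat_lit 0) (.cons (.rf (nat_lit 1112) (nat_lit 11584701642934304)) (.cons (.rf (nat_lit 1127) (nat_lit 11584701642934304)) (.cons (.rf (nat_lit 1127) (nat_lit 11581369922685984)) (.cons (.rf (nat_lit 1128) (nat_lit 11584701642934304)) (.cons (.rf (nat_lit 1128) (nat_lit 10493986108180512)) (.cons (.rf (nat_lit 1009) (nat_lit 352)) .nil))))))) .nil)) .nil)) .nil))) .nil)) .nil))) .nil))) .nil))),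
 (.br (nat_lit 8) (nat_lit 0) (.cons (.ev (nat_lit 2422629346226932201553922) (nat_lit 2)) (.cons (.rf (nat_lit 1089) (nat_lit 382597242912)) .nil))),
 (.br (nat_lit 4) (nat_lit 0) (.cons (.kr (nat_lit 65536) (nat_lit 4294967296) (nat_lit 2) (nat_lit 0)) (.cons (.kr (nat_lit 281474993553408) (nat_lit 72057602627862528) (nat_lit 2) (nat_lit 0)) (.cons (.br (nat_lit 9) (nat_lit 0) (.cons (.rf (nat_lit 1130) (nat_lit 11584701642934304)) (.cons (.rf (nat_lit 1130) (nat_lit 5781308417707264)) (.cons (.br (nat_lit 5) (nat_lit 0) (.cons (.ev (nat_lit 1208962713384251620852482) (nat_lit 2)) (.cons (.rf (nat_lit 1089) (nat_lit 382530294816)) .nil))) (.cons (.rf (nat_lit 1070) (nat_lit 269716779)) .nil))))) (.cons (.br (nat_lit 5) (nat_lit 0) (.cons (.rf (nat_lit 1017) (nat_lit 9806611616)) (.cons (.br (nat_lit 8) (nat_lit 0) (.cons (.zr (nat_lit 1208944266359802395885825) (nat_lit 72339069031481344) (nat_lit 5) (nat_lit 0)) (.cons (.rf (nat_lit 1022) (nat_lit 373565472))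 .nil))) (.cons (.rf (nat_lit 1022) (nat_lit 373467168)) .nil)))) (.cons (.rf (nat_lit 1070) (nat_lit 169019531)) .nil)))))),
 (.br (nat_lit 0) (nat_lit 0) (.cons (.rf (nat_lit 1070) (nat_lit 169019520)) (.cons (.rf (nat_lit 1070) (nat_lit 269716768)) (.cons (.br (nat_lit 4) (nat_lit 0) (.cons (.rf (nat_lit 1131) (nat_lit 11584701642934304)) (.cons (.rf (nat_lit 1131) (nat_lit 9334963279464608)) (.cons (.rf (nat_lit 1131) (nat_lit 5947501400135936)) (.cons (.br (nat_lit 4) (nat_lit 0) (.cons (.rf (nat_lit 1131) (nat_lit 11584701642934304)) (.cons (.rf (nat_lit 1131) (nat_lit 9334963279464608)) (.cons (.rf (nat_lit 1131) (nat_lit 5947501400135936)) (.cons (.rf (nat_lit 1131) (nat_lit 1448162313345344)) (.cons (.rf (nat_lit 1070) (nat_lit 169019531)) .nil)))))) (.cons (.rf (nat_lit 1131) (nat_lit 1448162313345344)) (.cons (.rf (nat_lit 1070) (nat_lit 169019531)) .nil))))))) (.cons (.rf (nat_lit 1009) (nat_lit 352)) .nil)))))]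

theorem c34 : chkAll C T R L34 (nat_lit 1100) = true := by decide +kernel

theorem l34 : (nat_lit 1100) + L34.length = (nat_lit 1133) := by decide +kernel

/-- part of the certificates -/
def L35 : List Prf := [(.br (nat_lit 0) (nat_lit 0) (.cons (.rf (nat_lit 1070) (nat_lit 169019520)) (.cons (.rf (nat_lit 1132) (nat_lit 11584701642934304)) (.cons (.rf (nat_lit 1070) (nat_lit 269716768)) (.cons (.rf (nat_lit 1132) (nat_lit 9334963279464608)) (.cons (.rf (nat_lit 1009) (nat_lit 352)) .nil)))))),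
 (.br (nat_lit 9) (nat_lit 1) (.cons (.br (nat_lit 7) (nat_lit 0) (.cons (.rf (nat_lit 0) (nat_lit 3490941092)) (.cons (.br (nat_lit 4) (nat_lit 1) (.cons (.br (nat_lit 6) (nat_lit 0) (.cons (.br (nat_lit 0) (nat_lit 0) (.cons (.rf (nat_lit 1070) (nat_lit 169019520)) (.cons (.rf (nat_lit 1133) (nat_lit 11550616782473248)) (.cons (.rf (nat_lit 1070) (nat_lit 303271168)) (.cons (.rf (nat_lit 1133) (nat_lit 11405448099990560)) (.cons (.br (nat_lit 0) (nat_lit 0) (.cons (.rf (nat_lit 1070) (nat_lit 169019520)) (.cons (.rf (nat_lit 1133) (nat_lit 11550616782473248)) (.cons (.rf (nat_lit 1070) (nat_lit 303271168)) (.cons (.rf (nat_lit 1133) (nat_lit 11405448099990560)) (.cons (.rf (nat_lit 1009) (nat_lit 352)) .nil)))))) (.cons (.rf (nat_lit 1009) (nat_lit 352)) .nil))))))) .nil)) .nil)) .nil))) (.cons (.rf (nat_lit 1) (nat_lit 1281320)) .nil))),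
 (.br (nat_lit 5) (nat_lit 1) (.cons (.rf (nat_lit 1) (nat_lit 1247396)) (.cons (.br (nat_lit 8) (nat_lit 1) (.cons (.rf (nat_lit 1134) (nat_lit 180533859519520)) (.cons (.rf (nat_lit 1134) (nat_lit 325702574508064)) .nil))) .nil))),
 (.br (nat_lit 0) (nat_lit 0) (.cons (.rf (nat_lit 1009) (nat_lit 32)) (.cons (.br (nat_lit 1) (nat_lit 1) (.cons (.br (nat_lit 1) (nat_lit 1) (.cons (.br (nat_lit 2) (nat_lit 0) (.cons (.br (nat_lit 2) (nat_lit 0) (.cons (.br (nat_lit 2) (nat_lit 1) (.cons (.rf (nat_lit 1070) (nat_lit 172066848)) (.cons (.br (nat_lit 3) (nat_lit 1) (.cons (.br (nat_lit 3) (nat_lit 0) (.cons (.rf (nat_lit 1129) (nat_lit 247132686368)) (.cons (.rf (nat_lit 1129) (nat_lit 247100180512)) (.cons (.br (nat_lit 3) (nat_lit 0) (.cons (.rf (nat_lit 1129) (nat_lit 247132686368)) (.cons (.rf (nat_lit 1129) (nat_lit 247100180512)) (.cons (.br (nat_lit 4) (nat_lit 1) (.cons (.rf (nat_lit 1135) (nat_lit 325702574508064)) (.cons (.br (nat_lit 5) (nat_lit 1)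 (.cons (.rf (nat_lit 1135) (nat_lit 325702542002208)) (.cons (.br (nat_lit 8) (nat_lit 1) (.cons (.br (nat_lit 7) (nat_lit 0) (.cons (.rf (nat_lit 0) (nat_lit 3524495524)) (.cons (.br (nat_lit 9) (nat_lit 1) (.cons (.br (nat_lit 0) (nat_lit 0) (.cons (.rf (nat_lit 1129) (nat_lit 109560694912)) (.cons (.rf (nat_lit 1129) (nat_lit 109559646368)) (.cons (.rf (nat_lit 1129) (nat_lit 76278861056)) (.cons (.rf (nat_lit 1129) (nat_lit 76277812512)) (.cons (.br (nat_lit 0) (nat_lit 0) (.cons (.rf (nat_lit 1129) (nat_lit 109560694912)) (.cons (.rf (nat_lit 1129) (nat_lit 109559646368)) (.cons (.rf (nat_lit 1129) (nat_lit 76278861056)) (.cons (.rf (nat_lit 1129) (nat_lit 76277812512)) (.cons (.rf (nat_lit 1009) (nat_lit 352)) .nil)))))) (.cons (.rf (nat_lit 1009) (nat_lit 352)) .nil))))))) .nil)) .nil))) (.cons (.rf (nat_lit 0) (nat_lit 3490941092)) .nil))) .nil))) .nil))) .nil)))) .nil)))) .nil)) .nil))) .nil)) .nil)) .nil)) .nil)) .nil)))]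

theorem c35 : chkAll C T R L35 (nat_lit 1133) = true := by decide +kernel

theorem l35 : (nat_lit 1133) + L35.length = (nat_lit 1137) := by decide +kernel

end Pool.Agent.H93.Neg.Q13_4_0_3_6_0
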