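import Pool.Agent.H93.Neg.TabQ13_6_0_0_5_2

/-!
Certificates.
-/

set_option autoImplicit false
set_option maxRecDepth 100000
set_option linter.all false

namespace Pool.Agent.H93.Neg.Q13_6_0_0_5_2

/-- part of the certificates -/
def L0 : List Prf := [(.br (nat_lit 3) (nat_lit 0) (.cons (.br (nat_lit 3) (nat_lit 0) .nil) .nil)),
 (.br (nat_lit 3) (nat_lit 0) (.cons (.ev (nat_lit 72339069031481601) (nat_lit 1)) (.cons (.rf (nat_lit 0) (nat_lit 269509)) (.cons (.br (nat_lit 7) (nat_lit 1) (.cons (.br (nat_lit 4) (nat_lit 0) (.cons (.kr (nat_lit 4294967552) (nat_lit 16842752) (nat_lit 1) (nat_lit 0)) (.cons (.rf (nat_lit 0) (nat_lit 302277)) .nil))) (.cons (.br (nat_lit 4) (nat_lit 0) (.cons (.br (nat_lit 4) (nat_lit 0) (.cons (.rf (nat_lit 0) (nat_lit 335045)) .nil)) (.cons (.rf (nat_lit 0) (nat_lit 335045)) .nil))) .nil))) .nil)))),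
 (.br (nat_lit 8) (nat_lit 0) (.cons (.rf (nat_lit 0) (nat_lit 302277)) (.cons (.br (nat_lit 8) (nat_lit 0) (.cons (.rf (nat_lit 0) (nat_lit 335045)) .nil)) .nil))),
 (.br (nat_lit 3) (nat_lit 0) (.cons (.br (nat_lit 7) (nat_lit 1) (.cons (.br (nat_lit 4) (nat_lit 0) (.cons (.kr (nat_lit 4294967552) (nat_lit 16842752) (nat_lit 1) (nat_lit 0)) (.cons (.rf (nat_lit 0) (nat_lit 302277)) .nil))) (.cons (.rf (nat_lit 2) (nat_lit 10142737336352)) .nil))) (.cons (.br (nat_lit 7) (nat_lit 1) (.cons (.br (nat_lit 7) (nat_lit 1) (.cons (.rf (nat_lit 2) (nat_lit 10142737336352)) .nil)) (.cons (.rf (nat_lit 2) (nat_lit 10142737336352)) .nil))) (.cons (.rf (nat_lit 0) (nat_lit 302277)) .nil)))),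
 (.br (nat_lit 4) (nat_lit 0) (.cons (.kr (nat_lit 16777216) (nat_lit 4294967296) (nat_lit 3) (nat_lit 0)) (.cons (.rf (nat_lit 0) (nat_lit 335045)) .nil))),
 (.br (nat_lit 3) (nat_lit 0) (.cons (.br (nat_lit 4) (nat_lit 0) (.cons (.br (nat_lit 4) (nat_lit 0) (.cons (.kr (nat_lit 16777216) (nat_lit 4294967296) (nat_lit 3) (nat_lit 0)) (.cons (.rf (nat_lit 0) (nat_lit 335045)) .nil))) (.cons (.rf (nat_lit 4) (nat_lit 325702574508064)) (.cons (.rf (nat_lit 0) (nat_lit 335045)) .nil)))) (.cons (.rf (nat_lit 0) (nat_lit 335045)) .nil))),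
 (.br (nat_lit 2) (nat_lit 0) (.cons (.kr (nat_lit 256) (nat_lit 65536) (nat_lit 1) (nat_lit 0)) (.cons (.br (nat_lit 3) (nat_lit 0) (.cons (.rf (nat_lit 1) (nat_lit 247132686368)) (.cons (.rf (nat_lit 1) (nat_lit 213846688832)) (.cons (.rf (nat_lit 0) (nat_lit 269509)) (.cons (.br (nat_lit 3) (nat_lit 0) (.cons (.rf (nat_lit 1) (nat_lit 247132686368)) (.cons (.rf (nat_lit 1) (nat_lit 213846688832)) (.cons (.rf (nat_lit 0) (nat_lit 302277)) .nil)))) .nil))))) (.cons (.rf (nat_lit 0) (nat_lit 269509)) (.cons (.br (nat_lit 6) (nat_lit 1) (.cons (.rf (nat_lit 3) (nat_lit 9043225708576)) (.cons (.rf (nat_lit 3) (nat_lit 9043224692768)) (.cons (.br (nat_lit 3) (nat_lit 0) (.cons (.rf (nat_lit 5) (nat_lit 325702574508064)) (.cons (.br (nat_lit 3) (nat_lit 0) (.cons (.rf (nat_lit 5) (nat_lit 325702574508064)) (.cons (.rf (nat_lit 0) (nat_lit 335045)) .nil))) (.cons (.rf (nat_lit 0) (nat_lit 335045)) .nil)))) .nil)))) .nil))))),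
 (.br (nat_lit 4) (nat_lit 0) (.cons (.br (nat_lit 8) (nat_lit 1) (.cons (.br (nat_lit 9) (nat_lit 0) (.cons (.rf (nat_lit 0) (nat_lit 335045)) .nil)) .nil)) (.cons (.rf (nat_lit 0) (nat_lit 302277)) .nil))),
 (.br (nat_lit 4) (nat_lit 0) (.cons (.br (nat_lit 9) (nat_lit 0) (.cons (.ev (nat_lit 18519084242235883776) (nat_lit 1)) (.cons (.rf (nat_lit 0) (nat_lit 335045)) .nil))) (.cons (.rf (nat_lit 0) (nat_lit 335045)) .nil))),
 (.br (nat_lit 6) (nat_lit 1) (.cons (.kr (nat_lit 1099511627776) (nat_lit 281474976710656) (nat_lit 5) (nat_lit 0)) (.cons (.br (nat_lit 7) (nat_lit 1) (.cons (.rf (nat_lit 7) (nat_lit 9043225708576)) (.cons (.rf (nat_lit 7) (nat_lit 9042184505376)) (.cons (.rf (nat_lit 2) (nat_lit 10142735272992)) .nil)))) (.cons (.br (nat_lit 3) (nat_lit 0) (.cons (.rf (nat_lit 2) (nat_lit 10109451306080)) (.cons (.br (nat_lit 4) (nat_lit 0) (.cons (.rf (nat_lit 8) (nat_lit 325702574508064)) (.cons (.br (nat_lit 4) (nat_lit 0) (.cons (.rf (nat_lit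 8) (nat_lit 325702574508064)) (.cons (.rf (nat_lit 0) (nat_lit 335045)) .nil))) (.cons (.rf (nat_lit 0) (nat_lit 335045)) .nil)))) (.cons (.rf (nat_lit 0) (nat_lit 335045)) .nil)))) .nil)))),
 (.br (nat_lit 2) (nat_lit 0) (.cons (.rf (nat_lit 6) (nat_lit 246092498976)) (.cons (.br (nat_lit 2) (nat_lit 0) (.cons (.rf (nat_lit 6) (nat_lit 246092498976)) (.cons (.rf (nat_lit 0) (nat_lit 269509)) (.cons (.rf (nat_lit 9) (nat_lit 9043225708576)) .nil)))) (.cons (.rf (nat_lit 0) (nat_lit 269509)) (.cons (.br (nat_lit 2) (nat_lit 0) (.cons (.rf (nat_lit 6) (nat_lit 246092498976)) (.cons (.rf (nat_lit 9) (nat_lit 9043225708576)) (.cons (.rf (nat_lit 0) (nat_lit 302277)) .nil)))) .nil))))),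
 (.br (nat_lit 3) (nat_lit 0) (.cons (.rf (nat_lit 0) (nat_lit 335045)) (.cons (.br (nat_lit 4) (nat_lit 0) (.cons (.rf (nat_lit 4) (nat_lit 327901597769760)) (.cons (.rf (nat_lit 0) (nat_lit 367813)) .nil))) .nil))),
 (.br (nat_lit 3) (nat_lit 0) (.cons (.rf (nat_lit 11) (nat_lit 325702574508064)) (.cons (.rf (nat_lit 0) (nat_lit 335045)) (.cons (.br (nat_lit 3) (nat_lit 0) (.cons (.rf (nat_lit 11) (nat_lit 325702574508064)) (.cons (.rf (nat_lit 0) (nat_lit 367813)) .nil))) .nil)))),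
 (.br (nat_lit 8) (nat_lit 0) (.cons (.rf (nat_lit 2) (nat_lit 9043225708576)) (.cons (.rf (nat_lit 0) (nat_lit 302277)) (.cons (.br (nat_lit 8) (nat_lit 0) (.cons (.rf (nat_lit 2) (nat_lit 9043225708576)) (.cons (.rf (nat_lit 0) (nat_lit 335045)) .nil))) .nil)))),
 (.br (nat_lit 4) (nat_lit 0) (.cons (.rf (nat_lit 0) (nat_lit 335045)) (.cons (.br (nat_lit 9) (nat_lit 0) (.cons (.rf (nat_lit 12) (nat_lit 283921137929248)) (.cons (.rf (nat_lit 12) (nat_lit 283921137929258)) (.cons (.rf (nat_lit 0) (nat_lit 367813)) .nil)))) .nil))),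
 (.br (nat_lit 4) (nat_lit 0) (.cons (.rf (nat_lit 14) (nat_lit 325702574508064)) (.cons (.rf (nat_lit 0) (nat_lit 335045)) (.cons (.br (nat_lit 4) (nat_lit 0) (.cons (.rf (nat_lit 14) (nat_lit 325702574508064)) (.cons (.rf (nat_lit 0) (nat_lit 367813)) .nil))) .nil)))),
 (.br (nat_lit 4) (nat_lit 0) (.cons (.rf (nat_lit 15) (nat_lit 291617713031200)) (.cons (.rf (nat_lit 0) (nat_lit 335045)) (.cons (.br (nat_lit 4) (nat_lit 0) (.cons (.rf (nat_lit 15) (nat_lit 291617713031200)) (.cons (.rf (nat_lit 0) (nat_lit 367813)) .nil))) .nil)))),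
 (.br (nat_lit 3) (nat_lit 0) (.cons (.rf (nat_lit 13) (nat_lit 9043225708576)) (.cons (.rf (nat_lit 0) (nat_lit 335045)) (.cons (.br (nat_lit 6) (nat_lit 1) (.cons (.kr (nat_lit 1099511627776) (nat_lit 281474976710656) (nat_lit 5) (nat_lit 0)) (.cons (.rf (nat_lit 13) (nat_lit 9043224692768)) (.cons (.rf (nat_lit 15) (nat_lit 325702574508064)) (.cons (.rf (nat_lit 16) (nat_lit 325702574508064)) .nil))))) .nil)))),
 (.br (nat_lit 3) (nat_lit 0) (.cons (.rf (nat_lit 13) (nat_lit 9043225708576)) (.cons (.rf (nat_lit 17) (nat_lit 325702574508064)) (.cons (.rf (nat_lit 0) (nat_lit 335045)) (.cons (.br (nat_lit 3) (nat_lit 0) (.cons (.rf (nat_lit 13) (nat_lit 9043225708576)) (.cons (.rf (nat_lit 17) (nat_lit 325702574508064)) (.cons (.rf (nat_lit 0) (nat_lit 367813)) .nil)))) .nil))))),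
 (.br (nat_lit 8) (nat_lit 0) (.cons (.kr (nat_lit 1099511627776) (nat_lit 281474976710656) (nat_lit 5) (nat_lit 0)) (.cons (.rf (nat_lit 16) (nat_lit 80478194500864)) (.cons (.rf (nat_lit 0) (nat_lit 335045)) (.cons (.br (nat_lit 8) (nat_lit 0) (.cons (.kr (nat_lit 1099511627776) (nat_lit 281474976710656) (nat_lit 5) (nat_lit 0)) (.cons (.rf (nat_lit 16) (nat_lit 80478194500864)) (.cons (.rf (nat_lit 0) (nat_lit 367813)) .nil)))) .nil))))),
 (.br (nat_lit 2) (nat_lit 0) (.cons (.rf (nat_lit 18) (nat_lit 325702574508064)) (.cons (.rf (nat_lit 18) (nat_lit 325701534320672)) (.cons (.rf (nat_lit 0) (nat_lit 335045)) (.cons (.br (nat_lit 5) (nat_lit 1) (.cons (.rf (nat_lit 9) (nat_lit 11242248964128)) (.cons (.rf (nat_lit 9) (nat_lit 11242247948320)) (.cons (.rf (nat_lit 19) (nat_lit 325702574508064)) (.cons (.rf (nat_lit 19) (nat_lit 291617713031200)) .nil))))) .nil))))),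
 (.br (nat_lit 3) (nat_lit 1) (.cons (.br (nat_lit 5) (nat_lit 1) (.cons (.rf (nat_lit 6) (nat_lit 247132686368)) (.cons (.rf (nat_lit 10) (nat_lit 247132686368)) (.cons (.rf (nat_lit 10) (nat_lit 247131670560)) (.cons (.br (nat_lit 6) (nat_lit 1) (.cons (.rf (nat_lit 6) (nat_lit 246092498976)) (.cons (.rf (nat_lit 10) (nat_lit 246092498976)) (.cons (.rf (nat_lit 10) (nat_lit 246091483168)) (.cons (.kr (nat_lit 1099511627776) (nat_lit 281474976710656) (nat_lit 5) (nat_lit 0)) (.cons (.rf (nat_lit 16) (nat_lit 321304525905952)) .nil)))))) .nil))))) (.cons (.br (nat_lit 4) (nat_lit 1) (.cons (.br (nat_lit 2) (nat_lit 0) (.cons (.rf (nat_lit 18) (nat_lit 325702574508064)) (.cons (.rf (nat_lit 18) (nat_lit 325701534320672)) (.cons (.rf (nat_lit 20) (nat_lit 325702574508064)) (.cons (.rf (nat_lit 0) (nat_lit 335045)) (.cons (.br (nat_lit 2) (nat_lit 0) (.cons (.rf (nat_lit 18) (nat_lit 325702574508064)) (.cons (.rf (nat_lit 18) (nat_lit 325701534320672)) (.cons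 (.rf (nat_lit 20) (nat_lit 325702574508064)) (.cons (.rf (nat_lit 0) (nat_lit 367813)) .nil))))) .nil)))))) .nil)) .nil))),
 (.br (nat_lit 8) (nat_lit 0) (.cons (.rf (nat_lit 0) (nat_lit 335045)) (.cons (.br (nat_lit 8) (nat_lit 0) (.cons (.rf (nat_lit 0) (nat_lit 367813)) .nil)) .nil))),
 (.br (nat_lit 4) (nat_lit 0) (.cons (.rf (nat_lit 22) (nat_lit 325702574508064)) (.cons (.rf (nat_lit 0) (nat_lit 335045)) (.cons (.br (nat_lit 4) (nat_lit 0) (.cons (.rf (nat_lit 22) (nat_lit 325702574508064)) (.cons (.rf (nat_lit 0) (nat_lit 367813)) .nil))) .nil)))),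
 (.br (nat_lit 3) (nat_lit 0) (.cons (.rf (nat_lit 23) (nat_lit 325702574508064)) (.cons (.rf (nat_lit 0) (nat_lit 335045)) (.cons (.br (nat_lit 3) (nat_lit 0) (.cons (.rf (nat_lit 23) (nat_lit 325702574508064)) (.cons (.rf (nat_lit 0) (nat_lit 367813)) .nil))) .nil)))),
 (.br (nat_lit 6) (nat_lit 1) (.cons (.kr (nat_lit 1099511627776) (nat_lit 281474976710656) (nat_lit 5) (nat_lit 0)) (.cons (.rf (nat_lit 13) (nat_lit 9043225708576)) (.cons (.rf (nat_lit 13) (nat_lit 9043224692768)) (.cons (.rf (nat_lit 16) (nat_lit 291617713031200)) (.cons (.rf (nat_lit 24) (nat_lit 325702574508064)) .nil)))))),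
 (.br (nat_lit 6) (nat_lit 1) (.cons (.rf (nat_lit 13) (nat_lit 9042184505376)) (.cons (.rf (nat_lit 13) (nat_lit 9042183457824)) (.cons (.kr (nat_lit 1099511627776) (nat_lit 281474976710656) (nat_lit 5) (nat_lit 0)) (.cons (.rf (nat_lit 19) (nat_lit 325701534320672)) (.cons (.rf (nat_lit 24) (nat_lit 325702573428768)) .nil)))))),
 (.br (nat_lit 5) (nat_lit 1) (.cons (.rf (nat_lit 25) (nat_lit 325702574508064)) (.cons (.rf (nat_lit 25) (nat_lit 325702574476320)) (.cons (.rf (nat_lit 26) (nat_lit 325702574508064)) (.cons (.rf (nat_lit 19) (nat_lit 325702574508064)) (.cons (.br (nat_lit 6) (nat_lit 1) (.cons (.rf (nat_lit 24) (nat_lit 325701534320672)) (.cons (.rf (nat_lit 24) (nat_lit 325701534288928)) (.cons (.rf (nat_lit 24) (nat_lit 325701533241376)) (.cons (.rf (nat_lit 19) (nat_lit 325701534320672)) (.cons (.kr (nat_lit 1099511627776) (nat_lit 281474976710656) (nat_lit 5) (nat_lit 0)) .nil)))))) .nil)))))),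
 (.br (nat_lit 2) (nat_lit 0) (.cons (.rf (nat_lit 25) (nat_lit 325702574508064)) (.cons (.rf (nat_lit 25) (nat_lit 325701534320672)) (.cons (.rf (nat_lit 27) (nat_lit 325702574508064)) (.cons (.rf (nat_lit 0) (nat_lit 335045)) (.cons (.br (nat_lit 2) (nat_lit 0) (.cons (.rf (nat_lit 25) (nat_lit 325702574508064)) (.cons (.rf (nat_lit 25) (nat_lit 325701534320672)) (.cons (.rf (nat_lit 27) (nat_lit 325702574508064)) (.cons (.rf (nat_lit 0) (nat_lit 367813)) .nil))))) .nil)))))),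
 (.br (nat_lit 4) (nat_lit 1) (.cons (.rf (nat_lit 28) (nat_lit 325702574508064)) .nil)),
 (.br (nat_lit 1) (nat_lit 1) (.cons (.rf (nat_lit 21) (nat_lit 247132686368)) (.cons (.rf (nat_lit 21) (nat_lit 247132654624)) (.cons (.rf (nat_lit 21) (nat_lit 247131607072)) (.cons (.br (nat_lit 2) (nat_lit 1) (.cons (.rf (nat_lit 29) (nat_lit 9043225708576)) (.cons (.rf (nat_lit 29) (nat_lit 9043224692768)) (.cons (.rf (nat_lit 28) (nat_lit 325702572444704)) .nil)))) .nil))))),
 (.br (nat_lit 2) (nat_lit 0) (.cons (.rf (nat_lit 30) (nat_lit 247132685376)) (.cons (.rf (nat_lit 30) (nat_lit 213846688832)) (.cons (.kr (nat_lit 256) (nat_lit 65536) (nat_lit 1) (nat_lit 0)) (.cons (.rf (nat_lit 0) (nat_lit 302277)) .nil))))),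
 (.br (nat_lit 9) (nat_lit 0) (.cons (.br (nat_lit 9) (nat_lit 0) (.cons (.rf (nat_lit 0) (nat_lit 335045)) .nil)) (.cons (.rf (nat_lit 0) (nat_lit 335045)) .nil))),
 (.br (nat_lit 4) (nat_lit 0) (.cons (.br (nat_lit 4) (nat_lit 0) (.cons (.rf (nat_lit 32) (nat_lit 325702574508064)) (.cons (.rf (nat_lit 0) (nat_lit 335045)) .nil))) (.cons (.rf (nat_lit 32) (nat_lit 325702574508064)) (.cons (.rf (nat_lit 0) (nat_lit 335045)) .nil)))),
 (.br (nat_lit 2) (nat_lit 0) (.cons (.rf (nat_lit 30) (nat_lit 179520504896)) (.cons (.br (nat_lit 6) (nat_lit 1) (.cons (.br (nat_lit 4) (nat_lit 0) (.cons (.rf (nat_lit 30) (nat_lit 179519423616)) (.cons (.kr (nat_lit 4294967552) (nat_lit 16842752) (nat_lit 1) (nat_lit 0)) (.cons (.rf (nat_lit 0) (nat_lit 302277)) .nil)))) (.cons (.rf (nat_lit 33) (nat_lit 325702574508064)) .nil))) (.cons (.rf (nat_lit 0) (nat_lit 302277)) .nil)))),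
 (.br (nat_lit 3) (nat_lit 0) (.cons (.rf (nat_lit 30) (nat_lit 247132652640)) (.cons (.rf (nat_lit 30) (nat_lit 213846656096)) (.cons (.br (nat_lit 2) (nat_lit 0) (.cons (.rf (nat_lit 34) (nat_lit 9043225708576)) (.cons (.rf (nat_lit 34) (nat_lit 9009939712032)) (.cons (.br (nat_lit 2) (nat_lit 0) (.cons (.rf (nat_lit 34) (nat_lit 9043225708576)) (.cons (.rf (nat_lit 34) (nat_lit 9009939712032)) (.cons (.rf (nat_lit 0) (nat_lit 302277)) .nil)))) (.cons (.rf (nat_lit 0) (nat_lit 302277)) .nil))))) (.cons (.rf (nat_lit 0) (nat_lit 302277)) .nil))))),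
 (.br (nat_lit 3) (nat_lit 0) (.cons (.rf (nat_lit 30) (nat_lit 213846656096)) (.cons (.rf (nat_lit 30) (nat_lit 179520472160)) (.cons (.br (nat_lit 4) (nat_lit 0) (.cons (.rf (nat_lit 35) (nat_lit 9043224692768)) (.cons (.rf (nat_lit 35) (nat_lit 9042184504384)) (.cons (.rf (nat_lit 31) (nat_lit 9007857176672)) (.cons (.br (nat_lit 4) (nat_lit 0) (.cons (.rf (nat_lit 35) (nat_lit 9043224692768)) (.cons (.rf (nat_lit 35) (nat_lit 9042184504384)) (.cons (.kr (nat_lit 16777216) (nat_lit 4294967296) (nat_lit 3) (nat_lit 0)) (.cons (.rf (nat_lit 0) (nat_lit 302277)) .nil))))) (.cons (.rf (nat_lit 0) (nat_lit 302277)) .nil)))))) (.cons (.rf (nat_lit 0) (nat_lit 302277)) .nil))))),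
 (.br (nat_lit 2) (nat_lit 0) (.cons (.rf (nat_lit 30) (nat_lit 247132685376)) (.cons (.rf (nat_lit 30) (nat_lit 179520504896)) (.cons (.br (nat_lit 3) (nat_lit 0) (.cons (.rf (nat_lit 35) (nat_lit 9043225708576)) (.cons (.rf (nat_lit 35) (nat_lit 9042185520192)) (.cons (.rf (nat_lit 36) (nat_lit 9043225708576)) (.cons (.br (nat_lit 3) (nat_lit 0) (.cons (.rf (nat_lit 35) (nat_lit 9043225708576)) (.cons (.rf (nat_lit 35) (nat_lit 9042185520192)) (.cons (.rf (nat_lit 36) (nat_lit 9043225708576)) (.cons (.rf (nat_lit 0) (nat_lit 302277)) .nil))))) (.cons (.rf (nat_lit 0) (nat_lit 302277)) .nil)))))) (.cons (.rf (nat_lit 0) (nat_lit 302277)) .nil))))),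
 (.br (nat_lit 3) (nat_lit 0) (.cons (.rf (nat_lit 30) (nat_lit 247132652640)) (.cons (.rf (nat_lit 30) (nat_lit 213846656096)) (.cons (.br (nat_lit 6) (nat_lit 1) (.cons (.br (nat_lit 4) (nat_lit 0) (.cons (.rf (nat_lit 30) (nat_lit 179519423616)) (.cons (.br (nat_lit 7) (nat_lit 1) (.cons (.rf (nat_lit 32) (nat_lit 325669288511520)) .nil)) (.cons (.rf (nat_lit 0) (nat_lit 302277)) .nil)))) (.cons (.rf (nat_lit 33) (nat_lit 325702574508064)) .nil))) (.cons (.rf (nat_lit 0) (nat_lit 302277)) .nil))))),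
 (.br (nat_lit 3) (nat_lit 0) (.cons (.br (nat_lit 9) (nat_lit 0) (.cons (.rf (nat_lit 15) (nat_lit 355356102427936)) (.cons (.rf (nat_lit 38) (nat_lit 247131834408)) (.cons (.rf (nat_lit 0) (nat_lit 367813)) .nil)))) (.cons (.rf (nat_lit 0) (nat_lit 367813)) .nil))),
 (.br (nat_lit 6) (nat_lit 1) (.cons (.rf (nat_lit 38) (nat_lit 9042185520192)) (.cons (.rf (nat_lit 38) (nat_lit 9042184504384)) (.cons (.rf (nat_lit 16) (nat_lit 81610992125216)) (.cons (.br (nat_lit 3) (nat_lit 0) (.cons (.rf (nat_lit 39) (nat_lit 11584701642934304)) (.cons (.br (nat_lit 3) (nat_lit 0) (.cons (.rf (nat_lit 39) (nat_lit 11584701642934304)) (.cons (.rf (nat_lit 0) (nat_lit 367813)) .nil))) (.cons (.rf (nat_lit 0) (nat_lit 367813)) .nil)))) .nil))))),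
 (.br (nat_lit 2) (nat_lit 0) (.cons (.rf (nat_lit 30) (nat_lit 247132685376)) (.cons (.rf (nat_lit 30) (nat_lit 179520504896)) (.cons (.br (nat_lit 5) (nat_lit 1) (.cons (.rf (nat_lit 38) (nat_lit 9043225708576)) (.cons (.rf (nat_lit 38) (nat_lit 9043224692768)) (.cons (.rf (nat_lit 40) (nat_lit 11584701642934304)) (.cons (.rf (nat_lit 40) (nat_lit 10493986107164704)) .nil))))) (.cons (.rf (nat_lit 0) (nat_lit 367813)) .nil))))),
 (.br (nat_lit 2) (nat_lit 0) (.cons (.rf (nat_lit 30) (nat_lit 247132685376)) (.cons (.rf (nat_lit 30) (nat_lit 213846688832)) (.cons (.rf (nat_lit 0) (nat_lit 269509)) (.cons (.br (nat_lit 1) (nat_lit 1) (.cons (.br (nat_lit 5) (nat_lit 1) (.cons (.rf (nat_lit 35) (nat_lit 9043225644096)) (.cons (.rf (nat_lit 31) (nat_lit 9043225644096)) (.cons (.rf (nat_lit 35) (nat_lit 9043222596672)) (.cons (.br (nat_lit 3) (nat_lit 0) (.cons (.rf (nat_lit 37) (nat_lit 9043225644096)) (.cons (.rf (nat_lit 37) (nat_lit 9009939647552)) (.cons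 (.br (nat_lit 3) (nat_lit 0) (.cons (.rf (nat_lit 37) (nat_lit 9043225644096)) (.cons (.rf (nat_lit 37) (nat_lit 9009939647552)) (.cons (.rf (nat_lit 0) (nat_lit 335045)) .nil)))) (.cons (.rf (nat_lit 0) (nat_lit 335045)) .nil))))) .nil))))) (.cons (.br (nat_lit 4) (nat_lit 1) (.cons (.br (nat_lit 3) (nat_lit 0) (.cons (.rf (nat_lit 31) (nat_lit 9043225644096)) (.cons (.rf (nat_lit 41) (nat_lit 11584701642869824)) (.cons (.rf (nat_lit 41) (nat_lit 11584668356873280)) (.cons (.br (nat_lit 3) (nat_lit 0) (.cons (.kr (nat_lit 65536) (nat_lit 16777216) (nat_lit 2) (nat_lit 0)) (.cons (.rf (nat_lit 41) (nat_lit 11584701642869824)) (.cons (.rf (nat_lit 41) (nat_lit 11584668356873280)) (.cons (.rf (nat_lit 0) (nat_lit 367813)) .nil))))) (.cons (.rf (nat_lit 0) (nat_lit 367813)) .nil)))))) .nil)) .nil))) .nil))))),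
 (.br (nat_lit 2) (nat_lit 0) (.cons (.rf (nat_lit 42) (nat_lit 247132686368)) (.cons (.rf (nat_lit 42) (nat_lit 246092498976)) (.cons (.rf (nat_lit 42) (nat_lit 211766315040)) (.cons (.rf (nat_lit 0) (nat_lit 269509)) (.cons (.br (nat_lit 2) (nat_lit 0) (.cons (.rf (nat_lit 42) (nat_lit 247132686368)) (.cons (.rf (nat_lit 42) (nat_lit 246092498976)) (.cons (.rf (nat_lit 42) (nat_lit 211766315040)) (.cons (.rf (nat_lit 0) (nat_lit 302277)) .nil))))) .nil)))))),
 (.br (nat_lit 4) (nat_lit 0) .nil),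
 (.br (nat_lit 9) (nat_lit 0) (.cons (.kr (nat_lit 72057594054705152) (nat_lit 1103806595072) (nat_lit 3) (nat_lit 0)) (.cons (.br (nat_lit 9) (nat_lit 0) (.cons (.kr (nat_lit 72057594054705152) (nat_lit 1103806595072) (nat_lit 3) (nat_lit 0)) (.cons (.rf (nat_lit 44) (nat_lit 12852421)) .nil))) (.cons (.rf (nat_lit 44) (nat_lit 12852421)) .nil)))),
 (.br (nat_lit 4) (nat_lit 0) (.cons (.br (nat_lit 8) (nat_lit 1) (.cons (.ev (nat_lit 18519084246547628033) (nat_lit 1)) (.cons (.rf (nat_lit 45) (nat_lit 372998571739416608)) .nil))) (.cons (.rf (nat_lit 44) (nat_lit 11803845)) .nil))),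
 (.br (nat_lit 9) (nat_lit 0) (.cons (.rf (nat_lit 44) (nat_lit 10755269)) (.cons (.br (nat_lit 9) (nat_lit 0) (.cons (.rf (nat_lit 44) (nat_lit 11803845)) .nil)) .nil))),
 (.br (nat_lit 7) (nat_lit 1) (.cons (.br (nat_lit 8) (nat_lit 1) (.cons (.zr (nat_lit 12884902656) (nat_lit 18519084242235817985) (nat_lit 5) (nat_lit 0)) (.cons (.rf (nat_lit 47) (nat_lit 325702574508064)) .nil))) (.cons (.br (nat_lit 4) (nat_lit 0) (.cons (.rf (nat_lit 47) (nat_lit 324636382399520)) (.cons (.rf (nat_lit 44) (nat_lit 10755269)) (.cons (.br (nat_lit 4) (nat_lit 0) (.cons (.rf (nat_lit 47) (nat_lit 324636382399520)) (.cons (.rf (nat_lit 44) (nat_lit 11803845)) .nil))) .nil)))) .nil))),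
 (.br (nat_lit 9) (nat_lit 0) (.cons (.rf (nat_lit 44) (nat_lit 10755269)) (.cons (.br (nat_lit 9) (nat_lit 0) (.cons (.rf (nat_lit 44) (nat_lit 11803845)) .nil)) .nil))),
 (.br (nat_lit 9) (nat_lit 0) (.cons (.rf (nat_lit 44) (nat_lit 11803845)) (.cons (.br (nat_lit 9) (nat_lit 0) (.cons (.rf (nat_lit 44) (nat_lit 12852421)) .nil)) .nil))),
 (.br (nat_lit 7) (nat_lit 1) (.cons (.rf (nat_lit 48) (nat_lit 9043225708576)) (.cons (.br (nat_lit 4) (nat_lit 0) (.cons (.rf (nat_lit 47) (nat_lit 324636382399520)) (.cons (.rf (nat_lit 44) (nat_lit 10755269)) (.cons (.br (nat_lit 3) (nat_lit 0) (.cons (.rf (nat_lit 49) (nat_lit 325702574508064)) (.cons (.br (nat_lit 8) (nat_lit 1) (.cons (.ev (nat_lit 18519084246547628033) (nat_lit 1)) (.cons (.rf (nat_lit 50) (nat_lit 12710601549776928)) .nil))) (.cons (.rf (nat_lit 44) (nat_lit 11803845)) .nil)))) .nil)))) .nil))),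
 (.br (nat_lit 10) (nat_lit 0) (.cons (.rf (nat_lit 50) (nat_lit 10492919916071968)) (.cons (.rf (nat_lit 44) (nat_lit 11803845)) (.cons (.br (nat_lit 10) (nat_lit 0) (.cons (.rf (nat_lit 50) (nat_lit 10492919916071968)) (.cons (.rf (nat_lit 44) (nat_lit 12852421)) .nil))) .nil)))),
 (.br (nat_lit 7) (nat_lit 1) (.cons (.br (nat_lit 8) (nat_lit 1) (.cons (.br (nat_lit 8) (nat_lit 1) (.cons (.rf (nat_lit 47) (nat_lit 360886946596896)) .nil)) (.cons (.rf (nat_lit 47) (nat_lit 360886946596896)) .nil))) (.cons (.br (nat_lit 10) (nat_lit 1) (.cons (.rf (nat_lit 52) (nat_lit 12745785921865760)) .nil)) .nil))),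
 (.br (nat_lit 8) (nat_lit 1) (.cons (.ev (nat_lit 18518801667747479809) (nat_lit 1)) (.cons (.br (nat_lit 10) (nat_lit 0) (.cons (.kr (nat_lit 18446744073709551616) (nat_lit 1208925819614629174706176) (nat_lit 8) (nat_lit 0)) (.cons (.kr (nat_lit 1208925819614629174706432) (nat_lit 18446744073709617152) (nat_lit 1) (nat_lit 0)) (.cons (.rf (nat_lit 44) (nat_lit 12852421)) .nil)))) .nil))),
 (.br (nat_lit 7) (nat_lit 1) (.cons (.rf (nat_lit 53) (nat_lit 325702574508064)) (.cons (.br (nat_lit 10) (nat_lit 1) (.cons (.br (nat_lit 3) (nat_lit 0) (.cons (.br (nat_lit 4) (nat_lit 0) (.cons (.kr (nat_lit 18446744073709551872) (nat_lit 1099528404992) (nat_lit 1) (nat_lit 0)) (.cons (.br (nat_lit 8) (nat_lit 1) (.cons (.ev (nat_lit 18518801667747479809) (nat_lit 1)) (.cons (.br (nat_lit 10) (nat_lit 0) (.cons (.br (nat_lit 10) (nat_lit 0) (.cons (.rf (nat_lit 44) (nat_lit 12852421)) .nil)) (.cons (.rf (nat_lit 44) (nat_lit 12852421)) .nil))) .nil))) (.cons (.rf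 (nat_lit 44) (nat_lit 12852421)) .nil)))) (.cons (.br (nat_lit 4) (nat_lit 0) (.cons (.br (nat_lit 8) (nat_lit 1) (.cons (.br (nat_lit 10) (nat_lit 0) (.cons (.br (nat_lit 9) (nat_lit 1) (.cons (.ev (nat_lit 1213648186380073308258304) (nat_lit 1)) .nil)) (.cons (.rf (nat_lit 44) (nat_lit 12852421)) .nil))) (.cons (.br (nat_lit 10) (nat_lit 0) (.cons (.br (nat_lit 10) (nat_lit 0) (.cons (.rf (nat_lit 44) (nat_lit 12852421)) .nil)) (.cons (.rf (nat_lit 44) (nat_lit 12852421)) .nil))) .nil))) (.cons (.br (nat_lit 8) (nat_lit 1) (.cons (.rf (nat_lit 54) (nat_lit 407901468851537952)) (.cons (.br (nat_lit 8) (nat_lit 1) (.cons (.rf (nat_lit 54) (nat_lit 407901468851537952)) .nil)) .nil))) (.cons (.rf (nat_lit 44) (nat_lit 12852421)) .nil)))) (.cons (.rf (nat_lit 44) (nat_lit 12852421)) .nil)))) .nil)) .nil)))]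

theorem c0 : chkAll C T R L0 (nat_lit 0) = true := by decide +kernel

theorem l0 : (nat_lit 0) + L0.length = (nat_lit 56) := by decide +kernel

/-- part of the certificates -/
def L1 : List Prf := [(.br (nat_lit 10) (nat_lit 0) (.cons (.ev (nat_lit 4740813509517843169536) (nat_lit 1)) (.cons (.rf (nat_lit 44) (nat_lit 11803845)) .nil))),
 (.br (nat_lit 4) (nat_lit 0) (.cons (.br (nat_lit 8) (nat_lit 1) (.cons (.rf (nat_lit 56) (nat_lit 11584701642934304)) (.cons (.rf (nat_lit 56) (nat_lit 12710601549776928)) .nil))) (.cons (.rf (nat_lit 44) (nat_lit 12852421)) .nil))),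
 (.br (nat_lit 4) (nat_lit 0) (.cons (.rf (nat_lit 57) (nat_lit 407901468851537952)) (.cons (.br (nat_lit 4) (nat_lit 0) (.cons (.rf (nat_lit 57) (nat_lit 407901468851537952)) (.cons (.rf (nat_lit 44) (nat_lit 12852421)) .nil))) (.cons (.rf (nat_lit 44) (nat_lit 12852421)) .nil)))),
 (.br (nat_lit 2) (nat_lit 0) (.cons (.br (nat_lit 7) (nat_lit 1) (.cons (.ev (nat_lit 72339069031415809) (nat_lit 1)) (.cons (.br (nat_lit 3) (nat_lit 0) (.cons (.zr (nat_lit 33751296) (nat_lit 72341268037894145) (nat_lit 5) (nat_lit 0)) (.cons (.rf (nat_lit 44) (nat_lit 9706693)) (.cons (.br (nat_lit 4) (nat_lit 0) (.cons (.zr (nat_lit 8590000896) (nat_lit 72341268037894145) (nat_lit 5) (nat_lit 0)) (.cons (.kr (nat_lit 4294967552) (nat_lit 16842752) (nat_lit 1) (nat_lit 0)) (.cons (.rf (nat_lit 44) (nat_lit 10755269)) .nil)))) .nil)))) (.cons (.br (nat_lit 3) (nat_lit 0) (.cons (.br (nat_lit 4) (nat_lit 0) (.cons (.kr (nat_lit 18446744073709551872) (nat_lit 1099528404992)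 (nat_lit 1) (nat_lit 0)) (.cons (.rf (nat_lit 44) (nat_lit 10755269)) (.cons (.br (nat_lit 4) (nat_lit 0) (.cons (.kr (nat_lit 18446744073709551872) (nat_lit 1099528404992) (nat_lit 1) (nat_lit 0)) (.cons (.rf (nat_lit 44) (nat_lit 11803845)) .nil))) .nil)))) (.cons (.rf (nat_lit 44) (nat_lit 10755269)) (.cons (.br (nat_lit 4) (nat_lit 0) (.cons (.rf (nat_lit 46) (nat_lit 11584701642934304)) (.cons (.br (nat_lit 4) (nat_lit 0) (.cons (.rf (nat_lit 46) (nat_lit 11584701642934304)) (.cons (.rf (nat_lit 44) (nat_lit 11803845)) .nil))) (.cons (.rf (nat_lit 44) (nat_lit 11803845)) .nil)))) .nil)))) .nil)))) (.cons (.br (nat_lit 7) (nat_lit 1) (.cons (.rf (nat_lit 48) (nat_lit 9043225708576)) (.cons (.rf (nat_lit 51) (nat_lit 9043225708576)) (.cons (.br (nat_lit 7) (nat_lit 1) (.cons (.rf (nat_lit 48) (nat_lit 9043225708576)) (.cons (.rf (nat_lit 51) (nat_lit 9043225708576)) (.cons (.br (nat_lit 8) (nat_lit 1) (.cons (.rf (nat_lit 49) (nat_lit 325702574508064))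 (.cons (.rf (nat_lit 47) (nat_lit 324636382399520)) (.cons (.rf (nat_lit 52) (nat_lit 11583635450825760)) (.cons (.rf (nat_lit 52) (nat_lit 10492919916071968)) .nil))))) .nil)))) .nil)))) (.cons (.rf (nat_lit 44) (nat_lit 9706693)) (.cons (.br (nat_lit 7) (nat_lit 1) (.cons (.rf (nat_lit 53) (nat_lit 325702574508064)) (.cons (.rf (nat_lit 55) (nat_lit 325702574508064)) (.cons (.br (nat_lit 7) (nat_lit 1) (.cons (.rf (nat_lit 53) (nat_lit 325702574508064)) (.cons (.rf (nat_lit 55) (nat_lit 325702574508064)) (.cons (.br (nat_lit 3) (nat_lit 0) (.cons (.br (nat_lit 4) (nat_lit 0) (.cons (.kr (nat_lit 18446744073709551872) (nat_lit 1099528404992) (nat_lit 1) (nat_lit 0)) (.cons (.br (nat_lit 4) (nat_lit 0) (.cons (.kr (nat_lit 18446744073709551872) (nat_lit 1099528404992) (nat_lit 1) (nat_lit 0)) (.cons (.rf (nat_lit 44) (nat_lit 12852421)) .nil))) (.cons (.rf (nat_lit 44) (nat_lit 12852421)) .nil)))) (.cons (.rf (nat_lit 58) (nat_lit 407901468851537952)) (.cons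 (.rf (nat_lit 44) (nat_lit 12852421)) .nil)))) .nil)))) .nil)))) .nil))))),
 (.br (nat_lit 4) (nat_lit 0) (.cons (.kr (nat_lit 18446744073709551872) (nat_lit 1103806595072) (nat_lit 1) (nat_lit 0)) (.cons (.kr (nat_lit 18446744073709617152) (nat_lit 1103806595072) (nat_lit 2) (nat_lit 0)) (.cons (.kr (nat_lit 16777216) (nat_lit 4294967296) (nat_lit 3) (nat_lit 0)) (.cons (.rf (nat_lit 44) (nat_lit 10755269)) .nil))))),
 (.br (nat_lit 3) (nat_lit 0) (.cons (.rf (nat_lit 59) (nat_lit 9009939711040)) (.cons (.rf (nat_lit 44) (nat_lit 10755269)) (.cons (.br (nat_lit 7) (nat_lit 1) (.cons (.rf (nat_lit 59) (nat_lit 9009938695232)) (.cons (.br (nat_lit 4) (nat_lit 0) (.cons (.rf (nat_lit 60) (nat_lit 360886946596896)) (.cons (.br (nat_lit 4) (nat_lit 0) (.cons (.kr (nat_lit 16777216) (nat_lit 4294967296) (nat_lit 3) (nat_lit 0)) (.cons (.rf (nat_lit 44) (nat_lit 11803845)) .nil))) (.cons (.rf (nat_lit 44) (nat_lit 11803845)) .nil)))) (.cons (.br (nat_lit 4) (nat_lit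 0) (.cons (.rf (nat_lit 60) (nat_lit 360886946596896)) (.cons (.br (nat_lit 4) (nat_lit 0) (.cons (.kr (nat_lit 16777216) (nat_lit 4294967296) (nat_lit 3) (nat_lit 0)) (.cons (.rf (nat_lit 44) (nat_lit 12852421)) .nil))) (.cons (.rf (nat_lit 44) (nat_lit 12852421)) .nil)))) .nil)))) .nil)))),
 (.br (nat_lit 4) (nat_lit 0) (.cons (.ev (nat_lit 18446745177516146689) (nat_lit 1)) (.cons (.br (nat_lit 9) (nat_lit 0) (.cons (.kr (nat_lit 281474993487872) (nat_lit 1103806595072) (nat_lit 3) (nat_lit 0)) (.cons (.br (nat_lit 9) (nat_lit 0) (.cons (.kr (nat_lit 281474993487872) (nat_lit 1103806595072) (nat_lit 3) (nat_lit 0)) (.cons (.rf (nat_lit 44) (nat_lit 12852421)) .nil))) (.cons (.rf (nat_lit 44) (nat_lit 12852421)) .nil)))) (.cons (.rf (nat_lit 44) (nat_lit 12852421)) .nil)))),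
 (.br (nat_lit 3) (nat_lit 0) (.cons (.br (nat_lit 4) (nat_lit 0) (.cons (.rf (nat_lit 59) (nat_lit 6777694392416)) (.cons (.rf (nat_lit 44) (nat_lit 10755269)) (.cons (.br (nat_lit 4) (nat_lit 0) (.cons (.rf (nat_lit 59) (nat_lit 6777694392416)) (.cons (.rf (nat_lit 44) (nat_lit 11803845)) .nil))) .nil)))) (.cons (.rf (nat_lit 44) (nat_lit 10755269)) (.cons (.br (nat_lit 7) (nat_lit 1) (.cons (.br (nat_lit 4) (nat_lit 0) (.cons (.rf (nat_lit 59) (nat_lit 6777694391424)) (.cons (.kr (nat_lit 16777216) (nat_lit 4294967296) (nat_lit 3) (nat_lit 0)) (.cons (.rf (nat_lit 44) (nat_lit 11803845)) .nil)))) (.cons (.br (nat_lit 4) (nat_lit 0) (.cons (.br (nat_lit 4) (nat_lit 0) (.cons (.ev (nat_lit 18519084246547562753) (nat_lit 1)) (.cons (.rf (nat_lit 44) (nat_lit 11803845)) .nil))) (.cons (.br (nat_lit 4) (nat_lit 0) (.cons (.ev (nat_lit 18519084246547562753) (nat_lit 1)) (.cons (.rf (nat_lit 44) (nat_lit 11803845)) .nil))) (.cons (.rf (nat_lit 44) (nat_lit 11803845))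 .nil)))) (.cons (.br (nat_lit 4) (nat_lit 0) (.cons (.rf (nat_lit 62) (nat_lit 372998571739416608)) (.cons (.br (nat_lit 4) (nat_lit 0) (.cons (.rf (nat_lit 62) (nat_lit 372998571739416608)) (.cons (.rf (nat_lit 44) (nat_lit 12852421)) .nil))) (.cons (.rf (nat_lit 44) (nat_lit 12852421)) .nil)))) .nil)))) .nil)))),
 (.br (nat_lit 4) (nat_lit 0) (.cons (.rf (nat_lit 63) (nat_lit 325702573492256)) (.cons (.rf (nat_lit 44) (nat_lit 10755269)) (.cons (.br (nat_lit 4) (nat_lit 0) (.cons (.rf (nat_lit 63) (nat_lit 325702573492256)) (.cons (.rf (nat_lit 44) (nat_lit 11803845)) .nil))) .nil)))),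
 (.br (nat_lit 11) (nat_lit 1) (.cons (.ev (nat_lit 309489750634853487073034496) (nat_lit 1)) .nil)),
 (.br (nat_lit 9) (nat_lit 0) (.cons (.rf (nat_lit 44) (nat_lit 11803845)) (.cons (.br (nat_lit 9) (nat_lit 0) (.cons (.rf (nat_lit 44) (nat_lit 12852421)) .nil)) .nil))),
 (.br (nat_lit 4) (nat_lit 0) (.cons (.kr (nat_lit 18446744073709551872) (nat_lit 1103806595072) (nat_lit 1) (nat_lit 0)) (.cons (.kr (nat_lit 16777216) (nat_lit 4294967296) (nat_lit 3) (nat_lit 0)) (.cons (.kr (nat_lit 18446744073709617152) (nat_lit 1103806595072) (nat_lit 2) (nat_lit 0)) (.cons (.rf (nat_lit 44) (nat_lit 10755269)) .nil))))),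
 (.br (nat_lit 7) (nat_lit 1) (.cons (.br (nat_lit 4) (nat_lit 0) (.cons (.kr (nat_lit 16777216) (nat_lit 4294967296) (nat_lit 3) (nat_lit 0)) (.cons (.br (nat_lit 8) (nat_lit 1) (.cons (.br (nat_lit 9) (nat_lit 0) (.cons (.rf (nat_lit 65) (nat_lit 407901468851537952)) (.cons (.rf (nat_lit 44) (nat_lit 12852421)) .nil))) (.cons (.rf (nat_lit 66) (nat_lit 11584701642934304)) .nil))) (.cons (.rf (nat_lit 44) (nat_lit 12852421)) .nil)))) (.cons (.br (nat_lit 4) (nat_lit 0) (.cons (.rf (nat_lit 67) (nat_lit 396071318685728)) (.cons (.br (nat_lit 4) (nat_lit 0) (.cons (.kr (nat_lit 18446744073709617152) (nat_lit 1103806595072) (nat_lit 2) (nat_lit 0)) (.cons (.rf (nat_lit 44) (nat_lit 12852421)) .nil))) (.cons (.rf (nat_lit 44) (nat_lit 12852421)) .nil)))) (.cons (.br (nat_lit 4) (nat_lit 0) (.cons (.rf (nat_lit 67) (nat_lit 396071318685728)) (.cons (.br (nat_lit 4) (nat_lit 0) (.cons (.kr (nat_lit 18446744073709617152) (nat_lit 1103806595072) (nat_lit 2) (nat_lit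 0)) (.cons (.rf (nat_lit 44) (nat_lit 12852421)) .nil))) (.cons (.rf (nat_lit 44) (nat_lit 12852421)) .nil)))) .nil)))),
 (.br (nat_lit 4) (nat_lit 0) (.cons (.ev (nat_lit 1208925819896108446384384) (nat_lit 1)) (.cons (.rf (nat_lit 44) (nat_lit 11803845)) .nil))),
 (.br (nat_lit 3) (nat_lit 0) (.cons (.rf (nat_lit 68) (nat_lit 407901468851537952)) (.cons (.br (nat_lit 7) (nat_lit 1) (.cons (.br (nat_lit 4) (nat_lit 0) (.cons (.rf (nat_lit 68) (nat_lit 407901468850522144)) (.cons (.kr (nat_lit 16777216) (nat_lit 4294967296) (nat_lit 3) (nat_lit 0)) (.cons (.rf (nat_lit 44) (nat_lit 12852421)) .nil)))) (.cons (.br (nat_lit 9) (nat_lit 0) (.cons (.rf (nat_lit 54) (nat_lit 370817140668893216)) (.cons (.br (nat_lit 8) (nat_lit 1) (.cons (.rf (nat_lit 69) (nat_lit 12710601549776928)) (.cons (.br (nat_lit 8) (nat_lit 1) (.cons (.rf (nat_lit 69) (nat_lit 12710601549776928)) .nil)) .nil))) (.cons (.rf (nat_lit 44) (nat_lit 12852421)) .nil)))) (.cons (.br (nat_lit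 10) (nat_lit 0) (.cons (.rf (nat_lit 54) (nat_lit 335914243556771872)) (.cons (.br (nat_lit 10) (nat_lit 0) (.cons (.rf (nat_lit 54) (nat_lit 335914243556771872)) (.cons (.rf (nat_lit 44) (nat_lit 12852421)) .nil))) (.cons (.rf (nat_lit 44) (nat_lit 12852421)) .nil)))) .nil)))) (.cons (.rf (nat_lit 44) (nat_lit 12852421)) .nil)))),
 (.br (nat_lit 3) (nat_lit 0) (.cons (.rf (nat_lit 70) (nat_lit 407901468851537952)) (.cons (.br (nat_lit 4) (nat_lit 0) (.cons (.rf (nat_lit 70) (nat_lit 407901468850522144)) (.cons (.kr (nat_lit 18446744073709617152) (nat_lit 1099528404992) (nat_lit 2) (nat_lit 0)) (.cons (.br (nat_lit 4) (nat_lit 0) (.cons (.rf (nat_lit 70) (nat_lit 407901468850522144)) (.cons (.kr (nat_lit 18446744073709617152) (nat_lit 1103806595072) (nat_lit 2) (nat_lit 0)) (.cons (.rf (nat_lit 44) (nat_lit 12852421)) .nil)))) (.cons (.rf (nat_lit 44) (nat_lit 12852421)) .nil))))) (.cons (.rf (nat_lit 44) (nat_lit 12852421)) .nil)))),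
 (.br (nat_lit 6) (nat_lit 1) (.cons (.kr (nat_lit 256) (nat_lit 65536) (nat_lit 1) (nat_lit 0)) (.cons (.rf (nat_lit 59) (nat_lit 9043225708576)) (.cons (.rf (nat_lit 59) (nat_lit 9043224692768)) (.cons (.br (nat_lit 9) (nat_lit 1) (.cons (.br (nat_lit 2) (nat_lit 0) (.cons (.br (nat_lit 3) (nat_lit 0) (.cons (.rf (nat_lit 59) (nat_lit 9009939711040)) (.cons (.rf (nat_lit 61) (nat_lit 325702574508064)) (.cons (.rf (nat_lit 44) (nat_lit 11803845)) (.cons (.br (nat_lit 3) (nat_lit 0) (.cons (.rf (nat_lit 59) (nat_lit 9009939711040)) (.cons (.rf (nat_lit 61) (nat_lit 325702574508064)) (.cons (.rf (nat_lit 44) (nat_lit 12852421)) .nil)))) .nil))))) (.cons (.br (nat_lit 3) (nat_lit 0) (.cons (.rf (nat_lit 63) (nat_lit 325702574508064)) (.cons (.rf (nat_lit 64) (nat_lit 325702574508064)) (.cons (.rf (nat_lit 44) (nat_lit 11803845)) (.cons (.br (nat_lit 3) (nat_lit 0) (.cons (.rf (nat_lit 63) (nat_lit 325702574508064)) (.cons (.rf (nat_lit 64) (nat_lit 325702574508064))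 (.cons (.rf (nat_lit 44) (nat_lit 12852421)) .nil)))) .nil))))) (.cons (.rf (nat_lit 44) (nat_lit 11803845)) (.cons (.br (nat_lit 3) (nat_lit 0) (.cons (.rf (nat_lit 70) (nat_lit 407901468851537952)) (.cons (.rf (nat_lit 71) (nat_lit 407901468851537952)) (.cons (.br (nat_lit 3) (nat_lit 0) (.cons (.rf (nat_lit 70) (nat_lit 407901468851537952)) (.cons (.rf (nat_lit 71) (nat_lit 407901468851537952)) (.cons (.rf (nat_lit 44) (nat_lit 12852421)) .nil)))) (.cons (.rf (nat_lit 44) (nat_lit 12852421)) .nil))))) .nil))))) .nil)) .nil))))),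
 (.br (nat_lit 9) (nat_lit 1) (.cons (.ev (nat_lit 1213666704899166584176896) (nat_lit 1)) .nil)),
 (.br (nat_lit 9) (nat_lit 0) (.cons (.rf (nat_lit 44) (nat_lit 11803845)) (.cons (.br (nat_lit 9) (nat_lit 0) (.cons (.rf (nat_lit 44) (nat_lit 12852421)) .nil)) .nil))),
 (.br (nat_lit 4) (nat_lit 0) (.cons (.kr (nat_lit 16777216) (nat_lit 4294967296) (nat_lit 3) (nat_lit 0)) (.cons (.br (nat_lit 7) (nat_lit 1) (.cons (.br (nat_lit 10) (nat_lit 0) (.cons (.rf (nat_lit 73) (nat_lit 407901468851537952)) (.cons (.rf (nat_lit 44) (nat_lit 12852421)) .nil))) (.cons (.rf (nat_lit 74) (nat_lit 12745785921865760)) .nil))) (.cons (.rf (nat_lit 44) (nat_lit 12852421)) .nil)))),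
 (.br (nat_lit 8) (nat_lit 1) (.cons (.rf (nat_lit 72) (nat_lit 7877173481568)) (.cons (.rf (nat_lit 72) (nat_lit 7877173480576)) (.cons (.br (nat_lit 10) (nat_lit 1) (.cons (.br (nat_lit 3) (nat_lit 0) (.cons (.rf (nat_lit 75) (nat_lit 407901468851537952)) (.cons (.br (nat_lit 4) (nat_lit 0) (.cons (.rf (nat_lit 75) (nat_lit 407901468850522144)) (.cons (.kr (nat_lit 16777216) (nat_lit 4294967296) (nat_lit 3) (nat_lit 0)) (.cons (.rf (nat_lit 44) (nat_lit 12852421)) .nil)))) (.cons (.rf (nat_lit 44) (nat_lit 12852421)) .nil)))) .nil)) .nil)))),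
 (.br (nat_lit 4) (nat_lit 0) (.cons (.br (nat_lit 2) (nat_lit 0) (.cons (.br (nat_lit 10) (nat_lit 0) (.cons (.br (nat_lit 9) (nat_lit 1) (.cons (.br (nat_lit 11) (nat_lit 0) (.cons (.rf (nat_lit 44) (nat_lit 12852421)) .nil)) .nil)) (.cons (.rf (nat_lit 44) (nat_lit 11803845)) .nil))) (.cons (.rf (nat_lit 44) (nat_lit 11803845)) .nil))) (.cons (.rf (nat_lit 44) (nat_lit 11803845)) .nil))),
 (.br (nat_lit 4) (nat_lit 0) (.cons (.rf (nat_lit 77) (nat_lit 11581403206619168)) (.cons (.rf (nat_lit 77) (nat_lit 11584701642934304)) (.cons (.rf (nat_lit 44) (nat_lit 11803845)) .nil)))),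
 (.br (nat_lit 4) (nat_lit 0) (.cons (.br (nat_lit 10) (nat_lit 0) (.cons (.br (nat_lit 9) (nat_lit 1) (.cons (.ev (nat_lit 4741030244154693779457) (nat_lit 2)) .nil)) (.cons (.rf (nat_lit 44) (nat_lit 12852421)) .nil))) (.cons (.rf (nat_lit 44) (nat_lit 12852421)) .nil))),
 (.br (nat_lit 9) (nat_lit 0) (.cons (.rf (nat_lit 44) (nat_lit 11803845)) (.cons (.br (nat_lit 9) (nat_lit 0) (.cons (.rf (nat_lit 44) (nat_lit 12852421)) .nil)) .nil))),
 (.br (nat_lit 4) (nat_lit 0) (.cons (.br (nat_lit 7) (nat_lit 1) (.cons (.br (nat_lit 10) (nat_lit 0) (.cons (.br (nat_lit 9) (nat_lit 1) (.cons (.br (nat_lit 11) (nat_lit 0) (.cons (.rf (nat_lit 44) (nat_lit 12852421)) .nil)) .nil)) (.cons (.rf (nat_lit 44) (nat_lit 12852421)) .nil))) (.cons (.rf (nat_lit 80) (nat_lit 12745785921865760)) .nil))) (.cons (.rf (nat_lit 44) (nat_lit 12852421)) .nil))),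
 (.br (nat_lit 4) (nat_lit 0) (.cons (.rf (nat_lit 81) (nat_lit 407901468851537952)) (.cons (.br (nat_lit 4) (nat_lit 0) (.cons (.rf (nat_lit 81) (nat_lit 407901468851537952)) (.cons (.rf (nat_lit 44) (nat_lit 12852421)) .nil))) (.cons (.rf (nat_lit 44) (nat_lit 12852421)) .nil)))),
 (.br (nat_lit 10) (nat_lit 0) (.cons (.rf (nat_lit 80) (nat_lit 2646705079192896)) (.cons (.kr (nat_lit 18446744073709551616) (nat_lit 1208925819614629174706176) (nat_lit 8) (nat_lit 0)) (.cons (.rf (nat_lit 80) (nat_lit 1520805173398857)) (.cons (.rf (nat_lit 44) (nat_lit 12852421)) .nil))))),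
 (.br (nat_lit 10) (nat_lit 0) (.cons (.ev (nat_lit 1218407663086831046624000) (nat_lit 2)) (.cons (.rf (nat_lit 44) (nat_lit 12852421)) .nil))),
 (.br (nat_lit 7) (nat_lit 1) (.cons (.br (nat_lit 4) (nat_lit 0) (.cons (.rf (nat_lit 82) (nat_lit 407901435564525600)) (.cons (.br (nat_lit 8) (nat_lit 1) (.cons (.br (nat_lit 9) (nat_lit 1) (.cons (.br (nat_lit 11) (nat_lit 0) (.cons (.rf (nat_lit 44) (nat_lit 12852421)) .nil)) .nil)) (.cons (.rf (nat_lit 83) (nat_lit 407901468851537952)) .nil))) (.cons (.rf (nat_lit 44) (nat_lit 12852421)) .nil)))) (.cons (.br (nat_lit 4) (nat_lit 0) (.cons (.rf (nat_lit 80) (nat_lit 11655037100099616)) (.cons (.br (nat_lit 8) (nat_lit 1) (.cons (.rf (nat_lit 84) (nat_lit 407901468851537952)) (.cons (.rf (nat_lit 84) (nat_lit 372998538452404256)) .nil))) (.cons (.rf (nat_lit 44) (nat_lit 12852421)) .nil)))) .nil))),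
 (.br (nat_lit 4) (nat_lit 0) (.cons (.rf (nat_lit 80) (nat_lit 10493952821168160)) (.cons (.rf (nat_lit 44) (nat_lit 11803845)) (.cons (.br (nat_lit 4) (nat_lit 0) (.cons (.rf (nat_lit 80) (nat_lit 10493952821168160)) (.cons (.rf (nat_lit 44) (nat_lit 12852421)) .nil))) .nil)))),
 (.br (nat_lit 6) (nat_lit 1) (.cons (.rf (nat_lit 76) (nat_lit 325702574508064)) (.cons (.br (nat_lit 10) (nat_lit 1) (.cons (.br (nat_lit 3) (nat_lit 0) (.cons (.br (nat_lit 7) (nat_lit 1) (.cons (.rf (nat_lit 76) (nat_lit 325669288511520)) (.cons (.rf (nat_lit 78) (nat_lit 11584701642934304)) (.cons (.br (nat_lit 4) (nat_lit 0) (.cons (.rf (nat_lit 80) (nat_lit 11655037100099616)) (.cons (.br (nat_lit 4) (nat_lit 0) (.cons (.rf (nat_lit 80) (nat_lit 11655037100099616)) (.cons (.rf (nat_lit 44) (nat_lit 12852421)) .nil))) (.cons (.rf (nat_lit 44) (nat_lit 12852421)) .nil)))) .nil)))) (.cons (.rf (nat_lit 82) (nat_lit 407901468851537952)) (.cons (.br (nat_lit 7) (nat_lit 1) (.cons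 (.rf (nat_lit 85) (nat_lit 407901468851537952)) (.cons (.br (nat_lit 7) (nat_lit 1) (.cons (.rf (nat_lit 85) (nat_lit 407901468851537952)) (.cons (.rf (nat_lit 86) (nat_lit 12745785921865760)) .nil))) (.cons (.br (nat_lit 7) (nat_lit 1) (.cons (.rf (nat_lit 85) (nat_lit 407901468851537952)) (.cons (.rf (nat_lit 86) (nat_lit 12745785921865760)) .nil))) .nil)))) (.cons (.rf (nat_lit 44) (nat_lit 12852421)) .nil))))) .nil)) .nil))),
 (.br (nat_lit 4) (nat_lit 0) (.cons (.rf (nat_lit 87) (nat_lit 325702573492256)) (.cons (.rf (nat_lit 87) (nat_lit 325669287495712)) (.cons (.br (nat_lit 4) (nat_lit 0) (.cons (.rf (nat_lit 87) (nat_lit 325702573492256)) (.cons (.rf (nat_lit 87) (nat_lit 325669287495712)) (.cons (.rf (nat_lit 44) (nat_lit 10755269)) .nil)))) (.cons (.rf (nat_lit 44) (nat_lit 10755269)) .nil))))),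
 (.br (nat_lit 2) (nat_lit 0) (.cons (.rf (nat_lit 72) (nat_lit 9043225707584)) (.cons (.rf (nat_lit 72) (nat_lit 9009939711040)) (.cons (.kr (nat_lit 256) (nat_lit 65536) (nat_lit 1) (nat_lit 0)) (.cons (.rf (nat_lit 44) (nat_lit 9706693)) (.cons (.br (nat_lit 3) (nat_lit 0) (.cons (.rf (nat_lit 87) (nat_lit 325702574508064)) (.cons (.rf (nat_lit 87) (nat_lit 325669288511520)) (.cons (.rf (nat_lit 88) (nat_lit 325702574508064)) (.cons (.br (nat_lit 3) (nat_lit 0) (.cons (.rf (nat_lit 87) (nat_lit 325702574508064)) (.cons (.rf (nat_lit 87) (nat_lit 325669288511520)) (.cons (.rf (nat_lit 88) (nat_lit 325702574508064)) (.cons (.rf (nat_lit 44) (nat_lit 10755269)) .nil))))) (.cons (.rf (nat_lit 44) (nat_lit 10755269)) .nil)))))) .nil)))))),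
 (.br (nat_lit 1) (nat_lit 0) (.cons (.rf (nat_lit 72) (nat_lit 9043225708576)) (.cons (.rf (nat_lit 72) (nat_lit 9009939712032)) (.cons (.rf (nat_lit 89) (nat_lit 9043225708576)) (.cons (.rf (nat_lit 44) (nat_lit 9706693)) (.cons (.br (nat_lit 2) (nat_lit 0) (.cons (.rf (nat_lit 72) (nat_lit 9043225707584)) (.cons (.rf (nat_lit 72) (nat_lit 9009939711040)) (.cons (.rf (nat_lit 89) (nat_lit 9043225707584)) (.cons (.kr (nat_lit 256) (nat_lit 65536) (nat_lit 1) (nat_lit 0)) (.cons (.rf (nat_lit 44) (nat_lit 10755269)) .nil)))))) .nil)))))),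
 (.br (nat_lit 9) (nat_lit 0) (.cons (.ev (nat_lit 18518801667747479809) (nat_lit 1)) (.cons (.rf (nat_lit 44) (nat_lit 10755269)) (.cons (.br (nat_lit 9) (nat_lit 0) (.cons (.ev (nat_lit 18518801667747479809) (nat_lit 1)) (.cons (.rf (nat_lit 44) (nat_lit 11803845)) .nil))) .nil)))),
 (.br (nat_lit 8) (nat_lit 1) (.cons (.zr (nat_lit 12884902656) (nat_lit 18519084242235817985) (nat_lit 5) (nat_lit 0)) (.cons (.rf (nat_lit 91) (nat_lit 325702574508064)) .nil))),
 (.br (nat_lit 4) (nat_lit 0) (.cons (.rf (nat_lit 91) (nat_lit 324636382431264)) (.cons (.rf (nat_lit 44) (nat_lit 10755269)) (.cons (.br (nat_lit 4) (nat_lit 0) (.cons (.rf (nat_lit 91) (nat_lit 324636382431264)) (.cons (.rf (nat_lit 44) (nat_lit 11803845)) .nil))) .nil)))),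
 (.br (nat_lit 7) (nat_lit 1) (.cons (.br (nat_lit 2) (nat_lit 0) (.cons (.rf (nat_lit 92) (nat_lit 9043225708576)) (.cons (.rf (nat_lit 44) (nat_lit 9706693)) (.cons (.br (nat_lit 4) (nat_lit 0) (.cons (.rf (nat_lit 92) (nat_lit 9043223548000)) (.cons (.kr (nat_lit 4294967552) (nat_lit 16842752) (nat_lit 1) (nat_lit 0)) (.cons (.rf (nat_lit 44) (nat_lit 10755269)) .nil)))) .nil)))) (.cons (.br (nat_lit 2) (nat_lit 0) (.cons (.rf (nat_lit 93) (nat_lit 325702574508064)) (.cons (.rf (nat_lit 44) (nat_lit 10755269)) (.cons (.br (nat_lit 4) (nat_lit 0) (.cons (.br (nat_lit 4) (nat_lit 0) (.cons (.kr (nat_lit 1103806595328) (nat_lit 281474993553408) (nat_lit 1) (nat_lit 0)) (.cons (.rf (nat_lit 44) (nat_lit 11803845)) .nil))) (.cons (.br (nat_lit 4) (nat_lit 0) (.cons (.kr (nat_lit 1103806595328) (nat_lit 281474993553408) (nat_lit 1) (nat_lit 0)) (.cons (.rf (nat_lit 44) (nat_lit 11803845)) .nil))) (.cons (.rf (nat_lit 44) (nat_lit 11803845)) .nil)))) .nil))))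 .nil)))]

theorem c1 : chkAll C T R L1 (nat_lit 56) = true := by decide +kernel

theorem l1 : (nat_lit 56) + L1.length = (nat_lit 95) := by decide +kernel

/-- part of the certificates -/
def L2 : List Prf := [(.br (nat_lit 2) (nat_lit 0) (.cons (.rf (nat_lit 94) (nat_lit 9043225708576)) (.cons (.rf (nat_lit 94) (nat_lit 7977033631776)) (.cons (.rf (nat_lit 44) (nat_lit 9706693)) (.cons (.br (nat_lit 2) (nat_lit 0) (.cons (.rf (nat_lit 94) (nat_lit 9043225708576)) (.cons (.rf (nat_lit 94) (nat_lit 7977033631776)) (.cons (.rf (nat_lit 44) (nat_lit 10755269)) .nil)))) .nil))))),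
 (.br (nat_lit 10) (nat_lit 0) (.cons (.ev (nat_lit 72339069031481601) (nat_lit 1)) (.cons (.br (nat_lit 10) (nat_lit 0) (.cons (.ev (nat_lit 72339069031481601) (nat_lit 1)) (.cons (.rf (nat_lit 44) (nat_lit 12852421)) .nil))) (.cons (.rf (nat_lit 44) (nat_lit 12852421)) .nil)))),
 (.br (nat_lit 10) (nat_lit 0) (.cons (.ev (nat_lit 1208944338698875722268673) (nat_lit 1)) (.cons (.ev (nat_lit 1213666705181745367482368) (nat_lit 1)) (.cons (.rf (nat_lit 44) (nat_lit 12852421)) .nil)))),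
 (.br (nat_lit 2) (nat_lit 0) (.cons (.ev (nat_lit 282574488403969) (nat_lit 1)) (.cons (.rf (nat_lit 44) (nat_lit 9706693)) (.cons (.br (nat_lit 7) (nat_lit 1) (.cons (.br (nat_lit 8) (nat_lit 1) (.cons (.ev (nat_lit 282578800083201) (nat_lit 1)) (.cons (.br (nat_lit 8) (nat_lit 1) (.cons (.ev (nat_lit 282578800083201) (nat_lit 1)) (.cons (.br (nat_lit 4) (nat_lit 0) (.cons (.br (nat_lit 10) (nat_lit 0) (.cons (.br (nat_lit 9) (nat_lit 1) (.cons (.ev (nat_lit 28371165852563300089862) (nat_lit 3)) .nil)) (.cons (.rf (nat_lit 44) (nat_lit 12852421)) .nil))) (.cons (.rf (nat_lit 44) (nat_lit 12852421)) .nil))) .nil))) .nil))) (.cons (.ev (nat_lit 72339073309605889) (nat_lit 1)) (.cons (.br (nat_lit 10) (nat_lit 1) (.cons (.br (nat_lit 3) (nat_lit 0) (.cons (.br (nat_lit 8) (nat_lit 1) (.cons (.rf (nat_lit 90) (nat_lit 5744789327968)) (.cons (.rf (nat_lit 52) (nat_lit 12744719727693856)) (.cons (.rf (nat_lit 52) (nat_lit 11654004192940064)) .nil)))) (.cons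 (.br (nat_lit 4) (nat_lit 0) (.cons (.br (nat_lit 8) (nat_lit 1) (.cons (.br (nat_lit 10) (nat_lit 0) (.cons (.br (nat_lit 9) (nat_lit 1) (.cons (.ev (nat_lit 1223148331918206598971395) (nat_lit 2)) .nil)) (.cons (.rf (nat_lit 44) (nat_lit 12852421)) .nil))) (.cons (.rf (nat_lit 96) (nat_lit 407901468851537952)) .nil))) (.cons (.br (nat_lit 8) (nat_lit 1) (.cons (.br (nat_lit 8) (nat_lit 1) (.cons (.rf (nat_lit 97) (nat_lit 407901468851537952)) .nil)) (.cons (.br (nat_lit 8) (nat_lit 1) (.cons (.rf (nat_lit 97) (nat_lit 407901468851537952)) .nil)) .nil))) (.cons (.rf (nat_lit 44) (nat_lit 12852421)) .nil)))) (.cons (.rf (nat_lit 44) (nat_lit 12852421)) .nil)))) .nil)) .nil)))) .nil)))),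
 (.br (nat_lit 2) (nat_lit 0) (.cons (.rf (nat_lit 98) (nat_lit 9043225708576)) (.cons (.rf (nat_lit 98) (nat_lit 7977032615968)) (.cons (.rf (nat_lit 44) (nat_lit 9706693)) (.cons (.br (nat_lit 2) (nat_lit 0) (.cons (.rf (nat_lit 98) (nat_lit 9043225708576)) (.cons (.rf (nat_lit 98) (nat_lit 7977032615968)) (.cons (.rf (nat_lit 44) (nat_lit 10755269)) .nil)))) .nil))))),
 (.br (nat_lit 4) (nat_lit 0) (.cons (.ev (nat_lit 282574488403969) (nat_lit 1)) (.cons (.rf (nat_lit 44) (nat_lit 11803845)) (.cons (.br (nat_lit 4) (nat_lit 0) (.cons (.ev (nat_lit 282574488403969) (nat_lit 1)) (.cons (.rf (nat_lit 44) (nat_lit 12852421)) .nil))) .nil)))),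
 (.br (nat_lit 9) (nat_lit 0) (.cons (.rf (nat_lit 44) (nat_lit 11803845)) (.cons (.br (nat_lit 9) (nat_lit 0) (.cons (.rf (nat_lit 44) (nat_lit 12852421)) .nil)) .nil))),
 (.br (nat_lit 4) (nat_lit 0) (.cons (.br (nat_lit 9) (nat_lit 0) (.cons (.br (nat_lit 11) (nat_lit 1) (.cons (.br (nat_lit 10) (nat_lit 0) (.cons (.rf (nat_lit 44) (nat_lit 12852421)) .nil)) .nil)) (.cons (.rf (nat_lit 44) (nat_lit 12852421)) .nil))) (.cons (.rf (nat_lit 44) (nat_lit 12852421)) .nil))),
 (.br (nat_lit 4) (nat_lit 0) (.cons (.rf (nat_lit 66) (nat_lit 10491720578928704)) (.cons (.rf (nat_lit 44) (nat_lit 11803845)) (.cons (.br (nat_lit 4) (nat_lit 0) (.cons (.rf (nat_lit 66) (nat_lit 10491720578928704)) (.cons (.rf (nat_lit 44) (nat_lit 12852421)) .nil))) .nil)))),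
 (.br (nat_lit 10) (nat_lit 0) (.cons (.rf (nat_lit 66) (nat_lit 10491720578928704)) (.cons (.rf (nat_lit 44) (nat_lit 11803845)) (.cons (.br (nat_lit 10) (nat_lit 0) (.cons (.rf (nat_lit 66) (nat_lit 10491720578928704)) (.cons (.rf (nat_lit 44) (nat_lit 12852421)) .nil))) .nil)))),
 (.br (nat_lit 4) (nat_lit 0) (.cons (.br (nat_lit 9) (nat_lit 0) (.cons (.rf (nat_lit 96) (nat_lit 335914243557787680)) (.cons (.ev (nat_lit 309485009821626547996459264) (nat_lit 1)) (.cons (.rf (nat_lit 44) (nat_lit 12852421)) .nil)))) (.cons (.rf (nat_lit 44) (nat_lit 12852421)) .nil))),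
 (.br (nat_lit 2) (nat_lit 0) (.cons (.br (nat_lit 3) (nat_lit 0) (.cons (.ev (nat_lit 72058693566398721) (nat_lit 1)) (.cons (.ev (nat_lit 18446745173237956609) (nat_lit 1)) (.cons (.rf (nat_lit 44) (nat_lit 11803845)) (.cons (.br (nat_lit 7) (nat_lit 1) (.cons (.rf (nat_lit 104) (nat_lit 11584701642934304)) (.cons (.br (nat_lit 9) (nat_lit 0) (.cons (.rf (nat_lit 93) (nat_lit 112330814030912)) (.cons (.br (nat_lit 8) (nat_lit 1) (.cons (.br (nat_lit 4) (nat_lit 0) (.cons (.br (nat_lit 11) (nat_lit 1) (.cons (.ev (nat_lit 309489750706912184917557248) (nat_lit 1)) .nil)) (.cons (.rf (nat_lit 44) (nat_lit 12852421)) .nil))) (.cons (.rf (nat_lit 100) (nat_lit 11584701642934304)) .nil))) (.cons (.rf (nat_lit 44) (nat_lit 12852421)) .nil)))) (.cons (.br (nat_lit 8) (nat_lit 1) (.cons (.rf (nat_lit 101) (nat_lit 11584701642934304)) (.cons (.rf (nat_lit 100) (nat_lit 10493986108180512)) (.cons (.rf (nat_lit 93) (nat_lit 112330814063680)) .nil)))) .nil)))) .nil)))))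 (.cons (.rf (nat_lit 44) (nat_lit 11803845)) (.cons (.br (nat_lit 3) (nat_lit 0) (.cons (.rf (nat_lit 99) (nat_lit 9009937551456)) (.cons (.br (nat_lit 8) (nat_lit 1) (.cons (.rf (nat_lit 90) (nat_lit 5744789327968)) (.cons (.br (nat_lit 4) (nat_lit 0) (.cons (.rf (nat_lit 104) (nat_lit 11584701642934304)) (.cons (.br (nat_lit 4) (nat_lit 0) (.cons (.rf (nat_lit 104) (nat_lit 11584701642934304)) (.cons (.rf (nat_lit 44) (nat_lit 12852421)) .nil))) (.cons (.rf (nat_lit 44) (nat_lit 12852421)) .nil)))) (.cons (.rf (nat_lit 103) (nat_lit 11584701642934304)) .nil)))) (.cons (.br (nat_lit 7) (nat_lit 1) (.cons (.rf (nat_lit 104) (nat_lit 11584701642934304)) (.cons (.ev (nat_lit 72339069031481601) (nat_lit 1)) (.cons (.br (nat_lit 4) (nat_lit 0) (.cons (.rf (nat_lit 105) (nat_lit 407901468851537952)) (.cons (.br (nat_lit 4) (nat_lit 0) (.cons (.rf (nat_lit 105) (nat_lit 407901468851537952)) (.cons (.rf (nat_lit 44) (nat_lit 12852421)) .nil))) (.cons (.rf (nat_lit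 44) (nat_lit 12852421)) .nil)))) .nil)))) (.cons (.rf (nat_lit 44) (nat_lit 12852421)) .nil))))) .nil)))),
 (.br (nat_lit 4) (nat_lit 0) (.cons (.rf (nat_lit 44) (nat_lit 11803845)) (.cons (.br (nat_lit 4) (nat_lit 0) (.cons (.rf (nat_lit 44) (nat_lit 12852421)) .nil)) .nil))),
 (.br (nat_lit 4) (nat_lit 0) (.cons (.rf (nat_lit 101) (nat_lit 10490654386947136)) (.cons (.rf (nat_lit 44) (nat_lit 11803845)) (.cons (.br (nat_lit 4) (nat_lit 0) (.cons (.rf (nat_lit 101) (nat_lit 10490654386947136)) (.cons (.rf (nat_lit 44) (nat_lit 12852421)) .nil))) .nil)))),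
 (.br (nat_lit 7) (nat_lit 1) (.cons (.br (nat_lit 4) (nat_lit 0) (.cons (.br (nat_lit 9) (nat_lit 0) (.cons (.br (nat_lit 11) (nat_lit 1) (.cons (.ev (nat_lit 1237958947343867570347640320) (nat_lit 3)) .nil)) (.cons (.rf (nat_lit 44) (nat_lit 12852421)) .nil))) (.cons (.br (nat_lit 8) (nat_lit 1) (.cons (.br (nat_lit 11) (nat_lit 1) (.cons (.ev (nat_lit 309499214030457910056714241) (nat_lit 2)) .nil)) (.cons (.br (nat_lit 9) (nat_lit 0) (.cons (.ev (nat_lit 618974797421463930413253376) (nat_lit 2)) (.cons (.rf (nat_lit 44) (nat_lit 12852421)) .nil))) .nil))) (.cons (.rf (nat_lit 44) (nat_lit 12852421)) .nil)))) (.cons (.br (nat_lit 4) (nat_lit 0) (.cons (.rf (nat_lit 101) (nat_lit 11584701640839200)) (.cons (.br (nat_lit 8) (nat_lit 1) (.cons (.br (nat_lit 9) (nat_lit 0) (.cons (.ev (nat_lit 309489750706912184917557248) (nat_lit 1)) (.cons (.rf (nat_lit 44) (nat_lit 12852421)) .nil))) (.cons (.br (nat_lit 10) (nat_lit 0) (.cons (.ev (nat_lit 1208925891954802012782593)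 (nat_lit 1)) (.cons (.rf (nat_lit 44) (nat_lit 12852421)) .nil))) .nil))) (.cons (.rf (nat_lit 44) (nat_lit 12852421)) .nil)))) .nil))),
 (.br (nat_lit 4) (nat_lit 0) (.cons (.rf (nat_lit 101) (nat_lit 10490654386947136)) (.cons (.rf (nat_lit 44) (nat_lit 11803845)) (.cons (.br (nat_lit 4) (nat_lit 0) (.cons (.rf (nat_lit 101) (nat_lit 10490654386947136)) (.cons (.rf (nat_lit 44) (nat_lit 12852421)) .nil))) .nil)))),
 (.br (nat_lit 2) (nat_lit 0) (.cons (.rf (nat_lit 106) (nat_lit 11584701642934304)) (.cons (.rf (nat_lit 44) (nat_lit 11803845)) (.cons (.br (nat_lit 3) (nat_lit 0) (.cons (.br (nat_lit 7) (nat_lit 1) (.cons (.rf (nat_lit 90) (nat_lit 6877553397856)) (.cons (.br (nat_lit 9) (nat_lit 0) (.cons (.ev (nat_lit 18447025548703039489) (nat_lit 1)) (.cons (.br (nat_lit 8) (nat_lit 1) (.cons (.br (nat_lit 4) (nat_lit 0) (.cons (.br (nat_lit 11) (nat_lit 1) (.cons (.ev (nat_lit 309489732260167011679666176) (nat_lit 1)) .nil)) (.cons (.rf (nat_lit 44)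 (nat_lit 12852421)) .nil))) (.cons (.rf (nat_lit 107) (nat_lit 11584701642934304)) .nil))) (.cons (.rf (nat_lit 44) (nat_lit 12852421)) .nil)))) (.cons (.rf (nat_lit 108) (nat_lit 11584701642934304)) .nil)))) (.cons (.ev (nat_lit 18446745173237956609) (nat_lit 1)) (.cons (.br (nat_lit 7) (nat_lit 1) (.cons (.rf (nat_lit 109) (nat_lit 407901468851537952)) (.cons (.br (nat_lit 7) (nat_lit 1) (.cons (.rf (nat_lit 109) (nat_lit 407901468851537952)) (.cons (.rf (nat_lit 110) (nat_lit 11584701642934304)) .nil))) (.cons (.br (nat_lit 7) (nat_lit 1) (.cons (.rf (nat_lit 109) (nat_lit 407901468851537952)) (.cons (.rf (nat_lit 110) (nat_lit 11584701642934304)) .nil))) .nil)))) (.cons (.rf (nat_lit 44) (nat_lit 12852421)) .nil))))) .nil)))),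
 (.br (nat_lit 6) (nat_lit 1) (.cons (.rf (nat_lit 90) (nat_lit 7977033631776)) (.cons (.rf (nat_lit 95) (nat_lit 9043225708576)) (.cons (.rf (nat_lit 99) (nat_lit 9043225708576)) (.cons (.br (nat_lit 9) (nat_lit 1) (.cons (.br (nat_lit 2) (nat_lit 0) (.cons (.rf (nat_lit 106) (nat_lit 11584701642934304)) (.cons (.rf (nat_lit 111) (nat_lit 11584701642934304)) (.cons (.rf (nat_lit 44) (nat_lit 11803845)) (.cons (.br (nat_lit 2) (nat_lit 0) (.cons (.rf (nat_lit 106) (nat_lit 11584701642934304)) (.cons (.rf (nat_lit 111) (nat_lit 11584701642934304)) (.cons (.rf (nat_lit 44) (nat_lit 12852421)) .nil)))) .nil))))) .nil)) .nil))))),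
 (.br (nat_lit 9) (nat_lit 0) (.cons (.ev (nat_lit 72339069014704129) (nat_lit 1)) (.cons (.rf (nat_lit 44) (nat_lit 10755269)) (.cons (.br (nat_lit 9) (nat_lit 0) (.cons (.ev (nat_lit 72339069014704129) (nat_lit 1)) (.cons (.rf (nat_lit 44) (nat_lit 11803845)) .nil))) .nil)))),
 (.br (nat_lit 7) (nat_lit 1) (.cons (.zr (nat_lit 12884902656) (nat_lit 18519084242235817985) (nat_lit 5) (nat_lit 0)) (.cons (.rf (nat_lit 113) (nat_lit 325702574508064)) .nil))),
 (.br (nat_lit 4) (nat_lit 0) (.cons (.rf (nat_lit 113) (nat_lit 325669288511520)) (.cons (.rf (nat_lit 44) (nat_lit 10755269)) (.cons (.br (nat_lit 4) (nat_lit 0) (.cons (.rf (nat_lit 113) (nat_lit 325669288511520)) (.cons (.rf (nat_lit 44) (nat_lit 11803845)) .nil))) .nil)))),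
 (.br (nat_lit 9) (nat_lit 0) (.cons (.rf (nat_lit 44) (nat_lit 11803845)) (.cons (.br (nat_lit 9) (nat_lit 0) (.cons (.rf (nat_lit 44) (nat_lit 12852421)) .nil)) .nil))),
 (.br (nat_lit 4) (nat_lit 0) (.cons (.br (nat_lit 7) (nat_lit 1) (.cons (.br (nat_lit 9) (nat_lit 0) (.cons (.br (nat_lit 11) (nat_lit 1) (.cons (.ev (nat_lit 309489732260167007384633344) (nat_lit 1)) .nil)) (.cons (.rf (nat_lit 44) (nat_lit 12852421)) .nil))) (.cons (.rf (nat_lit 116) (nat_lit 11584701642934304)) .nil))) (.cons (.rf (nat_lit 44) (nat_lit 12852421)) .nil))),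
 (.br (nat_lit 6) (nat_lit 1) (.cons (.br (nat_lit 2) (nat_lit 0) (.cons (.rf (nat_lit 114) (nat_lit 9043225708576)) (.cons (.rf (nat_lit 44) (nat_lit 9706693)) (.cons (.br (nat_lit 4) (nat_lit 0) (.cons (.rf (nat_lit 114) (nat_lit 9043223548000)) (.cons (.kr (nat_lit 4294967552) (nat_lit 16842752) (nat_lit 1) (nat_lit 0)) (.cons (.rf (nat_lit 44) (nat_lit 10755269)) .nil)))) .nil)))) (.cons (.br (nat_lit 9) (nat_lit 1) (.cons (.br (nat_lit 2) (nat_lit 0) (.cons (.rf (nat_lit 115) (nat_lit 325702574508064)) (.cons (.rf (nat_lit 44) (nat_lit 11803845)) (.cons (.br (nat_lit 4) (nat_lit 0) (.cons (.rf (nat_lit 117) (nat_lit 407901468851537952)) (.cons (.br (nat_lit 4) (nat_lit 0) (.cons (.rf (nat_lit 117) (nat_lit 407901468851537952)) (.cons (.rf (nat_lit 44) (nat_lit 12852421)) .nil))) (.cons (.rf (nat_lit 44) (nat_lit 12852421)) .nil)))) .nil)))) .nil)) .nil))),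
 (.br (nat_lit 2) (nat_lit 0) (.cons (.rf (nat_lit 118) (nat_lit 9043225708576)) (.cons (.rf (nat_lit 118) (nat_lit 9009939712032)) (.cons (.rf (nat_lit 44) (nat_lit 9706693)) (.cons (.br (nat_lit 2) (nat_lit 0) (.cons (.rf (nat_lit 118) (nat_lit 9043225708576)) (.cons (.rf (nat_lit 118) (nat_lit 9009939712032)) (.cons (.rf (nat_lit 44) (nat_lit 10755269)) .nil)))) .nil))))),
 (.br (nat_lit 4) (nat_lit 0) (.cons (.br (nat_lit 3) (nat_lit 0) (.cons (.rf (nat_lit 119) (nat_lit 9043225708576)) (.cons (.br (nat_lit 8) (nat_lit 1) (.cons (.br (nat_lit 9) (nat_lit 0) (.cons (.br (nat_lit 11) (nat_lit 1) (.cons (.ev (nat_lit 309489750706912184917557248) (nat_lit 1)) .nil)) (.cons (.rf (nat_lit 44) (nat_lit 12852421)) .nil))) (.cons (.rf (nat_lit 74) (nat_lit 10493952822152224)) .nil))) (.cons (.rf (nat_lit 44) (nat_lit 12852421)) .nil)))) (.cons (.ev (nat_lit 18446745173221179649) (nat_lit 1)) (.cons (.rf (nat_lit 44) (nat_lit 12852421)) .nil)))),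
 (.br (nat_lit 10) (nat_lit 0) (.cons (.rf (nat_lit 74) (nat_lit 10492919914991680)) (.cons (.rf (nat_lit 44) (nat_lit 11803845)) (.cons (.br (nat_lit 10) (nat_lit 0) (.cons (.rf (nat_lit 74) (nat_lit 10492919914991680)) (.cons (.rf (nat_lit 44) (nat_lit 12852421)) .nil))) .nil)))),
 (.br (nat_lit 4) (nat_lit 0) (.cons (.br (nat_lit 7) (nat_lit 1) (.cons (.br (nat_lit 11) (nat_lit 1) (.cons (.ev (nat_lit 309499177137532721147412481) (nat_lit 2)) .nil)) (.cons (.br (nat_lit 9) (nat_lit 0) (.cons (.ev (nat_lit 309489750706912184917557248) (nat_lit 1)) (.cons (.rf (nat_lit 44) (nat_lit 12852421)) .nil))) .nil))) (.cons (.rf (nat_lit 44) (nat_lit 12852421)) .nil))),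
 (.br (nat_lit 4) (nat_lit 0) (.cons (.br (nat_lit 7) (nat_lit 1) (.cons (.br (nat_lit 9) (nat_lit 0) (.cons (.ev (nat_lit 618974742082076129869431552) (nat_lit 2)) (.cons (.rf (nat_lit 44) (nat_lit 12852421)) .nil))) (.cons (.rf (nat_lit 83) (nat_lit 335914243557755936)) .nil))) (.cons (.rf (nat_lit 44) (nat_lit 12852421)) .nil))),
 (.br (nat_lit 2) (nat_lit 0) (.cons (.br (nat_lit 6) (nat_lit 1) (.cons (.rf (nat_lit 121) (nat_lit 11584701642934304)) (.cons (.br (nat_lit 4) (nat_lit 0) (.cons (.rf (nat_lit 121) (nat_lit 11584668356937760)) (.cons (.rf (nat_lit 120) (nat_lit 407901468851537952)) (.cons (.rf (nat_lit 44) (nat_lit 12852421)) .nil)))) (.cons (.br (nat_lit 4) (nat_lit 0) (.cons (.rf (nat_lit 121) (nat_lit 11584668356937760)) (.cons (.rf (nat_lit 120) (nat_lit 406810753316784160)) (.cons (.rf (nat_lit 44) (nat_lit 12852421)) .nil)))) .nil)))) (.cons (.br (nat_lit 6) (nat_lit 1) (.cons (.rf (nat_lit 121) (nat_lit 11584701642934304)) (.cons (.br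 (nat_lit 4) (nat_lit 0) (.cons (.rf (nat_lit 122) (nat_lit 407901468851537952)) (.cons (.br (nat_lit 4) (nat_lit 0) (.cons (.rf (nat_lit 122) (nat_lit 407901468851537952)) (.cons (.rf (nat_lit 44) (nat_lit 12852421)) .nil))) (.cons (.rf (nat_lit 44) (nat_lit 12852421)) .nil)))) (.cons (.br (nat_lit 4) (nat_lit 0) (.cons (.rf (nat_lit 123) (nat_lit 407901468851537952)) (.cons (.br (nat_lit 4) (nat_lit 0) (.cons (.rf (nat_lit 123) (nat_lit 407901468851537952)) (.cons (.rf (nat_lit 44) (nat_lit 12852421)) .nil))) (.cons (.rf (nat_lit 44) (nat_lit 12852421)) .nil)))) .nil)))) (.cons (.rf (nat_lit 44) (nat_lit 12852421)) .nil)))),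
 (.br (nat_lit 8) (nat_lit 1) (.cons (.rf (nat_lit 90) (nat_lit 5744791488544)) (.cons (.rf (nat_lit 119) (nat_lit 9043225708576)) (.cons (.ev (nat_lit 18446745173221179649) (nat_lit 1)) (.cons (.br (nat_lit 9) (nat_lit 1) (.cons (.br (nat_lit 3) (nat_lit 0) (.cons (.rf (nat_lit 112) (nat_lit 9043223548000)) (.cons (.rf (nat_lit 112) (nat_lit 9009937551456)) (.cons (.rf (nat_lit 44) (nat_lit 11803845)) (.cons (.br (nat_lit 2) (nat_lit 0) (.cons (.rf (nat_lit 124) (nat_lit 407901468851537952)) (.cons (.rf (nat_lit 124) (nat_lit 407901435565541408)) (.cons (.br (nat_lit 2) (nat_lit 0) (.cons (.rf (nat_lit 124) (nat_lit 407901468851537952)) (.cons (.rf (nat_lit 124) (nat_lit 407901435565541408)) (.cons (.rf (nat_lit 44) (nat_lit 12852421)) .nil)))) (.cons (.rf (nat_lit 44) (nat_lit 12852421)) .nil))))) .nil))))) .nil)) .nil))))),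
 (.br (nat_lit 10) (nat_lit 0) (.cons (.ev (nat_lit 1208944338698875722268673) (nat_lit 1)) (.cons (.ev (nat_lit 1213666705181745367482368) (nat_lit 1)) (.cons (.rf (nat_lit 44) (nat_lit 12852421)) .nil)))),
 (.br (nat_lit 4) (nat_lit 0) (.cons (.br (nat_lit 8) (nat_lit 1) (.cons (.br (nat_lit 9) (nat_lit 1) (.cons (.ev (nat_lit 1213666632842672041165056) (nat_lit 1)) .nil)) (.cons (.rf (nat_lit 126) (nat_lit 407901468851537952)) .nil))) (.cons (.rf (nat_lit 44) (nat_lit 12852421)) .nil))),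
 (.br (nat_lit 10) (nat_lit 0) (.cons (.ev (nat_lit 1208944483095538758255106) (nat_lit 2)) (.cons (.rf (nat_lit 44) (nat_lit 12852421)) .nil))),
 (.br (nat_lit 4) (nat_lit 0) (.cons (.br (nat_lit 8) (nat_lit 1) (.cons (.rf (nat_lit 128) (nat_lit 407901468851537952)) (.cons (.rf (nat_lit 128) (nat_lit 372998538453420064)) .nil))) (.cons (.rf (nat_lit 44) (nat_lit 12852421)) .nil))),
 (.br (nat_lit 3) (nat_lit 0) (.cons (.kr (nat_lit 65536) (nat_lit 16777216) (nat_lit 2) (nat_lit 0)) (.cons (.kr (nat_lit 72057594037993472) (nat_lit 1099528404992) (nat_lit 2) (nat_lit 0)) (.cons (.rf (nat_lit 44) (nat_lit 10721444)) .nil)))),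
 (.br (nat_lit 4) (nat_lit 0) (.cons (.br (nat_lit 4) (nat_lit 0) (.cons (.kr (nat_lit 18446744073726328832) (nat_lit 281479271677952) (nat_lit 3) (nat_lit 0)) (.cons (.rf (nat_lit 44) (nat_lit 11803845)) .nil))) (.cons (.rf (nat_lit 130) (nat_lit 362021926341696)) (.cons (.rf (nat_lit 44) (nat_lit 11803845)) .nil)))),
 (.br (nat_lit 4) (nat_lit 0) (.cons (.br (nat_lit 7) (nat_lit 1) (.cons (.ev (nat_lit 72058693549621249) (nat_lit 1)) (.cons (.rf (nat_lit 45) (nat_lit 335913177365710880)) (.cons (.rf (nat_lit 62) (nat_lit 337001660657304640)) .nil)))) (.cons (.rf (nat_lit 44) (nat_lit 12852421)) .nil))),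
 (.br (nat_lit 8) (nat_lit 1) (.cons (.rf (nat_lit 112) (nat_lit 5744790471744)) (.cons (.rf (nat_lit 131) (nat_lit 11584701642934304)) (.cons (.br (nat_lit 4) (nat_lit 0) (.cons (.rf (nat_lit 132) (nat_lit 407901468851537952)) (.cons (.br (nat_lit 4) (nat_lit 0) (.cons (.rf (nat_lit 132) (nat_lit 407901468851537952)) (.cons (.rf (nat_lit 44) (nat_lit 12852421)) .nil))) (.cons (.rf (nat_lit 44) (nat_lit 12852421)) .nil)))) .nil)))),
 (.br (nat_lit 7) (nat_lit 1) (.cons (.br (nat_lit 4) (nat_lit 0) (.cons (.rf (nat_lit 133) (nat_lit 11584668354777184)) (.cons (.br (nat_lit 11) (nat_lit 0) (.cons (.rf (nat_lit 83) (nat_lit 407901468851506208)) (.cons (.rf (nat_lit 44) (nat_lit 12852421)) .nil))) (.cons (.rf (nat_lit 44) (nat_lit 12852421)) .nil)))) (.cons (.br (nat_lit 4) (nat_lit 0) (.cons (.rf (nat_lit 133) (nat_lit 12710568261619808)) (.cons (.br (nat_lit 10) (nat_lit 0) (.cons (.br (nat_lit 10) (nat_lit 0) (.cons (.rf (nat_lit 44) (nat_lit 12852421)) .nil))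 (.cons (.rf (nat_lit 44) (nat_lit 12852421)) .nil))) (.cons (.rf (nat_lit 44) (nat_lit 12852421)) .nil)))) .nil)))]

theorem c2 : chkAll C T R L2 (nat_lit 95) = true := by decide +kernel

theorem l2 : (nat_lit 95) + L2.length = (nat_lit 135) := by decide +kernel

/-- part of the certificates -/
def L3 : List Prf := [(.br (nat_lit 7) (nat_lit 1) (.cons (.rf (nat_lit 134) (nat_lit 407901468851537952)) (.cons (.br (nat_lit 10) (nat_lit 0) (.cons (.kr (nat_lit 1208925819614629174706432) (nat_lit 72057594037993472) (nat_lit 1) (nat_lit 0)) (.cons (.rf (nat_lit 121) (nat_lit 4898604752897353)) (.cons (.rf (nat_lit 44) (nat_lit 12852421)) .nil)))) .nil))),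
 (.br (nat_lit 6) (nat_lit 1) (.cons (.br (nat_lit 7) (nat_lit 1) (.cons (.rf (nat_lit 125) (nat_lit 7977032614976)) (.cons (.rf (nat_lit 125) (nat_lit 7977030454400)) (.cons (.br (nat_lit 7) (nat_lit 1) (.cons (.rf (nat_lit 125) (nat_lit 7977032614976)) (.cons (.rf (nat_lit 125) (nat_lit 7977030454400)) (.cons (.br (nat_lit 2) (nat_lit 0) (.cons (.rf (nat_lit 112) (nat_lit 7877174625344)) (.cons (.br (nat_lit 4) (nat_lit 0) (.cons (.rf (nat_lit 112) (nat_lit 7877172464768)) (.cons (.kr (nat_lit 4294967552) (nat_lit 16842752) (nat_lit 1) (nat_lit 0)) (.cons (.rf (nat_lit 44) (nat_lit 12852421)) .nil)))) (.cons (.rf (nat_lit 44) (nat_lit 12852421)) .nil)))) .nil)))) .nil)))) (.cons (.br (nat_lit 10) (nat_lit 1) (.cons (.br (nat_lit 2) (nat_lit 0) (.cons (.br (nat_lit 7) (nat_lit 1) (.cons (.rf (nat_lit 125) (nat_lit 6877554541632)) (.cons (.br (nat_lit 4) (nat_lit 0) (.cons (.rf (nat_lit 127) (nat_lit 407901468851537952)) (.cons (.br (nat_lit 4) (nat_lit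 0) (.cons (.rf (nat_lit 127) (nat_lit 407901468851537952)) (.cons (.rf (nat_lit 44) (nat_lit 12852421)) .nil))) (.cons (.rf (nat_lit 44) (nat_lit 12852421)) .nil)))) (.cons (.br (nat_lit 4) (nat_lit 0) (.cons (.rf (nat_lit 129) (nat_lit 407901468851537952)) (.cons (.br (nat_lit 4) (nat_lit 0) (.cons (.rf (nat_lit 129) (nat_lit 407901468851537952)) (.cons (.rf (nat_lit 44) (nat_lit 12852421)) .nil))) (.cons (.rf (nat_lit 44) (nat_lit 12852421)) .nil)))) .nil)))) (.cons (.rf (nat_lit 133) (nat_lit 11584701642934304)) (.cons (.br (nat_lit 7) (nat_lit 1) (.cons (.rf (nat_lit 134) (nat_lit 407901468851537952)) (.cons (.rf (nat_lit 135) (nat_lit 407901468851537952)) (.cons (.br (nat_lit 7) (nat_lit 1) (.cons (.rf (nat_lit 134) (nat_lit 407901468851537952)) (.cons (.rf (nat_lit 135) (nat_lit 407901468851537952)) .nil))) .nil)))) (.cons (.rf (nat_lit 44) (nat_lit 12852421)) .nil))))) .nil)) .nil))),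
 (.br (nat_lit 7) (nat_lit 1) (.cons (.rf (nat_lit 136) (nat_lit 325669286350944)) (.cons (.br (nat_lit 4) (nat_lit 0) (.cons (.br (nat_lit 4) (nat_lit 0) (.cons (.kr (nat_lit 4294967552) (nat_lit 16842752) (nat_lit 1) (nat_lit 0)) (.cons (.rf (nat_lit 44) (nat_lit 12852421)) .nil))) (.cons (.br (nat_lit 4) (nat_lit 0) (.cons (.kr (nat_lit 4294967552) (nat_lit 16842752) (nat_lit 1) (nat_lit 0)) (.cons (.rf (nat_lit 44) (nat_lit 12852421)) .nil))) (.cons (.rf (nat_lit 44) (nat_lit 12852421)) .nil)))) .nil))),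
 (.br (nat_lit 2) (nat_lit 0) (.cons (.rf (nat_lit 136) (nat_lit 325669288511520)) (.cons (.br (nat_lit 7) (nat_lit 1) (.cons (.rf (nat_lit 136) (nat_lit 325669286350944)) (.cons (.rf (nat_lit 137) (nat_lit 407901468851537952)) (.cons (.rf (nat_lit 137) (nat_lit 372998571739416608)) .nil)))) (.cons (.rf (nat_lit 44) (nat_lit 12852421)) .nil)))),
 (.br (nat_lit 1) (nat_lit 0) (.cons (.rf (nat_lit 112) (nat_lit 9043225708576)) (.cons (.rf (nat_lit 112) (nat_lit 9009939712032)) (.cons (.rf (nat_lit 125) (nat_lit 9043225708576)) (.cons (.rf (nat_lit 44) (nat_lit 9706693)) (.cons (.br (nat_lit 3) (nat_lit 0) (.cons (.rf (nat_lit 112) (nat_lit 9043223548000)) (.cons (.rf (nat_lit 112) (nat_lit 9009937551456)) (.cons (.rf (nat_lit 125) (nat_lit 9043223548000)) (.cons (.br (nat_lit 6) (nat_lit 1) (.cons (.rf (nat_lit 136) (nat_lit 325702574508064)) (.cons (.rf (nat_lit 136) (nat_lit 325702572347488)) (.cons (.br (nat_lit 6) (nat_lit 1) (.cons (.rf (nat_lit 136)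 (nat_lit 325702574508064)) (.cons (.rf (nat_lit 136) (nat_lit 325702572347488)) (.cons (.br (nat_lit 2) (nat_lit 0) (.cons (.rf (nat_lit 136) (nat_lit 325669288511520)) (.cons (.rf (nat_lit 138) (nat_lit 407901468851537952)) (.cons (.br (nat_lit 2) (nat_lit 0) (.cons (.rf (nat_lit 136) (nat_lit 325669288511520)) (.cons (.rf (nat_lit 138) (nat_lit 407901468851537952)) (.cons (.rf (nat_lit 44) (nat_lit 12852421)) .nil)))) (.cons (.rf (nat_lit 44) (nat_lit 12852421)) .nil))))) .nil)))) .nil)))) (.cons (.rf (nat_lit 44) (nat_lit 10755269)) .nil)))))) .nil)))))),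
 (.br (nat_lit 3) (nat_lit 0) (.cons (.rf (nat_lit 139) (nat_lit 6877555557440)) (.cons (.rf (nat_lit 44) (nat_lit 10755269)) (.cons (.br (nat_lit 4) (nat_lit 0) (.cons (.rf (nat_lit 139) (nat_lit 6877554541632)) (.cons (.rf (nat_lit 90) (nat_lit 5744789327968)) (.cons (.rf (nat_lit 130) (nat_lit 327833989811232)) (.cons (.rf (nat_lit 44) (nat_lit 11803845)) .nil))))) .nil)))),
 (.br (nat_lit 3) (nat_lit 0) (.cons (.rf (nat_lit 139) (nat_lit 6877555557440)) (.cons (.rf (nat_lit 140) (nat_lit 325702574508064)) (.cons (.rf (nat_lit 44) (nat_lit 10755269)) (.cons (.br (nat_lit 3) (nat_lit 0) (.cons (.rf (nat_lit 139) (nat_lit 6877555557440)) (.cons (.rf (nat_lit 140) (nat_lit 325702574508064)) (.cons (.rf (nat_lit 44) (nat_lit 11803845)) .nil)))) .nil))))),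
 (.br (nat_lit 3) (nat_lit 0) (.cons (.rf (nat_lit 139) (nat_lit 9043225708576)) (.cons (.rf (nat_lit 139) (nat_lit 7977033631776)) (.cons (.rf (nat_lit 139) (nat_lit 6877555557440)) (.cons (.rf (nat_lit 44) (nat_lit 9706693)) (.cons (.br (nat_lit 4) (nat_lit 0) (.cons (.rf (nat_lit 139) (nat_lit 9043224692768)) (.cons (.rf (nat_lit 139) (nat_lit 7977032615968)) (.cons (.rf (nat_lit 139) (nat_lit 6877554541632)) (.cons (.rf (nat_lit 90) (nat_lit 5744789327968)) (.cons (.br (nat_lit 4) (nat_lit 0) (.cons (.rf (nat_lit 139) (nat_lit 9043224692768)) (.cons (.rf (nat_lit 139) (nat_lit 7977032615968)) (.cons (.rf (nat_lit 139) (nat_lit 6877554541632)) (.cons (.kr (nat_lit 16777216) (nat_lit 4294967296) (nat_lit 3) (nat_lit 0)) (.cons (.rf (nat_lit 44) (nat_lit 10755269)) .nil)))))) (.cons (.rf (nat_lit 44) (nat_lit 10755269)) .nil))))))) .nil)))))),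
 (.br (nat_lit 3) (nat_lit 0) (.cons (.rf (nat_lit 139) (nat_lit 9043225708576)) (.cons (.rf (nat_lit 139) (nat_lit 7977033631776)) (.cons (.rf (nat_lit 139) (nat_lit 6877555557440)) (.cons (.rf (nat_lit 142) (nat_lit 9043225708576)) (.cons (.rf (nat_lit 44) (nat_lit 9706693)) (.cons (.br (nat_lit 3) (nat_lit 0) (.cons (.rf (nat_lit 139) (nat_lit 9043225708576)) (.cons (.rf (nat_lit 139) (nat_lit 7977033631776)) (.cons (.rf (nat_lit 139) (nat_lit 6877555557440)) (.cons (.rf (nat_lit 142) (nat_lit 9043225708576)) (.cons (.rf (nat_lit 44) (nat_lit 10755269)) .nil)))))) .nil))))))),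
 (.br (nat_lit 6) (nat_lit 1) (.cons (.rf (nat_lit 90) (nat_lit 7977033631776)) (.cons (.rf (nat_lit 139) (nat_lit 7977033631776)) (.cons (.rf (nat_lit 139) (nat_lit 7977032615968)) (.cons (.br (nat_lit 2) (nat_lit 0) (.cons (.rf (nat_lit 143) (nat_lit 9043225708576)) (.cons (.rf (nat_lit 143) (nat_lit 7977033631776)) (.cons (.rf (nat_lit 44) (nat_lit 10755269)) (.cons (.br (nat_lit 2) (nat_lit 0) (.cons (.rf (nat_lit 143) (nat_lit 9043225708576)) (.cons (.rf (nat_lit 143) (nat_lit 7977033631776)) (.cons (.rf (nat_lit 44) (nat_lit 11803845)) .nil)))) .nil))))) (.cons (.br (nat_lit 2) (nat_lit 0) (.cons (.rf (nat_lit 143) (nat_lit 9043225708576)) (.cons (.rf (nat_lit 143) (nat_lit 7977033631776)) (.cons (.rf (nat_lit 44) (nat_lit 11803845)) (.cons (.br (nat_lit 2) (nat_lit 0) (.cons (.rf (nat_lit 143) (nat_lit 9043225708576)) (.cons (.rf (nat_lit 143) (nat_lit 7977033631776)) (.cons (.rf (nat_lit 44) (nat_lit 12852421)) .nil)))) .nil))))) .nil)))))),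
 (.br (nat_lit 3) (nat_lit 0) (.cons (.rf (nat_lit 139) (nat_lit 9043225708576)) (.cons (.rf (nat_lit 139) (nat_lit 7977033630784)) (.cons (.rf (nat_lit 139) (nat_lit 5744791488544)) (.cons (.rf (nat_lit 44) (nat_lit 9706693)) (.cons (.br (nat_lit 4) (nat_lit 0) (.cons (.rf (nat_lit 139) (nat_lit 9043224692768)) (.cons (.rf (nat_lit 139) (nat_lit 7977032614976)) (.cons (.rf (nat_lit 90) (nat_lit 6877553397856)) (.cons (.rf (nat_lit 139) (nat_lit 5744790472736)) (.cons (.br (nat_lit 4) (nat_lit 0) (.cons (.rf (nat_lit 139) (nat_lit 9043224692768)) (.cons (.rf (nat_lit 139) (nat_lit 7977032614976)) (.cons (.kr (nat_lit 16777216) (nat_lit 4294967296) (nat_lit 3) (nat_lit 0)) (.cons (.rf (nat_lit 139) (nat_lit 5744790472736)) (.cons (.rf (nat_lit 44) (nat_lit 10755269)) .nil)))))) (.cons (.rf (nat_lit 44) (nat_lit 10755269)) .nil))))))) .nil)))))),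
 (.br (nat_lit 3) (nat_lit 0) (.cons (.rf (nat_lit 139) (nat_lit 9043225708576)) (.cons (.rf (nat_lit 139) (nat_lit 7977033630784)) (.cons (.rf (nat_lit 145) (nat_lit 9043225708576)) (.cons (.rf (nat_lit 139) (nat_lit 5744791488544)) (.cons (.rf (nat_lit 44) (nat_lit 9706693)) (.cons (.br (nat_lit 3) (nat_lit 0) (.cons (.rf (nat_lit 139) (nat_lit 9043225708576)) (.cons (.rf (nat_lit 139) (nat_lit 7977033630784)) (.cons (.rf (nat_lit 145) (nat_lit 9043225708576)) (.cons (.rf (nat_lit 139) (nat_lit 5744791488544)) (.cons (.rf (nat_lit 44) (nat_lit 10755269)) .nil)))))) .nil))))))),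
 (.br (nat_lit 8) (nat_lit 1) (.cons (.rf (nat_lit 90) (nat_lit 5744791488544)) (.cons (.rf (nat_lit 139) (nat_lit 5744791488544)) (.cons (.rf (nat_lit 139) (nat_lit 5744790472736)) (.cons (.br (nat_lit 2) (nat_lit 0) (.cons (.rf (nat_lit 146) (nat_lit 9043225708576)) (.cons (.rf (nat_lit 146) (nat_lit 9009939712032)) (.cons (.rf (nat_lit 44) (nat_lit 10755269)) (.cons (.br (nat_lit 2) (nat_lit 0) (.cons (.rf (nat_lit 146) (nat_lit 9043225708576)) (.cons (.rf (nat_lit 146) (nat_lit 9009939712032)) (.cons (.rf (nat_lit 44) (nat_lit 11803845)) .nil)))) .nil))))) (.cons (.br (nat_lit 2) (nat_lit 0) (.cons (.rf (nat_lit 146) (nat_lit 9043225708576)) (.cons (.rf (nat_lit 146) (nat_lit 9009939712032)) (.cons (.rf (nat_lit 44) (nat_lit 11803845)) (.cons (.br (nat_lit 2) (nat_lit 0) (.cons (.rf (nat_lit 146) (nat_lit 9043225708576)) (.cons (.rf (nat_lit 146) (nat_lit 9009939712032)) (.cons (.rf (nat_lit 44) (nat_lit 12852421)) .nil)))) .nil))))) .nil)))))),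
 (.br (nat_lit 8) (nat_lit 1) (.cons (.br (nat_lit 4) (nat_lit 0) (.cons (.ev (nat_lit 309489787744798090639441921) (nat_lit 2)) (.cons (.rf (nat_lit 44) (nat_lit 12852421)) .nil))) .nil)),
 (.br (nat_lit 4) (nat_lit 0) (.cons (.br (nat_lit 9) (nat_lit 0) (.cons (.ev (nat_lit 309489787744798103474012161) (nat_lit 2)) (.cons (.rf (nat_lit 44) (nat_lit 12852421)) .nil))) (.cons (.rf (nat_lit 44) (nat_lit 12852421)) .nil))),
 (.br (nat_lit 3) (nat_lit 0) (.cons (.ev (nat_lit 282574505115649) (nat_lit 1)) (.cons (.br (nat_lit 7) (nat_lit 1) (.cons (.rf (nat_lit 90) (nat_lit 6877553397856)) (.cons (.br (nat_lit 8) (nat_lit 1) (.cons (.rf (nat_lit 148) (nat_lit 407901468851537952)) (.cons (.br (nat_lit 8) (nat_lit 1) (.cons (.rf (nat_lit 148) (nat_lit 407901468851537952)) .nil)) .nil))) (.cons (.br (nat_lit 4) (nat_lit 0) (.cons (.rf (nat_lit 149) (nat_lit 407901468851537952)) (.cons (.br (nat_lit 4) (nat_lit 0) (.cons (.rf (nat_lit 149) (nat_lit 407901468851537952))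 (.cons (.rf (nat_lit 44) (nat_lit 12852421)) .nil))) (.cons (.rf (nat_lit 44) (nat_lit 12852421)) .nil)))) .nil)))) (.cons (.rf (nat_lit 44) (nat_lit 12852421)) .nil)))),
 (.br (nat_lit 4) (nat_lit 0) (.cons (.br (nat_lit 9) (nat_lit 0) (.cons (.ev (nat_lit 309489769226278997329969921) (nat_lit 2)) (.cons (.rf (nat_lit 44) (nat_lit 12852421)) .nil))) (.cons (.rf (nat_lit 44) (nat_lit 12852421)) .nil))),
 (.br (nat_lit 4) (nat_lit 0) (.cons (.br (nat_lit 10) (nat_lit 0) (.cons (.ev (nat_lit 310693972679410756859658241) (nat_lit 2)) (.cons (.rf (nat_lit 44) (nat_lit 12852421)) .nil))) (.cons (.rf (nat_lit 44) (nat_lit 12852421)) .nil))),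
 (.br (nat_lit 3) (nat_lit 0) (.cons (.br (nat_lit 7) (nat_lit 1) (.cons (.rf (nat_lit 90) (nat_lit 6877553397856)) (.cons (.rf (nat_lit 144) (nat_lit 323437044207712)) (.cons (.rf (nat_lit 144) (nat_lit 358621416296544)) .nil)))) (.cons (.br (nat_lit 7) (nat_lit 1) (.cons (.rf (nat_lit 90) (nat_lit 6877553397856)) (.cons (.br (nat_lit 4) (nat_lit 0) (.cons (.rf (nat_lit 151) (nat_lit 407901468851537952)) (.cons (.br (nat_lit 4) (nat_lit 0) (.cons (.rf (nat_lit 151) (nat_lit 407901468851537952)) (.cons (.rf (nat_lit 44) (nat_lit 12852421)) .nil))) (.cons (.rf (nat_lit 44) (nat_lit 12852421)) .nil)))) (.cons (.br (nat_lit 4) (nat_lit 0) (.cons (.rf (nat_lit 152) (nat_lit 407901468851537952)) (.cons (.br (nat_lit 4) (nat_lit 0) (.cons (.rf (nat_lit 152) (nat_lit 407901468851537952)) (.cons (.rf (nat_lit 44) (nat_lit 12852421)) .nil))) (.cons (.rf (nat_lit 44) (nat_lit 12852421)) .nil)))) .nil)))) (.cons (.rf (nat_lit 44) (nat_lit 12852421)) .nil)))),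
 (.br (nat_lit 2) (nat_lit 0) (.cons (.rf (nat_lit 146) (nat_lit 7977033630784)) (.cons (.rf (nat_lit 143) (nat_lit 7877175641152)) (.cons (.br (nat_lit 6) (nat_lit 1) (.cons (.rf (nat_lit 139) (nat_lit 7977033630784)) (.cons (.rf (nat_lit 139) (nat_lit 7977032614976)) (.cons (.br (nat_lit 3) (nat_lit 0) (.cons (.rf (nat_lit 150) (nat_lit 407901468851537952)) (.cons (.rf (nat_lit 150) (nat_lit 407900402659460160)) (.cons (.br (nat_lit 3) (nat_lit 0) (.cons (.rf (nat_lit 150) (nat_lit 407901468851537952)) (.cons (.rf (nat_lit 150) (nat_lit 407900402659460160)) (.cons (.rf (nat_lit 44) (nat_lit 12852421)) .nil)))) (.cons (.rf (nat_lit 44) (nat_lit 12852421)) .nil))))) (.cons (.br (nat_lit 3) (nat_lit 0) (.cons (.rf (nat_lit 153) (nat_lit 407901468851537952)) (.cons (.rf (nat_lit 153) (nat_lit 406809687124706368)) (.cons (.br (nat_lit 3) (nat_lit 0) (.cons (.rf (nat_lit 153) (nat_lit 407901468851537952)) (.cons (.rf (nat_lit 153) (nat_lit 406809687124706368))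 (.cons (.rf (nat_lit 44) (nat_lit 12852421)) .nil)))) (.cons (.rf (nat_lit 44) (nat_lit 12852421)) .nil))))) .nil))))) (.cons (.rf (nat_lit 44) (nat_lit 12852421)) .nil))))),
 (.br (nat_lit 6) (nat_lit 1) (.cons (.rf (nat_lit 90) (nat_lit 7977031471200)) (.cons (.rf (nat_lit 147) (nat_lit 359820752359520)) .nil))),
 (.br (nat_lit 10) (nat_lit 0) (.cons (.kr (nat_lit 281474976710656) (nat_lit 4722366482869645213696) (nat_lit 6) (nat_lit 0)) (.cons (.rf (nat_lit 44) (nat_lit 12852421)) .nil))),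
 (.br (nat_lit 7) (nat_lit 1) (.cons (.br (nat_lit 4) (nat_lit 0) (.cons (.rf (nat_lit 156) (nat_lit 407901468851537952)) (.cons (.rf (nat_lit 44) (nat_lit 12852421)) .nil))) .nil)),
 (.br (nat_lit 9) (nat_lit 0) (.cons (.kr (nat_lit 281474976710656) (nat_lit 4722366482869645213696) (nat_lit 6) (nat_lit 0)) (.cons (.rf (nat_lit 156) (nat_lit 407901435565541408)) (.cons (.rf (nat_lit 44) (nat_lit 12852421)) .nil)))),
 (.br (nat_lit 3) (nat_lit 0) (.cons (.rf (nat_lit 155) (nat_lit 396071318685728)) (.cons (.br (nat_lit 6) (nat_lit 1) (.cons (.rf (nat_lit 90) (nat_lit 7977031471200)) (.cons (.br (nat_lit 7) (nat_lit 1) (.cons (.rf (nat_lit 157) (nat_lit 407901468851537952)) (.cons (.br (nat_lit 7) (nat_lit 1) (.cons (.rf (nat_lit 157) (nat_lit 407901468851537952)) .nil)) .nil))) (.cons (.br (nat_lit 4) (nat_lit 0) (.cons (.br (nat_lit 4) (nat_lit 0) (.cons (.rf (nat_lit 158) (nat_lit 407901468851537952)) (.cons (.rf (nat_lit 44) (nat_lit 12852421)) .nil)))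 (.cons (.rf (nat_lit 158) (nat_lit 407901468851537952)) (.cons (.rf (nat_lit 44) (nat_lit 12852421)) .nil)))) .nil)))) (.cons (.rf (nat_lit 44) (nat_lit 12852421)) .nil)))),
 (.br (nat_lit 4) (nat_lit 0) (.cons (.br (nat_lit 9) (nat_lit 0) (.cons (.rf (nat_lit 158) (nat_lit 407900302799310944)) (.cons (.rf (nat_lit 44) (nat_lit 12852421)) .nil))) (.cons (.rf (nat_lit 44) (nat_lit 12852421)) .nil))),
 (.br (nat_lit 4) (nat_lit 0) (.cons (.rf (nat_lit 160) (nat_lit 407901468851537952)) (.cons (.br (nat_lit 4) (nat_lit 0) (.cons (.rf (nat_lit 160) (nat_lit 407901468851537952)) (.cons (.rf (nat_lit 44) (nat_lit 12852421)) .nil))) (.cons (.rf (nat_lit 44) (nat_lit 12852421)) .nil)))),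
 (.br (nat_lit 3) (nat_lit 0) (.cons (.rf (nat_lit 155) (nat_lit 396071318685728)) (.cons (.br (nat_lit 6) (nat_lit 1) (.cons (.rf (nat_lit 90) (nat_lit 7977031471200)) (.cons (.rf (nat_lit 161) (nat_lit 407901468851537952)) (.cons (.rf (nat_lit 161) (nat_lit 406807454882563136)) .nil)))) (.cons (.rf (nat_lit 44) (nat_lit 12852421)) .nil)))),
 (.br (nat_lit 2) (nat_lit 0) (.cons (.rf (nat_lit 143) (nat_lit 7877175641152)) (.cons (.rf (nat_lit 143) (nat_lit 6777697567808)) (.cons (.br (nat_lit 8) (nat_lit 1) (.cons (.rf (nat_lit 139) (nat_lit 5744791487552)) (.cons (.rf (nat_lit 139) (nat_lit 5744790471744)) (.cons (.br (nat_lit 3) (nat_lit 0) (.cons (.rf (nat_lit 159) (nat_lit 407901468851537952)) (.cons (.rf (nat_lit 159) (nat_lit 407901435565541408)) (.cons (.br (nat_lit 3) (nat_lit 0) (.cons (.rf (nat_lit 159) (nat_lit 407901468851537952)) (.cons (.rf (nat_lit 159) (nat_lit 407901435565541408)) (.cons (.rf (nat_lit 44) (nat_lit 12852421)) .nil)))) (.cons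 (.rf (nat_lit 44) (nat_lit 12852421)) .nil))))) (.cons (.br (nat_lit 3) (nat_lit 0) (.cons (.rf (nat_lit 162) (nat_lit 407901468851537952)) (.cons (.rf (nat_lit 162) (nat_lit 407901435565541408)) (.cons (.br (nat_lit 3) (nat_lit 0) (.cons (.rf (nat_lit 162) (nat_lit 407901468851537952)) (.cons (.rf (nat_lit 162) (nat_lit 407901435565541408)) (.cons (.rf (nat_lit 44) (nat_lit 12852421)) .nil)))) (.cons (.rf (nat_lit 44) (nat_lit 12852421)) .nil))))) .nil))))) (.cons (.rf (nat_lit 44) (nat_lit 12852421)) .nil))))),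
 (.br (nat_lit 5) (nat_lit 1) (.cons (.rf (nat_lit 90) (nat_lit 9043225708576)) (.cons (.rf (nat_lit 139) (nat_lit 9043225708576)) (.cons (.rf (nat_lit 139) (nat_lit 9043224692768)) (.cons (.br (nat_lit 9) (nat_lit 1) (.cons (.br (nat_lit 1) (nat_lit 0) (.cons (.rf (nat_lit 144) (nat_lit 325702574508064)) (.cons (.rf (nat_lit 144) (nat_lit 325669288511520)) (.cons (.rf (nat_lit 147) (nat_lit 325702574508064)) (.cons (.rf (nat_lit 44) (nat_lit 11803845)) (.cons (.br (nat_lit 2) (nat_lit 0) (.cons (.rf (nat_lit 154) (nat_lit 407901468851537952)) (.cons (.rf (nat_lit 154) (nat_lit 407901435565541408)) (.cons (.rf (nat_lit 163) (nat_lit 407901468851537952)) (.cons (.br (nat_lit 2) (nat_lit 0) (.cons (.rf (nat_lit 154) (nat_lit 407901468851537952)) (.cons (.rf (nat_lit 154) (nat_lit 407901435565541408)) (.cons (.rf (nat_lit 163) (nat_lit 407901468851537952)) (.cons (.rf (nat_lit 44) (nat_lit 12852421)) .nil))))) (.cons (.rf (nat_lit 44) (nat_lit 12852421)) .nil))))))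 .nil)))))) .nil)) .nil))))),
 (.br (nat_lit 8) (nat_lit 1) (.cons (.br (nat_lit 8) (nat_lit 1) (.cons (.rf (nat_lit 49) (nat_lit 324636382399520)) .nil)) (.cons (.rf (nat_lit 49) (nat_lit 324636382399520)) .nil))),
 (.br (nat_lit 9) (nat_lit 0) (.cons (.ev (nat_lit 72058693566332929) (nat_lit 1)) (.cons (.rf (nat_lit 44) (nat_lit 11803845)) (.cons (.br (nat_lit 9) (nat_lit 0) (.cons (.ev (nat_lit 72058693566332929) (nat_lit 1)) (.cons (.rf (nat_lit 44) (nat_lit 12852421)) .nil))) .nil)))),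
 (.br (nat_lit 4) (nat_lit 0) (.cons (.rf (nat_lit 166) (nat_lit 11584701642934304)) (.cons (.rf (nat_lit 44) (nat_lit 11803845)) (.cons (.br (nat_lit 4) (nat_lit 0) (.cons (.rf (nat_lit 166) (nat_lit 11584701642934304)) (.cons (.rf (nat_lit 44) (nat_lit 12852421)) .nil))) .nil)))),
 (.br (nat_lit 8) (nat_lit 1) (.cons (.br (nat_lit 9) (nat_lit 0) (.cons (.zr (nat_lit 18446746272749584896) (nat_lit 72339069014769665) (nat_lit 5) (nat_lit 6)) (.cons (.rf (nat_lit 44) (nat_lit 10755269)) (.cons (.br (nat_lit 9) (nat_lit 0) (.cons (.zr (nat_lit 18446746272749584896) (nat_lit 72339069014769665) (nat_lit 5) (nat_lit 6)) (.cons (.rf (nat_lit 44) (nat_lit 11803845)) .nil))) .nil)))) (.cons (.kr (nat_lit 18446744073709551872) (nat_lit 1099528404992) (nat_lit 1) (nat_lit 0)) (.cons (.rf (nat_lit 167) (nat_lit 11584701642934304)) .nil)))),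
 (.br (nat_lit 9) (nat_lit 0) (.cons (.rf (nat_lit 44) (nat_lit 10755269)) (.cons (.br (nat_lit 9) (nat_lit 0) (.cons (.rf (nat_lit 44) (nat_lit 11803845)) .nil)) .nil)))]

theorem c3 : chkAll C T R L3 (nat_lit 135) = true := by decide +kernel

theorem l3 : (nat_lit 135) + L3.length = (nat_lit 170) := by decide +kernel

/-- part of the certificates -/
def L4 : List Prf := [(.br (nat_lit 8) (nat_lit 1) (.cons (.rf (nat_lit 169) (nat_lit 360886946596896)) .nil)),
 (.br (nat_lit 8) (nat_lit 1) (.cons (.br (nat_lit 9) (nat_lit 0) (.cons (.ev (nat_lit 4740885566012386246913) (nat_lit 1)) (.cons (.rf (nat_lit 44) (nat_lit 11803845)) .nil))) (.cons (.br (nat_lit 9) (nat_lit 0) (.cons (.br (nat_lit 9) (nat_lit 0) (.cons (.rf (nat_lit 44) (nat_lit 12852421)) .nil)) (.cons (.rf (nat_lit 44) (nat_lit 12852421)) .nil))) .nil))),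
 (.br (nat_lit 9) (nat_lit 0) (.cons (.rf (nat_lit 44) (nat_lit 11803845)) (.cons (.br (nat_lit 9) (nat_lit 0) (.cons (.rf (nat_lit 44) (nat_lit 12852421)) .nil)) .nil))),
 (.br (nat_lit 4) (nat_lit 0) (.cons (.br (nat_lit 8) (nat_lit 1) (.cons (.br (nat_lit 9) (nat_lit 0) (.cons (.kr (nat_lit 4722366482869645213952) (nat_lit 1103806595072) (nat_lit 1) (nat_lit 0)) (.cons (.rf (nat_lit 44) (nat_lit 11803845)) .nil))) (.cons (.rf (nat_lit 172) (nat_lit 10529170480269344)) .nil))) (.cons (.rf (nat_lit 44) (nat_lit 11803845)) .nil))),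
 (.br (nat_lit 3) (nat_lit 0) (.cons (.rf (nat_lit 165) (nat_lit 9043225708576)) (.cons (.rf (nat_lit 168) (nat_lit 325702574508064)) (.cons (.rf (nat_lit 44) (nat_lit 11803845)) (.cons (.br (nat_lit 7) (nat_lit 1) (.cons (.br (nat_lit 4) (nat_lit 0) (.cons (.rf (nat_lit 168) (nat_lit 360853659583552)) (.cons (.rf (nat_lit 170) (nat_lit 396071318685728)) (.cons (.rf (nat_lit 44) (nat_lit 12852421)) .nil)))) (.cons (.br (nat_lit 4) (nat_lit 0) (.cons (.rf (nat_lit 171) (nat_lit 12710601549776928)) (.cons (.br (nat_lit 4) (nat_lit 0) (.cons (.rf (nat_lit 171) (nat_lit 12710601549776928)) (.cons (.rf (nat_lit 44) (nat_lit 12852421)) .nil))) (.cons (.rf (nat_lit 44) (nat_lit 12852421)) .nil)))) (.cons (.br (nat_lit 4) (nat_lit 0) (.cons (.rf (nat_lit 173) (nat_lit 12745785921865760)) (.cons (.br (nat_lit 4) (nat_lit 0) (.cons (.rf (nat_lit 173) (nat_lit 12745785921865760)) (.cons (.rf (nat_lit 44) (nat_lit 12852421)) .nil))) (.cons (.rf (nat_lit 44) (nat_lit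 12852421)) .nil)))) .nil)))) .nil))))),
 (.br (nat_lit 3) (nat_lit 0) (.cons (.rf (nat_lit 168) (nat_lit 325669288510528)) (.cons (.rf (nat_lit 44) (nat_lit 11803845)) (.cons (.br (nat_lit 7) (nat_lit 1) (.cons (.rf (nat_lit 174) (nat_lit 10493952821167168)) (.cons (.br (nat_lit 8) (nat_lit 1) (.cons (.br (nat_lit 9) (nat_lit 0) (.cons (.ev (nat_lit 4740885566012386246913) (nat_lit 1)) (.cons (.rf (nat_lit 44) (nat_lit 12852421)) .nil))) (.cons (.kr (nat_lit 18446744073709551616) (nat_lit 4722366482869645213696) (nat_lit 8) (nat_lit 0)) (.cons (.rf (nat_lit 107) (nat_lit 11584701642902560)) .nil)))) (.cons (.rf (nat_lit 108) (nat_lit 11584701642902560)) .nil)))) .nil)))),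
 (.br (nat_lit 3) (nat_lit 0) (.cons (.rf (nat_lit 174) (nat_lit 11584668356936768)) (.cons (.rf (nat_lit 175) (nat_lit 11584701642934304)) (.cons (.rf (nat_lit 44) (nat_lit 11803845)) (.cons (.br (nat_lit 3) (nat_lit 0) (.cons (.rf (nat_lit 174) (nat_lit 11584668356936768)) (.cons (.rf (nat_lit 175) (nat_lit 11584701642934304)) (.cons (.rf (nat_lit 44) (nat_lit 12852421)) .nil)))) .nil))))),
 (.br (nat_lit 9) (nat_lit 0) (.cons (.rf (nat_lit 47) (nat_lit 324636382399520)) (.cons (.rf (nat_lit 44) (nat_lit 10755269)) (.cons (.br (nat_lit 9) (nat_lit 0) (.cons (.rf (nat_lit 47) (nat_lit 324636382399520)) (.cons (.rf (nat_lit 44) (nat_lit 11803845)) .nil))) .nil)))),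
 (.br (nat_lit 8) (nat_lit 1) (.cons (.rf (nat_lit 165) (nat_lit 7977033600032)) (.cons (.rf (nat_lit 177) (nat_lit 325702574508064)) (.cons (.rf (nat_lit 52) (nat_lit 11583635450825760)) (.cons (.rf (nat_lit 52) (nat_lit 10492919916071968)) .nil))))),
 (.br (nat_lit 10) (nat_lit 0) (.cons (.rf (nat_lit 103) (nat_lit 11584701642902560)) (.cons (.rf (nat_lit 44) (nat_lit 11803845)) (.cons (.br (nat_lit 10) (nat_lit 0) (.cons (.rf (nat_lit 103) (nat_lit 11584701642902560)) (.cons (.rf (nat_lit 44) (nat_lit 12852421)) .nil))) .nil)))),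
 (.br (nat_lit 8) (nat_lit 1) (.cons (.rf (nat_lit 80) (nat_lit 11584701641917504)) (.cons (.rf (nat_lit 107) (nat_lit 11337344846433312)) (.cons (.rf (nat_lit 103) (nat_lit 11584701642902560)) .nil)))),
 (.br (nat_lit 3) (nat_lit 0) (.cons (.br (nat_lit 4) (nat_lit 0) (.cons (.rf (nat_lit 177) (nat_lit 322370851178592)) (.cons (.rf (nat_lit 44) (nat_lit 11803845)) (.cons (.br (nat_lit 4) (nat_lit 0) (.cons (.rf (nat_lit 177) (nat_lit 322370851178592)) (.cons (.rf (nat_lit 44) (nat_lit 12852421)) .nil))) .nil)))) (.cons (.rf (nat_lit 44) (nat_lit 11803845)) (.cons (.br (nat_lit 7) (nat_lit 1) (.cons (.rf (nat_lit 104) (nat_lit 11584701642902560)) (.cons (.rf (nat_lit 179) (nat_lit 11584701642934304)) (.cons (.rf (nat_lit 180) (nat_lit 407901468851537952)) .nil)))) .nil)))),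
 (.br (nat_lit 7) (nat_lit 1) (.cons (.rf (nat_lit 179) (nat_lit 11584701641918496)) (.cons (.rf (nat_lit 80) (nat_lit 11584701642933312)) .nil))),
 (.br (nat_lit 3) (nat_lit 0) (.cons (.rf (nat_lit 181) (nat_lit 11584701642934304)) (.cons (.rf (nat_lit 44) (nat_lit 11803845)) (.cons (.br (nat_lit 4) (nat_lit 0) (.cons (.rf (nat_lit 182) (nat_lit 407901468851537952)) (.cons (.br (nat_lit 4) (nat_lit 0) (.cons (.rf (nat_lit 182) (nat_lit 407901468851537952)) (.cons (.rf (nat_lit 44) (nat_lit 12852421)) .nil))) (.cons (.rf (nat_lit 44) (nat_lit 12852421)) .nil)))) .nil)))),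
 (.br (nat_lit 3) (nat_lit 0) (.cons (.rf (nat_lit 181) (nat_lit 11584701642934304)) (.cons (.rf (nat_lit 183) (nat_lit 11584701642934304)) (.cons (.rf (nat_lit 44) (nat_lit 11803845)) (.cons (.br (nat_lit 3) (nat_lit 0) (.cons (.rf (nat_lit 181) (nat_lit 11584701642934304)) (.cons (.rf (nat_lit 183) (nat_lit 11584701642934304)) (.cons (.rf (nat_lit 44) (nat_lit 12852421)) .nil)))) .nil))))),
 (.br (nat_lit 9) (nat_lit 0) (.cons (.br (nat_lit 9) (nat_lit 0) (.cons (.rf (nat_lit 44) (nat_lit 12852421)) .nil)) (.cons (.rf (nat_lit 44) (nat_lit 12852421)) .nil))),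
 (.br (nat_lit 7) (nat_lit 1) (.cons (.br (nat_lit 9) (nat_lit 0) (.cons (.br (nat_lit 9) (nat_lit 0) (.cons (.ev (nat_lit 4722438540463683207169) (nat_lit 1)) (.cons (.rf (nat_lit 44) (nat_lit 11803845)) .nil))) (.cons (.br (nat_lit 9) (nat_lit 0) (.cons (.ev (nat_lit 4722438540463683207169) (nat_lit 1)) (.cons (.rf (nat_lit 44) (nat_lit 11803845)) .nil))) (.cons (.rf (nat_lit 44) (nat_lit 11803845)) .nil)))) (.cons (.br (nat_lit 4) (nat_lit 0) (.cons (.br (nat_lit 8) (nat_lit 1) (.cons (.rf (nat_lit 185) (nat_lit 372998571739416608)) (.cons (.br (nat_lit 9) (nat_lit 0) (.cons (.rf (nat_lit 131) (nat_lit 12392776156155946)) (.cons (.rf (nat_lit 44) (nat_lit 12852421)) .nil))) .nil))) (.cons (.br (nat_lit 8) (nat_lit 1) (.cons (.rf (nat_lit 185) (nat_lit 372998571739416608)) (.cons (.br (nat_lit 8) (nat_lit 1) (.cons (.rf (nat_lit 185) (nat_lit 372998571739416608)) .nil)) .nil))) (.cons (.rf (nat_lit 44) (nat_lit 12852421)) .nil)))) .nil))),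
 (.br (nat_lit 7) (nat_lit 1) (.cons (.rf (nat_lit 186) (nat_lit 11584701642934304)) (.cons (.rf (nat_lit 58) (nat_lit 406810753316784160)) .nil))),
 (.br (nat_lit 3) (nat_lit 0) (.cons (.br (nat_lit 7) (nat_lit 1) (.cons (.rf (nat_lit 177) (nat_lit 324636382399520)) (.cons (.rf (nat_lit 52) (nat_lit 11584701642934304)) (.cons (.rf (nat_lit 52) (nat_lit 10493986108180512)) .nil)))) (.cons (.br (nat_lit 8) (nat_lit 1) (.cons (.br (nat_lit 4) (nat_lit 0) (.cons (.br (nat_lit 7) (nat_lit 1) (.cons (.ev (nat_lit 72058693566332929) (nat_lit 1)) (.cons (.rf (nat_lit 169) (nat_lit 359820754488352)) .nil))) (.cons (.rf (nat_lit 170) (nat_lit 395005126577184)) (.cons (.rf (nat_lit 44) (nat_lit 12852421)) .nil)))) (.cons (.kr (nat_lit 18446744073709551872) (nat_lit 1099528404992) (nat_lit 1) (nat_lit 0)) (.cons (.rf (nat_lit 167) (nat_lit 11584701642934304)) .nil)))) (.cons (.br (nat_lit 7) (nat_lit 1) (.cons (.rf (nat_lit 186) (nat_lit 12710601549776928)) (.cons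 (.rf (nat_lit 187) (nat_lit 12710601549776928)) (.cons (.br (nat_lit 7) (nat_lit 1) (.cons (.rf (nat_lit 186) (nat_lit 12710601549776928)) (.cons (.rf (nat_lit 187) (nat_lit 12710601549776928)) .nil))) .nil)))) (.cons (.rf (nat_lit 44) (nat_lit 12852421)) .nil))))),
 (.br (nat_lit 11) (nat_lit 1) (.cons (.ev (nat_lit 309485009821626547996459264) (nat_lit 1)) .nil)),
 (.br (nat_lit 4) (nat_lit 0) (.cons (.ev (nat_lit 72058697844588801) (nat_lit 1)) (.cons (.rf (nat_lit 44) (nat_lit 12852421)) .nil))),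
 (.br (nat_lit 4) (nat_lit 0) (.cons (.br (nat_lit 8) (nat_lit 1) (.cons (.ev (nat_lit 18518801667747479809) (nat_lit 1)) (.cons (.kr (nat_lit 18446744073709617152) (nat_lit 1103806595072) (nat_lit 2) (nat_lit 0)) .nil))) (.cons (.rf (nat_lit 44) (nat_lit 12852421)) .nil))),
 (.br (nat_lit 3) (nat_lit 0) (.cons (.br (nat_lit 7) (nat_lit 1) (.cons (.rf (nat_lit 104) (nat_lit 11584701642902560)) (.cons (.br (nat_lit 9) (nat_lit 0) (.cons (.kr (nat_lit 18446744073709551616) (nat_lit 4722366482869645213696) (nat_lit 8) (nat_lit 0)) (.cons (.br (nat_lit 8) (nat_lit 1) (.cons (.br (nat_lit 4) (nat_lit 0) (.cons (.rf (nat_lit 189) (nat_lit 407901468851537952)) (.cons (.rf (nat_lit 44) (nat_lit 12852421)) .nil))) (.cons (.br (nat_lit 4) (nat_lit 0) (.cons (.br (nat_lit 4) (nat_lit 0) (.cons (.rf (nat_lit 44) (nat_lit 12852421)) .nil)) (.cons (.rf (nat_lit 44) (nat_lit 12852421)) .nil))) .nil))) (.cons (.rf (nat_lit 44) (nat_lit 12852421)) .nil)))) (.cons (.br (nat_lit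 4) (nat_lit 0) (.cons (.rf (nat_lit 101) (nat_lit 11584701642902560)) (.cons (.rf (nat_lit 190) (nat_lit 407901468851537952)) (.cons (.rf (nat_lit 44) (nat_lit 12852421)) .nil)))) .nil)))) (.cons (.br (nat_lit 7) (nat_lit 1) (.cons (.rf (nat_lit 104) (nat_lit 11584701642902560)) (.cons (.br (nat_lit 4) (nat_lit 0) (.cons (.rf (nat_lit 191) (nat_lit 407901468851537952)) (.cons (.br (nat_lit 4) (nat_lit 0) (.cons (.rf (nat_lit 191) (nat_lit 407901468851537952)) (.cons (.rf (nat_lit 44) (nat_lit 12852421)) .nil))) (.cons (.rf (nat_lit 44) (nat_lit 12852421)) .nil)))) (.cons (.br (nat_lit 4) (nat_lit 0) (.cons (.br (nat_lit 4) (nat_lit 0) (.cons (.ev (nat_lit 72058697844588801) (nat_lit 1)) (.cons (.rf (nat_lit 44) (nat_lit 12852421)) .nil))) (.cons (.rf (nat_lit 190) (nat_lit 407901468851537952)) (.cons (.rf (nat_lit 44) (nat_lit 12852421)) .nil)))) .nil)))) (.cons (.rf (nat_lit 44) (nat_lit 12852421)) .nil)))),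
 (.br (nat_lit 10) (nat_lit 0) (.cons (.rf (nat_lit 101) (nat_lit 10490654385898592)) (.cons (.rf (nat_lit 44) (nat_lit 11803845)) (.cons (.br (nat_lit 10) (nat_lit 0) (.cons (.rf (nat_lit 101) (nat_lit 10490654385898592)) (.cons (.rf (nat_lit 44) (nat_lit 12852421)) .nil))) .nil)))),
 (.br (nat_lit 7) (nat_lit 1) (.cons (.ev (nat_lit 72058693566398721) (nat_lit 1)) (.cons (.ev (nat_lit 18518801667747479809) (nat_lit 1)) .nil))),
 (.br (nat_lit 3) (nat_lit 0) (.cons (.rf (nat_lit 192) (nat_lit 407901468851537952)) (.cons (.br (nat_lit 8) (nat_lit 1) (.cons (.rf (nat_lit 193) (nat_lit 11584701642934304)) (.cons (.kr (nat_lit 18446744073709617152) (nat_lit 1099528404992) (nat_lit 2) (nat_lit 0)) (.cons (.br (nat_lit 4) (nat_lit 0) (.cons (.rf (nat_lit 194) (nat_lit 407901468851537952)) (.cons (.br (nat_lit 4) (nat_lit 0) (.cons (.rf (nat_lit 194) (nat_lit 407901468851537952)) (.cons (.rf (nat_lit 44) (nat_lit 12852421)) .nil))) (.cons (.rf (nat_lit 44) (nat_lit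 12852421)) .nil)))) .nil)))) (.cons (.rf (nat_lit 44) (nat_lit 12852421)) .nil)))),
 (.br (nat_lit 3) (nat_lit 0) (.cons (.rf (nat_lit 192) (nat_lit 407901468851537952)) (.cons (.rf (nat_lit 195) (nat_lit 407901468851537952)) (.cons (.br (nat_lit 3) (nat_lit 0) (.cons (.rf (nat_lit 192) (nat_lit 407901468851537952)) (.cons (.rf (nat_lit 195) (nat_lit 407901468851537952)) (.cons (.rf (nat_lit 44) (nat_lit 12852421)) .nil)))) (.cons (.rf (nat_lit 44) (nat_lit 12852421)) .nil))))),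
 (.br (nat_lit 2) (nat_lit 0) (.cons (.kr (nat_lit 256) (nat_lit 65536) (nat_lit 1) (nat_lit 0)) (.cons (.br (nat_lit 6) (nat_lit 1) (.cons (.rf (nat_lit 174) (nat_lit 11584701642934304)) (.cons (.rf (nat_lit 174) (nat_lit 10493986107164704)) (.cons (.rf (nat_lit 176) (nat_lit 11584701642934304)) (.cons (.rf (nat_lit 176) (nat_lit 10493986107164704)) .nil))))) (.cons (.br (nat_lit 6) (nat_lit 1) (.cons (.rf (nat_lit 178) (nat_lit 11584701642934304)) (.cons (.rf (nat_lit 178) (nat_lit 10493986107164704)) (.cons (.rf (nat_lit 184) (nat_lit 11584701642934304)) (.cons (.rf (nat_lit 184) (nat_lit 10493986107164704)) .nil))))) (.cons (.rf (nat_lit 44) (nat_lit 11803845)) (.cons (.br (nat_lit 6) (nat_lit 1) (.cons (.rf (nat_lit 188) (nat_lit 407901468851537952)) (.cons (.rf (nat_lit 188) (nat_lit 406810753315768352)) (.cons (.rf (nat_lit 196) (nat_lit 407901468851537952)) (.cons (.rf (nat_lit 196) (nat_lit 406810753315768352)) .nil))))) .nil)))))),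
 (.br (nat_lit 4) (nat_lit 0) (.cons (.rf (nat_lit 104) (nat_lit 11584701642934304)) (.cons (.rf (nat_lit 193) (nat_lit 11584701642902560)) (.cons (.rf (nat_lit 44) (nat_lit 11803845)) (.cons (.br (nat_lit 4) (nat_lit 0) (.cons (.rf (nat_lit 104) (nat_lit 11584701642934304)) (.cons (.rf (nat_lit 193) (nat_lit 11584701642902560)) (.cons (.rf (nat_lit 44) (nat_lit 12852421)) .nil)))) .nil))))),
 (.br (nat_lit 10) (nat_lit 1) (.cons (.rf (nat_lit 131) (nat_lit 3384577281360970)) (.cons (.br (nat_lit 10) (nat_lit 1) (.cons (.rf (nat_lit 131) (nat_lit 3384577281360970)) .nil)) .nil))),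
 (.br (nat_lit 8) (nat_lit 1) (.cons (.br (nat_lit 9) (nat_lit 0) (.cons (.ev (nat_lit 4740885566012386246913) (nat_lit 1)) (.cons (.rf (nat_lit 44) (nat_lit 11803845)) .nil))) (.cons (.br (nat_lit 9) (nat_lit 0) (.cons (.br (nat_lit 9) (nat_lit 0) (.cons (.rf (nat_lit 44) (nat_lit 12852421)) .nil)) (.cons (.rf (nat_lit 44) (nat_lit 12852421)) .nil))) .nil))),
 (.br (nat_lit 9) (nat_lit 0) (.cons (.kr (nat_lit 18446744073709551616) (nat_lit 4722366482869645213696) (nat_lit 8) (nat_lit 0)) (.cons (.ev (nat_lit 4740885285641199288321) (nat_lit 1)) (.cons (.rf (nat_lit 44) (nat_lit 11803845)) .nil)))),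
 (.br (nat_lit 4) (nat_lit 0) (.cons (.br (nat_lit 8) (nat_lit 1) (.cons (.rf (nat_lit 201) (nat_lit 11584701642934304)) (.cons (.br (nat_lit 11) (nat_lit 0) (.cons (.rf (nat_lit 199) (nat_lit 11583635450866720)) (.cons (.rf (nat_lit 44) (nat_lit 12852421)) .nil))) .nil))) (.cons (.rf (nat_lit 44) (nat_lit 11803845)) .nil))),
 (.br (nat_lit 8) (nat_lit 1) (.cons (.ev (nat_lit 282574488403969) (nat_lit 1)) (.cons (.rf (nat_lit 52) (nat_lit 11583635448762400)) (.cons (.rf (nat_lit 52) (nat_lit 10492919914008608)) .nil)))),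
 (.br (nat_lit 9) (nat_lit 0) (.cons (.kr (nat_lit 9444732965739290427904) (nat_lit 72339073309671424) (nat_lit 1) (nat_lit 0)) (.cons (.rf (nat_lit 44) (nat_lit 11803845)) .nil))),
 (.br (nat_lit 10) (nat_lit 0) (.cons (.rf (nat_lit 172) (nat_lit 10493952822150240)) (.cons (.rf (nat_lit 44) (nat_lit 11803845)) (.cons (.br (nat_lit 10) (nat_lit 0) (.cons (.rf (nat_lit 172) (nat_lit 10493952822150240)) (.cons (.rf (nat_lit 44) (nat_lit 12852421)) .nil))) .nil)))),
 (.br (nat_lit 9) (nat_lit 0) (.cons (.br (nat_lit 10) (nat_lit 0) (.cons (.rf (nat_lit 44) (nat_lit 12852421)) .nil)) (.cons (.rf (nat_lit 44) (nat_lit 12852421)) .nil))),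
 (.br (nat_lit 4) (nat_lit 0) (.cons (.br (nat_lit 8) (nat_lit 1) (.cons (.br (nat_lit 11) (nat_lit 1) (.cons (.ev (nat_lit 309518158980740122230720003) (nat_lit 3)) .nil)) (.cons (.rf (nat_lit 206) (nat_lit 407901468851537952)) .nil))) (.cons (.rf (nat_lit 44) (nat_lit 12852421)) .nil))),
 (.br (nat_lit 9) (nat_lit 0) (.cons (.ev (nat_lit 4740813226943354830849) (nat_lit 1)) (.cons (.rf (nat_lit 44) (nat_lit 12852421)) .nil))),
 (.br (nat_lit 4) (nat_lit 0) (.cons (.ev (nat_lit 72058697844523009) (nat_lit 1)) (.cons (.br (nat_lit 8) (nat_lit 1) (.cons (.ev (nat_lit 18446745173221179649) (nat_lit 1)) (.cons (.rf (nat_lit 208) (nat_lit 407901468851537952)) (.cons (.rf (nat_lit 201) (nat_lit 12745785921865760)) .nil)))) (.cons (.rf (nat_lit 44) (nat_lit 12852421)) .nil)))),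
 (.br (nat_lit 7) (nat_lit 1) (.cons (.rf (nat_lit 104) (nat_lit 10493986108180512)) (.cons (.rf (nat_lit 180) (nat_lit 406810753316752416)) (.cons (.rf (nat_lit 179) (nat_lit 10493986108148768)) .nil)))),
 (.br (nat_lit 9) (nat_lit 0) (.cons (.ev (nat_lit 4740813228042883235841) (nat_lit 1)) (.cons (.ev (nat_lit 309489750634573111608016896) (nat_lit 1)) (.cons (.rf (nat_lit 44) (nat_lit 12852421)) .nil)))),
 (.br (nat_lit 10) (nat_lit 0) (.cons (.ev (nat_lit 1208944338416301233930241) (nat_lit 1)) (.cons (.ev (nat_lit 310693954159761369958711296) (nat_lit 1)) (.cons (.rf (nat_lit 44) (nat_lit 12852421)) .nil)))),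
 (.br (nat_lit 4) (nat_lit 0) (.cons (.br (nat_lit 8) (nat_lit 1) (.cons (.rf (nat_lit 211) (nat_lit 407901468851537952)) (.cons (.rf (nat_lit 212) (nat_lit 407901468851537952)) .nil))) (.cons (.rf (nat_lit 44) (nat_lit 12852421)) .nil))),
 (.br (nat_lit 4) (nat_lit 0) (.cons (.br (nat_lit 8) (nat_lit 1) (.cons (.kr (nat_lit 18446744073709551616) (nat_lit 4722366482869645213696) (nat_lit 8) (nat_lit 0)) (.cons (.rf (nat_lit 206) (nat_lit 372998571739416608)) .nil))) (.cons (.rf (nat_lit 44) (nat_lit 11803845)) .nil))),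
 (.br (nat_lit 4) (nat_lit 0) (.cons (.rf (nat_lit 214) (nat_lit 11584701642934304)) (.cons (.br (nat_lit 4) (nat_lit 0) (.cons (.rf (nat_lit 214) (nat_lit 11584701642934304)) (.cons (.rf (nat_lit 44) (nat_lit 11803845)) .nil))) (.cons (.rf (nat_lit 44) (nat_lit 11803845)) .nil)))),
 (.br (nat_lit 2) (nat_lit 0) (.cons (.rf (nat_lit 197) (nat_lit 11583635450857504)) (.cons (.br (nat_lit 6) (nat_lit 1) (.cons (.br (nat_lit 7) (nat_lit 1) (.cons (.br (nat_lit 8) (nat_lit 1) (.cons (.br (nat_lit 9) (nat_lit 0) (.cons (.rf (nat_lit 44) (nat_lit 11803845)) (.cons (.br (nat_lit 9) (nat_lit 0) (.cons (.rf (nat_lit 44) (nat_lit 12852421)) .nil)) .nil))) (.cons (.rf (nat_lit 93) (nat_lit 324636382431264)) (.cons (.rf (nat_lit 93) (nat_lit 359820754520096)) .nil)))) (.cons (.rf (nat_lit 93) (nat_lit 325702574508064)) (.cons (.rf (nat_lit 93) (nat_lit 360886946596896)) .nil)))) (.cons (.ev (nat_lit 282574488403969) (nat_lit 1)) (.cons (.rf (nat_lit 198) (nat_lit 11584701642934304))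 (.cons (.br (nat_lit 4) (nat_lit 0) (.cons (.rf (nat_lit 104) (nat_lit 10493986108180512)) (.cons (.rf (nat_lit 193) (nat_lit 10493986108148768)) (.cons (.rf (nat_lit 44) (nat_lit 11803845)) (.cons (.br (nat_lit 4) (nat_lit 0) (.cons (.rf (nat_lit 104) (nat_lit 10493986108180512)) (.cons (.rf (nat_lit 193) (nat_lit 10493986108148768)) (.cons (.rf (nat_lit 44) (nat_lit 12852421)) .nil)))) .nil))))) .nil))))) (.cons (.rf (nat_lit 44) (nat_lit 11803845)) (.cons (.br (nat_lit 6) (nat_lit 1) (.cons (.br (nat_lit 7) (nat_lit 1) (.cons (.br (nat_lit 4) (nat_lit 0) (.cons (.br (nat_lit 8) (nat_lit 1) (.cons (.rf (nat_lit 104) (nat_lit 11582436113712256)) (.cons (.rf (nat_lit 104) (nat_lit 10491720578958464)) .nil))) (.cons (.rf (nat_lit 199) (nat_lit 12745785921865760)) (.cons (.rf (nat_lit 44) (nat_lit 12852421)) .nil)))) (.cons (.br (nat_lit 4) (nat_lit 0) (.cons (.rf (nat_lit 200) (nat_lit 12710601549776928)) (.cons (.br (nat_lit 4) (nat_lit 0) (.cons (.rf (nat_lit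 200) (nat_lit 12710601549776928)) (.cons (.rf (nat_lit 44) (nat_lit 12852421)) .nil))) (.cons (.rf (nat_lit 44) (nat_lit 12852421)) .nil)))) (.cons (.br (nat_lit 4) (nat_lit 0) (.cons (.rf (nat_lit 202) (nat_lit 12745785921865760)) (.cons (.br (nat_lit 4) (nat_lit 0) (.cons (.rf (nat_lit 202) (nat_lit 12745785921865760)) (.cons (.rf (nat_lit 44) (nat_lit 12852421)) .nil))) (.cons (.rf (nat_lit 44) (nat_lit 12852421)) .nil)))) .nil)))) (.cons (.br (nat_lit 4) (nat_lit 0) (.cons (.rf (nat_lit 177) (nat_lit 324636380336160)) (.cons (.br (nat_lit 8) (nat_lit 1) (.cons (.rf (nat_lit 165) (nat_lit 7977031536672)) (.cons (.rf (nat_lit 205) (nat_lit 11583535590706304)) (.cons (.rf (nat_lit 205) (nat_lit 10492820055952512)) .nil)))) (.cons (.br (nat_lit 7) (nat_lit 1) (.cons (.rf (nat_lit 170) (nat_lit 396071316622368)) (.cons (.br (nat_lit 3) (nat_lit 0) (.cons (.rf (nat_lit 203) (nat_lit 407901468851537952)) (.cons (.ev (nat_lit 72339069031481601) (nat_lit 1))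 (.cons (.rf (nat_lit 44) (nat_lit 12852421)) .nil)))) (.cons (.br (nat_lit 3) (nat_lit 0) (.cons (.rf (nat_lit 203) (nat_lit 407901468851537952)) (.cons (.br (nat_lit 8) (nat_lit 1) (.cons (.br (nat_lit 8) (nat_lit 1) (.cons (.rf (nat_lit 204) (nat_lit 12745785921865760)) .nil)) (.cons (.rf (nat_lit 204) (nat_lit 12745785921865760)) .nil))) (.cons (.rf (nat_lit 44) (nat_lit 12852421)) .nil)))) .nil)))) (.cons (.rf (nat_lit 44) (nat_lit 12852421)) .nil))))) (.cons (.br (nat_lit 3) (nat_lit 0) (.cons (.rf (nat_lit 205) (nat_lit 11584701642934304)) (.cons (.rf (nat_lit 184) (nat_lit 11584701642902560)) (.cons (.br (nat_lit 7) (nat_lit 1) (.cons (.ev (nat_lit 72339069031481601) (nat_lit 1)) (.cons (.br (nat_lit 4) (nat_lit 0) (.cons (.rf (nat_lit 207) (nat_lit 407901468851537952)) (.cons (.br (nat_lit 4) (nat_lit 0) (.cons (.rf (nat_lit 207) (nat_lit 407901468851537952)) (.cons (.rf (nat_lit 44) (nat_lit 12852421)) .nil))) (.cons (.rf (nat_lit 44) (nat_lit 12852421))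 .nil)))) (.cons (.br (nat_lit 4) (nat_lit 0) (.cons (.rf (nat_lit 209) (nat_lit 407901468851537952)) (.cons (.br (nat_lit 4) (nat_lit 0) (.cons (.rf (nat_lit 209) (nat_lit 407901468851537952)) (.cons (.rf (nat_lit 44) (nat_lit 12852421)) .nil))) (.cons (.rf (nat_lit 44) (nat_lit 12852421)) .nil)))) .nil)))) (.cons (.rf (nat_lit 44) (nat_lit 12852421)) .nil))))) (.cons (.br (nat_lit 3) (nat_lit 0) (.cons (.rf (nat_lit 205) (nat_lit 10493986108180512)) (.cons (.rf (nat_lit 210) (nat_lit 407901468851537952)) (.cons (.br (nat_lit 7) (nat_lit 1) (.cons (.rf (nat_lit 104) (nat_lit 10493986108180512)) (.cons (.br (nat_lit 4) (nat_lit 0) (.cons (.rf (nat_lit 213) (nat_lit 407901468851537952)) (.cons (.br (nat_lit 4) (nat_lit 0) (.cons (.rf (nat_lit 213) (nat_lit 407901468851537952)) (.cons (.rf (nat_lit 44) (nat_lit 12852421)) .nil))) (.cons (.rf (nat_lit 44) (nat_lit 12852421)) .nil)))) (.cons (.rf (nat_lit 215) (nat_lit 12745785921865760)) .nil)))) (.cons (.rf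 (nat_lit 44) (nat_lit 12852421)) .nil))))) .nil))))) .nil)))))]

theorem c4 : chkAll C T R L4 (nat_lit 170) = true := by decide +kernel

theorem l4 : (nat_lit 170) + L4.length = (nat_lit 217) := by decide +kernel

/-- part of the certificates -/
def L5 : List Prf := [(.br (nat_lit 4) (nat_lit 0) (.cons (.br (nat_lit 7) (nat_lit 1) (.cons (.ev (nat_lit 4740885285636921164033) (nat_lit 1)) (.cons (.br (nat_lit 10) (nat_lit 0) (.cons (.ev (nat_lit 309485009821346172531376384) (nat_lit 1)) (.cons (.rf (nat_lit 44) (nat_lit 12852421)) .nil))) .nil))) (.cons (.rf (nat_lit 44) (nat_lit 12852421)) .nil))),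
 (.br (nat_lit 11) (nat_lit 1) (.cons (.ev (nat_lit 309485028268089146746142976) (nat_lit 1)) (.cons (.ev (nat_lit 309485009821346172531376384) (nat_lit 1)) .nil))),
 (.br (nat_lit 4) (nat_lit 0) (.cons (.ev (nat_lit 18446745177516212481) (nat_lit 1)) (.cons (.rf (nat_lit 218) (nat_lit 407901468851537952)) (.cons (.rf (nat_lit 44) (nat_lit 12852421)) .nil)))),
 (.br (nat_lit 4) (nat_lit 0) (.cons (.rf (nat_lit 193) (nat_lit 10493986108148768)) (.cons (.br (nat_lit 3) (nat_lit 0) (.cons (.rf (nat_lit 205) (nat_lit 10493986106085408)) (.cons (.rf (nat_lit 210) (nat_lit 407901468849442848)) (.cons (.br (nat_lit 8) (nat_lit 1) (.cons (.br (nat_lit 10) (nat_lit 0) (.cons (.rf (nat_lit 206) (nat_lit 406810753314689056)) (.cons (.ev (nat_lit 309485009821346172531376384) (nat_lit 1)) (.cons (.rf (nat_lit 44) (nat_lit 12852421)) .nil)))) (.cons (.rf (nat_lit 219) (nat_lit 407901468851537952)) .nil))) (.cons (.rf (nat_lit 44) (nat_lit 12852421)) .nil))))) (.cons (.rf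 (nat_lit 44) (nat_lit 12852421)) .nil)))),
 (.br (nat_lit 2) (nat_lit 0) (.cons (.rf (nat_lit 197) (nat_lit 11583635450857504)) (.cons (.rf (nat_lit 216) (nat_lit 11584701642934304)) (.cons (.rf (nat_lit 44) (nat_lit 11803845)) (.cons (.br (nat_lit 6) (nat_lit 1) (.cons (.rf (nat_lit 216) (nat_lit 11583635450857504)) (.cons (.rf (nat_lit 216) (nat_lit 10492919915087904)) (.cons (.br (nat_lit 3) (nat_lit 0) (.cons (.br (nat_lit 7) (nat_lit 1) (.cons (.rf (nat_lit 205) (nat_lit 11584701640839200)) (.cons (.br (nat_lit 4) (nat_lit 0) (.cons (.ev (nat_lit 18447025548703039489) (nat_lit 1)) (.cons (.br (nat_lit 4) (nat_lit 0) (.cons (.ev (nat_lit 18447025548703039489) (nat_lit 1)) (.cons (.rf (nat_lit 44) (nat_lit 12852421)) .nil))) (.cons (.rf (nat_lit 44) (nat_lit 12852421)) .nil)))) (.cons (.rf (nat_lit 108) (nat_lit 11584701642934304)) .nil)))) (.cons (.rf (nat_lit 184) (nat_lit 11584701642902560)) (.cons (.br (nat_lit 8) (nat_lit 1) (.cons (.rf (nat_lit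 193) (nat_lit 11584701642902560)) (.cons (.br (nat_lit 4) (nat_lit 0) (.cons (.rf (nat_lit 217) (nat_lit 407901468851537952)) (.cons (.br (nat_lit 4) (nat_lit 0) (.cons (.rf (nat_lit 217) (nat_lit 407901468851537952)) (.cons (.rf (nat_lit 44) (nat_lit 12852421)) .nil))) (.cons (.rf (nat_lit 44) (nat_lit 12852421)) .nil)))) (.cons (.br (nat_lit 4) (nat_lit 0) (.cons (.br (nat_lit 4) (nat_lit 0) (.cons (.rf (nat_lit 219) (nat_lit 407901468851537952)) (.cons (.rf (nat_lit 44) (nat_lit 12852421)) .nil))) (.cons (.rf (nat_lit 219) (nat_lit 407901468851537952)) (.cons (.rf (nat_lit 44) (nat_lit 12852421)) .nil)))) .nil)))) (.cons (.rf (nat_lit 44) (nat_lit 12852421)) .nil))))) (.cons (.br (nat_lit 4) (nat_lit 0) (.cons (.rf (nat_lit 220) (nat_lit 407901468851537952)) (.cons (.rf (nat_lit 193) (nat_lit 10493986108148768)) (.cons (.br (nat_lit 4) (nat_lit 0) (.cons (.rf (nat_lit 220) (nat_lit 407901468851537952)) (.cons (.rf (nat_lit 193) (nat_lit 10493986108148768))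 (.cons (.rf (nat_lit 44) (nat_lit 12852421)) .nil)))) (.cons (.rf (nat_lit 44) (nat_lit 12852421)) .nil))))) .nil))))) .nil))))),
 (.br (nat_lit 2) (nat_lit 0) (.cons (.rf (nat_lit 197) (nat_lit 11583635450857504)) (.cons (.rf (nat_lit 216) (nat_lit 11584701642934304)) (.cons (.rf (nat_lit 221) (nat_lit 11584701642934304)) (.cons (.rf (nat_lit 44) (nat_lit 11803845)) (.cons (.br (nat_lit 2) (nat_lit 0) (.cons (.rf (nat_lit 197) (nat_lit 11583635450857504)) (.cons (.rf (nat_lit 216) (nat_lit 11584701642934304)) (.cons (.rf (nat_lit 221) (nat_lit 11584701642934304)) (.cons (.rf (nat_lit 44) (nat_lit 12852421)) .nil))))) .nil)))))),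
 (.br (nat_lit 10) (nat_lit 0) (.cons (.zr (nat_lit 18518803866770800640) (nat_lit 309485009821908018678202624) (nat_lit 5) (nat_lit 7)) (.cons (.rf (nat_lit 44) (nat_lit 12852421)) .nil))),
 (.br (nat_lit 4) (nat_lit 0) (.cons (.br (nat_lit 8) (nat_lit 1) (.cons (.ev (nat_lit 4740885566012386246913) (nat_lit 1)) (.cons (.rf (nat_lit 223) (nat_lit 372998571739416608)) .nil))) (.cons (.rf (nat_lit 44) (nat_lit 11803845)) .nil))),
 (.br (nat_lit 3) (nat_lit 0) (.cons (.br (nat_lit 9) (nat_lit 0) (.cons (.rf (nat_lit 198) (nat_lit 11582436114760800)) (.cons (.br (nat_lit 8) (nat_lit 1) (.cons (.br (nat_lit 4) (nat_lit 0) (.cons (.rf (nat_lit 189) (nat_lit 407901468851537952)) (.cons (.rf (nat_lit 44) (nat_lit 12852421)) .nil))) (.cons (.br (nat_lit 4) (nat_lit 0) (.cons (.br (nat_lit 4) (nat_lit 0) (.cons (.rf (nat_lit 44) (nat_lit 12852421)) .nil)) (.cons (.rf (nat_lit 44) (nat_lit 12852421)) .nil))) .nil))) (.cons (.rf (nat_lit 44) (nat_lit 12852421)) .nil))))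 (.cons (.br (nat_lit 4) (nat_lit 0) (.cons (.rf (nat_lit 224) (nat_lit 12710601549776928)) (.cons (.br (nat_lit 4) (nat_lit 0) (.cons (.rf (nat_lit 224) (nat_lit 12710601549776928)) (.cons (.rf (nat_lit 44) (nat_lit 12852421)) .nil))) (.cons (.rf (nat_lit 44) (nat_lit 12852421)) .nil)))) (.cons (.rf (nat_lit 44) (nat_lit 12852421)) .nil)))),
 (.br (nat_lit 10) (nat_lit 1) (.cons (.br (nat_lit 11) (nat_lit 0) (.cons (.ev (nat_lit 1208925819896104168194304) (nat_lit 1)) (.cons (.rf (nat_lit 44) (nat_lit 12852421)) .nil))) .nil)),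
 (.br (nat_lit 4) (nat_lit 0) (.cons (.rf (nat_lit 223) (nat_lit 407901468850522144)) (.cons (.rf (nat_lit 44) (nat_lit 12852421)) .nil))),
 (.br (nat_lit 9) (nat_lit 0) (.cons (.ev (nat_lit 4740885285636921164033) (nat_lit 1)) (.cons (.br (nat_lit 8) (nat_lit 1) (.cons (.rf (nat_lit 226) (nat_lit 11584701642934304)) (.cons (.rf (nat_lit 227) (nat_lit 372998571739416608)) .nil))) (.cons (.rf (nat_lit 44) (nat_lit 11803845)) .nil)))),
 (.br (nat_lit 4) (nat_lit 0) (.cons (.rf (nat_lit 44) (nat_lit 11803845)) (.cons (.br (nat_lit 4) (nat_lit 0) (.cons (.rf (nat_lit 44) (nat_lit 12852421)) .nil)) .nil))),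
 (.br (nat_lit 3) (nat_lit 0) (.cons (.rf (nat_lit 225) (nat_lit 407901468851537952)) (.cons (.br (nat_lit 7) (nat_lit 1) (.cons (.rf (nat_lit 228) (nat_lit 12710601549776928)) (.cons (.br (nat_lit 8) (nat_lit 1) (.cons (.ev (nat_lit 4740885566012386246913) (nat_lit 1)) (.cons (.rf (nat_lit 229) (nat_lit 11584701642934304)) .nil))) (.cons (.br (nat_lit 9) (nat_lit 0) (.cons (.rf (nat_lit 229) (nat_lit 11583635450825760)) (.cons (.br (nat_lit 8) (nat_lit 1) (.cons (.br (nat_lit 4) (nat_lit 0) (.cons (.rf (nat_lit 228) (nat_lit 43161405689131)) (.cons (.rf (nat_lit 44) (nat_lit 12852421)) .nil))) (.cons (.br (nat_lit 10) (nat_lit 0) (.cons (.rf (nat_lit 228) (nat_lit 43161411980587)) (.cons (.rf (nat_lit 44) (nat_lit 12852421)) .nil))) .nil))) (.cons (.rf (nat_lit 44) (nat_lit 12852421)) .nil)))) .nil)))) (.cons (.rf (nat_lit 44) (nat_lit 12852421)) .nil)))),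
 (.br (nat_lit 2) (nat_lit 0) (.cons (.br (nat_lit 3) (nat_lit 0) (.cons (.rf (nat_lit 93) (nat_lit 114596342171680)) (.cons (.rf (nat_lit 93) (nat_lit 113530150094880)) (.cons (.rf (nat_lit 44) (nat_lit 11803845)) (.cons (.br (nat_lit 3) (nat_lit 0) (.cons (.rf (nat_lit 93) (nat_lit 114596342171680)) (.cons (.rf (nat_lit 93) (nat_lit 113530150094880)) (.cons (.rf (nat_lit 44) (nat_lit 12852421)) .nil)))) .nil))))) (.cons (.rf (nat_lit 44) (nat_lit 11803845)) (.cons (.br (nat_lit 3) (nat_lit 0) (.cons (.rf (nat_lit 225) (nat_lit 407901468851537952)) (.cons (.rf (nat_lit 230) (nat_lit 407901468851537952)) (.cons (.br (nat_lit 3) (nat_lit 0) (.cons (.rf (nat_lit 225) (nat_lit 407901468851537952)) (.cons (.rf (nat_lit 230) (nat_lit 407901468851537952)) (.cons (.rf (nat_lit 44) (nat_lit 12852421)) .nil)))) (.cons (.rf (nat_lit 44) (nat_lit 12852421)) .nil))))) .nil)))),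
 (.br (nat_lit 4) (nat_lit 0) (.cons (.br (nat_lit 8) (nat_lit 1) (.cons (.br (nat_lit 9) (nat_lit 0) (.cons (.rf (nat_lit 121) (nat_lit 11299894944991531)) (.cons (.rf (nat_lit 44) (nat_lit 12852421)) .nil))) (.cons (.br (nat_lit 10) (nat_lit 0) (.cons (.ev (nat_lit 1208944266641281684406273) (nat_lit 1)) (.cons (.rf (nat_lit 44) (nat_lit 12852421)) .nil))) .nil))) (.cons (.rf (nat_lit 44) (nat_lit 12852421)) .nil))),
 (.br (nat_lit 3) (nat_lit 0) (.cons (.br (nat_lit 9) (nat_lit 0) (.cons (.rf (nat_lit 198) (nat_lit 11582436114760800)) (.cons (.br (nat_lit 9) (nat_lit 0) (.cons (.rf (nat_lit 198) (nat_lit 11582436114760800)) (.cons (.rf (nat_lit 44) (nat_lit 12852421)) .nil))) (.cons (.rf (nat_lit 44) (nat_lit 12852421)) .nil)))) (.cons (.br (nat_lit 4) (nat_lit 0) (.cons (.rf (nat_lit 232) (nat_lit 407901468851537952)) (.cons (.br (nat_lit 4) (nat_lit 0) (.cons (.rf (nat_lit 232) (nat_lit 407901468851537952)) (.cons (.rf (nat_lit 44) (nat_lit 12852421))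 .nil))) (.cons (.rf (nat_lit 44) (nat_lit 12852421)) .nil)))) (.cons (.rf (nat_lit 44) (nat_lit 12852421)) .nil)))),
 (.br (nat_lit 4) (nat_lit 0) (.cons (.br (nat_lit 9) (nat_lit 0) (.cons (.ev (nat_lit 309489750634573111608016896) (nat_lit 1)) (.cons (.rf (nat_lit 44) (nat_lit 12852421)) .nil))) (.cons (.rf (nat_lit 44) (nat_lit 12852421)) .nil))),
 (.br (nat_lit 4) (nat_lit 0) (.cons (.br (nat_lit 10) (nat_lit 0) (.cons (.ev (nat_lit 1208925891953698189344769) (nat_lit 1)) (.cons (.rf (nat_lit 121) (nat_lit 10175061231209803)) (.cons (.rf (nat_lit 44) (nat_lit 12852421)) .nil)))) (.cons (.rf (nat_lit 44) (nat_lit 12852421)) .nil))),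
 (.br (nat_lit 4) (nat_lit 0) (.cons (.rf (nat_lit 235) (nat_lit 407901468851537952)) (.cons (.br (nat_lit 4) (nat_lit 0) (.cons (.rf (nat_lit 235) (nat_lit 407901468851537952)) (.cons (.rf (nat_lit 44) (nat_lit 12852421)) .nil))) (.cons (.rf (nat_lit 44) (nat_lit 12852421)) .nil)))),
 (.br (nat_lit 3) (nat_lit 0) (.cons (.rf (nat_lit 233) (nat_lit 407901468851537952)) (.cons (.br (nat_lit 7) (nat_lit 1) (.cons (.br (nat_lit 4) (nat_lit 0) (.cons (.br (nat_lit 9) (nat_lit 0) (.cons (.rf (nat_lit 226) (nat_lit 12710601549776928)) (.cons (.rf (nat_lit 44) (nat_lit 12852421)) .nil))) (.cons (.br (nat_lit 8) (nat_lit 1) (.cons (.br (nat_lit 9) (nat_lit 0) (.cons (.ev (nat_lit 4777850832477906600706) (nat_lit 2)) (.cons (.rf (nat_lit 44) (nat_lit 12852421)) .nil))) (.cons (.br (nat_lit 10) (nat_lit 0) (.cons (.ev (nat_lit 1208944266358702884323329) (nat_lit 1)) (.cons (.rf (nat_lit 44) (nat_lit 12852421)) .nil))) .nil))) (.cons (.rf (nat_lit 44) (nat_lit 12852421))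 .nil)))) (.cons (.br (nat_lit 4) (nat_lit 0) (.cons (.rf (nat_lit 234) (nat_lit 407901468851537952)) (.cons (.br (nat_lit 4) (nat_lit 0) (.cons (.rf (nat_lit 234) (nat_lit 407901468851537952)) (.cons (.rf (nat_lit 44) (nat_lit 12852421)) .nil))) (.cons (.rf (nat_lit 44) (nat_lit 12852421)) .nil)))) (.cons (.rf (nat_lit 236) (nat_lit 407901468851537952)) .nil)))) (.cons (.rf (nat_lit 44) (nat_lit 12852421)) .nil)))),
 (.br (nat_lit 2) (nat_lit 0) (.cons (.br (nat_lit 3) (nat_lit 0) (.cons (.rf (nat_lit 222) (nat_lit 11582436114793536)) (.cons (.rf (nat_lit 222) (nat_lit 11581369922716736)) (.cons (.rf (nat_lit 44) (nat_lit 11803845)) (.cons (.br (nat_lit 3) (nat_lit 0) (.cons (.rf (nat_lit 222) (nat_lit 11582436114793536)) (.cons (.rf (nat_lit 222) (nat_lit 11581369922716736)) (.cons (.rf (nat_lit 44) (nat_lit 12852421)) .nil)))) .nil))))) (.cons (.rf (nat_lit 44) (nat_lit 11803845)) (.cons (.br (nat_lit 3) (nat_lit 0) (.cons (.rf (nat_lit 233) (nat_lit 407901468851537952))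 (.cons (.rf (nat_lit 237) (nat_lit 407901468851537952)) (.cons (.br (nat_lit 3) (nat_lit 0) (.cons (.rf (nat_lit 233) (nat_lit 407901468851537952)) (.cons (.rf (nat_lit 237) (nat_lit 407901468851537952)) (.cons (.rf (nat_lit 44) (nat_lit 12852421)) .nil)))) (.cons (.rf (nat_lit 44) (nat_lit 12852421)) .nil))))) .nil)))),
 (.br (nat_lit 6) (nat_lit 1) (.cons (.rf (nat_lit 197) (nat_lit 11583635450857504)) (.cons (.rf (nat_lit 222) (nat_lit 11583635450857504)) (.cons (.rf (nat_lit 222) (nat_lit 10492919915087904)) (.cons (.br (nat_lit 2) (nat_lit 0) (.cons (.rf (nat_lit 231) (nat_lit 11584701642934304)) (.cons (.rf (nat_lit 231) (nat_lit 11583635450857504)) (.cons (.rf (nat_lit 44) (nat_lit 11803845)) (.cons (.br (nat_lit 2) (nat_lit 0) (.cons (.rf (nat_lit 231) (nat_lit 11584701642934304)) (.cons (.rf (nat_lit 231) (nat_lit 11583635450857504)) (.cons (.rf (nat_lit 44) (nat_lit 12852421)) .nil)))) .nil))))) (.cons (.br (nat_lit 2) (nat_lit 0) (.cons (.rf (nat_lit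 238) (nat_lit 11584701642934304)) (.cons (.rf (nat_lit 238) (nat_lit 10492919915087904)) (.cons (.rf (nat_lit 44) (nat_lit 11803845)) (.cons (.br (nat_lit 2) (nat_lit 0) (.cons (.rf (nat_lit 238) (nat_lit 11584701642934304)) (.cons (.rf (nat_lit 238) (nat_lit 10492919915087904)) (.cons (.rf (nat_lit 44) (nat_lit 12852421)) .nil)))) .nil))))) .nil)))))),
 (.br (nat_lit 5) (nat_lit 1) (.cons (.rf (nat_lit 197) (nat_lit 11584701642934304)) (.cons (.rf (nat_lit 222) (nat_lit 11584701642934304)) (.cons (.rf (nat_lit 222) (nat_lit 10493986107164704)) (.cons (.rf (nat_lit 239) (nat_lit 11584701642934304)) (.cons (.rf (nat_lit 239) (nat_lit 10493986107164704)) .nil)))))),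
 (.br (nat_lit 7) (nat_lit 1) (.cons (.ev (nat_lit 72058693566398721) (nat_lit 1)) (.cons (.br (nat_lit 4) (nat_lit 0) (.cons (.kr (nat_lit 72057594054705408) (nat_lit 281479271743488) (nat_lit 1) (nat_lit 0)) (.cons (.kr (nat_lit 72057594054705152) (nat_lit 281479271677952) (nat_lit 3) (nat_lit 0)) (.cons (.rf (nat_lit 44) (nat_lit 12852421)) .nil)))) .nil))),
 (.br (nat_lit 3) (nat_lit 0) (.cons (.br (nat_lit 7) (nat_lit 1) (.cons (.rf (nat_lit 121) (nat_lit 11582535970718816)) (.cons (.rf (nat_lit 78) (nat_lit 10529170480269344)) (.cons (.br (nat_lit 4) (nat_lit 0) (.cons (.rf (nat_lit 80) (nat_lit 10493952821168160)) (.cons (.br (nat_lit 4) (nat_lit 0) (.cons (.rf (nat_lit 80) (nat_lit 10493952821168160)) (.cons (.rf (nat_lit 44) (nat_lit 12852421)) .nil))) (.cons (.rf (nat_lit 44) (nat_lit 12852421)) .nil)))) .nil)))) (.cons (.rf (nat_lit 184) (nat_lit 11581403208680544)) (.cons (.br (nat_lit 7) (nat_lit 1) (.cons (.rf (nat_lit 241) (nat_lit 407901468851537952))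 (.cons (.br (nat_lit 7) (nat_lit 1) (.cons (.ev (nat_lit 72058693566398721) (nat_lit 1)) (.cons (.rf (nat_lit 86) (nat_lit 11584701642934304)) .nil))) (.cons (.br (nat_lit 7) (nat_lit 1) (.cons (.rf (nat_lit 241) (nat_lit 407901468851537952)) (.cons (.rf (nat_lit 86) (nat_lit 11584701642934304)) .nil))) .nil)))) (.cons (.rf (nat_lit 44) (nat_lit 12852421)) .nil))))),
 (.br (nat_lit 4) (nat_lit 0) (.cons (.ev (nat_lit 282578783305729) (nat_lit 1)) (.cons (.ev (nat_lit 282578783371521) (nat_lit 1)) (.cons (.rf (nat_lit 44) (nat_lit 11803845)) .nil)))),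
 (.br (nat_lit 6) (nat_lit 1) (.cons (.br (nat_lit 8) (nat_lit 1) (.cons (.rf (nat_lit 177) (nat_lit 322404138222688)) (.cons (.rf (nat_lit 177) (nat_lit 322404138189952)) (.cons (.rf (nat_lit 121) (nat_lit 11584701642902560)) (.cons (.rf (nat_lit 121) (nat_lit 10493986108148768)) .nil))))) (.cons (.rf (nat_lit 242) (nat_lit 407901468851537952)) (.cons (.br (nat_lit 3) (nat_lit 0) (.cons (.br (nat_lit 7) (nat_lit 1) (.cons (.rf (nat_lit 121) (nat_lit 10491820435965024)) (.cons (.rf (nat_lit 242) (nat_lit 407901435565541408)) (.cons (.rf (nat_lit 78) (nat_lit 11655070387111968)) .nil)))) (.cons (.br (nat_lit 4) (nat_lit 0) (.cons (.rf (nat_lit 243) (nat_lit 12745785921865760)) (.cons (.br (nat_lit 4) (nat_lit 0) (.cons (.ev (nat_lit 282578783371521) (nat_lit 1)) (.cons (.rf (nat_lit 44) (nat_lit 12852421)) .nil))) (.cons (.rf (nat_lit 44) (nat_lit 12852421)) .nil)))) (.cons (.br (nat_lit 7) (nat_lit 1) (.cons (.rf (nat_lit 243) (nat_lit 12745785921865760))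 (.cons (.br (nat_lit 7) (nat_lit 1) (.cons (.ev (nat_lit 72058693566398721) (nat_lit 1)) (.cons (.rf (nat_lit 86) (nat_lit 10493986108180512)) .nil))) (.cons (.br (nat_lit 7) (nat_lit 1) (.cons (.rf (nat_lit 243) (nat_lit 12745785921865760)) (.cons (.rf (nat_lit 86) (nat_lit 10493986108180512)) .nil))) .nil)))) (.cons (.rf (nat_lit 44) (nat_lit 12852421)) .nil))))) .nil)))),
 (.br (nat_lit 4) (nat_lit 0) (.cons (.rf (nat_lit 244) (nat_lit 406810753315768352)) (.cons (.rf (nat_lit 244) (nat_lit 406810720029771808)) (.cons (.br (nat_lit 4) (nat_lit 0) (.cons (.rf (nat_lit 244) (nat_lit 406810753315768352)) (.cons (.rf (nat_lit 244) (nat_lit 406810720029771808)) (.cons (.rf (nat_lit 44) (nat_lit 12852421)) .nil)))) (.cons (.rf (nat_lit 44) (nat_lit 12852421)) .nil))))),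
 (.br (nat_lit 2) (nat_lit 0) (.cons (.rf (nat_lit 240) (nat_lit 11584701642933312)) (.cons (.rf (nat_lit 240) (nat_lit 11584668356936768)) (.cons (.kr (nat_lit 256) (nat_lit 65536) (nat_lit 1) (nat_lit 0)) (.cons (.rf (nat_lit 44) (nat_lit 11803845)) (.cons (.br (nat_lit 3) (nat_lit 0) (.cons (.rf (nat_lit 244) (nat_lit 407901468851537952)) (.cons (.rf (nat_lit 244) (nat_lit 407901435565541408)) (.cons (.rf (nat_lit 245) (nat_lit 407901468851537952)) (.cons (.br (nat_lit 3) (nat_lit 0) (.cons (.rf (nat_lit 244) (nat_lit 407901468851537952)) (.cons (.rf (nat_lit 244) (nat_lit 407901435565541408)) (.cons (.rf (nat_lit 245) (nat_lit 407901468851537952)) (.cons (.rf (nat_lit 44) (nat_lit 12852421)) .nil))))) (.cons (.rf (nat_lit 44) (nat_lit 12852421)) .nil)))))) .nil)))))),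
 (.br (nat_lit 10) (nat_lit 0) (.cons (.rf (nat_lit 116) (nat_lit 10493952820088864)) (.cons (.rf (nat_lit 44) (nat_lit 11803845)) (.cons (.br (nat_lit 10) (nat_lit 0) (.cons (.rf (nat_lit 116) (nat_lit 10493952820088864)) (.cons (.rf (nat_lit 44) (nat_lit 12852421)) .nil))) .nil)))),
 (.br (nat_lit 4) (nat_lit 0) (.cons (.br (nat_lit 11) (nat_lit 1) (.cons (.rf (nat_lit 240) (nat_lit 11302060616125739)) (.cons (.br (nat_lit 9) (nat_lit 0) (.cons (.ev (nat_lit 309499177137532721147412481) (nat_lit 2)) (.cons (.rf (nat_lit 44) (nat_lit 12852421)) .nil))) .nil))) (.cons (.rf (nat_lit 44) (nat_lit 12852421)) .nil))),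
 (.br (nat_lit 4) (nat_lit 0) (.cons (.br (nat_lit 7) (nat_lit 1) (.cons (.br (nat_lit 9) (nat_lit 0) (.cons (.ev (nat_lit 618974742082076129869431552) (nat_lit 2)) (.cons (.rf (nat_lit 44) (nat_lit 12852421)) .nil))) (.cons (.br (nat_lit 10) (nat_lit 0) (.cons (.kr (nat_lit 1208925819614629174706432) (nat_lit 72057594037993472) (nat_lit 1) (nat_lit 0)) (.cons (.rf (nat_lit 44) (nat_lit 12852421)) .nil))) .nil))) (.cons (.rf (nat_lit 44) (nat_lit 12852421)) .nil))),
 (.br (nat_lit 9) (nat_lit 0) (.cons (.ev (nat_lit 4722438821938659852289) (nat_lit 1)) (.cons (.kr (nat_lit 1099511627776) (nat_lit 4722366482869645213696) (nat_lit 5) (nat_lit 0)) (.cons (.ev (nat_lit 309489732260167007384633344) (nat_lit 1)) (.cons (.rf (nat_lit 44) (nat_lit 12852421)) .nil))))),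
 (.br (nat_lit 4) (nat_lit 0) (.cons (.br (nat_lit 7) (nat_lit 1) (.cons (.rf (nat_lit 250) (nat_lit 407901468851537952)) (.cons (.rf (nat_lit 212) (nat_lit 407618827824729376)) .nil))) (.cons (.rf (nat_lit 44) (nat_lit 12852421)) .nil)))]

theorem c5 : chkAll C T R L5 (nat_lit 217) = true := by decide +kernel

theorem l5 : (nat_lit 217) + L5.length = (nat_lit 252) := by decide +kernel

/-- part of the certificates -/
def L6 : List Prf := [(.br (nat_lit 4) (nat_lit 0) (.cons (.br (nat_lit 10) (nat_lit 0) (.cons (.ev (nat_lit 1208925891954801996005633) (nat_lit 1)) (.cons (.rf (nat_lit 240) (nat_lit 10176160708235595)) (.cons (.rf (nat_lit 44) (nat_lit 12852421)) .nil)))) (.cons (.rf (nat_lit 44) (nat_lit 12852421)) .nil))),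
 (.br (nat_lit 2) (nat_lit 0) (.cons (.br (nat_lit 8) (nat_lit 1) (.cons (.br (nat_lit 6) (nat_lit 1) (.cons (.br (nat_lit 7) (nat_lit 1) (.cons (.br (nat_lit 9) (nat_lit 0) (.cons (.rf (nat_lit 44) (nat_lit 11803845)) (.cons (.br (nat_lit 9) (nat_lit 0) (.cons (.rf (nat_lit 44) (nat_lit 12852421)) .nil)) .nil))) (.cons (.rf (nat_lit 115) (nat_lit 325669288511520)) (.cons (.rf (nat_lit 115) (nat_lit 360853660600352)) .nil)))) (.cons (.rf (nat_lit 115) (nat_lit 325702574508064)) (.cons (.rf (nat_lit 115) (nat_lit 360886946596896)) .nil)))) (.cons (.ev (nat_lit 18446745173221179649) (nat_lit 1)) (.cons (.br (nat_lit 4) (nat_lit 0) (.cons (.rf (nat_lit 121) (nat_lit 11584701642934304)) (.cons (.rf (nat_lit 121) (nat_lit 11584668356937760)) (.cons (.rf (nat_lit 44) (nat_lit 11803845)) (.cons (.br (nat_lit 4) (nat_lit 0) (.cons (.rf (nat_lit 121) (nat_lit 11584701642934304)) (.cons (.rf (nat_lit 121) (nat_lit 11584668356937760)) (.cons (.rf (nat_lit 44) (nat_lit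 12852421)) .nil)))) .nil))))) (.cons (.br (nat_lit 4) (nat_lit 0) (.cons (.rf (nat_lit 121) (nat_lit 10493986108180512)) (.cons (.rf (nat_lit 121) (nat_lit 10493952822183968)) (.cons (.rf (nat_lit 44) (nat_lit 11803845)) (.cons (.br (nat_lit 4) (nat_lit 0) (.cons (.rf (nat_lit 121) (nat_lit 10493986108180512)) (.cons (.rf (nat_lit 121) (nat_lit 10493952822183968)) (.cons (.rf (nat_lit 44) (nat_lit 12852421)) .nil)))) .nil))))) .nil))))) (.cons (.rf (nat_lit 240) (nat_lit 11583535592866880)) (.cons (.rf (nat_lit 44) (nat_lit 11803845)) (.cons (.br (nat_lit 8) (nat_lit 1) (.cons (.br (nat_lit 6) (nat_lit 1) (.cons (.br (nat_lit 4) (nat_lit 0) (.cons (.br (nat_lit 7) (nat_lit 1) (.cons (.rf (nat_lit 121) (nat_lit 11583635449775232)) (.cons (.rf (nat_lit 121) (nat_lit 10492919915021440)) .nil))) (.cons (.br (nat_lit 7) (nat_lit 1) (.cons (.br (nat_lit 9) (nat_lit 0) (.cons (.br (nat_lit 9) (nat_lit 0) (.cons (.rf (nat_lit 44) (nat_lit 12852421)) .nil)) (.cons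 (.rf (nat_lit 44) (nat_lit 12852421)) .nil))) (.cons (.br (nat_lit 10) (nat_lit 0) (.cons (.br (nat_lit 10) (nat_lit 0) (.cons (.rf (nat_lit 44) (nat_lit 12852421)) .nil)) (.cons (.rf (nat_lit 44) (nat_lit 12852421)) .nil))) .nil))) (.cons (.rf (nat_lit 44) (nat_lit 12852421)) .nil)))) (.cons (.rf (nat_lit 247) (nat_lit 11584701642934304)) (.cons (.rf (nat_lit 247) (nat_lit 10493986108180512)) .nil)))) (.cons (.ev (nat_lit 18446745173221179649) (nat_lit 1)) (.cons (.br (nat_lit 3) (nat_lit 0) (.cons (.rf (nat_lit 52) (nat_lit 11583635450792032)) (.cons (.br (nat_lit 7) (nat_lit 1) (.cons (.rf (nat_lit 52) (nat_lit 11582535970623584)) (.cons (.rf (nat_lit 184) (nat_lit 11584668356904032)) (.cons (.rf (nat_lit 103) (nat_lit 10493952822118496)) .nil)))) (.cons (.br (nat_lit 6) (nat_lit 1) (.cons (.rf (nat_lit 121) (nat_lit 11584701642934304)) (.cons (.br (nat_lit 4) (nat_lit 0) (.cons (.rf (nat_lit 248) (nat_lit 407901468851537952)) (.cons (.br (nat_lit 4)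 (nat_lit 0) (.cons (.rf (nat_lit 248) (nat_lit 407901468851537952)) (.cons (.rf (nat_lit 44) (nat_lit 12852421)) .nil))) (.cons (.rf (nat_lit 44) (nat_lit 12852421)) .nil)))) (.cons (.br (nat_lit 4) (nat_lit 0) (.cons (.rf (nat_lit 249) (nat_lit 407901468851537952)) (.cons (.br (nat_lit 4) (nat_lit 0) (.cons (.rf (nat_lit 249) (nat_lit 407901468851537952)) (.cons (.rf (nat_lit 44) (nat_lit 12852421)) .nil))) (.cons (.rf (nat_lit 44) (nat_lit 12852421)) .nil)))) .nil)))) (.cons (.rf (nat_lit 44) (nat_lit 12852421)) .nil))))) (.cons (.br (nat_lit 3) (nat_lit 0) (.cons (.rf (nat_lit 52) (nat_lit 10492919916038240)) (.cons (.br (nat_lit 7) (nat_lit 1) (.cons (.rf (nat_lit 52) (nat_lit 10491820435869792)) (.cons (.rf (nat_lit 184) (nat_lit 11584668356904032)) (.cons (.br (nat_lit 6) (nat_lit 1) (.cons (.rf (nat_lit 104) (nat_lit 10493952822118496)) (.cons (.rf (nat_lit 107) (nat_lit 10175161089460320)) (.cons (.rf (nat_lit 179) (nat_lit 10493952822150240)) .nil))))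 .nil)))) (.cons (.br (nat_lit 6) (nat_lit 1) (.cons (.rf (nat_lit 121) (nat_lit 10493986108180512)) (.cons (.br (nat_lit 4) (nat_lit 0) (.cons (.rf (nat_lit 251) (nat_lit 407901468851537952)) (.cons (.br (nat_lit 4) (nat_lit 0) (.cons (.rf (nat_lit 251) (nat_lit 407901468851537952)) (.cons (.rf (nat_lit 44) (nat_lit 12852421)) .nil))) (.cons (.rf (nat_lit 44) (nat_lit 12852421)) .nil)))) (.cons (.br (nat_lit 4) (nat_lit 0) (.cons (.rf (nat_lit 252) (nat_lit 407901468851537952)) (.cons (.br (nat_lit 4) (nat_lit 0) (.cons (.rf (nat_lit 252) (nat_lit 407901468851537952)) (.cons (.rf (nat_lit 44) (nat_lit 12852421)) .nil))) (.cons (.rf (nat_lit 44) (nat_lit 12852421)) .nil)))) .nil)))) (.cons (.rf (nat_lit 44) (nat_lit 12852421)) .nil))))) .nil))))) .nil))))),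
 (.br (nat_lit 2) (nat_lit 0) (.cons (.rf (nat_lit 253) (nat_lit 11584701642934304)) (.cons (.rf (nat_lit 253) (nat_lit 11584668356937760)) (.cons (.rf (nat_lit 246) (nat_lit 11581403208714272)) (.cons (.rf (nat_lit 44) (nat_lit 11803845)) (.cons (.br (nat_lit 2) (nat_lit 0) (.cons (.rf (nat_lit 253) (nat_lit 11584701642934304)) (.cons (.rf (nat_lit 253) (nat_lit 11584668356937760)) (.cons (.rf (nat_lit 246) (nat_lit 11581403208714272)) (.cons (.rf (nat_lit 44) (nat_lit 12852421)) .nil))))) .nil)))))),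
 (.br (nat_lit 9) (nat_lit 0) (.cons (.br (nat_lit 10) (nat_lit 0) (.cons (.rf (nat_lit 44) (nat_lit 12852421)) .nil)) (.cons (.rf (nat_lit 44) (nat_lit 12852421)) .nil))),
 (.br (nat_lit 4) (nat_lit 0) (.cons (.br (nat_lit 7) (nat_lit 1) (.cons (.ev (nat_lit 4740885285636904321281) (nat_lit 1)) (.cons (.rf (nat_lit 255) (nat_lit 372998571739416608)) .nil))) (.cons (.rf (nat_lit 44) (nat_lit 11803845)) .nil))),
 (.br (nat_lit 3) (nat_lit 0) (.cons (.rf (nat_lit 78) (nat_lit 10492919916038240)) (.cons (.br (nat_lit 4) (nat_lit 0) (.cons (.rf (nat_lit 256) (nat_lit 11584701642934304)) (.cons (.br (nat_lit 4) (nat_lit 0) (.cons (.rf (nat_lit 256) (nat_lit 11584701642934304)) (.cons (.rf (nat_lit 44) (nat_lit 11803845)) .nil))) (.cons (.rf (nat_lit 44) (nat_lit 11803845)) .nil)))) (.cons (.rf (nat_lit 44) (nat_lit 11803845)) .nil)))),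
 (.br (nat_lit 4) (nat_lit 0) (.cons (.br (nat_lit 2) (nat_lit 0) (.cons (.rf (nat_lit 255) (nat_lit 407901468850522144)) (.cons (.rf (nat_lit 44) (nat_lit 12852421)) .nil))) (.cons (.rf (nat_lit 44) (nat_lit 12852421)) .nil))),
 (.br (nat_lit 3) (nat_lit 0) (.cons (.rf (nat_lit 78) (nat_lit 10528104288127072)) (.cons (.br (nat_lit 7) (nat_lit 1) (.cons (.br (nat_lit 4) (nat_lit 0) (.cons (.rf (nat_lit 77) (nat_lit 10528104287078528)) (.cons (.br (nat_lit 6) (nat_lit 1) (.cons (.br (nat_lit 11) (nat_lit 1) (.cons (.ev (nat_lit 309485009821626548013302016) (nat_lit 1)) .nil)) (.cons (.rf (nat_lit 258) (nat_lit 407901435565509664)) .nil))) (.cons (.rf (nat_lit 44) (nat_lit 12852421)) .nil)))) (.cons (.kr (nat_lit 72057594037927936) (nat_lit 4722366482869645213696) (nat_lit 7) (nat_lit 0)) (.cons (.br (nat_lit 4) (nat_lit 0) (.cons (.rf (nat_lit 258) (nat_lit 407901468849442848)) (.cons (.rf (nat_lit 258) (nat_lit 407901468851537952)) (.cons (.rf (nat_lit 44)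 (nat_lit 12852421)) .nil)))) .nil)))) (.cons (.rf (nat_lit 44) (nat_lit 12852421)) .nil)))),
 (.br (nat_lit 2) (nat_lit 0) (.cons (.br (nat_lit 3) (nat_lit 0) (.cons (.rf (nat_lit 115) (nat_lit 114596342171680)) (.cons (.rf (nat_lit 115) (nat_lit 114563056175136)) (.cons (.rf (nat_lit 44) (nat_lit 11803845)) (.cons (.br (nat_lit 3) (nat_lit 0) (.cons (.rf (nat_lit 115) (nat_lit 114596342171680)) (.cons (.rf (nat_lit 115) (nat_lit 114563056175136)) (.cons (.rf (nat_lit 44) (nat_lit 12852421)) .nil)))) .nil))))) (.cons (.rf (nat_lit 44) (nat_lit 11803845)) (.cons (.br (nat_lit 3) (nat_lit 0) (.cons (.rf (nat_lit 257) (nat_lit 12710601549776928)) (.cons (.rf (nat_lit 259) (nat_lit 407901468851537952)) (.cons (.br (nat_lit 3) (nat_lit 0) (.cons (.rf (nat_lit 257) (nat_lit 12710601549776928)) (.cons (.rf (nat_lit 259) (nat_lit 407901468851537952)) (.cons (.rf (nat_lit 44) (nat_lit 12852421)) .nil)))) (.cons (.rf (nat_lit 44) (nat_lit 12852421)) .nil))))) .nil)))),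
 (.br (nat_lit 4) (nat_lit 0) (.cons (.br (nat_lit 7) (nat_lit 1) (.cons (.br (nat_lit 9) (nat_lit 0) (.cons (.ev (nat_lit 4777779056363106861826) (nat_lit 2)) (.cons (.rf (nat_lit 44) (nat_lit 12852421)) .nil))) (.cons (.rf (nat_lit 201) (nat_lit 12744719729787968)) .nil))) (.cons (.rf (nat_lit 44) (nat_lit 12852421)) .nil))),
 (.br (nat_lit 3) (nat_lit 0) (.cons (.br (nat_lit 4) (nat_lit 0) (.cons (.rf (nat_lit 80) (nat_lit 10492820055001184)) (.cons (.br (nat_lit 4) (nat_lit 0) (.cons (.rf (nat_lit 80) (nat_lit 10492820055001184)) (.cons (.rf (nat_lit 44) (nat_lit 12852421)) .nil))) (.cons (.rf (nat_lit 44) (nat_lit 12852421)) .nil)))) (.cons (.br (nat_lit 4) (nat_lit 0) (.cons (.rf (nat_lit 261) (nat_lit 407901468851537952)) (.cons (.br (nat_lit 4) (nat_lit 0) (.cons (.rf (nat_lit 261) (nat_lit 407901468851537952)) (.cons (.rf (nat_lit 44) (nat_lit 12852421)) .nil))) (.cons (.rf (nat_lit 44) (nat_lit 12852421)) .nil)))) (.cons (.rf (nat_lit 44) (nat_lit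 12852421)) .nil)))),
 (.br (nat_lit 3) (nat_lit 0) (.cons (.rf (nat_lit 262) (nat_lit 407901468851537952)) (.cons (.br (nat_lit 6) (nat_lit 1) (.cons (.rf (nat_lit 262) (nat_lit 406807454881548320)) (.cons (.br (nat_lit 4) (nat_lit 0) (.cons (.br (nat_lit 4) (nat_lit 0) (.cons (.ev (nat_lit 18446745177532924161) (nat_lit 1)) (.cons (.rf (nat_lit 44) (nat_lit 12852421)) .nil))) (.cons (.br (nat_lit 4) (nat_lit 0) (.cons (.ev (nat_lit 18446745177532924161) (nat_lit 1)) (.cons (.rf (nat_lit 44) (nat_lit 12852421)) .nil))) (.cons (.rf (nat_lit 44) (nat_lit 12852421)) .nil)))) (.cons (.br (nat_lit 4) (nat_lit 0) (.cons (.br (nat_lit 4) (nat_lit 0) (.cons (.ev (nat_lit 18446745177532924161) (nat_lit 1)) (.cons (.rf (nat_lit 44) (nat_lit 12852421)) .nil))) (.cons (.br (nat_lit 4) (nat_lit 0) (.cons (.ev (nat_lit 18446745177532924161) (nat_lit 1)) (.cons (.rf (nat_lit 44) (nat_lit 12852421)) .nil))) (.cons (.rf (nat_lit 44) (nat_lit 12852421)) .nil)))) .nil))))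 (.cons (.rf (nat_lit 44) (nat_lit 12852421)) .nil)))),
 (.br (nat_lit 2) (nat_lit 0) (.cons (.br (nat_lit 3) (nat_lit 0) (.cons (.rf (nat_lit 254) (nat_lit 11583635450856512)) (.cons (.rf (nat_lit 254) (nat_lit 11582535972783168)) (.cons (.rf (nat_lit 44) (nat_lit 11803845)) (.cons (.br (nat_lit 3) (nat_lit 0) (.cons (.rf (nat_lit 254) (nat_lit 11583635450856512)) (.cons (.rf (nat_lit 254) (nat_lit 11582535972783168)) (.cons (.rf (nat_lit 44) (nat_lit 12852421)) .nil)))) .nil))))) (.cons (.rf (nat_lit 44) (nat_lit 11803845)) (.cons (.br (nat_lit 3) (nat_lit 0) (.cons (.rf (nat_lit 262) (nat_lit 407901468851537952)) (.cons (.rf (nat_lit 263) (nat_lit 407901468851537952)) (.cons (.br (nat_lit 3) (nat_lit 0) (.cons (.rf (nat_lit 262) (nat_lit 407901468851537952)) (.cons (.rf (nat_lit 263) (nat_lit 407901468851537952)) (.cons (.rf (nat_lit 44) (nat_lit 12852421)) .nil)))) (.cons (.rf (nat_lit 44) (nat_lit 12852421)) .nil))))) .nil)))),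
 (.br (nat_lit 8) (nat_lit 1) (.cons (.rf (nat_lit 246) (nat_lit 11581403208714272)) (.cons (.rf (nat_lit 254) (nat_lit 11581403208714272)) (.cons (.rf (nat_lit 254) (nat_lit 10490687672944672)) (.cons (.br (nat_lit 2) (nat_lit 0) (.cons (.rf (nat_lit 260) (nat_lit 11584701642934304)) (.cons (.rf (nat_lit 260) (nat_lit 11584668356937760)) (.cons (.rf (nat_lit 44) (nat_lit 11803845)) (.cons (.br (nat_lit 2) (nat_lit 0) (.cons (.rf (nat_lit 260) (nat_lit 11584701642934304)) (.cons (.rf (nat_lit 260) (nat_lit 11584668356937760)) (.cons (.rf (nat_lit 44) (nat_lit 12852421)) .nil)))) .nil))))) (.cons (.br (nat_lit 2) (nat_lit 0) (.cons (.rf (nat_lit 264) (nat_lit 11584701642934304)) (.cons (.rf (nat_lit 264) (nat_lit 11584668356937760)) (.cons (.rf (nat_lit 44) (nat_lit 11803845)) (.cons (.br (nat_lit 2) (nat_lit 0) (.cons (.rf (nat_lit 264) (nat_lit 11584701642934304)) (.cons (.rf (nat_lit 264) (nat_lit 11584668356937760)) (.cons (.rf (nat_lit 44) (nat_lit 12852421))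 .nil)))) .nil))))) .nil)))))),
 (.br (nat_lit 5) (nat_lit 1) (.cons (.rf (nat_lit 246) (nat_lit 11584701642934304)) (.cons (.rf (nat_lit 254) (nat_lit 11584701642934304)) (.cons (.rf (nat_lit 254) (nat_lit 10493986107164704)) (.cons (.rf (nat_lit 265) (nat_lit 11584701642934304)) (.cons (.rf (nat_lit 265) (nat_lit 10493986107164704)) .nil)))))),
 (.br (nat_lit 9) (nat_lit 0) (.cons (.ev (nat_lit 4722438540463683141889) (nat_lit 1)) (.cons (.rf (nat_lit 44) (nat_lit 11803845)) .nil))),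
 (.br (nat_lit 9) (nat_lit 0) (.cons (.rf (nat_lit 267) (nat_lit 12710601549776928)) (.cons (.rf (nat_lit 44) (nat_lit 12852421)) .nil))),
 (.br (nat_lit 7) (nat_lit 1) (.cons (.br (nat_lit 4) (nat_lit 0) (.cons (.br (nat_lit 8) (nat_lit 1) (.cons (.kr (nat_lit 18446744073709551872) (nat_lit 72057594037993472) (nat_lit 1) (nat_lit 0)) (.cons (.rf (nat_lit 268) (nat_lit 407901468851537952)) .nil))) (.cons (.br (nat_lit 11) (nat_lit 1) (.cons (.rf (nat_lit 267) (nat_lit 12710601549776928)) (.cons (.rf (nat_lit 164) (nat_lit 9043232032811)) .nil))) (.cons (.rf (nat_lit 44) (nat_lit 12852421)) .nil)))) (.cons (.br (nat_lit 4) (nat_lit 0) (.cons (.br (nat_lit 8) (nat_lit 1) (.cons (.rf (nat_lit 268) (nat_lit 407900402659460160)) (.cons (.kr (nat_lit 18446744073709551872) (nat_lit 72057594037993472) (nat_lit 1) (nat_lit 0)) .nil))) (.cons (.br (nat_lit 11) (nat_lit 1) (.cons (.br (nat_lit 9) (nat_lit 0) (.cons (.br (nat_lit 9) (nat_lit 0) (.cons (.rf (nat_lit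 44) (nat_lit 12852421)) .nil)) (.cons (.rf (nat_lit 44) (nat_lit 12852421)) .nil))) (.cons (.rf (nat_lit 164) (nat_lit 9043232032811)) .nil))) (.cons (.rf (nat_lit 44) (nat_lit 12852421)) .nil)))) .nil))),
 (.br (nat_lit 7) (nat_lit 1) (.cons (.rf (nat_lit 177) (nat_lit 323536904292448)) (.cons (.rf (nat_lit 177) (nat_lit 323536902197344)) (.cons (.rf (nat_lit 104) (nat_lit 11584668356872288)) (.cons (.rf (nat_lit 104) (nat_lit 10493952822118496)) .nil))))),
 (.br (nat_lit 8) (nat_lit 1) (.cons (.rf (nat_lit 177) (nat_lit 322404137176128)) (.cons (.rf (nat_lit 177) (nat_lit 322404137110656)) (.cons (.rf (nat_lit 121) (nat_lit 11584701642868832)) (.cons (.rf (nat_lit 121) (nat_lit 10493986108115040)) .nil))))),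
 (.br (nat_lit 3) (nat_lit 0) (.cons (.rf (nat_lit 270) (nat_lit 407901468851537952)) (.cons (.rf (nat_lit 271) (nat_lit 407901468851537952)) (.cons (.br (nat_lit 4) (nat_lit 0) (.cons (.rf (nat_lit 271) (nat_lit 406809687123690560)) (.cons (.rf (nat_lit 270) (nat_lit 406809687123690560)) (.cons (.br (nat_lit 7) (nat_lit 1) (.cons (.br (nat_lit 7) (nat_lit 1) (.cons (.br (nat_lit 9) (nat_lit 0) (.cons (.br (nat_lit 8) (nat_lit 1) (.cons (.kr (nat_lit 18446744073709551872) (nat_lit 72057594037993472) (nat_lit 1) (nat_lit 0)) .nil)) (.cons (.rf (nat_lit 44) (nat_lit 12852421)) .nil))) .nil)) (.cons (.br (nat_lit 7) (nat_lit 1) (.cons (.br (nat_lit 9) (nat_lit 0) (.cons (.br (nat_lit 8) (nat_lit 1) (.cons (.kr (nat_lit 18446744073709551872) (nat_lit 72057594037993472) (nat_lit 1) (nat_lit 0)) .nil)) (.cons (.rf (nat_lit 44) (nat_lit 12852421)) .nil))) .nil)) .nil))) (.cons (.rf (nat_lit 44) (nat_lit 12852421)) .nil))))) (.cons (.rf (nat_lit 44) (nat_lit 12852421))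 .nil))))),
 (.br (nat_lit 4) (nat_lit 0) (.cons (.rf (nat_lit 206) (nat_lit 407901435565475936)) (.cons (.rf (nat_lit 44) (nat_lit 12852421)) .nil))),
 (.br (nat_lit 4) (nat_lit 0) (.cons (.br (nat_lit 11) (nat_lit 1) (.cons (.br (nat_lit 9) (nat_lit 0) (.cons (.ev (nat_lit 4722438823042466513153) (nat_lit 1)) (.cons (.rf (nat_lit 44) (nat_lit 12852421)) .nil))) (.cons (.rf (nat_lit 164) (nat_lit 9043232032811)) .nil))) (.cons (.rf (nat_lit 44) (nat_lit 12852421)) .nil))),
 (.br (nat_lit 9) (nat_lit 0) (.cons (.rf (nat_lit 273) (nat_lit 11372529218520139)) (.cons (.rf (nat_lit 44) (nat_lit 12852421)) .nil))),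
 (.br (nat_lit 11) (nat_lit 1) (.cons (.rf (nat_lit 275) (nat_lit 407901468851537952)) (.cons (.rf (nat_lit 275) (nat_lit 406810720028692512)) .nil))),
 (.br (nat_lit 7) (nat_lit 1) (.cons (.br (nat_lit 4) (nat_lit 0) (.cons (.rf (nat_lit 179) (nat_lit 11581369919540352)) (.cons (.br (nat_lit 8) (nat_lit 1) (.cons (.kr (nat_lit 18446744073709551616) (nat_lit 4722366482869645213696) (nat_lit 8) (nat_lit 0)) (.cons (.br (nat_lit 9) (nat_lit 0) (.cons (.ev (nat_lit 4740813509522138071041) (nat_lit 1)) (.cons (.rf (nat_lit 44) (nat_lit 12852421)) .nil))) .nil))) (.cons (.rf (nat_lit 44) (nat_lit 12852421)) .nil)))) (.cons (.br (nat_lit 4) (nat_lit 0) (.cons (.rf (nat_lit 80) (nat_lit 10493952820118624)) (.cons (.rf (nat_lit 276) (nat_lit 407901468851537952)) (.cons (.rf (nat_lit 44) (nat_lit 12852421)) .nil)))) .nil))),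
 (.br (nat_lit 9) (nat_lit 0) (.cons (.ev (nat_lit 1223129813399108994531841) (nat_lit 2)) (.cons (.rf (nat_lit 44) (nat_lit 11803845)) .nil))),
 (.br (nat_lit 4) (nat_lit 0) (.cons (.br (nat_lit 10) (nat_lit 0) (.cons (.rf (nat_lit 62) (nat_lit 406807421593390208)) (.cons (.rf (nat_lit 45) (nat_lit 406808587644473440)) (.cons (.rf (nat_lit 44) (nat_lit 12852421)) .nil)))) (.cons (.rf (nat_lit 44) (nat_lit 12852421)) .nil))),
 (.br (nat_lit 9) (nat_lit 0) (.cons (.br (nat_lit 9) (nat_lit 0) (.cons (.rf (nat_lit 44) (nat_lit 12852421)) .nil)) (.cons (.rf (nat_lit 44) (nat_lit 12852421)) .nil))),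
 (.br (nat_lit 4) (nat_lit 0) (.cons (.br (nat_lit 8) (nat_lit 1) (.cons (.ev (nat_lit 18446745173221179649) (nat_lit 1)) (.cons (.rf (nat_lit 208) (nat_lit 407901435565541408)) (.cons (.rf (nat_lit 201) (nat_lit 12745752635869216)) .nil)))) (.cons (.rf (nat_lit 44) (nat_lit 12852421)) .nil))),
 (.br (nat_lit 9) (nat_lit 0) (.cons (.kr (nat_lit 4722366482869645213952) (nat_lit 72057594037993472) (nat_lit 1) (nat_lit 0)) (.cons (.ev (nat_lit 4722438823042466513153) (nat_lit 1)) (.cons (.rf (nat_lit 44) (nat_lit 11803845)) .nil)))),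
 (.br (nat_lit 4) (nat_lit 0) (.cons (.ev (nat_lit 282578783305729) (nat_lit 1)) (.cons (.br (nat_lit 7) (nat_lit 1) (.cons (.rf (nat_lit 282) (nat_lit 11584701642934304)) (.cons (.rf (nat_lit 276) (nat_lit 372998571739416608)) .nil))) (.cons (.rf (nat_lit 44) (nat_lit 11803845)) .nil)))),
 (.br (nat_lit 7) (nat_lit 1) (.cons (.rf (nat_lit 283) (nat_lit 12745785921865760)) (.cons (.rf (nat_lit 86) (nat_lit 10493986108146784)) .nil))),
 (.br (nat_lit 9) (nat_lit 0) (.cons (.br (nat_lit 9) (nat_lit 0) (.cons (.rf (nat_lit 44) (nat_lit 12852421)) .nil)) (.cons (.rf (nat_lit 44) (nat_lit 12852421)) .nil))),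
 (.br (nat_lit 7) (nat_lit 1) (.cons (.br (nat_lit 7) (nat_lit 1) (.cons (.rf (nat_lit 285) (nat_lit 370817140669909024)) .nil)) (.cons (.rf (nat_lit 285) (nat_lit 370817140669909024)) .nil)))]

theorem c6 : chkAll C T R L6 (nat_lit 252) = true := by decide +kernel

theorem l6 : (nat_lit 252) + L6.length = (nat_lit 287) := by decide +kernel

/-- part of the certificates -/
def L7 : List Prf := [(.br (nat_lit 2) (nat_lit 0) (.cons (.rf (nat_lit 266) (nat_lit 11583635450856512)) (.cons (.rf (nat_lit 240) (nat_lit 11583535592866880)) (.cons (.br (nat_lit 6) (nat_lit 1) (.cons (.br (nat_lit 4) (nat_lit 0) (.cons (.rf (nat_lit 269) (nat_lit 407901468851537952)) (.cons (.rf (nat_lit 269) (nat_lit 407900402659460160)) (.cons (.br (nat_lit 4) (nat_lit 0) (.cons (.rf (nat_lit 269) (nat_lit 407901468851537952)) (.cons (.rf (nat_lit 269) (nat_lit 407900402659460160)) (.cons (.rf (nat_lit 44) (nat_lit 12852421)) .nil)))) (.cons (.rf (nat_lit 44) (nat_lit 12852421))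 .nil))))) (.cons (.rf (nat_lit 272) (nat_lit 407901468851537952)) (.cons (.br (nat_lit 3) (nat_lit 0) (.cons (.br (nat_lit 7) (nat_lit 1) (.cons (.br (nat_lit 4) (nat_lit 0) (.cons (.br (nat_lit 8) (nat_lit 1) (.cons (.rf (nat_lit 205) (nat_lit 11582436112696448)) (.cons (.rf (nat_lit 205) (nat_lit 10491720577942656)) .nil))) (.cons (.br (nat_lit 11) (nat_lit 1) (.cons (.br (nat_lit 9) (nat_lit 0) (.cons (.br (nat_lit 8) (nat_lit 1) (.cons (.ev (nat_lit 309485028268371721234481408) (nat_lit 1)) .nil)) (.cons (.rf (nat_lit 44) (nat_lit 12852421)) .nil))) (.cons (.rf (nat_lit 164) (nat_lit 9043232032811)) .nil))) (.cons (.rf (nat_lit 44) (nat_lit 12852421)) .nil)))) (.cons (.br (nat_lit 8) (nat_lit 1) (.cons (.br (nat_lit 8) (nat_lit 1) (.cons (.kr (nat_lit 4722366482869645213952) (nat_lit 72057594037993472) (nat_lit 1) (nat_lit 0)) (.cons (.rf (nat_lit 273) (nat_lit 407901468851537952)) .nil))) (.cons (.kr (nat_lit 4722366482869645213952) (nat_lit 72057594037993472)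 (nat_lit 1) (nat_lit 0)) (.cons (.br (nat_lit 8) (nat_lit 1) (.cons (.rf (nat_lit 273) (nat_lit 407901468851537952)) (.cons (.kr (nat_lit 4722366482869645213952) (nat_lit 72057594037993472) (nat_lit 1) (nat_lit 0)) .nil))) .nil)))) (.cons (.br (nat_lit 4) (nat_lit 0) (.cons (.rf (nat_lit 274) (nat_lit 407901468851537952)) (.cons (.br (nat_lit 4) (nat_lit 0) (.cons (.rf (nat_lit 274) (nat_lit 407901468851537952)) (.cons (.rf (nat_lit 44) (nat_lit 12852421)) .nil))) (.cons (.rf (nat_lit 44) (nat_lit 12852421)) .nil)))) .nil)))) (.cons (.br (nat_lit 7) (nat_lit 1) (.cons (.rf (nat_lit 277) (nat_lit 407901468851537952)) (.cons (.br (nat_lit 7) (nat_lit 1) (.cons (.rf (nat_lit 277) (nat_lit 407901468851537952)) (.cons (.rf (nat_lit 86) (nat_lit 11584701642900576)) .nil))) (.cons (.br (nat_lit 7) (nat_lit 1) (.cons (.rf (nat_lit 277) (nat_lit 407901468851537952)) (.cons (.rf (nat_lit 86) (nat_lit 11584701642900576)) .nil))) .nil)))) (.cons (.br (nat_lit 11) (nat_lit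 1) (.cons (.br (nat_lit 4) (nat_lit 0) (.cons (.br (nat_lit 7) (nat_lit 1) (.cons (.br (nat_lit 9) (nat_lit 0) (.cons (.ev (nat_lit 309499177065756589201489921) (nat_lit 2)) (.cons (.rf (nat_lit 44) (nat_lit 12852421)) .nil))) (.cons (.rf (nat_lit 285) (nat_lit 406810753316784160)) .nil))) (.cons (.rf (nat_lit 286) (nat_lit 12710601549776928)) (.cons (.rf (nat_lit 44) (nat_lit 12852421)) .nil)))) (.cons (.rf (nat_lit 164) (nat_lit 9043230951467)) (.cons (.br (nat_lit 4) (nat_lit 0) (.cons (.rf (nat_lit 279) (nat_lit 407901468851537952)) (.cons (.br (nat_lit 4) (nat_lit 0) (.cons (.rf (nat_lit 279) (nat_lit 407901468851537952)) (.cons (.rf (nat_lit 44) (nat_lit 12852421)) .nil))) (.cons (.rf (nat_lit 44) (nat_lit 12852421)) .nil)))) .nil)))) (.cons (.rf (nat_lit 44) (nat_lit 12852421)) .nil))))) (.cons (.br (nat_lit 3) (nat_lit 0) (.cons (.br (nat_lit 7) (nat_lit 1) (.cons (.br (nat_lit 4) (nat_lit 0) (.cons (.ev (nat_lit 282578783305729) (nat_lit 1)) (.cons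 (.br (nat_lit 11) (nat_lit 1) (.cons (.rf (nat_lit 280) (nat_lit 407901468851537952)) (.cons (.rf (nat_lit 164) (nat_lit 9043232032811)) .nil))) (.cons (.rf (nat_lit 44) (nat_lit 12852421)) .nil)))) (.cons (.br (nat_lit 4) (nat_lit 0) (.cons (.rf (nat_lit 281) (nat_lit 407901468851537952)) (.cons (.br (nat_lit 4) (nat_lit 0) (.cons (.rf (nat_lit 281) (nat_lit 407901468851537952)) (.cons (.rf (nat_lit 44) (nat_lit 12852421)) .nil))) (.cons (.rf (nat_lit 44) (nat_lit 12852421)) .nil)))) (.cons (.rf (nat_lit 215) (nat_lit 12745752635803744)) .nil)))) (.cons (.br (nat_lit 7) (nat_lit 1) (.cons (.rf (nat_lit 283) (nat_lit 12745785921865760)) (.cons (.rf (nat_lit 284) (nat_lit 407901468851537952)) (.cons (.br (nat_lit 7) (nat_lit 1) (.cons (.rf (nat_lit 283) (nat_lit 12745785921865760)) (.cons (.rf (nat_lit 86) (nat_lit 10493986108146784)) .nil))) .nil)))) (.cons (.br (nat_lit 11) (nat_lit 1) (.cons (.br (nat_lit 4) (nat_lit 0) (.cons (.br (nat_lit 7) (nat_lit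 1) (.cons (.rf (nat_lit 285) (nat_lit 407901468851537952)) (.cons (.rf (nat_lit 282) (nat_lit 12745785921865760)) .nil))) (.cons (.rf (nat_lit 286) (nat_lit 12745785921865760)) (.cons (.rf (nat_lit 44) (nat_lit 12852421)) .nil)))) (.cons (.rf (nat_lit 164) (nat_lit 9043230951467)) (.cons (.rf (nat_lit 272) (nat_lit 4829302208170027)) .nil)))) (.cons (.rf (nat_lit 44) (nat_lit 12852421)) .nil))))) .nil))))) (.cons (.rf (nat_lit 44) (nat_lit 12852421)) .nil))))),
 (.br (nat_lit 10) (nat_lit 0) (.cons (.br (nat_lit 10) (nat_lit 0) (.cons (.rf (nat_lit 44) (nat_lit 11803845)) (.cons (.rf (nat_lit 280) (nat_lit 406809587263572096)) .nil))) (.cons (.rf (nat_lit 44) (nat_lit 11803845)) (.cons (.rf (nat_lit 280) (nat_lit 406809587263572096)) .nil)))),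
 (.br (nat_lit 4) (nat_lit 0) (.cons (.br (nat_lit 7) (nat_lit 1) (.cons (.ev (nat_lit 4740885285636921164033) (nat_lit 1)) (.cons (.br (nat_lit 9) (nat_lit 0) (.cons (.kr (nat_lit 4722438540463699918848) (nat_lit 562954248388608) (nat_lit 3) (nat_lit 0)) (.cons (.rf (nat_lit 44) (nat_lit 12852421)) .nil))) .nil))) (.cons (.rf (nat_lit 44) (nat_lit 12852421)) .nil))),
 (.br (nat_lit 4) (nat_lit 0) (.cons (.br (nat_lit 7) (nat_lit 1) (.cons (.ev (nat_lit 18446745177516212481) (nat_lit 1)) (.cons (.rf (nat_lit 273) (nat_lit 407901435563446304)) (.cons (.br (nat_lit 10) (nat_lit 0) (.cons (.kr (nat_lit 1208925819614629191483392) (nat_lit 281479271677952) (nat_lit 3) (nat_lit 0)) (.cons (.rf (nat_lit 44) (nat_lit 12852421)) .nil))) .nil)))) (.cons (.rf (nat_lit 44) (nat_lit 12852421)) .nil))),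
 (.br (nat_lit 4) (nat_lit 0) (.cons (.br (nat_lit 10) (nat_lit 0) (.cons (.rf (nat_lit 273) (nat_lit 406810720028692512)) (.cons (.rf (nat_lit 164) (nat_lit 9043232032811)) (.cons (.rf (nat_lit 44) (nat_lit 12852421)) .nil)))) (.cons (.rf (nat_lit 44) (nat_lit 12852421)) .nil))),
 (.br (nat_lit 6) (nat_lit 1) (.cons (.br (nat_lit 8) (nat_lit 1) (.cons (.rf (nat_lit 170) (nat_lit 395005124448352)) (.cons (.rf (nat_lit 288) (nat_lit 11584701642934304)) (.cons (.rf (nat_lit 288) (nat_lit 10493986108180512)) .nil)))) (.cons (.br (nat_lit 8) (nat_lit 1) (.cons (.rf (nat_lit 193) (nat_lit 11584701642900576)) (.cons (.br (nat_lit 4) (nat_lit 0) (.cons (.rf (nat_lit 289) (nat_lit 407901468851537952)) (.cons (.br (nat_lit 4) (nat_lit 0) (.cons (.rf (nat_lit 289) (nat_lit 407901468851537952)) (.cons (.rf (nat_lit 44) (nat_lit 12852421)) .nil))) (.cons (.rf (nat_lit 44) (nat_lit 12852421)) .nil)))) (.cons (.br (nat_lit 4) (nat_lit 0) (.cons (.rf (nat_lit 290) (nat_lit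 407901468851537952)) (.cons (.br (nat_lit 4) (nat_lit 0) (.cons (.rf (nat_lit 290) (nat_lit 407901468851537952)) (.cons (.rf (nat_lit 44) (nat_lit 12852421)) .nil))) (.cons (.rf (nat_lit 44) (nat_lit 12852421)) .nil)))) .nil)))) (.cons (.br (nat_lit 8) (nat_lit 1) (.cons (.rf (nat_lit 193) (nat_lit 10493986108146784)) (.cons (.br (nat_lit 4) (nat_lit 0) (.cons (.rf (nat_lit 291) (nat_lit 407901468851537952)) (.cons (.br (nat_lit 4) (nat_lit 0) (.cons (.rf (nat_lit 291) (nat_lit 407901468851537952)) (.cons (.rf (nat_lit 44) (nat_lit 12852421)) .nil))) (.cons (.rf (nat_lit 44) (nat_lit 12852421)) .nil)))) (.cons (.br (nat_lit 10) (nat_lit 0) (.cons (.br (nat_lit 7) (nat_lit 1) (.cons (.br (nat_lit 4) (nat_lit 0) (.cons (.br (nat_lit 11) (nat_lit 1) (.cons (.br (nat_lit 9) (nat_lit 0) (.cons (.rf (nat_lit 44) (nat_lit 12852421)) .nil)) .nil)) (.cons (.rf (nat_lit 44) (nat_lit 12852421)) .nil))) (.cons (.rf (nat_lit 110) (nat_lit 10493986108115040)) .nil)))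 (.cons (.ev (nat_lit 1208925819896104151417089) (nat_lit 1)) (.cons (.rf (nat_lit 44) (nat_lit 12852421)) .nil)))) .nil)))) .nil)))),
 (.br (nat_lit 10) (nat_lit 0) (.cons (.rf (nat_lit 80) (nat_lit 10493952822150240)) (.cons (.rf (nat_lit 44) (nat_lit 11803845)) (.cons (.br (nat_lit 10) (nat_lit 0) (.cons (.rf (nat_lit 80) (nat_lit 10493952822150240)) (.cons (.rf (nat_lit 44) (nat_lit 12852421)) .nil))) .nil)))),
 (.br (nat_lit 6) (nat_lit 1) (.cons (.rf (nat_lit 292) (nat_lit 407901468851537952)) (.cons (.br (nat_lit 3) (nat_lit 0) (.cons (.rf (nat_lit 292) (nat_lit 407901435565541408)) (.cons (.rf (nat_lit 293) (nat_lit 11584701642934304)) (.cons (.br (nat_lit 11) (nat_lit 1) (.cons (.rf (nat_lit 286) (nat_lit 12710601547681824)) (.cons (.rf (nat_lit 164) (nat_lit 9043230951467)) (.cons (.br (nat_lit 4) (nat_lit 0) (.cons (.br (nat_lit 7) (nat_lit 1) (.cons (.br (nat_lit 8) (nat_lit 1) (.cons (.kr (nat_lit 9444732965739290427904) (nat_lit 18446745173238022144)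 (nat_lit 1) (nat_lit 0)) (.cons (.ev (nat_lit 18519084246530851073) (nat_lit 1)) .nil))) (.cons (.ev (nat_lit 72339073326383361) (nat_lit 1)) .nil))) (.cons (.rf (nat_lit 193) (nat_lit 11581403207600256)) (.cons (.rf (nat_lit 44) (nat_lit 12852421)) .nil)))) .nil)))) (.cons (.rf (nat_lit 44) (nat_lit 12852421)) .nil))))) (.cons (.br (nat_lit 3) (nat_lit 0) (.cons (.rf (nat_lit 292) (nat_lit 407901435565541408)) (.cons (.rf (nat_lit 293) (nat_lit 10493986108180512)) (.cons (.br (nat_lit 11) (nat_lit 1) (.cons (.rf (nat_lit 286) (nat_lit 12745785919770656)) (.cons (.rf (nat_lit 164) (nat_lit 9043230951467)) (.cons (.br (nat_lit 4) (nat_lit 0) (.cons (.br (nat_lit 7) (nat_lit 1) (.cons (.ev (nat_lit 72339073326383361) (nat_lit 1)) (.cons (.br (nat_lit 8) (nat_lit 1) (.cons (.rf (nat_lit 258) (nat_lit 406809687123625088)) .nil)) .nil))) (.cons (.rf (nat_lit 193) (nat_lit 10490687672846464)) (.cons (.rf (nat_lit 44) (nat_lit 12852421)) .nil)))) .nil)))) (.cons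 (.rf (nat_lit 44) (nat_lit 12852421)) .nil))))) .nil)))),
 (.br (nat_lit 6) (nat_lit 1) (.cons (.rf (nat_lit 292) (nat_lit 407901468851537952)) (.cons (.rf (nat_lit 294) (nat_lit 407901468851537952)) (.cons (.br (nat_lit 3) (nat_lit 0) (.cons (.rf (nat_lit 292) (nat_lit 407901435565541408)) (.cons (.br (nat_lit 4) (nat_lit 0) (.cons (.rf (nat_lit 294) (nat_lit 407901435565541408)) (.cons (.br (nat_lit 4) (nat_lit 0) (.cons (.rf (nat_lit 294) (nat_lit 407901435565541408)) (.cons (.rf (nat_lit 44) (nat_lit 12852421)) .nil))) (.cons (.rf (nat_lit 44) (nat_lit 12852421)) .nil)))) (.cons (.br (nat_lit 11) (nat_lit 1) (.cons (.br (nat_lit 4) (nat_lit 0) (.cons (.rf (nat_lit 294) (nat_lit 407901435565541408)) (.cons (.br (nat_lit 9) (nat_lit 0) (.cons (.br (nat_lit 7) (nat_lit 1) (.cons (.rf (nat_lit 126) (nat_lit 155770258460812384)) .nil)) (.cons (.rf (nat_lit 44) (nat_lit 12852421)) .nil))) (.cons (.rf (nat_lit 44) (nat_lit 12852421)) .nil)))) (.cons (.rf (nat_lit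 164) (nat_lit 9043230951467)) (.cons (.rf (nat_lit 294) (nat_lit 4829302208170027)) .nil)))) (.cons (.rf (nat_lit 44) (nat_lit 12852421)) .nil))))) .nil)))),
 (.br (nat_lit 2) (nat_lit 0) (.cons (.rf (nat_lit 240) (nat_lit 11583535592866880)) (.cons (.rf (nat_lit 240) (nat_lit 11582436114793536)) (.cons (.br (nat_lit 6) (nat_lit 1) (.cons (.rf (nat_lit 292) (nat_lit 407901468851537952)) (.cons (.rf (nat_lit 294) (nat_lit 407901468851537952)) (.cons (.rf (nat_lit 295) (nat_lit 407901468851537952)) (.cons (.br (nat_lit 6) (nat_lit 1) (.cons (.rf (nat_lit 292) (nat_lit 407901468851537952)) (.cons (.rf (nat_lit 294) (nat_lit 407901468851537952)) (.cons (.rf (nat_lit 295) (nat_lit 407901468851537952)) .nil)))) .nil))))) (.cons (.rf (nat_lit 44) (nat_lit 12852421)) .nil))))),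
 (.br (nat_lit 2) (nat_lit 0) (.cons (.rf (nat_lit 287) (nat_lit 407901468851537952)) (.cons (.rf (nat_lit 287) (nat_lit 407901435565541408)) (.cons (.rf (nat_lit 296) (nat_lit 407901468851537952)) (.cons (.br (nat_lit 2) (nat_lit 0) (.cons (.rf (nat_lit 287) (nat_lit 407901468851537952)) (.cons (.rf (nat_lit 287) (nat_lit 407901435565541408)) (.cons (.rf (nat_lit 296) (nat_lit 407901468851537952)) (.cons (.rf (nat_lit 44) (nat_lit 12852421)) .nil))))) (.cons (.rf (nat_lit 44) (nat_lit 12852421)) .nil)))))),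
 (.br (nat_lit 11) (nat_lit 1) (.cons (.ev (nat_lit 309485009893402662779486464) (nat_lit 1)) (.cons (.rf (nat_lit 164) (nat_lit 9043232032811)) .nil))),
 (.br (nat_lit 4) (nat_lit 0) (.cons (.ev (nat_lit 282574505115649) (nat_lit 1)) (.cons (.kr (nat_lit 18446744073709551872) (nat_lit 72057594037993472) (nat_lit 1) (nat_lit 0)) (.cons (.rf (nat_lit 298) (nat_lit 407901468851537952)) (.cons (.rf (nat_lit 44) (nat_lit 12852421)) .nil))))),
 (.br (nat_lit 10) (nat_lit 0) (.cons (.kr (nat_lit 18446744073709551872) (nat_lit 72057594037993472) (nat_lit 1) (nat_lit 0)) (.cons (.rf (nat_lit 298) (nat_lit 401145003224695872)) (.cons (.rf (nat_lit 44) (nat_lit 12852421)) .nil)))),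
 (.br (nat_lit 10) (nat_lit 0) (.cons (.rf (nat_lit 44) (nat_lit 12852421)) .nil)),
 (.br (nat_lit 3) (nat_lit 0) (.cons (.br (nat_lit 7) (nat_lit 1) (.cons (.rf (nat_lit 299) (nat_lit 407901468851537952)) (.cons (.br (nat_lit 8) (nat_lit 1) (.cons (.ev (nat_lit 18519084242252660993) (nat_lit 1)) (.cons (.rf (nat_lit 300) (nat_lit 407901468851537952)) .nil))) (.cons (.rf (nat_lit 300) (nat_lit 407900402659460160)) .nil)))) (.cons (.br (nat_lit 11) (nat_lit 1) (.cons (.br (nat_lit 4) (nat_lit 0) (.cons (.rf (nat_lit 286) (nat_lit 12708435877561440)) (.cons (.br (nat_lit 7) (nat_lit 1) (.cons (.br (nat_lit 8) (nat_lit 1) (.cons (.rf (nat_lit 301) (nat_lit 407901468851537952)) .nil)) (.cons (.br (nat_lit 8) (nat_lit 1) (.cons (.ev (nat_lit 309499195583710537778725377) (nat_lit 2)) (.cons (.rf (nat_lit 97) (nat_lit 155770258460806432)) .nil))) .nil))) (.cons (.rf (nat_lit 44) (nat_lit 12852421)) .nil)))) (.cons (.rf (nat_lit 164) (nat_lit 9043230951467)) (.cons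 (.br (nat_lit 4) (nat_lit 0) (.cons (.br (nat_lit 4) (nat_lit 0) (.cons (.ev (nat_lit 309485009893402667057676544) (nat_lit 1)) (.cons (.rf (nat_lit 44) (nat_lit 12852421)) .nil))) (.cons (.br (nat_lit 4) (nat_lit 0) (.cons (.ev (nat_lit 309485009893402667057676544) (nat_lit 1)) (.cons (.rf (nat_lit 44) (nat_lit 12852421)) .nil))) (.cons (.rf (nat_lit 44) (nat_lit 12852421)) .nil)))) .nil)))) (.cons (.rf (nat_lit 44) (nat_lit 12852421)) .nil)))),
 (.br (nat_lit 3) (nat_lit 0) (.cons (.br (nat_lit 7) (nat_lit 1) (.cons (.rf (nat_lit 299) (nat_lit 407901468851537952)) (.cons (.br (nat_lit 9) (nat_lit 0) (.cons (.kr (nat_lit 18446744073709551872) (nat_lit 4722366482869645279232) (nat_lit 1) (nat_lit 0)) (.cons (.br (nat_lit 11) (nat_lit 1) (.cons (.rf (nat_lit 297) (nat_lit 11373595410597931)) (.cons (.rf (nat_lit 104) (nat_lit 4618162689575211)) .nil))) (.cons (.rf (nat_lit 44) (nat_lit 12852421)) .nil)))) (.cons (.br (nat_lit 8) (nat_lit 1) (.cons (.ev (nat_lit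 18519084242252660993) (nat_lit 1)) (.cons (.rf (nat_lit 236) (nat_lit 407898137131255904)) (.cons (.kr (nat_lit 18446744073709551872) (nat_lit 72057594037993472) (nat_lit 1) (nat_lit 0)) .nil)))) .nil)))) (.cons (.br (nat_lit 11) (nat_lit 1) (.cons (.br (nat_lit 4) (nat_lit 0) (.cons (.rf (nat_lit 286) (nat_lit 12708435877561440)) (.cons (.br (nat_lit 7) (nat_lit 1) (.cons (.br (nat_lit 9) (nat_lit 0) (.cons (.kr (nat_lit 72057594037927936) (nat_lit 4722366482869645213696) (nat_lit 7) (nat_lit 0)) (.cons (.rf (nat_lit 44) (nat_lit 12852421)) .nil))) (.cons (.rf (nat_lit 250) (nat_lit 406807454881548320)) .nil))) (.cons (.rf (nat_lit 44) (nat_lit 12852421)) .nil)))) (.cons (.rf (nat_lit 164) (nat_lit 9043230951467)) (.cons (.rf (nat_lit 297) (nat_lit 10281813682750539)) .nil)))) (.cons (.rf (nat_lit 44) (nat_lit 12852421)) .nil)))),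
 (.br (nat_lit 3) (nat_lit 0) (.cons (.rf (nat_lit 303) (nat_lit 407901468851537952)) (.cons (.br (nat_lit 11) (nat_lit 1) (.cons (.br (nat_lit 4) (nat_lit 0) (.cons (.br (nat_lit 7) (nat_lit 1) (.cons (.br (nat_lit 8) (nat_lit 1) (.cons (.kr (nat_lit 18446744073709551872) (nat_lit 4722366482869645279232) (nat_lit 1) (nat_lit 0)) (.cons (.rf (nat_lit 211) (nat_lit 397801388389829920)) .nil))) (.cons (.br (nat_lit 10) (nat_lit 0) (.cons (.kr (nat_lit 1208925819614629174706432) (nat_lit 72057594037993472) (nat_lit 1) (nat_lit 0)) (.cons (.rf (nat_lit 44) (nat_lit 12852421)) .nil))) .nil))) (.cons (.rf (nat_lit 286) (nat_lit 12742487484532832)) (.cons (.rf (nat_lit 44) (nat_lit 12852421)) .nil)))) (.cons (.rf (nat_lit 164) (nat_lit 9043230951467)) (.cons (.rf (nat_lit 297) (nat_lit 10281813682750539)) .nil)))) (.cons (.rf (nat_lit 44) (nat_lit 12852421)) .nil)))),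
 (.br (nat_lit 2) (nat_lit 0) (.cons (.rf (nat_lit 266) (nat_lit 11583635450856512)) (.cons (.rf (nat_lit 240) (nat_lit 11583535592866880)) (.cons (.br (nat_lit 6) (nat_lit 1) (.cons (.rf (nat_lit 297) (nat_lit 407900402659460160)) (.cons (.rf (nat_lit 297) (nat_lit 406809687123690560)) (.cons (.br (nat_lit 3) (nat_lit 0) (.cons (.rf (nat_lit 302) (nat_lit 407901468851537952)) (.cons (.rf (nat_lit 302) (nat_lit 407900402659460160)) (.cons (.br (nat_lit 3) (nat_lit 0) (.cons (.rf (nat_lit 302) (nat_lit 407901468851537952)) (.cons (.rf (nat_lit 302) (nat_lit 407900402659460160)) (.cons (.rf (nat_lit 44) (nat_lit 12852421)) .nil)))) (.cons (.rf (nat_lit 44) (nat_lit 12852421)) .nil))))) (.cons (.br (nat_lit 3) (nat_lit 0) (.cons (.rf (nat_lit 303) (nat_lit 407901468851537952)) (.cons (.rf (nat_lit 304) (nat_lit 407901468851537952)) (.cons (.br (nat_lit 3) (nat_lit 0) (.cons (.rf (nat_lit 303) (nat_lit 407901468851537952)) (.cons (.rf (nat_lit 304) (nat_lit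 407901468851537952)) (.cons (.rf (nat_lit 44) (nat_lit 12852421)) .nil)))) (.cons (.rf (nat_lit 44) (nat_lit 12852421)) .nil))))) .nil))))) (.cons (.rf (nat_lit 44) (nat_lit 12852421)) .nil))))),
 (.br (nat_lit 11) (nat_lit 1) (.cons (.ev (nat_lit 309489750634573111591174144) (nat_lit 1)) (.cons (.rf (nat_lit 297) (nat_lit 11373595410597931)) (.cons (.rf (nat_lit 297) (nat_lit 4618195975833643)) .nil)))),
 (.br (nat_lit 7) (nat_lit 1) (.cons (.br (nat_lit 11) (nat_lit 1) (.cons (.ev (nat_lit 309485028340147840295632896) (nat_lit 1)) .nil)) (.cons (.br (nat_lit 4) (nat_lit 0) (.cons (.br (nat_lit 10) (nat_lit 0) (.cons (.rf (nat_lit 44) (nat_lit 12852421)) .nil)) (.cons (.rf (nat_lit 44) (nat_lit 12852421)) .nil))) .nil))),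
 (.br (nat_lit 3) (nat_lit 0) (.cons (.br (nat_lit 9) (nat_lit 0) (.cons (.kr (nat_lit 281474976710656) (nat_lit 4722366482869645213696) (nat_lit 6) (nat_lit 0)) (.cons (.kr (nat_lit 72057594037927936) (nat_lit 4722366482869645213696) (nat_lit 7) (nat_lit 0)) (.cons (.rf (nat_lit 306) (nat_lit 407901468851537952)) (.cons (.rf (nat_lit 44) (nat_lit 12852421)) .nil))))) (.cons (.br (nat_lit 9) (nat_lit 0) (.cons (.kr (nat_lit 281474976710656) (nat_lit 4722366482869645213696) (nat_lit 6) (nat_lit 0)) (.cons (.br (nat_lit 6) (nat_lit 1) (.cons (.rf (nat_lit 307) (nat_lit 407901468851537952)) (.cons (.br (nat_lit 11) (nat_lit 1) (.cons (.br (nat_lit 4) (nat_lit 0) (.cons (.ev (nat_lit 1856928948467466872786650630) (nat_lit 3)) (.cons (.rf (nat_lit 44) (nat_lit 12852421)) .nil))) (.cons (.rf (nat_lit 307) (nat_lit 4829302208170027)) .nil))) .nil))) (.cons (.ev (nat_lit 309489750634573111591174144) (nat_lit 1)) (.cons (.rf (nat_lit 44) (nat_lit 12852421)) .nil)))))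 (.cons (.rf (nat_lit 44) (nat_lit 12852421)) .nil)))),
 (.br (nat_lit 4) (nat_lit 0) (.cons (.rf (nat_lit 247) (nat_lit 11583635448792160)) (.cons (.rf (nat_lit 276) (nat_lit 407900402657363072)) (.cons (.rf (nat_lit 44) (nat_lit 12852421)) .nil)))),
 (.br (nat_lit 10) (nat_lit 0) (.cons (.rf (nat_lit 301) (nat_lit 406807454879452224)) (.cons (.rf (nat_lit 44) (nat_lit 12852421)) .nil))),
 (.br (nat_lit 3) (nat_lit 0) (.cons (.br (nat_lit 4) (nat_lit 0) (.cons (.rf (nat_lit 309) (nat_lit 407901468851537952)) (.cons (.rf (nat_lit 309) (nat_lit 407901435565541408)) (.cons (.br (nat_lit 4) (nat_lit 0) (.cons (.rf (nat_lit 309) (nat_lit 407901468851537952)) (.cons (.rf (nat_lit 309) (nat_lit 407901435565541408)) (.cons (.rf (nat_lit 44) (nat_lit 12852421)) .nil)))) (.cons (.rf (nat_lit 44) (nat_lit 12852421)) .nil))))) (.cons (.br (nat_lit 11) (nat_lit 1) (.cons (.br (nat_lit 4) (nat_lit 0) (.cons (.rf (nat_lit 285) (nat_lit 406809687122642016)) (.cons (.br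 (nat_lit 6) (nat_lit 1) (.cons (.rf (nat_lit 310) (nat_lit 406807454882563136)) (.cons (.rf (nat_lit 310) (nat_lit 407901468851537952)) .nil))) (.cons (.rf (nat_lit 44) (nat_lit 12852421)) .nil)))) (.cons (.rf (nat_lit 164) (nat_lit 9043230951467)) (.cons (.rf (nat_lit 297) (nat_lit 10279581440607307)) .nil)))) (.cons (.rf (nat_lit 44) (nat_lit 12852421)) .nil))))]

theorem c7 : chkAll C T R L7 (nat_lit 287) = true := by decide +kernel

theorem l7 : (nat_lit 287) + L7.length = (nat_lit 312) := by decide +kernel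

/-- part of the certificates -/
def L8 : List Prf := [(.br (nat_lit 2) (nat_lit 0) (.cons (.rf (nat_lit 240) (nat_lit 11583535592866880)) (.cons (.rf (nat_lit 240) (nat_lit 11582436114793536)) (.cons (.br (nat_lit 8) (nat_lit 1) (.cons (.rf (nat_lit 297) (nat_lit 407898170417316928)) (.cons (.rf (nat_lit 297) (nat_lit 406807454881547328)) (.cons (.br (nat_lit 3) (nat_lit 0) (.cons (.rf (nat_lit 308) (nat_lit 407901468851537952)) (.cons (.rf (nat_lit 308) (nat_lit 407901435565541408)) (.cons (.br (nat_lit 3) (nat_lit 0) (.cons (.rf (nat_lit 308) (nat_lit 407901468851537952)) (.cons (.rf (nat_lit 308) (nat_lit 407901435565541408)) (.cons (.rf (nat_lit 44) (nat_lit 12852421)) .nil)))) (.cons (.rf (nat_lit 44) (nat_lit 12852421)) .nil))))) (.cons (.br (nat_lit 3) (nat_lit 0) (.cons (.rf (nat_lit 311) (nat_lit 407901468851537952)) (.cons (.rf (nat_lit 311) (nat_lit 407901435565541408)) (.cons (.br (nat_lit 3) (nat_lit 0) (.cons (.rf (nat_lit 311) (nat_lit 407901468851537952))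 (.cons (.rf (nat_lit 311) (nat_lit 407901435565541408)) (.cons (.rf (nat_lit 44) (nat_lit 12852421)) .nil)))) (.cons (.rf (nat_lit 44) (nat_lit 12852421)) .nil))))) .nil))))) (.cons (.rf (nat_lit 44) (nat_lit 12852421)) .nil))))),
 (.br (nat_lit 2) (nat_lit 0) (.cons (.rf (nat_lit 305) (nat_lit 407901468851537952)) (.cons (.rf (nat_lit 305) (nat_lit 407901435565541408)) (.cons (.rf (nat_lit 312) (nat_lit 407901468851537952)) (.cons (.br (nat_lit 2) (nat_lit 0) (.cons (.rf (nat_lit 305) (nat_lit 407901468851537952)) (.cons (.rf (nat_lit 305) (nat_lit 407901435565541408)) (.cons (.rf (nat_lit 312) (nat_lit 407901468851537952)) (.cons (.rf (nat_lit 44) (nat_lit 12852421)) .nil))))) (.cons (.rf (nat_lit 44) (nat_lit 12852421)) .nil)))))),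
 (.br (nat_lit 3) (nat_lit 1) (.cons (.rf (nat_lit 164) (nat_lit 9043225708576)) (.cons (.br (nat_lit 4) (nat_lit 1) (.cons (.br (nat_lit 1) (nat_lit 0) (.cons (.rf (nat_lit 240) (nat_lit 11584701642934304)) (.cons (.rf (nat_lit 240) (nat_lit 11584668356937760)) (.cons (.rf (nat_lit 266) (nat_lit 11584701642934304)) (.cons (.rf (nat_lit 44) (nat_lit 11803845)) (.cons (.br (nat_lit 5) (nat_lit 1) (.cons (.br (nat_lit 2) (nat_lit 0) (.cons (.rf (nat_lit 240) (nat_lit 11584701642933312)) (.cons (.rf (nat_lit 240) (nat_lit 11584668356936768)) (.cons (.rf (nat_lit 266) (nat_lit 11584701642933312)) (.cons (.kr (nat_lit 256) (nat_lit 65536) (nat_lit 1) (nat_lit 0)) (.cons (.rf (nat_lit 44) (nat_lit 12852421)) .nil)))))) (.cons (.rf (nat_lit 297) (nat_lit 407901468851537952)) (.cons (.rf (nat_lit 297) (nat_lit 406810753315768352)) (.cons (.rf (nat_lit 313) (nat_lit 407901468851537952)) (.cons (.rf (nat_lit 313) (nat_lit 406810753315768352)) .nil)))))) .nil))))))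 .nil)) .nil))),
 (.br (nat_lit 2) (nat_lit 0) (.cons (.rf (nat_lit 314) (nat_lit 9043225644096)) (.cons (.rf (nat_lit 314) (nat_lit 7977033567296)) (.cons (.rf (nat_lit 314) (nat_lit 6877555493952)) (.cons (.rf (nat_lit 314) (nat_lit 5744791424064)) (.cons (.rf (nat_lit 44) (nat_lit 9706693)) (.cons (.br (nat_lit 2) (nat_lit 0) (.cons (.rf (nat_lit 314) (nat_lit 9043225644096)) (.cons (.rf (nat_lit 314) (nat_lit 7977033567296)) (.cons (.rf (nat_lit 314) (nat_lit 6877555493952)) (.cons (.rf (nat_lit 314) (nat_lit 5744791424064)) (.cons (.rf (nat_lit 44) (nat_lit 10755269)) .nil)))))) .nil))))))),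
 (.br (nat_lit 9) (nat_lit 1) (.cons (.br (nat_lit 10) (nat_lit 0) (.cons (.br (nat_lit 11) (nat_lit 0) (.cons (.br (nat_lit 11) (nat_lit 0) .nil) .nil)) .nil)) .nil)),
 (.br (nat_lit 9) (nat_lit 1) (.cons (.rf (nat_lit 316) (nat_lit 14242959524133701664)) (.cons (.br (nat_lit 9) (nat_lit 1) (.cons (.rf (nat_lit 316) (nat_lit 14242959524133701664)) .nil)) .nil))),
 (.br (nat_lit 8) (nat_lit 1) (.cons (.br (nat_lit 10) (nat_lit 1) (.cons (.br (nat_lit 4) (nat_lit 0) (.cons (.ev (nat_lit 72339073309671681) (nat_lit 1)) (.cons (.rf (nat_lit 317) (nat_lit 14242959524133701664)) .nil))) .nil)) .nil)),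
 (.br (nat_lit 11) (nat_lit 0) (.cons (.ev (nat_lit 309485028268371721217638401) (nat_lit 1)) .nil)),
 (.br (nat_lit 9) (nat_lit 1) (.cons (.br (nat_lit 11) (nat_lit 0) (.cons (.rf (nat_lit 319) (nat_lit 14242959524133701664)) .nil)) .nil)),
 (.br (nat_lit 8) (nat_lit 1) (.cons (.kr (nat_lit 4294967552) (nat_lit 16842752) (nat_lit 1) (nat_lit 0)) (.cons (.br (nat_lit 10) (nat_lit 1) (.cons (.br (nat_lit 4) (nat_lit 0) (.cons (.zr (nat_lit 4311876096) (nat_lit 72341268037894145) (nat_lit 5) (nat_lit 0)) (.cons (.br (nat_lit 9) (nat_lit 1) (.cons (.rf (nat_lit 320) (nat_lit 14242959524133701664)) (.cons (.br (nat_lit 9) (nat_lit 1) (.cons (.rf (nat_lit 320) (nat_lit 14242959524133701664)) .nil)) .nil))) .nil))) .nil)) .nil))),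
 (.br (nat_lit 11) (nat_lit 0) (.cons (.br (nat_lit 11) (nat_lit 0) .nil) .nil)),
 (.br (nat_lit 8) (nat_lit 1) (.cons (.zr (nat_lit 4311876096) (nat_lit 72341268037894145) (nat_lit 5) (nat_lit 0)) (.cons (.br (nat_lit 10) (nat_lit 1) (.cons (.br (nat_lit 8) (nat_lit 1) (.cons (.zr (nat_lit 4311876096) (nat_lit 72341268037894145) (nat_lit 5) (nat_lit 0)) (.cons (.br (nat_lit 4) (nat_lit 0) (.cons (.kr (nat_lit 4294967552) (nat_lit 16842752) (nat_lit 1) (nat_lit 0)) (.cons (.br (nat_lit 9) (nat_lit 1) (.cons (.rf (nat_lit 322) (nat_lit 14242959524133701664)) (.cons (.rf (nat_lit 322) (nat_lit 14208056627021580320)) .nil))) .nil))) .nil))) .nil)) .nil))),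
 (.br (nat_lit 10) (nat_lit 0) (.cons (.br (nat_lit 11) (nat_lit 0) (.cons (.br (nat_lit 11) (nat_lit 0) .nil) .nil)) .nil)),
 (.br (nat_lit 9) (nat_lit 1) (.cons (.kr (nat_lit 18446744073709617152) (nat_lit 1103806595072) (nat_lit 2) (nat_lit 0)) (.cons (.br (nat_lit 9) (nat_lit 1) (.cons (.ev (nat_lit 4722438823038171545601) (nat_lit 1)) (.cons (.rf (nat_lit 324) (nat_lit 407901468851537952)) .nil))) (.cons (.br (nat_lit 9) (nat_lit 1) (.cons (.kr (nat_lit 18446744073709617152) (nat_lit 1103806595072) (nat_lit 2) (nat_lit 0)) (.cons (.rf (nat_lit 324) (nat_lit 407901468851537952)) .nil))) .nil)))),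
 (.br (nat_lit 11) (nat_lit 0) (.cons (.br (nat_lit 11) (nat_lit 0) .nil) .nil)),
 (.br (nat_lit 4) (nat_lit 0) (.cons (.kr (nat_lit 18446744073709617152) (nat_lit 1103806595072) (nat_lit 2) (nat_lit 0)) (.cons (.br (nat_lit 9) (nat_lit 1) (.cons (.ev (nat_lit 4722438823038171545601) (nat_lit 1)) (.cons (.br (nat_lit 8) (nat_lit 1) (.cons (.rf (nat_lit 326) (nat_lit 407901468851537952)) (.cons (.br (nat_lit 10) (nat_lit 0) (.cons (.br (nat_lit 10) (nat_lit 0) .nil) .nil)) .nil))) .nil))) .nil))),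
 (.br (nat_lit 10) (nat_lit 0) (.cons (.br (nat_lit 10) (nat_lit 0) .nil) .nil)),
 (.br (nat_lit 8) (nat_lit 1) (.cons (.ev (nat_lit 18519084242235818241) (nat_lit 1)) (.cons (.br (nat_lit 9) (nat_lit 1) (.cons (.kr (nat_lit 4722366482869645213952) (nat_lit 1103806595072) (nat_lit 1) (nat_lit 0)) (.cons (.rf (nat_lit 326) (nat_lit 407867383991076896)) (.cons (.rf (nat_lit 328) (nat_lit 407901468851537952)) .nil)))) .nil))),
 (.br (nat_lit 8) (nat_lit 1) (.cons (.kr (nat_lit 4722366482869645213952) (nat_lit 1103806595072) (nat_lit 1) (nat_lit 0)) (.cons (.br (nat_lit 8) (nat_lit 1) (.cons (.ev (nat_lit 18519084242235818241) (nat_lit 1)) (.cons (.rf (nat_lit 324) (nat_lit 407867383991076896)) .nil))) (.cons (.br (nat_lit 8) (nat_lit 1) (.cons (.kr (nat_lit 4722366482869645213952) (nat_lit 1103806595072) (nat_lit 1) (nat_lit 0)) (.cons (.rf (nat_lit 324) (nat_lit 407867383991076896)) .nil))) .nil)))),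
 (.br (nat_lit 9) (nat_lit 1) (.cons (.br (nat_lit 10) (nat_lit 0) (.cons (.br (nat_lit 11) (nat_lit 0) (.cons (.kr (nat_lit 1208925819614633469673728) (nat_lit 309485009821345068741623808) (nat_lit 1) (nat_lit 0)) .nil)) .nil)) .nil)),
 (.br (nat_lit 9) (nat_lit 1) (.cons (.rf (nat_lit 331) (nat_lit 14242959524133701664)) (.cons (.br (nat_lit 9) (nat_lit 1) (.cons (.rf (nat_lit 331) (nat_lit 14242959524133701664)) .nil)) .nil))),
 (.br (nat_lit 8) (nat_lit 1) (.cons (.ev (nat_lit 18519084242235818241) (nat_lit 1)) (.cons (.br (nat_lit 4) (nat_lit 0) (.cons (.br (nat_lit 9) (nat_lit 1) (.cons (.ev (nat_lit 4722438823038171545601) (nat_lit 1)) (.cons (.kr (nat_lit 4722366482869645213952) (nat_lit 18446744073709617152) (nat_lit 1) (nat_lit 0)) .nil))) (.cons (.rf (nat_lit 332) (nat_lit 14242959524133701664)) .nil))) .nil))),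
 (.br (nat_lit 4) (nat_lit 0) (.cons (.rf (nat_lit 333) (nat_lit 14242959524133701664)) (.cons (.br (nat_lit 9) (nat_lit 1) (.cons (.ev (nat_lit 4722438823038171545601) (nat_lit 1)) (.cons (.rf (nat_lit 332) (nat_lit 14242925439273240608)) .nil))) .nil))),
 (.br (nat_lit 11) (nat_lit 0) (.cons (.br (nat_lit 11) (nat_lit 0) .nil) .nil)),
 (.br (nat_lit 10) (nat_lit 0) (.cons (.br (nat_lit 10) (nat_lit 0) .nil) .nil)),
 (.br (nat_lit 9) (nat_lit 1) (.cons (.rf (nat_lit 335) (nat_lit 407901468851537952)) (.cons (.rf (nat_lit 336) (nat_lit 407901468851537952)) .nil))),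
 (.br (nat_lit 9) (nat_lit 1) (.cons (.br (nat_lit 9) (nat_lit 1) (.cons (.rf (nat_lit 336) (nat_lit 374090318131269728)) .nil)) (.cons (.rf (nat_lit 336) (nat_lit 374090318131269728)) .nil))),
 (.br (nat_lit 4) (nat_lit 0) (.cons (.rf (nat_lit 337) (nat_lit 407901468851537952)) (.cons (.rf (nat_lit 338) (nat_lit 443930265870501920)) .nil))),
 (.br (nat_lit 9) (nat_lit 1) (.cons (.rf (nat_lit 328) (nat_lit 372929336866605088)) (.cons (.rf (nat_lit 328) (nat_lit 407867382950857760)) .nil))),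
 (.br (nat_lit 4) (nat_lit 0) (.cons (.rf (nat_lit 340) (nat_lit 370817140669909024)) (.cons (.br (nat_lit 4) (nat_lit 0) (.cons (.rf (nat_lit 340) (nat_lit 370852325041997856)) .nil)) .nil))),
 (.br (nat_lit 7) (nat_lit 1) (.cons (.br (nat_lit 8) (nat_lit 1) (.cons (.zr (nat_lit 18447025548736593920) (nat_lit 72057602627862529) (nat_lit 5) (nat_lit 6)) (.cons (.br (nat_lit 10) (nat_lit 1) (.cons (.rf (nat_lit 339) (nat_lit 407901468851537952)) .nil)) .nil))) (.cons (.br (nat_lit 10) (nat_lit 1) (.cons (.br (nat_lit 8) (nat_lit 1) (.cons (.rf (nat_lit 339) (nat_lit 407900402659429408)) (.cons (.zr (nat_lit 18447025548703040000) (nat_lit 72057594038059009) (nat_lit 5) (nat_lit 6)) (.cons (.rf (nat_lit 341) (nat_lit 12745785921865760)) .nil)))) .nil)) .nil))),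
 (.br (nat_lit 11) (nat_lit 0) (.cons (.br (nat_lit 11) (nat_lit 0) .nil) .nil)),
 (.br (nat_lit 3) (nat_lit 0) (.cons (.br (nat_lit 4) (nat_lit 0) (.cons (.rf (nat_lit 343) (nat_lit 407901468851537952)) (.cons (.rf (nat_lit 317) (nat_lit 14242958458981812256)) .nil))) (.cons (.ev (nat_lit 4722438540463683207169) (nat_lit 1)) (.cons (.br (nat_lit 8) (nat_lit 1) (.cons (.rf (nat_lit 338) (nat_lit 443929131024945216)) (.cons (.ev (nat_lit 18519084242235818241) (nat_lit 1)) (.cons (.br (nat_lit 4) (nat_lit 0) (.cons (.br (nat_lit 11) (nat_lit 0) (.cons (.rf (nat_lit 319) (nat_lit 14242925405986227264)) .nil)) (.cons (.rf (nat_lit 332) (nat_lit 14208055561869690912)) .nil))) .nil)))) .nil)))),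
 (.br (nat_lit 7) (nat_lit 1) (.cons (.rf (nat_lit 342) (nat_lit 325702574508064)) (.cons (.br (nat_lit 10) (nat_lit 1) (.cons (.br (nat_lit 10) (nat_lit 0) (.cons (.ev (nat_lit 18519084242235818241) (nat_lit 1)) (.cons (.rf (nat_lit 344) (nat_lit 407901468851537952)) (.cons (.br (nat_lit 10) (nat_lit 0) (.cons (.ev (nat_lit 18519084242235818241) (nat_lit 1)) (.cons (.rf (nat_lit 344) (nat_lit 407901468851537952)) .nil))) .nil)))) .nil)) .nil))),
 (.br (nat_lit 10) (nat_lit 0) (.cons (.kr (nat_lit 72057594037927936) (nat_lit 1208925819614629174706176) (nat_lit 7) (nat_lit 0)) (.cons (.ev (nat_lit 1208944338697776193863681) (nat_lit 1)) .nil))),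
 (.br (nat_lit 4) (nat_lit 0) (.cons (.ev (nat_lit 18447025552981229569) (nat_lit 1)) (.cons (.br (nat_lit 9) (nat_lit 1) (.cons (.ev (nat_lit 18447025548703105281) (nat_lit 1)) (.cons (.rf (nat_lit 346) (nat_lit 14242959524133701664)) (.cons (.rf (nat_lit 346) (nat_lit 14208056627021580320)) .nil)))) .nil))),
 (.br (nat_lit 9) (nat_lit 1) (.cons (.kr (nat_lit 4294967552) (nat_lit 16842752) (nat_lit 1) (nat_lit 0)) (.cons (.rf (nat_lit 336) (nat_lit 372997436893859904)) (.cons (.rf (nat_lit 336) (nat_lit 407900334005981248)) .nil)))),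
 (.br (nat_lit 4) (nat_lit 0) (.cons (.kr (nat_lit 4294967552) (nat_lit 16842752) (nat_lit 1) (nat_lit 0)) (.cons (.rf (nat_lit 348) (nat_lit 370850128165209152)) .nil))),
 (.br (nat_lit 9) (nat_lit 1) (.cons (.ev (nat_lit 1213666705181741055738113) (nat_lit 1)) (.cons (.rf (nat_lit 332) (nat_lit 14242890289260890144)) .nil))),
 (.br (nat_lit 4) (nat_lit 0) (.cons (.rf (nat_lit 348) (nat_lit 407899271974749248)) (.cons (.br (nat_lit 8) (nat_lit 1) (.cons (.rf (nat_lit 350) (nat_lit 14242959524133701664)) (.cons (.rf (nat_lit 350) (nat_lit 14208056627021580320)) .nil))) .nil))),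
 (.br (nat_lit 4) (nat_lit 0) (.cons (.rf (nat_lit 337) (nat_lit 407867383991076896)) (.cons (.rf (nat_lit 338) (nat_lit 443896181010040864)) .nil))),
 (.br (nat_lit 10) (nat_lit 0) (.cons (.rf (nat_lit 326) (nat_lit 370816075518019616)) (.cons (.br (nat_lit 10) (nat_lit 0) (.cons (.rf (nat_lit 326) (nat_lit 370851259890108448)) .nil)) .nil))),
 (.br (nat_lit 9) (nat_lit 1) (.cons (.rf (nat_lit 339) (nat_lit 407865252647078944)) (.cons (.rf (nat_lit 353) (nat_lit 12746885433493536)) (.cons (.rf (nat_lit 341) (nat_lit 12746885433493536)) .nil)))),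
 (.br (nat_lit 7) (nat_lit 1) (.cons (.br (nat_lit 9) (nat_lit 1) (.cons (.kr (nat_lit 4294967552) (nat_lit 16842752) (nat_lit 1) (nat_lit 0)) (.cons (.br (nat_lit 10) (nat_lit 1) (.cons (.rf (nat_lit 352) (nat_lit 407901468851537952)) .nil)) .nil))) (.cons (.br (nat_lit 10) (nat_lit 1) (.cons (.rf (nat_lit 354) (nat_lit 407901468851537952)) .nil)) .nil))),
 (.br (nat_lit 10) (nat_lit 0) (.cons (.br (nat_lit 10) (nat_lit 0) .nil) .nil)),
 (.br (nat_lit 11) (nat_lit 0) (.cons (.kr (nat_lit 4722366482869645213696) (nat_lit 1208925819614629174706176) (nat_lit 9) (nat_lit 0)) (.cons (.br (nat_lit 11) (nat_lit 0) (.cons (.kr (nat_lit 4722366482869645213696) (nat_lit 1208925819614629174706176) (nat_lit 9) (nat_lit 0)) .nil)) .nil))),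
 (.br (nat_lit 11) (nat_lit 0) (.cons (.br (nat_lit 11) (nat_lit 0) .nil) .nil)),
 (.br (nat_lit 9) (nat_lit 1) (.cons (.rf (nat_lit 328) (nat_lit 372997505547308064)) (.cons (.rf (nat_lit 328) (nat_lit 407901467811318816)) .nil))),
 (.br (nat_lit 8) (nat_lit 1) (.cons (.br (nat_lit 9) (nat_lit 1) (.cons (.rf (nat_lit 357) (nat_lit 407901468851537952)) (.cons (.rf (nat_lit 358) (nat_lit 407901468851537952)) .nil))) (.cons (.rf (nat_lit 359) (nat_lit 14242959524133701664)) .nil))),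
 (.br (nat_lit 8) (nat_lit 1) (.cons (.br (nat_lit 8) (nat_lit 1) (.cons (.rf (nat_lit 356) (nat_lit 374123406494369824)) .nil)) (.cons (.rf (nat_lit 356) (nat_lit 374123406494369824)) .nil))),
 (.br (nat_lit 7) (nat_lit 1) (.cons (.rf (nat_lit 355) (nat_lit 325702574508064)) (.cons (.br (nat_lit 10) (nat_lit 1) (.cons (.br (nat_lit 4) (nat_lit 0) (.cons (.br (nat_lit 3) (nat_lit 0) (.cons (.kr (nat_lit 18446744078004519424) (nat_lit 1099545247744) (nat_lit 1) (nat_lit 0)) (.cons (.br (nat_lit 8) (nat_lit 1) (.cons (.rf (nat_lit 343) (nat_lit 407867383991076896)) (.cons (.rf (nat_lit 356) (nat_lit 372997506587527200)) .nil))) (.cons (.rf (nat_lit 360) (nat_lit 14242959524133701664)) .nil)))) (.cons (.rf (nat_lit 355) (nat_lit 220152678450240)) (.cons (.br (nat_lit 3) (nat_lit 0) (.cons (.br (nat_lit 8) (nat_lit 1) (.cons (.rf (nat_lit 354) (nat_lit 407900403699648544)) (.cons (.rf (nat_lit 354) (nat_lit 372997506587527200)) .nil))) (.cons (.rf (nat_lit 361)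 (nat_lit 443930265870501920)) (.cons (.br (nat_lit 9) (nat_lit 1) (.cons (.ev (nat_lit 4722438823042483224833) (nat_lit 1)) (.cons (.rf (nat_lit 332) (nat_lit 14208020411857340448)) .nil))) .nil)))) .nil)))) .nil)) .nil))),
 (.br (nat_lit 9) (nat_lit 1) (.cons (.kr (nat_lit 4294967552) (nat_lit 16842752) (nat_lit 1) (nat_lit 0)) (.cons (.rf (nat_lit 336) (nat_lit 372997403606814816)) (.cons (.rf (nat_lit 336) (nat_lit 407900300718936160)) .nil)))),
 (.br (nat_lit 8) (nat_lit 1) (.cons (.rf (nat_lit 356) (nat_lit 372998571739416608)) (.cons (.rf (nat_lit 356) (nat_lit 407901468851537952)) .nil)))]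

theorem c8 : chkAll C T R L8 (nat_lit 312) = true := by decide +kernel

theorem l8 : (nat_lit 312) + L8.length = (nat_lit 365) := by decide +kernel

/-- part of the certificates -/
def L9 : List Prf := [(.br (nat_lit 4) (nat_lit 0) (.cons (.rf (nat_lit 364) (nat_lit 370714886088525856)) (.cons (.br (nat_lit 4) (nat_lit 0) (.cons (.rf (nat_lit 364) (nat_lit 370715985600153632)) .nil)) .nil))),
 (.br (nat_lit 9) (nat_lit 1) (.cons (.ev (nat_lit 1213666705181741055738113) (nat_lit 1)) (.cons (.rf (nat_lit 332) (nat_lit 14207986326996879392)) .nil))),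
 (.br (nat_lit 4) (nat_lit 0) (.cons (.rf (nat_lit 348) (nat_lit 407864088676402240)) (.cons (.br (nat_lit 8) (nat_lit 1) (.cons (.rf (nat_lit 366) (nat_lit 14242959524133701664)) (.cons (.rf (nat_lit 366) (nat_lit 14208056627021580320)) .nil))) .nil))),
 (.br (nat_lit 4) (nat_lit 0) (.cons (.kr (nat_lit 4294967552) (nat_lit 16842752) (nat_lit 1) (nat_lit 0)) (.cons (.rf (nat_lit 363) (nat_lit 408003757857607776)) .nil))),
 (.br (nat_lit 9) (nat_lit 1) (.cons (.br (nat_lit 10) (nat_lit 1) (.cons (.br (nat_lit 10) (nat_lit 1) .nil) .nil)) (.cons (.rf (nat_lit 328) (nat_lit 410082968640522272)) .nil))),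
 (.br (nat_lit 9) (nat_lit 1) (.cons (.br (nat_lit 11) (nat_lit 0) (.cons (.br (nat_lit 10) (nat_lit 1) (.cons (.kr (nat_lit 309485009821345073019748608) (nat_lit 79228162514264337593560793088) (nat_lit 1) (nat_lit 0)) .nil)) .nil)) .nil)),
 (.br (nat_lit 9) (nat_lit 1) (.cons (.rf (nat_lit 370) (nat_lit 14242959524133701664)) (.cons (.br (nat_lit 9) (nat_lit 1) (.cons (.rf (nat_lit 370) (nat_lit 14242959524133701664)) .nil)) .nil))),
 (.br (nat_lit 8) (nat_lit 1) (.cons (.ev (nat_lit 18518801672059289601) (nat_lit 1)) (.cons (.rf (nat_lit 371) (nat_lit 14242959524133701664)) .nil))),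
 (.br (nat_lit 4) (nat_lit 0) (.cons (.br (nat_lit 8) (nat_lit 1) (.cons (.rf (nat_lit 369) (nat_lit 407901468851537952)) (.cons (.br (nat_lit 9) (nat_lit 1) (.cons (.rf (nat_lit 328) (nat_lit 410084033792411680)) (.cons (.rf (nat_lit 358) (nat_lit 410084033792411680)) .nil))) .nil))) (.cons (.rf (nat_lit 372) (nat_lit 14242959524133701664)) .nil))),
 (.br (nat_lit 9) (nat_lit 1) (.cons (.br (nat_lit 8) (nat_lit 1) (.cons (.br (nat_lit 8) (nat_lit 1) (.cons (.rf (nat_lit 328) (nat_lit 410084033792411680)) .nil)) (.cons (.rf (nat_lit 328) (nat_lit 410084033792411680)) .nil))) (.cons (.rf (nat_lit 371) (nat_lit 14242925439273240608)) .nil))),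
 (.br (nat_lit 7) (nat_lit 1) (.cons (.br (nat_lit 9) (nat_lit 1) (.cons (.rf (nat_lit 355) (nat_lit 325633919979616)) (.cons (.br (nat_lit 9) (nat_lit 1) (.cons (.rf (nat_lit 355) (nat_lit 325633919979616)) (.cons (.rf (nat_lit 368) (nat_lit 445092449661061152)) .nil))) .nil))) (.cons (.br (nat_lit 11) (nat_lit 1) (.cons (.br (nat_lit 4) (nat_lit 0) (.cons (.rf (nat_lit 373) (nat_lit 14242959524133701664)) (.cons (.br (nat_lit 4) (nat_lit 0) (.cons (.rf (nat_lit 373) (nat_lit 14242959524133701664)) (.cons (.rf (nat_lit 374) (nat_lit 14242959524133701664)) .nil))) (.cons (.br (nat_lit 4) (nat_lit 0) (.cons (.rf (nat_lit 372) (nat_lit 14242959524133701664)) (.cons (.rf (nat_lit 374) (nat_lit 14242959524133701664)) .nil))) .nil)))) .nil)) .nil))),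
 (.br (nat_lit 9) (nat_lit 1) (.cons (.br (nat_lit 11) (nat_lit 0) (.cons (.br (nat_lit 10) (nat_lit 1) (.cons (.kr (nat_lit 79537647524085682666563698944) (nat_lit 9444732965739307270144) (nat_lit 1) (nat_lit 0)) .nil)) .nil)) .nil)),
 (.br (nat_lit 8) (nat_lit 1) (.cons (.br (nat_lit 9) (nat_lit 1) (.cons (.rf (nat_lit 358) (nat_lit 445022080916883488)) (.cons (.ev (nat_lit 4740885285641199288321) (nat_lit 1)) .nil))) .nil)),
 (.br (nat_lit 8) (nat_lit 1) (.cons (.br (nat_lit 9) (nat_lit 1) (.cons (.kr (nat_lit 309485009821345068741558272) (nat_lit 18446744078004518912) (nat_lit 3) (nat_lit 0)) (.cons (.br (nat_lit 9) (nat_lit 1) (.cons (.kr (nat_lit 309485009821345068741558272) (nat_lit 18446744078004518912) (nat_lit 3) (nat_lit 0)) .nil)) .nil))) .nil)),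
 (.br (nat_lit 7) (nat_lit 1) (.cons (.rf (nat_lit 375) (nat_lit 11584701642934304)) (.cons (.br (nat_lit 11) (nat_lit 1) (.cons (.br (nat_lit 3) (nat_lit 0) (.cons (.br (nat_lit 4) (nat_lit 0) (.cons (.rf (nat_lit 338) (nat_lit 372997403606814816)) (.cons (.br (nat_lit 8) (nat_lit 1) (.cons (.rf (nat_lit 369) (nat_lit 407900403699648544)) (.cons (.br (nat_lit 9) (nat_lit 1) (.cons (.rf (nat_lit 358) (nat_lit 445022080916883488)) (.cons (.rf (nat_lit 328) (nat_lit 445022080916883488)) .nil))) .nil))) (.cons (.br (nat_lit 8) (nat_lit 1) (.cons (.ev (nat_lit 18518801672059289601) (nat_lit 1)) (.cons (.rf (nat_lit 371) (nat_lit 13126065751393929248)) .nil))) .nil)))) (.cons (.br (nat_lit 4) (nat_lit 0) (.cons (.rf (nat_lit 360) (nat_lit 11974271210805595168)) (.cons (.rf (nat_lit 338) (nat_lit 372962219268280416)) (.cons (.br (nat_lit 9) (nat_lit 1) (.cons (.br (nat_lit 8) (nat_lit 1) (.cons (.br (nat_lit 8) (nat_lit 1) (.cons (.rf (nat_lit 328) (nat_lit 410152203513333792))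 .nil)) (.cons (.rf (nat_lit 328) (nat_lit 410152203513333792)) .nil))) (.cons (.rf (nat_lit 371) (nat_lit 13126030601381578784)) .nil))) .nil)))) (.cons (.br (nat_lit 4) (nat_lit 0) (.cons (.br (nat_lit 8) (nat_lit 1) (.cons (.br (nat_lit 9) (nat_lit 1) (.cons (.rf (nat_lit 357) (nat_lit 445056165777344544)) (.cons (.rf (nat_lit 358) (nat_lit 445056165777344544)) .nil))) (.cons (.br (nat_lit 9) (nat_lit 1) (.cons (.rf (nat_lit 376) (nat_lit 14242959524133701664)) (.cons (.rf (nat_lit 376) (nat_lit 13126065751393929248)) .nil))) .nil))) (.cons (.br (nat_lit 8) (nat_lit 1) (.cons (.rf (nat_lit 377) (nat_lit 407901468851537952)) (.cons (.br (nat_lit 8) (nat_lit 1) (.cons (.rf (nat_lit 377) (nat_lit 407901468851537952)) .nil)) .nil))) (.cons (.br (nat_lit 8) (nat_lit 1) (.cons (.rf (nat_lit 378) (nat_lit 14242959524133701664)) (.cons (.br (nat_lit 8) (nat_lit 1) (.cons (.rf (nat_lit 378) (nat_lit 14242959524133701664)) .nil)) .nil))) .nil)))) .nil)))) .nil))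 .nil))),
 (.br (nat_lit 9) (nat_lit 1) (.cons (.rf (nat_lit 328) (nat_lit 410119183804762144)) (.cons (.rf (nat_lit 371) (nat_lit 14242890289260890144)) .nil))),
 (.br (nat_lit 4) (nat_lit 0) (.cons (.rf (nat_lit 363) (nat_lit 445052867340963936)) (.cons (.br (nat_lit 8) (nat_lit 1) (.cons (.rf (nat_lit 380) (nat_lit 14242959524133701664)) (.cons (.rf (nat_lit 380) (nat_lit 13126066816545818656)) .nil))) .nil))),
 (.br (nat_lit 4) (nat_lit 0) (.cons (.rf (nat_lit 368) (nat_lit 407900403699648544)) (.cons (.br (nat_lit 4) (nat_lit 0) (.cons (.kr (nat_lit 4294967552) (nat_lit 16842752) (nat_lit 1) (nat_lit 0)) (.cons (.rf (nat_lit 381) (nat_lit 13052988875717314592)) .nil))) (.cons (.rf (nat_lit 381) (nat_lit 13052988875717314592)) .nil)))),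
 (.br (nat_lit 11) (nat_lit 0) (.cons (.br (nat_lit 10) (nat_lit 1) (.cons (.ev (nat_lit 310693935641242272387825664) (nat_lit 1)) .nil)) .nil)),
 (.br (nat_lit 9) (nat_lit 1) (.cons (.rf (nat_lit 358) (nat_lit 444986930904533024)) (.cons (.rf (nat_lit 383) (nat_lit 14242959524133701664)) .nil))),
 (.br (nat_lit 8) (nat_lit 1) (.cons (.rf (nat_lit 384) (nat_lit 14242959524133701664)) (.cons (.rf (nat_lit 384) (nat_lit 13126066816545818656)) .nil))),
 (.br (nat_lit 9) (nat_lit 1) (.cons (.kr (nat_lit 4722366482869645213696) (nat_lit 309485009821345068724781056) (nat_lit 9) (nat_lit 0)) .nil)),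
 (.br (nat_lit 9) (nat_lit 1) (.cons (.br (nat_lit 9) (nat_lit 1) (.cons (.kr (nat_lit 4722366482869645213696) (nat_lit 309485009821345068724781056) (nat_lit 9) (nat_lit 0)) .nil)) (.cons (.rf (nat_lit 386) (nat_lit 14242959524133701664)) .nil))),
 (.br (nat_lit 10) (nat_lit 1) (.cons (.kr (nat_lit 79228162514264337597838917888) (nat_lit 309485009821345068741623808) (nat_lit 1) (nat_lit 0)) .nil)),
 (.br (nat_lit 8) (nat_lit 1) (.cons (.br (nat_lit 9) (nat_lit 1) (.cons (.rf (nat_lit 388) (nat_lit 14242959524133701664)) (.cons (.rf (nat_lit 388) (nat_lit 13126066816545818656)) .nil))) .nil)),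
 (.br (nat_lit 8) (nat_lit 1) (.cons (.rf (nat_lit 389) (nat_lit 14242959524133701664)) (.cons (.rf (nat_lit 389) (nat_lit 13126066816545818656)) .nil))),
 (.br (nat_lit 4) (nat_lit 0) (.cons (.rf (nat_lit 390) (nat_lit 14242925439273240608)) (.cons (.rf (nat_lit 390) (nat_lit 14242959524133701664)) .nil))),
 (.br (nat_lit 2) (nat_lit 0) (.cons (.br (nat_lit 7) (nat_lit 1) (.cons (.br (nat_lit 4) (nat_lit 0) (.cons (.rf (nat_lit 318) (nat_lit 325702574508064)) (.cons (.rf (nat_lit 318) (nat_lit 291584428049472)) (.cons (.br (nat_lit 4) (nat_lit 0) (.cons (.rf (nat_lit 318) (nat_lit 325702574508064)) (.cons (.rf (nat_lit 318) (nat_lit 291584428049472)) .nil))) .nil)))) (.cons (.br (nat_lit 3) (nat_lit 0) (.cons (.rf (nat_lit 321) (nat_lit 325702574508064)) (.cons (.rf (nat_lit 323) (nat_lit 325702574508064)) (.cons (.br (nat_lit 4) (nat_lit 0) (.cons (.rf (nat_lit 323) (nat_lit 291584427033664)) (.cons (.rf (nat_lit 321) (nat_lit 291584427033664)) (.cons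 (.kr (nat_lit 4294967552) (nat_lit 16842752) (nat_lit 1) (nat_lit 0)) .nil)))) .nil)))) (.cons (.br (nat_lit 10) (nat_lit 1) (.cons (.br (nat_lit 3) (nat_lit 0) (.cons (.rf (nat_lit 354) (nat_lit 407867382950857760)) (.cons (.rf (nat_lit 354) (nat_lit 407901467811318816)) (.cons (.br (nat_lit 4) (nat_lit 0) (.cons (.rf (nat_lit 333) (nat_lit 14242959524133701664)) (.cons (.rf (nat_lit 334) (nat_lit 14242959524133701664)) (.cons (.br (nat_lit 4) (nat_lit 0) (.cons (.rf (nat_lit 333) (nat_lit 14242959524133701664)) (.cons (.rf (nat_lit 334) (nat_lit 14242959524133701664)) .nil))) .nil)))) .nil)))) .nil)) .nil)))) (.cons (.br (nat_lit 7) (nat_lit 1) (.cons (.rf (nat_lit 342) (nat_lit 325702574508064)) (.cons (.rf (nat_lit 345) (nat_lit 325702574508064)) (.cons (.br (nat_lit 10) (nat_lit 1) (.cons (.br (nat_lit 7) (nat_lit 1) (.cons (.rf (nat_lit 342) (nat_lit 325702574508064)) (.cons (.rf (nat_lit 345) (nat_lit 325702574508064)) (.cons (.br (nat_lit 3) (nat_lit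 0) (.cons (.rf (nat_lit 365) (nat_lit 12745785921865760)) (.cons (.br (nat_lit 4) (nat_lit 0) (.cons (.rf (nat_lit 348) (nat_lit 407901468851537952)) (.cons (.kr (nat_lit 4722366482869645214208) (nat_lit 1099528470528) (nat_lit 1) (nat_lit 0)) (.cons (.br (nat_lit 4) (nat_lit 0) (.cons (.rf (nat_lit 348) (nat_lit 407901468851537952)) (.cons (.kr (nat_lit 4722366482869645214208) (nat_lit 1099528470528) (nat_lit 1) (nat_lit 0)) .nil))) .nil)))) (.cons (.br (nat_lit 4) (nat_lit 0) (.cons (.rf (nat_lit 349) (nat_lit 445091350149433376)) (.cons (.rf (nat_lit 351) (nat_lit 14242959524133701664)) (.cons (.br (nat_lit 4) (nat_lit 0) (.cons (.kr (nat_lit 4294967552) (nat_lit 16842752) (nat_lit 1) (nat_lit 0)) (.cons (.rf (nat_lit 351) (nat_lit 14242959524133701664)) .nil))) .nil)))) .nil)))) .nil)))) .nil)) .nil)))) (.cons (.br (nat_lit 7) (nat_lit 1) (.cons (.rf (nat_lit 355) (nat_lit 325702574508064)) (.cons (.rf (nat_lit 362) (nat_lit 325702574508064)) (.cons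 (.br (nat_lit 10) (nat_lit 1) (.cons (.br (nat_lit 7) (nat_lit 1) (.cons (.rf (nat_lit 355) (nat_lit 325702574508064)) (.cons (.rf (nat_lit 362) (nat_lit 325702574508064)) (.cons (.br (nat_lit 3) (nat_lit 0) (.cons (.br (nat_lit 8) (nat_lit 1) (.cons (.rf (nat_lit 363) (nat_lit 407901468851537952)) (.cons (.rf (nat_lit 354) (nat_lit 407900403699648544)) (.cons (.rf (nat_lit 354) (nat_lit 372997506587527200)) .nil)))) (.cons (.rf (nat_lit 365) (nat_lit 12746885433493536)) (.cons (.br (nat_lit 4) (nat_lit 0) (.cons (.rf (nat_lit 367) (nat_lit 14242959524133701664)) (.cons (.rf (nat_lit 349) (nat_lit 445092449661061152)) (.cons (.br (nat_lit 4) (nat_lit 0) (.cons (.rf (nat_lit 367) (nat_lit 14242959524133701664)) (.cons (.kr (nat_lit 4294967552) (nat_lit 16842752) (nat_lit 1) (nat_lit 0)) .nil))) .nil)))) .nil)))) .nil)))) .nil)) .nil)))) (.cons (.br (nat_lit 7) (nat_lit 1) (.cons (.rf (nat_lit 375) (nat_lit 11584701642934304)) (.cons (.rf (nat_lit 379) (nat_lit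 11584701642934304)) (.cons (.br (nat_lit 11) (nat_lit 1) (.cons (.br (nat_lit 7) (nat_lit 1) (.cons (.rf (nat_lit 375) (nat_lit 11584701642934304)) (.cons (.rf (nat_lit 379) (nat_lit 11584701642934304)) (.cons (.br (nat_lit 3) (nat_lit 0) (.cons (.rf (nat_lit 382) (nat_lit 445091350149433376)) (.cons (.rf (nat_lit 382) (nat_lit 445092449661061152)) (.cons (.br (nat_lit 4) (nat_lit 0) (.cons (.br (nat_lit 4) (nat_lit 0) (.cons (.rf (nat_lit 385) (nat_lit 14242959524133701664)) (.cons (.rf (nat_lit 390) (nat_lit 14242925439273240608)) .nil))) (.cons (.br (nat_lit 4) (nat_lit 0) (.cons (.rf (nat_lit 385) (nat_lit 14242959524133701664)) (.cons (.rf (nat_lit 390) (nat_lit 14242959524133701664)) .nil))) (.cons (.rf (nat_lit 391) (nat_lit 14242959524133701664)) .nil)))) .nil)))) .nil)))) .nil)) .nil)))) .nil))))),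
 (.br (nat_lit 9) (nat_lit 1) (.cons (.br (nat_lit 12) (nat_lit 0) (.cons (.br (nat_lit 12) (nat_lit 0) .nil) .nil)) .nil)),
 (.br (nat_lit 8) (nat_lit 1) (.cons (.rf (nat_lit 393) (nat_lit 443930265870501920)) (.cons (.br (nat_lit 9) (nat_lit 1) (.cons (.rf (nat_lit 393) (nat_lit 443896181009025056)) (.cons (.br (nat_lit 10) (nat_lit 0) (.cons (.br (nat_lit 11) (nat_lit 0) (.cons (.ev (nat_lit 79229376180897179166073421824) (nat_lit 1)) .nil)) .nil)) .nil))) .nil))),
 (.br (nat_lit 3) (nat_lit 0) (.cons (.ev (nat_lit 72339069031481601) (nat_lit 1)) (.cons (.br (nat_lit 4) (nat_lit 0) (.cons (.ev (nat_lit 18519084242235818241) (nat_lit 1)) (.cons (.br (nat_lit 4) (nat_lit 0) (.cons (.ev (nat_lit 72339073309671681) (nat_lit 1)) (.cons (.rf (nat_lit 394) (nat_lit 14242959524133701664)) .nil))) (.cons (.br (nat_lit 4) (nat_lit 0) (.cons (.ev (nat_lit 18519084242235818241) (nat_lit 1)) (.cons (.rf (nat_lit 394) (nat_lit 14242959524133701664)) .nil))) .nil))))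 .nil))),
 (.br (nat_lit 10) (nat_lit 0) (.cons (.br (nat_lit 11) (nat_lit 0) (.cons (.kr (nat_lit 309485009821345068741558528) (nat_lit 1208925819614633469739008) (nat_lit 1) (nat_lit 0)) .nil)) .nil)),
 (.br (nat_lit 4) (nat_lit 0) (.cons (.kr (nat_lit 18446744073709617152) (nat_lit 1103806595072) (nat_lit 2) (nat_lit 0)) (.cons (.br (nat_lit 8) (nat_lit 1) (.cons (.br (nat_lit 9) (nat_lit 1) (.cons (.ev (nat_lit 1213666705181741055803393) (nat_lit 1)) (.cons (.rf (nat_lit 396) (nat_lit 14242959524133701664)) .nil))) (.cons (.br (nat_lit 9) (nat_lit 1) (.cons (.rf (nat_lit 396) (nat_lit 14242925439272224800)) (.cons (.ev (nat_lit 309489750706912180605812993) (nat_lit 1)) .nil))) .nil))) .nil))),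
 (.br (nat_lit 3) (nat_lit 0) (.cons (.br (nat_lit 4) (nat_lit 0) (.cons (.kr (nat_lit 18446744073709617152) (nat_lit 1099528404992) (nat_lit 2) (nat_lit 0)) (.cons (.kr (nat_lit 4722366482869645213952) (nat_lit 1099528404992) (nat_lit 1) (nat_lit 0)) (.cons (.br (nat_lit 4) (nat_lit 0) (.cons (.kr (nat_lit 18446744073709617152) (nat_lit 1099528404992) (nat_lit 2) (nat_lit 0)) (.cons (.kr (nat_lit 4722366482869645213952) (nat_lit 1099528404992) (nat_lit 1) (nat_lit 0)) .nil))) .nil)))) (.cons (.br (nat_lit 4) (nat_lit 0) (.cons (.br (nat_lit 4) (nat_lit 0) (.cons (.kr (nat_lit 18446744073709617152) (nat_lit 1103806595072) (nat_lit 2) (nat_lit 0)) (.cons (.kr (nat_lit 16777216) (nat_lit 4294967296) (nat_lit 3) (nat_lit 0)) .nil))) (.cons (.rf (nat_lit 397) (nat_lit 14242959524133701664)) (.cons (.br (nat_lit 4) (nat_lit 0) (.cons (.kr (nat_lit 16777216) (nat_lit 4294967296) (nat_lit 3) (nat_lit 0)) (.cons (.rf (nat_lit 397) (nat_lit 14242959524133701664))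 .nil))) .nil)))) .nil))),
 (.br (nat_lit 10) (nat_lit 0) (.cons (.br (nat_lit 11) (nat_lit 0) (.cons (.br (nat_lit 11) (nat_lit 0) .nil) .nil)) .nil)),
 (.br (nat_lit 9) (nat_lit 1) (.cons (.kr (nat_lit 16777216) (nat_lit 4294967296) (nat_lit 3) (nat_lit 0)) (.cons (.rf (nat_lit 399) (nat_lit 407901468851537952)) (.cons (.rf (nat_lit 399) (nat_lit 372996374863643712)) .nil)))),
 (.br (nat_lit 8) (nat_lit 1) (.cons (.ev (nat_lit 18519084242235818241) (nat_lit 1)) (.cons (.br (nat_lit 11) (nat_lit 0) (.cons (.br (nat_lit 11) (nat_lit 0) .nil) .nil)) (.cons (.rf (nat_lit 399) (nat_lit 407831168826837024)) .nil)))),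
 (.br (nat_lit 9) (nat_lit 1) (.cons (.kr (nat_lit 4722366482869645213952) (nat_lit 1103806595072) (nat_lit 1) (nat_lit 0)) (.cons (.rf (nat_lit 328) (nat_lit 372894117160587328)) (.cons (.rf (nat_lit 358) (nat_lit 372894120281244736)) .nil))))]

theorem c9 : chkAll C T R L9 (nat_lit 365) = true := by decide +kernel

theorem l9 : (nat_lit 365) + L9.length = (nat_lit 403) := by decide +kernel

/-- part of the certificates -/
def L10 : List Prf := [(.br (nat_lit 4) (nat_lit 0) (.cons (.kr (nat_lit 4722366482869645213952) (nat_lit 1103806595072) (nat_lit 1) (nat_lit 0)) (.cons (.br (nat_lit 8) (nat_lit 1) (.cons (.br (nat_lit 10) (nat_lit 0) (.cons (.br (nat_lit 11) (nat_lit 0) (.cons (.br (nat_lit 11) (nat_lit 0) .nil) .nil)) .nil)) (.cons (.rf (nat_lit 399) (nat_lit 372926074838942784)) .nil))) .nil))),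
 (.br (nat_lit 7) (nat_lit 1) (.cons (.br (nat_lit 4) (nat_lit 0) (.cons (.rf (nat_lit 354) (nat_lit 407832164285059136)) (.cons (.kr (nat_lit 16777216) (nat_lit 4294967296) (nat_lit 3) (nat_lit 0)) (.cons (.br (nat_lit 8) (nat_lit 1) (.cons (.ev (nat_lit 18519084242235818241) (nat_lit 1)) (.cons (.rf (nat_lit 400) (nat_lit 407901468851537952)) .nil))) .nil)))) (.cons (.br (nat_lit 4) (nat_lit 0) (.cons (.ev (nat_lit 18519084242235818241) (nat_lit 1)) (.cons (.rf (nat_lit 401) (nat_lit 407901468851537952)) (.cons (.br (nat_lit 4) (nat_lit 0) (.cons (.ev (nat_lit 18519084242235818241) (nat_lit 1)) (.cons (.rf (nat_lit 401) (nat_lit 407901468851537952)) .nil))) .nil)))) (.cons (.br (nat_lit 4) (nat_lit 0) (.cons (.rf (nat_lit 402) (nat_lit 407901468851537952)) (.cons (.rf (nat_lit 403) (nat_lit 407901468851537952)) (.cons (.br (nat_lit 4) (nat_lit 0) (.cons (.rf (nat_lit 402) (nat_lit 407901468851537952)) (.cons (.rf (nat_lit 403) (nat_lit 407901468851537952))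 .nil))) .nil)))) .nil)))),
 (.br (nat_lit 4) (nat_lit 0) (.cons (.ev (nat_lit 18519084242235818241) (nat_lit 1)) (.cons (.br (nat_lit 8) (nat_lit 1) (.cons (.rf (nat_lit 393) (nat_lit 443929200718612512)) (.cons (.br (nat_lit 9) (nat_lit 1) (.cons (.ev (nat_lit 4722438540463683207169) (nat_lit 1)) (.cons (.rf (nat_lit 396) (nat_lit 14242958458981812256)) .nil))) .nil))) .nil))),
 (.br (nat_lit 8) (nat_lit 1) (.cons (.rf (nat_lit 393) (nat_lit 443861030996674592)) (.cons (.rf (nat_lit 396) (nat_lit 14242890289259874336)) .nil))),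
 (.br (nat_lit 4) (nat_lit 0) (.cons (.rf (nat_lit 354) (nat_lit 407900334005981248)) (.cons (.br (nat_lit 9) (nat_lit 1) (.cons (.rf (nat_lit 406) (nat_lit 14242959524133701664)) (.cons (.ev (nat_lit 4722438540463683207169) (nat_lit 1)) .nil))) .nil))),
 (.br (nat_lit 3) (nat_lit 0) (.cons (.rf (nat_lit 354) (nat_lit 407832164286106688)) (.cons (.rf (nat_lit 404) (nat_lit 407901468851537952)) (.cons (.br (nat_lit 7) (nat_lit 1) (.cons (.br (nat_lit 4) (nat_lit 0) (.cons (.rf (nat_lit 338) (nat_lit 443928068993713216)) (.cons (.rf (nat_lit 404) (nat_lit 407901468850522144)) (.cons (.kr (nat_lit 16777216) (nat_lit 4294967296) (nat_lit 3) (nat_lit 0)) .nil)))) (.cons (.br (nat_lit 4) (nat_lit 0) (.cons (.ev (nat_lit 18519084242235818241) (nat_lit 1)) (.cons (.rf (nat_lit 405) (nat_lit 14242959524133701664)) (.cons (.br (nat_lit 4) (nat_lit 0) (.cons (.ev (nat_lit 18519084242235818241) (nat_lit 1)) (.cons (.rf (nat_lit 405) (nat_lit 14242959524133701664)) .nil)))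 .nil)))) (.cons (.br (nat_lit 4) (nat_lit 0) (.cons (.br (nat_lit 4) (nat_lit 0) (.cons (.rf (nat_lit 354) (nat_lit 407900334005981248)) (.cons (.rf (nat_lit 332) (nat_lit 14242958392408802368)) .nil))) (.cons (.rf (nat_lit 407) (nat_lit 14242959524133701664)) (.cons (.br (nat_lit 4) (nat_lit 0) (.cons (.rf (nat_lit 332) (nat_lit 14242958392408802368)) (.cons (.rf (nat_lit 407) (nat_lit 14242959524133701664)) .nil))) .nil)))) .nil)))) .nil)))),
 (.br (nat_lit 4) (nat_lit 0) (.cons (.rf (nat_lit 408) (nat_lit 407901468850522144)) (.cons (.br (nat_lit 9) (nat_lit 1) (.cons (.br (nat_lit 7) (nat_lit 1) (.cons (.br (nat_lit 7) (nat_lit 1) (.cons (.ev (nat_lit 1213666705181741055803393) (nat_lit 1)) .nil)) (.cons (.rf (nat_lit 328) (nat_lit 372894117161634880)) .nil))) (.cons (.rf (nat_lit 332) (nat_lit 14242890222688896064)) .nil))) .nil))),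
 (.br (nat_lit 3) (nat_lit 0) (.cons (.rf (nat_lit 354) (nat_lit 407832164286106688)) (.cons (.rf (nat_lit 354) (nat_lit 407900334007028800)) (.cons (.br (nat_lit 4) (nat_lit 0) (.cons (.rf (nat_lit 408) (nat_lit 407901468850522144)) (.cons (.rf (nat_lit 409) (nat_lit 14242959524133701664)) (.cons (.br (nat_lit 4) (nat_lit 0) (.cons (.rf (nat_lit 408) (nat_lit 407901468850522144)) (.cons (.rf (nat_lit 409) (nat_lit 14242959524133701664)) .nil))) .nil)))) .nil)))),
 (.br (nat_lit 7) (nat_lit 1) (.cons (.rf (nat_lit 408) (nat_lit 407901468850522144)) (.cons (.br (nat_lit 4) (nat_lit 0) (.cons (.rf (nat_lit 410) (nat_lit 407901468850522144)) (.cons (.br (nat_lit 4) (nat_lit 0) (.cons (.kr (nat_lit 4722366482869645213952) (nat_lit 1103806595072) (nat_lit 1) (nat_lit 0)) (.cons (.kr (nat_lit 16777216) (nat_lit 4294967296) (nat_lit 3) (nat_lit 0)) .nil))) (.cons (.br (nat_lit 4) (nat_lit 0) (.cons (.rf (nat_lit 410) (nat_lit 407901468850522144)) (.cons (.kr (nat_lit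 16777216) (nat_lit 4294967296) (nat_lit 3) (nat_lit 0)) .nil))) .nil)))) .nil))),
 (.br (nat_lit 3) (nat_lit 0) (.cons (.rf (nat_lit 408) (nat_lit 407901468851537952)) (.cons (.rf (nat_lit 354) (nat_lit 407900334007028800)) (.cons (.br (nat_lit 7) (nat_lit 1) (.cons (.rf (nat_lit 408) (nat_lit 407901468850522144)) (.cons (.rf (nat_lit 411) (nat_lit 14242959524133701664)) (.cons (.br (nat_lit 7) (nat_lit 1) (.cons (.rf (nat_lit 408) (nat_lit 407901468850522144)) (.cons (.rf (nat_lit 411) (nat_lit 14242959524133701664)) .nil))) .nil)))) .nil)))),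
 (.br (nat_lit 3) (nat_lit 0) (.cons (.rf (nat_lit 408) (nat_lit 407901468851537952)) (.cons (.rf (nat_lit 410) (nat_lit 407901468851537952)) (.cons (.rf (nat_lit 412) (nat_lit 407901468851537952)) (.cons (.br (nat_lit 3) (nat_lit 0) (.cons (.rf (nat_lit 408) (nat_lit 407901468851537952)) (.cons (.rf (nat_lit 410) (nat_lit 407901468851537952)) (.cons (.rf (nat_lit 412) (nat_lit 407901468851537952)) .nil)))) .nil))))),
 (.br (nat_lit 11) (nat_lit 0) (.cons (.kr (nat_lit 18446744073709551616) (nat_lit 1208925819614629174706176) (nat_lit 8) (nat_lit 0)) (.cons (.br (nat_lit 11) (nat_lit 0) (.cons (.kr (nat_lit 18446744073709551616) (nat_lit 1208925819614629174706176) (nat_lit 8) (nat_lit 0)) .nil)) .nil))),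
 (.br (nat_lit 4) (nat_lit 0) (.cons (.kr (nat_lit 16777216) (nat_lit 4294967296) (nat_lit 3) (nat_lit 0)) (.cons (.rf (nat_lit 355) (nat_lit 220152678450240)) (.cons (.br (nat_lit 9) (nat_lit 1) (.cons (.br (nat_lit 8) (nat_lit 1) (.cons (.rf (nat_lit 414) (nat_lit 407901468851537952)) (.cons (.br (nat_lit 10) (nat_lit 0) (.cons (.br (nat_lit 11) (nat_lit 0) (.cons (.br (nat_lit 11) (nat_lit 0) .nil) .nil)) .nil)) .nil))) (.cons (.rf (nat_lit 400) (nat_lit 407867383991076896)) .nil))) .nil)))),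
 (.br (nat_lit 11) (nat_lit 0) (.cons (.br (nat_lit 11) (nat_lit 0) .nil) .nil)),
 (.br (nat_lit 9) (nat_lit 1) (.cons (.kr (nat_lit 18446744073726394368) (nat_lit 1108101562368) (nat_lit 2) (nat_lit 0)) (.cons (.rf (nat_lit 416) (nat_lit 407901468851537952)) (.cons (.rf (nat_lit 399) (nat_lit 407832233978726432)) .nil)))),
 (.br (nat_lit 11) (nat_lit 0) (.cons (.br (nat_lit 11) (nat_lit 0) .nil) .nil)),
 (.br (nat_lit 8) (nat_lit 1) (.cons (.ev (nat_lit 4740885566016664371201) (nat_lit 1)) (.cons (.rf (nat_lit 418) (nat_lit 407901468851537952)) (.cons (.rf (nat_lit 328) (nat_lit 372891952530624576)) .nil)))),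
 (.br (nat_lit 9) (nat_lit 1) (.cons (.kr (nat_lit 18446744073726394368) (nat_lit 1108101562368) (nat_lit 2) (nat_lit 0)) (.cons (.br (nat_lit 10) (nat_lit 0) (.cons (.br (nat_lit 11) (nat_lit 0) (.cons (.br (nat_lit 11) (nat_lit 0) .nil) .nil)) .nil)) (.cons (.rf (nat_lit 399) (nat_lit 372926041552946240)) .nil)))),
 (.br (nat_lit 8) (nat_lit 1) (.cons (.kr (nat_lit 18446744073726394368) (nat_lit 1108101562368) (nat_lit 2) (nat_lit 0)) (.cons (.rf (nat_lit 328) (nat_lit 372893017682513984)) (.cons (.rf (nat_lit 358) (nat_lit 372893021843358784)) .nil)))),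
 (.br (nat_lit 4) (nat_lit 0) (.cons (.br (nat_lit 8) (nat_lit 1) (.cons (.rf (nat_lit 353) (nat_lit 12743624478557248)) (.cons (.rf (nat_lit 341) (nat_lit 11652908943803456)) .nil))) (.cons (.br (nat_lit 8) (nat_lit 1) (.cons (.ev (nat_lit 18518801672059224321) (nat_lit 1)) (.cons (.rf (nat_lit 406) (nat_lit 14242890289259874336)) .nil))) .nil))),
 (.br (nat_lit 8) (nat_lit 1) (.cons (.kr (nat_lit 18446744073726394368) (nat_lit 1108101562368) (nat_lit 2) (nat_lit 0)) (.cons (.rf (nat_lit 353) (nat_lit 12743624478557248)) (.cons (.rf (nat_lit 341) (nat_lit 11652908943803456)) .nil)))),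
 (.br (nat_lit 8) (nat_lit 1) (.cons (.rf (nat_lit 406) (nat_lit 14242925439273240608)) (.cons (.ev (nat_lit 18518801672059224321) (nat_lit 1)) .nil))),
 (.br (nat_lit 3) (nat_lit 0) (.cons (.br (nat_lit 7) (nat_lit 1) (.cons (.rf (nat_lit 415) (nat_lit 407901468851537952)) (.cons (.br (nat_lit 4) (nat_lit 0) (.cons (.rf (nat_lit 417) (nat_lit 407901468851537952)) (.cons (.rf (nat_lit 419) (nat_lit 407901468851537952)) (.cons (.br (nat_lit 4) (nat_lit 0) (.cons (.rf (nat_lit 417) (nat_lit 407901468851537952)) (.cons (.rf (nat_lit 419) (nat_lit 407901468851537952)) .nil))) .nil)))) (.cons (.br (nat_lit 4) (nat_lit 0) (.cons (.rf (nat_lit 420) (nat_lit 407901468851537952)) (.cons (.rf (nat_lit 421) (nat_lit 407901468851537952)) (.cons (.br (nat_lit 4) (nat_lit 0) (.cons (.rf (nat_lit 420) (nat_lit 407901468851537952)) (.cons (.rf (nat_lit 421) (nat_lit 407901468851537952)) .nil))) .nil)))) .nil)))) (.cons (.rf (nat_lit 355) (nat_lit 220152679466048)) (.cons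 (.br (nat_lit 7) (nat_lit 1) (.cons (.br (nat_lit 4) (nat_lit 0) (.cons (.rf (nat_lit 415) (nat_lit 407901468850522144)) (.cons (.rf (nat_lit 355) (nat_lit 220152678450240)) (.cons (.kr (nat_lit 16777216) (nat_lit 4294967296) (nat_lit 3) (nat_lit 0)) .nil)))) (.cons (.br (nat_lit 4) (nat_lit 0) (.cons (.rf (nat_lit 422) (nat_lit 14242959524133701664)) (.cons (.br (nat_lit 4) (nat_lit 0) (.cons (.rf (nat_lit 422) (nat_lit 14242959524133701664)) (.cons (.ev (nat_lit 4722438823042483290113) (nat_lit 1)) .nil))) (.cons (.br (nat_lit 4) (nat_lit 0) (.cons (.rf (nat_lit 422) (nat_lit 14242959524133701664)) (.cons (.ev (nat_lit 4722438823042483290113) (nat_lit 1)) .nil))) .nil)))) (.cons (.br (nat_lit 4) (nat_lit 0) (.cons (.br (nat_lit 4) (nat_lit 0) (.cons (.rf (nat_lit 423) (nat_lit 407901468851537952)) (.cons (.rf (nat_lit 424) (nat_lit 14242959524133701664)) .nil))) (.cons (.br (nat_lit 4) (nat_lit 0) (.cons (.rf (nat_lit 423) (nat_lit 407901468851537952))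 (.cons (.rf (nat_lit 332) (nat_lit 14242923209110455360)) .nil))) (.cons (.br (nat_lit 4) (nat_lit 0) (.cons (.rf (nat_lit 424) (nat_lit 14242959524133701664)) (.cons (.rf (nat_lit 332) (nat_lit 14242923209110455360)) .nil))) .nil)))) .nil)))) .nil)))),
 (.br (nat_lit 4) (nat_lit 0) (.cons (.rf (nat_lit 392) (nat_lit 183834533497984)) (.cons (.br (nat_lit 8) (nat_lit 1) (.cons (.ev (nat_lit 1213666705181741055803393) (nat_lit 1)) (.cons (.rf (nat_lit 332) (nat_lit 14242889124249994304)) .nil))) .nil))),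
 (.br (nat_lit 7) (nat_lit 1) (.cons (.rf (nat_lit 425) (nat_lit 407901468850522144)) (.cons (.br (nat_lit 4) (nat_lit 0) (.cons (.br (nat_lit 4) (nat_lit 0) (.cons (.rf (nat_lit 392) (nat_lit 183834533497984)) (.cons (.kr (nat_lit 16777216) (nat_lit 4294967296) (nat_lit 3) (nat_lit 0)) .nil))) (.cons (.rf (nat_lit 426) (nat_lit 14242959524133701664)) (.cons (.br (nat_lit 4) (nat_lit 0) (.cons (.kr (nat_lit 16777216) (nat_lit 4294967296) (nat_lit 3) (nat_lit 0)) (.cons (.rf (nat_lit 426) (nat_lit 14242959524133701664)) .nil))) .nil)))) .nil))),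
 (.br (nat_lit 3) (nat_lit 0) (.cons (.rf (nat_lit 425) (nat_lit 407901468851537952)) (.cons (.br (nat_lit 8) (nat_lit 1) (.cons (.rf (nat_lit 392) (nat_lit 183834533498976)) (.cons (.rf (nat_lit 353) (nat_lit 12743624479573056)) (.cons (.rf (nat_lit 341) (nat_lit 11652908944819264)) .nil)))) (.cons (.br (nat_lit 7) (nat_lit 1) (.cons (.rf (nat_lit 425) (nat_lit 407901468850522144)) (.cons (.rf (nat_lit 427) (nat_lit 14242959524133701664)) (.cons (.br (nat_lit 7) (nat_lit 1) (.cons (.rf (nat_lit 425) (nat_lit 407901468850522144)) (.cons (.rf (nat_lit 427) (nat_lit 14242959524133701664)) .nil))) .nil)))) .nil)))),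
 (.br (nat_lit 4) (nat_lit 0) (.cons (.rf (nat_lit 425) (nat_lit 407901468850522144)) (.cons (.rf (nat_lit 428) (nat_lit 407901468850522144)) (.cons (.br (nat_lit 4) (nat_lit 0) (.cons (.rf (nat_lit 425) (nat_lit 407901468850522144)) (.cons (.rf (nat_lit 428) (nat_lit 407901468850522144)) .nil))) .nil)))),
 (.br (nat_lit 11) (nat_lit 0) (.cons (.kr (nat_lit 18446744073709551616) (nat_lit 1208925819614629174706176) (nat_lit 8) (nat_lit 0)) (.cons (.br (nat_lit 11) (nat_lit 0) (.cons (.kr (nat_lit 18446744073709551616) (nat_lit 1208925819614629174706176) (nat_lit 8) (nat_lit 0)) .nil)) .nil))),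
 (.br (nat_lit 9) (nat_lit 1) (.cons (.rf (nat_lit 430) (nat_lit 407901468851537952)) .nil)),
 (.br (nat_lit 9) (nat_lit 1) (.cons (.br (nat_lit 10) (nat_lit 0) (.cons (.br (nat_lit 11) (nat_lit 0) (.cons (.kr (nat_lit 309485009821345073019748608) (nat_lit 1208925819614629191548928) (nat_lit 1) (nat_lit 0)) .nil)) .nil)) .nil)),
 (.br (nat_lit 9) (nat_lit 1) (.cons (.rf (nat_lit 432) (nat_lit 14242959524133701664)) (.cons (.rf (nat_lit 432) (nat_lit 14208054361491279968)) .nil))),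
 (.br (nat_lit 11) (nat_lit 0) (.cons (.kr (nat_lit 1208925819614629174771712) (nat_lit 309485009821346168236408832) (nat_lit 2) (nat_lit 0)) .nil)),
 (.br (nat_lit 11) (nat_lit 0) (.cons (.rf (nat_lit 434) (nat_lit 407901468851537964)) (.cons (.rf (nat_lit 434) (nat_lit 14242959524133701664)) .nil))),
 (.br (nat_lit 4) (nat_lit 0) (.cons (.br (nat_lit 9) (nat_lit 1) (.cons (.rf (nat_lit 416) (nat_lit 407898137129160800)) (.cons (.rf (nat_lit 399) (nat_lit 407796947699667040)) .nil))) (.cons (.br (nat_lit 9) (nat_lit 1) (.cons (.br (nat_lit 9) (nat_lit 1) (.cons (.rf (nat_lit 435) (nat_lit 14242959524133701664)) .nil)) (.cons (.br (nat_lit 9) (nat_lit 1) (.cons (.rf (nat_lit 435) (nat_lit 14242959524133701664)) .nil)) .nil))) .nil))),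
 (.br (nat_lit 11) (nat_lit 0) (.cons (.br (nat_lit 11) (nat_lit 0) .nil) .nil)),
 (.br (nat_lit 4) (nat_lit 0) (.cons (.rf (nat_lit 436) (nat_lit 14242959524133701664)) (.cons (.br (nat_lit 8) (nat_lit 1) (.cons (.br (nat_lit 9) (nat_lit 1) (.cons (.br (nat_lit 11) (nat_lit 0) (.cons (.br (nat_lit 11) (nat_lit 0) .nil) .nil)) .nil)) (.cons (.br (nat_lit 10) (nat_lit 0) (.cons (.rf (nat_lit 437) (nat_lit 407901468851537952)) (.cons (.ev (nat_lit 1208944338417396450656513) (nat_lit 1)) .nil))) .nil))) .nil))),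
 (.br (nat_lit 4) (nat_lit 0) (.cons (.br (nat_lit 9) (nat_lit 1) (.cons (.rf (nat_lit 399) (nat_lit 407794750823894144)) (.cons (.rf (nat_lit 413) (nat_lit 372856703699422336)) .nil))) (.cons (.rf (nat_lit 433) (nat_lit 14242958458981812256)) .nil))),
 (.br (nat_lit 10) (nat_lit 0) (.cons (.br (nat_lit 10) (nat_lit 0) .nil) .nil)),
 (.br (nat_lit 9) (nat_lit 1) (.cons (.br (nat_lit 10) (nat_lit 0) (.cons (.br (nat_lit 11) (nat_lit 0) (.cons (.kr (nat_lit 309485009821345073019748608) (nat_lit 1208925819614629191548928) (nat_lit 1) (nat_lit 0)) .nil)) .nil)) (.cons (.rf (nat_lit 440) (nat_lit 407901468851537952)) .nil))),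
 (.br (nat_lit 4) (nat_lit 0) (.cons (.rf (nat_lit 439) (nat_lit 14242959524133701664)) (.cons (.br (nat_lit 8) (nat_lit 1) (.cons (.br (nat_lit 9) (nat_lit 1) (.cons (.ev (nat_lit 1208944338417400728846593) (nat_lit 1)) (.cons (.br (nat_lit 10) (nat_lit 0) (.cons (.br (nat_lit 11) (nat_lit 0) (.cons (.ev (nat_lit 310703491342622467624732420) (nat_lit 3)) .nil)) .nil)) .nil))) (.cons (.rf (nat_lit 441) (nat_lit 14242959524133701664)) .nil))) .nil)))]

theorem c10 : chkAll C T R L10 (nat_lit 403) = true := by decide +kernel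

theorem l10 : (nat_lit 403) + L10.length = (nat_lit 443) := by decide +kernel

/-- part of the certificates -/
def L11 : List Prf := [(.br (nat_lit 7) (nat_lit 1) (.cons (.br (nat_lit 4) (nat_lit 0) (.cons (.kr (nat_lit 16777216) (nat_lit 4294967296) (nat_lit 3) (nat_lit 0)) (.cons (.br (nat_lit 9) (nat_lit 1) (.cons (.rf (nat_lit 413) (nat_lit 407795850301967488)) (.cons (.rf (nat_lit 413) (nat_lit 372892953189846144)) .nil))) (.cons (.br (nat_lit 8) (nat_lit 1) (.cons (.br (nat_lit 9) (nat_lit 1) (.cons (.br (nat_lit 9) (nat_lit 1) (.cons (.rf (nat_lit 430) (nat_lit 407901468851537952)) .nil)) (.cons (.rf (nat_lit 431) (nat_lit 14242959524133701664)) .nil))) (.cons (.rf (nat_lit 433) (nat_lit 14242959524133701664)) .nil))) .nil)))) (.cons (.br (nat_lit 4) (nat_lit 0) (.cons (.rf (nat_lit 436) (nat_lit 14242959524133701664)) (.cons (.rf (nat_lit 438) (nat_lit 14242959524133701664)) (.cons (.br (nat_lit 4) (nat_lit 0) (.cons (.rf (nat_lit 436) (nat_lit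 14242959524133701664)) (.cons (.rf (nat_lit 438) (nat_lit 14242959524133701664)) .nil))) .nil)))) (.cons (.br (nat_lit 4) (nat_lit 0) (.cons (.rf (nat_lit 439) (nat_lit 14242959524133701664)) (.cons (.rf (nat_lit 442) (nat_lit 14242959524133701664)) (.cons (.br (nat_lit 4) (nat_lit 0) (.cons (.rf (nat_lit 433) (nat_lit 14242958458981812256)) (.cons (.rf (nat_lit 442) (nat_lit 14242959524133701664)) .nil))) .nil)))) .nil)))),
 (.br (nat_lit 8) (nat_lit 1) (.cons (.kr (nat_lit 18446744073709551616) (nat_lit 1208925819614629174706176) (nat_lit 8) (nat_lit 0)) .nil)),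
 (.br (nat_lit 11) (nat_lit 0) (.cons (.br (nat_lit 11) (nat_lit 0) .nil) .nil)),
 (.br (nat_lit 4) (nat_lit 0) (.cons (.kr (nat_lit 4722366482869645213952) (nat_lit 1103806595072) (nat_lit 1) (nat_lit 0)) (.cons (.br (nat_lit 8) (nat_lit 1) (.cons (.br (nat_lit 9) (nat_lit 1) (.cons (.rf (nat_lit 437) (nat_lit 407867383991076896)) .nil)) (.cons (.br (nat_lit 9) (nat_lit 1) (.cons (.rf (nat_lit 445) (nat_lit 407901468851537952)) (.cons (.br (nat_lit 10) (nat_lit 0) (.cons (.ev (nat_lit 1213648258156196664442881) (nat_lit 1)) .nil)) .nil))) .nil))) .nil))),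
 (.br (nat_lit 8) (nat_lit 1) (.cons (.kr (nat_lit 16777216) (nat_lit 4722366482869645213696) (nat_lit 3) (nat_lit 0)) (.cons (.kr (nat_lit 4722366482869645213952) (nat_lit 1103806595072) (nat_lit 1) (nat_lit 0)) (.cons (.rf (nat_lit 435) (nat_lit 14242925439273240608)) .nil)))),
 (.br (nat_lit 8) (nat_lit 1) (.cons (.kr (nat_lit 16777216) (nat_lit 4722366482869645213696) (nat_lit 3) (nat_lit 0)) (.cons (.kr (nat_lit 4722366482869645213952) (nat_lit 1103806595072) (nat_lit 1) (nat_lit 0)) (.cons (.rf (nat_lit 447) (nat_lit 14242959524133701664)) (.cons (.br (nat_lit 8) (nat_lit 1) (.cons (.kr (nat_lit 16777216) (nat_lit 4722366482869645213696) (nat_lit 3) (nat_lit 0)) (.cons (.kr (nat_lit 4722366482869645213952) (nat_lit 1103806595072) (nat_lit 1) (nat_lit 0)) (.cons (.rf (nat_lit 435) (nat_lit 14242925439273240608)) .nil)))) .nil))))),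
 (.br (nat_lit 4) (nat_lit 0) (.cons (.kr (nat_lit 4722366482869645213952) (nat_lit 1103806595072) (nat_lit 1) (nat_lit 0)) (.cons (.br (nat_lit 9) (nat_lit 1) (.cons (.br (nat_lit 8) (nat_lit 1) (.cons (.ev (nat_lit 1213648258156192386252801) (nat_lit 1)) (.cons (.br (nat_lit 10) (nat_lit 0) (.cons (.br (nat_lit 11) (nat_lit 0) (.cons (.ev (nat_lit 310722307021577668480402180) (nat_lit 3)) .nil)) .nil)) .nil))) (.cons (.rf (nat_lit 441) (nat_lit 14242925439273240608)) .nil))) .nil))),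
 (.br (nat_lit 7) (nat_lit 1) (.cons (.br (nat_lit 4) (nat_lit 0) (.cons (.rf (nat_lit 443) (nat_lit 14242959524132685856)) (.cons (.kr (nat_lit 16777216) (nat_lit 4294967296) (nat_lit 3) (nat_lit 0)) (.cons (.br (nat_lit 9) (nat_lit 1) (.cons (.br (nat_lit 8) (nat_lit 1) (.cons (.br (nat_lit 8) (nat_lit 1) (.cons (.kr (nat_lit 18446744073709551616) (nat_lit 1208925819614629174706176) (nat_lit 8) (nat_lit 0)) .nil)) (.cons (.rf (nat_lit 444) (nat_lit 14242959524133701664)) .nil))) (.cons (.rf (nat_lit 433) (nat_lit 14242925439273240608)) .nil))) .nil)))) (.cons (.br (nat_lit 4) (nat_lit 0) (.cons (.rf (nat_lit 446) (nat_lit 14242959524133701664)) (.cons (.rf (nat_lit 448) (nat_lit 14242959524133701664)) (.cons (.br (nat_lit 4) (nat_lit 0) (.cons (.rf (nat_lit 446) (nat_lit 14242959524133701664)) (.cons (.rf (nat_lit 448) (nat_lit 14242959524133701664)) .nil))) .nil)))) (.cons (.br (nat_lit 4) (nat_lit 0) (.cons (.rf (nat_lit 449) (nat_lit 14242959524133701664))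 (.cons (.br (nat_lit 4) (nat_lit 0) (.cons (.kr (nat_lit 4722366482869645213952) (nat_lit 1103806595072) (nat_lit 1) (nat_lit 0)) (.cons (.rf (nat_lit 433) (nat_lit 14242923308969461792)) .nil))) (.cons (.br (nat_lit 4) (nat_lit 0) (.cons (.rf (nat_lit 449) (nat_lit 14242959524133701664)) (.cons (.rf (nat_lit 433) (nat_lit 14242923308969461792)) .nil))) .nil)))) .nil)))),
 (.br (nat_lit 9) (nat_lit 1) (.cons (.br (nat_lit 11) (nat_lit 0) (.cons (.kr (nat_lit 309485009821345068741558528) (nat_lit 1208925819614633469739008) (nat_lit 1) (nat_lit 0)) .nil)) .nil)),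
 (.br (nat_lit 4) (nat_lit 0) (.cons (.br (nat_lit 8) (nat_lit 1) (.cons (.br (nat_lit 9) (nat_lit 1) (.cons (.rf (nat_lit 437) (nat_lit 407867383991076896)) .nil)) (.cons (.br (nat_lit 9) (nat_lit 1) (.cons (.rf (nat_lit 437) (nat_lit 407901468851537952)) (.cons (.rf (nat_lit 441) (nat_lit 14242890289259874336)) .nil))) .nil))) (.cons (.br (nat_lit 8) (nat_lit 1) (.cons (.ev (nat_lit 18518801672059224321) (nat_lit 1)) (.cons (.br (nat_lit 10) (nat_lit 0) (.cons (.rf (nat_lit 451) (nat_lit 14242959524133701664)) (.cons (.ev (nat_lit 79228162514264619072815628544) (nat_lit 1)) .nil))) .nil))) .nil))),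
 (.br (nat_lit 8) (nat_lit 1) (.cons (.br (nat_lit 8) (nat_lit 1) (.cons (.kr (nat_lit 18446744073726328832) (nat_lit 1208925819614633469673472) (nat_lit 3) (nat_lit 0)) .nil)) (.cons (.br (nat_lit 8) (nat_lit 1) (.cons (.kr (nat_lit 18446744073726328832) (nat_lit 1208925819614633469673472) (nat_lit 3) (nat_lit 0)) .nil)) .nil))),
 (.br (nat_lit 4) (nat_lit 0) (.cons (.br (nat_lit 8) (nat_lit 1) (.cons (.br (nat_lit 10) (nat_lit 0) (.cons (.rf (nat_lit 445) (nat_lit 407900403698632736)) (.cons (.rf (nat_lit 65) (nat_lit 445091418867894304)) .nil))) (.cons (.br (nat_lit 9) (nat_lit 1) (.cons (.br (nat_lit 10) (nat_lit 0) (.cons (.br (nat_lit 11) (nat_lit 0) (.cons (.ev (nat_lit 79229376162450716567357423616) (nat_lit 1)) .nil)) .nil)) (.cons (.rf (nat_lit 440) (nat_lit 407832233977710624)) .nil))) .nil))) (.cons (.br (nat_lit 8) (nat_lit 1) (.cons (.br (nat_lit 10) (nat_lit 0) (.cons (.rf (nat_lit 451) (nat_lit 14242958458980796448)) (.cons (.ev (nat_lit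 79228162514264619072815628544) (nat_lit 1)) .nil))) (.cons (.ev (nat_lit 18518801672059224321) (nat_lit 1)) .nil))) .nil))),
 (.br (nat_lit 8) (nat_lit 1) (.cons (.br (nat_lit 9) (nat_lit 1) (.cons (.kr (nat_lit 18446744073709551616) (nat_lit 1208925819614629174706176) (nat_lit 8) (nat_lit 0)) (.cons (.br (nat_lit 10) (nat_lit 0) (.cons (.kr (nat_lit 310693935640959702194454784) (nat_lit 36893488147435945984) (nat_lit 1) (nat_lit 0)) .nil)) .nil))) .nil)),
 (.br (nat_lit 8) (nat_lit 1) (.cons (.rf (nat_lit 455) (nat_lit 14242959524133701664)) (.cons (.br (nat_lit 8) (nat_lit 1) (.cons (.rf (nat_lit 455) (nat_lit 14242959524133701664)) .nil)) .nil))),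
 (.br (nat_lit 3) (nat_lit 0) (.cons (.rf (nat_lit 443) (nat_lit 14242959524133701664)) (.cons (.rf (nat_lit 450) (nat_lit 14242959524133701664)) (.cons (.br (nat_lit 7) (nat_lit 1) (.cons (.br (nat_lit 4) (nat_lit 0) (.cons (.rf (nat_lit 443) (nat_lit 14242959524132685856)) (.cons (.rf (nat_lit 450) (nat_lit 14242959524132685856)) (.cons (.kr (nat_lit 16777216) (nat_lit 4294967296) (nat_lit 3) (nat_lit 0)) .nil)))) (.cons (.br (nat_lit 4) (nat_lit 0) (.cons (.rf (nat_lit 452) (nat_lit 14242959524133701664)) (.cons (.br (nat_lit 4) (nat_lit 0) (.cons (.rf (nat_lit 452) (nat_lit 14242959524133701664)) (.cons (.rf (nat_lit 453) (nat_lit 14242959524133701664)) .nil))) (.cons (.br (nat_lit 4) (nat_lit 0) (.cons (.rf (nat_lit 452) (nat_lit 14242959524133701664)) (.cons (.rf (nat_lit 453) (nat_lit 14242959524133701664)) .nil))) .nil)))) (.cons (.br (nat_lit 4) (nat_lit 0) (.cons (.rf (nat_lit 454) (nat_lit 14242959524133701664)) (.cons (.br (nat_lit 4) (nat_lit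 0) (.cons (.rf (nat_lit 454) (nat_lit 14242959524133701664)) (.cons (.rf (nat_lit 456) (nat_lit 14242959524133701664)) .nil))) (.cons (.br (nat_lit 4) (nat_lit 0) (.cons (.rf (nat_lit 454) (nat_lit 14242959524133701664)) (.cons (.rf (nat_lit 456) (nat_lit 14242959524133701664)) .nil))) .nil)))) .nil)))) .nil)))),
 (.br (nat_lit 9) (nat_lit 1) (.cons (.rf (nat_lit 457) (nat_lit 14242817656093708384)) (.cons (.rf (nat_lit 457) (nat_lit 14207914758981587040)) .nil))),
 (.br (nat_lit 7) (nat_lit 1) (.cons (.rf (nat_lit 457) (nat_lit 14242959524132685856)) (.cons (.br (nat_lit 4) (nat_lit 0) (.cons (.br (nat_lit 4) (nat_lit 0) (.cons (.kr (nat_lit 4722366482869645213952) (nat_lit 1103806595072) (nat_lit 1) (nat_lit 0)) (.cons (.rf (nat_lit 458) (nat_lit 14242959524133701664)) .nil))) (.cons (.kr (nat_lit 4722366482869645213952) (nat_lit 1099528404992) (nat_lit 1) (nat_lit 0)) (.cons (.br (nat_lit 4) (nat_lit 0) (.cons (.rf (nat_lit 458) (nat_lit 14242959524133701664))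 (.cons (.kr (nat_lit 4722366482869645213952) (nat_lit 1099528404992) (nat_lit 1) (nat_lit 0)) .nil))) .nil)))) .nil))),
 (.br (nat_lit 7) (nat_lit 1) (.cons (.rf (nat_lit 457) (nat_lit 14242959524132685856)) (.cons (.rf (nat_lit 459) (nat_lit 14242959524133701664)) (.cons (.br (nat_lit 7) (nat_lit 1) (.cons (.rf (nat_lit 457) (nat_lit 14242959524132685856)) (.cons (.rf (nat_lit 459) (nat_lit 14242959524133701664)) .nil))) .nil)))),
 (.br (nat_lit 8) (nat_lit 1) (.cons (.br (nat_lit 9) (nat_lit 1) (.cons (.kr (nat_lit 309485009821345068741558528) (nat_lit 1208925819614633469739008) (nat_lit 1) (nat_lit 0)) .nil)) (.cons (.br (nat_lit 9) (nat_lit 1) (.cons (.kr (nat_lit 309485009821345073019748608) (nat_lit 1208925819614629191548928) (nat_lit 1) (nat_lit 0)) .nil)) .nil))),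
 (.br (nat_lit 12) (nat_lit 1) (.cons (.ev (nat_lit 79228162514264619068537438464) (nat_lit 1)) (.cons (.rf (nat_lit 461) (nat_lit 14242959524133701664)) .nil))),
 (.br (nat_lit 7) (nat_lit 1) (.cons (.rf (nat_lit 457) (nat_lit 14242959524132685856)) (.cons (.br (nat_lit 4) (nat_lit 0) (.cons (.br (nat_lit 4) (nat_lit 0) (.cons (.rf (nat_lit 460) (nat_lit 14242959524132685856)) (.cons (.kr (nat_lit 16777216) (nat_lit 4294967296) (nat_lit 3) (nat_lit 0)) .nil))) (.cons (.br (nat_lit 4) (nat_lit 0) (.cons (.rf (nat_lit 460) (nat_lit 14242959524132685856)) (.cons (.rf (nat_lit 462) (nat_lit 14242959524133701664)) .nil))) (.cons (.br (nat_lit 4) (nat_lit 0) (.cons (.kr (nat_lit 16777216) (nat_lit 4294967296) (nat_lit 3) (nat_lit 0)) (.cons (.rf (nat_lit 462) (nat_lit 14242959524133701664)) .nil))) .nil)))) .nil))),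
 (.br (nat_lit 3) (nat_lit 0) (.cons (.rf (nat_lit 457) (nat_lit 14242959524133701664)) (.cons (.rf (nat_lit 460) (nat_lit 14242959524133701664)) (.cons (.br (nat_lit 7) (nat_lit 1) (.cons (.rf (nat_lit 457) (nat_lit 14242959524132685856)) (.cons (.rf (nat_lit 463) (nat_lit 14242959524133701664)) (.cons (.br (nat_lit 7) (nat_lit 1) (.cons (.rf (nat_lit 457) (nat_lit 14242959524132685856)) (.cons (.rf (nat_lit 463) (nat_lit 14242959524133701664)) .nil))) .nil)))) .nil)))),
 (.br (nat_lit 7) (nat_lit 1) (.cons (.rf (nat_lit 457) (nat_lit 14242959524132685856)) (.cons (.br (nat_lit 4) (nat_lit 0) (.cons (.rf (nat_lit 464) (nat_lit 14242959524132685856)) (.cons (.br (nat_lit 4) (nat_lit 0) (.cons (.kr (nat_lit 4722366482869645213952) (nat_lit 1103806595072) (nat_lit 1) (nat_lit 0)) (.cons (.kr (nat_lit 16777216) (nat_lit 4294967296) (nat_lit 3) (nat_lit 0)) .nil))) (.cons (.br (nat_lit 4) (nat_lit 0) (.cons (.rf (nat_lit 464) (nat_lit 14242959524132685856))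 (.cons (.kr (nat_lit 16777216) (nat_lit 4294967296) (nat_lit 3) (nat_lit 0)) .nil))) .nil)))) .nil))),
 (.br (nat_lit 3) (nat_lit 0) (.cons (.rf (nat_lit 457) (nat_lit 14242959524133701664)) (.cons (.rf (nat_lit 464) (nat_lit 14242959524133701664)) (.cons (.br (nat_lit 7) (nat_lit 1) (.cons (.rf (nat_lit 457) (nat_lit 14242959524132685856)) (.cons (.rf (nat_lit 465) (nat_lit 14242959524133701664)) (.cons (.br (nat_lit 7) (nat_lit 1) (.cons (.rf (nat_lit 457) (nat_lit 14242959524132685856)) (.cons (.rf (nat_lit 465) (nat_lit 14242959524133701664)) .nil))) .nil)))) .nil)))),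
 (.br (nat_lit 6) (nat_lit 1) (.cons (.kr (nat_lit 256) (nat_lit 65536) (nat_lit 1) (nat_lit 0)) (.cons (.rf (nat_lit 392) (nat_lit 325702574508064)) (.cons (.rf (nat_lit 392) (nat_lit 325702573492256)) (.cons (.br (nat_lit 10) (nat_lit 1) (.cons (.br (nat_lit 2) (nat_lit 0) (.cons (.br (nat_lit 7) (nat_lit 1) (.cons (.rf (nat_lit 392) (nat_lit 291584428049472)) (.cons (.rf (nat_lit 392) (nat_lit 291584427033664)) (.cons (.br (nat_lit 3) (nat_lit 0) (.cons (.rf (nat_lit 395) (nat_lit 407901468851537952)) (.cons (.rf (nat_lit 395) (nat_lit 407867350705079360)) (.cons (.br (nat_lit 3) (nat_lit 0) (.cons (.rf (nat_lit 395) (nat_lit 407901468851537952)) (.cons (.rf (nat_lit 395) (nat_lit 407867350705079360)) .nil))) .nil)))) (.cons (.br (nat_lit 3) (nat_lit 0) (.cons (.rf (nat_lit 398) (nat_lit 407901468851537952)) (.cons (.rf (nat_lit 398) (nat_lit 372964453592958016)) (.cons (.br (nat_lit 3) (nat_lit 0) (.cons (.rf (nat_lit 398) (nat_lit 407901468851537952))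 (.cons (.rf (nat_lit 398) (nat_lit 372964453592958016)) .nil))) .nil)))) .nil))))) (.cons (.rf (nat_lit 413) (nat_lit 407901468851537952)) (.cons (.br (nat_lit 3) (nat_lit 0) (.cons (.rf (nat_lit 425) (nat_lit 407901468851537952)) (.cons (.rf (nat_lit 428) (nat_lit 407901468851537952)) (.cons (.rf (nat_lit 429) (nat_lit 407901468851537952)) (.cons (.br (nat_lit 3) (nat_lit 0) (.cons (.rf (nat_lit 425) (nat_lit 407901468851537952)) (.cons (.rf (nat_lit 428) (nat_lit 407901468851537952)) (.cons (.rf (nat_lit 429) (nat_lit 407901468851537952)) .nil)))) .nil))))) (.cons (.br (nat_lit 3) (nat_lit 0) (.cons (.rf (nat_lit 457) (nat_lit 14242959524133701664)) (.cons (.rf (nat_lit 464) (nat_lit 14242959524133701664)) (.cons (.rf (nat_lit 466) (nat_lit 14242959524133701664)) (.cons (.br (nat_lit 3) (nat_lit 0) (.cons (.rf (nat_lit 457) (nat_lit 14242959524133701664)) (.cons (.rf (nat_lit 464) (nat_lit 14242959524133701664)) (.cons (.rf (nat_lit 466) (nat_lit 14242959524133701664))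 .nil)))) .nil))))) .nil))))) .nil)) .nil))))),
 (.br (nat_lit 9) (nat_lit 1) (.cons (.rf (nat_lit 337) (nat_lit 407831068967830592)) (.cons (.ev (nat_lit 4740813226943371542529) (nat_lit 1)) (.cons (.rf (nat_lit 400) (nat_lit 407832167406733344)) .nil)))),
 (.br (nat_lit 8) (nat_lit 1) (.cons (.rf (nat_lit 467) (nat_lit 256366801358944)) (.cons (.rf (nat_lit 467) (nat_lit 256366801357952)) (.cons (.br (nat_lit 10) (nat_lit 1) (.cons (.br (nat_lit 3) (nat_lit 0) (.cons (.rf (nat_lit 468) (nat_lit 407901468851537952)) (.cons (.rf (nat_lit 352) (nat_lit 407865153829307456)) (.cons (.br (nat_lit 4) (nat_lit 0) (.cons (.rf (nat_lit 468) (nat_lit 407901468850522144)) (.cons (.rf (nat_lit 338) (nat_lit 443859865986794560)) (.cons (.kr (nat_lit 16777216) (nat_lit 4294967296) (nat_lit 3) (nat_lit 0)) .nil)))) .nil)))) .nil)) .nil)))),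
 (.br (nat_lit 9) (nat_lit 1) (.cons (.ev (nat_lit 4740813226943371542529) (nat_lit 1)) (.cons (.rf (nat_lit 418) (nat_lit 407865153829307456)) (.cons (.rf (nat_lit 358) (nat_lit 407900337126639648)) .nil)))),
 (.br (nat_lit 4) (nat_lit 0) (.cons (.ev (nat_lit 4740813226943371542529) (nat_lit 1)) (.cons (.rf (nat_lit 359) (nat_lit 14242958392408803360)) .nil))),
 (.br (nat_lit 4) (nat_lit 0) (.cons (.rf (nat_lit 359) (nat_lit 14242958392408803360)) (.cons (.rf (nat_lit 359) (nat_lit 14242923209110455360)) .nil))),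
 (.br (nat_lit 8) (nat_lit 1) (.cons (.zr (nat_lit 4740813226943354766080) (nat_lit 1099511758849) (nat_lit 5) (nat_lit 8)) (.cons (.rf (nat_lit 353) (nat_lit 12745754783351872)) (.cons (.rf (nat_lit 341) (nat_lit 12745754783351872)) .nil)))),
 (.br (nat_lit 7) (nat_lit 1) (.cons (.br (nat_lit 4) (nat_lit 0) (.cons (.rf (nat_lit 473) (nat_lit 407867350704063552)) (.cons (.rf (nat_lit 354) (nat_lit 407864088676402240)) (.cons (.br (nat_lit 8) (nat_lit 1) (.cons (.br (nat_lit 9) (nat_lit 1) (.cons (.ev (nat_lit 1213666705181741055803393) (nat_lit 1)) .nil)) (.cons (.br (nat_lit 9) (nat_lit 1) (.cons (.ev (nat_lit 1213666705181741055738113) (nat_lit 1)) (.cons (.br (nat_lit 10) (nat_lit 0) (.cons (.br (nat_lit 11) (nat_lit 0) (.cons (.ev (nat_lit 79537647524158021735595114496) (nat_lit 1)) .nil)) .nil)) .nil))) .nil))) .nil)))) (.cons (.br (nat_lit 4) (nat_lit 0) (.cons (.rf (nat_lit 473) (nat_lit 372964453591942208)) (.cons (.rf (nat_lit 354) (nat_lit 372961191564280896))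 (.cons (.br (nat_lit 8) (nat_lit 1) (.cons (.rf (nat_lit 406) (nat_lit 14242855072675530784)) (.cons (.rf (nat_lit 406) (nat_lit 14207987325576775712)) .nil))) .nil)))) .nil)))]

theorem c11 : chkAll C T R L11 (nat_lit 443) = true := by decide +kernel

theorem l11 : (nat_lit 443) + L11.length = (nat_lit 475) := by decide +kernel

/-- part of the certificates -/
def L12 : List Prf := [(.br (nat_lit 4) (nat_lit 0) (.cons (.rf (nat_lit 365) (nat_lit 12746887579961376)) (.cons (.br (nat_lit 9) (nat_lit 1) (.cons (.ev (nat_lit 1213666705181741055738113) (nat_lit 1)) (.cons (.rf (nat_lit 332) (nat_lit 14207984130120091680)) .nil))) .nil))),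
 (.br (nat_lit 4) (nat_lit 0) (.cons (.rf (nat_lit 365) (nat_lit 12746887579961376)) (.cons (.br (nat_lit 8) (nat_lit 1) (.cons (.ev (nat_lit 1213666705181741055803393) (nat_lit 1)) (.cons (.rf (nat_lit 332) (nat_lit 14207984096834094144)) .nil))) .nil))),
 (.br (nat_lit 7) (nat_lit 1) (.cons (.rf (nat_lit 474) (nat_lit 14242959524133701664)) (.cons (.br (nat_lit 4) (nat_lit 0) (.cons (.rf (nat_lit 475) (nat_lit 14242959524133701664)) (.cons (.rf (nat_lit 476) (nat_lit 14242959524133701664)) (.cons (.br (nat_lit 4) (nat_lit 0) (.cons (.rf (nat_lit 475) (nat_lit 14242959524133701664)) (.cons (.rf (nat_lit 476) (nat_lit 14242959524133701664)) .nil))) .nil)))) .nil))),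
 (.br (nat_lit 6) (nat_lit 1) (.cons (.rf (nat_lit 469) (nat_lit 325702574508064)) (.cons (.br (nat_lit 10) (nat_lit 1) (.cons (.br (nat_lit 3) (nat_lit 0) (.cons (.br (nat_lit 7) (nat_lit 1) (.cons (.rf (nat_lit 469) (nat_lit 291584428049472)) (.cons (.br (nat_lit 4) (nat_lit 0) (.cons (.rf (nat_lit 470) (nat_lit 407901468851537952)) (.cons (.rf (nat_lit 470) (nat_lit 407867350705079360)) (.cons (.br (nat_lit 4) (nat_lit 0) (.cons (.rf (nat_lit 470) (nat_lit 407901468851537952)) (.cons (.rf (nat_lit 470) (nat_lit 407867350705079360)) .nil))) .nil)))) (.cons (.br (nat_lit 4) (nat_lit 0) (.cons (.rf (nat_lit 471) (nat_lit 407901468851537952)) (.cons (.rf (nat_lit 471) (nat_lit 372964453592958016)) (.cons (.rf (nat_lit 472) (nat_lit 14242959524133701664)) .nil)))) .nil)))) (.cons (.rf (nat_lit 354) (nat_lit 407900337127655456)) (.cons (.rf (nat_lit 473) (nat_lit 407901468851537952)) (.cons (.br (nat_lit 7) (nat_lit 1) (.cons (.rf (nat_lit 474) (nat_lit 14242959524133701664))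 (.cons (.rf (nat_lit 477) (nat_lit 14242959524133701664)) (.cons (.br (nat_lit 7) (nat_lit 1) (.cons (.rf (nat_lit 474) (nat_lit 14242959524133701664)) (.cons (.rf (nat_lit 477) (nat_lit 14242959524133701664)) .nil))) .nil)))) .nil))))) .nil)) .nil))),
 (.br (nat_lit 3) (nat_lit 0) (.cons (.ev (nat_lit 4740885566012386181121) (nat_lit 1)) (.cons (.br (nat_lit 4) (nat_lit 0) (.cons (.zr (nat_lit 4740813226943354766080) (nat_lit 1099511758849) (nat_lit 5) (nat_lit 8)) (.cons (.br (nat_lit 4) (nat_lit 0) (.cons (.zr (nat_lit 4740813226943388320000) (nat_lit 1108101562369) (nat_lit 5) (nat_lit 8)) .nil)) .nil))) .nil))),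
 (.br (nat_lit 7) (nat_lit 1) (.cons (.rf (nat_lit 478) (nat_lit 291584428049472)) (.cons (.rf (nat_lit 478) (nat_lit 291584427033664)) (.cons (.br (nat_lit 3) (nat_lit 0) (.cons (.rf (nat_lit 479) (nat_lit 407901468851537952)) (.cons (.rf (nat_lit 479) (nat_lit 407867350705079360)) (.cons (.br (nat_lit 3) (nat_lit 0) (.cons (.rf (nat_lit 479) (nat_lit 407901468851537952)) (.cons (.rf (nat_lit 479) (nat_lit 407867350705079360)) .nil))) .nil)))) .nil)))),
 (.br (nat_lit 6) (nat_lit 1) (.cons (.rf (nat_lit 478) (nat_lit 325702574508064)) (.cons (.rf (nat_lit 478) (nat_lit 325702573492256)) (.cons (.br (nat_lit 6) (nat_lit 1) (.cons (.rf (nat_lit 478) (nat_lit 325702574508064)) (.cons (.rf (nat_lit 478) (nat_lit 325702573492256)) (.cons (.br (nat_lit 7) (nat_lit 1) (.cons (.rf (nat_lit 478) (nat_lit 291584428049472)) (.cons (.rf (nat_lit 478) (nat_lit 291584427033664)) (.cons (.rf (nat_lit 480) (nat_lit 407901468851537952)) (.cons (.rf (nat_lit 480) (nat_lit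 372998571739416608)) .nil))))) .nil)))) .nil)))),
 (.br (nat_lit 7) (nat_lit 1) (.cons (.br (nat_lit 9) (nat_lit 1) (.cons (.br (nat_lit 9) (nat_lit 1) (.cons (.kr (nat_lit 4722366482869645213696) (nat_lit 309485009821345068724781056) (nat_lit 9) (nat_lit 0)) .nil)) (.cons (.rf (nat_lit 444) (nat_lit 11974201910401009696)) .nil))) (.cons (.rf (nat_lit 433) (nat_lit 11974270080121931808)) .nil))),
 (.br (nat_lit 9) (nat_lit 1) (.cons (.br (nat_lit 7) (nat_lit 1) (.cons (.br (nat_lit 7) (nat_lit 1) (.cons (.rf (nat_lit 430) (nat_lit 444986864332539936)) .nil)) (.cons (.rf (nat_lit 431) (nat_lit 11974201910401009696)) .nil))) (.cons (.rf (nat_lit 433) (nat_lit 11974201910401009696)) .nil))),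
 (.br (nat_lit 8) (nat_lit 1) (.cons (.rf (nat_lit 467) (nat_lit 256366801358944)) (.cons (.rf (nat_lit 467) (nat_lit 256366801357952)) (.cons (.br (nat_lit 11) (nat_lit 1) (.cons (.br (nat_lit 3) (nat_lit 0) (.cons (.br (nat_lit 4) (nat_lit 0) (.cons (.kr (nat_lit 16777216) (nat_lit 4294967296) (nat_lit 3) (nat_lit 0)) (.cons (.rf (nat_lit 481) (nat_lit 324636380270688)) (.cons (.rf (nat_lit 482) (nat_lit 14242959524133701664)) .nil)))) (.cons (.br (nat_lit 4) (nat_lit 0) (.cons (.rf (nat_lit 481) (nat_lit 256366801358944)) (.cons (.kr (nat_lit 16777216) (nat_lit 4294967296) (nat_lit 3) (nat_lit 0)) (.cons (.rf (nat_lit 483) (nat_lit 14242959524133701664)) .nil)))) (.cons (.br (nat_lit 4) (nat_lit 0) (.cons (.rf (nat_lit 482) (nat_lit 14242959524132685856)) (.cons (.rf (nat_lit 483) (nat_lit 14242959524132685856)) (.cons (.kr (nat_lit 16777216) (nat_lit 4294967296) (nat_lit 3) (nat_lit 0)) .nil)))) .nil)))) .nil)) .nil)))),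
 (.br (nat_lit 10) (nat_lit 0) (.cons (.rf (nat_lit 358) (nat_lit 370816008945010720)) (.cons (.br (nat_lit 10) (nat_lit 0) (.cons (.rf (nat_lit 358) (nat_lit 370851193317099552)) .nil)) .nil))),
 (.br (nat_lit 9) (nat_lit 1) (.cons (.rf (nat_lit 445) (nat_lit 444986864332539936)) .nil)),
 (.br (nat_lit 4) (nat_lit 0) (.cons (.rf (nat_lit 485) (nat_lit 13906870200797216)) (.cons (.br (nat_lit 8) (nat_lit 1) (.cons (.rf (nat_lit 486) (nat_lit 407901468851537952)) (.cons (.rf (nat_lit 441) (nat_lit 11939367183009810464)) .nil))) .nil))),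
 (.br (nat_lit 4) (nat_lit 0) (.cons (.rf (nat_lit 485) (nat_lit 12745785921865760)) (.cons (.br (nat_lit 4) (nat_lit 0) (.cons (.rf (nat_lit 485) (nat_lit 12745785921865760)) (.cons (.rf (nat_lit 487) (nat_lit 13052988875717314592)) .nil))) (.cons (.rf (nat_lit 487) (nat_lit 13052988875717314592)) .nil)))),
 (.br (nat_lit 12) (nat_lit 0) (.cons (.kr (nat_lit 4722366482869645213696) (nat_lit 79228162514264337593543950336) (nat_lit 9) (nat_lit 0)) (.cons (.kr (nat_lit 79228162514264337593543950592) (nat_lit 4722366482869645279232) (nat_lit 1) (nat_lit 0)) .nil))),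
 (.br (nat_lit 4) (nat_lit 0) (.cons (.rf (nat_lit 472) (nat_lit 11974267913409499168)) (.cons (.br (nat_lit 9) (nat_lit 1) (.cons (.br (nat_lit 9) (nat_lit 1) (.cons (.rf (nat_lit 489) (nat_lit 14242959524133701664)) .nil)) (.cons (.br (nat_lit 9) (nat_lit 1) (.cons (.rf (nat_lit 489) (nat_lit 14242959524133701664)) .nil)) .nil))) .nil))),
 (.br (nat_lit 4) (nat_lit 0) (.cons (.rf (nat_lit 472) (nat_lit 11974267913409499168)) (.cons (.br (nat_lit 9) (nat_lit 1) (.cons (.ev (nat_lit 4722366764348933734401) (nat_lit 1)) (.cons (.ev (nat_lit 4722438540463683141889) (nat_lit 1)) .nil))) .nil))),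
 (.br (nat_lit 4) (nat_lit 0) (.cons (.br (nat_lit 7) (nat_lit 1) (.cons (.rf (nat_lit 369) (nat_lit 407900337127655456)) (.cons (.br (nat_lit 9) (nat_lit 1) (.cons (.ev (nat_lit 4722366764348933669121) (nat_lit 1)) (.cons (.rf (nat_lit 485) (nat_lit 12816224458246176)) .nil))) .nil))) (.cons (.br (nat_lit 7) (nat_lit 1) (.cons (.br (nat_lit 9) (nat_lit 1) (.cons (.br (nat_lit 9) (nat_lit 1) (.cons (.rf (nat_lit 328) (nat_lit 410046686904289312)) .nil)) (.cons (.rf (nat_lit 328) (nat_lit 410046686904289312)) .nil))) (.cons (.rf (nat_lit 371) (nat_lit 14242958392409819168)) .nil))) .nil))),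
 (.br (nat_lit 7) (nat_lit 1) (.cons (.br (nat_lit 7) (nat_lit 1) (.cons (.rf (nat_lit 382) (nat_lit 445089153273661472)) .nil)) (.cons (.rf (nat_lit 380) (nat_lit 14242957327257929760)) .nil))),
 (.br (nat_lit 4) (nat_lit 0) (.cons (.rf (nat_lit 472) (nat_lit 11974197613384798240)) (.cons (.br (nat_lit 7) (nat_lit 1) (.cons (.br (nat_lit 8) (nat_lit 1) (.cons (.rf (nat_lit 437) (nat_lit 444986864332539936)) (.cons (.br (nat_lit 11) (nat_lit 0) (.cons (.br (nat_lit 10) (nat_lit 1) (.cons (.ev (nat_lit 1208944338417396433879296) (nat_lit 1)) .nil)) .nil)) .nil))) (.cons (.ev (nat_lit 4722438540463683141889) (nat_lit 1)) .nil))) .nil))),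
 (.br (nat_lit 7) (nat_lit 1) (.cons (.br (nat_lit 11) (nat_lit 0) (.cons (.br (nat_lit 10) (nat_lit 1) (.cons (.ev (nat_lit 1208944338417396433879296) (nat_lit 1)) .nil)) .nil)) .nil)),
 (.br (nat_lit 4) (nat_lit 0) (.cons (.rf (nat_lit 472) (nat_lit 11974197613384798240)) (.cons (.br (nat_lit 7) (nat_lit 1) (.cons (.rf (nat_lit 495) (nat_lit 14242959524133701664)) (.cons (.br (nat_lit 7) (nat_lit 1) (.cons (.rf (nat_lit 495) (nat_lit 14242959524133701664)) .nil)) .nil))) .nil))),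
 (.br (nat_lit 10) (nat_lit 1) (.cons (.ev (nat_lit 1208944266641281684340736) (nat_lit 1)) .nil)),
 (.br (nat_lit 8) (nat_lit 1) (.cons (.rf (nat_lit 437) (nat_lit 444986864332539936)) (.cons (.br (nat_lit 11) (nat_lit 0) (.cons (.rf (nat_lit 497) (nat_lit 14242959524133701664)) .nil)) .nil))),
 (.br (nat_lit 8) (nat_lit 1) (.cons (.rf (nat_lit 453) (nat_lit 11974201910401009696)) (.cons (.rf (nat_lit 456) (nat_lit 11939299013288888352)) .nil))),
 (.br (nat_lit 7) (nat_lit 1) (.cons (.br (nat_lit 4) (nat_lit 0) (.cons (.rf (nat_lit 493) (nat_lit 14242854040809637920)) (.cons (.br (nat_lit 9) (nat_lit 1) (.cons (.ev (nat_lit 4722366764348933734401) (nat_lit 1)) (.cons (.rf (nat_lit 498) (nat_lit 14242959524133701664)) .nil))) (.cons (.rf (nat_lit 499) (nat_lit 14242959524133701664)) .nil)))) (.cons (.br (nat_lit 4) (nat_lit 0) (.cons (.rf (nat_lit 493) (nat_lit 13125961333221754912)) (.cons (.br (nat_lit 9) (nat_lit 1) (.cons (.ev (nat_lit 4722366764348933734401)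 (nat_lit 1)) (.cons (.rf (nat_lit 488) (nat_lit 410188522829514784)) .nil))) (.cons (.rf (nat_lit 499) (nat_lit 14242959524133701664)) .nil)))) .nil))),
 (.br (nat_lit 4) (nat_lit 0) (.cons (.kr (nat_lit 16777472) (nat_lit 4295032832) (nat_lit 1) (nat_lit 0)) (.cons (.rf (nat_lit 382) (nat_lit 445092451807528992)) (.cons (.rf (nat_lit 390) (nat_lit 14242855072675530784)) .nil)))),
 (.br (nat_lit 9) (nat_lit 1) (.cons (.rf (nat_lit 451) (nat_lit 11974201910401009696)) .nil)),
 (.br (nat_lit 10) (nat_lit 1) (.cons (.rf (nat_lit 461) (nat_lit 11939366117857921056)) (.cons (.ev (nat_lit 79229371458602753890482978816) (nat_lit 1)) .nil))),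
 (.br (nat_lit 8) (nat_lit 1) (.cons (.rf (nat_lit 503) (nat_lit 13126066816545818656)) (.cons (.rf (nat_lit 503) (nat_lit 14242959524133701664)) .nil))),
 (.br (nat_lit 7) (nat_lit 1) (.cons (.rf (nat_lit 500) (nat_lit 14242959524133701664)) (.cons (.br (nat_lit 4) (nat_lit 0) (.cons (.rf (nat_lit 501) (nat_lit 14242959524133701664)) (.cons (.br (nat_lit 4) (nat_lit 0) (.cons (.rf (nat_lit 382) (nat_lit 445092451807528992)) (.cons (.rf (nat_lit 504) (nat_lit 14242959524133701664)) .nil))) (.cons (.br (nat_lit 4) (nat_lit 0) (.cons (.rf (nat_lit 390) (nat_lit 14242855072675530784)) (.cons (.rf (nat_lit 504) (nat_lit 14242959524133701664)) .nil))) .nil)))) .nil))),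
 (.br (nat_lit 6) (nat_lit 1) (.cons (.rf (nat_lit 484) (nat_lit 11584701642934304)) (.cons (.br (nat_lit 11) (nat_lit 1) (.cons (.br (nat_lit 3) (nat_lit 0) (.cons (.br (nat_lit 7) (nat_lit 1) (.cons (.br (nat_lit 4) (nat_lit 0) (.cons (.rf (nat_lit 481) (nat_lit 288386889846880)) (.cons (.rf (nat_lit 467) (nat_lit 220084024937600)) (.cons (.rf (nat_lit 484) (nat_lit 11547385958273120)) .nil)))) (.cons (.rf (nat_lit 488) (nat_lit 445091350149433376)) (.cons (.br (nat_lit 4) (nat_lit 0) (.cons (.rf (nat_lit 490) (nat_lit 14242959524133701664)) (.cons (.rf (nat_lit 491) (nat_lit 14242959524133701664)) (.cons (.br (nat_lit 4) (nat_lit 0) (.cons (.rf (nat_lit 490) (nat_lit 14242959524133701664)) (.cons (.rf (nat_lit 491) (nat_lit 14242959524133701664)) .nil))) .nil)))) .nil)))) (.cons (.br (nat_lit 4) (nat_lit 0) (.cons (.rf (nat_lit 492) (nat_lit 14242959524133701664)) (.cons (.br (nat_lit 4) (nat_lit 0) (.cons (.rf (nat_lit 492) (nat_lit 14242959524133701664))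 (.cons (.rf (nat_lit 493) (nat_lit 14242959524133701664)) .nil))) (.cons (.br (nat_lit 4) (nat_lit 0) (.cons (.rf (nat_lit 493) (nat_lit 14242889224109000736)) (.cons (.rf (nat_lit 493) (nat_lit 14242959524133701664)) .nil))) .nil)))) (.cons (.br (nat_lit 9) (nat_lit 1) (.cons (.br (nat_lit 4) (nat_lit 0) (.cons (.rf (nat_lit 467) (nat_lit 216886488894592)) (.cons (.kr (nat_lit 4722366482869661991168) (nat_lit 1108101562368) (nat_lit 1) (nat_lit 0)) (.cons (.kr (nat_lit 1108101562624) (nat_lit 4722366482869662121984) (nat_lit 1) (nat_lit 0)) .nil)))) (.cons (.rf (nat_lit 488) (nat_lit 445091418868910112)) (.cons (.br (nat_lit 4) (nat_lit 0) (.cons (.rf (nat_lit 494) (nat_lit 14242959524133701664)) (.cons (.rf (nat_lit 496) (nat_lit 14242959524133701664)) (.cons (.br (nat_lit 4) (nat_lit 0) (.cons (.rf (nat_lit 494) (nat_lit 14242959524133701664)) (.cons (.rf (nat_lit 496) (nat_lit 14242959524133701664)) .nil))) .nil)))) .nil)))) (.cons (.br (nat_lit 7) (nat_lit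 1) (.cons (.rf (nat_lit 500) (nat_lit 14242959524133701664)) (.cons (.rf (nat_lit 505) (nat_lit 14242959524133701664)) (.cons (.br (nat_lit 7) (nat_lit 1) (.cons (.rf (nat_lit 500) (nat_lit 14242959524133701664)) (.cons (.rf (nat_lit 505) (nat_lit 14242959524133701664)) .nil))) .nil)))) .nil))))) .nil)) .nil))),
 (.br (nat_lit 9) (nat_lit 1) (.cons (.rf (nat_lit 467) (nat_lit 216886488895584)) (.cons (.rf (nat_lit 488) (nat_lit 445091419942651936)) (.cons (.br (nat_lit 12) (nat_lit 0) (.cons (.ev (nat_lit 79228167236702879156755496961) (nat_lit 1)) (.cons (.ev (nat_lit 79228167236702879156755562753) (nat_lit 1)) .nil))) .nil)))),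
 (.br (nat_lit 7) (nat_lit 1) (.cons (.rf (nat_lit 502) (nat_lit 14242959490847705120)) (.cons (.br (nat_lit 9) (nat_lit 1) (.cons (.rf (nat_lit 502) (nat_lit 14242889124249995296)) (.cons (.ev (nat_lit 4722438540463683141889) (nat_lit 1)) .nil))) .nil))),
 (.br (nat_lit 4) (nat_lit 0) (.cons (.br (nat_lit 4) (nat_lit 0) (.cons (.rf (nat_lit 467) (nat_lit 220084024937600)) (.cons (.kr (nat_lit 16777216) (nat_lit 4294967296) (nat_lit 3) (nat_lit 0)) .nil))) (.cons (.br (nat_lit 4) (nat_lit 0) (.cons (.rf (nat_lit 467) (nat_lit 220084024937600)) (.cons (.rf (nat_lit 508) (nat_lit 14242959524133701664)) .nil))) (.cons (.br (nat_lit 4) (nat_lit 0) (.cons (.kr (nat_lit 16777216) (nat_lit 4294967296) (nat_lit 3) (nat_lit 0)) (.cons (.rf (nat_lit 508) (nat_lit 14242959524133701664)) .nil))) .nil)))),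
 (.br (nat_lit 3) (nat_lit 0) (.cons (.rf (nat_lit 382) (nat_lit 445090218425550880)) (.cons (.br (nat_lit 7) (nat_lit 1) (.cons (.rf (nat_lit 467) (nat_lit 220084024938592)) (.cons (.rf (nat_lit 507) (nat_lit 14242959524133701664)) (.cons (.rf (nat_lit 507) (nat_lit 13126066816545818656)) .nil)))) (.cons (.br (nat_lit 8) (nat_lit 1) (.cons (.rf (nat_lit 501) (nat_lit 14242959490847705120)) (.cons (.rf (nat_lit 509) (nat_lit 14242959524133701664)) (.cons (.rf (nat_lit 509) (nat_lit 13126066816545818656)) .nil)))) .nil)))),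
 (.br (nat_lit 3) (nat_lit 0) (.cons (.rf (nat_lit 382) (nat_lit 445090218425550880)) (.cons (.rf (nat_lit 382) (nat_lit 445092417448806432)) (.cons (.br (nat_lit 4) (nat_lit 0) (.cons (.rf (nat_lit 510) (nat_lit 14242959524132685856)) (.cons (.br (nat_lit 4) (nat_lit 0) (.cons (.rf (nat_lit 510) (nat_lit 14242959524132685856)) (.cons (.rf (nat_lit 390) (nat_lit 14242958392409819168)) .nil))) (.cons (.rf (nat_lit 391) (nat_lit 14242958392409819168)) .nil)))) .nil))))]

theorem c12 : chkAll C T R L12 (nat_lit 475) = true := by decide +kernel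

theorem l12 : (nat_lit 475) + L12.length = (nat_lit 512) := by decide +kernel

/-- part of the certificates -/
def L13 : List Prf := [(.br (nat_lit 7) (nat_lit 1) (.cons (.rf (nat_lit 510) (nat_lit 14242959524132685856)) (.cons (.br (nat_lit 4) (nat_lit 0) (.cons (.rf (nat_lit 501) (nat_lit 14242853974238660640)) (.cons (.br (nat_lit 4) (nat_lit 0) (.cons (.kr (nat_lit 16777472) (nat_lit 4295032832) (nat_lit 1) (nat_lit 0)) (.cons (.kr (nat_lit 16777216) (nat_lit 4294967296) (nat_lit 3) (nat_lit 0)) .nil))) (.cons (.br (nat_lit 4) (nat_lit 0) (.cons (.rf (nat_lit 390) (nat_lit 14242958392408803360)) (.cons (.kr (nat_lit 16777216) (nat_lit 4294967296) (nat_lit 3) (nat_lit 0)) .nil))) .nil)))) .nil))),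
 (.br (nat_lit 3) (nat_lit 0) (.cons (.rf (nat_lit 510) (nat_lit 14242959524133701664)) (.cons (.rf (nat_lit 382) (nat_lit 445092417448806432)) (.cons (.br (nat_lit 7) (nat_lit 1) (.cons (.rf (nat_lit 510) (nat_lit 14242959524132685856)) (.cons (.rf (nat_lit 512) (nat_lit 14242959524133701664)) (.cons (.rf (nat_lit 512) (nat_lit 13126066816545818656)) .nil)))) .nil)))),
 (.br (nat_lit 2) (nat_lit 0) (.cons (.rf (nat_lit 467) (nat_lit 325702574507072)) (.cons (.rf (nat_lit 467) (nat_lit 291584428049472)) (.cons (.kr (nat_lit 256) (nat_lit 65536) (nat_lit 1) (nat_lit 0)) (.cons (.rf (nat_lit 481) (nat_lit 325702574508064)) (.cons (.br (nat_lit 6) (nat_lit 1) (.cons (.rf (nat_lit 506) (nat_lit 11584701642934304)) (.cons (.rf (nat_lit 506) (nat_lit 11584701641918496)) (.cons (.br (nat_lit 11) (nat_lit 1) (.cons (.br (nat_lit 6) (nat_lit 1) (.cons (.rf (nat_lit 506) (nat_lit 11584701642934304)) (.cons (.rf (nat_lit 506) (nat_lit 11584701641918496)) (.cons (.br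 (nat_lit 3) (nat_lit 0) (.cons (.rf (nat_lit 510) (nat_lit 14242959524133701664)) (.cons (.rf (nat_lit 511) (nat_lit 14242959524133701664)) (.cons (.rf (nat_lit 513) (nat_lit 14242959524133701664)) (.cons (.br (nat_lit 3) (nat_lit 0) (.cons (.rf (nat_lit 510) (nat_lit 14242959524133701664)) (.cons (.rf (nat_lit 511) (nat_lit 14242959524133701664)) (.cons (.rf (nat_lit 513) (nat_lit 14242959524133701664)) .nil)))) .nil))))) .nil)))) .nil)) .nil)))) .nil)))))),
 (.br (nat_lit 1) (nat_lit 0) (.cons (.rf (nat_lit 467) (nat_lit 325702574508064)) (.cons (.rf (nat_lit 467) (nat_lit 291584428050464)) (.cons (.rf (nat_lit 514) (nat_lit 325702574508064)) (.cons (.rf (nat_lit 514) (nat_lit 291584428050464)) (.cons (.br (nat_lit 2) (nat_lit 0) (.cons (.rf (nat_lit 467) (nat_lit 325702574507072)) (.cons (.rf (nat_lit 467) (nat_lit 291584428049472)) (.cons (.rf (nat_lit 514) (nat_lit 325702574507072)) (.cons (.rf (nat_lit 514) (nat_lit 291584428049472)) (.cons (.kr (nat_lit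 256) (nat_lit 65536) (nat_lit 1) (nat_lit 0)) .nil)))))) .nil)))))),
 (.br (nat_lit 11) (nat_lit 0) (.cons (.br (nat_lit 11) (nat_lit 0) .nil) .nil)),
 (.br (nat_lit 10) (nat_lit 0) (.cons (.br (nat_lit 10) (nat_lit 0) .nil) .nil)),
 (.br (nat_lit 9) (nat_lit 1) (.cons (.rf (nat_lit 516) (nat_lit 407901468851537952)) (.cons (.rf (nat_lit 517) (nat_lit 407901468851537952)) .nil))),
 (.br (nat_lit 9) (nat_lit 1) (.cons (.br (nat_lit 9) (nat_lit 1) (.cons (.rf (nat_lit 517) (nat_lit 374090386783703072)) .nil)) (.cons (.rf (nat_lit 517) (nat_lit 374090386783703072)) .nil))),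
 (.br (nat_lit 8) (nat_lit 1) (.cons (.kr (nat_lit 4294967552) (nat_lit 16842752) (nat_lit 1) (nat_lit 0)) (.cons (.br (nat_lit 10) (nat_lit 1) (.cons (.br (nat_lit 4) (nat_lit 0) (.cons (.rf (nat_lit 518) (nat_lit 407901468851537952)) (.cons (.rf (nat_lit 519) (nat_lit 443930265870501920)) .nil))) .nil)) .nil))),
 (.br (nat_lit 8) (nat_lit 1) (.cons (.rf (nat_lit 520) (nat_lit 325702572347488)) (.cons (.br (nat_lit 8) (nat_lit 1) (.cons (.rf (nat_lit 520) (nat_lit 325702572347488)) (.cons (.br (nat_lit 9) (nat_lit 1) (.cons (.kr (nat_lit 4294967552) (nat_lit 16842752) (nat_lit 1) (nat_lit 0)) (.cons (.rf (nat_lit 517) (nat_lit 372998571737321504)) (.cons (.rf (nat_lit 517) (nat_lit 407901468849442848)) .nil)))) .nil))) .nil))),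
 (.br (nat_lit 2) (nat_lit 0) (.cons (.rf (nat_lit 520) (nat_lit 325702574508064)) (.cons (.rf (nat_lit 521) (nat_lit 325702574508064)) (.cons (.br (nat_lit 4) (nat_lit 0) (.cons (.rf (nat_lit 520) (nat_lit 325702572347488)) (.cons (.rf (nat_lit 521) (nat_lit 325702572347488)) (.cons (.kr (nat_lit 4294967552) (nat_lit 16842752) (nat_lit 1) (nat_lit 0)) .nil)))) .nil)))),
 (.br (nat_lit 11) (nat_lit 0) (.cons (.br (nat_lit 11) (nat_lit 0) .nil) .nil)),
 (.br (nat_lit 9) (nat_lit 1) (.cons (.br (nat_lit 11) (nat_lit 0) (.cons (.br (nat_lit 11) (nat_lit 0) .nil) .nil)) (.cons (.rf (nat_lit 523) (nat_lit 407901468851537952)) .nil))),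
 (.br (nat_lit 11) (nat_lit 0) (.cons (.br (nat_lit 11) (nat_lit 0) .nil) .nil)),
 (.br (nat_lit 4) (nat_lit 0) (.cons (.rf (nat_lit 520) (nat_lit 324637422618656)) (.cons (.br (nat_lit 8) (nat_lit 1) (.cons (.rf (nat_lit 524) (nat_lit 407901468851537952)) (.cons (.br (nat_lit 9) (nat_lit 1) (.cons (.rf (nat_lit 525) (nat_lit 14242959524133701664)) (.cons (.rf (nat_lit 525) (nat_lit 14208055560829503520)) .nil))) .nil))) .nil))),
 (.br (nat_lit 11) (nat_lit 0) (.cons (.br (nat_lit 11) (nat_lit 0) .nil) .nil)),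
 (.br (nat_lit 8) (nat_lit 1) (.cons (.rf (nat_lit 527) (nat_lit 407901468851537952)) (.cons (.rf (nat_lit 527) (nat_lit 372928271714715680)) .nil))),
 (.br (nat_lit 9) (nat_lit 1) (.cons (.kr (nat_lit 1103806595328) (nat_lit 281474993553408) (nat_lit 1) (nat_lit 0)) (.cons (.rf (nat_lit 524) (nat_lit 407867383991076896)) (.cons (.rf (nat_lit 528) (nat_lit 407901468851537952)) .nil)))),
 (.br (nat_lit 4) (nat_lit 0) (.cons (.kr (nat_lit 1103806595328) (nat_lit 281474993553408) (nat_lit 1) (nat_lit 0)) (.cons (.br (nat_lit 8) (nat_lit 1) (.cons (.rf (nat_lit 529) (nat_lit 370851258847760480)) (.cons (.rf (nat_lit 529) (nat_lit 335948361735639136)) .nil))) .nil))),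
 (.br (nat_lit 8) (nat_lit 1) (.cons (.br (nat_lit 9) (nat_lit 1) (.cons (.rf (nat_lit 527) (nat_lit 407867383991076896)) (.cons (.br (nat_lit 10) (nat_lit 0) (.cons (.br (nat_lit 11) (nat_lit 0) (.cons (.kr (nat_lit 1208925819614633469673728) (nat_lit 309485009821345068741623808) (nat_lit 1) (nat_lit 0)) .nil)) .nil)) .nil))) .nil)),
 (.br (nat_lit 8) (nat_lit 1) (.cons (.rf (nat_lit 531) (nat_lit 14242959524133701664)) (.cons (.br (nat_lit 8) (nat_lit 1) (.cons (.rf (nat_lit 531) (nat_lit 14242959524133701664)) .nil)) .nil))),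
 (.br (nat_lit 7) (nat_lit 1) (.cons (.rf (nat_lit 522) (nat_lit 325702574508064)) (.cons (.br (nat_lit 10) (nat_lit 1) (.cons (.br (nat_lit 2) (nat_lit 0) (.cons (.br (nat_lit 4) (nat_lit 0) (.cons (.rf (nat_lit 520) (nat_lit 324637422618656)) (.cons (.rf (nat_lit 526) (nat_lit 407901468851537952)) (.cons (.br (nat_lit 4) (nat_lit 0) (.cons (.rf (nat_lit 520) (nat_lit 324637422618656)) (.cons (.rf (nat_lit 526) (nat_lit 407901468851537952)) .nil))) .nil)))) (.cons (.br (nat_lit 4) (nat_lit 0) (.cons (.rf (nat_lit 529) (nat_lit 407901468851537952)) (.cons (.rf (nat_lit 520) (nat_lit 289487410268192)) (.cons (.br (nat_lit 4) (nat_lit 0) (.cons (.rf (nat_lit 529) (nat_lit 407901468851537952)) (.cons (.rf (nat_lit 520) (nat_lit 289487410268192)) .nil))) .nil)))) (.cons (.br (nat_lit 4) (nat_lit 0) (.cons (.rf (nat_lit 530) (nat_lit 445091350149433376)) (.cons (.br (nat_lit 4) (nat_lit 0) (.cons (.rf (nat_lit 530) (nat_lit 445091350149433376)) (.cons (.rf (nat_lit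 532) (nat_lit 14242959524133701664)) .nil))) (.cons (.br (nat_lit 4) (nat_lit 0) (.cons (.kr (nat_lit 1103806595328) (nat_lit 281474993553408) (nat_lit 1) (nat_lit 0)) (.cons (.rf (nat_lit 532) (nat_lit 14242959524133701664)) .nil))) .nil)))) .nil)))) .nil)) .nil))),
 (.br (nat_lit 2) (nat_lit 0) (.cons (.rf (nat_lit 533) (nat_lit 325702574508064)) (.cons (.rf (nat_lit 533) (nat_lit 324636382431264)) (.cons (.br (nat_lit 4) (nat_lit 0) (.cons (.rf (nat_lit 533) (nat_lit 325702572347488)) (.cons (.rf (nat_lit 533) (nat_lit 324636380270688)) (.cons (.rf (nat_lit 522) (nat_lit 255402549807136)) (.cons (.br (nat_lit 4) (nat_lit 0) (.cons (.rf (nat_lit 533) (nat_lit 325702572347488)) (.cons (.rf (nat_lit 533) (nat_lit 324636380270688)) (.cons (.kr (nat_lit 4294967552) (nat_lit 16842752) (nat_lit 1) (nat_lit 0)) .nil)))) .nil))))) .nil)))),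
 (.br (nat_lit 10) (nat_lit 0) (.cons (.rf (nat_lit 352) (nat_lit 407901400198056064)) (.cons (.br (nat_lit 10) (nat_lit 0) (.cons (.rf (nat_lit 352) (nat_lit 407901400198056064)) .nil)) .nil))),
 (.br (nat_lit 4) (nat_lit 0) (.cons (.rf (nat_lit 356) (nat_lit 372962356573113376)) (.cons (.rf (nat_lit 472) (nat_lit 14242922210531544096)) .nil))),
 (.br (nat_lit 9) (nat_lit 1) (.cons (.kr (nat_lit 9444732965743585394944) (nat_lit 36893488147435945984) (nat_lit 1) (nat_lit 0)) .nil)),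
 (.br (nat_lit 11) (nat_lit 0) (.cons (.kr (nat_lit 618970019642690141744529664) (nat_lit 36893488147435945984) (nat_lit 1) (nat_lit 0)) .nil)),
 (.br (nat_lit 8) (nat_lit 1) (.cons (.br (nat_lit 9) (nat_lit 1) (.cons (.rf (nat_lit 328) (nat_lit 410152202471051296)) (.cons (.br (nat_lit 11) (nat_lit 0) (.cons (.ev (nat_lit 309489732259886636214517761) (nat_lit 1)) .nil)) .nil))) .nil)),
 (.br (nat_lit 9) (nat_lit 1) (.cons (.rf (nat_lit 346) (nat_lit 11974197613384731776)) .nil)),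
 (.br (nat_lit 8) (nat_lit 1) (.cons (.br (nat_lit 9) (nat_lit 1) (.cons (.rf (nat_lit 328) (nat_lit 410152203511270432)) (.cons (.br (nat_lit 11) (nat_lit 0) (.cons (.br (nat_lit 10) (nat_lit 1) (.cons (.kr (nat_lit 79537647524085682666563698944) (nat_lit 36893488147435945984) (nat_lit 1) (nat_lit 0)) .nil)) .nil)) .nil))) .nil)),
 (.br (nat_lit 8) (nat_lit 1) (.cons (.rf (nat_lit 541) (nat_lit 14242959524133701664)) (.cons (.br (nat_lit 8) (nat_lit 1) (.cons (.rf (nat_lit 541) (nat_lit 14242959524133701664)) .nil)) .nil))),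
 (.br (nat_lit 8) (nat_lit 1) (.cons (.br (nat_lit 9) (nat_lit 1) (.cons (.br (nat_lit 9) (nat_lit 1) (.cons (.kr (nat_lit 4722366482869645213696) (nat_lit 309485009821345068724781056) (nat_lit 9) (nat_lit 0)) .nil)) (.cons (.rf (nat_lit 386) (nat_lit 14242958458979748896)) .nil))) .nil)),
 (.br (nat_lit 2) (nat_lit 0) (.cons (.ev (nat_lit 282574488403969) (nat_lit 1)) (.cons (.br (nat_lit 7) (nat_lit 1) (.cons (.ev (nat_lit 72058693566398721) (nat_lit 1)) (.cons (.br (nat_lit 8) (nat_lit 1) (.cons (.ev (nat_lit 282578800083201) (nat_lit 1)) (.cons (.br (nat_lit 10) (nat_lit 1) (.cons (.rf (nat_lit 535) (nat_lit 407901468851537952)) .nil)) .nil))) (.cons (.br (nat_lit 10) (nat_lit 1) (.cons (.br (nat_lit 9) (nat_lit 1) (.cons (.rf (nat_lit 354) (nat_lit 407795918956463200)) (.cons (.rf (nat_lit 352) (nat_lit 407831031520987264)) (.cons (.rf (nat_lit 485) (nat_lit 12743656691797024)) (.cons (.br (nat_lit 3) (nat_lit 0) (.cons (.rf (nat_lit 536) (nat_lit 407901468851537952))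 (.cons (.br (nat_lit 4) (nat_lit 0) (.cons (.rf (nat_lit 536) (nat_lit 407901467810334752)) (.cons (.br (nat_lit 8) (nat_lit 1) (.cons (.rf (nat_lit 383) (nat_lit 13056259956127404064)) (.cons (.br (nat_lit 8) (nat_lit 1) (.cons (.rf (nat_lit 385) (nat_lit 13056259956127404064)) .nil)) .nil))) .nil))) .nil))) .nil))))) .nil)) .nil)))) (.cons (.br (nat_lit 7) (nat_lit 1) (.cons (.br (nat_lit 8) (nat_lit 1) (.cons (.ev (nat_lit 282578800083201) (nat_lit 1)) (.cons (.br (nat_lit 8) (nat_lit 1) (.cons (.ev (nat_lit 282578800083201) (nat_lit 1)) (.cons (.br (nat_lit 4) (nat_lit 0) (.cons (.ev (nat_lit 72058697844523009) (nat_lit 1)) (.cons (.br (nat_lit 9) (nat_lit 1) (.cons (.rf (nat_lit 537) (nat_lit 14242959524133701664)) (.cons (.rf (nat_lit 537) (nat_lit 13126066816545818656)) .nil))) .nil))) .nil))) .nil))) (.cons (.br (nat_lit 8) (nat_lit 1) (.cons (.ev (nat_lit 282578800083201) (nat_lit 1)) (.cons (.br (nat_lit 11) (nat_lit 1) (.cons (.br (nat_lit 8)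 (nat_lit 1) (.cons (.ev (nat_lit 282578800083201) (nat_lit 1)) (.cons (.br (nat_lit 3) (nat_lit 0) (.cons (.rf (nat_lit 535) (nat_lit 445056097121799296)) (.cons (.br (nat_lit 9) (nat_lit 1) (.cons (.rf (nat_lit 538) (nat_lit 14242959524133701664)) (.cons (.rf (nat_lit 538) (nat_lit 13126066816545818656)) .nil))) .nil))) .nil))) .nil)) .nil))) (.cons (.br (nat_lit 11) (nat_lit 1) (.cons (.br (nat_lit 3) (nat_lit 0) (.cons (.br (nat_lit 4) (nat_lit 0) (.cons (.rf (nat_lit 515) (nat_lit 252104113426528)) (.cons (.br (nat_lit 8) (nat_lit 1) (.cons (.rf (nat_lit 354) (nat_lit 445055099583172640)) (.cons (.rf (nat_lit 354) (nat_lit 410152202471051296)) .nil))) (.cons (.br (nat_lit 9) (nat_lit 1) (.cons (.br (nat_lit 9) (nat_lit 1) (.cons (.rf (nat_lit 347) (nat_lit 444982567316262016)) .nil)) (.cons (.br (nat_lit 9) (nat_lit 1) (.cons (.rf (nat_lit 347) (nat_lit 444982567316262016)) .nil)) .nil))) .nil)))) (.cons (.br (nat_lit 4) (nat_lit 0) (.cons (.br (nat_lit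 8) (nat_lit 1) (.cons (.rf (nat_lit 354) (nat_lit 445055100623391776)) (.cons (.rf (nat_lit 354) (nat_lit 410152203511270432)) .nil))) (.cons (.rf (nat_lit 515) (nat_lit 216886488895584)) (.cons (.br (nat_lit 8) (nat_lit 1) (.cons (.rf (nat_lit 539) (nat_lit 14242959524133701664)) (.cons (.br (nat_lit 8) (nat_lit 1) (.cons (.rf (nat_lit 539) (nat_lit 14242959524133701664)) .nil)) .nil))) .nil)))) (.cons (.br (nat_lit 4) (nat_lit 0) (.cons (.br (nat_lit 9) (nat_lit 1) (.cons (.rf (nat_lit 540) (nat_lit 14242959524133701664)) (.cons (.br (nat_lit 9) (nat_lit 1) (.cons (.rf (nat_lit 346) (nat_lit 11974197613384731776)) .nil)) .nil))) (.cons (.rf (nat_lit 542) (nat_lit 14242959524133701664)) (.cons (.br (nat_lit 8) (nat_lit 1) (.cons (.rf (nat_lit 543) (nat_lit 14242959524133701664)) (.cons (.br (nat_lit 8) (nat_lit 1) (.cons (.rf (nat_lit 543) (nat_lit 14242959524133701664)) .nil)) .nil))) .nil)))) .nil)))) .nil)) .nil)))) .nil)))),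
 (.br (nat_lit 8) (nat_lit 1) (.cons (.br (nat_lit 9) (nat_lit 1) (.cons (.rf (nat_lit 328) (nat_lit 410084032750129184)) (.cons (.br (nat_lit 11) (nat_lit 0) (.cons (.ev (nat_lit 309489732259886636214517761) (nat_lit 1)) .nil)) .nil))) .nil)),
 (.br (nat_lit 7) (nat_lit 1) (.cons (.rf (nat_lit 515) (nat_lit 288386889846880)) (.cons (.br (nat_lit 11) (nat_lit 1) (.cons (.br (nat_lit 4) (nat_lit 0) (.cons (.ev (nat_lit 282578800083201) (nat_lit 1)) (.cons (.rf (nat_lit 338) (nat_lit 372962356573113376)) (.cons (.br (nat_lit 8) (nat_lit 1) (.cons (.rf (nat_lit 545) (nat_lit 14242959524133701664)) (.cons (.br (nat_lit 8) (nat_lit 1) (.cons (.rf (nat_lit 545) (nat_lit 14242959524133701664)) .nil)) .nil))) .nil)))) .nil)) .nil))),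
 (.br (nat_lit 8) (nat_lit 1) (.cons (.br (nat_lit 9) (nat_lit 1) (.cons (.rf (nat_lit 328) (nat_lit 410084033790348320)) (.cons (.br (nat_lit 11) (nat_lit 0) (.cons (.br (nat_lit 10) (nat_lit 1) (.cons (.kr (nat_lit 237684487542793012784926818560) (nat_lit 309485046714833216160727040) (nat_lit 1) (nat_lit 0)) .nil)) .nil)) .nil))) .nil)),
 (.br (nat_lit 11) (nat_lit 1) (.cons (.br (nat_lit 3) (nat_lit 0) (.cons (.rf (nat_lit 354) (nat_lit 445022080914820128)) (.cons (.rf (nat_lit 338) (nat_lit 372962355532894240)) (.cons (.br (nat_lit 8) (nat_lit 1) (.cons (.rf (nat_lit 547) (nat_lit 14242959524133701664)) (.cons (.br (nat_lit 8) (nat_lit 1) (.cons (.rf (nat_lit 547) (nat_lit 14242959524133701664)) .nil)) .nil))) .nil)))) .nil)),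
 (.br (nat_lit 7) (nat_lit 1) (.cons (.rf (nat_lit 515) (nat_lit 288386889846880)) (.cons (.rf (nat_lit 548) (nat_lit 407901468851537952)) .nil))),
 (.br (nat_lit 8) (nat_lit 1) (.cons (.ev (nat_lit 18519084242235818241) (nat_lit 1)) .nil)),
 (.br (nat_lit 8) (nat_lit 1) (.cons (.rf (nat_lit 550) (nat_lit 14242959524133701664)) (.cons (.rf (nat_lit 550) (nat_lit 13126066816545818656)) .nil))),
 (.br (nat_lit 8) (nat_lit 1) (.cons (.ev (nat_lit 18519084242235818241) (nat_lit 1)) .nil)),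
 (.br (nat_lit 8) (nat_lit 1) (.cons (.ev (nat_lit 18519084242235818241) (nat_lit 1)) .nil)),
 (.br (nat_lit 8) (nat_lit 1) (.cons (.rf (nat_lit 553) (nat_lit 14242959524133701664)) (.cons (.rf (nat_lit 553) (nat_lit 13126066816545818656)) .nil)))]

theorem c13 : chkAll C T R L13 (nat_lit 512) = true := by decide +kernel

theorem l13 : (nat_lit 512) + L13.length = (nat_lit 555) := by decide +kernel

/-- part of the certificates -/
def L14 : List Prf := [(.br (nat_lit 2) (nat_lit 0) (.cons (.rf (nat_lit 544) (nat_lit 325702574508064)) (.cons (.rf (nat_lit 544) (nat_lit 324636381415456)) (.cons (.br (nat_lit 7) (nat_lit 1) (.cons (.rf (nat_lit 546) (nat_lit 11584701642934304)) (.cons (.rf (nat_lit 549) (nat_lit 11584701642934304)) (.cons (.br (nat_lit 7) (nat_lit 1) (.cons (.rf (nat_lit 546) (nat_lit 11584701642934304)) (.cons (.rf (nat_lit 548) (nat_lit 407901468851537952)) (.cons (.br (nat_lit 3) (nat_lit 0) (.cons (.rf (nat_lit 549) (nat_lit 11583635449841696))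 (.cons (.br (nat_lit 4) (nat_lit 0) (.cons (.rf (nat_lit 546) (nat_lit 11583635449841696)) (.cons (.rf (nat_lit 551) (nat_lit 14242959524133701664)) .nil))) (.cons (.br (nat_lit 4) (nat_lit 0) (.cons (.rf (nat_lit 546) (nat_lit 11583635449841696)) (.cons (.br (nat_lit 8) (nat_lit 1) (.cons (.rf (nat_lit 552) (nat_lit 14242959524133701664)) (.cons (.rf (nat_lit 552) (nat_lit 13126066816545818656)) .nil))) (.cons (.rf (nat_lit 554) (nat_lit 14242959524133701664)) .nil)))) .nil)))) .nil)))) .nil)))) .nil)))),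
 (.br (nat_lit 2) (nat_lit 0) (.cons (.rf (nat_lit 544) (nat_lit 325702574508064)) (.cons (.rf (nat_lit 544) (nat_lit 324636381415456)) (.cons (.rf (nat_lit 555) (nat_lit 325702574508064)) (.cons (.br (nat_lit 2) (nat_lit 0) (.cons (.rf (nat_lit 544) (nat_lit 325702574508064)) (.cons (.rf (nat_lit 544) (nat_lit 324636381415456)) (.cons (.rf (nat_lit 555) (nat_lit 325702574508064)) .nil)))) .nil))))),
 (.br (nat_lit 11) (nat_lit 0) (.cons (.br (nat_lit 11) (nat_lit 0) .nil) .nil)),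
 (.br (nat_lit 10) (nat_lit 0) (.cons (.br (nat_lit 10) (nat_lit 0) .nil) .nil)),
 (.br (nat_lit 9) (nat_lit 1) (.cons (.rf (nat_lit 557) (nat_lit 407901468851537952)) (.cons (.rf (nat_lit 558) (nat_lit 407901468851537952)) .nil))),
 (.br (nat_lit 8) (nat_lit 1) (.cons (.ev (nat_lit 18519084242235818241) (nat_lit 1)) (.cons (.rf (nat_lit 559) (nat_lit 13126066816545818656)) .nil))),
 (.br (nat_lit 9) (nat_lit 1) (.cons (.br (nat_lit 10) (nat_lit 0) (.cons (.br (nat_lit 11) (nat_lit 0) (.cons (.kr (nat_lit 309485009821345073019748608) (nat_lit 1208925819614629191548928) (nat_lit 1) (nat_lit 0)) .nil)) .nil)) .nil)),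
 (.br (nat_lit 9) (nat_lit 1) (.cons (.rf (nat_lit 561) (nat_lit 14242959524133701664)) (.cons (.rf (nat_lit 561) (nat_lit 14208054361492423744)) .nil))),
 (.br (nat_lit 4) (nat_lit 0) (.cons (.rf (nat_lit 559) (nat_lit 14208054361492423744)) (.cons (.rf (nat_lit 562) (nat_lit 14242959524133701664)) .nil))),
 (.br (nat_lit 8) (nat_lit 1) (.cons (.rf (nat_lit 486) (nat_lit 374122308056452128)) (.cons (.br (nat_lit 9) (nat_lit 1) (.cons (.rf (nat_lit 437) (nat_lit 407901468851506208)) (.cons (.br (nat_lit 10) (nat_lit 0) (.cons (.br (nat_lit 11) (nat_lit 0) (.cons (.kr (nat_lit 310693935640959697916264450) (nat_lit 158456325028528675191382933760) (nat_lit 0) (nat_lit 5)) .nil)) .nil)) .nil))) .nil))),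
 (.br (nat_lit 4) (nat_lit 0) (.cons (.rf (nat_lit 559) (nat_lit 14208054360452236352)) (.cons (.br (nat_lit 8) (nat_lit 1) (.cons (.rf (nat_lit 564) (nat_lit 14242958458981812256)) (.cons (.br (nat_lit 9) (nat_lit 1) (.cons (.br (nat_lit 10) (nat_lit 0) (.cons (.zr (nat_lit 1218407446070714924270336) (nat_lit 217017215633915905) (nat_lit 5) (nat_lit 6)) .nil)) (.cons (.ev (nat_lit 309489750706912180605812993) (nat_lit 1)) .nil))) .nil))) .nil))),
 (.br (nat_lit 9) (nat_lit 1) (.cons (.br (nat_lit 8) (nat_lit 1) (.cons (.rf (nat_lit 416) (nat_lit 407865253687266336)) (.cons (.rf (nat_lit 558) (nat_lit 372894120282196064)) .nil))) (.cons (.rf (nat_lit 559) (nat_lit 14242925439273240608)) .nil))),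
 (.br (nat_lit 8) (nat_lit 1) (.cons (.rf (nat_lit 566) (nat_lit 14242855004023096448)) (.cons (.rf (nat_lit 566) (nat_lit 14207952106910975104)) .nil))),
 (.br (nat_lit 9) (nat_lit 1) (.cons (.br (nat_lit 8) (nat_lit 1) (.cons (.br (nat_lit 8) (nat_lit 1) (.cons (.kr (nat_lit 18446744073709551616) (nat_lit 1208925819614629174706176) (nat_lit 8) (nat_lit 0)) .nil)) (.cons (.rf (nat_lit 558) (nat_lit 372894120282196064)) .nil))) (.cons (.rf (nat_lit 562) (nat_lit 14242925439273240608)) .nil))),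
 (.br (nat_lit 4) (nat_lit 0) (.cons (.rf (nat_lit 567) (nat_lit 14242889224109000736)) (.cons (.rf (nat_lit 564) (nat_lit 14242925439273240608)) .nil))),
 (.br (nat_lit 4) (nat_lit 0) (.cons (.rf (nat_lit 567) (nat_lit 14242889224109000736)) (.cons (.br (nat_lit 9) (nat_lit 1) (.cons (.rf (nat_lit 569) (nat_lit 14242889224109000736)) (.cons (.kr (nat_lit 4722366482869661990912) (nat_lit 72057598332895232) (nat_lit 3) (nat_lit 0)) .nil))) .nil))),
 (.br (nat_lit 4) (nat_lit 0) (.cons (.rf (nat_lit 567) (nat_lit 14242853905585210496)) (.cons (.br (nat_lit 9) (nat_lit 1) (.cons (.br (nat_lit 9) (nat_lit 1) (.cons (.rf (nat_lit 557) (nat_lit 407867383991076896)) .nil)) (.cons (.rf (nat_lit 557) (nat_lit 407867383991076896)) .nil))) .nil))),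
 (.br (nat_lit 4) (nat_lit 0) (.cons (.rf (nat_lit 567) (nat_lit 14242853905585210496)) (.cons (.br (nat_lit 7) (nat_lit 1) (.cons (.rf (nat_lit 393) (nat_lit 443929200718580768)) (.cons (.br (nat_lit 9) (nat_lit 1) (.cons (.ev (nat_lit 1223130029288229993251330) (nat_lit 2)) (.cons (.br (nat_lit 10) (nat_lit 0) (.cons (.ev (nat_lit 1213648186380077620003073) (nat_lit 1)) .nil)) .nil))) .nil))) .nil))),
 (.br (nat_lit 9) (nat_lit 1) (.cons (.br (nat_lit 10) (nat_lit 0) (.cons (.br (nat_lit 11) (nat_lit 0) (.cons (.kr (nat_lit 309485009821345073019748608) (nat_lit 1208925819614629191548928) (nat_lit 1) (nat_lit 0)) .nil)) .nil)) .nil)),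
 (.br (nat_lit 9) (nat_lit 1) (.cons (.rf (nat_lit 573) (nat_lit 14242959524133701664)) (.cons (.rf (nat_lit 573) (nat_lit 14208054430143647840)) .nil))),
 (.br (nat_lit 4) (nat_lit 0) (.cons (.rf (nat_lit 567) (nat_lit 14242853905585210496)) (.cons (.rf (nat_lit 574) (nat_lit 14242959524133701664)) .nil))),
 (.br (nat_lit 9) (nat_lit 1) (.cons (.br (nat_lit 10) (nat_lit 0) (.cons (.br (nat_lit 11) (nat_lit 0) (.cons (.kr (nat_lit 309485009821345073019748608) (nat_lit 1208925819614629191548928) (nat_lit 1) (nat_lit 0)) .nil)) .nil)) (.cons (.rf (nat_lit 437) (nat_lit 372996374863610976)) .nil))),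
 (.br (nat_lit 4) (nat_lit 0) (.cons (.rf (nat_lit 567) (nat_lit 14242853905585210496)) (.cons (.br (nat_lit 7) (nat_lit 1) (.cons (.br (nat_lit 10) (nat_lit 0) (.cons (.rf (nat_lit 437) (nat_lit 407901468851506208)) (.cons (.ev (nat_lit 1208944338417396450656513) (nat_lit 1)) .nil))) (.cons (.rf (nat_lit 576) (nat_lit 14242959524133701664)) .nil))) .nil))),
 (.br (nat_lit 8) (nat_lit 1) (.cons (.rf (nat_lit 567) (nat_lit 14242855004023096448)) (.cons (.rf (nat_lit 414) (nat_lit 407901468851506208)) (.cons (.rf (nat_lit 557) (nat_lit 407901468851537952)) .nil)))),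
 (.br (nat_lit 10) (nat_lit 0) (.cons (.ev (nat_lit 1208944266641277372661761) (nat_lit 1)) .nil)),
 (.br (nat_lit 4) (nat_lit 0) (.cons (.rf (nat_lit 567) (nat_lit 14242855004023096448)) (.cons (.br (nat_lit 7) (nat_lit 1) (.cons (.rf (nat_lit 393) (nat_lit 443894050706230304)) (.cons (.br (nat_lit 8) (nat_lit 1) (.cons (.rf (nat_lit 393) (nat_lit 443859965843737632)) (.cons (.rf (nat_lit 579) (nat_lit 14242959524133701664)) .nil))) .nil))) .nil))),
 (.br (nat_lit 4) (nat_lit 0) (.cons (.rf (nat_lit 567) (nat_lit 14242855004023096448)) (.cons (.br (nat_lit 7) (nat_lit 1) (.cons (.br (nat_lit 10) (nat_lit 0) (.cons (.rf (nat_lit 437) (nat_lit 407867383991045152)) (.cons (.ev (nat_lit 1213648258156196664442881) (nat_lit 1)) .nil))) (.cons (.rf (nat_lit 576) (nat_lit 14242925439273240608)) .nil))) .nil))),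
 (.br (nat_lit 9) (nat_lit 1) (.cons (.br (nat_lit 9) (nat_lit 1) (.cons (.rf (nat_lit 558) (nat_lit 374087022818755648)) .nil)) (.cons (.rf (nat_lit 558) (nat_lit 374087022818755648)) .nil))),
 (.br (nat_lit 10) (nat_lit 0) (.cons (.ev (nat_lit 1208944266641277372661761) (nat_lit 1)) .nil)),
 (.br (nat_lit 8) (nat_lit 1) (.cons (.br (nat_lit 10) (nat_lit 0) (.cons (.br (nat_lit 11) (nat_lit 0) (.cons (.kr (nat_lit 310693935640959702194454784) (nat_lit 36893488147435945984) (nat_lit 1) (nat_lit 0)) .nil)) .nil)) .nil)),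
 (.br (nat_lit 9) (nat_lit 1) (.cons (.rf (nat_lit 582) (nat_lit 443896181010040864)) (.cons (.br (nat_lit 8) (nat_lit 1) (.cons (.rf (nat_lit 584) (nat_lit 14242959524133701664)) (.cons (.rf (nat_lit 584) (nat_lit 14207951008470994048)) .nil))) .nil))),
 (.br (nat_lit 8) (nat_lit 1) (.cons (.br (nat_lit 9) (nat_lit 1) (.cons (.kr (nat_lit 18446744073709551616) (nat_lit 1208925819614629174706176) (nat_lit 8) (nat_lit 0)) (.cons (.br (nat_lit 9) (nat_lit 1) (.cons (.kr (nat_lit 18446744073709551616) (nat_lit 1208925819614629174706176) (nat_lit 8) (nat_lit 0)) .nil)) .nil))) .nil)),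
 (.br (nat_lit 8) (nat_lit 1) (.cons (.rf (nat_lit 586) (nat_lit 14242959524133701664)) (.cons (.br (nat_lit 8) (nat_lit 1) (.cons (.rf (nat_lit 586) (nat_lit 14242959524133701664)) .nil)) .nil))),
 (.br (nat_lit 9) (nat_lit 1) (.cons (.rf (nat_lit 437) (nat_lit 443896181010009120)) .nil)),
 (.br (nat_lit 9) (nat_lit 1) (.cons (.rf (nat_lit 437) (nat_lit 443896181010009120)) .nil)),
 (.br (nat_lit 4) (nat_lit 0) (.cons (.br (nat_lit 8) (nat_lit 1) (.cons (.rf (nat_lit 588) (nat_lit 407901468851537952)) (.cons (.br (nat_lit 9) (nat_lit 1) (.cons (.rf (nat_lit 437) (nat_lit 443930265870470176)) (.cons (.ev (nat_lit 4740885566016664371201) (nat_lit 1)) .nil))) .nil))) (.cons (.br (nat_lit 8) (nat_lit 1) (.cons (.rf (nat_lit 589) (nat_lit 407901468851537952)) (.cons (.br (nat_lit 10) (nat_lit 0) (.cons (.br (nat_lit 9) (nat_lit 1) (.cons (.ev (nat_lit 4740813509522154848513) (nat_lit 1)) .nil)) (.cons (.ev (nat_lit 309485009821626547996459264) (nat_lit 1)) .nil)))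 .nil))) .nil))),
 (.br (nat_lit 8) (nat_lit 1) (.cons (.br (nat_lit 11) (nat_lit 0) (.cons (.kr (nat_lit 310693935640959702194454784) (nat_lit 36893488147435945984) (nat_lit 1) (nat_lit 0)) .nil)) .nil)),
 (.br (nat_lit 9) (nat_lit 1) (.cons (.rf (nat_lit 589) (nat_lit 443896181010040864)) (.cons (.br (nat_lit 8) (nat_lit 1) (.cons (.rf (nat_lit 591) (nat_lit 14242959524133701664)) (.cons (.br (nat_lit 8) (nat_lit 1) (.cons (.rf (nat_lit 591) (nat_lit 14242959524133701664)) .nil)) .nil))) .nil))),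
 (.br (nat_lit 9) (nat_lit 0) (.cons (.br (nat_lit 12) (nat_lit 1) (.cons (.kr (nat_lit 1208925819614633469673728) (nat_lit 4722366482869662056448) (nat_lit 1) (nat_lit 0)) .nil)) .nil)),
 (.br (nat_lit 12) (nat_lit 1) (.cons (.ev (nat_lit 79228162514264619072815628544) (nat_lit 1)) (.cons (.br (nat_lit 8) (nat_lit 1) (.cons (.rf (nat_lit 593) (nat_lit 445091350149433376)) (.cons (.br (nat_lit 9) (nat_lit 1) (.cons (.rf (nat_lit 579) (nat_lit 14242959524133701664)) .nil)) .nil))) .nil))),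
 (.br (nat_lit 4) (nat_lit 0) (.cons (.br (nat_lit 8) (nat_lit 1) (.cons (.br (nat_lit 9) (nat_lit 1) (.cons (.rf (nat_lit 445) (nat_lit 407900403697585184)) (.cons (.ev (nat_lit 4740885566016664371201) (nat_lit 1)) .nil))) (.cons (.br (nat_lit 9) (nat_lit 1) (.cons (.ev (nat_lit 4740885566016664371201) (nat_lit 1)) (.cons (.rf (nat_lit 440) (nat_lit 407832233976663072)) .nil))) .nil))) (.cons (.rf (nat_lit 594) (nat_lit 14242959524133701664)) .nil))),
 (.br (nat_lit 8) (nat_lit 1) (.cons (.br (nat_lit 9) (nat_lit 1) (.cons (.kr (nat_lit 18446744073709551616) (nat_lit 1208925819614629174706176) (nat_lit 8) (nat_lit 0)) (.cons (.br (nat_lit 10) (nat_lit 0) (.cons (.kr (nat_lit 310693935640959702194454784) (nat_lit 36893488147435945984) (nat_lit 1) (nat_lit 0)) .nil)) .nil))) .nil)),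
 (.br (nat_lit 8) (nat_lit 1) (.cons (.rf (nat_lit 596) (nat_lit 14242959524133701664)) (.cons (.br (nat_lit 8) (nat_lit 1) (.cons (.rf (nat_lit 596) (nat_lit 14242959524133701664)) .nil)) .nil))),
 (.br (nat_lit 2) (nat_lit 0) (.cons (.br (nat_lit 3) (nat_lit 0) (.cons (.rf (nat_lit 556) (nat_lit 291584425889888)) (.cons (.rf (nat_lit 354) (nat_lit 407832164286105696)) (.cons (.br (nat_lit 7) (nat_lit 1) (.cons (.br (nat_lit 4) (nat_lit 0) (.cons (.rf (nat_lit 520) (nat_lit 221182461807744)) (.cons (.rf (nat_lit 515) (nat_lit 216886488895584)) (.cons (.rf (nat_lit 567) (nat_lit 14242855004023161920)) .nil)))) (.cons (.ev (nat_lit 72339069031481601) (nat_lit 1)) (.cons (.br (nat_lit 4) (nat_lit 0) (.cons (.br (nat_lit 4) (nat_lit 0) (.cons (.kr (nat_lit 9444732965739290427904) (nat_lit 18446745173238022144) (nat_lit 1) (nat_lit 0)) (.cons (.rf (nat_lit 567) (nat_lit 14242855002982974528)) .nil))) (.cons (.rf (nat_lit 515) (nat_lit 216886488895584)) (.cons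 (.br (nat_lit 4) (nat_lit 0) (.cons (.rf (nat_lit 567) (nat_lit 14242855002982974528)) (.cons (.rf (nat_lit 515) (nat_lit 216886488895584)) .nil))) .nil)))) .nil)))) (.cons (.br (nat_lit 7) (nat_lit 1) (.cons (.br (nat_lit 8) (nat_lit 1) (.cons (.rf (nat_lit 521) (nat_lit 221182463968320)) (.cons (.ev (nat_lit 18519084242235818241) (nat_lit 1)) (.cons (.rf (nat_lit 563) (nat_lit 14242959524133701664)) .nil)))) (.cons (.br (nat_lit 4) (nat_lit 0) (.cons (.ev (nat_lit 18519084242235818241) (nat_lit 1)) (.cons (.rf (nat_lit 569) (nat_lit 14242925439273240608)) (.cons (.br (nat_lit 4) (nat_lit 0) (.cons (.ev (nat_lit 18519084242235818241) (nat_lit 1)) (.cons (.rf (nat_lit 569) (nat_lit 14242925439273240608)) .nil))) .nil)))) (.cons (.br (nat_lit 4) (nat_lit 0) (.cons (.rf (nat_lit 563) (nat_lit 14242958458981812256)) (.cons (.rf (nat_lit 565) (nat_lit 14242959524133701664)) (.cons (.br (nat_lit 4) (nat_lit 0) (.cons (.rf (nat_lit 562) (nat_lit 14242958458981812256))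 (.cons (.rf (nat_lit 565) (nat_lit 14242959524133701664)) .nil))) .nil)))) .nil)))) .nil))))) (.cons (.br (nat_lit 3) (nat_lit 0) (.cons (.ev (nat_lit 72058693566398721) (nat_lit 1)) (.cons (.br (nat_lit 7) (nat_lit 1) (.cons (.br (nat_lit 4) (nat_lit 0) (.cons (.zr (nat_lit 72058693599887360) (nat_lit 18446744082299486209) (nat_lit 5) (nat_lit 5)) (.cons (.rf (nat_lit 520) (nat_lit 220084023921792)) (.cons (.rf (nat_lit 567) (nat_lit 14242853905585275968)) .nil)))) (.cons (.ev (nat_lit 72339069031481601) (nat_lit 1)) (.cons (.br (nat_lit 4) (nat_lit 0) (.cons (.rf (nat_lit 515) (nat_lit 252104113426528)) (.cons (.br (nat_lit 4) (nat_lit 0) (.cons (.kr (nat_lit 4722366483982041743616) (nat_lit 36893488147452788736) (nat_lit 1) (nat_lit 0)) (.cons (.rf (nat_lit 567) (nat_lit 14242853903504901184)) .nil))) (.cons (.br (nat_lit 4) (nat_lit 0) (.cons (.rf (nat_lit 515) (nat_lit 252104113426528)) (.cons (.rf (nat_lit 567) (nat_lit 14242853903504901184)) .nil)))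 .nil)))) .nil)))) (.cons (.br (nat_lit 7) (nat_lit 1) (.cons (.rf (nat_lit 556) (nat_lit 216886491055168)) (.cons (.rf (nat_lit 353) (nat_lit 12743590119801952)) (.cons (.rf (nat_lit 341) (nat_lit 11652874585048160)) .nil)))) (.cons (.br (nat_lit 7) (nat_lit 1) (.cons (.br (nat_lit 4) (nat_lit 0) (.cons (.rf (nat_lit 567) (nat_lit 14242959524133701664)) (.cons (.rf (nat_lit 521) (nat_lit 220084026082368)) (.cons (.rf (nat_lit 568) (nat_lit 14242959524133701664)) .nil)))) (.cons (.br (nat_lit 4) (nat_lit 0) (.cons (.rf (nat_lit 569) (nat_lit 14242959524133701664)) (.cons (.br (nat_lit 4) (nat_lit 0) (.cons (.rf (nat_lit 567) (nat_lit 14242889224109000736)) (.cons (.ev (nat_lit 4722438823042483290113) (nat_lit 1)) .nil))) (.cons (.br (nat_lit 4) (nat_lit 0) (.cons (.rf (nat_lit 569) (nat_lit 14242959524133701664)) (.cons (.ev (nat_lit 4722438823042483290113) (nat_lit 1)) .nil))) .nil)))) (.cons (.br (nat_lit 4) (nat_lit 0) (.cons (.rf (nat_lit 570) (nat_lit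 14242959524133701664)) (.cons (.rf (nat_lit 563) (nat_lit 14242923308969461792)) (.cons (.br (nat_lit 4) (nat_lit 0) (.cons (.rf (nat_lit 570) (nat_lit 14242959524133701664)) (.cons (.rf (nat_lit 562) (nat_lit 14242923308969461792)) .nil))) .nil)))) .nil)))) .nil))))) (.cons (.br (nat_lit 3) (nat_lit 0) (.cons (.rf (nat_lit 556) (nat_lit 291584425889888)) (.cons (.br (nat_lit 8) (nat_lit 1) (.cons (.rf (nat_lit 515) (nat_lit 252104113426528)) (.cons (.br (nat_lit 4) (nat_lit 0) (.cons (.rf (nat_lit 571) (nat_lit 14242959524133701664)) (.cons (.rf (nat_lit 572) (nat_lit 14242959524133701664)) (.cons (.br (nat_lit 4) (nat_lit 0) (.cons (.rf (nat_lit 571) (nat_lit 14242959524133701664)) (.cons (.rf (nat_lit 572) (nat_lit 14242959524133701664)) .nil))) .nil)))) (.cons (.br (nat_lit 4) (nat_lit 0) (.cons (.rf (nat_lit 575) (nat_lit 14242959524133701664)) (.cons (.rf (nat_lit 577) (nat_lit 14242959524133701664)) (.cons (.br (nat_lit 4) (nat_lit 0) (.cons (.rf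 (nat_lit 574) (nat_lit 14242959524133701664)) (.cons (.rf (nat_lit 577) (nat_lit 14242959524133701664)) .nil))) .nil)))) .nil)))) (.cons (.br (nat_lit 9) (nat_lit 1) (.cons (.rf (nat_lit 515) (nat_lit 216886488895584)) (.cons (.br (nat_lit 4) (nat_lit 0) (.cons (.rf (nat_lit 578) (nat_lit 14242959524133701664)) (.cons (.rf (nat_lit 580) (nat_lit 14242959524133701664)) (.cons (.br (nat_lit 4) (nat_lit 0) (.cons (.rf (nat_lit 578) (nat_lit 14242959524133701664)) (.cons (.rf (nat_lit 580) (nat_lit 14242959524133701664)) .nil))) .nil)))) (.cons (.br (nat_lit 4) (nat_lit 0) (.cons (.br (nat_lit 4) (nat_lit 0) (.cons (.rf (nat_lit 567) (nat_lit 14242855004023096448)) (.cons (.rf (nat_lit 574) (nat_lit 14242925439273240608)) .nil))) (.cons (.rf (nat_lit 581) (nat_lit 14242959524133701664)) (.cons (.br (nat_lit 4) (nat_lit 0) (.cons (.rf (nat_lit 574) (nat_lit 14242925439273240608)) (.cons (.rf (nat_lit 581) (nat_lit 14242959524133701664)) .nil))) .nil)))) .nil))))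 (.cons (.br (nat_lit 7) (nat_lit 1) (.cons (.br (nat_lit 4) (nat_lit 0) (.cons (.br (nat_lit 8) (nat_lit 1) (.cons (.rf (nat_lit 582) (nat_lit 443930265870501920)) (.cons (.br (nat_lit 9) (nat_lit 1) (.cons (.rf (nat_lit 583) (nat_lit 14242959524133701664)) (.cons (.br (nat_lit 9) (nat_lit 1) (.cons (.rf (nat_lit 583) (nat_lit 14242959524133701664)) .nil)) .nil))) .nil))) (.cons (.rf (nat_lit 585) (nat_lit 14242959524133701664)) (.cons (.rf (nat_lit 587) (nat_lit 14242959524133701664)) .nil)))) (.cons (.br (nat_lit 4) (nat_lit 0) (.cons (.rf (nat_lit 590) (nat_lit 443930265870501920)) (.cons (.br (nat_lit 4) (nat_lit 0) (.cons (.rf (nat_lit 590) (nat_lit 443930265870501920)) (.cons (.rf (nat_lit 592) (nat_lit 14242959524133701664)) .nil))) (.cons (.br (nat_lit 4) (nat_lit 0) (.cons (.rf (nat_lit 590) (nat_lit 443930265870501920)) (.cons (.rf (nat_lit 592) (nat_lit 14242959524133701664)) .nil))) .nil)))) (.cons (.br (nat_lit 4) (nat_lit 0) (.cons (.rf (nat_lit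 595) (nat_lit 14242959524133701664)) (.cons (.br (nat_lit 4) (nat_lit 0) (.cons (.rf (nat_lit 595) (nat_lit 14242959524133701664)) (.cons (.rf (nat_lit 597) (nat_lit 14242959524133701664)) .nil))) (.cons (.br (nat_lit 4) (nat_lit 0) (.cons (.rf (nat_lit 594) (nat_lit 14242959524133701664)) (.cons (.rf (nat_lit 597) (nat_lit 14242959524133701664)) .nil))) .nil)))) .nil)))) .nil))))) .nil))))]

theorem c14 : chkAll C T R L14 (nat_lit 555) = true := by decide +kernel

theorem l14 : (nat_lit 555) + L14.length = (nat_lit 599) := by decide +kernel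

/-- part of the certificates -/
def L15 : List Prf := [(.br (nat_lit 4) (nat_lit 0) (.cons (.ev (nat_lit 282578800083201) (nat_lit 1)) (.cons (.kr (nat_lit 144115196665790976) (nat_lit 18446745173271576576) (nat_lit 1) (nat_lit 0)) (.cons (.kr (nat_lit 4722366482873940181248) (nat_lit 18446744073726394368) (nat_lit 1) (nat_lit 0)) (.cons (.rf (nat_lit 567) (nat_lit 14242852806107202624)) .nil))))),
 (.br (nat_lit 4) (nat_lit 0) (.cons (.zr (nat_lit 8623554816) (nat_lit 4722510599157232697345) (nat_lit 5) (nat_lit 0)) (.cons (.kr (nat_lit 4722366482873940181248) (nat_lit 18446744073726394368) (nat_lit 1) (nat_lit 0)) (.cons (.rf (nat_lit 567) (nat_lit 14242852805067015232)) .nil)))),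
 (.br (nat_lit 4) (nat_lit 0) (.cons (.rf (nat_lit 567) (nat_lit 14242958458981812256)) (.cons (.rf (nat_lit 567) (nat_lit 14242923308969461792)) (.cons (.br (nat_lit 8) (nat_lit 1) (.cons (.rf (nat_lit 569) (nat_lit 14242958458981812256)) (.cons (.br (nat_lit 9) (nat_lit 1) (.cons (.rf (nat_lit 569) (nat_lit 14242923308969461792)) (.cons (.br (nat_lit 7) (nat_lit 1) (.cons (.br (nat_lit 10) (nat_lit 0) (.cons (.zr (nat_lit 1208962857220163709960192) (nat_lit 14167100293042455708161) (nat_lit 5) (nat_lit 9)) .nil)) (.cons (.ev (nat_lit 309489750706912180605812993) (nat_lit 1)) .nil))) .nil))) .nil))) .nil)))),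
 (.br (nat_lit 9) (nat_lit 1) (.cons (.rf (nat_lit 520) (nat_lit 253069408470080)) (.cons (.rf (nat_lit 598) (nat_lit 407759600812688448)) (.cons (.rf (nat_lit 598) (nat_lit 372856703700567104)) .nil)))),
 (.br (nat_lit 8) (nat_lit 1) (.cons (.rf (nat_lit 520) (nat_lit 253069408470080)) (.cons (.ev (nat_lit 1218407662806446974763266) (nat_lit 2)) (.cons (.rf (nat_lit 563) (nat_lit 14242889224109000736)) .nil)))),
 (.br (nat_lit 7) (nat_lit 1) (.cons (.rf (nat_lit 601) (nat_lit 14242959524133701664)) (.cons (.br (nat_lit 4) (nat_lit 0) (.cons (.rf (nat_lit 602) (nat_lit 14242959524133701664)) (.cons (.rf (nat_lit 603) (nat_lit 14242959524133701664)) (.cons (.br (nat_lit 4) (nat_lit 0) (.cons (.rf (nat_lit 602) (nat_lit 14242959524133701664)) (.cons (.rf (nat_lit 603) (nat_lit 14242959524133701664)) .nil))) .nil)))) .nil))),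
 (.br (nat_lit 9) (nat_lit 1) (.cons (.br (nat_lit 9) (nat_lit 1) (.cons (.rf (nat_lit 557) (nat_lit 443861030997690400)) .nil)) (.cons (.rf (nat_lit 557) (nat_lit 443861030997690400)) .nil))),
 (.br (nat_lit 4) (nat_lit 0) (.cons (.rf (nat_lit 567) (nat_lit 14242852806107137152)) (.cons (.rf (nat_lit 605) (nat_lit 443930265870501920)) .nil))),
 (.br (nat_lit 4) (nat_lit 0) (.cons (.rf (nat_lit 567) (nat_lit 14242852806107137152)) (.cons (.rf (nat_lit 394) (nat_lit 14242959524133669920)) .nil))),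
 (.br (nat_lit 4) (nat_lit 0) (.cons (.rf (nat_lit 606) (nat_lit 14242959524133701664)) (.cons (.rf (nat_lit 607) (nat_lit 14242959524133701664)) (.cons (.br (nat_lit 4) (nat_lit 0) (.cons (.rf (nat_lit 605) (nat_lit 443930265870501920)) (.cons (.rf (nat_lit 607) (nat_lit 14242959524133701664)) .nil))) .nil)))),
 (.br (nat_lit 4) (nat_lit 0) (.cons (.rf (nat_lit 567) (nat_lit 14242852806107137152)) (.cons (.br (nat_lit 8) (nat_lit 1) (.cons (.br (nat_lit 9) (nat_lit 1) (.cons (.rf (nat_lit 437) (nat_lit 407900403699616800)) (.cons (.br (nat_lit 10) (nat_lit 0) (.cons (.br (nat_lit 11) (nat_lit 0) (.cons (.ev (nat_lit 310694009860846727534282500) (nat_lit 3)) .nil)) .nil)) .nil))) (.cons (.rf (nat_lit 576) (nat_lit 14242958458981812256)) .nil))) .nil))),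
 (.br (nat_lit 4) (nat_lit 0) (.cons (.br (nat_lit 7) (nat_lit 1) (.cons (.br (nat_lit 9) (nat_lit 1) (.cons (.ev (nat_lit 4740885285641199288321) (nat_lit 1)) (.cons (.rf (nat_lit 328) (nat_lit 374017886764697696)) .nil))) (.cons (.br (nat_lit 9) (nat_lit 1) (.cons (.rf (nat_lit 328) (nat_lit 374020017068476512)) (.cons (.ev (nat_lit 4740885285641199288321) (nat_lit 1)) .nil))) .nil))) (.cons (.br (nat_lit 7) (nat_lit 1) (.cons (.br (nat_lit 9) (nat_lit 1) (.cons (.br (nat_lit 9) (nat_lit 1) (.cons (.rf (nat_lit 328) (nat_lit 374017886764697696)) .nil)) (.cons (.rf (nat_lit 328) (nat_lit 374017886764697696)) .nil))) (.cons (.br (nat_lit 9) (nat_lit 1) (.cons (.br (nat_lit 9) (nat_lit 1) (.cons (.ev (nat_lit 4722438823042483290113) (nat_lit 1)) .nil)) (.cons (.br (nat_lit 9) (nat_lit 1) (.cons (.ev (nat_lit 4722438823042483290113) (nat_lit 1)) .nil)) .nil))) .nil))) .nil))),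
 (.br (nat_lit 4) (nat_lit 0) (.cons (.rf (nat_lit 610) (nat_lit 407901468851537952)) (.cons (.rf (nat_lit 548) (nat_lit 372997436891795552)) .nil))),
 (.br (nat_lit 9) (nat_lit 1) (.cons (.rf (nat_lit 605) (nat_lit 443859965845800992)) (.cons (.rf (nat_lit 574) (nat_lit 14242890289260890144)) .nil))),
 (.br (nat_lit 10) (nat_lit 0) (.cons (.br (nat_lit 11) (nat_lit 0) (.cons (.kr (nat_lit 4722366482869645213696) (nat_lit 309485009821345068724781056) (nat_lit 9) (nat_lit 0)) (.cons (.ev (nat_lit 80160244376671848869958582785) (nat_lit 2)) .nil))) .nil)),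
 (.br (nat_lit 4) (nat_lit 0) (.cons (.rf (nat_lit 515) (nat_lit 216886488895584)) (.cons (.br (nat_lit 9) (nat_lit 1) (.cons (.br (nat_lit 7) (nat_lit 1) (.cons (.rf (nat_lit 393) (nat_lit 443894050704198688)) (.cons (.rf (nat_lit 613) (nat_lit 14242959524133701664)) .nil))) (.cons (.rf (nat_lit 576) (nat_lit 14242890289260890144)) .nil))) .nil))),
 (.br (nat_lit 7) (nat_lit 1) (.cons (.br (nat_lit 4) (nat_lit 0) (.cons (.rf (nat_lit 582) (nat_lit 443929200718612512)) (.cons (.br (nat_lit 8) (nat_lit 1) (.cons (.rf (nat_lit 588) (nat_lit 443929200718612512)) (.cons (.br (nat_lit 9) (nat_lit 1) (.cons (.rf (nat_lit 445) (nat_lit 407901468849474592)) (.cons (.br (nat_lit 10) (nat_lit 0) (.cons (.ev (nat_lit 1213648186380077620003073) (nat_lit 1)) .nil)) .nil))) .nil))) (.cons (.br (nat_lit 8) (nat_lit 1) (.cons (.rf (nat_lit 589) (nat_lit 443929200718612512)) (.cons (.br (nat_lit 12) (nat_lit 1) (.cons (.ev (nat_lit 79229371458603036469266219008) (nat_lit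 1)) (.cons (.rf (nat_lit 593) (nat_lit 445090284997543968)) .nil))) .nil))) .nil)))) (.cons (.br (nat_lit 4) (nat_lit 0) (.cons (.br (nat_lit 9) (nat_lit 1) (.cons (.br (nat_lit 9) (nat_lit 1) (.cons (.ev (nat_lit 4722438823042483290113) (nat_lit 1)) .nil)) (.cons (.br (nat_lit 9) (nat_lit 1) (.cons (.ev (nat_lit 4722438823042483290113) (nat_lit 1)) .nil)) .nil))) (.cons (.br (nat_lit 8) (nat_lit 1) (.cons (.br (nat_lit 9) (nat_lit 1) (.cons (.ev (nat_lit 1208925891954797700972801) (nat_lit 1)) (.cons (.br (nat_lit 10) (nat_lit 0) (.cons (.br (nat_lit 11) (nat_lit 0) (.cons (.zr (nat_lit 4835740244006457179111426) (nat_lit 237684496987526822949147443200) (nat_lit 5) (nat_lit 6)) .nil)) .nil)) .nil))) (.cons (.br (nat_lit 9) (nat_lit 1) (.cons (.br (nat_lit 10) (nat_lit 0) (.cons (.br (nat_lit 11) (nat_lit 0) (.cons (.ev (nat_lit 310722307021577651367641860) (nat_lit 3)) .nil)) .nil)) (.cons (.rf (nat_lit 440) (nat_lit 407867383989013536)) .nil))) .nil)))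 (.cons (.br (nat_lit 8) (nat_lit 1) (.cons (.br (nat_lit 9) (nat_lit 1) (.cons (.ev (nat_lit 1208925891954797700972801) (nat_lit 1)) (.cons (.br (nat_lit 9) (nat_lit 1) (.cons (.ev (nat_lit 1208925891954797700972801) (nat_lit 1)) .nil)) .nil))) (.cons (.br (nat_lit 9) (nat_lit 1) (.cons (.rf (nat_lit 613) (nat_lit 14242959524133701664)) (.cons (.br (nat_lit 9) (nat_lit 1) (.cons (.kr (nat_lit 4722366482869645213696) (nat_lit 309485009821345068724781056) (nat_lit 9) (nat_lit 0)) .nil)) .nil))) .nil))) .nil)))) .nil))),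
 (.br (nat_lit 11) (nat_lit 0) (.cons (.kr (nat_lit 309485009821345073019748608) (nat_lit 1208925819614629191548928) (nat_lit 1) (nat_lit 0)) .nil)),
 (.br (nat_lit 4) (nat_lit 0) (.cons (.br (nat_lit 10) (nat_lit 0) (.cons (.rf (nat_lit 616) (nat_lit 14242959524133701664)) (.cons (.ev (nat_lit 79229371440156291296028327936) (nat_lit 1)) .nil))) .nil)),
 (.br (nat_lit 7) (nat_lit 1) (.cons (.rf (nat_lit 615) (nat_lit 14242959524133701664)) (.cons (.br (nat_lit 8) (nat_lit 1) (.cons (.br (nat_lit 4) (nat_lit 0) (.cons (.br (nat_lit 9) (nat_lit 1) (.cons (.rf (nat_lit 558) (nat_lit 372996305170072640)) (.cons (.ev (nat_lit 4740885566016664371201) (nat_lit 1)) .nil))) (.cons (.br (nat_lit 10) (nat_lit 0) (.cons (.br (nat_lit 9) (nat_lit 1) (.cons (.kr (nat_lit 4722366482869661990912) (nat_lit 72057598332895232) (nat_lit 3) (nat_lit 0)) .nil)) (.cons (.ev (nat_lit 79228162514264619072815628544) (nat_lit 1)) .nil))) .nil))) (.cons (.ev (nat_lit 1208944338697771915739393)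 (nat_lit 1)) (.cons (.br (nat_lit 4) (nat_lit 0) (.cons (.rf (nat_lit 617) (nat_lit 14242959524133701664)) (.cons (.br (nat_lit 4) (nat_lit 0) (.cons (.rf (nat_lit 617) (nat_lit 14242959524133701664)) .nil)) .nil))) .nil)))) .nil))),
 (.br (nat_lit 2) (nat_lit 0) (.cons (.rf (nat_lit 598) (nat_lit 407901468851537952)) (.cons (.br (nat_lit 3) (nat_lit 0) (.cons (.br (nat_lit 7) (nat_lit 1) (.cons (.rf (nat_lit 515) (nat_lit 288386889846880)) (.cons (.br (nat_lit 4) (nat_lit 0) (.cons (.rf (nat_lit 599) (nat_lit 407901468851537952)) (.cons (.rf (nat_lit 600) (nat_lit 407901468851537952)) (.cons (.br (nat_lit 4) (nat_lit 0) (.cons (.rf (nat_lit 567) (nat_lit 14242852806107202624)) (.cons (.rf (nat_lit 567) (nat_lit 14242852805067015232)) .nil))) .nil)))) (.cons (.br (nat_lit 4) (nat_lit 0) (.cons (.rf (nat_lit 599) (nat_lit 407901468851537952)) (.cons (.rf (nat_lit 600) (nat_lit 407901468851537952)) (.cons (.br (nat_lit 4) (nat_lit 0) (.cons (.rf (nat_lit 567)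 (nat_lit 14242852806107202624)) (.cons (.rf (nat_lit 567) (nat_lit 14242852805067015232)) .nil))) .nil)))) .nil)))) (.cons (.rf (nat_lit 354) (nat_lit 407900334007027808)) (.cons (.br (nat_lit 8) (nat_lit 1) (.cons (.rf (nat_lit 556) (nat_lit 182768344597568)) (.cons (.ev (nat_lit 18447025548703039489) (nat_lit 1)) (.cons (.rf (nat_lit 341) (nat_lit 11652908944786528)) .nil)))) (.cons (.br (nat_lit 7) (nat_lit 1) (.cons (.rf (nat_lit 601) (nat_lit 14242959524133701664)) (.cons (.rf (nat_lit 604) (nat_lit 14242959524133701664)) (.cons (.br (nat_lit 7) (nat_lit 1) (.cons (.rf (nat_lit 601) (nat_lit 14242959524133701664)) (.cons (.rf (nat_lit 604) (nat_lit 14242959524133701664)) .nil))) .nil)))) .nil))))) (.cons (.br (nat_lit 3) (nat_lit 0) (.cons (.br (nat_lit 7) (nat_lit 1) (.cons (.rf (nat_lit 515) (nat_lit 288386889846880)) (.cons (.rf (nat_lit 608) (nat_lit 14242959524133701664)) (.cons (.br (nat_lit 4) (nat_lit 0) (.cons (.rf (nat_lit 575) (nat_lit 14242958458981812256))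 (.cons (.rf (nat_lit 609) (nat_lit 14242959524133701664)) (.cons (.br (nat_lit 4) (nat_lit 0) (.cons (.rf (nat_lit 574) (nat_lit 14242958458981812256)) (.cons (.rf (nat_lit 609) (nat_lit 14242959524133701664)) .nil))) .nil)))) .nil)))) (.cons (.br (nat_lit 4) (nat_lit 0) (.cons (.rf (nat_lit 610) (nat_lit 443930265870501920)) (.cons (.rf (nat_lit 611) (nat_lit 443930265870501920)) (.cons (.br (nat_lit 4) (nat_lit 0) (.cons (.rf (nat_lit 610) (nat_lit 443930265870501920)) (.cons (.rf (nat_lit 548) (nat_lit 374123336798638176)) .nil))) .nil)))) (.cons (.br (nat_lit 8) (nat_lit 1) (.cons (.br (nat_lit 4) (nat_lit 0) (.cons (.rf (nat_lit 567) (nat_lit 14242855002982909056)) (.cons (.rf (nat_lit 515) (nat_lit 216886488895584)) (.cons (.rf (nat_lit 612) (nat_lit 14242959524133701664)) .nil)))) (.cons (.ev (nat_lit 18447025548703039489) (nat_lit 1)) (.cons (.br (nat_lit 4) (nat_lit 0) (.cons (.rf (nat_lit 614) (nat_lit 14242959524133701664)) (.cons (.rf (nat_lit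 515) (nat_lit 216886488895584)) (.cons (.br (nat_lit 4) (nat_lit 0) (.cons (.rf (nat_lit 614) (nat_lit 14242959524133701664)) (.cons (.rf (nat_lit 515) (nat_lit 216886488895584)) .nil))) .nil)))) .nil)))) (.cons (.br (nat_lit 7) (nat_lit 1) (.cons (.rf (nat_lit 615) (nat_lit 14242959524133701664)) (.cons (.rf (nat_lit 618) (nat_lit 14242959524133701664)) (.cons (.br (nat_lit 7) (nat_lit 1) (.cons (.rf (nat_lit 615) (nat_lit 14242959524133701664)) (.cons (.rf (nat_lit 618) (nat_lit 14242959524133701664)) .nil))) .nil)))) .nil))))) .nil)))),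
 (.br (nat_lit 4) (nat_lit 0) (.cons (.br (nat_lit 2) (nat_lit 0) (.cons (.rf (nat_lit 567) (nat_lit 14242852806107202624)) (.cons (.br (nat_lit 8) (nat_lit 1) (.cons (.rf (nat_lit 576) (nat_lit 14208054463429644384)) (.cons (.br (nat_lit 9) (nat_lit 1) (.cons (.br (nat_lit 10) (nat_lit 0) (.cons (.br (nat_lit 11) (nat_lit 0) (.cons (.ev (nat_lit 310694009573742251222303492) (nat_lit 3)) .nil)) .nil)) (.cons (.rf (nat_lit 437) (nat_lit 372961258137257056)) .nil))) .nil))) .nil))) (.cons (.rf (nat_lit 619) (nat_lit 372964453590798432)) .nil))),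
 (.br (nat_lit 4) (nat_lit 0) (.cons (.rf (nat_lit 567) (nat_lit 14242853903504835712)) (.cons (.br (nat_lit 7) (nat_lit 1) (.cons (.rf (nat_lit 393) (nat_lit 443929200716549152)) (.cons (.br (nat_lit 9) (nat_lit 1) (.cons (.ev (nat_lit 4722366764348916957441) (nat_lit 1)) (.cons (.br (nat_lit 10) (nat_lit 0) (.cons (.br (nat_lit 11) (nat_lit 0) (.cons (.ev (nat_lit 158769455742600635960816502018) (nat_lit 3)) .nil)) .nil)) .nil))) .nil))) .nil))),
 (.br (nat_lit 4) (nat_lit 0) (.cons (.rf (nat_lit 567) (nat_lit 14242853903504835712)) (.cons (.br (nat_lit 9) (nat_lit 1) (.cons (.ev (nat_lit 4722366764348916957441) (nat_lit 1)) (.cons (.rf (nat_lit 576) (nat_lit 14242889224109000736)) .nil))) .nil))),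
 (.br (nat_lit 8) (nat_lit 1) (.cons (.rf (nat_lit 328) (nat_lit 372893017683560544)) (.cons (.rf (nat_lit 485) (nat_lit 11656205330154592)) .nil))),
 (.br (nat_lit 7) (nat_lit 1) (.cons (.br (nat_lit 8) (nat_lit 1) (.cons (.rf (nat_lit 485) (nat_lit 12746920864908384)) (.cons (.rf (nat_lit 328) (nat_lit 372891952531671136)) .nil))) (.cons (.rf (nat_lit 623) (nat_lit 14242959524133701664)) .nil))),
 (.br (nat_lit 8) (nat_lit 1) (.cons (.br (nat_lit 8) (nat_lit 1) (.cons (.rf (nat_lit 328) (nat_lit 374017852438513760)) .nil)) (.cons (.rf (nat_lit 328) (nat_lit 374017852438513760)) .nil))),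
 (.br (nat_lit 7) (nat_lit 1) (.cons (.rf (nat_lit 625) (nat_lit 407901468851537952)) (.cons (.br (nat_lit 8) (nat_lit 1) (.cons (.br (nat_lit 8) (nat_lit 1) (.cons (.ev (nat_lit 18519084242235818241) (nat_lit 1)) .nil)) (.cons (.br (nat_lit 8) (nat_lit 1) (.cons (.ev (nat_lit 18519084242235818241) (nat_lit 1)) .nil)) .nil))) .nil))),
 (.br (nat_lit 10) (nat_lit 0) (.cons (.rf (nat_lit 593) (nat_lit 407900403699648544)) (.cons (.br (nat_lit 12) (nat_lit 1) (.cons (.rf (nat_lit 616) (nat_lit 13052813125655562272)) .nil)) .nil))),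
 (.br (nat_lit 8) (nat_lit 1) (.cons (.ev (nat_lit 18519084242235818241) (nat_lit 1)) .nil)),
 (.br (nat_lit 7) (nat_lit 1) (.cons (.br (nat_lit 4) (nat_lit 0) (.cons (.br (nat_lit 8) (nat_lit 1) (.cons (.rf (nat_lit 486) (nat_lit 374122308054420512)) (.cons (.br (nat_lit 10) (nat_lit 0) (.cons (.rf (nat_lit 437) (nat_lit 407831168826805280)) (.cons (.ev (nat_lit 1208944266641277372661761) (nat_lit 1)) .nil))) .nil))) (.cons (.rf (nat_lit 582) (nat_lit 443894050706262048)) (.cons (.br (nat_lit 9) (nat_lit 1) (.cons (.ev (nat_lit 4722366764348916957441) (nat_lit 1)) (.cons (.rf (nat_lit 627) (nat_lit 445092449661061152)) .nil))) .nil)))) (.cons (.br (nat_lit 4) (nat_lit 0) (.cons (.br (nat_lit 8) (nat_lit 1) (.cons (.br (nat_lit 9) (nat_lit 1) (.cons (.ev (nat_lit 1208925891954797700972801) (nat_lit 1)) (.cons (.br (nat_lit 10) (nat_lit 0) (.cons (.br (nat_lit 11) (nat_lit 0) (.cons (.ev (nat_lit 310703491342622484737492740) (nat_lit 3)) .nil)) .nil)) .nil)))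 (.cons (.br (nat_lit 9) (nat_lit 1) (.cons (.br (nat_lit 10) (nat_lit 0) (.cons (.br (nat_lit 11) (nat_lit 0) (.cons (.ev (nat_lit 158457538676786833591365599232) (nat_lit 2)) .nil)) .nil)) (.cons (.rf (nat_lit 440) (nat_lit 407901468849474592)) .nil))) .nil))) (.cons (.rf (nat_lit 619) (nat_lit 372889755652787328)) (.cons (.br (nat_lit 9) (nat_lit 1) (.cons (.ev (nat_lit 4722366764348916957441) (nat_lit 1)) (.cons (.br (nat_lit 8) (nat_lit 1) (.cons (.rf (nat_lit 628) (nat_lit 14242959524133701664)) (.cons (.br (nat_lit 8) (nat_lit 1) (.cons (.ev (nat_lit 18519084242235818241) (nat_lit 1)) .nil)) .nil))) .nil))) .nil)))) .nil))),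
 (.br (nat_lit 8) (nat_lit 1) (.cons (.br (nat_lit 4) (nat_lit 0) (.cons (.rf (nat_lit 558) (nat_lit 372961120831538240)) (.cons (.br (nat_lit 9) (nat_lit 1) (.cons (.rf (nat_lit 627) (nat_lit 445092484020799520)) .nil)) .nil))) (.cons (.ev (nat_lit 18519084242235818241) (nat_lit 1)) .nil))),
 (.br (nat_lit 8) (nat_lit 1) (.cons (.br (nat_lit 11) (nat_lit 0) (.cons (.kr (nat_lit 309485009821345073019748608) (nat_lit 1208925819614629191548928) (nat_lit 1) (nat_lit 0)) .nil)) .nil))]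

theorem c15 : chkAll C T R L15 (nat_lit 599) = true := by decide +kernel

theorem l15 : (nat_lit 599) + L15.length = (nat_lit 632) := by decide +kernel

/-- part of the certificates -/
def L16 : List Prf := [(.br (nat_lit 4) (nat_lit 0) (.cons (.rf (nat_lit 630) (nat_lit 14242959524133701664)) (.cons (.br (nat_lit 10) (nat_lit 0) (.cons (.rf (nat_lit 631) (nat_lit 14242959524133701664)) (.cons (.ev (nat_lit 158457543399297993495267050240) (nat_lit 2)) .nil))) .nil))),
 (.br (nat_lit 7) (nat_lit 1) (.cons (.rf (nat_lit 629) (nat_lit 14242959524133701664)) (.cons (.br (nat_lit 4) (nat_lit 0) (.cons (.rf (nat_lit 630) (nat_lit 14242959524133701664)) (.cons (.rf (nat_lit 632) (nat_lit 14242959524133701664)) (.cons (.br (nat_lit 4) (nat_lit 0) (.cons (.rf (nat_lit 630) (nat_lit 14242959524133701664)) (.cons (.rf (nat_lit 632) (nat_lit 14242959524133701664)) .nil))) .nil)))) .nil))),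
 (.br (nat_lit 2) (nat_lit 0) (.cons (.rf (nat_lit 598) (nat_lit 407901468851537952)) (.cons (.rf (nat_lit 619) (nat_lit 407901468851537952)) (.cons (.br (nat_lit 3) (nat_lit 0) (.cons (.br (nat_lit 7) (nat_lit 1) (.cons (.rf (nat_lit 515) (nat_lit 288386889846880)) (.cons (.rf (nat_lit 608) (nat_lit 14242925405987178592)) (.cons (.br (nat_lit 4) (nat_lit 0) (.cons (.rf (nat_lit 620) (nat_lit 14208022508872962144)) (.cons (.rf (nat_lit 619) (nat_lit 372964453590798432)) (.cons (.rf (nat_lit 620) (nat_lit 14242959524133701664)) .nil)))) .nil)))) (.cons (.br (nat_lit 8) (nat_lit 1) (.cons (.rf (nat_lit 515) (nat_lit 252104113426528)) (.cons (.br (nat_lit 4) (nat_lit 0) (.cons (.rf (nat_lit 621) (nat_lit 14242959524133701664)) (.cons (.rf (nat_lit 606) (nat_lit 14242890289260890144)) (.cons (.br (nat_lit 4) (nat_lit 0) (.cons (.rf (nat_lit 621) (nat_lit 14242959524133701664)) (.cons (.rf (nat_lit 605) (nat_lit 443861030997690400)) .nil))) .nil)))) (.cons (.br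 (nat_lit 4) (nat_lit 0) (.cons (.rf (nat_lit 622) (nat_lit 14242959524133701664)) (.cons (.rf (nat_lit 575) (nat_lit 14242889224109000736)) (.cons (.br (nat_lit 4) (nat_lit 0) (.cons (.rf (nat_lit 622) (nat_lit 14242959524133701664)) (.cons (.rf (nat_lit 574) (nat_lit 14242889224109000736)) .nil))) .nil)))) .nil)))) (.cons (.br (nat_lit 4) (nat_lit 0) (.cons (.br (nat_lit 4) (nat_lit 0) (.cons (.rf (nat_lit 624) (nat_lit 14242959524133701664)) (.cons (.rf (nat_lit 626) (nat_lit 443930265870501920)) .nil))) (.cons (.br (nat_lit 4) (nat_lit 0) (.cons (.rf (nat_lit 624) (nat_lit 14242959524133701664)) (.cons (.ev (nat_lit 4722366483973451874561) (nat_lit 1)) .nil))) (.cons (.br (nat_lit 4) (nat_lit 0) (.cons (.rf (nat_lit 626) (nat_lit 443930265870501920)) (.cons (.ev (nat_lit 4722366483973451874561) (nat_lit 1)) .nil))) .nil)))) (.cons (.br (nat_lit 7) (nat_lit 1) (.cons (.rf (nat_lit 629) (nat_lit 14242959524133701664)) (.cons (.rf (nat_lit 633) (nat_lit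 14242959524133701664)) (.cons (.br (nat_lit 7) (nat_lit 1) (.cons (.rf (nat_lit 629) (nat_lit 14242959524133701664)) (.cons (.rf (nat_lit 633) (nat_lit 14242959524133701664)) .nil))) .nil)))) .nil))))) .nil)))),
 (.br (nat_lit 6) (nat_lit 1) (.cons (.rf (nat_lit 515) (nat_lit 324636382431264)) (.cons (.br (nat_lit 2) (nat_lit 0) (.cons (.rf (nat_lit 533) (nat_lit 325702574508064)) (.cons (.rf (nat_lit 533) (nat_lit 324636382431264)) (.cons (.rf (nat_lit 534) (nat_lit 325702574508064)) (.cons (.br (nat_lit 2) (nat_lit 0) (.cons (.rf (nat_lit 533) (nat_lit 325702574508064)) (.cons (.rf (nat_lit 533) (nat_lit 324636382431264)) (.cons (.rf (nat_lit 534) (nat_lit 325702574508064)) .nil)))) .nil))))) (.cons (.rf (nat_lit 556) (nat_lit 325702574508064)) (.cons (.br (nat_lit 10) (nat_lit 1) (.cons (.br (nat_lit 2) (nat_lit 0) (.cons (.rf (nat_lit 598) (nat_lit 407901468851537952)) (.cons (.rf (nat_lit 619) (nat_lit 407901468851537952)) (.cons (.rf (nat_lit 634)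 (nat_lit 407901468851537952)) (.cons (.br (nat_lit 2) (nat_lit 0) (.cons (.rf (nat_lit 598) (nat_lit 407901468851537952)) (.cons (.rf (nat_lit 619) (nat_lit 407901468851537952)) (.cons (.rf (nat_lit 634) (nat_lit 407901468851537952)) .nil)))) .nil))))) .nil)) .nil))))),
 (.br (nat_lit 7) (nat_lit 1) (.cons (.kr (nat_lit 4294967552) (nat_lit 16842752) (nat_lit 1) (nat_lit 0)) (.cons (.br (nat_lit 10) (nat_lit 1) (.cons (.br (nat_lit 4) (nat_lit 0) (.cons (.rf (nat_lit 518) (nat_lit 407900337127655456)) (.cons (.rf (nat_lit 519) (nat_lit 443929134146619424)) .nil))) .nil)) .nil))),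
 (.br (nat_lit 2) (nat_lit 0) (.cons (.rf (nat_lit 636) (nat_lit 325702574508064)) (.cons (.rf (nat_lit 636) (nat_lit 252104115587104)) (.cons (.br (nat_lit 4) (nat_lit 0) (.cons (.rf (nat_lit 636) (nat_lit 325702572347488)) (.cons (.rf (nat_lit 636) (nat_lit 252104113426528)) (.cons (.kr (nat_lit 4294967552) (nat_lit 16842752) (nat_lit 1) (nat_lit 0)) .nil)))) .nil)))),
 (.br (nat_lit 10) (nat_lit 0) (.cons (.ev (nat_lit 1213666633123047522959361) (nat_lit 1)) .nil)),
 (.br (nat_lit 8) (nat_lit 1) (.cons (.rf (nat_lit 515) (nat_lit 252104115587104)) (.cons (.rf (nat_lit 637) (nat_lit 325702574508064)) (.cons (.rf (nat_lit 635) (nat_lit 252104113425536)) (.cons (.br (nat_lit 10) (nat_lit 1) (.cons (.br (nat_lit 3) (nat_lit 0) (.cons (.rf (nat_lit 635) (nat_lit 291584425889888)) (.cons (.br (nat_lit 2) (nat_lit 0) (.cons (.br (nat_lit 4) (nat_lit 0) (.cons (.rf (nat_lit 636) (nat_lit 324636381414464)) (.cons (.zr (nat_lit 282574538670080) (nat_lit 4722366482878235148289)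 (nat_lit 5) (nat_lit 5)) (.cons (.rf (nat_lit 567) (nat_lit 14242925371660043328)) .nil)))) (.cons (.rf (nat_lit 352) (nat_lit 407865153829274720)) (.cons (.br (nat_lit 4) (nat_lit 0) (.cons (.rf (nat_lit 567) (nat_lit 14242925371659977856)) (.cons (.zr (nat_lit 282574538670080) (nat_lit 4722366482878235148289) (nat_lit 5) (nat_lit 5)) (.cons (.rf (nat_lit 612) (nat_lit 14242957327257929760)) .nil)))) .nil)))) (.cons (.br (nat_lit 2) (nat_lit 0) (.cons (.br (nat_lit 4) (nat_lit 0) (.cons (.rf (nat_lit 636) (nat_lit 324636381414464)) (.cons (.rf (nat_lit 567) (nat_lit 14242890222688897056)) (.cons (.rf (nat_lit 568) (nat_lit 14242890222688897056)) .nil)))) (.cons (.br (nat_lit 4) (nat_lit 0) (.cons (.rf (nat_lit 567) (nat_lit 14242958392409819168)) (.cons (.rf (nat_lit 520) (nat_lit 255268364616768)) (.cons (.br (nat_lit 9) (nat_lit 1) (.cons (.ev (nat_lit 4740813509522154848513) (nat_lit 1)) (.cons (.rf (nat_lit 562) (nat_lit 14242890222688897056)) .nil)))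 .nil)))) (.cons (.br (nat_lit 4) (nat_lit 0) (.cons (.rf (nat_lit 585) (nat_lit 14242890222688897056)) (.cons (.br (nat_lit 9) (nat_lit 1) (.cons (.rf (nat_lit 582) (nat_lit 443860964425697312)) (.cons (.br (nat_lit 7) (nat_lit 1) (.cons (.rf (nat_lit 638) (nat_lit 14242959524133701664)) (.cons (.br (nat_lit 7) (nat_lit 1) (.cons (.rf (nat_lit 638) (nat_lit 14242959524133701664)) .nil)) .nil))) .nil))) (.cons (.rf (nat_lit 587) (nat_lit 14242890222688897056)) .nil)))) .nil)))) .nil)))) .nil)) .nil))))),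
 (.br (nat_lit 4) (nat_lit 0) (.cons (.rf (nat_lit 485) (nat_lit 12745785921834016)) (.cons (.br (nat_lit 3) (nat_lit 0) (.cons (.rf (nat_lit 524) (nat_lit 407900337127655456)) (.cons (.rf (nat_lit 515) (nat_lit 216886488895584)) (.cons (.br (nat_lit 8) (nat_lit 1) (.cons (.rf (nat_lit 486) (nat_lit 374124471646227488)) (.cons (.br (nat_lit 9) (nat_lit 1) (.cons (.ev (nat_lit 1213666705181741055738113) (nat_lit 1)) (.cons (.br (nat_lit 10) (nat_lit 0) (.cons (.zr (nat_lit 74075206683874885632) (nat_lit 3631499825609331657671170) (nat_lit 10) (nat_lit 9)) .nil)) .nil))) .nil))) .nil)))) .nil))),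
 (.br (nat_lit 4) (nat_lit 0) (.cons (.rf (nat_lit 528) (nat_lit 370679669504182304)) (.cons (.br (nat_lit 4) (nat_lit 0) (.cons (.rf (nat_lit 528) (nat_lit 370680769015810080)) .nil)) .nil))),
 (.br (nat_lit 4) (nat_lit 0) (.cons (.rf (nat_lit 536) (nat_lit 407832167406733344)) (.cons (.rf (nat_lit 536) (nat_lit 407831068968781920)) (.cons (.rf (nat_lit 472) (nat_lit 14242959524133669920)) .nil)))),
 (.br (nat_lit 9) (nat_lit 1) (.cons (.br (nat_lit 10) (nat_lit 0) (.cons (.br (nat_lit 11) (nat_lit 0) (.cons (.ev (nat_lit 79229371458530697395939901696) (nat_lit 1)) .nil)) .nil)) .nil)),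
 (.br (nat_lit 4) (nat_lit 0) (.cons (.rf (nat_lit 635) (nat_lit 183834534513792)) (.cons (.br (nat_lit 9) (nat_lit 1) (.cons (.rf (nat_lit 643) (nat_lit 14242959524133701664)) (.cons (.br (nat_lit 9) (nat_lit 1) (.cons (.rf (nat_lit 643) (nat_lit 14242959524133701664)) .nil)) .nil))) .nil))),
 (.br (nat_lit 8) (nat_lit 1) (.cons (.rf (nat_lit 635) (nat_lit 183834534513792)) (.cons (.rf (nat_lit 569) (nat_lit 14242890222688897056)) (.cons (.rf (nat_lit 569) (nat_lit 14207952175564425248)) .nil)))),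
 (.br (nat_lit 7) (nat_lit 1) (.cons (.rf (nat_lit 635) (nat_lit 291584425889888)) (.cons (.rf (nat_lit 639) (nat_lit 288386890990656)) (.cons (.br (nat_lit 4) (nat_lit 0) (.cons (.rf (nat_lit 485) (nat_lit 12745785921834016)) (.cons (.rf (nat_lit 640) (nat_lit 407901468851537952)) (.cons (.br (nat_lit 4) (nat_lit 0) (.cons (.rf (nat_lit 485) (nat_lit 12745785921834016)) (.cons (.rf (nat_lit 640) (nat_lit 407901468851537952)) .nil))) .nil)))) (.cons (.br (nat_lit 3) (nat_lit 0) (.cons (.rf (nat_lit 641) (nat_lit 12745785921865760)) (.cons (.rf (nat_lit 642) (nat_lit 407901468851537952)) (.cons (.br (nat_lit 4) (nat_lit 0) (.cons (.rf (nat_lit 644) (nat_lit 14242959524133701664)) (.cons (.rf (nat_lit 645) (nat_lit 14242959524133701664)) (.cons (.br (nat_lit 4) (nat_lit 0) (.cons (.rf (nat_lit 644) (nat_lit 14242959524133701664)) (.cons (.rf (nat_lit 645) (nat_lit 14242959524133701664)) .nil))) .nil)))) .nil)))) .nil))))),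
 (.br (nat_lit 4) (nat_lit 0) (.cons (.rf (nat_lit 635) (nat_lit 216886487878784)) (.cons (.br (nat_lit 7) (nat_lit 1) (.cons (.br (nat_lit 9) (nat_lit 1) (.cons (.ev (nat_lit 1213666705181741055738113) (nat_lit 1)) (.cons (.rf (nat_lit 569) (nat_lit 14207950045260646432)) .nil))) (.cons (.zr (nat_lit 72058693583110400) (nat_lit 18446744082299486209) (nat_lit 5) (nat_lit 5)) .nil))) .nil))),
 (.br (nat_lit 3) (nat_lit 0) (.cons (.rf (nat_lit 635) (nat_lit 291584425889888)) (.cons (.rf (nat_lit 646) (nat_lit 407827870392616992)) (.cons (.br (nat_lit 8) (nat_lit 1) (.cons (.rf (nat_lit 639) (nat_lit 182768344597568)) (.cons (.ev (nat_lit 18447025548703039489) (nat_lit 1)) (.cons (.rf (nat_lit 341) (nat_lit 12745754783319136)) .nil)))) (.cons (.br (nat_lit 8) (nat_lit 1) (.cons (.rf (nat_lit 646) (nat_lit 407827870391601184)) (.cons (.br (nat_lit 4) (nat_lit 0) (.cons (.rf (nat_lit 569) (nat_lit 14242958392409819168)) (.cons (.br (nat_lit 4) (nat_lit 0) (.cons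 (.rf (nat_lit 635) (nat_lit 216886487878784)) (.cons (.rf (nat_lit 582) (nat_lit 443857768967933984)) .nil))) (.cons (.br (nat_lit 4) (nat_lit 0) (.cons (.rf (nat_lit 569) (nat_lit 14242958392409819168)) (.cons (.rf (nat_lit 582) (nat_lit 443857768967933984)) .nil))) .nil)))) (.cons (.br (nat_lit 4) (nat_lit 0) (.cons (.rf (nat_lit 647) (nat_lit 14242959524133701664)) (.cons (.rf (nat_lit 563) (nat_lit 14207984130121107488)) (.cons (.br (nat_lit 4) (nat_lit 0) (.cons (.rf (nat_lit 647) (nat_lit 14242959524133701664)) (.cons (.rf (nat_lit 562) (nat_lit 14207984130121107488)) .nil))) .nil)))) .nil)))) .nil))))),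
 (.br (nat_lit 9) (nat_lit 1) (.cons (.rf (nat_lit 641) (nat_lit 11655140178235424)) (.cons (.rf (nat_lit 524) (nat_lit 372894120280166432)) .nil))),
 (.br (nat_lit 4) (nat_lit 0) (.cons (.br (nat_lit 7) (nat_lit 1) (.cons (.rf (nat_lit 649) (nat_lit 14208056627021580320)) (.cons (.rf (nat_lit 649) (nat_lit 14242959524133701664)) .nil))) (.cons (.rf (nat_lit 532) (nat_lit 14242890222688897056)) .nil))),
 (.br (nat_lit 4) (nat_lit 0) (.cons (.rf (nat_lit 515) (nat_lit 216886488895584)) (.cons (.br (nat_lit 9) (nat_lit 1) (.cons (.rf (nat_lit 576) (nat_lit 14207987325576775712)) (.cons (.br (nat_lit 7) (nat_lit 1) (.cons (.br (nat_lit 10) (nat_lit 0) (.cons (.br (nat_lit 11) (nat_lit 0) (.cons (.ev (nat_lit 158458747658091073801908519680) (nat_lit 2)) .nil)) .nil)) (.cons (.ev (nat_lit 4722438540463683141889) (nat_lit 1)) .nil))) .nil))) .nil))),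
 (.br (nat_lit 8) (nat_lit 1) (.cons (.br (nat_lit 4) (nat_lit 0) (.cons (.br (nat_lit 7) (nat_lit 1) (.cons (.rf (nat_lit 648) (nat_lit 407867350702919776)) (.cons (.rf (nat_lit 648) (nat_lit 372964453590798432)) .nil))) (.cons (.rf (nat_lit 515) (nat_lit 216886488895584)) (.cons (.rf (nat_lit 542) (nat_lit 13056259887476115488)) .nil)))) (.cons (.ev (nat_lit 18447025548703039489) (nat_lit 1)) (.cons (.br (nat_lit 4) (nat_lit 0) (.cons (.rf (nat_lit 651) (nat_lit 14242959524133701664)) (.cons (.rf (nat_lit 515) (nat_lit 216886488895584)) (.cons (.br (nat_lit 4) (nat_lit 0) (.cons (.rf (nat_lit 651) (nat_lit 14242959524133701664)) (.cons (.rf (nat_lit 515) (nat_lit 216886488895584)) .nil))) .nil)))) .nil)))),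
 (.br (nat_lit 7) (nat_lit 1) (.cons (.br (nat_lit 4) (nat_lit 0) (.cons (.rf (nat_lit 625) (nat_lit 443790594706279552)) (.cons (.br (nat_lit 8) (nat_lit 1) (.cons (.rf (nat_lit 588) (nat_lit 443929134146619424)) (.cons (.br (nat_lit 9) (nat_lit 1) (.cons (.ev (nat_lit 1213666632842676352909313) (nat_lit 1)) (.cons (.br (nat_lit 10) (nat_lit 0) (.cons (.br (nat_lit 11) (nat_lit 0) (.cons (.ev (nat_lit 158771873631133909693631890690) (nat_lit 3)) .nil)) .nil)) .nil))) .nil))) (.cons (.br (nat_lit 8) (nat_lit 1) (.cons (.zr (nat_lit 72058693583110400) (nat_lit 18446744082299486209) (nat_lit 5) (nat_lit 5)) (.cons (.rf (nat_lit 597) (nat_lit 14207987325576775712)) .nil))) .nil)))) (.cons (.br (nat_lit 4) (nat_lit 0) (.cons (.rf (nat_lit 542) (nat_lit 13056191720876771360)) (.cons (.br (nat_lit 8) (nat_lit 1) (.cons (.br (nat_lit 10) (nat_lit 0) (.cons (.ev (nat_lit 1218370769035733707587586) (nat_lit 2)) (.cons (.ev (nat_lit 1208944338417396433879041) (nat_lit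 1)) .nil))) (.cons (.br (nat_lit 9) (nat_lit 1) (.cons (.br (nat_lit 10) (nat_lit 0) (.cons (.br (nat_lit 11) (nat_lit 0) (.cons (.ev (nat_lit 79229371458602753894761103616) (nat_lit 1)) .nil)) .nil)) (.cons (.rf (nat_lit 445) (nat_lit 372996374861581344)) .nil))) .nil))) (.cons (.br (nat_lit 8) (nat_lit 1) (.cons (.rf (nat_lit 592) (nat_lit 14242890222688897056)) (.cons (.zr (nat_lit 72058693583110400) (nat_lit 18446744082299486209) (nat_lit 5) (nat_lit 5)) .nil))) .nil)))) .nil))),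
 (.br (nat_lit 9) (nat_lit 1) (.cons (.kr (nat_lit 4722366482869661990912) (nat_lit 72057598332895232) (nat_lit 3) (nat_lit 0)) .nil)),
 (.br (nat_lit 4) (nat_lit 0) (.cons (.br (nat_lit 11) (nat_lit 0) (.cons (.rf (nat_lit 627) (nat_lit 443998506458384416)) (.cons (.ev (nat_lit 79537647542604484330033053696) (nat_lit 1)) .nil))) .nil)),
 (.br (nat_lit 7) (nat_lit 1) (.cons (.rf (nat_lit 653) (nat_lit 14242959524133701664)) (.cons (.br (nat_lit 8) (nat_lit 1) (.cons (.br (nat_lit 4) (nat_lit 0) (.cons (.rf (nat_lit 635) (nat_lit 183834534513792)) (.cons (.br (nat_lit 11) (nat_lit 0) (.cons (.rf (nat_lit 654) (nat_lit 14242959524133701664)) (.cons (.zr (nat_lit 79228162532711364276101580032) (nat_lit 72057594138787844) (nat_lit 15) (nat_lit 8)) .nil))) .nil))) (.cons (.ev (nat_lit 1208944338697771915739393) (nat_lit 1)) (.cons (.br (nat_lit 4) (nat_lit 0) (.cons (.rf (nat_lit 655) (nat_lit 14242959524133701664)) (.cons (.br (nat_lit 4) (nat_lit 0) (.cons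 (.rf (nat_lit 655) (nat_lit 14242959524133701664)) .nil)) .nil))) .nil)))) .nil))),
 (.br (nat_lit 6) (nat_lit 1) (.cons (.rf (nat_lit 635) (nat_lit 325702572347488)) (.cons (.rf (nat_lit 639) (nat_lit 325702574508064)) (.cons (.br (nat_lit 10) (nat_lit 1) (.cons (.br (nat_lit 2) (nat_lit 0) (.cons (.rf (nat_lit 646) (nat_lit 407901468851537952)) (.cons (.rf (nat_lit 515) (nat_lit 252104115587104)) (.cons (.rf (nat_lit 648) (nat_lit 407901468851537952)) (.cons (.br (nat_lit 3) (nat_lit 0) (.cons (.rf (nat_lit 635) (nat_lit 291584425889888)) (.cons (.br (nat_lit 4) (nat_lit 0) (.cons (.rf (nat_lit 650) (nat_lit 14242959524133701664)) (.cons (.rf (nat_lit 650) (nat_lit 14242889224109000736)) (.cons (.br (nat_lit 4) (nat_lit 0) (.cons (.rf (nat_lit 532) (nat_lit 14242890222688897056)) (.cons (.rf (nat_lit 532) (nat_lit 14242958392409819168)) .nil))) .nil)))) (.cons (.rf (nat_lit 652) (nat_lit 14242959524133701664)) (.cons (.br (nat_lit 7) (nat_lit 1) (.cons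 (.rf (nat_lit 653) (nat_lit 14242959524133701664)) (.cons (.rf (nat_lit 656) (nat_lit 14242959524133701664)) (.cons (.br (nat_lit 7) (nat_lit 1) (.cons (.rf (nat_lit 653) (nat_lit 14242959524133701664)) (.cons (.rf (nat_lit 656) (nat_lit 14242959524133701664)) .nil))) .nil)))) .nil))))) .nil))))) .nil)) .nil)))),
 (.br (nat_lit 2) (nat_lit 0) (.cons (.rf (nat_lit 635) (nat_lit 216886491055168)) (.cons (.br (nat_lit 9) (nat_lit 1) (.cons (.ev (nat_lit 4722366764348933734401) (nat_lit 1)) (.cons (.rf (nat_lit 576) (nat_lit 14207986227136729184)) .nil))) .nil))),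
 (.br (nat_lit 2) (nat_lit 0) (.cons (.rf (nat_lit 635) (nat_lit 216886491055168)) (.cons (.rf (nat_lit 515) (nat_lit 252104115587104)) (.cons (.ev (nat_lit 4722366483973451874561) (nat_lit 1)) .nil)))),
 (.br (nat_lit 2) (nat_lit 0) (.cons (.rf (nat_lit 635) (nat_lit 216886491055168)) (.cons (.br (nat_lit 7) (nat_lit 1) (.cons (.br (nat_lit 9) (nat_lit 1) (.cons (.ev (nat_lit 4722366764348933734401) (nat_lit 1)) (.cons (.br (nat_lit 10) (nat_lit 0) (.cons (.br (nat_lit 11) (nat_lit 0) (.cons (.ev (nat_lit 158458747657947521555229573376) (nat_lit 2)) .nil)) .nil)) .nil))) (.cons (.ev (nat_lit 18518801672042512641) (nat_lit 1)) .nil))) .nil)))]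

theorem c16 : chkAll C T R L16 (nat_lit 632) = true := by decide +kernel

theorem l16 : (nat_lit 632) + L16.length = (nat_lit 661) := by decide +kernel

/-- part of the certificates -/
def L17 : List Prf := [(.br (nat_lit 2) (nat_lit 0) (.cons (.br (nat_lit 4) (nat_lit 0) (.cons (.rf (nat_lit 635) (nat_lit 220084026082368)) (.cons (.rf (nat_lit 635) (nat_lit 216886490039360)) (.cons (.br (nat_lit 7) (nat_lit 1) (.cons (.rf (nat_lit 588) (nat_lit 443929134144524320)) (.cons (.br (nat_lit 9) (nat_lit 1) (.cons (.rf (nat_lit 437) (nat_lit 407794887090572320)) (.cons (.br (nat_lit 10) (nat_lit 0) (.cons (.zr (nat_lit 1218370553145517458849792) (nat_lit 55556405011832373761) (nat_lit 5) (nat_lit 7)) .nil)) .nil))) .nil))) .nil)))) (.cons (.br (nat_lit 4) (nat_lit 0) (.cons (.rf (nat_lit 657) (nat_lit 288386888830080)) (.cons (.br (nat_lit 10) (nat_lit 0) (.cons (.rf (nat_lit 588) (nat_lit 443928068994730016)) (.cons (.rf (nat_lit 486) (nat_lit 374054171619494944))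 (.cons (.rf (nat_lit 73) (nat_lit 408006990828275744)) .nil)))) (.cons (.br (nat_lit 7) (nat_lit 1) (.cons (.ev (nat_lit 18518801672042512641) (nat_lit 1)) (.cons (.rf (nat_lit 627) (nat_lit 445090218425550880)) .nil))) .nil)))) .nil))),
 (.br (nat_lit 2) (nat_lit 0) (.cons (.rf (nat_lit 661) (nat_lit 14242959524133701664)) (.cons (.br (nat_lit 4) (nat_lit 0) (.cons (.br (nat_lit 7) (nat_lit 1) (.cons (.rf (nat_lit 486) (nat_lit 374124471644195872)) (.cons (.br (nat_lit 9) (nat_lit 1) (.cons (.ev (nat_lit 4740813226947649732609) (nat_lit 1)) (.cons (.ev (nat_lit 4740885566012386246913) (nat_lit 1)) .nil))) .nil))) (.cons (.rf (nat_lit 582) (nat_lit 443857768970029088)) (.cons (.br (nat_lit 9) (nat_lit 1) (.cons (.rf (nat_lit 589) (nat_lit 443857768970029088)) (.cons (.rf (nat_lit 627) (nat_lit 445092417448806432)) .nil))) .nil)))) .nil))),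
 (.br (nat_lit 2) (nat_lit 0) (.cons (.br (nat_lit 4) (nat_lit 0) (.cons (.rf (nat_lit 635) (nat_lit 220084026082368)) (.cons (.rf (nat_lit 635) (nat_lit 216886490039360)) (.cons (.br (nat_lit 7) (nat_lit 1) (.cons (.br (nat_lit 9) (nat_lit 1) (.cons (.ev (nat_lit 1213666705181741055738113) (nat_lit 1)) (.cons (.rf (nat_lit 569) (nat_lit 14207984130121107488)) .nil))) (.cons (.rf (nat_lit 569) (nat_lit 14208054430145808416)) .nil))) .nil)))) (.cons (.br (nat_lit 4) (nat_lit 0) (.cons (.rf (nat_lit 657) (nat_lit 288386888830080)) (.cons (.br (nat_lit 7) (nat_lit 1) (.cons (.br (nat_lit 9) (nat_lit 1) (.cons (.ev (nat_lit 1213666632842676352909313) (nat_lit 1)) (.cons (.br (nat_lit 10) (nat_lit 0) (.cons (.ev (nat_lit 1223092991684881630233346) (nat_lit 2)) .nil)) .nil))) (.cons (.br (nat_lit 11) (nat_lit 0) (.cons (.ev (nat_lit 309494454627213926511870466) (nat_lit 2)) (.cons (.ev (nat_lit 309485028268371721234415873) (nat_lit 1)) .nil))) .nil))) (.cons (.br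 (nat_lit 7) (nat_lit 1) (.cons (.br (nat_lit 9) (nat_lit 1) (.cons (.br (nat_lit 9) (nat_lit 1) (.cons (.ev (nat_lit 4740813509522154848513) (nat_lit 1)) .nil)) (.cons (.br (nat_lit 9) (nat_lit 1) (.cons (.ev (nat_lit 4740813509522154848513) (nat_lit 1)) .nil)) .nil))) (.cons (.ev (nat_lit 18518801672042512641) (nat_lit 1)) .nil))) .nil)))) .nil))),
 (.br (nat_lit 7) (nat_lit 1) (.cons (.ev (nat_lit 18519084246547628033) (nat_lit 1)) .nil)),
 (.br (nat_lit 7) (nat_lit 1) (.cons (.br (nat_lit 9) (nat_lit 1) (.cons (.kr (nat_lit 1208925819614629191483392) (nat_lit 72057598332895232) (nat_lit 3) (nat_lit 0)) (.cons (.ev (nat_lit 309485028268371721234415873) (nat_lit 1)) .nil))) .nil)),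
 (.br (nat_lit 2) (nat_lit 0) (.cons (.rf (nat_lit 663) (nat_lit 14242959524133701664)) (.cons (.br (nat_lit 4) (nat_lit 0) (.cons (.br (nat_lit 9) (nat_lit 1) (.cons (.br (nat_lit 7) (nat_lit 1) (.cons (.rf (nat_lit 440) (nat_lit 372997440013470752)) (.cons (.ev (nat_lit 4740885566012386246913) (nat_lit 1)) .nil))) (.cons (.ev (nat_lit 4740813226947649732609) (nat_lit 1)) .nil))) (.cons (.br (nat_lit 7) (nat_lit 1) (.cons (.rf (nat_lit 664) (nat_lit 14242959524133701664)) (.cons (.rf (nat_lit 664) (nat_lit 14207913692788493440)) .nil))) (.cons (.br (nat_lit 7) (nat_lit 1) (.cons (.rf (nat_lit 665) (nat_lit 14242959524133701664)) (.cons (.br (nat_lit 7) (nat_lit 1) (.cons (.rf (nat_lit 665) (nat_lit 14242959524133701664)) .nil)) .nil))) .nil)))) .nil))),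
 (.br (nat_lit 6) (nat_lit 1) (.cons (.rf (nat_lit 657) (nat_lit 325702574508064)) (.cons (.rf (nat_lit 515) (nat_lit 324636380270688)) (.cons (.br (nat_lit 10) (nat_lit 1) (.cons (.br (nat_lit 3) (nat_lit 0) (.cons (.rf (nat_lit 635) (nat_lit 291584425889888)) (.cons (.rf (nat_lit 657) (nat_lit 325702572347488)) (.cons (.br (nat_lit 4) (nat_lit 0) (.cons (.rf (nat_lit 657) (nat_lit 291584425889888)) (.cons (.rf (nat_lit 635) (nat_lit 252104113425536)) (.cons (.rf (nat_lit 515) (nat_lit 216886488895584)) (.cons (.br (nat_lit 8) (nat_lit 1) (.cons (.rf (nat_lit 515) (nat_lit 252104115587104)) (.cons (.br (nat_lit 2) (nat_lit 0) (.cons (.rf (nat_lit 658) (nat_lit 14242959524133701664)) (.cons (.rf (nat_lit 659) (nat_lit 443930265870501920)) (.cons (.br (nat_lit 2) (nat_lit 0) (.cons (.rf (nat_lit 658) (nat_lit 14242959524133701664)) (.cons (.ev (nat_lit 4722366483973451874561) (nat_lit 1)) .nil))) .nil)))) (.cons (.br (nat_lit 2) (nat_lit 0) (.cons (.rf (nat_lit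 660) (nat_lit 14242959524133701664)) (.cons (.rf (nat_lit 659) (nat_lit 443930265870501920)) (.cons (.br (nat_lit 2) (nat_lit 0) (.cons (.rf (nat_lit 660) (nat_lit 14242959524133701664)) (.cons (.ev (nat_lit 4722366483973451874561) (nat_lit 1)) .nil))) .nil)))) .nil)))) .nil))))) (.cons (.br (nat_lit 8) (nat_lit 1) (.cons (.rf (nat_lit 515) (nat_lit 252104115587104)) (.cons (.rf (nat_lit 635) (nat_lit 252104113425536)) (.cons (.br (nat_lit 2) (nat_lit 0) (.cons (.rf (nat_lit 661) (nat_lit 14242959524133701664)) (.cons (.rf (nat_lit 662) (nat_lit 14242959524133701664)) (.cons (.br (nat_lit 2) (nat_lit 0) (.cons (.rf (nat_lit 661) (nat_lit 14242959524133701664)) (.cons (.rf (nat_lit 662) (nat_lit 14242959524133701664)) .nil))) .nil)))) (.cons (.br (nat_lit 2) (nat_lit 0) (.cons (.rf (nat_lit 663) (nat_lit 14242959524133701664)) (.cons (.rf (nat_lit 666) (nat_lit 14242959524133701664)) (.cons (.br (nat_lit 2) (nat_lit 0) (.cons (.rf (nat_lit 663) (nat_lit 14242959524133701664))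 (.cons (.rf (nat_lit 666) (nat_lit 14242959524133701664)) .nil))) .nil)))) .nil))))) .nil))))) .nil)) .nil)))),
 (.br (nat_lit 9) (nat_lit 1) (.cons (.rf (nat_lit 635) (nat_lit 216886490039360)) (.cons (.kr (nat_lit 1208925819614629174706432) (nat_lit 281474976776192) (nat_lit 1) (nat_lit 0)) (.cons (.br (nat_lit 4) (nat_lit 0) (.cons (.br (nat_lit 4) (nat_lit 0) (.cons (.ev (nat_lit 18446745177532989441) (nat_lit 1)) .nil)) (.cons (.br (nat_lit 4) (nat_lit 0) (.cons (.ev (nat_lit 18446745177532989441) (nat_lit 1)) .nil)) .nil))) .nil)))),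
 (.br (nat_lit 7) (nat_lit 1) (.cons (.rf (nat_lit 532) (nat_lit 14242957327257929760)) (.cons (.rf (nat_lit 532) (nat_lit 14208054430145808416)) .nil))),
 (.br (nat_lit 10) (nat_lit 0) (.cons (.ev (nat_lit 1208944266641277372661761) (nat_lit 1)) .nil)),
 (.br (nat_lit 10) (nat_lit 0) (.cons (.rf (nat_lit 631) (nat_lit 14242890222688897056)) (.cons (.ev (nat_lit 79228162532783140365114867968) (nat_lit 1)) .nil))),
 (.br (nat_lit 4) (nat_lit 0) (.cons (.br (nat_lit 9) (nat_lit 1) (.cons (.br (nat_lit 11) (nat_lit 0) (.cons (.kr (nat_lit 310693935640959697916264704) (nat_lit 562954248454144) (nat_lit 1) (nat_lit 0)) .nil)) .nil)) .nil)),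
 (.br (nat_lit 4) (nat_lit 0) (.cons (.br (nat_lit 4) (nat_lit 0) (.cons (.rf (nat_lit 672) (nat_lit 13052988875717314592)) .nil)) (.cons (.rf (nat_lit 672) (nat_lit 13052988875717314592)) .nil))),
 (.br (nat_lit 4) (nat_lit 0) (.cons (.br (nat_lit 11) (nat_lit 0) (.cons (.kr (nat_lit 310693935640959697916264704) (nat_lit 562954248454144) (nat_lit 1) (nat_lit 0)) .nil)) .nil)),
 (.br (nat_lit 4) (nat_lit 0) (.cons (.rf (nat_lit 674) (nat_lit 14242959524133701664)) (.cons (.br (nat_lit 4) (nat_lit 0) (.cons (.rf (nat_lit 674) (nat_lit 14242959524133701664)) .nil)) .nil))),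
 (.br (nat_lit 10) (nat_lit 0) (.cons (.rf (nat_lit 673) (nat_lit 445091350149433376)) (.cons (.br (nat_lit 8) (nat_lit 1) (.cons (.br (nat_lit 4) (nat_lit 0) (.cons (.ev (nat_lit 18446745177532989441) (nat_lit 1)) (.cons (.ev (nat_lit 1208944266641281684340993) (nat_lit 1)) .nil))) (.cons (.rf (nat_lit 675) (nat_lit 14242959524133701664)) .nil))) (.cons (.kr (nat_lit 1208925819614629174706432) (nat_lit 281474976776192) (nat_lit 1) (nat_lit 0)) .nil)))),
 (.br (nat_lit 2) (nat_lit 0) (.cons (.rf (nat_lit 515) (nat_lit 252104115587104)) (.cons (.br (nat_lit 3) (nat_lit 0) (.cons (.rf (nat_lit 635) (nat_lit 220084027098176)) (.cons (.br (nat_lit 4) (nat_lit 0) (.cons (.rf (nat_lit 521) (nat_lit 323505698736160)) (.cons (.rf (nat_lit 521) (nat_lit 253205674035232)) (.cons (.br (nat_lit 4) (nat_lit 0) (.cons (.rf (nat_lit 521) (nat_lit 323505698736160)) (.cons (.rf (nat_lit 521) (nat_lit 253205674035232)) .nil))) .nil)))) (.cons (.rf (nat_lit 635) (nat_lit 216886491055168))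 (.cons (.br (nat_lit 7) (nat_lit 1) (.cons (.rf (nat_lit 635) (nat_lit 220084026082368)) (.cons (.rf (nat_lit 668) (nat_lit 14242959524133701664)) (.cons (.rf (nat_lit 668) (nat_lit 14208056627021580320)) .nil)))) .nil))))) (.cons (.br (nat_lit 3) (nat_lit 0) (.cons (.rf (nat_lit 635) (nat_lit 291584425889888)) (.cons (.br (nat_lit 4) (nat_lit 0) (.cons (.rf (nat_lit 522) (nat_lit 323505698736160)) (.cons (.br (nat_lit 4) (nat_lit 0) (.cons (.rf (nat_lit 521) (nat_lit 323505696575584)) (.cons (.rf (nat_lit 669) (nat_lit 14242959524133701664)) .nil))) (.cons (.br (nat_lit 4) (nat_lit 0) (.cons (.kr (nat_lit 4294967552) (nat_lit 16842752) (nat_lit 1) (nat_lit 0)) (.cons (.rf (nat_lit 669) (nat_lit 14242959524133701664)) .nil))) .nil)))) (.cons (.rf (nat_lit 667) (nat_lit 291584425889888)) (.cons (.br (nat_lit 7) (nat_lit 1) (.cons (.br (nat_lit 4) (nat_lit 0) (.cons (.br (nat_lit 9) (nat_lit 1) (.cons (.rf (nat_lit 670) (nat_lit 14242959524133701664)) (.cons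 (.rf (nat_lit 670) (nat_lit 14208056627021580320)) .nil))) (.cons (.rf (nat_lit 635) (nat_lit 220084023921792)) (.cons (.br (nat_lit 8) (nat_lit 1) (.cons (.rf (nat_lit 671) (nat_lit 14242959524133701664)) (.cons (.rf (nat_lit 671) (nat_lit 14208056627021580320)) .nil))) .nil)))) (.cons (.rf (nat_lit 676) (nat_lit 14242959524133701664)) (.cons (.rf (nat_lit 676) (nat_lit 14208056627021580320)) .nil)))) .nil))))) .nil)))),
 (.br (nat_lit 9) (nat_lit 1) (.cons (.br (nat_lit 4) (nat_lit 0) (.cons (.rf (nat_lit 635) (nat_lit 216886487878784)) (.cons (.br (nat_lit 10) (nat_lit 0) (.cons (.rf (nat_lit 631) (nat_lit 14242958392409819168)) (.cons (.ev (nat_lit 79229376180897461740561760256) (nat_lit 1)) .nil))) .nil))) (.cons (.rf (nat_lit 673) (nat_lit 445091418868910112)) (.cons (.br (nat_lit 11) (nat_lit 0) (.cons (.rf (nat_lit 675) (nat_lit 14207986326996879392)) (.cons (.kr (nat_lit 309485009821345068724781312) (nat_lit 281474976776192) (nat_lit 1) (nat_lit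 0)) .nil))) .nil)))),
 (.br (nat_lit 2) (nat_lit 0) (.cons (.rf (nat_lit 677) (nat_lit 407901468851537952)) (.cons (.rf (nat_lit 515) (nat_lit 252104115587104)) (.cons (.br (nat_lit 3) (nat_lit 0) (.cons (.rf (nat_lit 635) (nat_lit 291584425889888)) (.cons (.rf (nat_lit 677) (nat_lit 407827870392616992)) (.cons (.br (nat_lit 4) (nat_lit 0) (.cons (.rf (nat_lit 657) (nat_lit 291584425889888)) (.cons (.rf (nat_lit 677) (nat_lit 407827870391601184)) (.cons (.br (nat_lit 4) (nat_lit 0) (.cons (.rf (nat_lit 657) (nat_lit 291584425889888)) (.cons (.rf (nat_lit 677) (nat_lit 407827870391601184)) .nil))) .nil)))) (.cons (.br (nat_lit 8) (nat_lit 1) (.cons (.rf (nat_lit 677) (nat_lit 407827870391601184)) (.cons (.rf (nat_lit 678) (nat_lit 14242959524133701664)) (.cons (.rf (nat_lit 678) (nat_lit 14208056627021580320)) .nil)))) .nil))))) .nil)))),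
 (.br (nat_lit 6) (nat_lit 1) (.cons (.rf (nat_lit 657) (nat_lit 325702574508064)) (.cons (.rf (nat_lit 635) (nat_lit 325702572347488)) (.cons (.rf (nat_lit 667) (nat_lit 325702574508064)) (.cons (.br (nat_lit 10) (nat_lit 1) (.cons (.br (nat_lit 6) (nat_lit 1) (.cons (.rf (nat_lit 657) (nat_lit 325702574508064)) (.cons (.rf (nat_lit 635) (nat_lit 325702572347488)) (.cons (.rf (nat_lit 667) (nat_lit 325702574508064)) (.cons (.br (nat_lit 2) (nat_lit 0) (.cons (.rf (nat_lit 677) (nat_lit 407901468851537952)) (.cons (.rf (nat_lit 515) (nat_lit 252104115587104)) (.cons (.rf (nat_lit 679) (nat_lit 407901468851537952)) (.cons (.br (nat_lit 2) (nat_lit 0) (.cons (.rf (nat_lit 677) (nat_lit 407901468851537952)) (.cons (.rf (nat_lit 515) (nat_lit 252104115587104)) (.cons (.rf (nat_lit 679) (nat_lit 407901468851537952)) .nil)))) .nil))))) .nil))))) .nil)) .nil))))),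
 (.br (nat_lit 9) (nat_lit 1) (.cons (.rf (nat_lit 440) (nat_lit 410116953642961952)) .nil)),
 (.br (nat_lit 8) (nat_lit 1) (.cons (.rf (nat_lit 681) (nat_lit 407901468851537952)) (.cons (.br (nat_lit 9) (nat_lit 1) (.cons (.rf (nat_lit 440) (nat_lit 410152136941308960)) (.cons (.br (nat_lit 11) (nat_lit 0) (.cons (.br (nat_lit 10) (nat_lit 1) (.cons (.kr (nat_lit 309485009821345073019748608) (nat_lit 79228162514264337593560793088) (nat_lit 1) (nat_lit 0)) .nil)) .nil)) .nil))) .nil))),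
 (.br (nat_lit 9) (nat_lit 1) (.cons (.rf (nat_lit 440) (nat_lit 410116953642961952)) .nil)),
 (.br (nat_lit 9) (nat_lit 1) (.cons (.br (nat_lit 10) (nat_lit 1) (.cons (.kr (nat_lit 309485009821345073019748608) (nat_lit 79228162514264337593560793088) (nat_lit 1) (nat_lit 0)) .nil)) .nil)),
 (.br (nat_lit 9) (nat_lit 1) (.cons (.rf (nat_lit 684) (nat_lit 14242959524133701664)) (.cons (.br (nat_lit 9) (nat_lit 1) (.cons (.rf (nat_lit 684) (nat_lit 14242959524133701664)) .nil)) .nil))),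
 (.br (nat_lit 4) (nat_lit 0) (.cons (.rf (nat_lit 682) (nat_lit 14242959524133701664)) (.cons (.br (nat_lit 8) (nat_lit 1) (.cons (.rf (nat_lit 683) (nat_lit 407901468851537952)) (.cons (.rf (nat_lit 685) (nat_lit 14242959524133701664)) .nil))) .nil))),
 (.br (nat_lit 4) (nat_lit 0) (.cons (.rf (nat_lit 686) (nat_lit 14242959524133701664)) (.cons (.rf (nat_lit 686) (nat_lit 14242925439273240608)) (.cons (.br (nat_lit 4) (nat_lit 0) (.cons (.rf (nat_lit 686) (nat_lit 14242959524133701664)) (.cons (.rf (nat_lit 686) (nat_lit 14242925439273240608)) .nil))) .nil)))),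
 (.br (nat_lit 4) (nat_lit 0) (.cons (.br (nat_lit 10) (nat_lit 1) (.cons (.rf (nat_lit 497) (nat_lit 13882670487751994432)) (.cons (.rf (nat_lit 497) (nat_lit 12729712733654724672)) .nil))) (.cons (.br (nat_lit 8) (nat_lit 1) (.cons (.br (nat_lit 10) (nat_lit 1) (.cons (.ev (nat_lit 310693954160043944447049728) (nat_lit 1)) (.cons (.br (nat_lit 11) (nat_lit 0) (.cons (.ev (nat_lit 310693954087704871120732416) (nat_lit 1)) .nil)) .nil))) (.cons (.br (nat_lit 9) (nat_lit 1) (.cons (.br (nat_lit 9) (nat_lit 1) (.cons (.kr (nat_lit 4722366482869645213696) (nat_lit 79228162514264337593543950336) (nat_lit 9) (nat_lit 0)) .nil)) (.cons (.br (nat_lit 9) (nat_lit 1) (.cons (.kr (nat_lit 4722366482869645213696) (nat_lit 79228162514264337593543950336) (nat_lit 9) (nat_lit 0)) .nil)) .nil))) .nil))) .nil))),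
 (.br (nat_lit 4) (nat_lit 0) (.cons (.br (nat_lit 7) (nat_lit 1) (.cons (.br (nat_lit 9) (nat_lit 1) (.cons (.rf (nat_lit 440) (nat_lit 410048817206004768)) (.cons (.br (nat_lit 12) (nat_lit 0) (.cons (.rf (nat_lit 65) (nat_lit 373105226547332160)) .nil)) .nil))) (.cons (.br (nat_lit 12) (nat_lit 0) (.cons (.rf (nat_lit 440) (nat_lit 445022080914820128)) (.cons (.ev (nat_lit 79228162551230728863737840386) (nat_lit 2)) .nil))) .nil))) (.cons (.br (nat_lit 10) (nat_lit 1) (.cons (.ev (nat_lit 1208925819896104168259584) (nat_lit 1)) (.cons (.br (nat_lit 7) (nat_lit 1) (.cons (.br (nat_lit 11) (nat_lit 0) (.cons (.br (nat_lit 9) (nat_lit 1) (.cons (.ev (nat_lit 1213648258156196681285888) (nat_lit 1)) .nil)) .nil)) (.cons (.br (nat_lit 9) (nat_lit 1) (.cons (.br (nat_lit 9) (nat_lit 1) .nil) .nil)) .nil))) .nil))) .nil))),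
 (.br (nat_lit 4) (nat_lit 0) (.cons (.rf (nat_lit 689) (nat_lit 14242959524133701664)) (.cons (.br (nat_lit 10) (nat_lit 1) (.cons (.ev (nat_lit 1208925819896104168259584) (nat_lit 1)) (.cons (.ev (nat_lit 1208944266358707179290624) (nat_lit 1)) .nil))) .nil))),
 (.br (nat_lit 8) (nat_lit 1) (.cons (.rf (nat_lit 635) (nat_lit 252104114570304)) (.cons (.rf (nat_lit 687) (nat_lit 14242958458981812256)) (.cons (.br (nat_lit 4) (nat_lit 0) (.cons (.rf (nat_lit 689) (nat_lit 14242959524133701664)) (.cons (.rf (nat_lit 690) (nat_lit 14242959524133701664)) (.cons (.br (nat_lit 4) (nat_lit 0) (.cons (.rf (nat_lit 689) (nat_lit 14242959524133701664)) (.cons (.rf (nat_lit 690) (nat_lit 14242959524133701664)) .nil))) .nil)))) .nil))))]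

theorem c17 : chkAll C T R L17 (nat_lit 661) = true := by decide +kernel

theorem l17 : (nat_lit 661) + L17.length = (nat_lit 692) := by decide +kernel

/-- part of the certificates -/
def L18 : List Prf := [(.br (nat_lit 4) (nat_lit 0) (.cons (.rf (nat_lit 682) (nat_lit 14242923308969461792)) (.cons (.br (nat_lit 7) (nat_lit 1) (.cons (.rf (nat_lit 683) (nat_lit 407865253687298080)) (.cons (.rf (nat_lit 685) (nat_lit 14242923308969461792)) .nil))) .nil))),
 (.br (nat_lit 11) (nat_lit 0) (.cons (.br (nat_lit 8) (nat_lit 1) (.cons (.kr (nat_lit 36893488151714070784) (nat_lit 79537647524085682662285574144) (nat_lit 1) (nat_lit 0)) .nil)) .nil)),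
 (.br (nat_lit 4) (nat_lit 0) (.cons (.br (nat_lit 7) (nat_lit 1) (.cons (.br (nat_lit 8) (nat_lit 1) (.cons (.ev (nat_lit 309499176993415329803665666) (nat_lit 2)) (.cons (.br (nat_lit 12) (nat_lit 0) (.cons (.rf (nat_lit 73) (nat_lit 410189588014957632)) .nil)) .nil))) (.cons (.br (nat_lit 12) (nat_lit 0) (.cons (.rf (nat_lit 440) (nat_lit 445056165775281184)) (.cons (.ev (nat_lit 79228171959070206464232521986) (nat_lit 2)) .nil))) .nil))) (.cons (.br (nat_lit 7) (nat_lit 1) (.cons (.br (nat_lit 10) (nat_lit 1) (.cons (.zr (nat_lit 72058693583110400) (nat_lit 1208925819614637764706304) (nat_lit 5) (nat_lit 5)) (.cons (.rf (nat_lit 693) (nat_lit 14242959524133701664)) .nil))) (.cons (.br (nat_lit 10) (nat_lit 1) (.cons (.rf (nat_lit 693) (nat_lit 13125961266650777632)) (.cons (.zr (nat_lit 72058693583110400) (nat_lit 1208925819614637764706304) (nat_lit 5) (nat_lit 5)) .nil))) .nil))) .nil))),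
 (.br (nat_lit 7) (nat_lit 1) (.cons (.br (nat_lit 8) (nat_lit 1) (.cons (.br (nat_lit 10) (nat_lit 1) (.cons (.ev (nat_lit 310693954087704871120732416) (nat_lit 1)) .nil)) (.cons (.kr (nat_lit 79228162514264337593560727552) (nat_lit 72057598332895232) (nat_lit 3) (nat_lit 0)) .nil))) .nil)),
 (.br (nat_lit 4) (nat_lit 0) (.cons (.rf (nat_lit 694) (nat_lit 14242959524133701664)) (.cons (.br (nat_lit 7) (nat_lit 1) (.cons (.rf (nat_lit 695) (nat_lit 14242959524133701664)) (.cons (.br (nat_lit 7) (nat_lit 1) (.cons (.rf (nat_lit 695) (nat_lit 14242959524133701664)) .nil)) .nil))) .nil))),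
 (.br (nat_lit 9) (nat_lit 1) (.cons (.rf (nat_lit 680) (nat_lit 182768343581760)) (.cons (.br (nat_lit 4) (nat_lit 0) (.cons (.rf (nat_lit 692) (nat_lit 14242959524133701664)) (.cons (.rf (nat_lit 692) (nat_lit 14242958458981812256)) (.cons (.br (nat_lit 4) (nat_lit 0) (.cons (.rf (nat_lit 692) (nat_lit 14242959524133701664)) (.cons (.rf (nat_lit 692) (nat_lit 14242958458981812256)) .nil))) .nil)))) (.cons (.br (nat_lit 4) (nat_lit 0) (.cons (.rf (nat_lit 694) (nat_lit 14242959524133701664)) (.cons (.rf (nat_lit 696) (nat_lit 14242959524133701664)) (.cons (.br (nat_lit 4) (nat_lit 0) (.cons (.rf (nat_lit 694) (nat_lit 14242959524133701664)) (.cons (.rf (nat_lit 696) (nat_lit 14242959524133701664)) .nil))) .nil)))) .nil)))),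
 (.br (nat_lit 8) (nat_lit 1) (.cons (.br (nat_lit 9) (nat_lit 1) (.cons (.kr (nat_lit 18446744078004519168) (nat_lit 309485009821345068741623808) (nat_lit 1) (nat_lit 0)) (.cons (.br (nat_lit 9) (nat_lit 1) (.cons (.kr (nat_lit 18446744078004519168) (nat_lit 309485009821345068741623808) (nat_lit 1) (nat_lit 0)) .nil)) .nil))) .nil)),
 (.br (nat_lit 8) (nat_lit 1) (.cons (.rf (nat_lit 698) (nat_lit 14242959524133701664)) (.cons (.br (nat_lit 8) (nat_lit 1) (.cons (.rf (nat_lit 698) (nat_lit 14242959524133701664)) .nil)) .nil))),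
 (.br (nat_lit 7) (nat_lit 1) (.cons (.br (nat_lit 4) (nat_lit 0) (.cons (.rf (nat_lit 697) (nat_lit 14242925405985083488)) (.cons (.rf (nat_lit 691) (nat_lit 14242925405985083488)) (.cons (.rf (nat_lit 699) (nat_lit 14242959524133701664)) .nil)))) (.cons (.br (nat_lit 4) (nat_lit 0) (.cons (.rf (nat_lit 697) (nat_lit 13126032698397200480)) (.cons (.rf (nat_lit 691) (nat_lit 13126032698397200480)) (.cons (.rf (nat_lit 699) (nat_lit 13126066816545818656)) .nil)))) .nil))),
 (.br (nat_lit 9) (nat_lit 1) (.cons (.kr (nat_lit 309485009821345068724781312) (nat_lit 72057594037993472) (nat_lit 1) (nat_lit 0)) (.cons (.br (nat_lit 4) (nat_lit 0) (.cons (.br (nat_lit 12) (nat_lit 0) (.cons (.rf (nat_lit 692) (nat_lit 13126065684819775584)) (.cons (.ev (nat_lit 1208925891954802012717056) (nat_lit 1)) .nil))) (.cons (.br (nat_lit 11) (nat_lit 0) (.cons (.br (nat_lit 8) (nat_lit 1) (.cons (.kr (nat_lit 309485009821345073019748608) (nat_lit 79228162514264337593560793088)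 (nat_lit 1) (nat_lit 0)) .nil)) .nil)) .nil))) .nil))),
 (.br (nat_lit 7) (nat_lit 1) (.cons (.rf (nat_lit 700) (nat_lit 14242959524133701664)) (.cons (.br (nat_lit 9) (nat_lit 1) (.cons (.rf (nat_lit 701) (nat_lit 14242959524133701664)) (.cons (.kr (nat_lit 309485009821345068724781312) (nat_lit 72057594037993472) (nat_lit 1) (nat_lit 0)) (.cons (.br (nat_lit 9) (nat_lit 1) (.cons (.rf (nat_lit 701) (nat_lit 14242959524133701664)) (.cons (.kr (nat_lit 309485009821345068724781312) (nat_lit 72057594037993472) (nat_lit 1) (nat_lit 0)) .nil))) .nil)))) .nil))),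
 (.br (nat_lit 6) (nat_lit 1) (.cons (.br (nat_lit 2) (nat_lit 0) (.cons (.rf (nat_lit 680) (nat_lit 324636381414464)) (.cons (.rf (nat_lit 635) (nat_lit 256366802502720)) (.cons (.rf (nat_lit 680) (nat_lit 256366802502720)) (.cons (.br (nat_lit 4) (nat_lit 0) (.cons (.rf (nat_lit 680) (nat_lit 324636379253888)) (.cons (.rf (nat_lit 635) (nat_lit 256366800342144)) (.cons (.rf (nat_lit 680) (nat_lit 256366800342144)) (.cons (.kr (nat_lit 4294967552) (nat_lit 16842752) (nat_lit 1) (nat_lit 0)) .nil))))) .nil))))) (.cons (.br (nat_lit 11) (nat_lit 1) (.cons (.br (nat_lit 2) (nat_lit 0) (.cons (.br (nat_lit 7) (nat_lit 1) (.cons (.rf (nat_lit 680) (nat_lit 288386890990656)) (.cons (.rf (nat_lit 687) (nat_lit 14242959524133701664)) (.cons (.br (nat_lit 4) (nat_lit 0) (.cons (.rf (nat_lit 688) (nat_lit 14242959524133701664)) (.cons (.rf (nat_lit 688) (nat_lit 13126032698399361056)) (.cons (.br (nat_lit 4) (nat_lit 0) (.cons (.rf (nat_lit 688) (nat_lit 14242959524133701664))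 (.cons (.rf (nat_lit 688) (nat_lit 13126032698399361056)) .nil))) .nil)))) .nil)))) (.cons (.rf (nat_lit 691) (nat_lit 14242959524133701664)) (.cons (.rf (nat_lit 697) (nat_lit 14242959524133701664)) (.cons (.br (nat_lit 7) (nat_lit 1) (.cons (.rf (nat_lit 700) (nat_lit 14242959524133701664)) (.cons (.rf (nat_lit 702) (nat_lit 14242959524133701664)) (.cons (.br (nat_lit 7) (nat_lit 1) (.cons (.rf (nat_lit 700) (nat_lit 14242959524133701664)) (.cons (.rf (nat_lit 702) (nat_lit 14242959524133701664)) .nil))) .nil)))) .nil))))) .nil)) .nil))),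
 (.br (nat_lit 9) (nat_lit 1) (.cons (.kr (nat_lit 309485009821345073019748608) (nat_lit 79228162514264337593560793088) (nat_lit 1) (nat_lit 0)) .nil)),
 (.br (nat_lit 8) (nat_lit 1) (.cons (.rf (nat_lit 704) (nat_lit 14242959524133701664)) (.cons (.rf (nat_lit 704) (nat_lit 13126066816545818656)) .nil))),
 (.br (nat_lit 2) (nat_lit 0) (.cons (.br (nat_lit 4) (nat_lit 0) (.cons (.rf (nat_lit 635) (nat_lit 183834535658560)) (.cons (.rf (nat_lit 635) (nat_lit 182768343581760)) (.cons (.br (nat_lit 4) (nat_lit 0) (.cons (.rf (nat_lit 635) (nat_lit 183834535658560)) (.cons (.rf (nat_lit 635) (nat_lit 182768343581760)) .nil))) .nil)))) (.cons (.br (nat_lit 4) (nat_lit 0) (.cons (.br (nat_lit 4) (nat_lit 0) (.cons (.rf (nat_lit 635) (nat_lit 183834533497984)) (.cons (.kr (nat_lit 4294967552) (nat_lit 16842752) (nat_lit 1) (nat_lit 0)) .nil))) (.cons (.br (nat_lit 4) (nat_lit 0) (.cons (.rf (nat_lit 635) (nat_lit 183834533497984)) (.cons (.rf (nat_lit 705) (nat_lit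 14242959524133701664)) .nil))) (.cons (.br (nat_lit 4) (nat_lit 0) (.cons (.kr (nat_lit 4294967552) (nat_lit 16842752) (nat_lit 1) (nat_lit 0)) (.cons (.rf (nat_lit 705) (nat_lit 14242959524133701664)) .nil))) .nil)))) .nil))),
 (.br (nat_lit 7) (nat_lit 1) (.cons (.rf (nat_lit 703) (nat_lit 11550583496476704)) (.cons (.rf (nat_lit 703) (nat_lit 11550583494316128)) (.cons (.br (nat_lit 2) (nat_lit 0) (.cons (.rf (nat_lit 706) (nat_lit 14242959524133701664)) (.cons (.rf (nat_lit 706) (nat_lit 14242925405987244064)) (.cons (.br (nat_lit 2) (nat_lit 0) (.cons (.rf (nat_lit 706) (nat_lit 14242959524133701664)) (.cons (.rf (nat_lit 706) (nat_lit 14242925405987244064)) .nil))) .nil)))) .nil)))),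
 (.br (nat_lit 1) (nat_lit 0) (.cons (.rf (nat_lit 635) (nat_lit 325702574508064)) (.cons (.rf (nat_lit 635) (nat_lit 291584428050464)) (.cons (.rf (nat_lit 680) (nat_lit 325702574508064)) (.cons (.rf (nat_lit 680) (nat_lit 291584428050464)) (.cons (.br (nat_lit 3) (nat_lit 0) (.cons (.rf (nat_lit 635) (nat_lit 325702572347488)) (.cons (.rf (nat_lit 635) (nat_lit 291584425889888)) (.cons (.rf (nat_lit 680) (nat_lit 325702572347488)) (.cons (.rf (nat_lit 680) (nat_lit 291584425889888)) (.cons (.br (nat_lit 6) (nat_lit 1) (.cons (.rf (nat_lit 703) (nat_lit 11584701642934304)) (.cons (.rf (nat_lit 703) (nat_lit 11584701640773728)) (.cons (.br (nat_lit 11) (nat_lit 1) (.cons (.br (nat_lit 6) (nat_lit 1) (.cons (.rf (nat_lit 703) (nat_lit 11584701642934304)) (.cons (.rf (nat_lit 703) (nat_lit 11584701640773728)) (.cons (.br (nat_lit 7) (nat_lit 1) (.cons (.rf (nat_lit 703) (nat_lit 11550583496476704)) (.cons (.rf (nat_lit 703) (nat_lit 11550583494316128)) (.cons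 (.rf (nat_lit 707) (nat_lit 14242959524133701664)) (.cons (.rf (nat_lit 707) (nat_lit 13126066816545818656)) .nil))))) .nil)))) .nil)) .nil)))) .nil)))))) .nil)))))),
 (.br (nat_lit 4) (nat_lit 0) (.cons (.kr (nat_lit 16777216) (nat_lit 4294967296) (nat_lit 3) (nat_lit 0)) .nil)),
 (.br (nat_lit 3) (nat_lit 0) (.cons (.br (nat_lit 4) (nat_lit 0) (.cons (.rf (nat_lit 515) (nat_lit 216886488895584)) (.cons (.rf (nat_lit 709) (nat_lit 14242959524133701664)) .nil))) .nil)),
 (.br (nat_lit 8) (nat_lit 1) (.cons (.rf (nat_lit 708) (nat_lit 252104115586112)) (.cons (.rf (nat_lit 708) (nat_lit 252104114570304)) (.cons (.br (nat_lit 3) (nat_lit 0) (.cons (.rf (nat_lit 710) (nat_lit 407901468851537952)) (.cons (.br (nat_lit 3) (nat_lit 0) (.cons (.rf (nat_lit 710) (nat_lit 407901468851537952)) .nil)) .nil))) .nil)))),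
 (.br (nat_lit 3) (nat_lit 0) (.cons (.br (nat_lit 4) (nat_lit 0) (.cons (.ev (nat_lit 1213666704899166567464961) (nat_lit 1)) (.cons (.rf (nat_lit 709) (nat_lit 14242925439273240608)) .nil))) .nil)),
 (.br (nat_lit 4) (nat_lit 0) (.cons (.br (nat_lit 9) (nat_lit 1) (.cons (.br (nat_lit 11) (nat_lit 0) (.cons (.kr (nat_lit 309485009821347267764814080) (nat_lit 1208925820177583423160320) (nat_lit 1) (nat_lit 0)) .nil)) .nil)) .nil)),
 (.br (nat_lit 8) (nat_lit 1) (.cons (.rf (nat_lit 515) (nat_lit 252104113426528)) (.cons (.br (nat_lit 3) (nat_lit 0) (.cons (.br (nat_lit 9) (nat_lit 1) (.cons (.rf (nat_lit 515) (nat_lit 216886488895584)) (.cons (.ev (nat_lit 4740885566012386181121) (nat_lit 1)) .nil))) (.cons (.br (nat_lit 4) (nat_lit 0) (.cons (.rf (nat_lit 713) (nat_lit 14242959524133701664)) (.cons (.br (nat_lit 4) (nat_lit 0) (.cons (.rf (nat_lit 713) (nat_lit 14242959524133701664)) .nil)) .nil))) .nil))) .nil))),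
 (.br (nat_lit 3) (nat_lit 0) (.cons (.br (nat_lit 4) (nat_lit 0) (.cons (.rf (nat_lit 515) (nat_lit 216886488895584)) (.cons (.br (nat_lit 4) (nat_lit 0) (.cons (.kr (nat_lit 16777216) (nat_lit 4294967296) (nat_lit 3) (nat_lit 0)) .nil)) .nil))) .nil)),
 (.br (nat_lit 3) (nat_lit 0) (.cons (.rf (nat_lit 708) (nat_lit 325702574508064)) (.cons (.rf (nat_lit 708) (nat_lit 324636382431264)) (.cons (.rf (nat_lit 708) (nat_lit 288386892006464)) (.cons (.rf (nat_lit 708) (nat_lit 216886491055168)) (.cons (.br (nat_lit 4) (nat_lit 0) (.cons (.rf (nat_lit 708) (nat_lit 325702573492256)) (.cons (.rf (nat_lit 708) (nat_lit 324636381415456)) (.cons (.rf (nat_lit 708) (nat_lit 288386890990656)) (.cons (.rf (nat_lit 515) (nat_lit 252104113426528)) (.cons (.rf (nat_lit 708) (nat_lit 216886490039360)) (.cons (.br (nat_lit 4) (nat_lit 0) (.cons (.rf (nat_lit 708) (nat_lit 325702573492256)) (.cons (.rf (nat_lit 708) (nat_lit 324636381415456)) (.cons (.rf (nat_lit 708) (nat_lit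 288386890990656)) (.cons (.kr (nat_lit 16777216) (nat_lit 4294967296) (nat_lit 3) (nat_lit 0)) (.cons (.rf (nat_lit 708) (nat_lit 216886490039360)) .nil)))))) .nil))))))) .nil)))))),
 (.br (nat_lit 3) (nat_lit 0) (.cons (.rf (nat_lit 708) (nat_lit 325702574508064)) (.cons (.rf (nat_lit 708) (nat_lit 324636382431264)) (.cons (.rf (nat_lit 708) (nat_lit 288386892006464)) (.cons (.rf (nat_lit 716) (nat_lit 325702574508064)) (.cons (.rf (nat_lit 708) (nat_lit 216886491055168)) (.cons (.br (nat_lit 3) (nat_lit 0) (.cons (.rf (nat_lit 708) (nat_lit 325702574508064)) (.cons (.rf (nat_lit 708) (nat_lit 324636382431264)) (.cons (.rf (nat_lit 708) (nat_lit 288386892006464)) (.cons (.rf (nat_lit 716) (nat_lit 325702574508064)) (.cons (.rf (nat_lit 708) (nat_lit 216886491055168)) .nil)))))) .nil))))))),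
 (.br (nat_lit 8) (nat_lit 1) (.cons (.br (nat_lit 9) (nat_lit 1) (.cons (.kr (nat_lit 309485009821345068741558528) (nat_lit 1208925819614633469739008) (nat_lit 1) (nat_lit 0)) .nil)) (.cons (.br (nat_lit 9) (nat_lit 1) (.cons (.kr (nat_lit 309485009821345073019748608) (nat_lit 1208925819614629191548928) (nat_lit 1) (nat_lit 0)) .nil)) .nil))),
 (.br (nat_lit 12) (nat_lit 1) (.cons (.ev (nat_lit 79228162514264619068537438464) (nat_lit 1)) (.cons (.rf (nat_lit 718) (nat_lit 14242959524133701664)) .nil))),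
 (.br (nat_lit 4) (nat_lit 0) (.cons (.kr (nat_lit 16777216) (nat_lit 4294967296) (nat_lit 3) (nat_lit 0)) (.cons (.rf (nat_lit 719) (nat_lit 13052988875717314592)) .nil))),
 (.br (nat_lit 3) (nat_lit 0) (.cons (.br (nat_lit 4) (nat_lit 0) (.cons (.rf (nat_lit 515) (nat_lit 252104113426528)) (.cons (.rf (nat_lit 515) (nat_lit 216886488895584)) (.cons (.br (nat_lit 4) (nat_lit 0) (.cons (.rf (nat_lit 515) (nat_lit 252104113426528)) (.cons (.rf (nat_lit 515) (nat_lit 216886488895584)) .nil))) .nil)))) (.cons (.br (nat_lit 4) (nat_lit 0) (.cons (.rf (nat_lit 515) (nat_lit 252104113426528)) (.cons (.br (nat_lit 4) (nat_lit 0) (.cons (.rf (nat_lit 515) (nat_lit 252104113426528)) (.cons (.rf (nat_lit 720) (nat_lit 445091350149433376)) .nil))) (.cons (.rf (nat_lit 720) (nat_lit 445091350149433376)) .nil)))) .nil))),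
 (.br (nat_lit 3) (nat_lit 0) (.cons (.rf (nat_lit 721) (nat_lit 14242959524133701664)) (.cons (.br (nat_lit 4) (nat_lit 0) (.cons (.rf (nat_lit 721) (nat_lit 14242959524132685856)) (.cons (.rf (nat_lit 515) (nat_lit 216886488895584)) (.cons (.br (nat_lit 4) (nat_lit 0) (.cons (.rf (nat_lit 720) (nat_lit 445091350148417568)) (.cons (.kr (nat_lit 16777216) (nat_lit 4294967296) (nat_lit 3) (nat_lit 0)) .nil))) .nil)))) .nil))),
 (.br (nat_lit 7) (nat_lit 1) (.cons (.rf (nat_lit 708) (nat_lit 288386892006464)) (.cons (.rf (nat_lit 708) (nat_lit 288386890990656)) (.cons (.br (nat_lit 2) (nat_lit 0) (.cons (.rf (nat_lit 711) (nat_lit 11584701642934304)) (.cons (.rf (nat_lit 717) (nat_lit 325702574508064)) (.cons (.br (nat_lit 8) (nat_lit 1) (.cons (.rf (nat_lit 714) (nat_lit 14242959524133701664)) (.cons (.rf (nat_lit 714) (nat_lit 14242959524132685856)) (.cons (.br (nat_lit 8) (nat_lit 1) (.cons (.rf (nat_lit 714) (nat_lit 14242959524133701664)) (.cons (.rf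 (nat_lit 714) (nat_lit 14242959524132685856)) .nil))) .nil)))) .nil)))) (.cons (.br (nat_lit 2) (nat_lit 0) (.cons (.br (nat_lit 8) (nat_lit 1) (.cons (.rf (nat_lit 708) (nat_lit 252104115586112)) (.cons (.rf (nat_lit 708) (nat_lit 252104114570304)) (.cons (.rf (nat_lit 711) (nat_lit 11583635450857504)) (.cons (.br (nat_lit 3) (nat_lit 0) (.cons (.rf (nat_lit 715) (nat_lit 407901468851537952)) (.cons (.br (nat_lit 3) (nat_lit 0) (.cons (.rf (nat_lit 715) (nat_lit 407901468851537952)) .nil)) .nil))) .nil))))) (.cons (.rf (nat_lit 717) (nat_lit 325702574508064)) (.cons (.br (nat_lit 3) (nat_lit 0) (.cons (.rf (nat_lit 721) (nat_lit 14242959524133701664)) (.cons (.rf (nat_lit 722) (nat_lit 14242959524133701664)) (.cons (.br (nat_lit 3) (nat_lit 0) (.cons (.rf (nat_lit 721) (nat_lit 14242959524133701664)) (.cons (.rf (nat_lit 722) (nat_lit 14242959524133701664)) .nil))) .nil)))) .nil)))) .nil))))),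
 (.br (nat_lit 4) (nat_lit 0) (.cons (.ev (nat_lit 4722366764348916957441) (nat_lit 1)) (.cons (.ev (nat_lit 4722366483973451874561) (nat_lit 1)) .nil))),
 (.br (nat_lit 3) (nat_lit 0) (.cons (.br (nat_lit 4) (nat_lit 0) (.cons (.rf (nat_lit 515) (nat_lit 288386889846880)) (.cons (.rf (nat_lit 515) (nat_lit 252104113426528)) (.cons (.rf (nat_lit 724) (nat_lit 407901468851537952)) .nil)))) (.cons (.ev (nat_lit 4722366764344638767361) (nat_lit 1)) .nil)))]

theorem c18 : chkAll C T R L18 (nat_lit 692) = true := by decide +kernel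

theorem l18 : (nat_lit 692) + L18.length = (nat_lit 726) := by decide +kernel

/-- part of the certificates -/
def L19 : List Prf := [(.br (nat_lit 3) (nat_lit 0) (.cons (.br (nat_lit 4) (nat_lit 0) (.cons (.rf (nat_lit 515) (nat_lit 288386889846880)) (.cons (.rf (nat_lit 515) (nat_lit 252104113426528)) (.cons (.br (nat_lit 4) (nat_lit 0) (.cons (.rf (nat_lit 515) (nat_lit 288386889846880)) (.cons (.rf (nat_lit 515) (nat_lit 252104113426528)) .nil))) .nil)))) (.cons (.br (nat_lit 4) (nat_lit 0) (.cons (.rf (nat_lit 515) (nat_lit 288386889846880)) (.cons (.br (nat_lit 4) (nat_lit 0) (.cons (.rf (nat_lit 515) (nat_lit 288386889846880)) (.cons (.kr (nat_lit 281474993487872) (nat_lit 1103806595072) (nat_lit 3) (nat_lit 0)) .nil))) (.cons (.rf (nat_lit 720) (nat_lit 445090318317094944)) .nil)))) .nil))),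
 (.br (nat_lit 2) (nat_lit 0) (.cons (.rf (nat_lit 717) (nat_lit 325702574508064)) (.cons (.rf (nat_lit 717) (nat_lit 324636382431264)) (.cons (.br (nat_lit 9) (nat_lit 1) (.cons (.rf (nat_lit 708) (nat_lit 216886491055168)) (.cons (.rf (nat_lit 708) (nat_lit 216886490039360)) (.cons (.br (nat_lit 3) (nat_lit 0) (.cons (.rf (nat_lit 725) (nat_lit 443930265870501920)) (.cons (.rf (nat_lit 725) (nat_lit 443929199678425120)) (.cons (.rf (nat_lit 724) (nat_lit 443930265869486112)) .nil)))) (.cons (.br (nat_lit 3) (nat_lit 0) (.cons (.rf (nat_lit 726) (nat_lit 14242959524133701664)) (.cons (.rf (nat_lit 726) (nat_lit 14242958457941624864)) (.cons (.br (nat_lit 3) (nat_lit 0) (.cons (.rf (nat_lit 726) (nat_lit 14242959524133701664)) (.cons (.rf (nat_lit 726) (nat_lit 14242958457941624864)) .nil))) .nil)))) .nil))))) .nil)))),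
 (.br (nat_lit 3) (nat_lit 0) (.cons (.rf (nat_lit 708) (nat_lit 325702574508064)) (.cons (.rf (nat_lit 708) (nat_lit 324636382431264)) (.cons (.rf (nat_lit 708) (nat_lit 288386892006464)) (.cons (.rf (nat_lit 708) (nat_lit 252104115586112)) (.cons (.br (nat_lit 4) (nat_lit 0) (.cons (.rf (nat_lit 708) (nat_lit 325702573492256)) (.cons (.rf (nat_lit 708) (nat_lit 324636381415456)) (.cons (.rf (nat_lit 708) (nat_lit 288386890990656)) (.cons (.rf (nat_lit 708) (nat_lit 252104114570304)) (.cons (.rf (nat_lit 515) (nat_lit 216886488895584)) (.cons (.br (nat_lit 4) (nat_lit 0) (.cons (.rf (nat_lit 708) (nat_lit 325702573492256)) (.cons (.rf (nat_lit 708) (nat_lit 324636381415456)) (.cons (.rf (nat_lit 708) (nat_lit 288386890990656)) (.cons (.rf (nat_lit 708) (nat_lit 252104114570304)) (.cons (.kr (nat_lit 16777216) (nat_lit 4294967296) (nat_lit 3) (nat_lit 0)) .nil)))))) .nil))))))) .nil)))))),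
 (.br (nat_lit 3) (nat_lit 0) (.cons (.rf (nat_lit 708) (nat_lit 325702574508064)) (.cons (.rf (nat_lit 708) (nat_lit 324636382431264)) (.cons (.rf (nat_lit 708) (nat_lit 288386892006464)) (.cons (.rf (nat_lit 708) (nat_lit 252104115586112)) (.cons (.rf (nat_lit 728) (nat_lit 325702574508064)) (.cons (.br (nat_lit 3) (nat_lit 0) (.cons (.rf (nat_lit 708) (nat_lit 325702574508064)) (.cons (.rf (nat_lit 708) (nat_lit 324636382431264)) (.cons (.rf (nat_lit 708) (nat_lit 288386892006464)) (.cons (.rf (nat_lit 708) (nat_lit 252104115586112)) (.cons (.rf (nat_lit 728) (nat_lit 325702574508064)) .nil)))))) .nil))))))),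
 (.br (nat_lit 4) (nat_lit 0) (.cons (.rf (nat_lit 515) (nat_lit 252104113426528)) (.cons (.br (nat_lit 12) (nat_lit 1) (.cons (.br (nat_lit 8) (nat_lit 1) (.cons (.br (nat_lit 9) (nat_lit 1) (.cons (.ev (nat_lit 4740885850790176162306) (nat_lit 2)) .nil)) .nil)) (.cons (.ev (nat_lit 79228162514264619068537438464) (nat_lit 1)) .nil))) .nil))),
 (.br (nat_lit 3) (nat_lit 0) (.cons (.br (nat_lit 4) (nat_lit 0) (.cons (.rf (nat_lit 515) (nat_lit 252104113426528)) (.cons (.rf (nat_lit 515) (nat_lit 216886488895584)) (.cons (.br (nat_lit 4) (nat_lit 0) (.cons (.rf (nat_lit 515) (nat_lit 252104113426528)) (.cons (.rf (nat_lit 515) (nat_lit 216886488895584)) .nil))) .nil)))) (.cons (.br (nat_lit 4) (nat_lit 0) (.cons (.rf (nat_lit 515) (nat_lit 252104113426528)) (.cons (.rf (nat_lit 730) (nat_lit 14242959524133701664)) (.cons (.br (nat_lit 4) (nat_lit 0) (.cons (.kr (nat_lit 16777216) (nat_lit 4294967296) (nat_lit 3) (nat_lit 0)) (.cons (.rf (nat_lit 730) (nat_lit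 14242959524133701664)) .nil))) .nil)))) .nil))),
 (.br (nat_lit 3) (nat_lit 0) (.cons (.rf (nat_lit 731) (nat_lit 14242959524133701664)) (.cons (.br (nat_lit 4) (nat_lit 0) (.cons (.rf (nat_lit 731) (nat_lit 14242959524132685856)) (.cons (.rf (nat_lit 515) (nat_lit 216886488895584)) (.cons (.br (nat_lit 4) (nat_lit 0) (.cons (.rf (nat_lit 731) (nat_lit 14242959524132685856)) (.cons (.kr (nat_lit 16777216) (nat_lit 4294967296) (nat_lit 3) (nat_lit 0)) .nil))) .nil)))) .nil))),
 (.br (nat_lit 4) (nat_lit 0) (.cons (.rf (nat_lit 515) (nat_lit 252104113426528)) (.cons (.br (nat_lit 12) (nat_lit 1) (.cons (.br (nat_lit 8) (nat_lit 1) (.cons (.br (nat_lit 9) (nat_lit 1) (.cons (.ev (nat_lit 4740885850790176162306) (nat_lit 2)) .nil)) (.cons (.br (nat_lit 9) (nat_lit 1) (.cons (.ev (nat_lit 4740885850790176162306) (nat_lit 2)) .nil)) .nil))) (.cons (.ev (nat_lit 79228162514264619068537438464) (nat_lit 1)) .nil))) .nil))),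
 (.br (nat_lit 3) (nat_lit 0) (.cons (.br (nat_lit 4) (nat_lit 0) (.cons (.rf (nat_lit 515) (nat_lit 252104113426528)) (.cons (.rf (nat_lit 515) (nat_lit 216886488895584)) (.cons (.br (nat_lit 4) (nat_lit 0) (.cons (.rf (nat_lit 515) (nat_lit 252104113426528)) (.cons (.rf (nat_lit 515) (nat_lit 216886488895584)) .nil))) .nil)))) (.cons (.br (nat_lit 4) (nat_lit 0) (.cons (.rf (nat_lit 515) (nat_lit 252104113426528)) (.cons (.rf (nat_lit 733) (nat_lit 14242959524133701664)) (.cons (.br (nat_lit 4) (nat_lit 0) (.cons (.kr (nat_lit 16777216) (nat_lit 4294967296) (nat_lit 3) (nat_lit 0)) (.cons (.rf (nat_lit 733) (nat_lit 14242959524133701664)) .nil))) .nil)))) .nil))),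
 (.br (nat_lit 3) (nat_lit 0) (.cons (.rf (nat_lit 734) (nat_lit 14242959524133701664)) (.cons (.br (nat_lit 4) (nat_lit 0) (.cons (.rf (nat_lit 734) (nat_lit 14242959524132685856)) (.cons (.rf (nat_lit 515) (nat_lit 216886488895584)) (.cons (.br (nat_lit 4) (nat_lit 0) (.cons (.rf (nat_lit 734) (nat_lit 14242959524132685856)) (.cons (.kr (nat_lit 16777216) (nat_lit 4294967296) (nat_lit 3) (nat_lit 0)) .nil))) .nil)))) .nil))),
 (.br (nat_lit 2) (nat_lit 0) (.cons (.rf (nat_lit 729) (nat_lit 325702574508064)) (.cons (.rf (nat_lit 717) (nat_lit 325702574508064)) (.cons (.br (nat_lit 7) (nat_lit 1) (.cons (.rf (nat_lit 708) (nat_lit 288386892006464)) (.cons (.rf (nat_lit 708) (nat_lit 288386890990656)) (.cons (.br (nat_lit 3) (nat_lit 0) (.cons (.rf (nat_lit 731) (nat_lit 14242959524133701664)) (.cons (.rf (nat_lit 732) (nat_lit 14242959524133701664)) (.cons (.br (nat_lit 3) (nat_lit 0) (.cons (.rf (nat_lit 731) (nat_lit 14242959524133701664)) (.cons (.rf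 (nat_lit 732) (nat_lit 14242959524133701664)) .nil))) .nil)))) (.cons (.br (nat_lit 3) (nat_lit 0) (.cons (.rf (nat_lit 734) (nat_lit 14242959524133701664)) (.cons (.rf (nat_lit 735) (nat_lit 14242959524133701664)) (.cons (.br (nat_lit 3) (nat_lit 0) (.cons (.rf (nat_lit 734) (nat_lit 14242959524133701664)) (.cons (.rf (nat_lit 735) (nat_lit 14242959524133701664)) .nil))) .nil)))) .nil))))) .nil)))),
 (.br (nat_lit 4) (nat_lit 0) (.cons (.rf (nat_lit 515) (nat_lit 288386889846880)) (.cons (.br (nat_lit 4) (nat_lit 0) (.cons (.rf (nat_lit 515) (nat_lit 288386889846880)) (.cons (.ev (nat_lit 4722366483973451874561) (nat_lit 1)) .nil))) (.cons (.br (nat_lit 4) (nat_lit 0) (.cons (.rf (nat_lit 515) (nat_lit 288386889846880)) (.cons (.ev (nat_lit 4722366483973451874561) (nat_lit 1)) .nil))) .nil)))),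
 (.br (nat_lit 3) (nat_lit 0) (.cons (.rf (nat_lit 737) (nat_lit 14242959524133701664)) (.cons (.br (nat_lit 3) (nat_lit 0) (.cons (.rf (nat_lit 737) (nat_lit 14242959524133701664)) (.cons (.ev (nat_lit 4722366483969173684481) (nat_lit 1)) .nil))) (.cons (.br (nat_lit 3) (nat_lit 0) (.cons (.rf (nat_lit 737) (nat_lit 14242959524133701664)) (.cons (.ev (nat_lit 4722366483969173684481) (nat_lit 1)) .nil))) .nil)))),
 (.br (nat_lit 2) (nat_lit 0) (.cons (.rf (nat_lit 717) (nat_lit 325702574508064)) (.cons (.rf (nat_lit 717) (nat_lit 324636382431264)) (.cons (.br (nat_lit 9) (nat_lit 1) (.cons (.rf (nat_lit 708) (nat_lit 216886491055168)) (.cons (.rf (nat_lit 708) (nat_lit 216886490039360)) (.cons (.rf (nat_lit 738) (nat_lit 14242959524133701664)) (.cons (.rf (nat_lit 738) (nat_lit 14208055560829503520)) .nil))))) .nil)))),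
 (.br (nat_lit 6) (nat_lit 1) (.cons (.rf (nat_lit 515) (nat_lit 324636382431264)) (.cons (.rf (nat_lit 708) (nat_lit 324636382431264)) (.cons (.rf (nat_lit 708) (nat_lit 324636381415456)) (.cons (.br (nat_lit 2) (nat_lit 0) (.cons (.rf (nat_lit 723) (nat_lit 407901468851537952)) (.cons (.rf (nat_lit 723) (nat_lit 407900402659461152)) (.cons (.rf (nat_lit 727) (nat_lit 407901468851537952)) (.cons (.br (nat_lit 2) (nat_lit 0) (.cons (.rf (nat_lit 723) (nat_lit 407901468851537952)) (.cons (.rf (nat_lit 723) (nat_lit 407900402659461152)) (.cons (.rf (nat_lit 727) (nat_lit 407901468851537952)) .nil)))) .nil))))) (.cons (.br (nat_lit 2) (nat_lit 0) (.cons (.rf (nat_lit 736) (nat_lit 407901468851537952)) (.cons (.rf (nat_lit 736) (nat_lit 372997505547339808)) (.cons (.rf (nat_lit 739) (nat_lit 407901468851537952)) (.cons (.br (nat_lit 2) (nat_lit 0) (.cons (.rf (nat_lit 736) (nat_lit 407901468851537952)) (.cons (.rf (nat_lit 736) (nat_lit 372997505547339808))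 (.cons (.rf (nat_lit 739) (nat_lit 407901468851537952)) .nil)))) .nil))))) .nil)))))),
 (.br (nat_lit 3) (nat_lit 0) (.cons (.br (nat_lit 4) (nat_lit 0) (.cons (.ev (nat_lit 1213648258436567834558721) (nat_lit 1)) (.cons (.rf (nat_lit 709) (nat_lit 14242958392409819168)) .nil))) .nil)),
 (.br (nat_lit 7) (nat_lit 1) (.cons (.rf (nat_lit 708) (nat_lit 288386892006464)) (.cons (.rf (nat_lit 708) (nat_lit 288386890990656)) (.cons (.br (nat_lit 3) (nat_lit 0) (.cons (.rf (nat_lit 741) (nat_lit 407901468851537952)) (.cons (.br (nat_lit 3) (nat_lit 0) (.cons (.rf (nat_lit 741) (nat_lit 407901468851537952)) .nil)) .nil))) .nil)))),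
 (.br (nat_lit 9) (nat_lit 1) (.cons (.ev (nat_lit 1213648258436567834558721) (nat_lit 1)) (.cons (.ev (nat_lit 4722438540463683141889) (nat_lit 1)) .nil))),
 (.br (nat_lit 7) (nat_lit 1) (.cons (.rf (nat_lit 515) (nat_lit 288386889846880)) (.cons (.br (nat_lit 3) (nat_lit 0) (.cons (.rf (nat_lit 740) (nat_lit 372892953189847136)) (.cons (.br (nat_lit 4) (nat_lit 0) (.cons (.rf (nat_lit 743) (nat_lit 14242959524133701664)) (.cons (.br (nat_lit 4) (nat_lit 0) (.cons (.rf (nat_lit 743) (nat_lit 14242959524133701664)) .nil)) .nil))) .nil))) .nil))),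
 (.br (nat_lit 3) (nat_lit 0) (.cons (.rf (nat_lit 708) (nat_lit 325702574508064)) (.cons (.rf (nat_lit 708) (nat_lit 324636382430272)) (.cons (.rf (nat_lit 708) (nat_lit 288386892006464)) (.cons (.rf (nat_lit 708) (nat_lit 252104115587104)) (.cons (.br (nat_lit 4) (nat_lit 0) (.cons (.rf (nat_lit 708) (nat_lit 325702573492256)) (.cons (.rf (nat_lit 708) (nat_lit 324636381414464)) (.cons (.rf (nat_lit 708) (nat_lit 288386890990656)) (.cons (.rf (nat_lit 708) (nat_lit 252104114571296)) (.cons (.rf (nat_lit 515) (nat_lit 216886488895584)) (.cons (.br (nat_lit 4) (nat_lit 0) (.cons (.rf (nat_lit 708) (nat_lit 325702573492256)) (.cons (.rf (nat_lit 708) (nat_lit 324636381414464)) (.cons (.rf (nat_lit 708) (nat_lit 288386890990656)) (.cons (.rf (nat_lit 708) (nat_lit 252104114571296)) (.cons (.kr (nat_lit 16777216) (nat_lit 4294967296) (nat_lit 3) (nat_lit 0)) .nil)))))) .nil))))))) .nil)))))),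
 (.br (nat_lit 3) (nat_lit 0) (.cons (.rf (nat_lit 708) (nat_lit 325702574508064)) (.cons (.rf (nat_lit 708) (nat_lit 324636382430272)) (.cons (.rf (nat_lit 708) (nat_lit 288386892006464)) (.cons (.rf (nat_lit 708) (nat_lit 252104115587104)) (.cons (.rf (nat_lit 745) (nat_lit 325702574508064)) (.cons (.br (nat_lit 3) (nat_lit 0) (.cons (.rf (nat_lit 708) (nat_lit 325702574508064)) (.cons (.rf (nat_lit 708) (nat_lit 324636382430272)) (.cons (.rf (nat_lit 708) (nat_lit 288386892006464)) (.cons (.rf (nat_lit 708) (nat_lit 252104115587104)) (.cons (.rf (nat_lit 745) (nat_lit 325702574508064)) .nil)))))) .nil))))))),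
 (.br (nat_lit 7) (nat_lit 1) (.cons (.rf (nat_lit 708) (nat_lit 288386892007456)) (.cons (.rf (nat_lit 515) (nat_lit 288386889846880)) (.cons (.rf (nat_lit 740) (nat_lit 407795850301968480)) (.cons (.rf (nat_lit 740) (nat_lit 372892953189847136)) .nil))))),
 (.br (nat_lit 4) (nat_lit 0) (.cons (.rf (nat_lit 515) (nat_lit 288386889846880)) (.cons (.br (nat_lit 12) (nat_lit 1) (.cons (.br (nat_lit 7) (nat_lit 1) (.cons (.br (nat_lit 9) (nat_lit 1) (.cons (.ev (nat_lit 4722438540463683141889) (nat_lit 1)) .nil)) .nil)) (.cons (.rf (nat_lit 718) (nat_lit 14242958392409819168)) .nil))) .nil))),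
 (.br (nat_lit 3) (nat_lit 0) (.cons (.rf (nat_lit 747) (nat_lit 14242959524133701664)) (.cons (.br (nat_lit 4) (nat_lit 0) (.cons (.rf (nat_lit 515) (nat_lit 288386889846880)) (.cons (.rf (nat_lit 748) (nat_lit 14242959524133701664)) (.cons (.br (nat_lit 4) (nat_lit 0) (.cons (.kr (nat_lit 16777216) (nat_lit 4294967296) (nat_lit 3) (nat_lit 0)) (.cons (.rf (nat_lit 748) (nat_lit 14242959524133701664)) .nil))) .nil)))) .nil))),
 (.br (nat_lit 6) (nat_lit 1) (.cons (.rf (nat_lit 708) (nat_lit 324636382430272)) (.cons (.rf (nat_lit 708) (nat_lit 324636381414464)) (.cons (.br (nat_lit 2) (nat_lit 0) (.cons (.rf (nat_lit 746) (nat_lit 325702574508064)) (.cons (.rf (nat_lit 746) (nat_lit 252104115587104)) (.cons (.br (nat_lit 3) (nat_lit 0) (.cons (.rf (nat_lit 744) (nat_lit 14242959524133701664)) (.cons (.rf (nat_lit 744) (nat_lit 14242885925674780704)) (.cons (.br (nat_lit 3) (nat_lit 0) (.cons (.rf (nat_lit 744) (nat_lit 14242959524133701664)) (.cons (.rf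 (nat_lit 744) (nat_lit 14242885925674780704)) .nil))) .nil)))) .nil)))) (.cons (.br (nat_lit 2) (nat_lit 0) (.cons (.rf (nat_lit 746) (nat_lit 325702574508064)) (.cons (.rf (nat_lit 746) (nat_lit 252104115587104)) (.cons (.br (nat_lit 3) (nat_lit 0) (.cons (.rf (nat_lit 749) (nat_lit 14242959524133701664)) (.cons (.rf (nat_lit 749) (nat_lit 14242885925674780704)) (.cons (.br (nat_lit 3) (nat_lit 0) (.cons (.rf (nat_lit 749) (nat_lit 14242959524133701664)) (.cons (.rf (nat_lit 749) (nat_lit 14242885925674780704)) .nil))) .nil)))) .nil)))) .nil))))),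
 (.br (nat_lit 3) (nat_lit 0) (.cons (.ev (nat_lit 72058693566332929) (nat_lit 1)) (.cons (.ev (nat_lit 18518801667764322561) (nat_lit 1)) .nil))),
 (.br (nat_lit 12) (nat_lit 1) (.cons (.br (nat_lit 6) (nat_lit 1) (.cons (.br (nat_lit 9) (nat_lit 1) (.cons (.ev (nat_lit 317230597658296468890795967232) (nat_lit 3)) .nil)) .nil)) (.cons (.rf (nat_lit 718) (nat_lit 14242957327257929760)) .nil))),
 (.br (nat_lit 3) (nat_lit 0) (.cons (.br (nat_lit 4) (nat_lit 0) (.cons (.rf (nat_lit 515) (nat_lit 324636380270688)) (.cons (.rf (nat_lit 515) (nat_lit 216886488895584)) (.cons (.br (nat_lit 4) (nat_lit 0) (.cons (.rf (nat_lit 515) (nat_lit 324636380270688)) (.cons (.rf (nat_lit 515) (nat_lit 216886488895584)) .nil))) .nil)))) (.cons (.br (nat_lit 4) (nat_lit 0) (.cons (.rf (nat_lit 515) (nat_lit 324636380270688)) (.cons (.br (nat_lit 4) (nat_lit 0) (.cons (.rf (nat_lit 515) (nat_lit 324636380270688)) (.cons (.rf (nat_lit 752) (nat_lit 14242959524133701664)) .nil)))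 (.cons (.br (nat_lit 4) (nat_lit 0) (.cons (.kr (nat_lit 16777216) (nat_lit 4294967296) (nat_lit 3) (nat_lit 0)) (.cons (.rf (nat_lit 752) (nat_lit 14242959524133701664)) .nil))) .nil)))) .nil))),
 (.br (nat_lit 3) (nat_lit 0) (.cons (.rf (nat_lit 753) (nat_lit 14242959524133701664)) (.cons (.br (nat_lit 4) (nat_lit 0) (.cons (.rf (nat_lit 753) (nat_lit 14242959524132685856)) (.cons (.rf (nat_lit 515) (nat_lit 216886488895584)) (.cons (.br (nat_lit 4) (nat_lit 0) (.cons (.rf (nat_lit 753) (nat_lit 14242959524132685856)) (.cons (.kr (nat_lit 16777216) (nat_lit 4294967296) (nat_lit 3) (nat_lit 0)) .nil))) .nil)))) .nil))),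
 (.br (nat_lit 2) (nat_lit 0) (.cons (.rf (nat_lit 746) (nat_lit 325702574508064)) (.cons (.rf (nat_lit 729) (nat_lit 220084027098176)) (.cons (.br (nat_lit 7) (nat_lit 1) (.cons (.rf (nat_lit 708) (nat_lit 288386892006464)) (.cons (.rf (nat_lit 708) (nat_lit 288386890990656)) (.cons (.br (nat_lit 6) (nat_lit 1) (.cons (.rf (nat_lit 751) (nat_lit 443930265870501920)) (.cons (.rf (nat_lit 751) (nat_lit 443930265869486112)) (.cons (.br (nat_lit 6) (nat_lit 1) (.cons (.rf (nat_lit 751) (nat_lit 443930265870501920)) (.cons (.rf (nat_lit 751) (nat_lit 443930265869486112)) .nil))) .nil)))) (.cons (.br (nat_lit 3) (nat_lit 0) (.cons (.rf (nat_lit 753) (nat_lit 14242959524133701664)) (.cons (.rf (nat_lit 754) (nat_lit 14242959524133701664)) (.cons (.br (nat_lit 3) (nat_lit 0) (.cons (.rf (nat_lit 753) (nat_lit 14242959524133701664)) (.cons (.rf (nat_lit 754) (nat_lit 14242959524133701664)) .nil))) .nil)))) .nil))))) .nil)))),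
 (.br (nat_lit 4) (nat_lit 0) (.cons (.rf (nat_lit 515) (nat_lit 288386889846880)) (.cons (.br (nat_lit 12) (nat_lit 1) (.cons (.br (nat_lit 7) (nat_lit 1) (.cons (.br (nat_lit 9) (nat_lit 1) (.cons (.ev (nat_lit 4722438540463683141889) (nat_lit 1)) .nil)) .nil)) (.cons (.ev (nat_lit 79228162569604854592496009217) (nat_lit 2)) .nil))) .nil)))]

theorem c19 : chkAll C T R L19 (nat_lit 726) = true := by decide +kernel

theorem l19 : (nat_lit 726) + L19.length = (nat_lit 757) := by decide +kernel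

/-- part of the certificates -/
def L20 : List Prf := [(.br (nat_lit 3) (nat_lit 0) (.cons (.rf (nat_lit 747) (nat_lit 14242959524133701664)) (.cons (.br (nat_lit 4) (nat_lit 0) (.cons (.rf (nat_lit 515) (nat_lit 288386889846880)) (.cons (.rf (nat_lit 756) (nat_lit 14242959524133701664)) (.cons (.br (nat_lit 4) (nat_lit 0) (.cons (.kr (nat_lit 16777216) (nat_lit 4294967296) (nat_lit 3) (nat_lit 0)) (.cons (.rf (nat_lit 756) (nat_lit 14242959524133701664)) .nil))) .nil)))) .nil))),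
 (.br (nat_lit 3) (nat_lit 0) (.cons (.rf (nat_lit 747) (nat_lit 14242959524133701664)) (.cons (.br (nat_lit 4) (nat_lit 0) (.cons (.rf (nat_lit 757) (nat_lit 14242959524132685856)) (.cons (.rf (nat_lit 515) (nat_lit 216886488895584)) (.cons (.br (nat_lit 4) (nat_lit 0) (.cons (.rf (nat_lit 757) (nat_lit 14242959524132685856)) (.cons (.kr (nat_lit 16777216) (nat_lit 4294967296) (nat_lit 3) (nat_lit 0)) .nil))) .nil)))) .nil))),
 (.br (nat_lit 3) (nat_lit 0) (.cons (.rf (nat_lit 757) (nat_lit 14242959524133701664)) (.cons (.rf (nat_lit 758) (nat_lit 14242959524133701664)) (.cons (.br (nat_lit 3) (nat_lit 0) (.cons (.rf (nat_lit 757) (nat_lit 14242959524133701664)) (.cons (.rf (nat_lit 758) (nat_lit 14242959524133701664)) .nil))) .nil)))),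
 (.br (nat_lit 2) (nat_lit 0) (.cons (.rf (nat_lit 746) (nat_lit 325702574508064)) (.cons (.rf (nat_lit 746) (nat_lit 252104115587104)) (.cons (.br (nat_lit 6) (nat_lit 1) (.cons (.rf (nat_lit 708) (nat_lit 324636382430272)) (.cons (.rf (nat_lit 708) (nat_lit 324636381414464)) (.cons (.rf (nat_lit 759) (nat_lit 14242959524133701664)) (.cons (.rf (nat_lit 759) (nat_lit 14207983028562659360)) .nil))))) .nil)))),
 (.br (nat_lit 4) (nat_lit 0) (.cons (.ev (nat_lit 72058697844523009) (nat_lit 1)) (.cons (.br (nat_lit 6) (nat_lit 1) (.cons (.br (nat_lit 9) (nat_lit 1) (.cons (.br (nat_lit 11) (nat_lit 0) (.cons (.ev (nat_lit 158774272629911908917587280130) (nat_lit 3)) .nil)) .nil)) (.cons (.br (nat_lit 9) (nat_lit 1) (.cons (.br (nat_lit 11) (nat_lit 0) (.cons (.ev (nat_lit 158774272629911908891783921922) (nat_lit 3)) .nil)) (.cons (.br (nat_lit 10) (nat_lit 0) (.cons (.ev (nat_lit 158774291408986725624276518658) (nat_lit 3)) .nil)) .nil))) .nil))) .nil))),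
 (.br (nat_lit 3) (nat_lit 0) (.cons (.ev (nat_lit 72058693566332929) (nat_lit 1)) (.cons (.br (nat_lit 4) (nat_lit 0) (.cons (.rf (nat_lit 515) (nat_lit 324636380270688)) (.cons (.rf (nat_lit 761) (nat_lit 14242959524133701664)) (.cons (.br (nat_lit 4) (nat_lit 0) (.cons (.kr (nat_lit 16777216) (nat_lit 4294967296) (nat_lit 3) (nat_lit 0)) (.cons (.rf (nat_lit 761) (nat_lit 14242959524133701664)) .nil))) .nil)))) .nil))),
 (.br (nat_lit 3) (nat_lit 0) (.cons (.ev (nat_lit 72058693566332929) (nat_lit 1)) (.cons (.br (nat_lit 4) (nat_lit 0) (.cons (.rf (nat_lit 762) (nat_lit 14242959524132685856)) (.cons (.rf (nat_lit 515) (nat_lit 216886488895584)) (.cons (.br (nat_lit 4) (nat_lit 0) (.cons (.rf (nat_lit 762) (nat_lit 14242959524132685856)) (.cons (.kr (nat_lit 16777216) (nat_lit 4294967296) (nat_lit 3) (nat_lit 0)) .nil))) .nil)))) .nil))),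
 (.br (nat_lit 4) (nat_lit 0) (.cons (.ev (nat_lit 18518801672042512641) (nat_lit 1)) (.cons (.rf (nat_lit 515) (nat_lit 216886488895584)) .nil))),
 (.br (nat_lit 3) (nat_lit 0) (.cons (.br (nat_lit 4) (nat_lit 0) (.cons (.rf (nat_lit 515) (nat_lit 324636380270688)) (.cons (.rf (nat_lit 515) (nat_lit 216886488895584)) (.cons (.rf (nat_lit 764) (nat_lit 14242959524133701664)) .nil)))) (.cons (.ev (nat_lit 18518801667764322561) (nat_lit 1)) .nil))),
 (.br (nat_lit 4) (nat_lit 0) (.cons (.rf (nat_lit 765) (nat_lit 14242959524132685856)) (.cons (.rf (nat_lit 515) (nat_lit 216886488895584)) (.cons (.rf (nat_lit 764) (nat_lit 14242959524133701664)) .nil)))),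
 (.br (nat_lit 2) (nat_lit 0) (.cons (.rf (nat_lit 746) (nat_lit 325702574508064)) (.cons (.rf (nat_lit 729) (nat_lit 220084027098176)) (.cons (.br (nat_lit 7) (nat_lit 1) (.cons (.rf (nat_lit 708) (nat_lit 288386892006464)) (.cons (.rf (nat_lit 708) (nat_lit 288386890990656)) (.cons (.br (nat_lit 3) (nat_lit 0) (.cons (.rf (nat_lit 762) (nat_lit 14242959524133701664)) (.cons (.rf (nat_lit 763) (nat_lit 14242959524133701664)) (.cons (.br (nat_lit 3) (nat_lit 0) (.cons (.rf (nat_lit 762) (nat_lit 14242959524133701664)) (.cons (.rf (nat_lit 763) (nat_lit 14242959524133701664)) .nil))) .nil)))) (.cons (.br (nat_lit 3) (nat_lit 0) (.cons (.rf (nat_lit 765) (nat_lit 14242959524133701664)) (.cons (.rf (nat_lit 766) (nat_lit 14242959524133701664)) (.cons (.br (nat_lit 3) (nat_lit 0) (.cons (.ev (nat_lit 18518801667764322561) (nat_lit 1)) (.cons (.rf (nat_lit 766) (nat_lit 14242959524133701664)) .nil))) .nil)))) .nil))))) .nil)))),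
 (.br (nat_lit 8) (nat_lit 1) (.cons (.rf (nat_lit 515) (nat_lit 252104115587104)) (.cons (.rf (nat_lit 708) (nat_lit 252104115587104)) (.cons (.rf (nat_lit 708) (nat_lit 252104114571296)) (.cons (.br (nat_lit 2) (nat_lit 0) (.cons (.rf (nat_lit 750) (nat_lit 407901468851537952)) (.cons (.rf (nat_lit 755) (nat_lit 407901468851537952)) (.cons (.rf (nat_lit 755) (nat_lit 407827870392616992)) (.cons (.br (nat_lit 2) (nat_lit 0) (.cons (.rf (nat_lit 750) (nat_lit 407901468851537952)) (.cons (.rf (nat_lit 755) (nat_lit 407901468851537952)) (.cons (.rf (nat_lit 755) (nat_lit 407827870392616992)) .nil)))) .nil))))) (.cons (.br (nat_lit 2) (nat_lit 0) (.cons (.rf (nat_lit 760) (nat_lit 407901468851537952)) (.cons (.rf (nat_lit 767) (nat_lit 407901468851537952)) (.cons (.rf (nat_lit 767) (nat_lit 372924973280495648)) (.cons (.br (nat_lit 2) (nat_lit 0) (.cons (.rf (nat_lit 760) (nat_lit 407901468851537952)) (.cons (.rf (nat_lit 767) (nat_lit 407901468851537952))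 (.cons (.rf (nat_lit 767) (nat_lit 372924973280495648)) .nil)))) .nil))))) .nil)))))),
 (.br (nat_lit 9) (nat_lit 1) (.cons (.br (nat_lit 9) (nat_lit 1) .nil) .nil)),
 (.br (nat_lit 4) (nat_lit 0) (.cons (.rf (nat_lit 747) (nat_lit 14242958457940608064)) (.cons (.rf (nat_lit 769) (nat_lit 443930265870501920)) .nil))),
 (.br (nat_lit 8) (nat_lit 1) (.cons (.rf (nat_lit 769) (nat_lit 443929200717596704)) (.cons (.br (nat_lit 10) (nat_lit 0) (.cons (.br (nat_lit 9) (nat_lit 1) (.cons (.kr (nat_lit 4722366482869645213696) (nat_lit 309485009821345068724781056) (nat_lit 9) (nat_lit 0)) .nil)) .nil)) .nil))),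
 (.br (nat_lit 9) (nat_lit 1) (.cons (.rf (nat_lit 769) (nat_lit 443894050705246240)) (.cons (.br (nat_lit 10) (nat_lit 0) (.cons (.br (nat_lit 8) (nat_lit 1) (.cons (.kr (nat_lit 36893488147435880704) (nat_lit 310693935640959702194520064) (nat_lit 1) (nat_lit 0)) .nil)) .nil)) .nil))),
 (.br (nat_lit 3) (nat_lit 0) (.cons (.ev (nat_lit 282574505115649) (nat_lit 1)) (.cons (.rf (nat_lit 747) (nat_lit 14242959524133701664)) (.cons (.br (nat_lit 7) (nat_lit 1) (.cons (.rf (nat_lit 515) (nat_lit 288386889846880)) (.cons (.br (nat_lit 8) (nat_lit 1) (.cons (.rf (nat_lit 770) (nat_lit 14242959524133701664)) (.cons (.br (nat_lit 8) (nat_lit 1) (.cons (.rf (nat_lit 770) (nat_lit 14242959524133701664)) .nil)) .nil))) (.cons (.br (nat_lit 4) (nat_lit 0) (.cons (.br (nat_lit 4) (nat_lit 0) (.cons (.rf (nat_lit 747) (nat_lit 14242958457940608064)) (.cons (.rf (nat_lit 771) (nat_lit 14242959524133701664)) .nil))) (.cons (.br (nat_lit 4) (nat_lit 0) (.cons (.rf (nat_lit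 747) (nat_lit 14242958457940608064)) (.cons (.rf (nat_lit 772) (nat_lit 14242959524133701664)) .nil))) (.cons (.br (nat_lit 4) (nat_lit 0) (.cons (.rf (nat_lit 771) (nat_lit 14242959524133701664)) (.cons (.rf (nat_lit 772) (nat_lit 14242959524133701664)) .nil))) .nil)))) .nil)))) .nil)))),
 (.br (nat_lit 3) (nat_lit 0) (.cons (.rf (nat_lit 747) (nat_lit 14242959524133701664)) (.cons (.rf (nat_lit 747) (nat_lit 14242958457941623872)) (.cons (.br (nat_lit 4) (nat_lit 0) (.cons (.rf (nat_lit 773) (nat_lit 14242959524132685856)) (.cons (.rf (nat_lit 773) (nat_lit 14242958457940608064)) (.cons (.rf (nat_lit 515) (nat_lit 216886488895584)) (.cons (.br (nat_lit 4) (nat_lit 0) (.cons (.rf (nat_lit 773) (nat_lit 14242959524132685856)) (.cons (.rf (nat_lit 773) (nat_lit 14242958457940608064)) (.cons (.kr (nat_lit 16777216) (nat_lit 4294967296) (nat_lit 3) (nat_lit 0)) .nil)))) .nil))))) .nil)))),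
 (.br (nat_lit 9) (nat_lit 0) (.cons (.br (nat_lit 12) (nat_lit 1) (.cons (.kr (nat_lit 1208925819614629191483648) (nat_lit 4722366482873940246528) (nat_lit 1) (nat_lit 0)) .nil)) .nil)),
 (.br (nat_lit 9) (nat_lit 1) (.cons (.rf (nat_lit 769) (nat_lit 443892952266312736)) (.cons (.rf (nat_lit 775) (nat_lit 445092449661061152)) .nil))),
 (.br (nat_lit 4) (nat_lit 0) (.cons (.rf (nat_lit 776) (nat_lit 14242925439273240608)) (.cons (.rf (nat_lit 776) (nat_lit 14242959524133701664)) .nil))),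
 (.br (nat_lit 3) (nat_lit 0) (.cons (.br (nat_lit 7) (nat_lit 1) (.cons (.rf (nat_lit 515) (nat_lit 288386889846880)) (.cons (.rf (nat_lit 768) (nat_lit 407795850301968480)) (.cons (.rf (nat_lit 768) (nat_lit 372892953189847136)) .nil)))) (.cons (.rf (nat_lit 747) (nat_lit 14242959524133701664)) (.cons (.br (nat_lit 7) (nat_lit 1) (.cons (.rf (nat_lit 515) (nat_lit 288386889846880)) (.cons (.br (nat_lit 4) (nat_lit 0) (.cons (.br (nat_lit 4) (nat_lit 0) (.cons (.rf (nat_lit 747) (nat_lit 14208055560828486720)) (.cons (.rf (nat_lit 777) (nat_lit 14242959524133701664)) .nil))) (.cons (.br (nat_lit 4) (nat_lit 0) (.cons (.rf (nat_lit 747) (nat_lit 14208055560828486720)) (.cons (.rf (nat_lit 777) (nat_lit 14242959524133701664)) .nil))) (.cons (.rf (nat_lit 777) (nat_lit 14242959524133701664)) .nil)))) (.cons (.br (nat_lit 4) (nat_lit 0) (.cons (.br (nat_lit 4) (nat_lit 0) (.cons (.rf (nat_lit 747) (nat_lit 14208055560828486720)) (.cons (.rf (nat_lit 777) (nat_lit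 14208056625981391936)) .nil))) (.cons (.br (nat_lit 4) (nat_lit 0) (.cons (.rf (nat_lit 747) (nat_lit 14208055560828486720)) (.cons (.rf (nat_lit 777) (nat_lit 14208056625981391936)) .nil))) (.cons (.rf (nat_lit 777) (nat_lit 14208056625981391936)) .nil)))) .nil)))) .nil)))),
 (.br (nat_lit 3) (nat_lit 0) (.cons (.rf (nat_lit 747) (nat_lit 14242959524133701664)) (.cons (.rf (nat_lit 747) (nat_lit 14208055560829502528)) (.cons (.br (nat_lit 4) (nat_lit 0) (.cons (.rf (nat_lit 778) (nat_lit 14242959524132685856)) (.cons (.rf (nat_lit 778) (nat_lit 14208055560828486720)) (.cons (.rf (nat_lit 515) (nat_lit 216886488895584)) (.cons (.br (nat_lit 4) (nat_lit 0) (.cons (.rf (nat_lit 778) (nat_lit 14242959524132685856)) (.cons (.rf (nat_lit 778) (nat_lit 14208055560828486720)) (.cons (.kr (nat_lit 16777216) (nat_lit 4294967296) (nat_lit 3) (nat_lit 0)) .nil)))) .nil))))) .nil)))),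
 (.br (nat_lit 6) (nat_lit 1) (.cons (.rf (nat_lit 708) (nat_lit 324636382430272)) (.cons (.rf (nat_lit 708) (nat_lit 324636381414464)) (.cons (.br (nat_lit 2) (nat_lit 0) (.cons (.rf (nat_lit 768) (nat_lit 407900402659460160)) (.cons (.rf (nat_lit 740) (nat_lit 407832133080548416)) (.cons (.rf (nat_lit 768) (nat_lit 407832133080548416)) (.cons (.br (nat_lit 3) (nat_lit 0) (.cons (.rf (nat_lit 773) (nat_lit 14242959524133701664)) (.cons (.rf (nat_lit 773) (nat_lit 14242958457941623872)) (.cons (.rf (nat_lit 774) (nat_lit 14242959524133701664)) (.cons (.br (nat_lit 3) (nat_lit 0) (.cons (.rf (nat_lit 773) (nat_lit 14242959524133701664)) (.cons (.rf (nat_lit 773) (nat_lit 14242958457941623872)) (.cons (.rf (nat_lit 774) (nat_lit 14242959524133701664)) .nil)))) .nil))))) .nil))))) (.cons (.br (nat_lit 2) (nat_lit 0) (.cons (.rf (nat_lit 768) (nat_lit 372997505547338816)) (.cons (.rf (nat_lit 740) (nat_lit 372929235968427072)) (.cons (.rf (nat_lit 768) (nat_lit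 372929235968427072)) (.cons (.br (nat_lit 3) (nat_lit 0) (.cons (.rf (nat_lit 778) (nat_lit 14242959524133701664)) (.cons (.rf (nat_lit 778) (nat_lit 14208055560829502528)) (.cons (.rf (nat_lit 779) (nat_lit 14242959524133701664)) (.cons (.br (nat_lit 3) (nat_lit 0) (.cons (.rf (nat_lit 778) (nat_lit 14242959524133701664)) (.cons (.rf (nat_lit 778) (nat_lit 14208055560829502528)) (.cons (.rf (nat_lit 779) (nat_lit 14242959524133701664)) .nil)))) .nil))))) .nil))))) .nil))))),
 (.br (nat_lit 8) (nat_lit 1) (.cons (.rf (nat_lit 708) (nat_lit 252104115586112)) (.cons (.rf (nat_lit 708) (nat_lit 252104114570304)) (.cons (.rf (nat_lit 740) (nat_lit 407759600813704256)) (.cons (.rf (nat_lit 740) (nat_lit 372856703701582912)) .nil))))),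
 (.br (nat_lit 4) (nat_lit 0) (.cons (.ev (nat_lit 18446745177516212481) (nat_lit 1)) (.cons (.rf (nat_lit 769) (nat_lit 407900337127655456)) .nil))),
 (.br (nat_lit 4) (nat_lit 0) (.cons (.ev (nat_lit 18446745177516212481) (nat_lit 1)) (.cons (.rf (nat_lit 772) (nat_lit 14242890222688897056)) .nil))),
 (.br (nat_lit 6) (nat_lit 1) (.cons (.rf (nat_lit 515) (nat_lit 324636380270688)) (.cons (.br (nat_lit 3) (nat_lit 0) (.cons (.rf (nat_lit 768) (nat_lit 407900402657300576)) (.cons (.rf (nat_lit 768) (nat_lit 407832133078388832)) (.cons (.br (nat_lit 7) (nat_lit 1) (.cons (.rf (nat_lit 782) (nat_lit 443930265870501920)) (.cons (.br (nat_lit 7) (nat_lit 1) (.cons (.rf (nat_lit 782) (nat_lit 443930265870501920)) .nil)) .nil))) .nil)))) (.cons (.br (nat_lit 3) (nat_lit 0) (.cons (.rf (nat_lit 768) (nat_lit 372997505545179232)) (.cons (.rf (nat_lit 768) (nat_lit 372929235966267488)) (.cons (.br (nat_lit 4) (nat_lit 0) (.cons (.rf (nat_lit 783) (nat_lit 14242959524133701664))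 (.cons (.rf (nat_lit 783) (nat_lit 14242885925674779712)) (.cons (.br (nat_lit 4) (nat_lit 0) (.cons (.rf (nat_lit 772) (nat_lit 14242890222688897056)) (.cons (.rf (nat_lit 772) (nat_lit 14242958389289256000)) .nil))) .nil)))) .nil)))) .nil)))),
 (.br (nat_lit 3) (nat_lit 0) (.cons (.rf (nat_lit 768) (nat_lit 407900402657300576)) (.cons (.rf (nat_lit 768) (nat_lit 407832133078388832)) (.cons (.br (nat_lit 4) (nat_lit 0) (.cons (.br (nat_lit 4) (nat_lit 0) (.cons (.rf (nat_lit 781) (nat_lit 14242958457939464288)) (.cons (.rf (nat_lit 777) (nat_lit 14242958392409819168)) .nil))) (.cons (.br (nat_lit 4) (nat_lit 0) (.cons (.rf (nat_lit 781) (nat_lit 14242958457939464288)) (.cons (.rf (nat_lit 777) (nat_lit 14242958392409819168)) .nil))) (.cons (.rf (nat_lit 777) (nat_lit 14242958392409819168)) .nil)))) .nil)))),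
 (.br (nat_lit 6) (nat_lit 1) (.cons (.rf (nat_lit 515) (nat_lit 324636380270688)) (.cons (.rf (nat_lit 785) (nat_lit 14242959524133701664)) (.cons (.rf (nat_lit 785) (nat_lit 14207983028562658368)) .nil)))),
 (.br (nat_lit 7) (nat_lit 1) (.cons (.rf (nat_lit 708) (nat_lit 288386892006464)) (.cons (.rf (nat_lit 515) (nat_lit 288386889846880)) (.cons (.rf (nat_lit 780) (nat_lit 14242853905584132192)) (.cons (.rf (nat_lit 780) (nat_lit 14207951008472010848)) .nil))))),
 (.br (nat_lit 6) (nat_lit 1) (.cons (.rf (nat_lit 786) (nat_lit 14242959524132685856)) (.cons (.br (nat_lit 4) (nat_lit 0) (.cons (.rf (nat_lit 515) (nat_lit 288386889846880)) (.cons (.rf (nat_lit 787) (nat_lit 14242959524133701664)) (.cons (.br (nat_lit 4) (nat_lit 0) (.cons (.kr (nat_lit 16777216) (nat_lit 4294967296) (nat_lit 3) (nat_lit 0)) (.cons (.rf (nat_lit 787) (nat_lit 14242959524133701664)) .nil))) .nil)))) .nil))),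
 (.br (nat_lit 3) (nat_lit 0) (.cons (.rf (nat_lit 786) (nat_lit 14242959524133701664)) (.cons (.br (nat_lit 7) (nat_lit 1) (.cons (.rf (nat_lit 515) (nat_lit 288386889846880)) (.cons (.rf (nat_lit 740) (nat_lit 407795850301968480)) (.cons (.rf (nat_lit 740) (nat_lit 372892953189847136)) .nil)))) (.cons (.br (nat_lit 6) (nat_lit 1) (.cons (.rf (nat_lit 786) (nat_lit 14242959524132685856)) (.cons (.rf (nat_lit 788) (nat_lit 14242959524133701664)) (.cons (.br (nat_lit 6) (nat_lit 1) (.cons (.rf (nat_lit 786) (nat_lit 14242959524132685856)) (.cons (.rf (nat_lit 788) (nat_lit 14242959524133701664)) .nil))) .nil)))) .nil))))]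

theorem c20 : chkAll C T R L20 (nat_lit 757) = true := by decide +kernel

theorem l20 : (nat_lit 757) + L20.length = (nat_lit 790) := by decide +kernel

/-- part of the certificates -/
def L21 : List Prf := [(.br (nat_lit 2) (nat_lit 0) (.cons (.rf (nat_lit 780) (nat_lit 14242959524133701664)) (.cons (.rf (nat_lit 780) (nat_lit 14242925405987244064)) (.cons (.rf (nat_lit 781) (nat_lit 14242959524133701664)) (.cons (.br (nat_lit 8) (nat_lit 1) (.cons (.rf (nat_lit 708) (nat_lit 252104115586112)) (.cons (.rf (nat_lit 708) (nat_lit 252104114570304)) (.cons (.br (nat_lit 6) (nat_lit 1) (.cons (.rf (nat_lit 784) (nat_lit 14242959524133701664)) (.cons (.rf (nat_lit 784) (nat_lit 14242959524132685856)) (.cons (.br (nat_lit 6) (nat_lit 1) (.cons (.rf (nat_lit 784) (nat_lit 14242959524133701664)) (.cons (.rf (nat_lit 784) (nat_lit 14242959524132685856)) (.cons (.kr (nat_lit 281474976710656) (nat_lit 1208925819614629174706176) (nat_lit 6) (nat_lit 0)) .nil)))) (.cons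 (.br (nat_lit 6) (nat_lit 1) (.cons (.rf (nat_lit 784) (nat_lit 14242959524133701664)) (.cons (.rf (nat_lit 784) (nat_lit 14242959524132685856)) (.cons (.kr (nat_lit 281474976710656) (nat_lit 1208925819614629174706176) (nat_lit 6) (nat_lit 0)) .nil)))) .nil))))) (.cons (.br (nat_lit 3) (nat_lit 0) (.cons (.rf (nat_lit 786) (nat_lit 14242959524133701664)) (.cons (.rf (nat_lit 789) (nat_lit 14242959524133701664)) (.cons (.rf (nat_lit 789) (nat_lit 14207983028562658368)) (.cons (.br (nat_lit 3) (nat_lit 0) (.cons (.rf (nat_lit 786) (nat_lit 14242959524133701664)) (.cons (.rf (nat_lit 789) (nat_lit 14242959524133701664)) (.cons (.rf (nat_lit 789) (nat_lit 14207983028562658368)) .nil)))) .nil))))) .nil))))) .nil))))),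
 (.br (nat_lit 5) (nat_lit 1) (.cons (.rf (nat_lit 515) (nat_lit 325702574508064)) (.cons (.rf (nat_lit 708) (nat_lit 325702574508064)) (.cons (.rf (nat_lit 708) (nat_lit 325702573492256)) (.cons (.br (nat_lit 10) (nat_lit 1) (.cons (.br (nat_lit 1) (nat_lit 0) (.cons (.rf (nat_lit 740) (nat_lit 407901468851537952)) (.cons (.rf (nat_lit 740) (nat_lit 407867350705080352)) (.cons (.rf (nat_lit 768) (nat_lit 407901468851537952)) (.cons (.rf (nat_lit 768) (nat_lit 407867350705080352)) (.cons (.br (nat_lit 2) (nat_lit 0) (.cons (.rf (nat_lit 780) (nat_lit 14242959524133701664)) (.cons (.rf (nat_lit 780) (nat_lit 14242925405987244064)) (.cons (.rf (nat_lit 790) (nat_lit 14242959524133701664)) (.cons (.rf (nat_lit 790) (nat_lit 14242925405987244064)) (.cons (.br (nat_lit 2) (nat_lit 0) (.cons (.rf (nat_lit 780) (nat_lit 14242959524133701664)) (.cons (.rf (nat_lit 780) (nat_lit 14242925405987244064)) (.cons (.rf (nat_lit 790) (nat_lit 14242959524133701664)) (.cons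 (.rf (nat_lit 790) (nat_lit 14242925405987244064)) .nil))))) .nil)))))) .nil)))))) .nil)) .nil))))),
 (.br (nat_lit 8) (nat_lit 1) (.cons (.rf (nat_lit 361) (nat_lit 372929336866605088)) .nil)),
 (.br (nat_lit 4) (nat_lit 0) (.cons (.br (nat_lit 8) (nat_lit 1) (.cons (.kr (nat_lit 18446744073709617152) (nat_lit 1103806595072) (nat_lit 2) (nat_lit 0)) (.cons (.br (nat_lit 9) (nat_lit 1) (.cons (.kr (nat_lit 4722366482869645213952) (nat_lit 1103806595072) (nat_lit 1) (nat_lit 0)) (.cons (.kr (nat_lit 4722366482869645213952) (nat_lit 18446744073709617152) (nat_lit 1) (nat_lit 0)) .nil))) .nil))) (.cons (.rf (nat_lit 792) (nat_lit 12710601549776928)) .nil))),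
 (.br (nat_lit 9) (nat_lit 1) (.cons (.br (nat_lit 10) (nat_lit 0) (.cons (.br (nat_lit 10) (nat_lit 0) .nil) .nil)) .nil)),
 (.br (nat_lit 9) (nat_lit 1) (.cons (.rf (nat_lit 335) (nat_lit 407901467811318816)) (.cons (.rf (nat_lit 336) (nat_lit 407901467811318816)) .nil))),
 (.br (nat_lit 9) (nat_lit 1) (.cons (.rf (nat_lit 336) (nat_lit 372998570699197472)) (.cons (.rf (nat_lit 335) (nat_lit 372998570699197472)) .nil))),
 (.br (nat_lit 8) (nat_lit 1) (.cons (.rf (nat_lit 338) (nat_lit 372998570699197472)) .nil)),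
 (.br (nat_lit 4) (nat_lit 0) (.cons (.rf (nat_lit 794) (nat_lit 325702574508064)) (.cons (.br (nat_lit 8) (nat_lit 1) (.cons (.rf (nat_lit 795) (nat_lit 407901468851537952)) (.cons (.rf (nat_lit 796) (nat_lit 407901468851537952)) .nil))) (.cons (.rf (nat_lit 797) (nat_lit 13836501456619552)) .nil)))),
 (.br (nat_lit 8) (nat_lit 1) (.cons (.br (nat_lit 4) (nat_lit 0) (.cons (.rf (nat_lit 795) (nat_lit 407900402659429408)) (.cons (.rf (nat_lit 338) (nat_lit 443929200718612512)) .nil))) (.cons (.rf (nat_lit 353) (nat_lit 12744720769976352)) (.cons (.rf (nat_lit 341) (nat_lit 11654005235222560)) .nil)))),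
 (.br (nat_lit 9) (nat_lit 1) (.cons (.kr (nat_lit 4722366482869645213952) (nat_lit 18446744073709617152) (nat_lit 1) (nat_lit 0)) .nil)),
 (.br (nat_lit 9) (nat_lit 1) (.cons (.br (nat_lit 10) (nat_lit 0) (.cons (.br (nat_lit 11) (nat_lit 0) (.cons (.kr (nat_lit 1208925819614633469673728) (nat_lit 309485009821345068741623808) (nat_lit 1) (nat_lit 0)) .nil)) .nil)) .nil)),
 (.br (nat_lit 9) (nat_lit 1) (.cons (.rf (nat_lit 801) (nat_lit 14242959524133701664)) (.cons (.br (nat_lit 9) (nat_lit 1) (.cons (.rf (nat_lit 801) (nat_lit 14242959524133701664)) .nil)) .nil))),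
 (.br (nat_lit 8) (nat_lit 1) (.cons (.ev (nat_lit 18519084242235818241) (nat_lit 1)) (.cons (.br (nat_lit 4) (nat_lit 0) (.cons (.kr (nat_lit 18446744073709617152) (nat_lit 1103806595072) (nat_lit 2) (nat_lit 0)) (.cons (.rf (nat_lit 802) (nat_lit 14242959524133701664)) .nil))) .nil))),
 (.br (nat_lit 4) (nat_lit 0) (.cons (.rf (nat_lit 803) (nat_lit 14242959524133701664)) (.cons (.br (nat_lit 9) (nat_lit 1) (.cons (.ev (nat_lit 4722438823038171545601) (nat_lit 1)) (.cons (.rf (nat_lit 802) (nat_lit 14242925439273240608)) .nil))) .nil))),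
 (.br (nat_lit 9) (nat_lit 1) (.cons (.br (nat_lit 10) (nat_lit 0) (.cons (.br (nat_lit 11) (nat_lit 0) (.cons (.ev (nat_lit 79228167255077565636427120896) (nat_lit 1)) .nil)) .nil)) .nil)),
 (.br (nat_lit 4) (nat_lit 0) (.cons (.ev (nat_lit 72339073309671681) (nat_lit 1)) (.cons (.br (nat_lit 8) (nat_lit 1) (.cons (.br (nat_lit 9) (nat_lit 1) (.cons (.rf (nat_lit 805) (nat_lit 14242959524133701664)) (.cons (.br (nat_lit 9) (nat_lit 1) (.cons (.rf (nat_lit 805) (nat_lit 14242959524133701664)) .nil)) .nil))) (.cons (.ev (nat_lit 18519084242235818241) (nat_lit 1)) .nil))) .nil))),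
 (.br (nat_lit 8) (nat_lit 1) (.cons (.br (nat_lit 10) (nat_lit 0) (.cons (.br (nat_lit 11) (nat_lit 0) (.cons (.ev (nat_lit 79228167255077565636427120896) (nat_lit 1)) .nil)) .nil)) .nil)),
 (.br (nat_lit 4) (nat_lit 0) (.cons (.ev (nat_lit 72339073309671681) (nat_lit 1)) (.cons (.br (nat_lit 9) (nat_lit 1) (.cons (.br (nat_lit 8) (nat_lit 1) (.cons (.rf (nat_lit 807) (nat_lit 14242959524133701664)) (.cons (.br (nat_lit 8) (nat_lit 1) (.cons (.rf (nat_lit 807) (nat_lit 14242959524133701664)) .nil)) .nil))) (.cons (.ev (nat_lit 4722438823038171545601) (nat_lit 1)) .nil))) .nil))),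
 (.br (nat_lit 3) (nat_lit 0) (.cons (.br (nat_lit 4) (nat_lit 0) (.cons (.rf (nat_lit 793) (nat_lit 12710601549776928)) (.cons (.rf (nat_lit 793) (nat_lit 12676483403318336)) (.cons (.br (nat_lit 4) (nat_lit 0) (.cons (.rf (nat_lit 792) (nat_lit 13836501456619552)) (.cons (.rf (nat_lit 792) (nat_lit 13802416596158496)) .nil))) .nil)))) (.cons (.br (nat_lit 7) (nat_lit 1) (.cons (.rf (nat_lit 798) (nat_lit 407901468851537952)) (.cons (.rf (nat_lit 799) (nat_lit 407901468851537952)) (.cons (.br (nat_lit 8) (nat_lit 1) (.cons (.br (nat_lit 4) (nat_lit 0) (.cons (.ev (nat_lit 72339073309671681) (nat_lit 1)) (.cons (.rf (nat_lit 797) (nat_lit 13835435264511008)) .nil))) (.cons (.rf (nat_lit 341) (nat_lit 12744720769976352)) (.cons (.rf (nat_lit 353) (nat_lit 11654005235222560)) .nil)))) .nil)))) (.cons (.br (nat_lit 7) (nat_lit 1) (.cons (.rf (nat_lit 798) (nat_lit 407867383991076896)) (.cons (.rf (nat_lit 799) (nat_lit 407867383991076896)) (.cons (.br (nat_lit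 9) (nat_lit 1) (.cons (.br (nat_lit 4) (nat_lit 0) (.cons (.ev (nat_lit 72339073309671681) (nat_lit 1)) (.cons (.rf (nat_lit 338) (nat_lit 445019950613104672)) .nil))) (.cons (.rf (nat_lit 341) (nat_lit 12744755129714720)) (.cons (.rf (nat_lit 353) (nat_lit 11654039594960928)) .nil)))) .nil)))) (.cons (.br (nat_lit 7) (nat_lit 1) (.cons (.br (nat_lit 4) (nat_lit 0) (.cons (.rf (nat_lit 797) (nat_lit 13836468169606208)) (.cons (.rf (nat_lit 797) (nat_lit 13802383309145152)) (.cons (.br (nat_lit 8) (nat_lit 1) (.cons (.br (nat_lit 8) (nat_lit 1) (.cons (.br (nat_lit 9) (nat_lit 1) (.cons (.rf (nat_lit 800) (nat_lit 14242959524133701664)) (.cons (.rf (nat_lit 800) (nat_lit 14208056627021580320)) .nil))) .nil)) (.cons (.br (nat_lit 8) (nat_lit 1) (.cons (.br (nat_lit 9) (nat_lit 1) (.cons (.rf (nat_lit 800) (nat_lit 14242959524133701664)) (.cons (.rf (nat_lit 800) (nat_lit 14208056627021580320)) .nil))) .nil)) .nil))) .nil)))) (.cons (.br (nat_lit 4) (nat_lit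 0) (.cons (.rf (nat_lit 803) (nat_lit 14242959524133701664)) (.cons (.rf (nat_lit 804) (nat_lit 14242959524133701664)) (.cons (.br (nat_lit 4) (nat_lit 0) (.cons (.rf (nat_lit 803) (nat_lit 14242959524133701664)) (.cons (.rf (nat_lit 804) (nat_lit 14242959524133701664)) .nil))) .nil)))) (.cons (.br (nat_lit 4) (nat_lit 0) (.cons (.rf (nat_lit 806) (nat_lit 14242959524133701664)) (.cons (.rf (nat_lit 808) (nat_lit 14242959524133701664)) (.cons (.br (nat_lit 4) (nat_lit 0) (.cons (.rf (nat_lit 806) (nat_lit 14242959524133701664)) (.cons (.rf (nat_lit 808) (nat_lit 14242959524133701664)) .nil))) .nil)))) .nil)))) .nil))))),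
 (.br (nat_lit 4) (nat_lit 0) (.cons (.ev (nat_lit 18519084242235818241) (nat_lit 1)) (.cons (.br (nat_lit 8) (nat_lit 1) (.cons (.rf (nat_lit 393) (nat_lit 443930265870501920)) (.cons (.br (nat_lit 9) (nat_lit 1) (.cons (.rf (nat_lit 393) (nat_lit 443896181009025056)) (.cons (.br (nat_lit 10) (nat_lit 0) (.cons (.br (nat_lit 11) (nat_lit 0) (.cons (.zr (nat_lit 6063518564004624454713344) (nat_lit 79228162532783424043426512897) (nat_lit 10) (nat_lit 7)) .nil)) .nil)) .nil))) .nil))) .nil))),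
 (.br (nat_lit 3) (nat_lit 0) (.cons (.br (nat_lit 4) (nat_lit 0) (.cons (.ev (nat_lit 18519084242235818241) (nat_lit 1)) (.cons (.ev (nat_lit 4722438823038171545601) (nat_lit 1)) (.cons (.br (nat_lit 4) (nat_lit 0) (.cons (.ev (nat_lit 18519084242235818241) (nat_lit 1)) (.cons (.ev (nat_lit 4722438823038171545601) (nat_lit 1)) .nil))) .nil)))) (.cons (.br (nat_lit 4) (nat_lit 0) (.cons (.ev (nat_lit 18519084242235818241) (nat_lit 1)) (.cons (.rf (nat_lit 810) (nat_lit 14242959524133701664)) (.cons (.br (nat_lit 4) (nat_lit 0) (.cons (.ev (nat_lit 18519084242235818241) (nat_lit 1)) (.cons (.rf (nat_lit 810) (nat_lit 14242959524133701664)) .nil))) .nil)))) .nil))),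
 (.br (nat_lit 10) (nat_lit 0) (.cons (.kr (nat_lit 18446744073709617152) (nat_lit 1099528404992) (nat_lit 2) (nat_lit 0)) (.cons (.kr (nat_lit 4722366482869645213952) (nat_lit 1099528404992) (nat_lit 1) (nat_lit 0)) (.cons (.br (nat_lit 10) (nat_lit 0) (.cons (.kr (nat_lit 18446744073709617152) (nat_lit 1099528404992) (nat_lit 2) (nat_lit 0)) (.cons (.kr (nat_lit 4722366482869645213952) (nat_lit 1099528404992) (nat_lit 1) (nat_lit 0)) .nil))) .nil)))),
 (.br (nat_lit 9) (nat_lit 1) (.cons (.br (nat_lit 10) (nat_lit 0) (.cons (.br (nat_lit 11) (nat_lit 0) (.cons (.kr (nat_lit 309485009821345068741558528) (nat_lit 1208925819614633469739008) (nat_lit 1) (nat_lit 0)) .nil)) .nil)) .nil)),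
 (.br (nat_lit 9) (nat_lit 1) (.cons (.rf (nat_lit 813) (nat_lit 14242959524133701664)) (.cons (.rf (nat_lit 813) (nat_lit 14208056593734566976)) .nil))),
 (.br (nat_lit 4) (nat_lit 0) (.cons (.rf (nat_lit 812) (nat_lit 372964453591942208)) (.cons (.br (nat_lit 8) (nat_lit 1) (.cons (.br (nat_lit 10) (nat_lit 0) (.cons (.kr (nat_lit 18446744073709551616) (nat_lit 1208925819614629174706176) (nat_lit 8) (nat_lit 0)) (.cons (.kr (nat_lit 1208925819614629174771712) (nat_lit 1099528404992) (nat_lit 2) (nat_lit 0)) .nil))) (.cons (.br (nat_lit 9) (nat_lit 1) (.cons (.br (nat_lit 10) (nat_lit 0) (.cons (.br (nat_lit 11) (nat_lit 0) (.cons (.zr (nat_lit 158456334510155129073797760256) (nat_lit 217021609402171395) (nat_lit 5) (nat_lit 0)) .nil)) .nil)) (.cons (.kr (nat_lit 4722366482869645213696) (nat_lit 309485009821345068724781056) (nat_lit 9) (nat_lit 0)) .nil))) .nil))) .nil))),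
 (.br (nat_lit 3) (nat_lit 0) (.cons (.rf (nat_lit 812) (nat_lit 407901468851537952)) (.cons (.br (nat_lit 4) (nat_lit 0) (.cons (.br (nat_lit 4) (nat_lit 0) (.cons (.rf (nat_lit 812) (nat_lit 372964453591942208)) (.cons (.rf (nat_lit 814) (nat_lit 14242959524133701664)) .nil))) (.cons (.rf (nat_lit 815) (nat_lit 14242959524133701664)) (.cons (.br (nat_lit 4) (nat_lit 0) (.cons (.rf (nat_lit 814) (nat_lit 14242959524133701664)) (.cons (.rf (nat_lit 815) (nat_lit 14242959524133701664)) .nil))) .nil)))) .nil))),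
 (.br (nat_lit 4) (nat_lit 0) (.cons (.br (nat_lit 3) (nat_lit 0) (.cons (.rf (nat_lit 812) (nat_lit 407901468851537952)) (.cons (.br (nat_lit 8) (nat_lit 1) (.cons (.br (nat_lit 9) (nat_lit 1) (.cons (.kr (nat_lit 4722366482869645213952) (nat_lit 1208925819614629174771712) (nat_lit 1) (nat_lit 0)) (.cons (.br (nat_lit 10) (nat_lit 0) (.cons (.br (nat_lit 11) (nat_lit 0) (.cons (.zr (nat_lit 158456334510155129073797760256) (nat_lit 217021609402171395) (nat_lit 5) (nat_lit 0)) .nil)) .nil)) .nil))) (.cons (.br (nat_lit 11) (nat_lit 0) (.cons (.kr (nat_lit 309485009821345068724781312) (nat_lit 18446744073709617152) (nat_lit 1) (nat_lit 0)) (.cons (.kr (nat_lit 309485009821345068724781312) (nat_lit 1103806595072) (nat_lit 1) (nat_lit 0)) .nil))) .nil))) .nil))) (.cons (.rf (nat_lit 816) (nat_lit 372964453591942208)) .nil))),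
 (.br (nat_lit 3) (nat_lit 0) (.cons (.rf (nat_lit 812) (nat_lit 407901468851537952)) (.cons (.br (nat_lit 4) (nat_lit 0) (.cons (.rf (nat_lit 817) (nat_lit 14208022508874105920)) (.cons (.rf (nat_lit 816) (nat_lit 372964453591942208)) (.cons (.rf (nat_lit 817) (nat_lit 14242959524133701664)) .nil)))) .nil))),
 (.br (nat_lit 7) (nat_lit 1) (.cons (.rf (nat_lit 809) (nat_lit 407867350705079360)) (.cons (.rf (nat_lit 809) (nat_lit 372964453591942208)) (.cons (.br (nat_lit 3) (nat_lit 0) (.cons (.rf (nat_lit 811) (nat_lit 407901468851537952)) (.cons (.rf (nat_lit 811) (nat_lit 407867350705079360)) (.cons (.br (nat_lit 3) (nat_lit 0) (.cons (.rf (nat_lit 811) (nat_lit 407901468851537952)) (.cons (.rf (nat_lit 811) (nat_lit 407867350705079360)) .nil))) .nil)))) (.cons (.br (nat_lit 3) (nat_lit 0) (.cons (.rf (nat_lit 816) (nat_lit 407901468851537952)) (.cons (.rf (nat_lit 818) (nat_lit 407901468851537952)) (.cons (.br (nat_lit 3) (nat_lit 0) (.cons (.rf (nat_lit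 816) (nat_lit 407901468851537952)) (.cons (.rf (nat_lit 818) (nat_lit 407901468851537952)) .nil))) .nil)))) .nil))))),
 (.br (nat_lit 9) (nat_lit 1) (.cons (.rf (nat_lit 336) (nat_lit 372998571739416608)) (.cons (.rf (nat_lit 335) (nat_lit 372998571739416608)) .nil))),
 (.br (nat_lit 4) (nat_lit 0) (.cons (.rf (nat_lit 820) (nat_lit 407901468851537952)) (.cons (.rf (nat_lit 338) (nat_lit 445056165777344544)) .nil))),
 (.br (nat_lit 7) (nat_lit 1) (.cons (.br (nat_lit 9) (nat_lit 1) (.cons (.rf (nat_lit 485) (nat_lit 12743656690812960)) (.cons (.rf (nat_lit 642) (nat_lit 407864155248332832)) .nil))) (.cons (.br (nat_lit 9) (nat_lit 1) (.cons (.rf (nat_lit 642) (nat_lit 372961258136211488)) (.cons (.rf (nat_lit 485) (nat_lit 11652941156059168)) .nil))) .nil))),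
 (.br (nat_lit 4) (nat_lit 0) (.cons (.rf (nat_lit 822) (nat_lit 407901468851537952)) (.cons (.rf (nat_lit 792) (nat_lit 13835436304730144)) .nil))),
 (.br (nat_lit 4) (nat_lit 0) (.cons (.rf (nat_lit 792) (nat_lit 11583636491044896)) (.cons (.rf (nat_lit 792) (nat_lit 11515466770122784)) .nil))),
 (.br (nat_lit 9) (nat_lit 1) (.cons (.br (nat_lit 10) (nat_lit 0) (.cons (.br (nat_lit 11) (nat_lit 0) (.cons (.ev (nat_lit 79538861190718805709791691008) (nat_lit 1)) .nil)) .nil)) .nil)),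
 (.br (nat_lit 4) (nat_lit 0) (.cons (.rf (nat_lit 623) (nat_lit 14242855072676482112)) (.cons (.rf (nat_lit 802) (nat_lit 14242958458981812256)) .nil))),
 (.br (nat_lit 7) (nat_lit 1) (.cons (.br (nat_lit 8) (nat_lit 1) (.cons (.rf (nat_lit 797) (nat_lit 13835369731720256)) (.cons (.ev (nat_lit 18519084242235818241) (nat_lit 1)) (.cons (.br (nat_lit 4) (nat_lit 0) (.cons (.rf (nat_lit 623) (nat_lit 14207952175564360768)) (.cons (.br (nat_lit 9) (nat_lit 1) (.cons (.rf (nat_lit 825) (nat_lit 14242959524133701664)) (.cons (.br (nat_lit 9) (nat_lit 1) (.cons (.rf (nat_lit 825) (nat_lit 14242959524133701664)) .nil)) .nil))) .nil))) .nil)))) (.cons (.br (nat_lit 8) (nat_lit 1) (.cons (.zr (nat_lit 18447025552981360640) (nat_lit 72057594037928449) (nat_lit 5) (nat_lit 8)) (.cons (.rf (nat_lit 826) (nat_lit 14242959524133701664)) (.cons (.ev (nat_lit 18519084242235818241) (nat_lit 1)) .nil)))) .nil)))]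

theorem c21 : chkAll C T R L21 (nat_lit 790) = true := by decide +kernel

theorem l21 : (nat_lit 790) + L21.length = (nat_lit 828) := by decide +kernel

/-- part of the certificates -/
def L22 : List Prf := [(.br (nat_lit 9) (nat_lit 1) (.cons (.br (nat_lit 10) (nat_lit 0) (.cons (.br (nat_lit 11) (nat_lit 0) (.cons (.kr (nat_lit 1208925819614633469673728) (nat_lit 309485009821345068741623808) (nat_lit 1) (nat_lit 0)) .nil)) .nil)) .nil)),
 (.br (nat_lit 9) (nat_lit 1) (.cons (.rf (nat_lit 828) (nat_lit 14242959524133701664)) (.cons (.rf (nat_lit 828) (nat_lit 14208054430144791616)) .nil))),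
 (.br (nat_lit 4) (nat_lit 0) (.cons (.rf (nat_lit 797) (nat_lit 13767200010798144)) (.cons (.br (nat_lit 8) (nat_lit 1) (.cons (.br (nat_lit 9) (nat_lit 1) (.cons (.rf (nat_lit 328) (nat_lit 372964485838736416)) (.cons (.rf (nat_lit 802) (nat_lit 14242890289260890144)) .nil))) (.cons (.br (nat_lit 9) (nat_lit 1) (.cons (.br (nat_lit 10) (nat_lit 0) (.cons (.br (nat_lit 11) (nat_lit 0) (.cons (.zr (nat_lit 316918694686155425731957686784) (nat_lit 4741245853982592598022) (nat_lit 10) (nat_lit 12)) .nil)) .nil)) (.cons (.kr (nat_lit 4722366482869645213696) (nat_lit 309485009821345068724781056) (nat_lit 9) (nat_lit 0)) .nil))) .nil))) .nil))),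
 (.br (nat_lit 7) (nat_lit 1) (.cons (.rf (nat_lit 827) (nat_lit 14242959524133701664)) (.cons (.br (nat_lit 4) (nat_lit 0) (.cons (.br (nat_lit 4) (nat_lit 0) (.cons (.rf (nat_lit 797) (nat_lit 13767200010798144)) (.cons (.rf (nat_lit 829) (nat_lit 14242959524133701664)) .nil))) (.cons (.rf (nat_lit 830) (nat_lit 14242959524133701664)) (.cons (.br (nat_lit 4) (nat_lit 0) (.cons (.rf (nat_lit 829) (nat_lit 14242959524133701664)) (.cons (.rf (nat_lit 830) (nat_lit 14242959524133701664)) .nil))) .nil)))) .nil))),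
 (.br (nat_lit 3) (nat_lit 0) (.cons (.br (nat_lit 8) (nat_lit 1) (.cons (.rf (nat_lit 798) (nat_lit 407900403699648544)) (.cons (.rf (nat_lit 799) (nat_lit 407900403699648544)) (.cons (.br (nat_lit 7) (nat_lit 1) (.cons (.rf (nat_lit 821) (nat_lit 407901468851537952)) (.cons (.rf (nat_lit 341) (nat_lit 12745785921865760)) (.cons (.rf (nat_lit 353) (nat_lit 11655070387111968)) .nil)))) .nil)))) (.cons (.br (nat_lit 4) (nat_lit 0) (.cons (.rf (nat_lit 823) (nat_lit 407901468851537952)) (.cons (.rf (nat_lit 823) (nat_lit 407831168826837024)) (.cons (.rf (nat_lit 824) (nat_lit 13836501456619552)) .nil)))) (.cons (.br (nat_lit 8) (nat_lit 1) (.cons (.rf (nat_lit 798) (nat_lit 407832233978726432)) (.cons (.rf (nat_lit 799) (nat_lit 407832233978726432)) (.cons (.br (nat_lit 9) (nat_lit 1) (.cons (.rf (nat_lit 821) (nat_lit 407831168826837024)) (.cons (.kr (nat_lit 4722366482869645214208) (nat_lit 1099528470528) (nat_lit 1) (nat_lit 0)) (.cons (.rf (nat_lit 353)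 (nat_lit 11655139106588704)) .nil)))) .nil)))) (.cons (.br (nat_lit 7) (nat_lit 1) (.cons (.rf (nat_lit 827) (nat_lit 14242959524133701664)) (.cons (.rf (nat_lit 831) (nat_lit 14242959524133701664)) (.cons (.br (nat_lit 7) (nat_lit 1) (.cons (.rf (nat_lit 827) (nat_lit 14242959524133701664)) (.cons (.rf (nat_lit 831) (nat_lit 14242959524133701664)) .nil))) .nil)))) .nil))))),
 (.br (nat_lit 9) (nat_lit 1) (.cons (.rf (nat_lit 517) (nat_lit 407864020022985824)) (.cons (.rf (nat_lit 558) (nat_lit 372894120282197056)) (.cons (.rf (nat_lit 558) (nat_lit 407867383991045152)) .nil)))),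
 (.br (nat_lit 4) (nat_lit 0) (.cons (.rf (nat_lit 485) (nat_lit 11652941157074976)) (.cons (.rf (nat_lit 485) (nat_lit 11655140180329536)) (.cons (.br (nat_lit 4) (nat_lit 0) (.cons (.rf (nat_lit 485) (nat_lit 11652941157074976)) (.cons (.rf (nat_lit 485) (nat_lit 11655140180329536)) .nil))) .nil)))),
 (.br (nat_lit 4) (nat_lit 0) (.cons (.rf (nat_lit 833) (nat_lit 407901468850522144)) (.cons (.rf (nat_lit 814) (nat_lit 14242958458981812256)) .nil))),
 (.br (nat_lit 10) (nat_lit 0) (.cons (.br (nat_lit 11) (nat_lit 0) (.cons (.kr (nat_lit 309485009821345068741558528) (nat_lit 1208925819614633469739008) (nat_lit 1) (nat_lit 0)) .nil)) .nil)),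
 (.br (nat_lit 4) (nat_lit 0) (.cons (.ev (nat_lit 18519084242235818241) (nat_lit 1)) (.cons (.br (nat_lit 8) (nat_lit 1) (.cons (.rf (nat_lit 393) (nat_lit 443929200718612512)) (.cons (.br (nat_lit 9) (nat_lit 1) (.cons (.ev (nat_lit 4722438540463683207169) (nat_lit 1)) (.cons (.rf (nat_lit 836) (nat_lit 14242959524133701664)) .nil))) .nil))) .nil))),
 (.br (nat_lit 9) (nat_lit 1) (.cons (.br (nat_lit 10) (nat_lit 0) (.cons (.br (nat_lit 11) (nat_lit 0) (.cons (.ev (nat_lit 79228167255077846011892269056) (nat_lit 1)) .nil)) .nil)) .nil)),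
 (.br (nat_lit 4) (nat_lit 0) (.cons (.ev (nat_lit 72058697844588801) (nat_lit 1)) (.cons (.br (nat_lit 9) (nat_lit 1) (.cons (.rf (nat_lit 838) (nat_lit 14242959524133701664)) (.cons (.br (nat_lit 9) (nat_lit 1) (.cons (.rf (nat_lit 838) (nat_lit 14242959524133701664)) .nil)) .nil))) .nil))),
 (.br (nat_lit 4) (nat_lit 0) (.cons (.ev (nat_lit 72058697844588801) (nat_lit 1)) (.cons (.br (nat_lit 9) (nat_lit 1) (.cons (.br (nat_lit 8) (nat_lit 1) (.cons (.rf (nat_lit 393) (nat_lit 443861030996674592)) (.cons (.br (nat_lit 10) (nat_lit 0) (.cons (.br (nat_lit 11) (nat_lit 0) (.cons (.ev (nat_lit 79538861190718805714069881088) (nat_lit 1)) .nil)) .nil)) .nil))) (.cons (.ev (nat_lit 4722438540463683207169) (nat_lit 1)) .nil))) .nil))),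
 (.br (nat_lit 3) (nat_lit 0) (.cons (.rf (nat_lit 799) (nat_lit 407900337127654464)) (.cons (.br (nat_lit 7) (nat_lit 1) (.cons (.br (nat_lit 8) (nat_lit 1) (.cons (.rf (nat_lit 820) (nat_lit 372996374862627904)) (.cons (.ev (nat_lit 18519084242235818241) (nat_lit 1)) (.cons (.rf (nat_lit 833) (nat_lit 407901468851537952)) .nil)))) (.cons (.br (nat_lit 9) (nat_lit 1) (.cons (.br (nat_lit 8) (nat_lit 1) (.cons (.ev (nat_lit 18519084242235818241) (nat_lit 1)) (.cons (.rf (nat_lit 416) (nat_lit 407867383991076896)) (.cons (.rf (nat_lit 558) (nat_lit 372891989978418240)) .nil)))) (.cons (.kr (nat_lit 4722366482869645213952) (nat_lit 1208925819614629174771712) (nat_lit 1) (nat_lit 0)) (.cons (.rf (nat_lit 642) (nat_lit 407864155249380384)) .nil)))) (.cons (.br (nat_lit 9) (nat_lit 1) (.cons (.br (nat_lit 4) (nat_lit 0) (.cons (.ev (nat_lit 72058697844588801) (nat_lit 1)) (.cons (.rf (nat_lit 559) (nat_lit 14242923308969430048)) .nil))) (.cons (.rf (nat_lit 642)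 (nat_lit 372961258137259040)) (.cons (.rf (nat_lit 834) (nat_lit 407901468851537952)) .nil)))) .nil)))) (.cons (.br (nat_lit 7) (nat_lit 1) (.cons (.br (nat_lit 8) (nat_lit 1) (.cons (.rf (nat_lit 338) (nat_lit 443928068993713216)) (.cons (.ev (nat_lit 18519084242235818241) (nat_lit 1)) (.cons (.rf (nat_lit 835) (nat_lit 14242959524133701664)) .nil)))) (.cons (.br (nat_lit 4) (nat_lit 0) (.cons (.ev (nat_lit 18519084242235818241) (nat_lit 1)) (.cons (.rf (nat_lit 837) (nat_lit 14242959524133701664)) (.cons (.br (nat_lit 4) (nat_lit 0) (.cons (.ev (nat_lit 18519084242235818241) (nat_lit 1)) (.cons (.rf (nat_lit 837) (nat_lit 14242959524133701664)) .nil))) .nil)))) (.cons (.br (nat_lit 4) (nat_lit 0) (.cons (.rf (nat_lit 839) (nat_lit 14242959524133701664)) (.cons (.rf (nat_lit 840) (nat_lit 14242959524133701664)) (.cons (.br (nat_lit 4) (nat_lit 0) (.cons (.rf (nat_lit 839) (nat_lit 14242959524133701664)) (.cons (.rf (nat_lit 840) (nat_lit 14242959524133701664))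 .nil))) .nil)))) .nil)))) .nil)))),
 (.br (nat_lit 7) (nat_lit 1) (.cons (.ev (nat_lit 18519084242235818241) (nat_lit 1)) (.cons (.rf (nat_lit 826) (nat_lit 14242957327257928768)) .nil))),
 (.br (nat_lit 9) (nat_lit 1) (.cons (.rf (nat_lit 625) (nat_lit 443894050706230304)) (.cons (.rf (nat_lit 802) (nat_lit 14242890222688896064)) .nil))),
 (.br (nat_lit 3) (nat_lit 0) (.cons (.rf (nat_lit 799) (nat_lit 407900337127654464)) (.cons (.rf (nat_lit 799) (nat_lit 407832167406732352)) (.cons (.br (nat_lit 4) (nat_lit 0) (.cons (.rf (nat_lit 842) (nat_lit 14242959524133701664)) (.cons (.br (nat_lit 4) (nat_lit 0) (.cons (.rf (nat_lit 842) (nat_lit 14242959524133701664)) (.cons (.rf (nat_lit 843) (nat_lit 14242959524133701664)) .nil))) (.cons (.br (nat_lit 4) (nat_lit 0) (.cons (.rf (nat_lit 843) (nat_lit 14242889224109000736)) (.cons (.rf (nat_lit 843) (nat_lit 14242959524133701664)) .nil))) .nil)))) .nil)))),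
 (.br (nat_lit 8) (nat_lit 1) (.cons (.rf (nat_lit 416) (nat_lit 407867383990061088)) (.cons (.rf (nat_lit 558) (nat_lit 372891989977370688)) .nil))),
 (.br (nat_lit 8) (nat_lit 1) (.cons (.rf (nat_lit 393) (nat_lit 443861030997690400)) (.cons (.rf (nat_lit 836) (nat_lit 14242889224109000736)) .nil))),
 (.br (nat_lit 7) (nat_lit 1) (.cons (.br (nat_lit 4) (nat_lit 0) (.cons (.rf (nat_lit 353) (nat_lit 12743589045077056)) (.cons (.rf (nat_lit 845) (nat_lit 14242959524133701664)) (.cons (.br (nat_lit 8) (nat_lit 1) (.cons (.rf (nat_lit 393) (nat_lit 443929200717596704)) (.cons (.br (nat_lit 9) (nat_lit 1) (.cons (.ev (nat_lit 4722438540463683207169) (nat_lit 1)) (.cons (.br (nat_lit 10) (nat_lit 0) (.cons (.br (nat_lit 11) (nat_lit 0) (.cons (.ev (nat_lit 79538861190718805709791691008) (nat_lit 1)) .nil)) .nil)) .nil))) .nil))) .nil)))) (.cons (.br (nat_lit 4) (nat_lit 0) (.cons (.rf (nat_lit 341) (nat_lit 11652873510323264)) (.cons (.rf (nat_lit 559) (nat_lit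 14242923308968382496)) (.cons (.br (nat_lit 9) (nat_lit 1) (.cons (.rf (nat_lit 846) (nat_lit 14242959524133701664)) (.cons (.ev (nat_lit 4722438540463683207169) (nat_lit 1)) .nil))) .nil)))) .nil))),
 (.br (nat_lit 4) (nat_lit 0) (.cons (.br (nat_lit 10) (nat_lit 0) (.cons (.kr (nat_lit 310693935640959697899553024) (nat_lit 2203335000064) (nat_lit 1) (nat_lit 0)) .nil)) .nil)),
 (.br (nat_lit 7) (nat_lit 1) (.cons (.rf (nat_lit 847) (nat_lit 14242959524133701664)) (.cons (.br (nat_lit 9) (nat_lit 1) (.cons (.br (nat_lit 8) (nat_lit 1) (.cons (.ev (nat_lit 4740885566016664371201) (nat_lit 1)) (.cons (.rf (nat_lit 557) (nat_lit 407865253687266336)) (.cons (.rf (nat_lit 835) (nat_lit 14242889224109000736)) .nil)))) (.cons (.kr (nat_lit 4722366482869645213952) (nat_lit 1208925819614629174771712) (nat_lit 1) (nat_lit 0)) (.cons (.br (nat_lit 11) (nat_lit 0) (.cons (.ev (nat_lit 309489750706912180605812993) (nat_lit 1)) (.cons (.br (nat_lit 8) (nat_lit 1) (.cons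 (.rf (nat_lit 848) (nat_lit 14242959524133701664)) (.cons (.ev (nat_lit 309485028340428211465748481) (nat_lit 1)) .nil))) .nil))) .nil)))) .nil))),
 (.br (nat_lit 3) (nat_lit 0) (.cons (.rf (nat_lit 841) (nat_lit 407901468851537952)) (.cons (.rf (nat_lit 799) (nat_lit 407832167406732352)) (.cons (.br (nat_lit 7) (nat_lit 1) (.cons (.rf (nat_lit 847) (nat_lit 14242959524133701664)) (.cons (.rf (nat_lit 849) (nat_lit 14242959524133701664)) (.cons (.br (nat_lit 7) (nat_lit 1) (.cons (.rf (nat_lit 847) (nat_lit 14242959524133701664)) (.cons (.rf (nat_lit 849) (nat_lit 14242959524133701664)) .nil))) .nil)))) .nil)))),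
 (.br (nat_lit 3) (nat_lit 0) (.cons (.rf (nat_lit 841) (nat_lit 407901468851537952)) (.cons (.rf (nat_lit 844) (nat_lit 407901468851537952)) (.cons (.rf (nat_lit 850) (nat_lit 407901468851537952)) (.cons (.br (nat_lit 3) (nat_lit 0) (.cons (.rf (nat_lit 841) (nat_lit 407901468851537952)) (.cons (.rf (nat_lit 844) (nat_lit 407901468851537952)) (.cons (.rf (nat_lit 850) (nat_lit 407901468851537952)) .nil)))) .nil))))),
 (.br (nat_lit 9) (nat_lit 1) (.cons (.br (nat_lit 4) (nat_lit 0) (.cons (.rf (nat_lit 796) (nat_lit 407865253687298080)) (.cons (.rf (nat_lit 338) (nat_lit 445019949572885536)) .nil))) (.cons (.rf (nat_lit 341) (nat_lit 11656169898739744)) (.cons (.rf (nat_lit 353) (nat_lit 11656169898739744)) .nil)))),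
 (.br (nat_lit 7) (nat_lit 1) (.cons (.br (nat_lit 4) (nat_lit 0) (.cons (.br (nat_lit 9) (nat_lit 1) (.cons (.rf (nat_lit 795) (nat_lit 407867382950857760)) (.cons (.rf (nat_lit 820) (nat_lit 407867383991076896)) .nil))) (.cons (.rf (nat_lit 794) (nat_lit 289487410268192)) (.cons (.rf (nat_lit 797) (nat_lit 13802415555939360)) .nil)))) (.cons (.rf (nat_lit 799) (nat_lit 407867382950857760)) (.cons (.rf (nat_lit 852) (nat_lit 407901468851537952)) .nil)))),
 (.br (nat_lit 4) (nat_lit 0) (.cons (.rf (nat_lit 822) (nat_lit 407867383991076896)) (.cons (.br (nat_lit 7) (nat_lit 1) (.cons (.rf (nat_lit 361) (nat_lit 443930265870501920)) (.cons (.rf (nat_lit 361) (nat_lit 445056165777344544)) .nil))) .nil))),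
 (.br (nat_lit 8) (nat_lit 1) (.cons (.rf (nat_lit 485) (nat_lit 12743622331074592)) (.cons (.rf (nat_lit 642) (nat_lit 407899305260683296)) .nil))),
 (.br (nat_lit 8) (nat_lit 1) (.cons (.br (nat_lit 10) (nat_lit 0) (.cons (.br (nat_lit 11) (nat_lit 0) (.cons (.ev (nat_lit 79537652264899192180111900928) (nat_lit 1)) .nil)) .nil)) .nil)),
 (.br (nat_lit 8) (nat_lit 1) (.cons (.rf (nat_lit 642) (nat_lit 372996408148561952)) (.cons (.rf (nat_lit 485) (nat_lit 11652906796320800)) .nil))),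
 (.br (nat_lit 4) (nat_lit 0) (.cons (.rf (nat_lit 857) (nat_lit 14242959524133701664)) (.cons (.rf (nat_lit 338) (nat_lit 445019846593253440)) (.cons (.br (nat_lit 9) (nat_lit 1) (.cons (.rf (nat_lit 802) (nat_lit 14242923308969461792)) (.cons (.rf (nat_lit 625) (nat_lit 444950615882239040)) .nil))) .nil)))),
 (.br (nat_lit 7) (nat_lit 1) (.cons (.br (nat_lit 4) (nat_lit 0) (.cons (.rf (nat_lit 855) (nat_lit 14242959524133701664)) (.cons (.rf (nat_lit 338) (nat_lit 443893946686410816)) (.cons (.br (nat_lit 9) (nat_lit 1) (.cons (.rf (nat_lit 625) (nat_lit 443824715975396416)) (.cons (.br (nat_lit 8) (nat_lit 1) (.cons (.rf (nat_lit 856) (nat_lit 14242959524133701664)) (.cons (.br (nat_lit 8) (nat_lit 1) (.cons (.rf (nat_lit 856) (nat_lit 14242959524133701664)) .nil)) .nil))) .nil))) .nil)))) (.cons (.rf (nat_lit 858) (nat_lit 14242959524133701664)) .nil))),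
 (.br (nat_lit 8) (nat_lit 1) (.cons (.br (nat_lit 4) (nat_lit 0) (.cons (.ev (nat_lit 4740885566016664371201) (nat_lit 1)) (.cons (.br (nat_lit 9) (nat_lit 1) (.cons (.rf (nat_lit 328) (nat_lit 372998570699197472)) (.cons (.br (nat_lit 10) (nat_lit 0) (.cons (.br (nat_lit 11) (nat_lit 0) (.cons (.zr (nat_lit 288230389086945796) (nat_lit 475368979826399537278130192384) (nat_lit 10) (nat_lit 0)) .nil)) .nil)) .nil))) .nil))) (.cons (.rf (nat_lit 858) (nat_lit 14242958458981812256)) .nil))),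
 (.br (nat_lit 4) (nat_lit 0) (.cons (.rf (nat_lit 860) (nat_lit 14242959524133701664)) (.cons (.rf (nat_lit 829) (nat_lit 14242925439273240608)) .nil))),
 (.br (nat_lit 7) (nat_lit 1) (.cons (.rf (nat_lit 859) (nat_lit 14242959524133701664)) (.cons (.br (nat_lit 4) (nat_lit 0) (.cons (.rf (nat_lit 860) (nat_lit 14242959524133701664)) (.cons (.rf (nat_lit 861) (nat_lit 14242959524133701664)) (.cons (.br (nat_lit 4) (nat_lit 0) (.cons (.rf (nat_lit 860) (nat_lit 14242959524133701664)) (.cons (.rf (nat_lit 829) (nat_lit 14242925439273240608)) .nil))) .nil)))) .nil))),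
 (.br (nat_lit 3) (nat_lit 0) (.cons (.rf (nat_lit 853) (nat_lit 407901468851537952)) (.cons (.rf (nat_lit 853) (nat_lit 407900403699648544)) (.cons (.br (nat_lit 4) (nat_lit 0) (.cons (.rf (nat_lit 854) (nat_lit 407901468851537952)) (.cons (.rf (nat_lit 854) (nat_lit 407900403699648544)) (.cons (.br (nat_lit 4) (nat_lit 0) (.cons (.rf (nat_lit 854) (nat_lit 407901468851537952)) (.cons (.rf (nat_lit 854) (nat_lit 407900403699648544)) .nil))) .nil)))) (.cons (.br (nat_lit 7) (nat_lit 1) (.cons (.rf (nat_lit 859) (nat_lit 14242959524133701664)) (.cons (.rf (nat_lit 862) (nat_lit 14242959524133701664)) (.cons (.br (nat_lit 7) (nat_lit 1) (.cons (.rf (nat_lit 858) (nat_lit 14242959524133701664)) (.cons (.rf (nat_lit 862) (nat_lit 14242959524133701664)) .nil))) .nil)))) .nil))))),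
 (.br (nat_lit 9) (nat_lit 1) (.cons (.rf (nat_lit 335) (nat_lit 407828938664051776)) (.cons (.rf (nat_lit 416) (nat_lit 407901468851537952)) (.cons (.rf (nat_lit 558) (nat_lit 372891956692421696)) .nil)))),
 (.br (nat_lit 4) (nat_lit 0) (.cons (.rf (nat_lit 336) (nat_lit 407828938664051776)) (.cons (.rf (nat_lit 559) (nat_lit 14242958458981780512)) .nil)))]

theorem c22 : chkAll C T R L22 (nat_lit 828) = true := by decide +kernel

theorem l22 : (nat_lit 828) + L22.length = (nat_lit 866) := by decide +kernel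

/-- part of the certificates -/
def L23 : List Prf := [(.br (nat_lit 8) (nat_lit 1) (.cons (.rf (nat_lit 845) (nat_lit 14242890289260890144)) (.cons (.rf (nat_lit 865) (nat_lit 407900403698632736)) .nil))),
 (.br (nat_lit 9) (nat_lit 1) (.cons (.rf (nat_lit 605) (nat_lit 443894050706230304)) (.cons (.rf (nat_lit 814) (nat_lit 14242923308969461792)) .nil))),
 (.br (nat_lit 8) (nat_lit 1) (.cons (.br (nat_lit 9) (nat_lit 1) (.cons (.rf (nat_lit 437) (nat_lit 407867383991076896)) .nil)) (.cons (.rf (nat_lit 846) (nat_lit 14242890289260890144)) .nil))),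
 (.br (nat_lit 4) (nat_lit 0) (.cons (.br (nat_lit 8) (nat_lit 1) (.cons (.rf (nat_lit 353) (nat_lit 12743624478557248)) (.cons (.ev (nat_lit 4740885566016664371201) (nat_lit 1)) .nil))) (.cons (.rf (nat_lit 868) (nat_lit 14242959524133701664)) .nil))),
 (.br (nat_lit 8) (nat_lit 1) (.cons (.ev (nat_lit 4740885566016664371201) (nat_lit 1)) (.cons (.rf (nat_lit 341) (nat_lit 11652908943803456)) .nil))),
 (.br (nat_lit 4) (nat_lit 0) (.cons (.rf (nat_lit 870) (nat_lit 14242959524133701664)) (.cons (.br (nat_lit 8) (nat_lit 1) (.cons (.br (nat_lit 9) (nat_lit 1) (.cons (.ev (nat_lit 1208925891672227524378881) (nat_lit 1)) (.cons (.br (nat_lit 10) (nat_lit 0) (.cons (.br (nat_lit 11) (nat_lit 0) (.cons (.ev (nat_lit 79537652264899192184423645440) (nat_lit 1)) .nil)) .nil)) .nil))) (.cons (.br (nat_lit 11) (nat_lit 0) (.cons (.rf (nat_lit 437) (nat_lit 372961191565296704)) (.cons (.kr (nat_lit 309485009821345068724781312) (nat_lit 1103806595072) (nat_lit 1) (nat_lit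 0)) .nil))) .nil))) .nil))),
 (.br (nat_lit 8) (nat_lit 1) (.cons (.br (nat_lit 10) (nat_lit 0) (.cons (.br (nat_lit 11) (nat_lit 0) (.cons (.ev (nat_lit 79229376180897461740561760256) (nat_lit 1)) .nil)) .nil)) .nil)),
 (.br (nat_lit 8) (nat_lit 1) (.cons (.rf (nat_lit 872) (nat_lit 14242959524133701664)) (.cons (.br (nat_lit 8) (nat_lit 1) (.cons (.rf (nat_lit 872) (nat_lit 14242959524133701664)) .nil)) .nil))),
 (.br (nat_lit 3) (nat_lit 0) (.cons (.br (nat_lit 7) (nat_lit 1) (.cons (.br (nat_lit 9) (nat_lit 1) (.cons (.rf (nat_lit 853) (nat_lit 372893021843358784)) (.cons (.br (nat_lit 8) (nat_lit 1) (.cons (.rf (nat_lit 516) (nat_lit 407899203321332832)) (.cons (.ev (nat_lit 9463324389050591412226) (nat_lit 2)) (.cons (.rf (nat_lit 557) (nat_lit 407901468851506208)) .nil)))) (.cons (.rf (nat_lit 833) (nat_lit 407867383991076896)) .nil)))) (.cons (.br (nat_lit 8) (nat_lit 1) (.cons (.rf (nat_lit 864) (nat_lit 407901468851537952)) (.cons (.kr (nat_lit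 2417851639229258349477888) (nat_lit 18446745173237956608) (nat_lit 2) (nat_lit 0)) (.cons (.rf (nat_lit 642) (nat_lit 407899305261730848)) .nil)))) (.cons (.br (nat_lit 8) (nat_lit 1) (.cons (.rf (nat_lit 865) (nat_lit 407901468851537952)) (.cons (.rf (nat_lit 642) (nat_lit 372996408149609504)) (.cons (.rf (nat_lit 834) (nat_lit 407867383991076896)) .nil)))) .nil)))) (.cons (.rf (nat_lit 853) (nat_lit 407795918956495936)) (.cons (.br (nat_lit 7) (nat_lit 1) (.cons (.br (nat_lit 4) (nat_lit 0) (.cons (.rf (nat_lit 866) (nat_lit 14242959524133701664)) (.cons (.rf (nat_lit 797) (nat_lit 13799117120639040)) (.cons (.rf (nat_lit 867) (nat_lit 14242959524133701664)) .nil)))) (.cons (.br (nat_lit 4) (nat_lit 0) (.cons (.rf (nat_lit 869) (nat_lit 14242959524133701664)) (.cons (.br (nat_lit 4) (nat_lit 0) (.cons (.rf (nat_lit 869) (nat_lit 14242959524133701664)) (.cons (.rf (nat_lit 625) (nat_lit 443930265869422624)) .nil))) (.cons (.br (nat_lit 4) (nat_lit 0) (.cons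 (.rf (nat_lit 868) (nat_lit 14242959524133701664)) (.cons (.rf (nat_lit 625) (nat_lit 443930265869422624)) .nil))) .nil)))) (.cons (.br (nat_lit 4) (nat_lit 0) (.cons (.rf (nat_lit 871) (nat_lit 14242959524133701664)) (.cons (.br (nat_lit 4) (nat_lit 0) (.cons (.rf (nat_lit 870) (nat_lit 14242959524133701664)) (.cons (.rf (nat_lit 873) (nat_lit 14242959524133701664)) .nil))) (.cons (.br (nat_lit 4) (nat_lit 0) (.cons (.rf (nat_lit 871) (nat_lit 14242959524133701664)) (.cons (.rf (nat_lit 873) (nat_lit 14242959524133701664)) .nil))) .nil)))) .nil)))) .nil)))),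
 (.br (nat_lit 8) (nat_lit 1) (.cons (.br (nat_lit 4) (nat_lit 0) (.cons (.rf (nat_lit 795) (nat_lit 407828934504254528)) (.cons (.rf (nat_lit 338) (nat_lit 443857735684031552)) .nil))) (.cons (.rf (nat_lit 353) (nat_lit 12743624479573056)) (.cons (.rf (nat_lit 341) (nat_lit 11652908944819264)) .nil)))),
 (.br (nat_lit 11) (nat_lit 0) (.cons (.rf (nat_lit 437) (nat_lit 372926041552946240)) (.cons (.ev (nat_lit 309485028340147840278855681) (nat_lit 1)) .nil))),
 (.br (nat_lit 4) (nat_lit 0) (.cons (.rf (nat_lit 866) (nat_lit 14242958458981812256)) (.cons (.rf (nat_lit 853) (nat_lit 372893021843358784)) (.cons (.br (nat_lit 7) (nat_lit 1) (.cons (.br (nat_lit 9) (nat_lit 1) (.cons (.ev (nat_lit 1208925891672223212634369) (nat_lit 1)) (.cons (.br (nat_lit 8) (nat_lit 1) (.cons (.rf (nat_lit 437) (nat_lit 407832233978726432)) (.cons (.br (nat_lit 10) (nat_lit 0) (.cons (.br (nat_lit 11) (nat_lit 0) (.cons (.ev (nat_lit 79537652264899192180111900928) (nat_lit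 1)) .nil)) .nil)) .nil))) .nil))) (.cons (.br (nat_lit 8) (nat_lit 1) (.cons (.rf (nat_lit 846) (nat_lit 14242925439273240608)) (.cons (.rf (nat_lit 876) (nat_lit 14242959524133701664)) .nil))) .nil))) .nil)))),
 (.br (nat_lit 8) (nat_lit 1) (.cons (.ev (nat_lit 4740885566016664371201) (nat_lit 1)) (.cons (.rf (nat_lit 328) (nat_lit 372893017682513984)) (.cons (.br (nat_lit 11) (nat_lit 0) (.cons (.rf (nat_lit 848) (nat_lit 14242925439273240608)) .nil)) .nil)))),
 (.br (nat_lit 7) (nat_lit 1) (.cons (.rf (nat_lit 877) (nat_lit 14242959524133701664)) (.cons (.br (nat_lit 4) (nat_lit 0) (.cons (.br (nat_lit 4) (nat_lit 0) (.cons (.ev (nat_lit 4740885566016664371201) (nat_lit 1)) (.cons (.rf (nat_lit 867) (nat_lit 14242958458981812256)) .nil))) (.cons (.rf (nat_lit 878) (nat_lit 14242959524133701664)) (.cons (.br (nat_lit 4) (nat_lit 0) (.cons (.rf (nat_lit 867) (nat_lit 14242958458981812256)) (.cons (.rf (nat_lit 878) (nat_lit 14242959524133701664)) .nil)))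 .nil)))) .nil))),
 (.br (nat_lit 3) (nat_lit 0) (.cons (.rf (nat_lit 874) (nat_lit 407901468851537952)) (.cons (.rf (nat_lit 875) (nat_lit 407901468851537952)) (.cons (.br (nat_lit 7) (nat_lit 1) (.cons (.rf (nat_lit 877) (nat_lit 14242959524133701664)) (.cons (.rf (nat_lit 879) (nat_lit 14242959524133701664)) (.cons (.br (nat_lit 7) (nat_lit 1) (.cons (.rf (nat_lit 877) (nat_lit 14242959524133701664)) (.cons (.rf (nat_lit 879) (nat_lit 14242959524133701664)) .nil))) .nil)))) .nil)))),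
 (.br (nat_lit 7) (nat_lit 1) (.cons (.br (nat_lit 4) (nat_lit 0) (.cons (.rf (nat_lit 855) (nat_lit 14242853974238659648)) (.cons (.rf (nat_lit 625) (nat_lit 443930265870470176)) .nil))) (.cons (.rf (nat_lit 858) (nat_lit 14242853974238659648)) .nil))),
 (.br (nat_lit 8) (nat_lit 1) (.cons (.rf (nat_lit 625) (nat_lit 443929200718580768)) (.cons (.rf (nat_lit 802) (nat_lit 14242889124251010112)) .nil))),
 (.br (nat_lit 3) (nat_lit 0) (.cons (.rf (nat_lit 853) (nat_lit 407795918956495936)) (.cons (.rf (nat_lit 875) (nat_lit 407901468851537952)) (.cons (.br (nat_lit 4) (nat_lit 0) (.cons (.rf (nat_lit 881) (nat_lit 14242959524133701664)) (.cons (.br (nat_lit 4) (nat_lit 0) (.cons (.rf (nat_lit 881) (nat_lit 14242959524133701664)) (.cons (.rf (nat_lit 882) (nat_lit 14242959524133701664)) .nil))) (.cons (.br (nat_lit 4) (nat_lit 0) (.cons (.rf (nat_lit 881) (nat_lit 14242959524133701664)) (.cons (.rf (nat_lit 882) (nat_lit 14242959524133701664)) .nil))) .nil))))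 .nil)))),
 (.br (nat_lit 3) (nat_lit 0) (.cons (.rf (nat_lit 874) (nat_lit 407901468851537952)) (.cons (.rf (nat_lit 880) (nat_lit 407901468851537952)) (.cons (.rf (nat_lit 883) (nat_lit 407901468851537952)) (.cons (.br (nat_lit 3) (nat_lit 0) (.cons (.rf (nat_lit 874) (nat_lit 407901468851537952)) (.cons (.rf (nat_lit 880) (nat_lit 407901468851537952)) (.cons (.rf (nat_lit 883) (nat_lit 407901468851537952)) .nil)))) .nil))))),
 (.br (nat_lit 9) (nat_lit 1) (.cons (.br (nat_lit 8) (nat_lit 1) (.cons (.br (nat_lit 10) (nat_lit 0) (.cons (.br (nat_lit 11) (nat_lit 0) (.cons (.kr (nat_lit 1208925819614633469673728) (nat_lit 309485009821345068741623808) (nat_lit 1) (nat_lit 0)) .nil)) .nil)) .nil)) .nil)),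
 (.br (nat_lit 9) (nat_lit 1) (.cons (.rf (nat_lit 885) (nat_lit 14242925439273240608)) (.cons (.rf (nat_lit 885) (nat_lit 14242959524133701664)) .nil))),
 (.br (nat_lit 4) (nat_lit 0) (.cons (.rf (nat_lit 797) (nat_lit 13836433842373728)) (.cons (.rf (nat_lit 797) (nat_lit 13802348981912672)) (.cons (.br (nat_lit 8) (nat_lit 1) (.cons (.br (nat_lit 8) (nat_lit 1) (.cons (.rf (nat_lit 886) (nat_lit 14242959524133701664)) .nil)) (.cons (.br (nat_lit 8) (nat_lit 1) (.cons (.rf (nat_lit 886) (nat_lit 14242959524133701664)) .nil)) .nil))) .nil)))),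
 (.br (nat_lit 8) (nat_lit 1) (.cons (.rf (nat_lit 855) (nat_lit 14242890288220671008)) (.cons (.rf (nat_lit 623) (nat_lit 14242819921623943264)) .nil))),
 (.br (nat_lit 8) (nat_lit 1) (.cons (.br (nat_lit 10) (nat_lit 0) (.cons (.br (nat_lit 11) (nat_lit 0) (.cons (.kr (nat_lit 1208925819614633469673728) (nat_lit 309485009821345068741623808) (nat_lit 1) (nat_lit 0)) .nil)) .nil)) .nil)),
 (.br (nat_lit 8) (nat_lit 1) (.cons (.rf (nat_lit 889) (nat_lit 14242959524133701664)) (.cons (.br (nat_lit 8) (nat_lit 1) (.cons (.rf (nat_lit 889) (nat_lit 14242959524133701664)) .nil)) .nil))),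
 (.br (nat_lit 4) (nat_lit 0) (.cons (.rf (nat_lit 888) (nat_lit 14242959524133701664)) (.cons (.br (nat_lit 9) (nat_lit 1) (.cons (.rf (nat_lit 625) (nat_lit 443789598208854112)) (.cons (.rf (nat_lit 890) (nat_lit 14242959524133701664)) .nil))) .nil))),
 (.br (nat_lit 4) (nat_lit 0) (.cons (.rf (nat_lit 891) (nat_lit 14242925439273240608)) (.cons (.rf (nat_lit 891) (nat_lit 14242959524133701664)) (.cons (.br (nat_lit 4) (nat_lit 0) (.cons (.rf (nat_lit 891) (nat_lit 14242925439273240608)) (.cons (.rf (nat_lit 891) (nat_lit 14242959524133701664)) .nil))) .nil)))),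
 (.br (nat_lit 8) (nat_lit 1) (.cons (.rf (nat_lit 369) (nat_lit 372998571739416608)) (.cons (.rf (nat_lit 623) (nat_lit 13125927214036060256)) .nil))),
 (.br (nat_lit 10) (nat_lit 0) (.cons (.ev (nat_lit 1208944266358702884258049) (nat_lit 1)) (.cons (.ev (nat_lit 1208925891672227524378881) (nat_lit 1)) .nil))),
 (.br (nat_lit 4) (nat_lit 0) (.cons (.rf (nat_lit 893) (nat_lit 445056165777344544)) (.cons (.br (nat_lit 8) (nat_lit 1) (.cons (.br (nat_lit 9) (nat_lit 1) (.cons (.rf (nat_lit 894) (nat_lit 14242959524133701664)) (.cons (.br (nat_lit 9) (nat_lit 1) (.cons (.rf (nat_lit 894) (nat_lit 14242959524133701664)) .nil)) .nil))) (.cons (.rf (nat_lit 625) (nat_lit 444916563267586144)) .nil))) .nil))),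
 (.br (nat_lit 10) (nat_lit 0) (.cons (.ev (nat_lit 1208925891672223212634369) (nat_lit 1)) (.cons (.ev (nat_lit 1208925891672223212699649) (nat_lit 1)) .nil))),
 (.br (nat_lit 4) (nat_lit 0) (.cons (.rf (nat_lit 893) (nat_lit 445055100625455136)) (.cons (.br (nat_lit 7) (nat_lit 1) (.cons (.br (nat_lit 9) (nat_lit 1) (.cons (.rf (nat_lit 896) (nat_lit 14242959524133701664)) (.cons (.br (nat_lit 9) (nat_lit 1) (.cons (.rf (nat_lit 896) (nat_lit 14242959524133701664)) .nil)) .nil))) (.cons (.rf (nat_lit 625) (nat_lit 444916529981589600)) .nil))) .nil))),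
 (.br (nat_lit 7) (nat_lit 1) (.cons (.br (nat_lit 10) (nat_lit 0) (.cons (.br (nat_lit 11) (nat_lit 0) (.cons (.zr (nat_lit 237690532171891934775268999168) (nat_lit 9482130857044975027719) (nat_lit 20) (nat_lit 12)) .nil)) .nil)) .nil)),
 (.br (nat_lit 4) (nat_lit 0) (.cons (.rf (nat_lit 893) (nat_lit 445055100625455136)) (.cons (.br (nat_lit 9) (nat_lit 1) (.cons (.br (nat_lit 7) (nat_lit 1) (.cons (.rf (nat_lit 898) (nat_lit 14242959524133701664)) (.cons (.br (nat_lit 7) (nat_lit 1) (.cons (.rf (nat_lit 898) (nat_lit 14242959524133701664)) .nil)) .nil))) (.cons (.rf (nat_lit 625) (nat_lit 444914399677810784)) .nil))) .nil))),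
 (.br (nat_lit 4) (nat_lit 0) (.cons (.br (nat_lit 8) (nat_lit 1) (.cons (.rf (nat_lit 642) (nat_lit 372995308669472800)) (.cons (.rf (nat_lit 485) (nat_lit 11652906796320800)) .nil))) (.cons (.rf (nat_lit 338) (nat_lit 445019813306208352)) (.cons (.br (nat_lit 9) (nat_lit 1) (.cons (.rf (nat_lit 890) (nat_lit 14242889224109000736)) (.cons (.rf (nat_lit 625) (nat_lit 444915431543703648)) .nil))) .nil)))),
 (.br (nat_lit 8) (nat_lit 1) (.cons (.br (nat_lit 4) (nat_lit 0) (.cons (.rf (nat_lit 336) (nat_lit 372962356575176736)) (.cons (.br (nat_lit 9) (nat_lit 1) (.cons (.kr (nat_lit 4722366482869645213696) (nat_lit 1208925819614629174706176) (nat_lit 9) (nat_lit 0)) (.cons (.br (nat_lit 10) (nat_lit 0) (.cons (.br (nat_lit 11) (nat_lit 0) (.cons (.kr (nat_lit 310693935640959697899488000) (nat_lit 2203335065600) (nat_lit 1) (nat_lit 0)) .nil)) .nil)) .nil))) .nil))) (.cons (.rf (nat_lit 900) (nat_lit 14242958458981812256)) .nil))),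
 (.br (nat_lit 7) (nat_lit 1) (.cons (.ev (nat_lit 72058693566332929) (nat_lit 1)) (.cons (.br (nat_lit 4) (nat_lit 0) (.cons (.rf (nat_lit 901) (nat_lit 14242959524133701664)) (.cons (.br (nat_lit 4) (nat_lit 0) (.cons (.rf (nat_lit 901) (nat_lit 14242959524133701664)) (.cons (.rf (nat_lit 886) (nat_lit 14242923308969461792)) .nil))) (.cons (.br (nat_lit 4) (nat_lit 0) (.cons (.rf (nat_lit 901) (nat_lit 14242959524133701664)) (.cons (.rf (nat_lit 886) (nat_lit 14242923308969461792)) .nil))) .nil)))) .nil))),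
 (.br (nat_lit 8) (nat_lit 1) (.cons (.br (nat_lit 10) (nat_lit 0) (.cons (.br (nat_lit 11) (nat_lit 0) (.cons (.kr (nat_lit 310693935640959702194454784) (nat_lit 9444732965739307270144) (nat_lit 1) (nat_lit 0)) .nil)) .nil)) .nil)),
 (.br (nat_lit 9) (nat_lit 1) (.cons (.rf (nat_lit 485) (nat_lit 12743656690812960)) (.cons (.br (nat_lit 8) (nat_lit 1) (.cons (.rf (nat_lit 903) (nat_lit 14242959524133701664)) (.cons (.br (nat_lit 8) (nat_lit 1) (.cons (.rf (nat_lit 903) (nat_lit 14242959524133701664)) .nil)) .nil))) .nil))),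
 (.br (nat_lit 9) (nat_lit 1) (.cons (.br (nat_lit 11) (nat_lit 0) (.cons (.kr (nat_lit 309494454554310808031985920) (nat_lit 1208962713102780888842240) (nat_lit 1) (nat_lit 0)) .nil)) .nil)),
 (.br (nat_lit 8) (nat_lit 1) (.cons (.br (nat_lit 9) (nat_lit 1) (.cons (.rf (nat_lit 905) (nat_lit 14242959524133701664)) (.cons (.br (nat_lit 9) (nat_lit 1) (.cons (.rf (nat_lit 905) (nat_lit 14242959524133701664)) .nil)) .nil))) .nil)),
 (.br (nat_lit 10) (nat_lit 0) (.cons (.ev (nat_lit 1213648258156196664442881) (nat_lit 1)) (.cons (.ev (nat_lit 1213648258156196664508673) (nat_lit 1)) .nil))),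
 (.br (nat_lit 9) (nat_lit 1) (.cons (.br (nat_lit 10) (nat_lit 0) (.cons (.kr (nat_lit 1208925819614633469673728) (nat_lit 309485009821345068741623808) (nat_lit 1) (nat_lit 0)) .nil)) .nil))]

theorem c23 : chkAll C T R L23 (nat_lit 866) = true := by decide +kernel

theorem l23 : (nat_lit 866) + L23.length = (nat_lit 909) := by decide +kernel

/-- part of the certificates -/
def L24 : List Prf := [(.br (nat_lit 8) (nat_lit 1) (.cons (.br (nat_lit 10) (nat_lit 0) (.cons (.ev (nat_lit 310693935641242272387825664) (nat_lit 1)) (.cons (.rf (nat_lit 908) (nat_lit 13052988875717314592)) .nil))) .nil)),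
 (.br (nat_lit 7) (nat_lit 1) (.cons (.br (nat_lit 4) (nat_lit 0) (.cons (.br (nat_lit 8) (nat_lit 1) (.cons (.rf (nat_lit 485) (nat_lit 12743622331074592)) (.cons (.ev (nat_lit 18518801672059289601) (nat_lit 1)) .nil))) (.cons (.rf (nat_lit 904) (nat_lit 14242959524133701664)) (.cons (.br (nat_lit 8) (nat_lit 1) (.cons (.rf (nat_lit 906) (nat_lit 14242959524133701664)) (.cons (.br (nat_lit 8) (nat_lit 1) (.cons (.rf (nat_lit 906) (nat_lit 14242959524133701664)) .nil)) .nil))) .nil)))) (.cons (.br (nat_lit 4) (nat_lit 0) (.cons (.br (nat_lit 8) (nat_lit 1) (.cons (.ev (nat_lit 18518801672059289601) (nat_lit 1)) (.cons (.rf (nat_lit 485) (nat_lit 11652906796320800)) .nil))) (.cons (.br (nat_lit 9) (nat_lit 1) (.cons (.br (nat_lit 8) (nat_lit 1) (.cons (.rf (nat_lit 907) (nat_lit 14242959524133701664)) (.cons (.br (nat_lit 8) (nat_lit 1) (.cons (.rf (nat_lit 907) (nat_lit 14242959524133701664)) .nil)) .nil))) (.cons (.rf (nat_lit 485) (nat_lit 11652941156059168))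 .nil))) (.cons (.br (nat_lit 8) (nat_lit 1) (.cons (.rf (nat_lit 909) (nat_lit 445091350149433376)) (.cons (.br (nat_lit 8) (nat_lit 1) (.cons (.rf (nat_lit 909) (nat_lit 445091350149433376)) .nil)) .nil))) .nil)))) .nil))),
 (.br (nat_lit 10) (nat_lit 0) (.cons (.kr (nat_lit 1208925819614629174706432) (nat_lit 1103806595072) (nat_lit 1) (nat_lit 0)) (.cons (.rf (nat_lit 908) (nat_lit 13052987810565425184)) .nil))),
 (.br (nat_lit 4) (nat_lit 0) (.cons (.br (nat_lit 8) (nat_lit 1) (.cons (.rf (nat_lit 904) (nat_lit 14242958458981812256)) (.cons (.br (nat_lit 9) (nat_lit 1) (.cons (.br (nat_lit 10) (nat_lit 0) (.cons (.br (nat_lit 11) (nat_lit 0) (.cons (.zr (nat_lit 73786978493911794176) (nat_lit 79228167236703159540793868289) (nat_lit 10) (nat_lit 6)) .nil)) .nil)) (.cons (.kr (nat_lit 309485009821345068724781312) (nat_lit 1103806595072) (nat_lit 1) (nat_lit 0)) .nil))) .nil))) (.cons (.br (nat_lit 12) (nat_lit 1) (.cons (.br (nat_lit 8) (nat_lit 1) (.cons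 (.br (nat_lit 9) (nat_lit 1) (.cons (.br (nat_lit 9) (nat_lit 1) .nil) .nil)) (.cons (.rf (nat_lit 911) (nat_lit 445091350149433376)) .nil))) (.cons (.ev (nat_lit 79228162514264619072815628544) (nat_lit 1)) .nil))) .nil))),
 (.br (nat_lit 4) (nat_lit 0) (.cons (.rf (nat_lit 912) (nat_lit 14242959524133701664)) (.cons (.br (nat_lit 9) (nat_lit 1) (.cons (.br (nat_lit 10) (nat_lit 0) (.cons (.br (nat_lit 12) (nat_lit 1) (.cons (.ev (nat_lit 79229371440084234801518805248) (nat_lit 1)) .nil)) (.cons (.ev (nat_lit 79229376162450716567357423616) (nat_lit 1)) .nil))) (.cons (.rf (nat_lit 911) (nat_lit 445092449661061152)) .nil))) .nil))),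
 (.br (nat_lit 7) (nat_lit 1) (.cons (.rf (nat_lit 910) (nat_lit 14242959524133701664)) (.cons (.br (nat_lit 4) (nat_lit 0) (.cons (.rf (nat_lit 912) (nat_lit 14242959524133701664)) (.cons (.rf (nat_lit 913) (nat_lit 14242959524133701664)) (.cons (.br (nat_lit 4) (nat_lit 0) (.cons (.rf (nat_lit 912) (nat_lit 14242959524133701664)) (.cons (.rf (nat_lit 913) (nat_lit 14242959524133701664)) .nil))) .nil)))) .nil))),
 (.br (nat_lit 3) (nat_lit 0) (.cons (.br (nat_lit 7) (nat_lit 1) (.cons (.rf (nat_lit 887) (nat_lit 14242959524133701664)) (.cons (.rf (nat_lit 892) (nat_lit 14242959524133701664)) (.cons (.br (nat_lit 4) (nat_lit 0) (.cons (.rf (nat_lit 895) (nat_lit 14242959524133701664)) (.cons (.br (nat_lit 4) (nat_lit 0) (.cons (.rf (nat_lit 893) (nat_lit 445056165777344544)) (.cons (.ev (nat_lit 72058697844588801) (nat_lit 1)) .nil))) (.cons (.br (nat_lit 4) (nat_lit 0) (.cons (.rf (nat_lit 895) (nat_lit 14242959524133701664)) (.cons (.ev (nat_lit 72058697844588801)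 (nat_lit 1)) .nil))) .nil)))) .nil)))) (.cons (.br (nat_lit 8) (nat_lit 1) (.cons (.rf (nat_lit 887) (nat_lit 14242958458981812256)) (.cons (.rf (nat_lit 892) (nat_lit 14242958458981812256)) (.cons (.br (nat_lit 4) (nat_lit 0) (.cons (.rf (nat_lit 897) (nat_lit 14242959524133701664)) (.cons (.rf (nat_lit 899) (nat_lit 14242959524133701664)) (.cons (.br (nat_lit 4) (nat_lit 0) (.cons (.rf (nat_lit 897) (nat_lit 14242959524133701664)) (.cons (.rf (nat_lit 899) (nat_lit 14242959524133701664)) .nil))) .nil)))) .nil)))) (.cons (.br (nat_lit 7) (nat_lit 1) (.cons (.br (nat_lit 7) (nat_lit 1) (.cons (.ev (nat_lit 72058693566332929) (nat_lit 1)) (.cons (.rf (nat_lit 900) (nat_lit 14242959524133701664)) .nil))) (.cons (.rf (nat_lit 902) (nat_lit 14242959524133701664)) (.cons (.br (nat_lit 7) (nat_lit 1) (.cons (.rf (nat_lit 900) (nat_lit 14242959524133701664)) (.cons (.rf (nat_lit 902) (nat_lit 14242959524133701664)) .nil))) .nil)))) (.cons (.br (nat_lit 7) (nat_lit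 1) (.cons (.rf (nat_lit 910) (nat_lit 14242959524133701664)) (.cons (.rf (nat_lit 914) (nat_lit 14242959524133701664)) (.cons (.br (nat_lit 7) (nat_lit 1) (.cons (.rf (nat_lit 910) (nat_lit 14242959524133701664)) (.cons (.rf (nat_lit 914) (nat_lit 14242959524133701664)) .nil))) .nil)))) .nil))))),
 (.br (nat_lit 8) (nat_lit 1) (.cons (.br (nat_lit 9) (nat_lit 1) (.cons (.kr (nat_lit 18446744073709551616) (nat_lit 1208925819614629174706176) (nat_lit 8) (nat_lit 0)) (.cons (.rf (nat_lit 558) (nat_lit 374018921751153728)) .nil))) (.cons (.rf (nat_lit 865) (nat_lit 374121140964069472)) .nil))),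
 (.br (nat_lit 9) (nat_lit 1) (.cons (.br (nat_lit 10) (nat_lit 0) (.cons (.ev (nat_lit 1213666704899166567464961) (nat_lit 1)) .nil)) .nil)),
 (.br (nat_lit 4) (nat_lit 0) (.cons (.br (nat_lit 9) (nat_lit 1) (.cons (.rf (nat_lit 416) (nat_lit 407898137129160800)) (.cons (.kr (nat_lit 4722366482869645213952) (nat_lit 1103806595072) (nat_lit 1) (nat_lit 0)) .nil))) (.cons (.rf (nat_lit 582) (nat_lit 443929200717533216)) .nil))),
 (.br (nat_lit 4) (nat_lit 0) (.cons (.rf (nat_lit 918) (nat_lit 14242959524133701664)) (.cons (.br (nat_lit 8) (nat_lit 1) (.cons (.rf (nat_lit 486) (nat_lit 374122308056483872)) (.cons (.br (nat_lit 9) (nat_lit 1) (.cons (.rf (nat_lit 437) (nat_lit 407901468851537952)) (.cons (.br (nat_lit 10) (nat_lit 0) (.cons (.br (nat_lit 11) (nat_lit 0) (.cons (.kr (nat_lit 1218370552580368465199360) (nat_lit 309485009821347272059781120) (nat_lit 1) (nat_lit 0)) .nil)) .nil)) .nil))) .nil))) .nil))),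
 (.br (nat_lit 10) (nat_lit 0) (.cons (.ev (nat_lit 1208925891672227524378881) (nat_lit 1)) .nil)),
 (.br (nat_lit 4) (nat_lit 0) (.cons (.rf (nat_lit 865) (nat_lit 372995240017039456)) (.cons (.br (nat_lit 10) (nat_lit 0) (.cons (.rf (nat_lit 920) (nat_lit 14242959524133701664)) (.cons (.rf (nat_lit 189) (nat_lit 445091350149433376)) .nil))) .nil))),
 (.br (nat_lit 8) (nat_lit 1) (.cons (.br (nat_lit 9) (nat_lit 1) (.cons (.rf (nat_lit 416) (nat_lit 407862954871001184)) (.cons (.rf (nat_lit 558) (nat_lit 372893021843263552)) .nil))) (.cons (.rf (nat_lit 865) (nat_lit 372995241057225856)) .nil))),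
 (.br (nat_lit 8) (nat_lit 1) (.cons (.ev (nat_lit 4740885285636921098241) (nat_lit 1)) .nil)),
 (.br (nat_lit 8) (nat_lit 1) (.cons (.rf (nat_lit 588) (nat_lit 407900403698569248)) (.cons (.br (nat_lit 9) (nat_lit 1) (.cons (.rf (nat_lit 445) (nat_lit 443930265870501920)) (.cons (.ev (nat_lit 4740885285636921098241) (nat_lit 1)) .nil))) .nil))),
 (.br (nat_lit 4) (nat_lit 0) (.cons (.rf (nat_lit 922) (nat_lit 14242889224109000736)) (.cons (.rf (nat_lit 582) (nat_lit 443894050705182752)) .nil))),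
 (.br (nat_lit 4) (nat_lit 0) (.cons (.rf (nat_lit 924) (nat_lit 407901468851537952)) (.cons (.rf (nat_lit 582) (nat_lit 407865253686218784)) .nil))),
 (.br (nat_lit 9) (nat_lit 1) (.cons (.rf (nat_lit 437) (nat_lit 407865253687298080)) (.cons (.ev (nat_lit 4740885285636921098241) (nat_lit 1)) .nil))),
 (.br (nat_lit 4) (nat_lit 0) (.cons (.rf (nat_lit 865) (nat_lit 372960055678505056)) (.cons (.br (nat_lit 8) (nat_lit 1) (.cons (.rf (nat_lit 927) (nat_lit 14242959524133701664)) (.cons (.br (nat_lit 9) (nat_lit 1) (.cons (.ev (nat_lit 4740885285636921098241) (nat_lit 1)) (.cons (.rf (nat_lit 440) (nat_lit 407867383991076896)) .nil))) .nil))) .nil))),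
 (.br (nat_lit 8) (nat_lit 1) (.cons (.br (nat_lit 10) (nat_lit 0) (.cons (.br (nat_lit 11) (nat_lit 0) (.cons (.kr (nat_lit 309485009821345068741558528) (nat_lit 1208925819614633469739008) (nat_lit 1) (nat_lit 0)) .nil)) .nil)) .nil)),
 (.br (nat_lit 8) (nat_lit 1) (.cons (.rf (nat_lit 929) (nat_lit 14242959524133701664)) (.cons (.br (nat_lit 8) (nat_lit 1) (.cons (.rf (nat_lit 929) (nat_lit 14242959524133701664)) .nil)) .nil))),
 (.br (nat_lit 9) (nat_lit 1) (.cons (.rf (nat_lit 582) (nat_lit 443896181010009120)) (.cons (.rf (nat_lit 930) (nat_lit 14242959524133701664)) .nil))),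
 (.br (nat_lit 9) (nat_lit 1) (.cons (.br (nat_lit 8) (nat_lit 1) (.cons (.br (nat_lit 11) (nat_lit 0) (.cons (.kr (nat_lit 309485009821345068741558528) (nat_lit 1208925819614633469739008) (nat_lit 1) (nat_lit 0)) .nil)) .nil)) .nil)),
 (.br (nat_lit 9) (nat_lit 1) (.cons (.rf (nat_lit 932) (nat_lit 14242925439273240608)) (.cons (.rf (nat_lit 932) (nat_lit 14242959524133701664)) .nil))),
 (.br (nat_lit 4) (nat_lit 0) (.cons (.rf (nat_lit 931) (nat_lit 14242925439273240608)) (.cons (.rf (nat_lit 931) (nat_lit 14242959524133701664)) (.cons (.br (nat_lit 8) (nat_lit 1) (.cons (.br (nat_lit 8) (nat_lit 1) (.cons (.rf (nat_lit 933) (nat_lit 14242959524133701664)) .nil)) (.cons (.br (nat_lit 8) (nat_lit 1) (.cons (.rf (nat_lit 933) (nat_lit 14242959524133701664)) .nil)) .nil))) .nil)))),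
 (.br (nat_lit 9) (nat_lit 1) (.cons (.rf (nat_lit 588) (nat_lit 443896181010009120)) (.cons (.kr (nat_lit 4722366482869645213952) (nat_lit 1103806595072) (nat_lit 1) (nat_lit 0)) .nil))),
 (.br (nat_lit 8) (nat_lit 1) (.cons (.br (nat_lit 11) (nat_lit 0) (.cons (.kr (nat_lit 309485009821345068741558528) (nat_lit 1208925819614633469739008) (nat_lit 1) (nat_lit 0)) .nil)) .nil)),
 (.br (nat_lit 8) (nat_lit 1) (.cons (.rf (nat_lit 936) (nat_lit 14242959524133701664)) (.cons (.br (nat_lit 8) (nat_lit 1) (.cons (.rf (nat_lit 936) (nat_lit 14242959524133701664)) .nil)) .nil))),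
 (.br (nat_lit 9) (nat_lit 1) (.cons (.rf (nat_lit 589) (nat_lit 443896181010009120)) (.cons (.rf (nat_lit 937) (nat_lit 14242959524133701664)) .nil))),
 (.br (nat_lit 4) (nat_lit 0) (.cons (.rf (nat_lit 938) (nat_lit 14242925439273240608)) (.cons (.rf (nat_lit 938) (nat_lit 14242959524133701664)) .nil))),
 (.br (nat_lit 8) (nat_lit 1) (.cons (.rf (nat_lit 445) (nat_lit 407900403698632736)) (.cons (.br (nat_lit 10) (nat_lit 0) (.cons (.br (nat_lit 11) (nat_lit 0) (.cons (.kr (nat_lit 310693935640959702194454784) (nat_lit 36893488147435945984) (nat_lit 1) (nat_lit 0)) .nil)) .nil)) .nil))),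
 (.br (nat_lit 4) (nat_lit 0) (.cons (.br (nat_lit 9) (nat_lit 1) (.cons (.rf (nat_lit 940) (nat_lit 14242959524133701664)) (.cons (.kr (nat_lit 4722366482869645213952) (nat_lit 1103806595072) (nat_lit 1) (nat_lit 0)) .nil))) (.cons (.br (nat_lit 8) (nat_lit 1) (.cons (.br (nat_lit 9) (nat_lit 1) (.cons (.ev (nat_lit 1208925891672227524378881) (nat_lit 1)) (.cons (.rf (nat_lit 896) (nat_lit 14208056627020564512)) .nil))) (.cons (.br (nat_lit 11) (nat_lit 0) (.cons (.br (nat_lit 9) (nat_lit 1) (.cons (.br (nat_lit 10) (nat_lit 0) (.cons (.zr (nat_lit 6044629098077565395075072) (nat_lit 79228167292043391753366013185) (nat_lit 10) (nat_lit 12)) .nil)) .nil)) (.cons (.kr (nat_lit 309485009821345068724781312) (nat_lit 1103806595072) (nat_lit 1) (nat_lit 0)) .nil))) .nil))) .nil))),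
 (.br (nat_lit 3) (nat_lit 0) (.cons (.br (nat_lit 7) (nat_lit 1) (.cons (.br (nat_lit 4) (nat_lit 0) (.cons (.rf (nat_lit 519) (nat_lit 443928000340296800)) (.cons (.rf (nat_lit 916) (nat_lit 443930265870501920)) (.cons (.br (nat_lit 8) (nat_lit 1) (.cons (.rf (nat_lit 582) (nat_lit 443930265869422624)) (.cons (.br (nat_lit 9) (nat_lit 1) (.cons (.rf (nat_lit 917) (nat_lit 14242959524133701664)) (.cons (.br (nat_lit 9) (nat_lit 1) (.cons (.rf (nat_lit 917) (nat_lit 14242959524133701664)) .nil)) .nil))) .nil))) .nil)))) (.cons (.br (nat_lit 4) (nat_lit 0) (.cons (.rf (nat_lit 925) (nat_lit 14242925439273240608)) (.cons (.rf (nat_lit 919) (nat_lit 14242959524133701664)) (.cons (.br (nat_lit 4) (nat_lit 0) (.cons (.rf (nat_lit 582) (nat_lit 443929200717533216)) (.cons (.rf (nat_lit 919) (nat_lit 14242959524133701664)) .nil))) .nil)))) (.cons (.br (nat_lit 4) (nat_lit 0) (.cons (.rf (nat_lit 921) (nat_lit 14242959524133701664)) (.cons (.br (nat_lit 4) (nat_lit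 0) (.cons (.rf (nat_lit 865) (nat_lit 372995240017039456)) (.cons (.ev (nat_lit 72058697844588801) (nat_lit 1)) .nil))) (.cons (.br (nat_lit 4) (nat_lit 0) (.cons (.rf (nat_lit 921) (nat_lit 14242959524133701664)) (.cons (.ev (nat_lit 72058697844588801) (nat_lit 1)) .nil))) .nil)))) .nil)))) (.cons (.br (nat_lit 7) (nat_lit 1) (.cons (.br (nat_lit 4) (nat_lit 0) (.cons (.rf (nat_lit 922) (nat_lit 14242959524133701664)) (.cons (.rf (nat_lit 519) (nat_lit 443892817041949792)) (.cons (.br (nat_lit 9) (nat_lit 1) (.cons (.rf (nat_lit 582) (nat_lit 443896181008961568)) (.cons (.br (nat_lit 8) (nat_lit 1) (.cons (.br (nat_lit 8) (nat_lit 1) (.cons (.ev (nat_lit 4740885285636921098241) (nat_lit 1)) .nil)) (.cons (.rf (nat_lit 923) (nat_lit 14242959524133701664)) .nil))) .nil))) .nil)))) (.cons (.br (nat_lit 4) (nat_lit 0) (.cons (.br (nat_lit 4) (nat_lit 0) (.cons (.rf (nat_lit 922) (nat_lit 14242889224109000736)) (.cons (.rf (nat_lit 926) (nat_lit 443930265870501920))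 .nil))) (.cons (.rf (nat_lit 925) (nat_lit 14242959524133701664)) (.cons (.rf (nat_lit 926) (nat_lit 443930265870501920)) .nil)))) (.cons (.br (nat_lit 4) (nat_lit 0) (.cons (.rf (nat_lit 928) (nat_lit 14242959524133701664)) (.cons (.br (nat_lit 4) (nat_lit 0) (.cons (.rf (nat_lit 865) (nat_lit 372960055678505056)) (.cons (.ev (nat_lit 72058697844588801) (nat_lit 1)) .nil))) (.cons (.br (nat_lit 4) (nat_lit 0) (.cons (.rf (nat_lit 928) (nat_lit 14242959524133701664)) (.cons (.ev (nat_lit 72058697844588801) (nat_lit 1)) .nil))) .nil)))) .nil)))) (.cons (.br (nat_lit 7) (nat_lit 1) (.cons (.rf (nat_lit 934) (nat_lit 14242959524133701664)) (.cons (.br (nat_lit 4) (nat_lit 0) (.cons (.br (nat_lit 8) (nat_lit 1) (.cons (.ev (nat_lit 1208944338417396450656513) (nat_lit 1)) (.cons (.br (nat_lit 4) (nat_lit 0) (.cons (.rf (nat_lit 935) (nat_lit 14242959524133701664)) (.cons (.rf (nat_lit 939) (nat_lit 14242959524133701664)) .nil))) .nil))) (.cons (.br (nat_lit 4)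 (nat_lit 0) (.cons (.rf (nat_lit 935) (nat_lit 14242959524133701664)) (.cons (.rf (nat_lit 939) (nat_lit 14242959524133701664)) .nil))) (.cons (.rf (nat_lit 939) (nat_lit 14242959524133701664)) .nil)))) (.cons (.br (nat_lit 4) (nat_lit 0) (.cons (.rf (nat_lit 941) (nat_lit 14242959524133701664)) (.cons (.br (nat_lit 4) (nat_lit 0) (.cons (.rf (nat_lit 941) (nat_lit 14242959524133701664)) (.cons (.ev (nat_lit 72058697844588801) (nat_lit 1)) .nil))) (.cons (.br (nat_lit 4) (nat_lit 0) (.cons (.rf (nat_lit 941) (nat_lit 14242959524133701664)) (.cons (.ev (nat_lit 72058697844588801) (nat_lit 1)) .nil))) .nil)))) .nil)))) .nil)))),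
 (.br (nat_lit 7) (nat_lit 1) (.cons (.br (nat_lit 10) (nat_lit 0) (.cons (.br (nat_lit 11) (nat_lit 0) (.cons (.ev (nat_lit 79537647524085965236757069824) (nat_lit 1)) .nil)) .nil)) .nil)),
 (.br (nat_lit 8) (nat_lit 1) (.cons (.br (nat_lit 10) (nat_lit 0) (.cons (.br (nat_lit 11) (nat_lit 0) (.cons (.kr (nat_lit 310693935640959697916264704) (nat_lit 36893488151714136064) (nat_lit 1) (nat_lit 0)) .nil)) .nil)) (.cons (.rf (nat_lit 440) (nat_lit 407832233978726432)) .nil)))]

theorem c24 : chkAll C T R L24 (nat_lit 909) = true := by decide +kernel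

theorem l24 : (nat_lit 909) + L24.length = (nat_lit 945) := by decide +kernel

/-- part of the certificates -/
def L25 : List Prf := [(.br (nat_lit 4) (nat_lit 0) (.cons (.rf (nat_lit 865) (nat_lit 372924873420345440)) (.cons (.br (nat_lit 7) (nat_lit 1) (.cons (.br (nat_lit 8) (nat_lit 1) (.cons (.rf (nat_lit 437) (nat_lit 407832233978726432)) (.cons (.br (nat_lit 10) (nat_lit 0) (.cons (.br (nat_lit 11) (nat_lit 0) (.cons (.zr (nat_lit 4722366482882580449024) (nat_lit 79228162569676912182222258177) (nat_lit 10) (nat_lit 0)) .nil)) .nil)) .nil))) (.cons (.rf (nat_lit 944) (nat_lit 14242959524133701664)) .nil))) .nil))),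
 (.br (nat_lit 4) (nat_lit 0) (.cons (.rf (nat_lit 865) (nat_lit 372924873420345440)) (.cons (.br (nat_lit 10) (nat_lit 0) (.cons (.br (nat_lit 10) (nat_lit 0) (.cons (.rf (nat_lit 189) (nat_lit 445091418868910112)) .nil)) (.cons (.rf (nat_lit 189) (nat_lit 445091418868910112)) .nil))) .nil))),
 (.br (nat_lit 4) (nat_lit 0) (.cons (.br (nat_lit 7) (nat_lit 1) (.cons (.br (nat_lit 9) (nat_lit 1) (.cons (.ev (nat_lit 4740885285641199288321) (nat_lit 1)) (.cons (.br (nat_lit 10) (nat_lit 0) (.cons (.br (nat_lit 11) (nat_lit 0) (.cons (.zr (nat_lit 1121070351104) (nat_lit 79230594551522098603553325057) (nat_lit 10) (nat_lit 0)) .nil)) .nil)) .nil))) (.cons (.br (nat_lit 9) (nat_lit 1) (.cons (.br (nat_lit 10) (nat_lit 0) (.cons (.br (nat_lit 11) (nat_lit 0) (.cons (.ev (nat_lit 317957046260312450286028548) (nat_lit 3)) .nil)) .nil)) (.cons (.ev (nat_lit 4740885285641199288321) (nat_lit 1)) .nil))) .nil))) (.cons (.br (nat_lit 7) (nat_lit 1) (.cons (.br (nat_lit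 9) (nat_lit 1) (.cons (.ev (nat_lit 1208925891672223212634369) (nat_lit 1)) (.cons (.br (nat_lit 9) (nat_lit 1) (.cons (.ev (nat_lit 1208925891672223212634369) (nat_lit 1)) .nil)) .nil))) (.cons (.br (nat_lit 11) (nat_lit 0) (.cons (.br (nat_lit 9) (nat_lit 1) (.cons (.br (nat_lit 10) (nat_lit 0) (.cons (.ev (nat_lit 79229376162450716571635613696) (nat_lit 1)) .nil)) .nil)) (.cons (.ev (nat_lit 309485028340147840278855681) (nat_lit 1)) .nil))) .nil))) .nil))),
 (.br (nat_lit 7) (nat_lit 1) (.cons (.br (nat_lit 9) (nat_lit 1) (.cons (.br (nat_lit 11) (nat_lit 0) (.cons (.zr (nat_lit 18963252909972492648448) (nat_lit 79234207143434749817022054401) (nat_lit 10) (nat_lit 8)) .nil)) (.cons (.kr (nat_lit 4722366482869645213696) (nat_lit 309485009821345068724781056) (nat_lit 9) (nat_lit 0)) .nil))) .nil)),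
 (.br (nat_lit 4) (nat_lit 0) (.cons (.rf (nat_lit 947) (nat_lit 14242959524133701664)) (.cons (.br (nat_lit 7) (nat_lit 1) (.cons (.rf (nat_lit 948) (nat_lit 14242959524133701664)) (.cons (.br (nat_lit 7) (nat_lit 1) (.cons (.rf (nat_lit 948) (nat_lit 14242959524133701664)) .nil)) .nil))) .nil))),
 (.br (nat_lit 3) (nat_lit 0) (.cons (.rf (nat_lit 942) (nat_lit 14242959524133701664)) (.cons (.br (nat_lit 9) (nat_lit 1) (.cons (.br (nat_lit 4) (nat_lit 0) (.cons (.rf (nat_lit 922) (nat_lit 14242923308969461792)) (.cons (.rf (nat_lit 519) (nat_lit 443857632703415392)) (.cons (.br (nat_lit 8) (nat_lit 1) (.cons (.rf (nat_lit 582) (nat_lit 443859965844721696)) (.cons (.br (nat_lit 7) (nat_lit 1) (.cons (.rf (nat_lit 943) (nat_lit 14242959524133701664)) (.cons (.br (nat_lit 7) (nat_lit 1) (.cons (.rf (nat_lit 943) (nat_lit 14242959524133701664)) .nil)) .nil))) .nil))) .nil)))) (.cons (.kr (nat_lit 4722366482869645213952) (nat_lit 1099528404992) (nat_lit 1) (nat_lit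 0)) (.cons (.br (nat_lit 4) (nat_lit 0) (.cons (.rf (nat_lit 945) (nat_lit 14242959524133701664)) (.cons (.rf (nat_lit 946) (nat_lit 14242959524133701664)) (.cons (.br (nat_lit 4) (nat_lit 0) (.cons (.rf (nat_lit 945) (nat_lit 14242959524133701664)) (.cons (.rf (nat_lit 946) (nat_lit 14242959524133701664)) .nil))) .nil)))) .nil)))) (.cons (.br (nat_lit 8) (nat_lit 1) (.cons (.rf (nat_lit 934) (nat_lit 14242958458981812256)) (.cons (.br (nat_lit 10) (nat_lit 0) (.cons (.kr (nat_lit 1208925819614629174771712) (nat_lit 1099528404992) (nat_lit 2) (nat_lit 0)) (.cons (.kr (nat_lit 18446744073709551616) (nat_lit 1208925819614629174706176) (nat_lit 8) (nat_lit 0)) (.cons (.br (nat_lit 12) (nat_lit 1) (.cons (.rf (nat_lit 939) (nat_lit 14242958458981812256)) (.cons (.br (nat_lit 4) (nat_lit 0) (.cons (.br (nat_lit 4) (nat_lit 0) (.cons (.br (nat_lit 7) (nat_lit 1) (.cons (.br (nat_lit 9) (nat_lit 1) (.cons (.zr (nat_lit 12968789248) (nat_lit 79230585106789133963774525441)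 (nat_lit 10) (nat_lit 0)) .nil)) .nil)) .nil)) (.cons (.br (nat_lit 4) (nat_lit 0) (.cons (.br (nat_lit 7) (nat_lit 1) (.cons (.br (nat_lit 9) (nat_lit 1) (.cons (.zr (nat_lit 12968789248) (nat_lit 79230585106789133963774525441) (nat_lit 10) (nat_lit 0)) .nil)) .nil)) .nil)) .nil))) .nil))) .nil)))) (.cons (.br (nat_lit 4) (nat_lit 0) (.cons (.rf (nat_lit 947) (nat_lit 14242959524133701664)) (.cons (.rf (nat_lit 949) (nat_lit 14242959524133701664)) (.cons (.br (nat_lit 4) (nat_lit 0) (.cons (.rf (nat_lit 947) (nat_lit 14242959524133701664)) (.cons (.rf (nat_lit 949) (nat_lit 14242959524133701664)) .nil))) .nil)))) .nil)))) .nil)))),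
 (.br (nat_lit 9) (nat_lit 1) (.cons (.br (nat_lit 10) (nat_lit 0) (.cons (.br (nat_lit 11) (nat_lit 0) (.cons (.kr (nat_lit 309485009821345068741558528) (nat_lit 1208925819614633469739008) (nat_lit 1) (nat_lit 0)) .nil)) .nil)) (.cons (.rf (nat_lit 440) (nat_lit 407901468850522144)) .nil))),
 (.br (nat_lit 7) (nat_lit 1) (.cons (.ev (nat_lit 72058693566398721) (nat_lit 1)) (.cons (.br (nat_lit 4) (nat_lit 0) (.cons (.br (nat_lit 8) (nat_lit 1) (.cons (.br (nat_lit 9) (nat_lit 1) (.cons (.rf (nat_lit 437) (nat_lit 407865253687298080)) (.cons (.br (nat_lit 10) (nat_lit 0) (.cons (.br (nat_lit 11) (nat_lit 0) (.cons (.ev (nat_lit 313140158660804719216231172) (nat_lit 3)) .nil)) .nil)) .nil))) (.cons (.rf (nat_lit 951) (nat_lit 14242959524133701664)) .nil))) (.cons (.rf (nat_lit 930) (nat_lit 14242889224109000736)) (.cons (.br (nat_lit 9) (nat_lit 1) (.cons (.rf (nat_lit 937) (nat_lit 14242889224109000736)) (.cons (.br (nat_lit 11) (nat_lit 0) (.cons (.br (nat_lit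 8) (nat_lit 1) (.cons (.br (nat_lit 10) (nat_lit 0) (.cons (.ev (nat_lit 79538856468352323939641327616) (nat_lit 1)) .nil)) .nil)) (.cons (.rf (nat_lit 915) (nat_lit 47507880112394604)) .nil))) .nil))) .nil)))) .nil))),
 (.br (nat_lit 4) (nat_lit 0) (.cons (.br (nat_lit 8) (nat_lit 1) (.cons (.br (nat_lit 11) (nat_lit 0) (.cons (.zr (nat_lit 18963252909972492648448) (nat_lit 79234207143434749817022054401) (nat_lit 10) (nat_lit 9)) .nil)) (.cons (.br (nat_lit 10) (nat_lit 0) (.cons (.zr (nat_lit 6044702885049440711738624) (nat_lit 79228167236703162839362174977) (nat_lit 10) (nat_lit 6)) .nil)) .nil))) .nil)),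
 (.br (nat_lit 7) (nat_lit 1) (.cons (.ev (nat_lit 72058693566398721) (nat_lit 1)) (.cons (.br (nat_lit 9) (nat_lit 1) (.cons (.br (nat_lit 4) (nat_lit 0) (.cons (.br (nat_lit 8) (nat_lit 1) (.cons (.rf (nat_lit 558) (nat_lit 372893088415256640)) (.cons (.rf (nat_lit 930) (nat_lit 14242923308969461792)) .nil))) (.cons (.rf (nat_lit 933) (nat_lit 14242923308969461792)) .nil))) (.cons (.kr (nat_lit 1208925819614629174771712) (nat_lit 1099528404992) (nat_lit 2) (nat_lit 0)) (.cons (.br (nat_lit 4) (nat_lit 0) (.cons (.rf (nat_lit 953) (nat_lit 14242959524133701664)) (.cons (.br (nat_lit 4) (nat_lit 0) (.cons (.rf (nat_lit 953) (nat_lit 14242959524133701664)) .nil)) .nil))) .nil)))) .nil))),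
 (.br (nat_lit 3) (nat_lit 0) (.cons (.rf (nat_lit 942) (nat_lit 14242959524133701664)) (.cons (.rf (nat_lit 950) (nat_lit 14242959524133701664)) (.cons (.br (nat_lit 7) (nat_lit 1) (.cons (.rf (nat_lit 952) (nat_lit 14242959524133701664)) (.cons (.rf (nat_lit 954) (nat_lit 14242959524133701664)) (.cons (.br (nat_lit 7) (nat_lit 1) (.cons (.rf (nat_lit 952) (nat_lit 14242959524133701664)) (.cons (.rf (nat_lit 954) (nat_lit 14242959524133701664)) .nil))) .nil)))) .nil)))),
 (.br (nat_lit 3) (nat_lit 0) (.cons (.rf (nat_lit 942) (nat_lit 14242959524133701664)) (.cons (.rf (nat_lit 950) (nat_lit 14242959524133701664)) (.cons (.rf (nat_lit 955) (nat_lit 14242959524133701664)) (.cons (.br (nat_lit 3) (nat_lit 0) (.cons (.rf (nat_lit 942) (nat_lit 14242959524133701664)) (.cons (.rf (nat_lit 950) (nat_lit 14242959524133701664)) (.cons (.rf (nat_lit 955) (nat_lit 14242959524133701664)) .nil)))) .nil))))),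
 (.br (nat_lit 2) (nat_lit 0) (.cons (.kr (nat_lit 256) (nat_lit 65536) (nat_lit 1) (nat_lit 0)) (.cons (.br (nat_lit 6) (nat_lit 1) (.cons (.rf (nat_lit 809) (nat_lit 407901468851537952)) (.cons (.rf (nat_lit 809) (nat_lit 372998571738400800)) (.cons (.rf (nat_lit 819) (nat_lit 407901468851537952)) (.cons (.rf (nat_lit 819) (nat_lit 372998571738400800)) .nil))))) (.cons (.br (nat_lit 6) (nat_lit 1) (.cons (.rf (nat_lit 832) (nat_lit 407901468851537952)) (.cons (.rf (nat_lit 832) (nat_lit 372998571738400800)) (.cons (.rf (nat_lit 851) (nat_lit 407901468851537952)) (.cons (.rf (nat_lit 851) (nat_lit 372998571738400800)) .nil))))) (.cons (.br (nat_lit 6) (nat_lit 1) (.cons (.rf (nat_lit 863) (nat_lit 407901468851537952)) (.cons (.rf (nat_lit 863) (nat_lit 372998571738400800)) (.cons (.rf (nat_lit 884) (nat_lit 407901468851537952)) (.cons (.rf (nat_lit 884) (nat_lit 372998571738400800)) .nil))))) (.cons (.br (nat_lit 6) (nat_lit 1) (.cons (.rf (nat_lit 915)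 (nat_lit 14242959524133701664)) (.cons (.rf (nat_lit 915) (nat_lit 14208056627020564512)) (.cons (.rf (nat_lit 956) (nat_lit 14242959524133701664)) (.cons (.rf (nat_lit 956) (nat_lit 14208056627020564512)) .nil))))) .nil)))))),
 (.br (nat_lit 9) (nat_lit 1) (.cons (.br (nat_lit 10) (nat_lit 0) (.cons (.br (nat_lit 10) (nat_lit 0) .nil) .nil)) .nil)),
 (.br (nat_lit 9) (nat_lit 1) (.cons (.rf (nat_lit 516) (nat_lit 407901468851537952)) (.cons (.rf (nat_lit 517) (nat_lit 407901468851537952)) .nil))),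
 (.br (nat_lit 9) (nat_lit 1) (.cons (.rf (nat_lit 517) (nat_lit 372998571739416608)) (.cons (.rf (nat_lit 516) (nat_lit 372998571739416608)) .nil))),
 (.br (nat_lit 8) (nat_lit 1) (.cons (.rf (nat_lit 959) (nat_lit 407901468851537952)) (.cons (.rf (nat_lit 960) (nat_lit 407901468851537952)) .nil))),
 (.br (nat_lit 8) (nat_lit 1) (.cons (.rf (nat_lit 519) (nat_lit 372998571739416608)) .nil)),
 (.br (nat_lit 4) (nat_lit 0) (.cons (.rf (nat_lit 958) (nat_lit 325702574508064)) (.cons (.rf (nat_lit 961) (nat_lit 407901468851537952)) (.cons (.rf (nat_lit 962) (nat_lit 13836501456619552)) .nil)))),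
 (.br (nat_lit 10) (nat_lit 0) (.cons (.rf (nat_lit 523) (nat_lit 370817140669909024)) (.cons (.br (nat_lit 10) (nat_lit 0) (.cons (.rf (nat_lit 523) (nat_lit 370852325041997856)) .nil)) .nil))),
 (.br (nat_lit 8) (nat_lit 1) (.cons (.rf (nat_lit 963) (nat_lit 407900403699648544)) (.cons (.rf (nat_lit 964) (nat_lit 12745785921865760)) (.cons (.rf (nat_lit 641) (nat_lit 12743622332090400)) .nil)))),
 (.br (nat_lit 8) (nat_lit 1) (.cons (.rf (nat_lit 963) (nat_lit 407900403699648544)) (.cons (.rf (nat_lit 641) (nat_lit 11652906797336608)) (.cons (.rf (nat_lit 964) (nat_lit 11655070387111968)) .nil)))),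
 (.br (nat_lit 4) (nat_lit 0) (.cons (.rf (nat_lit 485) (nat_lit 11652906797304864)) (.cons (.rf (nat_lit 485) (nat_lit 11656205332186208)) (.cons (.br (nat_lit 4) (nat_lit 0) (.cons (.rf (nat_lit 485) (nat_lit 11652906797304864)) (.cons (.rf (nat_lit 485) (nat_lit 11656205332186208)) .nil))) .nil)))),
 (.br (nat_lit 9) (nat_lit 1) (.cons (.br (nat_lit 10) (nat_lit 0) (.cons (.br (nat_lit 11) (nat_lit 0) (.cons (.ev (nat_lit 79228167236703159532220580096) (nat_lit 1)) .nil)) .nil)) .nil)),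
 (.br (nat_lit 4) (nat_lit 0) (.cons (.ev (nat_lit 18519084242235818241) (nat_lit 1)) (.cons (.br (nat_lit 8) (nat_lit 1) (.cons (.rf (nat_lit 486) (nat_lit 374122308056452128)) (.cons (.br (nat_lit 9) (nat_lit 1) (.cons (.rf (nat_lit 437) (nat_lit 407901468851506208)) (.cons (.br (nat_lit 10) (nat_lit 0) (.cons (.br (nat_lit 11) (nat_lit 0) (.cons (.ev (nat_lit 79228167236703159532220580096) (nat_lit 1)) .nil)) .nil)) .nil))) .nil))) .nil))),
 (.br (nat_lit 9) (nat_lit 1) (.cons (.br (nat_lit 10) (nat_lit 0) (.cons (.br (nat_lit 11) (nat_lit 0) (.cons (.ev (nat_lit 79538861190718805714069881088) (nat_lit 1)) .nil)) .nil)) .nil)),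
 (.br (nat_lit 4) (nat_lit 0) (.cons (.rf (nat_lit 865) (nat_lit 372995240018088000)) (.cons (.br (nat_lit 9) (nat_lit 1) (.cons (.rf (nat_lit 970) (nat_lit 14242959524133701664)) (.cons (.br (nat_lit 9) (nat_lit 1) (.cons (.rf (nat_lit 970) (nat_lit 14242959524133701664)) .nil)) .nil))) .nil))),
 (.br (nat_lit 11) (nat_lit 0) (.cons (.kr (nat_lit 4722366482869645213696) (nat_lit 309485009821345068724781056) (nat_lit 9) (nat_lit 0)) (.cons (.ev (nat_lit 79537647524085965236757069824) (nat_lit 1)) .nil))),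
 (.br (nat_lit 4) (nat_lit 0) (.cons (.rf (nat_lit 865) (nat_lit 372995240018088000)) (.cons (.br (nat_lit 8) (nat_lit 1) (.cons (.br (nat_lit 9) (nat_lit 1) (.cons (.rf (nat_lit 437) (nat_lit 407900403699616800)) (.cons (.br (nat_lit 10) (nat_lit 0) (.cons (.br (nat_lit 11) (nat_lit 0) (.cons (.ev (nat_lit 79538861190718805714069881088) (nat_lit 1)) .nil)) .nil)) .nil))) (.cons (.br (nat_lit 9) (nat_lit 1) (.cons (.br (nat_lit 10) (nat_lit 0) (.cons (.rf (nat_lit 972) (nat_lit 14242959524133701664)) .nil)) (.cons (.kr (nat_lit 4722366482869645213696) (nat_lit 309485009821345068724781056) (nat_lit 9) (nat_lit 0)) .nil))) .nil))) .nil))),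
 (.br (nat_lit 9) (nat_lit 1) (.cons (.rf (nat_lit 336) (nat_lit 407796947698683968)) (.cons (.rf (nat_lit 335) (nat_lit 372894050586562624)) .nil))),
 (.br (nat_lit 8) (nat_lit 1) (.cons (.br (nat_lit 4) (nat_lit 0) (.cons (.rf (nat_lit 974) (nat_lit 407901468851537952)) (.cons (.rf (nat_lit 338) (nat_lit 445054002187535456)) .nil))) (.cons (.rf (nat_lit 341) (nat_lit 12743622332056672)) (.cons (.rf (nat_lit 353) (nat_lit 11652906797302880)) .nil)))),
 (.br (nat_lit 4) (nat_lit 0) (.cons (.rf (nat_lit 485) (nat_lit 12743622332058656)) (.cons (.rf (nat_lit 485) (nat_lit 12746920866940000)) (.cons (.br (nat_lit 4) (nat_lit 0) (.cons (.rf (nat_lit 485) (nat_lit 12743622332058656)) (.cons (.rf (nat_lit 485) (nat_lit 12746920866940000)) .nil))) .nil)))),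
 (.br (nat_lit 8) (nat_lit 1) (.cons (.rf (nat_lit 865) (nat_lit 372998571739384864)) (.cons (.rf (nat_lit 976) (nat_lit 407901468851537952)) (.cons (.rf (nat_lit 642) (nat_lit 407899305261762592)) .nil)))),
 (.br (nat_lit 9) (nat_lit 1) (.cons (.br (nat_lit 10) (nat_lit 0) (.cons (.br (nat_lit 11) (nat_lit 0) (.cons (.kr (nat_lit 1208925819614633469673728) (nat_lit 309485009821345068741623808) (nat_lit 1) (nat_lit 0)) .nil)) .nil)) .nil)),
 (.br (nat_lit 9) (nat_lit 1) (.cons (.rf (nat_lit 978) (nat_lit 14242959524133701664)) (.cons (.rf (nat_lit 978) (nat_lit 14208054361492423744)) .nil))),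
 (.br (nat_lit 4) (nat_lit 0) (.cons (.rf (nat_lit 865) (nat_lit 407898138170396736)) (.cons (.rf (nat_lit 979) (nat_lit 14242959524133701664)) .nil))),
 (.br (nat_lit 9) (nat_lit 1) (.cons (.rf (nat_lit 440) (nat_lit 372998571739384864)) (.cons (.br (nat_lit 10) (nat_lit 0) (.cons (.br (nat_lit 11) (nat_lit 0) (.cons (.kr (nat_lit 1208925819614633469673728) (nat_lit 309485009821345068741623808) (nat_lit 1) (nat_lit 0)) .nil)) .nil)) .nil))),
 (.br (nat_lit 10) (nat_lit 0) (.cons (.ev (nat_lit 1208944338417400745623553) (nat_lit 1)) (.cons (.br (nat_lit 11) (nat_lit 0) (.cons (.ev (nat_lit 309485009821346168236474369) (nat_lit 1)) (.cons (.ev (nat_lit 79538861172344119234398322688) (nat_lit 1)) .nil))) .nil))),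
 (.br (nat_lit 4) (nat_lit 0) (.cons (.rf (nat_lit 865) (nat_lit 407898137130209344)) (.cons (.br (nat_lit 8) (nat_lit 1) (.cons (.rf (nat_lit 981) (nat_lit 14242959524133701664)) (.cons (.br (nat_lit 9) (nat_lit 1) (.cons (.rf (nat_lit 982) (nat_lit 14242959524133701664)) (.cons (.rf (nat_lit 437) (nat_lit 372997506587495456)) .nil))) .nil))) .nil))),
 (.br (nat_lit 11) (nat_lit 0) (.cons (.ev (nat_lit 309489732188109417658449921) (nat_lit 1)) (.cons (.ev (nat_lit 79538861190718805714069881088) (nat_lit 1)) .nil)))]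

theorem c25 : chkAll C T R L25 (nat_lit 945) = true := by decide +kernel

theorem l25 : (nat_lit 945) + L25.length = (nat_lit 985) := by decide +kernel

/-- part of the certificates -/
def L26 : List Prf := [(.br (nat_lit 4) (nat_lit 0) (.cons (.ev (nat_lit 18519084242235818241) (nat_lit 1)) (.cons (.br (nat_lit 8) (nat_lit 1) (.cons (.br (nat_lit 9) (nat_lit 1) (.cons (.br (nat_lit 10) (nat_lit 0) (.cons (.rf (nat_lit 984) (nat_lit 14242959524133701664)) .nil)) (.cons (.rf (nat_lit 437) (nat_lit 372998571739384864)) .nil))) (.cons (.rf (nat_lit 486) (nat_lit 410151105075416096)) .nil))) .nil))),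
 (.br (nat_lit 7) (nat_lit 1) (.cons (.rf (nat_lit 519) (nat_lit 372962356575176736)) .nil)),
 (.br (nat_lit 9) (nat_lit 1) (.cons (.br (nat_lit 4) (nat_lit 0) (.cons (.rf (nat_lit 958) (nat_lit 291617714047008)) (.cons (.rf (nat_lit 961) (nat_lit 407865253687298080)) (.cons (.rf (nat_lit 986) (nat_lit 13836501456619552)) .nil)))) (.cons (.rf (nat_lit 965) (nat_lit 407865253687298080)) (.cons (.rf (nat_lit 966) (nat_lit 407865253687298080)) .nil)))),
 (.br (nat_lit 9) (nat_lit 1) (.cons (.rf (nat_lit 794) (nat_lit 291617711983648)) (.cons (.rf (nat_lit 799) (nat_lit 407864153168971872)) (.cons (.rf (nat_lit 975) (nat_lit 407864020025050176)) .nil)))),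
 (.br (nat_lit 8) (nat_lit 1) (.cons (.br (nat_lit 10) (nat_lit 0) (.cons (.br (nat_lit 11) (nat_lit 0) (.cons (.ev (nat_lit 79228167255077565640705310976) (nat_lit 1)) .nil)) .nil)) .nil)),
 (.br (nat_lit 8) (nat_lit 1) (.cons (.br (nat_lit 10) (nat_lit 0) (.cons (.br (nat_lit 11) (nat_lit 0) (.cons (.ev (nat_lit 158769455816388168582668027650) (nat_lit 3)) .nil)) .nil)) .nil)),
 (.br (nat_lit 3) (nat_lit 0) (.cons (.rf (nat_lit 988) (nat_lit 407901468851537952)) (.cons (.br (nat_lit 7) (nat_lit 1) (.cons (.br (nat_lit 8) (nat_lit 1) (.cons (.rf (nat_lit 820) (nat_lit 372998571737353248)) (.cons (.rf (nat_lit 852) (nat_lit 407832232936443936)) .nil))) (.cons (.ev (nat_lit 72339069031481601) (nat_lit 1)) (.cons (.br (nat_lit 9) (nat_lit 1) (.cons (.ev (nat_lit 72058697844523009) (nat_lit 1)) (.cons (.rf (nat_lit 642) (nat_lit 372961258137290784)) (.cons (.rf (nat_lit 485) (nat_lit 11652941157043232)) .nil)))) .nil)))) (.cons (.rf (nat_lit 988) (nat_lit 407831168826837024))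 (.cons (.br (nat_lit 7) (nat_lit 1) (.cons (.rf (nat_lit 797) (nat_lit 13802348982895744)) (.cons (.br (nat_lit 9) (nat_lit 1) (.cons (.rf (nat_lit 338) (nat_lit 443893913400412288)) (.cons (.rf (nat_lit 485) (nat_lit 12743656691797024)) (.cons (.br (nat_lit 4) (nat_lit 0) (.cons (.rf (nat_lit 642) (nat_lit 407863055770322976)) (.cons (.br (nat_lit 8) (nat_lit 1) (.cons (.rf (nat_lit 989) (nat_lit 14242959524133701664)) (.cons (.br (nat_lit 8) (nat_lit 1) (.cons (.rf (nat_lit 989) (nat_lit 14242959524133701664)) .nil)) .nil))) .nil))) .nil)))) (.cons (.br (nat_lit 4) (nat_lit 0) (.cons (.rf (nat_lit 857) (nat_lit 14242925438230958112)) (.cons (.ev (nat_lit 72058697844523009) (nat_lit 1)) (.cons (.br (nat_lit 9) (nat_lit 1) (.cons (.br (nat_lit 8) (nat_lit 1) (.cons (.rf (nat_lit 990) (nat_lit 14242959524133701664)) (.cons (.br (nat_lit 8) (nat_lit 1) (.cons (.rf (nat_lit 990) (nat_lit 14242959524133701664)) .nil)) .nil))) (.cons (.rf (nat_lit 485) (nat_lit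 11652941157043232)) .nil))) .nil)))) .nil)))) .nil))))),
 (.br (nat_lit 9) (nat_lit 1) (.cons (.rf (nat_lit 864) (nat_lit 407867383991045152)) (.cons (.rf (nat_lit 976) (nat_lit 407867383991076896)) (.cons (.rf (nat_lit 642) (nat_lit 407864155249412128)) .nil)))),
 (.br (nat_lit 9) (nat_lit 1) (.cons (.rf (nat_lit 865) (nat_lit 407867383991045152)) (.cons (.rf (nat_lit 642) (nat_lit 372961258137290784)) (.cons (.rf (nat_lit 967) (nat_lit 407867383991076896)) .nil)))),
 (.br (nat_lit 8) (nat_lit 1) (.cons (.br (nat_lit 10) (nat_lit 0) (.cons (.br (nat_lit 11) (nat_lit 0) (.cons (.ev (nat_lit 315529749745130346220290820) (nat_lit 3)) .nil)) .nil)) .nil)),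
 (.br (nat_lit 4) (nat_lit 0) (.cons (.rf (nat_lit 922) (nat_lit 14242889224108968992)) (.cons (.br (nat_lit 8) (nat_lit 1) (.cons (.ev (nat_lit 1208944266358702884323329) (nat_lit 1)) (.cons (.br (nat_lit 9) (nat_lit 1) (.cons (.rf (nat_lit 445) (nat_lit 407901468851506208)) (.cons (.br (nat_lit 10) (nat_lit 0) (.cons (.br (nat_lit 11) (nat_lit 0) (.cons (.ev (nat_lit 315548639498161920246481668) (nat_lit 3)) .nil)) .nil)) .nil))) .nil))) .nil))),
 (.br (nat_lit 11) (nat_lit 0) (.cons (.ev (nat_lit 79537647524085965236757069824) (nat_lit 1)) .nil)),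
 (.br (nat_lit 4) (nat_lit 0) (.cons (.rf (nat_lit 865) (nat_lit 372960055679553600)) (.cons (.br (nat_lit 8) (nat_lit 1) (.cons (.br (nat_lit 9) (nat_lit 1) (.cons (.rf (nat_lit 437) (nat_lit 407865253687266336)) (.cons (.br (nat_lit 10) (nat_lit 0) (.cons (.br (nat_lit 11) (nat_lit 0) (.cons (.zr (nat_lit 158456339232521614142465901824) (nat_lit 1208926108689434551582723) (nat_lit 5) (nat_lit 6)) .nil)) .nil)) .nil))) (.cons (.br (nat_lit 9) (nat_lit 1) (.cons (.br (nat_lit 10) (nat_lit 0) (.cons (.rf (nat_lit 996) (nat_lit 14242959524133701664)) .nil)) (.cons (.rf (nat_lit 440) (nat_lit 407867383991045152)) .nil))) .nil))) .nil))),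
 (.br (nat_lit 8) (nat_lit 1) (.cons (.br (nat_lit 10) (nat_lit 0) (.cons (.rf (nat_lit 972) (nat_lit 14242959524133701664)) .nil)) .nil)),
 (.br (nat_lit 4) (nat_lit 0) (.cons (.rf (nat_lit 865) (nat_lit 372960055679553600)) (.cons (.br (nat_lit 8) (nat_lit 1) (.cons (.rf (nat_lit 998) (nat_lit 14242959524133701664)) (.cons (.br (nat_lit 8) (nat_lit 1) (.cons (.rf (nat_lit 998) (nat_lit 14242959524133701664)) .nil)) .nil))) .nil))),
 (.br (nat_lit 3) (nat_lit 0) (.cons (.rf (nat_lit 799) (nat_lit 407867350705046624)) (.cons (.br (nat_lit 7) (nat_lit 1) (.cons (.ev (nat_lit 72339069031481601) (nat_lit 1)) (.cons (.rf (nat_lit 992) (nat_lit 407901468851537952)) (.cons (.rf (nat_lit 993) (nat_lit 407901468851537952)) .nil)))) (.cons (.rf (nat_lit 875) (nat_lit 407900403699616800)) (.cons (.br (nat_lit 7) (nat_lit 1) (.cons (.br (nat_lit 4) (nat_lit 0) (.cons (.rf (nat_lit 922) (nat_lit 14242959524133669920)) (.cons (.rf (nat_lit 962) (nat_lit 13799052629115968))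 (.cons (.br (nat_lit 9) (nat_lit 1) (.cons (.rf (nat_lit 582) (nat_lit 443896181007945760)) (.cons (.br (nat_lit 8) (nat_lit 1) (.cons (.rf (nat_lit 994) (nat_lit 14242959524133701664)) (.cons (.rf (nat_lit 994) (nat_lit 14207951008473154624)) .nil))) .nil))) .nil)))) (.cons (.br (nat_lit 4) (nat_lit 0) (.cons (.rf (nat_lit 995) (nat_lit 14242959524133701664)) (.cons (.rf (nat_lit 925) (nat_lit 14242959524133669920)) (.cons (.br (nat_lit 4) (nat_lit 0) (.cons (.rf (nat_lit 995) (nat_lit 14242959524133701664)) (.cons (.rf (nat_lit 582) (nat_lit 443894050704166944)) .nil))) .nil)))) (.cons (.br (nat_lit 4) (nat_lit 0) (.cons (.rf (nat_lit 997) (nat_lit 14242959524133701664)) (.cons (.rf (nat_lit 999) (nat_lit 14242959524133701664)) (.cons (.br (nat_lit 4) (nat_lit 0) (.cons (.rf (nat_lit 997) (nat_lit 14242959524133701664)) (.cons (.rf (nat_lit 999) (nat_lit 14242959524133701664)) .nil))) .nil)))) .nil)))) .nil))))),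
 (.br (nat_lit 9) (nat_lit 1) (.cons (.br (nat_lit 4) (nat_lit 0) (.cons (.rf (nat_lit 975) (nat_lit 407832233976631328)) (.cons (.rf (nat_lit 922) (nat_lit 14207951006392684608)) .nil))) (.cons (.rf (nat_lit 642) (nat_lit 372961258137290784)) (.cons (.rf (nat_lit 967) (nat_lit 407867383991076896)) .nil)))),
 (.br (nat_lit 4) (nat_lit 0) (.cons (.rf (nat_lit 916) (nat_lit 445056165775281184)) (.cons (.rf (nat_lit 962) (nat_lit 13799052629115968)) (.cons (.br (nat_lit 9) (nat_lit 1) (.cons (.rf (nat_lit 979) (nat_lit 14242925439273240608)) (.cons (.rf (nat_lit 582) (nat_lit 445022080914788384)) .nil))) .nil)))),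
 (.br (nat_lit 4) (nat_lit 0) (.cons (.rf (nat_lit 865) (nat_lit 407862952791674944)) (.cons (.br (nat_lit 9) (nat_lit 1) (.cons (.rf (nat_lit 981) (nat_lit 14242925439273240608)) (.cons (.br (nat_lit 8) (nat_lit 1) (.cons (.br (nat_lit 10) (nat_lit 0) (.cons (.br (nat_lit 11) (nat_lit 0) (.cons (.ev (nat_lit 79537652246524505700440277248) (nat_lit 1)) .nil)) .nil)) (.cons (.kr (nat_lit 18446744073709551616) (nat_lit 309485009821345068724781056) (nat_lit 8) (nat_lit 0)) .nil))) .nil))) .nil))),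
 (.br (nat_lit 4) (nat_lit 0) (.cons (.rf (nat_lit 992) (nat_lit 372857801098265664)) (.cons (.br (nat_lit 8) (nat_lit 1) (.cons (.br (nat_lit 9) (nat_lit 1) (.cons (.br (nat_lit 10) (nat_lit 0) (.cons (.br (nat_lit 11) (nat_lit 0) (.cons (.ev (nat_lit 315529749744000065513654020) (nat_lit 3)) .nil)) .nil)) (.cons (.rf (nat_lit 445) (nat_lit 372998571739384864)) .nil))) (.cons (.rf (nat_lit 588) (nat_lit 445055100623360032)) .nil))) .nil))),
 (.br (nat_lit 4) (nat_lit 0) (.cons (.rf (nat_lit 992) (nat_lit 372857801098265664)) (.cons (.rf (nat_lit 582) (nat_lit 445019950611009568)) .nil))),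
 (.br (nat_lit 9) (nat_lit 1) (.cons (.br (nat_lit 8) (nat_lit 1) (.cons (.br (nat_lit 10) (nat_lit 0) (.cons (.br (nat_lit 11) (nat_lit 0) (.cons (.kr (nat_lit 1208925819614633469673728) (nat_lit 309485009821345068741623808) (nat_lit 1) (nat_lit 0)) .nil)) .nil)) .nil)) .nil)),
 (.br (nat_lit 9) (nat_lit 1) (.cons (.rf (nat_lit 1006) (nat_lit 14242925439273240608)) (.cons (.rf (nat_lit 1006) (nat_lit 14242959524133701664)) .nil))),
 (.br (nat_lit 4) (nat_lit 0) (.cons (.rf (nat_lit 962) (nat_lit 13836501454524448)) (.cons (.rf (nat_lit 962) (nat_lit 13802416594063392)) (.cons (.br (nat_lit 8) (nat_lit 1) (.cons (.br (nat_lit 8) (nat_lit 1) (.cons (.rf (nat_lit 1007) (nat_lit 14242959524133701664)) .nil)) (.cons (.br (nat_lit 8) (nat_lit 1) (.cons (.rf (nat_lit 1007) (nat_lit 14242959524133701664)) .nil)) .nil))) .nil)))),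
 (.br (nat_lit 9) (nat_lit 1) (.cons (.br (nat_lit 10) (nat_lit 0) (.cons (.br (nat_lit 11) (nat_lit 0) (.cons (.kr (nat_lit 1208925819614633469673728) (nat_lit 309485009821345068741623808) (nat_lit 1) (nat_lit 0)) .nil)) .nil)) .nil)),
 (.br (nat_lit 9) (nat_lit 1) (.cons (.rf (nat_lit 1009) (nat_lit 14242959524133701664)) (.cons (.br (nat_lit 9) (nat_lit 1) (.cons (.rf (nat_lit 1009) (nat_lit 14242959524133701664)) .nil)) .nil))),
 (.br (nat_lit 4) (nat_lit 0) (.cons (.br (nat_lit 8) (nat_lit 1) (.cons (.br (nat_lit 9) (nat_lit 1) (.cons (.rf (nat_lit 964) (nat_lit 12746919791136800)) (.cons (.ev (nat_lit 4740885566016664371201) (nat_lit 1)) .nil))) (.cons (.br (nat_lit 9) (nat_lit 1) (.cons (.ev (nat_lit 4740885566016664371201) (nat_lit 1)) (.cons (.rf (nat_lit 964) (nat_lit 11656204256383008)) .nil))) .nil))) (.cons (.br (nat_lit 8) (nat_lit 1) (.cons (.br (nat_lit 9) (nat_lit 1) (.cons (.br (nat_lit 9) (nat_lit 1) (.cons (.rf (nat_lit 527) (nat_lit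 407901468851537952)) .nil)) (.cons (.rf (nat_lit 527) (nat_lit 407901468851537952)) .nil))) (.cons (.rf (nat_lit 1010) (nat_lit 14242959524133701664)) .nil))) .nil))),
 (.br (nat_lit 4) (nat_lit 0) (.cons (.rf (nat_lit 1011) (nat_lit 14242959524133701664)) (.cons (.br (nat_lit 9) (nat_lit 1) (.cons (.br (nat_lit 8) (nat_lit 1) (.cons (.br (nat_lit 8) (nat_lit 1) (.cons (.rf (nat_lit 527) (nat_lit 407867383991076896)) .nil)) (.cons (.rf (nat_lit 527) (nat_lit 407867383991076896)) .nil))) (.cons (.rf (nat_lit 1010) (nat_lit 14242925439273240608)) .nil))) .nil))),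
 (.br (nat_lit 9) (nat_lit 1) (.cons (.br (nat_lit 10) (nat_lit 0) (.cons (.br (nat_lit 11) (nat_lit 0) (.cons (.kr (nat_lit 1208925819616832492929280) (nat_lit 309485009821908018695045120) (nat_lit 1) (nat_lit 0)) .nil)) .nil)) .nil)),
 (.br (nat_lit 4) (nat_lit 0) (.cons (.br (nat_lit 8) (nat_lit 1) (.cons (.br (nat_lit 9) (nat_lit 1) (.cons (.ev (nat_lit 4740885566016664371201) (nat_lit 1)) (.cons (.rf (nat_lit 641) (nat_lit 12743657763475488)) .nil))) (.cons (.br (nat_lit 9) (nat_lit 1) (.cons (.rf (nat_lit 641) (nat_lit 11652942228721696)) (.cons (.ev (nat_lit 4740885566016664371201) (nat_lit 1)) .nil))) .nil))) (.cons (.br (nat_lit 8) (nat_lit 1) (.cons (.br (nat_lit 9) (nat_lit 1) (.cons (.rf (nat_lit 1013) (nat_lit 14242959524133701664)) (.cons (.br (nat_lit 9) (nat_lit 1) (.cons (.rf (nat_lit 1013) (nat_lit 14242959524133701664)) .nil)) .nil))) (.cons (.br (nat_lit 9) (nat_lit 1) (.cons (.rf (nat_lit 527) (nat_lit 372998571739416608)) (.cons (.br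 (nat_lit 9) (nat_lit 1) (.cons (.rf (nat_lit 527) (nat_lit 372998571739416608)) .nil)) .nil))) .nil))) .nil))),
 (.br (nat_lit 8) (nat_lit 1) (.cons (.br (nat_lit 9) (nat_lit 1) (.cons (.br (nat_lit 10) (nat_lit 0) (.cons (.ev (nat_lit 1213648186097498819985409) (nat_lit 1)) .nil)) (.cons (.kr (nat_lit 4722366482869645213696) (nat_lit 309485009821345068724781056) (nat_lit 9) (nat_lit 0)) .nil))) .nil)),
 (.br (nat_lit 4) (nat_lit 0) (.cons (.rf (nat_lit 1014) (nat_lit 14242959524133701664)) (.cons (.br (nat_lit 8) (nat_lit 1) (.cons (.rf (nat_lit 1015) (nat_lit 14242959524133701664)) (.cons (.br (nat_lit 8) (nat_lit 1) (.cons (.rf (nat_lit 1015) (nat_lit 14242959524133701664)) .nil)) .nil))) .nil))),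
 (.br (nat_lit 9) (nat_lit 1) (.cons (.br (nat_lit 10) (nat_lit 0) (.cons (.br (nat_lit 11) (nat_lit 0) (.cons (.kr (nat_lit 1218370552580372760101120) (nat_lit 309485046714833216160727040) (nat_lit 1) (nat_lit 0)) .nil)) .nil)) .nil)),
 (.br (nat_lit 8) (nat_lit 1) (.cons (.br (nat_lit 9) (nat_lit 1) (.cons (.rf (nat_lit 1017) (nat_lit 14242959524133701664)) (.cons (.br (nat_lit 9) (nat_lit 1) (.cons (.rf (nat_lit 1017) (nat_lit 14242959524133701664)) .nil)) .nil))) .nil)),
 (.br (nat_lit 9) (nat_lit 1) (.cons (.br (nat_lit 10) (nat_lit 0) (.cons (.br (nat_lit 11) (nat_lit 0) (.cons (.zr (nat_lit 159388406835451554280803336448) (nat_lit 18889610046670951677956) (nat_lit 10) (nat_lit 12)) .nil)) .nil)) .nil)),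
 (.br (nat_lit 10) (nat_lit 0) (.cons (.ev (nat_lit 1213666705180641544110081) (nat_lit 1)) (.cons (.br (nat_lit 11) (nat_lit 0) (.cons (.ev (nat_lit 309489750706630705629102081) (nat_lit 1)) (.cons (.ev (nat_lit 79538861190718805714069881088) (nat_lit 1)) .nil))) .nil))),
 (.br (nat_lit 9) (nat_lit 1) (.cons (.rf (nat_lit 341) (nat_lit 11656204256414752)) (.cons (.rf (nat_lit 353) (nat_lit 11656204256414752)) .nil))),
 (.br (nat_lit 10) (nat_lit 0) (.cons (.ev (nat_lit 1213648258156196664442881) (nat_lit 1)) .nil)),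
 (.br (nat_lit 9) (nat_lit 1) (.cons (.rf (nat_lit 341) (nat_lit 11656204256414752)) (.cons (.rf (nat_lit 353) (nat_lit 11656204256414752)) .nil))),
 (.br (nat_lit 8) (nat_lit 1) (.cons (.br (nat_lit 10) (nat_lit 0) (.cons (.br (nat_lit 11) (nat_lit 0) (.cons (.ev (nat_lit 79228167255149622135248388096) (nat_lit 1)) .nil)) .nil)) .nil)),
 (.br (nat_lit 9) (nat_lit 1) (.cons (.br (nat_lit 10) (nat_lit 0) (.cons (.br (nat_lit 11) (nat_lit 0) (.cons (.ev (nat_lit 79537647542532427839784878336) (nat_lit 1)) .nil)) .nil)) .nil)),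
 (.br (nat_lit 8) (nat_lit 1) (.cons (.br (nat_lit 9) (nat_lit 1) (.cons (.rf (nat_lit 1025) (nat_lit 14242959524133701664)) (.cons (.br (nat_lit 9) (nat_lit 1) (.cons (.rf (nat_lit 1025) (nat_lit 14242959524133701664)) .nil)) .nil))) .nil)),
 (.br (nat_lit 9) (nat_lit 1) (.cons (.br (nat_lit 10) (nat_lit 0) (.cons (.br (nat_lit 11) (nat_lit 0) (.cons (.kr (nat_lit 310693935640959702194454784) (nat_lit 36893488147435945984) (nat_lit 1) (nat_lit 0)) .nil)) .nil)) .nil))]

theorem c26 : chkAll C T R L26 (nat_lit 985) = true := by decide +kernel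

theorem l26 : (nat_lit 985) + L26.length = (nat_lit 1028) := by decide +kernel

/-- part of the certificates -/
def L27 : List Prf := [(.br (nat_lit 8) (nat_lit 1) (.cons (.rf (nat_lit 625) (nat_lit 443790630072650880)) (.cons (.br (nat_lit 9) (nat_lit 1) (.cons (.rf (nat_lit 1027) (nat_lit 14242959524133701664)) (.cons (.br (nat_lit 9) (nat_lit 1) (.cons (.rf (nat_lit 1027) (nat_lit 14242959524133701664)) .nil)) .nil))) .nil))),
 (.br (nat_lit 8) (nat_lit 1) (.cons (.br (nat_lit 10) (nat_lit 0) (.cons (.br (nat_lit 11) (nat_lit 0) (.cons (.ev (nat_lit 79228167255149622135248388096) (nat_lit 1)) .nil)) .nil)) .nil)),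
 (.br (nat_lit 9) (nat_lit 1) (.cons (.br (nat_lit 11) (nat_lit 0) (.cons (.ev (nat_lit 79228167255077565640705310976) (nat_lit 1)) .nil)) .nil)),
 (.br (nat_lit 8) (nat_lit 1) (.cons (.br (nat_lit 9) (nat_lit 1) (.cons (.rf (nat_lit 1030) (nat_lit 14242959524133701664)) (.cons (.br (nat_lit 9) (nat_lit 1) (.cons (.rf (nat_lit 1030) (nat_lit 14242959524133701664)) .nil)) .nil))) .nil)),
 (.br (nat_lit 9) (nat_lit 1) (.cons (.br (nat_lit 10) (nat_lit 0) (.cons (.br (nat_lit 11) (nat_lit 0) (.cons (.ev (nat_lit 1109514649986922622749576856330) (nat_lit 4)) .nil)) .nil)) .nil)),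
 (.br (nat_lit 9) (nat_lit 1) (.cons (.br (nat_lit 10) (nat_lit 0) (.cons (.kr (nat_lit 1218370552580372760101120) (nat_lit 309485046714833216160727040) (nat_lit 1) (nat_lit 0)) .nil)) .nil)),
 (.br (nat_lit 8) (nat_lit 1) (.cons (.br (nat_lit 9) (nat_lit 1) (.cons (.rf (nat_lit 1033) (nat_lit 14242959524133701664)) (.cons (.br (nat_lit 9) (nat_lit 1) (.cons (.rf (nat_lit 1033) (nat_lit 14242959524133701664)) .nil)) .nil))) .nil)),
 (.br (nat_lit 9) (nat_lit 1) (.cons (.br (nat_lit 10) (nat_lit 0) (.cons (.br (nat_lit 11) (nat_lit 0) (.cons (.ev (nat_lit 79228162514264619072815628544) (nat_lit 1)) .nil)) .nil)) .nil)),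
 (.br (nat_lit 4) (nat_lit 0) (.cons (.rf (nat_lit 888) (nat_lit 14242959488767264864)) (.cons (.br (nat_lit 8) (nat_lit 1) (.cons (.rf (nat_lit 625) (nat_lit 443861030997690400)) (.cons (.br (nat_lit 9) (nat_lit 1) (.cons (.rf (nat_lit 1035) (nat_lit 14242959524133701664)) (.cons (.br (nat_lit 9) (nat_lit 1) (.cons (.rf (nat_lit 1035) (nat_lit 14242959524133701664)) .nil)) .nil))) .nil))) .nil))),
 (.br (nat_lit 8) (nat_lit 1) (.cons (.br (nat_lit 10) (nat_lit 0) (.cons (.br (nat_lit 11) (nat_lit 0) (.cons (.ev (nat_lit 79538856449977354885481431296) (nat_lit 1)) .nil)) .nil)) .nil)),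
 (.br (nat_lit 4) (nat_lit 0) (.cons (.rf (nat_lit 888) (nat_lit 14242959488767264864)) (.cons (.br (nat_lit 9) (nat_lit 1) (.cons (.rf (nat_lit 625) (nat_lit 443859965845800992)) (.cons (.br (nat_lit 8) (nat_lit 1) (.cons (.rf (nat_lit 1037) (nat_lit 14242959524133701664)) (.cons (.br (nat_lit 8) (nat_lit 1) (.cons (.rf (nat_lit 1037) (nat_lit 14242959524133701664)) .nil)) .nil))) .nil))) .nil))),
 (.br (nat_lit 9) (nat_lit 1) (.cons (.br (nat_lit 10) (nat_lit 0) (.cons (.br (nat_lit 11) (nat_lit 0) (.cons (.ev (nat_lit 313121268908333904810803972) (nat_lit 3)) .nil)) .nil)) .nil)),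
 (.br (nat_lit 4) (nat_lit 0) (.cons (.rf (nat_lit 1023) (nat_lit 14208054427022133344)) (.cons (.rf (nat_lit 625) (nat_lit 443896181007945760)) .nil))),
 (.br (nat_lit 11) (nat_lit 0) (.cons (.ev (nat_lit 4722438540463699918849) (nat_lit 1)) (.cons (.ev (nat_lit 79228162514336677766381961216) (nat_lit 1)) .nil))),
 (.br (nat_lit 4) (nat_lit 0) (.cons (.rf (nat_lit 1023) (nat_lit 14208054427022133344)) (.cons (.br (nat_lit 8) (nat_lit 1) (.cons (.rf (nat_lit 393) (nat_lit 443929200718580768)) (.cons (.br (nat_lit 9) (nat_lit 1) (.cons (.ev (nat_lit 2422629418003046968001026) (nat_lit 2)) (.cons (.br (nat_lit 10) (nat_lit 0) (.cons (.rf (nat_lit 1041) (nat_lit 14242959524133701664)) .nil)) .nil))) .nil))) .nil))),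
 (.br (nat_lit 10) (nat_lit 0) (.cons (.ev (nat_lit 1208944266641277372661761) (nat_lit 1)) .nil)),
 (.br (nat_lit 4) (nat_lit 0) (.cons (.rf (nat_lit 1021) (nat_lit 14208054427022133344)) (.cons (.br (nat_lit 9) (nat_lit 1) (.cons (.rf (nat_lit 1043) (nat_lit 14242959524133701664)) (.cons (.br (nat_lit 9) (nat_lit 1) (.cons (.rf (nat_lit 1043) (nat_lit 14242959524133701664)) .nil)) .nil))) .nil))),
 (.br (nat_lit 11) (nat_lit 0) (.cons (.ev (nat_lit 4722438540463699918849) (nat_lit 1)) (.cons (.ev (nat_lit 79228167255077846011892269056) (nat_lit 1)) .nil))),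
 (.br (nat_lit 4) (nat_lit 0) (.cons (.rf (nat_lit 1021) (nat_lit 14208054427022133344)) (.cons (.br (nat_lit 8) (nat_lit 1) (.cons (.br (nat_lit 9) (nat_lit 1) (.cons (.kr (nat_lit 18446744073709551616) (nat_lit 1208925819614629174706176) (nat_lit 8) (nat_lit 0)) (.cons (.br (nat_lit 10) (nat_lit 0) (.cons (.br (nat_lit 11) (nat_lit 0) (.cons (.ev (nat_lit 79538861190718805714069881088) (nat_lit 1)) .nil)) .nil)) .nil))) (.cons (.br (nat_lit 9) (nat_lit 1) (.cons (.br (nat_lit 10) (nat_lit 0) (.cons (.rf (nat_lit 1045) (nat_lit 14242959524133701664)) .nil)) (.cons (.kr (nat_lit 4722366482869645213696) (nat_lit 309485009821345068724781056) (nat_lit 9) (nat_lit 0)) .nil))) .nil))) .nil))),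
 (.br (nat_lit 10) (nat_lit 0) (.cons (.ev (nat_lit 1213648186097503131664641) (nat_lit 1)) .nil)),
 (.br (nat_lit 4) (nat_lit 0) (.cons (.rf (nat_lit 1023) (nat_lit 14208019242683598944)) (.cons (.br (nat_lit 9) (nat_lit 1) (.cons (.rf (nat_lit 393) (nat_lit 443894050706230304)) (.cons (.br (nat_lit 10) (nat_lit 0) (.cons (.rf (nat_lit 437) (nat_lit 407867383991045152)) (.cons (.ev (nat_lit 1213648258156196664442881) (nat_lit 1)) .nil))) .nil))) .nil))),
 (.br (nat_lit 4) (nat_lit 0) (.cons (.rf (nat_lit 1021) (nat_lit 14208019242683598944)) (.cons (.br (nat_lit 8) (nat_lit 1) (.cons (.br (nat_lit 9) (nat_lit 1) (.cons (.rf (nat_lit 393) (nat_lit 443859965843737632)) (.cons (.br (nat_lit 10) (nat_lit 0) (.cons (.br (nat_lit 11) (nat_lit 0) (.cons (.ev (nat_lit 79228162514264619072815628544) (nat_lit 1)) .nil)) .nil)) .nil))) (.cons (.br (nat_lit 9) (nat_lit 1) (.cons (.br (nat_lit 10) (nat_lit 0) (.cons (.br (nat_lit 11) (nat_lit 0) (.cons (.ev (nat_lit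 79228162514264619072815628544) (nat_lit 1)) .nil)) .nil)) (.cons (.rf (nat_lit 437) (nat_lit 372961191565263968)) .nil))) .nil))) .nil))),
 (.br (nat_lit 8) (nat_lit 1) (.cons (.br (nat_lit 10) (nat_lit 0) (.cons (.br (nat_lit 11) (nat_lit 0) (.cons (.ev (nat_lit 158771864185969167937103660290) (nat_lit 3)) .nil)) .nil)) .nil)),
 (.br (nat_lit 4) (nat_lit 0) (.cons (.rf (nat_lit 1021) (nat_lit 14208019242683598944)) (.cons (.br (nat_lit 8) (nat_lit 1) (.cons (.rf (nat_lit 1050) (nat_lit 14242959524133701664)) (.cons (.br (nat_lit 8) (nat_lit 1) (.cons (.rf (nat_lit 1050) (nat_lit 14242959524133701664)) .nil)) .nil))) .nil))),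
 (.br (nat_lit 10) (nat_lit 0) (.cons (.zr (nat_lit 36965546841018990592) (nat_lit 3626777458843896114053121) (nat_lit 5) (nat_lit 5)) .nil)),
 (.br (nat_lit 9) (nat_lit 1) (.cons (.br (nat_lit 9) (nat_lit 1) .nil) .nil)),
 (.br (nat_lit 8) (nat_lit 1) (.cons (.rf (nat_lit 1053) (nat_lit 14242959524133701664)) (.cons (.br (nat_lit 8) (nat_lit 1) (.cons (.rf (nat_lit 1053) (nat_lit 14242959524133701664)) .nil)) .nil))),
 (.br (nat_lit 9) (nat_lit 1) (.cons (.br (nat_lit 11) (nat_lit 0) (.cons (.kr (nat_lit 310693935640959702194454784) (nat_lit 36893488147435945984) (nat_lit 1) (nat_lit 0)) .nil)) .nil)),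
 (.br (nat_lit 4) (nat_lit 0) (.cons (.br (nat_lit 9) (nat_lit 1) (.cons (.rf (nat_lit 437) (nat_lit 407901468851506208)) (.cons (.br (nat_lit 10) (nat_lit 0) (.cons (.br (nat_lit 11) (nat_lit 0) (.cons (.kr (nat_lit 310693935640959702194454784) (nat_lit 36893488147435945984) (nat_lit 1) (nat_lit 0)) .nil)) .nil)) .nil))) (.cons (.br (nat_lit 9) (nat_lit 1) (.cons (.rf (nat_lit 1055) (nat_lit 14242959524133701664)) (.cons (.br (nat_lit 9) (nat_lit 1) (.cons (.rf (nat_lit 1055) (nat_lit 14242959524133701664)) .nil)) .nil))) .nil))),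
 (.br (nat_lit 8) (nat_lit 1) (.cons (.ev (nat_lit 1208944338417396450656513) (nat_lit 1)) (.cons (.rf (nat_lit 1056) (nat_lit 14242959524133701664)) .nil))),
 (.br (nat_lit 12) (nat_lit 1) (.cons (.ev (nat_lit 79229376162522492686401863936) (nat_lit 1)) .nil)),
 (.br (nat_lit 4) (nat_lit 0) (.cons (.rf (nat_lit 1057) (nat_lit 14242959524133701664)) (.cons (.br (nat_lit 9) (nat_lit 1) (.cons (.rf (nat_lit 589) (nat_lit 443896181010040864)) (.cons (.br (nat_lit 8) (nat_lit 1) (.cons (.rf (nat_lit 1058) (nat_lit 14242959524133701664)) (.cons (.br (nat_lit 8) (nat_lit 1) (.cons (.rf (nat_lit 1058) (nat_lit 14242959524133701664)) .nil)) .nil))) .nil))) .nil))),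
 (.br (nat_lit 10) (nat_lit 0) (.cons (.br (nat_lit 11) (nat_lit 0) (.cons (.kr (nat_lit 310693935640959702194454784) (nat_lit 36893488147435945984) (nat_lit 1) (nat_lit 0)) .nil)) .nil)),
 (.br (nat_lit 9) (nat_lit 1) (.cons (.br (nat_lit 10) (nat_lit 0) (.cons (.zr (nat_lit 158456334491708387199111136512) (nat_lit 217017207060758531) (nat_lit 5) (nat_lit 6)) .nil)) .nil)),
 (.br (nat_lit 4) (nat_lit 0) (.cons (.br (nat_lit 8) (nat_lit 1) (.cons (.br (nat_lit 9) (nat_lit 1) (.cons (.rf (nat_lit 445) (nat_lit 407900403697585184)) (.cons (.br (nat_lit 10) (nat_lit 0) (.cons (.br (nat_lit 11) (nat_lit 0) (.cons (.ev (nat_lit 79537647542532708210971836416) (nat_lit 1)) .nil)) .nil)) .nil))) (.cons (.br (nat_lit 9) (nat_lit 1) (.cons (.rf (nat_lit 1060) (nat_lit 14242959524133701664)) (.cons (.kr (nat_lit 4722366482869645213696) (nat_lit 309485009821345068724781056) (nat_lit 9) (nat_lit 0)) .nil))) .nil))) (.cons (.br (nat_lit 8) (nat_lit 1) (.cons (.br (nat_lit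 9) (nat_lit 1) (.cons (.br (nat_lit 9) (nat_lit 1) (.cons (.ev (nat_lit 1213648186380077620003073) (nat_lit 1)) .nil)) (.cons (.br (nat_lit 9) (nat_lit 1) (.cons (.ev (nat_lit 1213648186380077620003073) (nat_lit 1)) .nil)) .nil))) (.cons (.br (nat_lit 9) (nat_lit 1) (.cons (.rf (nat_lit 1061) (nat_lit 14242959524133701664)) (.cons (.br (nat_lit 9) (nat_lit 1) (.cons (.rf (nat_lit 1061) (nat_lit 14242959524133701664)) .nil)) .nil))) .nil))) .nil))),
 (.br (nat_lit 8) (nat_lit 1) (.cons (.br (nat_lit 9) (nat_lit 1) (.cons (.ev (nat_lit 1223130029288229993251330) (nat_lit 2)) (.cons (.kr (nat_lit 4722366482869645213696) (nat_lit 309485009821345068724781056) (nat_lit 9) (nat_lit 0)) .nil))) .nil)),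
 (.br (nat_lit 4) (nat_lit 0) (.cons (.rf (nat_lit 1062) (nat_lit 14242959524133701664)) (.cons (.br (nat_lit 8) (nat_lit 1) (.cons (.rf (nat_lit 1063) (nat_lit 14242959524133701664)) (.cons (.br (nat_lit 8) (nat_lit 1) (.cons (.rf (nat_lit 1063) (nat_lit 14242959524133701664)) .nil)) .nil))) .nil))),
 (.br (nat_lit 8) (nat_lit 1) (.cons (.br (nat_lit 9) (nat_lit 1) (.cons (.kr (nat_lit 18446744073709551616) (nat_lit 1208925819614629174706176) (nat_lit 8) (nat_lit 0)) (.cons (.rf (nat_lit 642) (nat_lit 443857768967933984)) .nil))) (.cons (.rf (nat_lit 623) (nat_lit 13125997581673007136)) .nil))),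
 (.br (nat_lit 10) (nat_lit 0) (.cons (.ev (nat_lit 1213666705181741055738113) (nat_lit 1)) (.cons (.br (nat_lit 11) (nat_lit 0) (.cons (.ev (nat_lit 309485009893402662762709249) (nat_lit 1)) (.cons (.ev (nat_lit 79538861190718525338604798208) (nat_lit 1)) .nil))) .nil))),
 (.br (nat_lit 4) (nat_lit 0) (.cons (.rf (nat_lit 1065) (nat_lit 445056165777344544)) (.cons (.br (nat_lit 8) (nat_lit 1) (.cons (.br (nat_lit 9) (nat_lit 1) (.cons (.br (nat_lit 9) (nat_lit 1) (.cons (.rf (nat_lit 1066) (nat_lit 14242959524133701664)) .nil)) (.cons (.br (nat_lit 9) (nat_lit 1) (.cons (.rf (nat_lit 1066) (nat_lit 14242959524133701664)) .nil)) .nil))) (.cons (.rf (nat_lit 625) (nat_lit 444986930904533024)) .nil))) .nil))),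
 (.br (nat_lit 10) (nat_lit 0) (.cons (.ev (nat_lit 1213648186097498819985409) (nat_lit 1)) .nil)),
 (.br (nat_lit 9) (nat_lit 1) (.cons (.br (nat_lit 8) (nat_lit 1) (.cons (.rf (nat_lit 1068) (nat_lit 14242959524133701664)) (.cons (.br (nat_lit 8) (nat_lit 1) (.cons (.rf (nat_lit 1068) (nat_lit 14242959524133701664)) .nil)) .nil))) (.cons (.rf (nat_lit 625) (nat_lit 444985865752643616)) .nil))),
 (.br (nat_lit 9) (nat_lit 1) (.cons (.rf (nat_lit 865) (nat_lit 372962356573113376)) (.cons (.rf (nat_lit 922) (nat_lit 14207951008473057408)) .nil))),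
 (.br (nat_lit 9) (nat_lit 1) (.cons (.br (nat_lit 10) (nat_lit 0) (.cons (.br (nat_lit 11) (nat_lit 0) (.cons (.kr (nat_lit 1208925819614633469673728) (nat_lit 309485009821345068741623808) (nat_lit 1) (nat_lit 0)) .nil)) .nil)) .nil)),
 (.br (nat_lit 9) (nat_lit 1) (.cons (.rf (nat_lit 1071) (nat_lit 14242959524133701664)) (.cons (.br (nat_lit 9) (nat_lit 1) (.cons (.rf (nat_lit 1071) (nat_lit 14242959524133701664)) .nil)) .nil))),
 (.br (nat_lit 4) (nat_lit 0) (.cons (.rf (nat_lit 975) (nat_lit 407832233976631328)) (.cons (.rf (nat_lit 1072) (nat_lit 14242959524133701664)) .nil))),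
 (.br (nat_lit 9) (nat_lit 1) (.cons (.rf (nat_lit 437) (nat_lit 407899271975732320)) (.cons (.br (nat_lit 10) (nat_lit 0) (.cons (.br (nat_lit 11) (nat_lit 0) (.cons (.kr (nat_lit 1208925819614633469673728) (nat_lit 309485009821345068741623808) (nat_lit 1) (nat_lit 0)) .nil)) .nil)) .nil))),
 (.br (nat_lit 4) (nat_lit 0) (.cons (.rf (nat_lit 975) (nat_lit 407832233976631328)) (.cons (.br (nat_lit 8) (nat_lit 1) (.cons (.rf (nat_lit 1074) (nat_lit 14242959524133701664)) (.cons (.br (nat_lit 9) (nat_lit 1) (.cons (.br (nat_lit 10) (nat_lit 0) (.cons (.br (nat_lit 11) (nat_lit 0) (.cons (.ev (nat_lit 158458747657947241184042877440) (nat_lit 2)) .nil)) .nil)) (.cons (.rf (nat_lit 393) (nat_lit 444986930902469664)) .nil))) .nil))) .nil))),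
 (.br (nat_lit 4) (nat_lit 0) (.cons (.rf (nat_lit 975) (nat_lit 407832233976631328)) (.cons (.rf (nat_lit 625) (nat_lit 445022080914788384)) .nil)))]

theorem c27 : chkAll C T R L27 (nat_lit 1028) = true := by decide +kernel

theorem l27 : (nat_lit 1028) + L27.length = (nat_lit 1077) := by decide +kernel

/-- part of the certificates -/
def L28 : List Prf := [(.br (nat_lit 4) (nat_lit 0) (.cons (.rf (nat_lit 975) (nat_lit 407832233976631328)) (.cons (.br (nat_lit 8) (nat_lit 1) (.cons (.br (nat_lit 11) (nat_lit 0) (.cons (.rf (nat_lit 437) (nat_lit 372998571739384864)) (.cons (.ev (nat_lit 309485028340147836000731393) (nat_lit 1)) .nil))) (.cons (.rf (nat_lit 393) (nat_lit 445055100625423392)) .nil))) .nil))),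
 (.br (nat_lit 8) (nat_lit 1) (.cons (.br (nat_lit 10) (nat_lit 0) (.cons (.br (nat_lit 11) (nat_lit 0) (.cons (.kr (nat_lit 1208925819614633469673728) (nat_lit 309485009821345068741623808) (nat_lit 1) (nat_lit 0)) .nil)) .nil)) .nil)),
 (.br (nat_lit 8) (nat_lit 1) (.cons (.rf (nat_lit 1078) (nat_lit 14242959524133701664)) (.cons (.br (nat_lit 8) (nat_lit 1) (.cons (.rf (nat_lit 1078) (nat_lit 14242959524133701664)) .nil)) .nil))),
 (.br (nat_lit 9) (nat_lit 1) (.cons (.rf (nat_lit 1079) (nat_lit 14242959524133701664)) (.cons (.rf (nat_lit 605) (nat_lit 445019950613104672)) .nil))),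
 (.br (nat_lit 4) (nat_lit 0) (.cons (.rf (nat_lit 1021) (nat_lit 14242922139795720288)) (.cons (.br (nat_lit 9) (nat_lit 1) (.cons (.rf (nat_lit 1074) (nat_lit 14242925439273240608)) (.cons (.br (nat_lit 8) (nat_lit 1) (.cons (.br (nat_lit 10) (nat_lit 0) (.cons (.br (nat_lit 11) (nat_lit 0) (.cons (.ev (nat_lit 317230607103030553950170842368) (nat_lit 3)) .nil)) .nil)) (.cons (.kr (nat_lit 18446744073709551616) (nat_lit 309485009821345068724781056) (nat_lit 8) (nat_lit 0)) .nil))) .nil))) .nil))),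
 (.br (nat_lit 4) (nat_lit 0) (.cons (.rf (nat_lit 1021) (nat_lit 14242922139795720288)) (.cons (.rf (nat_lit 1072) (nat_lit 14242925439273240608)) .nil))),
 (.br (nat_lit 10) (nat_lit 0) (.cons (.ev (nat_lit 1213666705180641544110081) (nat_lit 1)) (.cons (.br (nat_lit 11) (nat_lit 0) (.cons (.ev (nat_lit 309489750634854590862917633) (nat_lit 1)) (.cons (.ev (nat_lit 79538856449977637459969769728) (nat_lit 1)) .nil))) .nil))),
 (.br (nat_lit 4) (nat_lit 0) (.cons (.br (nat_lit 8) (nat_lit 1) (.cons (.ev (nat_lit 4740813509522154848513) (nat_lit 1)) (.cons (.ev (nat_lit 4740885566016664371201) (nat_lit 1)) .nil))) (.cons (.br (nat_lit 9) (nat_lit 1) (.cons (.br (nat_lit 8) (nat_lit 1) (.cons (.rf (nat_lit 1083) (nat_lit 14242959524133701664)) (.cons (.rf (nat_lit 437) (nat_lit 372964486878923808)) .nil))) (.cons (.rf (nat_lit 393) (nat_lit 445019950613072928)) .nil))) .nil))),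
 (.br (nat_lit 9) (nat_lit 1) (.cons (.br (nat_lit 10) (nat_lit 0) (.cons (.br (nat_lit 11) (nat_lit 0) (.cons (.ev (nat_lit 158771854778417355581030728450) (nat_lit 3)) .nil)) .nil)) .nil)),
 (.br (nat_lit 8) (nat_lit 1) (.cons (.br (nat_lit 9) (nat_lit 0) (.cons (.br (nat_lit 12) (nat_lit 1) (.cons (.kr (nat_lit 4722366482873940181248) (nat_lit 1208925819614629191548928) (nat_lit 1) (nat_lit 0)) .nil)) .nil)) .nil)),
 (.br (nat_lit 8) (nat_lit 1) (.cons (.rf (nat_lit 1086) (nat_lit 407901468851537952)) (.cons (.br (nat_lit 8) (nat_lit 1) (.cons (.rf (nat_lit 1086) (nat_lit 407901468851537952)) .nil)) .nil))),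
 (.br (nat_lit 9) (nat_lit 1) (.cons (.br (nat_lit 10) (nat_lit 0) (.cons (.br (nat_lit 11) (nat_lit 0) (.cons (.kr (nat_lit 310693935640959702194454784) (nat_lit 36893488147435945984) (nat_lit 1) (nat_lit 0)) .nil)) .nil)) (.cons (.kr (nat_lit 18446744073709551616) (nat_lit 309485009821345068724781056) (nat_lit 8) (nat_lit 0)) .nil))),
 (.br (nat_lit 11) (nat_lit 0) (.cons (.ev (nat_lit 18519084242235818241) (nat_lit 1)) (.cons (.ev (nat_lit 79229376162450716571635548416) (nat_lit 1)) .nil))),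
 (.br (nat_lit 11) (nat_lit 0) (.cons (.rf (nat_lit 957) (nat_lit 362791874117800288)) (.cons (.kr (nat_lit 18446744073709551616) (nat_lit 309485009821345068724781056) (nat_lit 8) (nat_lit 0)) (.cons (.rf (nat_lit 957) (nat_lit 361665974210990444)) .nil)))),
 (.br (nat_lit 4) (nat_lit 0) (.cons (.br (nat_lit 8) (nat_lit 1) (.cons (.br (nat_lit 9) (nat_lit 1) (.cons (.rf (nat_lit 440) (nat_lit 372929336864541728)) (.cons (.br (nat_lit 10) (nat_lit 0) (.cons (.br (nat_lit 11) (nat_lit 0) (.cons (.ev (nat_lit 79229376162450716571635548416) (nat_lit 1)) .nil)) .nil)) .nil))) (.cons (.rf (nat_lit 1088) (nat_lit 14242959524133701664)) .nil))) (.cons (.br (nat_lit 8) (nat_lit 1) (.cons (.br (nat_lit 9) (nat_lit 1) (.cons (.br (nat_lit 9) (nat_lit 1) (.cons (.rf (nat_lit 1089) (nat_lit 14242959524133701664)) .nil)) (.cons (.br (nat_lit 9) (nat_lit 1) (.cons (.rf (nat_lit 1089) (nat_lit 14242959524133701664)) .nil)) .nil))) (.cons (.rf (nat_lit 1090) (nat_lit 14242959524133701664))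 .nil))) .nil))),
 (.br (nat_lit 10) (nat_lit 0) (.cons (.kr (nat_lit 1208925819614633469673728) (nat_lit 309485009821345068741623808) (nat_lit 1) (nat_lit 0)) .nil)),
 (.br (nat_lit 8) (nat_lit 1) (.cons (.br (nat_lit 9) (nat_lit 1) (.cons (.br (nat_lit 11) (nat_lit 0) (.cons (.kr (nat_lit 309485009893402662762708993) (nat_lit 79228167236630820463189164288) (nat_lit 0) (nat_lit 2)) .nil)) (.cons (.rf (nat_lit 1092) (nat_lit 14242959524133701664)) .nil))) .nil)),
 (.br (nat_lit 4) (nat_lit 0) (.cons (.rf (nat_lit 1091) (nat_lit 14242959524133701664)) (.cons (.br (nat_lit 8) (nat_lit 1) (.cons (.rf (nat_lit 1093) (nat_lit 14242959524133701664)) (.cons (.br (nat_lit 8) (nat_lit 1) (.cons (.rf (nat_lit 1093) (nat_lit 14242959524133701664)) .nil)) .nil))) .nil))),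
 (.br (nat_lit 10) (nat_lit 0) (.cons (.ev (nat_lit 1213648186097498819985409) (nat_lit 1)) .nil)),
 (.br (nat_lit 4) (nat_lit 0) (.cons (.br (nat_lit 8) (nat_lit 1) (.cons (.br (nat_lit 9) (nat_lit 1) (.cons (.rf (nat_lit 1095) (nat_lit 14242959524133701664)) (.cons (.ev (nat_lit 309489732259886636214517761) (nat_lit 1)) .nil))) (.cons (.rf (nat_lit 588) (nat_lit 445056165777344544)) .nil))) (.cons (.br (nat_lit 8) (nat_lit 1) (.cons (.br (nat_lit 11) (nat_lit 0) (.cons (.br (nat_lit 12) (nat_lit 1) (.cons (.ev (nat_lit 79537647542532427839784878336) (nat_lit 1)) .nil)) (.cons (.ev (nat_lit 79537647542604484334327955456) (nat_lit 1)) .nil))) (.cons (.rf (nat_lit 589) (nat_lit 445056165777344544)) .nil))) .nil))),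
 (.br (nat_lit 4) (nat_lit 0) (.cons (.rf (nat_lit 1096) (nat_lit 14242959524133701664)) (.cons (.br (nat_lit 9) (nat_lit 1) (.cons (.br (nat_lit 8) (nat_lit 1) (.cons (.rf (nat_lit 1095) (nat_lit 14242959524133701664)) (.cons (.ev (nat_lit 309489732187827942681739521) (nat_lit 1)) .nil))) (.cons (.rf (nat_lit 589) (nat_lit 445022080916883488)) .nil))) .nil))),
 (.br (nat_lit 2) (nat_lit 0) (.cons (.rf (nat_lit 957) (nat_lit 407900402659461152)) (.cons (.br (nat_lit 6) (nat_lit 1) (.cons (.rf (nat_lit 987) (nat_lit 407867383991076896)) (.cons (.ev (nat_lit 282574488403969) (nat_lit 1)) (.cons (.br (nat_lit 3) (nat_lit 0) (.cons (.rf (nat_lit 799) (nat_lit 407901435565507680)) (.cons (.rf (nat_lit 799) (nat_lit 407900337127621728)) (.cons (.br (nat_lit 7) (nat_lit 1) (.cons (.ev (nat_lit 72339069031481601) (nat_lit 1)) (.cons (.rf (nat_lit 992) (nat_lit 407867383991076896)) (.cons (.rf (nat_lit 993) (nat_lit 407867383991076896)) .nil)))) (.cons (.br (nat_lit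 7) (nat_lit 1) (.cons (.br (nat_lit 4) (nat_lit 0) (.cons (.rf (nat_lit 519) (nat_lit 443928000341345344)) (.cons (.rf (nat_lit 922) (nat_lit 14242925439273208864)) (.cons (.br (nat_lit 8) (nat_lit 1) (.cons (.ev (nat_lit 18519084242235818241) (nat_lit 1)) (.cons (.br (nat_lit 9) (nat_lit 1) (.cons (.rf (nat_lit 968) (nat_lit 14242959524133701664)) (.cons (.br (nat_lit 9) (nat_lit 1) (.cons (.rf (nat_lit 968) (nat_lit 14242959524133701664)) .nil)) .nil))) .nil))) .nil)))) (.cons (.br (nat_lit 4) (nat_lit 0) (.cons (.ev (nat_lit 18519084242235818241) (nat_lit 1)) (.cons (.rf (nat_lit 969) (nat_lit 14242959524133701664)) (.cons (.br (nat_lit 4) (nat_lit 0) (.cons (.ev (nat_lit 18519084242235818241) (nat_lit 1)) (.cons (.rf (nat_lit 969) (nat_lit 14242959524133701664)) .nil))) .nil)))) (.cons (.br (nat_lit 4) (nat_lit 0) (.cons (.rf (nat_lit 971) (nat_lit 14242959524133701664)) (.cons (.rf (nat_lit 973) (nat_lit 14242959524133701664)) (.cons (.br (nat_lit 4)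 (nat_lit 0) (.cons (.rf (nat_lit 971) (nat_lit 14242959524133701664)) (.cons (.rf (nat_lit 973) (nat_lit 14242959524133701664)) .nil))) .nil)))) .nil)))) .nil))))) (.cons (.br (nat_lit 3) (nat_lit 0) (.cons (.rf (nat_lit 975) (nat_lit 407901468851537952)) (.cons (.rf (nat_lit 975) (nat_lit 407900403699648544)) (.cons (.br (nat_lit 7) (nat_lit 1) (.cons (.br (nat_lit 4) (nat_lit 0) (.cons (.rf (nat_lit 959) (nat_lit 372996306210260032)) (.cons (.rf (nat_lit 974) (nat_lit 407865253685202976)) (.cons (.rf (nat_lit 1070) (nat_lit 14242925439271145504)) .nil)))) (.cons (.rf (nat_lit 977) (nat_lit 407901468851537952)) (.cons (.br (nat_lit 8) (nat_lit 1) (.cons (.ev (nat_lit 18519084242235818241) (nat_lit 1)) (.cons (.rf (nat_lit 642) (nat_lit 372996408149641248)) (.cons (.rf (nat_lit 967) (nat_lit 407901468851537952)) .nil)))) .nil)))) (.cons (.br (nat_lit 7) (nat_lit 1) (.cons (.br (nat_lit 8) (nat_lit 1) (.cons (.rf (nat_lit 519) (nat_lit 445053900248187968))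 (.cons (.rf (nat_lit 980) (nat_lit 14242959524133701664)) (.cons (.ev (nat_lit 18519084242235818241) (nat_lit 1)) .nil)))) (.cons (.br (nat_lit 4) (nat_lit 0) (.cons (.rf (nat_lit 980) (nat_lit 14242958458981812256)) (.cons (.rf (nat_lit 983) (nat_lit 14242959524133701664)) (.cons (.br (nat_lit 4) (nat_lit 0) (.cons (.rf (nat_lit 979) (nat_lit 14242958458981812256)) (.cons (.rf (nat_lit 983) (nat_lit 14242959524133701664)) .nil))) .nil)))) (.cons (.br (nat_lit 4) (nat_lit 0) (.cons (.ev (nat_lit 18519084242235818241) (nat_lit 1)) (.cons (.rf (nat_lit 985) (nat_lit 14242959524133701664)) (.cons (.br (nat_lit 4) (nat_lit 0) (.cons (.ev (nat_lit 18519084242235818241) (nat_lit 1)) (.cons (.rf (nat_lit 985) (nat_lit 14242959524133701664)) .nil))) .nil)))) .nil)))) .nil))))) .nil))))) (.cons (.br (nat_lit 6) (nat_lit 1) (.cons (.rf (nat_lit 987) (nat_lit 407901468851537952)) (.cons (.rf (nat_lit 991) (nat_lit 407901468851537952)) (.cons (.rf (nat_lit 1000) (nat_lit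 407901468851537952)) (.cons (.br (nat_lit 3) (nat_lit 0) (.cons (.rf (nat_lit 975) (nat_lit 407867383991076896)) (.cons (.br (nat_lit 7) (nat_lit 1) (.cons (.br (nat_lit 9) (nat_lit 1) (.cons (.rf (nat_lit 987) (nat_lit 372892953190990912)) (.cons (.rf (nat_lit 865) (nat_lit 372962356575144992)) (.cons (.rf (nat_lit 1001) (nat_lit 407831168826837024)) .nil)))) (.cons (.rf (nat_lit 977) (nat_lit 407867383991076896)) (.cons (.rf (nat_lit 1001) (nat_lit 407901468851537952)) .nil)))) (.cons (.br (nat_lit 7) (nat_lit 1) (.cons (.rf (nat_lit 991) (nat_lit 372892953190990912)) (.cons (.rf (nat_lit 341) (nat_lit 12743590119801952)) (.cons (.rf (nat_lit 353) (nat_lit 11652874585048160)) .nil)))) (.cons (.br (nat_lit 7) (nat_lit 1) (.cons (.rf (nat_lit 1002) (nat_lit 14242959524133701664)) (.cons (.br (nat_lit 4) (nat_lit 0) (.cons (.rf (nat_lit 1003) (nat_lit 14242959524133701664)) (.cons (.rf (nat_lit 980) (nat_lit 14242923308969461792)) (.cons (.br (nat_lit 4)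 (nat_lit 0) (.cons (.rf (nat_lit 1003) (nat_lit 14242959524133701664)) (.cons (.rf (nat_lit 979) (nat_lit 14242923308969461792)) .nil))) .nil)))) (.cons (.br (nat_lit 4) (nat_lit 0) (.cons (.rf (nat_lit 1004) (nat_lit 14242959524133701664)) (.cons (.rf (nat_lit 1005) (nat_lit 14242959524133701664)) (.cons (.br (nat_lit 4) (nat_lit 0) (.cons (.rf (nat_lit 1004) (nat_lit 14242959524133701664)) (.cons (.rf (nat_lit 582) (nat_lit 445019950611009568)) .nil))) .nil)))) .nil)))) .nil))))) .nil))))) (.cons (.br (nat_lit 6) (nat_lit 1) (.cons (.br (nat_lit 7) (nat_lit 1) (.cons (.rf (nat_lit 1008) (nat_lit 14242959524133701664)) (.cons (.br (nat_lit 4) (nat_lit 0) (.cons (.rf (nat_lit 1011) (nat_lit 14242959524133701664)) (.cons (.rf (nat_lit 1012) (nat_lit 14242959524133701664)) (.cons (.br (nat_lit 4) (nat_lit 0) (.cons (.rf (nat_lit 1011) (nat_lit 14242959524133701664)) (.cons (.rf (nat_lit 1012) (nat_lit 14242959524133701664)) .nil))) .nil)))) (.cons (.br (nat_lit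 4) (nat_lit 0) (.cons (.rf (nat_lit 1014) (nat_lit 14242959524133701664)) (.cons (.rf (nat_lit 1016) (nat_lit 14242959524133701664)) (.cons (.br (nat_lit 4) (nat_lit 0) (.cons (.rf (nat_lit 1014) (nat_lit 14242959524133701664)) (.cons (.rf (nat_lit 1016) (nat_lit 14242959524133701664)) .nil))) .nil)))) .nil)))) (.cons (.br (nat_lit 3) (nat_lit 0) (.cons (.br (nat_lit 4) (nat_lit 0) (.cons (.rf (nat_lit 797) (nat_lit 13836501454556192)) (.cons (.rf (nat_lit 797) (nat_lit 13802416594095136)) (.cons (.br (nat_lit 8) (nat_lit 1) (.cons (.rf (nat_lit 1018) (nat_lit 14242959524133701664)) (.cons (.br (nat_lit 8) (nat_lit 1) (.cons (.rf (nat_lit 1018) (nat_lit 14242959524133701664)) .nil)) .nil))) .nil)))) (.cons (.br (nat_lit 7) (nat_lit 1) (.cons (.rf (nat_lit 797) (nat_lit 13836500414337056)) (.cons (.br (nat_lit 4) (nat_lit 0) (.cons (.rf (nat_lit 824) (nat_lit 13836501454556192)) (.cons (.br (nat_lit 8) (nat_lit 1) (.cons (.rf (nat_lit 1023) (nat_lit 14208056625980377120))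 (.cons (.rf (nat_lit 852) (nat_lit 407900402657366048)) .nil))) (.cons (.br (nat_lit 8) (nat_lit 1) (.cons (.rf (nat_lit 625) (nat_lit 443825814411186272)) (.cons (.br (nat_lit 9) (nat_lit 1) (.cons (.rf (nat_lit 1019) (nat_lit 14242959524133701664)) (.cons (.br (nat_lit 9) (nat_lit 1) (.cons (.rf (nat_lit 1019) (nat_lit 14242959524133701664)) .nil)) .nil))) .nil))) .nil)))) (.cons (.br (nat_lit 4) (nat_lit 0) (.cons (.rf (nat_lit 824) (nat_lit 13836501454556192)) (.cons (.ev (nat_lit 72058697844523009) (nat_lit 1)) (.cons (.br (nat_lit 8) (nat_lit 1) (.cons (.br (nat_lit 9) (nat_lit 1) (.cons (.br (nat_lit 9) (nat_lit 1) (.cons (.rf (nat_lit 1020) (nat_lit 14242959524133701664)) .nil)) (.cons (.br (nat_lit 9) (nat_lit 1) (.cons (.rf (nat_lit 1020) (nat_lit 14242959524133701664)) .nil)) .nil))) (.cons (.rf (nat_lit 625) (nat_lit 444951714318028896)) .nil))) .nil)))) .nil)))) (.cons (.br (nat_lit 7) (nat_lit 1) (.cons (.rf (nat_lit 797) (nat_lit 13802415553876000))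 (.cons (.br (nat_lit 4) (nat_lit 0) (.cons (.br (nat_lit 8) (nat_lit 1) (.cons (.rf (nat_lit 852) (nat_lit 372997506585463840)) (.cons (.rf (nat_lit 1021) (nat_lit 14242959524133701664)) .nil))) (.cons (.rf (nat_lit 361) (nat_lit 443930265868438560)) (.cons (.br (nat_lit 9) (nat_lit 1) (.cons (.rf (nat_lit 625) (nat_lit 443824715973300320)) (.cons (.br (nat_lit 8) (nat_lit 1) (.cons (.rf (nat_lit 1022) (nat_lit 14242959524133701664)) (.cons (.br (nat_lit 8) (nat_lit 1) (.cons (.rf (nat_lit 1022) (nat_lit 14242959524133701664)) .nil)) .nil))) .nil))) .nil)))) (.cons (.br (nat_lit 4) (nat_lit 0) (.cons (.br (nat_lit 8) (nat_lit 1) (.cons (.rf (nat_lit 852) (nat_lit 372997506585463840)) (.cons (.rf (nat_lit 1023) (nat_lit 14242959524133701664)) .nil))) (.cons (.ev (nat_lit 72058697844523009) (nat_lit 1)) (.cons (.br (nat_lit 9) (nat_lit 1) (.cons (.br (nat_lit 8) (nat_lit 1) (.cons (.rf (nat_lit 1024) (nat_lit 14242959524133701664)) (.cons (.br (nat_lit 8)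 (nat_lit 1) (.cons (.rf (nat_lit 1024) (nat_lit 14242959524133701664)) .nil)) .nil))) (.cons (.rf (nat_lit 625) (nat_lit 444950615880142944)) .nil))) .nil)))) .nil)))) (.cons (.br (nat_lit 7) (nat_lit 1) (.cons (.br (nat_lit 8) (nat_lit 1) (.cons (.rf (nat_lit 1026) (nat_lit 14242959524133701664)) (.cons (.br (nat_lit 8) (nat_lit 1) (.cons (.rf (nat_lit 1026) (nat_lit 14242959524133701664)) .nil)) .nil))) (.cons (.br (nat_lit 4) (nat_lit 0) (.cons (.rf (nat_lit 1028) (nat_lit 14242959524133701664)) (.cons (.br (nat_lit 9) (nat_lit 1) (.cons (.rf (nat_lit 625) (nat_lit 443789531634764928)) (.cons (.br (nat_lit 8) (nat_lit 1) (.cons (.rf (nat_lit 1029) (nat_lit 14242959524133701664)) (.cons (.br (nat_lit 8) (nat_lit 1) (.cons (.rf (nat_lit 1029) (nat_lit 14242959524133701664)) .nil)) .nil))) .nil))) (.cons (.br (nat_lit 8) (nat_lit 1) (.cons (.rf (nat_lit 1031) (nat_lit 14242959524133701664)) (.cons (.br (nat_lit 8) (nat_lit 1) (.cons (.rf (nat_lit 1031) (nat_lit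 14242959524133701664)) .nil)) .nil))) .nil)))) (.cons (.br (nat_lit 4) (nat_lit 0) (.cons (.br (nat_lit 8) (nat_lit 1) (.cons (.br (nat_lit 9) (nat_lit 1) (.cons (.rf (nat_lit 1032) (nat_lit 14242959524133701664)) (.cons (.br (nat_lit 9) (nat_lit 1) (.cons (.rf (nat_lit 1032) (nat_lit 14242959524133701664)) .nil)) .nil))) (.cons (.rf (nat_lit 625) (nat_lit 444916529979493504)) .nil))) (.cons (.ev (nat_lit 72058697844523009) (nat_lit 1)) (.cons (.br (nat_lit 8) (nat_lit 1) (.cons (.rf (nat_lit 1034) (nat_lit 14242959524133701664)) (.cons (.br (nat_lit 8) (nat_lit 1) (.cons (.rf (nat_lit 1034) (nat_lit 14242959524133701664)) .nil)) .nil))) .nil)))) .nil)))) .nil))))) (.cons (.br (nat_lit 3) (nat_lit 0) (.cons (.br (nat_lit 4) (nat_lit 0) (.cons (.rf (nat_lit 1036) (nat_lit 14242959524133701664)) (.cons (.rf (nat_lit 1038) (nat_lit 14242959524133701664)) (.cons (.br (nat_lit 4) (nat_lit 0) (.cons (.rf (nat_lit 1036) (nat_lit 14242959524133701664)) (.cons (.rf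 (nat_lit 1038) (nat_lit 14242959524133701664)) .nil))) .nil)))) (.cons (.br (nat_lit 7) (nat_lit 1) (.cons (.br (nat_lit 4) (nat_lit 0) (.cons (.rf (nat_lit 338) (nat_lit 443928068992664672)) (.cons (.rf (nat_lit 866) (nat_lit 14242925439273208864)) (.cons (.br (nat_lit 8) (nat_lit 1) (.cons (.rf (nat_lit 605) (nat_lit 443929200718612512)) (.cons (.br (nat_lit 9) (nat_lit 1) (.cons (.rf (nat_lit 1039) (nat_lit 14242959524133701664)) (.cons (.br (nat_lit 9) (nat_lit 1) (.cons (.rf (nat_lit 1039) (nat_lit 14242959524133701664)) .nil)) .nil))) .nil))) .nil)))) (.cons (.br (nat_lit 4) (nat_lit 0) (.cons (.rf (nat_lit 1040) (nat_lit 14242959524133701664)) (.cons (.rf (nat_lit 1042) (nat_lit 14242959524133701664)) (.cons (.br (nat_lit 4) (nat_lit 0) (.cons (.rf (nat_lit 625) (nat_lit 443896181007945760)) (.cons (.rf (nat_lit 1042) (nat_lit 14242959524133701664)) .nil))) .nil)))) (.cons (.br (nat_lit 4) (nat_lit 0) (.cons (.rf (nat_lit 1044) (nat_lit 14242959524133701664))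 (.cons (.rf (nat_lit 1046) (nat_lit 14242959524133701664)) (.cons (.br (nat_lit 4) (nat_lit 0) (.cons (.rf (nat_lit 1044) (nat_lit 14242959524133701664)) (.cons (.rf (nat_lit 1046) (nat_lit 14242959524133701664)) .nil))) .nil)))) .nil)))) (.cons (.br (nat_lit 7) (nat_lit 1) (.cons (.br (nat_lit 4) (nat_lit 0) (.cons (.rf (nat_lit 866) (nat_lit 14242959524133669920)) (.cons (.rf (nat_lit 797) (nat_lit 13799117119590496)) (.cons (.br (nat_lit 9) (nat_lit 1) (.cons (.rf (nat_lit 605) (nat_lit 443894050706262048)) (.cons (.br (nat_lit 8) (nat_lit 1) (.cons (.rf (nat_lit 1047) (nat_lit 14242959524133701664)) (.cons (.br (nat_lit 8) (nat_lit 1) (.cons (.rf (nat_lit 1047) (nat_lit 14242959524133701664)) .nil)) .nil))) .nil))) .nil)))) (.cons (.br (nat_lit 4) (nat_lit 0) (.cons (.rf (nat_lit 1048) (nat_lit 14242959524133701664)) (.cons (.rf (nat_lit 1040) (nat_lit 14242925439273240608)) (.cons (.br (nat_lit 4) (nat_lit 0) (.cons (.rf (nat_lit 1048) (nat_lit 14242959524133701664))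 (.cons (.rf (nat_lit 625) (nat_lit 443930265868406816)) .nil))) .nil)))) (.cons (.br (nat_lit 4) (nat_lit 0) (.cons (.rf (nat_lit 1049) (nat_lit 14242959524133701664)) (.cons (.rf (nat_lit 1051) (nat_lit 14242959524133701664)) (.cons (.br (nat_lit 4) (nat_lit 0) (.cons (.rf (nat_lit 1049) (nat_lit 14242959524133701664)) (.cons (.rf (nat_lit 1051) (nat_lit 14242959524133701664)) .nil))) .nil)))) .nil)))) (.cons (.br (nat_lit 7) (nat_lit 1) (.cons (.br (nat_lit 4) (nat_lit 0) (.cons (.br (nat_lit 8) (nat_lit 1) (.cons (.rf (nat_lit 582) (nat_lit 443930265870501920)) (.cons (.br (nat_lit 9) (nat_lit 1) (.cons (.rf (nat_lit 1052) (nat_lit 14242959524133701664)) (.cons (.br (nat_lit 9) (nat_lit 1) (.cons (.rf (nat_lit 1052) (nat_lit 14242959524133701664)) .nil)) .nil))) .nil))) (.cons (.br (nat_lit 9) (nat_lit 1) (.cons (.rf (nat_lit 582) (nat_lit 443896181010040864)) (.cons (.br (nat_lit 11) (nat_lit 0) (.cons (.br (nat_lit 11) (nat_lit 0) (.cons (.rf (nat_lit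 189) (nat_lit 443680643578113152)) .nil)) (.cons (.rf (nat_lit 189) (nat_lit 443680643578113152)) .nil))) .nil))) (.cons (.br (nat_lit 12) (nat_lit 1) (.cons (.rf (nat_lit 1054) (nat_lit 14242959524133701664)) (.cons (.ev (nat_lit 79228162514264338697350545664) (nat_lit 1)) .nil))) .nil)))) (.cons (.br (nat_lit 4) (nat_lit 0) (.cons (.rf (nat_lit 1057) (nat_lit 14242959524133701664)) (.cons (.rf (nat_lit 1059) (nat_lit 14242959524133701664)) (.cons (.br (nat_lit 4) (nat_lit 0) (.cons (.rf (nat_lit 1057) (nat_lit 14242959524133701664)) (.cons (.rf (nat_lit 1059) (nat_lit 14242959524133701664)) .nil))) .nil)))) (.cons (.br (nat_lit 4) (nat_lit 0) (.cons (.rf (nat_lit 1062) (nat_lit 14242959524133701664)) (.cons (.rf (nat_lit 1064) (nat_lit 14242959524133701664)) (.cons (.br (nat_lit 4) (nat_lit 0) (.cons (.rf (nat_lit 1062) (nat_lit 14242959524133701664)) (.cons (.rf (nat_lit 1064) (nat_lit 14242959524133701664)) .nil))) .nil)))) .nil)))) .nil))))) (.cons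 (.br (nat_lit 3) (nat_lit 0) (.cons (.br (nat_lit 4) (nat_lit 0) (.cons (.rf (nat_lit 1067) (nat_lit 14242959524133701664)) (.cons (.br (nat_lit 4) (nat_lit 0) (.cons (.rf (nat_lit 1065) (nat_lit 445056165777344544)) (.cons (.rf (nat_lit 1069) (nat_lit 14242959524133701664)) .nil))) (.cons (.br (nat_lit 4) (nat_lit 0) (.cons (.rf (nat_lit 1067) (nat_lit 14242959524133701664)) (.cons (.rf (nat_lit 1069) (nat_lit 14242959524133701664)) .nil))) .nil)))) (.cons (.br (nat_lit 7) (nat_lit 1) (.cons (.br (nat_lit 4) (nat_lit 0) (.cons (.rf (nat_lit 338) (nat_lit 445053968899507296)) (.cons (.rf (nat_lit 1070) (nat_lit 14242959524133701664)) (.cons (.rf (nat_lit 1080) (nat_lit 14242925439273240608)) .nil)))) (.cons (.br (nat_lit 4) (nat_lit 0) (.cons (.rf (nat_lit 1073) (nat_lit 14242959524133701664)) (.cons (.rf (nat_lit 1075) (nat_lit 14242959524133701664)) (.cons (.br (nat_lit 4) (nat_lit 0) (.cons (.rf (nat_lit 1072) (nat_lit 14242959524133701664)) (.cons (.rf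 (nat_lit 1075) (nat_lit 14242959524133701664)) .nil))) .nil)))) (.cons (.br (nat_lit 4) (nat_lit 0) (.cons (.rf (nat_lit 1076) (nat_lit 14242959524133701664)) (.cons (.rf (nat_lit 1077) (nat_lit 14242959524133701664)) (.cons (.br (nat_lit 4) (nat_lit 0) (.cons (.rf (nat_lit 625) (nat_lit 445022080914788384)) (.cons (.rf (nat_lit 1077) (nat_lit 14242959524133701664)) .nil))) .nil)))) .nil)))) (.cons (.br (nat_lit 7) (nat_lit 1) (.cons (.br (nat_lit 4) (nat_lit 0) (.cons (.rf (nat_lit 1070) (nat_lit 14242925439273240608)) (.cons (.rf (nat_lit 797) (nat_lit 13799117119590496)) (.cons (.rf (nat_lit 1080) (nat_lit 14242959524133701664)) .nil)))) (.cons (.br (nat_lit 4) (nat_lit 0) (.cons (.rf (nat_lit 1081) (nat_lit 14242959524133701664)) (.cons (.rf (nat_lit 1082) (nat_lit 14242959524133701664)) (.cons (.br (nat_lit 4) (nat_lit 0) (.cons (.rf (nat_lit 1081) (nat_lit 14242959524133701664)) (.cons (.rf (nat_lit 1072) (nat_lit 14242925439273240608)) .nil))) .nil))))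 (.cons (.br (nat_lit 4) (nat_lit 0) (.cons (.rf (nat_lit 1084) (nat_lit 14242959524133701664)) (.cons (.br (nat_lit 4) (nat_lit 0) (.cons (.rf (nat_lit 1084) (nat_lit 14242959524133701664)) (.cons (.rf (nat_lit 625) (nat_lit 445056165775249440)) .nil))) (.cons (.br (nat_lit 4) (nat_lit 0) (.cons (.rf (nat_lit 1084) (nat_lit 14242959524133701664)) (.cons (.rf (nat_lit 625) (nat_lit 445056165775249440)) .nil))) .nil)))) .nil)))) (.cons (.br (nat_lit 7) (nat_lit 1) (.cons (.br (nat_lit 4) (nat_lit 0) (.cons (.br (nat_lit 8) (nat_lit 1) (.cons (.br (nat_lit 9) (nat_lit 1) (.cons (.rf (nat_lit 1085) (nat_lit 14242959524133701664)) (.cons (.br (nat_lit 9) (nat_lit 1) (.cons (.rf (nat_lit 1085) (nat_lit 14242959524133701664)) .nil)) .nil))) (.cons (.rf (nat_lit 582) (nat_lit 445056165777344544)) .nil))) (.cons (.br (nat_lit 9) (nat_lit 1) (.cons (.br (nat_lit 8) (nat_lit 1) (.cons (.rf (nat_lit 923) (nat_lit 14208056627019516960)) (.cons (.br (nat_lit 8) (nat_lit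 1) (.cons (.ev (nat_lit 4740885285641199288321) (nat_lit 1)) .nil)) .nil))) (.cons (.rf (nat_lit 582) (nat_lit 445022080916883488)) .nil))) (.cons (.br (nat_lit 12) (nat_lit 1) (.cons (.rf (nat_lit 1087) (nat_lit 445091350149433376)) (.cons (.ev (nat_lit 79228162514264338697350545664) (nat_lit 1)) .nil))) .nil)))) (.cons (.br (nat_lit 4) (nat_lit 0) (.cons (.rf (nat_lit 1091) (nat_lit 14242959524133701664)) (.cons (.rf (nat_lit 1094) (nat_lit 14242959524133701664)) (.cons (.br (nat_lit 4) (nat_lit 0) (.cons (.rf (nat_lit 1091) (nat_lit 14242959524133701664)) (.cons (.rf (nat_lit 1094) (nat_lit 14242959524133701664)) .nil))) .nil)))) (.cons (.br (nat_lit 4) (nat_lit 0) (.cons (.rf (nat_lit 1096) (nat_lit 14242959524133701664)) (.cons (.rf (nat_lit 1097) (nat_lit 14242959524133701664)) (.cons (.br (nat_lit 4) (nat_lit 0) (.cons (.rf (nat_lit 1096) (nat_lit 14242959524133701664)) (.cons (.rf (nat_lit 1097) (nat_lit 14242959524133701664)) .nil))) .nil)))) .nil))))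 .nil))))) .nil))))) .nil)))))]

theorem c28 : chkAll C T R L28 (nat_lit 1077) = true := by decide +kernel

theorem l28 : (nat_lit 1077) + L28.length = (nat_lit 1099) := by decide +kernel

end Pool.Agent.H93.Neg.Q13_6_0_0_5_2
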