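import Pool.Agent.H93.Neg.TabQ13_6_0_0_5_2

/-!
Certificates.
-/

set_option autoImplicit false
set_option maxRecDepth 100000
set_option linter.all false

namespace Pool.Agent.H93.Neg.Q13_6_0_0_5_2

/-- part of the certificates -/
def L29 : List Prf := [(.br (nat_lit 4) (nat_lit 0) (.cons (.rf (nat_lit 922) (nat_lit 14242923308969430048)) (.cons (.br (nat_lit 9) (nat_lit 1) (.cons (.rf (nat_lit 486) (nat_lit 374051974745754656)) (.cons (.ev (nat_lit 4740813226947666510081) (nat_lit 1)) .nil))) .nil))),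
 (.br (nat_lit 10) (nat_lit 0) (.cons (.kr (nat_lit 1099511627776) (nat_lit 1208925819614629174706176) (nat_lit 5) (nat_lit 0)) (.cons (.br (nat_lit 11) (nat_lit 0) (.cons (.ev (nat_lit 309489750634573111591239681) (nat_lit 1)) (.cons (.ev (nat_lit 79538861172344119234398322688) (nat_lit 1)) .nil))) .nil))),
 (.br (nat_lit 4) (nat_lit 0) (.cons (.rf (nat_lit 865) (nat_lit 372924872381206592)) (.cons (.br (nat_lit 9) (nat_lit 1) (.cons (.ev (nat_lit 4740813226947666510081) (nat_lit 1)) (.cons (.br (nat_lit 7) (nat_lit 1) (.cons (.rf (nat_lit 1100) (nat_lit 14242959524133701664)) (.cons (.rf (nat_lit 440) (nat_lit 407832233978694688)) .nil))) .nil))) .nil))),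
 (.br (nat_lit 7) (nat_lit 1) (.cons (.br (nat_lit 11) (nat_lit 0) (.cons (.rf (nat_lit 972) (nat_lit 14207913692790654016)) .nil)) .nil)),
 (.br (nat_lit 4) (nat_lit 0) (.cons (.rf (nat_lit 865) (nat_lit 372924872381206592)) (.cons (.br (nat_lit 7) (nat_lit 1) (.cons (.rf (nat_lit 1102) (nat_lit 14242959524133701664)) (.cons (.rf (nat_lit 1102) (nat_lit 14207913692790654016)) .nil))) .nil))),
 (.br (nat_lit 4) (nat_lit 0) (.cons (.rf (nat_lit 865) (nat_lit 407827769493327936)) (.cons (.br (nat_lit 9) (nat_lit 1) (.cons (.rf (nat_lit 981) (nat_lit 14242890289260890144)) (.cons (.ev (nat_lit 4740813226947666510081) (nat_lit 1)) .nil))) .nil))),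
 (.br (nat_lit 4) (nat_lit 0) (.cons (.rf (nat_lit 992) (nat_lit 372856702660379712)) (.cons (.br (nat_lit 9) (nat_lit 1) (.cons (.ev (nat_lit 4740813226947666510081) (nat_lit 1)) (.cons (.rf (nat_lit 486) (nat_lit 410080771764718624)) .nil))) .nil))),
 (.br (nat_lit 9) (nat_lit 1) (.cons (.br (nat_lit 10) (nat_lit 0) (.cons (.ev (nat_lit 1208925891954797700972801) (nat_lit 1)) (.cons (.ev (nat_lit 1213648186380077620003073) (nat_lit 1)) .nil))) .nil)),
 (.br (nat_lit 4) (nat_lit 0) (.cons (.rf (nat_lit 866) (nat_lit 14242890289260858400)) (.cons (.rf (nat_lit 605) (nat_lit 443930265870501920)) .nil))),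
 (.br (nat_lit 4) (nat_lit 0) (.cons (.br (nat_lit 9) (nat_lit 1) (.cons (.rf (nat_lit 393) (nat_lit 443896181007977504)) (.cons (.br (nat_lit 10) (nat_lit 0) (.cons (.br (nat_lit 11) (nat_lit 0) (.cons (.ev (nat_lit 79229371440156291296028327936) (nat_lit 1)) .nil)) .nil)) .nil))) .nil)),
 (.br (nat_lit 9) (nat_lit 1) (.cons (.br (nat_lit 10) (nat_lit 0) (.cons (.br (nat_lit 11) (nat_lit 0) (.cons (.ev (nat_lit 79228162514264619072815628544) (nat_lit 1)) .nil)) .nil)) .nil)),
 (.br (nat_lit 4) (nat_lit 0) (.cons (.rf (nat_lit 833) (nat_lit 407900403697585184)) (.cons (.br (nat_lit 9) (nat_lit 1) (.cons (.rf (nat_lit 1109) (nat_lit 14242959524133701664)) (.cons (.br (nat_lit 9) (nat_lit 1) (.cons (.rf (nat_lit 1109) (nat_lit 14242959524133701664)) .nil)) .nil))) .nil))),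
 (.br (nat_lit 11) (nat_lit 0) (.cons (.ev (nat_lit 1208944266358707179225089) (nat_lit 1)) (.cons (.ev (nat_lit 79229376180897461740561760256) (nat_lit 1)) .nil))),
 (.br (nat_lit 4) (nat_lit 0) (.cons (.rf (nat_lit 833) (nat_lit 407900403697585184)) (.cons (.br (nat_lit 8) (nat_lit 1) (.cons (.br (nat_lit 9) (nat_lit 1) (.cons (.rf (nat_lit 437) (nat_lit 407900403699616800)) (.cons (.br (nat_lit 10) (nat_lit 0) (.cons (.rf (nat_lit 1111) (nat_lit 14242959524133701664)) .nil)) .nil))) (.cons (.br (nat_lit 9) (nat_lit 1) (.cons (.br (nat_lit 10) (nat_lit 0) (.cons (.br (nat_lit 11) (nat_lit 0) (.cons (.ev (nat_lit 158771883001648683889023189250) (nat_lit 3)) .nil)) .nil)) (.cons (.kr (nat_lit 4722366482869645213696) (nat_lit 309485009821345068724781056) (nat_lit 9) (nat_lit 0)) .nil))) .nil))) .nil))),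
 (.br (nat_lit 9) (nat_lit 1) (.cons (.br (nat_lit 10) (nat_lit 0) (.cons (.rf (nat_lit 1090) (nat_lit 14232684556934260832)) .nil)) .nil)),
 (.br (nat_lit 4) (nat_lit 0) (.cons (.rf (nat_lit 888) (nat_lit 14242958389289191520)) (.cons (.br (nat_lit 7) (nat_lit 1) (.cons (.rf (nat_lit 625) (nat_lit 443896181010040864)) (.cons (.br (nat_lit 9) (nat_lit 1) (.cons (.rf (nat_lit 1113) (nat_lit 14242959524133701664)) (.cons (.br (nat_lit 9) (nat_lit 1) (.cons (.rf (nat_lit 1113) (nat_lit 14242959524133701664)) .nil)) .nil))) .nil))) .nil))),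
 (.br (nat_lit 7) (nat_lit 1) (.cons (.br (nat_lit 10) (nat_lit 0) (.cons (.rf (nat_lit 1041) (nat_lit 400019103311792172)) .nil)) .nil)),
 (.br (nat_lit 4) (nat_lit 0) (.cons (.rf (nat_lit 888) (nat_lit 14242958389289191520)) (.cons (.br (nat_lit 9) (nat_lit 1) (.cons (.rf (nat_lit 625) (nat_lit 443894050706262048)) (.cons (.br (nat_lit 7) (nat_lit 1) (.cons (.rf (nat_lit 1115) (nat_lit 14242959524133701664)) (.cons (.br (nat_lit 7) (nat_lit 1) (.cons (.rf (nat_lit 1115) (nat_lit 14242959524133701664)) .nil)) .nil))) .nil))) .nil))),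
 (.br (nat_lit 4) (nat_lit 0) (.cons (.rf (nat_lit 1023) (nat_lit 14207984092671248480)) (.cons (.br (nat_lit 9) (nat_lit 1) (.cons (.rf (nat_lit 393) (nat_lit 443859965845769248)) (.cons (.br (nat_lit 10) (nat_lit 0) (.cons (.ev (nat_lit 1213666632842676336132353) (nat_lit 1)) (.cons (.ev (nat_lit 1213648186097503131664641) (nat_lit 1)) .nil))) .nil))) .nil))),
 (.br (nat_lit 4) (nat_lit 0) (.cons (.rf (nat_lit 1021) (nat_lit 14207984092671248480)) (.cons (.br (nat_lit 7) (nat_lit 1) (.cons (.br (nat_lit 9) (nat_lit 1) (.cons (.ev (nat_lit 1208925891672223212634369) (nat_lit 1)) (.cons (.br (nat_lit 10) (nat_lit 0) (.cons (.br (nat_lit 11) (nat_lit 0) (.cons (.zr (nat_lit 6096575417615088122596352) (nat_lit 79228162661838580462997602305) (nat_lit 10) (nat_lit 7)) .nil)) .nil)) .nil))) (.cons (.rf (nat_lit 876) (nat_lit 14242959524133669920)) .nil))) .nil))),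
 (.br (nat_lit 7) (nat_lit 1) (.cons (.br (nat_lit 10) (nat_lit 0) (.cons (.rf (nat_lit 1045) (nat_lit 400019103311792172)) .nil)) .nil)),
 (.br (nat_lit 4) (nat_lit 0) (.cons (.rf (nat_lit 1021) (nat_lit 14207984092671248480)) (.cons (.br (nat_lit 7) (nat_lit 1) (.cons (.rf (nat_lit 1119) (nat_lit 14242959524133701664)) (.cons (.br (nat_lit 7) (nat_lit 1) (.cons (.rf (nat_lit 1119) (nat_lit 14242959524133701664)) .nil)) .nil))) .nil))),
 (.br (nat_lit 9) (nat_lit 1) (.cons (.ev (nat_lit 1208925891672223212634369) (nat_lit 1)) (.cons (.br (nat_lit 9) (nat_lit 1) (.cons (.ev (nat_lit 1208925891672223212634369) (nat_lit 1)) .nil)) .nil))),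
 (.br (nat_lit 9) (nat_lit 1) (.cons (.br (nat_lit 10) (nat_lit 0) (.cons (.br (nat_lit 11) (nat_lit 0) (.cons (.ev (nat_lit 79537652246452166635720540416) (nat_lit 1)) .nil)) .nil)) .nil)),
 (.br (nat_lit 7) (nat_lit 1) (.cons (.br (nat_lit 4) (nat_lit 0) (.cons (.rf (nat_lit 582) (nat_lit 443929200718612512)) (.cons (.br (nat_lit 8) (nat_lit 1) (.cons (.rf (nat_lit 588) (nat_lit 443929200718612512)) (.cons (.br (nat_lit 9) (nat_lit 1) (.cons (.ev (nat_lit 4740885285641199288321) (nat_lit 1)) (.cons (.br (nat_lit 10) (nat_lit 0) (.cons (.br (nat_lit 11) (nat_lit 0) (.cons (.ev (nat_lit 79228167236703159532220580096) (nat_lit 1)) .nil)) .nil)) .nil))) .nil))) (.cons (.rf (nat_lit 1121) (nat_lit 443930265870501920)) .nil)))) (.cons (.br (nat_lit 4) (nat_lit 0) (.cons (.br (nat_lit 9) (nat_lit 1) (.cons (.rf (nat_lit 1122) (nat_lit 14242959524133701664)) (.cons (.br (nat_lit 9) (nat_lit 1) (.cons (.rf (nat_lit 1122) (nat_lit 14242959524133701664)) .nil)) .nil)))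 (.cons (.br (nat_lit 8) (nat_lit 1) (.cons (.br (nat_lit 9) (nat_lit 1) (.cons (.ev (nat_lit 4740885285641199288321) (nat_lit 1)) (.cons (.br (nat_lit 10) (nat_lit 0) (.cons (.br (nat_lit 11) (nat_lit 0) (.cons (.zr (nat_lit 28334343012406031025408) (nat_lit 79230580384350593530156154881) (nat_lit 10) (nat_lit 5)) .nil)) .nil)) .nil))) (.cons (.br (nat_lit 9) (nat_lit 1) (.cons (.br (nat_lit 10) (nat_lit 0) (.cons (.br (nat_lit 11) (nat_lit 0) (.cons (.ev (nat_lit 79228167236703159532220580096) (nat_lit 1)) .nil)) .nil)) (.cons (.ev (nat_lit 4740885285641199288321) (nat_lit 1)) .nil))) .nil))) (.cons (.br (nat_lit 12) (nat_lit 1) (.cons (.br (nat_lit 8) (nat_lit 1) (.cons (.br (nat_lit 9) (nat_lit 1) (.cons (.rf (nat_lit 1111) (nat_lit 397694771231001932)) .nil)) (.cons (.br (nat_lit 10) (nat_lit 0) (.cons (.br (nat_lit 9) (nat_lit 1) (.cons (.ev (nat_lit 79228167236703159532220580096) (nat_lit 1)) .nil)) .nil)) .nil))) (.cons (.ev (nat_lit 79228162514264338697350545664)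 (nat_lit 1)) .nil))) .nil)))) .nil))),
 (.br (nat_lit 4) (nat_lit 0) (.cons (.br (nat_lit 9) (nat_lit 1) (.cons (.rf (nat_lit 558) (nat_lit 372996305170072640)) (.cons (.rf (nat_lit 999) (nat_lit 14207914758982665344)) .nil))) (.cons (.br (nat_lit 10) (nat_lit 0) (.cons (.br (nat_lit 9) (nat_lit 1) (.cons (.br (nat_lit 11) (nat_lit 0) (.cons (.zr (nat_lit 4796297578750689673216) (nat_lit 79236624995001921481333669889) (nat_lit 10) (nat_lit 5)) .nil)) .nil)) (.cons (.rf (nat_lit 1054) (nat_lit 14242958458981812256)) .nil))) .nil))),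
 (.br (nat_lit 4) (nat_lit 0) (.cons (.rf (nat_lit 1124) (nat_lit 14242959524133701664)) (.cons (.br (nat_lit 12) (nat_lit 1) (.cons (.ev (nat_lit 79229371440156291296028327936) (nat_lit 1)) (.cons (.br (nat_lit 9) (nat_lit 1) (.cons (.ev (nat_lit 79228167236703159532220580096) (nat_lit 1)) (.cons (.rf (nat_lit 957) (nat_lit 361630756586459500)) .nil))) .nil))) .nil))),
 (.br (nat_lit 7) (nat_lit 1) (.cons (.rf (nat_lit 1123) (nat_lit 14242959524133701664)) (.cons (.br (nat_lit 4) (nat_lit 0) (.cons (.rf (nat_lit 1124) (nat_lit 14242959524133701664)) (.cons (.rf (nat_lit 1125) (nat_lit 14242959524133701664)) (.cons (.br (nat_lit 4) (nat_lit 0) (.cons (.rf (nat_lit 1124) (nat_lit 14242959524133701664)) (.cons (.rf (nat_lit 1125) (nat_lit 14242959524133701664)) .nil))) .nil)))) .nil))),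
 (.br (nat_lit 8) (nat_lit 1) (.cons (.rf (nat_lit 338) (nat_lit 445054002185503840)) (.cons (.rf (nat_lit 1073) (nat_lit 14242958458981812256)) (.cons (.rf (nat_lit 1076) (nat_lit 14242958458981812256)) .nil)))),
 (.br (nat_lit 4) (nat_lit 0) (.cons (.rf (nat_lit 833) (nat_lit 372997506585463840)) (.cons (.rf (nat_lit 1079) (nat_lit 14242890289260890144)) .nil))),
 (.br (nat_lit 4) (nat_lit 0) (.cons (.rf (nat_lit 833) (nat_lit 372997506585463840)) (.cons (.br (nat_lit 8) (nat_lit 1) (.cons (.rf (nat_lit 1074) (nat_lit 14242958458981812256)) (.cons (.br (nat_lit 9) (nat_lit 1) (.cons (.rf (nat_lit 1095) (nat_lit 14242958458981812256)) (.cons (.ev (nat_lit 309489750634573115886207233) (nat_lit 1)) .nil))) .nil))) .nil))),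
 (.br (nat_lit 4) (nat_lit 0) (.cons (.rf (nat_lit 1070) (nat_lit 14242958458981812256)) (.cons (.br (nat_lit 8) (nat_lit 1) (.cons (.br (nat_lit 11) (nat_lit 0) (.cons (.ev (nat_lit 309485009893402662762709249) (nat_lit 1)) (.cons (.ev (nat_lit 309485028340147836000731393) (nat_lit 1)) .nil))) (.cons (.rf (nat_lit 393) (nat_lit 445056165777312800)) .nil))) .nil))),
 (.br (nat_lit 7) (nat_lit 1) (.cons (.rf (nat_lit 623) (nat_lit 14208022542161119264)) (.cons (.br (nat_lit 9) (nat_lit 1) (.cons (.rf (nat_lit 642) (nat_lit 372961258135195680)) (.cons (.rf (nat_lit 485) (nat_lit 11655140178265184)) .nil))) .nil))),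
 (.br (nat_lit 9) (nat_lit 1) (.cons (.br (nat_lit 10) (nat_lit 0) (.cons (.br (nat_lit 11) (nat_lit 0) (.cons (.ev (nat_lit 79537647524158021735578402816) (nat_lit 1)) .nil)) .nil)) .nil)),
 (.br (nat_lit 4) (nat_lit 0) (.cons (.rf (nat_lit 1131) (nat_lit 14242959524133701664)) (.cons (.br (nat_lit 7) (nat_lit 1) (.cons (.br (nat_lit 9) (nat_lit 1) (.cons (.rf (nat_lit 1132) (nat_lit 14242959524133701664)) (.cons (.br (nat_lit 9) (nat_lit 1) (.cons (.rf (nat_lit 1132) (nat_lit 14242959524133701664)) .nil)) .nil))) (.cons (.rf (nat_lit 625) (nat_lit 445022080916883488)) .nil))) .nil))),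
 (.br (nat_lit 4) (nat_lit 0) (.cons (.rf (nat_lit 1131) (nat_lit 14242959524133701664)) (.cons (.rf (nat_lit 1069) (nat_lit 14242958458981812256)) .nil))),
 (.br (nat_lit 9) (nat_lit 1) (.cons (.br (nat_lit 8) (nat_lit 1) (.cons (.rf (nat_lit 1074) (nat_lit 14242890289260890144)) (.cons (.rf (nat_lit 437) (nat_lit 372929336866573344)) .nil))) (.cons (.rf (nat_lit 393) (nat_lit 445019950611041312)) .nil))),
 (.br (nat_lit 4) (nat_lit 0) (.cons (.rf (nat_lit 922) (nat_lit 14207952105870755968)) (.cons (.rf (nat_lit 353) (nat_lit 11652874583016544)) (.cons (.rf (nat_lit 1135) (nat_lit 14242959524133701664)) .nil)))),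
 (.br (nat_lit 7) (nat_lit 1) (.cons (.br (nat_lit 4) (nat_lit 0) (.cons (.rf (nat_lit 865) (nat_lit 372998571737353248)) (.cons (.rf (nat_lit 341) (nat_lit 12743590117770336)) (.cons (.br (nat_lit 8) (nat_lit 1) (.cons (.br (nat_lit 9) (nat_lit 1) (.cons (.kr (nat_lit 4722366482869645213696) (nat_lit 1208925819614629174706176) (nat_lit 9) (nat_lit 0)) (.cons (.br (nat_lit 10) (nat_lit 0) (.cons (.br (nat_lit 11) (nat_lit 0) (.cons (.ev (nat_lit 79537647524158021735578402816) (nat_lit 1)) .nil)) .nil)) .nil))) (.cons (.br (nat_lit 9) (nat_lit 1) (.cons (.br (nat_lit 10) (nat_lit 0) (.cons (.br (nat_lit 11) (nat_lit 0) (.cons (.ev (nat_lit 79537652264899192180111835136) (nat_lit 1)) .nil)) .nil)) (.cons (.rf (nat_lit 393) (nat_lit 444985865752611872)) .nil))) .nil))) .nil)))) (.cons (.rf (nat_lit 1136) (nat_lit 14242959524133701664)) .nil))),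
 (.br (nat_lit 8) (nat_lit 1) (.cons (.rf (nat_lit 336) (nat_lit 407794750822910080)) (.cons (.rf (nat_lit 1082) (nat_lit 14242958458981812256)) (.cons (.rf (nat_lit 328) (nat_lit 407795914793586784)) .nil)))),
 (.br (nat_lit 7) (nat_lit 1) (.cons (.rf (nat_lit 1137) (nat_lit 14242959524133701664)) (.cons (.br (nat_lit 4) (nat_lit 0) (.cons (.br (nat_lit 4) (nat_lit 0) (.cons (.rf (nat_lit 336) (nat_lit 407794750822910080)) (.cons (.rf (nat_lit 1080) (nat_lit 14242958458981812256)) .nil))) (.cons (.rf (nat_lit 1138) (nat_lit 14242959524133701664)) (.cons (.br (nat_lit 4) (nat_lit 0) (.cons (.rf (nat_lit 1080) (nat_lit 14242958458981812256)) (.cons (.rf (nat_lit 1138) (nat_lit 14242959524133701664)) .nil))) .nil)))) .nil))),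
 (.br (nat_lit 9) (nat_lit 1) (.cons (.br (nat_lit 10) (nat_lit 0) (.cons (.br (nat_lit 11) (nat_lit 0) (.cons (.zr (nat_lit 28407985880109863469056) (nat_lit 79239042846713771283674302209) (nat_lit 10) (nat_lit 8)) .nil)) .nil)) .nil)),
 (.br (nat_lit 9) (nat_lit 1) (.cons (.rf (nat_lit 1092) (nat_lit 14242890289260890144)) .nil))]

theorem c29 : chkAll C T R L29 (nat_lit 1099) = true := by decide +kernel

theorem l29 : (nat_lit 1099) + L29.length = (nat_lit 1142) := by decide +kernel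

/-- part of the certificates -/
def L30 : List Prf := [(.br (nat_lit 8) (nat_lit 1) (.cons (.br (nat_lit 11) (nat_lit 0) (.cons (.rf (nat_lit 1141) (nat_lit 14242959524133701664)) (.cons (.ev (nat_lit 79228162514264338697350545664) (nat_lit 1)) .nil))) (.cons (.rf (nat_lit 589) (nat_lit 445055100625455136)) .nil))),
 (.br (nat_lit 7) (nat_lit 1) (.cons (.br (nat_lit 4) (nat_lit 0) (.cons (.br (nat_lit 9) (nat_lit 1) (.cons (.rf (nat_lit 1140) (nat_lit 14242959524133701664)) (.cons (.br (nat_lit 9) (nat_lit 1) (.cons (.rf (nat_lit 1140) (nat_lit 14242959524133701664)) .nil)) .nil))) (.cons (.br (nat_lit 8) (nat_lit 1) (.cons (.br (nat_lit 9) (nat_lit 1) (.cons (.rf (nat_lit 440) (nat_lit 372964486876892192)) (.cons (.ev (nat_lit 4740885285641199288321) (nat_lit 1)) .nil))) (.cons (.rf (nat_lit 927) (nat_lit 14208056627019516960)) .nil))) (.cons (.br (nat_lit 12) (nat_lit 1) (.cons (.br (nat_lit 9) (nat_lit 1) (.cons (.rf (nat_lit 1098) (nat_lit 48633780019268940))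 (.cons (.br (nat_lit 9) (nat_lit 1) (.cons (.ev (nat_lit 79228167236703159532220580096) (nat_lit 1)) .nil)) .nil))) (.cons (.ev (nat_lit 79228162514264338697350545664) (nat_lit 1)) .nil))) .nil)))) (.cons (.br (nat_lit 4) (nat_lit 0) (.cons (.rf (nat_lit 582) (nat_lit 445055100625455136)) (.cons (.rf (nat_lit 926) (nat_lit 445056165775281184)) (.cons (.rf (nat_lit 1142) (nat_lit 14242959524133701664)) .nil)))) .nil))),
 (.br (nat_lit 4) (nat_lit 0) (.cons (.br (nat_lit 11) (nat_lit 0) (.cons (.rf (nat_lit 1141) (nat_lit 14242889224109000736)) (.cons (.ev (nat_lit 79228162532711081671565312256) (nat_lit 1)) .nil))) .nil)),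
 (.br (nat_lit 4) (nat_lit 0) (.cons (.rf (nat_lit 1144) (nat_lit 14242959524133701664)) (.cons (.br (nat_lit 4) (nat_lit 0) (.cons (.rf (nat_lit 1144) (nat_lit 14242959524133701664)) .nil)) .nil))),
 (.br (nat_lit 7) (nat_lit 1) (.cons (.rf (nat_lit 1143) (nat_lit 14242959524133701664)) (.cons (.br (nat_lit 8) (nat_lit 1) (.cons (.br (nat_lit 4) (nat_lit 0) (.cons (.br (nat_lit 9) (nat_lit 1) (.cons (.br (nat_lit 10) (nat_lit 0) (.cons (.ev (nat_lit 1213648186097498819985409) (nat_lit 1)) .nil)) (.cons (.rf (nat_lit 558) (nat_lit 407899202282193984)) .nil))) (.cons (.br (nat_lit 12) (nat_lit 1) (.cons (.rf (nat_lit 1087) (nat_lit 445090284997543968)) (.cons (.ev (nat_lit 79537647542604484334327955456) (nat_lit 1)) .nil))) .nil))) (.cons (.rf (nat_lit 1145) (nat_lit 14242959524133701664)) (.cons (.ev (nat_lit 309485028340428211465814273) (nat_lit 1)) .nil)))) .nil))),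
 (.br (nat_lit 2) (nat_lit 0) (.cons (.rf (nat_lit 957) (nat_lit 407900402659461152)) (.cons (.rf (nat_lit 1098) (nat_lit 407901468851537952)) (.cons (.br (nat_lit 6) (nat_lit 1) (.cons (.rf (nat_lit 987) (nat_lit 407900403699648544)) (.cons (.rf (nat_lit 1098) (nat_lit 372997505546324000)) (.cons (.br (nat_lit 3) (nat_lit 0) (.cons (.br (nat_lit 8) (nat_lit 1) (.cons (.rf (nat_lit 1098) (nat_lit 372856703700567104)) (.cons (.rf (nat_lit 992) (nat_lit 407900403699648544)) (.cons (.rf (nat_lit 993) (nat_lit 407900403699648544)) .nil)))) (.cons (.rf (nat_lit 799) (nat_lit 407832167406699616)) (.cons (.rf (nat_lit 875) (nat_lit 407901468851506208)) (.cons (.br (nat_lit 8) (nat_lit 1) (.cons (.rf (nat_lit 1098) (nat_lit 372856703700567104)) (.cons (.br (nat_lit 4) (nat_lit 0) (.cons (.rf (nat_lit 1099) (nat_lit 14242959524133701664)) (.cons (.rf (nat_lit 925) (nat_lit 14242958458981780512)) (.cons (.br (nat_lit 4) (nat_lit 0) (.cons (.rf (nat_lit 1099) (nat_lit 14242959524133701664))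 (.cons (.rf (nat_lit 582) (nat_lit 443859965843705888)) .nil))) .nil)))) (.cons (.br (nat_lit 4) (nat_lit 0) (.cons (.rf (nat_lit 1101) (nat_lit 14242959524133701664)) (.cons (.rf (nat_lit 1103) (nat_lit 14242959524133701664)) (.cons (.br (nat_lit 4) (nat_lit 0) (.cons (.rf (nat_lit 1101) (nat_lit 14242959524133701664)) (.cons (.rf (nat_lit 1103) (nat_lit 14242959524133701664)) .nil))) .nil)))) .nil)))) .nil))))) (.cons (.br (nat_lit 8) (nat_lit 1) (.cons (.rf (nat_lit 975) (nat_lit 407832233978726432)) (.cons (.rf (nat_lit 1098) (nat_lit 372856703700567104)) (.cons (.br (nat_lit 3) (nat_lit 0) (.cons (.rf (nat_lit 977) (nat_lit 407832233978726432)) (.cons (.rf (nat_lit 341) (nat_lit 12743624479540320)) (.cons (.br (nat_lit 4) (nat_lit 0) (.cons (.rf (nat_lit 1104) (nat_lit 14242959524133701664)) (.cons (.rf (nat_lit 980) (nat_lit 14242889224109000736)) (.cons (.br (nat_lit 4) (nat_lit 0) (.cons (.rf (nat_lit 1104) (nat_lit 14242959524133701664)) (.cons (.rf (nat_lit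 979) (nat_lit 14242889224109000736)) .nil))) .nil)))) .nil)))) (.cons (.br (nat_lit 3) (nat_lit 0) (.cons (.rf (nat_lit 1001) (nat_lit 407900403699648544)) (.cons (.rf (nat_lit 353) (nat_lit 11652908944786528)) (.cons (.br (nat_lit 4) (nat_lit 0) (.cons (.rf (nat_lit 1105) (nat_lit 14242959524133701664)) (.cons (.rf (nat_lit 1005) (nat_lit 14242958458981812256)) (.cons (.br (nat_lit 4) (nat_lit 0) (.cons (.rf (nat_lit 1105) (nat_lit 14242959524133701664)) (.cons (.rf (nat_lit 582) (nat_lit 444985865750548512)) .nil))) .nil)))) .nil)))) .nil))))) .nil))))) (.cons (.br (nat_lit 6) (nat_lit 1) (.cons (.rf (nat_lit 1098) (nat_lit 407900402659461152)) (.cons (.rf (nat_lit 1098) (nat_lit 372997505546324000)) (.cons (.br (nat_lit 3) (nat_lit 0) (.cons (.br (nat_lit 7) (nat_lit 1) (.cons (.br (nat_lit 8) (nat_lit 1) (.cons (.rf (nat_lit 338) (nat_lit 443928102278661216)) (.cons (.rf (nat_lit 1040) (nat_lit 14242958458981812256)) (.cons (.br (nat_lit 4) (nat_lit 0) (.cons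 (.rf (nat_lit 1021) (nat_lit 14208054461348317280)) (.cons (.br (nat_lit 9) (nat_lit 1) (.cons (.rf (nat_lit 1106) (nat_lit 14242959524133701664)) (.cons (.br (nat_lit 9) (nat_lit 1) (.cons (.rf (nat_lit 1106) (nat_lit 14242959524133701664)) .nil)) .nil))) .nil))) .nil)))) (.cons (.br (nat_lit 8) (nat_lit 1) (.cons (.rf (nat_lit 1107) (nat_lit 14242959524133701664)) (.cons (.kr (nat_lit 1208925891672223212634368) (nat_lit 18446745173237956608) (nat_lit 1) (nat_lit 0)) (.cons (.br (nat_lit 4) (nat_lit 0) (.cons (.rf (nat_lit 1108) (nat_lit 14242959524133701664)) (.cons (.br (nat_lit 4) (nat_lit 0) (.cons (.rf (nat_lit 1108) (nat_lit 14242959524133701664)) .nil)) .nil))) .nil)))) (.cons (.br (nat_lit 4) (nat_lit 0) (.cons (.rf (nat_lit 1110) (nat_lit 14242959524133701664)) (.cons (.rf (nat_lit 1112) (nat_lit 14242959524133701664)) (.cons (.br (nat_lit 4) (nat_lit 0) (.cons (.rf (nat_lit 1110) (nat_lit 14242959524133701664)) (.cons (.rf (nat_lit 1112) (nat_lit 14242959524133701664))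 .nil))) .nil)))) .nil)))) (.cons (.br (nat_lit 4) (nat_lit 0) (.cons (.rf (nat_lit 1114) (nat_lit 14242959524133701664)) (.cons (.rf (nat_lit 1116) (nat_lit 14242959524133701664)) (.cons (.br (nat_lit 4) (nat_lit 0) (.cons (.rf (nat_lit 1114) (nat_lit 14242959524133701664)) (.cons (.rf (nat_lit 1116) (nat_lit 14242959524133701664)) .nil))) .nil)))) (.cons (.br (nat_lit 8) (nat_lit 1) (.cons (.ev (nat_lit 18447025548703039489) (nat_lit 1)) (.cons (.br (nat_lit 4) (nat_lit 0) (.cons (.rf (nat_lit 1117) (nat_lit 14242959524133701664)) (.cons (.rf (nat_lit 1040) (nat_lit 14242890289260890144)) (.cons (.br (nat_lit 4) (nat_lit 0) (.cons (.rf (nat_lit 1117) (nat_lit 14242959524133701664)) (.cons (.rf (nat_lit 625) (nat_lit 443929200716517408)) .nil))) .nil)))) (.cons (.br (nat_lit 4) (nat_lit 0) (.cons (.rf (nat_lit 1118) (nat_lit 14242959524133701664)) (.cons (.rf (nat_lit 1120) (nat_lit 14242959524133701664)) (.cons (.br (nat_lit 4) (nat_lit 0) (.cons (.rf (nat_lit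 1118) (nat_lit 14242959524133701664)) (.cons (.rf (nat_lit 1120) (nat_lit 14242959524133701664)) .nil))) .nil)))) .nil)))) (.cons (.br (nat_lit 7) (nat_lit 1) (.cons (.rf (nat_lit 1123) (nat_lit 14242959524133701664)) (.cons (.rf (nat_lit 1126) (nat_lit 14242959524133701664)) (.cons (.br (nat_lit 7) (nat_lit 1) (.cons (.rf (nat_lit 1123) (nat_lit 14242959524133701664)) (.cons (.rf (nat_lit 1126) (nat_lit 14242959524133701664)) .nil))) .nil)))) .nil))))) (.cons (.br (nat_lit 3) (nat_lit 0) (.cons (.br (nat_lit 7) (nat_lit 1) (.cons (.rf (nat_lit 1127) (nat_lit 14242959524133701664)) (.cons (.br (nat_lit 4) (nat_lit 0) (.cons (.rf (nat_lit 1128) (nat_lit 14242959524133701664)) (.cons (.rf (nat_lit 1129) (nat_lit 14242959524133701664)) (.cons (.br (nat_lit 4) (nat_lit 0) (.cons (.rf (nat_lit 1079) (nat_lit 14242890289260890144)) (.cons (.rf (nat_lit 1129) (nat_lit 14242959524133701664)) .nil))) .nil)))) (.cons (.br (nat_lit 9) (nat_lit 1) (.cons (.rf (nat_lit 1130)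 (nat_lit 14242959524133701664)) (.cons (.br (nat_lit 9) (nat_lit 1) (.cons (.rf (nat_lit 1130) (nat_lit 14242959524133701664)) (.cons (.ev (nat_lit 309485009893402662762709249) (nat_lit 1)) .nil))) (.cons (.ev (nat_lit 309485009893402662762709249) (nat_lit 1)) .nil)))) .nil)))) (.cons (.br (nat_lit 4) (nat_lit 0) (.cons (.rf (nat_lit 1133) (nat_lit 14242959524133701664)) (.cons (.rf (nat_lit 1134) (nat_lit 14242959524133701664)) (.cons (.br (nat_lit 4) (nat_lit 0) (.cons (.rf (nat_lit 1133) (nat_lit 14242959524133701664)) (.cons (.rf (nat_lit 1134) (nat_lit 14242959524133701664)) .nil))) .nil)))) (.cons (.br (nat_lit 7) (nat_lit 1) (.cons (.rf (nat_lit 1137) (nat_lit 14242959524133701664)) (.cons (.rf (nat_lit 1139) (nat_lit 14242959524133701664)) (.cons (.br (nat_lit 7) (nat_lit 1) (.cons (.rf (nat_lit 1136) (nat_lit 14242959524133701664)) (.cons (.rf (nat_lit 1139) (nat_lit 14242959524133701664)) .nil))) .nil)))) (.cons (.br (nat_lit 7) (nat_lit 1) (.cons (.rf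 (nat_lit 1143) (nat_lit 14242959524133701664)) (.cons (.rf (nat_lit 1146) (nat_lit 14242959524133701664)) (.cons (.br (nat_lit 7) (nat_lit 1) (.cons (.rf (nat_lit 1143) (nat_lit 14242959524133701664)) (.cons (.rf (nat_lit 1146) (nat_lit 14242959524133701664)) .nil))) .nil)))) .nil))))) .nil))))) .nil))))),
 (.br (nat_lit 8) (nat_lit 1) (.cons (.rf (nat_lit 964) (nat_lit 12745785919770656)) (.cons (.rf (nat_lit 641) (nat_lit 12743622329995296)) .nil))),
 (.br (nat_lit 8) (nat_lit 1) (.cons (.rf (nat_lit 641) (nat_lit 11652906795241504)) (.cons (.rf (nat_lit 964) (nat_lit 11655070385016864)) .nil))),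
 (.br (nat_lit 7) (nat_lit 1) (.cons (.br (nat_lit 4) (nat_lit 0) (.cons (.rf (nat_lit 1148) (nat_lit 14242959524133701664)) (.cons (.rf (nat_lit 986) (nat_lit 13836501454524448)) (.cons (.br (nat_lit 9) (nat_lit 1) (.cons (.br (nat_lit 8) (nat_lit 1) (.cons (.br (nat_lit 8) (nat_lit 1) (.cons (.rf (nat_lit 527) (nat_lit 407865253687298080)) .nil)) (.cons (.rf (nat_lit 527) (nat_lit 407865253687298080)) .nil))) (.cons (.ev (nat_lit 4722366764348916957441) (nat_lit 1)) .nil))) .nil)))) (.cons (.br (nat_lit 4) (nat_lit 0) (.cons (.rf (nat_lit 1149) (nat_lit 14242959524133701664)) (.cons (.rf (nat_lit 986) (nat_lit 13836501454524448)) (.cons (.br (nat_lit 9) (nat_lit 1) (.cons (.rf (nat_lit 1010) (nat_lit 14242923308969461792)) (.cons (.ev (nat_lit 4722366764348916957441) (nat_lit 1)) .nil))) .nil)))) .nil))),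
 (.br (nat_lit 7) (nat_lit 1) (.cons (.rf (nat_lit 1150) (nat_lit 14242959524133701664)) (.cons (.br (nat_lit 4) (nat_lit 0) (.cons (.rf (nat_lit 1150) (nat_lit 14242958457941624864)) (.cons (.br (nat_lit 4) (nat_lit 0) (.cons (.rf (nat_lit 986) (nat_lit 13835436302635040)) (.cons (.rf (nat_lit 1007) (nat_lit 14242923308969461792)) .nil))) (.cons (.br (nat_lit 4) (nat_lit 0) (.cons (.rf (nat_lit 1150) (nat_lit 14242958457941624864)) (.cons (.rf (nat_lit 1007) (nat_lit 14242923308969461792)) .nil))) .nil)))) .nil))),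
 (.br (nat_lit 10) (nat_lit 0) (.cons (.ev (nat_lit 1213648258156196664442881) (nat_lit 1)) .nil)),
 (.br (nat_lit 8) (nat_lit 1) (.cons (.br (nat_lit 10) (nat_lit 0) (.cons (.br (nat_lit 11) (nat_lit 0) (.cons (.ev (nat_lit 310712825539801894030213892) (nat_lit 3)) .nil)) .nil)) .nil)),
 (.br (nat_lit 7) (nat_lit 1) (.cons (.rf (nat_lit 824) (nat_lit 13835436302666784)) (.cons (.br (nat_lit 9) (nat_lit 1) (.cons (.rf (nat_lit 338) (nat_lit 443894050704198688)) (.cons (.rf (nat_lit 1040) (nat_lit 14242922210531510368)) (.cons (.br (nat_lit 4) (nat_lit 0) (.cons (.rf (nat_lit 1021) (nat_lit 14208020410816137248)) (.cons (.br (nat_lit 8) (nat_lit 1) (.cons (.rf (nat_lit 1152) (nat_lit 14242959524133701664)) (.cons (.br (nat_lit 8) (nat_lit 1) (.cons (.rf (nat_lit 1152) (nat_lit 14242959524133701664)) .nil)) .nil))) .nil))) .nil)))) (.cons (.br (nat_lit 4) (nat_lit 0) (.cons (.rf (nat_lit 852) (nat_lit 407867382948794400)) (.cons (.rf (nat_lit 338) (nat_lit 445019950611041312))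 (.cons (.br (nat_lit 9) (nat_lit 1) (.cons (.br (nat_lit 8) (nat_lit 1) (.cons (.rf (nat_lit 1153) (nat_lit 14242959524133701664)) (.cons (.br (nat_lit 8) (nat_lit 1) (.cons (.rf (nat_lit 1153) (nat_lit 14242959524133701664)) .nil)) .nil))) (.cons (.rf (nat_lit 625) (nat_lit 444950682452136032)) .nil))) .nil)))) .nil)))),
 (.br (nat_lit 11) (nat_lit 0) (.cons (.ev (nat_lit 309489750635418644673265666) (nat_lit 2)) .nil)),
 (.br (nat_lit 7) (nat_lit 1) (.cons (.br (nat_lit 10) (nat_lit 0) (.cons (.rf (nat_lit 984) (nat_lit 397659553606470988)) .nil)) .nil)),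
 (.br (nat_lit 8) (nat_lit 1) (.cons (.rf (nat_lit 824) (nat_lit 13836501454556192)) (.cons (.br (nat_lit 4) (nat_lit 0) (.cons (.br (nat_lit 7) (nat_lit 1) (.cons (.rf (nat_lit 353) (nat_lit 12745785919802400)) (.cons (.rf (nat_lit 341) (nat_lit 11655070385048608)) .nil))) (.cons (.rf (nat_lit 338) (nat_lit 443859965843737632)) (.cons (.br (nat_lit 9) (nat_lit 1) (.cons (.rf (nat_lit 625) (nat_lit 443823684107407456)) (.cons (.br (nat_lit 7) (nat_lit 1) (.cons (.br (nat_lit 7) (nat_lit 1) (.cons (.rf (nat_lit 1155) (nat_lit 14242959524133701664)) .nil)) (.cons (.rf (nat_lit 1155) (nat_lit 14242959524133701664)) .nil))) .nil))) .nil)))) (.cons (.br (nat_lit 4) (nat_lit 0) (.cons (.rf (nat_lit 852) (nat_lit 407832232936443936)) (.cons (.rf (nat_lit 338) (nat_lit 444985865750580256)) (.cons (.br (nat_lit 9) (nat_lit 1) (.cons (.br (nat_lit 7) (nat_lit 1) (.cons (.rf (nat_lit 1156) (nat_lit 14242959524133701664)) (.cons (.br (nat_lit 7) (nat_lit 1) (.cons (.rf (nat_lit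 1156) (nat_lit 14242959524133701664)) .nil)) .nil))) (.cons (.rf (nat_lit 625) (nat_lit 444949584014250080)) .nil))) .nil)))) .nil)))),
 (.br (nat_lit 4) (nat_lit 0) (.cons (.rf (nat_lit 1157) (nat_lit 14208055560828487712)) (.cons (.rf (nat_lit 1154) (nat_lit 14208055560828487712)) (.cons (.br (nat_lit 7) (nat_lit 1) (.cons (.br (nat_lit 7) (nat_lit 1) (.cons (.rf (nat_lit 551) (nat_lit 13056261022321575968)) .nil)) (.cons (.br (nat_lit 7) (nat_lit 1) (.cons (.rf (nat_lit 551) (nat_lit 13056261022321575968)) .nil)) .nil))) .nil)))),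
 (.br (nat_lit 8) (nat_lit 1) (.cons (.rf (nat_lit 353) (nat_lit 12743622330025056)) (.cons (.rf (nat_lit 341) (nat_lit 11652906795271264)) .nil))),
 (.br (nat_lit 8) (nat_lit 1) (.cons (.br (nat_lit 10) (nat_lit 0) (.cons (.br (nat_lit 11) (nat_lit 0) (.cons (.ev (nat_lit 475689340686905277693355688706) (nat_lit 4)) .nil)) .nil)) .nil)),
 (.br (nat_lit 4) (nat_lit 0) (.cons (.rf (nat_lit 866) (nat_lit 14242889224108968992)) (.cons (.br (nat_lit 9) (nat_lit 1) (.cons (.rf (nat_lit 393) (nat_lit 443896181010009120)) (.cons (.ev (nat_lit 4722366483973451874561) (nat_lit 1)) .nil))) .nil))),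
 (.br (nat_lit 4) (nat_lit 0) (.cons (.rf (nat_lit 833) (nat_lit 407865253685234720)) (.cons (.br (nat_lit 9) (nat_lit 1) (.cons (.br (nat_lit 8) (nat_lit 1) (.cons (.rf (nat_lit 437) (nat_lit 407865253687266336)) (.cons (.br (nat_lit 10) (nat_lit 0) (.cons (.br (nat_lit 11) (nat_lit 0) (.cons (.ev (nat_lit 79228162514264619072815628544) (nat_lit 1)) .nil)) .nil)) .nil))) (.cons (.ev (nat_lit 4722366483973451874561) (nat_lit 1)) .nil))) .nil))),
 (.br (nat_lit 8) (nat_lit 1) (.cons (.br (nat_lit 10) (nat_lit 0) (.cons (.br (nat_lit 11) (nat_lit 0) (.cons (.ev (nat_lit 79229376180897461740561760256) (nat_lit 1)) .nil)) .nil)) .nil)),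
 (.br (nat_lit 4) (nat_lit 0) (.cons (.rf (nat_lit 833) (nat_lit 407865253685234720)) (.cons (.br (nat_lit 8) (nat_lit 1) (.cons (.rf (nat_lit 1163) (nat_lit 14242959524133701664)) (.cons (.br (nat_lit 8) (nat_lit 1) (.cons (.rf (nat_lit 1163) (nat_lit 14242959524133701664)) .nil)) .nil))) .nil))),
 (.br (nat_lit 10) (nat_lit 0) (.cons (.br (nat_lit 11) (nat_lit 0) (.cons (.kr (nat_lit 928455029464035206191120640) (nat_lit 1208925963729821545594880) (nat_lit 1) (nat_lit 0)) .nil)) .nil)),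
 (.br (nat_lit 4) (nat_lit 0) (.cons (.rf (nat_lit 1159) (nat_lit 14242958458981812256)) (.cons (.rf (nat_lit 866) (nat_lit 14242923308969430048)) (.cons (.br (nat_lit 7) (nat_lit 1) (.cons (.br (nat_lit 8) (nat_lit 1) (.cons (.rf (nat_lit 393) (nat_lit 443929200716549152)) (.cons (.br (nat_lit 9) (nat_lit 1) (.cons (.ev (nat_lit 1208925891672223212634369) (nat_lit 1)) (.cons (.br (nat_lit 10) (nat_lit 0) (.cons (.br (nat_lit 11) (nat_lit 0) (.cons (.ev (nat_lit 158767019075140022981418616578) (nat_lit 3)) .nil)) .nil)) .nil))) .nil))) (.cons (.br (nat_lit 8) (nat_lit 1) (.cons (.br (nat_lit 9) (nat_lit 1) (.cons (.kr (nat_lit 18446744073709551616) (nat_lit 1208925819614629174706176) (nat_lit 8) (nat_lit 0)) (.cons (.rf (nat_lit 1165) (nat_lit 14242959524133701664)) .nil))) (.cons (.br (nat_lit 9) (nat_lit 1) (.cons (.br (nat_lit 10) (nat_lit 0) (.cons (.br (nat_lit 11) (nat_lit 0) (.cons (.ev (nat_lit 158767037890530743373782910722) (nat_lit 3)) .nil)) .nil))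 (.cons (.rf (nat_lit 437) (nat_lit 372926074838910048)) .nil))) .nil))) .nil))) .nil))))]

theorem c30 : chkAll C T R L30 (nat_lit 1142) = true := by decide +kernel

theorem l30 : (nat_lit 1142) + L30.length = (nat_lit 1167) := by decide +kernel

/-- part of the certificates -/
def L31 : List Prf := [(.br (nat_lit 10) (nat_lit 0) (.cons (.rf (nat_lit 328) (nat_lit 372894117159538784)) (.cons (.ev (nat_lit 1208944266641277372661761) (nat_lit 1)) .nil))),
 (.br (nat_lit 8) (nat_lit 1) (.cons (.rf (nat_lit 557) (nat_lit 407865253687298080)) (.cons (.br (nat_lit 10) (nat_lit 0) (.cons (.br (nat_lit 11) (nat_lit 0) (.cons (.ev (nat_lit 79229376180897179166073421824) (nat_lit 1)) .nil)) .nil)) .nil))),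
 (.br (nat_lit 7) (nat_lit 1) (.cons (.rf (nat_lit 1166) (nat_lit 14242959524133701664)) (.cons (.br (nat_lit 4) (nat_lit 0) (.cons (.rf (nat_lit 1167) (nat_lit 14242959524133701664)) (.cons (.br (nat_lit 4) (nat_lit 0) (.cons (.ev (nat_lit 4740885566016664371201) (nat_lit 1)) (.cons (.rf (nat_lit 1168) (nat_lit 14242959524133701664)) .nil))) (.cons (.br (nat_lit 4) (nat_lit 0) (.cons (.rf (nat_lit 1167) (nat_lit 14242959524133701664)) (.cons (.rf (nat_lit 1168) (nat_lit 14242959524133701664)) .nil))) .nil)))) .nil))),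
 (.br (nat_lit 4) (nat_lit 0) (.cons (.rf (nat_lit 888) (nat_lit 14242923204950657120)) (.cons (.rf (nat_lit 626) (nat_lit 443930265870501920)) .nil))),
 (.br (nat_lit 7) (nat_lit 1) (.cons (.br (nat_lit 7) (nat_lit 1) (.cons (.ev (nat_lit 18519084242235818241) (nat_lit 1)) .nil)) (.cons (.br (nat_lit 7) (nat_lit 1) (.cons (.ev (nat_lit 18519084242235818241) (nat_lit 1)) .nil)) .nil))),
 (.br (nat_lit 4) (nat_lit 0) (.cons (.rf (nat_lit 888) (nat_lit 14242923204950657120)) (.cons (.br (nat_lit 8) (nat_lit 1) (.cons (.rf (nat_lit 625) (nat_lit 443929200718612512)) (.cons (.rf (nat_lit 1171) (nat_lit 14242959524133701664)) .nil))) .nil))),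
 (.br (nat_lit 8) (nat_lit 1) (.cons (.br (nat_lit 8) (nat_lit 1) (.cons (.ev (nat_lit 18519084242235818241) (nat_lit 1)) .nil)) (.cons (.br (nat_lit 8) (nat_lit 1) (.cons (.ev (nat_lit 18519084242235818241) (nat_lit 1)) .nil)) .nil))),
 (.br (nat_lit 8) (nat_lit 1) (.cons (.rf (nat_lit 628) (nat_lit 14242959524133701664)) (.cons (.br (nat_lit 8) (nat_lit 1) (.cons (.ev (nat_lit 18519084242235818241) (nat_lit 1)) .nil)) .nil))),
 (.br (nat_lit 7) (nat_lit 1) (.cons (.br (nat_lit 9) (nat_lit 1) (.cons (.rf (nat_lit 582) (nat_lit 443894050706262048)) (.cons (.ev (nat_lit 1208925891672223212634369) (nat_lit 1)) (.cons (.br (nat_lit 4) (nat_lit 0) (.cons (.br (nat_lit 8) (nat_lit 1) (.cons (.rf (nat_lit 445) (nat_lit 407867383989013536)) (.cons (.br (nat_lit 10) (nat_lit 0) (.cons (.br (nat_lit 11) (nat_lit 0) (.cons (.ev (nat_lit 317994751261090513013509384) (nat_lit 4)) .nil)) .nil)) .nil))) (.cons (.br (nat_lit 11) (nat_lit 0) (.cons (.br (nat_lit 11) (nat_lit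 0) (.cons (.ev (nat_lit 79228162514264338697350545664) (nat_lit 1)) .nil)) (.cons (.ev (nat_lit 79228162514264338697350545664) (nat_lit 1)) .nil))) .nil))) .nil)))) (.cons (.br (nat_lit 4) (nat_lit 0) (.cons (.br (nat_lit 8) (nat_lit 1) (.cons (.br (nat_lit 10) (nat_lit 0) (.cons (.rf (nat_lit 437) (nat_lit 407865253687266336)) (.cons (.ev (nat_lit 1208944266358702884323329) (nat_lit 1)) .nil))) (.cons (.br (nat_lit 9) (nat_lit 1) (.cons (.br (nat_lit 10) (nat_lit 0) (.cons (.br (nat_lit 11) (nat_lit 0) (.cons (.ev (nat_lit 158774300964112490578648957698) (nat_lit 3)) .nil)) .nil)) (.cons (.rf (nat_lit 440) (nat_lit 407901468849474592)) .nil))) .nil))) (.cons (.rf (nat_lit 1173) (nat_lit 14242959524133701664)) (.cons (.rf (nat_lit 1174) (nat_lit 14242959524133701664)) .nil)))) .nil))),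
 (.br (nat_lit 8) (nat_lit 1) (.cons (.br (nat_lit 4) (nat_lit 0) (.cons (.rf (nat_lit 558) (nat_lit 372961120831538240)) (.cons (.br (nat_lit 9) (nat_lit 1) (.cons (.ev (nat_lit 4722366483973451874561) (nat_lit 1)) .nil)) .nil))) (.cons (.ev (nat_lit 18519084242235818241) (nat_lit 1)) .nil))),
 (.br (nat_lit 4) (nat_lit 0) (.cons (.rf (nat_lit 1176) (nat_lit 14242959524133701664)) (.cons (.br (nat_lit 8) (nat_lit 1) (.cons (.br (nat_lit 8) (nat_lit 1) (.cons (.ev (nat_lit 1223130029288229993251330) (nat_lit 2)) .nil)) (.cons (.br (nat_lit 8) (nat_lit 1) (.cons (.ev (nat_lit 1223130029288229993251330) (nat_lit 2)) .nil)) .nil))) .nil))),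
 (.br (nat_lit 7) (nat_lit 1) (.cons (.rf (nat_lit 1175) (nat_lit 14242959524133701664)) (.cons (.br (nat_lit 4) (nat_lit 0) (.cons (.rf (nat_lit 1176) (nat_lit 14242959524133701664)) (.cons (.rf (nat_lit 1177) (nat_lit 14242959524133701664)) (.cons (.br (nat_lit 4) (nat_lit 0) (.cons (.rf (nat_lit 1176) (nat_lit 14242959524133701664)) (.cons (.rf (nat_lit 1177) (nat_lit 14242959524133701664)) .nil))) .nil)))) .nil))),
 (.br (nat_lit 4) (nat_lit 0) (.cons (.rf (nat_lit 833) (nat_lit 372962356573113376)) (.cons (.br (nat_lit 9) (nat_lit 1) (.cons (.rf (nat_lit 1074) (nat_lit 14242923308969461792)) (.cons (.ev (nat_lit 4722366483973451874561) (nat_lit 1)) .nil))) .nil))),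
 (.br (nat_lit 4) (nat_lit 0) (.cons (.rf (nat_lit 1070) (nat_lit 14242923308969461792)) (.cons (.rf (nat_lit 605) (nat_lit 445022080916883488)) .nil))),
 (.br (nat_lit 4) (nat_lit 0) (.cons (.br (nat_lit 8) (nat_lit 1) (.cons (.br (nat_lit 10) (nat_lit 0) (.cons (.br (nat_lit 11) (nat_lit 0) (.cons (.ev (nat_lit 158769455742602318187803510530) (nat_lit 3)) .nil)) .nil)) (.cons (.rf (nat_lit 393) (nat_lit 445056165775281184)) .nil))) .nil)),
 (.br (nat_lit 4) (nat_lit 0) (.cons (.rf (nat_lit 833) (nat_lit 372928271712652320)) (.cons (.br (nat_lit 7) (nat_lit 1) (.cons (.br (nat_lit 9) (nat_lit 1) (.cons (.rf (nat_lit 437) (nat_lit 407828971951031392)) (.cons (.br (nat_lit 10) (nat_lit 0) (.cons (.br (nat_lit 11) (nat_lit 0) (.cons (.ev (nat_lit 158767037890530743373782910722) (nat_lit 3)) .nil)) .nil)) .nil))) (.cons (.rf (nat_lit 1135) (nat_lit 14242925439273240608)) .nil))) .nil))),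
 (.br (nat_lit 10) (nat_lit 0) (.cons (.rf (nat_lit 393) (nat_lit 407900403697585184)) (.cons (.rf (nat_lit 393) (nat_lit 407832233978694688)) (.cons (.ev (nat_lit 1208944266358702884323329) (nat_lit 1)) .nil)))),
 (.br (nat_lit 4) (nat_lit 0) (.cons (.rf (nat_lit 1183) (nat_lit 407901468851537952)) (.cons (.rf (nat_lit 605) (nat_lit 407832233978726432)) .nil))),
 (.br (nat_lit 8) (nat_lit 1) (.cons (.rf (nat_lit 625) (nat_lit 407900403699648544)) (.cons (.rf (nat_lit 1171) (nat_lit 13126066816545818656)) .nil))),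
 (.br (nat_lit 7) (nat_lit 1) (.cons (.br (nat_lit 4) (nat_lit 0) (.cons (.br (nat_lit 8) (nat_lit 1) (.cons (.br (nat_lit 9) (nat_lit 1) (.cons (.ev (nat_lit 1213648258156192386318593) (nat_lit 1)) (.cons (.br (nat_lit 10) (nat_lit 0) (.cons (.br (nat_lit 11) (nat_lit 0) (.cons (.ev (nat_lit 313111898392998992815522052) (nat_lit 3)) .nil)) .nil)) .nil))) (.cons (.br (nat_lit 9) (nat_lit 1) (.cons (.br (nat_lit 10) (nat_lit 0) (.cons (.rf (nat_lit 1020) (nat_lit 48633780019268940)) .nil)) (.cons (.kr (nat_lit 18446744073709551616) (nat_lit 309485009821345068724781056) (nat_lit 8) (nat_lit 0)) .nil))) .nil))) (.cons (.rf (nat_lit 1173) (nat_lit 14208056627021580320)) (.cons (.rf (nat_lit 1174) (nat_lit 14208056627021580320)) .nil)))) (.cons (.br (nat_lit 4) (nat_lit 0) (.cons (.br (nat_lit 8) (nat_lit 1) (.cons (.br (nat_lit 11) (nat_lit 0) (.cons (.rf (nat_lit 437) (nat_lit 372928271714683936)) (.cons (.ev (nat_lit 309485046786890818805367042) (nat_lit 2)) .nil)))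 (.cons (.rf (nat_lit 486) (nat_lit 410151105073384480)) .nil))) (.cons (.rf (nat_lit 582) (nat_lit 445019950613104672)) (.cons (.rf (nat_lit 1142) (nat_lit 14242925439273240608)) .nil)))) .nil))),
 (.br (nat_lit 9) (nat_lit 1) (.cons (.rf (nat_lit 1141) (nat_lit 14242890289260890144)) .nil)),
 (.br (nat_lit 8) (nat_lit 1) (.cons (.ev (nat_lit 18519084242235818241) (nat_lit 1)) (.cons (.br (nat_lit 4) (nat_lit 0) (.cons (.rf (nat_lit 558) (nat_lit 407864017943659584)) (.cons (.rf (nat_lit 1187) (nat_lit 14242959524133701664)) .nil))) .nil))),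
 (.br (nat_lit 9) (nat_lit 0) (.cons (.rf (nat_lit 1087) (nat_lit 407900403699648544)) (.cons (.br (nat_lit 9) (nat_lit 0) (.cons (.rf (nat_lit 1087) (nat_lit 407900403699648544)) .nil)) .nil))),
 (.br (nat_lit 7) (nat_lit 1) (.cons (.rf (nat_lit 1186) (nat_lit 14242959524133701664)) (.cons (.br (nat_lit 4) (nat_lit 0) (.cons (.rf (nat_lit 1188) (nat_lit 14242959524133701664)) (.cons (.br (nat_lit 4) (nat_lit 0) (.cons (.rf (nat_lit 1188) (nat_lit 14242959524133701664)) (.cons (.rf (nat_lit 1189) (nat_lit 445092449661061152)) .nil))) (.cons (.br (nat_lit 4) (nat_lit 0) (.cons (.rf (nat_lit 1188) (nat_lit 14242959524133701664)) (.cons (.rf (nat_lit 1189) (nat_lit 445092449661061152)) .nil))) .nil)))) .nil))),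
 (.br (nat_lit 2) (nat_lit 0) (.cons (.rf (nat_lit 957) (nat_lit 407900402659461152)) (.cons (.rf (nat_lit 1098) (nat_lit 407901468851537952)) (.cons (.rf (nat_lit 1147) (nat_lit 407901468851537952)) (.cons (.br (nat_lit 6) (nat_lit 1) (.cons (.br (nat_lit 7) (nat_lit 1) (.cons (.rf (nat_lit 1150) (nat_lit 14242959524133701664)) (.cons (.rf (nat_lit 1151) (nat_lit 14242959524133701664)) (.cons (.br (nat_lit 7) (nat_lit 1) (.cons (.rf (nat_lit 1150) (nat_lit 14242959524133701664)) (.cons (.rf (nat_lit 1151) (nat_lit 14242959524133701664)) .nil))) .nil)))) (.cons (.br (nat_lit 3) (nat_lit 0) (.cons (.rf (nat_lit 1154) (nat_lit 14242959524133701664)) (.cons (.rf (nat_lit 1157) (nat_lit 14242959524133701664)) (.cons (.rf (nat_lit 1158) (nat_lit 14242959524133701664)) (.cons (.br (nat_lit 4) (nat_lit 0) (.cons (.rf (nat_lit 1157) (nat_lit 14208055560828487712)) (.cons (.rf (nat_lit 1154) (nat_lit 14208055560828487712)) (.cons (.rf (nat_lit 1158) (nat_lit 14208055560828487712))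 (.cons (.br (nat_lit 7) (nat_lit 1) (.cons (.br (nat_lit 7) (nat_lit 1) (.cons (.rf (nat_lit 554) (nat_lit 13056261022321575968)) .nil)) (.cons (.br (nat_lit 7) (nat_lit 1) (.cons (.rf (nat_lit 554) (nat_lit 13056261022321575968)) .nil)) .nil))) .nil))))) .nil))))) (.cons (.br (nat_lit 3) (nat_lit 0) (.cons (.br (nat_lit 7) (nat_lit 1) (.cons (.br (nat_lit 4) (nat_lit 0) (.cons (.rf (nat_lit 1159) (nat_lit 14242959524133701664)) (.cons (.rf (nat_lit 797) (nat_lit 13799185771958368)) (.cons (.br (nat_lit 9) (nat_lit 1) (.cons (.rf (nat_lit 625) (nat_lit 443859965843705888)) (.cons (.br (nat_lit 8) (nat_lit 1) (.cons (.rf (nat_lit 1160) (nat_lit 14242959524133701664)) (.cons (.br (nat_lit 8) (nat_lit 1) (.cons (.rf (nat_lit 1160) (nat_lit 14242959524133701664)) .nil)) .nil))) .nil))) .nil)))) (.cons (.br (nat_lit 4) (nat_lit 0) (.cons (.rf (nat_lit 1161) (nat_lit 14242959524133701664)) (.cons (.rf (nat_lit 1107) (nat_lit 14242925439273240608)) (.cons (.br (nat_lit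 4) (nat_lit 0) (.cons (.rf (nat_lit 1161) (nat_lit 14242959524133701664)) (.cons (.rf (nat_lit 605) (nat_lit 443896181010040864)) .nil))) .nil)))) (.cons (.br (nat_lit 4) (nat_lit 0) (.cons (.rf (nat_lit 1162) (nat_lit 14242959524133701664)) (.cons (.rf (nat_lit 1164) (nat_lit 14242959524133701664)) (.cons (.br (nat_lit 4) (nat_lit 0) (.cons (.rf (nat_lit 1162) (nat_lit 14242959524133701664)) (.cons (.rf (nat_lit 1164) (nat_lit 14242959524133701664)) .nil))) .nil)))) .nil)))) (.cons (.br (nat_lit 7) (nat_lit 1) (.cons (.rf (nat_lit 1166) (nat_lit 14242959524133701664)) (.cons (.rf (nat_lit 1169) (nat_lit 14242959524133701664)) (.cons (.br (nat_lit 7) (nat_lit 1) (.cons (.rf (nat_lit 1166) (nat_lit 14242959524133701664)) (.cons (.rf (nat_lit 1169) (nat_lit 14242959524133701664)) .nil))) .nil)))) (.cons (.br (nat_lit 4) (nat_lit 0) (.cons (.rf (nat_lit 1170) (nat_lit 14242959524133701664)) (.cons (.rf (nat_lit 1172) (nat_lit 14242959524133701664)) (.cons (.br (nat_lit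 4) (nat_lit 0) (.cons (.rf (nat_lit 626) (nat_lit 443930265870501920)) (.cons (.rf (nat_lit 1185) (nat_lit 443930265870501920)) .nil))) .nil)))) (.cons (.br (nat_lit 7) (nat_lit 1) (.cons (.rf (nat_lit 1175) (nat_lit 14242959524133701664)) (.cons (.rf (nat_lit 1178) (nat_lit 14242959524133701664)) (.cons (.br (nat_lit 7) (nat_lit 1) (.cons (.rf (nat_lit 1175) (nat_lit 14242959524133701664)) (.cons (.rf (nat_lit 1178) (nat_lit 14242959524133701664)) .nil))) .nil)))) .nil))))) (.cons (.br (nat_lit 3) (nat_lit 0) (.cons (.br (nat_lit 7) (nat_lit 1) (.cons (.rf (nat_lit 1127) (nat_lit 14242925439273240608)) (.cons (.br (nat_lit 4) (nat_lit 0) (.cons (.rf (nat_lit 1179) (nat_lit 14242959524133701664)) (.cons (.rf (nat_lit 1128) (nat_lit 14242925439273240608)) (.cons (.br (nat_lit 4) (nat_lit 0) (.cons (.rf (nat_lit 1179) (nat_lit 14242959524133701664)) (.cons (.rf (nat_lit 1079) (nat_lit 14242889224109000736)) .nil))) .nil)))) (.cons (.br (nat_lit 9) (nat_lit 1) (.cons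 (.rf (nat_lit 1180) (nat_lit 14242959524133701664)) (.cons (.br (nat_lit 4) (nat_lit 0) (.cons (.rf (nat_lit 1181) (nat_lit 14242959524133701664)) (.cons (.br (nat_lit 4) (nat_lit 0) (.cons (.rf (nat_lit 1181) (nat_lit 14242959524133701664)) .nil)) .nil))) (.cons (.ev (nat_lit 309485009893402662762709249) (nat_lit 1)) .nil)))) .nil)))) (.cons (.br (nat_lit 8) (nat_lit 1) (.cons (.rf (nat_lit 1127) (nat_lit 14242890289260890144)) (.cons (.br (nat_lit 4) (nat_lit 0) (.cons (.rf (nat_lit 1182) (nat_lit 14242959524133701664)) (.cons (.rf (nat_lit 1128) (nat_lit 14242890289260890144)) (.cons (.br (nat_lit 4) (nat_lit 0) (.cons (.rf (nat_lit 1182) (nat_lit 14242959524133701664)) (.cons (.rf (nat_lit 1079) (nat_lit 14242923308969461792)) .nil))) .nil)))) (.cons (.br (nat_lit 4) (nat_lit 0) (.cons (.br (nat_lit 4) (nat_lit 0) (.cons (.rf (nat_lit 1070) (nat_lit 14242889224109000736)) (.cons (.rf (nat_lit 1183) (nat_lit 445056165777344544)) .nil))) (.cons (.rf (nat_lit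 1180) (nat_lit 14242958458981812256)) (.cons (.rf (nat_lit 1184) (nat_lit 445056165777344544)) .nil)))) .nil)))) (.cons (.br (nat_lit 4) (nat_lit 0) (.cons (.br (nat_lit 4) (nat_lit 0) (.cons (.rf (nat_lit 1131) (nat_lit 14242925439273240608)) (.cons (.ev (nat_lit 4722366764348916957441) (nat_lit 1)) .nil))) (.cons (.br (nat_lit 4) (nat_lit 0) (.cons (.rf (nat_lit 1131) (nat_lit 14242925439273240608)) (.cons (.rf (nat_lit 1185) (nat_lit 445056165777344544)) .nil))) (.cons (.br (nat_lit 4) (nat_lit 0) (.cons (.ev (nat_lit 4722366764348916957441) (nat_lit 1)) (.cons (.rf (nat_lit 1185) (nat_lit 445056165777344544)) .nil))) .nil)))) (.cons (.br (nat_lit 7) (nat_lit 1) (.cons (.rf (nat_lit 1186) (nat_lit 14242959524133701664)) (.cons (.rf (nat_lit 1190) (nat_lit 14242959524133701664)) (.cons (.br (nat_lit 7) (nat_lit 1) (.cons (.rf (nat_lit 1186) (nat_lit 14242959524133701664)) (.cons (.rf (nat_lit 1190) (nat_lit 14242959524133701664)) .nil))) .nil)))) .nil))))) .nil)))))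 .nil))))),
 (.br (nat_lit 2) (nat_lit 0) (.cons (.rf (nat_lit 957) (nat_lit 407900402659461152)) (.cons (.rf (nat_lit 1098) (nat_lit 407901468851537952)) (.cons (.rf (nat_lit 1147) (nat_lit 407901468851537952)) (.cons (.rf (nat_lit 1191) (nat_lit 407901468851537952)) (.cons (.br (nat_lit 2) (nat_lit 0) (.cons (.rf (nat_lit 957) (nat_lit 407900402659461152)) (.cons (.rf (nat_lit 1098) (nat_lit 407901468851537952)) (.cons (.rf (nat_lit 1147) (nat_lit 407901468851537952)) (.cons (.rf (nat_lit 1191) (nat_lit 407901468851537952)) .nil))))) .nil)))))),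
 (.br (nat_lit 8) (nat_lit 1) (.cons (.rf (nat_lit 486) (nat_lit 374124436279823424)) (.cons (.rf (nat_lit 981) (nat_lit 14242957258605560896)) .nil))),
 (.br (nat_lit 3) (nat_lit 0) (.cons (.rf (nat_lit 964) (nat_lit 12743520393724992)) (.cons (.rf (nat_lit 976) (nat_lit 407899203323397184)) (.cons (.br (nat_lit 4) (nat_lit 0) (.cons (.ev (nat_lit 18519084242235818241) (nat_lit 1)) (.cons (.br (nat_lit 4) (nat_lit 0) (.cons (.ev (nat_lit 18519084242235818241) (nat_lit 1)) (.cons (.rf (nat_lit 1193) (nat_lit 14242959524133701664)) .nil))) (.cons (.br (nat_lit 4) (nat_lit 0) (.cons (.ev (nat_lit 18519084242235818241) (nat_lit 1)) (.cons (.rf (nat_lit 1193) (nat_lit 14242959524133701664)) .nil))) .nil)))) .nil)))),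
 (.br (nat_lit 10) (nat_lit 0) (.cons (.br (nat_lit 11) (nat_lit 0) (.cons (.kr (nat_lit 309485009821345068741558528) (nat_lit 1208925819614633469739008) (nat_lit 1) (nat_lit 0)) .nil)) .nil)),
 (.br (nat_lit 4) (nat_lit 0) (.cons (.rf (nat_lit 964) (nat_lit 12743520392709184)) (.cons (.br (nat_lit 8) (nat_lit 1) (.cons (.ev (nat_lit 1213648186097503131664641) (nat_lit 1)) (.cons (.br (nat_lit 10) (nat_lit 0) (.cons (.br (nat_lit 11) (nat_lit 0) (.cons (.ev (nat_lit 79537647542604766908816359680) (nat_lit 1)) .nil)) .nil)) .nil))) .nil)))]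

theorem c31 : chkAll C T R L31 (nat_lit 1167) = true := by decide +kernel

theorem l31 : (nat_lit 1167) + L31.length = (nat_lit 1197) := by decide +kernel

/-- part of the certificates -/
def L32 : List Prf := [(.br (nat_lit 3) (nat_lit 0) (.cons (.rf (nat_lit 976) (nat_lit 407899203323397184)) (.cons (.rf (nat_lit 976) (nat_lit 407899202283209792)) (.cons (.br (nat_lit 9) (nat_lit 1) (.cons (.br (nat_lit 4) (nat_lit 0) (.cons (.rf (nat_lit 485) (nat_lit 12746850066008192)) (.cons (.rf (nat_lit 485) (nat_lit 12746850099562624)) (.cons (.br (nat_lit 7) (nat_lit 1) (.cons (.rf (nat_lit 681) (nat_lit 374088152461214816)) (.cons (.br (nat_lit 8) (nat_lit 1) (.cons (.ev (nat_lit 18519084246547562753) (nat_lit 1)) (.cons (.rf (nat_lit 1195) (nat_lit 14242959524133701664)) .nil))) .nil))) .nil)))) (.cons (.kr (nat_lit 4722366482869645213952) (nat_lit 1208925819614629174771712) (nat_lit 1) (nat_lit 0)) (.cons (.br (nat_lit 4) (nat_lit 0) (.cons (.rf (nat_lit 1196) (nat_lit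 14242959524133701664)) (.cons (.rf (nat_lit 1196) (nat_lit 14242958457941624864)) (.cons (.br (nat_lit 4) (nat_lit 0) (.cons (.rf (nat_lit 1196) (nat_lit 14242959524133701664)) (.cons (.rf (nat_lit 1196) (nat_lit 14242958457941624864)) .nil))) .nil)))) .nil)))) .nil)))),
 (.br (nat_lit 4) (nat_lit 0) (.cons (.rf (nat_lit 440) (nat_lit 372925938572234848)) (.cons (.br (nat_lit 4) (nat_lit 0) (.cons (.rf (nat_lit 440) (nat_lit 372925938572234848)) .nil)) .nil))),
 (.br (nat_lit 4) (nat_lit 0) (.cons (.rf (nat_lit 1195) (nat_lit 14242925439273240608)) .nil)),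
 (.br (nat_lit 3) (nat_lit 0) (.cons (.rf (nat_lit 976) (nat_lit 407864020025050176)) (.cons (.rf (nat_lit 976) (nat_lit 407864017944675392)) (.cons (.br (nat_lit 7) (nat_lit 1) (.cons (.rf (nat_lit 1192) (nat_lit 372892953190990912)) (.cons (.br (nat_lit 9) (nat_lit 1) (.cons (.rf (nat_lit 1192) (nat_lit 372889755654947904)) (.cons (.rf (nat_lit 1198) (nat_lit 407901468851537952)) .nil))) (.cons (.br (nat_lit 9) (nat_lit 1) (.cons (.rf (nat_lit 1192) (nat_lit 372889755654947904)) (.cons (.rf (nat_lit 1198) (nat_lit 407831168826837024)) (.cons (.br (nat_lit 11) (nat_lit 0) (.cons (.ev (nat_lit 309489750706912180605812993) (nat_lit 1)) (.cons (.br (nat_lit 8) (nat_lit 1) (.cons (.rf (nat_lit 1199) (nat_lit 14242959524133701664)) (.cons (.zr (nat_lit 309485046859511354173358080) (nat_lit 14167099451907487301889) (nat_lit 5) (nat_lit 9)) .nil))) .nil))) .nil)))) .nil)))) .nil)))),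
 (.br (nat_lit 4) (nat_lit 0) (.cons (.rf (nat_lit 485) (nat_lit 12745750555428960)) (.cons (.br (nat_lit 8) (nat_lit 1) (.cons (.rf (nat_lit 486) (nat_lit 374124436279822432)) (.cons (.br (nat_lit 9) (nat_lit 1) (.cons (.ev (nat_lit 1208944338697776193929473) (nat_lit 1)) (.cons (.br (nat_lit 10) (nat_lit 0) (.cons (.br (nat_lit 11) (nat_lit 0) (.cons (.zr (nat_lit 2441463471646905127272704) (nat_lit 79228162532784546649059885057) (nat_lit 10) (nat_lit 7)) .nil)) .nil)) .nil))) .nil))) .nil))),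
 (.br (nat_lit 4) (nat_lit 0) (.cons (.rf (nat_lit 485) (nat_lit 12746850067056736)) (.cons (.br (nat_lit 9) (nat_lit 1) (.cons (.rf (nat_lit 486) (nat_lit 374090351419361376)) (.cons (.br (nat_lit 8) (nat_lit 1) (.cons (.rf (nat_lit 440) (nat_lit 372961122912865344)) (.cons (.ev (nat_lit 4740885285636921098241) (nat_lit 1)) .nil))) .nil))) .nil))),
 (.br (nat_lit 10) (nat_lit 0) (.cons (.br (nat_lit 11) (nat_lit 0) (.cons (.kr (nat_lit 309485009821345068741558528) (nat_lit 1208925819614633469739008) (nat_lit 1) (nat_lit 0)) .nil)) .nil)),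
 (.br (nat_lit 9) (nat_lit 1) (.cons (.br (nat_lit 9) (nat_lit 1) (.cons (.rf (nat_lit 1090) (nat_lit 407795850304128076)) .nil)) (.cons (.rf (nat_lit 1090) (nat_lit 407795850304128076)) .nil))),
 (.br (nat_lit 8) (nat_lit 1) (.cons (.ev (nat_lit 1208944338417396450656513) (nat_lit 1)) (.cons (.br (nat_lit 4) (nat_lit 0) (.cons (.br (nat_lit 9) (nat_lit 1) (.cons (.ev (nat_lit 4740885566016664371201) (nat_lit 1)) (.cons (.rf (nat_lit 1203) (nat_lit 14242959524133701664)) .nil))) (.cons (.rf (nat_lit 1204) (nat_lit 14242959524133701664)) .nil))) .nil))),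
 (.br (nat_lit 8) (nat_lit 1) (.cons (.br (nat_lit 11) (nat_lit 0) (.cons (.kr (nat_lit 309485009821345068741558528) (nat_lit 1208925819614633469739008) (nat_lit 1) (nat_lit 0)) .nil)) .nil)),
 (.br (nat_lit 8) (nat_lit 1) (.cons (.rf (nat_lit 1206) (nat_lit 14242959524133701664)) (.cons (.br (nat_lit 8) (nat_lit 1) (.cons (.rf (nat_lit 1206) (nat_lit 14242959524133701664)) .nil)) .nil))),
 (.br (nat_lit 4) (nat_lit 0) (.cons (.rf (nat_lit 1205) (nat_lit 14242959524133701664)) (.cons (.br (nat_lit 9) (nat_lit 1) (.cons (.ev (nat_lit 1213648186380073308258561) (nat_lit 1)) (.cons (.rf (nat_lit 1207) (nat_lit 14242959524133701664)) .nil))) .nil))),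
 (.br (nat_lit 3) (nat_lit 0) (.cons (.br (nat_lit 4) (nat_lit 0) (.cons (.rf (nat_lit 485) (nat_lit 12745750555428960)) (.cons (.rf (nat_lit 1201) (nat_lit 14242959524133701664)) (.cons (.br (nat_lit 4) (nat_lit 0) (.cons (.rf (nat_lit 485) (nat_lit 12745750555428960)) (.cons (.rf (nat_lit 1201) (nat_lit 14242959524133701664)) .nil))) .nil)))) (.cons (.br (nat_lit 4) (nat_lit 0) (.cons (.rf (nat_lit 1202) (nat_lit 14242959524133701664)) (.cons (.rf (nat_lit 485) (nat_lit 12746850067056736)) (.cons (.br (nat_lit 4) (nat_lit 0) (.cons (.rf (nat_lit 1202) (nat_lit 14242959524133701664)) (.cons (.rf (nat_lit 485) (nat_lit 12746850067056736)) .nil))) .nil)))) (.cons (.br (nat_lit 4) (nat_lit 0) (.cons (.rf (nat_lit 1205) (nat_lit 14242959524133701664)) (.cons (.rf (nat_lit 1208) (nat_lit 14242959524133701664)) (.cons (.br (nat_lit 4) (nat_lit 0) (.cons (.rf (nat_lit 1205) (nat_lit 14242959524133701664)) (.cons (.rf (nat_lit 1208) (nat_lit 14242959524133701664)) .nil)))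 .nil)))) .nil)))),
 (.br (nat_lit 4) (nat_lit 0) (.cons (.rf (nat_lit 440) (nat_lit 372925937532047456)) (.cons (.br (nat_lit 4) (nat_lit 0) (.cons (.rf (nat_lit 440) (nat_lit 372925937532047456)) .nil)) .nil))),
 (.br (nat_lit 9) (nat_lit 1) (.cons (.rf (nat_lit 964) (nat_lit 12743521498956896)) (.cons (.rf (nat_lit 445) (nat_lit 407794750823895136)) (.cons (.ev (nat_lit 4740885566012386181121) (nat_lit 1)) .nil)))),
 (.br (nat_lit 8) (nat_lit 1) (.cons (.rf (nat_lit 964) (nat_lit 12743521498956896)) (.cons (.rf (nat_lit 445) (nat_lit 407794749783707744)) (.cons (.ev (nat_lit 4740885566012386181121) (nat_lit 1)) .nil)))),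
 (.br (nat_lit 9) (nat_lit 1) (.cons (.br (nat_lit 11) (nat_lit 0) (.cons (.kr (nat_lit 309485009821347267764814080) (nat_lit 1208925820177583423160320) (nat_lit 1) (nat_lit 0)) .nil)) .nil)),
 (.br (nat_lit 9) (nat_lit 1) (.cons (.rf (nat_lit 1213) (nat_lit 14242959524133701664)) (.cons (.br (nat_lit 9) (nat_lit 1) (.cons (.rf (nat_lit 1213) (nat_lit 14242959524133701664)) .nil)) .nil))),
 (.br (nat_lit 4) (nat_lit 0) (.cons (.br (nat_lit 9) (nat_lit 1) (.cons (.br (nat_lit 11) (nat_lit 0) (.cons (.kr (nat_lit 309485009821347267764814080) (nat_lit 1208925820177583423160320) (nat_lit 1) (nat_lit 0)) .nil)) .nil)) .nil)),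
 (.br (nat_lit 10) (nat_lit 0) (.cons (.br (nat_lit 11) (nat_lit 0) (.cons (.kr (nat_lit 309485009821345068741558528) (nat_lit 1208925819614633469739008) (nat_lit 1) (nat_lit 0)) .nil)) .nil)),
 (.br (nat_lit 9) (nat_lit 1) (.cons (.br (nat_lit 11) (nat_lit 0) (.cons (.kr (nat_lit 309485009821345068741558528) (nat_lit 1208925819614633469739008) (nat_lit 1) (nat_lit 0)) .nil)) .nil)),
 (.br (nat_lit 4) (nat_lit 0) (.cons (.br (nat_lit 9) (nat_lit 1) (.cons (.ev (nat_lit 4740885566016664371201) (nat_lit 1)) (.cons (.rf (nat_lit 1216) (nat_lit 14242959524133701664)) .nil))) (.cons (.br (nat_lit 10) (nat_lit 0) (.cons (.rf (nat_lit 1217) (nat_lit 14242959524133701664)) (.cons (.rf (nat_lit 1214) (nat_lit 397767303497846092)) .nil))) .nil))),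
 (.br (nat_lit 9) (nat_lit 1) (.cons (.br (nat_lit 11) (nat_lit 0) (.cons (.kr (nat_lit 309485009821345068741558528) (nat_lit 1208925819614633469739008) (nat_lit 1) (nat_lit 0)) .nil)) .nil)),
 (.br (nat_lit 4) (nat_lit 0) (.cons (.rf (nat_lit 1218) (nat_lit 14242959524133701664)) (.cons (.br (nat_lit 8) (nat_lit 1) (.cons (.rf (nat_lit 1219) (nat_lit 14242959524133701664)) (.cons (.rf (nat_lit 1100) (nat_lit 14207947810937111616)) .nil))) .nil))),
 (.br (nat_lit 3) (nat_lit 0) (.cons (.rf (nat_lit 1209) (nat_lit 14242959524133701664)) (.cons (.br (nat_lit 7) (nat_lit 1) (.cons (.br (nat_lit 4) (nat_lit 0) (.cons (.rf (nat_lit 485) (nat_lit 12745750554380416)) (.cons (.rf (nat_lit 485) (nat_lit 12746850066008192)) (.cons (.br (nat_lit 8) (nat_lit 1) (.cons (.rf (nat_lit 681) (nat_lit 374124436278871104)) (.cons (.br (nat_lit 9) (nat_lit 1) (.cons (.rf (nat_lit 440) (nat_lit 372996306210164800)) (.cons (.ev (nat_lit 4740885566012386181121) (nat_lit 1)) .nil)))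 .nil))) .nil)))) (.cons (.br (nat_lit 8) (nat_lit 1) (.cons (.br (nat_lit 9) (nat_lit 1) (.cons (.rf (nat_lit 964) (nat_lit 12743521498956896)) (.cons (.rf (nat_lit 440) (nat_lit 372925938572234848)) .nil))) (.cons (.rf (nat_lit 1210) (nat_lit 407901468851537952)) .nil))) (.cons (.br (nat_lit 4) (nat_lit 0) (.cons (.rf (nat_lit 1211) (nat_lit 14242959524133701664)) (.cons (.rf (nat_lit 1212) (nat_lit 14242959524133701664)) (.cons (.br (nat_lit 4) (nat_lit 0) (.cons (.rf (nat_lit 1211) (nat_lit 14242959524133701664)) (.cons (.rf (nat_lit 1212) (nat_lit 14242959524133701664)) .nil))) .nil)))) .nil)))) (.cons (.br (nat_lit 7) (nat_lit 1) (.cons (.br (nat_lit 8) (nat_lit 1) (.cons (.rf (nat_lit 485) (nat_lit 12745750554380416)) (.cons (.ev (nat_lit 1208944338697771915739393) (nat_lit 1)) (.cons (.br (nat_lit 4) (nat_lit 0) (.cons (.br (nat_lit 9) (nat_lit 1) (.cons (.ev (nat_lit 4740885285641199288321) (nat_lit 1)) (.cons (.br (nat_lit 10) (nat_lit 0) (.cons (.br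 (nat_lit 11) (nat_lit 0) (.cons (.zr (nat_lit 1112480417024) (nat_lit 79230585106789695814216318977) (nat_lit 10) (nat_lit 0)) .nil)) .nil)) .nil))) (.cons (.rf (nat_lit 1214) (nat_lit 14242959524133701664)) .nil))) .nil)))) (.cons (.br (nat_lit 8) (nat_lit 1) (.cons (.ev (nat_lit 1208944338417396450656513) (nat_lit 1)) (.cons (.br (nat_lit 4) (nat_lit 0) (.cons (.rf (nat_lit 1215) (nat_lit 14242959524133701664)) (.cons (.br (nat_lit 4) (nat_lit 0) (.cons (.rf (nat_lit 1215) (nat_lit 14242959524133701664)) .nil)) .nil))) .nil))) (.cons (.br (nat_lit 4) (nat_lit 0) (.cons (.rf (nat_lit 1218) (nat_lit 14242959524133701664)) (.cons (.rf (nat_lit 1220) (nat_lit 14242959524133701664)) (.cons (.br (nat_lit 4) (nat_lit 0) (.cons (.rf (nat_lit 1218) (nat_lit 14242959524133701664)) (.cons (.rf (nat_lit 1220) (nat_lit 14242959524133701664)) .nil))) .nil)))) .nil)))) .nil)))),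
 (.br (nat_lit 8) (nat_lit 1) (.cons (.br (nat_lit 4) (nat_lit 0) (.cons (.ev (nat_lit 4740885566016664371201) (nat_lit 1)) (.cons (.br (nat_lit 9) (nat_lit 1) (.cons (.ev (nat_lit 1213648186097503131664641) (nat_lit 1)) .nil)) .nil))) .nil)),
 (.br (nat_lit 4) (nat_lit 0) (.cons (.br (nat_lit 8) (nat_lit 1) (.cons (.ev (nat_lit 4740885566016664371201) (nat_lit 1)) (.cons (.rf (nat_lit 1216) (nat_lit 14242925439273240608)) .nil))) (.cons (.br (nat_lit 9) (nat_lit 1) (.cons (.rf (nat_lit 1219) (nat_lit 14242925439273240608)) (.cons (.br (nat_lit 8) (nat_lit 1) (.cons (.ev (nat_lit 1213648186380077620003073) (nat_lit 1)) (.cons (.br (nat_lit 10) (nat_lit 0) (.cons (.ev (nat_lit 79537647542604766908816359680) (nat_lit 1)) .nil)) .nil))) .nil))) .nil))),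
 (.br (nat_lit 4) (nat_lit 0) (.cons (.rf (nat_lit 1223) (nat_lit 14242959524133701664)) (.cons (.br (nat_lit 10) (nat_lit 0) (.cons (.rf (nat_lit 1217) (nat_lit 14242925439273240608)) (.cons (.ev (nat_lit 79229376162450716567357423616) (nat_lit 1)) .nil))) .nil))),
 (.br (nat_lit 3) (nat_lit 0) (.cons (.rf (nat_lit 1209) (nat_lit 14242959524133701664)) (.cons (.rf (nat_lit 1221) (nat_lit 14242959524133701664)) (.cons (.br (nat_lit 7) (nat_lit 1) (.cons (.br (nat_lit 4) (nat_lit 0) (.cons (.br (nat_lit 8) (nat_lit 1) (.cons (.rf (nat_lit 486) (nat_lit 374124436278773888)) (.cons (.br (nat_lit 10) (nat_lit 0) (.cons (.rf (nat_lit 440) (nat_lit 372996306210164800)) (.cons (.ev (nat_lit 1208944338417400728846593) (nat_lit 1)) .nil))) .nil))) (.cons (.rf (nat_lit 485) (nat_lit 12746850066008192)) (.cons (.br (nat_lit 9) (nat_lit 1) (.cons (.rf (nat_lit 683) (nat_lit 374090351418410048)) (.cons (.br (nat_lit 8) (nat_lit 1) (.cons (.ev (nat_lit 1213648186097503131664641)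 (nat_lit 1)) (.cons (.br (nat_lit 8) (nat_lit 1) (.cons (.ev (nat_lit 1213648186097503131664641) (nat_lit 1)) .nil)) .nil))) .nil))) .nil)))) (.cons (.br (nat_lit 8) (nat_lit 1) (.cons (.rf (nat_lit 1222) (nat_lit 14242959524133701664)) (.cons (.br (nat_lit 8) (nat_lit 1) (.cons (.rf (nat_lit 1222) (nat_lit 14242959524133701664)) .nil)) .nil))) (.cons (.br (nat_lit 4) (nat_lit 0) (.cons (.rf (nat_lit 1223) (nat_lit 14242959524133701664)) (.cons (.rf (nat_lit 1224) (nat_lit 14242959524133701664)) (.cons (.br (nat_lit 4) (nat_lit 0) (.cons (.rf (nat_lit 1223) (nat_lit 14242959524133701664)) (.cons (.rf (nat_lit 1224) (nat_lit 14242959524133701664)) .nil))) .nil)))) .nil)))) .nil)))),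
 (.br (nat_lit 2) (nat_lit 0) (.cons (.br (nat_lit 3) (nat_lit 0) (.cons (.rf (nat_lit 1194) (nat_lit 407901468851537952)) (.cons (.rf (nat_lit 1194) (nat_lit 407900402659461152)) (.cons (.rf (nat_lit 1197) (nat_lit 407901468851537952)) (.cons (.br (nat_lit 3) (nat_lit 0) (.cons (.rf (nat_lit 1194) (nat_lit 407901468851537952)) (.cons (.rf (nat_lit 1194) (nat_lit 407900402659461152)) (.cons (.rf (nat_lit 1197) (nat_lit 407901468851537952)) .nil)))) .nil))))) (.cons (.br (nat_lit 3) (nat_lit 0) (.cons (.rf (nat_lit 1192) (nat_lit 407795850304128064)) (.cons (.rf (nat_lit 1200) (nat_lit 407901468851537952)) (.cons (.rf (nat_lit 1192) (nat_lit 407792652768085056)) (.cons (.br (nat_lit 3) (nat_lit 0) (.cons (.rf (nat_lit 1192) (nat_lit 407795850304128064)) (.cons (.rf (nat_lit 1200) (nat_lit 407901468851537952)) (.cons (.rf (nat_lit 1192) (nat_lit 407792652768085056)) .nil)))) .nil))))) (.cons (.br (nat_lit 3) (nat_lit 0) (.cons (.rf (nat_lit 1209) (nat_lit 14242959524133701664))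 (.cons (.rf (nat_lit 1221) (nat_lit 14242959524133701664)) (.cons (.rf (nat_lit 1225) (nat_lit 14242959524133701664)) (.cons (.br (nat_lit 3) (nat_lit 0) (.cons (.rf (nat_lit 1209) (nat_lit 14242959524133701664)) (.cons (.rf (nat_lit 1221) (nat_lit 14242959524133701664)) (.cons (.rf (nat_lit 1225) (nat_lit 14242959524133701664)) .nil)))) .nil))))) .nil)))),
 (.br (nat_lit 4) (nat_lit 0) (.cons (.rf (nat_lit 964) (nat_lit 12743520391660640)) (.cons (.rf (nat_lit 485) (nat_lit 12744651109861504)) (.cons (.br (nat_lit 8) (nat_lit 1) (.cons (.rf (nat_lit 486) (nat_lit 374124436277727328)) (.cons (.br (nat_lit 10) (nat_lit 0) (.cons (.rf (nat_lit 440) (nat_lit 372996306209116256)) (.cons (.rf (nat_lit 189) (nat_lit 445090283957356576)) .nil))) .nil))) .nil)))),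
 (.br (nat_lit 4) (nat_lit 0) (.cons (.rf (nat_lit 485) (nat_lit 12744651110910048)) (.cons (.br (nat_lit 7) (nat_lit 1) (.cons (.rf (nat_lit 486) (nat_lit 374088152463214688)) (.cons (.br (nat_lit 8) (nat_lit 1) (.cons (.rf (nat_lit 440) (nat_lit 372961120832490560)) (.cons (.ev (nat_lit 18519084242235818241) (nat_lit 1)) .nil))) .nil))) .nil))),
 (.br (nat_lit 8) (nat_lit 1) (.cons (.rf (nat_lit 440) (nat_lit 374122206115958880)) .nil)),
 (.br (nat_lit 4) (nat_lit 0) (.cons (.rf (nat_lit 1229) (nat_lit 407901468851537952)) (.cons (.rf (nat_lit 683) (nat_lit 372964451510518880)) .nil))),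
 (.br (nat_lit 8) (nat_lit 1) (.cons (.ev (nat_lit 18519084242235818241) (nat_lit 1)) .nil)),
 (.br (nat_lit 8) (nat_lit 1) (.cons (.rf (nat_lit 445) (nat_lit 407796948739853440)) (.cons (.rf (nat_lit 1216) (nat_lit 14242923308969461792)) .nil)))]

theorem c32 : chkAll C T R L32 (nat_lit 1197) = true := by decide +kernel

theorem l32 : (nat_lit 1197) + L32.length = (nat_lit 1233) := by decide +kernel

/-- part of the certificates -/
def L33 : List Prf := [(.br (nat_lit 4) (nat_lit 0) (.cons (.rf (nat_lit 1232) (nat_lit 14242959524133701664)) (.cons (.br (nat_lit 10) (nat_lit 0) (.cons (.rf (nat_lit 1217) (nat_lit 14242923308969461792)) (.cons (.rf (nat_lit 1226) (nat_lit 397768369689922892)) .nil))) .nil))),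
 (.br (nat_lit 4) (nat_lit 0) (.cons (.rf (nat_lit 1232) (nat_lit 14242959524133701664)) (.cons (.br (nat_lit 7) (nat_lit 1) (.cons (.rf (nat_lit 1219) (nat_lit 14242923308969461792)) (.cons (.br (nat_lit 11) (nat_lit 0) (.cons (.ev (nat_lit 18519084242235818241) (nat_lit 1)) (.cons (.rf (nat_lit 1192) (nat_lit 361630756586459500)) .nil))) .nil))) .nil))),
 (.br (nat_lit 3) (nat_lit 0) (.cons (.br (nat_lit 7) (nat_lit 1) (.cons (.rf (nat_lit 1227) (nat_lit 14242959524133701664)) (.cons (.br (nat_lit 8) (nat_lit 1) (.cons (.rf (nat_lit 1227) (nat_lit 14242958457941624864)) (.cons (.rf (nat_lit 1198) (nat_lit 407867383991045152)) .nil))) (.cons (.br (nat_lit 8) (nat_lit 1) (.cons (.rf (nat_lit 1227) (nat_lit 14242958457941624864)) (.cons (.rf (nat_lit 1198) (nat_lit 407832233978694688)) (.cons (.br (nat_lit 10) (nat_lit 0) (.cons (.rf (nat_lit 1210) (nat_lit 407865253687298080)) (.cons (.br (nat_lit 9) (nat_lit 1) (.cons (.br (nat_lit 4) (nat_lit 0) (.cons (.br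 (nat_lit 11) (nat_lit 0) (.cons (.ev (nat_lit 313111824317792304712712964) (nat_lit 3)) .nil)) .nil)) (.cons (.rf (nat_lit 1210) (nat_lit 372889791022270560)) .nil))) .nil))) .nil)))) .nil)))) (.cons (.br (nat_lit 4) (nat_lit 0) (.cons (.rf (nat_lit 485) (nat_lit 12744651110910048)) (.cons (.rf (nat_lit 1228) (nat_lit 14242959524133701664)) (.cons (.br (nat_lit 4) (nat_lit 0) (.cons (.rf (nat_lit 485) (nat_lit 12744651110910048)) (.cons (.rf (nat_lit 1228) (nat_lit 14242959524133701664)) .nil))) .nil)))) (.cons (.br (nat_lit 9) (nat_lit 1) (.cons (.ev (nat_lit 4722366764344638767361) (nat_lit 1)) (.cons (.br (nat_lit 7) (nat_lit 1) (.cons (.rf (nat_lit 1230) (nat_lit 443930265870501920)) (.cons (.br (nat_lit 4) (nat_lit 0) (.cons (.rf (nat_lit 1231) (nat_lit 14242959524133701664)) (.cons (.br (nat_lit 4) (nat_lit 0) (.cons (.rf (nat_lit 1231) (nat_lit 14242959524133701664)) .nil)) .nil))) .nil))) (.cons (.br (nat_lit 4) (nat_lit 0) (.cons (.rf (nat_lit 1233) (nat_lit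 14242959524133701664)) (.cons (.rf (nat_lit 1234) (nat_lit 14242959524133701664)) (.cons (.br (nat_lit 4) (nat_lit 0) (.cons (.rf (nat_lit 1233) (nat_lit 14242959524133701664)) (.cons (.rf (nat_lit 1234) (nat_lit 14242959524133701664)) .nil))) .nil)))) .nil)))) .nil)))),
 (.br (nat_lit 7) (nat_lit 1) (.cons (.rf (nat_lit 681) (nat_lit 374088152463279168)) (.cons (.br (nat_lit 8) (nat_lit 1) (.cons (.rf (nat_lit 440) (nat_lit 372961120832490560)) (.cons (.rf (nat_lit 1203) (nat_lit 14242923308969461792)) .nil))) .nil))),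
 (.br (nat_lit 4) (nat_lit 0) (.cons (.rf (nat_lit 1236) (nat_lit 14242959524133701664)) (.cons (.br (nat_lit 7) (nat_lit 1) (.cons (.rf (nat_lit 683) (nat_lit 374088152463279168)) (.cons (.rf (nat_lit 1207) (nat_lit 14242889224109000736)) .nil))) .nil))),
 (.br (nat_lit 3) (nat_lit 0) (.cons (.rf (nat_lit 1235) (nat_lit 14242959524133701664)) (.cons (.rf (nat_lit 1235) (nat_lit 14242958457941624864)) (.cons (.br (nat_lit 4) (nat_lit 0) (.cons (.rf (nat_lit 1237) (nat_lit 14242959524133701664)) (.cons (.rf (nat_lit 1237) (nat_lit 14242958458981812256)) (.cons (.br (nat_lit 4) (nat_lit 0) (.cons (.rf (nat_lit 1237) (nat_lit 14242959524133701664)) (.cons (.rf (nat_lit 1237) (nat_lit 14242958458981812256)) .nil))) .nil)))) .nil)))),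
 (.br (nat_lit 2) (nat_lit 0) (.cons (.rf (nat_lit 1226) (nat_lit 407901468851537952)) (.cons (.rf (nat_lit 1226) (nat_lit 407900402659461152)) (.cons (.br (nat_lit 3) (nat_lit 0) (.cons (.rf (nat_lit 1235) (nat_lit 14242959524133701664)) (.cons (.rf (nat_lit 1235) (nat_lit 14242958457941624864)) (.cons (.rf (nat_lit 1238) (nat_lit 14242959524133701664)) (.cons (.br (nat_lit 3) (nat_lit 0) (.cons (.rf (nat_lit 1235) (nat_lit 14242959524133701664)) (.cons (.rf (nat_lit 1235) (nat_lit 14242958457941624864)) (.cons (.rf (nat_lit 1238) (nat_lit 14242959524133701664)) .nil)))) .nil))))) .nil)))),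
 (.br (nat_lit 9) (nat_lit 1) (.cons (.br (nat_lit 10) (nat_lit 0) (.cons (.br (nat_lit 11) (nat_lit 0) (.cons (.ev (nat_lit 158456334491781290321902633216) (nat_lit 2)) .nil)) .nil)) .nil)),
 (.br (nat_lit 4) (nat_lit 0) (.cons (.rf (nat_lit 642) (nat_lit 407900334006076480)) (.cons (.br (nat_lit 9) (nat_lit 1) (.cons (.rf (nat_lit 1240) (nat_lit 14242959524133701664)) (.cons (.rf (nat_lit 1240) (nat_lit 14208055560828487712)) .nil))) .nil))),
 (.br (nat_lit 4) (nat_lit 0) (.cons (.rf (nat_lit 642) (nat_lit 407900334006076480)) (.cons (.br (nat_lit 8) (nat_lit 1) (.cons (.br (nat_lit 9) (nat_lit 1) (.cons (.rf (nat_lit 437) (nat_lit 407899203323333696)) (.cons (.br (nat_lit 10) (nat_lit 0) (.cons (.ev (nat_lit 1213648258436567851401473) (nat_lit 1)) .nil)) .nil))) (.cons (.br (nat_lit 9) (nat_lit 1) (.cons (.br (nat_lit 10) (nat_lit 0) (.cons (.br (nat_lit 11) (nat_lit 0) (.cons (.ev (nat_lit 158771854778273803342941847810) (nat_lit 3)) .nil)) .nil)) (.cons (.rf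 (nat_lit 437) (nat_lit 372995241059322944)) .nil))) .nil))) .nil))),
 (.br (nat_lit 3) (nat_lit 0) (.cons (.rf (nat_lit 641) (nat_lit 12745750555493440)) (.cons (.rf (nat_lit 642) (nat_lit 407901433485165632)) (.cons (.br (nat_lit 4) (nat_lit 0) (.cons (.rf (nat_lit 1241) (nat_lit 14242959524133701664)) (.cons (.rf (nat_lit 1242) (nat_lit 14242959524133701664)) (.cons (.br (nat_lit 4) (nat_lit 0) (.cons (.rf (nat_lit 1241) (nat_lit 14242959524133701664)) (.cons (.rf (nat_lit 1242) (nat_lit 14242959524133701664)) .nil))) .nil)))) .nil)))),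
 (.br (nat_lit 9) (nat_lit 1) (.cons (.br (nat_lit 10) (nat_lit 0) (.cons (.br (nat_lit 11) (nat_lit 0) (.cons (.ev (nat_lit 158456334491781290321902633216) (nat_lit 2)) .nil)) .nil)) .nil)),
 (.br (nat_lit 4) (nat_lit 0) (.cons (.rf (nat_lit 642) (nat_lit 407901433484149824)) (.cons (.br (nat_lit 9) (nat_lit 1) (.cons (.rf (nat_lit 1244) (nat_lit 14242959524133701664)) (.cons (.rf (nat_lit 1244) (nat_lit 14208055560828487712)) .nil))) .nil))),
 (.br (nat_lit 10) (nat_lit 0) (.cons (.ev (nat_lit 1213666633123047522959361) (nat_lit 1)) .nil)),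
 (.br (nat_lit 9) (nat_lit 1) (.cons (.rf (nat_lit 437) (nat_lit 407899202283146304)) (.cons (.rf (nat_lit 1246) (nat_lit 14242959524133701664)) .nil))),
 (.br (nat_lit 4) (nat_lit 0) (.cons (.rf (nat_lit 642) (nat_lit 407901433484149824)) (.cons (.br (nat_lit 7) (nat_lit 1) (.cons (.rf (nat_lit 1247) (nat_lit 14242959524133701664)) (.cons (.br (nat_lit 9) (nat_lit 1) (.cons (.br (nat_lit 11) (nat_lit 0) (.cons (.ev (nat_lit 309489787528904584479244546) (nat_lit 2)) .nil)) (.cons (.rf (nat_lit 437) (nat_lit 372995240019135552)) .nil))) .nil))) .nil))),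
 (.br (nat_lit 3) (nat_lit 0) (.cons (.rf (nat_lit 641) (nat_lit 12745750555493440)) (.cons (.rf (nat_lit 642) (nat_lit 407900334007092288)) (.cons (.br (nat_lit 4) (nat_lit 0) (.cons (.rf (nat_lit 1245) (nat_lit 14242959524133701664)) (.cons (.rf (nat_lit 1248) (nat_lit 14242959524133701664)) (.cons (.br (nat_lit 4) (nat_lit 0) (.cons (.rf (nat_lit 1245) (nat_lit 14242959524133701664)) (.cons (.rf (nat_lit 1248) (nat_lit 14242959524133701664)) .nil))) .nil)))) .nil)))),
 (.br (nat_lit 3) (nat_lit 0) (.cons (.rf (nat_lit 642) (nat_lit 407901433485165632)) (.cons (.rf (nat_lit 642) (nat_lit 407900334007092288)) (.cons (.br (nat_lit 7) (nat_lit 1) (.cons (.rf (nat_lit 1249) (nat_lit 372997505546324000)) (.cons (.br (nat_lit 8) (nat_lit 1) (.cons (.rf (nat_lit 1243) (nat_lit 372997505546324000)) (.cons (.rf (nat_lit 1198) (nat_lit 407796948742014016)) (.cons (.br (nat_lit 4) (nat_lit 0) (.cons (.br (nat_lit 4) (nat_lit 0) (.cons (.ev (nat_lit 282578800148481) (nat_lit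 1)) .nil)) (.cons (.br (nat_lit 4) (nat_lit 0) (.cons (.ev (nat_lit 282578800148481) (nat_lit 1)) .nil)) .nil))) .nil)))) (.cons (.br (nat_lit 8) (nat_lit 1) (.cons (.rf (nat_lit 1243) (nat_lit 372997505546324000)) (.cons (.br (nat_lit 4) (nat_lit 0) (.cons (.br (nat_lit 4) (nat_lit 0) (.cons (.ev (nat_lit 282578800148481) (nat_lit 1)) .nil)) (.cons (.br (nat_lit 4) (nat_lit 0) (.cons (.ev (nat_lit 282578800148481) (nat_lit 1)) .nil)) .nil))) (.cons (.rf (nat_lit 1198) (nat_lit 372858901617542208)) .nil)))) .nil)))) .nil)))),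
 (.br (nat_lit 4) (nat_lit 0) (.cons (.br (nat_lit 10) (nat_lit 0) (.cons (.ev (nat_lit 158457548176932367322298122240) (nat_lit 2)) .nil)) .nil)),
 (.br (nat_lit 3) (nat_lit 0) (.cons (.rf (nat_lit 642) (nat_lit 407867348624704576)) (.cons (.rf (nat_lit 642) (nat_lit 407865149668557888)) (.cons (.br (nat_lit 7) (nat_lit 1) (.cons (.rf (nat_lit 1192) (nat_lit 372892953190990912)) (.cons (.br (nat_lit 9) (nat_lit 1) (.cons (.rf (nat_lit 1192) (nat_lit 372889755654947904)) (.cons (.rf (nat_lit 1198) (nat_lit 407795850304128064)) (.cons (.br (nat_lit 4) (nat_lit 0) (.cons (.rf (nat_lit 1246) (nat_lit 14242959524131606560)) (.cons (.br (nat_lit 4) (nat_lit 0) (.cons (.rf (nat_lit 1246) (nat_lit 14242959524131606560)) .nil)) .nil))) .nil)))) (.cons (.br (nat_lit 9) (nat_lit 1) (.cons (.rf (nat_lit 1192) (nat_lit 372889755654947904)) (.cons (.br (nat_lit 11) (nat_lit 0) (.cons (.ev (nat_lit 309485028268089142434398209) (nat_lit 1)) (.cons (.br (nat_lit 4) (nat_lit 0)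 (.cons (.rf (nat_lit 1251) (nat_lit 14242959524133701664)) (.cons (.br (nat_lit 4) (nat_lit 0) (.cons (.rf (nat_lit 1251) (nat_lit 14242959524133701664)) .nil)) .nil))) .nil))) (.cons (.rf (nat_lit 1198) (nat_lit 372857803179656256)) .nil)))) .nil)))) .nil)))),
 (.br (nat_lit 9) (nat_lit 1) (.cons (.br (nat_lit 10) (nat_lit 0) (.cons (.br (nat_lit 11) (nat_lit 0) (.cons (.ev (nat_lit 792604417892759170587468301070) (nat_lit 4)) .nil)) .nil)) .nil)),
 (.br (nat_lit 4) (nat_lit 0) (.cons (.rf (nat_lit 642) (nat_lit 407900334005027936)) (.cons (.br (nat_lit 9) (nat_lit 1) (.cons (.rf (nat_lit 1253) (nat_lit 14242959524133701664)) (.cons (.br (nat_lit 9) (nat_lit 1) (.cons (.rf (nat_lit 1253) (nat_lit 14242959524133701664)) .nil)) .nil))) .nil))),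
 (.br (nat_lit 4) (nat_lit 0) (.cons (.rf (nat_lit 642) (nat_lit 407900334005027936)) (.cons (.br (nat_lit 8) (nat_lit 1) (.cons (.br (nat_lit 9) (nat_lit 1) (.cons (.rf (nat_lit 437) (nat_lit 407899203323332704)) (.cons (.ev (nat_lit 4740885850790176162306) (nat_lit 2)) .nil))) (.cons (.br (nat_lit 9) (nat_lit 1) (.cons (.ev (nat_lit 4740885850790176162306) (nat_lit 2)) (.cons (.rf (nat_lit 437) (nat_lit 372995241059321952)) .nil))) .nil))) .nil))),
 (.br (nat_lit 4) (nat_lit 0) (.cons (.rf (nat_lit 642) (nat_lit 407865149666493536)) (.cons (.br (nat_lit 8) (nat_lit 1) (.cons (.br (nat_lit 9) (nat_lit 1) (.cons (.ev (nat_lit 4740885285636921098241) (nat_lit 1)) (.cons (.br (nat_lit 10) (nat_lit 0) (.cons (.br (nat_lit 11) (nat_lit 0) (.cons (.ev (nat_lit 317975861939267616782090500) (nat_lit 3)) .nil)) .nil)) .nil))) (.cons (.br (nat_lit 9) (nat_lit 1) (.cons (.br (nat_lit 10) (nat_lit 0) (.cons (.br (nat_lit 11) (nat_lit 0) (.cons (.ev (nat_lit 317947564779097461125874948)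 (nat_lit 3)) .nil)) .nil)) (.cons (.ev (nat_lit 4740885285636921098241) (nat_lit 1)) .nil))) .nil))) .nil))),
 (.br (nat_lit 4) (nat_lit 0) (.cons (.rf (nat_lit 642) (nat_lit 407865149666493536)) (.cons (.br (nat_lit 8) (nat_lit 1) (.cons (.br (nat_lit 8) (nat_lit 1) (.cons (.ev (nat_lit 4740885850790176162306) (nat_lit 2)) .nil)) (.cons (.br (nat_lit 8) (nat_lit 1) (.cons (.ev (nat_lit 4740885850790176162306) (nat_lit 2)) .nil)) .nil))) .nil))),
 (.br (nat_lit 10) (nat_lit 0) (.cons (.ev (nat_lit 1208944266358702884258049) (nat_lit 1)) (.cons (.rf (nat_lit 1189) (nat_lit 1520836379020620)) .nil))),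
 (.br (nat_lit 4) (nat_lit 0) (.cons (.br (nat_lit 8) (nat_lit 1) (.cons (.br (nat_lit 9) (nat_lit 1) (.cons (.ev (nat_lit 4740885566016664371201) (nat_lit 1)) (.cons (.br (nat_lit 10) (nat_lit 0) (.cons (.br (nat_lit 11) (nat_lit 0) (.cons (.ev (nat_lit 317975861940958674221990148) (nat_lit 3)) .nil)) .nil)) .nil))) (.cons (.br (nat_lit 9) (nat_lit 1) (.cons (.br (nat_lit 10) (nat_lit 0) (.cons (.br (nat_lit 11) (nat_lit 0) (.cons (.ev (nat_lit 317947564779097461125874948) (nat_lit 3)) .nil)) .nil)) (.cons (.ev (nat_lit 4740885566016664371201) (nat_lit 1)) .nil))) .nil))) (.cons (.br (nat_lit 8) (nat_lit 1) (.cons (.rf (nat_lit 1258) (nat_lit 14242959524133701664)) (.cons (.rf (nat_lit 1204) (nat_lit 14242959524133701664)) .nil))) .nil))),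
 (.br (nat_lit 8) (nat_lit 1) (.cons (.br (nat_lit 12) (nat_lit 1) (.cons (.ev (nat_lit 79229371458530697400234868736) (nat_lit 1)) (.cons (.ev (nat_lit 80156617599213284271272821505) (nat_lit 2)) .nil))) .nil)),
 (.br (nat_lit 4) (nat_lit 0) (.cons (.rf (nat_lit 1259) (nat_lit 14242959524133701664)) (.cons (.br (nat_lit 8) (nat_lit 1) (.cons (.rf (nat_lit 1260) (nat_lit 14242959524133701664)) (.cons (.br (nat_lit 8) (nat_lit 1) (.cons (.rf (nat_lit 1260) (nat_lit 14242959524133701664)) .nil)) .nil))) .nil))),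
 (.br (nat_lit 3) (nat_lit 0) (.cons (.br (nat_lit 4) (nat_lit 0) (.cons (.rf (nat_lit 1254) (nat_lit 14242959524133701664)) (.cons (.rf (nat_lit 1255) (nat_lit 14242959524133701664)) (.cons (.br (nat_lit 4) (nat_lit 0) (.cons (.rf (nat_lit 1254) (nat_lit 14242959524133701664)) (.cons (.rf (nat_lit 1255) (nat_lit 14242959524133701664)) .nil))) .nil)))) (.cons (.br (nat_lit 4) (nat_lit 0) (.cons (.rf (nat_lit 1256) (nat_lit 14242959524133701664)) (.cons (.rf (nat_lit 1257) (nat_lit 14242959524133701664)) (.cons (.br (nat_lit 4) (nat_lit 0) (.cons (.rf (nat_lit 1256) (nat_lit 14242959524133701664)) (.cons (.rf (nat_lit 1257) (nat_lit 14242959524133701664)) .nil))) .nil)))) (.cons (.br (nat_lit 4) (nat_lit 0) (.cons (.rf (nat_lit 1259) (nat_lit 14242959524133701664)) (.cons (.rf (nat_lit 1261) (nat_lit 14242959524133701664)) (.cons (.br (nat_lit 4) (nat_lit 0) (.cons (.rf (nat_lit 1259) (nat_lit 14242959524133701664)) (.cons (.rf (nat_lit 1261) (nat_lit 14242959524133701664))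 .nil))) .nil)))) .nil)))),
 (.br (nat_lit 9) (nat_lit 1) (.cons (.rf (nat_lit 641) (nat_lit 12746850098611296)) (.cons (.rf (nat_lit 437) (nat_lit 407828835684356192)) (.cons (.ev (nat_lit 4740885566012386181121) (nat_lit 1)) .nil)))),
 (.br (nat_lit 9) (nat_lit 1) (.cons (.ev (nat_lit 4759404650254655554306) (nat_lit 2)) (.cons (.rf (nat_lit 641) (nat_lit 12746850098611296)) (.cons (.ev (nat_lit 4740885566012386181121) (nat_lit 1)) (.cons (.rf (nat_lit 437) (nat_lit 372924873420345440)) .nil))))),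
 (.br (nat_lit 4) (nat_lit 0) (.cons (.br (nat_lit 9) (nat_lit 1) (.cons (.ev (nat_lit 4740885566016664371201) (nat_lit 1)) (.cons (.br (nat_lit 11) (nat_lit 0) (.cons (.rf (nat_lit 189) (nat_lit 444000703333140512)) .nil)) .nil))) (.cons (.br (nat_lit 10) (nat_lit 0) (.cons (.br (nat_lit 9) (nat_lit 1) (.cons (.br (nat_lit 11) (nat_lit 0) (.cons (.ev (nat_lit 313121268907773145324651780) (nat_lit 3)) .nil)) .nil)) (.cons (.rf (nat_lit 1192) (nat_lit 397731054007422284)) .nil))) .nil))),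
 (.br (nat_lit 4) (nat_lit 0) (.cons (.rf (nat_lit 1265) (nat_lit 14242959524133701664)) (.cons (.br (nat_lit 8) (nat_lit 1) (.cons (.ev (nat_lit 1208944266641281684340993) (nat_lit 1)) (.cons (.br (nat_lit 12) (nat_lit 1) (.cons (.rf (nat_lit 1192) (nat_lit 397731054007422284)) (.cons (.rf (nat_lit 1192) (nat_lit 47539900200882540)) .nil))) .nil))) .nil)))]

theorem c33 : chkAll C T R L33 (nat_lit 1233) = true := by decide +kernel

theorem l33 : (nat_lit 1233) + L33.length = (nat_lit 1267) := by decide +kernel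

/-- part of the certificates -/
def L34 : List Prf := [(.br (nat_lit 10) (nat_lit 0) (.cons (.ev (nat_lit 1208944266359802412728321) (nat_lit 1)) (.cons (.ev (nat_lit 79229371458530697395956678656) (nat_lit 1)) .nil))),
 (.br (nat_lit 4) (nat_lit 0) (.cons (.br (nat_lit 11) (nat_lit 0) (.cons (.ev (nat_lit 4740885566016664371201) (nat_lit 1)) (.cons (.rf (nat_lit 189) (nat_lit 444000703333140512)) .nil))) (.cons (.br (nat_lit 9) (nat_lit 1) (.cons (.rf (nat_lit 1267) (nat_lit 14242959524133701664)) (.cons (.br (nat_lit 9) (nat_lit 1) (.cons (.rf (nat_lit 1267) (nat_lit 14242959524133701664)) .nil)) .nil))) .nil))),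
 (.br (nat_lit 4) (nat_lit 0) (.cons (.rf (nat_lit 1268) (nat_lit 14242959524133701664)) (.cons (.br (nat_lit 8) (nat_lit 1) (.cons (.br (nat_lit 9) (nat_lit 1) (.cons (.br (nat_lit 11) (nat_lit 0) (.cons (.ev (nat_lit 158767019075283575202394734850) (nat_lit 3)) .nil)) (.cons (.br (nat_lit 10) (nat_lit 0) (.cons (.ev (nat_lit 79229376162522492686401798144) (nat_lit 1)) .nil)) .nil))) (.cons (.br (nat_lit 9) (nat_lit 1) (.cons (.br (nat_lit 10) (nat_lit 0) (.cons (.ev (nat_lit 792609300782378878130759076622) (nat_lit 4)) .nil)) .nil)) .nil))) .nil))),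
 (.br (nat_lit 3) (nat_lit 0) (.cons (.rf (nat_lit 1262) (nat_lit 14242959524133701664)) (.cons (.br (nat_lit 7) (nat_lit 1) (.cons (.br (nat_lit 4) (nat_lit 0) (.cons (.rf (nat_lit 642) (nat_lit 407832164284105824)) (.cons (.rf (nat_lit 642) (nat_lit 407831064806032480)) (.cons (.br (nat_lit 8) (nat_lit 1) (.cons (.br (nat_lit 9) (nat_lit 1) (.cons (.rf (nat_lit 440) (nat_lit 372858968186392640)) (.cons (.ev (nat_lit 4740885566012386181121) (nat_lit 1)) .nil))) (.cons (.br (nat_lit 9) (nat_lit 1) (.cons (.ev (nat_lit 4740885566012386181121) (nat_lit 1)) (.cons (.rf (nat_lit 440) (nat_lit 407797048596860992)) .nil))) .nil))) .nil)))) (.cons (.br (nat_lit 4) (nat_lit 0) (.cons (.rf (nat_lit 1263) (nat_lit 14242959524133701664)) (.cons (.br (nat_lit 4) (nat_lit 0) (.cons (.rf (nat_lit 641) (nat_lit 12746850098611296)) (.cons (.ev (nat_lit 282578800148481) (nat_lit 1)) .nil))) (.cons (.br (nat_lit 4) (nat_lit 0) (.cons (.rf (nat_lit 1263) (nat_lit 14242959524133701664))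 (.cons (.ev (nat_lit 282578800148481) (nat_lit 1)) .nil))) .nil)))) (.cons (.br (nat_lit 4) (nat_lit 0) (.cons (.rf (nat_lit 1264) (nat_lit 407901468851537952)) (.cons (.br (nat_lit 4) (nat_lit 0) (.cons (.rf (nat_lit 641) (nat_lit 12746850098611296)) (.cons (.ev (nat_lit 282578800148481) (nat_lit 1)) .nil))) (.cons (.br (nat_lit 4) (nat_lit 0) (.cons (.rf (nat_lit 1264) (nat_lit 407901468851537952)) (.cons (.ev (nat_lit 282578800148481) (nat_lit 1)) .nil))) .nil)))) .nil)))) (.cons (.br (nat_lit 7) (nat_lit 1) (.cons (.br (nat_lit 4) (nat_lit 0) (.cons (.br (nat_lit 11) (nat_lit 0) (.cons (.br (nat_lit 11) (nat_lit 0) (.cons (.rf (nat_lit 189) (nat_lit 444000634613663776)) .nil)) (.cons (.rf (nat_lit 189) (nat_lit 444000634613663776)) .nil))) (.cons (.br (nat_lit 8) (nat_lit 1) (.cons (.br (nat_lit 9) (nat_lit 1) (.cons (.rf (nat_lit 437) (nat_lit 407864020023937152)) (.cons (.ev (nat_lit 4740885285641199288321) (nat_lit 1)) .nil))) (.cons (.rf (nat_lit 1263)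 (nat_lit 14208055560827440160)) .nil))) (.cons (.br (nat_lit 8) (nat_lit 1) (.cons (.br (nat_lit 10) (nat_lit 0) (.cons (.ev (nat_lit 1208944266641281684340993) (nat_lit 1)) (.cons (.rf (nat_lit 933) (nat_lit 397766169693588812)) .nil))) (.cons (.br (nat_lit 11) (nat_lit 0) (.cons (.br (nat_lit 9) (nat_lit 1) (.cons (.br (nat_lit 10) (nat_lit 0) (.cons (.ev (nat_lit 792602018893694645299237553422) (nat_lit 4)) .nil)) .nil)) (.cons (.rf (nat_lit 1192) (nat_lit 47539900200882540)) .nil))) .nil))) .nil)))) (.cons (.br (nat_lit 4) (nat_lit 0) (.cons (.rf (nat_lit 1265) (nat_lit 14242959524133701664)) (.cons (.rf (nat_lit 1266) (nat_lit 14242959524133701664)) (.cons (.br (nat_lit 4) (nat_lit 0) (.cons (.rf (nat_lit 1265) (nat_lit 14242959524133701664)) (.cons (.rf (nat_lit 1266) (nat_lit 14242959524133701664)) .nil))) .nil)))) (.cons (.br (nat_lit 4) (nat_lit 0) (.cons (.rf (nat_lit 1268) (nat_lit 14242959524133701664)) (.cons (.rf (nat_lit 1269) (nat_lit 14242959524133701664))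 (.cons (.br (nat_lit 4) (nat_lit 0) (.cons (.rf (nat_lit 1268) (nat_lit 14242959524133701664)) (.cons (.rf (nat_lit 1269) (nat_lit 14242959524133701664)) .nil))) .nil)))) .nil)))) .nil)))),
 (.br (nat_lit 8) (nat_lit 1) (.cons (.br (nat_lit 8) (nat_lit 1) (.cons (.ev (nat_lit 4740885285641199288321) (nat_lit 1)) .nil)) (.cons (.br (nat_lit 8) (nat_lit 1) (.cons (.ev (nat_lit 4740885285641199288321) (nat_lit 1)) .nil)) .nil))),
 (.br (nat_lit 8) (nat_lit 1) (.cons (.br (nat_lit 9) (nat_lit 1) (.cons (.ev (nat_lit 1213648258156192386318593) (nat_lit 1)) (.cons (.ev (nat_lit 309489732260451780913201666) (nat_lit 2)) .nil))) .nil)),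
 (.br (nat_lit 4) (nat_lit 0) (.cons (.ev (nat_lit 282578800148481) (nat_lit 1)) (.cons (.br (nat_lit 12) (nat_lit 1) (.cons (.rf (nat_lit 1192) (nat_lit 397731054007422284)) (.cons (.br (nat_lit 8) (nat_lit 1) (.cons (.br (nat_lit 9) (nat_lit 1) (.cons (.ev (nat_lit 79229385607400138771368443905) (nat_lit 2)) .nil)) (.cons (.ev (nat_lit 309485028268371721234481153) (nat_lit 1)) .nil))) .nil))) .nil))),
 (.br (nat_lit 4) (nat_lit 0) (.cons (.ev (nat_lit 282578800148481) (nat_lit 1)) (.cons (.br (nat_lit 10) (nat_lit 0) (.cons (.br (nat_lit 8) (nat_lit 1) (.cons (.br (nat_lit 11) (nat_lit 0) (.cons (.ev (nat_lit 79231789347063979959325425665) (nat_lit 2)) .nil)) .nil)) (.cons (.rf (nat_lit 1192) (nat_lit 397731054007422284)) .nil))) .nil))),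
 (.br (nat_lit 4) (nat_lit 0) (.cons (.ev (nat_lit 282578800148481) (nat_lit 1)) (.cons (.br (nat_lit 8) (nat_lit 1) (.cons (.br (nat_lit 9) (nat_lit 1) (.cons (.ev (nat_lit 1208944266358702884258049) (nat_lit 1)) (.cons (.br (nat_lit 10) (nat_lit 0) (.cons (.ev (nat_lit 158771854704773927117745358082) (nat_lit 3)) .nil)) .nil))) (.cons (.br (nat_lit 9) (nat_lit 1) (.cons (.rf (nat_lit 1058) (nat_lit 14208056627020564512)) .nil)) .nil))) .nil))),
 (.br (nat_lit 8) (nat_lit 1) (.cons (.br (nat_lit 10) (nat_lit 0) (.cons (.ev (nat_lit 79229371458530697400234868736) (nat_lit 1)) .nil)) .nil)),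
 (.br (nat_lit 4) (nat_lit 0) (.cons (.ev (nat_lit 282578800148481) (nat_lit 1)) (.cons (.br (nat_lit 8) (nat_lit 1) (.cons (.rf (nat_lit 1276) (nat_lit 14242959524133701664)) (.cons (.br (nat_lit 8) (nat_lit 1) (.cons (.rf (nat_lit 1276) (nat_lit 14242959524133701664)) .nil)) .nil))) .nil))),
 (.br (nat_lit 3) (nat_lit 0) (.cons (.rf (nat_lit 1262) (nat_lit 14242959524133701664)) (.cons (.rf (nat_lit 1270) (nat_lit 14242959524133701664)) (.cons (.br (nat_lit 7) (nat_lit 1) (.cons (.br (nat_lit 4) (nat_lit 0) (.cons (.br (nat_lit 8) (nat_lit 1) (.cons (.br (nat_lit 9) (nat_lit 1) (.cons (.ev (nat_lit 1208944266358702884258049) (nat_lit 1)) (.cons (.br (nat_lit 10) (nat_lit 0) (.cons (.br (nat_lit 11) (nat_lit 0) (.cons (.ev (nat_lit 334938788256032286385707792) (nat_lit 5)) .nil)) .nil)) .nil))) (.cons (.br (nat_lit 9) (nat_lit 1) (.cons (.br (nat_lit 10) (nat_lit 0) (.cons (.br (nat_lit 11) (nat_lit 0) (.cons (.zr (nat_lit 7253554990026856947778304) (nat_lit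 79228167291971053783879909377) (nat_lit 10) (nat_lit 5)) .nil)) .nil)) (.cons (.ev (nat_lit 4740885850785897972226) (nat_lit 2)) .nil))) .nil))) (.cons (.rf (nat_lit 1271) (nat_lit 14242959524133701664)) (.cons (.br (nat_lit 8) (nat_lit 1) (.cons (.rf (nat_lit 1272) (nat_lit 14242959524133701664)) (.cons (.br (nat_lit 8) (nat_lit 1) (.cons (.rf (nat_lit 1272) (nat_lit 14242959524133701664)) .nil)) .nil))) .nil)))) (.cons (.br (nat_lit 4) (nat_lit 0) (.cons (.rf (nat_lit 1273) (nat_lit 14242959524133701664)) (.cons (.rf (nat_lit 1274) (nat_lit 14242959524133701664)) (.cons (.br (nat_lit 4) (nat_lit 0) (.cons (.rf (nat_lit 1273) (nat_lit 14242959524133701664)) (.cons (.rf (nat_lit 1274) (nat_lit 14242959524133701664)) .nil))) .nil)))) (.cons (.br (nat_lit 4) (nat_lit 0) (.cons (.rf (nat_lit 1275) (nat_lit 14242959524133701664)) (.cons (.rf (nat_lit 1277) (nat_lit 14242959524133701664)) (.cons (.br (nat_lit 4) (nat_lit 0) (.cons (.rf (nat_lit 1275) (nat_lit 14242959524133701664))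 (.cons (.rf (nat_lit 1277) (nat_lit 14242959524133701664)) .nil))) .nil)))) .nil)))) .nil)))),
 (.br (nat_lit 2) (nat_lit 0) (.cons (.br (nat_lit 3) (nat_lit 0) (.cons (.rf (nat_lit 1243) (nat_lit 407901468851537952)) (.cons (.rf (nat_lit 1249) (nat_lit 407901468851537952)) (.cons (.rf (nat_lit 1250) (nat_lit 407901468851537952)) (.cons (.br (nat_lit 3) (nat_lit 0) (.cons (.rf (nat_lit 1243) (nat_lit 407901468851537952)) (.cons (.rf (nat_lit 1249) (nat_lit 407901468851537952)) (.cons (.rf (nat_lit 1250) (nat_lit 407901468851537952)) .nil)))) .nil))))) (.cons (.br (nat_lit 3) (nat_lit 0) (.cons (.rf (nat_lit 1192) (nat_lit 407795850304128064)) (.cons (.rf (nat_lit 1252) (nat_lit 407901468851537952)) (.cons (.rf (nat_lit 1192) (nat_lit 407792652768085056)) (.cons (.br (nat_lit 3) (nat_lit 0) (.cons (.rf (nat_lit 1192) (nat_lit 407795850304128064)) (.cons (.rf (nat_lit 1252) (nat_lit 407901468851537952)) (.cons (.rf (nat_lit 1192) (nat_lit 407792652768085056)) .nil))))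 .nil))))) (.cons (.br (nat_lit 3) (nat_lit 0) (.cons (.rf (nat_lit 1262) (nat_lit 14242959524133701664)) (.cons (.rf (nat_lit 1270) (nat_lit 14242959524133701664)) (.cons (.rf (nat_lit 1278) (nat_lit 14242959524133701664)) (.cons (.br (nat_lit 3) (nat_lit 0) (.cons (.rf (nat_lit 1262) (nat_lit 14242959524133701664)) (.cons (.rf (nat_lit 1270) (nat_lit 14242959524133701664)) (.cons (.rf (nat_lit 1278) (nat_lit 14242959524133701664)) .nil)))) .nil))))) .nil)))),
 (.br (nat_lit 7) (nat_lit 1) (.cons (.br (nat_lit 4) (nat_lit 0) (.cons (.ev (nat_lit 18519084246547562753) (nat_lit 1)) (.cons (.rf (nat_lit 642) (nat_lit 407901433483101280)) (.cons (.br (nat_lit 8) (nat_lit 1) (.cons (.br (nat_lit 10) (nat_lit 0) (.cons (.rf (nat_lit 437) (nat_lit 407899203321237600)) (.cons (.rf (nat_lit 189) (nat_lit 445090283957356576)) .nil))) (.cons (.rf (nat_lit 1247) (nat_lit 14208055560827440160)) .nil))) .nil)))) (.cons (.br (nat_lit 10) (nat_lit 0) (.cons (.rf (nat_lit 1198)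 (nat_lit 407796948741981280)) (.cons (.kr (nat_lit 72057594037927936) (nat_lit 1208925819614629174706176) (nat_lit 7) (nat_lit 0)) (.cons (.br (nat_lit 8) (nat_lit 1) (.cons (.br (nat_lit 4) (nat_lit 0) (.cons (.rf (nat_lit 642) (nat_lit 407900334005027936)) (.cons (.br (nat_lit 9) (nat_lit 1) (.cons (.rf (nat_lit 498) (nat_lit 11939226446692683872)) .nil)) .nil))) (.cons (.br (nat_lit 11) (nat_lit 0) (.cons (.ev (nat_lit 309485009893685237251047681) (nat_lit 1)) (.cons (.ev (nat_lit 310693935641242272387825921) (nat_lit 1)) .nil))) .nil))) .nil)))) (.cons (.br (nat_lit 11) (nat_lit 0) (.cons (.rf (nat_lit 1198) (nat_lit 372858901617509472)) (.cons (.ev (nat_lit 309485009893402662762709249) (nat_lit 1)) (.cons (.br (nat_lit 8) (nat_lit 1) (.cons (.br (nat_lit 4) (nat_lit 0) (.cons (.rf (nat_lit 642) (nat_lit 407900334005027936)) (.cons (.br (nat_lit 9) (nat_lit 1) (.cons (.br (nat_lit 10) (nat_lit 0) (.cons (.ev (nat_lit 79228167255149622130936709376) (nat_lit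 1)) .nil)) .nil)) .nil))) (.cons (.ev (nat_lit 309485028268371716922736641) (nat_lit 1)) .nil))) .nil)))) .nil)))),
 (.br (nat_lit 11) (nat_lit 0) (.cons (.ev (nat_lit 309485009893685237251047681) (nat_lit 1)) (.cons (.br (nat_lit 10) (nat_lit 0) (.cons (.br (nat_lit 8) (nat_lit 1) (.cons (.br (nat_lit 4) (nat_lit 0) (.cons (.ev (nat_lit 79228167255149622130936709376) (nat_lit 1)) .nil)) .nil)) (.cons (.rf (nat_lit 582) (nat_lit 1414286806190412)) .nil))) .nil))),
 (.br (nat_lit 4) (nat_lit 0) (.cons (.br (nat_lit 8) (nat_lit 1) (.cons (.ev (nat_lit 18519084242235818241) (nat_lit 1)) (.cons (.rf (nat_lit 1281) (nat_lit 14208055560828487712)) .nil))) .nil)),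
 (.br (nat_lit 3) (nat_lit 0) (.cons (.rf (nat_lit 1280) (nat_lit 14242959524133701664)) (.cons (.br (nat_lit 4) (nat_lit 0) (.cons (.br (nat_lit 4) (nat_lit 0) (.cons (.rf (nat_lit 642) (nat_lit 407867348622640224)) (.cons (.ev (nat_lit 4722366764348916957441) (nat_lit 1)) .nil))) (.cons (.br (nat_lit 4) (nat_lit 0) (.cons (.rf (nat_lit 642) (nat_lit 407867348622640224)) (.cons (.ev (nat_lit 282578800148481) (nat_lit 1)) .nil))) (.cons (.br (nat_lit 4) (nat_lit 0) (.cons (.ev (nat_lit 4722366764348916957441) (nat_lit 1)) (.cons (.ev (nat_lit 282578800148481) (nat_lit 1)) .nil))) .nil)))) (.cons (.br (nat_lit 7) (nat_lit 1) (.cons (.br (nat_lit 4) (nat_lit 0) (.cons (.rf (nat_lit 1280) (nat_lit 14208055560828487712)) (.cons (.rf (nat_lit 1271) (nat_lit 14242959524133669920)) (.cons (.br (nat_lit 8) (nat_lit 1) (.cons (.br (nat_lit 8) (nat_lit 1) (.cons (.ev (nat_lit 18519084242235818241) (nat_lit 1)) .nil)) (.cons (.br (nat_lit 8) (nat_lit 1) (.cons (.ev (nat_lit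 18519084242235818241) (nat_lit 1)) .nil)) .nil))) .nil)))) (.cons (.br (nat_lit 9) (nat_lit 1) (.cons (.br (nat_lit 4) (nat_lit 0) (.cons (.ev (nat_lit 282578800148481) (nat_lit 1)) (.cons (.br (nat_lit 10) (nat_lit 0) (.cons (.br (nat_lit 8) (nat_lit 1) (.cons (.br (nat_lit 11) (nat_lit 0) (.cons (.ev (nat_lit 79228167255149622130936709376) (nat_lit 1)) .nil)) .nil)) (.cons (.rf (nat_lit 957) (nat_lit 397731054007422284)) .nil))) .nil))) (.cons (.kr (nat_lit 72057594037927936) (nat_lit 1208925819614629174706176) (nat_lit 7) (nat_lit 0)) (.cons (.rf (nat_lit 1281) (nat_lit 14242959524133701664)) .nil)))) (.cons (.br (nat_lit 9) (nat_lit 1) (.cons (.br (nat_lit 4) (nat_lit 0) (.cons (.ev (nat_lit 282578800148481) (nat_lit 1)) (.cons (.br (nat_lit 11) (nat_lit 0) (.cons (.br (nat_lit 8) (nat_lit 1) (.cons (.br (nat_lit 10) (nat_lit 0) (.cons (.ev (nat_lit 79228167255149622130936709376) (nat_lit 1)) .nil)) .nil)) (.cons (.rf (nat_lit 1189) (nat_lit 1487817710604652))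 .nil))) .nil))) (.cons (.br (nat_lit 4) (nat_lit 0) (.cons (.rf (nat_lit 1282) (nat_lit 14242959524133701664)) (.cons (.br (nat_lit 4) (nat_lit 0) (.cons (.rf (nat_lit 1282) (nat_lit 14242959524133701664)) .nil)) .nil))) (.cons (.ev (nat_lit 309485009893402662762709249) (nat_lit 1)) .nil)))) .nil)))) .nil)))),
 (.br (nat_lit 4) (nat_lit 0) (.cons (.ev (nat_lit 4722366764348916957441) (nat_lit 1)) (.cons (.rf (nat_lit 1283) (nat_lit 14208055560828487712)) .nil))),
 (.br (nat_lit 7) (nat_lit 1) (.cons (.br (nat_lit 9) (nat_lit 1) (.cons (.br (nat_lit 11) (nat_lit 0) (.cons (.ev (nat_lit 79228167255149622130936709376) (nat_lit 1)) .nil)) .nil)) (.cons (.ev (nat_lit 18519084242235818241) (nat_lit 1)) .nil))),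
 (.br (nat_lit 4) (nat_lit 0) (.cons (.ev (nat_lit 4722366483969173684481) (nat_lit 1)) (.cons (.br (nat_lit 7) (nat_lit 1) (.cons (.ev (nat_lit 18519084242235818241) (nat_lit 1)) (.cons (.rf (nat_lit 1285) (nat_lit 14208055560828487712)) .nil))) .nil))),
 (.br (nat_lit 3) (nat_lit 0) (.cons (.rf (nat_lit 1283) (nat_lit 14242959524133701664)) (.cons (.br (nat_lit 4) (nat_lit 0) (.cons (.br (nat_lit 4) (nat_lit 0) (.cons (.rf (nat_lit 642) (nat_lit 407832164284105824)) (.cons (.ev (nat_lit 282578800148481) (nat_lit 1)) .nil))) (.cons (.rf (nat_lit 1283) (nat_lit 14208055560828487712)) (.cons (.rf (nat_lit 1284) (nat_lit 14242959524133701664)) .nil)))) (.cons (.br (nat_lit 8) (nat_lit 1) (.cons (.rf (nat_lit 1283) (nat_lit 14208055560828487712)) (.cons (.br (nat_lit 4) (nat_lit 0) (.cons (.br (nat_lit 4) (nat_lit 0) (.cons (.ev (nat_lit 282578800148481) (nat_lit 1)) (.cons (.rf (nat_lit 1285) (nat_lit 14242959524133701664)) .nil))) (.cons (.ev (nat_lit 4722366483969173684481)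 (nat_lit 1)) (.cons (.br (nat_lit 4) (nat_lit 0) (.cons (.rf (nat_lit 1285) (nat_lit 14242959524133701664)) (.cons (.ev (nat_lit 4722366483969173684481) (nat_lit 1)) .nil))) .nil)))) (.cons (.br (nat_lit 4) (nat_lit 0) (.cons (.rf (nat_lit 1286) (nat_lit 14242959524133701664)) (.cons (.ev (nat_lit 4722366483969173684481) (nat_lit 1)) (.cons (.br (nat_lit 4) (nat_lit 0) (.cons (.rf (nat_lit 1286) (nat_lit 14242959524133701664)) (.cons (.ev (nat_lit 4722366483969173684481) (nat_lit 1)) .nil))) .nil)))) .nil)))) .nil)))),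
 (.br (nat_lit 4) (nat_lit 0) (.cons (.rf (nat_lit 1287) (nat_lit 14208055560828487712)) (.cons (.rf (nat_lit 1283) (nat_lit 14208055560828487712)) (.cons (.rf (nat_lit 1284) (nat_lit 14242959524133701664)) .nil)))),
 (.br (nat_lit 2) (nat_lit 0) (.cons (.rf (nat_lit 1279) (nat_lit 407901468851537952)) (.cons (.rf (nat_lit 1279) (nat_lit 372997505546324000)) (.cons (.br (nat_lit 3) (nat_lit 0) (.cons (.rf (nat_lit 1283) (nat_lit 14242959524133701664)) (.cons (.rf (nat_lit 1287) (nat_lit 14242959524133701664)) (.cons (.rf (nat_lit 1288) (nat_lit 14242959524133701664)) (.cons (.br (nat_lit 3) (nat_lit 0) (.cons (.rf (nat_lit 1283) (nat_lit 14242959524133701664)) (.cons (.rf (nat_lit 1287) (nat_lit 14242959524133701664)) (.cons (.rf (nat_lit 1288) (nat_lit 14242959524133701664)) .nil)))) .nil))))) .nil)))),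
 (.br (nat_lit 6) (nat_lit 1) (.cons (.rf (nat_lit 957) (nat_lit 407900402659461152)) (.cons (.rf (nat_lit 1192) (nat_lit 407900402659461152)) (.cons (.rf (nat_lit 1192) (nat_lit 372997505546324000)) (.cons (.br (nat_lit 2) (nat_lit 0) (.cons (.rf (nat_lit 1226) (nat_lit 407901468851537952)) (.cons (.rf (nat_lit 1226) (nat_lit 407900402659461152)) (.cons (.rf (nat_lit 1239) (nat_lit 407901468851537952)) (.cons (.br (nat_lit 2) (nat_lit 0) (.cons (.rf (nat_lit 1226) (nat_lit 407901468851537952)) (.cons (.rf (nat_lit 1226) (nat_lit 407900402659461152)) (.cons (.rf (nat_lit 1239) (nat_lit 407901468851537952)) .nil)))) .nil))))) (.cons (.br (nat_lit 2) (nat_lit 0) (.cons (.rf (nat_lit 1279) (nat_lit 407901468851537952)) (.cons (.rf (nat_lit 1279) (nat_lit 372997505546324000)) (.cons (.rf (nat_lit 1289) (nat_lit 407901468851537952)) (.cons (.br (nat_lit 2) (nat_lit 0) (.cons (.rf (nat_lit 1279) (nat_lit 407901468851537952)) (.cons (.rf (nat_lit 1279) (nat_lit 372997505546324000))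 (.cons (.rf (nat_lit 1289) (nat_lit 407901468851537952)) .nil)))) .nil))))) .nil))))))]

theorem c34 : chkAll C T R L34 (nat_lit 1267) = true := by decide +kernel

theorem l34 : (nat_lit 1267) + L34.length = (nat_lit 1291) := by decide +kernel

/-- part of the certificates -/
def L35 : List Prf := [(.br (nat_lit 5) (nat_lit 1) (.cons (.rf (nat_lit 957) (nat_lit 407901468851537952)) (.cons (.rf (nat_lit 1192) (nat_lit 407901468851537952)) (.cons (.rf (nat_lit 1192) (nat_lit 372998571738400800)) (.cons (.rf (nat_lit 1290) (nat_lit 407901468851537952)) (.cons (.rf (nat_lit 1290) (nat_lit 372998571738400800)) .nil)))))),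
 (.br (nat_lit 3) (nat_lit 0) (.cons (.br (nat_lit 7) (nat_lit 1) (.cons (.rf (nat_lit 960) (nat_lit 372998504125170784)) (.cons (.rf (nat_lit 992) (nat_lit 407797017394351136)) (.cons (.rf (nat_lit 865) (nat_lit 407899271975766048)) .nil)))) (.cons (.rf (nat_lit 875) (nat_lit 407899271975766048)) (.cons (.br (nat_lit 4) (nat_lit 0) (.cons (.rf (nat_lit 866) (nat_lit 14242958392409819168)) (.cons (.rf (nat_lit 338) (nat_lit 443859865986794560)) (.cons (.rf (nat_lit 867) (nat_lit 14242958392409819168)) .nil)))) .nil)))),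
 (.br (nat_lit 8) (nat_lit 1) (.cons (.rf (nat_lit 853) (nat_lit 407900337127655456)) (.cons (.rf (nat_lit 853) (nat_lit 372997440014518304)) (.cons (.rf (nat_lit 1292) (nat_lit 407901468851537952)) (.cons (.rf (nat_lit 1292) (nat_lit 372998571738400800)) .nil))))),
 (.br (nat_lit 9) (nat_lit 1) (.cons (.zr (nat_lit 4740813226943354766080) (nat_lit 1099511758849) (nat_lit 5) (nat_lit 8)) (.cons (.rf (nat_lit 353) (nat_lit 12746887579961376)) (.cons (.rf (nat_lit 341) (nat_lit 12746887579961376)) .nil)))),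
 (.br (nat_lit 7) (nat_lit 1) (.cons (.br (nat_lit 4) (nat_lit 0) (.cons (.rf (nat_lit 1294) (nat_lit 407901468851537952)) (.cons (.rf (nat_lit 852) (nat_lit 372961191564280896)) (.cons (.br (nat_lit 8) (nat_lit 1) (.cons (.br (nat_lit 9) (nat_lit 1) (.cons (.rf (nat_lit 437) (nat_lit 407832167406733344)) .nil)) (.cons (.br (nat_lit 9) (nat_lit 1) (.cons (.rf (nat_lit 437) (nat_lit 407831068968846400)) (.cons (.br (nat_lit 10) (nat_lit 0) (.cons (.br (nat_lit 11) (nat_lit 0) (.cons (.ev (nat_lit 79538861190718805709791756288) (nat_lit 1)) .nil)) .nil)) .nil))) .nil))) .nil)))) (.cons (.br (nat_lit 4) (nat_lit 0) (.cons (.rf (nat_lit 875) (nat_lit 372858900576273536)) (.cons (.rf (nat_lit 799) (nat_lit 372893017682513984)) (.cons (.kr (nat_lit 72057594054705408) (nat_lit 281479271743488) (nat_lit 1) (nat_lit 0)) .nil)))) .nil))),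
 (.br (nat_lit 8) (nat_lit 1) (.cons (.rf (nat_lit 625) (nat_lit 443929134145540128)) (.cons (.rf (nat_lit 802) (nat_lit 14207984096834094144)) .nil))),
 (.br (nat_lit 7) (nat_lit 1) (.cons (.rf (nat_lit 1295) (nat_lit 14242959524133701664)) (.cons (.br (nat_lit 4) (nat_lit 0) (.cons (.br (nat_lit 4) (nat_lit 0) (.cons (.ev (nat_lit 4740885566016664371201) (nat_lit 1)) (.cons (.rf (nat_lit 858) (nat_lit 14208055495296682016)) .nil))) (.cons (.br (nat_lit 4) (nat_lit 0) (.cons (.ev (nat_lit 4740885566016664371201) (nat_lit 1)) (.cons (.rf (nat_lit 1296) (nat_lit 14242959524133701664)) .nil))) (.cons (.br (nat_lit 4) (nat_lit 0) (.cons (.rf (nat_lit 858) (nat_lit 14208055495296682016)) (.cons (.rf (nat_lit 1296) (nat_lit 14242959524133701664)) .nil))) .nil)))) .nil))),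
 (.br (nat_lit 3) (nat_lit 0) (.cons (.br (nat_lit 7) (nat_lit 1) (.cons (.rf (nat_lit 1293) (nat_lit 407867350705079360)) (.cons (.rf (nat_lit 976) (nat_lit 407900337127623712)) (.cons (.rf (nat_lit 642) (nat_lit 407901468851506208)) .nil)))) (.cons (.rf (nat_lit 799) (nat_lit 407832164286139424)) (.cons (.rf (nat_lit 875) (nat_lit 407760731497334880)) (.cons (.br (nat_lit 7) (nat_lit 1) (.cons (.rf (nat_lit 1295) (nat_lit 14242959524133701664)) (.cons (.rf (nat_lit 1297) (nat_lit 14242959524133701664)) (.cons (.br (nat_lit 7) (nat_lit 1) (.cons (.rf (nat_lit 1295) (nat_lit 14242959524133701664)) (.cons (.rf (nat_lit 1297) (nat_lit 14242959524133701664)) .nil))) .nil)))) .nil))))),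
 (.br (nat_lit 10) (nat_lit 0) (.cons (.br (nat_lit 11) (nat_lit 0) (.cons (.ev (nat_lit 79537652264899192180111835136) (nat_lit 1)) .nil)) .nil)),
 (.br (nat_lit 7) (nat_lit 1) (.cons (.br (nat_lit 4) (nat_lit 0) (.cons (.ev (nat_lit 282578783305729) (nat_lit 1)) (.cons (.ev (nat_lit 282578783371521) (nat_lit 1)) (.cons (.br (nat_lit 8) (nat_lit 1) (.cons (.br (nat_lit 9) (nat_lit 1) (.cons (.ev (nat_lit 1208925819896108463226881) (nat_lit 1)) (.cons (.br (nat_lit 10) (nat_lit 0) (.cons (.br (nat_lit 11) (nat_lit 0) (.cons (.ev (nat_lit 79538861190718805709791756288) (nat_lit 1)) .nil)) .nil)) .nil))) (.cons (.br (nat_lit 9) (nat_lit 1) (.cons (.rf (nat_lit 1299) (nat_lit 14242959524133701664)) (.cons (.ev (nat_lit 309485009893402667074453761) (nat_lit 1)) .nil))) .nil))) .nil)))) (.cons (.rf (nat_lit 1298) (nat_lit 372964453591942208)) .nil))),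
 (.br (nat_lit 4) (nat_lit 0) (.cons (.rf (nat_lit 365) (nat_lit 12746887579961376)) (.cons (.br (nat_lit 11) (nat_lit 0) (.cons (.rf (nat_lit 328) (nat_lit 407899268854124576)) (.cons (.kr (nat_lit 309485009821345068724781312) (nat_lit 1103806595072) (nat_lit 1) (nat_lit 0)) .nil))) .nil))),
 (.br (nat_lit 7) (nat_lit 1) (.cons (.rf (nat_lit 1300) (nat_lit 14242959524133701664)) (.cons (.br (nat_lit 4) (nat_lit 0) (.cons (.rf (nat_lit 1301) (nat_lit 14242959524133701664)) (.cons (.rf (nat_lit 1301) (nat_lit 14242925439273239616)) (.cons (.br (nat_lit 4) (nat_lit 0) (.cons (.rf (nat_lit 1301) (nat_lit 14242959524133701664)) (.cons (.rf (nat_lit 1301) (nat_lit 14242925439273239616)) .nil))) .nil)))) .nil))),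
 (.br (nat_lit 6) (nat_lit 1) (.cons (.rf (nat_lit 1293) (nat_lit 407901468851537952)) (.cons (.rf (nat_lit 1298) (nat_lit 407901468851537952)) (.cons (.br (nat_lit 3) (nat_lit 0) (.cons (.br (nat_lit 7) (nat_lit 1) (.cons (.rf (nat_lit 1293) (nat_lit 407867350705079360)) (.cons (.rf (nat_lit 642) (nat_lit 372998571739384864)) (.cons (.rf (nat_lit 834) (nat_lit 407832167406733344)) .nil)))) (.cons (.rf (nat_lit 852) (nat_lit 407900337127655456)) (.cons (.rf (nat_lit 1294) (nat_lit 372964453591942208)) (.cons (.br (nat_lit 7) (nat_lit 1) (.cons (.rf (nat_lit 1300) (nat_lit 14242959524133701664)) (.cons (.rf (nat_lit 1302) (nat_lit 14242959524133701664)) (.cons (.br (nat_lit 7) (nat_lit 1) (.cons (.rf (nat_lit 1298) (nat_lit 372964453591942208)) (.cons (.rf (nat_lit 1302) (nat_lit 14242959524133701664)) .nil))) .nil)))) .nil))))) .nil)))),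
 (.br (nat_lit 4) (nat_lit 0) (.cons (.zr (nat_lit 4740813226943354766080) (nat_lit 1099511758849) (nat_lit 5) (nat_lit 8)) (.cons (.br (nat_lit 4) (nat_lit 0) (.cons (.zr (nat_lit 4740813226943354766080) (nat_lit 1099511758849) (nat_lit 5) (nat_lit 8)) .nil)) .nil))),
 (.br (nat_lit 7) (nat_lit 1) (.cons (.rf (nat_lit 1303) (nat_lit 407867350705079360)) (.cons (.rf (nat_lit 1303) (nat_lit 372964453591942208)) (.cons (.br (nat_lit 3) (nat_lit 0) (.cons (.rf (nat_lit 1304) (nat_lit 407901468851537952)) (.cons (.rf (nat_lit 1304) (nat_lit 407867350705079360)) (.cons (.br (nat_lit 3) (nat_lit 0) (.cons (.rf (nat_lit 1304) (nat_lit 407901468851537952)) (.cons (.rf (nat_lit 1304) (nat_lit 407867350705079360)) .nil))) .nil)))) .nil)))),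
 (.br (nat_lit 6) (nat_lit 1) (.cons (.rf (nat_lit 1303) (nat_lit 407901468851537952)) (.cons (.rf (nat_lit 1303) (nat_lit 372998571738400800)) (.cons (.br (nat_lit 7) (nat_lit 1) (.cons (.rf (nat_lit 1303) (nat_lit 407867350705079360)) (.cons (.rf (nat_lit 1303) (nat_lit 372964453591942208)) (.cons (.rf (nat_lit 1305) (nat_lit 407901468851537952)) (.cons (.rf (nat_lit 1305) (nat_lit 372998571738400800)) .nil))))) .nil)))),
 (.br (nat_lit 7) (nat_lit 1) (.cons (.br (nat_lit 10) (nat_lit 0) (.cons (.br (nat_lit 11) (nat_lit 0) (.cons (.ev (nat_lit 475684514279919999887499134726) (nat_lit 3)) .nil)) .nil)) .nil)),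
 (.br (nat_lit 3) (nat_lit 0) (.cons (.br (nat_lit 4) (nat_lit 0) (.cons (.rf (nat_lit 962) (nat_lit 13836433842373728)) (.cons (.rf (nat_lit 922) (nat_lit 14242890222688897056)) (.cons (.br (nat_lit 7) (nat_lit 1) (.cons (.rf (nat_lit 582) (nat_lit 443929134145540128)) (.cons (.br (nat_lit 9) (nat_lit 1) (.cons (.rf (nat_lit 920) (nat_lit 14242957327257929760)) (.cons (.br (nat_lit 9) (nat_lit 1) (.cons (.rf (nat_lit 920) (nat_lit 14242957327257929760)) .nil)) .nil))) .nil))) .nil)))) (.cons (.br (nat_lit 4) (nat_lit 0) (.cons (.rf (nat_lit 916) (nat_lit 443860964425697312)) (.cons (.rf (nat_lit 986) (nat_lit 13694702069089376)) (.cons (.br (nat_lit 9) (nat_lit 1) (.cons (.rf (nat_lit 582) (nat_lit 443860964424618016)) (.cons (.br (nat_lit 7) (nat_lit 1) (.cons (.rf (nat_lit 1307) (nat_lit 14242959524133701664)) (.cons (.br (nat_lit 7) (nat_lit 1) (.cons (.rf (nat_lit 1307) (nat_lit 14242959524133701664)) .nil)) .nil))) .nil))) .nil)))) (.cons (.rf (nat_lit 934)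 (nat_lit 14242958392409819168)) .nil)))),
 (.br (nat_lit 4) (nat_lit 0) (.cons (.rf (nat_lit 338) (nat_lit 443928000340200576)) (.cons (.rf (nat_lit 1070) (nat_lit 14208022473505638496)) (.cons (.br (nat_lit 8) (nat_lit 1) (.cons (.rf (nat_lit 582) (nat_lit 443928068993650720)) (.cons (.rf (nat_lit 930) (nat_lit 14207952175563409440)) .nil))) .nil)))),
 (.br (nat_lit 4) (nat_lit 0) (.cons (.rf (nat_lit 485) (nat_lit 12745785921865760)) (.cons (.br (nat_lit 8) (nat_lit 1) (.cons (.rf (nat_lit 486) (nat_lit 374124471646259232)) (.cons (.rf (nat_lit 951) (nat_lit 14208055495296682016)) .nil))) .nil))),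
 (.br (nat_lit 4) (nat_lit 0) (.cons (.rf (nat_lit 485) (nat_lit 11584701642934304)) (.cons (.br (nat_lit 4) (nat_lit 0) (.cons (.rf (nat_lit 485) (nat_lit 11584701642934304)) (.cons (.rf (nat_lit 1310) (nat_lit 13052988875717314592)) .nil))) (.cons (.rf (nat_lit 1310) (nat_lit 13052988875717314592)) .nil)))),
 (.br (nat_lit 10) (nat_lit 0) (.cons (.ev (nat_lit 1208925891672227524378881) (nat_lit 1)) .nil)),
 (.br (nat_lit 4) (nat_lit 0) (.cons (.rf (nat_lit 642) (nat_lit 407898170415254560)) (.cons (.br (nat_lit 9) (nat_lit 1) (.cons (.rf (nat_lit 1312) (nat_lit 14242959524133701664)) (.cons (.br (nat_lit 9) (nat_lit 1) (.cons (.rf (nat_lit 1312) (nat_lit 14242959524133701664)) .nil)) .nil))) .nil))),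
 (.br (nat_lit 4) (nat_lit 0) (.cons (.rf (nat_lit 642) (nat_lit 407898170415254560)) (.cons (.br (nat_lit 9) (nat_lit 1) (.cons (.br (nat_lit 8) (nat_lit 1) (.cons (.rf (nat_lit 437) (nat_lit 407900337127655456)) (.cons (.br (nat_lit 10) (nat_lit 0) (.cons (.br (nat_lit 11) (nat_lit 0) (.cons (.ev (nat_lit 322811529047630875264749320) (nat_lit 4)) .nil)) .nil)) .nil))) (.cons (.ev (nat_lit 4722438540463683141889) (nat_lit 1)) .nil))) .nil))),
 (.br (nat_lit 9) (nat_lit 1) (.cons (.br (nat_lit 11) (nat_lit 0) (.cons (.ev (nat_lit 79228167255077846016170393856) (nat_lit 1)) .nil)) .nil)),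
 (.br (nat_lit 8) (nat_lit 1) (.cons (.rf (nat_lit 589) (nat_lit 443929134146587680)) (.cons (.br (nat_lit 9) (nat_lit 1) (.cons (.rf (nat_lit 1315) (nat_lit 14242959524133701664)) (.cons (.br (nat_lit 9) (nat_lit 1) (.cons (.rf (nat_lit 1315) (nat_lit 14242959524133701664)) .nil)) .nil))) .nil))),
 (.br (nat_lit 8) (nat_lit 1) (.cons (.rf (nat_lit 937) (nat_lit 14242890222688897056)) (.cons (.rf (nat_lit 937) (nat_lit 14207952175563409440)) .nil))),
 (.br (nat_lit 7) (nat_lit 1) (.cons (.br (nat_lit 4) (nat_lit 0) (.cons (.rf (nat_lit 625) (nat_lit 443790594707327104)) (.cons (.br (nat_lit 8) (nat_lit 1) (.cons (.rf (nat_lit 588) (nat_lit 443929134146587680)) (.cons (.rf (nat_lit 944) (nat_lit 14207987325575759904)) .nil))) (.cons (.rf (nat_lit 1316) (nat_lit 14242959524133701664)) .nil)))) (.cons (.br (nat_lit 4) (nat_lit 0) (.cons (.rf (nat_lit 900) (nat_lit 14207987325575759904)) (.cons (.kr (nat_lit 72057594054705408) (nat_lit 281479271743488) (nat_lit 1)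 (nat_lit 0)) (.cons (.rf (nat_lit 1317) (nat_lit 14242959524133701664)) .nil)))) .nil))),
 (.br (nat_lit 4) (nat_lit 0) (.cons (.rf (nat_lit 900) (nat_lit 14208055495296682016)) (.cons (.br (nat_lit 10) (nat_lit 0) (.cons (.rf (nat_lit 908) (nat_lit 14208055495296682016)) (.cons (.rf (nat_lit 1316) (nat_lit 397767303497846092)) .nil))) .nil))),
 (.br (nat_lit 4) (nat_lit 0) (.cons (.rf (nat_lit 900) (nat_lit 14208055495296682016)) (.cons (.br (nat_lit 8) (nat_lit 1) (.cons (.rf (nat_lit 939) (nat_lit 14242958392409819168)) (.cons (.br (nat_lit 11) (nat_lit 0) (.cons (.kr (nat_lit 4722366482869645213696) (nat_lit 309485009821345068724781056) (nat_lit 9) (nat_lit 0)) (.cons (.ev (nat_lit 79537647542604484330033053696) (nat_lit 1)) .nil))) .nil))) .nil))),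
 (.br (nat_lit 7) (nat_lit 1) (.cons (.rf (nat_lit 1318) (nat_lit 14242959524133701664)) (.cons (.br (nat_lit 4) (nat_lit 0) (.cons (.rf (nat_lit 1319) (nat_lit 14242959524133701664)) (.cons (.rf (nat_lit 1320) (nat_lit 14242959524133701664)) (.cons (.br (nat_lit 4) (nat_lit 0) (.cons (.rf (nat_lit 1319) (nat_lit 14242959524133701664)) (.cons (.rf (nat_lit 1320) (nat_lit 14242959524133701664)) .nil))) .nil)))) .nil))),
 (.br (nat_lit 8) (nat_lit 1) (.cons (.rf (nat_lit 922) (nat_lit 14242855072676546592)) (.cons (.rf (nat_lit 922) (nat_lit 14208054430144792608)) .nil))),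
 (.br (nat_lit 9) (nat_lit 1) (.cons (.br (nat_lit 10) (nat_lit 0) (.cons (.br (nat_lit 11) (nat_lit 0) (.cons (.ev (nat_lit 79229376180969237859622977536) (nat_lit 1)) .nil)) .nil)) .nil)),
 (.br (nat_lit 4) (nat_lit 0) (.cons (.rf (nat_lit 642) (nat_lit 372995273303133216)) (.cons (.br (nat_lit 9) (nat_lit 1) (.cons (.rf (nat_lit 1323) (nat_lit 14242959524133701664)) (.cons (.br (nat_lit 9) (nat_lit 1) (.cons (.rf (nat_lit 1323) (nat_lit 14242959524133701664)) .nil)) .nil))) .nil))),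
 (.br (nat_lit 4) (nat_lit 0) (.cons (.rf (nat_lit 642) (nat_lit 372995273303133216)) (.cons (.br (nat_lit 9) (nat_lit 1) (.cons (.ev (nat_lit 4722438540463683141889) (nat_lit 1)) (.cons (.br (nat_lit 8) (nat_lit 1) (.cons (.br (nat_lit 10) (nat_lit 0) (.cons (.br (nat_lit 11) (nat_lit 0) (.cons (.kr (nat_lit 1208925819616841082863872) (nat_lit 309494454554310808032182272) (nat_lit 1) (nat_lit 0)) .nil)) .nil)) (.cons (.rf (nat_lit 437) (nat_lit 372997440015534112)) .nil))) .nil))) .nil))),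
 (.br (nat_lit 4) (nat_lit 0) (.cons (.rf (nat_lit 485) (nat_lit 11655070387111968)) (.cons (.br (nat_lit 8) (nat_lit 1) (.cons (.br (nat_lit 9) (nat_lit 1) (.cons (.br (nat_lit 10) (nat_lit 0) (.cons (.br (nat_lit 11) (nat_lit 0) (.cons (.ev (nat_lit 313111787424867107247031044) (nat_lit 3)) .nil)) .nil)) (.cons (.kr (nat_lit 309485009821345068724846592) (nat_lit 1103806595072) (nat_lit 2) (nat_lit 0)) .nil))) (.cons (.rf (nat_lit 486) (nat_lit 410153268665223200)) .nil))) .nil))),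
 (.br (nat_lit 7) (nat_lit 1) (.cons (.br (nat_lit 10) (nat_lit 0) (.cons (.br (nat_lit 11) (nat_lit 0) (.cons (.ev (nat_lit 79229376180969237859622977536) (nat_lit 1)) .nil)) .nil)) .nil)),
 (.br (nat_lit 4) (nat_lit 0) (.cons (.rf (nat_lit 893) (nat_lit 445055034053462048)) (.cons (.br (nat_lit 9) (nat_lit 1) (.cons (.br (nat_lit 7) (nat_lit 1) (.cons (.rf (nat_lit 1327) (nat_lit 14242959524133701664)) (.cons (.br (nat_lit 7) (nat_lit 1) (.cons (.rf (nat_lit 1327) (nat_lit 14242959524133701664)) .nil)) .nil))) (.cons (.rf (nat_lit 625) (nat_lit 444914397597436000)) .nil))) .nil))),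
 (.br (nat_lit 4) (nat_lit 0) (.cons (.ev (nat_lit 282578783305729) (nat_lit 1)) (.cons (.rf (nat_lit 1322) (nat_lit 14242889224109000736)) (.cons (.ev (nat_lit 282578783371521) (nat_lit 1)) .nil))))]

theorem c35 : chkAll C T R L35 (nat_lit 1291) = true := by decide +kernel

theorem l35 : (nat_lit 1291) + L35.length = (nat_lit 1330) := by decide +kernel

/-- part of the certificates -/
def L36 : List Prf := [(.br (nat_lit 9) (nat_lit 1) (.cons (.rf (nat_lit 338) (nat_lit 444983531569974400)) (.cons (.rf (nat_lit 496) (nat_lit 11939368314733692960)) (.cons (.rf (nat_lit 485) (nat_lit 11655139106588704)) .nil)))),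
 (.br (nat_lit 4) (nat_lit 0) (.cons (.rf (nat_lit 336) (nat_lit 407794887089588256)) (.cons (.br (nat_lit 8) (nat_lit 1) (.cons (.br (nat_lit 10) (nat_lit 0) (.cons (.br (nat_lit 11) (nat_lit 0) (.cons (.ev (nat_lit 79538861190790581833131098368) (nat_lit 1)) .nil)) .nil)) (.cons (.rf (nat_lit 558) (nat_lit 407864155249347648)) .nil))) .nil))),
 (.br (nat_lit 7) (nat_lit 1) (.cons (.ev (nat_lit 72058693566332929) (nat_lit 1)) (.cons (.br (nat_lit 4) (nat_lit 0) (.cons (.rf (nat_lit 1330) (nat_lit 14242959524133701664)) (.cons (.rf (nat_lit 1331) (nat_lit 14242959524133701664)) (.cons (.br (nat_lit 4) (nat_lit 0) (.cons (.rf (nat_lit 1330) (nat_lit 14242959524133701664)) (.cons (.rf (nat_lit 1331) (nat_lit 14242959524133701664)) .nil))) .nil)))) .nil))),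
 (.br (nat_lit 4) (nat_lit 0) (.cons (.ev (nat_lit 282578783305729) (nat_lit 1)) (.cons (.br (nat_lit 7) (nat_lit 1) (.cons (.br (nat_lit 8) (nat_lit 1) (.cons (.rf (nat_lit 940) (nat_lit 14242890222688897056)) (.cons (.br (nat_lit 9) (nat_lit 1) (.cons (.rf (nat_lit 896) (nat_lit 14242957327257929760)) (.cons (.rf (nat_lit 437) (nat_lit 372997440015534112)) .nil))) .nil))) (.cons (.br (nat_lit 8) (nat_lit 1) (.cons (.br (nat_lit 9) (nat_lit 1) (.cons (.br (nat_lit 10) (nat_lit 0) (.cons (.br (nat_lit 11) (nat_lit 0) (.cons (.zr (nat_lit 72057607006717696) (nat_lit 79228176699811375800631164929) (nat_lit 10) (nat_lit 0)) .nil)) .nil)) (.cons (.rf (nat_lit 440) (nat_lit 407797017393367072)) .nil))) (.cons (.rf (nat_lit 588) (nat_lit 445055034053430304)) .nil))) .nil))) (.cons (.ev (nat_lit 282578783371521) (nat_lit 1)) .nil)))),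
 (.br (nat_lit 4) (nat_lit 0) (.cons (.br (nat_lit 9) (nat_lit 1) (.cons (.rf (nat_lit 873) (nat_lit 14242817656093770880)) (.cons (.kr (nat_lit 309485009821345068724781312) (nat_lit 1103806595072) (nat_lit 1) (nat_lit 0)) .nil))) (.cons (.br (nat_lit 11) (nat_lit 0) (.cons (.br (nat_lit 9) (nat_lit 1) (.cons (.br (nat_lit 10) (nat_lit 0) (.cons (.ev (nat_lit 79537652264970968303484862720) (nat_lit 1)) .nil)) .nil)) (.cons (.kr (nat_lit 309485009821345068724781312) (nat_lit 1103806595072) (nat_lit 1) (nat_lit 0)) .nil))) .nil))),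
 (.br (nat_lit 10) (nat_lit 0) (.cons (.rf (nat_lit 1291) (nat_lit 398788651049323840)) (.cons (.br (nat_lit 11) (nat_lit 0) (.cons (.ev (nat_lit 310693954087703771609038849) (nat_lit 1)) (.cons (.ev (nat_lit 79537652264970968303484796928) (nat_lit 1)) .nil))) (.cons (.rf (nat_lit 1291) (nat_lit 397662751142513996)) .nil)))),
 (.br (nat_lit 4) (nat_lit 0) (.cons (.rf (nat_lit 1334) (nat_lit 14242959524133701664)) (.cons (.br (nat_lit 9) (nat_lit 1) (.cons (.rf (nat_lit 1335) (nat_lit 14242959524133701664)) (.cons (.kr (nat_lit 309485009821345068724846592) (nat_lit 1103806595072) (nat_lit 2) (nat_lit 0)) .nil))) .nil))),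
 (.br (nat_lit 7) (nat_lit 1) (.cons (.rf (nat_lit 1333) (nat_lit 14242959524133701664)) (.cons (.br (nat_lit 4) (nat_lit 0) (.cons (.rf (nat_lit 1334) (nat_lit 14242959524133701664)) (.cons (.rf (nat_lit 1336) (nat_lit 14242959524133701664)) (.cons (.br (nat_lit 4) (nat_lit 0) (.cons (.rf (nat_lit 1334) (nat_lit 14242959524133701664)) (.cons (.rf (nat_lit 1336) (nat_lit 14242959524133701664)) .nil))) .nil)))) .nil))),
 (.br (nat_lit 6) (nat_lit 1) (.cons (.br (nat_lit 8) (nat_lit 1) (.cons (.rf (nat_lit 887) (nat_lit 14242958392409819168)) (.cons (.rf (nat_lit 887) (nat_lit 14208055495296682016)) (.cons (.rf (nat_lit 1308) (nat_lit 14242959524133701664)) (.cons (.rf (nat_lit 1308) (nat_lit 14208056627020564512)) .nil))))) (.cons (.br (nat_lit 3) (nat_lit 0) (.cons (.br (nat_lit 7) (nat_lit 1) (.cons (.rf (nat_lit 1309) (nat_lit 14242959524133701664)) (.cons (.rf (nat_lit 1311) (nat_lit 445091350149433376)) (.cons (.br (nat_lit 4) (nat_lit 0) (.cons (.rf (nat_lit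 1313) (nat_lit 14242959524133701664)) (.cons (.rf (nat_lit 1314) (nat_lit 14242959524133701664)) (.cons (.br (nat_lit 4) (nat_lit 0) (.cons (.rf (nat_lit 1313) (nat_lit 14242959524133701664)) (.cons (.rf (nat_lit 1314) (nat_lit 14242959524133701664)) .nil))) .nil)))) .nil)))) (.cons (.rf (nat_lit 892) (nat_lit 14242958392409819168)) (.cons (.br (nat_lit 9) (nat_lit 1) (.cons (.br (nat_lit 4) (nat_lit 0) (.cons (.rf (nat_lit 1070) (nat_lit 14208020274549491808)) (.cons (.rf (nat_lit 338) (nat_lit 443857631663131776)) (.cons (.br (nat_lit 8) (nat_lit 1) (.cons (.rf (nat_lit 582) (nat_lit 443857768968949792)) (.cons (.rf (nat_lit 930) (nat_lit 14207950045259630624)) .nil))) .nil)))) (.cons (.rf (nat_lit 1311) (nat_lit 445091418868910112)) (.cons (.br (nat_lit 4) (nat_lit 0) (.cons (.br (nat_lit 4) (nat_lit 0) (.cons (.ev (nat_lit 4722366764348933669121) (nat_lit 1)) (.cons (.ev (nat_lit 4722366764348933734401) (nat_lit 1)) .nil))) (.cons (.rf (nat_lit 496) (nat_lit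 13056261022321575968)) (.cons (.br (nat_lit 4) (nat_lit 0) (.cons (.ev (nat_lit 4722366764348933734401) (nat_lit 1)) (.cons (.rf (nat_lit 496) (nat_lit 13056261022321575968)) .nil))) .nil)))) .nil)))) (.cons (.br (nat_lit 7) (nat_lit 1) (.cons (.rf (nat_lit 1318) (nat_lit 14242959524133701664)) (.cons (.rf (nat_lit 1321) (nat_lit 14242959524133701664)) (.cons (.br (nat_lit 7) (nat_lit 1) (.cons (.rf (nat_lit 1318) (nat_lit 14242959524133701664)) (.cons (.rf (nat_lit 1321) (nat_lit 14242959524133701664)) .nil))) .nil)))) .nil))))) (.cons (.br (nat_lit 3) (nat_lit 0) (.cons (.br (nat_lit 7) (nat_lit 1) (.cons (.br (nat_lit 4) (nat_lit 0) (.cons (.ev (nat_lit 282578783305729) (nat_lit 1)) (.cons (.rf (nat_lit 1322) (nat_lit 14242959524133701664)) (.cons (.ev (nat_lit 282578783371521) (nat_lit 1)) .nil)))) (.cons (.br (nat_lit 4) (nat_lit 0) (.cons (.rf (nat_lit 1324) (nat_lit 14242959524133701664)) (.cons (.rf (nat_lit 1325) (nat_lit 14242959524133701664)) (.cons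 (.br (nat_lit 4) (nat_lit 0) (.cons (.rf (nat_lit 1324) (nat_lit 14242959524133701664)) (.cons (.rf (nat_lit 1325) (nat_lit 14242959524133701664)) .nil))) .nil)))) (.cons (.br (nat_lit 4) (nat_lit 0) (.cons (.rf (nat_lit 485) (nat_lit 11655070387111968)) (.cons (.rf (nat_lit 1326) (nat_lit 14242959524133701664)) (.cons (.br (nat_lit 4) (nat_lit 0) (.cons (.rf (nat_lit 485) (nat_lit 11655070387111968)) (.cons (.rf (nat_lit 1326) (nat_lit 14242959524133701664)) .nil))) .nil)))) .nil)))) (.cons (.br (nat_lit 4) (nat_lit 0) (.cons (.rf (nat_lit 897) (nat_lit 14242957327257929760)) (.cons (.rf (nat_lit 1328) (nat_lit 14242959524133701664)) (.cons (.br (nat_lit 4) (nat_lit 0) (.cons (.ev (nat_lit 282578783371521) (nat_lit 1)) (.cons (.rf (nat_lit 1328) (nat_lit 14242959524133701664)) .nil))) .nil)))) (.cons (.br (nat_lit 7) (nat_lit 1) (.cons (.rf (nat_lit 1329) (nat_lit 14242959524133701664)) (.cons (.rf (nat_lit 1332) (nat_lit 14242959524133701664)) (.cons (.br (nat_lit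 7) (nat_lit 1) (.cons (.rf (nat_lit 1329) (nat_lit 14242959524133701664)) (.cons (.rf (nat_lit 1332) (nat_lit 14242959524133701664)) .nil))) .nil)))) (.cons (.br (nat_lit 7) (nat_lit 1) (.cons (.rf (nat_lit 1333) (nat_lit 14242959524133701664)) (.cons (.rf (nat_lit 1337) (nat_lit 14242959524133701664)) (.cons (.br (nat_lit 7) (nat_lit 1) (.cons (.rf (nat_lit 1333) (nat_lit 14242959524133701664)) (.cons (.rf (nat_lit 1337) (nat_lit 14242959524133701664)) .nil))) .nil)))) .nil))))) .nil)))),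
 (.br (nat_lit 9) (nat_lit 1) (.cons (.rf (nat_lit 338) (nat_lit 372894051627733088)) .nil)),
 (.br (nat_lit 4) (nat_lit 0) (.cons (.rf (nat_lit 1339) (nat_lit 13836501456619552)) (.cons (.rf (nat_lit 886) (nat_lit 14242957327257929760)) .nil))),
 (.br (nat_lit 4) (nat_lit 0) (.cons (.rf (nat_lit 1339) (nat_lit 13836501456619552)) (.cons (.br (nat_lit 7) (nat_lit 1) (.cons (.br (nat_lit 9) (nat_lit 1) (.cons (.ev (nat_lit 4722438540463683141889) (nat_lit 1)) (.cons (.rf (nat_lit 890) (nat_lit 14242957327257929760)) .nil))) (.cons (.br (nat_lit 9) (nat_lit 1) (.cons (.br (nat_lit 10) (nat_lit 0) (.cons (.br (nat_lit 11) (nat_lit 0) (.cons (.ev (nat_lit 79538861190718805714069881088) (nat_lit 1)) .nil)) .nil)) (.cons (.ev (nat_lit 4722438540463683141889) (nat_lit 1)) .nil))) .nil))) .nil))),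
 (.br (nat_lit 4) (nat_lit 0) (.cons (.rf (nat_lit 1339) (nat_lit 13836501455603744)) (.cons (.rf (nat_lit 962) (nat_lit 13730882907145312)) (.cons (.br (nat_lit 9) (nat_lit 1) (.cons (.rf (nat_lit 1309) (nat_lit 14242853974238660640)) (.cons (.br (nat_lit 8) (nat_lit 1) (.cons (.br (nat_lit 10) (nat_lit 0) (.cons (.br (nat_lit 11) (nat_lit 0) (.cons (.ev (nat_lit 158767047335263146163187024642) (nat_lit 3)) .nil)) .nil)) (.cons (.rf (nat_lit 558) (nat_lit 407867383991012416)) .nil))) .nil))) .nil)))),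
 (.br (nat_lit 4) (nat_lit 0) (.cons (.rf (nat_lit 336) (nat_lit 407828971950049312)) (.cons (.br (nat_lit 11) (nat_lit 0) (.cons (.rf (nat_lit 485) (nat_lit 11655140180330528)) (.cons (.kr (nat_lit 309485009821345068724781312) (nat_lit 1103806595072) (nat_lit 1) (nat_lit 0)) .nil))) .nil))),
 (.br (nat_lit 4) (nat_lit 0) (.cons (.rf (nat_lit 1339) (nat_lit 13766201430902816)) (.cons (.br (nat_lit 8) (nat_lit 1) (.cons (.br (nat_lit 10) (nat_lit 0) (.cons (.br (nat_lit 11) (nat_lit 0) (.cons (.ev (nat_lit 79229376180897461740561760256) (nat_lit 1)) .nil)) .nil)) (.cons (.rf (nat_lit 558) (nat_lit 407865253687233600)) .nil))) .nil))),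
 (.br (nat_lit 8) (nat_lit 1) (.cons (.rf (nat_lit 933) (nat_lit 14242957327257929760)) (.cons (.rf (nat_lit 933) (nat_lit 14208054430144792608)) .nil))),
 (.br (nat_lit 9) (nat_lit 1) (.cons (.ev (nat_lit 4722438540463683141889) (nat_lit 1)) (.cons (.rf (nat_lit 890) (nat_lit 14207984130120091680)) .nil))),
 (.br (nat_lit 4) (nat_lit 0) (.cons (.rf (nat_lit 1346) (nat_lit 14242959524133701664)) (.cons (.br (nat_lit 10) (nat_lit 0) (.cons (.rf (nat_lit 908) (nat_lit 14208054430144792608)) (.cons (.ev (nat_lit 79228162532783140360803123456) (nat_lit 1)) .nil))) .nil))),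
 (.br (nat_lit 4) (nat_lit 0) (.cons (.rf (nat_lit 1346) (nat_lit 14242959524133701664)) (.cons (.br (nat_lit 9) (nat_lit 1) (.cons (.ev (nat_lit 4722438540463683141889) (nat_lit 1)) (.cons (.rf (nat_lit 1317) (nat_lit 14242854040810653728)) .nil))) .nil))),
 (.br (nat_lit 4) (nat_lit 0) (.cons (.br (nat_lit 9) (nat_lit 1) (.cons (.br (nat_lit 10) (nat_lit 0) (.cons (.br (nat_lit 11) (nat_lit 0) (.cons (.ev (nat_lit 79538861190718805714069946368) (nat_lit 1)) .nil)) .nil)) (.cons (.ev (nat_lit 4722438540463683141889) (nat_lit 1)) .nil))) (.cons (.br (nat_lit 11) (nat_lit 0) (.cons (.br (nat_lit 9) (nat_lit 1) (.cons (.br (nat_lit 10) (nat_lit 0) (.cons (.ev (nat_lit 79538861190718805714069946368) (nat_lit 1)) .nil)) .nil)) (.cons (.ev (nat_lit 79228162532783140360803123456) (nat_lit 1)) .nil))) .nil))),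
 (.br (nat_lit 4) (nat_lit 0) (.cons (.rf (nat_lit 1349) (nat_lit 14242959524133701664)) (.cons (.br (nat_lit 9) (nat_lit 1) (.cons (.br (nat_lit 8) (nat_lit 1) (.cons (.br (nat_lit 11) (nat_lit 0) (.cons (.ev (nat_lit 79538861190718805714069946368) (nat_lit 1)) .nil)) (.cons (.br (nat_lit 10) (nat_lit 0) (.cons (.ev (nat_lit 79538861190718805714069946368) (nat_lit 1)) .nil)) .nil))) (.cons (.ev (nat_lit 4722438540463683141889) (nat_lit 1)) .nil))) .nil))),
 (.br (nat_lit 3) (nat_lit 0) (.cons (.br (nat_lit 4) (nat_lit 0) (.cons (.rf (nat_lit 1340) (nat_lit 14242959524133701664)) (.cons (.rf (nat_lit 1341) (nat_lit 14242959524133701664)) (.cons (.br (nat_lit 4) (nat_lit 0) (.cons (.rf (nat_lit 886) (nat_lit 14242957327257929760)) (.cons (.rf (nat_lit 1341) (nat_lit 14242959524133701664)) .nil))) .nil)))) (.cons (.br (nat_lit 7) (nat_lit 1) (.cons (.rf (nat_lit 1342) (nat_lit 14242959524133701664)) (.cons (.br (nat_lit 9) (nat_lit 1) (.cons (.rf (nat_lit 1309)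 (nat_lit 14242854040810653728)) (.cons (.rf (nat_lit 1311) (nat_lit 445091419942651936)) (.cons (.br (nat_lit 11) (nat_lit 0) (.cons (.ev (nat_lit 309489732259886631936327681) (nat_lit 1)) (.cons (.ev (nat_lit 309489732259886631936393473) (nat_lit 1)) .nil))) .nil)))) (.cons (.br (nat_lit 4) (nat_lit 0) (.cons (.rf (nat_lit 1343) (nat_lit 14242959524133701664)) (.cons (.rf (nat_lit 1344) (nat_lit 14242959524133701664)) (.cons (.br (nat_lit 4) (nat_lit 0) (.cons (.rf (nat_lit 1343) (nat_lit 14242959524133701664)) (.cons (.rf (nat_lit 1344) (nat_lit 14242959524133701664)) .nil))) .nil)))) .nil)))) (.cons (.br (nat_lit 7) (nat_lit 1) (.cons (.br (nat_lit 4) (nat_lit 0) (.cons (.rf (nat_lit 886) (nat_lit 14208054430144792608)) (.cons (.rf (nat_lit 1342) (nat_lit 14208056627020564512)) (.cons (.rf (nat_lit 1345) (nat_lit 14242959524133701664)) .nil)))) (.cons (.br (nat_lit 4) (nat_lit 0) (.cons (.rf (nat_lit 1347) (nat_lit 14242959524133701664)) (.cons (.rf (nat_lit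 1348) (nat_lit 14242959524133701664)) (.cons (.br (nat_lit 4) (nat_lit 0) (.cons (.rf (nat_lit 1347) (nat_lit 14242959524133701664)) (.cons (.rf (nat_lit 1348) (nat_lit 14242959524133701664)) .nil))) .nil)))) (.cons (.br (nat_lit 4) (nat_lit 0) (.cons (.rf (nat_lit 1349) (nat_lit 14242959524133701664)) (.cons (.rf (nat_lit 1350) (nat_lit 14242959524133701664)) (.cons (.br (nat_lit 4) (nat_lit 0) (.cons (.rf (nat_lit 1349) (nat_lit 14242959524133701664)) (.cons (.rf (nat_lit 1350) (nat_lit 14242959524133701664)) .nil))) .nil)))) .nil)))) .nil)))),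
 (.br (nat_lit 7) (nat_lit 1) (.cons (.br (nat_lit 9) (nat_lit 1) (.cons (.br (nat_lit 11) (nat_lit 0) (.cons (.zr (nat_lit 6044629099201257688530944) (nat_lit 79228167255509910101159837697) (nat_lit 10) (nat_lit 6)) .nil)) (.cons (.kr (nat_lit 309485009821345068724846592) (nat_lit 1103806595072) (nat_lit 2) (nat_lit 0)) .nil))) .nil)),
 (.br (nat_lit 4) (nat_lit 0) (.cons (.rf (nat_lit 1351) (nat_lit 14208056627020564512)) (.cons (.br (nat_lit 7) (nat_lit 1) (.cons (.rf (nat_lit 1352) (nat_lit 14242959524133701664)) (.cons (.br (nat_lit 7) (nat_lit 1) (.cons (.rf (nat_lit 1352) (nat_lit 14242959524133701664)) .nil)) .nil))) .nil))),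
 (.br (nat_lit 3) (nat_lit 0) (.cons (.rf (nat_lit 1351) (nat_lit 14242959524133701664)) (.cons (.br (nat_lit 4) (nat_lit 0) (.cons (.rf (nat_lit 1351) (nat_lit 14208056627020564512)) (.cons (.rf (nat_lit 1340) (nat_lit 14242889224109000736)) (.cons (.br (nat_lit 4) (nat_lit 0) (.cons (.rf (nat_lit 1351) (nat_lit 14208056627020564512)) (.cons (.rf (nat_lit 886) (nat_lit 14242887027233228832)) .nil))) .nil)))) (.cons (.br (nat_lit 4) (nat_lit 0) (.cons (.rf (nat_lit 1351) (nat_lit 14208056627020564512)) (.cons (.rf (nat_lit 1353) (nat_lit 14242959524133701664)) (.cons (.br (nat_lit 4) (nat_lit 0) (.cons (.rf (nat_lit 1351) (nat_lit 14208056627020564512)) (.cons (.rf (nat_lit 1353) (nat_lit 14242959524133701664)) .nil))) .nil)))) .nil)))),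
 (.br (nat_lit 4) (nat_lit 0) (.cons (.rf (nat_lit 885) (nat_lit 14207984130120091680)) (.cons (.rf (nat_lit 1345) (nat_lit 14242854040810653728)) .nil))),
 (.br (nat_lit 7) (nat_lit 1) (.cons (.rf (nat_lit 1351) (nat_lit 14208056627020564512)) (.cons (.br (nat_lit 4) (nat_lit 0) (.cons (.rf (nat_lit 1354) (nat_lit 14208056627020564512)) (.cons (.rf (nat_lit 1355) (nat_lit 14242959524133701664)) (.cons (.br (nat_lit 4) (nat_lit 0) (.cons (.rf (nat_lit 1354) (nat_lit 14208056627020564512)) (.cons (.rf (nat_lit 1345) (nat_lit 14242854040810653728)) .nil))) .nil)))) .nil))),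
 (.br (nat_lit 3) (nat_lit 0) (.cons (.rf (nat_lit 1351) (nat_lit 14242959524133701664)) (.cons (.rf (nat_lit 1354) (nat_lit 14242959524133701664)) (.cons (.br (nat_lit 7) (nat_lit 1) (.cons (.rf (nat_lit 1351) (nat_lit 14208056627020564512)) (.cons (.rf (nat_lit 1356) (nat_lit 14242959524133701664)) (.cons (.br (nat_lit 7) (nat_lit 1) (.cons (.rf (nat_lit 1351) (nat_lit 14208056627020564512)) (.cons (.rf (nat_lit 1356) (nat_lit 14242959524133701664)) .nil))) .nil)))) .nil)))),
 (.br (nat_lit 6) (nat_lit 1) (.cons (.rf (nat_lit 1338) (nat_lit 14242959524133701664)) (.cons (.rf (nat_lit 1338) (nat_lit 14208056627020564512)) (.cons (.br (nat_lit 3) (nat_lit 0) (.cons (.rf (nat_lit 1351) (nat_lit 14242959524133701664)) (.cons (.rf (nat_lit 1354) (nat_lit 14242959524133701664)) (.cons (.rf (nat_lit 1357) (nat_lit 14242959524133701664)) (.cons (.br (nat_lit 3) (nat_lit 0) (.cons (.rf (nat_lit 1351) (nat_lit 14242959524133701664)) (.cons (.rf (nat_lit 1354) (nat_lit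 14242959524133701664)) (.cons (.rf (nat_lit 1357) (nat_lit 14242959524133701664)) .nil)))) .nil))))) .nil))))]

theorem c36 : chkAll C T R L36 (nat_lit 1330) = true := by decide +kernel

theorem l36 : (nat_lit 1330) + L36.length = (nat_lit 1359) := by decide +kernel

/-- part of the certificates -/
def L37 : List Prf := [(.br (nat_lit 2) (nat_lit 0) (.cons (.rf (nat_lit 1291) (nat_lit 407901468851536960)) (.cons (.rf (nat_lit 1291) (nat_lit 407867350705079360)) (.cons (.kr (nat_lit 256) (nat_lit 65536) (nat_lit 1) (nat_lit 0)) (.cons (.br (nat_lit 6) (nat_lit 1) (.cons (.rf (nat_lit 1303) (nat_lit 407901468851537952)) (.cons (.rf (nat_lit 1303) (nat_lit 372998571738400800)) (.cons (.rf (nat_lit 1306) (nat_lit 407901468851537952)) (.cons (.rf (nat_lit 1306) (nat_lit 372998571738400800)) .nil))))) (.cons (.br (nat_lit 6) (nat_lit 1) (.cons (.rf (nat_lit 1338) (nat_lit 14242959524133701664)) (.cons (.rf (nat_lit 1338) (nat_lit 14208056627020564512)) (.cons (.rf (nat_lit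 1358) (nat_lit 14242959524133701664)) (.cons (.rf (nat_lit 1358) (nat_lit 14208056627020564512)) .nil))))) .nil)))))),
 (.br (nat_lit 9) (nat_lit 1) (.cons (.br (nat_lit 10) (nat_lit 0) (.cons (.br (nat_lit 11) (nat_lit 0) (.cons (.ev (nat_lit 79228167236702879161033752576) (nat_lit 1)) .nil)) .nil)) .nil)),
 (.br (nat_lit 9) (nat_lit 1) (.cons (.br (nat_lit 10) (nat_lit 0) (.cons (.br (nat_lit 11) (nat_lit 0) (.cons (.ev (nat_lit 79230594569968564500837892865) (nat_lit 2)) .nil)) .nil)) .nil)),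
 (.br (nat_lit 3) (nat_lit 0) (.cons (.rf (nat_lit 988) (nat_lit 407832167406733344)) (.cons (.rf (nat_lit 988) (nat_lit 407797017394382880)) (.cons (.br (nat_lit 6) (nat_lit 1) (.cons (.br (nat_lit 7) (nat_lit 1) (.cons (.rf (nat_lit 974) (nat_lit 372995308670551104)) (.cons (.rf (nat_lit 875) (nat_lit 372960158658105408)) .nil))) (.cons (.ev (nat_lit 18447025548703039489) (nat_lit 1)) (.cons (.br (nat_lit 7) (nat_lit 1) (.cons (.ev (nat_lit 282578783305729) (nat_lit 1)) (.cons (.rf (nat_lit 642) (nat_lit 372998571739416608)) (.cons (.rf (nat_lit 485) (nat_lit 11655070387080224)) .nil)))) .nil)))) (.cons (.br (nat_lit 6) (nat_lit 1) (.cons (.rf (nat_lit 797) (nat_lit 13835333325096064)) (.cons (.br (nat_lit 7) (nat_lit 1) (.cons (.rf (nat_lit 1339) (nat_lit 13730951559515168)) (.cons (.rf (nat_lit 485) (nat_lit 12745785921834016)) (.cons (.br (nat_lit 4) (nat_lit 0) (.cons (.rf (nat_lit 642) (nat_lit 407898170416302112)) (.cons (.br (nat_lit 9) (nat_lit 1) (.cons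 (.rf (nat_lit 1360) (nat_lit 14242959524133701664)) (.cons (.br (nat_lit 9) (nat_lit 1) (.cons (.rf (nat_lit 1360) (nat_lit 14242959524133701664)) .nil)) .nil))) .nil))) .nil)))) (.cons (.br (nat_lit 4) (nat_lit 0) (.cons (.ev (nat_lit 282578783305729) (nat_lit 1)) (.cons (.rf (nat_lit 857) (nat_lit 14242958389287161888)) (.cons (.br (nat_lit 7) (nat_lit 1) (.cons (.br (nat_lit 9) (nat_lit 1) (.cons (.rf (nat_lit 1361) (nat_lit 14242959524133701664)) (.cons (.br (nat_lit 9) (nat_lit 1) (.cons (.rf (nat_lit 1361) (nat_lit 14242959524133701664)) .nil)) .nil))) (.cons (.rf (nat_lit 485) (nat_lit 11655070387080224)) .nil))) .nil)))) .nil)))) .nil))))),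
 (.br (nat_lit 9) (nat_lit 1) (.cons (.br (nat_lit 10) (nat_lit 0) (.cons (.br (nat_lit 11) (nat_lit 0) (.cons (.ev (nat_lit 315557973408236879063746308) (nat_lit 3)) .nil)) .nil)) .nil)),
 (.br (nat_lit 4) (nat_lit 0) (.cons (.rf (nat_lit 922) (nat_lit 14242855072676514848)) (.cons (.br (nat_lit 7) (nat_lit 1) (.cons (.rf (nat_lit 486) (nat_lit 374124471646227488)) (.cons (.br (nat_lit 9) (nat_lit 1) (.cons (.ev (nat_lit 1213648186097498819985409) (nat_lit 1)) (.cons (.br (nat_lit 10) (nat_lit 0) (.cons (.br (nat_lit 11) (nat_lit 0) (.cons (.ev (nat_lit 315557973408236879063746308) (nat_lit 3)) .nil)) .nil)) .nil))) .nil))) .nil))),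
 (.br (nat_lit 9) (nat_lit 1) (.cons (.br (nat_lit 10) (nat_lit 0) (.cons (.br (nat_lit 11) (nat_lit 0) (.cons (.ev (nat_lit 79537647542532427835489976576) (nat_lit 1)) .nil)) .nil)) .nil)),
 (.br (nat_lit 4) (nat_lit 0) (.cons (.rf (nat_lit 865) (nat_lit 372995307630268480)) (.cons (.br (nat_lit 9) (nat_lit 1) (.cons (.rf (nat_lit 1365) (nat_lit 14242959524133701664)) (.cons (.br (nat_lit 9) (nat_lit 1) (.cons (.rf (nat_lit 1365) (nat_lit 14242959524133701664)) .nil)) .nil))) .nil))),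
 (.br (nat_lit 10) (nat_lit 0) (.cons (.ev (nat_lit 1213648258721345674870786) (nat_lit 2)) .nil)),
 (.br (nat_lit 4) (nat_lit 0) (.cons (.rf (nat_lit 865) (nat_lit 372995307630268480)) (.cons (.br (nat_lit 7) (nat_lit 1) (.cons (.br (nat_lit 9) (nat_lit 1) (.cons (.rf (nat_lit 437) (nat_lit 407899271975734304)) (.cons (.br (nat_lit 10) (nat_lit 0) (.cons (.br (nat_lit 11) (nat_lit 0) (.cons (.ev (nat_lit 79537647542532427835489976576) (nat_lit 1)) .nil)) .nil)) .nil))) (.cons (.br (nat_lit 9) (nat_lit 1) (.cons (.rf (nat_lit 1367) (nat_lit 14242959524133701664)) (.cons (.rf (nat_lit 440) (nat_lit 407900337127623712)) .nil))) .nil))) .nil))),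
 (.br (nat_lit 4) (nat_lit 0) (.cons (.rf (nat_lit 959) (nat_lit 372998504126219328)) (.cons (.rf (nat_lit 974) (nat_lit 407828971948970016)) (.cons (.rf (nat_lit 1070) (nat_lit 14242890222686801952)) .nil)))),
 (.br (nat_lit 6) (nat_lit 1) (.cons (.rf (nat_lit 1369) (nat_lit 407901468851537952)) (.cons (.rf (nat_lit 977) (nat_lit 407900337127655456)) (.cons (.br (nat_lit 7) (nat_lit 1) (.cons (.rf (nat_lit 1369) (nat_lit 407901435565541408)) (.cons (.rf (nat_lit 642) (nat_lit 372998571739416608)) (.cons (.rf (nat_lit 967) (nat_lit 407900337127655456)) .nil)))) .nil)))),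
 (.br (nat_lit 4) (nat_lit 0) (.cons (.rf (nat_lit 865) (nat_lit 407898204742389824)) (.cons (.br (nat_lit 7) (nat_lit 1) (.cons (.rf (nat_lit 1193) (nat_lit 14242959456521520192)) (.cons (.br (nat_lit 9) (nat_lit 1) (.cons (.br (nat_lit 10) (nat_lit 0) (.cons (.br (nat_lit 11) (nat_lit 0) (.cons (.ev (nat_lit 79537647542604766904504615168) (nat_lit 1)) .nil)) .nil)) (.cons (.kr (nat_lit 4722366482869645213696) (nat_lit 309485009821345068724781056) (nat_lit 9) (nat_lit 0)) .nil))) .nil))) .nil))),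
 (.br (nat_lit 4) (nat_lit 0) (.cons (.rf (nat_lit 992) (nat_lit 372858968188519488)) (.cons (.br (nat_lit 7) (nat_lit 1) (.cons (.br (nat_lit 9) (nat_lit 1) (.cons (.br (nat_lit 10) (nat_lit 0) (.cons (.br (nat_lit 11) (nat_lit 0) (.cons (.ev (nat_lit 315557973118880603005191940) (nat_lit 3)) .nil)) .nil)) (.cons (.ev (nat_lit 309489732260167011696378113) (nat_lit 1)) .nil))) (.cons (.rf (nat_lit 486) (nat_lit 410153268665191456)) .nil))) .nil))),
 (.br (nat_lit 8) (nat_lit 1) (.cons (.rf (nat_lit 987) (nat_lit 407832167406733344)) (.cons (.rf (nat_lit 1362) (nat_lit 407901468851537952)) (.cons (.br (nat_lit 3) (nat_lit 0) (.cons (.rf (nat_lit 799) (nat_lit 407900403699614816)) (.cons (.rf (nat_lit 875) (nat_lit 407828971951033376)) (.cons (.br (nat_lit 6) (nat_lit 1) (.cons (.ev (nat_lit 18447025548703039489) (nat_lit 1)) (.cons (.rf (nat_lit 992) (nat_lit 407832167406733344)) (.cons (.rf (nat_lit 993) (nat_lit 407832167406733344)) .nil)))) (.cons (.br (nat_lit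 6) (nat_lit 1) (.cons (.br (nat_lit 4) (nat_lit 0) (.cons (.rf (nat_lit 962) (nat_lit 13836433843422272)) (.cons (.rf (nat_lit 922) (nat_lit 14242890222688865312)) (.cons (.br (nat_lit 7) (nat_lit 1) (.cons (.rf (nat_lit 582) (nat_lit 443929134144524320)) (.cons (.br (nat_lit 9) (nat_lit 1) (.cons (.rf (nat_lit 1363) (nat_lit 14242959524133701664)) (.cons (.rf (nat_lit 1363) (nat_lit 14208055560828486720)) .nil))) .nil))) .nil)))) (.cons (.br (nat_lit 4) (nat_lit 0) (.cons (.rf (nat_lit 925) (nat_lit 14242890222688865312)) (.cons (.rf (nat_lit 1364) (nat_lit 14242959524133701664)) (.cons (.br (nat_lit 4) (nat_lit 0) (.cons (.rf (nat_lit 582) (nat_lit 443928068992634912)) (.cons (.rf (nat_lit 1364) (nat_lit 14242959524133701664)) .nil))) .nil)))) (.cons (.br (nat_lit 4) (nat_lit 0) (.cons (.rf (nat_lit 1366) (nat_lit 14242959524133701664)) (.cons (.rf (nat_lit 1368) (nat_lit 14242959524133701664)) (.cons (.br (nat_lit 4) (nat_lit 0) (.cons (.rf (nat_lit 1366) (nat_lit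 14242959524133701664)) (.cons (.rf (nat_lit 1368) (nat_lit 14242959524133701664)) .nil))) .nil)))) .nil)))) .nil))))) (.cons (.br (nat_lit 3) (nat_lit 0) (.cons (.rf (nat_lit 975) (nat_lit 407900337127655456)) (.cons (.br (nat_lit 6) (nat_lit 1) (.cons (.rf (nat_lit 1362) (nat_lit 372997505546323008)) (.cons (.rf (nat_lit 341) (nat_lit 12745752635835488)) (.cons (.rf (nat_lit 353) (nat_lit 11655037101081696)) .nil)))) (.cons (.rf (nat_lit 1370) (nat_lit 407901468851537952)) (.cons (.br (nat_lit 6) (nat_lit 1) (.cons (.rf (nat_lit 1002) (nat_lit 14242890222688897056)) (.cons (.br (nat_lit 4) (nat_lit 0) (.cons (.rf (nat_lit 980) (nat_lit 14242957327257929760)) (.cons (.rf (nat_lit 1371) (nat_lit 14242959524133701664)) (.cons (.br (nat_lit 4) (nat_lit 0) (.cons (.rf (nat_lit 979) (nat_lit 14242957327257929760)) (.cons (.rf (nat_lit 1371) (nat_lit 14242959524133701664)) .nil))) .nil)))) (.cons (.br (nat_lit 4) (nat_lit 0) (.cons (.rf (nat_lit 1005) (nat_lit 14242890222688897056))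 (.cons (.rf (nat_lit 1372) (nat_lit 14242959524133701664)) (.cons (.br (nat_lit 4) (nat_lit 0) (.cons (.rf (nat_lit 582) (nat_lit 445053968899477536)) (.cons (.rf (nat_lit 1372) (nat_lit 14242959524133701664)) .nil))) .nil)))) .nil)))) .nil))))) .nil))))),
 (.br (nat_lit 4) (nat_lit 0) (.cons (.rf (nat_lit 1370) (nat_lit 372926037391180864)) (.cons (.br (nat_lit 9) (nat_lit 1) (.cons (.rf (nat_lit 486) (nat_lit 374054171621526560)) (.cons (.ev (nat_lit 4722366764348933734401) (nat_lit 1)) .nil))) .nil))),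
 (.br (nat_lit 4) (nat_lit 0) (.cons (.rf (nat_lit 865) (nat_lit 407827836065321024)) (.cons (.br (nat_lit 9) (nat_lit 1) (.cons (.rf (nat_lit 1193) (nat_lit 14242889089924826176)) (.cons (.ev (nat_lit 4722366764348933734401) (nat_lit 1)) .nil))) .nil))),
 (.br (nat_lit 4) (nat_lit 0) (.cons (.rf (nat_lit 865) (nat_lit 372924938953199680)) (.cons (.br (nat_lit 9) (nat_lit 1) (.cons (.ev (nat_lit 4722366764348933734401) (nat_lit 1)) (.cons (.br (nat_lit 7) (nat_lit 1) (.cons (.br (nat_lit 10) (nat_lit 0) (.cons (.br (nat_lit 11) (nat_lit 0) (.cons (.zr (nat_lit 1208944267203132109422593) (nat_lit 158456334473261640926378328832) (nat_lit 5) (nat_lit 6)) .nil)) .nil)) (.cons (.rf (nat_lit 440) (nat_lit 407832167406701600)) .nil))) .nil))) .nil))),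
 (.br (nat_lit 7) (nat_lit 1) (.cons (.br (nat_lit 11) (nat_lit 0) (.cons (.br (nat_lit 10) (nat_lit 0) (.cons (.ev (nat_lit 79228167255149622130953486336) (nat_lit 1)) .nil)) .nil)) .nil)),
 (.br (nat_lit 4) (nat_lit 0) (.cons (.rf (nat_lit 865) (nat_lit 372924938953199680)) (.cons (.br (nat_lit 7) (nat_lit 1) (.cons (.rf (nat_lit 1377) (nat_lit 14242959524133701664)) (.cons (.rf (nat_lit 1377) (nat_lit 14207913692790654016)) .nil))) .nil))),
 (.br (nat_lit 4) (nat_lit 0) (.cons (.rf (nat_lit 992) (nat_lit 372856769232372800)) (.cons (.br (nat_lit 9) (nat_lit 1) (.cons (.ev (nat_lit 4722366764348933734401) (nat_lit 1)) (.cons (.rf (nat_lit 486) (nat_lit 410082968640490528)) .nil))) .nil))),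
 (.br (nat_lit 9) (nat_lit 1) (.cons (.br (nat_lit 10) (nat_lit 0) (.cons (.ev (nat_lit 1213648186380077603225601) (nat_lit 1)) .nil)) .nil)),
 (.br (nat_lit 9) (nat_lit 1) (.cons (.br (nat_lit 10) (nat_lit 0) (.cons (.br (nat_lit 11) (nat_lit 0) (.cons (.kr (nat_lit 928455029464035206191120640) (nat_lit 1208925963729821545594880) (nat_lit 1) (nat_lit 0)) .nil)) .nil)) .nil)),
 (.br (nat_lit 7) (nat_lit 1) (.cons (.br (nat_lit 4) (nat_lit 0) (.cons (.rf (nat_lit 797) (nat_lit 13835369730673696)) (.cons (.rf (nat_lit 855) (nat_lit 14242925439273206880)) (.cons (.br (nat_lit 8) (nat_lit 1) (.cons (.rf (nat_lit 625) (nat_lit 443825814413346848)) (.cons (.br (nat_lit 9) (nat_lit 1) (.cons (.rf (nat_lit 1380) (nat_lit 14242959524133701664)) (.cons (.br (nat_lit 9) (nat_lit 1) (.cons (.rf (nat_lit 1380) (nat_lit 14242959524133701664)) .nil)) .nil))) .nil))) .nil)))) (.cons (.br (nat_lit 4) (nat_lit 0) (.cons (.rf (nat_lit 797) (nat_lit 13835369730673696)) (.cons (.br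 (nat_lit 8) (nat_lit 1) (.cons (.rf (nat_lit 993) (nat_lit 407899271973670944)) (.cons (.rf (nat_lit 1065) (nat_lit 444986864332539936)) .nil))) (.cons (.br (nat_lit 8) (nat_lit 1) (.cons (.br (nat_lit 9) (nat_lit 1) (.cons (.rf (nat_lit 1381) (nat_lit 14242959524133701664)) (.cons (.br (nat_lit 9) (nat_lit 1) (.cons (.rf (nat_lit 1381) (nat_lit 14242959524133701664)) .nil)) .nil))) (.cons (.rf (nat_lit 625) (nat_lit 444951714320189472)) .nil))) .nil)))) .nil))),
 (.br (nat_lit 11) (nat_lit 0) (.cons (.ev (nat_lit 18519084242252595201) (nat_lit 1)) (.cons (.ev (nat_lit 79228162514264619072832405504) (nat_lit 1)) .nil))),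
 (.br (nat_lit 9) (nat_lit 1) (.cons (.br (nat_lit 10) (nat_lit 0) (.cons (.rf (nat_lit 1383) (nat_lit 14242959524133701664)) .nil)) .nil)),
 (.br (nat_lit 4) (nat_lit 0) (.cons (.rf (nat_lit 797) (nat_lit 13767200009751584)) (.cons (.br (nat_lit 9) (nat_lit 1) (.cons (.rf (nat_lit 1384) (nat_lit 14242959524133701664)) (.cons (.br (nat_lit 9) (nat_lit 1) (.cons (.rf (nat_lit 1384) (nat_lit 14242959524133701664)) .nil)) .nil))) .nil))),
 (.br (nat_lit 4) (nat_lit 0) (.cons (.rf (nat_lit 797) (nat_lit 13767200009751584)) (.cons (.br (nat_lit 8) (nat_lit 1) (.cons (.br (nat_lit 9) (nat_lit 1) (.cons (.rf (nat_lit 328) (nat_lit 372964485838702688)) (.cons (.br (nat_lit 10) (nat_lit 0) (.cons (.br (nat_lit 11) (nat_lit 0) (.cons (.ev (nat_lit 79229376180897179166090199296) (nat_lit 1)) .nil)) .nil)) .nil))) (.cons (.br (nat_lit 9) (nat_lit 1) (.cons (.br (nat_lit 10) (nat_lit 0) (.cons (.ev (nat_lit 1223148403694334233280770) (nat_lit 2)) .nil)) (.cons (.kr (nat_lit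 4722366482869645213696) (nat_lit 309485009821345068724781056) (nat_lit 9) (nat_lit 0)) .nil))) .nil))) .nil))),
 (.br (nat_lit 7) (nat_lit 1) (.cons (.rf (nat_lit 1382) (nat_lit 14242959524133701664)) (.cons (.br (nat_lit 4) (nat_lit 0) (.cons (.rf (nat_lit 1385) (nat_lit 14242959524133701664)) (.cons (.rf (nat_lit 1386) (nat_lit 14242959524133701664)) (.cons (.br (nat_lit 4) (nat_lit 0) (.cons (.rf (nat_lit 1385) (nat_lit 14242959524133701664)) (.cons (.rf (nat_lit 1386) (nat_lit 14242959524133701664)) .nil))) .nil)))) .nil))),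
 (.br (nat_lit 7) (nat_lit 1) (.cons (.rf (nat_lit 1382) (nat_lit 14242959524133701664)) (.cons (.rf (nat_lit 1387) (nat_lit 14242959524133701664)) (.cons (.br (nat_lit 7) (nat_lit 1) (.cons (.rf (nat_lit 1382) (nat_lit 14242959524133701664)) (.cons (.rf (nat_lit 1387) (nat_lit 14242959524133701664)) .nil))) .nil)))),
 (.br (nat_lit 9) (nat_lit 1) (.cons (.br (nat_lit 10) (nat_lit 0) (.cons (.br (nat_lit 11) (nat_lit 0) (.cons (.ev (nat_lit 79537652246452166635720540416) (nat_lit 1)) .nil)) .nil)) .nil)),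
 (.br (nat_lit 9) (nat_lit 1) (.cons (.br (nat_lit 11) (nat_lit 0) (.cons (.ev (nat_lit 79537652246452447011202400256) (nat_lit 1)) .nil)) .nil)),
 (.br (nat_lit 9) (nat_lit 1) (.cons (.rf (nat_lit 1390) (nat_lit 14242959524133701664)) (.cons (.br (nat_lit 9) (nat_lit 1) (.cons (.rf (nat_lit 1390) (nat_lit 14242959524133701664)) .nil)) .nil))),
 (.br (nat_lit 4) (nat_lit 0) (.cons (.rf (nat_lit 1070) (nat_lit 14242890222688897056)) (.cons (.rf (nat_lit 1339) (nat_lit 13802348980832384)) (.cons (.rf (nat_lit 1080) (nat_lit 14242958392409819168)) .nil)))),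
 (.br (nat_lit 9) (nat_lit 1) (.cons (.br (nat_lit 10) (nat_lit 0) (.cons (.br (nat_lit 11) (nat_lit 0) (.cons (.ev (nat_lit 158767018964602547818807493890) (nat_lit 3)) .nil)) .nil)) .nil)),
 (.br (nat_lit 10) (nat_lit 0) (.cons (.ev (nat_lit 1213648186097498819920129) (nat_lit 1)) (.cons (.ev (nat_lit 1213666633123051801215233) (nat_lit 1)) .nil)))]

theorem c37 : chkAll C T R L37 (nat_lit 1359) = true := by decide +kernel

theorem l37 : (nat_lit 1359) + L37.length = (nat_lit 1395) := by decide +kernel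

/-- part of the certificates -/
def L38 : List Prf := [(.br (nat_lit 8) (nat_lit 1) (.cons (.rf (nat_lit 361) (nat_lit 443860964423633952)) (.cons (.rf (nat_lit 1040) (nat_lit 14242958392409819168)) (.cons (.rf (nat_lit 1082) (nat_lit 14242890222688897056)) .nil)))),
 (.br (nat_lit 4) (nat_lit 0) (.cons (.rf (nat_lit 1159) (nat_lit 14242855105962477664)) (.cons (.br (nat_lit 8) (nat_lit 1) (.cons (.rf (nat_lit 393) (nat_lit 443928068994698272)) (.cons (.rf (nat_lit 1074) (nat_lit 14242958392409819168)) .nil))) .nil))),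
 (.br (nat_lit 4) (nat_lit 0) (.cons (.rf (nat_lit 1040) (nat_lit 14242959490847639648)) (.cons (.rf (nat_lit 1396) (nat_lit 14242959524133701664)) (.cons (.br (nat_lit 4) (nat_lit 0) (.cons (.rf (nat_lit 625) (nat_lit 443896147721883744)) (.cons (.rf (nat_lit 1396) (nat_lit 14242959524133701664)) .nil))) .nil)))),
 (.br (nat_lit 9) (nat_lit 1) (.cons (.br (nat_lit 10) (nat_lit 0) (.cons (.br (nat_lit 11) (nat_lit 0) (.cons (.ev (nat_lit 158771883001935788356611147010) (nat_lit 3)) .nil)) .nil)) .nil)),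
 (.br (nat_lit 4) (nat_lit 0) (.cons (.rf (nat_lit 1021) (nat_lit 14242958389288241184)) (.cons (.br (nat_lit 9) (nat_lit 1) (.cons (.rf (nat_lit 1398) (nat_lit 14242959524133701664)) (.cons (.br (nat_lit 9) (nat_lit 1) (.cons (.rf (nat_lit 1398) (nat_lit 14242959524133701664)) .nil)) .nil))) .nil))),
 (.br (nat_lit 4) (nat_lit 0) (.cons (.rf (nat_lit 1021) (nat_lit 14242958389288241184)) (.cons (.br (nat_lit 9) (nat_lit 1) (.cons (.br (nat_lit 8) (nat_lit 1) (.cons (.rf (nat_lit 437) (nat_lit 407900337127623712)) (.cons (.br (nat_lit 10) (nat_lit 0) (.cons (.br (nat_lit 11) (nat_lit 0) (.cons (.ev (nat_lit 792609300819127129588242253582) (nat_lit 4)) .nil)) .nil)) .nil))) (.cons (.ev (nat_lit 4722438823038188257281) (nat_lit 1)) .nil))) .nil))),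
 (.br (nat_lit 7) (nat_lit 1) (.cons (.rf (nat_lit 1148) (nat_lit 14242855072676546592)) (.cons (.rf (nat_lit 1149) (nat_lit 14242855072676546592)) .nil))),
 (.br (nat_lit 4) (nat_lit 0) (.cons (.rf (nat_lit 1401) (nat_lit 14242959524133701664)) (.cons (.br (nat_lit 7) (nat_lit 1) (.cons (.br (nat_lit 9) (nat_lit 1) (.cons (.br (nat_lit 9) (nat_lit 1) (.cons (.rf (nat_lit 527) (nat_lit 407900337127655456)) .nil)) (.cons (.rf (nat_lit 527) (nat_lit 407900337127655456)) .nil))) (.cons (.rf (nat_lit 1010) (nat_lit 14242958392409819168)) .nil))) .nil))),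
 (.br (nat_lit 9) (nat_lit 1) (.cons (.rf (nat_lit 393) (nat_lit 407828971951033376)) (.cons (.br (nat_lit 7) (nat_lit 1) (.cons (.rf (nat_lit 437) (nat_lit 443860964425665568)) (.cons (.ev (nat_lit 4722438540463683141889) (nat_lit 1)) .nil))) .nil))),
 (.br (nat_lit 4) (nat_lit 0) (.cons (.rf (nat_lit 1021) (nat_lit 14242889120087148640)) (.cons (.br (nat_lit 7) (nat_lit 1) (.cons (.br (nat_lit 9) (nat_lit 1) (.cons (.ev (nat_lit 4722438540463683141889) (nat_lit 1)) (.cons (.br (nat_lit 10) (nat_lit 0) (.cons (.br (nat_lit 11) (nat_lit 0) (.cons (.ev (nat_lit 158774329446028334063788688134) (nat_lit 4)) .nil)) .nil)) .nil))) (.cons (.rf (nat_lit 1135) (nat_lit 14242957327257929760)) .nil))) .nil))),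
 (.br (nat_lit 9) (nat_lit 1) (.cons (.br (nat_lit 11) (nat_lit 0) (.cons (.ev (nat_lit 79229380921926582202995441665) (nat_lit 2)) .nil)) .nil)),
 (.br (nat_lit 9) (nat_lit 1) (.cons (.br (nat_lit 10) (nat_lit 0) (.cons (.br (nat_lit 11) (nat_lit 0) (.cons (.ev (nat_lit 79538861172343838854654984448) (nat_lit 1)) .nil)) .nil)) .nil)),
 (.br (nat_lit 9) (nat_lit 1) (.cons (.ev (nat_lit 1213648186380073325101313) (nat_lit 1)) (.cons (.rf (nat_lit 1056) (nat_lit 14242890222688897056)) .nil))),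
 (.br (nat_lit 10) (nat_lit 0) (.cons (.rf (nat_lit 1291) (nat_lit 398824933825744192)) (.cons (.br (nat_lit 12) (nat_lit 1) (.cons (.ev (nat_lit 79229371440156010916284989696) (nat_lit 1)) .nil)) (.cons (.rf (nat_lit 1291) (nat_lit 397699033918934348)) .nil)))),
 (.br (nat_lit 7) (nat_lit 1) (.cons (.br (nat_lit 4) (nat_lit 0) (.cons (.rf (nat_lit 625) (nat_lit 443790594706279552)) (.cons (.br (nat_lit 8) (nat_lit 1) (.cons (.rf (nat_lit 588) (nat_lit 443929134146619424)) (.cons (.br (nat_lit 9) (nat_lit 1) (.cons (.rf (nat_lit 440) (nat_lit 372894120280198176)) (.cons (.rf (nat_lit 1088) (nat_lit 14242890222688897056)) .nil))) .nil))) (.cons (.br (nat_lit 8) (nat_lit 1) (.cons (.rf (nat_lit 589) (nat_lit 443929134146619424)) (.cons (.br (nat_lit 9) (nat_lit 1) (.cons (.rf (nat_lit 1405) (nat_lit 14242959524133701664)) (.cons (.br (nat_lit 9) (nat_lit 1) (.cons (.rf (nat_lit 1405) (nat_lit 14242959524133701664)) .nil)) .nil))) .nil))) .nil)))) (.cons (.br (nat_lit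 4) (nat_lit 0) (.cons (.br (nat_lit 9) (nat_lit 1) (.cons (.rf (nat_lit 1406) (nat_lit 14242959524133701664)) (.cons (.br (nat_lit 9) (nat_lit 1) (.cons (.rf (nat_lit 1406) (nat_lit 14242959524133701664)) .nil)) .nil))) (.cons (.br (nat_lit 8) (nat_lit 1) (.cons (.rf (nat_lit 1407) (nat_lit 14242959524133701664)) (.cons (.br (nat_lit 9) (nat_lit 1) (.cons (.br (nat_lit 10) (nat_lit 0) (.cons (.br (nat_lit 11) (nat_lit 0) (.cons (.ev (nat_lit 79229371458602753894761103616) (nat_lit 1)) .nil)) .nil)) (.cons (.kr (nat_lit 4722366482869645213696) (nat_lit 309485009821345068724781056) (nat_lit 9) (nat_lit 0)) .nil))) .nil))) (.cons (.br (nat_lit 8) (nat_lit 1) (.cons (.rf (nat_lit 1408) (nat_lit 14242959524133701664)) (.cons (.br (nat_lit 11) (nat_lit 0) (.cons (.rf (nat_lit 1187) (nat_lit 14242852942372767776)) (.cons (.rf (nat_lit 1359) (nat_lit 361633954122502508)) .nil))) .nil))) .nil)))) .nil))),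
 (.br (nat_lit 4) (nat_lit 0) (.cons (.rf (nat_lit 1028) (nat_lit 14242890222688897056)) (.cons (.br (nat_lit 10) (nat_lit 0) (.cons (.br (nat_lit 9) (nat_lit 1) (.cons (.br (nat_lit 11) (nat_lit 0) (.cons (.ev (nat_lit 79228167236703159536515612928) (nat_lit 1)) .nil)) .nil)) (.cons (.rf (nat_lit 1409) (nat_lit 397767303497846092)) .nil))) .nil))),
 (.br (nat_lit 4) (nat_lit 0) (.cons (.rf (nat_lit 1028) (nat_lit 14242890222688897056)) (.cons (.br (nat_lit 8) (nat_lit 1) (.cons (.rf (nat_lit 1407) (nat_lit 14242959524133701664)) (.cons (.br (nat_lit 11) (nat_lit 0) (.cons (.zr (nat_lit 14185546192682678747392) (nat_lit 144116296177418241) (nat_lit 5) (nat_lit 8)) (.cons (.ev (nat_lit 79537647542604484330033053696) (nat_lit 1)) .nil))) .nil))) .nil))),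
 (.br (nat_lit 7) (nat_lit 1) (.cons (.rf (nat_lit 1409) (nat_lit 14242959524133701664)) (.cons (.br (nat_lit 4) (nat_lit 0) (.cons (.rf (nat_lit 1410) (nat_lit 14242959524133701664)) (.cons (.rf (nat_lit 1411) (nat_lit 14242959524133701664)) (.cons (.br (nat_lit 4) (nat_lit 0) (.cons (.rf (nat_lit 1410) (nat_lit 14242959524133701664)) (.cons (.rf (nat_lit 1411) (nat_lit 14242959524133701664)) .nil))) .nil)))) .nil))),
 (.br (nat_lit 3) (nat_lit 0) (.cons (.br (nat_lit 7) (nat_lit 1) (.cons (.rf (nat_lit 1395) (nat_lit 14242959524133701664)) (.cons (.rf (nat_lit 1397) (nat_lit 14242959524133701664)) (.cons (.br (nat_lit 4) (nat_lit 0) (.cons (.rf (nat_lit 1399) (nat_lit 14242959524133701664)) (.cons (.rf (nat_lit 1400) (nat_lit 14242959524133701664)) (.cons (.br (nat_lit 4) (nat_lit 0) (.cons (.rf (nat_lit 1399) (nat_lit 14242959524133701664)) (.cons (.rf (nat_lit 1400) (nat_lit 14242959524133701664)) .nil))) .nil)))) .nil)))) (.cons (.br (nat_lit 4) (nat_lit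 0) (.cons (.rf (nat_lit 1402) (nat_lit 14242959524133701664)) (.cons (.rf (nat_lit 1402) (nat_lit 14242885925674780704)) (.cons (.br (nat_lit 4) (nat_lit 0) (.cons (.rf (nat_lit 1402) (nat_lit 14242959524133701664)) (.cons (.rf (nat_lit 1402) (nat_lit 14242885925674780704)) .nil))) .nil)))) (.cons (.br (nat_lit 8) (nat_lit 1) (.cons (.ev (nat_lit 18447025548703039489) (nat_lit 1)) (.cons (.br (nat_lit 4) (nat_lit 0) (.cons (.br (nat_lit 4) (nat_lit 0) (.cons (.rf (nat_lit 1159) (nat_lit 14242852942372767776)) (.cons (.rf (nat_lit 1403) (nat_lit 443930265870501920)) .nil))) (.cons (.rf (nat_lit 1040) (nat_lit 14242890222688897056)) (.cons (.br (nat_lit 4) (nat_lit 0) (.cons (.rf (nat_lit 1403) (nat_lit 443930265870501920)) (.cons (.rf (nat_lit 625) (nat_lit 443929134144524320)) .nil))) .nil)))) (.cons (.br (nat_lit 4) (nat_lit 0) (.cons (.rf (nat_lit 1404) (nat_lit 14242959524133701664)) (.cons (.rf (nat_lit 1395) (nat_lit 14242889224109000736)) (.cons (.br (nat_lit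 4) (nat_lit 0) (.cons (.rf (nat_lit 1404) (nat_lit 14242959524133701664)) (.cons (.rf (nat_lit 1395) (nat_lit 14242889224109000736)) .nil))) .nil)))) .nil)))) (.cons (.br (nat_lit 7) (nat_lit 1) (.cons (.rf (nat_lit 1409) (nat_lit 14242959524133701664)) (.cons (.rf (nat_lit 1412) (nat_lit 14242959524133701664)) (.cons (.br (nat_lit 7) (nat_lit 1) (.cons (.rf (nat_lit 1409) (nat_lit 14242959524133701664)) (.cons (.rf (nat_lit 1412) (nat_lit 14242959524133701664)) .nil))) .nil)))) .nil))))),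
 (.br (nat_lit 9) (nat_lit 1) (.cons (.rf (nat_lit 341) (nat_lit 12745855713018976)) (.cons (.rf (nat_lit 353) (nat_lit 11655140178265184)) .nil))),
 (.br (nat_lit 7) (nat_lit 1) (.cons (.rf (nat_lit 588) (nat_lit 407900337127655456)) (.cons (.br (nat_lit 9) (nat_lit 1) (.cons (.rf (nat_lit 437) (nat_lit 443929134146587680)) (.cons (.br (nat_lit 12) (nat_lit 0) (.cons (.br (nat_lit 10) (nat_lit 0) (.cons (.ev (nat_lit 310698676454469215742590976) (nat_lit 1)) .nil)) .nil)) .nil))) .nil))),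
 (.br (nat_lit 9) (nat_lit 1) (.cons (.br (nat_lit 9) (nat_lit 1) (.cons (.ev (nat_lit 4722438823038188257281) (nat_lit 1)) .nil)) (.cons (.br (nat_lit 9) (nat_lit 1) (.cons (.ev (nat_lit 4722438823038188257281) (nat_lit 1)) .nil)) .nil))),
 (.br (nat_lit 10) (nat_lit 0) (.cons (.ev (nat_lit 1208962786005899402150146) (nat_lit 2)) .nil)),
 (.br (nat_lit 8) (nat_lit 1) (.cons (.br (nat_lit 9) (nat_lit 1) (.cons (.br (nat_lit 10) (nat_lit 0) (.cons (.br (nat_lit 11) (nat_lit 0) (.cons (.ev (nat_lit 79538861190790581833131098368) (nat_lit 1)) .nil)) .nil)) (.cons (.ev (nat_lit 4722438540463683141889) (nat_lit 1)) .nil))) (.cons (.rf (nat_lit 1403) (nat_lit 445056165777344544)) .nil))),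
 (.br (nat_lit 4) (nat_lit 0) (.cons (.ev (nat_lit 282578783305729) (nat_lit 1)) (.cons (.br (nat_lit 8) (nat_lit 1) (.cons (.rf (nat_lit 1401) (nat_lit 14242959524133701664)) (.cons (.br (nat_lit 3) (nat_lit 0) (.cons (.rf (nat_lit 1021) (nat_lit 14208056591652096096)) (.cons (.rf (nat_lit 1021) (nat_lit 14207986222975027296)) (.cons (.br (nat_lit 7) (nat_lit 1) (.cons (.br (nat_lit 9) (nat_lit 1) (.cons (.ev (nat_lit 1208925891672223212634369) (nat_lit 1)) (.cons (.rf (nat_lit 1060) (nat_lit 14242890222688897056)) .nil))) (.cons (.br (nat_lit 9) (nat_lit 1) (.cons (.rf (nat_lit 1246) (nat_lit 14242885925674779712)) (.cons (.rf (nat_lit 440) (nat_lit 407797017392319520)) .nil))) .nil))) .nil)))) (.cons (.br (nat_lit 3) (nat_lit 0) (.cons (.rf (nat_lit 1414) (nat_lit 14242959524133701664)) (.cons (.rf (nat_lit 1414) (nat_lit 14242889224109000736)) (.cons (.rf (nat_lit 1415) (nat_lit 445056165777344544)) .nil)))) .nil)))) (.cons (.br (nat_lit 7) (nat_lit 1) (.cons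 (.rf (nat_lit 1416) (nat_lit 14242959524133701664)) (.cons (.br (nat_lit 3) (nat_lit 0) (.cons (.br (nat_lit 9) (nat_lit 1) (.cons (.rf (nat_lit 1417) (nat_lit 14242959524133701664)) (.cons (.br (nat_lit 9) (nat_lit 1) (.cons (.rf (nat_lit 1417) (nat_lit 14242959524133701664)) .nil)) .nil))) (.cons (.br (nat_lit 8) (nat_lit 1) (.cons (.br (nat_lit 9) (nat_lit 1) (.cons (.ev (nat_lit 4722438540463683141889) (nat_lit 1)) (.cons (.br (nat_lit 10) (nat_lit 0) (.cons (.br (nat_lit 11) (nat_lit 0) (.cons (.ev (nat_lit 79538861190790581833131098368) (nat_lit 1)) .nil)) .nil)) .nil))) (.cons (.rf (nat_lit 1403) (nat_lit 445056165777344544)) .nil))) (.cons (.br (nat_lit 8) (nat_lit 1) (.cons (.rf (nat_lit 1121) (nat_lit 443928068994730016)) (.cons (.br (nat_lit 11) (nat_lit 0) (.cons (.br (nat_lit 9) (nat_lit 1) (.cons (.br (nat_lit 10) (nat_lit 0) (.cons (.ev (nat_lit 1218407662526084428202754) (nat_lit 2)) .nil)) .nil)) (.cons (.rf (nat_lit 1291) (nat_lit 361670236898922860))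 .nil))) .nil))) .nil)))) (.cons (.br (nat_lit 9) (nat_lit 1) (.cons (.rf (nat_lit 1418) (nat_lit 14242959524133701664)) (.cons (.br (nat_lit 9) (nat_lit 1) (.cons (.rf (nat_lit 1418) (nat_lit 14242959524133701664)) (.cons (.ev (nat_lit 309485009893685241546080513) (nat_lit 1)) .nil))) (.cons (.ev (nat_lit 309485009893685241546080513) (nat_lit 1)) .nil)))) .nil)))) .nil)))),
 (.br (nat_lit 7) (nat_lit 1) (.cons (.br (nat_lit 9) (nat_lit 1) (.cons (.ev (nat_lit 4722438540463683141889) (nat_lit 1)) (.cons (.ev (nat_lit 4722438823038188257281) (nat_lit 1)) .nil))) (.cons (.br (nat_lit 9) (nat_lit 1) (.cons (.ev (nat_lit 4722438823038188257281) (nat_lit 1)) (.cons (.ev (nat_lit 4722438540463683141889) (nat_lit 1)) .nil))) .nil))),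
 (.br (nat_lit 11) (nat_lit 0) (.cons (.ev (nat_lit 1213648258156192369541121) (nat_lit 1)) (.cons (.ev (nat_lit 79228167255149622130953486336) (nat_lit 1)) .nil))),
 (.br (nat_lit 7) (nat_lit 1) (.cons (.br (nat_lit 10) (nat_lit 0) (.cons (.rf (nat_lit 1421) (nat_lit 14242959524133701664)) .nil)) .nil)),
 (.br (nat_lit 7) (nat_lit 1) (.cons (.br (nat_lit 9) (nat_lit 1) (.cons (.br (nat_lit 11) (nat_lit 0) (.cons (.ev (nat_lit 79537652246452447011202400256) (nat_lit 1)) .nil)) (.cons (.br (nat_lit 10) (nat_lit 0) (.cons (.zr (nat_lit 316912659501790320511563072768) (nat_lit 6044647617156288597852166) (nat_lit 10) (nat_lit 5)) .nil)) .nil))) .nil)),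
 (.br (nat_lit 4) (nat_lit 0) (.cons (.rf (nat_lit 1419) (nat_lit 14242959524133701664)) (.cons (.rf (nat_lit 1413) (nat_lit 14207983028561643552)) (.cons (.br (nat_lit 8) (nat_lit 1) (.cons (.rf (nat_lit 1419) (nat_lit 14242885925674780704)) (.cons (.br (nat_lit 3) (nat_lit 0) (.cons (.rf (nat_lit 1420) (nat_lit 14242959524133701664)) (.cons (.br (nat_lit 7) (nat_lit 1) (.cons (.rf (nat_lit 1422) (nat_lit 14242959524133701664)) (.cons (.br (nat_lit 7) (nat_lit 1) (.cons (.rf (nat_lit 1422) (nat_lit 14242959524133701664)) .nil)) .nil))) (.cons (.br (nat_lit 7) (nat_lit 1) (.cons (.rf (nat_lit 1423) (nat_lit 14242959524133701664)) (.cons (.br (nat_lit 7) (nat_lit 1) (.cons (.rf (nat_lit 1423) (nat_lit 14242959524133701664)) .nil)) .nil))) .nil)))) (.cons (.br (nat_lit 3) (nat_lit 0) (.cons (.rf (nat_lit 1420) (nat_lit 14242959524133701664)) (.cons (.rf (nat_lit 625) (nat_lit 445055034051366944)) (.cons (.br (nat_lit 9) (nat_lit 1) (.cons (.br (nat_lit 11) (nat_lit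 0) (.cons (.br (nat_lit 7) (nat_lit 1) (.cons (.ev (nat_lit 309485028340428211465814273) (nat_lit 1)) .nil)) (.cons (.rf (nat_lit 1291) (nat_lit 361670236898922860)) .nil))) (.cons (.rf (nat_lit 589) (nat_lit 444986864332539936)) .nil))) .nil)))) .nil)))) .nil)))),
 (.br (nat_lit 2) (nat_lit 0) (.cons (.rf (nat_lit 1373) (nat_lit 407901468851537952)) (.cons (.rf (nat_lit 1291) (nat_lit 407832133080548416)) (.cons (.br (nat_lit 6) (nat_lit 1) (.cons (.rf (nat_lit 1373) (nat_lit 407832133080548416)) (.cons (.rf (nat_lit 1373) (nat_lit 372929235967411264)) (.cons (.br (nat_lit 3) (nat_lit 0) (.cons (.br (nat_lit 8) (nat_lit 1) (.cons (.rf (nat_lit 1373) (nat_lit 372924973279479840)) (.cons (.rf (nat_lit 992) (nat_lit 407900337127655456)) (.cons (.rf (nat_lit 977) (nat_lit 407832167406733344)) .nil)))) (.cons (.rf (nat_lit 987) (nat_lit 407900337127655456)) (.cons (.rf (nat_lit 875) (nat_lit 407760731497335872)) (.cons (.br (nat_lit 8) (nat_lit 1) (.cons (.rf (nat_lit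 1373) (nat_lit 372924973279479840)) (.cons (.br (nat_lit 4) (nat_lit 0) (.cons (.rf (nat_lit 1374) (nat_lit 14242959524133701664)) (.cons (.rf (nat_lit 925) (nat_lit 14242958392409787424)) (.cons (.br (nat_lit 4) (nat_lit 0) (.cons (.rf (nat_lit 1374) (nat_lit 14242959524133701664)) (.cons (.rf (nat_lit 582) (nat_lit 443857768967933984)) .nil))) .nil)))) (.cons (.br (nat_lit 4) (nat_lit 0) (.cons (.rf (nat_lit 1375) (nat_lit 14242959524133701664)) (.cons (.rf (nat_lit 980) (nat_lit 14242887027233228832)) (.cons (.br (nat_lit 4) (nat_lit 0) (.cons (.rf (nat_lit 1375) (nat_lit 14242959524133701664)) (.cons (.rf (nat_lit 979) (nat_lit 14242887027233228832)) .nil))) .nil)))) .nil)))) .nil))))) (.cons (.br (nat_lit 8) (nat_lit 1) (.cons (.rf (nat_lit 987) (nat_lit 407900337127655456)) (.cons (.rf (nat_lit 1373) (nat_lit 372924973279479840)) (.cons (.br (nat_lit 3) (nat_lit 0) (.cons (.rf (nat_lit 993) (nat_lit 407900337127655456)) (.cons (.rf (nat_lit 341) (nat_lit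 11655039248565344)) (.cons (.br (nat_lit 4) (nat_lit 0) (.cons (.rf (nat_lit 1376) (nat_lit 14242959524133701664)) (.cons (.rf (nat_lit 1378) (nat_lit 14242959524133701664)) (.cons (.br (nat_lit 4) (nat_lit 0) (.cons (.rf (nat_lit 1376) (nat_lit 14242959524133701664)) (.cons (.rf (nat_lit 1378) (nat_lit 14242959524133701664)) .nil))) .nil)))) .nil)))) (.cons (.br (nat_lit 3) (nat_lit 0) (.cons (.rf (nat_lit 1370) (nat_lit 407831168826837024)) (.cons (.rf (nat_lit 353) (nat_lit 11655039248565344)) (.cons (.br (nat_lit 4) (nat_lit 0) (.cons (.rf (nat_lit 1379) (nat_lit 14242959524133701664)) (.cons (.rf (nat_lit 1005) (nat_lit 14242958392409819168)) (.cons (.br (nat_lit 4) (nat_lit 0) (.cons (.rf (nat_lit 1379) (nat_lit 14242959524133701664)) (.cons (.rf (nat_lit 582) (nat_lit 444983668874776608)) .nil))) .nil)))) .nil)))) .nil))))) .nil))))) (.cons (.br (nat_lit 6) (nat_lit 1) (.cons (.rf (nat_lit 1388) (nat_lit 14242959524133701664)) (.cons (.br (nat_lit 8) (nat_lit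 1) (.cons (.rf (nat_lit 1008) (nat_lit 14242958392409819168)) (.cons (.rf (nat_lit 1388) (nat_lit 14207983028561643552)) (.cons (.br (nat_lit 3) (nat_lit 0) (.cons (.br (nat_lit 4) (nat_lit 0) (.cons (.rf (nat_lit 797) (nat_lit 13836466088087648)) (.cons (.rf (nat_lit 866) (nat_lit 14242890222688865312)) (.cons (.br (nat_lit 7) (nat_lit 1) (.cons (.rf (nat_lit 605) (nat_lit 443928068994730016)) (.cons (.br (nat_lit 9) (nat_lit 1) (.cons (.br (nat_lit 9) (nat_lit 1) (.cons (.ev (nat_lit 4722438823038188257281) (nat_lit 1)) .nil)) (.cons (.br (nat_lit 9) (nat_lit 1) (.cons (.ev (nat_lit 4722438823038188257281) (nat_lit 1)) .nil)) .nil))) .nil))) .nil)))) (.cons (.ev (nat_lit 18447025548703039489) (nat_lit 1)) (.cons (.br (nat_lit 4) (nat_lit 0) (.cons (.br (nat_lit 7) (nat_lit 1) (.cons (.rf (nat_lit 582) (nat_lit 443929134146619424)) (.cons (.br (nat_lit 9) (nat_lit 1) (.cons (.rf (nat_lit 1389) (nat_lit 14242959524133701664)) (.cons (.br (nat_lit 9) (nat_lit 1)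 (.cons (.rf (nat_lit 1389) (nat_lit 14242959524133701664)) .nil)) .nil))) .nil))) (.cons (.br (nat_lit 9) (nat_lit 1) (.cons (.rf (nat_lit 582) (nat_lit 443860964425697312)) (.cons (.br (nat_lit 7) (nat_lit 1) (.cons (.rf (nat_lit 1052) (nat_lit 14242925405987244064)) (.cons (.br (nat_lit 7) (nat_lit 1) (.cons (.rf (nat_lit 1052) (nat_lit 14242925405987244064)) .nil)) .nil))) .nil))) (.cons (.br (nat_lit 7) (nat_lit 1) (.cons (.br (nat_lit 7) (nat_lit 1) (.cons (.rf (nat_lit 1391) (nat_lit 14242959524133701664)) .nil)) (.cons (.rf (nat_lit 1391) (nat_lit 14242959524133701664)) .nil))) .nil)))) .nil)))) (.cons (.br (nat_lit 3) (nat_lit 0) (.cons (.rf (nat_lit 1392) (nat_lit 14242889224109000736)) (.cons (.rf (nat_lit 1392) (nat_lit 14242959524133701664)) (.cons (.br (nat_lit 4) (nat_lit 0) (.cons (.br (nat_lit 7) (nat_lit 1) (.cons (.br (nat_lit 9) (nat_lit 1) (.cons (.rf (nat_lit 1393) (nat_lit 14242959524133701664)) (.cons (.br (nat_lit 9) (nat_lit 1) (.cons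 (.rf (nat_lit 1393) (nat_lit 14242959524133701664)) .nil)) .nil))) (.cons (.rf (nat_lit 582) (nat_lit 445055034053462048)) .nil))) (.cons (.br (nat_lit 9) (nat_lit 1) (.cons (.br (nat_lit 7) (nat_lit 1) (.cons (.rf (nat_lit 1394) (nat_lit 14242959524133701664)) (.cons (.br (nat_lit 7) (nat_lit 1) (.cons (.rf (nat_lit 1394) (nat_lit 14242959524133701664)) .nil)) .nil))) (.cons (.rf (nat_lit 582) (nat_lit 444986864332539936)) .nil))) (.cons (.br (nat_lit 10) (nat_lit 0) (.cons (.rf (nat_lit 1189) (nat_lit 445089153273661472)) (.cons (.rf (nat_lit 1189) (nat_lit 445089221993138208)) (.cons (.rf (nat_lit 1087) (nat_lit 445090218425550880)) .nil)))) .nil)))) .nil)))) .nil))))) (.cons (.rf (nat_lit 1413) (nat_lit 14242959524133701664)) (.cons (.br (nat_lit 4) (nat_lit 0) (.cons (.rf (nat_lit 1419) (nat_lit 14242959524133701664)) (.cons (.rf (nat_lit 1413) (nat_lit 14207983028561643552)) (.cons (.rf (nat_lit 1424) (nat_lit 14242959524133701664)) (.cons (.br (nat_lit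 4) (nat_lit 0) (.cons (.rf (nat_lit 1419) (nat_lit 14242959524133701664)) (.cons (.rf (nat_lit 1413) (nat_lit 14207983028561643552)) (.cons (.rf (nat_lit 1424) (nat_lit 14242959524133701664)) .nil)))) .nil))))) .nil))))) .nil)))))]

theorem c38 : chkAll C T R L38 (nat_lit 1395) = true := by decide +kernel

theorem l38 : (nat_lit 1395) + L38.length = (nat_lit 1426) := by decide +kernel

/-- part of the certificates -/
def L39 : List Prf := [(.br (nat_lit 9) (nat_lit 1) (.cons (.br (nat_lit 10) (nat_lit 0) (.cons (.br (nat_lit 11) (nat_lit 0) (.cons (.ev (nat_lit 315539120979347993671172868) (nat_lit 3)) .nil)) .nil)) .nil)),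
 (.br (nat_lit 8) (nat_lit 1) (.cons (.rf (nat_lit 338) (nat_lit 443928068992666656)) (.cons (.rf (nat_lit 1107) (nat_lit 14242958392409819168)) (.cons (.rf (nat_lit 1128) (nat_lit 14242958392409819168)) .nil)))),
 (.br (nat_lit 10) (nat_lit 0) (.cons (.ev (nat_lit 1208944266641277372661761) (nat_lit 1)) .nil)),
 (.br (nat_lit 4) (nat_lit 0) (.cons (.rf (nat_lit 1021) (nat_lit 14208054427024230432)) (.cons (.br (nat_lit 9) (nat_lit 1) (.cons (.rf (nat_lit 1428) (nat_lit 14242959524133701664)) (.cons (.br (nat_lit 9) (nat_lit 1) (.cons (.rf (nat_lit 1428) (nat_lit 14242959524133701664)) .nil)) .nil))) .nil))),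
 (.br (nat_lit 4) (nat_lit 0) (.cons (.rf (nat_lit 1021) (nat_lit 14208054427024230432)) (.cons (.br (nat_lit 8) (nat_lit 1) (.cons (.br (nat_lit 9) (nat_lit 1) (.cons (.rf (nat_lit 393) (nat_lit 443860964423633952)) (.cons (.br (nat_lit 10) (nat_lit 0) (.cons (.br (nat_lit 11) (nat_lit 0) (.cons (.zr (nat_lit 6063518564004624454386944) (nat_lit 79228162532783984794323255297) (nat_lit 10) (nat_lit 8)) .nil)) .nil)) .nil))) (.cons (.br (nat_lit 9) (nat_lit 1) (.cons (.br (nat_lit 10) (nat_lit 0) (.cons (.br (nat_lit 11) (nat_lit 0) (.cons (.zr (nat_lit 4722439103413636759552) (nat_lit 79230580365903566851893363456) (nat_lit 5) (nat_lit 7)) .nil)) .nil)) (.cons (.kr (nat_lit 4722366482869645213696) (nat_lit 309485009821345068724781056) (nat_lit 9) (nat_lit 0)) .nil))) .nil))) .nil))),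
 (.br (nat_lit 9) (nat_lit 1) (.cons (.br (nat_lit 10) (nat_lit 0) (.cons (.br (nat_lit 11) (nat_lit 0) (.cons (.ev (nat_lit 158767037890530743373850018562) (nat_lit 3)) .nil)) .nil)) .nil)),
 (.br (nat_lit 11) (nat_lit 0) (.cons (.ev (nat_lit 18519084242252595201) (nat_lit 1)) (.cons (.ev (nat_lit 79229376180969237859622977536) (nat_lit 1)) .nil))),
 (.br (nat_lit 9) (nat_lit 1) (.cons (.br (nat_lit 10) (nat_lit 0) (.cons (.rf (nat_lit 1432) (nat_lit 14242959524133701664)) .nil)) .nil)),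
 (.br (nat_lit 4) (nat_lit 0) (.cons (.rf (nat_lit 852) (nat_lit 407900334004998176)) (.cons (.br (nat_lit 9) (nat_lit 1) (.cons (.rf (nat_lit 1433) (nat_lit 14242959524133701664)) (.cons (.br (nat_lit 9) (nat_lit 1) (.cons (.rf (nat_lit 1433) (nat_lit 14242959524133701664)) .nil)) .nil))) .nil))),
 (.br (nat_lit 4) (nat_lit 0) (.cons (.rf (nat_lit 852) (nat_lit 407900334004998176)) (.cons (.br (nat_lit 8) (nat_lit 1) (.cons (.br (nat_lit 9) (nat_lit 1) (.cons (.ev (nat_lit 1208925819896108463226881) (nat_lit 1)) (.cons (.br (nat_lit 10) (nat_lit 0) (.cons (.br (nat_lit 11) (nat_lit 0) (.cons (.ev (nat_lit 79229376180897179166090199296) (nat_lit 1)) .nil)) .nil)) .nil))) (.cons (.br (nat_lit 9) (nat_lit 1) (.cons (.br (nat_lit 10) (nat_lit 0) (.cons (.br (nat_lit 11) (nat_lit 0) (.cons (.ev (nat_lit 79537652264970968303484862720) (nat_lit 1)) .nil)) .nil)) (.cons (.ev (nat_lit 309485009893685237267824641) (nat_lit 1)) .nil))) .nil))) .nil))),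
 (.br (nat_lit 10) (nat_lit 0) (.cons (.ev (nat_lit 1208925819896108463226881) (nat_lit 1)) (.cons (.ev (nat_lit 1213648186097498819985409) (nat_lit 1)) .nil))),
 (.br (nat_lit 4) (nat_lit 0) (.cons (.rf (nat_lit 852) (nat_lit 407900334004998176)) (.cons (.br (nat_lit 8) (nat_lit 1) (.cons (.br (nat_lit 9) (nat_lit 1) (.cons (.rf (nat_lit 1436) (nat_lit 14242959524133701664)) (.cons (.rf (nat_lit 437) (nat_lit 372998571739382880)) .nil))) (.cons (.rf (nat_lit 393) (nat_lit 445055034053430304)) .nil))) .nil))),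
 (.br (nat_lit 6) (nat_lit 1) (.cons (.br (nat_lit 8) (nat_lit 1) (.cons (.rf (nat_lit 824) (nat_lit 13834304578784288)) (.cons (.br (nat_lit 4) (nat_lit 0) (.cons (.rf (nat_lit 797) (nat_lit 13836500414271584)) (.cons (.rf (nat_lit 1159) (nat_lit 14242890222688897056)) (.cons (.br (nat_lit 7) (nat_lit 1) (.cons (.rf (nat_lit 625) (nat_lit 443825814411251744)) (.cons (.br (nat_lit 9) (nat_lit 1) (.cons (.rf (nat_lit 1426) (nat_lit 14242959524133701664)) (.cons (.br (nat_lit 9) (nat_lit 1) (.cons (.rf (nat_lit 1426) (nat_lit 14242959524133701664)) .nil)) .nil))) .nil))) .nil)))) (.cons (.rf (nat_lit 1127) (nat_lit 14242958392409819168)) .nil)))) (.cons (.br (nat_lit 7) (nat_lit 1) (.cons (.rf (nat_lit 1427) (nat_lit 14242959524133701664)) (.cons (.rf (nat_lit 1397) (nat_lit 14242959490847705120)) (.cons (.br (nat_lit 4) (nat_lit 0) (.cons (.rf (nat_lit 1429) (nat_lit 14242959524133701664)) (.cons (.rf (nat_lit 1430) (nat_lit 14242959524133701664)) (.cons (.br (nat_lit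 4) (nat_lit 0) (.cons (.rf (nat_lit 1429) (nat_lit 14242959524133701664)) (.cons (.rf (nat_lit 1430) (nat_lit 14242959524133701664)) .nil))) .nil)))) .nil)))) (.cons (.br (nat_lit 7) (nat_lit 1) (.cons (.br (nat_lit 8) (nat_lit 1) (.cons (.rf (nat_lit 1339) (nat_lit 13730882908096640)) (.cons (.br (nat_lit 4) (nat_lit 0) (.cons (.rf (nat_lit 833) (nat_lit 407899271973702688)) (.cons (.br (nat_lit 9) (nat_lit 1) (.cons (.rf (nat_lit 1431) (nat_lit 14242959524133701664)) (.cons (.br (nat_lit 9) (nat_lit 1) (.cons (.rf (nat_lit 1431) (nat_lit 14242959524133701664)) .nil)) .nil))) .nil))) (.cons (.rf (nat_lit 1180) (nat_lit 14242890222688897056)) .nil)))) (.cons (.br (nat_lit 4) (nat_lit 0) (.cons (.rf (nat_lit 1434) (nat_lit 14242959524133701664)) (.cons (.rf (nat_lit 1435) (nat_lit 14242959524133701664)) (.cons (.br (nat_lit 4) (nat_lit 0) (.cons (.rf (nat_lit 1434) (nat_lit 14242959524133701664)) (.cons (.rf (nat_lit 1435) (nat_lit 14242959524133701664)) .nil)))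 .nil)))) (.cons (.br (nat_lit 4) (nat_lit 0) (.cons (.br (nat_lit 4) (nat_lit 0) (.cons (.rf (nat_lit 852) (nat_lit 407900334004998176)) (.cons (.rf (nat_lit 625) (nat_lit 445022080914722912)) .nil))) (.cons (.rf (nat_lit 1437) (nat_lit 14242959524133701664)) (.cons (.br (nat_lit 4) (nat_lit 0) (.cons (.rf (nat_lit 625) (nat_lit 445022080914722912)) (.cons (.rf (nat_lit 1437) (nat_lit 14242959524133701664)) .nil))) .nil)))) .nil)))) .nil)))),
 (.br (nat_lit 9) (nat_lit 1) (.cons (.ev (nat_lit 9463252332568899486466) (nat_lit 2)) (.cons (.br (nat_lit 10) (nat_lit 0) (.cons (.ev (nat_lit 2427315035677006768374530) (nat_lit 2)) .nil)) .nil))),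
 (.br (nat_lit 9) (nat_lit 1) (.cons (.br (nat_lit 10) (nat_lit 0) (.cons (.br (nat_lit 11) (nat_lit 0) (.cons (.ev (nat_lit 79537652264970968299173052416) (nat_lit 1)) .nil)) .nil)) .nil)),
 (.br (nat_lit 9) (nat_lit 1) (.cons (.rf (nat_lit 1440) (nat_lit 14242959524133701664)) (.cons (.br (nat_lit 9) (nat_lit 1) (.cons (.rf (nat_lit 1440) (nat_lit 14242959524133701664)) .nil)) .nil))),
 (.br (nat_lit 10) (nat_lit 0) (.cons (.ev (nat_lit 1213648258156196664442881) (nat_lit 1)) .nil)),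
 (.br (nat_lit 9) (nat_lit 1) (.cons (.br (nat_lit 10) (nat_lit 0) (.cons (.br (nat_lit 11) (nat_lit 0) (.cons (.ev (nat_lit 475684504761400625184123192070) (nat_lit 3)) .nil)) .nil)) .nil)),
 (.br (nat_lit 10) (nat_lit 0) (.cons (.ev (nat_lit 1208944266641281684340993) (nat_lit 1)) .nil)),
 (.br (nat_lit 9) (nat_lit 1) (.cons (.kr (nat_lit 4722366482869645213696) (nat_lit 1208925819614629174706176) (nat_lit 9) (nat_lit 0)) (.cons (.ev (nat_lit 1213666704899170862432513) (nat_lit 1)) .nil))),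
 (.br (nat_lit 6) (nat_lit 1) (.cons (.rf (nat_lit 1438) (nat_lit 14242959524133701664)) (.cons (.br (nat_lit 3) (nat_lit 0) (.cons (.br (nat_lit 4) (nat_lit 0) (.cons (.rf (nat_lit 338) (nat_lit 443928065872072736)) (.cons (.rf (nat_lit 855) (nat_lit 14242925405987210336)) (.cons (.br (nat_lit 8) (nat_lit 1) (.cons (.rf (nat_lit 625) (nat_lit 443860964425697312)) (.cons (.ev (nat_lit 18518801672042512641) (nat_lit 1)) .nil))) .nil)))) (.cons (.br (nat_lit 4) (nat_lit 0) (.cons (.rf (nat_lit 986) (nat_lit 13767200009719840)) (.cons (.rf (nat_lit 1148) (nat_lit 14242890222688897056)) (.cons (.br (nat_lit 7) (nat_lit 1) (.cons (.br (nat_lit 9) (nat_lit 1) (.cons (.br (nat_lit 9) (nat_lit 1) (.cons (.rf (nat_lit 527) (nat_lit 407899271975766048)) .nil)) (.cons (.rf (nat_lit 527) (nat_lit 407899271975766048)) .nil))) (.cons (.ev (nat_lit 18518801672042512641) (nat_lit 1)) .nil))) .nil)))) (.cons (.br (nat_lit 8) (nat_lit 1) (.cons (.rf (nat_lit 852) (nat_lit 372997440013470752))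 (.cons (.br (nat_lit 4) (nat_lit 0) (.cons (.rf (nat_lit 866) (nat_lit 14242957327257898016)) (.cons (.rf (nat_lit 353) (nat_lit 12745754781287520)) (.cons (.br (nat_lit 9) (nat_lit 1) (.cons (.rf (nat_lit 393) (nat_lit 443857768967965728)) (.cons (.br (nat_lit 7) (nat_lit 1) (.cons (.rf (nat_lit 437) (nat_lit 407797017394351136)) (.cons (.rf (nat_lit 1299) (nat_lit 14242925405987210336)) .nil))) .nil))) .nil)))) (.cons (.br (nat_lit 4) (nat_lit 0) (.cons (.rf (nat_lit 865) (nat_lit 372997440013470752)) (.cons (.ev (nat_lit 4740813509522154848513) (nat_lit 1)) (.cons (.br (nat_lit 9) (nat_lit 1) (.cons (.br (nat_lit 7) (nat_lit 1) (.cons (.rf (nat_lit 437) (nat_lit 407795918956463200)) (.cons (.br (nat_lit 10) (nat_lit 0) (.cons (.br (nat_lit 11) (nat_lit 0) (.cons (.ev (nat_lit 475686922613039291509766291718) (nat_lit 3)) .nil)) .nil)) .nil))) (.cons (.rf (nat_lit 1183) (nat_lit 444986864332539936)) .nil))) .nil)))) .nil)))) (.cons (.br (nat_lit 7) (nat_lit 1)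 (.cons (.br (nat_lit 8) (nat_lit 1) (.cons (.rf (nat_lit 582) (nat_lit 443928068994730016)) (.cons (.br (nat_lit 9) (nat_lit 1) (.cons (.rf (nat_lit 1439) (nat_lit 14242959524133701664)) (.cons (.br (nat_lit 9) (nat_lit 1) (.cons (.rf (nat_lit 1439) (nat_lit 14242959524133701664)) .nil)) .nil))) .nil))) (.cons (.br (nat_lit 4) (nat_lit 0) (.cons (.rf (nat_lit 625) (nat_lit 443790627992276096)) (.cons (.br (nat_lit 9) (nat_lit 1) (.cons (.ev (nat_lit 4722582940425320989186) (nat_lit 2)) (.cons (.ev (nat_lit 4722366764348933734401) (nat_lit 1)) .nil))) (.cons (.br (nat_lit 8) (nat_lit 1) (.cons (.rf (nat_lit 589) (nat_lit 443928068994730016)) (.cons (.br (nat_lit 10) (nat_lit 0) (.cons (.br (nat_lit 9) (nat_lit 1) (.cons (.br (nat_lit 11) (nat_lit 0) (.cons (.ev (nat_lit 792594803080813071712088165646) (nat_lit 4)) .nil)) .nil)) (.cons (.rf (nat_lit 1425) (nat_lit 397731054007422284)) .nil))) .nil))) .nil)))) (.cons (.br (nat_lit 4) (nat_lit 0) (.cons (.rf (nat_lit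 1441) (nat_lit 14242959524133701664)) (.cons (.ev (nat_lit 72058697844523009) (nat_lit 1)) (.cons (.br (nat_lit 8) (nat_lit 1) (.cons (.br (nat_lit 10) (nat_lit 0) (.cons (.br (nat_lit 9) (nat_lit 1) (.cons (.br (nat_lit 11) (nat_lit 0) (.cons (.ev (nat_lit 79537652264970968299173052416) (nat_lit 1)) .nil)) .nil)) (.cons (.rf (nat_lit 1291) (nat_lit 397699033918934348)) .nil))) (.cons (.br (nat_lit 11) (nat_lit 0) (.cons (.ev (nat_lit 309485010037802624400556546) (nat_lit 2)) (.cons (.ev (nat_lit 309485009821626548013301761) (nat_lit 1)) .nil))) .nil))) .nil)))) .nil)))) .nil))))) (.cons (.br (nat_lit 3) (nat_lit 0) (.cons (.br (nat_lit 4) (nat_lit 0) (.cons (.rf (nat_lit 338) (nat_lit 445053965778915360)) (.cons (.br (nat_lit 8) (nat_lit 1) (.cons (.rf (nat_lit 993) (nat_lit 407900337125560352)) (.cons (.rf (nat_lit 1131) (nat_lit 14242958392409819168)) .nil))) (.cons (.rf (nat_lit 1416) (nat_lit 14242959524131606560)) .nil)))) (.cons (.br (nat_lit 4) (nat_lit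 0) (.cons (.rf (nat_lit 986) (nat_lit 13767200009719840)) (.cons (.rf (nat_lit 1149) (nat_lit 14242890222688897056)) (.cons (.br (nat_lit 7) (nat_lit 1) (.cons (.rf (nat_lit 1010) (nat_lit 14242957327257929760)) (.cons (.ev (nat_lit 18518801672042512641) (nat_lit 1)) .nil))) .nil)))) (.cons (.br (nat_lit 7) (nat_lit 1) (.cons (.rf (nat_lit 922) (nat_lit 14208022473507637376)) (.cons (.br (nat_lit 4) (nat_lit 0) (.cons (.rf (nat_lit 1021) (nat_lit 14242957327257929760)) (.cons (.rf (nat_lit 1021) (nat_lit 14242922143959517280)) (.cons (.br (nat_lit 8) (nat_lit 1) (.cons (.br (nat_lit 9) (nat_lit 1) (.cons (.kr (nat_lit 4722366482869645213696) (nat_lit 1208925819614629174706176) (nat_lit 9) (nat_lit 0)) (.cons (.rf (nat_lit 1442) (nat_lit 14242959524133701664)) .nil))) (.cons (.rf (nat_lit 1135) (nat_lit 14242958392409819168)) .nil))) .nil)))) (.cons (.br (nat_lit 4) (nat_lit 0) (.cons (.rf (nat_lit 1159) (nat_lit 14207987289169102976)) (.cons (.ev (nat_lit 72058697844523009)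 (nat_lit 1)) (.cons (.br (nat_lit 11) (nat_lit 0) (.cons (.rf (nat_lit 1135) (nat_lit 14242958392409819168)) (.cons (.ev (nat_lit 309485009893685241546080513) (nat_lit 1)) (.cons (.kr (nat_lit 309485009821345068724781312) (nat_lit 281474976776192) (nat_lit 1) (nat_lit 0)) .nil)))) .nil)))) .nil)))) (.cons (.br (nat_lit 7) (nat_lit 1) (.cons (.br (nat_lit 8) (nat_lit 1) (.cons (.br (nat_lit 9) (nat_lit 1) (.cons (.rf (nat_lit 1443) (nat_lit 14242959524133701664)) (.cons (.br (nat_lit 9) (nat_lit 1) (.cons (.rf (nat_lit 1443) (nat_lit 14242959524133701664)) .nil)) .nil))) (.cons (.rf (nat_lit 582) (nat_lit 445053968901572640)) .nil))) (.cons (.br (nat_lit 4) (nat_lit 0) (.cons (.br (nat_lit 9) (nat_lit 1) (.cons (.rf (nat_lit 1444) (nat_lit 14242959524133701664)) (.cons (.br (nat_lit 9) (nat_lit 1) (.cons (.rf (nat_lit 1444) (nat_lit 14242959524133701664)) .nil)) .nil))) (.cons (.br (nat_lit 9) (nat_lit 1) (.cons (.ev (nat_lit 4722366764348933734401) (nat_lit 1))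 (.cons (.br (nat_lit 8) (nat_lit 1) (.cons (.br (nat_lit 10) (nat_lit 0) (.cons (.br (nat_lit 11) (nat_lit 0) (.cons (.ev (nat_lit 158774272629768917404558362370) (nat_lit 3)) .nil)) .nil)) (.cons (.rf (nat_lit 445) (nat_lit 372997440013470752)) .nil))) .nil))) (.cons (.br (nat_lit 8) (nat_lit 1) (.cons (.br (nat_lit 9) (nat_lit 1) (.cons (.rf (nat_lit 1445) (nat_lit 14242959524133701664)) (.cons (.br (nat_lit 9) (nat_lit 1) (.cons (.ev (nat_lit 1213666704899170862432513) (nat_lit 1)) .nil)) .nil))) (.cons (.br (nat_lit 11) (nat_lit 0) (.cons (.rf (nat_lit 1187) (nat_lit 14242887027233228832)) (.cons (.ev (nat_lit 79537647524085965241052102656) (nat_lit 1)) .nil))) .nil))) .nil)))) (.cons (.br (nat_lit 4) (nat_lit 0) (.cons (.rf (nat_lit 625) (nat_lit 444916527899118720)) (.cons (.ev (nat_lit 72058697844523009) (nat_lit 1)) (.cons (.br (nat_lit 11) (nat_lit 0) (.cons (.rf (nat_lit 589) (nat_lit 445053968901572640)) (.cons (.ev (nat_lit 309485009893685241546080513)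 (nat_lit 1)) (.cons (.kr (nat_lit 309485009821345068724781312) (nat_lit 281474976776192) (nat_lit 1) (nat_lit 0)) .nil)))) .nil)))) .nil)))) .nil))))) .nil)))),
 (.br (nat_lit 9) (nat_lit 1) (.cons (.br (nat_lit 10) (nat_lit 0) (.cons (.ev (nat_lit 1223148331918215172063490) (nat_lit 2)) .nil)) .nil)),
 (.br (nat_lit 4) (nat_lit 0) (.cons (.rf (nat_lit 1339) (nat_lit 13833237348517984)) (.cons (.br (nat_lit 9) (nat_lit 1) (.cons (.rf (nat_lit 1447) (nat_lit 14242959524133701664)) (.cons (.br (nat_lit 9) (nat_lit 1) (.cons (.rf (nat_lit 1447) (nat_lit 14242959524133701664)) .nil)) .nil))) .nil))),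
 (.br (nat_lit 4) (nat_lit 0) (.cons (.rf (nat_lit 1339) (nat_lit 13833237348517984)) (.cons (.br (nat_lit 9) (nat_lit 1) (.cons (.br (nat_lit 8) (nat_lit 1) (.cons (.rf (nat_lit 328) (nat_lit 372964451512518752)) (.cons (.br (nat_lit 10) (nat_lit 0) (.cons (.rf (nat_lit 1383) (nat_lit 14242925405987244064)) .nil)) .nil))) (.cons (.ev (nat_lit 4722438823038188257281) (nat_lit 1)) .nil))) .nil))),
 (.br (nat_lit 4) (nat_lit 0) (.cons (.br (nat_lit 9) (nat_lit 1) (.cons (.rf (nat_lit 517) (nat_lit 372996374863644704)) (.cons (.rf (nat_lit 517) (nat_lit 407899271975766048)) .nil))) (.cons (.rf (nat_lit 1007) (nat_lit 14242957327257929760)) .nil))),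
 (.br (nat_lit 4) (nat_lit 0) (.cons (.rf (nat_lit 1450) (nat_lit 14242959524133701664)) (.cons (.br (nat_lit 7) (nat_lit 1) (.cons (.br (nat_lit 9) (nat_lit 1) (.cons (.rf (nat_lit 527) (nat_lit 407797017394382880)) (.cons (.rf (nat_lit 1010) (nat_lit 14242855072676546592)) .nil))) (.cons (.br (nat_lit 9) (nat_lit 1) (.cons (.br (nat_lit 10) (nat_lit 0) (.cons (.br (nat_lit 11) (nat_lit 0) (.cons (.ev (nat_lit 79538861190718805714069881088) (nat_lit 1)) .nil)) .nil)) (.cons (.rf (nat_lit 527) (nat_lit 372894120282261536)) .nil))) .nil))) .nil))),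
 (.br (nat_lit 4) (nat_lit 0) (.cons (.rf (nat_lit 365) (nat_lit 12746853219175456)) (.cons (.br (nat_lit 9) (nat_lit 1) (.cons (.br (nat_lit 10) (nat_lit 0) (.cons (.ev (nat_lit 1213666849016557995163906) (nat_lit 2)) .nil)) (.cons (.ev (nat_lit 309489750706629610412507393) (nat_lit 1)) .nil))) .nil))),
 (.br (nat_lit 4) (nat_lit 0) (.cons (.rf (nat_lit 365) (nat_lit 12746853219175456)) (.cons (.br (nat_lit 8) (nat_lit 1) (.cons (.br (nat_lit 10) (nat_lit 0) (.cons (.ev (nat_lit 1213666849016557995163906) (nat_lit 2)) .nil)) (.cons (.ev (nat_lit 309489750706629610412507393) (nat_lit 1)) .nil))) .nil)))]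

theorem c39 : chkAll C T R L39 (nat_lit 1426) = true := by decide +kernel

theorem l39 : (nat_lit 1426) + L39.length = (nat_lit 1454) := by decide +kernel

/-- part of the certificates -/
def L40 : List Prf := [(.br (nat_lit 9) (nat_lit 1) (.cons (.br (nat_lit 10) (nat_lit 0) (.cons (.ev (nat_lit 1213666704899170862432513) (nat_lit 1)) .nil)) .nil)),
 (.br (nat_lit 11) (nat_lit 1) (.cons (.br (nat_lit 11) (nat_lit 1) (.cons (.ev (nat_lit 309485009821626548013236224) (nat_lit 1)) .nil)) (.cons (.rf (nat_lit 189) (nat_lit 406525979904747648)) .nil))),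
 (.br (nat_lit 4) (nat_lit 0) (.cons (.br (nat_lit 9) (nat_lit 1) (.cons (.rf (nat_lit 328) (nat_lit 372997440013470752)) (.cons (.br (nat_lit 10) (nat_lit 0) (.cons (.ev (nat_lit 1213666704899170862432513) (nat_lit 1)) .nil)) .nil))) (.cons (.br (nat_lit 10) (nat_lit 0) (.cons (.br (nat_lit 9) (nat_lit 1) (.cons (.ev (nat_lit 2422611116218582019670530) (nat_lit 2)) .nil)) (.cons (.rf (nat_lit 1425) (nat_lit 397731054007422284)) .nil))) .nil))),
 (.br (nat_lit 4) (nat_lit 0) (.cons (.rf (nat_lit 1456) (nat_lit 14242959524133701664)) (.cons (.br (nat_lit 8) (nat_lit 1) (.cons (.ev (nat_lit 1208944266641281684340993) (nat_lit 1)) (.cons (.br (nat_lit 11) (nat_lit 0) (.cons (.rf (nat_lit 1187) (nat_lit 14242890222688897056)) (.cons (.rf (nat_lit 1291) (nat_lit 361670236898922860)) .nil))) .nil))) .nil))),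
 (.br (nat_lit 4) (nat_lit 0) (.cons (.br (nat_lit 9) (nat_lit 1) (.cons (.br (nat_lit 11) (nat_lit 0) (.cons (.ev (nat_lit 309489732404004019068994306) (nat_lit 2)) .nil)) (.cons (.ev (nat_lit 309489732259886636214517761) (nat_lit 1)) .nil))) (.cons (.br (nat_lit 9) (nat_lit 1) (.cons (.br (nat_lit 9) (nat_lit 1) (.cons (.ev (nat_lit 4722438823042466513153) (nat_lit 1)) .nil)) (.cons (.br (nat_lit 9) (nat_lit 1) (.cons (.ev (nat_lit 4722438823042466513153) (nat_lit 1)) .nil)) .nil))) .nil))),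
 (.br (nat_lit 4) (nat_lit 0) (.cons (.rf (nat_lit 1458) (nat_lit 14242959524133701664)) (.cons (.br (nat_lit 12) (nat_lit 1) (.cons (.br (nat_lit 8) (nat_lit 1) (.cons (.rf (nat_lit 1291) (nat_lit 397699033918934348)) (.cons (.ev (nat_lit 79537647542604766904504615168) (nat_lit 1)) .nil))) (.cons (.rf (nat_lit 1446) (nat_lit 361702256987410796)) .nil))) .nil))),
 (.br (nat_lit 6) (nat_lit 1) (.cons (.rf (nat_lit 1438) (nat_lit 14242959524133701664)) (.cons (.rf (nat_lit 1446) (nat_lit 14242959524133701664)) (.cons (.br (nat_lit 3) (nat_lit 0) (.cons (.br (nat_lit 4) (nat_lit 0) (.cons (.rf (nat_lit 1448) (nat_lit 14242959524133701664)) (.cons (.rf (nat_lit 1449) (nat_lit 14242959524133701664)) (.cons (.br (nat_lit 4) (nat_lit 0) (.cons (.rf (nat_lit 1448) (nat_lit 14242959524133701664)) (.cons (.rf (nat_lit 1449) (nat_lit 14242959524133701664)) .nil))) .nil)))) (.cons (.br (nat_lit 4) (nat_lit 0) (.cons (.rf (nat_lit 1450) (nat_lit 14242959524133701664)) (.cons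 (.rf (nat_lit 1451) (nat_lit 14242959524133701664)) (.cons (.br (nat_lit 4) (nat_lit 0) (.cons (.rf (nat_lit 1007) (nat_lit 14242957327257929760)) (.cons (.rf (nat_lit 1451) (nat_lit 14242959524133701664)) .nil))) .nil)))) (.cons (.br (nat_lit 7) (nat_lit 1) (.cons (.br (nat_lit 4) (nat_lit 0) (.cons (.rf (nat_lit 1339) (nat_lit 13836432803137664)) (.cons (.rf (nat_lit 797) (nat_lit 13730947398668384)) (.cons (.br (nat_lit 8) (nat_lit 1) (.cons (.br (nat_lit 10) (nat_lit 0) (.cons (.rf (nat_lit 557) (nat_lit 407899271975766048)) (.cons (.ev (nat_lit 1208944266641281684340993) (nat_lit 1)) .nil))) (.cons (.br (nat_lit 9) (nat_lit 1) (.cons (.rf (nat_lit 1079) (nat_lit 14242957327257929760)) (.cons (.ev (nat_lit 309489750706629610412507393) (nat_lit 1)) .nil))) .nil))) .nil)))) (.cons (.br (nat_lit 9) (nat_lit 1) (.cons (.br (nat_lit 4) (nat_lit 0) (.cons (.ev (nat_lit 4740885566016664371201) (nat_lit 1)) (.cons (.br (nat_lit 8) (nat_lit 1) (.cons (.rf (nat_lit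 328) (nat_lit 372962252554276960)) (.cons (.rf (nat_lit 1072) (nat_lit 14242855072676546592)) .nil))) .nil))) (.cons (.rf (nat_lit 1397) (nat_lit 14242854040810653728)) (.cons (.br (nat_lit 11) (nat_lit 0) (.cons (.br (nat_lit 4) (nat_lit 0) (.cons (.rf (nat_lit 1184) (nat_lit 444986864332539936)) .nil)) (.cons (.ev (nat_lit 309489732259886631936393473) (nat_lit 1)) .nil))) .nil)))) (.cons (.br (nat_lit 4) (nat_lit 0) (.cons (.rf (nat_lit 1452) (nat_lit 14242959524133701664)) (.cons (.rf (nat_lit 1453) (nat_lit 14242959524133701664)) (.cons (.br (nat_lit 4) (nat_lit 0) (.cons (.rf (nat_lit 1452) (nat_lit 14242959524133701664)) (.cons (.rf (nat_lit 1453) (nat_lit 14242959524133701664)) .nil))) .nil)))) .nil)))) (.cons (.br (nat_lit 7) (nat_lit 1) (.cons (.br (nat_lit 4) (nat_lit 0) (.cons (.br (nat_lit 9) (nat_lit 1) (.cons (.rf (nat_lit 1454) (nat_lit 14242959524133701664)) (.cons (.br (nat_lit 9) (nat_lit 1) (.cons (.rf (nat_lit 1454) (nat_lit 14242959524133701664))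 .nil)) .nil))) (.cons (.rf (nat_lit 1455) (nat_lit 445092485094541344)) (.cons (.br (nat_lit 8) (nat_lit 1) (.cons (.br (nat_lit 10) (nat_lit 0) (.cons (.ev (nat_lit 1208944266641281684340993) (nat_lit 1)) (.cons (.rf (nat_lit 1291) (nat_lit 397699033918934348)) .nil))) (.cons (.rf (nat_lit 1189) (nat_lit 445090218425550880)) .nil))) .nil)))) (.cons (.br (nat_lit 4) (nat_lit 0) (.cons (.rf (nat_lit 1456) (nat_lit 14242959524133701664)) (.cons (.rf (nat_lit 1457) (nat_lit 14242959524133701664)) (.cons (.br (nat_lit 4) (nat_lit 0) (.cons (.rf (nat_lit 1456) (nat_lit 14242959524133701664)) (.cons (.rf (nat_lit 1457) (nat_lit 14242959524133701664)) .nil))) .nil)))) (.cons (.br (nat_lit 4) (nat_lit 0) (.cons (.rf (nat_lit 1458) (nat_lit 14242959524133701664)) (.cons (.rf (nat_lit 1459) (nat_lit 14242959524133701664)) (.cons (.br (nat_lit 4) (nat_lit 0) (.cons (.rf (nat_lit 1458) (nat_lit 14242959524133701664)) (.cons (.rf (nat_lit 1459) (nat_lit 14242959524133701664))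 .nil))) .nil)))) .nil)))) .nil))))) .nil)))),
 (.br (nat_lit 2) (nat_lit 0) (.cons (.rf (nat_lit 1425) (nat_lit 407901468851537952)) (.cons (.rf (nat_lit 1359) (nat_lit 407827870392616992)) (.cons (.rf (nat_lit 1291) (nat_lit 407795850304128064)) (.cons (.br (nat_lit 6) (nat_lit 1) (.cons (.rf (nat_lit 1438) (nat_lit 14242959524133701664)) (.cons (.rf (nat_lit 1446) (nat_lit 14242959524133701664)) (.cons (.rf (nat_lit 1460) (nat_lit 14242959524133701664)) (.cons (.br (nat_lit 6) (nat_lit 1) (.cons (.rf (nat_lit 1438) (nat_lit 14242959524133701664)) (.cons (.rf (nat_lit 1446) (nat_lit 14242959524133701664)) (.cons (.rf (nat_lit 1460) (nat_lit 14242959524133701664)) .nil)))) .nil))))) .nil))))),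
 (.br (nat_lit 4) (nat_lit 0) (.cons (.rf (nat_lit 866) (nat_lit 14242852942372736032)) (.cons (.br (nat_lit 7) (nat_lit 1) (.cons (.zr (nat_lit 72621643502977280) (nat_lit 2417870085973332058963969) (nat_lit 5) (nat_lit 5)) (.cons (.br (nat_lit 9) (nat_lit 1) (.cons (.rf (nat_lit 393) (nat_lit 443860964425665568)) (.cons (.rf (nat_lit 1165) (nat_lit 14242957327257929760)) .nil))) .nil))) .nil))),
 (.br (nat_lit 4) (nat_lit 0) (.cons (.rf (nat_lit 833) (nat_lit 407828971949001760)) (.cons (.br (nat_lit 7) (nat_lit 1) (.cons (.br (nat_lit 9) (nat_lit 1) (.cons (.ev (nat_lit 1208925819896108463226881) (nat_lit 1)) (.cons (.br (nat_lit 10) (nat_lit 0) (.cons (.ev (nat_lit 2427296444536269989544706) (nat_lit 2)) .nil)) .nil))) (.cons (.br (nat_lit 9) (nat_lit 1) (.cons (.br (nat_lit 10) (nat_lit 0) (.cons (.br (nat_lit 11) (nat_lit 0) (.cons (.ev (nat_lit 158771854778417355598210335490) (nat_lit 3)) .nil)) .nil)) (.cons (.rf (nat_lit 437) (nat_lit 372928271714681952))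 .nil))) .nil))) .nil))),
 (.br (nat_lit 7) (nat_lit 1) (.cons (.br (nat_lit 10) (nat_lit 0) (.cons (.br (nat_lit 11) (nat_lit 0) (.cons (.ev (nat_lit 79538856449977637459986546688) (nat_lit 1)) .nil)) .nil)) .nil)),
 (.br (nat_lit 4) (nat_lit 0) (.cons (.rf (nat_lit 833) (nat_lit 407828971949001760)) (.cons (.br (nat_lit 7) (nat_lit 1) (.cons (.rf (nat_lit 1464) (nat_lit 14242959524133701664)) (.cons (.br (nat_lit 7) (nat_lit 1) (.cons (.rf (nat_lit 1464) (nat_lit 14242959524133701664)) .nil)) .nil))) .nil))),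
 (.br (nat_lit 4) (nat_lit 0) (.cons (.rf (nat_lit 1159) (nat_lit 14242957327257929760)) (.cons (.rf (nat_lit 866) (nat_lit 14242887027233197088)) (.cons (.br (nat_lit 9) (nat_lit 1) (.cons (.br (nat_lit 7) (nat_lit 1) (.cons (.rf (nat_lit 393) (nat_lit 443825814413315104)) (.cons (.br (nat_lit 6) (nat_lit 1) (.cons (.ev (nat_lit 9444805869970217042690) (nat_lit 2)) (.cons (.ev (nat_lit 4722438823038188257281) (nat_lit 1)) .nil))) .nil))) (.cons (.ev (nat_lit 4722366483973451874561) (nat_lit 1)) .nil))) .nil)))),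
 (.br (nat_lit 9) (nat_lit 1) (.cons (.rf (nat_lit 797) (nat_lit 13731016051036256)) (.cons (.rf (nat_lit 328) (nat_lit 372964451510423648)) (.cons (.ev (nat_lit 4722438823038188257281) (nat_lit 1)) .nil)))),
 (.br (nat_lit 7) (nat_lit 1) (.cons (.rf (nat_lit 797) (nat_lit 13731016051036256)) (.cons (.rf (nat_lit 557) (nat_lit 407828971951065120)) (.cons (.ev (nat_lit 4722438823038188257281) (nat_lit 1)) .nil)))),
 (.br (nat_lit 6) (nat_lit 1) (.cons (.rf (nat_lit 1466) (nat_lit 14242959524133701664)) (.cons (.br (nat_lit 4) (nat_lit 0) (.cons (.rf (nat_lit 1467) (nat_lit 14242959524133701664)) (.cons (.rf (nat_lit 1468) (nat_lit 14242959524133701664)) (.cons (.br (nat_lit 4) (nat_lit 0) (.cons (.rf (nat_lit 1467) (nat_lit 14242959524133701664)) (.cons (.rf (nat_lit 1468) (nat_lit 14242959524133701664)) .nil))) .nil)))) .nil))),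
 (.br (nat_lit 7) (nat_lit 1) (.cons (.br (nat_lit 10) (nat_lit 0) (.cons (.ev (nat_lit 1213648258156196664442881) (nat_lit 1)) .nil)) .nil)),
 (.br (nat_lit 4) (nat_lit 0) (.cons (.rf (nat_lit 888) (nat_lit 14242886989786417248)) (.cons (.br (nat_lit 6) (nat_lit 1) (.cons (.rf (nat_lit 625) (nat_lit 443929134146619424)) (.cons (.br (nat_lit 7) (nat_lit 1) (.cons (.rf (nat_lit 1470) (nat_lit 14242959524133701664)) (.cons (.br (nat_lit 7) (nat_lit 1) (.cons (.rf (nat_lit 1470) (nat_lit 14242959524133701664)) .nil)) .nil))) .nil))) .nil))),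
 (.br (nat_lit 6) (nat_lit 1) (.cons (.br (nat_lit 10) (nat_lit 0) (.cons (.ev (nat_lit 1208944266641281684340993) (nat_lit 1)) .nil)) .nil)),
 (.br (nat_lit 4) (nat_lit 0) (.cons (.rf (nat_lit 888) (nat_lit 14242886989786417248)) (.cons (.br (nat_lit 7) (nat_lit 1) (.cons (.rf (nat_lit 625) (nat_lit 443928068994730016)) (.cons (.br (nat_lit 6) (nat_lit 1) (.cons (.rf (nat_lit 1472) (nat_lit 14242959524133701664)) (.cons (.br (nat_lit 6) (nat_lit 1) (.cons (.rf (nat_lit 1472) (nat_lit 14242959524133701664)) .nil)) .nil))) .nil))) .nil))),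
 (.br (nat_lit 10) (nat_lit 0) (.cons (.rf (nat_lit 1083) (nat_lit 13883728118077852992)) (.cons (.rf (nat_lit 1083) (nat_lit 48670062795689292)) .nil))),
 (.br (nat_lit 7) (nat_lit 1) (.cons (.br (nat_lit 10) (nat_lit 0) (.cons (.br (nat_lit 11) (nat_lit 0) (.cons (.ev (nat_lit 158769436926489333005199673090) (nat_lit 3)) .nil)) .nil)) .nil)),
 (.br (nat_lit 6) (nat_lit 1) (.cons (.br (nat_lit 4) (nat_lit 0) (.cons (.br (nat_lit 7) (nat_lit 1) (.cons (.rf (nat_lit 486) (nat_lit 374124471644195872)) (.cons (.br (nat_lit 9) (nat_lit 1) (.cons (.rf (nat_lit 437) (nat_lit 407794887090572320)) (.cons (.rf (nat_lit 1474) (nat_lit 14242959524133701664)) .nil))) .nil))) (.cons (.rf (nat_lit 582) (nat_lit 443857768970029088)) (.cons (.br (nat_lit 9) (nat_lit 1) (.cons (.rf (nat_lit 589) (nat_lit 443857768970029088)) (.cons (.ev (nat_lit 4722366483973451874561) (nat_lit 1)) .nil))) .nil)))) (.cons (.br (nat_lit 4) (nat_lit 0) (.cons (.br (nat_lit 7) (nat_lit 1) (.cons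 (.br (nat_lit 10) (nat_lit 0) (.cons (.ev (nat_lit 1208925891672223212634369) (nat_lit 1)) (.cons (.zr (nat_lit 72340168543043840) (nat_lit 1208944266358707179225089) (nat_lit 5) (nat_lit 5)) .nil))) (.cons (.br (nat_lit 9) (nat_lit 1) (.cons (.br (nat_lit 11) (nat_lit 0) (.cons (.rf (nat_lit 1335) (nat_lit 13882670487749897344)) .nil)) (.cons (.ev (nat_lit 309489732188110517153300481) (nat_lit 1)) .nil))) .nil))) (.cons (.br (nat_lit 7) (nat_lit 1) (.cons (.rf (nat_lit 1475) (nat_lit 14242959524133701664)) (.cons (.br (nat_lit 7) (nat_lit 1) (.cons (.rf (nat_lit 1475) (nat_lit 14242959524133701664)) .nil)) .nil))) (.cons (.br (nat_lit 9) (nat_lit 1) (.cons (.br (nat_lit 10) (nat_lit 0) (.cons (.br (nat_lit 7) (nat_lit 1) (.cons (.ev (nat_lit 4740885566012386246913) (nat_lit 1)) .nil)) (.cons (.rf (nat_lit 1291) (nat_lit 397626501652090188)) .nil))) (.cons (.ev (nat_lit 4722366483973451874561) (nat_lit 1)) .nil))) .nil)))) .nil))),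
 (.br (nat_lit 4) (nat_lit 0) (.cons (.br (nat_lit 7) (nat_lit 1) (.cons (.rf (nat_lit 558) (nat_lit 372928134408963136)) (.cons (.rf (nat_lit 1474) (nat_lit 13990757945008293920)) .nil))) (.cons (.br (nat_lit 7) (nat_lit 1) (.cons (.br (nat_lit 9) (nat_lit 1) (.cons (.ev (nat_lit 4740885566012386246913) (nat_lit 1)) .nil)) (.cons (.rf (nat_lit 1408) (nat_lit 14242959524133701664)) .nil))) .nil))),
 (.br (nat_lit 4) (nat_lit 0) (.cons (.rf (nat_lit 1477) (nat_lit 14242959524133701664)) (.cons (.br (nat_lit 7) (nat_lit 1) (.cons (.ev (nat_lit 1208944266641281684340993) (nat_lit 1)) (.cons (.rf (nat_lit 1267) (nat_lit 13883728118077852992)) .nil))) .nil))),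
 (.br (nat_lit 6) (nat_lit 1) (.cons (.rf (nat_lit 1476) (nat_lit 14242959524133701664)) (.cons (.br (nat_lit 4) (nat_lit 0) (.cons (.rf (nat_lit 1477) (nat_lit 14242959524133701664)) (.cons (.rf (nat_lit 1478) (nat_lit 14242959524133701664)) (.cons (.br (nat_lit 4) (nat_lit 0) (.cons (.rf (nat_lit 1477) (nat_lit 14242959524133701664)) (.cons (.rf (nat_lit 1478) (nat_lit 14242959524133701664)) .nil))) .nil)))) .nil))),
 (.br (nat_lit 4) (nat_lit 0) (.cons (.rf (nat_lit 833) (nat_lit 372926074836880416)) (.cons (.br (nat_lit 7) (nat_lit 1) (.cons (.br (nat_lit 9) (nat_lit 1) (.cons (.rf (nat_lit 437) (nat_lit 407831168826803296)) (.cons (.br (nat_lit 10) (nat_lit 0) (.cons (.br (nat_lit 11) (nat_lit 0) (.cons (.kr (nat_lit 310693935640959697916264704) (nat_lit 562954248454144) (nat_lit 1) (nat_lit 0)) .nil)) .nil)) .nil))) (.cons (.rf (nat_lit 1135) (nat_lit 14242855072676546592)) .nil))) .nil))),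
 (.br (nat_lit 4) (nat_lit 0) (.cons (.rf (nat_lit 1070) (nat_lit 14242887027233228832)) (.cons (.br (nat_lit 7) (nat_lit 1) (.cons (.br (nat_lit 9) (nat_lit 1) (.cons (.br (nat_lit 10) (nat_lit 0) (.cons (.ev (nat_lit 1213648258156192386318593) (nat_lit 1)) .nil)) (.cons (.rf (nat_lit 393) (nat_lit 444986864332508192)) .nil))) (.cons (.rf (nat_lit 393) (nat_lit 445055034051398688)) .nil))) .nil))),
 (.br (nat_lit 6) (nat_lit 1) (.cons (.br (nat_lit 4) (nat_lit 0) (.cons (.rf (nat_lit 341) (nat_lit 12745752633803872)) (.cons (.rf (nat_lit 865) (nat_lit 372929270292548640)) (.cons (.br (nat_lit 9) (nat_lit 1) (.cons (.br (nat_lit 7) (nat_lit 1) (.cons (.ev (nat_lit 4722438823038188257281) (nat_lit 1)) (.cons (.ev (nat_lit 9444805869970217042690) (nat_lit 2)) .nil))) (.cons (.ev (nat_lit 4722366483973451874561) (nat_lit 1)) .nil))) .nil)))) (.cons (.rf (nat_lit 1136) (nat_lit 14242890222688897056)) .nil))),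
 (.br (nat_lit 4) (nat_lit 0) (.cons (.rf (nat_lit 797) (nat_lit 13731016051036256)) (.cons (.br (nat_lit 9) (nat_lit 1) (.cons (.rf (nat_lit 1072) (nat_lit 14242852942372767776)) (.cons (.ev (nat_lit 4722438823038188257281) (nat_lit 1)) .nil))) .nil))),
 (.br (nat_lit 4) (nat_lit 0) (.cons (.rf (nat_lit 797) (nat_lit 13731016051036256)) (.cons (.br (nat_lit 7) (nat_lit 1) (.cons (.rf (nat_lit 1079) (nat_lit 14242887027233228832)) (.cons (.ev (nat_lit 4722438823038188257281) (nat_lit 1)) .nil))) .nil))),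
 (.br (nat_lit 6) (nat_lit 1) (.cons (.rf (nat_lit 1482) (nat_lit 14242959524133701664)) (.cons (.br (nat_lit 4) (nat_lit 0) (.cons (.rf (nat_lit 1483) (nat_lit 14242959524133701664)) (.cons (.rf (nat_lit 1484) (nat_lit 14242959524133701664)) (.cons (.br (nat_lit 4) (nat_lit 0) (.cons (.rf (nat_lit 1483) (nat_lit 14242959524133701664)) (.cons (.rf (nat_lit 1484) (nat_lit 14242959524133701664)) .nil))) .nil)))) .nil)))]

theorem c40 : chkAll C T R L40 (nat_lit 1454) = true := by decide +kernel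

theorem l40 : (nat_lit 1454) + L40.length = (nat_lit 1486) := by decide +kernel

/-- part of the certificates -/
def L41 : List Prf := [(.br (nat_lit 11) (nat_lit 0) (.cons (.ev (nat_lit 309499232261307373816315906) (nat_lit 2)) .nil)),
 (.br (nat_lit 4) (nat_lit 0) (.cons (.ev (nat_lit 4740813226947649732609) (nat_lit 1)) (.cons (.br (nat_lit 6) (nat_lit 1) (.cons (.br (nat_lit 7) (nat_lit 1) (.cons (.br (nat_lit 7) (nat_lit 1) (.cons (.rf (nat_lit 1486) (nat_lit 14242959524133701664)) .nil)) (.cons (.rf (nat_lit 1486) (nat_lit 14242959524133701664)) .nil))) (.cons (.rf (nat_lit 625) (nat_lit 445055034053462048)) .nil))) .nil))),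
 (.br (nat_lit 6) (nat_lit 1) (.cons (.br (nat_lit 10) (nat_lit 0) (.cons (.br (nat_lit 11) (nat_lit 0) (.cons (.ev (nat_lit 79537652264899192180111835136) (nat_lit 1)) .nil)) .nil)) .nil)),
 (.br (nat_lit 4) (nat_lit 0) (.cons (.ev (nat_lit 4740813226947649732609) (nat_lit 1)) (.cons (.br (nat_lit 7) (nat_lit 1) (.cons (.rf (nat_lit 625) (nat_lit 407899271975766048)) (.cons (.br (nat_lit 6) (nat_lit 1) (.cons (.br (nat_lit 6) (nat_lit 1) (.cons (.rf (nat_lit 1488) (nat_lit 13056261022321575968)) .nil)) (.cons (.rf (nat_lit 1488) (nat_lit 13056261022321575968)) .nil))) .nil))) .nil))),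
 (.br (nat_lit 10) (nat_lit 0) (.cons (.ev (nat_lit 1213666633123051801215233) (nat_lit 1)) .nil)),
 (.br (nat_lit 6) (nat_lit 1) (.cons (.br (nat_lit 4) (nat_lit 0) (.cons (.br (nat_lit 7) (nat_lit 1) (.cons (.br (nat_lit 9) (nat_lit 1) (.cons (.ev (nat_lit 1213648258156192386318593) (nat_lit 1)) (.cons (.br (nat_lit 10) (nat_lit 0) (.cons (.br (nat_lit 11) (nat_lit 0) (.cons (.ev (nat_lit 475696603612193620069050156802) (nat_lit 4)) .nil)) .nil)) .nil))) (.cons (.br (nat_lit 9) (nat_lit 1) (.cons (.br (nat_lit 10) (nat_lit 0) (.cons (.ev (nat_lit 1218370625203124414971906) (nat_lit 2)) .nil)) (.cons (.ev (nat_lit 309485009821626548013301761) (nat_lit 1)) .nil))) .nil))) (.cons (.br (nat_lit 7) (nat_lit 1) (.cons (.rf (nat_lit 1490) (nat_lit 14242959524133701664)) (.cons (.br (nat_lit 7) (nat_lit 1) (.cons (.rf (nat_lit 1490) (nat_lit 14242959524133701664)) .nil)) .nil))) (.cons (.br (nat_lit 9) (nat_lit 1) (.cons (.br (nat_lit 10) (nat_lit 0) (.cons (.br (nat_lit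 7) (nat_lit 1) (.cons (.ev (nat_lit 4740885566012386246913) (nat_lit 1)) .nil)) (.cons (.rf (nat_lit 1461) (nat_lit 48670062795689292)) .nil))) (.cons (.ev (nat_lit 4722366483973451874561) (nat_lit 1)) .nil))) .nil)))) (.cons (.br (nat_lit 4) (nat_lit 0) (.cons (.br (nat_lit 7) (nat_lit 1) (.cons (.br (nat_lit 9) (nat_lit 1) (.cons (.br (nat_lit 10) (nat_lit 0) (.cons (.br (nat_lit 11) (nat_lit 0) (.cons (.ev (nat_lit 79537652264899192180111835136) (nat_lit 1)) .nil)) .nil)) (.cons (.rf (nat_lit 437) (nat_lit 372891989978450976)) .nil))) (.cons (.zr (nat_lit 72621643502977280) (nat_lit 618970038089434211159113729) (nat_lit 5) (nat_lit 5)) .nil))) (.cons (.rf (nat_lit 582) (nat_lit 444983668876871712)) (.cons (.br (nat_lit 11) (nat_lit 0) (.cons (.rf (nat_lit 1187) (nat_lit 14242957327257929760)) (.cons (.ev (nat_lit 4722366483973451874561) (nat_lit 1)) (.cons (.rf (nat_lit 1291) (nat_lit 361670236898922860)) .nil)))) .nil)))) .nil))),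
 (.br (nat_lit 4) (nat_lit 0) (.cons (.br (nat_lit 12) (nat_lit 1) (.cons (.ev (nat_lit 79228167236630820467500974336) (nat_lit 1)) .nil)) .nil)),
 (.br (nat_lit 6) (nat_lit 1) (.cons (.rf (nat_lit 1491) (nat_lit 14242959524133701664)) (.cons (.br (nat_lit 9) (nat_lit 1) (.cons (.br (nat_lit 4) (nat_lit 0) (.cons (.br (nat_lit 7) (nat_lit 1) (.cons (.br (nat_lit 11) (nat_lit 0) (.cons (.rf (nat_lit 1432) (nat_lit 365043673931810860)) .nil)) (.cons (.rf (nat_lit 558) (nat_lit 407831031521084480)) .nil))) (.cons (.rf (nat_lit 1189) (nat_lit 445092417448806432)) .nil))) (.cons (.rf (nat_lit 1145) (nat_lit 14242890222688897056)) (.cons (.br (nat_lit 4) (nat_lit 0) (.cons (.rf (nat_lit 1492) (nat_lit 14242959524133701664)) (.cons (.br (nat_lit 4) (nat_lit 0) (.cons (.rf (nat_lit 1492) (nat_lit 14242959524133701664)) .nil)) .nil))) .nil)))) .nil))),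
 (.br (nat_lit 2) (nat_lit 0) (.cons (.rf (nat_lit 1425) (nat_lit 407901468851537952)) (.cons (.rf (nat_lit 1291) (nat_lit 407795850304128064)) (.cons (.rf (nat_lit 1291) (nat_lit 407759600813704256)) (.cons (.br (nat_lit 8) (nat_lit 1) (.cons (.rf (nat_lit 1461) (nat_lit 407827870392616992)) (.cons (.rf (nat_lit 1461) (nat_lit 372924973279479840)) (.cons (.br (nat_lit 3) (nat_lit 0) (.cons (.br (nat_lit 6) (nat_lit 1) (.cons (.br (nat_lit 4) (nat_lit 0) (.cons (.rf (nat_lit 1159) (nat_lit 14242958392409819168)) (.cons (.rf (nat_lit 338) (nat_lit 443859965843735648)) (.cons (.br (nat_lit 9) (nat_lit 1) (.cons (.rf (nat_lit 625) (nat_lit 443823684107472928)) (.cons (.ev (nat_lit 4722366483973451874561) (nat_lit 1)) .nil))) .nil)))) (.cons (.br (nat_lit 4) (nat_lit 0) (.cons (.rf (nat_lit 1462) (nat_lit 14242959524133701664)) (.cons (.rf (nat_lit 1107) (nat_lit 14242890222688897056)) (.cons (.br (nat_lit 4) (nat_lit 0) (.cons (.rf (nat_lit 1462) (nat_lit 14242959524133701664))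 (.cons (.rf (nat_lit 605) (nat_lit 443860964425697312)) .nil))) .nil)))) (.cons (.br (nat_lit 4) (nat_lit 0) (.cons (.rf (nat_lit 1463) (nat_lit 14242959524133701664)) (.cons (.rf (nat_lit 1465) (nat_lit 14242959524133701664)) (.cons (.br (nat_lit 4) (nat_lit 0) (.cons (.rf (nat_lit 1463) (nat_lit 14242959524133701664)) (.cons (.rf (nat_lit 1465) (nat_lit 14242959524133701664)) .nil))) .nil)))) .nil)))) (.cons (.br (nat_lit 6) (nat_lit 1) (.cons (.rf (nat_lit 1466) (nat_lit 14242959524133701664)) (.cons (.rf (nat_lit 1469) (nat_lit 14242959524133701664)) (.cons (.br (nat_lit 6) (nat_lit 1) (.cons (.rf (nat_lit 1466) (nat_lit 14242959524133701664)) (.cons (.rf (nat_lit 1469) (nat_lit 14242959524133701664)) .nil))) .nil)))) (.cons (.br (nat_lit 4) (nat_lit 0) (.cons (.rf (nat_lit 1471) (nat_lit 14242959524133701664)) (.cons (.rf (nat_lit 1473) (nat_lit 14242959524133701664)) (.cons (.br (nat_lit 4) (nat_lit 0) (.cons (.rf (nat_lit 1471) (nat_lit 14242959524133701664))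 (.cons (.rf (nat_lit 1473) (nat_lit 14242959524133701664)) .nil))) .nil)))) (.cons (.br (nat_lit 6) (nat_lit 1) (.cons (.rf (nat_lit 1476) (nat_lit 14242959524133701664)) (.cons (.rf (nat_lit 1479) (nat_lit 14242959524133701664)) (.cons (.br (nat_lit 6) (nat_lit 1) (.cons (.rf (nat_lit 1476) (nat_lit 14242959524133701664)) (.cons (.rf (nat_lit 1479) (nat_lit 14242959524133701664)) .nil))) .nil)))) .nil))))) (.cons (.br (nat_lit 3) (nat_lit 0) (.cons (.br (nat_lit 6) (nat_lit 1) (.cons (.rf (nat_lit 1127) (nat_lit 14242890222688897056)) (.cons (.br (nat_lit 4) (nat_lit 0) (.cons (.rf (nat_lit 1480) (nat_lit 14242959524133701664)) (.cons (.rf (nat_lit 1427) (nat_lit 14242889224109000736)) (.cons (.br (nat_lit 4) (nat_lit 0) (.cons (.rf (nat_lit 1480) (nat_lit 14242959524133701664)) (.cons (.rf (nat_lit 1427) (nat_lit 14242889224109000736)) .nil))) .nil)))) (.cons (.br (nat_lit 4) (nat_lit 0) (.cons (.rf (nat_lit 1481) (nat_lit 14242959524133701664)) (.cons (.rf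 (nat_lit 1180) (nat_lit 14242958392409819168)) (.cons (.br (nat_lit 4) (nat_lit 0) (.cons (.rf (nat_lit 1481) (nat_lit 14242959524133701664)) (.cons (.rf (nat_lit 605) (nat_lit 444986864332539936)) .nil))) .nil)))) .nil)))) (.cons (.br (nat_lit 6) (nat_lit 1) (.cons (.rf (nat_lit 1482) (nat_lit 14242959524133701664)) (.cons (.rf (nat_lit 1485) (nat_lit 14242959524133701664)) (.cons (.br (nat_lit 6) (nat_lit 1) (.cons (.rf (nat_lit 1136) (nat_lit 14242890222688897056)) (.cons (.rf (nat_lit 1485) (nat_lit 14242959524133701664)) .nil))) .nil)))) (.cons (.br (nat_lit 4) (nat_lit 0) (.cons (.rf (nat_lit 1487) (nat_lit 14242959524133701664)) (.cons (.rf (nat_lit 1489) (nat_lit 445056165777344544)) (.cons (.br (nat_lit 4) (nat_lit 0) (.cons (.rf (nat_lit 1487) (nat_lit 14242959524133701664)) (.cons (.rf (nat_lit 1489) (nat_lit 445056165777344544)) .nil))) .nil)))) (.cons (.br (nat_lit 6) (nat_lit 1) (.cons (.rf (nat_lit 1491) (nat_lit 14242959524133701664)) (.cons (.rf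 (nat_lit 1493) (nat_lit 14242959524133701664)) (.cons (.br (nat_lit 6) (nat_lit 1) (.cons (.rf (nat_lit 1491) (nat_lit 14242959524133701664)) (.cons (.rf (nat_lit 1493) (nat_lit 14242959524133701664)) .nil))) .nil)))) .nil))))) .nil))))) .nil))))),
 (.br (nat_lit 2) (nat_lit 0) (.cons (.rf (nat_lit 1425) (nat_lit 407901468851537952)) (.cons (.rf (nat_lit 1461) (nat_lit 407901468851537952)) (.cons (.rf (nat_lit 1359) (nat_lit 407827870392616992)) (.cons (.rf (nat_lit 1494) (nat_lit 407901468851537952)) (.cons (.br (nat_lit 2) (nat_lit 0) (.cons (.rf (nat_lit 1425) (nat_lit 407901468851537952)) (.cons (.rf (nat_lit 1461) (nat_lit 407901468851537952)) (.cons (.rf (nat_lit 1359) (nat_lit 407827870392616992)) (.cons (.rf (nat_lit 1494) (nat_lit 407901468851537952)) .nil))))) .nil)))))),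
 (.br (nat_lit 3) (nat_lit 0) (.cons (.rf (nat_lit 976) (nat_lit 407901401239356480)) (.cons (.rf (nat_lit 976) (nat_lit 407901400199169088)) (.cons (.br (nat_lit 6) (nat_lit 1) (.cons (.rf (nat_lit 1495) (nat_lit 372997505546323008)) (.cons (.br (nat_lit 7) (nat_lit 1) (.cons (.rf (nat_lit 1495) (nat_lit 372961256055899200)) (.cons (.rf (nat_lit 1198) (nat_lit 407832167406733344)) .nil))) (.cons (.br (nat_lit 7) (nat_lit 1) (.cons (.rf (nat_lit 1495) (nat_lit 372961256055899200)) (.cons (.rf (nat_lit 1198) (nat_lit 407797017394382880)) (.cons (.br (nat_lit 9) (nat_lit 1) (.cons (.rf (nat_lit 1199) (nat_lit 14242890222688897056)) (.cons (.rf (nat_lit 1210) (nat_lit 407828971951033376)) (.cons (.ev (nat_lit 309489750706912180605812993) (nat_lit 1)) .nil)))) .nil)))) .nil)))) .nil)))),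
 (.br (nat_lit 3) (nat_lit 0) (.cons (.rf (nat_lit 1495) (nat_lit 407900402659460160)) (.cons (.rf (nat_lit 1495) (nat_lit 407864153169036352)) (.cons (.rf (nat_lit 1496) (nat_lit 407901468851537952)) (.cons (.br (nat_lit 3) (nat_lit 0) (.cons (.rf (nat_lit 1495) (nat_lit 407900402659460160)) (.cons (.rf (nat_lit 1495) (nat_lit 407864153169036352)) (.cons (.rf (nat_lit 1496) (nat_lit 407901468851537952)) .nil)))) .nil))))),
 (.br (nat_lit 4) (nat_lit 0) (.cons (.rf (nat_lit 485) (nat_lit 12744719729723488)) (.cons (.br (nat_lit 7) (nat_lit 1) (.cons (.rf (nat_lit 486) (nat_lit 374123405454116960)) (.cons (.br (nat_lit 9) (nat_lit 1) (.cons (.rf (nat_lit 440) (nat_lit 372998504127171648)) (.cons (.ev (nat_lit 4722438540463683141889) (nat_lit 1)) .nil))) .nil))) .nil))),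
 (.br (nat_lit 4) (nat_lit 0) (.cons (.rf (nat_lit 485) (nat_lit 12744719729723488)) (.cons (.rf (nat_lit 1498) (nat_lit 14242959524133701664)) (.cons (.br (nat_lit 4) (nat_lit 0) (.cons (.rf (nat_lit 485) (nat_lit 12744719729723488)) (.cons (.rf (nat_lit 1498) (nat_lit 14242959524133701664)) .nil))) .nil)))),
 (.br (nat_lit 4) (nat_lit 0) (.cons (.rf (nat_lit 1236) (nat_lit 14242855072676546592)) (.cons (.br (nat_lit 7) (nat_lit 1) (.cons (.ev (nat_lit 1208944338697771915739393) (nat_lit 1)) (.cons (.rf (nat_lit 1207) (nat_lit 14242890222688897056)) .nil))) .nil))),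
 (.br (nat_lit 3) (nat_lit 0) (.cons (.rf (nat_lit 1499) (nat_lit 14242959524133701664)) (.cons (.rf (nat_lit 1499) (nat_lit 14242885925674780704)) (.cons (.br (nat_lit 4) (nat_lit 0) (.cons (.rf (nat_lit 1500) (nat_lit 14242959524133701664)) (.cons (.rf (nat_lit 1500) (nat_lit 14242885925674780704)) (.cons (.br (nat_lit 4) (nat_lit 0) (.cons (.rf (nat_lit 1500) (nat_lit 14242959524133701664)) (.cons (.rf (nat_lit 1500) (nat_lit 14242885925674780704)) .nil))) .nil)))) .nil)))),
 (.br (nat_lit 4) (nat_lit 0) (.cons (.rf (nat_lit 964) (nat_lit 12745720488658016)) (.cons (.br (nat_lit 9) (nat_lit 1) (.cons (.zr (nat_lit 2417851711287951898968320) (nat_lit 9463179709812999979009) (nat_lit 5) (nat_lit 5)) (.cons (.br (nat_lit 10) (nat_lit 0) (.cons (.br (nat_lit 11) (nat_lit 0) (.cons (.ev (nat_lit 1109517086802533088311368288522) (nat_lit 4)) .nil)) .nil)) .nil))) .nil))),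
 (.br (nat_lit 9) (nat_lit 1) (.cons (.ev (nat_lit 4722438540463683141889) (nat_lit 1)) .nil)),
 (.br (nat_lit 4) (nat_lit 0) (.cons (.br (nat_lit 9) (nat_lit 0) (.cons (.ev (nat_lit 309485009821626548013302016) (nat_lit 1)) (.cons (.rf (nat_lit 1217) (nat_lit 13052987743993432096)) .nil))) (.cons (.rf (nat_lit 1232) (nat_lit 13052782169678776352)) .nil))),
 (.br (nat_lit 11) (nat_lit 0) (.cons (.ev (nat_lit 18446745177532924161) (nat_lit 1)) (.cons (.ev (nat_lit 4722438540463683141889) (nat_lit 1)) (.cons (.rf (nat_lit 1495) (nat_lit 47576182977302892)) .nil)))),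
 (.br (nat_lit 4) (nat_lit 0) (.cons (.rf (nat_lit 1504) (nat_lit 445091350149433376)) (.cons (.br (nat_lit 7) (nat_lit 1) (.cons (.rf (nat_lit 1219) (nat_lit 14242958392409819168)) (.cons (.rf (nat_lit 1505) (nat_lit 14242959524133701664)) .nil))) .nil))),
 (.br (nat_lit 3) (nat_lit 0) (.cons (.rf (nat_lit 1499) (nat_lit 14242959524133701664)) (.cons (.br (nat_lit 6) (nat_lit 1) (.cons (.br (nat_lit 4) (nat_lit 0) (.cons (.rf (nat_lit 485) (nat_lit 12744719728674944)) (.cons (.rf (nat_lit 485) (nat_lit 12746918751930496)) (.cons (.br (nat_lit 7) (nat_lit 1) (.cons (.ev (nat_lit 1208925891954797717749761) (nat_lit 1)) (.cons (.br (nat_lit 9) (nat_lit 1) (.cons (.ev (nat_lit 4740885285641216131073) (nat_lit 1)) (.cons (.br (nat_lit 10) (nat_lit 0) (.cons (.br (nat_lit 11) (nat_lit 0) (.cons (.ev (nat_lit 317966417207425604178216708) (nat_lit 3)) .nil)) .nil)) .nil))) .nil))) .nil)))) (.cons (.br (nat_lit 7) (nat_lit 1) (.cons (.br (nat_lit 4) (nat_lit 0) (.cons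 (.rf (nat_lit 964) (nat_lit 12745720488658016)) (.cons (.rf (nat_lit 1229) (nat_lit 443825814412331040)) .nil))) (.cons (.rf (nat_lit 1210) (nat_lit 407900337127655456)) .nil))) (.cons (.br (nat_lit 4) (nat_lit 0) (.cons (.rf (nat_lit 1502) (nat_lit 14242959524133701664)) (.cons (.rf (nat_lit 1502) (nat_lit 14242885925674780704)) (.cons (.br (nat_lit 4) (nat_lit 0) (.cons (.rf (nat_lit 1502) (nat_lit 14242959524133701664)) (.cons (.rf (nat_lit 1502) (nat_lit 14242885925674780704)) .nil))) .nil)))) .nil)))) (.cons (.br (nat_lit 6) (nat_lit 1) (.cons (.br (nat_lit 7) (nat_lit 1) (.cons (.rf (nat_lit 485) (nat_lit 12744719728674944)) (.cons (.rf (nat_lit 1230) (nat_lit 443860964425665568)) (.cons (.br (nat_lit 4) (nat_lit 0) (.cons (.br (nat_lit 9) (nat_lit 1) (.cons (.rf (nat_lit 445) (nat_lit 407865119502010496)) (.cons (.ev (nat_lit 4722438540463683141889) (nat_lit 1)) .nil))) (.cons (.br (nat_lit 9) (nat_lit 1) (.cons (.br (nat_lit 9) (nat_lit 1) (.cons (.rf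 (nat_lit 1367) (nat_lit 14207987291249574976)) .nil)) (.cons (.rf (nat_lit 1367) (nat_lit 14207987291249574976)) .nil))) .nil))) .nil)))) (.cons (.br (nat_lit 7) (nat_lit 1) (.cons (.ev (nat_lit 1208944338697771915739393) (nat_lit 1)) (.cons (.br (nat_lit 4) (nat_lit 0) (.cons (.rf (nat_lit 1503) (nat_lit 14242959524133701664)) (.cons (.br (nat_lit 4) (nat_lit 0) (.cons (.rf (nat_lit 1503) (nat_lit 14242959524133701664)) .nil)) .nil))) .nil))) (.cons (.br (nat_lit 4) (nat_lit 0) (.cons (.rf (nat_lit 1504) (nat_lit 445091350149433376)) (.cons (.rf (nat_lit 1506) (nat_lit 14242959524133701664)) (.cons (.br (nat_lit 4) (nat_lit 0) (.cons (.rf (nat_lit 1504) (nat_lit 445091350149433376)) (.cons (.rf (nat_lit 1506) (nat_lit 14242959524133701664)) .nil))) .nil)))) .nil)))) .nil)))),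
 (.br (nat_lit 2) (nat_lit 0) (.cons (.rf (nat_lit 1497) (nat_lit 407901468851537952)) (.cons (.rf (nat_lit 1497) (nat_lit 407827870392616992)) (.cons (.br (nat_lit 3) (nat_lit 0) (.cons (.rf (nat_lit 1501) (nat_lit 14242959524133701664)) (.cons (.rf (nat_lit 1507) (nat_lit 14242959524133701664)) (.cons (.rf (nat_lit 1507) (nat_lit 14242885925674780704)) (.cons (.br (nat_lit 3) (nat_lit 0) (.cons (.rf (nat_lit 1501) (nat_lit 14242959524133701664)) (.cons (.rf (nat_lit 1507) (nat_lit 14242959524133701664)) (.cons (.rf (nat_lit 1507) (nat_lit 14242885925674780704)) .nil)))) .nil))))) .nil)))),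
 (.br (nat_lit 4) (nat_lit 0) (.cons (.br (nat_lit 9) (nat_lit 1) (.cons (.ev (nat_lit 1208925819896108463226881) (nat_lit 1)) (.cons (.rf (nat_lit 1442) (nat_lit 14242853905586291776)) .nil))) .nil)),
 (.br (nat_lit 4) (nat_lit 0) (.cons (.ev (nat_lit 18518801667764322561) (nat_lit 1)) (.cons (.br (nat_lit 7) (nat_lit 1) (.cons (.ev (nat_lit 1208944266641281684340993) (nat_lit 1)) (.cons (.br (nat_lit 12) (nat_lit 1) (.cons (.rf (nat_lit 1508) (nat_lit 397768369689922892)) (.cons (.rf (nat_lit 1495) (nat_lit 361702256987410796)) .nil))) .nil))) .nil))),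
 (.br (nat_lit 6) (nat_lit 1) (.cons (.br (nat_lit 3) (nat_lit 0) (.cons (.rf (nat_lit 485) (nat_lit 12743620251650144)) (.cons (.br (nat_lit 4) (nat_lit 0) (.cons (.ev (nat_lit 72058693566332929) (nat_lit 1)) (.cons (.rf (nat_lit 964) (nat_lit 12745720455103584)) (.cons (.br (nat_lit 7) (nat_lit 1) (.cons (.rf (nat_lit 1229) (nat_lit 443860964424681504)) (.cons (.br (nat_lit 9) (nat_lit 1) (.cons (.rf (nat_lit 445) (nat_lit 407865119500963936)) (.cons (.br (nat_lit 10) (nat_lit 0) (.cons (.br (nat_lit 11) (nat_lit 0) (.cons (.ev (nat_lit 313130787426587089079173892) (nat_lit 3)) .nil)) .nil)) .nil))) .nil))) .nil)))) (.cons (.br (nat_lit 7) (nat_lit 1) (.cons (.ev (nat_lit 18518801667764322561) (nat_lit 1)) (.cons (.rf (nat_lit 1230) (nat_lit 443860964425697312)) (.cons (.br (nat_lit 4) (nat_lit 0) (.cons (.rf (nat_lit 1232) (nat_lit 14242890222688897056)) (.cons (.br (nat_lit 10) (nat_lit 0) (.cons (.rf (nat_lit 1217) (nat_lit 14242957327257929760)) (.cons (.rf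 (nat_lit 1508) (nat_lit 397768369689922892)) .nil))) .nil))) .nil)))) .nil)))) (.cons (.kr (nat_lit 281474976710656) (nat_lit 1208925819614629174706176) (nat_lit 6) (nat_lit 0)) (.cons (.br (nat_lit 3) (nat_lit 0) (.cons (.br (nat_lit 4) (nat_lit 0) (.cons (.rf (nat_lit 1509) (nat_lit 14242959524133701664)) (.cons (.br (nat_lit 4) (nat_lit 0) (.cons (.rf (nat_lit 1509) (nat_lit 14242959524133701664)) .nil)) .nil))) (.cons (.br (nat_lit 7) (nat_lit 1) (.cons (.ev (nat_lit 72058693566332929) (nat_lit 1)) (.cons (.rf (nat_lit 1210) (nat_lit 407899271975766048)) (.cons (.br (nat_lit 10) (nat_lit 0) (.cons (.rf (nat_lit 1198) (nat_lit 407794887090572320)) (.cons (.br (nat_lit 9) (nat_lit 1) (.cons (.br (nat_lit 4) (nat_lit 0) (.cons (.br (nat_lit 11) (nat_lit 0) (.cons (.ev (nat_lit 79229376162522492686401798144) (nat_lit 1)) .nil)) .nil)) (.cons (.rf (nat_lit 1210) (nat_lit 372960092087158880)) .nil))) .nil))) .nil)))) (.cons (.br (nat_lit 4) (nat_lit 0) (.cons (.ev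 (nat_lit 18518801667764322561) (nat_lit 1)) (.cons (.rf (nat_lit 1510) (nat_lit 14242959524133701664)) (.cons (.br (nat_lit 4) (nat_lit 0) (.cons (.ev (nat_lit 18518801667764322561) (nat_lit 1)) (.cons (.rf (nat_lit 1510) (nat_lit 14242959524133701664)) .nil))) .nil)))) .nil)))) .nil))))]

theorem c41 : chkAll C T R L41 (nat_lit 1486) = true := by decide +kernel

theorem l41 : (nat_lit 1486) + L41.length = (nat_lit 1512) := by decide +kernel

/-- part of the certificates -/
def L42 : List Prf := [(.br (nat_lit 4) (nat_lit 0) (.cons (.rf (nat_lit 485) (nat_lit 12746918786533472)) (.cons (.br (nat_lit 6) (nat_lit 1) (.cons (.rf (nat_lit 1229) (nat_lit 443825814412267552)) (.cons (.br (nat_lit 9) (nat_lit 1) (.cons (.rf (nat_lit 445) (nat_lit 407864020024985696)) (.cons (.br (nat_lit 10) (nat_lit 0) (.cons (.br (nat_lit 11) (nat_lit 0) (.cons (.ev (nat_lit 317230597658296468899352347392) (nat_lit 3)) .nil)) .nil)) .nil))) .nil))) .nil))),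
 (.br (nat_lit 4) (nat_lit 0) (.cons (.rf (nat_lit 1236) (nat_lit 14242890222688897056)) (.cons (.br (nat_lit 9) (nat_lit 1) (.cons (.rf (nat_lit 683) (nat_lit 374020051394724928)) (.cons (.rf (nat_lit 1207) (nat_lit 14242957327257929760)) .nil))) .nil))),
 (.br (nat_lit 3) (nat_lit 0) (.cons (.rf (nat_lit 1511) (nat_lit 14242959524133701664)) (.cons (.br (nat_lit 4) (nat_lit 0) (.cons (.rf (nat_lit 1512) (nat_lit 14242959524133701664)) (.cons (.rf (nat_lit 485) (nat_lit 12746918786533472)) (.cons (.br (nat_lit 4) (nat_lit 0) (.cons (.rf (nat_lit 1512) (nat_lit 14242959524133701664)) (.cons (.rf (nat_lit 485) (nat_lit 12746918786533472)) .nil))) .nil)))) (.cons (.br (nat_lit 4) (nat_lit 0) (.cons (.rf (nat_lit 1237) (nat_lit 14242890222688897056)) (.cons (.rf (nat_lit 1513) (nat_lit 14242959524133701664)) (.cons (.br (nat_lit 4) (nat_lit 0) (.cons (.rf (nat_lit 1237) (nat_lit 14242890222688897056)) (.cons (.rf (nat_lit 1513) (nat_lit 14242959524133701664)) .nil)))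 .nil)))) .nil)))),
 (.br (nat_lit 6) (nat_lit 1) (.cons (.br (nat_lit 7) (nat_lit 1) (.cons (.rf (nat_lit 486) (nat_lit 374122305974995072)) (.cons (.br (nat_lit 4) (nat_lit 0) (.cons (.rf (nat_lit 445) (nat_lit 407865116380400768)) (.cons (.br (nat_lit 9) (nat_lit 1) (.cons (.br (nat_lit 11) (nat_lit 0) (.cons (.ev (nat_lit 79537652264970968299173052416) (nat_lit 1)) .nil)) .nil)) .nil))) .nil))) (.cons (.br (nat_lit 4) (nat_lit 0) (.cons (.br (nat_lit 9) (nat_lit 1) (.cons (.rf (nat_lit 440) (nat_lit 372998503085936704)) (.cons (.br (nat_lit 10) (nat_lit 0) (.cons (.br (nat_lit 11) (nat_lit 0) (.cons (.zr (nat_lit 21525169408) (nat_lit 79228167255150467655378534401) (nat_lit 10) (nat_lit 0)) .nil)) .nil)) .nil))) (.cons (.br (nat_lit 7) (nat_lit 1) (.cons (.rf (nat_lit 440) (nat_lit 372928134407819360)) (.cons (.rf (nat_lit 1232) (nat_lit 14242887027233228832)) .nil))) (.cons (.br (nat_lit 9) (nat_lit 1) (.cons (.kr (nat_lit 281474993487872) (nat_lit 1208925819614633469673472)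 (nat_lit 3) (nat_lit 0)) (.cons (.br (nat_lit 11) (nat_lit 0) (.cons (.br (nat_lit 10) (nat_lit 0) (.cons (.zr (nat_lit 158456334473261924600445404416) (nat_lit 6044684654478149116035075) (nat_lit 5) (nat_lit 0)) .nil)) (.cons (.rf (nat_lit 1359) (nat_lit 361670236898922860)) .nil))) .nil))) .nil)))) .nil))),
 (.br (nat_lit 4) (nat_lit 0) (.cons (.rf (nat_lit 1217) (nat_lit 14242855072676546592)) .nil)),
 (.br (nat_lit 6) (nat_lit 1) (.cons (.rf (nat_lit 1515) (nat_lit 14242959524133701664)) (.cons (.br (nat_lit 7) (nat_lit 1) (.cons (.br (nat_lit 4) (nat_lit 0) (.cons (.rf (nat_lit 485) (nat_lit 12746918785484928)) (.cons (.br (nat_lit 9) (nat_lit 1) (.cons (.rf (nat_lit 1505) (nat_lit 14242885925674780704)) .nil)) .nil))) (.cons (.br (nat_lit 4) (nat_lit 0) (.cons (.rf (nat_lit 1516) (nat_lit 14242959524133701664)) (.cons (.br (nat_lit 4) (nat_lit 0) (.cons (.rf (nat_lit 1217) (nat_lit 14242855072676546592)) .nil)) .nil))) .nil))) .nil))),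
 (.br (nat_lit 3) (nat_lit 0) (.cons (.rf (nat_lit 1511) (nat_lit 14242959524133701664)) (.cons (.rf (nat_lit 1514) (nat_lit 14242959524133701664)) (.cons (.br (nat_lit 6) (nat_lit 1) (.cons (.rf (nat_lit 1515) (nat_lit 14242959524133701664)) (.cons (.rf (nat_lit 1517) (nat_lit 14242959524133701664)) (.cons (.br (nat_lit 6) (nat_lit 1) (.cons (.rf (nat_lit 1515) (nat_lit 14242959524133701664)) (.cons (.rf (nat_lit 1517) (nat_lit 14242959524133701664)) .nil))) .nil)))) .nil)))),
 (.br (nat_lit 2) (nat_lit 0) (.cons (.rf (nat_lit 1508) (nat_lit 407901468851537952)) (.cons (.rf (nat_lit 1291) (nat_lit 407795850304128064)) (.cons (.br (nat_lit 3) (nat_lit 0) (.cons (.rf (nat_lit 1511) (nat_lit 14242959524133701664)) (.cons (.rf (nat_lit 1514) (nat_lit 14242959524133701664)) (.cons (.rf (nat_lit 1518) (nat_lit 14242959524133701664)) (.cons (.br (nat_lit 3) (nat_lit 0) (.cons (.rf (nat_lit 1511) (nat_lit 14242959524133701664)) (.cons (.rf (nat_lit 1514) (nat_lit 14242959524133701664))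 (.cons (.rf (nat_lit 1518) (nat_lit 14242959524133701664)) .nil)))) .nil))))) .nil)))),
 (.br (nat_lit 2) (nat_lit 0) (.cons (.rf (nat_lit 1508) (nat_lit 407901468851537952)) (.cons (.rf (nat_lit 1519) (nat_lit 407901468851537952)) (.cons (.rf (nat_lit 1519) (nat_lit 407827870392616992)) (.cons (.br (nat_lit 2) (nat_lit 0) (.cons (.rf (nat_lit 1508) (nat_lit 407901468851537952)) (.cons (.rf (nat_lit 1519) (nat_lit 407901468851537952)) (.cons (.rf (nat_lit 1519) (nat_lit 407827870392616992)) .nil)))) .nil))))),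
 (.br (nat_lit 4) (nat_lit 0) (.cons (.br (nat_lit 10) (nat_lit 0) (.cons (.ev (nat_lit 158457548140111218243893527040) (nat_lit 2)) .nil)) .nil)),
 (.br (nat_lit 3) (nat_lit 0) (.cons (.rf (nat_lit 642) (nat_lit 407900402659460160)) (.cons (.rf (nat_lit 642) (nat_lit 407899303181386816)) (.cons (.br (nat_lit 6) (nat_lit 1) (.cons (.rf (nat_lit 1495) (nat_lit 372997505546323008)) (.cons (.br (nat_lit 7) (nat_lit 1) (.cons (.rf (nat_lit 1495) (nat_lit 372961256055899200)) (.cons (.rf (nat_lit 1198) (nat_lit 407867316378895424)) (.cons (.br (nat_lit 4) (nat_lit 0) (.cons (.rf (nat_lit 1246) (nat_lit 14242890188360618016)) (.cons (.br (nat_lit 4) (nat_lit 0) (.cons (.rf (nat_lit 1246) (nat_lit 14242890188360618016)) .nil)) .nil))) .nil)))) (.cons (.br (nat_lit 7) (nat_lit 1) (.cons (.rf (nat_lit 1495) (nat_lit 372961256055899200)) (.cons (.br (nat_lit 11) (nat_lit 0) (.cons (.ev (nat_lit 309489732187827938370060289) (nat_lit 1)) (.cons (.br (nat_lit 4) (nat_lit 0)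 (.cons (.rf (nat_lit 1521) (nat_lit 14242959524133701664)) (.cons (.br (nat_lit 4) (nat_lit 0) (.cons (.rf (nat_lit 1521) (nat_lit 14242959524133701664)) .nil)) .nil))) .nil))) (.cons (.rf (nat_lit 1198) (nat_lit 372858969229722688)) .nil)))) .nil)))) .nil)))),
 (.br (nat_lit 3) (nat_lit 0) (.cons (.rf (nat_lit 1495) (nat_lit 407900402659460160)) (.cons (.rf (nat_lit 1495) (nat_lit 407864153169036352)) (.cons (.rf (nat_lit 1522) (nat_lit 407901468851537952)) (.cons (.br (nat_lit 3) (nat_lit 0) (.cons (.rf (nat_lit 1495) (nat_lit 407900402659460160)) (.cons (.rf (nat_lit 1495) (nat_lit 407864153169036352)) (.cons (.rf (nat_lit 1522) (nat_lit 407901468851537952)) .nil)))) .nil))))),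
 (.br (nat_lit 9) (nat_lit 1) (.cons (.br (nat_lit 10) (nat_lit 0) (.cons (.br (nat_lit 11) (nat_lit 0) (.cons (.ev (nat_lit 313111861068856312905925892) (nat_lit 3)) .nil)) .nil)) .nil)),
 (.br (nat_lit 4) (nat_lit 0) (.cons (.rf (nat_lit 642) (nat_lit 407899303179322464)) (.cons (.br (nat_lit 9) (nat_lit 1) (.cons (.rf (nat_lit 1524) (nat_lit 14242959524133701664)) (.cons (.br (nat_lit 9) (nat_lit 1) (.cons (.rf (nat_lit 1524) (nat_lit 14242959524133701664)) .nil)) .nil))) .nil))),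
 (.br (nat_lit 4) (nat_lit 0) (.cons (.rf (nat_lit 642) (nat_lit 407899303179322464)) (.cons (.br (nat_lit 7) (nat_lit 1) (.cons (.br (nat_lit 9) (nat_lit 1) (.cons (.ev (nat_lit 4722438540463683141889) (nat_lit 1)) (.cons (.br (nat_lit 10) (nat_lit 0) (.cons (.rf (nat_lit 1090) (nat_lit 14232757089201104992)) .nil)) .nil))) (.cons (.br (nat_lit 9) (nat_lit 1) (.cons (.br (nat_lit 10) (nat_lit 0) (.cons (.br (nat_lit 11) (nat_lit 0) (.cons (.ev (nat_lit 322811602546376794018351880) (nat_lit 4)) .nil)) .nil)) (.cons (.ev (nat_lit 4722438540463683141889) (nat_lit 1)) .nil))) .nil))) .nil))),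
 (.br (nat_lit 4) (nat_lit 0) (.cons (.rf (nat_lit 642) (nat_lit 407828934502253664)) (.cons (.br (nat_lit 7) (nat_lit 1) (.cons (.br (nat_lit 9) (nat_lit 1) (.cons (.ev (nat_lit 4722438540463683141889) (nat_lit 1)) (.cons (.br (nat_lit 10) (nat_lit 0) (.cons (.br (nat_lit 11) (nat_lit 0) (.cons (.ev (nat_lit 313111861068856312905925892) (nat_lit 3)) .nil)) .nil)) .nil))) (.cons (.br (nat_lit 9) (nat_lit 1) (.cons (.br (nat_lit 10) (nat_lit 0) (.cons (.br (nat_lit 11) (nat_lit 0) (.cons (.ev (nat_lit 322849454686507909195433736) (nat_lit 4)) .nil)) .nil)) (.cons (.ev (nat_lit 4722438540463683141889) (nat_lit 1)) .nil))) .nil))) .nil))),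
 (.br (nat_lit 7) (nat_lit 1) (.cons (.br (nat_lit 10) (nat_lit 0) (.cons (.br (nat_lit 11) (nat_lit 0) (.cons (.ev (nat_lit 158769446446019216051792056070) (nat_lit 4)) .nil)) .nil)) .nil)),
 (.br (nat_lit 4) (nat_lit 0) (.cons (.rf (nat_lit 642) (nat_lit 407828934502253664)) (.cons (.br (nat_lit 7) (nat_lit 1) (.cons (.rf (nat_lit 1528) (nat_lit 14242959524133701664)) (.cons (.br (nat_lit 7) (nat_lit 1) (.cons (.rf (nat_lit 1528) (nat_lit 14242959524133701664)) .nil)) .nil))) .nil))),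
 (.br (nat_lit 4) (nat_lit 0) (.cons (.br (nat_lit 7) (nat_lit 1) (.cons (.br (nat_lit 9) (nat_lit 1) (.cons (.ev (nat_lit 4740885285641216131073) (nat_lit 1)) (.cons (.br (nat_lit 10) (nat_lit 0) (.cons (.br (nat_lit 11) (nat_lit 0) (.cons (.ev (nat_lit 313111861068856312905925892) (nat_lit 3)) .nil)) .nil)) .nil))) (.cons (.br (nat_lit 9) (nat_lit 1) (.cons (.br (nat_lit 10) (nat_lit 0) (.cons (.br (nat_lit 11) (nat_lit 0) (.cons (.ev (nat_lit 322811786436233138023499016) (nat_lit 4)) .nil)) .nil)) (.cons (.ev (nat_lit 4740885285641216131073) (nat_lit 1)) .nil))) .nil))) (.cons (.br (nat_lit 7) (nat_lit 1) (.cons (.br (nat_lit 10) (nat_lit 0) (.cons (.br (nat_lit 9) (nat_lit 1) (.cons (.br (nat_lit 11) (nat_lit 0) (.cons (.ev (nat_lit 313111861068856312905925892) (nat_lit 3)) .nil)) .nil)) (.cons (.rf (nat_lit 1291) (nat_lit 397734251543465292)) .nil))) (.cons (.br (nat_lit 11) (nat_lit 0) (.cons (.br (nat_lit 9) (nat_lit 1) (.cons (.br (nat_lit 10) (nat_lit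 0) (.cons (.ev (nat_lit 79537652246452447006890721536) (nat_lit 1)) .nil)) .nil)) (.cons (.ev (nat_lit 309485028340147840295698433) (nat_lit 1)) .nil))) .nil))) .nil))),
 (.br (nat_lit 4) (nat_lit 0) (.cons (.rf (nat_lit 1530) (nat_lit 14242959524133701664)) (.cons (.br (nat_lit 9) (nat_lit 1) (.cons (.rf (nat_lit 1258) (nat_lit 14242890222688897056)) (.cons (.rf (nat_lit 1090) (nat_lit 407832133080548428)) .nil))) .nil))),
 (.br (nat_lit 3) (nat_lit 0) (.cons (.br (nat_lit 4) (nat_lit 0) (.cons (.rf (nat_lit 1525) (nat_lit 14242959524133701664)) (.cons (.rf (nat_lit 1526) (nat_lit 14242959524133701664)) (.cons (.br (nat_lit 4) (nat_lit 0) (.cons (.rf (nat_lit 1525) (nat_lit 14242959524133701664)) (.cons (.rf (nat_lit 1526) (nat_lit 14242959524133701664)) .nil))) .nil)))) (.cons (.br (nat_lit 4) (nat_lit 0) (.cons (.rf (nat_lit 1527) (nat_lit 14242959524133701664)) (.cons (.rf (nat_lit 1529) (nat_lit 14242959524133701664)) (.cons (.br (nat_lit 4) (nat_lit 0) (.cons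 (.rf (nat_lit 1527) (nat_lit 14242959524133701664)) (.cons (.rf (nat_lit 1529) (nat_lit 14242959524133701664)) .nil))) .nil)))) (.cons (.br (nat_lit 4) (nat_lit 0) (.cons (.rf (nat_lit 1530) (nat_lit 14242959524133701664)) (.cons (.rf (nat_lit 1531) (nat_lit 14242959524133701664)) (.cons (.br (nat_lit 4) (nat_lit 0) (.cons (.rf (nat_lit 1530) (nat_lit 14242959524133701664)) (.cons (.rf (nat_lit 1531) (nat_lit 14242959524133701664)) .nil))) .nil)))) .nil)))),
 (.br (nat_lit 4) (nat_lit 0) (.cons (.rf (nat_lit 641) (nat_lit 12746918784533600)) (.cons (.br (nat_lit 9) (nat_lit 1) (.cons (.ev (nat_lit 1213666632842676352909313) (nat_lit 1)) (.cons (.br (nat_lit 10) (nat_lit 0) (.cons (.br (nat_lit 11) (nat_lit 0) (.cons (.ev (nat_lit 79537647542604766908816359680) (nat_lit 1)) .nil)) .nil)) .nil))) .nil))),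
 (.br (nat_lit 4) (nat_lit 0) (.cons (.rf (nat_lit 641) (nat_lit 12746918784533600)) (.cons (.br (nat_lit 7) (nat_lit 1) (.cons (.rf (nat_lit 437) (nat_lit 407795848221593696)) (.cons (.br (nat_lit 10) (nat_lit 0) (.cons (.ev (nat_lit 1218425965436432153772290) (nat_lit 2)) .nil)) .nil))) .nil))),
 (.br (nat_lit 4) (nat_lit 0) (.cons (.rf (nat_lit 641) (nat_lit 12746918784533600)) (.cons (.br (nat_lit 9) (nat_lit 1) (.cons (.br (nat_lit 10) (nat_lit 0) (.cons (.br (nat_lit 11) (nat_lit 0) (.cons (.ev (nat_lit 317994862520821704299315976) (nat_lit 4)) .nil)) .nil)) (.cons (.rf (nat_lit 437) (nat_lit 372889757734178912)) .nil))) .nil))),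
 (.br (nat_lit 4) (nat_lit 0) (.cons (.rf (nat_lit 641) (nat_lit 12746918784533600)) (.cons (.br (nat_lit 7) (nat_lit 1) (.cons (.br (nat_lit 10) (nat_lit 0) (.cons (.ev (nat_lit 1208944338417400745558273) (nat_lit 1)) .nil)) (.cons (.rf (nat_lit 437) (nat_lit 372889755653804128)) .nil))) .nil))),
 (.br (nat_lit 6) (nat_lit 1) (.cons (.rf (nat_lit 1532) (nat_lit 14207983028561643552)) (.cons (.br (nat_lit 4) (nat_lit 0) (.cons (.rf (nat_lit 1533) (nat_lit 14242959524133701664)) (.cons (.rf (nat_lit 1534) (nat_lit 14242959524133701664)) (.cons (.br (nat_lit 4) (nat_lit 0) (.cons (.rf (nat_lit 1533) (nat_lit 14242959524133701664)) (.cons (.rf (nat_lit 1534) (nat_lit 14242959524133701664)) .nil))) .nil)))) (.cons (.br (nat_lit 4) (nat_lit 0) (.cons (.rf (nat_lit 1535) (nat_lit 14242959524133701664)) (.cons (.rf (nat_lit 1536) (nat_lit 14242959524133701664)) (.cons (.br (nat_lit 4) (nat_lit 0) (.cons (.rf (nat_lit 1535) (nat_lit 14242959524133701664)) (.cons (.rf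 (nat_lit 1536) (nat_lit 14242959524133701664)) .nil))) .nil)))) .nil)))),
 (.br (nat_lit 4) (nat_lit 0) (.cons (.rf (nat_lit 1537) (nat_lit 14207983028561643552)) (.cons (.br (nat_lit 12) (nat_lit 1) (.cons (.rf (nat_lit 1291) (nat_lit 397768369689922892)) (.cons (.ev (nat_lit 79228162514264619072832471296) (nat_lit 1)) .nil))) .nil))),
 (.br (nat_lit 4) (nat_lit 0) (.cons (.rf (nat_lit 1537) (nat_lit 14207983028561643552)) (.cons (.br (nat_lit 12) (nat_lit 1) (.cons (.ev (nat_lit 79228162514264619072832471296) (nat_lit 1)) (.cons (.rf (nat_lit 1291) (nat_lit 361670236898922860)) .nil))) .nil))),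
 (.br (nat_lit 3) (nat_lit 0) (.cons (.rf (nat_lit 1532) (nat_lit 14242959524133701664)) (.cons (.rf (nat_lit 1537) (nat_lit 14242959524133701664)) (.cons (.br (nat_lit 6) (nat_lit 1) (.cons (.rf (nat_lit 1532) (nat_lit 14207983028561643552)) (.cons (.br (nat_lit 4) (nat_lit 0) (.cons (.rf (nat_lit 1538) (nat_lit 14242959524133701664)) (.cons (.br (nat_lit 4) (nat_lit 0) (.cons (.rf (nat_lit 1537) (nat_lit 14207983028561643552)) (.cons (.ev (nat_lit 18446745177532924161) (nat_lit 1)) .nil))) (.cons (.br (nat_lit 4) (nat_lit 0) (.cons (.rf (nat_lit 1538) (nat_lit 14242959524133701664)) (.cons (.ev (nat_lit 18446745177532924161) (nat_lit 1)) .nil))) .nil)))) (.cons (.br (nat_lit 4) (nat_lit 0) (.cons (.rf (nat_lit 1539) (nat_lit 14242959524133701664)) (.cons (.br (nat_lit 4) (nat_lit 0) (.cons (.rf (nat_lit 1537) (nat_lit 14207983028561643552)) (.cons (.ev (nat_lit 18446745177532924161) (nat_lit 1)) .nil))) (.cons (.br (nat_lit 4) (nat_lit 0) (.cons (.rf (nat_lit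 1539) (nat_lit 14242959524133701664)) (.cons (.ev (nat_lit 18446745177532924161) (nat_lit 1)) .nil))) .nil)))) .nil)))) .nil)))),
 (.br (nat_lit 3) (nat_lit 0) (.cons (.rf (nat_lit 1532) (nat_lit 14242959524133701664)) (.cons (.rf (nat_lit 1540) (nat_lit 14242959524133701664)) (.cons (.br (nat_lit 6) (nat_lit 1) (.cons (.rf (nat_lit 1532) (nat_lit 14207983028561643552)) (.cons (.br (nat_lit 4) (nat_lit 0) (.cons (.br (nat_lit 4) (nat_lit 0) (.cons (.rf (nat_lit 1540) (nat_lit 14207983028561643552)) (.cons (.ev (nat_lit 18446745177532924161) (nat_lit 1)) .nil))) (.cons (.rf (nat_lit 1540) (nat_lit 14207983028561643552)) (.cons (.br (nat_lit 4) (nat_lit 0) (.cons (.ev (nat_lit 18446745177532924161) (nat_lit 1)) (.cons (.rf (nat_lit 1540) (nat_lit 14207983028561643552)) .nil))) .nil)))) (.cons (.br (nat_lit 4) (nat_lit 0) (.cons (.br (nat_lit 4) (nat_lit 0) (.cons (.rf (nat_lit 1540) (nat_lit 14207983028561643552)) (.cons (.ev (nat_lit 18446745177532924161) (nat_lit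 1)) .nil))) (.cons (.rf (nat_lit 1540) (nat_lit 14207983028561643552)) (.cons (.br (nat_lit 4) (nat_lit 0) (.cons (.ev (nat_lit 18446745177532924161) (nat_lit 1)) (.cons (.rf (nat_lit 1540) (nat_lit 14207983028561643552)) .nil))) .nil)))) .nil)))) .nil))))]

theorem c42 : chkAll C T R L42 (nat_lit 1512) = true := by decide +kernel

theorem l42 : (nat_lit 1512) + L42.length = (nat_lit 1542) := by decide +kernel

/-- part of the certificates -/
def L43 : List Prf := [(.br (nat_lit 2) (nat_lit 0) (.cons (.rf (nat_lit 1523) (nat_lit 407901468851537952)) (.cons (.rf (nat_lit 1523) (nat_lit 372924973279479840)) (.cons (.br (nat_lit 3) (nat_lit 0) (.cons (.rf (nat_lit 1532) (nat_lit 14242959524133701664)) (.cons (.rf (nat_lit 1540) (nat_lit 14242959524133701664)) (.cons (.rf (nat_lit 1541) (nat_lit 14242959524133701664)) (.cons (.br (nat_lit 3) (nat_lit 0) (.cons (.rf (nat_lit 1532) (nat_lit 14242959524133701664)) (.cons (.rf (nat_lit 1540) (nat_lit 14242959524133701664))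 (.cons (.rf (nat_lit 1541) (nat_lit 14242959524133701664)) .nil)))) .nil))))) .nil)))),
 (.br (nat_lit 9) (nat_lit 1) (.cons (.rf (nat_lit 437) (nat_lit 407901400199104608)) (.cons (.br (nat_lit 10) (nat_lit 0) (.cons (.br (nat_lit 11) (nat_lit 0) (.cons (.kr (nat_lit 310693935640959697916264704) (nat_lit 562954248454144) (nat_lit 1) (nat_lit 0)) .nil)) .nil)) .nil))),
 (.br (nat_lit 4) (nat_lit 0) (.cons (.ev (nat_lit 18446745177532924161) (nat_lit 1)) (.cons (.br (nat_lit 6) (nat_lit 1) (.cons (.rf (nat_lit 1543) (nat_lit 14242959524133701664)) (.cons (.br (nat_lit 9) (nat_lit 1) (.cons (.br (nat_lit 10) (nat_lit 0) (.cons (.br (nat_lit 11) (nat_lit 0) (.cons (.ev (nat_lit 330150198104929562445422352) (nat_lit 5)) .nil)) .nil)) (.cons (.rf (nat_lit 437) (nat_lit 372995307631315040)) .nil))) .nil))) .nil))),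
 (.br (nat_lit 4) (nat_lit 0) (.cons (.rf (nat_lit 641) (nat_lit 12746918750979168)) (.cons (.br (nat_lit 9) (nat_lit 1) (.cons (.ev (nat_lit 1213666632842676352909313) (nat_lit 1)) (.cons (.br (nat_lit 10) (nat_lit 0) (.cons (.ev (nat_lit 1213648186097503131664641) (nat_lit 1)) .nil)) .nil))) .nil))),
 (.br (nat_lit 4) (nat_lit 0) (.cons (.rf (nat_lit 641) (nat_lit 12746918750979168)) (.cons (.br (nat_lit 6) (nat_lit 1) (.cons (.rf (nat_lit 437) (nat_lit 407831031519940704)) (.cons (.br (nat_lit 10) (nat_lit 0) (.cons (.br (nat_lit 11) (nat_lit 0) (.cons (.ev (nat_lit 79537647542532708210971771136) (nat_lit 1)) .nil)) .nil)) .nil))) .nil))),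
 (.br (nat_lit 4) (nat_lit 0) (.cons (.rf (nat_lit 641) (nat_lit 12746918750979168)) (.cons (.br (nat_lit 9) (nat_lit 1) (.cons (.br (nat_lit 11) (nat_lit 0) (.cons (.kr (nat_lit 309485009821345068741558272) (nat_lit 4722366482873940180992) (nat_lit 3) (nat_lit 0)) .nil)) (.cons (.rf (nat_lit 437) (nat_lit 372924942072713312)) .nil))) .nil))),
 (.br (nat_lit 4) (nat_lit 0) (.cons (.rf (nat_lit 641) (nat_lit 12746918750979168)) (.cons (.br (nat_lit 6) (nat_lit 1) (.cons (.br (nat_lit 10) (nat_lit 0) (.cons (.br (nat_lit 11) (nat_lit 0) (.cons (.zr (nat_lit 79228176699810530284779143168) (nat_lit 1237940039285380274915901442) (nat_lit 5) (nat_lit 9)) .nil)) .nil)) (.cons (.ev (nat_lit 309489750706629610412507393) (nat_lit 1)) .nil))) .nil))),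
 (.br (nat_lit 9) (nat_lit 1) (.cons (.ev (nat_lit 9463252332568899486466) (nat_lit 2)) (.cons (.br (nat_lit 10) (nat_lit 0) (.cons (.ev (nat_lit 2427315035677006768374530) (nat_lit 2)) .nil)) .nil))),
 (.br (nat_lit 4) (nat_lit 0) (.cons (.br (nat_lit 9) (nat_lit 1) (.cons (.rf (nat_lit 437) (nat_lit 407795850303015040)) (.cons (.br (nat_lit 10) (nat_lit 0) (.cons (.br (nat_lit 11) (nat_lit 0) (.cons (.zr (nat_lit 281496501879552) (nat_lit 79230594551521818228088111105) (nat_lit 10) (nat_lit 0)) .nil)) .nil)) .nil))) (.cons (.br (nat_lit 10) (nat_lit 0) (.cons (.br (nat_lit 9) (nat_lit 1) (.cons (.br (nat_lit 11) (nat_lit 0) (.cons (.ev (nat_lit 79538861190718805709791756288) (nat_lit 1)) .nil)) .nil)) (.cons (.rf (nat_lit 1291) (nat_lit 397768369689922892)) .nil))) .nil))),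
 (.br (nat_lit 12) (nat_lit 1) (.cons (.rf (nat_lit 1291) (nat_lit 397768369689922892)) (.cons (.br (nat_lit 11) (nat_lit 0) (.cons (.rf (nat_lit 1291) (nat_lit 361670236898922860)) (.cons (.rf (nat_lit 1495) (nat_lit 361633954122502508)) (.cons (.rf (nat_lit 1291) (nat_lit 361597704632078700)) .nil)))) .nil))),
 (.br (nat_lit 4) (nat_lit 0) (.cons (.br (nat_lit 9) (nat_lit 1) (.cons (.br (nat_lit 10) (nat_lit 0) (.cons (.br (nat_lit 11) (nat_lit 0) (.cons (.ev (nat_lit 322792896972549009803903240) (nat_lit 4)) .nil)) .nil)) (.cons (.rf (nat_lit 437) (nat_lit 372889757735225472)) .nil))) (.cons (.br (nat_lit 11) (nat_lit 0) (.cons (.br (nat_lit 9) (nat_lit 1) (.cons (.br (nat_lit 10) (nat_lit 0) (.cons (.ev (nat_lit 79538861190718805709791756288) (nat_lit 1)) .nil)) .nil)) (.cons (.rf (nat_lit 1291) (nat_lit 361670236898922860)) .nil))) .nil))),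
 (.br (nat_lit 4) (nat_lit 0) (.cons (.rf (nat_lit 1552) (nat_lit 14242959524133701664)) (.cons (.br (nat_lit 7) (nat_lit 1) (.cons (.rf (nat_lit 982) (nat_lit 14207947810937111616)) (.cons (.br (nat_lit 12) (nat_lit 1) (.cons (.ev (nat_lit 79537647542604766904504615168) (nat_lit 1)) .nil)) .nil))) .nil))),
 (.br (nat_lit 3) (nat_lit 0) (.cons (.br (nat_lit 4) (nat_lit 0) (.cons (.br (nat_lit 4) (nat_lit 0) (.cons (.ev (nat_lit 18446745177532924161) (nat_lit 1)) (.cons (.ev (nat_lit 18518801672042512641) (nat_lit 1)) .nil))) (.cons (.rf (nat_lit 1544) (nat_lit 14242959524133701664)) (.cons (.br (nat_lit 4) (nat_lit 0) (.cons (.ev (nat_lit 18518801672042512641) (nat_lit 1)) (.cons (.rf (nat_lit 1544) (nat_lit 14242959524133701664)) .nil))) .nil)))) (.cons (.br (nat_lit 7) (nat_lit 1) (.cons (.ev (nat_lit 72058693566332929) (nat_lit 1)) (.cons (.br (nat_lit 4) (nat_lit 0) (.cons (.rf (nat_lit 1545) (nat_lit 14242959524133701664)) (.cons (.rf (nat_lit 1546) (nat_lit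 14242959524133701664)) (.cons (.br (nat_lit 4) (nat_lit 0) (.cons (.rf (nat_lit 1545) (nat_lit 14242959524133701664)) (.cons (.rf (nat_lit 1546) (nat_lit 14242959524133701664)) .nil))) .nil)))) (.cons (.br (nat_lit 4) (nat_lit 0) (.cons (.rf (nat_lit 1547) (nat_lit 14242959524133701664)) (.cons (.rf (nat_lit 1548) (nat_lit 14242959524133701664)) (.cons (.br (nat_lit 4) (nat_lit 0) (.cons (.rf (nat_lit 1547) (nat_lit 14242959524133701664)) (.cons (.rf (nat_lit 1548) (nat_lit 14242959524133701664)) .nil))) .nil)))) .nil)))) (.cons (.br (nat_lit 6) (nat_lit 1) (.cons (.br (nat_lit 4) (nat_lit 0) (.cons (.br (nat_lit 9) (nat_lit 1) (.cons (.rf (nat_lit 1549) (nat_lit 14242959524133701664)) (.cons (.br (nat_lit 9) (nat_lit 1) (.cons (.rf (nat_lit 1549) (nat_lit 14242959524133701664)) .nil)) .nil))) (.cons (.br (nat_lit 7) (nat_lit 1) (.cons (.br (nat_lit 9) (nat_lit 1) (.cons (.ev (nat_lit 1213648186097498819920129) (nat_lit 1)) (.cons (.br (nat_lit 10) (nat_lit 0)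 (.cons (.ev (nat_lit 1213666632842672041164801) (nat_lit 1)) .nil)) .nil))) (.cons (.br (nat_lit 9) (nat_lit 1) (.cons (.br (nat_lit 10) (nat_lit 0) (.cons (.ev (nat_lit 1223111365810623256592386) (nat_lit 2)) .nil)) (.cons (.kr (nat_lit 4722366482869645213696) (nat_lit 309485009821345068724781056) (nat_lit 9) (nat_lit 0)) .nil))) .nil))) (.cons (.br (nat_lit 7) (nat_lit 1) (.cons (.br (nat_lit 10) (nat_lit 0) (.cons (.br (nat_lit 9) (nat_lit 1) (.cons (.br (nat_lit 11) (nat_lit 0) (.cons (.ev (nat_lit 475694185797447878949597021442) (nat_lit 4)) .nil)) .nil)) (.cons (.rf (nat_lit 1291) (nat_lit 397734251543465292)) .nil))) (.cons (.br (nat_lit 11) (nat_lit 0) (.cons (.rf (nat_lit 1445) (nat_lit 14208056627020564512)) (.cons (.rf (nat_lit 1495) (nat_lit 361633954122502508)) .nil))) .nil))) .nil)))) (.cons (.br (nat_lit 4) (nat_lit 0) (.cons (.rf (nat_lit 1550) (nat_lit 14242959524133701664)) (.cons (.br (nat_lit 4) (nat_lit 0) (.cons (.rf (nat_lit 1550) (nat_lit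 14242959524133701664)) (.cons (.rf (nat_lit 1551) (nat_lit 14242959524133701664)) .nil))) (.cons (.rf (nat_lit 1551) (nat_lit 14242959524133701664)) .nil)))) (.cons (.br (nat_lit 4) (nat_lit 0) (.cons (.rf (nat_lit 1552) (nat_lit 14242959524133701664)) (.cons (.rf (nat_lit 1553) (nat_lit 14242959524133701664)) (.cons (.br (nat_lit 4) (nat_lit 0) (.cons (.rf (nat_lit 1552) (nat_lit 14242959524133701664)) (.cons (.rf (nat_lit 1553) (nat_lit 14242959524133701664)) .nil))) .nil)))) .nil)))) .nil)))),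
 (.br (nat_lit 4) (nat_lit 0) (.cons (.rf (nat_lit 642) (nat_lit 407794849641792608)) (.cons (.ev (nat_lit 18518801672042512641) (nat_lit 1)) .nil))),
 (.br (nat_lit 6) (nat_lit 1) (.cons (.br (nat_lit 10) (nat_lit 0) (.cons (.br (nat_lit 11) (nat_lit 0) (.cons (.ev (nat_lit 79228167236631103037694345216) (nat_lit 1)) .nil)) .nil)) .nil)),
 (.br (nat_lit 4) (nat_lit 0) (.cons (.rf (nat_lit 642) (nat_lit 407794849641792608)) (.cons (.br (nat_lit 6) (nat_lit 1) (.cons (.rf (nat_lit 1556) (nat_lit 14242959524133701664)) (.cons (.br (nat_lit 6) (nat_lit 1) (.cons (.rf (nat_lit 1556) (nat_lit 14242959524133701664)) .nil)) .nil))) .nil))),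
 (.br (nat_lit 4) (nat_lit 0) (.cons (.br (nat_lit 6) (nat_lit 1) (.cons (.br (nat_lit 9) (nat_lit 1) (.cons (.rf (nat_lit 440) (nat_lit 372858901614431296)) (.cons (.br (nat_lit 10) (nat_lit 0) (.cons (.br (nat_lit 11) (nat_lit 0) (.cons (.ev (nat_lit 313140158374269798551060740) (nat_lit 3)) .nil)) .nil)) .nil))) (.cons (.br (nat_lit 9) (nat_lit 1) (.cons (.br (nat_lit 10) (nat_lit 0) (.cons (.br (nat_lit 11) (nat_lit 0) (.cons (.ev (nat_lit 322830454541226901703822600) (nat_lit 4)) .nil)) .nil)) (.cons (.rf (nat_lit 440) (nat_lit 407867348621593664)) .nil))) .nil))) (.cons (.ev (nat_lit 18518801672042512641) (nat_lit 1)) .nil))),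
 (.br (nat_lit 3) (nat_lit 0) (.cons (.rf (nat_lit 1554) (nat_lit 14242959524133701664)) (.cons (.br (nat_lit 4) (nat_lit 0) (.cons (.rf (nat_lit 1555) (nat_lit 14242959524133701664)) (.cons (.rf (nat_lit 1557) (nat_lit 14242959524133701664)) (.cons (.br (nat_lit 4) (nat_lit 0) (.cons (.ev (nat_lit 18518801672042512641) (nat_lit 1)) (.cons (.rf (nat_lit 1557) (nat_lit 14242959524133701664)) .nil))) .nil)))) (.cons (.br (nat_lit 4) (nat_lit 0) (.cons (.rf (nat_lit 1558) (nat_lit 14242959524133701664)) (.cons (.br (nat_lit 4) (nat_lit 0) (.cons (.rf (nat_lit 1558) (nat_lit 14242959524133701664)) (.cons (.ev (nat_lit 18446745177532924161) (nat_lit 1)) .nil))) (.cons (.br (nat_lit 4) (nat_lit 0) (.cons (.ev (nat_lit 18518801672042512641) (nat_lit 1)) (.cons (.ev (nat_lit 18446745177532924161) (nat_lit 1)) .nil))) .nil)))) .nil)))),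
 (.br (nat_lit 6) (nat_lit 1) (.cons (.br (nat_lit 4) (nat_lit 0) (.cons (.br (nat_lit 10) (nat_lit 0) (.cons (.ev (nat_lit 1213648258156192386318593) (nat_lit 1)) (.cons (.ev (nat_lit 4835722231301225668935940) (nat_lit 3)) .nil))) (.cons (.br (nat_lit 7) (nat_lit 1) (.cons (.rf (nat_lit 437) (nat_lit 407831031519939712)) (.cons (.rf (nat_lit 1246) (nat_lit 14242890188360618016)) .nil))) (.cons (.rf (nat_lit 1551) (nat_lit 14242959524133701664)) .nil)))) (.cons (.br (nat_lit 4) (nat_lit 0) (.cons (.rf (nat_lit 1543) (nat_lit 14208053328586344480)) (.cons (.br (nat_lit 7) (nat_lit 1) (.cons (.br (nat_lit 10) (nat_lit 0) (.cons (.br (nat_lit 11) (nat_lit 0) (.cons (.zr (nat_lit 158456334473261643146876421376) (nat_lit 55557530903166124035) (nat_lit 5) (nat_lit 0)) .nil)) .nil)) (.cons (.rf (nat_lit 437) (nat_lit 372924938952150144)) .nil))) (.cons (.br (nat_lit 12) (nat_lit 1) (.cons (.br (nat_lit 7) (nat_lit 1) (.cons (.rf (nat_lit 1291) (nat_lit 397734251543465292))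 (.cons (.zr (nat_lit 81085072591639996504582784256) (nat_lit 288234799968026628) (nat_lit 15) (nat_lit 8)) .nil))) (.cons (.rf (nat_lit 1291) (nat_lit 361670236898922860)) .nil))) .nil)))) .nil))),
 (.br (nat_lit 4) (nat_lit 0) (.cons (.br (nat_lit 10) (nat_lit 0) (.cons (.br (nat_lit 11) (nat_lit 0) (.cons (.ev (nat_lit 158769455816099381879469573378) (nat_lit 3)) .nil)) .nil)) (.cons (.ev (nat_lit 18446745177532924161) (nat_lit 1)) .nil))),
 (.br (nat_lit 6) (nat_lit 1) (.cons (.rf (nat_lit 1560) (nat_lit 14242959524133701664)) (.cons (.br (nat_lit 4) (nat_lit 0) (.cons (.rf (nat_lit 1561) (nat_lit 14242959524133701664)) (.cons (.br (nat_lit 4) (nat_lit 0) (.cons (.rf (nat_lit 1561) (nat_lit 14242959524133701664)) (.cons (.rf (nat_lit 1551) (nat_lit 14242959524133701664)) .nil))) (.cons (.rf (nat_lit 1551) (nat_lit 14242959524133701664)) .nil)))) .nil))),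
 (.br (nat_lit 3) (nat_lit 0) (.cons (.rf (nat_lit 1554) (nat_lit 14242959524133701664)) (.cons (.rf (nat_lit 1559) (nat_lit 14242959524133701664)) (.cons (.br (nat_lit 6) (nat_lit 1) (.cons (.rf (nat_lit 1560) (nat_lit 14242959524133701664)) (.cons (.rf (nat_lit 1562) (nat_lit 14242959524133701664)) (.cons (.br (nat_lit 6) (nat_lit 1) (.cons (.rf (nat_lit 1560) (nat_lit 14242959524133701664)) (.cons (.rf (nat_lit 1562) (nat_lit 14242959524133701664)) .nil))) .nil)))) .nil)))),
 (.br (nat_lit 2) (nat_lit 0) (.cons (.rf (nat_lit 1542) (nat_lit 407901468851537952)) (.cons (.rf (nat_lit 1291) (nat_lit 407795850304128064)) (.cons (.br (nat_lit 3) (nat_lit 0) (.cons (.rf (nat_lit 1554) (nat_lit 14242959524133701664)) (.cons (.rf (nat_lit 1559) (nat_lit 14242959524133701664)) (.cons (.rf (nat_lit 1563) (nat_lit 14242959524133701664)) (.cons (.br (nat_lit 3) (nat_lit 0) (.cons (.rf (nat_lit 1554) (nat_lit 14242959524133701664)) (.cons (.rf (nat_lit 1559) (nat_lit 14242959524133701664))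 (.cons (.rf (nat_lit 1563) (nat_lit 14242959524133701664)) .nil)))) .nil))))) .nil)))),
 (.br (nat_lit 8) (nat_lit 1) (.cons (.rf (nat_lit 1359) (nat_lit 407827870392616992)) (.cons (.rf (nat_lit 1495) (nat_lit 407827870392616992)) (.cons (.rf (nat_lit 1495) (nat_lit 372924973279479840)) (.cons (.rf (nat_lit 1520) (nat_lit 407901468851537952)) (.cons (.br (nat_lit 2) (nat_lit 0) (.cons (.rf (nat_lit 1542) (nat_lit 407901468851537952)) (.cons (.rf (nat_lit 1564) (nat_lit 407901468851537952)) (.cons (.rf (nat_lit 1564) (nat_lit 372924973279479840)) (.cons (.br (nat_lit 2) (nat_lit 0) (.cons (.rf (nat_lit 1542) (nat_lit 407901468851537952)) (.cons (.rf (nat_lit 1564) (nat_lit 407901468851537952)) (.cons (.rf (nat_lit 1564) (nat_lit 372924973279479840)) .nil)))) .nil))))) .nil)))))),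
 (.br (nat_lit 5) (nat_lit 1) (.cons (.rf (nat_lit 1359) (nat_lit 407901468851537952)) (.cons (.rf (nat_lit 1495) (nat_lit 407901468851537952)) (.cons (.rf (nat_lit 1495) (nat_lit 372998571738400800)) (.cons (.rf (nat_lit 1565) (nat_lit 407901468851537952)) (.cons (.rf (nat_lit 1565) (nat_lit 372998571738400800)) .nil)))))),
 (.br (nat_lit 10) (nat_lit 0) (.cons (.ev (nat_lit 1208925891672223212634369) (nat_lit 1)) .nil)),
 (.br (nat_lit 9) (nat_lit 1) (.cons (.rf (nat_lit 1567) (nat_lit 14242959524133701664)) (.cons (.br (nat_lit 9) (nat_lit 1) (.cons (.rf (nat_lit 1567) (nat_lit 14242959524133701664)) .nil)) .nil))),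
 (.br (nat_lit 8) (nat_lit 1) (.cons (.rf (nat_lit 1568) (nat_lit 14242958457941623872)) (.cons (.rf (nat_lit 485) (nat_lit 11652906795271264)) .nil))),
 (.br (nat_lit 8) (nat_lit 1) (.cons (.br (nat_lit 8) (nat_lit 1) (.cons (.ev (nat_lit 18519084242252595201) (nat_lit 1)) .nil)) (.cons (.br (nat_lit 8) (nat_lit 1) (.cons (.ev (nat_lit 18519084242252595201) (nat_lit 1)) .nil)) .nil))),
 (.br (nat_lit 7) (nat_lit 1) (.cons (.br (nat_lit 4) (nat_lit 0) (.cons (.br (nat_lit 8) (nat_lit 1) (.cons (.rf (nat_lit 485) (nat_lit 12743622330025056)) (.cons (.rf (nat_lit 1568) (nat_lit 14242959524133701664)) .nil))) (.cons (.br (nat_lit 9) (nat_lit 1) (.cons (.rf (nat_lit 485) (nat_lit 12743656689763424)) (.cons (.br (nat_lit 10) (nat_lit 0) (.cons (.br (nat_lit 10) (nat_lit 0) (.cons (.rf (nat_lit 1455) (nat_lit 444810941398296672)) .nil)) (.cons (.rf (nat_lit 1455) (nat_lit 444810941398296672)) .nil))) .nil))) (.cons (.br (nat_lit 12) (nat_lit 1) (.cons (.br (nat_lit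 9) (nat_lit 1) (.cons (.ev (nat_lit 1208925891672223212634369) (nat_lit 1)) (.cons (.br (nat_lit 9) (nat_lit 1) (.cons (.ev (nat_lit 1208925891672223212634369) (nat_lit 1)) .nil)) .nil))) (.cons (.rf (nat_lit 791) (nat_lit 325702581880876)) .nil))) .nil)))) (.cons (.br (nat_lit 4) (nat_lit 0) (.cons (.rf (nat_lit 1569) (nat_lit 14242959524133701664)) (.cons (.rf (nat_lit 1271) (nat_lit 14207951008473089152)) (.cons (.rf (nat_lit 1570) (nat_lit 14242959524133701664)) .nil)))) .nil))),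
 (.br (nat_lit 9) (nat_lit 1) (.cons (.kr (nat_lit 4722366482869645213696) (nat_lit 309485009821345068724781056) (nat_lit 9) (nat_lit 0)) .nil))]

theorem c43 : chkAll C T R L43 (nat_lit 1542) = true := by decide +kernel

theorem l43 : (nat_lit 1542) + L43.length = (nat_lit 1573) := by decide +kernel

/-- part of the certificates -/
def L44 : List Prf := [(.br (nat_lit 4) (nat_lit 0) (.cons (.rf (nat_lit 1571) (nat_lit 14242958457941623872)) (.cons (.br (nat_lit 12) (nat_lit 1) (.cons (.br (nat_lit 8) (nat_lit 1) (.cons (.br (nat_lit 8) (nat_lit 1) (.cons (.rf (nat_lit 1572) (nat_lit 14242959524133701664)) .nil)) (.cons (.br (nat_lit 8) (nat_lit 1) (.cons (.rf (nat_lit 1572) (nat_lit 14242959524133701664)) .nil)) .nil))) (.cons (.rf (nat_lit 791) (nat_lit 325702581880876)) .nil))) .nil))),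
 (.br (nat_lit 7) (nat_lit 1) (.cons (.rf (nat_lit 1571) (nat_lit 14242959524133701664)) (.cons (.br (nat_lit 4) (nat_lit 0) (.cons (.rf (nat_lit 1571) (nat_lit 14242958457941623872)) (.cons (.rf (nat_lit 1573) (nat_lit 14242959524133701664)) (.cons (.br (nat_lit 4) (nat_lit 0) (.cons (.rf (nat_lit 1571) (nat_lit 14242958457941623872)) (.cons (.rf (nat_lit 1573) (nat_lit 14242959524133701664)) .nil))) .nil)))) .nil))),
 (.br (nat_lit 9) (nat_lit 1) (.cons (.br (nat_lit 10) (nat_lit 0) (.cons (.zr (nat_lit 55412572389672026112) (nat_lit 1223092919063238110348290) (nat_lit 10) (nat_lit 6)) .nil)) .nil)),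
 (.br (nat_lit 8) (nat_lit 1) (.cons (.br (nat_lit 9) (nat_lit 1) (.cons (.rf (nat_lit 1575) (nat_lit 13126066816545818656)) (.cons (.br (nat_lit 9) (nat_lit 1) (.cons (.rf (nat_lit 1575) (nat_lit 13126066816545818656)) .nil)) .nil))) .nil)),
 (.br (nat_lit 8) (nat_lit 1) (.cons (.br (nat_lit 10) (nat_lit 0) (.cons (.br (nat_lit 11) (nat_lit 0) (.cons (.ev (nat_lit 158767028483121922496345998082) (nat_lit 3)) .nil)) .nil)) .nil)),
 (.br (nat_lit 10) (nat_lit 0) (.cons (.br (nat_lit 9) (nat_lit 1) (.cons (.ev (nat_lit 4722438823038188257281) (nat_lit 1)) .nil)) .nil)),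
 (.br (nat_lit 7) (nat_lit 1) (.cons (.br (nat_lit 8) (nat_lit 1) (.cons (.rf (nat_lit 1576) (nat_lit 443930265870501920)) (.cons (.br (nat_lit 8) (nat_lit 1) (.cons (.rf (nat_lit 1576) (nat_lit 443930265870501920)) .nil)) .nil))) (.cons (.br (nat_lit 4) (nat_lit 0) (.cons (.br (nat_lit 8) (nat_lit 1) (.cons (.rf (nat_lit 582) (nat_lit 443930232584439904)) (.cons (.kr (nat_lit 18446744073726328832) (nat_lit 72057598332895232) (nat_lit 3) (nat_lit 0)) .nil))) (.cons (.br (nat_lit 9) (nat_lit 1) (.cons (.rf (nat_lit 582) (nat_lit 443896147723978848)) (.cons (.zr (nat_lit 282578783436800) (nat_lit 4722366482869645214209) (nat_lit 5) (nat_lit 6)) .nil))) (.cons (.br (nat_lit 12) (nat_lit 1) (.cons (.br (nat_lit 8) (nat_lit 1) (.cons (.ev (nat_lit 79229371440084234797206994944) (nat_lit 1)) (.cons (.br (nat_lit 8) (nat_lit 1) (.cons (.ev (nat_lit 79229371440084234797206994944) (nat_lit 1)) .nil)) .nil))) (.cons (.rf (nat_lit 791) (nat_lit 325702581880876)) .nil)))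 .nil)))) (.cons (.br (nat_lit 4) (nat_lit 0) (.cons (.br (nat_lit 8) (nat_lit 1) (.cons (.br (nat_lit 9) (nat_lit 1) (.cons (.rf (nat_lit 923) (nat_lit 14208022508873057376)) (.cons (.rf (nat_lit 923) (nat_lit 14242890188359567488)) .nil))) (.cons (.rf (nat_lit 582) (nat_lit 445056132491282528)) .nil))) (.cons (.br (nat_lit 9) (nat_lit 1) (.cons (.br (nat_lit 8) (nat_lit 1) (.cons (.rf (nat_lit 1577) (nat_lit 14242959524133701664)) (.cons (.br (nat_lit 8) (nat_lit 1) (.cons (.rf (nat_lit 1577) (nat_lit 14242959524133701664)) .nil)) .nil))) (.cons (.zr (nat_lit 282578783436800) (nat_lit 4722366482869645214209) (nat_lit 5) (nat_lit 6)) .nil))) (.cons (.br (nat_lit 12) (nat_lit 1) (.cons (.br (nat_lit 8) (nat_lit 1) (.cons (.rf (nat_lit 1578) (nat_lit 14242959524133701664)) (.cons (.br (nat_lit 8) (nat_lit 1) (.cons (.rf (nat_lit 1578) (nat_lit 14242959524133701664)) .nil)) .nil))) (.cons (.rf (nat_lit 791) (nat_lit 325702581880876)) .nil))) .nil)))) .nil)))),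
 (.br (nat_lit 9) (nat_lit 1) (.cons (.ev (nat_lit 4740813509517859946753) (nat_lit 1)) .nil)),
 (.br (nat_lit 7) (nat_lit 1) (.cons (.br (nat_lit 10) (nat_lit 0) (.cons (.br (nat_lit 11) (nat_lit 0) (.cons (.ev (nat_lit 158767028519871295455689639170) (nat_lit 3)) .nil)) .nil)) .nil)),
 (.br (nat_lit 7) (nat_lit 1) (.cons (.br (nat_lit 10) (nat_lit 0) (.cons (.br (nat_lit 9) (nat_lit 1) (.cons (.ev (nat_lit 310698676454469220037558273) (nat_lit 1)) .nil)) .nil)) .nil)),
 (.br (nat_lit 8) (nat_lit 1) (.cons (.rf (nat_lit 1579) (nat_lit 14208055560828486720)) (.cons (.br (nat_lit 4) (nat_lit 0) (.cons (.br (nat_lit 7) (nat_lit 1) (.cons (.rf (nat_lit 582) (nat_lit 443929134146553952)) (.cons (.kr (nat_lit 18446744078004519424) (nat_lit 72057594054836224) (nat_lit 1) (nat_lit 0)) .nil))) (.cons (.br (nat_lit 9) (nat_lit 1) (.cons (.rf (nat_lit 582) (nat_lit 443860964425631840)) (.cons (.zr (nat_lit 282578783436800) (nat_lit 4722366482869645214209) (nat_lit 5) (nat_lit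 6)) .nil))) (.cons (.br (nat_lit 12) (nat_lit 1) (.cons (.br (nat_lit 7) (nat_lit 1) (.cons (.ev (nat_lit 79229371440084234797206994944) (nat_lit 1)) (.cons (.br (nat_lit 7) (nat_lit 1) (.cons (.ev (nat_lit 79229371440084234797206994944) (nat_lit 1)) .nil)) .nil))) (.cons (.rf (nat_lit 791) (nat_lit 325702581880876)) .nil))) .nil)))) (.cons (.br (nat_lit 4) (nat_lit 0) (.cons (.br (nat_lit 7) (nat_lit 1) (.cons (.br (nat_lit 9) (nat_lit 1) (.cons (.rf (nat_lit 1580) (nat_lit 14242959524133701664)) (.cons (.rf (nat_lit 1580) (nat_lit 14208055560828486720)) .nil))) (.cons (.rf (nat_lit 582) (nat_lit 445055034053396576)) .nil))) (.cons (.br (nat_lit 9) (nat_lit 1) (.cons (.br (nat_lit 7) (nat_lit 1) (.cons (.rf (nat_lit 1581) (nat_lit 14242959524133701664)) (.cons (.br (nat_lit 7) (nat_lit 1) (.cons (.rf (nat_lit 1581) (nat_lit 14242959524133701664)) .nil)) .nil))) (.cons (.zr (nat_lit 282578783436800) (nat_lit 4722366482869645214209) (nat_lit 5) (nat_lit 6)) .nil)))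 (.cons (.br (nat_lit 12) (nat_lit 1) (.cons (.br (nat_lit 7) (nat_lit 1) (.cons (.rf (nat_lit 1582) (nat_lit 14242959524133701664)) (.cons (.br (nat_lit 7) (nat_lit 1) (.cons (.rf (nat_lit 1582) (nat_lit 14242959524133701664)) .nil)) .nil))) (.cons (.rf (nat_lit 791) (nat_lit 325702581880876)) .nil))) .nil)))) .nil)))),
 (.br (nat_lit 8) (nat_lit 1) (.cons (.br (nat_lit 10) (nat_lit 0) (.cons (.br (nat_lit 11) (nat_lit 0) (.cons (.kr (nat_lit 1208925819614633469673728) (nat_lit 309485009821345068741623808) (nat_lit 1) (nat_lit 0)) .nil)) .nil)) .nil)),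
 (.br (nat_lit 8) (nat_lit 1) (.cons (.rf (nat_lit 1584) (nat_lit 14242959524133701664)) (.cons (.rf (nat_lit 1584) (nat_lit 14208056625980376128)) .nil))),
 (.br (nat_lit 7) (nat_lit 1) (.cons (.rf (nat_lit 1583) (nat_lit 14208055560828486720)) (.cons (.br (nat_lit 4) (nat_lit 0) (.cons (.rf (nat_lit 1579) (nat_lit 14208055560828486720)) (.cons (.rf (nat_lit 1585) (nat_lit 14242959524133701664)) (.cons (.br (nat_lit 9) (nat_lit 1) (.cons (.zr (nat_lit 282574505116160) (nat_lit 4722366482869645344769) (nat_lit 5) (nat_lit 5)) (.cons (.br (nat_lit 11) (nat_lit 0) (.cons (.br (nat_lit 12) (nat_lit 1) (.cons (.ev (nat_lit 79537647524085965241068880128) (nat_lit 1)) .nil)) (.cons (.rf (nat_lit 791) (nat_lit 325702581880876)) .nil))) .nil))) .nil)))) .nil))),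
 (.br (nat_lit 7) (nat_lit 1) (.cons (.rf (nat_lit 1583) (nat_lit 14208055560828486720)) (.cons (.rf (nat_lit 1586) (nat_lit 14242959524133701664)) (.cons (.br (nat_lit 7) (nat_lit 1) (.cons (.rf (nat_lit 1583) (nat_lit 14208055560828486720)) (.cons (.rf (nat_lit 1586) (nat_lit 14242959524133701664)) .nil))) .nil)))),
 (.br (nat_lit 8) (nat_lit 1) (.cons (.br (nat_lit 9) (nat_lit 0) (.cons (.br (nat_lit 12) (nat_lit 1) (.cons (.kr (nat_lit 4722366482873940181248) (nat_lit 1208925819614629191548928) (nat_lit 1) (nat_lit 0)) .nil)) .nil)) .nil)),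
 (.br (nat_lit 7) (nat_lit 1) (.cons (.br (nat_lit 8) (nat_lit 1) (.cons (.rf (nat_lit 1588) (nat_lit 407901468851537952)) (.cons (.rf (nat_lit 1588) (nat_lit 406810752275579968)) .nil))) .nil)),
 (.br (nat_lit 7) (nat_lit 1) (.cons (.rf (nat_lit 1589) (nat_lit 407901468851537952)) (.cons (.rf (nat_lit 1589) (nat_lit 406810752275579968)) .nil))),
 (.br (nat_lit 3) (nat_lit 0) (.cons (.rf (nat_lit 1579) (nat_lit 14242959524133701664)) (.cons (.rf (nat_lit 1583) (nat_lit 14242959524133701664)) (.cons (.rf (nat_lit 1587) (nat_lit 14242959524133701664)) (.cons (.br (nat_lit 4) (nat_lit 0) (.cons (.rf (nat_lit 1583) (nat_lit 14208055560828486720)) (.cons (.rf (nat_lit 1579) (nat_lit 14208055560828486720)) (.cons (.rf (nat_lit 1587) (nat_lit 14208055560828486720)) (.cons (.rf (nat_lit 1590) (nat_lit 445092449661061152)) .nil))))) .nil))))),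
 (.br (nat_lit 9) (nat_lit 1) (.cons (.br (nat_lit 10) (nat_lit 0) (.cons (.br (nat_lit 11) (nat_lit 0) (.cons (.kr (nat_lit 1208925819614633469673728) (nat_lit 309485009821345068741623808) (nat_lit 1) (nat_lit 0)) .nil)) .nil)) .nil)),
 (.br (nat_lit 9) (nat_lit 1) (.cons (.rf (nat_lit 1592) (nat_lit 14242959524133701664)) (.cons (.br (nat_lit 9) (nat_lit 1) (.cons (.rf (nat_lit 1592) (nat_lit 14242959524133701664)) .nil)) .nil))),
 (.br (nat_lit 8) (nat_lit 1) (.cons (.rf (nat_lit 625) (nat_lit 443790595746530432)) (.cons (.rf (nat_lit 1593) (nat_lit 14242959524133701664)) .nil))),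
 (.br (nat_lit 8) (nat_lit 1) (.cons (.br (nat_lit 9) (nat_lit 1) (.cons (.br (nat_lit 9) (nat_lit 1) .nil) .nil)) .nil)),
 (.br (nat_lit 4) (nat_lit 0) (.cons (.rf (nat_lit 1594) (nat_lit 14242959524133701664)) (.cons (.rf (nat_lit 1594) (nat_lit 14242925439273240608)) (.cons (.br (nat_lit 12) (nat_lit 1) (.cons (.br (nat_lit 8) (nat_lit 1) (.cons (.rf (nat_lit 1595) (nat_lit 14242959524133701664)) (.cons (.br (nat_lit 8) (nat_lit 1) (.cons (.rf (nat_lit 1595) (nat_lit 14242959524133701664)) .nil)) .nil))) (.cons (.rf (nat_lit 791) (nat_lit 325702581880876)) .nil))) .nil)))),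
 (.br (nat_lit 8) (nat_lit 1) (.cons (.rf (nat_lit 437) (nat_lit 407867350705046624)) (.cons (.br (nat_lit 10) (nat_lit 0) (.cons (.br (nat_lit 11) (nat_lit 0) (.cons (.kr (nat_lit 1208925819614633469673728) (nat_lit 309485009821345068741623808) (nat_lit 1) (nat_lit 0)) .nil)) .nil)) .nil))),
 (.br (nat_lit 11) (nat_lit 0) (.cons (.rf (nat_lit 791) (nat_lit 325702581880864)) (.cons (.kr (nat_lit 4722366482869645213696) (nat_lit 309485009821345068724781056) (nat_lit 9) (nat_lit 0)) (.cons (.rf (nat_lit 791) (nat_lit 325702581880876)) .nil)))),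
 (.br (nat_lit 9) (nat_lit 1) (.cons (.ev (nat_lit 4722438823038188257281) (nat_lit 1)) (.cons (.br (nat_lit 4) (nat_lit 0) (.cons (.rf (nat_lit 1597) (nat_lit 14242959524133701664)) (.cons (.br (nat_lit 11) (nat_lit 0) (.cons (.rf (nat_lit 1598) (nat_lit 14242959524133701664)) (.cons (.rf (nat_lit 791) (nat_lit 325702581880876)) .nil))) .nil))) .nil))),
 (.br (nat_lit 4) (nat_lit 0) (.cons (.br (nat_lit 9) (nat_lit 1) (.cons (.br (nat_lit 8) (nat_lit 1) (.cons (.rf (nat_lit 440) (nat_lit 372894153566194720)) (.cons (.br (nat_lit 10) (nat_lit 0) (.cons (.br (nat_lit 11) (nat_lit 0) (.cons (.ev (nat_lit 317956935725089078764439300) (nat_lit 3)) .nil)) .nil)) .nil))) (.cons (.ev (nat_lit 4722438823038188257281) (nat_lit 1)) .nil))) (.cons (.br (nat_lit 12) (nat_lit 1) (.cons (.br (nat_lit 10) (nat_lit 0) (.cons (.rf (nat_lit 1596) (nat_lit 400019103311791180)) (.cons (.ev (nat_lit 1208925891954801996005633) (nat_lit 1)) .nil))) (.cons (.rf (nat_lit 791) (nat_lit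 325702581880876)) .nil))) .nil))),
 (.br (nat_lit 11) (nat_lit 0) (.cons (.rf (nat_lit 791) (nat_lit 325702581880864)) (.cons (.kr (nat_lit 4722366482869645213696) (nat_lit 309485009821345068724781056) (nat_lit 9) (nat_lit 0)) (.cons (.rf (nat_lit 791) (nat_lit 325702581880876)) .nil)))),
 (.br (nat_lit 4) (nat_lit 0) (.cons (.rf (nat_lit 1600) (nat_lit 14242959524133701664)) (.cons (.br (nat_lit 11) (nat_lit 0) (.cons (.rf (nat_lit 1601) (nat_lit 14242959524133701664)) (.cons (.ev (nat_lit 4722438823038188257281) (nat_lit 1)) (.cons (.rf (nat_lit 791) (nat_lit 325702581880876)) .nil)))) .nil))),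
 (.br (nat_lit 7) (nat_lit 1) (.cons (.rf (nat_lit 1596) (nat_lit 14242959524133701664)) (.cons (.br (nat_lit 9) (nat_lit 1) (.cons (.rf (nat_lit 1599) (nat_lit 14242959524133701664)) (.cons (.kr (nat_lit 1208925819614629174706432) (nat_lit 72057594037993472) (nat_lit 1) (nat_lit 0)) (.cons (.br (nat_lit 9) (nat_lit 1) (.cons (.rf (nat_lit 1599) (nat_lit 14242959524133701664)) (.cons (.kr (nat_lit 1208925819614629174706432) (nat_lit 72057594037993472) (nat_lit 1) (nat_lit 0)) .nil))) .nil)))) (.cons (.br (nat_lit 4) (nat_lit 0) (.cons (.rf (nat_lit 1600) (nat_lit 14242959524133701664)) (.cons (.rf (nat_lit 1602) (nat_lit 14242959524133701664)) (.cons (.br (nat_lit 4) (nat_lit 0) (.cons (.rf (nat_lit 1600) (nat_lit 14242959524133701664)) (.cons (.rf (nat_lit 1602) (nat_lit 14242959524133701664)) .nil))) .nil)))) .nil)))),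
 (.br (nat_lit 7) (nat_lit 1) (.cons (.br (nat_lit 4) (nat_lit 0) (.cons (.rf (nat_lit 625) (nat_lit 443790594706343040)) (.cons (.br (nat_lit 10) (nat_lit 0) (.cons (.rf (nat_lit 588) (nat_lit 443929134146553952)) (.cons (.rf (nat_lit 1229) (nat_lit 443824647321979008)) (.cons (.rf (nat_lit 1455) (nat_lit 444811010117773408)) .nil)))) (.cons (.br (nat_lit 8) (nat_lit 1) (.cons (.rf (nat_lit 589) (nat_lit 443929134146553952)) (.cons (.br (nat_lit 9) (nat_lit 1) (.cons (.ev (nat_lit 1208944266358707196002561) (nat_lit 1)) (.cons (.br (nat_lit 9) (nat_lit 1) (.cons (.ev (nat_lit 1208944266358707196002561) (nat_lit 1)) .nil)) .nil))) .nil))) .nil)))) (.cons (.br (nat_lit 4) (nat_lit 0) (.cons (.rf (nat_lit 1593) (nat_lit 14242958458981812256)) (.cons (.br (nat_lit 8) (nat_lit 1) (.cons (.rf (nat_lit 1597) (nat_lit 14242890289260890144)) (.cons (.br (nat_lit 9) (nat_lit 1) (.cons (.br (nat_lit 10) (nat_lit 0) (.cons (.br (nat_lit 11) (nat_lit 0) (.cons (.ev (nat_lit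 317957045973207956794311940) (nat_lit 3)) .nil)) .nil)) (.cons (.ev (nat_lit 4740813509517859946753) (nat_lit 1)) .nil))) .nil))) (.cons (.br (nat_lit 12) (nat_lit 1) (.cons (.br (nat_lit 8) (nat_lit 1) (.cons (.rf (nat_lit 1603) (nat_lit 400019103311791180)) (.cons (.br (nat_lit 10) (nat_lit 0) (.cons (.ev (nat_lit 1208944266641281667563521) (nat_lit 1)) .nil)) .nil))) (.cons (.rf (nat_lit 791) (nat_lit 325702581880876)) .nil))) .nil)))) .nil))),
 (.br (nat_lit 4) (nat_lit 0) (.cons (.rf (nat_lit 625) (nat_lit 443790594706343040)) (.cons (.rf (nat_lit 1594) (nat_lit 14242890289260890144)) (.cons (.br (nat_lit 12) (nat_lit 1) (.cons (.rf (nat_lit 1604) (nat_lit 400019103311791180)) (.cons (.rf (nat_lit 791) (nat_lit 325702581880876)) .nil))) .nil)))),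
 (.br (nat_lit 4) (nat_lit 0) (.cons (.rf (nat_lit 1594) (nat_lit 14242890289260890144)) (.cons (.br (nat_lit 12) (nat_lit 1) (.cons (.ev (nat_lit 79228162514336677766381961216) (nat_lit 1)) (.cons (.rf (nat_lit 791) (nat_lit 325702581880876)) .nil))) .nil))),
 (.br (nat_lit 7) (nat_lit 1) (.cons (.rf (nat_lit 1604) (nat_lit 14242959524133701664)) (.cons (.br (nat_lit 4) (nat_lit 0) (.cons (.rf (nat_lit 1605) (nat_lit 14242959524133701664)) (.cons (.rf (nat_lit 1606) (nat_lit 14242959524133701664)) (.cons (.br (nat_lit 4) (nat_lit 0) (.cons (.rf (nat_lit 1605) (nat_lit 14242959524133701664)) (.cons (.rf (nat_lit 1606) (nat_lit 14242959524133701664)) .nil))) .nil)))) .nil))),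
 (.br (nat_lit 7) (nat_lit 1) (.cons (.rf (nat_lit 1604) (nat_lit 14242959524133701664)) (.cons (.rf (nat_lit 1607) (nat_lit 14242959524133701664)) (.cons (.br (nat_lit 7) (nat_lit 1) (.cons (.rf (nat_lit 1604) (nat_lit 14242959524133701664)) (.cons (.rf (nat_lit 1607) (nat_lit 14242959524133701664)) .nil))) .nil))))]

theorem c44 : chkAll C T R L44 (nat_lit 1573) = true := by decide +kernel

theorem l44 : (nat_lit 1573) + L44.length = (nat_lit 1609) := by decide +kernel

/-- part of the certificates -/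
def L45 : List Prf := [(.br (nat_lit 12) (nat_lit 1) (.cons (.rf (nat_lit 1608) (nat_lit 400019103311791180)) (.cons (.rf (nat_lit 791) (nat_lit 325702581880876)) .nil))),
 (.br (nat_lit 7) (nat_lit 1) (.cons (.br (nat_lit 4) (nat_lit 0) (.cons (.br (nat_lit 8) (nat_lit 1) (.cons (.rf (nat_lit 1229) (nat_lit 443825745759864960)) (.cons (.br (nat_lit 9) (nat_lit 1) (.cons (.rf (nat_lit 437) (nat_lit 407831068968813664)) (.cons (.br (nat_lit 10) (nat_lit 0) (.cons (.br (nat_lit 11) (nat_lit 0) (.cons (.ev (nat_lit 313140195410177678559478532) (nat_lit 3)) .nil)) .nil)) .nil))) .nil))) (.cons (.rf (nat_lit 625) (nat_lit 443789495228269696)) (.cons (.rf (nat_lit 1609) (nat_lit 14242959524133701664)) .nil)))) (.cons (.br (nat_lit 4) (nat_lit 0) (.cons (.br (nat_lit 9) (nat_lit 1) (.cons (.rf (nat_lit 1597) (nat_lit 14242889224109000736)) (.cons (.br (nat_lit 8) (nat_lit 1) (.cons (.br (nat_lit 10) (nat_lit 0) (.cons (.br (nat_lit 11) (nat_lit 0) (.cons (.ev (nat_lit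 313140158660804719216361732) (nat_lit 3)) .nil)) .nil)) (.cons (.rf (nat_lit 445) (nat_lit 372961191563232352)) .nil))) .nil))) (.cons (.rf (nat_lit 1593) (nat_lit 14242923308969461792)) (.cons (.br (nat_lit 12) (nat_lit 1) (.cons (.br (nat_lit 8) (nat_lit 1) (.cons (.rf (nat_lit 1603) (nat_lit 400019103311791180)) (.cons (.br (nat_lit 8) (nat_lit 1) (.cons (.ev (nat_lit 79228162532711364246053650688) (nat_lit 1)) .nil)) .nil))) (.cons (.rf (nat_lit 791) (nat_lit 325702581880876)) .nil))) .nil)))) .nil))),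
 (.br (nat_lit 12) (nat_lit 1) (.cons (.rf (nat_lit 1609) (nat_lit 14242959524133701664)) (.cons (.br (nat_lit 12) (nat_lit 1) (.cons (.rf (nat_lit 1608) (nat_lit 400019103311791180)) (.cons (.rf (nat_lit 1608) (nat_lit 147817524186383436)) .nil))) (.cons (.rf (nat_lit 1609) (nat_lit 13990757945008293920)) .nil)))),
 (.br (nat_lit 9) (nat_lit 1) (.cons (.br (nat_lit 9) (nat_lit 1) .nil) .nil)),
 (.br (nat_lit 8) (nat_lit 1) (.cons (.br (nat_lit 9) (nat_lit 0) (.cons (.br (nat_lit 12) (nat_lit 1) (.cons (.kr (nat_lit 4722366482873940181248) (nat_lit 1208925819614629191548928) (nat_lit 1) (nat_lit 0)) .nil)) .nil)) .nil)),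
 (.br (nat_lit 8) (nat_lit 1) (.cons (.rf (nat_lit 1613) (nat_lit 407901468851537952)) (.cons (.br (nat_lit 8) (nat_lit 1) (.cons (.rf (nat_lit 1613) (nat_lit 407901468851537952)) .nil)) .nil))),
 (.br (nat_lit 9) (nat_lit 1) (.cons (.br (nat_lit 9) (nat_lit 1) .nil) .nil)),
 (.br (nat_lit 7) (nat_lit 1) (.cons (.br (nat_lit 8) (nat_lit 1) (.cons (.rf (nat_lit 1601) (nat_lit 14242959524133701664)) .nil)) .nil)),
 (.br (nat_lit 9) (nat_lit 1) (.cons (.br (nat_lit 9) (nat_lit 1) .nil) .nil)),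
 (.br (nat_lit 7) (nat_lit 1) (.cons (.br (nat_lit 8) (nat_lit 1) (.cons (.rf (nat_lit 683) (nat_lit 374122308054388768)) (.cons (.ev (nat_lit 18518801672059289601) (nat_lit 1)) .nil))) (.cons (.br (nat_lit 8) (nat_lit 1) (.cons (.ev (nat_lit 18518801672059289601) (nat_lit 1)) (.cons (.rf (nat_lit 1617) (nat_lit 445056165777344544)) .nil))) .nil))),
 (.br (nat_lit 4) (nat_lit 0) (.cons (.rf (nat_lit 1618) (nat_lit 14242959524133701664)) (.cons (.br (nat_lit 7) (nat_lit 1) (.cons (.br (nat_lit 9) (nat_lit 1) (.cons (.rf (nat_lit 683) (nat_lit 374087158042038304)) (.cons (.br (nat_lit 10) (nat_lit 0) (.cons (.br (nat_lit 8) (nat_lit 1) (.cons (.kr (nat_lit 310693935640959702194454784) (nat_lit 9444732965739307270144) (nat_lit 1) (nat_lit 0)) .nil)) .nil)) .nil))) (.cons (.br (nat_lit 11) (nat_lit 0) (.cons (.rf (nat_lit 1618) (nat_lit 155699889726130220)) (.cons (.rf (nat_lit 1617) (nat_lit 445022080916883488)) .nil))) .nil))) .nil))),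
 (.br (nat_lit 8) (nat_lit 1) (.cons (.br (nat_lit 10) (nat_lit 0) (.cons (.br (nat_lit 11) (nat_lit 0) (.cons (.ev (nat_lit 792602009485711615434749446926) (nat_lit 4)) .nil)) .nil)) .nil)),
 (.br (nat_lit 4) (nat_lit 0) (.cons (.br (nat_lit 9) (nat_lit 1) (.cons (.br (nat_lit 8) (nat_lit 1) (.cons (.rf (nat_lit 445) (nat_lit 407899305259697248)) (.cons (.br (nat_lit 10) (nat_lit 0) (.cons (.br (nat_lit 11) (nat_lit 0) (.cons (.zr (nat_lit 72057615563423744) (nat_lit 79230585143610564517155570177) (nat_lit 10) (nat_lit 0)) .nil)) .nil)) .nil))) (.cons (.ev (nat_lit 4722438823038188257281) (nat_lit 1)) .nil))) (.cons (.br (nat_lit 12) (nat_lit 1) (.cons (.br (nat_lit 9) (nat_lit 1) (.cons (.br (nat_lit 8) (nat_lit 1) (.cons (.kr (nat_lit 1208944266358702901035264) (nat_lit 144115192370888704) (nat_lit 1) (nat_lit 0)) .nil)) (.cons (.rf (nat_lit 972) (nat_lit 14242925405987178592)) .nil))) (.cons (.rf (nat_lit 791) (nat_lit 325702581880876)) .nil))) .nil))),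
 (.br (nat_lit 4) (nat_lit 0) (.cons (.rf (nat_lit 1621) (nat_lit 14242959524133701664)) (.cons (.br (nat_lit 9) (nat_lit 1) (.cons (.br (nat_lit 11) (nat_lit 0) (.cons (.br (nat_lit 11) (nat_lit 0) (.cons (.rf (nat_lit 791) (nat_lit 325702581880876)) .nil)) (.cons (.rf (nat_lit 791) (nat_lit 325702581880876)) .nil))) (.cons (.ev (nat_lit 4722438823038188257281) (nat_lit 1)) .nil))) .nil))),
 (.br (nat_lit 9) (nat_lit 1) (.cons (.ev (nat_lit 4722438823038188257281) (nat_lit 1)) (.cons (.rf (nat_lit 588) (nat_lit 445022047630821472)) .nil))),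
 (.br (nat_lit 4) (nat_lit 0) (.cons (.rf (nat_lit 1623) (nat_lit 14242959524133701664)) (.cons (.br (nat_lit 8) (nat_lit 1) (.cons (.br (nat_lit 9) (nat_lit 1) (.cons (.rf (nat_lit 1436) (nat_lit 14242925405987244064)) (.cons (.ev (nat_lit 309485028268089146746077441) (nat_lit 1)) .nil))) (.cons (.rf (nat_lit 589) (nat_lit 445056132491282528)) .nil))) .nil))),
 (.br (nat_lit 4) (nat_lit 0) (.cons (.rf (nat_lit 1623) (nat_lit 14242959524133701664)) (.cons (.br (nat_lit 9) (nat_lit 1) (.cons (.ev (nat_lit 4722438823038188257281) (nat_lit 1)) (.cons (.rf (nat_lit 589) (nat_lit 445022047630821472)) .nil))) .nil))),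
 (.br (nat_lit 9) (nat_lit 1) (.cons (.ev (nat_lit 1208925891672223212634369) (nat_lit 1)) (.cons (.br (nat_lit 9) (nat_lit 1) (.cons (.ev (nat_lit 1208925891672223212634369) (nat_lit 1)) .nil)) .nil))),
 (.br (nat_lit 7) (nat_lit 1) (.cons (.br (nat_lit 4) (nat_lit 0) (.cons (.ev (nat_lit 282578783305729) (nat_lit 1)) (.cons (.br (nat_lit 8) (nat_lit 1) (.cons (.br (nat_lit 9) (nat_lit 1) (.cons (.rf (nat_lit 445) (nat_lit 407899271973700704)) (.cons (.ev (nat_lit 4740813509517859946753) (nat_lit 1)) .nil))) (.cons (.rf (nat_lit 1415) (nat_lit 445056165777279072)) .nil))) (.cons (.br (nat_lit 12) (nat_lit 1) (.cons (.rf (nat_lit 1626) (nat_lit 443930265870501920)) (.cons (.rf (nat_lit 791) (nat_lit 325702581880876)) .nil))) .nil)))) (.cons (.br (nat_lit 4) (nat_lit 0) (.cons (.ev (nat_lit 282578783305729) (nat_lit 1)) (.cons (.br (nat_lit 8) (nat_lit 1) (.cons (.br (nat_lit 9) (nat_lit 1) (.cons (.br (nat_lit 10) (nat_lit 0) (.cons (.br (nat_lit 11) (nat_lit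 0) (.cons (.zr (nat_lit 18446744095234785792) (nat_lit 79230585088486505078140698625) (nat_lit 10) (nat_lit 0)) .nil)) .nil)) (.cons (.ev (nat_lit 4740813509517859946753) (nat_lit 1)) .nil))) (.cons (.ev (nat_lit 309485009893685241546080513) (nat_lit 1)) .nil))) (.cons (.br (nat_lit 11) (nat_lit 0) (.cons (.rf (nat_lit 589) (nat_lit 445055034053396576)) (.cons (.kr (nat_lit 309485009821345068724781312) (nat_lit 72057594037993472) (nat_lit 1) (nat_lit 0)) (.cons (.rf (nat_lit 791) (nat_lit 325702581880876)) .nil)))) .nil)))) .nil))),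
 (.br (nat_lit 4) (nat_lit 0) (.cons (.br (nat_lit 9) (nat_lit 1) (.cons (.br (nat_lit 10) (nat_lit 0) (.cons (.br (nat_lit 11) (nat_lit 0) (.cons (.ev (nat_lit 792602009559210361353436729102) (nat_lit 4)) .nil)) .nil)) (.cons (.ev (nat_lit 309489750706912180622589953) (nat_lit 1)) .nil))) (.cons (.br (nat_lit 11) (nat_lit 0) (.cons (.br (nat_lit 9) (nat_lit 1) (.cons (.ev (nat_lit 4740813509517859946753) (nat_lit 1)) .nil)) (.cons (.rf (nat_lit 791) (nat_lit 325702581880876)) .nil))) .nil))),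
 (.br (nat_lit 4) (nat_lit 0) (.cons (.rf (nat_lit 1628) (nat_lit 14242959524133701664)) (.cons (.br (nat_lit 12) (nat_lit 1) (.cons (.br (nat_lit 8) (nat_lit 1) (.cons (.br (nat_lit 9) (nat_lit 1) (.cons (.ev (nat_lit 4740813509517859946753) (nat_lit 1)) .nil)) (.cons (.br (nat_lit 9) (nat_lit 1) (.cons (.ev (nat_lit 4740813509517859946753) (nat_lit 1)) .nil)) .nil))) (.cons (.ev (nat_lit 79228162514336677766381961216) (nat_lit 1)) .nil))) .nil))),
 (.br (nat_lit 7) (nat_lit 1) (.cons (.rf (nat_lit 1627) (nat_lit 14242959524133701664)) (.cons (.br (nat_lit 4) (nat_lit 0) (.cons (.rf (nat_lit 1628) (nat_lit 14242959524133701664)) (.cons (.rf (nat_lit 1629) (nat_lit 14242959524133701664)) (.cons (.br (nat_lit 4) (nat_lit 0) (.cons (.rf (nat_lit 1628) (nat_lit 14242959524133701664)) (.cons (.rf (nat_lit 1629) (nat_lit 14242959524133701664)) .nil))) .nil)))) .nil))),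
 (.br (nat_lit 7) (nat_lit 1) (.cons (.br (nat_lit 4) (nat_lit 0) (.cons (.ev (nat_lit 282578783305729) (nat_lit 1)) (.cons (.rf (nat_lit 1441) (nat_lit 14242925405987178592)) (.cons (.br (nat_lit 12) (nat_lit 1) (.cons (.br (nat_lit 9) (nat_lit 1) (.cons (.ev (nat_lit 1208925891672223212634369) (nat_lit 1)) (.cons (.br (nat_lit 10) (nat_lit 0) (.cons (.rf (nat_lit 1421) (nat_lit 399946571044948012)) .nil)) .nil))) (.cons (.rf (nat_lit 791) (nat_lit 325702581880876)) .nil))) .nil)))) (.cons (.br (nat_lit 4) (nat_lit 0) (.cons (.ev (nat_lit 282578783305729) (nat_lit 1)) (.cons (.rf (nat_lit 625) (nat_lit 444915395135112320)) (.cons (.br (nat_lit 9) (nat_lit 1) (.cons (.br (nat_lit 11) (nat_lit 0) (.cons (.br (nat_lit 8) (nat_lit 1) (.cons (.br (nat_lit 10) (nat_lit 0) (.cons (.ev (nat_lit 79538861190790581833131098368) (nat_lit 1)) .nil)) .nil)) (.cons (.rf (nat_lit 791) (nat_lit 325702581880876)) .nil))) (.cons (.kr (nat_lit 309485009821345068724781312) (nat_lit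 72057594037993472) (nat_lit 1) (nat_lit 0)) .nil))) .nil)))) .nil))),
 (.br (nat_lit 7) (nat_lit 1) (.cons (.rf (nat_lit 1631) (nat_lit 14242959524133701664)) (.cons (.br (nat_lit 9) (nat_lit 1) (.cons (.br (nat_lit 4) (nat_lit 0) (.cons (.br (nat_lit 8) (nat_lit 1) (.cons (.br (nat_lit 11) (nat_lit 0) (.cons (.ev (nat_lit 309485028268936865949680386) (nat_lit 2)) .nil)) (.cons (.ev (nat_lit 309489750706912180622589953) (nat_lit 1)) .nil))) (.cons (.br (nat_lit 11) (nat_lit 0) (.cons (.br (nat_lit 12) (nat_lit 1) (.cons (.zr (nat_lit 928455029464035206207963649) (nat_lit 158456329750895723210004758528) (nat_lit 5) (nat_lit 0)) .nil)) (.cons (.rf (nat_lit 791) (nat_lit 325702581880876)) .nil))) .nil))) (.cons (.br (nat_lit 10) (nat_lit 0) (.cons (.kr (nat_lit 4722366482869645213696) (nat_lit 1208925819614629174706176) (nat_lit 9) (nat_lit 0)) (.cons (.br (nat_lit 11) (nat_lit 0) (.cons (.br (nat_lit 8) (nat_lit 1) (.cons (.br (nat_lit 4) (nat_lit 0) (.cons (.ev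 (nat_lit 79538861190790581833131098368) (nat_lit 1)) .nil)) .nil)) (.cons (.rf (nat_lit 625) (nat_lit 3597783744743756)) .nil))) .nil))) (.cons (.zr (nat_lit 309485009821627643230027776) (nat_lit 4722438540463683142145) (nat_lit 5) (nat_lit 6)) .nil)))) .nil))),
 (.br (nat_lit 8) (nat_lit 1) (.cons (.br (nat_lit 10) (nat_lit 0) (.cons (.br (nat_lit 9) (nat_lit 1) (.cons (.kr (nat_lit 1208962713102780888776960) (nat_lit 309494454554310808032051200) (nat_lit 1) (nat_lit 0)) .nil)) .nil)) .nil)),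
 (.br (nat_lit 8) (nat_lit 1) (.cons (.kr (nat_lit 4722366482869645213952) (nat_lit 72057594037993472) (nat_lit 1) (nat_lit 0)) (.cons (.br (nat_lit 8) (nat_lit 1) (.cons (.kr (nat_lit 4722366482869645213952) (nat_lit 72057594037993472) (nat_lit 1) (nat_lit 0)) .nil)) .nil))),
 (.br (nat_lit 7) (nat_lit 1) (.cons (.br (nat_lit 8) (nat_lit 1) (.cons (.br (nat_lit 10) (nat_lit 0) (.cons (.br (nat_lit 9) (nat_lit 1) (.cons (.zr (nat_lit 3626777602959088485072900) (nat_lit 475368993993498983688042446848) (nat_lit 10) (nat_lit 0)) .nil)) .nil)) (.cons (.br (nat_lit 9) (nat_lit 1) (.cons (.br (nat_lit 9) (nat_lit 1) .nil) .nil)) .nil))) .nil)),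
 (.br (nat_lit 8) (nat_lit 1) (.cons (.br (nat_lit 9) (nat_lit 1) (.cons (.ev (nat_lit 79230594570040901383747535105) (nat_lit 2)) .nil)) .nil)),
 (.br (nat_lit 7) (nat_lit 1) (.cons (.br (nat_lit 8) (nat_lit 1) (.cons (.rf (nat_lit 1636) (nat_lit 14242959524133701664)) (.cons (.br (nat_lit 8) (nat_lit 1) (.cons (.rf (nat_lit 1636) (nat_lit 14242959524133701664)) .nil)) .nil))) .nil)),
 (.br (nat_lit 2) (nat_lit 0) (.cons (.rf (nat_lit 1566) (nat_lit 407900402659460160)) (.cons (.rf (nat_lit 1291) (nat_lit 407832133080548416)) (.cons (.rf (nat_lit 1566) (nat_lit 407832133080548416)) (.cons (.br (nat_lit 6) (nat_lit 1) (.cons (.br (nat_lit 7) (nat_lit 1) (.cons (.rf (nat_lit 1571) (nat_lit 14242959524133701664)) (.cons (.rf (nat_lit 1574) (nat_lit 14242959524133701664)) (.cons (.br (nat_lit 7) (nat_lit 1) (.cons (.rf (nat_lit 1571) (nat_lit 14242959524133701664)) (.cons (.rf (nat_lit 1574) (nat_lit 14242959524133701664)) .nil))) .nil)))) (.cons (.rf (nat_lit 1591)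 (nat_lit 14242959524133701664)) (.cons (.br (nat_lit 3) (nat_lit 0) (.cons (.rf (nat_lit 1603) (nat_lit 14242959524133701664)) (.cons (.rf (nat_lit 1608) (nat_lit 14242959524133701664)) (.cons (.br (nat_lit 7) (nat_lit 1) (.cons (.rf (nat_lit 1610) (nat_lit 14242959524133701664)) (.cons (.rf (nat_lit 1611) (nat_lit 14242959524133701664)) (.cons (.br (nat_lit 7) (nat_lit 1) (.cons (.rf (nat_lit 1610) (nat_lit 14242959524133701664)) (.cons (.rf (nat_lit 1611) (nat_lit 14242959524133701664)) .nil))) .nil)))) (.cons (.br (nat_lit 12) (nat_lit 1) (.cons (.br (nat_lit 4) (nat_lit 0) (.cons (.br (nat_lit 7) (nat_lit 1) (.cons (.br (nat_lit 8) (nat_lit 1) (.cons (.rf (nat_lit 1612) (nat_lit 14242959524133701664)) (.cons (.br (nat_lit 8) (nat_lit 1) (.cons (.rf (nat_lit 1612) (nat_lit 14242959524133701664)) .nil)) .nil))) (.cons (.rf (nat_lit 1614) (nat_lit 445091350149433376)) .nil))) (.cons (.br (nat_lit 8) (nat_lit 1) (.cons (.br (nat_lit 7) (nat_lit 1) (.cons (.rf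 (nat_lit 1615) (nat_lit 14242959524133701664)) (.cons (.br (nat_lit 7) (nat_lit 1) (.cons (.rf (nat_lit 1615) (nat_lit 14242959524133701664)) .nil)) .nil))) (.cons (.rf (nat_lit 1614) (nat_lit 445090284997543968)) .nil))) (.cons (.br (nat_lit 9) (nat_lit 1) (.cons (.br (nat_lit 7) (nat_lit 1) (.cons (.rf (nat_lit 1616) (nat_lit 14242959524133701664)) (.cons (.br (nat_lit 7) (nat_lit 1) (.cons (.rf (nat_lit 1616) (nat_lit 14242959524133701664)) .nil)) .nil))) (.cons (.rf (nat_lit 1614) (nat_lit 445090319357282336)) .nil))) .nil)))) (.cons (.rf (nat_lit 791) (nat_lit 325702580799532)) (.cons (.br (nat_lit 7) (nat_lit 1) (.cons (.rf (nat_lit 1619) (nat_lit 14242959524133701664)) (.cons (.br (nat_lit 7) (nat_lit 1) (.cons (.rf (nat_lit 1619) (nat_lit 14242959524133701664)) (.cons (.rf (nat_lit 1619) (nat_lit 155699889726130220)) .nil))) (.cons (.rf (nat_lit 1619) (nat_lit 155699889726130220)) .nil)))) .nil)))) .nil))))) (.cons (.br (nat_lit 3) (nat_lit 0) (.cons (.br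 (nat_lit 7) (nat_lit 1) (.cons (.br (nat_lit 4) (nat_lit 0) (.cons (.ev (nat_lit 282578783305729) (nat_lit 1)) (.cons (.br (nat_lit 9) (nat_lit 1) (.cons (.br (nat_lit 8) (nat_lit 1) (.cons (.rf (nat_lit 1620) (nat_lit 14242959524133701664)) (.cons (.br (nat_lit 8) (nat_lit 1) (.cons (.rf (nat_lit 1620) (nat_lit 14242959524133701664)) .nil)) .nil))) (.cons (.rf (nat_lit 625) (nat_lit 444915397215487104)) .nil))) (.cons (.rf (nat_lit 1570) (nat_lit 14242925405985148960)) .nil)))) (.cons (.br (nat_lit 4) (nat_lit 0) (.cons (.rf (nat_lit 1621) (nat_lit 14242959524133701664)) (.cons (.rf (nat_lit 1622) (nat_lit 14242959524133701664)) (.cons (.br (nat_lit 4) (nat_lit 0) (.cons (.rf (nat_lit 1621) (nat_lit 14242959524133701664)) (.cons (.rf (nat_lit 1622) (nat_lit 14242959524133701664)) .nil))) .nil)))) (.cons (.br (nat_lit 4) (nat_lit 0) (.cons (.rf (nat_lit 1624) (nat_lit 14242959524133701664)) (.cons (.rf (nat_lit 1625) (nat_lit 14242959524133701664)) (.cons (.br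 (nat_lit 4) (nat_lit 0) (.cons (.rf (nat_lit 1624) (nat_lit 14242959524133701664)) (.cons (.rf (nat_lit 1625) (nat_lit 14242959524133701664)) .nil))) .nil)))) .nil)))) (.cons (.br (nat_lit 7) (nat_lit 1) (.cons (.rf (nat_lit 1627) (nat_lit 14242959524133701664)) (.cons (.rf (nat_lit 1630) (nat_lit 14242959524133701664)) (.cons (.br (nat_lit 7) (nat_lit 1) (.cons (.rf (nat_lit 1627) (nat_lit 14242959524133701664)) (.cons (.rf (nat_lit 1630) (nat_lit 14242959524133701664)) .nil))) .nil)))) (.cons (.br (nat_lit 7) (nat_lit 1) (.cons (.rf (nat_lit 1631) (nat_lit 14242959524133701664)) (.cons (.rf (nat_lit 1632) (nat_lit 14242959524133701664)) (.cons (.br (nat_lit 7) (nat_lit 1) (.cons (.rf (nat_lit 1631) (nat_lit 14242959524133701664)) (.cons (.rf (nat_lit 1632) (nat_lit 14242959524133701664)) .nil))) .nil)))) (.cons (.br (nat_lit 12) (nat_lit 1) (.cons (.br (nat_lit 4) (nat_lit 0) (.cons (.br (nat_lit 7) (nat_lit 1) (.cons (.br (nat_lit 8) (nat_lit 1) (.cons (.rf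 (nat_lit 1633) (nat_lit 14242959524133701664)) (.cons (.br (nat_lit 8) (nat_lit 1) (.cons (.rf (nat_lit 1633) (nat_lit 14242959524133701664)) .nil)) .nil))) (.cons (.rf (nat_lit 1634) (nat_lit 13907969712424992)) .nil))) (.cons (.br (nat_lit 7) (nat_lit 1) (.cons (.rf (nat_lit 1635) (nat_lit 14242959524133701664)) (.cons (.br (nat_lit 7) (nat_lit 1) (.cons (.rf (nat_lit 1635) (nat_lit 14242959524133701664)) .nil)) .nil))) (.cons (.br (nat_lit 7) (nat_lit 1) (.cons (.rf (nat_lit 1637) (nat_lit 14242959524133701664)) (.cons (.br (nat_lit 7) (nat_lit 1) (.cons (.rf (nat_lit 1637) (nat_lit 14242959524133701664)) .nil)) .nil))) .nil)))) (.cons (.rf (nat_lit 791) (nat_lit 325702580799532)) (.cons (.rf (nat_lit 1591) (nat_lit 155699889726130220)) .nil)))) .nil))))) .nil))))) .nil)))))]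

theorem c45 : chkAll C T R L45 (nat_lit 1609) = true := by decide +kernel

theorem l45 : (nat_lit 1609) + L45.length = (nat_lit 1639) := by decide +kernel

/-- part of the certificates -/
def L46 : List Prf := [(.br (nat_lit 8) (nat_lit 1) (.cons (.rf (nat_lit 1594) (nat_lit 14242958392409819168)) (.cons (.br (nat_lit 9) (nat_lit 1) (.cons (.br (nat_lit 9) (nat_lit 1) (.cons (.ev (nat_lit 4740813509517859946753) (nat_lit 1)) .nil)) (.cons (.br (nat_lit 9) (nat_lit 1) (.cons (.ev (nat_lit 4740813509517859946753) (nat_lit 1)) .nil)) .nil))) .nil))),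
 (.br (nat_lit 12) (nat_lit 1) (.cons (.ev (nat_lit 79228162514264619068537503744) (nat_lit 1)) (.cons (.rf (nat_lit 791) (nat_lit 252104122958924)) .nil))),
 (.br (nat_lit 7) (nat_lit 1) (.cons (.rf (nat_lit 1639) (nat_lit 14242959524133701664)) (.cons (.br (nat_lit 8) (nat_lit 1) (.cons (.rf (nat_lit 1585) (nat_lit 14242855072676546592)) (.cons (.br (nat_lit 4) (nat_lit 0) (.cons (.rf (nat_lit 1594) (nat_lit 14242890222688897056)) (.cons (.rf (nat_lit 1640) (nat_lit 14242959524133701664)) .nil))) (.cons (.ev (nat_lit 18519084242252595201) (nat_lit 1)) .nil)))) .nil))),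
 (.br (nat_lit 9) (nat_lit 1) (.cons (.br (nat_lit 10) (nat_lit 0) (.cons (.br (nat_lit 11) (nat_lit 0) (.cons (.kr (nat_lit 1208925819614633469673728) (nat_lit 309485009821345068741623808) (nat_lit 1) (nat_lit 0)) .nil)) .nil)) .nil)),
 (.br (nat_lit 9) (nat_lit 1) (.cons (.rf (nat_lit 1642) (nat_lit 14242959524133701664)) (.cons (.rf (nat_lit 1642) (nat_lit 14208053295300346944)) .nil))),
 (.br (nat_lit 7) (nat_lit 1) (.cons (.br (nat_lit 8) (nat_lit 1) (.cons (.rf (nat_lit 582) (nat_lit 443929200718547040)) (.cons (.ev (nat_lit 18519084242252595201) (nat_lit 1)) (.cons (.br (nat_lit 4) (nat_lit 0) (.cons (.ev (nat_lit 18446745177516212481) (nat_lit 1)) (.cons (.br (nat_lit 12) (nat_lit 1) (.cons (.rf (nat_lit 1626) (nat_lit 443928068994730016)) (.cons (.rf (nat_lit 791) (nat_lit 325702581880876)) .nil))) .nil))) .nil)))) (.cons (.br (nat_lit 4) (nat_lit 0) (.cons (.rf (nat_lit 1643) (nat_lit 14242959524133701664)) (.cons (.kr (nat_lit 281479271678208) (nat_lit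 72057594054770688) (nat_lit 1) (nat_lit 0)) (.cons (.br (nat_lit 8) (nat_lit 1) (.cons (.br (nat_lit 11) (nat_lit 0) (.cons (.br (nat_lit 11) (nat_lit 0) (.cons (.rf (nat_lit 791) (nat_lit 325702581880876)) .nil)) (.cons (.rf (nat_lit 791) (nat_lit 325702581880876)) .nil))) (.cons (.ev (nat_lit 18519084242252595201) (nat_lit 1)) .nil))) .nil)))) .nil))),
 (.br (nat_lit 4) (nat_lit 0) (.cons (.br (nat_lit 9) (nat_lit 1) (.cons (.rf (nat_lit 558) (nat_lit 372894153566162976)) (.cons (.rf (nat_lit 1643) (nat_lit 14242889224109000736)) .nil))) (.cons (.br (nat_lit 11) (nat_lit 0) (.cons (.br (nat_lit 9) (nat_lit 1) (.cons (.kr (nat_lit 4722366482869645213952) (nat_lit 72057594037993472) (nat_lit 1) (nat_lit 0)) .nil)) (.cons (.rf (nat_lit 791) (nat_lit 325702581880876)) .nil))) .nil))),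
 (.br (nat_lit 4) (nat_lit 0) (.cons (.rf (nat_lit 1645) (nat_lit 14242959524133701664)) (.cons (.br (nat_lit 12) (nat_lit 1) (.cons (.ev (nat_lit 79229371440156291296028327936) (nat_lit 1)) (.cons (.rf (nat_lit 791) (nat_lit 325702581880876)) .nil))) .nil))),
 (.br (nat_lit 7) (nat_lit 1) (.cons (.rf (nat_lit 1644) (nat_lit 14242959524133701664)) (.cons (.br (nat_lit 4) (nat_lit 0) (.cons (.rf (nat_lit 1645) (nat_lit 14242959524133701664)) (.cons (.rf (nat_lit 1646) (nat_lit 14242959524133701664)) (.cons (.br (nat_lit 4) (nat_lit 0) (.cons (.rf (nat_lit 1645) (nat_lit 14242959524133701664)) (.cons (.rf (nat_lit 1646) (nat_lit 14242959524133701664)) .nil))) .nil)))) .nil))),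
 (.br (nat_lit 7) (nat_lit 1) (.cons (.br (nat_lit 8) (nat_lit 1) (.cons (.br (nat_lit 9) (nat_lit 1) (.cons (.ev (nat_lit 4740813509517859946753) (nat_lit 1)) .nil)) (.cons (.ev (nat_lit 80156617580838317416136180225) (nat_lit 2)) .nil))) .nil)),
 (.br (nat_lit 12) (nat_lit 1) (.cons (.br (nat_lit 4) (nat_lit 0) (.cons (.br (nat_lit 7) (nat_lit 1) (.cons (.rf (nat_lit 1626) (nat_lit 443928068994730016)) (.cons (.rf (nat_lit 1625) (nat_lit 14242925405985148960)) .nil))) (.cons (.br (nat_lit 7) (nat_lit 1) (.cons (.br (nat_lit 7) (nat_lit 1) (.cons (.ev (nat_lit 18519084242252595201) (nat_lit 1)) .nil)) (.cons (.br (nat_lit 7) (nat_lit 1) (.cons (.ev (nat_lit 18519084242252595201) (nat_lit 1)) .nil)) .nil))) (.cons (.br (nat_lit 7) (nat_lit 1) (.cons (.rf (nat_lit 1648) (nat_lit 14242959524133701664)) (.cons (.br (nat_lit 7) (nat_lit 1) (.cons (.rf (nat_lit 1648) (nat_lit 14242959524133701664)) .nil)) .nil))) .nil)))) (.cons (.rf (nat_lit 791) (nat_lit 325702581880876))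 .nil))),
 (.br (nat_lit 6) (nat_lit 1) (.cons (.br (nat_lit 7) (nat_lit 1) (.cons (.rf (nat_lit 1639) (nat_lit 14242959524133701664)) (.cons (.rf (nat_lit 1641) (nat_lit 14242959524133701664)) (.cons (.br (nat_lit 7) (nat_lit 1) (.cons (.rf (nat_lit 1639) (nat_lit 14242959524133701664)) (.cons (.rf (nat_lit 1641) (nat_lit 14242959524133701664)) .nil))) .nil)))) (.cons (.br (nat_lit 7) (nat_lit 1) (.cons (.rf (nat_lit 1644) (nat_lit 14242959524133701664)) (.cons (.rf (nat_lit 1647) (nat_lit 14242959524133701664)) (.cons (.br (nat_lit 7) (nat_lit 1) (.cons (.rf (nat_lit 1644) (nat_lit 14242959524133701664)) (.cons (.rf (nat_lit 1647) (nat_lit 14242959524133701664)) .nil))) .nil)))) (.cons (.br (nat_lit 12) (nat_lit 1) (.cons (.rf (nat_lit 1649) (nat_lit 14242959524133701664)) (.cons (.br (nat_lit 12) (nat_lit 1) (.cons (.rf (nat_lit 1649) (nat_lit 14242959524133701664)) (.cons (.ev (nat_lit 79228162514264619068537503744) (nat_lit 1)) .nil))) (.cons (.rf (nat_lit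 1640) (nat_lit 13990757945008293920)) .nil)))) .nil)))),
 (.br (nat_lit 9) (nat_lit 1) (.cons (.br (nat_lit 10) (nat_lit 0) (.cons (.br (nat_lit 11) (nat_lit 0) (.cons (.ev (nat_lit 951058315772202509902644186892) (nat_lit 4)) .nil)) .nil)) .nil)),
 (.br (nat_lit 10) (nat_lit 0) (.cons (.rf (nat_lit 437) (nat_lit 407794853804573792)) (.cons (.ev (nat_lit 1208925819896104151417089) (nat_lit 1)) .nil))),
 (.br (nat_lit 7) (nat_lit 1) (.cons (.br (nat_lit 8) (nat_lit 1) (.cons (.rf (nat_lit 625) (nat_lit 443790662318523520)) (.cons (.br (nat_lit 9) (nat_lit 1) (.cons (.rf (nat_lit 1651) (nat_lit 14242959524133701664)) (.cons (.br (nat_lit 9) (nat_lit 1) (.cons (.rf (nat_lit 1651) (nat_lit 14242959524133701664)) .nil)) .nil))) .nil))) (.cons (.br (nat_lit 8) (nat_lit 1) (.cons (.rf (nat_lit 485) (nat_lit 12745785919800416)) (.cons (.rf (nat_lit 1230) (nat_lit 443896113396746368)) (.cons (.br (nat_lit 3) (nat_lit 0) (.cons (.br (nat_lit 9) (nat_lit 1) (.cons (.rf (nat_lit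 445) (nat_lit 407831068966782048)) (.cons (.br (nat_lit 10) (nat_lit 0) (.cons (.br (nat_lit 11) (nat_lit 0) (.cons (.ev (nat_lit 317947564491432216670569220) (nat_lit 3)) .nil)) .nil)) .nil))) (.cons (.br (nat_lit 10) (nat_lit 0) (.cons (.br (nat_lit 9) (nat_lit 1) (.cons (.br (nat_lit 11) (nat_lit 0) (.cons (.ev (nat_lit 79229385607184245256601337857) (nat_lit 2)) .nil)) .nil)) (.cons (.rf (nat_lit 791) (nat_lit 325702580799532)) .nil))) .nil))) .nil)))) (.cons (.br (nat_lit 3) (nat_lit 0) (.cons (.rf (nat_lit 1324) (nat_lit 14208056627019514976)) (.cons (.br (nat_lit 8) (nat_lit 1) (.cons (.rf (nat_lit 1652) (nat_lit 14242959524133701664)) (.cons (.br (nat_lit 9) (nat_lit 1) (.cons (.br (nat_lit 10) (nat_lit 0) (.cons (.br (nat_lit 11) (nat_lit 0) (.cons (.ev (nat_lit 315529897752000280597827336) (nat_lit 4)) .nil)) .nil)) (.cons (.ev (nat_lit 4759404369892075372546) (nat_lit 2)) .nil))) .nil))) (.cons (.br (nat_lit 12) (nat_lit 1) (.cons (.rf (nat_lit 791)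 (nat_lit 325702580799532)) (.cons (.br (nat_lit 8) (nat_lit 1) (.cons (.br (nat_lit 10) (nat_lit 0) (.cons (.br (nat_lit 9) (nat_lit 1) (.cons (.ev (nat_lit 79537652264970968299173052416) (nat_lit 1)) .nil)) .nil)) (.cons (.br (nat_lit 9) (nat_lit 1) (.cons (.br (nat_lit 9) (nat_lit 1) .nil) .nil)) .nil))) .nil))) .nil)))) .nil)))),
 (.br (nat_lit 7) (nat_lit 1) (.cons (.br (nat_lit 10) (nat_lit 0) (.cons (.br (nat_lit 11) (nat_lit 0) (.cons (.ev (nat_lit 951058353550557912107501946636) (nat_lit 4)) .nil)) .nil)) .nil)),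
 (.br (nat_lit 9) (nat_lit 1) (.cons (.kr (nat_lit 4722366482869645213952) (nat_lit 72057594037993472) (nat_lit 1) (nat_lit 0)) .nil)),
 (.br (nat_lit 7) (nat_lit 1) (.cons (.br (nat_lit 8) (nat_lit 1) (.cons (.br (nat_lit 9) (nat_lit 1) (.cons (.rf (nat_lit 1655) (nat_lit 14208056627021580320)) .nil)) (.cons (.br (nat_lit 10) (nat_lit 0) (.cons (.rf (nat_lit 1655) (nat_lit 14242959524133701664)) .nil)) .nil))) .nil)),
 (.br (nat_lit 7) (nat_lit 1) (.cons (.br (nat_lit 9) (nat_lit 1) (.cons (.ev (nat_lit 158771873557348059315913950978) (nat_lit 3)) .nil)) .nil)),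
 (.br (nat_lit 8) (nat_lit 1) (.cons (.rf (nat_lit 1569) (nat_lit 14242958389289256000)) (.cons (.br (nat_lit 3) (nat_lit 0) (.cons (.rf (nat_lit 1593) (nat_lit 14242957327257929760)) (.cons (.br (nat_lit 9) (nat_lit 1) (.cons (.rf (nat_lit 1597) (nat_lit 14242852942372767776)) (.cons (.br (nat_lit 7) (nat_lit 1) (.cons (.br (nat_lit 10) (nat_lit 0) (.cons (.br (nat_lit 11) (nat_lit 0) (.cons (.ev (nat_lit 325257824844520005063870216) (nat_lit 4)) .nil)) .nil)) (.cons (.rf (nat_lit 445) (nat_lit 372928171854660704)) .nil))) .nil))) (.cons (.br (nat_lit 12) (nat_lit 1) (.cons (.rf (nat_lit 791) (nat_lit 325702580799532)) (.cons (.br (nat_lit 7) (nat_lit 1) (.cons (.br (nat_lit 10) (nat_lit 0) (.cons (.br (nat_lit 9) (nat_lit 1) (.cons (.ev (nat_lit 158769465150441795779607724802) (nat_lit 3)) .nil)) .nil)) (.cons (.rf (nat_lit 1617) (nat_lit 445055034053462048)) .nil))) .nil))) .nil)))) (.cons (.br (nat_lit 7) (nat_lit 1) (.cons (.rf (nat_lit 625) (nat_lit 444916562225366144))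 (.cons (.br (nat_lit 3) (nat_lit 0) (.cons (.br (nat_lit 11) (nat_lit 0) (.cons (.rf (nat_lit 437) (nat_lit 372891956692452448)) (.cons (.ev (nat_lit 309485009893402667074519041) (nat_lit 1)) .nil))) (.cons (.br (nat_lit 11) (nat_lit 0) (.cons (.ev (nat_lit 309485009893402667074519041) (nat_lit 1)) (.cons (.rf (nat_lit 1650) (nat_lit 365043673931809868)) .nil))) .nil))) (.cons (.ev (nat_lit 309485028340147840278855681) (nat_lit 1)) .nil)))) .nil)))),
 (.br (nat_lit 7) (nat_lit 1) (.cons (.br (nat_lit 10) (nat_lit 0) (.cons (.ev (nat_lit 158456325047191874621728096512) (nat_lit 2)) (.cons (.rf (nat_lit 654) (nat_lit 14208056627019419744)) .nil))) .nil)),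
 (.br (nat_lit 7) (nat_lit 1) (.cons (.br (nat_lit 8) (nat_lit 1) (.cons (.br (nat_lit 9) (nat_lit 1) (.cons (.ev (nat_lit 158771883112759807236081387266) (nat_lit 3)) .nil)) (.cons (.br (nat_lit 9) (nat_lit 1) (.cons (.zr (nat_lit 9444734091639197597696) (nat_lit 79228162532783140369392992769) (nat_lit 10) (nat_lit 8)) .nil)) .nil))) .nil)),
 (.br (nat_lit 6) (nat_lit 1) (.cons (.rf (nat_lit 1650) (nat_lit 14242959524133701664)) (.cons (.br (nat_lit 4) (nat_lit 0) (.cons (.rf (nat_lit 1653) (nat_lit 14242959524133701664)) (.cons (.rf (nat_lit 1650) (nat_lit 14207983028561642560)) (.cons (.br (nat_lit 8) (nat_lit 1) (.cons (.rf (nat_lit 1653) (nat_lit 14242885925674779712)) (.cons (.br (nat_lit 3) (nat_lit 0) (.cons (.br (nat_lit 9) (nat_lit 1) (.cons (.ev (nat_lit 1208944266641277389439233) (nat_lit 1)) (.cons (.rf (nat_lit 1652) (nat_lit 14242889224109000736)) .nil))) (.cons (.rf (nat_lit 625) (nat_lit 443788463362376832)) (.cons (.br (nat_lit 9) (nat_lit 1)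 (.cons (.rf (nat_lit 683) (nat_lit 374054171619463200)) (.cons (.br (nat_lit 10) (nat_lit 0) (.cons (.br (nat_lit 7) (nat_lit 1) (.cons (.br (nat_lit 11) (nat_lit 0) (.cons (.ev (nat_lit 79537652264970968299173052416) (nat_lit 1)) .nil)) .nil)) (.cons (.ev (nat_lit 1208925819896104151417089) (nat_lit 1)) .nil))) .nil))) .nil)))) (.cons (.br (nat_lit 3) (nat_lit 0) (.cons (.br (nat_lit 7) (nat_lit 1) (.cons (.br (nat_lit 9) (nat_lit 1) (.cons (.rf (nat_lit 445) (nat_lit 407901435563476064)) (.cons (.br (nat_lit 10) (nat_lit 0) (.cons (.br (nat_lit 11) (nat_lit 0) (.cons (.ev (nat_lit 315567676107402485455587080) (nat_lit 4)) .nil)) .nil)) .nil))) (.cons (.br (nat_lit 9) (nat_lit 1) (.cons (.br (nat_lit 10) (nat_lit 0) (.cons (.br (nat_lit 11) (nat_lit 0) (.cons (.ev (nat_lit 317957009080282767885010180) (nat_lit 3)) .nil)) .nil)) (.cons (.ev (nat_lit 9481698795167682855170) (nat_lit 2)) .nil))) .nil))) (.cons (.br (nat_lit 7) (nat_lit 1) (.cons (.rf (nat_lit 1654)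 (nat_lit 14242959524133701664)) (.cons (.br (nat_lit 7) (nat_lit 1) (.cons (.rf (nat_lit 1654) (nat_lit 14242959524133701664)) .nil)) .nil))) (.cons (.br (nat_lit 12) (nat_lit 1) (.cons (.rf (nat_lit 791) (nat_lit 325702580799532)) (.cons (.br (nat_lit 7) (nat_lit 1) (.cons (.br (nat_lit 7) (nat_lit 1) (.cons (.ev (nat_lit 80156617580838317416136180225) (nat_lit 2)) .nil)) (.cons (.br (nat_lit 7) (nat_lit 1) (.cons (.ev (nat_lit 80156617580838317416136180225) (nat_lit 2)) .nil)) .nil))) .nil))) .nil)))) .nil)))) (.cons (.br (nat_lit 12) (nat_lit 1) (.cons (.br (nat_lit 7) (nat_lit 1) (.cons (.rf (nat_lit 1656) (nat_lit 14242959524133701664)) (.cons (.br (nat_lit 7) (nat_lit 1) (.cons (.rf (nat_lit 1656) (nat_lit 14242959524133701664)) .nil)) .nil))) (.cons (.br (nat_lit 8) (nat_lit 1) (.cons (.br (nat_lit 7) (nat_lit 1) (.cons (.rf (nat_lit 1659) (nat_lit 14242959524133701664)) (.cons (.br (nat_lit 7) (nat_lit 1) (.cons (.ev (nat_lit 158456325047191874621728096512)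 (nat_lit 2)) .nil)) .nil))) (.cons (.ev (nat_lit 1208925819896104151417089) (nat_lit 1)) (.cons (.br (nat_lit 3) (nat_lit 0) (.cons (.br (nat_lit 7) (nat_lit 1) (.cons (.br (nat_lit 9) (nat_lit 1) (.cons (.br (nat_lit 9) (nat_lit 1) .nil) .nil)) (.cons (.br (nat_lit 10) (nat_lit 0) (.cons (.br (nat_lit 9) (nat_lit 1) (.cons (.ev (nat_lit 158771883001936909867128389890) (nat_lit 3)) .nil)) .nil)) .nil))) (.cons (.br (nat_lit 7) (nat_lit 1) (.cons (.rf (nat_lit 1657) (nat_lit 14242959524133701664)) (.cons (.br (nat_lit 7) (nat_lit 1) (.cons (.rf (nat_lit 1657) (nat_lit 14242959524133701664)) .nil)) .nil))) .nil))) .nil)))) (.cons (.rf (nat_lit 791) (nat_lit 325702581880876)) .nil)))) .nil))))) (.cons (.br (nat_lit 4) (nat_lit 0) (.cons (.rf (nat_lit 1658) (nat_lit 14242959524133701664)) (.cons (.rf (nat_lit 1650) (nat_lit 14207983028561642560)) (.cons (.br (nat_lit 8) (nat_lit 1) (.cons (.rf (nat_lit 1569) (nat_lit 14242890222688897056)) (.cons (.br (nat_lit 3)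 (nat_lit 0) (.cons (.br (nat_lit 7) (nat_lit 1) (.cons (.rf (nat_lit 1597) (nat_lit 14242855072676546592)) (.cons (.br (nat_lit 9) (nat_lit 1) (.cons (.br (nat_lit 10) (nat_lit 0) (.cons (.br (nat_lit 11) (nat_lit 0) (.cons (.ev (nat_lit 325220046489117800205061896) (nat_lit 4)) .nil)) .nil)) (.cons (.rf (nat_lit 445) (nat_lit 372998538451354720)) .nil))) .nil))) (.cons (.rf (nat_lit 1593) (nat_lit 14242887027233228832)) (.cons (.br (nat_lit 12) (nat_lit 1) (.cons (.rf (nat_lit 791) (nat_lit 325702580799532)) (.cons (.br (nat_lit 11) (nat_lit 0) (.cons (.rf (nat_lit 1658) (nat_lit 155699889726130220)) (.cons (.rf (nat_lit 1617) (nat_lit 444986864332539936)) .nil))) .nil))) .nil)))) (.cons (.br (nat_lit 9) (nat_lit 1) (.cons (.rf (nat_lit 625) (nat_lit 444914363269219456)) (.cons (.br (nat_lit 3) (nat_lit 0) (.cons (.br (nat_lit 11) (nat_lit 0) (.cons (.rf (nat_lit 437) (nat_lit 372894153568224352)) (.cons (.ev (nat_lit 309489732187827942681739521) (nat_lit 1))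 .nil))) (.cons (.br (nat_lit 11) (nat_lit 0) (.cons (.ev (nat_lit 309489732187827942681739521) (nat_lit 1)) (.cons (.rf (nat_lit 1650) (nat_lit 365043673931809868)) .nil))) .nil))) (.cons (.ev (nat_lit 309489750634573115886207233) (nat_lit 1)) .nil)))) .nil)))) (.cons (.br (nat_lit 12) (nat_lit 1) (.cons (.br (nat_lit 7) (nat_lit 1) (.cons (.br (nat_lit 7) (nat_lit 1) (.cons (.br (nat_lit 9) (nat_lit 1) (.cons (.rf (nat_lit 1655) (nat_lit 14242959524133701664)) (.cons (.rf (nat_lit 1655) (nat_lit 14208056627021580320)) .nil))) .nil)) (.cons (.br (nat_lit 7) (nat_lit 1) (.cons (.br (nat_lit 9) (nat_lit 1) (.cons (.rf (nat_lit 1655) (nat_lit 14242959524133701664)) (.cons (.rf (nat_lit 1655) (nat_lit 14208056627021580320)) .nil))) .nil)) .nil))) (.cons (.br (nat_lit 3) (nat_lit 0) (.cons (.br (nat_lit 7) (nat_lit 1) (.cons (.br (nat_lit 8) (nat_lit 1) (.cons (.br (nat_lit 9) (nat_lit 1) (.cons (.rf (nat_lit 996) (nat_lit 14242925405987178592)) .nil)) (.cons (.br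 (nat_lit 10) (nat_lit 0) (.cons (.br (nat_lit 9) (nat_lit 1) (.cons (.zr (nat_lit 145241087982699776) (nat_lit 79228167255077565645000409089) (nat_lit 10) (nat_lit 5)) .nil)) .nil)) .nil))) (.cons (.br (nat_lit 8) (nat_lit 1) (.cons (.br (nat_lit 10) (nat_lit 0) (.cons (.br (nat_lit 9) (nat_lit 1) (.cons (.ev (nat_lit 158771883112759807236081387266) (nat_lit 3)) .nil)) .nil)) (.cons (.rf (nat_lit 589) (nat_lit 445054002187503712)) .nil))) .nil))) (.cons (.br (nat_lit 7) (nat_lit 1) (.cons (.rf (nat_lit 1659) (nat_lit 14242959524133701664)) (.cons (.br (nat_lit 7) (nat_lit 1) (.cons (.rf (nat_lit 1659) (nat_lit 14242959524133701664)) .nil)) .nil))) (.cons (.br (nat_lit 7) (nat_lit 1) (.cons (.rf (nat_lit 1660) (nat_lit 14242959524133701664)) (.cons (.br (nat_lit 7) (nat_lit 1) (.cons (.rf (nat_lit 1660) (nat_lit 14242959524133701664)) .nil)) .nil))) .nil)))) (.cons (.rf (nat_lit 791) (nat_lit 325702581880876)) .nil)))) .nil))))) .nil)))),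
 (.br (nat_lit 9) (nat_lit 1) (.cons (.rf (nat_lit 582) (nat_lit 443825847699277920)) (.cons (.rf (nat_lit 1643) (nat_lit 14242854040810653728)) .nil)))]

theorem c46 : chkAll C T R L46 (nat_lit 1639) = true := by decide +kernel

theorem l46 : (nat_lit 1639) + L46.length = (nat_lit 1663) := by decide +kernel

/-- part of the certificates -/
def L47 : List Prf := [(.br (nat_lit 12) (nat_lit 1) (.cons (.rf (nat_lit 1661) (nat_lit 120723394154071116)) (.cons (.rf (nat_lit 791) (nat_lit 325702581880876)) .nil))),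
 (.br (nat_lit 4) (nat_lit 0) (.cons (.rf (nat_lit 1662) (nat_lit 14242959524133701664)) (.cons (.br (nat_lit 12) (nat_lit 1) (.cons (.ev (nat_lit 79229371440156291296028327936) (nat_lit 1)) (.cons (.rf (nat_lit 791) (nat_lit 325702581880876)) .nil))) .nil))),
 (.br (nat_lit 4) (nat_lit 0) (.cons (.br (nat_lit 9) (nat_lit 1) (.cons (.br (nat_lit 10) (nat_lit 0) (.cons (.br (nat_lit 11) (nat_lit 0) (.cons (.ev (nat_lit 315586565863816157115125512) (nat_lit 4)) .nil)) .nil)) (.cons (.rf (nat_lit 558) (nat_lit 407832233976631328)) .nil))) (.cons (.rf (nat_lit 1663) (nat_lit 14242959524133701664)) .nil))),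
 (.br (nat_lit 4) (nat_lit 0) (.cons (.rf (nat_lit 1665) (nat_lit 14242959524133701664)) (.cons (.br (nat_lit 12) (nat_lit 1) (.cons (.br (nat_lit 8) (nat_lit 1) (.cons (.rf (nat_lit 1650) (nat_lit 399946571044947020)) (.cons (.ev (nat_lit 79537647524302699873607614977) (nat_lit 2)) .nil))) (.cons (.rf (nat_lit 791) (nat_lit 325702581880876)) .nil))) .nil))),
 (.br (nat_lit 7) (nat_lit 1) (.cons (.br (nat_lit 4) (nat_lit 0) (.cons (.rf (nat_lit 1585) (nat_lit 14242890222688897056)) (.cons (.br (nat_lit 8) (nat_lit 1) (.cons (.br (nat_lit 9) (nat_lit 1) (.cons (.rf (nat_lit 328) (nat_lit 372998538451354720)) (.cons (.rf (nat_lit 1593) (nat_lit 14242855072676546592)) .nil))) (.cons (.ev (nat_lit 18446745177516212481) (nat_lit 1)) .nil))) (.cons (.br (nat_lit 12) (nat_lit 1) (.cons (.br (nat_lit 8) (nat_lit 1) (.cons (.rf (nat_lit 1650) (nat_lit 399946571044947020)) (.cons (.br (nat_lit 10) (nat_lit 0) (.cons (.br (nat_lit 9) (nat_lit 1) (.cons (.ev (nat_lit 313121306233606874151060228)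 (nat_lit 3)) .nil)) .nil)) .nil))) (.cons (.rf (nat_lit 791) (nat_lit 325702581880876)) .nil))) .nil)))) (.cons (.br (nat_lit 4) (nat_lit 0) (.cons (.br (nat_lit 4) (nat_lit 0) (.cons (.rf (nat_lit 1662) (nat_lit 14242959524133701664)) (.cons (.rf (nat_lit 1663) (nat_lit 14242959524133701664)) .nil))) (.cons (.rf (nat_lit 1664) (nat_lit 14242959524133701664)) (.cons (.br (nat_lit 4) (nat_lit 0) (.cons (.rf (nat_lit 1663) (nat_lit 14242959524133701664)) (.cons (.rf (nat_lit 1664) (nat_lit 14242959524133701664)) .nil))) .nil)))) (.cons (.br (nat_lit 4) (nat_lit 0) (.cons (.rf (nat_lit 1665) (nat_lit 14242959524133701664)) (.cons (.rf (nat_lit 1666) (nat_lit 14242959524133701664)) (.cons (.br (nat_lit 4) (nat_lit 0) (.cons (.rf (nat_lit 1663) (nat_lit 14242959524133701664)) (.cons (.rf (nat_lit 1666) (nat_lit 14242959524133701664)) .nil))) .nil)))) .nil)))),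
 (.br (nat_lit 10) (nat_lit 0) (.cons (.zr (nat_lit 18662917955351740416) (nat_lit 2427296372194997639839745) (nat_lit 5) (nat_lit 5)) (.cons (.rf (nat_lit 1455) (nat_lit 444811010117773408)) .nil))),
 (.br (nat_lit 4) (nat_lit 0) (.cons (.br (nat_lit 7) (nat_lit 1) (.cons (.rf (nat_lit 1668) (nat_lit 14242959524133701664)) (.cons (.br (nat_lit 9) (nat_lit 1) (.cons (.rf (nat_lit 1668) (nat_lit 14242885925674779712)) (.cons (.ev (nat_lit 309485028268371716939514113) (nat_lit 1)) .nil))) .nil))) (.cons (.br (nat_lit 12) (nat_lit 1) (.cons (.br (nat_lit 9) (nat_lit 1) (.cons (.ev (nat_lit 1208944266641281667563521) (nat_lit 1)) (.cons (.br (nat_lit 9) (nat_lit 1) (.cons (.ev (nat_lit 1208944266641281667563521) (nat_lit 1)) .nil)) .nil))) (.cons (.rf (nat_lit 791) (nat_lit 325702581880876)) .nil))) .nil))),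
 (.br (nat_lit 7) (nat_lit 1) (.cons (.br (nat_lit 4) (nat_lit 0) (.cons (.br (nat_lit 9) (nat_lit 1) (.cons (.rf (nat_lit 558) (nat_lit 372997506585432096)) (.cons (.br (nat_lit 10) (nat_lit 0) (.cons (.br (nat_lit 11) (nat_lit 0) (.cons (.ev (nat_lit 315548787508413952256313096) (nat_lit 4)) .nil)) .nil)) .nil))) (.cons (.br (nat_lit 8) (nat_lit 1) (.cons (.rf (nat_lit 328) (nat_lit 372928171854660704)) (.cons (.ev (nat_lit 18446745177516212481) (nat_lit 1)) .nil))) (.cons (.br (nat_lit 12) (nat_lit 1) (.cons (.br (nat_lit 9) (nat_lit 1) (.cons (.ev (nat_lit 79229376162595394705386635777) (nat_lit 2)) .nil)) (.cons (.rf (nat_lit 791) (nat_lit 325702581880876)) .nil))) .nil)))) (.cons (.br (nat_lit 4) (nat_lit 0) (.cons (.rf (nat_lit 1662) (nat_lit 14208053328586343488)) (.cons (.br (nat_lit 8) (nat_lit 1) (.cons (.rf (nat_lit 1593) (nat_lit 14242852942372767776)) (.cons (.ev (nat_lit 18446745177516212481) (nat_lit 1)) .nil))) (.cons (.br (nat_lit 12) (nat_lit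 1) (.cons (.br (nat_lit 10) (nat_lit 0) (.cons (.ev (nat_lit 79229371458603036464954540288) (nat_lit 1)) (.cons (.ev (nat_lit 79229376162450716571635548416) (nat_lit 1)) .nil))) (.cons (.rf (nat_lit 791) (nat_lit 325702581880876)) .nil))) .nil)))) .nil))),
 (.br (nat_lit 4) (nat_lit 0) (.cons (.ev (nat_lit 18519084246530851073) (nat_lit 1)) (.cons (.rf (nat_lit 1585) (nat_lit 14242957327257929760)) (.cons (.br (nat_lit 12) (nat_lit 1) (.cons (.rf (nat_lit 1661) (nat_lit 120723394154071116)) (.cons (.rf (nat_lit 791) (nat_lit 325702581880876)) .nil))) .nil)))),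
 (.br (nat_lit 4) (nat_lit 0) (.cons (.rf (nat_lit 1585) (nat_lit 14242958392409819168)) (.cons (.br (nat_lit 11) (nat_lit 0) (.cons (.br (nat_lit 10) (nat_lit 0) (.cons (.ev (nat_lit 313140195411307976579942148) (nat_lit 3)) .nil)) (.cons (.rf (nat_lit 791) (nat_lit 325702581880876)) .nil))) .nil))),
 (.br (nat_lit 7) (nat_lit 1) (.cons (.rf (nat_lit 1670) (nat_lit 14242959524133701664)) (.cons (.br (nat_lit 4) (nat_lit 0) (.cons (.rf (nat_lit 1671) (nat_lit 14242959524133701664)) (.cons (.rf (nat_lit 1672) (nat_lit 14242959524133701664)) (.cons (.br (nat_lit 4) (nat_lit 0) (.cons (.rf (nat_lit 1671) (nat_lit 14242959524133701664)) (.cons (.rf (nat_lit 1672) (nat_lit 14242959524133701664)) .nil))) .nil)))) .nil))),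
 (.br (nat_lit 7) (nat_lit 1) (.cons (.br (nat_lit 8) (nat_lit 1) (.cons (.br (nat_lit 9) (nat_lit 1) (.cons (.zr (nat_lit 3626777458843900409021188) (nat_lit 475368979826471592673144733696) (nat_lit 10) (nat_lit 0)) .nil)) (.cons (.ev (nat_lit 80156617580838317416136180225) (nat_lit 2)) .nil))) .nil)),
 (.br (nat_lit 6) (nat_lit 1) (.cons (.rf (nat_lit 1650) (nat_lit 14242959524133701664)) (.cons (.rf (nat_lit 1661) (nat_lit 14242959524133701664)) (.cons (.br (nat_lit 3) (nat_lit 0) (.cons (.rf (nat_lit 1667) (nat_lit 14242959524133701664)) (.cons (.br (nat_lit 4) (nat_lit 0) (.cons (.rf (nat_lit 1669) (nat_lit 14242959524133701664)) (.cons (.rf (nat_lit 1669) (nat_lit 14242885925674779712)) (.cons (.br (nat_lit 4) (nat_lit 0) (.cons (.rf (nat_lit 1669) (nat_lit 14242959524133701664)) (.cons (.rf (nat_lit 1669) (nat_lit 14242885925674779712)) .nil))) .nil)))) (.cons (.br (nat_lit 7) (nat_lit 1) (.cons (.rf (nat_lit 1670) (nat_lit 14242959524133701664)) (.cons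 (.rf (nat_lit 1673) (nat_lit 14242959524133701664)) (.cons (.br (nat_lit 7) (nat_lit 1) (.cons (.rf (nat_lit 1670) (nat_lit 14242959524133701664)) (.cons (.rf (nat_lit 1673) (nat_lit 14242959524133701664)) .nil))) .nil)))) (.cons (.br (nat_lit 12) (nat_lit 1) (.cons (.br (nat_lit 4) (nat_lit 0) (.cons (.br (nat_lit 7) (nat_lit 1) (.cons (.br (nat_lit 8) (nat_lit 1) (.cons (.br (nat_lit 9) (nat_lit 1) (.cons (.br (nat_lit 9) (nat_lit 1) .nil) .nil)) (.cons (.br (nat_lit 10) (nat_lit 0) (.cons (.br (nat_lit 9) (nat_lit 1) (.cons (.ev (nat_lit 79229376162595394705386635777) (nat_lit 2)) .nil)) .nil)) .nil))) (.cons (.br (nat_lit 8) (nat_lit 1) (.cons (.rf (nat_lit 1614) (nat_lit 445089153273661472)) (.cons (.rf (nat_lit 1634) (nat_lit 13907971859908640)) .nil))) .nil))) (.cons (.rf (nat_lit 1590) (nat_lit 445092451808544800)) (.cons (.br (nat_lit 7) (nat_lit 1) (.cons (.rf (nat_lit 1674) (nat_lit 14242959524133701664)) (.cons (.br (nat_lit 7) (nat_lit 1) (.cons (.rf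 (nat_lit 1674) (nat_lit 14242959524133701664)) .nil)) .nil))) .nil)))) (.cons (.rf (nat_lit 791) (nat_lit 325702580799532)) (.cons (.rf (nat_lit 1661) (nat_lit 155699889726130220)) .nil)))) .nil))))) .nil)))),
 (.br (nat_lit 2) (nat_lit 0) (.cons (.rf (nat_lit 1291) (nat_lit 407832133080548416)) (.cons (.rf (nat_lit 1566) (nat_lit 407795850304128064)) (.cons (.rf (nat_lit 1291) (nat_lit 407759600813704256)) (.cons (.br (nat_lit 6) (nat_lit 1) (.cons (.rf (nat_lit 1650) (nat_lit 14242959524133701664)) (.cons (.rf (nat_lit 1661) (nat_lit 14242959524133701664)) (.cons (.rf (nat_lit 1675) (nat_lit 14242959524133701664)) (.cons (.br (nat_lit 6) (nat_lit 1) (.cons (.rf (nat_lit 1650) (nat_lit 14242959524133701664)) (.cons (.rf (nat_lit 1661) (nat_lit 14242959524133701664)) (.cons (.rf (nat_lit 1675) (nat_lit 14242959524133701664)) .nil)))) .nil))))) .nil))))),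
 (.br (nat_lit 2) (nat_lit 0) (.cons (.rf (nat_lit 1638) (nat_lit 14242959524133701664)) (.cons (.rf (nat_lit 1638) (nat_lit 14242925405987244064)) (.cons (.rf (nat_lit 1676) (nat_lit 14242959524133701664)) (.cons (.rf (nat_lit 1676) (nat_lit 14242925405987244064)) (.cons (.br (nat_lit 2) (nat_lit 0) (.cons (.rf (nat_lit 1638) (nat_lit 14242959524133701664)) (.cons (.rf (nat_lit 1638) (nat_lit 14242925405987244064)) (.cons (.rf (nat_lit 1676) (nat_lit 14242959524133701664)) (.cons (.rf (nat_lit 1676) (nat_lit 14242925405987244064)) .nil))))) .nil)))))),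
 (.br (nat_lit 12) (nat_lit 1) (.cons (.rf (nat_lit 1677) (nat_lit 400020169503868972)) (.cons (.rf (nat_lit 791) (nat_lit 325702581880876)) .nil))),
 (.br (nat_lit 4) (nat_lit 0) (.cons (.br (nat_lit 9) (nat_lit 1) (.cons (.br (nat_lit 9) (nat_lit 1) (.cons (.ev (nat_lit 1213666705181745350705153) (nat_lit 1)) .nil)) (.cons (.rf (nat_lit 527) (nat_lit 407899203321332832)) .nil))) (.cons (.br (nat_lit 8) (nat_lit 1) (.cons (.br (nat_lit 9) (nat_lit 1) (.cons (.ev (nat_lit 1213666705181745350705153) (nat_lit 1)) .nil)) (.cons (.br (nat_lit 10) (nat_lit 0) (.cons (.rf (nat_lit 437) (nat_lit 407795850301967488)) (.cons (.ev (nat_lit 1208944266358707196002561) (nat_lit 1)) .nil))) .nil))) (.cons (.rf (nat_lit 1678) (nat_lit 14242959524133701664)) .nil)))),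
 (.br (nat_lit 12) (nat_lit 1) (.cons (.rf (nat_lit 791) (nat_lit 325702581880876)) .nil)),
 (.br (nat_lit 4) (nat_lit 0) (.cons (.br (nat_lit 10) (nat_lit 0) (.cons (.ev (nat_lit 1208944338698871410524161) (nat_lit 1)) (.cons (.ev (nat_lit 79229371458603036464954474496) (nat_lit 1)) .nil))) .nil)),
 (.br (nat_lit 11) (nat_lit 0) (.cons (.br (nat_lit 4) (nat_lit 0) (.cons (.rf (nat_lit 1681) (nat_lit 14242959524133701664)) (.cons (.br (nat_lit 4) (nat_lit 0) (.cons (.rf (nat_lit 1681) (nat_lit 14242959524133701664)) .nil)) .nil))) (.cons (.rf (nat_lit 1640) (nat_lit 13990649128924841024)) .nil))),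
 (.br (nat_lit 9) (nat_lit 1) (.cons (.br (nat_lit 9) (nat_lit 1) .nil) .nil)),
 (.br (nat_lit 7) (nat_lit 1) (.cons (.rf (nat_lit 769) (nat_lit 443930265870501920)) (.cons (.br (nat_lit 8) (nat_lit 1) (.cons (.rf (nat_lit 769) (nat_lit 443929200717596704)) (.cons (.br (nat_lit 10) (nat_lit 0) (.cons (.br (nat_lit 9) (nat_lit 1) (.cons (.kr (nat_lit 36893488147435880704) (nat_lit 310693935640959702194520064) (nat_lit 1) (nat_lit 0)) .nil)) .nil)) .nil))) .nil))),
 (.br (nat_lit 7) (nat_lit 1) (.cons (.rf (nat_lit 769) (nat_lit 443896181010040864)) (.cons (.br (nat_lit 9) (nat_lit 1) (.cons (.rf (nat_lit 769) (nat_lit 443894050705246240)) (.cons (.br (nat_lit 11) (nat_lit 0) (.cons (.kr (nat_lit 4722366482869645213696) (nat_lit 309485009821345068724781056) (nat_lit 9) (nat_lit 0)) .nil)) .nil))) .nil))),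
 (.br (nat_lit 8) (nat_lit 1) (.cons (.rf (nat_lit 589) (nat_lit 443928000340264064)) (.cons (.br (nat_lit 10) (nat_lit 0) (.cons (.br (nat_lit 9) (nat_lit 1) (.cons (.kr (nat_lit 36893488147435880704) (nat_lit 310693935640959702194520064) (nat_lit 1) (nat_lit 0)) .nil)) .nil)) .nil))),
 (.br (nat_lit 4) (nat_lit 0) (.cons (.rf (nat_lit 1686) (nat_lit 14242959524133701664)) (.cons (.ev (nat_lit 79228162514336395191876845824) (nat_lit 1)) .nil))),
 (.br (nat_lit 4) (nat_lit 0) (.cons (.rf (nat_lit 1686) (nat_lit 14242959524133701664)) (.cons (.br (nat_lit 7) (nat_lit 1) (.cons (.br (nat_lit 8) (nat_lit 1) (.cons (.br (nat_lit 9) (nat_lit 1) (.cons (.kr (nat_lit 36893488147435880704) (nat_lit 310693935640959702194520064) (nat_lit 1) (nat_lit 0)) .nil)) .nil)) (.cons (.rf (nat_lit 1687) (nat_lit 155699889726130220)) .nil))) .nil))),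
 (.br (nat_lit 3) (nat_lit 0) (.cons (.br (nat_lit 4) (nat_lit 0) (.cons (.rf (nat_lit 1679) (nat_lit 14242959524133701664)) (.cons (.rf (nat_lit 1679) (nat_lit 14242958457941623872)) (.cons (.br (nat_lit 4) (nat_lit 0) (.cons (.rf (nat_lit 1679) (nat_lit 14242959524133701664)) (.cons (.rf (nat_lit 1679) (nat_lit 14242958457941623872)) (.cons (.rf (nat_lit 1678) (nat_lit 14242959524133701664)) .nil)))) (.cons (.rf (nat_lit 1678) (nat_lit 14242959524133701664)) .nil))))) (.cons (.br (nat_lit 7) (nat_lit 1) (.cons (.br (nat_lit 4) (nat_lit 0) (.cons (.br (nat_lit 8) (nat_lit 1) (.cons (.br (nat_lit 9) (nat_lit 1) (.cons (.rf (nat_lit 437) (nat_lit 407796948739853440)) .nil)) (.cons (.br (nat_lit 9) (nat_lit 1) (.cons (.ev (nat_lit 1213666705181745350705153) (nat_lit 1)) (.cons (.br (nat_lit 10) (nat_lit 0) (.cons (.br (nat_lit 11) (nat_lit 0) (.cons (.ev (nat_lit 79537647542604766908816359680) (nat_lit 1)) .nil)) .nil)) .nil))) .nil))) (.cons (.br (nat_lit 8) (nat_lit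 1) (.cons (.br (nat_lit 8) (nat_lit 1) (.cons (.ev (nat_lit 1213666705181745350705153) (nat_lit 1)) .nil)) (.cons (.rf (nat_lit 527) (nat_lit 407864020022985824)) .nil))) (.cons (.rf (nat_lit 1640) (nat_lit 14242850708050248768)) .nil)))) (.cons (.br (nat_lit 9) (nat_lit 1) (.cons (.ev (nat_lit 1213648186380073325101313) (nat_lit 1)) (.cons (.br (nat_lit 4) (nat_lit 0) (.cons (.br (nat_lit 4) (nat_lit 0) (.cons (.rf (nat_lit 1680) (nat_lit 14242959524133701664)) .nil)) (.cons (.rf (nat_lit 1680) (nat_lit 14242959524133701664)) .nil))) .nil))) (.cons (.br (nat_lit 11) (nat_lit 0) (.cons (.rf (nat_lit 1682) (nat_lit 14242959524133701664)) (.cons (.br (nat_lit 11) (nat_lit 0) (.cons (.rf (nat_lit 1682) (nat_lit 14242959524133701664)) (.cons (.ev (nat_lit 309485009893402662762709249) (nat_lit 1)) .nil))) (.cons (.rf (nat_lit 1640) (nat_lit 13990649128924841024)) .nil)))) .nil)))) (.cons (.br (nat_lit 12) (nat_lit 1) (.cons (.br (nat_lit 4) (nat_lit 0) (.cons (.br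 (nat_lit 8) (nat_lit 1) (.cons (.rf (nat_lit 1683) (nat_lit 443930265870501920)) (.cons (.br (nat_lit 8) (nat_lit 1) (.cons (.rf (nat_lit 1683) (nat_lit 443930265870501920)) .nil)) .nil))) (.cons (.rf (nat_lit 1684) (nat_lit 14242959524133701664)) (.cons (.rf (nat_lit 1685) (nat_lit 14242959524133701664)) .nil)))) (.cons (.rf (nat_lit 791) (nat_lit 325702580799532)) (.cons (.br (nat_lit 4) (nat_lit 0) (.cons (.rf (nat_lit 1687) (nat_lit 14242959524133701664)) (.cons (.rf (nat_lit 1688) (nat_lit 14242959524133701664)) (.cons (.br (nat_lit 4) (nat_lit 0) (.cons (.ev (nat_lit 79228162514336395191876845824) (nat_lit 1)) (.cons (.rf (nat_lit 1688) (nat_lit 14242959524133701664)) .nil))) .nil)))) .nil)))) .nil)))),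
 (.br (nat_lit 7) (nat_lit 1) (.cons (.rf (nat_lit 769) (nat_lit 443896181009025056)) (.cons (.br (nat_lit 9) (nat_lit 1) (.cons (.rf (nat_lit 769) (nat_lit 443894050706262048)) (.cons (.br (nat_lit 10) (nat_lit 0) (.cons (.br (nat_lit 8) (nat_lit 1) (.cons (.ev (nat_lit 158769455705707141207704274690) (nat_lit 3)) .nil)) .nil)) .nil))) .nil))),
 (.br (nat_lit 10) (nat_lit 0) (.cons (.rf (nat_lit 1683) (nat_lit 407865253687298080)) (.cons (.rf (nat_lit 1683) (nat_lit 407831168826837024)) .nil))),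
 (.br (nat_lit 8) (nat_lit 1) (.cons (.br (nat_lit 9) (nat_lit 1) (.cons (.ev (nat_lit 313140195410177678559478532) (nat_lit 3)) .nil)) .nil)),
 (.br (nat_lit 7) (nat_lit 1) (.cons (.rf (nat_lit 1692) (nat_lit 14242959524133701664)) (.cons (.br (nat_lit 8) (nat_lit 1) (.cons (.rf (nat_lit 1692) (nat_lit 14242958457941623872)) (.cons (.br (nat_lit 9) (nat_lit 1) (.cons (.ev (nat_lit 158774300890325518664744502018) (nat_lit 3)) .nil)) .nil))) .nil)))]

theorem c47 : chkAll C T R L47 (nat_lit 1663) = true := by decide +kernel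

theorem l47 : (nat_lit 1663) + L47.length = (nat_lit 1694) := by decide +kernel

/-- part of the certificates -/
def L48 : List Prf := [(.br (nat_lit 4) (nat_lit 0) (.cons (.rf (nat_lit 1693) (nat_lit 14242959524133701664)) (.cons (.br (nat_lit 7) (nat_lit 1) (.cons (.rf (nat_lit 589) (nat_lit 443892814961542272)) (.cons (.br (nat_lit 11) (nat_lit 0) (.cons (.rf (nat_lit 1693) (nat_lit 155699889726130220)) .nil)) .nil))) .nil))),
 (.br (nat_lit 3) (nat_lit 0) (.cons (.rf (nat_lit 1689) (nat_lit 14242959524133701664)) (.cons (.rf (nat_lit 1689) (nat_lit 14242958457941623872)) (.cons (.br (nat_lit 12) (nat_lit 1) (.cons (.br (nat_lit 4) (nat_lit 0) (.cons (.rf (nat_lit 1690) (nat_lit 14242959524133701664)) (.cons (.rf (nat_lit 1690) (nat_lit 14242958457941623872)) (.cons (.rf (nat_lit 1691) (nat_lit 443930265870501920)) .nil)))) (.cons (.rf (nat_lit 791) (nat_lit 325702580799532)) (.cons (.br (nat_lit 4) (nat_lit 0) (.cons (.rf (nat_lit 1694) (nat_lit 14242959524133701664))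 (.cons (.rf (nat_lit 1694) (nat_lit 14242958457941623872)) (.cons (.br (nat_lit 4) (nat_lit 0) (.cons (.rf (nat_lit 1694) (nat_lit 14242959524133701664)) (.cons (.rf (nat_lit 1694) (nat_lit 14242958457941623872)) .nil))) .nil)))) .nil)))) .nil)))),
 (.br (nat_lit 12) (nat_lit 1) (.cons (.rf (nat_lit 1678) (nat_lit 14242959524133701664)) (.cons (.br (nat_lit 12) (nat_lit 1) (.cons (.rf (nat_lit 1677) (nat_lit 400020169503868972)) (.cons (.rf (nat_lit 1677) (nat_lit 147818590378461228)) .nil))) (.cons (.rf (nat_lit 1678) (nat_lit 13990757945008293920)) .nil)))),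
 (.br (nat_lit 12) (nat_lit 1) (.cons (.rf (nat_lit 1677) (nat_lit 400020169503868972)) (.cons (.rf (nat_lit 791) (nat_lit 325702581880876)) .nil))),
 (.br (nat_lit 12) (nat_lit 1) (.cons (.rf (nat_lit 1697) (nat_lit 14242959524133701664)) (.cons (.br (nat_lit 12) (nat_lit 1) (.cons (.rf (nat_lit 1677) (nat_lit 400020169503868972)) (.cons (.rf (nat_lit 1677) (nat_lit 147818590378461228)) .nil))) (.cons (.rf (nat_lit 1697) (nat_lit 13990757945008293920)) .nil)))),
 (.br (nat_lit 8) (nat_lit 1) (.cons (.br (nat_lit 9) (nat_lit 0) (.cons (.br (nat_lit 12) (nat_lit 1) (.cons (.kr (nat_lit 1208925819614629191483648) (nat_lit 4722366482873940246528) (nat_lit 1) (nat_lit 0)) .nil)) .nil)) .nil)),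
 (.br (nat_lit 8) (nat_lit 1) (.cons (.rf (nat_lit 1699) (nat_lit 407901468851537952)) (.cons (.rf (nat_lit 1699) (nat_lit 406810752275579968)) .nil))),
 (.br (nat_lit 9) (nat_lit 0) (.cons (.br (nat_lit 12) (nat_lit 1) (.cons (.kr (nat_lit 1208925819614629191483648) (nat_lit 4722366482873940246528) (nat_lit 1) (nat_lit 0)) .nil)) .nil)),
 (.br (nat_lit 8) (nat_lit 1) (.cons (.kr (nat_lit 72057594037927936) (nat_lit 4722366482869645213696) (nat_lit 7) (nat_lit 0)) (.cons (.rf (nat_lit 1701) (nat_lit 407901468851537952)) .nil))),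
 (.br (nat_lit 3) (nat_lit 0) (.cons (.rf (nat_lit 1696) (nat_lit 14242959524133701664)) (.cons (.rf (nat_lit 1698) (nat_lit 14242959524133701664)) (.cons (.br (nat_lit 12) (nat_lit 1) (.cons (.br (nat_lit 4) (nat_lit 0) (.cons (.rf (nat_lit 1700) (nat_lit 445091350149433376)) (.cons (.br (nat_lit 7) (nat_lit 1) (.cons (.rf (nat_lit 1685) (nat_lit 14242925405987212320)) (.cons (.br (nat_lit 8) (nat_lit 1) (.cons (.br (nat_lit 10) (nat_lit 0) (.cons (.br (nat_lit 9) (nat_lit 1) (.cons (.ev (nat_lit 950747687709955555930168560396) (nat_lit 4)) .nil)) .nil)) (.cons (.rf (nat_lit 769) (nat_lit 445052902706383936)) .nil))) .nil))) (.cons (.br (nat_lit 7) (nat_lit 1) (.cons (.rf (nat_lit 1702) (nat_lit 445092449661061152)) (.cons (.br (nat_lit 9) (nat_lit 1) (.cons (.br (nat_lit 10) (nat_lit 0) (.cons (.ev (nat_lit 79231794014305837137122034177) (nat_lit 2)) .nil)) (.cons (.rf (nat_lit 769) (nat_lit 445017752694033472)) .nil))) .nil))) .nil)))) (.cons (.rf (nat_lit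 791) (nat_lit 325702580799532)) (.cons (.rf (nat_lit 1677) (nat_lit 365116206198654028)) .nil)))) .nil)))),
 (.br (nat_lit 12) (nat_lit 1) (.cons (.rf (nat_lit 1677) (nat_lit 400020169503868972)) (.cons (.rf (nat_lit 791) (nat_lit 325702581880876)) .nil))),
 (.br (nat_lit 9) (nat_lit 1) (.cons (.kr (nat_lit 309485009821345068741558528) (nat_lit 1208925819614633469739008) (nat_lit 1) (nat_lit 0)) .nil)),
 (.br (nat_lit 7) (nat_lit 1) (.cons (.br (nat_lit 8) (nat_lit 1) (.cons (.rf (nat_lit 1705) (nat_lit 14242959524133701664)) (.cons (.br (nat_lit 9) (nat_lit 1) (.cons (.ev (nat_lit 79231794069429896576136970497) (nat_lit 2)) .nil)) .nil))) .nil)),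
 (.br (nat_lit 3) (nat_lit 0) (.cons (.rf (nat_lit 1696) (nat_lit 14242959524133701664)) (.cons (.br (nat_lit 12) (nat_lit 1) (.cons (.rf (nat_lit 1704) (nat_lit 14242959524133701664)) (.cons (.br (nat_lit 12) (nat_lit 1) (.cons (.rf (nat_lit 1677) (nat_lit 400020169503868972)) (.cons (.rf (nat_lit 1677) (nat_lit 147818590378461228)) .nil))) (.cons (.rf (nat_lit 1704) (nat_lit 13990757945008293920)) .nil)))) (.cons (.br (nat_lit 12) (nat_lit 1) (.cons (.br (nat_lit 4) (nat_lit 0) (.cons (.br (nat_lit 7) (nat_lit 1) (.cons (.br (nat_lit 8) (nat_lit 1) (.cons (.rf (nat_lit 769) (nat_lit 443928068992666656)) (.cons (.br (nat_lit 10) (nat_lit 0) (.cons (.br (nat_lit 9) (nat_lit 1) (.cons (.ev (nat_lit 950747687709955555964662516492) (nat_lit 4)) .nil)) .nil)) .nil))) (.cons (.br (nat_lit 8) (nat_lit 1) (.cons (.kr (nat_lit 18446744078004519168) (nat_lit 72057594054770688) (nat_lit 1) (nat_lit 0)) (.cons (.rf (nat_lit 769) (nat_lit 445052869420387392)) .nil))) .nil)))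 (.cons (.rf (nat_lit 1700) (nat_lit 445090284997543968)) (.cons (.br (nat_lit 7) (nat_lit 1) (.cons (.rf (nat_lit 1706) (nat_lit 14242959524133701664)) (.cons (.br (nat_lit 7) (nat_lit 1) (.cons (.rf (nat_lit 1706) (nat_lit 14242959524133701664)) .nil)) .nil))) .nil)))) (.cons (.rf (nat_lit 791) (nat_lit 325702580799532)) (.cons (.rf (nat_lit 1677) (nat_lit 365116206198654028)) .nil)))) .nil)))),
 (.br (nat_lit 3) (nat_lit 0) (.cons (.rf (nat_lit 1698) (nat_lit 14242959524133701664)) (.cons (.rf (nat_lit 1707) (nat_lit 14242959524133701664)) (.cons (.br (nat_lit 12) (nat_lit 1) (.cons (.br (nat_lit 4) (nat_lit 0) (.cons (.rf (nat_lit 1707) (nat_lit 14208055560828486720)) (.cons (.rf (nat_lit 1703) (nat_lit 14208055560828486720)) (.cons (.rf (nat_lit 1700) (nat_lit 445090319357282336)) .nil)))) (.cons (.rf (nat_lit 791) (nat_lit 325702580799532)) (.cons (.rf (nat_lit 1677) (nat_lit 365116206198654028)) .nil)))) .nil)))),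
 (.br (nat_lit 2) (nat_lit 0) (.cons (.rf (nat_lit 1566) (nat_lit 407900402659460160)) (.cons (.rf (nat_lit 1291) (nat_lit 407832133080548416)) (.cons (.rf (nat_lit 1566) (nat_lit 407832133080548416)) (.cons (.br (nat_lit 6) (nat_lit 1) (.cons (.rf (nat_lit 1677) (nat_lit 14242958457941623872)) (.cons (.rf (nat_lit 1677) (nat_lit 14208055560828486720)) (.cons (.br (nat_lit 3) (nat_lit 0) (.cons (.rf (nat_lit 1689) (nat_lit 14242959524133701664)) (.cons (.rf (nat_lit 1689) (nat_lit 14242958457941623872)) (.cons (.rf (nat_lit 1695) (nat_lit 14242959524133701664)) (.cons (.br (nat_lit 3) (nat_lit 0) (.cons (.rf (nat_lit 1689) (nat_lit 14242959524133701664)) (.cons (.rf (nat_lit 1689) (nat_lit 14242958457941623872)) (.cons (.rf (nat_lit 1695) (nat_lit 14242959524133701664)) .nil)))) .nil))))) (.cons (.br (nat_lit 3) (nat_lit 0) (.cons (.rf (nat_lit 1703) (nat_lit 14242959524133701664)) (.cons (.rf (nat_lit 1707) (nat_lit 14242959524133701664)) (.cons (.rf (nat_lit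 1708) (nat_lit 14242959524133701664)) (.cons (.br (nat_lit 3) (nat_lit 0) (.cons (.rf (nat_lit 1703) (nat_lit 14242959524133701664)) (.cons (.rf (nat_lit 1707) (nat_lit 14242959524133701664)) (.cons (.rf (nat_lit 1708) (nat_lit 14242959524133701664)) .nil)))) .nil))))) .nil))))) .nil))))),
 (.br (nat_lit 12) (nat_lit 1) (.cons (.rf (nat_lit 1691) (nat_lit 443825814413346848)) (.cons (.rf (nat_lit 791) (nat_lit 325702580799532)) (.cons (.br (nat_lit 4) (nat_lit 0) (.cons (.rf (nat_lit 1686) (nat_lit 14242958389289256000)) (.cons (.rf (nat_lit 1686) (nat_lit 14242890222688897056)) .nil))) .nil)))),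
 (.br (nat_lit 3) (nat_lit 0) (.cons (.rf (nat_lit 1696) (nat_lit 14242817656095867968)) (.cons (.rf (nat_lit 1696) (nat_lit 14242925405987244064)) (.cons (.br (nat_lit 6) (nat_lit 1) (.cons (.rf (nat_lit 1710) (nat_lit 14242959524133701664)) (.cons (.kr (nat_lit 281474976710656) (nat_lit 1208925819614629174706176) (nat_lit 6) (nat_lit 0)) (.cons (.br (nat_lit 12) (nat_lit 1) (.cons (.br (nat_lit 4) (nat_lit 0) (.cons (.rf (nat_lit 1684) (nat_lit 14242958389289256000)) (.cons (.rf (nat_lit 1684) (nat_lit 14242890222688897056)) .nil))) (.cons (.rf (nat_lit 791) (nat_lit 325702580799532)) (.cons (.rf (nat_lit 1710) (nat_lit 155699889726130220)) .nil)))) .nil)))) .nil)))),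
 (.br (nat_lit 4) (nat_lit 0) (.cons (.br (nat_lit 6) (nat_lit 1) (.cons (.rf (nat_lit 589) (nat_lit 443930197216035968)) (.cons (.br (nat_lit 10) (nat_lit 0) (.cons (.br (nat_lit 9) (nat_lit 1) (.cons (.ev (nat_lit 79229376162450716571635613696) (nat_lit 1)) .nil)) .nil)) .nil))) (.cons (.br (nat_lit 6) (nat_lit 1) (.cons (.ev (nat_lit 79228162532711364246053584896) (nat_lit 1)) (.cons (.br (nat_lit 9) (nat_lit 1) (.cons (.ev (nat_lit 4722366764348933669121) (nat_lit 1)) (.cons (.zr (nat_lit 25803489536) (nat_lit 80466107294362945911309467649) (nat_lit 10) (nat_lit 0)) .nil))) .nil))) .nil))),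
 (.br (nat_lit 3) (nat_lit 0) (.cons (.rf (nat_lit 1696) (nat_lit 14242817656095867968)) (.cons (.rf (nat_lit 1698) (nat_lit 14242959524133701664)) (.cons (.br (nat_lit 12) (nat_lit 1) (.cons (.br (nat_lit 4) (nat_lit 0) (.cons (.br (nat_lit 6) (nat_lit 1) (.cons (.rf (nat_lit 769) (nat_lit 443929134145603616)) (.cons (.br (nat_lit 7) (nat_lit 1) (.cons (.kr (nat_lit 281474993487872) (nat_lit 1208925819614633469673472) (nat_lit 3) (nat_lit 0)) (.cons (.br (nat_lit 10) (nat_lit 0) (.cons (.br (nat_lit 9) (nat_lit 1) (.cons (.ev (nat_lit 158771864223005645381348557570) (nat_lit 3)) .nil)) .nil)) .nil))) .nil))) (.cons (.rf (nat_lit 1691) (nat_lit 443860964425697312)) (.cons (.br (nat_lit 7) (nat_lit 1) (.cons (.rf (nat_lit 769) (nat_lit 443825814413346848)) (.cons (.br (nat_lit 9) (nat_lit 1) (.cons (.ev (nat_lit 79231794014305837137122034177) (nat_lit 2)) (.cons (.br (nat_lit 10) (nat_lit 0) (.cons (.br (nat_lit 6) (nat_lit 1) (.cons (.ev (nat_lit 158774281964108518779789968642)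 (nat_lit 3)) .nil)) .nil)) .nil))) .nil))) .nil)))) (.cons (.rf (nat_lit 791) (nat_lit 325702580799532)) (.cons (.br (nat_lit 4) (nat_lit 0) (.cons (.rf (nat_lit 1712) (nat_lit 14242959524133701664)) (.cons (.br (nat_lit 4) (nat_lit 0) (.cons (.rf (nat_lit 1712) (nat_lit 14242959524133701664)) (.cons (.ev (nat_lit 79228162514336395191876845824) (nat_lit 1)) .nil))) (.cons (.br (nat_lit 4) (nat_lit 0) (.cons (.rf (nat_lit 1712) (nat_lit 14242959524133701664)) (.cons (.ev (nat_lit 79228162514336395191876845824) (nat_lit 1)) .nil))) .nil)))) .nil)))) .nil)))),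
 (.br (nat_lit 12) (nat_lit 1) (.cons (.rf (nat_lit 1677) (nat_lit 400020169503868972)) (.cons (.rf (nat_lit 791) (nat_lit 325702581880876)) .nil))),
 (.br (nat_lit 3) (nat_lit 0) (.cons (.br (nat_lit 12) (nat_lit 1) (.cons (.rf (nat_lit 1714) (nat_lit 14242959524133701664)) (.cons (.br (nat_lit 12) (nat_lit 1) (.cons (.rf (nat_lit 1677) (nat_lit 400020169503868972)) (.cons (.rf (nat_lit 1677) (nat_lit 147818590378461228)) .nil))) (.cons (.rf (nat_lit 1714) (nat_lit 13990757945008293920)) .nil)))) (.cons (.rf (nat_lit 1696) (nat_lit 14242925405987244064)) (.cons (.br (nat_lit 12) (nat_lit 1) (.cons (.br (nat_lit 4) (nat_lit 0) (.cons (.rf (nat_lit 1700) (nat_lit 445090218425550880)) (.cons (.br (nat_lit 6) (nat_lit 1) (.cons (.br (nat_lit 7) (nat_lit 1) (.cons (.rf (nat_lit 769) (nat_lit 443930265868438560)) (.cons (.rf (nat_lit 1701) (nat_lit 445090218425550880)) .nil))) (.cons (.br (nat_lit 7) (nat_lit 1) (.cons (.br (nat_lit 10) (nat_lit 0) (.cons (.br (nat_lit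 9) (nat_lit 1) (.cons (.ev (nat_lit 158771854667593897443934143234) (nat_lit 3)) .nil)) .nil)) (.cons (.rf (nat_lit 769) (nat_lit 445052867340012608)) .nil))) .nil))) (.cons (.br (nat_lit 6) (nat_lit 1) (.cons (.rf (nat_lit 1685) (nat_lit 14242958458981780512)) (.cons (.br (nat_lit 9) (nat_lit 1) (.cons (.br (nat_lit 10) (nat_lit 0) (.cons (.br (nat_lit 7) (nat_lit 1) (.cons (.ev (nat_lit 158771864112182747995149108482) (nat_lit 3)) .nil)) .nil)) (.cons (.rf (nat_lit 769) (nat_lit 444982567315311680)) .nil))) .nil))) .nil)))) (.cons (.rf (nat_lit 791) (nat_lit 325702580799532)) (.cons (.rf (nat_lit 1677) (nat_lit 365043673931809868)) .nil)))) .nil)))),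
 (.br (nat_lit 3) (nat_lit 0) (.cons (.rf (nat_lit 1715) (nat_lit 14242959524133701664)) (.cons (.rf (nat_lit 1698) (nat_lit 14242959524133701664)) (.cons (.br (nat_lit 12) (nat_lit 1) (.cons (.br (nat_lit 4) (nat_lit 0) (.cons (.rf (nat_lit 1715) (nat_lit 14207983028561642560)) (.cons (.rf (nat_lit 1700) (nat_lit 445089153273661472)) (.cons (.br (nat_lit 7) (nat_lit 1) (.cons (.rf (nat_lit 1702) (nat_lit 445092451808544800)) (.cons (.br (nat_lit 9) (nat_lit 1) (.cons (.br (nat_lit 10) (nat_lit 0) (.cons (.br (nat_lit 6) (nat_lit 1) (.cons (.ev (nat_lit 317228189325899450872142561540) (nat_lit 4)) .nil)) .nil)) (.cons (.kr (nat_lit 4722366482869645213696) (nat_lit 309485009821345068724781056) (nat_lit 9) (nat_lit 0)) .nil))) .nil))) .nil)))) (.cons (.rf (nat_lit 791) (nat_lit 325702580799532)) (.cons (.rf (nat_lit 1677) (nat_lit 365043673931809868)) .nil)))) .nil)))),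
 (.br (nat_lit 6) (nat_lit 1) (.cons (.br (nat_lit 7) (nat_lit 1) (.cons (.br (nat_lit 9) (nat_lit 1) (.cons (.ev (nat_lit 317228227104254853077000325380) (nat_lit 4)) .nil)) (.cons (.rf (nat_lit 1705) (nat_lit 14208055492176118848)) .nil))) .nil)),
 (.br (nat_lit 3) (nat_lit 0) (.cons (.rf (nat_lit 1696) (nat_lit 14242925405987244064)) (.cons (.rf (nat_lit 1698) (nat_lit 14242959524133701664)) (.cons (.br (nat_lit 12) (nat_lit 1) (.cons (.br (nat_lit 4) (nat_lit 0) (.cons (.rf (nat_lit 1715) (nat_lit 14207983028561642560)) (.cons (.br (nat_lit 6) (nat_lit 1) (.cons (.rf (nat_lit 1717) (nat_lit 14242959524133701664)) (.cons (.rf (nat_lit 1717) (nat_lit 14207983028561642560)) .nil))) (.cons (.rf (nat_lit 1700) (nat_lit 445089221993138208)) .nil)))) (.cons (.rf (nat_lit 791) (nat_lit 325702580799532)) (.cons (.rf (nat_lit 1677) (nat_lit 365043673931809868)) .nil)))) .nil)))),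
 (.br (nat_lit 2) (nat_lit 0) (.cons (.rf (nat_lit 1291) (nat_lit 407832133080548416)) (.cons (.rf (nat_lit 1566) (nat_lit 407795850304128064)) (.cons (.rf (nat_lit 1291) (nat_lit 407759600813704256)) (.cons (.br (nat_lit 8) (nat_lit 1) (.cons (.rf (nat_lit 1677) (nat_lit 14242885925674779712)) (.cons (.rf (nat_lit 1677) (nat_lit 14207983028561642560)) (.cons (.br (nat_lit 3) (nat_lit 0) (.cons (.rf (nat_lit 1711) (nat_lit 14242959524133701664)) (.cons (.rf (nat_lit 1713) (nat_lit 14242959524133701664)) (.cons (.rf (nat_lit 1713) (nat_lit 14242885925674779712)) (.cons (.br (nat_lit 3) (nat_lit 0) (.cons (.rf (nat_lit 1711) (nat_lit 14242959524133701664)) (.cons (.rf (nat_lit 1713) (nat_lit 14242959524133701664)) (.cons (.rf (nat_lit 1713) (nat_lit 14242885925674779712)) .nil)))) .nil))))) (.cons (.br (nat_lit 3) (nat_lit 0) (.cons (.rf (nat_lit 1715) (nat_lit 14242959524133701664)) (.cons (.rf (nat_lit 1716) (nat_lit 14242959524133701664)) (.cons (.rf (nat_lit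 1718) (nat_lit 14242959524133701664)) (.cons (.br (nat_lit 3) (nat_lit 0) (.cons (.rf (nat_lit 1715) (nat_lit 14242959524133701664)) (.cons (.rf (nat_lit 1716) (nat_lit 14242959524133701664)) (.cons (.rf (nat_lit 1718) (nat_lit 14242959524133701664)) .nil)))) .nil))))) .nil))))) .nil))))),
 (.br (nat_lit 2) (nat_lit 0) (.cons (.rf (nat_lit 1709) (nat_lit 14242959524133701664)) (.cons (.rf (nat_lit 1709) (nat_lit 14242925405987244064)) (.cons (.rf (nat_lit 1719) (nat_lit 14242959524133701664)) (.cons (.rf (nat_lit 1719) (nat_lit 14242925405987244064)) (.cons (.br (nat_lit 2) (nat_lit 0) (.cons (.rf (nat_lit 1709) (nat_lit 14242959524133701664)) (.cons (.rf (nat_lit 1709) (nat_lit 14242925405987244064)) (.cons (.rf (nat_lit 1719) (nat_lit 14242959524133701664)) (.cons (.rf (nat_lit 1719) (nat_lit 14242925405987244064)) .nil))))) .nil)))))),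
 (.br (nat_lit 3) (nat_lit 1) (.cons (.rf (nat_lit 791) (nat_lit 325702574508064)) (.cons (.br (nat_lit 4) (nat_lit 1) (.cons (.br (nat_lit 1) (nat_lit 0) (.cons (.rf (nat_lit 1291) (nat_lit 407901468851537952)) (.cons (.rf (nat_lit 1291) (nat_lit 407867350705080352)) (.cons (.rf (nat_lit 1566) (nat_lit 407901468851537952)) (.cons (.rf (nat_lit 1566) (nat_lit 407867350705080352)) (.cons (.br (nat_lit 5) (nat_lit 1) (.cons (.br (nat_lit 2) (nat_lit 0) (.cons (.rf (nat_lit 1291) (nat_lit 407901468851536960)) (.cons (.rf (nat_lit 1291) (nat_lit 407867350705079360)) (.cons (.rf (nat_lit 1566) (nat_lit 407901468851536960)) (.cons (.rf (nat_lit 1566) (nat_lit 407867350705079360)) (.cons (.kr (nat_lit 256) (nat_lit 65536) (nat_lit 1) (nat_lit 0)) .nil)))))) (.cons (.rf (nat_lit 1677) (nat_lit 14242959524133701664)) (.cons (.rf (nat_lit 1677) (nat_lit 14208056627020564512)) (.cons (.rf (nat_lit 1720) (nat_lit 14242959524133701664)) (.cons (.rf (nat_lit 1720) (nat_lit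 14208056627020564512)) .nil)))))) .nil)))))) .nil)) .nil)))]

theorem c48 : chkAll C T R L48 (nat_lit 1694) = true := by decide +kernel

theorem l48 : (nat_lit 1694) + L48.length = (nat_lit 1722) := by decide +kernel

/-- part of the certificates -/
def L49 : List Prf := [(.br (nat_lit 2) (nat_lit 0) (.cons (.rf (nat_lit 1721) (nat_lit 325702574443584)) (.cons (.rf (nat_lit 1721) (nat_lit 324636382366784)) (.cons (.rf (nat_lit 1721) (nat_lit 288386891942976)) (.cons (.rf (nat_lit 1721) (nat_lit 252104115522624)) (.cons (.rf (nat_lit 1721) (nat_lit 216886490991680)) (.cons (.br (nat_lit 2) (nat_lit 0) (.cons (.rf (nat_lit 1721) (nat_lit 325702574443584)) (.cons (.rf (nat_lit 1721) (nat_lit 324636382366784)) (.cons (.rf (nat_lit 1721) (nat_lit 288386891942976)) (.cons (.rf (nat_lit 1721) (nat_lit 252104115522624)) (.cons (.rf (nat_lit 1721) (nat_lit 216886490991680)) .nil)))))) .nil))))))),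
 (.br (nat_lit 5) (nat_lit 0) (.cons (.br (nat_lit 5) (nat_lit 0) (.cons (.br (nat_lit 6) (nat_lit 0) (.cons (.br (nat_lit 1) (nat_lit 1) (.cons (.rf (nat_lit 43) (nat_lit 247132652640)) (.cons (.rf (nat_lit 43) (nat_lit 247132685376)) (.cons (.rf (nat_lit 43) (nat_lit 247131669568)) (.cons (.br (nat_lit 2) (nat_lit 1) (.cons (.rf (nat_lit 43) (nat_lit 247132686368)) (.cons (.rf (nat_lit 43) (nat_lit 247131670560)) (.cons (.br (nat_lit 3) (nat_lit 1) (.cons (.rf (nat_lit 43) (nat_lit 247130623008)) .nil)) .nil)))) .nil))))) (.cons (.br (nat_lit 7) (nat_lit 0) (.cons (.br (nat_lit 1) (nat_lit 1) (.cons (.rf (nat_lit 315) (nat_lit 9043225674848)) (.cons (.rf (nat_lit 315) (nat_lit 9043225707584)) (.cons (.rf (nat_lit 315) (nat_lit 9043224691776)) (.cons (.br (nat_lit 2) (nat_lit 1) (.cons (.rf (nat_lit 315) (nat_lit 9043225708576)) (.cons (.rf (nat_lit 315) (nat_lit 9043224692768)) (.cons (.br (nat_lit 3) (nat_lit 1) (.cons (.rf (nat_lit 315) (nat_lit 9043223645216))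 .nil)) .nil)))) .nil))))) (.cons (.br (nat_lit 8) (nat_lit 0) (.cons (.br (nat_lit 1) (nat_lit 1) (.cons (.rf (nat_lit 1722) (nat_lit 325702574474336)) (.cons (.rf (nat_lit 1722) (nat_lit 325702574507072)) (.cons (.rf (nat_lit 1722) (nat_lit 325702573491264)) (.cons (.br (nat_lit 2) (nat_lit 1) (.cons (.rf (nat_lit 1722) (nat_lit 325702574508064)) (.cons (.rf (nat_lit 1722) (nat_lit 325702573492256)) (.cons (.br (nat_lit 3) (nat_lit 1) (.cons (.rf (nat_lit 1722) (nat_lit 325702572444704)) .nil)) .nil)))) .nil))))) .nil)) .nil))) .nil))) .nil)) .nil)),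
 (.br (nat_lit 0) (nat_lit 1) (.cons (.br (nat_lit 0) (nat_lit 1) (.cons (.br (nat_lit 0) (nat_lit 1) (.cons (.br (nat_lit 0) (nat_lit 1) (.cons (.br (nat_lit 1) (nat_lit 0) (.cons (.rf (nat_lit 1723) (nat_lit 172066848)) (.cons (.br (nat_lit 1) (nat_lit 0) (.cons (.rf (nat_lit 1723) (nat_lit 205621280)) .nil)) .nil))) .nil)) .nil)) .nil)) .nil))]

theorem c49 : chkAll C T R L49 (nat_lit 1722) = true := by decide +kernel

theorem l49 : (nat_lit 1722) + L49.length = (nat_lit 1725) := by decide +kernel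

end Pool.Agent.H93.Neg.Q13_6_0_0_5_2
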