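import Pool.Agent.H93.Neg.Fin
import Pool.Agent.H93.Neg.PrfQ13_0_8_1_4_0_0
import Pool.Agent.H93.Neg.PrfQ13_2_4_2_5_0_0
import Pool.Agent.H93.Neg.PrfQ13_4_0_3_6_0_0
import Pool.Agent.H93.Neg.PrfQ13_4_0_3_6_0_1
import Pool.Agent.H93.Neg.PrfQ13_6_0_0_5_2_0
import Pool.Agent.H93.Neg.PrfQ13_6_0_0_5_2_1

/-!
The cases for degree 4 and order 13.
-/

set_option autoImplicit false
set_option maxRecDepth 100000
set_option linter.all false

namespace Pool.Agent.H93.Neg

namespace Q13_0_4_7_2_0

open Finset Classical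

/-- degree, order and types -/
def C : Cl := ⟨nat_lit 4,nat_lit 13,[nat_lit 3,nat_lit 7,nat_lit 0,nat_lit 4,nat_lit 8]⟩

/-- the numbers of vertices of each type -/
def R : ℕ := nat_lit 1073872903

/-- part of the table -/
noncomputable def T0 : Tr := (.node (.node (lf (nat_lit 5) (nat_lit 554597836510208891788839616663)) (lf (nat_lit 1) (nat_lit 7))) (lf (nat_lit 5) (nat_lit 554597836510208891779981246615)))

/-- the table -/
noncomputable def T : Tr := T0

/-- part of the certificates -/
def L0 : List Prf := [(.br (nat_lit 2) (nat_lit 1) (.cons (.kr (nat_lit 1) (nat_lit 65536) (nat_lit 0) (nat_lit 1)) .nil)),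
 (.br (nat_lit 2) (nat_lit 1) (.cons (.rf (nat_lit 0) (nat_lit 4294688)) (.cons (.rf (nat_lit 0) (nat_lit 3278880)) .nil))),
 (.br (nat_lit 0) (nat_lit 0) (.cons (.br (nat_lit 0) (nat_lit 1) (.cons (.br (nat_lit 0) (nat_lit 1) (.cons (.br (nat_lit 0) (nat_lit 1) (.cons (.br (nat_lit 1) (nat_lit 1) (.cons (.rf (nat_lit 1) (nat_lit 4294688)) (.cons (.rf (nat_lit 1) (nat_lit 4262944)) (.cons (.rf (nat_lit 1) (nat_lit 3215392)) .nil)))) .nil)) .nil)) .nil)) .nil))]

theorem c0 : chkAll C T R L0 (nat_lit 0) = true := by decide +kernel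

theorem l0 : (nat_lit 0) + L0.length = (nat_lit 3) := by decide +kernel

theorem r : isRoot (T.get (nat_lit 2)) (nat_lit 7) = true := by decide +kernel

theorem no {V : Type} [Fintype V] {Nb : V → Finset V} {x : V → ℤ} (H : Hyp C Nb x)
    (hR : ∀ t, (univ.filter (fun w => ty Nb x w = t)).card ≤ R / 16 ^ t % 16) (v : V)
    (hv : ty Nb x v = 7) : False := by
  have h0 : ∀ i < (nat_lit 0), ∀ φ, ¬ PEmb Nb x (T.get i) φ := fun i hi => absurd hi (Nat.not_lt_zero i)
  have h1 := chkAll_sound H hR c0 h0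
  rw [l0] at h1
  exact no_root h1 (Nat.lt_succ_self (nat_lit 2)) r v hv

end Q13_0_4_7_2_0

namespace Q13_0_4_8_0_1

open Finset Classical

/-- degree, order and types -/
def C : Cl := ⟨nat_lit 4,nat_lit 13,[nat_lit 3,nat_lit 7,nat_lit 0,nat_lit 4,nat_lit 8]⟩

/-- the numbers of vertices of each type -/
def R : ℕ := nat_lit 5368709128

/-- part of the table -/
noncomputable def T0 : Tr := (lf (nat_lit 1) (nat_lit 7))

/-- the table -/
noncomputable def T : Tr := T0

/-- part of the certificates -/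
def L0 : List Prf := [(.br (nat_lit 0) (nat_lit 0) (.cons (.br (nat_lit 0) (nat_lit 1) (.cons (.br (nat_lit 0) (nat_lit 1) (.cons (.br (nat_lit 0) (nat_lit 1) (.cons (.br (nat_lit 2) (nat_lit 0) (.cons (.br (nat_lit 3) (nat_lit 0) (.cons (.br (nat_lit 1) (nat_lit 1) (.cons (.kr (nat_lit 1) (nat_lit 256) (nat_lit 0) (nat_lit 2)) .nil)) .nil)) .nil)) .nil)) .nil)) .nil)) .nil))]

theorem c0 : chkAll C T R L0 (nat_lit 0) = true := by decide +kernel

theorem l0 : (nat_lit 0) + L0.length = (nat_lit 1) := by decide +kernel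

theorem r : isRoot (T.get (nat_lit 0)) (nat_lit 7) = true := by decide +kernel

theorem no {V : Type} [Fintype V] {Nb : V → Finset V} {x : V → ℤ} (H : Hyp C Nb x)
    (hR : ∀ t, (univ.filter (fun w => ty Nb x w = t)).card ≤ R / 16 ^ t % 16) (v : V)
    (hv : ty Nb x v = 7) : False := by
  have h0 : ∀ i < (nat_lit 0), ∀ φ, ¬ PEmb Nb x (T.get i) φ := fun i hi => absurd hi (Nat.not_lt_zero i)
  have h1 := chkAll_sound H hR c0 h0
  rw [l0] at h1
  exact no_root h1 (Nat.lt_succ_self (nat_lit 0)) r v hv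

end Q13_0_4_8_0_1

namespace Q13_0_8_1_4_0

open Finset Classical

theorem r : isRoot (T.get (nat_lit 437)) (nat_lit 0) = true := by decide +kernel

theorem no {V : Type} [Fintype V] {Nb : V → Finset V} {x : V → ℤ} (H : Hyp C Nb x)
    (hR : ∀ t, (univ.filter (fun w => ty Nb x w = t)).card ≤ R / 16 ^ t % 16) (v : V)
    (hv : ty Nb x v = 0) : False := by
  have h0 : ∀ i < (nat_lit 0), ∀ φ, ¬ PEmb Nb x (T.get i) φ := fun i hi => absurd hi (Nat.not_lt_zero i)
  have h1 := chkAll_sound H hR c0 h0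
  rw [l0] at h1
  have h2 := chkAll_sound H hR c1 h1
  rw [l1] at h2
  have h3 := chkAll_sound H hR c2 h2
  rw [l2] at h3
  have h4 := chkAll_sound H hR c3 h3
  rw [l3] at h4
  have h5 := chkAll_sound H hR c4 h4
  rw [l4] at h5
  have h6 := chkAll_sound H hR c5 h5
  rw [l5] at h6
  have h7 := chkAll_sound H hR c6 h6
  rw [l6] at h7
  have h8 := chkAll_sound H hR c7 h7
  rw [l7] at h8
  have h9 := chkAll_sound H hR c8 h8
  rw [l8] at h9
  have h10 := chkAll_sound H hR c9 h9
  rw [l9] at h10
  have h11 := chkAll_sound H hR c10 h10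
  rw [l10] at h11
  have h12 := chkAll_sound H hR c11 h11
  rw [l11] at h12
  have h13 := chkAll_sound H hR c12 h12
  rw [l12] at h13
  exact no_root h13 (Nat.lt_succ_self (nat_lit 437)) r v hv

end Q13_0_8_1_4_0

namespace Q13_0_8_2_2_1

open Finset Classical

/-- degree, order and types -/
def C : Cl := ⟨nat_lit 4,nat_lit 13,[nat_lit 3,nat_lit 7,nat_lit 0,nat_lit 4,nat_lit 8]⟩

/-- the numbers of vertices of each type -/
def R : ℕ := nat_lit 6442582018

/-- part of the table -/
noncomputable def T0 : Tr := (.node (lf (nat_lit 2) (nat_lit 144)) (lf (nat_lit 1) (nat_lit 0)))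

/-- the table -/
noncomputable def T : Tr := T0

/-- part of the certificates -/
def L0 : List Prf := [(.br (nat_lit 0) (nat_lit 0) (.cons (.br (nat_lit 0) (nat_lit 0) (.cons (.br (nat_lit 0) (nat_lit 0) .nil) .nil)) .nil)),
 (.br (nat_lit 0) (nat_lit 0) (.cons (.rf (nat_lit 0) (nat_lit 32)) (.cons (.br (nat_lit 0) (nat_lit 0) (.cons (.rf (nat_lit 0) (nat_lit 64)) (.cons (.br (nat_lit 0) (nat_lit 0) (.cons (.rf (nat_lit 0) (nat_lit 96)) .nil)) .nil))) .nil)))]

theorem c0 : chkAll C T R L0 (nat_lit 0) = true := by decide +kernel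

theorem l0 : (nat_lit 0) + L0.length = (nat_lit 2) := by decide +kernel

theorem r : isRoot (T.get (nat_lit 1)) (nat_lit 0) = true := by decide +kernel

theorem no {V : Type} [Fintype V] {Nb : V → Finset V} {x : V → ℤ} (H : Hyp C Nb x)
    (hR : ∀ t, (univ.filter (fun w => ty Nb x w = t)).card ≤ R / 16 ^ t % 16) (v : V)
    (hv : ty Nb x v = 0) : False := by
  have h0 : ∀ i < (nat_lit 0), ∀ φ, ¬ PEmb Nb x (T.get i) φ := fun i hi => absurd hi (Nat.not_lt_zero i)
  have h1 := chkAll_sound H hR c0 h0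
  rw [l0] at h1
  exact no_root h1 (Nat.lt_succ_self (nat_lit 1)) r v hv

end Q13_0_8_2_2_1

namespace Q13_0_8_3_0_2

open Finset Classical

/-- degree, order and types -/
def C : Cl := ⟨nat_lit 4,nat_lit 13,[nat_lit 3,nat_lit 7,nat_lit 0,nat_lit 4,nat_lit 8]⟩

/-- the numbers of vertices of each type -/
def R : ℕ := nat_lit 10737418243

/-- part of the table -/
noncomputable def T0 : Tr := (lf (nat_lit 1) (nat_lit 0))

/-- the table -/
noncomputable def T : Tr := T0

/-- part of the certificates -/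
def L0 : List Prf := [(.br (nat_lit 0) (nat_lit 0) (.cons (.br (nat_lit 0) (nat_lit 0) (.cons (.br (nat_lit 0) (nat_lit 0) .nil) .nil)) .nil))]

theorem c0 : chkAll C T R L0 (nat_lit 0) = true := by decide +kernel

theorem l0 : (nat_lit 0) + L0.length = (nat_lit 1) := by decide +kernel

theorem r : isRoot (T.get (nat_lit 0)) (nat_lit 0) = true := by decide +kernel

theorem no {V : Type} [Fintype V] {Nb : V → Finset V} {x : V → ℤ} (H : Hyp C Nb x)
    (hR : ∀ t, (univ.filter (fun w => ty Nb x w = t)).card ≤ R / 16 ^ t % 16) (v : V)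
    (hv : ty Nb x v = 0) : False := by
  have h0 : ∀ i < (nat_lit 0), ∀ φ, ¬ PEmb Nb x (T.get i) φ := fun i hi => absurd hi (Nat.not_lt_zero i)
  have h1 := chkAll_sound H hR c0 h0
  rw [l0] at h1
  exact no_root h1 (Nat.lt_succ_self (nat_lit 0)) r v hv

end Q13_0_8_3_0_2

namespace Q13_2_0_8_3_0

open Finset Classical

/-- degree, order and types -/
def C : Cl := ⟨nat_lit 4,nat_lit 13,[nat_lit 3,nat_lit 7,nat_lit 0,nat_lit 4,nat_lit 8]⟩

/-- the numbers of vertices of each type -/
def R : ℕ := nat_lit 204808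

/-- part of the table -/
noncomputable def T0 : Tr := (lf (nat_lit 1) (nat_lit 3))

/-- the table -/
noncomputable def T : Tr := T0

/-- part of the certificates -/
def L0 : List Prf := [(.br (nat_lit 0) (nat_lit 0) (.cons (.br (nat_lit 0) (nat_lit 0) (.cons (.br (nat_lit 0) (nat_lit 0) (.cons (.br (nat_lit 0) (nat_lit 1) (.cons (.br (nat_lit 1) (nat_lit 1) (.cons (.br (nat_lit 2) (nat_lit 1) (.cons (.br (nat_lit 3) (nat_lit 1) (.cons (.kr (nat_lit 1) (nat_lit 4294967296) (nat_lit 0) (nat_lit 1)) .nil)) .nil)) .nil)) .nil)) .nil)) .nil)) .nil))]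

theorem c0 : chkAll C T R L0 (nat_lit 0) = true := by decide +kernel

theorem l0 : (nat_lit 0) + L0.length = (nat_lit 1) := by decide +kernel

theorem r : isRoot (T.get (nat_lit 0)) (nat_lit 3) = true := by decide +kernel

theorem no {V : Type} [Fintype V] {Nb : V → Finset V} {x : V → ℤ} (H : Hyp C Nb x)
    (hR : ∀ t, (univ.filter (fun w => ty Nb x w = t)).card ≤ R / 16 ^ t % 16) (v : V)
    (hv : ty Nb x v = 3) : False := by
  have h0 : ∀ i < (nat_lit 0), ∀ φ, ¬ PEmb Nb x (T.get i) φ := fun i hi => absurd hi (Nat.not_lt_zero i)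
  have h1 := chkAll_sound H hR c0 h0
  rw [l0] at h1
  exact no_root h1 (Nat.lt_succ_self (nat_lit 0)) r v hv

end Q13_2_0_8_3_0

namespace Q13_2_0_9_1_1

open Finset Classical

/-- degree, order and types -/
def C : Cl := ⟨nat_lit 4,nat_lit 13,[nat_lit 3,nat_lit 7,nat_lit 0,nat_lit 4,nat_lit 8]⟩

/-- the numbers of vertices of each type -/
def R : ℕ := nat_lit 4295041033

/-- part of the table -/
noncomputable def T0 : Tr := (lf (nat_lit 1) (nat_lit 8))

/-- the table -/
noncomputable def T : Tr := T0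

/-- part of the certificates -/
def L0 : List Prf := [(.br (nat_lit 0) (nat_lit 1) (.cons (.br (nat_lit 0) (nat_lit 1) (.cons (.br (nat_lit 0) (nat_lit 1) .nil) .nil)) .nil))]

theorem c0 : chkAll C T R L0 (nat_lit 0) = true := by decide +kernel

theorem l0 : (nat_lit 0) + L0.length = (nat_lit 1) := by decide +kernel

theorem r : isRoot (T.get (nat_lit 0)) (nat_lit 8) = true := by decide +kernel

theorem no {V : Type} [Fintype V] {Nb : V → Finset V} {x : V → ℤ} (H : Hyp C Nb x)
    (hR : ∀ t, (univ.filter (fun w => ty Nb x w = t)).card ≤ R / 16 ^ t % 16) (v : V)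
    (hv : ty Nb x v = 8) : False := by
  have h0 : ∀ i < (nat_lit 0), ∀ φ, ¬ PEmb Nb x (T.get i) φ := fun i hi => absurd hi (Nat.not_lt_zero i)
  have h1 := chkAll_sound H hR c0 h0
  rw [l0] at h1
  exact no_root h1 (Nat.lt_succ_self (nat_lit 0)) r v hv

end Q13_2_0_9_1_1

namespace Q13_2_4_2_5_0

open Finset Classical

theorem r : isRoot (T.get (nat_lit 251)) (nat_lit 0) = true := by decide +kernel

theorem no {V : Type} [Fintype V] {Nb : V → Finset V} {x : V → ℤ} (H : Hyp C Nb x)
    (hR : ∀ t, (univ.filter (fun w => ty Nb x w = t)).card ≤ R / 16 ^ t % 16) (v : V)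
    (hv : ty Nb x v = 0) : False := by
  have h0 : ∀ i < (nat_lit 0), ∀ φ, ¬ PEmb Nb x (T.get i) φ := fun i hi => absurd hi (Nat.not_lt_zero i)
  have h1 := chkAll_sound H hR c0 h0
  rw [l0] at h1
  have h2 := chkAll_sound H hR c1 h1
  rw [l1] at h2
  have h3 := chkAll_sound H hR c2 h2
  rw [l2] at h3
  have h4 := chkAll_sound H hR c3 h3
  rw [l3] at h4
  have h5 := chkAll_sound H hR c4 h4
  rw [l4] at h5
  have h6 := chkAll_sound H hR c5 h5
  rw [l5] at h6
  have h7 := chkAll_sound H hR c6 h6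
  rw [l6] at h7
  exact no_root h7 (Nat.lt_succ_self (nat_lit 251)) r v hv

end Q13_2_4_2_5_0

namespace Q13_2_4_3_3_1

open Finset Classical

/-- degree, order and types -/
def C : Cl := ⟨nat_lit 4,nat_lit 13,[nat_lit 3,nat_lit 7,nat_lit 0,nat_lit 4,nat_lit 8]⟩

/-- the numbers of vertices of each type -/
def R : ℕ := nat_lit 5368913923

/-- part of the table -/
noncomputable def T0 : Tr := (.node (.node (.node (.node (.node (.node (lf (nat_lit 6) (nat_lit 5316923708908395623735905322212000276)) (lf (nat_lit 6) (nat_lit 5316912300052332438404222474308813072))) (.node (lf (nat_lit 7) (nat_lit 178405965575929210172233985067036913560453655)) (lf (nat_lit 13) (nat_lit 3978590248766682965745069194228575431950204584966441430488585660132906266545763832464448)))) (.node (.node (lf (nat_lit 4) (nat_lit 14167100293036399133479)) (lf (nat_lit 13) (nat_lit 3978590248766682965745069195810405069267648137452363848531311363268804699907868265022480))) (.node (lf (nat_lit 10) (nat_lit 842499256082515859303033557643844821307790720256407503869866674199))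 (lf (nat_lit 6) (nat_lit 10633835929732579714526849147823194387))))) (.node (.node (.node (lf (nat_lit 4) (nat_lit 18889507589777549951248)) (lf (nat_lit 13) (nat_lit 3978590248766682965745069195810405171035021848758428295720721803143700378280076547359808))) (.node (lf (nat_lit 10) (nat_lit 842499256082515859303033558005394814611227633807500623961028329495)) (lf (nat_lit 13) (nat_lit 3978590248766682965745069192521203759925027417203106707376100394953065585649347152839696)))) (.node (.node (lf (nat_lit 7) (nat_lit 178406156984782232489076373630002185623306391)) (lf (nat_lit 5) (nat_lit 237685186453074135798148759828))) (lf (nat_lit 5) (nat_lit 316913348967297659515523039376))))) (.node (.node (.node (.node (lf (nat_lit 4) (nat_lit 18889507589777549951776)) (lf (nat_lit 13) (nat_lit 3978590248766682965745069195810405171035021848755706036785354305107399938337655799283744))) (.node (lf (nat_lit 10) (nat_lit 842499256082515859303033558005394814611247052178478183942147047447)) (lf (nat_lit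 7) (nat_lit 178405965575940935940286096189000735986286871)))) (.node (.node (lf (nat_lit 10) (nat_lit 842499256082515859291258765561417767905391787201984648901218570279)) (lf (nat_lit 7) (nat_lit 178406156984782232489076373337268205280821399))) (.node (lf (nat_lit 5) (nat_lit 316913348967297940988553594400)) (lf (nat_lit 5) (nat_lit 633826013191572677982460838039))))) (.node (.node (.node (lf (nat_lit 4) (nat_lit 18889507589777549951252)) (lf (nat_lit 13) (nat_lit 3978590248766682965745069195810405171034930148077795848890293634969023924591962389644352))) (.node (lf (nat_lit 10) (nat_lit 842499256082515859303033557643844821307800467221985571956450164759)) (lf (nat_lit 8) (nat_lit 2993158631463600227431451953501469492904987176469011)))) (.node (.node (lf (nat_lit 4) (nat_lit 14167100293033983213991)) (lf (nat_lit 13) (nat_lit 3978590248766682965745069194228575431950250613709996983213417363924801467395784952939584))) (lf (nat_lit 5) (nat_lit 316912668946524407768501191072)))))) (.node (.node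 (.node (.node (.node (lf (nat_lit 5) (nat_lit 316913348967337347491735536144)) (lf (nat_lit 13) (nat_lit 3978590248766682965745069195810405171034976176830879307888911480338201817611605452914720))) (.node (lf (nat_lit 7) (nat_lit 178405965575929210172233985067036896112149015)) (lf (nat_lit 13) (nat_lit 3978590248766682965745069192521204532159108556655275789526760542030982479052203486512192)))) (.node (.node (lf (nat_lit 9) (nat_lit 50216868882329217153266594741428957456671125638246786142231)) (lf (nat_lit 12) (nat_lit 237142458484571156844202828157568280057170876112721195729453048900890630478103056))) (.node (lf (nat_lit 10) (nat_lit 842499256082515859303033557643844821307790720256407503904494878743)) (lf (nat_lit 5) (nat_lit 633826013191572677987024240791))))) (.node (.node (.node (lf (nat_lit 4) (nat_lit 18889507589777549951780)) (lf (nat_lit 13) (nat_lit 3978590248766682965745069195810405171035021848742052206812651639589525475297422702183488))) (.node (lf (nat_lit 10) (nat_lit 842499256082515859303033557643844821307800467220828146852215959607))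 (lf (nat_lit 12) (nat_lit 237142458484571156844202827961516604419054235053247613154417299923483466246652432)))) (.node (.node (lf (nat_lit 4) (nat_lit 14167100293033983214519)) (lf (nat_lit 13) (nat_lit 3978590248766682965745069194228575431950342314374253341135775368545303018101245265478720))) (lf (nat_lit 10) (nat_lit 842499256082515859303033557643844799757730516376507678434233712663))))) (.node (.node (.node (.node (lf (nat_lit 5) (nat_lit 316913348967337347482877166096)) (lf (nat_lit 13) (nat_lit 3978590248766682965745069195810405171035021848744795733395951696204234512426893612285984))) (.node (lf (nat_lit 10) (nat_lit 842499256082515859303033558005394814611247052177320758837912829975)) (lf (nat_lit 13) (nat_lit 3978590248766682965745069192521203759925027417203106707376100394953065585651546444563488)))) (.node (.node (lf (nat_lit 10) (nat_lit 842499256082515859291258765561417767905391787199674302292377501719)) (lf (nat_lit 5) (nat_lit 633825994302065369684400668819))) (.node (lf (nat_lit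 4) (nat_lit 18889507589775201141680)) (lf (nat_lit 1) (nat_lit 8))))) (.node (.node (.node (lf (nat_lit 4) (nat_lit 14167141106912535249699)) (lf (nat_lit 13) (nat_lit 3978590248766682965745069195810405069267648137452363848531311363268804699910067556746272))) (.node (lf (nat_lit 10) (nat_lit 842499256082515859303033557643844821307810138627966028237544390679)) (lf (nat_lit 2) (nat_lit 134217875)))) (.node (.node (lf (nat_lit 7) (nat_lit 178405965575929210172233985359770923967709719)) (lf (nat_lit 13) (nat_lit 3978590248766682965745069194228575431950204584971907216007253234202286721177636609360960))) (lf (nat_lit 5) (nat_lit 316912668946524407759642821024)))))))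

/-- the table -/
noncomputable def T : Tr := T0

/-- part of the certificates -/
def L0 : List Prf := [(.br (nat_lit 3) (nat_lit 0) (.cons (.br (nat_lit 4) (nat_lit 0) .nil) .nil)),
 (.br (nat_lit 2) (nat_lit 0) (.cons (.br (nat_lit 3) (nat_lit 0) (.cons (.rf (nat_lit 0) (nat_lit 172066848)) (.cons (.br (nat_lit 3) (nat_lit 0) (.cons (.rf (nat_lit 0) (nat_lit 172066848)) .nil)) .nil))) .nil)),
 (.br (nat_lit 2) (nat_lit 0) (.cons (.rf (nat_lit 1) (nat_lit 4294688)) (.cons (.br (nat_lit 2) (nat_lit 0) (.cons (.rf (nat_lit 1) (nat_lit 5343264)) .nil)) .nil))),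
 (.br (nat_lit 2) (nat_lit 0) (.cons (.rf (nat_lit 2) (nat_lit 100384)) (.cons (.br (nat_lit 2) (nat_lit 0) (.cons (.rf (nat_lit 2) (nat_lit 100384)) .nil)) .nil))),
 (.br (nat_lit 2) (nat_lit 0) (.cons (.rf (nat_lit 2) (nat_lit 100384)) (.cons (.rf (nat_lit 3) (nat_lit 4294688)) (.cons (.br (nat_lit 2) (nat_lit 0) (.cons (.rf (nat_lit 2) (nat_lit 100384)) (.cons (.rf (nat_lit 3) (nat_lit 5343264)) .nil))) .nil)))),
 (.br (nat_lit 2) (nat_lit 0) (.cons (.br (nat_lit 4) (nat_lit 0) (.cons (.br (nat_lit 4) (nat_lit 0) .nil) .nil)) .nil)),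
 (.br (nat_lit 2) (nat_lit 0) (.cons (.rf (nat_lit 5) (nat_lit 100384)) (.cons (.br (nat_lit 2) (nat_lit 0) (.cons (.rf (nat_lit 5) (nat_lit 100384)) (.cons (.br (nat_lit 2) (nat_lit 0) (.cons (.rf (nat_lit 5) (nat_lit 100384)) .nil)) .nil))) .nil))),
 (.br (nat_lit 1) (nat_lit 0) (.cons (.br (nat_lit 2) (nat_lit 0) (.cons (.kr (nat_lit 256) (nat_lit 65536) (nat_lit 1) (nat_lit 0)) (.cons (.rf (nat_lit 4) (nat_lit 168001)) (.cons (.rf (nat_lit 6) (nat_lit 168001)) .nil)))) (.cons (.br (nat_lit 2) (nat_lit 0) (.cons (.kr (nat_lit 256) (nat_lit 65536) (nat_lit 1) (nat_lit 0)) (.cons (.rf (nat_lit 6) (nat_lit 136226)) .nil))) .nil))),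
 (.br (nat_lit 2) (nat_lit 1) (.cons (.br (nat_lit 3) (nat_lit 1) (.cons (.br (nat_lit 4) (nat_lit 1) (.cons (.br (nat_lit 5) (nat_lit 1) .nil) .nil)) (.cons (.br (nat_lit 4) (nat_lit 1) (.cons (.br (nat_lit 4) (nat_lit 1) .nil) .nil)) .nil))) .nil)),
 (.br (nat_lit 6) (nat_lit 1) (.cons (.kr (nat_lit 281474976710912) (nat_lit 1103806595072) (nat_lit 1) (nat_lit 0)) .nil)),
 (.br (nat_lit 6) (nat_lit 1) (.cons (.br (nat_lit 7) (nat_lit 1) (.cons (.kr (nat_lit 72339069014638848) (nat_lit 4722366483973451808768) (nat_lit 1) (nat_lit 0)) .nil)) .nil)),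
 (.br (nat_lit 5) (nat_lit 1) (.cons (.rf (nat_lit 8) (nat_lit 234625)) (.cons (.br (nat_lit 6) (nat_lit 1) (.cons (.rf (nat_lit 10) (nat_lit 325702574508064)) (.cons (.br (nat_lit 6) (nat_lit 1) (.cons (.rf (nat_lit 10) (nat_lit 325702574508064)) .nil)) .nil))) .nil))),
 (.br (nat_lit 4) (nat_lit 1) (.cons (.br (nat_lit 6) (nat_lit 1) (.cons (.kr (nat_lit 1) (nat_lit 1099511627776) (nat_lit 0) (nat_lit 1)) (.cons (.br (nat_lit 6) (nat_lit 1) (.cons (.kr (nat_lit 1) (nat_lit 1099511627776) (nat_lit 0) (nat_lit 1)) (.cons (.br (nat_lit 6) (nat_lit 1) (.cons (.kr (nat_lit 1) (nat_lit 1099511627776) (nat_lit 0) (nat_lit 1)) .nil)) .nil))) .nil))) (.cons (.br (nat_lit 5) (nat_lit 1) (.cons (.rf (nat_lit 8) (nat_lit 201857)) (.cons (.br (nat_lit 5) (nat_lit 1) (.cons (.rf (nat_lit 8) (nat_lit 201857)) (.cons (.br (nat_lit 6) (nat_lit 1) (.cons (.rf (nat_lit 9) (nat_lit 9043225708576)) (.cons (.rf (nat_lit 9) (nat_lit 7978073819168)) .nil))) .nil))) .nil))) (.cons (.br (nat_lit 7) (nat_lit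 0) (.cons (.br (nat_lit 8) (nat_lit 1) (.cons (.br (nat_lit 5) (nat_lit 1) (.cons (.rf (nat_lit 11) (nat_lit 325702574508064)) (.cons (.rf (nat_lit 8) (nat_lit 234625)) (.cons (.br (nat_lit 5) (nat_lit 1) (.cons (.rf (nat_lit 11) (nat_lit 325702574508064)) (.cons (.rf (nat_lit 8) (nat_lit 234625)) .nil))) .nil)))) .nil)) .nil)) .nil)))),
 (.br (nat_lit 2) (nat_lit 1) (.cons (.br (nat_lit 4) (nat_lit 1) (.cons (.br (nat_lit 4) (nat_lit 1) .nil) .nil)) .nil)),
 (.br (nat_lit 2) (nat_lit 1) (.cons (.rf (nat_lit 13) (nat_lit 100384)) (.cons (.br (nat_lit 2) (nat_lit 1) (.cons (.rf (nat_lit 13) (nat_lit 100384)) (.cons (.br (nat_lit 2) (nat_lit 1) (.cons (.rf (nat_lit 13) (nat_lit 100384)) .nil)) .nil))) .nil))),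
 (.br (nat_lit 3) (nat_lit 1) (.cons (.br (nat_lit 4) (nat_lit 1) (.cons (.kr (nat_lit 16777216) (nat_lit 4294967296) (nat_lit 3) (nat_lit 0)) .nil)) .nil)),
 (.br (nat_lit 5) (nat_lit 1) (.cons (.br (nat_lit 3) (nat_lit 1) (.cons (.rf (nat_lit 15) (nat_lit 6614517792)) (.cons (.br (nat_lit 3) (nat_lit 1) (.cons (.rf (nat_lit 15) (nat_lit 6614517792)) .nil)) .nil))) (.cons (.rf (nat_lit 8) (nat_lit 201793)) .nil))),
 (.br (nat_lit 5) (nat_lit 1) (.cons (.rf (nat_lit 16) (nat_lit 6614517792)) (.cons (.rf (nat_lit 16) (nat_lit 6613501984)) (.cons (.rf (nat_lit 8) (nat_lit 201793)) .nil)))),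
 (.br (nat_lit 5) (nat_lit 1) (.cons (.kr (nat_lit 18446744073726328833) (nat_lit 1099511758848) (nat_lit 0) (nat_lit 1)) .nil)),
 (.br (nat_lit 5) (nat_lit 1) (.cons (.rf (nat_lit 18) (nat_lit 325702574508064)) (.cons (.rf (nat_lit 18) (nat_lit 249904988686464)) .nil))),
 (.br (nat_lit 5) (nat_lit 1) (.cons (.rf (nat_lit 19) (nat_lit 325702574508064)) (.cons (.br (nat_lit 5) (nat_lit 1) (.cons (.kr (nat_lit 18446744073726328833) (nat_lit 1099511758848) (nat_lit 0) (nat_lit 1)) .nil)) .nil))),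
 (.br (nat_lit 6) (nat_lit 1) (.cons (.kr (nat_lit 18446744073709551617) (nat_lit 281474976776192) (nat_lit 0) (nat_lit 1)) (.cons (.br (nat_lit 9) (nat_lit 1) (.cons (.kr (nat_lit 36893488147452657666) (nat_lit 4722366764344622121216) (nat_lit 0) (nat_lit 4)) .nil)) .nil))),
 (.br (nat_lit 5) (nat_lit 1) (.cons (.kr (nat_lit 16777217) (nat_lit 1099511693312) (nat_lit 0) (nat_lit 1)) (.cons (.br (nat_lit 6) (nat_lit 1) (.cons (.rf (nat_lit 21) (nat_lit 249903948499072)) (.cons (.rf (nat_lit 21) (nat_lit 325702574508064)) .nil))) .nil))),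
 (.br (nat_lit 6) (nat_lit 1) (.cons (.br (nat_lit 6) (nat_lit 1) (.cons (.kr (nat_lit 18446744073726328833) (nat_lit 281474976841728) (nat_lit 0) (nat_lit 1)) .nil)) (.cons (.br (nat_lit 6) (nat_lit 1) (.cons (.kr (nat_lit 18446744073726328833) (nat_lit 281474976841728) (nat_lit 0) (nat_lit 1)) .nil)) .nil))),
 (.br (nat_lit 5) (nat_lit 1) (.cons (.br (nat_lit 5) (nat_lit 1) (.cons (.kr (nat_lit 16777217) (nat_lit 1099511693312) (nat_lit 0) (nat_lit 1)) (.cons (.rf (nat_lit 8) (nat_lit 300161)) .nil))) (.cons (.br (nat_lit 5) (nat_lit 1) (.cons (.kr (nat_lit 16777217) (nat_lit 1099511693312) (nat_lit 0) (nat_lit 1)) (.cons (.rf (nat_lit 8) (nat_lit 300161)) .nil))) (.cons (.rf (nat_lit 8) (nat_lit 300161)) .nil)))),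
 (.br (nat_lit 4) (nat_lit 1) (.cons (.rf (nat_lit 14) (nat_lit 170113)) (.cons (.br (nat_lit 5) (nat_lit 1) (.cons (.rf (nat_lit 8) (nat_lit 201857)) (.cons (.rf (nat_lit 22) (nat_lit 325702574508064)) (.cons (.br (nat_lit 5) (nat_lit 1) (.cons (.rf (nat_lit 8) (nat_lit 201857)) (.cons (.rf (nat_lit 22) (nat_lit 325702574508064)) .nil))) .nil)))) (.cons (.br (nat_lit 5) (nat_lit 1) (.cons (.rf (nat_lit 23) (nat_lit 325702574508064)) (.cons (.rf (nat_lit 8) (nat_lit 234625)) (.cons (.br (nat_lit 5) (nat_lit 1) (.cons (.rf (nat_lit 23) (nat_lit 325702574508064)) (.cons (.rf (nat_lit 8) (nat_lit 234625)) .nil))) .nil)))) (.cons (.rf (nat_lit 24) (nat_lit 325702574508064)) .nil))))),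
 (.br (nat_lit 4) (nat_lit 0) (.cons (.br (nat_lit 4) (nat_lit 0) .nil) .nil)),
 (.br (nat_lit 2) (nat_lit 0) (.cons (.br (nat_lit 3) (nat_lit 0) (.cons (.rf (nat_lit 26) (nat_lit 4294688)) (.cons (.br (nat_lit 4) (nat_lit 0) (.cons (.br (nat_lit 4) (nat_lit 0) .nil) .nil)) .nil))) .nil)),
 (.br (nat_lit 1) (nat_lit 0) (.cons (.rf (nat_lit 6) (nat_lit 102432)) (.cons (.br (nat_lit 3) (nat_lit 0) (.cons (.rf (nat_lit 27) (nat_lit 134176)) (.cons (.br (nat_lit 3) (nat_lit 0) (.cons (.rf (nat_lit 27) (nat_lit 134176)) (.cons (.br (nat_lit 4) (nat_lit 0) (.cons (.rf (nat_lit 26) (nat_lit 5377056)) (.cons (.rf (nat_lit 26) (nat_lit 6425632)) .nil))) .nil))) .nil))) (.cons (.rf (nat_lit 4) (nat_lit 167968)) .nil)))),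
 (.br (nat_lit 2) (nat_lit 0) (.cons (.br (nat_lit 3) (nat_lit 0) (.cons (.br (nat_lit 1) (nat_lit 1) (.cons (.br (nat_lit 5) (nat_lit 1) (.cons (.rf (nat_lit 19) (nat_lit 325702574508064)) (.cons (.rf (nat_lit 20) (nat_lit 325702574508064)) (.cons (.rf (nat_lit 20) (nat_lit 249904988686464)) .nil)))) (.cons (.rf (nat_lit 25) (nat_lit 325702574508064)) (.cons (.rf (nat_lit 25) (nat_lit 325701534320672)) (.cons (.br (nat_lit 4) (nat_lit 1) (.cons (.rf (nat_lit 24) (nat_lit 249904988686464)) (.cons (.rf (nat_lit 24) (nat_lit 249903948499072)) (.cons (.rf (nat_lit 14) (nat_lit 234625)) (.cons (.rf (nat_lit 17) (nat_lit 9905016864)) .nil))))) (.cons (.br (nat_lit 4) (nat_lit 1) (.cons (.rf (nat_lit 25) (nat_lit 249904988686464)) (.cons (.rf (nat_lit 25) (nat_lit 249903948499072)) (.cons (.rf (nat_lit 17) (nat_lit 7824642080)) (.cons (.rf (nat_lit 14) (nat_lit 300161)) .nil))))) .nil)))))) (.cons (.rf (nat_lit 6) (nat_lit 272451)) .nil))) (.cons (.rf (nat_lit 28) (nat_lit 10752098)) .nil))),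
 (.br (nat_lit 2) (nat_lit 0) (.cons (.br (nat_lit 3) (nat_lit 0) (.cons (.kr (nat_lit 16777216) (nat_lit 4294967296) (nat_lit 3) (nat_lit 0)) (.cons (.br (nat_lit 4) (nat_lit 0) (.cons (.br (nat_lit 5) (nat_lit 0) .nil) .nil)) .nil))) (.cons (.br (nat_lit 3) (nat_lit 0) (.cons (.br (nat_lit 4) (nat_lit 0) (.cons (.br (nat_lit 5) (nat_lit 0) .nil) .nil)) (.cons (.br (nat_lit 4) (nat_lit 0) (.cons (.br (nat_lit 4) (nat_lit 0) .nil) .nil)) .nil))) .nil))),
 (.br (nat_lit 2) (nat_lit 0) (.cons (.rf (nat_lit 30) (nat_lit 4294688)) (.cons (.rf (nat_lit 30) (nat_lit 3278880)) (.cons (.br (nat_lit 2) (nat_lit 0) (.cons (.rf (nat_lit 30) (nat_lit 4294688)) (.cons (.rf (nat_lit 30) (nat_lit 3278880)) .nil))) .nil)))),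
 (.br (nat_lit 2) (nat_lit 0) (.cons (.rf (nat_lit 31) (nat_lit 4293696)) (.cons (.rf (nat_lit 31) (nat_lit 5341249)) .nil))),
 (.br (nat_lit 6) (nat_lit 1) (.cons (.kr (nat_lit 309485009821626543701491968) (nat_lit 1208925819615732981301248) (nat_lit 1) (nat_lit 0)) .nil)),
 (.br (nat_lit 6) (nat_lit 1) (.cons (.br (nat_lit 7) (nat_lit 1) (.cons (.kr (nat_lit 618970019715029206464200960) (nat_lit 2422574005713231801221120) (nat_lit 1) (nat_lit 0)) .nil)) .nil)),
 (.br (nat_lit 5) (nat_lit 1) (.cons (.rf (nat_lit 8) (nat_lit 234625)) (.cons (.br (nat_lit 6) (nat_lit 1) (.cons (.rf (nat_lit 34) (nat_lit 14242959524133701664)) (.cons (.br (nat_lit 6) (nat_lit 1) (.cons (.rf (nat_lit 34) (nat_lit 14242959524133701664)) .nil)) .nil))) .nil))),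
 (.br (nat_lit 7) (nat_lit 1) (.cons (.zr (nat_lit 621387908175407543251632130) (nat_lit 237684487542865071478476570624) (nat_lit 5) (nat_lit 12)) .nil)),
 (.br (nat_lit 5) (nat_lit 1) (.cons (.br (nat_lit 6) (nat_lit 1) (.cons (.rf (nat_lit 36) (nat_lit 14242959524133701664)) (.cons (.br (nat_lit 6) (nat_lit 1) (.cons (.rf (nat_lit 36) (nat_lit 14242959524133701664)) .nil)) .nil))) (.cons (.rf (nat_lit 8) (nat_lit 300161)) .nil))),
 (.br (nat_lit 4) (nat_lit 1) (.cons (.rf (nat_lit 14) (nat_lit 170113)) (.cons (.br (nat_lit 5) (nat_lit 1) (.cons (.rf (nat_lit 8) (nat_lit 201857)) (.cons (.br (nat_lit 5) (nat_lit 1) (.cons (.rf (nat_lit 8) (nat_lit 201857)) (.cons (.br (nat_lit 6) (nat_lit 1) (.cons (.rf (nat_lit 33) (nat_lit 14242959524133701664)) (.cons (.rf (nat_lit 33) (nat_lit 14242889224109000736)) .nil))) .nil))) (.cons (.br (nat_lit 5) (nat_lit 1) (.cons (.rf (nat_lit 8) (nat_lit 201857)) (.cons (.br (nat_lit 6) (nat_lit 1) (.cons (.rf (nat_lit 33) (nat_lit 14242959524133701664))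 (.cons (.rf (nat_lit 33) (nat_lit 14242889224109000736)) .nil))) .nil))) .nil)))) (.cons (.br (nat_lit 5) (nat_lit 1) (.cons (.rf (nat_lit 35) (nat_lit 14242959524133701664)) (.cons (.rf (nat_lit 8) (nat_lit 234625)) (.cons (.br (nat_lit 5) (nat_lit 1) (.cons (.rf (nat_lit 35) (nat_lit 14242959524133701664)) (.cons (.rf (nat_lit 8) (nat_lit 234625)) .nil))) .nil)))) (.cons (.br (nat_lit 5) (nat_lit 1) (.cons (.rf (nat_lit 37) (nat_lit 14242959524133701664)) (.cons (.br (nat_lit 5) (nat_lit 1) (.cons (.rf (nat_lit 37) (nat_lit 14242959524133701664)) (.cons (.rf (nat_lit 8) (nat_lit 300161)) .nil))) (.cons (.rf (nat_lit 8) (nat_lit 300161)) .nil)))) .nil))))),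
 (.br (nat_lit 10) (nat_lit 0) (.cons (.br (nat_lit 11) (nat_lit 0) (.cons (.br (nat_lit 1) (nat_lit 1) (.cons (.kr (nat_lit 309485009821345068724781312) (nat_lit 1208925819614633469673472) (nat_lit 1) (nat_lit 0)) (.cons (.rf (nat_lit 38) (nat_lit 14242959524133701664)) (.cons (.rf (nat_lit 38) (nat_lit 14242959523093514272)) (.cons (.br (nat_lit 4) (nat_lit 1) (.cons (.rf (nat_lit 38) (nat_lit 14207980829435758720)) (.cons (.rf (nat_lit 38) (nat_lit 14207980828395571328)) (.cons (.rf (nat_lit 14) (nat_lit 234625)) (.cons (.rf (nat_lit 17) (nat_lit 9905016864)) .nil))))) (.cons (.br (nat_lit 4) (nat_lit 1) (.cons (.rf (nat_lit 38) (nat_lit 14207980829435758720)) (.cons (.rf (nat_lit 38) (nat_lit 14207980828395571328)) (.cons (.rf (nat_lit 17) (nat_lit 7824642080)) (.cons (.rf (nat_lit 14) (nat_lit 300161)) .nil))))) .nil)))))) .nil)) .nil)),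
 (.br (nat_lit 8) (nat_lit 0) (.cons (.rf (nat_lit 31) (nat_lit 11865346)) (.cons (.br (nat_lit 10) (nat_lit 0) (.cons (.rf (nat_lit 39) (nat_lit 14242959524133701664)) (.cons (.br (nat_lit 10) (nat_lit 0) (.cons (.rf (nat_lit 39) (nat_lit 14242959524133701664)) .nil)) .nil))) .nil))),
 (.br (nat_lit 3) (nat_lit 0) (.cons (.rf (nat_lit 28) (nat_lit 10552579)) (.cons (.rf (nat_lit 31) (nat_lit 11870306)) (.cons (.br (nat_lit 8) (nat_lit 0) (.cons (.rf (nat_lit 32) (nat_lit 414523490)) (.cons (.rf (nat_lit 40) (nat_lit 14242959524133701664)) (.cons (.br (nat_lit 8) (nat_lit 0) (.cons (.rf (nat_lit 31) (nat_lit 12912899)) (.cons (.rf (nat_lit 40) (nat_lit 14242959524133701664)) .nil))) .nil)))) .nil)))),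
 (.br (nat_lit 3) (nat_lit 1) (.cons (.br (nat_lit 1) (nat_lit 1) (.cons (.kr (nat_lit 256) (nat_lit 4294967296) (nat_lit 1) (nat_lit 0)) (.cons (.rf (nat_lit 12) (nat_lit 6614517792)) (.cons (.rf (nat_lit 12) (nat_lit 5574330400)) (.cons (.br (nat_lit 4) (nat_lit 1) (.cons (.rf (nat_lit 12) (nat_lit 6611372160)) (.cons (.rf (nat_lit 12) (nat_lit 5571184768)) (.cons (.rf (nat_lit 14) (nat_lit 234625)) (.cons (.rf (nat_lit 17) (nat_lit 8831275040)) .nil))))) .nil))))) (.cons (.br (nat_lit 4) (nat_lit 0) (.cons (.br (nat_lit 8) (nat_lit 1) (.cons (.br (nat_lit 2) (nat_lit 0) (.cons (.rf (nat_lit 29) (nat_lit 325702574508064)) (.cons (.rf (nat_lit 29) (nat_lit 249904988686464)) (.cons (.br (nat_lit 2) (nat_lit 0) (.cons (.rf (nat_lit 28) (nat_lit 10752098)) (.cons (.rf (nat_lit 28) (nat_lit 10585346)) (.cons (.br (nat_lit 3) (nat_lit 0) (.cons (.br (nat_lit 3) (nat_lit 0) (.cons (.rf (nat_lit 28) (nat_lit 10552579)) (.cons (.rf (nat_lit 28) (nat_lit 11601155)) (.cons (.rf (nat_lit 28) (nat_lit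 12649731)) .nil)))) (.cons (.rf (nat_lit 41) (nat_lit 407901468851537952)) (.cons (.rf (nat_lit 41) (nat_lit 372998571739416608)) (.cons (.br (nat_lit 3) (nat_lit 0) (.cons (.rf (nat_lit 28) (nat_lit 12649731)) (.cons (.rf (nat_lit 41) (nat_lit 407901468851537952)) (.cons (.rf (nat_lit 41) (nat_lit 372998571739416608)) .nil)))) .nil))))) .nil)))) .nil)))) .nil)) .nil)) .nil))),
 (.br (nat_lit 0) (nat_lit 1) (.cons (.br (nat_lit 0) (nat_lit 1) (.cons (.br (nat_lit 2) (nat_lit 1) (.cons (.rf (nat_lit 42) (nat_lit 6614517792)) (.cons (.br (nat_lit 3) (nat_lit 1) (.cons (.rf (nat_lit 42) (nat_lit 6614486048)) (.cons (.br (nat_lit 4) (nat_lit 0) (.cons (.br (nat_lit 4) (nat_lit 0) .nil) .nil)) .nil))) .nil))) .nil)) .nil)),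
 (.br (nat_lit 1) (nat_lit 0) (.cons (.rf (nat_lit 7) (nat_lit 100384)) (.cons (.rf (nat_lit 28) (nat_lit 5308545)) .nil))),
 (.br (nat_lit 6) (nat_lit 1) (.cons (.zr (nat_lit 158458742917061392592856547330) (nat_lit 928455029536374279534280704) (nat_lit 5) (nat_lit 11)) .nil)),
 (.br (nat_lit 4) (nat_lit 1) (.cons (.kr (nat_lit 1) (nat_lit 4294967296) (nat_lit 0) (nat_lit 1)) (.cons (.br (nat_lit 5) (nat_lit 1) (.cons (.rf (nat_lit 45) (nat_lit 14242959524133701664)) (.cons (.br (nat_lit 5) (nat_lit 1) (.cons (.rf (nat_lit 45) (nat_lit 14242959524133701664)) .nil)) .nil))) .nil))),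
 (.br (nat_lit 4) (nat_lit 1) (.cons (.rf (nat_lit 8) (nat_lit 168161)) (.cons (.rf (nat_lit 46) (nat_lit 14242959524133701664)) (.cons (.br (nat_lit 4) (nat_lit 1) (.cons (.ev (nat_lit 79537647542604484334328021248) (nat_lit 1)) (.cons (.rf (nat_lit 46) (nat_lit 14242959524133701664)) .nil))) .nil)))),
 (.br (nat_lit 7) (nat_lit 1) (.cons (.rf (nat_lit 14) (nat_lit 136417)) (.cons (.rf (nat_lit 47) (nat_lit 14242959524133701664)) (.cons (.rf (nat_lit 47) (nat_lit 14242959523093514272)) (.cons (.rf (nat_lit 17) (nat_lit 9804356640)) .nil))))),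
 (.br (nat_lit 4) (nat_lit 1) (.cons (.br (nat_lit 4) (nat_lit 1) (.cons (.zr (nat_lit 159075295048171365337456050176) (nat_lit 3626832871133702690701315) (nat_lit 5) (nat_lit 10)) .nil)) (.cons (.br (nat_lit 4) (nat_lit 1) (.cons (.zr (nat_lit 159075295048171365337456050176) (nat_lit 3626832871133702690701315) (nat_lit 5) (nat_lit 10)) .nil)) .nil))),
 (.br (nat_lit 5) (nat_lit 1) (.cons (.rf (nat_lit 17) (nat_lit 2353108000)) (.cons (.rf (nat_lit 17) (nat_lit 3426817056)) (.cons (.rf (nat_lit 17) (nat_lit 4499510304)) (.cons (.rf (nat_lit 14) (nat_lit 198817)) .nil))))),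
 (.br (nat_lit 10) (nat_lit 0) (.cons (.br (nat_lit 11) (nat_lit 0) (.cons (.br (nat_lit 1) (nat_lit 1) (.cons (.rf (nat_lit 48) (nat_lit 14242959524133701664)) (.cons (.rf (nat_lit 48) (nat_lit 14242959524101195808)) (.cons (.rf (nat_lit 48) (nat_lit 14242959523028502560)) (.cons (.br (nat_lit 4) (nat_lit 1) (.cons (.rf (nat_lit 49) (nat_lit 14242959524133701664)) (.cons (.rf (nat_lit 49) (nat_lit 14242959523093514272)) (.cons (.br (nat_lit 4) (nat_lit 1) (.cons (.rf (nat_lit 49) (nat_lit 14242959524133701664)) (.cons (.rf (nat_lit 49) (nat_lit 14242959523093514272)) .nil))) .nil)))) (.cons (.rf (nat_lit 50) (nat_lit 9905016864)) .nil)))))) .nil)) .nil)),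
 (.br (nat_lit 8) (nat_lit 0) (.cons (.rf (nat_lit 31) (nat_lit 11865346)) (.cons (.br (nat_lit 10) (nat_lit 0) (.cons (.rf (nat_lit 51) (nat_lit 14242959524133701664)) (.cons (.rf (nat_lit 51) (nat_lit 13126066816545786912)) .nil))) .nil))),
 (.br (nat_lit 3) (nat_lit 0) (.cons (.rf (nat_lit 28) (nat_lit 10552579)) (.cons (.rf (nat_lit 31) (nat_lit 11870306)) (.cons (.br (nat_lit 8) (nat_lit 0) (.cons (.rf (nat_lit 32) (nat_lit 414523490)) (.cons (.rf (nat_lit 52) (nat_lit 14242959524133701664)) (.cons (.rf (nat_lit 52) (nat_lit 13126066816545786912)) .nil)))) .nil)))),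
 (.br (nat_lit 3) (nat_lit 1) (.cons (.br (nat_lit 7) (nat_lit 0) (.cons (.br (nat_lit 8) (nat_lit 1) (.cons (.br (nat_lit 2) (nat_lit 0) (.cons (.rf (nat_lit 7) (nat_lit 232513)) (.cons (.rf (nat_lit 44) (nat_lit 8621121)) (.cons (.br (nat_lit 2) (nat_lit 0) (.cons (.rf (nat_lit 28) (nat_lit 10755170)) (.cons (.rf (nat_lit 28) (nat_lit 10585346)) (.cons (.br (nat_lit 3) (nat_lit 0) (.cons (.rf (nat_lit 44) (nat_lit 8620129)) (.cons (.rf (nat_lit 53) (nat_lit 407901468851537952)) (.cons (.rf (nat_lit 53) (nat_lit 372998571739416608)) (.cons (.br (nat_lit 3) (nat_lit 0) (.cons (.rf (nat_lit 28) (nat_lit 12649731)) (.cons (.rf (nat_lit 53) (nat_lit 407901468851537952)) (.cons (.rf (nat_lit 53) (nat_lit 372998571739416608)) .nil)))) .nil))))) .nil)))) .nil)))) .nil)) .nil)) (.cons (.br (nat_lit 7) (nat_lit 0) (.cons (.br (nat_lit 7) (nat_lit 0) .nil) .nil)) .nil))),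
 (.br (nat_lit 1) (nat_lit 0) (.cons (.br (nat_lit 1) (nat_lit 0) (.cons (.br (nat_lit 0) (nat_lit 1) (.cons (.rf (nat_lit 43) (nat_lit 4294688)) (.cons (.br (nat_lit 0) (nat_lit 1) (.cons (.rf (nat_lit 43) (nat_lit 5343264)) (.cons (.br (nat_lit 0) (nat_lit 1) (.cons (.rf (nat_lit 43) (nat_lit 6391840)) (.cons (.br (nat_lit 2) (nat_lit 1) (.cons (.rf (nat_lit 54) (nat_lit 247132686368)) (.cons (.br (nat_lit 3) (nat_lit 1) (.cons (.rf (nat_lit 54) (nat_lit 281492392992)) .nil)) .nil))) .nil))) .nil))) .nil))) .nil)) .nil)),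
 (.br (nat_lit 5) (nat_lit 0) (.cons (.br (nat_lit 6) (nat_lit 1) (.cons (.rf (nat_lit 50) (nat_lit 1312917664)) .nil)) .nil)),
 (.br (nat_lit 1) (nat_lit 1) (.cons (.kr (nat_lit 1) (nat_lit 256) (nat_lit 0) (nat_lit 2)) (.cons (.rf (nat_lit 56) (nat_lit 172066848)) .nil))),
 (.br (nat_lit 1) (nat_lit 1) (.cons (.rf (nat_lit 57) (nat_lit 4294688)) (.cons (.rf (nat_lit 57) (nat_lit 3278880)) (.cons (.rf (nat_lit 56) (nat_lit 172066848)) .nil)))),
 (.br (nat_lit 0) (nat_lit 1) (.cons (.rf (nat_lit 55) (nat_lit 32)) (.cons (.br (nat_lit 0) (nat_lit 1) (.cons (.rf (nat_lit 55) (nat_lit 64)) (.cons (.br (nat_lit 0) (nat_lit 1) (.cons (.rf (nat_lit 55) (nat_lit 96)) (.cons (.br (nat_lit 0) (nat_lit 1) (.cons (.rf (nat_lit 55) (nat_lit 128)) (.cons (.br (nat_lit 1) (nat_lit 1) (.cons (.rf (nat_lit 58) (nat_lit 4294688)) (.cons (.rf (nat_lit 58) (nat_lit 4262944)) (.cons (.rf (nat_lit 58) (nat_lit 3215392)) (.cons (.rf (nat_lit 56) (nat_lit 172066848)) .nil))))) .nil))) .nil))) .nil))) .nil)))]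

theorem c0 : chkAll C T R L0 (nat_lit 0) = true := by decide +kernel

theorem l0 : (nat_lit 0) + L0.length = (nat_lit 60) := by decide +kernel

theorem r : isRoot (T.get (nat_lit 59)) (nat_lit 8) = true := by decide +kernel

theorem no {V : Type} [Fintype V] {Nb : V → Finset V} {x : V → ℤ} (H : Hyp C Nb x)
    (hR : ∀ t, (univ.filter (fun w => ty Nb x w = t)).card ≤ R / 16 ^ t % 16) (v : V)
    (hv : ty Nb x v = 8) : False := by
  have h0 : ∀ i < (nat_lit 0), ∀ φ, ¬ PEmb Nb x (T.get i) φ := fun i hi => absurd hi (Nat.not_lt_zero i)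
  have h1 := chkAll_sound H hR c0 h0
  rw [l0] at h1
  exact no_root h1 (Nat.lt_succ_self (nat_lit 59)) r v hv

end Q13_2_4_3_3_1

namespace Q13_2_4_4_1_2

open Finset Classical

/-- degree, order and types -/
def C : Cl := ⟨nat_lit 4,nat_lit 13,[nat_lit 3,nat_lit 7,nat_lit 0,nat_lit 4,nat_lit 8]⟩

/-- the numbers of vertices of each type -/
def R : ℕ := nat_lit 9663750148

/-- part of the table -/
noncomputable def T0 : Tr := (.node (.node (lf (nat_lit 5) (nat_lit 316913330077947977206819979536)) (lf (nat_lit 1) (nat_lit 4))) (lf (nat_lit 3) (nat_lit 1125902322762144)))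

/-- the table -/
noncomputable def T : Tr := T0

/-- part of the certificates -/
def L0 : List Prf := [(.br (nat_lit 2) (nat_lit 0) (.cons (.kr (nat_lit 256) (nat_lit 65536) (nat_lit 1) (nat_lit 0)) .nil)),
 (.br (nat_lit 1) (nat_lit 0) (.cons (.br (nat_lit 1) (nat_lit 0) (.cons (.br (nat_lit 2) (nat_lit 0) (.cons (.rf (nat_lit 0) (nat_lit 4294688)) (.cons (.rf (nat_lit 0) (nat_lit 3278880)) .nil))) .nil)) .nil)),
 (.br (nat_lit 0) (nat_lit 0) (.cons (.br (nat_lit 0) (nat_lit 0) (.cons (.br (nat_lit 1) (nat_lit 0) (.cons (.rf (nat_lit 1) (nat_lit 2080)) (.cons (.br (nat_lit 1) (nat_lit 0) (.cons (.rf (nat_lit 1) (nat_lit 2080)) (.cons (.br (nat_lit 1) (nat_lit 0) (.cons (.rf (nat_lit 1) (nat_lit 2080)) .nil)) .nil))) .nil))) .nil)) .nil))]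

theorem c0 : chkAll C T R L0 (nat_lit 0) = true := by decide +kernel

theorem l0 : (nat_lit 0) + L0.length = (nat_lit 3) := by decide +kernel

theorem r : isRoot (T.get (nat_lit 2)) (nat_lit 4) = true := by decide +kernel

theorem no {V : Type} [Fintype V] {Nb : V → Finset V} {x : V → ℤ} (H : Hyp C Nb x)
    (hR : ∀ t, (univ.filter (fun w => ty Nb x w = t)).card ≤ R / 16 ^ t % 16) (v : V)
    (hv : ty Nb x v = 4) : False := by
  have h0 : ∀ i < (nat_lit 0), ∀ φ, ¬ PEmb Nb x (T.get i) φ := fun i hi => absurd hi (Nat.not_lt_zero i)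
  have h1 := chkAll_sound H hR c0 h0
  rw [l0] at h1
  exact no_root h1 (Nat.lt_succ_self (nat_lit 2)) r v hv

end Q13_2_4_4_1_2

namespace Q13_4_0_3_6_0

open Finset Classical

theorem r : isRoot (T.get (nat_lit 1136)) (nat_lit 0) = true := by decide +kernel

theorem no {V : Type} [Fintype V] {Nb : V → Finset V} {x : V → ℤ} (H : Hyp C Nb x)
    (hR : ∀ t, (univ.filter (fun w => ty Nb x w = t)).card ≤ R / 16 ^ t % 16) (v : V)
    (hv : ty Nb x v = 0) : False := by
  have h0 : ∀ i < (nat_lit 0), ∀ φ, ¬ PEmb Nb x (T.get i) φ := fun i hi => absurd hi (Nat.not_lt_zero i)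
  have h1 := chkAll_sound H hR c0 h0
  rw [l0] at h1
  have h2 := chkAll_sound H hR c1 h1
  rw [l1] at h2
  have h3 := chkAll_sound H hR c2 h2
  rw [l2] at h3
  have h4 := chkAll_sound H hR c3 h3
  rw [l3] at h4
  have h5 := chkAll_sound H hR c4 h4
  rw [l4] at h5
  have h6 := chkAll_sound H hR c5 h5
  rw [l5] at h6
  have h7 := chkAll_sound H hR c6 h6
  rw [l6] at h7
  have h8 := chkAll_sound H hR c7 h7
  rw [l7] at h8
  have h9 := chkAll_sound H hR c8 h8
  rw [l8] at h9
  have h10 := chkAll_sound H hR c9 h9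
  rw [l9] at h10
  have h11 := chkAll_sound H hR c10 h10
  rw [l10] at h11
  have h12 := chkAll_sound H hR c11 h11
  rw [l11] at h12
  have h13 := chkAll_sound H hR c12 h12
  rw [l12] at h13
  have h14 := chkAll_sound H hR c13 h13
  rw [l13] at h14
  have h15 := chkAll_sound H hR c14 h14
  rw [l14] at h15
  have h16 := chkAll_sound H hR c15 h15
  rw [l15] at h16
  have h17 := chkAll_sound H hR c16 h16
  rw [l16] at h17
  have h18 := chkAll_sound H hR c17 h17
  rw [l17] at h18
  have h19 := chkAll_sound H hR c18 h18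
  rw [l18] at h19
  have h20 := chkAll_sound H hR c19 h19
  rw [l19] at h20
  have h21 := chkAll_sound H hR c20 h20
  rw [l20] at h21
  have h22 := chkAll_sound H hR c21 h21
  rw [l21] at h22
  have h23 := chkAll_sound H hR c22 h22
  rw [l22] at h23
  have h24 := chkAll_sound H hR c23 h23
  rw [l23] at h24
  have h25 := chkAll_sound H hR c24 h24
  rw [l24] at h25
  have h26 := chkAll_sound H hR c25 h25
  rw [l25] at h26
  have h27 := chkAll_sound H hR c26 h26
  rw [l26] at h27
  have h28 := chkAll_sound H hR c27 h27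
  rw [l27] at h28
  have h29 := chkAll_sound H hR c28 h28
  rw [l28] at h29
  have h30 := chkAll_sound H hR c29 h29
  rw [l29] at h30
  have h31 := chkAll_sound H hR c30 h30
  rw [l30] at h31
  have h32 := chkAll_sound H hR c31 h31
  rw [l31] at h32
  have h33 := chkAll_sound H hR c32 h32
  rw [l32] at h33
  have h34 := chkAll_sound H hR c33 h33
  rw [l33] at h34
  have h35 := chkAll_sound H hR c34 h34
  rw [l34] at h35
  have h36 := chkAll_sound H hR c35 h35
  rw [l35] at h36
  exact no_root h36 (Nat.lt_succ_self (nat_lit 1136)) r v hv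

end Q13_4_0_3_6_0

namespace Q13_4_0_4_4_1

open Finset Classical

/-- degree, order and types -/
def C : Cl := ⟨nat_lit 4,nat_lit 13,[nat_lit 3,nat_lit 7,nat_lit 0,nat_lit 4,nat_lit 8]⟩

/-- the numbers of vertices of each type -/
def R : ℕ := nat_lit 4295245828

/-- part of the table -/
noncomputable def T0 : Tr := (.node (.node (.node (.node (.node (.node (lf (nat_lit 8) (nat_lit 1496580954836584168821254901050219009580685840093732)) (lf (nat_lit 13) (nat_lit 4268559832070445787350912062873765265976013181694714938802775262179295157475606800))) (.node (lf (nat_lit 13) (nat_lit 4268560312652818340875038553749134810766412516486997639627827225626102002216009764)) (lf (nat_lit 11) (nat_lit 15164970904174940153579520850680436348301866433790148077852121110568)))) (.node (.node (lf (nat_lit 13) (nat_lit 4268560312652846985819979339348175588716747410552120005499274179351039834121764900)) (lf (nat_lit 9) (nat_lit 53876799569873910490896381200373484829771065077010451))) (.node (lf (nat_lit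 12) (nat_lit 254425992493058247634934993709337081404019169610039305936949894824054562852)) (lf (nat_lit 11) (nat_lit 421250892877308867856014259166955813025673834448674296850693490216))))) (.node (.node (.node (lf (nat_lit 7) (nat_lit 89203176190649519492462569686390634272788500)) (lf (nat_lit 13) (nat_lit 4268559832070445787350912062873765254201219716870220133867657359188214449350639888))) (.node (lf (nat_lit 13) (nat_lit 4268559832070416721154500907092214608692577274793774317392168939594863479462494244)) (lf (nat_lit 10) (nat_lit 903902705269067906882009681681490620419206585562749080699924)))) (.node (.node (lf (nat_lit 13) (nat_lit 4268560312652846985816665029631891467302179501671490747325713764138989362526486564)) (lf (nat_lit 13) (nat_lit 4268559832070445787350912062873765208172481627102689451091170236104855363841433616))) (lf (nat_lit 12) (nat_lit 254426021138001606591231576322072960291595820402418084786792020431937257508))))) (.node (.node (.node (.node (lf (nat_lit 8) (nat_lit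 1496580954836584168779422431242687732065270413402132)) (lf (nat_lit 12) (nat_lit 254425992493059980115348819665537193667961342148217315678114653481302278180))) (.node (lf (nat_lit 13) (nat_lit 4268560312652818340873331182077109633598650245146281782295345707990856013667565604)) (lf (nat_lit 10) (nat_lit 903902705269067906882009681785437979384888127475104293637192)))) (.node (.node (lf (nat_lit 13) (nat_lit 4268560312652846985819979339348175588716746708719738231063693286140911997509895220)) (lf (nat_lit 13) (nat_lit 4268559832070445787350912062873765214238284321102693159383342481469749411943809296))) (.node (lf (nat_lit 4) (nat_lit 18889507308307186974996)) (lf (nat_lit 10) (nat_lit 25108509831268123856034920908708747513470258191624927447328))))) (.node (.node (.node (lf (nat_lit 7) (nat_lit 89203176190671069550173040084386822909595667)) (lf (nat_lit 12) (nat_lit 254425992493058272743676794488369430333238229662952135837433759263914770740))) (.node (lf (nat_lit 13) (nat_lit 4268559832070416721154500907092214608692576211411377689459470616549215250623430692))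 (lf (nat_lit 10) (nat_lit 929011159726950153848750147907298702686805859019675257538088)))) (.node (.node (lf (nat_lit 7) (nat_lit 191408864351944171653004408327271088660)) (lf (nat_lit 13) (nat_lit 4268559832070417142407578215318983374468962579049138418972623176721978035605078288))) (lf (nat_lit 7) (nat_lit 191408842801885271146177293702871910692)))))) (.node (.node (.node (.node (.node (lf (nat_lit 6) (nat_lit 5316923629681531760255482754752317992)) (lf (nat_lit 13) (nat_lit 4268559832070445787350912062873765254201219716870545920071916014369579070021173520))) (.node (lf (nat_lit 13) (nat_lit 4268560312652818340879859367109677654424844103061557117014339768467832100756849204)) (lf (nat_lit 3) (nat_lit 2415919248)))) (.node (.node (lf (nat_lit 13) (nat_lit 4268560312652846985819979339348175634745486180884060011505923627773009064307654692)) (lf (nat_lit 11) (nat_lit 15164972611546612178756688614015159460787170374817230712730827116580))) (.node (lf (nat_lit 8) (nat_lit 3211307499997252534265130094295467726590709780))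 (lf (nat_lit 10) (nat_lit 25108509831268123856736753290483183094363468319452949395504))))) (.node (.node (.node (lf (nat_lit 5) (nat_lit 316913344244971709038229192980)) (lf (nat_lit 12) (nat_lit 254425992493059980115348819665537193667961342148217315678114653476738875428))) (.node (lf (nat_lit 13) (nat_lit 4268559832070416721154500907092214608692576572961392542956588046384735655735525684)) (lf (nat_lit 9) (nat_lit 55373380167898544898596524019815799746736234520642072)))) (.node (.node (lf (nat_lit 13) (nat_lit 4268560312652846985816665029631891467302179140121475893828596334303468957414391844)) (lf (nat_lit 12) (nat_lit 254425992493059980115348819665537190924435409152908871080565108829375713316))) (lf (nat_lit 12) (nat_lit 254425992493059980114959709446421437026852743505468825148090563424057082164))))) (.node (.node (.node (.node (lf (nat_lit 8) (nat_lit 1496580954836584168779422431242687151100987470512660)) (lf (nat_lit 13) (nat_lit 4268559832070445787350912062873765254201219716870220133867657359336833237053866256)))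 (.node (lf (nat_lit 13) (nat_lit 4268560312652818340873331182077109633598649543313900007859764814780728181082226724)) (lf (nat_lit 10) (nat_lit 903902705269067906882009681763887919181005917303051498030104)))) (.node (.node (lf (nat_lit 13) (nat_lit 4268560312652846985819979339348175634745484798486944395193415807813666363890925604)) (lf (nat_lit 12) (nat_lit 254425992493059980115348819665537191285985424006405988510400629225629437988))) (lf (nat_lit 12) (nat_lit 254426021138003313962903601499240723626318932887683264627472914649324765220)))) (.node (.node (.node (lf (nat_lit 7) (nat_lit 89203176190649519492462569687516573371204115)) (lf (nat_lit 11) (nat_lit 15164970904174940153579520850680436511828793863234051217329852796964))) (.node (lf (nat_lit 13) (nat_lit 4268559832070416721152793535420189431524813238238280057691408205703841434053050404)) (lf (nat_lit 9) (nat_lit 55373380167898544898554691547590416537257541747344403)))) (.node (.node (lf (nat_lit 13) (nat_lit 4268560312652818340875038552976900683598224703417153059576814566013912902917095732))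 (lf (nat_lit 12) (nat_lit 254425992493058272743676794488369427589712296667643691239960775805653504036))) (lf (nat_lit 9) (nat_lit 53876799569874272040882157956936918114893466846626064)))))))

/-- part of the table -/
noncomputable def T1 : Tr := (.node (.node (.node (.node (.node (.node (lf (nat_lit 8) (nat_lit 1496580954836584168821254901050219009580754828001812)) (lf (nat_lit 13) (nat_lit 4268559832070445787350912062873765254201219716870545920071916014369579078879543824))) (.node (lf (nat_lit 13) (nat_lit 4268560312652818340879859367109677654424844103061557117014339768467832118205153844)) (lf (nat_lit 10) (nat_lit 903902703772481689070434621017005225914827968704113249617940)))) (.node (.node (lf (nat_lit 13) (nat_lit 4268560312652846985819979338575941507577290817799199373152171238587742555503526964)) (lf (nat_lit 11) (nat_lit 15164972611546713946038699239447159819769403313850053653414316871700))) (.node (lf (nat_lit 11) (nat_lit 15164970904174938656981885058244292819739530659320313091738344382499))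 (lf (nat_lit 11) (nat_lit 421250892877308867859225566475544222757996798325159440888929190424))))) (.node (.node (.node (lf (nat_lit 6) (nat_lit 5316923629680247276572142215834370323)) (lf (nat_lit 12) (nat_lit 254425992493059980115348819665537193667961342148217315678114653476738875700))) (.node (lf (nat_lit 13) (nat_lit 4268559832070416721154500907092214608692577274793774317392168939594863474899091764)) (lf (nat_lit 2) (nat_lit 144)))) (.node (.node (lf (nat_lit 13) (nat_lit 4268560312652846985816665029631891467302179501671490747325713764138989353668116516)) (lf (nat_lit 12) (nat_lit 254425992493059980115348819665537190924435409152908871080641670023041011748))) (lf (nat_lit 8) (nat_lit 3211307499997274401240477440400095791760278032))))) (.node (.node (.node (.node (lf (nat_lit 8) (nat_lit 1496580954836584168779422429958203467760409612653092)) (lf (nat_lit 13) (nat_lit 4268559832070445787350912062873765265976013181694714938802775262102733968373711120))) (.node (lf (nat_lit 13) (nat_lit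 4268560312652818340873331182077109633598649543313900007859764814780728185645629476)) (lf (nat_lit 10) (nat_lit 903902705269067906882009681763887919181008227649660339113016)))) (.node (.node (lf (nat_lit 13) (nat_lit 4268560312652846985819979339348175634745484798486944395193415807813666372749295652)) (lf (nat_lit 12) (nat_lit 254425992493059980115348819665537191285984773701589891873797326175555551504))) (.node (lf (nat_lit 3) (nat_lit 1125902373093795)) (lf (nat_lit 1) (nat_lit 0))))) (.node (.node (.node (lf (nat_lit 5) (nat_lit 316913344245048270231894491416)) (lf (nat_lit 12) (nat_lit 254425992493058272743676794488369430333238229662952135837433759263914770468))) (.node (lf (nat_lit 13) (nat_lit 4268559832070416721152793535420189431524815981764863357757769879161613852684255540)) (lf (nat_lit 10) (nat_lit 929011159726950153848750147907298702686802967708714485678616)))) (.node (.node (lf (nat_lit 13) (nat_lit 4268560312652818340875038553749134810766412878037012493124944655461622398469734436))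 (lf (nat_lit 12) (nat_lit 254425992493058272743676794488369427589712296667643691239960775805653504308))) (lf (nat_lit 13) (nat_lit 4268559832070445787350912062873765254201219716870220133867657358255968767602336288)))))) (.node (.node (.node (.node (.node (lf (nat_lit 5) (nat_lit 316913344245048270240752861460)) (lf (nat_lit 13) (nat_lit 4268559832070445787350912062873765254201219716870545920071916014220960291176317200))) (.node (lf (nat_lit 13) (nat_lit 4268560312652818340873331181304875506430454882061421143941593318805589522311742004)) (lf (nat_lit 10) (nat_lit 903902807036349917507441682122870190881227452331555171650632)))) (.node (.node (lf (nat_lit 13) (nat_lit 4268560312652846985819979339348175588716746708719738231063693286140912014958199860)) (lf (nat_lit 11) (nat_lit 15164972611546612178756688614015159460787170374817230712726263713828))) (.node (lf (nat_lit 4) (nat_lit 40532399062253712)) (lf (nat_lit 10) (nat_lit 25108509831268123856034920908708747513470258191624927451440)))))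 (.node (.node (.node (lf (nat_lit 8) (nat_lit 1496580954836945718794275930872416536472386908717588)) (lf (nat_lit 12) (nat_lit 254425992493058272743676794488369430333238229662952135837433759272773140788))) (.node (lf (nat_lit 13) (nat_lit 4268559832070416721154500907092214608692576572961392542956588046384735646877155364)) (lf (nat_lit 9) (nat_lit 55373380167898544898596524014904538604551760280290323)))) (.node (.node (lf (nat_lit 7) (nat_lit 191408864351944171653004408327271089700)) (lf (nat_lit 13) (nat_lit 4268559832070417142407578215318983374468962579049138418972623176721978035605078544))) (lf (nat_lit 7) (nat_lit 191408842801885271146177293711730280740))))) (.node (.node (.node (.node (lf (nat_lit 5) (nat_lit 316913344245048270231894491412)) (lf (nat_lit 13) (nat_lit 4268559832070445787350912062873765254201219716870220133867657359336833228195496208))) (.node (lf (nat_lit 13) (nat_lit 4268560312652818340873331182077109633598649181763885154362647384945207784828502052)) (lf (nat_lit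 9) (nat_lit 53876799659077400379300694570773119296672433415653395)))) (.node (.node (lf (nat_lit 13) (nat_lit 4268560312652846985816665029631891467302179501671490747325713764138989379974791732)) (lf (nat_lit 12) (nat_lit 15164972636654964869339441170747695712660195791809781632102551277876))) (lf (nat_lit 12) (nat_lit 254426021138001606591231576322072960291595820402418084786792020436500660260)))) (.node (.node (.node (lf (nat_lit 7) (nat_lit 89203176190649519492462569538897751039803923)) (lf (nat_lit 10) (nat_lit 903902703772481689070434621017005235661792389347198678079528))) (.node (lf (nat_lit 13) (nat_lit 4268559832070416721152793535420189431524813238238280057691408205703841429489647652)) (lf (nat_lit 9) (nat_lit 55373380167898544898554691545097005876877264840295443)))) (.node (.node (lf (nat_lit 13) (nat_lit 4268560312652818340875038553749134810766413218319379414063408118836229830237946164)) (lf (nat_lit 12) (nat_lit 254425992493058272743676794488369427589712296667604930055792819738903597092)))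 (lf (nat_lit 13) (nat_lit 4268559832070445787350912062873765265976013181694389152598516606065684859351728400)))))))

/-- the table -/
noncomputable def T : Tr := (.node T0 T1)

/-- part of the certificates -/
def L0 : List Prf := [(.br (nat_lit 6) (nat_lit 0) (.cons (.br (nat_lit 6) (nat_lit 0) .nil) .nil)),
 (.br (nat_lit 5) (nat_lit 0) (.cons (.rf (nat_lit 0) (nat_lit 247132686368)) (.cons (.br (nat_lit 5) (nat_lit 0) (.cons (.rf (nat_lit 0) (nat_lit 247132686368)) .nil)) .nil))),
 (.br (nat_lit 5) (nat_lit 1) (.cons (.kr (nat_lit 256) (nat_lit 65536) (nat_lit 1) (nat_lit 0)) (.cons (.br (nat_lit 5) (nat_lit 1) (.cons (.kr (nat_lit 256) (nat_lit 65536) (nat_lit 1) (nat_lit 0)) .nil)) .nil))),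
 (.br (nat_lit 4) (nat_lit 1) (.cons (.kr (nat_lit 256) (nat_lit 65536) (nat_lit 1) (nat_lit 0)) (.cons (.br (nat_lit 5) (nat_lit 1) (.cons (.br (nat_lit 2) (nat_lit 0) (.cons (.rf (nat_lit 1) (nat_lit 247132686368)) (.cons (.br (nat_lit 5) (nat_lit 0) (.cons (.rf (nat_lit 2) (nat_lit 240224288)) (.cons (.br (nat_lit 5) (nat_lit 0) (.cons (.rf (nat_lit 2) (nat_lit 240224288)) .nil)) .nil))) .nil))) .nil)) .nil))),
 (.br (nat_lit 6) (nat_lit 0) (.cons (.br (nat_lit 6) (nat_lit 0) .nil) .nil)),
 (.br (nat_lit 6) (nat_lit 0) (.cons (.br (nat_lit 6) (nat_lit 0) .nil) .nil)),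
 (.br (nat_lit 2) (nat_lit 0) (.cons (.rf (nat_lit 1) (nat_lit 247131670560)) (.cons (.br (nat_lit 4) (nat_lit 1) (.cons (.br (nat_lit 5) (nat_lit 0) (.cons (.rf (nat_lit 0) (nat_lit 247027864611)) (.cons (.br (nat_lit 7) (nat_lit 1) (.cons (.rf (nat_lit 4) (nat_lit 247132686368)) .nil)) .nil))) (.cons (.br (nat_lit 5) (nat_lit 0) (.cons (.rf (nat_lit 5) (nat_lit 247132686368)) (.cons (.br (nat_lit 5) (nat_lit 0) (.cons (.rf (nat_lit 5) (nat_lit 247132686368)) .nil)) .nil))) .nil))) .nil))),
 (.br (nat_lit 3) (nat_lit 1) (.cons (.rf (nat_lit 3) (nat_lit 4294688)) (.cons (.br (nat_lit 5) (nat_lit 1) (.cons (.br (nat_lit 2) (nat_lit 0) (.cons (.rf (nat_lit 3) (nat_lit 3278880)) (.cons (.rf (nat_lit 6) (nat_lit 247132686368)) (.cons (.br (nat_lit 2) (nat_lit 0) (.cons (.rf (nat_lit 3) (nat_lit 3278880)) (.cons (.rf (nat_lit 6) (nat_lit 281492424736)) .nil))) .nil)))) .nil)) .nil))),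
 (.br (nat_lit 5) (nat_lit 0) (.cons (.br (nat_lit 5) (nat_lit 0) .nil) .nil)),
 (.br (nat_lit 4) (nat_lit 1) (.cons (.br (nat_lit 5) (nat_lit 0) (.cons (.rf (nat_lit 8) (nat_lit 6614517792)) (.cons (.br (nat_lit 5) (nat_lit 0) (.cons (.rf (nat_lit 8) (nat_lit 7688259616)) .nil)) .nil))) (.cons (.rf (nat_lit 7) (nat_lit 3150884)) (.cons (.br (nat_lit 5) (nat_lit 0) (.cons (.rf (nat_lit 4) (nat_lit 245957138468)) (.cons (.br (nat_lit 5) (nat_lit 0) (.cons (.rf (nat_lit 4) (nat_lit 280316876836)) .nil)) .nil))) .nil)))),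
 (.br (nat_lit 1) (nat_lit 1) (.cons (.rf (nat_lit 7) (nat_lit 4294688)) (.cons (.br (nat_lit 3) (nat_lit 1) (.cons (.rf (nat_lit 9) (nat_lit 172066848)) (.cons (.rf (nat_lit 7) (nat_lit 4199459)) (.cons (.br (nat_lit 4) (nat_lit 1) (.cons (.rf (nat_lit 9) (nat_lit 171051040)) (.cons (.rf (nat_lit 7) (nat_lit 3150884)) (.cons (.rf (nat_lit 9) (nat_lit 167909411)) .nil)))) .nil)))) .nil))),
 (.br (nat_lit 4) (nat_lit 1) (.cons (.br (nat_lit 5) (nat_lit 0) (.cons (.br (nat_lit 6) (nat_lit 0) (.cons (.rf (nat_lit 5) (nat_lit 247136880672)) .nil)) (.cons (.br (nat_lit 7) (nat_lit 1) (.cons (.br (nat_lit 6) (nat_lit 0) (.cons (.kr (nat_lit 281474976710912) (nat_lit 1099511693312) (nat_lit 1) (nat_lit 0)) .nil)) .nil)) .nil))) .nil)),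
 (.br (nat_lit 2) (nat_lit 0) (.cons (.br (nat_lit 4) (nat_lit 1) (.cons (.rf (nat_lit 11) (nat_lit 247132686368)) (.cons (.br (nat_lit 4) (nat_lit 1) (.cons (.rf (nat_lit 11) (nat_lit 247132686368)) .nil)) .nil))) .nil)),
 (.br (nat_lit 3) (nat_lit 1) (.cons (.br (nat_lit 2) (nat_lit 0) (.cons (.kr (nat_lit 256) (nat_lit 65536) (nat_lit 1) (nat_lit 0)) (.cons (.rf (nat_lit 10) (nat_lit 5342272)) .nil))) (.cons (.br (nat_lit 5) (nat_lit 1) (.cons (.br (nat_lit 2) (nat_lit 0) (.cons (.rf (nat_lit 12) (nat_lit 6614517792)) (.cons (.br (nat_lit 2) (nat_lit 0) (.cons (.rf (nat_lit 12) (nat_lit 6614517792)) (.cons (.rf (nat_lit 10) (nat_lit 8619072)) .nil))) .nil))) .nil)) .nil))),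
 (.br (nat_lit 4) (nat_lit 1) (.cons (.br (nat_lit 5) (nat_lit 0) (.cons (.br (nat_lit 5) (nat_lit 0) (.cons (.br (nat_lit 7) (nat_lit 1) (.cons (.br (nat_lit 6) (nat_lit 0) (.cons (.kr (nat_lit 281474976710912) (nat_lit 1099511693312) (nat_lit 1) (nat_lit 0)) .nil)) .nil)) .nil)) .nil)) .nil)),
 (.br (nat_lit 2) (nat_lit 0) (.cons (.br (nat_lit 4) (nat_lit 1) (.cons (.rf (nat_lit 14) (nat_lit 6614517792)) (.cons (.rf (nat_lit 14) (nat_lit 5574329408)) .nil))) (.cons (.rf (nat_lit 10) (nat_lit 7439424)) .nil))),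
 (.br (nat_lit 3) (nat_lit 0) (.cons (.br (nat_lit 11) (nat_lit 0) (.cons (.ev (nat_lit 79537647542532427835489911041) (nat_lit 1)) .nil)) .nil)),
 (.br (nat_lit 11) (nat_lit 0) (.cons (.ev (nat_lit 79537652264898909605640339713) (nat_lit 1)) .nil)),
 (.br (nat_lit 3) (nat_lit 0) (.cons (.br (nat_lit 12) (nat_lit 0) .nil) (.cons (.rf (nat_lit 17) (nat_lit 14242959524133701664)) .nil))),
 (.br (nat_lit 7) (nat_lit 0) (.cons (.ev (nat_lit 79537647542532427835506688001) (nat_lit 1)) .nil)),
 (.br (nat_lit 3) (nat_lit 0) (.cons (.rf (nat_lit 17) (nat_lit 14242959524133701664)) (.cons (.rf (nat_lit 19) (nat_lit 14242959524133701664)) .nil))),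
 (.br (nat_lit 3) (nat_lit 0) (.cons (.rf (nat_lit 18) (nat_lit 14242959524133701664)) (.cons (.br (nat_lit 3) (nat_lit 0) (.cons (.rf (nat_lit 18) (nat_lit 14242959524133701664)) (.cons (.rf (nat_lit 20) (nat_lit 14242959524133701664)) .nil))) (.cons (.rf (nat_lit 20) (nat_lit 14242959524133701664)) .nil)))),
 (.br (nat_lit 2) (nat_lit 0) (.cons (.kr (nat_lit 1) (nat_lit 65536) (nat_lit 0) (nat_lit 1)) (.cons (.br (nat_lit 3) (nat_lit 0) (.cons (.rf (nat_lit 16) (nat_lit 14242959524133701664)) (.cons (.rf (nat_lit 16) (nat_lit 13121563221213415456)) .nil))) (.cons (.rf (nat_lit 21) (nat_lit 14242959524133701664)) (.cons (.br (nat_lit 3) (nat_lit 0) (.cons (.br (nat_lit 3) (nat_lit 0) (.cons (.rf (nat_lit 17) (nat_lit 13121563221213415456)) (.cons (.rf (nat_lit 21) (nat_lit 13121563118137314305)) .nil))) (.cons (.rf (nat_lit 20) (nat_lit 13121563221213415456)) (.cons (.br (nat_lit 3) (nat_lit 0) (.cons (.rf (nat_lit 21) (nat_lit 13121563118137314305)) (.cons (.rf (nat_lit 20) (nat_lit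 13121563221213415456)) .nil))) .nil)))) .nil))))),
 (.br (nat_lit 3) (nat_lit 0) (.cons (.rf (nat_lit 20) (nat_lit 14242959524133669920)) (.cons (.rf (nat_lit 20) (nat_lit 14242959421057600513)) (.cons (.ev (nat_lit 79537652264898909605623496704) (nat_lit 1)) .nil)))),
 (.br (nat_lit 2) (nat_lit 0) (.cons (.kr (nat_lit 4722366764344621924864) (nat_lit 1208925819615728686465024) (nat_lit 1) (nat_lit 0)) (.cons (.rf (nat_lit 22) (nat_lit 14242959524133701664)) (.cons (.rf (nat_lit 22) (nat_lit 13121563118137346049)) (.cons (.br (nat_lit 3) (nat_lit 0) (.cons (.rf (nat_lit 22) (nat_lit 14242959524133669920)) (.cons (.rf (nat_lit 22) (nat_lit 13121563118137314305)) (.cons (.rf (nat_lit 23) (nat_lit 14242959524133701664)) (.cons (.rf (nat_lit 23) (nat_lit 13121563118137346049)) .nil))))) .nil))))),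
 (.br (nat_lit 2) (nat_lit 0) (.cons (.br (nat_lit 2) (nat_lit 0) (.cons (.kr (nat_lit 1) (nat_lit 65536) (nat_lit 0) (nat_lit 1)) (.cons (.kr (nat_lit 256) (nat_lit 65536) (nat_lit 1) (nat_lit 0)) (.cons (.kr (nat_lit 4722366764344621924864) (nat_lit 1208925819615728686465024) (nat_lit 1) (nat_lit 0)) (.cons (.kr (nat_lit 1213648186097498819919874) (nat_lit 282574488469504) (nat_lit 0) (nat_lit 1)) .nil))))) (.cons (.rf (nat_lit 22) (nat_lit 14242959524133701664)) (.cons (.rf (nat_lit 22) (nat_lit 13121563118137346049)) (.cons (.rf (nat_lit 24) (nat_lit 14242959524133701664)) (.cons (.rf (nat_lit 24) (nat_lit 13121563118137346049)) .nil)))))),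
 (.br (nat_lit 1) (nat_lit 0) (.cons (.kr (nat_lit 1) (nat_lit 256) (nat_lit 0) (nat_lit 2)) (.cons (.rf (nat_lit 25) (nat_lit 14242959524133701664)) (.cons (.rf (nat_lit 25) (nat_lit 14097753756921858080)) (.cons (.kr (nat_lit 1213648186097498819919874) (nat_lit 282574488338944) (nat_lit 0) (nat_lit 2)) .nil))))),
 (.br (nat_lit 3) (nat_lit 0) (.cons (.br (nat_lit 3) (nat_lit 0) .nil) .nil)),
 (.br (nat_lit 3) (nat_lit 0) (.cons (.rf (nat_lit 27) (nat_lit 6614517792)) (.cons (.br (nat_lit 3) (nat_lit 0) (.cons (.rf (nat_lit 27) (nat_lit 6614517792)) .nil)) .nil))),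
 (.br (nat_lit 2) (nat_lit 0) (.cons (.rf (nat_lit 26) (nat_lit 14242959524133700672)) (.cons (.br (nat_lit 2) (nat_lit 0) (.cons (.rf (nat_lit 26) (nat_lit 14242959524133700672)) (.cons (.rf (nat_lit 28) (nat_lit 12050335776)) (.cons (.kr (nat_lit 1213648186097498819920384) (nat_lit 282574488469504) (nat_lit 1) (nat_lit 0)) .nil)))) (.cons (.br (nat_lit 2) (nat_lit 0) (.cons (.rf (nat_lit 26) (nat_lit 14242959524133700672)) (.cons (.rf (nat_lit 28) (nat_lit 12050335776)) (.cons (.kr (nat_lit 4722366482869645213952) (nat_lit 1099511693312) (nat_lit 1) (nat_lit 0)) .nil)))) (.cons (.br (nat_lit 2) (nat_lit 0) (.cons (.kr (nat_lit 1213648186097498819919874) (nat_lit 282574488469504) (nat_lit 0) (nat_lit 1)) (.cons (.kr (nat_lit 1213648186097498819920384) (nat_lit 282574488469504) (nat_lit 1) (nat_lit 0)) (.cons (.kr (nat_lit 4722366482869645213952) (nat_lit 1099511693312) (nat_lit 1) (nat_lit 0)) .nil)))) .nil))))),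
 (.br (nat_lit 3) (nat_lit 0) (.cons (.br (nat_lit 3) (nat_lit 0) (.cons (.ev (nat_lit 79229371458602753890482979073) (nat_lit 1)) .nil)) (.cons (.br (nat_lit 3) (nat_lit 0) (.cons (.ev (nat_lit 79229371458602753890482979073) (nat_lit 1)) .nil)) .nil))),
 (.br (nat_lit 2) (nat_lit 0) (.cons (.rf (nat_lit 26) (nat_lit 14242959524133700672)) (.cons (.br (nat_lit 3) (nat_lit 0) (.cons (.rf (nat_lit 30) (nat_lit 14242959524133701664)) (.cons (.rf (nat_lit 30) (nat_lit 14097753756921858080)) (.cons (.br (nat_lit 3) (nat_lit 0) (.cons (.rf (nat_lit 30) (nat_lit 14242959524133701664)) (.cons (.rf (nat_lit 30) (nat_lit 14097753756921858080)) .nil))) .nil)))) (.cons (.rf (nat_lit 28) (nat_lit 7923140640)) .nil)))),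
 (.br (nat_lit 1) (nat_lit 0) (.cons (.kr (nat_lit 1) (nat_lit 256) (nat_lit 0) (nat_lit 2)) (.cons (.rf (nat_lit 29) (nat_lit 14242959524133701664)) (.cons (.rf (nat_lit 29) (nat_lit 14097753756921858080)) (.cons (.br (nat_lit 2) (nat_lit 0) (.cons (.rf (nat_lit 26) (nat_lit 14242959524133700672)) (.cons (.rf (nat_lit 31) (nat_lit 14242959524133701664)) (.cons (.rf (nat_lit 31) (nat_lit 14097753756921858080)) (.cons (.br (nat_lit 2) (nat_lit 0) (.cons (.kr (nat_lit 1213648186097498819919874) (nat_lit 282574488469504) (nat_lit 0) (nat_lit 1)) (.cons (.rf (nat_lit 28) (nat_lit 7923140640)) (.cons (.rf (nat_lit 28) (nat_lit 12218107936)) .nil)))) .nil))))) .nil))))),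
 (.br (nat_lit 3) (nat_lit 0) (.cons (.ev (nat_lit 79537652264898909605640339713) (nat_lit 1)) .nil)),
 (.br (nat_lit 3) (nat_lit 0) (.cons (.rf (nat_lit 33) (nat_lit 14242959524133701664)) (.cons (.rf (nat_lit 33) (nat_lit 13121563221213414464)) .nil))),
 (.br (nat_lit 3) (nat_lit 0) (.cons (.rf (nat_lit 34) (nat_lit 14242959524133701664)) (.cons (.br (nat_lit 3) (nat_lit 0) (.cons (.ev (nat_lit 79537652264898909605640339713) (nat_lit 1)) .nil)) .nil))),
 (.br (nat_lit 2) (nat_lit 0) (.cons (.rf (nat_lit 26) (nat_lit 14242959524133700672)) (.cons (.rf (nat_lit 28) (nat_lit 12050334784)) (.cons (.kr (nat_lit 256) (nat_lit 65536) (nat_lit 1) (nat_lit 0)) (.cons (.br (nat_lit 3) (nat_lit 0) (.cons (.rf (nat_lit 34) (nat_lit 14242959524133701664)) (.cons (.rf (nat_lit 35) (nat_lit 14242959524133701664)) (.cons (.rf (nat_lit 35) (nat_lit 13121563221213414464)) .nil)))) .nil))))),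
 (.br (nat_lit 2) (nat_lit 0) (.cons (.rf (nat_lit 26) (nat_lit 14242959524133700672)) (.cons (.rf (nat_lit 32) (nat_lit 14242959524133700672)) (.cons (.rf (nat_lit 36) (nat_lit 14242959524133701664)) (.cons (.rf (nat_lit 36) (nat_lit 14097753756921858080)) (.cons (.br (nat_lit 2) (nat_lit 0) (.cons (.kr (nat_lit 1213648186097498819919874) (nat_lit 282574488469504) (nat_lit 0) (nat_lit 1)) (.cons (.rf (nat_lit 32) (nat_lit 14242959524133700672)) (.cons (.rf (nat_lit 36) (nat_lit 14242959524133701664)) (.cons (.rf (nat_lit 36) (nat_lit 14097753756921858080)) .nil))))) .nil)))))),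
 (.br (nat_lit 1) (nat_lit 0) (.cons (.rf (nat_lit 26) (nat_lit 14242959524133701664)) (.cons (.rf (nat_lit 32) (nat_lit 14242959524133701664)) (.cons (.rf (nat_lit 37) (nat_lit 14242959524133701664)) (.cons (.br (nat_lit 2) (nat_lit 0) (.cons (.rf (nat_lit 26) (nat_lit 14242959524133700672)) (.cons (.rf (nat_lit 32) (nat_lit 14242959524133700672)) (.cons (.br (nat_lit 2) (nat_lit 0) (.cons (.rf (nat_lit 26) (nat_lit 14242959524133700672)) (.cons (.kr (nat_lit 282574488338944) (nat_lit 1213648186097498820050944) (nat_lit 1) (nat_lit 0)) (.cons (.rf (nat_lit 37) (nat_lit 14242959524133700672)) (.cons (.ev (nat_lit 79228167255149904705424982016) (nat_lit 1)) .nil))))) (.cons (.br (nat_lit 2) (nat_lit 0) (.cons (.rf (nat_lit 26) (nat_lit 14242959524133700672)) (.cons (.kr (nat_lit 281474976710912) (nat_lit 1208925819614629174771712) (nat_lit 1) (nat_lit 0)) (.cons (.rf (nat_lit 37) (nat_lit 14242959524133700672)) (.cons (.kr (nat_lit 4722366764344621924864) (nat_lit 1208925819615728686465024)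 (nat_lit 1) (nat_lit 0)) .nil))))) (.cons (.br (nat_lit 2) (nat_lit 0) (.cons (.kr (nat_lit 1213648186097498819919874) (nat_lit 282574488469504) (nat_lit 0) (nat_lit 1)) (.cons (.rf (nat_lit 28) (nat_lit 7923139648)) (.cons (.ev (nat_lit 79228167255149904705424982016) (nat_lit 1)) (.cons (.kr (nat_lit 4722366764344621924864) (nat_lit 1208925819615728686465024) (nat_lit 1) (nat_lit 0)) .nil))))) .nil)))))) .nil))))),
 (.br (nat_lit 1) (nat_lit 0) (.cons (.rf (nat_lit 26) (nat_lit 14242959524133701664)) (.cons (.rf (nat_lit 32) (nat_lit 14242959524133701664)) (.cons (.rf (nat_lit 38) (nat_lit 14242959524133701664)) (.cons (.rf (nat_lit 38) (nat_lit 14097753756921858080)) (.cons (.br (nat_lit 1) (nat_lit 0) (.cons (.kr (nat_lit 1213648186097498819919874) (nat_lit 282574488338944) (nat_lit 0) (nat_lit 2)) (.cons (.rf (nat_lit 32) (nat_lit 14242959524133701664)) (.cons (.rf (nat_lit 38) (nat_lit 14242959524133701664)) (.cons (.rf (nat_lit 38) (nat_lit 14097753756921858080)) .nil))))) .nil)))))),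
 (.br (nat_lit 2) (nat_lit 0) (.cons (.rf (nat_lit 39) (nat_lit 14242959524133637184)) (.cons (.ev (nat_lit 309485010037802632940093952) (nat_lit 2)) (.cons (.br (nat_lit 2) (nat_lit 0) (.cons (.rf (nat_lit 39) (nat_lit 14242959524133637184)) (.cons (.ev (nat_lit 309485010037802632940093952) (nat_lit 2)) .nil))) .nil)))),
 (.br (nat_lit 2) (nat_lit 0) (.cons (.rf (nat_lit 39) (nat_lit 14242959524133637184)) (.cons (.br (nat_lit 2) (nat_lit 0) (.cons (.rf (nat_lit 39) (nat_lit 14242959524133637184)) (.cons (.ev (nat_lit 79229371458602753890466136064) (nat_lit 1)) .nil))) (.cons (.ev (nat_lit 79228167255149904705424982016) (nat_lit 1)) .nil)))),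
 (.br (nat_lit 2) (nat_lit 0) (.cons (.rf (nat_lit 39) (nat_lit 14242959524133637184)) (.cons (.rf (nat_lit 41) (nat_lit 14242959524133701664)) (.cons (.br (nat_lit 2) (nat_lit 0) (.cons (.rf (nat_lit 39) (nat_lit 14242959524133637184)) (.cons (.ev (nat_lit 79229371458602753890466136064) (nat_lit 1)) .nil))) .nil)))),
 (.br (nat_lit 1) (nat_lit 0) (.cons (.rf (nat_lit 39) (nat_lit 14242959524133701664)) (.cons (.rf (nat_lit 39) (nat_lit 14242959524133669920)) (.cons (.br (nat_lit 2) (nat_lit 0) (.cons (.rf (nat_lit 39) (nat_lit 14242959524133637184)) (.cons (.rf (nat_lit 40) (nat_lit 14242959524133701664)) (.cons (.rf (nat_lit 40) (nat_lit 14097753756921858080)) (.cons (.br (nat_lit 2) (nat_lit 0) (.cons (.rf (nat_lit 39) (nat_lit 14242959524133637184)) (.cons (.rf (nat_lit 40) (nat_lit 14242959524133701664)) (.cons (.rf (nat_lit 40) (nat_lit 14097753756921858080)) .nil)))) .nil))))) (.cons (.br (nat_lit 2) (nat_lit 0) (.cons (.rf (nat_lit 39) (nat_lit 14242959524133637184)) (.cons (.rf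 (nat_lit 41) (nat_lit 14242959524133701664)) (.cons (.rf (nat_lit 42) (nat_lit 14242959524133701664)) (.cons (.br (nat_lit 2) (nat_lit 0) (.cons (.rf (nat_lit 39) (nat_lit 14242959524133637184)) (.cons (.ev (nat_lit 79228167255149904705424982016) (nat_lit 1)) (.cons (.rf (nat_lit 42) (nat_lit 14242959524133701664)) .nil)))) .nil))))) .nil))))),
 (.br (nat_lit 1) (nat_lit 0) (.cons (.rf (nat_lit 39) (nat_lit 14242959524133701664)) (.cons (.rf (nat_lit 39) (nat_lit 14242959524133669920)) (.cons (.rf (nat_lit 43) (nat_lit 14242959524133701664)) (.cons (.rf (nat_lit 43) (nat_lit 14097753756921858080)) (.cons (.br (nat_lit 1) (nat_lit 0) (.cons (.rf (nat_lit 39) (nat_lit 14242959524133701664)) (.cons (.rf (nat_lit 39) (nat_lit 14242959524133669920)) (.cons (.rf (nat_lit 43) (nat_lit 14242959524133701664)) (.cons (.rf (nat_lit 43) (nat_lit 14097753756921858080)) .nil))))) .nil)))))),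
 (.br (nat_lit 2) (nat_lit 0) (.cons (.rf (nat_lit 39) (nat_lit 14242959524133637184)) (.cons (.br (nat_lit 2) (nat_lit 0) (.cons (.rf (nat_lit 39) (nat_lit 14242959524133637184)) (.cons (.ev (nat_lit 79538856468352323939641327616) (nat_lit 1)) .nil))) (.cons (.br (nat_lit 2) (nat_lit 0) (.cons (.rf (nat_lit 39) (nat_lit 14242959524133637184)) (.cons (.ev (nat_lit 79538856468352323939641327616) (nat_lit 1)) .nil))) .nil))))]

theorem c0 : chkAll C T R L0 (nat_lit 0) = true := by decide +kernel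

theorem l0 : (nat_lit 0) + L0.length = (nat_lit 46) := by decide +kernel

/-- part of the certificates -/
def L1 : List Prf := [(.br (nat_lit 1) (nat_lit 0) (.cons (.rf (nat_lit 39) (nat_lit 14242959524133701664)) (.cons (.rf (nat_lit 39) (nat_lit 14242959524133669920)) (.cons (.rf (nat_lit 44) (nat_lit 14242959524133701664)) (.cons (.br (nat_lit 4) (nat_lit 0) (.cons (.rf (nat_lit 44) (nat_lit 14242959524133700672)) (.cons (.rf (nat_lit 44) (nat_lit 14242959524133667936)) (.cons (.rf (nat_lit 45) (nat_lit 14242959524133701664)) (.cons (.rf (nat_lit 45) (nat_lit 14097753756921858080)) (.cons (.zr (nat_lit 79230589810636532595478757376) (nat_lit 36893770721907441920) (nat_lit 5) (nat_lit 12)) .nil)))))) .nil))))),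
 (.br (nat_lit 1) (nat_lit 0) (.cons (.rf (nat_lit 39) (nat_lit 14242959524133701664)) (.cons (.rf (nat_lit 39) (nat_lit 14242959524133669920)) (.cons (.rf (nat_lit 44) (nat_lit 14242959524133701664)) (.cons (.rf (nat_lit 46) (nat_lit 14242959524133701664)) (.cons (.br (nat_lit 1) (nat_lit 0) (.cons (.rf (nat_lit 39) (nat_lit 14242959524133701664)) (.cons (.rf (nat_lit 39) (nat_lit 14242959524133669920)) (.cons (.rf (nat_lit 44) (nat_lit 14242959524133701664)) (.cons (.rf (nat_lit 46) (nat_lit 14242959524133701664)) .nil))))) .nil)))))),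
 (.br (nat_lit 8) (nat_lit 1) (.cons (.br (nat_lit 9) (nat_lit 0) (.cons (.br (nat_lit 10) (nat_lit 0) (.cons (.br (nat_lit 1) (nat_lit 0) (.cons (.rf (nat_lit 39) (nat_lit 14242959524133701664)) (.cons (.rf (nat_lit 39) (nat_lit 14242959524133669920)) (.cons (.rf (nat_lit 44) (nat_lit 14242959524133701664)) (.cons (.rf (nat_lit 47) (nat_lit 14242959524133701664)) (.cons (.rf (nat_lit 47) (nat_lit 14097753756921858080)) (.cons (.br (nat_lit 1) (nat_lit 0) (.cons (.rf (nat_lit 39) (nat_lit 14242959524133701664)) (.cons (.rf (nat_lit 39) (nat_lit 14242959524133669920)) (.cons (.rf (nat_lit 44) (nat_lit 14242959524133701664)) (.cons (.rf (nat_lit 47) (nat_lit 14242959524133701664)) (.cons (.rf (nat_lit 47) (nat_lit 14097753756921858080)) .nil)))))) .nil))))))) .nil)) .nil)) .nil)),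
 (.br (nat_lit 6) (nat_lit 0) (.cons (.br (nat_lit 11) (nat_lit 1) (.cons (.br (nat_lit 8) (nat_lit 1) (.cons (.rf (nat_lit 48) (nat_lit 407901468851537952)) (.cons (.rf (nat_lit 48) (nat_lit 262695701639694368)) .nil))) (.cons (.rf (nat_lit 13) (nat_lit 8530123)) .nil))) .nil)),
 (.br (nat_lit 5) (nat_lit 0) (.cons (.rf (nat_lit 10) (nat_lit 8624292)) (.cons (.br (nat_lit 5) (nat_lit 1) (.cons (.rf (nat_lit 13) (nat_lit 8624292)) (.cons (.br (nat_lit 6) (nat_lit 1) (.cons (.br (nat_lit 7) (nat_lit 1) (.cons (.rf (nat_lit 15) (nat_lit 11048032420)) (.cons (.rf (nat_lit 13) (nat_lit 8529063)) (.cons (.br (nat_lit 6) (nat_lit 0) (.cons (.rf (nat_lit 49) (nat_lit 11584701642934304)) (.cons (.br (nat_lit 6) (nat_lit 0) (.cons (.rf (nat_lit 49) (nat_lit 11584701642934304)) (.cons (.rf (nat_lit 10) (nat_lit 12948676)) .nil))) .nil))) .nil)))) .nil)) .nil))) .nil))),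
 (.br (nat_lit 0) (nat_lit 0) (.cons (.br (nat_lit 4) (nat_lit 1) (.cons (.br (nat_lit 4) (nat_lit 1) (.cons (.br (nat_lit 5) (nat_lit 0) (.cons (.rf (nat_lit 50) (nat_lit 247132686368)) (.cons (.br (nat_lit 5) (nat_lit 0) (.cons (.rf (nat_lit 50) (nat_lit 281492424736)) .nil)) .nil))) .nil)) .nil)) .nil)),
 (.br (nat_lit 1) (nat_lit 0) (.cons (.rf (nat_lit 10) (nat_lit 4294688)) (.cons (.rf (nat_lit 13) (nat_lit 4294688)) .nil))),
 (.br (nat_lit 1) (nat_lit 0) (.cons (.rf (nat_lit 52) (nat_lit 100384)) (.cons (.br (nat_lit 1) (nat_lit 0) (.cons (.rf (nat_lit 52) (nat_lit 133152)) .nil)) .nil))),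
 (.br (nat_lit 1) (nat_lit 0) (.cons (.ev (nat_lit 4740885567111897808896) (nat_lit 1)) (.cons (.kr (nat_lit 72058693549555714) (nat_lit 18446744078004519424) (nat_lit 0) (nat_lit 2)) (.cons (.br (nat_lit 2) (nat_lit 0) (.cons (.br (nat_lit 2) (nat_lit 0) (.cons (.kr (nat_lit 72057594037927938) (nat_lit 4295033088) (nat_lit 0) (nat_lit 3)) (.cons (.kr (nat_lit 18518801667747479554) (nat_lit 1103806726144) (nat_lit 0) (nat_lit 1)) (.cons (.rf (nat_lit 51) (nat_lit 394242)) .nil)))) (.cons (.br (nat_lit 2) (nat_lit 0) (.cons (.kr (nat_lit 72057594037927938) (nat_lit 4295033088) (nat_lit 0) (nat_lit 3)) (.cons (.kr (nat_lit 72057594037927937) (nat_lit 4295032832) (nat_lit 0) (nat_lit 1)) (.cons (.rf (nat_lit 51) (nat_lit 394242)) .nil)))) (.cons (.br (nat_lit 2) (nat_lit 0) (.cons (.kr (nat_lit 18518801667747479554) (nat_lit 1103806726144) (nat_lit 0) (nat_lit 1)) (.cons (.kr (nat_lit 72057594037927937) (nat_lit 4295032832) (nat_lit 0) (nat_lit 1)) (.cons (.rf (nat_lit 51) (nat_lit 394242))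 .nil)))) (.cons (.rf (nat_lit 51) (nat_lit 394242)) .nil))))) (.cons (.rf (nat_lit 51) (nat_lit 395265)) .nil))))),
 (.br (nat_lit 1) (nat_lit 0) (.cons (.kr (nat_lit 72058693549555714) (nat_lit 18446744078004519424) (nat_lit 0) (nat_lit 2)) (.cons (.rf (nat_lit 54) (nat_lit 372995270084069408)) (.cons (.kr (nat_lit 72057594037927937) (nat_lit 4294967552) (nat_lit 0) (nat_lit 2)) (.cons (.rf (nat_lit 51) (nat_lit 395265)) .nil))))),
 (.br (nat_lit 1) (nat_lit 0) (.cons (.rf (nat_lit 54) (nat_lit 407901468851537952)) (.cons (.rf (nat_lit 54) (nat_lit 372995270084069408)) (.cons (.rf (nat_lit 55) (nat_lit 407901468851537952)) (.cons (.rf (nat_lit 55) (nat_lit 372995270084069408)) (.cons (.rf (nat_lit 51) (nat_lit 395265)) .nil)))))),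
 (.br (nat_lit 6) (nat_lit 0) (.cons (.br (nat_lit 7) (nat_lit 0) .nil) .nil)),
 (.br (nat_lit 2) (nat_lit 0) (.cons (.ev (nat_lit 310698658079500161582628864) (nat_lit 1)) (.cons (.rf (nat_lit 57) (nat_lit 424469956640)) .nil))),
 (.br (nat_lit 2) (nat_lit 0) (.cons (.br (nat_lit 2) (nat_lit 0) .nil) .nil)),
 (.br (nat_lit 2) (nat_lit 0) (.cons (.rf (nat_lit 59) (nat_lit 6614517792)) (.cons (.br (nat_lit 2) (nat_lit 0) (.cons (.rf (nat_lit 59) (nat_lit 6614517792)) .nil)) .nil))),
 (.br (nat_lit 2) (nat_lit 0) (.cons (.ev (nat_lit 4722438821938676695041) (nat_lit 1)) .nil)),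
 (.br (nat_lit 2) (nat_lit 0) (.cons (.rf (nat_lit 57) (nat_lit 282598704192)) (.cons (.br (nat_lit 7) (nat_lit 0) (.cons (.br (nat_lit 7) (nat_lit 0) .nil) .nil)) .nil))),
 (.br (nat_lit 2) (nat_lit 0) (.cons (.rf (nat_lit 57) (nat_lit 424466908224)) (.cons (.ev (nat_lit 4722438821938676695296) (nat_lit 1)) .nil))),
 (.br (nat_lit 2) (nat_lit 0) (.cons (.rf (nat_lit 62) (nat_lit 13583075346464)) (.cons (.rf (nat_lit 63) (nat_lit 14242959524133701664)) (.cons (.br (nat_lit 2) (nat_lit 0) (.cons (.rf (nat_lit 62) (nat_lit 13583075346464)) (.cons (.ev (nat_lit 4722438821938676695296) (nat_lit 1)) .nil))) .nil)))),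
 (.br (nat_lit 6) (nat_lit 0) (.cons (.ev (nat_lit 4740885567111897808896) (nat_lit 1)) (.cons (.zr (nat_lit 928455029464037409542897664) (nat_lit 2427314819502021302812673) (nat_lit 5) (nat_lit 3)) (.cons (.ev (nat_lit 4740813509522154913793) (nat_lit 1)) .nil)))),
 (.br (nat_lit 2) (nat_lit 0) (.cons (.rf (nat_lit 62) (nat_lit 13583075346464)) (.cons (.br (nat_lit 2) (nat_lit 0) (.cons (.rf (nat_lit 57) (nat_lit 424466908224)) (.cons (.rf (nat_lit 65) (nat_lit 14242959524133701664)) .nil))) (.cons (.br (nat_lit 2) (nat_lit 0) (.cons (.rf (nat_lit 62) (nat_lit 13583075346464)) (.cons (.rf (nat_lit 65) (nat_lit 14242959524133701664)) .nil))) .nil)))),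
 (.br (nat_lit 2) (nat_lit 0) (.cons (.rf (nat_lit 63) (nat_lit 14242959524133701664)) (.cons (.rf (nat_lit 66) (nat_lit 14242959524133701664)) (.cons (.br (nat_lit 2) (nat_lit 0) (.cons (.ev (nat_lit 4722438821938676695296) (nat_lit 1)) (.cons (.rf (nat_lit 66) (nat_lit 14242959524133701664)) .nil))) .nil)))),
 (.br (nat_lit 1) (nat_lit 0) (.cons (.kr (nat_lit 72058693549555714) (nat_lit 18446744078004519424) (nat_lit 0) (nat_lit 2)) (.cons (.ev (nat_lit 4740885567111897808896) (nat_lit 1)) (.cons (.br (nat_lit 6) (nat_lit 0) (.cons (.br (nat_lit 2) (nat_lit 0) (.cons (.rf (nat_lit 58) (nat_lit 407901468851537952)) (.cons (.rf (nat_lit 58) (nat_lit 372995273305196576)) (.cons (.br (nat_lit 2) (nat_lit 0) (.cons (.rf (nat_lit 57) (nat_lit 424469956640)) (.cons (.rf (nat_lit 57) (nat_lit 423429769248)) .nil))) .nil)))) (.cons (.zr (nat_lit 1208925964013491250528256) (nat_lit 9463179709817294946560) (nat_lit 5) (nat_lit 10)) (.cons (.rf (nat_lit 60) (nat_lit 12153096224)) (.cons (.br (nat_lit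 2) (nat_lit 0) (.cons (.br (nat_lit 2) (nat_lit 0) (.cons (.ev (nat_lit 310698658079500161582628864) (nat_lit 1)) (.cons (.rf (nat_lit 61) (nat_lit 14242959524133701664)) .nil))) (.cons (.br (nat_lit 2) (nat_lit 0) (.cons (.ev (nat_lit 310698658079500161582628864) (nat_lit 1)) (.cons (.rf (nat_lit 61) (nat_lit 14208056627021580320)) .nil))) (.cons (.br (nat_lit 2) (nat_lit 0) (.cons (.rf (nat_lit 61) (nat_lit 14242959524133701664)) (.cons (.rf (nat_lit 61) (nat_lit 14208056627021580320)) .nil))) .nil)))) .nil))))) (.cons (.br (nat_lit 2) (nat_lit 0) (.cons (.rf (nat_lit 64) (nat_lit 14242959524133701664)) (.cons (.rf (nat_lit 66) (nat_lit 14242959524133701664)) (.cons (.rf (nat_lit 67) (nat_lit 14242959524133701664)) (.cons (.br (nat_lit 2) (nat_lit 0) (.cons (.rf (nat_lit 64) (nat_lit 14242959524133701664)) (.cons (.rf (nat_lit 66) (nat_lit 14242959524133701664)) (.cons (.rf (nat_lit 67) (nat_lit 14242959524133701664)) .nil)))) .nil))))) .nil))))),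
 (.br (nat_lit 2) (nat_lit 0) (.cons (.rf (nat_lit 63) (nat_lit 14208056627021580320)) (.cons (.rf (nat_lit 62) (nat_lit 13549722241056)) (.cons (.br (nat_lit 2) (nat_lit 0) (.cons (.ev (nat_lit 4722438821938676695296) (nat_lit 1)) (.cons (.rf (nat_lit 62) (nat_lit 13549722241056)) .nil))) .nil)))),
 (.br (nat_lit 2) (nat_lit 0) (.cons (.rf (nat_lit 57) (nat_lit 423426720832)) (.cons (.br (nat_lit 12) (nat_lit 0) (.cons (.ev (nat_lit 4722438821938676695041) (nat_lit 1)) (.cons (.ev (nat_lit 310698658007442571839733761) (nat_lit 1)) .nil))) .nil))),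
 (.br (nat_lit 2) (nat_lit 0) (.cons (.rf (nat_lit 63) (nat_lit 14208056627021580320)) (.cons (.rf (nat_lit 70) (nat_lit 14242959524133701664)) (.cons (.br (nat_lit 2) (nat_lit 0) (.cons (.ev (nat_lit 4722438821938676695296) (nat_lit 1)) (.cons (.rf (nat_lit 70) (nat_lit 14242959524133701664)) .nil))) .nil)))),
 (.br (nat_lit 2) (nat_lit 0) (.cons (.rf (nat_lit 62) (nat_lit 13549722241056)) (.cons (.rf (nat_lit 71) (nat_lit 14242959524133701664)) (.cons (.br (nat_lit 2) (nat_lit 0) (.cons (.rf (nat_lit 62) (nat_lit 13549722241056)) (.cons (.rf (nat_lit 71) (nat_lit 14242959524133701664)) .nil))) .nil)))),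
 (.br (nat_lit 1) (nat_lit 0) (.cons (.rf (nat_lit 56) (nat_lit 407901468851537952)) (.cons (.ev (nat_lit 4740885567111897808896) (nat_lit 1)) (.cons (.rf (nat_lit 68) (nat_lit 407901468851537952)) (.cons (.br (nat_lit 2) (nat_lit 0) (.cons (.rf (nat_lit 69) (nat_lit 14242959524133701664)) (.cons (.rf (nat_lit 71) (nat_lit 14242959524133701664)) (.cons (.rf (nat_lit 72) (nat_lit 14242959524133701664)) (.cons (.br (nat_lit 2) (nat_lit 0) (.cons (.rf (nat_lit 69) (nat_lit 14242959524133701664)) (.cons (.rf (nat_lit 71) (nat_lit 14242959524133701664)) (.cons (.rf (nat_lit 72) (nat_lit 14242959524133701664)) .nil)))) .nil))))) .nil))))),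
 (.br (nat_lit 1) (nat_lit 0) (.cons (.rf (nat_lit 56) (nat_lit 407901468851537952)) (.cons (.ev (nat_lit 4740885567111897808896) (nat_lit 1)) (.cons (.rf (nat_lit 68) (nat_lit 407901468851537952)) (.cons (.rf (nat_lit 73) (nat_lit 407901468851537952)) (.cons (.br (nat_lit 1) (nat_lit 0) (.cons (.rf (nat_lit 51) (nat_lit 395265)) (.cons (.ev (nat_lit 4740885567111897808896) (nat_lit 1)) (.cons (.rf (nat_lit 68) (nat_lit 407901468851537952)) (.cons (.rf (nat_lit 73) (nat_lit 407901468851537952)) .nil))))) .nil)))))),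
 (.br (nat_lit 2) (nat_lit 0) (.cons (.kr (nat_lit 72057594037927937) (nat_lit 4294967552) (nat_lit 0) (nat_lit 2)) (.cons (.rf (nat_lit 74) (nat_lit 407901468851536960)) (.cons (.rf (nat_lit 74) (nat_lit 372995270084068416)) (.cons (.ev (nat_lit 310698658079500161582628864) (nat_lit 1)) (.cons (.br (nat_lit 2) (nat_lit 0) (.cons (.kr (nat_lit 72057594037927937) (nat_lit 4294967552) (nat_lit 0) (nat_lit 2)) (.cons (.rf (nat_lit 74) (nat_lit 407901468851536960)) (.cons (.rf (nat_lit 74) (nat_lit 372995270084068416)) (.cons (.ev (nat_lit 310698658079500161582628864) (nat_lit 1)) .nil))))) .nil)))))),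
 (.br (nat_lit 2) (nat_lit 0) (.cons (.kr (nat_lit 72057594037927937) (nat_lit 4294967552) (nat_lit 0) (nat_lit 2)) (.cons (.rf (nat_lit 74) (nat_lit 407901468851536960)) (.cons (.rf (nat_lit 74) (nat_lit 372995270084068416)) (.cons (.rf (nat_lit 75) (nat_lit 407901468851537952)) (.cons (.rf (nat_lit 75) (nat_lit 372995270084069408)) (.cons (.br (nat_lit 2) (nat_lit 0) (.cons (.kr (nat_lit 72057594037927937) (nat_lit 4294967552) (nat_lit 0) (nat_lit 2)) (.cons (.rf (nat_lit 74) (nat_lit 407901468851536960)) (.cons (.rf (nat_lit 74) (nat_lit 372995270084068416)) (.cons (.rf (nat_lit 75) (nat_lit 407901468851537952)) (.cons (.rf (nat_lit 75) (nat_lit 372995270084069408)) .nil)))))) .nil))))))),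
 (.br (nat_lit 1) (nat_lit 0) (.cons (.rf (nat_lit 56) (nat_lit 407901468851537952)) (.cons (.rf (nat_lit 74) (nat_lit 407901468851537952)) (.cons (.rf (nat_lit 74) (nat_lit 372995270084069408)) (.cons (.rf (nat_lit 76) (nat_lit 407901468851537952)) (.cons (.br (nat_lit 1) (nat_lit 0) (.cons (.rf (nat_lit 51) (nat_lit 395265)) (.cons (.rf (nat_lit 74) (nat_lit 407901468851537952)) (.cons (.rf (nat_lit 74) (nat_lit 372995270084069408)) (.cons (.rf (nat_lit 76) (nat_lit 407901468851537952)) .nil))))) .nil)))))),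
 (.br (nat_lit 7) (nat_lit 0) (.cons (.br (nat_lit 9) (nat_lit 1) (.cons (.br (nat_lit 8) (nat_lit 0) (.cons (.br (nat_lit 1) (nat_lit 0) (.cons (.rf (nat_lit 56) (nat_lit 407901468851537952)) (.cons (.rf (nat_lit 74) (nat_lit 407901468851537952)) (.cons (.rf (nat_lit 74) (nat_lit 372995270084069408)) (.cons (.rf (nat_lit 77) (nat_lit 407901468851537952)) (.cons (.rf (nat_lit 77) (nat_lit 372995270084069408)) (.cons (.br (nat_lit 1) (nat_lit 0) (.cons (.rf (nat_lit 51) (nat_lit 395265)) (.cons (.rf (nat_lit 74) (nat_lit 407901468851537952)) (.cons (.rf (nat_lit 74) (nat_lit 372995270084069408)) (.cons (.rf (nat_lit 77) (nat_lit 407901468851537952)) (.cons (.rf (nat_lit 77) (nat_lit 372995270084069408)) .nil)))))) .nil))))))) .nil)) .nil)) .nil)),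
 (.br (nat_lit 5) (nat_lit 0) (.cons (.br (nat_lit 10) (nat_lit 1) (.cons (.br (nat_lit 7) (nat_lit 0) (.cons (.rf (nat_lit 78) (nat_lit 11584701642934304)) (.cons (.br (nat_lit 7) (nat_lit 0) (.cons (.rf (nat_lit 78) (nat_lit 11584701642934304)) .nil)) .nil))) (.cons (.rf (nat_lit 53) (nat_lit 8362)) .nil))) .nil)),
 (.br (nat_lit 4) (nat_lit 0) (.cons (.rf (nat_lit 10) (nat_lit 9639043)) (.cons (.br (nat_lit 6) (nat_lit 1) (.cons (.rf (nat_lit 15) (nat_lit 8834454659)) (.cons (.rf (nat_lit 53) (nat_lit 7302)) (.cons (.br (nat_lit 5) (nat_lit 0) (.cons (.rf (nat_lit 79) (nat_lit 325702574508064)) (.cons (.br (nat_lit 5) (nat_lit 0) (.cons (.rf (nat_lit 79) (nat_lit 325702574508064)) (.cons (.rf (nat_lit 10) (nat_lit 11866275)) .nil))) .nil))) .nil)))) .nil))),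
 (.br (nat_lit 1) (nat_lit 0) (.cons (.kr (nat_lit 1) (nat_lit 256) (nat_lit 0) (nat_lit 2)) (.cons (.rf (nat_lit 80) (nat_lit 9046446934017)) (.cons (.rf (nat_lit 80) (nat_lit 7982336280577)) (.cons (.rf (nat_lit 51) (nat_lit 362497)) .nil))))),
 (.br (nat_lit 1) (nat_lit 0) (.cons (.rf (nat_lit 80) (nat_lit 9046446934017)) (.cons (.rf (nat_lit 80) (nat_lit 4579752347649)) (.cons (.br (nat_lit 2) (nat_lit 0) (.cons (.rf (nat_lit 81) (nat_lit 11584701642933312)) (.cons (.rf (nat_lit 81) (nat_lit 10490581376762944)) (.cons (.rf (nat_lit 81) (nat_lit 6866701643972673)) (.cons (.rf (nat_lit 81) (nat_lit 6865635385868353)) (.cons (.rf (nat_lit 51) (nat_lit 361474)) .nil)))))) (.cons (.rf (nat_lit 51) (nat_lit 362497)) .nil))))),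
 (.br (nat_lit 1) (nat_lit 0) (.cons (.rf (nat_lit 81) (nat_lit 11584701642934304)) (.cons (.rf (nat_lit 81) (nat_lit 10490581376763936)) (.cons (.rf (nat_lit 82) (nat_lit 11584701642934304)) (.cons (.rf (nat_lit 82) (nat_lit 10492920923785248)) (.cons (.rf (nat_lit 51) (nat_lit 362497)) .nil)))))),
 (.br (nat_lit 2) (nat_lit 0) (.cons (.br (nat_lit 11) (nat_lit 0) (.cons (.br (nat_lit 12) (nat_lit 0) .nil) (.cons (.br (nat_lit 9) (nat_lit 0) (.cons (.ev (nat_lit 79229376162450435096675680513) (nat_lit 1)) .nil)) .nil))) .nil)),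
 (.br (nat_lit 2) (nat_lit 0) (.cons (.br (nat_lit 2) (nat_lit 0) (.cons (.rf (nat_lit 84) (nat_lit 13126066816545818656)) .nil)) (.cons (.rf (nat_lit 84) (nat_lit 13126066816545818656)) .nil))),
 (.br (nat_lit 1) (nat_lit 0) (.cons (.kr (nat_lit 1) (nat_lit 256) (nat_lit 0) (nat_lit 2)) (.cons (.kr (nat_lit 2417851639229258349412864) (nat_lit 18447025552998006784) (nat_lit 1) (nat_lit 0)) (.cons (.kr (nat_lit 2417851639229258349412864) (nat_lit 72340168543043584) (nat_lit 1) (nat_lit 0)) (.cons (.br (nat_lit 2) (nat_lit 0) (.cons (.rf (nat_lit 85) (nat_lit 443930265870501920)) (.cons (.rf (nat_lit 85) (nat_lit 443999569430284320)) (.cons (.br (nat_lit 2) (nat_lit 0) (.cons (.rf (nat_lit 85) (nat_lit 443930265870501920)) (.cons (.rf (nat_lit 85) (nat_lit 443999569430284320)) .nil))) .nil)))) .nil))))),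
 (.br (nat_lit 2) (nat_lit 0) (.cons (.rf (nat_lit 80) (nat_lit 4579752346626)) (.cons (.ev (nat_lit 309499232333646442780557312) (nat_lit 2)) (.cons (.rf (nat_lit 80) (nat_lit 4579752357890)) .nil))))]

theorem c1 : chkAll C T R L1 (nat_lit 46) = true := by decide +kernel

theorem l1 : (nat_lit 46) + L1.length = (nat_lit 88) := by decide +kernel

/-- part of the certificates -/
def L2 : List Prf := [(.br (nat_lit 2) (nat_lit 0) (.cons (.ev (nat_lit 309499176920794790090506752) (nat_lit 2)) (.cons (.br (nat_lit 2) (nat_lit 0) (.cons (.ev (nat_lit 309499176920794790090506752) (nat_lit 2)) .nil)) .nil))),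
 (.br (nat_lit 1) (nat_lit 0) (.cons (.rf (nat_lit 80) (nat_lit 9046446934017)) (.cons (.kr (nat_lit 2417851639229258349412864) (nat_lit 18447025552998006784) (nat_lit 1) (nat_lit 0)) (.cons (.br (nat_lit 6) (nat_lit 0) (.cons (.br (nat_lit 9) (nat_lit 0) (.cons (.rf (nat_lit 87) (nat_lit 407901468851537952)) (.cons (.ev (nat_lit 1856919522612188894124311552) (nat_lit 3)) (.cons (.br (nat_lit 11) (nat_lit 0) (.cons (.rf (nat_lit 87) (nat_lit 335913178373392416)) (.cons (.ev (nat_lit 309499176920794790090506752) (nat_lit 2)) .nil))) .nil)))) (.cons (.rf (nat_lit 60) (nat_lit 10039167008)) (.cons (.rf (nat_lit 60) (nat_lit 12119541792)) (.cons (.br (nat_lit 9) (nat_lit 0) (.cons (.rf (nat_lit 88) (nat_lit 14242959524133701664)) (.cons (.ev (nat_lit 1856919522612188894124311552) (nat_lit 3)) (.cons (.br (nat_lit 11) (nat_lit 0) (.cons (.rf (nat_lit 88) (nat_lit 14170971233655556128)) (.cons (.ev (nat_lit 309499176920794790090506752) (nat_lit 2)) .nil))) .nil)))) .nil))))) (.cons (.rf (nat_lit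 80) (nat_lit 9046446944257)) .nil))))),
 (.br (nat_lit 1) (nat_lit 0) (.cons (.rf (nat_lit 81) (nat_lit 12710601549776928)) (.cons (.rf (nat_lit 86) (nat_lit 407901468851537952)) (.cons (.rf (nat_lit 89) (nat_lit 407901468851537952)) (.cons (.rf (nat_lit 89) (nat_lit 335913178373392416)) (.cons (.br (nat_lit 1) (nat_lit 0) (.cons (.rf (nat_lit 51) (nat_lit 395265)) (.cons (.rf (nat_lit 86) (nat_lit 407901468851537952)) (.cons (.rf (nat_lit 80) (nat_lit 9046446944257)) (.cons (.rf (nat_lit 80) (nat_lit 7983410032641)) .nil))))) .nil)))))),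
 (.br (nat_lit 2) (nat_lit 0) (.cons (.rf (nat_lit 51) (nat_lit 394242)) (.cons (.rf (nat_lit 80) (nat_lit 9046446944258)) (.cons (.rf (nat_lit 80) (nat_lit 4579752357890)) (.cons (.br (nat_lit 1) (nat_lit 0) (.cons (.ev (nat_lit 309499176920794790090506752) (nat_lit 2)) (.cons (.ev (nat_lit 309499232333646442780426752) (nat_lit 2)) (.cons (.br (nat_lit 3) (nat_lit 0) (.cons (.ev (nat_lit 309499176921359930443825666) (nat_lit 2)) (.cons (.br (nat_lit 6) (nat_lit 0) (.cons (.ev (nat_lit 79538856468424098963502727425) (nat_lit 1)) .nil)) .nil))) .nil)))) .nil))))),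
 (.br (nat_lit 2) (nat_lit 0) (.cons (.rf (nat_lit 90) (nat_lit 407901468851536960)) (.cons (.rf (nat_lit 90) (nat_lit 335910838826370112)) (.cons (.rf (nat_lit 91) (nat_lit 14242959524133700672)) (.cons (.rf (nat_lit 91) (nat_lit 14242959524133701664)) .nil))))),
 (.br (nat_lit 1) (nat_lit 0) (.cons (.rf (nat_lit 83) (nat_lit 12710601549776928)) (.cons (.rf (nat_lit 90) (nat_lit 407901468851537952)) (.cons (.rf (nat_lit 90) (nat_lit 335910838826371104)) (.cons (.br (nat_lit 2) (nat_lit 0) (.cons (.rf (nat_lit 90) (nat_lit 407901468851536960)) (.cons (.rf (nat_lit 90) (nat_lit 335910838826370112)) (.cons (.rf (nat_lit 92) (nat_lit 14242959524133701664)) (.cons (.rf (nat_lit 92) (nat_lit 14170971233655556128)) (.cons (.br (nat_lit 2) (nat_lit 0) (.cons (.rf (nat_lit 90) (nat_lit 407901468851536960)) (.cons (.rf (nat_lit 90) (nat_lit 335910838826370112)) (.cons (.rf (nat_lit 91) (nat_lit 14242959524133701664)) (.cons (.rf (nat_lit 91) (nat_lit 14170971233655556128)) .nil))))) .nil))))))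 .nil))))),
 (.br (nat_lit 1) (nat_lit 0) (.cons (.rf (nat_lit 83) (nat_lit 12710601549776928)) (.cons (.rf (nat_lit 90) (nat_lit 407901468851537952)) (.cons (.rf (nat_lit 90) (nat_lit 335910838826371104)) (.cons (.rf (nat_lit 93) (nat_lit 407901468851537952)) (.cons (.br (nat_lit 1) (nat_lit 0) (.cons (.rf (nat_lit 51) (nat_lit 395265)) (.cons (.rf (nat_lit 80) (nat_lit 9046446944257)) (.cons (.rf (nat_lit 80) (nat_lit 4579752357889)) (.cons (.rf (nat_lit 93) (nat_lit 407901468851537952)) .nil))))) .nil)))))),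
 (.br (nat_lit 6) (nat_lit 1) (.cons (.br (nat_lit 7) (nat_lit 0) (.cons (.br (nat_lit 8) (nat_lit 0) (.cons (.br (nat_lit 1) (nat_lit 0) (.cons (.rf (nat_lit 83) (nat_lit 12710601549776928)) (.cons (.rf (nat_lit 90) (nat_lit 407901468851537952)) (.cons (.rf (nat_lit 90) (nat_lit 335910838826371104)) (.cons (.rf (nat_lit 94) (nat_lit 407901468851537952)) (.cons (.rf (nat_lit 94) (nat_lit 335913178373392416)) (.cons (.br (nat_lit 1) (nat_lit 0) (.cons (.rf (nat_lit 51) (nat_lit 395265)) (.cons (.rf (nat_lit 90) (nat_lit 407901468851537952)) (.cons (.rf (nat_lit 90) (nat_lit 335910838826371104)) (.cons (.rf (nat_lit 94) (nat_lit 407901468851537952)) (.cons (.rf (nat_lit 94) (nat_lit 335913178373392416)) .nil)))))) .nil))))))) .nil)) .nil)) .nil)),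
 (.br (nat_lit 5) (nat_lit 0) (.cons (.rf (nat_lit 80) (nat_lit 7978041313312)) (.cons (.br (nat_lit 11) (nat_lit 1) (.cons (.br (nat_lit 6) (nat_lit 1) (.cons (.rf (nat_lit 95) (nat_lit 407901468851537952)) (.cons (.rf (nat_lit 95) (nat_lit 335913178373392416)) .nil))) (.cons (.rf (nat_lit 53) (nat_lit 8363)) .nil))) .nil))),
 (.br (nat_lit 4) (nat_lit 0) (.cons (.rf (nat_lit 10) (nat_lit 9639043)) (.cons (.rf (nat_lit 10) (nat_lit 10785923)) (.cons (.br (nat_lit 9) (nat_lit 1) (.cons (.rf (nat_lit 15) (nat_lit 8835601539)) (.cons (.rf (nat_lit 53) (nat_lit 7305)) (.cons (.br (nat_lit 5) (nat_lit 0) (.cons (.rf (nat_lit 80) (nat_lit 7978041313312)) (.cons (.rf (nat_lit 96) (nat_lit 11584701642934304)) (.cons (.br (nat_lit 5) (nat_lit 0) (.cons (.rf (nat_lit 10) (nat_lit 11735203)) (.cons (.rf (nat_lit 96) (nat_lit 11584701642934304)) .nil))) .nil)))) .nil)))) .nil)))),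
 (.br (nat_lit 0) (nat_lit 0) (.cons (.rf (nat_lit 51) (nat_lit 100384)) (.cons (.br (nat_lit 3) (nat_lit 1) (.cons (.br (nat_lit 3) (nat_lit 1) (.cons (.br (nat_lit 0) (nat_lit 0) (.cons (.rf (nat_lit 51) (nat_lit 198688)) (.cons (.br (nat_lit 4) (nat_lit 1) (.cons (.rf (nat_lit 53) (nat_lit 5251)) (.cons (.br (nat_lit 5) (nat_lit 1) (.cons (.br (nat_lit 4) (nat_lit 0) (.cons (.rf (nat_lit 80) (nat_lit 9043225708576)) (.cons (.rf (nat_lit 97) (nat_lit 325702574508064)) (.cons (.br (nat_lit 4) (nat_lit 0) (.cons (.rf (nat_lit 80) (nat_lit 9043225708576)) (.cons (.rf (nat_lit 97) (nat_lit 360886946596896)) .nil))) .nil)))) .nil)) .nil))) .nil))) .nil)) .nil)) .nil))),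
 (.br (nat_lit 1) (nat_lit 0) (.cons (.ev (nat_lit 4722366483969173684224) (nat_lit 1)) (.cons (.ev (nat_lit 4722366764348916957184) (nat_lit 1)) (.cons (.rf (nat_lit 98) (nat_lit 10241)) (.cons (.br (nat_lit 1) (nat_lit 0) (.cons (.ev (nat_lit 4722366483969173684224) (nat_lit 1)) (.cons (.ev (nat_lit 4722366764348916957184) (nat_lit 1)) (.cons (.rf (nat_lit 98) (nat_lit 11265)) .nil)))) .nil))))),
 (.br (nat_lit 1) (nat_lit 0) (.cons (.ev (nat_lit 4722366483969173684224) (nat_lit 1)) (.cons (.kr (nat_lit 9444732965739290427394) (nat_lit 282578800082944) (nat_lit 0) (nat_lit 1)) (.cons (.rf (nat_lit 98) (nat_lit 10241)) (.cons (.br (nat_lit 1) (nat_lit 0) (.cons (.ev (nat_lit 4722366483969173684224) (nat_lit 1)) (.cons (.kr (nat_lit 9444732965739290427394) (nat_lit 282578800082944) (nat_lit 0) (nat_lit 1)) (.cons (.rf (nat_lit 98) (nat_lit 11265)) .nil)))) .nil))))),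
 (.br (nat_lit 9) (nat_lit 1) (.cons (.br (nat_lit 1) (nat_lit 0) (.cons (.rf (nat_lit 99) (nat_lit 325702574508064)) (.cons (.rf (nat_lit 100) (nat_lit 325702574508064)) (.cons (.rf (nat_lit 100) (nat_lit 324636381415456)) (.cons (.rf (nat_lit 98) (nat_lit 10241)) (.cons (.br (nat_lit 1) (nat_lit 0) (.cons (.rf (nat_lit 99) (nat_lit 325702574508064)) (.cons (.rf (nat_lit 100) (nat_lit 325702574508064)) (.cons (.rf (nat_lit 100) (nat_lit 324636381415456)) (.cons (.rf (nat_lit 98) (nat_lit 11265)) .nil))))) .nil)))))) .nil)),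
 (.br (nat_lit 4) (nat_lit 0) (.cons (.br (nat_lit 6) (nat_lit 1) (.cons (.br (nat_lit 7) (nat_lit 0) (.cons (.rf (nat_lit 101) (nat_lit 325702574508064)) (.cons (.br (nat_lit 7) (nat_lit 0) (.cons (.rf (nat_lit 101) (nat_lit 325702574508064)) .nil)) .nil))) (.cons (.rf (nat_lit 53) (nat_lit 8326)) .nil))) (.cons (.rf (nat_lit 10) (nat_lit 10685570)) .nil))),
 (.br (nat_lit 3) (nat_lit 0) (.cons (.rf (nat_lit 10) (nat_lit 6459490)) (.cons (.rf (nat_lit 10) (nat_lit 9605218)) (.cons (.br (nat_lit 5) (nat_lit 1) (.cons (.rf (nat_lit 15) (nat_lit 8834420834)) (.cons (.rf (nat_lit 53) (nat_lit 7269)) (.cons (.br (nat_lit 6) (nat_lit 1) (.cons (.rf (nat_lit 102) (nat_lit 325702574508064)) (.cons (.br (nat_lit 6) (nat_lit 1) (.cons (.rf (nat_lit 102) (nat_lit 325702574508064)) (.cons (.rf (nat_lit 102) (nat_lit 321304431531040)) .nil))) (.cons (.rf (nat_lit 102) (nat_lit 321304431531040)) .nil)))) .nil)))) .nil)))),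
 (.br (nat_lit 3) (nat_lit 0) (.cons (.rf (nat_lit 10) (nat_lit 9605218)) (.cons (.rf (nat_lit 10) (nat_lit 9637986)) (.cons (.br (nat_lit 9) (nat_lit 1) (.cons (.rf (nat_lit 15) (nat_lit 8835600482)) (.cons (.rf (nat_lit 53) (nat_lit 7273)) (.cons (.br (nat_lit 4) (nat_lit 0) (.cons (.rf (nat_lit 103) (nat_lit 7978072803360)) (.cons (.rf (nat_lit 103) (nat_lit 7977032615968)) (.cons (.br (nat_lit 4) (nat_lit 0) (.cons (.rf (nat_lit 103) (nat_lit 7978072803360)) (.cons (.rf (nat_lit 103) (nat_lit 7977032615968)) .nil))) .nil)))) .nil)))) .nil)))),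
 (.br (nat_lit 0) (nat_lit 0) (.cons (.rf (nat_lit 98) (nat_lit 2080)) (.cons (.br (nat_lit 2) (nat_lit 1) (.cons (.br (nat_lit 2) (nat_lit 1) (.cons (.br (nat_lit 0) (nat_lit 0) (.cons (.rf (nat_lit 98) (nat_lit 5152)) (.cons (.br (nat_lit 0) (nat_lit 0) (.cons (.rf (nat_lit 98) (nat_lit 6176)) (.cons (.br (nat_lit 3) (nat_lit 1) (.cons (.rf (nat_lit 53) (nat_lit 4194)) (.cons (.br (nat_lit 4) (nat_lit 1) (.cons (.br (nat_lit 3) (nat_lit 0) (.cons (.rf (nat_lit 103) (nat_lit 9043225708576)) (.cons (.rf (nat_lit 103) (nat_lit 9042185521184)) (.cons (.rf (nat_lit 104) (nat_lit 325702574508064)) (.cons (.br (nat_lit 3) (nat_lit 0) (.cons (.rf (nat_lit 103) (nat_lit 9043225708576)) (.cons (.rf (nat_lit 103) (nat_lit 9042185521184)) (.cons (.rf (nat_lit 104) (nat_lit 360886946596896)) .nil)))) .nil))))) .nil)) .nil))) .nil))) .nil))) .nil)) .nil)) .nil))),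
 (.br (nat_lit 3) (nat_lit 0) (.cons (.rf (nat_lit 10) (nat_lit 6457441)) (.cons (.br (nat_lit 5) (nat_lit 1) (.cons (.rf (nat_lit 53) (nat_lit 7269)) (.cons (.br (nat_lit 6) (nat_lit 1) (.cons (.br (nat_lit 6) (nat_lit 1) (.cons (.kr (nat_lit 281474976710912) (nat_lit 1103806595072) (nat_lit 1) (nat_lit 0)) .nil)) (.cons (.br (nat_lit 6) (nat_lit 1) (.cons (.kr (nat_lit 281474976710912) (nat_lit 1103806595072) (nat_lit 1) (nat_lit 0)) .nil)) .nil))) .nil))) .nil))),
 (.br (nat_lit 2) (nat_lit 0) (.cons (.rf (nat_lit 10) (nat_lit 5377089)) (.cons (.rf (nat_lit 10) (nat_lit 6425665)) (.cons (.br (nat_lit 4) (nat_lit 1) (.cons (.kr (nat_lit 256) (nat_lit 4294967296) (nat_lit 1) (nat_lit 0)) (.cons (.rf (nat_lit 53) (nat_lit 7236)) (.cons (.br (nat_lit 3) (nat_lit 0) (.cons (.rf (nat_lit 106) (nat_lit 10177097074720)) (.cons (.rf (nat_lit 106) (nat_lit 10176056887328)) (.cons (.br (nat_lit 3) (nat_lit 0) (.cons (.rf (nat_lit 106) (nat_lit 10177097074720)) (.cons (.rf (nat_lit 106) (nat_lit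 10176056887328)) .nil))) .nil)))) .nil)))) .nil)))),
 (.br (nat_lit 4) (nat_lit 1) (.cons (.br (nat_lit 7) (nat_lit 0) (.cons (.br (nat_lit 8) (nat_lit 0) (.cons (.ev (nat_lit 18889898564028295415552) (nat_lit 3)) .nil)) .nil)) .nil)),
 (.br (nat_lit 3) (nat_lit 0) (.cons (.rf (nat_lit 10) (nat_lit 6424673)) (.cons (.br (nat_lit 6) (nat_lit 1) (.cons (.br (nat_lit 4) (nat_lit 1) (.cons (.rf (nat_lit 108) (nat_lit 325702574508064)) (.cons (.rf (nat_lit 108) (nat_lit 324636382399520)) .nil))) (.cons (.rf (nat_lit 53) (nat_lit 8294)) .nil))) .nil))),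
 (.br (nat_lit 2) (nat_lit 0) (.cons (.rf (nat_lit 10) (nat_lit 5377089)) (.cons (.rf (nat_lit 10) (nat_lit 6458433)) (.cons (.br (nat_lit 5) (nat_lit 1) (.cons (.rf (nat_lit 15) (nat_lit 8834419777)) (.cons (.rf (nat_lit 53) (nat_lit 7237)) (.cons (.br (nat_lit 3) (nat_lit 0) (.cons (.rf (nat_lit 107) (nat_lit 7978073787424)) (.cons (.rf (nat_lit 109) (nat_lit 325702574508064)) (.cons (.br (nat_lit 3) (nat_lit 0) (.cons (.rf (nat_lit 107) (nat_lit 7978073787424)) (.cons (.rf (nat_lit 109) (nat_lit 325702574508064)) .nil))) .nil)))) .nil)))) .nil)))),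
 (.br (nat_lit 5) (nat_lit 0) (.cons (.br (nat_lit 2) (nat_lit 0) (.cons (.rf (nat_lit 107) (nat_lit 9043225708576)) (.cons (.rf (nat_lit 110) (nat_lit 9043225708576)) (.cons (.rf (nat_lit 110) (nat_lit 9042185521184)) (.cons (.br (nat_lit 2) (nat_lit 0) (.cons (.rf (nat_lit 107) (nat_lit 9043225708576)) (.cons (.rf (nat_lit 110) (nat_lit 9043225708576)) (.cons (.rf (nat_lit 110) (nat_lit 9042185521184)) .nil)))) .nil))))) (.cons (.br (nat_lit 9) (nat_lit 0) (.cons (.br (nat_lit 9) (nat_lit 0) (.cons (.rf (nat_lit 105) (nat_lit 329)) .nil)) (.cons (.rf (nat_lit 105) (nat_lit 329)) .nil))) .nil))),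
 (.br (nat_lit 6) (nat_lit 1) (.cons (.br (nat_lit 8) (nat_lit 0) (.cons (.br (nat_lit 7) (nat_lit 0) (.cons (.ev (nat_lit 1208925891954797700972544) (nat_lit 1)) .nil)) .nil)) .nil)),
 (.br (nat_lit 3) (nat_lit 0) (.cons (.rf (nat_lit 10) (nat_lit 6457441)) (.cons (.br (nat_lit 5) (nat_lit 1) (.cons (.br (nat_lit 6) (nat_lit 1) (.cons (.rf (nat_lit 112) (nat_lit 11584701642934304)) (.cons (.rf (nat_lit 112) (nat_lit 11583636458507296)) .nil))) (.cons (.rf (nat_lit 53) (nat_lit 8293)) .nil))) .nil))),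
 (.br (nat_lit 2) (nat_lit 0) (.cons (.rf (nat_lit 10) (nat_lit 5377089)) (.cons (.rf (nat_lit 10) (nat_lit 6425665)) (.cons (.br (nat_lit 4) (nat_lit 1) (.cons (.rf (nat_lit 15) (nat_lit 8835435585)) (.cons (.rf (nat_lit 53) (nat_lit 7236)) (.cons (.br (nat_lit 3) (nat_lit 0) (.cons (.rf (nat_lit 113) (nat_lit 11584701642934304)) (.cons (.rf (nat_lit 113) (nat_lit 11584700602746912)) (.cons (.br (nat_lit 3) (nat_lit 0) (.cons (.rf (nat_lit 113) (nat_lit 11584701642934304)) (.cons (.rf (nat_lit 113) (nat_lit 11584700602746912)) .nil))) .nil)))) .nil)))) .nil)))),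
 (.br (nat_lit 9) (nat_lit 0) (.cons (.rf (nat_lit 105) (nat_lit 288)) (.cons (.br (nat_lit 2) (nat_lit 0) (.cons (.rf (nat_lit 114) (nat_lit 325702574508064)) (.cons (.rf (nat_lit 114) (nat_lit 325702542002208)) (.cons (.rf (nat_lit 114) (nat_lit 325701469308960)) (.cons (.br (nat_lit 2) (nat_lit 0) (.cons (.rf (nat_lit 114) (nat_lit 325702574508064)) (.cons (.rf (nat_lit 114) (nat_lit 325702542002208)) (.cons (.rf (nat_lit 114) (nat_lit 325701469308960)) .nil)))) .nil))))) (.cons (.rf (nat_lit 105) (nat_lit 329)) .nil)))),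
 (.br (nat_lit 9) (nat_lit 0) (.cons (.rf (nat_lit 105) (nat_lit 288)) (.cons (.rf (nat_lit 115) (nat_lit 325702574508064)) (.cons (.rf (nat_lit 115) (nat_lit 325701534320672)) (.cons (.rf (nat_lit 105) (nat_lit 329)) .nil))))),
 (.br (nat_lit 0) (nat_lit 0) (.cons (.rf (nat_lit 105) (nat_lit 32)) (.cons (.br (nat_lit 1) (nat_lit 1) (.cons (.br (nat_lit 1) (nat_lit 1) (.cons (.br (nat_lit 0) (nat_lit 0) (.cons (.rf (nat_lit 105) (nat_lit 128)) (.cons (.br (nat_lit 0) (nat_lit 0) (.cons (.rf (nat_lit 105) (nat_lit 160)) (.cons (.br (nat_lit 0) (nat_lit 0) (.cons (.rf (nat_lit 105) (nat_lit 192)) (.cons (.br (nat_lit 2) (nat_lit 1) (.cons (.rf (nat_lit 53) (nat_lit 3137)) (.cons (.br (nat_lit 3) (nat_lit 1) (.cons (.br (nat_lit 1) (nat_lit 0) (.cons (.rf (nat_lit 111) (nat_lit 9043225708576)) (.cons (.rf (nat_lit 111) (nat_lit 9043193202720)) (.cons (.rf (nat_lit 111) (nat_lit 9042120509472)) (.cons (.br (nat_lit 9) (nat_lit 0) (.cons (.rf (nat_lit 116) (nat_lit 325702574508064)) (.cons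 (.rf (nat_lit 116) (nat_lit 325702542002208)) (.cons (.rf (nat_lit 116) (nat_lit 325701469308960)) (.cons (.rf (nat_lit 105) (nat_lit 329)) .nil))))) .nil))))) .nil)) .nil))) .nil))) .nil))) .nil))) .nil)) .nil)) .nil)))]

theorem c2 : chkAll C T R L2 (nat_lit 88) = true := by decide +kernel

theorem l2 : (nat_lit 88) + L2.length = (nat_lit 118) := by decide +kernel

theorem r : isRoot (T.get (nat_lit 117)) (nat_lit 0) = true := by decide +kernel

theorem no {V : Type} [Fintype V] {Nb : V → Finset V} {x : V → ℤ} (H : Hyp C Nb x)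
    (hR : ∀ t, (univ.filter (fun w => ty Nb x w = t)).card ≤ R / 16 ^ t % 16) (v : V)
    (hv : ty Nb x v = 0) : False := by
  have h0 : ∀ i < (nat_lit 0), ∀ φ, ¬ PEmb Nb x (T.get i) φ := fun i hi => absurd hi (Nat.not_lt_zero i)
  have h1 := chkAll_sound H hR c0 h0
  rw [l0] at h1
  have h2 := chkAll_sound H hR c1 h1
  rw [l1] at h2
  have h3 := chkAll_sound H hR c2 h2
  rw [l2] at h3
  exact no_root h3 (Nat.lt_succ_self (nat_lit 117)) r v hv

end Q13_4_0_4_4_1

namespace Q13_4_0_5_2_2

open Finset Classical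

/-- degree, order and types -/
def C : Cl := ⟨nat_lit 4,nat_lit 13,[nat_lit 3,nat_lit 7,nat_lit 0,nat_lit 4,nat_lit 8]⟩

/-- the numbers of vertices of each type -/
def R : ℕ := nat_lit 8590082053

/-- part of the table -/
noncomputable def T0 : Tr := (.node (.node (.node (.node (lf (nat_lit 7) (nat_lit 178405965575929210172215095892713502211573028)) (lf (nat_lit 1) (nat_lit 8))) (lf (nat_lit 8) (nat_lit 2993158631463790307024628768399326641936351428084244))) (.node (lf (nat_lit 7) (nat_lit 178405965575962169087821029564418431857459476)) (lf (nat_lit 7) (nat_lit 178406156984793562115706727712635112227078424)))) (.node (.node (lf (nat_lit 7) (nat_lit 178405965575929210172215095892713502211571988)) (lf (nat_lit 7) (nat_lit 178406156984793562115706728005369088073269780))) (.node (lf (nat_lit 7) (nat_lit 178405965575940619027617149664592987902968084)) (lf (nat_lit 6) (nat_lit 10633835612819910768002441395092586772)))))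

/-- the table -/
noncomputable def T : Tr := T0

/-- part of the certificates -/
def L0 : List Prf := [(.br (nat_lit 3) (nat_lit 0) (.cons (.br (nat_lit 4) (nat_lit 0) (.cons (.br (nat_lit 4) (nat_lit 0) .nil) .nil)) .nil)),
 (.br (nat_lit 3) (nat_lit 0) (.cons (.rf (nat_lit 0) (nat_lit 6614517792)) (.cons (.br (nat_lit 3) (nat_lit 0) (.cons (.rf (nat_lit 0) (nat_lit 6614517792)) .nil)) .nil))),
 (.br (nat_lit 3) (nat_lit 1) (.cons (.br (nat_lit 2) (nat_lit 0) (.cons (.rf (nat_lit 1) (nat_lit 6614517792)) (.cons (.rf (nat_lit 1) (nat_lit 5574330400)) (.cons (.br (nat_lit 2) (nat_lit 0) (.cons (.rf (nat_lit 1) (nat_lit 6614517792)) (.cons (.rf (nat_lit 1) (nat_lit 5574330400)) .nil))) .nil)))) .nil)),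
 (.br (nat_lit 1) (nat_lit 1) (.cons (.rf (nat_lit 2) (nat_lit 6614517792)) (.cons (.rf (nat_lit 2) (nat_lit 6614486048)) (.cons (.rf (nat_lit 2) (nat_lit 6613438496)) .nil)))),
 (.br (nat_lit 3) (nat_lit 0) (.cons (.br (nat_lit 6) (nat_lit 1) (.cons (.br (nat_lit 4) (nat_lit 0) (.cons (.kr (nat_lit 4294967552) (nat_lit 16842752) (nat_lit 1) (nat_lit 0)) .nil)) .nil)) (.cons (.rf (nat_lit 3) (nat_lit 7688225888)) .nil))),
 (.br (nat_lit 2) (nat_lit 0) (.cons (.br (nat_lit 1) (nat_lit 0) (.cons (.kr (nat_lit 256) (nat_lit 65536) (nat_lit 1) (nat_lit 0)) (.cons (.br (nat_lit 7) (nat_lit 1) (.cons (.rf (nat_lit 4) (nat_lit 211766315040)) (.cons (.rf (nat_lit 4) (nat_lit 211765299232)) .nil))) .nil))) (.cons (.rf (nat_lit 3) (nat_lit 7721813056)) .nil))),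
 (.br (nat_lit 3) (nat_lit 1) (.cons (.br (nat_lit 2) (nat_lit 0) (.cons (.rf (nat_lit 5) (nat_lit 5574330400)) (.cons (.rf (nat_lit 5) (nat_lit 5574329408)) (.cons (.rf (nat_lit 5) (nat_lit 7721814048)) .nil)))) .nil)),
 (.br (nat_lit 1) (nat_lit 0) (.cons (.rf (nat_lit 3) (nat_lit 6614517792)) (.cons (.br (nat_lit 1) (nat_lit 1) (.cons (.rf (nat_lit 6) (nat_lit 6614517792)) (.cons (.rf (nat_lit 6) (nat_lit 6614486048)) (.cons (.rf (nat_lit 6) (nat_lit 6613438496)) .nil)))) .nil))),
 (.br (nat_lit 0) (nat_lit 1) (.cons (.br (nat_lit 0) (nat_lit 1) (.cons (.br (nat_lit 0) (nat_lit 1) (.cons (.br (nat_lit 0) (nat_lit 1) (.cons (.br (nat_lit 1) (nat_lit 0) (.cons (.rf (nat_lit 7) (nat_lit 172066848)) (.cons (.br (nat_lit 1) (nat_lit 0) (.cons (.rf (nat_lit 7) (nat_lit 205621280)) .nil)) .nil))) .nil)) .nil)) .nil)) .nil))]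

theorem c0 : chkAll C T R L0 (nat_lit 0) = true := by decide +kernel

theorem l0 : (nat_lit 0) + L0.length = (nat_lit 9) := by decide +kernel

theorem r : isRoot (T.get (nat_lit 8)) (nat_lit 8) = true := by decide +kernel

theorem no {V : Type} [Fintype V] {Nb : V → Finset V} {x : V → ℤ} (H : Hyp C Nb x)
    (hR : ∀ t, (univ.filter (fun w => ty Nb x w = t)).card ≤ R / 16 ^ t % 16) (v : V)
    (hv : ty Nb x v = 8) : False := by
  have h0 : ∀ i < (nat_lit 0), ∀ φ, ¬ PEmb Nb x (T.get i) φ := fun i hi => absurd hi (Nat.not_lt_zero i)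
  have h1 := chkAll_sound H hR c0 h0
  rw [l0] at h1
  exact no_root h1 (Nat.lt_succ_self (nat_lit 8)) r v hv

end Q13_4_0_5_2_2

namespace Q13_4_0_6_0_3

open Finset Classical

/-- degree, order and types -/
def C : Cl := ⟨nat_lit 4,nat_lit 13,[nat_lit 3,nat_lit 7,nat_lit 0,nat_lit 4,nat_lit 8]⟩

/-- the numbers of vertices of each type -/
def R : ℕ := nat_lit 12884918278

/-- part of the table -/
noncomputable def T0 : Tr := (.node (.node (lf (nat_lit 5) (nat_lit 237685205342541193165714490291)) (lf (nat_lit 1) (nat_lit 3))) (lf (nat_lit 5) (nat_lit 237685205342541193165714489763)))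

/-- the table -/
noncomputable def T : Tr := T0

/-- part of the certificates -/
def L0 : List Prf := [(.br (nat_lit 4) (nat_lit 0) (.cons (.kr (nat_lit 1) (nat_lit 4294967296) (nat_lit 0) (nat_lit 1)) .nil)),
 (.br (nat_lit 4) (nat_lit 0) (.cons (.rf (nat_lit 0) (nat_lit 4294688)) (.cons (.rf (nat_lit 0) (nat_lit 4262944)) .nil))),
 (.br (nat_lit 0) (nat_lit 0) (.cons (.br (nat_lit 0) (nat_lit 0) (.cons (.br (nat_lit 0) (nat_lit 0) (.cons (.br (nat_lit 0) (nat_lit 1) (.cons (.br (nat_lit 4) (nat_lit 0) (.cons (.rf (nat_lit 1) (nat_lit 4294688)) (.cons (.rf (nat_lit 1) (nat_lit 4293696)) (.cons (.rf (nat_lit 1) (nat_lit 4260960)) .nil)))) .nil)) .nil)) .nil)) .nil))]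

theorem c0 : chkAll C T R L0 (nat_lit 0) = true := by decide +kernel

theorem l0 : (nat_lit 0) + L0.length = (nat_lit 3) := by decide +kernel

theorem r : isRoot (T.get (nat_lit 2)) (nat_lit 3) = true := by decide +kernel

theorem no {V : Type} [Fintype V] {Nb : V → Finset V} {x : V → ℤ} (H : Hyp C Nb x)
    (hR : ∀ t, (univ.filter (fun w => ty Nb x w = t)).card ≤ R / 16 ^ t % 16) (v : V)
    (hv : ty Nb x v = 3) : False := by
  have h0 : ∀ i < (nat_lit 0), ∀ φ, ¬ PEmb Nb x (T.get i) φ := fun i hi => absurd hi (Nat.not_lt_zero i)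
  have h1 := chkAll_sound H hR c0 h0
  rw [l0] at h1
  exact no_root h1 (Nat.lt_succ_self (nat_lit 2)) r v hv

end Q13_4_0_6_0_3

namespace Q13_4_4_0_2_3

open Finset Classical

/-- degree, order and types -/
def C : Cl := ⟨nat_lit 4,nat_lit 13,[nat_lit 3,nat_lit 7,nat_lit 0,nat_lit 4,nat_lit 8]⟩

/-- the numbers of vertices of each type -/
def R : ℕ := nat_lit 13958791168

/-- part of the table -/
noncomputable def T0 : Tr := (lf (nat_lit 1) (nat_lit 4))

/-- the table -/
noncomputable def T : Tr := T0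

/-- part of the certificates -/
def L0 : List Prf := [(.br (nat_lit 0) (nat_lit 0) (.cons (.br (nat_lit 0) (nat_lit 0) .nil) .nil))]

theorem c0 : chkAll C T R L0 (nat_lit 0) = true := by decide +kernel

theorem l0 : (nat_lit 0) + L0.length = (nat_lit 1) := by decide +kernel

theorem r : isRoot (T.get (nat_lit 0)) (nat_lit 4) = true := by decide +kernel

theorem no {V : Type} [Fintype V] {Nb : V → Finset V} {x : V → ℤ} (H : Hyp C Nb x)
    (hR : ∀ t, (univ.filter (fun w => ty Nb x w = t)).card ≤ R / 16 ^ t % 16) (v : V)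
    (hv : ty Nb x v = 4) : False := by
  have h0 : ∀ i < (nat_lit 0), ∀ φ, ¬ PEmb Nb x (T.get i) φ := fun i hi => absurd hi (Nat.not_lt_zero i)
  have h1 := chkAll_sound H hR c0 h0
  rw [l0] at h1
  exact no_root h1 (Nat.lt_succ_self (nat_lit 0)) r v hv

end Q13_4_4_0_2_3

namespace Q13_4_4_1_0_4

open Finset Classical

/-- degree, order and types -/
def C : Cl := ⟨nat_lit 4,nat_lit 13,[nat_lit 3,nat_lit 7,nat_lit 0,nat_lit 4,nat_lit 8]⟩

/-- the numbers of vertices of each type -/
def R : ℕ := nat_lit 18253627393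

/-- part of the table -/
noncomputable def T0 : Tr := (lf (nat_lit 1) (nat_lit 0))

/-- the table -/
noncomputable def T : Tr := T0

/-- part of the certificates -/
def L0 : List Prf := [(.br (nat_lit 0) (nat_lit 0) .nil)]

theorem c0 : chkAll C T R L0 (nat_lit 0) = true := by decide +kernel

theorem l0 : (nat_lit 0) + L0.length = (nat_lit 1) := by decide +kernel

theorem r : isRoot (T.get (nat_lit 0)) (nat_lit 0) = true := by decide +kernel

theorem no {V : Type} [Fintype V] {Nb : V → Finset V} {x : V → ℤ} (H : Hyp C Nb x)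
    (hR : ∀ t, (univ.filter (fun w => ty Nb x w = t)).card ≤ R / 16 ^ t % 16) (v : V)
    (hv : ty Nb x v = 0) : False := by
  have h0 : ∀ i < (nat_lit 0), ∀ φ, ¬ PEmb Nb x (T.get i) φ := fun i hi => absurd hi (Nat.not_lt_zero i)
  have h1 := chkAll_sound H hR c0 h0
  rw [l0] at h1
  exact no_root h1 (Nat.lt_succ_self (nat_lit 0)) r v hv

end Q13_4_4_1_0_4

namespace Q13_6_0_0_5_2

open Finset Classical

theorem r : isRoot (T.get (nat_lit 1724)) (nat_lit 8) = true := by decide +kernel

theorem no {V : Type} [Fintype V] {Nb : V → Finset V} {x : V → ℤ} (H : Hyp C Nb x)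
    (hR : ∀ t, (univ.filter (fun w => ty Nb x w = t)).card ≤ R / 16 ^ t % 16) (v : V)
    (hv : ty Nb x v = 8) : False := by
  have h0 : ∀ i < (nat_lit 0), ∀ φ, ¬ PEmb Nb x (T.get i) φ := fun i hi => absurd hi (Nat.not_lt_zero i)
  have h1 := chkAll_sound H hR c0 h0
  rw [l0] at h1
  have h2 := chkAll_sound H hR c1 h1
  rw [l1] at h2
  have h3 := chkAll_sound H hR c2 h2
  rw [l2] at h3
  have h4 := chkAll_sound H hR c3 h3
  rw [l3] at h4
  have h5 := chkAll_sound H hR c4 h4
  rw [l4] at h5
  have h6 := chkAll_sound H hR c5 h5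
  rw [l5] at h6
  have h7 := chkAll_sound H hR c6 h6
  rw [l6] at h7
  have h8 := chkAll_sound H hR c7 h7
  rw [l7] at h8
  have h9 := chkAll_sound H hR c8 h8
  rw [l8] at h9
  have h10 := chkAll_sound H hR c9 h9
  rw [l9] at h10
  have h11 := chkAll_sound H hR c10 h10
  rw [l10] at h11
  have h12 := chkAll_sound H hR c11 h11
  rw [l11] at h12
  have h13 := chkAll_sound H hR c12 h12
  rw [l12] at h13
  have h14 := chkAll_sound H hR c13 h13
  rw [l13] at h14
  have h15 := chkAll_sound H hR c14 h14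
  rw [l14] at h15
  have h16 := chkAll_sound H hR c15 h15
  rw [l15] at h16
  have h17 := chkAll_sound H hR c16 h16
  rw [l16] at h17
  have h18 := chkAll_sound H hR c17 h17
  rw [l17] at h18
  have h19 := chkAll_sound H hR c18 h18
  rw [l18] at h19
  have h20 := chkAll_sound H hR c19 h19
  rw [l19] at h20
  have h21 := chkAll_sound H hR c20 h20
  rw [l20] at h21
  have h22 := chkAll_sound H hR c21 h21
  rw [l21] at h22
  have h23 := chkAll_sound H hR c22 h22
  rw [l22] at h23
  have h24 := chkAll_sound H hR c23 h23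
  rw [l23] at h24
  have h25 := chkAll_sound H hR c24 h24
  rw [l24] at h25
  have h26 := chkAll_sound H hR c25 h25
  rw [l25] at h26
  have h27 := chkAll_sound H hR c26 h26
  rw [l26] at h27
  have h28 := chkAll_sound H hR c27 h27
  rw [l27] at h28
  have h29 := chkAll_sound H hR c28 h28
  rw [l28] at h29
  have h30 := chkAll_sound H hR c29 h29
  rw [l29] at h30
  have h31 := chkAll_sound H hR c30 h30
  rw [l30] at h31
  have h32 := chkAll_sound H hR c31 h31
  rw [l31] at h32
  have h33 := chkAll_sound H hR c32 h32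
  rw [l32] at h33
  have h34 := chkAll_sound H hR c33 h33
  rw [l33] at h34
  have h35 := chkAll_sound H hR c34 h34
  rw [l34] at h35
  have h36 := chkAll_sound H hR c35 h35
  rw [l35] at h36
  have h37 := chkAll_sound H hR c36 h36
  rw [l36] at h37
  have h38 := chkAll_sound H hR c37 h37
  rw [l37] at h38
  have h39 := chkAll_sound H hR c38 h38
  rw [l38] at h39
  have h40 := chkAll_sound H hR c39 h39
  rw [l39] at h40
  have h41 := chkAll_sound H hR c40 h40
  rw [l40] at h41
  have h42 := chkAll_sound H hR c41 h41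
  rw [l41] at h42
  have h43 := chkAll_sound H hR c42 h42
  rw [l42] at h43
  have h44 := chkAll_sound H hR c43 h43
  rw [l43] at h44
  have h45 := chkAll_sound H hR c44 h44
  rw [l44] at h45
  have h46 := chkAll_sound H hR c45 h45
  rw [l45] at h46
  have h47 := chkAll_sound H hR c46 h46
  rw [l46] at h47
  have h48 := chkAll_sound H hR c47 h47
  rw [l47] at h48
  have h49 := chkAll_sound H hR c48 h48
  rw [l48] at h49
  have h50 := chkAll_sound H hR c49 h49
  rw [l49] at h50
  exact no_root h50 (Nat.lt_succ_self (nat_lit 1724)) r v hv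

end Q13_6_0_0_5_2

namespace Q13_6_0_1_3_3

open Finset Classical

/-- degree, order and types -/
def C : Cl := ⟨nat_lit 4,nat_lit 13,[nat_lit 3,nat_lit 7,nat_lit 0,nat_lit 4,nat_lit 8]⟩

/-- the numbers of vertices of each type -/
def R : ℕ := nat_lit 12885123073

/-- part of the table -/
noncomputable def T0 : Tr := (lf (nat_lit 1) (nat_lit 0))

/-- the table -/
noncomputable def T : Tr := T0

/-- part of the certificates -/
def L0 : List Prf := [(.br (nat_lit 0) (nat_lit 0) (.cons (.br (nat_lit 0) (nat_lit 0) (.cons (.br (nat_lit 0) (nat_lit 0) (.cons (.br (nat_lit 0) (nat_lit 0) .nil) .nil)) .nil)) .nil))]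

theorem c0 : chkAll C T R L0 (nat_lit 0) = true := by decide +kernel

theorem l0 : (nat_lit 0) + L0.length = (nat_lit 1) := by decide +kernel

theorem r : isRoot (T.get (nat_lit 0)) (nat_lit 0) = true := by decide +kernel

theorem no {V : Type} [Fintype V] {Nb : V → Finset V} {x : V → ℤ} (H : Hyp C Nb x)
    (hR : ∀ t, (univ.filter (fun w => ty Nb x w = t)).card ≤ R / 16 ^ t % 16) (v : V)
    (hv : ty Nb x v = 0) : False := by
  have h0 : ∀ i < (nat_lit 0), ∀ φ, ¬ PEmb Nb x (T.get i) φ := fun i hi => absurd hi (Nat.not_lt_zero i)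
  have h1 := chkAll_sound H hR c0 h0
  rw [l0] at h1
  exact no_root h1 (Nat.lt_succ_self (nat_lit 0)) r v hv

end Q13_6_0_1_3_3

namespace Q13_6_0_2_1_4

open Finset Classical

/-- degree, order and types -/
def C : Cl := ⟨nat_lit 4,nat_lit 13,[nat_lit 3,nat_lit 7,nat_lit 0,nat_lit 4,nat_lit 8]⟩

/-- the numbers of vertices of each type -/
def R : ℕ := nat_lit 17179959298

/-- part of the table -/
noncomputable def T0 : Tr := (.node (lf (nat_lit 2) (nat_lit 144)) (lf (nat_lit 1) (nat_lit 0)))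

/-- the table -/
noncomputable def T : Tr := T0

/-- part of the certificates -/
def L0 : List Prf := [(.br (nat_lit 0) (nat_lit 0) (.cons (.br (nat_lit 0) (nat_lit 0) .nil) .nil)),
 (.br (nat_lit 0) (nat_lit 0) (.cons (.rf (nat_lit 0) (nat_lit 32)) (.cons (.br (nat_lit 0) (nat_lit 0) (.cons (.rf (nat_lit 0) (nat_lit 64)) .nil)) .nil)))]

theorem c0 : chkAll C T R L0 (nat_lit 0) = true := by decide +kernel

theorem l0 : (nat_lit 0) + L0.length = (nat_lit 2) := by decide +kernel

theorem r : isRoot (T.get (nat_lit 1)) (nat_lit 0) = true := by decide +kernel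

theorem no {V : Type} [Fintype V] {Nb : V → Finset V} {x : V → ℤ} (H : Hyp C Nb x)
    (hR : ∀ t, (univ.filter (fun w => ty Nb x w = t)).card ≤ R / 16 ^ t % 16) (v : V)
    (hv : ty Nb x v = 0) : False := by
  have h0 : ∀ i < (nat_lit 0), ∀ φ, ¬ PEmb Nb x (T.get i) φ := fun i hi => absurd hi (Nat.not_lt_zero i)
  have h1 := chkAll_sound H hR c0 h0
  rw [l0] at h1
  exact no_root h1 (Nat.lt_succ_self (nat_lit 1)) r v hv

end Q13_6_0_2_1_4

end Pool.Agent.H93.Neg
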