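import Pool.Agent.H93.Neg.TabQ14_0_8_2_4_0

/-!
Certificates.
-/

set_option autoImplicit false
set_option maxRecDepth 100000
set_option linter.all false

namespace Pool.Agent.H93.Neg.Q14_0_8_2_4_0

/-- part of the certificates -/
def L0 : List Prf := [(.br (nat_lit 5) (nat_lit 1) (.cons (.br (nat_lit 7) (nat_lit 1) (.cons (.br (nat_lit 7) (nat_lit 0) (.cons (.br (nat_lit 9) (nat_lit 1) (.cons (.kr (nat_lit 72057594037928192) (nat_lit 1099511693312) (nat_lit 1) (nat_lit 0)) (.cons (.kr (nat_lit 72057594037928192) (nat_lit 1099528404992) (nat_lit 1) (nat_lit 0)) (.cons (.kr (nat_lit 72057594037928192) (nat_lit 1103806595072) (nat_lit 1) (nat_lit 0)) (.cons (.kr (nat_lit 281474976710656) (nat_lit 72057594037927936) (nat_lit 6) (nat_lit 0)) (.cons (.kr (nat_lit 72057594037927936) (nat_lit 18446744073709551616) (nat_lit 7) (nat_lit 0)) .nil)))))) .nil)) .nil)) .nil)),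
 (.br (nat_lit 4) (nat_lit 1) (.cons (.br (nat_lit 5) (nat_lit 1) (.cons (.br (nat_lit 6) (nat_lit 1) (.cons (.br (nat_lit 6) (nat_lit 1) .nil) .nil)) .nil)) .nil)),
 (.br (nat_lit 6) (nat_lit 1) (.cons (.br (nat_lit 7) (nat_lit 1) .nil) .nil)),
 (.br (nat_lit 4) (nat_lit 1) (.cons (.br (nat_lit 6) (nat_lit 1) (.cons (.rf (nat_lit 2) (nat_lit 6614517792)) (.cons (.br (nat_lit 6) (nat_lit 1) (.cons (.rf (nat_lit 2) (nat_lit 6614517792)) .nil)) .nil))) .nil)),
 (.br (nat_lit 8) (nat_lit 0) (.cons (.br (nat_lit 11) (nat_lit 1) (.cons (.kr (nat_lit 1213648186097498819985664) (nat_lit 18518802767275884544) (nat_lit 1) (nat_lit 0)) .nil)) (.cons (.br (nat_lit 4) (nat_lit 1) (.cons (.kr (nat_lit 1208925891673322724262144) (nat_lit 4740813226943371608064) (nat_lit 1) (nat_lit 0)) .nil)) .nil))),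
 (.br (nat_lit 5) (nat_lit 0) (.cons (.br (nat_lit 9) (nat_lit 0) (.cons (.br (nat_lit 10) (nat_lit 1) (.cons (.kr (nat_lit 4722366482869645279232) (nat_lit 282574488338432) (nat_lit 2) (nat_lit 0)) (.cons (.kr (nat_lit 4722366482869645213952) (nat_lit 72057594054705152) (nat_lit 1) (nat_lit 0)) (.cons (.kr (nat_lit 18446744073709551616) (nat_lit 4722366482869645213696) (nat_lit 8) (nat_lit 0)) .nil)))) .nil)) (.cons (.br (nat_lit 6) (nat_lit 0) (.cons (.br (nat_lit 10) (nat_lit 1) (.cons (.kr (nat_lit 282574488338688) (nat_lit 72057594054770688) (nat_lit 1) (nat_lit 0)) (.cons (.kr (nat_lit 18446744073709617152) (nat_lit 282574488338432) (nat_lit 2) (nat_lit 0)) (.cons (.kr (nat_lit 4722366482869645279232) (nat_lit 282574488338432) (nat_lit 2) (nat_lit 0)) .nil)))) (.cons (.br (nat_lit 7) (nat_lit 0) (.cons (.br (nat_lit 9) (nat_lit 0) (.cons (.br (nat_lit 8) (nat_lit 0) (.cons (.kr (nat_lit 18446744073709551616) (nat_lit 4722366482869645213696) (nat_lit 8) (nat_lit 0)) .nil))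 .nil)) (.cons (.br (nat_lit 11) (nat_lit 1) (.cons (.kr (nat_lit 18446744073709551872) (nat_lit 72057594054705152) (nat_lit 1) (nat_lit 0)) (.cons (.kr (nat_lit 4722366482869645213952) (nat_lit 72057594054705152) (nat_lit 1) (nat_lit 0)) .nil))) .nil))) (.cons (.br (nat_lit 10) (nat_lit 1) (.cons (.br (nat_lit 8) (nat_lit 0) (.cons (.br (nat_lit 9) (nat_lit 0) (.cons (.kr (nat_lit 18447026648197890304) (nat_lit 4722438540463699984384) (nat_lit 1) (nat_lit 0)) .nil)) (.cons (.br (nat_lit 9) (nat_lit 0) (.cons (.kr (nat_lit 4722366765444133552384) (nat_lit 18518801667764322304) (nat_lit 1) (nat_lit 0)) .nil)) .nil))) (.cons (.rf (nat_lit 4) (nat_lit 406739254996207648)) (.cons (.rf (nat_lit 4) (nat_lit 405648539461453856)) .nil)))) .nil)))) .nil))),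
 (.br (nat_lit 7) (nat_lit 0) (.cons (.kr (nat_lit 72058693549555968) (nat_lit 18446744073726394368) (nat_lit 1) (nat_lit 0)) (.cons (.br (nat_lit 10) (nat_lit 0) (.cons (.br (nat_lit 9) (nat_lit 0) (.cons (.kr (nat_lit 1208925891673322724262144) (nat_lit 4740813226943371608064) (nat_lit 1) (nat_lit 0)) .nil)) (.cons (.br (nat_lit 4) (nat_lit 1) (.cons (.kr (nat_lit 4722438541563194769664) (nat_lit 1208944266358702901100544) (nat_lit 1) (nat_lit 0)) .nil)) .nil))) .nil))),
 (.br (nat_lit 4) (nat_lit 1) (.cons (.br (nat_lit 11) (nat_lit 1) (.cons (.kr (nat_lit 1208925891673322724262144) (nat_lit 4740813226943371608064) (nat_lit 1) (nat_lit 0)) .nil)) (.cons (.kr (nat_lit 1208925819614629174771712) (nat_lit 18446744073726328832) (nat_lit 2) (nat_lit 0)) .nil))),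
 (.br (nat_lit 10) (nat_lit 0) (.cons (.kr (nat_lit 1208925819614629174706432) (nat_lit 4722366482869645279232) (nat_lit 1) (nat_lit 0)) (.cons (.rf (nat_lit 7) (nat_lit 407901468851537952)) (.cons (.rf (nat_lit 7) (nat_lit 227756423906494496)) .nil)))),
 (.br (nat_lit 4) (nat_lit 1) (.cons (.br (nat_lit 0) (nat_lit 1) (.cons (.kr (nat_lit 4722366482869645213952) (nat_lit 18446744073726328832) (nat_lit 1) (nat_lit 0)) (.cons (.rf (nat_lit 8) (nat_lit 406810753316784160)) .nil))) (.cons (.kr (nat_lit 4722366482869645279232) (nat_lit 18446744073726328832) (nat_lit 2) (nat_lit 0)) (.cons (.rf (nat_lit 8) (nat_lit 406810753312588868)) .nil)))),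
 (.br (nat_lit 5) (nat_lit 1) (.cons (.br (nat_lit 7) (nat_lit 1) (.cons (.br (nat_lit 2) (nat_lit 0) (.cons (.kr (nat_lit 256) (nat_lit 65536) (nat_lit 1) (nat_lit 0)) (.cons (.br (nat_lit 3) (nat_lit 0) (.cons (.rf (nat_lit 5) (nat_lit 289383228999712)) (.cons (.rf (nat_lit 5) (nat_lit 289383219561545)) (.cons (.br (nat_lit 4) (nat_lit 0) (.cons (.rf (nat_lit 5) (nat_lit 289349909481504)) (.cons (.rf (nat_lit 5) (nat_lit 289349900043337)) (.cons (.br (nat_lit 6) (nat_lit 0) (.cons (.rf (nat_lit 6) (nat_lit 9260269608994848)) (.cons (.rf (nat_lit 6) (nat_lit 9260269599556681)) (.cons (.br (nat_lit 5) (nat_lit 0) (.cons (.rf (nat_lit 6) (nat_lit 9259204423583776)) (.cons (.rf (nat_lit 6) (nat_lit 9259204414145609)) (.cons (.kr (nat_lit 281474993487872) (nat_lit 1103806595072) (nat_lit 3) (nat_lit 0)) .nil)))) .nil)))) (.cons (.br (nat_lit 7) (nat_lit 0) (.cons (.rf (nat_lit 8) (nat_lit 405577036817598496)) (.cons (.rf (nat_lit 8) (nat_lit 405577036808160329)) (.cons (.rf (nat_lit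 9) (nat_lit 405577036817598496)) (.cons (.rf (nat_lit 9) (nat_lit 369547175686965280)) .nil))))) .nil))))) .nil)))) .nil))) .nil)) .nil)),
 (.br (nat_lit 3) (nat_lit 1) (.cons (.br (nat_lit 0) (nat_lit 1) (.cons (.kr (nat_lit 256) (nat_lit 65536) (nat_lit 1) (nat_lit 0)) (.cons (.kr (nat_lit 256) (nat_lit 16777216) (nat_lit 1) (nat_lit 0)) (.cons (.kr (nat_lit 256) (nat_lit 4294967296) (nat_lit 1) (nat_lit 0)) (.cons (.br (nat_lit 5) (nat_lit 1) (.cons (.br (nat_lit 6) (nat_lit 1) (.cons (.br (nat_lit 6) (nat_lit 1) (.cons (.br (nat_lit 5) (nat_lit 1) (.cons (.rf (nat_lit 0) (nat_lit 9043225708576)) (.cons (.rf (nat_lit 0) (nat_lit 7978073819168)) .nil))) .nil)) .nil)) .nil)) .nil))))) (.cons (.br (nat_lit 4) (nat_lit 1) (.cons (.rf (nat_lit 1) (nat_lit 5377089)) (.cons (.br (nat_lit 6) (nat_lit 1) (.cons (.rf (nat_lit 3) (nat_lit 206703681)) (.cons (.br (nat_lit 6) (nat_lit 1) (.cons (.rf (nat_lit 3) (nat_lit 206703681)) (.cons (.br (nat_lit 5) (nat_lit 1) (.cons (.rf (nat_lit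 10) (nat_lit 9043225708576)) (.cons (.rf (nat_lit 10) (nat_lit 7978073819168)) .nil))) .nil))) .nil))) .nil))) .nil))),
 (.br (nat_lit 6) (nat_lit 1) (.cons (.br (nat_lit 6) (nat_lit 1) .nil) .nil)),
 (.br (nat_lit 8) (nat_lit 1) (.cons (.ev (nat_lit 4722438540463683207169) (nat_lit 1)) (.cons (.ev (nat_lit 1208925819615732998144256) (nat_lit 1)) (.cons (.rf (nat_lit 12) (nat_lit 13230118019)) .nil)))),
 (.br (nat_lit 7) (nat_lit 0) (.cons (.br (nat_lit 5) (nat_lit 0) (.cons (.br (nat_lit 10) (nat_lit 0) (.cons (.ev (nat_lit 1223130028727470489862146) (nat_lit 2)) (.cons (.ev (nat_lit 1208925819615732998144256) (nat_lit 1)) .nil))) (.cons (.rf (nat_lit 13) (nat_lit 407901468851537952)) .nil))) (.cons (.ev (nat_lit 4722438540463683207169) (nat_lit 1)) (.cons (.br (nat_lit 5) (nat_lit 0) (.cons (.rf (nat_lit 13) (nat_lit 227757489125427201)) (.cons (.br (nat_lit 8) (nat_lit 1) (.cons (.ev (nat_lit 1223130028727470489862401) (nat_lit 2)) (.cons (.rf (nat_lit 12) (nat_lit 13230118019))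 .nil))) (.cons (.rf (nat_lit 13) (nat_lit 407831168825821216)) .nil)))) .nil)))),
 (.br (nat_lit 11) (nat_lit 1) (.cons (.ev (nat_lit 4722438540463683207424) (nat_lit 1)) (.cons (.br (nat_lit 6) (nat_lit 1) (.cons (.ev (nat_lit 4722438540463683207169) (nat_lit 1)) (.cons (.rf (nat_lit 12) (nat_lit 13230118019)) .nil))) (.cons (.rf (nat_lit 12) (nat_lit 13230118019)) .nil)))),
 (.br (nat_lit 9) (nat_lit 0) (.cons (.rf (nat_lit 14) (nat_lit 407901468851537952)) (.cons (.br (nat_lit 7) (nat_lit 0) (.cons (.ev (nat_lit 4722438540463683207169) (nat_lit 1)) (.cons (.br (nat_lit 5) (nat_lit 0) (.cons (.rf (nat_lit 15) (nat_lit 407901468851537952)) (.cons (.rf (nat_lit 15) (nat_lit 227757489125427201)) .nil))) (.cons (.ev (nat_lit 4722438540463683207424) (nat_lit 1)) .nil)))) (.cons (.rf (nat_lit 14) (nat_lit 227757489125427201)) .nil)))),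
 (.br (nat_lit 8) (nat_lit 1) (.cons (.ev (nat_lit 18446745173237956609) (nat_lit 1)) (.cons (.rf (nat_lit 12) (nat_lit 12156376195)) .nil))),
 (.br (nat_lit 10) (nat_lit 1) (.cons (.ev (nat_lit 1208925819897207974854656) (nat_lit 1)) (.cons (.rf (nat_lit 12) (nat_lit 12121773187)) .nil))),
 (.br (nat_lit 8) (nat_lit 1) (.cons (.ev (nat_lit 18446744078021296129) (nat_lit 1)) (.cons (.rf (nat_lit 16) (nat_lit 399872731939905568)) (.cons (.rf (nat_lit 12) (nat_lit 13230118019)) .nil)))),
 (.br (nat_lit 2) (nat_lit 1) (.cons (.br (nat_lit 11) (nat_lit 1) (.cons (.rf (nat_lit 17) (nat_lit 5743998336796673)) (.cons (.rf (nat_lit 12) (nat_lit 13230118019)) .nil))) (.cons (.br (nat_lit 11) (nat_lit 1) (.cons (.rf (nat_lit 18) (nat_lit 6899619383805953)) (.cons (.rf (nat_lit 12) (nat_lit 13230118019)) .nil))) (.cons (.rf (nat_lit 12) (nat_lit 13230118019)) .nil)))),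
 (.br (nat_lit 11) (nat_lit 1) (.cons (.rf (nat_lit 20) (nat_lit 407901468851537952)) (.cons (.br (nat_lit 11) (nat_lit 1) (.cons (.rf (nat_lit 20) (nat_lit 407901468851537952)) (.cons (.rf (nat_lit 20) (nat_lit 404517275073421344)) (.cons (.rf (nat_lit 12) (nat_lit 13230118019)) .nil)))) (.cons (.rf (nat_lit 20) (nat_lit 404517275073421344)) (.cons (.rf (nat_lit 12) (nat_lit 13230118019)) .nil))))),
 (.br (nat_lit 11) (nat_lit 1) (.cons (.rf (nat_lit 21) (nat_lit 220861214897702913)) (.cons (.rf (nat_lit 12) (nat_lit 13230118019)) .nil))),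
 (.br (nat_lit 8) (nat_lit 1) (.cons (.br (nat_lit 8) (nat_lit 1) (.cons (.ev (nat_lit 18446745173237956864) (nat_lit 1)) (.cons (.rf (nat_lit 12) (nat_lit 13230118019)) .nil))) (.cons (.br (nat_lit 6) (nat_lit 1) (.cons (.rf (nat_lit 21) (nat_lit 402060760176691232)) (.cons (.rf (nat_lit 12) (nat_lit 13230118019)) .nil))) (.cons (.rf (nat_lit 12) (nat_lit 13230118019)) .nil)))),
 (.br (nat_lit 5) (nat_lit 0) (.cons (.rf (nat_lit 16) (nat_lit 406810753284278304)) (.cons (.br (nat_lit 9) (nat_lit 0) (.cons (.br (nat_lit 10) (nat_lit 0) (.cons (.rf (nat_lit 17) (nat_lit 11584701642934304)) (.cons (.rf (nat_lit 18) (nat_lit 12746885433493536)) .nil))) (.cons (.rf (nat_lit 19) (nat_lit 407901468851537952)) (.cons (.br (nat_lit 8) (nat_lit 1) (.cons (.br (nat_lit 2) (nat_lit 1) (.cons (.rf (nat_lit 18) (nat_lit 12712800540526624)) (.cons (.rf (nat_lit 12) (nat_lit 13230118019)) .nil))) (.cons (.rf (nat_lit 19) (nat_lit 406810753284278304)) (.cons (.rf (nat_lit 12) (nat_lit 13230118019))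 .nil)))) .nil)))) (.cons (.rf (nat_lit 21) (nat_lit 407901468851537952)) (.cons (.br (nat_lit 2) (nat_lit 1) (.cons (.br (nat_lit 8) (nat_lit 1) (.cons (.rf (nat_lit 22) (nat_lit 407901468851537952)) (.cons (.rf (nat_lit 22) (nat_lit 226666773558167553)) (.cons (.rf (nat_lit 12) (nat_lit 13230118019)) .nil)))) (.cons (.rf (nat_lit 23) (nat_lit 407901468851537952)) (.cons (.rf (nat_lit 23) (nat_lit 226666773558167553)) (.cons (.rf (nat_lit 12) (nat_lit 13230118019)) .nil))))) .nil))))),
 (.br (nat_lit 6) (nat_lit 0) (.cons (.kr (nat_lit 1) (nat_lit 256) (nat_lit 0) (nat_lit 2)) (.cons (.br (nat_lit 1) (nat_lit 0) (.cons (.br (nat_lit 4) (nat_lit 0) (.cons (.rf (nat_lit 16) (nat_lit 407901468851537952)) (.cons (.rf (nat_lit 24) (nat_lit 407901468851537952)) (.cons (.br (nat_lit 5) (nat_lit 0) (.cons (.rf (nat_lit 16) (nat_lit 406810753284278304)) (.cons (.rf (nat_lit 24) (nat_lit 406810753284278304)) (.cons (.rf (nat_lit 16) (nat_lit 404552425086787616)) (.cons (.rf (nat_lit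 24) (nat_lit 226666773558167553)) .nil))))) (.cons (.rf (nat_lit 24) (nat_lit 227757489125427201)) .nil))))) .nil)) .nil))),
 (.br (nat_lit 1) (nat_lit 0) (.cons (.rf (nat_lit 25) (nat_lit 11582504767162400)) (.cons (.rf (nat_lit 25) (nat_lit 11584701642934304)) (.cons (.br (nat_lit 1) (nat_lit 0) (.cons (.rf (nat_lit 25) (nat_lit 11582504767162400)) (.cons (.rf (nat_lit 25) (nat_lit 11584701642934304)) .nil))) .nil)))),
 (.br (nat_lit 4) (nat_lit 0) (.cons (.br (nat_lit 1) (nat_lit 0) (.cons (.br (nat_lit 5) (nat_lit 0) .nil) .nil)) (.cons (.br (nat_lit 1) (nat_lit 0) (.cons (.br (nat_lit 1) (nat_lit 0) .nil) .nil)) .nil))),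
 (.br (nat_lit 8) (nat_lit 1) (.cons (.rf (nat_lit 26) (nat_lit 11582498324717600)) (.cons (.rf (nat_lit 26) (nat_lit 11512198299000864)) (.cons (.rf (nat_lit 26) (nat_lit 10386332718374944)) (.cons (.rf (nat_lit 26) (nat_lit 5776939664252960)) (.cons (.rf (nat_lit 26) (nat_lit 5741789649870880)) (.cons (.rf (nat_lit 26) (nat_lit 4615924069244960)) (.cons (.rf (nat_lit 12) (nat_lit 12156376195)) .nil)))))))),
 (.br (nat_lit 6) (nat_lit 1) (.cons (.br (nat_lit 7) (nat_lit 1) .nil) .nil)),
 (.br (nat_lit 6) (nat_lit 1) (.cons (.rf (nat_lit 29) (nat_lit 6614517792)) (.cons (.br (nat_lit 6) (nat_lit 1) (.cons (.rf (nat_lit 29) (nat_lit 6614517792)) .nil)) .nil))),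
 (.br (nat_lit 8) (nat_lit 0) (.cons (.br (nat_lit 3) (nat_lit 0) (.cons (.kr (nat_lit 1208944266358702884323584) (nat_lit 4722438541563211546624) (nat_lit 1) (nat_lit 0)) .nil)) .nil)),
 (.br (nat_lit 8) (nat_lit 1) (.cons (.zr (nat_lit 60847538300687199100879635677952) (nat_lit 37182281473524236290) (nat_lit 10) (nat_lit 13)) .nil)),
 (.br (nat_lit 7) (nat_lit 0) (.cons (.kr (nat_lit 1208944266358702884323584) (nat_lit 4722438541563211546624) (nat_lit 1) (nat_lit 0)) .nil)),
 (.br (nat_lit 7) (nat_lit 0) (.cons (.kr (nat_lit 1208944266358702884323584) (nat_lit 4722438541563211546624) (nat_lit 1) (nat_lit 0)) .nil)),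
 (.br (nat_lit 8) (nat_lit 0) (.cons (.kr (nat_lit 1208944266358702884323584) (nat_lit 4722438541563211546624) (nat_lit 1) (nat_lit 0)) .nil)),
 (.br (nat_lit 11) (nat_lit 0) (.cons (.rf (nat_lit 31) (nat_lit 13909145528995938)) (.cons (.br (nat_lit 10) (nat_lit 0) (.cons (.ev (nat_lit 310693935713298771209093121) (nat_lit 1)) (.cons (.br (nat_lit 5) (nat_lit 0) (.cons (.kr (nat_lit 79229371440083952227030401024) (nat_lit 309489732259886631919550464) (nat_lit 3) (nat_lit 0)) .nil)) .nil))) .nil))),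
 (.br (nat_lit 12) (nat_lit 0) (.cons (.br (nat_lit 10) (nat_lit 0) (.cons (.br (nat_lit 5) (nat_lit 0) (.cons (.br (nat_lit 9) (nat_lit 0) (.cons (.br (nat_lit 13) (nat_lit 1) (.cons (.ev (nat_lit 20361947251194274909381074157825) (nat_lit 1)) .nil)) .nil)) (.cons (.br (nat_lit 9) (nat_lit 0) (.cons (.br (nat_lit 13) (nat_lit 1) (.cons (.ev (nat_lit 20361637770906747988488445034496) (nat_lit 1)) .nil)) (.cons (.br (nat_lit 8) (nat_lit 1) (.cons (.ev (nat_lit 20361947251194274909381074157825) (nat_lit 1)) .nil)) .nil))) .nil))) (.cons (.kr (nat_lit 1208925819614633469673473) (nat_lit 79228162514264337593560727808) (nat_lit 0) (nat_lit 2)) .nil))) (.cons (.br (nat_lit 11) (nat_lit 0) (.cons (.br (nat_lit 9) (nat_lit 0) (.cons (.rf (nat_lit 31) (nat_lit 13909140160286818)) (.cons (.br (nat_lit 13) (nat_lit 1) (.cons (.ev (nat_lit 20282409603651670706526051434753) (nat_lit 1)) (.cons (.rf (nat_lit 32) (nat_lit 493858305440582043680)) .nil))) .nil))) (.cons (.br (nat_lit 10) (nat_lit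 0) (.cons (.ev (nat_lit 310693935713298771209093121) (nat_lit 1)) (.cons (.br (nat_lit 6) (nat_lit 1) (.cons (.rf (nat_lit 33) (nat_lit 482283501406818402)) (.cons (.br (nat_lit 13) (nat_lit 1) (.cons (.zr (nat_lit 928455029465161106081447936) (nat_lit 20282409613114994251147350376705) (nat_lit 5) (nat_lit 0)) .nil)) .nil))) .nil))) (.cons (.br (nat_lit 10) (nat_lit 0) (.cons (.ev (nat_lit 79537647524158021731300147456) (nat_lit 1)) (.cons (.br (nat_lit 5) (nat_lit 0) (.cons (.br (nat_lit 9) (nat_lit 0) (.cons (.ev (nat_lit 20282719093383930590958947729408) (nat_lit 1)) .nil)) (.cons (.br (nat_lit 9) (nat_lit 0) (.cons (.ev (nat_lit 20282409603651670706526051434753) (nat_lit 1)) .nil)) .nil))) (.cons (.br (nat_lit 8) (nat_lit 1) (.cons (.rf (nat_lit 34) (nat_lit 482283501406818402)) (.cons (.br (nat_lit 6) (nat_lit 1) (.cons (.zr (nat_lit 928469196780785795665756160) (nat_lit 20282415648299215241188393091329) (nat_lit 5) (nat_lit 0)) .nil)) .nil))) .nil)))) .nil)))) (.cons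 (.br (nat_lit 9) (nat_lit 0) (.cons (.br (nat_lit 5) (nat_lit 0) (.cons (.br (nat_lit 8) (nat_lit 1) (.cons (.br (nat_lit 13) (nat_lit 1) (.cons (.zr (nat_lit 928469196779659895758651396) (nat_lit 20282415648299215522663285981440) (nat_lit 5) (nat_lit 2)) .nil)) (.cons (.ev (nat_lit 79537647542532427839784878336) (nat_lit 1)) .nil))) (.cons (.br (nat_lit 11) (nat_lit 0) (.cons (.zr (nat_lit 79847132533907872160235651072) (nat_lit 20282409613096619565767190380801) (nat_lit 5) (nat_lit 0)) .nil)) .nil))) (.cons (.br (nat_lit 11) (nat_lit 0) (.cons (.br (nat_lit 8) (nat_lit 1) (.cons (.ev (nat_lit 79537647542532426735978283264) (nat_lit 1)) (.cons (.br (nat_lit 13) (nat_lit 1) (.cons (.zr (nat_lit 928469196779659895758651396) (nat_lit 20282415648299215522663285981440) (nat_lit 5) (nat_lit 2)) .nil)) .nil))) (.cons (.ev (nat_lit 309489750706629610412441601) (nat_lit 1)) (.cons (.br (nat_lit 6) (nat_lit 1) (.cons (.rf (nat_lit 35) (nat_lit 482283501406818402)) (.cons (.br (nat_lit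 8) (nat_lit 1) (.cons (.ev (nat_lit 309499176993417520186655491) (nat_lit 2)) .nil)) .nil))) .nil)))) (.cons (.rf (nat_lit 36) (nat_lit 493858305440582043680)) .nil)))) .nil)))),
 (.br (nat_lit 5) (nat_lit 0) (.cons (.br (nat_lit 8) (nat_lit 1) (.cons (.ev (nat_lit 79537647542532426735978283264) (nat_lit 1)) .nil)) .nil)),
 (.br (nat_lit 12) (nat_lit 0) (.cons (.kr (nat_lit 1208925819614633469673473) (nat_lit 79228162514264337593560727808) (nat_lit 0) (nat_lit 2)) (.cons (.br (nat_lit 8) (nat_lit 1) (.cons (.br (nat_lit 11) (nat_lit 0) (.cons (.rf (nat_lit 34) (nat_lit 230081922281410658)) (.cons (.br (nat_lit 6) (nat_lit 1) (.cons (.zr (nat_lit 928469196564613013551972352) (nat_lit 20282415648299359356376385061121) (nat_lit 5) (nat_lit 0)) .nil)) .nil))) (.cons (.rf (nat_lit 36) (nat_lit 77430649293696802817)) (.cons (.br (nat_lit 5) (nat_lit 0) (.cons (.br (nat_lit 13) (nat_lit 1) (.cons (.zr (nat_lit 6044629098073167348367364) (nat_lit 20283028583134637222759776715008)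 (nat_lit 5) (nat_lit 6)) .nil)) (.cons (.rf (nat_lit 33) (nat_lit 230081922281410658)) .nil))) .nil)))) (.cons (.br (nat_lit 11) (nat_lit 0) (.cons (.rf (nat_lit 38) (nat_lit 493858305440582043680)) (.cons (.br (nat_lit 8) (nat_lit 1) (.cons (.ev (nat_lit 310693954087704871137443841) (nat_lit 1)) (.cons (.ev (nat_lit 79538861190790581828852908288) (nat_lit 1)) .nil))) .nil))) .nil))))]

theorem c0 : chkAll C T R L0 (nat_lit 0) = true := by decide +kernel

theorem l0 : (nat_lit 0) + L0.length = (nat_lit 40) := by decide +kernel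

/-- part of the certificates -/
def L1 : List Prf := [(.br (nat_lit 12) (nat_lit 0) (.cons (.br (nat_lit 9) (nat_lit 0) (.cons (.br (nat_lit 11) (nat_lit 0) (.cons (.ev (nat_lit 18446745177516146944) (nat_lit 1)) .nil)) .nil)) (.cons (.br (nat_lit 6) (nat_lit 1) (.cons (.ev (nat_lit 79228167236703160631715430401) (nat_lit 1)) (.cons (.ev (nat_lit 79537647524085965241052037376) (nat_lit 1)) .nil))) .nil))),
 (.br (nat_lit 4) (nat_lit 0) (.cons (.rf (nat_lit 37) (nat_lit 493858305440582043680)) (.cons (.rf (nat_lit 37) (nat_lit 493858303243706271776)) (.cons (.br (nat_lit 10) (nat_lit 0) (.cons (.rf (nat_lit 39) (nat_lit 493858305440582043680)) (.cons (.rf (nat_lit 39) (nat_lit 493858303243706271776)) (.cons (.br (nat_lit 5) (nat_lit 0) (.cons (.rf (nat_lit 40) (nat_lit 493858305440582043680)) (.cons (.rf (nat_lit 40) (nat_lit 493858303243706271776)) .nil))) .nil)))) .nil)))),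
 (.br (nat_lit 10) (nat_lit 0) (.cons (.kr (nat_lit 1208944266358702884323584) (nat_lit 4722438541563211546624) (nat_lit 1) (nat_lit 0)) .nil)),
 (.br (nat_lit 6) (nat_lit 0) (.cons (.br (nat_lit 9) (nat_lit 0) (.cons (.kr (nat_lit 4722438540463683207424) (nat_lit 18447026648214667264) (nat_lit 1) (nat_lit 0)) .nil)) .nil)),
 (.br (nat_lit 5) (nat_lit 0) (.cons (.br (nat_lit 9) (nat_lit 0) (.cons (.ev (nat_lit 310693954087703775920783616) (nat_lit 1)) (.cons (.rf (nat_lit 42) (nat_lit 302139521680707682)) .nil))) (.cons (.rf (nat_lit 43) (nat_lit 15071359384326242)) .nil))),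
 (.br (nat_lit 8) (nat_lit 1) (.cons (.zr (nat_lit 81129638414606682824987446870016) (nat_lit 618979482966515138525462785) (nat_lit 5) (nat_lit 1)) .nil)),
 (.br (nat_lit 10) (nat_lit 0) (.cons (.br (nat_lit 8) (nat_lit 0) (.cons (.kr (nat_lit 1208944266358702884323584) (nat_lit 4722438541563211546624) (nat_lit 1) (nat_lit 0)) .nil)) (.cons (.br (nat_lit 8) (nat_lit 0) (.cons (.kr (nat_lit 1208944266358702884323584) (nat_lit 4722438541563211546624) (nat_lit 1) (nat_lit 0)) .nil)) .nil))),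
 (.br (nat_lit 4) (nat_lit 0) (.cons (.br (nat_lit 10) (nat_lit 0) (.cons (.br (nat_lit 5) (nat_lit 0) (.cons (.rf (nat_lit 43) (nat_lit 9441859850113122)) (.cons (.br (nat_lit 9) (nat_lit 0) (.cons (.rf (nat_lit 42) (nat_lit 482283501406818402)) (.cons (.ev (nat_lit 20282409603651670706526051434753) (nat_lit 1)) .nil))) .nil))) (.cons (.rf (nat_lit 44) (nat_lit 493858305440582043680)) .nil))) (.cons (.br (nat_lit 10) (nat_lit 0) (.cons (.br (nat_lit 5) (nat_lit 0) (.cons (.kr (nat_lit 281479271677952) (nat_lit 18518801667747479552) (nat_lit 4) (nat_lit 0)) (.cons (.br (nat_lit 13) (nat_lit 1) (.cons (.ev (nat_lit 20282410817299856802921064759553) (nat_lit 1)) (.cons (.zr (nat_lit 158765810038422077849900941315) (nat_lit 20282412021503310216168439087104) (nat_lit 5) (nat_lit 2)) .nil))) .nil))) (.cons (.ev (nat_lit 310693954159761369941934081) (nat_lit 1)) (.cons (.br (nat_lit 12) (nat_lit 0) (.cons (.br (nat_lit 13) (nat_lit 1) (.cons (.rf (nat_lit 43) (nat_lit 2398147844616525))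 (.cons (.rf (nat_lit 45) (nat_lit 493858305440582043680)) .nil))) (.cons (.kr (nat_lit 1208925819614633469673473) (nat_lit 79228162514264337593560727808) (nat_lit 0) (nat_lit 2)) (.cons (.br (nat_lit 5) (nat_lit 0) (.cons (.ev (nat_lit 79537647524085964141557186816) (nat_lit 1)) (.cons (.rf (nat_lit 38) (nat_lit 77395738805163865089)) .nil))) .nil)))) .nil)))) (.cons (.br (nat_lit 9) (nat_lit 0) (.cons (.br (nat_lit 5) (nat_lit 0) (.cons (.ev (nat_lit 309489732260168111208005888) (nat_lit 1)) (.cons (.br (nat_lit 10) (nat_lit 0) (.cons (.ev (nat_lit 40565135950590519554807104144135) (nat_lit 3)) .nil)) .nil))) (.cons (.br (nat_lit 13) (nat_lit 1) (.cons (.rf (nat_lit 46) (nat_lit 482283501406818402)) (.cons (.br (nat_lit 5) (nat_lit 0) (.cons (.ev (nat_lit 1213648258437667346186496) (nat_lit 1)) (.cons (.ev (nat_lit 1213666704900270390771713) (nat_lit 1)) .nil))) (.cons (.br (nat_lit 5) (nat_lit 0) (.cons (.ev (nat_lit 79228167236703160636027174913) (nat_lit 1)) (.cons (.ev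 (nat_lit 79228167255149623230448271616) (nat_lit 1)) .nil))) .nil)))) (.cons (.rf (nat_lit 41) (nat_lit 85726274309546193921)) .nil)))) .nil)))),
 (.br (nat_lit 9) (nat_lit 0) (.cons (.br (nat_lit 5) (nat_lit 0) (.cons (.ev (nat_lit 282574505115649) (nat_lit 1)) (.cons (.br (nat_lit 10) (nat_lit 0) (.cons (.br (nat_lit 4) (nat_lit 0) (.cons (.ev (nat_lit 309499213886342717652336897) (nat_lit 2)) (.cons (.ev (nat_lit 40565135950590519552616670823175) (nat_lit 3)) .nil))) (.cons (.rf (nat_lit 47) (nat_lit 78582509700865405953)) .nil))) .nil))) (.cons (.ev (nat_lit 309489732260167007401410561) (nat_lit 1)) (.cons (.br (nat_lit 5) (nat_lit 0) (.cons (.br (nat_lit 4) (nat_lit 0) (.cons (.br (nat_lit 10) (nat_lit 0) (.cons (.ev (nat_lit 309499213886342717652336897) (nat_lit 2)) (.cons (.ev (nat_lit 40565143213590171338653823012105) (nat_lit 4)) .nil))) (.cons (.rf (nat_lit 41) (nat_lit 85726274309546193921)) .nil))) (.cons (.ev (nat_lit 282574505115649) (nat_lit 1)) (.cons (.br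 (nat_lit 12) (nat_lit 0) (.cons (.br (nat_lit 10) (nat_lit 0) (.cons (.br (nat_lit 8) (nat_lit 1) (.cons (.ev (nat_lit 309499213886342717652337152) (nat_lit 2)) .nil)) .nil)) (.cons (.br (nat_lit 2) (nat_lit 1) (.cons (.ev (nat_lit 41040497672121187890411442669060) (nat_lit 3)) (.cons (.ev (nat_lit 41357412749474618568254465117704) (nat_lit 4)) .nil))) .nil))) .nil)))) .nil)))),
 (.br (nat_lit 3) (nat_lit 0) (.cons (.br (nat_lit 2) (nat_lit 0) (.cons (.kr (nat_lit 1208944266358702884323584) (nat_lit 4722438541563211546624) (nat_lit 1) (nat_lit 0)) .nil)) .nil)),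
 (.br (nat_lit 2) (nat_lit 0) (.cons (.kr (nat_lit 1208944266358702884323584) (nat_lit 4722438541563211546624) (nat_lit 1) (nat_lit 0)) .nil)),
 (.br (nat_lit 2) (nat_lit 0) (.cons (.br (nat_lit 7) (nat_lit 0) (.cons (.kr (nat_lit 1208944266358702884323584) (nat_lit 4722438541563211546624) (nat_lit 1) (nat_lit 0)) .nil)) .nil)),
 (.br (nat_lit 6) (nat_lit 1) (.cons (.rf (nat_lit 43) (nat_lit 12676618757702726)) (.cons (.rf (nat_lit 46) (nat_lit 217406610488992075)) .nil))),
 (.br (nat_lit 12) (nat_lit 0) (.cons (.br (nat_lit 10) (nat_lit 0) (.cons (.br (nat_lit 5) (nat_lit 0) (.cons (.ev (nat_lit 310693954087704871137443841) (nat_lit 1)) (.cons (.br (nat_lit 9) (nat_lit 0) (.cons (.ev (nat_lit 79229371458530697395956613376) (nat_lit 1)) (.cons (.br (nat_lit 4) (nat_lit 0) (.cons (.zr (nat_lit 928469196779659895758651650) (nat_lit 20282415648299215522663285981184) (nat_lit 5) (nat_lit 13)) .nil)) .nil))) .nil))) (.cons (.br (nat_lit 9) (nat_lit 0) (.cons (.ev (nat_lit 79229371440084233697695367169)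 (nat_lit 1)) (.cons (.br (nat_lit 5) (nat_lit 0) (.cons (.ev (nat_lit 1213648258437667346186496) (nat_lit 1)) (.cons (.br (nat_lit 6) (nat_lit 1) (.cons (.zr (nat_lit 928469196779659895758651650) (nat_lit 20282415648299215522663285981184) (nat_lit 5) (nat_lit 13)) .nil)) .nil))) .nil))) (.cons (.br (nat_lit 5) (nat_lit 0) (.cons (.ev (nat_lit 310693935641241172876198144) (nat_lit 1)) (.cons (.br (nat_lit 4) (nat_lit 0) (.cons (.ev (nat_lit 79537647542532427839784878081) (nat_lit 1)) (.cons (.kr (nat_lit 1208925819614633469673474) (nat_lit 79228162514264337593560728064) (nat_lit 0) (nat_lit 2)) .nil))) (.cons (.rf (nat_lit 47) (nat_lit 78582509700865405953)) .nil)))) .nil)))) (.cons (.br (nat_lit 10) (nat_lit 0) (.cons (.br (nat_lit 9) (nat_lit 0) (.cons (.br (nat_lit 5) (nat_lit 0) (.cons (.ev (nat_lit 79229371458530697395956613376) (nat_lit 1)) .nil)) (.cons (.br (nat_lit 13) (nat_lit 1) (.cons (.rf (nat_lit 41) (nat_lit 85726274309546193921)) (.cons (.br (nat_lit 8) (nat_lit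 1) (.cons (.zr (nat_lit 6044629098073167348368896) (nat_lit 20283028583134637222759776714755) (nat_lit 5) (nat_lit 8)) .nil)) .nil))) .nil))) (.cons (.br (nat_lit 9) (nat_lit 0) (.cons (.rf (nat_lit 49) (nat_lit 13909140160286818)) (.cons (.br (nat_lit 4) (nat_lit 0) (.cons (.br (nat_lit 5) (nat_lit 0) (.cons (.zr (nat_lit 60847538300687271158473673605632) (nat_lit 36894051118847361025) (nat_lit 10) (nat_lit 13)) .nil)) (.cons (.rf (nat_lit 41) (nat_lit 85726274309546193921)) .nil))) .nil))) (.cons (.br (nat_lit 13) (nat_lit 1) (.cons (.br (nat_lit 8) (nat_lit 1) (.cons (.ev (nat_lit 79537647542532427839784878336) (nat_lit 1)) (.cons (.ev (nat_lit 309489750706629610412441856) (nat_lit 1)) .nil))) (.cons (.rf (nat_lit 44) (nat_lit 78582509700865405953)) (.cons (.br (nat_lit 5) (nat_lit 0) (.cons (.rf (nat_lit 50) (nat_lit 482283501406818402)) (.cons (.ev (nat_lit 1213666704899166584176641) (nat_lit 1)) .nil))) .nil)))) .nil)))) (.cons (.br (nat_lit 10) (nat_lit 0) (.cons (.br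 (nat_lit 5) (nat_lit 0) (.cons (.ev (nat_lit 310693935641241172876197889) (nat_lit 1)) (.cons (.br (nat_lit 4) (nat_lit 0) (.cons (.br (nat_lit 13) (nat_lit 1) (.cons (.zr (nat_lit 6044629098073167348368896) (nat_lit 20283028583134637222759776714755) (nat_lit 5) (nat_lit 6)) .nil)) (.cons (.rf (nat_lit 38) (nat_lit 85761174872477807617)) .nil))) .nil))) (.cons (.br (nat_lit 5) (nat_lit 0) (.cons (.rf (nat_lit 51) (nat_lit 13909140160286818)) (.cons (.br (nat_lit 4) (nat_lit 0) (.cons (.br (nat_lit 13) (nat_lit 1) (.cons (.zr (nat_lit 60847538300687271158473673605632) (nat_lit 36894051118847361025) (nat_lit 10) (nat_lit 13)) .nil)) (.cons (.rf (nat_lit 33) (nat_lit 76740737500557638)) .nil))) .nil))) (.cons (.br (nat_lit 5) (nat_lit 0) (.cons (.br (nat_lit 6) (nat_lit 1) (.cons (.br (nat_lit 13) (nat_lit 1) (.cons (.zr (nat_lit 928469196780785795665756160) (nat_lit 20282415648299215241188393091329) (nat_lit 5) (nat_lit 0)) .nil)) (.cons (.ev (nat_lit 79229371440084233697695367424)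 (nat_lit 1)) .nil))) (.cons (.ev (nat_lit 310693935641241172876198144) (nat_lit 1)) (.cons (.rf (nat_lit 47) (nat_lit 78582509700865405953)) .nil)))) .nil)))) (.cons (.br (nat_lit 13) (nat_lit 1) (.cons (.br (nat_lit 9) (nat_lit 0) (.cons (.br (nat_lit 5) (nat_lit 0) (.cons (.ev (nat_lit 79537647524085964141557186561) (nat_lit 1)) (.cons (.ev (nat_lit 79228167255149622135231610881) (nat_lit 1)) .nil))) (.cons (.br (nat_lit 8) (nat_lit 1) (.cons (.kr (nat_lit 309485009821909118189830144) (nat_lit 4759332028611102244864) (nat_lit 5) (nat_lit 0)) (.cons (.ev (nat_lit 79229371440084233697695367424) (nat_lit 1)) .nil))) (.cons (.ev (nat_lit 309489750706629610412441856) (nat_lit 1)) .nil)))) (.cons (.br (nat_lit 9) (nat_lit 0) (.cons (.rf (nat_lit 52) (nat_lit 482283501406818402)) (.cons (.rf (nat_lit 47) (nat_lit 77430643796138669057)) (.cons (.rf (nat_lit 47) (nat_lit 77430641599262897153)) .nil)))) (.cons (.rf (nat_lit 41) (nat_lit 77430643796138669057)) (.cons (.br (nat_lit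 4) (nat_lit 0) (.cons (.kr (nat_lit 79228162514264337593560727552) (nat_lit 1208925819614633469673472) (nat_lit 3) (nat_lit 0)) (.cons (.br (nat_lit 8) (nat_lit 1) (.cons (.ev (nat_lit 79537647542532427839784878336) (nat_lit 1)) (.cons (.ev (nat_lit 79538861190790581828852908033) (nat_lit 1)) .nil))) (.cons (.br (nat_lit 2) (nat_lit 1) (.cons (.rf (nat_lit 38) (nat_lit 299873630759500985345)) (.cons (.rf (nat_lit 38) (nat_lit 308204023341465569312)) .nil))) .nil)))) .nil))))) .nil))))),
 (.br (nat_lit 10) (nat_lit 0) (.cons (.rf (nat_lit 48) (nat_lit 484410879322475530272)) (.cons (.ev (nat_lit 310693935641241172876198144) (nat_lit 1)) (.cons (.rf (nat_lit 48) (nat_lit 78582509700865405953)) .nil)))),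
 (.br (nat_lit 10) (nat_lit 0) (.cons (.rf (nat_lit 42) (nat_lit 225507812162241611)) (.cons (.rf (nat_lit 43) (nat_lit 7047119223489611)) .nil))),
 (.br (nat_lit 6) (nat_lit 1) (.cons (.rf (nat_lit 35) (nat_lit 405651797257061446)) (.cons (.rf (nat_lit 35) (nat_lit 1233828386742598)) .nil))),
 (.br (nat_lit 10) (nat_lit 0) (.cons (.br (nat_lit 12) (nat_lit 0) (.cons (.kr (nat_lit 309489732259886631919550466) (nat_lit 79229371440083952227030401536) (nat_lit 0) (nat_lit 2)) .nil)) (.cons (.kr (nat_lit 4722366765444133552129) (nat_lit 1208944266358702901035264) (nat_lit 0) (nat_lit 2)) .nil))),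
 (.br (nat_lit 11) (nat_lit 0) (.cons (.rf (nat_lit 47) (nat_lit 493858305440582043680)) (.cons (.rf (nat_lit 48) (nat_lit 493858305440582043680)) (.cons (.rf (nat_lit 53) (nat_lit 493858305440582043680)) (.cons (.br (nat_lit 9) (nat_lit 0) (.cons (.br (nat_lit 5) (nat_lit 0) (.cons (.rf (nat_lit 54) (nat_lit 493858305440582043680)) (.cons (.br (nat_lit 13) (nat_lit 1) (.cons (.rf (nat_lit 55) (nat_lit 482283501406818402)) (.cons (.rf (nat_lit 53) (nat_lit 78582509700865405953)) (.cons (.br (nat_lit 6) (nat_lit 1) (.cons (.rf (nat_lit 50) (nat_lit 219731051153828237)) (.cons (.zr (nat_lit 620188390196117129868345344) (nat_lit 20599322253708871889509570052353) (nat_lit 5) (nat_lit 0)) .nil))) .nil)))) (.cons (.br (nat_lit 10) (nat_lit 0) (.cons (.ev (nat_lit 20282410817299856802921064759296) (nat_lit 1)) (.cons (.br (nat_lit 4) (nat_lit 0) (.cons (.ev (nat_lit 20282409603651670706526051434753) (nat_lit 1)) (.cons (.ev (nat_lit 310693954159761369941934336) (nat_lit 1)) .nil)))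 .nil))) .nil)))) (.cons (.br (nat_lit 4) (nat_lit 0) (.cons (.br (nat_lit 5) (nat_lit 0) (.cons (.ev (nat_lit 309489732260168111208005888) (nat_lit 1)) (.cons (.br (nat_lit 12) (nat_lit 0) (.cons (.ev (nat_lit 41040497672121187892601875989510) (nat_lit 3)) .nil)) .nil))) (.cons (.ev (nat_lit 281479288455169) (nat_lit 1)) (.cons (.rf (nat_lit 47) (nat_lit 85726274309546193921)) .nil)))) (.cons (.br (nat_lit 5) (nat_lit 0) (.cons (.br (nat_lit 13) (nat_lit 1) (.cons (.rf (nat_lit 46) (nat_lit 83717062610029709)) (.cons (.rf (nat_lit 56) (nat_lit 482283501406818402)) (.cons (.br (nat_lit 6) (nat_lit 1) (.cons (.br (nat_lit 8) (nat_lit 1) (.cons (.zr (nat_lit 928469196779659895758651396) (nat_lit 20282415648299215522663285981440) (nat_lit 5) (nat_lit 2)) .nil)) (.cons (.zr (nat_lit 1218370553426992418783232) (nat_lit 20283028573671457229272843813121) (nat_lit 5) (nat_lit 0)) .nil))) .nil)))) (.cons (.rf (nat_lit 54) (nat_lit 493858305440582043680)) (.cons (.rf (nat_lit 54) (nat_lit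 491554641734280546336)) (.cons (.br (nat_lit 8) (nat_lit 1) (.cons (.rf (nat_lit 57) (nat_lit 493858305440582043680)) (.cons (.br (nat_lit 2) (nat_lit 1) (.cons (.br (nat_lit 6) (nat_lit 1) (.cons (.zr (nat_lit 60847538300687271157374161977348) (nat_lit 36894055495419036416) (nat_lit 10) (nat_lit 2)) .nil)) (.cons (.br (nat_lit 4) (nat_lit 0) (.cons (.zr (nat_lit 928469196779659895758651650) (nat_lit 20282415648299215522663285981184) (nat_lit 5) (nat_lit 13)) .nil)) .nil))) (.cons (.br (nat_lit 2) (nat_lit 1) (.cons (.br (nat_lit 10) (nat_lit 0) (.cons (.zr (nat_lit 60847538300687271157374161977348) (nat_lit 36894055495419036416) (nat_lit 10) (nat_lit 2)) .nil)) (.cons (.rf (nat_lit 57) (nat_lit 484410879322475530272)) .nil))) .nil)))) .nil))))) (.cons (.br (nat_lit 5) (nat_lit 0) (.cons (.br (nat_lit 10) (nat_lit 0) (.cons (.ev (nat_lit 20282410817299856802921064759553) (nat_lit 1)) (.cons (.br (nat_lit 4) (nat_lit 0) (.cons (.ev (nat_lit 20282409603651670706526051434496)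 (nat_lit 1)) (.cons (.ev (nat_lit 310693954159761369941934336) (nat_lit 1)) .nil))) .nil))) (.cons (.rf (nat_lit 54) (nat_lit 493858305440582043680)) (.cons (.br (nat_lit 10) (nat_lit 0) (.cons (.rf (nat_lit 53) (nat_lit 484410879322475530272)) (.cons (.br (nat_lit 4) (nat_lit 0) (.cons (.br (nat_lit 12) (nat_lit 0) (.cons (.zr (nat_lit 6044629098073167348368896) (nat_lit 20283028583134637222759776714755) (nat_lit 5) (nat_lit 6)) .nil)) (.cons (.kr (nat_lit 281479271677952) (nat_lit 18518801667747479552) (nat_lit 4) (nat_lit 0)) .nil))) (.cons (.br (nat_lit 2) (nat_lit 1) (.cons (.br (nat_lit 6) (nat_lit 1) (.cons (.zr (nat_lit 6044629098073167348368896) (nat_lit 20283028583134637222759776714755) (nat_lit 5) (nat_lit 8)) .nil)) (.cons (.br (nat_lit 4) (nat_lit 0) (.cons (.zr (nat_lit 928469196779659895758651650) (nat_lit 20282415648299215522663285981184) (nat_lit 5) (nat_lit 13)) .nil)) .nil))) .nil)))) .nil)))) .nil))))) .nil))))),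
 (.br (nat_lit 13) (nat_lit 1) (.cons (.br (nat_lit 11) (nat_lit 0) (.cons (.kr (nat_lit 309489732259886631919550466) (nat_lit 79229371440083952227030401536) (nat_lit 0) (nat_lit 2)) .nil)) (.cons (.br (nat_lit 9) (nat_lit 0) (.cons (.kr (nat_lit 309489732259886631919550466) (nat_lit 79229371440083952227030401536) (nat_lit 0) (nat_lit 2)) .nil)) .nil))),
 (.br (nat_lit 11) (nat_lit 0) (.cons (.rf (nat_lit 59) (nat_lit 484410877125599758368)) (.cons (.br (nat_lit 5) (nat_lit 0) (.cons (.zr (nat_lit 6044629098073167348368896) (nat_lit 20283028583134637222759776714755) (nat_lit 5) (nat_lit 6)) .nil)) .nil))),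
 (.br (nat_lit 9) (nat_lit 0) (.cons (.rf (nat_lit 58) (nat_lit 77430643796138669057)) (.cons (.rf (nat_lit 58) (nat_lit 77430641599262897153)) .nil))),
 (.br (nat_lit 12) (nat_lit 0) (.cons (.kr (nat_lit 79228162514264337593560727552) (nat_lit 1208925819614633469673472) (nat_lit 3) (nat_lit 0)) (.cons (.br (nat_lit 6) (nat_lit 1) (.cons (.rf (nat_lit 59) (nat_lit 493858305440582043680)) (.cons (.rf (nat_lit 60) (nat_lit 493858305440582043680)) (.cons (.br (nat_lit 9) (nat_lit 0) (.cons (.rf (nat_lit 60) (nat_lit 484410877125599758368)) (.cons (.br (nat_lit 5) (nat_lit 0) (.cons (.zr (nat_lit 60847538300687199100879635677188) (nat_lit 37182281473524237056) (nat_lit 10) (nat_lit 2)) .nil)) .nil))) .nil)))) (.cons (.rf (nat_lit 61) (nat_lit 493858305440582043680)) .nil)))),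
 (.br (nat_lit 9) (nat_lit 0) (.cons (.rf (nat_lit 58) (nat_lit 77430643796138669057)) (.cons (.rf (nat_lit 58) (nat_lit 77430641599262897153)) .nil)))]

theorem c1 : chkAll C T R L1 (nat_lit 40) = true := by decide +kernel

theorem l1 : (nat_lit 40) + L1.length = (nat_lit 64) := by decide +kernel

/-- part of the certificates -/
def L2 : List Prf := [(.br (nat_lit 11) (nat_lit 0) (.cons (.br (nat_lit 4) (nat_lit 0) (.cons (.br (nat_lit 12) (nat_lit 0) (.cons (.ev (nat_lit 79537647524158021731300147456) (nat_lit 1)) (.cons (.rf (nat_lit 63) (nat_lit 493858305440582043680)) .nil))) (.cons (.br (nat_lit 13) (nat_lit 1) (.cons (.br (nat_lit 9) (nat_lit 0) (.cons (.ev (nat_lit 20282720297587383723813693882368) (nat_lit 1)) (.cons (.ev (nat_lit 20282409603670117169124784275713) (nat_lit 1)) .nil))) (.cons (.br (nat_lit 5) (nat_lit 0) (.cons (.ev (nat_lit 20282410817299856802921064759553) (nat_lit 1)) (.cons (.ev (nat_lit 20282719093402377053557680570368) (nat_lit 1)) .nil))) (.cons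 (.rf (nat_lit 63) (nat_lit 493858305440582043680)) .nil)))) (.cons (.rf (nat_lit 44) (nat_lit 235603888416164513824)) .nil)))) (.cons (.br (nat_lit 5) (nat_lit 0) (.cons (.br (nat_lit 9) (nat_lit 0) (.cons (.rf (nat_lit 56) (nat_lit 230081922281410658)) (.cons (.ev (nat_lit 20282410817299856802921064759553) (nat_lit 1)) .nil))) (.cons (.br (nat_lit 8) (nat_lit 1) (.cons (.br (nat_lit 2) (nat_lit 1) (.cons (.br (nat_lit 13) (nat_lit 1) (.cons (.zr (nat_lit 6044702885049440711999488) (nat_lit 20283028583116190478686067097857) (nat_lit 5) (nat_lit 0)) .nil)) (.cons (.br (nat_lit 13) (nat_lit 1) (.cons (.zr (nat_lit 928469196779659895758651650) (nat_lit 20282415648299215522663285981184) (nat_lit 5) (nat_lit 13)) .nil)) .nil))) (.cons (.br (nat_lit 12) (nat_lit 0) (.cons (.ev (nat_lit 79537647542532426735978283009) (nat_lit 1)) (.cons (.ev (nat_lit 79537647542532426735978283264) (nat_lit 1)) .nil))) (.cons (.br (nat_lit 2) (nat_lit 1) (.cons (.br (nat_lit 9) (nat_lit 0) (.cons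 (.zr (nat_lit 6044629098073167348368896) (nat_lit 20283028583134637222759776714755) (nat_lit 5) (nat_lit 6)) .nil)) (.cons (.rf (nat_lit 46) (nat_lit 219731056522537352)) .nil))) .nil)))) (.cons (.br (nat_lit 9) (nat_lit 0) (.cons (.ev (nat_lit 20282410817299856802921064759296) (nat_lit 1)) (.cons (.br (nat_lit 4) (nat_lit 0) (.cons (.rf (nat_lit 58) (nat_lit 491554641734280546336)) (.cons (.kr (nat_lit 4722366764344621924352) (nat_lit 1208944266358702884257792) (nat_lit 6) (nat_lit 0)) .nil))) .nil))) .nil)))) (.cons (.br (nat_lit 6) (nat_lit 1) (.cons (.ev (nat_lit 310693935713298771209093376) (nat_lit 1)) (.cons (.br (nat_lit 13) (nat_lit 1) (.cons (.br (nat_lit 9) (nat_lit 0) (.cons (.rf (nat_lit 52) (nat_lit 227832252827077773)) (.cons (.ev (nat_lit 18446745177516146944) (nat_lit 1)) .nil))) (.cons (.br (nat_lit 2) (nat_lit 1) (.cons (.br (nat_lit 12) (nat_lit 0) (.cons (.zr (nat_lit 60847544340593930690077827203584) (nat_lit 18926648217350151602177) (nat_lit 10) (nat_lit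 2)) .nil)) (.cons (.br (nat_lit 8) (nat_lit 1) (.cons (.zr (nat_lit 928469196779659895758651650) (nat_lit 20282415648299215522663285981184) (nat_lit 5) (nat_lit 13)) .nil)) .nil))) (.cons (.br (nat_lit 2) (nat_lit 1) (.cons (.rf (nat_lit 38) (nat_lit 227273425534308299777)) (.cons (.rf (nat_lit 55) (nat_lit 219731051153828237)) .nil))) .nil)))) (.cons (.br (nat_lit 2) (nat_lit 1) (.cons (.rf (nat_lit 58) (nat_lit 491554643931156318240)) (.cons (.br (nat_lit 13) (nat_lit 1) (.cons (.rf (nat_lit 49) (nat_lit 4683131656712518)) (.cons (.rf (nat_lit 50) (nat_lit 230081922281410658)) .nil))) (.cons (.rf (nat_lit 58) (nat_lit 483259013417748793376)) .nil)))) (.cons (.br (nat_lit 4) (nat_lit 0) (.cons (.kr (nat_lit 79228162514264337593560727552) (nat_lit 1208925819614633469673472) (nat_lit 3) (nat_lit 0)) (.cons (.br (nat_lit 2) (nat_lit 1) (.cons (.br (nat_lit 9) (nat_lit 0) (.cons (.ev (nat_lit 20282409603670117169124784275456) (nat_lit 1)) .nil)) (.cons (.br (nat_lit 13) (nat_lit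 1) (.cons (.ev (nat_lit 20282409603670117169124784275713) (nat_lit 1)) .nil)) .nil))) (.cons (.kr (nat_lit 1208925819614633469673473) (nat_lit 79228162514264337593560727808) (nat_lit 0) (nat_lit 2)) .nil)))) .nil))))) (.cons (.br (nat_lit 5) (nat_lit 0) (.cons (.br (nat_lit 9) (nat_lit 0) (.cons (.ev (nat_lit 20282720297587383723813693882368) (nat_lit 1)) (.cons (.br (nat_lit 4) (nat_lit 0) (.cons (.ev (nat_lit 1213648186380077603225601) (nat_lit 1)) (.cons (.ev (nat_lit 20282409603670117169124784275456) (nat_lit 1)) .nil))) .nil))) (.cons (.br (nat_lit 9) (nat_lit 0) (.cons (.ev (nat_lit 20282410817299856802921064759296) (nat_lit 1)) (.cons (.br (nat_lit 2) (nat_lit 1) (.cons (.rf (nat_lit 58) (nat_lit 491554641734280546336)) (.cons (.rf (nat_lit 58) (nat_lit 483259011220873021472)) .nil))) .nil))) (.cons (.br (nat_lit 9) (nat_lit 0) (.cons (.br (nat_lit 4) (nat_lit 0) (.cons (.ev (nat_lit 1213648186380077603225601) (nat_lit 1)) (.cons (.ev (nat_lit 20282719093402377053557680570368)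 (nat_lit 1)) .nil))) (.cons (.br (nat_lit 2) (nat_lit 1) (.cons (.rf (nat_lit 58) (nat_lit 491554643931156318240)) (.cons (.rf (nat_lit 58) (nat_lit 483259013417748793376)) .nil))) (.cons (.rf (nat_lit 54) (nat_lit 491554641734280546336)) .nil)))) .nil)))) .nil))))),
 (.br (nat_lit 1) (nat_lit 0) (.cons (.kr (nat_lit 1) (nat_lit 256) (nat_lit 0) (nat_lit 2)) (.cons (.br (nat_lit 13) (nat_lit 0) (.cons (.br (nat_lit 7) (nat_lit 0) (.cons (.rf (nat_lit 41) (nat_lit 493858305440582043680)) (.cons (.rf (nat_lit 58) (nat_lit 493858305440582043680)) (.cons (.rf (nat_lit 58) (nat_lit 493858303243706271776)) (.cons (.br (nat_lit 10) (nat_lit 0) (.cons (.br (nat_lit 4) (nat_lit 0) (.cons (.rf (nat_lit 62) (nat_lit 493858305440582043680)) (.cons (.rf (nat_lit 62) (nat_lit 493858303243706271776)) (.cons (.rf (nat_lit 61) (nat_lit 484410879322475530272)) .nil)))) (.cons (.rf (nat_lit 64) (nat_lit 493858305440582043680)) (.cons (.rf (nat_lit 64) (nat_lit 493858303243706271776)) (.cons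 (.rf (nat_lit 41) (nat_lit 78582509700865405953)) .nil))))) .nil))))) .nil)) .nil))),
 (.br (nat_lit 8) (nat_lit 1) (.cons (.ev (nat_lit 81211039021615019609418931240960) (nat_lit 3)) .nil)),
 (.br (nat_lit 11) (nat_lit 0) (.cons (.br (nat_lit 7) (nat_lit 0) (.cons (.br (nat_lit 9) (nat_lit 0) (.cons (.ev (nat_lit 311907584187350673057382914) (nat_lit 3)) .nil)) .nil)) (.cons (.br (nat_lit 13) (nat_lit 1) (.cons (.rf (nat_lit 66) (nat_lit 493858305440582043680)) (.cons (.rf (nat_lit 66) (nat_lit 491554643926861355040)) .nil))) .nil))),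
 (.br (nat_lit 1) (nat_lit 0) .nil),
 (.br (nat_lit 8) (nat_lit 0) (.cons (.rf (nat_lit 65) (nat_lit 14242959524133701664)) (.cons (.rf (nat_lit 27) (nat_lit 6555680)) (.cons (.br (nat_lit 2) (nat_lit 0) (.cons (.br (nat_lit 1) (nat_lit 0) (.cons (.br (nat_lit 12) (nat_lit 0) (.cons (.br (nat_lit 10) (nat_lit 0) (.cons (.br (nat_lit 4) (nat_lit 0) (.cons (.br (nat_lit 5) (nat_lit 0) (.cons (.rf (nat_lit 67) (nat_lit 493858305440582043680)) (.cons (.rf (nat_lit 67) (nat_lit 309390870201044666369)) .nil))) (.cons (.rf (nat_lit 65) (nat_lit 11939295811389759520)) (.cons (.rf (nat_lit 65) (nat_lit 11939295811389764609)) .nil)))) (.cons (.rf (nat_lit 65) (nat_lit 4795531202708971552)) (.cons (.rf (nat_lit 65) (nat_lit 4795531202708976641)) .nil)))) (.cons (.br (nat_lit 10) (nat_lit 0) (.cons (.br (nat_lit 4) (nat_lit 0) (.cons (.kr (nat_lit 79228162514264337593560727552) (nat_lit 1208925819614633469673472) (nat_lit 3) (nat_lit 0)) (.cons (.rf (nat_lit 65) (nat_lit 11939295811389759520))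 (.cons (.rf (nat_lit 65) (nat_lit 11939295811389764609)) .nil)))) (.cons (.br (nat_lit 4) (nat_lit 0) (.cons (.kr (nat_lit 79228162514264337593560727552) (nat_lit 1208925819614633469673472) (nat_lit 3) (nat_lit 0)) (.cons (.rf (nat_lit 65) (nat_lit 11939295811389759520)) (.cons (.rf (nat_lit 65) (nat_lit 11939295811389764609)) .nil)))) (.cons (.rf (nat_lit 65) (nat_lit 4795531202708971552)) (.cons (.rf (nat_lit 65) (nat_lit 4795531202708976641)) .nil))))) (.cons (.rf (nat_lit 65) (nat_lit 3643665297982234656)) (.cons (.rf (nat_lit 65) (nat_lit 3643665297982239745)) .nil))))) .nil)) (.cons (.rf (nat_lit 68) (nat_lit 444794912)) .nil))) .nil)))),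
 (.br (nat_lit 2) (nat_lit 0) (.cons (.rf (nat_lit 68) (nat_lit 172035104)) .nil)),
 (.br (nat_lit 12) (nat_lit 1) (.cons (.br (nat_lit 6) (nat_lit 0) (.cons (.rf (nat_lit 69) (nat_lit 14242959524133701664)) (.cons (.rf (nat_lit 27) (nat_lit 8587296)) (.cons (.rf (nat_lit 27) (nat_lit 2365472)) (.cons (.br (nat_lit 8) (nat_lit 0) (.cons (.rf (nat_lit 69) (nat_lit 14242957327257929760)) (.cons (.rf (nat_lit 27) (nat_lit 6555680)) (.cons (.rf (nat_lit 70) (nat_lit 444794912)) .nil)))) .nil))))) .nil)),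
 (.br (nat_lit 11) (nat_lit 1) (.cons (.rf (nat_lit 30) (nat_lit 11114157156)) (.cons (.br (nat_lit 12) (nat_lit 1) (.cons (.rf (nat_lit 71) (nat_lit 14242959524133701664)) (.cons (.br (nat_lit 12) (nat_lit 1) (.cons (.rf (nat_lit 71) (nat_lit 14242959524133701664)) .nil)) .nil))) .nil))),
 (.br (nat_lit 7) (nat_lit 1) (.cons (.rf (nat_lit 11) (nat_lit 7476322)) (.cons (.br (nat_lit 5) (nat_lit 1) (.cons (.rf (nat_lit 1) (nat_lit 7638180)) (.cons (.br (nat_lit 10) (nat_lit 1) (.cons (.br (nat_lit 2) (nat_lit 0) (.cons (.rf (nat_lit 28) (nat_lit 11578106720655392)) (.cons (.rf (nat_lit 27) (nat_lit 8587296)) (.cons (.rf (nat_lit 27) (nat_lit 6555680)) (.cons (.br (nat_lit 8) (nat_lit 0) (.cons (.rf (nat_lit 28) (nat_lit 11584701642934304)) (.cons (.rf (nat_lit 27) (nat_lit 2365472)) (.cons (.rf (nat_lit 70) (nat_lit 377559072)) .nil)))) .nil))))) (.cons (.rf (nat_lit 30) (nat_lit 12156376195)) .nil))) (.cons (.br (nat_lit 11) (nat_lit 1) (.cons (.rf (nat_lit 30) (nat_lit 10984131748))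 (.cons (.rf (nat_lit 72) (nat_lit 407901468851537952)) (.cons (.br (nat_lit 11) (nat_lit 1) (.cons (.rf (nat_lit 30) (nat_lit 13261640804)) (.cons (.rf (nat_lit 72) (nat_lit 407901468851537952)) .nil))) .nil)))) .nil)))) .nil))),
 (.br (nat_lit 2) (nat_lit 0) (.cons (.rf (nat_lit 11) (nat_lit 3146820)) .nil)),
 (.br (nat_lit 4) (nat_lit 0) (.cons (.rf (nat_lit 73) (nat_lit 359821728679968)) (.cons (.rf (nat_lit 73) (nat_lit 359817433716768)) (.cons (.rf (nat_lit 73) (nat_lit 358717922090016)) (.cons (.rf (nat_lit 73) (nat_lit 359821728687105)) .nil))))),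
 (.br (nat_lit 9) (nat_lit 1) (.cons (.rf (nat_lit 74) (nat_lit 299109)) (.cons (.rf (nat_lit 74) (nat_lit 370921)) (.cons (.rf (nat_lit 74) (nat_lit 306503)) (.cons (.rf (nat_lit 75) (nat_lit 15069088351094816)) .nil))))),
 (.br (nat_lit 10) (nat_lit 0) (.cons (.ev (nat_lit 20282410812595936782654447288576) (nat_lit 1)) .nil)),
 (.br (nat_lit 5) (nat_lit 0) (.cons (.rf (nat_lit 77) (nat_lit 493858305440582043680)) (.cons (.br (nat_lit 12) (nat_lit 1) (.cons (.ev (nat_lit 79228162514264620172344099073) (nat_lit 1)) (.cons (.br (nat_lit 8) (nat_lit 1) (.cons (.zr (nat_lit 239231917314266783943938474496) (nat_lit 4835813958927374182514689) (nat_lit 10) (nat_lit 2)) .nil)) .nil))) .nil))),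
 (.br (nat_lit 6) (nat_lit 1) (.cons (.ev (nat_lit 21079351642772875165313907951622) (nat_lit 4)) .nil)),
 (.br (nat_lit 9) (nat_lit 0) (.cons (.br (nat_lit 11) (nat_lit 0) (.cons (.rf (nat_lit 78) (nat_lit 493858305440582043680)) (.cons (.br (nat_lit 10) (nat_lit 0) (.cons (.rf (nat_lit 78) (nat_lit 493823402543469922336)) (.cons (.br (nat_lit 7) (nat_lit 0) (.cons (.br (nat_lit 8) (nat_lit 1) (.cons (.ev (nat_lit 20759953441119863864461082625536) (nat_lit 3)) .nil)) .nil)) .nil))) .nil))) (.cons (.br (nat_lit 7) (nat_lit 0) (.cons (.br (nat_lit 11) (nat_lit 0) (.cons (.br (nat_lit 5) (nat_lit 0) (.cons (.ev (nat_lit 20282719098161637871203026731520) (nat_lit 2)) .nil)) (.cons (.br (nat_lit 10) (nat_lit 0) (.cons (.ev (nat_lit 20283029782615651811856650076672) (nat_lit 2)) (.cons (.br (nat_lit 8) (nat_lit 1) (.cons (.ev (nat_lit 20283341690218070010919741555202) (nat_lit 3)) .nil)) .nil))) .nil))) (.cons (.ev (nat_lit 18446744078021296129) (nat_lit 1)) (.cons (.br (nat_lit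 5) (nat_lit 0) (.cons (.ev (nat_lit 20282409608374037189395679805441) (nat_lit 1)) (.cons (.br (nat_lit 12) (nat_lit 1) (.cons (.ev (nat_lit 20361638975110273178937245892608) (nat_lit 1)) (.cons (.ev (nat_lit 20361947251194274909376795967488) (nat_lit 1)) .nil))) (.cons (.br (nat_lit 8) (nat_lit 1) (.cons (.ev (nat_lit 20361638975110273178937245892608) (nat_lit 1)) (.cons (.ev (nat_lit 20361947251194274909376795967488) (nat_lit 1)) .nil))) .nil)))) .nil)))) (.cons (.br (nat_lit 7) (nat_lit 0) (.cons (.br (nat_lit 5) (nat_lit 0) (.cons (.br (nat_lit 8) (nat_lit 1) (.cons (.ev (nat_lit 1213666704900266079027456) (nat_lit 1)) (.cons (.ev (nat_lit 309489750706630705629102336) (nat_lit 1)) .nil))) (.cons (.ev (nat_lit 79228162514264620172344099073) (nat_lit 1)) .nil))) (.cons (.br (nat_lit 6) (nat_lit 1) (.cons (.br (nat_lit 11) (nat_lit 0) (.cons (.br (nat_lit 12) (nat_lit 1) (.cons (.ev (nat_lit 79228162532783140365098090496) (nat_lit 1)) .nil)) (.cons (.br (nat_lit 10) (nat_lit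 0) (.cons (.ev (nat_lit 79228162532783140365098090496) (nat_lit 1)) .nil)) .nil))) (.cons (.ev (nat_lit 20282410812577562377649735598081) (nat_lit 1)) (.cons (.ev (nat_lit 20282719088661564108089285672961) (nat_lit 1)) .nil)))) (.cons (.br (nat_lit 5) (nat_lit 0) (.cons (.br (nat_lit 10) (nat_lit 0) (.cons (.br (nat_lit 8) (nat_lit 1) (.cons (.ev (nat_lit 20443040791174209256565116108806) (nat_lit 4)) .nil)) .nil)) (.cons (.br (nat_lit 8) (nat_lit 1) (.cons (.rf (nat_lit 79) (nat_lit 493858305440582043680)) (.cons (.rf (nat_lit 79) (nat_lit 493823402543469922336)) .nil))) .nil))) .nil)))) .nil)))),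
 (.br (nat_lit 5) (nat_lit 0) (.cons (.br (nat_lit 12) (nat_lit 1) (.cons (.rf (nat_lit 80) (nat_lit 260968300119264997377)) (.cons (.ev (nat_lit 20362257945111397632568809554176) (nat_lit 2)) .nil))) (.cons (.br (nat_lit 7) (nat_lit 0) (.cons (.br (nat_lit 11) (nat_lit 0) (.cons (.ev (nat_lit 20440873187049791025771693867783) (nat_lit 3)) .nil)) .nil)) .nil))),
 (.br (nat_lit 6) (nat_lit 1) (.cons (.br (nat_lit 12) (nat_lit 1) (.cons (.ev (nat_lit 79228162514264620172344099073) (nat_lit 1)) (.cons (.br (nat_lit 8) (nat_lit 1) (.cons (.ev (nat_lit 79540070098164015342844707586) (nat_lit 2)) .nil)) .nil))) (.cons (.br (nat_lit 11) (nat_lit 0) (.cons (.br (nat_lit 5) (nat_lit 0) (.cons (.ev (nat_lit 21235322416205448766373204067336) (nat_lit 4)) .nil)) (.cons (.br (nat_lit 8) (nat_lit 1) (.cons (.ev (nat_lit 21079349234365968903985282287622) (nat_lit 4)) .nil)) .nil))) (.cons (.rf (nat_lit 81) (nat_lit 493823402543469922336)) .nil)))),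
 (.br (nat_lit 10) (nat_lit 0) (.cons (.rf (nat_lit 81) (nat_lit 493858305440582043680)) (.cons (.rf (nat_lit 82) (nat_lit 493858305440582043680)) (.cons (.br (nat_lit 11) (nat_lit 0) (.cons (.rf (nat_lit 81) (nat_lit 493823402543469922336)) (.cons (.rf (nat_lit 82) (nat_lit 493823402543469922336)) .nil))) .nil)))),
 (.br (nat_lit 6) (nat_lit 1) (.cons (.ev (nat_lit 79228162514264620172344099073) (nat_lit 1)) (.cons (.rf (nat_lit 77) (nat_lit 489211714332461729824)) (.cons (.rf (nat_lit 77) (nat_lit 489246617229573851168)) .nil)))),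
 (.br (nat_lit 4) (nat_lit 0) (.cons (.rf (nat_lit 80) (nat_lit 493858305440582043680)) (.cons (.rf (nat_lit 80) (nat_lit 493858303243706271776)) (.cons (.br (nat_lit 9) (nat_lit 0) (.cons (.rf (nat_lit 83) (nat_lit 493858305440582043680)) (.cons (.rf (nat_lit 83) (nat_lit 493858303243706271776)) (.cons (.br (nat_lit 5) (nat_lit 0) (.cons (.rf (nat_lit 84) (nat_lit 493858305440582043680)) (.cons (.rf (nat_lit 84) (nat_lit 493858303243706271776)) .nil))) .nil)))) .nil)))),
 (.br (nat_lit 4) (nat_lit 0) (.cons (.ev (nat_lit 282578783305729) (nat_lit 1)) (.cons (.br (nat_lit 7) (nat_lit 0) (.cons (.br (nat_lit 11) (nat_lit 0) (.cons (.br (nat_lit 10) (nat_lit 0) (.cons (.ev (nat_lit 79538856468352041365169832193) (nat_lit 1)) .nil)) (.cons (.br (nat_lit 8) (nat_lit 1) (.cons (.ev (nat_lit 79538856468352041365169832193) (nat_lit 1)) .nil)) .nil))) (.cons (.rf (nat_lit 85) (nat_lit 260968302316140769281)) .nil))) .nil))),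
 (.br (nat_lit 7) (nat_lit 0) (.cons (.br (nat_lit 12) (nat_lit 1) (.cons (.ev (nat_lit 21235322416206169353308632516102) (nat_lit 4)) .nil)) .nil)),
 (.br (nat_lit 11) (nat_lit 0) (.cons (.ev (nat_lit 79538856468352041365169831936) (nat_lit 1)) .nil)),
 (.br (nat_lit 5) (nat_lit 0) (.cons (.rf (nat_lit 86) (nat_lit 493858305440582043680)) (.cons (.br (nat_lit 4) (nat_lit 0) (.cons (.ev (nat_lit 282578783305729) (nat_lit 1)) (.cons (.br (nat_lit 11) (nat_lit 0) (.cons (.rf (nat_lit 87) (nat_lit 493858305440582043680)) (.cons (.br (nat_lit 10) (nat_lit 0) (.cons (.rf (nat_lit 87) (nat_lit 493823402543469922336)) (.cons (.br (nat_lit 7) (nat_lit 0) (.cons (.ev (nat_lit 21235322416206169353308632517122) (nat_lit 4)) .nil)) .nil))) .nil))) (.cons (.ev (nat_lit 282578783305984) (nat_lit 1)) .nil)))) (.cons (.br (nat_lit 4) (nat_lit 0) (.cons (.rf (nat_lit 86) (nat_lit 346284493588361480224)) (.cons (.ev (nat_lit 282578783305984) (nat_lit 1)) (.cons (.br (nat_lit 7) (nat_lit 0)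 (.cons (.br (nat_lit 10) (nat_lit 0) (.cons (.br (nat_lit 11) (nat_lit 0) (.cons (.ev (nat_lit 21235322416205448777368152574466) (nat_lit 4)) .nil)) .nil)) (.cons (.br (nat_lit 8) (nat_lit 1) (.cons (.rf (nat_lit 88) (nat_lit 493858305440582043680)) (.cons (.rf (nat_lit 88) (nat_lit 493823402543469922336)) .nil))) .nil))) .nil)))) .nil))))]

theorem c2 : chkAll C T R L2 (nat_lit 64) = true := by decide +kernel

theorem l2 : (nat_lit 64) + L2.length = (nat_lit 90) := by decide +kernel

/-- part of the certificates -/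
def L3 : List Prf := [(.br (nat_lit 4) (nat_lit 0) (.cons (.br (nat_lit 5) (nat_lit 0) (.cons (.br (nat_lit 12) (nat_lit 1) (.cons (.ev (nat_lit 79538856468352041369448022273) (nat_lit 1)) .nil)) .nil)) (.cons (.rf (nat_lit 89) (nat_lit 482329020094487867393)) .nil))),
 (.br (nat_lit 7) (nat_lit 0) (.cons (.rf (nat_lit 90) (nat_lit 493858305440582043680)) (.cons (.rf (nat_lit 90) (nat_lit 346284491391485708320)) (.cons (.br (nat_lit 12) (nat_lit 1) (.cons (.rf (nat_lit 85) (nat_lit 260968302316140769281)) (.cons (.rf (nat_lit 85) (nat_lit 260968161716090351617)) (.cons (.br (nat_lit 8) (nat_lit 1) (.cons (.br (nat_lit 5) (nat_lit 0) (.cons (.ev (nat_lit 158767047354213454476346524678) (nat_lit 3)) .nil)) (.cons (.br (nat_lit 4) (nat_lit 0) (.cons (.ev (nat_lit 475679697374089647086471872518) (nat_lit 3)) .nil)) .nil))) .nil)))) .nil)))),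
 (.br (nat_lit 5) (nat_lit 0) (.cons (.kr (nat_lit 309485009821626547996459008) (nat_lit 1208944266359802395885568) (nat_lit 4) (nat_lit 0)) (.cons (.kr (nat_lit 1208944266359802395885569) (nat_lit 309485009821626547996459264) (nat_lit 0) (nat_lit 2)) .nil))),
 (.br (nat_lit 11) (nat_lit 0) (.cons (.rf (nat_lit 91) (nat_lit 493823402543469922336)) (.cons (.br (nat_lit 4) (nat_lit 0) (.cons (.rf (nat_lit 92) (nat_lit 493858305440582043680)) (.cons (.rf (nat_lit 92) (nat_lit 482329090394513584129)) .nil))) (.cons (.br (nat_lit 5) (nat_lit 0) (.cons (.br (nat_lit 12) (nat_lit 1) (.cons (.ev (nat_lit 79538856449905579865931841793) (nat_lit 1)) (.cons (.br (nat_lit 4) (nat_lit 0) (.cons (.zr (nat_lit 316912650075504657410723676160) (nat_lit 618979464375655876773609729) (nat_lit 5) (nat_lit 1)) .nil)) .nil))) (.cons (.br (nat_lit 7) (nat_lit 0) (.cons (.br (nat_lit 4) (nat_lit 0) (.cons (.ev (nat_lit 620183686347870791878574851) (nat_lit 2)) .nil)) (.cons (.br (nat_lit 4) (nat_lit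 0) (.cons (.ev (nat_lit 620183686347870791878574337) (nat_lit 2)) .nil)) .nil))) (.cons (.br (nat_lit 4) (nat_lit 0) (.cons (.ev (nat_lit 79538856449905579865931841536) (nat_lit 1)) (.cons (.br (nat_lit 2) (nat_lit 1) (.cons (.zr (nat_lit 237690536931151062441128035072) (nat_lit 1237940039287069142006366210) (nat_lit 10) (nat_lit 12)) .nil)) .nil))) .nil)))) .nil)))),
 (.br (nat_lit 4) (nat_lit 0) (.cons (.ev (nat_lit 79538856449905579865931841536) (nat_lit 1)) (.cons (.kr (nat_lit 4722366764344621924352) (nat_lit 20282409603670117168020960837632) (nat_lit 6) (nat_lit 0)) .nil))),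
 (.br (nat_lit 10) (nat_lit 0) (.cons (.rf (nat_lit 91) (nat_lit 493858305440582043680)) (.cons (.rf (nat_lit 93) (nat_lit 493858305440582043680)) (.cons (.rf (nat_lit 93) (nat_lit 346284491391485708320)) (.cons (.br (nat_lit 11) (nat_lit 0) (.cons (.rf (nat_lit 91) (nat_lit 493823402543469922336)) (.cons (.rf (nat_lit 93) (nat_lit 493823402543469922336)) (.cons (.rf (nat_lit 93) (nat_lit 346249588494373586976)) (.cons (.br (nat_lit 6) (nat_lit 1) (.cons (.br (nat_lit 5) (nat_lit 0) (.cons (.rf (nat_lit 38) (nat_lit 226086656629328392193)) (.cons (.br (nat_lit 7) (nat_lit 0) (.cons (.ev (nat_lit 475679697374089647086471873028) (nat_lit 3)) .nil)) .nil))) (.cons (.rf (nat_lit 94) (nat_lit 493858305440582043680)) (.cons (.br (nat_lit 8) (nat_lit 1) (.cons (.rf (nat_lit 94) (nat_lit 346284491391485708320)) (.cons (.ev (nat_lit 282574505115649) (nat_lit 1)) .nil))) .nil)))) .nil))))) .nil))))),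
 (.br (nat_lit 4) (nat_lit 0) (.cons (.br (nat_lit 10) (nat_lit 0) (.cons (.ev (nat_lit 309489750634573111607951616) (nat_lit 1)) (.cons (.ev (nat_lit 79540070098091961051653407490) (nat_lit 2)) .nil))) (.cons (.br (nat_lit 7) (nat_lit 0) (.cons (.rf (nat_lit 95) (nat_lit 482329020094487867393)) .nil)) .nil))),
 (.br (nat_lit 6) (nat_lit 1) (.cons (.br (nat_lit 7) (nat_lit 0) (.cons (.rf (nat_lit 96) (nat_lit 272497374565283039264)) (.cons (.ev (nat_lit 79228162514264620172344098816) (nat_lit 1)) .nil))) (.cons (.br (nat_lit 4) (nat_lit 0) (.cons (.br (nat_lit 12) (nat_lit 1) (.cons (.ev (nat_lit 21396252250647680878498076820486) (nat_lit 4)) .nil)) (.cons (.rf (nat_lit 89) (nat_lit 482329020094487867393)) .nil))) (.cons (.rf (nat_lit 96) (nat_lit 493823402543469922336)) .nil)))),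
 (.br (nat_lit 10) (nat_lit 0) (.cons (.br (nat_lit 8) (nat_lit 1) (.cons (.ev (nat_lit 309489750634573111607951616) (nat_lit 1)) (.cons (.br (nat_lit 12) (nat_lit 1) (.cons (.zr (nat_lit 316912650075720830179952558080) (nat_lit 2427296372194997673459969) (nat_lit 5) (nat_lit 1)) .nil)) .nil))) (.cons (.br (nat_lit 4) (nat_lit 0) (.cons (.br (nat_lit 8) (nat_lit 1) (.cons (.ev (nat_lit 20759953441119863864461082625026) (nat_lit 3)) .nil)) .nil)) .nil))),
 (.br (nat_lit 10) (nat_lit 0) (.cons (.rf (nat_lit 98) (nat_lit 493823402543469922336)) (.cons (.br (nat_lit 7) (nat_lit 0) (.cons (.br (nat_lit 12) (nat_lit 1) (.cons (.ev (nat_lit 79228162514264620172344099073) (nat_lit 1)) .nil)) (.cons (.br (nat_lit 2) (nat_lit 1) (.cons (.ev (nat_lit 79228162514264620172344098816) (nat_lit 1)) .nil)) .nil))) (.cons (.br (nat_lit 4) (nat_lit 0) (.cons (.br (nat_lit 8) (nat_lit 1) (.cons (.zr (nat_lit 316912650167737820313991249920) (nat_lit 618979464520615489779597569) (nat_lit 5) (nat_lit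 1)) .nil)) (.cons (.ev (nat_lit 1213666632842672057876481) (nat_lit 1)) .nil))) .nil)))),
 (.br (nat_lit 12) (nat_lit 1) (.cons (.ev (nat_lit 20283341690218070017491041518592) (nat_lit 3)) .nil)),
 (.br (nat_lit 2) (nat_lit 1) (.cons (.br (nat_lit 11) (nat_lit 0) (.cons (.ev (nat_lit 79537652246524504605240393728) (nat_lit 1)) .nil)) (.cons (.br (nat_lit 4) (nat_lit 0) (.cons (.ev (nat_lit 79537652246524504605240393728) (nat_lit 1)) .nil)) .nil))),
 (.br (nat_lit 9) (nat_lit 0) (.cons (.rf (nat_lit 85) (nat_lit 346284493588361480224)) (.cons (.rf (nat_lit 89) (nat_lit 493858305440582043680)) (.cons (.rf (nat_lit 95) (nat_lit 493858305440582043680)) (.cons (.br (nat_lit 5) (nat_lit 0) (.cons (.br (nat_lit 11) (nat_lit 0) (.cons (.rf (nat_lit 96) (nat_lit 493858305440582043680)) (.cons (.rf (nat_lit 97) (nat_lit 493858305440582043680)) (.cons (.br (nat_lit 10) (nat_lit 0) (.cons (.rf (nat_lit 96) (nat_lit 493823402543469922336)) (.cons (.rf (nat_lit 97) (nat_lit 493823402543469922336))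 .nil))) .nil)))) (.cons (.br (nat_lit 11) (nat_lit 0) (.cons (.rf (nat_lit 98) (nat_lit 493858305440582043680)) (.cons (.rf (nat_lit 99) (nat_lit 493858305440582043680)) (.cons (.br (nat_lit 10) (nat_lit 0) (.cons (.rf (nat_lit 98) (nat_lit 493823402543469922336)) (.cons (.rf (nat_lit 99) (nat_lit 493823402543469922336)) .nil))) .nil)))) (.cons (.br (nat_lit 7) (nat_lit 0) (.cons (.br (nat_lit 4) (nat_lit 0) (.cons (.br (nat_lit 12) (nat_lit 1) (.cons (.ev (nat_lit 79229376162522774165690318848) (nat_lit 1)) (.cons (.ev (nat_lit 79537652246524504605240393728) (nat_lit 1)) .nil))) (.cons (.ev (nat_lit 20282409608392483651994412646656) (nat_lit 1)) (.cons (.br (nat_lit 6) (nat_lit 1) (.cons (.ev (nat_lit 79229376162522774165690318848) (nat_lit 1)) (.cons (.ev (nat_lit 79537652246524504605240393728) (nat_lit 1)) .nil))) .nil)))) (.cons (.ev (nat_lit 282574505115649) (nat_lit 1)) (.cons (.br (nat_lit 4) (nat_lit 0) (.cons (.rf (nat_lit 95) (nat_lit 493858235140556326944)) (.cons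 (.br (nat_lit 2) (nat_lit 1) (.cons (.rf (nat_lit 100) (nat_lit 493858305440582043680)) (.cons (.rf (nat_lit 100) (nat_lit 493823402543469922336)) .nil))) (.cons (.rf (nat_lit 95) (nat_lit 482329020094487867393)) .nil)))) (.cons (.br (nat_lit 8) (nat_lit 1) (.cons (.ev (nat_lit 20282409608392483651994412646656) (nat_lit 1)) (.cons (.rf (nat_lit 101) (nat_lit 493858305440582043680)) (.cons (.rf (nat_lit 101) (nat_lit 493823402543469922336)) .nil)))) .nil))))) (.cons (.rf (nat_lit 85) (nat_lit 334755067642216886273)) .nil))))) .nil))))),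
 (.br (nat_lit 10) (nat_lit 0) (.cons (.br (nat_lit 4) (nat_lit 0) (.cons (.ev (nat_lit 21079351642772875165313907952132) (nat_lit 4)) .nil)) .nil)),
 (.br (nat_lit 11) (nat_lit 0) (.cons (.rf (nat_lit 103) (nat_lit 493858305440582043680)) (.cons (.br (nat_lit 8) (nat_lit 1) (.cons (.rf (nat_lit 103) (nat_lit 346284491391485708320)) (.cons (.br (nat_lit 6) (nat_lit 1) (.cons (.ev (nat_lit 20443040791174209256565116111372) (nat_lit 4)) .nil)) .nil))) .nil))),
 (.br (nat_lit 11) (nat_lit 0) (.cons (.ev (nat_lit 20361948464823942485583333490688) (nat_lit 1)) .nil)),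
 (.br (nat_lit 4) (nat_lit 0) (.cons (.rf (nat_lit 102) (nat_lit 272497517362209228832)) (.cons (.br (nat_lit 5) (nat_lit 0) (.cons (.ev (nat_lit 79228162514264620172344098816) (nat_lit 1)) (.cons (.br (nat_lit 8) (nat_lit 1) (.cons (.ev (nat_lit 1213666704900266079027456) (nat_lit 1)) (.cons (.ev (nat_lit 309489750706630705629102336) (nat_lit 1)) .nil))) .nil))) (.cons (.br (nat_lit 8) (nat_lit 1) (.cons (.br (nat_lit 6) (nat_lit 1) (.cons (.rf (nat_lit 105) (nat_lit 493858305440582043680)) (.cons (.rf (nat_lit 105) (nat_lit 493823402543469922336)) .nil))) (.cons (.ev (nat_lit 20282410812596008840248468439296) (nat_lit 1)) (.cons (.ev (nat_lit 20282719088680010570688018514176) (nat_lit 1)) .nil)))) .nil)))),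
 (.br (nat_lit 10) (nat_lit 1) (.cons (.rf (nat_lit 76) (nat_lit 493858305440582043680)) (.cons (.br (nat_lit 9) (nat_lit 1) (.cons (.br (nat_lit 13) (nat_lit 1) (.cons (.br (nat_lit 13) (nat_lit 0) (.cons (.rf (nat_lit 85) (nat_lit 493858305440582043680)) (.cons (.rf (nat_lit 102) (nat_lit 493858305440582043680)) (.cons (.rf (nat_lit 102) (nat_lit 493858303243706271776)) (.cons (.br (nat_lit 9) (nat_lit 0) (.cons (.rf (nat_lit 85) (nat_lit 346284493588361480224)) (.cons (.rf (nat_lit 102) (nat_lit 346284493588361480224)) (.cons (.rf (nat_lit 102) (nat_lit 346284491391485708320)) (.cons (.br (nat_lit 7) (nat_lit 0) (.cons (.br (nat_lit 5) (nat_lit 0) (.cons (.rf (nat_lit 104) (nat_lit 493858305440582043680)) (.cons (.rf (nat_lit 104) (nat_lit 493858303243706271776)) .nil))) (.cons (.rf (nat_lit 106) (nat_lit 493858305440582043680)) (.cons (.rf (nat_lit 106) (nat_lit 493858303243706271776)) .nil)))) .nil))))) .nil))))) .nil)) (.cons (.rf (nat_lit 75) (nat_lit 15069088351094816))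 .nil))) .nil))),
 (.br (nat_lit 2) (nat_lit 0) (.cons (.kr (nat_lit 1) (nat_lit 256) (nat_lit 0) (nat_lit 2)) (.cons (.br (nat_lit 12) (nat_lit 0) (.cons (.br (nat_lit 5) (nat_lit 1) (.cons (.rf (nat_lit 74) (nat_lit 300163)) (.cons (.rf (nat_lit 73) (nat_lit 360886914091040)) (.cons (.rf (nat_lit 73) (nat_lit 396071286179872)) (.cons (.br (nat_lit 10) (nat_lit 1) (.cons (.rf (nat_lit 107) (nat_lit 493858305440582043680)) (.cons (.br (nat_lit 10) (nat_lit 1) (.cons (.rf (nat_lit 76) (nat_lit 493858305440582043680)) (.cons (.rf (nat_lit 76) (nat_lit 346284493588361480224)) .nil))) (.cons (.rf (nat_lit 107) (nat_lit 346284493588361480224)) .nil)))) .nil))))) .nil)) .nil))),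
 (.br (nat_lit 12) (nat_lit 1) (.cons (.br (nat_lit 8) (nat_lit 1) (.cons (.ev (nat_lit 21235946278708315127776996622858) (nat_lit 4)) .nil)) (.cons (.br (nat_lit 8) (nat_lit 1) (.cons (.ev (nat_lit 21235946278708315127776996624898) (nat_lit 4)) .nil)) .nil))),
 (.br (nat_lit 11) (nat_lit 0) (.cons (.rf (nat_lit 109) (nat_lit 493823402543469922336)) (.cons (.br (nat_lit 13) (nat_lit 0) (.cons (.ev (nat_lit 79538861190790864403324469248) (nat_lit 1)) .nil)) .nil))),
 (.br (nat_lit 7) (nat_lit 0) (.cons (.ev (nat_lit 4722438540467994951681) (nat_lit 1)) (.cons (.br (nat_lit 13) (nat_lit 0) (.cons (.br (nat_lit 11) (nat_lit 0) (.cons (.br (nat_lit 12) (nat_lit 1) (.cons (.ev (nat_lit 79538861190790864403324469248) (nat_lit 1)) .nil)) .nil)) (.cons (.br (nat_lit 11) (nat_lit 0) (.cons (.br (nat_lit 10) (nat_lit 0) (.cons (.ev (nat_lit 21236562830876318588656096775694) (nat_lit 4)) .nil)) (.cons (.br (nat_lit 6) (nat_lit 1) (.cons (.ev (nat_lit 21235946278708315127776996625934)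 (nat_lit 4)) .nil)) .nil))) .nil))) (.cons (.br (nat_lit 10) (nat_lit 0) (.cons (.rf (nat_lit 109) (nat_lit 493858305440582043680)) (.cons (.rf (nat_lit 110) (nat_lit 493858305440582043680)) (.cons (.rf (nat_lit 110) (nat_lit 489246553520175450113)) .nil)))) .nil)))),
 (.br (nat_lit 5) (nat_lit 0) (.cons (.br (nat_lit 9) (nat_lit 0) (.cons (.br (nat_lit 7) (nat_lit 0) (.cons (.ev (nat_lit 4722438540467994951681) (nat_lit 1)) (.cons (.ev (nat_lit 4722438540467994951936) (nat_lit 1)) .nil))) (.cons (.rf (nat_lit 111) (nat_lit 493858305440582043680)) (.cons (.rf (nat_lit 111) (nat_lit 489246623820201166849)) .nil)))) (.cons (.rf (nat_lit 108) (nat_lit 407829102913036320)) (.cons (.rf (nat_lit 108) (nat_lit 407829102913040385)) .nil)))),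
 (.br (nat_lit 10) (nat_lit 1) (.cons (.br (nat_lit 13) (nat_lit 1) (.cons (.rf (nat_lit 75) (nat_lit 15069015336656928)) (.cons (.br (nat_lit 11) (nat_lit 1) (.cons (.br (nat_lit 4) (nat_lit 0) (.cons (.rf (nat_lit 112) (nat_lit 493858305440582043680)) (.cons (.br (nat_lit 5) (nat_lit 0) (.cons (.rf (nat_lit 112) (nat_lit 346284493588361480224)) (.cons (.rf (nat_lit 112) (nat_lit 272497517357914265632)) (.cons (.rf (nat_lit 108) (nat_lit 407829102913036320)) (.cons (.rf (nat_lit 108) (nat_lit 407829102913040385)) .nil))))) (.cons (.rf (nat_lit 108) (nat_lit 407828965507604512)) (.cons (.rf (nat_lit 108) (nat_lit 407828965507608577)) .nil))))) .nil)) .nil))) (.cons (.rf (nat_lit 76) (nat_lit 346284491385043263520)) .nil))),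
 (.br (nat_lit 8) (nat_lit 0) (.cons (.rf (nat_lit 108) (nat_lit 407901468851537952)) (.cons (.rf (nat_lit 27) (nat_lit 6555680)) (.cons (.br (nat_lit 2) (nat_lit 0) (.cons (.br (nat_lit 1) (nat_lit 0) (.cons (.br (nat_lit 5) (nat_lit 1) (.cons (.rf (nat_lit 74) (nat_lit 300163)) (.cons (.rf (nat_lit 73) (nat_lit 360886914091040)) (.cons (.rf (nat_lit 73) (nat_lit 396071286179872)) (.cons (.br (nat_lit 13) (nat_lit 1) (.cons (.rf (nat_lit 75) (nat_lit 15069015336656928)) (.cons (.rf (nat_lit 113) (nat_lit 493858305440582043680)) (.cons (.rf (nat_lit 113) (nat_lit 493823402543469922336)) .nil)))) .nil))))) .nil)) (.cons (.rf (nat_lit 68) (nat_lit 411240480)) .nil))) .nil)))),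
 (.br (nat_lit 4) (nat_lit 1) (.cons (.rf (nat_lit 74) (nat_lit 233573)) (.cons (.br (nat_lit 7) (nat_lit 1) (.cons (.rf (nat_lit 74) (nat_lit 234596)) (.cons (.rf (nat_lit 73) (nat_lit 325702574508064)) (.cons (.br (nat_lit 7) (nat_lit 1) (.cons (.rf (nat_lit 74) (nat_lit 234596)) (.cons (.rf (nat_lit 73) (nat_lit 325702574508064)) (.cons (.br (nat_lit 6) (nat_lit 0) (.cons (.rf (nat_lit 114) (nat_lit 407901468851537952)) (.cons (.rf (nat_lit 27) (nat_lit 8587296)) (.cons (.rf (nat_lit 27) (nat_lit 2365472)) (.cons (.br (nat_lit 8) (nat_lit 0) (.cons (.rf (nat_lit 114) (nat_lit 407899271975766048)) (.cons (.rf (nat_lit 27) (nat_lit 6555680)) (.cons (.rf (nat_lit 70) (nat_lit 411240480)) .nil)))) .nil))))) .nil)))) .nil)))) .nil))),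
 (.br (nat_lit 5) (nat_lit 0) (.cons (.ev (nat_lit 1213648402273583814017026) (nat_lit 2)) (.cons (.ev (nat_lit 1213648402273583814017281) (nat_lit 2)) .nil))),
 (.br (nat_lit 6) (nat_lit 1) (.cons (.br (nat_lit 7) (nat_lit 1) .nil) .nil)),
 (.br (nat_lit 7) (nat_lit 0) (.cons (.br (nat_lit 11) (nat_lit 1) (.cons (.rf (nat_lit 117) (nat_lit 13230118019)) .nil)) (.cons (.br (nat_lit 11) (nat_lit 1) (.cons (.rf (nat_lit 117) (nat_lit 13230118019)) .nil)) .nil)))]

theorem c3 : chkAll C T R L3 (nat_lit 90) = true := by decide +kernel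

theorem l3 : (nat_lit 90) + L3.length = (nat_lit 119) := by decide +kernel

/-- part of the certificates -/
def L4 : List Prf := [(.br (nat_lit 8) (nat_lit 1) (.cons (.rf (nat_lit 118) (nat_lit 407901468851537952)) (.cons (.rf (nat_lit 118) (nat_lit 407901400199170080)) (.cons (.rf (nat_lit 117) (nat_lit 13230118019)) .nil)))),
 (.br (nat_lit 9) (nat_lit 0) (.cons (.br (nat_lit 7) (nat_lit 0) (.cons (.rf (nat_lit 116) (nat_lit 407901468851537952)) (.cons (.rf (nat_lit 116) (nat_lit 299818376329529345)) .nil))) (.cons (.rf (nat_lit 119) (nat_lit 407901468851537952)) (.cons (.rf (nat_lit 119) (nat_lit 299818376329529345)) .nil)))),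
 (.br (nat_lit 6) (nat_lit 1) (.cons (.rf (nat_lit 120) (nat_lit 402201703785564192)) (.cons (.rf (nat_lit 120) (nat_lit 404383134855071776)) (.cons (.rf (nat_lit 120) (nat_lit 406810753316784160)) (.cons (.rf (nat_lit 120) (nat_lit 407901468851537952)) (.cons (.rf (nat_lit 117) (nat_lit 13230118019)) .nil)))))),
 (.br (nat_lit 11) (nat_lit 1) (.cons (.ev (nat_lit 1208925891673327019294721) (nat_lit 1)) (.cons (.rf (nat_lit 117) (nat_lit 13230118019)) .nil))),
 (.br (nat_lit 11) (nat_lit 1) (.cons (.rf (nat_lit 122) (nat_lit 407901400199170080)) (.cons (.rf (nat_lit 122) (nat_lit 407901468851537952)) (.cons (.rf (nat_lit 117) (nat_lit 13230118019)) .nil)))),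
 (.br (nat_lit 10) (nat_lit 0) (.cons (.rf (nat_lit 121) (nat_lit 404383096006383648)) (.cons (.rf (nat_lit 123) (nat_lit 407901468851537952)) (.cons (.rf (nat_lit 123) (nat_lit 299818376329529345)) .nil)))),
 (.br (nat_lit 2) (nat_lit 1) (.cons (.rf (nat_lit 121) (nat_lit 407901468819032096)) (.cons (.rf (nat_lit 121) (nat_lit 407901400101652512)) (.cons (.rf (nat_lit 124) (nat_lit 407901468851537952)) (.cons (.rf (nat_lit 124) (nat_lit 406810753316784160)) (.cons (.rf (nat_lit 117) (nat_lit 13230118019)) .nil)))))),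
 (.br (nat_lit 6) (nat_lit 1) (.cons (.ev (nat_lit 1208925891673327019294976) (nat_lit 1)) (.cons (.rf (nat_lit 117) (nat_lit 13230118019)) .nil))),
 (.br (nat_lit 7) (nat_lit 0) (.cons (.rf (nat_lit 121) (nat_lit 407901400101652512)) (.cons (.rf (nat_lit 125) (nat_lit 407901400101652512)) (.cons (.br (nat_lit 2) (nat_lit 1) (.cons (.rf (nat_lit 126) (nat_lit 407901468851537952)) (.cons (.rf (nat_lit 126) (nat_lit 406810753316784160)) (.cons (.rf (nat_lit 117) (nat_lit 13230118019)) .nil)))) .nil)))),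
 (.br (nat_lit 5) (nat_lit 0) (.cons (.rf (nat_lit 121) (nat_lit 407901468819032096)) (.cons (.rf (nat_lit 125) (nat_lit 407901468819032096)) (.cons (.rf (nat_lit 127) (nat_lit 407901468851537952)) (.cons (.br (nat_lit 7) (nat_lit 0) (.cons (.rf (nat_lit 121) (nat_lit 407901400101652512)) (.cons (.rf (nat_lit 125) (nat_lit 407901400101652512)) (.cons (.rf (nat_lit 127) (nat_lit 407901400199170080)) (.cons (.rf (nat_lit 127) (nat_lit 299818273318471681)) .nil))))) .nil))))),
 (.br (nat_lit 1) (nat_lit 1) (.cons (.br (nat_lit 6) (nat_lit 1) (.cons (.br (nat_lit 7) (nat_lit 1) .nil) .nil)) (.cons (.br (nat_lit 7) (nat_lit 1) (.cons (.br (nat_lit 6) (nat_lit 1) .nil) .nil)) .nil))),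
 (.br (nat_lit 8) (nat_lit 0) (.cons (.rf (nat_lit 115) (nat_lit 5638526863392)) (.cons (.rf (nat_lit 115) (nat_lit 5637453122592)) (.cons (.rf (nat_lit 115) (nat_lit 3438429869088)) (.cons (.rf (nat_lit 115) (nat_lit 3438429871105)) .nil))))),
 (.br (nat_lit 10) (nat_lit 1) (.cons (.br (nat_lit 13) (nat_lit 1) (.cons (.rf (nat_lit 130) (nat_lit 468783069333536)) .nil)) .nil)),
 (.br (nat_lit 4) (nat_lit 1) (.cons (.rf (nat_lit 129) (nat_lit 13125324100)) (.cons (.rf (nat_lit 129) (nat_lit 10912828804)) (.cons (.br (nat_lit 10) (nat_lit 1) (.cons (.rf (nat_lit 131) (nat_lit 493858305440582043680)) (.cons (.rf (nat_lit 131) (nat_lit 454662351914919888928)) .nil))) .nil)))),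
 (.br (nat_lit 7) (nat_lit 0) (.cons (.br (nat_lit 11) (nat_lit 1) (.cons (.kr (nat_lit 4740813228042866393344) (nat_lit 1208925891672223229476864) (nat_lit 1) (nat_lit 0)) .nil)) .nil)),
 (.br (nat_lit 5) (nat_lit 0) (.cons (.kr (nat_lit 1208944266359802395885824) (nat_lit 309485009893402662779551744) (nat_lit 1) (nat_lit 0)) .nil)),
 (.br (nat_lit 7) (nat_lit 0) (.cons (.kr (nat_lit 1208944266359802395885824) (nat_lit 309485009893402662779551744) (nat_lit 1) (nat_lit 0)) .nil)),
 (.br (nat_lit 4) (nat_lit 1) (.cons (.rf (nat_lit 135) (nat_lit 407901468851537952)) (.cons (.rf (nat_lit 135) (nat_lit 119670914324733094)) .nil))),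
 (.br (nat_lit 12) (nat_lit 0) (.cons (.br (nat_lit 4) (nat_lit 0) (.cons (.ev (nat_lit 79229371440084234801501962241) (nat_lit 1)) (.cons (.ev (nat_lit 79229371440084234801501962496) (nat_lit 1)) .nil))) (.cons (.br (nat_lit 4) (nat_lit 0) (.cons (.rf (nat_lit 133) (nat_lit 15070224439218274)) (.cons (.br (nat_lit 9) (nat_lit 0) (.cons (.rf (nat_lit 134) (nat_lit 482283501406818402)) (.cons (.ev (nat_lit 20361947251194202850683246411776) (nat_lit 1)) .nil))) .nil))) (.cons (.br (nat_lit 8) (nat_lit 1) (.cons (.br (nat_lit 9) (nat_lit 0) (.cons (.br (nat_lit 11) (nat_lit 1) (.cons (.zr (nat_lit 928478696638944613425484032) (nat_lit 1109199110903627703172656267280) (nat_lit 10) (nat_lit 6)) .nil)) (.cons (.ev (nat_lit 20361947251194202850683246412033) (nat_lit 1)) .nil))) (.cons (.rf (nat_lit 136) (nat_lit 482283501406818402)) (.cons (.br (nat_lit 4) (nat_lit 0) (.cons (.br (nat_lit 11) (nat_lit 1) (.cons (.zr (nat_lit 2475880226145568581012685312) (nat_lit 713058298332306015204936187910)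 (nat_lit 10) (nat_lit 8)) .nil)) (.cons (.ev (nat_lit 20361947251194202850683246412033) (nat_lit 1)) .nil))) .nil)))) .nil)))),
 (.br (nat_lit 13) (nat_lit 0) (.cons (.kr (nat_lit 20282409603651670423947251351552) (nat_lit 281474993487872) (nat_lit 2) (nat_lit 0)) (.cons (.rf (nat_lit 137) (nat_lit 493858305440582043680)) (.cons (.rf (nat_lit 137) (nat_lit 493750222348060035073)) .nil)))),
 (.br (nat_lit 12) (nat_lit 0) (.cons (.rf (nat_lit 133) (nat_lit 15070222293831778)) (.cons (.br (nat_lit 11) (nat_lit 1) (.cons (.ev (nat_lit 309485028340147840278921473) (nat_lit 1)) (.cons (.rf (nat_lit 136) (nat_lit 447198019935381666)) .nil))) .nil))),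
 (.br (nat_lit 11) (nat_lit 1) (.cons (.br (nat_lit 12) (nat_lit 0) (.cons (.rf (nat_lit 134) (nat_lit 447268383313995938)) (.cons (.ev (nat_lit 309485028340147840278921216) (nat_lit 1)) .nil))) (.cons (.br (nat_lit 7) (nat_lit 0) (.cons (.br (nat_lit 8) (nat_lit 1) (.cons (.zr (nat_lit 929664010695939650532410368) (nat_lit 316912650057057913324129353731) (nat_lit 10) (nat_lit 11)) .nil)) (.cons (.br (nat_lit 12) (nat_lit 0) (.cons (.zr (nat_lit 237688114320468029450270016001) (nat_lit 309485028269783489886289920) (nat_lit 5) (nat_lit 8)) .nil)) .nil))) (.cons (.br (nat_lit 7) (nat_lit 0) (.cons (.rf (nat_lit 136) (nat_lit 482283499261431906)) (.cons (.ev (nat_lit 309485028340147840278921473) (nat_lit 1)) .nil))) .nil)))),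
 (.br (nat_lit 4) (nat_lit 0) (.cons (.rf (nat_lit 138) (nat_lit 458110913098243278880)) (.cons (.br (nat_lit 13) (nat_lit 0) (.cons (.rf (nat_lit 139) (nat_lit 493858305440582043680)) (.cons (.br (nat_lit 12) (nat_lit 0) (.cons (.rf (nat_lit 139) (nat_lit 458110913098243278880)) (.cons (.rf (nat_lit 133) (nat_lit 15070227662540898)) .nil))) .nil))) (.cons (.br (nat_lit 13) (nat_lit 0) (.cons (.rf (nat_lit 140) (nat_lit 493858305440582043680)) (.cons (.br (nat_lit 12) (nat_lit 0) (.cons (.rf (nat_lit 140) (nat_lit 458002830005721270273)) (.cons (.br (nat_lit 7) (nat_lit 0) (.cons (.zr (nat_lit 2166395197948684889680248839) (nat_lit 101728961877241229084748197267456) (nat_lit 15) (nat_lit 8)) .nil)) .nil))) (.cons (.br (nat_lit 12) (nat_lit 0) (.cons (.rf (nat_lit 140) (nat_lit 458002830005721270273)) (.cons (.br (nat_lit 9) (nat_lit 0) (.cons (.zr (nat_lit 2166399920243111264782386688) (nat_lit 81525781645029642613019369668615) (nat_lit 15) (nat_lit 11)) .nil)) .nil))) .nil))))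 .nil)))),
 (.br (nat_lit 10) (nat_lit 0) (.cons (.rf (nat_lit 138) (nat_lit 493858305440582043680)) (.cons (.rf (nat_lit 141) (nat_lit 493858305440582043680)) (.cons (.rf (nat_lit 141) (nat_lit 493750222348060035073)) .nil)))),
 (.br (nat_lit 12) (nat_lit 0) (.cons (.br (nat_lit 13) (nat_lit 0) (.cons (.br (nat_lit 11) (nat_lit 1) (.cons (.ev (nat_lit 310693954087986346114154496) (nat_lit 1)) .nil)) .nil)) (.cons (.br (nat_lit 13) (nat_lit 0) (.cons (.br (nat_lit 7) (nat_lit 0) (.cons (.ev (nat_lit 309485028268090246257770496) (nat_lit 1)) .nil)) (.cons (.br (nat_lit 7) (nat_lit 0) (.cons (.ev (nat_lit 310693954087986346114154496) (nat_lit 1)) .nil)) .nil))) .nil))),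
 (.br (nat_lit 7) (nat_lit 0) (.cons (.br (nat_lit 12) (nat_lit 0) (.cons (.ev (nat_lit 310693954087986346114154496) (nat_lit 1)) .nil)) (.cons (.br (nat_lit 6) (nat_lit 1) (.cons (.ev (nat_lit 310693954087986346114154496) (nat_lit 1)) .nil)) .nil))),
 (.br (nat_lit 13) (nat_lit 0) (.cons (.rf (nat_lit 143) (nat_lit 156044423463236339744)) (.cons (.rf (nat_lit 144) (nat_lit 493858305440582043680)) .nil))),
 (.br (nat_lit 4) (nat_lit 0) (.cons (.rf (nat_lit 143) (nat_lit 493858305440582043680)) (.cons (.rf (nat_lit 145) (nat_lit 493858305440582043680)) (.cons (.br (nat_lit 13) (nat_lit 0) (.cons (.rf (nat_lit 143) (nat_lit 156044423463236339744)) (.cons (.rf (nat_lit 144) (nat_lit 156044423463236339744)) (.cons (.br (nat_lit 8) (nat_lit 1) (.cons (.rf (nat_lit 144) (nat_lit 493858305337505974304)) (.cons (.rf (nat_lit 144) (nat_lit 156044423497595029536)) .nil))) .nil)))) .nil)))),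
 (.br (nat_lit 9) (nat_lit 0) (.cons (.br (nat_lit 7) (nat_lit 0) (.cons (.ev (nat_lit 1213648258437667346186241) (nat_lit 1)) (.cons (.ev (nat_lit 1213648258437667346186496) (nat_lit 1)) .nil))) (.cons (.rf (nat_lit 146) (nat_lit 493858305440582043680)) (.cons (.rf (nat_lit 146) (nat_lit 493750222348060035073)) .nil)))),
 (.br (nat_lit 7) (nat_lit 0) (.cons (.br (nat_lit 11) (nat_lit 1) (.cons (.ev (nat_lit 20283028578430717205800317878529) (nat_lit 3)) .nil)) .nil)),
 (.br (nat_lit 9) (nat_lit 0) (.cons (.rf (nat_lit 148) (nat_lit 493858305440582043680)) (.cons (.br (nat_lit 11) (nat_lit 1) (.cons (.br (nat_lit 13) (nat_lit 0) (.cons (.ev (nat_lit 79850768793064948256882032899) (nat_lit 2)) .nil)) (.cons (.br (nat_lit 7) (nat_lit 0) (.cons (.ev (nat_lit 310693954160042844918644736) (nat_lit 1)) .nil)) .nil))) .nil))),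
 (.br (nat_lit 13) (nat_lit 0) (.cons (.br (nat_lit 7) (nat_lit 0) (.cons (.br (nat_lit 11) (nat_lit 1) (.cons (.zr (nat_lit 20282409631985869322268929360643) (nat_lit 618970056898436579895279616) (nat_lit 10) (nat_lit 2)) .nil)) .nil)) (.cons (.br (nat_lit 7) (nat_lit 0) (.cons (.ev (nat_lit 20282409603651742482640817684736) (nat_lit 1)) (.cons (.rf (nat_lit 32) (nat_lit 298798216067282086913)) .nil))) .nil))),
 (.br (nat_lit 7) (nat_lit 0) (.cons (.kr (nat_lit 1208944266359802395885824) (nat_lit 309485009893402662779551744) (nat_lit 1) (nat_lit 0)) .nil)),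
 (.br (nat_lit 13) (nat_lit 0) (.cons (.br (nat_lit 8) (nat_lit 1) (.cons (.rf (nat_lit 148) (nat_lit 448893029647475185696)) (.cons (.br (nat_lit 11) (nat_lit 1) (.cons (.ev (nat_lit 79850768793065511198279074304) (nat_lit 3)) .nil)) .nil))) (.cons (.ev (nat_lit 20282409603651742482640817684481) (nat_lit 1)) (.cons (.ev (nat_lit 20282409603651742482640817684736) (nat_lit 1)) .nil)))),
 (.br (nat_lit 7) (nat_lit 0) (.cons (.rf (nat_lit 133) (nat_lit 5743028774175817)) (.cons (.rf (nat_lit 134) (nat_lit 183529660945335369)) .nil))),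
 (.br (nat_lit 11) (nat_lit 1) (.cons (.br (nat_lit 8) (nat_lit 1) (.cons (.br (nat_lit 13) (nat_lit 0) (.cons (.zr (nat_lit 929664010695939650532410368) (nat_lit 316912650057057913324129353731) (nat_lit 10) (nat_lit 11)) .nil)) (.cons (.ev (nat_lit 310693954160042844918644993) (nat_lit 1)) .nil))) (.cons (.rf (nat_lit 153) (nat_lit 482283501406818402)) (.cons (.br (nat_lit 9) (nat_lit 0) (.cons (.br (nat_lit 12) (nat_lit 0) (.cons (.zr (nat_lit 2166418809709043842824536320) (nat_lit 475376228640576615355296972802) (nat_lit 15) (nat_lit 11)) .nil)) (.cons (.ev (nat_lit 310693954160042844918644993) (nat_lit 1)) .nil))) .nil)))),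
 (.br (nat_lit 4) (nat_lit 0) (.cons (.rf (nat_lit 142) (nat_lit 343980902378961471520)) (.cons (.rf (nat_lit 147) (nat_lit 379713376818030581792)) (.cons (.br (nat_lit 12) (nat_lit 0) (.cons (.rf (nat_lit 149) (nat_lit 493858305440582043680)) (.cons (.rf (nat_lit 150) (nat_lit 493858305440582043680)) (.cons (.br (nat_lit 6) (nat_lit 1) (.cons (.br (nat_lit 13) (nat_lit 0) (.cons (.rf (nat_lit 150) (nat_lit 458110913093948315680)) (.cons (.rf (nat_lit 151) (nat_lit 482283501406818402)) .nil))) (.cons (.ev (nat_lit 79228167236631103037694279936) (nat_lit 1)) (.cons (.rf (nat_lit 149) (nat_lit 458110913093948315680)) .nil)))) .nil)))) (.cons (.br (nat_lit 7) (nat_lit 0) (.cons (.rf (nat_lit 152) (nat_lit 493858305440582043680)) (.cons (.rf (nat_lit 154) (nat_lit 493858305440582043680)) (.cons (.br (nat_lit 9) (nat_lit 0) (.cons (.rf (nat_lit 154) (nat_lit 458002830001426307073)) (.cons (.rf (nat_lit 152) (nat_lit 458002830001426307073)) (.cons (.br (nat_lit 13) (nat_lit 0) (.cons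 (.br (nat_lit 12) (nat_lit 0) (.cons (.zr (nat_lit 79229395051916366570961698823) (nat_lit 618970056826378985857351936) (nat_lit 10) (nat_lit 2)) .nil)) (.cons (.br (nat_lit 12) (nat_lit 0) (.cons (.ev (nat_lit 79850768793064948256882032640) (nat_lit 2)) .nil)) .nil))) .nil)))) (.cons (.br (nat_lit 9) (nat_lit 0) (.cons (.rf (nat_lit 154) (nat_lit 458002830001426307073)) (.cons (.rf (nat_lit 152) (nat_lit 458002830001426307073)) (.cons (.br (nat_lit 12) (nat_lit 0) (.cons (.br (nat_lit 6) (nat_lit 1) (.cons (.ev (nat_lit 79850768793064948256882032899) (nat_lit 2)) .nil)) (.cons (.rf (nat_lit 151) (nat_lit 335813294720947298)) .nil))) .nil)))) .nil))))) .nil))))),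
 (.br (nat_lit 10) (nat_lit 0) (.cons (.rf (nat_lit 147) (nat_lit 493858305440582043680)) (.cons (.rf (nat_lit 142) (nat_lit 263277487836640745504)) (.cons (.rf (nat_lit 155) (nat_lit 493858305440582043680)) (.cons (.rf (nat_lit 155) (nat_lit 493750222348060035073)) .nil))))),
 (.br (nat_lit 12) (nat_lit 0) (.cons (.ev (nat_lit 20679789598318522091446351298560) (nat_lit 3)) .nil)),
 (.br (nat_lit 12) (nat_lit 0) (.cons (.rf (nat_lit 156) (nat_lit 126069625187447638048)) (.cons (.br (nat_lit 10) (nat_lit 0) (.cons (.br (nat_lit 13) (nat_lit 0) (.cons (.zr (nat_lit 23611833545767165888000) (nat_lit 158774272537678181921854980099) (nat_lit 5) (nat_lit 8)) .nil)) .nil)) .nil)))]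

theorem c4 : chkAll C T R L4 (nat_lit 119) = true := by decide +kernel

theorem l4 : (nat_lit 119) + L4.length = (nat_lit 159) := by decide +kernel

/-- part of the certificates -/
def L5 : List Prf := [(.br (nat_lit 6) (nat_lit 1) (.cons (.rf (nat_lit 156) (nat_lit 343980902378961471520)) (.cons (.rf (nat_lit 156) (nat_lit 493858305440582043680)) (.cons (.rf (nat_lit 142) (nat_lit 159513180025331619872)) (.cons (.rf (nat_lit 142) (nat_lit 126069625183152674848)) (.cons (.rf (nat_lit 156) (nat_lit 335904505859931441184)) .nil)))))),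
 (.br (nat_lit 2) (nat_lit 1) (.cons (.rf (nat_lit 159) (nat_lit 493858305440582043680)) (.cons (.rf (nat_lit 156) (nat_lit 483478493565125265440)) (.cons (.rf (nat_lit 158) (nat_lit 343980902378961471520)) .nil)))),
 (.br (nat_lit 7) (nat_lit 0) (.cons (.br (nat_lit 9) (nat_lit 0) (.cons (.ev (nat_lit 4722438540467994951681) (nat_lit 1)) (.cons (.br (nat_lit 13) (nat_lit 0) (.cons (.ev (nat_lit 20282409603651742482640817684481) (nat_lit 1)) (.cons (.br (nat_lit 10) (nat_lit 0) (.cons (.br (nat_lit 12) (nat_lit 0) (.cons (.ev (nat_lit 20283652412525020098286248263680) (nat_lit 3)) .nil)) .nil)) .nil))) .nil))) (.cons (.br (nat_lit 13) (nat_lit 0) (.cons (.rf (nat_lit 156) (nat_lit 448893029651770148896)) (.cons (.rf (nat_lit 142) (nat_lit 198710224197908666400)) (.cons (.br (nat_lit 9) (nat_lit 0) (.cons (.rf (nat_lit 156) (nat_lit 373957635486314170400)) (.cons (.rf (nat_lit 142) (nat_lit 159513180025331619872)) (.cons (.br (nat_lit 2) (nat_lit 1) (.cons (.rf (nat_lit 157)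 (nat_lit 493858305440582043680)) (.cons (.rf (nat_lit 157) (nat_lit 343980902378961471520)) .nil))) .nil)))) .nil)))) (.cons (.br (nat_lit 9) (nat_lit 0) (.cons (.rf (nat_lit 158) (nat_lit 493858305440582043680)) (.cons (.rf (nat_lit 160) (nat_lit 493858305440582043680)) (.cons (.br (nat_lit 13) (nat_lit 0) (.cons (.rf (nat_lit 158) (nat_lit 343980902378961471520)) (.cons (.rf (nat_lit 160) (nat_lit 343980902378961471520)) .nil))) .nil)))) .nil)))),
 (.br (nat_lit 7) (nat_lit 0) (.cons (.rf (nat_lit 156) (nat_lit 448893029651770148896)) (.cons (.br (nat_lit 10) (nat_lit 0) (.cons (.rf (nat_lit 156) (nat_lit 121459135403244554272)) (.cons (.br (nat_lit 9) (nat_lit 0) (.cons (.rf (nat_lit 45) (nat_lit 310502055202279009281)) .nil)) .nil))) (.cons (.br (nat_lit 10) (nat_lit 0) (.cons (.rf (nat_lit 156) (nat_lit 121459135403244554272)) (.cons (.rf (nat_lit 133) (nat_lit 8036754919853224)) .nil))) .nil)))),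
 (.br (nat_lit 2) (nat_lit 1) (.cons (.ev (nat_lit 20282409603651742482640817684481) (nat_lit 1)) (.cons (.rf (nat_lit 162) (nat_lit 343872819286439462913)) (.cons (.rf (nat_lit 156) (nat_lit 335904505859931441184)) (.cons (.rf (nat_lit 159) (nat_lit 343980902378961471520)) .nil))))),
 (.br (nat_lit 12) (nat_lit 0) (.cons (.br (nat_lit 6) (nat_lit 1) (.cons (.ev (nat_lit 20440868370143671306811854684674) (nat_lit 3)) .nil)) .nil)),
 (.br (nat_lit 4) (nat_lit 0) (.cons (.rf (nat_lit 142) (nat_lit 343980902378961471520)) (.cons (.rf (nat_lit 156) (nat_lit 343980902378961471520)) (.cons (.rf (nat_lit 161) (nat_lit 493858305440582043680)) (.cons (.br (nat_lit 13) (nat_lit 0) (.cons (.rf (nat_lit 162) (nat_lit 493858305440582043680)) (.cons (.rf (nat_lit 163) (nat_lit 493858305440582043680)) (.cons (.br (nat_lit 10) (nat_lit 0) (.cons (.rf (nat_lit 161) (nat_lit 335904505859931441184)) (.cons (.rf (nat_lit 161) (nat_lit 335904505855636477984)) (.cons (.br (nat_lit 9) (nat_lit 0)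 (.cons (.ev (nat_lit 20282720297605758128822683762688) (nat_lit 1)) (.cons (.rf (nat_lit 163) (nat_lit 343872819286439462913)) .nil))) .nil)))) (.cons (.br (nat_lit 9) (nat_lit 0) (.cons (.rf (nat_lit 162) (nat_lit 343872819286439462913)) (.cons (.rf (nat_lit 163) (nat_lit 343872819286439462913)) (.cons (.br (nat_lit 10) (nat_lit 0) (.cons (.rf (nat_lit 164) (nat_lit 493858305440582043680)) (.cons (.br (nat_lit 6) (nat_lit 1) (.cons (.rf (nat_lit 164) (nat_lit 198602141105386657793)) (.cons (.br (nat_lit 2) (nat_lit 1) (.cons (.ev (nat_lit 20283652412525020098286248265218) (nat_lit 3)) .nil)) .nil))) .nil))) .nil)))) .nil))))) .nil))))),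
 (.br (nat_lit 10) (nat_lit 0) (.cons (.br (nat_lit 2) (nat_lit 0) (.cons (.kr (nat_lit 1213648186097498836697344) (nat_lit 18518802767259172864) (nat_lit 1) (nat_lit 0)) .nil)) .nil)),
 (.br (nat_lit 11) (nat_lit 0) (.cons (.kr (nat_lit 310693935640959697916264704) (nat_lit 18518802767259172864) (nat_lit 1) (nat_lit 0)) .nil)),
 (.br (nat_lit 9) (nat_lit 0) (.cons (.rf (nat_lit 166) (nat_lit 15070224439218274)) (.cons (.br (nat_lit 8) (nat_lit 1) (.cons (.rf (nat_lit 167) (nat_lit 482283501406818402)) (.cons (.br (nat_lit 11) (nat_lit 1) (.cons (.zr (nat_lit 14167099448621820543234) (nat_lit 311902880051715063836377088) (nat_lit 5) (nat_lit 11)) .nil)) .nil))) .nil))),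
 (.br (nat_lit 12) (nat_lit 0) (.cons (.rf (nat_lit 168) (nat_lit 493858305440582043680)) (.cons (.rf (nat_lit 168) (nat_lit 493750222348060035073)) .nil))),
 (.br (nat_lit 12) (nat_lit 0) (.cons (.rf (nat_lit 169) (nat_lit 488085816789998831648)) (.cons (.kr (nat_lit 79228162514264337593560727552) (nat_lit 1208925891672223212634112) (nat_lit 3) (nat_lit 0)) (.cons (.kr (nat_lit 79228162514264337593560727553) (nat_lit 1208925891672223212634368) (nat_lit 0) (nat_lit 2)) .nil)))),
 (.br (nat_lit 7) (nat_lit 0) (.cons (.rf (nat_lit 169) (nat_lit 493858305440582043680)) (.cons (.rf (nat_lit 170) (nat_lit 493858305440582043680)) (.cons (.rf (nat_lit 170) (nat_lit 493750222348060035073)) .nil)))),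
 (.br (nat_lit 9) (nat_lit 0) (.cons (.kr (nat_lit 4722366482873940180992) (nat_lit 20282409603651670425046762913792) (nat_lit 4) (nat_lit 0)) (.cons (.br (nat_lit 7) (nat_lit 0) (.cons (.br (nat_lit 11) (nat_lit 1) (.cons (.zr (nat_lit 14167099448621820542980) (nat_lit 311902880051715063836377344) (nat_lit 5) (nat_lit 8)) .nil)) (.cons (.br (nat_lit 6) (nat_lit 1) (.cons (.zr (nat_lit 14167099448621820542980) (nat_lit 158765810056797045804532564224) (nat_lit 5) (nat_lit 8)) .nil)) .nil))) .nil))),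
 (.br (nat_lit 13) (nat_lit 0) (.cons (.br (nat_lit 11) (nat_lit 1) (.cons (.zr (nat_lit 14167099448621820543234) (nat_lit 311902880051715063836377088) (nat_lit 5) (nat_lit 11)) .nil)) (.cons (.rf (nat_lit 166) (nat_lit 8352039677797544)) .nil))),
 (.br (nat_lit 12) (nat_lit 0) (.cons (.kr (nat_lit 79228162514264337593560727552) (nat_lit 1208925891672223212634112) (nat_lit 3) (nat_lit 0)) (.cons (.rf (nat_lit 173) (nat_lit 493858305440582043680)) (.cons (.rf (nat_lit 173) (nat_lit 346176410495839471617)) .nil)))),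
 (.br (nat_lit 12) (nat_lit 0) (.cons (.rf (nat_lit 174) (nat_lit 488085816789998831648)) (.cons (.kr (nat_lit 79228162514264337593560727553) (nat_lit 1208925891672223212634368) (nat_lit 0) (nat_lit 2)) .nil))),
 (.br (nat_lit 4) (nat_lit 0) (.cons (.rf (nat_lit 171) (nat_lit 346284493588361480224)) (.cons (.br (nat_lit 13) (nat_lit 0) (.cons (.rf (nat_lit 172) (nat_lit 493858305440582043680)) (.cons (.br (nat_lit 9) (nat_lit 0) (.cons (.rf (nat_lit 172) (nat_lit 346284493588361480224)) (.cons (.kr (nat_lit 4722366482873940180992) (nat_lit 20282409603651670425046762913792) (nat_lit 4) (nat_lit 0)) .nil))) .nil))) (.cons (.br (nat_lit 7) (nat_lit 0) (.cons (.rf (nat_lit 174) (nat_lit 493858305440582043680)) (.cons (.rf (nat_lit 175) (nat_lit 493858305440582043680)) (.cons (.rf (nat_lit 175) (nat_lit 346176410495839471617)) .nil)))) .nil)))),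
 (.br (nat_lit 5) (nat_lit 0) (.cons (.rf (nat_lit 171) (nat_lit 493858305440582043680)) (.cons (.rf (nat_lit 176) (nat_lit 493858305440582043680)) (.cons (.rf (nat_lit 176) (nat_lit 493750222348060035073)) .nil)))),
 (.br (nat_lit 2) (nat_lit 0) (.cons (.br (nat_lit 5) (nat_lit 0) (.cons (.kr (nat_lit 4722438540463683207424) (nat_lit 1208944266359802412662784) (nat_lit 1) (nat_lit 0)) .nil)) .nil)),
 (.br (nat_lit 12) (nat_lit 0) (.cons (.rf (nat_lit 178) (nat_lit 15070224439218274)) (.cons (.kr (nat_lit 79228162514264337593560727553) (nat_lit 20282409603651670425046762914048) (nat_lit 0) (nat_lit 2)) .nil))),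
 (.br (nat_lit 8) (nat_lit 1) (.cons (.br (nat_lit 11) (nat_lit 1) (.cons (.zr (nat_lit 60847228810955011275140288741889) (nat_lit 311902880051715063836377088) (nat_lit 5) (nat_lit 8)) .nil)) (.cons (.br (nat_lit 11) (nat_lit 1) (.cons (.zr (nat_lit 60847228810955011275140288741380) (nat_lit 311902880051715063836377344) (nat_lit 5) (nat_lit 8)) .nil)) .nil))),
 (.br (nat_lit 6) (nat_lit 1) (.cons (.rf (nat_lit 180) (nat_lit 493858305440582043680)) (.cons (.rf (nat_lit 180) (nat_lit 346176410495839471617)) (.cons (.kr (nat_lit 79228162514264337593544015872) (nat_lit 72339069014638592) (nat_lit 2) (nat_lit 0)) .nil)))),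
 (.br (nat_lit 5) (nat_lit 0) (.cons (.kr (nat_lit 79228162514264337593560727552) (nat_lit 20282409603651670425046762913792) (nat_lit 3) (nat_lit 0)) (.cons (.ev (nat_lit 20440869564902752330327898720005) (nat_lit 3)) .nil))),
 (.br (nat_lit 6) (nat_lit 1) (.cons (.kr (nat_lit 4722366482873940180993) (nat_lit 1208925891672223212634368) (nat_lit 0) (nat_lit 2)) (.cons (.kr (nat_lit 20282409603651670425046762913792) (nat_lit 1208925891672223212634112) (nat_lit 5) (nat_lit 0)) (.cons (.rf (nat_lit 181) (nat_lit 488085816785703868448)) .nil)))),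
 (.br (nat_lit 9) (nat_lit 0) (.cons (.rf (nat_lit 177) (nat_lit 383176855732895189024)) (.cons (.rf (nat_lit 177) (nat_lit 115700192662965753888)) (.cons (.br (nat_lit 5) (nat_lit 0) (.cons (.rf (nat_lit 179) (nat_lit 493858305440582043680)) (.cons (.rf (nat_lit 179) (nat_lit 488085816785703868448)) (.cons (.br (nat_lit 4) (nat_lit 0) (.cons (.rf (nat_lit 179) (nat_lit 346284493588361480224)) (.cons (.rf (nat_lit 179) (nat_lit 340512004933483304992)) (.cons (.kr (nat_lit 4722366482873940180992) (nat_lit 20282409603651670425046762913792) (nat_lit 4) (nat_lit 0)) .nil)))) .nil)))) (.cons (.br (nat_lit 7) (nat_lit 0) (.cons (.rf (nat_lit 181) (nat_lit 493858305440582043680)) (.cons (.br (nat_lit 12) (nat_lit 0) (.cons (.ev (nat_lit 40644055841743435741601867236870) (nat_lit 3)) (.cons (.rf (nat_lit 182) (nat_lit 493858305440582043680)) (.cons (.rf (nat_lit 182) (nat_lit 346176410495839471617)) .nil)))) (.cons (.rf (nat_lit 183) (nat_lit 493858305440582043680)) (.cons (.rf (nat_lit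 183) (nat_lit 346176410495839471617)) .nil))))) .nil))))),
 (.br (nat_lit 13) (nat_lit 0) (.cons (.rf (nat_lit 177) (nat_lit 383181218629392893984)) (.cons (.rf (nat_lit 177) (nat_lit 119162194070297974816)) (.cons (.rf (nat_lit 184) (nat_lit 493858305440582043680)) (.cons (.rf (nat_lit 184) (nat_lit 493750222348060035073)) .nil))))),
 (.br (nat_lit 9) (nat_lit 0) (.cons (.rf (nat_lit 177) (nat_lit 383176855732895189024)) (.cons (.rf (nat_lit 185) (nat_lit 383176855732895189024)) (.cons (.br (nat_lit 12) (nat_lit 0) (.cons (.br (nat_lit 6) (nat_lit 1) (.cons (.rf (nat_lit 185) (nat_lit 188327281020576860192)) (.cons (.rf (nat_lit 185) (nat_lit 262115277799542884384)) (.cons (.rf (nat_lit 185) (nat_lit 188330553201539811360)) .nil)))) (.cons (.br (nat_lit 6) (nat_lit 1) (.cons (.rf (nat_lit 177) (nat_lit 195253817037019027488)) (.cons (.rf (nat_lit 177) (nat_lit 273652373797066676256)) (.cons (.rf (nat_lit 177) (nat_lit 196406632988508657696)) .nil)))) (.cons (.br (nat_lit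 2) (nat_lit 1) (.cons (.kr (nat_lit 79228162514264337593560727552) (nat_lit 4722366482873940180992) (nat_lit 3) (nat_lit 0)) (.cons (.kr (nat_lit 79228162514264337593560727553) (nat_lit 20282409603651670425046762914048) (nat_lit 0) (nat_lit 2)) (.cons (.kr (nat_lit 79228162514264337593560727553) (nat_lit 1208925891672223212634368) (nat_lit 0) (nat_lit 2)) .nil)))) .nil)))) .nil)))),
 (.br (nat_lit 13) (nat_lit 0) (.cons (.rf (nat_lit 177) (nat_lit 383181218629392893984)) (.cons (.rf (nat_lit 185) (nat_lit 383181218629392893984)) (.cons (.rf (nat_lit 186) (nat_lit 493858305440582043680)) (.cons (.br (nat_lit 9) (nat_lit 0) (.cons (.rf (nat_lit 177) (nat_lit 383176855732895189024)) (.cons (.rf (nat_lit 185) (nat_lit 383176855732895189024)) (.cons (.rf (nat_lit 186) (nat_lit 383176855732895189024)) (.cons (.rf (nat_lit 186) (nat_lit 493749131529449211905)) .nil))))) .nil))))),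
 (.br (nat_lit 13) (nat_lit 1) (.cons (.br (nat_lit 10) (nat_lit 1) (.cons (.rf (nat_lit 30) (nat_lit 9903912260)) (.cons (.br (nat_lit 12) (nat_lit 1) (.cons (.br (nat_lit 5) (nat_lit 0) (.cons (.rf (nat_lit 142) (nat_lit 493858305440582043680)) (.cons (.rf (nat_lit 156) (nat_lit 493858305440582043680)) (.cons (.rf (nat_lit 165) (nat_lit 493858305440582043680)) (.cons (.rf (nat_lit 165) (nat_lit 493750222348060035073)) .nil))))) .nil)) .nil))) (.cons (.br (nat_lit 4) (nat_lit 1) (.cons (.br (nat_lit 12) (nat_lit 1) (.cons (.br (nat_lit 10) (nat_lit 0) (.cons (.rf (nat_lit 177) (nat_lit 493858305440582043680)) (.cons (.rf (nat_lit 185) (nat_lit 493858305440582043680)) (.cons (.rf (nat_lit 187) (nat_lit 493858305440582043680)) (.cons (.rf (nat_lit 187) (nat_lit 493750222348060035073)) .nil))))) .nil)) (.cons (.rf (nat_lit 30) (nat_lit 5674086541)) .nil))) .nil))),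
 (.br (nat_lit 13) (nat_lit 1) (.cons (.rf (nat_lit 188) (nat_lit 493858305440582043680)) (.cons (.br (nat_lit 10) (nat_lit 1) (.cons (.rf (nat_lit 188) (nat_lit 383181218629392893984)) (.cons (.rf (nat_lit 30) (nat_lit 3461657932)) .nil))) .nil))),
 (.br (nat_lit 9) (nat_lit 1) (.cons (.br (nat_lit 7) (nat_lit 1) (.cons (.rf (nat_lit 74) (nat_lit 302211)) (.cons (.br (nat_lit 10) (nat_lit 1) (.cons (.br (nat_lit 4) (nat_lit 0) (.cons (.rf (nat_lit 121) (nat_lit 407901468851537952)) (.cons (.rf (nat_lit 125) (nat_lit 407901468851537952)) (.cons (.rf (nat_lit 128) (nat_lit 407901468851537952)) (.cons (.rf (nat_lit 128) (nat_lit 299818376329529345)) .nil))))) (.cons (.rf (nat_lit 129) (nat_lit 13230118019)) .nil))) (.cons (.rf (nat_lit 132) (nat_lit 14242959524133701664)) .nil)))) (.cons (.rf (nat_lit 130) (nat_lit 357729171605536)) (.cons (.br (nat_lit 7) (nat_lit 1) (.cons (.rf (nat_lit 115) (nat_lit 8974573340704)) (.cons (.rf (nat_lit 132) (nat_lit 14236133824607193120))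 (.cons (.rf (nat_lit 130) (nat_lit 430296939038752)) (.cons (.br (nat_lit 13) (nat_lit 1) (.cons (.rf (nat_lit 188) (nat_lit 493858305440582043680)) (.cons (.rf (nat_lit 189) (nat_lit 493858305440582043680)) (.cons (.br (nat_lit 13) (nat_lit 1) (.cons (.rf (nat_lit 188) (nat_lit 493858305440582043680)) (.cons (.rf (nat_lit 189) (nat_lit 493858305440582043680)) .nil))) .nil)))) .nil))))) .nil))))]

theorem c5 : chkAll C T R L5 (nat_lit 159) = true := by decide +kernel

theorem l5 : (nat_lit 159) + L5.length = (nat_lit 191) := by decide +kernel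

/-- part of the certificates -/
def L6 : List Prf := [(.br (nat_lit 8) (nat_lit 0) (.cons (.kr (nat_lit 1) (nat_lit 256) (nat_lit 0) (nat_lit 2)) (.cons (.br (nat_lit 1) (nat_lit 0) (.cons (.br (nat_lit 7) (nat_lit 1) (.cons (.rf (nat_lit 115) (nat_lit 8974573340704)) (.cons (.rf (nat_lit 190) (nat_lit 407901468851537952)) (.cons (.rf (nat_lit 190) (nat_lit 406810753316784160)) (.cons (.br (nat_lit 7) (nat_lit 1) (.cons (.rf (nat_lit 115) (nat_lit 8974573340704)) (.cons (.rf (nat_lit 190) (nat_lit 407901468851537952)) (.cons (.rf (nat_lit 190) (nat_lit 406810753316784160)) (.cons (.br (nat_lit 4) (nat_lit 1) (.cons (.rf (nat_lit 190) (nat_lit 407901365775468576)) (.cons (.rf (nat_lit 190) (nat_lit 406810650240714784)) (.cons (.rf (nat_lit 190) (nat_lit 411384618677274656)) (.cons (.rf (nat_lit 190) (nat_lit 410293903142520864)) .nil))))) .nil))))) .nil))))) .nil)) .nil))),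
 (.br (nat_lit 8) (nat_lit 1) (.cons (.rf (nat_lit 130) (nat_lit 286185556743200)) (.cons (.rf (nat_lit 130) (nat_lit 286189847516192)) (.cons (.br (nat_lit 8) (nat_lit 1) (.cons (.rf (nat_lit 115) (nat_lit 6942952264736)) (.cons (.rf (nat_lit 115) (nat_lit 6943053976608)) (.cons (.rf (nat_lit 191) (nat_lit 7989436031964192)) .nil)))) .nil)))),
 (.br (nat_lit 8) (nat_lit 0) (.cons (.br (nat_lit 11) (nat_lit 0) (.cons (.br (nat_lit 6) (nat_lit 1) (.cons (.rf (nat_lit 192) (nat_lit 390679022045216)) (.cons (.rf (nat_lit 192) (nat_lit 391675452229664)) (.cons (.rf (nat_lit 192) (nat_lit 392774963824672)) (.cons (.rf (nat_lit 192) (nat_lit 394905267603488)) (.cons (.rf (nat_lit 192) (nat_lit 397276091615264)) (.cons (.rf (nat_lit 192) (nat_lit 398341243504672)) (.cons (.br (nat_lit 8) (nat_lit 1) (.cons (.rf (nat_lit 192) (nat_lit 390676941670432)) (.cons (.rf (nat_lit 192) (nat_lit 391673371854880)) (.cons (.rf (nat_lit 192) (nat_lit 392772883449888)) (.cons (.rf (nat_lit 192)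 (nat_lit 394903187228704)) (.cons (.rf (nat_lit 192) (nat_lit 397274011240480)) (.cons (.rf (nat_lit 192) (nat_lit 398339163129888)) (.cons (.br (nat_lit 6) (nat_lit 1) (.cons (.rf (nat_lit 192) (nat_lit 390679022045216)) (.cons (.rf (nat_lit 192) (nat_lit 391675452229664)) (.cons (.rf (nat_lit 192) (nat_lit 392774963824672)) (.cons (.rf (nat_lit 192) (nat_lit 394905267603488)) (.cons (.rf (nat_lit 192) (nat_lit 397276091615264)) (.cons (.rf (nat_lit 192) (nat_lit 398341243504672)) .nil))))))) .nil)))))))) .nil)))))))) .nil)) (.cons (.rf (nat_lit 68) (nat_lit 377686048)) .nil))),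
 (.br (nat_lit 0) (nat_lit 0) (.cons (.br (nat_lit 2) (nat_lit 1) (.cons (.br (nat_lit 3) (nat_lit 1) (.cons (.br (nat_lit 3) (nat_lit 1) (.cons (.br (nat_lit 0) (nat_lit 0) (.cons (.br (nat_lit 3) (nat_lit 1) (.cons (.br (nat_lit 0) (nat_lit 0) (.cons (.br (nat_lit 5) (nat_lit 1) (.cons (.rf (nat_lit 115) (nat_lit 9043225708576)) (.cons (.rf (nat_lit 115) (nat_lit 8940214650912)) (.cons (.br (nat_lit 5) (nat_lit 1) (.cons (.rf (nat_lit 115) (nat_lit 9043225708576)) (.cons (.rf (nat_lit 115) (nat_lit 8940214650912)) (.cons (.br (nat_lit 6) (nat_lit 0) (.cons (.br (nat_lit 2) (nat_lit 0) (.cons (.rf (nat_lit 191) (nat_lit 11584701642934304)) (.cons (.rf (nat_lit 27) (nat_lit 6555680)) (.cons (.rf (nat_lit 193) (nat_lit 407901468851537952)) .nil)))) (.cons (.rf (nat_lit 27) (nat_lit 8587296)) (.cons (.rf (nat_lit 27) (nat_lit 2365472)) (.cons (.br (nat_lit 2) (nat_lit 0) (.cons (.rf (nat_lit 193) (nat_lit 407901464556574752)) (.cons (.rf (nat_lit 27) (nat_lit 6555680)) (.cons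 (.rf (nat_lit 70) (nat_lit 375463968)) .nil)))) .nil))))) .nil)))) .nil)))) .nil)) .nil)) .nil)) .nil)) .nil)) .nil)) .nil)),
 (.br (nat_lit 7) (nat_lit 1) (.cons (.kr (nat_lit 1099511628032) (nat_lit 72057594054705152) (nat_lit 1) (nat_lit 0)) (.cons (.rf (nat_lit 12) (nat_lit 11011395682)) .nil))),
 (.br (nat_lit 3) (nat_lit 0) (.cons (.br (nat_lit 7) (nat_lit 1) (.cons (.rf (nat_lit 195) (nat_lit 361986458224672)) (.cons (.rf (nat_lit 195) (nat_lit 327901595668512)) (.cons (.rf (nat_lit 12) (nat_lit 12118724706)) .nil)))) (.cons (.br (nat_lit 6) (nat_lit 1) (.cons (.ev (nat_lit 281479288455169) (nat_lit 1)) (.cons (.ev (nat_lit 281474993553409) (nat_lit 1)) (.cons (.rf (nat_lit 12) (nat_lit 12118724706)) .nil)))) (.cons (.ev (nat_lit 1103823438081) (nat_lit 1)) .nil)))),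
 (.br (nat_lit 8) (nat_lit 1) (.cons (.br (nat_lit 8) (nat_lit 1) (.cons (.ev (nat_lit 1213648186097498819920129) (nat_lit 1)) (.cons (.rf (nat_lit 12) (nat_lit 12118724706)) .nil))) (.cons (.ev (nat_lit 1213648186097498819920129) (nat_lit 1)) (.cons (.rf (nat_lit 12) (nat_lit 12118724706)) .nil)))),
 (.br (nat_lit 5) (nat_lit 0) (.cons (.rf (nat_lit 196) (nat_lit 11584701642934304)) (.cons (.br (nat_lit 9) (nat_lit 0) (.cons (.rf (nat_lit 197) (nat_lit 11584701642934304)) (.cons (.br (nat_lit 3) (nat_lit 0) (.cons (.rf (nat_lit 197) (nat_lit 4617989711537376)) (.cons (.rf (nat_lit 197) (nat_lit 4615792835765472)) .nil))) (.cons (.rf (nat_lit 197) (nat_lit 11582504767162400)) .nil)))) (.cons (.rf (nat_lit 196) (nat_lit 11582504767162400)) .nil)))),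
 (.br (nat_lit 1) (nat_lit 1) (.cons (.br (nat_lit 7) (nat_lit 1) (.cons (.ev (nat_lit 1223092919627300477272066) (nat_lit 2)) (.cons (.rf (nat_lit 12) (nat_lit 12118724706)) .nil))) (.cons (.br (nat_lit 7) (nat_lit 1) (.cons (.zr (nat_lit 144959613005988608) (nat_lit 1213648186097498836762627) (nat_lit 5) (nat_lit 0)) (.cons (.rf (nat_lit 12) (nat_lit 12118724706)) .nil))) (.cons (.rf (nat_lit 12) (nat_lit 12118724706)) .nil)))),
 (.br (nat_lit 8) (nat_lit 1) (.cons (.ev (nat_lit 18446744073726394369) (nat_lit 1)) (.cons (.rf (nat_lit 12) (nat_lit 12118724706)) .nil))),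
 (.br (nat_lit 6) (nat_lit 1) (.cons (.rf (nat_lit 199) (nat_lit 11584701642934304)) (.cons (.br (nat_lit 8) (nat_lit 1) (.cons (.rf (nat_lit 200) (nat_lit 11584701642934304)) (.cons (.rf (nat_lit 200) (nat_lit 5954996118031584)) (.cons (.rf (nat_lit 12) (nat_lit 12118724706)) .nil)))) (.cons (.rf (nat_lit 199) (nat_lit 5954996118031584)) (.cons (.rf (nat_lit 12) (nat_lit 12118724706)) .nil))))),
 (.br (nat_lit 3) (nat_lit 0) (.cons (.rf (nat_lit 198) (nat_lit 11443964287780896)) (.cons (.rf (nat_lit 198) (nat_lit 5954131755863232)) (.cons (.rf (nat_lit 201) (nat_lit 11584701642934304)) (.cons (.rf (nat_lit 201) (nat_lit 10492915585487040)) .nil))))),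
 (.br (nat_lit 5) (nat_lit 0) (.cons (.br (nat_lit 5) (nat_lit 0) .nil) .nil)),
 (.br (nat_lit 8) (nat_lit 0) (.cons (.br (nat_lit 4) (nat_lit 0) (.cons (.rf (nat_lit 198) (nat_lit 11584701642934304)) (.cons (.rf (nat_lit 202) (nat_lit 11584701642934304)) (.cons (.br (nat_lit 3) (nat_lit 0) (.cons (.rf (nat_lit 198) (nat_lit 11443964287780896)) (.cons (.rf (nat_lit 202) (nat_lit 11443964287780896)) (.cons (.rf (nat_lit 198) (nat_lit 5954996118031584)) (.cons (.rf (nat_lit 202) (nat_lit 11441767412008992)) .nil))))) (.cons (.rf (nat_lit 202) (nat_lit 11582504767162400)) .nil))))) (.cons (.rf (nat_lit 203) (nat_lit 377722912)) .nil))),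
 (.br (nat_lit 8) (nat_lit 0) (.cons (.rf (nat_lit 204) (nat_lit 11583636491044896)) (.cons (.rf (nat_lit 203) (nat_lit 377717952)) .nil))),
 (.br (nat_lit 7) (nat_lit 1) (.cons (.ev (nat_lit 309485009893403766569369601) (nat_lit 1)) (.cons (.kr (nat_lit 1099511628032) (nat_lit 72057594037993472) (nat_lit 1) (nat_lit 0)) (.cons (.kr (nat_lit 1099511628032) (nat_lit 72057598332895232) (nat_lit 1) (nat_lit 0)) (.cons (.rf (nat_lit 12) (nat_lit 13192466530)) .nil))))),
 (.br (nat_lit 5) (nat_lit 0) (.cons (.rf (nat_lit 206) (nat_lit 407901435565541408)) (.cons (.rf (nat_lit 206) (nat_lit 407901468851537952)) (.cons (.rf (nat_lit 206) (nat_lit 407900403699648544)) .nil)))),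
 (.br (nat_lit 8) (nat_lit 1) (.cons (.rf (nat_lit 207) (nat_lit 399843108307932416)) (.cons (.rf (nat_lit 207) (nat_lit 399772739631879424)) (.cons (.rf (nat_lit 12) (nat_lit 13192466530)) .nil)))),
 (.br (nat_lit 8) (nat_lit 1) (.cons (.rf (nat_lit 208) (nat_lit 407901468851537952)) (.cons (.rf (nat_lit 208) (nat_lit 407760698210388000)) (.cons (.rf (nat_lit 208) (nat_lit 406634626538344640)) (.cons (.rf (nat_lit 12) (nat_lit 13192466530)) .nil))))),
 (.br (nat_lit 3) (nat_lit 0) (.cons (.rf (nat_lit 207) (nat_lit 407760731496384544)) (.cons (.rf (nat_lit 207) (nat_lit 402271964116356288)) (.cons (.rf (nat_lit 209) (nat_lit 407901468851537952)) (.cons (.rf (nat_lit 209) (nat_lit 407900403699648544)) .nil))))),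
 (.br (nat_lit 9) (nat_lit 1) (.cons (.br (nat_lit 7) (nat_lit 0) (.cons (.rf (nat_lit 204) (nat_lit 11584701642934304)) (.cons (.rf (nat_lit 205) (nat_lit 11584701642934304)) (.cons (.rf (nat_lit 205) (nat_lit 11582538053158944)) (.cons (.br (nat_lit 1) (nat_lit 0) (.cons (.rf (nat_lit 203) (nat_lit 376643616)) (.cons (.rf (nat_lit 203) (nat_lit 376707104)) (.cons (.br (nat_lit 6) (nat_lit 0) (.cons (.rf (nat_lit 203) (nat_lit 376702144)) (.cons (.br (nat_lit 11) (nat_lit 0) (.cons (.br (nat_lit 4) (nat_lit 0) (.cons (.rf (nat_lit 207) (nat_lit 407901468851537952)) (.cons (.rf (nat_lit 210) (nat_lit 407901468851537952)) (.cons (.rf (nat_lit 210) (nat_lit 407901435565541408)) (.cons (.rf (nat_lit 210) (nat_lit 407900337127655456)) .nil))))) .nil)) .nil))) .nil)))) .nil))))) (.cons (.rf (nat_lit 30) (nat_lit 12123803715)) .nil))),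
 (.br (nat_lit 12) (nat_lit 0) (.cons (.zr (nat_lit 158765810038350301730856501250) (nat_lit 4722510600256744521984) (nat_lit 5) (nat_lit 6)) (.cons (.br (nat_lit 10) (nat_lit 0) (.cons (.ev (nat_lit 72057594054770689) (nat_lit 1)) (.cons (.rf (nat_lit 46) (nat_lit 292807958913692001)) .nil))) .nil))),
 (.br (nat_lit 7) (nat_lit 1) (.cons (.rf (nat_lit 43) (nat_lit 397276026539077)) (.cons (.rf (nat_lit 43) (nat_lit 5736229613382976)) .nil))),
 (.br (nat_lit 12) (nat_lit 0) (.cons (.ev (nat_lit 309485028268370617427820801) (nat_lit 1)) .nil)),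
 (.br (nat_lit 10) (nat_lit 0) (.cons (.br (nat_lit 5) (nat_lit 0) (.cons (.br (nat_lit 4) (nat_lit 0) (.cons (.br (nat_lit 12) (nat_lit 0) (.cons (.ev (nat_lit 309485028268370617427820801) (nat_lit 1)) .nil)) .nil)) (.cons (.rf (nat_lit 213) (nat_lit 445092485129178177)) .nil))) (.cons (.br (nat_lit 4) (nat_lit 0) (.cons (.ev (nat_lit 72057598332960769) (nat_lit 1)) (.cons (.br (nat_lit 6) (nat_lit 1) (.cons (.br (nat_lit 12) (nat_lit 0) (.cons (.ev (nat_lit 310698676454469215742591233) (nat_lit 1)) .nil)) (.cons (.br (nat_lit 8) (nat_lit 1) (.cons (.ev (nat_lit 82019577139164912858874578440) (nat_lit 4)) .nil)) .nil))) .nil))) (.cons (.br (nat_lit 5) (nat_lit 0) (.cons (.br (nat_lit 8) (nat_lit 1) (.cons (.zr (nat_lit 1213685080711546145866240) (nat_lit 618970019642691236994809859) (nat_lit 5) (nat_lit 0)) (.cons (.rf (nat_lit 46) (nat_lit 292807959986385249)) .nil))) (.cons (.br (nat_lit 6) (nat_lit 1) (.cons (.rf (nat_lit 214) (nat_lit 14242959524133701664)) (.cons (.ev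 (nat_lit 79229376162450716567357358081) (nat_lit 1)) .nil))) (.cons (.ev (nat_lit 18446744073726394369) (nat_lit 1)) .nil)))) .nil)))),
 (.br (nat_lit 12) (nat_lit 0) (.cons (.br (nat_lit 7) (nat_lit 1) (.cons (.ev (nat_lit 79228162514336676666870399233) (nat_lit 1)) (.cons (.zr (nat_lit 158456325028528957761593016322) (nat_lit 618974742153288195170631936) (nat_lit 5) (nat_lit 6)) (.cons (.rf (nat_lit 43) (nat_lit 8024348776804705)) .nil)))) (.cons (.ev (nat_lit 79228162514336396287110348801) (nat_lit 1)) (.cons (.br (nat_lit 6) (nat_lit 1) (.cons (.br (nat_lit 7) (nat_lit 1) (.cons (.br (nat_lit 8) (nat_lit 1) (.cons (.zr (nat_lit 37038166285448380928) (nat_lit 1213648186098598331613187) (nat_lit 5) (nat_lit 0)) .nil)) (.cons (.rf (nat_lit 43) (nat_lit 1559495283118183)) .nil))) (.cons (.br (nat_lit 7) (nat_lit 1) (.cons (.br (nat_lit 10) (nat_lit 0) (.cons (.ev (nat_lit 310698676526245334820651265) (nat_lit 1)) .nil)) (.cons (.ev (nat_lit 79538861172272062735577055233) (nat_lit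 1)) .nil))) (.cons (.br (nat_lit 4) (nat_lit 0) (.cons (.ev (nat_lit 79537647524085964141540474881) (nat_lit 1)) (.cons (.br (nat_lit 9) (nat_lit 0) (.cons (.ev (nat_lit 309485028340146740784070913) (nat_lit 1)) .nil)) .nil))) .nil)))) .nil)))),
 (.br (nat_lit 5) (nat_lit 0) (.cons (.rf (nat_lit 216) (nat_lit 14242959524133701664)) (.cons (.br (nat_lit 12) (nat_lit 0) (.cons (.br (nat_lit 9) (nat_lit 0) (.cons (.rf (nat_lit 31) (nat_lit 3452646129479046)) (.cons (.br (nat_lit 10) (nat_lit 0) (.cons (.rf (nat_lit 46) (nat_lit 220750367023247713)) (.cons (.ev (nat_lit 79538861190718525334326607873) (nat_lit 1)) .nil))) .nil))) (.cons (.br (nat_lit 9) (nat_lit 0) (.cons (.br (nat_lit 6) (nat_lit 1) (.cons (.kr (nat_lit 9444732966838802186496) (nat_lit 618970019642971621032984576) (nat_lit 1) (nat_lit 0)) (.cons (.ev (nat_lit 79537647524085964137262284801) (nat_lit 1)) .nil))) (.cons (.rf (nat_lit 31) (nat_lit 3452646129479048)) .nil))) .nil))) (.cons (.br (nat_lit 10) (nat_lit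 0) (.cons (.br (nat_lit 6) (nat_lit 1) (.cons (.br (nat_lit 9) (nat_lit 0) (.cons (.rf (nat_lit 55) (nat_lit 230047829832306791)) (.cons (.br (nat_lit 7) (nat_lit 1) (.cons (.ev (nat_lit 82014760287884125753949751816) (nat_lit 4)) .nil)) .nil))) (.cons (.br (nat_lit 8) (nat_lit 1) (.cons (.br (nat_lit 7) (nat_lit 1) (.cons (.ev (nat_lit 82014760250991200556249057800) (nat_lit 4)) .nil)) (.cons (.ev (nat_lit 79537647524085964137262284801) (nat_lit 1)) .nil))) (.cons (.br (nat_lit 9) (nat_lit 0) (.cons (.rf (nat_lit 46) (nat_lit 220750365950554465)) (.cons (.ev (nat_lit 79537647542532426735978283009) (nat_lit 1)) .nil))) .nil)))) (.cons (.rf (nat_lit 216) (nat_lit 4722347508846930144)) (.cons (.br (nat_lit 9) (nat_lit 0) (.cons (.br (nat_lit 12) (nat_lit 0) (.cons (.rf (nat_lit 214) (nat_lit 4687305212293426208)) (.cons (.br (nat_lit 6) (nat_lit 1) (.cons (.zr (nat_lit 4759404367680116949760) (nat_lit 620178945462304775230980099) (nat_lit 5) (nat_lit 0)) .nil)) .nil))) (.cons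 (.br (nat_lit 4) (nat_lit 0) (.cons (.br (nat_lit 6) (nat_lit 1) (.cons (.ev (nat_lit 310698658079782740382712065) (nat_lit 1)) .nil)) .nil)) .nil))) .nil)))) .nil)))),
 (.br (nat_lit 3) (nat_lit 0) (.cons (.br (nat_lit 9) (nat_lit 0) (.cons (.br (nat_lit 5) (nat_lit 0) (.cons (.rf (nat_lit 212) (nat_lit 14242959524133701664)) (.cons (.rf (nat_lit 212) (nat_lit 14242958458981812256)) .nil))) (.cons (.rf (nat_lit 215) (nat_lit 14242959524133701664)) (.cons (.rf (nat_lit 215) (nat_lit 14242958458981812256)) .nil)))) (.cons (.rf (nat_lit 217) (nat_lit 14242959524133701664)) (.cons (.rf (nat_lit 217) (nat_lit 14242958458981812256)) .nil)))),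
 (.br (nat_lit 4) (nat_lit 0) (.cons (.ev (nat_lit 309485009893684137756197121) (nat_lit 1)) (.cons (.br (nat_lit 8) (nat_lit 1) (.cons (.ev (nat_lit 309485028268370617411109121) (nat_lit 1)) (.cons (.ev (nat_lit 79228162532711363142230278401) (nat_lit 1)) .nil))) .nil))),
 (.br (nat_lit 10) (nat_lit 0) (.cons (.rf (nat_lit 219) (nat_lit 14242959524133701664)) (.cons (.rf (nat_lit 219) (nat_lit 14242958458981812256)) .nil))),
 (.br (nat_lit 4) (nat_lit 0) (.cons (.rf (nat_lit 220) (nat_lit 13125926079190665248)) (.cons (.kr (nat_lit 79228162514264337593560727552) (nat_lit 309485009821345073019748352) (nat_lit 3) (nat_lit 0)) (.cons (.br (nat_lit 10) (nat_lit 0) (.cons (.br (nat_lit 7) (nat_lit 1) (.cons (.br (nat_lit 9) (nat_lit 0) (.cons (.ev (nat_lit 1208944338697776210706433) (nat_lit 1)) .nil)) (.cons (.br (nat_lit 8) (nat_lit 1) (.cons (.ev (nat_lit 1208944338697776210706433) (nat_lit 1)) .nil)) .nil))) (.cons (.rf (nat_lit 218) (nat_lit 4722347508846930144)) (.cons (.rf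 (nat_lit 218) (nat_lit 3605314062830151936)) .nil)))) .nil)))),
 (.br (nat_lit 3) (nat_lit 0) (.cons (.br (nat_lit 4) (nat_lit 0) (.cons (.ev (nat_lit 1208944338697771915673601) (nat_lit 1)) .nil)) .nil)),
 (.br (nat_lit 8) (nat_lit 0) (.cons (.rf (nat_lit 50) (nat_lit 191694607214480448)) .nil)),
 (.br (nat_lit 3) (nat_lit 0) (.cons (.rf (nat_lit 33) (nat_lit 398607187608610118)) .nil)),
 (.br (nat_lit 2) (nat_lit 0) (.cons (.rf (nat_lit 56) (nat_lit 192856821069810752)) (.cons (.rf (nat_lit 49) (nat_lit 12712833827507271)) .nil))),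
 (.br (nat_lit 1) (nat_lit 1) (.cons (.ev (nat_lit 309485009893684137739485441) (nat_lit 1)) .nil)),
 (.br (nat_lit 9) (nat_lit 0) (.cons (.br (nat_lit 10) (nat_lit 0) (.cons (.br (nat_lit 5) (nat_lit 0) (.cons (.br (nat_lit 3) (nat_lit 0) (.cons (.br (nat_lit 8) (nat_lit 1) (.cons (.ev (nat_lit 4740885567111897874433) (nat_lit 1)) .nil)) .nil)) (.cons (.ev (nat_lit 79228167236630821562700857601) (nat_lit 1)) .nil))) (.cons (.br (nat_lit 5) (nat_lit 0) (.cons (.rf (nat_lit 222) (nat_lit 14242959524133701664)) (.cons (.ev (nat_lit 79228167236630821562700857601) (nat_lit 1)) .nil))) (.cons (.ev (nat_lit 79229371440083952222718656769) (nat_lit 1)) .nil)))) (.cons (.br (nat_lit 5) (nat_lit 0) (.cons (.br (nat_lit 10) (nat_lit 0) (.cons (.rf (nat_lit 222) (nat_lit 14242818786778548256)) (.cons (.br (nat_lit 8) (nat_lit 1) (.cons (.rf (nat_lit 218) (nat_lit 4722347507773188352)) (.cons (.rf (nat_lit 218) (nat_lit 3605314062830151936)) .nil))) .nil))) (.cons (.br (nat_lit 3) (nat_lit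 0) (.cons (.rf (nat_lit 223) (nat_lit 13909139051908161)) (.cons (.br (nat_lit 1) (nat_lit 1) (.cons (.rf (nat_lit 223) (nat_lit 12818285042176065)) (.cons (.ev (nat_lit 309489732187829037898400001) (nat_lit 1)) .nil))) .nil))) (.cons (.br (nat_lit 8) (nat_lit 1) (.cons (.br (nat_lit 7) (nat_lit 1) (.cons (.ev (nat_lit 79537652264971249774149763073) (nat_lit 1)) (.cons (.zr (nat_lit 144117387132665858) (nat_lit 1213703526611194925350912) (nat_lit 5) (nat_lit 8)) .nil))) (.cons (.br (nat_lit 10) (nat_lit 0) (.cons (.ev (nat_lit 1213666633123047506182401) (nat_lit 1)) (.cons (.rf (nat_lit 49) (nat_lit 12750116458925192)) .nil))) (.cons (.br (nat_lit 1) (nat_lit 1) (.cons (.ev (nat_lit 1213666632842672057876481) (nat_lit 1)) (.cons (.br (nat_lit 7) (nat_lit 1) (.cons (.zr (nat_lit 37037884810471670528) (nat_lit 1213648186097498836762627) (nat_lit 5) (nat_lit 0)) .nil)) .nil))) .nil)))) .nil)))) (.cons (.br (nat_lit 3) (nat_lit 0) (.cons (.br (nat_lit 10) (nat_lit 0) (.cons (.rf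 (nat_lit 224) (nat_lit 13909139051908161)) (.cons (.br (nat_lit 4) (nat_lit 0) (.cons (.br (nat_lit 8) (nat_lit 1) (.cons (.zr (nat_lit 37110223879503085824) (nat_lit 1218370552581467976826883) (nat_lit 5) (nat_lit 0)) .nil)) (.cons (.rf (nat_lit 218) (nat_lit 3605314062830151936)) .nil))) .nil))) (.cons (.br (nat_lit 4) (nat_lit 0) (.cons (.br (nat_lit 10) (nat_lit 0) (.cons (.br (nat_lit 5) (nat_lit 0) (.cons (.ev (nat_lit 18446744073726394369) (nat_lit 1)) .nil)) .nil)) (.cons (.br (nat_lit 10) (nat_lit 0) (.cons (.ev (nat_lit 79229371440083952227013689601) (nat_lit 1)) (.cons (.ev (nat_lit 79538856468424380434184404993) (nat_lit 1)) .nil))) .nil))) (.cons (.br (nat_lit 8) (nat_lit 1) (.cons (.br (nat_lit 10) (nat_lit 0) (.cons (.ev (nat_lit 79229371440083952227013689601) (nat_lit 1)) (.cons (.ev (nat_lit 79538856468424380434184404993) (nat_lit 1)) .nil))) (.cons (.br (nat_lit 1) (nat_lit 1) (.cons (.zr (nat_lit 144117387132796930) (nat_lit 79537647579425914896282288384)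 (nat_lit 5) (nat_lit 8)) (.cons (.br (nat_lit 6) (nat_lit 1) (.cons (.ev (nat_lit 81403034268177469201300127748) (nat_lit 3)) .nil)) .nil))) (.cons (.rf (nat_lit 218) (nat_lit 4722347507773188352)) .nil)))) .nil)))) (.cons (.br (nat_lit 7) (nat_lit 1) (.cons (.br (nat_lit 5) (nat_lit 0) (.cons (.br (nat_lit 10) (nat_lit 0) (.cons (.br (nat_lit 8) (nat_lit 1) (.cons (.zr (nat_lit 18591703686715539968) (nat_lit 310693935640960797411180547) (nat_lit 5) (nat_lit 0)) .nil)) (.cons (.ev (nat_lit 79537647542532426735995125761) (nat_lit 1)) .nil))) (.cons (.ev (nat_lit 79228162514336396287110348801) (nat_lit 1)) (.cons (.br (nat_lit 6) (nat_lit 1) (.cons (.br (nat_lit 10) (nat_lit 0) (.cons (.zr (nat_lit 18591422211738829568) (nat_lit 310693935640959702194520067) (nat_lit 5) (nat_lit 0)) .nil)) (.cons (.br (nat_lit 4) (nat_lit 0) (.cons (.zr (nat_lit 37037884810471670528) (nat_lit 1213648186097503131664387) (nat_lit 5) (nat_lit 0)) .nil)) .nil))) .nil)))) (.cons (.br (nat_lit 3) (nat_lit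 0) (.cons (.br (nat_lit 8) (nat_lit 1) (.cons (.rf (nat_lit 222) (nat_lit 2453659195718079744)) (.cons (.rf (nat_lit 222) (nat_lit 3605454800412846336)) .nil))) (.cons (.kr (nat_lit 79228162514264337593560727552) (nat_lit 309485009821345073019748352) (nat_lit 3) (nat_lit 0)) (.cons (.br (nat_lit 6) (nat_lit 1) (.cons (.ev (nat_lit 79537652264971249774149763073) (nat_lit 1)) (.cons (.ev (nat_lit 79538856468424380434184404993) (nat_lit 1)) .nil))) .nil)))) (.cons (.br (nat_lit 10) (nat_lit 0) (.cons (.br (nat_lit 6) (nat_lit 1) (.cons (.ev (nat_lit 309489732187829037898400001) (nat_lit 1)) (.cons (.br (nat_lit 8) (nat_lit 1) (.cons (.ev (nat_lit 81395790231491490885205950468) (nat_lit 3)) .nil)) .nil))) (.cons (.rf (nat_lit 225) (nat_lit 445092485129178177)) (.cons (.br (nat_lit 6) (nat_lit 1) (.cons (.rf (nat_lit 226) (nat_lit 14242959524133701664)) (.cons (.ev (nat_lit 18446744078004584449) (nat_lit 1)) .nil))) .nil)))) (.cons (.br (nat_lit 5) (nat_lit 0) (.cons (.br (nat_lit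 3) (nat_lit 0) (.cons (.rf (nat_lit 222) (nat_lit 14242818786583513120)) (.cons (.br (nat_lit 4) (nat_lit 0) (.cons (.zr (nat_lit 18663479805776757248) (nat_lit 310698658007442567544766467) (nat_lit 5) (nat_lit 0)) .nil)) .nil))) (.cons (.br (nat_lit 1) (nat_lit 1) (.cons (.rf (nat_lit 51) (nat_lit 13875054158876769)) (.cons (.zr (nat_lit 928455029464036305685971458) (nat_lit 1213648258999517788045312) (nat_lit 5) (nat_lit 6)) .nil))) (.cons (.ev (nat_lit 79538861190718525334309896193) (nat_lit 1)) .nil)))) .nil))))) .nil)))))]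

theorem c6 : chkAll C T R L6 (nat_lit 191) = true := by decide +kernel

theorem l6 : (nat_lit 191) + L6.length = (nat_lit 228) := by decide +kernel

/-- part of the certificates -/
def L7 : List Prf := [(.br (nat_lit 12) (nat_lit 0) (.cons (.rf (nat_lit 218) (nat_lit 13125926079190665248)) (.cons (.br (nat_lit 3) (nat_lit 0) (.cons (.rf (nat_lit 220) (nat_lit 14242959524133701664)) (.cons (.rf (nat_lit 221) (nat_lit 14242959524133701664)) (.cons (.rf (nat_lit 221) (nat_lit 14242958458981812256)) .nil)))) (.cons (.rf (nat_lit 227) (nat_lit 14242959524133701664)) (.cons (.rf (nat_lit 227) (nat_lit 14242958458981812256)) .nil))))),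
 (.br (nat_lit 2) (nat_lit 0) (.cons (.br (nat_lit 3) (nat_lit 0) (.cons (.kr (nat_lit 1208925819614629174771712) (nat_lit 4722366482869661990912) (nat_lit 2) (nat_lit 0)) .nil)) .nil)),
 (.br (nat_lit 10) (nat_lit 0) (.cons (.br (nat_lit 9) (nat_lit 0) (.cons (.rf (nat_lit 229) (nat_lit 13909139051908161)) (.cons (.ev (nat_lit 309489732187829037881688321) (nat_lit 1)) .nil))) (.cons (.ev (nat_lit 310693935640959697899487489) (nat_lit 1)) .nil))),
 (.br (nat_lit 9) (nat_lit 0) (.cons (.rf (nat_lit 230) (nat_lit 13125926079190665248)) (.cons (.br (nat_lit 10) (nat_lit 0) (.cons (.rf (nat_lit 222) (nat_lit 14208056621552211136)) (.cons (.br (nat_lit 8) (nat_lit 1) (.cons (.rf (nat_lit 214) (nat_lit 4722342182013741312)) (.cons (.rf (nat_lit 214) (nat_lit 3605308737070704896)) .nil))) .nil))) (.cons (.br (nat_lit 3) (nat_lit 0) (.cons (.br (nat_lit 8) (nat_lit 1) (.cons (.ev (nat_lit 309485028340146740784070913) (nat_lit 1)) (.cons (.ev (nat_lit 79538861190718525334326607873)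 (nat_lit 1)) .nil))) (.cons (.br (nat_lit 10) (nat_lit 0) (.cons (.ev (nat_lit 309489732187829037898400001) (nat_lit 1)) (.cons (.ev (nat_lit 79537647542532426735995125761) (nat_lit 1)) .nil))) (.cons (.br (nat_lit 1) (nat_lit 1) (.cons (.ev (nat_lit 309485028340146740784070913) (nat_lit 1)) (.cons (.ev (nat_lit 310693935640959697916330241) (nat_lit 1)) .nil))) .nil)))) .nil)))),
 (.br (nat_lit 5) (nat_lit 0) (.cons (.rf (nat_lit 230) (nat_lit 14242959524133701664)) (.cons (.rf (nat_lit 231) (nat_lit 14242959524133701664)) (.cons (.br (nat_lit 9) (nat_lit 0) (.cons (.ev (nat_lit 79228167236630821562700857601) (nat_lit 1)) (.cons (.rf (nat_lit 231) (nat_lit 13125926079190665248)) (.cons (.br (nat_lit 10) (nat_lit 0) (.cons (.br (nat_lit 4) (nat_lit 0) (.cons (.rf (nat_lit 228) (nat_lit 3605316466938095648)) .nil)) (.cons (.ev (nat_lit 79538861190718525334309896193) (nat_lit 1)) .nil))) .nil)))) .nil)))),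
 (.br (nat_lit 3) (nat_lit 0) (.cons (.br (nat_lit 4) (nat_lit 0) (.cons (.br (nat_lit 9) (nat_lit 0) (.cons (.rf (nat_lit 224) (nat_lit 4611667486190919)) (.cons (.rf (nat_lit 224) (nat_lit 13909140159204417)) .nil))) (.cons (.rf (nat_lit 228) (nat_lit 3605314063903893728)) .nil))) (.cons (.br (nat_lit 4) (nat_lit 0) (.cons (.br (nat_lit 8) (nat_lit 1) (.cons (.br (nat_lit 6) (nat_lit 1) (.cons (.zr (nat_lit 37038166285448380928) (nat_lit 1213648186098598331613187) (nat_lit 5) (nat_lit 0)) .nil)) (.cons (.rf (nat_lit 51) (nat_lit 12750116461022337)) .nil))) (.cons (.rf (nat_lit 232) (nat_lit 4722342183087483104)) (.cons (.rf (nat_lit 228) (nat_lit 3605314063903893728)) .nil)))) (.cons (.rf (nat_lit 228) (nat_lit 4722347508846930144)) .nil)))),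
 (.br (nat_lit 12) (nat_lit 0) (.cons (.rf (nat_lit 218) (nat_lit 13125926079190665248)) (.cons (.rf (nat_lit 228) (nat_lit 13125926079190665248)) (.cons (.rf (nat_lit 232) (nat_lit 14242959524133701664)) (.cons (.br (nat_lit 10) (nat_lit 0) (.cons (.br (nat_lit 4) (nat_lit 0) (.cons (.rf (nat_lit 228) (nat_lit 3605316466938095648)) (.cons (.ev (nat_lit 79229371440083952227013689601) (nat_lit 1)) (.cons (.br (nat_lit 3) (nat_lit 0) (.cons (.rf (nat_lit 228) (nat_lit 4722349911881132064)) (.cons (.kr (nat_lit 79228162514264337593560727552) (nat_lit 309485009821345073019748352) (nat_lit 3) (nat_lit 0)) .nil))) .nil)))) (.cons (.br (nat_lit 3) (nat_lit 0) (.cons (.rf (nat_lit 228) (nat_lit 4722349906512423104)) (.cons (.rf (nat_lit 218) (nat_lit 4722349906512423104)) (.cons (.br (nat_lit 4) (nat_lit 0) (.cons (.rf (nat_lit 228) (nat_lit 3605316461569386688)) (.cons (.rf (nat_lit 218) (nat_lit 3605316461569386688)) (.cons (.kr (nat_lit 79228162514264337593560727552) (nat_lit 309485009821345073019748352)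 (nat_lit 3) (nat_lit 0)) .nil)))) (.cons (.br (nat_lit 6) (nat_lit 1) (.cons (.rf (nat_lit 218) (nat_lit 3605316461569386688)) (.cons (.ev (nat_lit 79228162532711082766781972481) (nat_lit 1)) (.cons (.br (nat_lit 4) (nat_lit 0) (.cons (.rf (nat_lit 228) (nat_lit 3605316461569386688)) (.cons (.ev (nat_lit 309489732259885536702955521) (nat_lit 1)) .nil))) .nil)))) .nil))))) (.cons (.rf (nat_lit 233) (nat_lit 14242959524133701664)) (.cons (.rf (nat_lit 233) (nat_lit 13125925014038775840)) .nil))))) .nil))))),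
 (.br (nat_lit 7) (nat_lit 0) (.cons (.br (nat_lit 11) (nat_lit 0) (.cons (.rf (nat_lit 218) (nat_lit 14242959524133701664)) (.cons (.rf (nat_lit 228) (nat_lit 14242959524133701664)) (.cons (.rf (nat_lit 234) (nat_lit 14242959524133701664)) (.cons (.rf (nat_lit 234) (nat_lit 14242958458981812256)) .nil))))) (.cons (.rf (nat_lit 203) (nat_lit 443752480)) .nil))),
 (.br (nat_lit 8) (nat_lit 0) (.cons (.rf (nat_lit 235) (nat_lit 14242958392409819168)) (.cons (.rf (nat_lit 203) (nat_lit 444826816)) .nil))),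
 (.br (nat_lit 8) (nat_lit 1) (.cons (.ev (nat_lit 20282409603670117449500249358593) (nat_lit 1)) (.cons (.ev (nat_lit 20282719093402305277434324320513) (nat_lit 1)) (.cons (.kr (nat_lit 18446745173221179392) (nat_lit 79228162514264619068520660992) (nat_lit 5) (nat_lit 0)) .nil)))),
 (.br (nat_lit 10) (nat_lit 0) (.cons (.br (nat_lit 4) (nat_lit 0) (.cons (.rf (nat_lit 229) (nat_lit 4611668559932742)) (.cons (.br (nat_lit 11) (nat_lit 0) (.cons (.br (nat_lit 12) (nat_lit 0) (.cons (.ev (nat_lit 81130258607756282181724338717700) (nat_lit 3)) .nil)) (.cons (.br (nat_lit 12) (nat_lit 0) (.cons (.ev (nat_lit 81211034185875207948551682589188) (nat_lit 3)) .nil)) .nil))) .nil))) (.cons (.br (nat_lit 4) (nat_lit 0) (.cons (.ev (nat_lit 20282409603651742763020577734913) (nat_lit 1)) (.cons (.br (nat_lit 11) (nat_lit 0) (.cons (.ev (nat_lit 20282719093383930590954652696833) (nat_lit 1)) (.cons (.br (nat_lit 12) (nat_lit 0) (.cons (.ev (nat_lit 81211034204764385649654178842116) (nat_lit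 3)) .nil)) .nil))) .nil))) (.cons (.br (nat_lit 6) (nat_lit 1) (.cons (.br (nat_lit 7) (nat_lit 1) (.cons (.ev (nat_lit 20282409603651742482645112586241) (nat_lit 1)) (.cons (.br (nat_lit 11) (nat_lit 0) (.cons (.ev (nat_lit 40564821629914312105764004561666) (nat_lit 2)) .nil)) .nil))) (.cons (.br (nat_lit 4) (nat_lit 0) (.cons (.ev (nat_lit 20282719093383930310579187679233) (nat_lit 1)) (.cons (.br (nat_lit 12) (nat_lit 0) (.cons (.ev (nat_lit 40565438182082315568850717901570) (nat_lit 2)) .nil)) .nil))) (.cons (.br (nat_lit 7) (nat_lit 1) (.cons (.ev (nat_lit 20361637770888373303108285038593) (nat_lit 1)) (.cons (.ev (nat_lit 20361947251175828165303069573121) (nat_lit 1)) .nil))) .nil)))) .nil)))),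
 (.br (nat_lit 3) (nat_lit 0) (.cons (.br (nat_lit 10) (nat_lit 0) (.cons (.rf (nat_lit 237) (nat_lit 493858304375430154272)) (.cons (.rf (nat_lit 237) (nat_lit 493858305440582043680)) .nil))) (.cons (.rf (nat_lit 238) (nat_lit 493858305440582043680)) (.cons (.rf (nat_lit 238) (nat_lit 493858304375430154272)) .nil)))),
 (.br (nat_lit 5) (nat_lit 0) (.cons (.rf (nat_lit 239) (nat_lit 493858305440582043680)) (.cons (.rf (nat_lit 239) (nat_lit 493858305407296047136)) (.cons (.rf (nat_lit 239) (nat_lit 493858304308858161184)) .nil)))),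
 (.br (nat_lit 11) (nat_lit 0) (.cons (.ev (nat_lit 20361948460101648060307709362433) (nat_lit 1)) (.cons (.br (nat_lit 3) (nat_lit 0) (.cons (.br (nat_lit 4) (nat_lit 0) (.cons (.zr (nat_lit 37109942404509598215) (nat_lit 162259586314223184737746263539712) (nat_lit 15) (nat_lit 0)) .nil)) (.cons (.ev (nat_lit 20361948464842388948182049554433) (nat_lit 1)) .nil))) .nil))),
 (.br (nat_lit 4) (nat_lit 0) (.cons (.rf (nat_lit 241) (nat_lit 484337695828329474080)) (.cons (.br (nat_lit 6) (nat_lit 1) (.cons (.br (nat_lit 8) (nat_lit 1) (.cons (.ev (nat_lit 162343165434040892955721349268488) (nat_lit 4)) .nil)) (.cons (.ev (nat_lit 20361948460101648060307709362433) (nat_lit 1)) .nil))) .nil))),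
 (.br (nat_lit 6) (nat_lit 1) (.cons (.rf (nat_lit 242) (nat_lit 483220662350100441120)) (.cons (.rf (nat_lit 241) (nat_lit 484337695828329474080)) (.cons (.rf (nat_lit 242) (nat_lit 492741271962353010720)) (.cons (.rf (nat_lit 241) (nat_lit 493858305440582043680)) .nil))))),
 (.br (nat_lit 3) (nat_lit 0) (.cons (.ev (nat_lit 20282719093383930590954652696833) (nat_lit 1)) (.cons (.br (nat_lit 4) (nat_lit 0) (.cons (.br (nat_lit 8) (nat_lit 1) (.cons (.ev (nat_lit 40565131110183393127007854460930) (nat_lit 2)) .nil)) (.cons (.ev (nat_lit 20282719093402304997058859302913) (nat_lit 1)) .nil))) .nil))),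
 (.br (nat_lit 12) (nat_lit 0) (.cons (.rf (nat_lit 244) (nat_lit 492741271995639007264)) (.cons (.br (nat_lit 3) (nat_lit 0) (.cons (.ev (nat_lit 20282719093383930590954652696833) (nat_lit 1)) (.cons (.ev (nat_lit 40565129905979939994148813144066) (nat_lit 2)) .nil))) .nil))),
 (.br (nat_lit 3) (nat_lit 0) (.cons (.rf (nat_lit 46) (nat_lit 12712833828555846)) (.cons (.br (nat_lit 10) (nat_lit 0) (.cons (.rf (nat_lit 213) (nat_lit 407901467811350560)) (.cons (.rf (nat_lit 31) (nat_lit 11587898275039333)) .nil))) (.cons (.rf (nat_lit 55) (nat_lit 227760672871581799)) .nil)))),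
 (.br (nat_lit 12) (nat_lit 0) (.cons (.rf (nat_lit 246) (nat_lit 112666064496996679)) (.cons (.br (nat_lit 8) (nat_lit 1) (.cons (.kr (nat_lit 309485009821626543718268928) (nat_lit 1213666632841572529471488) (nat_lit 3) (nat_lit 0)) (.cons (.zr (nat_lit 1208962858344964088201223) (nat_lit 162418352128983901239780782899200) (nat_lit 15) (nat_lit 0)) .nil))) (.cons (.rf (nat_lit 225) (nat_lit 445092417516997697)) .nil)))),
 (.br (nat_lit 5) (nat_lit 0) (.cons (.rf (nat_lit 240) (nat_lit 492741271995639007264)) (.cons (.br (nat_lit 1) (nat_lit 1) (.cons (.rf (nat_lit 245) (nat_lit 484337695622171044064)) (.cons (.rf (nat_lit 245) (nat_lit 483220662177228007648)) (.cons (.rf (nat_lit 244) (nat_lit 493858305440582043680)) (.cons (.rf (nat_lit 244) (nat_lit 492741271995639007264)) .nil))))) (.cons (.rf (nat_lit 240) (nat_lit 483220662343657990368)) (.cons (.br (nat_lit 7) (nat_lit 1) (.cons (.rf (nat_lit 246) (nat_lit 445092485129178177)) (.cons (.rf (nat_lit 246) (nat_lit 410185121322340417))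 (.cons (.rf (nat_lit 247) (nat_lit 493858305440582043680)) (.cons (.rf (nat_lit 247) (nat_lit 492741269798763235360)) .nil))))) .nil))))),
 (.br (nat_lit 10) (nat_lit 0) (.cons (.br (nat_lit 5) (nat_lit 0) (.cons (.kr (nat_lit 4722366483969156841984) (nat_lit 1208925820177579128193024) (nat_lit 1) (nat_lit 0)) (.cons (.rf (nat_lit 243) (nat_lit 493858305440582043680)) (.cons (.rf (nat_lit 243) (nat_lit 493858304375430154272)) .nil)))) (.cons (.rf (nat_lit 240) (nat_lit 484337695822960765120)) (.cons (.rf (nat_lit 248) (nat_lit 493858305440582043680)) (.cons (.rf (nat_lit 248) (nat_lit 493858304375430154272)) .nil))))),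
 (.br (nat_lit 10) (nat_lit 1) (.cons (.rf (nat_lit 30) (nat_lit 11989716036)) (.cons (.br (nat_lit 9) (nat_lit 1) (.cons (.br (nat_lit 12) (nat_lit 1) .nil) (.cons (.br (nat_lit 11) (nat_lit 1) (.cons (.br (nat_lit 6) (nat_lit 0) (.cons (.rf (nat_lit 235) (nat_lit 14242959524133701664)) (.cons (.rf (nat_lit 236) (nat_lit 14242959524133701664)) (.cons (.rf (nat_lit 236) (nat_lit 14242958458981812256)) (.cons (.br (nat_lit 8) (nat_lit 0) (.cons (.rf (nat_lit 203) (nat_lit 442768416)) (.cons (.rf (nat_lit 203) (nat_lit 442762464)) (.cons (.br (nat_lit 1) (nat_lit 0) (.cons (.rf (nat_lit 203) (nat_lit 444831776)) (.cons (.br (nat_lit 13) (nat_lit 0) (.cons (.br (nat_lit 9) (nat_lit 0) (.cons (.rf (nat_lit 240) (nat_lit 493858305440582043680)) (.cons (.rf (nat_lit 249) (nat_lit 493858305440582043680)) (.cons (.rf (nat_lit 249) (nat_lit 493858305407296047136)) (.cons (.rf (nat_lit 249) (nat_lit 493858304308858161184)) .nil))))) .nil)) .nil))) .nil)))) .nil))))) .nil)) .nil))) .nil))),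
 (.br (nat_lit 5) (nat_lit 1) (.cons (.rf (nat_lit 211) (nat_lit 11584701642934304)) (.cons (.br (nat_lit 10) (nat_lit 1) (.cons (.rf (nat_lit 30) (nat_lit 11989716036)) (.cons (.rf (nat_lit 250) (nat_lit 407901468851537952)) (.cons (.br (nat_lit 10) (nat_lit 1) (.cons (.rf (nat_lit 30) (nat_lit 11989716036)) (.cons (.rf (nat_lit 250) (nat_lit 407901468851537952)) .nil))) .nil)))) .nil))),
 (.br (nat_lit 3) (nat_lit 0) (.cons (.rf (nat_lit 251) (nat_lit 5955202276461600)) (.cons (.rf (nat_lit 251) (nat_lit 5955196907752640)) (.cons (.rf (nat_lit 251) (nat_lit 5955162548014304)) (.cons (.rf (nat_lit 251) (nat_lit 5954063036386560)) .nil))))),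
 (.br (nat_lit 12) (nat_lit 0) (.cons (.br (nat_lit 8) (nat_lit 1) (.cons (.br (nat_lit 8) (nat_lit 0) (.cons (.br (nat_lit 7) (nat_lit 0) (.cons (.ev (nat_lit 1239182040478540632028217860) (nat_lit 3)) (.cons (.rf (nat_lit 203) (nat_lit 443815968)) .nil))) (.cons (.ev (nat_lit 4722366765448445296641) (nat_lit 1)) (.cons (.ev (nat_lit 79546143098425976207677128708) (nat_lit 3)) (.cons (.br (nat_lit 1) (nat_lit 0) (.cons (.rf (nat_lit 203) (nat_lit 444800032)) (.cons (.rf (nat_lit 203) (nat_lit 444831776)) (.cons (.br (nat_lit 6) (nat_lit 0) (.cons (.rf (nat_lit 203) (nat_lit 444826816)) (.cons (.br (nat_lit 7) (nat_lit 0) (.cons (.ev (nat_lit 20361637766184381505618816532481) (nat_lit 1)) .nil)) .nil))) .nil)))) .nil))))) .nil)) .nil)),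
 (.br (nat_lit 7) (nat_lit 0) (.cons (.ev (nat_lit 4722438823042466447361) (nat_lit 1)) (.cons (.rf (nat_lit 203) (nat_lit 410194976)) .nil))),
 (.br (nat_lit 9) (nat_lit 0) (.cons (.rf (nat_lit 253) (nat_lit 14242959524133701664)) (.cons (.br (nat_lit 12) (nat_lit 0) (.cons (.br (nat_lit 8) (nat_lit 1) (.cons (.br (nat_lit 7) (nat_lit 0) (.cons (.rf (nat_lit 254) (nat_lit 445092485128095776)) (.cons (.ev (nat_lit 4722366765448445296641) (nat_lit 1)) (.cons (.ev (nat_lit 18446744078004584449) (nat_lit 1)) (.cons (.br (nat_lit 1) (nat_lit 0) (.cons (.rf (nat_lit 203) (nat_lit 443752480)) (.cons (.rf (nat_lit 203) (nat_lit 443815968)) (.cons (.br (nat_lit 8) (nat_lit 0) (.cons (.rf (nat_lit 203) (nat_lit 443811008)) (.cons (.br (nat_lit 6) (nat_lit 0) (.cons (.ev (nat_lit 81209184548297556985531792031748) (nat_lit 3)) .nil)) .nil))) .nil)))) .nil))))) .nil)) (.cons (.rf (nat_lit 253) (nat_lit 13126065751393929248)) .nil))) .nil))),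
 (.br (nat_lit 6) (nat_lit 0) (.cons (.ev (nat_lit 4722438823042466447361) (nat_lit 1)) (.cons (.rf (nat_lit 203) (nat_lit 409115680)) .nil))),
 (.br (nat_lit 1) (nat_lit 0) (.cons (.zr (nat_lit 55412852765120004608) (nat_lit 310693935640960797411180547) (nat_lit 5) (nat_lit 0)) (.cons (.rf (nat_lit 203) (nat_lit 437493952)) .nil))),
 (.br (nat_lit 12) (nat_lit 0) (.cons (.ev (nat_lit 79228167236630821566995759361) (nat_lit 1)) .nil)),
 (.br (nat_lit 11) (nat_lit 0) (.cons (.br (nat_lit 9) (nat_lit 0) (.cons (.br (nat_lit 8) (nat_lit 1) (.cons (.br (nat_lit 6) (nat_lit 0) (.cons (.rf (nat_lit 256) (nat_lit 445092485128095776)) (.cons (.ev (nat_lit 310693935713018395744010241) (nat_lit 1)) (.cons (.ev (nat_lit 18446744078004584449) (nat_lit 1)) (.cons (.br (nat_lit 8) (nat_lit 0) (.cons (.rf (nat_lit 203) (nat_lit 442768416)) (.cons (.rf (nat_lit 203) (nat_lit 442762464)) (.cons (.br (nat_lit 7) (nat_lit 0) (.cons (.ev (nat_lit 80162667005873963925520843780) (nat_lit 3)) (.cons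 (.br (nat_lit 13) (nat_lit 0) (.cons (.ev (nat_lit 40565132319109140404775610941954) (nat_lit 2)) .nil)) .nil))) .nil)))) .nil))))) .nil)) .nil)) (.cons (.br (nat_lit 9) (nat_lit 0) (.cons (.br (nat_lit 8) (nat_lit 1) (.cons (.br (nat_lit 6) (nat_lit 0) (.cons (.ev (nat_lit 309485009821627647508152321) (nat_lit 1)) (.cons (.rf (nat_lit 257) (nat_lit 14242959524133701664)) (.cons (.br (nat_lit 1) (nat_lit 0) (.cons (.ev (nat_lit 311907639167290526000087810) (nat_lit 2)) (.cons (.rf (nat_lit 203) (nat_lit 437525696)) .nil))) (.cons (.br (nat_lit 7) (nat_lit 0) (.cons (.rf (nat_lit 203) (nat_lit 442736672)) (.cons (.rf (nat_lit 203) (nat_lit 442762464)) (.cons (.br (nat_lit 1) (nat_lit 0) (.cons (.ev (nat_lit 80162676377108742298132611588) (nat_lit 3)) (.cons (.rf (nat_lit 258) (nat_lit 15433035725666355232)) .nil))) .nil)))) .nil))))) .nil)) (.cons (.br (nat_lit 10) (nat_lit 0) (.cons (.br (nat_lit 1) (nat_lit 0) (.cons (.ev (nat_lit 309485009821627647508152321) (nat_lit 1))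 (.cons (.rf (nat_lit 254) (nat_lit 182514739674714336)) (.cons (.rf (nat_lit 256) (nat_lit 75587273370019072)) (.cons (.br (nat_lit 8) (nat_lit 0) (.cons (.rf (nat_lit 203) (nat_lit 437525696)) (.cons (.rf (nat_lit 203) (nat_lit 437524704)) (.cons (.br (nat_lit 6) (nat_lit 0) (.cons (.rf (nat_lit 203) (nat_lit 444826816)) (.cons (.br (nat_lit 7) (nat_lit 0) (.cons (.ev (nat_lit 81211039049912540623949300958724) (nat_lit 3)) .nil)) .nil))) .nil)))) .nil))))) .nil)) .nil))) .nil)))]

theorem c7 : chkAll C T R L7 (nat_lit 228) = true := by decide +kernel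

theorem l7 : (nat_lit 228) + L7.length = (nat_lit 260) := by decide +kernel

/-- part of the certificates -/
def L8 : List Prf := [(.br (nat_lit 9) (nat_lit 0) (.cons (.rf (nat_lit 259) (nat_lit 14237365004019043520)) (.cons (.br (nat_lit 6) (nat_lit 1) (.cons (.br (nat_lit 8) (nat_lit 1) (.cons (.br (nat_lit 8) (nat_lit 0) (.cons (.rf (nat_lit 256) (nat_lit 327791051758995488)) (.cons (.rf (nat_lit 256) (nat_lit 326665146478202048)) (.cons (.ev (nat_lit 309489732259885532424765441) (nat_lit 1)) (.cons (.br (nat_lit 1) (nat_lit 0) (.cons (.rf (nat_lit 203) (nat_lit 444800032)) (.cons (.rf (nat_lit 203) (nat_lit 444831776)) (.cons (.br (nat_lit 6) (nat_lit 0) (.cons (.rf (nat_lit 203) (nat_lit 444826816)) (.cons (.kr (nat_lit 309489732188109417641672960) (nat_lit 79228162551157825740979896320) (nat_lit 1) (nat_lit 0)) .nil))) .nil)))) .nil))))) .nil)) (.cons (.rf (nat_lit 259) (nat_lit 13126066816545818656)) .nil))) .nil))),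
 (.br (nat_lit 1) (nat_lit 0) (.cons (.rf (nat_lit 203) (nat_lit 411245600)) (.cons (.rf (nat_lit 203) (nat_lit 411277344)) (.cons (.br (nat_lit 7) (nat_lit 0) (.cons (.rf (nat_lit 203) (nat_lit 411272384)) (.cons (.rf (nat_lit 258) (nat_lit 14242957327257929760)) .nil))) .nil)))),
 (.br (nat_lit 8) (nat_lit 0) (.cons (.ev (nat_lit 79537652283490613300979303170) (nat_lit 2)) (.cons (.rf (nat_lit 203) (nat_lit 444800032)) .nil))),
 (.br (nat_lit 12) (nat_lit 0) (.cons (.rf (nat_lit 259) (nat_lit 14242959524133701664)) (.cons (.rf (nat_lit 260) (nat_lit 14242959524133701664)) (.cons (.br (nat_lit 11) (nat_lit 0) (.cons (.rf (nat_lit 259) (nat_lit 13126066816545818656)) (.cons (.rf (nat_lit 260) (nat_lit 13126066816545818656)) (.cons (.br (nat_lit 10) (nat_lit 0) (.cons (.br (nat_lit 7) (nat_lit 1) (.cons (.br (nat_lit 8) (nat_lit 0) (.cons (.rf (nat_lit 254) (nat_lit 445085820446345248)) (.cons (.rf (nat_lit 254) (nat_lit 444908627275582656)) (.cons (.br (nat_lit 1) (nat_lit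 0) (.cons (.ev (nat_lit 4740813508422643286273) (nat_lit 1)) (.cons (.rf (nat_lit 203) (nat_lit 437524704)) .nil))) (.cons (.rf (nat_lit 261) (nat_lit 15433035725666355232)) .nil))))) .nil)) (.cons (.br (nat_lit 9) (nat_lit 0) (.cons (.br (nat_lit 6) (nat_lit 0) (.cons (.rf (nat_lit 262) (nat_lit 14242959524133701664)) (.cons (.rf (nat_lit 262) (nat_lit 14237365004019043520)) (.cons (.br (nat_lit 1) (nat_lit 0) (.cons (.ev (nat_lit 1223130028726370978234626) (nat_lit 2)) (.cons (.rf (nat_lit 203) (nat_lit 437525696)) .nil))) (.cons (.br (nat_lit 8) (nat_lit 0) (.cons (.rf (nat_lit 203) (nat_lit 442768416)) (.cons (.rf (nat_lit 203) (nat_lit 442762464)) (.cons (.br (nat_lit 1) (nat_lit 0) (.cons (.ev (nat_lit 4740813508418348253441) (nat_lit 1)) (.cons (.br (nat_lit 7) (nat_lit 0) (.cons (.ev (nat_lit 20282409603651742763020577734913) (nat_lit 1)) .nil)) .nil))) .nil)))) .nil))))) .nil)) .nil))) .nil)))) .nil)))),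
 (.br (nat_lit 4) (nat_lit 0) (.cons (.br (nat_lit 11) (nat_lit 0) (.cons (.rf (nat_lit 255) (nat_lit 14242959524133701664)) (.cons (.rf (nat_lit 255) (nat_lit 14242958458981812256)) .nil))) (.cons (.rf (nat_lit 263) (nat_lit 14242959524133701664)) (.cons (.rf (nat_lit 263) (nat_lit 14242958458981812256)) .nil)))),
 (.br (nat_lit 3) (nat_lit 0) (.cons (.rf (nat_lit 264) (nat_lit 14242959524133701664)) (.cons (.rf (nat_lit 264) (nat_lit 14242959490847705120)) (.cons (.rf (nat_lit 264) (nat_lit 14242958392409819168)) .nil)))),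
 (.br (nat_lit 3) (nat_lit 0) (.cons (.rf (nat_lit 265) (nat_lit 14237329985038781664)) (.cons (.br (nat_lit 9) (nat_lit 0) (.cons (.br (nat_lit 8) (nat_lit 1) (.cons (.br (nat_lit 7) (nat_lit 0) (.cons (.br (nat_lit 6) (nat_lit 0) (.cons (.ev (nat_lit 80165113118358020430684946436) (nat_lit 3)) (.cons (.rf (nat_lit 203) (nat_lit 442736672)) .nil))) (.cons (.br (nat_lit 8) (nat_lit 0) (.cons (.ev (nat_lit 81398198638397756611877863428) (nat_lit 3)) (.cons (.rf (nat_lit 203) (nat_lit 444826816)) .nil))) (.cons (.kr (nat_lit 72058693549555712) (nat_lit 79228162532711081667253501952) (nat_lit 5) (nat_lit 0)) (.cons (.br (nat_lit 1) (nat_lit 0) (.cons (.rf (nat_lit 203) (nat_lit 443752480)) (.cons (.rf (nat_lit 203) (nat_lit 443815968)) (.cons (.br (nat_lit 8) (nat_lit 0) (.cons (.ev (nat_lit 309485028340146736489038081) (nat_lit 1)) (.cons (.br (nat_lit 13) (nat_lit 0) (.cons (.ev (nat_lit 20361637766165935043020066979841) (nat_lit 1)) .nil)) .nil))) .nil)))) .nil))))) .nil))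 (.cons (.rf (nat_lit 265) (nat_lit 14237364069863656704)) .nil))) .nil))),
 (.br (nat_lit 10) (nat_lit 0) (.cons (.rf (nat_lit 266) (nat_lit 14242959524133701664)) (.cons (.rf (nat_lit 266) (nat_lit 14242958458981812256)) .nil))),
 (.br (nat_lit 4) (nat_lit 0) (.cons (.rf (nat_lit 203) (nat_lit 374478880)) (.cons (.rf (nat_lit 203) (nat_lit 374539392)) (.cons (.br (nat_lit 6) (nat_lit 0) (.cons (.rf (nat_lit 203) (nat_lit 374542368)) (.cons (.br (nat_lit 11) (nat_lit 0) (.cons (.ev (nat_lit 310698658007442571856445441) (nat_lit 1)) .nil)) .nil))) .nil)))),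
 (.br (nat_lit 1) (nat_lit 0) (.cons (.ev (nat_lit 309485028268370621706010881) (nat_lit 1)) (.cons (.rf (nat_lit 203) (nat_lit 403939520)) .nil))),
 (.br (nat_lit 10) (nat_lit 0) (.cons (.br (nat_lit 6) (nat_lit 0) (.cons (.ev (nat_lit 1213648186097503114952961) (nat_lit 1)) (.cons (.rf (nat_lit 269) (nat_lit 407901468851537952)) (.cons (.rf (nat_lit 269) (nat_lit 442838485181763616)) (.cons (.br (nat_lit 7) (nat_lit 0) (.cons (.rf (nat_lit 203) (nat_lit 442736672)) (.cons (.rf (nat_lit 203) (nat_lit 442762464)) (.cons (.kr (nat_lit 309485009965461356329107456) (nat_lit 79229376162450998046612258816) (nat_lit 2) (nat_lit 0)) .nil)))) .nil))))) .nil)),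
 (.br (nat_lit 9) (nat_lit 0) (.cons (.br (nat_lit 1) (nat_lit 0) (.cons (.kr (nat_lit 79537647524085683761780425216) (nat_lit 1213648186660453085085696) (nat_lit 1) (nat_lit 0)) (.cons (.ev (nat_lit 1213648186097503114952961) (nat_lit 1)) (.cons (.br (nat_lit 7) (nat_lit 0) (.cons (.ev (nat_lit 80162685858878752812354043908) (nat_lit 3)) (.cons (.rf (nat_lit 203) (nat_lit 443815968)) .nil))) (.cons (.br (nat_lit 6) (nat_lit 0) (.cons (.rf (nat_lit 203) (nat_lit 437493952)) (.cons (.ev (nat_lit 281474993553409) (nat_lit 1)) (.cons (.br (nat_lit 8) (nat_lit 0) (.cons (.rf (nat_lit 203) (nat_lit 442762464)) (.cons (.br (nat_lit 7) (nat_lit 0) (.cons (.ev (nat_lit 20361947251194274908281562464513) (nat_lit 1)) .nil)) .nil))) .nil)))) .nil))))) .nil)),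
 (.br (nat_lit 6) (nat_lit 1) (.cons (.rf (nat_lit 271) (nat_lit 14241868808596852768)) (.cons (.rf (nat_lit 271) (nat_lit 14242959524133701664)) .nil))),
 (.br (nat_lit 11) (nat_lit 0) (.cons (.rf (nat_lit 267) (nat_lit 13126066816545818656)) (.cons (.br (nat_lit 3) (nat_lit 0) (.cons (.br (nat_lit 9) (nat_lit 0) (.cons (.br (nat_lit 8) (nat_lit 1) (.cons (.br (nat_lit 7) (nat_lit 0) (.cons (.kr (nat_lit 1099511628032) (nat_lit 72057594054705152) (nat_lit 1) (nat_lit 0)) (.cons (.br (nat_lit 8) (nat_lit 0) (.cons (.ev (nat_lit 79543715839236625633447839236) (nat_lit 3)) (.cons (.rf (nat_lit 203) (nat_lit 444826816)) .nil))) (.cons (.br (nat_lit 1) (nat_lit 0) (.cons (.ev (nat_lit 79543715839236625633447839236) (nat_lit 3)) (.cons (.rf (nat_lit 203) (nat_lit 437524704)) .nil))) (.cons (.rf (nat_lit 268) (nat_lit 482283501406817312)) .nil))))) .nil)) .nil)) (.cons (.br (nat_lit 8) (nat_lit 1) (.cons (.rf (nat_lit 265) (nat_lit 14237364069863656704)) (.cons (.rf (nat_lit 265)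 (nat_lit 14237328885527153920)) .nil))) .nil))) (.cons (.br (nat_lit 3) (nat_lit 0) (.cons (.br (nat_lit 7) (nat_lit 1) (.cons (.rf (nat_lit 270) (nat_lit 14242959524133701664)) (.cons (.rf (nat_lit 270) (nat_lit 14241868808596852768)) .nil))) (.cons (.rf (nat_lit 272) (nat_lit 14242959524133701664)) (.cons (.rf (nat_lit 272) (nat_lit 13126065751393929248)) .nil)))) .nil)))),
 (.br (nat_lit 12) (nat_lit 0) (.cons (.rf (nat_lit 267) (nat_lit 14242959524133701664)) (.cons (.rf (nat_lit 273) (nat_lit 14242959524133701664)) (.cons (.rf (nat_lit 273) (nat_lit 14242958458981812256)) .nil)))),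
 (.br (nat_lit 10) (nat_lit 0) (.cons (.rf (nat_lit 274) (nat_lit 14237329985038781664)) (.cons (.rf (nat_lit 274) (nat_lit 14237329818608798944)) (.cons (.rf (nat_lit 274) (nat_lit 14237327621733027040)) .nil)))),
 (.br (nat_lit 12) (nat_lit 0) (.cons (.br (nat_lit 8) (nat_lit 0) (.cons (.br (nat_lit 6) (nat_lit 0) (.cons (.ev (nat_lit 311902916945206518430629890) (nat_lit 2)) (.cons (.rf (nat_lit 203) (nat_lit 442768416)) .nil))) (.cons (.br (nat_lit 7) (nat_lit 0) (.cons (.ev (nat_lit 310703380590943752385855490) (nat_lit 2)) (.cons (.rf (nat_lit 203) (nat_lit 443811008)) .nil))) (.cons (.ev (nat_lit 310693935713018395744010241) (nat_lit 1)) (.cons (.br (nat_lit 1) (nat_lit 0) (.cons (.ev (nat_lit 281479288455169) (nat_lit 1)) (.cons (.rf (nat_lit 203) (nat_lit 444831776)) (.cons (.br (nat_lit 6) (nat_lit 0) (.cons (.ev (nat_lit 80160268006951288788463453188) (nat_lit 3)) (.cons (.br (nat_lit 13) (nat_lit 0) (.cons (.ev (nat_lit 20361947251194274908277267562753) (nat_lit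 1)) .nil)) .nil))) .nil)))) .nil))))) .nil)),
 (.br (nat_lit 3) (nat_lit 0) (.cons (.rf (nat_lit 275) (nat_lit 14241692681820508352)) (.cons (.rf (nat_lit 275) (nat_lit 14242959524133701664)) (.cons (.br (nat_lit 10) (nat_lit 0) (.cons (.br (nat_lit 7) (nat_lit 1) (.cons (.rf (nat_lit 276) (nat_lit 14242959524133701664)) (.cons (.rf (nat_lit 276) (nat_lit 13126066816545818656)) .nil))) (.cons (.rf (nat_lit 265) (nat_lit 14241692847176749280)) (.cons (.rf (nat_lit 265) (nat_lit 14237328885527153920)) .nil)))) .nil)))),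
 (.br (nat_lit 6) (nat_lit 0) (.cons (.ev (nat_lit 1208944338697776210706433) (nat_lit 1)) (.cons (.rf (nat_lit 203) (nat_lit 442768416)) .nil))),
 (.br (nat_lit 7) (nat_lit 0) (.cons (.ev (nat_lit 310698658079501265389224193) (nat_lit 1)) (.cons (.rf (nat_lit 203) (nat_lit 410163232)) .nil))),
 (.br (nat_lit 12) (nat_lit 0) (.cons (.br (nat_lit 1) (nat_lit 0) (.cons (.rf (nat_lit 279) (nat_lit 445092485129144352)) (.cons (.rf (nat_lit 279) (nat_lit 445088086046672928)) (.cons (.ev (nat_lit 309489732187829037881688321) (nat_lit 1)) (.cons (.br (nat_lit 7) (nat_lit 0) (.cons (.rf (nat_lit 203) (nat_lit 437493952)) (.cons (.rf (nat_lit 203) (nat_lit 437524704)) (.cons (.br (nat_lit 13) (nat_lit 0) (.cons (.kr (nat_lit 72058693549555712) (nat_lit 4722366764344621924352) (nat_lit 5) (nat_lit 0)) (.cons (.kr (nat_lit 79229371440228068510306205696) (nat_lit 309489769081316090100842496) (nat_lit 2) (nat_lit 0)) .nil))) .nil)))) .nil))))) .nil)),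
 (.br (nat_lit 10) (nat_lit 0) (.cons (.br (nat_lit 11) (nat_lit 0) (.cons (.br (nat_lit 8) (nat_lit 1) (.cons (.br (nat_lit 8) (nat_lit 0) (.cons (.rf (nat_lit 278) (nat_lit 14242959524133701664)) (.cons (.rf (nat_lit 278) (nat_lit 14237330019398520000)) (.cons (.rf (nat_lit 278) (nat_lit 14241692847176749280)) (.cons (.rf (nat_lit 268) (nat_lit 482283500366629920)) .nil))))) .nil)) .nil)) (.cons (.br (nat_lit 1) (nat_lit 1) (.cons (.rf (nat_lit 280) (nat_lit 14242959524133701664)) (.cons (.rf (nat_lit 280) (nat_lit 13126066816545818656)) .nil))) .nil))),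
 (.br (nat_lit 3) (nat_lit 0) (.cons (.rf (nat_lit 275) (nat_lit 14241692681820508352)) (.cons (.rf (nat_lit 281) (nat_lit 14242959524133701664)) (.cons (.br (nat_lit 10) (nat_lit 0) (.cons (.rf (nat_lit 281) (nat_lit 14237327820375264512)) (.cons (.rf (nat_lit 277) (nat_lit 14241868602438422752)) (.cons (.rf (nat_lit 265) (nat_lit 14237328885527153920)) .nil)))) .nil)))),
 (.br (nat_lit 9) (nat_lit 0) (.cons (.rf (nat_lit 265) (nat_lit 14242818786778548256)) (.cons (.rf (nat_lit 277) (nat_lit 14242959524133701664)) (.cons (.rf (nat_lit 282) (nat_lit 14242959524133701664)) (.cons (.br (nat_lit 3) (nat_lit 0) (.cons (.rf (nat_lit 275) (nat_lit 14241692681820508352)) (.cons (.rf (nat_lit 282) (nat_lit 14242817655054665760)) (.cons (.rf (nat_lit 275) (nat_lit 14242959524133701664)) (.cons (.rf (nat_lit 265) (nat_lit 14237364069863656704)) .nil))))) .nil))))),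
 (.br (nat_lit 4) (nat_lit 0) (.cons (.rf (nat_lit 275) (nat_lit 14237329819682540736)) (.cons (.rf (nat_lit 265) (nat_lit 14241868803228143808)) (.cons (.rf (nat_lit 283) (nat_lit 14242959524133701664)) (.cons (.rf (nat_lit 283) (nat_lit 14242958458981812256)) .nil))))),
 (.br (nat_lit 5) (nat_lit 1) (.cons (.rf (nat_lit 252) (nat_lit 11443964287780896)) (.cons (.br (nat_lit 12) (nat_lit 1) (.cons (.br (nat_lit 11) (nat_lit 1) (.cons (.br (nat_lit 5) (nat_lit 0) (.cons (.rf (nat_lit 265) (nat_lit 14242959524133701664)) (.cons (.rf (nat_lit 284) (nat_lit 14242959524133701664)) (.cons (.rf (nat_lit 284) (nat_lit 14242959490847705120)) (.cons (.rf (nat_lit 284) (nat_lit 14242958392409819168)) .nil))))) .nil)) (.cons (.rf (nat_lit 74) (nat_lit 307557)) .nil))) .nil))),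
 (.br (nat_lit 4) (nat_lit 1) (.cons (.rf (nat_lit 74) (nat_lit 168034)) (.cons (.br (nat_lit 2) (nat_lit 1) (.cons (.rf (nat_lit 74) (nat_lit 166980)) (.cons (.rf (nat_lit 74) (nat_lit 299075)) (.cons (.br (nat_lit 9) (nat_lit 1) (.cons (.rf (nat_lit 252) (nat_lit 5955202276461600)) (.cons (.rf (nat_lit 252) (nat_lit 11584701642934304)) (.cons (.br (nat_lit 9) (nat_lit 1) (.cons (.rf (nat_lit 252) (nat_lit 5955202276461600)) (.cons (.rf (nat_lit 252) (nat_lit 11584701642934304)) (.cons (.br (nat_lit 5) (nat_lit 1) (.cons (.rf (nat_lit 252) (nat_lit 11443964287780896)) (.cons (.rf (nat_lit 285) (nat_lit 14242959524133701664)) (.cons (.rf (nat_lit 285) (nat_lit 13126066816545818656)) .nil)))) .nil)))) .nil)))) .nil)))) .nil))),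
 (.br (nat_lit 5) (nat_lit 0) (.cons (.rf (nat_lit 286) (nat_lit 9043125048352)) (.cons (.rf (nat_lit 286) (nat_lit 9037756339392)) (.cons (.rf (nat_lit 286) (nat_lit 9003396601056)) (.cons (.rf (nat_lit 286) (nat_lit 7903884973312)) .nil))))),
 (.br (nat_lit 7) (nat_lit 1) (.cons (.ev (nat_lit 9444877362415244804866) (nat_lit 2)) (.cons (.rf (nat_lit 117) (nat_lit 11983463522)) .nil))),
 (.br (nat_lit 3) (nat_lit 0) (.cons (.rf (nat_lit 288) (nat_lit 11584701642934304)) (.cons (.rf (nat_lit 288) (nat_lit 11583636491044896)) .nil))),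
 (.br (nat_lit 6) (nat_lit 1) (.cons (.br (nat_lit 8) (nat_lit 1) (.cons (.ev (nat_lit 1208925819897207958077441) (nat_lit 1)) (.cons (.rf (nat_lit 117) (nat_lit 11983463522)) .nil))) (.cons (.rf (nat_lit 289) (nat_lit 11584701610428448)) (.cons (.rf (nat_lit 117) (nat_lit 11983463522)) .nil)))),
 (.br (nat_lit 5) (nat_lit 0) (.cons (.rf (nat_lit 289) (nat_lit 11584701642934304)) (.cons (.rf (nat_lit 290) (nat_lit 11584701642934304)) (.cons (.rf (nat_lit 290) (nat_lit 11583636491044896)) .nil)))),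
 (.br (nat_lit 6) (nat_lit 1) (.cons (.rf (nat_lit 291) (nat_lit 11373595410597920)) (.cons (.rf (nat_lit 291) (nat_lit 2401580660992032)) (.cons (.rf (nat_lit 291) (nat_lit 2436765033048096)) (.cons (.rf (nat_lit 291) (nat_lit 11584701642934304)) (.cons (.rf (nat_lit 117) (nat_lit 11983463522)) .nil)))))),
 (.br (nat_lit 7) (nat_lit 1) (.cons (.rf (nat_lit 292) (nat_lit 10491583073978592)) (.cons (.rf (nat_lit 292) (nat_lit 10491583071883488)) (.cons (.rf (nat_lit 292) (nat_lit 10491583038330080)) (.cons (.rf (nat_lit 117) (nat_lit 11983463522)) .nil))))),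
 (.br (nat_lit 9) (nat_lit 0) (.cons (.rf (nat_lit 292) (nat_lit 10493986108180512)) (.cons (.rf (nat_lit 293) (nat_lit 11584701642934304)) (.cons (.rf (nat_lit 293) (nat_lit 11583636491044896)) .nil)))),
 (.br (nat_lit 6) (nat_lit 1) (.cons (.rf (nat_lit 294) (nat_lit 11584701642934304)) (.cons (.rf (nat_lit 292) (nat_lit 11584696272130240)) (.cons (.rf (nat_lit 292) (nat_lit 11584696238576832)) (.cons (.rf (nat_lit 294) (nat_lit 11373595410597920)) (.cons (.rf (nat_lit 117) (nat_lit 11983463522)) .nil)))))),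
 (.br (nat_lit 4) (nat_lit 0) (.cons (.br (nat_lit 6) (nat_lit 1) (.cons (.rf (nat_lit 292) (nat_lit 4688559517797568)) (.cons (.rf (nat_lit 292) (nat_lit 10493980737376448)) (.cons (.rf (nat_lit 117) (nat_lit 11983463522)) .nil)))) (.cons (.rf (nat_lit 292) (nat_lit 11582298606637280)) (.cons (.rf (nat_lit 295) (nat_lit 4686161812465888)) .nil)))),
 (.br (nat_lit 7) (nat_lit 1) (.cons (.rf (nat_lit 296) (nat_lit 2434362038684896)) (.cons (.rf (nat_lit 292) (nat_lit 11582298606637280)) (.cons (.rf (nat_lit 292) (nat_lit 11582298573083872)) (.cons (.rf (nat_lit 296) (nat_lit 2434362032399584)) (.cons (.rf (nat_lit 117) (nat_lit 11983463522)) .nil))))))]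

theorem c8 : chkAll C T R L8 (nat_lit 260) = true := by decide +kernel

theorem l8 : (nat_lit 260) + L8.length = (nat_lit 298) := by decide +kernel

/-- part of the certificates -/
def L9 : List Prf := [(.br (nat_lit 7) (nat_lit 0) (.cons (.br (nat_lit 10) (nat_lit 0) (.cons (.rf (nat_lit 292) (nat_lit 11584701642934304)) (.cons (.rf (nat_lit 295) (nat_lit 11584701642934304)) (.cons (.rf (nat_lit 297) (nat_lit 11584701642934304)) (.cons (.rf (nat_lit 297) (nat_lit 11583636491044896)) .nil))))) (.cons (.rf (nat_lit 203) (nat_lit 376643616)) .nil))),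
 (.br (nat_lit 7) (nat_lit 1) (.cons (.ev (nat_lit 309485009893403762291179521) (nat_lit 1)) (.cons (.ev (nat_lit 309489732259886631919616001) (nat_lit 1)) (.cons (.ev (nat_lit 310693935713018391449108481) (nat_lit 1)) (.cons (.rf (nat_lit 117) (nat_lit 13057205346)) .nil))))),
 (.br (nat_lit 4) (nat_lit 0) (.cons (.rf (nat_lit 299) (nat_lit 407901435565541408)) (.cons (.rf (nat_lit 299) (nat_lit 407901468851537952)) (.cons (.rf (nat_lit 299) (nat_lit 407900403699648544)) .nil)))),
 (.br (nat_lit 8) (nat_lit 1) (.cons (.rf (nat_lit 300) (nat_lit 402094908357283072)) (.cons (.rf (nat_lit 300) (nat_lit 402094908389788928)) (.cons (.rf (nat_lit 117) (nat_lit 13057205346)) .nil)))),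
 (.br (nat_lit 8) (nat_lit 1) (.cons (.rf (nat_lit 301) (nat_lit 407901468851537952)) (.cons (.rf (nat_lit 301) (nat_lit 407690362619201568)) (.cons (.rf (nat_lit 301) (nat_lit 406564462712391712)) (.cons (.rf (nat_lit 117) (nat_lit 13057205346)) .nil))))),
 (.br (nat_lit 4) (nat_lit 0) (.cons (.rf (nat_lit 300) (nat_lit 407901468819032096)) (.cons (.rf (nat_lit 300) (nat_lit 407901463480733888)) (.cons (.rf (nat_lit 302) (nat_lit 407901468851537952)) (.cons (.rf (nat_lit 302) (nat_lit 407900403699648544)) .nil))))),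
 (.br (nat_lit 11) (nat_lit 1) (.cons (.br (nat_lit 12) (nat_lit 1) (.cons (.rf (nat_lit 287) (nat_lit 9043467897888)) .nil)) .nil)),
 (.br (nat_lit 10) (nat_lit 1) (.cons (.rf (nat_lit 129) (nat_lit 12123803715)) (.cons (.rf (nat_lit 129) (nat_lit 2258801001)) (.cons (.br (nat_lit 2) (nat_lit 1) (.cons (.rf (nat_lit 304) (nat_lit 14242959524133701664)) (.cons (.rf (nat_lit 304) (nat_lit 13124976101011064864)) .nil))) .nil)))),
 (.br (nat_lit 9) (nat_lit 0) (.cons (.br (nat_lit 5) (nat_lit 0) (.cons (.br (nat_lit 8) (nat_lit 1) (.cons (.kr (nat_lit 1213648186098598331613184) (nat_lit 79537647524085682666580475904) (nat_lit 2) (nat_lit 0)) .nil)) .nil)) (.cons (.br (nat_lit 7) (nat_lit 1) (.cons (.br (nat_lit 8) (nat_lit 1) (.cons (.br (nat_lit 6) (nat_lit 0) (.cons (.br (nat_lit 7) (nat_lit 0) (.cons (.ev (nat_lit 81400635268966000763705951748) (nat_lit 3)) (.cons (.rf (nat_lit 203) (nat_lit 443752480)) .nil))) (.cons (.ev (nat_lit 4722438540467994951681) (nat_lit 1)) (.cons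 (.ev (nat_lit 310693954087703775904071681) (nat_lit 1)) (.cons (.br (nat_lit 1) (nat_lit 0) (.cons (.ev (nat_lit 1208925891673327036006401) (nat_lit 1)) (.cons (.ev (nat_lit 309489750634573115886141441) (nat_lit 1)) (.cons (.kr (nat_lit 310693935640960801706082816) (nat_lit 79228167236631383413159428096) (nat_lit 1) (nat_lit 0)) .nil)))) .nil))))) .nil)) (.cons (.rf (nat_lit 153) (nat_lit 398614856207577384)) .nil))) .nil))),
 (.br (nat_lit 1) (nat_lit 0) (.cons (.ev (nat_lit 81403053120462242915830531076) (nat_lit 3)) (.cons (.rf (nat_lit 203) (nat_lit 437525696)) .nil))),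
 (.br (nat_lit 4) (nat_lit 0) (.cons (.br (nat_lit 5) (nat_lit 0) (.cons (.br (nat_lit 8) (nat_lit 1) (.cons (.br (nat_lit 8) (nat_lit 0) (.cons (.ev (nat_lit 309489750634573115886141441) (nat_lit 1)) (.cons (.rf (nat_lit 269) (nat_lit 155698824508442656)) (.cons (.ev (nat_lit 310693954087703775904071681) (nat_lit 1)) (.cons (.br (nat_lit 1) (nat_lit 0) (.cons (.rf (nat_lit 203) (nat_lit 444800032)) (.cons (.rf (nat_lit 203) (nat_lit 444831776)) (.cons (.br (nat_lit 7) (nat_lit 0) (.cons (.rf (nat_lit 203) (nat_lit 444826816)) (.cons (.br (nat_lit 13) (nat_lit 0) (.cons (.ev (nat_lit 20361637766184453564312349311233) (nat_lit 1)) .nil)) .nil))) .nil)))) .nil))))) .nil)) .nil)) (.cons (.br (nat_lit 9) (nat_lit 0) (.cons (.br (nat_lit 8) (nat_lit 1) (.cons (.br (nat_lit 8) (nat_lit 0) (.cons (.br (nat_lit 7) (nat_lit 0) (.cons (.ev (nat_lit 313125991346028843985010690) (nat_lit 2)) (.cons (.rf (nat_lit 203) (nat_lit 443815968)) .nil))) (.cons (.rf (nat_lit 307) (nat_lit 14242959524133701664))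 (.cons (.rf (nat_lit 307) (nat_lit 2678630441402282016)) (.cons (.br (nat_lit 7) (nat_lit 0) (.cons (.rf (nat_lit 203) (nat_lit 444831776)) (.cons (.rf (nat_lit 203) (nat_lit 444826816)) (.cons (.br (nat_lit 6) (nat_lit 0) (.cons (.rf (nat_lit 203) (nat_lit 444800032)) (.cons (.br (nat_lit 13) (nat_lit 0) (.cons (.ev (nat_lit 40565439395748949254852472537858) (nat_lit 2)) .nil)) .nil))) .nil)))) .nil))))) .nil)) (.cons (.br (nat_lit 7) (nat_lit 1) (.cons (.br (nat_lit 6) (nat_lit 0) (.cons (.rf (nat_lit 257) (nat_lit 3787958336149104864)) (.cons (.br (nat_lit 8) (nat_lit 0) (.cons (.ev (nat_lit 80788909397123231480407065096) (nat_lit 4)) (.cons (.rf (nat_lit 203) (nat_lit 444826816)) .nil))) (.cons (.br (nat_lit 7) (nat_lit 0) (.cons (.zr (nat_lit 18591422216033796864) (nat_lit 1213648186098598331678723) (nat_lit 5) (nat_lit 0)) (.cons (.rf (nat_lit 203) (nat_lit 443811008)) .nil))) (.cons (.rf (nat_lit 261) (nat_lit 15394858278913681632)) .nil))))) .nil)) .nil))) .nil))),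
 (.br (nat_lit 9) (nat_lit 0) (.cons (.br (nat_lit 4) (nat_lit 0) (.cons (.br (nat_lit 8) (nat_lit 1) (.cons (.kr (nat_lit 1213648186098598331613184) (nat_lit 79537647524085682666580475904) (nat_lit 2) (nat_lit 0)) .nil)) .nil)) (.cons (.br (nat_lit 6) (nat_lit 1) (.cons (.br (nat_lit 8) (nat_lit 1) (.cons (.br (nat_lit 8) (nat_lit 0) (.cons (.rf (nat_lit 256) (nat_lit 76677988903949568)) (.cons (.ev (nat_lit 310693954087703775904071681) (nat_lit 1)) (.cons (.rf (nat_lit 254) (nat_lit 363818715747263744)) (.cons (.rf (nat_lit 261) (nat_lit 15351724436659416256)) .nil))))) .nil)) (.cons (.br (nat_lit 8) (nat_lit 1) (.cons (.kr (nat_lit 1213648186098598331613184) (nat_lit 79537647524085682666580475904) (nat_lit 2) (nat_lit 0)) .nil)) .nil))) .nil))),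
 (.br (nat_lit 3) (nat_lit 0) (.cons (.rf (nat_lit 308) (nat_lit 14242959524133701664)) (.cons (.rf (nat_lit 309) (nat_lit 14242959524133701664)) (.cons (.br (nat_lit 9) (nat_lit 0) (.cons (.rf (nat_lit 309) (nat_lit 2678630441402282016)) (.cons (.rf (nat_lit 308) (nat_lit 2678630441402282016)) (.cons (.br (nat_lit 5) (nat_lit 0) (.cons (.rf (nat_lit 309) (nat_lit 13124975030389806272)) (.cons (.br (nat_lit 4) (nat_lit 0) (.cons (.br (nat_lit 6) (nat_lit 0) (.cons (.br (nat_lit 7) (nat_lit 0) (.cons (.ev (nat_lit 620193149528145745265491970) (nat_lit 2)) (.cons (.rf (nat_lit 203) (nat_lit 443752480)) .nil))) (.cons (.br (nat_lit 1) (nat_lit 0) (.cons (.ev (nat_lit 80779247397541092079738225668) (nat_lit 3)) (.cons (.rf (nat_lit 203) (nat_lit 437493952)) .nil))) (.cons (.br (nat_lit 7) (nat_lit 0) (.cons (.ev (nat_lit 620183667901691858589516290) (nat_lit 2)) (.cons (.rf (nat_lit 203) (nat_lit 443811008)) .nil))) (.cons (.rf (nat_lit 261) (nat_lit 15394858278913681632)) .nil)))))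 .nil)) .nil))) .nil)))) .nil)))),
 (.br (nat_lit 10) (nat_lit 0) (.cons (.br (nat_lit 4) (nat_lit 0) (.cons (.rf (nat_lit 306) (nat_lit 14242959524133701664)) (.cons (.rf (nat_lit 306) (nat_lit 14242958458981812256)) .nil))) (.cons (.rf (nat_lit 310) (nat_lit 14242959524133701664)) (.cons (.rf (nat_lit 310) (nat_lit 14242958458981812256)) .nil)))),
 (.br (nat_lit 11) (nat_lit 0) (.cons (.rf (nat_lit 311) (nat_lit 14242959524133701664)) (.cons (.rf (nat_lit 311) (nat_lit 14242959490847705120)) (.cons (.rf (nat_lit 311) (nat_lit 14242958392409819168)) .nil)))),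
 (.br (nat_lit 4) (nat_lit 0) (.cons (.br (nat_lit 11) (nat_lit 0) (.cons (.br (nat_lit 8) (nat_lit 1) (.cons (.rf (nat_lit 312) (nat_lit 13116917740695857408)) .nil)) .nil)) (.cons (.br (nat_lit 8) (nat_lit 1) (.cons (.rf (nat_lit 312) (nat_lit 11605045272141664512)) (.cons (.br (nat_lit 10) (nat_lit 0) (.cons (.br (nat_lit 6) (nat_lit 0) (.cons (.br (nat_lit 8) (nat_lit 0) (.cons (.ev (nat_lit 83257583364936251387450295816) (nat_lit 4)) (.cons (.rf (nat_lit 203) (nat_lit 444800032)) .nil))) (.cons (.kr (nat_lit 1208925820178682934788096) (nat_lit 79537652246596280720006578176) (nat_lit 2) (nat_lit 0)) (.cons (.br (nat_lit 1) (nat_lit 0) (.cons (.ev (nat_lit 83267216992561296667593737736) (nat_lit 4)) (.cons (.rf (nat_lit 203) (nat_lit 437525696)) .nil))) (.cons (.br (nat_lit 1) (nat_lit 0) (.cons (.rf (nat_lit 203) (nat_lit 442736672)) (.cons (.rf (nat_lit 203) (nat_lit 442768416)) (.cons (.br (nat_lit 7) (nat_lit 0) (.cons (.rf (nat_lit 203) (nat_lit 442762464)) (.cons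 (.br (nat_lit 13) (nat_lit 0) (.cons (.ev (nat_lit 81211039016837313733251184133380) (nat_lit 3)) .nil)) .nil))) .nil)))) .nil))))) .nil)) .nil))) .nil))),
 (.br (nat_lit 3) (nat_lit 0) (.cons (.rf (nat_lit 313) (nat_lit 14242959524133701664)) (.cons (.rf (nat_lit 313) (nat_lit 14242958458981812256)) .nil))),
 (.br (nat_lit 11) (nat_lit 0) (.cons (.br (nat_lit 8) (nat_lit 1) (.cons (.br (nat_lit 7) (nat_lit 0) (.cons (.ev (nat_lit 160314477070274093585627416068) (nat_lit 3)) (.cons (.br (nat_lit 1) (nat_lit 0) (.cons (.ev (nat_lit 1213685368384495773090820) (nat_lit 3)) (.cons (.rf (nat_lit 203) (nat_lit 437493952)) .nil))) (.cons (.br (nat_lit 6) (nat_lit 0) (.cons (.ev (nat_lit 1213685368384495773090820) (nat_lit 3)) (.cons (.rf (nat_lit 203) (nat_lit 442762464)) .nil))) (.cons (.br (nat_lit 1) (nat_lit 0) (.cons (.rf (nat_lit 203) (nat_lit 443752480)) (.cons (.rf (nat_lit 203) (nat_lit 443815968)) (.cons (.br (nat_lit 6) (nat_lit 0) (.cons (.ev (nat_lit 79537666524521997839301346308)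 (nat_lit 3)) (.cons (.br (nat_lit 13) (nat_lit 0) (.cons (.ev (nat_lit 81130258593681344680650589931268) (nat_lit 3)) .nil)) .nil))) .nil)))) .nil))))) .nil)) .nil)),
 (.br (nat_lit 6) (nat_lit 0) (.cons (.rf (nat_lit 203) (nat_lit 437493952)) (.cons (.rf (nat_lit 203) (nat_lit 437525696)) (.cons (.br (nat_lit 8) (nat_lit 0) (.cons (.rf (nat_lit 203) (nat_lit 442762464)) (.cons (.kr (nat_lit 562954265165824) (nat_lit 79537647560979170809687834624) (nat_lit 3) (nat_lit 0)) .nil))) .nil)))),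
 (.br (nat_lit 10) (nat_lit 0) (.cons (.rf (nat_lit 314) (nat_lit 14237083734161630240)) (.cons (.br (nat_lit 4) (nat_lit 0) (.cons (.rf (nat_lit 315) (nat_lit 14242959524133701664)) (.cons (.br (nat_lit 8) (nat_lit 1) (.cons (.br (nat_lit 6) (nat_lit 1) (.cons (.br (nat_lit 1) (nat_lit 0) (.cons (.br (nat_lit 8) (nat_lit 0) (.cons (.ev (nat_lit 80775615971502184139308663300) (nat_lit 3)) (.cons (.rf (nat_lit 203) (nat_lit 444800032)) .nil))) (.cons (.kr (nat_lit 309485009821345068724781312) (nat_lit 79228162514336395187581878272) (nat_lit 1) (nat_lit 0)) (.cons (.br (nat_lit 6) (nat_lit 0) (.cons (.ev (nat_lit 80775615971502184139308663300) (nat_lit 3)) (.cons (.rf (nat_lit 203) (nat_lit 442768416)) .nil))) (.cons (.rf (nat_lit 316) (nat_lit 493858305440582043680)) .nil))))) .nil)) (.cons (.rf (nat_lit 315) (nat_lit 13124973697876202720)) .nil))) .nil))) (.cons (.br (nat_lit 11) (nat_lit 0) (.cons (.br (nat_lit 3) (nat_lit 0) (.cons (.rf (nat_lit 312) (nat_lit 6093766327663660256))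 (.cons (.br (nat_lit 7) (nat_lit 1) (.cons (.br (nat_lit 6) (nat_lit 0) (.cons (.rf (nat_lit 256) (nat_lit 76916618354273472)) (.cons (.ev (nat_lit 282578800148481) (nat_lit 1)) (.cons (.ev (nat_lit 1213648186378978108375041) (nat_lit 1)) (.cons (.br (nat_lit 7) (nat_lit 0) (.cons (.rf (nat_lit 203) (nat_lit 442736672)) (.cons (.rf (nat_lit 203) (nat_lit 442762464)) (.cons (.br (nat_lit 1) (nat_lit 0) (.cons (.rf (nat_lit 203) (nat_lit 443815968)) (.cons (.br (nat_lit 13) (nat_lit 0) (.cons (.ev (nat_lit 20361638975110273460412205760513) (nat_lit 1)) .nil)) .nil))) .nil)))) .nil))))) .nil)) .nil))) (.cons (.rf (nat_lit 312) (nat_lit 13124976061181957344)) (.cons (.rf (nat_lit 312) (nat_lit 13116917740695857408)) .nil)))) .nil)))),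
 (.br (nat_lit 5) (nat_lit 0) (.cons (.rf (nat_lit 314) (nat_lit 14242959524133701664)) (.cons (.rf (nat_lit 317) (nat_lit 14242959524133701664)) (.cons (.rf (nat_lit 317) (nat_lit 14242958458981812256)) .nil)))),
 (.br (nat_lit 11) (nat_lit 0) (.cons (.br (nat_lit 5) (nat_lit 0) (.cons (.br (nat_lit 8) (nat_lit 1) (.cons (.rf (nat_lit 318) (nat_lit 13124974795240346880)) .nil)) .nil)) (.cons (.br (nat_lit 8) (nat_lit 1) (.cons (.rf (nat_lit 153) (nat_lit 336939091437360231)) (.cons (.rf (nat_lit 153) (nat_lit 84737340478892161)) .nil))) .nil))),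
 (.br (nat_lit 4) (nat_lit 0) (.cons (.rf (nat_lit 319) (nat_lit 14242959524133701664)) (.cons (.rf (nat_lit 318) (nat_lit 10560246277082517696)) (.cons (.br (nat_lit 5) (nat_lit 0) (.cons (.rf (nat_lit 318) (nat_lit 3614323632906831904)) (.cons (.rf (nat_lit 319) (nat_lit 2678630469319569600)) (.cons (.br (nat_lit 10) (nat_lit 0) (.cons (.br (nat_lit 11) (nat_lit 0) (.cons (.br (nat_lit 6) (nat_lit 0) (.cons (.br (nat_lit 7) (nat_lit 0) (.cons (.ev (nat_lit 80162695303180492307400425988) (nat_lit 3)) (.cons (.rf (nat_lit 203) (nat_lit 443752480)) .nil))) (.cons (.ev (nat_lit 1213648186378978108375041) (nat_lit 1)) (.cons (.ev (nat_lit 282578800148481) (nat_lit 1)) (.cons (.br (nat_lit 7) (nat_lit 0) (.cons (.ev (nat_lit 309489732187829037898400001) (nat_lit 1)) (.cons (.rf (nat_lit 203) (nat_lit 442762464)) (.cons (.br (nat_lit 8) (nat_lit 0) (.cons (.ev (nat_lit 310693935640959697916330241) (nat_lit 1)) (.cons (.br (nat_lit 1) (nat_lit 0) (.cons (.zr (nat_lit 55556686478219149575)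 (nat_lit 162259276833935729875551478874112) (nat_lit 15) (nat_lit 0)) .nil)) .nil))) .nil)))) .nil))))) .nil)) (.cons (.rf (nat_lit 151) (nat_lit 150036444006976577)) .nil))) .nil)))) .nil)))),
 (.br (nat_lit 7) (nat_lit 0) (.cons (.ev (nat_lit 80156631766240395997365666050) (nat_lit 2)) (.cons (.rf (nat_lit 203) (nat_lit 443752480)) .nil))),
 (.br (nat_lit 3) (nat_lit 0) (.cons (.rf (nat_lit 312) (nat_lit 3614323666192828448)) (.cons (.rf (nat_lit 318) (nat_lit 2671065829559405760)) (.cons (.rf (nat_lit 320) (nat_lit 14242959524133701664)) (.cons (.br (nat_lit 4) (nat_lit 0) (.cons (.rf (nat_lit 320) (nat_lit 10568972001100247232)) (.cons (.rf (nat_lit 318) (nat_lit 10560246277082517696)) (.cons (.rf (nat_lit 312) (nat_lit 10560246442438758624)) (.cons (.br (nat_lit 10) (nat_lit 0) (.cons (.br (nat_lit 6) (nat_lit 1) (.cons (.rf (nat_lit 320) (nat_lit 3614322534468945952)) (.cons (.br (nat_lit 5) (nat_lit 0) (.cons (.br (nat_lit 6) (nat_lit 0) (.cons (.rf (nat_lit 321) (nat_lit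 14242959524133701664)) (.cons (.rf (nat_lit 321) (nat_lit 6102484430245670080)) (.cons (.ev (nat_lit 282578800148481) (nat_lit 1)) (.cons (.rf (nat_lit 316) (nat_lit 491230278065568525504)) .nil))))) .nil)) .nil))) (.cons (.rf (nat_lit 320) (nat_lit 4725755067078419680)) (.cons (.rf (nat_lit 318) (nat_lit 4725760392837866720)) .nil)))) .nil))))) .nil))))),
 (.br (nat_lit 9) (nat_lit 0) (.cons (.rf (nat_lit 318) (nat_lit 14242959524133701664)) (.cons (.rf (nat_lit 312) (nat_lit 14237083728792921280)) (.cons (.rf (nat_lit 322) (nat_lit 14242959524133701664)) (.cons (.rf (nat_lit 322) (nat_lit 14242958458981812256)) .nil))))),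
 (.br (nat_lit 3) (nat_lit 0) (.cons (.rf (nat_lit 178) (nat_lit 12466373600096550)) (.cons (.br (nat_lit 5) (nat_lit 0) (.cons (.br (nat_lit 8) (nat_lit 1) (.cons (.ev (nat_lit 80781636988622598559062491140) (nat_lit 3)) .nil)) (.cons (.br (nat_lit 7) (nat_lit 1) (.cons (.zr (nat_lit 37038166285448380928) (nat_lit 310693935640960801706082307) (nat_lit 5) (nat_lit 0)) .nil)) .nil))) .nil))),
 (.br (nat_lit 11) (nat_lit 0) (.cons (.rf (nat_lit 324) (nat_lit 14242959524133701664)) (.cons (.rf (nat_lit 324) (nat_lit 14242958458981812256)) .nil))),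
 (.br (nat_lit 5) (nat_lit 0) (.cons (.br (nat_lit 12) (nat_lit 0) (.cons (.rf (nat_lit 178) (nat_lit 5959497012292673)) (.cons (.br (nat_lit 7) (nat_lit 1) (.cons (.br (nat_lit 8) (nat_lit 1) (.cons (.zr (nat_lit 37038166285448380928) (nat_lit 309489732187827942665027587) (nat_lit 5) (nat_lit 0)) .nil)) (.cons (.br (nat_lit 3) (nat_lit 0) (.cons (.ev (nat_lit 80779228581716332840979857412) (nat_lit 3)) .nil)) .nil))) .nil))) (.cons (.kr (nat_lit 4722366482869645279232) (nat_lit 1208925819615728686333952) (nat_lit 2) (nat_lit 0)) (.cons (.br (nat_lit 7) (nat_lit 1) (.cons (.br (nat_lit 8) (nat_lit 1) (.cons (.rf (nat_lit 178) (nat_lit 10321226388025665)) (.cons (.br (nat_lit 6) (nat_lit 1) (.cons (.ev (nat_lit 80776820175098301897096233988) (nat_lit 3)) .nil)) .nil))) (.cons (.br (nat_lit 8) (nat_lit 1) (.cons (.rf (nat_lit 178) (nat_lit 10312705441337665)) (.cons (.br (nat_lit 6) (nat_lit 1) (.cons (.zr (nat_lit 37038166285448380928) (nat_lit 310693935640960801706082307)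 (nat_lit 5) (nat_lit 0)) .nil)) .nil))) (.cons (.br (nat_lit 8) (nat_lit 1) (.cons (.rf (nat_lit 325) (nat_lit 4982219280987042016)) (.cons (.br (nat_lit 6) (nat_lit 1) (.cons (.zr (nat_lit 37038166285448380928) (nat_lit 309489732187827942665027587) (nat_lit 5) (nat_lit 0)) .nil)) .nil))) .nil)))) .nil))))]

theorem c9 : chkAll C T R L9 (nat_lit 298) = true := by decide +kernel

theorem l9 : (nat_lit 298) + L9.length = (nat_lit 327) := by decide +kernel

/-- part of the certificates -/
def L10 : List Prf := [(.br (nat_lit 9) (nat_lit 0) (.cons (.rf (nat_lit 325) (nat_lit 14242959524133701664)) (.cons (.rf (nat_lit 326) (nat_lit 14242959524133701664)) (.cons (.rf (nat_lit 326) (nat_lit 14242958458981812256)) .nil)))),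
 (.br (nat_lit 3) (nat_lit 0) (.cons (.rf (nat_lit 327) (nat_lit 13116918879935932448)) (.cons (.br (nat_lit 5) (nat_lit 0) (.cons (.br (nat_lit 9) (nat_lit 0) (.cons (.kr (nat_lit 4722366482869645279232) (nat_lit 1208925819615728686333952) (nat_lit 2) (nat_lit 0)) (.cons (.rf (nat_lit 327) (nat_lit 11606205092596976864)) .nil))) (.cons (.rf (nat_lit 327) (nat_lit 2669902347644473568)) .nil))) (.cons (.br (nat_lit 5) (nat_lit 0) (.cons (.br (nat_lit 6) (nat_lit 1) (.cons (.kr (nat_lit 4722366482869645279232) (nat_lit 1208925819615728686333952) (nat_lit 2) (nat_lit 0)) (.cons (.rf (nat_lit 327) (nat_lit 3605316466938095648)) (.cons (.rf (nat_lit 327) (nat_lit 4731357111135864864)) .nil)))) (.cons (.br (nat_lit 11) (nat_lit 0) (.cons (.rf (nat_lit 327) (nat_lit 3605316466938095648)) (.cons (.rf (nat_lit 166) (nat_lit 13867110820324519)) .nil))) (.cons (.rf (nat_lit 327) (nat_lit 2705895959216559360)) .nil)))) .nil)))),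
 (.br (nat_lit 4) (nat_lit 0) (.cons (.rf (nat_lit 327) (nat_lit 14242959524133701664)) (.cons (.rf (nat_lit 328) (nat_lit 14242959524133701664)) (.cons (.rf (nat_lit 328) (nat_lit 14242958458981812256)) .nil)))),
 (.br (nat_lit 11) (nat_lit 0) (.cons (.rf (nat_lit 166) (nat_lit 6019146792111233)) (.cons (.br (nat_lit 5) (nat_lit 0) (.cons (.rf (nat_lit 167) (nat_lit 110631040169939238)) (.cons (.rf (nat_lit 329) (nat_lit 14172060610231112960)) .nil))) .nil))),
 (.br (nat_lit 9) (nat_lit 0) (.cons (.rf (nat_lit 330) (nat_lit 14242959524133701664)) (.cons (.rf (nat_lit 329) (nat_lit 12875868343527154912)) (.cons (.br (nat_lit 11) (nat_lit 0) (.cons (.rf (nat_lit 330) (nat_lit 14170972298837856288)) (.cons (.rf (nat_lit 329) (nat_lit 10570095703057575136)) (.cons (.kr (nat_lit 4722366482869645279232) (nat_lit 309485009821345073019748352) (nat_lit 2) (nat_lit 0)) .nil)))) .nil)))),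
 (.br (nat_lit 12) (nat_lit 0) (.cons (.rf (nat_lit 329) (nat_lit 10534104488077240512)) (.cons (.rf (nat_lit 331) (nat_lit 14242959524133701664)) (.cons (.rf (nat_lit 331) (nat_lit 14242958458981812256)) .nil)))),
 (.br (nat_lit 3) (nat_lit 0) (.cons (.rf (nat_lit 329) (nat_lit 6164627692772984864)) (.cons (.rf (nat_lit 332) (nat_lit 12864963586046430400)) (.cons (.rf (nat_lit 329) (nat_lit 10561369979047972064)) (.cons (.br (nat_lit 8) (nat_lit 1) (.cons (.rf (nat_lit 329) (nat_lit 10526467080829603072)) (.cons (.rf (nat_lit 332) (nat_lit 11606205091523235072)) (.cons (.br (nat_lit 12) (nat_lit 0) (.cons (.rf (nat_lit 332) (nat_lit 4731357111135864864)) (.cons (.rf (nat_lit 329) (nat_lit 10534104488077240512)) (.cons (.kr (nat_lit 79228162514264337593560727552) (nat_lit 309485009821345073019748352) (nat_lit 3) (nat_lit 0)) .nil)))) (.cons (.br (nat_lit 7) (nat_lit 1) (.cons (.rf (nat_lit 332) (nat_lit 2669902347644473568)) (.cons (.rf (nat_lit 329) (nat_lit 14205872792818258144))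 (.cons (.br (nat_lit 5) (nat_lit 0) (.cons (.zr (nat_lit 79228162588339544268828837888) (nat_lit 930872881103266663597342726) (nat_lit 10) (nat_lit 0)) (.cons (.br (nat_lit 1) (nat_lit 1) (.cons (.ev (nat_lit 81403043749658677619093341188) (nat_lit 3)) .nil)) .nil))) .nil)))) .nil))))) .nil))))),
 (.br (nat_lit 4) (nat_lit 0) (.cons (.rf (nat_lit 332) (nat_lit 14242959524133701664)) (.cons (.rf (nat_lit 329) (nat_lit 14170972293469147328)) (.cons (.rf (nat_lit 333) (nat_lit 14242959524133701664)) (.cons (.rf (nat_lit 333) (nat_lit 14242958458981812256)) .nil))))),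
 (.br (nat_lit 2) (nat_lit 0) (.cons (.kr (nat_lit 1208925819614629174771712) (nat_lit 18446744078004518912) (nat_lit 2) (nat_lit 0)) (.cons (.br (nat_lit 11) (nat_lit 1) (.cons (.rf (nat_lit 167) (nat_lit 335737255333302347)) (.cons (.rf (nat_lit 167) (nat_lit 263681860385673291)) .nil))) .nil))),
 (.br (nat_lit 12) (nat_lit 0) (.cons (.br (nat_lit 6) (nat_lit 1) (.cons (.rf (nat_lit 334) (nat_lit 6164627692772984864)) (.cons (.rf (nat_lit 335) (nat_lit 13909139051908161)) (.cons (.rf (nat_lit 329) (nat_lit 12875870741192647872)) (.cons (.rf (nat_lit 329) (nat_lit 10570098100723068096)) .nil))))) (.cons (.rf (nat_lit 329) (nat_lit 10534102090411747552)) (.cons (.rf (nat_lit 334) (nat_lit 10534102090411747552)) .nil)))),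
 (.br (nat_lit 4) (nat_lit 0) (.cons (.rf (nat_lit 336) (nat_lit 14242959524133701664)) (.cons (.br (nat_lit 12) (nat_lit 0) (.cons (.rf (nat_lit 336) (nat_lit 4731357111135864864)) (.cons (.rf (nat_lit 336) (nat_lit 2425584465297576128)) (.cons (.rf (nat_lit 329) (nat_lit 10534102090411747552)) (.cons (.rf (nat_lit 334) (nat_lit 10534102090411747552)) .nil))))) (.cons (.rf (nat_lit 329) (nat_lit 14170969895803654368)) (.cons (.rf (nat_lit 334) (nat_lit 10813325267568765152)) .nil))))),
 (.br (nat_lit 8) (nat_lit 0) (.cons (.br (nat_lit 10) (nat_lit 0) (.cons (.rf (nat_lit 329) (nat_lit 14242959524133701664)) (.cons (.rf (nat_lit 334) (nat_lit 14242959524133701664)) (.cons (.rf (nat_lit 337) (nat_lit 14242959524133701664)) (.cons (.rf (nat_lit 337) (nat_lit 14242958458981812256)) .nil))))) (.cons (.rf (nat_lit 203) (nat_lit 444800032)) .nil))),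
 (.br (nat_lit 3) (nat_lit 0) (.cons (.rf (nat_lit 178) (nat_lit 10321226385928513)) (.cons (.br (nat_lit 12) (nat_lit 0) (.cons (.zr (nat_lit 1208926108970905250037767) (nat_lit 162339123971192003386147805855744) (nat_lit 15) (nat_lit 0)) (.cons (.br (nat_lit 4) (nat_lit 0) (.cons (.ev (nat_lit 40565129905980012051742851072770) (nat_lit 2)) .nil)) .nil))) .nil))),
 (.br (nat_lit 3) (nat_lit 0) (.cons (.rf (nat_lit 178) (nat_lit 10312705439240513)) (.cons (.br (nat_lit 8) (nat_lit 1) (.cons (.zr (nat_lit 309485083608322463074616327) (nat_lit 162259278038139183006211513647104) (nat_lit 15) (nat_lit 0)) (.cons (.br (nat_lit 6) (nat_lit 1) (.cons (.ev (nat_lit 40565131110183465184601892389634) (nat_lit 2)) .nil)) .nil))) .nil))),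
 (.br (nat_lit 7) (nat_lit 1) (.cons (.rf (nat_lit 340) (nat_lit 484346703027584206880)) (.cons (.rf (nat_lit 339) (nat_lit 483220662350100441120)) (.cons (.rf (nat_lit 340) (nat_lit 493858305440582043680)) (.cons (.rf (nat_lit 339) (nat_lit 492732264763098277920)) .nil))))),
 (.br (nat_lit 9) (nat_lit 0) (.cons (.kr (nat_lit 4722366482869645213952) (nat_lit 1208925819896104151416832) (nat_lit 1) (nat_lit 0)) (.cons (.rf (nat_lit 341) (nat_lit 493858305440582043680)) (.cons (.rf (nat_lit 341) (nat_lit 493858304375430154272)) .nil)))),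
 (.br (nat_lit 5) (nat_lit 0) (.cons (.rf (nat_lit 342) (nat_lit 493858305440582043680)) (.cons (.rf (nat_lit 342) (nat_lit 493858305407296047136)) (.cons (.rf (nat_lit 342) (nat_lit 493858304308858161184)) .nil)))),
 (.br (nat_lit 8) (nat_lit 1) (.cons (.ev (nat_lit 81129950341190800390016054132740) (nat_lit 3)) (.cons (.rf (nat_lit 343) (nat_lit 493857213585706554624)) (.cons (.rf (nat_lit 343) (nat_lit 492491215523769623808)) .nil)))),
 (.br (nat_lit 7) (nat_lit 1) (.cons (.br (nat_lit 9) (nat_lit 0) (.cons (.ev (nat_lit 81129950341080119925573796824580) (nat_lit 3)) (.cons (.rf (nat_lit 344) (nat_lit 493858305440582043680)) .nil))) (.cons (.rf (nat_lit 343) (nat_lit 493787408891058951392)) (.cons (.rf (nat_lit 335) (nat_lit 12563433494220902)) (.cons (.rf (nat_lit 343) (nat_lit 490185443982811671776)) .nil))))),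
 (.br (nat_lit 11) (nat_lit 0) (.cons (.rf (nat_lit 343) (nat_lit 493823402543437416480)) (.cons (.rf (nat_lit 345) (nat_lit 493858305440582043680)) (.cons (.rf (nat_lit 345) (nat_lit 493858304375430154272)) .nil)))),
 (.br (nat_lit 4) (nat_lit 0) (.cons (.rf (nat_lit 346) (nat_lit 490428673581682600128)) (.cons (.rf (nat_lit 343) (nat_lit 493786318209917489344)) (.cons (.rf (nat_lit 343) (nat_lit 490176718258802068704)) (.cons (.br (nat_lit 12) (nat_lit 0) (.cons (.rf (nat_lit 346) (nat_lit 490149450404525582528)) (.cons (.rf (nat_lit 343) (nat_lit 490149450404525582528)) (.cons (.br (nat_lit 11) (nat_lit 0) (.cons (.rf (nat_lit 343) (nat_lit 493823402543437416480)) (.cons (.rf (nat_lit 346) (nat_lit 485500750432064309280)) (.cons (.br (nat_lit 1) (nat_lit 1) (.cons (.ev (nat_lit 81210414002280877340577088275460) (nat_lit 3)) (.cons (.br (nat_lit 5) (nat_lit 0) (.cons (.ev (nat_lit 40565132323868544206198632612610) (nat_lit 2)) .nil)) .nil))) .nil)))) (.cons (.rf (nat_lit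 346) (nat_lit 492383234521545451712)) .nil))))) .nil))))),
 (.br (nat_lit 3) (nat_lit 0) (.cons (.rf (nat_lit 343) (nat_lit 485779973609221326880)) (.cons (.rf (nat_lit 346) (nat_lit 493858305440582043680)) (.cons (.rf (nat_lit 347) (nat_lit 493858305440582043680)) (.cons (.rf (nat_lit 347) (nat_lit 493858304375430154272)) .nil))))),
 (.br (nat_lit 10) (nat_lit 1) (.cons (.br (nat_lit 11) (nat_lit 1) (.cons (.rf (nat_lit 30) (nat_lit 9835752770)) (.cons (.br (nat_lit 2) (nat_lit 1) (.cons (.br (nat_lit 12) (nat_lit 0) (.cons (.rf (nat_lit 312) (nat_lit 14242959524133701664)) (.cons (.rf (nat_lit 323) (nat_lit 14242959524133701664)) (.cons (.rf (nat_lit 323) (nat_lit 14242959490847705120)) (.cons (.rf (nat_lit 323) (nat_lit 14242958392409819168)) .nil))))) .nil)) .nil))) (.cons (.br (nat_lit 2) (nat_lit 1) (.cons (.br (nat_lit 12) (nat_lit 1) (.cons (.br (nat_lit 1) (nat_lit 0) (.cons (.rf (nat_lit 338) (nat_lit 14242959524133701664)) (.cons (.rf (nat_lit 338) (nat_lit 14242959490847705120))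 (.cons (.rf (nat_lit 338) (nat_lit 14242958392409819168)) (.cons (.br (nat_lit 6) (nat_lit 0) (.cons (.rf (nat_lit 203) (nat_lit 437493952)) (.cons (.rf (nat_lit 203) (nat_lit 437525696)) (.cons (.br (nat_lit 8) (nat_lit 0) (.cons (.rf (nat_lit 203) (nat_lit 442762464)) (.cons (.br (nat_lit 7) (nat_lit 0) (.cons (.br (nat_lit 10) (nat_lit 0) (.cons (.rf (nat_lit 343) (nat_lit 493858305440582043680)) (.cons (.rf (nat_lit 348) (nat_lit 493858305440582043680)) (.cons (.rf (nat_lit 348) (nat_lit 493858305407296047136)) (.cons (.rf (nat_lit 348) (nat_lit 493858304308858161184)) .nil))))) .nil)) .nil))) .nil)))) .nil))))) .nil)) (.cons (.rf (nat_lit 30) (nat_lit 5673988170)) .nil))) .nil))),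
 (.br (nat_lit 5) (nat_lit 1) (.cons (.rf (nat_lit 287) (nat_lit 9043223613472)) (.cons (.br (nat_lit 9) (nat_lit 1) (.cons (.br (nat_lit 10) (nat_lit 1) (.cons (.br (nat_lit 1) (nat_lit 0) (.cons (.rf (nat_lit 298) (nat_lit 11584701642934304)) (.cons (.rf (nat_lit 298) (nat_lit 11584668356937760)) (.cons (.rf (nat_lit 298) (nat_lit 11583569919051808)) (.cons (.br (nat_lit 7) (nat_lit 0) (.cons (.rf (nat_lit 203) (nat_lit 370385088)) (.cons (.rf (nat_lit 203) (nat_lit 370415840)) (.cons (.br (nat_lit 8) (nat_lit 0) (.cons (.rf (nat_lit 203) (nat_lit 376702144)) (.cons (.br (nat_lit 11) (nat_lit 0) (.cons (.br (nat_lit 5) (nat_lit 0) (.cons (.rf (nat_lit 300) (nat_lit 407901468851537952)) (.cons (.rf (nat_lit 303) (nat_lit 407901468851537952)) (.cons (.rf (nat_lit 303) (nat_lit 407901435565541408)) (.cons (.rf (nat_lit 303) (nat_lit 407900337127655456)) .nil))))) .nil)) .nil))) .nil)))) .nil))))) (.cons (.rf (nat_lit 129) (nat_lit 12156309571)) .nil))) (.cons (.rf (nat_lit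 74) (nat_lit 174372)) (.cons (.rf (nat_lit 305) (nat_lit 407901468851537952)) .nil)))) (.cons (.br (nat_lit 9) (nat_lit 1) (.cons (.rf (nat_lit 305) (nat_lit 398753532241651744)) (.cons (.rf (nat_lit 287) (nat_lit 9043398757408)) (.cons (.rf (nat_lit 287) (nat_lit 9043432344608)) (.cons (.br (nat_lit 2) (nat_lit 1) (.cons (.rf (nat_lit 349) (nat_lit 14242959524133701664)) (.cons (.rf (nat_lit 349) (nat_lit 14208056626989074464)) (.cons (.br (nat_lit 2) (nat_lit 1) (.cons (.rf (nat_lit 349) (nat_lit 14242959524133701664)) (.cons (.rf (nat_lit 349) (nat_lit 14208056626989074464)) .nil))) .nil)))) .nil))))) .nil)))),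
 (.br (nat_lit 5) (nat_lit 0) (.cons (.rf (nat_lit 350) (nat_lit 11584701542274080)) (.cons (.rf (nat_lit 350) (nat_lit 11584696173565120)) (.cons (.rf (nat_lit 350) (nat_lit 11584661813826784)) (.cons (.rf (nat_lit 350) (nat_lit 11583562302199040)) .nil))))),
 (.br (nat_lit 0) (nat_lit 0) (.cons (.rf (nat_lit 194) (nat_lit 32)) (.cons (.br (nat_lit 1) (nat_lit 1) (.cons (.br (nat_lit 2) (nat_lit 1) (.cons (.br (nat_lit 3) (nat_lit 1) (.cons (.br (nat_lit 3) (nat_lit 1) (.cons (.br (nat_lit 0) (nat_lit 0) (.cons (.rf (nat_lit 194) (nat_lit 192)) (.cons (.br (nat_lit 0) (nat_lit 0) (.cons (.rf (nat_lit 194) (nat_lit 224)) (.cons (.br (nat_lit 0) (nat_lit 0) (.cons (.rf (nat_lit 194) (nat_lit 256)) (.cons (.br (nat_lit 4) (nat_lit 1) (.cons (.rf (nat_lit 287) (nat_lit 9043190060064)) (.cons (.rf (nat_lit 287) (nat_lit 9043225708576)) (.cons (.br (nat_lit 4) (nat_lit 1) (.cons (.rf (nat_lit 287) (nat_lit 9043190060064)) (.cons (.rf (nat_lit 287) (nat_lit 9043225708576)) (.cons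 (.br (nat_lit 5) (nat_lit 1) (.cons (.rf (nat_lit 287) (nat_lit 9043223613472)) (.cons (.rf (nat_lit 351) (nat_lit 11584701542274080)) (.cons (.rf (nat_lit 351) (nat_lit 10493986007520288)) (.cons (.br (nat_lit 5) (nat_lit 1) (.cons (.rf (nat_lit 287) (nat_lit 9043223613472)) (.cons (.rf (nat_lit 351) (nat_lit 12710601450164256)) (.cons (.rf (nat_lit 351) (nat_lit 12745785822253088)) (.cons (.br (nat_lit 2) (nat_lit 1) (.cons (.rf (nat_lit 351) (nat_lit 11584701642934304)) (.cons (.rf (nat_lit 351) (nat_lit 10493986108180512)) (.cons (.rf (nat_lit 351) (nat_lit 13906870168291360)) (.cons (.rf (nat_lit 351) (nat_lit 12816154633537568)) .nil))))) .nil))))) .nil))))) .nil)))) .nil)))) .nil))) .nil))) .nil))) .nil)) .nil)) .nil)) .nil)) .nil)))]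

theorem c10 : chkAll C T R L10 (nat_lit 327) = true := by decide +kernel

theorem l10 : (nat_lit 327) + L10.length = (nat_lit 353) := by decide +kernel

end Pool.Agent.H93.Neg.Q14_0_8_2_4_0
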