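import Pool.Agent.H93.Neg.TabQ14_2_4_3_5_0

/-!
Certificates.
-/

set_option autoImplicit false
set_option maxRecDepth 100000
set_option linter.all false

namespace Pool.Agent.H93.Neg.Q14_2_4_3_5_0

/-- part of the certificates -/
def L0 : List Prf := [(.br (nat_lit 6) (nat_lit 1) (.cons (.br (nat_lit 6) (nat_lit 0) (.cons (.kr (nat_lit 281474976776192) (nat_lit 1103806595072) (nat_lit 2) (nat_lit 0)) (.cons (.br (nat_lit 7) (nat_lit 1) (.cons (.br (nat_lit 7) (nat_lit 0) (.cons (.kr (nat_lit 72057594037993472) (nat_lit 1103806595072) (nat_lit 2) (nat_lit 0)) (.cons (.kr (nat_lit 281474976710656) (nat_lit 72057594037927936) (nat_lit 6) (nat_lit 0)) .nil))) .nil)) .nil))) .nil)),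
 (.br (nat_lit 3) (nat_lit 1) (.cons (.kr (nat_lit 65536) (nat_lit 4294967296) (nat_lit 2) (nat_lit 0)) (.cons (.br (nat_lit 5) (nat_lit 1) (.cons (.br (nat_lit 5) (nat_lit 1) (.cons (.br (nat_lit 4) (nat_lit 0) (.cons (.br (nat_lit 5) (nat_lit 1) (.cons (.br (nat_lit 6) (nat_lit 1) (.cons (.rf (nat_lit 0) (nat_lit 325702574508064)) (.cons (.rf (nat_lit 0) (nat_lit 255402549807136)) .nil))) .nil)) .nil)) .nil)) .nil)) .nil))),
 (.br (nat_lit 2) (nat_lit 1) (.cons (.br (nat_lit 3) (nat_lit 1) (.cons (.br (nat_lit 4) (nat_lit 1) (.cons (.br (nat_lit 4) (nat_lit 1) .nil) .nil)) .nil)) .nil)),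
 (.br (nat_lit 6) (nat_lit 1) (.cons (.br (nat_lit 7) (nat_lit 1) (.cons (.kr (nat_lit 1208925819896104151482368) (nat_lit 72058697844523008) (nat_lit 2) (nat_lit 0)) .nil)) .nil)),
 (.br (nat_lit 6) (nat_lit 1) (.cons (.rf (nat_lit 3) (nat_lit 11584701642934304)) (.cons (.br (nat_lit 6) (nat_lit 1) (.cons (.rf (nat_lit 3) (nat_lit 11584701642934304)) .nil)) .nil))),
 (.br (nat_lit 10) (nat_lit 1) (.cons (.rf (nat_lit 4) (nat_lit 11584701642934304)) (.cons (.br (nat_lit 10) (nat_lit 1) (.cons (.rf (nat_lit 4) (nat_lit 11584701642934304)) .nil)) .nil))),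
 (.br (nat_lit 7) (nat_lit 0) (.cons (.br (nat_lit 9) (nat_lit 1) (.cons (.br (nat_lit 10) (nat_lit 1) (.cons (.rf (nat_lit 4) (nat_lit 11584701642934304)) (.cons (.rf (nat_lit 5) (nat_lit 11584701642934304)) (.cons (.br (nat_lit 10) (nat_lit 1) (.cons (.rf (nat_lit 4) (nat_lit 11584701642934304)) (.cons (.rf (nat_lit 5) (nat_lit 11584701642934304)) .nil))) .nil)))) .nil)) .nil)),
 (.br (nat_lit 3) (nat_lit 1) (.cons (.br (nat_lit 4) (nat_lit 1) (.cons (.kr (nat_lit 16777216) (nat_lit 4294967296) (nat_lit 3) (nat_lit 0)) .nil)) .nil)),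
 (.br (nat_lit 6) (nat_lit 1) (.cons (.rf (nat_lit 7) (nat_lit 11046950018)) (.cons (.br (nat_lit 7) (nat_lit 1) (.cons (.rf (nat_lit 7) (nat_lit 11046950018)) (.cons (.kr (nat_lit 1208925819614629174771712) (nat_lit 1103806595072) (nat_lit 2) (nat_lit 0)) .nil))) .nil))),
 (.br (nat_lit 10) (nat_lit 1) (.cons (.rf (nat_lit 8) (nat_lit 11584701642934304)) (.cons (.br (nat_lit 10) (nat_lit 1) (.cons (.kr (nat_lit 1208925819614629174771712) (nat_lit 1103806595072) (nat_lit 2) (nat_lit 0)) .nil)) .nil))),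
 (.br (nat_lit 5) (nat_lit 0) (.cons (.br (nat_lit 6) (nat_lit 0) (.cons (.rf (nat_lit 6) (nat_lit 9043225708576)) (.cons (.br (nat_lit 7) (nat_lit 0) (.cons (.rf (nat_lit 6) (nat_lit 9009939712032)) (.cons (.br (nat_lit 8) (nat_lit 1) (.cons (.br (nat_lit 10) (nat_lit 1) (.cons (.rf (nat_lit 8) (nat_lit 11584701642934304)) (.cons (.rf (nat_lit 9) (nat_lit 11584701642934304)) (.cons (.rf (nat_lit 9) (nat_lit 11584668356937760)) .nil)))) .nil)) .nil))) .nil))) .nil)),
 (.br (nat_lit 4) (nat_lit 1) (.cons (.br (nat_lit 5) (nat_lit 1) .nil) .nil)),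
 (.br (nat_lit 4) (nat_lit 1) (.cons (.rf (nat_lit 11) (nat_lit 4294688)) (.cons (.br (nat_lit 4) (nat_lit 1) (.cons (.rf (nat_lit 11) (nat_lit 4294688)) .nil)) .nil))),
 (.br (nat_lit 9) (nat_lit 0) (.cons (.kr (nat_lit 4722366482869645279232) (nat_lit 1103806595072) (nat_lit 2) (nat_lit 0)) (.cons (.br (nat_lit 6) (nat_lit 0) (.cons (.br (nat_lit 7) (nat_lit 0) (.cons (.kr (nat_lit 4722366764344621989888) (nat_lit 72058697844523008) (nat_lit 2) (nat_lit 0)) .nil)) (.cons (.br (nat_lit 7) (nat_lit 0) (.cons (.kr (nat_lit 4722438540463683207168) (nat_lit 282578783305728) (nat_lit 2) (nat_lit 0)) .nil)) .nil))) .nil))),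
 (.br (nat_lit 11) (nat_lit 0) (.cons (.ev (nat_lit 309485009821346168253251584) (nat_lit 1)) (.cons (.ev (nat_lit 310698658007443667073171456) (nat_lit 1)) .nil))),
 (.br (nat_lit 2) (nat_lit 0) (.cons (.ev (nat_lit 309485009821346168253251584) (nat_lit 1)) (.cons (.br (nat_lit 11) (nat_lit 0) (.cons (.ev (nat_lit 20282410812577490321155226075136) (nat_lit 1)) .nil)) .nil))),
 (.br (nat_lit 11) (nat_lit 0) (.cons (.rf (nat_lit 14) (nat_lit 493858305440582043680)) (.cons (.rf (nat_lit 15) (nat_lit 493858305440582043680)) (.cons (.br (nat_lit 11) (nat_lit 0) (.cons (.ev (nat_lit 310698658007443667073171456) (nat_lit 1)) (.cons (.rf (nat_lit 15) (nat_lit 493858305440582043680)) .nil))) .nil)))),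
 (.br (nat_lit 11) (nat_lit 0) (.cons (.ev (nat_lit 309485009821346168253251584) (nat_lit 1)) (.cons (.ev (nat_lit 310698658007443667073171713) (nat_lit 1)) .nil))),
 (.br (nat_lit 2) (nat_lit 0) (.cons (.rf (nat_lit 16) (nat_lit 493858305440582043680)) (.cons (.rf (nat_lit 17) (nat_lit 493858305440582043680)) (.cons (.br (nat_lit 4) (nat_lit 0) (.cons (.br (nat_lit 11) (nat_lit 0) (.cons (.ev (nat_lit 20282410812577490321155226075136) (nat_lit 1)) .nil)) (.cons (.ev (nat_lit 20282409608374037189395696582913) (nat_lit 1)) .nil))) .nil)))),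
 (.br (nat_lit 2) (nat_lit 0) (.cons (.rf (nat_lit 14) (nat_lit 493858305440582043680)) (.cons (.rf (nat_lit 17) (nat_lit 493858305440582043680)) (.cons (.br (nat_lit 11) (nat_lit 0) (.cons (.ev (nat_lit 310698658007443667073171456) (nat_lit 1)) (.cons (.ev (nat_lit 310698658007443667073171713) (nat_lit 1)) (.cons (.ev (nat_lit 309485009821346168253251841) (nat_lit 1)) .nil)))) .nil)))),
 (.br (nat_lit 6) (nat_lit 0) (.cons (.rf (nat_lit 14) (nat_lit 493858305440581026880)) (.cons (.ev (nat_lit 309485009821346172531376384) (nat_lit 1)) (.cons (.br (nat_lit 6) (nat_lit 0) (.cons (.rf (nat_lit 14) (nat_lit 493858305440581026880)) (.cons (.ev (nat_lit 309485009821346172531376384) (nat_lit 1)) .nil))) .nil)))),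
 (.br (nat_lit 4) (nat_lit 0) (.cons (.ev (nat_lit 309485009821346172531441664) (nat_lit 1)) (.cons (.ev (nat_lit 309485009821346172531376384) (nat_lit 1)) (.cons (.ev (nat_lit 79537647542604484334311178496) (nat_lit 1)) .nil)))),
 (.br (nat_lit 6) (nat_lit 0) (.cons (.br (nat_lit 10) (nat_lit 0) (.cons (.ev (nat_lit 79228162532711364241741906176) (nat_lit 1)) .nil)) (.cons (.br (nat_lit 4) (nat_lit 0) (.cons (.ev (nat_lit 79228162532711364241741906176) (nat_lit 1)) .nil)) (.cons (.ev (nat_lit 79228167236631103037677568001) (nat_lit 1)) .nil)))),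
 (.br (nat_lit 4) (nat_lit 0) (.cons (.rf (nat_lit 20) (nat_lit 493858305440582043680)) (.cons (.ev (nat_lit 309485009821346172531376384) (nat_lit 1)) (.cons (.ev (nat_lit 310698658007443671351296256) (nat_lit 1)) .nil)))),
 (.br (nat_lit 2) (nat_lit 0) (.cons (.rf (nat_lit 20) (nat_lit 493858305440582043680)) (.cons (.br (nat_lit 2) (nat_lit 0) (.cons (.rf (nat_lit 14) (nat_lit 493858305440581026880)) (.cons (.rf (nat_lit 21) (nat_lit 493858305440582043680)) (.cons (.rf (nat_lit 22) (nat_lit 15433072043909810208)) .nil)))) (.cons (.rf (nat_lit 23) (nat_lit 493858305440582043680)) (.cons (.br (nat_lit 2) (nat_lit 0) (.cons (.rf (nat_lit 20) (nat_lit 493858305440582043680)) (.cons (.rf (nat_lit 22) (nat_lit 15433072043909810208)) (.cons (.rf (nat_lit 23) (nat_lit 493858305440582043680)) .nil)))) .nil))))),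
 (.br (nat_lit 5) (nat_lit 0) (.cons (.br (nat_lit 5) (nat_lit 0) .nil) .nil)),
 (.br (nat_lit 2) (nat_lit 0) (.cons (.rf (nat_lit 16) (nat_lit 493858305440581026880)) (.cons (.rf (nat_lit 20) (nat_lit 493858305440581026880)) (.cons (.rf (nat_lit 25) (nat_lit 14164264992)) .nil)))),
 (.br (nat_lit 11) (nat_lit 0) (.cons (.ev (nat_lit 309485009821346168253251584) (nat_lit 1)) (.cons (.ev (nat_lit 310698658007443667073171713) (nat_lit 1)) (.cons (.ev (nat_lit 309485009821346168253251841) (nat_lit 1)) .nil)))),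
 (.br (nat_lit 2) (nat_lit 0) (.cons (.rf (nat_lit 16) (nat_lit 493858305440581026880)) (.cons (.rf (nat_lit 27) (nat_lit 493858305440582043680)) (.cons (.br (nat_lit 4) (nat_lit 0) (.cons (.ev (nat_lit 20282409608374037189395696582913) (nat_lit 1)) (.cons (.br (nat_lit 6) (nat_lit 0) (.cons (.ev (nat_lit 20282410812577490321155226075136) (nat_lit 1)) .nil)) .nil))) .nil)))),
 (.br (nat_lit 2) (nat_lit 0) (.cons (.rf (nat_lit 20) (nat_lit 493858305440581026880)) (.cons (.rf (nat_lit 27) (nat_lit 493858305440582043680)) (.cons (.br (nat_lit 11) (nat_lit 0) (.cons (.ev (nat_lit 310698658007443667073171456) (nat_lit 1)) (.cons (.ev (nat_lit 309485009821346168253251841) (nat_lit 1)) .nil))) .nil)))),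
 (.br (nat_lit 1) (nat_lit 0) (.cons (.kr (nat_lit 1) (nat_lit 256) (nat_lit 0) (nat_lit 2)) (.cons (.br (nat_lit 2) (nat_lit 0) (.cons (.rf (nat_lit 16) (nat_lit 493858305440582043680)) (.cons (.rf (nat_lit 18) (nat_lit 493858305440582043680)) (.cons (.rf (nat_lit 19) (nat_lit 493858305440582043680)) (.cons (.br (nat_lit 2) (nat_lit 0) (.cons (.rf (nat_lit 16) (nat_lit 493858305440582043680)) (.cons (.rf (nat_lit 18) (nat_lit 493858305440582043680)) (.cons (.rf (nat_lit 19) (nat_lit 493858305440582043680)) .nil)))) .nil))))) (.cons (.rf (nat_lit 24) (nat_lit 493858305440582043680)) (.cons (.br (nat_lit 2) (nat_lit 0) (.cons (.rf (nat_lit 26) (nat_lit 493858305440582043680)) (.cons (.rf (nat_lit 28) (nat_lit 493858305440582043680)) (.cons (.rf (nat_lit 29) (nat_lit 493858305440582043680)) (.cons (.br (nat_lit 2) (nat_lit 0) (.cons (.rf (nat_lit 25) (nat_lit 14164264992)) (.cons (.rf (nat_lit 28) (nat_lit 493858305440582043680)) (.cons (.rf (nat_lit 29) (nat_lit 493858305440582043680))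 .nil)))) .nil))))) .nil))))),
 (.br (nat_lit 1) (nat_lit 0) (.cons (.rf (nat_lit 30) (nat_lit 493858305440582043680)) (.cons (.br (nat_lit 2) (nat_lit 0) (.cons (.br (nat_lit 2) (nat_lit 0) (.cons (.ev (nat_lit 309485009821346168253251584) (nat_lit 1)) (.cons (.kr (nat_lit 79229371440083953330820219392) (nat_lit 4740885284537426378752) (nat_lit 1) (nat_lit 0)) .nil))) (.cons (.ev (nat_lit 309485009821346172531376384) (nat_lit 1)) (.cons (.br (nat_lit 2) (nat_lit 0) (.cons (.kr (nat_lit 79229371440083953330820219392) (nat_lit 4740885284537426378752) (nat_lit 1) (nat_lit 0)) (.cons (.ev (nat_lit 309485009821346172531376384) (nat_lit 1)) .nil))) .nil)))) (.cons (.br (nat_lit 2) (nat_lit 0) (.cons (.br (nat_lit 2) (nat_lit 0) (.cons (.kr (nat_lit 4740885284545982628352) (nat_lit 79229371440083953322263969792) (nat_lit 1) (nat_lit 0)) (.cons (.kr (nat_lit 4294967552) (nat_lit 16842752) (nat_lit 1) (nat_lit 0)) .nil))) (.cons (.br (nat_lit 2) (nat_lit 0) (.cons (.kr (nat_lit 4740885284545982628352)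 (nat_lit 79229371440083953322263969792) (nat_lit 1) (nat_lit 0)) (.cons (.kr (nat_lit 1208944338416305512120832) (nat_lit 79228167236630821562734477312) (nat_lit 1) (nat_lit 0)) .nil))) (.cons (.br (nat_lit 2) (nat_lit 0) (.cons (.kr (nat_lit 4294967552) (nat_lit 16842752) (nat_lit 1) (nat_lit 0)) (.cons (.kr (nat_lit 1208944338416305512120832) (nat_lit 79228167236630821562734477312) (nat_lit 1) (nat_lit 0)) .nil))) .nil)))) .nil)))),
 (.br (nat_lit 1) (nat_lit 0) (.cons (.rf (nat_lit 30) (nat_lit 493858305440582043680)) (.cons (.rf (nat_lit 31) (nat_lit 493858305440582043680)) (.cons (.br (nat_lit 2) (nat_lit 0) (.cons (.rf (nat_lit 31) (nat_lit 493858305440581026880)) (.cons (.ev (nat_lit 310698658007443671351296256) (nat_lit 1)) (.cons (.br (nat_lit 2) (nat_lit 0) (.cons (.kr (nat_lit 79228167236630821571290726912) (nat_lit 1208944338416296955871232) (nat_lit 1) (nat_lit 0)) (.cons (.ev (nat_lit 310698658007443667073171456) (nat_lit 1)) .nil))) .nil)))) .nil)))),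
 (.br (nat_lit 1) (nat_lit 0) (.cons (.rf (nat_lit 30) (nat_lit 493858305440582043680)) (.cons (.rf (nat_lit 31) (nat_lit 493858305440582043680)) (.cons (.rf (nat_lit 32) (nat_lit 493858305440582043680)) (.cons (.br (nat_lit 1) (nat_lit 0) (.cons (.rf (nat_lit 30) (nat_lit 493858305440582043680)) (.cons (.rf (nat_lit 31) (nat_lit 493858305440582043680)) (.cons (.rf (nat_lit 32) (nat_lit 493858305440582043680)) .nil)))) .nil))))),
 (.br (nat_lit 6) (nat_lit 0) (.cons (.br (nat_lit 11) (nat_lit 0) (.cons (.ev (nat_lit 20282409608374037189391384903681) (nat_lit 1)) .nil)) (.cons (.br (nat_lit 1) (nat_lit 0) (.cons (.ev (nat_lit 20282409608374037189391384903681) (nat_lit 1)) .nil)) (.cons (.ev (nat_lit 20282409608374037189395696582656) (nat_lit 1)) .nil)))),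
 (.br (nat_lit 4) (nat_lit 0) (.cons (.rf (nat_lit 34) (nat_lit 493858305440582043680)) (.cons (.br (nat_lit 1) (nat_lit 0) (.cons (.ev (nat_lit 121778036741561203415573173505032) (nat_lit 4)) .nil)) (.cons (.ev (nat_lit 81208875063343148493215386173446) (nat_lit 3)) .nil)))),
 (.br (nat_lit 4) (nat_lit 0) (.cons (.rf (nat_lit 34) (nat_lit 493858305440582043680)) (.cons (.ev (nat_lit 80467344665566329782795632646) (nat_lit 3)) (.cons (.ev (nat_lit 80469753072472593301854617606) (nat_lit 3)) .nil)))),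
 (.br (nat_lit 2) (nat_lit 0) (.cons (.rf (nat_lit 30) (nat_lit 493858305440582043680)) (.cons (.rf (nat_lit 33) (nat_lit 493858305440582043680)) (.cons (.br (nat_lit 1) (nat_lit 0) (.cons (.rf (nat_lit 34) (nat_lit 493858305440582043680)) (.cons (.rf (nat_lit 35) (nat_lit 493858305440582043680)) (.cons (.rf (nat_lit 36) (nat_lit 493858305440582043680)) (.cons (.br (nat_lit 1) (nat_lit 0) (.cons (.rf (nat_lit 34) (nat_lit 493858305440582043680)) (.cons (.rf (nat_lit 35) (nat_lit 493858305440582043680)) (.cons (.rf (nat_lit 36) (nat_lit 493858305440582043680)) .nil)))) .nil))))) .nil)))),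
 (.br (nat_lit 2) (nat_lit 0) (.cons (.rf (nat_lit 30) (nat_lit 493858305440582043680)) (.cons (.rf (nat_lit 33) (nat_lit 493858305440582043680)) (.cons (.rf (nat_lit 37) (nat_lit 493858305440582043680)) (.cons (.br (nat_lit 2) (nat_lit 0) (.cons (.rf (nat_lit 30) (nat_lit 493858305440582043680)) (.cons (.rf (nat_lit 33) (nat_lit 493858305440582043680)) (.cons (.rf (nat_lit 37) (nat_lit 493858305440582043680)) .nil)))) .nil))))),
 (.br (nat_lit 2) (nat_lit 0) (.cons (.rf (nat_lit 30) (nat_lit 493858305440582043680)) (.cons (.rf (nat_lit 33) (nat_lit 493858305440582043680)) (.cons (.rf (nat_lit 38) (nat_lit 493858305440582043680)) (.cons (.br (nat_lit 2) (nat_lit 0) (.cons (.rf (nat_lit 30) (nat_lit 493858305440582043680)) (.cons (.rf (nat_lit 33) (nat_lit 493858305440582043680)) (.cons (.rf (nat_lit 38) (nat_lit 493858305440582043680)) .nil)))) .nil))))),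
 (.br (nat_lit 2) (nat_lit 0) (.cons (.rf (nat_lit 30) (nat_lit 493858305440582043680)) (.cons (.rf (nat_lit 33) (nat_lit 493858305440582043680)) (.cons (.rf (nat_lit 38) (nat_lit 493858305440582043680)) (.cons (.rf (nat_lit 39) (nat_lit 493858305440582043680)) (.cons (.br (nat_lit 2) (nat_lit 0) (.cons (.rf (nat_lit 30) (nat_lit 493858305440582043680)) (.cons (.rf (nat_lit 33) (nat_lit 493858305440582043680)) (.cons (.rf (nat_lit 38) (nat_lit 493858305440582043680)) (.cons (.rf (nat_lit 39) (nat_lit 493858305440582043680)) .nil))))) .nil)))))),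
 (.br (nat_lit 2) (nat_lit 0) (.cons (.kr (nat_lit 256) (nat_lit 65536) (nat_lit 1) (nat_lit 0)) .nil)),
 (.br (nat_lit 1) (nat_lit 0) (.cons (.br (nat_lit 1) (nat_lit 0) (.cons (.br (nat_lit 2) (nat_lit 0) (.cons (.rf (nat_lit 41) (nat_lit 213846689824)) (.cons (.rf (nat_lit 41) (nat_lit 247132686368)) .nil))) .nil)) .nil))]

theorem c0 : chkAll C T R L0 (nat_lit 0) = true := by decide +kernel

theorem l0 : (nat_lit 0) + L0.length = (nat_lit 43) := by decide +kernel

/-- part of the certificates -/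
def L1 : List Prf := [(.br (nat_lit 1) (nat_lit 0) (.cons (.rf (nat_lit 42) (nat_lit 172066848)) (.cons (.br (nat_lit 1) (nat_lit 0) (.cons (.rf (nat_lit 42) (nat_lit 172066848)) (.cons (.br (nat_lit 1) (nat_lit 0) (.cons (.rf (nat_lit 42) (nat_lit 172066848)) .nil)) .nil))) .nil))),
 (.br (nat_lit 1) (nat_lit 0) (.cons (.br (nat_lit 2) (nat_lit 0) (.cons (.zr (nat_lit 55556405003242504704) (nat_lit 20282721506513131279753613934593) (nat_lit 5) (nat_lit 11)) .nil)) .nil)),
 (.br (nat_lit 2) (nat_lit 0) (.cons (.rf (nat_lit 44) (nat_lit 493858305440582043680)) (.cons (.br (nat_lit 2) (nat_lit 0) (.cons (.rf (nat_lit 44) (nat_lit 493858305440582043680)) .nil)) .nil))),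
 (.br (nat_lit 2) (nat_lit 0) (.cons (.rf (nat_lit 45) (nat_lit 493858305440582042688)) (.cons (.br (nat_lit 2) (nat_lit 0) (.cons (.rf (nat_lit 45) (nat_lit 493858305440582042688)) .nil)) .nil))),
 (.br (nat_lit 1) (nat_lit 0) (.cons (.rf (nat_lit 45) (nat_lit 493858305440582043680)) (.cons (.rf (nat_lit 46) (nat_lit 493858305440582043680)) (.cons (.br (nat_lit 1) (nat_lit 0) (.cons (.rf (nat_lit 45) (nat_lit 493858305440582043680)) (.cons (.rf (nat_lit 46) (nat_lit 493858305440582043680)) .nil))) .nil)))),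
 (.br (nat_lit 1) (nat_lit 0) (.cons (.rf (nat_lit 47) (nat_lit 493858305440582043680)) (.cons (.br (nat_lit 1) (nat_lit 0) (.cons (.rf (nat_lit 47) (nat_lit 493858305440582043680)) .nil)) .nil))),
 (.br (nat_lit 2) (nat_lit 0) (.cons (.rf (nat_lit 47) (nat_lit 493858305440582043680)) (.cons (.rf (nat_lit 48) (nat_lit 493858305440582043680)) (.cons (.br (nat_lit 2) (nat_lit 0) (.cons (.rf (nat_lit 47) (nat_lit 493858305440582043680)) (.cons (.rf (nat_lit 48) (nat_lit 493858305440582043680)) .nil))) .nil)))),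
 (.br (nat_lit 2) (nat_lit 0) (.cons (.rf (nat_lit 47) (nat_lit 493858305440582043680)) (.cons (.rf (nat_lit 49) (nat_lit 493858305440582042688)) (.cons (.br (nat_lit 2) (nat_lit 0) (.cons (.rf (nat_lit 47) (nat_lit 493858305440582043680)) (.cons (.rf (nat_lit 49) (nat_lit 493858305440582042688)) .nil))) .nil)))),
 (.br (nat_lit 1) (nat_lit 0) (.cons (.br (nat_lit 2) (nat_lit 0) (.cons (.ev (nat_lit 80467344665566329782795240966) (nat_lit 3)) (.cons (.br (nat_lit 2) (nat_lit 0) (.cons (.ev (nat_lit 80466102683181335066104104198) (nat_lit 3)) .nil)) .nil))) (.cons (.ev (nat_lit 20361637770906820327557476385025) (nat_lit 1)) .nil))),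
 (.br (nat_lit 1) (nat_lit 0) (.cons (.rf (nat_lit 51) (nat_lit 493858305440582043680)) (.cons (.br (nat_lit 1) (nat_lit 0) (.cons (.rf (nat_lit 51) (nat_lit 493858305440582043680)) (.cons (.ev (nat_lit 20282410812577490321150914330624) (nat_lit 1)) .nil))) (.cons (.ev (nat_lit 20361637770906820327553164640256) (nat_lit 1)) .nil)))),
 (.br (nat_lit 1) (nat_lit 0) .nil),
 (.br (nat_lit 2) (nat_lit 0) (.cons (.br (nat_lit 2) (nat_lit 0) (.cons (.rf (nat_lit 53) (nat_lit 247132686368)) .nil)) (.cons (.br (nat_lit 1) (nat_lit 0) (.cons (.rf (nat_lit 53) (nat_lit 247132686368)) .nil)) .nil))),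
 (.br (nat_lit 4) (nat_lit 0) (.cons (.rf (nat_lit 40) (nat_lit 493858305440581027872)) (.cons (.rf (nat_lit 40) (nat_lit 493858305440581026880)) (.cons (.rf (nat_lit 43) (nat_lit 205621280)) (.cons (.br (nat_lit 1) (nat_lit 0) (.cons (.rf (nat_lit 47) (nat_lit 493858305440582043680)) (.cons (.rf (nat_lit 49) (nat_lit 493858305440582043680)) (.cons (.rf (nat_lit 50) (nat_lit 493858305440582043680)) (.cons (.br (nat_lit 1) (nat_lit 0) (.cons (.rf (nat_lit 47) (nat_lit 493858305440582043680)) (.cons (.rf (nat_lit 49) (nat_lit 493858305440582043680)) (.cons (.rf (nat_lit 50) (nat_lit 493858305440582043680)) .nil)))) .nil))))) (.cons (.br (nat_lit 6) (nat_lit 0) (.cons (.rf (nat_lit 52) (nat_lit 493858305440582043680)) (.cons (.rf (nat_lit 52) (nat_lit 493858305440582042688)) (.cons (.br (nat_lit 11) (nat_lit 0) (.cons (.rf (nat_lit 54) (nat_lit 458693380128)) (.cons (.rf (nat_lit 54) (nat_lit 458693379136)) (.cons (.ev (nat_lit 20282410812577490321150914330624) (nat_lit 1)) .nil)))) (.cons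 (.ev (nat_lit 20361638975110273459312694132736) (nat_lit 1)) .nil))))) .nil)))))),
 (.br (nat_lit 6) (nat_lit 0) (.cons (.br (nat_lit 1) (nat_lit 0) (.cons (.br (nat_lit 2) (nat_lit 0) (.cons (.zr (nat_lit 55556405003242569984) (nat_lit 20282719098106225016234554949633) (nat_lit 5) (nat_lit 11)) .nil)) (.cons (.br (nat_lit 2) (nat_lit 0) (.cons (.zr (nat_lit 55556405003242504704) (nat_lit 20282719098106225016234554949633) (nat_lit 5) (nat_lit 11)) .nil)) .nil))) (.cons (.rf (nat_lit 54) (nat_lit 453492443168)) (.cons (.rf (nat_lit 54) (nat_lit 384839059488)) .nil)))),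
 (.br (nat_lit 2) (nat_lit 0) (.cons (.rf (nat_lit 56) (nat_lit 493858305440582042688)) (.cons (.br (nat_lit 6) (nat_lit 0) (.cons (.rf (nat_lit 56) (nat_lit 493858305440582043680)) (.cons (.rf (nat_lit 56) (nat_lit 493858305440582042688)) .nil))) .nil))),
 (.br (nat_lit 1) (nat_lit 0) (.cons (.rf (nat_lit 56) (nat_lit 493858305440582043680)) (.cons (.rf (nat_lit 57) (nat_lit 493858305440582043680)) (.cons (.br (nat_lit 2) (nat_lit 0) (.cons (.rf (nat_lit 56) (nat_lit 493858305440582042688)) (.cons (.rf (nat_lit 57) (nat_lit 493858305440582042688)) .nil))) .nil)))),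
 (.br (nat_lit 1) (nat_lit 0) (.cons (.rf (nat_lit 58) (nat_lit 493858305440582043680)) (.cons (.ev (nat_lit 309485009821346172531376384) (nat_lit 1)) .nil))),
 (.br (nat_lit 6) (nat_lit 0) (.cons (.br (nat_lit 1) (nat_lit 0) (.cons (.rf (nat_lit 58) (nat_lit 493858305440582043680)) (.cons (.rf (nat_lit 59) (nat_lit 493858305440582043680)) (.cons (.br (nat_lit 2) (nat_lit 0) (.cons (.rf (nat_lit 58) (nat_lit 493858305440582043680)) (.cons (.rf (nat_lit 59) (nat_lit 493858305440582042688)) .nil))) .nil)))) (.cons (.rf (nat_lit 54) (nat_lit 453492443168)) (.cons (.rf (nat_lit 54) (nat_lit 384839059488)) .nil)))),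
 (.br (nat_lit 2) (nat_lit 0) (.cons (.rf (nat_lit 58) (nat_lit 493858305440582043680)) (.cons (.rf (nat_lit 60) (nat_lit 493858305440582042688)) (.cons (.br (nat_lit 1) (nat_lit 0) (.cons (.rf (nat_lit 58) (nat_lit 493858305440582043680)) (.cons (.rf (nat_lit 60) (nat_lit 493858305440582043680)) .nil))) .nil)))),
 (.br (nat_lit 4) (nat_lit 0) (.cons (.rf (nat_lit 40) (nat_lit 493858305440581027872)) (.cons (.rf (nat_lit 40) (nat_lit 493858305440581026880)) (.cons (.rf (nat_lit 55) (nat_lit 493858305440581027872)) (.cons (.rf (nat_lit 43) (nat_lit 373393440)) (.cons (.br (nat_lit 1) (nat_lit 0) (.cons (.rf (nat_lit 58) (nat_lit 493858305440582043680)) (.cons (.rf (nat_lit 60) (nat_lit 493858305440582043680)) (.cons (.rf (nat_lit 61) (nat_lit 493858305440582043680)) (.cons (.br (nat_lit 2) (nat_lit 0) (.cons (.rf (nat_lit 58) (nat_lit 493858305440582043680)) (.cons (.rf (nat_lit 60) (nat_lit 493858305440582042688)) (.cons (.rf (nat_lit 61) (nat_lit 493858305440582042688)) .nil)))) .nil)))))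 .nil)))))),
 (.br (nat_lit 10) (nat_lit 0) (.cons (.br (nat_lit 12) (nat_lit 0) (.cons (.br (nat_lit 3) (nat_lit 0) (.cons (.rf (nat_lit 40) (nat_lit 493858305440582043680)) (.cons (.rf (nat_lit 40) (nat_lit 493858305440582042688)) (.cons (.kr (nat_lit 16777216) (nat_lit 4294967296) (nat_lit 3) (nat_lit 0)) (.cons (.rf (nat_lit 55) (nat_lit 493858305440582043680)) (.cons (.rf (nat_lit 62) (nat_lit 493858305440582043680)) (.cons (.br (nat_lit 4) (nat_lit 0) (.cons (.rf (nat_lit 40) (nat_lit 493858305440581027872)) (.cons (.rf (nat_lit 40) (nat_lit 493858305440581026880)) (.cons (.rf (nat_lit 55) (nat_lit 493858305440581027872)) (.cons (.rf (nat_lit 62) (nat_lit 493858305440581027872)) (.cons (.rf (nat_lit 43) (nat_lit 440502304)) .nil)))))) .nil))))))) .nil)) .nil)),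
 (.br (nat_lit 9) (nat_lit 0) (.cons (.rf (nat_lit 63) (nat_lit 14242959524133701664)) (.cons (.br (nat_lit 10) (nat_lit 0) (.cons (.rf (nat_lit 63) (nat_lit 14241868808598947872)) (.cons (.kr (nat_lit 4722366482869645213696) (nat_lit 1208925819614629174706176) (nat_lit 9) (nat_lit 0)) .nil))) .nil))),
 (.br (nat_lit 7) (nat_lit 0) (.cons (.kr (nat_lit 4722438540463683207168) (nat_lit 282578783305728) (nat_lit 2) (nat_lit 0)) .nil)),
 (.br (nat_lit 3) (nat_lit 1) (.cons (.rf (nat_lit 65) (nat_lit 11584701642934304)) (.cons (.rf (nat_lit 65) (nat_lit 11584668356937760)) .nil))),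
 (.br (nat_lit 7) (nat_lit 1) (.cons (.rf (nat_lit 12) (nat_lit 10789093)) (.cons (.rf (nat_lit 12) (nat_lit 9773285)) (.cons (.br (nat_lit 9) (nat_lit 1) (.cons (.br (nat_lit 10) (nat_lit 1) (.cons (.br (nat_lit 8) (nat_lit 0) (.cons (.rf (nat_lit 13) (nat_lit 434660630008963)) (.cons (.rf (nat_lit 64) (nat_lit 14242959524133701664)) (.cons (.br (nat_lit 12) (nat_lit 0) (.cons (.rf (nat_lit 64) (nat_lit 9451133855374346272)) (.cons (.rf (nat_lit 13) (nat_lit 288425715801219)) (.cons (.rf (nat_lit 66) (nat_lit 15071359418963075)) .nil)))) .nil)))) .nil)) .nil)) .nil)))),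
 (.br (nat_lit 5) (nat_lit 1) (.cons (.rf (nat_lit 1) (nat_lit 7541891)) (.cons (.br (nat_lit 8) (nat_lit 1) (.cons (.rf (nat_lit 2) (nat_lit 8421)) (.cons (.br (nat_lit 8) (nat_lit 1) (.cons (.rf (nat_lit 2) (nat_lit 8421)) (.cons (.br (nat_lit 7) (nat_lit 0) (.cons (.rf (nat_lit 10) (nat_lit 353537037443)) (.cons (.br (nat_lit 9) (nat_lit 1) (.cons (.rf (nat_lit 12) (nat_lit 10789093)) (.cons (.rf (nat_lit 67) (nat_lit 407901468851537952)) (.cons (.br (nat_lit 9) (nat_lit 1) (.cons (.rf (nat_lit 12) (nat_lit 10789093)) (.cons (.rf (nat_lit 67) (nat_lit 407901468851537952)) .nil))) .nil)))) .nil))) .nil))) .nil))) .nil))),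
 (.br (nat_lit 7) (nat_lit 1) (.cons (.br (nat_lit 8) (nat_lit 1) (.cons (.kr (nat_lit 4722438540463683207168) (nat_lit 18446745177516146688) (nat_lit 2) (nat_lit 0)) .nil)) .nil)),
 (.br (nat_lit 5) (nat_lit 1) (.cons (.rf (nat_lit 2) (nat_lit 5250)) (.cons (.br (nat_lit 4) (nat_lit 1) (.cons (.rf (nat_lit 12) (nat_lit 8623234)) (.cons (.rf (nat_lit 12) (nat_lit 7607426)) (.cons (.br (nat_lit 8) (nat_lit 0) (.cons (.br (nat_lit 9) (nat_lit 0) (.cons (.br (nat_lit 7) (nat_lit 1) (.cons (.rf (nat_lit 69) (nat_lit 11584701642934304)) (.cons (.br (nat_lit 7) (nat_lit 1) (.cons (.rf (nat_lit 69) (nat_lit 11584701642934304)) .nil)) .nil))) .nil)) .nil)) .nil)))) .nil))),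
 (.br (nat_lit 5) (nat_lit 1) (.cons (.rf (nat_lit 2) (nat_lit 5250)) (.cons (.rf (nat_lit 70) (nat_lit 247132686368)) (.cons (.br (nat_lit 5) (nat_lit 1) (.cons (.rf (nat_lit 2) (nat_lit 5250)) (.cons (.rf (nat_lit 70) (nat_lit 247132686368)) (.cons (.br (nat_lit 4) (nat_lit 1) (.cons (.br (nat_lit 8) (nat_lit 0) (.cons (.br (nat_lit 9) (nat_lit 0) (.cons (.br (nat_lit 8) (nat_lit 1) (.cons (.br (nat_lit 9) (nat_lit 1) (.cons (.kr (nat_lit 72057594037993472) (nat_lit 1103806595072) (nat_lit 2) (nat_lit 0)) (.cons (.rf (nat_lit 7) (nat_lit 7861441666)) .nil))) (.cons (.rf (nat_lit 7) (nat_lit 7861441666)) .nil))) .nil)) .nil)) (.cons (.rf (nat_lit 12) (nat_lit 9704578)) (.cons (.rf (nat_lit 12) (nat_lit 8688770)) .nil)))) .nil)))) .nil)))),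
 (.br (nat_lit 1) (nat_lit 0) (.cons (.kr (nat_lit 1) (nat_lit 256) (nat_lit 0) (nat_lit 2)) (.cons (.rf (nat_lit 68) (nat_lit 244987299841)) (.cons (.kr (nat_lit 310693935713017291937415170) (nat_lit 79228162532711082766765130240) (nat_lit 0) (nat_lit 2)) (.cons (.kr (nat_lit 309485009821345068724781057) (nat_lit 18446744073709551872) (nat_lit 0) (nat_lit 2)) .nil))))),
 (.br (nat_lit 9) (nat_lit 0) (.cons (.ev (nat_lit 79537647524085682666580541441) (nat_lit 1)) .nil)),
 (.br (nat_lit 1) (nat_lit 0) (.cons (.kr (nat_lit 1) (nat_lit 256) (nat_lit 0) (nat_lit 2)) (.cons (.rf (nat_lit 72) (nat_lit 493858305437360914497)) (.cons (.br (nat_lit 2) (nat_lit 0) (.cons (.rf (nat_lit 68) (nat_lit 244987298818)) (.cons (.rf (nat_lit 21) (nat_lit 493787340758953690176)) (.cons (.br (nat_lit 3) (nat_lit 0) (.cons (.br (nat_lit 9) (nat_lit 0) (.cons (.ev (nat_lit 310698658079782736087744768) (nat_lit 1)) .nil)) (.cons (.br (nat_lit 6) (nat_lit 0) (.cons (.ev (nat_lit 1213666705181741072580608) (nat_lit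 1)) .nil)) (.cons (.br (nat_lit 6) (nat_lit 0) (.cons (.ev (nat_lit 310698658079782736087744513) (nat_lit 1)) .nil)) .nil)))) .nil)))) (.cons (.br (nat_lit 2) (nat_lit 0) (.cons (.rf (nat_lit 68) (nat_lit 244987298818)) (.cons (.br (nat_lit 3) (nat_lit 0) (.cons (.rf (nat_lit 73) (nat_lit 15433035725666355232)) (.cons (.rf (nat_lit 73) (nat_lit 15432930175771314208)) (.cons (.ev (nat_lit 20361947251194202850687541313536) (nat_lit 1)) .nil)))) (.cons (.br (nat_lit 3) (nat_lit 0) (.cons (.ev (nat_lit 20361948460101648060312021172225) (nat_lit 1)) (.cons (.br (nat_lit 6) (nat_lit 0) (.cons (.ev (nat_lit 20361638975110273459317005877248) (nat_lit 1)) .nil)) .nil))) .nil)))) .nil))))),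
 (.br (nat_lit 2) (nat_lit 0) (.cons (.kr (nat_lit 310693935713017291937415170) (nat_lit 79228162532711082766765260800) (nat_lit 0) (nat_lit 1)) (.cons (.rf (nat_lit 74) (nat_lit 493858305440582043680)) (.cons (.br (nat_lit 1) (nat_lit 0) (.cons (.kr (nat_lit 1) (nat_lit 256) (nat_lit 0) (nat_lit 2)) (.cons (.br (nat_lit 3) (nat_lit 0) (.cons (.br (nat_lit 9) (nat_lit 0) (.cons (.ev (nat_lit 1213666705181741072580608) (nat_lit 1)) .nil)) (.cons (.br (nat_lit 6) (nat_lit 0) (.cons (.ev (nat_lit 310698658079782736087744768) (nat_lit 1)) .nil)) (.cons (.br (nat_lit 6) (nat_lit 0) (.cons (.ev (nat_lit 310698658079782736087744513) (nat_lit 1)) .nil)) .nil)))) (.cons (.kr (nat_lit 309485009821345068724781312) (nat_lit 18446744073709617152) (nat_lit 1) (nat_lit 0)) (.cons (.kr (nat_lit 310693935713017291937415680) (nat_lit 79228162532711082766765260800) (nat_lit 1) (nat_lit 0)) .nil))))) .nil)))),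
 (.br (nat_lit 2) (nat_lit 0) (.cons (.rf (nat_lit 72) (nat_lit 493858305440582042688)) (.cons (.rf (nat_lit 74) (nat_lit 493858305440582043680)) (.cons (.rf (nat_lit 75) (nat_lit 493858305440582043680)) (.cons (.br (nat_lit 2) (nat_lit 0) (.cons (.kr (nat_lit 309485009821345068724781057) (nat_lit 18446744073709617152) (nat_lit 0) (nat_lit 1)) (.cons (.rf (nat_lit 74) (nat_lit 493858305440582043680)) (.cons (.rf (nat_lit 75) (nat_lit 493858305440582043680)) .nil)))) .nil))))),
 (.br (nat_lit 3) (nat_lit 0) (.cons (.ev (nat_lit 4722366483969173618944) (nat_lit 1)) (.cons (.ev (nat_lit 79229376162522492686418640896) (nat_lit 1)) (.cons (.ev (nat_lit 79229376162522492686418575616) (nat_lit 1)) .nil)))),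
 (.br (nat_lit 2) (nat_lit 0) (.cons (.kr (nat_lit 310693935713017291937415170) (nat_lit 79228162532711082766765260800) (nat_lit 0) (nat_lit 1)) (.cons (.rf (nat_lit 76) (nat_lit 493858305440582042688)) (.cons (.kr (nat_lit 1208944338416296922186240) (nat_lit 79537647524085683761780490240) (nat_lit 1) (nat_lit 0)) (.cons (.br (nat_lit 3) (nat_lit 0) (.cons (.br (nat_lit 6) (nat_lit 0) (.cons (.ev (nat_lit 1213666705181741072515073) (nat_lit 1)) .nil)) (.cons (.br (nat_lit 4) (nat_lit 0) (.cons (.ev (nat_lit 310698658079782736087810048) (nat_lit 1)) .nil)) (.cons (.br (nat_lit 4) (nat_lit 0) (.cons (.ev (nat_lit 310698658079782736087744768) (nat_lit 1)) .nil)) .nil)))) .nil))))),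
 (.br (nat_lit 1) (nat_lit 0) (.cons (.rf (nat_lit 68) (nat_lit 244987299841)) (.cons (.rf (nat_lit 76) (nat_lit 493858305440582043680)) (.cons (.br (nat_lit 2) (nat_lit 0) (.cons (.rf (nat_lit 72) (nat_lit 493858305440582042688)) (.cons (.rf (nat_lit 76) (nat_lit 493858305440582042688)) (.cons (.br (nat_lit 2) (nat_lit 0) (.cons (.rf (nat_lit 68) (nat_lit 244987298818)) (.cons (.kr (nat_lit 79228162532711082766765130240) (nat_lit 310693935713017291937546240) (nat_lit 1) (nat_lit 0)) (.cons (.kr (nat_lit 256) (nat_lit 65536) (nat_lit 1) (nat_lit 0)) (.cons (.kr (nat_lit 79537647524085683761780359680) (nat_lit 1208944338416296922316800) (nat_lit 1) (nat_lit 0)) .nil))))) (.cons (.br (nat_lit 2) (nat_lit 0) (.cons (.kr (nat_lit 310693935713017291937415170) (nat_lit 79228162532711082766765260800) (nat_lit 0) (nat_lit 1)) (.cons (.rf (nat_lit 21) (nat_lit 493787340758953691168)) (.cons (.kr (nat_lit 256) (nat_lit 65536) (nat_lit 1) (nat_lit 0)) (.cons (.rf (nat_lit 77) (nat_lit 493858305440582043680))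 .nil))))) (.cons (.br (nat_lit 2) (nat_lit 0) (.cons (.kr (nat_lit 309485009821345068724781057) (nat_lit 18446744073709617152) (nat_lit 0) (nat_lit 1)) (.cons (.rf (nat_lit 76) (nat_lit 493858305440582042688)) (.cons (.kr (nat_lit 79537647524085683761780359680) (nat_lit 1208944338416296922316800) (nat_lit 1) (nat_lit 0)) (.cons (.rf (nat_lit 77) (nat_lit 493858305440582043680)) .nil))))) .nil)))))) (.cons (.br (nat_lit 2) (nat_lit 0) (.cons (.rf (nat_lit 72) (nat_lit 493858305440582042688)) (.cons (.rf (nat_lit 76) (nat_lit 493858305440582042688)) (.cons (.br (nat_lit 2) (nat_lit 0) (.cons (.rf (nat_lit 68) (nat_lit 244987298818)) (.cons (.kr (nat_lit 18446744073709551872) (nat_lit 309485009821345068724846592) (nat_lit 1) (nat_lit 0)) (.cons (.kr (nat_lit 1208944338416296922186240) (nat_lit 79537647524085683761780490240) (nat_lit 1) (nat_lit 0)) (.cons (.kr (nat_lit 256) (nat_lit 65536) (nat_lit 1) (nat_lit 0)) .nil))))) (.cons (.rf (nat_lit 78) (nat_lit 493858305440582043680)) (.cons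 (.br (nat_lit 2) (nat_lit 0) (.cons (.kr (nat_lit 309485009821345068724781057) (nat_lit 18446744073709617152) (nat_lit 0) (nat_lit 1)) (.cons (.rf (nat_lit 76) (nat_lit 493858305440582042688)) (.cons (.kr (nat_lit 256) (nat_lit 65536) (nat_lit 1) (nat_lit 0)) (.cons (.rf (nat_lit 78) (nat_lit 493858305440582043680)) .nil))))) .nil)))))) .nil)))))]

theorem c1 : chkAll C T R L1 (nat_lit 43) = true := by decide +kernel

theorem l1 : (nat_lit 43) + L1.length = (nat_lit 80) := by decide +kernel

/-- part of the certificates -/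
def L2 : List Prf := [(.br (nat_lit 1) (nat_lit 0) (.cons (.kr (nat_lit 310693935713017291937415170) (nat_lit 79228162532711082766765130240) (nat_lit 0) (nat_lit 2)) (.cons (.rf (nat_lit 76) (nat_lit 493858305440582043680)) (.cons (.rf (nat_lit 79) (nat_lit 493858305440582043680)) (.cons (.br (nat_lit 2) (nat_lit 0) (.cons (.rf (nat_lit 72) (nat_lit 493858305440582042688)) (.cons (.rf (nat_lit 76) (nat_lit 493858305440582042688)) (.cons (.rf (nat_lit 79) (nat_lit 493858305440582042688)) (.cons (.br (nat_lit 2) (nat_lit 0) (.cons (.kr (nat_lit 310693935713017291937415170) (nat_lit 79228162532711082766765260800) (nat_lit 0) (nat_lit 1)) (.cons (.kr (nat_lit 18446744073709551872) (nat_lit 309485009821345068724846592) (nat_lit 1) (nat_lit 0)) (.cons (.rf (nat_lit 77) (nat_lit 493858305440582042688)) (.cons (.kr (nat_lit 256) (nat_lit 65536) (nat_lit 1) (nat_lit 0)) .nil))))) (.cons (.br (nat_lit 2) (nat_lit 0) (.cons (.kr (nat_lit 309485009821345068724781057) (nat_lit 18446744073709617152)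 (nat_lit 0) (nat_lit 1)) (.cons (.kr (nat_lit 79228162532711082766765130240) (nat_lit 310693935713017291937546240) (nat_lit 1) (nat_lit 0)) (.cons (.rf (nat_lit 79) (nat_lit 493858305440582042688)) (.cons (.kr (nat_lit 256) (nat_lit 65536) (nat_lit 1) (nat_lit 0)) .nil))))) .nil)))))) .nil))))),
 (.br (nat_lit 1) (nat_lit 0) (.cons (.rf (nat_lit 72) (nat_lit 493858305440582043680)) (.cons (.rf (nat_lit 76) (nat_lit 493858305440582043680)) (.cons (.rf (nat_lit 79) (nat_lit 493858305440582043680)) (.cons (.rf (nat_lit 80) (nat_lit 493858305440582043680)) (.cons (.br (nat_lit 1) (nat_lit 0) (.cons (.kr (nat_lit 309485009821345068724781057) (nat_lit 18446744073709551872) (nat_lit 0) (nat_lit 2)) (.cons (.rf (nat_lit 76) (nat_lit 493858305440582043680)) (.cons (.rf (nat_lit 79) (nat_lit 493858305440582043680)) (.cons (.rf (nat_lit 80) (nat_lit 493858305440582043680)) .nil))))) .nil)))))),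
 (.br (nat_lit 2) (nat_lit 0) (.cons (.ev (nat_lit 4722366483969173684224) (nat_lit 1)) (.cons (.br (nat_lit 9) (nat_lit 0) (.cons (.ev (nat_lit 20282721520680374845749665660930) (nat_lit 2)) .nil)) .nil))),
 (.br (nat_lit 2) (nat_lit 0) (.cons (.ev (nat_lit 79537652246452447006907433216) (nat_lit 1)) (.cons (.br (nat_lit 6) (nat_lit 0) (.cons (.ev (nat_lit 20441175427857120174291305038336) (nat_lit 2)) .nil)) .nil))),
 (.br (nat_lit 9) (nat_lit 0) (.cons (.br (nat_lit 9) (nat_lit 0) (.cons (.ev (nat_lit 79543711061457287778201108992) (nat_lit 3)) .nil)) (.cons (.br (nat_lit 2) (nat_lit 0) (.cons (.ev (nat_lit 79543711061457287778201108992) (nat_lit 3)) .nil)) .nil))),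
 (.br (nat_lit 2) (nat_lit 0) (.cons (.rf (nat_lit 84) (nat_lit 493858305440582043680)) (.cons (.br (nat_lit 6) (nat_lit 0) (.cons (.ev (nat_lit 40565129901239054148869063507971) (nat_lit 2)) .nil)) .nil))),
 (.br (nat_lit 1) (nat_lit 0) (.cons (.rf (nat_lit 68) (nat_lit 244987299841)) (.cons (.br (nat_lit 2) (nat_lit 0) (.cons (.rf (nat_lit 82) (nat_lit 493858305440582043680)) (.cons (.rf (nat_lit 83) (nat_lit 493858305440582043680)) (.cons (.br (nat_lit 2) (nat_lit 0) (.cons (.rf (nat_lit 82) (nat_lit 493858305440582043680)) (.cons (.rf (nat_lit 83) (nat_lit 493858305440582043680)) .nil))) .nil)))) (.cons (.br (nat_lit 2) (nat_lit 0) (.cons (.rf (nat_lit 84) (nat_lit 493858305440582043680)) (.cons (.rf (nat_lit 85) (nat_lit 493858305440582043680)) (.cons (.br (nat_lit 2) (nat_lit 0) (.cons (.rf (nat_lit 84) (nat_lit 493858305440582043680)) (.cons (.rf (nat_lit 85) (nat_lit 493858305440582043680)) .nil))) .nil)))) .nil)))),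
 (.br (nat_lit 2) (nat_lit 0) (.cons (.ev (nat_lit 4722366483969173684224) (nat_lit 1)) (.cons (.br (nat_lit 6) (nat_lit 0) (.cons (.ev (nat_lit 20282409603670117450599760920833) (nat_lit 1)) .nil)) .nil))),
 (.br (nat_lit 6) (nat_lit 0) (.cons (.ev (nat_lit 18446745173238022144) (nat_lit 1)) (.cons (.br (nat_lit 2) (nat_lit 0) (.cons (.ev (nat_lit 18446745173238022144) (nat_lit 1)) .nil)) .nil))),
 (.br (nat_lit 1) (nat_lit 0) (.cons (.kr (nat_lit 310693935713017291937415170) (nat_lit 79228162532711082766765130240) (nat_lit 0) (nat_lit 2)) (.cons (.rf (nat_lit 86) (nat_lit 493858305440582043680)) (.cons (.br (nat_lit 2) (nat_lit 0) (.cons (.rf (nat_lit 87) (nat_lit 493858305440582043680)) (.cons (.rf (nat_lit 88) (nat_lit 14998685247178784)) (.cons (.br (nat_lit 2) (nat_lit 0) (.cons (.rf (nat_lit 87) (nat_lit 493858305440582043680)) (.cons (.rf (nat_lit 88) (nat_lit 14998685247178784)) .nil))) .nil)))) .nil)))),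
 (.br (nat_lit 1) (nat_lit 0) (.cons (.rf (nat_lit 81) (nat_lit 493858305440582043680)) (.cons (.rf (nat_lit 86) (nat_lit 493858305440582043680)) (.cons (.rf (nat_lit 89) (nat_lit 493858305440582043680)) (.cons (.br (nat_lit 1) (nat_lit 0) (.cons (.kr (nat_lit 309485009821345068724781057) (nat_lit 18446744073709551872) (nat_lit 0) (nat_lit 2)) (.cons (.rf (nat_lit 86) (nat_lit 493858305440582043680)) (.cons (.rf (nat_lit 89) (nat_lit 493858305440582043680)) .nil)))) .nil))))),
 (.br (nat_lit 1) (nat_lit 0) (.cons (.br (nat_lit 9) (nat_lit 0) (.cons (.ev (nat_lit 79543711061457287778201108992) (nat_lit 3)) .nil)) (.cons (.ev (nat_lit 309489750634573111608016896) (nat_lit 1)) (.cons (.br (nat_lit 6) (nat_lit 0) (.cons (.ev (nat_lit 310698658079782736087744768) (nat_lit 1)) .nil)) .nil)))),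
 (.br (nat_lit 1) (nat_lit 0) (.cons (.rf (nat_lit 91) (nat_lit 493858305440582043680)) (.cons (.ev (nat_lit 1213666705181741072515328) (nat_lit 1)) (.cons (.br (nat_lit 4) (nat_lit 0) (.cons (.ev (nat_lit 80162681191780442357907980800) (nat_lit 3)) .nil)) .nil)))),
 (.br (nat_lit 2) (nat_lit 0) (.cons (.rf (nat_lit 81) (nat_lit 493858305440582043680)) (.cons (.rf (nat_lit 90) (nat_lit 493858305440582043680)) (.cons (.br (nat_lit 1) (nat_lit 0) (.cons (.rf (nat_lit 91) (nat_lit 493858305440582043680)) (.cons (.rf (nat_lit 92) (nat_lit 493858305440582043680)) (.cons (.ev (nat_lit 309489750634573111608016896) (nat_lit 1)) (.cons (.br (nat_lit 1) (nat_lit 0) (.cons (.rf (nat_lit 91) (nat_lit 493858305440582043680)) (.cons (.rf (nat_lit 92) (nat_lit 493858305440582043680)) (.cons (.ev (nat_lit 309489750634573111608016896) (nat_lit 1)) .nil)))) .nil))))) .nil)))),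
 (.br (nat_lit 2) (nat_lit 0) (.cons (.rf (nat_lit 81) (nat_lit 493858305440582043680)) (.cons (.rf (nat_lit 90) (nat_lit 493858305440582043680)) (.cons (.rf (nat_lit 93) (nat_lit 493858305440582043680)) (.cons (.br (nat_lit 2) (nat_lit 0) (.cons (.rf (nat_lit 81) (nat_lit 493858305440582043680)) (.cons (.rf (nat_lit 90) (nat_lit 493858305440582043680)) (.cons (.rf (nat_lit 93) (nat_lit 493858305440582043680)) .nil)))) .nil))))),
 (.br (nat_lit 2) (nat_lit 0) (.cons (.rf (nat_lit 81) (nat_lit 493858305440582043680)) (.cons (.rf (nat_lit 90) (nat_lit 493858305440582043680)) (.cons (.rf (nat_lit 94) (nat_lit 493858305440582043680)) (.cons (.br (nat_lit 2) (nat_lit 0) (.cons (.rf (nat_lit 81) (nat_lit 493858305440582043680)) (.cons (.rf (nat_lit 90) (nat_lit 493858305440582043680)) (.cons (.rf (nat_lit 94) (nat_lit 493858305440582043680)) .nil)))) .nil))))),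
 (.br (nat_lit 2) (nat_lit 0) (.cons (.rf (nat_lit 81) (nat_lit 493858305440582043680)) (.cons (.rf (nat_lit 90) (nat_lit 493858305440582043680)) (.cons (.rf (nat_lit 94) (nat_lit 493858305440582043680)) (.cons (.rf (nat_lit 95) (nat_lit 493858305440582043680)) (.cons (.br (nat_lit 2) (nat_lit 0) (.cons (.rf (nat_lit 81) (nat_lit 493858305440582043680)) (.cons (.rf (nat_lit 90) (nat_lit 493858305440582043680)) (.cons (.rf (nat_lit 94) (nat_lit 493858305440582043680)) (.cons (.rf (nat_lit 95) (nat_lit 493858305440582043680)) .nil))))) .nil)))))),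
 (.br (nat_lit 1) (nat_lit 0) (.cons (.rf (nat_lit 96) (nat_lit 493858305440582043680)) (.cons (.br (nat_lit 3) (nat_lit 0) (.cons (.ev (nat_lit 20361637766165934761545107046656) (nat_lit 1)) .nil)) (.cons (.br (nat_lit 3) (nat_lit 0) (.cons (.ev (nat_lit 310698658079782736087744768) (nat_lit 1)) .nil)) .nil)))),
 (.br (nat_lit 1) (nat_lit 0) (.cons (.ev (nat_lit 309489750634573111608016896) (nat_lit 1)) (.cons (.rf (nat_lit 97) (nat_lit 493858305440582043680)) (.cons (.br (nat_lit 3) (nat_lit 0) (.cons (.ev (nat_lit 310698658079782736087744768) (nat_lit 1)) .nil)) .nil)))),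
 (.br (nat_lit 2) (nat_lit 0) (.cons (.rf (nat_lit 81) (nat_lit 493858305440582043680)) (.cons (.rf (nat_lit 96) (nat_lit 493858305440582042688)) (.cons (.br (nat_lit 1) (nat_lit 0) (.cons (.rf (nat_lit 96) (nat_lit 493858305440582043680)) (.cons (.rf (nat_lit 97) (nat_lit 493858305440582043680)) (.cons (.rf (nat_lit 98) (nat_lit 493858305440582043680)) (.cons (.br (nat_lit 1) (nat_lit 0) (.cons (.rf (nat_lit 96) (nat_lit 493858305440582043680)) (.cons (.rf (nat_lit 97) (nat_lit 493858305440582043680)) (.cons (.rf (nat_lit 98) (nat_lit 493858305440582043680)) .nil)))) .nil))))) .nil)))),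
 (.br (nat_lit 2) (nat_lit 0) (.cons (.rf (nat_lit 81) (nat_lit 493858305440582043680)) (.cons (.rf (nat_lit 96) (nat_lit 493858305440582042688)) (.cons (.rf (nat_lit 99) (nat_lit 493858305440582043680)) (.cons (.br (nat_lit 2) (nat_lit 0) (.cons (.rf (nat_lit 81) (nat_lit 493858305440582043680)) (.cons (.rf (nat_lit 96) (nat_lit 493858305440582042688)) (.cons (.rf (nat_lit 99) (nat_lit 493858305440582043680)) .nil)))) .nil))))),
 (.br (nat_lit 2) (nat_lit 0) (.cons (.rf (nat_lit 81) (nat_lit 493858305440582043680)) (.cons (.rf (nat_lit 96) (nat_lit 493858305440582042688)) (.cons (.rf (nat_lit 100) (nat_lit 493858305440582043680)) (.cons (.br (nat_lit 2) (nat_lit 0) (.cons (.rf (nat_lit 81) (nat_lit 493858305440582043680)) (.cons (.rf (nat_lit 96) (nat_lit 493858305440582042688)) (.cons (.rf (nat_lit 100) (nat_lit 493858305440582043680)) .nil)))) .nil))))),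
 (.br (nat_lit 2) (nat_lit 0) (.cons (.rf (nat_lit 81) (nat_lit 493858305440582043680)) (.cons (.rf (nat_lit 96) (nat_lit 493858305440582042688)) (.cons (.rf (nat_lit 100) (nat_lit 493858305440582043680)) (.cons (.rf (nat_lit 101) (nat_lit 493858305440582043680)) (.cons (.br (nat_lit 2) (nat_lit 0) (.cons (.rf (nat_lit 81) (nat_lit 493858305440582043680)) (.cons (.rf (nat_lit 96) (nat_lit 493858305440582042688)) (.cons (.rf (nat_lit 100) (nat_lit 493858305440582043680)) (.cons (.rf (nat_lit 101) (nat_lit 493858305440582043680)) .nil))))) .nil)))))),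
 (.br (nat_lit 2) (nat_lit 0) (.cons (.ev (nat_lit 1213666705181741072580608) (nat_lit 1)) (.cons (.rf (nat_lit 102) (nat_lit 493858305440582042688)) (.cons (.br (nat_lit 3) (nat_lit 0) (.cons (.ev (nat_lit 20361637766165934761545107046656) (nat_lit 1)) .nil)) .nil)))),
 (.br (nat_lit 2) (nat_lit 0) (.cons (.rf (nat_lit 96) (nat_lit 493858305440582042688)) (.cons (.rf (nat_lit 102) (nat_lit 493858305440582042688)) (.cons (.rf (nat_lit 103) (nat_lit 493858305440582043680)) (.cons (.br (nat_lit 2) (nat_lit 0) (.cons (.rf (nat_lit 96) (nat_lit 493858305440582042688)) (.cons (.rf (nat_lit 102) (nat_lit 493858305440582042688)) (.cons (.rf (nat_lit 103) (nat_lit 493858305440582043680)) .nil)))) .nil))))),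
 (.br (nat_lit 2) (nat_lit 0) (.cons (.ev (nat_lit 309489750634573111607951616) (nat_lit 1)) (.cons (.rf (nat_lit 102) (nat_lit 493858305440582042688)) (.cons (.rf (nat_lit 104) (nat_lit 493858305440582043680)) (.cons (.br (nat_lit 2) (nat_lit 0) (.cons (.ev (nat_lit 309489750634573111607951616) (nat_lit 1)) (.cons (.rf (nat_lit 102) (nat_lit 493858305440582042688)) (.cons (.rf (nat_lit 104) (nat_lit 493858305440582043680)) .nil)))) .nil))))),
 (.br (nat_lit 1) (nat_lit 0) (.cons (.rf (nat_lit 81) (nat_lit 493858305440582043680)) (.cons (.rf (nat_lit 96) (nat_lit 493858305440582043680)) (.cons (.rf (nat_lit 102) (nat_lit 493858305440582043680)) (.cons (.br (nat_lit 2) (nat_lit 0) (.cons (.rf (nat_lit 96) (nat_lit 493858305440582042688)) (.cons (.rf (nat_lit 102) (nat_lit 493858305440582042688)) (.cons (.rf (nat_lit 104) (nat_lit 493858305440582043680)) (.cons (.rf (nat_lit 105) (nat_lit 493858305440582043680)) (.cons (.br (nat_lit 2) (nat_lit 0) (.cons (.rf (nat_lit 96) (nat_lit 493858305440582042688))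 (.cons (.rf (nat_lit 102) (nat_lit 493858305440582042688)) (.cons (.rf (nat_lit 104) (nat_lit 493858305440582043680)) (.cons (.rf (nat_lit 105) (nat_lit 493858305440582043680)) .nil))))) .nil)))))) .nil))))),
 (.br (nat_lit 1) (nat_lit 0) (.cons (.rf (nat_lit 81) (nat_lit 493858305440582043680)) (.cons (.rf (nat_lit 96) (nat_lit 493858305440582043680)) (.cons (.rf (nat_lit 102) (nat_lit 493858305440582043680)) (.cons (.rf (nat_lit 106) (nat_lit 493858305440582043680)) (.cons (.br (nat_lit 1) (nat_lit 0) (.cons (.rf (nat_lit 81) (nat_lit 493858305440582043680)) (.cons (.rf (nat_lit 96) (nat_lit 493858305440582043680)) (.cons (.rf (nat_lit 102) (nat_lit 493858305440582043680)) (.cons (.rf (nat_lit 106) (nat_lit 493858305440582043680)) .nil))))) .nil)))))),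
 (.br (nat_lit 1) (nat_lit 0) (.cons (.rf (nat_lit 81) (nat_lit 493858305440582043680)) (.cons (.rf (nat_lit 96) (nat_lit 493858305440582043680)) (.cons (.rf (nat_lit 102) (nat_lit 493858305440582043680)) (.cons (.rf (nat_lit 107) (nat_lit 493858305440582043680)) (.cons (.br (nat_lit 1) (nat_lit 0) (.cons (.rf (nat_lit 81) (nat_lit 493858305440582043680)) (.cons (.rf (nat_lit 96) (nat_lit 493858305440582043680)) (.cons (.rf (nat_lit 102) (nat_lit 493858305440582043680)) (.cons (.rf (nat_lit 107) (nat_lit 493858305440582043680)) .nil))))) .nil))))))]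

theorem c2 : chkAll C T R L2 (nat_lit 80) = true := by decide +kernel

theorem l2 : (nat_lit 80) + L2.length = (nat_lit 109) := by decide +kernel

/-- part of the certificates -/
def L3 : List Prf := [(.br (nat_lit 8) (nat_lit 1) (.cons (.br (nat_lit 11) (nat_lit 1) (.cons (.br (nat_lit 1) (nat_lit 0) (.cons (.rf (nat_lit 81) (nat_lit 493858305440582043680)) (.cons (.rf (nat_lit 96) (nat_lit 493858305440582043680)) (.cons (.rf (nat_lit 102) (nat_lit 493858305440582043680)) (.cons (.rf (nat_lit 107) (nat_lit 493858305440582043680)) (.cons (.rf (nat_lit 108) (nat_lit 493858305440582043680)) (.cons (.br (nat_lit 1) (nat_lit 0) (.cons (.rf (nat_lit 81) (nat_lit 493858305440582043680)) (.cons (.rf (nat_lit 96) (nat_lit 493858305440582043680)) (.cons (.rf (nat_lit 102) (nat_lit 493858305440582043680)) (.cons (.rf (nat_lit 107) (nat_lit 493858305440582043680)) (.cons (.rf (nat_lit 108) (nat_lit 493858305440582043680)) .nil)))))) .nil))))))) .nil)) .nil)),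
 (.br (nat_lit 10) (nat_lit 1) (.cons (.rf (nat_lit 2) (nat_lit 10469)) (.cons (.br (nat_lit 7) (nat_lit 1) (.cons (.rf (nat_lit 12) (nat_lit 11806949)) (.cons (.rf (nat_lit 12) (nat_lit 8759525)) (.cons (.br (nat_lit 11) (nat_lit 0) (.cons (.br (nat_lit 12) (nat_lit 0) (.cons (.br (nat_lit 8) (nat_lit 1) (.cons (.rf (nat_lit 109) (nat_lit 493858305440582043680)) (.cons (.br (nat_lit 8) (nat_lit 1) (.cons (.rf (nat_lit 109) (nat_lit 493858305440582043680)) .nil)) .nil))) .nil)) .nil)) .nil)))) .nil))),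
 (.br (nat_lit 4) (nat_lit 1) (.cons (.br (nat_lit 4) (nat_lit 1) (.cons (.rf (nat_lit 7) (nat_lit 2354187296)) .nil)) (.cons (.rf (nat_lit 7) (nat_lit 2354187296)) .nil))),
 (.br (nat_lit 4) (nat_lit 1) (.cons (.br (nat_lit 8) (nat_lit 0) (.cons (.br (nat_lit 9) (nat_lit 0) (.cons (.rf (nat_lit 111) (nat_lit 11048031362)) .nil)) .nil)) (.cons (.rf (nat_lit 12) (nat_lit 9706626)) (.cons (.rf (nat_lit 12) (nat_lit 8690818)) .nil)))),
 (.br (nat_lit 10) (nat_lit 1) (.cons (.rf (nat_lit 2) (nat_lit 10469)) (.cons (.rf (nat_lit 110) (nat_lit 11584701642934304)) (.cons (.br (nat_lit 10) (nat_lit 1) (.cons (.rf (nat_lit 2) (nat_lit 10469)) (.cons (.rf (nat_lit 110) (nat_lit 11584701642934304)) (.cons (.rf (nat_lit 112) (nat_lit 434660630008963)) .nil)))) .nil)))),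
 (.br (nat_lit 1) (nat_lit 0) (.cons (.kr (nat_lit 1) (nat_lit 256) (nat_lit 0) (nat_lit 2)) (.cons (.rf (nat_lit 68) (nat_lit 244987299841)) (.cons (.kr (nat_lit 310693935713017291937415170) (nat_lit 20282409603670117169120472465920) (nat_lit 0) (nat_lit 2)) (.cons (.kr (nat_lit 20282719088661563826610013995010) (nat_lit 1208944266359802395886080) (nat_lit 0) (nat_lit 2)) .nil))))),
 (.br (nat_lit 1) (nat_lit 0) (.cons (.kr (nat_lit 1) (nat_lit 256) (nat_lit 0) (nat_lit 2)) (.cons (.rf (nat_lit 114) (nat_lit 493858305437360914497)) (.cons (.rf (nat_lit 21) (nat_lit 455563107028086916098)) (.cons (.rf (nat_lit 77) (nat_lit 455881527788074894338)) .nil))))),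
 (.br (nat_lit 5) (nat_lit 0) (.cons (.ev (nat_lit 79537647542532708210954993664) (nat_lit 1)) .nil)),
 (.br (nat_lit 2) (nat_lit 0) (.cons (.kr (nat_lit 310693935713017291937415170) (nat_lit 20282409603670117169120472596480) (nat_lit 0) (nat_lit 1)) (.cons (.rf (nat_lit 113) (nat_lit 9159107123807234)) (.cons (.br (nat_lit 1) (nat_lit 0) (.cons (.kr (nat_lit 1) (nat_lit 256) (nat_lit 0) (nat_lit 2)) (.cons (.br (nat_lit 9) (nat_lit 0) (.cons (.rf (nat_lit 116) (nat_lit 15433072045017106464)) (.cons (.rf (nat_lit 116) (nat_lit 15433072044916541441)) (.cons (.ev (nat_lit 79229376162522492686401798401) (nat_lit 1)) .nil)))) (.cons (.kr (nat_lit 20282719088661563826610013995520) (nat_lit 1208944266359802396016640) (nat_lit 1) (nat_lit 0)) (.cons (.kr (nat_lit 310693935713017291937415680) (nat_lit 20282409603670117169120472596480) (nat_lit 1) (nat_lit 0)) .nil))))) .nil)))),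
 (.br (nat_lit 2) (nat_lit 0) (.cons (.rf (nat_lit 114) (nat_lit 493858305440582042688)) (.cons (.rf (nat_lit 115) (nat_lit 493858305440582043680)) (.cons (.rf (nat_lit 117) (nat_lit 493858305440582043680)) (.cons (.br (nat_lit 2) (nat_lit 0) (.cons (.kr (nat_lit 20282719088661563826610013995010) (nat_lit 1208944266359802396016640) (nat_lit 0) (nat_lit 1)) (.cons (.rf (nat_lit 115) (nat_lit 493858305440582043680)) (.cons (.rf (nat_lit 117) (nat_lit 493858305440582043680)) .nil)))) .nil))))),
 (.br (nat_lit 2) (nat_lit 0) (.cons (.kr (nat_lit 310693935713017291937415170) (nat_lit 20282409603670117169120472596480) (nat_lit 0) (nat_lit 1)) (.cons (.rf (nat_lit 21) (nat_lit 455563107028086917121)) (.cons (.kr (nat_lit 1208925819614629174706432) (nat_lit 20282409603651670423947251351552) (nat_lit 1) (nat_lit 0)) (.cons (.br (nat_lit 6) (nat_lit 0) (.cons (.br (nat_lit 4) (nat_lit 0) (.cons (.ev (nat_lit 79228167255149904705424982273) (nat_lit 1)) .nil)) (.cons (.br (nat_lit 3) (nat_lit 0)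 (.cons (.ev (nat_lit 79228167255149904705424982273) (nat_lit 1)) .nil)) (.cons (.ev (nat_lit 79537652246452447006890655744) (nat_lit 1)) .nil)))) .nil))))),
 (.br (nat_lit 1) (nat_lit 0) (.cons (.rf (nat_lit 68) (nat_lit 244987299841)) (.cons (.rf (nat_lit 118) (nat_lit 493858305440582043680)) (.cons (.rf (nat_lit 113) (nat_lit 9159107123808257)) (.cons (.br (nat_lit 2) (nat_lit 0) (.cons (.rf (nat_lit 114) (nat_lit 493858305440582042688)) (.cons (.rf (nat_lit 118) (nat_lit 493858305440582042688)) (.cons (.br (nat_lit 2) (nat_lit 0) (.cons (.rf (nat_lit 68) (nat_lit 244987298818)) (.cons (.kr (nat_lit 1208944266359802395886080) (nat_lit 20282719088661563826610014126080) (nat_lit 1) (nat_lit 0)) (.cons (.kr (nat_lit 1208925819614629174706432) (nat_lit 20282409603651670423947251351552) (nat_lit 1) (nat_lit 0)) (.cons (.kr (nat_lit 256) (nat_lit 65536) (nat_lit 1) (nat_lit 0)) .nil))))) (.cons (.rf (nat_lit 119) (nat_lit 493858305440582043680)) (.cons (.br (nat_lit 2) (nat_lit 0) (.cons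 (.kr (nat_lit 20282719088661563826610013995010) (nat_lit 1208944266359802396016640) (nat_lit 0) (nat_lit 1)) (.cons (.rf (nat_lit 77) (nat_lit 455881527788074895361)) (.cons (.kr (nat_lit 256) (nat_lit 65536) (nat_lit 1) (nat_lit 0)) (.cons (.rf (nat_lit 119) (nat_lit 493858305440582043680)) .nil))))) .nil)))))) .nil))))),
 (.br (nat_lit 1) (nat_lit 0) (.cons (.kr (nat_lit 310693935713017291937415170) (nat_lit 20282409603670117169120472465920) (nat_lit 0) (nat_lit 2)) (.cons (.rf (nat_lit 118) (nat_lit 493858305440582043680)) (.cons (.rf (nat_lit 113) (nat_lit 9159107123808257)) (.cons (.br (nat_lit 2) (nat_lit 0) (.cons (.rf (nat_lit 114) (nat_lit 493858305440582042688)) (.cons (.rf (nat_lit 118) (nat_lit 493858305440582042688)) (.cons (.rf (nat_lit 120) (nat_lit 493858305440582042688)) (.cons (.br (nat_lit 2) (nat_lit 0) (.cons (.kr (nat_lit 310693935713017291937415170) (nat_lit 20282409603670117169120472596480) (nat_lit 0) (nat_lit 1)) (.cons (.kr (nat_lit 1208944266359802395886080)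 (nat_lit 20282719088661563826610014126080) (nat_lit 1) (nat_lit 0)) (.cons (.rf (nat_lit 113) (nat_lit 9159107123807234)) (.cons (.kr (nat_lit 256) (nat_lit 65536) (nat_lit 1) (nat_lit 0)) .nil))))) (.cons (.br (nat_lit 2) (nat_lit 0) (.cons (.kr (nat_lit 20282719088661563826610013995010) (nat_lit 1208944266359802396016640) (nat_lit 0) (nat_lit 1)) (.cons (.kr (nat_lit 20282409603670117169120472465920) (nat_lit 310693935713017291937546240) (nat_lit 1) (nat_lit 0)) (.cons (.rf (nat_lit 120) (nat_lit 493858305440582042688)) (.cons (.kr (nat_lit 256) (nat_lit 65536) (nat_lit 1) (nat_lit 0)) .nil))))) .nil)))))) .nil))))),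
 (.br (nat_lit 1) (nat_lit 0) (.cons (.rf (nat_lit 114) (nat_lit 493858305440582043680)) (.cons (.rf (nat_lit 118) (nat_lit 493858305440582043680)) (.cons (.rf (nat_lit 120) (nat_lit 493858305440582043680)) (.cons (.rf (nat_lit 121) (nat_lit 493858305440582043680)) (.cons (.br (nat_lit 1) (nat_lit 0) (.cons (.kr (nat_lit 20282719088661563826610013995010) (nat_lit 1208944266359802395886080) (nat_lit 0) (nat_lit 2)) (.cons (.rf (nat_lit 118) (nat_lit 493858305440582043680)) (.cons (.rf (nat_lit 120) (nat_lit 493858305440582043680)) (.cons (.rf (nat_lit 121) (nat_lit 493858305440582043680)) .nil))))) .nil)))))),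
 (.br (nat_lit 6) (nat_lit 0) (.cons (.br (nat_lit 1) (nat_lit 0) (.cons (.rf (nat_lit 25) (nat_lit 6748735520)) (.cons (.br (nat_lit 12) (nat_lit 0) (.cons (.br (nat_lit 9) (nat_lit 0) (.cons (.ev (nat_lit 80160249062072783812008542720) (nat_lit 2)) .nil)) (.cons (.br (nat_lit 2) (nat_lit 0) (.cons (.ev (nat_lit 80160249062072783812008542720) (nat_lit 2)) .nil)) .nil))) (.cons (.br (nat_lit 9) (nat_lit 0) (.cons (.br (nat_lit 9) (nat_lit 0) (.cons (.ev (nat_lit 79848346182093969667628531712) (nat_lit 2)) .nil)) (.cons (.br (nat_lit 2) (nat_lit 0) (.cons (.ev (nat_lit 79848346182093969667628531712) (nat_lit 2)) .nil)) .nil))) .nil)))) (.cons (.ev (nat_lit 72339073309605889) (nat_lit 1)) (.cons (.ev (nat_lit 309485028268371721217638401) (nat_lit 1)) .nil)))),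
 (.br (nat_lit 6) (nat_lit 0) (.cons (.ev (nat_lit 79228167255149904705424982016) (nat_lit 1)) .nil)),
 (.br (nat_lit 6) (nat_lit 0) (.cons (.ev (nat_lit 310693954087985246585749504) (nat_lit 1)) .nil)),
 (.br (nat_lit 1) (nat_lit 0) (.cons (.kr (nat_lit 310693935713017291937415170) (nat_lit 20282409603670117169120472465920) (nat_lit 0) (nat_lit 2)) (.cons (.rf (nat_lit 123) (nat_lit 493858305440582043680)) (.cons (.br (nat_lit 2) (nat_lit 0) (.cons (.br (nat_lit 2) (nat_lit 0) (.cons (.rf (nat_lit 124) (nat_lit 493858305440582043680)) (.cons (.rf (nat_lit 125) (nat_lit 15433072009550071840)) .nil))) (.cons (.br (nat_lit 2) (nat_lit 0) (.cons (.rf (nat_lit 124) (nat_lit 493858305440582043680)) (.cons (.ev (nat_lit 310693935640959702194520064) (nat_lit 1)) .nil))) (.cons (.br (nat_lit 2) (nat_lit 0) (.cons (.rf (nat_lit 125) (nat_lit 15433072009550071840)) (.cons (.ev (nat_lit 310693935640959702194520064) (nat_lit 1)) .nil))) .nil)))) .nil)))),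
 (.br (nat_lit 1) (nat_lit 0) (.cons (.rf (nat_lit 122) (nat_lit 493858305440582043680)) (.cons (.rf (nat_lit 123) (nat_lit 493858305440582043680)) (.cons (.rf (nat_lit 126) (nat_lit 493858305440582043680)) (.cons (.br (nat_lit 1) (nat_lit 0) (.cons (.kr (nat_lit 20282719088661563826610013995010) (nat_lit 1208944266359802395886080) (nat_lit 0) (nat_lit 2)) (.cons (.rf (nat_lit 123) (nat_lit 493858305440582043680)) (.cons (.rf (nat_lit 126) (nat_lit 493858305440582043680)) .nil)))) .nil))))),
 (.br (nat_lit 6) (nat_lit 0) (.cons (.ev (nat_lit 20283963073422181568864025970180) (nat_lit 3)) (.cons (.ev (nat_lit 72339073309605889) (nat_lit 1)) (.cons (.ev (nat_lit 309485028268371721217638401) (nat_lit 1)) .nil)))),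
 (.br (nat_lit 4) (nat_lit 0) (.cons (.ev (nat_lit 20283963073422181568864025970180) (nat_lit 3)) (.cons (.ev (nat_lit 72339073309605889) (nat_lit 1)) (.cons (.ev (nat_lit 309485028268371721217638401) (nat_lit 1)) .nil)))),
 (.br (nat_lit 1) (nat_lit 0) (.cons (.rf (nat_lit 128) (nat_lit 493858305440582043680)) (.cons (.rf (nat_lit 129) (nat_lit 493858305440582043680)) (.cons (.br (nat_lit 4) (nat_lit 0) (.cons (.ev (nat_lit 1208944338417400728846593) (nat_lit 1)) .nil)) .nil)))),
 (.br (nat_lit 2) (nat_lit 0) (.cons (.rf (nat_lit 113) (nat_lit 9159107123807234)) (.cons (.rf (nat_lit 127) (nat_lit 493858305440582043680)) (.cons (.br (nat_lit 1) (nat_lit 0) (.cons (.rf (nat_lit 128) (nat_lit 493858305440582043680)) (.cons (.rf (nat_lit 129) (nat_lit 493858305440582043680)) (.cons (.rf (nat_lit 130) (nat_lit 493858305440582043680)) (.cons (.br (nat_lit 1) (nat_lit 0) (.cons (.rf (nat_lit 128) (nat_lit 493858305440582043680)) (.cons (.rf (nat_lit 129) (nat_lit 493858305440582043680)) (.cons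 (.rf (nat_lit 130) (nat_lit 493858305440582043680)) .nil)))) .nil))))) .nil)))),
 (.br (nat_lit 2) (nat_lit 0) (.cons (.rf (nat_lit 122) (nat_lit 493858305440582043680)) (.cons (.rf (nat_lit 127) (nat_lit 493858305440582043680)) (.cons (.rf (nat_lit 131) (nat_lit 493858305440582043680)) (.cons (.br (nat_lit 2) (nat_lit 0) (.cons (.rf (nat_lit 122) (nat_lit 493858305440582043680)) (.cons (.rf (nat_lit 127) (nat_lit 493858305440582043680)) (.cons (.rf (nat_lit 131) (nat_lit 493858305440582043680)) .nil)))) .nil))))),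
 (.br (nat_lit 2) (nat_lit 0) (.cons (.rf (nat_lit 122) (nat_lit 493858305440582043680)) (.cons (.rf (nat_lit 127) (nat_lit 493858305440582043680)) (.cons (.rf (nat_lit 132) (nat_lit 493858305440582043680)) (.cons (.br (nat_lit 2) (nat_lit 0) (.cons (.rf (nat_lit 122) (nat_lit 493858305440582043680)) (.cons (.ev (nat_lit 310693935640959702194520064) (nat_lit 1)) (.cons (.rf (nat_lit 132) (nat_lit 493858305440582043680)) .nil)))) .nil))))),
 (.br (nat_lit 2) (nat_lit 0) (.cons (.rf (nat_lit 122) (nat_lit 493858305440582043680)) (.cons (.rf (nat_lit 127) (nat_lit 493858305440582043680)) (.cons (.rf (nat_lit 132) (nat_lit 493858305440582043680)) (.cons (.rf (nat_lit 133) (nat_lit 493858305440582043680)) (.cons (.br (nat_lit 2) (nat_lit 0) (.cons (.rf (nat_lit 122) (nat_lit 493858305440582043680)) (.cons (.rf (nat_lit 127) (nat_lit 493858305440582043680)) (.cons (.rf (nat_lit 132) (nat_lit 493858305440582043680)) (.cons (.rf (nat_lit 133) (nat_lit 493858305440582043680)) .nil))))) .nil)))))),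
 (.br (nat_lit 1) (nat_lit 0) (.cons (.ev (nat_lit 1213648186097503114887424) (nat_lit 1)) .nil)),
 (.br (nat_lit 2) (nat_lit 0) (.cons (.rf (nat_lit 113) (nat_lit 9159107123807234)) (.cons (.rf (nat_lit 134) (nat_lit 493858305440582042688)) (.cons (.br (nat_lit 6) (nat_lit 0) (.cons (.br (nat_lit 1) (nat_lit 0) (.cons (.ev (nat_lit 20283963073422181568864025970180) (nat_lit 3)) (.cons (.br (nat_lit 3) (nat_lit 0) (.cons (.ev (nat_lit 79537652246452447006890656001) (nat_lit 1)) .nil)) (.cons (.br (nat_lit 3) (nat_lit 0) (.cons (.ev (nat_lit 79228167255149904705424982273) (nat_lit 1)) .nil)) .nil)))) (.cons (.br (nat_lit 1) (nat_lit 0) (.cons (.rf (nat_lit 135) (nat_lit 15433072043909810208)) (.cons (.br (nat_lit 1) (nat_lit 0) (.cons (.ev (nat_lit 310693935640959702194454784) (nat_lit 1)) .nil)) .nil))) (.cons (.ev (nat_lit 72339073309605889) (nat_lit 1)) (.cons (.ev (nat_lit 309485028268371721217638401) (nat_lit 1)) .nil))))) .nil)))),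
 (.br (nat_lit 2) (nat_lit 0) (.cons (.rf (nat_lit 122) (nat_lit 493858305440582043680)) (.cons (.rf (nat_lit 134) (nat_lit 493858305440582042688)) (.cons (.rf (nat_lit 136) (nat_lit 493858305440582043680)) (.cons (.br (nat_lit 2) (nat_lit 0) (.cons (.rf (nat_lit 122) (nat_lit 493858305440582043680)) (.cons (.rf (nat_lit 134) (nat_lit 493858305440582042688)) (.cons (.rf (nat_lit 136) (nat_lit 493858305440582043680)) .nil)))) .nil))))),
 (.br (nat_lit 2) (nat_lit 0) (.cons (.rf (nat_lit 122) (nat_lit 493858305440582043680)) (.cons (.rf (nat_lit 134) (nat_lit 493858305440582042688)) (.cons (.rf (nat_lit 137) (nat_lit 493858305440582043680)) (.cons (.br (nat_lit 2) (nat_lit 0) (.cons (.rf (nat_lit 122) (nat_lit 493858305440582043680)) (.cons (.rf (nat_lit 134) (nat_lit 493858305440582042688)) (.cons (.rf (nat_lit 137) (nat_lit 493858305440582043680)) .nil)))) .nil))))),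
 (.br (nat_lit 2) (nat_lit 0) (.cons (.rf (nat_lit 122) (nat_lit 493858305440582043680)) (.cons (.rf (nat_lit 134) (nat_lit 493858305440582042688)) (.cons (.rf (nat_lit 137) (nat_lit 493858305440582043680)) (.cons (.rf (nat_lit 138) (nat_lit 493858305440582043680)) (.cons (.br (nat_lit 2) (nat_lit 0) (.cons (.rf (nat_lit 122) (nat_lit 493858305440582043680)) (.cons (.rf (nat_lit 134) (nat_lit 493858305440582042688)) (.cons (.rf (nat_lit 137) (nat_lit 493858305440582043680)) (.cons (.rf (nat_lit 138) (nat_lit 493858305440582043680)) .nil))))) .nil))))))]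

theorem c3 : chkAll C T R L3 (nat_lit 109) = true := by decide +kernel

theorem l3 : (nat_lit 109) + L3.length = (nat_lit 140) := by decide +kernel

/-- part of the certificates -/
def L4 : List Prf := [(.br (nat_lit 2) (nat_lit 0) (.cons (.ev (nat_lit 79229371440083952227013689601) (nat_lit 1)) .nil)),
 (.br (nat_lit 4) (nat_lit 0) (.cons (.rf (nat_lit 139) (nat_lit 493858305440582042688)) (.cons (.br (nat_lit 2) (nat_lit 0) (.cons (.br (nat_lit 2) (nat_lit 0) (.cons (.ev (nat_lit 1208944338417400728846593) (nat_lit 1)) .nil)) (.cons (.rf (nat_lit 140) (nat_lit 15433072043909810208)) .nil))) (.cons (.ev (nat_lit 72339073309605889) (nat_lit 1)) (.cons (.ev (nat_lit 309485028268371721217638401) (nat_lit 1)) .nil))))),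
 (.br (nat_lit 2) (nat_lit 0) (.cons (.rf (nat_lit 134) (nat_lit 493858305440582042688)) (.cons (.rf (nat_lit 139) (nat_lit 493858305440582042688)) (.cons (.rf (nat_lit 141) (nat_lit 493858305440582043680)) (.cons (.br (nat_lit 2) (nat_lit 0) (.cons (.rf (nat_lit 134) (nat_lit 493858305440582042688)) (.cons (.ev (nat_lit 310693935640959702194520064) (nat_lit 1)) (.cons (.rf (nat_lit 141) (nat_lit 493858305440582043680)) .nil)))) .nil))))),
 (.br (nat_lit 1) (nat_lit 0) (.cons (.rf (nat_lit 113) (nat_lit 9159107123808257)) (.cons (.rf (nat_lit 134) (nat_lit 493858305440582043680)) (.cons (.rf (nat_lit 139) (nat_lit 493858305440582043680)) (.cons (.br (nat_lit 2) (nat_lit 0) (.cons (.rf (nat_lit 134) (nat_lit 493858305440582042688)) (.cons (.rf (nat_lit 139) (nat_lit 493858305440582042688)) (.cons (.rf (nat_lit 141) (nat_lit 493858305440582043680)) (.cons (.rf (nat_lit 142) (nat_lit 493858305440582043680)) (.cons (.br (nat_lit 2) (nat_lit 0) (.cons (.rf (nat_lit 134) (nat_lit 493858305440582042688))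 (.cons (.rf (nat_lit 139) (nat_lit 493858305440582042688)) (.cons (.rf (nat_lit 141) (nat_lit 493858305440582043680)) (.cons (.rf (nat_lit 142) (nat_lit 493858305440582043680)) .nil))))) .nil)))))) .nil))))),
 (.br (nat_lit 1) (nat_lit 0) (.cons (.rf (nat_lit 122) (nat_lit 493858305440582043680)) (.cons (.rf (nat_lit 134) (nat_lit 493858305440582043680)) (.cons (.rf (nat_lit 139) (nat_lit 493858305440582043680)) (.cons (.rf (nat_lit 143) (nat_lit 493858305440582043680)) (.cons (.br (nat_lit 1) (nat_lit 0) (.cons (.rf (nat_lit 122) (nat_lit 493858305440582043680)) (.cons (.rf (nat_lit 134) (nat_lit 493858305440582043680)) (.cons (.rf (nat_lit 139) (nat_lit 493858305440582043680)) (.cons (.rf (nat_lit 143) (nat_lit 493858305440582043680)) .nil))))) .nil)))))),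
 (.br (nat_lit 1) (nat_lit 0) (.cons (.rf (nat_lit 122) (nat_lit 493858305440582043680)) (.cons (.rf (nat_lit 134) (nat_lit 493858305440582043680)) (.cons (.rf (nat_lit 139) (nat_lit 493858305440582043680)) (.cons (.rf (nat_lit 144) (nat_lit 493858305440582043680)) (.cons (.br (nat_lit 1) (nat_lit 0) (.cons (.rf (nat_lit 122) (nat_lit 493858305440582043680)) (.cons (.rf (nat_lit 134) (nat_lit 493858305440582043680)) (.cons (.ev (nat_lit 310693935640959702194454784) (nat_lit 1)) (.cons (.rf (nat_lit 144) (nat_lit 493858305440582043680)) .nil))))) .nil)))))),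
 (.br (nat_lit 10) (nat_lit 1) (.cons (.br (nat_lit 11) (nat_lit 1) (.cons (.br (nat_lit 1) (nat_lit 0) (.cons (.rf (nat_lit 122) (nat_lit 493858305440582043680)) (.cons (.rf (nat_lit 134) (nat_lit 493858305440582043680)) (.cons (.rf (nat_lit 139) (nat_lit 493858305440582043680)) (.cons (.rf (nat_lit 144) (nat_lit 493858305440582043680)) (.cons (.rf (nat_lit 145) (nat_lit 493858305440582043680)) (.cons (.br (nat_lit 1) (nat_lit 0) (.cons (.rf (nat_lit 122) (nat_lit 493858305440582043680)) (.cons (.rf (nat_lit 134) (nat_lit 493858305440582043680)) (.cons (.rf (nat_lit 139) (nat_lit 493858305440582043680)) (.cons (.rf (nat_lit 144) (nat_lit 493858305440582043680)) (.cons (.rf (nat_lit 145) (nat_lit 493858305440582043680)) .nil)))))) .nil))))))) .nil)) .nil)),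
 (.br (nat_lit 8) (nat_lit 1) (.cons (.rf (nat_lit 12) (nat_lit 10854567)) (.cons (.br (nat_lit 10) (nat_lit 1) (.cons (.rf (nat_lit 146) (nat_lit 493858305440582043680)) (.cons (.br (nat_lit 10) (nat_lit 1) (.cons (.rf (nat_lit 146) (nat_lit 493858305440582043680)) .nil)) .nil))) .nil))),
 (.br (nat_lit 8) (nat_lit 1) (.cons (.rf (nat_lit 147) (nat_lit 493858305440582043680)) (.cons (.rf (nat_lit 12) (nat_lit 10759397)) (.cons (.br (nat_lit 8) (nat_lit 1) (.cons (.rf (nat_lit 147) (nat_lit 493858305440582043680)) (.cons (.rf (nat_lit 12) (nat_lit 14000295)) .nil))) .nil)))),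
 (.br (nat_lit 5) (nat_lit 1) (.cons (.br (nat_lit 8) (nat_lit 1) (.cons (.br (nat_lit 7) (nat_lit 1) (.cons (.kr (nat_lit 1208925891672223212699648) (nat_lit 18446745177516146688) (nat_lit 2) (nat_lit 0)) .nil)) (.cons (.rf (nat_lit 12) (nat_lit 5578882)) .nil))) .nil)),
 (.br (nat_lit 5) (nat_lit 1) (.cons (.rf (nat_lit 149) (nat_lit 11584701642934304)) (.cons (.br (nat_lit 5) (nat_lit 1) (.cons (.rf (nat_lit 149) (nat_lit 11584701642934304)) .nil)) .nil))),
 (.br (nat_lit 5) (nat_lit 1) (.cons (.rf (nat_lit 150) (nat_lit 11584701642934304)) (.cons (.br (nat_lit 5) (nat_lit 1) (.cons (.rf (nat_lit 150) (nat_lit 11584701642934304)) .nil)) .nil))),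
 (.br (nat_lit 5) (nat_lit 1) (.cons (.rf (nat_lit 150) (nat_lit 11584701642934304)) (.cons (.rf (nat_lit 151) (nat_lit 11584701642934304)) (.cons (.br (nat_lit 5) (nat_lit 1) (.cons (.rf (nat_lit 150) (nat_lit 11584701642934304)) (.cons (.rf (nat_lit 151) (nat_lit 11584701642934304)) .nil))) .nil)))),
 (.br (nat_lit 7) (nat_lit 0) (.cons (.br (nat_lit 9) (nat_lit 1) (.cons (.br (nat_lit 5) (nat_lit 1) (.cons (.rf (nat_lit 1) (nat_lit 7476419)) (.cons (.rf (nat_lit 71) (nat_lit 353537037443)) (.cons (.rf (nat_lit 113) (nat_lit 11584701642934304)) (.cons (.br (nat_lit 11) (nat_lit 0) (.cons (.br (nat_lit 12) (nat_lit 1) (.cons (.br (nat_lit 7) (nat_lit 1) (.cons (.br (nat_lit 10) (nat_lit 1) (.cons (.rf (nat_lit 147) (nat_lit 493858305440582043680)) (.cons (.rf (nat_lit 148) (nat_lit 493858305440582043680)) (.cons (.br (nat_lit 10) (nat_lit 1) (.cons (.rf (nat_lit 147) (nat_lit 493858305440582043680)) (.cons (.rf (nat_lit 148) (nat_lit 493858305440582043680)) .nil))) .nil)))) (.cons (.rf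 (nat_lit 71) (nat_lit 279513865507)) (.cons (.rf (nat_lit 2) (nat_lit 11493)) (.cons (.rf (nat_lit 152) (nat_lit 15071359418963075)) .nil))))) .nil)) .nil)) .nil))))) .nil)) .nil)),
 (.br (nat_lit 7) (nat_lit 1) (.cons (.br (nat_lit 9) (nat_lit 1) (.cons (.kr (nat_lit 1213648186097498819985408) (nat_lit 72058697844523008) (nat_lit 2) (nat_lit 0)) .nil)) .nil)),
 (.br (nat_lit 4) (nat_lit 1) (.cons (.rf (nat_lit 12) (nat_lit 9671810)) (.cons (.rf (nat_lit 12) (nat_lit 7640194)) (.cons (.br (nat_lit 7) (nat_lit 1) (.cons (.rf (nat_lit 154) (nat_lit 11584701642934304)) (.cons (.br (nat_lit 7) (nat_lit 1) (.cons (.rf (nat_lit 154) (nat_lit 11584701642934304)) .nil)) .nil))) .nil)))),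
 (.br (nat_lit 5) (nat_lit 1) (.cons (.rf (nat_lit 2) (nat_lit 5250)) (.cons (.rf (nat_lit 155) (nat_lit 11584701642934304)) (.cons (.rf (nat_lit 155) (nat_lit 10491789232408608)) .nil)))),
 (.br (nat_lit 6) (nat_lit 0) (.cons (.rf (nat_lit 25) (nat_lit 6748735520)) (.cons (.ev (nat_lit 79228162532711364246036807681) (nat_lit 1)) (.cons (.ev (nat_lit 79229371440156291296028262401) (nat_lit 1)) .nil)))),
 (.br (nat_lit 4) (nat_lit 0) (.cons (.rf (nat_lit 25) (nat_lit 6715181088)) (.cons (.ev (nat_lit 309485009893685241546014721) (nat_lit 1)) (.cons (.ev (nat_lit 79228162514336677766365184001) (nat_lit 1)) .nil)))),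
 (.br (nat_lit 9) (nat_lit 0) (.cons (.br (nat_lit 6) (nat_lit 0) (.cons (.ev (nat_lit 309489750634573111591239681) (nat_lit 1)) .nil)) (.cons (.br (nat_lit 4) (nat_lit 0) (.cons (.ev (nat_lit 309489750634573111591239681) (nat_lit 1)) .nil)) (.cons (.ev (nat_lit 20361947255916569334652386476288) (nat_lit 1)) .nil)))),
 (.br (nat_lit 2) (nat_lit 0) (.cons (.rf (nat_lit 157) (nat_lit 493858305440582043680)) (.cons (.rf (nat_lit 158) (nat_lit 15433072043909810208)) (.cons (.rf (nat_lit 159) (nat_lit 493858305440582043680)) .nil)))),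
 (.br (nat_lit 6) (nat_lit 0) (.cons (.ev (nat_lit 1208944266641277389439233) (nat_lit 1)) (.cons (.ev (nat_lit 72339069031481601) (nat_lit 1)) .nil))),
 (.br (nat_lit 2) (nat_lit 0) (.cons (.rf (nat_lit 161) (nat_lit 493858305440582043680)) (.cons (.rf (nat_lit 25) (nat_lit 9869297696)) (.cons (.br (nat_lit 9) (nat_lit 0) (.cons (.br (nat_lit 6) (nat_lit 0) (.cons (.ev (nat_lit 79537652246524223130263617793) (nat_lit 1)) .nil)) (.cons (.ev (nat_lit 79538861190718525338621575425) (nat_lit 1)) .nil))) .nil)))),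
 (.br (nat_lit 2) (nat_lit 0) (.cons (.rf (nat_lit 161) (nat_lit 493858305440582043680)) (.cons (.br (nat_lit 6) (nat_lit 0) (.cons (.ev (nat_lit 1208944266641277389439233) (nat_lit 1)) (.cons (.ev (nat_lit 72339069031481344) (nat_lit 1)) .nil))) (.cons (.br (nat_lit 6) (nat_lit 0) (.cons (.ev (nat_lit 72339069031481601) (nat_lit 1)) (.cons (.ev (nat_lit 72339069031481344) (nat_lit 1)) (.cons (.ev (nat_lit 1208944266641277389438976) (nat_lit 1)) .nil)))) .nil)))),
 (.br (nat_lit 2) (nat_lit 0) (.cons (.rf (nat_lit 25) (nat_lit 9869297696)) (.cons (.rf (nat_lit 163) (nat_lit 493858305440582043680)) (.cons (.br (nat_lit 4) (nat_lit 0) (.cons (.br (nat_lit 6) (nat_lit 0) (.cons (.ev (nat_lit 79537652246524223130263617793) (nat_lit 1)) .nil)) (.cons (.ev (nat_lit 79538861190718525338621575168) (nat_lit 1)) .nil))) .nil)))),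
 (.br (nat_lit 2) (nat_lit 0) (.cons (.rf (nat_lit 162) (nat_lit 493858305440582043680)) (.cons (.rf (nat_lit 163) (nat_lit 493858305440582043680)) (.cons (.rf (nat_lit 164) (nat_lit 493858305440582043680)) (.cons (.br (nat_lit 2) (nat_lit 0) (.cons (.rf (nat_lit 162) (nat_lit 493858305440582043680)) (.cons (.rf (nat_lit 163) (nat_lit 493858305440582043680)) (.cons (.rf (nat_lit 164) (nat_lit 493858305440582043680)) .nil)))) .nil))))),
 (.br (nat_lit 1) (nat_lit 0) (.cons (.kr (nat_lit 1) (nat_lit 256) (nat_lit 0) (nat_lit 2)) (.cons (.br (nat_lit 2) (nat_lit 0) (.cons (.rf (nat_lit 157) (nat_lit 493858305440582043680)) (.cons (.rf (nat_lit 158) (nat_lit 15433072043909810208)) (.cons (.rf (nat_lit 160) (nat_lit 493858305440582043680)) (.cons (.rf (nat_lit 160) (nat_lit 458045751572476037152)) .nil))))) (.cons (.rf (nat_lit 165) (nat_lit 493858305440582043680)) (.cons (.rf (nat_lit 165) (nat_lit 458045751572476037152)) .nil))))),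
 (.br (nat_lit 2) (nat_lit 0) (.cons (.kr (nat_lit 1208944338416305512120832) (nat_lit 20361637766165934762640340549632) (nat_lit 1) (nat_lit 0)) (.cons (.kr (nat_lit 20282410812596008840252763406848) (nat_lit 237684487542793013880177164288) (nat_lit 1) (nat_lit 0)) .nil))),
 (.br (nat_lit 6) (nat_lit 0) (.cons (.br (nat_lit 1) (nat_lit 0) (.cons (.rf (nat_lit 25) (nat_lit 6748735520)) (.cons (.rf (nat_lit 167) (nat_lit 493858305440582043680)) (.cons (.rf (nat_lit 167) (nat_lit 458045751572476037152)) .nil)))) (.cons (.ev (nat_lit 79228162532711364246036807681) (nat_lit 1)) (.cons (.ev (nat_lit 79229371440156291296028262401) (nat_lit 1)) .nil)))),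
 (.br (nat_lit 2) (nat_lit 0) (.cons (.kr (nat_lit 1208925819614633469673728) (nat_lit 20282409603651670423947268128768) (nat_lit 1) (nat_lit 0)) (.cons (.kr (nat_lit 1208944338416305512120832) (nat_lit 20361637766165934762640340549632) (nat_lit 1) (nat_lit 0)) .nil))),
 (.br (nat_lit 1) (nat_lit 0) (.cons (.rf (nat_lit 166) (nat_lit 493858305440582043680)) (.cons (.rf (nat_lit 168) (nat_lit 493858305440582043680)) (.cons (.br (nat_lit 2) (nat_lit 0) (.cons (.br (nat_lit 2) (nat_lit 0) (.cons (.kr (nat_lit 1208925819614633469673728) (nat_lit 20282409603651670423947268128768) (nat_lit 1) (nat_lit 0)) (.cons (.kr (nat_lit 1208925819614633469673728) (nat_lit 79228162514264337593560793088) (nat_lit 1) (nat_lit 0)) .nil))) (.cons (.rf (nat_lit 169) (nat_lit 493858305440582043680)) (.cons (.rf (nat_lit 169) (nat_lit 458045751572476037152)) .nil)))) .nil)))),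
 (.br (nat_lit 1) (nat_lit 0) (.cons (.rf (nat_lit 166) (nat_lit 493858305440582043680)) (.cons (.rf (nat_lit 168) (nat_lit 493858305440582043680)) (.cons (.rf (nat_lit 170) (nat_lit 493858305440582043680)) (.cons (.rf (nat_lit 170) (nat_lit 458045751572476037152)) .nil))))),
 (.br (nat_lit 6) (nat_lit 0) (.cons (.ev (nat_lit 72339069031481344) (nat_lit 1)) (.cons (.ev (nat_lit 79228162532711364246036807681) (nat_lit 1)) (.cons (.ev (nat_lit 79229371440156291296028262401) (nat_lit 1)) .nil)))),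
 (.br (nat_lit 1) (nat_lit 0) (.cons (.rf (nat_lit 172) (nat_lit 493858305440582043680)) (.cons (.ev (nat_lit 72339069031481344) (nat_lit 1)) (.cons (.br (nat_lit 4) (nat_lit 0) (.cons (.ev (nat_lit 20365976667248794482205383592972) (nat_lit 4)) .nil)) .nil)))),
 (.br (nat_lit 2) (nat_lit 0) (.cons (.rf (nat_lit 166) (nat_lit 493858305440582043680)) (.cons (.rf (nat_lit 171) (nat_lit 493858305440582043680)) (.cons (.br (nat_lit 1) (nat_lit 0) (.cons (.rf (nat_lit 172) (nat_lit 493858305440582043680)) (.cons (.ev (nat_lit 72339069031481344) (nat_lit 1)) (.cons (.rf (nat_lit 173) (nat_lit 493858305440582043680)) (.cons (.rf (nat_lit 173) (nat_lit 458045751572476037152)) .nil))))) .nil)))),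
 (.br (nat_lit 2) (nat_lit 0) (.cons (.rf (nat_lit 166) (nat_lit 493858305440582043680)) (.cons (.rf (nat_lit 171) (nat_lit 493858305440582043680)) (.cons (.rf (nat_lit 174) (nat_lit 493858305440582043680)) (.cons (.rf (nat_lit 174) (nat_lit 458045751572476037152)) .nil))))),
 (.br (nat_lit 2) (nat_lit 0) (.cons (.rf (nat_lit 166) (nat_lit 493858305440582043680)) (.cons (.rf (nat_lit 171) (nat_lit 493858305440582043680)) (.cons (.rf (nat_lit 175) (nat_lit 493858305440582043680)) (.cons (.br (nat_lit 2) (nat_lit 0) (.cons (.rf (nat_lit 166) (nat_lit 493858305440582043680)) (.cons (.rf (nat_lit 171) (nat_lit 493858305440582043680)) (.cons (.rf (nat_lit 175) (nat_lit 493858305440582043680)) .nil)))) .nil))))),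
 (.br (nat_lit 2) (nat_lit 0) (.cons (.rf (nat_lit 166) (nat_lit 493858305440582043680)) (.cons (.rf (nat_lit 171) (nat_lit 493858305440582043680)) (.cons (.rf (nat_lit 175) (nat_lit 493858305440582043680)) (.cons (.rf (nat_lit 176) (nat_lit 493858305440582043680)) (.cons (.rf (nat_lit 176) (nat_lit 458045751572476037152)) .nil))))))]

theorem c4 : chkAll C T R L4 (nat_lit 140) = true := by decide +kernel

theorem l4 : (nat_lit 140) + L4.length = (nat_lit 178) := by decide +kernel

/-- part of the certificates -/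
def L5 : List Prf := [(.br (nat_lit 1) (nat_lit 0) (.cons (.ev (nat_lit 79228162532711364246036807936) (nat_lit 1)) (.cons (.ev (nat_lit 79229371440156291296028262656) (nat_lit 1)) .nil))),
 (.br (nat_lit 6) (nat_lit 0) (.cons (.ev (nat_lit 20282719093383930309483971019008) (nat_lit 1)) .nil)),
 (.br (nat_lit 2) (nat_lit 0) (.cons (.rf (nat_lit 178) (nat_lit 493858305440582043680)) (.cons (.br (nat_lit 1) (nat_lit 0) (.cons (.br (nat_lit 9) (nat_lit 0) (.cons (.ev (nat_lit 309489750634573111591174401) (nat_lit 1)) .nil)) (.cons (.rf (nat_lit 179) (nat_lit 493858305440582043680)) (.cons (.rf (nat_lit 179) (nat_lit 458045751572476037152)) .nil)))) .nil))),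
 (.br (nat_lit 2) (nat_lit 0) (.cons (.rf (nat_lit 178) (nat_lit 493858305440582043680)) (.cons (.rf (nat_lit 180) (nat_lit 493858305440582043680)) (.cons (.rf (nat_lit 180) (nat_lit 458045751572476037152)) .nil)))),
 (.br (nat_lit 2) (nat_lit 0) (.cons (.ev (nat_lit 79228162532711364246036807936) (nat_lit 1)) (.cons (.ev (nat_lit 20361643810813841000352926793730) (nat_lit 3)) .nil))),
 (.br (nat_lit 1) (nat_lit 0) (.cons (.ev (nat_lit 79228162532711364246036807936) (nat_lit 1)) (.cons (.br (nat_lit 2) (nat_lit 0) (.cons (.rf (nat_lit 182) (nat_lit 493858305440582043680)) (.cons (.rf (nat_lit 182) (nat_lit 458045751572476037152)) .nil))) .nil))),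
 (.br (nat_lit 1) (nat_lit 0) (.cons (.rf (nat_lit 178) (nat_lit 493858305440582043680)) (.cons (.rf (nat_lit 183) (nat_lit 493858305440582043680)) (.cons (.rf (nat_lit 183) (nat_lit 458045751572476037152)) .nil)))),
 (.br (nat_lit 2) (nat_lit 0) (.cons (.rf (nat_lit 181) (nat_lit 493858305440582043680)) (.cons (.rf (nat_lit 184) (nat_lit 493858305440582043680)) (.cons (.br (nat_lit 2) (nat_lit 0) (.cons (.rf (nat_lit 181) (nat_lit 493858305440582043680)) (.cons (.ev (nat_lit 20361643810813841000352926793730) (nat_lit 3)) .nil))) .nil)))),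
 (.br (nat_lit 2) (nat_lit 0) (.cons (.rf (nat_lit 181) (nat_lit 493858305440582043680)) (.cons (.rf (nat_lit 184) (nat_lit 493858305440582043680)) (.cons (.rf (nat_lit 185) (nat_lit 493858305440582043680)) (.cons (.rf (nat_lit 185) (nat_lit 458045751572476037152)) .nil))))),
 (.br (nat_lit 1) (nat_lit 0) (.cons (.br (nat_lit 2) (nat_lit 0) (.cons (.zr (nat_lit 55556405003242504704) (nat_lit 158765814760716784604746350593) (nat_lit 5) (nat_lit 11)) .nil)) .nil)),
 (.br (nat_lit 2) (nat_lit 0) (.cons (.rf (nat_lit 187) (nat_lit 493858305440582043680)) (.cons (.br (nat_lit 2) (nat_lit 0) (.cons (.rf (nat_lit 187) (nat_lit 493858305440582043680)) .nil)) .nil))),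
 (.br (nat_lit 2) (nat_lit 0) (.cons (.rf (nat_lit 188) (nat_lit 493858305440582042688)) (.cons (.br (nat_lit 2) (nat_lit 0) (.cons (.rf (nat_lit 188) (nat_lit 493858305440582042688)) .nil)) .nil))),
 (.br (nat_lit 1) (nat_lit 0) (.cons (.rf (nat_lit 188) (nat_lit 493858305440582043680)) (.cons (.rf (nat_lit 189) (nat_lit 493858305440582043680)) (.cons (.br (nat_lit 1) (nat_lit 0) (.cons (.rf (nat_lit 188) (nat_lit 493858305440582043680)) (.cons (.rf (nat_lit 189) (nat_lit 493858305440582043680)) .nil))) .nil)))),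
 (.br (nat_lit 1) (nat_lit 0) (.cons (.rf (nat_lit 190) (nat_lit 493858305440582043680)) (.cons (.br (nat_lit 1) (nat_lit 0) (.cons (.rf (nat_lit 190) (nat_lit 493858305440582043680)) .nil)) .nil))),
 (.br (nat_lit 2) (nat_lit 0) (.cons (.rf (nat_lit 190) (nat_lit 493858305440582043680)) (.cons (.rf (nat_lit 191) (nat_lit 493858305440582043680)) (.cons (.br (nat_lit 2) (nat_lit 0) (.cons (.rf (nat_lit 190) (nat_lit 493858305440582043680)) (.cons (.rf (nat_lit 191) (nat_lit 493858305440582043680)) .nil))) .nil)))),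
 (.br (nat_lit 2) (nat_lit 0) (.cons (.rf (nat_lit 190) (nat_lit 493858305440582043680)) (.cons (.rf (nat_lit 192) (nat_lit 493858305440582042688)) (.cons (.br (nat_lit 2) (nat_lit 0) (.cons (.rf (nat_lit 190) (nat_lit 493858305440582043680)) (.cons (.rf (nat_lit 192) (nat_lit 493858305440582042688)) .nil))) .nil)))),
 (.br (nat_lit 1) (nat_lit 0) (.cons (.rf (nat_lit 190) (nat_lit 493858305440582043680)) (.cons (.rf (nat_lit 192) (nat_lit 493858305440582043680)) (.cons (.rf (nat_lit 193) (nat_lit 493858305440582043680)) (.cons (.br (nat_lit 1) (nat_lit 0) (.cons (.rf (nat_lit 190) (nat_lit 493858305440582043680)) (.cons (.rf (nat_lit 192) (nat_lit 493858305440582043680)) (.cons (.rf (nat_lit 193) (nat_lit 493858305440582043680)) .nil)))) .nil))))),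
 (.br (nat_lit 6) (nat_lit 0) (.cons (.br (nat_lit 2) (nat_lit 0) (.cons (.ev (nat_lit 1208944266641277389438976) (nat_lit 1)) (.cons (.ev (nat_lit 72339069031481344) (nat_lit 1)) .nil))) (.cons (.ev (nat_lit 79228162532711364246036807681) (nat_lit 1)) (.cons (.ev (nat_lit 79229371440156291296028262401) (nat_lit 1)) .nil)))),
 (.br (nat_lit 2) (nat_lit 0) (.cons (.rf (nat_lit 195) (nat_lit 493858305440582043680)) (.cons (.br (nat_lit 11) (nat_lit 0) (.cons (.ev (nat_lit 79538861190718525338621640705) (nat_lit 1)) (.cons (.ev (nat_lit 310698658079500161582628864) (nat_lit 1)) .nil))) .nil))),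
 (.br (nat_lit 2) (nat_lit 0) (.cons (.rf (nat_lit 195) (nat_lit 493858305440582043680)) (.cons (.rf (nat_lit 196) (nat_lit 493858305440582043680)) (.cons (.br (nat_lit 2) (nat_lit 0) (.cons (.rf (nat_lit 195) (nat_lit 493858305440582043680)) (.cons (.rf (nat_lit 196) (nat_lit 493858305440582043680)) .nil))) .nil)))),
 (.br (nat_lit 1) (nat_lit 0) (.cons (.ev (nat_lit 1208944266641277389438976) (nat_lit 1)) (.cons (.br (nat_lit 2) (nat_lit 0) (.cons (.ev (nat_lit 21157017915538123901656033788936) (nat_lit 4)) .nil)) .nil))),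
 (.br (nat_lit 6) (nat_lit 0) (.cons (.br (nat_lit 2) (nat_lit 0) (.cons (.rf (nat_lit 195) (nat_lit 493858305440582043680)) (.cons (.rf (nat_lit 198) (nat_lit 493858305440582043680)) (.cons (.br (nat_lit 2) (nat_lit 0) (.cons (.ev (nat_lit 72339069031481344) (nat_lit 1)) (.cons (.rf (nat_lit 198) (nat_lit 493858305440582043680)) .nil))) .nil)))) (.cons (.ev (nat_lit 79228162532711364246036807681) (nat_lit 1)) (.cons (.ev (nat_lit 79229371440156291296028262401) (nat_lit 1)) .nil)))),
 (.br (nat_lit 2) (nat_lit 0) (.cons (.rf (nat_lit 197) (nat_lit 493858305440582043680)) (.cons (.rf (nat_lit 199) (nat_lit 493858305440582043680)) (.cons (.br (nat_lit 2) (nat_lit 0) (.cons (.rf (nat_lit 197) (nat_lit 493858305440582043680)) (.cons (.rf (nat_lit 199) (nat_lit 493858305440582043680)) .nil))) .nil)))),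
 (.br (nat_lit 2) (nat_lit 0) (.cons (.rf (nat_lit 197) (nat_lit 493858305440582043680)) (.cons (.rf (nat_lit 199) (nat_lit 493858305440582043680)) (.cons (.rf (nat_lit 200) (nat_lit 493858305440582043680)) (.cons (.br (nat_lit 2) (nat_lit 0) (.cons (.rf (nat_lit 197) (nat_lit 493858305440582043680)) (.cons (.rf (nat_lit 199) (nat_lit 493858305440582043680)) (.cons (.rf (nat_lit 200) (nat_lit 493858305440582043680)) .nil)))) .nil))))),
 (.br (nat_lit 1) (nat_lit 0) (.cons (.br (nat_lit 2) (nat_lit 0) (.cons (.zr (nat_lit 55556405003242504704) (nat_lit 158765814760716784604746350593) (nat_lit 5) (nat_lit 11)) .nil)) .nil)),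
 (.br (nat_lit 2) (nat_lit 0) (.cons (.rf (nat_lit 202) (nat_lit 493858305440582043680)) (.cons (.br (nat_lit 2) (nat_lit 0) (.cons (.rf (nat_lit 202) (nat_lit 493858305440582043680)) .nil)) .nil))),
 (.br (nat_lit 2) (nat_lit 0) (.cons (.rf (nat_lit 203) (nat_lit 493858305440582042688)) (.cons (.br (nat_lit 2) (nat_lit 0) (.cons (.rf (nat_lit 203) (nat_lit 493858305440582042688)) .nil)) .nil))),
 (.br (nat_lit 1) (nat_lit 0) (.cons (.rf (nat_lit 203) (nat_lit 493858305440582043680)) (.cons (.rf (nat_lit 204) (nat_lit 493858305440582043680)) (.cons (.br (nat_lit 1) (nat_lit 0) (.cons (.rf (nat_lit 203) (nat_lit 493858305440582043680)) (.cons (.rf (nat_lit 204) (nat_lit 493858305440582043680)) .nil))) .nil)))),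
 (.br (nat_lit 1) (nat_lit 0) (.cons (.rf (nat_lit 205) (nat_lit 493858305440582043680)) (.cons (.br (nat_lit 1) (nat_lit 0) (.cons (.rf (nat_lit 205) (nat_lit 493858305440582043680)) .nil)) .nil))),
 (.br (nat_lit 2) (nat_lit 0) (.cons (.rf (nat_lit 205) (nat_lit 493858305440582043680)) (.cons (.rf (nat_lit 206) (nat_lit 493858305440582043680)) (.cons (.br (nat_lit 2) (nat_lit 0) (.cons (.rf (nat_lit 205) (nat_lit 493858305440582043680)) (.cons (.rf (nat_lit 206) (nat_lit 493858305440582043680)) .nil))) .nil)))),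
 (.br (nat_lit 2) (nat_lit 0) (.cons (.rf (nat_lit 205) (nat_lit 493858305440582043680)) (.cons (.rf (nat_lit 207) (nat_lit 493858305440582042688)) (.cons (.br (nat_lit 2) (nat_lit 0) (.cons (.rf (nat_lit 205) (nat_lit 493858305440582043680)) (.cons (.rf (nat_lit 207) (nat_lit 493858305440582042688)) .nil))) .nil)))),
 (.br (nat_lit 6) (nat_lit 0) (.cons (.ev (nat_lit 79229371440156291296028262401) (nat_lit 1)) (.cons (.rf (nat_lit 54) (nat_lit 384705857568)) (.cons (.rf (nat_lit 54) (nat_lit 316052473888)) .nil)))),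
 (.br (nat_lit 1) (nat_lit 0) (.cons (.rf (nat_lit 209) (nat_lit 493858305440582043680)) (.cons (.ev (nat_lit 20679796837761824108478956832258) (nat_lit 3)) .nil))),
 (.br (nat_lit 1) (nat_lit 0) (.cons (.rf (nat_lit 209) (nat_lit 493858305440582043680)) (.cons (.rf (nat_lit 210) (nat_lit 493858305440582043680)) (.cons (.br (nat_lit 2) (nat_lit 0) (.cons (.rf (nat_lit 209) (nat_lit 493858305440582042688)) (.cons (.rf (nat_lit 210) (nat_lit 493858305440582042688)) .nil))) .nil)))),
 (.br (nat_lit 2) (nat_lit 0) (.cons (.rf (nat_lit 211) (nat_lit 493858305440582043680)) (.cons (.rf (nat_lit 209) (nat_lit 493858305440582042688)) (.cons (.br (nat_lit 1) (nat_lit 0) (.cons (.rf (nat_lit 211) (nat_lit 493858305440582043680)) (.cons (.rf (nat_lit 209) (nat_lit 493858305440582043680)) .nil))) .nil)))),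
 (.br (nat_lit 4) (nat_lit 0) (.cons (.rf (nat_lit 201) (nat_lit 493858305440582043680)) (.cons (.rf (nat_lit 201) (nat_lit 493858305440582042688)) (.cons (.br (nat_lit 1) (nat_lit 0) (.cons (.rf (nat_lit 205) (nat_lit 493858305440582043680)) (.cons (.rf (nat_lit 207) (nat_lit 493858305440582043680)) (.cons (.rf (nat_lit 208) (nat_lit 493858305440582043680)) (.cons (.br (nat_lit 1) (nat_lit 0) (.cons (.rf (nat_lit 205) (nat_lit 493858305440582043680)) (.cons (.rf (nat_lit 207) (nat_lit 493858305440582043680)) (.cons (.rf (nat_lit 208) (nat_lit 493858305440582043680)) .nil)))) .nil))))) (.cons (.rf (nat_lit 43) (nat_lit 306284576)) (.cons (.br (nat_lit 1) (nat_lit 0) (.cons (.rf (nat_lit 211) (nat_lit 493858305440582043680)) (.cons (.rf (nat_lit 209) (nat_lit 493858305440582043680)) (.cons (.rf (nat_lit 212) (nat_lit 493858305440582043680)) (.cons (.br (nat_lit 2) (nat_lit 0) (.cons (.rf (nat_lit 211) (nat_lit 493858305440582043680)) (.cons (.rf (nat_lit 209) (nat_lit 493858305440582042688))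 (.cons (.rf (nat_lit 212) (nat_lit 493858305440582042688)) .nil)))) .nil))))) .nil)))))),
 (.br (nat_lit 10) (nat_lit 1) (.cons (.br (nat_lit 12) (nat_lit 1) (.cons (.br (nat_lit 3) (nat_lit 0) (.cons (.rf (nat_lit 177) (nat_lit 493858305440582043680)) (.cons (.rf (nat_lit 177) (nat_lit 493858305440582042688)) (.cons (.kr (nat_lit 20361637766165934762640340418560) (nat_lit 1208944338416305512120320) (nat_lit 3) (nat_lit 0)) (.cons (.br (nat_lit 4) (nat_lit 0) (.cons (.rf (nat_lit 186) (nat_lit 493858305440582043680)) (.cons (.rf (nat_lit 186) (nat_lit 493858305440582042688)) (.cons (.rf (nat_lit 43) (nat_lit 205621280)) (.cons (.rf (nat_lit 194) (nat_lit 493858305440582043680)) (.cons (.rf (nat_lit 194) (nat_lit 458045751572476037152)) .nil)))))) (.cons (.rf (nat_lit 213) (nat_lit 493858305440582043680)) (.cons (.rf (nat_lit 213) (nat_lit 458045751572476037152)) .nil))))))) .nil)) .nil))]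

theorem c5 : chkAll C T R L5 (nat_lit 178) = true := by decide +kernel

theorem l5 : (nat_lit 178) + L5.length = (nat_lit 215) := by decide +kernel

/-- part of the certificates -/
def L6 : List Prf := [(.br (nat_lit 8) (nat_lit 1) (.cons (.rf (nat_lit 2) (nat_lit 8421)) (.cons (.rf (nat_lit 156) (nat_lit 15071359418963075)) (.cons (.br (nat_lit 7) (nat_lit 1) (.cons (.br (nat_lit 10) (nat_lit 1) (.cons (.rf (nat_lit 214) (nat_lit 493858305440582043680)) (.cons (.rf (nat_lit 214) (nat_lit 458045751572476037152)) .nil))) (.cons (.rf (nat_lit 12) (nat_lit 14033125)) (.cons (.rf (nat_lit 12) (nat_lit 13017317)) .nil)))) .nil)))),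
 (.br (nat_lit 8) (nat_lit 1) (.cons (.rf (nat_lit 2) (nat_lit 8421)) (.cons (.rf (nat_lit 156) (nat_lit 15071359418963075)) (.cons (.rf (nat_lit 215) (nat_lit 493858305440582043680)) (.cons (.rf (nat_lit 215) (nat_lit 458045751572476037152)) .nil))))),
 (.br (nat_lit 9) (nat_lit 0) (.cons (.ev (nat_lit 20282719088661492051594776150016) (nat_lit 1)) .nil)),
 (.br (nat_lit 2) (nat_lit 0) (.cons (.rf (nat_lit 25) (nat_lit 6748735520)) (.cons (.rf (nat_lit 14) (nat_lit 415391002815417649184)) (.cons (.br (nat_lit 6) (nat_lit 0) (.cons (.rf (nat_lit 217) (nat_lit 493858305440582043680)) (.cons (.ev (nat_lit 310693935641242276699570176) (nat_lit 1)) .nil))) .nil)))),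
 (.br (nat_lit 2) (nat_lit 0) (.cons (.rf (nat_lit 25) (nat_lit 6748735520)) (.cons (.rf (nat_lit 17) (nat_lit 415391002815417649184)) (.cons (.br (nat_lit 4) (nat_lit 0) (.cons (.rf (nat_lit 217) (nat_lit 493856055837646227457)) (.cons (.ev (nat_lit 310693935641242276699570433) (nat_lit 1)) .nil))) .nil)))),
 (.br (nat_lit 2) (nat_lit 0) (.cons (.rf (nat_lit 14) (nat_lit 415391002815417649184)) (.cons (.rf (nat_lit 17) (nat_lit 415391002815417649184)) (.cons (.br (nat_lit 9) (nat_lit 0) (.cons (.ev (nat_lit 79228167255149622130953486336) (nat_lit 1)) (.cons (.ev (nat_lit 79228167255149622130953486593) (nat_lit 1)) (.cons (.ev (nat_lit 4722366483969173684481) (nat_lit 1)) .nil)))) .nil)))),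
 (.br (nat_lit 6) (nat_lit 0) (.cons (.ev (nat_lit 1213648186380077620002816) (nat_lit 1)) (.cons (.br (nat_lit 13) (nat_lit 0) (.cons (.ev (nat_lit 79229371440084234801518739456) (nat_lit 1)) .nil)) .nil))),
 (.br (nat_lit 2) (nat_lit 0) (.cons (.rf (nat_lit 221) (nat_lit 15433070910038444064)) (.cons (.br (nat_lit 9) (nat_lit 0) (.cons (.ev (nat_lit 4722366483969173684224) (nat_lit 1)) (.cons (.ev (nat_lit 79228167255149622130953486336) (nat_lit 1)) .nil))) (.cons (.rf (nat_lit 25) (nat_lit 12016781344)) .nil)))),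
 (.br (nat_lit 2) (nat_lit 0) (.cons (.rf (nat_lit 221) (nat_lit 15433070910038444064)) (.cons (.rf (nat_lit 27) (nat_lit 415391002815417649184)) (.cons (.br (nat_lit 4) (nat_lit 0) (.cons (.ev (nat_lit 310693935641242276699570433) (nat_lit 1)) (.cons (.br (nat_lit 6) (nat_lit 0) (.cons (.ev (nat_lit 20282719088661492051594776150016) (nat_lit 1)) .nil)) .nil))) .nil)))),
 (.br (nat_lit 2) (nat_lit 0) (.cons (.rf (nat_lit 222) (nat_lit 493858305440582043680)) (.cons (.rf (nat_lit 27) (nat_lit 415391002815417649184)) (.cons (.br (nat_lit 9) (nat_lit 0) (.cons (.ev (nat_lit 79228167255149622130953486336) (nat_lit 1)) (.cons (.ev (nat_lit 4722366483969173684481) (nat_lit 1)) .nil))) .nil)))),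
 (.br (nat_lit 1) (nat_lit 0) (.cons (.kr (nat_lit 1) (nat_lit 256) (nat_lit 0) (nat_lit 2)) (.cons (.br (nat_lit 2) (nat_lit 0) (.cons (.rf (nat_lit 218) (nat_lit 493858305440582043680)) (.cons (.rf (nat_lit 219) (nat_lit 493858305440582043680)) (.cons (.rf (nat_lit 220) (nat_lit 493858305440582043680)) (.cons (.br (nat_lit 2) (nat_lit 0) (.cons (.rf (nat_lit 218) (nat_lit 493858305440582043680)) (.cons (.rf (nat_lit 219) (nat_lit 493858305440582043680)) (.cons (.rf (nat_lit 220) (nat_lit 493858305440582043680)) .nil)))) .nil))))) (.cons (.kr (nat_lit 79229371440156009816756584450) (nat_lit 20282409603670117169120472465920) (nat_lit 0) (nat_lit 2)) (.cons (.br (nat_lit 2) (nat_lit 0) (.cons (.rf (nat_lit 222) (nat_lit 493858305440582043680)) (.cons (.rf (nat_lit 223) (nat_lit 493858305440582043680)) (.cons (.rf (nat_lit 224) (nat_lit 493858305440582043680)) (.cons (.br (nat_lit 2) (nat_lit 0) (.cons (.rf (nat_lit 25) (nat_lit 12016781344)) (.cons (.rf (nat_lit 223) (nat_lit 493858305440582043680))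 (.cons (.rf (nat_lit 224) (nat_lit 493858305440582043680)) .nil)))) .nil))))) .nil))))),
 (.br (nat_lit 3) (nat_lit 0) (.cons (.ev (nat_lit 4722366483969173684224) (nat_lit 1)) (.cons (.ev (nat_lit 4722366483969173618944) (nat_lit 1)) (.cons (.ev (nat_lit 79228167255149622130953421056) (nat_lit 1)) .nil)))),
 (.br (nat_lit 6) (nat_lit 0) (.cons (.ev (nat_lit 20282719088661492051594776150016) (nat_lit 1)) .nil)),
 (.br (nat_lit 2) (nat_lit 0) (.cons (.rf (nat_lit 225) (nat_lit 493858305440582042688)) (.cons (.br (nat_lit 1) (nat_lit 0) (.cons (.kr (nat_lit 1) (nat_lit 256) (nat_lit 0) (nat_lit 2)) (.cons (.kr (nat_lit 79229371440156009816756584960) (nat_lit 20282409603670117169120472596480) (nat_lit 1) (nat_lit 0)) (.cons (.rf (nat_lit 226) (nat_lit 493858305440582043680)) (.cons (.kr (nat_lit 79231789291795239075105997312) (nat_lit 60847228810973458017014975168512) (nat_lit 1) (nat_lit 0)) .nil))))) (.cons (.br (nat_lit 1) (nat_lit 0) (.cons (.kr (nat_lit 1) (nat_lit 256) (nat_lit 0)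 (nat_lit 2)) (.cons (.br (nat_lit 3) (nat_lit 0) (.cons (.br (nat_lit 9) (nat_lit 0) (.cons (.ev (nat_lit 79538856468424380438479372288) (nat_lit 1)) .nil)) (.cons (.ev (nat_lit 310693935641242276699570433) (nat_lit 1)) .nil))) (.cons (.br (nat_lit 3) (nat_lit 0) (.cons (.br (nat_lit 9) (nat_lit 0) (.cons (.ev (nat_lit 620183686492269653971304960) (nat_lit 2)) .nil)) (.cons (.br (nat_lit 6) (nat_lit 0) (.cons (.ev (nat_lit 20838250754383303535256863638534) (nat_lit 3)) .nil)) (.cons (.br (nat_lit 6) (nat_lit 0) (.cons (.ev (nat_lit 620183686492269653971304960) (nat_lit 2)) .nil)) .nil)))) (.cons (.br (nat_lit 3) (nat_lit 0) (.cons (.ev (nat_lit 310693935641242276699570433) (nat_lit 1)) (.cons (.rf (nat_lit 227) (nat_lit 493858305440582043680)) .nil))) .nil))))) .nil)))),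
 (.br (nat_lit 3) (nat_lit 0) (.cons (.ev (nat_lit 79228167255149622130953486336) (nat_lit 1)) (.cons (.ev (nat_lit 4722366483969173618944) (nat_lit 1)) (.cons (.ev (nat_lit 79228167255149622130953421056) (nat_lit 1)) .nil)))),
 (.br (nat_lit 2) (nat_lit 0) (.cons (.kr (nat_lit 79229371440156009816756584450) (nat_lit 20282409603670117169120472596480) (nat_lit 0) (nat_lit 1)) (.cons (.rf (nat_lit 228) (nat_lit 493858305440582043680)) (.cons (.br (nat_lit 1) (nat_lit 0) (.cons (.kr (nat_lit 1) (nat_lit 256) (nat_lit 0) (nat_lit 2)) (.cons (.kr (nat_lit 20361637766166006819134833164800) (nat_lit 1208944266359802396016640) (nat_lit 1) (nat_lit 0)) (.cons (.rf (nat_lit 229) (nat_lit 493858305440582043680)) (.cons (.kr (nat_lit 79229371440156009816756584960) (nat_lit 20282409603670117169120472596480) (nat_lit 1) (nat_lit 0)) .nil))))) .nil)))),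
 (.br (nat_lit 2) (nat_lit 0) (.cons (.rf (nat_lit 225) (nat_lit 493858305440582042688)) (.cons (.rf (nat_lit 228) (nat_lit 493858305440582043680)) (.cons (.rf (nat_lit 230) (nat_lit 493858305440582043680)) (.cons (.br (nat_lit 2) (nat_lit 0) (.cons (.rf (nat_lit 225) (nat_lit 493858305440582042688)) (.cons (.rf (nat_lit 228) (nat_lit 493858305440582043680)) (.cons (.rf (nat_lit 230) (nat_lit 493858305440582043680)) .nil)))) .nil))))),
 (.br (nat_lit 4) (nat_lit 0) (.cons (.ev (nat_lit 310693954087985246585815041) (nat_lit 1)) .nil)),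
 (.br (nat_lit 2) (nat_lit 0) (.cons (.rf (nat_lit 17) (nat_lit 415391002815417648192)) (.cons (.kr (nat_lit 20282409603670117169120472465920) (nat_lit 79229371440156009816756715520) (nat_lit 1) (nat_lit 0)) (.cons (.kr (nat_lit 256) (nat_lit 65536) (nat_lit 1) (nat_lit 0)) (.cons (.br (nat_lit 9) (nat_lit 0) (.cons (.rf (nat_lit 232) (nat_lit 15433072009550071840)) (.cons (.rf (nat_lit 232) (nat_lit 15433072009549056032)) (.cons (.ev (nat_lit 309489750706912180605878528) (nat_lit 1)) .nil)))) .nil))))),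
 (.br (nat_lit 2) (nat_lit 0) (.cons (.rf (nat_lit 225) (nat_lit 493858305440582042688)) (.cons (.rf (nat_lit 231) (nat_lit 493858305440582042688)) (.cons (.rf (nat_lit 233) (nat_lit 493858305440582043680)) (.cons (.br (nat_lit 2) (nat_lit 0) (.cons (.kr (nat_lit 79229371440156009816756584450) (nat_lit 20282409603670117169120472596480) (nat_lit 0) (nat_lit 1)) (.cons (.rf (nat_lit 226) (nat_lit 493858305440582042688)) (.cons (.kr (nat_lit 256) (nat_lit 65536) (nat_lit 1) (nat_lit 0)) (.cons (.kr (nat_lit 20282409603651670423947251286272) (nat_lit 1208925819614629174771712) (nat_lit 1) (nat_lit 0)) .nil))))) (.cons (.br (nat_lit 2) (nat_lit 0) (.cons (.rf (nat_lit 27) (nat_lit 415391002815417648192)) (.cons (.kr (nat_lit 60847228810973458017014975037952) (nat_lit 79231789291795239075106127872) (nat_lit 1) (nat_lit 0)) (.cons (.rf (nat_lit 233) (nat_lit 493858305440582043680)) (.cons (.kr (nat_lit 20282409603651670423947251286272) (nat_lit 1208925819614629174771712) (nat_lit 1) (nat_lit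 0)) .nil))))) .nil)))))),
 (.br (nat_lit 4) (nat_lit 0) (.cons (.ev (nat_lit 310693954087985246585749761) (nat_lit 1)) .nil)),
 (.br (nat_lit 2) (nat_lit 0) (.cons (.kr (nat_lit 79229371440156009816756584450) (nat_lit 20282409603670117169120472596480) (nat_lit 0) (nat_lit 1)) (.cons (.rf (nat_lit 231) (nat_lit 493858305440582042688)) (.cons (.rf (nat_lit 234) (nat_lit 493858305440582042688)) (.cons (.br (nat_lit 6) (nat_lit 0) (.cons (.rf (nat_lit 235) (nat_lit 15433072009550071840)) (.cons (.rf (nat_lit 235) (nat_lit 15433072009549056032)) (.cons (.ev (nat_lit 309489750706912180605878528) (nat_lit 1)) .nil)))) .nil))))),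
 (.br (nat_lit 1) (nat_lit 0) (.cons (.rf (nat_lit 225) (nat_lit 493858305440582043680)) (.cons (.rf (nat_lit 231) (nat_lit 493858305440582043680)) (.cons (.rf (nat_lit 234) (nat_lit 493858305440582043680)) (.cons (.br (nat_lit 2) (nat_lit 0) (.cons (.rf (nat_lit 225) (nat_lit 493858305440582042688)) (.cons (.rf (nat_lit 231) (nat_lit 493858305440582042688)) (.cons (.br (nat_lit 2) (nat_lit 0) (.cons (.rf (nat_lit 225) (nat_lit 493858305440582042688)) (.cons (.rf (nat_lit 231) (nat_lit 493858305440582042688)) (.cons (.rf (nat_lit 234) (nat_lit 493858305440582042688)) (.cons (.kr (nat_lit 256) (nat_lit 65536) (nat_lit 1) (nat_lit 0)) .nil))))) (.cons (.rf (nat_lit 236) (nat_lit 493858305440582043680)) (.cons (.br (nat_lit 2) (nat_lit 0) (.cons (.rf (nat_lit 225) (nat_lit 493858305440582042688)) (.cons (.rf (nat_lit 231) (nat_lit 493858305440582042688)) (.cons (.kr (nat_lit 256) (nat_lit 65536) (nat_lit 1) (nat_lit 0)) (.cons (.rf (nat_lit 236) (nat_lit 493858305440582043680)) .nil)))))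 .nil)))))) .nil))))),
 (.br (nat_lit 1) (nat_lit 0) (.cons (.kr (nat_lit 79229371440156009816756584450) (nat_lit 20282409603670117169120472465920) (nat_lit 0) (nat_lit 2)) (.cons (.rf (nat_lit 231) (nat_lit 493858305440582043680)) (.cons (.rf (nat_lit 237) (nat_lit 493858305440582043680)) (.cons (.br (nat_lit 2) (nat_lit 0) (.cons (.rf (nat_lit 225) (nat_lit 493858305440582042688)) (.cons (.rf (nat_lit 231) (nat_lit 493858305440582042688)) (.cons (.rf (nat_lit 237) (nat_lit 493858305440582042688)) (.cons (.br (nat_lit 2) (nat_lit 0) (.cons (.kr (nat_lit 79229371440156009816756584450) (nat_lit 20282409603670117169120472596480) (nat_lit 0) (nat_lit 1)) (.cons (.rf (nat_lit 229) (nat_lit 493858305440582042688)) (.cons (.kr (nat_lit 1208925819614629174706432) (nat_lit 20282409603651670423947251351552) (nat_lit 1) (nat_lit 0)) (.cons (.kr (nat_lit 256) (nat_lit 65536) (nat_lit 1) (nat_lit 0)) .nil))))) (.cons (.br (nat_lit 2) (nat_lit 0) (.cons (.rf (nat_lit 225) (nat_lit 493858305440582042688))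 (.cons (.kr (nat_lit 20282409603670117169120472465920) (nat_lit 79229371440156009816756715520) (nat_lit 1) (nat_lit 0)) (.cons (.rf (nat_lit 237) (nat_lit 493858305440582042688)) (.cons (.kr (nat_lit 256) (nat_lit 65536) (nat_lit 1) (nat_lit 0)) .nil))))) .nil)))))) .nil))))),
 (.br (nat_lit 1) (nat_lit 0) (.cons (.rf (nat_lit 225) (nat_lit 493858305440582043680)) (.cons (.rf (nat_lit 231) (nat_lit 493858305440582043680)) (.cons (.rf (nat_lit 237) (nat_lit 493858305440582043680)) (.cons (.rf (nat_lit 238) (nat_lit 493858305440582043680)) (.cons (.br (nat_lit 1) (nat_lit 0) (.cons (.rf (nat_lit 225) (nat_lit 493858305440582043680)) (.cons (.rf (nat_lit 231) (nat_lit 493858305440582043680)) (.cons (.rf (nat_lit 237) (nat_lit 493858305440582043680)) (.cons (.rf (nat_lit 238) (nat_lit 493858305440582043680)) .nil))))) .nil)))))),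
 (.br (nat_lit 2) (nat_lit 0) (.cons (.ev (nat_lit 4722366483969173684224) (nat_lit 1)) (.cons (.br (nat_lit 9) (nat_lit 0) (.cons (.ev (nat_lit 20282719102865484987251636240386) (nat_lit 2)) .nil)) .nil))),
 (.br (nat_lit 1) (nat_lit 0) (.cons (.rf (nat_lit 239) (nat_lit 493858305440582043680)) (.cons (.br (nat_lit 2) (nat_lit 0) (.cons (.rf (nat_lit 240) (nat_lit 493858305440582043680)) (.cons (.br (nat_lit 2) (nat_lit 0) (.cons (.ev (nat_lit 4722366483969173684224) (nat_lit 1)) (.cons (.ev (nat_lit 1208944338417400728846336) (nat_lit 1)) .nil))) (.cons (.br (nat_lit 2) (nat_lit 0) (.cons (.rf (nat_lit 240) (nat_lit 493858305440582043680)) (.cons (.ev (nat_lit 1208944338417400728846336) (nat_lit 1)) .nil))) .nil)))) (.cons (.br (nat_lit 2) (nat_lit 0) (.cons (.br (nat_lit 2) (nat_lit 0) (.cons (.ev (nat_lit 79229371440083952227013689344) (nat_lit 1)) (.cons (.zr (nat_lit 158461160731807133703921401857) (nat_lit 1237940076324116107370692864) (nat_lit 15) (nat_lit 0)) .nil))) (.cons (.br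 (nat_lit 2) (nat_lit 0) (.cons (.ev (nat_lit 79229371440083952227013689344) (nat_lit 1)) (.cons (.ev (nat_lit 1208944338417400728846336) (nat_lit 1)) .nil))) (.cons (.br (nat_lit 2) (nat_lit 0) (.cons (.zr (nat_lit 158461160731807133703921401857) (nat_lit 1237940076324116107370692864) (nat_lit 15) (nat_lit 0)) (.cons (.ev (nat_lit 1208944338417400728846336) (nat_lit 1)) .nil))) .nil)))) .nil)))),
 (.br (nat_lit 2) (nat_lit 0) (.cons (.ev (nat_lit 4722366483969173684224) (nat_lit 1)) (.cons (.br (nat_lit 6) (nat_lit 0) (.cons (.ev (nat_lit 310708139634177933559660546) (nat_lit 2)) .nil)) .nil))),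
 (.br (nat_lit 1) (nat_lit 0) (.cons (.kr (nat_lit 79229371440156009816756584450) (nat_lit 20282409603670117169120472465920) (nat_lit 0) (nat_lit 2)) (.cons (.rf (nat_lit 241) (nat_lit 493858305440582043680)) (.cons (.br (nat_lit 2) (nat_lit 0) (.cons (.rf (nat_lit 242) (nat_lit 493858305440582043680)) (.cons (.rf (nat_lit 88) (nat_lit 12817254177671200)) (.cons (.br (nat_lit 2) (nat_lit 0) (.cons (.rf (nat_lit 242) (nat_lit 493858305440582043680)) (.cons (.ev (nat_lit 1208944338417400728846336) (nat_lit 1)) .nil))) .nil)))) .nil)))),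
 (.br (nat_lit 1) (nat_lit 0) (.cons (.rf (nat_lit 239) (nat_lit 493858305440582043680)) (.cons (.rf (nat_lit 241) (nat_lit 493858305440582043680)) (.cons (.rf (nat_lit 243) (nat_lit 493858305440582043680)) (.cons (.br (nat_lit 1) (nat_lit 0) (.cons (.rf (nat_lit 239) (nat_lit 493858305440582043680)) (.cons (.rf (nat_lit 241) (nat_lit 493858305440582043680)) (.cons (.rf (nat_lit 243) (nat_lit 493858305440582043680)) .nil)))) .nil)))))]

theorem c6 : chkAll C T R L6 (nat_lit 215) = true := by decide +kernel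

theorem l6 : (nat_lit 215) + L6.length = (nat_lit 245) := by decide +kernel

/-- part of the certificates -/
def L7 : List Prf := [(.br (nat_lit 1) (nat_lit 0) (.cons (.br (nat_lit 9) (nat_lit 0) (.cons (.ev (nat_lit 620183686492269653971304705) (nat_lit 2)) .nil)) (.cons (.zr (nat_lit 396142026219796015846986417152) (nat_lit 101412048018276798866009056346114) (nat_lit 15) (nat_lit 9)) (.cons (.br (nat_lit 6) (nat_lit 0) (.cons (.ev (nat_lit 620183686492269653971304705) (nat_lit 2)) .nil)) .nil)))),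
 (.br (nat_lit 1) (nat_lit 0) (.cons (.rf (nat_lit 245) (nat_lit 493858305440582043680)) (.cons (.br (nat_lit 4) (nat_lit 0) (.cons (.ev (nat_lit 80157840692204688768831127554) (nat_lit 2)) .nil)) (.cons (.zr (nat_lit 632268258999251727011809280) (nat_lit 263909009335014580581689003606024) (nat_lit 30) (nat_lit 6)) .nil)))),
 (.br (nat_lit 1) (nat_lit 0) (.cons (.zr (nat_lit 396142026219796015846986417152) (nat_lit 101412048018276798866009056346114) (nat_lit 15) (nat_lit 9)) (.cons (.rf (nat_lit 246) (nat_lit 493858305440582043680)) (.cons (.br (nat_lit 4) (nat_lit 0) (.cons (.ev (nat_lit 158767033131413482360327569920) (nat_lit 2)) .nil)) .nil)))),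
 (.br (nat_lit 2) (nat_lit 0) (.cons (.rf (nat_lit 239) (nat_lit 493858305440582043680)) (.cons (.ev (nat_lit 79229371440083952227013689344) (nat_lit 1)) (.cons (.br (nat_lit 1) (nat_lit 0) (.cons (.rf (nat_lit 245) (nat_lit 493858305440582043680)) (.cons (.rf (nat_lit 246) (nat_lit 493858305440582043680)) (.cons (.rf (nat_lit 247) (nat_lit 493858305440582043680)) (.cons (.br (nat_lit 1) (nat_lit 0) (.cons (.rf (nat_lit 245) (nat_lit 493858305440582043680)) (.cons (.zr (nat_lit 632268258999251727011809280) (nat_lit 263909009335014580581689003606024) (nat_lit 30) (nat_lit 6)) (.cons (.rf (nat_lit 247) (nat_lit 493858305440582043680)) .nil)))) .nil))))) .nil)))),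
 (.br (nat_lit 2) (nat_lit 0) (.cons (.rf (nat_lit 239) (nat_lit 493858305440582043680)) (.cons (.rf (nat_lit 244) (nat_lit 493858305440582043680)) (.cons (.rf (nat_lit 248) (nat_lit 493858305440582043680)) (.cons (.br (nat_lit 2) (nat_lit 0) (.cons (.rf (nat_lit 239) (nat_lit 493858305440582043680)) (.cons (.rf (nat_lit 244) (nat_lit 493858305440582043680)) (.cons (.rf (nat_lit 248) (nat_lit 493858305440582043680)) .nil)))) .nil))))),
 (.br (nat_lit 2) (nat_lit 0) (.cons (.rf (nat_lit 239) (nat_lit 493858305440582043680)) (.cons (.rf (nat_lit 244) (nat_lit 493858305440582043680)) (.cons (.rf (nat_lit 249) (nat_lit 493858305440582043680)) (.cons (.br (nat_lit 2) (nat_lit 0) (.cons (.rf (nat_lit 239) (nat_lit 493858305440582043680)) (.cons (.ev (nat_lit 1208944338417400728846336) (nat_lit 1)) (.cons (.rf (nat_lit 249) (nat_lit 493858305440582043680)) .nil)))) .nil))))),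
 (.br (nat_lit 2) (nat_lit 0) (.cons (.rf (nat_lit 239) (nat_lit 493858305440582043680)) (.cons (.rf (nat_lit 244) (nat_lit 493858305440582043680)) (.cons (.rf (nat_lit 249) (nat_lit 493858305440582043680)) (.cons (.rf (nat_lit 250) (nat_lit 493858305440582043680)) (.cons (.br (nat_lit 2) (nat_lit 0) (.cons (.rf (nat_lit 239) (nat_lit 493858305440582043680)) (.cons (.rf (nat_lit 244) (nat_lit 493858305440582043680)) (.cons (.rf (nat_lit 249) (nat_lit 493858305440582043680)) (.cons (.rf (nat_lit 250) (nat_lit 493858305440582043680)) .nil))))) .nil)))))),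
 (.br (nat_lit 1) (nat_lit 0) (.cons (.rf (nat_lit 251) (nat_lit 493858305440582043680)) (.cons (.ev (nat_lit 79229371440083952227013624064) (nat_lit 1)) (.cons (.br (nat_lit 3) (nat_lit 0) (.cons (.ev (nat_lit 79537652246452447006890656001) (nat_lit 1)) .nil)) .nil)))),
 (.br (nat_lit 2) (nat_lit 0) (.cons (.rf (nat_lit 239) (nat_lit 493858305440582043680)) (.cons (.rf (nat_lit 251) (nat_lit 493858305440582042688)) (.cons (.br (nat_lit 1) (nat_lit 0) (.cons (.rf (nat_lit 251) (nat_lit 493858305440582043680)) (.cons (.rf (nat_lit 252) (nat_lit 493858305440582043680)) (.cons (.br (nat_lit 1) (nat_lit 0) (.cons (.zr (nat_lit 396142026219796015846986417152) (nat_lit 101412048018276798866009056346114) (nat_lit 15) (nat_lit 9)) (.cons (.ev (nat_lit 79229371440083952227013624064) (nat_lit 1)) (.cons (.ev (nat_lit 1208944338417400728781056) (nat_lit 1)) .nil)))) (.cons (.br (nat_lit 1) (nat_lit 0) (.cons (.rf (nat_lit 251) (nat_lit 493858305440582043680)) (.cons (.rf (nat_lit 252) (nat_lit 493858305440582043680))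 (.cons (.ev (nat_lit 1208944338417400728781056) (nat_lit 1)) .nil)))) .nil))))) .nil)))),
 (.br (nat_lit 2) (nat_lit 0) (.cons (.rf (nat_lit 239) (nat_lit 493858305440582043680)) (.cons (.rf (nat_lit 251) (nat_lit 493858305440582042688)) (.cons (.rf (nat_lit 253) (nat_lit 493858305440582043680)) (.cons (.br (nat_lit 2) (nat_lit 0) (.cons (.rf (nat_lit 239) (nat_lit 493858305440582043680)) (.cons (.rf (nat_lit 251) (nat_lit 493858305440582042688)) (.cons (.rf (nat_lit 253) (nat_lit 493858305440582043680)) .nil)))) .nil))))),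
 (.br (nat_lit 2) (nat_lit 0) (.cons (.rf (nat_lit 239) (nat_lit 493858305440582043680)) (.cons (.rf (nat_lit 251) (nat_lit 493858305440582042688)) (.cons (.rf (nat_lit 254) (nat_lit 493858305440582043680)) (.cons (.br (nat_lit 2) (nat_lit 0) (.cons (.rf (nat_lit 239) (nat_lit 493858305440582043680)) (.cons (.rf (nat_lit 251) (nat_lit 493858305440582042688)) (.cons (.rf (nat_lit 254) (nat_lit 493858305440582043680)) .nil)))) .nil))))),
 (.br (nat_lit 2) (nat_lit 0) (.cons (.rf (nat_lit 239) (nat_lit 493858305440582043680)) (.cons (.rf (nat_lit 251) (nat_lit 493858305440582042688)) (.cons (.rf (nat_lit 254) (nat_lit 493858305440582043680)) (.cons (.rf (nat_lit 255) (nat_lit 493858305440582043680)) (.cons (.br (nat_lit 2) (nat_lit 0) (.cons (.rf (nat_lit 239) (nat_lit 493858305440582043680)) (.cons (.rf (nat_lit 251) (nat_lit 493858305440582042688)) (.cons (.rf (nat_lit 254) (nat_lit 493858305440582043680)) (.cons (.rf (nat_lit 255) (nat_lit 493858305440582043680)) .nil))))) .nil)))))),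
 (.br (nat_lit 2) (nat_lit 0) (.cons (.rf (nat_lit 251) (nat_lit 493858305440582042688)) (.cons (.rf (nat_lit 256) (nat_lit 493858305440582042688)) (.cons (.br (nat_lit 2) (nat_lit 0) (.cons (.rf (nat_lit 251) (nat_lit 493858305440582042688)) (.cons (.ev (nat_lit 79229371440083952227013689344) (nat_lit 1)) (.cons (.ev (nat_lit 309489750706912180605878528) (nat_lit 1)) .nil)))) (.cons (.br (nat_lit 2) (nat_lit 0) (.cons (.zr (nat_lit 632268258999251727012070400) (nat_lit 263909009335014580581689003606024) (nat_lit 30) (nat_lit 6)) (.cons (.rf (nat_lit 256) (nat_lit 493858305440582042688)) (.cons (.ev (nat_lit 309489750706912180605878528) (nat_lit 1)) .nil)))) .nil))))),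
 (.br (nat_lit 2) (nat_lit 0) (.cons (.rf (nat_lit 251) (nat_lit 493858305440582042688)) (.cons (.rf (nat_lit 256) (nat_lit 493858305440582042688)) (.cons (.rf (nat_lit 257) (nat_lit 493858305440582043680)) (.cons (.br (nat_lit 2) (nat_lit 0) (.cons (.rf (nat_lit 251) (nat_lit 493858305440582042688)) (.cons (.ev (nat_lit 1208944338417400728846336) (nat_lit 1)) (.cons (.ev (nat_lit 309489750706912180605878528) (nat_lit 1)) .nil)))) .nil))))),
 (.br (nat_lit 1) (nat_lit 0) (.cons (.rf (nat_lit 239) (nat_lit 493858305440582043680)) (.cons (.rf (nat_lit 251) (nat_lit 493858305440582043680)) (.cons (.ev (nat_lit 79229371440083952227013624064) (nat_lit 1)) (.cons (.br (nat_lit 2) (nat_lit 0) (.cons (.rf (nat_lit 251) (nat_lit 493858305440582042688)) (.cons (.rf (nat_lit 256) (nat_lit 493858305440582042688)) (.cons (.rf (nat_lit 257) (nat_lit 493858305440582043680)) (.cons (.rf (nat_lit 258) (nat_lit 493858305440582043680)) (.cons (.br (nat_lit 2) (nat_lit 0) (.cons (.rf (nat_lit 251) (nat_lit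 493858305440582042688)) (.cons (.rf (nat_lit 256) (nat_lit 493858305440582042688)) (.cons (.rf (nat_lit 257) (nat_lit 493858305440582043680)) (.cons (.rf (nat_lit 258) (nat_lit 493858305440582043680)) .nil))))) .nil)))))) .nil))))),
 (.br (nat_lit 1) (nat_lit 0) (.cons (.rf (nat_lit 239) (nat_lit 493858305440582043680)) (.cons (.rf (nat_lit 251) (nat_lit 493858305440582043680)) (.cons (.rf (nat_lit 256) (nat_lit 493858305440582043680)) (.cons (.rf (nat_lit 259) (nat_lit 493858305440582043680)) (.cons (.br (nat_lit 1) (nat_lit 0) (.cons (.rf (nat_lit 239) (nat_lit 493858305440582043680)) (.cons (.rf (nat_lit 251) (nat_lit 493858305440582043680)) (.cons (.rf (nat_lit 256) (nat_lit 493858305440582043680)) (.cons (.rf (nat_lit 259) (nat_lit 493858305440582043680)) .nil))))) .nil)))))),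
 (.br (nat_lit 1) (nat_lit 0) (.cons (.rf (nat_lit 239) (nat_lit 493858305440582043680)) (.cons (.rf (nat_lit 251) (nat_lit 493858305440582043680)) (.cons (.rf (nat_lit 256) (nat_lit 493858305440582043680)) (.cons (.rf (nat_lit 260) (nat_lit 493858305440582043680)) (.cons (.br (nat_lit 1) (nat_lit 0) (.cons (.rf (nat_lit 239) (nat_lit 493858305440582043680)) (.cons (.rf (nat_lit 251) (nat_lit 493858305440582043680)) (.cons (.ev (nat_lit 1208944338417400728781056) (nat_lit 1)) (.cons (.rf (nat_lit 260) (nat_lit 493858305440582043680)) .nil))))) .nil)))))),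
 (.br (nat_lit 8) (nat_lit 1) (.cons (.rf (nat_lit 12) (nat_lit 10887335)) (.cons (.br (nat_lit 12) (nat_lit 1) (.cons (.br (nat_lit 1) (nat_lit 0) (.cons (.rf (nat_lit 239) (nat_lit 493858305440582043680)) (.cons (.rf (nat_lit 251) (nat_lit 493858305440582043680)) (.cons (.rf (nat_lit 256) (nat_lit 493858305440582043680)) (.cons (.rf (nat_lit 260) (nat_lit 493858305440582043680)) (.cons (.rf (nat_lit 261) (nat_lit 493858305440582043680)) (.cons (.br (nat_lit 1) (nat_lit 0) (.cons (.rf (nat_lit 239) (nat_lit 493858305440582043680)) (.cons (.rf (nat_lit 251) (nat_lit 493858305440582043680)) (.cons (.rf (nat_lit 256) (nat_lit 493858305440582043680)) (.cons (.rf (nat_lit 260) (nat_lit 493858305440582043680)) (.cons (.rf (nat_lit 261) (nat_lit 493858305440582043680)) .nil)))))) .nil))))))) .nil)) .nil))),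
 (.br (nat_lit 10) (nat_lit 1) (.cons (.rf (nat_lit 12) (nat_lit 12855525)) (.cons (.br (nat_lit 5) (nat_lit 1) (.cons (.rf (nat_lit 2) (nat_lit 8421)) (.cons (.rf (nat_lit 262) (nat_lit 493858305440582043680)) (.cons (.rf (nat_lit 262) (nat_lit 458045751572476037152)) .nil)))) .nil))),
 (.br (nat_lit 10) (nat_lit 1) (.cons (.rf (nat_lit 156) (nat_lit 15071290766529731)) (.cons (.rf (nat_lit 263) (nat_lit 493858305440582043680)) (.cons (.rf (nat_lit 263) (nat_lit 458045751572476037152)) .nil)))),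
 (.br (nat_lit 1) (nat_lit 0) (.cons (.kr (nat_lit 1) (nat_lit 256) (nat_lit 0) (nat_lit 2)) (.cons (.rf (nat_lit 216) (nat_lit 493856055837646227457)) (.cons (.kr (nat_lit 79229371440156009816756584450) (nat_lit 20282409603670117169120472465920) (nat_lit 0) (nat_lit 2)) (.cons (.kr (nat_lit 20282410812577562096170463920130) (nat_lit 79228162532711082766765130240) (nat_lit 0) (nat_lit 2)) .nil))))),
 (.br (nat_lit 1) (nat_lit 0) (.cons (.kr (nat_lit 1) (nat_lit 256) (nat_lit 0) (nat_lit 2)) (.cons (.kr (nat_lit 79229371440156009816756584960) (nat_lit 20282409603670117169120472596480) (nat_lit 1) (nat_lit 0)) (.cons (.br (nat_lit 6) (nat_lit 0) (.cons (.ev (nat_lit 79229371440084234801502027776) (nat_lit 1)) (.cons (.ev (nat_lit 79228162532783420740563173633) (nat_lit 1)) .nil))) (.cons (.br (nat_lit 6) (nat_lit 0) (.cons (.ev (nat_lit 79229371440084234801502027776) (nat_lit 1)) (.cons (.ev (nat_lit 79228162532783420740563173633) (nat_lit 1)) (.cons (.ev (nat_lit 79229371440084234801502028033)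 (nat_lit 1)) .nil)))) .nil))))),
 (.br (nat_lit 2) (nat_lit 0) (.cons (.rf (nat_lit 216) (nat_lit 493856055837646226434)) (.cons (.rf (nat_lit 266) (nat_lit 493858305440582043680)) (.cons (.rf (nat_lit 266) (nat_lit 458045751572476037152)) .nil)))),
 (.br (nat_lit 2) (nat_lit 0) (.cons (.kr (nat_lit 79229371440156009816756584450) (nat_lit 20282409603670117169120472596480) (nat_lit 0) (nat_lit 1)) (.cons (.rf (nat_lit 267) (nat_lit 493858305440582043680)) (.cons (.br (nat_lit 1) (nat_lit 0) (.cons (.kr (nat_lit 1) (nat_lit 256) (nat_lit 0) (nat_lit 2)) (.cons (.rf (nat_lit 159) (nat_lit 493856055836572518401)) (.cons (.kr (nat_lit 20282410812577562096170463920640) (nat_lit 79228162532711082766765260800) (nat_lit 1) (nat_lit 0)) (.cons (.kr (nat_lit 79229371440156009816756584960) (nat_lit 20282409603670117169120472596480) (nat_lit 1) (nat_lit 0)) .nil))))) .nil)))),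
 (.br (nat_lit 2) (nat_lit 0) (.cons (.rf (nat_lit 265) (nat_lit 493858305440582042688)) (.cons (.rf (nat_lit 267) (nat_lit 493858305440582043680)) (.cons (.rf (nat_lit 268) (nat_lit 493858305440582043680)) (.cons (.rf (nat_lit 268) (nat_lit 458045751572476037152)) .nil))))),
 (.br (nat_lit 2) (nat_lit 0) (.cons (.rf (nat_lit 216) (nat_lit 493856055837646226434)) (.cons (.kr (nat_lit 20282409603670117169120472465920) (nat_lit 79229371440156009816756715520) (nat_lit 1) (nat_lit 0)) (.cons (.kr (nat_lit 256) (nat_lit 65536) (nat_lit 1) (nat_lit 0)) (.cons (.kr (nat_lit 20282409603651670423947251286272) (nat_lit 79228162514264337593544015872) (nat_lit 1) (nat_lit 0)) .nil))))),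
 (.br (nat_lit 4) (nat_lit 0) (.cons (.ev (nat_lit 1213666633123047506247681) (nat_lit 1)) .nil)),
 (.br (nat_lit 2) (nat_lit 0) (.cons (.kr (nat_lit 79229371440156009816756584450) (nat_lit 20282409603670117169120472596480) (nat_lit 0) (nat_lit 1)) (.cons (.rf (nat_lit 269) (nat_lit 493858305440582042688)) (.cons (.kr (nat_lit 256) (nat_lit 65536) (nat_lit 1) (nat_lit 0)) (.cons (.br (nat_lit 6) (nat_lit 0) (.cons (.rf (nat_lit 271) (nat_lit 15433072009550071840)) (.cons (.rf (nat_lit 271) (nat_lit 15433072009549056032)) (.cons (.ev (nat_lit 309489750706912180605878528) (nat_lit 1)) .nil)))) .nil))))),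
 (.br (nat_lit 2) (nat_lit 0) (.cons (.rf (nat_lit 265) (nat_lit 493858305440582042688)) (.cons (.rf (nat_lit 269) (nat_lit 493858305440582042688)) (.cons (.rf (nat_lit 270) (nat_lit 493858305440582043680)) (.cons (.rf (nat_lit 272) (nat_lit 493858305440582043680)) (.cons (.br (nat_lit 2) (nat_lit 0) (.cons (.kr (nat_lit 20282410812577562096170463920130) (nat_lit 79228162532711082766765260800) (nat_lit 0) (nat_lit 1)) (.cons (.rf (nat_lit 269) (nat_lit 493858305440582042688)) (.cons (.kr (nat_lit 20282409603651670423947251286272) (nat_lit 79228162514264337593544015872) (nat_lit 1) (nat_lit 0)) (.cons (.rf (nat_lit 272) (nat_lit 493858305440582043680)) .nil))))) .nil))))))]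

theorem c7 : chkAll C T R L7 (nat_lit 245) = true := by decide +kernel

theorem l7 : (nat_lit 245) + L7.length = (nat_lit 274) := by decide +kernel

/-- part of the certificates -/
def L8 : List Prf := [(.br (nat_lit 1) (nat_lit 0) (.cons (.rf (nat_lit 216) (nat_lit 493856055837646227457)) (.cons (.rf (nat_lit 269) (nat_lit 493858305440582043680)) (.cons (.rf (nat_lit 273) (nat_lit 493858305440582043680)) (.cons (.rf (nat_lit 273) (nat_lit 458045751572476037152)) .nil))))),
 (.br (nat_lit 2) (nat_lit 0) (.cons (.kr (nat_lit 79229371440156009816756584450) (nat_lit 20282409603670117169120472596480) (nat_lit 0) (nat_lit 1)) (.cons (.kr (nat_lit 79228162532711082766765130240) (nat_lit 20282410812577562096170464051200) (nat_lit 1) (nat_lit 0)) (.cons (.rf (nat_lit 274) (nat_lit 493858305440582042688)) (.cons (.ev (nat_lit 310698658007443667056328961) (nat_lit 1)) .nil))))),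
 (.br (nat_lit 1) (nat_lit 0) (.cons (.kr (nat_lit 79229371440156009816756584450) (nat_lit 20282409603670117169120472465920) (nat_lit 0) (nat_lit 2)) (.cons (.rf (nat_lit 269) (nat_lit 493858305440582043680)) (.cons (.rf (nat_lit 274) (nat_lit 493858305440582043680)) (.cons (.br (nat_lit 2) (nat_lit 0) (.cons (.rf (nat_lit 265) (nat_lit 493858305440582042688)) (.cons (.rf (nat_lit 269) (nat_lit 493858305440582042688)) (.cons (.rf (nat_lit 274) (nat_lit 493858305440582042688)) (.cons (.rf (nat_lit 275) (nat_lit 493858305440582043680)) (.cons (.rf (nat_lit 275) (nat_lit 458045751572476037152)) .nil)))))) .nil))))),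
 (.br (nat_lit 1) (nat_lit 0) (.cons (.rf (nat_lit 265) (nat_lit 493858305440582043680)) (.cons (.rf (nat_lit 269) (nat_lit 493858305440582043680)) (.cons (.rf (nat_lit 274) (nat_lit 493858305440582043680)) (.cons (.rf (nat_lit 276) (nat_lit 493858305440582043680)) (.cons (.rf (nat_lit 276) (nat_lit 458045751572476037152)) .nil)))))),
 (.br (nat_lit 2) (nat_lit 0) (.cons (.ev (nat_lit 79229371440083952227013689344) (nat_lit 1)) (.cons (.br (nat_lit 6) (nat_lit 0) (.cons (.ev (nat_lit 20283340490736766906647401660930) (nat_lit 2)) .nil)) .nil))),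
 (.br (nat_lit 2) (nat_lit 0) (.cons (.ev (nat_lit 79229371440084234801501962496) (nat_lit 1)) (.cons (.rf (nat_lit 278) (nat_lit 493858305440582043680)) (.cons (.br (nat_lit 2) (nat_lit 0) (.cons (.ev (nat_lit 79229371440084234801501962496) (nat_lit 1)) (.cons (.rf (nat_lit 278) (nat_lit 493858305440582043680)) .nil))) .nil)))),
 (.br (nat_lit 1) (nat_lit 0) (.cons (.rf (nat_lit 216) (nat_lit 493856055837646227457)) (.cons (.rf (nat_lit 279) (nat_lit 493858305440582043680)) (.cons (.rf (nat_lit 279) (nat_lit 458045751572476037152)) .nil)))),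
 (.br (nat_lit 6) (nat_lit 0) (.cons (.ev (nat_lit 309489732187827942665027584) (nat_lit 1)) (.cons (.br (nat_lit 2) (nat_lit 0) (.cons (.ev (nat_lit 309489732187827942665027584) (nat_lit 1)) .nil)) .nil))),
 (.br (nat_lit 1) (nat_lit 0) (.cons (.kr (nat_lit 79229371440156009816756584450) (nat_lit 20282409603670117169120472465920) (nat_lit 0) (nat_lit 2)) (.cons (.rf (nat_lit 279) (nat_lit 493858305440582043680)) (.cons (.br (nat_lit 2) (nat_lit 0) (.cons (.br (nat_lit 2) (nat_lit 0) (.cons (.ev (nat_lit 79229371440083952227013689344) (nat_lit 1)) (.cons (.ev (nat_lit 79228162532783140365098090496) (nat_lit 1)) .nil))) (.cons (.rf (nat_lit 281) (nat_lit 15433072043909810208)) (.cons (.rf (nat_lit 281) (nat_lit 14313929735531497504)) .nil)))) .nil)))),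
 (.br (nat_lit 1) (nat_lit 0) (.cons (.rf (nat_lit 277) (nat_lit 493858305440582043680)) (.cons (.rf (nat_lit 280) (nat_lit 493858305440582043680)) (.cons (.rf (nat_lit 282) (nat_lit 493858305440582043680)) (.cons (.rf (nat_lit 282) (nat_lit 458045751572476037152)) .nil))))),
 (.br (nat_lit 6) (nat_lit 0) (.cons (.ev (nat_lit 1213666632842672041164801) (nat_lit 1)) .nil)),
 (.br (nat_lit 1) (nat_lit 0) (.cons (.br (nat_lit 9) (nat_lit 0) (.cons (.ev (nat_lit 20363503167058461956136232813060) (nat_lit 3)) .nil)) (.cons (.rf (nat_lit 284) (nat_lit 15433072009550071840)) (.cons (.rf (nat_lit 284) (nat_lit 14313929701171759136)) .nil)))),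
 (.br (nat_lit 4) (nat_lit 0) (.cons (.ev (nat_lit 20283340490736766906647401660930) (nat_lit 2)) .nil)),
 (.br (nat_lit 1) (nat_lit 0) (.cons (.rf (nat_lit 285) (nat_lit 493858305440582043680)) (.cons (.rf (nat_lit 286) (nat_lit 493858305440582043680)) (.cons (.rf (nat_lit 286) (nat_lit 458045751572476037152)) .nil)))),
 (.br (nat_lit 4) (nat_lit 0) (.cons (.ev (nat_lit 1213666633123047506182401) (nat_lit 1)) .nil)),
 (.br (nat_lit 1) (nat_lit 0) (.cons (.rf (nat_lit 284) (nat_lit 15433072009550071840)) (.cons (.rf (nat_lit 286) (nat_lit 493858305440582043680)) (.cons (.rf (nat_lit 288) (nat_lit 15433072009550071840)) .nil)))),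
 (.br (nat_lit 2) (nat_lit 0) (.cons (.rf (nat_lit 277) (nat_lit 493858305440582043680)) (.cons (.ev (nat_lit 79229371440083952227013689344) (nat_lit 1)) (.cons (.br (nat_lit 1) (nat_lit 0) (.cons (.rf (nat_lit 285) (nat_lit 493858305440582043680)) (.cons (.rf (nat_lit 287) (nat_lit 493858305440582043680)) (.cons (.rf (nat_lit 289) (nat_lit 493858305440582043680)) (.cons (.rf (nat_lit 289) (nat_lit 458045751572476037152)) .nil))))) .nil)))),
 (.br (nat_lit 2) (nat_lit 0) (.cons (.rf (nat_lit 277) (nat_lit 493858305440582043680)) (.cons (.rf (nat_lit 283) (nat_lit 493858305440582043680)) (.cons (.rf (nat_lit 290) (nat_lit 493858305440582043680)) (.cons (.rf (nat_lit 290) (nat_lit 458045751572476037152)) .nil))))),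
 (.br (nat_lit 2) (nat_lit 0) (.cons (.rf (nat_lit 277) (nat_lit 493858305440582043680)) (.cons (.rf (nat_lit 283) (nat_lit 493858305440582043680)) (.cons (.rf (nat_lit 291) (nat_lit 493858305440582043680)) (.cons (.br (nat_lit 2) (nat_lit 0) (.cons (.rf (nat_lit 277) (nat_lit 493858305440582043680)) (.cons (.rf (nat_lit 283) (nat_lit 493858305440582043680)) (.cons (.rf (nat_lit 291) (nat_lit 493858305440582043680)) .nil)))) .nil))))),
 (.br (nat_lit 2) (nat_lit 0) (.cons (.rf (nat_lit 277) (nat_lit 493858305440582043680)) (.cons (.rf (nat_lit 283) (nat_lit 493858305440582043680)) (.cons (.rf (nat_lit 291) (nat_lit 493858305440582043680)) (.cons (.rf (nat_lit 292) (nat_lit 493858305440582043680)) (.cons (.rf (nat_lit 292) (nat_lit 458045751572476037152)) .nil)))))),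
 (.br (nat_lit 1) (nat_lit 0) (.cons (.rf (nat_lit 284) (nat_lit 15433072009550071840)) (.cons (.ev (nat_lit 79229371440083952227013624064) (nat_lit 1)) (.cons (.rf (nat_lit 288) (nat_lit 15433072009549056032)) .nil)))),
 (.br (nat_lit 2) (nat_lit 0) (.cons (.rf (nat_lit 277) (nat_lit 493858305440582043680)) (.cons (.rf (nat_lit 293) (nat_lit 493858305440582042688)) (.cons (.br (nat_lit 1) (nat_lit 0) (.cons (.rf (nat_lit 293) (nat_lit 493858305440582043680)) (.cons (.br (nat_lit 1) (nat_lit 0) (.cons (.rf (nat_lit 293) (nat_lit 493858305440582043680)) (.cons (.ev (nat_lit 79229371440083952227013624064) (nat_lit 1)) (.cons (.ev (nat_lit 79228162532783140365098025216) (nat_lit 1)) .nil)))) (.cons (.rf (nat_lit 294) (nat_lit 493858305440582043680)) (.cons (.rf (nat_lit 294) (nat_lit 458045751572476037152)) .nil))))) .nil)))),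
 (.br (nat_lit 2) (nat_lit 0) (.cons (.rf (nat_lit 277) (nat_lit 493858305440582043680)) (.cons (.rf (nat_lit 293) (nat_lit 493858305440582042688)) (.cons (.rf (nat_lit 295) (nat_lit 493858305440582043680)) (.cons (.rf (nat_lit 295) (nat_lit 458045751572476037152)) .nil))))),
 (.br (nat_lit 2) (nat_lit 0) (.cons (.rf (nat_lit 277) (nat_lit 493858305440582043680)) (.cons (.rf (nat_lit 293) (nat_lit 493858305440582042688)) (.cons (.rf (nat_lit 296) (nat_lit 493858305440582043680)) (.cons (.br (nat_lit 2) (nat_lit 0) (.cons (.rf (nat_lit 277) (nat_lit 493858305440582043680)) (.cons (.rf (nat_lit 293) (nat_lit 493858305440582042688)) (.cons (.rf (nat_lit 296) (nat_lit 493858305440582043680)) .nil)))) .nil))))),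
 (.br (nat_lit 2) (nat_lit 0) (.cons (.rf (nat_lit 277) (nat_lit 493858305440582043680)) (.cons (.rf (nat_lit 293) (nat_lit 493858305440582042688)) (.cons (.rf (nat_lit 296) (nat_lit 493858305440582043680)) (.cons (.rf (nat_lit 297) (nat_lit 493858305440582043680)) (.cons (.rf (nat_lit 297) (nat_lit 458045751572476037152)) .nil)))))),
 (.br (nat_lit 2) (nat_lit 0) (.cons (.rf (nat_lit 293) (nat_lit 493858305440582042688)) (.cons (.ev (nat_lit 79229371440083952227013689344) (nat_lit 1)) (.cons (.ev (nat_lit 309489750706912180605878528) (nat_lit 1)) .nil)))),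
 (.br (nat_lit 2) (nat_lit 0) (.cons (.rf (nat_lit 293) (nat_lit 493858305440582042688)) (.cons (.rf (nat_lit 298) (nat_lit 493858305440582042688)) (.cons (.rf (nat_lit 299) (nat_lit 493858305440582043680)) (.cons (.rf (nat_lit 299) (nat_lit 458045751572476037152)) .nil))))),
 (.br (nat_lit 2) (nat_lit 0) (.cons (.rf (nat_lit 293) (nat_lit 493858305440582042688)) (.cons (.rf (nat_lit 298) (nat_lit 493858305440582042688)) (.cons (.rf (nat_lit 300) (nat_lit 493858305440582043680)) (.cons (.br (nat_lit 2) (nat_lit 0) (.cons (.rf (nat_lit 288) (nat_lit 15433072009550070848)) (.cons (.rf (nat_lit 288) (nat_lit 15433072009549055040)) (.cons (.ev (nat_lit 309489750706912180605878528) (nat_lit 1)) .nil)))) .nil))))),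
 (.br (nat_lit 1) (nat_lit 0) (.cons (.rf (nat_lit 277) (nat_lit 493858305440582043680)) (.cons (.rf (nat_lit 293) (nat_lit 493858305440582043680)) (.cons (.ev (nat_lit 79229371440083952227013624064) (nat_lit 1)) (.cons (.br (nat_lit 2) (nat_lit 0) (.cons (.rf (nat_lit 293) (nat_lit 493858305440582042688)) (.cons (.rf (nat_lit 298) (nat_lit 493858305440582042688)) (.cons (.rf (nat_lit 300) (nat_lit 493858305440582043680)) (.cons (.rf (nat_lit 301) (nat_lit 493858305440582043680)) (.cons (.rf (nat_lit 301) (nat_lit 458045751572476037152)) .nil)))))) .nil))))),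
 (.br (nat_lit 1) (nat_lit 0) (.cons (.rf (nat_lit 277) (nat_lit 493858305440582043680)) (.cons (.rf (nat_lit 293) (nat_lit 493858305440582043680)) (.cons (.rf (nat_lit 298) (nat_lit 493858305440582043680)) (.cons (.rf (nat_lit 302) (nat_lit 493858305440582043680)) (.cons (.rf (nat_lit 302) (nat_lit 458045751572476037152)) .nil)))))),
 (.br (nat_lit 1) (nat_lit 0) (.cons (.rf (nat_lit 277) (nat_lit 493858305440582043680)) (.cons (.rf (nat_lit 293) (nat_lit 493858305440582043680)) (.cons (.rf (nat_lit 298) (nat_lit 493858305440582043680)) (.cons (.rf (nat_lit 303) (nat_lit 493858305440582043680)) (.cons (.br (nat_lit 1) (nat_lit 0) (.cons (.rf (nat_lit 277) (nat_lit 493858305440582043680)) (.cons (.rf (nat_lit 293) (nat_lit 493858305440582043680)) (.cons (.rf (nat_lit 298) (nat_lit 493858305440582043680)) (.cons (.rf (nat_lit 303) (nat_lit 493858305440582043680)) .nil))))) .nil)))))),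
 (.br (nat_lit 10) (nat_lit 1) (.cons (.br (nat_lit 12) (nat_lit 1) (.cons (.br (nat_lit 1) (nat_lit 0) (.cons (.rf (nat_lit 277) (nat_lit 493858305440582043680)) (.cons (.rf (nat_lit 293) (nat_lit 493858305440582043680)) (.cons (.rf (nat_lit 298) (nat_lit 493858305440582043680)) (.cons (.rf (nat_lit 303) (nat_lit 493858305440582043680)) (.cons (.rf (nat_lit 304) (nat_lit 493858305440582043680)) (.cons (.rf (nat_lit 304) (nat_lit 458045751572476037152)) .nil))))))) .nil)) .nil)),
 (.br (nat_lit 8) (nat_lit 1) (.cons (.rf (nat_lit 2) (nat_lit 8421)) (.cons (.rf (nat_lit 264) (nat_lit 493858305440582043680)) (.cons (.br (nat_lit 5) (nat_lit 1) (.cons (.br (nat_lit 10) (nat_lit 1) (.cons (.rf (nat_lit 305) (nat_lit 493858305440582043680)) (.cons (.rf (nat_lit 305) (nat_lit 458045751572476037152)) .nil))) (.cons (.rf (nat_lit 12) (nat_lit 14033063)) (.cons (.rf (nat_lit 12) (nat_lit 13017255)) .nil)))) .nil)))),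
 (.br (nat_lit 8) (nat_lit 1) (.cons (.rf (nat_lit 2) (nat_lit 8421)) (.cons (.rf (nat_lit 264) (nat_lit 493858305440582043680)) (.cons (.rf (nat_lit 306) (nat_lit 493858305440582043680)) (.cons (.rf (nat_lit 306) (nat_lit 458045751572476037152)) .nil))))),
 (.br (nat_lit 1) (nat_lit 0) (.cons (.kr (nat_lit 1) (nat_lit 256) (nat_lit 0) (nat_lit 2)) (.cons (.rf (nat_lit 307) (nat_lit 493856055837646227457)) (.cons (.rf (nat_lit 307) (nat_lit 378389217107430705153)) (.cons (.kr (nat_lit 20282409603651670423947251286017) (nat_lit 18446744073709551872) (nat_lit 0) (nat_lit 2)) .nil))))),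
 (.br (nat_lit 2) (nat_lit 0) (.cons (.rf (nat_lit 307) (nat_lit 493856055837646226434)) (.cons (.br (nat_lit 1) (nat_lit 0) (.cons (.kr (nat_lit 1) (nat_lit 256) (nat_lit 0) (nat_lit 2)) (.cons (.rf (nat_lit 229) (nat_lit 491297907834073744448)) (.cons (.rf (nat_lit 226) (nat_lit 493856055837646226496)) (.cons (.br (nat_lit 3) (nat_lit 0) (.cons (.br (nat_lit 9) (nat_lit 0) (.cons (.ev (nat_lit 79850764070626687069135569155) (nat_lit 2)) .nil)) (.cons (.br (nat_lit 6) (nat_lit 0) (.cons (.ev (nat_lit 79850764070626687069135569665) (nat_lit 2)) .nil)) (.cons (.br (nat_lit 6) (nat_lit 0) (.cons (.ev (nat_lit 20362884197075713314905789826048) (nat_lit 3)) .nil)) .nil)))) .nil))))) (.cons (.br (nat_lit 1) (nat_lit 0) (.cons (.kr (nat_lit 1) (nat_lit 256) (nat_lit 0) (nat_lit 2)) (.cons (.kr (nat_lit 20282409603651670423947251286272) (nat_lit 18446744073709617152) (nat_lit 1) (nat_lit 0)) (.cons (.kr (nat_lit 60847230019880830887570440192512) (nat_lit 79228162569676627408710664192) (nat_lit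 1) (nat_lit 0)) (.cons (.br (nat_lit 3) (nat_lit 0) (.cons (.ev (nat_lit 309485028268371721234481153) (nat_lit 1)) (.cons (.rf (nat_lit 227) (nat_lit 493858305440582043680)) .nil))) .nil))))) .nil))))]

theorem c8 : chkAll C T R L8 (nat_lit 274) = true := by decide +kernel

theorem l8 : (nat_lit 274) + L8.length = (nat_lit 310) := by decide +kernel

/-- part of the certificates -/
def L9 : List Prf := [(.br (nat_lit 2) (nat_lit 0) (.cons (.rf (nat_lit 307) (nat_lit 378389217107430704130)) (.cons (.rf (nat_lit 309) (nat_lit 493858305440582043680)) (.cons (.br (nat_lit 1) (nat_lit 0) (.cons (.kr (nat_lit 1) (nat_lit 256) (nat_lit 0) (nat_lit 2)) (.cons (.kr (nat_lit 20361637766166006819134833164800) (nat_lit 1208944266359802396016640) (nat_lit 1) (nat_lit 0)) (.cons (.kr (nat_lit 20282409603651670423947251286272) (nat_lit 18446744073709617152) (nat_lit 1) (nat_lit 0)) (.cons (.br (nat_lit 3) (nat_lit 0) (.cons (.br (nat_lit 6) (nat_lit 0) (.cons (.ev (nat_lit 309489750706629610429218816)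 (nat_lit 1)) .nil)) (.cons (.ev (nat_lit 79538861190718525338621640705) (nat_lit 1)) .nil))) .nil))))) .nil)))),
 (.br (nat_lit 2) (nat_lit 0) (.cons (.rf (nat_lit 308) (nat_lit 493858305440582042688)) (.cons (.rf (nat_lit 309) (nat_lit 493858305440582043680)) (.cons (.rf (nat_lit 310) (nat_lit 493858305440582043680)) (.cons (.br (nat_lit 2) (nat_lit 0) (.cons (.kr (nat_lit 20282409603651670423947251286017) (nat_lit 18446744073709617152) (nat_lit 0) (nat_lit 1)) (.cons (.rf (nat_lit 309) (nat_lit 493858305440582043680)) (.cons (.rf (nat_lit 310) (nat_lit 493858305440582043680)) .nil)))) .nil))))),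
 (.br (nat_lit 2) (nat_lit 0) (.cons (.rf (nat_lit 307) (nat_lit 493856055837646226434)) (.cons (.rf (nat_lit 229) (nat_lit 491297907834073745440)) (.cons (.kr (nat_lit 256) (nat_lit 65536) (nat_lit 1) (nat_lit 0)) (.cons (.rf (nat_lit 226) (nat_lit 491297907834073745440)) .nil))))),
 (.br (nat_lit 2) (nat_lit 0) (.cons (.rf (nat_lit 307) (nat_lit 378389217107430704130)) (.cons (.rf (nat_lit 226) (nat_lit 493856055837646227488)) (.cons (.kr (nat_lit 256) (nat_lit 65536) (nat_lit 1) (nat_lit 0)) (.cons (.rf (nat_lit 229) (nat_lit 493856055837646227488)) .nil))))),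
 (.br (nat_lit 2) (nat_lit 0) (.cons (.rf (nat_lit 308) (nat_lit 493858305440582042688)) (.cons (.rf (nat_lit 311) (nat_lit 493858305440582042688)) (.cons (.rf (nat_lit 312) (nat_lit 493858305440582043680)) (.cons (.rf (nat_lit 313) (nat_lit 493858305440582043680)) (.cons (.br (nat_lit 2) (nat_lit 0) (.cons (.kr (nat_lit 20282409603651670423947251286017) (nat_lit 18446744073709617152) (nat_lit 0) (nat_lit 1)) (.cons (.rf (nat_lit 311) (nat_lit 493858305440582042688)) (.cons (.rf (nat_lit 226) (nat_lit 491297907834073745440)) (.cons (.rf (nat_lit 229) (nat_lit 493856055837646227488)) .nil))))) .nil)))))),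
 (.br (nat_lit 1) (nat_lit 0) (.cons (.rf (nat_lit 307) (nat_lit 493856055837646227457)) (.cons (.rf (nat_lit 311) (nat_lit 493858305440582043680)) (.cons (.rf (nat_lit 314) (nat_lit 493858305440582043680)) (.cons (.br (nat_lit 2) (nat_lit 0) (.cons (.rf (nat_lit 308) (nat_lit 493858305440582042688)) (.cons (.rf (nat_lit 311) (nat_lit 493858305440582042688)) (.cons (.br (nat_lit 2) (nat_lit 0) (.cons (.rf (nat_lit 307) (nat_lit 493856055837646226434)) (.cons (.kr (nat_lit 18446744073709551872) (nat_lit 20282409603651670423947251351552) (nat_lit 1) (nat_lit 0)) (.cons (.rf (nat_lit 226) (nat_lit 491297907834073744448)) (.cons (.kr (nat_lit 256) (nat_lit 65536) (nat_lit 1) (nat_lit 0)) .nil))))) (.cons (.br (nat_lit 2) (nat_lit 0) (.cons (.rf (nat_lit 307) (nat_lit 378389217107430704130)) (.cons (.kr (nat_lit 79228162569676627408710533632) (nat_lit 60847230019880830887570440323072) (nat_lit 1) (nat_lit 0)) (.cons (.rf (nat_lit 226) (nat_lit 491297907834073744448)) (.cons (.kr (nat_lit 79228162532783139261291430400)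 (nat_lit 20282410812577490039675937751040) (nat_lit 1) (nat_lit 0)) .nil))))) (.cons (.br (nat_lit 2) (nat_lit 0) (.cons (.kr (nat_lit 20282409603651670423947251286017) (nat_lit 18446744073709617152) (nat_lit 0) (nat_lit 1)) (.cons (.rf (nat_lit 311) (nat_lit 493858305440582042688)) (.cons (.kr (nat_lit 256) (nat_lit 65536) (nat_lit 1) (nat_lit 0)) (.cons (.kr (nat_lit 79228162532783139261291430400) (nat_lit 20282410812577490039675937751040) (nat_lit 1) (nat_lit 0)) .nil))))) .nil)))))) .nil))))),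
 (.br (nat_lit 1) (nat_lit 0) (.cons (.rf (nat_lit 307) (nat_lit 378389217107430705153)) (.cons (.rf (nat_lit 311) (nat_lit 493858305440582043680)) (.cons (.rf (nat_lit 315) (nat_lit 493858305440582043680)) (.cons (.br (nat_lit 2) (nat_lit 0) (.cons (.rf (nat_lit 308) (nat_lit 493858305440582042688)) (.cons (.rf (nat_lit 311) (nat_lit 493858305440582042688)) (.cons (.rf (nat_lit 315) (nat_lit 493858305440582042688)) (.cons (.br (nat_lit 2) (nat_lit 0) (.cons (.rf (nat_lit 307) (nat_lit 378389217107430704130)) (.cons (.kr (nat_lit 18446744073709551872) (nat_lit 20282409603651670423947251351552) (nat_lit 1) (nat_lit 0)) (.cons (.rf (nat_lit 229) (nat_lit 493856055837646226496)) (.cons (.kr (nat_lit 256) (nat_lit 65536) (nat_lit 1) (nat_lit 0)) .nil))))) (.cons (.br (nat_lit 2) (nat_lit 0) (.cons (.kr (nat_lit 20282409603651670423947251286017) (nat_lit 18446744073709617152) (nat_lit 0) (nat_lit 1)) (.cons (.rf (nat_lit 311) (nat_lit 493858305440582042688)) (.cons (.kr (nat_lit 20282410812577490039675937620480)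 (nat_lit 79228162532783139261291560960) (nat_lit 1) (nat_lit 0)) (.cons (.kr (nat_lit 256) (nat_lit 65536) (nat_lit 1) (nat_lit 0)) .nil))))) .nil)))))) .nil))))),
 (.br (nat_lit 1) (nat_lit 0) (.cons (.rf (nat_lit 308) (nat_lit 493858305440582043680)) (.cons (.rf (nat_lit 311) (nat_lit 493858305440582043680)) (.cons (.rf (nat_lit 315) (nat_lit 493858305440582043680)) (.cons (.rf (nat_lit 316) (nat_lit 493858305440582043680)) (.cons (.br (nat_lit 1) (nat_lit 0) (.cons (.kr (nat_lit 20282409603651670423947251286017) (nat_lit 18446744073709551872) (nat_lit 0) (nat_lit 2)) (.cons (.rf (nat_lit 311) (nat_lit 493858305440582043680)) (.cons (.rf (nat_lit 315) (nat_lit 493858305440582043680)) (.cons (.rf (nat_lit 316) (nat_lit 493858305440582043680)) .nil))))) .nil)))))),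
 (.br (nat_lit 9) (nat_lit 0) (.cons (.ev (nat_lit 20282409603670189507089992318976) (nat_lit 1)) (.cons (.br (nat_lit 2) (nat_lit 0) (.cons (.ev (nat_lit 20282409603670189507089992318976) (nat_lit 1)) .nil)) .nil))),
 (.br (nat_lit 2) (nat_lit 0) (.cons (.ev (nat_lit 20282409603670189507089992318976) (nat_lit 1)) (.cons (.br (nat_lit 6) (nat_lit 0) (.cons (.ev (nat_lit 20282719093383930309483970953473) (nat_lit 1)) .nil)) .nil))),
 (.br (nat_lit 1) (nat_lit 0) (.cons (.rf (nat_lit 307) (nat_lit 493856055837646227457)) (.cons (.br (nat_lit 6) (nat_lit 0) (.cons (.br (nat_lit 2) (nat_lit 0) (.cons (.ev (nat_lit 4722366483969173684224) (nat_lit 1)) (.cons (.br (nat_lit 9) (nat_lit 0) (.cons (.zr (nat_lit 475372601863261042230901735431) (nat_lit 1237944853885865005265454080) (nat_lit 5) (nat_lit 3)) .nil)) .nil))) (.cons (.ev (nat_lit 20678554052574817223165456942080) (nat_lit 3)) (.cons (.br (nat_lit 9) (nat_lit 0) (.cons (.br (nat_lit 2) (nat_lit 0) (.cons (.zr (nat_lit 618970038305607001862832641)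 (nat_lit 3631499825608232163082240) (nat_lit 5) (nat_lit 3)) .nil)) (.cons (.ev (nat_lit 309485028268371721234415873) (nat_lit 1)) .nil))) .nil)))) (.cons (.br (nat_lit 2) (nat_lit 0) (.cons (.rf (nat_lit 318) (nat_lit 493858305440582043680)) (.cons (.rf (nat_lit 319) (nat_lit 493858305440582043680)) (.cons (.br (nat_lit 2) (nat_lit 0) (.cons (.rf (nat_lit 318) (nat_lit 493858305440582043680)) (.cons (.rf (nat_lit 319) (nat_lit 493858305440582043680)) .nil))) .nil)))) .nil)))),
 (.br (nat_lit 2) (nat_lit 0) (.cons (.ev (nat_lit 4722366483969173684224) (nat_lit 1)) (.cons (.br (nat_lit 6) (nat_lit 0) (.cons (.ev (nat_lit 309485028268371721234415873) (nat_lit 1)) .nil)) .nil))),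
 (.br (nat_lit 2) (nat_lit 0) (.cons (.rf (nat_lit 321) (nat_lit 493858305440582043680)) (.cons (.rf (nat_lit 88) (nat_lit 12817254177671200)) (.cons (.br (nat_lit 2) (nat_lit 0) (.cons (.rf (nat_lit 321) (nat_lit 493858305440582043680)) (.cons (.rf (nat_lit 88) (nat_lit 12817254177671200)) .nil))) .nil)))),
 (.br (nat_lit 1) (nat_lit 0) (.cons (.rf (nat_lit 317) (nat_lit 493858305440582043680)) (.cons (.rf (nat_lit 320) (nat_lit 493858305440582043680)) (.cons (.br (nat_lit 1) (nat_lit 0) (.cons (.rf (nat_lit 307) (nat_lit 378389217107430705153)) (.cons (.rf (nat_lit 320) (nat_lit 493858305440582043680)) (.cons (.rf (nat_lit 322) (nat_lit 493858305440582043680)) .nil)))) (.cons (.br (nat_lit 1) (nat_lit 0) (.cons (.kr (nat_lit 20282409603651670423947251286017) (nat_lit 18446744073709551872) (nat_lit 0) (nat_lit 2)) (.cons (.rf (nat_lit 320) (nat_lit 493858305440582043680)) (.cons (.rf (nat_lit 322) (nat_lit 493858305440582043680)) .nil)))) .nil))))),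
 (.br (nat_lit 1) (nat_lit 0) (.cons (.ev (nat_lit 72339069031481344) (nat_lit 1)) (.cons (.ev (nat_lit 79229376162522492686418640896) (nat_lit 1)) (.cons (.br (nat_lit 6) (nat_lit 0) (.cons (.ev (nat_lit 20678554071463993802766025753600) (nat_lit 3)) .nil)) .nil)))),
 (.br (nat_lit 2) (nat_lit 0) (.cons (.rf (nat_lit 317) (nat_lit 493858305440582043680)) (.cons (.rf (nat_lit 323) (nat_lit 493858305440582043680)) (.cons (.br (nat_lit 1) (nat_lit 0) (.cons (.rf (nat_lit 324) (nat_lit 493858305440582043680)) (.cons (.ev (nat_lit 72339069031481344) (nat_lit 1)) (.cons (.ev (nat_lit 79229376162522492686418640896) (nat_lit 1)) (.cons (.br (nat_lit 1) (nat_lit 0) (.cons (.rf (nat_lit 324) (nat_lit 493858305440582043680)) (.cons (.ev (nat_lit 72339069031481344) (nat_lit 1)) (.cons (.ev (nat_lit 79229376162522492686418640896) (nat_lit 1)) .nil)))) .nil))))) .nil)))),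
 (.br (nat_lit 2) (nat_lit 0) (.cons (.rf (nat_lit 317) (nat_lit 493858305440582043680)) (.cons (.rf (nat_lit 323) (nat_lit 493858305440582043680)) (.cons (.rf (nat_lit 325) (nat_lit 493858305440582043680)) (.cons (.br (nat_lit 2) (nat_lit 0) (.cons (.rf (nat_lit 317) (nat_lit 493858305440582043680)) (.cons (.rf (nat_lit 323) (nat_lit 493858305440582043680)) (.cons (.rf (nat_lit 325) (nat_lit 493858305440582043680)) .nil)))) .nil))))),
 (.br (nat_lit 2) (nat_lit 0) (.cons (.rf (nat_lit 317) (nat_lit 493858305440582043680)) (.cons (.rf (nat_lit 323) (nat_lit 493858305440582043680)) (.cons (.rf (nat_lit 326) (nat_lit 493858305440582043680)) (.cons (.br (nat_lit 2) (nat_lit 0) (.cons (.rf (nat_lit 317) (nat_lit 493858305440582043680)) (.cons (.rf (nat_lit 323) (nat_lit 493858305440582043680)) (.cons (.rf (nat_lit 326) (nat_lit 493858305440582043680)) .nil)))) .nil))))),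
 (.br (nat_lit 2) (nat_lit 0) (.cons (.rf (nat_lit 317) (nat_lit 493858305440582043680)) (.cons (.rf (nat_lit 323) (nat_lit 493858305440582043680)) (.cons (.rf (nat_lit 326) (nat_lit 493858305440582043680)) (.cons (.rf (nat_lit 327) (nat_lit 493858305440582043680)) (.cons (.br (nat_lit 2) (nat_lit 0) (.cons (.rf (nat_lit 317) (nat_lit 493858305440582043680)) (.cons (.rf (nat_lit 323) (nat_lit 493858305440582043680)) (.cons (.rf (nat_lit 326) (nat_lit 493858305440582043680)) (.cons (.rf (nat_lit 327) (nat_lit 493858305440582043680)) .nil))))) .nil)))))),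
 (.br (nat_lit 1) (nat_lit 0) (.cons (.ev (nat_lit 72339069031481344) (nat_lit 1)) (.cons (.br (nat_lit 3) (nat_lit 0) (.cons (.ev (nat_lit 79231803458822911565014106626) (nat_lit 2)) .nil)) (.cons (.br (nat_lit 3) (nat_lit 0) (.cons (.ev (nat_lit 21156401363369111632261345838090) (nat_lit 4)) .nil)) .nil)))),
 (.br (nat_lit 1) (nat_lit 0) (.cons (.ev (nat_lit 79229376162522492686418640896) (nat_lit 1)) (.cons (.rf (nat_lit 329) (nat_lit 493858305440582043680)) (.cons (.br (nat_lit 3) (nat_lit 0) (.cons (.ev (nat_lit 21156401382259443393962428992518) (nat_lit 4)) .nil)) .nil)))),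
 (.br (nat_lit 2) (nat_lit 0) (.cons (.rf (nat_lit 317) (nat_lit 493858305440582043680)) (.cons (.rf (nat_lit 328) (nat_lit 493858305440582042688)) (.cons (.br (nat_lit 1) (nat_lit 0) (.cons (.rf (nat_lit 328) (nat_lit 493858305440582043680)) (.cons (.rf (nat_lit 329) (nat_lit 493858305440582043680)) (.cons (.rf (nat_lit 330) (nat_lit 493858305440582043680)) (.cons (.br (nat_lit 1) (nat_lit 0) (.cons (.rf (nat_lit 328) (nat_lit 493858305440582043680)) (.cons (.rf (nat_lit 329) (nat_lit 493858305440582043680)) (.cons (.rf (nat_lit 330) (nat_lit 493858305440582043680)) .nil)))) .nil))))) .nil)))),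
 (.br (nat_lit 2) (nat_lit 0) (.cons (.rf (nat_lit 317) (nat_lit 493858305440582043680)) (.cons (.rf (nat_lit 328) (nat_lit 493858305440582042688)) (.cons (.rf (nat_lit 331) (nat_lit 493858305440582043680)) (.cons (.br (nat_lit 2) (nat_lit 0) (.cons (.rf (nat_lit 317) (nat_lit 493858305440582043680)) (.cons (.rf (nat_lit 328) (nat_lit 493858305440582042688)) (.cons (.rf (nat_lit 331) (nat_lit 493858305440582043680)) .nil)))) .nil))))),
 (.br (nat_lit 2) (nat_lit 0) (.cons (.rf (nat_lit 317) (nat_lit 493858305440582043680)) (.cons (.rf (nat_lit 328) (nat_lit 493858305440582042688)) (.cons (.rf (nat_lit 332) (nat_lit 493858305440582043680)) (.cons (.br (nat_lit 2) (nat_lit 0) (.cons (.rf (nat_lit 317) (nat_lit 493858305440582043680)) (.cons (.rf (nat_lit 322) (nat_lit 493858305440582042688)) (.cons (.rf (nat_lit 332) (nat_lit 493858305440582043680)) .nil)))) .nil))))),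
 (.br (nat_lit 2) (nat_lit 0) (.cons (.rf (nat_lit 317) (nat_lit 493858305440582043680)) (.cons (.rf (nat_lit 328) (nat_lit 493858305440582042688)) (.cons (.rf (nat_lit 332) (nat_lit 493858305440582043680)) (.cons (.rf (nat_lit 333) (nat_lit 493858305440582043680)) (.cons (.br (nat_lit 2) (nat_lit 0) (.cons (.rf (nat_lit 317) (nat_lit 493858305440582043680)) (.cons (.rf (nat_lit 328) (nat_lit 493858305440582042688)) (.cons (.rf (nat_lit 332) (nat_lit 493858305440582043680)) (.cons (.rf (nat_lit 333) (nat_lit 493858305440582043680)) .nil))))) .nil)))))),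
 (.br (nat_lit 2) (nat_lit 0) (.cons (.ev (nat_lit 72339069031416064) (nat_lit 1)) (.cons (.rf (nat_lit 334) (nat_lit 493858305440582042688)) (.cons (.br (nat_lit 3) (nat_lit 0) (.cons (.ev (nat_lit 79231803458822911565014106626) (nat_lit 2)) .nil)) .nil)))),
 (.br (nat_lit 2) (nat_lit 0) (.cons (.ev (nat_lit 72339069031416064) (nat_lit 1)) (.cons (.rf (nat_lit 334) (nat_lit 493858305440582042688)) (.cons (.rf (nat_lit 335) (nat_lit 493858305440582043680)) (.cons (.br (nat_lit 2) (nat_lit 0) (.cons (.ev (nat_lit 72339069031416064) (nat_lit 1)) (.cons (.rf (nat_lit 334) (nat_lit 493858305440582042688)) (.cons (.rf (nat_lit 335) (nat_lit 493858305440582043680)) .nil)))) .nil))))),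
 (.br (nat_lit 2) (nat_lit 0) (.cons (.ev (nat_lit 79229376162522492686418575616) (nat_lit 1)) (.cons (.rf (nat_lit 334) (nat_lit 493858305440582042688)) (.cons (.rf (nat_lit 336) (nat_lit 493858305440582043680)) (.cons (.br (nat_lit 2) (nat_lit 0) (.cons (.ev (nat_lit 79229376162522492686418575616) (nat_lit 1)) (.cons (.rf (nat_lit 334) (nat_lit 493858305440582042688)) (.cons (.rf (nat_lit 336) (nat_lit 493858305440582043680)) .nil)))) .nil)))))]

theorem c9 : chkAll C T R L9 (nat_lit 310) = true := by decide +kernel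

theorem l9 : (nat_lit 310) + L9.length = (nat_lit 338) := by decide +kernel

/-- part of the certificates -/
def L10 : List Prf := [(.br (nat_lit 1) (nat_lit 0) (.cons (.rf (nat_lit 317) (nat_lit 493858305440582043680)) (.cons (.rf (nat_lit 328) (nat_lit 493858305440582043680)) (.cons (.rf (nat_lit 334) (nat_lit 493858305440582043680)) (.cons (.br (nat_lit 2) (nat_lit 0) (.cons (.rf (nat_lit 328) (nat_lit 493858305440582042688)) (.cons (.rf (nat_lit 334) (nat_lit 493858305440582042688)) (.cons (.rf (nat_lit 336) (nat_lit 493858305440582043680)) (.cons (.rf (nat_lit 337) (nat_lit 493858305440582043680)) (.cons (.br (nat_lit 2) (nat_lit 0) (.cons (.rf (nat_lit 328) (nat_lit 493858305440582042688)) (.cons (.rf (nat_lit 334) (nat_lit 493858305440582042688)) (.cons (.rf (nat_lit 336) (nat_lit 493858305440582043680)) (.cons (.rf (nat_lit 337) (nat_lit 493858305440582043680)) .nil))))) .nil)))))) .nil))))),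
 (.br (nat_lit 1) (nat_lit 0) (.cons (.rf (nat_lit 317) (nat_lit 493858305440582043680)) (.cons (.rf (nat_lit 328) (nat_lit 493858305440582043680)) (.cons (.rf (nat_lit 334) (nat_lit 493858305440582043680)) (.cons (.rf (nat_lit 338) (nat_lit 493858305440582043680)) (.cons (.br (nat_lit 1) (nat_lit 0) (.cons (.rf (nat_lit 317) (nat_lit 493858305440582043680)) (.cons (.rf (nat_lit 328) (nat_lit 493858305440582043680)) (.cons (.rf (nat_lit 334) (nat_lit 493858305440582043680)) (.cons (.rf (nat_lit 338) (nat_lit 493858305440582043680)) .nil))))) .nil)))))),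
 (.br (nat_lit 1) (nat_lit 0) (.cons (.rf (nat_lit 317) (nat_lit 493858305440582043680)) (.cons (.rf (nat_lit 328) (nat_lit 493858305440582043680)) (.cons (.rf (nat_lit 334) (nat_lit 493858305440582043680)) (.cons (.rf (nat_lit 339) (nat_lit 493858305440582043680)) (.cons (.br (nat_lit 1) (nat_lit 0) (.cons (.rf (nat_lit 317) (nat_lit 493858305440582043680)) (.cons (.rf (nat_lit 328) (nat_lit 493858305440582043680)) (.cons (.rf (nat_lit 334) (nat_lit 493858305440582043680)) (.cons (.rf (nat_lit 339) (nat_lit 493858305440582043680)) .nil))))) .nil)))))),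
 (.br (nat_lit 10) (nat_lit 1) (.cons (.rf (nat_lit 12) (nat_lit 8792231)) (.cons (.br (nat_lit 12) (nat_lit 1) (.cons (.br (nat_lit 1) (nat_lit 0) (.cons (.rf (nat_lit 317) (nat_lit 493858305440582043680)) (.cons (.rf (nat_lit 328) (nat_lit 493858305440582043680)) (.cons (.rf (nat_lit 334) (nat_lit 493858305440582043680)) (.cons (.rf (nat_lit 339) (nat_lit 493858305440582043680)) (.cons (.rf (nat_lit 340) (nat_lit 493858305440582043680)) (.cons (.br (nat_lit 1) (nat_lit 0) (.cons (.rf (nat_lit 317) (nat_lit 493858305440582043680)) (.cons (.rf (nat_lit 328) (nat_lit 493858305440582043680)) (.cons (.rf (nat_lit 334) (nat_lit 493858305440582043680)) (.cons (.rf (nat_lit 339) (nat_lit 493858305440582043680)) (.cons (.rf (nat_lit 340) (nat_lit 493858305440582043680)) .nil)))))) .nil))))))) .nil)) .nil))),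
 (.br (nat_lit 5) (nat_lit 1) (.cons (.rf (nat_lit 2) (nat_lit 10469)) (.cons (.rf (nat_lit 341) (nat_lit 493858305440582043680)) (.cons (.rf (nat_lit 341) (nat_lit 458045751572476037152)) .nil)))),
 (.br (nat_lit 9) (nat_lit 1) (.cons (.kr (nat_lit 1213648186097498819985408) (nat_lit 72058697844523008) (nat_lit 2) (nat_lit 0)) .nil)),
 (.br (nat_lit 1) (nat_lit 0) (.cons (.kr (nat_lit 1) (nat_lit 256) (nat_lit 0) (nat_lit 2)) (.cons (.kr (nat_lit 1208925819614629174706177) (nat_lit 18446744073709551872) (nat_lit 0) (nat_lit 2)) (.cons (.kr (nat_lit 79229371440156009816756584450) (nat_lit 20282409603670117169120472465920) (nat_lit 0) (nat_lit 2)) (.cons (.rf (nat_lit 216) (nat_lit 378388092304890103809)) .nil))))),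
 (.br (nat_lit 2) (nat_lit 0) (.cons (.kr (nat_lit 1208925819614629174706177) (nat_lit 18446744073709617152) (nat_lit 0) (nat_lit 1)) (.cons (.br (nat_lit 1) (nat_lit 0) (.cons (.kr (nat_lit 1) (nat_lit 256) (nat_lit 0) (nat_lit 2)) (.cons (.kr (nat_lit 79229371440156009816756584960) (nat_lit 20282409603670117169120472596480) (nat_lit 1) (nat_lit 0)) (.cons (.kr (nat_lit 1208925819614629174706432) (nat_lit 18446744073709617152) (nat_lit 1) (nat_lit 0)) (.cons (.br (nat_lit 3) (nat_lit 0) (.cons (.br (nat_lit 9) (nat_lit 0) (.cons (.ev (nat_lit 310698676526245334820651265) (nat_lit 1)) .nil)) (.cons (.br (nat_lit 6) (nat_lit 0) (.cons (.ev (nat_lit 310698676526245334820651008) (nat_lit 1)) .nil)) (.cons (.br (nat_lit 6) (nat_lit 0) (.cons (.ev (nat_lit 309489732259886631936327936) (nat_lit 1)) .nil)) .nil)))) .nil))))) (.cons (.br (nat_lit 1) (nat_lit 0) (.cons (.kr (nat_lit 1) (nat_lit 256) (nat_lit 0) (nat_lit 2)) (.cons (.br (nat_lit 3) (nat_lit 0) (.cons (.br (nat_lit 9) (nat_lit 0)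 (.cons (.ev (nat_lit 309485028268371721234481408) (nat_lit 1)) .nil)) (.cons (.ev (nat_lit 310693935641242276699570433) (nat_lit 1)) .nil))) (.cons (.br (nat_lit 3) (nat_lit 0) (.cons (.br (nat_lit 9) (nat_lit 0) (.cons (.ev (nat_lit 310698676526245334820651265) (nat_lit 1)) .nil)) (.cons (.br (nat_lit 6) (nat_lit 0) (.cons (.ev (nat_lit 309489732259886631936327936) (nat_lit 1)) .nil)) (.cons (.br (nat_lit 6) (nat_lit 0) (.cons (.ev (nat_lit 310698676526245334820651008) (nat_lit 1)) .nil)) .nil)))) (.cons (.kr (nat_lit 1208925819614629174706432) (nat_lit 18446744073709617152) (nat_lit 1) (nat_lit 0)) .nil))))) .nil)))),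
 (.br (nat_lit 3) (nat_lit 0) (.cons (.ev (nat_lit 20361637770888373302004495155456) (nat_lit 1)) (.cons (.ev (nat_lit 4722366483969173618944) (nat_lit 1)) (.cons (.ev (nat_lit 20361637770888373302004495220736) (nat_lit 1)) .nil)))),
 (.br (nat_lit 2) (nat_lit 0) (.cons (.kr (nat_lit 79229371440156009816756584450) (nat_lit 20282409603670117169120472596480) (nat_lit 0) (nat_lit 1)) (.cons (.rf (nat_lit 345) (nat_lit 493858305440582043680)) (.cons (.br (nat_lit 1) (nat_lit 0) (.cons (.kr (nat_lit 1) (nat_lit 256) (nat_lit 0) (nat_lit 2)) (.cons (.br (nat_lit 3) (nat_lit 0) (.cons (.ev (nat_lit 18519084246547628288) (nat_lit 1)) (.cons (.br (nat_lit 6) (nat_lit 0) (.cons (.ev (nat_lit 1208925891954802012717313) (nat_lit 1)) .nil)) (.cons (.br (nat_lit 6) (nat_lit 0) (.cons (.ev (nat_lit 1208925891954802012717313) (nat_lit 1)) .nil)) .nil)))) (.cons (.rf (nat_lit 346) (nat_lit 493858305440582043680)) (.cons (.kr (nat_lit 79229371440156009816756584960) (nat_lit 20282409603670117169120472596480)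 (nat_lit 1) (nat_lit 0)) .nil))))) .nil)))),
 (.br (nat_lit 2) (nat_lit 0) (.cons (.rf (nat_lit 344) (nat_lit 493858305440582042688)) (.cons (.rf (nat_lit 345) (nat_lit 493858305440582043680)) (.cons (.rf (nat_lit 347) (nat_lit 493858305440582043680)) (.cons (.br (nat_lit 2) (nat_lit 0) (.cons (.rf (nat_lit 216) (nat_lit 378388092304890102786)) (.cons (.rf (nat_lit 345) (nat_lit 493858305440582043680)) (.cons (.rf (nat_lit 347) (nat_lit 493858305440582043680)) .nil)))) .nil))))),
 (.br (nat_lit 2) (nat_lit 0) (.cons (.kr (nat_lit 1208925819614629174706177) (nat_lit 18446744073709617152) (nat_lit 0) (nat_lit 1)) (.cons (.kr (nat_lit 20282409603670117169120472465920) (nat_lit 79229371440156009816756715520) (nat_lit 1) (nat_lit 0)) (.cons (.kr (nat_lit 256) (nat_lit 65536) (nat_lit 1) (nat_lit 0)) (.cons (.br (nat_lit 3) (nat_lit 0) (.cons (.br (nat_lit 9) (nat_lit 0) (.cons (.ev (nat_lit 310698676526245334820651265) (nat_lit 1)) .nil)) (.cons (.br (nat_lit 4) (nat_lit 0) (.cons (.ev (nat_lit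 309489732259886631936327936) (nat_lit 1)) .nil)) (.cons (.br (nat_lit 4) (nat_lit 0) (.cons (.ev (nat_lit 309489732259886631936393216) (nat_lit 1)) .nil)) .nil)))) .nil))))),
 (.br (nat_lit 2) (nat_lit 0) (.cons (.rf (nat_lit 344) (nat_lit 493858305440582042688)) (.cons (.rf (nat_lit 348) (nat_lit 493858305440582042688)) (.cons (.rf (nat_lit 349) (nat_lit 493858305440582043680)) (.cons (.br (nat_lit 2) (nat_lit 0) (.cons (.kr (nat_lit 79229371440156009816756584450) (nat_lit 20282409603670117169120472596480) (nat_lit 0) (nat_lit 1)) (.cons (.kr (nat_lit 18446744073709551872) (nat_lit 1208925819614629174771712) (nat_lit 1) (nat_lit 0)) (.cons (.kr (nat_lit 256) (nat_lit 65536) (nat_lit 1) (nat_lit 0)) (.cons (.rf (nat_lit 346) (nat_lit 493858305438436657184)) .nil))))) (.cons (.br (nat_lit 2) (nat_lit 0) (.cons (.rf (nat_lit 216) (nat_lit 378388092304890102786)) (.cons (.rf (nat_lit 348) (nat_lit 493858305440582042688)) (.cons (.rf (nat_lit 349) (nat_lit 493858305440582043680)) (.cons (.rf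 (nat_lit 346) (nat_lit 493858305438436657184)) .nil))))) .nil)))))),
 (.br (nat_lit 1) (nat_lit 0) (.cons (.kr (nat_lit 1208925819614629174706177) (nat_lit 18446744073709551872) (nat_lit 0) (nat_lit 2)) (.cons (.rf (nat_lit 348) (nat_lit 493858305440582043680)) (.cons (.rf (nat_lit 350) (nat_lit 493858305440582043680)) (.cons (.br (nat_lit 2) (nat_lit 0) (.cons (.rf (nat_lit 344) (nat_lit 493858305440582042688)) (.cons (.rf (nat_lit 348) (nat_lit 493858305440582042688)) (.cons (.br (nat_lit 2) (nat_lit 0) (.cons (.kr (nat_lit 1208925819614629174706177) (nat_lit 18446744073709617152) (nat_lit 0) (nat_lit 1)) (.cons (.rf (nat_lit 348) (nat_lit 493858305440582042688)) (.cons (.rf (nat_lit 350) (nat_lit 493858305440582042688)) (.cons (.kr (nat_lit 256) (nat_lit 65536) (nat_lit 1) (nat_lit 0)) .nil))))) (.cons (.br (nat_lit 2) (nat_lit 0) (.cons (.kr (nat_lit 79229371440156009816756584450) (nat_lit 20282409603670117169120472596480) (nat_lit 0) (nat_lit 1)) (.cons (.rf (nat_lit 348) (nat_lit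 493858305440582042688)) (.cons (.rf (nat_lit 350) (nat_lit 493858305440582042688)) (.cons (.kr (nat_lit 79228162532783139261291430400) (nat_lit 20282410812577490039675937751040) (nat_lit 1) (nat_lit 0)) .nil))))) (.cons (.rf (nat_lit 270) (nat_lit 306836096596512442400)) .nil)))))) .nil))))),
 (.br (nat_lit 1) (nat_lit 0) (.cons (.kr (nat_lit 79229371440156009816756584450) (nat_lit 20282409603670117169120472465920) (nat_lit 0) (nat_lit 2)) (.cons (.rf (nat_lit 348) (nat_lit 493858305440582043680)) (.cons (.rf (nat_lit 351) (nat_lit 493858305440582043680)) (.cons (.br (nat_lit 2) (nat_lit 0) (.cons (.rf (nat_lit 344) (nat_lit 493858305440582042688)) (.cons (.rf (nat_lit 348) (nat_lit 493858305440582042688)) (.cons (.rf (nat_lit 351) (nat_lit 493858305440582042688)) (.cons (.br (nat_lit 2) (nat_lit 0) (.cons (.kr (nat_lit 79229371440156009816756584450) (nat_lit 20282409603670117169120472596480) (nat_lit 0) (nat_lit 1)) (.cons (.rf (nat_lit 346) (nat_lit 493858305440582042688)) (.cons (.rf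 (nat_lit 346) (nat_lit 493858305438436656192)) (.cons (.kr (nat_lit 256) (nat_lit 65536) (nat_lit 1) (nat_lit 0)) .nil))))) (.cons (.br (nat_lit 2) (nat_lit 0) (.cons (.rf (nat_lit 216) (nat_lit 378388092304890102786)) (.cons (.kr (nat_lit 20282409603670117169120472465920) (nat_lit 79229371440156009816756715520) (nat_lit 1) (nat_lit 0)) (.cons (.kr (nat_lit 20282410812577490039675937620480) (nat_lit 79228162532783139261291560960) (nat_lit 1) (nat_lit 0)) (.cons (.kr (nat_lit 256) (nat_lit 65536) (nat_lit 1) (nat_lit 0)) .nil))))) .nil)))))) .nil))))),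
 (.br (nat_lit 1) (nat_lit 0) (.cons (.rf (nat_lit 344) (nat_lit 493858305440582043680)) (.cons (.rf (nat_lit 348) (nat_lit 493858305440582043680)) (.cons (.rf (nat_lit 351) (nat_lit 493858305440582043680)) (.cons (.rf (nat_lit 352) (nat_lit 493858305440582043680)) (.cons (.br (nat_lit 1) (nat_lit 0) (.cons (.rf (nat_lit 216) (nat_lit 378388092304890103809)) (.cons (.rf (nat_lit 348) (nat_lit 493858305440582043680)) (.cons (.rf (nat_lit 351) (nat_lit 493858305440582043680)) (.cons (.rf (nat_lit 352) (nat_lit 493858305440582043680)) .nil))))) .nil)))))),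
 (.br (nat_lit 2) (nat_lit 0) (.cons (.ev (nat_lit 4722366483969173684224) (nat_lit 1)) (.cons (.br (nat_lit 9) (nat_lit 0) (.cons (.ev (nat_lit 20361637770888373302004495220993) (nat_lit 1)) .nil)) .nil))),
 (.br (nat_lit 2) (nat_lit 0) (.cons (.ev (nat_lit 4722366483969173684224) (nat_lit 1)) (.cons (.br (nat_lit 6) (nat_lit 0) (.cons (.ev (nat_lit 310693935641242276699570176) (nat_lit 1)) .nil)) .nil))),
 (.br (nat_lit 2) (nat_lit 0) (.cons (.br (nat_lit 9) (nat_lit 0) (.cons (.ev (nat_lit 158457538713681165064236696065) (nat_lit 2)) .nil)) (.cons (.ev (nat_lit 20837629338067142254209492189700) (nat_lit 3)) .nil))),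
 (.br (nat_lit 2) (nat_lit 0) (.cons (.rf (nat_lit 356) (nat_lit 493858305440582043680)) (.cons (.br (nat_lit 6) (nat_lit 0) (.cons (.ev (nat_lit 20520095328473289549074996920832) (nat_lit 3)) .nil)) .nil))),
 (.br (nat_lit 1) (nat_lit 0) (.cons (.kr (nat_lit 1208925819614629174706177) (nat_lit 18446744073709551872) (nat_lit 0) (nat_lit 2)) (.cons (.br (nat_lit 2) (nat_lit 0) (.cons (.rf (nat_lit 354) (nat_lit 493858305440582043680)) (.cons (.rf (nat_lit 355) (nat_lit 493858305440582043680)) (.cons (.br (nat_lit 2) (nat_lit 0) (.cons (.rf (nat_lit 354) (nat_lit 493858305440582043680)) (.cons (.rf (nat_lit 355) (nat_lit 493858305440582043680)) .nil))) .nil)))) (.cons (.br (nat_lit 2) (nat_lit 0) (.cons (.rf (nat_lit 356) (nat_lit 493858305440582043680)) (.cons (.rf (nat_lit 357) (nat_lit 493858305440582043680)) (.cons (.br (nat_lit 2) (nat_lit 0) (.cons (.ev (nat_lit 20837629338067142254209492189700) (nat_lit 3)) (.cons (.rf (nat_lit 357) (nat_lit 493858305440582043680)) .nil))) .nil))))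 .nil)))),
 (.br (nat_lit 1) (nat_lit 0) (.cons (.kr (nat_lit 79229371440156009816756584450) (nat_lit 20282409603670117169120472465920) (nat_lit 0) (nat_lit 2)) (.cons (.rf (nat_lit 358) (nat_lit 493858305440582043680)) (.cons (.rf (nat_lit 322) (nat_lit 493858305440582043680)) .nil)))),
 (.br (nat_lit 1) (nat_lit 0) (.cons (.rf (nat_lit 353) (nat_lit 493858305440582043680)) (.cons (.rf (nat_lit 358) (nat_lit 493858305440582043680)) (.cons (.rf (nat_lit 359) (nat_lit 493858305440582043680)) (.cons (.br (nat_lit 1) (nat_lit 0) (.cons (.rf (nat_lit 216) (nat_lit 378388092304890103809)) (.cons (.rf (nat_lit 358) (nat_lit 493858305440582043680)) (.cons (.rf (nat_lit 322) (nat_lit 493858305440582043680)) .nil)))) .nil))))),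
 (.br (nat_lit 6) (nat_lit 0) (.cons (.ev (nat_lit 18519084246547628288) (nat_lit 1)) (.cons (.br (nat_lit 1) (nat_lit 0) (.cons (.ev (nat_lit 20520097746435609242775603642880) (nat_lit 3)) .nil)) (.cons (.ev (nat_lit 310693935641242276699570176) (nat_lit 1)) .nil)))),
 (.br (nat_lit 4) (nat_lit 0) (.cons (.ev (nat_lit 18519084246547628288) (nat_lit 1)) (.cons (.br (nat_lit 1) (nat_lit 0) (.cons (.ev (nat_lit 20520102582065100724997464261120) (nat_lit 3)) .nil)) (.cons (.ev (nat_lit 309485028268371721234415616) (nat_lit 1)) .nil)))),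
 (.br (nat_lit 1) (nat_lit 0) (.cons (.rf (nat_lit 361) (nat_lit 493858305440582043680)) (.cons (.rf (nat_lit 362) (nat_lit 493858305440582043680)) (.cons (.br (nat_lit 4) (nat_lit 0) (.cons (.ev (nat_lit 158767033131413482360327569920) (nat_lit 2)) .nil)) .nil)))),
 (.br (nat_lit 2) (nat_lit 0) (.cons (.rf (nat_lit 353) (nat_lit 493858305440582043680)) (.cons (.rf (nat_lit 360) (nat_lit 493858305440582043680)) (.cons (.br (nat_lit 1) (nat_lit 0) (.cons (.rf (nat_lit 361) (nat_lit 493858305440582043680)) (.cons (.rf (nat_lit 362) (nat_lit 493858305440582043680)) (.cons (.rf (nat_lit 363) (nat_lit 493858305440582043680)) (.cons (.br (nat_lit 1) (nat_lit 0) (.cons (.rf (nat_lit 361) (nat_lit 493858305440582043680)) (.cons (.rf (nat_lit 362) (nat_lit 493858305440582043680)) (.cons (.rf (nat_lit 363) (nat_lit 493858305440582043680)) .nil)))) .nil))))) .nil))))]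

theorem c10 : chkAll C T R L10 (nat_lit 338) = true := by decide +kernel

theorem l10 : (nat_lit 338) + L10.length = (nat_lit 365) := by decide +kernel

/-- part of the certificates -/
def L11 : List Prf := [(.br (nat_lit 2) (nat_lit 0) (.cons (.rf (nat_lit 353) (nat_lit 493858305440582043680)) (.cons (.rf (nat_lit 360) (nat_lit 493858305440582043680)) (.cons (.rf (nat_lit 364) (nat_lit 493858305440582043680)) (.cons (.br (nat_lit 2) (nat_lit 0) (.cons (.rf (nat_lit 353) (nat_lit 493858305440582043680)) (.cons (.rf (nat_lit 360) (nat_lit 493858305440582043680)) (.cons (.rf (nat_lit 364) (nat_lit 493858305440582043680)) .nil)))) .nil))))),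
 (.br (nat_lit 2) (nat_lit 0) (.cons (.rf (nat_lit 353) (nat_lit 493858305440582043680)) (.cons (.rf (nat_lit 360) (nat_lit 493858305440582043680)) (.cons (.rf (nat_lit 365) (nat_lit 493858305440582043680)) (.cons (.br (nat_lit 2) (nat_lit 0) (.cons (.rf (nat_lit 353) (nat_lit 493858305440582043680)) (.cons (.rf (nat_lit 360) (nat_lit 493858305440582043680)) (.cons (.rf (nat_lit 365) (nat_lit 493858305440582043680)) .nil)))) .nil))))),
 (.br (nat_lit 2) (nat_lit 0) (.cons (.rf (nat_lit 353) (nat_lit 493858305440582043680)) (.cons (.rf (nat_lit 360) (nat_lit 493858305440582043680)) (.cons (.rf (nat_lit 365) (nat_lit 493858305440582043680)) (.cons (.rf (nat_lit 366) (nat_lit 493858305440582043680)) (.cons (.br (nat_lit 2) (nat_lit 0) (.cons (.rf (nat_lit 353) (nat_lit 493858305440582043680)) (.cons (.rf (nat_lit 360) (nat_lit 493858305440582043680)) (.cons (.rf (nat_lit 365) (nat_lit 493858305440582043680)) (.cons (.rf (nat_lit 366) (nat_lit 493858305440582043680)) .nil))))) .nil)))))),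
 (.br (nat_lit 3) (nat_lit 0) (.cons (.ev (nat_lit 1208925891954802012717313) (nat_lit 1)) .nil)),
 (.br (nat_lit 1) (nat_lit 0) (.cons (.ev (nat_lit 18519084246547628288) (nat_lit 1)) (.cons (.rf (nat_lit 368) (nat_lit 493858305440582043680)) (.cons (.rf (nat_lit 368) (nat_lit 493786318215288293408)) .nil)))),
 (.br (nat_lit 1) (nat_lit 0) (.cons (.rf (nat_lit 367) (nat_lit 493858305440582043680)) (.cons (.rf (nat_lit 368) (nat_lit 493858305440582043680)) (.cons (.br (nat_lit 3) (nat_lit 0) (.cons (.ev (nat_lit 310698676526245334820651265) (nat_lit 1)) .nil)) .nil)))),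
 (.br (nat_lit 2) (nat_lit 0) (.cons (.rf (nat_lit 353) (nat_lit 493858305440582043680)) (.cons (.rf (nat_lit 367) (nat_lit 493858305440582042688)) (.cons (.br (nat_lit 1) (nat_lit 0) (.cons (.rf (nat_lit 367) (nat_lit 493858305440582043680)) (.cons (.rf (nat_lit 369) (nat_lit 493858305440582043680)) (.cons (.rf (nat_lit 370) (nat_lit 493858305440582043680)) (.cons (.br (nat_lit 1) (nat_lit 0) (.cons (.rf (nat_lit 367) (nat_lit 493858305440582043680)) (.cons (.rf (nat_lit 368) (nat_lit 493786318215288293408)) (.cons (.rf (nat_lit 370) (nat_lit 493858305440582043680)) .nil)))) .nil))))) .nil)))),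
 (.br (nat_lit 2) (nat_lit 0) (.cons (.rf (nat_lit 353) (nat_lit 493858305440582043680)) (.cons (.rf (nat_lit 367) (nat_lit 493858305440582042688)) (.cons (.rf (nat_lit 371) (nat_lit 493858305440582043680)) (.cons (.br (nat_lit 2) (nat_lit 0) (.cons (.rf (nat_lit 353) (nat_lit 493858305440582043680)) (.cons (.rf (nat_lit 367) (nat_lit 493858305440582042688)) (.cons (.rf (nat_lit 371) (nat_lit 493858305440582043680)) .nil)))) .nil))))),
 (.br (nat_lit 2) (nat_lit 0) (.cons (.rf (nat_lit 353) (nat_lit 493858305440582043680)) (.cons (.rf (nat_lit 367) (nat_lit 493858305440582042688)) (.cons (.rf (nat_lit 372) (nat_lit 493858305440582043680)) (.cons (.br (nat_lit 2) (nat_lit 0) (.cons (.rf (nat_lit 353) (nat_lit 493858305440582043680)) (.cons (.rf (nat_lit 322) (nat_lit 493858305440582042688)) (.cons (.rf (nat_lit 372) (nat_lit 493858305440582043680)) .nil)))) .nil))))),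
 (.br (nat_lit 2) (nat_lit 0) (.cons (.rf (nat_lit 353) (nat_lit 493858305440582043680)) (.cons (.rf (nat_lit 367) (nat_lit 493858305440582042688)) (.cons (.rf (nat_lit 372) (nat_lit 493858305440582043680)) (.cons (.rf (nat_lit 373) (nat_lit 493858305440582043680)) (.cons (.br (nat_lit 2) (nat_lit 0) (.cons (.rf (nat_lit 353) (nat_lit 493858305440582043680)) (.cons (.rf (nat_lit 367) (nat_lit 493858305440582042688)) (.cons (.rf (nat_lit 372) (nat_lit 493858305440582043680)) (.cons (.rf (nat_lit 373) (nat_lit 493858305440582043680)) .nil))))) .nil)))))),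
 (.br (nat_lit 2) (nat_lit 0) (.cons (.rf (nat_lit 367) (nat_lit 493858305440582042688)) (.cons (.rf (nat_lit 374) (nat_lit 493858305440582042688)) (.cons (.br (nat_lit 3) (nat_lit 0) (.cons (.ev (nat_lit 310698676526245334820651265) (nat_lit 1)) .nil)) .nil)))),
 (.br (nat_lit 2) (nat_lit 0) (.cons (.rf (nat_lit 367) (nat_lit 493858305440582042688)) (.cons (.rf (nat_lit 374) (nat_lit 493858305440582042688)) (.cons (.rf (nat_lit 375) (nat_lit 493858305440582043680)) (.cons (.br (nat_lit 2) (nat_lit 0) (.cons (.rf (nat_lit 367) (nat_lit 493858305440582042688)) (.cons (.rf (nat_lit 374) (nat_lit 493858305440582042688)) (.cons (.rf (nat_lit 375) (nat_lit 493858305440582043680)) .nil)))) .nil))))),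
 (.br (nat_lit 2) (nat_lit 0) (.cons (.rf (nat_lit 367) (nat_lit 493858305440582042688)) (.cons (.rf (nat_lit 374) (nat_lit 493858305440582042688)) (.cons (.rf (nat_lit 376) (nat_lit 493858305440582043680)) (.cons (.br (nat_lit 2) (nat_lit 0) (.cons (.rf (nat_lit 367) (nat_lit 493858305440582042688)) (.cons (.rf (nat_lit 374) (nat_lit 493858305440582042688)) (.cons (.rf (nat_lit 376) (nat_lit 493858305440582043680)) .nil)))) .nil))))),
 (.br (nat_lit 1) (nat_lit 0) (.cons (.rf (nat_lit 353) (nat_lit 493858305440582043680)) (.cons (.rf (nat_lit 367) (nat_lit 493858305440582043680)) (.cons (.rf (nat_lit 374) (nat_lit 493858305440582043680)) (.cons (.br (nat_lit 2) (nat_lit 0) (.cons (.rf (nat_lit 367) (nat_lit 493858305440582042688)) (.cons (.rf (nat_lit 374) (nat_lit 493858305440582042688)) (.cons (.rf (nat_lit 376) (nat_lit 493858305440582043680)) (.cons (.rf (nat_lit 377) (nat_lit 493858305440582043680)) (.cons (.br (nat_lit 2) (nat_lit 0) (.cons (.rf (nat_lit 367) (nat_lit 493858305440582042688))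 (.cons (.rf (nat_lit 374) (nat_lit 493858305440582042688)) (.cons (.rf (nat_lit 376) (nat_lit 493858305440582043680)) (.cons (.rf (nat_lit 377) (nat_lit 493858305440582043680)) .nil))))) .nil)))))) .nil))))),
 (.br (nat_lit 1) (nat_lit 0) (.cons (.rf (nat_lit 353) (nat_lit 493858305440582043680)) (.cons (.rf (nat_lit 367) (nat_lit 493858305440582043680)) (.cons (.rf (nat_lit 374) (nat_lit 493858305440582043680)) (.cons (.rf (nat_lit 378) (nat_lit 493858305440582043680)) (.cons (.br (nat_lit 1) (nat_lit 0) (.cons (.rf (nat_lit 353) (nat_lit 493858305440582043680)) (.cons (.rf (nat_lit 367) (nat_lit 493858305440582043680)) (.cons (.rf (nat_lit 374) (nat_lit 493858305440582043680)) (.cons (.rf (nat_lit 378) (nat_lit 493858305440582043680)) .nil))))) .nil)))))),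
 (.br (nat_lit 1) (nat_lit 0) (.cons (.rf (nat_lit 353) (nat_lit 493858305440582043680)) (.cons (.rf (nat_lit 367) (nat_lit 493858305440582043680)) (.cons (.rf (nat_lit 374) (nat_lit 493858305440582043680)) (.cons (.rf (nat_lit 379) (nat_lit 493858305440582043680)) (.cons (.br (nat_lit 1) (nat_lit 0) (.cons (.rf (nat_lit 353) (nat_lit 493858305440582043680)) (.cons (.rf (nat_lit 367) (nat_lit 493858305440582043680)) (.cons (.rf (nat_lit 374) (nat_lit 493858305440582043680)) (.cons (.rf (nat_lit 379) (nat_lit 493858305440582043680)) .nil))))) .nil)))))),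
 (.br (nat_lit 7) (nat_lit 1) (.cons (.br (nat_lit 1) (nat_lit 0) (.cons (.rf (nat_lit 353) (nat_lit 493858305440582043680)) (.cons (.rf (nat_lit 367) (nat_lit 493858305440582043680)) (.cons (.rf (nat_lit 374) (nat_lit 493858305440582043680)) (.cons (.rf (nat_lit 379) (nat_lit 493858305440582043680)) (.cons (.rf (nat_lit 380) (nat_lit 493858305440582043680)) (.cons (.br (nat_lit 1) (nat_lit 0) (.cons (.rf (nat_lit 353) (nat_lit 493858305440582043680)) (.cons (.rf (nat_lit 367) (nat_lit 493858305440582043680)) (.cons (.rf (nat_lit 374) (nat_lit 493858305440582043680)) (.cons (.rf (nat_lit 379) (nat_lit 493858305440582043680)) (.cons (.rf (nat_lit 380) (nat_lit 493858305440582043680)) .nil)))))) .nil))))))) .nil)),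
 (.br (nat_lit 10) (nat_lit 1) (.cons (.rf (nat_lit 156) (nat_lit 15071290766529731)) (.cons (.rf (nat_lit 342) (nat_lit 493858305440582043680)) (.cons (.br (nat_lit 5) (nat_lit 1) (.cons (.rf (nat_lit 343) (nat_lit 15071359418963075)) (.cons (.rf (nat_lit 381) (nat_lit 493858305440582043680)) (.cons (.rf (nat_lit 381) (nat_lit 458045751572476037152)) .nil)))) .nil)))),
 (.br (nat_lit 8) (nat_lit 1) (.cons (.rf (nat_lit 156) (nat_lit 15071359418963075)) (.cons (.rf (nat_lit 307) (nat_lit 493858305440582043680)) (.cons (.br (nat_lit 10) (nat_lit 1) (.cons (.rf (nat_lit 156) (nat_lit 15071290766529731)) (.cons (.rf (nat_lit 342) (nat_lit 493858305440582043680)) (.cons (.rf (nat_lit 382) (nat_lit 493858305440582043680)) (.cons (.rf (nat_lit 382) (nat_lit 458045751572476037152)) .nil))))) .nil)))),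
 (.br (nat_lit 8) (nat_lit 1) (.cons (.rf (nat_lit 156) (nat_lit 15071359418963075)) (.cons (.rf (nat_lit 307) (nat_lit 493858305440582043680)) (.cons (.rf (nat_lit 383) (nat_lit 493858305440582043680)) (.cons (.rf (nat_lit 383) (nat_lit 458045751572476037152)) .nil))))),
 (.br (nat_lit 8) (nat_lit 1) (.cons (.rf (nat_lit 216) (nat_lit 493858305440582043680)) (.cons (.rf (nat_lit 307) (nat_lit 493858305440582043680)) (.cons (.rf (nat_lit 384) (nat_lit 493858305440582043680)) (.cons (.br (nat_lit 8) (nat_lit 1) (.cons (.rf (nat_lit 216) (nat_lit 493858305440582043680)) (.cons (.rf (nat_lit 307) (nat_lit 493858305440582043680)) (.cons (.rf (nat_lit 384) (nat_lit 493858305440582043680)) .nil)))) .nil))))),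
 (.br (nat_lit 4) (nat_lit 1) (.cons (.rf (nat_lit 68) (nat_lit 247132686368)) (.cons (.br (nat_lit 7) (nat_lit 0) (.cons (.rf (nat_lit 153) (nat_lit 9043225708576)) (.cons (.br (nat_lit 6) (nat_lit 1) (.cons (.rf (nat_lit 153) (nat_lit 9043225708576)) (.cons (.br (nat_lit 7) (nat_lit 0) (.cons (.br (nat_lit 9) (nat_lit 1) (.cons (.br (nat_lit 11) (nat_lit 1) (.cons (.br (nat_lit 8) (nat_lit 1) (.cons (.rf (nat_lit 216) (nat_lit 493858305440582043680)) (.cons (.rf (nat_lit 307) (nat_lit 493858305440582043680)) (.cons (.rf (nat_lit 384) (nat_lit 493858305440582043680)) (.cons (.rf (nat_lit 385) (nat_lit 493858305440582043680)) (.cons (.rf (nat_lit 385) (nat_lit 458045751572476037152)) .nil)))))) .nil)) .nil)) .nil)) .nil))) .nil))) .nil))),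
 (.br (nat_lit 1) (nat_lit 0) (.cons (.kr (nat_lit 1) (nat_lit 256) (nat_lit 0) (nat_lit 2)) (.cons (.rf (nat_lit 386) (nat_lit 313703729153)) (.cons (.kr (nat_lit 79228167236702878057227091970) (nat_lit 20282409603670117169120472465920) (nat_lit 0) (nat_lit 2)) (.cons (.kr (nat_lit 20282409608374108964410934427650) (nat_lit 79228162532711082766765130240) (nat_lit 0) (nat_lit 2)) .nil))))),
 (.br (nat_lit 2) (nat_lit 0) (.cons (.rf (nat_lit 387) (nat_lit 493858305440582042688)) (.cons (.rf (nat_lit 346) (nat_lit 267600666274184757282)) (.cons (.br (nat_lit 2) (nat_lit 0) (.cons (.kr (nat_lit 79228167236702878057227091970) (nat_lit 20282409603670117169120472596480) (nat_lit 0) (nat_lit 1)) (.cons (.rf (nat_lit 386) (nat_lit 183922525186)) (.cons (.kr (nat_lit 20282409608374108964410934428160) (nat_lit 79228162532711082766765260800) (nat_lit 1) (nat_lit 0)) .nil)))) (.cons (.br (nat_lit 2) (nat_lit 0) (.cons (.kr (nat_lit 20282409608374108964410934427650) (nat_lit 79228162532711082766765260800)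 (nat_lit 0) (nat_lit 1)) (.cons (.rf (nat_lit 386) (nat_lit 182849831938)) (.cons (.kr (nat_lit 20282409608374108964410934428160) (nat_lit 79228162532711082766765260800) (nat_lit 1) (nat_lit 0)) .nil)))) .nil))))),
 (.br (nat_lit 1) (nat_lit 0) (.cons (.kr (nat_lit 1) (nat_lit 256) (nat_lit 0) (nat_lit 2)) (.cons (.rf (nat_lit 386) (nat_lit 312631035905)) (.cons (.rf (nat_lit 388) (nat_lit 493858305440582043680)) (.cons (.rf (nat_lit 388) (nat_lit 458082835900657666080)) .nil))))),
 (.br (nat_lit 1) (nat_lit 0) (.cons (.rf (nat_lit 386) (nat_lit 244984252417)) (.cons (.rf (nat_lit 386) (nat_lit 243911559169)) (.cons (.rf (nat_lit 386) (nat_lit 181705836545)) (.cons (.rf (nat_lit 386) (nat_lit 180633143297)) .nil))))),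
 (.br (nat_lit 2) (nat_lit 0) (.cons (.kr (nat_lit 79228167236702878057227091970) (nat_lit 20282409603670117169120472596480) (nat_lit 0) (nat_lit 1)) (.cons (.kr (nat_lit 79228162532711082766765130240) (nat_lit 20282409608374108964410934558720) (nat_lit 1) (nat_lit 0)) (.cons (.rf (nat_lit 386) (nat_lit 183922525186)) (.cons (.kr (nat_lit 256) (nat_lit 65536) (nat_lit 1) (nat_lit 0)) .nil))))),
 (.br (nat_lit 1) (nat_lit 0) (.cons (.kr (nat_lit 79228167236702878057227091970) (nat_lit 20282409603670117169120472465920) (nat_lit 0) (nat_lit 2)) (.cons (.rf (nat_lit 389) (nat_lit 493858305440582043680)) (.cons (.rf (nat_lit 386) (nat_lit 183922526209)) (.cons (.br (nat_lit 2) (nat_lit 0) (.cons (.rf (nat_lit 387) (nat_lit 493858305440582042688)) (.cons (.rf (nat_lit 389) (nat_lit 493858305440582042688)) (.cons (.rf (nat_lit 390) (nat_lit 398339061417024)) (.cons (.rf (nat_lit 391) (nat_lit 493858305440582043680)) (.cons (.rf (nat_lit 391) (nat_lit 458082835900657666080)) .nil)))))) .nil))))),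
 (.br (nat_lit 1) (nat_lit 0) (.cons (.rf (nat_lit 387) (nat_lit 493858305440582043680)) (.cons (.rf (nat_lit 389) (nat_lit 493858305440582043680)) (.cons (.rf (nat_lit 390) (nat_lit 398339061418016)) (.cons (.rf (nat_lit 392) (nat_lit 493858305440582043680)) (.cons (.rf (nat_lit 392) (nat_lit 458082835900657666080)) .nil)))))),
 (.br (nat_lit 2) (nat_lit 0) (.cons (.ev (nat_lit 20361637799278058238797129319940) (nat_lit 3)) (.cons (.br (nat_lit 6) (nat_lit 0) (.cons (.ev (nat_lit 79849559848726251575854694401) (nat_lit 2)) .nil)) .nil)))]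

theorem c11 : chkAll C T R L11 (nat_lit 365) = true := by decide +kernel

theorem l11 : (nat_lit 365) + L11.length = (nat_lit 395) := by decide +kernel

/-- part of the certificates -/
def L12 : List Prf := [(.br (nat_lit 2) (nat_lit 0) (.cons (.br (nat_lit 2) (nat_lit 0) (.cons (.ev (nat_lit 20361637799278058238797129319940) (nat_lit 3)) (.cons (.ev (nat_lit 20678550421037953171588045472260) (nat_lit 3)) .nil))) (.cons (.rf (nat_lit 394) (nat_lit 493858305440582043680)) (.cons (.br (nat_lit 2) (nat_lit 0) (.cons (.ev (nat_lit 20678550421037953171588045472260) (nat_lit 3)) (.cons (.rf (nat_lit 394) (nat_lit 493858305440582043680)) .nil))) .nil)))),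
 (.br (nat_lit 1) (nat_lit 0) (.cons (.rf (nat_lit 386) (nat_lit 313703729153)) (.cons (.rf (nat_lit 395) (nat_lit 493858305440582043680)) (.cons (.rf (nat_lit 395) (nat_lit 458082835900657666080)) .nil)))),
 (.br (nat_lit 6) (nat_lit 0) (.cons (.ev (nat_lit 1213648258156192369475841) (nat_lit 1)) .nil)),
 (.br (nat_lit 2) (nat_lit 0) (.cons (.rf (nat_lit 397) (nat_lit 14242959524133701664)) (.cons (.rf (nat_lit 397) (nat_lit 13124976101011064864)) .nil))),
 (.br (nat_lit 6) (nat_lit 0) (.cons (.rf (nat_lit 398) (nat_lit 14242959524133701664)) (.cons (.ev (nat_lit 1213648258156192369475841) (nat_lit 1)) .nil))),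
 (.br (nat_lit 1) (nat_lit 0) (.cons (.kr (nat_lit 79228167236702878057227091970) (nat_lit 20282409603670117169120472465920) (nat_lit 0) (nat_lit 2)) (.cons (.rf (nat_lit 396) (nat_lit 493858305440582043680)) (.cons (.br (nat_lit 2) (nat_lit 0) (.cons (.rf (nat_lit 398) (nat_lit 15433072009550071840)) (.cons (.rf (nat_lit 399) (nat_lit 15433072009550071840)) (.cons (.rf (nat_lit 399) (nat_lit 14315088586427435040)) .nil)))) .nil)))),
 (.br (nat_lit 1) (nat_lit 0) (.cons (.rf (nat_lit 393) (nat_lit 493858305440582043680)) (.cons (.rf (nat_lit 396) (nat_lit 493858305440582043680)) (.cons (.rf (nat_lit 400) (nat_lit 493858305440582043680)) (.cons (.rf (nat_lit 400) (nat_lit 458082835900657666080)) .nil))))),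
 (.br (nat_lit 6) (nat_lit 0) (.cons (.br (nat_lit 1) (nat_lit 0) (.cons (.ev (nat_lit 20680414594096676571445148517888) (nat_lit 3)) .nil)) (.cons (.ev (nat_lit 310698676454186641254252544) (nat_lit 1)) .nil))),
 (.br (nat_lit 2) (nat_lit 0) (.cons (.rf (nat_lit 386) (nat_lit 183922525186)) (.cons (.rf (nat_lit 401) (nat_lit 493858305440582043680)) (.cons (.br (nat_lit 4) (nat_lit 0) (.cons (.br (nat_lit 1) (nat_lit 0) (.cons (.br (nat_lit 10) (nat_lit 0) (.cons (.ev (nat_lit 310698658223897937031790592) (nat_lit 2)) .nil)) (.cons (.ev (nat_lit 79228162514336395191876845824) (nat_lit 1)) (.cons (.ev (nat_lit 79228167255077565640705310976) (nat_lit 1)) .nil)))) (.cons (.ev (nat_lit 4722366764348916957184) (nat_lit 1)) (.cons (.rf (nat_lit 402) (nat_lit 493858305440582043680)) (.cons (.rf (nat_lit 402) (nat_lit 458082835900657666080)) .nil))))) .nil)))),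
 (.br (nat_lit 2) (nat_lit 0) (.cons (.rf (nat_lit 390) (nat_lit 398339061417024)) (.cons (.rf (nat_lit 401) (nat_lit 493858305440582043680)) (.cons (.rf (nat_lit 403) (nat_lit 493858305440582043680)) (.cons (.rf (nat_lit 403) (nat_lit 458082835900657666080)) .nil))))),
 (.br (nat_lit 2) (nat_lit 0) (.cons (.rf (nat_lit 393) (nat_lit 493858305440582043680)) (.cons (.rf (nat_lit 401) (nat_lit 493858305440582043680)) (.cons (.rf (nat_lit 404) (nat_lit 493858305440582043680)) (.cons (.br (nat_lit 2) (nat_lit 0) (.cons (.rf (nat_lit 393) (nat_lit 493858305440582043680)) (.cons (.rf (nat_lit 401) (nat_lit 493858305440582043680)) (.cons (.rf (nat_lit 404) (nat_lit 493858305440582043680)) .nil)))) .nil))))),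
 (.br (nat_lit 2) (nat_lit 0) (.cons (.rf (nat_lit 393) (nat_lit 493858305440582043680)) (.cons (.rf (nat_lit 401) (nat_lit 493858305440582043680)) (.cons (.rf (nat_lit 404) (nat_lit 493858305440582043680)) (.cons (.rf (nat_lit 405) (nat_lit 493858305440582043680)) (.cons (.rf (nat_lit 405) (nat_lit 458082835900657666080)) .nil)))))),
 (.br (nat_lit 11) (nat_lit 0) (.cons (.ev (nat_lit 310693935713018391449108481) (nat_lit 1)) (.cons (.kr (nat_lit 79228167255150185080890064898) (nat_lit 20283030991522952344451151822848) (nat_lit 0) (nat_lit 1)) .nil))),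
 (.br (nat_lit 2) (nat_lit 0) (.cons (.rf (nat_lit 386) (nat_lit 183922525186)) (.cons (.rf (nat_lit 406) (nat_lit 493858305440582042688)) (.cons (.br (nat_lit 3) (nat_lit 0) (.cons (.rf (nat_lit 406) (nat_lit 493858305440582043680)) (.cons (.ev (nat_lit 18519084246530785281) (nat_lit 1)) (.cons (.rf (nat_lit 407) (nat_lit 493858305440582043680)) (.cons (.rf (nat_lit 407) (nat_lit 458082835900657666080)) .nil))))) .nil)))),
 (.br (nat_lit 2) (nat_lit 0) (.cons (.rf (nat_lit 390) (nat_lit 398339061417024)) (.cons (.rf (nat_lit 406) (nat_lit 493858305440582042688)) (.cons (.rf (nat_lit 408) (nat_lit 493858305440582043680)) (.cons (.rf (nat_lit 408) (nat_lit 458082835900657666080)) .nil))))),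
 (.br (nat_lit 2) (nat_lit 0) (.cons (.rf (nat_lit 393) (nat_lit 493858305440582043680)) (.cons (.rf (nat_lit 406) (nat_lit 493858305440582042688)) (.cons (.rf (nat_lit 409) (nat_lit 493858305440582043680)) (.cons (.br (nat_lit 2) (nat_lit 0) (.cons (.rf (nat_lit 393) (nat_lit 493858305440582043680)) (.cons (.rf (nat_lit 406) (nat_lit 493858305440582042688)) (.cons (.rf (nat_lit 409) (nat_lit 493858305440582043680)) .nil)))) .nil))))),
 (.br (nat_lit 2) (nat_lit 0) (.cons (.rf (nat_lit 393) (nat_lit 493858305440582043680)) (.cons (.rf (nat_lit 406) (nat_lit 493858305440582042688)) (.cons (.rf (nat_lit 409) (nat_lit 493858305440582043680)) (.cons (.rf (nat_lit 410) (nat_lit 493858305440582043680)) (.cons (.rf (nat_lit 410) (nat_lit 458082835900657666080)) .nil)))))),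
 (.br (nat_lit 3) (nat_lit 0) (.cons (.rf (nat_lit 406) (nat_lit 493858305440582042688)) (.cons (.ev (nat_lit 18519084246530785281) (nat_lit 1)) (.cons (.ev (nat_lit 310693935713018391449043201) (nat_lit 1)) .nil)))),
 (.br (nat_lit 2) (nat_lit 0) (.cons (.rf (nat_lit 406) (nat_lit 493858305440582042688)) (.cons (.rf (nat_lit 411) (nat_lit 493858305440582042688)) (.cons (.rf (nat_lit 412) (nat_lit 493858305440582043680)) (.cons (.rf (nat_lit 412) (nat_lit 458082835900657666080)) .nil))))),
 (.br (nat_lit 2) (nat_lit 0) (.cons (.rf (nat_lit 406) (nat_lit 493858305440582042688)) (.cons (.rf (nat_lit 411) (nat_lit 493858305440582042688)) (.cons (.rf (nat_lit 413) (nat_lit 493858305440582043680)) (.cons (.br (nat_lit 2) (nat_lit 0) (.cons (.rf (nat_lit 406) (nat_lit 493858305440582042688)) (.cons (.rf (nat_lit 411) (nat_lit 493858305440582042688)) (.cons (.rf (nat_lit 413) (nat_lit 493858305440582043680)) .nil)))) .nil))))),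
 (.br (nat_lit 1) (nat_lit 0) (.cons (.rf (nat_lit 386) (nat_lit 183922526209)) (.cons (.rf (nat_lit 406) (nat_lit 493858305440582043680)) (.cons (.rf (nat_lit 411) (nat_lit 493858305440582043680)) (.cons (.br (nat_lit 2) (nat_lit 0) (.cons (.rf (nat_lit 406) (nat_lit 493858305440582042688)) (.cons (.rf (nat_lit 411) (nat_lit 493858305440582042688)) (.cons (.rf (nat_lit 413) (nat_lit 493858305440582043680)) (.cons (.rf (nat_lit 414) (nat_lit 493858305440582043680)) (.cons (.rf (nat_lit 414) (nat_lit 458082835900657666080)) .nil)))))) .nil))))),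
 (.br (nat_lit 1) (nat_lit 0) (.cons (.rf (nat_lit 390) (nat_lit 398339061418016)) (.cons (.rf (nat_lit 406) (nat_lit 493858305440582043680)) (.cons (.rf (nat_lit 411) (nat_lit 493858305440582043680)) (.cons (.rf (nat_lit 415) (nat_lit 493858305440582043680)) (.cons (.rf (nat_lit 415) (nat_lit 458082835900657666080)) .nil)))))),
 (.br (nat_lit 1) (nat_lit 0) (.cons (.rf (nat_lit 393) (nat_lit 493858305440582043680)) (.cons (.rf (nat_lit 406) (nat_lit 493858305440582043680)) (.cons (.rf (nat_lit 411) (nat_lit 493858305440582043680)) (.cons (.rf (nat_lit 416) (nat_lit 493858305440582043680)) (.cons (.br (nat_lit 1) (nat_lit 0) (.cons (.rf (nat_lit 393) (nat_lit 493858305440582043680)) (.cons (.rf (nat_lit 406) (nat_lit 493858305440582043680)) (.cons (.rf (nat_lit 411) (nat_lit 493858305440582043680)) (.cons (.rf (nat_lit 416) (nat_lit 493858305440582043680)) .nil))))) .nil)))))),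
 (.br (nat_lit 8) (nat_lit 1) (.cons (.br (nat_lit 12) (nat_lit 1) (.cons (.br (nat_lit 1) (nat_lit 0) (.cons (.rf (nat_lit 393) (nat_lit 493858305440582043680)) (.cons (.rf (nat_lit 406) (nat_lit 493858305440582043680)) (.cons (.rf (nat_lit 411) (nat_lit 493858305440582043680)) (.cons (.rf (nat_lit 416) (nat_lit 493858305440582043680)) (.cons (.rf (nat_lit 417) (nat_lit 493858305440582043680)) (.cons (.rf (nat_lit 417) (nat_lit 458082835900657666080)) .nil))))))) .nil)) .nil)),
 (.br (nat_lit 7) (nat_lit 1) (.cons (.rf (nat_lit 156) (nat_lit 15071291741705318)) (.cons (.rf (nat_lit 2) (nat_lit 7461)) (.cons (.br (nat_lit 9) (nat_lit 1) (.cons (.br (nat_lit 8) (nat_lit 1) (.cons (.rf (nat_lit 418) (nat_lit 493858305440582043680)) (.cons (.rf (nat_lit 418) (nat_lit 458082835900657666080)) .nil))) (.cons (.rf (nat_lit 12) (nat_lit 14032165)) (.cons (.rf (nat_lit 12) (nat_lit 13016357)) .nil)))) .nil)))),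
 (.br (nat_lit 7) (nat_lit 1) (.cons (.rf (nat_lit 156) (nat_lit 15071291741705318)) (.cons (.rf (nat_lit 2) (nat_lit 7461)) (.cons (.rf (nat_lit 419) (nat_lit 493858305440582043680)) (.cons (.rf (nat_lit 419) (nat_lit 458082835900657666080)) .nil))))),
 (.br (nat_lit 1) (nat_lit 0) (.cons (.kr (nat_lit 1) (nat_lit 256) (nat_lit 0) (nat_lit 2)) (.cons (.rf (nat_lit 386) (nat_lit 313703729153)) (.cons (.br (nat_lit 2) (nat_lit 0) (.cons (.br (nat_lit 2) (nat_lit 0) (.cons (.rf (nat_lit 386) (nat_lit 312631034882)) (.cons (.kr (nat_lit 79228167255077564536898715650) (nat_lit 20282409603651742482640800972800) (nat_lit 0) (nat_lit 1)) (.cons (.kr (nat_lit 20361637770888301244410440450052) (nat_lit 18518802767259238912) (nat_lit 0) (nat_lit 3)) .nil)))) (.cons (.rf (nat_lit 390) (nat_lit 398339061417024)) (.cons (.br (nat_lit 2) (nat_lit 0) (.cons (.kr (nat_lit 79228167255077564536898715650) (nat_lit 20282409603651742482640800972800) (nat_lit 0) (nat_lit 1)) (.cons (.rf (nat_lit 386) (nat_lit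 183922525186)) (.cons (.kr (nat_lit 20361637770888301244410440450050) (nat_lit 18518802767259238400) (nat_lit 0) (nat_lit 1)) .nil)))) (.cons (.br (nat_lit 2) (nat_lit 0) (.cons (.kr (nat_lit 20361637770888301244410440450052) (nat_lit 18518802767259238912) (nat_lit 0) (nat_lit 3)) (.cons (.rf (nat_lit 386) (nat_lit 182849831938)) (.cons (.kr (nat_lit 20361637770888301244410440450050) (nat_lit 18518802767259238400) (nat_lit 0) (nat_lit 1)) .nil)))) .nil))))) (.cons (.kr (nat_lit 20282409603651670423947251286017) (nat_lit 18446744073709551872) (nat_lit 0) (nat_lit 2)) .nil))))),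
 (.br (nat_lit 1) (nat_lit 0) (.cons (.kr (nat_lit 1) (nat_lit 256) (nat_lit 0) (nat_lit 2)) (.cons (.rf (nat_lit 386) (nat_lit 312631035905)) (.cons (.kr (nat_lit 79228167255077564536898715650) (nat_lit 20282409603651742482640800842240) (nat_lit 0) (nat_lit 2)) (.cons (.br (nat_lit 2) (nat_lit 0) (.cons (.rf (nat_lit 421) (nat_lit 493858305440582042688)) (.cons (.rf (nat_lit 390) (nat_lit 398339061417024)) (.cons (.br (nat_lit 2) (nat_lit 0) (.cons (.kr (nat_lit 20361637770888301244410440450052) (nat_lit 18518802767259238912) (nat_lit 0) (nat_lit 3)) (.cons (.rf (nat_lit 386) (nat_lit 183922525186)) (.cons (.kr (nat_lit 20361637770888301244410440450050) (nat_lit 18518802767259238400) (nat_lit 0) (nat_lit 1)) .nil)))) (.cons (.br (nat_lit 2) (nat_lit 0) (.cons (.ev (nat_lit 309485009893402667074519041) (nat_lit 1)) (.cons (.rf (nat_lit 386) (nat_lit 182849831938)) (.cons (.kr (nat_lit 20361637770888301244410440450050) (nat_lit 18518802767259238400) (nat_lit 0) (nat_lit 1)) .nil)))) .nil)))))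 .nil))))),
 (.br (nat_lit 1) (nat_lit 0) (.cons (.rf (nat_lit 421) (nat_lit 493858305440582043680)) (.cons (.rf (nat_lit 422) (nat_lit 493858305440582043680)) (.cons (.rf (nat_lit 390) (nat_lit 398339061418016)) (.cons (.br (nat_lit 1) (nat_lit 0) (.cons (.rf (nat_lit 421) (nat_lit 493858305440582043680)) (.cons (.kr (nat_lit 79228167255077564536898715650) (nat_lit 20282409603651742482640800842240) (nat_lit 0) (nat_lit 2)) (.cons (.rf (nat_lit 386) (nat_lit 183922526209)) (.cons (.kr (nat_lit 20361637770888301244410440450050) (nat_lit 18518802767259107840) (nat_lit 0) (nat_lit 2)) .nil))))) (.cons (.br (nat_lit 1) (nat_lit 0) (.cons (.kr (nat_lit 20282409603651670423947251286017) (nat_lit 18446744073709551872) (nat_lit 0) (nat_lit 2)) (.cons (.rf (nat_lit 422) (nat_lit 493858305440582043680)) (.cons (.rf (nat_lit 386) (nat_lit 182849832961)) (.cons (.kr (nat_lit 20361637770888301244410440450050) (nat_lit 18518802767259107840) (nat_lit 0) (nat_lit 2)) .nil))))) .nil)))))),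
 (.br (nat_lit 11) (nat_lit 0) (.cons (.br (nat_lit 10) (nat_lit 0) (.cons (.zr (nat_lit 79537661691185131275499340034) (nat_lit 1208925964011292244246528) (nat_lit 5) (nat_lit 10)) .nil)) (.cons (.br (nat_lit 2) (nat_lit 0) (.cons (.zr (nat_lit 79537661691185131275499340034) (nat_lit 1208925964011292244246528) (nat_lit 5) (nat_lit 10)) .nil)) .nil))),
 (.br (nat_lit 2) (nat_lit 0) (.cons (.rf (nat_lit 424) (nat_lit 493858305440582043680)) (.cons (.br (nat_lit 6) (nat_lit 0) (.cons (.ev (nat_lit 80156626988462186275392192770) (nat_lit 2)) .nil)) .nil))),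
 (.br (nat_lit 1) (nat_lit 0) (.cons (.rf (nat_lit 386) (nat_lit 313703729153)) (.cons (.br (nat_lit 2) (nat_lit 0) (.cons (.rf (nat_lit 424) (nat_lit 493858305440582043680)) (.cons (.rf (nat_lit 425) (nat_lit 493858305440582043680)) (.cons (.br (nat_lit 2) (nat_lit 0) (.cons (.rf (nat_lit 424) (nat_lit 493858305440582043680)) (.cons (.rf (nat_lit 425) (nat_lit 493858305440582043680)) .nil))) .nil)))) (.cons (.br (nat_lit 2) (nat_lit 0) (.cons (.br (nat_lit 2) (nat_lit 0) (.cons (.ev (nat_lit 20678550421037953171570932450820) (nat_lit 3)) (.cons (.ev (nat_lit 79537652246452166635737317376) (nat_lit 1)) .nil))) (.cons (.br (nat_lit 2) (nat_lit 0) (.cons (.ev (nat_lit 20678550421037953171570932450820) (nat_lit 3)) (.cons (.ev (nat_lit 79537652246452166635737317376) (nat_lit 1)) .nil))) (.cons (.ev (nat_lit 79537652246452166635737317376) (nat_lit 1)) .nil)))) .nil))))]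

theorem c12 : chkAll C T R L12 (nat_lit 395) = true := by decide +kernel

theorem l12 : (nat_lit 395) + L12.length = (nat_lit 427) := by decide +kernel

/-- part of the certificates -/
def L13 : List Prf := [(.br (nat_lit 1) (nat_lit 0) (.cons (.rf (nat_lit 423) (nat_lit 493858305440582043680)) (.cons (.rf (nat_lit 426) (nat_lit 493858305440582043680)) (.cons (.br (nat_lit 1) (nat_lit 0) (.cons (.rf (nat_lit 423) (nat_lit 493858305440582043680)) (.cons (.rf (nat_lit 426) (nat_lit 493858305440582043680)) (.cons (.ev (nat_lit 4740885285636921098496) (nat_lit 1)) .nil)))) (.cons (.br (nat_lit 1) (nat_lit 0) (.cons (.kr (nat_lit 20282409603651670423947251286017) (nat_lit 18446744073709551872) (nat_lit 0) (nat_lit 2)) (.cons (.rf (nat_lit 426) (nat_lit 493858305440582043680)) (.cons (.ev (nat_lit 4740885285636921098496) (nat_lit 1)) .nil)))) .nil))))),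
 (.br (nat_lit 1) (nat_lit 0) (.cons (.kr (nat_lit 1) (nat_lit 256) (nat_lit 0) (nat_lit 2)) (.cons (.ev (nat_lit 309485028268089142451110144) (nat_lit 1)) .nil))),
 (.br (nat_lit 2) (nat_lit 0) (.cons (.rf (nat_lit 386) (nat_lit 183922525186)) (.cons (.rf (nat_lit 427) (nat_lit 493858305440582043680)) (.cons (.br (nat_lit 6) (nat_lit 0) (.cons (.br (nat_lit 1) (nat_lit 0) (.cons (.ev (nat_lit 20361637789870073517901139281412) (nat_lit 3)) (.cons (.br (nat_lit 4) (nat_lit 0) (.cons (.ev (nat_lit 309485028268371721234415616) (nat_lit 1)) .nil)) (.cons (.ev (nat_lit 20520094124269693425819685618180) (nat_lit 3)) .nil)))) (.cons (.br (nat_lit 11) (nat_lit 0) (.cons (.rf (nat_lit 135) (nat_lit 9597640544523257888)) (.cons (.ev (nat_lit 20362256769260806880027707047940) (nat_lit 3)) .nil))) (.cons (.ev (nat_lit 79228162514336677762086993921) (nat_lit 1)) (.cons (.br (nat_lit 4) (nat_lit 0) (.cons (.rf (nat_lit 428) (nat_lit 15433070910038444064)) (.cons (.ev (nat_lit 20679169400428686524901407195140)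 (nat_lit 3)) .nil))) .nil))))) .nil)))),
 (.br (nat_lit 2) (nat_lit 0) (.cons (.rf (nat_lit 390) (nat_lit 398339061417024)) (.cons (.rf (nat_lit 427) (nat_lit 493858305440582043680)) (.cons (.rf (nat_lit 429) (nat_lit 493858305440582043680)) (.cons (.br (nat_lit 2) (nat_lit 0) (.cons (.rf (nat_lit 386) (nat_lit 182849831938)) (.cons (.rf (nat_lit 427) (nat_lit 493858305440582043680)) (.cons (.rf (nat_lit 429) (nat_lit 493858305440582043680)) .nil)))) .nil))))),
 (.br (nat_lit 2) (nat_lit 0) (.cons (.rf (nat_lit 423) (nat_lit 493858305440582043680)) (.cons (.rf (nat_lit 427) (nat_lit 493858305440582043680)) (.cons (.rf (nat_lit 430) (nat_lit 493858305440582043680)) (.cons (.br (nat_lit 2) (nat_lit 0) (.cons (.kr (nat_lit 20361637770888301244410440450050) (nat_lit 18518802767259238400) (nat_lit 0) (nat_lit 1)) (.cons (.rf (nat_lit 427) (nat_lit 493858305440582043680)) (.cons (.rf (nat_lit 430) (nat_lit 493858305440582043680)) .nil)))) .nil))))),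
 (.br (nat_lit 2) (nat_lit 0) (.cons (.rf (nat_lit 423) (nat_lit 493858305440582043680)) (.cons (.rf (nat_lit 427) (nat_lit 493858305440582043680)) (.cons (.rf (nat_lit 430) (nat_lit 493858305440582043680)) (.cons (.rf (nat_lit 431) (nat_lit 493858305440582043680)) (.cons (.br (nat_lit 2) (nat_lit 0) (.cons (.rf (nat_lit 423) (nat_lit 493858305440582043680)) (.cons (.rf (nat_lit 427) (nat_lit 493858305440582043680)) (.cons (.rf (nat_lit 430) (nat_lit 493858305440582043680)) (.cons (.rf (nat_lit 431) (nat_lit 493858305440582043680)) .nil))))) .nil)))))),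
 (.br (nat_lit 2) (nat_lit 0) (.cons (.rf (nat_lit 386) (nat_lit 183922525186)) (.cons (.rf (nat_lit 432) (nat_lit 493858305440582042688)) (.cons (.br (nat_lit 3) (nat_lit 0) (.cons (.rf (nat_lit 432) (nat_lit 493858305440582043680)) (.cons (.ev (nat_lit 4722366764344638767104) (nat_lit 1)) (.cons (.br (nat_lit 1) (nat_lit 0) (.cons (.ev (nat_lit 79228162514336677762086993921) (nat_lit 1)) (.cons (.br (nat_lit 1) (nat_lit 0) (.cons (.ev (nat_lit 79228162514336677762086993921) (nat_lit 1)) .nil)) .nil))) (.cons (.br (nat_lit 1) (nat_lit 0) (.cons (.ev (nat_lit 20521951024957530833073368727558) (nat_lit 3)) (.cons (.br (nat_lit 1) (nat_lit 0) (.cons (.ev (nat_lit 20838863656051334149774218888198) (nat_lit 3)) .nil)) .nil))) .nil))))) .nil)))),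
 (.br (nat_lit 2) (nat_lit 0) (.cons (.rf (nat_lit 390) (nat_lit 398339061417024)) (.cons (.rf (nat_lit 432) (nat_lit 493858305440582042688)) (.cons (.rf (nat_lit 433) (nat_lit 493858305440582043680)) (.cons (.br (nat_lit 2) (nat_lit 0) (.cons (.rf (nat_lit 386) (nat_lit 182849831938)) (.cons (.rf (nat_lit 432) (nat_lit 493858305440582042688)) (.cons (.rf (nat_lit 433) (nat_lit 493858305440582043680)) .nil)))) .nil))))),
 (.br (nat_lit 2) (nat_lit 0) (.cons (.rf (nat_lit 423) (nat_lit 493858305440582043680)) (.cons (.rf (nat_lit 432) (nat_lit 493858305440582042688)) (.cons (.rf (nat_lit 434) (nat_lit 493858305440582043680)) (.cons (.br (nat_lit 2) (nat_lit 0) (.cons (.kr (nat_lit 20361637770888301244410440450050) (nat_lit 18518802767259238400) (nat_lit 0) (nat_lit 1)) (.cons (.ev (nat_lit 4740885285636921163776) (nat_lit 1)) (.cons (.rf (nat_lit 434) (nat_lit 493858305440582043680)) .nil)))) .nil))))),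
 (.br (nat_lit 2) (nat_lit 0) (.cons (.rf (nat_lit 423) (nat_lit 493858305440582043680)) (.cons (.rf (nat_lit 432) (nat_lit 493858305440582042688)) (.cons (.rf (nat_lit 434) (nat_lit 493858305440582043680)) (.cons (.rf (nat_lit 435) (nat_lit 493858305440582043680)) (.cons (.br (nat_lit 2) (nat_lit 0) (.cons (.rf (nat_lit 423) (nat_lit 493858305440582043680)) (.cons (.rf (nat_lit 432) (nat_lit 493858305440582042688)) (.cons (.rf (nat_lit 434) (nat_lit 493858305440582043680)) (.cons (.rf (nat_lit 435) (nat_lit 493858305440582043680)) .nil))))) .nil)))))),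
 (.br (nat_lit 3) (nat_lit 0) (.cons (.ev (nat_lit 20520094124269693425819685357060) (nat_lit 3)) (.cons (.ev (nat_lit 20838863656125410477947068874758) (nat_lit 3)) (.cons (.ev (nat_lit 79228162514336677762086993921) (nat_lit 1)) .nil)))),
 (.br (nat_lit 2) (nat_lit 0) (.cons (.kr (nat_lit 20361637770888301244410440450050) (nat_lit 18518802767259238400) (nat_lit 0) (nat_lit 1)) (.cons (.ev (nat_lit 4740885285636921163776) (nat_lit 1)) (.cons (.rf (nat_lit 436) (nat_lit 493858305440582042688)) (.cons (.br (nat_lit 1) (nat_lit 0) (.cons (.rf (nat_lit 432) (nat_lit 493858305440582043680)) (.cons (.rf (nat_lit 436) (nat_lit 493858305440582043680)) (.cons (.br (nat_lit 1) (nat_lit 0) (.cons (.rf (nat_lit 432) (nat_lit 493858305440582043680)) (.cons (.rf (nat_lit 436) (nat_lit 493858305440582043680)) (.cons (.rf (nat_lit 437) (nat_lit 493858305440582043680)) .nil)))) (.cons (.rf (nat_lit 437) (nat_lit 493858305440582042688)) .nil))))) .nil))))),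
 (.br (nat_lit 1) (nat_lit 0) (.cons (.rf (nat_lit 386) (nat_lit 183922526209)) (.cons (.rf (nat_lit 432) (nat_lit 493858305440582043680)) (.cons (.rf (nat_lit 436) (nat_lit 493858305440582043680)) (.cons (.br (nat_lit 2) (nat_lit 0) (.cons (.rf (nat_lit 432) (nat_lit 493858305440582042688)) (.cons (.rf (nat_lit 436) (nat_lit 493858305440582042688)) (.cons (.rf (nat_lit 438) (nat_lit 493858305440582042688)) (.cons (.br (nat_lit 2) (nat_lit 0) (.cons (.rf (nat_lit 432) (nat_lit 493858305440582042688)) (.cons (.rf (nat_lit 436) (nat_lit 493858305440582042688)) (.cons (.rf (nat_lit 438) (nat_lit 493858305440582042688)) (.cons (.rf (nat_lit 438) (nat_lit 493858305440582043680)) .nil))))) (.cons (.br (nat_lit 2) (nat_lit 0) (.cons (.rf (nat_lit 432) (nat_lit 493858305440582042688)) (.cons (.rf (nat_lit 436) (nat_lit 493858305440582042688)) (.cons (.rf (nat_lit 438) (nat_lit 493858305440582042688)) (.cons (.rf (nat_lit 438) (nat_lit 493858305440582043680)) .nil))))) .nil)))))) .nil))))),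
 (.br (nat_lit 1) (nat_lit 0) (.cons (.rf (nat_lit 390) (nat_lit 398339061418016)) (.cons (.rf (nat_lit 432) (nat_lit 493858305440582043680)) (.cons (.rf (nat_lit 436) (nat_lit 493858305440582043680)) (.cons (.rf (nat_lit 439) (nat_lit 493858305440582043680)) (.cons (.br (nat_lit 1) (nat_lit 0) (.cons (.rf (nat_lit 386) (nat_lit 182849832961)) (.cons (.rf (nat_lit 432) (nat_lit 493858305440582043680)) (.cons (.rf (nat_lit 436) (nat_lit 493858305440582043680)) (.cons (.rf (nat_lit 439) (nat_lit 493858305440582043680)) .nil))))) .nil)))))),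
 (.br (nat_lit 1) (nat_lit 0) (.cons (.rf (nat_lit 423) (nat_lit 493858305440582043680)) (.cons (.rf (nat_lit 432) (nat_lit 493858305440582043680)) (.cons (.rf (nat_lit 436) (nat_lit 493858305440582043680)) (.cons (.rf (nat_lit 440) (nat_lit 493858305440582043680)) (.cons (.br (nat_lit 1) (nat_lit 0) (.cons (.kr (nat_lit 20361637770888301244410440450050) (nat_lit 18518802767259107840) (nat_lit 0) (nat_lit 2)) (.cons (.ev (nat_lit 4740885285636921098496) (nat_lit 1)) (.cons (.rf (nat_lit 436) (nat_lit 493858305440582043680)) (.cons (.rf (nat_lit 440) (nat_lit 493858305440582043680)) .nil))))) .nil)))))),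
 (.br (nat_lit 7) (nat_lit 1) (.cons (.rf (nat_lit 12) (nat_lit 8789161)) (.cons (.br (nat_lit 12) (nat_lit 1) (.cons (.br (nat_lit 1) (nat_lit 0) (.cons (.rf (nat_lit 423) (nat_lit 493858305440582043680)) (.cons (.rf (nat_lit 432) (nat_lit 493858305440582043680)) (.cons (.rf (nat_lit 436) (nat_lit 493858305440582043680)) (.cons (.rf (nat_lit 440) (nat_lit 493858305440582043680)) (.cons (.rf (nat_lit 441) (nat_lit 493858305440582043680)) (.cons (.br (nat_lit 1) (nat_lit 0) (.cons (.rf (nat_lit 423) (nat_lit 493858305440582043680)) (.cons (.rf (nat_lit 432) (nat_lit 493858305440582043680)) (.cons (.rf (nat_lit 436) (nat_lit 493858305440582043680)) (.cons (.rf (nat_lit 440) (nat_lit 493858305440582043680)) (.cons (.rf (nat_lit 441) (nat_lit 493858305440582043680)) .nil)))))) .nil))))))) .nil)) .nil))),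
 (.br (nat_lit 8) (nat_lit 1) (.cons (.rf (nat_lit 12) (nat_lit 12820773)) (.cons (.br (nat_lit 5) (nat_lit 1) (.cons (.rf (nat_lit 2) (nat_lit 7461)) (.cons (.rf (nat_lit 442) (nat_lit 493858305440582043680)) (.cons (.rf (nat_lit 442) (nat_lit 458082835900657666080)) .nil)))) .nil))),
 (.br (nat_lit 8) (nat_lit 1) (.cons (.rf (nat_lit 156) (nat_lit 15071257415488646)) (.cons (.rf (nat_lit 443) (nat_lit 493858305440582043680)) (.cons (.rf (nat_lit 443) (nat_lit 458082835900657666080)) .nil)))),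
 (.br (nat_lit 1) (nat_lit 0) (.cons (.kr (nat_lit 1) (nat_lit 256) (nat_lit 0) (nat_lit 2)) (.cons (.rf (nat_lit 386) (nat_lit 313703729153)) (.cons (.kr (nat_lit 79228167236702878057227091970) (nat_lit 20282409603670117169120472465920) (nat_lit 0) (nat_lit 2)) (.cons (.br (nat_lit 2) (nat_lit 0) (.cons (.br (nat_lit 2) (nat_lit 0) (.cons (.rf (nat_lit 386) (nat_lit 312631034882)) (.cons (.kr (nat_lit 79228167255077564536898715650) (nat_lit 20282409603651742482640800972800) (nat_lit 0) (nat_lit 1)) (.cons (.ev (nat_lit 79537652246452166635737317376) (nat_lit 1)) .nil)))) (.cons (.rf (nat_lit 390) (nat_lit 398339061417024)) (.cons (.br (nat_lit 2) (nat_lit 0) (.cons (.kr (nat_lit 79228167255077564536898715650) (nat_lit 20282409603651742482640800972800) (nat_lit 0) (nat_lit 1)) (.cons (.rf (nat_lit 386) (nat_lit 183922525186)) (.cons (.kr (nat_lit 79228167255077564536898716160) (nat_lit 20282409603651742482640800972800) (nat_lit 1) (nat_lit 0)) .nil)))) (.cons (.rf (nat_lit 270) (nat_lit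 303377226529643890720)) .nil))))) .nil))))),
 (.br (nat_lit 1) (nat_lit 0) (.cons (.rf (nat_lit 445) (nat_lit 493858305440582043680)) (.cons (.rf (nat_lit 445) (nat_lit 493858304375429138464)) (.cons (.rf (nat_lit 390) (nat_lit 398339061418016)) (.cons (.br (nat_lit 1) (nat_lit 0) (.cons (.kr (nat_lit 79228167236702878057227091970) (nat_lit 20282409603670117169120472465920) (nat_lit 0) (nat_lit 2)) (.cons (.kr (nat_lit 79228167255077564536898715650) (nat_lit 20282409603651742482640800842240) (nat_lit 0) (nat_lit 2)) (.cons (.rf (nat_lit 386) (nat_lit 183922526209)) (.cons (.rf (nat_lit 420) (nat_lit 303366038168829003777)) .nil))))) (.cons (.br (nat_lit 1) (nat_lit 0) (.cons (.rf (nat_lit 445) (nat_lit 493858305440582043680)) (.cons (.rf (nat_lit 445) (nat_lit 493858304375429138464)) (.cons (.rf (nat_lit 386) (nat_lit 182849832961)) (.cons (.rf (nat_lit 420) (nat_lit 303366038168829003777)) .nil))))) .nil)))))),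
 (.br (nat_lit 11) (nat_lit 0) (.cons (.br (nat_lit 11) (nat_lit 0) (.cons (.ev (nat_lit 4740813509522154848513) (nat_lit 1)) (.cons (.kr (nat_lit 79228176681435843796517519362) (nat_lit 20283028573689759859257922028032) (nat_lit 0) (nat_lit 2)) .nil))) (.cons (.ev (nat_lit 4740813509522154848513) (nat_lit 1)) (.cons (.br (nat_lit 11) (nat_lit 0) (.cons (.kr (nat_lit 79228176681435843796517519362) (nat_lit 20283028573689759859257922028032) (nat_lit 0) (nat_lit 2)) (.cons (.ev (nat_lit 4740813509522154848513) (nat_lit 1)) .nil))) .nil)))),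
 (.br (nat_lit 1) (nat_lit 0) (.cons (.rf (nat_lit 386) (nat_lit 313703729153)) (.cons (.rf (nat_lit 447) (nat_lit 493858305440582043680)) (.cons (.br (nat_lit 6) (nat_lit 0) (.cons (.br (nat_lit 2) (nat_lit 0) (.cons (.rf (nat_lit 447) (nat_lit 493858304375429137472)) (.cons (.ev (nat_lit 79537652246452166635737317376) (nat_lit 1)) .nil))) (.cons (.ev (nat_lit 4740813509522154848513) (nat_lit 1)) (.cons (.kr (nat_lit 20362256736185577452777756426240) (nat_lit 4740885847487346114560) (nat_lit 5) (nat_lit 0)) .nil)))) .nil)))),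
 (.br (nat_lit 1) (nat_lit 0) (.cons (.kr (nat_lit 79228167236702878057227091970) (nat_lit 20282409603670117169120472465920) (nat_lit 0) (nat_lit 2)) (.cons (.rf (nat_lit 448) (nat_lit 493858305440582043680)) (.cons (.br (nat_lit 2) (nat_lit 0) (.cons (.rf (nat_lit 448) (nat_lit 493858304375429137472)) (.cons (.br (nat_lit 2) (nat_lit 0) (.cons (.rf (nat_lit 448) (nat_lit 493858304375429137472)) (.cons (.ev (nat_lit 79537652246452166635737317376) (nat_lit 1)) .nil))) (.cons (.ev (nat_lit 79537652246452166635737317376) (nat_lit 1)) .nil)))) .nil)))),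
 (.br (nat_lit 1) (nat_lit 0) (.cons (.rf (nat_lit 446) (nat_lit 493858305440582043680)) (.cons (.rf (nat_lit 448) (nat_lit 493858305440582043680)) (.cons (.rf (nat_lit 449) (nat_lit 493858305440582043680)) (.cons (.br (nat_lit 2) (nat_lit 0) (.cons (.rf (nat_lit 446) (nat_lit 493858305440582043680)) (.cons (.rf (nat_lit 448) (nat_lit 493858304375429137472)) (.cons (.rf (nat_lit 449) (nat_lit 493858304375429137472)) (.cons (.ev (nat_lit 79537652246452166635737317376) (nat_lit 1)) .nil))))) .nil))))),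
 (.br (nat_lit 2) (nat_lit 0) (.cons (.rf (nat_lit 386) (nat_lit 183922525186)) (.cons (.rf (nat_lit 450) (nat_lit 493858305440582043680)) (.cons (.br (nat_lit 11) (nat_lit 0) (.cons (.br (nat_lit 1) (nat_lit 0) (.cons (.br (nat_lit 6) (nat_lit 0) (.cons (.zr (nat_lit 216735732067205633) (nat_lit 310693972534447849630400512) (nat_lit 5) (nat_lit 3)) .nil)) (.cons (.br (nat_lit 4) (nat_lit 0) (.cons (.ev (nat_lit 4740813509522154848513) (nat_lit 1)) .nil)) (.cons (.br (nat_lit 4) (nat_lit 0) (.cons (.zr (nat_lit 216735732067205633) (nat_lit 310693972534447849630400512) (nat_lit 5) (nat_lit 3)) .nil)) .nil)))) (.cons (.ev (nat_lit 79228162532783140365114867713) (nat_lit 1)) (.cons (.kr (nat_lit 20362256736185577452777756426240) (nat_lit 4740885847487346114560) (nat_lit 5) (nat_lit 0)) (.cons (.br (nat_lit 4) (nat_lit 0) (.cons (.br (nat_lit 1) (nat_lit 0) (.cons (.ev (nat_lit 20361637789796286546021527454212) (nat_lit 3)) .nil)) (.cons (.ev (nat_lit 309485009893685241562857473) (nat_lit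 1)) .nil))) .nil))))) .nil)))),
 (.br (nat_lit 2) (nat_lit 0) (.cons (.rf (nat_lit 390) (nat_lit 398339061417024)) (.cons (.rf (nat_lit 450) (nat_lit 493858305440582043680)) (.cons (.rf (nat_lit 451) (nat_lit 493858305440582043680)) (.cons (.br (nat_lit 2) (nat_lit 0) (.cons (.rf (nat_lit 386) (nat_lit 182849831938)) (.cons (.rf (nat_lit 450) (nat_lit 493858305440582043680)) (.cons (.rf (nat_lit 451) (nat_lit 493858305440582043680)) .nil)))) .nil)))))]

theorem c13 : chkAll C T R L13 (nat_lit 427) = true := by decide +kernel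

theorem l13 : (nat_lit 427) + L13.length = (nat_lit 453) := by decide +kernel

/-- part of the certificates -/
def L14 : List Prf := [(.br (nat_lit 2) (nat_lit 0) (.cons (.rf (nat_lit 446) (nat_lit 493858305440582043680)) (.cons (.rf (nat_lit 450) (nat_lit 493858305440582043680)) (.cons (.rf (nat_lit 452) (nat_lit 493858305440582043680)) (.cons (.br (nat_lit 2) (nat_lit 0) (.cons (.rf (nat_lit 420) (nat_lit 303366038168829002754)) (.cons (.rf (nat_lit 450) (nat_lit 493858305440582043680)) (.cons (.rf (nat_lit 452) (nat_lit 493858305440582043680)) .nil)))) .nil))))),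
 (.br (nat_lit 2) (nat_lit 0) (.cons (.rf (nat_lit 446) (nat_lit 493858305440582043680)) (.cons (.rf (nat_lit 450) (nat_lit 493858305440582043680)) (.cons (.rf (nat_lit 452) (nat_lit 493858305440582043680)) (.cons (.rf (nat_lit 453) (nat_lit 493858305440582043680)) (.cons (.br (nat_lit 2) (nat_lit 0) (.cons (.rf (nat_lit 446) (nat_lit 493858305440582043680)) (.cons (.rf (nat_lit 450) (nat_lit 493858305440582043680)) (.cons (.rf (nat_lit 452) (nat_lit 493858305440582043680)) (.cons (.rf (nat_lit 453) (nat_lit 493858305440582043680)) .nil))))) .nil)))))),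
 (.br (nat_lit 2) (nat_lit 0) (.cons (.rf (nat_lit 454) (nat_lit 493858305440582042688)) (.cons (.rf (nat_lit 454) (nat_lit 493858304375429137472)) (.cons (.br (nat_lit 3) (nat_lit 0) (.cons (.ev (nat_lit 79537652264970968303484862720) (nat_lit 1)) .nil)) .nil)))),
 (.br (nat_lit 2) (nat_lit 0) (.cons (.rf (nat_lit 454) (nat_lit 493858305440582042688)) (.cons (.rf (nat_lit 454) (nat_lit 493858304375429137472)) (.cons (.rf (nat_lit 455) (nat_lit 493858305440582043680)) (.cons (.br (nat_lit 2) (nat_lit 0) (.cons (.rf (nat_lit 454) (nat_lit 493858305440582042688)) (.cons (.rf (nat_lit 454) (nat_lit 493858304375429137472)) (.cons (.rf (nat_lit 455) (nat_lit 493858305440582043680)) .nil)))) .nil))))),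
 (.br (nat_lit 2) (nat_lit 0) (.cons (.rf (nat_lit 454) (nat_lit 493858305440582042688)) (.cons (.rf (nat_lit 454) (nat_lit 493858304375429137472)) (.cons (.rf (nat_lit 456) (nat_lit 493858305440582043680)) (.cons (.br (nat_lit 2) (nat_lit 0) (.cons (.rf (nat_lit 454) (nat_lit 493858305440582042688)) (.cons (.rf (nat_lit 454) (nat_lit 493858304375429137472)) (.cons (.rf (nat_lit 456) (nat_lit 493858305440582043680)) .nil)))) .nil))))),
 (.br (nat_lit 1) (nat_lit 0) (.cons (.rf (nat_lit 386) (nat_lit 183922526209)) (.cons (.rf (nat_lit 454) (nat_lit 493858305440582043680)) (.cons (.rf (nat_lit 454) (nat_lit 493858304375429138464)) (.cons (.br (nat_lit 2) (nat_lit 0) (.cons (.rf (nat_lit 454) (nat_lit 493858305440582042688)) (.cons (.rf (nat_lit 454) (nat_lit 493858304375429137472)) (.cons (.rf (nat_lit 456) (nat_lit 493858305440582043680)) (.cons (.rf (nat_lit 457) (nat_lit 493858305440582043680)) (.cons (.br (nat_lit 2) (nat_lit 0) (.cons (.rf (nat_lit 454) (nat_lit 493858305440582042688))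 (.cons (.rf (nat_lit 454) (nat_lit 493858304375429137472)) (.cons (.rf (nat_lit 456) (nat_lit 493858305440582043680)) (.cons (.rf (nat_lit 457) (nat_lit 493858305440582043680)) .nil))))) .nil)))))) .nil))))),
 (.br (nat_lit 1) (nat_lit 0) (.cons (.rf (nat_lit 390) (nat_lit 398339061418016)) (.cons (.rf (nat_lit 454) (nat_lit 493858305440582043680)) (.cons (.rf (nat_lit 454) (nat_lit 493858304375429138464)) (.cons (.rf (nat_lit 458) (nat_lit 493858305440582043680)) (.cons (.br (nat_lit 1) (nat_lit 0) (.cons (.rf (nat_lit 386) (nat_lit 182849832961)) (.cons (.rf (nat_lit 454) (nat_lit 493858305440582043680)) (.cons (.rf (nat_lit 454) (nat_lit 493858304375429138464)) (.cons (.rf (nat_lit 458) (nat_lit 493858305440582043680)) .nil))))) .nil)))))),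
 (.br (nat_lit 1) (nat_lit 0) (.cons (.rf (nat_lit 446) (nat_lit 493858305440582043680)) (.cons (.rf (nat_lit 454) (nat_lit 493858305440582043680)) (.cons (.rf (nat_lit 454) (nat_lit 493858304375429138464)) (.cons (.rf (nat_lit 459) (nat_lit 493858305440582043680)) (.cons (.br (nat_lit 1) (nat_lit 0) (.cons (.rf (nat_lit 420) (nat_lit 303366038168829003777)) (.cons (.rf (nat_lit 454) (nat_lit 493858305440582043680)) (.cons (.rf (nat_lit 454) (nat_lit 493858304375429138464)) (.cons (.rf (nat_lit 459) (nat_lit 493858305440582043680)) .nil))))) .nil)))))),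
 (.br (nat_lit 9) (nat_lit 1) (.cons (.br (nat_lit 1) (nat_lit 0) (.cons (.rf (nat_lit 446) (nat_lit 493858305440582043680)) (.cons (.rf (nat_lit 454) (nat_lit 493858305440582043680)) (.cons (.rf (nat_lit 454) (nat_lit 493858304375429138464)) (.cons (.rf (nat_lit 459) (nat_lit 493858305440582043680)) (.cons (.rf (nat_lit 460) (nat_lit 493858305440582043680)) (.cons (.br (nat_lit 1) (nat_lit 0) (.cons (.rf (nat_lit 446) (nat_lit 493858305440582043680)) (.cons (.rf (nat_lit 454) (nat_lit 493858305440582043680)) (.cons (.rf (nat_lit 454) (nat_lit 493858304375429138464)) (.cons (.rf (nat_lit 459) (nat_lit 493858305440582043680)) (.cons (.rf (nat_lit 460) (nat_lit 493858305440582043680)) .nil)))))) .nil))))))) .nil)),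
 (.br (nat_lit 8) (nat_lit 1) (.cons (.rf (nat_lit 156) (nat_lit 15071257415488646)) (.cons (.rf (nat_lit 444) (nat_lit 493858304375429138464)) (.cons (.br (nat_lit 5) (nat_lit 1) (.cons (.rf (nat_lit 343) (nat_lit 15071291741705318)) (.cons (.rf (nat_lit 461) (nat_lit 493858305440582043680)) (.cons (.rf (nat_lit 461) (nat_lit 458082835900657666080)) .nil)))) .nil)))),
 (.br (nat_lit 7) (nat_lit 1) (.cons (.rf (nat_lit 156) (nat_lit 15071291741705318)) (.cons (.rf (nat_lit 444) (nat_lit 493858305440582043680)) (.cons (.br (nat_lit 8) (nat_lit 1) (.cons (.rf (nat_lit 156) (nat_lit 15071257415488646)) (.cons (.rf (nat_lit 444) (nat_lit 493858304375429138464)) (.cons (.rf (nat_lit 462) (nat_lit 493858305440582043680)) (.cons (.rf (nat_lit 462) (nat_lit 458082835900657666080)) .nil))))) .nil)))),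
 (.br (nat_lit 7) (nat_lit 1) (.cons (.rf (nat_lit 156) (nat_lit 15071291741705318)) (.cons (.rf (nat_lit 444) (nat_lit 493858305440582043680)) (.cons (.rf (nat_lit 463) (nat_lit 493858305440582043680)) (.cons (.rf (nat_lit 463) (nat_lit 458082835900657666080)) .nil))))),
 (.br (nat_lit 8) (nat_lit 1) (.cons (.rf (nat_lit 420) (nat_lit 493858304375429138464)) (.cons (.rf (nat_lit 464) (nat_lit 493858305440582043680)) (.cons (.br (nat_lit 8) (nat_lit 1) (.cons (.rf (nat_lit 420) (nat_lit 493858304375429138464)) (.cons (.rf (nat_lit 464) (nat_lit 493858305440582043680)) .nil))) .nil)))),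
 (.br (nat_lit 8) (nat_lit 1) (.cons (.rf (nat_lit 420) (nat_lit 493858304375429138464)) (.cons (.rf (nat_lit 464) (nat_lit 493858305440582043680)) (.cons (.rf (nat_lit 465) (nat_lit 493858305440582043680)) (.cons (.rf (nat_lit 465) (nat_lit 458082835900657666080)) .nil))))),
 (.br (nat_lit 7) (nat_lit 1) (.cons (.rf (nat_lit 420) (nat_lit 493858305440582043680)) (.cons (.rf (nat_lit 464) (nat_lit 493858305440582043680)) (.cons (.rf (nat_lit 466) (nat_lit 493858305440582043680)) (.cons (.br (nat_lit 7) (nat_lit 1) (.cons (.rf (nat_lit 420) (nat_lit 493858305440582043680)) (.cons (.rf (nat_lit 464) (nat_lit 493858305440582043680)) (.cons (.rf (nat_lit 466) (nat_lit 493858305440582043680)) .nil)))) .nil))))),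
 (.br (nat_lit 7) (nat_lit 1) (.cons (.rf (nat_lit 2) (nat_lit 7461)) (.cons (.br (nat_lit 9) (nat_lit 0) (.cons (.ev (nat_lit 72339073326383361) (nat_lit 1)) (.cons (.rf (nat_lit 25) (nat_lit 6782289952)) .nil))) .nil))),
 (.br (nat_lit 7) (nat_lit 1) (.cons (.rf (nat_lit 468) (nat_lit 9043225708576)) (.cons (.rf (nat_lit 468) (nat_lit 10140591949825)) (.cons (.rf (nat_lit 2) (nat_lit 7493)) (.cons (.br (nat_lit 7) (nat_lit 1) (.cons (.rf (nat_lit 468) (nat_lit 9043225708576)) (.cons (.rf (nat_lit 468) (nat_lit 10140591949825)) (.cons (.rf (nat_lit 2) (nat_lit 7525)) .nil)))) .nil))))),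
 (.br (nat_lit 8) (nat_lit 0) (.cons (.br (nat_lit 8) (nat_lit 0) .nil) .nil)),
 (.br (nat_lit 7) (nat_lit 1) (.cons (.rf (nat_lit 470) (nat_lit 9043225708576)) (.cons (.br (nat_lit 7) (nat_lit 1) (.cons (.rf (nat_lit 470) (nat_lit 10142737336352)) .nil)) .nil))),
 (.br (nat_lit 2) (nat_lit 0) (.cons (.br (nat_lit 5) (nat_lit 1) (.cons (.rf (nat_lit 469) (nat_lit 325702574508064)) (.cons (.rf (nat_lit 469) (nat_lit 324637421601856)) (.cons (.rf (nat_lit 469) (nat_lit 289485261832257)) (.cons (.br (nat_lit 10) (nat_lit 0) (.cons (.rf (nat_lit 471) (nat_lit 387896775811)) .nil)) (.cons (.br (nat_lit 10) (nat_lit 0) (.cons (.rf (nat_lit 471) (nat_lit 387896775811)) .nil)) .nil)))))) (.cons (.rf (nat_lit 471) (nat_lit 353537037443)) .nil))),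
 (.br (nat_lit 1) (nat_lit 0) (.cons (.kr (nat_lit 1) (nat_lit 256) (nat_lit 0) (nat_lit 2)) (.cons (.br (nat_lit 2) (nat_lit 0) (.cons (.rf (nat_lit 472) (nat_lit 325702574508064)) (.cons (.rf (nat_lit 472) (nat_lit 291615568660481)) (.cons (.rf (nat_lit 471) (nat_lit 353537037443)) .nil)))) (.cons (.rf (nat_lit 471) (nat_lit 353537037443)) .nil)))),
 (.br (nat_lit 1) (nat_lit 0) (.cons (.rf (nat_lit 473) (nat_lit 325702574508064)) (.cons (.rf (nat_lit 473) (nat_lit 324637421602848)) (.cons (.br (nat_lit 1) (nat_lit 0) (.cons (.rf (nat_lit 473) (nat_lit 325702574508064)) (.cons (.rf (nat_lit 473) (nat_lit 324637421602848)) (.cons (.rf (nat_lit 471) (nat_lit 353537037443)) .nil)))) (.cons (.rf (nat_lit 471) (nat_lit 353537037443)) .nil))))),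
 (.br (nat_lit 1) (nat_lit 0) (.cons (.rf (nat_lit 474) (nat_lit 325702574508064)) (.cons (.br (nat_lit 1) (nat_lit 0) (.cons (.rf (nat_lit 474) (nat_lit 325702574508064)) (.cons (.rf (nat_lit 471) (nat_lit 353537037443)) .nil))) (.cons (.rf (nat_lit 471) (nat_lit 353537037443)) .nil)))),
 (.br (nat_lit 2) (nat_lit 0) (.cons (.rf (nat_lit 474) (nat_lit 325702574508064)) (.cons (.rf (nat_lit 475) (nat_lit 325702574508064)) (.cons (.br (nat_lit 2) (nat_lit 0) (.cons (.rf (nat_lit 474) (nat_lit 325702574508064)) (.cons (.rf (nat_lit 475) (nat_lit 325702574508064)) (.cons (.rf (nat_lit 471) (nat_lit 353537037443)) .nil)))) (.cons (.rf (nat_lit 471) (nat_lit 353537037443)) .nil))))),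
 (.br (nat_lit 5) (nat_lit 0) (.cons (.br (nat_lit 3) (nat_lit 1) (.cons (.rf (nat_lit 386) (nat_lit 247132686368)) (.cons (.br (nat_lit 4) (nat_lit 1) (.cons (.rf (nat_lit 386) (nat_lit 281491408928)) (.cons (.br (nat_lit 6) (nat_lit 1) (.cons (.br (nat_lit 9) (nat_lit 0) (.cons (.br (nat_lit 9) (nat_lit 0) (.cons (.br (nat_lit 10) (nat_lit 1) (.cons (.br (nat_lit 11) (nat_lit 1) (.cons (.br (nat_lit 7) (nat_lit 1) (.cons (.rf (nat_lit 420) (nat_lit 493858305440582043680)) (.cons (.rf (nat_lit 464) (nat_lit 493858305440582043680)) (.cons (.rf (nat_lit 466) (nat_lit 493858305440582043680)) (.cons (.rf (nat_lit 467) (nat_lit 493858305440582043680)) (.cons (.rf (nat_lit 467) (nat_lit 458082835900657666080)) .nil)))))) .nil)) .nil)) .nil)) .nil)) (.cons (.br (nat_lit 1) (nat_lit 0) (.cons (.rf (nat_lit 474) (nat_lit 325702574508064)) (.cons (.rf (nat_lit 476) (nat_lit 325702574508064)) (.cons (.rf (nat_lit 476) (nat_lit 324637421602848)) (.cons (.br (nat_lit 1) (nat_lit 0) (.cons (.rf (nat_lit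 474) (nat_lit 325702574508064)) (.cons (.rf (nat_lit 476) (nat_lit 325702574508064)) (.cons (.rf (nat_lit 476) (nat_lit 324637421602848)) (.cons (.rf (nat_lit 471) (nat_lit 353537037443)) .nil))))) (.cons (.rf (nat_lit 471) (nat_lit 353537037443)) .nil)))))) .nil))) .nil))) .nil))) .nil)),
 (.br (nat_lit 1) (nat_lit 0) (.cons (.kr (nat_lit 1) (nat_lit 256) (nat_lit 0) (nat_lit 2)) (.cons (.rf (nat_lit 477) (nat_lit 174163969)) (.cons (.rf (nat_lit 477) (nat_lit 175212545)) (.cons (.kr (nat_lit 79537647524085683761780359170) (nat_lit 1213666632841572529472000) (nat_lit 0) (nat_lit 2)) .nil))))),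
 (.br (nat_lit 1) (nat_lit 0) (.cons (.kr (nat_lit 1) (nat_lit 256) (nat_lit 0) (nat_lit 2)) (.cons (.rf (nat_lit 477) (nat_lit 240257025)) (.cons (.rf (nat_lit 477) (nat_lit 241305601)) (.cons (.kr (nat_lit 1208925819614629174706177) (nat_lit 18446744073709551872) (nat_lit 0) (nat_lit 2)) .nil))))),
 (.br (nat_lit 4) (nat_lit 0) (.cons (.ev (nat_lit 310693954160043944430272768) (nat_lit 1)) .nil)),
 (.br (nat_lit 2) (nat_lit 0) (.cons (.rf (nat_lit 477) (nat_lit 175211522)) (.cons (.rf (nat_lit 477) (nat_lit 275907586)) (.cons (.rf (nat_lit 477) (nat_lit 175309826)) (.cons (.br (nat_lit 3) (nat_lit 0) (.cons (.br (nat_lit 6) (nat_lit 0) (.cons (.ev (nat_lit 1213666705181745350705153) (nat_lit 1)) .nil)) (.cons (.rf (nat_lit 480) (nat_lit 493858305440582043680)) (.cons (.rf (nat_lit 480) (nat_lit 493858305407296046144)) .nil)))) .nil))))),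
 (.br (nat_lit 1) (nat_lit 0) (.cons (.rf (nat_lit 477) (nat_lit 174163969)) (.cons (.rf (nat_lit 477) (nat_lit 274860033)) (.cons (.rf (nat_lit 477) (nat_lit 175310849)) (.cons (.br (nat_lit 2) (nat_lit 0) (.cons (.rf (nat_lit 478) (nat_lit 493858305440582042688)) (.cons (.rf (nat_lit 479) (nat_lit 15433072045017105472)) (.cons (.rf (nat_lit 479) (nat_lit 3901607398093520961)) (.cons (.rf (nat_lit 481) (nat_lit 493858305440582043680)) (.cons (.br (nat_lit 2) (nat_lit 0) (.cons (.kr (nat_lit 79537647524085683761780359170) (nat_lit 1213666632841572529602560) (nat_lit 0) (nat_lit 1)) (.cons (.kr (nat_lit 309485009821345068724781057) (nat_lit 4722366482869645279232) (nat_lit 0) (nat_lit 1)) (.cons (.kr (nat_lit 256) (nat_lit 65536) (nat_lit 1) (nat_lit 0)) (.cons (.rf (nat_lit 481) (nat_lit 493858305440582043680)) .nil))))) .nil)))))) .nil))))),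
 (.br (nat_lit 1) (nat_lit 0) (.cons (.rf (nat_lit 478) (nat_lit 493858305440582043680)) (.cons (.rf (nat_lit 479) (nat_lit 15433072045017106464)) (.cons (.rf (nat_lit 482) (nat_lit 493858305440582043680)) (.cons (.rf (nat_lit 482) (nat_lit 493858305407296047136)) (.cons (.br (nat_lit 1) (nat_lit 0) (.cons (.kr (nat_lit 79537647524085683761780359170) (nat_lit 1213666632841572529472000) (nat_lit 0) (nat_lit 2)) (.cons (.kr (nat_lit 309485009821345068724781057) (nat_lit 4722366482869645213952) (nat_lit 0) (nat_lit 2)) (.cons (.rf (nat_lit 482) (nat_lit 493858305440582043680)) (.cons (.rf (nat_lit 482) (nat_lit 493858305407296047136)) .nil))))) .nil)))))),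
 (.br (nat_lit 1) (nat_lit 0) (.cons (.rf (nat_lit 477) (nat_lit 174163969)) (.cons (.br (nat_lit 6) (nat_lit 0) (.cons (.br (nat_lit 13) (nat_lit 0) (.cons (.ev (nat_lit 79538880080185024178070880772) (nat_lit 3)) (.cons (.ev (nat_lit 79546143190949613598800872966) (nat_lit 3)) .nil))) (.cons (.ev (nat_lit 282578783305729) (nat_lit 1)) (.cons (.br (nat_lit 2) (nat_lit 0) (.cons (.ev (nat_lit 79546143190949613598800872966) (nat_lit 3)) (.cons (.br (nat_lit 2) (nat_lit 0) (.cons (.ev (nat_lit 1242000976139868680159747) (nat_lit 3)) .nil)) .nil))) .nil)))) (.cons (.br (nat_lit 7) (nat_lit 0) (.cons (.br (nat_lit 7) (nat_lit 0) (.cons (.ev (nat_lit 282578783305729) (nat_lit 1)) (.cons (.kr (nat_lit 237993972552614361147891515394) (nat_lit 1223111509922499895755264) (nat_lit 0) (nat_lit 2)) .nil))) (.cons (.ev (nat_lit 282578783305729) (nat_lit 1)) (.cons (.br (nat_lit 7) (nat_lit 0) (.cons (.kr (nat_lit 237993972552614361147891515394) (nat_lit 1223111509922499895755264) (nat_lit 0) (nat_lit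 2)) (.cons (.ev (nat_lit 282578783305729) (nat_lit 1)) .nil))) .nil)))) .nil)))),
 (.br (nat_lit 1) (nat_lit 0) (.cons (.rf (nat_lit 479) (nat_lit 15433072045017105472)) (.cons (.rf (nat_lit 484) (nat_lit 493858305440582043680)) (.cons (.rf (nat_lit 484) (nat_lit 493858305407296047136)) (.cons (.br (nat_lit 1) (nat_lit 0) (.cons (.kr (nat_lit 79537647524085683761780359170) (nat_lit 1213666632841572529472000) (nat_lit 0) (nat_lit 2)) (.cons (.rf (nat_lit 484) (nat_lit 493858305440582043680)) (.cons (.rf (nat_lit 484) (nat_lit 493858305407296047136)) .nil)))) .nil))))),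
 (.br (nat_lit 2) (nat_lit 0) (.cons (.rf (nat_lit 477) (nat_lit 175309826)) (.cons (.rf (nat_lit 485) (nat_lit 493858305440582043680)) (.cons (.br (nat_lit 4) (nat_lit 0) (.cons (.br (nat_lit 1) (nat_lit 0) (.cons (.ev (nat_lit 80776801230004472974388889092) (nat_lit 3)) (.cons (.ev (nat_lit 80776801230148025212511323652) (nat_lit 3)) (.cons (.ev (nat_lit 310693954087704875415634176) (nat_lit 1)) .nil)))) (.cons (.ev (nat_lit 309489732188110517153366016) (nat_lit 1)) (.cons (.ev (nat_lit 309489732259886636214583296) (nat_lit 1)) (.cons (.br (nat_lit 6) (nat_lit 0) (.cons (.br (nat_lit 1) (nat_lit 0) (.cons (.ev (nat_lit 1213666632842676336132353) (nat_lit 1)) .nil)) (.cons (.kr (nat_lit 281474976710656) (nat_lit 72057594037927936) (nat_lit 6) (nat_lit 0)) .nil))) .nil))))) .nil))))]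

theorem c14 : chkAll C T R L14 (nat_lit 453) = true := by decide +kernel

theorem l14 : (nat_lit 453) + L14.length = (nat_lit 487) := by decide +kernel

/-- part of the certificates -/
def L15 : List Prf := [(.br (nat_lit 2) (nat_lit 0) (.cons (.rf (nat_lit 483) (nat_lit 493858305440582043680)) (.cons (.rf (nat_lit 485) (nat_lit 493858305440582043680)) (.cons (.rf (nat_lit 486) (nat_lit 493858305440582043680)) (.cons (.br (nat_lit 2) (nat_lit 0) (.cons (.rf (nat_lit 483) (nat_lit 493858305440582043680)) (.cons (.rf (nat_lit 485) (nat_lit 493858305440582043680)) (.cons (.rf (nat_lit 486) (nat_lit 493858305440582043680)) .nil)))) .nil))))),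
 (.br (nat_lit 2) (nat_lit 0) (.cons (.rf (nat_lit 483) (nat_lit 493858305440582043680)) (.cons (.rf (nat_lit 485) (nat_lit 493858305440582043680)) (.cons (.rf (nat_lit 487) (nat_lit 493858305440582043680)) (.cons (.rf (nat_lit 487) (nat_lit 493858305407296047136)) (.cons (.br (nat_lit 2) (nat_lit 0) (.cons (.rf (nat_lit 483) (nat_lit 493858305440582043680)) (.cons (.rf (nat_lit 485) (nat_lit 493858305440582043680)) (.cons (.rf (nat_lit 487) (nat_lit 493858305440582043680)) (.cons (.rf (nat_lit 487) (nat_lit 493858305407296047136)) .nil))))) .nil)))))),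
 (.br (nat_lit 1) (nat_lit 0) (.cons (.ev (nat_lit 80776801230004472974388889092) (nat_lit 3)) (.cons (.ev (nat_lit 1213666705181745350705408) (nat_lit 1)) (.cons (.ev (nat_lit 81395799583846060329709733380) (nat_lit 3)) .nil)))),
 (.br (nat_lit 2) (nat_lit 0) (.cons (.rf (nat_lit 477) (nat_lit 175309826)) (.cons (.rf (nat_lit 488) (nat_lit 493858305440582042688)) (.cons (.br (nat_lit 1) (nat_lit 0) (.cons (.rf (nat_lit 488) (nat_lit 493858305440582043680)) (.cons (.rf (nat_lit 489) (nat_lit 493858305440582043680)) (.cons (.rf (nat_lit 489) (nat_lit 493858305407296047136)) (.cons (.br (nat_lit 1) (nat_lit 0) (.cons (.ev (nat_lit 310693954087704875415634176) (nat_lit 1)) (.cons (.ev (nat_lit 81395799583846060329709733380) (nat_lit 3)) (.cons (.ev (nat_lit 81395799583989612567832167940) (nat_lit 3)) .nil)))) .nil))))) .nil)))),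
 (.br (nat_lit 2) (nat_lit 0) (.cons (.rf (nat_lit 479) (nat_lit 15433072045017106464)) (.cons (.rf (nat_lit 488) (nat_lit 493858305440582042688)) (.cons (.rf (nat_lit 490) (nat_lit 493858305440582043680)) (.cons (.br (nat_lit 2) (nat_lit 0) (.cons (.rf (nat_lit 479) (nat_lit 15433072045017106464)) (.cons (.rf (nat_lit 488) (nat_lit 493858305440582042688)) (.cons (.rf (nat_lit 490) (nat_lit 493858305440582043680)) .nil)))) .nil))))),
 (.br (nat_lit 2) (nat_lit 0) (.cons (.rf (nat_lit 479) (nat_lit 15433072045017106464)) (.cons (.rf (nat_lit 488) (nat_lit 493858305440582042688)) (.cons (.rf (nat_lit 491) (nat_lit 493858305440582043680)) (.cons (.rf (nat_lit 491) (nat_lit 493858305407296047136)) (.cons (.br (nat_lit 2) (nat_lit 0) (.cons (.rf (nat_lit 479) (nat_lit 15433072045017106464)) (.cons (.rf (nat_lit 488) (nat_lit 493858305440582042688)) (.cons (.rf (nat_lit 491) (nat_lit 493858305440582043680)) (.cons (.rf (nat_lit 491) (nat_lit 493858305407296047136)) .nil))))) .nil)))))),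
 (.br (nat_lit 2) (nat_lit 0) (.cons (.br (nat_lit 2) (nat_lit 0) (.cons (.ev (nat_lit 1213666632842676336132353) (nat_lit 1)) .nil)) (.cons (.rf (nat_lit 140) (nat_lit 13164346417046718496)) .nil))),
 (.br (nat_lit 2) (nat_lit 0) (.cons (.rf (nat_lit 488) (nat_lit 493858305440582042688)) (.cons (.br (nat_lit 2) (nat_lit 0) (.cons (.ev (nat_lit 1213666632842676336132353) (nat_lit 1)) .nil)) .nil))),
 (.br (nat_lit 1) (nat_lit 0) (.cons (.rf (nat_lit 477) (nat_lit 175310849)) (.cons (.rf (nat_lit 488) (nat_lit 493858305440582043680)) (.cons (.rf (nat_lit 492) (nat_lit 493858305440582043680)) (.cons (.br (nat_lit 4) (nat_lit 0) (.cons (.rf (nat_lit 492) (nat_lit 493858305440582042688)) (.cons (.br (nat_lit 6) (nat_lit 0) (.cons (.rf (nat_lit 493) (nat_lit 493858305440582043680)) (.cons (.kr (nat_lit 281474976710656) (nat_lit 72057594037927936) (nat_lit 6) (nat_lit 0)) (.cons (.br (nat_lit 2) (nat_lit 0) (.cons (.rf (nat_lit 493) (nat_lit 493858305407296047136)) .nil)) .nil)))) (.cons (.ev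 (nat_lit 309489732188110517153300736) (nat_lit 1)) (.cons (.ev (nat_lit 309489732259886636214518016) (nat_lit 1)) (.cons (.br (nat_lit 2) (nat_lit 0) (.cons (.rf (nat_lit 488) (nat_lit 493858305440582042688)) (.cons (.rf (nat_lit 494) (nat_lit 493858305440582043680)) (.cons (.rf (nat_lit 494) (nat_lit 493858305407296047136)) .nil)))) .nil)))))) .nil))))),
 (.br (nat_lit 1) (nat_lit 0) (.cons (.rf (nat_lit 483) (nat_lit 493858305440582043680)) (.cons (.rf (nat_lit 488) (nat_lit 493858305440582043680)) (.cons (.rf (nat_lit 492) (nat_lit 493858305440582043680)) (.cons (.rf (nat_lit 495) (nat_lit 493858305440582043680)) (.cons (.br (nat_lit 1) (nat_lit 0) (.cons (.rf (nat_lit 483) (nat_lit 493858305440582043680)) (.cons (.rf (nat_lit 488) (nat_lit 493858305440582043680)) (.cons (.rf (nat_lit 492) (nat_lit 493858305440582043680)) (.cons (.rf (nat_lit 495) (nat_lit 493858305440582043680)) .nil))))) .nil)))))),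
 (.br (nat_lit 9) (nat_lit 1) (.cons (.br (nat_lit 11) (nat_lit 1) (.cons (.br (nat_lit 1) (nat_lit 0) (.cons (.rf (nat_lit 483) (nat_lit 493858305440582043680)) (.cons (.rf (nat_lit 488) (nat_lit 493858305440582043680)) (.cons (.rf (nat_lit 492) (nat_lit 493858305440582043680)) (.cons (.rf (nat_lit 496) (nat_lit 493858305440582043680)) (.cons (.rf (nat_lit 496) (nat_lit 493858305407296047136)) (.cons (.br (nat_lit 1) (nat_lit 0) (.cons (.rf (nat_lit 483) (nat_lit 493858305440582043680)) (.cons (.rf (nat_lit 488) (nat_lit 493858305440582043680)) (.cons (.rf (nat_lit 492) (nat_lit 493858305440582043680)) (.cons (.rf (nat_lit 496) (nat_lit 493858305440582043680)) (.cons (.rf (nat_lit 496) (nat_lit 493858305407296047136)) .nil)))))) .nil))))))) .nil)) .nil)),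
 (.br (nat_lit 10) (nat_lit 1) (.cons (.rf (nat_lit 2) (nat_lit 10501)) (.cons (.br (nat_lit 8) (nat_lit 1) (.cons (.rf (nat_lit 12) (nat_lit 11839749)) (.cons (.rf (nat_lit 12) (nat_lit 9808133)) (.cons (.br (nat_lit 11) (nat_lit 0) (.cons (.br (nat_lit 12) (nat_lit 0) (.cons (.br (nat_lit 9) (nat_lit 1) (.cons (.rf (nat_lit 497) (nat_lit 493858305440582043680)) (.cons (.br (nat_lit 9) (nat_lit 1) (.cons (.rf (nat_lit 497) (nat_lit 493858305440582043680)) .nil)) .nil))) .nil)) .nil)) .nil)))) .nil))),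
 (.br (nat_lit 10) (nat_lit 1) (.cons (.rf (nat_lit 2) (nat_lit 10501)) (.cons (.rf (nat_lit 498) (nat_lit 11584701642934304)) (.cons (.br (nat_lit 10) (nat_lit 1) (.cons (.rf (nat_lit 2) (nat_lit 10501)) (.cons (.rf (nat_lit 498) (nat_lit 11584701642934304)) (.cons (.rf (nat_lit 112) (nat_lit 434655295935590)) .nil)))) .nil)))),
 (.br (nat_lit 8) (nat_lit 0) (.cons (.br (nat_lit 9) (nat_lit 0) (.cons (.rf (nat_lit 152) (nat_lit 10493980774107139)) .nil)) .nil)),
 (.br (nat_lit 1) (nat_lit 0) (.cons (.kr (nat_lit 1) (nat_lit 256) (nat_lit 0) (nat_lit 2)) (.cons (.rf (nat_lit 477) (nat_lit 274860033)) (.cons (.br (nat_lit 2) (nat_lit 0) (.cons (.rf (nat_lit 479) (nat_lit 14246339355264287808)) (.cons (.rf (nat_lit 390) (nat_lit 426892007146560)) (.cons (.rf (nat_lit 479) (nat_lit 14246339354094075969)) (.cons (.br (nat_lit 2) (nat_lit 0) (.cons (.kr (nat_lit 20282409603651670423947251286017) (nat_lit 1208925819614629174771712) (nat_lit 0) (nat_lit 1)) (.cons (.rf (nat_lit 477) (nat_lit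 281216002)) (.cons (.kr (nat_lit 20282409603651670423947251286272) (nat_lit 1208925819614629174771712) (nat_lit 1) (nat_lit 0)) .nil)))) .nil))))) (.cons (.rf (nat_lit 477) (nat_lit 281151489)) .nil))))),
 (.br (nat_lit 2) (nat_lit 0) (.cons (.rf (nat_lit 479) (nat_lit 14246339355264287808)) (.cons (.rf (nat_lit 501) (nat_lit 493858305440582042688)) (.cons (.rf (nat_lit 390) (nat_lit 426892007146560)) (.cons (.rf (nat_lit 479) (nat_lit 5019592916053917761)) (.cons (.rf (nat_lit 501) (nat_lit 373957846523760050241)) .nil)))))),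
 (.br (nat_lit 1) (nat_lit 0) (.cons (.kr (nat_lit 20282409603651670423947251286017) (nat_lit 1208925819614629174706432) (nat_lit 0) (nat_lit 2)) (.cons (.rf (nat_lit 477) (nat_lit 281151489)) (.cons (.rf (nat_lit 477) (nat_lit 281217025)) (.cons (.rf (nat_lit 502) (nat_lit 493858305440582043680)) .nil))))),
 (.br (nat_lit 1) (nat_lit 0) (.cons (.rf (nat_lit 479) (nat_lit 14246339355264288800)) (.cons (.rf (nat_lit 501) (nat_lit 493858305440582043680)) (.cons (.rf (nat_lit 390) (nat_lit 426892007147552)) (.cons (.br (nat_lit 1) (nat_lit 0) (.cons (.kr (nat_lit 20282719088661491770115487694850) (nat_lit 1213666632841572529472000) (nat_lit 0) (nat_lit 2)) (.cons (.rf (nat_lit 501) (nat_lit 493858305440582043680)) (.cons (.rf (nat_lit 477) (nat_lit 175310849)) (.cons (.rf (nat_lit 503) (nat_lit 493858305440582043680)) .nil))))) (.cons (.rf (nat_lit 503) (nat_lit 493858305440582043680)) .nil)))))),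
 (.br (nat_lit 12) (nat_lit 0) (.cons (.br (nat_lit 7) (nat_lit 0) (.cons (.ev (nat_lit 20282725138105478844223773345280) (nat_lit 3)) .nil)) (.cons (.br (nat_lit 2) (nat_lit 0) (.cons (.ev (nat_lit 20282725138105478844223773345280) (nat_lit 3)) .nil)) .nil))),
 (.br (nat_lit 2) (nat_lit 0) (.cons (.rf (nat_lit 505) (nat_lit 493858305440582043680)) (.cons (.br (nat_lit 6) (nat_lit 0) (.cons (.ev (nat_lit 79541288487306892018880479745) (nat_lit 2)) .nil)) .nil))),
 (.br (nat_lit 1) (nat_lit 0) (.cons (.rf (nat_lit 477) (nat_lit 174163969)) (.cons (.br (nat_lit 2) (nat_lit 0) (.cons (.rf (nat_lit 505) (nat_lit 493858305440582043680)) (.cons (.rf (nat_lit 506) (nat_lit 493858305440582043680)) (.cons (.br (nat_lit 2) (nat_lit 0) (.cons (.rf (nat_lit 505) (nat_lit 493858305440582043680)) (.cons (.rf (nat_lit 506) (nat_lit 493858305440582043680)) .nil))) .nil)))) (.cons (.br (nat_lit 12) (nat_lit 0) (.cons (.ev (nat_lit 79537647542532427839801655296) (nat_lit 1)) (.cons (.ev (nat_lit 79228167236630820467500908801)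 (nat_lit 1)) (.cons (.br (nat_lit 2) (nat_lit 0) (.cons (.br (nat_lit 2) (nat_lit 0) (.cons (.ev (nat_lit 80159044840317587207754022914) (nat_lit 2)) .nil)) (.cons (.br (nat_lit 2) (nat_lit 0) (.cons (.ev (nat_lit 80159044840317587207754022914) (nat_lit 2)) .nil)) .nil))) .nil)))) .nil)))),
 (.br (nat_lit 1) (nat_lit 0) (.cons (.kr (nat_lit 20282719088661491770115487694850) (nat_lit 1213666632841572529472000) (nat_lit 0) (nat_lit 2)) (.cons (.rf (nat_lit 507) (nat_lit 493858305440582043680)) (.cons (.br (nat_lit 12) (nat_lit 0) (.cons (.ev (nat_lit 79537647542532427839801655296) (nat_lit 1)) (.cons (.br (nat_lit 2) (nat_lit 0) (.cons (.br (nat_lit 2) (nat_lit 0) (.cons (.ev (nat_lit 309489732260167007401476353) (nat_lit 1)) .nil)) (.cons (.br (nat_lit 2) (nat_lit 0) (.cons (.ev (nat_lit 309489732260167007401476353) (nat_lit 1)) .nil)) .nil))) (.cons (.ev (nat_lit 79228167236630820467500908801) (nat_lit 1)) .nil)))) .nil)))),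
 (.br (nat_lit 1) (nat_lit 0) (.cons (.rf (nat_lit 479) (nat_lit 14246339355264288800)) (.cons (.rf (nat_lit 507) (nat_lit 493858305440582043680)) (.cons (.rf (nat_lit 508) (nat_lit 493858305440582043680)) (.cons (.br (nat_lit 1) (nat_lit 0) (.cons (.kr (nat_lit 20282409603651670423947251286017) (nat_lit 1208925819614629174706432) (nat_lit 0) (nat_lit 2)) (.cons (.rf (nat_lit 507) (nat_lit 493858305440582043680)) (.cons (.rf (nat_lit 508) (nat_lit 493858305440582043680)) .nil)))) .nil))))),
 (.br (nat_lit 2) (nat_lit 0) (.cons (.rf (nat_lit 477) (nat_lit 175309826)) (.cons (.rf (nat_lit 509) (nat_lit 493858305440582043680)) (.cons (.br (nat_lit 6) (nat_lit 0) (.cons (.br (nat_lit 1) (nat_lit 0) (.cons (.br (nat_lit 7) (nat_lit 0) (.cons (.ev (nat_lit 79847137311830198182698091010) (nat_lit 2)) .nil)) (.cons (.br (nat_lit 4) (nat_lit 0) (.cons (.ev (nat_lit 20759332081527512109117058580996) (nat_lit 3)) .nil)) (.cons (.br (nat_lit 4) (nat_lit 0) (.cons (.ev (nat_lit 80159044840317587207754022914)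 (nat_lit 2)) .nil)) .nil)))) (.cons (.br (nat_lit 7) (nat_lit 0) (.cons (.br (nat_lit 1) (nat_lit 0) (.cons (.ev (nat_lit 309489732260167007401476353) (nat_lit 1)) .nil)) (.cons (.ev (nat_lit 79538861172272062739888799745) (nat_lit 1)) .nil))) (.cons (.ev (nat_lit 1213648258156192386252801) (nat_lit 1)) (.cons (.br (nat_lit 4) (nat_lit 0) (.cons (.br (nat_lit 1) (nat_lit 0) (.cons (.ev (nat_lit 309489732260167007401476353) (nat_lit 1)) .nil)) (.cons (.ev (nat_lit 79229371458530977775716728833) (nat_lit 1)) .nil))) .nil))))) .nil)))),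
 (.br (nat_lit 2) (nat_lit 0) (.cons (.rf (nat_lit 390) (nat_lit 426892007146560)) (.cons (.rf (nat_lit 509) (nat_lit 493858305440582043680)) (.cons (.rf (nat_lit 510) (nat_lit 493858305440582043680)) (.cons (.br (nat_lit 2) (nat_lit 0) (.cons (.rf (nat_lit 477) (nat_lit 281216002)) (.cons (.rf (nat_lit 509) (nat_lit 493858305440582043680)) (.cons (.rf (nat_lit 510) (nat_lit 493858305440582043680)) .nil)))) .nil))))),
 (.br (nat_lit 2) (nat_lit 0) (.cons (.rf (nat_lit 479) (nat_lit 14246339355264288800)) (.cons (.rf (nat_lit 509) (nat_lit 493858305440582043680)) (.cons (.rf (nat_lit 511) (nat_lit 493858305440582043680)) (.cons (.br (nat_lit 2) (nat_lit 0) (.cons (.rf (nat_lit 479) (nat_lit 14246339355264288800)) (.cons (.rf (nat_lit 509) (nat_lit 493858305440582043680)) (.cons (.rf (nat_lit 511) (nat_lit 493858305440582043680)) .nil)))) .nil))))),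
 (.br (nat_lit 2) (nat_lit 0) (.cons (.rf (nat_lit 479) (nat_lit 14246339355264288800)) (.cons (.rf (nat_lit 509) (nat_lit 493858305440582043680)) (.cons (.rf (nat_lit 511) (nat_lit 493858305440582043680)) (.cons (.rf (nat_lit 512) (nat_lit 493858305440582043680)) (.cons (.br (nat_lit 2) (nat_lit 0) (.cons (.rf (nat_lit 479) (nat_lit 14246339355264288800)) (.cons (.rf (nat_lit 509) (nat_lit 493858305440582043680)) (.cons (.rf (nat_lit 511) (nat_lit 493858305440582043680)) (.cons (.rf (nat_lit 512) (nat_lit 493858305440582043680)) .nil))))) .nil)))))),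
 (.br (nat_lit 2) (nat_lit 0) (.cons (.rf (nat_lit 477) (nat_lit 175309826)) (.cons (.rf (nat_lit 513) (nat_lit 493858305440582042688)) (.cons (.br (nat_lit 3) (nat_lit 0) (.cons (.rf (nat_lit 513) (nat_lit 493858305440582043680)) (.cons (.br (nat_lit 1) (nat_lit 0) (.cons (.ev (nat_lit 1213648258156192386252801) (nat_lit 1)) (.cons (.br (nat_lit 1) (nat_lit 0) (.cons (.ev (nat_lit 1213648258156192386252801) (nat_lit 1)) .nil)) .nil))) (.cons (.ev (nat_lit 310693954159761365663809536) (nat_lit 1)) (.cons (.br (nat_lit 6) (nat_lit 0) (.cons (.ev (nat_lit 79538861172272062739888734208) (nat_lit 1)) (.cons (.kr (nat_lit 20282719093402305558909284253698) (nat_lit 158457533954492406112440025088) (nat_lit 0) (nat_lit 1)) .nil))) .nil))))) .nil)))),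
 (.br (nat_lit 2) (nat_lit 0) (.cons (.rf (nat_lit 390) (nat_lit 426892007146560)) (.cons (.rf (nat_lit 513) (nat_lit 493858305440582042688)) (.cons (.rf (nat_lit 514) (nat_lit 493858305440582043680)) (.cons (.br (nat_lit 2) (nat_lit 0) (.cons (.rf (nat_lit 477) (nat_lit 281216002)) (.cons (.rf (nat_lit 513) (nat_lit 493858305440582042688)) (.cons (.rf (nat_lit 514) (nat_lit 493858305440582043680)) .nil)))) .nil)))))]

theorem c15 : chkAll C T R L15 (nat_lit 487) = true := by decide +kernel

theorem l15 : (nat_lit 487) + L15.length = (nat_lit 516) := by decide +kernel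

/-- part of the certificates -/
def L16 : List Prf := [(.br (nat_lit 2) (nat_lit 0) (.cons (.rf (nat_lit 501) (nat_lit 493858305440582043680)) (.cons (.rf (nat_lit 513) (nat_lit 493858305440582042688)) (.cons (.rf (nat_lit 515) (nat_lit 493858305440582043680)) (.cons (.br (nat_lit 2) (nat_lit 0) (.cons (.rf (nat_lit 501) (nat_lit 493858305440582043680)) (.cons (.rf (nat_lit 513) (nat_lit 493858305440582042688)) (.cons (.rf (nat_lit 515) (nat_lit 493858305440582043680)) .nil)))) .nil))))),
 (.br (nat_lit 2) (nat_lit 0) (.cons (.rf (nat_lit 501) (nat_lit 493858305440582043680)) (.cons (.rf (nat_lit 513) (nat_lit 493858305440582042688)) (.cons (.rf (nat_lit 515) (nat_lit 493858305440582043680)) (.cons (.rf (nat_lit 516) (nat_lit 493858305440582043680)) (.cons (.br (nat_lit 2) (nat_lit 0) (.cons (.rf (nat_lit 501) (nat_lit 493858305440582043680)) (.cons (.rf (nat_lit 513) (nat_lit 493858305440582042688)) (.cons (.rf (nat_lit 515) (nat_lit 493858305440582043680)) (.cons (.rf (nat_lit 516)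 (nat_lit 493858305440582043680)) .nil))))) .nil)))))),
 (.br (nat_lit 3) (nat_lit 0) (.cons (.ev (nat_lit 79229371458530977775716663296) (nat_lit 1)) .nil)),
 (.br (nat_lit 2) (nat_lit 0) (.cons (.rf (nat_lit 513) (nat_lit 493858305440582042688)) (.cons (.rf (nat_lit 517) (nat_lit 493858305440582042688)) (.cons (.br (nat_lit 2) (nat_lit 0) (.cons (.rf (nat_lit 513) (nat_lit 493858305440582042688)) (.cons (.rf (nat_lit 517) (nat_lit 493858305440582042688)) (.cons (.rf (nat_lit 518) (nat_lit 493858305440582043680)) .nil)))) (.cons (.br (nat_lit 2) (nat_lit 0) (.cons (.rf (nat_lit 513) (nat_lit 493858305440582042688)) (.cons (.rf (nat_lit 517) (nat_lit 493858305440582042688)) (.cons (.rf (nat_lit 518) (nat_lit 493858305440582043680)) .nil)))) .nil))))),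
 (.br (nat_lit 2) (nat_lit 0) (.cons (.rf (nat_lit 513) (nat_lit 493858305440582042688)) (.cons (.rf (nat_lit 517) (nat_lit 493858305440582042688)) (.cons (.rf (nat_lit 519) (nat_lit 493858305440582043680)) (.cons (.br (nat_lit 2) (nat_lit 0) (.cons (.rf (nat_lit 513) (nat_lit 493858305440582042688)) (.cons (.rf (nat_lit 517) (nat_lit 493858305440582042688)) (.cons (.rf (nat_lit 518) (nat_lit 493858305440582043680)) .nil)))) .nil))))),
 (.br (nat_lit 1) (nat_lit 0) (.cons (.rf (nat_lit 477) (nat_lit 175310849)) (.cons (.rf (nat_lit 513) (nat_lit 493858305440582043680)) (.cons (.rf (nat_lit 517) (nat_lit 493858305440582043680)) (.cons (.br (nat_lit 2) (nat_lit 0) (.cons (.rf (nat_lit 513) (nat_lit 493858305440582042688)) (.cons (.rf (nat_lit 517) (nat_lit 493858305440582042688)) (.cons (.rf (nat_lit 519) (nat_lit 493858305440582043680)) (.cons (.rf (nat_lit 520) (nat_lit 493858305440582043680)) (.cons (.br (nat_lit 2) (nat_lit 0) (.cons (.rf (nat_lit 513) (nat_lit 493858305440582042688))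 (.cons (.rf (nat_lit 517) (nat_lit 493858305440582042688)) (.cons (.rf (nat_lit 519) (nat_lit 493858305440582043680)) (.cons (.rf (nat_lit 520) (nat_lit 493858305440582043680)) .nil))))) .nil)))))) .nil))))),
 (.br (nat_lit 1) (nat_lit 0) (.cons (.rf (nat_lit 390) (nat_lit 426892007147552)) (.cons (.rf (nat_lit 513) (nat_lit 493858305440582043680)) (.cons (.rf (nat_lit 517) (nat_lit 493858305440582043680)) (.cons (.rf (nat_lit 521) (nat_lit 493858305440582043680)) (.cons (.br (nat_lit 1) (nat_lit 0) (.cons (.rf (nat_lit 477) (nat_lit 281217025)) (.cons (.rf (nat_lit 513) (nat_lit 493858305440582043680)) (.cons (.rf (nat_lit 517) (nat_lit 493858305440582043680)) (.cons (.rf (nat_lit 521) (nat_lit 493858305440582043680)) .nil))))) .nil)))))),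
 (.br (nat_lit 1) (nat_lit 0) (.cons (.rf (nat_lit 504) (nat_lit 493858305440582043680)) (.cons (.rf (nat_lit 513) (nat_lit 493858305440582043680)) (.cons (.rf (nat_lit 517) (nat_lit 493858305440582043680)) (.cons (.rf (nat_lit 522) (nat_lit 493858305440582043680)) (.cons (.br (nat_lit 1) (nat_lit 0) (.cons (.rf (nat_lit 503) (nat_lit 493858305440582043680)) (.cons (.rf (nat_lit 513) (nat_lit 493858305440582043680)) (.cons (.rf (nat_lit 517) (nat_lit 493858305440582043680)) (.cons (.rf (nat_lit 522) (nat_lit 493858305440582043680)) .nil))))) .nil)))))),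
 (.br (nat_lit 10) (nat_lit 1) (.cons (.br (nat_lit 11) (nat_lit 1) (.cons (.br (nat_lit 1) (nat_lit 0) (.cons (.rf (nat_lit 504) (nat_lit 493858305440582043680)) (.cons (.rf (nat_lit 513) (nat_lit 493858305440582043680)) (.cons (.rf (nat_lit 517) (nat_lit 493858305440582043680)) (.cons (.rf (nat_lit 522) (nat_lit 493858305440582043680)) (.cons (.rf (nat_lit 523) (nat_lit 493858305440582043680)) (.cons (.br (nat_lit 1) (nat_lit 0) (.cons (.rf (nat_lit 503) (nat_lit 493858305440582043680)) (.cons (.rf (nat_lit 513) (nat_lit 493858305440582043680)) (.cons (.rf (nat_lit 517) (nat_lit 493858305440582043680)) (.cons (.rf (nat_lit 522) (nat_lit 493858305440582043680)) (.cons (.rf (nat_lit 523) (nat_lit 493858305440582043680)) .nil)))))) .nil))))))) .nil)) .nil)),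
 (.br (nat_lit 9) (nat_lit 1) (.cons (.rf (nat_lit 2) (nat_lit 9477)) (.cons (.rf (nat_lit 156) (nat_lit 15002119212078182)) (.cons (.br (nat_lit 8) (nat_lit 1) (.cons (.rf (nat_lit 12) (nat_lit 13968645)) (.cons (.br (nat_lit 10) (nat_lit 1) (.cons (.rf (nat_lit 524) (nat_lit 493858305440582043680)) (.cons (.br (nat_lit 10) (nat_lit 1) (.cons (.rf (nat_lit 524) (nat_lit 493858305440582043680)) .nil)) .nil))) (.cons (.rf (nat_lit 12) (nat_lit 10921221)) .nil)))) .nil)))),
 (.br (nat_lit 9) (nat_lit 1) (.cons (.rf (nat_lit 2) (nat_lit 9477)) (.cons (.rf (nat_lit 525) (nat_lit 493858305440582043680)) (.cons (.rf (nat_lit 156) (nat_lit 15002119212078182)) (.cons (.br (nat_lit 9) (nat_lit 1) (.cons (.rf (nat_lit 2) (nat_lit 9477)) (.cons (.rf (nat_lit 525) (nat_lit 493858305440582043680)) (.cons (.rf (nat_lit 156) (nat_lit 15002119212078182)) .nil)))) .nil))))),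
 (.br (nat_lit 1) (nat_lit 0) (.cons (.kr (nat_lit 1) (nat_lit 256) (nat_lit 0) (nat_lit 2)) (.cons (.rf (nat_lit 477) (nat_lit 174163969)) (.cons (.kr (nat_lit 309485009821345068724781057) (nat_lit 1208925819614629174706432) (nat_lit 0) (nat_lit 2)) (.cons (.br (nat_lit 2) (nat_lit 0) (.cons (.br (nat_lit 2) (nat_lit 0) (.cons (.rf (nat_lit 477) (nat_lit 274859010)) (.cons (.kr (nat_lit 20283338058699581203227135180804) (nat_lit 3631499825327856681091584) (nat_lit 0) (nat_lit 3)) (.cons (.kr (nat_lit 20282719088679938513089685618690) (nat_lit 1213648186098598331678720) (nat_lit 0) (nat_lit 1)) .nil)))) (.cons (.rf (nat_lit 390) (nat_lit 426892007146560)) (.cons (.br (nat_lit 2) (nat_lit 0) (.cons (.kr (nat_lit 20283338058699581203227135180804) (nat_lit 3631499825327856681091584) (nat_lit 0) (nat_lit 3)) (.cons (.rf (nat_lit 477) (nat_lit 175309826)) (.cons (.kr (nat_lit 20283338058699581203227135180802) (nat_lit 3631499825327856681091072) (nat_lit 0) (nat_lit 1)) .nil)))) (.cons (.br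 (nat_lit 2) (nat_lit 0) (.cons (.kr (nat_lit 20282719088679938513089685618690) (nat_lit 1213648186098598331678720) (nat_lit 0) (nat_lit 1)) (.cons (.rf (nat_lit 477) (nat_lit 281216002)) (.cons (.kr (nat_lit 20283338058699581203227135180802) (nat_lit 3631499825327856681091072) (nat_lit 0) (nat_lit 1)) .nil)))) .nil))))) .nil))))),
 (.br (nat_lit 1) (nat_lit 0) (.cons (.kr (nat_lit 1) (nat_lit 256) (nat_lit 0) (nat_lit 2)) (.cons (.rf (nat_lit 477) (nat_lit 274860033)) (.cons (.br (nat_lit 2) (nat_lit 0) (.cons (.rf (nat_lit 527) (nat_lit 493858305440582042688)) (.cons (.rf (nat_lit 390) (nat_lit 426892007146560)) (.cons (.br (nat_lit 2) (nat_lit 0) (.cons (.ev (nat_lit 4722438540467994951681) (nat_lit 1)) (.cons (.rf (nat_lit 477) (nat_lit 175309826)) (.cons (.kr (nat_lit 20283338058699581203227135180802) (nat_lit 3631499825327856681091072) (nat_lit 0) (nat_lit 1)) .nil)))) (.cons (.br (nat_lit 2) (nat_lit 0) (.cons (.kr (nat_lit 20283338058699581203227135180804) (nat_lit 3631499825327856681091584)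 (nat_lit 0) (nat_lit 3)) (.cons (.rf (nat_lit 477) (nat_lit 281216002)) (.cons (.kr (nat_lit 20283338058699581203227135180802) (nat_lit 3631499825327856681091072) (nat_lit 0) (nat_lit 1)) .nil)))) .nil))))) (.cons (.kr (nat_lit 20282719088679938513089685618690) (nat_lit 1213648186098598331548160) (nat_lit 0) (nat_lit 2)) .nil))))),
 (.br (nat_lit 1) (nat_lit 0) (.cons (.rf (nat_lit 527) (nat_lit 493858305440582043680)) (.cons (.rf (nat_lit 528) (nat_lit 493858305440582043680)) (.cons (.rf (nat_lit 390) (nat_lit 426892007147552)) (.cons (.br (nat_lit 1) (nat_lit 0) (.cons (.kr (nat_lit 309485009821345068724781057) (nat_lit 1208925819614629174706432) (nat_lit 0) (nat_lit 2)) (.cons (.rf (nat_lit 528) (nat_lit 493858305440582043680)) (.cons (.rf (nat_lit 477) (nat_lit 175310849)) (.cons (.kr (nat_lit 20283338058699581203227135180802) (nat_lit 3631499825327856680960512) (nat_lit 0) (nat_lit 2)) .nil))))) (.cons (.br (nat_lit 1) (nat_lit 0) (.cons (.rf (nat_lit 527) (nat_lit 493858305440582043680))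 (.cons (.kr (nat_lit 20282719088679938513089685618690) (nat_lit 1213648186098598331548160) (nat_lit 0) (nat_lit 2)) (.cons (.rf (nat_lit 477) (nat_lit 281217025)) (.cons (.kr (nat_lit 20283338058699581203227135180802) (nat_lit 3631499825327856680960512) (nat_lit 0) (nat_lit 2)) .nil))))) .nil)))))),
 (.br (nat_lit 7) (nat_lit 0) (.cons (.br (nat_lit 7) (nat_lit 0) (.cons (.zr (nat_lit 1208925963733124375380481) (nat_lit 60926456973469275890910291558400) (nat_lit 5) (nat_lit 3)) .nil)) (.cons (.br (nat_lit 2) (nat_lit 0) (.cons (.zr (nat_lit 1208925963733124375380481) (nat_lit 60926456973469275890910291558400) (nat_lit 5) (nat_lit 3)) .nil)) .nil))),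
 (.br (nat_lit 2) (nat_lit 0) (.cons (.rf (nat_lit 530) (nat_lit 493858305440582043680)) (.cons (.br (nat_lit 6) (nat_lit 0) (.cons (.ev (nat_lit 2422629418848571443249920) (nat_lit 2)) .nil)) .nil))),
 (.br (nat_lit 1) (nat_lit 0) (.cons (.rf (nat_lit 477) (nat_lit 174163969)) (.cons (.br (nat_lit 2) (nat_lit 0) (.cons (.br (nat_lit 2) (nat_lit 0) (.cons (.ev (nat_lit 310698658079500165894373376) (nat_lit 1)) (.cons (.ev (nat_lit 20282725138105190609449574860292) (nat_lit 3)) .nil))) (.cons (.ev (nat_lit 310698658079500165894373376) (nat_lit 1)) (.cons (.br (nat_lit 2) (nat_lit 0) (.cons (.ev (nat_lit 20282725138105190609449574860292) (nat_lit 3)) (.cons (.ev (nat_lit 310698658079500165894373376) (nat_lit 1)) .nil))) .nil)))) (.cons (.br (nat_lit 2) (nat_lit 0) (.cons (.rf (nat_lit 530) (nat_lit 493858305440582043680)) (.cons (.rf (nat_lit 531) (nat_lit 493858305440582043680)) (.cons (.br (nat_lit 2) (nat_lit 0) (.cons (.rf (nat_lit 530) (nat_lit 493858305440582043680)) (.cons (.rf (nat_lit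 531) (nat_lit 493858305440582043680)) .nil))) .nil)))) .nil)))),
 (.br (nat_lit 1) (nat_lit 0) (.cons (.rf (nat_lit 529) (nat_lit 493858305440582043680)) (.cons (.rf (nat_lit 532) (nat_lit 493858305440582043680)) (.cons (.br (nat_lit 1) (nat_lit 0) (.cons (.kr (nat_lit 309485009821345068724781057) (nat_lit 1208925819614629174706432) (nat_lit 0) (nat_lit 2)) (.cons (.rf (nat_lit 532) (nat_lit 493858305440582043680)) (.cons (.ev (nat_lit 1213666632842672057876736) (nat_lit 1)) .nil)))) (.cons (.br (nat_lit 1) (nat_lit 0) (.cons (.rf (nat_lit 529) (nat_lit 493858305440582043680)) (.cons (.rf (nat_lit 532) (nat_lit 493858305440582043680)) (.cons (.ev (nat_lit 1213666632842672057876736) (nat_lit 1)) .nil)))) .nil))))),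
 (.br (nat_lit 2) (nat_lit 0) (.cons (.rf (nat_lit 477) (nat_lit 175309826)) (.cons (.rf (nat_lit 533) (nat_lit 493858305440582043680)) (.cons (.br (nat_lit 6) (nat_lit 0) (.cons (.br (nat_lit 1) (nat_lit 0) (.cons (.ev (nat_lit 20283958242441197531207775159812) (nat_lit 3)) (.cons (.ev (nat_lit 20284584466015757909120272958980) (nat_lit 3)) (.cons (.br (nat_lit 4) (nat_lit 0) (.cons (.ev (nat_lit 309485009893685241562791936) (nat_lit 1)) .nil)) .nil)))) (.cons (.br (nat_lit 7) (nat_lit 0) (.cons (.rf (nat_lit 135) (nat_lit 11976592349610510368)) (.cons (.ev (nat_lit 20283346535458243665276749348868) (nat_lit 3)) .nil))) (.cons (.br (nat_lit 4) (nat_lit 0) (.cons (.rf (nat_lit 428) (nat_lit 13158825734703253536)) (.cons (.ev (nat_lit 20284579639794250587034949648388) (nat_lit 3)) .nil))) (.cons (.ev (nat_lit 18447025548703039489) (nat_lit 1)) .nil))))) .nil)))),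
 (.br (nat_lit 2) (nat_lit 0) (.cons (.rf (nat_lit 390) (nat_lit 426892007146560)) (.cons (.rf (nat_lit 533) (nat_lit 493858305440582043680)) (.cons (.rf (nat_lit 534) (nat_lit 493858305440582043680)) (.cons (.br (nat_lit 2) (nat_lit 0) (.cons (.rf (nat_lit 477) (nat_lit 281216002)) (.cons (.rf (nat_lit 533) (nat_lit 493858305440582043680)) (.cons (.rf (nat_lit 534) (nat_lit 493858305440582043680)) .nil)))) .nil))))),
 (.br (nat_lit 2) (nat_lit 0) (.cons (.rf (nat_lit 529) (nat_lit 493858305440582043680)) (.cons (.rf (nat_lit 533) (nat_lit 493858305440582043680)) (.cons (.rf (nat_lit 535) (nat_lit 493858305440582043680)) (.cons (.br (nat_lit 2) (nat_lit 0) (.cons (.kr (nat_lit 20283338058699581203227135180802) (nat_lit 3631499825327856681091072) (nat_lit 0) (nat_lit 1)) (.cons (.rf (nat_lit 533) (nat_lit 493858305440582043680)) (.cons (.rf (nat_lit 535) (nat_lit 493858305440582043680)) .nil)))) .nil))))),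
 (.br (nat_lit 2) (nat_lit 0) (.cons (.rf (nat_lit 529) (nat_lit 493858305440582043680)) (.cons (.rf (nat_lit 533) (nat_lit 493858305440582043680)) (.cons (.rf (nat_lit 535) (nat_lit 493858305440582043680)) (.cons (.rf (nat_lit 536) (nat_lit 493858305440582043680)) (.cons (.br (nat_lit 2) (nat_lit 0) (.cons (.rf (nat_lit 529) (nat_lit 493858305440582043680)) (.cons (.rf (nat_lit 533) (nat_lit 493858305440582043680)) (.cons (.rf (nat_lit 535) (nat_lit 493858305440582043680)) (.cons (.rf (nat_lit 536) (nat_lit 493858305440582043680)) .nil))))) .nil)))))),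
 (.br (nat_lit 1) (nat_lit 0) (.cons (.ev (nat_lit 18447025548703039489) (nat_lit 1)) (.cons (.br (nat_lit 1) (nat_lit 0) (.cons (.ev (nat_lit 18447025548703039489) (nat_lit 1)) .nil)) .nil))),
 (.br (nat_lit 2) (nat_lit 0) (.cons (.rf (nat_lit 477) (nat_lit 175309826)) (.cons (.rf (nat_lit 537) (nat_lit 493858305440582042688)) (.cons (.br (nat_lit 3) (nat_lit 0) (.cons (.rf (nat_lit 537) (nat_lit 493858305440582043680)) (.cons (.ev (nat_lit 310693954087985246602592256) (nat_lit 1)) (.cons (.br (nat_lit 1) (nat_lit 0) (.cons (.ev (nat_lit 20283963087626247126155849105410) (nat_lit 3)) (.cons (.br (nat_lit 1) (nat_lit 0) (.cons (.ev (nat_lit 20283963087626247126155849105410) (nat_lit 3)) .nil)) .nil))) (.cons (.rf (nat_lit 538) (nat_lit 13836501456619552)) .nil))))) .nil)))),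
 (.br (nat_lit 2) (nat_lit 0) (.cons (.rf (nat_lit 390) (nat_lit 426892007146560)) (.cons (.rf (nat_lit 537) (nat_lit 493858305440582042688)) (.cons (.rf (nat_lit 539) (nat_lit 493858305440582043680)) (.cons (.br (nat_lit 2) (nat_lit 0) (.cons (.rf (nat_lit 477) (nat_lit 281216002)) (.cons (.rf (nat_lit 537) (nat_lit 493858305440582042688)) (.cons (.rf (nat_lit 539) (nat_lit 493858305440582043680)) .nil)))) .nil))))),
 (.br (nat_lit 2) (nat_lit 0) (.cons (.rf (nat_lit 529) (nat_lit 493858305440582043680)) (.cons (.rf (nat_lit 537) (nat_lit 493858305440582042688)) (.cons (.rf (nat_lit 540) (nat_lit 493858305440582043680)) (.cons (.br (nat_lit 2) (nat_lit 0) (.cons (.kr (nat_lit 20283338058699581203227135180802) (nat_lit 3631499825327856681091072) (nat_lit 0) (nat_lit 1)) (.cons (.ev (nat_lit 1213666632842672057942016) (nat_lit 1)) (.cons (.rf (nat_lit 540) (nat_lit 493858305440582043680)) .nil)))) .nil)))))]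

theorem c16 : chkAll C T R L16 (nat_lit 516) = true := by decide +kernel

theorem l16 : (nat_lit 516) + L16.length = (nat_lit 542) := by decide +kernel

/-- part of the certificates -/
def L17 : List Prf := [(.br (nat_lit 2) (nat_lit 0) (.cons (.rf (nat_lit 529) (nat_lit 493858305440582043680)) (.cons (.rf (nat_lit 537) (nat_lit 493858305440582042688)) (.cons (.rf (nat_lit 540) (nat_lit 493858305440582043680)) (.cons (.rf (nat_lit 541) (nat_lit 493858305440582043680)) (.cons (.br (nat_lit 2) (nat_lit 0) (.cons (.rf (nat_lit 529) (nat_lit 493858305440582043680)) (.cons (.rf (nat_lit 537) (nat_lit 493858305440582042688)) (.cons (.rf (nat_lit 540) (nat_lit 493858305440582043680)) (.cons (.rf (nat_lit 541) (nat_lit 493858305440582043680)) .nil))))) .nil)))))),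
 (.br (nat_lit 3) (nat_lit 0) (.cons (.ev (nat_lit 20284584466015757909120273220100) (nat_lit 3)) (.cons (.ev (nat_lit 20282720311883683287364251156482) (nat_lit 3)) (.cons (.ev (nat_lit 18447025548703039489) (nat_lit 1)) .nil)))),
 (.br (nat_lit 2) (nat_lit 0) (.cons (.kr (nat_lit 20283338058699581203227135180802) (nat_lit 3631499825327856681091072) (nat_lit 0) (nat_lit 1)) (.cons (.ev (nat_lit 1213666632842672057942016) (nat_lit 1)) (.cons (.rf (nat_lit 542) (nat_lit 493858305440582042688)) (.cons (.br (nat_lit 1) (nat_lit 0) (.cons (.rf (nat_lit 537) (nat_lit 493858305440582043680)) (.cons (.rf (nat_lit 542) (nat_lit 493858305440582043680)) (.cons (.rf (nat_lit 543) (nat_lit 493858305440582042688)) (.cons (.br (nat_lit 1) (nat_lit 0) (.cons (.rf (nat_lit 537) (nat_lit 493858305440582043680)) (.cons (.rf (nat_lit 542) (nat_lit 493858305440582043680)) (.cons (.rf (nat_lit 543) (nat_lit 493858305440582043680)) .nil)))) .nil))))) .nil))))),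
 (.br (nat_lit 1) (nat_lit 0) (.cons (.rf (nat_lit 477) (nat_lit 175310849)) (.cons (.rf (nat_lit 537) (nat_lit 493858305440582043680)) (.cons (.rf (nat_lit 542) (nat_lit 493858305440582043680)) (.cons (.br (nat_lit 2) (nat_lit 0) (.cons (.rf (nat_lit 537) (nat_lit 493858305440582042688)) (.cons (.rf (nat_lit 542) (nat_lit 493858305440582042688)) (.cons (.rf (nat_lit 544) (nat_lit 493858305440582042688)) (.cons (.br (nat_lit 2) (nat_lit 0) (.cons (.rf (nat_lit 537) (nat_lit 493858305440582042688)) (.cons (.rf (nat_lit 542) (nat_lit 493858305440582042688)) (.cons (.rf (nat_lit 544) (nat_lit 493858305440582042688)) (.cons (.rf (nat_lit 544) (nat_lit 493858305440582043680)) .nil))))) (.cons (.br (nat_lit 2) (nat_lit 0) (.cons (.rf (nat_lit 537) (nat_lit 493858305440582042688)) (.cons (.rf (nat_lit 542) (nat_lit 493858305440582042688)) (.cons (.rf (nat_lit 544) (nat_lit 493858305440582042688)) (.cons (.rf (nat_lit 544) (nat_lit 493858305440582043680)) .nil))))) .nil)))))) .nil))))),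
 (.br (nat_lit 1) (nat_lit 0) (.cons (.rf (nat_lit 390) (nat_lit 426892007147552)) (.cons (.rf (nat_lit 537) (nat_lit 493858305440582043680)) (.cons (.rf (nat_lit 542) (nat_lit 493858305440582043680)) (.cons (.rf (nat_lit 545) (nat_lit 493858305440582043680)) (.cons (.br (nat_lit 1) (nat_lit 0) (.cons (.rf (nat_lit 477) (nat_lit 281217025)) (.cons (.rf (nat_lit 537) (nat_lit 493858305440582043680)) (.cons (.rf (nat_lit 542) (nat_lit 493858305440582043680)) (.cons (.rf (nat_lit 545) (nat_lit 493858305440582043680)) .nil))))) .nil)))))),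
 (.br (nat_lit 1) (nat_lit 0) (.cons (.rf (nat_lit 529) (nat_lit 493858305440582043680)) (.cons (.rf (nat_lit 537) (nat_lit 493858305440582043680)) (.cons (.rf (nat_lit 542) (nat_lit 493858305440582043680)) (.cons (.rf (nat_lit 546) (nat_lit 493858305440582043680)) (.cons (.br (nat_lit 1) (nat_lit 0) (.cons (.kr (nat_lit 20283338058699581203227135180802) (nat_lit 3631499825327856680960512) (nat_lit 0) (nat_lit 2)) (.cons (.ev (nat_lit 1213666632842672057876736) (nat_lit 1)) (.cons (.rf (nat_lit 542) (nat_lit 493858305440582043680)) (.cons (.rf (nat_lit 546) (nat_lit 493858305440582043680)) .nil))))) .nil)))))),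
 (.br (nat_lit 10) (nat_lit 1) (.cons (.br (nat_lit 11) (nat_lit 1) (.cons (.br (nat_lit 1) (nat_lit 0) (.cons (.rf (nat_lit 529) (nat_lit 493858305440582043680)) (.cons (.rf (nat_lit 537) (nat_lit 493858305440582043680)) (.cons (.rf (nat_lit 542) (nat_lit 493858305440582043680)) (.cons (.rf (nat_lit 546) (nat_lit 493858305440582043680)) (.cons (.rf (nat_lit 547) (nat_lit 493858305440582043680)) (.cons (.br (nat_lit 1) (nat_lit 0) (.cons (.rf (nat_lit 529) (nat_lit 493858305440582043680)) (.cons (.rf (nat_lit 537) (nat_lit 493858305440582043680)) (.cons (.rf (nat_lit 542) (nat_lit 493858305440582043680)) (.cons (.rf (nat_lit 546) (nat_lit 493858305440582043680)) (.cons (.rf (nat_lit 547) (nat_lit 493858305440582043680)) .nil)))))) .nil))))))) .nil)) .nil)),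
 (.br (nat_lit 1) (nat_lit 0) (.cons (.rf (nat_lit 479) (nat_lit 14246339355264288800)) (.cons (.rf (nat_lit 501) (nat_lit 493858305440582043680)) (.cons (.rf (nat_lit 390) (nat_lit 426892007147552)) (.cons (.br (nat_lit 1) (nat_lit 0) (.cons (.rf (nat_lit 477) (nat_lit 175212545)) (.cons (.rf (nat_lit 501) (nat_lit 493858305440582043680)) (.cons (.rf (nat_lit 477) (nat_lit 175310849)) (.cons (.rf (nat_lit 503) (nat_lit 493858305440582043680)) .nil))))) (.cons (.rf (nat_lit 503) (nat_lit 493858305440582043680)) .nil)))))),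
 (.br (nat_lit 7) (nat_lit 0) (.cons (.kr (nat_lit 20282719088679938514189197246466) (nat_lit 1213648330212686895776256) (nat_lit 0) (nat_lit 2)) (.cons (.kr (nat_lit 60847538295983279362083699818498) (nat_lit 3631499969441945245188608) (nat_lit 0) (nat_lit 2)) .nil))),
 (.br (nat_lit 6) (nat_lit 0) (.cons (.ev (nat_lit 18519084242252660736) (nat_lit 1)) .nil)),
 (.br (nat_lit 1) (nat_lit 0) (.cons (.rf (nat_lit 477) (nat_lit 174163969)) (.cons (.br (nat_lit 6) (nat_lit 0) (.cons (.br (nat_lit 12) (nat_lit 0) (.cons (.ev (nat_lit 20282725138105190609449574860292) (nat_lit 3)) (.cons (.ev (nat_lit 20282720321291523325698462712322) (nat_lit 3)) .nil))) (.cons (.kr (nat_lit 20282410812577490602625891041280) (nat_lit 309489750778687200155402240) (nat_lit 5) (nat_lit 0)) (.cons (.br (nat_lit 2) (nat_lit 0) (.cons (.br (nat_lit 2) (nat_lit 0) (.cons (.zr (nat_lit 1223092919629486598782977) (nat_lit 80156617599140662619196621056) (nat_lit 5) (nat_lit 3)) .nil)) (.cons (.br (nat_lit 2) (nat_lit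 0) (.cons (.zr (nat_lit 1223092919629486598782977) (nat_lit 80156617599140662619196621056) (nat_lit 5) (nat_lit 3)) .nil)) .nil))) .nil)))) (.cons (.br (nat_lit 2) (nat_lit 0) (.cons (.br (nat_lit 2) (nat_lit 0) (.cons (.rf (nat_lit 550) (nat_lit 493858305440582043680)) (.cons (.rf (nat_lit 281) (nat_lit 12004745345913455680)) .nil))) (.cons (.br (nat_lit 2) (nat_lit 0) (.cons (.rf (nat_lit 550) (nat_lit 493858305440582043680)) (.cons (.rf (nat_lit 551) (nat_lit 445056165777344544)) .nil))) (.cons (.br (nat_lit 2) (nat_lit 0) (.cons (.rf (nat_lit 281) (nat_lit 12004745345913455680)) (.cons (.rf (nat_lit 551) (nat_lit 445056165777344544)) .nil))) .nil)))) .nil)))),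
 (.br (nat_lit 1) (nat_lit 0) (.cons (.rf (nat_lit 479) (nat_lit 14246339355264288800)) (.cons (.rf (nat_lit 552) (nat_lit 493858305440582043680)) (.cons (.br (nat_lit 1) (nat_lit 0) (.cons (.rf (nat_lit 477) (nat_lit 175212545)) (.cons (.rf (nat_lit 552) (nat_lit 493858305440582043680)) (.cons (.ev (nat_lit 1213666632842672057876736) (nat_lit 1)) .nil)))) (.cons (.br (nat_lit 1) (nat_lit 0) (.cons (.kr (nat_lit 20282409603651670423947251286017) (nat_lit 1208925819614629174706432) (nat_lit 0) (nat_lit 2)) (.cons (.rf (nat_lit 552) (nat_lit 493858305440582043680)) (.cons (.ev (nat_lit 1213666632842672057876736) (nat_lit 1)) .nil)))) .nil))))),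
 (.br (nat_lit 2) (nat_lit 0) (.cons (.rf (nat_lit 477) (nat_lit 175309826)) (.cons (.rf (nat_lit 553) (nat_lit 493858305440582043680)) (.cons (.br (nat_lit 6) (nat_lit 0) (.cons (.br (nat_lit 1) (nat_lit 0) (.cons (.br (nat_lit 7) (nat_lit 0) (.cons (.zr (nat_lit 14167243563797011497473) (nat_lit 79230580365903848331181883392) (nat_lit 5) (nat_lit 3)) .nil)) (.cons (.ev (nat_lit 1213666704899166584242176) (nat_lit 1)) (.cons (.rf (nat_lit 550) (nat_lit 493858305440582043680)) .nil)))) (.cons (.ev (nat_lit 309489732188110512875110401) (nat_lit 1)) (.cons (.kr (nat_lit 20282410812577490602625891041280) (nat_lit 309489750778687200155402240) (nat_lit 5) (nat_lit 0)) (.cons (.ev (nat_lit 18447025548703039489) (nat_lit 1)) .nil))))) .nil)))),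
 (.br (nat_lit 2) (nat_lit 0) (.cons (.rf (nat_lit 390) (nat_lit 426892007146560)) (.cons (.rf (nat_lit 553) (nat_lit 493858305440582043680)) (.cons (.rf (nat_lit 554) (nat_lit 493858305440582043680)) (.cons (.br (nat_lit 2) (nat_lit 0) (.cons (.rf (nat_lit 477) (nat_lit 281216002)) (.cons (.rf (nat_lit 553) (nat_lit 493858305440582043680)) (.cons (.rf (nat_lit 554) (nat_lit 493858305440582043680)) .nil)))) .nil))))),
 (.br (nat_lit 2) (nat_lit 0) (.cons (.rf (nat_lit 479) (nat_lit 14246339355264288800)) (.cons (.rf (nat_lit 553) (nat_lit 493858305440582043680)) (.cons (.rf (nat_lit 555) (nat_lit 493858305440582043680)) (.cons (.br (nat_lit 2) (nat_lit 0) (.cons (.rf (nat_lit 479) (nat_lit 14246339355264288800)) (.cons (.rf (nat_lit 553) (nat_lit 493858305440582043680)) (.cons (.rf (nat_lit 555) (nat_lit 493858305440582043680)) .nil)))) .nil))))),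
 (.br (nat_lit 2) (nat_lit 0) (.cons (.rf (nat_lit 479) (nat_lit 14246339355264288800)) (.cons (.rf (nat_lit 553) (nat_lit 493858305440582043680)) (.cons (.rf (nat_lit 555) (nat_lit 493858305440582043680)) (.cons (.rf (nat_lit 556) (nat_lit 493858305440582043680)) (.cons (.br (nat_lit 2) (nat_lit 0) (.cons (.rf (nat_lit 479) (nat_lit 14246339355264288800)) (.cons (.rf (nat_lit 553) (nat_lit 493858305440582043680)) (.cons (.rf (nat_lit 555) (nat_lit 493858305440582043680)) (.cons (.rf (nat_lit 556) (nat_lit 493858305440582043680)) .nil))))) .nil)))))),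
 (.br (nat_lit 2) (nat_lit 0) (.cons (.rf (nat_lit 477) (nat_lit 175309826)) (.cons (.rf (nat_lit 557) (nat_lit 493858305440582042688)) (.cons (.br (nat_lit 3) (nat_lit 0) (.cons (.rf (nat_lit 557) (nat_lit 493858305440582043680)) (.cons (.br (nat_lit 1) (nat_lit 0) (.cons (.ev (nat_lit 20282720321291811560472661065730) (nat_lit 3)) (.cons (.br (nat_lit 1) (nat_lit 0) (.cons (.ev (nat_lit 20282412045189363367434378150145) (nat_lit 3)) .nil)) .nil))) (.cons (.br (nat_lit 1) (nat_lit 0) (.cons (.br (nat_lit 1) (nat_lit 0) (.cons (.zr (nat_lit 14167243563797011497473) (nat_lit 79230580365903848331181883392) (nat_lit 5) (nat_lit 3)) .nil)) (.cons (.br (nat_lit 1) (nat_lit 0) (.cons (.zr (nat_lit 14167243563797011497473) (nat_lit 79230580365903848331181883392) (nat_lit 5) (nat_lit 3)) .nil)) .nil))) (.cons (.rf (nat_lit 538) (nat_lit 13836501456619552)) .nil))))) .nil)))),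
 (.br (nat_lit 2) (nat_lit 0) (.cons (.rf (nat_lit 390) (nat_lit 426892007146560)) (.cons (.rf (nat_lit 557) (nat_lit 493858305440582042688)) (.cons (.rf (nat_lit 558) (nat_lit 493858305440582043680)) (.cons (.br (nat_lit 2) (nat_lit 0) (.cons (.rf (nat_lit 477) (nat_lit 281216002)) (.cons (.rf (nat_lit 557) (nat_lit 493858305440582042688)) (.cons (.rf (nat_lit 558) (nat_lit 493858305440582043680)) .nil)))) .nil))))),
 (.br (nat_lit 2) (nat_lit 0) (.cons (.rf (nat_lit 549) (nat_lit 493858305440582043680)) (.cons (.rf (nat_lit 557) (nat_lit 493858305440582042688)) (.cons (.rf (nat_lit 559) (nat_lit 493858305440582043680)) (.cons (.br (nat_lit 2) (nat_lit 0) (.cons (.rf (nat_lit 526) (nat_lit 373885859298466300930)) (.cons (.ev (nat_lit 1213666632842672057942016) (nat_lit 1)) (.cons (.rf (nat_lit 559) (nat_lit 493858305440582043680)) .nil)))) .nil))))),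
 (.br (nat_lit 2) (nat_lit 0) (.cons (.rf (nat_lit 549) (nat_lit 493858305440582043680)) (.cons (.rf (nat_lit 557) (nat_lit 493858305440582042688)) (.cons (.rf (nat_lit 559) (nat_lit 493858305440582043680)) (.cons (.rf (nat_lit 560) (nat_lit 493858305440582043680)) (.cons (.br (nat_lit 2) (nat_lit 0) (.cons (.rf (nat_lit 549) (nat_lit 493858305440582043680)) (.cons (.rf (nat_lit 557) (nat_lit 493858305440582042688)) (.cons (.rf (nat_lit 559) (nat_lit 493858305440582043680)) (.cons (.rf (nat_lit 560) (nat_lit 493858305440582043680)) .nil))))) .nil)))))),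
 (.br (nat_lit 3) (nat_lit 0) (.cons (.rf (nat_lit 557) (nat_lit 493858305440582042688)) (.cons (.ev (nat_lit 309489732188110512875110401) (nat_lit 1)) (.cons (.br (nat_lit 2) (nat_lit 0) (.cons (.rf (nat_lit 561) (nat_lit 493858305440582042688)) (.cons (.br (nat_lit 2) (nat_lit 0) (.cons (.zr (nat_lit 14167243563797011628033) (nat_lit 79230580365903848331181818112) (nat_lit 5) (nat_lit 3)) .nil)) .nil))) (.cons (.ev (nat_lit 18447025548703039489) (nat_lit 1)) .nil))))),
 (.br (nat_lit 2) (nat_lit 0) (.cons (.ev (nat_lit 1213666704899166584176896) (nat_lit 1)) (.cons (.rf (nat_lit 561) (nat_lit 493858305440582042688)) (.cons (.rf (nat_lit 562) (nat_lit 493858305440582043680)) (.cons (.br (nat_lit 2) (nat_lit 0) (.cons (.ev (nat_lit 1213666704899166584176896) (nat_lit 1)) (.cons (.rf (nat_lit 561) (nat_lit 493858305440582042688)) (.cons (.rf (nat_lit 562) (nat_lit 493858305440582043680)) .nil)))) .nil))))),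
 (.br (nat_lit 1) (nat_lit 0) (.cons (.rf (nat_lit 477) (nat_lit 175310849)) (.cons (.rf (nat_lit 557) (nat_lit 493858305440582043680)) (.cons (.rf (nat_lit 561) (nat_lit 493858305440582043680)) (.cons (.br (nat_lit 2) (nat_lit 0) (.cons (.rf (nat_lit 557) (nat_lit 493858305440582042688)) (.cons (.rf (nat_lit 561) (nat_lit 493858305440582042688)) (.cons (.rf (nat_lit 562) (nat_lit 493858305440582043680)) (.cons (.rf (nat_lit 563) (nat_lit 493858305440582043680)) (.cons (.br (nat_lit 2) (nat_lit 0) (.cons (.rf (nat_lit 557) (nat_lit 493858305440582042688)) (.cons (.rf (nat_lit 561) (nat_lit 493858305440582042688)) (.cons (.rf (nat_lit 562) (nat_lit 493858305440582043680)) (.cons (.rf (nat_lit 563) (nat_lit 493858305440582043680)) .nil))))) .nil)))))) .nil))))),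
 (.br (nat_lit 1) (nat_lit 0) (.cons (.rf (nat_lit 390) (nat_lit 426892007147552)) (.cons (.rf (nat_lit 557) (nat_lit 493858305440582043680)) (.cons (.rf (nat_lit 561) (nat_lit 493858305440582043680)) (.cons (.rf (nat_lit 564) (nat_lit 493858305440582043680)) (.cons (.br (nat_lit 1) (nat_lit 0) (.cons (.rf (nat_lit 477) (nat_lit 281217025)) (.cons (.rf (nat_lit 557) (nat_lit 493858305440582043680)) (.cons (.rf (nat_lit 561) (nat_lit 493858305440582043680)) (.cons (.rf (nat_lit 564) (nat_lit 493858305440582043680)) .nil))))) .nil)))))),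
 (.br (nat_lit 1) (nat_lit 0) (.cons (.rf (nat_lit 549) (nat_lit 493858305440582043680)) (.cons (.rf (nat_lit 557) (nat_lit 493858305440582043680)) (.cons (.rf (nat_lit 561) (nat_lit 493858305440582043680)) (.cons (.rf (nat_lit 565) (nat_lit 493858305440582043680)) (.cons (.br (nat_lit 1) (nat_lit 0) (.cons (.rf (nat_lit 526) (nat_lit 373885859298466301953)) (.cons (.ev (nat_lit 1213666632842672057876736) (nat_lit 1)) (.cons (.rf (nat_lit 561) (nat_lit 493858305440582043680)) (.cons (.rf (nat_lit 565) (nat_lit 493858305440582043680)) .nil))))) .nil))))))]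

theorem c17 : chkAll C T R L17 (nat_lit 542) = true := by decide +kernel

theorem l17 : (nat_lit 542) + L17.length = (nat_lit 567) := by decide +kernel

/-- part of the certificates -/
def L18 : List Prf := [(.br (nat_lit 10) (nat_lit 1) (.cons (.br (nat_lit 11) (nat_lit 1) (.cons (.br (nat_lit 1) (nat_lit 0) (.cons (.rf (nat_lit 549) (nat_lit 493858305440582043680)) (.cons (.rf (nat_lit 557) (nat_lit 493858305440582043680)) (.cons (.rf (nat_lit 561) (nat_lit 493858305440582043680)) (.cons (.rf (nat_lit 565) (nat_lit 493858305440582043680)) (.cons (.rf (nat_lit 566) (nat_lit 493858305440582043680)) (.cons (.br (nat_lit 1) (nat_lit 0) (.cons (.rf (nat_lit 549) (nat_lit 493858305440582043680)) (.cons (.rf (nat_lit 557) (nat_lit 493858305440582043680)) (.cons (.rf (nat_lit 561) (nat_lit 493858305440582043680)) (.cons (.rf (nat_lit 565) (nat_lit 493858305440582043680)) (.cons (.rf (nat_lit 566) (nat_lit 493858305440582043680)) .nil)))))) .nil))))))) .nil)) .nil)),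
 (.br (nat_lit 9) (nat_lit 1) (.cons (.rf (nat_lit 2) (nat_lit 9477)) (.cons (.br (nat_lit 5) (nat_lit 1) (.cons (.rf (nat_lit 12) (nat_lit 11871400)) (.cons (.rf (nat_lit 12) (nat_lit 10855592)) (.cons (.br (nat_lit 10) (nat_lit 1) (.cons (.rf (nat_lit 548) (nat_lit 493858305440582043680)) (.cons (.br (nat_lit 10) (nat_lit 1) (.cons (.rf (nat_lit 548) (nat_lit 493858305440582043680)) .nil)) .nil))) .nil)))) (.cons (.br (nat_lit 5) (nat_lit 1) (.cons (.rf (nat_lit 12) (nat_lit 13968552)) (.cons (.br (nat_lit 10) (nat_lit 1) (.cons (.rf (nat_lit 567) (nat_lit 493858305440582043680)) (.cons (.br (nat_lit 10) (nat_lit 1) (.cons (.rf (nat_lit 567) (nat_lit 493858305440582043680)) .nil)) .nil))) (.cons (.rf (nat_lit 12) (nat_lit 10921128)) .nil)))) .nil)))),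
 (.br (nat_lit 1) (nat_lit 0) (.cons (.kr (nat_lit 1) (nat_lit 256) (nat_lit 0) (nat_lit 2)) (.cons (.rf (nat_lit 477) (nat_lit 174163969)) (.cons (.rf (nat_lit 477) (nat_lit 175212545)) (.cons (.rf (nat_lit 568) (nat_lit 373957846661198874625)) .nil))))),
 (.br (nat_lit 2) (nat_lit 0) (.cons (.kr (nat_lit 309489732187829037881623042) (nat_lit 20282410812595936782650135805952) (nat_lit 0) (nat_lit 3)) (.cons (.kr (nat_lit 929663973730393909058601474) (nat_lit 60847228815677377755810910961664) (nat_lit 0) (nat_lit 3)) (.cons (.rf (nat_lit 477) (nat_lit 175309826)) (.cons (.kr (nat_lit 256) (nat_lit 65536) (nat_lit 1) (nat_lit 0)) .nil))))),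
 (.br (nat_lit 1) (nat_lit 0) (.cons (.rf (nat_lit 477) (nat_lit 175212545)) (.cons (.rf (nat_lit 568) (nat_lit 335981274861128517633)) (.cons (.rf (nat_lit 477) (nat_lit 175310849)) (.cons (.br (nat_lit 2) (nat_lit 0) (.cons (.rf (nat_lit 569) (nat_lit 493858305440582042688)) (.cons (.rf (nat_lit 569) (nat_lit 414377685374576231488)) (.cons (.rf (nat_lit 390) (nat_lit 426892007146560)) (.cons (.rf (nat_lit 570) (nat_lit 493858305440582043680)) (.cons (.rf (nat_lit 570) (nat_lit 414377685374576232480)) .nil)))))) .nil))))),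
 (.br (nat_lit 1) (nat_lit 0) (.cons (.rf (nat_lit 569) (nat_lit 493858305440582043680)) (.cons (.rf (nat_lit 569) (nat_lit 414377685374576232480)) (.cons (.rf (nat_lit 390) (nat_lit 426892007147552)) (.cons (.rf (nat_lit 571) (nat_lit 493858305440582043680)) (.cons (.rf (nat_lit 571) (nat_lit 414377685374576232480)) .nil)))))),
 (.br (nat_lit 6) (nat_lit 0) (.cons (.br (nat_lit 1) (nat_lit 0) (.cons (.kr (nat_lit 310693954087703771609039360) (nat_lit 20282409608374036907916408258560) (nat_lit 1) (nat_lit 0)) (.cons (.br (nat_lit 2) (nat_lit 0) (.cons (.zr (nat_lit 60847230024603197369357821019136) (nat_lit 1547425104447523813240864774) (nat_lit 10) (nat_lit 0)) (.cons (.zr (nat_lit 1213648186097516067161088) (nat_lit 20282719088716832567485593026566) (nat_lit 10) (nat_lit 0)) .nil))) (.cons (.br (nat_lit 2) (nat_lit 0) (.cons (.zr (nat_lit 1213648186097516067161088) (nat_lit 20282719088716832567485593026566) (nat_lit 10) (nat_lit 0)) (.cons (.zr (nat_lit 929668677650132722241504256)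 (nat_lit 101412048018313692918205873389574) (nat_lit 10) (nat_lit 0)) .nil))) .nil)))) (.cons (.ev (nat_lit 282578783305729) (nat_lit 1)) (.cons (.ev (nat_lit 1213666633123051801149441) (nat_lit 1)) .nil)))),
 (.br (nat_lit 2) (nat_lit 0) (.cons (.kr (nat_lit 310693954087703771609039360) (nat_lit 20282409608374036907916408258560) (nat_lit 1) (nat_lit 0)) (.cons (.rf (nat_lit 573) (nat_lit 414377685374576231488)) (.cons (.br (nat_lit 6) (nat_lit 0) (.cons (.rf (nat_lit 573) (nat_lit 493858305440582043680)) (.cons (.br (nat_lit 1) (nat_lit 0) (.cons (.ev (nat_lit 282578783305729) (nat_lit 1)) .nil)) .nil))) .nil)))),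
 (.br (nat_lit 1) (nat_lit 0) (.cons (.rf (nat_lit 477) (nat_lit 175212545)) (.cons (.rf (nat_lit 573) (nat_lit 493858305440582043680)) (.cons (.br (nat_lit 2) (nat_lit 0) (.cons (.rf (nat_lit 573) (nat_lit 414377685374576231488)) (.cons (.rf (nat_lit 574) (nat_lit 414377685374576231488)) (.cons (.rf (nat_lit 574) (nat_lit 493858305440582043680)) .nil)))) .nil)))),
 (.br (nat_lit 1) (nat_lit 0) (.cons (.rf (nat_lit 569) (nat_lit 493858305440582043680)) (.cons (.rf (nat_lit 573) (nat_lit 493858305440582043680)) (.cons (.rf (nat_lit 575) (nat_lit 493858305440582043680)) (.cons (.br (nat_lit 1) (nat_lit 0) (.cons (.rf (nat_lit 568) (nat_lit 373957846661198874625)) (.cons (.rf (nat_lit 573) (nat_lit 493858305440582043680)) (.cons (.rf (nat_lit 575) (nat_lit 493858305440582043680)) .nil)))) .nil))))),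
 (.br (nat_lit 2) (nat_lit 0) (.cons (.rf (nat_lit 477) (nat_lit 175309826)) (.cons (.rf (nat_lit 576) (nat_lit 493858305440582043680)) (.cons (.br (nat_lit 6) (nat_lit 0) (.cons (.br (nat_lit 4) (nat_lit 0) (.cons (.ev (nat_lit 20283963097033941921220167599620) (nat_lit 3)) (.cons (.ev (nat_lit 282578783305729) (nat_lit 1)) (.cons (.ev (nat_lit 1213666633123051801149441) (nat_lit 1)) .nil)))) (.cons (.br (nat_lit 7) (nat_lit 0) (.cons (.br (nat_lit 1) (nat_lit 0) (.cons (.ev (nat_lit 310703435715004282305511681) (nat_lit 2)) .nil)) (.cons (.zr (nat_lit 61005686344964843910166732603392) (nat_lit 1547429771474334113175961600) (nat_lit 10) (nat_lit 12)) .nil))) (.cons (.ev (nat_lit 1213648186380073325035521) (nat_lit 1)) (.cons (.ev (nat_lit 18447025548703039489) (nat_lit 1)) .nil))))) .nil)))),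
 (.br (nat_lit 2) (nat_lit 0) (.cons (.rf (nat_lit 390) (nat_lit 426892007146560)) (.cons (.rf (nat_lit 576) (nat_lit 493858305440582043680)) (.cons (.rf (nat_lit 577) (nat_lit 493858305440582043680)) (.cons (.br (nat_lit 2) (nat_lit 0) (.cons (.rf (nat_lit 477) (nat_lit 281216002)) (.cons (.rf (nat_lit 576) (nat_lit 493858305440582043680)) (.cons (.rf (nat_lit 577) (nat_lit 493858305440582043680)) .nil)))) .nil))))),
 (.br (nat_lit 2) (nat_lit 0) (.cons (.rf (nat_lit 569) (nat_lit 493858305440582043680)) (.cons (.rf (nat_lit 576) (nat_lit 493858305440582043680)) (.cons (.rf (nat_lit 578) (nat_lit 493858305440582043680)) (.cons (.br (nat_lit 2) (nat_lit 0) (.cons (.rf (nat_lit 569) (nat_lit 493858305440582043680)) (.cons (.rf (nat_lit 576) (nat_lit 493858305440582043680)) (.cons (.rf (nat_lit 578) (nat_lit 493858305440582043680)) .nil)))) .nil))))),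
 (.br (nat_lit 2) (nat_lit 0) (.cons (.rf (nat_lit 569) (nat_lit 493858305440582043680)) (.cons (.rf (nat_lit 576) (nat_lit 493858305440582043680)) (.cons (.rf (nat_lit 578) (nat_lit 493858305440582043680)) (.cons (.rf (nat_lit 579) (nat_lit 493858305440582043680)) (.cons (.br (nat_lit 2) (nat_lit 0) (.cons (.rf (nat_lit 569) (nat_lit 493858305440582043680)) (.cons (.rf (nat_lit 576) (nat_lit 493858305440582043680)) (.cons (.rf (nat_lit 578) (nat_lit 493858305440582043680)) (.cons (.rf (nat_lit 579) (nat_lit 493858305440582043680)) .nil))))) .nil)))))),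
 (.br (nat_lit 2) (nat_lit 0) (.cons (.ev (nat_lit 21869793301911668490992945334792) (nat_lit 5)) .nil)),
 (.br (nat_lit 3) (nat_lit 0) (.cons (.rf (nat_lit 580) (nat_lit 493858305440582042688)) (.cons (.br (nat_lit 2) (nat_lit 0) (.cons (.rf (nat_lit 581) (nat_lit 493858305440582043680)) (.cons (.rf (nat_lit 581) (nat_lit 414377685374576232480)) .nil))) (.cons (.ev (nat_lit 1213648186380073325035521) (nat_lit 1)) (.cons (.ev (nat_lit 18447025548703039489) (nat_lit 1)) .nil))))),
 (.br (nat_lit 2) (nat_lit 0) (.cons (.rf (nat_lit 580) (nat_lit 493858305440582042688)) (.cons (.rf (nat_lit 580) (nat_lit 414377685374576231488)) (.cons (.rf (nat_lit 582) (nat_lit 493858305440582043680)) (.cons (.br (nat_lit 2) (nat_lit 0) (.cons (.rf (nat_lit 580) (nat_lit 493858305440582042688)) (.cons (.rf (nat_lit 580) (nat_lit 414377685374576231488)) (.cons (.rf (nat_lit 582) (nat_lit 493858305440582043680)) .nil)))) .nil))))),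
 (.br (nat_lit 1) (nat_lit 0) (.cons (.rf (nat_lit 477) (nat_lit 175310849)) (.cons (.rf (nat_lit 580) (nat_lit 493858305440582043680)) (.cons (.rf (nat_lit 580) (nat_lit 414377685374576232480)) (.cons (.br (nat_lit 2) (nat_lit 0) (.cons (.rf (nat_lit 580) (nat_lit 493858305440582042688)) (.cons (.rf (nat_lit 580) (nat_lit 414377685374576231488)) (.cons (.rf (nat_lit 582) (nat_lit 493858305440582043680)) (.cons (.rf (nat_lit 583) (nat_lit 493858305440582043680)) (.cons (.rf (nat_lit 583) (nat_lit 414377685374576232480)) .nil)))))) .nil))))),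
 (.br (nat_lit 1) (nat_lit 0) (.cons (.rf (nat_lit 390) (nat_lit 426892007147552)) (.cons (.rf (nat_lit 580) (nat_lit 493858305440582043680)) (.cons (.rf (nat_lit 580) (nat_lit 414377685374576232480)) (.cons (.rf (nat_lit 584) (nat_lit 493858305440582043680)) (.cons (.rf (nat_lit 584) (nat_lit 414377685374576232480)) .nil)))))),
 (.br (nat_lit 1) (nat_lit 0) (.cons (.rf (nat_lit 572) (nat_lit 493858305440582043680)) (.cons (.rf (nat_lit 580) (nat_lit 493858305440582043680)) (.cons (.rf (nat_lit 580) (nat_lit 414377685374576232480)) (.cons (.rf (nat_lit 585) (nat_lit 493858305440582043680)) (.cons (.br (nat_lit 1) (nat_lit 0) (.cons (.rf (nat_lit 572) (nat_lit 493858305440582043680)) (.cons (.rf (nat_lit 580) (nat_lit 493858305440582043680)) (.cons (.rf (nat_lit 580) (nat_lit 414377685374576232480)) (.cons (.rf (nat_lit 585) (nat_lit 493858305440582043680)) .nil))))) .nil)))))),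
 (.br (nat_lit 10) (nat_lit 1) (.cons (.br (nat_lit 11) (nat_lit 1) (.cons (.br (nat_lit 1) (nat_lit 0) (.cons (.rf (nat_lit 572) (nat_lit 493858305440582043680)) (.cons (.rf (nat_lit 580) (nat_lit 493858305440582043680)) (.cons (.rf (nat_lit 580) (nat_lit 414377685374576232480)) (.cons (.rf (nat_lit 585) (nat_lit 493858305440582043680)) (.cons (.rf (nat_lit 586) (nat_lit 493858305440582043680)) (.cons (.rf (nat_lit 586) (nat_lit 414377685374576232480)) .nil))))))) .nil)) .nil)),
 (.br (nat_lit 9) (nat_lit 1) (.cons (.rf (nat_lit 2) (nat_lit 9477)) (.cons (.rf (nat_lit 568) (nat_lit 493858305440582043680)) (.cons (.br (nat_lit 5) (nat_lit 1) (.cons (.br (nat_lit 10) (nat_lit 1) (.cons (.rf (nat_lit 587) (nat_lit 493858305440582043680)) (.cons (.br (nat_lit 10) (nat_lit 1) (.cons (.rf (nat_lit 587) (nat_lit 493858305440582043680)) .nil)) .nil))) (.cons (.rf (nat_lit 12) (nat_lit 14001320)) (.cons (.rf (nat_lit 12) (nat_lit 11969704)) .nil)))) .nil)))),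
 (.br (nat_lit 9) (nat_lit 1) (.cons (.rf (nat_lit 2) (nat_lit 9477)) (.cons (.rf (nat_lit 568) (nat_lit 493858305440582043680)) (.cons (.rf (nat_lit 588) (nat_lit 493858305440582043680)) (.cons (.br (nat_lit 9) (nat_lit 1) (.cons (.rf (nat_lit 2) (nat_lit 9477)) (.cons (.rf (nat_lit 568) (nat_lit 493858305440582043680)) (.cons (.rf (nat_lit 588) (nat_lit 493858305440582043680)) .nil)))) .nil))))),
 (.br (nat_lit 1) (nat_lit 0) (.cons (.kr (nat_lit 1) (nat_lit 256) (nat_lit 0) (nat_lit 2)) (.cons (.rf (nat_lit 477) (nat_lit 174163969)) (.cons (.rf (nat_lit 477) (nat_lit 175212545)) (.cons (.rf (nat_lit 589) (nat_lit 414269704261757962241)) .nil))))),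
 (.br (nat_lit 1) (nat_lit 0) (.cons (.rf (nat_lit 477) (nat_lit 175212545)) (.cons (.rf (nat_lit 589) (nat_lit 493786318077849470977)) (.cons (.rf (nat_lit 477) (nat_lit 175310849)) (.cons (.rf (nat_lit 589) (nat_lit 373885859298466301953)) .nil))))),
 (.br (nat_lit 1) (nat_lit 0) (.cons (.rf (nat_lit 590) (nat_lit 493858305440582043680)) (.cons (.rf (nat_lit 590) (nat_lit 414377685374576232480)) (.cons (.rf (nat_lit 390) (nat_lit 426892007147552)) (.cons (.rf (nat_lit 591) (nat_lit 493858305440582043680)) (.cons (.rf (nat_lit 591) (nat_lit 414377685374576232480)) .nil)))))),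
 (.br (nat_lit 2) (nat_lit 0) (.cons (.ev (nat_lit 4722438823042483290368) (nat_lit 1)) (.cons (.br (nat_lit 7) (nat_lit 0) (.cons (.ev (nat_lit 20282720302328413409429415921152) (nat_lit 3)) .nil)) .nil))),
 (.br (nat_lit 2) (nat_lit 0) (.cons (.br (nat_lit 7) (nat_lit 0) (.cons (.ev (nat_lit 20282725156921157799424695861760) (nat_lit 3)) .nil)) (.cons (.ev (nat_lit 79537647542532427839801655296) (nat_lit 1)) .nil))),
 (.br (nat_lit 1) (nat_lit 0) (.cons (.rf (nat_lit 477) (nat_lit 174163969)) (.cons (.br (nat_lit 2) (nat_lit 0) (.cons (.rf (nat_lit 593) (nat_lit 493858305440582043680)) (.cons (.ev (nat_lit 310698658079500165894373376) (nat_lit 1)) (.cons (.br (nat_lit 2) (nat_lit 0) (.cons (.rf (nat_lit 593) (nat_lit 493858305440582043680)) (.cons (.ev (nat_lit 310698658079500165894373376) (nat_lit 1)) .nil))) .nil)))) (.cons (.br (nat_lit 2) (nat_lit 0) (.cons (.rf (nat_lit 594) (nat_lit 493858305440582043680)) (.cons (.br (nat_lit 2) (nat_lit 0) (.cons (.rf (nat_lit 594) (nat_lit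 493858305440582043680)) (.cons (.ev (nat_lit 79537647542532427839801655296) (nat_lit 1)) .nil))) (.cons (.ev (nat_lit 79537647542532427839801655296) (nat_lit 1)) .nil)))) .nil)))),
 (.br (nat_lit 2) (nat_lit 0) (.cons (.rf (nat_lit 477) (nat_lit 175212545)) (.cons (.rf (nat_lit 595) (nat_lit 414377685374576231488)) (.cons (.ev (nat_lit 310698658079500165894373376) (nat_lit 1)) (.cons (.br (nat_lit 1) (nat_lit 0) (.cons (.kr (nat_lit 20282410812595936782650135544320) (nat_lit 309489732187829037881753600) (nat_lit 1) (nat_lit 0)) (.cons (.rf (nat_lit 595) (nat_lit 493858305440582043680)) (.cons (.ev (nat_lit 79537647542532427839801655296) (nat_lit 1)) .nil)))) .nil))))),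
 (.br (nat_lit 1) (nat_lit 0) (.cons (.rf (nat_lit 590) (nat_lit 493858305440582043680)) (.cons (.rf (nat_lit 595) (nat_lit 493858305440582043680)) (.cons (.rf (nat_lit 596) (nat_lit 493858305440582043680)) (.cons (.br (nat_lit 1) (nat_lit 0) (.cons (.rf (nat_lit 591) (nat_lit 414377685374576232480)) (.cons (.rf (nat_lit 595) (nat_lit 493858305440582043680)) (.cons (.rf (nat_lit 596) (nat_lit 493858305440582043680)) .nil)))) .nil)))))]

theorem c18 : chkAll C T R L18 (nat_lit 567) = true := by decide +kernel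

theorem l18 : (nat_lit 567) + L18.length = (nat_lit 598) := by decide +kernel

/-- part of the certificates -/
def L19 : List Prf := [(.br (nat_lit 6) (nat_lit 0) (.cons (.zr (nat_lit 14167100011558889062913) (nat_lit 79230580365975624450243100672) (nat_lit 5) (nat_lit 3)) .nil)),
 (.br (nat_lit 1) (nat_lit 0) (.cons (.br (nat_lit 7) (nat_lit 0) (.cons (.ev (nat_lit 79537652302008854217779904770) (nat_lit 2)) .nil)) (.cons (.rf (nat_lit 598) (nat_lit 493858305440582043680)) (.cons (.rf (nat_lit 598) (nat_lit 414377685374576232480)) .nil)))),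
 (.br (nat_lit 4) (nat_lit 0) (.cons (.ev (nat_lit 79537647524085682666580541696) (nat_lit 1)) .nil)),
 (.br (nat_lit 4) (nat_lit 0) (.cons (.ev (nat_lit 309485009893402667074519296) (nat_lit 1)) .nil)),
 (.br (nat_lit 4) (nat_lit 0) (.cons (.zr (nat_lit 14167100011558889062913) (nat_lit 79230580365975624450243100672) (nat_lit 5) (nat_lit 3)) .nil)),
 (.br (nat_lit 1) (nat_lit 0) (.cons (.rf (nat_lit 598) (nat_lit 493858305440582043680)) (.cons (.rf (nat_lit 600) (nat_lit 15431909825759512608)) (.cons (.rf (nat_lit 602) (nat_lit 493858305440582043680)) .nil)))),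
 (.br (nat_lit 2) (nat_lit 0) (.cons (.rf (nat_lit 477) (nat_lit 175309826)) (.cons (.rf (nat_lit 597) (nat_lit 493858305440582043680)) (.cons (.br (nat_lit 1) (nat_lit 0) (.cons (.rf (nat_lit 599) (nat_lit 493858305440582043680)) (.cons (.br (nat_lit 1) (nat_lit 0) (.cons (.rf (nat_lit 599) (nat_lit 493858305440582043680)) (.cons (.rf (nat_lit 600) (nat_lit 15431909825759512608)) (.cons (.rf (nat_lit 601) (nat_lit 14242959524133701664)) .nil)))) (.cons (.rf (nat_lit 603) (nat_lit 493858305440582043680)) (.cons (.br (nat_lit 1) (nat_lit 0) (.cons (.rf (nat_lit 598) (nat_lit 414377685374576232480)) (.cons (.rf (nat_lit 601) (nat_lit 14242959524133701664)) (.cons (.rf (nat_lit 602) (nat_lit 493858305440582043680)) .nil)))) .nil))))) .nil)))),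
 (.br (nat_lit 2) (nat_lit 0) (.cons (.rf (nat_lit 390) (nat_lit 426892007146560)) (.cons (.rf (nat_lit 597) (nat_lit 493858305440582043680)) (.cons (.rf (nat_lit 604) (nat_lit 493858305440582043680)) (.cons (.br (nat_lit 2) (nat_lit 0) (.cons (.rf (nat_lit 477) (nat_lit 281216002)) (.cons (.rf (nat_lit 597) (nat_lit 493858305440582043680)) (.cons (.rf (nat_lit 604) (nat_lit 493858305440582043680)) .nil)))) .nil))))),
 (.br (nat_lit 2) (nat_lit 0) (.cons (.rf (nat_lit 591) (nat_lit 493858305440582042688)) (.cons (.rf (nat_lit 597) (nat_lit 493858305440582043680)) (.cons (.rf (nat_lit 605) (nat_lit 493858305440582043680)) (.cons (.br (nat_lit 2) (nat_lit 0) (.cons (.rf (nat_lit 591) (nat_lit 414377685374576231488)) (.cons (.rf (nat_lit 597) (nat_lit 493858305440582043680)) (.cons (.rf (nat_lit 605) (nat_lit 493858305440582043680)) .nil)))) .nil))))),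
 (.br (nat_lit 2) (nat_lit 0) (.cons (.rf (nat_lit 590) (nat_lit 493858305440582043680)) (.cons (.rf (nat_lit 597) (nat_lit 493858305440582043680)) (.cons (.rf (nat_lit 605) (nat_lit 493858305440582043680)) (.cons (.rf (nat_lit 606) (nat_lit 493858305440582043680)) (.cons (.br (nat_lit 2) (nat_lit 0) (.cons (.rf (nat_lit 591) (nat_lit 414377685374576231488)) (.cons (.rf (nat_lit 597) (nat_lit 493858305440582043680)) (.cons (.rf (nat_lit 605) (nat_lit 493858305440582043680)) (.cons (.rf (nat_lit 606) (nat_lit 493858305440582043680)) .nil))))) .nil)))))),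
 (.br (nat_lit 2) (nat_lit 0) (.cons (.rf (nat_lit 600) (nat_lit 15431909825759511616)) (.cons (.rf (nat_lit 601) (nat_lit 8549315752966095936)) (.cons (.rf (nat_lit 518) (nat_lit 493858305440582043680)) .nil)))),
 (.br (nat_lit 2) (nat_lit 0) (.cons (.rf (nat_lit 607) (nat_lit 493858305440582042688)) (.cons (.rf (nat_lit 607) (nat_lit 414377685374576231488)) (.cons (.rf (nat_lit 608) (nat_lit 493858305440582043680)) (.cons (.rf (nat_lit 608) (nat_lit 414377685374576232480)) .nil))))),
 (.br (nat_lit 2) (nat_lit 0) (.cons (.rf (nat_lit 607) (nat_lit 493858305440582042688)) (.cons (.rf (nat_lit 607) (nat_lit 414377685374576231488)) (.cons (.rf (nat_lit 609) (nat_lit 493858305440582043680)) (.cons (.br (nat_lit 2) (nat_lit 0) (.cons (.rf (nat_lit 607) (nat_lit 493858305440582042688)) (.cons (.rf (nat_lit 607) (nat_lit 414377685374576231488)) (.cons (.rf (nat_lit 518) (nat_lit 493858305440582043680)) .nil)))) .nil))))),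
 (.br (nat_lit 1) (nat_lit 0) (.cons (.rf (nat_lit 477) (nat_lit 175310849)) (.cons (.rf (nat_lit 607) (nat_lit 493858305440582043680)) (.cons (.rf (nat_lit 607) (nat_lit 414377685374576232480)) (.cons (.br (nat_lit 2) (nat_lit 0) (.cons (.rf (nat_lit 607) (nat_lit 493858305440582042688)) (.cons (.rf (nat_lit 607) (nat_lit 414377685374576231488)) (.cons (.rf (nat_lit 609) (nat_lit 493858305440582043680)) (.cons (.rf (nat_lit 610) (nat_lit 493858305440582043680)) (.cons (.rf (nat_lit 610) (nat_lit 414377685374576232480)) .nil)))))) .nil))))),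
 (.br (nat_lit 1) (nat_lit 0) (.cons (.rf (nat_lit 390) (nat_lit 426892007147552)) (.cons (.rf (nat_lit 607) (nat_lit 493858305440582043680)) (.cons (.rf (nat_lit 607) (nat_lit 414377685374576232480)) (.cons (.rf (nat_lit 611) (nat_lit 493858305440582043680)) (.cons (.rf (nat_lit 611) (nat_lit 414377685374576232480)) .nil)))))),
 (.br (nat_lit 1) (nat_lit 0) (.cons (.rf (nat_lit 591) (nat_lit 493858305440582043680)) (.cons (.rf (nat_lit 607) (nat_lit 493858305440582043680)) (.cons (.rf (nat_lit 607) (nat_lit 414377685374576232480)) (.cons (.rf (nat_lit 612) (nat_lit 493858305440582043680)) (.cons (.br (nat_lit 1) (nat_lit 0) (.cons (.rf (nat_lit 591) (nat_lit 414377685374576232480)) (.cons (.rf (nat_lit 607) (nat_lit 493858305440582043680)) (.cons (.rf (nat_lit 607) (nat_lit 414377685374576232480)) (.cons (.rf (nat_lit 612) (nat_lit 493858305440582043680)) .nil))))) .nil)))))),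
 (.br (nat_lit 10) (nat_lit 1) (.cons (.rf (nat_lit 591) (nat_lit 414269704261757962241)) (.cons (.rf (nat_lit 156) (nat_lit 12709705144475782)) (.cons (.br (nat_lit 9) (nat_lit 1) (.cons (.rf (nat_lit 526) (nat_lit 493858305440582043680)) (.cons (.rf (nat_lit 591) (nat_lit 493786318077849470977)) (.cons (.br (nat_lit 5) (nat_lit 1) (.cons (.br (nat_lit 11) (nat_lit 1) (.cons (.kr (nat_lit 20282410812577490039675937619968) (nat_lit 309489750634572012079546368) (nat_lit 5) (nat_lit 0)) .nil)) (.cons (.rf (nat_lit 156) (nat_lit 15002050559579366)) (.cons (.br (nat_lit 8) (nat_lit 1) (.cons (.br (nat_lit 1) (nat_lit 0) (.cons (.rf (nat_lit 592) (nat_lit 493858305440582043680)) (.cons (.rf (nat_lit 607) (nat_lit 493858305440582043680)) (.cons (.rf (nat_lit 607) (nat_lit 414377685374576232480)) (.cons (.rf (nat_lit 612) (nat_lit 493858305440582043680)) (.cons (.rf (nat_lit 613) (nat_lit 493858305440582043680)) (.cons (.rf (nat_lit 613) (nat_lit 414377685374576232480)) .nil))))))) .nil)) .nil))))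 .nil)))) .nil)))),
 (.br (nat_lit 9) (nat_lit 1) (.cons (.rf (nat_lit 156) (nat_lit 15002119212078182)) (.cons (.rf (nat_lit 591) (nat_lit 493786318077849470977)) (.cons (.br (nat_lit 10) (nat_lit 1) (.cons (.rf (nat_lit 591) (nat_lit 414269704261757962241)) (.cons (.rf (nat_lit 526) (nat_lit 414377685374576232480)) (.cons (.rf (nat_lit 614) (nat_lit 414377685374576232480)) (.cons (.rf (nat_lit 614) (nat_lit 493858305440582043680)) .nil))))) .nil)))),
 (.br (nat_lit 9) (nat_lit 1) (.cons (.rf (nat_lit 526) (nat_lit 493858305440582043680)) (.cons (.rf (nat_lit 591) (nat_lit 493786318077849470977)) (.cons (.rf (nat_lit 615) (nat_lit 493858305440582043680)) (.cons (.br (nat_lit 9) (nat_lit 1) (.cons (.rf (nat_lit 526) (nat_lit 493858305440582043680)) (.cons (.rf (nat_lit 591) (nat_lit 493786318077849470977)) (.cons (.rf (nat_lit 615) (nat_lit 493858305440582043680)) .nil)))) .nil))))),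
 (.br (nat_lit 9) (nat_lit 1) (.cons (.rf (nat_lit 156) (nat_lit 15002119212078182)) (.cons (.rf (nat_lit 591) (nat_lit 493786318077849470977)) (.cons (.rf (nat_lit 616) (nat_lit 493858305440582043680)) (.cons (.br (nat_lit 9) (nat_lit 1) (.cons (.rf (nat_lit 156) (nat_lit 15002119212078182)) (.cons (.rf (nat_lit 591) (nat_lit 493786318077849470977)) (.cons (.rf (nat_lit 616) (nat_lit 493858305440582043680)) .nil)))) .nil))))),
 (.br (nat_lit 7) (nat_lit 1) (.cons (.br (nat_lit 5) (nat_lit 1) (.cons (.rf (nat_lit 1) (nat_lit 8492262)) (.cons (.rf (nat_lit 71) (nat_lit 348202964070)) (.cons (.rf (nat_lit 499) (nat_lit 11584701642934304)) (.cons (.br (nat_lit 8) (nat_lit 1) (.cons (.rf (nat_lit 499) (nat_lit 10490687672944672)) (.cons (.rf (nat_lit 71) (nat_lit 312799895686)) (.cons (.rf (nat_lit 2) (nat_lit 11525)) (.cons (.rf (nat_lit 500) (nat_lit 434660630008963)) .nil))))) .nil))))) (.cons (.br (nat_lit 8) (nat_lit 0) (.cons (.br (nat_lit 12) (nat_lit 1) (.cons (.br (nat_lit 9) (nat_lit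 1) (.cons (.rf (nat_lit 526) (nat_lit 493858305440582043680)) (.cons (.rf (nat_lit 591) (nat_lit 493786318077849470977)) (.cons (.rf (nat_lit 616) (nat_lit 493858305440582043680)) (.cons (.rf (nat_lit 617) (nat_lit 493858305440582043680)) (.cons (.br (nat_lit 9) (nat_lit 1) (.cons (.rf (nat_lit 526) (nat_lit 493858305440582043680)) (.cons (.rf (nat_lit 591) (nat_lit 493786318077849470977)) (.cons (.rf (nat_lit 616) (nat_lit 493858305440582043680)) (.cons (.rf (nat_lit 617) (nat_lit 493858305440582043680)) .nil))))) .nil)))))) .nil)) .nil)) .nil))),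
 (.br (nat_lit 3) (nat_lit 1) (.cons (.rf (nat_lit 477) (nat_lit 272730144)) (.cons (.br (nat_lit 4) (nat_lit 1) (.cons (.br (nat_lit 6) (nat_lit 1) (.cons (.rf (nat_lit 618) (nat_lit 11584701642934304)) (.cons (.br (nat_lit 7) (nat_lit 1) (.cons (.rf (nat_lit 618) (nat_lit 11584668356937760)) (.cons (.rf (nat_lit 471) (nat_lit 150702625987)) .nil))) .nil))) .nil)) .nil))),
 (.br (nat_lit 1) (nat_lit 1) (.cons (.kr (nat_lit 256) (nat_lit 4294967296) (nat_lit 1) (nat_lit 0)) (.cons (.br (nat_lit 5) (nat_lit 1) (.cons (.rf (nat_lit 2) (nat_lit 5249)) (.cons (.br (nat_lit 5) (nat_lit 1) (.cons (.rf (nat_lit 2) (nat_lit 5249)) (.cons (.rf (nat_lit 10) (nat_lit 247132685376)) .nil))) .nil))) .nil))),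
 (.br (nat_lit 2) (nat_lit 0) (.cons (.rf (nat_lit 477) (nat_lit 175211522)) (.cons (.rf (nat_lit 477) (nat_lit 175309826)) (.cons (.rf (nat_lit 619) (nat_lit 9005650117634)) .nil)))),
 (.br (nat_lit 2) (nat_lit 0) (.cons (.rf (nat_lit 621) (nat_lit 325566209394720)) (.cons (.rf (nat_lit 621) (nat_lit 325669288511520)) (.cons (.rf (nat_lit 621) (nat_lit 325702574508064)) (.cons (.rf (nat_lit 621) (nat_lit 252104115587104)) .nil))))),
 (.br (nat_lit 1) (nat_lit 0) (.cons (.rf (nat_lit 477) (nat_lit 174163969)) (.cons (.rf (nat_lit 622) (nat_lit 325702574508064)) (.cons (.rf (nat_lit 477) (nat_lit 175310849)) (.cons (.rf (nat_lit 477) (nat_lit 278071297)) .nil))))),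
 (.br (nat_lit 1) (nat_lit 0) (.cons (.rf (nat_lit 477) (nat_lit 175212545)) (.cons (.rf (nat_lit 622) (nat_lit 325702574508064)) (.cons (.rf (nat_lit 477) (nat_lit 175310849)) (.cons (.rf (nat_lit 619) (nat_lit 9005650118657)) .nil))))),
 (.br (nat_lit 1) (nat_lit 0) (.cons (.rf (nat_lit 623) (nat_lit 325699353380896)) (.cons (.rf (nat_lit 622) (nat_lit 325702574508064)) (.cons (.rf (nat_lit 623) (nat_lit 325702574508064)) (.cons (.rf (nat_lit 624) (nat_lit 325702574508064)) (.cons (.rf (nat_lit 624) (nat_lit 252104115587104)) .nil)))))),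
 (.br (nat_lit 2) (nat_lit 0) (.cons (.ev (nat_lit 4740885566012386181376) (nat_lit 1)) (.cons (.br (nat_lit 7) (nat_lit 0) (.cons (.ev (nat_lit 20361637766203044703949633552386) (nat_lit 2)) .nil)) .nil))),
 (.br (nat_lit 2) (nat_lit 0) (.cons (.ev (nat_lit 20282720297587383723813693817088) (nat_lit 1)) (.cons (.br (nat_lit 6) (nat_lit 0) (.cons (.ev (nat_lit 20362259154037433137397036679680) (nat_lit 2)) .nil)) .nil))),
 (.br (nat_lit 7) (nat_lit 0) (.cons (.br (nat_lit 7) (nat_lit 0) (.cons (.ev (nat_lit 20282720302402200381309027746304) (nat_lit 3)) .nil)) (.cons (.br (nat_lit 2) (nat_lit 0) (.cons (.ev (nat_lit 20282720302402200381309027746304) (nat_lit 3)) .nil)) .nil))),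
 (.br (nat_lit 2) (nat_lit 0) (.cons (.rf (nat_lit 628) (nat_lit 493858305440582043680)) (.cons (.br (nat_lit 6) (nat_lit 0) (.cons (.ev (nat_lit 620193168046947408751558659) (nat_lit 2)) .nil)) .nil))),
 (.br (nat_lit 1) (nat_lit 0) (.cons (.rf (nat_lit 477) (nat_lit 174163969)) (.cons (.br (nat_lit 2) (nat_lit 0) (.cons (.rf (nat_lit 626) (nat_lit 493858305440582043680)) (.cons (.rf (nat_lit 627) (nat_lit 493858305440582043680)) (.cons (.br (nat_lit 2) (nat_lit 0) (.cons (.rf (nat_lit 626) (nat_lit 493858305440582043680)) (.cons (.rf (nat_lit 627) (nat_lit 493858305440582043680)) .nil))) .nil)))) (.cons (.br (nat_lit 2) (nat_lit 0) (.cons (.rf (nat_lit 628) (nat_lit 493858305440582043680)) (.cons (.rf (nat_lit 629) (nat_lit 493858305440582043680)) (.cons (.br (nat_lit 2) (nat_lit 0) (.cons (.rf (nat_lit 628) (nat_lit 493858305440582043680)) (.cons (.rf (nat_lit 629) (nat_lit 493858305440582043680)) .nil))) .nil)))) .nil)))),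
 (.br (nat_lit 2) (nat_lit 0) (.cons (.ev (nat_lit 20282410817299928579040125976576) (nat_lit 1)) (.cons (.br (nat_lit 6) (nat_lit 0) (.cons (.ev (nat_lit 20361638975091754657649258397953) (nat_lit 1)) .nil)) .nil))),
 (.br (nat_lit 1) (nat_lit 0) (.cons (.kr (nat_lit 20282719088661491770115487694850) (nat_lit 1213666632841572529472000) (nat_lit 0) (nat_lit 2)) (.cons (.rf (nat_lit 630) (nat_lit 493858305440582043680)) (.cons (.br (nat_lit 2) (nat_lit 0) (.cons (.rf (nat_lit 631) (nat_lit 493858305440582043680)) (.cons (.rf (nat_lit 318) (nat_lit 489283669769628780576)) (.cons (.br (nat_lit 2) (nat_lit 0) (.cons (.rf (nat_lit 631) (nat_lit 493858305440582043680)) (.cons (.rf (nat_lit 318) (nat_lit 489283669769628780576)) .nil))) .nil)))) .nil)))),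
 (.br (nat_lit 1) (nat_lit 0) (.cons (.rf (nat_lit 621) (nat_lit 433318348915776)) (.cons (.rf (nat_lit 630) (nat_lit 493858305440582043680)) (.cons (.rf (nat_lit 632) (nat_lit 493858305440582043680)) (.cons (.br (nat_lit 1) (nat_lit 0) (.cons (.kr (nat_lit 20282409603651670423947251286017) (nat_lit 4722366482869645213952) (nat_lit 0) (nat_lit 2)) (.cons (.rf (nat_lit 630) (nat_lit 493858305440582043680)) (.cons (.rf (nat_lit 632) (nat_lit 493858305440582043680)) .nil)))) .nil)))))]

theorem c19 : chkAll C T R L19 (nat_lit 598) = true := by decide +kernel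

theorem l19 : (nat_lit 598) + L19.length = (nat_lit 634) := by decide +kernel

/-- part of the certificates -/
def L20 : List Prf := [(.br (nat_lit 1) (nat_lit 0) (.cons (.br (nat_lit 7) (nat_lit 0) (.cons (.ev (nat_lit 20282720302402200381309027746304) (nat_lit 3)) .nil)) (.cons (.ev (nat_lit 1208925891672223229476864) (nat_lit 1)) (.cons (.br (nat_lit 6) (nat_lit 0) (.cons (.ev (nat_lit 310698658079782736087744768) (nat_lit 1)) .nil)) .nil)))),
 (.br (nat_lit 1) (nat_lit 0) (.cons (.rf (nat_lit 634) (nat_lit 493858305440582043680)) (.cons (.ev (nat_lit 4740885566012386181376) (nat_lit 1)) (.cons (.br (nat_lit 4) (nat_lit 0) (.cons (.ev (nat_lit 20283341709199842848429757040128) (nat_lit 3)) .nil)) .nil)))),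
 (.br (nat_lit 2) (nat_lit 0) (.cons (.rf (nat_lit 477) (nat_lit 175309826)) (.cons (.rf (nat_lit 633) (nat_lit 493858305440582043680)) (.cons (.br (nat_lit 1) (nat_lit 0) (.cons (.rf (nat_lit 634) (nat_lit 493858305440582043680)) (.cons (.rf (nat_lit 635) (nat_lit 493858305440582043680)) (.cons (.ev (nat_lit 1208925891672223229476864) (nat_lit 1)) (.cons (.br (nat_lit 1) (nat_lit 0) (.cons (.rf (nat_lit 634) (nat_lit 493858305440582043680)) (.cons (.rf (nat_lit 635) (nat_lit 493858305440582043680)) (.cons (.ev (nat_lit 1208925891672223229476864) (nat_lit 1)) .nil)))) .nil))))) .nil)))),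
 (.br (nat_lit 2) (nat_lit 0) (.cons (.rf (nat_lit 625) (nat_lit 433454714030112)) (.cons (.rf (nat_lit 633) (nat_lit 493858305440582043680)) (.cons (.rf (nat_lit 636) (nat_lit 493858305440582043680)) (.cons (.br (nat_lit 2) (nat_lit 0) (.cons (.rf (nat_lit 477) (nat_lit 348324866)) (.cons (.rf (nat_lit 633) (nat_lit 493858305440582043680)) (.cons (.rf (nat_lit 636) (nat_lit 493858305440582043680)) .nil)))) .nil))))),
 (.br (nat_lit 2) (nat_lit 0) (.cons (.rf (nat_lit 625) (nat_lit 433454714030112)) (.cons (.rf (nat_lit 633) (nat_lit 493858305440582043680)) (.cons (.rf (nat_lit 637) (nat_lit 493858305440582043680)) (.cons (.br (nat_lit 2) (nat_lit 0) (.cons (.rf (nat_lit 619) (nat_lit 11204676518914)) (.cons (.rf (nat_lit 633) (nat_lit 493858305440582043680)) (.cons (.rf (nat_lit 637) (nat_lit 493858305440582043680)) .nil)))) .nil))))),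
 (.br (nat_lit 2) (nat_lit 0) (.cons (.rf (nat_lit 625) (nat_lit 433454714030112)) (.cons (.rf (nat_lit 633) (nat_lit 493858305440582043680)) (.cons (.rf (nat_lit 637) (nat_lit 493858305440582043680)) (.cons (.rf (nat_lit 638) (nat_lit 493858305440582043680)) (.cons (.br (nat_lit 2) (nat_lit 0) (.cons (.rf (nat_lit 625) (nat_lit 433454714030112)) (.cons (.rf (nat_lit 633) (nat_lit 493858305440582043680)) (.cons (.rf (nat_lit 637) (nat_lit 493858305440582043680)) (.cons (.rf (nat_lit 638) (nat_lit 493858305440582043680)) .nil))))) .nil)))))),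
 (.br (nat_lit 3) (nat_lit 0) (.cons (.ev (nat_lit 79538856449905298395266875648) (nat_lit 1)) .nil)),
 (.br (nat_lit 1) (nat_lit 0) (.cons (.rf (nat_lit 639) (nat_lit 493858305440582043680)) (.cons (.rf (nat_lit 640) (nat_lit 493858305440582043680)) (.cons (.br (nat_lit 3) (nat_lit 0) (.cons (.ev (nat_lit 310698658079782736087744768) (nat_lit 1)) .nil)) .nil)))),
 (.br (nat_lit 1) (nat_lit 0) (.cons (.ev (nat_lit 1208925891672223229476864) (nat_lit 1)) (.cons (.rf (nat_lit 640) (nat_lit 493858305440582043680)) (.cons (.br (nat_lit 3) (nat_lit 0) (.cons (.ev (nat_lit 310698658079782736087744768) (nat_lit 1)) .nil)) .nil)))),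
 (.br (nat_lit 2) (nat_lit 0) (.cons (.rf (nat_lit 477) (nat_lit 175309826)) (.cons (.rf (nat_lit 639) (nat_lit 493858305440582042688)) (.cons (.br (nat_lit 1) (nat_lit 0) (.cons (.rf (nat_lit 639) (nat_lit 493858305440582043680)) (.cons (.rf (nat_lit 641) (nat_lit 493858305440582043680)) (.cons (.rf (nat_lit 642) (nat_lit 493858305440582043680)) (.cons (.br (nat_lit 1) (nat_lit 0) (.cons (.rf (nat_lit 639) (nat_lit 493858305440582043680)) (.cons (.rf (nat_lit 641) (nat_lit 493858305440582043680)) (.cons (.rf (nat_lit 642) (nat_lit 493858305440582043680)) .nil)))) .nil))))) .nil)))),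
 (.br (nat_lit 2) (nat_lit 0) (.cons (.rf (nat_lit 621) (nat_lit 433421428033568)) (.cons (.rf (nat_lit 639) (nat_lit 493858305440582042688)) (.cons (.rf (nat_lit 643) (nat_lit 493858305440582043680)) (.cons (.br (nat_lit 2) (nat_lit 0) (.cons (.rf (nat_lit 477) (nat_lit 348324866)) (.cons (.rf (nat_lit 639) (nat_lit 493858305440582042688)) (.cons (.rf (nat_lit 643) (nat_lit 493858305440582043680)) .nil)))) .nil))))),
 (.br (nat_lit 2) (nat_lit 0) (.cons (.rf (nat_lit 621) (nat_lit 433454714030112)) (.cons (.rf (nat_lit 639) (nat_lit 493858305440582042688)) (.cons (.rf (nat_lit 644) (nat_lit 493858305440582043680)) (.cons (.br (nat_lit 2) (nat_lit 0) (.cons (.rf (nat_lit 619) (nat_lit 11204676518914)) (.cons (.rf (nat_lit 639) (nat_lit 493858305440582042688)) (.cons (.rf (nat_lit 644) (nat_lit 493858305440582043680)) .nil)))) .nil))))),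
 (.br (nat_lit 2) (nat_lit 0) (.cons (.rf (nat_lit 622) (nat_lit 433454714030112)) (.cons (.rf (nat_lit 639) (nat_lit 493858305440582042688)) (.cons (.rf (nat_lit 644) (nat_lit 493858305440582043680)) (.cons (.rf (nat_lit 645) (nat_lit 493858305440582043680)) (.cons (.br (nat_lit 2) (nat_lit 0) (.cons (.rf (nat_lit 621) (nat_lit 252207261911072)) (.cons (.rf (nat_lit 639) (nat_lit 493858305440582042688)) (.cons (.rf (nat_lit 644) (nat_lit 493858305440582043680)) (.cons (.rf (nat_lit 645) (nat_lit 493858305440582043680)) .nil))))) .nil)))))),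
 (.br (nat_lit 2) (nat_lit 0) (.cons (.ev (nat_lit 4740885566012386246656) (nat_lit 1)) (.cons (.rf (nat_lit 646) (nat_lit 493858305440582042688)) (.cons (.br (nat_lit 3) (nat_lit 0) (.cons (.ev (nat_lit 79538856449905298395266875648) (nat_lit 1)) .nil)) .nil)))),
 (.br (nat_lit 2) (nat_lit 0) (.cons (.rf (nat_lit 639) (nat_lit 493858305440582042688)) (.cons (.rf (nat_lit 646) (nat_lit 493858305440582042688)) (.cons (.rf (nat_lit 647) (nat_lit 493858305440582043680)) (.cons (.br (nat_lit 2) (nat_lit 0) (.cons (.rf (nat_lit 639) (nat_lit 493858305440582042688)) (.cons (.rf (nat_lit 646) (nat_lit 493858305440582042688)) (.cons (.rf (nat_lit 647) (nat_lit 493858305440582043680)) .nil)))) .nil))))),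
 (.br (nat_lit 2) (nat_lit 0) (.cons (.ev (nat_lit 1208925891672223229411584) (nat_lit 1)) (.cons (.rf (nat_lit 646) (nat_lit 493858305440582042688)) (.cons (.rf (nat_lit 648) (nat_lit 493858305440582043680)) (.cons (.br (nat_lit 2) (nat_lit 0) (.cons (.ev (nat_lit 1208925891672223229411584) (nat_lit 1)) (.cons (.rf (nat_lit 646) (nat_lit 493858305440582042688)) (.cons (.rf (nat_lit 648) (nat_lit 493858305440582043680)) .nil)))) .nil))))),
 (.br (nat_lit 1) (nat_lit 0) (.cons (.rf (nat_lit 477) (nat_lit 175310849)) (.cons (.rf (nat_lit 639) (nat_lit 493858305440582043680)) (.cons (.rf (nat_lit 646) (nat_lit 493858305440582043680)) (.cons (.br (nat_lit 2) (nat_lit 0) (.cons (.rf (nat_lit 639) (nat_lit 493858305440582042688)) (.cons (.rf (nat_lit 646) (nat_lit 493858305440582042688)) (.cons (.rf (nat_lit 648) (nat_lit 493858305440582043680)) (.cons (.rf (nat_lit 649) (nat_lit 493858305440582043680)) (.cons (.br (nat_lit 2) (nat_lit 0) (.cons (.rf (nat_lit 639) (nat_lit 493858305440582042688))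 (.cons (.rf (nat_lit 646) (nat_lit 493858305440582042688)) (.cons (.rf (nat_lit 648) (nat_lit 493858305440582043680)) (.cons (.rf (nat_lit 649) (nat_lit 493858305440582043680)) .nil))))) .nil)))))) .nil))))),
 (.br (nat_lit 1) (nat_lit 0) (.cons (.rf (nat_lit 625) (nat_lit 433454714030112)) (.cons (.rf (nat_lit 639) (nat_lit 493858305440582043680)) (.cons (.rf (nat_lit 646) (nat_lit 493858305440582043680)) (.cons (.rf (nat_lit 650) (nat_lit 493858305440582043680)) (.cons (.br (nat_lit 1) (nat_lit 0) (.cons (.rf (nat_lit 477) (nat_lit 348325889)) (.cons (.rf (nat_lit 639) (nat_lit 493858305440582043680)) (.cons (.rf (nat_lit 646) (nat_lit 493858305440582043680)) (.cons (.rf (nat_lit 650) (nat_lit 493858305440582043680)) .nil))))) .nil)))))),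
 (.br (nat_lit 1) (nat_lit 0) (.cons (.rf (nat_lit 625) (nat_lit 433454714030112)) (.cons (.rf (nat_lit 639) (nat_lit 493858305440582043680)) (.cons (.rf (nat_lit 646) (nat_lit 493858305440582043680)) (.cons (.rf (nat_lit 651) (nat_lit 493858305440582043680)) (.cons (.br (nat_lit 1) (nat_lit 0) (.cons (.rf (nat_lit 619) (nat_lit 11204676519937)) (.cons (.rf (nat_lit 639) (nat_lit 493858305440582043680)) (.cons (.rf (nat_lit 646) (nat_lit 493858305440582043680)) (.cons (.rf (nat_lit 651) (nat_lit 493858305440582043680)) .nil))))) .nil)))))),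
 (.br (nat_lit 9) (nat_lit 1) (.cons (.br (nat_lit 11) (nat_lit 1) (.cons (.br (nat_lit 1) (nat_lit 0) (.cons (.rf (nat_lit 625) (nat_lit 433454714030112)) (.cons (.rf (nat_lit 639) (nat_lit 493858305440582043680)) (.cons (.rf (nat_lit 646) (nat_lit 493858305440582043680)) (.cons (.rf (nat_lit 651) (nat_lit 493858305440582043680)) (.cons (.rf (nat_lit 652) (nat_lit 493858305440582043680)) (.cons (.br (nat_lit 1) (nat_lit 0) (.cons (.rf (nat_lit 625) (nat_lit 433454714030112)) (.cons (.rf (nat_lit 639) (nat_lit 493858305440582043680)) (.cons (.rf (nat_lit 646) (nat_lit 493858305440582043680)) (.cons (.rf (nat_lit 651) (nat_lit 493858305440582043680)) (.cons (.rf (nat_lit 652) (nat_lit 493858305440582043680)) .nil)))))) .nil))))))) .nil)) .nil)),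
 (.br (nat_lit 8) (nat_lit 1) (.cons (.rf (nat_lit 12) (nat_lit 9806149)) (.cons (.br (nat_lit 9) (nat_lit 1) (.cons (.rf (nat_lit 653) (nat_lit 493858305440582043680)) (.cons (.br (nat_lit 9) (nat_lit 1) (.cons (.rf (nat_lit 653) (nat_lit 493858305440582043680)) .nil)) .nil))) .nil))),
 (.br (nat_lit 8) (nat_lit 1) (.cons (.rf (nat_lit 654) (nat_lit 493858305440582043680)) (.cons (.rf (nat_lit 12) (nat_lit 9710762)) (.cons (.br (nat_lit 8) (nat_lit 1) (.cons (.rf (nat_lit 654) (nat_lit 493858305440582043680)) (.cons (.rf (nat_lit 12) (nat_lit 14000453)) .nil))) .nil)))),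
 (.br (nat_lit 10) (nat_lit 1) (.cons (.rf (nat_lit 2) (nat_lit 8517)) (.cons (.rf (nat_lit 500) (nat_lit 325914271520135)) (.cons (.br (nat_lit 9) (nat_lit 1) (.cons (.rf (nat_lit 654) (nat_lit 493858305440582043680)) (.cons (.rf (nat_lit 655) (nat_lit 493858305440582043680)) (.cons (.br (nat_lit 9) (nat_lit 1) (.cons (.rf (nat_lit 654) (nat_lit 493858305440582043680)) (.cons (.rf (nat_lit 655) (nat_lit 493858305440582043680)) .nil))) .nil)))) (.cons (.rf (nat_lit 71) (nat_lit 385914972547)) .nil))))),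
 (.br (nat_lit 5) (nat_lit 1) (.cons (.rf (nat_lit 111) (nat_lit 102930468)) (.cons (.rf (nat_lit 12) (nat_lit 2298916)) .nil))),
 (.br (nat_lit 2) (nat_lit 1) (.cons (.br (nat_lit 2) (nat_lit 1) (.cons (.rf (nat_lit 657) (nat_lit 6614517792)) (.cons (.rf (nat_lit 657) (nat_lit 5571184768)) .nil))) (.cons (.rf (nat_lit 657) (nat_lit 6614517792)) (.cons (.rf (nat_lit 657) (nat_lit 5571184768)) .nil)))),
 (.br (nat_lit 7) (nat_lit 1) (.cons (.rf (nat_lit 620) (nat_lit 10721443)) (.cons (.br (nat_lit 10) (nat_lit 0) (.cons (.br (nat_lit 12) (nat_lit 1) (.cons (.br (nat_lit 5) (nat_lit 1) (.cons (.rf (nat_lit 656) (nat_lit 493858305440582043680)) (.cons (.rf (nat_lit 656) (nat_lit 493858271355721582624)) (.cons (.rf (nat_lit 1) (nat_lit 10720451)) (.cons (.rf (nat_lit 71) (nat_lit 459941287139)) (.cons (.br (nat_lit 10) (nat_lit 1) (.cons (.rf (nat_lit 656) (nat_lit 414373149889179781152)) (.cons (.rf (nat_lit 656) (nat_lit 414373115804319320096)) (.cons (.rf (nat_lit 658) (nat_lit 14338531492))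 (.cons (.rf (nat_lit 2) (nat_lit 13637)) .nil))))) .nil)))))) .nil)) .nil)) .nil))),
 (.br (nat_lit 7) (nat_lit 0) (.cons (.ev (nat_lit 1208944266641277389373441) (nat_lit 1)) (.cons (.kr (nat_lit 20283338058736474691374554284034) (nat_lit 1223093063179525697961984) (nat_lit 0) (nat_lit 1)) .nil))),
 (.br (nat_lit 2) (nat_lit 0) (.cons (.ev (nat_lit 4740885566012386181376) (nat_lit 1)) (.cons (.rf (nat_lit 660) (nat_lit 493858305440582043680)) .nil))),
 (.br (nat_lit 7) (nat_lit 0) (.cons (.ev (nat_lit 20282725156994656545326202226180) (nat_lit 3)) (.cons (.br (nat_lit 2) (nat_lit 0) (.cons (.ev (nat_lit 1223167066891552670483207) (nat_lit 3)) .nil)) .nil))),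
 (.br (nat_lit 2) (nat_lit 0) (.cons (.ev (nat_lit 20282725156994656545326202226180) (nat_lit 3)) (.cons (.rf (nat_lit 660) (nat_lit 493858305407296047136)) .nil))),
 (.br (nat_lit 1) (nat_lit 0) (.cons (.rf (nat_lit 477) (nat_lit 174163969)) (.cons (.br (nat_lit 6) (nat_lit 0) (.cons (.rf (nat_lit 661) (nat_lit 493858305440582043680)) (.cons (.kr (nat_lit 281474976710656) (nat_lit 72057594037927936) (nat_lit 6) (nat_lit 0)) (.cons (.br (nat_lit 7) (nat_lit 0) (.cons (.rf (nat_lit 661) (nat_lit 493858305407296047136)) (.cons (.ev (nat_lit 4740885566012386181376) (nat_lit 1)) .nil))) .nil)))) (.cons (.br (nat_lit 2) (nat_lit 0) (.cons (.rf (nat_lit 662) (nat_lit 493858305440582043680)) (.cons (.rf (nat_lit 663) (nat_lit 493858305440582043680)) (.cons (.br (nat_lit 2) (nat_lit 0) (.cons (.rf (nat_lit 662) (nat_lit 493858305440582043680)) (.cons (.rf (nat_lit 660) (nat_lit 493858305407296047136)) .nil))) .nil)))) .nil)))),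
 (.br (nat_lit 1) (nat_lit 0) (.cons (.rf (nat_lit 621) (nat_lit 434417860543552)) (.cons (.rf (nat_lit 664) (nat_lit 493858305440582043680)) (.cons (.rf (nat_lit 664) (nat_lit 493858305407296047136)) (.cons (.br (nat_lit 1) (nat_lit 0) (.cons (.kr (nat_lit 20282409603651670423947251286017) (nat_lit 4722366482869645213952) (nat_lit 0) (nat_lit 2)) (.cons (.rf (nat_lit 664) (nat_lit 493858305440582043680)) (.cons (.rf (nat_lit 664) (nat_lit 493858305407296047136)) .nil)))) .nil))))),
 (.br (nat_lit 1) (nat_lit 0) (.cons (.ev (nat_lit 20282722748588183751072254656518) (nat_lit 3)) (.cons (.br (nat_lit 1) (nat_lit 0) (.cons (.ev (nat_lit 20282413230503350563317280538885) (nat_lit 3)) .nil)) .nil)))]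

theorem c20 : chkAll C T R L20 (nat_lit 634) = true := by decide +kernel

theorem l20 : (nat_lit 634) + L20.length = (nat_lit 667) := by decide +kernel

/-- part of the certificates -/
def L21 : List Prf := [(.br (nat_lit 2) (nat_lit 0) (.cons (.rf (nat_lit 477) (nat_lit 175309826)) (.cons (.rf (nat_lit 665) (nat_lit 493858305440582043680)) (.cons (.br (nat_lit 6) (nat_lit 0) (.cons (.br (nat_lit 1) (nat_lit 0) (.cons (.ev (nat_lit 20283958261256876486391517808132) (nat_lit 3)) (.cons (.ev (nat_lit 4740885566012386181376) (nat_lit 1)) (.cons (.ev (nat_lit 20284579630275587090555085390340) (nat_lit 3)) .nil)))) (.cons (.rf (nat_lit 666) (nat_lit 493858305440582043680)) (.cons (.ev (nat_lit 1208944266641277389373441) (nat_lit 1)) (.cons (.br (nat_lit 7) (nat_lit 0) (.cons (.ev (nat_lit 20283339300792791341623691837442) (nat_lit 3)) (.cons (.rf (nat_lit 666) (nat_lit 493858305407296047136)) .nil))) .nil))))) .nil)))),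
 (.br (nat_lit 2) (nat_lit 0) (.cons (.rf (nat_lit 625) (nat_lit 434417860544544)) (.cons (.rf (nat_lit 665) (nat_lit 493858305440582043680)) (.cons (.rf (nat_lit 667) (nat_lit 493858305440582043680)) (.cons (.br (nat_lit 2) (nat_lit 0) (.cons (.rf (nat_lit 477) (nat_lit 381879298)) (.cons (.rf (nat_lit 665) (nat_lit 493858305440582043680)) (.cons (.rf (nat_lit 667) (nat_lit 493858305440582043680)) .nil)))) .nil))))),
 (.br (nat_lit 2) (nat_lit 0) (.cons (.rf (nat_lit 625) (nat_lit 434417860544544)) (.cons (.rf (nat_lit 665) (nat_lit 493858305440582043680)) (.cons (.rf (nat_lit 668) (nat_lit 493858305440582043680)) (.cons (.rf (nat_lit 668) (nat_lit 493858305407296047136)) (.cons (.br (nat_lit 2) (nat_lit 0) (.cons (.rf (nat_lit 625) (nat_lit 434417860544544)) (.cons (.rf (nat_lit 665) (nat_lit 493858305440582043680)) (.cons (.rf (nat_lit 668) (nat_lit 493858305440582043680)) (.cons (.rf (nat_lit 668) (nat_lit 493858305407296047136)) .nil))))) .nil)))))),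
 (.br (nat_lit 2) (nat_lit 0) (.cons (.rf (nat_lit 477) (nat_lit 175309826)) (.cons (.rf (nat_lit 669) (nat_lit 493858305440582042688)) (.cons (.br (nat_lit 3) (nat_lit 0) (.cons (.rf (nat_lit 669) (nat_lit 493858305440582043680)) (.cons (.ev (nat_lit 309485009821626543718334464) (nat_lit 1)) (.cons (.ev (nat_lit 309485009893402662779551744) (nat_lit 1)) (.cons (.br (nat_lit 6) (nat_lit 0) (.cons (.br (nat_lit 1) (nat_lit 0) (.cons (.ev (nat_lit 4740813226943371608321) (nat_lit 1)) .nil)) (.cons (.kr (nat_lit 281474976710656) (nat_lit 72057594037927936) (nat_lit 6) (nat_lit 0)) .nil))) .nil))))) .nil)))),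
 (.br (nat_lit 2) (nat_lit 0) (.cons (.rf (nat_lit 621) (nat_lit 434520939661344)) (.cons (.rf (nat_lit 669) (nat_lit 493858305440582042688)) (.cons (.rf (nat_lit 670) (nat_lit 493858305440582043680)) (.cons (.br (nat_lit 2) (nat_lit 0) (.cons (.rf (nat_lit 477) (nat_lit 381879298)) (.cons (.rf (nat_lit 669) (nat_lit 493858305440582042688)) (.cons (.rf (nat_lit 670) (nat_lit 493858305440582043680)) .nil)))) .nil))))),
 (.br (nat_lit 2) (nat_lit 0) (.cons (.rf (nat_lit 622) (nat_lit 434417860544544)) (.cons (.rf (nat_lit 669) (nat_lit 493858305440582042688)) (.cons (.rf (nat_lit 671) (nat_lit 493858305440582043680)) (.cons (.rf (nat_lit 671) (nat_lit 493858305407296047136)) (.cons (.br (nat_lit 2) (nat_lit 0) (.cons (.rf (nat_lit 621) (nat_lit 111470880950304)) (.cons (.rf (nat_lit 669) (nat_lit 493858305440582042688)) (.cons (.rf (nat_lit 671) (nat_lit 493858305440582043680)) (.cons (.rf (nat_lit 671) (nat_lit 493858305407296047136)) .nil))))) .nil)))))),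
 (.br (nat_lit 2) (nat_lit 0) (.cons (.ev (nat_lit 4740813226943371608321) (nat_lit 1)) .nil)),
 (.br (nat_lit 2) (nat_lit 0) (.cons (.rf (nat_lit 673) (nat_lit 14242959524133701664)) (.cons (.rf (nat_lit 673) (nat_lit 14098844473496799264)) .nil))),
 (.br (nat_lit 2) (nat_lit 0) (.cons (.rf (nat_lit 672) (nat_lit 493858305440582042688)) (.cons (.br (nat_lit 2) (nat_lit 0) (.cons (.ev (nat_lit 4740813226943371608321) (nat_lit 1)) .nil)) .nil))),
 (.br (nat_lit 1) (nat_lit 0) (.cons (.rf (nat_lit 477) (nat_lit 175310849)) (.cons (.rf (nat_lit 669) (nat_lit 493858305440582043680)) (.cons (.rf (nat_lit 672) (nat_lit 493858305440582043680)) (.cons (.br (nat_lit 3) (nat_lit 0) (.cons (.rf (nat_lit 669) (nat_lit 493858305440582042688)) (.cons (.br (nat_lit 2) (nat_lit 0) (.cons (.rf (nat_lit 674) (nat_lit 15431909825759512608)) (.cons (.rf (nat_lit 674) (nat_lit 15431909792473516064)) (.cons (.rf (nat_lit 674) (nat_lit 15251765812747405344)) .nil)))) (.cons (.ev (nat_lit 309485009821626543718269184)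 (nat_lit 1)) (.cons (.ev (nat_lit 309485009893402662779486464) (nat_lit 1)) (.cons (.br (nat_lit 2) (nat_lit 0) (.cons (.rf (nat_lit 672) (nat_lit 493858305440582042688)) (.cons (.rf (nat_lit 675) (nat_lit 493858305440582043680)) (.cons (.rf (nat_lit 675) (nat_lit 493858305407296047136)) .nil)))) .nil)))))) .nil))))),
 (.br (nat_lit 1) (nat_lit 0) (.cons (.rf (nat_lit 625) (nat_lit 434417860544544)) (.cons (.rf (nat_lit 669) (nat_lit 493858305440582043680)) (.cons (.rf (nat_lit 672) (nat_lit 493858305440582043680)) (.cons (.rf (nat_lit 676) (nat_lit 493858305440582043680)) (.cons (.br (nat_lit 1) (nat_lit 0) (.cons (.rf (nat_lit 477) (nat_lit 381880321)) (.cons (.rf (nat_lit 669) (nat_lit 493858305440582043680)) (.cons (.rf (nat_lit 672) (nat_lit 493858305440582043680)) (.cons (.rf (nat_lit 676) (nat_lit 493858305440582043680)) .nil))))) .nil)))))),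
 (.br (nat_lit 9) (nat_lit 1) (.cons (.br (nat_lit 10) (nat_lit 1) (.cons (.br (nat_lit 1) (nat_lit 0) (.cons (.rf (nat_lit 625) (nat_lit 434417860544544)) (.cons (.rf (nat_lit 669) (nat_lit 493858305440582043680)) (.cons (.rf (nat_lit 672) (nat_lit 493858305440582043680)) (.cons (.rf (nat_lit 677) (nat_lit 493858305440582043680)) (.cons (.rf (nat_lit 677) (nat_lit 493858305407296047136)) (.cons (.br (nat_lit 1) (nat_lit 0) (.cons (.rf (nat_lit 625) (nat_lit 434417860544544)) (.cons (.rf (nat_lit 669) (nat_lit 493858305440582043680)) (.cons (.rf (nat_lit 672) (nat_lit 493858305440582043680)) (.cons (.rf (nat_lit 677) (nat_lit 493858305440582043680)) (.cons (.rf (nat_lit 677) (nat_lit 493858305407296047136)) .nil)))))) .nil))))))) .nil)) .nil)),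
 (.br (nat_lit 8) (nat_lit 1) (.cons (.rf (nat_lit 12) (nat_lit 9773413)) (.cons (.br (nat_lit 9) (nat_lit 1) (.cons (.rf (nat_lit 678) (nat_lit 493858305440582043680)) (.cons (.br (nat_lit 9) (nat_lit 1) (.cons (.rf (nat_lit 678) (nat_lit 493858305440582043680)) .nil)) .nil))) .nil))),
 (.br (nat_lit 8) (nat_lit 1) (.cons (.rf (nat_lit 679) (nat_lit 493858305440582043680)) (.cons (.rf (nat_lit 12) (nat_lit 9709739)) (.cons (.br (nat_lit 8) (nat_lit 1) (.cons (.rf (nat_lit 679) (nat_lit 493858305440582043680)) (.cons (.rf (nat_lit 12) (nat_lit 13967717)) .nil))) .nil)))),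
 (.br (nat_lit 11) (nat_lit 1) (.cons (.rf (nat_lit 2) (nat_lit 8549)) (.cons (.rf (nat_lit 500) (nat_lit 325913232479619)) (.cons (.br (nat_lit 9) (nat_lit 1) (.cons (.rf (nat_lit 679) (nat_lit 493858305440582043680)) (.cons (.rf (nat_lit 680) (nat_lit 493858305440582043680)) (.cons (.br (nat_lit 9) (nat_lit 1) (.cons (.rf (nat_lit 679) (nat_lit 493858305440582043680)) (.cons (.rf (nat_lit 680) (nat_lit 493858305440582043680)) .nil))) .nil)))) (.cons (.rf (nat_lit 71) (nat_lit 347260300678)) .nil))))),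
 (.br (nat_lit 1) (nat_lit 0) (.cons (.rf (nat_lit 477) (nat_lit 174163969)) (.cons (.br (nat_lit 6) (nat_lit 0) (.cons (.br (nat_lit 12) (nat_lit 0) (.cons (.ev (nat_lit 20282720321291378082428637021700) (nat_lit 3)) (.cons (.ev (nat_lit 20282725147513463565119830098438) (nat_lit 3)) .nil))) (.cons (.ev (nat_lit 1213666633123051817926913) (nat_lit 1)) (.cons (.br (nat_lit 2) (nat_lit 0) (.cons (.ev (nat_lit 20282725147513463565119830098438) (nat_lit 3)) (.cons (.br (nat_lit 2) (nat_lit 0) (.cons (.ev (nat_lit 2422592597984279468901895) (nat_lit 3)) .nil)) .nil))) .nil)))) (.cons (.br (nat_lit 6) (nat_lit 0) (.cons (.br (nat_lit 7) (nat_lit 0) (.cons (.ev (nat_lit 20282720321291378082428637021700) (nat_lit 3)) (.cons (.br (nat_lit 2) (nat_lit 0) (.cons (.ev (nat_lit 1237352324853876344096515) (nat_lit 3)) .nil)) .nil))) (.cons (.br (nat_lit 7) (nat_lit 0) (.cons (.br (nat_lit 2) (nat_lit 0) (.cons (.ev (nat_lit 1208925819615732998144256) (nat_lit 1)) .nil)) (.cons (.kr (nat_lit 20282719088679938514189197246464)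 (nat_lit 1213648330212686895775744) (nat_lit 5) (nat_lit 0)) .nil))) (.cons (.ev (nat_lit 1213666633123051817926913) (nat_lit 1)) .nil)))) .nil)))),
 (.br (nat_lit 1) (nat_lit 0) (.cons (.rf (nat_lit 621) (nat_lit 434417860543552)) (.cons (.rf (nat_lit 682) (nat_lit 493858305440582043680)) (.cons (.rf (nat_lit 682) (nat_lit 493858305407296047136)) (.cons (.br (nat_lit 1) (nat_lit 0) (.cons (.kr (nat_lit 20282720297587311383645150773250) (nat_lit 4740813228042866393600) (nat_lit 0) (nat_lit 2)) (.cons (.rf (nat_lit 682) (nat_lit 493858305440582043680)) (.cons (.rf (nat_lit 682) (nat_lit 493858305407296047136)) .nil)))) .nil))))),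
 (.br (nat_lit 7) (nat_lit 0) (.cons (.zr (nat_lit 20282719088679939358614127575552) (nat_lit 158456325028744847977825173505) (nat_lit 10) (nat_lit 6)) .nil)),
 (.br (nat_lit 1) (nat_lit 0) (.cons (.br (nat_lit 1) (nat_lit 0) (.cons (.zr (nat_lit 60848157265984475588522904912130) (nat_lit 79228162551229885538336047104) (nat_lit 5) (nat_lit 12)) .nil)) (.cons (.br (nat_lit 1) (nat_lit 0) (.cons (.zr (nat_lit 60848157265984475588522904912130) (nat_lit 79228162551229885538336047104) (nat_lit 5) (nat_lit 12)) .nil)) .nil))),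
 (.br (nat_lit 2) (nat_lit 0) (.cons (.rf (nat_lit 477) (nat_lit 175309826)) (.cons (.rf (nat_lit 683) (nat_lit 493858305440582043680)) (.cons (.br (nat_lit 4) (nat_lit 0) (.cons (.br (nat_lit 1) (nat_lit 0) (.cons (.rf (nat_lit 684) (nat_lit 493858305440582043680)) (.cons (.rf (nat_lit 684) (nat_lit 493858305407296047136)) (.cons (.zr (nat_lit 60848157265984475307047928201474) (nat_lit 79228162551157827944298119168) (nat_lit 5) (nat_lit 12)) .nil)))) (.cons (.rf (nat_lit 685) (nat_lit 493858305440582043680)) (.cons (.rf (nat_lit 685) (nat_lit 493858305407296047136)) (.cons (.ev (nat_lit 1208925819615732998144001) (nat_lit 1)) .nil))))) .nil)))),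
 (.br (nat_lit 2) (nat_lit 0) (.cons (.rf (nat_lit 625) (nat_lit 434417860544544)) (.cons (.rf (nat_lit 683) (nat_lit 493858305440582043680)) (.cons (.rf (nat_lit 686) (nat_lit 493858305440582043680)) (.cons (.br (nat_lit 2) (nat_lit 0) (.cons (.rf (nat_lit 477) (nat_lit 381879298)) (.cons (.rf (nat_lit 683) (nat_lit 493858305440582043680)) (.cons (.rf (nat_lit 686) (nat_lit 493858305440582043680)) .nil)))) .nil))))),
 (.br (nat_lit 2) (nat_lit 0) (.cons (.rf (nat_lit 625) (nat_lit 434417860544544)) (.cons (.rf (nat_lit 683) (nat_lit 493858305440582043680)) (.cons (.rf (nat_lit 687) (nat_lit 493858305440582043680)) (.cons (.rf (nat_lit 687) (nat_lit 493858305407296047136)) (.cons (.br (nat_lit 2) (nat_lit 0) (.cons (.rf (nat_lit 625) (nat_lit 434417860544544)) (.cons (.rf (nat_lit 683) (nat_lit 493858305440582043680)) (.cons (.rf (nat_lit 687) (nat_lit 493858305440582043680)) (.cons (.rf (nat_lit 687) (nat_lit 493858305407296047136)) .nil))))) .nil)))))),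
 (.br (nat_lit 1) (nat_lit 0) (.cons (.br (nat_lit 1) (nat_lit 0) (.cons (.zr (nat_lit 60848157265984475588522904912130) (nat_lit 79228162551229885538336047104) (nat_lit 5) (nat_lit 12)) .nil)) (.cons (.br (nat_lit 1) (nat_lit 0) (.cons (.zr (nat_lit 60848157265984475588522904912130) (nat_lit 79228162551229885538336047104) (nat_lit 5) (nat_lit 12)) .nil)) .nil))),
 (.br (nat_lit 2) (nat_lit 0) (.cons (.rf (nat_lit 477) (nat_lit 175309826)) (.cons (.rf (nat_lit 688) (nat_lit 493858305440582042688)) (.cons (.br (nat_lit 3) (nat_lit 0) (.cons (.rf (nat_lit 688) (nat_lit 493858305440582043680)) (.cons (.rf (nat_lit 689) (nat_lit 493858305440582043680)) (.cons (.rf (nat_lit 689) (nat_lit 493858305407296047136)) (.cons (.ev (nat_lit 1208925819615732998144001) (nat_lit 1)) .nil))))) .nil)))),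
 (.br (nat_lit 2) (nat_lit 0) (.cons (.rf (nat_lit 621) (nat_lit 434520939661344)) (.cons (.rf (nat_lit 688) (nat_lit 493858305440582042688)) (.cons (.rf (nat_lit 690) (nat_lit 493858305440582043680)) (.cons (.br (nat_lit 2) (nat_lit 0) (.cons (.rf (nat_lit 477) (nat_lit 381879298)) (.cons (.rf (nat_lit 688) (nat_lit 493858305440582042688)) (.cons (.rf (nat_lit 690) (nat_lit 493858305440582043680)) .nil)))) .nil))))),
 (.br (nat_lit 2) (nat_lit 0) (.cons (.rf (nat_lit 622) (nat_lit 434417860544544)) (.cons (.rf (nat_lit 688) (nat_lit 493858305440582042688)) (.cons (.rf (nat_lit 691) (nat_lit 493858305440582043680)) (.cons (.rf (nat_lit 691) (nat_lit 493858305407296047136)) (.cons (.br (nat_lit 2) (nat_lit 0) (.cons (.rf (nat_lit 621) (nat_lit 111470880950304)) (.cons (.rf (nat_lit 688) (nat_lit 493858305440582042688)) (.cons (.rf (nat_lit 691) (nat_lit 493858305440582043680)) (.cons (.rf (nat_lit 691) (nat_lit 493858305407296047136)) .nil))))) .nil)))))),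
 (.br (nat_lit 2) (nat_lit 0) (.cons (.rf (nat_lit 688) (nat_lit 493858305440582042688)) (.cons (.rf (nat_lit 692) (nat_lit 493858305440582042688)) (.cons (.br (nat_lit 3) (nat_lit 0) (.cons (.ev (nat_lit 1208925891954802012717056) (nat_lit 1)) .nil)) .nil)))),
 (.br (nat_lit 2) (nat_lit 0) (.cons (.rf (nat_lit 688) (nat_lit 493858305440582042688)) (.cons (.rf (nat_lit 692) (nat_lit 493858305440582042688)) (.cons (.rf (nat_lit 693) (nat_lit 493858305440582043680)) (.cons (.br (nat_lit 2) (nat_lit 0) (.cons (.rf (nat_lit 688) (nat_lit 493858305440582042688)) (.cons (.rf (nat_lit 692) (nat_lit 493858305440582042688)) (.cons (.rf (nat_lit 693) (nat_lit 493858305440582043680)) .nil)))) .nil))))),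
 (.br (nat_lit 1) (nat_lit 0) (.cons (.rf (nat_lit 477) (nat_lit 175310849)) (.cons (.rf (nat_lit 688) (nat_lit 493858305440582043680)) (.cons (.rf (nat_lit 692) (nat_lit 493858305440582043680)) (.cons (.br (nat_lit 2) (nat_lit 0) (.cons (.rf (nat_lit 688) (nat_lit 493858305440582042688)) (.cons (.rf (nat_lit 692) (nat_lit 493858305440582042688)) (.cons (.rf (nat_lit 694) (nat_lit 493858305440582043680)) (.cons (.rf (nat_lit 694) (nat_lit 493858305407296047136)) (.cons (.br (nat_lit 2) (nat_lit 0) (.cons (.rf (nat_lit 688) (nat_lit 493858305440582042688)) (.cons (.rf (nat_lit 692) (nat_lit 493858305440582042688)) (.cons (.rf (nat_lit 694) (nat_lit 493858305440582043680)) (.cons (.rf (nat_lit 694) (nat_lit 493858305407296047136)) .nil))))) .nil)))))) .nil)))))]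

theorem c21 : chkAll C T R L21 (nat_lit 667) = true := by decide +kernel

theorem l21 : (nat_lit 667) + L21.length = (nat_lit 696) := by decide +kernel

/-- part of the certificates -/
def L22 : List Prf := [(.br (nat_lit 1) (nat_lit 0) (.cons (.rf (nat_lit 625) (nat_lit 434417860544544)) (.cons (.rf (nat_lit 688) (nat_lit 493858305440582043680)) (.cons (.rf (nat_lit 692) (nat_lit 493858305440582043680)) (.cons (.rf (nat_lit 695) (nat_lit 493858305440582043680)) (.cons (.br (nat_lit 1) (nat_lit 0) (.cons (.rf (nat_lit 477) (nat_lit 381880321)) (.cons (.rf (nat_lit 688) (nat_lit 493858305440582043680)) (.cons (.rf (nat_lit 692) (nat_lit 493858305440582043680)) (.cons (.rf (nat_lit 695) (nat_lit 493858305440582043680)) .nil))))) .nil)))))),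
 (.br (nat_lit 9) (nat_lit 1) (.cons (.br (nat_lit 10) (nat_lit 1) (.cons (.br (nat_lit 1) (nat_lit 0) (.cons (.rf (nat_lit 625) (nat_lit 434417860544544)) (.cons (.rf (nat_lit 688) (nat_lit 493858305440582043680)) (.cons (.rf (nat_lit 692) (nat_lit 493858305440582043680)) (.cons (.rf (nat_lit 696) (nat_lit 493858305440582043680)) (.cons (.rf (nat_lit 696) (nat_lit 493858305407296047136)) (.cons (.br (nat_lit 1) (nat_lit 0) (.cons (.rf (nat_lit 625) (nat_lit 434417860544544)) (.cons (.rf (nat_lit 688) (nat_lit 493858305440582043680)) (.cons (.rf (nat_lit 692) (nat_lit 493858305440582043680)) (.cons (.rf (nat_lit 696) (nat_lit 493858305440582043680)) (.cons (.rf (nat_lit 696) (nat_lit 493858305407296047136)) .nil)))))) .nil))))))) .nil)) .nil)),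
 (.br (nat_lit 8) (nat_lit 1) (.cons (.br (nat_lit 9) (nat_lit 1) (.cons (.rf (nat_lit 697) (nat_lit 493858305440582043680)) (.cons (.br (nat_lit 9) (nat_lit 1) (.cons (.rf (nat_lit 697) (nat_lit 493858305440582043680)) .nil)) .nil))) (.cons (.rf (nat_lit 12) (nat_lit 9871531)) .nil))),
 (.br (nat_lit 9) (nat_lit 1) (.cons (.rf (nat_lit 698) (nat_lit 493858305440582043680)) (.cons (.br (nat_lit 9) (nat_lit 1) (.cons (.rf (nat_lit 698) (nat_lit 493858305440582043680)) .nil)) .nil))),
 (.br (nat_lit 9) (nat_lit 1) (.cons (.rf (nat_lit 698) (nat_lit 493858305440582043680)) (.cons (.rf (nat_lit 699) (nat_lit 493858305440582043680)) (.cons (.br (nat_lit 9) (nat_lit 1) (.cons (.rf (nat_lit 698) (nat_lit 493858305440582043680)) (.cons (.rf (nat_lit 699) (nat_lit 493858305440582043680)) .nil))) .nil)))),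
 (.br (nat_lit 11) (nat_lit 0) (.cons (.br (nat_lit 12) (nat_lit 1) (.cons (.br (nat_lit 5) (nat_lit 1) (.cons (.rf (nat_lit 681) (nat_lit 493858305440582043680)) (.cons (.rf (nat_lit 681) (nat_lit 493858271355721582624)) (.cons (.rf (nat_lit 71) (nat_lit 459908813926)) (.cons (.rf (nat_lit 1) (nat_lit 11637990)) (.cons (.br (nat_lit 11) (nat_lit 1) (.cons (.rf (nat_lit 700) (nat_lit 493858305440582043680)) (.cons (.rf (nat_lit 700) (nat_lit 493858271355721582624)) (.cons (.rf (nat_lit 658) (nat_lit 14306025636)) (.cons (.rf (nat_lit 2) (nat_lit 13669)) .nil))))) .nil)))))) .nil)) .nil)),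
 (.br (nat_lit 11) (nat_lit 0) (.cons (.rf (nat_lit 701) (nat_lit 407901468851537952)) (.cons (.br (nat_lit 11) (nat_lit 0) (.cons (.rf (nat_lit 701) (nat_lit 407901468851537952)) .nil)) .nil))),
 (.br (nat_lit 5) (nat_lit 0) (.cons (.rf (nat_lit 477) (nat_lit 172066848)) (.cons (.br (nat_lit 5) (nat_lit 0) (.cons (.rf (nat_lit 477) (nat_lit 172066848)) (.cons (.br (nat_lit 4) (nat_lit 1) (.cons (.rf (nat_lit 619) (nat_lit 9043225708576)) (.cons (.br (nat_lit 4) (nat_lit 1) (.cons (.rf (nat_lit 619) (nat_lit 10142737336352)) (.cons (.br (nat_lit 3) (nat_lit 1) (.cons (.br (nat_lit 10) (nat_lit 0) (.cons (.rf (nat_lit 659) (nat_lit 11584701642934304)) (.cons (.rf (nat_lit 659) (nat_lit 11584668356937760)) (.cons (.br (nat_lit 10) (nat_lit 0) (.cons (.rf (nat_lit 659) (nat_lit 11584701642934304)) (.cons (.rf (nat_lit 659) (nat_lit 11584668356937760)) .nil))) .nil)))) (.cons (.br (nat_lit 6) (nat_lit 1) (.cons (.rf (nat_lit 702) (nat_lit 407901468851537952)) (.cons (.br (nat_lit 7) (nat_lit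 1) (.cons (.rf (nat_lit 702) (nat_lit 443930232584505376)) .nil)) .nil))) .nil))) .nil))) .nil))) .nil))) .nil))),
 (.br (nat_lit 1) (nat_lit 0) (.cons (.kr (nat_lit 1) (nat_lit 256) (nat_lit 0) (nat_lit 2)) (.cons (.br (nat_lit 9) (nat_lit 1) (.cons (.rf (nat_lit 703) (nat_lit 338987009)) .nil)) .nil))),
 (.br (nat_lit 1) (nat_lit 0) (.cons (.rf (nat_lit 703) (nat_lit 139560961)) .nil)),
 (.br (nat_lit 1) (nat_lit 0) (.cons (.rf (nat_lit 704) (nat_lit 9043225708576)) (.cons (.rf (nat_lit 704) (nat_lit 7977032615968)) (.cons (.br (nat_lit 9) (nat_lit 1) (.cons (.rf (nat_lit 705) (nat_lit 10782752)) .nil)) .nil)))),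
 (.br (nat_lit 6) (nat_lit 1) (.cons (.br (nat_lit 7) (nat_lit 0) (.cons (.br (nat_lit 6) (nat_lit 1) (.cons (.br (nat_lit 7) (nat_lit 0) (.cons (.br (nat_lit 8) (nat_lit 1) (.cons (.br (nat_lit 9) (nat_lit 0) (.cons (.rf (nat_lit 620) (nat_lit 9773286)) .nil)) .nil)) .nil)) .nil)) .nil)) .nil)),
 (.br (nat_lit 2) (nat_lit 0) (.cons (.rf (nat_lit 706) (nat_lit 9043225708576)) (.cons (.br (nat_lit 1) (nat_lit 0) (.cons (.rf (nat_lit 706) (nat_lit 9043225708576)) (.cons (.rf (nat_lit 707) (nat_lit 9939653763)) .nil))) (.cons (.rf (nat_lit 707) (nat_lit 9939653763)) .nil)))),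
 (.br (nat_lit 0) (nat_lit 0) (.cons (.br (nat_lit 0) (nat_lit 0) (.cons (.br (nat_lit 3) (nat_lit 1) (.cons (.rf (nat_lit 705) (nat_lit 5343233)) (.cons (.br (nat_lit 4) (nat_lit 1) (.cons (.rf (nat_lit 705) (nat_lit 6424577)) (.cons (.br (nat_lit 3) (nat_lit 1) (.cons (.rf (nat_lit 705) (nat_lit 7440385)) (.cons (.br (nat_lit 4) (nat_lit 1) (.cons (.rf (nat_lit 705) (nat_lit 8521729)) (.cons (.br (nat_lit 1) (nat_lit 0) (.cons (.rf (nat_lit 706) (nat_lit 9043225708576)) (.cons (.rf (nat_lit 708) (nat_lit 9043225708576)) (.cons (.rf (nat_lit 708) (nat_lit 7977032615968)) (.cons (.rf (nat_lit 707) (nat_lit 9939653763)) .nil))))) .nil))) .nil))) .nil))) .nil))) .nil)) .nil)),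
 (.br (nat_lit 2) (nat_lit 0) (.cons (.rf (nat_lit 1) (nat_lit 3278880)) .nil)),
 (.br (nat_lit 8) (nat_lit 0) (.cons (.kr (nat_lit 18447025548703039488) (nat_lit 72058697844523008) (nat_lit 3) (nat_lit 0)) .nil)),
 (.br (nat_lit 7) (nat_lit 0) (.cons (.rf (nat_lit 711) (nat_lit 11584701642934304)) (.cons (.rf (nat_lit 711) (nat_lit 10493985066976320)) .nil))),
 (.br (nat_lit 6) (nat_lit 1) (.cons (.br (nat_lit 7) (nat_lit 1) (.cons (.br (nat_lit 2) (nat_lit 1) (.cons (.rf (nat_lit 712) (nat_lit 11584701642934304)) (.cons (.rf (nat_lit 712) (nat_lit 11584668356937760)) (.cons (.rf (nat_lit 712) (nat_lit 11583569919051808)) .nil)))) .nil)) .nil)),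
 (.br (nat_lit 1) (nat_lit 0) (.cons (.br (nat_lit 3) (nat_lit 1) (.cons (.rf (nat_lit 710) (nat_lit 66656)) (.cons (.br (nat_lit 4) (nat_lit 1) (.cons (.br (nat_lit 4) (nat_lit 1) (.cons (.br (nat_lit 4) (nat_lit 1) (.cons (.br (nat_lit 2) (nat_lit 0) (.cons (.br (nat_lit 1) (nat_lit 0) (.cons (.rf (nat_lit 710) (nat_lit 66816)) (.cons (.br (nat_lit 2) (nat_lit 0) (.cons (.rf (nat_lit 710) (nat_lit 66848)) (.cons (.br (nat_lit 5) (nat_lit 1) (.cons (.rf (nat_lit 713) (nat_lit 11583566662115424)) (.cons (.rf (nat_lit 713) (nat_lit 11582501510226016)) .nil))) .nil))) .nil))) .nil)) .nil)) .nil)) .nil)) .nil))) .nil)),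
 (.br (nat_lit 7) (nat_lit 0) (.cons (.br (nat_lit 7) (nat_lit 0) .nil) .nil)),
 (.br (nat_lit 1) (nat_lit 0) (.cons (.kr (nat_lit 1) (nat_lit 256) (nat_lit 0) (nat_lit 2)) (.cons (.br (nat_lit 3) (nat_lit 0) (.cons (.ev (nat_lit 309485009821346168253186049) (nat_lit 1)) (.cons (.br (nat_lit 11) (nat_lit 0) (.cons (.ev (nat_lit 309485009821346168253186304) (nat_lit 1)) (.cons (.rf (nat_lit 715) (nat_lit 459934894112)) .nil))) (.cons (.br (nat_lit 11) (nat_lit 0) (.cons (.rf (nat_lit 715) (nat_lit 459666720769)) (.cons (.ev (nat_lit 309485009821346168253186304) (nat_lit 1)) .nil))) .nil)))) (.cons (.br (nat_lit 3) (nat_lit 0) (.cons (.br (nat_lit 12) (nat_lit 0) (.cons (.ev (nat_lit 79229376180897179170385166593) (nat_lit 1)) (.cons (.rf (nat_lit 715) (nat_lit 458894706720)) .nil))) (.cons (.ev (nat_lit 79229376180897179170385166336) (nat_lit 1)) (.cons (.br (nat_lit 12) (nat_lit 0) (.cons (.rf (nat_lit 715) (nat_lit 458593011713)) (.cons (.ev (nat_lit 79229376180897179170385166593) (nat_lit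 1)) .nil))) .nil)))) (.cons (.rf (nat_lit 709) (nat_lit 13313)) .nil))))),
 (.br (nat_lit 7) (nat_lit 0) (.cons (.br (nat_lit 7) (nat_lit 0) .nil) .nil)),
 (.br (nat_lit 8) (nat_lit 0) (.cons (.ev (nat_lit 18446745173237956864) (nat_lit 1)) (.cons (.rf (nat_lit 717) (nat_lit 353533790240)) .nil))),
 (.br (nat_lit 7) (nat_lit 0) (.cons (.br (nat_lit 7) (nat_lit 0) .nil) .nil)),
 (.br (nat_lit 4) (nat_lit 0) (.cons (.ev (nat_lit 18446745173237956864) (nat_lit 1)) (.cons (.rf (nat_lit 719) (nat_lit 353533790240)) .nil))),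
 (.br (nat_lit 1) (nat_lit 0) (.cons (.kr (nat_lit 4722438821938659852290) (nat_lit 1208944266359802395886080) (nat_lit 0) (nat_lit 2)) (.cons (.rf (nat_lit 716) (nat_lit 14242959524133701664)) (.cons (.br (nat_lit 3) (nat_lit 0) (.cons (.rf (nat_lit 718) (nat_lit 434554225657888)) (.cons (.ev (nat_lit 310698676526525710285668353) (nat_lit 1)) (.cons (.rf (nat_lit 720) (nat_lit 434554225657888)) (.cons (.br (nat_lit 11) (nat_lit 0) (.cons (.rf (nat_lit 719) (nat_lit 458893690912)) (.cons (.rf (nat_lit 717) (nat_lit 451085174785)) (.cons (.ev (nat_lit 309489750634573111607951616) (nat_lit 1)) .nil)))) .nil))))) (.cons (.rf (nat_lit 709) (nat_lit 13313)) .nil))))),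
 (.br (nat_lit 1) (nat_lit 0) (.cons (.br (nat_lit 1) (nat_lit 0) (.cons (.kr (nat_lit 1) (nat_lit 256) (nat_lit 0) (nat_lit 2)) (.cons (.kr (nat_lit 4722438821938659852290) (nat_lit 1208944266359802395886080) (nat_lit 0) (nat_lit 2)) (.cons (.kr (nat_lit 4722366482869645213697) (nat_lit 18446744073709551872) (nat_lit 0) (nat_lit 2)) (.cons (.rf (nat_lit 709) (nat_lit 13313)) .nil))))) (.cons (.rf (nat_lit 716) (nat_lit 14242959524133701664)) (.cons (.rf (nat_lit 721) (nat_lit 14242959524133701664)) (.cons (.br (nat_lit 1) (nat_lit 0) (.cons (.kr (nat_lit 4722366482869645213697) (nat_lit 18446744073709551872) (nat_lit 0) (nat_lit 2)) (.cons (.rf (nat_lit 716) (nat_lit 14242959524133701664)) (.cons (.rf (nat_lit 721) (nat_lit 14242959524133701664)) (.cons (.rf (nat_lit 709) (nat_lit 13313)) .nil))))) (.cons (.rf (nat_lit 709) (nat_lit 13313)) .nil)))))),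
 (.br (nat_lit 1) (nat_lit 0) (.cons (.rf (nat_lit 716) (nat_lit 14242959524133701664)) (.cons (.rf (nat_lit 716) (nat_lit 14242959524133669920)) (.cons (.br (nat_lit 2) (nat_lit 0) (.cons (.kr (nat_lit 65536) (nat_lit 16777216) (nat_lit 2) (nat_lit 0)) (.cons (.ev (nat_lit 310698676526525710268956673) (nat_lit 1)) (.cons (.ev (nat_lit 79228162514336677766365249536) (nat_lit 1)) (.cons (.br (nat_lit 3) (nat_lit 0) (.cons (.ev (nat_lit 309485009821346168253186049) (nat_lit 1)) (.cons (.ev (nat_lit 79229376180897179170385166336) (nat_lit 1)) (.cons (.br (nat_lit 13) (nat_lit 0) (.cons (.ev (nat_lit 1239153817105065270447572486) (nat_lit 3)) (.cons (.ev (nat_lit 316913863834587679110778192390) (nat_lit 3)) .nil))) .nil)))) .nil))))) (.cons (.rf (nat_lit 709) (nat_lit 13313)) .nil))))),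
 (.br (nat_lit 1) (nat_lit 0) (.cons (.rf (nat_lit 716) (nat_lit 14242959524133701664)) (.cons (.rf (nat_lit 716) (nat_lit 14242959524133669920)) (.cons (.rf (nat_lit 723) (nat_lit 14242959524133701664)) (.cons (.br (nat_lit 1) (nat_lit 0) (.cons (.rf (nat_lit 716) (nat_lit 14242959524133701664)) (.cons (.rf (nat_lit 716) (nat_lit 14242959524133669920)) (.cons (.rf (nat_lit 723) (nat_lit 14242959524133701664)) (.cons (.rf (nat_lit 709) (nat_lit 13313)) .nil))))) (.cons (.rf (nat_lit 709) (nat_lit 13313)) .nil)))))),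
 (.br (nat_lit 1) (nat_lit 0) (.cons (.rf (nat_lit 722) (nat_lit 14242959524133701664)) (.cons (.rf (nat_lit 722) (nat_lit 14242959524133669920)) (.cons (.rf (nat_lit 724) (nat_lit 14242959524133701664)) (.cons (.br (nat_lit 1) (nat_lit 0) (.cons (.rf (nat_lit 722) (nat_lit 14242959524133701664)) (.cons (.rf (nat_lit 722) (nat_lit 14242959524133669920)) (.cons (.rf (nat_lit 724) (nat_lit 14242959524133701664)) (.cons (.rf (nat_lit 709) (nat_lit 13313)) .nil))))) (.cons (.rf (nat_lit 709) (nat_lit 13313)) .nil)))))),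
 (.br (nat_lit 9) (nat_lit 0) (.cons (.br (nat_lit 1) (nat_lit 0) (.cons (.rf (nat_lit 722) (nat_lit 14242959524133701664)) (.cons (.rf (nat_lit 722) (nat_lit 14242959524133669920)) (.cons (.rf (nat_lit 724) (nat_lit 14242959524133701664)) (.cons (.rf (nat_lit 725) (nat_lit 14242959524133701664)) (.cons (.br (nat_lit 1) (nat_lit 0) (.cons (.rf (nat_lit 722) (nat_lit 14242959524133701664)) (.cons (.rf (nat_lit 722) (nat_lit 14242959524133669920)) (.cons (.rf (nat_lit 724) (nat_lit 14242959524133701664)) (.cons (.rf (nat_lit 725) (nat_lit 14242959524133701664)) (.cons (.rf (nat_lit 709) (nat_lit 13313)) .nil)))))) (.cons (.rf (nat_lit 709) (nat_lit 13313)) .nil))))))) .nil)),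
 (.br (nat_lit 11) (nat_lit 0) (.cons (.ev (nat_lit 79537652246452447006907498753) (nat_lit 1)) (.cons (.rf (nat_lit 715) (nat_lit 459934894112)) .nil))),
 (.br (nat_lit 3) (nat_lit 0) (.cons (.ev (nat_lit 79537652246452447006907498753) (nat_lit 1)) (.cons (.rf (nat_lit 715) (nat_lit 459666720769)) .nil))),
 (.br (nat_lit 12) (nat_lit 0) (.cons (.ev (nat_lit 79537652246452447006907498753) (nat_lit 1)) (.cons (.rf (nat_lit 715) (nat_lit 458894706720)) .nil))),
 (.br (nat_lit 3) (nat_lit 0) (.cons (.ev (nat_lit 79537652246452447006907498753) (nat_lit 1)) (.cons (.rf (nat_lit 715) (nat_lit 458593011713)) .nil))),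
 (.br (nat_lit 1) (nat_lit 0) (.cons (.kr (nat_lit 1) (nat_lit 256) (nat_lit 0) (nat_lit 2)) (.cons (.br (nat_lit 12) (nat_lit 0) (.cons (.rf (nat_lit 727) (nat_lit 14242959524133701664)) (.cons (.rf (nat_lit 728) (nat_lit 14242959524133701664)) (.cons (.br (nat_lit 12) (nat_lit 0) (.cons (.rf (nat_lit 727) (nat_lit 14242959524133701664)) (.cons (.rf (nat_lit 728) (nat_lit 14242959524133701664)) .nil))) .nil)))) (.cons (.br (nat_lit 11) (nat_lit 0) (.cons (.rf (nat_lit 729) (nat_lit 14242959524133701664)) (.cons (.rf (nat_lit 730) (nat_lit 14242959524133701664)) (.cons (.br (nat_lit 11) (nat_lit 0) (.cons (.rf (nat_lit 729) (nat_lit 14242959524133701664)) (.cons (.rf (nat_lit 730) (nat_lit 14242959524133701664)) .nil))) .nil)))) (.cons (.rf (nat_lit 709) (nat_lit 13313)) .nil))))),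
 (.br (nat_lit 1) (nat_lit 0) (.cons (.kr (nat_lit 18519083142724190210) (nat_lit 1213648186098598331548160) (nat_lit 0) (nat_lit 2)) (.cons (.rf (nat_lit 731) (nat_lit 14242959524133701664)) (.cons (.br (nat_lit 3) (nat_lit 0) (.cons (.ev (nat_lit 18518801672059289856) (nat_lit 1)) (.cons (.br (nat_lit 4) (nat_lit 0) (.cons (.ev (nat_lit 18518801672059289601) (nat_lit 1)) (.cons (.rf (nat_lit 719) (nat_lit 458894706720)) .nil))) (.cons (.br (nat_lit 4) (nat_lit 0) (.cons (.ev (nat_lit 18518801672059289601) (nat_lit 1)) (.cons (.rf (nat_lit 719) (nat_lit 459934894112)) .nil))) (.cons (.br (nat_lit 4) (nat_lit 0) (.cons (.rf (nat_lit 719) (nat_lit 458893690912)) (.cons (.rf (nat_lit 719) (nat_lit 459933878304)) (.cons (.ev (nat_lit 4722438540467994951681) (nat_lit 1)) .nil)))) .nil))))) (.cons (.rf (nat_lit 709) (nat_lit 13313)) .nil))))),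
 (.br (nat_lit 1) (nat_lit 0) (.cons (.br (nat_lit 1) (nat_lit 0) (.cons (.ev (nat_lit 4722438540467994951681) (nat_lit 1)) (.cons (.kr (nat_lit 18519083142724190210) (nat_lit 1213648186098598331548160) (nat_lit 0) (nat_lit 2)) (.cons (.kr (nat_lit 4722438821938659852290) (nat_lit 1208944266359802395886080) (nat_lit 0) (nat_lit 2)) (.cons (.rf (nat_lit 709) (nat_lit 13313)) .nil))))) (.cons (.rf (nat_lit 731) (nat_lit 14242959524133701664)) (.cons (.rf (nat_lit 732) (nat_lit 14242959524133701664)) (.cons (.br (nat_lit 1) (nat_lit 0) (.cons (.kr (nat_lit 4722438821938659852290) (nat_lit 1208944266359802395886080) (nat_lit 0) (nat_lit 2)) (.cons (.rf (nat_lit 731) (nat_lit 14242959524133701664)) (.cons (.rf (nat_lit 732) (nat_lit 14242959524133701664)) (.cons (.rf (nat_lit 709) (nat_lit 13313)) .nil))))) (.cons (.rf (nat_lit 709) (nat_lit 13313)) .nil)))))),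
 (.br (nat_lit 1) (nat_lit 0) (.cons (.rf (nat_lit 731) (nat_lit 14242959524133701664)) (.cons (.rf (nat_lit 731) (nat_lit 14242959524133669920)) (.cons (.br (nat_lit 1) (nat_lit 0) (.cons (.rf (nat_lit 731) (nat_lit 14242959524133701664)) (.cons (.rf (nat_lit 731) (nat_lit 14242959524133669920)) (.cons (.ev (nat_lit 1213648186380077603225856) (nat_lit 1)) (.cons (.rf (nat_lit 709) (nat_lit 13313)) .nil))))) (.cons (.br (nat_lit 1) (nat_lit 0) (.cons (.rf (nat_lit 731) (nat_lit 14242959524133701664)) (.cons (.rf (nat_lit 731) (nat_lit 14242959524133669920)) (.cons (.ev (nat_lit 1213648186380077603225856) (nat_lit 1)) (.cons (.rf (nat_lit 709) (nat_lit 13313)) .nil))))) (.cons (.rf (nat_lit 709) (nat_lit 13313)) .nil)))))),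
 (.br (nat_lit 1) (nat_lit 0) (.cons (.rf (nat_lit 733) (nat_lit 14242959524133701664)) (.cons (.rf (nat_lit 733) (nat_lit 14242959524133669920)) (.cons (.rf (nat_lit 734) (nat_lit 14242959524133701664)) (.cons (.br (nat_lit 1) (nat_lit 0) (.cons (.rf (nat_lit 733) (nat_lit 14242959524133701664)) (.cons (.rf (nat_lit 733) (nat_lit 14242959524133669920)) (.cons (.ev (nat_lit 18518801672042447104) (nat_lit 1)) (.cons (.rf (nat_lit 709) (nat_lit 13313)) .nil))))) (.cons (.rf (nat_lit 709) (nat_lit 13313)) .nil)))))),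
 (.br (nat_lit 9) (nat_lit 0) (.cons (.br (nat_lit 1) (nat_lit 0) (.cons (.rf (nat_lit 733) (nat_lit 14242959524133701664)) (.cons (.rf (nat_lit 733) (nat_lit 14242959524133669920)) (.cons (.rf (nat_lit 734) (nat_lit 14242959524133701664)) (.cons (.rf (nat_lit 735) (nat_lit 14242959524133701664)) (.cons (.br (nat_lit 1) (nat_lit 0) (.cons (.rf (nat_lit 733) (nat_lit 14242959524133701664)) (.cons (.rf (nat_lit 733) (nat_lit 14242959524133669920)) (.cons (.rf (nat_lit 734) (nat_lit 14242959524133701664)) (.cons (.rf (nat_lit 735) (nat_lit 14242959524133701664)) (.cons (.rf (nat_lit 709) (nat_lit 13313)) .nil)))))) (.cons (.rf (nat_lit 709) (nat_lit 13313)) .nil))))))) .nil))]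

theorem c22 : chkAll C T R L22 (nat_lit 696) = true := by decide +kernel

theorem l22 : (nat_lit 696) + L22.length = (nat_lit 737) := by decide +kernel

/-- part of the certificates -/
def L23 : List Prf := [(.br (nat_lit 6) (nat_lit 0) (.cons (.rf (nat_lit 620) (nat_lit 6425762)) (.cons (.br (nat_lit 7) (nat_lit 0) (.cons (.rf (nat_lit 13) (nat_lit 364256417682530)) (.cons (.br (nat_lit 10) (nat_lit 0) (.cons (.rf (nat_lit 112) (nat_lit 325708113089666)) (.cons (.br (nat_lit 4) (nat_lit 1) (.cons (.rf (nat_lit 726) (nat_lit 14242959524133701664)) (.cons (.rf (nat_lit 726) (nat_lit 14242925439273240608)) .nil))) .nil))) (.cons (.br (nat_lit 10) (nat_lit 0) (.cons (.br (nat_lit 8) (nat_lit 0) (.cons (.rf (nat_lit 736) (nat_lit 14242959524133701664)) (.cons (.br (nat_lit 9) (nat_lit 0) (.cons (.rf (nat_lit 736) (nat_lit 14242925439273240608)) .nil)) .nil))) (.cons (.rf (nat_lit 13) (nat_lit 251006819866722)) (.cons (.rf (nat_lit 66) (nat_lit 13875055299794018)) .nil)))) .nil)))) .nil))),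
 (.br (nat_lit 8) (nat_lit 0) (.cons (.kr (nat_lit 18518801667764256768) (nat_lit 282578783305728) (nat_lit 3) (nat_lit 0)) .nil)),
 (.br (nat_lit 7) (nat_lit 0) (.cons (.rf (nat_lit 738) (nat_lit 11584701642934304)) (.cons (.rf (nat_lit 738) (nat_lit 10493986108180512)) .nil))),
 (.br (nat_lit 11) (nat_lit 0) (.cons (.ev (nat_lit 79537647542532708210971836416) (nat_lit 1)) (.cons (.rf (nat_lit 715) (nat_lit 459934894112)) .nil))),
 (.br (nat_lit 3) (nat_lit 0) (.cons (.ev (nat_lit 79537647542532708210971836416) (nat_lit 1)) (.cons (.rf (nat_lit 715) (nat_lit 459666720769)) .nil))),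
 (.br (nat_lit 12) (nat_lit 0) (.cons (.rf (nat_lit 740) (nat_lit 14242959524133701664)) (.cons (.rf (nat_lit 741) (nat_lit 14242959524133701664)) (.cons (.br (nat_lit 12) (nat_lit 0) (.cons (.rf (nat_lit 740) (nat_lit 14242959524133701664)) (.cons (.rf (nat_lit 741) (nat_lit 14242959524133701664)) .nil))) .nil)))),
 (.br (nat_lit 1) (nat_lit 0) (.cons (.kr (nat_lit 1) (nat_lit 256) (nat_lit 0) (nat_lit 2)) (.cons (.rf (nat_lit 742) (nat_lit 14242959524133701664)) (.cons (.rf (nat_lit 742) (nat_lit 13126032731685357600)) (.cons (.rf (nat_lit 709) (nat_lit 13313)) .nil))))),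
 (.br (nat_lit 4) (nat_lit 0) (.cons (.ev (nat_lit 1208925891672227524444416) (nat_lit 1)) (.cons (.rf (nat_lit 719) (nat_lit 458894706720)) .nil))),
 (.br (nat_lit 1) (nat_lit 0) (.cons (.kr (nat_lit 18519083142724190210) (nat_lit 1213648186098598331548160) (nat_lit 0) (nat_lit 2)) (.cons (.rf (nat_lit 742) (nat_lit 14242959524133701664)) (.cons (.br (nat_lit 3) (nat_lit 0) (.cons (.ev (nat_lit 4740813509522154913793) (nat_lit 1)) (.cons (.rf (nat_lit 744) (nat_lit 14242959524133701664)) (.cons (.rf (nat_lit 744) (nat_lit 13126066816545818656)) (.cons (.br (nat_lit 4) (nat_lit 0) (.cons (.rf (nat_lit 719) (nat_lit 458893690912)) (.cons (.rf (nat_lit 719) (nat_lit 459933878304)) (.cons (.ev (nat_lit 282578800148736) (nat_lit 1)) .nil)))) .nil))))) (.cons (.rf (nat_lit 709) (nat_lit 13313)) .nil))))),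
 (.br (nat_lit 1) (nat_lit 0) (.cons (.br (nat_lit 1) (nat_lit 0) (.cons (.kr (nat_lit 1) (nat_lit 256) (nat_lit 0) (nat_lit 2)) (.cons (.kr (nat_lit 18519083142724190210) (nat_lit 1213648186098598331548160) (nat_lit 0) (nat_lit 2)) (.cons (.kr (nat_lit 4722438821938659852290) (nat_lit 1208944266359802395886080) (nat_lit 0) (nat_lit 2)) (.cons (.rf (nat_lit 709) (nat_lit 13313)) .nil))))) (.cons (.rf (nat_lit 743) (nat_lit 14242959524133701664)) (.cons (.rf (nat_lit 745) (nat_lit 14242959524133701664)) (.cons (.rf (nat_lit 745) (nat_lit 13126032731685357600)) (.cons (.rf (nat_lit 709) (nat_lit 13313)) .nil)))))),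
 (.br (nat_lit 1) (nat_lit 0) (.cons (.kr (nat_lit 18519083142724190210) (nat_lit 1213648186098598331548160) (nat_lit 0) (nat_lit 2)) (.cons (.ev (nat_lit 18518801672042447104) (nat_lit 1)) (.cons (.br (nat_lit 11) (nat_lit 0) (.cons (.br (nat_lit 4) (nat_lit 0) (.cons (.ev (nat_lit 79538856449905578766420148224) (nat_lit 1)) (.cons (.rf (nat_lit 719) (nat_lit 458894674976)) .nil))) (.cons (.br (nat_lit 2) (nat_lit 0) (.cons (.ev (nat_lit 79538856449905578766420148224) (nat_lit 1)) (.cons (.rf (nat_lit 719) (nat_lit 458892643360)) .nil))) (.cons (.ev (nat_lit 79537652264970968299173052673) (nat_lit 1)) (.cons (.br (nat_lit 12) (nat_lit 0) (.cons (.rf (nat_lit 719) (nat_lit 448970230785)) (.cons (.rf (nat_lit 719) (nat_lit 451050605569)) (.cons (.ev (nat_lit 79537647524157741355818287361) (nat_lit 1)) .nil)))) .nil))))) (.cons (.rf (nat_lit 709) (nat_lit 13313)) .nil))))),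
 (.br (nat_lit 1) (nat_lit 0) (.cons (.rf (nat_lit 746) (nat_lit 14242959524133701664)) (.cons (.br (nat_lit 1) (nat_lit 0) (.cons (.kr (nat_lit 1) (nat_lit 256) (nat_lit 0) (nat_lit 2)) (.cons (.ev (nat_lit 18518801672042447104) (nat_lit 1)) (.cons (.ev (nat_lit 4722438540467978109184) (nat_lit 1)) (.cons (.rf (nat_lit 709) (nat_lit 13313)) .nil))))) (.cons (.rf (nat_lit 747) (nat_lit 14242959524133701664)) (.cons (.rf (nat_lit 747) (nat_lit 13126032731685357600)) (.cons (.rf (nat_lit 709) (nat_lit 13313)) .nil)))))),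
 (.br (nat_lit 3) (nat_lit 0) (.cons (.ev (nat_lit 1223222406848913038770690) (nat_lit 3)) (.cons (.rf (nat_lit 719) (nat_lit 458893627424)) .nil))),
 (.br (nat_lit 1) (nat_lit 0) (.cons (.rf (nat_lit 742) (nat_lit 14242959524133701664)) (.cons (.ev (nat_lit 18518801672042447104) (nat_lit 1)) (.cons (.br (nat_lit 2) (nat_lit 0) (.cons (.kr (nat_lit 4740813228042866524160) (nat_lit 1208925891953698222899200) (nat_lit 2) (nat_lit 0)) (.cons (.rf (nat_lit 749) (nat_lit 14242959524133701664)) (.cons (.rf (nat_lit 749) (nat_lit 13126032731685357600)) (.cons (.br (nat_lit 3) (nat_lit 0) (.cons (.rf (nat_lit 719) (nat_lit 458892611616)) (.cons (.rf (nat_lit 719) (nat_lit 459932799008)) (.cons (.ev (nat_lit 1232630246326504910094850) (nat_lit 3)) .nil)))) .nil))))) (.cons (.rf (nat_lit 709) (nat_lit 13313)) .nil))))),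
 (.br (nat_lit 1) (nat_lit 0) (.cons (.rf (nat_lit 743) (nat_lit 14242959524133701664)) (.cons (.rf (nat_lit 748) (nat_lit 14242959524133701664)) (.cons (.rf (nat_lit 750) (nat_lit 14242959524133701664)) (.cons (.rf (nat_lit 750) (nat_lit 13126032731685357600)) (.cons (.rf (nat_lit 709) (nat_lit 13313)) .nil)))))),
 (.br (nat_lit 1) (nat_lit 0) (.cons (.rf (nat_lit 746) (nat_lit 14242959524133701664)) (.cons (.rf (nat_lit 748) (nat_lit 14242959524133701664)) (.cons (.rf (nat_lit 751) (nat_lit 14242959524133701664)) (.cons (.br (nat_lit 1) (nat_lit 0) (.cons (.rf (nat_lit 746) (nat_lit 14242959524133701664)) (.cons (.rf (nat_lit 748) (nat_lit 14242959524133701664)) (.cons (.rf (nat_lit 751) (nat_lit 14242959524133701664)) (.cons (.rf (nat_lit 709) (nat_lit 13313)) .nil))))) (.cons (.rf (nat_lit 709) (nat_lit 13313)) .nil)))))),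
 (.br (nat_lit 9) (nat_lit 0) (.cons (.br (nat_lit 1) (nat_lit 0) (.cons (.rf (nat_lit 746) (nat_lit 14242959524133701664)) (.cons (.rf (nat_lit 748) (nat_lit 14242959524133701664)) (.cons (.rf (nat_lit 751) (nat_lit 14242959524133701664)) (.cons (.rf (nat_lit 752) (nat_lit 14242959524133701664)) (.cons (.rf (nat_lit 752) (nat_lit 13126032731685357600)) (.cons (.rf (nat_lit 709) (nat_lit 13313)) .nil))))))) .nil)),
 (.br (nat_lit 4) (nat_lit 1) (.cons (.rf (nat_lit 739) (nat_lit 13909140160286818)) (.cons (.rf (nat_lit 739) (nat_lit 13909106874290274)) (.cons (.br (nat_lit 8) (nat_lit 0) (.cons (.rf (nat_lit 753) (nat_lit 14242959524133701664)) (.cons (.rf (nat_lit 753) (nat_lit 13126066816545818656)) .nil))) .nil)))),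
 (.br (nat_lit 1) (nat_lit 0) (.cons (.kr (nat_lit 1) (nat_lit 256) (nat_lit 0) (nat_lit 2)) (.cons (.kr (nat_lit 18519083142724190210) (nat_lit 1213648186098598331548160) (nat_lit 0) (nat_lit 2)) (.cons (.br (nat_lit 4) (nat_lit 0) (.cons (.br (nat_lit 12) (nat_lit 0) (.cons (.ev (nat_lit 79229376180897179170385166336) (nat_lit 1)) (.cons (.rf (nat_lit 715) (nat_lit 458893690912)) .nil))) (.cons (.ev (nat_lit 79228162514336677766381961473) (nat_lit 1)) (.cons (.br (nat_lit 12) (nat_lit 0) (.cons (.rf (nat_lit 715) (nat_lit 458625517569)) (.cons (.ev (nat_lit 79228162514336677766381961216) (nat_lit 1)) .nil))) .nil)))) (.cons (.rf (nat_lit 709) (nat_lit 13313)) .nil))))),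
 (.br (nat_lit 1) (nat_lit 0) (.cons (.rf (nat_lit 755) (nat_lit 14242959524133701664)) (.cons (.rf (nat_lit 755) (nat_lit 14242925439272224800)) (.cons (.br (nat_lit 1) (nat_lit 0) (.cons (.kr (nat_lit 18519083142724190210) (nat_lit 1213648186098598331548160) (nat_lit 0) (nat_lit 2)) (.cons (.kr (nat_lit 4722438821938659852290) (nat_lit 1208944266359802395886080) (nat_lit 0) (nat_lit 2)) (.cons (.rf (nat_lit 754) (nat_lit 4727979513453348865)) (.cons (.rf (nat_lit 709) (nat_lit 13313)) .nil))))) (.cons (.br (nat_lit 1) (nat_lit 0) (.cons (.rf (nat_lit 755) (nat_lit 14242959524133701664)) (.cons (.rf (nat_lit 755) (nat_lit 14242925439272224800)) (.cons (.rf (nat_lit 754) (nat_lit 4727979513453348865)) (.cons (.rf (nat_lit 709) (nat_lit 13313)) .nil))))) (.cons (.rf (nat_lit 709) (nat_lit 13313)) .nil)))))),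
 (.br (nat_lit 10) (nat_lit 0) (.cons (.ev (nat_lit 1213648186380073308324096) (nat_lit 1)) (.cons (.rf (nat_lit 715) (nat_lit 387960605728)) .nil))),
 (.br (nat_lit 2) (nat_lit 0) (.cons (.ev (nat_lit 1213648186380073308324096) (nat_lit 1)) (.cons (.rf (nat_lit 715) (nat_lit 387692432385)) .nil))),
 (.br (nat_lit 1) (nat_lit 0) (.cons (.kr (nat_lit 1) (nat_lit 256) (nat_lit 0) (nat_lit 2)) (.cons (.ev (nat_lit 72058697861300481) (nat_lit 1)) (.cons (.br (nat_lit 11) (nat_lit 0) (.cons (.rf (nat_lit 757) (nat_lit 13909069224052768)) (.cons (.rf (nat_lit 758) (nat_lit 13909069224052768)) (.cons (.br (nat_lit 11) (nat_lit 0) (.cons (.rf (nat_lit 757) (nat_lit 13909069224052768)) (.cons (.rf (nat_lit 758) (nat_lit 13909069224052768)) .nil))) .nil)))) (.cons (.rf (nat_lit 709) (nat_lit 13313)) .nil))))),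
 (.br (nat_lit 1) (nat_lit 0) (.cons (.kr (nat_lit 18519083142724190210) (nat_lit 1213648186098598331548160) (nat_lit 0) (nat_lit 2)) (.cons (.ev (nat_lit 72058697861300481) (nat_lit 1)) (.cons (.br (nat_lit 2) (nat_lit 0) (.cons (.rf (nat_lit 718) (nat_lit 434554225626144)) (.cons (.ev (nat_lit 310698676526525710268956673) (nat_lit 1)) (.cons (.rf (nat_lit 720) (nat_lit 434554225626144)) (.cons (.br (nat_lit 4) (nat_lit 0) (.cons (.rf (nat_lit 719) (nat_lit 458892643360)) (.cons (.rf (nat_lit 719) (nat_lit 459932830752)) (.cons (.br (nat_lit 12) (nat_lit 0) (.cons (.kr (nat_lit 158457538676786831379457507840) (nat_lit 618970038090278644712734720) (nat_lit 1) (nat_lit 0)) (.cons (.ev (nat_lit 79229376180897179170385166336) (nat_lit 1)) .nil))) .nil)))) .nil))))) (.cons (.rf (nat_lit 709) (nat_lit 13313)) .nil))))),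
 (.br (nat_lit 1) (nat_lit 0) (.cons (.rf (nat_lit 756) (nat_lit 14242959524133701664)) (.cons (.rf (nat_lit 759) (nat_lit 14242959524133701664)) (.cons (.rf (nat_lit 760) (nat_lit 14242959524133701664)) (.cons (.br (nat_lit 1) (nat_lit 0) (.cons (.rf (nat_lit 756) (nat_lit 14242959524133701664)) (.cons (.rf (nat_lit 759) (nat_lit 14242959524133701664)) (.cons (.rf (nat_lit 760) (nat_lit 14242959524133701664)) (.cons (.rf (nat_lit 709) (nat_lit 13313)) .nil))))) (.cons (.rf (nat_lit 709) (nat_lit 13313)) .nil)))))),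
 (.br (nat_lit 1) (nat_lit 0) (.cons (.rf (nat_lit 756) (nat_lit 14242959524133701664)) (.cons (.rf (nat_lit 761) (nat_lit 14242959524133701664)) (.cons (.rf (nat_lit 761) (nat_lit 14242925439272224800)) (.cons (.br (nat_lit 1) (nat_lit 0) (.cons (.rf (nat_lit 754) (nat_lit 4727979513453348865)) (.cons (.rf (nat_lit 761) (nat_lit 14242959524133701664)) (.cons (.rf (nat_lit 761) (nat_lit 14242925439272224800)) (.cons (.rf (nat_lit 709) (nat_lit 13313)) .nil))))) (.cons (.rf (nat_lit 709) (nat_lit 13313)) .nil)))))),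
 (.br (nat_lit 10) (nat_lit 0) (.cons (.br (nat_lit 1) (nat_lit 0) (.cons (.rf (nat_lit 756) (nat_lit 14242959524133701664)) (.cons (.rf (nat_lit 761) (nat_lit 14242959524133701664)) (.cons (.rf (nat_lit 761) (nat_lit 14242925439272224800)) (.cons (.rf (nat_lit 762) (nat_lit 14242959524133701664)) (.cons (.br (nat_lit 1) (nat_lit 0) (.cons (.rf (nat_lit 756) (nat_lit 14242959524133701664)) (.cons (.rf (nat_lit 761) (nat_lit 14242959524133701664)) (.cons (.rf (nat_lit 761) (nat_lit 14242925439272224800)) (.cons (.rf (nat_lit 762) (nat_lit 14242959524133701664)) (.cons (.rf (nat_lit 709) (nat_lit 13313)) .nil)))))) (.cons (.rf (nat_lit 709) (nat_lit 13313)) .nil))))))) .nil)),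
 (.br (nat_lit 4) (nat_lit 0) (.cons (.ev (nat_lit 310698676454186645565997313) (nat_lit 1)) (.cons (.br (nat_lit 11) (nat_lit 0) (.cons (.ev (nat_lit 310698676454186645565997056) (nat_lit 1)) (.cons (.rf (nat_lit 715) (nat_lit 426413230081)) .nil))) (.cons (.br (nat_lit 11) (nat_lit 0) (.cons (.ev (nat_lit 310698676454186645565997056) (nat_lit 1)) (.cons (.rf (nat_lit 715) (nat_lit 459933878304)) .nil))) .nil)))),
 (.br (nat_lit 11) (nat_lit 0) (.cons (.ev (nat_lit 79537647542532708210971836673) (nat_lit 1)) (.cons (.rf (nat_lit 715) (nat_lit 459934894112)) .nil))),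
 (.br (nat_lit 3) (nat_lit 0) (.cons (.ev (nat_lit 79537647542532708210971836673) (nat_lit 1)) (.cons (.rf (nat_lit 715) (nat_lit 459666720769)) .nil))),
 (.br (nat_lit 12) (nat_lit 0) (.cons (.rf (nat_lit 765) (nat_lit 14242959524133701664)) (.cons (.rf (nat_lit 766) (nat_lit 14242959524133701664)) (.cons (.br (nat_lit 12) (nat_lit 0) (.cons (.rf (nat_lit 765) (nat_lit 14242959524133701664)) (.cons (.rf (nat_lit 766) (nat_lit 14242959524133701664)) .nil))) .nil)))),
 (.br (nat_lit 1) (nat_lit 0) (.cons (.kr (nat_lit 1) (nat_lit 256) (nat_lit 0) (nat_lit 2)) (.cons (.rf (nat_lit 767) (nat_lit 14242959524133701664)) (.cons (.rf (nat_lit 767) (nat_lit 13125996516521117728)) (.cons (.rf (nat_lit 709) (nat_lit 13313)) .nil))))),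
 (.br (nat_lit 1) (nat_lit 0) (.cons (.br (nat_lit 1) (nat_lit 0) (.cons (.kr (nat_lit 1) (nat_lit 256) (nat_lit 0) (nat_lit 2)) (.cons (.kr (nat_lit 18519083142724190210) (nat_lit 1213648186098598331548160) (nat_lit 0) (nat_lit 2)) (.cons (.rf (nat_lit 764) (nat_lit 443930265870501920)) (.cons (.rf (nat_lit 709) (nat_lit 13313)) .nil))))) (.cons (.rf (nat_lit 768) (nat_lit 14242959524133701664)) (.cons (.br (nat_lit 1) (nat_lit 0) (.cons (.kr (nat_lit 18519083142724190210) (nat_lit 1213648186098598331548160) (nat_lit 0) (nat_lit 2)) (.cons (.rf (nat_lit 768) (nat_lit 14242959524133701664)) (.cons (.kr (nat_lit 4722438821938659852290) (nat_lit 1208944266359802395886080) (nat_lit 0) (nat_lit 2)) (.cons (.rf (nat_lit 709) (nat_lit 13313)) .nil))))) (.cons (.br (nat_lit 1) (nat_lit 0) (.cons (.rf (nat_lit 764) (nat_lit 443930265870501920)) (.cons (.kr (nat_lit 4722366482869645213697) (nat_lit 18446744073709551872) (nat_lit 0) (nat_lit 2)) (.cons (.kr (nat_lit 4722438821938659852290) (nat_lit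 1208944266359802395886080) (nat_lit 0) (nat_lit 2)) (.cons (.rf (nat_lit 709) (nat_lit 13313)) .nil))))) (.cons (.rf (nat_lit 709) (nat_lit 13313)) .nil)))))),
 (.br (nat_lit 12) (nat_lit 0) (.cons (.ev (nat_lit 79537647542532708210971836673) (nat_lit 1)) (.cons (.rf (nat_lit 715) (nat_lit 458894674976)) .nil))),
 (.br (nat_lit 2) (nat_lit 0) (.cons (.ev (nat_lit 79537647542532708210971836673) (nat_lit 1)) (.cons (.rf (nat_lit 715) (nat_lit 458559458305)) .nil))),
 (.br (nat_lit 11) (nat_lit 0) (.cons (.rf (nat_lit 770) (nat_lit 14242959524133701664)) (.cons (.rf (nat_lit 771) (nat_lit 14242959524133701664)) (.cons (.br (nat_lit 11) (nat_lit 0) (.cons (.rf (nat_lit 770) (nat_lit 14242959524133701664)) (.cons (.rf (nat_lit 771) (nat_lit 14242959524133701664)) .nil))) .nil)))),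
 (.br (nat_lit 1) (nat_lit 0) (.cons (.kr (nat_lit 1) (nat_lit 256) (nat_lit 0) (nat_lit 2)) (.cons (.rf (nat_lit 772) (nat_lit 13125996516521117728)) (.cons (.rf (nat_lit 772) (nat_lit 14242959524133701664)) (.cons (.rf (nat_lit 709) (nat_lit 13313)) .nil))))),
 (.br (nat_lit 1) (nat_lit 0) (.cons (.kr (nat_lit 18519083142724190210) (nat_lit 1213648186098598331548160) (nat_lit 0) (nat_lit 2)) (.cons (.ev (nat_lit 18518801672042447104) (nat_lit 1)) (.cons (.br (nat_lit 2) (nat_lit 0) (.cons (.rf (nat_lit 718) (nat_lit 434554225626144)) (.cons (.ev (nat_lit 309485009821346168236474369) (nat_lit 1)) (.cons (.rf (nat_lit 720) (nat_lit 434554225626144)) (.cons (.br (nat_lit 4) (nat_lit 0) (.cons (.rf (nat_lit 719) (nat_lit 458892643360)) (.cons (.rf (nat_lit 719) (nat_lit 459932830752)) (.cons (.br (nat_lit 12) (nat_lit 0) (.cons (.rf (nat_lit 717) (nat_lit 451051621377)) (.cons (.ev (nat_lit 79229376180897179170385166336) (nat_lit 1)) .nil))) .nil)))) .nil))))) (.cons (.rf (nat_lit 709)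 (nat_lit 13313)) .nil)))))]

theorem c23 : chkAll C T R L23 (nat_lit 737) = true := by decide +kernel

theorem l23 : (nat_lit 737) + L23.length = (nat_lit 775) := by decide +kernel

/-- part of the certificates -/
def L24 : List Prf := [(.br (nat_lit 1) (nat_lit 0) (.cons (.rf (nat_lit 769) (nat_lit 14242959524133701664)) (.cons (.rf (nat_lit 773) (nat_lit 14242959524133701664)) (.cons (.rf (nat_lit 774) (nat_lit 14242959524133701664)) (.cons (.br (nat_lit 1) (nat_lit 0) (.cons (.rf (nat_lit 764) (nat_lit 443930265870501920)) (.cons (.rf (nat_lit 773) (nat_lit 14242959524133701664)) (.cons (.rf (nat_lit 774) (nat_lit 14242959524133701664)) (.cons (.rf (nat_lit 709) (nat_lit 13313)) .nil))))) (.cons (.rf (nat_lit 709) (nat_lit 13313)) .nil)))))),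
 (.br (nat_lit 1) (nat_lit 0) (.cons (.rf (nat_lit 768) (nat_lit 14242959524133701664)) (.cons (.rf (nat_lit 773) (nat_lit 14242959524133701664)) (.cons (.br (nat_lit 1) (nat_lit 0) (.cons (.rf (nat_lit 768) (nat_lit 14242959524133701664)) (.cons (.ev (nat_lit 18518801672042447104) (nat_lit 1)) (.cons (.ev (nat_lit 4722438540467978109184) (nat_lit 1)) (.cons (.rf (nat_lit 709) (nat_lit 13313)) .nil))))) (.cons (.br (nat_lit 1) (nat_lit 0) (.cons (.kr (nat_lit 4722366482869645213697) (nat_lit 18446744073709551872) (nat_lit 0) (nat_lit 2)) (.cons (.rf (nat_lit 773) (nat_lit 14242959524133701664)) (.cons (.ev (nat_lit 4722438540467978109184) (nat_lit 1)) (.cons (.rf (nat_lit 709) (nat_lit 13313)) .nil))))) (.cons (.rf (nat_lit 709) (nat_lit 13313)) .nil)))))),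
 (.br (nat_lit 1) (nat_lit 0) (.cons (.rf (nat_lit 769) (nat_lit 14242959524133701664)) (.cons (.rf (nat_lit 775) (nat_lit 14242959524133701664)) (.cons (.rf (nat_lit 776) (nat_lit 14242959524133701664)) (.cons (.br (nat_lit 1) (nat_lit 0) (.cons (.kr (nat_lit 4722438821938659852290) (nat_lit 1208944266359802395886080) (nat_lit 0) (nat_lit 2)) (.cons (.rf (nat_lit 775) (nat_lit 14242959524133701664)) (.cons (.ev (nat_lit 4722438540467978109184) (nat_lit 1)) (.cons (.rf (nat_lit 709) (nat_lit 13313)) .nil))))) (.cons (.rf (nat_lit 709) (nat_lit 13313)) .nil)))))),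
 (.br (nat_lit 9) (nat_lit 0) (.cons (.br (nat_lit 1) (nat_lit 0) (.cons (.rf (nat_lit 769) (nat_lit 14242959524133701664)) (.cons (.rf (nat_lit 775) (nat_lit 14242959524133701664)) (.cons (.rf (nat_lit 776) (nat_lit 14242959524133701664)) (.cons (.rf (nat_lit 777) (nat_lit 14242959524133701664)) (.cons (.br (nat_lit 1) (nat_lit 0) (.cons (.rf (nat_lit 769) (nat_lit 14242959524133701664)) (.cons (.rf (nat_lit 775) (nat_lit 14242959524133701664)) (.cons (.rf (nat_lit 776) (nat_lit 14242959524133701664)) (.cons (.rf (nat_lit 777) (nat_lit 14242959524133701664)) (.cons (.rf (nat_lit 709) (nat_lit 13313)) .nil)))))) (.cons (.rf (nat_lit 709) (nat_lit 13313)) .nil))))))) .nil)),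
 (.br (nat_lit 4) (nat_lit 1) (.cons (.rf (nat_lit 739) (nat_lit 13909140160285826)) (.cons (.br (nat_lit 7) (nat_lit 0) (.cons (.rf (nat_lit 763) (nat_lit 14242959524133701664)) (.cons (.rf (nat_lit 763) (nat_lit 13126066816545818656)) .nil))) (.cons (.br (nat_lit 7) (nat_lit 0) (.cons (.rf (nat_lit 778) (nat_lit 14242959524133701664)) (.cons (.rf (nat_lit 778) (nat_lit 13126066816545818656)) .nil))) .nil)))),
 (.br (nat_lit 6) (nat_lit 0) (.cons (.rf (nat_lit 737) (nat_lit 11584701642934304)) (.cons (.rf (nat_lit 737) (nat_lit 11584701641918496)) (.cons (.br (nat_lit 6) (nat_lit 0) (.cons (.rf (nat_lit 737) (nat_lit 11584701642934304)) (.cons (.rf (nat_lit 737) (nat_lit 11584701641918496)) (.cons (.br (nat_lit 3) (nat_lit 1) (.cons (.rf (nat_lit 754) (nat_lit 14242959524133701664)) (.cons (.rf (nat_lit 779) (nat_lit 14242959524133701664)) (.cons (.rf (nat_lit 779) (nat_lit 14242925439273240608)) (.cons (.br (nat_lit 4) (nat_lit 1) (.cons (.rf (nat_lit 754) (nat_lit 14242959524132685856))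 (.cons (.rf (nat_lit 779) (nat_lit 14242959524132685856)) (.cons (.rf (nat_lit 779) (nat_lit 14242925439272224800)) .nil)))) .nil))))) .nil)))) .nil)))),
 (.br (nat_lit 1) (nat_lit 0) (.cons (.kr (nat_lit 1) (nat_lit 256) (nat_lit 0) (nat_lit 2)) (.cons (.br (nat_lit 3) (nat_lit 0) (.cons (.ev (nat_lit 310693935713018391465820161) (nat_lit 1)) (.cons (.br (nat_lit 11) (nat_lit 0) (.cons (.ev (nat_lit 310693935713018391465820416) (nat_lit 1)) (.cons (.rf (nat_lit 715) (nat_lit 459934894112)) .nil))) (.cons (.br (nat_lit 11) (nat_lit 0) (.cons (.rf (nat_lit 715) (nat_lit 459666720769)) (.cons (.ev (nat_lit 310693935713018391465820416) (nat_lit 1)) .nil))) .nil)))) (.cons (.br (nat_lit 3) (nat_lit 0) (.cons (.br (nat_lit 12) (nat_lit 0) (.cons (.ev (nat_lit 79228162514336395191893623041) (nat_lit 1)) (.cons (.rf (nat_lit 715) (nat_lit 458894706720)) .nil))) (.cons (.ev (nat_lit 79228162514336395191893622784) (nat_lit 1)) (.cons (.br (nat_lit 12) (nat_lit 0) (.cons (.rf (nat_lit 715) (nat_lit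 458593011713)) (.cons (.ev (nat_lit 79228162514336395191893623041) (nat_lit 1)) .nil))) .nil)))) (.cons (.rf (nat_lit 709) (nat_lit 13313)) .nil))))),
 (.br (nat_lit 11) (nat_lit 0) (.cons (.ev (nat_lit 310693935713018391465820416) (nat_lit 1)) (.cons (.rf (nat_lit 717) (nat_lit 459934894112)) .nil))),
 (.br (nat_lit 4) (nat_lit 0) (.cons (.ev (nat_lit 310693935713018391465820416) (nat_lit 1)) (.cons (.rf (nat_lit 719) (nat_lit 459934894112)) .nil))),
 (.br (nat_lit 8) (nat_lit 0) (.cons (.rf (nat_lit 719) (nat_lit 352492587040)) (.cons (.rf (nat_lit 717) (nat_lit 348002715649)) (.cons (.ev (nat_lit 18447025548703039744) (nat_lit 1)) .nil)))),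
 (.br (nat_lit 1) (nat_lit 0) (.cons (.kr (nat_lit 1213648186098598331547650) (nat_lit 18519083142724190720) (nat_lit 0) (nat_lit 2)) (.cons (.rf (nat_lit 781) (nat_lit 14242959524133701664)) (.cons (.br (nat_lit 3) (nat_lit 0) (.cons (.rf (nat_lit 782) (nat_lit 14242959524133701664)) (.cons (.ev (nat_lit 310693935713018391465820161) (nat_lit 1)) (.cons (.rf (nat_lit 783) (nat_lit 14242959524133701664)) (.cons (.rf (nat_lit 784) (nat_lit 15071356093827104)) .nil))))) (.cons (.rf (nat_lit 709) (nat_lit 13313)) .nil))))),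
 (.br (nat_lit 1) (nat_lit 0) (.cons (.br (nat_lit 1) (nat_lit 0) (.cons (.kr (nat_lit 1) (nat_lit 256) (nat_lit 0) (nat_lit 2)) (.cons (.kr (nat_lit 1213648186098598331547650) (nat_lit 18519083142724190720) (nat_lit 0) (nat_lit 2)) (.cons (.kr (nat_lit 4722366482869645213697) (nat_lit 18446744073709551872) (nat_lit 0) (nat_lit 2)) (.cons (.rf (nat_lit 709) (nat_lit 13313)) .nil))))) (.cons (.rf (nat_lit 781) (nat_lit 14242959524133701664)) (.cons (.rf (nat_lit 785) (nat_lit 14242959524133701664)) (.cons (.br (nat_lit 1) (nat_lit 0) (.cons (.kr (nat_lit 4722366482869645213697) (nat_lit 18446744073709551872) (nat_lit 0) (nat_lit 2)) (.cons (.rf (nat_lit 781) (nat_lit 14242959524133701664)) (.cons (.rf (nat_lit 785) (nat_lit 14242959524133701664)) (.cons (.rf (nat_lit 709) (nat_lit 13313)) .nil))))) (.cons (.rf (nat_lit 709) (nat_lit 13313)) .nil)))))),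
 (.br (nat_lit 1) (nat_lit 0) (.cons (.rf (nat_lit 781) (nat_lit 14242959524133701664)) (.cons (.rf (nat_lit 781) (nat_lit 14242959524133669920)) (.cons (.br (nat_lit 2) (nat_lit 0) (.cons (.kr (nat_lit 65536) (nat_lit 16777216) (nat_lit 2) (nat_lit 0)) (.cons (.ev (nat_lit 310693935713018391449108481) (nat_lit 1)) (.cons (.ev (nat_lit 79229376180897461744856793088) (nat_lit 1)) (.cons (.br (nat_lit 3) (nat_lit 0) (.cons (.ev (nat_lit 309489750634853487073034241) (nat_lit 1)) (.cons (.ev (nat_lit 79229376180897461744873504768) (nat_lit 1)) (.cons (.br (nat_lit 13) (nat_lit 0) (.cons (.ev (nat_lit 1239163224943412564298170882) (nat_lit 3)) (.cons (.ev (nat_lit 316913892058107233388319868418) (nat_lit 3)) .nil))) .nil)))) .nil))))) (.cons (.rf (nat_lit 709) (nat_lit 13313)) .nil))))),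
 (.br (nat_lit 1) (nat_lit 0) (.cons (.rf (nat_lit 781) (nat_lit 14242959524133701664)) (.cons (.rf (nat_lit 781) (nat_lit 14242959524133669920)) (.cons (.rf (nat_lit 787) (nat_lit 14242959524133701664)) (.cons (.br (nat_lit 1) (nat_lit 0) (.cons (.rf (nat_lit 781) (nat_lit 14242959524133701664)) (.cons (.rf (nat_lit 781) (nat_lit 14242959524133669920)) (.cons (.rf (nat_lit 787) (nat_lit 14242959524133701664)) (.cons (.rf (nat_lit 709) (nat_lit 13313)) .nil))))) (.cons (.rf (nat_lit 709) (nat_lit 13313)) .nil)))))),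
 (.br (nat_lit 1) (nat_lit 0) (.cons (.rf (nat_lit 786) (nat_lit 14242959524133701664)) (.cons (.rf (nat_lit 786) (nat_lit 14242959524133669920)) (.cons (.rf (nat_lit 788) (nat_lit 14242959524133701664)) (.cons (.br (nat_lit 1) (nat_lit 0) (.cons (.rf (nat_lit 786) (nat_lit 14242959524133701664)) (.cons (.rf (nat_lit 786) (nat_lit 14242959524133669920)) (.cons (.rf (nat_lit 788) (nat_lit 14242959524133701664)) (.cons (.rf (nat_lit 709) (nat_lit 13313)) .nil))))) (.cons (.rf (nat_lit 709) (nat_lit 13313)) .nil)))))),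
 (.br (nat_lit 9) (nat_lit 0) (.cons (.br (nat_lit 1) (nat_lit 0) (.cons (.rf (nat_lit 786) (nat_lit 14242959524133701664)) (.cons (.rf (nat_lit 786) (nat_lit 14242959524133669920)) (.cons (.rf (nat_lit 788) (nat_lit 14242959524133701664)) (.cons (.rf (nat_lit 789) (nat_lit 14242959524133701664)) (.cons (.br (nat_lit 1) (nat_lit 0) (.cons (.rf (nat_lit 786) (nat_lit 14242959524133701664)) (.cons (.rf (nat_lit 786) (nat_lit 14242959524133669920)) (.cons (.rf (nat_lit 788) (nat_lit 14242959524133701664)) (.cons (.rf (nat_lit 789) (nat_lit 14242959524133701664)) (.cons (.rf (nat_lit 709) (nat_lit 13313)) .nil)))))) (.cons (.rf (nat_lit 709) (nat_lit 13313)) .nil))))))) .nil)),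
 (.br (nat_lit 10) (nat_lit 0) (.cons (.rf (nat_lit 66) (nat_lit 4868955556910178)) (.cons (.br (nat_lit 4) (nat_lit 1) (.cons (.rf (nat_lit 790) (nat_lit 14242959524133701664)) (.cons (.rf (nat_lit 790) (nat_lit 14242925439273240608)) .nil))) (.cons (.rf (nat_lit 13) (nat_lit 258703401293922)) .nil)))),
 (.br (nat_lit 6) (nat_lit 0) (.cons (.rf (nat_lit 780) (nat_lit 8207103961434144)) (.cons (.rf (nat_lit 620) (nat_lit 6655138)) (.cons (.br (nat_lit 7) (nat_lit 0) (.cons (.rf (nat_lit 791) (nat_lit 14242959524133701664)) (.cons (.rf (nat_lit 13) (nat_lit 365355929539682)) (.cons (.br (nat_lit 10) (nat_lit 0) (.cons (.rf (nat_lit 791) (nat_lit 13122689218864318496)) (.cons (.rf (nat_lit 112) (nat_lit 325709186831714)) .nil))) .nil)))) .nil)))),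
 (.br (nat_lit 1) (nat_lit 0) (.cons (.kr (nat_lit 1) (nat_lit 256) (nat_lit 0) (nat_lit 2)) (.cons (.rf (nat_lit 780) (nat_lit 8207103968806913)) (.cons (.kr (nat_lit 4722366482869645213697) (nat_lit 18446744073709551872) (nat_lit 0) (nat_lit 2)) (.cons (.rf (nat_lit 709) (nat_lit 13313)) .nil))))),
 (.br (nat_lit 1) (nat_lit 0) (.cons (.br (nat_lit 1) (nat_lit 0) (.cons (.kr (nat_lit 1) (nat_lit 256) (nat_lit 0) (nat_lit 2)) (.cons (.rf (nat_lit 780) (nat_lit 11584701650274305)) (.cons (.kr (nat_lit 1213648186098598331547650) (nat_lit 18519083142724190720) (nat_lit 0) (nat_lit 2)) (.cons (.rf (nat_lit 709) (nat_lit 13313)) .nil))))) (.cons (.rf (nat_lit 793) (nat_lit 14242959524133701664)) (.cons (.br (nat_lit 1) (nat_lit 0) (.cons (.rf (nat_lit 780) (nat_lit 11584701650274305)) (.cons (.rf (nat_lit 780) (nat_lit 8207103968806913)) (.cons (.rf (nat_lit 792) (nat_lit 119671092708476929)) (.cons (.rf (nat_lit 709) (nat_lit 13313)) .nil))))) (.cons (.br (nat_lit 1) (nat_lit 0) (.cons (.kr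 (nat_lit 1213648186098598331547650) (nat_lit 18519083142724190720) (nat_lit 0) (nat_lit 2)) (.cons (.kr (nat_lit 4722366482869645213697) (nat_lit 18446744073709551872) (nat_lit 0) (nat_lit 2)) (.cons (.rf (nat_lit 792) (nat_lit 119671092708476929)) (.cons (.rf (nat_lit 709) (nat_lit 13313)) .nil))))) (.cons (.rf (nat_lit 709) (nat_lit 13313)) .nil)))))),
 (.br (nat_lit 11) (nat_lit 0) (.cons (.ev (nat_lit 79537652246452166631442415873) (nat_lit 1)) (.cons (.rf (nat_lit 715) (nat_lit 459934862368)) .nil))),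
 (.br (nat_lit 1) (nat_lit 0) (.cons (.kr (nat_lit 1) (nat_lit 256) (nat_lit 0) (nat_lit 2)) (.cons (.br (nat_lit 12) (nat_lit 0) (.cons (.rf (nat_lit 795) (nat_lit 14242959524133701664)) (.cons (.rf (nat_lit 795) (nat_lit 13918700350963035137)) (.cons (.br (nat_lit 12) (nat_lit 0) (.cons (.rf (nat_lit 795) (nat_lit 14242959524133701664)) (.cons (.rf (nat_lit 795) (nat_lit 13918700350963035137)) .nil))) .nil)))) (.cons (.ev (nat_lit 4722438823042466447616) (nat_lit 1)) (.cons (.rf (nat_lit 709) (nat_lit 13313)) .nil))))),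
 (.br (nat_lit 1) (nat_lit 0) (.cons (.rf (nat_lit 780) (nat_lit 11584701650274305)) (.cons (.rf (nat_lit 796) (nat_lit 14242959524133701664)) (.cons (.br (nat_lit 2) (nat_lit 0) (.cons (.br (nat_lit 11) (nat_lit 0) (.cons (.ev (nat_lit 79229376180897179166090264833) (nat_lit 1)) (.cons (.rf (nat_lit 717) (nat_lit 459934862368)) .nil))) (.cons (.br (nat_lit 4) (nat_lit 0) (.cons (.ev (nat_lit 79229376180897179166090264833) (nat_lit 1)) (.cons (.rf (nat_lit 719) (nat_lit 458894674976)) .nil))) (.cons (.ev (nat_lit 79229376180897179166090264576) (nat_lit 1)) (.cons (.br (nat_lit 11) (nat_lit 0) (.cons (.rf (nat_lit 719) (nat_lit 458892643360)) (.cons (.rf (nat_lit 717) (nat_lit 451051621377)) (.cons (.rf (nat_lit 784) (nat_lit 14711711680793601)) .nil)))) .nil))))) (.cons (.rf (nat_lit 709) (nat_lit 13313)) .nil))))),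
 (.br (nat_lit 1) (nat_lit 0) (.cons (.rf (nat_lit 794) (nat_lit 14242959524133701664)) (.cons (.rf (nat_lit 796) (nat_lit 14242959524133701664)) (.cons (.rf (nat_lit 797) (nat_lit 14242959524133701664)) (.cons (.br (nat_lit 1) (nat_lit 0) (.cons (.kr (nat_lit 1213648186098598331547650) (nat_lit 18519083142724190720) (nat_lit 0) (nat_lit 2)) (.cons (.ev (nat_lit 4722438823042466447616) (nat_lit 1)) (.cons (.rf (nat_lit 797) (nat_lit 14242959524133701664)) (.cons (.rf (nat_lit 709) (nat_lit 13313)) .nil))))) (.cons (.rf (nat_lit 709) (nat_lit 13313)) .nil)))))),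
 (.br (nat_lit 1) (nat_lit 0) (.cons (.rf (nat_lit 780) (nat_lit 8207103968806913)) (.cons (.rf (nat_lit 796) (nat_lit 14242959524133701664)) (.cons (.br (nat_lit 2) (nat_lit 0) (.cons (.br (nat_lit 11) (nat_lit 0) (.cons (.ev (nat_lit 79538856468424380434184470785) (nat_lit 1)) (.cons (.rf (nat_lit 717) (nat_lit 459933814816)) .nil))) (.cons (.br (nat_lit 3) (nat_lit 0) (.cons (.ev (nat_lit 79538856468424380434184470785) (nat_lit 1)) (.cons (.rf (nat_lit 719) (nat_lit 458893627424)) .nil))) (.cons (.br (nat_lit 3) (nat_lit 0) (.cons (.ev (nat_lit 79538856468424380434184470785) (nat_lit 1)) (.cons (.rf (nat_lit 719) (nat_lit 459933814816)) .nil))) (.cons (.br (nat_lit 3) (nat_lit 0) (.cons (.rf (nat_lit 719) (nat_lit 458892611616)) (.cons (.rf (nat_lit 719) (nat_lit 459932799008)) (.cons (.br (nat_lit 11) (nat_lit 0) (.cons (.kr (nat_lit 309485046714833216143950080) (nat_lit 79229371440083953326542028800) (nat_lit 1) (nat_lit 0)) (.cons (.br (nat_lit 12) (nat_lit 0) (.cons (.ev (nat_lit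 79538856468424380434184470528) (nat_lit 1)) .nil)) .nil))) .nil)))) .nil))))) (.cons (.rf (nat_lit 709) (nat_lit 13313)) .nil))))),
 (.br (nat_lit 1) (nat_lit 0) (.cons (.rf (nat_lit 793) (nat_lit 14242959524133701664)) (.cons (.rf (nat_lit 796) (nat_lit 14242959524133701664)) (.cons (.rf (nat_lit 799) (nat_lit 14242959524133701664)) (.cons (.br (nat_lit 1) (nat_lit 0) (.cons (.kr (nat_lit 4722366482869645213697) (nat_lit 18446744073709551872) (nat_lit 0) (nat_lit 2)) (.cons (.ev (nat_lit 4722438823042466447616) (nat_lit 1)) (.cons (.rf (nat_lit 799) (nat_lit 14242959524133701664)) (.cons (.rf (nat_lit 709) (nat_lit 13313)) .nil))))) (.cons (.rf (nat_lit 709) (nat_lit 13313)) .nil)))))),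
 (.br (nat_lit 1) (nat_lit 0) (.cons (.rf (nat_lit 794) (nat_lit 14242959524133701664)) (.cons (.rf (nat_lit 798) (nat_lit 14242959524133701664)) (.cons (.rf (nat_lit 800) (nat_lit 14242959524133701664)) (.cons (.br (nat_lit 1) (nat_lit 0) (.cons (.rf (nat_lit 792) (nat_lit 119671092708476929)) (.cons (.rf (nat_lit 798) (nat_lit 14242959524133701664)) (.cons (.rf (nat_lit 800) (nat_lit 14242959524133701664)) (.cons (.rf (nat_lit 709) (nat_lit 13313)) .nil))))) (.cons (.rf (nat_lit 709) (nat_lit 13313)) .nil)))))),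
 (.br (nat_lit 9) (nat_lit 0) (.cons (.br (nat_lit 1) (nat_lit 0) (.cons (.rf (nat_lit 794) (nat_lit 14242959524133701664)) (.cons (.rf (nat_lit 798) (nat_lit 14242959524133701664)) (.cons (.rf (nat_lit 800) (nat_lit 14242959524133701664)) (.cons (.rf (nat_lit 801) (nat_lit 14242959524133701664)) (.cons (.br (nat_lit 1) (nat_lit 0) (.cons (.rf (nat_lit 794) (nat_lit 14242959524133701664)) (.cons (.rf (nat_lit 798) (nat_lit 14242959524133701664)) (.cons (.rf (nat_lit 800) (nat_lit 14242959524133701664)) (.cons (.rf (nat_lit 801) (nat_lit 14242959524133701664)) (.cons (.rf (nat_lit 709) (nat_lit 13313)) .nil)))))) (.cons (.rf (nat_lit 709) (nat_lit 13313)) .nil))))))) .nil)),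
 (.br (nat_lit 10) (nat_lit 0) (.cons (.rf (nat_lit 112) (nat_lit 325700597159010)) (.cons (.br (nat_lit 3) (nat_lit 1) (.cons (.rf (nat_lit 802) (nat_lit 14242959524133701664)) (.cons (.rf (nat_lit 802) (nat_lit 14242925439273240608)) .nil))) .nil))),
 (.br (nat_lit 1) (nat_lit 0) (.cons (.kr (nat_lit 1) (nat_lit 256) (nat_lit 0) (nat_lit 2)) (.cons (.br (nat_lit 3) (nat_lit 0) (.cons (.ev (nat_lit 309485028340147836000665856) (nat_lit 1)) (.cons (.br (nat_lit 11) (nat_lit 0) (.cons (.ev (nat_lit 309485028340147836000665601) (nat_lit 1)) (.cons (.rf (nat_lit 715) (nat_lit 459934894112)) .nil))) (.cons (.br (nat_lit 11) (nat_lit 0) (.cons (.rf (nat_lit 715) (nat_lit 459666720769)) (.cons (.ev (nat_lit 309485028340147836000665601) (nat_lit 1)) .nil))) .nil)))) (.cons (.rf (nat_lit 780) (nat_lit 8207103969855489)) (.cons (.rf (nat_lit 709) (nat_lit 13313)) .nil)))))]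

theorem c24 : chkAll C T R L24 (nat_lit 775) = true := by decide +kernel

theorem l24 : (nat_lit 775) + L24.length = (nat_lit 805) := by decide +kernel

/-- part of the certificates -/
def L25 : List Prf := [(.br (nat_lit 4) (nat_lit 0) (.cons (.ev (nat_lit 310693954087985246602526721) (nat_lit 1)) (.cons (.rf (nat_lit 719) (nat_lit 459934894112)) .nil))),
 (.br (nat_lit 1) (nat_lit 0) (.cons (.kr (nat_lit 1213648186098598331547650) (nat_lit 18519083142724190720) (nat_lit 0) (nat_lit 2)) (.cons (.rf (nat_lit 804) (nat_lit 14242959524133701664)) (.cons (.br (nat_lit 3) (nat_lit 0) (.cons (.br (nat_lit 11) (nat_lit 0) (.cons (.ev (nat_lit 310693954087985246602526721) (nat_lit 1)) (.cons (.rf (nat_lit 717) (nat_lit 459934894112)) .nil))) (.cons (.ev (nat_lit 309489732259886631936327936) (nat_lit 1)) (.cons (.rf (nat_lit 805) (nat_lit 14242959524133701664)) (.cons (.br (nat_lit 11) (nat_lit 0) (.cons (.rf (nat_lit 719) (nat_lit 458893690912)) (.cons (.rf (nat_lit 717) (nat_lit 451085174785))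 (.cons (.ev (nat_lit 310698658007724042538188801) (nat_lit 1)) .nil)))) .nil))))) (.cons (.rf (nat_lit 709) (nat_lit 13313)) .nil))))),
 (.br (nat_lit 1) (nat_lit 0) (.cons (.rf (nat_lit 793) (nat_lit 14239581926451185696)) (.cons (.rf (nat_lit 804) (nat_lit 14242959524133701664)) (.cons (.rf (nat_lit 806) (nat_lit 14242959524133701664)) (.cons (.br (nat_lit 1) (nat_lit 0) (.cons (.kr (nat_lit 4722366482869645213697) (nat_lit 18446744073709551872) (nat_lit 0) (nat_lit 2)) (.cons (.rf (nat_lit 780) (nat_lit 8207103969855489)) (.cons (.rf (nat_lit 806) (nat_lit 14242959524133701664)) (.cons (.rf (nat_lit 709) (nat_lit 13313)) .nil))))) (.cons (.rf (nat_lit 709) (nat_lit 13313)) .nil)))))),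
 (.br (nat_lit 11) (nat_lit 0) (.cons (.ev (nat_lit 79229371440084234801518739713) (nat_lit 1)) (.cons (.rf (nat_lit 715) (nat_lit 459934862368)) .nil))),
 (.br (nat_lit 2) (nat_lit 0) (.cons (.ev (nat_lit 79229371440084234801518739713) (nat_lit 1)) (.cons (.rf (nat_lit 715) (nat_lit 459633167361)) .nil))),
 (.br (nat_lit 12) (nat_lit 0) (.cons (.ev (nat_lit 310698658007724042538189056) (nat_lit 1)) (.cons (.rf (nat_lit 715) (nat_lit 458894674976)) .nil))),
 (.br (nat_lit 2) (nat_lit 0) (.cons (.ev (nat_lit 1208925891954797717750016) (nat_lit 1)) (.cons (.rf (nat_lit 715) (nat_lit 423125945345)) .nil))),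
 (.br (nat_lit 1) (nat_lit 0) (.cons (.kr (nat_lit 1) (nat_lit 256) (nat_lit 0) (nat_lit 2)) (.cons (.br (nat_lit 12) (nat_lit 0) (.cons (.rf (nat_lit 808) (nat_lit 14242959524133701664)) (.cons (.rf (nat_lit 809) (nat_lit 14242959524133701664)) (.cons (.br (nat_lit 12) (nat_lit 0) (.cons (.rf (nat_lit 808) (nat_lit 14242959524133701664)) (.cons (.rf (nat_lit 809) (nat_lit 14242959524133701664)) .nil))) .nil)))) (.cons (.br (nat_lit 11) (nat_lit 0) (.cons (.rf (nat_lit 810) (nat_lit 14242959524133701664)) (.cons (.rf (nat_lit 811) (nat_lit 445092485094541344)) (.cons (.br (nat_lit 11) (nat_lit 0) (.cons (.rf (nat_lit 810) (nat_lit 14242959524133701664)) (.cons (.rf (nat_lit 811) (nat_lit 445092485094541344)) .nil))) .nil)))) (.cons (.rf (nat_lit 709) (nat_lit 13313)) .nil))))),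
 (.br (nat_lit 1) (nat_lit 0) (.cons (.kr (nat_lit 1213648186098598331547650) (nat_lit 18519083142724190720) (nat_lit 0) (nat_lit 2)) (.cons (.rf (nat_lit 812) (nat_lit 14242959524133701664)) (.cons (.br (nat_lit 4) (nat_lit 0) (.cons (.br (nat_lit 11) (nat_lit 0) (.cons (.ev (nat_lit 79229376180897461744873505025) (nat_lit 1)) (.cons (.rf (nat_lit 717) (nat_lit 459934862368)) .nil))) (.cons (.br (nat_lit 2) (nat_lit 0) (.cons (.ev (nat_lit 79229376180897461744873505025) (nat_lit 1)) (.cons (.rf (nat_lit 719) (nat_lit 458892643360)) .nil))) (.cons (.ev (nat_lit 79229376180897461744873504768) (nat_lit 1)) (.cons (.br (nat_lit 12) (nat_lit 0) (.cons (.rf (nat_lit 719) (nat_lit 459934862368)) (.cons (.rf (nat_lit 717) (nat_lit 448971246593)) (.cons (.ev (nat_lit 79229371440084234801518739456) (nat_lit 1)) .nil)))) .nil))))) (.cons (.rf (nat_lit 709) (nat_lit 13313)) .nil))))),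
 (.br (nat_lit 1) (nat_lit 0) (.cons (.rf (nat_lit 793) (nat_lit 14239581926451185696)) (.cons (.rf (nat_lit 812) (nat_lit 14242959524133701664)) (.cons (.rf (nat_lit 813) (nat_lit 14242959524133701664)) (.cons (.br (nat_lit 1) (nat_lit 0) (.cons (.kr (nat_lit 4722366482869645213697) (nat_lit 18446744073709551872) (nat_lit 0) (nat_lit 2)) (.cons (.rf (nat_lit 812) (nat_lit 14242959524133701664)) (.cons (.rf (nat_lit 813) (nat_lit 14242959524133701664)) (.cons (.rf (nat_lit 709) (nat_lit 13313)) .nil))))) (.cons (.rf (nat_lit 709) (nat_lit 13313)) .nil)))))),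
 (.br (nat_lit 1) (nat_lit 0) (.cons (.rf (nat_lit 804) (nat_lit 14242959524133701664)) (.cons (.rf (nat_lit 814) (nat_lit 14242959524133701664)) (.cons (.br (nat_lit 2) (nat_lit 0) (.cons (.kr (nat_lit 4740813228042866524160) (nat_lit 1208925891953698222899200) (nat_lit 2) (nat_lit 0)) (.cons (.br (nat_lit 3) (nat_lit 0) (.cons (.ev (nat_lit 1239182077371179956521271810) (nat_lit 3)) (.cons (.rf (nat_lit 719) (nat_lit 458893627424)) .nil))) (.cons (.br (nat_lit 3) (nat_lit 0) (.cons (.ev (nat_lit 1239182150871056173093749250) (nat_lit 3)) (.cons (.rf (nat_lit 719) (nat_lit 459933814816)) .nil))) (.cons (.rf (nat_lit 784) (nat_lit 15071356092747808)) .nil))))) (.cons (.rf (nat_lit 709) (nat_lit 13313)) .nil))))),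
 (.br (nat_lit 1) (nat_lit 0) (.cons (.rf (nat_lit 804) (nat_lit 14242959524133701664)) (.cons (.rf (nat_lit 814) (nat_lit 14242959524133701664)) (.cons (.rf (nat_lit 815) (nat_lit 14242959524133701664)) (.cons (.br (nat_lit 1) (nat_lit 0) (.cons (.rf (nat_lit 780) (nat_lit 8207103969855489)) (.cons (.rf (nat_lit 814) (nat_lit 14242959524133701664)) (.cons (.rf (nat_lit 815) (nat_lit 14242959524133701664)) (.cons (.rf (nat_lit 709) (nat_lit 13313)) .nil))))) (.cons (.rf (nat_lit 709) (nat_lit 13313)) .nil)))))),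
 (.br (nat_lit 1) (nat_lit 0) (.cons (.rf (nat_lit 807) (nat_lit 14242959524133701664)) (.cons (.rf (nat_lit 814) (nat_lit 14242959524133701664)) (.cons (.rf (nat_lit 816) (nat_lit 14242959524133701664)) (.cons (.br (nat_lit 1) (nat_lit 0) (.cons (.rf (nat_lit 807) (nat_lit 14242959524133701664)) (.cons (.rf (nat_lit 814) (nat_lit 14242959524133701664)) (.cons (.rf (nat_lit 816) (nat_lit 14242959524133701664)) (.cons (.rf (nat_lit 709) (nat_lit 13313)) .nil))))) (.cons (.rf (nat_lit 709) (nat_lit 13313)) .nil)))))),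
 (.br (nat_lit 9) (nat_lit 0) (.cons (.br (nat_lit 1) (nat_lit 0) (.cons (.rf (nat_lit 807) (nat_lit 14242959524133701664)) (.cons (.rf (nat_lit 814) (nat_lit 14242959524133701664)) (.cons (.rf (nat_lit 816) (nat_lit 14242959524133701664)) (.cons (.rf (nat_lit 817) (nat_lit 14242959524133701664)) (.cons (.br (nat_lit 1) (nat_lit 0) (.cons (.rf (nat_lit 807) (nat_lit 14242959524133701664)) (.cons (.rf (nat_lit 814) (nat_lit 14242959524133701664)) (.cons (.rf (nat_lit 816) (nat_lit 14242959524133701664)) (.cons (.rf (nat_lit 817) (nat_lit 14242959524133701664)) (.cons (.rf (nat_lit 709) (nat_lit 13313)) .nil)))))) (.cons (.rf (nat_lit 709) (nat_lit 13313)) .nil))))))) .nil)),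
 (.br (nat_lit 11) (nat_lit 1) (.cons (.rf (nat_lit 739) (nat_lit 13662849555672162)) (.cons (.rf (nat_lit 739) (nat_lit 13662816269675618)) (.cons (.br (nat_lit 4) (nat_lit 1) (.cons (.rf (nat_lit 818) (nat_lit 14242959524133701664)) (.cons (.rf (nat_lit 818) (nat_lit 14242925439273240608)) .nil))) .nil)))),
 (.br (nat_lit 1) (nat_lit 0) (.cons (.br (nat_lit 1) (nat_lit 0) (.cons (.kr (nat_lit 1) (nat_lit 256) (nat_lit 0) (nat_lit 2)) (.cons (.kr (nat_lit 1213648186098598331547650) (nat_lit 18519083142724190720) (nat_lit 0) (nat_lit 2)) (.cons (.rf (nat_lit 819) (nat_lit 12834458842711853057)) (.cons (.rf (nat_lit 709) (nat_lit 13313)) .nil))))) (.cons (.rf (nat_lit 793) (nat_lit 13126066816545818656)) (.cons (.br (nat_lit 1) (nat_lit 0) (.cons (.kr (nat_lit 1213648186098598331547650) (nat_lit 18519083142724190720) (nat_lit 0) (nat_lit 2)) (.cons (.kr (nat_lit 4722366482869645213697) (nat_lit 18446744073709551872) (nat_lit 0) (nat_lit 2)) (.cons (.rf (nat_lit 819) (nat_lit 3611086805865465857))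 (.cons (.rf (nat_lit 709) (nat_lit 13313)) .nil))))) (.cons (.br (nat_lit 1) (nat_lit 0) (.cons (.rf (nat_lit 819) (nat_lit 12834458842711853057)) (.cons (.rf (nat_lit 780) (nat_lit 8207103969855489)) (.cons (.rf (nat_lit 819) (nat_lit 3611086805865465857)) (.cons (.rf (nat_lit 709) (nat_lit 13313)) .nil))))) (.cons (.rf (nat_lit 709) (nat_lit 13313)) .nil)))))),
 (.br (nat_lit 11) (nat_lit 0) (.cons (.zr (nat_lit 79847132533907027739617001474) (nat_lit 18518801667747676928) (nat_lit 5) (nat_lit 1)) (.cons (.rf (nat_lit 715) (nat_lit 459934862368)) .nil))),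
 (.br (nat_lit 2) (nat_lit 0) (.cons (.zr (nat_lit 79847132533907027739617001474) (nat_lit 18518801667747676928) (nat_lit 5) (nat_lit 1)) (.cons (.rf (nat_lit 715) (nat_lit 459633167361)) .nil))),
 (.br (nat_lit 1) (nat_lit 0) (.cons (.kr (nat_lit 1) (nat_lit 256) (nat_lit 0) (nat_lit 2)) (.cons (.br (nat_lit 12) (nat_lit 0) (.cons (.rf (nat_lit 821) (nat_lit 14242959524133701664)) (.cons (.rf (nat_lit 822) (nat_lit 14242959524133701664)) (.cons (.br (nat_lit 12) (nat_lit 0) (.cons (.rf (nat_lit 821) (nat_lit 14242959524133701664)) (.cons (.rf (nat_lit 822) (nat_lit 14242959524133701664)) .nil))) .nil)))) (.cons (.ev (nat_lit 4722438823042466447616) (nat_lit 1)) (.cons (.rf (nat_lit 709) (nat_lit 13313)) .nil))))),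
 (.br (nat_lit 1) (nat_lit 0) (.cons (.kr (nat_lit 1213648186098598331547650) (nat_lit 18519083142724190720) (nat_lit 0) (nat_lit 2)) (.cons (.rf (nat_lit 823) (nat_lit 14242959524133701664)) (.cons (.br (nat_lit 12) (nat_lit 0) (.cons (.rf (nat_lit 805) (nat_lit 2458131216398158849)) (.cons (.ev (nat_lit 79228167236702879161033687041) (nat_lit 1)) (.cons (.br (nat_lit 2) (nat_lit 0) (.cons (.ev (nat_lit 79229371458530977775699886336) (nat_lit 1)) (.cons (.rf (nat_lit 717) (nat_lit 451051621377)) .nil))) (.cons (.br (nat_lit 2) (nat_lit 0) (.cons (.rf (nat_lit 717) (nat_lit 458894674976)) (.cons (.rf (nat_lit 719) (nat_lit 448971246593)) (.cons (.br (nat_lit 11) (nat_lit 0) (.cons (.rf (nat_lit 719) (nat_lit 458892643360)) (.cons (.ev (nat_lit 310693954159761365663809793) (nat_lit 1)) .nil))) .nil)))) .nil))))) (.cons (.rf (nat_lit 709) (nat_lit 13313)) .nil))))),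
 (.br (nat_lit 1) (nat_lit 0) (.cons (.rf (nat_lit 820) (nat_lit 14242959524133701664)) (.cons (.rf (nat_lit 823) (nat_lit 14242959524133701664)) (.cons (.rf (nat_lit 824) (nat_lit 14242959524133701664)) (.cons (.br (nat_lit 1) (nat_lit 0) (.cons (.rf (nat_lit 819) (nat_lit 12834458842711853057)) (.cons (.ev (nat_lit 4722438823042466447616) (nat_lit 1)) (.cons (.rf (nat_lit 824) (nat_lit 14242959524133701664)) (.cons (.rf (nat_lit 709) (nat_lit 13313)) .nil))))) (.cons (.rf (nat_lit 709) (nat_lit 13313)) .nil)))))),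
 (.br (nat_lit 1) (nat_lit 0) (.cons (.rf (nat_lit 793) (nat_lit 13126066816545818656)) (.cons (.rf (nat_lit 825) (nat_lit 14242959524133701664)) (.cons (.br (nat_lit 1) (nat_lit 0) (.cons (.kr (nat_lit 4722366482869645213697) (nat_lit 18446744073709551872) (nat_lit 0) (nat_lit 2)) (.cons (.rf (nat_lit 825) (nat_lit 14242959524133701664)) (.cons (.ev (nat_lit 18519084246530785536) (nat_lit 1)) (.cons (.rf (nat_lit 709) (nat_lit 13313)) .nil))))) (.cons (.br (nat_lit 1) (nat_lit 0) (.cons (.rf (nat_lit 780) (nat_lit 8207103969855489)) (.cons (.ev (nat_lit 4722438823042466447616) (nat_lit 1)) (.cons (.ev (nat_lit 18519084246530785536) (nat_lit 1)) (.cons (.rf (nat_lit 709) (nat_lit 13313)) .nil))))) (.cons (.rf (nat_lit 709) (nat_lit 13313)) .nil)))))),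
 (.br (nat_lit 1) (nat_lit 0) (.cons (.rf (nat_lit 820) (nat_lit 14242959524133701664)) (.cons (.rf (nat_lit 825) (nat_lit 14242959524133701664)) (.cons (.rf (nat_lit 826) (nat_lit 14242959524133701664)) (.cons (.br (nat_lit 1) (nat_lit 0) (.cons (.rf (nat_lit 819) (nat_lit 3611086805865465857)) (.cons (.rf (nat_lit 825) (nat_lit 14242959524133701664)) (.cons (.ev (nat_lit 18519084246530785536) (nat_lit 1)) (.cons (.rf (nat_lit 709) (nat_lit 13313)) .nil))))) (.cons (.rf (nat_lit 709) (nat_lit 13313)) .nil)))))),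
 (.br (nat_lit 4) (nat_lit 0) (.cons (.ev (nat_lit 309489750706629610429219073) (nat_lit 1)) (.cons (.br (nat_lit 11) (nat_lit 0) (.cons (.ev (nat_lit 309489750706629610429218816) (nat_lit 1)) (.cons (.rf (nat_lit 715) (nat_lit 426413230081)) .nil))) (.cons (.br (nat_lit 11) (nat_lit 0) (.cons (.ev (nat_lit 309489750706629610429218816) (nat_lit 1)) (.cons (.rf (nat_lit 715) (nat_lit 459933878304)) .nil))) .nil)))),
 (.br (nat_lit 11) (nat_lit 0) (.cons (.ev (nat_lit 79537652246452166631442415873) (nat_lit 1)) (.cons (.rf (nat_lit 715) (nat_lit 459934894112)) .nil))),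
 (.br (nat_lit 1) (nat_lit 0) (.cons (.kr (nat_lit 1) (nat_lit 256) (nat_lit 0) (nat_lit 2)) (.cons (.br (nat_lit 12) (nat_lit 0) (.cons (.rf (nat_lit 829) (nat_lit 14242959524133701664)) (.cons (.rf (nat_lit 829) (nat_lit 13952479547191822337)) (.cons (.br (nat_lit 12) (nat_lit 0) (.cons (.rf (nat_lit 829) (nat_lit 14242959524133701664)) (.cons (.rf (nat_lit 829) (nat_lit 13952479547191822337)) .nil))) .nil)))) (.cons (.kr (nat_lit 4722366482869645213697) (nat_lit 18446744073709551872) (nat_lit 0) (nat_lit 2)) (.cons (.rf (nat_lit 709) (nat_lit 13313)) .nil))))),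
 (.br (nat_lit 1) (nat_lit 0) (.cons (.br (nat_lit 1) (nat_lit 0) (.cons (.kr (nat_lit 1) (nat_lit 256) (nat_lit 0) (nat_lit 2)) (.cons (.kr (nat_lit 1213648186098598331547650) (nat_lit 18519083142724190720) (nat_lit 0) (nat_lit 2)) (.cons (.rf (nat_lit 828) (nat_lit 443930265870501920)) (.cons (.rf (nat_lit 709) (nat_lit 13313)) .nil))))) (.cons (.rf (nat_lit 830) (nat_lit 14242959524133701664)) (.cons (.br (nat_lit 1) (nat_lit 0) (.cons (.kr (nat_lit 1213648186098598331547650) (nat_lit 18519083142724190720) (nat_lit 0) (nat_lit 2)) (.cons (.rf (nat_lit 830) (nat_lit 14242959524133701664)) (.cons (.kr (nat_lit 1223092919064337621975042) (nat_lit 55412571290143293952) (nat_lit 0) (nat_lit 2)) (.cons (.rf (nat_lit 709) (nat_lit 13313)) .nil))))) (.cons (.br (nat_lit 1) (nat_lit 0) (.cons (.rf (nat_lit 828) (nat_lit 443930265870501920)) (.cons (.kr (nat_lit 4722366482869645213697) (nat_lit 18446744073709551872) (nat_lit 0) (nat_lit 2)) (.cons (.kr (nat_lit 1223092919064337621975042) (nat_lit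 55412571290143293952) (nat_lit 0) (nat_lit 2)) (.cons (.rf (nat_lit 709) (nat_lit 13313)) .nil))))) (.cons (.rf (nat_lit 709) (nat_lit 13313)) .nil)))))),
 (.br (nat_lit 12) (nat_lit 0) (.cons (.ev (nat_lit 79537652246452166631442415873) (nat_lit 1)) (.cons (.rf (nat_lit 715) (nat_lit 458894674976)) .nil))),
 (.br (nat_lit 2) (nat_lit 0) (.cons (.ev (nat_lit 79537652246452166631442415873) (nat_lit 1)) (.cons (.rf (nat_lit 715) (nat_lit 458559458305)) .nil))),
 (.br (nat_lit 1) (nat_lit 0) (.cons (.kr (nat_lit 1) (nat_lit 256) (nat_lit 0) (nat_lit 2)) (.cons (.ev (nat_lit 4722438823042466447616) (nat_lit 1)) (.cons (.br (nat_lit 11) (nat_lit 0) (.cons (.rf (nat_lit 832) (nat_lit 14242959524133701664)) (.cons (.rf (nat_lit 833) (nat_lit 14242959524133701664)) (.cons (.br (nat_lit 11) (nat_lit 0) (.cons (.rf (nat_lit 832) (nat_lit 14242959524133701664)) (.cons (.rf (nat_lit 833) (nat_lit 14242959524133701664)) .nil))) .nil)))) (.cons (.rf (nat_lit 709) (nat_lit 13313)) .nil))))),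
 (.br (nat_lit 1) (nat_lit 0) (.cons (.kr (nat_lit 1213648186098598331547650) (nat_lit 18519083142724190720) (nat_lit 0) (nat_lit 2)) (.cons (.ev (nat_lit 4722438823042466447616) (nat_lit 1)) (.cons (.br (nat_lit 2) (nat_lit 0) (.cons (.rf (nat_lit 782) (nat_lit 14242959524133669920)) (.cons (.ev (nat_lit 309489750634853487056322561) (nat_lit 1)) (.cons (.rf (nat_lit 783) (nat_lit 14242959524133669920)) (.cons (.br (nat_lit 4) (nat_lit 0) (.cons (.rf (nat_lit 719) (nat_lit 458892643360)) (.cons (.rf (nat_lit 719) (nat_lit 459932830752)) (.cons (.br (nat_lit 12) (nat_lit 0) (.cons (.rf (nat_lit 717) (nat_lit 451051621377)) (.cons (.ev (nat_lit 79229371440084234801518739456) (nat_lit 1)) .nil))) .nil)))) .nil))))) (.cons (.rf (nat_lit 709) (nat_lit 13313)) .nil))))),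
 (.br (nat_lit 1) (nat_lit 0) (.cons (.rf (nat_lit 831) (nat_lit 14242959524133701664)) (.cons (.rf (nat_lit 834) (nat_lit 14242959524133701664)) (.cons (.rf (nat_lit 835) (nat_lit 14242959524133701664)) (.cons (.br (nat_lit 1) (nat_lit 0) (.cons (.rf (nat_lit 828) (nat_lit 443930265870501920)) (.cons (.rf (nat_lit 834) (nat_lit 14242959524133701664)) (.cons (.rf (nat_lit 835) (nat_lit 14242959524133701664)) (.cons (.rf (nat_lit 709) (nat_lit 13313)) .nil))))) (.cons (.rf (nat_lit 709) (nat_lit 13313)) .nil))))))]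

theorem c25 : chkAll C T R L25 (nat_lit 805) = true := by decide +kernel

theorem l25 : (nat_lit 805) + L25.length = (nat_lit 837) := by decide +kernel

/-- part of the certificates -/
def L26 : List Prf := [(.br (nat_lit 1) (nat_lit 0) (.cons (.rf (nat_lit 830) (nat_lit 14242959524133701664)) (.cons (.rf (nat_lit 834) (nat_lit 14242959524133701664)) (.cons (.br (nat_lit 1) (nat_lit 0) (.cons (.rf (nat_lit 830) (nat_lit 14242959524133701664)) (.cons (.ev (nat_lit 4722438823042466447616) (nat_lit 1)) (.cons (.ev (nat_lit 18519084246530785536) (nat_lit 1)) (.cons (.rf (nat_lit 709) (nat_lit 13313)) .nil))))) (.cons (.br (nat_lit 1) (nat_lit 0) (.cons (.kr (nat_lit 4722366482869645213697) (nat_lit 18446744073709551872) (nat_lit 0) (nat_lit 2)) (.cons (.rf (nat_lit 834) (nat_lit 14242959524133701664)) (.cons (.ev (nat_lit 18519084246530785536) (nat_lit 1)) (.cons (.rf (nat_lit 709) (nat_lit 13313)) .nil))))) (.cons (.rf (nat_lit 709) (nat_lit 13313)) .nil)))))),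
 (.br (nat_lit 1) (nat_lit 0) (.cons (.rf (nat_lit 831) (nat_lit 14242959524133701664)) (.cons (.rf (nat_lit 836) (nat_lit 14242959524133701664)) (.cons (.rf (nat_lit 837) (nat_lit 14242959524133701664)) (.cons (.br (nat_lit 1) (nat_lit 0) (.cons (.kr (nat_lit 1223092919064337621975042) (nat_lit 55412571290143293952) (nat_lit 0) (nat_lit 2)) (.cons (.rf (nat_lit 836) (nat_lit 14242959524133701664)) (.cons (.ev (nat_lit 18519084246530785536) (nat_lit 1)) (.cons (.rf (nat_lit 709) (nat_lit 13313)) .nil))))) (.cons (.rf (nat_lit 709) (nat_lit 13313)) .nil)))))),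
 (.br (nat_lit 9) (nat_lit 0) (.cons (.br (nat_lit 10) (nat_lit 0) (.cons (.br (nat_lit 1) (nat_lit 0) (.cons (.rf (nat_lit 820) (nat_lit 14242959524133701664)) (.cons (.rf (nat_lit 825) (nat_lit 14242959524133701664)) (.cons (.rf (nat_lit 826) (nat_lit 14242959524133701664)) (.cons (.rf (nat_lit 827) (nat_lit 14242959524133701664)) (.cons (.br (nat_lit 1) (nat_lit 0) (.cons (.rf (nat_lit 820) (nat_lit 14242959524133701664)) (.cons (.rf (nat_lit 825) (nat_lit 14242959524133701664)) (.cons (.rf (nat_lit 826) (nat_lit 14242959524133701664)) (.cons (.rf (nat_lit 827) (nat_lit 14242959524133701664)) (.cons (.rf (nat_lit 709) (nat_lit 13313)) .nil)))))) (.cons (.rf (nat_lit 709) (nat_lit 13313)) .nil))))))) .nil)) (.cons (.br (nat_lit 10) (nat_lit 0) (.cons (.br (nat_lit 1) (nat_lit 0) (.cons (.rf (nat_lit 831) (nat_lit 14242959524133701664)) (.cons (.rf (nat_lit 836) (nat_lit 14242959524133701664)) (.cons (.rf (nat_lit 837) (nat_lit 14242959524133701664)) (.cons (.rf (nat_lit 838) (nat_lit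 14242959524133701664)) (.cons (.br (nat_lit 1) (nat_lit 0) (.cons (.rf (nat_lit 831) (nat_lit 14242959524133701664)) (.cons (.rf (nat_lit 836) (nat_lit 14242959524133701664)) (.cons (.rf (nat_lit 837) (nat_lit 14242959524133701664)) (.cons (.rf (nat_lit 838) (nat_lit 14242959524133701664)) (.cons (.rf (nat_lit 709) (nat_lit 13313)) .nil)))))) (.cons (.rf (nat_lit 709) (nat_lit 13313)) .nil))))))) .nil)) .nil))),
 (.br (nat_lit 1) (nat_lit 0) (.cons (.kr (nat_lit 1) (nat_lit 256) (nat_lit 0) (nat_lit 2)) (.cons (.rf (nat_lit 764) (nat_lit 155699889726130177)) (.cons (.rf (nat_lit 828) (nat_lit 155699889727178753)) (.cons (.rf (nat_lit 709) (nat_lit 13313)) .nil))))),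
 (.br (nat_lit 4) (nat_lit 0) (.cons (.ev (nat_lit 80157831247470875301780783106) (nat_lit 2)) (.cons (.rf (nat_lit 719) (nat_lit 458894706720)) .nil))),
 (.br (nat_lit 1) (nat_lit 0) (.cons (.rf (nat_lit 780) (nat_lit 11584701650274305)) (.cons (.rf (nat_lit 828) (nat_lit 116259410165237761)) (.cons (.br (nat_lit 11) (nat_lit 0) (.cons (.rf (nat_lit 841) (nat_lit 14242959524133701664)) (.cons (.rf (nat_lit 841) (nat_lit 14242925439272224800)) (.cons (.ev (nat_lit 160314458273114221535918555140) (nat_lit 3)) (.cons (.br (nat_lit 12) (nat_lit 0) (.cons (.rf (nat_lit 719) (nat_lit 450043971585)) (.cons (.rf (nat_lit 719) (nat_lit 451084158977)) (.cons (.ev (nat_lit 80156631729274850255875211776) (nat_lit 2)) .nil)))) .nil))))) (.cons (.rf (nat_lit 709) (nat_lit 13313)) .nil))))),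
 (.br (nat_lit 1) (nat_lit 0) (.cons (.rf (nat_lit 840) (nat_lit 14242959524133701664)) (.cons (.rf (nat_lit 840) (nat_lit 13122655134002841632)) (.cons (.rf (nat_lit 842) (nat_lit 14242959524133701664)) (.cons (.rf (nat_lit 842) (nat_lit 13122655134002841632)) (.cons (.rf (nat_lit 709) (nat_lit 13313)) .nil)))))),
 (.br (nat_lit 11) (nat_lit 0) (.cons (.ev (nat_lit 79229371440084234801518739713) (nat_lit 1)) (.cons (.rf (nat_lit 715) (nat_lit 459934862368)) .nil))),
 (.br (nat_lit 2) (nat_lit 0) (.cons (.ev (nat_lit 79229371440084234801518739713) (nat_lit 1)) (.cons (.rf (nat_lit 715) (nat_lit 459633167361)) .nil))),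
 (.br (nat_lit 12) (nat_lit 0) (.cons (.rf (nat_lit 844) (nat_lit 14242959524133701664)) (.cons (.rf (nat_lit 845) (nat_lit 14242959524133701664)) (.cons (.br (nat_lit 12) (nat_lit 0) (.cons (.rf (nat_lit 844) (nat_lit 14242959524133701664)) (.cons (.rf (nat_lit 845) (nat_lit 14242959524133701664)) .nil))) .nil)))),
 (.br (nat_lit 1) (nat_lit 0) (.cons (.kr (nat_lit 1) (nat_lit 256) (nat_lit 0) (nat_lit 2)) (.cons (.rf (nat_lit 846) (nat_lit 14242959524133701664)) (.cons (.rf (nat_lit 846) (nat_lit 13122655134002841632)) (.cons (.rf (nat_lit 709) (nat_lit 13313)) .nil))))),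
 (.br (nat_lit 1) (nat_lit 0) (.cons (.rf (nat_lit 780) (nat_lit 11584701650274305)) (.cons (.rf (nat_lit 846) (nat_lit 14242959524133701664)) (.cons (.br (nat_lit 2) (nat_lit 0) (.cons (.kr (nat_lit 1208944338416296922316802) (nat_lit 4722366765452757041152) (nat_lit 0) (nat_lit 1)) (.cons (.br (nat_lit 4) (nat_lit 0) (.cons (.ev (nat_lit 1239182040478254767578154500) (nat_lit 3)) (.cons (.rf (nat_lit 719) (nat_lit 458894674976)) .nil))) (.cons (.br (nat_lit 4) (nat_lit 0) (.cons (.ev (nat_lit 1239163224511073622977545728) (nat_lit 3)) (.cons (.rf (nat_lit 719) (nat_lit 459934862368)) .nil))) (.cons (.rf (nat_lit 784) (nat_lit 15037167113931808)) .nil))))) (.cons (.rf (nat_lit 709) (nat_lit 13313)) .nil))))),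
 (.br (nat_lit 1) (nat_lit 0) (.cons (.rf (nat_lit 840) (nat_lit 14242959524133701664)) (.cons (.rf (nat_lit 847) (nat_lit 14242959524133701664)) (.cons (.rf (nat_lit 848) (nat_lit 14242959524133701664)) (.cons (.br (nat_lit 1) (nat_lit 0) (.cons (.rf (nat_lit 828) (nat_lit 155699889727178753)) (.cons (.rf (nat_lit 846) (nat_lit 13122655134002841632)) (.cons (.rf (nat_lit 848) (nat_lit 14242959524133701664)) (.cons (.rf (nat_lit 709) (nat_lit 13313)) .nil))))) (.cons (.rf (nat_lit 709) (nat_lit 13313)) .nil)))))),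
 (.br (nat_lit 1) (nat_lit 0) (.cons (.rf (nat_lit 843) (nat_lit 14242959524133701664)) (.cons (.rf (nat_lit 849) (nat_lit 14242959524133701664)) (.cons (.rf (nat_lit 849) (nat_lit 13122655134002841632)) (.cons (.br (nat_lit 1) (nat_lit 0) (.cons (.rf (nat_lit 843) (nat_lit 14242959524133701664)) (.cons (.rf (nat_lit 849) (nat_lit 14242959524133701664)) (.cons (.rf (nat_lit 849) (nat_lit 13122655134002841632)) (.cons (.rf (nat_lit 709) (nat_lit 13313)) .nil))))) (.cons (.rf (nat_lit 709) (nat_lit 13313)) .nil)))))),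
 (.br (nat_lit 4) (nat_lit 1) (.cons (.rf (nat_lit 839) (nat_lit 14242959524133701664)) (.cons (.br (nat_lit 7) (nat_lit 0) (.cons (.rf (nat_lit 739) (nat_lit 13662849555664226)) (.cons (.br (nat_lit 10) (nat_lit 0) (.cons (.br (nat_lit 1) (nat_lit 0) (.cons (.rf (nat_lit 843) (nat_lit 14242959524133701664)) (.cons (.rf (nat_lit 849) (nat_lit 14242959524133701664)) (.cons (.rf (nat_lit 849) (nat_lit 13122655134002841632)) (.cons (.rf (nat_lit 850) (nat_lit 14242959524133701664)) (.cons (.rf (nat_lit 850) (nat_lit 13122655134002841632)) (.cons (.rf (nat_lit 709) (nat_lit 13313)) .nil))))))) .nil)) .nil))) (.cons (.rf (nat_lit 819) (nat_lit 13122689218863302688)) .nil)))),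
 (.br (nat_lit 1) (nat_lit 0) (.cons (.kr (nat_lit 1) (nat_lit 256) (nat_lit 0) (nat_lit 2)) (.cons (.rf (nat_lit 780) (nat_lit 11584701650274305)) (.cons (.rf (nat_lit 851) (nat_lit 12834424757851392001)) (.cons (.rf (nat_lit 709) (nat_lit 13313)) .nil))))),
 (.br (nat_lit 1) (nat_lit 0) (.cons (.rf (nat_lit 780) (nat_lit 11584701650274305)) (.cons (.rf (nat_lit 851) (nat_lit 13954729147982252033)) (.cons (.rf (nat_lit 851) (nat_lit 4731357111135864833)) (.cons (.rf (nat_lit 709) (nat_lit 13313)) .nil))))),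
 (.br (nat_lit 1) (nat_lit 0) (.cons (.rf (nat_lit 852) (nat_lit 14242959524133701664)) (.cons (.rf (nat_lit 852) (nat_lit 13122655134002841632)) (.cons (.rf (nat_lit 853) (nat_lit 14242959524133701664)) (.cons (.rf (nat_lit 853) (nat_lit 13122655134002841632)) (.cons (.rf (nat_lit 709) (nat_lit 13313)) .nil)))))),
 (.br (nat_lit 2) (nat_lit 0) (.cons (.br (nat_lit 11) (nat_lit 0) (.cons (.ev (nat_lit 79537647542532708215250026753) (nat_lit 1)) (.cons (.rf (nat_lit 717) (nat_lit 459934862368)) .nil))) (.cons (.br (nat_lit 4) (nat_lit 0) (.cons (.ev (nat_lit 79537647542532708215250026753) (nat_lit 1)) (.cons (.rf (nat_lit 719) (nat_lit 458894674976)) .nil))) (.cons (.br (nat_lit 4) (nat_lit 0) (.cons (.ev (nat_lit 79537647542532708215250026753) (nat_lit 1)) (.cons (.rf (nat_lit 719) (nat_lit 459934862368)) .nil))) (.cons (.br (nat_lit 4) (nat_lit 0) (.cons (.rf (nat_lit 719) (nat_lit 458892643360)) (.cons (.rf (nat_lit 719) (nat_lit 459932830752)) (.cons (.br (nat_lit 11) (nat_lit 0) (.cons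 (.ev (nat_lit 79537652246452447011185688576) (nat_lit 1)) (.cons (.br (nat_lit 12) (nat_lit 0) (.cons (.ev (nat_lit 79537647542532708215250026496) (nat_lit 1)) .nil)) .nil))) .nil)))) .nil))))),
 (.br (nat_lit 1) (nat_lit 0) (.cons (.rf (nat_lit 852) (nat_lit 14242959524133701664)) (.cons (.br (nat_lit 1) (nat_lit 0) (.cons (.ev (nat_lit 4777707560628117438466) (nat_lit 2)) (.cons (.ev (nat_lit 18518801667764257024) (nat_lit 1)) (.cons (.ev (nat_lit 18519084246530785536) (nat_lit 1)) (.cons (.rf (nat_lit 709) (nat_lit 13313)) .nil))))) (.cons (.br (nat_lit 1) (nat_lit 0) (.cons (.rf (nat_lit 780) (nat_lit 11584701650274305)) (.cons (.ev (nat_lit 18518801667764257024) (nat_lit 1)) (.cons (.rf (nat_lit 855) (nat_lit 14242959524133701664)) (.cons (.rf (nat_lit 709) (nat_lit 13313)) .nil))))) (.cons (.br (nat_lit 1) (nat_lit 0) (.cons (.rf (nat_lit 851) (nat_lit 12834424757851392001)) (.cons (.ev (nat_lit 18519084246530785536) (nat_lit 1)) (.cons (.rf (nat_lit 855) (nat_lit 14242959524133701664))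 (.cons (.rf (nat_lit 709) (nat_lit 13313)) .nil))))) (.cons (.rf (nat_lit 709) (nat_lit 13313)) .nil)))))),
 (.br (nat_lit 1) (nat_lit 0) (.cons (.rf (nat_lit 853) (nat_lit 14242959524133701664)) (.cons (.rf (nat_lit 856) (nat_lit 14242959524133701664)) (.cons (.rf (nat_lit 856) (nat_lit 13122655134002841632)) (.cons (.br (nat_lit 1) (nat_lit 0) (.cons (.rf (nat_lit 851) (nat_lit 4731357111135864833)) (.cons (.rf (nat_lit 855) (nat_lit 14242959524133701664)) (.cons (.rf (nat_lit 855) (nat_lit 13122655134002841632)) (.cons (.rf (nat_lit 709) (nat_lit 13313)) .nil))))) (.cons (.rf (nat_lit 709) (nat_lit 13313)) .nil)))))),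
 (.br (nat_lit 9) (nat_lit 0) (.cons (.br (nat_lit 1) (nat_lit 0) (.cons (.rf (nat_lit 854) (nat_lit 14242959524133701664)) (.cons (.rf (nat_lit 856) (nat_lit 14242959524133701664)) (.cons (.rf (nat_lit 856) (nat_lit 13122655134002841632)) (.cons (.rf (nat_lit 857) (nat_lit 14242959524133701664)) (.cons (.rf (nat_lit 857) (nat_lit 13122655134002841632)) (.cons (.rf (nat_lit 709) (nat_lit 13313)) .nil))))))) .nil)),
 (.br (nat_lit 6) (nat_lit 0) (.cons (.rf (nat_lit 780) (nat_lit 8207103961434144)) (.cons (.br (nat_lit 7) (nat_lit 0) (.cons (.rf (nat_lit 13) (nat_lit 356559836255586)) (.cons (.rf (nat_lit 803) (nat_lit 407901468851537952)) (.cons (.br (nat_lit 10) (nat_lit 0) (.cons (.rf (nat_lit 803) (nat_lit 404523871169021984)) (.cons (.rf (nat_lit 13) (nat_lit 249907308009826)) (.cons (.rf (nat_lit 66) (nat_lit 13867358718367074)) .nil)))) .nil)))) (.cons (.br (nat_lit 3) (nat_lit 1) (.cons (.rf (nat_lit 819) (nat_lit 14242959524133701664)) (.cons (.rf (nat_lit 851) (nat_lit 14242959524133701664))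 (.cons (.rf (nat_lit 851) (nat_lit 14242925439273240608)) (.cons (.br (nat_lit 4) (nat_lit 1) (.cons (.br (nat_lit 8) (nat_lit 0) (.cons (.rf (nat_lit 858) (nat_lit 14242959524133701664)) (.cons (.rf (nat_lit 858) (nat_lit 13122689218863302688)) .nil))) (.cons (.rf (nat_lit 851) (nat_lit 13122689218863302688)) (.cons (.rf (nat_lit 851) (nat_lit 13122655134002841632)) .nil)))) .nil))))) .nil)))),
 (.br (nat_lit 1) (nat_lit 0) (.cons (.rf (nat_lit 780) (nat_lit 10422482391631873)) (.cons (.rf (nat_lit 780) (nat_lit 7044884711409665)) (.cons (.rf (nat_lit 709) (nat_lit 12289)) (.cons (.rf (nat_lit 792) (nat_lit 118508873450850305)) .nil))))),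
 (.br (nat_lit 1) (nat_lit 0) (.cons (.rf (nat_lit 793) (nat_lit 14239581926451185696)) (.cons (.br (nat_lit 1) (nat_lit 0) (.cons (.kr (nat_lit 1) (nat_lit 256) (nat_lit 0) (nat_lit 2)) (.cons (.rf (nat_lit 792) (nat_lit 119671092700088321)) (.cons (.kr (nat_lit 4722438821938659852290) (nat_lit 1208944266359802395886080) (nat_lit 0) (nat_lit 2)) (.cons (.rf (nat_lit 709) (nat_lit 13313)) .nil))))) (.cons (.rf (nat_lit 860) (nat_lit 445092485129144352)) (.cons (.br (nat_lit 1) (nat_lit 0) (.cons (.kr (nat_lit 4722366482869645213697) (nat_lit 18446744073709551872) (nat_lit 0) (nat_lit 2)) (.cons (.kr (nat_lit 4722438821938659852290) (nat_lit 1208944266359802395886080) (nat_lit 0) (nat_lit 2)) (.cons (.rf (nat_lit 780) (nat_lit 8207103970084865)) (.cons (.rf (nat_lit 709) (nat_lit 13313)) .nil))))) (.cons (.rf (nat_lit 709) (nat_lit 13313)) .nil)))))),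
 (.br (nat_lit 11) (nat_lit 0) (.cons (.ev (nat_lit 79537647542532708215250026753) (nat_lit 1)) (.cons (.rf (nat_lit 715) (nat_lit 459934862368)) .nil))),
 (.br (nat_lit 12) (nat_lit 0) (.cons (.rf (nat_lit 862) (nat_lit 14242959524133701664)) (.cons (.rf (nat_lit 862) (nat_lit 13918700350963035137)) (.cons (.br (nat_lit 12) (nat_lit 0) (.cons (.rf (nat_lit 862) (nat_lit 14242959524133701664)) (.cons (.rf (nat_lit 862) (nat_lit 13918700350963035137)) .nil))) .nil)))),
 (.br (nat_lit 1) (nat_lit 0) (.cons (.rf (nat_lit 793) (nat_lit 14239581926451185696)) (.cons (.br (nat_lit 1) (nat_lit 0) (.cons (.kr (nat_lit 1) (nat_lit 256) (nat_lit 0) (nat_lit 2)) (.cons (.rf (nat_lit 863) (nat_lit 14242959524133701664)) (.cons (.ev (nat_lit 4722438540463699919104) (nat_lit 1)) (.cons (.rf (nat_lit 709) (nat_lit 13313)) .nil))))) (.cons (.br (nat_lit 1) (nat_lit 0) (.cons (.rf (nat_lit 780) (nat_lit 11584701650274305)) (.cons (.rf (nat_lit 863) (nat_lit 14242959524133701664)) (.cons (.rf (nat_lit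 859) (nat_lit 83642295689260033)) (.cons (.rf (nat_lit 709) (nat_lit 13313)) .nil))))) (.cons (.br (nat_lit 1) (nat_lit 0) (.cons (.kr (nat_lit 4722366482869645213697) (nat_lit 18446744073709551872) (nat_lit 0) (nat_lit 2)) (.cons (.ev (nat_lit 4722438540463699919104) (nat_lit 1)) (.cons (.rf (nat_lit 859) (nat_lit 83642295689260033)) (.cons (.rf (nat_lit 709) (nat_lit 13313)) .nil))))) (.cons (.rf (nat_lit 709) (nat_lit 13313)) .nil)))))),
 (.br (nat_lit 1) (nat_lit 0) (.cons (.rf (nat_lit 792) (nat_lit 119671092700088321)) (.cons (.rf (nat_lit 863) (nat_lit 14242959524133701664)) (.cons (.br (nat_lit 2) (nat_lit 0) (.cons (.br (nat_lit 11) (nat_lit 0) (.cons (.ev (nat_lit 79229376180897461744856793345) (nat_lit 1)) (.cons (.rf (nat_lit 717) (nat_lit 459933814816)) .nil))) (.cons (.br (nat_lit 3) (nat_lit 0) (.cons (.ev (nat_lit 79229376180897461744856793345) (nat_lit 1)) (.cons (.rf (nat_lit 719) (nat_lit 458893627424)) .nil))) (.cons (.ev (nat_lit 79228162514336395191876911104) (nat_lit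 1)) (.cons (.br (nat_lit 3) (nat_lit 0) (.cons (.rf (nat_lit 719) (nat_lit 458892611616)) (.cons (.rf (nat_lit 719) (nat_lit 459932799008)) (.cons (.br (nat_lit 11) (nat_lit 0) (.cons (.kr (nat_lit 620183723169020956909896192) (nat_lit 158456325028745692402755305472) (nat_lit 1) (nat_lit 0)) (.cons (.ev (nat_lit 309489750634853487073034241) (nat_lit 1)) .nil))) .nil)))) .nil))))) (.cons (.rf (nat_lit 709) (nat_lit 13313)) .nil))))),
 (.br (nat_lit 1) (nat_lit 0) (.cons (.rf (nat_lit 861) (nat_lit 14242959524133701664)) (.cons (.rf (nat_lit 864) (nat_lit 14242959524133701664)) (.cons (.rf (nat_lit 865) (nat_lit 14242959524133701664)) (.cons (.br (nat_lit 1) (nat_lit 0) (.cons (.kr (nat_lit 4722438821938659852290) (nat_lit 1208944266359802395886080) (nat_lit 0) (nat_lit 2)) (.cons (.ev (nat_lit 4722438540463699919104) (nat_lit 1)) (.cons (.rf (nat_lit 865) (nat_lit 14242959524133701664)) (.cons (.rf (nat_lit 709) (nat_lit 13313)) .nil))))) (.cons (.rf (nat_lit 709) (nat_lit 13313)) .nil))))))]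

theorem c26 : chkAll C T R L26 (nat_lit 837) = true := by decide +kernel

theorem l26 : (nat_lit 837) + L26.length = (nat_lit 867) := by decide +kernel

/-- part of the certificates -/
def L27 : List Prf := [(.br (nat_lit 1) (nat_lit 0) (.cons (.rf (nat_lit 860) (nat_lit 445092485129144352)) (.cons (.rf (nat_lit 864) (nat_lit 14242959524133701664)) (.cons (.rf (nat_lit 866) (nat_lit 14242959524133701664)) (.cons (.br (nat_lit 1) (nat_lit 0) (.cons (.rf (nat_lit 780) (nat_lit 8207103970084865)) (.cons (.rf (nat_lit 859) (nat_lit 83642295689260033)) (.cons (.rf (nat_lit 866) (nat_lit 14242959524133701664)) (.cons (.rf (nat_lit 709) (nat_lit 13313)) .nil))))) (.cons (.rf (nat_lit 709) (nat_lit 13313)) .nil)))))),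
 (.br (nat_lit 9) (nat_lit 0) (.cons (.br (nat_lit 1) (nat_lit 0) (.cons (.rf (nat_lit 861) (nat_lit 14242959524133701664)) (.cons (.rf (nat_lit 864) (nat_lit 14242959524133701664)) (.cons (.rf (nat_lit 866) (nat_lit 14242959524133701664)) (.cons (.rf (nat_lit 867) (nat_lit 14242959524133701664)) (.cons (.br (nat_lit 1) (nat_lit 0) (.cons (.rf (nat_lit 861) (nat_lit 14242959524133701664)) (.cons (.rf (nat_lit 864) (nat_lit 14242959524133701664)) (.cons (.rf (nat_lit 866) (nat_lit 14242959524133701664)) (.cons (.rf (nat_lit 867) (nat_lit 14242959524133701664)) (.cons (.rf (nat_lit 709) (nat_lit 13313)) .nil)))))) (.cons (.rf (nat_lit 709) (nat_lit 13313)) .nil))))))) .nil)),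
 (.br (nat_lit 10) (nat_lit 0) (.cons (.br (nat_lit 4) (nat_lit 1) (.cons (.rf (nat_lit 868) (nat_lit 14242959524133701664)) (.cons (.rf (nat_lit 868) (nat_lit 14242925439273240608)) .nil))) (.cons (.rf (nat_lit 66) (nat_lit 4868955556648290)) (.cons (.rf (nat_lit 13) (nat_lit 249907308271970)) .nil)))),
 (.br (nat_lit 1) (nat_lit 0) (.cons (.br (nat_lit 1) (nat_lit 0) (.cons (.kr (nat_lit 1) (nat_lit 256) (nat_lit 0) (nat_lit 2)) (.cons (.rf (nat_lit 780) (nat_lit 11584701650274305)) (.cons (.kr (nat_lit 18519083142724190210) (nat_lit 1213648186098598331548160) (nat_lit 0) (nat_lit 2)) (.cons (.rf (nat_lit 709) (nat_lit 13313)) .nil))))) (.cons (.br (nat_lit 1) (nat_lit 0) (.cons (.kr (nat_lit 1) (nat_lit 256) (nat_lit 0) (nat_lit 2)) (.cons (.rf (nat_lit 792) (nat_lit 119671092700088321)) (.cons (.kr (nat_lit 4722438821938659852290) (nat_lit 1208944266359802395886080) (nat_lit 0) (nat_lit 2)) (.cons (.rf (nat_lit 709) (nat_lit 13313)) .nil))))) (.cons (.rf (nat_lit 860) (nat_lit 445092485129144352))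 (.cons (.br (nat_lit 1) (nat_lit 0) (.cons (.kr (nat_lit 18519083142724190210) (nat_lit 1213648186098598331548160) (nat_lit 0) (nat_lit 2)) (.cons (.kr (nat_lit 4722438821938659852290) (nat_lit 1208944266359802395886080) (nat_lit 0) (nat_lit 2)) (.cons (.rf (nat_lit 780) (nat_lit 8207103970084865)) (.cons (.rf (nat_lit 709) (nat_lit 13313)) .nil))))) (.cons (.rf (nat_lit 709) (nat_lit 13313)) .nil)))))),
 (.br (nat_lit 12) (nat_lit 0) (.cons (.zr (nat_lit 159384780057992710401885732866) (nat_lit 1208925891954797701169920) (nat_lit 5) (nat_lit 1)) (.cons (.rf (nat_lit 715) (nat_lit 458894674976)) .nil))),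
 (.br (nat_lit 2) (nat_lit 0) (.cons (.zr (nat_lit 159384780057992710401885732866) (nat_lit 1208925891954797701169920) (nat_lit 5) (nat_lit 1)) (.cons (.rf (nat_lit 715) (nat_lit 458559458305)) .nil))),
 (.br (nat_lit 1) (nat_lit 0) (.cons (.kr (nat_lit 1) (nat_lit 256) (nat_lit 0) (nat_lit 2)) (.cons (.ev (nat_lit 4722366483973468586241) (nat_lit 1)) (.cons (.br (nat_lit 11) (nat_lit 0) (.cons (.rf (nat_lit 871) (nat_lit 14242959524133701664)) (.cons (.rf (nat_lit 872) (nat_lit 14242959524133701664)) (.cons (.br (nat_lit 11) (nat_lit 0) (.cons (.rf (nat_lit 871) (nat_lit 14242959524133701664)) (.cons (.rf (nat_lit 872) (nat_lit 14242959524133701664)) .nil))) .nil)))) (.cons (.rf (nat_lit 709) (nat_lit 13313)) .nil))))),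
 (.br (nat_lit 1) (nat_lit 0) (.cons (.rf (nat_lit 870) (nat_lit 14242959524133701664)) (.cons (.rf (nat_lit 873) (nat_lit 14242959524133701664)) (.cons (.br (nat_lit 1) (nat_lit 0) (.cons (.rf (nat_lit 780) (nat_lit 11584701650274305)) (.cons (.ev (nat_lit 4722366483973468586241) (nat_lit 1)) (.cons (.rf (nat_lit 859) (nat_lit 83642295689260033)) (.cons (.rf (nat_lit 709) (nat_lit 13313)) .nil))))) (.cons (.br (nat_lit 1) (nat_lit 0) (.cons (.kr (nat_lit 18519083142724190210) (nat_lit 1213648186098598331548160) (nat_lit 0) (nat_lit 2)) (.cons (.rf (nat_lit 873) (nat_lit 14242959524133701664)) (.cons (.rf (nat_lit 859) (nat_lit 83642295689260033)) (.cons (.rf (nat_lit 709) (nat_lit 13313)) .nil))))) (.cons (.rf (nat_lit 709) (nat_lit 13313)) .nil)))))),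
 (.br (nat_lit 1) (nat_lit 0) (.cons (.rf (nat_lit 870) (nat_lit 14242959524133701664)) (.cons (.rf (nat_lit 874) (nat_lit 14242959524133701664)) (.cons (.br (nat_lit 1) (nat_lit 0) (.cons (.rf (nat_lit 792) (nat_lit 119671092700088321)) (.cons (.ev (nat_lit 4722366483973468586241) (nat_lit 1)) (.cons (.rf (nat_lit 869) (nat_lit 3539029211820207105)) (.cons (.rf (nat_lit 709) (nat_lit 13313)) .nil))))) (.cons (.br (nat_lit 1) (nat_lit 0) (.cons (.kr (nat_lit 4722438821938659852290) (nat_lit 1208944266359802395886080) (nat_lit 0) (nat_lit 2)) (.cons (.rf (nat_lit 874) (nat_lit 14242959524133701664)) (.cons (.rf (nat_lit 869) (nat_lit 3539029211820207105)) (.cons (.rf (nat_lit 709) (nat_lit 13313)) .nil))))) (.cons (.rf (nat_lit 709) (nat_lit 13313)) .nil)))))),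
 (.br (nat_lit 1) (nat_lit 0) (.cons (.rf (nat_lit 860) (nat_lit 445092485129144352)) (.cons (.rf (nat_lit 874) (nat_lit 14242959524133701664)) (.cons (.rf (nat_lit 875) (nat_lit 14242959524133701664)) (.cons (.br (nat_lit 1) (nat_lit 0) (.cons (.rf (nat_lit 780) (nat_lit 8207103970084865)) (.cons (.rf (nat_lit 859) (nat_lit 83642295689260033)) (.cons (.rf (nat_lit 869) (nat_lit 3539029211820207105)) (.cons (.rf (nat_lit 709) (nat_lit 13313)) .nil))))) (.cons (.rf (nat_lit 709) (nat_lit 13313)) .nil)))))),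
 (.br (nat_lit 4) (nat_lit 1) (.cons (.br (nat_lit 1) (nat_lit 0) (.cons (.rf (nat_lit 870) (nat_lit 14242959524133701664)) (.cons (.rf (nat_lit 874) (nat_lit 14242959524133701664)) (.cons (.rf (nat_lit 875) (nat_lit 14242959524133701664)) (.cons (.rf (nat_lit 876) (nat_lit 14242959524133701664)) (.cons (.br (nat_lit 1) (nat_lit 0) (.cons (.rf (nat_lit 870) (nat_lit 14242959524133701664)) (.cons (.rf (nat_lit 874) (nat_lit 14242959524133701664)) (.cons (.rf (nat_lit 875) (nat_lit 14242959524133701664)) (.cons (.rf (nat_lit 876) (nat_lit 14242959524133701664)) (.cons (.rf (nat_lit 709) (nat_lit 13313)) .nil)))))) (.cons (.rf (nat_lit 709) (nat_lit 13313)) .nil))))))) .nil)),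
 (.br (nat_lit 6) (nat_lit 0) (.cons (.rf (nat_lit 620) (nat_lit 6655138)) (.cons (.rf (nat_lit 859) (nat_lit 407901468851537952)) (.cons (.br (nat_lit 7) (nat_lit 0) (.cons (.rf (nat_lit 13) (nat_lit 365355929277794)) (.cons (.rf (nat_lit 869) (nat_lit 14242959524133701664)) (.cons (.br (nat_lit 10) (nat_lit 0) (.cons (.rf (nat_lit 112) (nat_lit 325709187093602)) (.cons (.br (nat_lit 3) (nat_lit 1) (.cons (.rf (nat_lit 877) (nat_lit 14242959524133701664)) (.cons (.rf (nat_lit 877) (nat_lit 14242925439273240608)) .nil))) .nil))) .nil)))) .nil)))),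
 (.br (nat_lit 5) (nat_lit 0) (.cons (.rf (nat_lit 780) (nat_lit 11584701642934304)) (.cons (.br (nat_lit 6) (nat_lit 0) (.cons (.rf (nat_lit 792) (nat_lit 407901468851537952)) (.cons (.rf (nat_lit 859) (nat_lit 407901468851537952)) (.cons (.rf (nat_lit 878) (nat_lit 407901468851537952)) (.cons (.br (nat_lit 6) (nat_lit 0) (.cons (.rf (nat_lit 792) (nat_lit 407901468851537952)) (.cons (.rf (nat_lit 859) (nat_lit 407901468851537952)) (.cons (.rf (nat_lit 878) (nat_lit 407901468851537952)) .nil)))) .nil))))) .nil))),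
 (.br (nat_lit 6) (nat_lit 0) (.cons (.rf (nat_lit 879) (nat_lit 8207103961434144)) (.cons (.rf (nat_lit 879) (nat_lit 8207103960418336)) (.cons (.rf (nat_lit 620) (nat_lit 6696098)) .nil)))),
 (.br (nat_lit 8) (nat_lit 1) (.cons (.br (nat_lit 9) (nat_lit 1) (.cons (.br (nat_lit 5) (nat_lit 0) (.cons (.rf (nat_lit 879) (nat_lit 11584701642934304)) (.cons (.rf (nat_lit 879) (nat_lit 11584701641918496)) (.cons (.br (nat_lit 5) (nat_lit 0) (.cons (.rf (nat_lit 879) (nat_lit 11584701642934304)) (.cons (.rf (nat_lit 879) (nat_lit 11584701641918496)) (.cons (.br (nat_lit 6) (nat_lit 0) (.cons (.rf (nat_lit 879) (nat_lit 8207103961434144)) (.cons (.rf (nat_lit 879) (nat_lit 8207103960418336)) (.cons (.rf (nat_lit 880) (nat_lit 14242959524133701664)) (.cons (.rf (nat_lit 880) (nat_lit 13126066816545818656)) .nil))))) .nil)))) .nil)))) .nil)) .nil)),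
 (.br (nat_lit 5) (nat_lit 1) (.cons (.rf (nat_lit 714) (nat_lit 6306)) (.cons (.br (nat_lit 7) (nat_lit 1) (.cons (.rf (nat_lit 2) (nat_lit 7365)) (.cons (.br (nat_lit 7) (nat_lit 1) (.cons (.rf (nat_lit 2) (nat_lit 7365)) (.cons (.br (nat_lit 6) (nat_lit 1) (.cons (.rf (nat_lit 12) (nat_lit 9706693)) (.cons (.rf (nat_lit 12) (nat_lit 8690885)) (.cons (.br (nat_lit 8) (nat_lit 1) (.cons (.rf (nat_lit 881) (nat_lit 11584701642934304)) (.cons (.br (nat_lit 8) (nat_lit 1) (.cons (.rf (nat_lit 881) (nat_lit 11584701642934304)) .nil)) .nil))) .nil)))) .nil))) .nil))) .nil))),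
 (.br (nat_lit 1) (nat_lit 0) (.cons (.rf (nat_lit 709) (nat_lit 6145)) (.cons (.rf (nat_lit 882) (nat_lit 4401992705)) .nil))),
 (.br (nat_lit 1) (nat_lit 0) (.cons (.br (nat_lit 1) (nat_lit 0) (.cons (.ev (nat_lit 72339073309605889) (nat_lit 1)) (.cons (.rf (nat_lit 883) (nat_lit 379750432)) (.cons (.kr (nat_lit 1208944266640177860968450) (nat_lit 4722438541563194769920) (nat_lit 0) (nat_lit 2)) (.cons (.rf (nat_lit 709) (nat_lit 13313)) .nil))))) (.cons (.ev (nat_lit 72339073309605889) (nat_lit 1)) (.cons (.rf (nat_lit 883) (nat_lit 379750432)) (.cons (.br (nat_lit 1) (nat_lit 0) (.cons (.kr (nat_lit 1208944266640177860968450) (nat_lit 4722438541563194769920) (nat_lit 0) (nat_lit 2)) (.cons (.ev (nat_lit 72339073309605889) (nat_lit 1)) (.cons (.rf (nat_lit 883) (nat_lit 379750432)) (.cons (.rf (nat_lit 709) (nat_lit 13313)) .nil))))) (.cons (.rf (nat_lit 709) (nat_lit 13313)) .nil)))))),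
 (.br (nat_lit 1) (nat_lit 0) (.cons (.rf (nat_lit 884) (nat_lit 14242959524133701664)) (.cons (.ev (nat_lit 72339073309605889) (nat_lit 1)) (.cons (.rf (nat_lit 883) (nat_lit 379751456)) (.cons (.br (nat_lit 1) (nat_lit 0) (.cons (.kr (nat_lit 1208944266640177860968450) (nat_lit 4722438541563194769920) (nat_lit 0) (nat_lit 2)) (.cons (.ev (nat_lit 72339073309605889) (nat_lit 1)) (.cons (.rf (nat_lit 883) (nat_lit 379751456)) (.cons (.rf (nat_lit 709) (nat_lit 13313)) .nil))))) (.cons (.rf (nat_lit 709) (nat_lit 13313)) .nil)))))),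
 (.br (nat_lit 1) (nat_lit 0) (.cons (.rf (nat_lit 709) (nat_lit 5121)) (.cons (.rf (nat_lit 883) (nat_lit 137434144)) .nil))),
 (.br (nat_lit 8) (nat_lit 0) (.cons (.br (nat_lit 1) (nat_lit 0) (.cons (.rf (nat_lit 884) (nat_lit 14242959524133701664)) (.cons (.rf (nat_lit 885) (nat_lit 14242959524133701664)) (.cons (.ev (nat_lit 72339073309605889) (nat_lit 1)) (.cons (.rf (nat_lit 886) (nat_lit 11867168)) (.cons (.br (nat_lit 1) (nat_lit 0) (.cons (.rf (nat_lit 884) (nat_lit 14242959524133701664)) (.cons (.rf (nat_lit 885) (nat_lit 14242959524133701664)) (.cons (.ev (nat_lit 72339073309605889) (nat_lit 1)) (.cons (.rf (nat_lit 886) (nat_lit 11867168)) (.cons (.rf (nat_lit 709) (nat_lit 13313)) .nil)))))) (.cons (.rf (nat_lit 709) (nat_lit 13313)) .nil))))))) .nil)),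
 (.br (nat_lit 4) (nat_lit 1) (.cons (.rf (nat_lit 739) (nat_lit 13626530209108043)) (.cons (.rf (nat_lit 739) (nat_lit 13626496923111499)) (.cons (.br (nat_lit 3) (nat_lit 1) (.cons (.rf (nat_lit 887) (nat_lit 14242959524133701664)) (.cons (.rf (nat_lit 887) (nat_lit 14242958458981812256)) .nil))) .nil)))),
 (.br (nat_lit 10) (nat_lit 0) (.cons (.rf (nat_lit 886) (nat_lit 4527105)) (.cons (.br (nat_lit 10) (nat_lit 0) (.cons (.rf (nat_lit 886) (nat_lit 4527105)) (.cons (.br (nat_lit 5) (nat_lit 0) (.cons (.rf (nat_lit 886) (nat_lit 3478529)) (.cons (.rf (nat_lit 888) (nat_lit 14242959524133701664)) (.cons (.rf (nat_lit 888) (nat_lit 13126066816545818656)) .nil)))) .nil))) .nil))),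
 (.br (nat_lit 1) (nat_lit 0) (.cons (.kr (nat_lit 1) (nat_lit 256) (nat_lit 0) (nat_lit 2)) (.cons (.kr (nat_lit 4722438541563194769410) (nat_lit 1208944266640177860968960) (nat_lit 0) (nat_lit 2)) (.cons (.rf (nat_lit 886) (nat_lit 12915744)) (.cons (.rf (nat_lit 709) (nat_lit 13313)) .nil))))),
 (.br (nat_lit 1) (nat_lit 0) (.cons (.rf (nat_lit 890) (nat_lit 14242959524133701664)) (.cons (.rf (nat_lit 890) (nat_lit 14242958458980796448)) (.cons (.br (nat_lit 1) (nat_lit 0) (.cons (.kr (nat_lit 4722438541563194769410) (nat_lit 1208944266640177860968960) (nat_lit 0) (nat_lit 2)) (.cons (.kr (nat_lit 4740813228042866393090) (nat_lit 1208925891953698189345280) (nat_lit 0) (nat_lit 2)) (.cons (.rf (nat_lit 886) (nat_lit 12915744)) (.cons (.rf (nat_lit 709) (nat_lit 13313)) .nil))))) (.cons (.rf (nat_lit 886) (nat_lit 12915744)) (.cons (.rf (nat_lit 709) (nat_lit 13313)) .nil)))))),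
 (.br (nat_lit 11) (nat_lit 0) (.cons (.zr (nat_lit 618970019642694544119562242) (nat_lit 158457538676715054160884728576) (nat_lit 5) (nat_lit 1)) (.cons (.rf (nat_lit 715) (nat_lit 459934862368)) .nil))),
 (.br (nat_lit 2) (nat_lit 0) (.cons (.zr (nat_lit 618970019642695643631190018) (nat_lit 316912650075576152041923478272) (nat_lit 5) (nat_lit 1)) (.cons (.rf (nat_lit 715) (nat_lit 459633167361)) .nil))),
 (.br (nat_lit 1) (nat_lit 0) (.cons (.kr (nat_lit 1) (nat_lit 256) (nat_lit 0) (nat_lit 2)) (.cons (.br (nat_lit 12) (nat_lit 0) (.cons (.rf (nat_lit 892) (nat_lit 14242959524133701664)) (.cons (.rf (nat_lit 893) (nat_lit 14242959524133701664)) (.cons (.br (nat_lit 12) (nat_lit 0) (.cons (.rf (nat_lit 892) (nat_lit 14242959524133701664)) (.cons (.rf (nat_lit 893) (nat_lit 14242959524133701664)) .nil))) .nil)))) (.cons (.rf (nat_lit 886) (nat_lit 12915744)) (.cons (.rf (nat_lit 709) (nat_lit 13313)) .nil))))),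
 (.br (nat_lit 1) (nat_lit 0) (.cons (.rf (nat_lit 891) (nat_lit 14242959524133701664)) (.cons (.rf (nat_lit 894) (nat_lit 14242959524133701664)) (.cons (.br (nat_lit 1) (nat_lit 0) (.cons (.kr (nat_lit 4722438541563194769410) (nat_lit 1208944266640177860968960) (nat_lit 0) (nat_lit 2)) (.cons (.rf (nat_lit 894) (nat_lit 14242959524133701664)) (.cons (.rf (nat_lit 886) (nat_lit 12915744)) (.cons (.rf (nat_lit 709) (nat_lit 13313)) .nil))))) (.cons (.rf (nat_lit 886) (nat_lit 12915744)) (.cons (.rf (nat_lit 709) (nat_lit 13313)) .nil)))))),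
 (.br (nat_lit 10) (nat_lit 0) (.cons (.br (nat_lit 1) (nat_lit 0) (.cons (.rf (nat_lit 891) (nat_lit 14242959524133701664)) (.cons (.rf (nat_lit 895) (nat_lit 14242959524133701664)) (.cons (.rf (nat_lit 895) (nat_lit 14242958458980796448)) (.cons (.br (nat_lit 1) (nat_lit 0) (.cons (.rf (nat_lit 891) (nat_lit 14242959524133701664)) (.cons (.rf (nat_lit 895) (nat_lit 14242959524133701664)) (.cons (.rf (nat_lit 895) (nat_lit 14242958458980796448)) (.cons (.rf (nat_lit 886) (nat_lit 12915744)) (.cons (.rf (nat_lit 709) (nat_lit 13313)) .nil)))))) (.cons (.rf (nat_lit 886) (nat_lit 12915744)) (.cons (.rf (nat_lit 709) (nat_lit 13313)) .nil))))))) .nil)),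
 (.br (nat_lit 4) (nat_lit 1) (.cons (.br (nat_lit 9) (nat_lit 0) (.cons (.rf (nat_lit 896) (nat_lit 14242959524133701664)) (.cons (.rf (nat_lit 896) (nat_lit 13126066816545818656)) .nil))) (.cons (.rf (nat_lit 889) (nat_lit 5849652380373024)) .nil))),
 (.br (nat_lit 3) (nat_lit 1) (.cons (.rf (nat_lit 897) (nat_lit 14242959524133701664)) (.cons (.rf (nat_lit 897) (nat_lit 14242958458981812256)) (.cons (.rf (nat_lit 889) (nat_lit 5849652381420576)) .nil)))),
 (.br (nat_lit 10) (nat_lit 0) (.cons (.rf (nat_lit 898) (nat_lit 14242959524133701664)) (.cons (.rf (nat_lit 13) (nat_lit 320240489665931)) .nil))),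
 (.br (nat_lit 5) (nat_lit 0) (.cons (.rf (nat_lit 886) (nat_lit 3478529)) (.cons (.rf (nat_lit 889) (nat_lit 11584701642934304)) (.cons (.br (nat_lit 5) (nat_lit 0) (.cons (.rf (nat_lit 886) (nat_lit 3478529)) (.cons (.rf (nat_lit 889) (nat_lit 11584701642934304)) (.cons (.br (nat_lit 10) (nat_lit 0) (.cons (.rf (nat_lit 898) (nat_lit 14242959524133701664)) (.cons (.rf (nat_lit 899) (nat_lit 14242959524133701664)) (.cons (.rf (nat_lit 899) (nat_lit 13126066816545818656)) .nil)))) .nil)))) .nil)))),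
 (.br (nat_lit 7) (nat_lit 1) (.cons (.rf (nat_lit 12) (nat_lit 8624421)) (.cons (.br (nat_lit 8) (nat_lit 1) (.cons (.br (nat_lit 9) (nat_lit 1) (.cons (.br (nat_lit 10) (nat_lit 0) (.cons (.rf (nat_lit 900) (nat_lit 11584701642934304)) (.cons (.rf (nat_lit 900) (nat_lit 11584701641918496)) (.cons (.br (nat_lit 10) (nat_lit 0) (.cons (.rf (nat_lit 900) (nat_lit 11584701642934304)) (.cons (.rf (nat_lit 900) (nat_lit 11584701641918496)) (.cons (.br (nat_lit 10) (nat_lit 0) (.cons (.rf (nat_lit 900) (nat_lit 11584701642934304)) (.cons (.rf (nat_lit 900) (nat_lit 11584701641918496)) .nil))) .nil)))) .nil)))) .nil)) (.cons (.rf (nat_lit 12) (nat_lit 7608645)) .nil))) .nil))),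
 (.br (nat_lit 6) (nat_lit 1) (.cons (.rf (nat_lit 2) (nat_lit 6373)) (.cons (.br (nat_lit 6) (nat_lit 1) (.cons (.rf (nat_lit 2) (nat_lit 6405)) (.cons (.br (nat_lit 7) (nat_lit 1) (.cons (.rf (nat_lit 901) (nat_lit 9043225708576)) (.cons (.rf (nat_lit 12) (nat_lit 8624421)) (.cons (.br (nat_lit 7) (nat_lit 1) (.cons (.rf (nat_lit 901) (nat_lit 9043225708576)) (.cons (.rf (nat_lit 12) (nat_lit 8624453)) .nil))) .nil)))) .nil))) .nil)))]

theorem c27 : chkAll C T R L27 (nat_lit 867) = true := by decide +kernel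

theorem l27 : (nat_lit 867) + L27.length = (nat_lit 903) := by decide +kernel

/-- part of the certificates -/
def L28 : List Prf := [(.br (nat_lit 1) (nat_lit 0) (.cons (.br (nat_lit 1) (nat_lit 0) (.cons (.kr (nat_lit 1) (nat_lit 256) (nat_lit 0) (nat_lit 2)) (.cons (.rf (nat_lit 886) (nat_lit 11768864)) (.cons (.ev (nat_lit 18519084242235883776) (nat_lit 1)) (.cons (.rf (nat_lit 709) (nat_lit 13313)) .nil))))) (.cons (.br (nat_lit 1) (nat_lit 0) (.cons (.kr (nat_lit 1) (nat_lit 256) (nat_lit 0) (nat_lit 2)) (.cons (.rf (nat_lit 886) (nat_lit 11768864)) (.cons (.ev (nat_lit 4722438823038171545856) (nat_lit 1)) (.cons (.rf (nat_lit 709) (nat_lit 13313)) .nil))))) (.cons (.rf (nat_lit 886) (nat_lit 11768864)) (.cons (.br (nat_lit 1) (nat_lit 0) (.cons (.ev (nat_lit 18519084242235883776) (nat_lit 1)) (.cons (.ev (nat_lit 4722438823038171545856) (nat_lit 1)) (.cons (.rf (nat_lit 886) (nat_lit 11768864)) (.cons (.rf (nat_lit 709) (nat_lit 13313)) .nil))))) (.cons (.rf (nat_lit 709) (nat_lit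 13313)) .nil)))))),
 (.br (nat_lit 1) (nat_lit 0) (.cons (.rf (nat_lit 903) (nat_lit 14242959524133701664)) (.cons (.br (nat_lit 1) (nat_lit 0) (.cons (.kr (nat_lit 1) (nat_lit 256) (nat_lit 0) (nat_lit 2)) (.cons (.rf (nat_lit 886) (nat_lit 11768864)) (.cons (.kr (nat_lit 1208944338416296922185730) (nat_lit 4722366765444133552640) (nat_lit 0) (nat_lit 2)) (.cons (.rf (nat_lit 709) (nat_lit 13313)) .nil))))) (.cons (.rf (nat_lit 886) (nat_lit 11768864)) (.cons (.br (nat_lit 1) (nat_lit 0) (.cons (.ev (nat_lit 18519084242235883776) (nat_lit 1)) (.cons (.kr (nat_lit 1208944338416296922185730) (nat_lit 4722366765444133552640) (nat_lit 0) (nat_lit 2)) (.cons (.rf (nat_lit 886) (nat_lit 11768864)) (.cons (.rf (nat_lit 709) (nat_lit 13313)) .nil))))) (.cons (.rf (nat_lit 709) (nat_lit 13313)) .nil)))))),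
 (.br (nat_lit 1) (nat_lit 0) (.cons (.rf (nat_lit 903) (nat_lit 14242959524133701664)) (.cons (.rf (nat_lit 904) (nat_lit 14242959524133701664)) (.cons (.rf (nat_lit 886) (nat_lit 11768864)) (.cons (.br (nat_lit 1) (nat_lit 0) (.cons (.ev (nat_lit 4722438823038171545856) (nat_lit 1)) (.cons (.kr (nat_lit 1208944338416296922185730) (nat_lit 4722366765444133552640) (nat_lit 0) (nat_lit 2)) (.cons (.rf (nat_lit 886) (nat_lit 11768864)) (.cons (.rf (nat_lit 709) (nat_lit 13313)) .nil))))) (.cons (.rf (nat_lit 709) (nat_lit 13313)) .nil)))))),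
 (.br (nat_lit 10) (nat_lit 0) (.cons (.br (nat_lit 1) (nat_lit 0) (.cons (.rf (nat_lit 903) (nat_lit 14242959524133701664)) (.cons (.rf (nat_lit 904) (nat_lit 14242959524133701664)) (.cons (.rf (nat_lit 905) (nat_lit 14242959524133701664)) (.cons (.rf (nat_lit 886) (nat_lit 11768864)) (.cons (.br (nat_lit 1) (nat_lit 0) (.cons (.rf (nat_lit 903) (nat_lit 14242959524133701664)) (.cons (.rf (nat_lit 904) (nat_lit 14242959524133701664)) (.cons (.rf (nat_lit 905) (nat_lit 14242959524133701664)) (.cons (.rf (nat_lit 886) (nat_lit 11768864)) (.cons (.rf (nat_lit 709) (nat_lit 13313)) .nil)))))) (.cons (.rf (nat_lit 709) (nat_lit 13313)) .nil))))))) .nil)),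
 (.br (nat_lit 1) (nat_lit 0) (.cons (.ev (nat_lit 1208944266358702884323329) (nat_lit 1)) (.cons (.ev (nat_lit 18447025548703039489) (nat_lit 1)) (.cons (.rf (nat_lit 886) (nat_lit 11768864)) (.cons (.rf (nat_lit 709) (nat_lit 12289)) (.cons (.br (nat_lit 1) (nat_lit 0) (.cons (.ev (nat_lit 1208944266358702884323329) (nat_lit 1)) (.cons (.ev (nat_lit 18447025548703039489) (nat_lit 1)) (.cons (.rf (nat_lit 886) (nat_lit 11768864)) (.cons (.rf (nat_lit 709) (nat_lit 13313)) .nil))))) .nil)))))),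
 (.br (nat_lit 1) (nat_lit 0) (.cons (.ev (nat_lit 1208944266358702884323329) (nat_lit 1)) (.cons (.ev (nat_lit 18447025548703039489) (nat_lit 1)) (.cons (.rf (nat_lit 907) (nat_lit 407901468851537952)) (.cons (.rf (nat_lit 886) (nat_lit 11768864)) (.cons (.rf (nat_lit 709) (nat_lit 12289)) (.cons (.br (nat_lit 1) (nat_lit 0) (.cons (.ev (nat_lit 1208944266358702884323329) (nat_lit 1)) (.cons (.ev (nat_lit 18447025548703039489) (nat_lit 1)) (.cons (.rf (nat_lit 907) (nat_lit 407901468851537952)) (.cons (.rf (nat_lit 886) (nat_lit 11768864)) (.cons (.rf (nat_lit 709) (nat_lit 13313)) .nil)))))) .nil))))))),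
 (.br (nat_lit 3) (nat_lit 1) (.cons (.rf (nat_lit 886) (nat_lit 3380225)) (.cons (.br (nat_lit 5) (nat_lit 0) (.cons (.rf (nat_lit 906) (nat_lit 14242959524133701664)) (.cons (.rf (nat_lit 906) (nat_lit 13126066816545818656)) .nil))) (.cons (.br (nat_lit 5) (nat_lit 0) (.cons (.rf (nat_lit 908) (nat_lit 407901468851537952)) (.cons (.rf (nat_lit 908) (nat_lit 443930265870501920)) .nil))) .nil)))),
 (.br (nat_lit 7) (nat_lit 0) (.cons (.rf (nat_lit 886) (nat_lit 4428801)) (.cons (.br (nat_lit 7) (nat_lit 0) (.cons (.rf (nat_lit 886) (nat_lit 4428801)) (.cons (.br (nat_lit 4) (nat_lit 1) (.cons (.rf (nat_lit 909) (nat_lit 14242959524133701664)) (.cons (.rf (nat_lit 909) (nat_lit 14242925439273240608)) (.cons (.rf (nat_lit 902) (nat_lit 10908405792)) .nil)))) .nil))) .nil))),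
 (.br (nat_lit 1) (nat_lit 0) (.cons (.kr (nat_lit 1) (nat_lit 256) (nat_lit 0) (nat_lit 2)) (.cons (.rf (nat_lit 886) (nat_lit 11768864)) (.cons (.ev (nat_lit 4722438823038171545856) (nat_lit 1)) (.cons (.rf (nat_lit 709) (nat_lit 13313)) .nil))))),
 (.br (nat_lit 1) (nat_lit 0) (.cons (.rf (nat_lit 709) (nat_lit 6145)) (.cons (.rf (nat_lit 902) (nat_lit 4401992705)) .nil))),
 (.br (nat_lit 1) (nat_lit 0) (.cons (.rf (nat_lit 911) (nat_lit 14242959524133701664)) (.cons (.br (nat_lit 1) (nat_lit 0) (.cons (.kr (nat_lit 1) (nat_lit 256) (nat_lit 0) (nat_lit 2)) (.cons (.ev (nat_lit 72339073326383361) (nat_lit 1)) (.cons (.rf (nat_lit 912) (nat_lit 413305888)) (.cons (.rf (nat_lit 709) (nat_lit 13313)) .nil))))) (.cons (.rf (nat_lit 886) (nat_lit 11768864)) (.cons (.rf (nat_lit 912) (nat_lit 413305888)) (.cons (.rf (nat_lit 709) (nat_lit 13313)) .nil)))))),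
 (.br (nat_lit 10) (nat_lit 0) (.cons (.br (nat_lit 1) (nat_lit 0) (.cons (.br (nat_lit 1) (nat_lit 0) (.cons (.rf (nat_lit 911) (nat_lit 14242959524133701664)) (.cons (.rf (nat_lit 911) (nat_lit 14242925439272224800)) (.cons (.rf (nat_lit 886) (nat_lit 11768864)) (.cons (.rf (nat_lit 912) (nat_lit 413304864)) (.cons (.rf (nat_lit 709) (nat_lit 13313)) .nil)))))) (.cons (.rf (nat_lit 913) (nat_lit 14242959524133701664)) (.cons (.rf (nat_lit 913) (nat_lit 14242925439272224800)) (.cons (.rf (nat_lit 886) (nat_lit 11768864)) (.cons (.br (nat_lit 1) (nat_lit 0) (.cons (.rf (nat_lit 912) (nat_lit 413304864)) (.cons (.rf (nat_lit 912) (nat_lit 413305888)) (.cons (.rf (nat_lit 912) (nat_lit 413306912)) (.cons (.rf (nat_lit 886) (nat_lit 11768864)) (.cons (.rf (nat_lit 709) (nat_lit 13313)) .nil)))))) (.cons (.rf (nat_lit 709) (nat_lit 13313)) .nil))))))) .nil)),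
 (.br (nat_lit 4) (nat_lit 1) (.cons (.br (nat_lit 7) (nat_lit 0) (.cons (.rf (nat_lit 914) (nat_lit 14242959524133701664)) (.cons (.rf (nat_lit 914) (nat_lit 13126066816545818656)) .nil))) (.cons (.rf (nat_lit 910) (nat_lit 7081037657083936)) .nil))),
 (.br (nat_lit 3) (nat_lit 1) (.cons (.rf (nat_lit 915) (nat_lit 14242959524133701664)) (.cons (.rf (nat_lit 915) (nat_lit 14242925439273240608)) (.cons (.rf (nat_lit 910) (nat_lit 7081037658131488)) .nil)))),
 (.br (nat_lit 1) (nat_lit 0) (.cons (.kr (nat_lit 1) (nat_lit 256) (nat_lit 0) (nat_lit 2)) (.cons (.rf (nat_lit 886) (nat_lit 7541792)) (.cons (.rf (nat_lit 886) (nat_lit 8590368)) (.cons (.rf (nat_lit 709) (nat_lit 9217)) .nil))))),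
 (.br (nat_lit 1) (nat_lit 0) (.cons (.rf (nat_lit 917) (nat_lit 9043224629280)) (.cons (.rf (nat_lit 917) (nat_lit 9043225708576)) (.cons (.rf (nat_lit 886) (nat_lit 7541792)) (.cons (.rf (nat_lit 886) (nat_lit 8590368)) (.cons (.rf (nat_lit 709) (nat_lit 9217)) .nil)))))),
 (.br (nat_lit 1) (nat_lit 0) (.cons (.rf (nat_lit 918) (nat_lit 9043225676832)) (.cons (.rf (nat_lit 918) (nat_lit 9043225708576)) (.cons (.rf (nat_lit 918) (nat_lit 9043224692768)) (.cons (.rf (nat_lit 886) (nat_lit 7541792)) (.cons (.rf (nat_lit 886) (nat_lit 8590368)) (.cons (.rf (nat_lit 709) (nat_lit 9217)) .nil))))))),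
 (.br (nat_lit 7) (nat_lit 0) (.cons (.rf (nat_lit 916) (nat_lit 14242959524133701664)) (.cons (.rf (nat_lit 919) (nat_lit 13579784914976)) .nil))),
 (.br (nat_lit 5) (nat_lit 0) (.cons (.rf (nat_lit 886) (nat_lit 3380225)) (.cons (.rf (nat_lit 910) (nat_lit 11584701642934304)) (.cons (.br (nat_lit 5) (nat_lit 0) (.cons (.rf (nat_lit 886) (nat_lit 3380225)) (.cons (.rf (nat_lit 910) (nat_lit 11584701642934304)) (.cons (.br (nat_lit 7) (nat_lit 0) (.cons (.rf (nat_lit 916) (nat_lit 14242959524133701664)) (.cons (.rf (nat_lit 920) (nat_lit 14242959524133701664)) (.cons (.rf (nat_lit 920) (nat_lit 13126066816545818656)) .nil)))) .nil)))) .nil)))),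
 (.br (nat_lit 8) (nat_lit 1) (.cons (.br (nat_lit 9) (nat_lit 1) (.cons (.br (nat_lit 7) (nat_lit 0) (.cons (.rf (nat_lit 921) (nat_lit 11584701642934304)) (.cons (.rf (nat_lit 921) (nat_lit 11584701641918496)) (.cons (.br (nat_lit 7) (nat_lit 0) (.cons (.rf (nat_lit 921) (nat_lit 11584701642934304)) (.cons (.rf (nat_lit 921) (nat_lit 11584701641918496)) (.cons (.br (nat_lit 7) (nat_lit 0) (.cons (.rf (nat_lit 921) (nat_lit 11584701642934304)) (.cons (.rf (nat_lit 921) (nat_lit 11584701641918496)) .nil))) .nil)))) .nil)))) .nil)) .nil)),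
 (.br (nat_lit 6) (nat_lit 1) (.cons (.rf (nat_lit 2) (nat_lit 6373)) (.cons (.br (nat_lit 6) (nat_lit 1) (.cons (.rf (nat_lit 2) (nat_lit 6373)) (.cons (.br (nat_lit 5) (nat_lit 1) (.cons (.rf (nat_lit 12) (nat_lit 9705639)) (.cons (.rf (nat_lit 12) (nat_lit 8689831)) (.cons (.br (nat_lit 8) (nat_lit 1) (.cons (.rf (nat_lit 922) (nat_lit 11584701642934304)) (.cons (.br (nat_lit 8) (nat_lit 1) (.cons (.rf (nat_lit 922) (nat_lit 11584701642934304)) .nil)) .nil))) .nil)))) .nil))) .nil))),
 (.br (nat_lit 7) (nat_lit 0) (.cons (.rf (nat_lit 471) (nat_lit 281492392992)) .nil)),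
 (.br (nat_lit 4) (nat_lit 1) (.cons (.rf (nat_lit 924) (nat_lit 318068920418)) (.cons (.rf (nat_lit 924) (nat_lit 284782923874)) (.cons (.rf (nat_lit 886) (nat_lit 4527105)) .nil)))),
 (.br (nat_lit 5) (nat_lit 1) (.cons (.rf (nat_lit 923) (nat_lit 180760940576)) (.cons (.br (nat_lit 8) (nat_lit 1) (.cons (.rf (nat_lit 912) (nat_lit 142968833)) .nil)) (.cons (.rf (nat_lit 714) (nat_lit 11434)) .nil)))),
 (.br (nat_lit 7) (nat_lit 1) (.cons (.rf (nat_lit 912) (nat_lit 108169217)) (.cons (.br (nat_lit 4) (nat_lit 1) (.cons (.rf (nat_lit 926) (nat_lit 407901468851537952)) (.cons (.rf (nat_lit 926) (nat_lit 407867383991076896)) .nil))) (.cons (.rf (nat_lit 923) (nat_lit 385645349920)) .nil)))),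
 (.br (nat_lit 7) (nat_lit 1) (.cons (.rf (nat_lit 912) (nat_lit 108169217)) (.cons (.rf (nat_lit 927) (nat_lit 407901468851537952)) (.cons (.rf (nat_lit 927) (nat_lit 407867383991076896)) (.cons (.rf (nat_lit 923) (nat_lit 385645349920)) .nil))))),
 (.br (nat_lit 11) (nat_lit 0) (.cons (.rf (nat_lit 886) (nat_lit 3511297)) (.cons (.br (nat_lit 3) (nat_lit 1) (.cons (.rf (nat_lit 928) (nat_lit 407901468851537952)) (.cons (.rf (nat_lit 928) (nat_lit 407900403699648544)) (.cons (.rf (nat_lit 928) (nat_lit 407865253687298080)) .nil)))) .nil))),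
 (.br (nat_lit 10) (nat_lit 1) (.cons (.br (nat_lit 11) (nat_lit 1) (.cons (.rf (nat_lit 919) (nat_lit 12451282257952)) .nil)) .nil)),
 (.br (nat_lit 6) (nat_lit 1) (.cons (.rf (nat_lit 912) (nat_lit 107186177)) (.cons (.rf (nat_lit 923) (nat_lit 281559501856)) (.cons (.br (nat_lit 6) (nat_lit 1) (.cons (.rf (nat_lit 912) (nat_lit 107186177)) (.cons (.rf (nat_lit 923) (nat_lit 315919240224)) (.cons (.br (nat_lit 7) (nat_lit 0) (.cons (.br (nat_lit 2) (nat_lit 1) (.cons (.rf (nat_lit 925) (nat_lit 325633922108448)) (.cons (.rf (nat_lit 925) (nat_lit 322438466440224)) (.cons (.rf (nat_lit 925) (nat_lit 287288454089760)) (.cons (.rf (nat_lit 886) (nat_lit 2432001)) .nil))))) (.cons (.br (nat_lit 10) (nat_lit 1) (.cons (.rf (nat_lit 925) (nat_lit 325633922370592)) (.cons (.rf (nat_lit 925) (nat_lit 322438466702368)) (.cons (.rf (nat_lit 925) (nat_lit 287288454351904)) (.cons (.br (nat_lit 11) (nat_lit 0) (.cons (.rf (nat_lit 929) (nat_lit 407901400197106720)) (.cons (.rf (nat_lit 886) (nat_lit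 4561921)) (.cons (.br (nat_lit 11) (nat_lit 0) (.cons (.rf (nat_lit 929) (nat_lit 407901400197106720)) (.cons (.rf (nat_lit 886) (nat_lit 4561921)) .nil))) .nil)))) .nil))))) .nil))) .nil)))) .nil)))),
 (.br (nat_lit 3) (nat_lit 1) (.cons (.br (nat_lit 4) (nat_lit 1) (.cons (.rf (nat_lit 931) (nat_lit 386751662112)) (.cons (.rf (nat_lit 930) (nat_lit 370851259889092640)) .nil))) (.cons (.rf (nat_lit 930) (nat_lit 370817140669909024)) .nil))),
 (.br (nat_lit 4) (nat_lit 1) (.cons (.br (nat_lit 4) (nat_lit 1) (.cons (.rf (nat_lit 932) (nat_lit 10422655290312736)) .nil)) (.cons (.rf (nat_lit 932) (nat_lit 10422620930574368)) .nil))),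
 (.br (nat_lit 2) (nat_lit 1) (.cons (.rf (nat_lit 886) (nat_lit 2298881)) (.cons (.br (nat_lit 6) (nat_lit 1) (.cons (.rf (nat_lit 912) (nat_lit 73567233)) (.cons (.rf (nat_lit 923) (nat_lit 247132686368)) (.cons (.br (nat_lit 6) (nat_lit 1) (.cons (.rf (nat_lit 912) (nat_lit 73567233)) (.cons (.rf (nat_lit 923) (nat_lit 281492424736)) (.cons (.br (nat_lit 6) (nat_lit 1) (.cons (.rf (nat_lit 912) (nat_lit 73567233)) (.cons (.rf (nat_lit 923) (nat_lit 315852163104)) (.cons (.br (nat_lit 5) (nat_lit 0) (.cons (.rf (nat_lit 931) (nat_lit 178479239200)) (.cons (.rf (nat_lit 931) (nat_lit 178480286752)) (.cons (.br (nat_lit 5) (nat_lit 0) (.cons (.rf (nat_lit 931) (nat_lit 178479239200)) (.cons (.rf (nat_lit 931) (nat_lit 178480286752)) (.cons (.br (nat_lit 3) (nat_lit 1) (.cons (.rf (nat_lit 933) (nat_lit 398270341941280)) (.cons (.rf (nat_lit 933) (nat_lit 398304701679648)) (.cons (.rf (nat_lit 933) (nat_lit 398339061418016)) (.cons (.br (nat_lit 3) (nat_lit 1) (.cons (.rf (nat_lit 933)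 (nat_lit 398270341941280)) (.cons (.rf (nat_lit 933) (nat_lit 398304701679648)) (.cons (.rf (nat_lit 933) (nat_lit 398339061418016)) .nil)))) .nil))))) .nil)))) .nil)))) .nil)))) .nil)))) .nil)))) .nil))),
 (.br (nat_lit 0) (nat_lit 0) (.cons (.rf (nat_lit 709) (nat_lit 2080)) (.cons (.br (nat_lit 0) (nat_lit 0) (.cons (.rf (nat_lit 709) (nat_lit 3104)) (.cons (.br (nat_lit 0) (nat_lit 0) (.cons (.rf (nat_lit 709) (nat_lit 4128)) (.cons (.br (nat_lit 2) (nat_lit 1) (.cons (.rf (nat_lit 934) (nat_lit 172066848)) (.cons (.br (nat_lit 3) (nat_lit 1) (.cons (.rf (nat_lit 934) (nat_lit 205589536)) (.cons (.br (nat_lit 4) (nat_lit 1) (.cons (.rf (nat_lit 934) (nat_lit 238096416)) (.cons (.br (nat_lit 2) (nat_lit 1) (.cons (.rf (nat_lit 934) (nat_lit 272730144)) (.cons (.br (nat_lit 3) (nat_lit 1) (.cons (.rf (nat_lit 934) (nat_lit 306252832)) .nil)) .nil))) .nil))) .nil))) .nil))) .nil))) .nil))) .nil))),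
 (.br (nat_lit 6) (nat_lit 0) (.cons (.rf (nat_lit 935) (nat_lit 192)) (.cons (.br (nat_lit 6) (nat_lit 0) (.cons (.rf (nat_lit 935) (nat_lit 192)) (.cons (.rf (nat_lit 935) (nat_lit 230)) .nil))) (.cons (.rf (nat_lit 935) (nat_lit 230)) .nil)))),
 (.br (nat_lit 4) (nat_lit 0) (.cons (.ev (nat_lit 18519084246530851073) (nat_lit 1)) (.cons (.rf (nat_lit 936) (nat_lit 13258295328)) .nil))),
 (.br (nat_lit 2) (nat_lit 0) (.cons (.ev (nat_lit 18519084246530851073) (nat_lit 1)) (.cons (.rf (nat_lit 936) (nat_lit 13256200224)) .nil))),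
 (.br (nat_lit 12) (nat_lit 0) (.cons (.ev (nat_lit 1213648186097503114952961) (nat_lit 1)) (.cons (.rf (nat_lit 935) (nat_lit 428)) .nil))),
 (.br (nat_lit 11) (nat_lit 0) (.cons (.rf (nat_lit 937) (nat_lit 407901468851537952)) (.cons (.rf (nat_lit 938) (nat_lit 407901468851537952)) (.cons (.br (nat_lit 11) (nat_lit 0) (.cons (.rf (nat_lit 937) (nat_lit 407901468851537952)) (.cons (.rf (nat_lit 938) (nat_lit 407901468851537952)) (.cons (.br (nat_lit 12) (nat_lit 0) (.cons (.rf (nat_lit 939) (nat_lit 14242959524133701664)) (.cons (.br (nat_lit 13) (nat_lit 0) (.cons (.rf (nat_lit 939) (nat_lit 15395881028740548640)) (.cons (.rf (nat_lit 935) (nat_lit 428)) .nil))) (.cons (.rf (nat_lit 935) (nat_lit 428)) .nil)))) .nil)))) .nil)))),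
 (.br (nat_lit 4) (nat_lit 0) (.cons (.rf (nat_lit 935) (nat_lit 128)) (.cons (.rf (nat_lit 935) (nat_lit 164)) (.cons (.br (nat_lit 4) (nat_lit 0) (.cons (.rf (nat_lit 935) (nat_lit 128)) (.cons (.rf (nat_lit 935) (nat_lit 196)) (.cons (.br (nat_lit 4) (nat_lit 0) (.cons (.rf (nat_lit 935) (nat_lit 128)) (.cons (.rf (nat_lit 935) (nat_lit 228)) .nil))) .nil)))) .nil)))),
 (.br (nat_lit 2) (nat_lit 0) (.cons (.rf (nat_lit 940) (nat_lit 407901468851536960)) (.cons (.br (nat_lit 3) (nat_lit 0) (.cons (.ev (nat_lit 310693935640959697916329984) (nat_lit 1)) (.cons (.rf (nat_lit 941) (nat_lit 12717088)) .nil))) (.cons (.rf (nat_lit 941) (nat_lit 12716064)) .nil)))),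
 (.br (nat_lit 5) (nat_lit 0) (.cons (.rf (nat_lit 935) (nat_lit 160)) (.cons (.rf (nat_lit 935) (nat_lit 197)) (.cons (.br (nat_lit 5) (nat_lit 0) (.cons (.rf (nat_lit 935) (nat_lit 160)) (.cons (.rf (nat_lit 935) (nat_lit 229)) .nil))) .nil)))),
 (.br (nat_lit 2) (nat_lit 0) (.cons (.rf (nat_lit 937) (nat_lit 407901468851536960)) (.cons (.rf (nat_lit 942) (nat_lit 407901468851536960)) (.cons (.br (nat_lit 3) (nat_lit 0) (.cons (.ev (nat_lit 18519084246530851073) (nat_lit 1)) (.cons (.rf (nat_lit 943) (nat_lit 414287904)) .nil))) (.cons (.br (nat_lit 12) (nat_lit 0) (.cons (.br (nat_lit 12) (nat_lit 0) (.cons (.ev (nat_lit 4722438823042466513153) (nat_lit 1)) (.cons (.ev (nat_lit 309485009893685237267824896) (nat_lit 1)) (.cons (.rf (nat_lit 935) (nat_lit 428)) .nil)))) (.cons (.ev (nat_lit 4722438823042466513153) (nat_lit 1)) (.cons (.br (nat_lit 12) (nat_lit 0) (.cons (.ev (nat_lit 309485009893685237267824896) (nat_lit 1)) (.cons (.ev (nat_lit 4722438823042466513153) (nat_lit 1)) (.cons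 (.rf (nat_lit 935) (nat_lit 428)) .nil)))) (.cons (.rf (nat_lit 935) (nat_lit 428)) .nil))))) .nil))))),
 (.br (nat_lit 12) (nat_lit 0) (.cons (.br (nat_lit 12) (nat_lit 0) (.cons (.rf (nat_lit 935) (nat_lit 428)) .nil)) (.cons (.rf (nat_lit 935) (nat_lit 428)) .nil))),
 (.br (nat_lit 12) (nat_lit 0) (.cons (.br (nat_lit 12) (nat_lit 0) (.cons (.rf (nat_lit 935) (nat_lit 428)) .nil)) (.cons (.rf (nat_lit 935) (nat_lit 428)) .nil))),
 (.br (nat_lit 13) (nat_lit 0) (.cons (.rf (nat_lit 946) (nat_lit 493858305440582043680)) (.cons (.br (nat_lit 13) (nat_lit 0) (.cons (.rf (nat_lit 946) (nat_lit 493858305440582043680)) (.cons (.rf (nat_lit 935) (nat_lit 428)) .nil))) (.cons (.rf (nat_lit 935) (nat_lit 428)) .nil)))),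
 (.br (nat_lit 13) (nat_lit 0) (.cons (.rf (nat_lit 947) (nat_lit 458117738797769786432)) (.cons (.br (nat_lit 13) (nat_lit 0) (.cons (.rf (nat_lit 947) (nat_lit 458117738797769786432)) (.cons (.rf (nat_lit 935) (nat_lit 428)) .nil))) (.cons (.rf (nat_lit 935) (nat_lit 428)) .nil)))),
 (.br (nat_lit 9) (nat_lit 0) (.cons (.br (nat_lit 1) (nat_lit 0) (.cons (.kr (nat_lit 256) (nat_lit 65536) (nat_lit 1) (nat_lit 0)) (.cons (.rf (nat_lit 940) (nat_lit 407901468851537952)) (.cons (.rf (nat_lit 942) (nat_lit 407901468851537952)) (.cons (.rf (nat_lit 944) (nat_lit 407901468851537952)) (.cons (.br (nat_lit 2) (nat_lit 0) (.cons (.rf (nat_lit 941) (nat_lit 12682304)) (.cons (.rf (nat_lit 941) (nat_lit 12715072)) (.cons (.rf (nat_lit 944) (nat_lit 407901468851536960)) (.cons (.br (nat_lit 4) (nat_lit 0) (.cons (.ev (nat_lit 18519084246530851073) (nat_lit 1)) (.cons (.ev (nat_lit 4722438823042466513153) (nat_lit 1)) (.cons (.br (nat_lit 12) (nat_lit 0) (.cons (.zr (nat_lit 14185546192682645324294)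 (nat_lit 316916276834588536629249441792) (nat_lit 10) (nat_lit 0)) (.cons (.zr (nat_lit 33056565380087516627462) (nat_lit 316916276889928768850378096640) (nat_lit 10) (nat_lit 0)) (.cons (.rf (nat_lit 935) (nat_lit 428)) .nil)))) (.cons (.br (nat_lit 13) (nat_lit 0) (.cons (.rf (nat_lit 945) (nat_lit 493858305440582043680)) (.cons (.br (nat_lit 13) (nat_lit 0) (.cons (.rf (nat_lit 945) (nat_lit 493858305440582043680)) (.cons (.rf (nat_lit 935) (nat_lit 428)) .nil))) (.cons (.rf (nat_lit 935) (nat_lit 428)) .nil)))) .nil))))) (.cons (.br (nat_lit 12) (nat_lit 0) (.cons (.rf (nat_lit 947) (nat_lit 493858305440582043680)) (.cons (.rf (nat_lit 948) (nat_lit 493858305440582043680)) (.cons (.br (nat_lit 12) (nat_lit 0) (.cons (.rf (nat_lit 947) (nat_lit 493858305440582043680)) (.cons (.rf (nat_lit 948) (nat_lit 493858305440582043680)) (.cons (.rf (nat_lit 935) (nat_lit 428)) .nil)))) (.cons (.rf (nat_lit 935) (nat_lit 428)) .nil))))) .nil)))))) .nil)))))) .nil))]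

theorem c28 : chkAll C T R L28 (nat_lit 903) = true := by decide +kernel

theorem l28 : (nat_lit 903) + L28.length = (nat_lit 950) := by decide +kernel

/-- part of the certificates -/
def L29 : List Prf := [(.br (nat_lit 10) (nat_lit 0) (.cons (.rf (nat_lit 112) (nat_lit 325700596864097)) (.cons (.br (nat_lit 3) (nat_lit 1) (.cons (.rf (nat_lit 949) (nat_lit 407901468851537952)) (.cons (.rf (nat_lit 949) (nat_lit 407867383991076896)) .nil))) .nil))),
 (.br (nat_lit 11) (nat_lit 0) (.cons (.br (nat_lit 4) (nat_lit 0) (.cons (.ev (nat_lit 310693935641242276682858496) (nat_lit 1)) (.cons (.rf (nat_lit 941) (nat_lit 12685344)) .nil))) (.cons (.br (nat_lit 2) (nat_lit 0) (.cons (.ev (nat_lit 310693935641242276682858496) (nat_lit 1)) (.cons (.rf (nat_lit 941) (nat_lit 12683296)) .nil))) (.cons (.rf (nat_lit 941) (nat_lit 12692512)) .nil)))),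
 (.br (nat_lit 2) (nat_lit 0) (.cons (.rf (nat_lit 951) (nat_lit 407901468851536960)) (.cons (.br (nat_lit 3) (nat_lit 0) (.cons (.ev (nat_lit 18518801667764322561) (nat_lit 1)) (.cons (.rf (nat_lit 941) (nat_lit 12717088)) .nil))) (.cons (.rf (nat_lit 941) (nat_lit 12716064)) .nil)))),
 (.br (nat_lit 2) (nat_lit 0) (.cons (.rf (nat_lit 951) (nat_lit 407901468851536960)) (.cons (.rf (nat_lit 952) (nat_lit 407901468851536960)) (.cons (.br (nat_lit 3) (nat_lit 0) (.cons (.ev (nat_lit 18518801667764322561) (nat_lit 1)) (.cons (.rf (nat_lit 943) (nat_lit 414287904)) .nil))) (.cons (.br (nat_lit 12) (nat_lit 0) (.cons (.ev (nat_lit 4722438540463699984641) (nat_lit 1)) (.cons (.br (nat_lit 12) (nat_lit 0) (.cons (.ev (nat_lit 4722438540463699984641) (nat_lit 1)) (.cons (.ev (nat_lit 309485009893402667057676544) (nat_lit 1)) (.cons (.rf (nat_lit 935) (nat_lit 428)) .nil)))) (.cons (.br (nat_lit 12) (nat_lit 0) (.cons (.ev (nat_lit 4722438540463699984641) (nat_lit 1)) (.cons (.ev (nat_lit 309485009893402667057676544)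 (nat_lit 1)) (.cons (.rf (nat_lit 935) (nat_lit 428)) .nil)))) (.cons (.rf (nat_lit 935) (nat_lit 428)) .nil))))) .nil))))),
 (.br (nat_lit 12) (nat_lit 0) (.cons (.br (nat_lit 12) (nat_lit 0) (.cons (.rf (nat_lit 935) (nat_lit 428)) .nil)) (.cons (.rf (nat_lit 935) (nat_lit 428)) .nil))),
 (.br (nat_lit 9) (nat_lit 0) (.cons (.br (nat_lit 9) (nat_lit 0) (.cons (.ev (nat_lit 4722366764344638767104) (nat_lit 1)) .nil)) (.cons (.rf (nat_lit 935) (nat_lit 329)) .nil))),
 (.br (nat_lit 10) (nat_lit 0) (.cons (.rf (nat_lit 955) (nat_lit 11584701642934304)) (.cons (.br (nat_lit 10) (nat_lit 0) (.cons (.rf (nat_lit 955) (nat_lit 11584701642934304)) (.cons (.rf (nat_lit 935) (nat_lit 329)) .nil))) (.cons (.rf (nat_lit 935) (nat_lit 329)) .nil)))),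
 (.br (nat_lit 10) (nat_lit 0) (.cons (.rf (nat_lit 956) (nat_lit 10493986108179520)) (.cons (.br (nat_lit 10) (nat_lit 0) (.cons (.rf (nat_lit 956) (nat_lit 10493986108179520)) (.cons (.rf (nat_lit 935) (nat_lit 329)) .nil))) (.cons (.rf (nat_lit 935) (nat_lit 329)) .nil)))),
 (.br (nat_lit 9) (nat_lit 0) (.cons (.br (nat_lit 1) (nat_lit 0) (.cons (.kr (nat_lit 256) (nat_lit 65536) (nat_lit 1) (nat_lit 0)) (.cons (.rf (nat_lit 951) (nat_lit 407901468851537952)) (.cons (.rf (nat_lit 952) (nat_lit 407901468851537952)) (.cons (.rf (nat_lit 953) (nat_lit 407901468851537952)) (.cons (.br (nat_lit 2) (nat_lit 0) (.cons (.rf (nat_lit 941) (nat_lit 12682304)) (.cons (.rf (nat_lit 941) (nat_lit 12715072)) (.cons (.rf (nat_lit 953) (nat_lit 407901468851536960)) (.cons (.br (nat_lit 3) (nat_lit 0) (.cons (.ev (nat_lit 18518801667764322561) (nat_lit 1)) (.cons (.ev (nat_lit 4722438540463699984641) (nat_lit 1)) (.cons (.br (nat_lit 12) (nat_lit 0) (.cons (.zr (nat_lit 14185546192682645324294) (nat_lit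 316913858983093983309906051072) (nat_lit 10) (nat_lit 0)) (.cons (.zr (nat_lit 33056565380087516627462) (nat_lit 316913859038434215531034705920) (nat_lit 10) (nat_lit 0)) (.cons (.rf (nat_lit 935) (nat_lit 428)) .nil)))) (.cons (.br (nat_lit 13) (nat_lit 0) (.cons (.rf (nat_lit 954) (nat_lit 493858305440582043680)) (.cons (.br (nat_lit 13) (nat_lit 0) (.cons (.rf (nat_lit 954) (nat_lit 493858305440582043680)) (.cons (.rf (nat_lit 935) (nat_lit 428)) .nil))) (.cons (.rf (nat_lit 935) (nat_lit 428)) .nil)))) .nil))))) (.cons (.br (nat_lit 12) (nat_lit 0) (.cons (.rf (nat_lit 956) (nat_lit 15071356093827104)) (.cons (.rf (nat_lit 957) (nat_lit 15071356093827104)) (.cons (.br (nat_lit 12) (nat_lit 0) (.cons (.rf (nat_lit 956) (nat_lit 15071356093827104)) (.cons (.rf (nat_lit 957) (nat_lit 15071356093827104)) (.cons (.rf (nat_lit 935) (nat_lit 428)) .nil)))) (.cons (.rf (nat_lit 935) (nat_lit 428)) .nil))))) .nil)))))) .nil)))))) .nil)),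
 (.br (nat_lit 2) (nat_lit 0) (.cons (.ev (nat_lit 1208944338697776210640896) (nat_lit 1)) (.cons (.br (nat_lit 4) (nat_lit 0) (.cons (.ev (nat_lit 310698676526525710268956673) (nat_lit 1)) (.cons (.rf (nat_lit 941) (nat_lit 12685344)) .nil))) (.cons (.rf (nat_lit 941) (nat_lit 12683296)) .nil)))),
 (.br (nat_lit 3) (nat_lit 0) (.cons (.ev (nat_lit 309489750634573111591239681) (nat_lit 1)) (.cons (.rf (nat_lit 941) (nat_lit 12717088)) .nil))),
 (.br (nat_lit 7) (nat_lit 0) (.cons (.br (nat_lit 6) (nat_lit 0) (.cons (.rf (nat_lit 935) (nat_lit 230)) .nil)) (.cons (.rf (nat_lit 935) (nat_lit 230)) .nil))),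
 (.br (nat_lit 6) (nat_lit 0) (.cons (.rf (nat_lit 961) (nat_lit 247132686368)) (.cons (.br (nat_lit 7) (nat_lit 0) (.cons (.rf (nat_lit 961) (nat_lit 213846658080)) (.cons (.rf (nat_lit 935) (nat_lit 230)) .nil))) (.cons (.rf (nat_lit 935) (nat_lit 230)) .nil)))),
 (.br (nat_lit 2) (nat_lit 0) (.cons (.rf (nat_lit 959) (nat_lit 407901468851536960)) (.cons (.rf (nat_lit 960) (nat_lit 407901468851536960)) (.cons (.br (nat_lit 3) (nat_lit 0) (.cons (.ev (nat_lit 18446745177532989696) (nat_lit 1)) (.cons (.rf (nat_lit 943) (nat_lit 414287904)) .nil))) (.cons (.br (nat_lit 3) (nat_lit 0) (.cons (.rf (nat_lit 941) (nat_lit 12716128)) (.cons (.ev (nat_lit 309489750634573111591174401) (nat_lit 1)) (.cons (.br (nat_lit 12) (nat_lit 0) (.cons (.br (nat_lit 12) (nat_lit 0) (.cons (.ev (nat_lit 79537656969035667820561563650) (nat_lit 2)) (.cons (.rf (nat_lit 935) (nat_lit 428)) .nil))) (.cons (.br (nat_lit 12) (nat_lit 0) (.cons (.ev (nat_lit 79537656969035667820561563650) (nat_lit 2)) (.cons (.rf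 (nat_lit 935) (nat_lit 428)) .nil))) (.cons (.rf (nat_lit 935) (nat_lit 428)) .nil)))) (.cons (.rf (nat_lit 962) (nat_lit 459934894112)) .nil))))) .nil))))),
 (.br (nat_lit 11) (nat_lit 0) (.cons (.rf (nat_lit 962) (nat_lit 459934860384)) (.cons (.rf (nat_lit 962) (nat_lit 459933811840)) (.cons (.br (nat_lit 12) (nat_lit 0) (.cons (.br (nat_lit 13) (nat_lit 0) (.cons (.ev (nat_lit 4722366483973468651776) (nat_lit 1)) (.cons (.rf (nat_lit 935) (nat_lit 428)) .nil))) (.cons (.br (nat_lit 13) (nat_lit 0) (.cons (.ev (nat_lit 4722366483973468651776) (nat_lit 1)) (.cons (.rf (nat_lit 935) (nat_lit 428)) .nil))) (.cons (.rf (nat_lit 935) (nat_lit 428)) .nil)))) .nil)))),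
 (.br (nat_lit 4) (nat_lit 1) (.cons (.br (nat_lit 1) (nat_lit 0) (.cons (.kr (nat_lit 256) (nat_lit 65536) (nat_lit 1) (nat_lit 0)) (.cons (.rf (nat_lit 959) (nat_lit 407901468851537952)) (.cons (.br (nat_lit 2) (nat_lit 0) (.cons (.ev (nat_lit 4722366483973468585984) (nat_lit 1)) (.cons (.rf (nat_lit 960) (nat_lit 407901468851537952)) (.cons (.rf (nat_lit 941) (nat_lit 12716064)) .nil)))) (.cons (.rf (nat_lit 963) (nat_lit 407901468851537952)) (.cons (.br (nat_lit 2) (nat_lit 0) (.cons (.rf (nat_lit 941) (nat_lit 12682304)) (.cons (.rf (nat_lit 941) (nat_lit 12715072)) (.cons (.rf (nat_lit 963) (nat_lit 407901468851536960)) (.cons (.br (nat_lit 12) (nat_lit 0) (.cons (.br (nat_lit 12) (nat_lit 0) (.cons (.ev (nat_lit 4722366483973468651776) (nat_lit 1)) (.cons (.zr (nat_lit 36965827216433807619) (nat_lit 158459951805987522373146902528) (nat_lit 5) (nat_lit 0)) (.cons (.rf (nat_lit 935) (nat_lit 428)) .nil)))) (.cons (.br (nat_lit 12) (nat_lit 0) (.cons (.ev (nat_lit 4722366483973468651776)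 (nat_lit 1)) (.cons (.zr (nat_lit 9444805304808305131779) (nat_lit 158459951805987522373146902528) (nat_lit 5) (nat_lit 0)) (.cons (.rf (nat_lit 935) (nat_lit 428)) .nil)))) (.cons (.br (nat_lit 12) (nat_lit 0) (.cons (.zr (nat_lit 36965827216433807619) (nat_lit 158459951805987522373146902528) (nat_lit 5) (nat_lit 0)) (.cons (.zr (nat_lit 9444805304808305131779) (nat_lit 158459951805987522373146902528) (nat_lit 5) (nat_lit 0)) (.cons (.rf (nat_lit 935) (nat_lit 428)) .nil)))) (.cons (.rf (nat_lit 935) (nat_lit 428)) .nil))))) (.cons (.br (nat_lit 11) (nat_lit 0) (.cons (.rf (nat_lit 962) (nat_lit 459934860384)) (.cons (.rf (nat_lit 962) (nat_lit 459933811840)) (.cons (.rf (nat_lit 964) (nat_lit 493858305440582043680)) (.cons (.rf (nat_lit 964) (nat_lit 458117738797769786432)) .nil))))) .nil)))))) .nil)))))) .nil)),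
 (.br (nat_lit 6) (nat_lit 0) (.cons (.rf (nat_lit 620) (nat_lit 6391969)) (.cons (.br (nat_lit 7) (nat_lit 0) (.cons (.rf (nat_lit 13) (nat_lit 356559836255297)) (.cons (.rf (nat_lit 950) (nat_lit 11584701642934304)) (.cons (.br (nat_lit 10) (nat_lit 0) (.cons (.rf (nat_lit 950) (nat_lit 8207103960418336)) (.cons (.rf (nat_lit 13) (nat_lit 249907308009537)) (.cons (.rf (nat_lit 66) (nat_lit 12741458811524161)) .nil)))) .nil)))) (.cons (.br (nat_lit 7) (nat_lit 0) (.cons (.rf (nat_lit 13) (nat_lit 364256417649729)) (.cons (.br (nat_lit 10) (nat_lit 0) (.cons (.br (nat_lit 4) (nat_lit 1) (.cons (.rf (nat_lit 958) (nat_lit 407901468851537952)) (.cons (.rf (nat_lit 958) (nat_lit 407867383991076896)) .nil))) (.cons (.rf (nat_lit 66) (nat_lit 4867856045020225)) (.cons (.rf (nat_lit 13) (nat_lit 249907308238913)) .nil)))) (.cons (.br (nat_lit 10) (nat_lit 0) (.cons (.rf (nat_lit 112) (nat_lit 325708113056865)) (.cons (.br (nat_lit 3) (nat_lit 1) (.cons (.rf (nat_lit 965) (nat_lit 407901468851537952))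 (.cons (.rf (nat_lit 965) (nat_lit 407867383991076896)) .nil))) .nil))) .nil)))) .nil)))),
 (.br (nat_lit 11) (nat_lit 0) (.cons (.rf (nat_lit 962) (nat_lit 459934860384)) (.cons (.rf (nat_lit 962) (nat_lit 459933811840)) (.cons (.br (nat_lit 12) (nat_lit 0) (.cons (.br (nat_lit 12) (nat_lit 0) (.cons (.ev (nat_lit 310693935641242276682858496) (nat_lit 1)) (.cons (.rf (nat_lit 935) (nat_lit 428)) .nil))) (.cons (.ev (nat_lit 310693935641242276682858496) (nat_lit 1)) (.cons (.rf (nat_lit 935) (nat_lit 428)) .nil)))) .nil)))),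
 (.br (nat_lit 9) (nat_lit 0) (.cons (.br (nat_lit 1) (nat_lit 0) (.cons (.kr (nat_lit 4740813228042866393600) (nat_lit 1208925891953698189475840) (nat_lit 1) (nat_lit 0)) (.cons (.ev (nat_lit 18518801667764256769) (nat_lit 1)) (.cons (.br (nat_lit 2) (nat_lit 0) (.cons (.ev (nat_lit 4740813509517859946753) (nat_lit 1)) (.cons (.br (nat_lit 3) (nat_lit 0) (.cons (.ev (nat_lit 310698658079500165877596416) (nat_lit 1)) (.cons (.rf (nat_lit 941) (nat_lit 12717088)) .nil))) (.cons (.rf (nat_lit 941) (nat_lit 12716064)) .nil)))) (.cons (.br (nat_lit 2) (nat_lit 0) (.cons (.ev (nat_lit 282574505181441) (nat_lit 1)) (.cons (.br (nat_lit 3) (nat_lit 0) (.cons (.ev (nat_lit 310693954159761369941934336) (nat_lit 1)) (.cons (.rf (nat_lit 941) (nat_lit 12717120)) .nil))) (.cons (.br (nat_lit 3) (nat_lit 0) (.cons (.ev (nat_lit 310693954159761369941934336) (nat_lit 1)) (.cons (.rf (nat_lit 943) (nat_lit 414287904)) .nil))) (.cons (.br (nat_lit 3) (nat_lit 0) (.cons (.rf (nat_lit 941) (nat_lit 12716128))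 (.cons (.rf (nat_lit 943) (nat_lit 414256160)) (.cons (.br (nat_lit 4) (nat_lit 0) (.cons (.ev (nat_lit 309485028412204334855553537) (nat_lit 2)) (.cons (.br (nat_lit 12) (nat_lit 0) (.cons (.ev (nat_lit 158457567103365541075926253570) (nat_lit 3)) (.cons (.rf (nat_lit 935) (nat_lit 428)) .nil))) (.cons (.rf (nat_lit 962) (nat_lit 459933878304)) .nil)))) (.cons (.rf (nat_lit 962) (nat_lit 459934894112)) .nil))))) .nil))))) (.cons (.br (nat_lit 2) (nat_lit 0) (.cons (.rf (nat_lit 941) (nat_lit 12682304)) (.cons (.rf (nat_lit 941) (nat_lit 12715072)) (.cons (.br (nat_lit 3) (nat_lit 0) (.cons (.rf (nat_lit 941) (nat_lit 12715104)) (.cons (.rf (nat_lit 943) (nat_lit 414223424)) (.cons (.br (nat_lit 4) (nat_lit 0) (.cons (.rf (nat_lit 943) (nat_lit 414224448)) (.cons (.br (nat_lit 12) (nat_lit 0) (.cons (.ev (nat_lit 1858123762814977299848364550) (nat_lit 3)) (.cons (.rf (nat_lit 935) (nat_lit 428)) .nil))) (.cons (.rf (nat_lit 962) (nat_lit 459933877312)) .nil)))) (.cons (.rf (nat_lit 962)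 (nat_lit 459934893120)) .nil))))) (.cons (.br (nat_lit 4) (nat_lit 0) (.cons (.rf (nat_lit 941) (nat_lit 12715104)) (.cons (.br (nat_lit 12) (nat_lit 0) (.cons (.br (nat_lit 12) (nat_lit 0) (.cons (.ev (nat_lit 309485009893402667057741824) (nat_lit 1)) (.cons (.rf (nat_lit 935) (nat_lit 428)) .nil))) (.cons (.ev (nat_lit 310698676454469220037623808) (nat_lit 1)) (.cons (.rf (nat_lit 935) (nat_lit 428)) .nil)))) (.cons (.br (nat_lit 12) (nat_lit 0) (.cons (.zr (nat_lit 4722366482869645279491) (nat_lit 158456325028601015355614167040) (nat_lit 5) (nat_lit 0)) (.cons (.zr (nat_lit 9444732965739290493187) (nat_lit 158457533972795036088995414016) (nat_lit 5) (nat_lit 0)) (.cons (.rf (nat_lit 935) (nat_lit 428)) .nil)))) (.cons (.rf (nat_lit 957) (nat_lit 15071356091732000)) .nil))))) (.cons (.br (nat_lit 11) (nat_lit 0) (.cons (.rf (nat_lit 962) (nat_lit 459934860384)) (.cons (.rf (nat_lit 962) (nat_lit 459933811840)) (.cons (.rf (nat_lit 967) (nat_lit 493858305440582043680)) (.cons (.br (nat_lit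 11) (nat_lit 0) (.cons (.rf (nat_lit 962) (nat_lit 459934860384)) (.cons (.ev (nat_lit 310698676454469220037623808) (nat_lit 1)) (.cons (.rf (nat_lit 967) (nat_lit 493858305440582043680)) .nil)))) .nil))))) .nil)))))) .nil)))))) .nil)),
 (.br (nat_lit 3) (nat_lit 1) (.cons (.rf (nat_lit 739) (nat_lit 12536949648821313)) (.cons (.rf (nat_lit 739) (nat_lit 12536916362824769)) (.cons (.br (nat_lit 4) (nat_lit 1) (.cons (.rf (nat_lit 968) (nat_lit 407901468851537952)) (.cons (.rf (nat_lit 968) (nat_lit 407867383991076896)) .nil))) .nil)))),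
 (.br (nat_lit 6) (nat_lit 0) (.cons (.rf (nat_lit 962) (nat_lit 213846689824)) (.cons (.rf (nat_lit 962) (nat_lit 213845674016)) (.cons (.rf (nat_lit 935) (nat_lit 230)) .nil)))),
 (.br (nat_lit 11) (nat_lit 0) (.cons (.kr (nat_lit 1208944266641277372596224) (nat_lit 618974742081230601132703744) (nat_lit 5) (nat_lit 0)) (.cons (.kr (nat_lit 1213648186380073308258304) (nat_lit 618970038161491805197041664) (nat_lit 5) (nat_lit 0)) (.cons (.kr (nat_lit 281474976710656) (nat_lit 309485009821345068724781056) (nat_lit 6) (nat_lit 0)) (.cons (.br (nat_lit 2) (nat_lit 0) (.cons (.rf (nat_lit 941) (nat_lit 12692544)) (.cons (.rf (nat_lit 941) (nat_lit 12725312)) (.cons (.br (nat_lit 3) (nat_lit 0) (.cons (.rf (nat_lit 941) (nat_lit 12716128)) (.cons (.br (nat_lit 4) (nat_lit 0) (.cons (.ev (nat_lit 79228162514264338697350545664) (nat_lit 1)) (.cons (.rf (nat_lit 962) (nat_lit 459933878304)) .nil))) (.cons (.rf (nat_lit 962) (nat_lit 459934894112)) .nil)))) (.cons (.rf (nat_lit 970) (nat_lit 459934894112))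 .nil))))) .nil))))),
 (.br (nat_lit 11) (nat_lit 0) (.cons (.kr (nat_lit 1208944266641277372596224) (nat_lit 618974742081230601132703744) (nat_lit 5) (nat_lit 0)) (.cons (.ev (nat_lit 309489750706912180622655488) (nat_lit 1)) (.cons (.ev (nat_lit 309485028340147840278855681) (nat_lit 1)) (.cons (.br (nat_lit 1) (nat_lit 0) (.cons (.rf (nat_lit 941) (nat_lit 12692512)) (.cons (.rf (nat_lit 941) (nat_lit 12725280)) (.cons (.br (nat_lit 3) (nat_lit 0) (.cons (.rf (nat_lit 941) (nat_lit 12715104)) (.cons (.br (nat_lit 4) (nat_lit 0) (.cons (.ev (nat_lit 158457567029434447402612688388) (nat_lit 3)) (.cons (.rf (nat_lit 962) (nat_lit 459933877312)) .nil))) (.cons (.rf (nat_lit 962) (nat_lit 459934893120)) .nil)))) (.cons (.rf (nat_lit 970) (nat_lit 459934893120)) .nil))))) .nil))))),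
 (.br (nat_lit 11) (nat_lit 0) (.cons (.kr (nat_lit 281474976710656) (nat_lit 309485009821345068724781056) (nat_lit 6) (nat_lit 0)) (.cons (.ev (nat_lit 309485028340147840278855681) (nat_lit 1)) (.cons (.ev (nat_lit 309489732259886636214517761) (nat_lit 1)) (.cons (.br (nat_lit 1) (nat_lit 0) (.cons (.rf (nat_lit 941) (nat_lit 12659744)) (.cons (.rf (nat_lit 941) (nat_lit 12692512)) (.cons (.br (nat_lit 2) (nat_lit 0) (.cons (.rf (nat_lit 941) (nat_lit 12682304)) (.cons (.br (nat_lit 3) (nat_lit 0) (.cons (.ev (nat_lit 159695507179399729178304578050) (nat_lit 3)) (.cons (.rf (nat_lit 962) (nat_lit 459932796032)) .nil))) (.cons (.rf (nat_lit 962) (nat_lit 459933811840)) .nil)))) (.cons (.rf (nat_lit 970) (nat_lit 459933811840)) .nil))))) .nil))))),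
 (.br (nat_lit 12) (nat_lit 0) (.cons (.rf (nat_lit 935) (nat_lit 384)) (.cons (.ev (nat_lit 309485009893685237267890176) (nat_lit 1)) (.cons (.br (nat_lit 12) (nat_lit 0) (.cons (.rf (nat_lit 935) (nat_lit 384)) (.cons (.ev (nat_lit 309485009893685237267890176) (nat_lit 1)) (.cons (.rf (nat_lit 935) (nat_lit 428)) .nil)))) (.cons (.rf (nat_lit 935) (nat_lit 428)) .nil))))),
 (.br (nat_lit 2) (nat_lit 0) (.cons (.rf (nat_lit 941) (nat_lit 12682304)) (.cons (.rf (nat_lit 941) (nat_lit 12715072)) (.cons (.br (nat_lit 13) (nat_lit 0) (.cons (.ev (nat_lit 309485009893685237267890176) (nat_lit 1)) (.cons (.br (nat_lit 13) (nat_lit 0) (.cons (.ev (nat_lit 309485009893685237267890176) (nat_lit 1)) (.cons (.rf (nat_lit 935) (nat_lit 428)) .nil))) (.cons (.rf (nat_lit 935) (nat_lit 428)) .nil)))) (.cons (.rf (nat_lit 974) (nat_lit 493858305440582043680)) .nil))))),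
 (.br (nat_lit 10) (nat_lit 0) (.cons (.br (nat_lit 11) (nat_lit 0) (.cons (.rf (nat_lit 971) (nat_lit 407901468851537952)) (.cons (.rf (nat_lit 972) (nat_lit 407901468851537952)) (.cons (.rf (nat_lit 972) (nat_lit 407867383991045152)) (.cons (.rf (nat_lit 973) (nat_lit 407901468851537952)) (.cons (.br (nat_lit 11) (nat_lit 0) (.cons (.rf (nat_lit 971) (nat_lit 407901468851537952)) (.cons (.rf (nat_lit 972) (nat_lit 407901468851537952)) (.cons (.rf (nat_lit 972) (nat_lit 407867383991045152)) (.cons (.rf (nat_lit 973) (nat_lit 407901468851537952)) (.cons (.br (nat_lit 1) (nat_lit 0) (.cons (.rf (nat_lit 941) (nat_lit 12659744)) (.cons (.rf (nat_lit 941) (nat_lit 12692512)) (.cons (.rf (nat_lit 941) (nat_lit 12725280)) (.cons (.rf (nat_lit 975) (nat_lit 493858305440582043680)) (.cons (.rf (nat_lit 975) (nat_lit 458117738797769787424)) .nil)))))) .nil)))))) .nil)))))) .nil)),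
 (.br (nat_lit 9) (nat_lit 0) (.cons (.ev (nat_lit 282574505181184) (nat_lit 1)) (.cons (.br (nat_lit 3) (nat_lit 0) (.cons (.ev (nat_lit 282574505181184) (nat_lit 1)) (.cons (.rf (nat_lit 941) (nat_lit 10554400)) .nil))) (.cons (.rf (nat_lit 941) (nat_lit 10560544)) .nil)))),
 (.br (nat_lit 3) (nat_lit 0) (.cons (.ev (nat_lit 18446745177532989696) (nat_lit 1)) (.cons (.rf (nat_lit 941) (nat_lit 12717120)) .nil))),
 (.br (nat_lit 3) (nat_lit 0) (.cons (.rf (nat_lit 941) (nat_lit 12715104)) (.cons (.rf (nat_lit 943) (nat_lit 414223424)) (.cons (.br (nat_lit 4) (nat_lit 0) (.cons (.rf (nat_lit 943) (nat_lit 414224448)) (.cons (.br (nat_lit 11) (nat_lit 0) (.cons (.ev (nat_lit 309485028340147840278855681) (nat_lit 1)) (.cons (.rf (nat_lit 970) (nat_lit 426648896576)) .nil))) (.cons (.rf (nat_lit 962) (nat_lit 459933877312)) .nil)))) (.cons (.rf (nat_lit 962) (nat_lit 459934893120)) .nil))))),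
 (.br (nat_lit 12) (nat_lit 0) (.cons (.br (nat_lit 12) (nat_lit 0) (.cons (.rf (nat_lit 935) (nat_lit 428)) .nil)) (.cons (.rf (nat_lit 935) (nat_lit 428)) .nil))),
 (.br (nat_lit 3) (nat_lit 0) (.cons (.ev (nat_lit 4722366483973468651776) (nat_lit 1)) (.cons (.rf (nat_lit 979) (nat_lit 14242925439273208864)) (.cons (.br (nat_lit 12) (nat_lit 0) (.cons (.ev (nat_lit 79228162514336677766382026753) (nat_lit 1)) (.cons (.rf (nat_lit 976) (nat_lit 155699889726130220)) (.cons (.rf (nat_lit 935) (nat_lit 428)) .nil)))) (.cons (.br (nat_lit 13) (nat_lit 0) (.cons (.rf (nat_lit 980) (nat_lit 493858305440582043680)) (.cons (.br (nat_lit 13) (nat_lit 0) (.cons (.rf (nat_lit 980) (nat_lit 493858305440582043680)) (.cons (.rf (nat_lit 935) (nat_lit 428)) .nil))) (.cons (.rf (nat_lit 935) (nat_lit 428)) .nil)))) .nil))))),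
 (.br (nat_lit 13) (nat_lit 0) (.cons (.ev (nat_lit 309485009893685237267890176) (nat_lit 1)) .nil))]

theorem c29 : chkAll C T R L29 (nat_lit 950) = true := by decide +kernel

theorem l29 : (nat_lit 950) + L29.length = (nat_lit 983) := by decide +kernel

end Pool.Agent.H93.Neg.Q14_2_4_3_5_0
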