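import Pool.Agent.H93.Neg.TabQ14_2_4_3_5_0

/-!
Certificates.
-/

set_option autoImplicit false
set_option maxRecDepth 100000
set_option linter.all false

namespace Pool.Agent.H93.Neg.Q14_2_4_3_5_0

/-- part of the certificates -/
def L30 : List Prf := [(.br (nat_lit 11) (nat_lit 0) (.cons (.rf (nat_lit 962) (nat_lit 459934860384)) (.cons (.rf (nat_lit 962) (nat_lit 459933811840)) (.cons (.br (nat_lit 12) (nat_lit 0) (.cons (.ev (nat_lit 309485009893685237267890176) (nat_lit 1)) (.cons (.ev (nat_lit 310693935641242276682858496) (nat_lit 1)) (.cons (.rf (nat_lit 935) (nat_lit 428)) .nil)))) .nil)))),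
 (.br (nat_lit 4) (nat_lit 0) (.cons (.zr (nat_lit 14167172351736005394432) (nat_lit 1209018053334997722465280) (nat_lit 10) (nat_lit 4)) (.cons (.rf (nat_lit 960) (nat_lit 407901468851504224)) (.cons (.ev (nat_lit 309485009821346168236409089) (nat_lit 1)) (.cons (.br (nat_lit 2) (nat_lit 0) (.cons (.rf (nat_lit 941) (nat_lit 12685376)) (.cons (.ev (nat_lit 309489750634573111591174401) (nat_lit 1)) (.cons (.br (nat_lit 3) (nat_lit 0) (.cons (.ev (nat_lit 4722366483973468651776) (nat_lit 1)) (.cons (.br (nat_lit 11) (nat_lit 0) (.cons (.ev (nat_lit 79538861172343838858933240065) (nat_lit 1)) (.cons (.rf (nat_lit 970) (nat_lit 426648897568)) .nil))) (.cons (.rf (nat_lit 962) (nat_lit 459934894112)) .nil)))) (.cons (.rf (nat_lit 962) (nat_lit 426647881760)) .nil))))) .nil))))),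
 (.br (nat_lit 1) (nat_lit 0) (.cons (.br (nat_lit 4) (nat_lit 0) (.cons (.ev (nat_lit 309485009893402667057741824) (nat_lit 1)) (.cons (.rf (nat_lit 941) (nat_lit 12685344)) .nil))) (.cons (.kr (nat_lit 18518801667747479809) (nat_lit 4722366483973451874304) (nat_lit 0) (nat_lit 3)) (.cons (.ev (nat_lit 309489750634573111591174401) (nat_lit 1)) (.cons (.br (nat_lit 3) (nat_lit 0) (.cons (.rf (nat_lit 941) (nat_lit 12715104)) (.cons (.rf (nat_lit 943) (nat_lit 414223424)) (.cons (.br (nat_lit 4) (nat_lit 0) (.cons (.ev (nat_lit 309485009893402667057741824) (nat_lit 1)) (.cons (.br (nat_lit 11) (nat_lit 0) (.cons (.ev (nat_lit 79537647542532708215250026753) (nat_lit 1)) (.cons (.rf (nat_lit 970) (nat_lit 426648896576)) .nil))) (.cons (.rf (nat_lit 962) (nat_lit 459933877312)) .nil)))) (.cons (.rf (nat_lit 962) (nat_lit 459934893120)) .nil))))) .nil))))),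
 (.br (nat_lit 11) (nat_lit 0) (.cons (.zr (nat_lit 309494473001054881741538049) (nat_lit 1208925964576441203949568) (nat_lit 5) (nat_lit 0)) (.cons (.rf (nat_lit 985) (nat_lit 407901468851537952)) (.cons (.br (nat_lit 1) (nat_lit 0) (.cons (.ev (nat_lit 1858152170442248372218822915) (nat_lit 3)) (.cons (.rf (nat_lit 943) (nat_lit 414224480)) .nil))) (.cons (.br (nat_lit 1) (nat_lit 0) (.cons (.rf (nat_lit 941) (nat_lit 12659744)) (.cons (.rf (nat_lit 941) (nat_lit 12725280)) (.cons (.ev (nat_lit 1858142615100874680902353412) (nat_lit 3)) (.cons (.rf (nat_lit 970) (nat_lit 459934860384)) .nil))))) .nil))))),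
 (.br (nat_lit 11) (nat_lit 0) (.cons (.ev (nat_lit 309485009821346168236409089) (nat_lit 1)) (.cons (.ev (nat_lit 309485009893402667057741824) (nat_lit 1)) (.cons (.rf (nat_lit 986) (nat_lit 407901468851537952)) (.cons (.br (nat_lit 1) (nat_lit 0) (.cons (.kr (nat_lit 72057594037928193) (nat_lit 1103806660608) (nat_lit 0) (nat_lit 3)) (.cons (.rf (nat_lit 941) (nat_lit 12692512)) (.cons (.br (nat_lit 2) (nat_lit 0) (.cons (.ev (nat_lit 309489732404004019068994306) (nat_lit 2)) (.cons (.br (nat_lit 3) (nat_lit 0) (.cons (.ev (nat_lit 79538861172343838858933240065) (nat_lit 1)) (.cons (.rf (nat_lit 962) (nat_lit 459932796032)) .nil))) (.cons (.rf (nat_lit 962) (nat_lit 459933811840)) .nil)))) (.cons (.rf (nat_lit 970) (nat_lit 459933811840)) .nil))))) .nil))))),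
 (.br (nat_lit 3) (nat_lit 0) (.cons (.rf (nat_lit 941) (nat_lit 12682304)) (.cons (.rf (nat_lit 941) (nat_lit 12715104)) (.cons (.br (nat_lit 12) (nat_lit 0) (.cons (.rf (nat_lit 957) (nat_lit 14641447045278764)) (.cons (.rf (nat_lit 982) (nat_lit 479695576529586458668)) (.cons (.rf (nat_lit 935) (nat_lit 428)) .nil)))) (.cons (.ev (nat_lit 309494510110719109842862850) (nat_lit 2)) .nil))))),
 (.br (nat_lit 3) (nat_lit 1) (.cons (.rf (nat_lit 739) (nat_lit 12536949648820321)) (.cons (.br (nat_lit 4) (nat_lit 1) (.cons (.rf (nat_lit 976) (nat_lit 407901468851537952)) (.cons (.br (nat_lit 7) (nat_lit 0) (.cons (.br (nat_lit 1) (nat_lit 0) (.cons (.rf (nat_lit 977) (nat_lit 397206263793696)) (.cons (.rf (nat_lit 977) (nat_lit 396141111872544)) (.cons (.kr (nat_lit 4740813508418331476480) (nat_lit 1208925891673331314196480) (nat_lit 1) (nat_lit 0)) (.cons (.br (nat_lit 4) (nat_lit 0) (.cons (.rf (nat_lit 978) (nat_lit 407901468851537952)) (.cons (.rf (nat_lit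 978) (nat_lit 407867383991045152)) (.cons (.ev (nat_lit 310698676526525710268891393) (nat_lit 1)) (.cons (.br (nat_lit 2) (nat_lit 0) (.cons (.rf (nat_lit 941) (nat_lit 12685376)) (.cons (.rf (nat_lit 943) (nat_lit 414320672)) (.cons (.br (nat_lit 3) (nat_lit 0) (.cons (.ev (nat_lit 309499177064911069105029635) (nat_lit 2)) (.cons (.br (nat_lit 11) (nat_lit 0) (.cons (.ev (nat_lit 620212131373041983307514886) (nat_lit 3)) (.cons (.rf (nat_lit 970) (nat_lit 426648897568)) .nil))) (.cons (.rf (nat_lit 962) (nat_lit 459934894112)) .nil)))) (.cons (.rf (nat_lit 962) (nat_lit 426647881760)) .nil))))) .nil))))) (.cons (.br (nat_lit 2) (nat_lit 0) (.cons (.rf (nat_lit 941) (nat_lit 12682304)) (.cons (.rf (nat_lit 941) (nat_lit 12715072)) (.cons (.rf (nat_lit 979) (nat_lit 14242959524133701664)) (.cons (.rf (nat_lit 981) (nat_lit 14242959524133701664)) (.cons (.br (nat_lit 3) (nat_lit 0) (.cons (.rf (nat_lit 941) (nat_lit 12715104)) (.cons (.rf (nat_lit 962) (nat_lit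 459934860384)) (.cons (.rf (nat_lit 981) (nat_lit 14242925439273208864)) (.cons (.br (nat_lit 12) (nat_lit 0) (.cons (.rf (nat_lit 974) (nat_lit 13990757945008293933)) (.cons (.br (nat_lit 12) (nat_lit 0) (.cons (.rf (nat_lit 974) (nat_lit 13990757945008293933)) (.cons (.rf (nat_lit 935) (nat_lit 428)) .nil))) (.cons (.rf (nat_lit 935) (nat_lit 428)) .nil)))) .nil))))) .nil)))))) .nil)))))) .nil)) .nil))) (.cons (.br (nat_lit 4) (nat_lit 1) (.cons (.br (nat_lit 9) (nat_lit 0) (.cons (.br (nat_lit 1) (nat_lit 0) (.cons (.br (nat_lit 3) (nat_lit 0) (.cons (.ev (nat_lit 1223185658597464145396740) (nat_lit 3)) (.cons (.br (nat_lit 4) (nat_lit 0) (.cons (.ev (nat_lit 4777707560628117307906) (nat_lit 2)) (.cons (.rf (nat_lit 941) (nat_lit 12652576)) .nil))) (.cons (.rf (nat_lit 941) (nat_lit 12651552)) .nil)))) (.cons (.ev (nat_lit 18518801667764256769) (nat_lit 1)) (.cons (.ev (nat_lit 4722438823042466447361) (nat_lit 1)) (.cons (.br (nat_lit 3) (nat_lit 0) (.cons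 (.br (nat_lit 4) (nat_lit 0) (.cons (.ev (nat_lit 284777856893442) (nat_lit 2)) (.cons (.rf (nat_lit 941) (nat_lit 12685376)) .nil))) (.cons (.ev (nat_lit 1242001337552647888045060) (nat_lit 3)) (.cons (.br (nat_lit 2) (nat_lit 0) (.cons (.ev (nat_lit 9481626738664566424066) (nat_lit 2)) (.cons (.rf (nat_lit 943) (nat_lit 414256160)) .nil))) (.cons (.br (nat_lit 4) (nat_lit 0) (.cons (.rf (nat_lit 941) (nat_lit 12717120)) (.cons (.rf (nat_lit 943) (nat_lit 414289952)) (.cons (.ev (nat_lit 4777706999868630761986) (nat_lit 2)) (.cons (.rf (nat_lit 962) (nat_lit 459932830752)) .nil))))) .nil))))) (.cons (.br (nat_lit 2) (nat_lit 0) (.cons (.rf (nat_lit 941) (nat_lit 12682304)) (.cons (.rf (nat_lit 941) (nat_lit 12715072)) (.cons (.br (nat_lit 11) (nat_lit 0) (.cons (.rf (nat_lit 943) (nat_lit 414223424)) (.cons (.rf (nat_lit 943) (nat_lit 414224448)) (.cons (.zr (nat_lit 618970111876693080485789696) (nat_lit 1232537724086571438703104) (nat_lit 10) (nat_lit 2))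 (.cons (.rf (nat_lit 970) (nat_lit 426648896576)) .nil))))) (.cons (.br (nat_lit 4) (nat_lit 0) (.cons (.rf (nat_lit 941) (nat_lit 12715104)) (.cons (.br (nat_lit 3) (nat_lit 0) (.cons (.ev (nat_lit 1858119058894949336666735110) (nat_lit 3)) (.cons (.br (nat_lit 11) (nat_lit 0) (.cons (.ev (nat_lit 79538861172343838858933240065) (nat_lit 1)) (.cons (.rf (nat_lit 970) (nat_lit 426647815296)) .nil))) (.cons (.rf (nat_lit 962) (nat_lit 459932796032)) .nil)))) (.cons (.br (nat_lit 12) (nat_lit 0) (.cons (.zr (nat_lit 79228162514553412398937538561) (nat_lit 1223092919065437133603584) (nat_lit 10) (nat_lit 4)) (.cons (.br (nat_lit 3) (nat_lit 0) (.cons (.ev (nat_lit 79538856468424380434184470785) (nat_lit 1)) (.cons (.rf (nat_lit 982) (nat_lit 493858305440582043680)) .nil))) (.cons (.rf (nat_lit 935) (nat_lit 428)) .nil)))) (.cons (.rf (nat_lit 957) (nat_lit 15071356091732000)) .nil))))) (.cons (.br (nat_lit 11) (nat_lit 0) (.cons (.rf (nat_lit 962) (nat_lit 459934860384))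 (.cons (.rf (nat_lit 962) (nat_lit 459933811840)) (.cons (.rf (nat_lit 983) (nat_lit 493858305440582043680)) (.cons (.br (nat_lit 11) (nat_lit 0) (.cons (.rf (nat_lit 962) (nat_lit 459934860384)) (.cons (.rf (nat_lit 962) (nat_lit 459933811840)) (.cons (.rf (nat_lit 983) (nat_lit 493858305440582043680)) .nil)))) .nil))))) .nil)))))) .nil)))))) .nil)) (.cons (.br (nat_lit 7) (nat_lit 0) (.cons (.br (nat_lit 11) (nat_lit 0) (.cons (.rf (nat_lit 984) (nat_lit 407901468851537952)) (.cons (.rf (nat_lit 985) (nat_lit 407901468851537952)) (.cons (.rf (nat_lit 986) (nat_lit 407901468851537952)) (.cons (.rf (nat_lit 987) (nat_lit 407901468851537952)) (.cons (.br (nat_lit 11) (nat_lit 0) (.cons (.rf (nat_lit 984) (nat_lit 407901468851537952)) (.cons (.rf (nat_lit 985) (nat_lit 407901468851537952)) (.cons (.rf (nat_lit 986) (nat_lit 407901468851537952)) (.cons (.rf (nat_lit 987) (nat_lit 407901468851537952)) (.cons (.br (nat_lit 1) (nat_lit 0) (.cons (.rf (nat_lit 941)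 (nat_lit 12659744)) (.cons (.rf (nat_lit 941) (nat_lit 12692512)) (.cons (.rf (nat_lit 941) (nat_lit 12725280)) (.cons (.rf (nat_lit 988) (nat_lit 493858305440582043680)) (.cons (.rf (nat_lit 988) (nat_lit 458117738797769787424)) .nil)))))) .nil)))))) .nil)))))) .nil)) .nil))) .nil)))),
 (.br (nat_lit 6) (nat_lit 0) (.cons (.rf (nat_lit 966) (nat_lit 11584701642934304)) (.cons (.rf (nat_lit 966) (nat_lit 11584701642902560)) (.cons (.br (nat_lit 2) (nat_lit 1) (.cons (.rf (nat_lit 969) (nat_lit 407901468851537952)) (.cons (.rf (nat_lit 989) (nat_lit 407901468851537952)) (.cons (.rf (nat_lit 989) (nat_lit 407867383991076896)) (.cons (.br (nat_lit 3) (nat_lit 1) (.cons (.rf (nat_lit 969) (nat_lit 407901468851506208)) (.cons (.rf (nat_lit 989) (nat_lit 407901468851506208)) (.cons (.rf (nat_lit 989) (nat_lit 407867383991045152)) .nil)))) .nil))))) .nil)))),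
 (.br (nat_lit 6) (nat_lit 0) (.cons (.rf (nat_lit 966) (nat_lit 11584701642934304)) (.cons (.rf (nat_lit 966) (nat_lit 11584701642902560)) (.cons (.rf (nat_lit 990) (nat_lit 11584701642934304)) (.cons (.br (nat_lit 6) (nat_lit 0) (.cons (.rf (nat_lit 966) (nat_lit 11584701642934304)) (.cons (.rf (nat_lit 966) (nat_lit 11584701642902560)) (.cons (.rf (nat_lit 990) (nat_lit 11584701642934304)) .nil)))) .nil))))),
 (.br (nat_lit 6) (nat_lit 0) (.cons (.rf (nat_lit 991) (nat_lit 8207103961434144)) (.cons (.rf (nat_lit 991) (nat_lit 8207103960418336)) (.cons (.rf (nat_lit 620) (nat_lit 6654113)) .nil)))),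
 (.br (nat_lit 12) (nat_lit 0) (.cons (.br (nat_lit 11) (nat_lit 0) (.cons (.br (nat_lit 13) (nat_lit 0) .nil) .nil)) (.cons (.rf (nat_lit 991) (nat_lit 11584701642147884)) (.cons (.rf (nat_lit 935) (nat_lit 428)) .nil)))),
 (.br (nat_lit 9) (nat_lit 0) (.cons (.rf (nat_lit 935) (nat_lit 329)) (.cons (.rf (nat_lit 991) (nat_lit 8098043876606985)) .nil))),
 (.br (nat_lit 12) (nat_lit 0) (.cons (.rf (nat_lit 993) (nat_lit 14242959524133701664)) (.cons (.rf (nat_lit 993) (nat_lit 14242959524132685856)) (.cons (.rf (nat_lit 994) (nat_lit 434660630008897)) (.cons (.rf (nat_lit 935) (nat_lit 428)) .nil))))),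
 (.br (nat_lit 4) (nat_lit 1) (.cons (.br (nat_lit 1) (nat_lit 0) (.cons (.br (nat_lit 11) (nat_lit 0) (.cons (.br (nat_lit 4) (nat_lit 0) (.cons (.ev (nat_lit 4722366483973451874304) (nat_lit 1)) (.cons (.rf (nat_lit 941) (nat_lit 12652576)) .nil))) (.cons (.ev (nat_lit 4722366483973451874304) (nat_lit 1)) (.cons (.rf (nat_lit 941) (nat_lit 12659744)) .nil)))) (.cons (.ev (nat_lit 4722438823038188257281) (nat_lit 1)) (.cons (.br (nat_lit 11) (nat_lit 0) (.cons (.ev (nat_lit 4722366483973451874304) (nat_lit 1)) (.cons (.br (nat_lit 2) (nat_lit 0) (.cons (.ev (nat_lit 4722366483973451874304) (nat_lit 1)) (.cons (.rf (nat_lit 941) (nat_lit 12716064)) .nil))) (.cons (.rf (nat_lit 941) (nat_lit 12725280)) .nil)))) (.cons (.br (nat_lit 11) (nat_lit 0) (.cons (.kr (nat_lit 1208925819615728686333952) (nat_lit 309489732187827938369994752) (nat_lit 5) (nat_lit 0)) (.cons (.kr (nat_lit 1208925891954797700972544) (nat_lit 618974760455917080804327424) (nat_lit 5) (nat_lit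 0)) (.cons (.kr (nat_lit 1208925819615728686333952) (nat_lit 309485028268089142434332672) (nat_lit 5) (nat_lit 0)) (.cons (.br (nat_lit 2) (nat_lit 0) (.cons (.rf (nat_lit 941) (nat_lit 12692544)) (.cons (.rf (nat_lit 941) (nat_lit 12725312)) (.cons (.br (nat_lit 3) (nat_lit 0) (.cons (.rf (nat_lit 941) (nat_lit 12716128)) (.cons (.br (nat_lit 4) (nat_lit 0) (.cons (.ev (nat_lit 79538856468424380438462660865) (nat_lit 1)) (.cons (.rf (nat_lit 962) (nat_lit 459933878304)) .nil))) (.cons (.rf (nat_lit 962) (nat_lit 459934894112)) .nil)))) (.cons (.rf (nat_lit 970) (nat_lit 459934894112)) .nil))))) .nil))))) (.cons (.br (nat_lit 2) (nat_lit 0) (.cons (.rf (nat_lit 941) (nat_lit 12682304)) (.cons (.rf (nat_lit 941) (nat_lit 12715072)) (.cons (.br (nat_lit 3) (nat_lit 0) (.cons (.rf (nat_lit 941) (nat_lit 12715104)) (.cons (.rf (nat_lit 943) (nat_lit 414223424)) (.cons (.rf (nat_lit 995) (nat_lit 14239581926452169760)) (.cons (.rf (nat_lit 962) (nat_lit 459934893120))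 .nil))))) (.cons (.rf (nat_lit 995) (nat_lit 14242959524133701664)) (.cons (.br (nat_lit 3) (nat_lit 0) (.cons (.rf (nat_lit 941) (nat_lit 12715104)) (.cons (.rf (nat_lit 962) (nat_lit 459934860384)) (.cons (.rf (nat_lit 995) (nat_lit 14239581926452169760)) (.cons (.rf (nat_lit 956) (nat_lit 13980536439669824)) .nil))))) .nil)))))) .nil)))))) .nil)),
 (.br (nat_lit 10) (nat_lit 0) (.cons (.rf (nat_lit 112) (nat_lit 325699523417153)) (.cons (.br (nat_lit 2) (nat_lit 1) (.cons (.rf (nat_lit 996) (nat_lit 407901468851537952)) (.cons (.rf (nat_lit 996) (nat_lit 407867383991076896)) .nil))) .nil))),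
 (.br (nat_lit 6) (nat_lit 0) (.cons (.rf (nat_lit 994) (nat_lit 3548995819585)) (.cons (.rf (nat_lit 994) (nat_lit 4648507447393)) (.cons (.br (nat_lit 7) (nat_lit 0) (.cons (.rf (nat_lit 13) (nat_lit 355460324595041)) (.cons (.rf (nat_lit 997) (nat_lit 407901468851537952)) (.cons (.br (nat_lit 10) (nat_lit 0) (.cons (.rf (nat_lit 997) (nat_lit 404523871170006048)) (.cons (.rf (nat_lit 13) (nat_lit 248807796349281)) (.cons (.rf (nat_lit 66) (nat_lit 4859059951965537)) .nil)))) .nil)))) .nil)))),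
 (.br (nat_lit 5) (nat_lit 0) (.cons (.rf (nat_lit 994) (nat_lit 3652071920705)) (.cons (.rf (nat_lit 994) (nat_lit 4751583548481)) (.cons (.br (nat_lit 6) (nat_lit 0) (.cons (.rf (nat_lit 992) (nat_lit 407901468851537952)) (.cons (.rf (nat_lit 998) (nat_lit 407901468851537952)) (.cons (.rf (nat_lit 998) (nat_lit 407901468850522144)) (.cons (.br (nat_lit 6) (nat_lit 0) (.cons (.rf (nat_lit 620) (nat_lit 6654113)) (.cons (.rf (nat_lit 998) (nat_lit 407901468851537952)) (.cons (.rf (nat_lit 998) (nat_lit 407901468850522144)) .nil)))) .nil))))) .nil)))),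
 (.br (nat_lit 8) (nat_lit 1) (.cons (.br (nat_lit 9) (nat_lit 1) (.cons (.br (nat_lit 5) (nat_lit 0) (.cons (.rf (nat_lit 999) (nat_lit 11584701642934304)) (.cons (.rf (nat_lit 999) (nat_lit 11584701642902560)) (.cons (.rf (nat_lit 999) (nat_lit 11584701641855008)) (.cons (.br (nat_lit 5) (nat_lit 0) (.cons (.rf (nat_lit 999) (nat_lit 11584701642934304)) (.cons (.rf (nat_lit 999) (nat_lit 11584701642902560)) (.cons (.rf (nat_lit 999) (nat_lit 11584701641855008)) .nil)))) .nil))))) .nil)) .nil)),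
 (.br (nat_lit 5) (nat_lit 1) (.cons (.rf (nat_lit 714) (nat_lit 6305)) (.cons (.br (nat_lit 7) (nat_lit 1) (.cons (.rf (nat_lit 2) (nat_lit 7365)) (.cons (.br (nat_lit 7) (nat_lit 1) (.cons (.rf (nat_lit 2) (nat_lit 7365)) (.cons (.br (nat_lit 6) (nat_lit 1) (.cons (.rf (nat_lit 12) (nat_lit 9706693)) (.cons (.rf (nat_lit 12) (nat_lit 8690885)) (.cons (.br (nat_lit 8) (nat_lit 1) (.cons (.rf (nat_lit 1000) (nat_lit 11584701642934304)) (.cons (.br (nat_lit 8) (nat_lit 1) (.cons (.rf (nat_lit 1000) (nat_lit 11584701642934304)) .nil)) .nil))) .nil)))) .nil))) .nil))) .nil))),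
 (.br (nat_lit 4) (nat_lit 0) (.cons (.ev (nat_lit 310693954159761365663744001) (nat_lit 1)) (.cons (.rf (nat_lit 941) (nat_lit 12685344)) .nil))),
 (.br (nat_lit 4) (nat_lit 0) (.cons (.ev (nat_lit 309489732260167011679666176) (nat_lit 1)) (.cons (.rf (nat_lit 941) (nat_lit 12652576)) .nil))),
 (.br (nat_lit 12) (nat_lit 0) (.cons (.ev (nat_lit 79228162532783420740563173633) (nat_lit 1)) (.cons (.ev (nat_lit 475370217086635345608240530950) (nat_lit 3)) (.cons (.rf (nat_lit 935) (nat_lit 428)) .nil)))),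
 (.br (nat_lit 12) (nat_lit 0) (.cons (.kr (nat_lit 618970038161492904708669442) (nat_lit 158457538676715054160884531712) (nat_lit 0) (nat_lit 2)) (.cons (.rf (nat_lit 935) (nat_lit 428)) .nil))),
 (.br (nat_lit 11) (nat_lit 0) (.cons (.rf (nat_lit 962) (nat_lit 426648896576)) (.cons (.rf (nat_lit 962) (nat_lit 426646799488)) (.cons (.br (nat_lit 12) (nat_lit 0) (.cons (.rf (nat_lit 1005) (nat_lit 493858305440582043680)) (.cons (.rf (nat_lit 1005) (nat_lit 493858304375428059168)) (.cons (.rf (nat_lit 935) (nat_lit 428)) .nil)))) .nil)))),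
 (.br (nat_lit 4) (nat_lit 1) (.cons (.br (nat_lit 3) (nat_lit 0) (.cons (.br (nat_lit 11) (nat_lit 0) (.cons (.rf (nat_lit 1002) (nat_lit 407901468851537952)) (.cons (.rf (nat_lit 1002) (nat_lit 407900403697553440)) (.cons (.rf (nat_lit 941) (nat_lit 12692512)) .nil)))) (.cons (.ev (nat_lit 18447025548703039489) (nat_lit 1)) (.cons (.ev (nat_lit 72339069031415809) (nat_lit 1)) (.cons (.br (nat_lit 1) (nat_lit 0) (.cons (.rf (nat_lit 1003) (nat_lit 407901468851537952)) (.cons (.rf (nat_lit 1003) (nat_lit 407900403697553440)) (.cons (.kr (nat_lit 1213648186380073308258304) (nat_lit 618970038161491805197041664) (nat_lit 5) (nat_lit 0)) (.cons (.br (nat_lit 2) (nat_lit 0) (.cons (.rf (nat_lit 941) (nat_lit 12715072)) (.cons (.rf (nat_lit 943) (nat_lit 414223424)) (.cons (.br (nat_lit 4) (nat_lit 0) (.cons (.rf (nat_lit 943) (nat_lit 414224480)) (.cons (.br (nat_lit 11) (nat_lit 0) (.cons (.ev (nat_lit 159695507105756870279189366276) (nat_lit 3)) (.cons (.rf (nat_lit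 970) (nat_lit 426648863840)) .nil))) (.cons (.rf (nat_lit 962) (nat_lit 459932828768)) .nil)))) (.cons (.rf (nat_lit 962) (nat_lit 459934860384)) .nil))))) .nil))))) (.cons (.br (nat_lit 1) (nat_lit 0) (.cons (.rf (nat_lit 941) (nat_lit 12651552)) (.cons (.rf (nat_lit 941) (nat_lit 12717088)) (.cons (.br (nat_lit 11) (nat_lit 0) (.cons (.kr (nat_lit 1208925819896104151416832) (nat_lit 309485028268089142434332672) (nat_lit 6) (nat_lit 0)) (.cons (.kr (nat_lit 1208925819896104151416832) (nat_lit 309485009893402662762708992) (nat_lit 6) (nat_lit 0)) (.cons (.ev (nat_lit 310693935640959697916264449) (nat_lit 1)) (.cons (.rf (nat_lit 970) (nat_lit 426648865824)) .nil))))) (.cons (.br (nat_lit 12) (nat_lit 0) (.cons (.rf (nat_lit 1004) (nat_lit 14242959524133701664)) (.cons (.rf (nat_lit 1004) (nat_lit 14242958458979717152)) (.cons (.rf (nat_lit 994) (nat_lit 425829069034539)) (.cons (.rf (nat_lit 935) (nat_lit 428)) .nil))))) (.cons (.br (nat_lit 11) (nat_lit 0)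 (.cons (.rf (nat_lit 962) (nat_lit 426648896576)) (.cons (.rf (nat_lit 962) (nat_lit 426646799488)) (.cons (.rf (nat_lit 1006) (nat_lit 493858305440582043680)) (.cons (.br (nat_lit 11) (nat_lit 0) (.cons (.rf (nat_lit 962) (nat_lit 426648896576)) (.cons (.rf (nat_lit 962) (nat_lit 426646799488)) (.cons (.rf (nat_lit 1006) (nat_lit 493858305440582043680)) .nil)))) .nil))))) .nil)))))) .nil)))))) .nil)),
 (.br (nat_lit 5) (nat_lit 0) (.cons (.rf (nat_lit 1001) (nat_lit 10909484096)) (.cons (.rf (nat_lit 1001) (nat_lit 10908402816)) (.cons (.br (nat_lit 10) (nat_lit 0) (.cons (.rf (nat_lit 1001) (nat_lit 10909451360)) (.cons (.br (nat_lit 3) (nat_lit 1) (.cons (.rf (nat_lit 739) (nat_lit 4584146582277163)) (.cons (.rf (nat_lit 739) (nat_lit 4584113296280619)) (.cons (.br (nat_lit 2) (nat_lit 1) (.cons (.rf (nat_lit 1007) (nat_lit 407901468851537952)) (.cons (.rf (nat_lit 1007) (nat_lit 407900403699648544)) .nil))) .nil)))) .nil))) .nil))))]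

theorem c30 : chkAll C T R L30 (nat_lit 983) = true := by decide +kernel

theorem l30 : (nat_lit 983) + L30.length = (nat_lit 1009) := by decide +kernel

/-- part of the certificates -/
def L31 : List Prf := [(.br (nat_lit 10) (nat_lit 0) (.cons (.rf (nat_lit 1001) (nat_lit 10909451360)) (.cons (.rf (nat_lit 1008) (nat_lit 11584701642934304)) (.cons (.br (nat_lit 10) (nat_lit 0) (.cons (.rf (nat_lit 1001) (nat_lit 10909451360)) (.cons (.rf (nat_lit 1008) (nat_lit 11584701642934304)) .nil))) .nil)))),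
 (.br (nat_lit 5) (nat_lit 0) (.cons (.rf (nat_lit 1001) (nat_lit 10909484096)) (.cons (.rf (nat_lit 1009) (nat_lit 11584701642934304)) (.cons (.rf (nat_lit 1009) (nat_lit 11584701641918496)) (.cons (.br (nat_lit 5) (nat_lit 0) (.cons (.rf (nat_lit 1001) (nat_lit 10909484096)) (.cons (.rf (nat_lit 1009) (nat_lit 11584701642934304)) (.cons (.rf (nat_lit 1009) (nat_lit 11584701641918496)) .nil)))) .nil))))),
 (.br (nat_lit 7) (nat_lit 1) (.cons (.rf (nat_lit 12) (nat_lit 8624421)) (.cons (.br (nat_lit 8) (nat_lit 1) (.cons (.br (nat_lit 9) (nat_lit 1) (.cons (.br (nat_lit 10) (nat_lit 0) (.cons (.rf (nat_lit 1010) (nat_lit 11584701642934304)) (.cons (.rf (nat_lit 1010) (nat_lit 11584701642902560)) (.cons (.rf (nat_lit 1010) (nat_lit 11584701641855008)) (.cons (.br (nat_lit 10) (nat_lit 0) (.cons (.rf (nat_lit 1010) (nat_lit 11584701642934304)) (.cons (.rf (nat_lit 1010) (nat_lit 11584701642902560)) (.cons (.rf (nat_lit 1010) (nat_lit 11584701641855008)) .nil))))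 .nil))))) .nil)) (.cons (.rf (nat_lit 12) (nat_lit 7608645)) .nil))) .nil))),
 (.br (nat_lit 6) (nat_lit 1) (.cons (.rf (nat_lit 2) (nat_lit 6373)) (.cons (.br (nat_lit 6) (nat_lit 1) (.cons (.rf (nat_lit 2) (nat_lit 6405)) (.cons (.br (nat_lit 7) (nat_lit 1) (.cons (.rf (nat_lit 1011) (nat_lit 9043225708576)) (.cons (.rf (nat_lit 12) (nat_lit 8624421)) (.cons (.br (nat_lit 7) (nat_lit 1) (.cons (.rf (nat_lit 1011) (nat_lit 9043225708576)) (.cons (.rf (nat_lit 12) (nat_lit 8624453)) .nil))) .nil)))) .nil))) .nil))),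
 (.br (nat_lit 3) (nat_lit 0) (.cons (.ev (nat_lit 309489769081600867890626562) (nat_lit 2)) (.cons (.rf (nat_lit 941) (nat_lit 12717088)) .nil))),
 (.br (nat_lit 2) (nat_lit 0) (.cons (.rf (nat_lit 941) (nat_lit 12685376)) (.cons (.rf (nat_lit 943) (nat_lit 414320672)) (.cons (.br (nat_lit 11) (nat_lit 0) (.cons (.rf (nat_lit 943) (nat_lit 414256160)) (.cons (.rf (nat_lit 994) (nat_lit 426964047535179)) (.cons (.rf (nat_lit 970) (nat_lit 426648897568)) .nil)))) (.cons (.rf (nat_lit 962) (nat_lit 426647881760)) .nil))))),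
 (.br (nat_lit 5) (nat_lit 0) (.cons (.rf (nat_lit 935) (nat_lit 197)) (.cons (.rf (nat_lit 1001) (nat_lit 3294658693)) .nil))),
 (.br (nat_lit 11) (nat_lit 0) (.cons (.rf (nat_lit 1014) (nat_lit 14242959524131541088)) (.cons (.rf (nat_lit 1014) (nat_lit 14238455860145753216)) (.cons (.rf (nat_lit 1015) (nat_lit 414422081)) (.cons (.br (nat_lit 11) (nat_lit 0) (.cons (.rf (nat_lit 970) (nat_lit 426648863840)) (.cons (.rf (nat_lit 970) (nat_lit 426647815296)) (.cons (.rf (nat_lit 1015) (nat_lit 414422081)) .nil)))) .nil))))),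
 (.br (nat_lit 4) (nat_lit 1) (.cons (.br (nat_lit 1) (nat_lit 0) (.cons (.ev (nat_lit 4722438823038171480321) (nat_lit 1)) (.cons (.ev (nat_lit 18519084242235818241) (nat_lit 1)) (.cons (.br (nat_lit 11) (nat_lit 0) (.cons (.rf (nat_lit 1013) (nat_lit 407901468851537952)) (.cons (.rf (nat_lit 1013) (nat_lit 403363720003128448)) (.cons (.rf (nat_lit 941) (nat_lit 12725280)) .nil)))) (.cons (.br (nat_lit 4) (nat_lit 0) (.cons (.ev (nat_lit 18447025552981229569) (nat_lit 1)) (.cons (.ev (nat_lit 4722366764348916891649) (nat_lit 1)) (.cons (.kr (nat_lit 1208925891954797700972544) (nat_lit 618974760455917080804327424) (nat_lit 5) (nat_lit 0)) (.cons (.rf (nat_lit 1014) (nat_lit 14242959524133701664)) .nil))))) (.cons (.br (nat_lit 2) (nat_lit 0) (.cons (.rf (nat_lit 941) (nat_lit 12682304)) (.cons (.ev (nat_lit 18447025552981229569) (nat_lit 1)) (.cons (.rf (nat_lit 1014) (nat_lit 14238455860145818688)) (.cons (.rf (nat_lit 1016) (nat_lit 14242959524133701664))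 (.cons (.br (nat_lit 3) (nat_lit 0) (.cons (.ev (nat_lit 4722366764348916891649) (nat_lit 1)) (.cons (.rf (nat_lit 962) (nat_lit 459934860384)) (.cons (.br (nat_lit 12) (nat_lit 0) (.cons (.rf (nat_lit 1016) (nat_lit 14242959524131606560)) (.cons (.rf (nat_lit 1015) (nat_lit 414422113)) (.cons (.rf (nat_lit 935) (nat_lit 428)) .nil)))) (.cons (.rf (nat_lit 1016) (nat_lit 15391377364752665664)) .nil))))) .nil)))))) .nil)))))) .nil)),
 (.br (nat_lit 2) (nat_lit 1) (.cons (.rf (nat_lit 1017) (nat_lit 407901468851537952)) (.cons (.br (nat_lit 4) (nat_lit 1) (.cons (.rf (nat_lit 1017) (nat_lit 407901468849442848)) .nil)) .nil))),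
 (.br (nat_lit 5) (nat_lit 0) (.cons (.rf (nat_lit 1015) (nat_lit 2331745)) (.cons (.rf (nat_lit 1015) (nat_lit 4428865)) (.cons (.br (nat_lit 7) (nat_lit 0) (.cons (.rf (nat_lit 1015) (nat_lit 3380289)) (.cons (.br (nat_lit 3) (nat_lit 1) (.cons (.rf (nat_lit 1018) (nat_lit 407901468851537952)) (.cons (.rf (nat_lit 1018) (nat_lit 407867383991076896)) (.cons (.rf (nat_lit 1012) (nat_lit 10909451360)) .nil)))) .nil))) .nil)))),
 (.br (nat_lit 7) (nat_lit 0) (.cons (.rf (nat_lit 1015) (nat_lit 3380289)) (.cons (.rf (nat_lit 1019) (nat_lit 11584701642934304)) (.cons (.br (nat_lit 7) (nat_lit 0) (.cons (.rf (nat_lit 1015) (nat_lit 3380289)) (.cons (.rf (nat_lit 1019) (nat_lit 11584701642934304)) .nil))) .nil)))),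
 (.br (nat_lit 5) (nat_lit 0) (.cons (.rf (nat_lit 1015) (nat_lit 2331745)) (.cons (.rf (nat_lit 1020) (nat_lit 11584701642934304)) (.cons (.rf (nat_lit 1020) (nat_lit 11584701641918496)) (.cons (.br (nat_lit 5) (nat_lit 0) (.cons (.rf (nat_lit 1015) (nat_lit 2331745)) (.cons (.rf (nat_lit 1020) (nat_lit 11584701642934304)) (.cons (.rf (nat_lit 1020) (nat_lit 11584701641918496)) .nil)))) .nil))))),
 (.br (nat_lit 8) (nat_lit 1) (.cons (.br (nat_lit 9) (nat_lit 1) (.cons (.br (nat_lit 7) (nat_lit 0) (.cons (.rf (nat_lit 1021) (nat_lit 11584701642934304)) (.cons (.rf (nat_lit 1021) (nat_lit 11584701642902560)) (.cons (.rf (nat_lit 1021) (nat_lit 11584701641855008)) (.cons (.br (nat_lit 7) (nat_lit 0) (.cons (.rf (nat_lit 1021) (nat_lit 11584701642934304)) (.cons (.rf (nat_lit 1021) (nat_lit 11584701642902560)) (.cons (.rf (nat_lit 1021) (nat_lit 11584701641855008)) .nil)))) .nil))))) .nil)) .nil)),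
 (.br (nat_lit 6) (nat_lit 1) (.cons (.rf (nat_lit 2) (nat_lit 6373)) (.cons (.br (nat_lit 6) (nat_lit 1) (.cons (.rf (nat_lit 2) (nat_lit 6373)) (.cons (.br (nat_lit 5) (nat_lit 1) (.cons (.rf (nat_lit 12) (nat_lit 9705639)) (.cons (.rf (nat_lit 12) (nat_lit 8689831)) (.cons (.br (nat_lit 8) (nat_lit 1) (.cons (.rf (nat_lit 1022) (nat_lit 11584701642934304)) (.cons (.br (nat_lit 8) (nat_lit 1) (.cons (.rf (nat_lit 1022) (nat_lit 11584701642934304)) .nil)) .nil))) .nil)))) .nil))) .nil))),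
 (.br (nat_lit 3) (nat_lit 1) (.cons (.rf (nat_lit 924) (nat_lit 282600803393)) (.cons (.rf (nat_lit 924) (nat_lit 249314806849)) (.cons (.rf (nat_lit 1015) (nat_lit 3444801)) .nil)))),
 (.br (nat_lit 4) (nat_lit 1) (.cons (.br (nat_lit 5) (nat_lit 1) (.cons (.rf (nat_lit 1023) (nat_lit 180761986144)) (.cons (.rf (nat_lit 1023) (nat_lit 181834679424)) (.cons (.rf (nat_lit 714) (nat_lit 11434)) .nil)))) .nil)),
 (.br (nat_lit 11) (nat_lit 0) (.cons (.br (nat_lit 3) (nat_lit 1) (.cons (.rf (nat_lit 1025) (nat_lit 407901468851537952)) (.cons (.rf (nat_lit 1025) (nat_lit 407867383991076896)) .nil))) .nil)),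
 (.br (nat_lit 7) (nat_lit 1) (.cons (.rf (nat_lit 1012) (nat_lit 7688258624)) (.cons (.br (nat_lit 5) (nat_lit 0) (.cons (.rf (nat_lit 1024) (nat_lit 10178205419552)) (.cons (.rf (nat_lit 1024) (nat_lit 10178205452320)) (.cons (.br (nat_lit 10) (nat_lit 1) (.cons (.rf (nat_lit 471) (nat_lit 111910655041)) (.cons (.rf (nat_lit 471) (nat_lit 112984396865)) (.cons (.br (nat_lit 11) (nat_lit 0) (.cons (.rf (nat_lit 1026) (nat_lit 407901468851537952)) (.cons (.rf (nat_lit 1026) (nat_lit 407901468850522144)) .nil))) .nil)))) .nil)))) (.cons (.rf (nat_lit 1023) (nat_lit 351285642304)) .nil)))),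
 (.br (nat_lit 7) (nat_lit 1) (.cons (.rf (nat_lit 1012) (nat_lit 7688258624)) (.cons (.rf (nat_lit 1027) (nat_lit 325702574508064)) (.cons (.rf (nat_lit 1027) (nat_lit 291617714047008)) (.cons (.rf (nat_lit 1023) (nat_lit 351285642304)) .nil))))),
 (.br (nat_lit 2) (nat_lit 1) (.cons (.rf (nat_lit 1028) (nat_lit 325702574508064)) (.cons (.rf (nat_lit 1028) (nat_lit 324637422618656)) (.cons (.rf (nat_lit 1028) (nat_lit 289487410268192)) (.cons (.rf (nat_lit 1015) (nat_lit 2430049)) .nil))))),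
 (.br (nat_lit 1) (nat_lit 1) (.cons (.rf (nat_lit 1015) (nat_lit 1250402)) (.cons (.br (nat_lit 6) (nat_lit 1) (.cons (.rf (nat_lit 1012) (nat_lit 6614517792)) (.cons (.rf (nat_lit 1023) (nat_lit 247132686368)) (.cons (.br (nat_lit 6) (nat_lit 1) (.cons (.rf (nat_lit 1012) (nat_lit 6614517792)) (.cons (.rf (nat_lit 1023) (nat_lit 281492424736)) (.cons (.br (nat_lit 6) (nat_lit 1) (.cons (.rf (nat_lit 1012) (nat_lit 6614517792)) (.cons (.rf (nat_lit 1023) (nat_lit 315852163104)) (.cons (.br (nat_lit 5) (nat_lit 0) (.cons (.rf (nat_lit 1029) (nat_lit 325702574508064)) (.cons (.rf (nat_lit 1029) (nat_lit 325702574476320)) (.cons (.rf (nat_lit 1029) (nat_lit 325702573428768)) (.cons (.br (nat_lit 5) (nat_lit 0) (.cons (.rf (nat_lit 1029) (nat_lit 325702574508064)) (.cons (.rf (nat_lit 1029) (nat_lit 325702574476320)) (.cons (.rf (nat_lit 1029) (nat_lit 325702573428768)) .nil)))) .nil))))) .nil)))) .nil)))) .nil)))) .nil))),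
 (.br (nat_lit 0) (nat_lit 0) (.cons (.rf (nat_lit 935) (nat_lit 32)) (.cons (.br (nat_lit 0) (nat_lit 0) (.cons (.rf (nat_lit 935) (nat_lit 64)) (.cons (.br (nat_lit 0) (nat_lit 0) (.cons (.rf (nat_lit 935) (nat_lit 96)) (.cons (.br (nat_lit 0) (nat_lit 0) (.cons (.rf (nat_lit 935) (nat_lit 128)) (.cons (.br (nat_lit 1) (nat_lit 1) (.cons (.rf (nat_lit 1030) (nat_lit 172066848)) (.cons (.br (nat_lit 2) (nat_lit 1) (.cons (.rf (nat_lit 1030) (nat_lit 205620288)) (.cons (.br (nat_lit 3) (nat_lit 1) (.cons (.rf (nat_lit 1030) (nat_lit 239141984)) (.cons (.br (nat_lit 4) (nat_lit 1) (.cons (.rf (nat_lit 1030) (nat_lit 271647872)) (.cons (.br (nat_lit 1) (nat_lit 1) (.cons (.rf (nat_lit 1030) (nat_lit 306284576)) .nil)) .nil))) .nil))) .nil))) .nil))) .nil))) .nil))) .nil))) .nil)))]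

theorem c31 : chkAll C T R L31 (nat_lit 1009) = true := by decide +kernel

theorem l31 : (nat_lit 1009) + L31.length = (nat_lit 1032) := by decide +kernel

end Pool.Agent.H93.Neg.Q14_2_4_3_5_0
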