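import Pool.Agent.H93.Neg.TabQ14_4_0_4_6_0

/-!
Certificates.
-/

set_option autoImplicit false
set_option maxRecDepth 100000
set_option linter.all false

namespace Pool.Agent.H93.Neg.Q14_4_0_4_6_0

/-- part of the certificates -/
def L0 : List Prf := [(.br (nat_lit 7) (nat_lit 1) (.cons (.br (nat_lit 8) (nat_lit 0) (.cons (.br (nat_lit 9) (nat_lit 1) .nil) .nil)) .nil)),
 (.br (nat_lit 0) (nat_lit 1) (.cons (.kr (nat_lit 256) (nat_lit 16777216) (nat_lit 1) (nat_lit 0)) (.cons (.br (nat_lit 5) (nat_lit 0) (.cons (.br (nat_lit 5) (nat_lit 0) (.cons (.br (nat_lit 5) (nat_lit 1) (.cons (.br (nat_lit 6) (nat_lit 1) (.cons (.rf (nat_lit 0) (nat_lit 247132686368)) (.cons (.br (nat_lit 7) (nat_lit 1) (.cons (.rf (nat_lit 0) (nat_lit 213846689824)) (.cons (.br (nat_lit 3) (nat_lit 0) (.cons (.br (nat_lit 9) (nat_lit 1) (.cons (.kr (nat_lit 18446744073709551872) (nat_lit 1099528404992) (nat_lit 1) (nat_lit 0)) .nil)) .nil)) .nil))) .nil))) .nil)) .nil)) .nil)) .nil))),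
 (.br (nat_lit 8) (nat_lit 0) (.cons (.br (nat_lit 12) (nat_lit 0) (.cons (.ev (nat_lit 20282409603670117450599760920576) (nat_lit 1)) .nil)) (.cons (.br (nat_lit 11) (nat_lit 0) (.cons (.ev (nat_lit 20282409603670117450599760920576) (nat_lit 1)) .nil)) (.cons (.ev (nat_lit 20282409603670189507094270443521) (nat_lit 1)) .nil)))),
 (.br (nat_lit 6) (nat_lit 0) (.cons (.rf (nat_lit 2) (nat_lit 492740317619417088034)) (.cons (.rf (nat_lit 2) (nat_lit 493858305440582043680)) (.cons (.ev (nat_lit 20282409603670189507094270509313) (nat_lit 1)) .nil)))),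
 (.br (nat_lit 12) (nat_lit 0) (.cons (.rf (nat_lit 2) (nat_lit 493858305440582043680)) (.cons (.rf (nat_lit 3) (nat_lit 493858305440582043680)) (.cons (.br (nat_lit 6) (nat_lit 0) (.cons (.ev (nat_lit 20282409603670189507094287220993) (nat_lit 1)) .nil)) .nil)))),
 (.br (nat_lit 12) (nat_lit 0) (.cons (.rf (nat_lit 2) (nat_lit 493858305440582043680)) (.cons (.rf (nat_lit 3) (nat_lit 493858305440582043680)) (.cons (.rf (nat_lit 4) (nat_lit 493858305440582043680)) (.cons (.br (nat_lit 12) (nat_lit 0) (.cons (.rf (nat_lit 2) (nat_lit 493858305440582043680)) (.cons (.rf (nat_lit 3) (nat_lit 493858305440582043680)) (.cons (.rf (nat_lit 4) (nat_lit 493858305440582043680)) .nil)))) .nil))))),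
 (.br (nat_lit 12) (nat_lit 0) (.cons (.rf (nat_lit 5) (nat_lit 492741412732994160672)) (.cons (.rf (nat_lit 5) (nat_lit 492740317619417088034)) (.cons (.br (nat_lit 12) (nat_lit 0) (.cons (.rf (nat_lit 5) (nat_lit 492741412732994160672)) (.cons (.rf (nat_lit 5) (nat_lit 492740317619417088034)) (.cons (.br (nat_lit 4) (nat_lit 0) (.cons (.ev (nat_lit 20282409603670189507094287220736) (nat_lit 1)) .nil)) .nil)))) (.cons (.br (nat_lit 4) (nat_lit 0) (.cons (.ev (nat_lit 20282409603670189507094287220736) (nat_lit 1)) (.cons (.rf (nat_lit 5) (nat_lit 493858305440582043680)) (.cons (.rf (nat_lit 5) (nat_lit 492741412732994160672)) .nil)))) .nil))))),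
 (.br (nat_lit 11) (nat_lit 0) (.cons (.rf (nat_lit 5) (nat_lit 493858305440582043680)) (.cons (.rf (nat_lit 6) (nat_lit 493858305440582043680)) (.cons (.rf (nat_lit 5) (nat_lit 493857210327004971042)) (.cons (.br (nat_lit 12) (nat_lit 0) (.cons (.rf (nat_lit 5) (nat_lit 492741412732994160672)) (.cons (.rf (nat_lit 6) (nat_lit 492741412732994160672)) (.cons (.rf (nat_lit 5) (nat_lit 492740317619417088034)) .nil)))) .nil))))),
 (.br (nat_lit 3) (nat_lit 0) (.cons (.kr (nat_lit 1) (nat_lit 16777216) (nat_lit 0) (nat_lit 1)) (.cons (.kr (nat_lit 256) (nat_lit 16777216) (nat_lit 1) (nat_lit 0)) (.cons (.kr (nat_lit 65536) (nat_lit 16777216) (nat_lit 2) (nat_lit 0)) (.cons (.kr (nat_lit 4722438540463683141634) (nat_lit 1208925819615728719888384) (nat_lit 0) (nat_lit 1)) (.cons (.kr (nat_lit 1208925891672223212765184) (nat_lit 4722366483969190395904) (nat_lit 2) (nat_lit 0)) (.cons (.br (nat_lit 11) (nat_lit 0) (.cons (.rf (nat_lit 5) (nat_lit 493858305440582043680)) (.cons (.rf (nat_lit 6) (nat_lit 493858305440582043680))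 (.cons (.rf (nat_lit 5) (nat_lit 493857210327004971042)) (.cons (.rf (nat_lit 7) (nat_lit 493858305440582043680)) (.cons (.br (nat_lit 12) (nat_lit 0) (.cons (.rf (nat_lit 5) (nat_lit 492741412732994160672)) (.cons (.rf (nat_lit 6) (nat_lit 492741412732994160672)) (.cons (.rf (nat_lit 5) (nat_lit 492740317619417088034)) (.cons (.rf (nat_lit 7) (nat_lit 493858305440582043680)) .nil))))) .nil)))))) .nil))))))),
 (.br (nat_lit 2) (nat_lit 0) (.cons (.kr (nat_lit 1) (nat_lit 65536) (nat_lit 0) (nat_lit 1)) (.cons (.kr (nat_lit 256) (nat_lit 65536) (nat_lit 1) (nat_lit 0)) (.cons (.rf (nat_lit 8) (nat_lit 493858305440582043680)) (.cons (.kr (nat_lit 4722438540463683141634) (nat_lit 1208925819615728686465024) (nat_lit 0) (nat_lit 1)) (.cons (.br (nat_lit 3) (nat_lit 0) (.cons (.kr (nat_lit 1) (nat_lit 16777216) (nat_lit 0) (nat_lit 1)) (.cons (.kr (nat_lit 256) (nat_lit 16777216) (nat_lit 1) (nat_lit 0)) (.cons (.kr (nat_lit 4722366483969156972544) (nat_lit 1208925891672223246188544) (nat_lit 2) (nat_lit 0))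 (.cons (.kr (nat_lit 4722438540463683141634) (nat_lit 1208925819615728719888384) (nat_lit 0) (nat_lit 1)) (.cons (.kr (nat_lit 65536) (nat_lit 16777216) (nat_lit 2) (nat_lit 0)) (.cons (.rf (nat_lit 8) (nat_lit 230986506996392429664)) .nil))))))) (.cons (.br (nat_lit 3) (nat_lit 0) (.cons (.kr (nat_lit 1) (nat_lit 16777216) (nat_lit 0) (nat_lit 1)) (.cons (.kr (nat_lit 256) (nat_lit 16777216) (nat_lit 1) (nat_lit 0)) (.cons (.rf (nat_lit 8) (nat_lit 493858305440582011936)) (.cons (.kr (nat_lit 4722438540463683141634) (nat_lit 1208925819615728719888384) (nat_lit 0) (nat_lit 1)) (.cons (.rf (nat_lit 8) (nat_lit 230986506996392430656)) (.cons (.kr (nat_lit 65536) (nat_lit 16777216) (nat_lit 2) (nat_lit 0)) .nil))))))) .nil))))))),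
 (.br (nat_lit 11) (nat_lit 0) (.cons (.ev (nat_lit 79228162514336677766365184256) (nat_lit 1)) (.cons (.br (nat_lit 12) (nat_lit 0) (.cons (.zr (nat_lit 40564819207303341973794409676800) (nat_lit 79537647542532428939313283329) (nat_lit 5) (nat_lit 1)) .nil)) .nil))),
 (.br (nat_lit 8) (nat_lit 0) (.cons (.ev (nat_lit 79228162514336677766365184256) (nat_lit 1)) (.cons (.br (nat_lit 12) (nat_lit 0) (.cons (.ev (nat_lit 20282409603670189507094287220993) (nat_lit 1)) .nil)) .nil))),
 (.br (nat_lit 12) (nat_lit 0) (.cons (.rf (nat_lit 10) (nat_lit 493858305440582043680)) (.cons (.rf (nat_lit 11) (nat_lit 493858305440582043680)) (.cons (.br (nat_lit 12) (nat_lit 0) (.cons (.rf (nat_lit 10) (nat_lit 493858305440582043680)) (.cons (.rf (nat_lit 11) (nat_lit 493858305440582043680)) .nil))) .nil)))),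
 (.br (nat_lit 3) (nat_lit 0) (.cons (.rf (nat_lit 12) (nat_lit 493858305440582043680)) (.cons (.br (nat_lit 11) (nat_lit 0) (.cons (.ev (nat_lit 79229376162450716571635613953) (nat_lit 1)) (.cons (.br (nat_lit 12) (nat_lit 0) (.cons (.zr (nat_lit 237686905449916589448236302336) (nat_lit 618984186742702804440187394) (nat_lit 10) (nat_lit 12)) .nil)) .nil))) (.cons (.br (nat_lit 13) (nat_lit 0) (.cons (.kr (nat_lit 4722366482869645213697) (nat_lit 20282409603651670423947251351552) (nat_lit 0) (nat_lit 1)) (.cons (.ev (nat_lit 20282409603670189507094287286528) (nat_lit 1)) .nil))) .nil)))),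
 (.br (nat_lit 11) (nat_lit 0) (.cons (.rf (nat_lit 11) (nat_lit 493858305440582043680)) (.cons (.rf (nat_lit 13) (nat_lit 493858305440582043680)) (.cons (.br (nat_lit 12) (nat_lit 0) (.cons (.ev (nat_lit 79229376162450716571635613953) (nat_lit 1)) (.cons (.ev (nat_lit 79229376162450716571635548416) (nat_lit 1)) (.cons (.kr (nat_lit 40564819207303340848994014199808) (nat_lit 1213648258155092857847808) (nat_lit 5) (nat_lit 0)) .nil)))) .nil)))),
 (.br (nat_lit 11) (nat_lit 0) (.cons (.ev (nat_lit 79229376162450716571635548416) (nat_lit 1)) (.cons (.br (nat_lit 12) (nat_lit 0) (.cons (.zr (nat_lit 237686905449916589448185971456) (nat_lit 618984186742702804473741314) (nat_lit 10) (nat_lit 12)) .nil)) .nil))),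
 (.br (nat_lit 8) (nat_lit 0) (.cons (.ev (nat_lit 79228162514336677766365184256) (nat_lit 1)) (.cons (.br (nat_lit 12) (nat_lit 0) (.cons (.ev (nat_lit 20282409603670189507094270509056) (nat_lit 1)) .nil)) .nil))),
 (.br (nat_lit 12) (nat_lit 0) (.cons (.rf (nat_lit 15) (nat_lit 493858305440582043680)) (.cons (.rf (nat_lit 16) (nat_lit 493858305440582043680)) (.cons (.br (nat_lit 12) (nat_lit 0) (.cons (.rf (nat_lit 15) (nat_lit 493858305440582043680)) (.cons (.rf (nat_lit 16) (nat_lit 493858305440582043680)) .nil))) .nil)))),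
 (.br (nat_lit 13) (nat_lit 0) (.cons (.kr (nat_lit 40564819207303412906588052127744) (nat_lit 1213648186660448773341184) (nat_lit 5) (nat_lit 0)) (.cons (.kr (nat_lit 4722366482869645213697) (nat_lit 20282409603651670423947251351552) (nat_lit 0) (nat_lit 1)) (.cons (.kr (nat_lit 1213648258155092857847810) (nat_lit 40564819207303340848994014330880) (nat_lit 0) (nat_lit 1)) .nil)))),
 (.br (nat_lit 3) (nat_lit 0) (.cons (.rf (nat_lit 17) (nat_lit 493858305440582043680)) (.cons (.br (nat_lit 8) (nat_lit 0) (.cons (.ev (nat_lit 79229376162450716571635613953) (nat_lit 1)) (.cons (.br (nat_lit 12) (nat_lit 0) (.cons (.ev (nat_lit 20282409603670189507094270443521) (nat_lit 1)) .nil)) .nil))) (.cons (.rf (nat_lit 18) (nat_lit 493858305440582043680)) .nil)))),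
 (.br (nat_lit 11) (nat_lit 0) (.cons (.ev (nat_lit 79228162514336677766381961216) (nat_lit 1)) (.cons (.br (nat_lit 12) (nat_lit 0) (.cons (.zr (nat_lit 40564819207303340851193037455364) (nat_lit 79537647542532708215266803968) (nat_lit 5) (nat_lit 4)) .nil)) .nil))),
 (.br (nat_lit 11) (nat_lit 0) (.cons (.rf (nat_lit 20) (nat_lit 493858305440582043680)) (.cons (.ev (nat_lit 79228162514336677766381961216) (nat_lit 1)) (.cons (.br (nat_lit 11) (nat_lit 0) (.cons (.rf (nat_lit 20) (nat_lit 493858305440582043680)) (.cons (.ev (nat_lit 79228162514336677766381961216) (nat_lit 1)) .nil))) .nil)))),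
 (.br (nat_lit 8) (nat_lit 0) (.cons (.rf (nat_lit 21) (nat_lit 493858305440582043680)) (.cons (.br (nat_lit 3) (nat_lit 0) (.cons (.ev (nat_lit 79229376162450716571652325376) (nat_lit 1)) (.cons (.br (nat_lit 11) (nat_lit 0) (.cons (.zr (nat_lit 1213648258157291881103363) (nat_lit 79537647542532708215266738432) (nat_lit 5) (nat_lit 4)) .nil)) .nil))) (.cons (.br (nat_lit 13) (nat_lit 0) (.cons (.ev (nat_lit 20282409603670189507094270509056) (nat_lit 1)) (.cons (.kr (nat_lit 4722366482869645213696) (nat_lit 20282409603651670423947251286016) (nat_lit 9) (nat_lit 0)) (.cons (.ev (nat_lit 20282409603670189507094270443521) (nat_lit 1)) .nil)))) .nil)))),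
 (.br (nat_lit 13) (nat_lit 0) (.cons (.kr (nat_lit 4722366482869645213952) (nat_lit 20282409603651670423947268063232) (nat_lit 1) (nat_lit 0)) (.cons (.ev (nat_lit 20282410817318303548098580906240) (nat_lit 1)) .nil))),
 (.br (nat_lit 11) (nat_lit 0) (.cons (.rf (nat_lit 23) (nat_lit 493858305440582043680)) (.cons (.br (nat_lit 11) (nat_lit 0) (.cons (.rf (nat_lit 23) (nat_lit 493858305440582043680)) (.cons (.kr (nat_lit 4722366482869645213952) (nat_lit 20282409603651670423947268063232) (nat_lit 1) (nat_lit 0)) .nil))) (.cons (.kr (nat_lit 4722366482869645213952) (nat_lit 20282409603651670423947268063232) (nat_lit 1) (nat_lit 0)) .nil)))),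
 (.br (nat_lit 8) (nat_lit 0) (.cons (.rf (nat_lit 24) (nat_lit 493858305440582043680)) (.cons (.br (nat_lit 11) (nat_lit 0) (.cons (.br (nat_lit 12) (nat_lit 0) (.cons (.zr (nat_lit 1213648258157291881104128) (nat_lit 79537647542532708215250026497) (nat_lit 5) (nat_lit 6)) .nil)) (.cons (.ev (nat_lit 79229376162450716571635548416) (nat_lit 1)) (.cons (.br (nat_lit 3) (nat_lit 0) (.cons (.zr (nat_lit 1213648258157291881104128) (nat_lit 79537647542532708215250026497) (nat_lit 5) (nat_lit 6)) .nil)) .nil)))) (.cons (.br (nat_lit 3) (nat_lit 0) (.cons (.kr (nat_lit 4722366482869645213952) (nat_lit 20282409603651670423947268063232) (nat_lit 1) (nat_lit 0)) (.cons (.ev (nat_lit 20282409603670189507094287220993) (nat_lit 1)) .nil))) .nil)))),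
 (.br (nat_lit 2) (nat_lit 0) (.cons (.kr (nat_lit 1) (nat_lit 65536) (nat_lit 0) (nat_lit 1)) (.cons (.br (nat_lit 11) (nat_lit 0) (.cons (.rf (nat_lit 12) (nat_lit 493858305440582043680)) (.cons (.rf (nat_lit 13) (nat_lit 493858305440582043680)) (.cons (.rf (nat_lit 14) (nat_lit 493858305440582043680)) (.cons (.br (nat_lit 11) (nat_lit 0) (.cons (.rf (nat_lit 12) (nat_lit 493858305440582043680)) (.cons (.rf (nat_lit 13) (nat_lit 493858305440582043680)) (.cons (.rf (nat_lit 14) (nat_lit 493858305440582043680)) .nil)))) .nil))))) (.cons (.br (nat_lit 8) (nat_lit 0) (.cons (.rf (nat_lit 17) (nat_lit 493858305440582043680)) (.cons (.rf (nat_lit 19) (nat_lit 493858305440582043680)) (.cons (.br (nat_lit 8) (nat_lit 0) (.cons (.rf (nat_lit 17) (nat_lit 493858305440582043680)) (.cons (.rf (nat_lit 19) (nat_lit 493858305440582043680)) (.cons (.ev (nat_lit 4740885566016664371201) (nat_lit 1)) .nil)))) (.cons (.br (nat_lit 8) (nat_lit 0) (.cons (.rf (nat_lit 17) (nat_lit 493858305440582043680)) (.cons (.rf (nat_lit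 19) (nat_lit 493858305440582043680)) (.cons (.ev (nat_lit 4740885566016664371201) (nat_lit 1)) .nil)))) .nil))))) (.cons (.br (nat_lit 8) (nat_lit 0) (.cons (.rf (nat_lit 21) (nat_lit 493858305440582043680)) (.cons (.rf (nat_lit 22) (nat_lit 493858305440582043680)) (.cons (.br (nat_lit 8) (nat_lit 0) (.cons (.rf (nat_lit 21) (nat_lit 493858305440582043680)) (.cons (.rf (nat_lit 22) (nat_lit 493858305440582043680)) (.cons (.ev (nat_lit 4740885566016664371201) (nat_lit 1)) .nil)))) (.cons (.br (nat_lit 8) (nat_lit 0) (.cons (.ev (nat_lit 4740885566016664436736) (nat_lit 1)) (.cons (.rf (nat_lit 22) (nat_lit 493858305440582043680)) (.cons (.ev (nat_lit 4740885566016664371201) (nat_lit 1)) .nil)))) .nil))))) (.cons (.br (nat_lit 8) (nat_lit 0) (.cons (.rf (nat_lit 24) (nat_lit 493858305440582043680)) (.cons (.rf (nat_lit 25) (nat_lit 493858305440582043680)) (.cons (.br (nat_lit 8) (nat_lit 0) (.cons (.ev (nat_lit 4740885566016664436736) (nat_lit 1)) (.cons (.rf (nat_lit 25) (nat_lit 493858305440582043680))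 (.cons (.ev (nat_lit 4740885566016664371201) (nat_lit 1)) .nil)))) (.cons (.br (nat_lit 8) (nat_lit 0) (.cons (.rf (nat_lit 24) (nat_lit 493858305440582043680)) (.cons (.rf (nat_lit 25) (nat_lit 493858305440582043680)) (.cons (.ev (nat_lit 4740885566016664371201) (nat_lit 1)) .nil)))) .nil))))) .nil)))))),
 (.br (nat_lit 6) (nat_lit 0) (.cons (.br (nat_lit 11) (nat_lit 0) (.cons (.ev (nat_lit 79228162514264619072832471296) (nat_lit 1)) (.cons (.br (nat_lit 12) (nat_lit 0) (.cons (.zr (nat_lit 237686905449916589448236302336) (nat_lit 618984186742702804440187394) (nat_lit 10) (nat_lit 12)) .nil)) .nil))) (.cons (.br (nat_lit 8) (nat_lit 0) (.cons (.ev (nat_lit 79228162514264619072832471296) (nat_lit 1)) (.cons (.br (nat_lit 12) (nat_lit 0) (.cons (.ev (nat_lit 20282409603670189507094270443521) (nat_lit 1)) .nil)) .nil))) (.cons (.ev (nat_lit 79229376162450716571652390913) (nat_lit 1)) (.cons (.br (nat_lit 8) (nat_lit 0) (.cons (.br (nat_lit 12) (nat_lit 0) (.cons (.ev (nat_lit 475370207660348844683920016898)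 (nat_lit 3)) .nil)) (.cons (.ev (nat_lit 4740885566016664371201) (nat_lit 1)) (.cons (.kr (nat_lit 40564819207303412905488540499970) (nat_lit 1213648186098598331548160) (nat_lit 0) (nat_lit 2)) .nil)))) .nil))))),
 (.br (nat_lit 13) (nat_lit 0) (.cons (.br (nat_lit 13) (nat_lit 0) (.cons (.ev (nat_lit 4740885566016664371201) (nat_lit 1)) (.cons (.kr (nat_lit 14167171506202973569026) (nat_lit 40564820416229160463623222460416) (nat_lit 0) (nat_lit 1)) (.cons (.ev (nat_lit 79229376162522775265185169408) (nat_lit 1)) .nil)))) (.cons (.ev (nat_lit 4740885566016664371201) (nat_lit 1)) (.cons (.br (nat_lit 13) (nat_lit 0) (.cons (.kr (nat_lit 14167171506202973569026) (nat_lit 40564820416229160463623222460416) (nat_lit 0) (nat_lit 1)) (.cons (.ev (nat_lit 4740885566016664371201) (nat_lit 1)) (.cons (.kr (nat_lit 40564819207303340848994014199808) (nat_lit 1213648258155092857847808) (nat_lit 5) (nat_lit 0)) .nil)))) (.cons (.br (nat_lit 13) (nat_lit 0) (.cons (.ev (nat_lit 79229376162522775265185169408) (nat_lit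 1)) (.cons (.ev (nat_lit 4740885566016664371201) (nat_lit 1)) (.cons (.kr (nat_lit 40564819207303340848994014199808) (nat_lit 1213648258155092857847808) (nat_lit 5) (nat_lit 0)) .nil)))) .nil)))))]

theorem c0 : chkAll C T R L0 (nat_lit 0) = true := by decide +kernel

theorem l0 : (nat_lit 0) + L0.length = (nat_lit 29) := by decide +kernel

/-- part of the certificates -/
def L1 : List Prf := [(.br (nat_lit 6) (nat_lit 0) (.cons (.br (nat_lit 13) (nat_lit 0) (.cons (.br (nat_lit 12) (nat_lit 0) (.cons (.zr (nat_lit 1213648258157291881103364) (nat_lit 79537647542532708215266803968) (nat_lit 5) (nat_lit 4)) .nil)) (.cons (.br (nat_lit 11) (nat_lit 0) (.cons (.zr (nat_lit 1213648258157291881103364) (nat_lit 79537647542532708215266803968) (nat_lit 5) (nat_lit 4)) .nil)) .nil))) (.cons (.br (nat_lit 2) (nat_lit 0) (.cons (.ev (nat_lit 79228162514264619072832471296) (nat_lit 1)) (.cons (.br (nat_lit 12) (nat_lit 0) (.cons (.ev (nat_lit 79229376162450716571635613953) (nat_lit 1)) .nil)) .nil))) (.cons (.rf (nat_lit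 28) (nat_lit 493858305440582043680)) (.cons (.ev (nat_lit 4740885566016664371201) (nat_lit 1)) .nil))))),
 (.br (nat_lit 12) (nat_lit 0) (.cons (.rf (nat_lit 27) (nat_lit 493858305440582043680)) (.cons (.rf (nat_lit 28) (nat_lit 493858305440582043680)) (.cons (.rf (nat_lit 29) (nat_lit 493858305440582043680)) (.cons (.br (nat_lit 6) (nat_lit 0) (.cons (.br (nat_lit 8) (nat_lit 0) (.cons (.ev (nat_lit 4740813509522154848256) (nat_lit 1)) .nil)) (.cons (.br (nat_lit 2) (nat_lit 0) (.cons (.ev (nat_lit 79229376162450716571635613953) (nat_lit 1)) .nil)) (.cons (.kr (nat_lit 20282409603651670423947251286017) (nat_lit 1208925819614629174706432) (nat_lit 0) (nat_lit 2)) .nil)))) .nil))))),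
 (.br (nat_lit 13) (nat_lit 0) (.cons (.ev (nat_lit 20282409603670117168025255804929) (nat_lit 1)) (.cons (.ev (nat_lit 20282413239910756286879068323841) (nat_lit 2)) (.cons (.kr (nat_lit 4722366482869645213696) (nat_lit 20282409603651670423947251286016) (nat_lit 9) (nat_lit 0)) (.cons (.ev (nat_lit 20282410817318303548098564063233) (nat_lit 1)) .nil))))),
 (.br (nat_lit 8) (nat_lit 0) (.cons (.ev (nat_lit 20361637770888301525889712128001) (nat_lit 1)) .nil)),
 (.br (nat_lit 13) (nat_lit 0) (.cons (.br (nat_lit 8) (nat_lit 0) (.cons (.ev (nat_lit 20282409603670117450599744209153) (nat_lit 1)) (.cons (.ev (nat_lit 4740885566016664371201) (nat_lit 1)) .nil))) (.cons (.kr (nat_lit 4722366482869645213697) (nat_lit 20282409603651670423947251351552) (nat_lit 0) (nat_lit 1)) (.cons (.br (nat_lit 12) (nat_lit 0) (.cons (.rf (nat_lit 32) (nat_lit 493858305440582043680)) (.cons (.br (nat_lit 6) (nat_lit 0) (.cons (.ev (nat_lit 20361637770888301525889712128001) (nat_lit 1)) .nil)) .nil))) (.cons (.kr (nat_lit 1213648258155092857847810)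 (nat_lit 40564819207303340848994014330880) (nat_lit 0) (nat_lit 1)) .nil))))),
 (.br (nat_lit 2) (nat_lit 0) (.cons (.ev (nat_lit 4740813509522154848256) (nat_lit 1)) (.cons (.rf (nat_lit 33) (nat_lit 493858305440582043680)) (.cons (.br (nat_lit 13) (nat_lit 0) (.cons (.ev (nat_lit 20282409603670189507094270509056) (nat_lit 1)) (.cons (.kr (nat_lit 1213648258155092857847810) (nat_lit 40564819207303340848994014330880) (nat_lit 0) (nat_lit 1)) (.cons (.ev (nat_lit 20361638975091826716342807953665) (nat_lit 1)) .nil)))) (.cons (.br (nat_lit 12) (nat_lit 0) (.cons (.ev (nat_lit 40564820421025531221486906507264) (nat_lit 3)) (.cons (.br (nat_lit 8) (nat_lit 0) (.cons (.ev (nat_lit 40564820421025531221486906507264) (nat_lit 3)) .nil)) .nil))) .nil))))),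
 (.br (nat_lit 2) (nat_lit 0) (.cons (.ev (nat_lit 4740813509522154848256) (nat_lit 1)) (.cons (.rf (nat_lit 33) (nat_lit 493858305440582043680)) (.cons (.br (nat_lit 6) (nat_lit 0) (.cons (.rf (nat_lit 34) (nat_lit 493858305440582043680)) (.cons (.br (nat_lit 11) (nat_lit 0) (.cons (.zr (nat_lit 1213648258157291881103363) (nat_lit 79537647542532708215266738432) (nat_lit 5) (nat_lit 4)) .nil)) (.cons (.kr (nat_lit 1208925819614629174706432) (nat_lit 20282409603651670423947251351552) (nat_lit 1) (nat_lit 0)) .nil)))) (.cons (.br (nat_lit 6) (nat_lit 0) (.cons (.rf (nat_lit 34) (nat_lit 493858305440582043680)) (.cons (.ev (nat_lit 40564820421025531221486906507264) (nat_lit 3)) .nil))) .nil))))),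
 (.br (nat_lit 8) (nat_lit 0) (.cons (.ev (nat_lit 4740813509522154848256) (nat_lit 1)) (.cons (.ev (nat_lit 20282409603670189507094287286528) (nat_lit 1)) .nil))),
 (.br (nat_lit 3) (nat_lit 0) (.cons (.kr (nat_lit 1) (nat_lit 65536) (nat_lit 0) (nat_lit 1)) (.cons (.rf (nat_lit 26) (nat_lit 493858305440582043680)) (.cons (.br (nat_lit 12) (nat_lit 0) (.cons (.rf (nat_lit 27) (nat_lit 493858305440582043680)) (.cons (.rf (nat_lit 28) (nat_lit 493858305440582043680)) (.cons (.rf (nat_lit 29) (nat_lit 493858305440582043680)) (.cons (.rf (nat_lit 30) (nat_lit 493858305440582043680)) (.cons (.br (nat_lit 12) (nat_lit 0) (.cons (.rf (nat_lit 27) (nat_lit 493858305440582043680)) (.cons (.rf (nat_lit 28) (nat_lit 493858305440582043680)) (.cons (.rf (nat_lit 29) (nat_lit 493858305440582043680)) (.cons (.rf (nat_lit 30) (nat_lit 493858305440582043680)) .nil))))) .nil)))))) (.cons (.br (nat_lit 6) (nat_lit 0) (.cons (.br (nat_lit 8) (nat_lit 0) (.cons (.br (nat_lit 13) (nat_lit 0) (.cons (.zr (nat_lit 14167315621391049490435)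 (nat_lit 311902861460856905874276864) (nat_lit 5) (nat_lit 11)) (.cons (.kr (nat_lit 1213648258156192369476098) (nat_lit 158456325065422163334507266048) (nat_lit 0) (nat_lit 3)) .nil))) (.cons (.ev (nat_lit 79228162514264619072832405761) (nat_lit 1)) (.cons (.br (nat_lit 11) (nat_lit 0) (.cons (.kr (nat_lit 1213648258156192369476098) (nat_lit 158456325065422163334507266048) (nat_lit 0) (nat_lit 3)) (.cons (.kr (nat_lit 4722366482869645213696) (nat_lit 20282409603651670423947251286016) (nat_lit 9) (nat_lit 0)) .nil))) .nil)))) (.cons (.br (nat_lit 12) (nat_lit 0) (.cons (.ev (nat_lit 79228162514264619072832405761) (nat_lit 1)) (.cons (.ev (nat_lit 79229376162450716571635548416) (nat_lit 1)) (.cons (.br (nat_lit 11) (nat_lit 0) (.cons (.kr (nat_lit 4722438540463683141634) (nat_lit 79228162532711081667253633024) (nat_lit 0) (nat_lit 1)) (.cons (.kr (nat_lit 40564819207303340848994014199808) (nat_lit 1213648258155092857847808) (nat_lit 5) (nat_lit 0)) .nil))) .nil)))) (.cons (.br (nat_lit 8) (nat_lit 0) (.cons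 (.br (nat_lit 13) (nat_lit 0) (.cons (.br (nat_lit 12) (nat_lit 0) (.cons (.zr (nat_lit 1213648258157291881103364) (nat_lit 79537647542532708215266803968) (nat_lit 5) (nat_lit 4)) .nil)) (.cons (.br (nat_lit 11) (nat_lit 0) (.cons (.zr (nat_lit 1213648258157291881103364) (nat_lit 79537647542532708215266803968) (nat_lit 5) (nat_lit 4)) .nil)) .nil))) (.cons (.br (nat_lit 13) (nat_lit 0) (.cons (.br (nat_lit 12) (nat_lit 0) (.cons (.ev (nat_lit 20520094100657859882281557164800) (nat_lit 2)) .nil)) (.cons (.br (nat_lit 2) (nat_lit 0) (.cons (.ev (nat_lit 20520094100657859882281557164800) (nat_lit 2)) .nil)) .nil))) (.cons (.ev (nat_lit 79229376162450716571635548416) (nat_lit 1)) (.cons (.rf (nat_lit 31) (nat_lit 493858305440582043680)) .nil))))) (.cons (.ev (nat_lit 79228162514264619072815628289) (nat_lit 1)) (.cons (.br (nat_lit 8) (nat_lit 0) (.cons (.br (nat_lit 13) (nat_lit 0) (.cons (.ev (nat_lit 20282410817318303548098580840705) (nat_lit 1)) (.cons (.ev (nat_lit 792282895496339192728370022920) (nat_lit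 4)) .nil))) (.cons (.br (nat_lit 13) (nat_lit 0) (.cons (.ev (nat_lit 20282409603670189507094287220993) (nat_lit 1)) (.cons (.ev (nat_lit 20282409603670117450599744143616) (nat_lit 1)) (.cons (.kr (nat_lit 20282409603651670423947251286017) (nat_lit 1208925819614629174706432) (nat_lit 0) (nat_lit 2)) .nil)))) (.cons (.ev (nat_lit 4740885566016664371201) (nat_lit 1)) (.cons (.kr (nat_lit 40564819207303412905488540499970) (nat_lit 1213648186098598331548160) (nat_lit 0) (nat_lit 2)) .nil))))) .nil)))))) (.cons (.br (nat_lit 11) (nat_lit 0) (.cons (.rf (nat_lit 33) (nat_lit 493858305440582043680)) (.cons (.rf (nat_lit 34) (nat_lit 493858305440582043680)) (.cons (.rf (nat_lit 35) (nat_lit 493858305440582043680)) (.cons (.br (nat_lit 11) (nat_lit 0) (.cons (.rf (nat_lit 33) (nat_lit 493858305440582043680)) (.cons (.rf (nat_lit 34) (nat_lit 493858305440582043680)) (.cons (.rf (nat_lit 35) (nat_lit 493858305440582043680)) (.cons (.br (nat_lit 2) (nat_lit 0) (.cons (.rf (nat_lit 36) (nat_lit 493858305440582043680))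 (.cons (.kr (nat_lit 4722366482869645213697) (nat_lit 20282409603651670423947251351552) (nat_lit 0) (nat_lit 1)) (.cons (.kr (nat_lit 1213648258155092857847810) (nat_lit 40564819207303340848994014330880) (nat_lit 0) (nat_lit 1)) .nil)))) .nil))))) (.cons (.br (nat_lit 2) (nat_lit 0) (.cons (.rf (nat_lit 36) (nat_lit 493858305440582043680)) (.cons (.kr (nat_lit 4722366482869645213697) (nat_lit 20282409603651670423947251351552) (nat_lit 0) (nat_lit 1)) (.cons (.rf (nat_lit 33) (nat_lit 493858305440582043680)) (.cons (.kr (nat_lit 1213648258155092857847810) (nat_lit 40564819207303340848994014330880) (nat_lit 0) (nat_lit 1)) .nil))))) .nil)))))) .nil)))))),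
 (.br (nat_lit 13) (nat_lit 0) (.cons (.ev (nat_lit 4740813509522138136833) (nat_lit 1)) (.cons (.br (nat_lit 8) (nat_lit 0) (.cons (.ev (nat_lit 4740813509522138136833) (nat_lit 1)) .nil)) .nil))),
 (.br (nat_lit 13) (nat_lit 0) (.cons (.kr (nat_lit 1213648186098598331548160) (nat_lit 40564819207303412905488540631040) (nat_lit 1) (nat_lit 0)) (.cons (.br (nat_lit 12) (nat_lit 0) (.cons (.rf (nat_lit 32) (nat_lit 493750222348060035104)) (.cons (.br (nat_lit 6) (nat_lit 0) (.cons (.ev (nat_lit 20361637770888301525889712128001) (nat_lit 1)) .nil)) .nil))) (.cons (.kr (nat_lit 4722366482869645213697) (nat_lit 20282409603651670423947251351552) (nat_lit 0) (nat_lit 1)) (.cons (.br (nat_lit 6) (nat_lit 0) (.cons (.ev (nat_lit 20282409603670189507094287220993) (nat_lit 1)) (.cons (.br (nat_lit 8) (nat_lit 0) (.cons (.ev (nat_lit 20282410817318375604593107140608) (nat_lit 1)) .nil)) (.cons (.br (nat_lit 8) (nat_lit 0) (.cons (.ev (nat_lit 20282410817318375604593107140608) (nat_lit 1)) .nil)) .nil)))) .nil))))),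
 (.br (nat_lit 8) (nat_lit 0) (.cons (.rf (nat_lit 39) (nat_lit 493858305440582043680)) (.cons (.br (nat_lit 2) (nat_lit 0) (.cons (.br (nat_lit 12) (nat_lit 0) (.cons (.ev (nat_lit 20361637770888301525889728905473) (nat_lit 1)) .nil)) (.cons (.ev (nat_lit 4740813509522138136833) (nat_lit 1)) .nil))) (.cons (.br (nat_lit 2) (nat_lit 0) (.cons (.br (nat_lit 12) (nat_lit 0) (.cons (.zr (nat_lit 1213648258157291881103363) (nat_lit 79537647542532708215266738432) (nat_lit 5) (nat_lit 4)) .nil)) (.cons (.br (nat_lit 11) (nat_lit 0) (.cons (.zr (nat_lit 1213648258157291881103363) (nat_lit 79537647542532708215266738432) (nat_lit 5) (nat_lit 4)) .nil)) (.cons (.ev (nat_lit 20282410817318303548098580840705) (nat_lit 1)) .nil)))) (.cons (.ev (nat_lit 20282410817318375604593090363648) (nat_lit 1)) .nil))))),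
 (.br (nat_lit 8) (nat_lit 0) (.cons (.rf (nat_lit 39) (nat_lit 493858305440582043680)) (.cons (.rf (nat_lit 40) (nat_lit 493858305440582043680)) (.cons (.br (nat_lit 2) (nat_lit 0) (.cons (.ev (nat_lit 4740885566016681214208) (nat_lit 1)) (.cons (.br (nat_lit 6) (nat_lit 0) (.cons (.ev (nat_lit 475370207660348844683919885828) (nat_lit 3)) .nil)) (.cons (.br (nat_lit 6) (nat_lit 0) (.cons (.ev (nat_lit 20282410817318375604593107140608) (nat_lit 1)) .nil)) .nil)))) (.cons (.br (nat_lit 6) (nat_lit 0) (.cons (.kr (nat_lit 1213648186098598331548160) (nat_lit 40564819207303412905488540631040) (nat_lit 1) (nat_lit 0)) (.cons (.ev (nat_lit 20282410817318303548098564063233) (nat_lit 1)) .nil))) .nil))))),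
 (.br (nat_lit 8) (nat_lit 0) (.cons (.rf (nat_lit 39) (nat_lit 493858305440582043680)) (.cons (.rf (nat_lit 40) (nat_lit 493858305440582043680)) (.cons (.rf (nat_lit 41) (nat_lit 493858305440582043680)) (.cons (.br (nat_lit 6) (nat_lit 0) (.cons (.kr (nat_lit 1213648186098598331548160) (nat_lit 40564819207303412905488540631040) (nat_lit 1) (nat_lit 0)) (.cons (.ev (nat_lit 20282409603670189507094270443521) (nat_lit 1)) (.cons (.ev (nat_lit 81288095972283760170791533019140) (nat_lit 3)) .nil)))) .nil))))),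
 (.br (nat_lit 3) (nat_lit 0) (.cons (.kr (nat_lit 4722438540463683141634) (nat_lit 1208925819615728719888384) (nat_lit 0) (nat_lit 1)) (.cons (.rf (nat_lit 26) (nat_lit 493858305440582043680)) (.cons (.rf (nat_lit 37) (nat_lit 493858305440582043680)) (.cons (.br (nat_lit 6) (nat_lit 0) (.cons (.br (nat_lit 11) (nat_lit 0) (.cons (.br (nat_lit 13) (nat_lit 0) (.cons (.ev (nat_lit 4740885566016681214208) (nat_lit 1)) (.cons (.br (nat_lit 8) (nat_lit 0) (.cons (.ev (nat_lit 4740885566016681214208) (nat_lit 1)) .nil)) .nil))) (.cons (.ev (nat_lit 79228162514264619072832405761) (nat_lit 1)) (.cons (.br (nat_lit 13) (nat_lit 0) (.cons (.kr (nat_lit 4722366482869645213696) (nat_lit 20282409603651670423947251286016) (nat_lit 9) (nat_lit 0)) (.cons (.kr (nat_lit 40564819207303340848994014199808) (nat_lit 1213648258155092857847808) (nat_lit 5) (nat_lit 0)) .nil))) .nil)))) (.cons (.br (nat_lit 11) (nat_lit 0) (.cons (.rf (nat_lit 38) (nat_lit 493858305440582043680)) (.cons (.br (nat_lit 13) (nat_lit 0) (.cons (.ev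 (nat_lit 4740813509522138136833) (nat_lit 1)) (.cons (.br (nat_lit 2) (nat_lit 0) (.cons (.ev (nat_lit 4740813509522138136833) (nat_lit 1)) .nil)) .nil))) (.cons (.ev (nat_lit 79228162514336677766365184256) (nat_lit 1)) (.cons (.br (nat_lit 13) (nat_lit 0) (.cons (.kr (nat_lit 4722438540463683141633) (nat_lit 20282409603651670425046779691008) (nat_lit 0) (nat_lit 1)) (.cons (.kr (nat_lit 4722366482869645213696) (nat_lit 20282409603651670423947251286016) (nat_lit 9) (nat_lit 0)) (.cons (.kr (nat_lit 40564819207303340848994014199808) (nat_lit 1213648258155092857847808) (nat_lit 5) (nat_lit 0)) .nil)))) .nil))))) (.cons (.br (nat_lit 12) (nat_lit 0) (.cons (.ev (nat_lit 79228162514264619072832405761) (nat_lit 1)) (.cons (.ev (nat_lit 79228162514336677766365184256) (nat_lit 1)) (.cons (.br (nat_lit 8) (nat_lit 0) (.cons (.br (nat_lit 8) (nat_lit 0) (.cons (.ev (nat_lit 20282410817318375604593107206145) (nat_lit 1)) .nil)) (.cons (.br (nat_lit 2) (nat_lit 0) (.cons (.ev (nat_lit 20282410817318375604593107206145)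 (nat_lit 1)) .nil)) .nil))) .nil)))) (.cons (.ev (nat_lit 79228162514264619072815628289) (nat_lit 1)) (.cons (.br (nat_lit 13) (nat_lit 0) (.cons (.kr (nat_lit 1213648258155092857848320) (nat_lit 40564819207303340848994047754240) (nat_lit 1) (nat_lit 0)) (.cons (.kr (nat_lit 40564819207303412905488540499970) (nat_lit 1213648186098598331548160) (nat_lit 0) (nat_lit 2)) (.cons (.br (nat_lit 8) (nat_lit 0) (.cons (.br (nat_lit 8) (nat_lit 0) (.cons (.ev (nat_lit 4740813509522154913793) (nat_lit 1)) .nil)) (.cons (.br (nat_lit 2) (nat_lit 0) (.cons (.ev (nat_lit 4740813509522154913793) (nat_lit 1)) .nil)) .nil))) (.cons (.kr (nat_lit 20282409603651670423947251286017) (nat_lit 1208925819614629174706432) (nat_lit 0) (nat_lit 2)) .nil))))) .nil)))))) (.cons (.br (nat_lit 8) (nat_lit 0) (.cons (.rf (nat_lit 39) (nat_lit 493858305440582043680)) (.cons (.rf (nat_lit 40) (nat_lit 493858305440582043680)) (.cons (.rf (nat_lit 41) (nat_lit 493858305440582043680)) (.cons (.rf (nat_lit 42) (nat_lit 493858305440582043680))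 (.cons (.br (nat_lit 8) (nat_lit 0) (.cons (.rf (nat_lit 39) (nat_lit 493858305440582043680)) (.cons (.ev (nat_lit 20282410817318375604593090363648) (nat_lit 1)) (.cons (.rf (nat_lit 41) (nat_lit 493858305440582043680)) (.cons (.rf (nat_lit 42) (nat_lit 493858305440582043680)) .nil))))) .nil)))))) .nil)))))),
 (.br (nat_lit 11) (nat_lit 0) (.cons (.ev (nat_lit 20361638975091754657649241686273) (nat_lit 1)) .nil)),
 (.br (nat_lit 12) (nat_lit 0) (.cons (.ev (nat_lit 20282409603670117450599760920576) (nat_lit 1)) .nil)),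
 (.br (nat_lit 11) (nat_lit 0) (.cons (.rf (nat_lit 45) (nat_lit 493858305440582043680)) (.cons (.rf (nat_lit 44) (nat_lit 493750222348060035104)) (.cons (.kr (nat_lit 4722366482869645213697) (nat_lit 20282409603651670423947251351552) (nat_lit 0) (nat_lit 1)) .nil)))),
 (.br (nat_lit 2) (nat_lit 0) (.cons (.kr (nat_lit 1) (nat_lit 65536) (nat_lit 0) (nat_lit 1)) (.cons (.ev (nat_lit 1208944266641281667629056) (nat_lit 1)) .nil))),
 (.br (nat_lit 8) (nat_lit 0) (.cons (.rf (nat_lit 45) (nat_lit 493858305440582043680)) (.cons (.rf (nat_lit 47) (nat_lit 458117738797769787424)) (.cons (.rf (nat_lit 47) (nat_lit 493858305440582043680)) .nil)))),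
 (.br (nat_lit 3) (nat_lit 0) (.cons (.kr (nat_lit 1) (nat_lit 65536) (nat_lit 0) (nat_lit 1)) (.cons (.rf (nat_lit 26) (nat_lit 493858305440582043680)) (.cons (.rf (nat_lit 37) (nat_lit 493858305440582043680)) (.cons (.rf (nat_lit 43) (nat_lit 493858305440582043680)) (.cons (.br (nat_lit 6) (nat_lit 0) (.cons (.br (nat_lit 13) (nat_lit 0) (.cons (.kr (nat_lit 1213648186098598331548160) (nat_lit 40564819207303412905488540631040) (nat_lit 1) (nat_lit 0)) (.cons (.br (nat_lit 8) (nat_lit 0) (.cons (.br (nat_lit 8) (nat_lit 0) (.cons (.ev (nat_lit 20282410817318375604593107140608) (nat_lit 1)) .nil)) (.cons (.br (nat_lit 8) (nat_lit 0) (.cons (.ev (nat_lit 20282410817318375604593107140608) (nat_lit 1)) .nil)) .nil))) (.cons (.ev (nat_lit 79229376162522775265201881345) (nat_lit 1)) .nil)))) (.cons (.br (nat_lit 2) (nat_lit 0) (.cons (.ev (nat_lit 4740885566016681214208) (nat_lit 1)) (.cons (.br (nat_lit 8) (nat_lit 0) (.cons (.zr (nat_lit 1208925819616828198027266) (nat_lit 309485009821626548013236480) (nat_lit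 5) (nat_lit 4)) (.cons (.rf (nat_lit 44) (nat_lit 493858305440582043680)) (.cons (.ev (nat_lit 4740813509522138136833) (nat_lit 1)) .nil)))) (.cons (.br (nat_lit 13) (nat_lit 0) (.cons (.ev (nat_lit 20282409603670117450599744143616) (nat_lit 1)) (.cons (.kr (nat_lit 1213648258155092857847810) (nat_lit 40564819207303340848994014330880) (nat_lit 0) (nat_lit 1)) .nil))) (.cons (.rf (nat_lit 38) (nat_lit 420143386739781765152)) .nil))))) (.cons (.br (nat_lit 8) (nat_lit 0) (.cons (.rf (nat_lit 46) (nat_lit 493858305440582043680)) (.cons (.rf (nat_lit 48) (nat_lit 493858305440582043680)) (.cons (.ev (nat_lit 79229376162450716571635548416) (nat_lit 1)) (.cons (.br (nat_lit 8) (nat_lit 0) (.cons (.rf (nat_lit 46) (nat_lit 493858305440582043680)) (.cons (.rf (nat_lit 47) (nat_lit 493858305440582043680)) (.cons (.ev (nat_lit 79229376162450716571635548416) (nat_lit 1)) .nil)))) .nil))))) (.cons (.ev (nat_lit 79228162514264619072815628289) (nat_lit 1)) (.cons (.br (nat_lit 2) (nat_lit 0) (.cons (.kr (nat_lit 1213648186098598331548160)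 (nat_lit 40564819207303412905488540631040) (nat_lit 1) (nat_lit 0)) (.cons (.br (nat_lit 8) (nat_lit 0) (.cons (.br (nat_lit 8) (nat_lit 0) (.cons (.ev (nat_lit 4740885566016664436736) (nat_lit 1)) .nil)) (.cons (.br (nat_lit 8) (nat_lit 0) (.cons (.ev (nat_lit 4740885566016664436736) (nat_lit 1)) .nil)) .nil))) (.cons (.ev (nat_lit 79229376162522775265201881345) (nat_lit 1)) .nil)))) .nil)))))) .nil))))))]

theorem c1 : chkAll C T R L1 (nat_lit 29) = true := by decide +kernel

theorem l1 : (nat_lit 29) + L1.length = (nat_lit 50) := by decide +kernel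

/-- part of the certificates -/
def L2 : List Prf := [(.br (nat_lit 3) (nat_lit 0) (.cons (.kr (nat_lit 1) (nat_lit 65536) (nat_lit 0) (nat_lit 1)) (.cons (.rf (nat_lit 26) (nat_lit 493858305440582043680)) (.cons (.rf (nat_lit 37) (nat_lit 493858305440582043680)) (.cons (.rf (nat_lit 43) (nat_lit 493858305440582043680)) (.cons (.rf (nat_lit 49) (nat_lit 493858305440582043680)) (.cons (.br (nat_lit 3) (nat_lit 0) (.cons (.kr (nat_lit 1) (nat_lit 65536) (nat_lit 0) (nat_lit 1)) (.cons (.rf (nat_lit 26) (nat_lit 493858305440582043680)) (.cons (.rf (nat_lit 37) (nat_lit 493858305440582043680)) (.cons (.rf (nat_lit 43) (nat_lit 493858305440582043680)) (.cons (.rf (nat_lit 49) (nat_lit 493858305440582043680)) .nil)))))) .nil))))))),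
 (.br (nat_lit 13) (nat_lit 0) (.cons (.ev (nat_lit 4740885566016664371201) (nat_lit 1)) (.cons (.br (nat_lit 8) (nat_lit 0) (.cons (.ev (nat_lit 4740885566016664371201) (nat_lit 1)) .nil)) .nil))),
 (.br (nat_lit 4) (nat_lit 0) (.cons (.rf (nat_lit 51) (nat_lit 493858305440582043680)) (.cons (.ev (nat_lit 4740885566016664371201) (nat_lit 1)) .nil))),
 (.br (nat_lit 13) (nat_lit 0) (.cons (.ev (nat_lit 20282410817318303265524092502016) (nat_lit 1)) (.cons (.ev (nat_lit 20282413239910756286879068323841) (nat_lit 2)) (.cons (.kr (nat_lit 4722366482869645213696) (nat_lit 20282409603651670423947251286016) (nat_lit 9) (nat_lit 0)) (.cons (.ev (nat_lit 20282410817318303548098564063233) (nat_lit 1)) .nil))))),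
 (.br (nat_lit 8) (nat_lit 0) (.cons (.ev (nat_lit 4740885285641216065536) (nat_lit 1)) (.cons (.br (nat_lit 13) (nat_lit 0) (.cons (.ev (nat_lit 20282409608411146849230012809217) (nat_lit 2)) (.cons (.ev (nat_lit 20282410817318375604593090363393) (nat_lit 1)) (.cons (.ev (nat_lit 20282409603670189507094287220736) (nat_lit 1)) (.cons (.kr (nat_lit 1208925819614629174706176) (nat_lit 20282409603651670423947251286016) (nat_lit 10) (nat_lit 0)) .nil))))) (.cons (.br (nat_lit 13) (nat_lit 0) (.cons (.ev (nat_lit 20282409608411002736240993763331) (nat_lit 2)) (.cons (.ev (nat_lit 20282409603670189507094287220736) (nat_lit 1)) (.cons (.ev (nat_lit 20282410817318375604593090363393) (nat_lit 1)) (.cons (.kr (nat_lit 1208925819614629174706176) (nat_lit 20282409603651670423947251286016) (nat_lit 10) (nat_lit 0)) .nil))))) (.cons (.ev (nat_lit 4740885566016664371201) (nat_lit 1)) (.cons (.kr (nat_lit 1213648186098598331547648) (nat_lit 40564819207303412905488540499968) (nat_lit 5) (nat_lit 0)) .nil)))))),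
 (.br (nat_lit 8) (nat_lit 0) (.cons (.ev (nat_lit 20361637770888301525889712128256) (nat_lit 1)) .nil)),
 (.br (nat_lit 3) (nat_lit 0) (.cons (.kr (nat_lit 256) (nat_lit 65536) (nat_lit 1) (nat_lit 0)) (.cons (.rf (nat_lit 50) (nat_lit 493858305440582011936)) (.cons (.br (nat_lit 2) (nat_lit 0) (.cons (.rf (nat_lit 50) (nat_lit 493858305440582043680)) (.cons (.br (nat_lit 13) (nat_lit 0) (.cons (.ev (nat_lit 4740813509522154848256) (nat_lit 1)) (.cons (.br (nat_lit 13) (nat_lit 0) (.cons (.ev (nat_lit 4740813509522154848256) (nat_lit 1)) (.cons (.kr (nat_lit 40564819207303340848994014199808) (nat_lit 1213648258155092857847808) (nat_lit 5) (nat_lit 0)) .nil))) (.cons (.br (nat_lit 13) (nat_lit 0) (.cons (.ev (nat_lit 4740813509522154848256) (nat_lit 1)) (.cons (.kr (nat_lit 40564819207303340848994014199808) (nat_lit 1213648258155092857847808) (nat_lit 5) (nat_lit 0)) .nil))) .nil)))) (.cons (.br (nat_lit 12) (nat_lit 0) (.cons (.rf (nat_lit 51) (nat_lit 493858305440582043680)) (.cons (.rf (nat_lit 52) (nat_lit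 493858305440582043680)) (.cons (.br (nat_lit 12) (nat_lit 0) (.cons (.rf (nat_lit 51) (nat_lit 493858305440582043680)) (.cons (.rf (nat_lit 52) (nat_lit 493858305440582043680)) .nil))) .nil)))) (.cons (.br (nat_lit 4) (nat_lit 0) (.cons (.br (nat_lit 11) (nat_lit 0) (.cons (.ev (nat_lit 79228162514264619072832471041) (nat_lit 1)) (.cons (.br (nat_lit 12) (nat_lit 0) (.cons (.zr (nat_lit 237686905449916589448236302336) (nat_lit 618984186742702804440187394) (nat_lit 10) (nat_lit 12)) .nil)) .nil))) (.cons (.br (nat_lit 8) (nat_lit 0) (.cons (.ev (nat_lit 79228162514264619072832471041) (nat_lit 1)) (.cons (.br (nat_lit 12) (nat_lit 0) (.cons (.ev (nat_lit 20282409603670189507094270443521) (nat_lit 1)) .nil)) .nil))) (.cons (.ev (nat_lit 79229376162450716571652390913) (nat_lit 1)) (.cons (.br (nat_lit 8) (nat_lit 0) (.cons (.br (nat_lit 12) (nat_lit 0) (.cons (.ev (nat_lit 475370207660348844683920015360) (nat_lit 3)) .nil)) (.cons (.ev (nat_lit 4740885566016664371201) (nat_lit 1)) (.cons (.kr (nat_lit 1213648186098598331547648)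 (nat_lit 40564819207303412905488540499968) (nat_lit 5) (nat_lit 0)) .nil)))) .nil))))) (.cons (.br (nat_lit 13) (nat_lit 0) (.cons (.kr (nat_lit 4722366482869645213697) (nat_lit 20282409603651670423947268063232) (nat_lit 0) (nat_lit 1)) (.cons (.br (nat_lit 4) (nat_lit 0) (.cons (.ev (nat_lit 20282409603670117450599760920576) (nat_lit 1)) (.cons (.ev (nat_lit 4740885566016664371201) (nat_lit 1)) .nil))) (.cons (.kr (nat_lit 14167171506202973569026) (nat_lit 40564820416229160463623222460416) (nat_lit 0) (nat_lit 1)) (.cons (.br (nat_lit 4) (nat_lit 0) (.cons (.br (nat_lit 11) (nat_lit 0) (.cons (.ev (nat_lit 79229376162450716571635613696) (nat_lit 1)) .nil)) (.cons (.br (nat_lit 8) (nat_lit 0) (.cons (.ev (nat_lit 79229376162450716571635613696) (nat_lit 1)) .nil)) (.cons (.ev (nat_lit 79229376162522775265185169408) (nat_lit 1)) .nil)))) .nil))))) .nil)))))) (.cons (.br (nat_lit 4) (nat_lit 0) (.cons (.rf (nat_lit 50) (nat_lit 493858305440582043680)) (.cons (.br (nat_lit 12) (nat_lit 0) (.cons (.ev (nat_lit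 79228162514264619072832405761) (nat_lit 1)) (.cons (.ev (nat_lit 79229376162450716571635548416) (nat_lit 1)) (.cons (.br (nat_lit 11) (nat_lit 0) (.cons (.kr (nat_lit 4722438540463683141889) (nat_lit 79228162532711081667253633024) (nat_lit 0) (nat_lit 3)) (.cons (.kr (nat_lit 40564819207303340848994014199808) (nat_lit 1213648258155092857847808) (nat_lit 5) (nat_lit 0)) .nil))) .nil)))) (.cons (.br (nat_lit 8) (nat_lit 0) (.cons (.br (nat_lit 13) (nat_lit 0) (.cons (.br (nat_lit 12) (nat_lit 0) (.cons (.zr (nat_lit 1213648258157291881103364) (nat_lit 79537647542532708215266803968) (nat_lit 5) (nat_lit 4)) .nil)) (.cons (.br (nat_lit 11) (nat_lit 0) (.cons (.zr (nat_lit 1213648258157291881103364) (nat_lit 79537647542532708215266803968) (nat_lit 5) (nat_lit 4)) .nil)) .nil))) (.cons (.br (nat_lit 13) (nat_lit 0) (.cons (.br (nat_lit 12) (nat_lit 0) (.cons (.ev (nat_lit 20520094100657859882281557164290) (nat_lit 2)) .nil)) (.cons (.br (nat_lit 2) (nat_lit 0) (.cons (.ev (nat_lit 20520094100657859882281557164290)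 (nat_lit 2)) .nil)) .nil))) (.cons (.ev (nat_lit 79229376162450716571635548416) (nat_lit 1)) (.cons (.rf (nat_lit 53) (nat_lit 493858305440582043680)) .nil))))) (.cons (.ev (nat_lit 79228162514264619072815628544) (nat_lit 1)) (.cons (.rf (nat_lit 54) (nat_lit 493858305440582043680)) .nil)))))) (.cons (.br (nat_lit 2) (nat_lit 0) (.cons (.rf (nat_lit 50) (nat_lit 493858305440582043680)) (.cons (.br (nat_lit 11) (nat_lit 0) (.cons (.ev (nat_lit 4740813509522154848256) (nat_lit 1)) (.cons (.br (nat_lit 4) (nat_lit 0) (.cons (.ev (nat_lit 4740813509522154848256) (nat_lit 1)) (.cons (.ev (nat_lit 475370207660492957672905506820) (nat_lit 3)) (.cons (.kr (nat_lit 1213648186098598331548160) (nat_lit 40564819207303412905488540631040) (nat_lit 1) (nat_lit 0)) .nil)))) (.cons (.kr (nat_lit 4722366482869645213952) (nat_lit 20282409603651670423947251351552) (nat_lit 1) (nat_lit 0)) .nil)))) (.cons (.br (nat_lit 13) (nat_lit 0) (.cons (.br (nat_lit 8) (nat_lit 0) (.cons (.ev (nat_lit 20282409603670117450599744209153)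 (nat_lit 1)) (.cons (.ev (nat_lit 4740885566016664371201) (nat_lit 1)) .nil))) (.cons (.kr (nat_lit 4722366482869645213952) (nat_lit 20282409603651670423947251351552) (nat_lit 1) (nat_lit 0)) (.cons (.br (nat_lit 12) (nat_lit 0) (.cons (.rf (nat_lit 55) (nat_lit 493858305440582043680)) (.cons (.br (nat_lit 4) (nat_lit 0) (.cons (.ev (nat_lit 20361637770888301525889712128256) (nat_lit 1)) .nil)) .nil))) (.cons (.kr (nat_lit 1213648258155092857848320) (nat_lit 40564819207303340848994014330880) (nat_lit 1) (nat_lit 0)) .nil))))) (.cons (.br (nat_lit 13) (nat_lit 0) (.cons (.kr (nat_lit 1208925819614629174706432) (nat_lit 20282409603651670423947251351552) (nat_lit 1) (nat_lit 0)) (.cons (.br (nat_lit 4) (nat_lit 0) (.cons (.ev (nat_lit 20282409603670189507094270509313) (nat_lit 1)) (.cons (.ev (nat_lit 4740885566016664371201) (nat_lit 1)) .nil))) (.cons (.kr (nat_lit 1213648258155092857848320) (nat_lit 40564819207303340848994014330880) (nat_lit 1) (nat_lit 0)) (.cons (.br (nat_lit 4) (nat_lit 0) (.cons (.ev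 (nat_lit 79228162514264619072832471041) (nat_lit 1)) (.cons (.ev (nat_lit 20361638975091826716342807953665) (nat_lit 1)) .nil))) .nil))))) (.cons (.br (nat_lit 4) (nat_lit 0) (.cons (.ev (nat_lit 40564820421025819456261104731650) (nat_lit 3)) (.cons (.br (nat_lit 12) (nat_lit 0) (.cons (.ev (nat_lit 40564820421025531221486906508802) (nat_lit 3)) (.cons (.br (nat_lit 8) (nat_lit 0) (.cons (.ev (nat_lit 40564820421025531221486906508802) (nat_lit 3)) .nil)) .nil))) (.cons (.br (nat_lit 11) (nat_lit 0) (.cons (.ev (nat_lit 40564820421025531221486906508802) (nat_lit 3)) (.cons (.ev (nat_lit 40881733089898555757420976932358) (nat_lit 3)) .nil))) .nil)))) .nil)))))) .nil)))))),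
 (.br (nat_lit 13) (nat_lit 0) (.cons (.ev (nat_lit 4740813509522138136833) (nat_lit 1)) (.cons (.br (nat_lit 8) (nat_lit 0) (.cons (.ev (nat_lit 4740813509522138136833) (nat_lit 1)) .nil)) .nil))),
 (.br (nat_lit 8) (nat_lit 0) (.cons (.ev (nat_lit 4740885566016664371201) (nat_lit 1)) (.cons (.ev (nat_lit 4740885566016664436993) (nat_lit 1)) (.cons (.kr (nat_lit 1213648186098598331547648) (nat_lit 40564819207303412905488540499968) (nat_lit 5) (nat_lit 0)) .nil)))),
 (.br (nat_lit 8) (nat_lit 0) (.cons (.ev (nat_lit 20282409603670189507094270509313) (nat_lit 1)) (.cons (.ev (nat_lit 4740885566016664436993) (nat_lit 1)) (.cons (.ev (nat_lit 20282409603670189507094270443521) (nat_lit 1)) .nil)))),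
 (.br (nat_lit 4) (nat_lit 0) (.cons (.ev (nat_lit 1208944338697776193929473) (nat_lit 1)) (.cons (.br (nat_lit 8) (nat_lit 0) (.cons (.ev (nat_lit 20282409603670117450599760920576) (nat_lit 1)) .nil)) .nil))),
 (.br (nat_lit 3) (nat_lit 0) (.cons (.kr (nat_lit 256) (nat_lit 65536) (nat_lit 1) (nat_lit 0)) (.cons (.rf (nat_lit 50) (nat_lit 493858305440582011936)) (.cons (.rf (nat_lit 56) (nat_lit 493858305440582043680)) (.cons (.br (nat_lit 4) (nat_lit 0) (.cons (.rf (nat_lit 50) (nat_lit 493858305440582043680)) (.cons (.br (nat_lit 11) (nat_lit 0) (.cons (.rf (nat_lit 57) (nat_lit 493858305440582043680)) (.cons (.br (nat_lit 13) (nat_lit 0) (.cons (.ev (nat_lit 4740813509522138136833) (nat_lit 1)) (.cons (.br (nat_lit 2) (nat_lit 0) (.cons (.ev (nat_lit 4740813509522138136833) (nat_lit 1)) .nil)) .nil))) (.cons (.ev (nat_lit 79228162514336677766365184256) (nat_lit 1)) (.cons (.br (nat_lit 13) (nat_lit 0) (.cons (.kr (nat_lit 4722438540463683141633) (nat_lit 20282409603651670425046779691008) (nat_lit 0)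 (nat_lit 1)) (.cons (.kr (nat_lit 4722366482869645213696) (nat_lit 20282409603651670423947251286016) (nat_lit 9) (nat_lit 0)) (.cons (.kr (nat_lit 40564819207303340848994014199808) (nat_lit 1213648258155092857847808) (nat_lit 5) (nat_lit 0)) .nil)))) .nil))))) (.cons (.br (nat_lit 12) (nat_lit 0) (.cons (.ev (nat_lit 79228162514264619072832405761) (nat_lit 1)) (.cons (.ev (nat_lit 79228162514336677766365184256) (nat_lit 1)) (.cons (.br (nat_lit 8) (nat_lit 0) (.cons (.br (nat_lit 8) (nat_lit 0) (.cons (.ev (nat_lit 20282410817318375604593107206400) (nat_lit 1)) .nil)) (.cons (.br (nat_lit 2) (nat_lit 0) (.cons (.ev (nat_lit 20282410817318375604593107206400) (nat_lit 1)) .nil)) .nil))) .nil)))) (.cons (.ev (nat_lit 79228162514264619072815628544) (nat_lit 1)) (.cons (.br (nat_lit 13) (nat_lit 0) (.cons (.kr (nat_lit 1213648258155092857847810) (nat_lit 40564819207303340848994047754240) (nat_lit 0) (nat_lit 1)) (.cons (.kr (nat_lit 1213648186098598331547648) (nat_lit 40564819207303412905488540499968) (nat_lit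 5) (nat_lit 0)) (.cons (.br (nat_lit 8) (nat_lit 0) (.cons (.br (nat_lit 8) (nat_lit 0) (.cons (.ev (nat_lit 4740813509522154914048) (nat_lit 1)) .nil)) (.cons (.br (nat_lit 2) (nat_lit 0) (.cons (.ev (nat_lit 4740813509522154914048) (nat_lit 1)) .nil)) .nil))) (.cons (.kr (nat_lit 1208925819614629174706176) (nat_lit 20282409603651670423947251286016) (nat_lit 10) (nat_lit 0)) .nil))))) .nil)))))) (.cons (.br (nat_lit 2) (nat_lit 0) (.cons (.rf (nat_lit 50) (nat_lit 493858305440582043680)) (.cons (.br (nat_lit 13) (nat_lit 0) (.cons (.kr (nat_lit 1213648186098598331548160) (nat_lit 40564819207303412905488540631040) (nat_lit 1) (nat_lit 0)) (.cons (.br (nat_lit 12) (nat_lit 0) (.cons (.rf (nat_lit 55) (nat_lit 493750222348060035104)) (.cons (.br (nat_lit 4) (nat_lit 0) (.cons (.ev (nat_lit 20361637770888301525889712128256) (nat_lit 1)) .nil)) .nil))) (.cons (.kr (nat_lit 4722366482869645213952) (nat_lit 20282409603651670423947251351552) (nat_lit 1) (nat_lit 0)) (.cons (.br (nat_lit 4) (nat_lit 0) (.cons (.ev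 (nat_lit 20282409603670189507094287220736) (nat_lit 1)) (.cons (.br (nat_lit 8) (nat_lit 0) (.cons (.ev (nat_lit 20282410817318375604593107140608) (nat_lit 1)) .nil)) (.cons (.br (nat_lit 8) (nat_lit 0) (.cons (.ev (nat_lit 20282410817318375604593107140608) (nat_lit 1)) .nil)) .nil)))) .nil))))) (.cons (.br (nat_lit 13) (nat_lit 0) (.cons (.br (nat_lit 8) (nat_lit 0) (.cons (.rf (nat_lit 58) (nat_lit 493858305440582043680)) .nil)) (.cons (.kr (nat_lit 4722366482869645213952) (nat_lit 20282409603651670423947251351552) (nat_lit 1) (nat_lit 0)) (.cons (.kr (nat_lit 1213648258155092857848320) (nat_lit 40564819207303340848994014330880) (nat_lit 1) (nat_lit 0)) .nil)))) (.cons (.br (nat_lit 13) (nat_lit 0) (.cons (.kr (nat_lit 1208925819614629174706432) (nat_lit 20282409603651670423947251351552) (nat_lit 1) (nat_lit 0)) (.cons (.br (nat_lit 4) (nat_lit 0) (.cons (.ev (nat_lit 20282410817318375604593090363393) (nat_lit 1)) (.cons (.rf (nat_lit 59) (nat_lit 493858305440582043680)) (.cons (.br (nat_lit 8) (nat_lit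 0) (.cons (.ev (nat_lit 20282409603670189507094270443521) (nat_lit 1)) .nil)) .nil)))) (.cons (.kr (nat_lit 1213648258155092857848320) (nat_lit 40564819207303340848994014330880) (nat_lit 1) (nat_lit 0)) (.cons (.br (nat_lit 4) (nat_lit 0) (.cons (.ev (nat_lit 20361638975091826716342807953665) (nat_lit 1)) (.cons (.ev (nat_lit 79228162514264619072832471041) (nat_lit 1)) .nil))) .nil))))) (.cons (.br (nat_lit 8) (nat_lit 0) (.cons (.br (nat_lit 8) (nat_lit 0) (.cons (.ev (nat_lit 4740813509522138136833) (nat_lit 1)) (.cons (.ev (nat_lit 20282410817318303548098580840448) (nat_lit 1)) .nil))) (.cons (.rf (nat_lit 60) (nat_lit 493858305440582043680)) (.cons (.br (nat_lit 8) (nat_lit 0) (.cons (.ev (nat_lit 20282410817318303548098580840448) (nat_lit 1)) (.cons (.rf (nat_lit 60) (nat_lit 493858305440582043680)) .nil))) .nil)))) .nil)))))) .nil)))))),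
 (.br (nat_lit 11) (nat_lit 0) (.cons (.ev (nat_lit 20361638975091754657649241686016) (nat_lit 1)) .nil)),
 (.br (nat_lit 12) (nat_lit 0) (.cons (.ev (nat_lit 20282409603670117450599760920576) (nat_lit 1)) .nil)),
 (.br (nat_lit 11) (nat_lit 0) (.cons (.rf (nat_lit 63) (nat_lit 493858305440582043680)) (.cons (.rf (nat_lit 62) (nat_lit 493750222348060035104)) (.cons (.kr (nat_lit 4722366482869645213952) (nat_lit 20282409603651670423947251351552) (nat_lit 1) (nat_lit 0)) .nil)))),
 (.br (nat_lit 2) (nat_lit 0) (.cons (.kr (nat_lit 256) (nat_lit 65536) (nat_lit 1) (nat_lit 0)) (.cons (.ev (nat_lit 1208944266641281667629313) (nat_lit 1)) .nil))),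
 (.br (nat_lit 3) (nat_lit 0) (.cons (.kr (nat_lit 256) (nat_lit 65536) (nat_lit 1) (nat_lit 0)) (.cons (.rf (nat_lit 50) (nat_lit 493858305440582011936)) (.cons (.rf (nat_lit 56) (nat_lit 493858305440582043680)) (.cons (.rf (nat_lit 61) (nat_lit 493858305440582043680)) (.cons (.br (nat_lit 4) (nat_lit 0) (.cons (.rf (nat_lit 50) (nat_lit 493858305440582043680)) (.cons (.br (nat_lit 2) (nat_lit 0) (.cons (.ev (nat_lit 4740885566016681214208) (nat_lit 1)) (.cons (.br (nat_lit 8) (nat_lit 0) (.cons (.zr (nat_lit 1208925819616828198027267) (nat_lit 309485009821626548013236736) (nat_lit 5) (nat_lit 4)) (.cons (.rf (nat_lit 62) (nat_lit 493858305440582043680)) (.cons (.ev (nat_lit 4740813509522138136833) (nat_lit 1)) .nil)))) (.cons (.br (nat_lit 13) (nat_lit 0) (.cons (.ev (nat_lit 20282409603670117450599744143361) (nat_lit 1)) (.cons (.kr (nat_lit 1213648258155092857848320) (nat_lit 40564819207303340848994014330880) (nat_lit 1) (nat_lit 0)) .nil))) (.cons (.rf (nat_lit 57) (nat_lit 420143386739781765152))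 .nil))))) (.cons (.br (nat_lit 8) (nat_lit 0) (.cons (.rf (nat_lit 64) (nat_lit 493858305440582043680)) (.cons (.br (nat_lit 8) (nat_lit 0) (.cons (.rf (nat_lit 63) (nat_lit 493858305440582043680)) (.cons (.ev (nat_lit 79229376162450716571635548416) (nat_lit 1)) (.cons (.rf (nat_lit 65) (nat_lit 493858305440582043680)) .nil)))) (.cons (.ev (nat_lit 79229376162450716571635548416) (nat_lit 1)) (.cons (.br (nat_lit 2) (nat_lit 0) (.cons (.rf (nat_lit 64) (nat_lit 493858305440582043680)) (.cons (.kr (nat_lit 4722366482869645213952) (nat_lit 20282409603651670423947251351552) (nat_lit 1) (nat_lit 0)) (.cons (.rf (nat_lit 59) (nat_lit 493858305440582043680)) .nil)))) .nil))))) (.cons (.ev (nat_lit 79228162514264619072815628544) (nat_lit 1)) (.cons (.br (nat_lit 2) (nat_lit 0) (.cons (.kr (nat_lit 1213648186098598331548160) (nat_lit 40564819207303412905488540631040) (nat_lit 1) (nat_lit 0)) (.cons (.br (nat_lit 8) (nat_lit 0) (.cons (.br (nat_lit 8) (nat_lit 0) (.cons (.ev (nat_lit 4740885566016664436993) (nat_lit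 1)) .nil)) (.cons (.rf (nat_lit 58) (nat_lit 493858305440582043680)) .nil))) (.cons (.ev (nat_lit 79229376162522775265201881345) (nat_lit 1)) .nil)))) .nil)))))) .nil)))))),
 (.br (nat_lit 3) (nat_lit 0) (.cons (.kr (nat_lit 256) (nat_lit 65536) (nat_lit 1) (nat_lit 0)) (.cons (.rf (nat_lit 50) (nat_lit 493858305440582011936)) (.cons (.rf (nat_lit 56) (nat_lit 493858305440582043680)) (.cons (.rf (nat_lit 61) (nat_lit 493858305440582043680)) (.cons (.rf (nat_lit 66) (nat_lit 493858305440582043680)) (.cons (.br (nat_lit 3) (nat_lit 0) (.cons (.kr (nat_lit 256) (nat_lit 65536) (nat_lit 1) (nat_lit 0)) (.cons (.rf (nat_lit 50) (nat_lit 493858305440582011936)) (.cons (.rf (nat_lit 56) (nat_lit 493858305440582043680)) (.cons (.rf (nat_lit 61) (nat_lit 493858305440582043680)) (.cons (.rf (nat_lit 66) (nat_lit 493858305440582043680)) .nil)))))) .nil))))))),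
 (.br (nat_lit 6) (nat_lit 0) (.cons (.ev (nat_lit 309485009821626548013302016) (nat_lit 1)) .nil)),
 (.br (nat_lit 11) (nat_lit 0) (.cons (.rf (nat_lit 68) (nat_lit 14242959524133701664)) (.cons (.rf (nat_lit 68) (nat_lit 14242889221963614209)) .nil))),
 (.br (nat_lit 12) (nat_lit 0) (.cons (.ev (nat_lit 1208944266641281667563521) (nat_lit 1)) (.cons (.br (nat_lit 6) (nat_lit 0) (.cons (.ev (nat_lit 20361638975091826716342807953408) (nat_lit 1)) .nil)) (.cons (.kr (nat_lit 1208925819614629174706176) (nat_lit 20282409603651670423947251286016) (nat_lit 10) (nat_lit 0)) .nil))))]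

theorem c2 : chkAll C T R L2 (nat_lit 50) = true := by decide +kernel

theorem l2 : (nat_lit 50) + L2.length = (nat_lit 71) := by decide +kernel

/-- part of the certificates -/
def L3 : List Prf := [(.br (nat_lit 4) (nat_lit 0) (.cons (.br (nat_lit 12) (nat_lit 0) (.cons (.kr (nat_lit 20282409603651670423947251286017) (nat_lit 1208925819614629174706432) (nat_lit 0) (nat_lit 2)) .nil)) (.cons (.ev (nat_lit 1208944266641281667563521) (nat_lit 1)) (.cons (.rf (nat_lit 70) (nat_lit 493858305440582043680)) .nil)))),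
 (.br (nat_lit 6) (nat_lit 0) (.cons (.ev (nat_lit 309485009821626548013301761) (nat_lit 1)) .nil)),
 (.br (nat_lit 6) (nat_lit 0) (.cons (.ev (nat_lit 309485009821626548013302016) (nat_lit 1)) .nil)),
 (.br (nat_lit 4) (nat_lit 0) (.cons (.br (nat_lit 11) (nat_lit 0) (.cons (.ev (nat_lit 20361637770888301525889728905216) (nat_lit 1)) .nil)) (.cons (.rf (nat_lit 72) (nat_lit 15433070910038444064)) (.cons (.rf (nat_lit 73) (nat_lit 15433070910038444064)) .nil)))),
 (.br (nat_lit 3) (nat_lit 0) (.cons (.rf (nat_lit 50) (nat_lit 493858305440582011936)) (.cons (.rf (nat_lit 67) (nat_lit 493858305440582011936)) (.cons (.br (nat_lit 12) (nat_lit 0) (.cons (.br (nat_lit 13) (nat_lit 0) (.cons (.ev (nat_lit 4740885566016664371201) (nat_lit 1)) (.cons (.rf (nat_lit 69) (nat_lit 15433070910038444064)) .nil))) (.cons (.br (nat_lit 13) (nat_lit 0) (.cons (.ev (nat_lit 4740885566016664371201) (nat_lit 1)) (.cons (.rf (nat_lit 69) (nat_lit 15433070910038444064)) .nil))) (.cons (.rf (nat_lit 69) (nat_lit 15433070910038444064))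 .nil)))) (.cons (.br (nat_lit 13) (nat_lit 0) (.cons (.rf (nat_lit 70) (nat_lit 493858305440582043680)) (.cons (.rf (nat_lit 71) (nat_lit 493858305440582043680)) (.cons (.br (nat_lit 13) (nat_lit 0) (.cons (.rf (nat_lit 70) (nat_lit 493858305440582043680)) (.cons (.rf (nat_lit 71) (nat_lit 493858305440582043680)) (.cons (.kr (nat_lit 40564819207303340848994014199808) (nat_lit 1213648258155092857847808) (nat_lit 5) (nat_lit 0)) .nil)))) (.cons (.br (nat_lit 13) (nat_lit 0) (.cons (.kr (nat_lit 1208925819614629174706176) (nat_lit 20282409603651670423947251286016) (nat_lit 10) (nat_lit 0)) (.cons (.kr (nat_lit 20282409603651670423947251286017) (nat_lit 1208925819614629174706432) (nat_lit 0) (nat_lit 2)) (.cons (.kr (nat_lit 40564819207303340848994014199808) (nat_lit 1213648258155092857847808) (nat_lit 5) (nat_lit 0)) .nil)))) .nil))))) (.cons (.br (nat_lit 13) (nat_lit 0) (.cons (.kr (nat_lit 4722366482869645213697) (nat_lit 20282409603651670423947251351552) (nat_lit 0) (nat_lit 1)) (.cons (.kr (nat_lit 4722366482869645213952)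 (nat_lit 20282409603651670423947251351552) (nat_lit 1) (nat_lit 0)) (.cons (.kr (nat_lit 14167171506202973569026) (nat_lit 40564820416229160463623189037056) (nat_lit 0) (nat_lit 1)) (.cons (.rf (nat_lit 74) (nat_lit 493858305440582043680)) .nil))))) .nil)))))),
 (.br (nat_lit 13) (nat_lit 0) (.cons (.br (nat_lit 8) (nat_lit 0) (.cons (.ev (nat_lit 20361638975091826716342807953408) (nat_lit 1)) .nil)) (.cons (.kr (nat_lit 1213648186098598331547648) (nat_lit 40564819207303412905488540499968) (nat_lit 5) (nat_lit 0)) (.cons (.kr (nat_lit 1208925819614629174706176) (nat_lit 20282409603651670423947251286016) (nat_lit 10) (nat_lit 0)) .nil)))),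
 (.br (nat_lit 4) (nat_lit 0) (.cons (.ev (nat_lit 4740813509522138136833) (nat_lit 1)) (.cons (.br (nat_lit 6) (nat_lit 0) (.cons (.zr (nat_lit 1213648330213786407404288) (nat_lit 79537647542532708215266803712) (nat_lit 5) (nat_lit 6)) .nil)) (.cons (.kr (nat_lit 1213648186098598331547648) (nat_lit 40564819207303412905488540499968) (nat_lit 5) (nat_lit 0)) .nil)))),
 (.br (nat_lit 4) (nat_lit 0) (.cons (.ev (nat_lit 4740813509522138136833) (nat_lit 1)) (.cons (.br (nat_lit 6) (nat_lit 0) (.cons (.ev (nat_lit 4740813509522138136576) (nat_lit 1)) .nil)) .nil))),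
 (.br (nat_lit 3) (nat_lit 0) (.cons (.rf (nat_lit 50) (nat_lit 493858305440582011936)) (.cons (.rf (nat_lit 67) (nat_lit 493858305440582011936)) (.cons (.rf (nat_lit 75) (nat_lit 493858305440582043680)) (.cons (.br (nat_lit 13) (nat_lit 0) (.cons (.rf (nat_lit 76) (nat_lit 493858305440582043680)) (.cons (.br (nat_lit 13) (nat_lit 0) (.cons (.rf (nat_lit 76) (nat_lit 493858305440582043680)) (.cons (.kr (nat_lit 40564819207303412905488540499970) (nat_lit 1213648186098598331548160) (nat_lit 0) (nat_lit 2)) (.cons (.kr (nat_lit 20282409603651670423947251286017) (nat_lit 1208925819614629174706432) (nat_lit 0) (nat_lit 2)) .nil)))) (.cons (.rf (nat_lit 77) (nat_lit 493858305440582043680)) (.cons (.br (nat_lit 13) (nat_lit 0) (.cons (.kr (nat_lit 1208925819614629174706176) (nat_lit 20282409603651670423947251286016) (nat_lit 10) (nat_lit 0)) (.cons (.kr (nat_lit 20282409603651670423947251286017) (nat_lit 1208925819614629174706432) (nat_lit 0) (nat_lit 2)) (.cons (.rf (nat_lit 77) (nat_lit 493858305440582043680))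 .nil)))) .nil))))) (.cons (.br (nat_lit 13) (nat_lit 0) (.cons (.kr (nat_lit 4722366482869645213697) (nat_lit 20282409603651670423947251351552) (nat_lit 0) (nat_lit 1)) (.cons (.kr (nat_lit 4722366482869645213952) (nat_lit 20282409603651670423947251351552) (nat_lit 1) (nat_lit 0)) (.cons (.rf (nat_lit 78) (nat_lit 15395881028740548640)) (.cons (.rf (nat_lit 74) (nat_lit 493750222348060035104)) .nil))))) .nil)))))),
 (.br (nat_lit 6) (nat_lit 0) (.cons (.ev (nat_lit 20361638975091754657649258463488) (nat_lit 1)) .nil)),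
 (.br (nat_lit 3) (nat_lit 0) (.cons (.rf (nat_lit 50) (nat_lit 493858305440582011936)) (.cons (.rf (nat_lit 67) (nat_lit 493858305440582011936)) (.cons (.rf (nat_lit 75) (nat_lit 493858305440582043680)) (.cons (.rf (nat_lit 79) (nat_lit 493858305440582043680)) (.cons (.br (nat_lit 13) (nat_lit 0) (.cons (.kr (nat_lit 4722366482869645213697) (nat_lit 20282409603651670423947251351552) (nat_lit 0) (nat_lit 1)) (.cons (.kr (nat_lit 4722366482869645213952) (nat_lit 20282409603651670423947251351552) (nat_lit 1) (nat_lit 0)) (.cons (.br (nat_lit 4) (nat_lit 0) (.cons (.ev (nat_lit 4740813509522138136833) (nat_lit 1)) (.cons (.br (nat_lit 6) (nat_lit 0) (.cons (.ev (nat_lit 20282409603670189507094270443521) (nat_lit 1)) .nil)) (.cons (.br (nat_lit 6) (nat_lit 0) (.cons (.ev (nat_lit 20282409603670189507094270443521) (nat_lit 1)) .nil)) .nil)))) (.cons (.kr (nat_lit 14167171506202973569026) (nat_lit 40564820416229160463623189037056) (nat_lit 0) (nat_lit 1)) (.cons (.br (nat_lit 4) (nat_lit 0) (.cons (.ev (nat_lit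 79229376162522775265201881088) (nat_lit 1)) (.cons (.rf (nat_lit 80) (nat_lit 493858305440582043680)) (.cons (.rf (nat_lit 80) (nat_lit 493750222348060035104)) .nil)))) .nil)))))) .nil)))))),
 (.br (nat_lit 3) (nat_lit 0) (.cons (.rf (nat_lit 50) (nat_lit 493858305440582011936)) (.cons (.rf (nat_lit 67) (nat_lit 493858305440582011936)) (.cons (.rf (nat_lit 75) (nat_lit 493858305440582043680)) (.cons (.rf (nat_lit 79) (nat_lit 493858305440582043680)) (.cons (.rf (nat_lit 81) (nat_lit 493858305440582043680)) (.cons (.br (nat_lit 3) (nat_lit 0) (.cons (.rf (nat_lit 50) (nat_lit 493858305440582011936)) (.cons (.rf (nat_lit 67) (nat_lit 493858305440582011936)) (.cons (.rf (nat_lit 75) (nat_lit 493858305440582043680)) (.cons (.rf (nat_lit 79) (nat_lit 493858305440582043680)) (.cons (.rf (nat_lit 81) (nat_lit 493858305440582043680)) .nil)))))) .nil))))))),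
 (.br (nat_lit 13) (nat_lit 0) (.cons (.br (nat_lit 11) (nat_lit 0) (.cons (.ev (nat_lit 20282409603670117450599744143616) (nat_lit 1)) .nil)) (.cons (.br (nat_lit 6) (nat_lit 0) (.cons (.ev (nat_lit 20282409603670117450599744143616) (nat_lit 1)) .nil)) .nil))),
 (.br (nat_lit 4) (nat_lit 0) (.cons (.rf (nat_lit 83) (nat_lit 493858305440582043680)) (.cons (.br (nat_lit 11) (nat_lit 0) (.cons (.ev (nat_lit 20282409603670117450599744143361) (nat_lit 1)) .nil)) .nil))),
 (.br (nat_lit 6) (nat_lit 0) (.cons (.br (nat_lit 12) (nat_lit 0) (.cons (.ev (nat_lit 20361637766221275557820012560641) (nat_lit 2)) .nil)) (.cons (.ev (nat_lit 79228162514336677766365249536) (nat_lit 1)) (.cons (.ev (nat_lit 20282409603670189507094270509313) (nat_lit 1)) .nil)))),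
 (.br (nat_lit 4) (nat_lit 0) (.cons (.rf (nat_lit 85) (nat_lit 493858305440582043680)) (.cons (.ev (nat_lit 79228162514336677766365249793) (nat_lit 1)) (.cons (.ev (nat_lit 20282409603670189507094270509056) (nat_lit 1)) .nil)))),
 (.br (nat_lit 4) (nat_lit 0) (.cons (.ev (nat_lit 20361638975091754657649241620481) (nat_lit 1)) .nil)),
 (.br (nat_lit 3) (nat_lit 0) (.cons (.rf (nat_lit 50) (nat_lit 493858305440582011936)) (.cons (.rf (nat_lit 67) (nat_lit 493858305440582011936)) (.cons (.rf (nat_lit 82) (nat_lit 493858305440582011936)) (.cons (.br (nat_lit 11) (nat_lit 0) (.cons (.rf (nat_lit 83) (nat_lit 493858305440582043680)) (.cons (.rf (nat_lit 84) (nat_lit 493858305440582043680)) (.cons (.br (nat_lit 11) (nat_lit 0) (.cons (.rf (nat_lit 83) (nat_lit 493858305440582043680)) (.cons (.rf (nat_lit 84) (nat_lit 493858305440582043680)) .nil))) .nil)))) (.cons (.br (nat_lit 11) (nat_lit 0) (.cons (.rf (nat_lit 85) (nat_lit 493858305440582043680)) (.cons (.rf (nat_lit 86) (nat_lit 493858305440582043680)) (.cons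 (.br (nat_lit 11) (nat_lit 0) (.cons (.rf (nat_lit 85) (nat_lit 493858305440582043680)) (.cons (.rf (nat_lit 86) (nat_lit 493858305440582043680)) (.cons (.rf (nat_lit 87) (nat_lit 493858305440582043680)) .nil)))) (.cons (.br (nat_lit 11) (nat_lit 0) (.cons (.rf (nat_lit 85) (nat_lit 493858305440582043680)) (.cons (.rf (nat_lit 86) (nat_lit 493858305440582043680)) (.cons (.rf (nat_lit 87) (nat_lit 493858305440582043680)) .nil)))) .nil))))) .nil)))))),
 (.br (nat_lit 6) (nat_lit 0) (.cons (.ev (nat_lit 4740885566016664436993) (nat_lit 1)) (.cons (.br (nat_lit 8) (nat_lit 0) (.cons (.zr (nat_lit 1213648330213786407403524) (nat_lit 79537647542532708215266803968) (nat_lit 5) (nat_lit 4)) .nil)) (.cons (.ev (nat_lit 20361637770888373584583261683713) (nat_lit 1)) .nil)))),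
 (.br (nat_lit 4) (nat_lit 0) (.cons (.ev (nat_lit 4740885566016664436736) (nat_lit 1)) (.cons (.br (nat_lit 8) (nat_lit 0) (.cons (.zr (nat_lit 1213648330213786407404288) (nat_lit 79537647542532708215266803712) (nat_lit 5) (nat_lit 6)) .nil)) (.cons (.ev (nat_lit 20361637770888373584583261683713) (nat_lit 1)) .nil)))),
 (.br (nat_lit 8) (nat_lit 0) (.cons (.ev (nat_lit 20282409603670189507094270509313) (nat_lit 1)) (.cons (.ev (nat_lit 20282409603670117450599744143616) (nat_lit 1)) (.cons (.ev (nat_lit 4740813509522138136576) (nat_lit 1)) .nil)))),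
 (.br (nat_lit 8) (nat_lit 0) (.cons (.ev (nat_lit 4740885285641199353856) (nat_lit 1)) (.cons (.ev (nat_lit 20282409603670189507094270509056) (nat_lit 1)) (.cons (.ev (nat_lit 20282409603670117450599744143361) (nat_lit 1)) (.cons (.ev (nat_lit 4740813509522138136576) (nat_lit 1)) .nil))))),
 (.br (nat_lit 3) (nat_lit 0) (.cons (.rf (nat_lit 50) (nat_lit 493858305440582011936)) (.cons (.rf (nat_lit 67) (nat_lit 493858305440582011936)) (.cons (.rf (nat_lit 82) (nat_lit 493858305440582011936)) (.cons (.br (nat_lit 13) (nat_lit 0) (.cons (.rf (nat_lit 89) (nat_lit 493858305440582043680)) (.cons (.rf (nat_lit 90) (nat_lit 493858305440582043680)) (.cons (.br (nat_lit 13) (nat_lit 0) (.cons (.kr (nat_lit 1213648186098598331547648) (nat_lit 40564819207303412905488540499968) (nat_lit 5) (nat_lit 0)) (.cons (.kr (nat_lit 40564819207303412905488540499970) (nat_lit 1213648186098598331548160) (nat_lit 0) (nat_lit 2)) (.cons (.kr (nat_lit 4722366482869645213696) (nat_lit 20282409603651670423947251286016) (nat_lit 9)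 (nat_lit 0)) .nil)))) (.cons (.br (nat_lit 13) (nat_lit 0) (.cons (.rf (nat_lit 89) (nat_lit 493858305440582043680)) (.cons (.rf (nat_lit 90) (nat_lit 493858305440582043680)) (.cons (.kr (nat_lit 4722366482869645213696) (nat_lit 20282409603651670423947251286016) (nat_lit 9) (nat_lit 0)) .nil)))) .nil))))) (.cons (.br (nat_lit 4) (nat_lit 0) (.cons (.br (nat_lit 8) (nat_lit 0) (.cons (.br (nat_lit 12) (nat_lit 0) (.cons (.ev (nat_lit 20361637766221491731701638038274) (nat_lit 2)) .nil)) (.cons (.ev (nat_lit 79229376162522775265185169408) (nat_lit 1)) (.cons (.ev (nat_lit 20282413239910900399868104344065) (nat_lit 2)) .nil)))) (.cons (.br (nat_lit 6) (nat_lit 0) (.cons (.br (nat_lit 12) (nat_lit 0) (.cons (.ev (nat_lit 40644047384040117486870725656835) (nat_lit 2)) .nil)) (.cons (.br (nat_lit 11) (nat_lit 0) (.cons (.ev (nat_lit 20361637770888301525889712128001) (nat_lit 1)) .nil)) (.cons (.ev (nat_lit 4740885566016664436736) (nat_lit 1)) .nil)))) (.cons (.br (nat_lit 6) (nat_lit 0) (.cons (.br (nat_lit 12)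 (nat_lit 0) (.cons (.ev (nat_lit 40644047384040117486870725657090) (nat_lit 2)) .nil)) (.cons (.ev (nat_lit 79229376162450716571635613696) (nat_lit 1)) (.cons (.rf (nat_lit 91) (nat_lit 493858305440582043680)) .nil)))) (.cons (.br (nat_lit 6) (nat_lit 0) (.cons (.br (nat_lit 11) (nat_lit 0) (.cons (.ev (nat_lit 20361637770888301525889712128256) (nat_lit 1)) .nil)) (.cons (.ev (nat_lit 79229376162450716571635613953) (nat_lit 1)) (.cons (.br (nat_lit 8) (nat_lit 0) (.cons (.ev (nat_lit 4740813509522138136576) (nat_lit 1)) .nil)) .nil)))) (.cons (.br (nat_lit 6) (nat_lit 0) (.cons (.ev (nat_lit 4740885566016664436993) (nat_lit 1)) (.cons (.rf (nat_lit 92) (nat_lit 493858305440582043680)) (.cons (.br (nat_lit 8) (nat_lit 0) (.cons (.ev (nat_lit 4740813509522138136576) (nat_lit 1)) .nil)) .nil)))) .nil)))))) .nil)))))),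
 (.br (nat_lit 6) (nat_lit 0) (.cons (.ev (nat_lit 79229376162450716571635548416) (nat_lit 1)) (.cons (.br (nat_lit 8) (nat_lit 0) (.cons (.ev (nat_lit 20440865942847371171594391060995) (nat_lit 2)) .nil)) (.cons (.rf (nat_lit 91) (nat_lit 493858305440582043680)) .nil)))),
 (.br (nat_lit 4) (nat_lit 0) (.cons (.ev (nat_lit 79229376162450716571635548416) (nat_lit 1)) (.cons (.rf (nat_lit 94) (nat_lit 493858305440582043680)) (.cons (.rf (nat_lit 92) (nat_lit 493858305440582043680)) .nil)))),
 (.br (nat_lit 11) (nat_lit 0) (.cons (.rf (nat_lit 94) (nat_lit 493858305440582043680)) (.cons (.rf (nat_lit 95) (nat_lit 493858305440582043680)) (.cons (.br (nat_lit 4) (nat_lit 0) (.cons (.ev (nat_lit 20361637770888301525889712193536) (nat_lit 1)) .nil)) .nil)))),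
 (.br (nat_lit 3) (nat_lit 0) (.cons (.rf (nat_lit 50) (nat_lit 493858305440582011936)) (.cons (.rf (nat_lit 67) (nat_lit 493858305440582011936)) (.cons (.rf (nat_lit 88) (nat_lit 493858305440582043680)) (.cons (.rf (nat_lit 93) (nat_lit 493858305440582043680)) (.cons (.br (nat_lit 11) (nat_lit 0) (.cons (.rf (nat_lit 94) (nat_lit 493858305440582043680)) (.cons (.rf (nat_lit 95) (nat_lit 493858305440582043680)) (.cons (.rf (nat_lit 96) (nat_lit 493858305440582043680)) (.cons (.br (nat_lit 11) (nat_lit 0) (.cons (.rf (nat_lit 94) (nat_lit 493858305440582043680)) (.cons (.rf (nat_lit 95) (nat_lit 493858305440582043680)) (.cons (.rf (nat_lit 96) (nat_lit 493858305440582043680)) .nil)))) .nil))))) .nil)))))),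
 (.br (nat_lit 3) (nat_lit 0) (.cons (.rf (nat_lit 50) (nat_lit 493858305440582011936)) (.cons (.rf (nat_lit 67) (nat_lit 493858305440582011936)) (.cons (.rf (nat_lit 88) (nat_lit 493858305440582043680)) (.cons (.rf (nat_lit 93) (nat_lit 493858305440582043680)) (.cons (.rf (nat_lit 97) (nat_lit 493858305440582043680)) (.cons (.br (nat_lit 3) (nat_lit 0) (.cons (.rf (nat_lit 50) (nat_lit 493858305440582011936)) (.cons (.rf (nat_lit 67) (nat_lit 493858305440582011936)) (.cons (.rf (nat_lit 88) (nat_lit 493858305440582043680)) (.cons (.rf (nat_lit 93) (nat_lit 493858305440582043680)) (.cons (.rf (nat_lit 97) (nat_lit 493858305440582043680)) .nil)))))) .nil))))))),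
 (.br (nat_lit 11) (nat_lit 0) (.cons (.br (nat_lit 10) (nat_lit 0) (.cons (.ev (nat_lit 309485009821626548013301761) (nat_lit 1)) .nil)) (.cons (.rf (nat_lit 69) (nat_lit 11939368314733692960)) .nil)))]

theorem c3 : chkAll C T R L3 (nat_lit 71) = true := by decide +kernel

theorem l3 : (nat_lit 71) + L3.length = (nat_lit 100) := by decide +kernel

/-- part of the certificates -/
def L4 : List Prf := [(.br (nat_lit 10) (nat_lit 0) (.cons (.rf (nat_lit 99) (nat_lit 14242959524133701664)) (.cons (.rf (nat_lit 99) (nat_lit 14242889221963614209)) (.cons (.rf (nat_lit 69) (nat_lit 11939368314733692960)) .nil)))),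
 (.br (nat_lit 6) (nat_lit 0) (.cons (.ev (nat_lit 79228162514264619072815628544) (nat_lit 1)) (.cons (.ev (nat_lit 79228162514336677766381961473) (nat_lit 1)) (.cons (.ev (nat_lit 20361638975091826716342791176448) (nat_lit 1)) .nil)))),
 (.br (nat_lit 3) (nat_lit 0) (.cons (.rf (nat_lit 50) (nat_lit 493858305440582011936)) (.cons (.rf (nat_lit 67) (nat_lit 493858305440582011936)) (.cons (.rf (nat_lit 82) (nat_lit 493858305440582011936)) (.cons (.br (nat_lit 13) (nat_lit 0) (.cons (.kr (nat_lit 1213648258155092857847810) (nat_lit 40564819207303340848994047754240) (nat_lit 0) (nat_lit 1)) (.cons (.kr (nat_lit 1213648258155092857848320) (nat_lit 40564819207303340848994047754240) (nat_lit 1) (nat_lit 0)) (.cons (.br (nat_lit 4) (nat_lit 0) (.cons (.br (nat_lit 11) (nat_lit 0) (.cons (.ev (nat_lit 79228162514264619072832405504) (nat_lit 1)) .nil)) (.cons (.br (nat_lit 6) (nat_lit 0) (.cons (.ev (nat_lit 20361637770888301525889712128001) (nat_lit 1)) .nil)) (.cons (.rf (nat_lit 101) (nat_lit 493858305440582043680))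 .nil)))) (.cons (.kr (nat_lit 4722438540463683141633) (nat_lit 20282409603651670425046779691008) (nat_lit 0) (nat_lit 1)) (.cons (.br (nat_lit 4) (nat_lit 0) (.cons (.br (nat_lit 8) (nat_lit 0) (.cons (.ev (nat_lit 4740813509522138136833) (nat_lit 1)) .nil)) (.cons (.br (nat_lit 6) (nat_lit 0) (.cons (.ev (nat_lit 20282410817318375604593107206145) (nat_lit 1)) .nil)) (.cons (.br (nat_lit 6) (nat_lit 0) (.cons (.ev (nat_lit 20282410817318375604593107206400) (nat_lit 1)) .nil)) .nil)))) .nil)))))) (.cons (.br (nat_lit 8) (nat_lit 0) (.cons (.br (nat_lit 12) (nat_lit 0) (.cons (.ev (nat_lit 4740885566016664436736) (nat_lit 1)) (.cons (.rf (nat_lit 72) (nat_lit 13123855698662361120)) .nil))) (.cons (.br (nat_lit 12) (nat_lit 0) (.cons (.ev (nat_lit 4740885566016664436993) (nat_lit 1)) (.cons (.rf (nat_lit 72) (nat_lit 13123750246479923201)) .nil))) (.cons (.rf (nat_lit 78) (nat_lit 13162095613564782624)) (.cons (.br (nat_lit 4) (nat_lit 0) (.cons (.br (nat_lit 11) (nat_lit 0) (.cons (.ev (nat_lit 475370207660637079458118107648)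 (nat_lit 3)) .nil)) (.cons (.rf (nat_lit 72) (nat_lit 9668468884562316320)) (.cons (.rf (nat_lit 73) (nat_lit 9668468884562316320)) .nil)))) .nil))))) .nil)))))),
 (.br (nat_lit 6) (nat_lit 0) (.cons (.ev (nat_lit 20282409603670189507094287220993) (nat_lit 1)) (.cons (.br (nat_lit 8) (nat_lit 0) (.cons (.ev (nat_lit 20282409603670117450599760920576) (nat_lit 1)) .nil)) (.cons (.br (nat_lit 8) (nat_lit 0) (.cons (.ev (nat_lit 20282409603670117450599760920576) (nat_lit 1)) .nil)) .nil)))),
 (.br (nat_lit 4) (nat_lit 0) (.cons (.ev (nat_lit 20282409603670189507094287220736) (nat_lit 1)) (.cons (.rf (nat_lit 103) (nat_lit 493858305440582043680)) (.cons (.br (nat_lit 8) (nat_lit 0) (.cons (.ev (nat_lit 20282409603670117450599760920576) (nat_lit 1)) .nil)) .nil)))),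
 (.br (nat_lit 4) (nat_lit 0) (.cons (.ev (nat_lit 1208944338697776193929473) (nat_lit 1)) (.cons (.rf (nat_lit 103) (nat_lit 493858305440582043680)) (.cons (.br (nat_lit 6) (nat_lit 0) (.cons (.ev (nat_lit 20282409603670117450599760920576) (nat_lit 1)) .nil)) .nil)))),
 (.br (nat_lit 3) (nat_lit 0) (.cons (.rf (nat_lit 50) (nat_lit 493858305440582011936)) (.cons (.rf (nat_lit 67) (nat_lit 493858305440582011936)) (.cons (.rf (nat_lit 98) (nat_lit 493858305440582011936)) (.cons (.rf (nat_lit 102) (nat_lit 493858305440582043680)) (.cons (.br (nat_lit 11) (nat_lit 0) (.cons (.rf (nat_lit 103) (nat_lit 493858305440582043680)) (.cons (.rf (nat_lit 104) (nat_lit 493858305440582043680)) (.cons (.rf (nat_lit 105) (nat_lit 493858305440582043680)) (.cons (.br (nat_lit 11) (nat_lit 0) (.cons (.rf (nat_lit 103) (nat_lit 493858305440582043680)) (.cons (.rf (nat_lit 104) (nat_lit 493858305440582043680)) (.cons (.rf (nat_lit 105) (nat_lit 493858305440582043680)) .nil)))) .nil))))) .nil)))))),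
 (.br (nat_lit 2) (nat_lit 0) (.cons (.rf (nat_lit 9) (nat_lit 493858305440582043680)) (.cons (.rf (nat_lit 50) (nat_lit 493858305440582043680)) (.cons (.rf (nat_lit 67) (nat_lit 493858305440582043680)) (.cons (.rf (nat_lit 82) (nat_lit 493858305440582043680)) (.cons (.rf (nat_lit 98) (nat_lit 493858305440582043680)) (.cons (.br (nat_lit 3) (nat_lit 0) (.cons (.rf (nat_lit 50) (nat_lit 493858305440582011936)) (.cons (.rf (nat_lit 67) (nat_lit 493858305440582011936)) (.cons (.br (nat_lit 3) (nat_lit 0) (.cons (.rf (nat_lit 50) (nat_lit 493858305440582011936)) (.cons (.rf (nat_lit 67) (nat_lit 493858305440582011936)) (.cons (.rf (nat_lit 82) (nat_lit 493858305440582011936)) (.cons (.rf (nat_lit 98) (nat_lit 493858305440582011936)) (.cons (.rf (nat_lit 100) (nat_lit 15433070910038444064)) .nil)))))) (.cons (.rf (nat_lit 102) (nat_lit 493858305440582043680)) (.cons (.rf (nat_lit 106) (nat_lit 493858305440582043680)) (.cons (.br (nat_lit 3) (nat_lit 0) (.cons (.rf (nat_lit 50) (nat_lit 493858305440582011936))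 (.cons (.rf (nat_lit 67) (nat_lit 493858305440582011936)) (.cons (.rf (nat_lit 100) (nat_lit 15433070910038444064)) (.cons (.rf (nat_lit 102) (nat_lit 493858305440582043680)) (.cons (.rf (nat_lit 106) (nat_lit 493858305440582043680)) .nil)))))) .nil))))))) .nil))))))),
 (.br (nat_lit 13) (nat_lit 0) (.cons (.br (nat_lit 8) (nat_lit 0) (.cons (.zr (nat_lit 40564819207303557020676616356098) (nat_lit 79537647542532708215266803712) (nat_lit 5) (nat_lit 6)) .nil)) (.cons (.br (nat_lit 6) (nat_lit 0) (.cons (.zr (nat_lit 40564819207303557020676616356098) (nat_lit 79537647542532708215266803712) (nat_lit 5) (nat_lit 6)) .nil)) .nil))),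
 (.br (nat_lit 4) (nat_lit 0) (.cons (.rf (nat_lit 108) (nat_lit 493858305440582043680)) (.cons (.br (nat_lit 8) (nat_lit 0) (.cons (.zr (nat_lit 40564819207303557020676616355844) (nat_lit 79537647542532708215266803968) (nat_lit 5) (nat_lit 4)) .nil)) .nil))),
 (.br (nat_lit 3) (nat_lit 0) (.cons (.rf (nat_lit 50) (nat_lit 493858305440582011936)) (.cons (.rf (nat_lit 67) (nat_lit 493858305440582011936)) (.cons (.rf (nat_lit 107) (nat_lit 493858305440582011936)) (.cons (.br (nat_lit 8) (nat_lit 0) (.cons (.rf (nat_lit 108) (nat_lit 493858305440582043680)) (.cons (.rf (nat_lit 109) (nat_lit 493858305440582043680)) (.cons (.br (nat_lit 8) (nat_lit 0) (.cons (.rf (nat_lit 108) (nat_lit 493858305440582043680)) (.cons (.rf (nat_lit 109) (nat_lit 493858305440582043680)) .nil))) .nil)))) (.cons (.br (nat_lit 13) (nat_lit 0) (.cons (.kr (nat_lit 1213648258155092857847810) (nat_lit 40564819207303340848994014330880) (nat_lit 0) (nat_lit 1)) (.cons (.kr (nat_lit 1213648258155092857848320) (nat_lit 40564819207303340848994014330880)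 (nat_lit 1) (nat_lit 0)) (.cons (.br (nat_lit 12) (nat_lit 0) (.cons (.rf (nat_lit 101) (nat_lit 493858305440582011936)) (.cons (.br (nat_lit 4) (nat_lit 0) (.cons (.ev (nat_lit 79228162514336677766365249536) (nat_lit 1)) .nil)) (.cons (.rf (nat_lit 87) (nat_lit 493750222348060035104)) .nil)))) (.cons (.br (nat_lit 8) (nat_lit 0) (.cons (.br (nat_lit 6) (nat_lit 0) (.cons (.ev (nat_lit 4740885566016681214208) (nat_lit 1)) .nil)) (.cons (.br (nat_lit 4) (nat_lit 0) (.cons (.ev (nat_lit 4740885566016681214208) (nat_lit 1)) .nil)) .nil))) .nil))))) .nil)))))),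
 (.br (nat_lit 3) (nat_lit 0) (.cons (.rf (nat_lit 50) (nat_lit 493858305440582011936)) (.cons (.rf (nat_lit 67) (nat_lit 493858305440582011936)) (.cons (.rf (nat_lit 107) (nat_lit 493858305440582011936)) (.cons (.rf (nat_lit 110) (nat_lit 493858305440582043680)) (.cons (.br (nat_lit 13) (nat_lit 0) (.cons (.kr (nat_lit 1213648258155092857847810) (nat_lit 40564819207303340848994014330880) (nat_lit 0) (nat_lit 1)) (.cons (.kr (nat_lit 1213648258155092857848320) (nat_lit 40564819207303340848994014330880) (nat_lit 1) (nat_lit 0)) (.cons (.br (nat_lit 4) (nat_lit 0) (.cons (.ev (nat_lit 20361638975091826716342791241728) (nat_lit 1)) (.cons (.br (nat_lit 6) (nat_lit 0) (.cons (.ev (nat_lit 79229376162450716571635548416) (nat_lit 1)) .nil)) (.cons (.br (nat_lit 6) (nat_lit 0) (.cons (.ev (nat_lit 79229376162450716571635548416) (nat_lit 1)) .nil)) .nil)))) (.cons (.kr (nat_lit 4722438540463683141633) (nat_lit 20282409603651670425046762979328) (nat_lit 0) (nat_lit 1)) .nil))))) .nil)))))),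
 (.br (nat_lit 3) (nat_lit 0) (.cons (.rf (nat_lit 50) (nat_lit 493858305440582011936)) (.cons (.rf (nat_lit 67) (nat_lit 493858305440582011936)) (.cons (.rf (nat_lit 107) (nat_lit 493858305440582011936)) (.cons (.rf (nat_lit 110) (nat_lit 493858305440582043680)) (.cons (.rf (nat_lit 111) (nat_lit 493858305440582043680)) (.cons (.br (nat_lit 3) (nat_lit 0) (.cons (.rf (nat_lit 50) (nat_lit 493858305440582011936)) (.cons (.rf (nat_lit 67) (nat_lit 493858305440582011936)) (.cons (.rf (nat_lit 107) (nat_lit 493858305440582011936)) (.cons (.rf (nat_lit 110) (nat_lit 493858305440582043680)) (.cons (.rf (nat_lit 111) (nat_lit 493858305440582043680)) .nil)))))) .nil))))))),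
 (.br (nat_lit 6) (nat_lit 0) (.cons (.ev (nat_lit 40564820421025387108497921278980) (nat_lit 3)) (.cons (.br (nat_lit 8) (nat_lit 0) (.cons (.ev (nat_lit 40564820421025675343272119500800) (nat_lit 3)) .nil)) (.cons (.ev (nat_lit 40881733089898123418453885976580) (nat_lit 3)) .nil)))),
 (.br (nat_lit 4) (nat_lit 0) (.cons (.ev (nat_lit 40564820421025387108497921278980) (nat_lit 3)) (.cons (.br (nat_lit 8) (nat_lit 0) (.cons (.ev (nat_lit 40564820421025675343272119501828) (nat_lit 3)) .nil)) (.cons (.ev (nat_lit 40881733089898123418453885977600) (nat_lit 3)) .nil)))),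
 (.br (nat_lit 8) (nat_lit 0) (.cons (.rf (nat_lit 113) (nat_lit 493858305440582043680)) (.cons (.rf (nat_lit 114) (nat_lit 493858305440582043680)) (.cons (.br (nat_lit 4) (nat_lit 0) (.cons (.ev (nat_lit 20361637766221347614314555507456) (nat_lit 2)) .nil)) .nil)))),
 (.br (nat_lit 3) (nat_lit 0) (.cons (.rf (nat_lit 50) (nat_lit 493858305440582011936)) (.cons (.rf (nat_lit 67) (nat_lit 493858305440582011936)) (.cons (.rf (nat_lit 107) (nat_lit 493858305440582011936)) (.cons (.rf (nat_lit 112) (nat_lit 493858305440582011936)) (.cons (.br (nat_lit 8) (nat_lit 0) (.cons (.rf (nat_lit 113) (nat_lit 493858305440582043680)) (.cons (.rf (nat_lit 114) (nat_lit 493858305440582043680)) (.cons (.rf (nat_lit 115) (nat_lit 493858305440582043680)) (.cons (.br (nat_lit 8) (nat_lit 0) (.cons (.rf (nat_lit 113) (nat_lit 493858305440582043680)) (.cons (.rf (nat_lit 114) (nat_lit 493858305440582043680)) (.cons (.rf (nat_lit 115) (nat_lit 493858305440582043680)) .nil)))) .nil))))) .nil)))))),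
 (.br (nat_lit 2) (nat_lit 0) (.cons (.kr (nat_lit 4722438540463683141634) (nat_lit 1208925819615728686465024) (nat_lit 0) (nat_lit 1)) (.cons (.rf (nat_lit 50) (nat_lit 493858305440582043680)) (.cons (.rf (nat_lit 67) (nat_lit 493858305440582043680)) (.cons (.rf (nat_lit 107) (nat_lit 493858305440582043680)) (.cons (.rf (nat_lit 112) (nat_lit 493858305440582043680)) (.cons (.br (nat_lit 3) (nat_lit 0) (.cons (.rf (nat_lit 50) (nat_lit 493858305440582011936)) (.cons (.rf (nat_lit 67) (nat_lit 493858305440582011936)) (.cons (.rf (nat_lit 107) (nat_lit 493858305440582011936)) (.cons (.br (nat_lit 3) (nat_lit 0) (.cons (.rf (nat_lit 50) (nat_lit 493858305440582011936)) (.cons (.rf (nat_lit 67) (nat_lit 493858305440582011936)) (.cons (.rf (nat_lit 107) (nat_lit 493858305440582011936)) (.cons (.rf (nat_lit 112) (nat_lit 493858305440582011936)) (.cons (.rf (nat_lit 100) (nat_lit 15429696508852799520)) .nil)))))) (.cons (.rf (nat_lit 116) (nat_lit 493858305440582043680)) (.cons (.br (nat_lit 3) (nat_lit 0) (.cons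 (.rf (nat_lit 50) (nat_lit 493858305440582011936)) (.cons (.rf (nat_lit 67) (nat_lit 493858305440582011936)) (.cons (.rf (nat_lit 107) (nat_lit 493858305440582011936)) (.cons (.rf (nat_lit 100) (nat_lit 15429696508852799520)) (.cons (.rf (nat_lit 116) (nat_lit 493858305440582043680)) .nil)))))) .nil))))))) .nil))))))),
 (.br (nat_lit 3) (nat_lit 0) (.cons (.rf (nat_lit 50) (nat_lit 493858305440582011936)) (.cons (.rf (nat_lit 67) (nat_lit 493858305440582011936)) (.cons (.rf (nat_lit 107) (nat_lit 493858305440582011936)) (.cons (.rf (nat_lit 117) (nat_lit 493858305440582011936)) (.cons (.br (nat_lit 4) (nat_lit 0) (.cons (.ev (nat_lit 20361637770888373584583278526465) (nat_lit 1)) (.cons (.br (nat_lit 6) (nat_lit 0) (.cons (.ev (nat_lit 20361638975091754657649258463488) (nat_lit 1)) (.cons (.ev (nat_lit 79228162514336677766365184256) (nat_lit 1)) .nil))) (.cons (.br (nat_lit 6) (nat_lit 0) (.cons (.ev (nat_lit 79228162514336677766365184256) (nat_lit 1)) (.cons (.ev (nat_lit 20361637770888373584583278526720)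 (nat_lit 1)) .nil))) .nil)))) .nil)))))),
 (.br (nat_lit 2) (nat_lit 0) (.cons (.rf (nat_lit 9) (nat_lit 493858305440582043680)) (.cons (.rf (nat_lit 50) (nat_lit 493858305440582043680)) (.cons (.rf (nat_lit 67) (nat_lit 493858305440582043680)) (.cons (.rf (nat_lit 107) (nat_lit 493858305440582043680)) (.cons (.rf (nat_lit 117) (nat_lit 493858305440582043680)) (.cons (.br (nat_lit 3) (nat_lit 0) (.cons (.rf (nat_lit 50) (nat_lit 493858305440582011936)) (.cons (.rf (nat_lit 67) (nat_lit 493858305440582011936)) (.cons (.rf (nat_lit 107) (nat_lit 493858305440582011936)) (.cons (.rf (nat_lit 117) (nat_lit 493858305440582011936)) (.cons (.rf (nat_lit 118) (nat_lit 493858305440582043680)) (.cons (.br (nat_lit 3) (nat_lit 0) (.cons (.rf (nat_lit 50) (nat_lit 493858305440582011936)) (.cons (.rf (nat_lit 67) (nat_lit 493858305440582011936)) (.cons (.rf (nat_lit 107) (nat_lit 493858305440582011936)) (.cons (.rf (nat_lit 117) (nat_lit 493858305440582011936)) (.cons (.rf (nat_lit 118) (nat_lit 493858305440582043680))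 .nil)))))) .nil))))))) .nil))))))),
 (.br (nat_lit 2) (nat_lit 0) (.cons (.rf (nat_lit 9) (nat_lit 493858305440582043680)) (.cons (.rf (nat_lit 50) (nat_lit 493858305440582043680)) (.cons (.rf (nat_lit 67) (nat_lit 493858305440582043680)) (.cons (.rf (nat_lit 107) (nat_lit 493858305440582043680)) (.cons (.rf (nat_lit 117) (nat_lit 493858305440582043680)) (.cons (.rf (nat_lit 119) (nat_lit 493858305440582043680)) (.cons (.br (nat_lit 2) (nat_lit 0) (.cons (.rf (nat_lit 9) (nat_lit 493858305440582043680)) (.cons (.rf (nat_lit 50) (nat_lit 493858305440582043680)) (.cons (.rf (nat_lit 67) (nat_lit 493858305440582043680)) (.cons (.rf (nat_lit 107) (nat_lit 493858305440582043680)) (.cons (.rf (nat_lit 117) (nat_lit 493858305440582043680)) (.cons (.rf (nat_lit 119) (nat_lit 493858305440582043680)) .nil))))))) .nil)))))))),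
 (.br (nat_lit 6) (nat_lit 0) (.cons (.kr (nat_lit 4722438540463683141634) (nat_lit 1208925819896104151482624) (nat_lit 0) (nat_lit 3)) (.cons (.kr (nat_lit 72057594037927937) (nat_lit 281474976776192) (nat_lit 0) (nat_lit 1)) (.cons (.ev (nat_lit 4740813509522138136833) (nat_lit 1)) .nil)))),
 (.br (nat_lit 2) (nat_lit 0) (.cons (.kr (nat_lit 4722438540463683141634) (nat_lit 1208925819896104151482624) (nat_lit 0) (nat_lit 3)) (.cons (.kr (nat_lit 72057594037927937) (nat_lit 281474976776192) (nat_lit 0) (nat_lit 1)) (.cons (.ev (nat_lit 4740813509522138136833) (nat_lit 1)) .nil))))]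

theorem c4 : chkAll C T R L4 (nat_lit 100) = true := by decide +kernel

theorem l4 : (nat_lit 100) + L4.length = (nat_lit 123) := by decide +kernel

/-- part of the certificates -/
def L5 : List Prf := [(.br (nat_lit 11) (nat_lit 0) (.cons (.rf (nat_lit 121) (nat_lit 493858305440582043680)) (.cons (.rf (nat_lit 122) (nat_lit 493858305440582043680)) (.cons (.br (nat_lit 12) (nat_lit 0) (.cons (.br (nat_lit 6) (nat_lit 0) (.cons (.ev (nat_lit 4740885566016664436736) (nat_lit 1)) .nil)) (.cons (.br (nat_lit 2) (nat_lit 0) (.cons (.ev (nat_lit 4740885566016664436736) (nat_lit 1)) .nil)) (.cons (.kr (nat_lit 40564819207303340848994014199808) (nat_lit 1213648258155092857847808) (nat_lit 5) (nat_lit 0)) .nil)))) .nil)))),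
 (.br (nat_lit 6) (nat_lit 0) (.cons (.kr (nat_lit 1208925891673322724262400) (nat_lit 4722367045819598766080) (nat_lit 1) (nat_lit 0)) (.cons (.kr (nat_lit 72057594037927937) (nat_lit 281474976776192) (nat_lit 0) (nat_lit 1)) (.cons (.kr (nat_lit 1208925891672223212634368) (nat_lit 4722366764344621989888) (nat_lit 1) (nat_lit 0)) (.cons (.br (nat_lit 8) (nat_lit 0) (.cons (.ev (nat_lit 4740885566016664436736) (nat_lit 1)) (.cons (.ev (nat_lit 4740813509522138071296) (nat_lit 1)) (.cons (.ev (nat_lit 4740885566016664371201) (nat_lit 1)) (.cons (.ev (nat_lit 4740885285641199354113) (nat_lit 1)) .nil))))) .nil))))),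
 (.br (nat_lit 2) (nat_lit 0) (.cons (.kr (nat_lit 1) (nat_lit 65536) (nat_lit 0) (nat_lit 1)) (.cons (.kr (nat_lit 1208925891673322724262400) (nat_lit 4722367045819598766080) (nat_lit 1) (nat_lit 0)) (.cons (.kr (nat_lit 72057594037927937) (nat_lit 281474976776192) (nat_lit 0) (nat_lit 1)) (.cons (.kr (nat_lit 1208925891672223212634368) (nat_lit 4722366764344621989888) (nat_lit 1) (nat_lit 0)) (.cons (.br (nat_lit 8) (nat_lit 0) (.cons (.ev (nat_lit 4740885566016664436736) (nat_lit 1)) (.cons (.ev (nat_lit 4740813226947649798144) (nat_lit 1)) (.cons (.ev (nat_lit 4740885285641199354113) (nat_lit 1)) (.cons (.ev (nat_lit 4740885566016664371201) (nat_lit 1)) .nil))))) .nil)))))),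
 (.br (nat_lit 13) (nat_lit 0) (.cons (.ev (nat_lit 4740885285641199354113) (nat_lit 1)) (.cons (.ev (nat_lit 4740885566016664371201) (nat_lit 1)) (.cons (.br (nat_lit 12) (nat_lit 0) (.cons (.rf (nat_lit 124) (nat_lit 493858305440582043680)) (.cons (.rf (nat_lit 125) (nat_lit 493858305440582043680)) (.cons (.kr (nat_lit 40564819207303340848994014199808) (nat_lit 1213648258155092857847808) (nat_lit 5) (nat_lit 0)) .nil)))) (.cons (.br (nat_lit 13) (nat_lit 0) (.cons (.ev (nat_lit 4740885285641199354113) (nat_lit 1)) (.cons (.ev (nat_lit 4740885566016664371201) (nat_lit 1)) (.cons (.kr (nat_lit 40564819207303340848994014199808) (nat_lit 1213648258155092857847808) (nat_lit 5) (nat_lit 0)) .nil)))) .nil))))),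
 (.br (nat_lit 12) (nat_lit 0) (.cons (.rf (nat_lit 124) (nat_lit 493858305440582043680)) (.cons (.rf (nat_lit 125) (nat_lit 493858305440582043680)) (.cons (.rf (nat_lit 126) (nat_lit 493858305440582043680)) (.cons (.br (nat_lit 8) (nat_lit 0) (.cons (.br (nat_lit 6) (nat_lit 0) (.cons (.ev (nat_lit 20282409603670189507094287220993) (nat_lit 1)) .nil)) (.cons (.br (nat_lit 2) (nat_lit 0) (.cons (.ev (nat_lit 20282409603670189226718822203393) (nat_lit 1)) .nil)) (.cons (.kr (nat_lit 20282409603651670423947251286017) (nat_lit 1208925819614629174706432) (nat_lit 0) (nat_lit 2)) .nil)))) .nil))))),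
 (.br (nat_lit 12) (nat_lit 0) (.cons (.rf (nat_lit 124) (nat_lit 493858305440582043680)) (.cons (.rf (nat_lit 125) (nat_lit 493858305440582043680)) (.cons (.rf (nat_lit 126) (nat_lit 493858305440582043680)) (.cons (.rf (nat_lit 127) (nat_lit 493858305440582043680)) (.cons (.br (nat_lit 12) (nat_lit 0) (.cons (.rf (nat_lit 124) (nat_lit 493858305440582043680)) (.cons (.rf (nat_lit 125) (nat_lit 493858305440582043680)) (.cons (.rf (nat_lit 126) (nat_lit 493858305440582043680)) (.cons (.rf (nat_lit 127) (nat_lit 493858305440582043680)) .nil))))) .nil)))))),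
 (.br (nat_lit 6) (nat_lit 0) (.cons (.kr (nat_lit 4722438541563194769410) (nat_lit 1208925820177579128258560) (nat_lit 0) (nat_lit 1)) (.cons (.kr (nat_lit 4722438540463683141634) (nat_lit 1208925819896104151482624) (nat_lit 0) (nat_lit 3)) (.cons (.kr (nat_lit 72057594037927937) (nat_lit 281474976776192) (nat_lit 0) (nat_lit 1)) (.cons (.br (nat_lit 8) (nat_lit 0) (.cons (.ev (nat_lit 4740813509522138136833) (nat_lit 1)) (.cons (.ev (nat_lit 4740813509522138071296) (nat_lit 1)) (.cons (.ev (nat_lit 4740885566016664371201) (nat_lit 1)) (.cons (.ev (nat_lit 4740813226947649798144) (nat_lit 1)) .nil))))) .nil))))),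
 (.br (nat_lit 2) (nat_lit 0) (.cons (.br (nat_lit 13) (nat_lit 0) (.cons (.ev (nat_lit 20282410817318303548098580906240) (nat_lit 1)) (.cons (.ev (nat_lit 20282410817318375604593107206145) (nat_lit 1)) .nil))) (.cons (.rf (nat_lit 129) (nat_lit 493858305440582043680)) (.cons (.rf (nat_lit 124) (nat_lit 493858305440582043680)) (.cons (.ev (nat_lit 4740885285641199354113) (nat_lit 1)) .nil))))),
 (.br (nat_lit 2) (nat_lit 0) (.cons (.br (nat_lit 8) (nat_lit 0) (.cons (.ev (nat_lit 20282410817318303548098580906240) (nat_lit 1)) (.cons (.ev (nat_lit 20282410817318375604593107206145) (nat_lit 1)) .nil))) (.cons (.kr (nat_lit 1208925819614629174706432) (nat_lit 20282409603651670423947251351552) (nat_lit 1) (nat_lit 0)) (.cons (.kr (nat_lit 1213648258155092857847810) (nat_lit 40564819207303340848994014330880) (nat_lit 0) (nat_lit 1)) (.cons (.kr (nat_lit 3626777530901481562046976) (nat_lit 40564819212025707331863659544576) (nat_lit 1) (nat_lit 0)) .nil))))),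
 (.br (nat_lit 3) (nat_lit 0) (.cons (.kr (nat_lit 1) (nat_lit 65536) (nat_lit 0) (nat_lit 1)) (.cons (.br (nat_lit 11) (nat_lit 0) (.cons (.rf (nat_lit 129) (nat_lit 493858305440582043680)) (.cons (.rf (nat_lit 122) (nat_lit 493858305440582043680)) (.cons (.rf (nat_lit 123) (nat_lit 493858305440582043680)) (.cons (.br (nat_lit 11) (nat_lit 0) (.cons (.rf (nat_lit 129) (nat_lit 493858305440582043680)) (.cons (.rf (nat_lit 122) (nat_lit 493858305440582043680)) (.cons (.rf (nat_lit 123) (nat_lit 493858305440582043680)) .nil)))) .nil))))) (.cons (.rf (nat_lit 128) (nat_lit 493858305440582043680)) (.cons (.br (nat_lit 2) (nat_lit 0) (.cons (.br (nat_lit 13) (nat_lit 0) (.cons (.ev (nat_lit 1223167066891569817059332) (nat_lit 3)) (.cons (.br (nat_lit 13) (nat_lit 0) (.cons (.ev (nat_lit 1223167066891569817059332) (nat_lit 3)) (.cons (.kr (nat_lit 40564819207303340848994014199808) (nat_lit 1213648258155092857847808) (nat_lit 5) (nat_lit 0)) .nil))) (.cons (.br (nat_lit 13) (nat_lit 0) (.cons (.ev (nat_lit 1223167066891569817059332)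 (nat_lit 3)) (.cons (.kr (nat_lit 40564819207303340848994014199808) (nat_lit 1213648258155092857847808) (nat_lit 5) (nat_lit 0)) .nil))) .nil)))) (.cons (.rf (nat_lit 128) (nat_lit 492740317619417090049)) (.cons (.rf (nat_lit 129) (nat_lit 493858305440582043680)) (.cons (.rf (nat_lit 124) (nat_lit 493858305440582043680)) (.cons (.br (nat_lit 8) (nat_lit 0) (.cons (.br (nat_lit 13) (nat_lit 0) (.cons (.ev (nat_lit 20282410817318303265524092567553) (nat_lit 1)) (.cons (.ev (nat_lit 20282410817318375324217642123520) (nat_lit 1)) .nil))) (.cons (.ev (nat_lit 4740813226947649798144) (nat_lit 1)) (.cons (.ev (nat_lit 4740885285641199354113) (nat_lit 1)) (.cons (.br (nat_lit 6) (nat_lit 0) (.cons (.ev (nat_lit 4740813509522138071296) (nat_lit 1)) (.cons (.ev (nat_lit 4740885566016664371201) (nat_lit 1)) .nil))) .nil))))) .nil)))))) (.cons (.br (nat_lit 12) (nat_lit 0) (.cons (.rf (nat_lit 124) (nat_lit 493858305440582043680)) (.cons (.rf (nat_lit 125) (nat_lit 493858305440582043680)) (.cons (.rf (nat_lit 130)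 (nat_lit 493858305440582043680)) (.cons (.br (nat_lit 12) (nat_lit 0) (.cons (.rf (nat_lit 124) (nat_lit 493858305440582043680)) (.cons (.rf (nat_lit 125) (nat_lit 493858305440582043680)) (.cons (.rf (nat_lit 130) (nat_lit 493858305440582043680)) (.cons (.rf (nat_lit 131) (nat_lit 493858305440582043680)) .nil))))) (.cons (.rf (nat_lit 131) (nat_lit 493858305440582043680)) .nil)))))) .nil)))))),
 (.br (nat_lit 6) (nat_lit 0) (.cons (.rf (nat_lit 132) (nat_lit 492740317619417058305)) (.cons (.rf (nat_lit 132) (nat_lit 493858305440582043680)) (.cons (.kr (nat_lit 281474976710656) (nat_lit 72057594037927936) (nat_lit 6) (nat_lit 0)) (.cons (.ev (nat_lit 4740813509522138071296) (nat_lit 1)) .nil))))),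
 (.br (nat_lit 6) (nat_lit 0) (.cons (.rf (nat_lit 132) (nat_lit 492740317619417058305)) (.cons (.rf (nat_lit 132) (nat_lit 493858305440582043680)) (.cons (.rf (nat_lit 133) (nat_lit 493858305440582043680)) (.cons (.rf (nat_lit 133) (nat_lit 492740317619417058305)) (.cons (.br (nat_lit 6) (nat_lit 0) (.cons (.rf (nat_lit 132) (nat_lit 492740317619417058305)) (.cons (.rf (nat_lit 132) (nat_lit 493858305440582043680)) (.cons (.ev (nat_lit 4740813509522138071296) (nat_lit 1)) (.cons (.ev (nat_lit 4740885566016664371201) (nat_lit 1)) .nil))))) .nil)))))),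
 (.br (nat_lit 12) (nat_lit 0) (.cons (.ev (nat_lit 20282409603670117450599760986113) (nat_lit 1)) .nil)),
 (.br (nat_lit 6) (nat_lit 0) (.cons (.kr (nat_lit 72057594037928192) (nat_lit 281474993487872) (nat_lit 1) (nat_lit 0)) (.cons (.kr (nat_lit 4722582655651758997506) (nat_lit 1208925820178678673309696) (nat_lit 0) (nat_lit 1)) (.cons (.kr (nat_lit 1208926035787411288490496) (nat_lit 4722367046919143817216) (nat_lit 1) (nat_lit 0)) (.cons (.br (nat_lit 8) (nat_lit 0) (.cons (.rf (nat_lit 135) (nat_lit 493858305440582043680)) (.cons (.rf (nat_lit 135) (nat_lit 492741412732994160672)) (.cons (.ev (nat_lit 20282409603670117168025255870464) (nat_lit 1)) .nil)))) .nil))))),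
 (.br (nat_lit 12) (nat_lit 0) (.cons (.ev (nat_lit 20282409603670189507094270509056) (nat_lit 1)) .nil)),
 (.br (nat_lit 6) (nat_lit 0) (.cons (.kr (nat_lit 72057594037928192) (nat_lit 281474993487872) (nat_lit 1) (nat_lit 0)) (.cons (.kr (nat_lit 4722438541563194769408) (nat_lit 1208925820177579128127488) (nat_lit 5) (nat_lit 0)) (.cons (.kr (nat_lit 4722367045819598635010) (nat_lit 1208925891673322724262400) (nat_lit 0) (nat_lit 2)) (.cons (.br (nat_lit 2) (nat_lit 0) (.cons (.rf (nat_lit 137) (nat_lit 493858305440582043680)) (.cons (.rf (nat_lit 137) (nat_lit 492741412732994160672)) (.cons (.ev (nat_lit 20282410817318303265524092567553) (nat_lit 1)) .nil)))) .nil))))),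
 (.br (nat_lit 6) (nat_lit 0) (.cons (.kr (nat_lit 4722582655651758997506) (nat_lit 1208925820178678673309696) (nat_lit 0) (nat_lit 1)) (.cons (.kr (nat_lit 4722438541563194769408) (nat_lit 1208925820177579128127488) (nat_lit 5) (nat_lit 0)) (.cons (.kr (nat_lit 281474976710656) (nat_lit 72057594037927936) (nat_lit 6) (nat_lit 0)) (.cons (.br (nat_lit 2) (nat_lit 0) (.cons (.ev (nat_lit 4740885566016681214208) (nat_lit 1)) (.cons (.br (nat_lit 8) (nat_lit 0) (.cons (.ev (nat_lit 4740885285641199354113) (nat_lit 1)) .nil)) (.cons (.br (nat_lit 8) (nat_lit 0) (.cons (.ev (nat_lit 4740885285641199354113) (nat_lit 1)) .nil)) .nil)))) .nil))))),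
 (.br (nat_lit 7) (nat_lit 0) (.cons (.ev (nat_lit 18518801672042512384) (nat_lit 1)) .nil)),
 (.br (nat_lit 6) (nat_lit 0) (.cons (.kr (nat_lit 1208926035787411288490496) (nat_lit 4722367046919143817216) (nat_lit 1) (nat_lit 0)) (.cons (.kr (nat_lit 4722367045819598635010) (nat_lit 1208925891673322724262400) (nat_lit 0) (nat_lit 2)) (.cons (.kr (nat_lit 281474976710656) (nat_lit 72057594037927936) (nat_lit 6) (nat_lit 0)) (.cons (.br (nat_lit 2) (nat_lit 0) (.cons (.ev (nat_lit 4740813509522154913793) (nat_lit 1)) (.cons (.rf (nat_lit 140) (nat_lit 15433072043909810208)) (.cons (.br (nat_lit 8) (nat_lit 0) (.cons (.ev (nat_lit 4740813226947649798144) (nat_lit 1)) .nil)) .nil)))) .nil))))),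
 (.br (nat_lit 12) (nat_lit 0) (.cons (.ev (nat_lit 20282409603670117450599760920576) (nat_lit 1)) .nil)),
 (.br (nat_lit 12) (nat_lit 0) (.cons (.ev (nat_lit 20282409603670117450599760920576) (nat_lit 1)) .nil)),
 (.br (nat_lit 11) (nat_lit 0) (.cons (.ev (nat_lit 20282409603670117450599760920576) (nat_lit 1)) .nil)),
 (.br (nat_lit 3) (nat_lit 0) (.cons (.kr (nat_lit 4722438540463683141634) (nat_lit 1208925819615728719888384) (nat_lit 0) (nat_lit 1)) (.cons (.rf (nat_lit 132) (nat_lit 493858305440582043680)) (.cons (.rf (nat_lit 134) (nat_lit 493858305440582043680)) (.cons (.br (nat_lit 6) (nat_lit 0) (.cons (.rf (nat_lit 136) (nat_lit 493858305440582043680)) (.cons (.rf (nat_lit 138) (nat_lit 493858305440582043680)) (.cons (.rf (nat_lit 139) (nat_lit 493858305440582043680)) (.cons (.rf (nat_lit 141) (nat_lit 493858305440582043680)) (.cons (.br (nat_lit 6) (nat_lit 0) (.cons (.rf (nat_lit 136) (nat_lit 493858305440582043680)) (.cons (.rf (nat_lit 138) (nat_lit 493858305440582043680)) (.cons (.rf (nat_lit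 139) (nat_lit 493858305440582043680)) (.cons (.rf (nat_lit 141) (nat_lit 493858305440582043680)) .nil))))) .nil)))))) (.cons (.br (nat_lit 8) (nat_lit 0) (.cons (.ev (nat_lit 4740813226947666575616) (nat_lit 1)) (.cons (.br (nat_lit 6) (nat_lit 0) (.cons (.ev (nat_lit 4740813509522154913793) (nat_lit 1)) (.cons (.kr (nat_lit 4722438541563194769408) (nat_lit 1208925820177579128127488) (nat_lit 5) (nat_lit 0)) (.cons (.kr (nat_lit 4722367045819598635010) (nat_lit 1208925891673322724262400) (nat_lit 0) (nat_lit 2)) (.cons (.ev (nat_lit 20282410817318375604593090363648) (nat_lit 1)) .nil))))) (.cons (.br (nat_lit 2) (nat_lit 0) (.cons (.br (nat_lit 6) (nat_lit 0) (.cons (.rf (nat_lit 142) (nat_lit 493858305440582043680)) (.cons (.ev (nat_lit 20282409608410930679746434105856) (nat_lit 2)) .nil))) (.cons (.br (nat_lit 12) (nat_lit 0) (.cons (.br (nat_lit 6) (nat_lit 0) (.cons (.ev (nat_lit 4740813509522138136833) (nat_lit 1)) .nil)) (.cons (.kr (nat_lit 3626777530901481562046976) (nat_lit 40564819212025707331863659544576)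 (nat_lit 1) (nat_lit 0)) .nil))) (.cons (.ev (nat_lit 4740813226947649798144) (nat_lit 1)) .nil)))) (.cons (.br (nat_lit 2) (nat_lit 0) (.cons (.br (nat_lit 6) (nat_lit 0) (.cons (.rf (nat_lit 143) (nat_lit 493858305440582043680)) (.cons (.rf (nat_lit 144) (nat_lit 493858305440582043680)) (.cons (.ev (nat_lit 20282409608411074792735486705666) (nat_lit 2)) .nil)))) (.cons (.br (nat_lit 12) (nat_lit 0) (.cons (.br (nat_lit 6) (nat_lit 0) (.cons (.ev (nat_lit 4740813509522138136833) (nat_lit 1)) .nil)) (.cons (.kr (nat_lit 1213648258155092857847810) (nat_lit 40564819207303340848994014330880) (nat_lit 0) (nat_lit 1)) .nil))) (.cons (.br (nat_lit 11) (nat_lit 0) (.cons (.br (nat_lit 6) (nat_lit 0) (.cons (.ev (nat_lit 4740813509522138136833) (nat_lit 1)) .nil)) (.cons (.kr (nat_lit 1213648258155092857847810) (nat_lit 40564819207303340848994014330880) (nat_lit 0) (nat_lit 1)) .nil))) (.cons (.ev (nat_lit 4740885285641199354113) (nat_lit 1)) .nil))))) (.cons (.ev (nat_lit 20282409603670117168025255804929) (nat_lit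 1)) .nil)))))) .nil)))))),
 (.br (nat_lit 3) (nat_lit 0) (.cons (.kr (nat_lit 1) (nat_lit 65536) (nat_lit 0) (nat_lit 1)) (.cons (.rf (nat_lit 132) (nat_lit 493858305440582043680)) (.cons (.rf (nat_lit 134) (nat_lit 493858305440582043680)) (.cons (.rf (nat_lit 145) (nat_lit 493858305440582043680)) (.cons (.br (nat_lit 8) (nat_lit 0) (.cons (.ev (nat_lit 4740885285641216131073) (nat_lit 1)) (.cons (.br (nat_lit 6) (nat_lit 0) (.cons (.ev (nat_lit 4740885566016681214208) (nat_lit 1)) (.cons (.kr (nat_lit 4722438541563194769408) (nat_lit 1208925820177579128127488) (nat_lit 5) (nat_lit 0)) (.cons (.kr (nat_lit 4722367045819598635010) (nat_lit 1208925891673322724262400) (nat_lit 0) (nat_lit 2)) (.cons (.ev (nat_lit 20282410817318375604593090363648) (nat_lit 1)) .nil))))) (.cons (.br (nat_lit 2) (nat_lit 0) (.cons (.br (nat_lit 6) (nat_lit 0) (.cons (.rf (nat_lit 144) (nat_lit 492741412732994160672)) (.cons (.rf (nat_lit 143) (nat_lit 492741412732994160672)) (.cons (.ev (nat_lit 20282409608411003296991924125955)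 (nat_lit 2)) .nil)))) (.cons (.br (nat_lit 12) (nat_lit 0) (.cons (.br (nat_lit 6) (nat_lit 0) (.cons (.ev (nat_lit 4740885566016664436736) (nat_lit 1)) .nil)) (.cons (.kr (nat_lit 1213648258155092857847810) (nat_lit 40564819207303340848994014330880) (nat_lit 0) (nat_lit 1)) .nil))) (.cons (.br (nat_lit 11) (nat_lit 0) (.cons (.br (nat_lit 6) (nat_lit 0) (.cons (.ev (nat_lit 4740885566016664436736) (nat_lit 1)) .nil)) (.cons (.kr (nat_lit 1213648258155092857847810) (nat_lit 40564819207303340848994014330880) (nat_lit 0) (nat_lit 1)) .nil))) (.cons (.ev (nat_lit 4740813226947649798144) (nat_lit 1)) .nil))))) (.cons (.br (nat_lit 2) (nat_lit 0) (.cons (.br (nat_lit 6) (nat_lit 0) (.cons (.rf (nat_lit 142) (nat_lit 492741412732994160672)) (.cons (.ev (nat_lit 20282409608411147414379023237889) (nat_lit 2)) .nil))) (.cons (.br (nat_lit 11) (nat_lit 0) (.cons (.br (nat_lit 6) (nat_lit 0) (.cons (.ev (nat_lit 4740885566016664436736) (nat_lit 1)) .nil)) (.cons (.kr (nat_lit 14167171506202973569028) (nat_lit 40564820416229160463623189037568)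 (nat_lit 0) (nat_lit 3)) .nil))) (.cons (.ev (nat_lit 4740885285641199354113) (nat_lit 1)) .nil)))) (.cons (.ev (nat_lit 20282409603670117168025255804929) (nat_lit 1)) .nil)))))) .nil)))))),
 (.br (nat_lit 3) (nat_lit 0) (.cons (.kr (nat_lit 1) (nat_lit 65536) (nat_lit 0) (nat_lit 1)) (.cons (.rf (nat_lit 132) (nat_lit 493858305440582043680)) (.cons (.rf (nat_lit 134) (nat_lit 493858305440582043680)) (.cons (.rf (nat_lit 145) (nat_lit 493858305440582043680)) (.cons (.rf (nat_lit 146) (nat_lit 493858305440582043680)) (.cons (.br (nat_lit 3) (nat_lit 0) (.cons (.kr (nat_lit 1) (nat_lit 65536) (nat_lit 0) (nat_lit 1)) (.cons (.rf (nat_lit 132) (nat_lit 493858305440582043680)) (.cons (.rf (nat_lit 134) (nat_lit 493858305440582043680)) (.cons (.rf (nat_lit 145) (nat_lit 493858305440582043680)) (.cons (.rf (nat_lit 146) (nat_lit 493858305440582043680)) .nil)))))) .nil)))))))]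

theorem c5 : chkAll C T R L5 (nat_lit 123) = true := by decide +kernel

theorem l5 : (nat_lit 123) + L5.length = (nat_lit 148) := by decide +kernel

/-- part of the certificates -/
def L6 : List Prf := [(.br (nat_lit 8) (nat_lit 0) (.cons (.ev (nat_lit 1223167212134856823014400) (nat_lit 3)) (.cons (.ev (nat_lit 4740813509522138071296) (nat_lit 1)) (.cons (.ev (nat_lit 4740885566016664371201) (nat_lit 1)) (.cons (.kr (nat_lit 1213648186098598331547648) (nat_lit 40564819207303412905488540499968) (nat_lit 5) (nat_lit 0)) .nil))))),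
 (.br (nat_lit 12) (nat_lit 0) (.cons (.rf (nat_lit 72) (nat_lit 13164380469594229792)) (.cons (.rf (nat_lit 72) (nat_lit 13164345315291106305)) (.cons (.kr (nat_lit 40564819207303340848994014199808) (nat_lit 1213648258155092857847808) (nat_lit 5) (nat_lit 0)) .nil)))),
 (.br (nat_lit 3) (nat_lit 0) (.cons (.rf (nat_lit 147) (nat_lit 493858305440582011936)) (.cons (.rf (nat_lit 147) (nat_lit 492740317619417058305)) (.cons (.rf (nat_lit 100) (nat_lit 13164380469594261536)) (.cons (.br (nat_lit 13) (nat_lit 0) (.cons (.rf (nat_lit 148) (nat_lit 493858305440582043680)) (.cons (.rf (nat_lit 148) (nat_lit 492740317619417058305)) (.cons (.rf (nat_lit 149) (nat_lit 493858305440582043680)) (.cons (.rf (nat_lit 149) (nat_lit 492740317619417058305)) .nil))))) (.cons (.br (nat_lit 4) (nat_lit 0) (.cons (.ev (nat_lit 4740813226947666575616) (nat_lit 1)) (.cons (.br (nat_lit 8) (nat_lit 0) (.cons (.ev (nat_lit 4740885285641216131328) (nat_lit 1)) (.cons (.ev (nat_lit 4740813509522138071296) (nat_lit 1)) .nil))) (.cons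 (.br (nat_lit 8) (nat_lit 0) (.cons (.ev (nat_lit 4740885285641216131328) (nat_lit 1)) (.cons (.ev (nat_lit 4740813226947666575361) (nat_lit 1)) (.cons (.ev (nat_lit 4740885566016664371201) (nat_lit 1)) .nil)))) (.cons (.rf (nat_lit 148) (nat_lit 493858305440582043680)) .nil))))) .nil)))))),
 (.br (nat_lit 8) (nat_lit 0) (.cons (.ev (nat_lit 20282409603670117450599744143616) (nat_lit 1)) .nil)),
 (.br (nat_lit 6) (nat_lit 0) (.cons (.ev (nat_lit 4740885285641216131328) (nat_lit 1)) (.cons (.rf (nat_lit 151) (nat_lit 493858305440582043680)) (.cons (.br (nat_lit 8) (nat_lit 0) (.cons (.ev (nat_lit 20282409608410930960121882411776) (nat_lit 2)) .nil)) .nil)))),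
 (.br (nat_lit 12) (nat_lit 0) (.cons (.rf (nat_lit 151) (nat_lit 493858305440582043680)) (.cons (.rf (nat_lit 151) (nat_lit 493857210327004973057)) (.cons (.br (nat_lit 4) (nat_lit 0) (.cons (.ev (nat_lit 20282409603670189226718822138113) (nat_lit 1)) .nil)) .nil)))),
 (.br (nat_lit 4) (nat_lit 0) (.cons (.ev (nat_lit 4740885285641216131328) (nat_lit 1)) (.cons (.rf (nat_lit 152) (nat_lit 493858305440582043680)) (.cons (.br (nat_lit 6) (nat_lit 0) (.cons (.ev (nat_lit 20282409603670117450599744143361) (nat_lit 1)) .nil)) .nil)))),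
 (.br (nat_lit 3) (nat_lit 0) (.cons (.rf (nat_lit 147) (nat_lit 493858305440582011936)) (.cons (.rf (nat_lit 100) (nat_lit 13164380469594261536)) (.cons (.rf (nat_lit 147) (nat_lit 492740317619417058305)) (.cons (.br (nat_lit 6) (nat_lit 0) (.cons (.kr (nat_lit 72057594037927937) (nat_lit 281474993487872) (nat_lit 0) (nat_lit 1)) (.cons (.kr (nat_lit 72057594037928192) (nat_lit 281474993487872) (nat_lit 1) (nat_lit 0)) (.cons (.kr (nat_lit 1208926035787411288490496) (nat_lit 4722367046919143817216) (nat_lit 1) (nat_lit 0)) (.cons (.br (nat_lit 4) (nat_lit 0) (.cons (.br (nat_lit 12) (nat_lit 0) (.cons (.ev (nat_lit 20282410817318303548098564128768) (nat_lit 1)) .nil)) (.cons (.rf (nat_lit 72) (nat_lit 7399778444118133792)) (.cons (.rf (nat_lit 73) (nat_lit 7399778444118133792)) .nil)))) .nil))))) (.cons (.br (nat_lit 12) (nat_lit 0) (.cons (.rf (nat_lit 152) (nat_lit 493858305440582043680)) (.cons (.rf (nat_lit 153) (nat_lit 493858305440582043680)) (.cons (.rf (nat_lit 154) (nat_lit 493858305440582043680))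 (.cons (.br (nat_lit 12) (nat_lit 0) (.cons (.rf (nat_lit 152) (nat_lit 493858305440582043680)) (.cons (.rf (nat_lit 153) (nat_lit 493858305440582043680)) (.cons (.rf (nat_lit 154) (nat_lit 493858305440582043680)) .nil)))) .nil))))) .nil)))))),
 (.br (nat_lit 3) (nat_lit 0) (.cons (.rf (nat_lit 147) (nat_lit 493858305440582011936)) (.cons (.rf (nat_lit 150) (nat_lit 493858305440582043680)) (.cons (.rf (nat_lit 147) (nat_lit 492740317619417058305)) (.cons (.rf (nat_lit 155) (nat_lit 493858305440582043680)) (.cons (.br (nat_lit 4) (nat_lit 0) (.cons (.br (nat_lit 8) (nat_lit 0) (.cons (.ev (nat_lit 4740885285641216131328) (nat_lit 1)) (.cons (.ev (nat_lit 4740813226947666575361) (nat_lit 1)) (.cons (.ev (nat_lit 4740813509522138136833) (nat_lit 1)) .nil)))) (.cons (.br (nat_lit 13) (nat_lit 0) (.cons (.ev (nat_lit 20282409608410930960121882411266) (nat_lit 2)) (.cons (.ev (nat_lit 20282409603670189226718822138113) (nat_lit 1)) (.cons (.ev (nat_lit 20282409603670117168025272582144) (nat_lit 1)) .nil)))) (.cons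 (.br (nat_lit 6) (nat_lit 0) (.cons (.ev (nat_lit 4740885285641216131328) (nat_lit 1)) (.cons (.br (nat_lit 8) (nat_lit 0) (.cons (.ev (nat_lit 20282409603670189507094270443521) (nat_lit 1)) .nil)) (.cons (.br (nat_lit 8) (nat_lit 0) (.cons (.ev (nat_lit 20282409608411075073110935011586) (nat_lit 2)) .nil)) .nil)))) (.cons (.br (nat_lit 6) (nat_lit 0) (.cons (.ev (nat_lit 4740813226947666575361) (nat_lit 1)) (.cons (.br (nat_lit 8) (nat_lit 0) (.cons (.ev (nat_lit 20282409603670189507094270443521) (nat_lit 1)) .nil)) (.cons (.br (nat_lit 8) (nat_lit 0) (.cons (.ev (nat_lit 20282409608411075073110935011586) (nat_lit 2)) .nil)) .nil)))) (.cons (.br (nat_lit 6) (nat_lit 0) (.cons (.ev (nat_lit 4740813509522138136576) (nat_lit 1)) (.cons (.br (nat_lit 8) (nat_lit 0) (.cons (.ev (nat_lit 20282409603670189507094270443776) (nat_lit 1)) .nil)) (.cons (.br (nat_lit 8) (nat_lit 0) (.cons (.ev (nat_lit 20282409603670189507094270443776) (nat_lit 1)) .nil)) .nil)))) .nil)))))) .nil)))))),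
 (.br (nat_lit 3) (nat_lit 0) (.cons (.rf (nat_lit 147) (nat_lit 493858305440582011936)) (.cons (.rf (nat_lit 150) (nat_lit 493858305440582043680)) (.cons (.rf (nat_lit 147) (nat_lit 492740317619417058305)) (.cons (.rf (nat_lit 155) (nat_lit 493858305440582043680)) (.cons (.rf (nat_lit 156) (nat_lit 493858305440582043680)) (.cons (.br (nat_lit 3) (nat_lit 0) (.cons (.rf (nat_lit 147) (nat_lit 493858305440582011936)) (.cons (.rf (nat_lit 150) (nat_lit 493858305440582043680)) (.cons (.rf (nat_lit 147) (nat_lit 492740317619417058305)) (.cons (.rf (nat_lit 155) (nat_lit 493858305440582043680)) (.cons (.rf (nat_lit 156) (nat_lit 493858305440582043680)) .nil)))))) .nil))))))),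
 (.br (nat_lit 8) (nat_lit 0) (.cons (.ev (nat_lit 20282409603670117450599760920576) (nat_lit 1)) .nil)),
 (.br (nat_lit 8) (nat_lit 0) (.cons (.ev (nat_lit 20282409603670117450599760920576) (nat_lit 1)) .nil)),
 (.br (nat_lit 6) (nat_lit 0) (.cons (.ev (nat_lit 4740885566016664436993) (nat_lit 1)) (.cons (.rf (nat_lit 158) (nat_lit 493858305440582043680)) (.cons (.rf (nat_lit 159) (nat_lit 493858305440582043680)) .nil)))),
 (.br (nat_lit 4) (nat_lit 0) (.cons (.ev (nat_lit 20282409603670189507094287220736) (nat_lit 1)) (.cons (.br (nat_lit 8) (nat_lit 0) (.cons (.ev (nat_lit 20282409603670117450599760920576) (nat_lit 1)) .nil)) (.cons (.rf (nat_lit 159) (nat_lit 493858305440582043680)) .nil)))),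
 (.br (nat_lit 6) (nat_lit 0) (.cons (.ev (nat_lit 4740885566016664436736) (nat_lit 1)) (.cons (.rf (nat_lit 158) (nat_lit 493857210327004973057)) (.cons (.rf (nat_lit 159) (nat_lit 493857210327004973057)) .nil)))),
 (.br (nat_lit 3) (nat_lit 0) (.cons (.rf (nat_lit 147) (nat_lit 493858305440582011936)) (.cons (.rf (nat_lit 157) (nat_lit 493858305440582011936)) (.cons (.rf (nat_lit 147) (nat_lit 492740317619417058305)) (.cons (.br (nat_lit 6) (nat_lit 0) (.cons (.kr (nat_lit 72057594037927937) (nat_lit 281474993487872) (nat_lit 0) (nat_lit 1)) (.cons (.kr (nat_lit 72057594037928192) (nat_lit 281474993487872) (nat_lit 1) (nat_lit 0)) (.cons (.kr (nat_lit 4722582655651758997506) (nat_lit 1208925820178678673309696) (nat_lit 0) (nat_lit 1)) (.cons (.kr (nat_lit 1208926035787411288490496) (nat_lit 4722367046919143817216) (nat_lit 1) (nat_lit 0)) (.cons (.br (nat_lit 4) (nat_lit 0) (.cons (.ev (nat_lit 20282409603670117168025255870464) (nat_lit 1)) (.cons (.br (nat_lit 8) (nat_lit 0) (.cons (.ev (nat_lit 20282410817318303265524075790336)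 (nat_lit 1)) .nil)) (.cons (.br (nat_lit 8) (nat_lit 0) (.cons (.ev (nat_lit 20282410817318303265524075790336) (nat_lit 1)) .nil)) .nil)))) .nil)))))) (.cons (.br (nat_lit 12) (nat_lit 0) (.cons (.rf (nat_lit 160) (nat_lit 493858305440582043680)) (.cons (.rf (nat_lit 161) (nat_lit 493858305440582043680)) (.cons (.rf (nat_lit 162) (nat_lit 493858305440582043680)) (.cons (.br (nat_lit 12) (nat_lit 0) (.cons (.rf (nat_lit 160) (nat_lit 493858305440582043680)) (.cons (.rf (nat_lit 161) (nat_lit 493858305440582043680)) (.cons (.rf (nat_lit 162) (nat_lit 493858305440582043680)) .nil)))) .nil))))) .nil)))))),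
 (.br (nat_lit 2) (nat_lit 0) (.cons (.rf (nat_lit 120) (nat_lit 493858305440582042688)) (.cons (.rf (nat_lit 147) (nat_lit 493858305440582043680)) (.cons (.rf (nat_lit 147) (nat_lit 492740317619417090049)) (.cons (.rf (nat_lit 157) (nat_lit 493858305440582043680)) (.cons (.rf (nat_lit 157) (nat_lit 492740317619417090049)) (.cons (.br (nat_lit 3) (nat_lit 0) (.cons (.rf (nat_lit 147) (nat_lit 493858305440582011936)) (.cons (.br (nat_lit 3) (nat_lit 0) (.cons (.rf (nat_lit 147) (nat_lit 493858305440582011936)) (.cons (.rf (nat_lit 147) (nat_lit 492740317619417058305)) (.cons (.rf (nat_lit 157) (nat_lit 493858305440582011936)) (.cons (.rf (nat_lit 157) (nat_lit 492740317619417058305)) (.cons (.kr (nat_lit 40564819207303412906588052127744) (nat_lit 1213648186660448773341184) (nat_lit 5) (nat_lit 0)) .nil)))))) (.cons (.rf (nat_lit 147) (nat_lit 492740317619417058305)) (.cons (.rf (nat_lit 163) (nat_lit 493858305440582043680)) (.cons (.rf (nat_lit 163) (nat_lit 492740317619417090049)) (.cons (.br (nat_lit 3)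 (nat_lit 0) (.cons (.rf (nat_lit 147) (nat_lit 493858305440582011936)) (.cons (.kr (nat_lit 40564819207303412906588052127744) (nat_lit 1213648186660448773341184) (nat_lit 5) (nat_lit 0)) (.cons (.rf (nat_lit 147) (nat_lit 492740317619417058305)) (.cons (.rf (nat_lit 163) (nat_lit 493858305440582043680)) (.cons (.rf (nat_lit 163) (nat_lit 492740317619417090049)) .nil)))))) .nil))))))) .nil))))))),
 (.br (nat_lit 3) (nat_lit 0) (.cons (.rf (nat_lit 147) (nat_lit 493858305440582011936)) (.cons (.rf (nat_lit 164) (nat_lit 493858305440582011936)) (.cons (.rf (nat_lit 147) (nat_lit 492740317619417058305)) (.cons (.rf (nat_lit 100) (nat_lit 14310552072318191648)) (.cons (.br (nat_lit 13) (nat_lit 0) (.cons (.kr (nat_lit 1213648258155092857847810) (nat_lit 40564819207303340848994014330880) (nat_lit 0) (nat_lit 1)) (.cons (.br (nat_lit 4) (nat_lit 0) (.cons (.br (nat_lit 8) (nat_lit 0) (.cons (.ev (nat_lit 20282410817318303265524092502016) (nat_lit 1)) .nil)) (.cons (.ev (nat_lit 4740885285641216131073) (nat_lit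 1)) (.cons (.br (nat_lit 6) (nat_lit 0) (.cons (.ev (nat_lit 20282410817318303265524092502016) (nat_lit 1)) .nil)) .nil)))) (.cons (.kr (nat_lit 1213648258155092857848320) (nat_lit 40564819207303340848994014330880) (nat_lit 1) (nat_lit 0)) (.cons (.kr (nat_lit 1208925891672223212634368) (nat_lit 20282409603651670425046762979328) (nat_lit 1) (nat_lit 0)) .nil))))) .nil)))))),
 (.br (nat_lit 3) (nat_lit 0) (.cons (.rf (nat_lit 147) (nat_lit 493858305440582011936)) (.cons (.rf (nat_lit 164) (nat_lit 493858305440582011936)) (.cons (.rf (nat_lit 147) (nat_lit 492740317619417058305)) (.cons (.rf (nat_lit 165) (nat_lit 493858305440582043680)) (.cons (.rf (nat_lit 165) (nat_lit 492740317619417090049)) (.cons (.br (nat_lit 3) (nat_lit 0) (.cons (.rf (nat_lit 147) (nat_lit 493858305440582011936)) (.cons (.rf (nat_lit 164) (nat_lit 493858305440582011936)) (.cons (.rf (nat_lit 147) (nat_lit 492740317619417058305)) (.cons (.rf (nat_lit 165) (nat_lit 493858305440582043680)) (.cons (.rf (nat_lit 165) (nat_lit 492740317619417090049))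 .nil)))))) .nil))))))),
 (.br (nat_lit 6) (nat_lit 0) (.cons (.ev (nat_lit 40564820421025385986996060947460) (nat_lit 3)) (.cons (.kr (nat_lit 4722438541563194769410) (nat_lit 1208925820177579128128000) (nat_lit 0) (nat_lit 2)) (.cons (.kr (nat_lit 1208925891673322724261888) (nat_lit 4722367045819598635008) (nat_lit 5) (nat_lit 0)) .nil)))),
 (.br (nat_lit 3) (nat_lit 0) (.cons (.kr (nat_lit 4722438540463683141634) (nat_lit 1208925819615728686465024) (nat_lit 0) (nat_lit 1)) (.cons (.rf (nat_lit 147) (nat_lit 493858305440582011936)) (.cons (.rf (nat_lit 164) (nat_lit 493858305440582011936)) (.cons (.rf (nat_lit 147) (nat_lit 492740317619417058305)) (.cons (.br (nat_lit 2) (nat_lit 0) (.cons (.rf (nat_lit 147) (nat_lit 493858305440582043680)) (.cons (.rf (nat_lit 164) (nat_lit 493858305440582043680)) (.cons (.rf (nat_lit 147) (nat_lit 492740317619417090049)) (.cons (.rf (nat_lit 166) (nat_lit 493858305440582043680)) (.cons (.br (nat_lit 4) (nat_lit 0) (.cons (.br (nat_lit 6) (nat_lit 0) (.cons (.ev (nat_lit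 121694458854521965953230737376770) (nat_lit 3)) (.cons (.kr (nat_lit 1208925891673322724261888) (nat_lit 4722367045819598635008) (nat_lit 5) (nat_lit 0)) .nil))) (.cons (.ev (nat_lit 121694458854521965953230737375750) (nat_lit 3)) (.cons (.br (nat_lit 8) (nat_lit 0) (.cons (.br (nat_lit 6) (nat_lit 0) (.cons (.zr (nat_lit 14167100011558889062658) (nat_lit 20361947251194202850687541379072) (nat_lit 5) (nat_lit 8)) .nil)) (.cons (.ev (nat_lit 121694458854521965953230737376770) (nat_lit 3)) .nil))) .nil)))) .nil)))))) (.cons (.br (nat_lit 2) (nat_lit 0) (.cons (.rf (nat_lit 147) (nat_lit 493858305440582043680)) (.cons (.rf (nat_lit 164) (nat_lit 493858305440582043680)) (.cons (.rf (nat_lit 147) (nat_lit 492740317619417090049)) (.cons (.rf (nat_lit 166) (nat_lit 493858305440582043680)) (.cons (.br (nat_lit 4) (nat_lit 0) (.cons (.rf (nat_lit 167) (nat_lit 493858305440582043680)) (.cons (.ev (nat_lit 40564820421025385986996060946432) (nat_lit 3)) (.cons (.br (nat_lit 8) (nat_lit 0) (.cons (.rf (nat_lit 167)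 (nat_lit 492740317619417058305)) (.cons (.ev (nat_lit 40564820421025674212974166147072) (nat_lit 3)) .nil))) (.cons (.br (nat_lit 8) (nat_lit 0) (.cons (.rf (nat_lit 167) (nat_lit 492740317619417058305)) (.cons (.ev (nat_lit 40564820421025674212974166147072) (nat_lit 3)) .nil))) .nil))))) .nil)))))) .nil))))))),
 (.br (nat_lit 2) (nat_lit 0) (.cons (.kr (nat_lit 4722438540463683141634) (nat_lit 1208925819615728686465024) (nat_lit 0) (nat_lit 1)) (.cons (.rf (nat_lit 147) (nat_lit 493858305440582043680)) (.cons (.rf (nat_lit 164) (nat_lit 493858305440582043680)) (.cons (.rf (nat_lit 147) (nat_lit 492740317619417090049)) (.cons (.rf (nat_lit 166) (nat_lit 493858305440582043680)) (.cons (.br (nat_lit 3) (nat_lit 0) (.cons (.rf (nat_lit 147) (nat_lit 493858305440582011936)) (.cons (.rf (nat_lit 164) (nat_lit 493858305440582011936)) (.cons (.rf (nat_lit 147) (nat_lit 492740317619417058305)) (.cons (.rf (nat_lit 168) (nat_lit 493858305440582011936)) (.cons (.rf (nat_lit 168) (nat_lit 492740317619417058305)) (.cons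 (.rf (nat_lit 168) (nat_lit 493858305440582043680)) .nil))))))) .nil))))))),
 (.br (nat_lit 2) (nat_lit 0) (.cons (.br (nat_lit 2) (nat_lit 0) (.cons (.kr (nat_lit 1) (nat_lit 65536) (nat_lit 0) (nat_lit 1)) (.cons (.rf (nat_lit 120) (nat_lit 493858305440582042688)) (.cons (.kr (nat_lit 256) (nat_lit 65536) (nat_lit 1) (nat_lit 0)) (.cons (.kr (nat_lit 4722438540463683141634) (nat_lit 1208925819615728686465024) (nat_lit 0) (nat_lit 1)) (.cons (.kr (nat_lit 1208925891672223212634624) (nat_lit 4722366483969156972544) (nat_lit 1) (nat_lit 0)) (.cons (.rf (nat_lit 120) (nat_lit 230986506996392494144)) .nil))))))) (.cons (.rf (nat_lit 147) (nat_lit 493858305440582043680)) (.cons (.rf (nat_lit 164) (nat_lit 493858305440582043680)) (.cons (.rf (nat_lit 147) (nat_lit 492740317619417090049)) (.cons (.rf (nat_lit 169) (nat_lit 493858305440582043680)) (.cons (.rf (nat_lit 169) (nat_lit 492740317619417090049)) (.cons (.br (nat_lit 2) (nat_lit 0) (.cons (.rf (nat_lit 120) (nat_lit 230986506996392494144)) (.cons (.rf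 (nat_lit 147) (nat_lit 493858305440582043680)) (.cons (.rf (nat_lit 164) (nat_lit 493858305440582043680)) (.cons (.rf (nat_lit 147) (nat_lit 492740317619417090049)) (.cons (.rf (nat_lit 169) (nat_lit 493858305440582043680)) (.cons (.rf (nat_lit 169) (nat_lit 492740317619417090049)) .nil))))))) .nil))))))))]

theorem c6 : chkAll C T R L6 (nat_lit 148) = true := by decide +kernel

theorem l6 : (nat_lit 148) + L6.length = (nat_lit 171) := by decide +kernel

/-- part of the certificates -/
def L7 : List Prf := [(.br (nat_lit 1) (nat_lit 0) (.cons (.kr (nat_lit 1) (nat_lit 256) (nat_lit 0) (nat_lit 2)) (.cons (.rf (nat_lit 120) (nat_lit 493858305440582043680)) (.cons (.rf (nat_lit 170) (nat_lit 493858305440582043680)) (.cons (.kr (nat_lit 4722438540463683141634) (nat_lit 1208925819615728686334464) (nat_lit 0) (nat_lit 2)) (.cons (.rf (nat_lit 170) (nat_lit 230986506996392495136)) (.cons (.rf (nat_lit 120) (nat_lit 230986506996392495136)) .nil))))))),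
 (.br (nat_lit 8) (nat_lit 0) (.cons (.ev (nat_lit 79228162514264338697350610944) (nat_lit 1)) (.cons (.br (nat_lit 12) (nat_lit 0) (.cons (.ev (nat_lit 20282409603670189507094270443776) (nat_lit 1)) .nil)) .nil))),
 (.br (nat_lit 2) (nat_lit 0) (.cons (.ev (nat_lit 309485009821346172531441664) (nat_lit 1)) (.cons (.br (nat_lit 11) (nat_lit 0) (.cons (.ev (nat_lit 309485009893685241546080513) (nat_lit 1)) .nil)) .nil))),
 (.br (nat_lit 11) (nat_lit 0) (.cons (.ev (nat_lit 79228162514336395191893688576) (nat_lit 1)) .nil)),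
 (.br (nat_lit 8) (nat_lit 0) (.cons (.rf (nat_lit 174) (nat_lit 15433072043909810208)) (.cons (.ev (nat_lit 1208944266641281667563776) (nat_lit 1)) (.cons (.br (nat_lit 11) (nat_lit 0) (.cons (.ev (nat_lit 20361638975091754657649258397696) (nat_lit 1)) .nil)) .nil)))),
 (.br (nat_lit 11) (nat_lit 0) (.cons (.ev (nat_lit 309485009893685241546080256) (nat_lit 1)) (.cons (.ev (nat_lit 309485009893685241546080513) (nat_lit 1)) .nil))),
 (.br (nat_lit 2) (nat_lit 0) (.cons (.rf (nat_lit 176) (nat_lit 15433070910038444064)) (.cons (.rf (nat_lit 175) (nat_lit 493858305440582043680)) (.cons (.kr (nat_lit 4722366482869645279233) (nat_lit 20282409603651670423947268063488) (nat_lit 0) (nat_lit 4)) .nil)))),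
 (.br (nat_lit 1) (nat_lit 0) (.cons (.br (nat_lit 13) (nat_lit 0) (.cons (.ev (nat_lit 4740813226947666575616) (nat_lit 1)) (.cons (.br (nat_lit 13) (nat_lit 0) (.cons (.ev (nat_lit 4740813226947666575616) (nat_lit 1)) (.cons (.kr (nat_lit 40564819207303340848994014199808) (nat_lit 1213648258155092857847808) (nat_lit 5) (nat_lit 0)) .nil))) (.cons (.br (nat_lit 13) (nat_lit 0) (.cons (.ev (nat_lit 4740813226947666575616) (nat_lit 1)) (.cons (.kr (nat_lit 40564819207303340848994014199808) (nat_lit 1213648258155092857847808) (nat_lit 5) (nat_lit 0)) .nil))) .nil)))) (.cons (.br (nat_lit 12) (nat_lit 0) (.cons (.rf (nat_lit 172) (nat_lit 493858305440582043680)) (.cons (.rf (nat_lit 173) (nat_lit 445091350149433376)) (.cons (.br (nat_lit 12) (nat_lit 0) (.cons (.rf (nat_lit 172) (nat_lit 493858305440582043680)) (.cons (.rf (nat_lit 173) (nat_lit 445091350149433376)) .nil))) .nil)))) (.cons (.br (nat_lit 12) (nat_lit 0) (.cons (.ev (nat_lit 79229376162450716571652325376) (nat_lit 1)) (.cons (.br (nat_lit 13)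 (nat_lit 0) (.cons (.br (nat_lit 11) (nat_lit 0) (.cons (.ev (nat_lit 20361638975091754657649258397696) (nat_lit 1)) .nil)) (.cons (.br (nat_lit 2) (nat_lit 0) (.cons (.ev (nat_lit 20361638975091754657649258397696) (nat_lit 1)) .nil)) .nil))) (.cons (.ev (nat_lit 79229376162522492690713542913) (nat_lit 1)) (.cons (.br (nat_lit 13) (nat_lit 0) (.cons (.kr (nat_lit 40564819207303412906588052127746) (nat_lit 1213648186660448773341696) (nat_lit 0) (nat_lit 2)) (.cons (.ev (nat_lit 4740885566016664371456) (nat_lit 1)) (.cons (.kr (nat_lit 40564819207303340848994014199808) (nat_lit 1213648258155092857847808) (nat_lit 5) (nat_lit 0)) .nil)))) .nil))))) (.cons (.br (nat_lit 12) (nat_lit 0) (.cons (.rf (nat_lit 175) (nat_lit 493858305440582043680)) (.cons (.ev (nat_lit 4740885566016664371456) (nat_lit 1)) (.cons (.rf (nat_lit 177) (nat_lit 493858305440582043680)) (.cons (.br (nat_lit 12) (nat_lit 0) (.cons (.rf (nat_lit 175) (nat_lit 493858305440582043680)) (.cons (.ev (nat_lit 4740885566016664371456) (nat_lit 1))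 (.cons (.rf (nat_lit 177) (nat_lit 493858305440582043680)) .nil)))) .nil))))) .nil))))),
 (.br (nat_lit 1) (nat_lit 0) (.cons (.kr (nat_lit 4722366482869645213952) (nat_lit 1208925819614629174771712) (nat_lit 1) (nat_lit 0)) (.cons (.ev (nat_lit 1208944266641281667563776) (nat_lit 1)) .nil))),
 (.br (nat_lit 1) (nat_lit 0) (.cons (.kr (nat_lit 1) (nat_lit 256) (nat_lit 0) (nat_lit 2)) (.cons (.ev (nat_lit 1213685080150803805831936) (nat_lit 2)) (.cons (.ev (nat_lit 1208944266641281667563776) (nat_lit 1)) (.cons (.ev (nat_lit 1208944266358707179290881) (nat_lit 1)) .nil))))),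
 (.br (nat_lit 1) (nat_lit 0) (.cons (.kr (nat_lit 1) (nat_lit 256) (nat_lit 0) (nat_lit 2)) (.cons (.kr (nat_lit 72057594037927937) (nat_lit 281474976710912) (nat_lit 0) (nat_lit 2)) (.cons (.ev (nat_lit 1208944266358707179290881) (nat_lit 1)) (.cons (.ev (nat_lit 1208944266641281667563776) (nat_lit 1)) .nil))))),
 (.br (nat_lit 2) (nat_lit 0) (.cons (.rf (nat_lit 178) (nat_lit 493858305440582043680)) (.cons (.br (nat_lit 12) (nat_lit 0) (.cons (.kr (nat_lit 4722366482869645213952) (nat_lit 1208925819614629174771712) (nat_lit 1) (nat_lit 0)) (.cons (.rf (nat_lit 179) (nat_lit 493858305440582043680)) (.cons (.br (nat_lit 12) (nat_lit 0) (.cons (.kr (nat_lit 4722366482869645213952) (nat_lit 1208925819614629174771712) (nat_lit 1) (nat_lit 0)) (.cons (.rf (nat_lit 179) (nat_lit 493858305440582043680)) .nil))) .nil)))) (.cons (.br (nat_lit 13) (nat_lit 0) (.cons (.ev (nat_lit 4740885285641199354113) (nat_lit 1)) (.cons (.rf (nat_lit 180) (nat_lit 493858305440582043680)) (.cons (.br (nat_lit 13) (nat_lit 0)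 (.cons (.ev (nat_lit 4740885285641199354113) (nat_lit 1)) (.cons (.rf (nat_lit 180) (nat_lit 493858305440582043680)) (.cons (.kr (nat_lit 40564819207303340848994014199808) (nat_lit 1213648258155092857847808) (nat_lit 5) (nat_lit 0)) .nil)))) (.cons (.br (nat_lit 13) (nat_lit 0) (.cons (.ev (nat_lit 4740885285641199354113) (nat_lit 1)) (.cons (.rf (nat_lit 180) (nat_lit 493858305440582043680)) (.cons (.kr (nat_lit 40564819207303340848994014199808) (nat_lit 1213648258155092857847808) (nat_lit 5) (nat_lit 0)) .nil)))) .nil))))) (.cons (.br (nat_lit 6) (nat_lit 0) (.cons (.br (nat_lit 12) (nat_lit 0) (.cons (.br (nat_lit 12) (nat_lit 0) (.cons (.zr (nat_lit 79230580384351155350583377925) (nat_lit 618974742081231709234398208) (nat_lit 10) (nat_lit 3)) .nil)) (.cons (.br (nat_lit 11) (nat_lit 0) (.cons (.zr (nat_lit 79230580384351155350583377925) (nat_lit 618974742081231709234398208) (nat_lit 10) (nat_lit 3)) .nil)) .nil))) (.cons (.ev (nat_lit 4740813509522138136576) (nat_lit 1)) (.cons (.rf (nat_lit 181) (nat_lit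 493858305440582043680)) (.cons (.ev (nat_lit 1213685296605060896325635) (nat_lit 2)) .nil))))) .nil))))),
 (.br (nat_lit 13) (nat_lit 0) (.cons (.ev (nat_lit 4740813509522154848513) (nat_lit 1)) (.cons (.br (nat_lit 8) (nat_lit 0) (.cons (.ev (nat_lit 4740813509522154848513) (nat_lit 1)) .nil)) .nil))),
 (.br (nat_lit 7) (nat_lit 0) (.cons (.ev (nat_lit 79228162514336395191893688576) (nat_lit 1)) .nil)),
 (.br (nat_lit 6) (nat_lit 0) (.cons (.rf (nat_lit 174) (nat_lit 15427442549744306208)) (.cons (.ev (nat_lit 79228162514264619072815628289) (nat_lit 1)) (.cons (.rf (nat_lit 184) (nat_lit 15433072043909810208)) .nil)))),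
 (.br (nat_lit 2) (nat_lit 0) (.cons (.rf (nat_lit 178) (nat_lit 493858305440582043680)) (.cons (.rf (nat_lit 182) (nat_lit 493858305440582043680)) (.cons (.br (nat_lit 1) (nat_lit 0) (.cons (.rf (nat_lit 183) (nat_lit 493858305440582043680)) (.cons (.kr (nat_lit 72057594037928192) (nat_lit 1099511693312) (nat_lit 1) (nat_lit 0)) (.cons (.kr (nat_lit 4722438540463683142144) (nat_lit 1208925819615728686465024) (nat_lit 1) (nat_lit 0)) (.cons (.rf (nat_lit 185) (nat_lit 493858305440582043680)) .nil))))) (.cons (.br (nat_lit 1) (nat_lit 0) (.cons (.br (nat_lit 8) (nat_lit 0) (.cons (.br (nat_lit 12) (nat_lit 0) (.cons (.ev (nat_lit 20361637766221492012077119832579) (nat_lit 2)) .nil)) (.cons (.ev (nat_lit 4740813509522154848513) (nat_lit 1)) .nil))) (.cons (.br (nat_lit 12) (nat_lit 0) (.cons (.br (nat_lit 12) (nat_lit 0) (.cons (.ev (nat_lit 20361638975091826433768302903296) (nat_lit 1)) .nil)) (.cons (.br (nat_lit 6) (nat_lit 0) (.cons (.ev (nat_lit 20361638975091826433768302903296) (nat_lit 1)) .nil)) .nil)))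 (.cons (.rf (nat_lit 185) (nat_lit 458117666300869314592)) (.cons (.kr (nat_lit 4722438540463683142144) (nat_lit 1208925819615728686465024) (nat_lit 1) (nat_lit 0)) .nil))))) .nil))))),
 (.br (nat_lit 2) (nat_lit 0) (.cons (.rf (nat_lit 178) (nat_lit 493858305440582043680)) (.cons (.rf (nat_lit 182) (nat_lit 493858305440582043680)) (.cons (.rf (nat_lit 186) (nat_lit 493858305440582043680)) (.cons (.br (nat_lit 6) (nat_lit 0) (.cons (.br (nat_lit 8) (nat_lit 0) (.cons (.br (nat_lit 12) (nat_lit 0) (.cons (.zr (nat_lit 79230580384351155350583377925) (nat_lit 618974742081231709234398208) (nat_lit 10) (nat_lit 3)) .nil)) (.cons (.br (nat_lit 11) (nat_lit 0) (.cons (.ev (nat_lit 20361638975091754657649258397696) (nat_lit 1)) .nil)) (.cons (.ev (nat_lit 4740813509522154848513) (nat_lit 1)) .nil)))) (.cons (.br (nat_lit 1) (nat_lit 0) (.cons (.kr (nat_lit 4722438541563194769410) (nat_lit 1208925820177579128128000) (nat_lit 0) (nat_lit 2)) (.cons (.br (nat_lit 11) (nat_lit 0) (.cons (.ev (nat_lit 20361638975091754657649258397696)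 (nat_lit 1)) .nil)) (.cons (.br (nat_lit 11) (nat_lit 0) (.cons (.ev (nat_lit 20361638975091754657649258397696) (nat_lit 1)) .nil)) .nil)))) (.cons (.br (nat_lit 1) (nat_lit 0) (.cons (.kr (nat_lit 4722438541563194769410) (nat_lit 1208925820177579128128000) (nat_lit 0) (nat_lit 2)) (.cons (.kr (nat_lit 72057594037927937) (nat_lit 281474976710912) (nat_lit 0) (nat_lit 2)) (.cons (.br (nat_lit 8) (nat_lit 0) (.cons (.ev (nat_lit 20361638975091754657649258397696) (nat_lit 1)) .nil)) .nil)))) (.cons (.ev (nat_lit 79228162514264619072815628289) (nat_lit 1)) (.cons (.br (nat_lit 1) (nat_lit 0) (.cons (.kr (nat_lit 4722366486168180228098) (nat_lit 1208925892235173166056448) (nat_lit 0) (nat_lit 3)) (.cons (.br (nat_lit 8) (nat_lit 0) (.cons (.ev (nat_lit 20361637766221275838195443957762) (nat_lit 2)) .nil)) (.cons (.kr (nat_lit 1208925891673322724392962) (nat_lit 4722367045819598636032) (nat_lit 0) (nat_lit 3)) .nil)))) .nil)))))) .nil))))),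
 (.br (nat_lit 2) (nat_lit 0) (.cons (.br (nat_lit 11) (nat_lit 0) (.cons (.ev (nat_lit 79228162514264619072832471041) (nat_lit 1)) (.cons (.br (nat_lit 12) (nat_lit 0) (.cons (.zr (nat_lit 1213648258157291881103364) (nat_lit 79537647542532708215266803968) (nat_lit 5) (nat_lit 4)) .nil)) .nil))) (.cons (.ev (nat_lit 79229376162522492690696831233) (nat_lit 1)) (.cons (.br (nat_lit 12) (nat_lit 0) (.cons (.ev (nat_lit 79228167292115449355977293826) (nat_lit 2)) (.cons (.ev (nat_lit 79228162514264619072832471041) (nat_lit 1)) .nil))) .nil)))),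
 (.br (nat_lit 2) (nat_lit 0) (.cons (.rf (nat_lit 188) (nat_lit 493858305440582043680)) (.cons (.br (nat_lit 13) (nat_lit 0) (.cons (.ev (nat_lit 792282895496481623464632780800) (nat_lit 4)) (.cons (.br (nat_lit 8) (nat_lit 0) (.cons (.ev (nat_lit 792282895496481623464632780800) (nat_lit 4)) .nil)) .nil))) (.cons (.br (nat_lit 13) (nat_lit 0) (.cons (.ev (nat_lit 20282410817318375324217625280513) (nat_lit 1)) (.cons (.br (nat_lit 8) (nat_lit 0) (.cons (.ev (nat_lit 121694458854521534175014509872640) (nat_lit 3)) .nil)) (.cons (.ev (nat_lit 20361637770888301245514247110913) (nat_lit 1)) .nil)))) .nil)))),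
 (.br (nat_lit 2) (nat_lit 0) (.cons (.ev (nat_lit 79229376162522492690696831233) (nat_lit 1)) (.cons (.rf (nat_lit 189) (nat_lit 493858305440582043680)) (.cons (.br (nat_lit 13) (nat_lit 0) (.cons (.ev (nat_lit 20282410817318375324217625280513) (nat_lit 1)) (.cons (.ev (nat_lit 40881733089898122848906795549184) (nat_lit 3)) .nil))) .nil)))),
 (.br (nat_lit 2) (nat_lit 0) (.cons (.br (nat_lit 13) (nat_lit 0) (.cons (.br (nat_lit 12) (nat_lit 0) (.cons (.zr (nat_lit 1213648259280992764691456) (nat_lit 79537647542532430038824976385) (nat_lit 5) (nat_lit 2)) .nil)) (.cons (.br (nat_lit 11) (nat_lit 0) (.cons (.zr (nat_lit 1213648259280992764691456) (nat_lit 79537647542532430038824976385) (nat_lit 5) (nat_lit 2)) .nil)) .nil))) (.cons (.kr (nat_lit 72057594037928192) (nat_lit 1099511693312) (nat_lit 1) (nat_lit 0)) (.cons (.br (nat_lit 6) (nat_lit 0) (.cons (.kr (nat_lit 4722438541563194769410) (nat_lit 1208925820177579128128000) (nat_lit 0) (nat_lit 2)) (.cons (.br (nat_lit 11) (nat_lit 0) (.cons (.ev (nat_lit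 20361637770888301525889712128256) (nat_lit 1)) .nil)) (.cons (.br (nat_lit 11) (nat_lit 0) (.cons (.ev (nat_lit 20361637770888373584583261749248) (nat_lit 1)) .nil)) .nil)))) .nil)))),
 (.br (nat_lit 11) (nat_lit 0) (.cons (.rf (nat_lit 191) (nat_lit 493858305440582043680)) (.cons (.kr (nat_lit 4722438541563194769410) (nat_lit 1208925820177579128128000) (nat_lit 0) (nat_lit 2)) (.cons (.br (nat_lit 2) (nat_lit 0) (.cons (.br (nat_lit 2) (nat_lit 0) (.cons (.ev (nat_lit 20282409603670189507094287286273) (nat_lit 1)) .nil)) (.cons (.br (nat_lit 2) (nat_lit 0) (.cons (.ev (nat_lit 20282409603670189507094287286273) (nat_lit 1)) .nil)) .nil))) .nil)))),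
 (.br (nat_lit 7) (nat_lit 0) (.cons (.ev (nat_lit 79228162514336395191876845569) (nat_lit 1)) .nil)),
 (.br (nat_lit 2) (nat_lit 0) (.cons (.ev (nat_lit 1208944338697776193929216) (nat_lit 1)) (.cons (.br (nat_lit 8) (nat_lit 0) (.cons (.ev (nat_lit 20361638975091754377273776537601) (nat_lit 1)) .nil)) (.cons (.br (nat_lit 8) (nat_lit 0) (.cons (.ev (nat_lit 20361638975091754377273776537601) (nat_lit 1)) .nil)) .nil)))),
 (.br (nat_lit 2) (nat_lit 0) (.cons (.ev (nat_lit 1213685080150803805831936) (nat_lit 2)) (.cons (.rf (nat_lit 194) (nat_lit 493858305440582043680)) (.cons (.br (nat_lit 8) (nat_lit 0) (.cons (.ev (nat_lit 40723276774425007606100245348870) (nat_lit 3)) .nil)) .nil)))),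
 (.br (nat_lit 11) (nat_lit 0) (.cons (.ev (nat_lit 79228162514336395191893688576) (nat_lit 1)) .nil)),
 (.br (nat_lit 10) (nat_lit 0) (.cons (.ev (nat_lit 79228162514336395191893688576) (nat_lit 1)) .nil)),
 (.br (nat_lit 12) (nat_lit 0) (.cons (.ev (nat_lit 79229376162522492690713542656) (nat_lit 1)) (.cons (.ev (nat_lit 20361641397721317058458790395905) (nat_lit 2)) (.cons (.ev (nat_lit 20361638975091826433768319614976) (nat_lit 1)) .nil)))),
 (.br (nat_lit 8) (nat_lit 0) (.cons (.br (nat_lit 12) (nat_lit 0) (.cons (.ev (nat_lit 79229376162450716571635613696) (nat_lit 1)) (.cons (.ev (nat_lit 121694458854521679418301582803968) (nat_lit 3)) .nil))) (.cons (.br (nat_lit 2) (nat_lit 0) (.cons (.rf (nat_lit 196) (nat_lit 15433072043909810208)) (.cons (.rf (nat_lit 197) (nat_lit 15433072043909810208)) (.cons (.ev (nat_lit 20282409603670189507094287286273) (nat_lit 1)) .nil)))) (.cons (.ev (nat_lit 4740885566016664371456) (nat_lit 1)) (.cons (.rf (nat_lit 198) (nat_lit 493858305440582043680)) .nil))))),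
 (.br (nat_lit 6) (nat_lit 0) (.cons (.kr (nat_lit 4722438540463683141633) (nat_lit 1208925819896104151482368) (nat_lit 0) (nat_lit 1)) (.cons (.ev (nat_lit 4740885566016664371456) (nat_lit 1)) (.cons (.ev (nat_lit 4740813509522138136576) (nat_lit 1)) .nil)))),
 (.br (nat_lit 2) (nat_lit 0) (.cons (.rf (nat_lit 199) (nat_lit 493858305440582043680)) (.cons (.rf (nat_lit 200) (nat_lit 493858305440582043680)) (.cons (.ev (nat_lit 4740885285641199354113) (nat_lit 1)) (.cons (.br (nat_lit 6) (nat_lit 0) (.cons (.ev (nat_lit 4740813509522138136576) (nat_lit 1)) (.cons (.ev (nat_lit 4740885566016664371456) (nat_lit 1)) .nil))) .nil))))),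
 (.br (nat_lit 2) (nat_lit 0) (.cons (.rf (nat_lit 199) (nat_lit 493858305440582043680)) (.cons (.rf (nat_lit 200) (nat_lit 493858305440582043680)) (.cons (.br (nat_lit 6) (nat_lit 0) (.cons (.rf (nat_lit 174) (nat_lit 15391413753799084064)) (.cons (.kr (nat_lit 4722582655651758997506) (nat_lit 1208925820178678639886336) (nat_lit 0) (nat_lit 1)) (.cons (.rf (nat_lit 184) (nat_lit 15398169146797688864)) .nil)))) (.cons (.kr (nat_lit 4722438540463683142144) (nat_lit 1208925819615728686465024) (nat_lit 1) (nat_lit 0)) .nil))))),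
 (.br (nat_lit 12) (nat_lit 0) (.cons (.br (nat_lit 12) (nat_lit 0) (.cons (.zr (nat_lit 1213648258157291881103363) (nat_lit 79537647542532708215266803712) (nat_lit 5) (nat_lit 4)) .nil)) (.cons (.kr (nat_lit 1213648258155092857847810) (nat_lit 40564819207303340848994014200320) (nat_lit 0) (nat_lit 2)) .nil)))]

theorem c7 : chkAll C T R L7 (nat_lit 171) = true := by decide +kernel

theorem l7 : (nat_lit 171) + L7.length = (nat_lit 204) := by decide +kernel

/-- part of the certificates -/
def L8 : List Prf := [(.br (nat_lit 1) (nat_lit 0) (.cons (.rf (nat_lit 203) (nat_lit 493858305440582043680)) (.cons (.br (nat_lit 11) (nat_lit 0) (.cons (.zr (nat_lit 1213648258157291881103363) (nat_lit 79537647542532708215266803712) (nat_lit 5) (nat_lit 4)) .nil)) (.cons (.rf (nat_lit 176) (nat_lit 15433070910038444064)) .nil)))),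
 (.br (nat_lit 13) (nat_lit 0) (.cons (.kr (nat_lit 40564819207303412906588052127744) (nat_lit 1213648186660448773341184) (nat_lit 5) (nat_lit 0)) (.cons (.ev (nat_lit 4740885566016664371456) (nat_lit 1)) (.cons (.kr (nat_lit 1213648258155092857847810) (nat_lit 40564819207303340848994014200320) (nat_lit 0) (nat_lit 2)) (.cons (.ev (nat_lit 79229376162522492690713542913) (nat_lit 1)) .nil))))),
 (.br (nat_lit 2) (nat_lit 0) (.cons (.br (nat_lit 11) (nat_lit 0) (.cons (.rf (nat_lit 203) (nat_lit 493858305440582043680)) (.cons (.rf (nat_lit 204) (nat_lit 493858305440582043680)) (.cons (.br (nat_lit 12) (nat_lit 0) (.cons (.kr (nat_lit 1213648258155092857847810) (nat_lit 40564819207303340848994014200320) (nat_lit 0) (nat_lit 2)) (.cons (.rf (nat_lit 204) (nat_lit 493858305440582043680)) .nil))) .nil)))) (.cons (.br (nat_lit 1) (nat_lit 0) (.cons (.ev (nat_lit 4740813226947666575616) (nat_lit 1)) (.cons (.br (nat_lit 13) (nat_lit 0) (.cons (.kr (nat_lit 4722366482869645213697) (nat_lit 20282409603651670423947251286272)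 (nat_lit 0) (nat_lit 2)) (.cons (.kr (nat_lit 1213648258155092857847810) (nat_lit 40564819207303340848994014200320) (nat_lit 0) (nat_lit 2)) .nil))) (.cons (.rf (nat_lit 205) (nat_lit 493858305440582043680)) (.cons (.br (nat_lit 8) (nat_lit 0) (.cons (.ev (nat_lit 20282409603670117168025272647681) (nat_lit 1)) (.cons (.ev (nat_lit 4740885566016664371456) (nat_lit 1)) .nil))) .nil))))) (.cons (.br (nat_lit 12) (nat_lit 0) (.cons (.rf (nat_lit 205) (nat_lit 493858305440582043680)) (.cons (.ev (nat_lit 79229376162522492690696830976) (nat_lit 1)) (.cons (.br (nat_lit 1) (nat_lit 0) (.cons (.ev (nat_lit 475370207660491836171045044740) (nat_lit 3)) (.cons (.br (nat_lit 8) (nat_lit 0) (.cons (.ev (nat_lit 158457538787611973976923963904) (nat_lit 3)) .nil)) (.cons (.ev (nat_lit 20440869555457802342992057533185) (nat_lit 2)) .nil)))) (.cons (.br (nat_lit 1) (nat_lit 0) (.cons (.ev (nat_lit 20282410817318375324217642123265) (nat_lit 1)) (.cons (.kr (nat_lit 1213648258155092857847810) (nat_lit 40564819207303340848994014200320)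 (nat_lit 0) (nat_lit 2)) .nil))) .nil))))) (.cons (.kr (nat_lit 40564819207303412906588052127744) (nat_lit 1213648186660448773341184) (nat_lit 5) (nat_lit 0)) .nil))))),
 (.br (nat_lit 2) (nat_lit 0) (.cons (.rf (nat_lit 206) (nat_lit 493858305440582043680)) (.cons (.br (nat_lit 13) (nat_lit 0) (.cons (.rf (nat_lit 200) (nat_lit 493858305440582043680)) (.cons (.ev (nat_lit 4740813509522138136576) (nat_lit 1)) (.cons (.kr (nat_lit 14167171506202973569026) (nat_lit 40564820416229160463623189037056) (nat_lit 0) (nat_lit 1)) (.cons (.br (nat_lit 1) (nat_lit 0) (.cons (.br (nat_lit 11) (nat_lit 0) (.cons (.ev (nat_lit 79229376162450716571652325376) (nat_lit 1)) .nil)) (.cons (.kr (nat_lit 1213648258155092857847810) (nat_lit 40564819207303340848994014200320) (nat_lit 0) (nat_lit 2)) (.cons (.ev (nat_lit 79228162514336395191893688321) (nat_lit 1)) .nil)))) .nil))))) (.cons (.br (nat_lit 6) (nat_lit 0) (.cons (.br (nat_lit 12) (nat_lit 0) (.cons (.ev (nat_lit 79228162514336395191876845824) (nat_lit 1)) (.cons (.ev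 (nat_lit 79228167292187790624031769345) (nat_lit 2)) .nil))) (.cons (.br (nat_lit 1) (nat_lit 0) (.cons (.kr (nat_lit 4722510598057721069570) (nat_lit 1208925820177579128193280) (nat_lit 0) (nat_lit 3)) (.cons (.kr (nat_lit 72057594037927937) (nat_lit 281474976710912) (nat_lit 0) (nat_lit 2)) (.cons (.ev (nat_lit 4740885285641199354113) (nat_lit 1)) .nil)))) (.cons (.ev (nat_lit 79228162514264619072815628289) (nat_lit 1)) (.cons (.rf (nat_lit 180) (nat_lit 493858305440582043680)) .nil))))) (.cons (.br (nat_lit 12) (nat_lit 0) (.cons (.ev (nat_lit 4740885285641199354113) (nat_lit 1)) (.cons (.rf (nat_lit 181) (nat_lit 493858305440582043680)) (.cons (.br (nat_lit 11) (nat_lit 0) (.cons (.rf (nat_lit 18) (nat_lit 230986506996392494144)) (.cons (.ev (nat_lit 4740813509522138136576) (nat_lit 1)) .nil))) .nil)))) .nil))))),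
 (.br (nat_lit 8) (nat_lit 0) (.cons (.ev (nat_lit 20282409603670117450599744209153) (nat_lit 1)) .nil)),
 (.br (nat_lit 6) (nat_lit 0) (.cons (.rf (nat_lit 174) (nat_lit 14240741782336931872)) (.cons (.kr (nat_lit 72057594037927937) (nat_lit 281474976710912) (nat_lit 0) (nat_lit 2)) (.cons (.rf (nat_lit 208) (nat_lit 493858305440582043680)) .nil)))),
 (.br (nat_lit 1) (nat_lit 0) (.cons (.br (nat_lit 11) (nat_lit 0) (.cons (.ev (nat_lit 20361637770888301525889712128256) (nat_lit 1)) .nil)) (.cons (.kr (nat_lit 72057594037927937) (nat_lit 281474976710912) (nat_lit 0) (nat_lit 2)) (.cons (.rf (nat_lit 208) (nat_lit 493858305440582043680)) .nil)))),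
 (.br (nat_lit 2) (nat_lit 0) (.cons (.rf (nat_lit 206) (nat_lit 493858305440582043680)) (.cons (.rf (nat_lit 207) (nat_lit 493858305440582043680)) (.cons (.br (nat_lit 1) (nat_lit 0) (.cons (.br (nat_lit 11) (nat_lit 0) (.cons (.ev (nat_lit 4740813509522154848513) (nat_lit 1)) (.cons (.ev (nat_lit 79229376162450436196170465536) (nat_lit 1)) (.cons (.kr (nat_lit 4722438540463683141633) (nat_lit 20282409603651670425046762979328) (nat_lit 0) (nat_lit 1)) .nil)))) (.cons (.kr (nat_lit 72057594037928192) (nat_lit 1099511693312) (nat_lit 1) (nat_lit 0)) (.cons (.br (nat_lit 6) (nat_lit 0) (.cons (.kr (nat_lit 4722438541563194769410) (nat_lit 1208925820177579128128000) (nat_lit 0) (nat_lit 2)) (.cons (.ev (nat_lit 79229376162450436196170465536) (nat_lit 1)) (.cons (.br (nat_lit 8) (nat_lit 0) (.cons (.ev (nat_lit 20361637770888373302008773345281) (nat_lit 1)) .nil)) .nil)))) (.cons (.kr (nat_lit 4722438540463683142144) (nat_lit 1208925819615728686465024) (nat_lit 1) (nat_lit 0)) (.cons (.br (nat_lit 6) (nat_lit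 0) (.cons (.ev (nat_lit 20282410817318375604593107140608) (nat_lit 1)) (.cons (.kr (nat_lit 4722582655651758997506) (nat_lit 1208925820178678639886336) (nat_lit 0) (nat_lit 1)) (.cons (.ev (nat_lit 79228162514264619072815628289) (nat_lit 1)) .nil)))) .nil)))))) (.cons (.br (nat_lit 12) (nat_lit 0) (.cons (.rf (nat_lit 209) (nat_lit 493858305440582043680)) (.cons (.rf (nat_lit 210) (nat_lit 493858305440582043680)) (.cons (.ev (nat_lit 20282410817318303265524075790336) (nat_lit 1)) (.cons (.br (nat_lit 12) (nat_lit 0) (.cons (.rf (nat_lit 209) (nat_lit 493858305440582043680)) (.cons (.rf (nat_lit 210) (nat_lit 493858305440582043680)) (.cons (.ev (nat_lit 20282410817318303265524075790336) (nat_lit 1)) .nil)))) .nil))))) .nil))))),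
 (.br (nat_lit 2) (nat_lit 0) (.cons (.rf (nat_lit 206) (nat_lit 493858305440582043680)) (.cons (.rf (nat_lit 207) (nat_lit 493858305440582043680)) (.cons (.rf (nat_lit 211) (nat_lit 493858305440582043680)) (.cons (.br (nat_lit 1) (nat_lit 0) (.cons (.rf (nat_lit 183) (nat_lit 420143386739781765152)) (.cons (.br (nat_lit 6) (nat_lit 0) (.cons (.kr (nat_lit 4722438541563194769410) (nat_lit 1208925820177579128128000) (nat_lit 0) (nat_lit 2)) (.cons (.ev (nat_lit 79228162514264619072815628289) (nat_lit 1)) .nil))) (.cons (.br (nat_lit 6) (nat_lit 0) (.cons (.kr (nat_lit 4722438541563194769410) (nat_lit 1208925820177579128128000) (nat_lit 0) (nat_lit 2)) (.cons (.rf (nat_lit 208) (nat_lit 492741412732994160672)) (.cons (.ev (nat_lit 79228162514264619072815628289) (nat_lit 1)) .nil)))) (.cons (.ev (nat_lit 20361638975091754377273793380608) (nat_lit 1)) .nil))))) .nil))))),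
 (.br (nat_lit 3) (nat_lit 0) (.cons (.kr (nat_lit 1) (nat_lit 256) (nat_lit 0) (nat_lit 2)) (.cons (.rf (nat_lit 171) (nat_lit 493858305440582042688)) (.cons (.br (nat_lit 2) (nat_lit 0) (.cons (.rf (nat_lit 178) (nat_lit 493858305440582043680)) (.cons (.rf (nat_lit 182) (nat_lit 493858305440582043680)) (.cons (.rf (nat_lit 186) (nat_lit 493858305440582043680)) (.cons (.rf (nat_lit 187) (nat_lit 493858305440582043680)) (.cons (.br (nat_lit 2) (nat_lit 0) (.cons (.rf (nat_lit 178) (nat_lit 493858305440582043680)) (.cons (.rf (nat_lit 182) (nat_lit 493858305440582043680)) (.cons (.rf (nat_lit 186) (nat_lit 493858305440582043680)) (.cons (.rf (nat_lit 187) (nat_lit 493858305440582043680)) .nil))))) .nil)))))) (.cons (.br (nat_lit 1) (nat_lit 0) (.cons (.br (nat_lit 2) (nat_lit 0) (.cons (.rf (nat_lit 188) (nat_lit 493858305440582043680)) (.cons (.rf (nat_lit 189) (nat_lit 493858305440582043680)) (.cons (.rf (nat_lit 190) (nat_lit 493858305440582043680)) (.cons (.br (nat_lit 2) (nat_lit 0) (.cons (.rf (nat_lit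 188) (nat_lit 493858305440582043680)) (.cons (.rf (nat_lit 189) (nat_lit 493858305440582043680)) (.cons (.rf (nat_lit 190) (nat_lit 493858305440582043680)) .nil)))) .nil))))) (.cons (.br (nat_lit 11) (nat_lit 0) (.cons (.rf (nat_lit 191) (nat_lit 493858305440582043680)) (.cons (.kr (nat_lit 4722438541563194769410) (nat_lit 1208925820177579128128000) (nat_lit 0) (nat_lit 2)) (.cons (.rf (nat_lit 192) (nat_lit 493858305440582043680)) (.cons (.br (nat_lit 11) (nat_lit 0) (.cons (.rf (nat_lit 191) (nat_lit 493858305440582043680)) (.cons (.kr (nat_lit 4722438541563194769410) (nat_lit 1208925820177579128128000) (nat_lit 0) (nat_lit 2)) (.cons (.rf (nat_lit 192) (nat_lit 493858305440582043680)) .nil)))) .nil))))) (.cons (.br (nat_lit 6) (nat_lit 0) (.cons (.br (nat_lit 13) (nat_lit 0) (.cons (.br (nat_lit 13) (nat_lit 0) (.cons (.ev (nat_lit 20282409603670117168025255804929) (nat_lit 1)) (.cons (.kr (nat_lit 40564819207303412906588052127746) (nat_lit 1213648186660448773341696) (nat_lit 0) (nat_lit 2)) (.cons (.ev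 (nat_lit 20361637770888301245514247110913) (nat_lit 1)) .nil)))) (.cons (.br (nat_lit 13) (nat_lit 0) (.cons (.ev (nat_lit 20282409603670117168025255804929) (nat_lit 1)) (.cons (.kr (nat_lit 4722366482869645213696) (nat_lit 20282409603651670423947251286016) (nat_lit 9) (nat_lit 0)) (.cons (.ev (nat_lit 20282409603670189507094270443776) (nat_lit 1)) .nil)))) (.cons (.br (nat_lit 13) (nat_lit 0) (.cons (.kr (nat_lit 40564819207303412906588052127746) (nat_lit 1213648186660448773341696) (nat_lit 0) (nat_lit 2)) (.cons (.kr (nat_lit 4722366482869645213696) (nat_lit 20282409603651670423947251286016) (nat_lit 9) (nat_lit 0)) (.cons (.kr (nat_lit 40564819207303340848994014199808) (nat_lit 1213648258155092857847808) (nat_lit 5) (nat_lit 0)) .nil)))) (.cons (.br (nat_lit 13) (nat_lit 0) (.cons (.ev (nat_lit 20361637770888301245514247110913) (nat_lit 1)) (.cons (.ev (nat_lit 20282409603670189507094270443776) (nat_lit 1)) (.cons (.kr (nat_lit 40564819207303340848994014199808) (nat_lit 1213648258155092857847808) (nat_lit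 5) (nat_lit 0)) .nil)))) .nil))))) (.cons (.kr (nat_lit 4722438541563194769410) (nat_lit 1208925820177579128128000) (nat_lit 0) (nat_lit 2)) (.cons (.br (nat_lit 2) (nat_lit 0) (.cons (.br (nat_lit 2) (nat_lit 0) (.cons (.kr (nat_lit 4722510598057721069570) (nat_lit 1208925820177579128193280) (nat_lit 0) (nat_lit 3)) (.cons (.ev (nat_lit 4740813509522138136576) (nat_lit 1)) .nil))) (.cons (.br (nat_lit 2) (nat_lit 0) (.cons (.kr (nat_lit 4722510598057721069570) (nat_lit 1208925820177579128193280) (nat_lit 0) (nat_lit 3)) (.cons (.rf (nat_lit 193) (nat_lit 15433072043909810208)) .nil))) (.cons (.br (nat_lit 2) (nat_lit 0) (.cons (.ev (nat_lit 4740813509522138136576) (nat_lit 1)) (.cons (.rf (nat_lit 193) (nat_lit 15433072043909810208)) .nil))) .nil)))) (.cons (.kr (nat_lit 72057594037927937) (nat_lit 281474976710912) (nat_lit 0) (nat_lit 2)) (.cons (.br (nat_lit 2) (nat_lit 0) (.cons (.br (nat_lit 2) (nat_lit 0) (.cons (.ev (nat_lit 4740813509522138136576) (nat_lit 1)) (.cons (.ev (nat_lit 1213685080150803805831936)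 (nat_lit 2)) (.cons (.ev (nat_lit 1213685296605060896325635) (nat_lit 2)) .nil)))) (.cons (.rf (nat_lit 194) (nat_lit 493858305440582043680)) (.cons (.rf (nat_lit 195) (nat_lit 493858305440582043680)) (.cons (.br (nat_lit 2) (nat_lit 0) (.cons (.ev (nat_lit 1213685296605060896325635) (nat_lit 2)) (.cons (.rf (nat_lit 194) (nat_lit 493858305440582043680)) (.cons (.rf (nat_lit 195) (nat_lit 493858305440582043680)) .nil)))) .nil))))) .nil)))))) (.cons (.ev (nat_lit 79229376162522492690713542656) (nat_lit 1)) (.cons (.br (nat_lit 2) (nat_lit 0) (.cons (.rf (nat_lit 199) (nat_lit 493858305440582043680)) (.cons (.rf (nat_lit 201) (nat_lit 493858305440582043680)) (.cons (.rf (nat_lit 202) (nat_lit 493858305440582043680)) (.cons (.br (nat_lit 2) (nat_lit 0) (.cons (.rf (nat_lit 199) (nat_lit 493858305440582043680)) (.cons (.ev (nat_lit 4740885285641199354113) (nat_lit 1)) (.cons (.rf (nat_lit 202) (nat_lit 493858305440582043680)) (.cons (.ev (nat_lit 20361638975091754377273793380608) (nat_lit 1)) .nil))))) (.cons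 (.br (nat_lit 2) (nat_lit 0) (.cons (.rf (nat_lit 199) (nat_lit 493858305440582043680)) (.cons (.rf (nat_lit 201) (nat_lit 493858305440582043680)) (.cons (.kr (nat_lit 4722438540463683142144) (nat_lit 1208925819615728686465024) (nat_lit 1) (nat_lit 0)) (.cons (.ev (nat_lit 20361638975091754377273793380608) (nat_lit 1)) .nil))))) .nil)))))) .nil)))))) (.cons (.br (nat_lit 2) (nat_lit 0) (.cons (.rf (nat_lit 206) (nat_lit 493858305440582043680)) (.cons (.rf (nat_lit 207) (nat_lit 493858305440582043680)) (.cons (.rf (nat_lit 211) (nat_lit 493858305440582043680)) (.cons (.rf (nat_lit 212) (nat_lit 493858305440582043680)) (.cons (.br (nat_lit 2) (nat_lit 0) (.cons (.kr (nat_lit 40564819207303412906588052127744) (nat_lit 1213648186660448773341184) (nat_lit 5) (nat_lit 0)) (.cons (.rf (nat_lit 207) (nat_lit 493858305440582043680)) (.cons (.rf (nat_lit 211) (nat_lit 493858305440582043680)) (.cons (.rf (nat_lit 212) (nat_lit 493858305440582043680)) .nil))))) .nil)))))) .nil)))))),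
 (.br (nat_lit 11) (nat_lit 0) (.cons (.ev (nat_lit 79228162514336395191893688321) (nat_lit 1)) .nil)),
 (.br (nat_lit 12) (nat_lit 0) (.cons (.ev (nat_lit 18518801672042447104) (nat_lit 1)) (.cons (.br (nat_lit 7) (nat_lit 0) (.cons (.ev (nat_lit 18518801672042447104) (nat_lit 1)) .nil)) .nil))),
 (.br (nat_lit 6) (nat_lit 0) (.cons (.kr (nat_lit 72057594037927936) (nat_lit 309485009821345068724781056) (nat_lit 7) (nat_lit 0)) .nil)),
 (.br (nat_lit 13) (nat_lit 0) (.cons (.ev (nat_lit 158457538787755526215079822852) (nat_lit 3)) (.cons (.rf (nat_lit 216) (nat_lit 482283501371099168)) .nil))),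
 (.br (nat_lit 1) (nat_lit 0) (.cons (.br (nat_lit 2) (nat_lit 0) (.cons (.br (nat_lit 11) (nat_lit 0) (.cons (.ev (nat_lit 79229376162450716571635613696) (nat_lit 1)) (.cons (.br (nat_lit 12) (nat_lit 0) (.cons (.zr (nat_lit 237686905449916589448236106496) (nat_lit 618984186742702804440317954) (nat_lit 10) (nat_lit 12)) .nil)) .nil))) (.cons (.br (nat_lit 8) (nat_lit 0) (.cons (.ev (nat_lit 79229376162450716571635613696) (nat_lit 1)) (.cons (.rf (nat_lit 214) (nat_lit 15433072043909810208)) .nil))) (.cons (.ev (nat_lit 79228162514264338697350611201) (nat_lit 1)) (.cons (.br (nat_lit 8) (nat_lit 0) (.cons (.br (nat_lit 12) (nat_lit 0) (.cons (.ev (nat_lit 475370207660637640208981165058) (nat_lit 3)) .nil)) (.cons (.ev (nat_lit 4740813226947666575361) (nat_lit 1)) (.cons (.kr (nat_lit 40564819207303412906588052127746) (nat_lit 1213648186660448773341696) (nat_lit 0) (nat_lit 2)) .nil)))) .nil))))) (.cons (.br (nat_lit 8) (nat_lit 0) (.cons (.rf (nat_lit 215) (nat_lit 15433072043909810208)) (.cons (.br (nat_lit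 8) (nat_lit 0) (.cons (.rf (nat_lit 215) (nat_lit 15433072043909810208)) (.cons (.ev (nat_lit 4740885566016664371201) (nat_lit 1)) .nil))) (.cons (.br (nat_lit 8) (nat_lit 0) (.cons (.ev (nat_lit 4740813226947649732864) (nat_lit 1)) (.cons (.ev (nat_lit 4740885566016664371201) (nat_lit 1)) .nil))) .nil)))) (.cons (.br (nat_lit 8) (nat_lit 0) (.cons (.rf (nat_lit 217) (nat_lit 493858305440582043680)) (.cons (.br (nat_lit 8) (nat_lit 0) (.cons (.rf (nat_lit 217) (nat_lit 493858305440582043680)) (.cons (.ev (nat_lit 158457538787901330253015942150) (nat_lit 3)) .nil))) (.cons (.br (nat_lit 8) (nat_lit 0) (.cons (.ev (nat_lit 158457538787755526215079822852) (nat_lit 3)) (.cons (.ev (nat_lit 158457538787901330253015942150) (nat_lit 3)) .nil))) .nil)))) (.cons (.br (nat_lit 2) (nat_lit 0) (.cons (.br (nat_lit 11) (nat_lit 0) (.cons (.ev (nat_lit 4740813226947649732864) (nat_lit 1)) (.cons (.ev (nat_lit 79228162514336677766365249536) (nat_lit 1)) (.cons (.br (nat_lit 8) (nat_lit 0) (.cons (.ev (nat_lit 40723276774425295271327453677060)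 (nat_lit 3)) .nil)) .nil)))) (.cons (.br (nat_lit 8) (nat_lit 0) (.cons (.ev (nat_lit 79229376162450716571635613696) (nat_lit 1)) (.cons (.rf (nat_lit 214) (nat_lit 9668288770981595168)) .nil))) (.cons (.br (nat_lit 13) (nat_lit 0) (.cons (.rf (nat_lit 214) (nat_lit 9633385873869473824)) (.cons (.ev (nat_lit 40881733089898555196670046502912) (nat_lit 3)) .nil))) (.cons (.kr (nat_lit 1213648258155092857978882) (nat_lit 40564819207303340848994047754752) (nat_lit 0) (nat_lit 4)) .nil))))) .nil))))),
 (.br (nat_lit 12) (nat_lit 0) (.cons (.ev (nat_lit 158458742990920431996504441092) (nat_lit 3)) (.cons (.ev (nat_lit 1208944266641281667563521) (nat_lit 1)) (.cons (.ev (nat_lit 20282409603670189226718805426176) (nat_lit 1)) .nil)))),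
 (.br (nat_lit 2) (nat_lit 0) (.cons (.rf (nat_lit 218) (nat_lit 493858305440582043680)) (.cons (.br (nat_lit 1) (nat_lit 0) (.cons (.br (nat_lit 8) (nat_lit 0) (.cons (.ev (nat_lit 79228162514264619072832471041) (nat_lit 1)) (.cons (.rf (nat_lit 219) (nat_lit 493858305440582043680)) .nil))) (.cons (.kr (nat_lit 4722438540463683142144) (nat_lit 1208925819615728686465024) (nat_lit 1) (nat_lit 0)) (.cons (.kr (nat_lit 4722366482869645213952) (nat_lit 1208925819614629174771712) (nat_lit 1) (nat_lit 0)) (.cons (.br (nat_lit 13) (nat_lit 0) (.cons (.br (nat_lit 8) (nat_lit 0) (.cons (.ev (nat_lit 4740885566016664371201) (nat_lit 1)) .nil)) (.cons (.rf (nat_lit 219) (nat_lit 493858305440582043680)) (.cons (.ev (nat_lit 20361637770888373302008790188288) (nat_lit 1)) .nil)))) .nil))))) (.cons (.br (nat_lit 1) (nat_lit 0) (.cons (.ev (nat_lit 79229376162522492690696831233) (nat_lit 1)) (.cons (.br (nat_lit 6) (nat_lit 0) (.cons (.kr (nat_lit 4722438541563194769410) (nat_lit 1208925820177579128128000) (nat_lit 0)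 (nat_lit 2)) (.cons (.br (nat_lit 11) (nat_lit 0) (.cons (.ev (nat_lit 20361637770888301245514247110913) (nat_lit 1)) .nil)) .nil))) (.cons (.rf (nat_lit 215) (nat_lit 15216899268238477344)) (.cons (.br (nat_lit 8) (nat_lit 0) (.cons (.br (nat_lit 11) (nat_lit 0) (.cons (.ev (nat_lit 40644047384040116926119795491585) (nat_lit 2)) .nil)) (.cons (.ev (nat_lit 4740813226947649732864) (nat_lit 1)) (.cons (.ev (nat_lit 4740885285641199353856) (nat_lit 1)) .nil)))) .nil))))) (.cons (.br (nat_lit 8) (nat_lit 0) (.cons (.br (nat_lit 6) (nat_lit 0) (.cons (.kr (nat_lit 4722438541563194769410) (nat_lit 1208925820177579128128000) (nat_lit 0) (nat_lit 2)) (.cons (.br (nat_lit 11) (nat_lit 0) (.cons (.ev (nat_lit 20361637770888301525889712128256) (nat_lit 1)) .nil)) (.cons (.kr (nat_lit 1099511693313) (nat_lit 281474976711168) (nat_lit 0) (nat_lit 3)) .nil)))) (.cons (.br (nat_lit 1) (nat_lit 0) (.cons (.kr (nat_lit 4722438541563194769410) (nat_lit 1208925820177579128128000) (nat_lit 0) (nat_lit 2)) (.cons (.ev (nat_lit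 79229376162450716571652325633) (nat_lit 1)) (.cons (.ev (nat_lit 20282410817318303265524092502273) (nat_lit 1)) .nil)))) (.cons (.br (nat_lit 1) (nat_lit 0) (.cons (.br (nat_lit 12) (nat_lit 0) (.cons (.zr (nat_lit 1218370696697755564244997) (nat_lit 158765810075243789882520306176) (nat_lit 5) (nat_lit 4)) .nil)) (.cons (.ev (nat_lit 475370207660347723182059421700) (nat_lit 3)) (.cons (.ev (nat_lit 4740813226947649732864) (nat_lit 1)) .nil)))) (.cons (.ev (nat_lit 4740885285641199353856) (nat_lit 1)) (.cons (.br (nat_lit 1) (nat_lit 0) (.cons (.ev (nat_lit 40564820421025674773725028812292) (nat_lit 3)) (.cons (.ev (nat_lit 4740813226947649732864) (nat_lit 1)) (.cons (.ev (nat_lit 158457538787755526215079822852) (nat_lit 3)) .nil)))) .nil)))))) .nil)))))]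

theorem c8 : chkAll C T R L8 (nat_lit 204) = true := by decide +kernel

theorem l8 : (nat_lit 204) + L8.length = (nat_lit 221) := by decide +kernel

/-- part of the certificates -/
def L9 : List Prf := [(.br (nat_lit 1) (nat_lit 0) (.cons (.kr (nat_lit 72057594037928192) (nat_lit 1099511693312) (nat_lit 1) (nat_lit 0)) (.cons (.br (nat_lit 8) (nat_lit 0) (.cons (.ev (nat_lit 20282409603670117168025272647681) (nat_lit 1)) .nil)) .nil))),
 (.br (nat_lit 2) (nat_lit 0) (.cons (.rf (nat_lit 218) (nat_lit 493858305440582043680)) (.cons (.rf (nat_lit 220) (nat_lit 493858305440582043680)) (.cons (.br (nat_lit 8) (nat_lit 0) (.cons (.kr (nat_lit 72057594037928192) (nat_lit 1099511693312) (nat_lit 1) (nat_lit 0)) (.cons (.rf (nat_lit 221) (nat_lit 493858305440582043680)) (.cons (.br (nat_lit 8) (nat_lit 0) (.cons (.kr (nat_lit 72057594037928192) (nat_lit 1099511693312) (nat_lit 1) (nat_lit 0)) (.cons (.rf (nat_lit 221) (nat_lit 493858305440582043680)) .nil))) .nil)))) (.cons (.br (nat_lit 1) (nat_lit 0) (.cons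 (.br (nat_lit 12) (nat_lit 0) (.cons (.br (nat_lit 8) (nat_lit 0) (.cons (.ev (nat_lit 20361637766221347899088067101185) (nat_lit 2)) .nil)) (.cons (.ev (nat_lit 79228162514264619072832471041) (nat_lit 1)) .nil))) (.cons (.br (nat_lit 6) (nat_lit 0) (.cons (.ev (nat_lit 4740885566016681214208) (nat_lit 1)) (.cons (.br (nat_lit 8) (nat_lit 0) (.cons (.ev (nat_lit 20361637770888373302008773345281) (nat_lit 1)) .nil)) (.cons (.br (nat_lit 8) (nat_lit 0) (.cons (.ev (nat_lit 20361637770888373302008773345281) (nat_lit 1)) .nil)) .nil)))) (.cons (.br (nat_lit 6) (nat_lit 0) (.cons (.ev (nat_lit 79229376162450716571652325633) (nat_lit 1)) (.cons (.ev (nat_lit 79228162514264619072832471041) (nat_lit 1)) .nil))) (.cons (.kr (nat_lit 4722438540463683142144) (nat_lit 1208925819615728686465024) (nat_lit 1) (nat_lit 0)) .nil))))) .nil))))),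
 (.br (nat_lit 2) (nat_lit 0) (.cons (.rf (nat_lit 218) (nat_lit 493858305440582043680)) (.cons (.rf (nat_lit 220) (nat_lit 493858305440582043680)) (.cons (.rf (nat_lit 222) (nat_lit 493858305440582043680)) (.cons (.br (nat_lit 1) (nat_lit 0) (.cons (.br (nat_lit 8) (nat_lit 0) (.cons (.br (nat_lit 8) (nat_lit 0) (.cons (.ev (nat_lit 475370207660636509911027549190) (nat_lit 3)) .nil)) (.cons (.ev (nat_lit 40881733089898122848906795549184) (nat_lit 3)) .nil))) (.cons (.br (nat_lit 6) (nat_lit 0) (.cons (.ev (nat_lit 4740813226947666575361) (nat_lit 1)) (.cons (.kr (nat_lit 4722438541563194769410) (nat_lit 1208925820177579128128000) (nat_lit 0) (nat_lit 2)) (.cons (.kr (nat_lit 4722366486168180228098) (nat_lit 1208925892235173166056448) (nat_lit 0) (nat_lit 3)) .nil)))) (.cons (.br (nat_lit 8) (nat_lit 0) (.cons (.kr (nat_lit 4722438541563194769410) (nat_lit 1208925820177579128128000) (nat_lit 0) (nat_lit 2)) (.cons (.zr (nat_lit 2422574005713227506254082) (nat_lit 40565128692313162192967539163136) (nat_lit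 5) (nat_lit 4)) .nil))) (.cons (.ev (nat_lit 20361638975091826433768319614976) (nat_lit 1)) .nil))))) .nil))))),
 (.br (nat_lit 11) (nat_lit 0) (.cons (.br (nat_lit 11) (nat_lit 0) (.cons (.ev (nat_lit 79228162514336395191893688576) (nat_lit 1)) .nil)) (.cons (.rf (nat_lit 197) (nat_lit 8443308538431899680)) .nil))),
 (.br (nat_lit 8) (nat_lit 0) (.cons (.rf (nat_lit 184) (nat_lit 9662659276816091168)) (.cons (.ev (nat_lit 1208944338417400745623553) (nat_lit 1)) (.cons (.br (nat_lit 11) (nat_lit 0) (.cons (.ev (nat_lit 20361638975091826433768302903553) (nat_lit 1)) .nil)) .nil)))),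
 (.br (nat_lit 1) (nat_lit 0) (.cons (.ev (nat_lit 20282409603670189507094270443776) (nat_lit 1)) .nil)),
 (.br (nat_lit 2) (nat_lit 0) (.cons (.br (nat_lit 8) (nat_lit 0) (.cons (.br (nat_lit 13) (nat_lit 0) (.cons (.kr (nat_lit 4722366482869645213697) (nat_lit 20282409603651670423947251286272) (nat_lit 0) (nat_lit 2)) (.cons (.ev (nat_lit 20282409603670189507094287286273) (nat_lit 1)) .nil))) (.cons (.br (nat_lit 1) (nat_lit 0) (.cons (.br (nat_lit 12) (nat_lit 0) (.cons (.ev (nat_lit 20361638975091826433768319614976) (nat_lit 1)) .nil)) (.cons (.ev (nat_lit 4740813226947649732864) (nat_lit 1)) .nil))) (.cons (.br (nat_lit 1) (nat_lit 0) (.cons (.br (nat_lit 12) (nat_lit 0) (.cons (.zr (nat_lit 1213648258157291881103363) (nat_lit 79537647542532708215266803712) (nat_lit 5) (nat_lit 4)) .nil)) (.cons (.br (nat_lit 11) (nat_lit 0) (.cons (.zr (nat_lit 1213648258157291881103363) (nat_lit 79537647542532708215266803712) (nat_lit 5) (nat_lit 4)) .nil)) (.cons (.ev (nat_lit 20282410817318303548098580905985) (nat_lit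 1)) .nil)))) (.cons (.ev (nat_lit 20282409603670117168025255804929) (nat_lit 1)) .nil))))) (.cons (.br (nat_lit 8) (nat_lit 0) (.cons (.rf (nat_lit 224) (nat_lit 15433072043909810208)) (.cons (.br (nat_lit 8) (nat_lit 0) (.cons (.rf (nat_lit 224) (nat_lit 15433072043909810208)) (.cons (.ev (nat_lit 4740885566016664371201) (nat_lit 1)) .nil))) (.cons (.br (nat_lit 8) (nat_lit 0) (.cons (.rf (nat_lit 224) (nat_lit 15433072043909810208)) (.cons (.ev (nat_lit 4740885566016664371201) (nat_lit 1)) .nil))) .nil)))) (.cons (.br (nat_lit 8) (nat_lit 0) (.cons (.rf (nat_lit 225) (nat_lit 493858305440582043680)) (.cons (.br (nat_lit 8) (nat_lit 0) (.cons (.rf (nat_lit 184) (nat_lit 9662659276816091168)) (.cons (.ev (nat_lit 79228162514264338697350610944) (nat_lit 1)) (.cons (.rf (nat_lit 226) (nat_lit 493858305440582043680)) .nil)))) (.cons (.ev (nat_lit 79228162514264338697350610944) (nat_lit 1)) (.cons (.br (nat_lit 8) (nat_lit 0) (.cons (.rf (nat_lit 225) (nat_lit 493858305440582043680)) (.cons (.rf (nat_lit 226)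 (nat_lit 493858305440582043680)) (.cons (.ev (nat_lit 4740885566016664371201) (nat_lit 1)) .nil)))) .nil))))) (.cons (.kr (nat_lit 40564819207303412906588052127744) (nat_lit 1213648186660448773341184) (nat_lit 5) (nat_lit 0)) .nil))))),
 (.br (nat_lit 8) (nat_lit 0) (.cons (.br (nat_lit 12) (nat_lit 0) (.cons (.ev (nat_lit 40644050996650620999536413442818) (nat_lit 2)) .nil)) (.cons (.br (nat_lit 11) (nat_lit 0) (.cons (.ev (nat_lit 20361638975091826433768302903553) (nat_lit 1)) .nil)) (.cons (.ev (nat_lit 1208944266358707179290624) (nat_lit 1)) .nil)))),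
 (.br (nat_lit 2) (nat_lit 0) (.cons (.rf (nat_lit 227) (nat_lit 493858305440582043680)) (.cons (.br (nat_lit 1) (nat_lit 0) (.cons (.br (nat_lit 8) (nat_lit 0) (.cons (.br (nat_lit 12) (nat_lit 0) (.cons (.ev (nat_lit 79229376162450716571652325376) (nat_lit 1)) .nil)) (.cons (.ev (nat_lit 20282409603670117168025255804929) (nat_lit 1)) .nil))) (.cons (.kr (nat_lit 4722438540463683142144) (nat_lit 1208925819615728686465024) (nat_lit 1) (nat_lit 0)) (.cons (.kr (nat_lit 4722366482869645213952) (nat_lit 1208925819614629174771712) (nat_lit 1) (nat_lit 0)) (.cons (.br (nat_lit 12) (nat_lit 0) (.cons (.br (nat_lit 8) (nat_lit 0) (.cons (.ev (nat_lit 4740813509522138136833) (nat_lit 1)) .nil)) (.cons (.br (nat_lit 6) (nat_lit 0) (.cons (.ev (nat_lit 4740813509522138136833) (nat_lit 1)) .nil)) .nil))) .nil))))) (.cons (.br (nat_lit 6) (nat_lit 0) (.cons (.rf (nat_lit 228) (nat_lit 493858305440582043680)) (.cons (.br (nat_lit 1) (nat_lit 0) (.cons (.kr (nat_lit 4722438541563194769410) (nat_lit 1208925820177579128128000)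 (nat_lit 0) (nat_lit 2)) (.cons (.kr (nat_lit 1208925891673322724392962) (nat_lit 4722367045819598636032) (nat_lit 0) (nat_lit 3)) (.cons (.rf (nat_lit 228) (nat_lit 230986506996392495136)) .nil)))) (.cons (.br (nat_lit 1) (nat_lit 0) (.cons (.kr (nat_lit 4722438541563194769410) (nat_lit 1208925820177579128128000) (nat_lit 0) (nat_lit 2)) (.cons (.kr (nat_lit 72057594037927937) (nat_lit 281474976710912) (nat_lit 0) (nat_lit 2)) (.cons (.rf (nat_lit 228) (nat_lit 230986506996392495136)) .nil)))) (.cons (.ev (nat_lit 79229376162522492690696830976) (nat_lit 1)) (.cons (.br (nat_lit 8) (nat_lit 0) (.cons (.br (nat_lit 11) (nat_lit 0) (.cons (.ev (nat_lit 20361637770888301245514247110913) (nat_lit 1)) .nil)) (.cons (.br (nat_lit 1) (nat_lit 0) (.cons (.ev (nat_lit 4740813509522138136833) (nat_lit 1)) .nil)) (.cons (.ev (nat_lit 4740885566016664371201) (nat_lit 1)) .nil)))) .nil)))))) (.cons (.rf (nat_lit 227) (nat_lit 230986506996392495136)) .nil))))),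
 (.br (nat_lit 3) (nat_lit 0) (.cons (.kr (nat_lit 1) (nat_lit 256) (nat_lit 0) (nat_lit 2)) (.cons (.rf (nat_lit 171) (nat_lit 493858305440582042688)) (.cons (.rf (nat_lit 213) (nat_lit 493858305440582043680)) (.cons (.br (nat_lit 2) (nat_lit 0) (.cons (.rf (nat_lit 218) (nat_lit 493858305440582043680)) (.cons (.rf (nat_lit 220) (nat_lit 493858305440582043680)) (.cons (.rf (nat_lit 222) (nat_lit 493858305440582043680)) (.cons (.rf (nat_lit 223) (nat_lit 493858305440582043680)) (.cons (.br (nat_lit 2) (nat_lit 0) (.cons (.rf (nat_lit 218) (nat_lit 493858305440582043680)) (.cons (.rf (nat_lit 220) (nat_lit 493858305440582043680)) (.cons (.rf (nat_lit 222) (nat_lit 493858305440582043680)) (.cons (.rf (nat_lit 223) (nat_lit 493858305440582043680)) .nil))))) .nil)))))) (.cons (.br (nat_lit 2) (nat_lit 0) (.cons (.rf (nat_lit 227) (nat_lit 493858305440582043680)) (.cons (.rf (nat_lit 229) (nat_lit 493858305440582043680)) (.cons (.br (nat_lit 2) (nat_lit 0) (.cons (.rf (nat_lit 227) (nat_lit 493858305440582043680))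 (.cons (.rf (nat_lit 229) (nat_lit 493858305440582043680)) (.cons (.rf (nat_lit 229) (nat_lit 230986506996392495136)) (.cons (.rf (nat_lit 227) (nat_lit 230986506996392495136)) .nil))))) (.cons (.rf (nat_lit 229) (nat_lit 230986506996392495136)) (.cons (.rf (nat_lit 227) (nat_lit 230986506996392495136)) .nil)))))) .nil)))))),
 (.br (nat_lit 3) (nat_lit 0) (.cons (.kr (nat_lit 1) (nat_lit 256) (nat_lit 0) (nat_lit 2)) (.cons (.rf (nat_lit 171) (nat_lit 493858305440582042688)) (.cons (.rf (nat_lit 213) (nat_lit 493858305440582043680)) (.cons (.rf (nat_lit 230) (nat_lit 493858305440582043680)) (.cons (.br (nat_lit 3) (nat_lit 0) (.cons (.kr (nat_lit 1) (nat_lit 256) (nat_lit 0) (nat_lit 2)) (.cons (.rf (nat_lit 171) (nat_lit 493858305440582042688)) (.cons (.rf (nat_lit 213) (nat_lit 493858305440582043680)) (.cons (.rf (nat_lit 230) (nat_lit 493858305440582043680)) (.cons (.rf (nat_lit 213) (nat_lit 230986506996392495136)) .nil)))))) (.cons (.br (nat_lit 3) (nat_lit 0) (.cons (.kr (nat_lit 1) (nat_lit 256)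 (nat_lit 0) (nat_lit 2)) (.cons (.rf (nat_lit 171) (nat_lit 493858305440582042688)) (.cons (.rf (nat_lit 213) (nat_lit 493858305440582043680)) (.cons (.rf (nat_lit 230) (nat_lit 493858305440582043680)) (.cons (.rf (nat_lit 213) (nat_lit 230986506996392495136)) .nil)))))) .nil))))))),
 (.br (nat_lit 12) (nat_lit 0) (.cons (.ev (nat_lit 20282409603670189226718805426433) (nat_lit 1)) .nil)),
 (.br (nat_lit 8) (nat_lit 0) (.cons (.rf (nat_lit 232) (nat_lit 493858305440582043680)) (.cons (.rf (nat_lit 232) (nat_lit 492741412732994160672)) (.cons (.ev (nat_lit 20282409603670117168025255804929) (nat_lit 1)) .nil)))),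
 (.br (nat_lit 1) (nat_lit 0) (.cons (.ev (nat_lit 4740813509522138136833) (nat_lit 1)) (.cons (.br (nat_lit 11) (nat_lit 0) (.cons (.ev (nat_lit 20282410817318303265524075790593) (nat_lit 1)) .nil)) (.cons (.rf (nat_lit 233) (nat_lit 234337185119156144160)) .nil)))),
 (.br (nat_lit 1) (nat_lit 0) (.cons (.kr (nat_lit 1) (nat_lit 256) (nat_lit 0) (nat_lit 2)) (.cons (.ev (nat_lit 20282409603670189226718805426433) (nat_lit 1)) .nil))),
 (.br (nat_lit 2) (nat_lit 0) (.cons (.br (nat_lit 1) (nat_lit 0) (.cons (.kr (nat_lit 72057594037993473) (nat_lit 281474993488128) (nat_lit 0) (nat_lit 4)) (.cons (.br (nat_lit 6) (nat_lit 0) (.cons (.ev (nat_lit 79228162514264619072815628289) (nat_lit 1)) (.cons (.br (nat_lit 12) (nat_lit 0) (.cons (.ev (nat_lit 79229376162450716571635613953) (nat_lit 1)) .nil)) .nil))) (.cons (.ev (nat_lit 79228162514336395191893688576) (nat_lit 1)) (.cons (.br (nat_lit 6) (nat_lit 0) (.cons (.br (nat_lit 12) (nat_lit 0) (.cons (.ev (nat_lit 79229376162450716571635613953) (nat_lit 1)) .nil))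 (.cons (.ev (nat_lit 79228162514264619072815628289) (nat_lit 1)) (.cons (.br (nat_lit 11) (nat_lit 0) (.cons (.ev (nat_lit 79229376162450716571635613953) (nat_lit 1)) .nil)) .nil)))) .nil))))) (.cons (.br (nat_lit 6) (nat_lit 0) (.cons (.kr (nat_lit 4722438540463683142144) (nat_lit 1208925819615728686465024) (nat_lit 1) (nat_lit 0)) (.cons (.br (nat_lit 13) (nat_lit 0) (.cons (.ev (nat_lit 4740813509522138136833) (nat_lit 1)) (.cons (.br (nat_lit 1) (nat_lit 0) (.cons (.ev (nat_lit 4740813509522138136833) (nat_lit 1)) .nil)) .nil))) (.cons (.ev (nat_lit 79228162514264619072815628289) (nat_lit 1)) (.cons (.br (nat_lit 8) (nat_lit 0) (.cons (.br (nat_lit 12) (nat_lit 0) (.cons (.ev (nat_lit 79229376162450716571635613953) (nat_lit 1)) .nil)) (.cons (.ev (nat_lit 4740885566016664371201) (nat_lit 1)) (.cons (.br (nat_lit 1) (nat_lit 0) (.cons (.ev (nat_lit 20361637770888301245514263822336) (nat_lit 1)) .nil)) .nil)))) .nil))))) (.cons (.br (nat_lit 1) (nat_lit 0) (.cons (.kr (nat_lit 4722438541563194900482)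 (nat_lit 1208925820177579161682432) (nat_lit 0) (nat_lit 4)) (.cons (.ev (nat_lit 79228162514264338697350611201) (nat_lit 1)) (.cons (.br (nat_lit 13) (nat_lit 0) (.cons (.br (nat_lit 8) (nat_lit 0) (.cons (.ev (nat_lit 20361637770888373302008773345281) (nat_lit 1)) .nil)) (.cons (.br (nat_lit 6) (nat_lit 0) (.cons (.ev (nat_lit 20361637770888373302008773345281) (nat_lit 1)) .nil)) .nil))) (.cons (.br (nat_lit 8) (nat_lit 0) (.cons (.rf (nat_lit 196) (nat_lit 15391413753799084064)) (.cons (.rf (nat_lit 174) (nat_lit 15216899268238477344)) (.cons (.ev (nat_lit 20282409603670189226718822137856) (nat_lit 1)) .nil)))) .nil))))) (.cons (.br (nat_lit 6) (nat_lit 0) (.cons (.rf (nat_lit 233) (nat_lit 493858305440582043680)) (.cons (.rf (nat_lit 234) (nat_lit 493858305440582043680)) (.cons (.br (nat_lit 13) (nat_lit 0) (.cons (.rf (nat_lit 233) (nat_lit 234337185119156144160)) (.cons (.ev (nat_lit 20282409603670117168025255804929) (nat_lit 1)) (.cons (.rf (nat_lit 234) (nat_lit 230986506996392495136)) .nil))))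 (.cons (.ev (nat_lit 79228162514264619072815628289) (nat_lit 1)) (.cons (.br (nat_lit 8) (nat_lit 0) (.cons (.br (nat_lit 11) (nat_lit 0) (.cons (.ev (nat_lit 79229376162450716571635613953) (nat_lit 1)) .nil)) (.cons (.rf (nat_lit 235) (nat_lit 493858305440582043680)) (.cons (.ev (nat_lit 4740885566016664371201) (nat_lit 1)) .nil)))) .nil)))))) .nil))))),
 (.br (nat_lit 6) (nat_lit 0) (.cons (.ev (nat_lit 79228162514336677766381961216) (nat_lit 1)) (.cons (.ev (nat_lit 79228162514264619072815628289) (nat_lit 1)) (.cons (.kr (nat_lit 281474976710656) (nat_lit 72057594037927936) (nat_lit 6) (nat_lit 0)) (.cons (.ev (nat_lit 1208944266641281667563521) (nat_lit 1)) .nil))))),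
 (.br (nat_lit 2) (nat_lit 0) (.cons (.rf (nat_lit 236) (nat_lit 493858305440582043680)) (.cons (.br (nat_lit 1) (nat_lit 0) (.cons (.rf (nat_lit 224) (nat_lit 14316177070726678560)) (.cons (.kr (nat_lit 4722366482869645213952) (nat_lit 1208925819614629174771712) (nat_lit 1) (nat_lit 0)) (.cons (.br (nat_lit 6) (nat_lit 0) (.cons (.rf (nat_lit 237) (nat_lit 493858305440582043680)) (.cons (.br (nat_lit 6) (nat_lit 0) (.cons (.ev (nat_lit 4740885566016664371201) (nat_lit 1)) .nil)) .nil))) .nil)))) (.cons (.br (nat_lit 1) (nat_lit 0) (.cons (.ev (nat_lit 79229376162522492690696831233) (nat_lit 1)) (.cons (.br (nat_lit 6) (nat_lit 0) (.cons (.br (nat_lit 6) (nat_lit 0) .nil) .nil)) (.cons (.ev (nat_lit 4740885285641199354113) (nat_lit 1)) .nil)))) (.cons (.rf (nat_lit 236) (nat_lit 230986506996392495136)) .nil))))),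
 (.br (nat_lit 3) (nat_lit 0) (.cons (.kr (nat_lit 1) (nat_lit 256) (nat_lit 0) (nat_lit 2)) (.cons (.rf (nat_lit 171) (nat_lit 493858305440582042688)) (.cons (.rf (nat_lit 231) (nat_lit 493858305440582043680)) (.cons (.br (nat_lit 2) (nat_lit 0) (.cons (.rf (nat_lit 236) (nat_lit 493858305440582043680)) (.cons (.rf (nat_lit 238) (nat_lit 493858305440582043680)) (.cons (.br (nat_lit 2) (nat_lit 0) (.cons (.rf (nat_lit 236) (nat_lit 493858305440582043680)) (.cons (.rf (nat_lit 238) (nat_lit 493858305440582043680)) (.cons (.rf (nat_lit 238) (nat_lit 230986506996392495136)) (.cons (.rf (nat_lit 236) (nat_lit 230986506996392495136)) .nil))))) (.cons (.rf (nat_lit 238) (nat_lit 230986506996392495136)) (.cons (.rf (nat_lit 236) (nat_lit 230986506996392495136)) .nil)))))) (.cons (.rf (nat_lit 231) (nat_lit 230986506996392495136)) .nil)))))),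
 (.br (nat_lit 3) (nat_lit 0) (.cons (.kr (nat_lit 1) (nat_lit 256) (nat_lit 0) (nat_lit 2)) (.cons (.rf (nat_lit 171) (nat_lit 493858305440582042688)) (.cons (.rf (nat_lit 231) (nat_lit 493858305440582043680)) (.cons (.rf (nat_lit 239) (nat_lit 493858305440582043680)) (.cons (.br (nat_lit 3) (nat_lit 0) (.cons (.kr (nat_lit 1) (nat_lit 256) (nat_lit 0) (nat_lit 2)) (.cons (.rf (nat_lit 171) (nat_lit 493858305440582042688)) (.cons (.rf (nat_lit 231) (nat_lit 493858305440582043680)) (.cons (.rf (nat_lit 239) (nat_lit 493858305440582043680)) (.cons (.rf (nat_lit 231) (nat_lit 230986506996392495136)) .nil)))))) (.cons (.rf (nat_lit 231) (nat_lit 230986506996392495136)) .nil))))))),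
 (.br (nat_lit 3) (nat_lit 0) (.cons (.kr (nat_lit 1) (nat_lit 256) (nat_lit 0) (nat_lit 2)) (.cons (.rf (nat_lit 171) (nat_lit 493858305440582042688)) (.cons (.rf (nat_lit 231) (nat_lit 493858305440582043680)) (.cons (.rf (nat_lit 240) (nat_lit 493858305440582043680)) (.cons (.br (nat_lit 3) (nat_lit 0) (.cons (.kr (nat_lit 1) (nat_lit 256) (nat_lit 0) (nat_lit 2)) (.cons (.rf (nat_lit 171) (nat_lit 493858305440582042688)) (.cons (.rf (nat_lit 231) (nat_lit 493858305440582043680)) (.cons (.rf (nat_lit 240) (nat_lit 493858305440582043680)) (.cons (.rf (nat_lit 240) (nat_lit 230986506996392495136)) (.cons (.rf (nat_lit 231) (nat_lit 230986506996392495136)) .nil))))))) (.cons (.rf (nat_lit 240) (nat_lit 230986506996392495136)) (.cons (.rf (nat_lit 231) (nat_lit 230986506996392495136)) .nil))))))))]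

theorem c9 : chkAll C T R L9 (nat_lit 221) = true := by decide +kernel

theorem l9 : (nat_lit 221) + L9.length = (nat_lit 242) := by decide +kernel

/-- part of the certificates -/
def L10 : List Prf := [(.br (nat_lit 12) (nat_lit 0) (.cons (.br (nat_lit 12) (nat_lit 0) (.cons (.ev (nat_lit 20361638975091826433768319615233) (nat_lit 1)) .nil)) (.cons (.br (nat_lit 11) (nat_lit 0) (.cons (.ev (nat_lit 20361638975091826433768319615233) (nat_lit 1)) .nil)) .nil))),
 (.br (nat_lit 12) (nat_lit 0) (.cons (.ev (nat_lit 20361638975091826433768319615233) (nat_lit 1)) .nil)),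
 (.br (nat_lit 3) (nat_lit 0) (.cons (.kr (nat_lit 4722438541563194769410) (nat_lit 1208925820177579161681920) (nat_lit 0) (nat_lit 1)) (.cons (.kr (nat_lit 72057594037927937) (nat_lit 281474993487872) (nat_lit 0) (nat_lit 1)) (.cons (.br (nat_lit 12) (nat_lit 0) (.cons (.rf (nat_lit 243) (nat_lit 493858305440582043680)) (.cons (.br (nat_lit 8) (nat_lit 0) (.cons (.ev (nat_lit 20361637770888301245514263822593) (nat_lit 1)) .nil)) .nil))) .nil)))),
 (.br (nat_lit 3) (nat_lit 0) (.cons (.kr (nat_lit 72057594037928193) (nat_lit 281474993553408) (nat_lit 0) (nat_lit 4)) (.cons (.kr (nat_lit 72057594037927937) (nat_lit 281474993487872) (nat_lit 0) (nat_lit 1)) (.cons (.br (nat_lit 11) (nat_lit 0) (.cons (.ev (nat_lit 309485009893685241546080256) (nat_lit 1)) (.cons (.ev (nat_lit 309485009893685241546014976) (nat_lit 1)) (.cons (.ev (nat_lit 309485009821346172548153601) (nat_lit 1)) .nil)))) .nil)))),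
 (.br (nat_lit 3) (nat_lit 0) (.cons (.br (nat_lit 3) (nat_lit 0) (.cons (.kr (nat_lit 4722438541563194769410) (nat_lit 1208925820177579161681920) (nat_lit 0) (nat_lit 1)) (.cons (.kr (nat_lit 72057594037928193) (nat_lit 281474993553408) (nat_lit 0) (nat_lit 4)) (.cons (.rf (nat_lit 242) (nat_lit 493858305440582043680)) .nil)))) (.cons (.rf (nat_lit 244) (nat_lit 493858305440582043680)) (.cons (.rf (nat_lit 245) (nat_lit 445091350149433376)) (.cons (.br (nat_lit 3) (nat_lit 0) (.cons (.rf (nat_lit 242) (nat_lit 493858305440582043680)) (.cons (.rf (nat_lit 244) (nat_lit 493858305440582043680)) (.cons (.rf (nat_lit 245) (nat_lit 445091350149433376)) .nil)))) .nil))))),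
 (.br (nat_lit 11) (nat_lit 0) (.cons (.br (nat_lit 11) (nat_lit 0) (.cons (.ev (nat_lit 309485009821346172548218881) (nat_lit 1)) .nil)) (.cons (.br (nat_lit 4) (nat_lit 0) (.cons (.ev (nat_lit 309485009821346172548218881) (nat_lit 1)) .nil)) .nil))),
 (.br (nat_lit 12) (nat_lit 0) (.cons (.ev (nat_lit 20361638975091754377273793380353) (nat_lit 1)) .nil)),
 (.br (nat_lit 11) (nat_lit 0) (.cons (.ev (nat_lit 20361637770888301525889712128256) (nat_lit 1)) .nil)),
 (.br (nat_lit 3) (nat_lit 0) (.cons (.kr (nat_lit 72057594037928193) (nat_lit 281474993553408) (nat_lit 0) (nat_lit 4)) (.cons (.kr (nat_lit 4722582655651758998018) (nat_lit 1208925820178678673440768) (nat_lit 0) (nat_lit 4)) (.cons (.br (nat_lit 4) (nat_lit 0) (.cons (.rf (nat_lit 248) (nat_lit 493858305440582043680)) (.cons (.rf (nat_lit 249) (nat_lit 493858305440582043680)) (.cons (.br (nat_lit 11) (nat_lit 0) (.cons (.ev (nat_lit 20361637770888301245514263822593) (nat_lit 1)) .nil)) .nil)))) .nil)))),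
 (.br (nat_lit 3) (nat_lit 0) (.cons (.rf (nat_lit 246) (nat_lit 493858305440582043680)) (.cons (.br (nat_lit 3) (nat_lit 0) (.cons (.kr (nat_lit 4722438541563194769410) (nat_lit 1208925820177579161681920) (nat_lit 0) (nat_lit 1)) (.cons (.kr (nat_lit 4722582655651758998018) (nat_lit 1208925820178678673440768) (nat_lit 0) (nat_lit 4)) (.cons (.rf (nat_lit 247) (nat_lit 15433070910038444064)) .nil)))) (.cons (.rf (nat_lit 250) (nat_lit 493858305440582043680)) (.cons (.br (nat_lit 3) (nat_lit 0) (.cons (.rf (nat_lit 242) (nat_lit 493858305440582043680)) (.cons (.rf (nat_lit 247) (nat_lit 15433070910038444064)) (.cons (.rf (nat_lit 250) (nat_lit 493858305440582043680)) .nil)))) .nil))))),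
 (.br (nat_lit 12) (nat_lit 0) (.cons (.ev (nat_lit 20361638975091754377273793380353) (nat_lit 1)) .nil)),
 (.br (nat_lit 3) (nat_lit 0) (.cons (.kr (nat_lit 72057594037927937) (nat_lit 281474993487872) (nat_lit 0) (nat_lit 1)) (.cons (.kr (nat_lit 4722582655651758998018) (nat_lit 1208925820178678673440768) (nat_lit 0) (nat_lit 4)) (.cons (.br (nat_lit 4) (nat_lit 0) (.cons (.rf (nat_lit 252) (nat_lit 493858305440582043680)) (.cons (.rf (nat_lit 249) (nat_lit 493750222348060034112)) (.cons (.br (nat_lit 8) (nat_lit 0) (.cons (.ev (nat_lit 20361637770888301245514263822593) (nat_lit 1)) .nil)) .nil)))) .nil)))),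
 (.br (nat_lit 3) (nat_lit 0) (.cons (.rf (nat_lit 246) (nat_lit 493858305440582043680)) (.cons (.rf (nat_lit 251) (nat_lit 493858305440582043680)) (.cons (.rf (nat_lit 253) (nat_lit 493858305440582043680)) (.cons (.br (nat_lit 3) (nat_lit 0) (.cons (.rf (nat_lit 246) (nat_lit 493858305440582043680)) (.cons (.rf (nat_lit 247) (nat_lit 15433070910038444064)) (.cons (.rf (nat_lit 253) (nat_lit 493858305440582043680)) .nil)))) .nil))))),
 (.br (nat_lit 3) (nat_lit 0) (.cons (.rf (nat_lit 245) (nat_lit 445091350149433376)) (.cons (.rf (nat_lit 251) (nat_lit 493858305440582043680)) (.cons (.rf (nat_lit 254) (nat_lit 493858305440582043680)) (.cons (.br (nat_lit 3) (nat_lit 0) (.cons (.rf (nat_lit 245) (nat_lit 445091350149433376)) (.cons (.rf (nat_lit 251) (nat_lit 493858305440582043680)) (.cons (.rf (nat_lit 254) (nat_lit 493858305440582043680)) .nil)))) .nil))))),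
 (.br (nat_lit 3) (nat_lit 0) (.cons (.kr (nat_lit 4722438541563194769410) (nat_lit 1208925820177579161681920) (nat_lit 0) (nat_lit 1)) (.cons (.kr (nat_lit 72057594037927937) (nat_lit 281474993487872) (nat_lit 0) (nat_lit 1)) (.cons (.kr (nat_lit 4722438541563194900482) (nat_lit 1208925820177579161682432) (nat_lit 0) (nat_lit 4)) .nil)))),
 (.br (nat_lit 3) (nat_lit 0) (.cons (.ev (nat_lit 20282410817318375324217625346305) (nat_lit 1)) (.cons (.kr (nat_lit 4722438541563194900482) (nat_lit 1208925820177579161682432) (nat_lit 0) (nat_lit 4)) (.cons (.ev (nat_lit 79229376162450716571635548416) (nat_lit 1)) .nil)))),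
 (.br (nat_lit 8) (nat_lit 0) (.cons (.br (nat_lit 3) (nat_lit 0) (.cons (.kr (nat_lit 4722438541563194769410) (nat_lit 1208925820177579161681920) (nat_lit 0) (nat_lit 1)) (.cons (.br (nat_lit 12) (nat_lit 0) (.cons (.ev (nat_lit 79229376162450716571635548416) (nat_lit 1)) (.cons (.ev (nat_lit 79229376162522492690713608193) (nat_lit 1)) .nil))) (.cons (.ev (nat_lit 20282410817318375324217625346305) (nat_lit 1)) .nil)))) (.cons (.br (nat_lit 11) (nat_lit 0) (.cons (.rf (nat_lit 256) (nat_lit 493858305440582043680)) (.cons (.br (nat_lit 3) (nat_lit 0) (.cons (.ev (nat_lit 79229376162450716571635548416) (nat_lit 1)) (.cons (.rf (nat_lit 257) (nat_lit 493858305440582043680)) .nil))) (.cons (.ev (nat_lit 20282410817318375324217625346305) (nat_lit 1)) .nil)))) (.cons (.br (nat_lit 3) (nat_lit 0) (.cons (.rf (nat_lit 256) (nat_lit 493858305440582043680)) (.cons (.br (nat_lit 11) (nat_lit 0) (.cons (.kr (nat_lit 72057594037927937) (nat_lit 281474993487872) (nat_lit 0) (nat_lit 1)) (.cons (.ev (nat_lit 121852915170142656839675780924418)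 (nat_lit 3)) .nil))) (.cons (.br (nat_lit 11) (nat_lit 0) (.cons (.kr (nat_lit 4722438541563194900482) (nat_lit 1208925820177579161682432) (nat_lit 0) (nat_lit 4)) (.cons (.rf (nat_lit 257) (nat_lit 493858305440582043680)) .nil))) .nil)))) (.cons (.ev (nat_lit 20282410817318375324217625280513) (nat_lit 1)) .nil))))),
 (.br (nat_lit 12) (nat_lit 0) (.cons (.ev (nat_lit 20282409603670117450599760986368) (nat_lit 1)) .nil)),
 (.br (nat_lit 4) (nat_lit 0) (.cons (.rf (nat_lit 259) (nat_lit 493858305440582043680)) (.cons (.rf (nat_lit 259) (nat_lit 492741412732994160672)) (.cons (.ev (nat_lit 20282409603670189507094287220736) (nat_lit 1)) .nil)))),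
 (.br (nat_lit 4) (nat_lit 0) (.cons (.br (nat_lit 11) (nat_lit 0) (.cons (.ev (nat_lit 20520096509064765865425134223875) (nat_lit 2)) .nil)) (.cons (.ev (nat_lit 20520096509064549976317037118210) (nat_lit 2)) .nil))),
 (.br (nat_lit 3) (nat_lit 0) (.cons (.rf (nat_lit 258) (nat_lit 493858305440582043680)) (.cons (.br (nat_lit 3) (nat_lit 0) (.cons (.kr (nat_lit 4722438541563194769410) (nat_lit 1208925820177579161681920) (nat_lit 0) (nat_lit 1)) (.cons (.rf (nat_lit 260) (nat_lit 493858305440582043680)) (.cons (.rf (nat_lit 247) (nat_lit 13129479700638435360)) .nil)))) (.cons (.br (nat_lit 3) (nat_lit 0) (.cons (.rf (nat_lit 258) (nat_lit 493858305440582043680)) (.cons (.rf (nat_lit 260) (nat_lit 493858305440582043680)) (.cons (.rf (nat_lit 261) (nat_lit 493858305440582043680)) .nil)))) (.cons (.br (nat_lit 3) (nat_lit 0) (.cons (.ev (nat_lit 20282410817318375324217625346305) (nat_lit 1)) (.cons (.rf (nat_lit 247) (nat_lit 13129479700638435360)) (.cons (.rf (nat_lit 261) (nat_lit 493858305440582043680))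 .nil)))) .nil))))),
 (.br (nat_lit 8) (nat_lit 0) (.cons (.ev (nat_lit 20282409603670117450599760920576) (nat_lit 1)) .nil)),
 (.br (nat_lit 3) (nat_lit 0) (.cons (.kr (nat_lit 72057594037927937) (nat_lit 281474993487872) (nat_lit 0) (nat_lit 1)) (.cons (.rf (nat_lit 260) (nat_lit 493858305440582043680)) (.cons (.br (nat_lit 4) (nat_lit 0) (.cons (.ev (nat_lit 20282409603670189507094287220736) (nat_lit 1)) (.cons (.rf (nat_lit 263) (nat_lit 493858305440582043680)) (.cons (.rf (nat_lit 263) (nat_lit 492741412732994160672)) .nil)))) .nil)))),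
 (.br (nat_lit 3) (nat_lit 0) (.cons (.rf (nat_lit 258) (nat_lit 493858305440582043680)) (.cons (.rf (nat_lit 262) (nat_lit 493858305440582043680)) (.cons (.rf (nat_lit 264) (nat_lit 493858305440582043680)) (.cons (.br (nat_lit 3) (nat_lit 0) (.cons (.kr (nat_lit 4722438541563194900482) (nat_lit 1208925820177579161682432) (nat_lit 0) (nat_lit 4)) (.cons (.rf (nat_lit 247) (nat_lit 13129479700638435360)) (.cons (.rf (nat_lit 264) (nat_lit 493858305440582043680)) .nil)))) .nil))))),
 (.br (nat_lit 3) (nat_lit 0) (.cons (.rf (nat_lit 258) (nat_lit 493858305440582043680)) (.cons (.rf (nat_lit 262) (nat_lit 493858305440582043680)) (.cons (.rf (nat_lit 264) (nat_lit 493858305440582043680)) (.cons (.br (nat_lit 3) (nat_lit 0) (.cons (.rf (nat_lit 258) (nat_lit 493858305440582043680)) (.cons (.rf (nat_lit 262) (nat_lit 493858305440582043680)) (.cons (.rf (nat_lit 264) (nat_lit 493858305440582043680)) .nil)))) .nil))))),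
 (.br (nat_lit 2) (nat_lit 0) (.cons (.rf (nat_lit 171) (nat_lit 493858305440582042688)) (.cons (.rf (nat_lit 241) (nat_lit 493858305440582042688)) (.cons (.kr (nat_lit 256) (nat_lit 65536) (nat_lit 1) (nat_lit 0)) (.cons (.br (nat_lit 3) (nat_lit 0) (.cons (.rf (nat_lit 246) (nat_lit 493858305440582043680)) (.cons (.rf (nat_lit 251) (nat_lit 493858305440582043680)) (.cons (.rf (nat_lit 254) (nat_lit 493858305440582043680)) (.cons (.rf (nat_lit 255) (nat_lit 493858305440582043680)) (.cons (.br (nat_lit 3) (nat_lit 0) (.cons (.rf (nat_lit 246) (nat_lit 493858305440582043680)) (.cons (.rf (nat_lit 251) (nat_lit 493858305440582043680)) (.cons (.rf (nat_lit 254) (nat_lit 493858305440582043680)) (.cons (.rf (nat_lit 255) (nat_lit 493858305440582043680)) .nil))))) .nil)))))) (.cons (.kr (nat_lit 1208925891672223212634624) (nat_lit 4722366483969156972544) (nat_lit 1) (nat_lit 0)) (.cons (.br (nat_lit 3) (nat_lit 0) (.cons (.rf (nat_lit 258) (nat_lit 493858305440582043680)) (.cons (.rf (nat_lit 262) (nat_lit 493858305440582043680))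 (.cons (.rf (nat_lit 265) (nat_lit 493858305440582043680)) (.cons (.rf (nat_lit 266) (nat_lit 493858305440582043680)) (.cons (.br (nat_lit 3) (nat_lit 0) (.cons (.rf (nat_lit 258) (nat_lit 493858305440582043680)) (.cons (.rf (nat_lit 262) (nat_lit 493858305440582043680)) (.cons (.rf (nat_lit 265) (nat_lit 493858305440582043680)) (.cons (.rf (nat_lit 266) (nat_lit 493858305440582043680)) .nil))))) .nil)))))) .nil))))))),
 (.br (nat_lit 11) (nat_lit 0) (.cons (.ev (nat_lit 79229376162522492690713608193) (nat_lit 1)) (.cons (.br (nat_lit 12) (nat_lit 0) (.cons (.zr (nat_lit 237686905449916589448236302336) (nat_lit 618984186742702804440187394) (nat_lit 10) (nat_lit 12)) .nil)) .nil))),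
 (.br (nat_lit 11) (nat_lit 0) (.cons (.ev (nat_lit 309485009893402667074453504) (nat_lit 1)) .nil)),
 (.br (nat_lit 3) (nat_lit 0) (.cons (.ev (nat_lit 309485009821346172548218881) (nat_lit 1)) (.cons (.rf (nat_lit 269) (nat_lit 14242959524133701664)) .nil))),
 (.br (nat_lit 12) (nat_lit 0) (.cons (.rf (nat_lit 268) (nat_lit 493858305440582043680)) (.cons (.rf (nat_lit 270) (nat_lit 445091350149433376)) (.cons (.br (nat_lit 12) (nat_lit 0) (.cons (.rf (nat_lit 268) (nat_lit 493858305440582043680)) (.cons (.rf (nat_lit 270) (nat_lit 445091350149433376)) .nil))) .nil)))),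
 (.br (nat_lit 3) (nat_lit 0) (.cons (.rf (nat_lit 271) (nat_lit 493858305440582043680)) (.cons (.br (nat_lit 6) (nat_lit 0) (.cons (.ev (nat_lit 79229376162522492690713608193) (nat_lit 1)) (.cons (.br (nat_lit 12) (nat_lit 0) (.cons (.zr (nat_lit 237686905449916589448236105984) (nat_lit 618984186742702804440186882) (nat_lit 10) (nat_lit 12)) .nil)) .nil))) (.cons (.br (nat_lit 6) (nat_lit 0) (.cons (.rf (nat_lit 269) (nat_lit 15427441415872939072)) (.cons (.kr (nat_lit 14167171506202973569538) (nat_lit 40564820416229160463623189168128) (nat_lit 0) (nat_lit 3)) .nil))) .nil)))),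
 (.br (nat_lit 3) (nat_lit 0) (.cons (.rf (nat_lit 271) (nat_lit 493858305440582043680)) (.cons (.rf (nat_lit 272) (nat_lit 493858305440582043680)) (.cons (.br (nat_lit 13) (nat_lit 0) (.cons (.kr (nat_lit 14167171506202973569538) (nat_lit 40564820416229160463623189168128) (nat_lit 0) (nat_lit 3)) (.cons (.kr (nat_lit 14167171506202973569026) (nat_lit 40564820416229160463623189037056) (nat_lit 0) (nat_lit 1)) (.cons (.ev (nat_lit 79229376162522492690713542913) (nat_lit 1)) .nil)))) .nil)))),
 (.br (nat_lit 3) (nat_lit 0) (.cons (.rf (nat_lit 271) (nat_lit 493858305440582043680)) (.cons (.rf (nat_lit 272) (nat_lit 493858305440582043680)) (.cons (.rf (nat_lit 273) (nat_lit 493858305440582043680)) (.cons (.br (nat_lit 3) (nat_lit 0) (.cons (.rf (nat_lit 271) (nat_lit 493858305440582043680)) (.cons (.rf (nat_lit 272) (nat_lit 493858305440582043680)) (.cons (.rf (nat_lit 273) (nat_lit 493858305440582043680)) .nil)))) .nil)))))]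

theorem c10 : chkAll C T R L10 (nat_lit 242) = true := by decide +kernel

theorem l10 : (nat_lit 242) + L10.length = (nat_lit 275) := by decide +kernel

/-- part of the certificates -/
def L11 : List Prf := [(.br (nat_lit 3) (nat_lit 0) (.cons (.rf (nat_lit 274) (nat_lit 493858305440582043680)) (.cons (.br (nat_lit 4) (nat_lit 0) (.cons (.ev (nat_lit 79229376162450436196187242496) (nat_lit 1)) (.cons (.br (nat_lit 12) (nat_lit 0) (.cons (.ev (nat_lit 475370207660347723182059421700) (nat_lit 3)) .nil)) .nil))) (.cons (.rf (nat_lit 247) (nat_lit 15433068713162672160)) .nil)))),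
 (.br (nat_lit 3) (nat_lit 0) (.cons (.rf (nat_lit 274) (nat_lit 493858305440582043680)) (.cons (.rf (nat_lit 275) (nat_lit 493858305440582043680)) (.cons (.br (nat_lit 4) (nat_lit 0) (.cons (.rf (nat_lit 248) (nat_lit 493858303243706271776)) (.cons (.br (nat_lit 11) (nat_lit 0) (.cons (.zr (nat_lit 2417851711289051410595843) (nat_lit 79537647542532708215266738432) (nat_lit 5) (nat_lit 4)) .nil)) (.cons (.kr (nat_lit 4722366482869645213697) (nat_lit 20282409603651670423947251351552) (nat_lit 0) (nat_lit 1)) .nil)))) .nil)))),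
 (.br (nat_lit 3) (nat_lit 0) (.cons (.rf (nat_lit 274) (nat_lit 493858305440582043680)) (.cons (.rf (nat_lit 275) (nat_lit 493858305440582043680)) (.cons (.rf (nat_lit 276) (nat_lit 493858305440582043680)) (.cons (.br (nat_lit 3) (nat_lit 0) (.cons (.rf (nat_lit 274) (nat_lit 493858305440582043680)) (.cons (.rf (nat_lit 247) (nat_lit 15433068713162672160)) (.cons (.rf (nat_lit 276) (nat_lit 493858305440582043680)) .nil)))) .nil))))),
 (.br (nat_lit 3) (nat_lit 0) (.cons (.rf (nat_lit 274) (nat_lit 493858305440582043680)) (.cons (.rf (nat_lit 277) (nat_lit 493858305440582043680)) (.cons (.br (nat_lit 4) (nat_lit 0) (.cons (.rf (nat_lit 252) (nat_lit 493858303243706271776)) (.cons (.br (nat_lit 6) (nat_lit 0) (.cons (.zr (nat_lit 2417851711289051410661379) (nat_lit 79537647542532708215266738688) (nat_lit 5) (nat_lit 4)) .nil)) (.cons (.kr (nat_lit 4722366482869645213697) (nat_lit 20282409603651670423947251351552) (nat_lit 0) (nat_lit 1)) .nil)))) .nil)))),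
 (.br (nat_lit 3) (nat_lit 0) (.cons (.rf (nat_lit 274) (nat_lit 493858305440582043680)) (.cons (.rf (nat_lit 277) (nat_lit 493858305440582043680)) (.cons (.rf (nat_lit 278) (nat_lit 493858305440582043680)) (.cons (.br (nat_lit 3) (nat_lit 0) (.cons (.rf (nat_lit 274) (nat_lit 493858305440582043680)) (.cons (.rf (nat_lit 247) (nat_lit 15433068713162672160)) (.cons (.rf (nat_lit 278) (nat_lit 493858305440582043680)) .nil)))) .nil))))),
 (.br (nat_lit 3) (nat_lit 0) (.cons (.rf (nat_lit 274) (nat_lit 493858305440582043680)) (.cons (.rf (nat_lit 277) (nat_lit 493858305440582043680)) (.cons (.rf (nat_lit 279) (nat_lit 493858305440582043680)) (.cons (.br (nat_lit 3) (nat_lit 0) (.cons (.rf (nat_lit 274) (nat_lit 493858305440582043680)) (.cons (.rf (nat_lit 277) (nat_lit 493858305440582043680)) (.cons (.rf (nat_lit 279) (nat_lit 493858305440582043680)) .nil)))) .nil))))),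
 (.br (nat_lit 3) (nat_lit 0) (.cons (.br (nat_lit 11) (nat_lit 0) (.cons (.ev (nat_lit 41040189405518957287590028772358) (nat_lit 3)) .nil)) (.cons (.ev (nat_lit 121852915170142511605184934970368) (nat_lit 3)) .nil))),
 (.br (nat_lit 3) (nat_lit 0) (.cons (.rf (nat_lit 281) (nat_lit 493858305440582043680)) (.cons (.br (nat_lit 4) (nat_lit 0) (.cons (.ev (nat_lit 40723276774425007606100312195072) (nat_lit 3)) .nil)) .nil))),
 (.br (nat_lit 6) (nat_lit 0) (.cons (.br (nat_lit 11) (nat_lit 0) (.cons (.ev (nat_lit 79229376162450716571635548416) (nat_lit 1)) .nil)) (.cons (.br (nat_lit 3) (nat_lit 0) (.cons (.ev (nat_lit 79229376162450716571635548416) (nat_lit 1)) .nil)) (.cons (.ev (nat_lit 79228162514264619072815628289) (nat_lit 1)) .nil)))),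
 (.br (nat_lit 4) (nat_lit 0) (.cons (.rf (nat_lit 283) (nat_lit 493858305440582043680)) (.cons (.br (nat_lit 3) (nat_lit 0) (.cons (.ev (nat_lit 79229376162450716571635548416) (nat_lit 1)) .nil)) (.cons (.ev (nat_lit 20361638975091826716342791176448) (nat_lit 1)) .nil)))),
 (.br (nat_lit 3) (nat_lit 0) (.cons (.rf (nat_lit 283) (nat_lit 493858305440582043680)) (.cons (.rf (nat_lit 284) (nat_lit 493858305440582043680)) (.cons (.br (nat_lit 4) (nat_lit 0) (.cons (.ev (nat_lit 20361637770888301525889712193536) (nat_lit 1)) .nil)) .nil)))),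
 (.br (nat_lit 3) (nat_lit 0) (.cons (.ev (nat_lit 121852915170142511605184934839808) (nat_lit 3)) (.cons (.br (nat_lit 6) (nat_lit 0) (.cons (.ev (nat_lit 41040189405518957287590028641798) (nat_lit 3)) .nil)) .nil))),
 (.br (nat_lit 3) (nat_lit 0) (.cons (.ev (nat_lit 121852915170142511605184934839808) (nat_lit 3)) (.cons (.br (nat_lit 4) (nat_lit 0) (.cons (.ev (nat_lit 40723276774425007606100312327680) (nat_lit 3)) .nil)) .nil))),
 (.br (nat_lit 13) (nat_lit 0) (.cons (.ev (nat_lit 4740885285641199353856) (nat_lit 1)) (.cons (.br (nat_lit 3) (nat_lit 0) (.cons (.rf (nat_lit 281) (nat_lit 493858305440582043680)) (.cons (.rf (nat_lit 282) (nat_lit 493858305440582043680)) (.cons (.br (nat_lit 3) (nat_lit 0) (.cons (.ev (nat_lit 121852915170142511605184934970368) (nat_lit 3)) (.cons (.rf (nat_lit 282) (nat_lit 493858305440582043680)) .nil))) .nil)))) (.cons (.br (nat_lit 3) (nat_lit 0) (.cons (.rf (nat_lit 283) (nat_lit 493858305440582043680)) (.cons (.rf (nat_lit 284) (nat_lit 493858305440582043680)) (.cons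 (.rf (nat_lit 285) (nat_lit 493858305440582043680)) (.cons (.br (nat_lit 3) (nat_lit 0) (.cons (.rf (nat_lit 283) (nat_lit 493858305440582043680)) (.cons (.rf (nat_lit 284) (nat_lit 493858305440582043680)) (.cons (.rf (nat_lit 285) (nat_lit 493858305440582043680)) .nil)))) .nil))))) (.cons (.br (nat_lit 3) (nat_lit 0) (.cons (.rf (nat_lit 286) (nat_lit 493858305440582043680)) (.cons (.rf (nat_lit 287) (nat_lit 493858305440582043680)) (.cons (.br (nat_lit 3) (nat_lit 0) (.cons (.rf (nat_lit 286) (nat_lit 493858305440582043680)) (.cons (.rf (nat_lit 287) (nat_lit 493858305440582043680)) .nil))) .nil)))) .nil))))),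
 (.br (nat_lit 13) (nat_lit 0) (.cons (.rf (nat_lit 288) (nat_lit 493858305440582043680)) (.cons (.ev (nat_lit 4740885285641199353856) (nat_lit 1)) (.cons (.kr (nat_lit 1213648258155092857848320) (nat_lit 40564819207303340848994014330880) (nat_lit 1) (nat_lit 0)) (.cons (.br (nat_lit 4) (nat_lit 0) (.cons (.ev (nat_lit 79229376162522775265185169665) (nat_lit 1)) (.cons (.ev (nat_lit 79229376162450716571635548416) (nat_lit 1)) .nil))) .nil))))),
 (.br (nat_lit 3) (nat_lit 0) (.cons (.br (nat_lit 11) (nat_lit 0) (.cons (.zr (nat_lit 40564819207303341414143024431105) (nat_lit 79537647542748599522387099904) (nat_lit 5) (nat_lit 4)) .nil)) (.cons (.ev (nat_lit 79228162514264338697367388161) (nat_lit 1)) .nil))),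
 (.br (nat_lit 4) (nat_lit 0) (.cons (.ev (nat_lit 20282409603670117450599760920576) (nat_lit 1)) .nil)),
 (.br (nat_lit 3) (nat_lit 0) (.cons (.br (nat_lit 11) (nat_lit 0) (.cons (.ev (nat_lit 40564820421025674773725029074432) (nat_lit 3)) .nil)) (.cons (.ev (nat_lit 79229376162522492690713542913) (nat_lit 1)) (.cons (.br (nat_lit 6) (nat_lit 0) (.cons (.ev (nat_lit 40564820421025674773725028941824) (nat_lit 3)) .nil)) .nil)))),
 (.br (nat_lit 4) (nat_lit 0) (.cons (.rf (nat_lit 292) (nat_lit 493858305440582043680)) (.cons (.br (nat_lit 3) (nat_lit 0) (.cons (.ev (nat_lit 20282409603670189507094287220993) (nat_lit 1)) .nil)) (.cons (.ev (nat_lit 20520097732157612872168718402304) (nat_lit 2)) .nil)))),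
 (.br (nat_lit 3) (nat_lit 0) (.cons (.ev (nat_lit 79229376162522492690713542913) (nat_lit 1)) (.cons (.rf (nat_lit 293) (nat_lit 493858305440582043680)) (.cons (.br (nat_lit 4) (nat_lit 0) (.cons (.ev (nat_lit 20361637766221347333939073712896) (nat_lit 2)) .nil)) .nil)))),
 (.br (nat_lit 3) (nat_lit 0) (.cons (.ev (nat_lit 79228162514264338697367388161) (nat_lit 1)) (.cons (.br (nat_lit 6) (nat_lit 0) (.cons (.zr (nat_lit 40564819207303341414143024431105) (nat_lit 79537647542748599522387099904) (nat_lit 5) (nat_lit 4)) .nil)) .nil))),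
 (.br (nat_lit 3) (nat_lit 0) (.cons (.ev (nat_lit 309485009821346172548218881) (nat_lit 1)) (.cons (.br (nat_lit 4) (nat_lit 0) (.cons (.ev (nat_lit 79228162532711364246053650688) (nat_lit 1)) .nil)) .nil))),
 (.br (nat_lit 12) (nat_lit 0) (.cons (.ev (nat_lit 4740885285641199353856) (nat_lit 1)) (.cons (.br (nat_lit 3) (nat_lit 0) (.cons (.rf (nat_lit 290) (nat_lit 493858305440582043680)) (.cons (.br (nat_lit 3) (nat_lit 0) (.cons (.rf (nat_lit 290) (nat_lit 493858305440582043680)) (.cons (.rf (nat_lit 291) (nat_lit 493858305440582043680)) .nil))) (.cons (.br (nat_lit 3) (nat_lit 0) (.cons (.ev (nat_lit 79229376162522492690713608193) (nat_lit 1)) (.cons (.rf (nat_lit 291) (nat_lit 493858305440582043680)) .nil))) .nil)))) (.cons (.br (nat_lit 3) (nat_lit 0) (.cons (.rf (nat_lit 292) (nat_lit 493858305440582043680)) (.cons (.rf (nat_lit 293) (nat_lit 493858305440582043680)) (.cons (.rf (nat_lit 294) (nat_lit 493858305440582043680)) (.cons (.br (nat_lit 3) (nat_lit 0) (.cons (.rf (nat_lit 292) (nat_lit 493858305440582043680))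 (.cons (.rf (nat_lit 293) (nat_lit 493858305440582043680)) (.cons (.rf (nat_lit 294) (nat_lit 493858305440582043680)) .nil)))) .nil))))) (.cons (.br (nat_lit 3) (nat_lit 0) (.cons (.rf (nat_lit 295) (nat_lit 493858305440582043680)) (.cons (.rf (nat_lit 296) (nat_lit 15431909825759512608)) (.cons (.br (nat_lit 3) (nat_lit 0) (.cons (.rf (nat_lit 295) (nat_lit 493858305440582043680)) (.cons (.rf (nat_lit 296) (nat_lit 15431909825759512608)) .nil))) .nil)))) .nil))))),
 (.br (nat_lit 3) (nat_lit 0) (.cons (.kr (nat_lit 4722438540463683141633) (nat_lit 79228162532711081667270279168) (nat_lit 0) (nat_lit 1)) .nil)),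
 (.br (nat_lit 3) (nat_lit 0) (.cons (.br (nat_lit 3) (nat_lit 0) .nil) .nil)),
 (.br (nat_lit 12) (nat_lit 0) (.cons (.rf (nat_lit 297) (nat_lit 493858305440582043680)) (.cons (.ev (nat_lit 4740885285641199353856) (nat_lit 1)) (.cons (.br (nat_lit 4) (nat_lit 0) (.cons (.br (nat_lit 3) (nat_lit 0) (.cons (.rf (nat_lit 298) (nat_lit 493858305440582043680)) (.cons (.ev (nat_lit 41040189405519244392066206269442) (nat_lit 3)) .nil))) (.cons (.rf (nat_lit 299) (nat_lit 470977729366048)) (.cons (.ev (nat_lit 20361637770888301525889712193536) (nat_lit 1)) .nil)))) (.cons (.kr (nat_lit 40564819212025707894813612834816) (nat_lit 158457533991313835557719638016) (nat_lit 5) (nat_lit 0)) .nil))))),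
 (.br (nat_lit 3) (nat_lit 0) (.cons (.kr (nat_lit 4722438540463683141633) (nat_lit 79228162532711081667270279168) (nat_lit 0) (nat_lit 1)) .nil)),
 (.br (nat_lit 12) (nat_lit 0) (.cons (.rf (nat_lit 297) (nat_lit 493858305440582043680)) (.cons (.ev (nat_lit 4740885285641199353856) (nat_lit 1)) (.cons (.rf (nat_lit 300) (nat_lit 493858305440582043680)) (.cons (.br (nat_lit 4) (nat_lit 0) (.cons (.br (nat_lit 3) (nat_lit 0) (.cons (.ev (nat_lit 41040189405519244392066206402050) (nat_lit 3)) (.cons (.rf (nat_lit 301) (nat_lit 493858305440582043680)) .nil))) (.cons (.ev (nat_lit 20361637770888301525889712193536) (nat_lit 1)) (.cons (.rf (nat_lit 299) (nat_lit 224687359624256)) .nil)))) .nil))))),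
 (.br (nat_lit 2) (nat_lit 0) (.cons (.rf (nat_lit 171) (nat_lit 493858305440582042688)) (.cons (.rf (nat_lit 241) (nat_lit 493858305440582042688)) (.cons (.kr (nat_lit 256) (nat_lit 65536) (nat_lit 1) (nat_lit 0)) (.cons (.br (nat_lit 3) (nat_lit 0) (.cons (.rf (nat_lit 274) (nat_lit 493858305440582043680)) (.cons (.rf (nat_lit 277) (nat_lit 493858305440582043680)) (.cons (.rf (nat_lit 279) (nat_lit 493858305440582043680)) (.cons (.rf (nat_lit 280) (nat_lit 493858305440582043680)) (.cons (.br (nat_lit 3) (nat_lit 0) (.cons (.rf (nat_lit 274) (nat_lit 493858305440582043680)) (.cons (.rf (nat_lit 277) (nat_lit 493858305440582043680)) (.cons (.rf (nat_lit 279) (nat_lit 493858305440582043680)) (.cons (.rf (nat_lit 280) (nat_lit 493858305440582043680)) .nil))))) .nil)))))) (.cons (.br (nat_lit 13) (nat_lit 0) (.cons (.rf (nat_lit 288) (nat_lit 493858305440582043680)) (.cons (.ev (nat_lit 4740885285641199353856) (nat_lit 1)) (.cons (.rf (nat_lit 289) (nat_lit 493858305440582043680)) (.cons (.br (nat_lit 13)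 (nat_lit 0) (.cons (.rf (nat_lit 288) (nat_lit 493858305440582043680)) (.cons (.ev (nat_lit 4740885285641199353856) (nat_lit 1)) (.cons (.kr (nat_lit 1213648258155092857848320) (nat_lit 40564819207303340848994014330880) (nat_lit 1) (nat_lit 0)) (.cons (.kr (nat_lit 40564819207303340848994014199808) (nat_lit 1213648258155092857847808) (nat_lit 5) (nat_lit 0)) .nil))))) (.cons (.br (nat_lit 13) (nat_lit 0) (.cons (.rf (nat_lit 288) (nat_lit 493858305440582043680)) (.cons (.ev (nat_lit 4740885285641199353856) (nat_lit 1)) (.cons (.rf (nat_lit 289) (nat_lit 493858305440582043680)) (.cons (.kr (nat_lit 40564819207303340848994014199808) (nat_lit 1213648258155092857847808) (nat_lit 5) (nat_lit 0)) .nil))))) .nil)))))) (.cons (.br (nat_lit 12) (nat_lit 0) (.cons (.rf (nat_lit 297) (nat_lit 493858305440582043680)) (.cons (.ev (nat_lit 4740885285641199353856) (nat_lit 1)) (.cons (.rf (nat_lit 300) (nat_lit 493858305440582043680)) (.cons (.rf (nat_lit 302) (nat_lit 493858305440582043680)) (.cons (.br (nat_lit 12)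 (nat_lit 0) (.cons (.rf (nat_lit 297) (nat_lit 493858305440582043680)) (.cons (.ev (nat_lit 4740885285641199353856) (nat_lit 1)) (.cons (.kr (nat_lit 40564819212025707894813612834816) (nat_lit 158457533991313835557719638016) (nat_lit 5) (nat_lit 0)) (.cons (.rf (nat_lit 302) (nat_lit 493858305440582043680)) .nil))))) .nil)))))) .nil))))))),
 (.br (nat_lit 13) (nat_lit 0) (.cons (.ev (nat_lit 4740813509522154848513) (nat_lit 1)) (.cons (.br (nat_lit 8) (nat_lit 0) (.cons (.ev (nat_lit 4740813509522154848513) (nat_lit 1)) .nil)) .nil))),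
 (.br (nat_lit 6) (nat_lit 0) (.cons (.br (nat_lit 11) (nat_lit 0) (.cons (.rf (nat_lit 304) (nat_lit 493858305440582043680)) (.cons (.br (nat_lit 13) (nat_lit 0) (.cons (.ev (nat_lit 4740813509522154848513) (nat_lit 1)) (.cons (.br (nat_lit 3) (nat_lit 0) (.cons (.ev (nat_lit 4740813509522154848513) (nat_lit 1)) .nil)) .nil))) (.cons (.ev (nat_lit 79228162514336677766365184256) (nat_lit 1)) (.cons (.br (nat_lit 13) (nat_lit 0) (.cons (.kr (nat_lit 4722438540463683141633) (nat_lit 20282409603651670425046762979328) (nat_lit 0) (nat_lit 1)) (.cons (.kr (nat_lit 4722366482869645213696) (nat_lit 20282409603651670423947251286016) (nat_lit 9) (nat_lit 0)) (.cons (.kr (nat_lit 40564819207303340848994014199808) (nat_lit 1213648258155092857847808) (nat_lit 5) (nat_lit 0)) .nil)))) .nil))))) (.cons (.br (nat_lit 11) (nat_lit 0) (.cons (.br (nat_lit 13) (nat_lit 0) (.cons (.ev (nat_lit 4740885566016681214208) (nat_lit 1)) (.cons (.br (nat_lit 3) (nat_lit 0) (.cons (.ev (nat_lit 4740885566016681214208) (nat_lit 1))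 .nil)) .nil))) (.cons (.ev (nat_lit 79228162514264619072815694081) (nat_lit 1)) (.cons (.br (nat_lit 13) (nat_lit 0) (.cons (.kr (nat_lit 4722438540463683141633) (nat_lit 20282409603651670425046762979328) (nat_lit 0) (nat_lit 1)) (.cons (.kr (nat_lit 40564819207303340848994014199808) (nat_lit 1213648258155092857847808) (nat_lit 5) (nat_lit 0)) .nil))) .nil)))) (.cons (.br (nat_lit 12) (nat_lit 0) (.cons (.ev (nat_lit 79228162514336677766365184256) (nat_lit 1)) (.cons (.ev (nat_lit 79228162514264619072815694081) (nat_lit 1)) (.cons (.br (nat_lit 3) (nat_lit 0) (.cons (.br (nat_lit 3) (nat_lit 0) (.cons (.ev (nat_lit 20282410817318303548098580840448) (nat_lit 1)) .nil)) (.cons (.br (nat_lit 3) (nat_lit 0) (.cons (.ev (nat_lit 20282410817318303548098580840448) (nat_lit 1)) .nil)) .nil))) .nil)))) (.cons (.ev (nat_lit 79228162514264619072815628289) (nat_lit 1)) (.cons (.br (nat_lit 13) (nat_lit 0) (.cons (.kr (nat_lit 1213648402270280933704194) (nat_lit 40564819207303340851193037717504) (nat_lit 0) (nat_lit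 3)) (.cons (.kr (nat_lit 1213648258155092857848320) (nat_lit 40564819207303340848994014330880) (nat_lit 1) (nat_lit 0)) (.cons (.br (nat_lit 3) (nat_lit 0) (.cons (.br (nat_lit 3) (nat_lit 0) (.cons (.ev (nat_lit 4740813509522154913793) (nat_lit 1)) .nil)) (.cons (.br (nat_lit 3) (nat_lit 0) (.cons (.ev (nat_lit 4740813509522154913793) (nat_lit 1)) .nil)) .nil))) (.cons (.kr (nat_lit 1208925891672223212634368) (nat_lit 20282409603651670425046762979328) (nat_lit 1) (nat_lit 0)) .nil))))) .nil))))))]

theorem c11 : chkAll C T R L11 (nat_lit 275) = true := by decide +kernel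

theorem l11 : (nat_lit 275) + L11.length = (nat_lit 306) := by decide +kernel

/-- part of the certificates -/
def L12 : List Prf := [(.br (nat_lit 4) (nat_lit 0) (.cons (.rf (nat_lit 305) (nat_lit 493858305440582043680)) (.cons (.br (nat_lit 11) (nat_lit 0) (.cons (.br (nat_lit 13) (nat_lit 0) (.cons (.ev (nat_lit 4740885566016681214208) (nat_lit 1)) (.cons (.br (nat_lit 3) (nat_lit 0) (.cons (.ev (nat_lit 4740885566016681214208) (nat_lit 1)) .nil)) .nil))) (.cons (.ev (nat_lit 79228162514264619072815694081) (nat_lit 1)) (.cons (.br (nat_lit 13) (nat_lit 0) (.cons (.kr (nat_lit 4722438540463683141633) (nat_lit 20282409603651670425046762979328) (nat_lit 0) (nat_lit 1)) (.cons (.kr (nat_lit 40564819207303340848994014199808) (nat_lit 1213648258155092857847808) (nat_lit 5) (nat_lit 0)) .nil))) .nil)))) (.cons (.br (nat_lit 12) (nat_lit 0) (.cons (.ev (nat_lit 79228162514336677766365184256) (nat_lit 1)) (.cons (.ev (nat_lit 79228162514264619072815694081) (nat_lit 1)) (.cons (.br (nat_lit 3) (nat_lit 0) (.cons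 (.br (nat_lit 3) (nat_lit 0) (.cons (.ev (nat_lit 20282410817318375604593107206400) (nat_lit 1)) .nil)) (.cons (.br (nat_lit 3) (nat_lit 0) (.cons (.ev (nat_lit 20282410817318375604593107206400) (nat_lit 1)) .nil)) .nil))) .nil)))) (.cons (.ev (nat_lit 79228162514336677766365249793) (nat_lit 1)) (.cons (.br (nat_lit 13) (nat_lit 0) (.cons (.kr (nat_lit 1213648258155092857847810) (nat_lit 40564819207303340848994014330880) (nat_lit 0) (nat_lit 1)) (.cons (.kr (nat_lit 1213648186098598331547648) (nat_lit 40564819207303412905488540499968) (nat_lit 5) (nat_lit 0)) (.cons (.br (nat_lit 3) (nat_lit 0) (.cons (.br (nat_lit 3) (nat_lit 0) (.cons (.ev (nat_lit 4740885566016681148673) (nat_lit 1)) .nil)) (.cons (.br (nat_lit 3) (nat_lit 0) (.cons (.ev (nat_lit 4740885566016681148673) (nat_lit 1)) .nil)) .nil))) (.cons (.kr (nat_lit 1208925819614629174706176) (nat_lit 20282409603651670423947251286016) (nat_lit 10) (nat_lit 0)) .nil))))) .nil)))))),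
 (.br (nat_lit 13) (nat_lit 0) (.cons (.br (nat_lit 6) (nat_lit 0) (.cons (.ev (nat_lit 20361638975091754657649241620481) (nat_lit 1)) .nil)) (.cons (.br (nat_lit 4) (nat_lit 0) (.cons (.ev (nat_lit 20361638975091754657649241620481) (nat_lit 1)) .nil)) .nil))),
 (.br (nat_lit 3) (nat_lit 0) (.cons (.rf (nat_lit 305) (nat_lit 493858305440582043680)) (.cons (.rf (nat_lit 306) (nat_lit 493858305440582043680)) (.cons (.rf (nat_lit 307) (nat_lit 493858305440582043680)) (.cons (.br (nat_lit 4) (nat_lit 0) (.cons (.ev (nat_lit 4740885566016681214208) (nat_lit 1)) (.cons (.br (nat_lit 6) (nat_lit 0) (.cons (.zr (nat_lit 1213648186100797354868739) (nat_lit 79537647542532708215266738688) (nat_lit 5) (nat_lit 4)) .nil)) (.cons (.kr (nat_lit 1213648258155092857847810) (nat_lit 40564819207303340848994014330880) (nat_lit 0) (nat_lit 1)) .nil)))) .nil))))),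
 (.br (nat_lit 3) (nat_lit 0) (.cons (.rf (nat_lit 305) (nat_lit 493858305440582043680)) (.cons (.rf (nat_lit 306) (nat_lit 493858305440582043680)) (.cons (.rf (nat_lit 307) (nat_lit 493858305440582043680)) (.cons (.br (nat_lit 13) (nat_lit 0) (.cons (.kr (nat_lit 1213648258155092857847810) (nat_lit 40564819207303340848994014330880) (nat_lit 0) (nat_lit 1)) (.cons (.kr (nat_lit 1213648402270280933704194) (nat_lit 40564819207303340851193037717504) (nat_lit 0) (nat_lit 3)) (.cons (.kr (nat_lit 4722438540463683141633) (nat_lit 20282409603651670425046762979328) (nat_lit 0) (nat_lit 1)) .nil)))) .nil))))),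
 (.br (nat_lit 3) (nat_lit 0) (.cons (.rf (nat_lit 305) (nat_lit 493858305440582043680)) (.cons (.rf (nat_lit 306) (nat_lit 493858305440582043680)) (.cons (.rf (nat_lit 308) (nat_lit 493858305440582043680)) (.cons (.rf (nat_lit 309) (nat_lit 493858305440582043680)) (.cons (.br (nat_lit 3) (nat_lit 0) (.cons (.rf (nat_lit 305) (nat_lit 493858305440582043680)) (.cons (.rf (nat_lit 306) (nat_lit 493858305440582043680)) (.cons (.rf (nat_lit 308) (nat_lit 493858305440582043680)) (.cons (.rf (nat_lit 309) (nat_lit 493858305440582043680)) .nil))))) .nil)))))),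
 (.br (nat_lit 3) (nat_lit 0) (.cons (.rf (nat_lit 305) (nat_lit 493858305440582043680)) (.cons (.rf (nat_lit 306) (nat_lit 493858305440582043680)) (.cons (.rf (nat_lit 307) (nat_lit 493858305440582043680)) (.cons (.br (nat_lit 13) (nat_lit 0) (.cons (.kr (nat_lit 1213648258155092857847810) (nat_lit 40564819207303340848994014330880) (nat_lit 0) (nat_lit 1)) (.cons (.kr (nat_lit 1213648402270280933704194) (nat_lit 40564819207303340851193037717504) (nat_lit 0) (nat_lit 3)) (.cons (.br (nat_lit 4) (nat_lit 0) (.cons (.ev (nat_lit 20361637770888301525889712193536) (nat_lit 1)) .nil)) .nil)))) .nil))))),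
 (.br (nat_lit 3) (nat_lit 0) (.cons (.rf (nat_lit 305) (nat_lit 493858305440582043680)) (.cons (.rf (nat_lit 306) (nat_lit 493858305440582043680)) (.cons (.rf (nat_lit 310) (nat_lit 493858305440582043680)) (.cons (.rf (nat_lit 311) (nat_lit 493858305440582043680)) (.cons (.br (nat_lit 3) (nat_lit 0) (.cons (.rf (nat_lit 305) (nat_lit 493858305440582043680)) (.cons (.rf (nat_lit 306) (nat_lit 493858305440582043680)) (.cons (.rf (nat_lit 310) (nat_lit 493858305440582043680)) (.cons (.rf (nat_lit 311) (nat_lit 493858305440582043680)) .nil))))) .nil)))))),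
 (.br (nat_lit 3) (nat_lit 0) (.cons (.rf (nat_lit 305) (nat_lit 493858305440582043680)) (.cons (.rf (nat_lit 306) (nat_lit 493858305440582043680)) (.cons (.rf (nat_lit 310) (nat_lit 493858305440582043680)) (.cons (.rf (nat_lit 312) (nat_lit 493858305440582043680)) (.cons (.br (nat_lit 3) (nat_lit 0) (.cons (.rf (nat_lit 305) (nat_lit 493858305440582043680)) (.cons (.rf (nat_lit 306) (nat_lit 493858305440582043680)) (.cons (.rf (nat_lit 310) (nat_lit 493858305440582043680)) (.cons (.rf (nat_lit 312) (nat_lit 493858305440582043680)) .nil))))) .nil)))))),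
 (.br (nat_lit 12) (nat_lit 0) (.cons (.ev (nat_lit 1208944338697776210706433) (nat_lit 1)) (.cons (.br (nat_lit 6) (nat_lit 0) (.cons (.ev (nat_lit 20361638975091754657649241686016) (nat_lit 1)) .nil)) (.cons (.ev (nat_lit 20282409603670189226718805426176) (nat_lit 1)) .nil)))),
 (.br (nat_lit 3) (nat_lit 0) (.cons (.br (nat_lit 12) (nat_lit 0) (.cons (.ev (nat_lit 40881733089898122848906862921220) (nat_lit 3)) .nil)) (.cons (.ev (nat_lit 79231798792012837005736215298) (nat_lit 2)) (.cons (.ev (nat_lit 20282410817318303265524075790336) (nat_lit 1)) .nil)))),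
 (.br (nat_lit 3) (nat_lit 0) (.cons (.rf (nat_lit 315) (nat_lit 493858305440582043680)) (.cons (.br (nat_lit 6) (nat_lit 0) (.cons (.ev (nat_lit 40723276774425008166851276046340) (nat_lit 3)) .nil)) (.cons (.ev (nat_lit 20282410817318303265524075790336) (nat_lit 1)) .nil)))),
 (.br (nat_lit 8) (nat_lit 0) (.cons (.br (nat_lit 12) (nat_lit 0) (.cons (.rf (nat_lit 314) (nat_lit 493858305440582043680)) (.cons (.br (nat_lit 12) (nat_lit 0) (.cons (.ev (nat_lit 4740813509522154913793) (nat_lit 1)) (.cons (.kr (nat_lit 14167172069152926990338) (nat_lit 158457533991241779063193468928) (nat_lit 0) (nat_lit 1)) (.cons (.ev (nat_lit 20282409603670189226718805426176) (nat_lit 1)) .nil)))) (.cons (.br (nat_lit 12) (nat_lit 0) (.cons (.rf (nat_lit 314) (nat_lit 493858305440582043680)) (.cons (.kr (nat_lit 14167172069152926990338) (nat_lit 158457533991241779063193468928) (nat_lit 0) (nat_lit 1)) (.cons (.ev (nat_lit 20282410817318303265524075790336) (nat_lit 1)) .nil)))) (.cons (.ev (nat_lit 20282410817318303265524075790336)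 (nat_lit 1)) .nil))))) (.cons (.br (nat_lit 11) (nat_lit 0) (.cons (.br (nat_lit 12) (nat_lit 0) (.cons (.ev (nat_lit 4740885566016681214208) (nat_lit 1)) (.cons (.br (nat_lit 3) (nat_lit 0) (.cons (.ev (nat_lit 4740885566016681214208) (nat_lit 1)) .nil)) .nil))) (.cons (.br (nat_lit 12) (nat_lit 0) (.cons (.kr (nat_lit 4722438821938659852289) (nat_lit 79228162532711082766765195264) (nat_lit 0) (nat_lit 1)) (.cons (.kr (nat_lit 158456325065422164434018631680) (nat_lit 1213648258718042811269120) (nat_lit 5) (nat_lit 0)) .nil))) (.cons (.ev (nat_lit 20282409603670117168025255870721) (nat_lit 1)) .nil)))) (.cons (.br (nat_lit 6) (nat_lit 0) (.cons (.br (nat_lit 3) (nat_lit 0) (.cons (.br (nat_lit 12) (nat_lit 0) (.cons (.ev (nat_lit 20361637770888301525889712193793) (nat_lit 1)) .nil)) (.cons (.ev (nat_lit 4740813509522154848513) (nat_lit 1)) .nil))) (.cons (.br (nat_lit 12) (nat_lit 0) (.cons (.kr (nat_lit 14167172069152926990338) (nat_lit 158457533991241779063193468928) (nat_lit 0) (nat_lit 1)) (.cons (.kr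 (nat_lit 4722366764344621924352) (nat_lit 79228162532711081667253501952) (nat_lit 6) (nat_lit 0)) .nil))) (.cons (.ev (nat_lit 20282409603670117168025255870721) (nat_lit 1)) .nil)))) (.cons (.br (nat_lit 3) (nat_lit 0) (.cons (.rf (nat_lit 315) (nat_lit 493858305440582043680)) (.cons (.rf (nat_lit 316) (nat_lit 493858305440582043680)) (.cons (.br (nat_lit 3) (nat_lit 0) (.cons (.ev (nat_lit 79231798792012837005736215298) (nat_lit 2)) (.cons (.rf (nat_lit 316) (nat_lit 493858305440582043680)) (.cons (.ev (nat_lit 20282410817318303265524075790336) (nat_lit 1)) .nil)))) (.cons (.ev (nat_lit 20282410817318303265524075790336) (nat_lit 1)) .nil))))) (.cons (.ev (nat_lit 20282410817318375324217625280513) (nat_lit 1)) .nil)))))),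
 (.br (nat_lit 11) (nat_lit 0) (.cons (.br (nat_lit 11) (nat_lit 0) (.cons (.ev (nat_lit 309485009821346172548218881) (nat_lit 1)) .nil)) (.cons (.br (nat_lit 4) (nat_lit 0) (.cons (.ev (nat_lit 309485009821346172548218881) (nat_lit 1)) .nil)) .nil))),
 (.br (nat_lit 3) (nat_lit 0) (.cons (.rf (nat_lit 317) (nat_lit 493858305440582043680)) (.cons (.rf (nat_lit 318) (nat_lit 15433070910038444064)) (.cons (.br (nat_lit 4) (nat_lit 0) (.cons (.br (nat_lit 12) (nat_lit 0) (.cons (.ev (nat_lit 40564820421025820017012102136320) (nat_lit 3)) .nil)) (.cons (.br (nat_lit 11) (nat_lit 0) (.cons (.ev (nat_lit 20361637770888301525889712128256) (nat_lit 1)) .nil)) (.cons (.ev (nat_lit 4740885566016681148673) (nat_lit 1)) .nil)))) (.cons (.rf (nat_lit 318) (nat_lit 13129479700638435360)) .nil))))),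
 (.br (nat_lit 11) (nat_lit 0) (.cons (.br (nat_lit 8) (nat_lit 0) (.cons (.ev (nat_lit 309485009821346172548218881) (nat_lit 1)) .nil)) (.cons (.br (nat_lit 4) (nat_lit 0) (.cons (.ev (nat_lit 309485009821346172548218881) (nat_lit 1)) .nil)) .nil))),
 (.br (nat_lit 3) (nat_lit 0) (.cons (.rf (nat_lit 317) (nat_lit 493858305440582043680)) (.cons (.rf (nat_lit 318) (nat_lit 15433070910038444064)) (.cons (.br (nat_lit 4) (nat_lit 0) (.cons (.ev (nat_lit 4740885566016681214208) (nat_lit 1)) (.cons (.ev (nat_lit 79229376162450436196187242496) (nat_lit 1)) (.cons (.br (nat_lit 8) (nat_lit 0) (.cons (.ev (nat_lit 40644047384040045710751630950656) (nat_lit 2)) .nil)) .nil)))) (.cons (.rf (nat_lit 320) (nat_lit 15433070910038444064)) .nil))))),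
 (.br (nat_lit 3) (nat_lit 0) (.cons (.rf (nat_lit 317) (nat_lit 493858305440582043680)) (.cons (.rf (nat_lit 319) (nat_lit 493858305440582043680)) (.cons (.rf (nat_lit 321) (nat_lit 493858305440582043680)) (.cons (.br (nat_lit 4) (nat_lit 0) (.cons (.br (nat_lit 11) (nat_lit 0) (.cons (.ev (nat_lit 40723276774425440514614526739458) (nat_lit 3)) .nil)) (.cons (.br (nat_lit 8) (nat_lit 0) (.cons (.ev (nat_lit 40644047384040045710751631081730) (nat_lit 2)) .nil)) (.cons (.br (nat_lit 8) (nat_lit 0) (.cons (.ev (nat_lit 40723276774425152288636421538818) (nat_lit 3)) .nil)) .nil)))) .nil))))),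
 (.br (nat_lit 3) (nat_lit 0) (.cons (.rf (nat_lit 317) (nat_lit 493858305440582043680)) (.cons (.rf (nat_lit 319) (nat_lit 493858305440582043680)) (.cons (.rf (nat_lit 321) (nat_lit 493858305440582043680)) (.cons (.rf (nat_lit 322) (nat_lit 493858305440582043680)) (.cons (.br (nat_lit 3) (nat_lit 0) (.cons (.rf (nat_lit 317) (nat_lit 493858305440582043680)) (.cons (.rf (nat_lit 318) (nat_lit 13129479700638435360)) (.cons (.rf (nat_lit 320) (nat_lit 15433070910038444064)) (.cons (.rf (nat_lit 322) (nat_lit 493858305440582043680)) .nil))))) .nil)))))),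
 (.br (nat_lit 6) (nat_lit 0) (.cons (.ev (nat_lit 4740813509522154848256) (nat_lit 1)) .nil)),
 (.br (nat_lit 3) (nat_lit 0) (.cons (.rf (nat_lit 317) (nat_lit 493858305440582043680)) (.cons (.rf (nat_lit 318) (nat_lit 15433070910038444064)) (.cons (.br (nat_lit 4) (nat_lit 0) (.cons (.ev (nat_lit 4740885566016681214208) (nat_lit 1)) (.cons (.br (nat_lit 6) (nat_lit 0) (.cons (.ev (nat_lit 4740813509522154848256) (nat_lit 1)) .nil)) (.cons (.rf (nat_lit 324) (nat_lit 493858305440582043680)) .nil)))) (.cons (.rf (nat_lit 320) (nat_lit 15433068713162672160)) .nil))))),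
 (.br (nat_lit 3) (nat_lit 0) (.cons (.rf (nat_lit 317) (nat_lit 493858305440582043680)) (.cons (.rf (nat_lit 323) (nat_lit 493858305440582043680)) (.cons (.rf (nat_lit 325) (nat_lit 493858305440582043680)) (.cons (.br (nat_lit 4) (nat_lit 0) (.cons (.ev (nat_lit 40564820421025387669248851444740) (nat_lit 3)) (.cons (.rf (nat_lit 324) (nat_lit 420143386739781765152)) (.cons (.ev (nat_lit 79229376162450436196187308288) (nat_lit 1)) .nil)))) .nil))))),
 (.br (nat_lit 3) (nat_lit 0) (.cons (.rf (nat_lit 317) (nat_lit 493858305440582043680)) (.cons (.rf (nat_lit 323) (nat_lit 493858305440582043680)) (.cons (.rf (nat_lit 325) (nat_lit 493858305440582043680)) (.cons (.rf (nat_lit 326) (nat_lit 493858305440582043680)) (.cons (.br (nat_lit 3) (nat_lit 0) (.cons (.rf (nat_lit 317) (nat_lit 493858305440582043680)) (.cons (.rf (nat_lit 318) (nat_lit 13129479700638435360)) (.cons (.rf (nat_lit 320) (nat_lit 15433068713162672160)) (.cons (.rf (nat_lit 326) (nat_lit 493858305440582043680)) .nil))))) .nil)))))),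
 (.br (nat_lit 3) (nat_lit 0) (.cons (.rf (nat_lit 317) (nat_lit 493858305440582043680)) (.cons (.rf (nat_lit 323) (nat_lit 493858305440582043680)) (.cons (.rf (nat_lit 327) (nat_lit 493858305440582043680)) (.cons (.br (nat_lit 4) (nat_lit 0) (.cons (.br (nat_lit 8) (nat_lit 0) (.cons (.ev (nat_lit 4740813509522154848513) (nat_lit 1)) .nil)) (.cons (.br (nat_lit 6) (nat_lit 0) (.cons (.ev (nat_lit 40564820421025531791033997066240) (nat_lit 3)) .nil)) (.cons (.br (nat_lit 6) (nat_lit 0) (.cons (.zr (nat_lit 1213648258999517787979779) (nat_lit 20282719088661491772318822695168) (nat_lit 5) (nat_lit 1)) .nil)) .nil)))) .nil))))),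
 (.br (nat_lit 3) (nat_lit 0) (.cons (.rf (nat_lit 317) (nat_lit 493858305440582043680)) (.cons (.rf (nat_lit 323) (nat_lit 493858305440582043680)) (.cons (.rf (nat_lit 327) (nat_lit 493858305440582043680)) (.cons (.rf (nat_lit 328) (nat_lit 493858305440582043680)) (.cons (.br (nat_lit 3) (nat_lit 0) (.cons (.rf (nat_lit 317) (nat_lit 493858305440582043680)) (.cons (.rf (nat_lit 320) (nat_lit 15433070910038444064)) (.cons (.rf (nat_lit 320) (nat_lit 15433068713162672160)) (.cons (.rf (nat_lit 328) (nat_lit 493858305440582043680)) .nil))))) .nil)))))),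
 (.br (nat_lit 3) (nat_lit 0) (.cons (.rf (nat_lit 317) (nat_lit 493858305440582043680)) (.cons (.rf (nat_lit 323) (nat_lit 493858305440582043680)) (.cons (.rf (nat_lit 327) (nat_lit 493858305440582043680)) (.cons (.rf (nat_lit 329) (nat_lit 493858305440582043680)) (.cons (.br (nat_lit 3) (nat_lit 0) (.cons (.rf (nat_lit 317) (nat_lit 493858305440582043680)) (.cons (.rf (nat_lit 323) (nat_lit 493858305440582043680)) (.cons (.rf (nat_lit 327) (nat_lit 493858305440582043680)) (.cons (.rf (nat_lit 329) (nat_lit 493858305440582043680)) .nil))))) .nil)))))),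
 (.br (nat_lit 2) (nat_lit 0) (.cons (.kr (nat_lit 4722438540463683141634) (nat_lit 1208925819615728686465024) (nat_lit 0) (nat_lit 1)) (.cons (.rf (nat_lit 241) (nat_lit 493858305440582042688)) (.cons (.rf (nat_lit 267) (nat_lit 493858305440582043680)) (.cons (.rf (nat_lit 303) (nat_lit 493858305440582043680)) (.cons (.br (nat_lit 3) (nat_lit 0) (.cons (.rf (nat_lit 305) (nat_lit 493858305440582043680)) (.cons (.rf (nat_lit 306) (nat_lit 493858305440582043680)) (.cons (.rf (nat_lit 310) (nat_lit 493858305440582043680)) (.cons (.rf (nat_lit 312) (nat_lit 493858305440582043680)) (.cons (.rf (nat_lit 313) (nat_lit 493858305440582043680)) (.cons (.br (nat_lit 3) (nat_lit 0) (.cons (.rf (nat_lit 305) (nat_lit 493858305440582043680)) (.cons (.rf (nat_lit 306) (nat_lit 493858305440582043680)) (.cons (.rf (nat_lit 310) (nat_lit 493858305440582043680)) (.cons (.rf (nat_lit 312) (nat_lit 493858305440582043680)) (.cons (.rf (nat_lit 313) (nat_lit 493858305440582043680)) .nil)))))) .nil))))))) (.cons (.br (nat_lit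 3) (nat_lit 0) (.cons (.rf (nat_lit 317) (nat_lit 493858305440582043680)) (.cons (.rf (nat_lit 323) (nat_lit 493858305440582043680)) (.cons (.rf (nat_lit 327) (nat_lit 493858305440582043680)) (.cons (.rf (nat_lit 329) (nat_lit 493858305440582043680)) (.cons (.rf (nat_lit 330) (nat_lit 493858305440582043680)) (.cons (.br (nat_lit 3) (nat_lit 0) (.cons (.rf (nat_lit 317) (nat_lit 493858305440582043680)) (.cons (.rf (nat_lit 323) (nat_lit 493858305440582043680)) (.cons (.rf (nat_lit 327) (nat_lit 493858305440582043680)) (.cons (.rf (nat_lit 329) (nat_lit 493858305440582043680)) (.cons (.rf (nat_lit 330) (nat_lit 493858305440582043680)) .nil)))))) .nil))))))) .nil)))))))]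

theorem c12 : chkAll C T R L12 (nat_lit 306) = true := by decide +kernel

theorem l12 : (nat_lit 306) + L12.length = (nat_lit 332) := by decide +kernel

/-- part of the certificates -/
def L13 : List Prf := [(.br (nat_lit 3) (nat_lit 0) (.cons (.ev (nat_lit 4740885566016681214208) (nat_lit 1)) (.cons (.br (nat_lit 12) (nat_lit 0) (.cons (.br (nat_lit 11) (nat_lit 0) (.cons (.ev (nat_lit 20361637770888373302008790122496) (nat_lit 1)) .nil)) (.cons (.ev (nat_lit 79229376162450716571635548416) (nat_lit 1)) (.cons (.ev (nat_lit 122011371485615338613217287210500) (nat_lit 3)) .nil)))) (.cons (.br (nat_lit 8) (nat_lit 0) (.cons (.br (nat_lit 11) (nat_lit 0) (.cons (.ev (nat_lit 20361637766221275838195444154626) (nat_lit 2)) .nil)) (.cons (.ev (nat_lit 20282410817318375324217625280513) (nat_lit 1)) .nil))) (.cons (.rf (nat_lit 304) (nat_lit 420143386739781765152)) .nil))))),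
 (.br (nat_lit 13) (nat_lit 0) (.cons (.rf (nat_lit 332) (nat_lit 230986506996392494144)) (.cons (.br (nat_lit 3) (nat_lit 0) (.cons (.br (nat_lit 3) (nat_lit 0) (.cons (.ev (nat_lit 158457538787468421738902455300) (nat_lit 3)) .nil)) (.cons (.ev (nat_lit 40723276774425441075365356635138) (nat_lit 3)) .nil))) (.cons (.ev (nat_lit 79229376162522775265185169665) (nat_lit 1)) .nil)))),
 (.br (nat_lit 3) (nat_lit 0) (.cons (.kr (nat_lit 1213648186098598331548162) (nat_lit 40564819207303412905488607608832) (nat_lit 0) (nat_lit 2)) (.cons (.kr (nat_lit 4722366486168180228098) (nat_lit 1208925892235173233164288) (nat_lit 0) (nat_lit 1)) (.cons (.br (nat_lit 11) (nat_lit 0) (.cons (.ev (nat_lit 20282409603670117450599760920833) (nat_lit 1)) (.cons (.ev (nat_lit 4740885285641216131073) (nat_lit 1)) (.cons (.ev (nat_lit 20361638975091754377273793314816) (nat_lit 1)) .nil)))) (.cons (.ev (nat_lit 122169827839014959680366634336260) (nat_lit 3)) .nil))))),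
 (.br (nat_lit 6) (nat_lit 0) (.cons (.rf (nat_lit 332) (nat_lit 493858305440582043680)) (.cons (.rf (nat_lit 333) (nat_lit 493858305440582043680)) (.cons (.br (nat_lit 13) (nat_lit 0) (.cons (.rf (nat_lit 332) (nat_lit 230986506996392494144)) (.cons (.ev (nat_lit 20282409603670117168025255804929) (nat_lit 1)) (.cons (.br (nat_lit 3) (nat_lit 0) (.cons (.ev (nat_lit 20282410817318303265524075790336) (nat_lit 1)) (.cons (.ev (nat_lit 79229376162450716571635548416) (nat_lit 1)) .nil))) (.cons (.rf (nat_lit 333) (nat_lit 230986506996392494144)) .nil))))) (.cons (.ev (nat_lit 79228162514264619072815628289) (nat_lit 1)) (.cons (.br (nat_lit 8) (nat_lit 0) (.cons (.rf (nat_lit 334) (nat_lit 493858305440582043680)) (.cons (.br (nat_lit 12) (nat_lit 0) (.cons (.rf (nat_lit 334) (nat_lit 230986506996392494144)) (.cons (.ev (nat_lit 122169827839014959680366634336260) (nat_lit 3)) .nil))) (.cons (.ev (nat_lit 79229376162522775265185169665) (nat_lit 1)) .nil)))) .nil)))))),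
 (.br (nat_lit 3) (nat_lit 0) (.cons (.ev (nat_lit 4740885566016681214208) (nat_lit 1)) (.cons (.br (nat_lit 4) (nat_lit 0) (.cons (.br (nat_lit 12) (nat_lit 0) (.cons (.ev (nat_lit 20361637770888373302008790188033) (nat_lit 1)) .nil)) (.cons (.br (nat_lit 11) (nat_lit 0) (.cons (.ev (nat_lit 40564820421025820017012102136320) (nat_lit 3)) .nil)) (.cons (.br (nat_lit 11) (nat_lit 0) (.cons (.ev (nat_lit 475370207660348844683852907520) (nat_lit 3)) .nil)) .nil)))) (.cons (.br (nat_lit 4) (nat_lit 0) (.cons (.ev (nat_lit 79229376162450716571635548416) (nat_lit 1)) (.cons (.ev (nat_lit 4740885566016681148673) (nat_lit 1)) .nil))) (.cons (.br (nat_lit 4) (nat_lit 0) (.cons (.ev (nat_lit 20282409603670189226718805426176) (nat_lit 1)) (.cons (.ev (nat_lit 4740885566016681148673) (nat_lit 1)) .nil))) .nil))))),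
 (.br (nat_lit 3) (nat_lit 0) (.cons (.rf (nat_lit 335) (nat_lit 493858305440582043680)) (.cons (.rf (nat_lit 336) (nat_lit 493858305440582043680)) (.cons (.br (nat_lit 4) (nat_lit 0) (.cons (.ev (nat_lit 158457538787468421738902455300) (nat_lit 3)) (.cons (.ev (nat_lit 79228162514336677766365184256) (nat_lit 1)) (.cons (.ev (nat_lit 122011371485615338613217287210500) (nat_lit 3)) .nil)))) (.cons (.br (nat_lit 4) (nat_lit 0) (.cons (.ev (nat_lit 40564820439988641707337471362570) (nat_lit 4)) (.cons (.br (nat_lit 8) (nat_lit 0) (.cons (.ev (nat_lit 40564820439989218176885867808266) (nat_lit 4)) .nil)) (.cons (.ev (nat_lit 41198645777734114327249267066370) (nat_lit 4)) .nil)))) .nil))))),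
 (.br (nat_lit 3) (nat_lit 0) (.cons (.rf (nat_lit 335) (nat_lit 493858305440582043680)) (.cons (.rf (nat_lit 336) (nat_lit 493858305440582043680)) (.cons (.rf (nat_lit 337) (nat_lit 493858305440582043680)) (.cons (.br (nat_lit 3) (nat_lit 0) (.cons (.rf (nat_lit 335) (nat_lit 493858305440582043680)) (.cons (.rf (nat_lit 336) (nat_lit 493858305440582043680)) (.cons (.rf (nat_lit 337) (nat_lit 493858305440582043680)) (.cons (.rf (nat_lit 336) (nat_lit 230986506996392494144)) .nil))))) (.cons (.br (nat_lit 3) (nat_lit 0) (.cons (.rf (nat_lit 304) (nat_lit 420143386739781765152)) (.cons (.rf (nat_lit 336) (nat_lit 493858305440582043680)) (.cons (.rf (nat_lit 337) (nat_lit 493858305440582043680)) (.cons (.rf (nat_lit 336) (nat_lit 230986506996392494144)) .nil))))) .nil)))))),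
 (.br (nat_lit 3) (nat_lit 0) (.cons (.rf (nat_lit 335) (nat_lit 493858305440582043680)) (.cons (.rf (nat_lit 338) (nat_lit 493858305440582043680)) (.cons (.br (nat_lit 4) (nat_lit 0) (.cons (.ev (nat_lit 792282895496195079739317289474) (nat_lit 4)) (.cons (.br (nat_lit 6) (nat_lit 0) (.cons (.ev (nat_lit 792282895496771531695528217090) (nat_lit 4)) .nil)) (.cons (.ev (nat_lit 163051559686930624347764393904650) (nat_lit 4)) .nil)))) (.cons (.rf (nat_lit 338) (nat_lit 230986506996392494144)) .nil))))),
 (.br (nat_lit 3) (nat_lit 0) (.cons (.rf (nat_lit 335) (nat_lit 493858305440582043680)) (.cons (.rf (nat_lit 338) (nat_lit 493858305440582043680)) (.cons (.rf (nat_lit 339) (nat_lit 493858305440582043680)) (.cons (.br (nat_lit 3) (nat_lit 0) (.cons (.rf (nat_lit 335) (nat_lit 493858305440582043680)) (.cons (.rf (nat_lit 338) (nat_lit 493858305440582043680)) (.cons (.rf (nat_lit 339) (nat_lit 493858305440582043680)) (.cons (.rf (nat_lit 338) (nat_lit 230986506996392494144)) .nil))))) (.cons (.rf (nat_lit 338)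 (nat_lit 230986506996392494144)) .nil)))))),
 (.br (nat_lit 2) (nat_lit 0) (.cons (.rf (nat_lit 171) (nat_lit 493858305440582042688)) (.cons (.rf (nat_lit 241) (nat_lit 493858305440582042688)) (.cons (.kr (nat_lit 1208925891672223212634624) (nat_lit 4722366483969156972544) (nat_lit 1) (nat_lit 0)) (.cons (.rf (nat_lit 303) (nat_lit 493858305440582043680)) (.cons (.rf (nat_lit 331) (nat_lit 493858305440582043680)) (.cons (.br (nat_lit 3) (nat_lit 0) (.cons (.rf (nat_lit 335) (nat_lit 493858305440582043680)) (.cons (.rf (nat_lit 338) (nat_lit 493858305440582043680)) (.cons (.rf (nat_lit 340) (nat_lit 493858305440582043680)) (.cons (.br (nat_lit 3) (nat_lit 0) (.cons (.rf (nat_lit 335) (nat_lit 493858305440582043680)) (.cons (.rf (nat_lit 338) (nat_lit 493858305440582043680)) (.cons (.rf (nat_lit 340) (nat_lit 493858305440582043680)) (.cons (.rf (nat_lit 340) (nat_lit 230986506996392494144)) (.cons (.rf (nat_lit 338) (nat_lit 230986506996392494144)) .nil)))))) (.cons (.rf (nat_lit 340) (nat_lit 230986506996392494144))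 (.cons (.rf (nat_lit 338) (nat_lit 230986506996392494144)) .nil))))))) .nil))))))),
 (.br (nat_lit 2) (nat_lit 0) (.cons (.rf (nat_lit 171) (nat_lit 493858305440582042688)) (.cons (.rf (nat_lit 241) (nat_lit 493858305440582042688)) (.cons (.rf (nat_lit 267) (nat_lit 493858305440582043680)) (.cons (.rf (nat_lit 303) (nat_lit 493858305440582043680)) (.cons (.rf (nat_lit 331) (nat_lit 493858305440582043680)) (.cons (.rf (nat_lit 341) (nat_lit 493858305440582043680)) (.cons (.br (nat_lit 2) (nat_lit 0) (.cons (.rf (nat_lit 171) (nat_lit 493858305440582042688)) (.cons (.rf (nat_lit 241) (nat_lit 493858305440582042688)) (.cons (.rf (nat_lit 267) (nat_lit 493858305440582043680)) (.cons (.rf (nat_lit 303) (nat_lit 493858305440582043680)) (.cons (.rf (nat_lit 331) (nat_lit 493858305440582043680)) (.cons (.rf (nat_lit 341) (nat_lit 493858305440582043680)) .nil))))))) .nil)))))))),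
 (.br (nat_lit 11) (nat_lit 0) (.cons (.ev (nat_lit 79228162514336395191893688576) (nat_lit 1)) .nil)),
 (.br (nat_lit 8) (nat_lit 0) (.cons (.rf (nat_lit 343) (nat_lit 15433072043909810208)) (.cons (.rf (nat_lit 343) (nat_lit 15398169146797687872)) (.cons (.ev (nat_lit 20282409603670189507094270509313) (nat_lit 1)) .nil)))),
 (.br (nat_lit 8) (nat_lit 0) (.cons (.ev (nat_lit 20282409603670189507094270509313) (nat_lit 1)) (.cons (.ev (nat_lit 4740885566016664436993) (nat_lit 1)) (.cons (.ev (nat_lit 4740885566016664371201) (nat_lit 1)) .nil)))),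
 (.br (nat_lit 3) (nat_lit 0) (.cons (.kr (nat_lit 4722438541563194769410) (nat_lit 1208925820177579161681920) (nat_lit 0) (nat_lit 1)) (.cons (.kr (nat_lit 72057594037927937) (nat_lit 281474993487872) (nat_lit 0) (nat_lit 1)) (.cons (.br (nat_lit 8) (nat_lit 0) (.cons (.br (nat_lit 8) (nat_lit 0) (.cons (.ev (nat_lit 4740885566016664371201) (nat_lit 1)) .nil)) (.cons (.rf (nat_lit 345) (nat_lit 493858305440582043680)) .nil))) .nil)))),
 (.br (nat_lit 3) (nat_lit 0) (.cons (.kr (nat_lit 4722438541563194900482) (nat_lit 1208925820177579161682432) (nat_lit 0) (nat_lit 4)) (.cons (.kr (nat_lit 72057594037927937) (nat_lit 281474993487872) (nat_lit 0) (nat_lit 1)) (.cons (.br (nat_lit 8) (nat_lit 0) (.cons (.br (nat_lit 8) (nat_lit 0) (.cons (.ev (nat_lit 4740885566016664436993) (nat_lit 1)) .nil)) (.cons (.rf (nat_lit 345) (nat_lit 493858305440582043680)) .nil))) .nil)))),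
 (.br (nat_lit 3) (nat_lit 0) (.cons (.br (nat_lit 3) (nat_lit 0) (.cons (.kr (nat_lit 4722438541563194769410) (nat_lit 1208925820177579161681920) (nat_lit 0) (nat_lit 1)) (.cons (.kr (nat_lit 4722438541563194900482) (nat_lit 1208925820177579161682432) (nat_lit 0) (nat_lit 4)) (.cons (.rf (nat_lit 344) (nat_lit 493858305440582043680)) .nil)))) (.cons (.rf (nat_lit 346) (nat_lit 493858305440582043680)) (.cons (.rf (nat_lit 347) (nat_lit 493858305440582043680)) (.cons (.br (nat_lit 3) (nat_lit 0) (.cons (.rf (nat_lit 344) (nat_lit 493858305440582043680)) (.cons (.rf (nat_lit 346) (nat_lit 493858305440582043680)) (.cons (.rf (nat_lit 347) (nat_lit 493858305440582043680)) .nil)))) .nil))))),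
 (.br (nat_lit 8) (nat_lit 0) (.cons (.ev (nat_lit 4740885566016664436993) (nat_lit 1)) (.cons (.ev (nat_lit 4740885566016664371201) (nat_lit 1)) .nil))),
 (.br (nat_lit 4) (nat_lit 0) (.cons (.ev (nat_lit 4740813226947666509824) (nat_lit 1)) (.cons (.br (nat_lit 8) (nat_lit 0) (.cons (.ev (nat_lit 4740885566016664371201) (nat_lit 1)) .nil)) (.cons (.rf (nat_lit 349) (nat_lit 493858305440582043680)) .nil)))),
 (.br (nat_lit 4) (nat_lit 0) (.cons (.ev (nat_lit 4740813226947666575616) (nat_lit 1)) (.cons (.br (nat_lit 8) (nat_lit 0) (.cons (.ev (nat_lit 4740885566016664436993) (nat_lit 1)) .nil)) (.cons (.rf (nat_lit 349) (nat_lit 493858305440582043680)) .nil)))),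
 (.br (nat_lit 3) (nat_lit 0) (.cons (.rf (nat_lit 348) (nat_lit 493858305440582043680)) (.cons (.br (nat_lit 3) (nat_lit 0) (.cons (.kr (nat_lit 4722438541563194769410) (nat_lit 1208925820177579161681920) (nat_lit 0) (nat_lit 1)) (.cons (.kr (nat_lit 4722438540463683207169) (nat_lit 1208925819896104168194304) (nat_lit 0) (nat_lit 4)) (.cons (.rf (nat_lit 350) (nat_lit 493858305440582043680)) .nil)))) (.cons (.br (nat_lit 3) (nat_lit 0) (.cons (.kr (nat_lit 4722438541563194900482) (nat_lit 1208925820177579161682432) (nat_lit 0) (nat_lit 4)) (.cons (.kr (nat_lit 4722438540463683207169) (nat_lit 1208925819896104168194304) (nat_lit 0) (nat_lit 4)) (.cons (.rf (nat_lit 351) (nat_lit 493858305440582043680)) .nil)))) (.cons (.br (nat_lit 3) (nat_lit 0) (.cons (.rf (nat_lit 344) (nat_lit 493858305440582043680)) (.cons (.rf (nat_lit 350) (nat_lit 493858305440582043680)) (.cons (.rf (nat_lit 351) (nat_lit 493858305440582043680)) .nil)))) .nil))))),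
 (.br (nat_lit 3) (nat_lit 0) (.cons (.kr (nat_lit 72057594037927937) (nat_lit 281474993487872) (nat_lit 0) (nat_lit 1)) (.cons (.kr (nat_lit 4722438540463683207169) (nat_lit 1208925819896104168194304) (nat_lit 0) (nat_lit 4)) (.cons (.br (nat_lit 8) (nat_lit 0) (.cons (.br (nat_lit 8) (nat_lit 0) (.cons (.ev (nat_lit 20282410817318375604593090363393) (nat_lit 1)) .nil)) (.cons (.br (nat_lit 4) (nat_lit 0) (.cons (.ev (nat_lit 20282410817318375604593090363393) (nat_lit 1)) .nil)) .nil))) .nil)))),
 (.br (nat_lit 3) (nat_lit 0) (.cons (.rf (nat_lit 348) (nat_lit 493858305440582043680)) (.cons (.rf (nat_lit 352) (nat_lit 493858305440582043680)) (.cons (.rf (nat_lit 353) (nat_lit 493858305440582043680)) (.cons (.br (nat_lit 3) (nat_lit 0) (.cons (.rf (nat_lit 348) (nat_lit 493858305440582043680)) (.cons (.rf (nat_lit 350) (nat_lit 493858305440582043680)) (.cons (.rf (nat_lit 353) (nat_lit 493858305440582043680)) .nil)))) .nil))))),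
 (.br (nat_lit 3) (nat_lit 0) (.cons (.rf (nat_lit 348) (nat_lit 493858305440582043680)) (.cons (.rf (nat_lit 352) (nat_lit 493858305440582043680)) (.cons (.rf (nat_lit 354) (nat_lit 493858305440582043680)) (.cons (.br (nat_lit 3) (nat_lit 0) (.cons (.rf (nat_lit 348) (nat_lit 493858305440582043680)) (.cons (.rf (nat_lit 351) (nat_lit 493858305440582043680)) (.cons (.rf (nat_lit 354) (nat_lit 493858305440582043680)) .nil)))) .nil))))),
 (.br (nat_lit 11) (nat_lit 0) (.cons (.ev (nat_lit 309485009893685241546014976) (nat_lit 1)) (.cons (.ev (nat_lit 309485009821346172548153601) (nat_lit 1)) (.cons (.ev (nat_lit 309485009821346172548218881) (nat_lit 1)) .nil)))),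
 (.br (nat_lit 3) (nat_lit 0) (.cons (.kr (nat_lit 4722438541563194769410) (nat_lit 1208925820177579161681920) (nat_lit 0) (nat_lit 1)) (.cons (.kr (nat_lit 72057594037927937) (nat_lit 281474993487872) (nat_lit 0) (nat_lit 1)) (.cons (.br (nat_lit 8) (nat_lit 0) (.cons (.br (nat_lit 8) (nat_lit 0) .nil) .nil)) .nil)))),
 (.br (nat_lit 3) (nat_lit 0) (.cons (.br (nat_lit 3) (nat_lit 0) (.cons (.kr (nat_lit 4722438541563194769410) (nat_lit 1208925820177579161681920) (nat_lit 0) (nat_lit 1)) (.cons (.rf (nat_lit 356) (nat_lit 15433070910038444064)) (.cons (.kr (nat_lit 4722438541563194900482) (nat_lit 1208925820177579161682432) (nat_lit 0) (nat_lit 4)) .nil)))) (.cons (.rf (nat_lit 357) (nat_lit 493858305440582043680)) (.cons (.br (nat_lit 3) (nat_lit 0) (.cons (.rf (nat_lit 356) (nat_lit 15433070910038444064)) (.cons (.kr (nat_lit 72057594037927937) (nat_lit 281474993487872) (nat_lit 0) (nat_lit 1)) (.cons (.kr (nat_lit 72057594037993473) (nat_lit 281474993488128) (nat_lit 0) (nat_lit 4)) .nil)))) (.cons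 (.br (nat_lit 3) (nat_lit 0) (.cons (.kr (nat_lit 4722438541563194900482) (nat_lit 1208925820177579161682432) (nat_lit 0) (nat_lit 4)) (.cons (.rf (nat_lit 357) (nat_lit 493858305440582043680)) (.cons (.kr (nat_lit 72057594037993473) (nat_lit 281474993488128) (nat_lit 0) (nat_lit 4)) .nil)))) .nil))))),
 (.br (nat_lit 3) (nat_lit 0) (.cons (.kr (nat_lit 4722438541563194769410) (nat_lit 1208925820177579161681920) (nat_lit 0) (nat_lit 1)) (.cons (.br (nat_lit 4) (nat_lit 0) (.cons (.ev (nat_lit 4740813509522138136833) (nat_lit 1)) (.cons (.br (nat_lit 8) (nat_lit 0) (.cons (.ev (nat_lit 4740885566016664371201) (nat_lit 1)) .nil)) (.cons (.br (nat_lit 8) (nat_lit 0) (.cons (.ev (nat_lit 4740885566016664371201) (nat_lit 1)) .nil)) .nil)))) (.cons (.kr (nat_lit 4722438540463683207169) (nat_lit 1208925819896104168194304) (nat_lit 0) (nat_lit 4)) .nil))))]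

theorem c13 : chkAll C T R L13 (nat_lit 332) = true := by decide +kernel

theorem l13 : (nat_lit 332) + L13.length = (nat_lit 360) := by decide +kernel

/-- part of the certificates -/
def L14 : List Prf := [(.br (nat_lit 3) (nat_lit 0) (.cons (.rf (nat_lit 356) (nat_lit 15433070910038444064)) (.cons (.rf (nat_lit 359) (nat_lit 493858305440582043680)) (.cons (.br (nat_lit 4) (nat_lit 0) (.cons (.ev (nat_lit 4740813509522138136833) (nat_lit 1)) (.cons (.br (nat_lit 8) (nat_lit 0) (.cons (.ev (nat_lit 4740885566016664436993) (nat_lit 1)) .nil)) (.cons (.br (nat_lit 8) (nat_lit 0) (.cons (.ev (nat_lit 4740885566016664436993) (nat_lit 1)) .nil)) .nil)))) .nil)))),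
 (.br (nat_lit 3) (nat_lit 0) (.cons (.rf (nat_lit 358) (nat_lit 493858305440582043680)) (.cons (.rf (nat_lit 359) (nat_lit 493858305440582043680)) (.cons (.rf (nat_lit 360) (nat_lit 493858305440582043680)) (.cons (.br (nat_lit 3) (nat_lit 0) (.cons (.kr (nat_lit 4722438541563194900482) (nat_lit 1208925820177579161682432) (nat_lit 0) (nat_lit 4)) (.cons (.kr (nat_lit 4722438540463683207169) (nat_lit 1208925819896104168194304) (nat_lit 0) (nat_lit 4)) (.cons (.rf (nat_lit 360) (nat_lit 493858305440582043680)) .nil)))) .nil))))),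
 (.br (nat_lit 3) (nat_lit 0) (.cons (.rf (nat_lit 358) (nat_lit 493858305440582043680)) (.cons (.rf (nat_lit 361) (nat_lit 493858305440582043680)) (.cons (.br (nat_lit 3) (nat_lit 0) (.cons (.kr (nat_lit 72057594037927937) (nat_lit 281474993487872) (nat_lit 0) (nat_lit 1)) (.cons (.rf (nat_lit 361) (nat_lit 493858305440582043680)) (.cons (.kr (nat_lit 4722582655651759128578) (nat_lit 1208925820178678673310208) (nat_lit 0) (nat_lit 4)) .nil)))) (.cons (.br (nat_lit 3) (nat_lit 0) (.cons (.rf (nat_lit 358) (nat_lit 493858305440582043680)) (.cons (.kr (nat_lit 4722438540463683207169) (nat_lit 1208925819896104168194304) (nat_lit 0) (nat_lit 4)) (.cons (.kr (nat_lit 4722582655651759128578) (nat_lit 1208925820178678673310208) (nat_lit 0) (nat_lit 4)) .nil)))) .nil))))),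
 (.br (nat_lit 3) (nat_lit 0) (.cons (.rf (nat_lit 358) (nat_lit 493858305440582043680)) (.cons (.rf (nat_lit 361) (nat_lit 493858305440582043680)) (.cons (.rf (nat_lit 362) (nat_lit 493858305440582043680)) (.cons (.br (nat_lit 3) (nat_lit 0) (.cons (.kr (nat_lit 72057594037993473) (nat_lit 281474993488128) (nat_lit 0) (nat_lit 4)) (.cons (.rf (nat_lit 361) (nat_lit 493858305440582043680)) (.cons (.kr (nat_lit 4722582655651759128578) (nat_lit 1208925820178678673310208) (nat_lit 0) (nat_lit 4)) .nil)))) .nil))))),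
 (.br (nat_lit 2) (nat_lit 0) (.cons (.rf (nat_lit 171) (nat_lit 493858305440582042688)) (.cons (.kr (nat_lit 1208925819615728686334464) (nat_lit 4722438540463683272704) (nat_lit 1) (nat_lit 0)) (.cons (.rf (nat_lit 342) (nat_lit 493858305440582042688)) (.cons (.kr (nat_lit 256) (nat_lit 65536) (nat_lit 1) (nat_lit 0)) (.cons (.br (nat_lit 3) (nat_lit 0) (.cons (.rf (nat_lit 348) (nat_lit 493858305440582043680)) (.cons (.rf (nat_lit 352) (nat_lit 493858305440582043680)) (.cons (.rf (nat_lit 354) (nat_lit 493858305440582043680)) (.cons (.rf (nat_lit 355) (nat_lit 493858305440582043680)) (.cons (.br (nat_lit 3) (nat_lit 0) (.cons (.rf (nat_lit 348) (nat_lit 493858305440582043680)) (.cons (.rf (nat_lit 352) (nat_lit 493858305440582043680)) (.cons (.rf (nat_lit 354) (nat_lit 493858305440582043680)) (.cons (.rf (nat_lit 355) (nat_lit 493858305440582043680)) .nil))))) .nil)))))) (.cons (.br (nat_lit 3) (nat_lit 0) (.cons (.rf (nat_lit 358) (nat_lit 493858305440582043680)) (.cons (.rf (nat_lit 361) (nat_lit 493858305440582043680))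 (.cons (.rf (nat_lit 362) (nat_lit 493858305440582043680)) (.cons (.rf (nat_lit 363) (nat_lit 493858305440582043680)) (.cons (.br (nat_lit 3) (nat_lit 0) (.cons (.rf (nat_lit 358) (nat_lit 493858305440582043680)) (.cons (.rf (nat_lit 361) (nat_lit 493858305440582043680)) (.cons (.rf (nat_lit 362) (nat_lit 493858305440582043680)) (.cons (.rf (nat_lit 363) (nat_lit 493858305440582043680)) .nil))))) .nil)))))) .nil))))))),
 (.br (nat_lit 8) (nat_lit 0) (.cons (.rf (nat_lit 243) (nat_lit 493678161460855931968)) (.cons (.ev (nat_lit 1208944338697776193929216) (nat_lit 1)) .nil))),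
 (.br (nat_lit 13) (nat_lit 0) (.cons (.rf (nat_lit 365) (nat_lit 493858305440582043680)) (.cons (.ev (nat_lit 1208944338697776193929216) (nat_lit 1)) (.cons (.br (nat_lit 13) (nat_lit 0) (.cons (.rf (nat_lit 365) (nat_lit 493858305440582043680)) (.cons (.ev (nat_lit 1208944338697776193929216) (nat_lit 1)) .nil))) .nil)))),
 (.br (nat_lit 13) (nat_lit 0) (.cons (.rf (nat_lit 242) (nat_lit 493678161460855931968)) (.cons (.ev (nat_lit 1208944338697776193929216) (nat_lit 1)) (.cons (.br (nat_lit 13) (nat_lit 0) (.cons (.rf (nat_lit 242) (nat_lit 493678161460855931968)) (.cons (.ev (nat_lit 1208944338697776193929216) (nat_lit 1)) .nil))) .nil)))),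
 (.br (nat_lit 3) (nat_lit 0) (.cons (.rf (nat_lit 366) (nat_lit 493858305440582043680)) (.cons (.rf (nat_lit 367) (nat_lit 493858305440582043680)) (.cons (.br (nat_lit 12) (nat_lit 0) (.cons (.br (nat_lit 8) (nat_lit 0) (.cons (.ev (nat_lit 4740885566016664371201) (nat_lit 1)) .nil)) (.cons (.br (nat_lit 6) (nat_lit 0) (.cons (.ev (nat_lit 4740885566016664371201) (nat_lit 1)) .nil)) (.cons (.ev (nat_lit 20361637770888373302008790188288) (nat_lit 1)) .nil)))) .nil)))),
 (.br (nat_lit 3) (nat_lit 0) (.cons (.rf (nat_lit 366) (nat_lit 493858305440582043680)) (.cons (.rf (nat_lit 367) (nat_lit 493858305440582043680)) (.cons (.rf (nat_lit 368) (nat_lit 493858305440582043680)) (.cons (.br (nat_lit 3) (nat_lit 0) (.cons (.rf (nat_lit 366) (nat_lit 493858305440582043680)) (.cons (.rf (nat_lit 242) (nat_lit 493678161460855931968)) (.cons (.rf (nat_lit 368) (nat_lit 493858305440582043680)) .nil)))) .nil))))),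
 (.br (nat_lit 4) (nat_lit 0) (.cons (.rf (nat_lit 366) (nat_lit 493858305440582043680)) (.cons (.br (nat_lit 13) (nat_lit 0) (.cons (.br (nat_lit 12) (nat_lit 0) (.cons (.ev (nat_lit 20361638975091754377273793314816) (nat_lit 1)) .nil)) (.cons (.br (nat_lit 3) (nat_lit 0) (.cons (.ev (nat_lit 20361638975091754377273793314816) (nat_lit 1)) .nil)) .nil))) (.cons (.ev (nat_lit 1208944338697776193929216) (nat_lit 1)) .nil)))),
 (.br (nat_lit 11) (nat_lit 0) (.cons (.ev (nat_lit 309485009821346172548153344) (nat_lit 1)) .nil)),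
 (.br (nat_lit 3) (nat_lit 0) (.cons (.rf (nat_lit 366) (nat_lit 493858305440582043680)) (.cons (.rf (nat_lit 370) (nat_lit 493858305440582043680)) (.cons (.br (nat_lit 4) (nat_lit 0) (.cons (.rf (nat_lit 371) (nat_lit 15433070910038444064)) (.cons (.br (nat_lit 8) (nat_lit 0) (.cons (.ev (nat_lit 4740885566016664371201) (nat_lit 1)) .nil)) (.cons (.kr (nat_lit 4722366482869645213697) (nat_lit 20282409603651670423947251351552) (nat_lit 0) (nat_lit 1)) .nil)))) .nil)))),
 (.br (nat_lit 3) (nat_lit 0) (.cons (.rf (nat_lit 366) (nat_lit 493858305440582043680)) (.cons (.rf (nat_lit 370) (nat_lit 493858305440582043680)) (.cons (.rf (nat_lit 372) (nat_lit 493858305440582043680)) (.cons (.br (nat_lit 3) (nat_lit 0) (.cons (.rf (nat_lit 366) (nat_lit 493858305440582043680)) (.cons (.rf (nat_lit 370) (nat_lit 493858305440582043680)) (.cons (.rf (nat_lit 372) (nat_lit 493858305440582043680)) .nil)))) .nil))))),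
 (.br (nat_lit 3) (nat_lit 0) (.cons (.rf (nat_lit 367) (nat_lit 493858305440582043680)) (.cons (.rf (nat_lit 370) (nat_lit 493858305440582043680)) (.cons (.br (nat_lit 4) (nat_lit 0) (.cons (.rf (nat_lit 371) (nat_lit 15433068713162671168)) (.cons (.br (nat_lit 6) (nat_lit 0) (.cons (.ev (nat_lit 4740885566016664371201) (nat_lit 1)) .nil)) (.cons (.kr (nat_lit 4722366482869645213697) (nat_lit 20282409603651670423947251351552) (nat_lit 0) (nat_lit 1)) .nil)))) .nil)))),
 (.br (nat_lit 3) (nat_lit 0) (.cons (.rf (nat_lit 367) (nat_lit 493858305440582043680)) (.cons (.rf (nat_lit 370) (nat_lit 493858305440582043680)) (.cons (.rf (nat_lit 374) (nat_lit 493858305440582043680)) (.cons (.br (nat_lit 3) (nat_lit 0) (.cons (.rf (nat_lit 242) (nat_lit 493678161460855931968)) (.cons (.rf (nat_lit 370) (nat_lit 493858305440582043680)) (.cons (.rf (nat_lit 374) (nat_lit 493858305440582043680)) .nil)))) .nil))))),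
 (.br (nat_lit 3) (nat_lit 0) (.cons (.rf (nat_lit 369) (nat_lit 493858305440582043680)) (.cons (.rf (nat_lit 373) (nat_lit 493858305440582043680)) (.cons (.rf (nat_lit 375) (nat_lit 493858305440582043680)) (.cons (.br (nat_lit 3) (nat_lit 0) (.cons (.rf (nat_lit 369) (nat_lit 493858305440582043680)) (.cons (.rf (nat_lit 373) (nat_lit 493858305440582043680)) (.cons (.rf (nat_lit 375) (nat_lit 493858305440582043680)) .nil)))) .nil))))),
 (.br (nat_lit 13) (nat_lit 0) (.cons (.ev (nat_lit 20282409603670117168025255804929) (nat_lit 1)) (.cons (.ev (nat_lit 20282410812614384091881411903491) (nat_lit 2)) (.cons (.kr (nat_lit 4722366482869645213696) (nat_lit 20282409603651670423947251286016) (nat_lit 9) (nat_lit 0)) (.cons (.ev (nat_lit 20282409603670117450599744208896) (nat_lit 1)) .nil))))),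
 (.br (nat_lit 8) (nat_lit 0) (.cons (.ev (nat_lit 20282409603670189507094270509313) (nat_lit 1)) (.cons (.ev (nat_lit 20282409603670117450599744143616) (nat_lit 1)) (.cons (.ev (nat_lit 4740885566016664371201) (nat_lit 1)) .nil)))),
 (.br (nat_lit 6) (nat_lit 0) (.cons (.br (nat_lit 8) (nat_lit 0) (.cons (.br (nat_lit 13) (nat_lit 0) (.cons (.br (nat_lit 12) (nat_lit 0) (.cons (.zr (nat_lit 1213648258157291881103364) (nat_lit 79537647542532708215266803968) (nat_lit 5) (nat_lit 4)) .nil)) (.cons (.br (nat_lit 11) (nat_lit 0) (.cons (.zr (nat_lit 1213648258157291881103364) (nat_lit 79537647542532708215266803968) (nat_lit 5) (nat_lit 4)) .nil)) .nil))) (.cons (.br (nat_lit 13) (nat_lit 0) (.cons (.br (nat_lit 12) (nat_lit 0) (.cons (.ev (nat_lit 20520094100657643147649018233091) (nat_lit 2)) .nil)) (.cons (.br (nat_lit 3) (nat_lit 0) (.cons (.ev (nat_lit 20520094100657643147649018233091) (nat_lit 2)) .nil)) .nil))) (.cons (.ev (nat_lit 79229376162450716571635548416) (nat_lit 1)) (.cons (.rf (nat_lit 377)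 (nat_lit 493858305440582043680)) .nil))))) (.cons (.br (nat_lit 12) (nat_lit 0) (.cons (.ev (nat_lit 79229376162450716571635548416) (nat_lit 1)) (.cons (.ev (nat_lit 79228162514264619072815694081) (nat_lit 1)) (.cons (.br (nat_lit 11) (nat_lit 0) (.cons (.br (nat_lit 3) (nat_lit 0) (.cons (.ev (nat_lit 40644047384040116926119795491330) (nat_lit 2)) .nil)) (.cons (.kr (nat_lit 40564819207303340848994014199808) (nat_lit 1213648258155092857847808) (nat_lit 5) (nat_lit 0)) .nil))) .nil)))) (.cons (.br (nat_lit 8) (nat_lit 0) (.cons (.br (nat_lit 13) (nat_lit 0) (.cons (.br (nat_lit 12) (nat_lit 0) (.cons (.ev (nat_lit 20361637766221491166552661360896) (nat_lit 2)) .nil)) (.cons (.br (nat_lit 3) (nat_lit 0) (.cons (.ev (nat_lit 20361637766221491166552661360896) (nat_lit 2)) .nil)) .nil))) (.cons (.ev (nat_lit 79228162514264619072815694081) (nat_lit 1)) (.cons (.rf (nat_lit 31) (nat_lit 493858305440582011936)) .nil)))) (.cons (.ev (nat_lit 79228162514264619072815628289) (nat_lit 1)) (.cons (.br (nat_lit 12) (nat_lit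 0) (.cons (.br (nat_lit 3) (nat_lit 0) (.cons (.br (nat_lit 11) (nat_lit 0) (.cons (.ev (nat_lit 20282409603670117450599744143616) (nat_lit 1)) .nil)) (.cons (.br (nat_lit 8) (nat_lit 0) (.cons (.ev (nat_lit 20520094100657787265036117410305) (nat_lit 2)) .nil)) (.cons (.rf (nat_lit 378) (nat_lit 493858305440582043680)) .nil)))) (.cons (.ev (nat_lit 4740885566016664371201) (nat_lit 1)) (.cons (.br (nat_lit 3) (nat_lit 0) (.cons (.br (nat_lit 3) (nat_lit 0) (.cons (.ev (nat_lit 20282409603670189507094270509313) (nat_lit 1)) .nil)) (.cons (.rf (nat_lit 378) (nat_lit 493858305440582043680)) .nil))) (.cons (.ev (nat_lit 20440869555457874679862032269570) (nat_lit 2)) .nil))))) .nil)))))),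
 (.br (nat_lit 13) (nat_lit 0) (.cons (.br (nat_lit 12) (nat_lit 0) (.cons (.ev (nat_lit 20361637766221491166552661361410) (nat_lit 2)) .nil)) (.cons (.br (nat_lit 3) (nat_lit 0) (.cons (.ev (nat_lit 20361637766221491166552661361410) (nat_lit 2)) .nil)) .nil))),
 (.br (nat_lit 4) (nat_lit 0) (.cons (.rf (nat_lit 379) (nat_lit 493858305440582043680)) (.cons (.br (nat_lit 12) (nat_lit 0) (.cons (.ev (nat_lit 79229376162450716571635548416) (nat_lit 1)) (.cons (.ev (nat_lit 79228162514264619072815694081) (nat_lit 1)) (.cons (.br (nat_lit 11) (nat_lit 0) (.cons (.br (nat_lit 3) (nat_lit 0) (.cons (.ev (nat_lit 40644047384040044869625269256960) (nat_lit 2)) .nil)) (.cons (.kr (nat_lit 40564819207303340848994014199808) (nat_lit 1213648258155092857847808) (nat_lit 5) (nat_lit 0)) .nil))) .nil)))) (.cons (.br (nat_lit 8) (nat_lit 0) (.cons (.rf (nat_lit 380) (nat_lit 493858305440582043680)) (.cons (.ev (nat_lit 79228162514264619072815694081) (nat_lit 1)) (.cons (.rf (nat_lit 53) (nat_lit 493858305440582011936))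 .nil)))) (.cons (.ev (nat_lit 79229376162450716571635613953) (nat_lit 1)) (.cons (.rf (nat_lit 54) (nat_lit 493858305440582011936)) .nil)))))),
 (.br (nat_lit 3) (nat_lit 0) (.cons (.rf (nat_lit 379) (nat_lit 493858305440582043680)) (.cons (.rf (nat_lit 381) (nat_lit 493858305440582043680)) (.cons (.rf (nat_lit 307) (nat_lit 493750222348060035104)) (.cons (.br (nat_lit 4) (nat_lit 0) (.cons (.rf (nat_lit 380) (nat_lit 493678161460855932960)) (.cons (.br (nat_lit 6) (nat_lit 0) (.cons (.ev (nat_lit 4740885566016664371201) (nat_lit 1)) .nil)) (.cons (.br (nat_lit 6) (nat_lit 0) (.cons (.ev (nat_lit 4740885566016664371201) (nat_lit 1)) .nil)) .nil)))) .nil))))),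
 (.br (nat_lit 6) (nat_lit 0) (.cons (.ev (nat_lit 20282409603670117450599744143616) (nat_lit 1)) .nil)),
 (.br (nat_lit 3) (nat_lit 0) (.cons (.rf (nat_lit 379) (nat_lit 493858305440582043680)) (.cons (.rf (nat_lit 381) (nat_lit 493858305440582043680)) (.cons (.rf (nat_lit 307) (nat_lit 493750222348060035104)) (.cons (.br (nat_lit 4) (nat_lit 0) (.cons (.br (nat_lit 11) (nat_lit 0) (.cons (.ev (nat_lit 20361637770888301525889712193536) (nat_lit 1)) .nil)) (.cons (.rf (nat_lit 383) (nat_lit 493858305440582043680)) (.cons (.br (nat_lit 6) (nat_lit 0) (.cons (.ev (nat_lit 20282409603670189507094270509056) (nat_lit 1)) .nil)) .nil)))) .nil))))),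
 (.br (nat_lit 3) (nat_lit 0) (.cons (.rf (nat_lit 379) (nat_lit 493858305440582043680)) (.cons (.rf (nat_lit 381) (nat_lit 493858305440582043680)) (.cons (.rf (nat_lit 382) (nat_lit 493858305440582043680)) (.cons (.rf (nat_lit 384) (nat_lit 493858305440582043680)) (.cons (.br (nat_lit 3) (nat_lit 0) (.cons (.rf (nat_lit 379) (nat_lit 493858305440582043680)) (.cons (.rf (nat_lit 381) (nat_lit 493858305440582043680)) (.cons (.rf (nat_lit 382) (nat_lit 493858305440582043680)) (.cons (.rf (nat_lit 384) (nat_lit 493858305440582043680)) .nil))))) .nil)))))),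
 (.br (nat_lit 6) (nat_lit 0) (.cons (.ev (nat_lit 4740813509522138071296) (nat_lit 1)) .nil)),
 (.br (nat_lit 3) (nat_lit 0) (.cons (.rf (nat_lit 379) (nat_lit 493858305440582043680)) (.cons (.rf (nat_lit 381) (nat_lit 493858305440582043680)) (.cons (.rf (nat_lit 307) (nat_lit 493750222348060035104)) (.cons (.br (nat_lit 4) (nat_lit 0) (.cons (.br (nat_lit 8) (nat_lit 0) (.cons (.ev (nat_lit 20440865942847371171594391060481) (nat_lit 2)) .nil)) (.cons (.br (nat_lit 6) (nat_lit 0) (.cons (.ev (nat_lit 4740885566016664436736) (nat_lit 1)) .nil)) (.cons (.rf (nat_lit 386) (nat_lit 493858305440582043680)) .nil)))) .nil)))))]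

theorem c14 : chkAll C T R L14 (nat_lit 360) = true := by decide +kernel

theorem l14 : (nat_lit 360) + L14.length = (nat_lit 388) := by decide +kernel

/-- part of the certificates -/
def L15 : List Prf := [(.br (nat_lit 3) (nat_lit 0) (.cons (.rf (nat_lit 379) (nat_lit 493858305440582043680)) (.cons (.rf (nat_lit 381) (nat_lit 493858305440582043680)) (.cons (.rf (nat_lit 385) (nat_lit 493858305440582043680)) (.cons (.rf (nat_lit 387) (nat_lit 493858305440582043680)) (.cons (.br (nat_lit 3) (nat_lit 0) (.cons (.rf (nat_lit 379) (nat_lit 493858305440582043680)) (.cons (.rf (nat_lit 381) (nat_lit 493858305440582043680)) (.cons (.rf (nat_lit 385) (nat_lit 493858305440582043680)) (.cons (.rf (nat_lit 387) (nat_lit 493858305440582043680)) .nil))))) .nil)))))),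
 (.br (nat_lit 3) (nat_lit 0) (.cons (.rf (nat_lit 379) (nat_lit 493858305440582043680)) (.cons (.rf (nat_lit 381) (nat_lit 493858305440582043680)) (.cons (.rf (nat_lit 385) (nat_lit 493858305440582043680)) (.cons (.rf (nat_lit 388) (nat_lit 493858305440582043680)) (.cons (.br (nat_lit 3) (nat_lit 0) (.cons (.rf (nat_lit 379) (nat_lit 493858305440582043680)) (.cons (.rf (nat_lit 381) (nat_lit 493858305440582043680)) (.cons (.rf (nat_lit 385) (nat_lit 493858305440582043680)) (.cons (.rf (nat_lit 388) (nat_lit 493858305440582043680)) .nil))))) .nil)))))),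
 (.br (nat_lit 10) (nat_lit 0) (.cons (.ev (nat_lit 79228162514336395191893688576) (nat_lit 1)) .nil)),
 (.br (nat_lit 8) (nat_lit 0) (.cons (.br (nat_lit 12) (nat_lit 0) (.cons (.br (nat_lit 12) (nat_lit 0) (.cons (.ev (nat_lit 158457538787757217263963602950) (nat_lit 3)) .nil)) (.cons (.ev (nat_lit 121694458854521534175014576980480) (nat_lit 3)) .nil))) (.cons (.ev (nat_lit 4740813509522138136576) (nat_lit 1)) (.cons (.br (nat_lit 3) (nat_lit 0) (.cons (.br (nat_lit 12) (nat_lit 0) (.cons (.ev (nat_lit 20282410817318375324217642123520) (nat_lit 1)) .nil)) (.cons (.rf (nat_lit 390) (nat_lit 15433072043909810208)) (.cons (.ev (nat_lit 20282409603670189226718822138113) (nat_lit 1)) .nil)))) (.cons (.br (nat_lit 12) (nat_lit 0) (.cons (.br (nat_lit 11) (nat_lit 0) (.cons (.zr (nat_lit 237685696523952860730446840576) (nat_lit 309499177065190345024798720) (nat_lit 5) (nat_lit 2)) .nil)) (.cons (.br (nat_lit 3) (nat_lit 0) (.cons (.zr (nat_lit 237685696523952860730446840576) (nat_lit 309499177065190345024798720)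 (nat_lit 5) (nat_lit 2)) .nil)) .nil))) .nil))))),
 (.br (nat_lit 3) (nat_lit 0) (.cons (.rf (nat_lit 391) (nat_lit 493858305440582043680)) (.cons (.br (nat_lit 13) (nat_lit 0) (.cons (.ev (nat_lit 40564820421025820017012035159558) (nat_lit 3)) (.cons (.ev (nat_lit 20282409603670189226718822203393) (nat_lit 1)) .nil))) (.cons (.br (nat_lit 11) (nat_lit 0) (.cons (.ev (nat_lit 4740813509522138136576) (nat_lit 1)) (.cons (.ev (nat_lit 79229376162522492690713542913) (nat_lit 1)) (.cons (.ev (nat_lit 20282409603670189226718822203393) (nat_lit 1)) .nil)))) (.cons (.ev (nat_lit 20282410817318375324217642057728) (nat_lit 1)) .nil))))),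
 (.br (nat_lit 3) (nat_lit 0) (.cons (.rf (nat_lit 391) (nat_lit 493858305440582043680)) (.cons (.rf (nat_lit 392) (nat_lit 493858305440582043680)) (.cons (.br (nat_lit 12) (nat_lit 0) (.cons (.br (nat_lit 8) (nat_lit 0) (.cons (.ev (nat_lit 4740885566016664371201) (nat_lit 1)) .nil)) (.cons (.ev (nat_lit 79229376162522492690713542913) (nat_lit 1)) (.cons (.rf (nat_lit 390) (nat_lit 9662659276816091168)) .nil)))) (.cons (.br (nat_lit 12) (nat_lit 0) (.cons (.br (nat_lit 8) (nat_lit 0) (.cons (.ev (nat_lit 20520094100657787825787014021121) (nat_lit 2)) .nil)) (.cons (.br (nat_lit 6) (nat_lit 0) (.cons (.ev (nat_lit 20520094100657787825787014021121) (nat_lit 2)) .nil)) .nil))) .nil))))),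
 (.br (nat_lit 3) (nat_lit 0) (.cons (.rf (nat_lit 391) (nat_lit 493858305440582043680)) (.cons (.rf (nat_lit 392) (nat_lit 493858305440582043680)) (.cons (.rf (nat_lit 393) (nat_lit 493858305440582043680)) (.cons (.br (nat_lit 6) (nat_lit 0) (.cons (.ev (nat_lit 20282409603670189226718822138113) (nat_lit 1)) (.cons (.br (nat_lit 8) (nat_lit 0) (.cons (.ev (nat_lit 40564820421025387669248784072704) (nat_lit 3)) .nil)) (.cons (.ev (nat_lit 79228162514264338697367388161) (nat_lit 1)) .nil)))) .nil))))),
 (.br (nat_lit 3) (nat_lit 0) (.cons (.rf (nat_lit 391) (nat_lit 493858305440582043680)) (.cons (.rf (nat_lit 392) (nat_lit 493858305440582043680)) (.cons (.rf (nat_lit 393) (nat_lit 493858305440582043680)) (.cons (.rf (nat_lit 394) (nat_lit 493858305440582043680)) (.cons (.br (nat_lit 3) (nat_lit 0) (.cons (.rf (nat_lit 391) (nat_lit 493858305440582043680)) (.cons (.ev (nat_lit 20282410817318375324217642057728) (nat_lit 1)) (.cons (.rf (nat_lit 393) (nat_lit 493858305440582043680)) (.cons (.rf (nat_lit 394)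 (nat_lit 493858305440582043680)) .nil))))) .nil)))))),
 (.br (nat_lit 4) (nat_lit 0) (.cons (.rf (nat_lit 395) (nat_lit 493858305440582043680)) (.cons (.ev (nat_lit 4740813509522138136576) (nat_lit 1)) (.cons (.br (nat_lit 13) (nat_lit 0) (.cons (.ev (nat_lit 20282413239910972741136158884609) (nat_lit 2)) (.cons (.br (nat_lit 3) (nat_lit 0) (.cons (.ev (nat_lit 41040189405519100839828083836420) (nat_lit 3)) .nil)) (.cons (.kr (nat_lit 40564819212025779389457697341442) (nat_lit 158457533991241777963681710592) (nat_lit 0) (nat_lit 2)) .nil)))) (.cons (.br (nat_lit 12) (nat_lit 0) (.cons (.br (nat_lit 11) (nat_lit 0) (.cons (.ev (nat_lit 79228167292116014504953839616) (nat_lit 2)) .nil)) (.cons (.br (nat_lit 3) (nat_lit 0) (.cons (.ev (nat_lit 79228167292116014504953839616) (nat_lit 2)) .nil)) .nil))) .nil))))),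
 (.br (nat_lit 3) (nat_lit 0) (.cons (.rf (nat_lit 395) (nat_lit 493858305440582043680)) (.cons (.rf (nat_lit 396) (nat_lit 493858305440582043680)) (.cons (.br (nat_lit 4) (nat_lit 0) (.cons (.br (nat_lit 12) (nat_lit 0) (.cons (.zr (nat_lit 79228181422177857570814820357) (nat_lit 622596797173592727113303040) (nat_lit 10) (nat_lit 3)) .nil)) (.cons (.ev (nat_lit 79228162514336395191893622784) (nat_lit 1)) (.cons (.br (nat_lit 8) (nat_lit 0) (.cons (.ev (nat_lit 4740885566016664371201) (nat_lit 1)) .nil)) .nil)))) (.cons (.br (nat_lit 12) (nat_lit 0) (.cons (.br (nat_lit 8) (nat_lit 0) (.cons (.ev (nat_lit 20361637770888301525889712128256) (nat_lit 1)) .nil)) (.cons (.br (nat_lit 4) (nat_lit 0) (.cons (.ev (nat_lit 20361637770888301525889712128256) (nat_lit 1)) .nil)) .nil))) .nil))))),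
 (.br (nat_lit 3) (nat_lit 0) (.cons (.rf (nat_lit 395) (nat_lit 493858305440582043680)) (.cons (.rf (nat_lit 396) (nat_lit 493858305440582043680)) (.cons (.rf (nat_lit 397) (nat_lit 493858305440582043680)) (.cons (.br (nat_lit 4) (nat_lit 0) (.cons (.br (nat_lit 11) (nat_lit 0) (.cons (.ev (nat_lit 40723276774425007045349382161920) (nat_lit 3)) .nil)) (.cons (.br (nat_lit 8) (nat_lit 0) (.cons (.ev (nat_lit 40644047384040117206495277351425) (nat_lit 2)) .nil)) (.cons (.br (nat_lit 8) (nat_lit 0) (.cons (.ev (nat_lit 40723276774425295271327487362560) (nat_lit 3)) .nil)) .nil)))) .nil))))),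
 (.br (nat_lit 3) (nat_lit 0) (.cons (.rf (nat_lit 395) (nat_lit 493858305440582043680)) (.cons (.rf (nat_lit 396) (nat_lit 493858305440582043680)) (.cons (.rf (nat_lit 397) (nat_lit 493858305440582043680)) (.cons (.rf (nat_lit 398) (nat_lit 493858305440582043680)) (.cons (.br (nat_lit 3) (nat_lit 0) (.cons (.rf (nat_lit 395) (nat_lit 493858305440582043680)) (.cons (.rf (nat_lit 396) (nat_lit 493858305440582043680)) (.cons (.rf (nat_lit 397) (nat_lit 493858305440582043680)) (.cons (.rf (nat_lit 398) (nat_lit 493858305440582043680)) .nil))))) .nil)))))),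
 (.br (nat_lit 3) (nat_lit 0) (.cons (.rf (nat_lit 395) (nat_lit 493858305440582043680)) (.cons (.rf (nat_lit 399) (nat_lit 493858305440582043680)) (.cons (.br (nat_lit 4) (nat_lit 0) (.cons (.ev (nat_lit 4740813509522138136833) (nat_lit 1)) (.cons (.br (nat_lit 6) (nat_lit 0) (.cons (.ev (nat_lit 4740885566016664371201) (nat_lit 1)) .nil)) (.cons (.br (nat_lit 6) (nat_lit 0) (.cons (.ev (nat_lit 4740885566016664371201) (nat_lit 1)) .nil)) .nil)))) (.cons (.br (nat_lit 4) (nat_lit 0) (.cons (.ev (nat_lit 4740813509522138136833) (nat_lit 1)) (.cons (.br (nat_lit 6) (nat_lit 0) (.cons (.ev (nat_lit 20361638975091754657649241620481) (nat_lit 1)) .nil)) .nil))) .nil))))),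
 (.br (nat_lit 3) (nat_lit 0) (.cons (.rf (nat_lit 395) (nat_lit 493858305440582043680)) (.cons (.rf (nat_lit 399) (nat_lit 493858305440582043680)) (.cons (.rf (nat_lit 400) (nat_lit 493858305440582043680)) (.cons (.br (nat_lit 4) (nat_lit 0) (.cons (.ev (nat_lit 4740813509522138136833) (nat_lit 1)) (.cons (.br (nat_lit 6) (nat_lit 0) (.cons (.ev (nat_lit 40644047384040261323882376462339) (nat_lit 2)) .nil)) (.cons (.ev (nat_lit 79229376162450436196187308288) (nat_lit 1)) .nil)))) .nil))))),
 (.br (nat_lit 3) (nat_lit 0) (.cons (.rf (nat_lit 395) (nat_lit 493858305440582043680)) (.cons (.rf (nat_lit 399) (nat_lit 493858305440582043680)) (.cons (.rf (nat_lit 400) (nat_lit 493858305440582043680)) (.cons (.rf (nat_lit 401) (nat_lit 493858305440582043680)) (.cons (.br (nat_lit 3) (nat_lit 0) (.cons (.ev (nat_lit 20282410817318375324217642057728) (nat_lit 1)) (.cons (.rf (nat_lit 399) (nat_lit 493858305440582043680)) (.cons (.rf (nat_lit 400) (nat_lit 493858305440582043680)) (.cons (.rf (nat_lit 401) (nat_lit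 493858305440582043680)) .nil))))) .nil)))))),
 (.br (nat_lit 3) (nat_lit 0) (.cons (.rf (nat_lit 395) (nat_lit 493858305440582043680)) (.cons (.rf (nat_lit 399) (nat_lit 493858305440582043680)) (.cons (.rf (nat_lit 402) (nat_lit 493858305440582043680)) (.cons (.br (nat_lit 4) (nat_lit 0) (.cons (.br (nat_lit 8) (nat_lit 0) (.cons (.ev (nat_lit 40564820421025387669248784073732) (nat_lit 3)) .nil)) (.cons (.br (nat_lit 6) (nat_lit 0) (.cons (.ev (nat_lit 4740885566016664436736) (nat_lit 1)) .nil)) (.cons (.br (nat_lit 6) (nat_lit 0) (.cons (.ev (nat_lit 20361637770888301525889712128256) (nat_lit 1)) .nil)) .nil)))) .nil))))),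
 (.br (nat_lit 3) (nat_lit 0) (.cons (.rf (nat_lit 395) (nat_lit 493858305440582043680)) (.cons (.rf (nat_lit 399) (nat_lit 493858305440582043680)) (.cons (.rf (nat_lit 402) (nat_lit 493858305440582043680)) (.cons (.rf (nat_lit 403) (nat_lit 493858305440582043680)) (.cons (.br (nat_lit 3) (nat_lit 0) (.cons (.rf (nat_lit 395) (nat_lit 493858305440582043680)) (.cons (.rf (nat_lit 399) (nat_lit 493858305440582043680)) (.cons (.rf (nat_lit 402) (nat_lit 493858305440582043680)) (.cons (.rf (nat_lit 403) (nat_lit 493858305440582043680)) .nil))))) .nil)))))),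
 (.br (nat_lit 3) (nat_lit 0) (.cons (.rf (nat_lit 395) (nat_lit 493858305440582043680)) (.cons (.rf (nat_lit 399) (nat_lit 493858305440582043680)) (.cons (.rf (nat_lit 402) (nat_lit 493858305440582043680)) (.cons (.rf (nat_lit 404) (nat_lit 493858305440582043680)) (.cons (.br (nat_lit 3) (nat_lit 0) (.cons (.rf (nat_lit 395) (nat_lit 493858305440582043680)) (.cons (.rf (nat_lit 399) (nat_lit 493858305440582043680)) (.cons (.rf (nat_lit 402) (nat_lit 493858305440582043680)) (.cons (.rf (nat_lit 404) (nat_lit 493858305440582043680)) .nil))))) .nil)))))),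
 (.br (nat_lit 2) (nat_lit 0) (.cons (.rf (nat_lit 171) (nat_lit 493858305440582042688)) (.cons (.rf (nat_lit 241) (nat_lit 493858305440582042688)) (.cons (.rf (nat_lit 342) (nat_lit 493858305440582042688)) (.cons (.br (nat_lit 3) (nat_lit 0) (.cons (.rf (nat_lit 369) (nat_lit 493858305440582043680)) (.cons (.rf (nat_lit 373) (nat_lit 493858305440582043680)) (.cons (.rf (nat_lit 375) (nat_lit 493858305440582043680)) (.cons (.rf (nat_lit 376) (nat_lit 493858305440582043680)) (.cons (.br (nat_lit 3) (nat_lit 0) (.cons (.rf (nat_lit 369) (nat_lit 493858305440582043680)) (.cons (.rf (nat_lit 373) (nat_lit 493858305440582043680)) (.cons (.rf (nat_lit 375) (nat_lit 493858305440582043680)) (.cons (.rf (nat_lit 376) (nat_lit 493858305440582043680)) .nil))))) .nil)))))) (.cons (.br (nat_lit 3) (nat_lit 0) (.cons (.rf (nat_lit 379) (nat_lit 493858305440582043680)) (.cons (.rf (nat_lit 381) (nat_lit 493858305440582043680)) (.cons (.rf (nat_lit 385) (nat_lit 493858305440582043680)) (.cons (.rf (nat_lit 388) (nat_lit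 493858305440582043680)) (.cons (.rf (nat_lit 389) (nat_lit 493858305440582043680)) (.cons (.br (nat_lit 3) (nat_lit 0) (.cons (.rf (nat_lit 379) (nat_lit 493858305440582043680)) (.cons (.rf (nat_lit 381) (nat_lit 493858305440582043680)) (.cons (.rf (nat_lit 385) (nat_lit 493858305440582043680)) (.cons (.rf (nat_lit 388) (nat_lit 493858305440582043680)) (.cons (.rf (nat_lit 389) (nat_lit 493858305440582043680)) .nil)))))) .nil))))))) (.cons (.br (nat_lit 3) (nat_lit 0) (.cons (.rf (nat_lit 395) (nat_lit 493858305440582043680)) (.cons (.rf (nat_lit 399) (nat_lit 493858305440582043680)) (.cons (.rf (nat_lit 402) (nat_lit 493858305440582043680)) (.cons (.rf (nat_lit 404) (nat_lit 493858305440582043680)) (.cons (.rf (nat_lit 405) (nat_lit 493858305440582043680)) (.cons (.br (nat_lit 3) (nat_lit 0) (.cons (.rf (nat_lit 395) (nat_lit 493858305440582043680)) (.cons (.rf (nat_lit 399) (nat_lit 493858305440582043680)) (.cons (.rf (nat_lit 402) (nat_lit 493858305440582043680)) (.cons (.rf (nat_lit 404) (nat_lit 493858305440582043680))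 (.cons (.rf (nat_lit 405) (nat_lit 493858305440582043680)) .nil)))))) .nil))))))) .nil))))))),
 (.br (nat_lit 3) (nat_lit 0) (.cons (.ev (nat_lit 79228162514336395191893688576) (nat_lit 1)) .nil)),
 (.br (nat_lit 3) (nat_lit 0) (.cons (.rf (nat_lit 407) (nat_lit 14242959524133701664)) (.cons (.rf (nat_lit 407) (nat_lit 8298067455817909312)) .nil))),
 (.br (nat_lit 6) (nat_lit 0) (.cons (.br (nat_lit 12) (nat_lit 0) (.cons (.ev (nat_lit 79228162514264619072815694081) (nat_lit 1)) (.cons (.ev (nat_lit 79228162514336677766365184256) (nat_lit 1)) (.cons (.br (nat_lit 8) (nat_lit 0) (.cons (.br (nat_lit 8) (nat_lit 0) (.cons (.ev (nat_lit 20282409603670189226718822138113) (nat_lit 1)) .nil)) (.cons (.br (nat_lit 3) (nat_lit 0) (.cons (.ev (nat_lit 20282409603670189226718822138113) (nat_lit 1)) .nil)) .nil))) .nil)))) (.cons (.br (nat_lit 12) (nat_lit 0) (.cons (.ev (nat_lit 79228162514336677766365184256) (nat_lit 1)) (.cons (.ev (nat_lit 79228162514264619072815694081) (nat_lit 1)) (.cons (.rf (nat_lit 408) (nat_lit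 15433072043909810208)) .nil)))) (.cons (.ev (nat_lit 79228162514264619072815628289) (nat_lit 1)) (.cons (.br (nat_lit 12) (nat_lit 0) (.cons (.br (nat_lit 8) (nat_lit 0) (.cons (.br (nat_lit 8) (nat_lit 0) (.cons (.ev (nat_lit 20282409603670189226718822138113) (nat_lit 1)) .nil)) (.cons (.br (nat_lit 3) (nat_lit 0) (.cons (.ev (nat_lit 20282409603670189226718822138113) (nat_lit 1)) .nil)) .nil))) (.cons (.rf (nat_lit 408) (nat_lit 9668288770981595168)) (.cons (.ev (nat_lit 79228162514264619072815694081) (nat_lit 1)) .nil)))) .nil))))),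
 (.br (nat_lit 3) (nat_lit 0) (.cons (.rf (nat_lit 409) (nat_lit 493858305440582043680)) (.cons (.br (nat_lit 4) (nat_lit 0) (.cons (.ev (nat_lit 79229376162450716571635548416) (nat_lit 1)) (.cons (.br (nat_lit 8) (nat_lit 0) (.cons (.zr (nat_lit 1213648187224498238652416) (nat_lit 79537647542748599522403811585) (nat_lit 5) (nat_lit 1)) .nil)) .nil))) (.cons (.br (nat_lit 4) (nat_lit 0) (.cons (.br (nat_lit 12) (nat_lit 0) (.cons (.ev (nat_lit 20282410817318303265524092502273) (nat_lit 1)) .nil)) (.cons (.br (nat_lit 8) (nat_lit 0) (.cons (.ev (nat_lit 20361637770888301525889712128256) (nat_lit 1)) .nil)) (.cons (.kr (nat_lit 1213648258155092857847810) (nat_lit 40564819207303340848994014330880) (nat_lit 0) (nat_lit 1)) .nil)))) .nil))))]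

theorem c15 : chkAll C T R L15 (nat_lit 388) = true := by decide +kernel

theorem l15 : (nat_lit 388) + L15.length = (nat_lit 411) := by decide +kernel

/-- part of the certificates -/
def L16 : List Prf := [(.br (nat_lit 8) (nat_lit 0) (.cons (.rf (nat_lit 410) (nat_lit 493858305440582043680)) (.cons (.ev (nat_lit 79228162514336677766365184256) (nat_lit 1)) (.cons (.br (nat_lit 4) (nat_lit 0) (.cons (.ev (nat_lit 79228162514264619072815694081) (nat_lit 1)) (.cons (.ev (nat_lit 79228162514336677766365184256) (nat_lit 1)) (.cons (.kr (nat_lit 1213648186098598331547648) (nat_lit 40564819207303412905488540499968) (nat_lit 5) (nat_lit 0)) .nil)))) .nil)))),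
 (.br (nat_lit 3) (nat_lit 0) (.cons (.rf (nat_lit 409) (nat_lit 493858305440582043680)) (.cons (.rf (nat_lit 410) (nat_lit 493858305440582043680)) (.cons (.rf (nat_lit 411) (nat_lit 493858305440582043680)) (.cons (.br (nat_lit 3) (nat_lit 0) (.cons (.rf (nat_lit 409) (nat_lit 493858305440582043680)) (.cons (.rf (nat_lit 410) (nat_lit 493858305440582043680)) (.cons (.rf (nat_lit 411) (nat_lit 493858305440582043680)) .nil)))) .nil))))),
 (.br (nat_lit 3) (nat_lit 0) (.cons (.rf (nat_lit 409) (nat_lit 493858305440582043680)) (.cons (.rf (nat_lit 412) (nat_lit 493858305440582043680)) (.cons (.br (nat_lit 4) (nat_lit 0) (.cons (.br (nat_lit 8) (nat_lit 0) (.cons (.ev (nat_lit 20361637770888301525889712193536) (nat_lit 1)) .nil)) (.cons (.br (nat_lit 6) (nat_lit 0) (.cons (.ev (nat_lit 20282410817318303265524092502273) (nat_lit 1)) .nil)) (.cons (.kr (nat_lit 1213648258155092857847810) (nat_lit 40564819207303340848994014330880) (nat_lit 0) (nat_lit 1)) .nil)))) .nil)))),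
 (.br (nat_lit 3) (nat_lit 0) (.cons (.rf (nat_lit 409) (nat_lit 493858305440582043680)) (.cons (.rf (nat_lit 412) (nat_lit 493858305440582043680)) (.cons (.rf (nat_lit 413) (nat_lit 493858305440582043680)) (.cons (.br (nat_lit 3) (nat_lit 0) (.cons (.rf (nat_lit 409) (nat_lit 493858305440582043680)) (.cons (.rf (nat_lit 412) (nat_lit 493858305440582043680)) (.cons (.rf (nat_lit 413) (nat_lit 493858305440582043680)) .nil)))) .nil))))),
 (.br (nat_lit 3) (nat_lit 0) (.cons (.rf (nat_lit 409) (nat_lit 493858305440582043680)) (.cons (.rf (nat_lit 412) (nat_lit 493858305440582043680)) (.cons (.rf (nat_lit 414) (nat_lit 493858305440582043680)) (.cons (.br (nat_lit 3) (nat_lit 0) (.cons (.rf (nat_lit 409) (nat_lit 493858305440582043680)) (.cons (.rf (nat_lit 412) (nat_lit 493858305440582043680)) (.cons (.rf (nat_lit 414) (nat_lit 493858305440582043680)) .nil)))) .nil))))),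
 (.br (nat_lit 12) (nat_lit 0) (.cons (.br (nat_lit 12) (nat_lit 0) (.cons (.ev (nat_lit 40564820421025386547746990981632) (nat_lit 3)) .nil)) (.cons (.br (nat_lit 8) (nat_lit 0) (.cons (.ev (nat_lit 40564820421025386547746990981632) (nat_lit 3)) .nil)) .nil))),
 (.br (nat_lit 8) (nat_lit 0) (.cons (.rf (nat_lit 416) (nat_lit 493858305440582043680)) (.cons (.br (nat_lit 3) (nat_lit 0) (.cons (.ev (nat_lit 40564820421025674773725095920132) (nat_lit 3)) .nil)) .nil))),
 (.br (nat_lit 8) (nat_lit 0) (.cons (.rf (nat_lit 416) (nat_lit 493858305440582043680)) (.cons (.rf (nat_lit 417) (nat_lit 493858305440582043680)) (.cons (.br (nat_lit 8) (nat_lit 0) (.cons (.rf (nat_lit 416) (nat_lit 493858305440582043680)) (.cons (.rf (nat_lit 417) (nat_lit 493858305440582043680)) .nil))) .nil)))),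
 (.br (nat_lit 12) (nat_lit 0) (.cons (.ev (nat_lit 79229371495424187751005815296) (nat_lit 2)) .nil)),
 (.br (nat_lit 6) (nat_lit 0) (.cons (.ev (nat_lit 79229371495424187751005683712) (nat_lit 2)) .nil)),
 (.br (nat_lit 3) (nat_lit 0) (.cons (.rf (nat_lit 418) (nat_lit 493858305440582043680)) (.cons (.br (nat_lit 8) (nat_lit 0) (.cons (.rf (nat_lit 419) (nat_lit 493858305440582043680)) (.cons (.ev (nat_lit 475370207660347723182025868800) (nat_lit 3)) (.cons (.rf (nat_lit 420) (nat_lit 493858305440582043680)) .nil)))) (.cons (.rf (nat_lit 418) (nat_lit 230986506996392494144)) .nil)))),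
 (.br (nat_lit 3) (nat_lit 0) (.cons (.rf (nat_lit 418) (nat_lit 493858305440582043680)) (.cons (.rf (nat_lit 421) (nat_lit 493858305440582043680)) (.cons (.rf (nat_lit 421) (nat_lit 230986506996392494144)) (.cons (.rf (nat_lit 418) (nat_lit 230986506996392494144)) .nil))))),
 (.br (nat_lit 3) (nat_lit 0) (.cons (.rf (nat_lit 422) (nat_lit 493858305440582043680)) (.cons (.br (nat_lit 4) (nat_lit 0) (.cons (.br (nat_lit 12) (nat_lit 0) (.cons (.ev (nat_lit 20282409603670189507094270509056) (nat_lit 1)) .nil)) (.cons (.br (nat_lit 8) (nat_lit 0) (.cons (.ev (nat_lit 20361637770888301525889712128256) (nat_lit 1)) .nil)) (.cons (.br (nat_lit 8) (nat_lit 0) (.cons (.ev (nat_lit 20361637766221347333939090489856) (nat_lit 2)) .nil)) .nil)))) (.cons (.br (nat_lit 12) (nat_lit 0) (.cons (.br (nat_lit 8) (nat_lit 0) (.cons (.ev (nat_lit 20361637770888301525889712128256) (nat_lit 1)) .nil)) (.cons (.br (nat_lit 4) (nat_lit 0) (.cons (.ev (nat_lit 20361637770888301525889712128256) (nat_lit 1)) .nil)) .nil))) .nil)))),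
 (.br (nat_lit 3) (nat_lit 0) (.cons (.rf (nat_lit 422) (nat_lit 493858305440582043680)) (.cons (.rf (nat_lit 423) (nat_lit 493858305440582043680)) (.cons (.br (nat_lit 3) (nat_lit 0) (.cons (.rf (nat_lit 422) (nat_lit 493858305440582043680)) (.cons (.rf (nat_lit 423) (nat_lit 493858305440582043680)) (.cons (.rf (nat_lit 423) (nat_lit 230986506996392494144)) .nil)))) (.cons (.br (nat_lit 3) (nat_lit 0) (.cons (.rf (nat_lit 422) (nat_lit 493858305440582043680)) (.cons (.rf (nat_lit 423) (nat_lit 493858305440582043680)) (.cons (.rf (nat_lit 423) (nat_lit 230986506996392494144)) .nil)))) .nil))))),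
 (.br (nat_lit 3) (nat_lit 0) (.cons (.rf (nat_lit 422) (nat_lit 493858305440582043680)) (.cons (.rf (nat_lit 424) (nat_lit 493858305440582043680)) (.cons (.br (nat_lit 3) (nat_lit 0) (.cons (.rf (nat_lit 422) (nat_lit 493858305440582043680)) (.cons (.rf (nat_lit 424) (nat_lit 493858305440582043680)) (.cons (.rf (nat_lit 424) (nat_lit 230986506996392494144)) .nil)))) (.cons (.rf (nat_lit 424) (nat_lit 230986506996392494144)) .nil))))),
 (.br (nat_lit 2) (nat_lit 0) (.cons (.kr (nat_lit 4722438540463683141634) (nat_lit 1208925819615728686465024) (nat_lit 0) (nat_lit 1)) (.cons (.rf (nat_lit 241) (nat_lit 493858305440582042688)) (.cons (.kr (nat_lit 256) (nat_lit 65536) (nat_lit 1) (nat_lit 0)) (.cons (.rf (nat_lit 406) (nat_lit 493858305440582043680)) (.cons (.br (nat_lit 3) (nat_lit 0) (.cons (.rf (nat_lit 409) (nat_lit 493858305440582043680)) (.cons (.rf (nat_lit 412) (nat_lit 493858305440582043680)) (.cons (.rf (nat_lit 414) (nat_lit 493858305440582043680)) (.cons (.rf (nat_lit 415) (nat_lit 493858305440582043680))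 (.cons (.br (nat_lit 3) (nat_lit 0) (.cons (.rf (nat_lit 409) (nat_lit 493858305440582043680)) (.cons (.rf (nat_lit 412) (nat_lit 493858305440582043680)) (.cons (.rf (nat_lit 414) (nat_lit 493858305440582043680)) (.cons (.rf (nat_lit 415) (nat_lit 493858305440582043680)) .nil))))) .nil)))))) (.cons (.br (nat_lit 3) (nat_lit 0) (.cons (.rf (nat_lit 422) (nat_lit 493858305440582043680)) (.cons (.rf (nat_lit 424) (nat_lit 493858305440582043680)) (.cons (.rf (nat_lit 425) (nat_lit 493858305440582043680)) (.cons (.rf (nat_lit 425) (nat_lit 230986506996392494144)) (.cons (.rf (nat_lit 424) (nat_lit 230986506996392494144)) .nil)))))) .nil))))))),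
 (.br (nat_lit 2) (nat_lit 0) (.cons (.rf (nat_lit 171) (nat_lit 493858305440582042688)) (.cons (.rf (nat_lit 241) (nat_lit 493858305440582042688)) (.cons (.rf (nat_lit 364) (nat_lit 493858305440582043680)) (.cons (.rf (nat_lit 406) (nat_lit 493858305440582043680)) (.cons (.rf (nat_lit 426) (nat_lit 493858305440582043680)) (.cons (.br (nat_lit 2) (nat_lit 0) (.cons (.rf (nat_lit 171) (nat_lit 493858305440582042688)) (.cons (.rf (nat_lit 241) (nat_lit 493858305440582042688)) (.cons (.rf (nat_lit 364) (nat_lit 493858305440582043680)) (.cons (.rf (nat_lit 406) (nat_lit 493858305440582043680)) (.cons (.rf (nat_lit 426) (nat_lit 493858305440582043680)) (.cons (.rf (nat_lit 342) (nat_lit 230986506996392494144)) .nil))))))) (.cons (.br (nat_lit 2) (nat_lit 0) (.cons (.rf (nat_lit 171) (nat_lit 493858305440582042688)) (.cons (.rf (nat_lit 241) (nat_lit 493858305440582042688)) (.cons (.rf (nat_lit 364) (nat_lit 493858305440582043680)) (.cons (.rf (nat_lit 406) (nat_lit 493858305440582043680)) (.cons (.rf (nat_lit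 426) (nat_lit 493858305440582043680)) (.cons (.rf (nat_lit 342) (nat_lit 230986506996392494144)) .nil))))))) .nil)))))))),
 (.br (nat_lit 3) (nat_lit 0) (.cons (.kr (nat_lit 4722438541563194769410) (nat_lit 1208925820177579161681920) (nat_lit 0) (nat_lit 1)) (.cons (.br (nat_lit 13) (nat_lit 0) (.cons (.ev (nat_lit 20361638975091754657649258397953) (nat_lit 1)) (.cons (.ev (nat_lit 20361638975091826433768302838016) (nat_lit 1)) .nil))) (.cons (.br (nat_lit 12) (nat_lit 0) (.cons (.ev (nat_lit 20361638975091754657649258463233) (nat_lit 1)) (.cons (.ev (nat_lit 20361638975091826433768302838016) (nat_lit 1)) .nil))) .nil)))),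
 (.br (nat_lit 11) (nat_lit 0) (.cons (.kr (nat_lit 72057594037927937) (nat_lit 281474993487872) (nat_lit 0) (nat_lit 1)) (.cons (.br (nat_lit 8) (nat_lit 0) (.cons (.rf (nat_lit 428) (nat_lit 493858305440582043680)) (.cons (.ev (nat_lit 40723276774425151719089297687042) (nat_lit 3)) .nil))) (.cons (.ev (nat_lit 20361637770888301245514247045376) (nat_lit 1)) .nil)))),
 (.br (nat_lit 3) (nat_lit 0) (.cons (.rf (nat_lit 428) (nat_lit 493858305440582043680)) (.cons (.br (nat_lit 3) (nat_lit 0) (.cons (.kr (nat_lit 4722438541563194769410) (nat_lit 1208925820177579161681920) (nat_lit 0) (nat_lit 1)) (.cons (.kr (nat_lit 72057594037927937) (nat_lit 281474993487872) (nat_lit 0) (nat_lit 1)) (.cons (.kr (nat_lit 72057594037993473) (nat_lit 281474993488128) (nat_lit 0) (nat_lit 4)) .nil)))) (.cons (.rf (nat_lit 429) (nat_lit 493858305440582043680)) (.cons (.br (nat_lit 3) (nat_lit 0) (.cons (.rf (nat_lit 428) (nat_lit 493858305440582043680)) (.cons (.kr (nat_lit 72057594037993473) (nat_lit 281474993488128) (nat_lit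 0) (nat_lit 4)) (.cons (.rf (nat_lit 429) (nat_lit 493858305440582043680)) .nil)))) .nil))))),
 (.br (nat_lit 3) (nat_lit 0) (.cons (.kr (nat_lit 4722438541563194769410) (nat_lit 1208925820177579161681920) (nat_lit 0) (nat_lit 1)) (.cons (.br (nat_lit 4) (nat_lit 0) (.cons (.ev (nat_lit 4740813226947666575616) (nat_lit 1)) (.cons (.br (nat_lit 8) (nat_lit 0) (.cons (.ev (nat_lit 4740885285641216065536) (nat_lit 1)) .nil)) (.cons (.rf (nat_lit 371) (nat_lit 12977312864242075680)) .nil)))) (.cons (.br (nat_lit 4) (nat_lit 0) (.cons (.ev (nat_lit 4740813226947666509824) (nat_lit 1)) (.cons (.br (nat_lit 8) (nat_lit 0) (.cons (.ev (nat_lit 4740885285641216065536) (nat_lit 1)) .nil)) (.cons (.rf (nat_lit 371) (nat_lit 12977311765804188736)) .nil)))) .nil)))),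
 (.br (nat_lit 3) (nat_lit 0) (.cons (.rf (nat_lit 430) (nat_lit 493858305440582043680)) (.cons (.rf (nat_lit 431) (nat_lit 493858305440582043680)) (.cons (.br (nat_lit 4) (nat_lit 0) (.cons (.ev (nat_lit 40723275541776746888791075259139) (nat_lit 2)) (.cons (.ev (nat_lit 20361638975091826716342808018945) (nat_lit 1)) .nil))) .nil)))),
 (.br (nat_lit 3) (nat_lit 0) (.cons (.rf (nat_lit 430) (nat_lit 493858305440582043680)) (.cons (.rf (nat_lit 431) (nat_lit 493858305440582043680)) (.cons (.rf (nat_lit 432) (nat_lit 493858305440582043680)) (.cons (.br (nat_lit 3) (nat_lit 0) (.cons (.rf (nat_lit 430) (nat_lit 493858305440582043680)) (.cons (.rf (nat_lit 431) (nat_lit 493858305440582043680)) (.cons (.rf (nat_lit 432) (nat_lit 493858305440582043680)) .nil)))) .nil))))),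
 (.br (nat_lit 3) (nat_lit 0) (.cons (.kr (nat_lit 72057594037927937) (nat_lit 281474993487872) (nat_lit 0) (nat_lit 1)) (.cons (.rf (nat_lit 433) (nat_lit 493858305440582043680)) (.cons (.br (nat_lit 4) (nat_lit 0) (.cons (.ev (nat_lit 20361638975091826716342808018945) (nat_lit 1)) (.cons (.ev (nat_lit 20361638975091826433768302838016) (nat_lit 1)) .nil))) .nil)))),
 (.br (nat_lit 3) (nat_lit 0) (.cons (.rf (nat_lit 430) (nat_lit 493858305440582043680)) (.cons (.rf (nat_lit 433) (nat_lit 493858305440582043680)) (.cons (.rf (nat_lit 434) (nat_lit 493858305440582043680)) (.cons (.br (nat_lit 3) (nat_lit 0) (.cons (.kr (nat_lit 72057594037993473) (nat_lit 281474993488128) (nat_lit 0) (nat_lit 4)) (.cons (.rf (nat_lit 433) (nat_lit 493858305440582043680)) (.cons (.rf (nat_lit 434) (nat_lit 493858305440582043680)) .nil)))) .nil))))),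
 (.br (nat_lit 3) (nat_lit 0) (.cons (.rf (nat_lit 430) (nat_lit 493858305440582043680)) (.cons (.rf (nat_lit 433) (nat_lit 493858305440582043680)) (.cons (.rf (nat_lit 435) (nat_lit 493858305440582043680)) (.cons (.br (nat_lit 3) (nat_lit 0) (.cons (.rf (nat_lit 430) (nat_lit 493858305440582043680)) (.cons (.rf (nat_lit 433) (nat_lit 493858305440582043680)) (.cons (.rf (nat_lit 435) (nat_lit 493858305440582043680)) .nil)))) .nil))))),
 (.br (nat_lit 2) (nat_lit 0) (.cons (.rf (nat_lit 171) (nat_lit 493858305440582042688)) (.cons (.rf (nat_lit 241) (nat_lit 493858305440582042688)) (.cons (.kr (nat_lit 4722366483969156841984) (nat_lit 1208925891672223212765184) (nat_lit 1) (nat_lit 0)) (.cons (.rf (nat_lit 427) (nat_lit 493858305440582042688)) (.cons (.kr (nat_lit 256) (nat_lit 65536) (nat_lit 1) (nat_lit 0)) (.cons (.br (nat_lit 3) (nat_lit 0) (.cons (.rf (nat_lit 430) (nat_lit 493858305440582043680)) (.cons (.rf (nat_lit 433) (nat_lit 493858305440582043680)) (.cons (.rf (nat_lit 435) (nat_lit 493858305440582043680))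 (.cons (.rf (nat_lit 436) (nat_lit 493858305440582043680)) (.cons (.br (nat_lit 3) (nat_lit 0) (.cons (.rf (nat_lit 430) (nat_lit 493858305440582043680)) (.cons (.rf (nat_lit 433) (nat_lit 493858305440582043680)) (.cons (.rf (nat_lit 435) (nat_lit 493858305440582043680)) (.cons (.rf (nat_lit 436) (nat_lit 493858305440582043680)) .nil))))) .nil)))))) .nil))))))),
 (.br (nat_lit 13) (nat_lit 0) (.cons (.br (nat_lit 13) (nat_lit 0) (.cons (.ev (nat_lit 4740813509522138136576) (nat_lit 1)) (.cons (.kr (nat_lit 14167171506202973569026) (nat_lit 40564820416229160463623189037056) (nat_lit 0) (nat_lit 1)) (.cons (.ev (nat_lit 79229376162450716571652390913) (nat_lit 1)) .nil)))) (.cons (.ev (nat_lit 4740813509522138136576) (nat_lit 1)) (.cons (.br (nat_lit 13) (nat_lit 0) (.cons (.kr (nat_lit 14167171506202973569026) (nat_lit 40564820416229160463623189037056) (nat_lit 0) (nat_lit 1)) (.cons (.ev (nat_lit 4740813509522138136576) (nat_lit 1)) (.cons (.kr (nat_lit 40564819207303340848994014199808) (nat_lit 1213648258155092857847808)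 (nat_lit 5) (nat_lit 0)) .nil)))) (.cons (.br (nat_lit 13) (nat_lit 0) (.cons (.ev (nat_lit 79229376162450716571652390913) (nat_lit 1)) (.cons (.ev (nat_lit 4740813509522138136576) (nat_lit 1)) (.cons (.kr (nat_lit 40564819207303340848994014199808) (nat_lit 1213648258155092857847808) (nat_lit 5) (nat_lit 0)) .nil)))) .nil)))))]

theorem c16 : chkAll C T R L16 (nat_lit 411) = true := by decide +kernel

theorem l16 : (nat_lit 411) + L16.length = (nat_lit 439) := by decide +kernel

/-- part of the certificates -/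
def L17 : List Prf := [(.br (nat_lit 11) (nat_lit 0) (.cons (.ev (nat_lit 309485009821626548013302016) (nat_lit 1)) .nil)),
 (.br (nat_lit 6) (nat_lit 0) (.cons (.rf (nat_lit 438) (nat_lit 493858305440582043680)) (.cons (.br (nat_lit 3) (nat_lit 0) (.cons (.ev (nat_lit 79228162514336677766381961473) (nat_lit 1)) (.cons (.rf (nat_lit 439) (nat_lit 15433070910038444064)) .nil))) (.cons (.br (nat_lit 13) (nat_lit 0) (.cons (.br (nat_lit 11) (nat_lit 0) (.cons (.zr (nat_lit 2417851711289051410595843) (nat_lit 79537647542532708215266738432) (nat_lit 5) (nat_lit 4)) .nil)) (.cons (.br (nat_lit 3) (nat_lit 0) (.cons (.zr (nat_lit 2417851711289051410595843) (nat_lit 79537647542532708215266738432) (nat_lit 5) (nat_lit 4)) .nil)) .nil))) (.cons (.ev (nat_lit 4740813509522138136576) (nat_lit 1)) .nil))))),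
 (.br (nat_lit 3) (nat_lit 0) (.cons (.rf (nat_lit 438) (nat_lit 493858305440582043680)) (.cons (.rf (nat_lit 440) (nat_lit 493858305440582043680)) (.cons (.br (nat_lit 6) (nat_lit 0) (.cons (.ev (nat_lit 79228162514336677766381961473) (nat_lit 1)) (.cons (.br (nat_lit 8) (nat_lit 0) (.cons (.zr (nat_lit 2417851783345545936896004) (nat_lit 79537647542532708215266738688) (nat_lit 5) (nat_lit 4)) .nil)) .nil))) (.cons (.br (nat_lit 6) (nat_lit 0) (.cons (.rf (nat_lit 439) (nat_lit 15429696508852799520)) (.cons (.br (nat_lit 8) (nat_lit 0) (.cons (.ev (nat_lit 4740885566016664371201) (nat_lit 1)) .nil)) (.cons (.kr (nat_lit 9444732965739290427649) (nat_lit 20282410812577490038576426123264) (nat_lit 0) (nat_lit 3)) .nil)))) .nil))))),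
 (.br (nat_lit 3) (nat_lit 0) (.cons (.ev (nat_lit 79229376162522775265201881088) (nat_lit 1)) (.cons (.rf (nat_lit 440) (nat_lit 493858305440582043680)) (.cons (.rf (nat_lit 441) (nat_lit 493858305440582043680)) (.cons (.br (nat_lit 13) (nat_lit 0) (.cons (.kr (nat_lit 9444732965739290427649) (nat_lit 20282410812577490038576426123264) (nat_lit 0) (nat_lit 3)) (.cons (.br (nat_lit 6) (nat_lit 0) (.cons (.ev (nat_lit 20282409603670117450599744208896) (nat_lit 1)) .nil)) (.cons (.kr (nat_lit 14167171506202973569026) (nat_lit 40564820416229160463623189037056) (nat_lit 0) (nat_lit 1)) .nil)))) .nil))))),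
 (.br (nat_lit 3) (nat_lit 0) (.cons (.rf (nat_lit 438) (nat_lit 493858305440582043680)) (.cons (.rf (nat_lit 440) (nat_lit 493858305440582043680)) (.cons (.rf (nat_lit 441) (nat_lit 493858305440582043680)) (.cons (.rf (nat_lit 442) (nat_lit 493858305440582043680)) (.cons (.br (nat_lit 3) (nat_lit 0) (.cons (.rf (nat_lit 438) (nat_lit 493858305440582043680)) (.cons (.rf (nat_lit 440) (nat_lit 493858305440582043680)) (.cons (.rf (nat_lit 441) (nat_lit 493858305440582043680)) (.cons (.rf (nat_lit 442) (nat_lit 493858305440582043680)) .nil))))) .nil)))))),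
 (.br (nat_lit 4) (nat_lit 0) (.cons (.rf (nat_lit 443) (nat_lit 493858305440582043680)) (.cons (.br (nat_lit 3) (nat_lit 0) (.cons (.ev (nat_lit 79228162514264619072832471041) (nat_lit 1)) (.cons (.br (nat_lit 12) (nat_lit 0) (.cons (.ev (nat_lit 79229376162450716571652325376) (nat_lit 1)) .nil)) .nil))) (.cons (.br (nat_lit 13) (nat_lit 0) (.cons (.br (nat_lit 11) (nat_lit 0) (.cons (.zr (nat_lit 2417851711289051410595843) (nat_lit 79537647542532708215266738432) (nat_lit 5) (nat_lit 4)) .nil)) (.cons (.br (nat_lit 3) (nat_lit 0) (.cons (.zr (nat_lit 2417851711289051410595843) (nat_lit 79537647542532708215266738432) (nat_lit 5) (nat_lit 4)) .nil)) .nil))) (.cons (.ev (nat_lit 4740813509522138136576) (nat_lit 1)) .nil))))),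
 (.br (nat_lit 3) (nat_lit 0) (.cons (.rf (nat_lit 443) (nat_lit 493858305440582043680)) (.cons (.rf (nat_lit 444) (nat_lit 493858305440582043680)) (.cons (.br (nat_lit 4) (nat_lit 0) (.cons (.ev (nat_lit 79228162514264619072832471041) (nat_lit 1)) (.cons (.br (nat_lit 8) (nat_lit 0) (.cons (.zr (nat_lit 1213648330213786407403524) (nat_lit 79537647542532708215266803968) (nat_lit 5) (nat_lit 4)) .nil)) .nil))) (.cons (.br (nat_lit 4) (nat_lit 0) (.cons (.br (nat_lit 12) (nat_lit 0) (.cons (.ev (nat_lit 79229376162450716571652325376) (nat_lit 1)) .nil)) (.cons (.br (nat_lit 8) (nat_lit 0) (.cons (.ev (nat_lit 4740885566016664371201) (nat_lit 1)) .nil)) (.cons (.kr (nat_lit 4722366482869645213697) (nat_lit 20282409603651670423947251351552) (nat_lit 0) (nat_lit 1)) .nil)))) .nil))))),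
 (.br (nat_lit 3) (nat_lit 0) (.cons (.ev (nat_lit 79229376162522775265201881088) (nat_lit 1)) (.cons (.rf (nat_lit 444) (nat_lit 493858305440582043680)) (.cons (.rf (nat_lit 445) (nat_lit 493858305440582043680)) (.cons (.br (nat_lit 13) (nat_lit 0) (.cons (.kr (nat_lit 4722366482869645213697) (nat_lit 20282409603651670423947251351552) (nat_lit 0) (nat_lit 1)) (.cons (.br (nat_lit 4) (nat_lit 0) (.cons (.ev (nat_lit 20282409603670117450599744208896) (nat_lit 1)) .nil)) (.cons (.kr (nat_lit 14167171506202973569026) (nat_lit 40564820416229160463623189037056) (nat_lit 0) (nat_lit 1)) .nil)))) .nil))))),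
 (.br (nat_lit 3) (nat_lit 0) (.cons (.rf (nat_lit 443) (nat_lit 493858305440582043680)) (.cons (.rf (nat_lit 444) (nat_lit 493858305440582043680)) (.cons (.rf (nat_lit 445) (nat_lit 493858305440582043680)) (.cons (.rf (nat_lit 446) (nat_lit 493858305440582043680)) (.cons (.br (nat_lit 3) (nat_lit 0) (.cons (.rf (nat_lit 443) (nat_lit 493858305440582043680)) (.cons (.rf (nat_lit 444) (nat_lit 493858305440582043680)) (.cons (.rf (nat_lit 445) (nat_lit 493858305440582043680)) (.cons (.rf (nat_lit 446) (nat_lit 493858305440582043680)) .nil))))) .nil)))))),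
 (.br (nat_lit 3) (nat_lit 0) (.cons (.rf (nat_lit 443) (nat_lit 493858305440582043680)) (.cons (.rf (nat_lit 447) (nat_lit 493858305440582043680)) (.cons (.br (nat_lit 13) (nat_lit 0) (.cons (.br (nat_lit 6) (nat_lit 0) (.cons (.ev (nat_lit 20361638975091826716342807953408) (nat_lit 1)) .nil)) (.cons (.br (nat_lit 4) (nat_lit 0) (.cons (.ev (nat_lit 20361638975091826716342807953408) (nat_lit 1)) .nil)) .nil))) (.cons (.br (nat_lit 4) (nat_lit 0) (.cons (.br (nat_lit 12) (nat_lit 0) (.cons (.ev (nat_lit 20361638975091826716342807953408) (nat_lit 1)) .nil)) (.cons (.rf (nat_lit 383) (nat_lit 492741412732994160672)) (.cons (.kr (nat_lit 4722366482869645213697) (nat_lit 20282409603651670423947251351552) (nat_lit 0) (nat_lit 1)) .nil)))) .nil))))),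
 (.br (nat_lit 3) (nat_lit 0) (.cons (.rf (nat_lit 443) (nat_lit 493858305440582043680)) (.cons (.rf (nat_lit 447) (nat_lit 493858305440582043680)) (.cons (.rf (nat_lit 448) (nat_lit 493858305440582043680)) (.cons (.br (nat_lit 13) (nat_lit 0) (.cons (.kr (nat_lit 4722366482869645213697) (nat_lit 20282409603651670423947251351552) (nat_lit 0) (nat_lit 1)) (.cons (.kr (nat_lit 9444732965739290427649) (nat_lit 20282410812577490038576426123264) (nat_lit 0) (nat_lit 3)) (.cons (.kr (nat_lit 14167171506202973569026) (nat_lit 40564820416229160463623189037056) (nat_lit 0) (nat_lit 1)) .nil)))) .nil))))),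
 (.br (nat_lit 3) (nat_lit 0) (.cons (.rf (nat_lit 443) (nat_lit 493858305440582043680)) (.cons (.rf (nat_lit 447) (nat_lit 493858305440582043680)) (.cons (.rf (nat_lit 448) (nat_lit 493858305440582043680)) (.cons (.rf (nat_lit 449) (nat_lit 493858305440582043680)) (.cons (.br (nat_lit 3) (nat_lit 0) (.cons (.rf (nat_lit 443) (nat_lit 493858305440582043680)) (.cons (.rf (nat_lit 447) (nat_lit 493858305440582043680)) (.cons (.rf (nat_lit 448) (nat_lit 493858305440582043680)) (.cons (.rf (nat_lit 449) (nat_lit 493858305440582043680)) .nil))))) .nil)))))),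
 (.br (nat_lit 3) (nat_lit 0) (.cons (.rf (nat_lit 443) (nat_lit 493858305440582043680)) (.cons (.rf (nat_lit 447) (nat_lit 493858305440582043680)) (.cons (.rf (nat_lit 450) (nat_lit 493858305440582043680)) (.cons (.br (nat_lit 13) (nat_lit 0) (.cons (.kr (nat_lit 4722366482869645213697) (nat_lit 20282409603651670423947251351552) (nat_lit 0) (nat_lit 1)) (.cons (.kr (nat_lit 9444732965739290427649) (nat_lit 20282410812577490038576426123264) (nat_lit 0) (nat_lit 3)) (.cons (.br (nat_lit 4) (nat_lit 0) (.cons (.ev (nat_lit 4740885566016664371456) (nat_lit 1)) .nil)) .nil)))) .nil))))),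
 (.br (nat_lit 3) (nat_lit 0) (.cons (.rf (nat_lit 443) (nat_lit 493858305440582043680)) (.cons (.rf (nat_lit 447) (nat_lit 493858305440582043680)) (.cons (.rf (nat_lit 450) (nat_lit 493858305440582043680)) (.cons (.rf (nat_lit 451) (nat_lit 493858305440582043680)) (.cons (.br (nat_lit 3) (nat_lit 0) (.cons (.rf (nat_lit 443) (nat_lit 493858305440582043680)) (.cons (.rf (nat_lit 447) (nat_lit 493858305440582043680)) (.cons (.rf (nat_lit 450) (nat_lit 493858305440582043680)) (.cons (.rf (nat_lit 451) (nat_lit 493858305440582043680)) .nil))))) .nil)))))),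
 (.br (nat_lit 3) (nat_lit 0) (.cons (.rf (nat_lit 443) (nat_lit 493858305440582043680)) (.cons (.rf (nat_lit 447) (nat_lit 493858305440582043680)) (.cons (.rf (nat_lit 450) (nat_lit 493858305440582043680)) (.cons (.rf (nat_lit 452) (nat_lit 493858305440582043680)) (.cons (.br (nat_lit 3) (nat_lit 0) (.cons (.rf (nat_lit 443) (nat_lit 493858305440582043680)) (.cons (.rf (nat_lit 447) (nat_lit 493858305440582043680)) (.cons (.rf (nat_lit 450) (nat_lit 493858305440582043680)) (.cons (.rf (nat_lit 452) (nat_lit 493858305440582043680)) .nil))))) .nil)))))),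
 (.br (nat_lit 13) (nat_lit 0) (.cons (.ev (nat_lit 20361638975091826433768302838016) (nat_lit 1)) (.cons (.kr (nat_lit 4722366482869645213952) (nat_lit 20282409603651670423947251351552) (nat_lit 1) (nat_lit 0)) (.cons (.kr (nat_lit 4722366482869645213696) (nat_lit 20282409603651670423947251286016) (nat_lit 9) (nat_lit 0)) .nil)))),
 (.br (nat_lit 13) (nat_lit 0) (.cons (.br (nat_lit 13) (nat_lit 0) (.cons (.ev (nat_lit 20440865942847370606445414515201) (nat_lit 2)) (.cons (.ev (nat_lit 20361638975091826433768302838016) (nat_lit 1)) .nil))) (.cons (.rf (nat_lit 377) (nat_lit 493858305440582043680)) (.cons (.rf (nat_lit 454) (nat_lit 493858305440582043680)) .nil)))),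
 (.br (nat_lit 13) (nat_lit 0) (.cons (.ev (nat_lit 475370207660636509911061366278) (nat_lit 3)) (.cons (.rf (nat_lit 454) (nat_lit 493858305440582043680)) .nil))),
 (.br (nat_lit 11) (nat_lit 0) (.cons (.rf (nat_lit 456) (nat_lit 493858305440582043680)) (.cons (.br (nat_lit 11) (nat_lit 0) (.cons (.rf (nat_lit 456) (nat_lit 493858305440582043680)) (.cons (.rf (nat_lit 454) (nat_lit 493858305440582043680)) .nil))) (.cons (.rf (nat_lit 454) (nat_lit 493858305440582043680)) .nil)))),
 (.br (nat_lit 13) (nat_lit 0) (.cons (.ev (nat_lit 20440865942847370606445414318337) (nat_lit 2)) (.cons (.ev (nat_lit 20440865942847370606445414515201) (nat_lit 2)) (.cons (.ev (nat_lit 20361638975091826433768302838016) (nat_lit 1)) .nil)))),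
 (.br (nat_lit 13) (nat_lit 0) (.cons (.br (nat_lit 13) (nat_lit 0) (.cons (.ev (nat_lit 20440865942847514723832513495555) (nat_lit 2)) (.cons (.ev (nat_lit 20361638975091754377273776603393) (nat_lit 1)) .nil))) (.cons (.rf (nat_lit 53) (nat_lit 493858305440582011936)) (.cons (.br (nat_lit 13) (nat_lit 0) (.cons (.ev (nat_lit 20361638975091754377273776603393) (nat_lit 1)) (.cons (.zr (nat_lit 316912654853426983420284633606) (nat_lit 622596797103222883424272384) (nat_lit 10) (nat_lit 2)) .nil))) .nil)))),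
 (.br (nat_lit 3) (nat_lit 0) (.cons (.rf (nat_lit 459) (nat_lit 493858305440582043680)) (.cons (.br (nat_lit 6) (nat_lit 0) (.cons (.ev (nat_lit 20440865942847514723832513560835) (nat_lit 2)) .nil)) .nil))),
 (.br (nat_lit 3) (nat_lit 0) (.cons (.rf (nat_lit 459) (nat_lit 493858305440582043680)) (.cons (.rf (nat_lit 460) (nat_lit 493858305440582043680)) (.cons (.br (nat_lit 3) (nat_lit 0) (.cons (.rf (nat_lit 459) (nat_lit 493858305440582043680)) (.cons (.rf (nat_lit 460) (nat_lit 493858305440582043680)) .nil))) .nil)))),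
 (.br (nat_lit 3) (nat_lit 0) (.cons (.rf (nat_lit 459) (nat_lit 493858305440582043680)) (.cons (.rf (nat_lit 461) (nat_lit 493858305440582043680)) (.cons (.br (nat_lit 3) (nat_lit 0) (.cons (.rf (nat_lit 459) (nat_lit 493858305440582043680)) (.cons (.rf (nat_lit 461) (nat_lit 493858305440582043680)) .nil))) .nil)))),
 (.br (nat_lit 12) (nat_lit 0) (.cons (.ev (nat_lit 79229376162522775265201881088) (nat_lit 1)) (.cons (.br (nat_lit 3) (nat_lit 0) (.cons (.rf (nat_lit 439) (nat_lit 13164380469594260544)) (.cons (.ev (nat_lit 158457538787900769502086037510) (nat_lit 3)) .nil))) (.cons (.br (nat_lit 8) (nat_lit 0) (.cons (.br (nat_lit 11) (nat_lit 0) (.cons (.ev (nat_lit 20520094100657788106162479104770) (nat_lit 2)) .nil)) (.cons (.ev (nat_lit 4740813509522138136576) (nat_lit 1)) (.cons (.ev (nat_lit 121852915170142367483399721976322) (nat_lit 3)) .nil)))) (.cons (.ev (nat_lit 20361638975091754377273776603393) (nat_lit 1)) .nil))))),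
 (.br (nat_lit 3) (nat_lit 0) (.cons (.rf (nat_lit 390) (nat_lit 14246371276502434880)) (.cons (.br (nat_lit 8) (nat_lit 0) (.cons (.kr (nat_lit 4722438540463683141633) (nat_lit 20282409603651670705422244773888) (nat_lit 0) (nat_lit 1)) .nil)) (.cons (.rf (nat_lit 390) (nat_lit 14240741782336930880)) .nil)))),
 (.br (nat_lit 3) (nat_lit 0) (.cons (.ev (nat_lit 4740813509522138136576) (nat_lit 1)) (.cons (.rf (nat_lit 464) (nat_lit 493858305440582043680)) (.cons (.br (nat_lit 3) (nat_lit 0) (.cons (.ev (nat_lit 4740813509522138136576) (nat_lit 1)) (.cons (.rf (nat_lit 464) (nat_lit 493858305440582043680)) (.cons (.rf (nat_lit 463) (nat_lit 230986506996392494144)) .nil)))) (.cons (.rf (nat_lit 463) (nat_lit 230986506996392494144)) .nil))))),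
 (.br (nat_lit 3) (nat_lit 0) (.cons (.rf (nat_lit 439) (nat_lit 13129479700638435360)) (.cons (.ev (nat_lit 40564820421025820017012035159558) (nat_lit 3)) .nil))),
 (.br (nat_lit 6) (nat_lit 0) (.cons (.rf (nat_lit 463) (nat_lit 493858305440582043680)) (.cons (.ev (nat_lit 4740885566016664436993) (nat_lit 1)) (.cons (.rf (nat_lit 465) (nat_lit 493858305440582043680)) (.cons (.br (nat_lit 13) (nat_lit 0) (.cons (.rf (nat_lit 463) (nat_lit 230986506996392494144)) (.cons (.ev (nat_lit 4740885566016664371201) (nat_lit 1)) (.cons (.rf (nat_lit 465) (nat_lit 230986506996392494144)) .nil)))) (.cons (.br (nat_lit 8) (nat_lit 0) (.cons (.rf (nat_lit 466) (nat_lit 493858305440582043680)) (.cons (.br (nat_lit 12) (nat_lit 0) (.cons (.rf (nat_lit 466) (nat_lit 230986506996392494144)) (.cons (.ev (nat_lit 41040189405519101409375107154948) (nat_lit 3)) .nil))) (.cons (.ev (nat_lit 4740885566016664371201) (nat_lit 1)) .nil)))) .nil))))))]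

theorem c17 : chkAll C T R L17 (nat_lit 439) = true := by decide +kernel

theorem l17 : (nat_lit 439) + L17.length = (nat_lit 468) := by decide +kernel

/-- part of the certificates -/
def L18 : List Prf := [(.br (nat_lit 4) (nat_lit 0) (.cons (.rf (nat_lit 467) (nat_lit 493858305440582043680)) (.cons (.ev (nat_lit 4740813509522138136576) (nat_lit 1)) (.cons (.br (nat_lit 3) (nat_lit 0) (.cons (.ev (nat_lit 475370207660492957672972353540) (nat_lit 3)) (.cons (.ev (nat_lit 20282410817318375324217642057985) (nat_lit 1)) .nil))) (.cons (.br (nat_lit 3) (nat_lit 0) (.cons (.ev (nat_lit 121694458854521822400992681918980) (nat_lit 3)) (.cons (.ev (nat_lit 79228162514264619072832471041) (nat_lit 1)) .nil))) .nil))))),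
 (.br (nat_lit 7) (nat_lit 0) (.cons (.ev (nat_lit 79228162514336395191893623041) (nat_lit 1)) .nil)),
 (.br (nat_lit 3) (nat_lit 0) (.cons (.rf (nat_lit 467) (nat_lit 493858305440582043680)) (.cons (.rf (nat_lit 468) (nat_lit 493858305440582043680)) (.cons (.br (nat_lit 4) (nat_lit 0) (.cons (.br (nat_lit 11) (nat_lit 0) (.cons (.ev (nat_lit 121694458854521966522777827803648) (nat_lit 3)) .nil)) (.cons (.rf (nat_lit 469) (nat_lit 15433072043909810208)) (.cons (.br (nat_lit 8) (nat_lit 0) (.cons (.ev (nat_lit 475370207660348844683920015360) (nat_lit 3)) .nil)) .nil)))) (.cons (.br (nat_lit 4) (nat_lit 0) (.cons (.ev (nat_lit 202824097306981511170825133098506) (nat_lit 4)) (.cons (.br (nat_lit 8) (nat_lit 0) (.cons (.ev (nat_lit 202824097306980934718868922697226) (nat_lit 4)) .nil)) (.cons (.ev (nat_lit 203457922569169120064822605383170) (nat_lit 4)) .nil)))) .nil))))),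
 (.br (nat_lit 3) (nat_lit 0) (.cons (.rf (nat_lit 467) (nat_lit 493858305440582043680)) (.cons (.rf (nat_lit 468) (nat_lit 493858305440582043680)) (.cons (.rf (nat_lit 470) (nat_lit 493858305440582043680)) (.cons (.br (nat_lit 3) (nat_lit 0) (.cons (.ev (nat_lit 79229376162522775265201881088) (nat_lit 1)) (.cons (.rf (nat_lit 468) (nat_lit 493858305440582043680)) (.cons (.rf (nat_lit 470) (nat_lit 493858305440582043680)) (.cons (.rf (nat_lit 468) (nat_lit 230986506996392494144)) .nil))))) (.cons (.br (nat_lit 3) (nat_lit 0) (.cons (.rf (nat_lit 467) (nat_lit 493858305440582043680)) (.cons (.rf (nat_lit 468) (nat_lit 493858305440582043680)) (.cons (.rf (nat_lit 470) (nat_lit 493858305440582043680)) (.cons (.rf (nat_lit 468) (nat_lit 230986506996392494144)) .nil))))) .nil)))))),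
 (.br (nat_lit 3) (nat_lit 0) (.cons (.rf (nat_lit 467) (nat_lit 493858305440582043680)) (.cons (.rf (nat_lit 471) (nat_lit 493858305440582043680)) (.cons (.br (nat_lit 4) (nat_lit 0) (.cons (.ev (nat_lit 792282895496771531695661908490) (nat_lit 4)) (.cons (.br (nat_lit 6) (nat_lit 0) (.cons (.ev (nat_lit 792282895496195079739452033546) (nat_lit 4)) .nil)) (.cons (.ev (nat_lit 163051559686931200817312656132610) (nat_lit 4)) .nil)))) (.cons (.rf (nat_lit 471) (nat_lit 230986506996392494144)) .nil))))),
 (.br (nat_lit 3) (nat_lit 0) (.cons (.rf (nat_lit 467) (nat_lit 493858305440582043680)) (.cons (.rf (nat_lit 471) (nat_lit 493858305440582043680)) (.cons (.rf (nat_lit 472) (nat_lit 493858305440582043680)) (.cons (.br (nat_lit 3) (nat_lit 0) (.cons (.rf (nat_lit 467) (nat_lit 493858305440582043680)) (.cons (.rf (nat_lit 471) (nat_lit 493858305440582043680)) (.cons (.rf (nat_lit 472) (nat_lit 493858305440582043680)) (.cons (.rf (nat_lit 471) (nat_lit 230986506996392494144)) .nil))))) (.cons (.rf (nat_lit 471)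 (nat_lit 230986506996392494144)) .nil)))))),
 (.br (nat_lit 2) (nat_lit 0) (.cons (.rf (nat_lit 171) (nat_lit 493858305440582042688)) (.cons (.rf (nat_lit 241) (nat_lit 493858305440582042688)) (.cons (.kr (nat_lit 4722366483969156841984) (nat_lit 1208925891672223212765184) (nat_lit 1) (nat_lit 0)) (.cons (.br (nat_lit 3) (nat_lit 0) (.cons (.rf (nat_lit 443) (nat_lit 493858305440582043680)) (.cons (.rf (nat_lit 447) (nat_lit 493858305440582043680)) (.cons (.rf (nat_lit 450) (nat_lit 493858305440582043680)) (.cons (.rf (nat_lit 452) (nat_lit 493858305440582043680)) (.cons (.rf (nat_lit 453) (nat_lit 493858305440582043680)) (.cons (.br (nat_lit 3) (nat_lit 0) (.cons (.rf (nat_lit 443) (nat_lit 493858305440582043680)) (.cons (.rf (nat_lit 447) (nat_lit 493858305440582043680)) (.cons (.rf (nat_lit 450) (nat_lit 493858305440582043680)) (.cons (.rf (nat_lit 452) (nat_lit 493858305440582043680)) (.cons (.rf (nat_lit 453) (nat_lit 493858305440582043680)) .nil)))))) .nil))))))) (.cons (.br (nat_lit 4) (nat_lit 0)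 (.cons (.br (nat_lit 3) (nat_lit 0) (.cons (.rf (nat_lit 455) (nat_lit 493858305440582043680)) (.cons (.rf (nat_lit 457) (nat_lit 493858305440582043680)) (.cons (.br (nat_lit 3) (nat_lit 0) (.cons (.rf (nat_lit 455) (nat_lit 493858305440582043680)) (.cons (.rf (nat_lit 457) (nat_lit 493858305440582043680)) (.cons (.rf (nat_lit 458) (nat_lit 493858305440582043680)) .nil)))) (.cons (.rf (nat_lit 458) (nat_lit 493858305440582043680)) .nil))))) (.cons (.ev (nat_lit 79229376162522492690696830976) (nat_lit 1)) (.cons (.ev (nat_lit 79229376162522492690696765696) (nat_lit 1)) (.cons (.br (nat_lit 3) (nat_lit 0) (.cons (.rf (nat_lit 459) (nat_lit 493858305440582043680)) (.cons (.rf (nat_lit 461) (nat_lit 493858305440582043680)) (.cons (.rf (nat_lit 462) (nat_lit 493858305440582043680)) (.cons (.br (nat_lit 3) (nat_lit 0) (.cons (.rf (nat_lit 459) (nat_lit 493858305440582043680)) (.cons (.rf (nat_lit 461) (nat_lit 493858305440582043680)) (.cons (.rf (nat_lit 462) (nat_lit 493858305440582043680)) .nil)))) .nil)))))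 (.cons (.br (nat_lit 6) (nat_lit 0) (.cons (.rf (nat_lit 54) (nat_lit 493858305440582011936)) (.cons (.br (nat_lit 13) (nat_lit 0) (.cons (.ev (nat_lit 20282410817318375604593090429185) (nat_lit 1)) (.cons (.ev (nat_lit 20282409603670189507094270443776) (nat_lit 1)) .nil))) (.cons (.br (nat_lit 13) (nat_lit 0) (.cons (.rf (nat_lit 92) (nat_lit 493858305440582043680)) (.cons (.kr (nat_lit 1213648186098598331547648) (nat_lit 40564819207303412905488540499968) (nat_lit 5) (nat_lit 0)) (.cons (.rf (nat_lit 299) (nat_lit 294029371738144)) .nil)))) (.cons (.kr (nat_lit 1213648186098598331548160) (nat_lit 40564819207303412905488540631040) (nat_lit 1) (nat_lit 0)) .nil))))) .nil)))))) (.cons (.br (nat_lit 3) (nat_lit 0) (.cons (.rf (nat_lit 467) (nat_lit 493858305440582043680)) (.cons (.rf (nat_lit 471) (nat_lit 493858305440582043680)) (.cons (.rf (nat_lit 473) (nat_lit 493858305440582043680)) (.cons (.br (nat_lit 3) (nat_lit 0) (.cons (.rf (nat_lit 467) (nat_lit 493858305440582043680)) (.cons (.rf (nat_lit 471)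 (nat_lit 493858305440582043680)) (.cons (.rf (nat_lit 473) (nat_lit 493858305440582043680)) (.cons (.rf (nat_lit 473) (nat_lit 230986506996392494144)) (.cons (.rf (nat_lit 471) (nat_lit 230986506996392494144)) .nil)))))) (.cons (.rf (nat_lit 473) (nat_lit 230986506996392494144)) (.cons (.rf (nat_lit 471) (nat_lit 230986506996392494144)) .nil))))))) .nil))))))),
 (.br (nat_lit 8) (nat_lit 0) (.cons (.ev (nat_lit 79228162514264338697350545664) (nat_lit 1)) (.cons (.kr (nat_lit 1099511627776) (nat_lit 281474976710656) (nat_lit 5) (nat_lit 0)) (.cons (.ev (nat_lit 20361638975091754377273776537601) (nat_lit 1)) .nil)))),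
 (.br (nat_lit 3) (nat_lit 0) (.cons (.ev (nat_lit 79228162514336395191876911361) (nat_lit 1)) (.cons (.kr (nat_lit 72057594037927937) (nat_lit 281474976776192) (nat_lit 0) (nat_lit 1)) (.cons (.rf (nat_lit 475) (nat_lit 493858305440582043680)) .nil)))),
 (.br (nat_lit 3) (nat_lit 0) (.cons (.rf (nat_lit 475) (nat_lit 493858305440582043680)) .nil)),
 (.br (nat_lit 8) (nat_lit 0) (.cons (.ev (nat_lit 79228162514264338697350545664) (nat_lit 1)) (.cons (.rf (nat_lit 475) (nat_lit 493858305440582043680)) (.cons (.kr (nat_lit 1099511627776) (nat_lit 281474976710656) (nat_lit 5) (nat_lit 0)) (.cons (.ev (nat_lit 20361638975091754377273776537601) (nat_lit 1)) .nil))))),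
 (.br (nat_lit 3) (nat_lit 0) (.cons (.br (nat_lit 8) (nat_lit 0) (.cons (.ev (nat_lit 20361638975091754377273776603393) (nat_lit 1)) .nil)) .nil)),
 (.br (nat_lit 3) (nat_lit 0) (.cons (.rf (nat_lit 479) (nat_lit 493858305440582043680)) (.cons (.br (nat_lit 8) (nat_lit 0) (.cons (.rf (nat_lit 479) (nat_lit 493858305440582043680)) (.cons (.ev (nat_lit 20361638975091754377273776603393) (nat_lit 1)) .nil))) .nil))),
 (.br (nat_lit 3) (nat_lit 0) (.cons (.rf (nat_lit 480) (nat_lit 493858305440582043680)) (.cons (.br (nat_lit 3) (nat_lit 0) (.cons (.rf (nat_lit 480) (nat_lit 493858305440582043680)) .nil)) .nil))),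
 (.br (nat_lit 3) (nat_lit 0) (.cons (.rf (nat_lit 480) (nat_lit 493858305440582043680)) (.cons (.rf (nat_lit 481) (nat_lit 493858305440582043680)) (.cons (.br (nat_lit 3) (nat_lit 0) (.cons (.rf (nat_lit 480) (nat_lit 493858305440582043680)) (.cons (.rf (nat_lit 481) (nat_lit 493858305440582043680)) .nil))) .nil)))),
 (.br (nat_lit 3) (nat_lit 0) (.cons (.br (nat_lit 3) (nat_lit 0) .nil) .nil)),
 (.br (nat_lit 3) (nat_lit 0) (.cons (.br (nat_lit 3) (nat_lit 0) (.cons (.rf (nat_lit 483) (nat_lit 289387552278560)) .nil)) (.cons (.rf (nat_lit 483) (nat_lit 289387552278560)) .nil))),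
 (.br (nat_lit 2) (nat_lit 0) (.cons (.kr (nat_lit 4722438540463683141634) (nat_lit 1208925819615728686465024) (nat_lit 0) (nat_lit 1)) (.cons (.rf (nat_lit 241) (nat_lit 493858305440582042688)) (.cons (.rf (nat_lit 427) (nat_lit 493858305440582042688)) (.cons (.rf (nat_lit 474) (nat_lit 493858305440582043680)) (.cons (.br (nat_lit 4) (nat_lit 0) (.cons (.ev (nat_lit 79228162514336395191876911361) (nat_lit 1)) (.cons (.br (nat_lit 3) (nat_lit 0) (.cons (.br (nat_lit 3) (nat_lit 0) (.cons (.rf (nat_lit 476) (nat_lit 493858305440582043680)) (.cons (.rf (nat_lit 477) (nat_lit 493858305440582043680)) .nil))) (.cons (.br (nat_lit 3) (nat_lit 0) (.cons (.rf (nat_lit 476) (nat_lit 493858305440582043680)) (.cons (.rf (nat_lit 478) (nat_lit 493858305440582043680)) .nil))) (.cons (.br (nat_lit 3) (nat_lit 0) (.cons (.rf (nat_lit 477) (nat_lit 493858305440582043680)) (.cons (.rf (nat_lit 478) (nat_lit 493858305440582043680)) .nil))) .nil)))) (.cons (.ev (nat_lit 79228162514264338697350545664) (nat_lit 1)) (.cons (.rf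 (nat_lit 482) (nat_lit 493858305440582043680)) (.cons (.br (nat_lit 13) (nat_lit 0) (.cons (.kr (nat_lit 1213648258155092857847810) (nat_lit 40564819207303340848994014330880) (nat_lit 0) (nat_lit 1)) (.cons (.rf (nat_lit 484) (nat_lit 14717984802848)) (.cons (.kr (nat_lit 1213648186098598331547648) (nat_lit 40564819207303412905488540499968) (nat_lit 5) (nat_lit 0)) (.cons (.rf (nat_lit 484) (nat_lit 14712783864896)) .nil))))) .nil)))))) (.cons (.rf (nat_lit 427) (nat_lit 230986506996392494144)) .nil))))))),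
 (.br (nat_lit 2) (nat_lit 0) (.cons (.rf (nat_lit 171) (nat_lit 493858305440582042688)) (.cons (.rf (nat_lit 241) (nat_lit 493858305440582042688)) (.cons (.rf (nat_lit 437) (nat_lit 493858305440582043680)) (.cons (.rf (nat_lit 474) (nat_lit 493858305440582043680)) (.cons (.rf (nat_lit 485) (nat_lit 493858305440582043680)) (.cons (.br (nat_lit 2) (nat_lit 0) (.cons (.rf (nat_lit 171) (nat_lit 493858305440582042688)) (.cons (.rf (nat_lit 241) (nat_lit 493858305440582042688)) (.cons (.kr (nat_lit 256) (nat_lit 65536) (nat_lit 1) (nat_lit 0)) (.cons (.rf (nat_lit 474) (nat_lit 493858305440582043680)) (.cons (.rf (nat_lit 485) (nat_lit 493858305440582043680)) (.cons (.rf (nat_lit 342) (nat_lit 230986506996392494144)) .nil))))))) (.cons (.br (nat_lit 2) (nat_lit 0) (.cons (.rf (nat_lit 171) (nat_lit 493858305440582042688)) (.cons (.rf (nat_lit 241) (nat_lit 493858305440582042688)) (.cons (.rf (nat_lit 437) (nat_lit 493858305440582043680)) (.cons (.rf (nat_lit 474) (nat_lit 493858305440582043680)) (.cons (.rf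 (nat_lit 427) (nat_lit 230986506996392494144)) (.cons (.rf (nat_lit 342) (nat_lit 230986506996392494144)) .nil))))))) .nil)))))))),
 (.br (nat_lit 2) (nat_lit 0) (.cons (.rf (nat_lit 171) (nat_lit 493858305440582042688)) (.cons (.rf (nat_lit 241) (nat_lit 493858305440582042688)) (.cons (.rf (nat_lit 342) (nat_lit 493858305440582042688)) (.cons (.rf (nat_lit 427) (nat_lit 493858305440582042688)) (.cons (.rf (nat_lit 486) (nat_lit 493858305440582042688)) (.cons (.kr (nat_lit 256) (nat_lit 65536) (nat_lit 1) (nat_lit 0)) .nil))))))),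
 (.br (nat_lit 11) (nat_lit 0) (.cons (.br (nat_lit 11) (nat_lit 0) (.cons (.ev (nat_lit 309485009821346172548153601) (nat_lit 1)) .nil)) (.cons (.br (nat_lit 3) (nat_lit 0) (.cons (.ev (nat_lit 309485009821346172548153601) (nat_lit 1)) .nil)) .nil))),
 (.br (nat_lit 8) (nat_lit 0) (.cons (.br (nat_lit 6) (nat_lit 0) (.cons (.br (nat_lit 12) (nat_lit 0) (.cons (.br (nat_lit 12) (nat_lit 0) (.cons (.zr (nat_lit 9444877083126389538821) (nat_lit 79537647542532989690243580160) (nat_lit 5) (nat_lit 4)) .nil)) (.cons (.kr (nat_lit 40564819212025779389457697341442) (nat_lit 3626777459406837477670912) (nat_lit 0) (nat_lit 1)) .nil))) (.cons (.rf (nat_lit 488) (nat_lit 15433070910038444064)) (.cons (.br (nat_lit 13) (nat_lit 0) (.cons (.kr (nat_lit 14167100011558889062402) (nat_lit 40564820416229232521217226964992) (nat_lit 0) (nat_lit 1)) (.cons (.br (nat_lit 3) (nat_lit 0) (.cons (.ev (nat_lit 20361638975091754657649258463233) (nat_lit 1)) .nil)) (.cons (.kr (nat_lit 40564819207303412906588052127744) (nat_lit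 1213648186660448773341184) (nat_lit 5) (nat_lit 0)) .nil)))) (.cons (.ev (nat_lit 4740813509522138136576) (nat_lit 1)) .nil))))) (.cons (.br (nat_lit 13) (nat_lit 0) (.cons (.kr (nat_lit 4722366764344621924353) (nat_lit 20282409603651670425046762979328) (nat_lit 0) (nat_lit 1)) (.cons (.ev (nat_lit 20282410817318375324217625346305) (nat_lit 1)) (.cons (.kr (nat_lit 20282409603651670425046762913792) (nat_lit 1208925819896104151416832) (nat_lit 5) (nat_lit 0)) .nil)))) (.cons (.br (nat_lit 6) (nat_lit 0) (.cons (.br (nat_lit 13) (nat_lit 0) (.cons (.kr (nat_lit 40564819207303412906588052127744) (nat_lit 1213648186660448773341184) (nat_lit 5) (nat_lit 0)) (.cons (.kr (nat_lit 40564819212025779389457697341442) (nat_lit 3626777459406837477670912) (nat_lit 0) (nat_lit 1)) .nil))) (.cons (.br (nat_lit 13) (nat_lit 0) (.cons (.kr (nat_lit 14167100011558889062402) (nat_lit 40564820416229232521217226964992) (nat_lit 0) (nat_lit 1)) (.cons (.kr (nat_lit 40564819207303412906588052127744) (nat_lit 1213648186660448773341184)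 (nat_lit 5) (nat_lit 0)) .nil))) (.cons (.ev (nat_lit 20282410817318375324217625346305) (nat_lit 1)) .nil)))) (.cons (.br (nat_lit 6) (nat_lit 0) (.cons (.br (nat_lit 13) (nat_lit 0) (.cons (.kr (nat_lit 40564819207303412906588052127744) (nat_lit 1213648186660448773341184) (nat_lit 5) (nat_lit 0)) (.cons (.br (nat_lit 3) (nat_lit 0) (.cons (.ev (nat_lit 20361638975091826716342807953408) (nat_lit 1)) .nil)) (.cons (.kr (nat_lit 40564819212025779389457697341442) (nat_lit 3626777459406837477670912) (nat_lit 0) (nat_lit 1)) .nil)))) (.cons (.br (nat_lit 3) (nat_lit 0) (.cons (.br (nat_lit 3) (nat_lit 0) (.cons (.ev (nat_lit 79229376162522492690713542913) (nat_lit 1)) .nil)) (.cons (.br (nat_lit 3) (nat_lit 0) (.cons (.ev (nat_lit 79229376162522492690713542913) (nat_lit 1)) .nil)) .nil))) (.cons (.br (nat_lit 3) (nat_lit 0) (.cons (.br (nat_lit 3) (nat_lit 0) (.cons (.zr (nat_lit 2417851783346645448523779) (nat_lit 79537647542532989690243449088) (nat_lit 5) (nat_lit 4)) .nil)) (.cons (.kr (nat_lit 14167100011558889062402)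 (nat_lit 40564820416229232521217226964992) (nat_lit 0) (nat_lit 1)) .nil))) (.cons (.ev (nat_lit 4740885566016664371201) (nat_lit 1)) .nil))))) (.cons (.ev (nat_lit 20282410817318375324217625280513) (nat_lit 1)) .nil)))))),
 (.br (nat_lit 3) (nat_lit 0) (.cons (.rf (nat_lit 489) (nat_lit 493858305440582043680)) (.cons (.br (nat_lit 4) (nat_lit 0) (.cons (.ev (nat_lit 20361638975091754657649258463233) (nat_lit 1)) .nil)) .nil))),
 (.br (nat_lit 13) (nat_lit 0) (.cons (.kr (nat_lit 40564819207303412906588052127744) (nat_lit 1213648186660448773341184) (nat_lit 5) (nat_lit 0)) (.cons (.br (nat_lit 8) (nat_lit 0) (.cons (.ev (nat_lit 4740813509522138136576) (nat_lit 1)) (.cons (.ev (nat_lit 20282409603670117168025255870464) (nat_lit 1)) (.cons (.ev (nat_lit 4740885566016664371201) (nat_lit 1)) .nil)))) (.cons (.kr (nat_lit 20282409603651742481541289213953) (nat_lit 1208925819896104151482368) (nat_lit 0) (nat_lit 1)) (.cons (.br (nat_lit 3) (nat_lit 0) (.cons (.rf (nat_lit 489) (nat_lit 493858305440582043680))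 (.cons (.rf (nat_lit 490) (nat_lit 493858305440582043680)) (.cons (.br (nat_lit 3) (nat_lit 0) (.cons (.rf (nat_lit 489) (nat_lit 493858305440582043680)) (.cons (.rf (nat_lit 490) (nat_lit 493858305440582043680)) .nil))) .nil)))) (.cons (.kr (nat_lit 40564819212025779389457697341442) (nat_lit 3626777459406837477670912) (nat_lit 0) (nat_lit 1)) .nil))))))]

theorem c18 : chkAll C T R L18 (nat_lit 468) = true := by decide +kernel

theorem l18 : (nat_lit 468) + L18.length = (nat_lit 492) := by decide +kernel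

/-- part of the certificates -/
def L19 : List Prf := [(.br (nat_lit 3) (nat_lit 0) (.cons (.rf (nat_lit 489) (nat_lit 493858305440582043680)) (.cons (.rf (nat_lit 491) (nat_lit 493858305440582043680)) (.cons (.br (nat_lit 4) (nat_lit 0) (.cons (.ev (nat_lit 4740813509522138136833) (nat_lit 1)) (.cons (.zr (nat_lit 79228171977516105000598634499) (nat_lit 311902861460575430880985088) (nat_lit 5) (nat_lit 3)) (.cons (.br (nat_lit 6) (nat_lit 0) (.cons (.ev (nat_lit 4740885566016664371201) (nat_lit 1)) .nil)) .nil)))) (.cons (.br (nat_lit 6) (nat_lit 0) (.cons (.ev (nat_lit 4740813509522138136833) (nat_lit 1)) (.cons (.kr (nat_lit 14167100011558889062402) (nat_lit 40564820416229232521217226964992) (nat_lit 0) (nat_lit 1)) .nil))) .nil))))),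
 (.br (nat_lit 3) (nat_lit 0) (.cons (.rf (nat_lit 489) (nat_lit 493858305440582043680)) (.cons (.rf (nat_lit 491) (nat_lit 493858305440582043680)) (.cons (.rf (nat_lit 492) (nat_lit 493858305440582043680)) (.cons (.br (nat_lit 4) (nat_lit 0) (.cons (.ev (nat_lit 4740813509522138136833) (nat_lit 1)) (.cons (.br (nat_lit 6) (nat_lit 0) (.cons (.zr (nat_lit 2417851783346645448523779) (nat_lit 79537647542532989690243449088) (nat_lit 5) (nat_lit 4)) .nil)) (.cons (.ev (nat_lit 79229376162450436196187308288) (nat_lit 1)) .nil)))) .nil))))),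
 (.br (nat_lit 3) (nat_lit 0) (.cons (.rf (nat_lit 489) (nat_lit 493858305440582043680)) (.cons (.rf (nat_lit 491) (nat_lit 493858305440582043680)) (.cons (.rf (nat_lit 492) (nat_lit 493858305440582043680)) (.cons (.rf (nat_lit 493) (nat_lit 493858305440582043680)) (.cons (.br (nat_lit 3) (nat_lit 0) (.cons (.rf (nat_lit 489) (nat_lit 493858305440582043680)) (.cons (.kr (nat_lit 40564819207303412906588052127744) (nat_lit 1213648186660448773341184) (nat_lit 5) (nat_lit 0)) (.cons (.rf (nat_lit 492) (nat_lit 493858305440582043680)) (.cons (.rf (nat_lit 493) (nat_lit 493858305440582043680)) .nil))))) .nil)))))),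
 (.br (nat_lit 6) (nat_lit 0) (.cons (.kr (nat_lit 40564819207303412906588052127744) (nat_lit 1213648186660448773341184) (nat_lit 5) (nat_lit 0)) (.cons (.br (nat_lit 8) (nat_lit 0) (.cons (.ev (nat_lit 4740813509522138136833) (nat_lit 1)) (.cons (.ev (nat_lit 4740885566016664371456) (nat_lit 1)) .nil))) (.cons (.kr (nat_lit 4722366764344621924353) (nat_lit 20282409603651670425046762979328) (nat_lit 0) (nat_lit 1)) (.cons (.kr (nat_lit 14167100011558889062402) (nat_lit 40564820416229232521217226964992) (nat_lit 0) (nat_lit 1)) .nil))))),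
 (.br (nat_lit 3) (nat_lit 0) (.cons (.rf (nat_lit 489) (nat_lit 493858305440582043680)) (.cons (.rf (nat_lit 491) (nat_lit 493858305440582043680)) (.cons (.rf (nat_lit 494) (nat_lit 493858305440582043680)) (.cons (.br (nat_lit 3) (nat_lit 0) (.cons (.rf (nat_lit 489) (nat_lit 493858305440582043680)) (.cons (.rf (nat_lit 491) (nat_lit 493858305440582043680)) (.cons (.rf (nat_lit 494) (nat_lit 493858305440582043680)) (.cons (.rf (nat_lit 495) (nat_lit 493858305440582043680)) .nil))))) (.cons (.rf (nat_lit 495) (nat_lit 493858305440582043680)) .nil)))))),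
 (.br (nat_lit 3) (nat_lit 0) (.cons (.rf (nat_lit 489) (nat_lit 493858305440582043680)) (.cons (.rf (nat_lit 491) (nat_lit 493858305440582043680)) (.cons (.rf (nat_lit 494) (nat_lit 493858305440582043680)) (.cons (.rf (nat_lit 496) (nat_lit 493858305440582043680)) (.cons (.br (nat_lit 3) (nat_lit 0) (.cons (.rf (nat_lit 489) (nat_lit 493858305440582043680)) (.cons (.kr (nat_lit 40564819207303412906588052127744) (nat_lit 1213648186660448773341184) (nat_lit 5) (nat_lit 0)) (.cons (.rf (nat_lit 494) (nat_lit 493858305440582043680)) (.cons (.rf (nat_lit 496) (nat_lit 493858305440582043680)) .nil))))) .nil)))))),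
 (.br (nat_lit 13) (nat_lit 0) (.cons (.kr (nat_lit 40564819207303412906588052127744) (nat_lit 1213648186660448773341184) (nat_lit 5) (nat_lit 0)) (.cons (.ev (nat_lit 20282410817318375324217625280513) (nat_lit 1)) (.cons (.br (nat_lit 3) (nat_lit 0) (.cons (.br (nat_lit 11) (nat_lit 0) (.cons (.ev (nat_lit 20520094100657788106162512789760) (nat_lit 2)) .nil)) (.cons (.br (nat_lit 8) (nat_lit 0) (.cons (.ev (nat_lit 122169827839015392019333859246598) (nat_lit 3)) .nil)) (.cons (.br (nat_lit 8) (nat_lit 0) (.cons (.ev (nat_lit 20361637766221275838195477578496) (nat_lit 2)) .nil)) .nil)))) (.cons (.ev (nat_lit 20361637770888373302008773411073) (nat_lit 1)) .nil))))),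
 (.br (nat_lit 3) (nat_lit 0) (.cons (.br (nat_lit 11) (nat_lit 0) (.cons (.ev (nat_lit 122169827839015392019333859377158) (nat_lit 3)) .nil)) (.cons (.ev (nat_lit 121852915170142511605184934970368) (nat_lit 3)) .nil))),
 (.br (nat_lit 6) (nat_lit 0) (.cons (.rf (nat_lit 498) (nat_lit 493858305440582043680)) (.cons (.ev (nat_lit 4740885566016664436993) (nat_lit 1)) (.cons (.br (nat_lit 13) (nat_lit 0) (.cons (.rf (nat_lit 498) (nat_lit 230986506996392495136)) (.cons (.ev (nat_lit 20282410817318375324217625280513) (nat_lit 1)) (.cons (.kr (nat_lit 40564819207303412906588052127744) (nat_lit 1213648186660448773341184) (nat_lit 5) (nat_lit 0)) (.cons (.ev (nat_lit 20361637770888373302008773411073) (nat_lit 1)) .nil))))) (.cons (.ev (nat_lit 79228162514264619072815628289) (nat_lit 1)) (.cons (.br (nat_lit 8) (nat_lit 0) (.cons (.rf (nat_lit 499) (nat_lit 493858305440582043680)) (.cons (.br (nat_lit 3) (nat_lit 0) (.cons (.br (nat_lit 3) (nat_lit 0) (.cons (.ev (nat_lit 121852915170142367483399789478918) (nat_lit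 3)) .nil)) (.cons (.rf (nat_lit 499) (nat_lit 230986506996392495136)) .nil))) (.cons (.ev (nat_lit 4740885566016664371201) (nat_lit 1)) .nil)))) .nil)))))),
 (.br (nat_lit 3) (nat_lit 0) (.cons (.rf (nat_lit 500) (nat_lit 493858305440582043680)) (.cons (.br (nat_lit 4) (nat_lit 0) (.cons (.rf (nat_lit 386) (nat_lit 415273803748393191456)) (.cons (.ev (nat_lit 79231798791796382748645655299) (nat_lit 2)) (.cons (.ev (nat_lit 20282409608411146849229996097537) (nat_lit 2)) .nil)))) (.cons (.br (nat_lit 4) (nat_lit 0) (.cons (.br (nat_lit 11) (nat_lit 0) (.cons (.ev (nat_lit 20520094100657860167055085404419) (nat_lit 2)) .nil)) (.cons (.ev (nat_lit 20282409608411146849229996097537) (nat_lit 2)) .nil))) (.cons (.kr (nat_lit 40564819207303412906588052127744) (nat_lit 1213648186660448773341184) (nat_lit 5) (nat_lit 0)) .nil))))),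
 (.br (nat_lit 3) (nat_lit 0) (.cons (.rf (nat_lit 500) (nat_lit 493858305440582043680)) (.cons (.rf (nat_lit 501) (nat_lit 493858305440582043680)) (.cons (.br (nat_lit 4) (nat_lit 0) (.cons (.ev (nat_lit 79228167292043112486002492161) (nat_lit 2)) (.cons (.br (nat_lit 8) (nat_lit 0) (.cons (.ev (nat_lit 20282409603670189226718805426176) (nat_lit 1)) .nil)) (.cons (.ev (nat_lit 20440869555457658225604941775361) (nat_lit 2)) .nil)))) (.cons (.kr (nat_lit 40564819207303412906588052127744) (nat_lit 1213648186660448773341184) (nat_lit 5) (nat_lit 0)) .nil))))),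
 (.br (nat_lit 3) (nat_lit 0) (.cons (.rf (nat_lit 500) (nat_lit 493858305440582043680)) (.cons (.rf (nat_lit 501) (nat_lit 493858305440582043680)) (.cons (.rf (nat_lit 502) (nat_lit 493858305440582043680)) (.cons (.br (nat_lit 3) (nat_lit 0) (.cons (.rf (nat_lit 500) (nat_lit 493858305440582043680)) (.cons (.rf (nat_lit 501) (nat_lit 493858305440582043680)) (.cons (.rf (nat_lit 502) (nat_lit 493858305440582043680)) (.cons (.kr (nat_lit 40564819207303412906588052127744) (nat_lit 1213648186660448773341184) (nat_lit 5) (nat_lit 0)) .nil))))) (.cons (.kr (nat_lit 40564819207303412906588052127744) (nat_lit 1213648186660448773341184) (nat_lit 5) (nat_lit 0)) .nil)))))),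
 (.br (nat_lit 3) (nat_lit 0) (.cons (.rf (nat_lit 500) (nat_lit 493858305440582043680)) (.cons (.rf (nat_lit 503) (nat_lit 493858305440582043680)) (.cons (.br (nat_lit 4) (nat_lit 0) (.cons (.ev (nat_lit 792282895497205009756765422080) (nat_lit 4)) (.cons (.br (nat_lit 6) (nat_lit 0) (.cons (.ev (nat_lit 122169827839014959680366701707268) (nat_lit 3)) .nil)) (.cons (.ev (nat_lit 81605008660267610436808126891520) (nat_lit 4)) .nil)))) (.cons (.rf (nat_lit 503) (nat_lit 230986506996392495136)) .nil))))),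
 (.br (nat_lit 3) (nat_lit 0) (.cons (.rf (nat_lit 500) (nat_lit 493858305440582043680)) (.cons (.rf (nat_lit 503) (nat_lit 493858305440582043680)) (.cons (.rf (nat_lit 504) (nat_lit 493858305440582043680)) (.cons (.br (nat_lit 3) (nat_lit 0) (.cons (.rf (nat_lit 500) (nat_lit 493858305440582043680)) (.cons (.rf (nat_lit 503) (nat_lit 493858305440582043680)) (.cons (.rf (nat_lit 504) (nat_lit 493858305440582043680)) (.cons (.rf (nat_lit 503) (nat_lit 230986506996392495136)) .nil))))) (.cons (.rf (nat_lit 503) (nat_lit 230986506996392495136)) .nil)))))),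
 (.br (nat_lit 2) (nat_lit 0) (.cons (.rf (nat_lit 171) (nat_lit 493858305440582042688)) (.cons (.rf (nat_lit 241) (nat_lit 493858305440582042688)) (.cons (.rf (nat_lit 342) (nat_lit 493858305440582042688)) (.cons (.br (nat_lit 3) (nat_lit 0) (.cons (.rf (nat_lit 489) (nat_lit 493858305440582043680)) (.cons (.rf (nat_lit 491) (nat_lit 493858305440582043680)) (.cons (.rf (nat_lit 494) (nat_lit 493858305440582043680)) (.cons (.rf (nat_lit 496) (nat_lit 493858305440582043680)) (.cons (.rf (nat_lit 497) (nat_lit 493858305440582043680)) (.cons (.br (nat_lit 3) (nat_lit 0) (.cons (.rf (nat_lit 489) (nat_lit 493858305440582043680)) (.cons (.kr (nat_lit 40564819207303412906588052127744) (nat_lit 1213648186660448773341184) (nat_lit 5) (nat_lit 0)) (.cons (.rf (nat_lit 494) (nat_lit 493858305440582043680)) (.cons (.rf (nat_lit 496) (nat_lit 493858305440582043680)) (.cons (.rf (nat_lit 497) (nat_lit 493858305440582043680)) .nil)))))) .nil))))))) (.cons (.br (nat_lit 3) (nat_lit 0) (.cons (.rf (nat_lit 500) (nat_lit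 493858305440582043680)) (.cons (.rf (nat_lit 503) (nat_lit 493858305440582043680)) (.cons (.rf (nat_lit 505) (nat_lit 493858305440582043680)) (.cons (.br (nat_lit 3) (nat_lit 0) (.cons (.rf (nat_lit 500) (nat_lit 493858305440582043680)) (.cons (.rf (nat_lit 503) (nat_lit 493858305440582043680)) (.cons (.rf (nat_lit 505) (nat_lit 493858305440582043680)) (.cons (.rf (nat_lit 505) (nat_lit 230986506996392495136)) (.cons (.rf (nat_lit 503) (nat_lit 230986506996392495136)) .nil)))))) (.cons (.rf (nat_lit 505) (nat_lit 230986506996392495136)) (.cons (.rf (nat_lit 503) (nat_lit 230986506996392495136)) .nil))))))) (.cons (.rf (nat_lit 486) (nat_lit 230986506996392494144)) .nil))))))),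
 (.br (nat_lit 1) (nat_lit 0) (.cons (.rf (nat_lit 171) (nat_lit 493858305440582043680)) (.cons (.rf (nat_lit 241) (nat_lit 493858305440582043680)) (.cons (.rf (nat_lit 342) (nat_lit 493858305440582043680)) (.cons (.rf (nat_lit 427) (nat_lit 493858305440582043680)) (.cons (.rf (nat_lit 486) (nat_lit 493858305440582043680)) (.cons (.br (nat_lit 2) (nat_lit 0) (.cons (.rf (nat_lit 171) (nat_lit 493858305440582042688)) (.cons (.rf (nat_lit 241) (nat_lit 493858305440582042688)) (.cons (.rf (nat_lit 487) (nat_lit 493858305440582043680)) (.cons (.rf (nat_lit 506) (nat_lit 493858305440582043680)) (.cons (.br (nat_lit 2) (nat_lit 0) (.cons (.kr (nat_lit 4722438540463683141634) (nat_lit 1208925819615728686465024) (nat_lit 0) (nat_lit 1)) (.cons (.rf (nat_lit 241) (nat_lit 493858305440582042688)) (.cons (.rf (nat_lit 427) (nat_lit 493858305440582042688)) (.cons (.rf (nat_lit 506) (nat_lit 493858305440582043680)) (.cons (.rf (nat_lit 506) (nat_lit 230986506996392495136)) (.cons (.rf (nat_lit 427) (nat_lit 230986506996392494144))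 .nil))))))) (.cons (.rf (nat_lit 506) (nat_lit 230986506996392495136)) (.cons (.rf (nat_lit 487) (nat_lit 230986506996392495136)) .nil)))))))) .nil))))))),
 (.br (nat_lit 6) (nat_lit 0) (.cons (.kr (nat_lit 4722438540463683141633) (nat_lit 1208925819896104151417088) (nat_lit 0) (nat_lit 2)) (.cons (.ev (nat_lit 4740885566016664371201) (nat_lit 1)) .nil))),
 (.br (nat_lit 3) (nat_lit 0) (.cons (.rf (nat_lit 508) (nat_lit 493858305440582043680)) (.cons (.br (nat_lit 3) (nat_lit 0) (.cons (.rf (nat_lit 508) (nat_lit 493858305440582043680)) .nil)) .nil))),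
 (.br (nat_lit 2) (nat_lit 0) (.cons (.rf (nat_lit 171) (nat_lit 493858305440582042688)) (.cons (.kr (nat_lit 1208925819615728686334464) (nat_lit 4722438540463683272704) (nat_lit 1) (nat_lit 0)) (.cons (.rf (nat_lit 507) (nat_lit 493858305440582042688)) (.cons (.kr (nat_lit 256) (nat_lit 65536) (nat_lit 1) (nat_lit 0)) (.cons (.br (nat_lit 4) (nat_lit 0) (.cons (.br (nat_lit 6) (nat_lit 0) (.cons (.br (nat_lit 6) (nat_lit 0) (.cons (.kr (nat_lit 4722438540463683141633) (nat_lit 1208925819896104151417088) (nat_lit 0) (nat_lit 2)) (.cons (.kr (nat_lit 4722438540463683207169) (nat_lit 1208925819896104151417344) (nat_lit 0) (nat_lit 3)) (.cons (.ev (nat_lit 4740813509522138071296) (nat_lit 1)) .nil)))) (.cons (.br (nat_lit 6) (nat_lit 0) (.cons (.kr (nat_lit 4722438540463683141633) (nat_lit 1208925819896104151417088) (nat_lit 0) (nat_lit 2)) (.cons (.kr (nat_lit 281474976710656) (nat_lit 72057594037927936) (nat_lit 6) (nat_lit 0)) (.cons (.ev (nat_lit 4740885566016664436993) (nat_lit 1)) .nil)))) (.cons (.br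 (nat_lit 6) (nat_lit 0) (.cons (.kr (nat_lit 4722438540463683207169) (nat_lit 1208925819896104151417344) (nat_lit 0) (nat_lit 3)) (.cons (.kr (nat_lit 281474976710656) (nat_lit 72057594037927936) (nat_lit 6) (nat_lit 0)) (.cons (.ev (nat_lit 4740885566016664371201) (nat_lit 1)) .nil)))) (.cons (.br (nat_lit 6) (nat_lit 0) (.cons (.ev (nat_lit 4740813509522138071296) (nat_lit 1)) (.cons (.ev (nat_lit 4740885566016664436993) (nat_lit 1)) (.cons (.ev (nat_lit 4740885566016664371201) (nat_lit 1)) .nil)))) .nil))))) (.cons (.br (nat_lit 6) (nat_lit 0) (.cons (.kr (nat_lit 4722438541563194769410) (nat_lit 1208925820177579128128000) (nat_lit 0) (nat_lit 2)) (.cons (.kr (nat_lit 1208925891673322724262400) (nat_lit 4722367045819598766080) (nat_lit 1) (nat_lit 0)) (.cons (.kr (nat_lit 1208925891673322724261888) (nat_lit 4722367045819598635008) (nat_lit 5) (nat_lit 0)) (.cons (.br (nat_lit 13) (nat_lit 0) (.cons (.ev (nat_lit 20282410817318375604593090363393) (nat_lit 1)) (.cons (.ev (nat_lit 20282409603670189507094270509056)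 (nat_lit 1)) (.cons (.ev (nat_lit 20282409603670189507094270443776) (nat_lit 1)) .nil)))) .nil))))) (.cons (.rf (nat_lit 482) (nat_lit 230986508094830380096)) (.cons (.br (nat_lit 3) (nat_lit 0) (.cons (.rf (nat_lit 508) (nat_lit 493858305440582043680)) (.cons (.rf (nat_lit 509) (nat_lit 493858305440582043680)) (.cons (.br (nat_lit 3) (nat_lit 0) (.cons (.rf (nat_lit 508) (nat_lit 493858305440582043680)) (.cons (.rf (nat_lit 509) (nat_lit 493858305440582043680)) .nil))) .nil)))) (.cons (.ev (nat_lit 4740885285641199353856) (nat_lit 1)) .nil)))))) (.cons (.rf (nat_lit 507) (nat_lit 230986506996392494144)) .nil))))))),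
 (.br (nat_lit 2) (nat_lit 0) (.cons (.rf (nat_lit 171) (nat_lit 493858305440582042688)) (.cons (.rf (nat_lit 241) (nat_lit 493858305440582042688)) (.cons (.rf (nat_lit 507) (nat_lit 493858305440582042688)) (.cons (.rf (nat_lit 510) (nat_lit 493858305440582043680)) (.cons (.br (nat_lit 2) (nat_lit 0) (.cons (.kr (nat_lit 4722438540463683141634) (nat_lit 1208925819615728686465024) (nat_lit 0) (nat_lit 1)) (.cons (.rf (nat_lit 241) (nat_lit 493858305440582042688)) (.cons (.rf (nat_lit 507) (nat_lit 493858305440582042688)) (.cons (.kr (nat_lit 256) (nat_lit 65536) (nat_lit 1) (nat_lit 0)) (.cons (.kr (nat_lit 1208925891672223212634624) (nat_lit 4722366483969156972544) (nat_lit 1) (nat_lit 0)) (.cons (.rf (nat_lit 507) (nat_lit 230986506996392494144)) .nil))))))) (.cons (.br (nat_lit 2) (nat_lit 0) (.cons (.rf (nat_lit 171) (nat_lit 493858305440582042688)) (.cons (.kr (nat_lit 1208925819614629174706432) (nat_lit 4722366482869645279232) (nat_lit 1) (nat_lit 0)) (.cons (.rf (nat_lit 507) (nat_lit 493858305440582042688))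 (.cons (.rf (nat_lit 510) (nat_lit 493858305440582043680)) (.cons (.kr (nat_lit 1208925891672223212634624) (nat_lit 4722366483969156972544) (nat_lit 1) (nat_lit 0)) (.cons (.rf (nat_lit 507) (nat_lit 230986506996392494144)) .nil))))))) (.cons (.rf (nat_lit 507) (nat_lit 230986506996392494144)) .nil)))))))),
 (.br (nat_lit 2) (nat_lit 0) (.cons (.rf (nat_lit 171) (nat_lit 493858305440582042688)) (.cons (.rf (nat_lit 241) (nat_lit 493858305440582042688)) (.cons (.rf (nat_lit 507) (nat_lit 493858305440582042688)) (.cons (.rf (nat_lit 511) (nat_lit 493858305440582042688)) (.cons (.kr (nat_lit 256) (nat_lit 65536) (nat_lit 1) (nat_lit 0)) (.cons (.rf (nat_lit 507) (nat_lit 230986506996392494144)) .nil)))))))]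

theorem c19 : chkAll C T R L19 (nat_lit 492) = true := by decide +kernel

theorem l19 : (nat_lit 492) + L19.length = (nat_lit 513) := by decide +kernel

/-- part of the certificates -/
def L20 : List Prf := [(.br (nat_lit 2) (nat_lit 0) (.cons (.kr (nat_lit 4722438540463683141634) (nat_lit 1208925819615728686465024) (nat_lit 0) (nat_lit 1)) (.cons (.rf (nat_lit 241) (nat_lit 493858305440582042688)) (.cons (.rf (nat_lit 507) (nat_lit 493858305440582042688)) (.cons (.rf (nat_lit 511) (nat_lit 493858305440582042688)) (.cons (.rf (nat_lit 511) (nat_lit 230986506996392494144)) (.cons (.rf (nat_lit 507) (nat_lit 230986506996392494144)) .nil))))))),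
 (.br (nat_lit 1) (nat_lit 0) (.cons (.rf (nat_lit 171) (nat_lit 493858305440582043680)) (.cons (.rf (nat_lit 241) (nat_lit 493858305440582043680)) (.cons (.rf (nat_lit 507) (nat_lit 493858305440582043680)) (.cons (.rf (nat_lit 513) (nat_lit 493858305440582042688)) (.cons (.br (nat_lit 2) (nat_lit 0) (.cons (.rf (nat_lit 171) (nat_lit 493858305440582042688)) (.cons (.rf (nat_lit 241) (nat_lit 493858305440582042688)) (.cons (.rf (nat_lit 507) (nat_lit 493858305440582042688)) (.cons (.rf (nat_lit 512) (nat_lit 493858305440582043680)) (.cons (.rf (nat_lit 513) (nat_lit 493858305440582043680)) (.cons (.rf (nat_lit 512) (nat_lit 230986506996392495136)) (.cons (.rf (nat_lit 507) (nat_lit 230986506996392494144)) .nil)))))))) (.cons (.rf (nat_lit 507) (nat_lit 230986506996392495136)) .nil))))))),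
 (.br (nat_lit 1) (nat_lit 0) (.cons (.rf (nat_lit 171) (nat_lit 493858305440582043680)) (.cons (.rf (nat_lit 241) (nat_lit 493858305440582043680)) (.cons (.rf (nat_lit 507) (nat_lit 493858305440582043680)) (.cons (.rf (nat_lit 514) (nat_lit 493858305440582043680)) (.cons (.rf (nat_lit 513) (nat_lit 493858305440582042688)) (.cons (.rf (nat_lit 514) (nat_lit 230986506996392495136)) (.cons (.rf (nat_lit 507) (nat_lit 230986506996392495136)) .nil)))))))),
 (.br (nat_lit 3) (nat_lit 0) (.cons (.ev (nat_lit 79228162514336677766365249536) (nat_lit 1)) (.cons (.br (nat_lit 12) (nat_lit 0) (.cons (.ev (nat_lit 20361638975091826433768319614976) (nat_lit 1)) .nil)) .nil))),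
 (.br (nat_lit 12) (nat_lit 0) (.cons (.br (nat_lit 12) (nat_lit 0) (.cons (.ev (nat_lit 20361638975091826433768302903553) (nat_lit 1)) .nil)) (.cons (.br (nat_lit 3) (nat_lit 0) (.cons (.ev (nat_lit 20361638975091826433768302903553) (nat_lit 1)) .nil)) .nil))),
 (.br (nat_lit 1) (nat_lit 0) (.cons (.rf (nat_lit 515) (nat_lit 493858305440582011936)) (.cons (.kr (nat_lit 4722438541563194769410) (nat_lit 1208925820177579128128000) (nat_lit 0) (nat_lit 2)) (.cons (.br (nat_lit 3) (nat_lit 0) (.cons (.rf (nat_lit 516) (nat_lit 493858305440582043680)) (.cons (.ev (nat_lit 79228162514336677766365249536) (nat_lit 1)) (.cons (.br (nat_lit 3) (nat_lit 0) (.cons (.rf (nat_lit 516) (nat_lit 493858305440582043680)) (.cons (.ev (nat_lit 79229376162450716571635613696) (nat_lit 1)) .nil))) .nil)))) (.cons (.br (nat_lit 3) (nat_lit 0) (.cons (.rf (nat_lit 517) (nat_lit 493858305440582043680)) (.cons (.br (nat_lit 3) (nat_lit 0) (.cons (.rf (nat_lit 517) (nat_lit 493858305440582043680)) (.cons (.ev (nat_lit 20282410817318303548098580905985)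 (nat_lit 1)) .nil))) (.cons (.br (nat_lit 3) (nat_lit 0) (.cons (.rf (nat_lit 517) (nat_lit 493858305440582043680)) (.cons (.ev (nat_lit 20282410817318303548098580905985) (nat_lit 1)) .nil))) .nil)))) .nil))))),
 (.br (nat_lit 12) (nat_lit 0) (.cons (.br (nat_lit 12) (nat_lit 0) (.cons (.ev (nat_lit 40723276774425441075365423744006) (nat_lit 3)) .nil)) (.cons (.br (nat_lit 3) (nat_lit 0) (.cons (.ev (nat_lit 40723276774425441075365423744006) (nat_lit 3)) .nil)) .nil))),
 (.br (nat_lit 3) (nat_lit 0) (.cons (.rf (nat_lit 519) (nat_lit 493858305440582043680)) (.cons (.br (nat_lit 8) (nat_lit 0) (.cons (.ev (nat_lit 1223167067461116907095558) (nat_lit 3)) .nil)) .nil))),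
 (.br (nat_lit 1) (nat_lit 0) (.cons (.rf (nat_lit 515) (nat_lit 493858305440582011936)) (.cons (.kr (nat_lit 4722438541563194769410) (nat_lit 1208925820177579128128000) (nat_lit 0) (nat_lit 2)) (.cons (.kr (nat_lit 72057594037927937) (nat_lit 281474976710912) (nat_lit 0) (nat_lit 2)) (.cons (.br (nat_lit 3) (nat_lit 0) (.cons (.rf (nat_lit 519) (nat_lit 493858305440582043680)) (.cons (.rf (nat_lit 520) (nat_lit 493858305440582043680)) (.cons (.br (nat_lit 3) (nat_lit 0) (.cons (.rf (nat_lit 519) (nat_lit 493858305440582043680)) (.cons (.rf (nat_lit 520) (nat_lit 493858305440582043680)) .nil))) .nil)))) .nil))))),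
 (.br (nat_lit 3) (nat_lit 0) (.cons (.ev (nat_lit 4740885566016664371456) (nat_lit 1)) (.cons (.ev (nat_lit 79229376162450716571635613696) (nat_lit 1)) (.cons (.br (nat_lit 8) (nat_lit 0) (.cons (.ev (nat_lit 1223167067461116907095558) (nat_lit 3)) .nil)) .nil)))),
 (.br (nat_lit 1) (nat_lit 0) (.cons (.rf (nat_lit 515) (nat_lit 493858305440582011936)) (.cons (.rf (nat_lit 518) (nat_lit 493858305440582043680)) (.cons (.kr (nat_lit 72057594037927937) (nat_lit 281474976710912) (nat_lit 0) (nat_lit 2)) (.cons (.br (nat_lit 3) (nat_lit 0) (.cons (.ev (nat_lit 4740885566016664371456) (nat_lit 1)) (.cons (.rf (nat_lit 522) (nat_lit 493858305440582043680)) (.cons (.ev (nat_lit 79229376162450716571635613696) (nat_lit 1)) (.cons (.br (nat_lit 3) (nat_lit 0) (.cons (.ev (nat_lit 4740885566016664371456) (nat_lit 1)) (.cons (.rf (nat_lit 522) (nat_lit 493858305440582043680)) (.cons (.ev (nat_lit 79229376162450716571635613696) (nat_lit 1)) .nil)))) .nil))))) .nil))))),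
 (.br (nat_lit 1) (nat_lit 0) (.cons (.rf (nat_lit 515) (nat_lit 493858305440582011936)) (.cons (.rf (nat_lit 518) (nat_lit 493858305440582043680)) (.cons (.rf (nat_lit 521) (nat_lit 493858305440582043680)) (.cons (.rf (nat_lit 523) (nat_lit 493858305440582043680)) (.cons (.br (nat_lit 1) (nat_lit 0) (.cons (.rf (nat_lit 515) (nat_lit 493858305440582011936)) (.cons (.rf (nat_lit 518) (nat_lit 493858305440582043680)) (.cons (.rf (nat_lit 521) (nat_lit 493858305440582043680)) (.cons (.rf (nat_lit 523) (nat_lit 493858305440582043680)) .nil))))) .nil)))))),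
 (.br (nat_lit 1) (nat_lit 0) (.cons (.ev (nat_lit 1208944338697776210640896) (nat_lit 1)) (.cons (.br (nat_lit 6) (nat_lit 0) (.cons (.ev (nat_lit 79228162514336677766381961473) (nat_lit 1)) .nil)) .nil))),
 (.br (nat_lit 3) (nat_lit 0) (.cons (.rf (nat_lit 515) (nat_lit 493858305440582011936)) (.cons (.rf (nat_lit 524) (nat_lit 493858305440582043680)) (.cons (.br (nat_lit 6) (nat_lit 0) (.cons (.br (nat_lit 13) (nat_lit 0) (.cons (.ev (nat_lit 4740813509522138136833) (nat_lit 1)) (.cons (.br (nat_lit 1) (nat_lit 0) (.cons (.ev (nat_lit 4740813509522138136833) (nat_lit 1)) .nil)) .nil))) (.cons (.ev (nat_lit 79228162514264619072815628289) (nat_lit 1)) (.cons (.br (nat_lit 1) (nat_lit 0) (.cons (.br (nat_lit 1) (nat_lit 0) (.cons (.ev (nat_lit 40564820439989217037791720768004) (nat_lit 4)) .nil)) (.cons (.br (nat_lit 1) (nat_lit 0) (.cons (.ev (nat_lit 40564820439989217037791720768004) (nat_lit 4)) .nil)) .nil))) .nil)))) (.cons (.br (nat_lit 1) (nat_lit 0) (.cons (.ev (nat_lit 4740813509522154848256) (nat_lit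 1)) (.cons (.rf (nat_lit 525) (nat_lit 493858305440582043680)) (.cons (.br (nat_lit 1) (nat_lit 0) (.cons (.ev (nat_lit 4740813509522154848256) (nat_lit 1)) (.cons (.rf (nat_lit 525) (nat_lit 493858305440582043680)) .nil))) .nil)))) .nil))))),
 (.br (nat_lit 1) (nat_lit 0) (.cons (.ev (nat_lit 309485009821346172531441921) (nat_lit 1)) .nil)),
 (.br (nat_lit 3) (nat_lit 0) (.cons (.rf (nat_lit 515) (nat_lit 493858305440582011936)) (.cons (.rf (nat_lit 524) (nat_lit 493858305440582043680)) (.cons (.rf (nat_lit 526) (nat_lit 493858305440582043680)) (.cons (.br (nat_lit 6) (nat_lit 0) (.cons (.br (nat_lit 1) (nat_lit 0) (.cons (.br (nat_lit 12) (nat_lit 0) (.cons (.zr (nat_lit 1218370696697755564244997) (nat_lit 158765810075243789882520306176) (nat_lit 5) (nat_lit 4)) .nil)) (.cons (.ev (nat_lit 4740813226947666575616) (nat_lit 1)) (.cons (.ev (nat_lit 4740813509522138136833) (nat_lit 1)) .nil)))) (.cons (.br (nat_lit 1) (nat_lit 0) (.cons (.br (nat_lit 1) (nat_lit 0) (.cons (.ev (nat_lit 40564820421025531221486906376704)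 (nat_lit 3)) .nil)) (.cons (.br (nat_lit 1) (nat_lit 0) (.cons (.ev (nat_lit 40564820421025531221486906376704) (nat_lit 3)) .nil)) .nil))) (.cons (.ev (nat_lit 79228162514264619072815628289) (nat_lit 1)) (.cons (.br (nat_lit 1) (nat_lit 0) (.cons (.rf (nat_lit 527) (nat_lit 15433070910038444064)) (.cons (.rf (nat_lit 334) (nat_lit 230986506996392429664)) .nil))) .nil))))) .nil))))),
 (.br (nat_lit 3) (nat_lit 0) (.cons (.rf (nat_lit 515) (nat_lit 493858305440582011936)) (.cons (.rf (nat_lit 524) (nat_lit 493858305440582043680)) (.cons (.rf (nat_lit 526) (nat_lit 493858305440582043680)) (.cons (.rf (nat_lit 528) (nat_lit 493858305440582043680)) (.cons (.br (nat_lit 3) (nat_lit 0) (.cons (.rf (nat_lit 515) (nat_lit 493858305440582011936)) (.cons (.rf (nat_lit 524) (nat_lit 493858305440582043680)) (.cons (.rf (nat_lit 526) (nat_lit 493858305440582043680)) (.cons (.rf (nat_lit 528) (nat_lit 493858305440582043680)) .nil))))) .nil)))))),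
 (.br (nat_lit 3) (nat_lit 0) (.cons (.rf (nat_lit 515) (nat_lit 493858305440582011936)) (.cons (.rf (nat_lit 524) (nat_lit 493858305440582043680)) (.cons (.rf (nat_lit 529) (nat_lit 493858305440582043680)) (.cons (.br (nat_lit 6) (nat_lit 0) (.cons (.br (nat_lit 13) (nat_lit 0) (.cons (.br (nat_lit 8) (nat_lit 0) (.cons (.ev (nat_lit 40644047384040117486870742499330) (nat_lit 2)) .nil)) (.cons (.ev (nat_lit 20282409603670117168025255804929) (nat_lit 1)) (.cons (.ev (nat_lit 20361638975091754377273793380353) (nat_lit 1)) .nil)))) (.cons (.ev (nat_lit 4740885566016681213953) (nat_lit 1)) (.cons (.ev (nat_lit 79228162514264619072815628289) (nat_lit 1)) (.cons (.br (nat_lit 1) (nat_lit 0) (.cons (.rf (nat_lit 334) (nat_lit 493858305440581979200)) (.cons (.rf (nat_lit 334) (nat_lit 230986506996392429664)) .nil))) .nil))))) .nil))))),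
 (.br (nat_lit 3) (nat_lit 0) (.cons (.rf (nat_lit 515) (nat_lit 493858305440582011936)) (.cons (.rf (nat_lit 524) (nat_lit 493858305440582043680)) (.cons (.rf (nat_lit 529) (nat_lit 493858305440582043680)) (.cons (.rf (nat_lit 530) (nat_lit 493858305440582043680)) (.cons (.br (nat_lit 3) (nat_lit 0) (.cons (.rf (nat_lit 515) (nat_lit 493858305440582011936)) (.cons (.rf (nat_lit 524) (nat_lit 493858305440582043680)) (.cons (.rf (nat_lit 529) (nat_lit 493858305440582043680)) (.cons (.rf (nat_lit 530) (nat_lit 493858305440582043680)) .nil))))) .nil)))))),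
 (.br (nat_lit 3) (nat_lit 0) (.cons (.rf (nat_lit 515) (nat_lit 493858305440582011936)) (.cons (.rf (nat_lit 524) (nat_lit 493858305440582043680)) (.cons (.rf (nat_lit 529) (nat_lit 493858305440582043680)) (.cons (.rf (nat_lit 531) (nat_lit 493858305440582043680)) (.cons (.br (nat_lit 3) (nat_lit 0) (.cons (.rf (nat_lit 515) (nat_lit 493858305440582011936)) (.cons (.rf (nat_lit 524) (nat_lit 493858305440582043680)) (.cons (.rf (nat_lit 529) (nat_lit 493858305440582043680)) (.cons (.rf (nat_lit 531) (nat_lit 493858305440582043680)) .nil))))) .nil)))))),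
 (.br (nat_lit 3) (nat_lit 0) (.cons (.rf (nat_lit 515) (nat_lit 493858305440582011936)) (.cons (.rf (nat_lit 524) (nat_lit 493858305440582043680)) (.cons (.rf (nat_lit 529) (nat_lit 493858305440582043680)) (.cons (.rf (nat_lit 531) (nat_lit 493858305440582043680)) (.cons (.rf (nat_lit 532) (nat_lit 493858305440582043680)) (.cons (.br (nat_lit 3) (nat_lit 0) (.cons (.rf (nat_lit 515) (nat_lit 493858305440582011936)) (.cons (.rf (nat_lit 524) (nat_lit 493858305440582043680)) (.cons (.rf (nat_lit 529) (nat_lit 493858305440582043680)) (.cons (.rf (nat_lit 531) (nat_lit 493858305440582043680)) (.cons (.rf (nat_lit 532) (nat_lit 493858305440582043680)) .nil)))))) .nil))))))),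
 (.br (nat_lit 3) (nat_lit 0) (.cons (.br (nat_lit 3) (nat_lit 0) (.cons (.rf (nat_lit 533) (nat_lit 230986506996392463392)) .nil)) (.cons (.br (nat_lit 3) (nat_lit 0) (.cons (.rf (nat_lit 533) (nat_lit 230986506996392463392)) .nil)) .nil))),
 (.br (nat_lit 3) (nat_lit 0) (.cons (.rf (nat_lit 534) (nat_lit 493858305440582043680)) (.cons (.br (nat_lit 11) (nat_lit 0) (.cons (.rf (nat_lit 533) (nat_lit 230986506996392463392)) (.cons (.ev (nat_lit 81446552287756730731061974270464) (nat_lit 3)) .nil))) .nil))),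
 (.br (nat_lit 13) (nat_lit 0) (.cons (.ev (nat_lit 4740813509522154848256) (nat_lit 1)) (.cons (.br (nat_lit 3) (nat_lit 0) (.cons (.ev (nat_lit 4740813509522154848256) (nat_lit 1)) .nil)) .nil))),
 (.br (nat_lit 3) (nat_lit 0) (.cons (.rf (nat_lit 536) (nat_lit 493858305440582043680)) (.cons (.br (nat_lit 3) (nat_lit 0) (.cons (.rf (nat_lit 536) (nat_lit 493858305440582043680)) (.cons (.ev (nat_lit 4740813226947666575616) (nat_lit 1)) .nil))) (.cons (.br (nat_lit 3) (nat_lit 0) (.cons (.ev (nat_lit 4740813509522154848256) (nat_lit 1)) (.cons (.ev (nat_lit 4740813226947666575616) (nat_lit 1)) .nil))) .nil)))),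
 (.br (nat_lit 3) (nat_lit 0) (.cons (.rf (nat_lit 537) (nat_lit 493858305440582043680)) (.cons (.br (nat_lit 3) (nat_lit 0) (.cons (.rf (nat_lit 537) (nat_lit 493858305440582043680)) (.cons (.rf (nat_lit 533) (nat_lit 230986506996392463392)) .nil))) (.cons (.br (nat_lit 3) (nat_lit 0) (.cons (.ev (nat_lit 4740813509522154848256) (nat_lit 1)) (.cons (.rf (nat_lit 533) (nat_lit 230986506996392463392)) .nil))) .nil)))),
 (.br (nat_lit 3) (nat_lit 0) (.cons (.rf (nat_lit 537) (nat_lit 493858305440582043680)) (.cons (.rf (nat_lit 538) (nat_lit 493858305440582043680)) (.cons (.br (nat_lit 3) (nat_lit 0) (.cons (.ev (nat_lit 4740813226947666575616) (nat_lit 1)) (.cons (.rf (nat_lit 533) (nat_lit 230986506996392463392)) .nil))) .nil)))),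
 (.br (nat_lit 3) (nat_lit 0) (.cons (.rf (nat_lit 537) (nat_lit 420143386739781765152)) (.cons (.br (nat_lit 3) (nat_lit 0) (.cons (.ev (nat_lit 4740813226947666575616) (nat_lit 1)) (.cons (.ev (nat_lit 20361637770888301245514263822593) (nat_lit 1)) .nil))) (.cons (.br (nat_lit 3) (nat_lit 0) (.cons (.ev (nat_lit 4740813509522154848256) (nat_lit 1)) (.cons (.ev (nat_lit 20361637770888301245514263822593) (nat_lit 1)) .nil))) .nil)))),
 (.br (nat_lit 3) (nat_lit 0) (.cons (.rf (nat_lit 537) (nat_lit 420143386739781765152)) (.cons (.rf (nat_lit 540) (nat_lit 493858305440582043680)) (.cons (.br (nat_lit 3) (nat_lit 0) (.cons (.ev (nat_lit 121852915170142511605184968392708) (nat_lit 3)) (.cons (.ev (nat_lit 20361637770888301245514263822593) (nat_lit 1)) .nil))) .nil))))]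

theorem c20 : chkAll C T R L20 (nat_lit 513) = true := by decide +kernel

theorem l20 : (nat_lit 513) + L20.length = (nat_lit 542) := by decide +kernel

/-- part of the certificates -/
def L21 : List Prf := [(.br (nat_lit 1) (nat_lit 0) (.cons (.rf (nat_lit 515) (nat_lit 493858305440582011936)) (.cons (.br (nat_lit 3) (nat_lit 0) (.cons (.rf (nat_lit 534) (nat_lit 493858305440582043680)) (.cons (.rf (nat_lit 535) (nat_lit 493858305440582043680)) (.cons (.br (nat_lit 3) (nat_lit 0) (.cons (.rf (nat_lit 534) (nat_lit 493858305440582043680)) (.cons (.rf (nat_lit 535) (nat_lit 493858305440582043680)) .nil))) .nil)))) (.cons (.br (nat_lit 3) (nat_lit 0) (.cons (.rf (nat_lit 537) (nat_lit 493858305440582043680)) (.cons (.rf (nat_lit 538) (nat_lit 493858305440582043680)) (.cons (.rf (nat_lit 539) (nat_lit 493858305440582043680)) (.cons (.br (nat_lit 3) (nat_lit 0) (.cons (.rf (nat_lit 537) (nat_lit 493858305440582043680)) (.cons (.rf (nat_lit 538) (nat_lit 493858305440582043680)) (.cons (.rf (nat_lit 539) (nat_lit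 493858305440582043680)) .nil)))) .nil))))) (.cons (.ev (nat_lit 79228162514264619072815628544) (nat_lit 1)) (.cons (.br (nat_lit 3) (nat_lit 0) (.cons (.rf (nat_lit 537) (nat_lit 420143386739781765152)) (.cons (.rf (nat_lit 540) (nat_lit 493858305440582043680)) (.cons (.rf (nat_lit 541) (nat_lit 493858305440582043680)) (.cons (.br (nat_lit 3) (nat_lit 0) (.cons (.rf (nat_lit 537) (nat_lit 420143386739781765152)) (.cons (.rf (nat_lit 540) (nat_lit 493858305440582043680)) (.cons (.rf (nat_lit 541) (nat_lit 493858305440582043680)) .nil)))) .nil))))) .nil)))))),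
 (.br (nat_lit 3) (nat_lit 0) (.cons (.kr (nat_lit 4722438541563194769410) (nat_lit 1208925820177579128128000) (nat_lit 0) (nat_lit 2)) (.cons (.br (nat_lit 3) (nat_lit 0) (.cons (.kr (nat_lit 4722438541563194769410) (nat_lit 1208925820177579128128000) (nat_lit 0) (nat_lit 2)) (.cons (.ev (nat_lit 4740885285641216065793) (nat_lit 1)) .nil))) (.cons (.br (nat_lit 3) (nat_lit 0) (.cons (.kr (nat_lit 4722438541563194769410) (nat_lit 1208925820177579128128000) (nat_lit 0) (nat_lit 2)) (.cons (.ev (nat_lit 4740885285641216065793) (nat_lit 1)) .nil))) .nil)))),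
 (.br (nat_lit 3) (nat_lit 0) (.cons (.kr (nat_lit 4722438541563194769410) (nat_lit 1208925820177579128128000) (nat_lit 0) (nat_lit 2)) (.cons (.rf (nat_lit 543) (nat_lit 493858305440582043680)) (.cons (.br (nat_lit 3) (nat_lit 0) (.cons (.kr (nat_lit 4722438541563194769410) (nat_lit 1208925820177579128128000) (nat_lit 0) (nat_lit 2)) (.cons (.ev (nat_lit 4740885285641216065793) (nat_lit 1)) .nil))) .nil)))),
 (.br (nat_lit 12) (nat_lit 0) (.cons (.br (nat_lit 3) (nat_lit 0) (.cons (.br (nat_lit 11) (nat_lit 0) (.cons (.ev (nat_lit 81129639656663358640622615528448) (nat_lit 3)) .nil)) (.cons (.ev (nat_lit 81288095972283759601244543386630) (nat_lit 3)) .nil))) (.cons (.br (nat_lit 3) (nat_lit 0) (.cons (.br (nat_lit 3) (nat_lit 0) (.cons (.ev (nat_lit 20282409603670189507094287286273) (nat_lit 1)) .nil)) (.cons (.br (nat_lit 3) (nat_lit 0) (.cons (.ev (nat_lit 20282409603670189507094287286273) (nat_lit 1)) .nil)) .nil))) (.cons (.ev (nat_lit 20361637770888373584583261749505) (nat_lit 1)) .nil)))),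
 (.br (nat_lit 3) (nat_lit 0) (.cons (.rf (nat_lit 545) (nat_lit 493858305440582043680)) (.cons (.br (nat_lit 3) (nat_lit 0) (.cons (.rf (nat_lit 545) (nat_lit 493858305440582043680)) (.cons (.ev (nat_lit 79228162514336395191893688576) (nat_lit 1)) .nil))) (.cons (.br (nat_lit 3) (nat_lit 0) (.cons (.ev (nat_lit 20282410817318303548098580905985) (nat_lit 1)) (.cons (.ev (nat_lit 79228162514336395191893688576) (nat_lit 1)) .nil))) .nil)))),
 (.br (nat_lit 3) (nat_lit 0) (.cons (.rf (nat_lit 545) (nat_lit 493858305440582043680)) (.cons (.rf (nat_lit 546) (nat_lit 493858305440582043680)) (.cons (.br (nat_lit 3) (nat_lit 0) (.cons (.ev (nat_lit 81288095972283759601244543386630) (nat_lit 3)) (.cons (.ev (nat_lit 79228162514336395191893688576) (nat_lit 1)) .nil))) .nil)))),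
 (.br (nat_lit 1) (nat_lit 0) (.cons (.rf (nat_lit 515) (nat_lit 493858305440582011936)) (.cons (.rf (nat_lit 542) (nat_lit 493858305440582043680)) (.cons (.br (nat_lit 3) (nat_lit 0) (.cons (.kr (nat_lit 4722438541563194769410) (nat_lit 1208925820177579128128000) (nat_lit 0) (nat_lit 2)) (.cons (.rf (nat_lit 543) (nat_lit 493858305440582043680)) (.cons (.rf (nat_lit 544) (nat_lit 493858305440582043680)) (.cons (.br (nat_lit 3) (nat_lit 0) (.cons (.kr (nat_lit 4722438541563194769410) (nat_lit 1208925820177579128128000) (nat_lit 0) (nat_lit 2)) (.cons (.rf (nat_lit 543) (nat_lit 493858305440582043680)) (.cons (.rf (nat_lit 544) (nat_lit 493858305440582043680)) .nil)))) .nil))))) (.cons (.ev (nat_lit 79229376162522492690696830976) (nat_lit 1)) (.cons (.br (nat_lit 3) (nat_lit 0) (.cons (.rf (nat_lit 545) (nat_lit 493858305440582043680)) (.cons (.rf (nat_lit 546) (nat_lit 493858305440582043680)) (.cons (.rf (nat_lit 547) (nat_lit 493858305440582043680)) (.cons (.br (nat_lit 3) (nat_lit 0) (.cons (.rf (nat_lit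 545) (nat_lit 493858305440582043680)) (.cons (.rf (nat_lit 546) (nat_lit 493858305440582043680)) (.cons (.rf (nat_lit 547) (nat_lit 493858305440582043680)) .nil)))) .nil))))) .nil)))))),
 (.br (nat_lit 8) (nat_lit 0) (.cons (.br (nat_lit 3) (nat_lit 0) (.cons (.rf (nat_lit 533) (nat_lit 493858305440582011936)) (.cons (.ev (nat_lit 4740813226947666575616) (nat_lit 1)) (.cons (.ev (nat_lit 4740885566016681213953) (nat_lit 1)) .nil)))) (.cons (.br (nat_lit 3) (nat_lit 0) (.cons (.br (nat_lit 3) (nat_lit 0) (.cons (.ev (nat_lit 20361638975091826433768319615233) (nat_lit 1)) .nil)) (.cons (.br (nat_lit 3) (nat_lit 0) (.cons (.ev (nat_lit 20361638975091826433768319615233) (nat_lit 1)) .nil)) .nil))) (.cons (.br (nat_lit 13) (nat_lit 0) (.cons (.ev (nat_lit 20361641397721100604201683190530) (nat_lit 2)) (.cons (.ev (nat_lit 20361637770888301245514247110656) (nat_lit 1)) .nil))) (.cons (.rf (nat_lit 198) (nat_lit 493858305440582011936)) .nil))))),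
 (.br (nat_lit 6) (nat_lit 0) (.cons (.rf (nat_lit 549) (nat_lit 493858305440582043680)) (.cons (.br (nat_lit 3) (nat_lit 0) (.cons (.br (nat_lit 3) (nat_lit 0) (.cons (.ev (nat_lit 79229376162450436196187308288) (nat_lit 1)) .nil)) (.cons (.br (nat_lit 3) (nat_lit 0) (.cons (.ev (nat_lit 79229376162450436196187308288) (nat_lit 1)) .nil)) .nil))) (.cons (.kr (nat_lit 4722366764344621924353) (nat_lit 79228162532711081667253502208) (nat_lit 0) (nat_lit 2)) (.cons (.br (nat_lit 3) (nat_lit 0) (.cons (.br (nat_lit 3) (nat_lit 0) (.cons (.ev (nat_lit 40723276774425151719089331241990) (nat_lit 3)) .nil)) (.cons (.br (nat_lit 3) (nat_lit 0) (.cons (.ev (nat_lit 40723276774425151719089331241990) (nat_lit 3)) .nil)) .nil))) .nil))))),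
 (.br (nat_lit 3) (nat_lit 0) (.cons (.rf (nat_lit 549) (nat_lit 493858305440582043680)) (.cons (.rf (nat_lit 550) (nat_lit 493858305440582043680)) (.cons (.br (nat_lit 3) (nat_lit 0) (.cons (.rf (nat_lit 549) (nat_lit 493858305440582043680)) (.cons (.rf (nat_lit 550) (nat_lit 493858305440582043680)) (.cons (.rf (nat_lit 533) (nat_lit 230986506996392463392)) .nil)))) (.cons (.br (nat_lit 3) (nat_lit 0) (.cons (.rf (nat_lit 549) (nat_lit 493858305440582043680)) (.cons (.rf (nat_lit 550) (nat_lit 493858305440582043680)) (.cons (.rf (nat_lit 533) (nat_lit 230986506996392463392)) .nil)))) .nil))))),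
 (.br (nat_lit 3) (nat_lit 0) (.cons (.rf (nat_lit 549) (nat_lit 493858305440582043680)) (.cons (.rf (nat_lit 550) (nat_lit 493858305440582043680)) (.cons (.rf (nat_lit 551) (nat_lit 493858305440582043680)) (.cons (.br (nat_lit 3) (nat_lit 0) (.cons (.ev (nat_lit 20361637770888301245514263822593) (nat_lit 1)) (.cons (.ev (nat_lit 79228162514336395191893688576) (nat_lit 1)) (.cons (.rf (nat_lit 533) (nat_lit 230986506996392463392)) .nil)))) .nil))))),
 (.br (nat_lit 1) (nat_lit 0) (.cons (.rf (nat_lit 515) (nat_lit 493858305440582011936)) (.cons (.rf (nat_lit 542) (nat_lit 493858305440582043680)) (.cons (.rf (nat_lit 548) (nat_lit 493858305440582043680)) (.cons (.ev (nat_lit 79229376162522492690696830976) (nat_lit 1)) (.cons (.br (nat_lit 3) (nat_lit 0) (.cons (.rf (nat_lit 549) (nat_lit 493858305440582043680)) (.cons (.rf (nat_lit 550) (nat_lit 493858305440582043680)) (.cons (.rf (nat_lit 551) (nat_lit 493858305440582043680)) (.cons (.rf (nat_lit 552) (nat_lit 493858305440582043680)) (.cons (.br (nat_lit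 3) (nat_lit 0) (.cons (.rf (nat_lit 549) (nat_lit 493858305440582043680)) (.cons (.rf (nat_lit 550) (nat_lit 493858305440582043680)) (.cons (.rf (nat_lit 551) (nat_lit 493858305440582043680)) (.cons (.rf (nat_lit 552) (nat_lit 493858305440582043680)) .nil))))) .nil)))))) .nil)))))),
 (.br (nat_lit 1) (nat_lit 0) (.cons (.rf (nat_lit 515) (nat_lit 493858305440582011936)) (.cons (.rf (nat_lit 542) (nat_lit 493858305440582043680)) (.cons (.rf (nat_lit 548) (nat_lit 493858305440582043680)) (.cons (.rf (nat_lit 553) (nat_lit 493858305440582043680)) (.cons (.ev (nat_lit 79229376162522492690696830976) (nat_lit 1)) (.cons (.br (nat_lit 1) (nat_lit 0) (.cons (.rf (nat_lit 515) (nat_lit 493858305440582011936)) (.cons (.rf (nat_lit 542) (nat_lit 493858305440582043680)) (.cons (.rf (nat_lit 548) (nat_lit 493858305440582043680)) (.cons (.rf (nat_lit 553) (nat_lit 493858305440582043680)) (.cons (.ev (nat_lit 79229376162522492690696830976) (nat_lit 1)) .nil)))))) .nil))))))),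
 (.br (nat_lit 8) (nat_lit 0) (.cons (.ev (nat_lit 20361640193517647192066722299905) (nat_lit 2)) .nil)),
 (.br (nat_lit 3) (nat_lit 0) (.cons (.rf (nat_lit 515) (nat_lit 493858305440582011936)) (.cons (.rf (nat_lit 533) (nat_lit 493858305440582011936)) (.cons (.br (nat_lit 1) (nat_lit 0) (.cons (.br (nat_lit 1) (nat_lit 0) (.cons (.kr (nat_lit 4722438541563194769410) (nat_lit 1208925820177579128128000) (nat_lit 0) (nat_lit 2)) (.cons (.ev (nat_lit 79229376162450716571652325633) (nat_lit 1)) (.cons (.ev (nat_lit 20282409603670117168025255805184) (nat_lit 1)) .nil)))) (.cons (.br (nat_lit 1) (nat_lit 0) (.cons (.kr (nat_lit 4722438541563194769410) (nat_lit 1208925820177579128128000) (nat_lit 0) (nat_lit 2)) (.cons (.kr (nat_lit 72057594037927937) (nat_lit 281474976710912) (nat_lit 0) (nat_lit 2)) (.cons (.rf (nat_lit 555) (nat_lit 493858305440582043680)) .nil)))) (.cons (.br (nat_lit 1) (nat_lit 0) (.cons (.ev (nat_lit 79229376162450716571652325633) (nat_lit 1)) (.cons (.kr (nat_lit 72057594037927937) (nat_lit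 281474976710912) (nat_lit 0) (nat_lit 2)) (.cons (.ev (nat_lit 79229376162522492690696831233) (nat_lit 1)) .nil)))) (.cons (.br (nat_lit 1) (nat_lit 0) (.cons (.ev (nat_lit 20282409603670117168025255805184) (nat_lit 1)) (.cons (.rf (nat_lit 555) (nat_lit 493858305440582043680)) (.cons (.ev (nat_lit 79229376162522492690696831233) (nat_lit 1)) .nil)))) .nil))))) (.cons (.kr (nat_lit 40564819207303412906588052127744) (nat_lit 1213648186660448773341184) (nat_lit 5) (nat_lit 0)) .nil))))),
 (.br (nat_lit 3) (nat_lit 0) (.cons (.rf (nat_lit 515) (nat_lit 493858305440582011936)) (.cons (.br (nat_lit 3) (nat_lit 0) (.cons (.rf (nat_lit 515) (nat_lit 493858305440582011936)) (.cons (.rf (nat_lit 533) (nat_lit 493858305440582011936)) (.cons (.ev (nat_lit 4740885566016681213953) (nat_lit 1)) (.cons (.kr (nat_lit 40564819207303412906588052127744) (nat_lit 1213648186660448773341184) (nat_lit 5) (nat_lit 0)) .nil))))) (.cons (.rf (nat_lit 556) (nat_lit 493858305440582043680)) (.cons (.br (nat_lit 3) (nat_lit 0) (.cons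 (.rf (nat_lit 515) (nat_lit 493858305440582011936)) (.cons (.ev (nat_lit 4740885566016681213953) (nat_lit 1)) (.cons (.rf (nat_lit 556) (nat_lit 493858305440582043680)) (.cons (.kr (nat_lit 40564819207303412906588052127744) (nat_lit 1213648186660448773341184) (nat_lit 5) (nat_lit 0)) .nil))))) (.cons (.kr (nat_lit 40564819207303412906588052127744) (nat_lit 1213648186660448773341184) (nat_lit 5) (nat_lit 0)) .nil)))))),
 (.br (nat_lit 1) (nat_lit 0) (.cons (.br (nat_lit 1) (nat_lit 0) (.cons (.ev (nat_lit 309485009821346172531441921) (nat_lit 1)) .nil)) (.cons (.rf (nat_lit 527) (nat_lit 11939368314733692960)) .nil))),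
 (.br (nat_lit 3) (nat_lit 0) (.cons (.rf (nat_lit 515) (nat_lit 493858305440582011936)) (.cons (.rf (nat_lit 533) (nat_lit 493858305440582011936)) (.cons (.br (nat_lit 6) (nat_lit 0) (.cons (.br (nat_lit 1) (nat_lit 0) (.cons (.ev (nat_lit 4740813509522138136833) (nat_lit 1)) (.cons (.ev (nat_lit 4740813226947666575616) (nat_lit 1)) (.cons (.kr (nat_lit 40564819207303412906588052127744) (nat_lit 1213648186660448773341184) (nat_lit 5) (nat_lit 0)) .nil)))) (.cons (.rf (nat_lit 558) (nat_lit 15433070910038444064)) (.cons (.ev (nat_lit 79228162514264619072815628289) (nat_lit 1)) (.cons (.br (nat_lit 1) (nat_lit 0) (.cons (.br (nat_lit 1) (nat_lit 0) (.cons (.zr (nat_lit 1213648186099697843175427) (nat_lit 79537647542532426740273381376) (nat_lit 5) (nat_lit 4)) .nil)) (.cons (.br (nat_lit 1) (nat_lit 0) (.cons (.zr (nat_lit 1213648186099697843175427) (nat_lit 79537647542532426740273381376) (nat_lit 5) (nat_lit 4)) .nil)) .nil))) .nil))))) (.cons (.br (nat_lit 1) (nat_lit 0) (.cons (.ev (nat_lit 4740813509522154848256)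 (nat_lit 1)) (.cons (.br (nat_lit 1) (nat_lit 0) (.cons (.ev (nat_lit 4740813509522154848256) (nat_lit 1)) (.cons (.kr (nat_lit 1213648258155092857847810) (nat_lit 40564819207303340848994014200320) (nat_lit 0) (nat_lit 2)) .nil))) (.cons (.br (nat_lit 1) (nat_lit 0) (.cons (.ev (nat_lit 4740813509522154848256) (nat_lit 1)) (.cons (.kr (nat_lit 1213648258155092857847810) (nat_lit 40564819207303340848994014200320) (nat_lit 0) (nat_lit 2)) .nil))) .nil)))) .nil))))),
 (.br (nat_lit 3) (nat_lit 0) (.cons (.rf (nat_lit 515) (nat_lit 493858305440582011936)) (.cons (.rf (nat_lit 557) (nat_lit 493858305440582043680)) (.cons (.rf (nat_lit 559) (nat_lit 493858305440582043680)) (.cons (.br (nat_lit 3) (nat_lit 0) (.cons (.rf (nat_lit 515) (nat_lit 493858305440582011936)) (.cons (.ev (nat_lit 4740885566016681213953) (nat_lit 1)) (.cons (.rf (nat_lit 559) (nat_lit 493858305440582043680)) (.cons (.rf (nat_lit 554) (nat_lit 230986506996392463392)) .nil))))) (.cons (.br (nat_lit 3) (nat_lit 0) (.cons (.rf (nat_lit 515)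 (nat_lit 493858305440582011936)) (.cons (.kr (nat_lit 40564819207303412906588052127744) (nat_lit 1213648186660448773341184) (nat_lit 5) (nat_lit 0)) (.cons (.rf (nat_lit 559) (nat_lit 493858305440582043680)) (.cons (.rf (nat_lit 554) (nat_lit 230986506996392463392)) .nil))))) .nil)))))),
 (.br (nat_lit 3) (nat_lit 0) (.cons (.rf (nat_lit 515) (nat_lit 493858305440582011936)) (.cons (.rf (nat_lit 557) (nat_lit 493858305440582043680)) (.cons (.rf (nat_lit 560) (nat_lit 493858305440582043680)) (.cons (.br (nat_lit 3) (nat_lit 0) (.cons (.rf (nat_lit 515) (nat_lit 493858305440582011936)) (.cons (.rf (nat_lit 557) (nat_lit 493858305440582043680)) (.cons (.rf (nat_lit 560) (nat_lit 493858305440582043680)) (.cons (.rf (nat_lit 533) (nat_lit 230986506996392463392)) .nil))))) (.cons (.br (nat_lit 3) (nat_lit 0) (.cons (.rf (nat_lit 515) (nat_lit 493858305440582011936)) (.cons (.kr (nat_lit 40564819207303412906588052127744) (nat_lit 1213648186660448773341184) (nat_lit 5) (nat_lit 0)) (.cons (.rf (nat_lit 560) (nat_lit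 493858305440582043680)) (.cons (.rf (nat_lit 533) (nat_lit 230986506996392463392)) .nil))))) .nil)))))),
 (.br (nat_lit 3) (nat_lit 0) (.cons (.rf (nat_lit 515) (nat_lit 493858305440582011936)) (.cons (.rf (nat_lit 557) (nat_lit 493858305440582043680)) (.cons (.rf (nat_lit 560) (nat_lit 493858305440582043680)) (.cons (.rf (nat_lit 561) (nat_lit 493858305440582043680)) (.cons (.br (nat_lit 3) (nat_lit 0) (.cons (.rf (nat_lit 515) (nat_lit 493858305440582011936)) (.cons (.kr (nat_lit 40564819207303412906588052127744) (nat_lit 1213648186660448773341184) (nat_lit 5) (nat_lit 0)) (.cons (.rf (nat_lit 554) (nat_lit 230986506996392463392)) (.cons (.rf (nat_lit 533) (nat_lit 230986506996392463392)) .nil))))) .nil)))))),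
 (.br (nat_lit 2) (nat_lit 0) (.cons (.rf (nat_lit 515) (nat_lit 493858305440582043680)) (.cons (.rf (nat_lit 515) (nat_lit 493858305440581979200)) (.cons (.rf (nat_lit 533) (nat_lit 493858305440582043680)) (.cons (.rf (nat_lit 554) (nat_lit 493858305440582043680)) (.cons (.br (nat_lit 3) (nat_lit 0) (.cons (.rf (nat_lit 515) (nat_lit 493858305440582011936)) (.cons (.rf (nat_lit 557) (nat_lit 493858305440582043680)) (.cons (.rf (nat_lit 560) (nat_lit 493858305440582043680)) (.cons (.rf (nat_lit 561) (nat_lit 493858305440582043680)) (.cons (.rf (nat_lit 562) (nat_lit 493858305440582043680)) (.cons (.br (nat_lit 3) (nat_lit 0) (.cons (.rf (nat_lit 515) (nat_lit 493858305440582011936)) (.cons (.kr (nat_lit 40564819207303412906588052127744) (nat_lit 1213648186660448773341184) (nat_lit 5) (nat_lit 0)) (.cons (.rf (nat_lit 560) (nat_lit 493858305440582043680)) (.cons (.rf (nat_lit 561) (nat_lit 493858305440582043680)) (.cons (.rf (nat_lit 562) (nat_lit 493858305440582043680)) .nil)))))) .nil))))))) .nil))))))]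

theorem c21 : chkAll C T R L21 (nat_lit 542) = true := by decide +kernel

theorem l21 : (nat_lit 542) + L21.length = (nat_lit 564) := by decide +kernel

/-- part of the certificates -/
def L22 : List Prf := [(.br (nat_lit 1) (nat_lit 0) (.cons (.br (nat_lit 7) (nat_lit 0) (.cons (.ev (nat_lit 79228162514336395191893688321) (nat_lit 1)) .nil)) .nil)),
 (.br (nat_lit 1) (nat_lit 0) (.cons (.ev (nat_lit 79228162514336677766365249793) (nat_lit 1)) (.cons (.br (nat_lit 8) (nat_lit 0) (.cons (.ev (nat_lit 81129639656662925732108434540038) (nat_lit 3)) .nil)) .nil))),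
 (.br (nat_lit 8) (nat_lit 0) (.cons (.ev (nat_lit 309485009893685241546080513) (nat_lit 1)) (.cons (.br (nat_lit 1) (nat_lit 0) (.cons (.ev (nat_lit 309485009893685241546080513) (nat_lit 1)) .nil)) .nil))),
 (.br (nat_lit 3) (nat_lit 0) (.cons (.rf (nat_lit 515) (nat_lit 493858305440582011936)) (.cons (.rf (nat_lit 563) (nat_lit 493858305440582011936)) (.cons (.br (nat_lit 1) (nat_lit 0) (.cons (.rf (nat_lit 564) (nat_lit 15433072043909810208)) (.cons (.rf (nat_lit 564) (nat_lit 9668288770981595168)) .nil))) (.cons (.br (nat_lit 1) (nat_lit 0) (.cons (.rf (nat_lit 565) (nat_lit 493858305440582043680)) (.cons (.rf (nat_lit 566) (nat_lit 15433070910038444064)) (.cons (.br (nat_lit 1) (nat_lit 0) (.cons (.rf (nat_lit 565) (nat_lit 493858305440582043680)) (.cons (.rf (nat_lit 566) (nat_lit 15433070910038444064)) .nil))) .nil)))) .nil))))),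
 (.br (nat_lit 3) (nat_lit 0) (.cons (.rf (nat_lit 515) (nat_lit 493858305440582011936)) (.cons (.rf (nat_lit 563) (nat_lit 493858305440582011936)) (.cons (.rf (nat_lit 567) (nat_lit 493858305440582043680)) (.cons (.br (nat_lit 3) (nat_lit 0) (.cons (.rf (nat_lit 515) (nat_lit 493858305440582011936)) (.cons (.rf (nat_lit 563) (nat_lit 493858305440582011936)) (.cons (.rf (nat_lit 567) (nat_lit 493858305440582043680)) (.cons (.rf (nat_lit 563) (nat_lit 230986506996392463392)) .nil))))) (.cons (.br (nat_lit 3) (nat_lit 0) (.cons (.rf (nat_lit 515) (nat_lit 493858305440582011936)) (.cons (.rf (nat_lit 563) (nat_lit 493858305440582011936)) (.cons (.rf (nat_lit 567) (nat_lit 493858305440582043680)) (.cons (.rf (nat_lit 563) (nat_lit 230986506996392463392)) .nil))))) .nil)))))),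
 (.br (nat_lit 13) (nat_lit 0) (.cons (.br (nat_lit 1) (nat_lit 0) (.cons (.ev (nat_lit 121694458835705855228644074063364) (nat_lit 4)) .nil)) (.cons (.ev (nat_lit 20282409603670189226718822137856) (nat_lit 1)) .nil))),
 (.br (nat_lit 1) (nat_lit 0) (.cons (.ev (nat_lit 4740885566016681214208) (nat_lit 1)) (.cons (.ev (nat_lit 475370207660347723181992574980) (nat_lit 3)) (.cons (.ev (nat_lit 20282410817318375324217625280768) (nat_lit 1)) .nil)))),
 (.br (nat_lit 3) (nat_lit 0) (.cons (.rf (nat_lit 515) (nat_lit 493858305440582011936)) (.cons (.rf (nat_lit 563) (nat_lit 493858305440582011936)) (.cons (.br (nat_lit 13) (nat_lit 0) (.cons (.rf (nat_lit 569) (nat_lit 493858305440582043680)) (.cons (.br (nat_lit 13) (nat_lit 0) (.cons (.rf (nat_lit 569) (nat_lit 493858305440582043680)) (.cons (.ev (nat_lit 20361637770888373302008773345281) (nat_lit 1)) .nil))) (.cons (.rf (nat_lit 237) (nat_lit 230986506996392495136)) .nil)))) (.cons (.br (nat_lit 8) (nat_lit 0) (.cons (.rf (nat_lit 570) (nat_lit 493858305440582043680))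 (.cons (.br (nat_lit 12) (nat_lit 0) (.cons (.rf (nat_lit 570) (nat_lit 230986506996392463392)) (.cons (.ev (nat_lit 79228162514264619072832471041) (nat_lit 1)) .nil))) (.cons (.ev (nat_lit 79228167292187225475071934466) (nat_lit 2)) (.cons (.br (nat_lit 12) (nat_lit 0) (.cons (.rf (nat_lit 570) (nat_lit 230986506996392463392)) (.cons (.ev (nat_lit 4740885566016664371201) (nat_lit 1)) .nil))) .nil))))) .nil))))),
 (.br (nat_lit 3) (nat_lit 0) (.cons (.rf (nat_lit 515) (nat_lit 493858305440582011936)) (.cons (.rf (nat_lit 515) (nat_lit 493858305440581979200)) (.cons (.rf (nat_lit 563) (nat_lit 493858305440582011936)) (.cons (.rf (nat_lit 571) (nat_lit 230986506996392463392)) (.cons (.rf (nat_lit 563) (nat_lit 230986506996392463392)) .nil)))))),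
 (.br (nat_lit 3) (nat_lit 0) (.cons (.rf (nat_lit 515) (nat_lit 493858305440582011936)) (.cons (.rf (nat_lit 563) (nat_lit 493858305440582011936)) (.cons (.rf (nat_lit 572) (nat_lit 230986506996392463392)) (.cons (.br (nat_lit 3) (nat_lit 0) (.cons (.rf (nat_lit 515) (nat_lit 493858305440582011936)) (.cons (.rf (nat_lit 563) (nat_lit 493858305440582011936)) (.cons (.rf (nat_lit 572) (nat_lit 230986506996392463392)) (.cons (.rf (nat_lit 563) (nat_lit 230986506996392463392)) .nil))))) (.cons (.rf (nat_lit 572) (nat_lit 493858305440582043680)) .nil)))))),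
 (.br (nat_lit 3) (nat_lit 0) (.cons (.rf (nat_lit 515) (nat_lit 493858305440582011936)) (.cons (.rf (nat_lit 568) (nat_lit 493858305440582043680)) (.cons (.rf (nat_lit 572) (nat_lit 230986506996392463392)) (.cons (.br (nat_lit 3) (nat_lit 0) (.cons (.rf (nat_lit 515) (nat_lit 493858305440582011936)) (.cons (.rf (nat_lit 568) (nat_lit 493858305440582043680)) (.cons (.rf (nat_lit 572) (nat_lit 230986506996392463392)) (.cons (.rf (nat_lit 563) (nat_lit 230986506996392463392)) .nil))))) (.cons (.br (nat_lit 3) (nat_lit 0) (.cons (.rf (nat_lit 515) (nat_lit 493858305440582011936)) (.cons (.rf (nat_lit 568) (nat_lit 493858305440582043680)) (.cons (.rf (nat_lit 572) (nat_lit 493858305440582043680)) (.cons (.rf (nat_lit 563) (nat_lit 230986506996392463392)) .nil))))) .nil)))))),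
 (.br (nat_lit 3) (nat_lit 0) (.cons (.rf (nat_lit 515) (nat_lit 493858305440582011936)) (.cons (.rf (nat_lit 568) (nat_lit 493858305440582043680)) (.cons (.rf (nat_lit 573) (nat_lit 493858305440582043680)) (.cons (.rf (nat_lit 574) (nat_lit 493858305440582043680)) (.cons (.br (nat_lit 3) (nat_lit 0) (.cons (.rf (nat_lit 515) (nat_lit 493858305440582011936)) (.cons (.rf (nat_lit 568) (nat_lit 493858305440582043680)) (.cons (.rf (nat_lit 573) (nat_lit 493858305440582043680)) (.cons (.rf (nat_lit 574) (nat_lit 493858305440582043680)) (.cons (.rf (nat_lit 563) (nat_lit 230986506996392463392)) .nil)))))) (.cons (.br (nat_lit 3) (nat_lit 0) (.cons (.rf (nat_lit 515) (nat_lit 493858305440582011936)) (.cons (.rf (nat_lit 568) (nat_lit 493858305440582043680)) (.cons (.rf (nat_lit 572) (nat_lit 493858305440582043680)) (.cons (.rf (nat_lit 574) (nat_lit 493858305440582043680)) (.cons (.rf (nat_lit 563) (nat_lit 230986506996392463392)) .nil)))))) .nil))))))),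
 (.br (nat_lit 3) (nat_lit 0) (.cons (.rf (nat_lit 515) (nat_lit 493858305440582011936)) (.cons (.rf (nat_lit 515) (nat_lit 493858305440581979200)) (.cons (.rf (nat_lit 563) (nat_lit 493858305440582011936)) (.cons (.rf (nat_lit 575) (nat_lit 493858305440582011936)) (.cons (.rf (nat_lit 563) (nat_lit 230986506996392463392)) .nil)))))),
 (.br (nat_lit 3) (nat_lit 0) (.cons (.rf (nat_lit 515) (nat_lit 493858305440582011936)) (.cons (.rf (nat_lit 515) (nat_lit 493858305440581979200)) (.cons (.rf (nat_lit 563) (nat_lit 493858305440582011936)) (.cons (.br (nat_lit 3) (nat_lit 0) (.cons (.rf (nat_lit 515) (nat_lit 493858305440582011936)) (.cons (.rf (nat_lit 515) (nat_lit 493858305440581979200)) (.cons (.rf (nat_lit 563) (nat_lit 493858305440582011936)) (.cons (.rf (nat_lit 576) (nat_lit 493858305440582043680)) (.cons (.kr (nat_lit 40564819207303412906588052127744) (nat_lit 1213648186660448773341184) (nat_lit 5) (nat_lit 0)) .nil)))))) (.cons (.rf (nat_lit 576) (nat_lit 493858305440582043680)) (.cons (.kr (nat_lit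 40564819207303412906588052127744) (nat_lit 1213648186660448773341184) (nat_lit 5) (nat_lit 0)) .nil))))))),
 (.br (nat_lit 7) (nat_lit 0) (.cons (.ev (nat_lit 79228162514336395191876845569) (nat_lit 1)) .nil)),
 (.br (nat_lit 1) (nat_lit 0) (.cons (.ev (nat_lit 4740885566016681214208) (nat_lit 1)) (.cons (.rf (nat_lit 578) (nat_lit 15433072043909810208)) (.cons (.kr (nat_lit 40564819207303412906588052127744) (nat_lit 1213648186660448773341184) (nat_lit 5) (nat_lit 0)) .nil)))),
 (.br (nat_lit 3) (nat_lit 0) (.cons (.rf (nat_lit 515) (nat_lit 493858305440582011936)) (.cons (.rf (nat_lit 563) (nat_lit 493858305440582011936)) (.cons (.br (nat_lit 6) (nat_lit 0) (.cons (.rf (nat_lit 579) (nat_lit 493858305440582043680)) (.cons (.br (nat_lit 13) (nat_lit 0) (.cons (.rf (nat_lit 579) (nat_lit 230986506996392495136)) (.cons (.ev (nat_lit 79231798791940495737698254850) (nat_lit 2)) .nil))) (.cons (.ev (nat_lit 79228162514264619072815628289) (nat_lit 1)) (.cons (.br (nat_lit 8) (nat_lit 0) (.cons (.br (nat_lit 1)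 (nat_lit 0) (.cons (.ev (nat_lit 40723276774425008736398198440960) (nat_lit 3)) .nil)) (.cons (.ev (nat_lit 4740885566016664371201) (nat_lit 1)) .nil))) .nil))))) (.cons (.rf (nat_lit 576) (nat_lit 230986506996392495136)) .nil))))),
 (.br (nat_lit 3) (nat_lit 0) (.cons (.rf (nat_lit 515) (nat_lit 493858305440582011936)) (.cons (.rf (nat_lit 563) (nat_lit 493858305440582011936)) (.cons (.rf (nat_lit 580) (nat_lit 493858305440582043680)) (.cons (.br (nat_lit 3) (nat_lit 0) (.cons (.rf (nat_lit 515) (nat_lit 493858305440582011936)) (.cons (.rf (nat_lit 563) (nat_lit 493858305440582011936)) (.cons (.rf (nat_lit 580) (nat_lit 493858305440582043680)) (.cons (.rf (nat_lit 563) (nat_lit 230986506996392463392)) .nil))))) (.cons (.rf (nat_lit 576) (nat_lit 230986506996392495136)) .nil)))))),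
 (.br (nat_lit 2) (nat_lit 0) (.cons (.rf (nat_lit 515) (nat_lit 493858305440582043680)) (.cons (.rf (nat_lit 515) (nat_lit 493858305440581979200)) (.cons (.rf (nat_lit 563) (nat_lit 493858305440582043680)) (.cons (.rf (nat_lit 576) (nat_lit 493858305440582011936)) (.cons (.br (nat_lit 3) (nat_lit 0) (.cons (.rf (nat_lit 515) (nat_lit 493858305440582011936)) (.cons (.rf (nat_lit 577) (nat_lit 493858305440582043680)) (.cons (.rf (nat_lit 581) (nat_lit 493858305440582043680)) (.cons (.br (nat_lit 3) (nat_lit 0) (.cons (.rf (nat_lit 515) (nat_lit 493858305440582011936)) (.cons (.rf (nat_lit 577) (nat_lit 493858305440582043680)) (.cons (.rf (nat_lit 581) (nat_lit 493858305440582043680)) (.cons (.rf (nat_lit 581) (nat_lit 230986506996392495136)) (.cons (.rf (nat_lit 577) (nat_lit 230986506996392495136)) .nil)))))) (.cons (.rf (nat_lit 581) (nat_lit 230986506996392495136)) (.cons (.rf (nat_lit 577) (nat_lit 230986506996392495136)) .nil))))))) .nil)))))),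
 (.br (nat_lit 2) (nat_lit 0) (.cons (.rf (nat_lit 515) (nat_lit 493858305440582043680)) (.cons (.rf (nat_lit 515) (nat_lit 493858305440581979200)) (.cons (.rf (nat_lit 563) (nat_lit 493858305440582043680)) (.cons (.rf (nat_lit 582) (nat_lit 493858305440582043680)) (.cons (.rf (nat_lit 576) (nat_lit 493858305440582011936)) (.cons (.br (nat_lit 2) (nat_lit 0) (.cons (.rf (nat_lit 515) (nat_lit 493858305440582043680)) (.cons (.rf (nat_lit 515) (nat_lit 493858305440581979200)) (.cons (.rf (nat_lit 563) (nat_lit 493858305440582043680)) (.cons (.rf (nat_lit 582) (nat_lit 493858305440582043680)) (.cons (.rf (nat_lit 563) (nat_lit 230986506996392495136)) .nil)))))) .nil))))))),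
 (.br (nat_lit 1) (nat_lit 0) (.cons (.br (nat_lit 6) (nat_lit 0) (.cons (.ev (nat_lit 121852915170142511605184867599360) (nat_lit 3)) .nil)) .nil)),
 (.br (nat_lit 3) (nat_lit 0) (.cons (.rf (nat_lit 515) (nat_lit 493858305440582011936)) (.cons (.rf (nat_lit 515) (nat_lit 493858305440581979200)) (.cons (.rf (nat_lit 583) (nat_lit 493858305440582011936)) (.cons (.br (nat_lit 2) (nat_lit 0) (.cons (.rf (nat_lit 515) (nat_lit 493858305440582043680)) (.cons (.rf (nat_lit 583) (nat_lit 493858305440582043680)) (.cons (.br (nat_lit 1) (nat_lit 0) (.cons (.rf (nat_lit 584) (nat_lit 493858305440582043680)) (.cons (.rf (nat_lit 584) (nat_lit 230986506996392495136)) .nil))) (.cons (.rf (nat_lit 583) (nat_lit 230986506996392495136)) .nil))))) (.cons (.rf (nat_lit 583) (nat_lit 230986506996392463392)) .nil)))))),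
 (.br (nat_lit 3) (nat_lit 0) (.cons (.rf (nat_lit 515) (nat_lit 493858305440582011936)) (.cons (.rf (nat_lit 583) (nat_lit 493858305440582011936)) (.cons (.rf (nat_lit 585) (nat_lit 493858305440582011936)) (.cons (.rf (nat_lit 585) (nat_lit 493858305440582043680)) (.cons (.rf (nat_lit 583) (nat_lit 230986506996392463392)) .nil)))))),
 (.br (nat_lit 2) (nat_lit 0) (.cons (.rf (nat_lit 515) (nat_lit 493858305440582043680)) (.cons (.rf (nat_lit 515) (nat_lit 493858305440581979200)) (.cons (.rf (nat_lit 583) (nat_lit 493858305440582043680)) (.cons (.br (nat_lit 3) (nat_lit 0) (.cons (.rf (nat_lit 515) (nat_lit 493858305440582011936)) (.cons (.rf (nat_lit 583) (nat_lit 493858305440582011936)) (.cons (.rf (nat_lit 586) (nat_lit 493858305440582043680)) (.cons (.br (nat_lit 3) (nat_lit 0) (.cons (.rf (nat_lit 515) (nat_lit 493858305440582011936)) (.cons (.rf (nat_lit 583) (nat_lit 493858305440582011936)) (.cons (.rf (nat_lit 585) (nat_lit 493858305440582011936)) (.cons (.rf (nat_lit 585) (nat_lit 230986506996392463392))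 (.cons (.rf (nat_lit 583) (nat_lit 230986506996392463392)) .nil)))))) (.cons (.rf (nat_lit 586) (nat_lit 230986506996392495136)) (.cons (.rf (nat_lit 583) (nat_lit 230986506996392463392)) .nil))))))) (.cons (.rf (nat_lit 583) (nat_lit 230986506996392495136)) .nil)))))),
 (.br (nat_lit 2) (nat_lit 0) (.cons (.rf (nat_lit 515) (nat_lit 493858305440582043680)) (.cons (.rf (nat_lit 515) (nat_lit 493858305440581979200)) (.cons (.rf (nat_lit 583) (nat_lit 493858305440582043680)) (.cons (.rf (nat_lit 587) (nat_lit 493858305440582043680)) (.cons (.br (nat_lit 2) (nat_lit 0) (.cons (.rf (nat_lit 515) (nat_lit 493858305440582043680)) (.cons (.rf (nat_lit 515) (nat_lit 493858305440581979200)) (.cons (.rf (nat_lit 583) (nat_lit 493858305440582043680)) (.cons (.rf (nat_lit 587) (nat_lit 493858305440582043680)) (.cons (.rf (nat_lit 583) (nat_lit 230986506996392495136)) .nil)))))) (.cons (.rf (nat_lit 583) (nat_lit 230986506996392495136)) .nil))))))),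
 (.br (nat_lit 2) (nat_lit 0) (.cons (.rf (nat_lit 515) (nat_lit 493858305440582043680)) (.cons (.rf (nat_lit 515) (nat_lit 493858305440581979200)) (.cons (.rf (nat_lit 583) (nat_lit 493858305440582043680)) (.cons (.rf (nat_lit 588) (nat_lit 493858305440582043680)) (.cons (.br (nat_lit 2) (nat_lit 0) (.cons (.rf (nat_lit 515) (nat_lit 493858305440582043680)) (.cons (.rf (nat_lit 515) (nat_lit 493858305440581979200)) (.cons (.rf (nat_lit 583) (nat_lit 493858305440582043680)) (.cons (.rf (nat_lit 588) (nat_lit 493858305440582043680)) (.cons (.rf (nat_lit 588) (nat_lit 230986506996392495136)) (.cons (.rf (nat_lit 583) (nat_lit 230986506996392495136)) .nil))))))) (.cons (.rf (nat_lit 588) (nat_lit 230986506996392495136)) (.cons (.rf (nat_lit 583) (nat_lit 230986506996392495136)) .nil))))))))]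

theorem c22 : chkAll C T R L22 (nat_lit 564) = true := by decide +kernel

theorem l22 : (nat_lit 564) + L22.length = (nat_lit 590) := by decide +kernel

/-- part of the certificates -/
def L23 : List Prf := [(.br (nat_lit 3) (nat_lit 0) (.cons (.rf (nat_lit 515) (nat_lit 493858305440581979200)) (.cons (.rf (nat_lit 589) (nat_lit 493858305440582009952)) (.cons (.br (nat_lit 2) (nat_lit 0) (.cons (.rf (nat_lit 589) (nat_lit 493858305440582042688)) (.cons (.br (nat_lit 4) (nat_lit 0) (.cons (.ev (nat_lit 20361637770888301245514263822593) (nat_lit 1)) .nil)) (.cons (.br (nat_lit 4) (nat_lit 0) (.cons (.ev (nat_lit 20361637770888301525889712128256) (nat_lit 1)) .nil)) .nil)))) .nil)))),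
 (.br (nat_lit 3) (nat_lit 0) (.cons (.rf (nat_lit 515) (nat_lit 493858305440581979200)) (.cons (.rf (nat_lit 589) (nat_lit 493858305440582009952)) (.cons (.rf (nat_lit 590) (nat_lit 493858305440582043680)) (.cons (.br (nat_lit 3) (nat_lit 0) (.cons (.rf (nat_lit 515) (nat_lit 493858305440581979200)) (.cons (.rf (nat_lit 589) (nat_lit 493858305440582009952)) (.cons (.rf (nat_lit 590) (nat_lit 493858305440582043680)) .nil)))) .nil))))),
 (.br (nat_lit 4) (nat_lit 0) (.cons (.ev (nat_lit 20282409603670189507094287220736) (nat_lit 1)) .nil)),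
 (.br (nat_lit 3) (nat_lit 0) (.cons (.kr (nat_lit 4722438541563194769410) (nat_lit 1208925820177579161681920) (nat_lit 0) (nat_lit 1)) (.cons (.rf (nat_lit 592) (nat_lit 493858305440582043680)) (.cons (.br (nat_lit 4) (nat_lit 0) (.cons (.ev (nat_lit 79229376162450716571652390913) (nat_lit 1)) .nil)) .nil)))),
 (.br (nat_lit 3) (nat_lit 0) (.cons (.ev (nat_lit 79229376162450716571635548416) (nat_lit 1)) (.cons (.rf (nat_lit 592) (nat_lit 493858305440582043680)) (.cons (.br (nat_lit 4) (nat_lit 0) (.cons (.ev (nat_lit 1223166923339331694364162) (nat_lit 3)) .nil)) .nil)))),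
 (.br (nat_lit 2) (nat_lit 0) (.cons (.rf (nat_lit 515) (nat_lit 493858305440581979200)) (.cons (.rf (nat_lit 589) (nat_lit 493858305440582042688)) (.cons (.rf (nat_lit 591) (nat_lit 493858305440582043680)) (.cons (.br (nat_lit 3) (nat_lit 0) (.cons (.rf (nat_lit 589) (nat_lit 493858305440582009952)) (.cons (.rf (nat_lit 593) (nat_lit 493858305440582043680)) (.cons (.rf (nat_lit 594) (nat_lit 493858305440582043680)) (.cons (.br (nat_lit 3) (nat_lit 0) (.cons (.ev (nat_lit 20282410817318303548098564129025) (nat_lit 1)) (.cons (.rf (nat_lit 593) (nat_lit 493858305440582043680)) (.cons (.rf (nat_lit 594) (nat_lit 493858305440582043680)) .nil)))) .nil))))) .nil))))),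
 (.br (nat_lit 2) (nat_lit 0) (.cons (.rf (nat_lit 515) (nat_lit 493858305440581979200)) (.cons (.rf (nat_lit 589) (nat_lit 493858305440582042688)) (.cons (.rf (nat_lit 591) (nat_lit 493858305440582043680)) (.cons (.rf (nat_lit 595) (nat_lit 493858305440582043680)) (.cons (.br (nat_lit 2) (nat_lit 0) (.cons (.rf (nat_lit 515) (nat_lit 493858305440581979200)) (.cons (.ev (nat_lit 4740813509522138136833) (nat_lit 1)) (.cons (.rf (nat_lit 591) (nat_lit 493858305440582043680)) (.cons (.rf (nat_lit 595) (nat_lit 493858305440582043680)) .nil))))) .nil)))))),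
 (.br (nat_lit 2) (nat_lit 0) (.cons (.rf (nat_lit 589) (nat_lit 493858305440582042688)) (.cons (.br (nat_lit 4) (nat_lit 0) (.cons (.ev (nat_lit 81605008603377852843768542396928) (nat_lit 3)) .nil)) (.cons (.br (nat_lit 4) (nat_lit 0) (.cons (.ev (nat_lit 20361637770888301525889712128256) (nat_lit 1)) .nil)) .nil)))),
 (.br (nat_lit 3) (nat_lit 0) (.cons (.rf (nat_lit 515) (nat_lit 493858305440581979200)) (.cons (.kr (nat_lit 72057594037927937) (nat_lit 281474993487872) (nat_lit 0) (nat_lit 1)) (.cons (.rf (nat_lit 596) (nat_lit 493858305440582043680)) (.cons (.br (nat_lit 2) (nat_lit 0) (.cons (.rf (nat_lit 589) (nat_lit 493858305440582042688)) (.cons (.rf (nat_lit 597) (nat_lit 493858305440582043680)) (.cons (.br (nat_lit 2) (nat_lit 0) (.cons (.rf (nat_lit 578) (nat_lit 9668288770981594176)) (.cons (.rf (nat_lit 597) (nat_lit 493858305440582043680)) (.cons (.rf (nat_lit 597) (nat_lit 230986506996392429664)) .nil)))) (.cons (.br (nat_lit 2) (nat_lit 0) (.cons (.rf (nat_lit 589) (nat_lit 493858305440582042688))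 (.cons (.rf (nat_lit 597) (nat_lit 493858305440582043680)) (.cons (.rf (nat_lit 597) (nat_lit 230986506996392429664)) .nil)))) .nil))))) .nil))))),
 (.br (nat_lit 3) (nat_lit 0) (.cons (.rf (nat_lit 515) (nat_lit 493858305440581979200)) (.cons (.rf (nat_lit 589) (nat_lit 493858305440582009952)) (.cons (.rf (nat_lit 596) (nat_lit 493858305440582043680)) (.cons (.rf (nat_lit 598) (nat_lit 493858305440582043680)) (.cons (.br (nat_lit 3) (nat_lit 0) (.cons (.rf (nat_lit 515) (nat_lit 493858305440581979200)) (.cons (.rf (nat_lit 589) (nat_lit 493858305440582009952)) (.cons (.rf (nat_lit 596) (nat_lit 493858305440582043680)) (.cons (.rf (nat_lit 598) (nat_lit 493858305440582043680)) .nil))))) .nil)))))),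
 (.br (nat_lit 3) (nat_lit 0) (.cons (.rf (nat_lit 515) (nat_lit 493858305440581979200)) (.cons (.rf (nat_lit 589) (nat_lit 493858305440582009952)) (.cons (.rf (nat_lit 596) (nat_lit 493858305440582043680)) (.cons (.rf (nat_lit 599) (nat_lit 493858305440582043680)) (.cons (.br (nat_lit 3) (nat_lit 0) (.cons (.rf (nat_lit 515) (nat_lit 493858305440581979200)) (.cons (.rf (nat_lit 589) (nat_lit 493858305440582009952)) (.cons (.rf (nat_lit 596) (nat_lit 493858305440582043680)) (.cons (.rf (nat_lit 599) (nat_lit 493858305440582043680)) .nil))))) .nil)))))),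
 (.br (nat_lit 3) (nat_lit 0) (.cons (.rf (nat_lit 515) (nat_lit 493858305440581979200)) (.cons (.rf (nat_lit 589) (nat_lit 493858305440582009952)) (.cons (.rf (nat_lit 596) (nat_lit 493858305440582043680)) (.cons (.rf (nat_lit 599) (nat_lit 493858305440582043680)) (.cons (.rf (nat_lit 600) (nat_lit 493858305440582043680)) (.cons (.br (nat_lit 3) (nat_lit 0) (.cons (.rf (nat_lit 515) (nat_lit 493858305440581979200)) (.cons (.rf (nat_lit 589) (nat_lit 493858305440582009952)) (.cons (.rf (nat_lit 596) (nat_lit 493858305440582043680)) (.cons (.rf (nat_lit 599) (nat_lit 493858305440582043680)) (.cons (.rf (nat_lit 600) (nat_lit 493858305440582043680)) .nil)))))) .nil))))))),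
 (.br (nat_lit 2) (nat_lit 0) (.cons (.rf (nat_lit 515) (nat_lit 493858305440581979200)) (.cons (.rf (nat_lit 589) (nat_lit 493858305440582042688)) (.cons (.rf (nat_lit 601) (nat_lit 493858305440582043680)) (.cons (.br (nat_lit 3) (nat_lit 0) (.cons (.rf (nat_lit 589) (nat_lit 493858305440582009952)) (.cons (.rf (nat_lit 601) (nat_lit 493858305440582011936)) (.cons (.br (nat_lit 3) (nat_lit 0) (.cons (.ev (nat_lit 79229376162522492690713542913) (nat_lit 1)) (.cons (.rf (nat_lit 601) (nat_lit 493858305440582011936)) (.cons (.rf (nat_lit 601) (nat_lit 230986506996392429664)) .nil)))) (.cons (.br (nat_lit 3) (nat_lit 0) (.cons (.rf (nat_lit 578) (nat_lit 7395094631052018784)) (.cons (.rf (nat_lit 601) (nat_lit 493858305440582011936)) (.cons (.rf (nat_lit 601) (nat_lit 230986506996392429664)) .nil)))) .nil))))) .nil))))),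
 (.br (nat_lit 2) (nat_lit 0) (.cons (.rf (nat_lit 515) (nat_lit 493858305440581979200)) (.cons (.rf (nat_lit 589) (nat_lit 493858305440582042688)) (.cons (.rf (nat_lit 601) (nat_lit 493858305440582043680)) (.cons (.rf (nat_lit 602) (nat_lit 493858305440582043680)) (.cons (.br (nat_lit 2) (nat_lit 0) (.cons (.rf (nat_lit 515) (nat_lit 493858305440581979200)) (.cons (.rf (nat_lit 589) (nat_lit 493858305440582042688)) (.cons (.rf (nat_lit 601) (nat_lit 493858305440582043680)) (.cons (.rf (nat_lit 602) (nat_lit 493858305440582043680)) .nil))))) .nil)))))),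
 (.br (nat_lit 3) (nat_lit 0) (.cons (.rf (nat_lit 515) (nat_lit 493858305440581979200)) (.cons (.rf (nat_lit 589) (nat_lit 493858305440582009952)) (.cons (.rf (nat_lit 601) (nat_lit 493858305440582011936)) (.cons (.rf (nat_lit 603) (nat_lit 493858305440582043680)) (.cons (.br (nat_lit 3) (nat_lit 0) (.cons (.rf (nat_lit 515) (nat_lit 493858305440581979200)) (.cons (.rf (nat_lit 589) (nat_lit 493858305440582009952)) (.cons (.rf (nat_lit 601) (nat_lit 493858305440582011936)) (.cons (.rf (nat_lit 603) (nat_lit 493858305440582043680)) .nil))))) .nil)))))),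
 (.br (nat_lit 3) (nat_lit 0) (.cons (.rf (nat_lit 515) (nat_lit 493858305440581979200)) (.cons (.rf (nat_lit 589) (nat_lit 493858305440582009952)) (.cons (.rf (nat_lit 601) (nat_lit 493858305440582011936)) (.cons (.rf (nat_lit 603) (nat_lit 493858305440582043680)) (.cons (.rf (nat_lit 604) (nat_lit 493858305440582043680)) (.cons (.br (nat_lit 3) (nat_lit 0) (.cons (.rf (nat_lit 515) (nat_lit 493858305440581979200)) (.cons (.rf (nat_lit 589) (nat_lit 493858305440582009952)) (.cons (.rf (nat_lit 601) (nat_lit 493858305440582011936)) (.cons (.rf (nat_lit 603) (nat_lit 493858305440582043680)) (.cons (.rf (nat_lit 604) (nat_lit 493858305440582043680)) .nil)))))) .nil))))))),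
 (.br (nat_lit 3) (nat_lit 0) (.cons (.rf (nat_lit 515) (nat_lit 493858305440581979200)) (.cons (.rf (nat_lit 589) (nat_lit 493858305440582009952)) (.cons (.rf (nat_lit 601) (nat_lit 493858305440582011936)) (.cons (.rf (nat_lit 605) (nat_lit 493858305440582011936)) (.cons (.br (nat_lit 3) (nat_lit 0) (.cons (.rf (nat_lit 515) (nat_lit 493858305440581979200)) (.cons (.rf (nat_lit 589) (nat_lit 493858305440582009952)) (.cons (.rf (nat_lit 601) (nat_lit 493858305440582011936)) (.cons (.rf (nat_lit 605) (nat_lit 493858305440582011936)) .nil))))) .nil)))))),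
 (.br (nat_lit 3) (nat_lit 0) (.cons (.rf (nat_lit 515) (nat_lit 493858305440581979200)) (.cons (.rf (nat_lit 589) (nat_lit 493858305440582009952)) (.cons (.rf (nat_lit 601) (nat_lit 493858305440582011936)) (.cons (.rf (nat_lit 605) (nat_lit 493858305440582011936)) (.cons (.rf (nat_lit 606) (nat_lit 493858305440582043680)) (.cons (.br (nat_lit 3) (nat_lit 0) (.cons (.rf (nat_lit 515) (nat_lit 493858305440581979200)) (.cons (.rf (nat_lit 589) (nat_lit 493858305440582009952)) (.cons (.rf (nat_lit 601) (nat_lit 493858305440582011936)) (.cons (.rf (nat_lit 605) (nat_lit 493858305440582011936)) (.cons (.rf (nat_lit 606) (nat_lit 493858305440582043680)) .nil)))))) .nil))))))),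
 (.br (nat_lit 2) (nat_lit 0) (.cons (.rf (nat_lit 515) (nat_lit 493858305440581979200)) (.cons (.rf (nat_lit 589) (nat_lit 493858305440582042688)) (.cons (.rf (nat_lit 601) (nat_lit 493858305440582043680)) (.cons (.rf (nat_lit 605) (nat_lit 493858305440582043680)) (.cons (.rf (nat_lit 607) (nat_lit 493858305440582043680)) (.cons (.br (nat_lit 2) (nat_lit 0) (.cons (.rf (nat_lit 515) (nat_lit 493858305440581979200)) (.cons (.rf (nat_lit 589) (nat_lit 493858305440582042688)) (.cons (.rf (nat_lit 601) (nat_lit 493858305440582043680)) (.cons (.rf (nat_lit 605) (nat_lit 493858305440582043680)) (.cons (.rf (nat_lit 607) (nat_lit 493858305440582043680)) .nil)))))) .nil))))))),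
 (.br (nat_lit 2) (nat_lit 0) (.cons (.rf (nat_lit 515) (nat_lit 493858305440581979200)) (.cons (.rf (nat_lit 589) (nat_lit 493858305440582042688)) (.cons (.rf (nat_lit 601) (nat_lit 493858305440582043680)) (.cons (.rf (nat_lit 605) (nat_lit 493858305440582043680)) (.cons (.rf (nat_lit 607) (nat_lit 493858305440582043680)) (.cons (.rf (nat_lit 608) (nat_lit 493858305440582043680)) (.cons (.br (nat_lit 2) (nat_lit 0) (.cons (.rf (nat_lit 515) (nat_lit 493858305440581979200)) (.cons (.rf (nat_lit 589) (nat_lit 493858305440582042688)) (.cons (.rf (nat_lit 601) (nat_lit 493858305440582043680)) (.cons (.rf (nat_lit 605) (nat_lit 493858305440582043680)) (.cons (.rf (nat_lit 607) (nat_lit 493858305440582043680)) (.cons (.rf (nat_lit 608) (nat_lit 493858305440582043680)) .nil))))))) .nil)))))))),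
 (.br (nat_lit 3) (nat_lit 0) (.cons (.kr (nat_lit 4722438541563194769410) (nat_lit 1208925820177579161681920) (nat_lit 0) (nat_lit 1)) (.cons (.br (nat_lit 4) (nat_lit 0) (.cons (.ev (nat_lit 79228167292116014504953774336) (nat_lit 2)) .nil)) .nil))),
 (.br (nat_lit 4) (nat_lit 0) (.cons (.ev (nat_lit 309485009821346172548218881) (nat_lit 1)) .nil)),
 (.br (nat_lit 3) (nat_lit 0) (.cons (.ev (nat_lit 79228162514264338697350545664) (nat_lit 1)) (.cons (.rf (nat_lit 592) (nat_lit 492741412732994160672)) (.cons (.br (nat_lit 4) (nat_lit 0) (.cons (.ev (nat_lit 20520096509064622313187011789315) (nat_lit 2)) .nil)) .nil)))),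
 (.br (nat_lit 2) (nat_lit 0) (.cons (.rf (nat_lit 515) (nat_lit 493858305440581979200)) (.cons (.rf (nat_lit 589) (nat_lit 493858305440582042688)) (.cons (.br (nat_lit 3) (nat_lit 0) (.cons (.rf (nat_lit 589) (nat_lit 493858305440582009952)) (.cons (.rf (nat_lit 610) (nat_lit 493858305440582043680)) (.cons (.br (nat_lit 3) (nat_lit 0) (.cons (.rf (nat_lit 589) (nat_lit 493858305440582009952)) (.cons (.rf (nat_lit 610) (nat_lit 493858305440582043680)) .nil))) .nil)))) (.cons (.br (nat_lit 3) (nat_lit 0) (.cons (.rf (nat_lit 589) (nat_lit 493858305440582009952)) (.cons (.br (nat_lit 3) (nat_lit 0) (.cons (.kr (nat_lit 4722438541563194769410) (nat_lit 1208925820177579161681920) (nat_lit 0) (nat_lit 1)) (.cons (.rf (nat_lit 592) (nat_lit 492741412732994160672)) (.cons (.rf (nat_lit 611) (nat_lit 15433070910038444064)) .nil)))) (.cons (.rf (nat_lit 612) (nat_lit 493858305440582043680)) (.cons (.br (nat_lit 3) (nat_lit 0) (.cons (.ev (nat_lit 20282410817318303548098564129025) (nat_lit 1)) (.cons (.rf (nat_lit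 611) (nat_lit 15433070910038444064)) (.cons (.rf (nat_lit 612) (nat_lit 493858305440582043680)) .nil)))) .nil))))) .nil))))),
 (.br (nat_lit 2) (nat_lit 0) (.cons (.rf (nat_lit 515) (nat_lit 493858305440581979200)) (.cons (.ev (nat_lit 79228162514264619072815693824) (nat_lit 1)) (.cons (.rf (nat_lit 613) (nat_lit 493858305440582043680)) (.cons (.br (nat_lit 4) (nat_lit 0) (.cons (.rf (nat_lit 589) (nat_lit 493858305440582009952)) (.cons (.br (nat_lit 11) (nat_lit 0) (.cons (.br (nat_lit 3) (nat_lit 0) (.cons (.ev (nat_lit 79228167292115449356010651906) (nat_lit 2)) .nil)) (.cons (.ev (nat_lit 81288095972283759601244510225410) (nat_lit 3)) .nil))) (.cons (.ev (nat_lit 81288095972283760731542463315970) (nat_lit 3)) .nil)))) .nil)))))]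

theorem c23 : chkAll C T R L23 (nat_lit 590) = true := by decide +kernel

theorem l23 : (nat_lit 590) + L23.length = (nat_lit 615) := by decide +kernel

/-- part of the certificates -/
def L24 : List Prf := [(.br (nat_lit 2) (nat_lit 0) (.cons (.rf (nat_lit 515) (nat_lit 493858305440581979200)) (.cons (.rf (nat_lit 589) (nat_lit 493858305440582042688)) (.cons (.rf (nat_lit 613) (nat_lit 493858305440582043680)) (.cons (.rf (nat_lit 614) (nat_lit 493858305440582043680)) (.cons (.br (nat_lit 2) (nat_lit 0) (.cons (.rf (nat_lit 515) (nat_lit 493858305440581979200)) (.cons (.rf (nat_lit 589) (nat_lit 493858305440582042688)) (.cons (.rf (nat_lit 613) (nat_lit 493858305440582043680)) (.cons (.rf (nat_lit 614) (nat_lit 493858305440582043680)) .nil))))) .nil)))))),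
 (.br (nat_lit 3) (nat_lit 0) (.cons (.rf (nat_lit 515) (nat_lit 493858305440581979200)) (.cons (.rf (nat_lit 589) (nat_lit 493858305440582009952)) (.cons (.rf (nat_lit 615) (nat_lit 493858305440582043680)) (.cons (.br (nat_lit 3) (nat_lit 0) (.cons (.rf (nat_lit 515) (nat_lit 493858305440581979200)) (.cons (.ev (nat_lit 79229376162450716571652325633) (nat_lit 1)) (.cons (.rf (nat_lit 615) (nat_lit 493858305440582043680)) (.cons (.rf (nat_lit 609) (nat_lit 230986506996392461408)) .nil))))) (.cons (.br (nat_lit 3) (nat_lit 0) (.cons (.rf (nat_lit 515) (nat_lit 493858305440581979200)) (.cons (.rf (nat_lit 589) (nat_lit 493858305440582009952)) (.cons (.rf (nat_lit 615) (nat_lit 493858305440582043680)) (.cons (.rf (nat_lit 609) (nat_lit 230986506996392461408)) .nil))))) .nil)))))),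
 (.br (nat_lit 3) (nat_lit 0) (.cons (.rf (nat_lit 515) (nat_lit 493858305440581979200)) (.cons (.ev (nat_lit 79229376162522492690696765696) (nat_lit 1)) (.cons (.rf (nat_lit 615) (nat_lit 493858305440582043680)) (.cons (.rf (nat_lit 616) (nat_lit 493858305440582043680)) (.cons (.br (nat_lit 3) (nat_lit 0) (.cons (.rf (nat_lit 515) (nat_lit 493858305440581979200)) (.cons (.ev (nat_lit 79229376162522492690696765696) (nat_lit 1)) (.cons (.rf (nat_lit 615) (nat_lit 493858305440582043680)) (.cons (.rf (nat_lit 609) (nat_lit 230986506996392461408)) .nil))))) .nil)))))),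
 (.br (nat_lit 3) (nat_lit 0) (.cons (.rf (nat_lit 515) (nat_lit 493858305440581979200)) (.cons (.rf (nat_lit 589) (nat_lit 493858305440582009952)) (.cons (.rf (nat_lit 615) (nat_lit 493858305440582043680)) (.cons (.rf (nat_lit 616) (nat_lit 493858305440582043680)) (.cons (.rf (nat_lit 617) (nat_lit 493858305440582043680)) (.cons (.br (nat_lit 3) (nat_lit 0) (.cons (.rf (nat_lit 515) (nat_lit 493858305440581979200)) (.cons (.rf (nat_lit 589) (nat_lit 493858305440582009952)) (.cons (.rf (nat_lit 615) (nat_lit 493858305440582043680)) (.cons (.rf (nat_lit 616) (nat_lit 493858305440582043680)) (.cons (.rf (nat_lit 617) (nat_lit 493858305440582043680)) .nil)))))) .nil))))))),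
 (.br (nat_lit 3) (nat_lit 0) (.cons (.rf (nat_lit 515) (nat_lit 493858305440581979200)) (.cons (.rf (nat_lit 589) (nat_lit 493858305440582009952)) (.cons (.rf (nat_lit 618) (nat_lit 493858305440582011936)) (.cons (.br (nat_lit 3) (nat_lit 0) (.cons (.rf (nat_lit 515) (nat_lit 493858305440581979200)) (.cons (.ev (nat_lit 79229376162522492690696765696) (nat_lit 1)) (.cons (.rf (nat_lit 618) (nat_lit 493858305440582011936)) (.cons (.rf (nat_lit 609) (nat_lit 230986506996392461408)) .nil))))) (.cons (.br (nat_lit 3) (nat_lit 0) (.cons (.rf (nat_lit 515) (nat_lit 493858305440581979200)) (.cons (.rf (nat_lit 589) (nat_lit 493858305440582009952)) (.cons (.rf (nat_lit 618) (nat_lit 493858305440582011936)) (.cons (.rf (nat_lit 609) (nat_lit 230986506996392461408)) .nil))))) .nil)))))),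
 (.br (nat_lit 3) (nat_lit 0) (.cons (.rf (nat_lit 515) (nat_lit 493858305440581979200)) (.cons (.ev (nat_lit 79229376162522492690696765696) (nat_lit 1)) (.cons (.rf (nat_lit 618) (nat_lit 493858305440582011936)) (.cons (.rf (nat_lit 619) (nat_lit 493858305440582043680)) (.cons (.br (nat_lit 3) (nat_lit 0) (.cons (.rf (nat_lit 515) (nat_lit 493858305440581979200)) (.cons (.ev (nat_lit 79229376162522492690696765696) (nat_lit 1)) (.cons (.rf (nat_lit 618) (nat_lit 493858305440582011936)) (.cons (.rf (nat_lit 609) (nat_lit 230986506996392461408)) .nil))))) .nil)))))),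
 (.br (nat_lit 3) (nat_lit 0) (.cons (.rf (nat_lit 515) (nat_lit 493858305440581979200)) (.cons (.rf (nat_lit 589) (nat_lit 493858305440582009952)) (.cons (.rf (nat_lit 618) (nat_lit 493858305440582011936)) (.cons (.rf (nat_lit 619) (nat_lit 493858305440582043680)) (.cons (.rf (nat_lit 620) (nat_lit 493858305440582043680)) (.cons (.br (nat_lit 3) (nat_lit 0) (.cons (.rf (nat_lit 515) (nat_lit 493858305440581979200)) (.cons (.rf (nat_lit 589) (nat_lit 493858305440582009952)) (.cons (.rf (nat_lit 618) (nat_lit 493858305440582011936)) (.cons (.rf (nat_lit 619) (nat_lit 493858305440582043680)) (.cons (.rf (nat_lit 620) (nat_lit 493858305440582043680)) .nil)))))) .nil))))))),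
 (.br (nat_lit 2) (nat_lit 0) (.cons (.rf (nat_lit 515) (nat_lit 493858305440581979200)) (.cons (.rf (nat_lit 589) (nat_lit 493858305440582042688)) (.cons (.rf (nat_lit 618) (nat_lit 493858305440582043680)) (.cons (.rf (nat_lit 621) (nat_lit 493858305440582043680)) (.cons (.br (nat_lit 2) (nat_lit 0) (.cons (.rf (nat_lit 515) (nat_lit 493858305440581979200)) (.cons (.ev (nat_lit 79229376162522492690696765696) (nat_lit 1)) (.cons (.rf (nat_lit 618) (nat_lit 493858305440582043680)) (.cons (.rf (nat_lit 621) (nat_lit 493858305440582043680)) (.cons (.rf (nat_lit 609) (nat_lit 230986506996392494144)) .nil)))))) (.cons (.br (nat_lit 2) (nat_lit 0) (.cons (.rf (nat_lit 515) (nat_lit 493858305440581979200)) (.cons (.rf (nat_lit 589) (nat_lit 493858305440582042688)) (.cons (.rf (nat_lit 618) (nat_lit 493858305440582043680)) (.cons (.rf (nat_lit 621) (nat_lit 493858305440582043680)) (.cons (.rf (nat_lit 609) (nat_lit 230986506996392494144)) .nil)))))) .nil))))))),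
 (.br (nat_lit 3) (nat_lit 0) (.cons (.rf (nat_lit 515) (nat_lit 493858305440581979200)) (.cons (.rf (nat_lit 589) (nat_lit 493858305440582009952)) (.cons (.rf (nat_lit 618) (nat_lit 493858305440582011936)) (.cons (.rf (nat_lit 621) (nat_lit 493858305440582011936)) (.cons (.rf (nat_lit 622) (nat_lit 493858305440582011936)) (.cons (.br (nat_lit 3) (nat_lit 0) (.cons (.rf (nat_lit 515) (nat_lit 493858305440581979200)) (.cons (.rf (nat_lit 589) (nat_lit 493858305440582009952)) (.cons (.rf (nat_lit 618) (nat_lit 493858305440582011936)) (.cons (.rf (nat_lit 621) (nat_lit 493858305440582011936)) (.cons (.rf (nat_lit 622) (nat_lit 493858305440582011936)) .nil)))))) .nil))))))),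
 (.br (nat_lit 2) (nat_lit 0) (.cons (.rf (nat_lit 515) (nat_lit 493858305440581979200)) (.cons (.rf (nat_lit 589) (nat_lit 493858305440582042688)) (.cons (.rf (nat_lit 618) (nat_lit 493858305440582043680)) (.cons (.rf (nat_lit 621) (nat_lit 493858305440582043680)) (.cons (.rf (nat_lit 622) (nat_lit 493858305440582043680)) (.cons (.rf (nat_lit 623) (nat_lit 493858305440582043680)) (.cons (.br (nat_lit 2) (nat_lit 0) (.cons (.rf (nat_lit 515) (nat_lit 493858305440581979200)) (.cons (.rf (nat_lit 589) (nat_lit 493858305440582042688)) (.cons (.rf (nat_lit 618) (nat_lit 493858305440582043680)) (.cons (.rf (nat_lit 621) (nat_lit 493858305440582043680)) (.cons (.rf (nat_lit 622) (nat_lit 493858305440582043680)) (.cons (.rf (nat_lit 623) (nat_lit 493858305440582043680)) .nil))))))) .nil)))))))),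
 (.br (nat_lit 2) (nat_lit 0) (.cons (.rf (nat_lit 515) (nat_lit 493858305440582043680)) (.cons (.rf (nat_lit 515) (nat_lit 493858305440581979200)) (.cons (.rf (nat_lit 589) (nat_lit 493858305440582042688)) (.cons (.rf (nat_lit 609) (nat_lit 493858305440582042688)) (.cons (.rf (nat_lit 624) (nat_lit 493858305440582042688)) (.cons (.kr (nat_lit 40564819207303412906588052127744) (nat_lit 1213648186660448773341184) (nat_lit 5) (nat_lit 0)) .nil))))))),
 (.br (nat_lit 3) (nat_lit 0) (.cons (.br (nat_lit 3) (nat_lit 0) (.cons (.ev (nat_lit 79228167255149622135231676673) (nat_lit 1)) .nil)) (.cons (.ev (nat_lit 79228167255149622135231676673) (nat_lit 1)) .nil))),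
 (.br (nat_lit 3) (nat_lit 0) (.cons (.ev (nat_lit 20282409603670117450599744143361) (nat_lit 1)) (.cons (.br (nat_lit 3) (nat_lit 0) (.cons (.ev (nat_lit 20282409603670117450599744143361) (nat_lit 1)) .nil)) .nil))),
 (.br (nat_lit 2) (nat_lit 0) (.cons (.rf (nat_lit 515) (nat_lit 493858305440581979200)) (.cons (.rf (nat_lit 589) (nat_lit 493858305440582042688)) (.cons (.rf (nat_lit 609) (nat_lit 493858305440582042688)) (.cons (.br (nat_lit 4) (nat_lit 0) (.cons (.rf (nat_lit 589) (nat_lit 493858305440582009952)) (.cons (.br (nat_lit 3) (nat_lit 0) (.cons (.rf (nat_lit 626) (nat_lit 15433072043909810208)) (.cons (.br (nat_lit 3) (nat_lit 0) (.cons (.rf (nat_lit 626) (nat_lit 15433072043909810208)) (.cons (.ev (nat_lit 20282409603670189226718805426433) (nat_lit 1)) .nil))) (.cons (.ev (nat_lit 20282409603670189226718805426433) (nat_lit 1)) .nil)))) (.cons (.br (nat_lit 12) (nat_lit 0) (.cons (.br (nat_lit 3) (nat_lit 0) (.cons (.br (nat_lit 3) (nat_lit 0) (.cons (.ev (nat_lit 20520094100657715204143527952386)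 (nat_lit 2)) .nil)) (.cons (.rf (nat_lit 625) (nat_lit 230986506996392463392)) .nil))) (.cons (.ev (nat_lit 79228162514264338697350610944) (nat_lit 1)) (.cons (.ev (nat_lit 79228162514336677766365184256) (nat_lit 1)) .nil)))) (.cons (.ev (nat_lit 79229376162450436196170530816) (nat_lit 1)) (.cons (.br (nat_lit 3) (nat_lit 0) (.cons (.ev (nat_lit 20282410817318375604593090363393) (nat_lit 1)) (.cons (.rf (nat_lit 627) (nat_lit 493858305440582043680)) (.cons (.rf (nat_lit 627) (nat_lit 492741412732994160672)) .nil)))) .nil)))))) (.cons (.kr (nat_lit 40564819207303412906588052127744) (nat_lit 1213648186660448773341184) (nat_lit 5) (nat_lit 0)) .nil)))))),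
 (.br (nat_lit 2) (nat_lit 0) (.cons (.rf (nat_lit 515) (nat_lit 493858305440581979200)) (.cons (.rf (nat_lit 589) (nat_lit 493858305440582042688)) (.cons (.rf (nat_lit 625) (nat_lit 493858305440582043680)) (.cons (.rf (nat_lit 628) (nat_lit 493858305440582043680)) (.cons (.br (nat_lit 2) (nat_lit 0) (.cons (.rf (nat_lit 515) (nat_lit 493858305440581979200)) (.cons (.rf (nat_lit 589) (nat_lit 493858305440582042688)) (.cons (.rf (nat_lit 624) (nat_lit 493858305440582042688)) (.cons (.rf (nat_lit 628) (nat_lit 493858305440582043680)) (.cons (.kr (nat_lit 40564819207303412906588052127744) (nat_lit 1213648186660448773341184) (nat_lit 5) (nat_lit 0)) .nil)))))) (.cons (.kr (nat_lit 40564819207303412906588052127744) (nat_lit 1213648186660448773341184) (nat_lit 5) (nat_lit 0)) .nil))))))),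
 (.br (nat_lit 3) (nat_lit 0) (.cons (.rf (nat_lit 515) (nat_lit 493858305440581979200)) (.cons (.rf (nat_lit 589) (nat_lit 493858305440582009952)) (.cons (.rf (nat_lit 629) (nat_lit 493858305440582011936)) (.cons (.br (nat_lit 3) (nat_lit 0) (.cons (.rf (nat_lit 515) (nat_lit 493858305440581979200)) (.cons (.rf (nat_lit 589) (nat_lit 493858305440582009952)) (.cons (.rf (nat_lit 629) (nat_lit 493858305440582011936)) (.cons (.rf (nat_lit 609) (nat_lit 230986506996392461408)) .nil))))) (.cons (.br (nat_lit 3) (nat_lit 0) (.cons (.rf (nat_lit 515) (nat_lit 493858305440581979200)) (.cons (.rf (nat_lit 589) (nat_lit 493858305440582009952)) (.cons (.kr (nat_lit 40564819207303412906588052127744) (nat_lit 1213648186660448773341184) (nat_lit 5) (nat_lit 0)) (.cons (.rf (nat_lit 609) (nat_lit 230986506996392461408)) .nil))))) .nil)))))),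
 (.br (nat_lit 3) (nat_lit 0) (.cons (.rf (nat_lit 515) (nat_lit 493858305440581979200)) (.cons (.rf (nat_lit 589) (nat_lit 493858305440582009952)) (.cons (.rf (nat_lit 629) (nat_lit 493858305440582011936)) (.cons (.rf (nat_lit 630) (nat_lit 493858305440582043680)) (.cons (.br (nat_lit 3) (nat_lit 0) (.cons (.rf (nat_lit 515) (nat_lit 493858305440581979200)) (.cons (.rf (nat_lit 589) (nat_lit 493858305440582009952)) (.cons (.rf (nat_lit 629) (nat_lit 493858305440582011936)) (.cons (.rf (nat_lit 630) (nat_lit 493858305440582043680)) (.cons (.rf (nat_lit 625) (nat_lit 230986506996392463392)) .nil)))))) (.cons (.br (nat_lit 3) (nat_lit 0) (.cons (.rf (nat_lit 515) (nat_lit 493858305440581979200)) (.cons (.rf (nat_lit 589) (nat_lit 493858305440582009952)) (.cons (.kr (nat_lit 40564819207303412906588052127744) (nat_lit 1213648186660448773341184) (nat_lit 5) (nat_lit 0)) (.cons (.rf (nat_lit 630) (nat_lit 493858305440582043680)) (.cons (.rf (nat_lit 625) (nat_lit 230986506996392463392)) .nil)))))) .nil))))))),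
 (.br (nat_lit 2) (nat_lit 0) (.cons (.rf (nat_lit 515) (nat_lit 493858305440581979200)) (.cons (.rf (nat_lit 589) (nat_lit 493858305440582042688)) (.cons (.rf (nat_lit 629) (nat_lit 493858305440582043680)) (.cons (.rf (nat_lit 631) (nat_lit 493858305440582043680)) (.cons (.br (nat_lit 2) (nat_lit 0) (.cons (.rf (nat_lit 515) (nat_lit 493858305440581979200)) (.cons (.rf (nat_lit 589) (nat_lit 493858305440582042688)) (.cons (.rf (nat_lit 629) (nat_lit 493858305440582043680)) (.cons (.rf (nat_lit 631) (nat_lit 493858305440582043680)) (.cons (.rf (nat_lit 609) (nat_lit 230986506996392494144)) .nil)))))) (.cons (.br (nat_lit 2) (nat_lit 0) (.cons (.rf (nat_lit 515) (nat_lit 493858305440581979200)) (.cons (.rf (nat_lit 589) (nat_lit 493858305440582042688)) (.cons (.kr (nat_lit 40564819207303412906588052127744) (nat_lit 1213648186660448773341184) (nat_lit 5) (nat_lit 0)) (.cons (.rf (nat_lit 631) (nat_lit 493858305440582043680)) (.cons (.rf (nat_lit 609) (nat_lit 230986506996392494144)) .nil)))))) .nil))))))),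
 (.br (nat_lit 2) (nat_lit 0) (.cons (.rf (nat_lit 515) (nat_lit 493858305440581979200)) (.cons (.rf (nat_lit 589) (nat_lit 493858305440582042688)) (.cons (.rf (nat_lit 629) (nat_lit 493858305440582043680)) (.cons (.rf (nat_lit 631) (nat_lit 493858305440582043680)) (.cons (.rf (nat_lit 632) (nat_lit 493858305440582043680)) (.cons (.rf (nat_lit 625) (nat_lit 230986506996392495136)) .nil))))))),
 (.br (nat_lit 1) (nat_lit 0) (.cons (.rf (nat_lit 515) (nat_lit 493858305440582043680)) (.cons (.rf (nat_lit 515) (nat_lit 493858305440582011936)) (.cons (.rf (nat_lit 589) (nat_lit 493858305440582043680)) (.cons (.rf (nat_lit 609) (nat_lit 493858305440582043680)) (.cons (.rf (nat_lit 624) (nat_lit 493858305440582043680)) (.cons (.br (nat_lit 2) (nat_lit 0) (.cons (.rf (nat_lit 515) (nat_lit 493858305440581979200)) (.cons (.rf (nat_lit 589) (nat_lit 493858305440582042688)) (.cons (.rf (nat_lit 629) (nat_lit 493858305440582043680)) (.cons (.rf (nat_lit 631) (nat_lit 493858305440582043680)) (.cons (.rf (nat_lit 632)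 (nat_lit 493858305440582043680)) (.cons (.rf (nat_lit 633) (nat_lit 493858305440582043680)) (.cons (.br (nat_lit 3) (nat_lit 0) (.cons (.rf (nat_lit 515) (nat_lit 493858305440581979200)) (.cons (.rf (nat_lit 589) (nat_lit 493858305440582009952)) (.cons (.rf (nat_lit 629) (nat_lit 493858305440582011936)) (.cons (.rf (nat_lit 631) (nat_lit 493858305440582011936)) (.cons (.rf (nat_lit 632) (nat_lit 493858305440582011936)) (.cons (.rf (nat_lit 633) (nat_lit 493858305440582011936)) .nil))))))) .nil)))))))) .nil))))))),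
 (.br (nat_lit 3) (nat_lit 0) (.cons (.br (nat_lit 3) (nat_lit 0) .nil) .nil))]

theorem c24 : chkAll C T R L24 (nat_lit 615) = true := by decide +kernel

theorem l24 : (nat_lit 615) + L24.length = (nat_lit 636) := by decide +kernel

/-- part of the certificates -/
def L25 : List Prf := [(.br (nat_lit 3) (nat_lit 0) (.cons (.rf (nat_lit 635) (nat_lit 9043225708576)) (.cons (.br (nat_lit 3) (nat_lit 0) (.cons (.rf (nat_lit 635) (nat_lit 9043225708576)) .nil)) .nil))),
 (.br (nat_lit 12) (nat_lit 0) (.cons (.rf (nat_lit 634) (nat_lit 230986506996392494144)) (.cons (.rf (nat_lit 634) (nat_lit 230986506996392461408)) (.cons (.kr (nat_lit 1208925891673322724261888) (nat_lit 4722367045819598635008) (nat_lit 5) (nat_lit 0)) (.cons (.ev (nat_lit 20361637770888373302008773345281) (nat_lit 1)) .nil))))),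
 (.br (nat_lit 2) (nat_lit 0) (.cons (.kr (nat_lit 4722438541563194769410) (nat_lit 1208925820177579128258560) (nat_lit 0) (nat_lit 1)) (.cons (.rf (nat_lit 636) (nat_lit 13580892211232)) (.cons (.br (nat_lit 13) (nat_lit 0) (.cons (.rf (nat_lit 637) (nat_lit 493858305440582043680)) (.cons (.ev (nat_lit 20282410817318303548098564063488) (nat_lit 1)) (.cons (.ev (nat_lit 20361638975091826716342791241728) (nat_lit 1)) .nil)))) .nil)))),
 (.br (nat_lit 2) (nat_lit 0) (.cons (.rf (nat_lit 515) (nat_lit 493858305440581979200)) (.cons (.rf (nat_lit 638) (nat_lit 493858305440582043680)) (.cons (.br (nat_lit 2) (nat_lit 0) (.cons (.rf (nat_lit 515) (nat_lit 493858305440581979200)) (.cons (.rf (nat_lit 636) (nat_lit 13580892211232)) (.cons (.rf (nat_lit 634) (nat_lit 230986506996392494144)) .nil)))) (.cons (.br (nat_lit 2) (nat_lit 0) (.cons (.rf (nat_lit 515) (nat_lit 493858305440581979200)) (.cons (.rf (nat_lit 638) (nat_lit 493858305440582043680)) (.cons (.rf (nat_lit 634) (nat_lit 230986506996392494144)) .nil))))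 .nil))))),
 (.br (nat_lit 3) (nat_lit 0) (.cons (.rf (nat_lit 515) (nat_lit 493858305440581979200)) (.cons (.rf (nat_lit 639) (nat_lit 493858305440582011936)) (.cons (.br (nat_lit 3) (nat_lit 0) (.cons (.rf (nat_lit 515) (nat_lit 493858305440581979200)) (.cons (.rf (nat_lit 639) (nat_lit 493858305440582011936)) (.cons (.rf (nat_lit 634) (nat_lit 230986506996392461408)) .nil)))) (.cons (.br (nat_lit 3) (nat_lit 0) (.cons (.rf (nat_lit 515) (nat_lit 493858305440581979200)) (.cons (.rf (nat_lit 639) (nat_lit 493858305440582011936)) (.cons (.rf (nat_lit 634) (nat_lit 230986506996392461408)) .nil)))) .nil))))),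
 (.br (nat_lit 3) (nat_lit 0) (.cons (.br (nat_lit 3) (nat_lit 0) .nil) .nil)),
 (.br (nat_lit 3) (nat_lit 0) (.cons (.rf (nat_lit 641) (nat_lit 9043225708576)) (.cons (.br (nat_lit 3) (nat_lit 0) (.cons (.rf (nat_lit 641) (nat_lit 9043225708576)) .nil)) .nil))),
 (.br (nat_lit 2) (nat_lit 0) (.cons (.rf (nat_lit 515) (nat_lit 493858305440581979200)) (.cons (.rf (nat_lit 636) (nat_lit 12313943966784)) (.cons (.rf (nat_lit 642) (nat_lit 13580892211232)) (.cons (.br (nat_lit 3) (nat_lit 0) (.cons (.ev (nat_lit 4740885285641199354113) (nat_lit 1)) (.cons (.br (nat_lit 3) (nat_lit 0) (.cons (.ev (nat_lit 4740885285641199354113) (nat_lit 1)) (.cons (.rf (nat_lit 634) (nat_lit 230986506996392461408)) .nil))) (.cons (.br (nat_lit 3) (nat_lit 0) (.cons (.ev (nat_lit 4740885285641199354113) (nat_lit 1)) (.cons (.rf (nat_lit 634) (nat_lit 230986506996392461408)) .nil))) .nil)))) .nil))))),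
 (.br (nat_lit 2) (nat_lit 0) (.cons (.rf (nat_lit 515) (nat_lit 493858305440581979200)) (.cons (.rf (nat_lit 634) (nat_lit 493858305440582042688)) (.cons (.rf (nat_lit 643) (nat_lit 493858305440582043680)) (.cons (.br (nat_lit 2) (nat_lit 0) (.cons (.rf (nat_lit 515) (nat_lit 493858305440581979200)) (.cons (.ev (nat_lit 316913892039947314514800804352) (nat_lit 3)) (.cons (.rf (nat_lit 642) (nat_lit 13580892211232)) (.cons (.rf (nat_lit 634) (nat_lit 230986506996392494144)) .nil))))) (.cons (.br (nat_lit 2) (nat_lit 0) (.cons (.rf (nat_lit 515) (nat_lit 493858305440581979200)) (.cons (.rf (nat_lit 634) (nat_lit 493858305440582042688)) (.cons (.rf (nat_lit 643) (nat_lit 493858305440582043680)) (.cons (.rf (nat_lit 634) (nat_lit 230986506996392494144)) .nil))))) .nil)))))),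
 (.br (nat_lit 2) (nat_lit 0) (.cons (.rf (nat_lit 515) (nat_lit 493858305440582043680)) (.cons (.rf (nat_lit 515) (nat_lit 493858305440581979200)) (.cons (.rf (nat_lit 634) (nat_lit 493858305440582042688)) (.cons (.br (nat_lit 2) (nat_lit 0) (.cons (.rf (nat_lit 515) (nat_lit 493858305440582043680)) (.cons (.rf (nat_lit 515) (nat_lit 493858305440581979200)) (.cons (.rf (nat_lit 634) (nat_lit 493858305440582042688)) (.cons (.rf (nat_lit 634) (nat_lit 230986506996392494144)) .nil))))) (.cons (.br (nat_lit 2) (nat_lit 0) (.cons (.rf (nat_lit 515) (nat_lit 493858305440582043680)) (.cons (.rf (nat_lit 515) (nat_lit 493858305440581979200)) (.cons (.rf (nat_lit 634) (nat_lit 493858305440582042688)) (.cons (.rf (nat_lit 634) (nat_lit 230986506996392494144)) .nil))))) .nil)))))),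
 (.br (nat_lit 3) (nat_lit 0) (.cons (.rf (nat_lit 515) (nat_lit 493858305440581979200)) (.cons (.rf (nat_lit 644) (nat_lit 493858305440582011936)) (.cons (.rf (nat_lit 645) (nat_lit 493858305440582043680)) (.cons (.br (nat_lit 3) (nat_lit 0) (.cons (.rf (nat_lit 515) (nat_lit 493858305440581979200)) (.cons (.rf (nat_lit 644) (nat_lit 493858305440582011936)) (.cons (.rf (nat_lit 645) (nat_lit 493858305440582043680)) (.cons (.rf (nat_lit 634) (nat_lit 230986506996392461408)) .nil))))) (.cons (.br (nat_lit 3) (nat_lit 0) (.cons (.rf (nat_lit 515) (nat_lit 493858305440581979200)) (.cons (.rf (nat_lit 644) (nat_lit 493858305440582011936)) (.cons (.rf (nat_lit 645) (nat_lit 493858305440582043680)) (.cons (.rf (nat_lit 634) (nat_lit 230986506996392461408)) .nil))))) .nil)))))),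
 (.br (nat_lit 3) (nat_lit 0) (.cons (.rf (nat_lit 515) (nat_lit 493858305440581979200)) (.cons (.rf (nat_lit 644) (nat_lit 493858305440582011936)) (.cons (.rf (nat_lit 645) (nat_lit 493858305440582011936)) (.cons (.br (nat_lit 3) (nat_lit 0) (.cons (.rf (nat_lit 515) (nat_lit 493858305440581979200)) (.cons (.rf (nat_lit 644) (nat_lit 493858305440582011936)) (.cons (.rf (nat_lit 645) (nat_lit 493858305440582011936)) (.cons (.rf (nat_lit 634) (nat_lit 230986506996392461408)) .nil))))) (.cons (.br (nat_lit 3) (nat_lit 0) (.cons (.rf (nat_lit 515) (nat_lit 493858305440581979200)) (.cons (.rf (nat_lit 644) (nat_lit 493858305440582011936)) (.cons (.rf (nat_lit 645) (nat_lit 493858305440582011936)) (.cons (.rf (nat_lit 634) (nat_lit 230986506996392461408)) .nil))))) .nil)))))),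
 (.br (nat_lit 2) (nat_lit 0) (.cons (.rf (nat_lit 515) (nat_lit 493858305440582043680)) (.cons (.rf (nat_lit 515) (nat_lit 493858305440581979200)) (.cons (.rf (nat_lit 634) (nat_lit 493858305440582042688)) (.cons (.br (nat_lit 2) (nat_lit 0) (.cons (.rf (nat_lit 515) (nat_lit 493858305440582043680)) (.cons (.rf (nat_lit 515) (nat_lit 493858305440581979200)) (.cons (.rf (nat_lit 634) (nat_lit 493858305440582042688)) (.cons (.rf (nat_lit 634) (nat_lit 230986506996392494144)) .nil))))) (.cons (.br (nat_lit 2) (nat_lit 0) (.cons (.rf (nat_lit 515) (nat_lit 493858305440582043680)) (.cons (.rf (nat_lit 515) (nat_lit 493858305440581979200)) (.cons (.rf (nat_lit 634) (nat_lit 493858305440582042688)) (.cons (.rf (nat_lit 634) (nat_lit 230986506996392494144)) .nil))))) .nil)))))),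
 (.br (nat_lit 2) (nat_lit 0) (.cons (.rf (nat_lit 515) (nat_lit 493858305440582043680)) (.cons (.rf (nat_lit 515) (nat_lit 493858305440581979200)) (.cons (.rf (nat_lit 634) (nat_lit 493858305440582042688)) (.cons (.br (nat_lit 2) (nat_lit 0) (.cons (.rf (nat_lit 515) (nat_lit 493858305440582043680)) (.cons (.rf (nat_lit 515) (nat_lit 493858305440581979200)) (.cons (.rf (nat_lit 634) (nat_lit 493858305440582042688)) (.cons (.rf (nat_lit 634) (nat_lit 230986506996392494144)) .nil))))) (.cons (.rf (nat_lit 648) (nat_lit 230986506996392495136)) .nil)))))),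
 (.br (nat_lit 2) (nat_lit 0) (.cons (.rf (nat_lit 515) (nat_lit 493858305440582043680)) (.cons (.rf (nat_lit 515) (nat_lit 493858305440581979200)) (.cons (.rf (nat_lit 648) (nat_lit 493858305440582043680)) (.cons (.rf (nat_lit 649) (nat_lit 493858305440582043680)) (.cons (.rf (nat_lit 649) (nat_lit 230986506996392495136)) (.cons (.rf (nat_lit 648) (nat_lit 230986506996392495136)) .nil))))))),
 (.br (nat_lit 2) (nat_lit 0) (.cons (.rf (nat_lit 515) (nat_lit 493858305440582043680)) (.cons (.rf (nat_lit 515) (nat_lit 493858305440581979200)) (.cons (.rf (nat_lit 634) (nat_lit 493858305440582042688)) (.cons (.br (nat_lit 1) (nat_lit 0) (.cons (.rf (nat_lit 515) (nat_lit 493858305440582011936)) (.cons (.br (nat_lit 1) (nat_lit 0) (.cons (.rf (nat_lit 515) (nat_lit 493858305440582011936)) (.cons (.rf (nat_lit 634) (nat_lit 493858305440582043680)) (.cons (.rf (nat_lit 640) (nat_lit 230986506996392494144)) (.cons (.rf (nat_lit 639) (nat_lit 230986506996392494144)) .nil))))) (.cons (.br (nat_lit 1) (nat_lit 0) (.cons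 (.rf (nat_lit 515) (nat_lit 493858305440582011936)) (.cons (.rf (nat_lit 634) (nat_lit 493858305440582043680)) (.cons (.rf (nat_lit 640) (nat_lit 230986506996392494144)) (.cons (.rf (nat_lit 639) (nat_lit 230986506996392494144)) .nil))))) (.cons (.rf (nat_lit 640) (nat_lit 230986506996392494144)) (.cons (.rf (nat_lit 639) (nat_lit 230986506996392494144)) .nil)))))) (.cons (.rf (nat_lit 634) (nat_lit 230986506996392494144)) .nil)))))),
 (.br (nat_lit 2) (nat_lit 0) (.cons (.rf (nat_lit 515) (nat_lit 493858305440581979200)) (.cons (.br (nat_lit 2) (nat_lit 0) (.cons (.rf (nat_lit 515) (nat_lit 493858305440581979200)) (.cons (.rf (nat_lit 634) (nat_lit 493858305440582042688)) (.cons (.rf (nat_lit 636) (nat_lit 12314111738944)) (.cons (.rf (nat_lit 636) (nat_lit 13412549624896)) .nil))))) (.cons (.rf (nat_lit 651) (nat_lit 493858305440582043680)) (.cons (.br (nat_lit 2) (nat_lit 0) (.cons (.rf (nat_lit 515) (nat_lit 493858305440581979200)) (.cons (.rf (nat_lit 636) (nat_lit 12314111738944)) (.cons (.rf (nat_lit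 651) (nat_lit 493858305440582043680)) (.cons (.rf (nat_lit 636) (nat_lit 13578979607616)) .nil))))) (.cons (.rf (nat_lit 634) (nat_lit 230986506996392494144)) .nil)))))),
 (.br (nat_lit 2) (nat_lit 0) (.cons (.rf (nat_lit 515) (nat_lit 493858305440582043680)) (.cons (.rf (nat_lit 515) (nat_lit 493858305440581979200)) (.cons (.br (nat_lit 2) (nat_lit 0) (.cons (.rf (nat_lit 515) (nat_lit 493858305440582043680)) (.cons (.rf (nat_lit 515) (nat_lit 493858305440581979200)) (.cons (.ev (nat_lit 20361637770888301525889712193536) (nat_lit 1)) .nil)))) (.cons (.br (nat_lit 2) (nat_lit 0) (.cons (.kr (nat_lit 1213648186098598331548160) (nat_lit 40564819207303412905488540631040) (nat_lit 1) (nat_lit 0)) (.cons (.rf (nat_lit 515) (nat_lit 493858305440581979200)) (.cons (.ev (nat_lit 20361637770888301525889712193536) (nat_lit 1)) .nil)))) .nil))))),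
 (.br (nat_lit 3) (nat_lit 0) (.cons (.rf (nat_lit 515) (nat_lit 493858305440581979200)) (.cons (.rf (nat_lit 653) (nat_lit 493858305440582011936)) (.cons (.br (nat_lit 2) (nat_lit 0) (.cons (.rf (nat_lit 515) (nat_lit 493858305440581979200)) (.cons (.rf (nat_lit 653) (nat_lit 493858305440582043680)) .nil))) .nil)))),
 (.br (nat_lit 2) (nat_lit 0) (.cons (.rf (nat_lit 515) (nat_lit 493858305440581979200)) (.cons (.rf (nat_lit 634) (nat_lit 493858305440582042688)) (.cons (.br (nat_lit 2) (nat_lit 0) (.cons (.rf (nat_lit 515) (nat_lit 493858305440581979200)) (.cons (.rf (nat_lit 634) (nat_lit 493858305440582042688)) .nil))) .nil)))),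
 (.br (nat_lit 2) (nat_lit 0) (.cons (.rf (nat_lit 515) (nat_lit 493858305440582043680)) (.cons (.rf (nat_lit 515) (nat_lit 493858305440581979200)) (.cons (.rf (nat_lit 634) (nat_lit 493858305440582042688)) (.cons (.br (nat_lit 2) (nat_lit 0) (.cons (.rf (nat_lit 515) (nat_lit 493858305440582043680)) (.cons (.rf (nat_lit 515) (nat_lit 493858305440581979200)) (.cons (.rf (nat_lit 634) (nat_lit 493858305440582042688)) .nil)))) .nil))))),
 (.br (nat_lit 4) (nat_lit 0) (.cons (.rf (nat_lit 589) (nat_lit 493858305440582042688)) (.cons (.rf (nat_lit 589) (nat_lit 493858305440582009952)) (.cons (.rf (nat_lit 651) (nat_lit 230986506996392494144)) (.cons (.br (nat_lit 2) (nat_lit 0) (.cons (.rf (nat_lit 515) (nat_lit 493858305440581979200)) (.cons (.rf (nat_lit 644) (nat_lit 493858305440582043680)) (.cons (.rf (nat_lit 646) (nat_lit 493858305440582043680)) (.cons (.rf (nat_lit 647) (nat_lit 493858305440582043680)) (.cons (.br (nat_lit 2) (nat_lit 0) (.cons (.rf (nat_lit 515) (nat_lit 493858305440581979200)) (.cons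 (.rf (nat_lit 644) (nat_lit 493858305440582043680)) (.cons (.rf (nat_lit 646) (nat_lit 493858305440582043680)) (.cons (.rf (nat_lit 647) (nat_lit 493858305440582043680)) (.cons (.rf (nat_lit 634) (nat_lit 230986506996392494144)) .nil)))))) (.cons (.br (nat_lit 2) (nat_lit 0) (.cons (.rf (nat_lit 515) (nat_lit 493858305440581979200)) (.cons (.rf (nat_lit 644) (nat_lit 493858305440582043680)) (.cons (.rf (nat_lit 646) (nat_lit 493858305440582043680)) (.cons (.rf (nat_lit 647) (nat_lit 493858305440582043680)) (.cons (.rf (nat_lit 634) (nat_lit 230986506996392494144)) .nil)))))) .nil))))))) (.cons (.rf (nat_lit 650) (nat_lit 493858305440582043680)) (.cons (.ev (nat_lit 79229376162450436196170465536) (nat_lit 1)) (.cons (.br (nat_lit 13) (nat_lit 0) (.cons (.rf (nat_lit 652) (nat_lit 493858305440582043680)) (.cons (.rf (nat_lit 652) (nat_lit 493858305440582011936)) (.cons (.br (nat_lit 2) (nat_lit 0) (.cons (.rf (nat_lit 515) (nat_lit 493858305440581979200)) (.cons (.rf (nat_lit 653) (nat_lit 493858305440582043680))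 (.cons (.rf (nat_lit 654) (nat_lit 493858305440582043680)) (.cons (.br (nat_lit 3) (nat_lit 0) (.cons (.rf (nat_lit 515) (nat_lit 493858305440581979200)) (.cons (.rf (nat_lit 653) (nat_lit 493858305440582011936)) (.cons (.rf (nat_lit 654) (nat_lit 493858305440582011936)) .nil)))) .nil))))) (.cons (.kr (nat_lit 1213648186098598331547648) (nat_lit 40564819207303412905488540499968) (nat_lit 5) (nat_lit 0)) (.cons (.br (nat_lit 2) (nat_lit 0) (.cons (.rf (nat_lit 515) (nat_lit 493858305440581979200)) (.cons (.rf (nat_lit 655) (nat_lit 493858305440582043680)) (.cons (.rf (nat_lit 656) (nat_lit 493858305440582043680)) (.cons (.br (nat_lit 3) (nat_lit 0) (.cons (.rf (nat_lit 515) (nat_lit 493858305440581979200)) (.cons (.rf (nat_lit 655) (nat_lit 493858305440582011936)) (.cons (.rf (nat_lit 656) (nat_lit 493858305440582011936)) .nil)))) .nil))))) (.cons (.kr (nat_lit 1208925819614629174706176) (nat_lit 20282409603651670423947251286016) (nat_lit 10) (nat_lit 0)) .nil))))))) .nil)))))))),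
 (.br (nat_lit 3) (nat_lit 0) (.cons (.ev (nat_lit 20361638975091826716342791241728) (nat_lit 1)) .nil)),
 (.br (nat_lit 2) (nat_lit 0) (.cons (.kr (nat_lit 4722438541563194769410) (nat_lit 1208925820177579128258560) (nat_lit 0) (nat_lit 1)) (.cons (.br (nat_lit 3) (nat_lit 0) (.cons (.br (nat_lit 3) (nat_lit 0) (.cons (.rf (nat_lit 658) (nat_lit 493858305440582043680)) (.cons (.rf (nat_lit 637) (nat_lit 493858305440582042688)) .nil))) (.cons (.br (nat_lit 3) (nat_lit 0) (.cons (.rf (nat_lit 658) (nat_lit 493858305440582043680)) (.cons (.ev (nat_lit 20361638975091826716342791241728) (nat_lit 1)) .nil))) (.cons (.rf (nat_lit 637) (nat_lit 493858305440582042688)) .nil)))) (.cons (.rf (nat_lit 636) (nat_lit 14680403839008)) .nil))))]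

theorem c25 : chkAll C T R L25 (nat_lit 636) = true := by decide +kernel

theorem l25 : (nat_lit 636) + L25.length = (nat_lit 660) := by decide +kernel

/-- part of the certificates -/
def L26 : List Prf := [(.br (nat_lit 2) (nat_lit 0) (.cons (.rf (nat_lit 515) (nat_lit 493858305440581979200)) (.cons (.rf (nat_lit 659) (nat_lit 493858305440582043680)) (.cons (.br (nat_lit 2) (nat_lit 0) (.cons (.rf (nat_lit 515) (nat_lit 493858305440581979200)) (.cons (.rf (nat_lit 659) (nat_lit 493858305440582043680)) (.cons (.rf (nat_lit 634) (nat_lit 230986506996392494144)) .nil)))) (.cons (.br (nat_lit 2) (nat_lit 0) (.cons (.rf (nat_lit 515) (nat_lit 493858305440581979200)) (.cons (.rf (nat_lit 636) (nat_lit 14680403839008)) (.cons (.rf (nat_lit 634) (nat_lit 230986506996392494144)) .nil)))) .nil))))),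
 (.br (nat_lit 3) (nat_lit 0) (.cons (.rf (nat_lit 515) (nat_lit 493858305440581979200)) (.cons (.rf (nat_lit 660) (nat_lit 493858305440582011936)) (.cons (.br (nat_lit 3) (nat_lit 0) (.cons (.rf (nat_lit 515) (nat_lit 493858305440581979200)) (.cons (.rf (nat_lit 660) (nat_lit 493858305440582011936)) (.cons (.rf (nat_lit 634) (nat_lit 230986506996392461408)) .nil)))) (.cons (.br (nat_lit 2) (nat_lit 0) (.cons (.rf (nat_lit 515) (nat_lit 493858305440581979200)) (.cons (.rf (nat_lit 660) (nat_lit 493858305440582043680)) (.cons (.rf (nat_lit 637) (nat_lit 493858305440582042688)) .nil)))) .nil))))),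
 (.br (nat_lit 2) (nat_lit 0) (.cons (.rf (nat_lit 515) (nat_lit 493858305440581979200)) (.cons (.rf (nat_lit 660) (nat_lit 493858305440582043680)) (.cons (.rf (nat_lit 661) (nat_lit 493858305440582043680)) (.cons (.rf (nat_lit 634) (nat_lit 230986506996392494144)) .nil))))),
 (.br (nat_lit 2) (nat_lit 0) (.cons (.rf (nat_lit 515) (nat_lit 493858305440581979200)) (.cons (.rf (nat_lit 660) (nat_lit 493858305440582043680)) (.cons (.rf (nat_lit 661) (nat_lit 493858305440582043680)) (.cons (.rf (nat_lit 662) (nat_lit 493858305440582043680)) (.cons (.br (nat_lit 3) (nat_lit 0) (.cons (.rf (nat_lit 515) (nat_lit 493858305440581979200)) (.cons (.rf (nat_lit 660) (nat_lit 493858305440582011936)) (.cons (.rf (nat_lit 661) (nat_lit 493858305440582011936)) (.cons (.rf (nat_lit 662) (nat_lit 493858305440582011936)) .nil))))) .nil)))))),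
 (.br (nat_lit 2) (nat_lit 0) (.cons (.rf (nat_lit 515) (nat_lit 493858305440582043680)) (.cons (.rf (nat_lit 515) (nat_lit 493858305440581979200)) (.cons (.rf (nat_lit 634) (nat_lit 493858305440582042688)) (.cons (.br (nat_lit 2) (nat_lit 0) (.cons (.rf (nat_lit 515) (nat_lit 493858305440582043680)) (.cons (.rf (nat_lit 515) (nat_lit 493858305440581979200)) (.cons (.rf (nat_lit 634) (nat_lit 493858305440582042688)) (.cons (.rf (nat_lit 657) (nat_lit 493858305440582042688)) (.cons (.kr (nat_lit 40564819207303412906588052127744) (nat_lit 1213648186660448773341184) (nat_lit 5) (nat_lit 0)) .nil)))))) (.cons (.br (nat_lit 2) (nat_lit 0) (.cons (.rf (nat_lit 515) (nat_lit 493858305440582043680)) (.cons (.rf (nat_lit 515) (nat_lit 493858305440581979200)) (.cons (.rf (nat_lit 634) (nat_lit 493858305440582042688)) (.cons (.rf (nat_lit 657) (nat_lit 493858305440582042688)) (.cons (.kr (nat_lit 40564819207303412906588052127744) (nat_lit 1213648186660448773341184) (nat_lit 5) (nat_lit 0)) .nil)))))) (.cons (.kr (nat_lit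 40564819207303412906588052127744) (nat_lit 1213648186660448773341184) (nat_lit 5) (nat_lit 0)) .nil))))))),
 (.br (nat_lit 3) (nat_lit 0) (.cons (.rf (nat_lit 515) (nat_lit 493858305440581979200)) (.cons (.rf (nat_lit 664) (nat_lit 493858305440582011936)) (.cons (.rf (nat_lit 645) (nat_lit 493858305440582043680)) (.cons (.br (nat_lit 3) (nat_lit 0) (.cons (.rf (nat_lit 515) (nat_lit 493858305440581979200)) (.cons (.rf (nat_lit 664) (nat_lit 493858305440582011936)) (.cons (.rf (nat_lit 645) (nat_lit 493858305440582043680)) (.cons (.rf (nat_lit 634) (nat_lit 230986506996392461408)) .nil))))) (.cons (.br (nat_lit 3) (nat_lit 0) (.cons (.rf (nat_lit 515) (nat_lit 493858305440581979200)) (.cons (.kr (nat_lit 40564819207303412906588052127744) (nat_lit 1213648186660448773341184) (nat_lit 5) (nat_lit 0)) (.cons (.rf (nat_lit 645) (nat_lit 493858305440582043680)) (.cons (.rf (nat_lit 634) (nat_lit 230986506996392461408)) .nil))))) .nil)))))),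
 (.br (nat_lit 3) (nat_lit 0) (.cons (.rf (nat_lit 515) (nat_lit 493858305440581979200)) (.cons (.rf (nat_lit 664) (nat_lit 493858305440582011936)) (.cons (.rf (nat_lit 645) (nat_lit 493858305440582011936)) (.cons (.br (nat_lit 3) (nat_lit 0) (.cons (.rf (nat_lit 515) (nat_lit 493858305440581979200)) (.cons (.rf (nat_lit 664) (nat_lit 493858305440582011936)) (.cons (.rf (nat_lit 645) (nat_lit 493858305440582011936)) (.cons (.rf (nat_lit 634) (nat_lit 230986506996392461408)) .nil))))) (.cons (.br (nat_lit 3) (nat_lit 0) (.cons (.rf (nat_lit 515) (nat_lit 493858305440581979200)) (.cons (.kr (nat_lit 40564819207303412906588052127744) (nat_lit 1213648186660448773341184) (nat_lit 5) (nat_lit 0)) (.cons (.rf (nat_lit 645) (nat_lit 493858305440582011936)) (.cons (.rf (nat_lit 634) (nat_lit 230986506996392461408)) .nil))))) .nil)))))),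
 (.br (nat_lit 2) (nat_lit 0) (.cons (.rf (nat_lit 515) (nat_lit 493858305440581979200)) (.cons (.rf (nat_lit 664) (nat_lit 493858305440582043680)) (.cons (.rf (nat_lit 665) (nat_lit 493858305440582043680)) (.cons (.rf (nat_lit 666) (nat_lit 493858305440582043680)) (.cons (.rf (nat_lit 634) (nat_lit 230986506996392494144)) .nil)))))),
 (.br (nat_lit 2) (nat_lit 0) (.cons (.rf (nat_lit 515) (nat_lit 493858305440581979200)) (.cons (.rf (nat_lit 664) (nat_lit 493858305440582043680)) (.cons (.rf (nat_lit 665) (nat_lit 493858305440582043680)) (.cons (.rf (nat_lit 666) (nat_lit 493858305440582043680)) (.cons (.rf (nat_lit 667) (nat_lit 493858305440582043680)) (.cons (.br (nat_lit 3) (nat_lit 0) (.cons (.rf (nat_lit 515) (nat_lit 493858305440581979200)) (.cons (.rf (nat_lit 664) (nat_lit 493858305440582011936)) (.cons (.rf (nat_lit 665) (nat_lit 493858305440582011936)) (.cons (.rf (nat_lit 666) (nat_lit 493858305440582011936)) (.cons (.rf (nat_lit 667) (nat_lit 493858305440582011936)) .nil)))))) .nil))))))),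
 (.br (nat_lit 1) (nat_lit 0) (.cons (.rf (nat_lit 515) (nat_lit 493858305440582043680)) (.cons (.rf (nat_lit 515) (nat_lit 493858305440582011936)) (.cons (.rf (nat_lit 589) (nat_lit 493858305440582043680)) (.cons (.rf (nat_lit 634) (nat_lit 493858305440582043680)) (.cons (.rf (nat_lit 657) (nat_lit 493858305440582043680)) (.cons (.br (nat_lit 4) (nat_lit 0) (.cons (.rf (nat_lit 589) (nat_lit 493858305440582042688)) (.cons (.rf (nat_lit 589) (nat_lit 493858305440582009952)) (.cons (.rf (nat_lit 663) (nat_lit 493858305440582043680)) (.cons (.rf (nat_lit 668) (nat_lit 493858305440582043680)) (.cons (.rf (nat_lit 650) (nat_lit 493858305440582043680)) (.cons (.rf (nat_lit 668) (nat_lit 230986506996392495136)) (.cons (.rf (nat_lit 663) (nat_lit 230986506996392495136)) .nil)))))))) .nil))))))),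
 (.br (nat_lit 1) (nat_lit 0) (.cons (.rf (nat_lit 515) (nat_lit 493858305440582043680)) (.cons (.rf (nat_lit 515) (nat_lit 493858305440582011936)) (.cons (.rf (nat_lit 589) (nat_lit 493858305440582043680)) (.cons (.rf (nat_lit 634) (nat_lit 493858305440582043680)) (.cons (.rf (nat_lit 669) (nat_lit 493858305440582043680)) (.cons (.br (nat_lit 1) (nat_lit 0) (.cons (.rf (nat_lit 515) (nat_lit 493858305440582043680)) (.cons (.rf (nat_lit 515) (nat_lit 493858305440582011936)) (.cons (.rf (nat_lit 589) (nat_lit 493858305440582043680)) (.cons (.rf (nat_lit 634) (nat_lit 493858305440582043680)) (.cons (.rf (nat_lit 669) (nat_lit 493858305440582043680)) (.cons (.rf (nat_lit 634) (nat_lit 230986506996392495136)) .nil))))))) (.cons (.br (nat_lit 1) (nat_lit 0) (.cons (.rf (nat_lit 515) (nat_lit 493858305440582043680)) (.cons (.rf (nat_lit 515) (nat_lit 493858305440582011936)) (.cons (.rf (nat_lit 589) (nat_lit 493858305440582043680)) (.cons (.rf (nat_lit 634) (nat_lit 493858305440582043680)) (.cons (.rf (nat_lit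 669) (nat_lit 493858305440582043680)) (.cons (.rf (nat_lit 634) (nat_lit 230986506996392495136)) .nil))))))) .nil)))))))),
 (.br (nat_lit 2) (nat_lit 0) (.cons (.rf (nat_lit 515) (nat_lit 493858305440581979200)) (.cons (.rf (nat_lit 589) (nat_lit 493858305440582042688)) (.cons (.rf (nat_lit 670) (nat_lit 493858305440582042688)) (.cons (.br (nat_lit 3) (nat_lit 0) (.cons (.rf (nat_lit 515) (nat_lit 493858305440581979200)) (.cons (.rf (nat_lit 589) (nat_lit 493858305440582009952)) (.cons (.rf (nat_lit 670) (nat_lit 493858305440582009952)) (.cons (.rf (nat_lit 670) (nat_lit 230986506996392461408)) .nil))))) (.cons (.rf (nat_lit 670) (nat_lit 230986506996392494144)) .nil)))))),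
 (.br (nat_lit 3) (nat_lit 0) (.cons (.rf (nat_lit 515) (nat_lit 493858305440581979200)) (.cons (.rf (nat_lit 589) (nat_lit 493858305440582009952)) (.cons (.rf (nat_lit 670) (nat_lit 493858305440582009952)) (.cons (.rf (nat_lit 671) (nat_lit 493858305440582043680)) (.cons (.br (nat_lit 2) (nat_lit 0) (.cons (.rf (nat_lit 515) (nat_lit 493858305440581979200)) (.cons (.rf (nat_lit 589) (nat_lit 493858305440582042688)) (.cons (.rf (nat_lit 670) (nat_lit 493858305440582042688)) (.cons (.rf (nat_lit 671) (nat_lit 230986506996392463392)) (.cons (.rf (nat_lit 670) (nat_lit 230986506996392494144)) .nil)))))) (.cons (.rf (nat_lit 670) (nat_lit 230986506996392461408)) .nil))))))),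
 (.br (nat_lit 1) (nat_lit 0) (.cons (.rf (nat_lit 515) (nat_lit 493858305440582043680)) (.cons (.rf (nat_lit 515) (nat_lit 493858305440582011936)) (.cons (.rf (nat_lit 589) (nat_lit 493858305440582043680)) (.cons (.rf (nat_lit 670) (nat_lit 493858305440582043680)) (.cons (.br (nat_lit 2) (nat_lit 0) (.cons (.rf (nat_lit 515) (nat_lit 493858305440581979200)) (.cons (.rf (nat_lit 589) (nat_lit 493858305440582042688)) (.cons (.rf (nat_lit 670) (nat_lit 493858305440582042688)) (.cons (.rf (nat_lit 672) (nat_lit 493858305440582043680)) (.cons (.br (nat_lit 3) (nat_lit 0) (.cons (.rf (nat_lit 515) (nat_lit 493858305440581979200)) (.cons (.rf (nat_lit 589) (nat_lit 493858305440582009952)) (.cons (.rf (nat_lit 670) (nat_lit 493858305440582009952)) (.cons (.rf (nat_lit 672) (nat_lit 493858305440582011936)) (.cons (.rf (nat_lit 672) (nat_lit 230986506996392463392)) (.cons (.rf (nat_lit 670) (nat_lit 230986506996392461408)) .nil))))))) (.cons (.rf (nat_lit 672) (nat_lit 230986506996392495136)) (.cons (.rf (nat_lit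 670) (nat_lit 230986506996392494144)) .nil)))))))) (.cons (.rf (nat_lit 670) (nat_lit 230986506996392495136)) .nil))))))),
 (.br (nat_lit 1) (nat_lit 0) (.cons (.rf (nat_lit 515) (nat_lit 493858305440582043680)) (.cons (.rf (nat_lit 515) (nat_lit 493858305440582011936)) (.cons (.rf (nat_lit 589) (nat_lit 493858305440582043680)) (.cons (.rf (nat_lit 670) (nat_lit 493858305440582043680)) (.cons (.rf (nat_lit 673) (nat_lit 493858305440582043680)) (.cons (.br (nat_lit 1) (nat_lit 0) (.cons (.rf (nat_lit 515) (nat_lit 493858305440582043680)) (.cons (.rf (nat_lit 515) (nat_lit 493858305440582011936)) (.cons (.rf (nat_lit 589) (nat_lit 493858305440582043680)) (.cons (.rf (nat_lit 670) (nat_lit 493858305440582043680)) (.cons (.rf (nat_lit 673) (nat_lit 493858305440582043680)) (.cons (.rf (nat_lit 670) (nat_lit 230986506996392495136)) .nil))))))) (.cons (.rf (nat_lit 670) (nat_lit 230986506996392495136)) .nil)))))))),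
 (.br (nat_lit 12) (nat_lit 1) (.cons (.rf (nat_lit 0) (nat_lit 146209549542)) (.cons (.br (nat_lit 4) (nat_lit 1) (.cons (.rf (nat_lit 0) (nat_lit 424371589286)) (.cons (.br (nat_lit 9) (nat_lit 0) (.cons (.br (nat_lit 13) (nat_lit 1) (.cons (.br (nat_lit 1) (nat_lit 0) (.cons (.rf (nat_lit 515) (nat_lit 493858305440582043680)) (.cons (.rf (nat_lit 515) (nat_lit 493858305440582011936)) (.cons (.rf (nat_lit 589) (nat_lit 493858305440582043680)) (.cons (.rf (nat_lit 670) (nat_lit 493858305440582043680)) (.cons (.rf (nat_lit 674) (nat_lit 493858305440582043680)) (.cons (.br (nat_lit 1) (nat_lit 0) (.cons (.rf (nat_lit 515) (nat_lit 493858305440582043680)) (.cons (.rf (nat_lit 515) (nat_lit 493858305440582011936)) (.cons (.rf (nat_lit 589) (nat_lit 493858305440582043680)) (.cons (.rf (nat_lit 670) (nat_lit 493858305440582043680)) (.cons (.rf (nat_lit 674) (nat_lit 493858305440582043680)) (.cons (.rf (nat_lit 674) (nat_lit 230986506996392495136)) (.cons (.rf (nat_lit 670) (nat_lit 230986506996392495136)) .nil))))))))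 (.cons (.rf (nat_lit 674) (nat_lit 230986506996392495136)) (.cons (.rf (nat_lit 670) (nat_lit 230986506996392495136)) .nil))))))))) .nil)) .nil)) .nil))) .nil))),
 (.br (nat_lit 0) (nat_lit 1) (.cons (.br (nat_lit 5) (nat_lit 0) (.cons (.br (nat_lit 9) (nat_lit 1) (.cons (.kr (nat_lit 281474976710912) (nat_lit 1099528404992) (nat_lit 1) (nat_lit 0)) .nil)) .nil)) (.cons (.rf (nat_lit 0) (nat_lit 137481100386)) .nil))),
 (.br (nat_lit 8) (nat_lit 1) (.cons (.rf (nat_lit 1) (nat_lit 8624292)) (.cons (.br (nat_lit 9) (nat_lit 1) (.cons (.br (nat_lit 7) (nat_lit 0) (.cons (.rf (nat_lit 1) (nat_lit 6525096)) (.cons (.br (nat_lit 7) (nat_lit 0) (.cons (.rf (nat_lit 1) (nat_lit 6525096)) (.cons (.br (nat_lit 11) (nat_lit 1) (.cons (.rf (nat_lit 675) (nat_lit 14242959524133701664)) (.cons (.br (nat_lit 12) (nat_lit 1) (.cons (.rf (nat_lit 675) (nat_lit 13126066816545818656)) (.cons (.rf (nat_lit 676) (nat_lit 13583144687780)) .nil))) .nil))) .nil))) .nil))) .nil)) .nil))),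
 (.br (nat_lit 12) (nat_lit 0) (.cons (.ev (nat_lit 79228162532711364246053584896) (nat_lit 1)) .nil)),
 (.br (nat_lit 11) (nat_lit 0) (.cons (.ev (nat_lit 79228162532711364246053584896) (nat_lit 1)) .nil)),
 (.br (nat_lit 8) (nat_lit 0) (.cons (.rf (nat_lit 678) (nat_lit 493858305440582043680)) (.cons (.ev (nat_lit 79228167255149904709736726785) (nat_lit 1)) (.cons (.rf (nat_lit 679) (nat_lit 493858305440582043680)) .nil)))),
 (.br (nat_lit 13) (nat_lit 0) (.cons (.rf (nat_lit 680) (nat_lit 493858305440582043680)) (.cons (.rf (nat_lit 680) (nat_lit 493858303243706270784)) (.cons (.br (nat_lit 6) (nat_lit 0) (.cons (.ev (nat_lit 79228167255149904709719949313) (nat_lit 1)) .nil)) .nil)))),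
 (.br (nat_lit 13) (nat_lit 0) (.cons (.rf (nat_lit 680) (nat_lit 493858305440582043680)) (.cons (.rf (nat_lit 680) (nat_lit 493858303243706270784)) (.cons (.rf (nat_lit 681) (nat_lit 493858305440582043680)) (.cons (.br (nat_lit 13) (nat_lit 0) (.cons (.rf (nat_lit 680) (nat_lit 493858305440582043680)) (.cons (.rf (nat_lit 680) (nat_lit 493858303243706270784)) (.cons (.rf (nat_lit 681) (nat_lit 493858305440582043680)) .nil)))) .nil))))),
 (.br (nat_lit 4) (nat_lit 0) (.cons (.br (nat_lit 12) (nat_lit 0) (.cons (.ev (nat_lit 79228162532711364246053650433) (nat_lit 1)) (.cons (.ev (nat_lit 79228167255149904709719949568) (nat_lit 1)) .nil))) (.cons (.rf (nat_lit 682) (nat_lit 493858305440582043680)) (.cons (.br (nat_lit 8) (nat_lit 0) (.cons (.ev (nat_lit 79228162532711364246036807681) (nat_lit 1)) (.cons (.ev (nat_lit 79228167255149904709736792320) (nat_lit 1)) .nil))) (.cons (.br (nat_lit 8) (nat_lit 0) (.cons (.rf (nat_lit 679) (nat_lit 420143386739781765152)) (.cons (.ev (nat_lit 79228167255149904709736726785)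 (nat_lit 1)) (.cons (.rf (nat_lit 678) (nat_lit 420143386739781765152)) .nil)))) .nil)))))]

theorem c26 : chkAll C T R L26 (nat_lit 660) = true := by decide +kernel

theorem l26 : (nat_lit 660) + L26.length = (nat_lit 684) := by decide +kernel

/-- part of the certificates -/
def L27 : List Prf := [(.br (nat_lit 8) (nat_lit 0) (.cons (.ev (nat_lit 79228162532711364246053585153) (nat_lit 1)) (.cons (.ev (nat_lit 79228167255149904709720014848) (nat_lit 1)) .nil))),
 (.br (nat_lit 11) (nat_lit 0) (.cons (.rf (nat_lit 682) (nat_lit 493858305440582043680)) (.cons (.rf (nat_lit 683) (nat_lit 493858305440582043680)) (.cons (.rf (nat_lit 683) (nat_lit 493858303243706270784)) (.cons (.br (nat_lit 4) (nat_lit 0) (.cons (.rf (nat_lit 684) (nat_lit 493858305440582043680)) (.cons (.rf (nat_lit 684) (nat_lit 493858303243706270784)) (.cons (.br (nat_lit 6) (nat_lit 0) (.cons (.ev (nat_lit 79228167255149904709719949313) (nat_lit 1)) .nil)) .nil)))) .nil))))),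
 (.br (nat_lit 11) (nat_lit 0) (.cons (.rf (nat_lit 682) (nat_lit 493858305440582043680)) (.cons (.rf (nat_lit 683) (nat_lit 493858305440582043680)) (.cons (.rf (nat_lit 683) (nat_lit 493858303243706270784)) (.cons (.rf (nat_lit 685) (nat_lit 493858305440582043680)) (.cons (.br (nat_lit 11) (nat_lit 0) (.cons (.rf (nat_lit 682) (nat_lit 493858305440582043680)) (.cons (.rf (nat_lit 683) (nat_lit 493858305440582043680)) (.cons (.rf (nat_lit 683) (nat_lit 493858303243706270784)) (.cons (.rf (nat_lit 685) (nat_lit 493858305440582043680)) .nil))))) .nil)))))),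
 (.br (nat_lit 3) (nat_lit 0) (.cons (.kr (nat_lit 1) (nat_lit 16777216) (nat_lit 0) (nat_lit 1)) (.cons (.kr (nat_lit 256) (nat_lit 16777216) (nat_lit 1) (nat_lit 0)) (.cons (.kr (nat_lit 65536) (nat_lit 16777216) (nat_lit 2) (nat_lit 0)) (.cons (.kr (nat_lit 1208925891672223212634114) (nat_lit 4722366483969190395904) (nat_lit 0) (nat_lit 1)) (.cons (.rf (nat_lit 686) (nat_lit 493858305440582043680)) (.cons (.rf (nat_lit 686) (nat_lit 458117738797769787424)) .nil))))))),
 (.br (nat_lit 3) (nat_lit 0) (.cons (.kr (nat_lit 1) (nat_lit 16777216) (nat_lit 0) (nat_lit 1)) (.cons (.kr (nat_lit 256) (nat_lit 16777216) (nat_lit 1) (nat_lit 0)) (.cons (.rf (nat_lit 687) (nat_lit 493858305440582011936)) (.cons (.kr (nat_lit 1208925891672223212634114) (nat_lit 4722366483969190395904) (nat_lit 0) (nat_lit 1)) (.cons (.kr (nat_lit 65536) (nat_lit 16777216) (nat_lit 2) (nat_lit 0)) (.cons (.rf (nat_lit 687) (nat_lit 302469822845850520640)) .nil))))))),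
 (.br (nat_lit 2) (nat_lit 0) (.cons (.kr (nat_lit 1) (nat_lit 65536) (nat_lit 0) (nat_lit 1)) (.cons (.kr (nat_lit 256) (nat_lit 65536) (nat_lit 1) (nat_lit 0)) (.cons (.rf (nat_lit 687) (nat_lit 493858305440582043680)) (.cons (.kr (nat_lit 1208925891672223212634114) (nat_lit 4722366483969156972544) (nat_lit 0) (nat_lit 1)) (.cons (.rf (nat_lit 688) (nat_lit 493858305440582043680)) (.cons (.rf (nat_lit 688) (nat_lit 458117738797769787424)) .nil))))))),
 (.br (nat_lit 11) (nat_lit 0) (.cons (.kr (nat_lit 256) (nat_lit 16777216) (nat_lit 1) (nat_lit 0)) (.cons (.ev (nat_lit 79229371440083952227013689344) (nat_lit 1)) (.cons (.ev (nat_lit 20361637766166007100614104842241) (nat_lit 1)) .nil)))),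
 (.br (nat_lit 13) (nat_lit 0) (.cons (.br (nat_lit 12) (nat_lit 0) (.cons (.ev (nat_lit 20361637766166007100614104842241) (nat_lit 1)) .nil)) (.cons (.rf (nat_lit 690) (nat_lit 493858305440582043680)) .nil))),
 (.br (nat_lit 8) (nat_lit 0) (.cons (.rf (nat_lit 691) (nat_lit 493858305440582043680)) (.cons (.rf (nat_lit 691) (nat_lit 458117738797769787424)) .nil))),
 (.br (nat_lit 12) (nat_lit 0) (.cons (.rf (nat_lit 691) (nat_lit 493858305440582043680)) (.cons (.rf (nat_lit 692) (nat_lit 493858305440582043680)) (.cons (.br (nat_lit 12) (nat_lit 0) (.cons (.rf (nat_lit 690) (nat_lit 493858305440582043680)) (.cons (.rf (nat_lit 692) (nat_lit 493858305440582043680)) .nil))) .nil)))),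
 (.br (nat_lit 11) (nat_lit 0) (.cons (.ev (nat_lit 20361637766166007100614104907776) (nat_lit 1)) .nil)),
 (.br (nat_lit 13) (nat_lit 0) (.cons (.br (nat_lit 12) (nat_lit 0) (.cons (.ev (nat_lit 20361637766166007100614104907776) (nat_lit 1)) .nil)) (.cons (.rf (nat_lit 694) (nat_lit 493858305440582043680)) .nil))),
 (.br (nat_lit 3) (nat_lit 0) (.cons (.rf (nat_lit 693) (nat_lit 493858305440582043680)) (.cons (.rf (nat_lit 695) (nat_lit 493858305440582043680)) (.cons (.rf (nat_lit 695) (nat_lit 458117738797769787424)) .nil)))),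
 (.br (nat_lit 12) (nat_lit 0) (.cons (.br (nat_lit 8) (nat_lit 0) (.cons (.ev (nat_lit 20361637770888301525889712193793) (nat_lit 1)) .nil)) (.cons (.br (nat_lit 3) (nat_lit 0) (.cons (.ev (nat_lit 20361637770888301525889712193793) (nat_lit 1)) .nil)) (.cons (.kr (nat_lit 79228162514264337593543950336) (nat_lit 20282409603651670423947251286016) (nat_lit 12) (nat_lit 0)) .nil)))),
 (.br (nat_lit 11) (nat_lit 0) (.cons (.rf (nat_lit 693) (nat_lit 493858305440582043680)) (.cons (.rf (nat_lit 696) (nat_lit 493858305440582043680)) (.cons (.rf (nat_lit 697) (nat_lit 493858305440582043680)) .nil)))),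
 (.br (nat_lit 11) (nat_lit 0) (.cons (.ev (nat_lit 72339073326383361) (nat_lit 1)) (.cons (.ev (nat_lit 20361637766166007100614104842241) (nat_lit 1)) .nil))),
 (.br (nat_lit 13) (nat_lit 0) (.cons (.br (nat_lit 12) (nat_lit 0) (.cons (.ev (nat_lit 20361637766166007100614104842241) (nat_lit 1)) .nil)) (.cons (.rf (nat_lit 699) (nat_lit 493858305440582043680)) .nil))),
 (.br (nat_lit 8) (nat_lit 0) (.cons (.rf (nat_lit 700) (nat_lit 493858305440582043680)) (.cons (.rf (nat_lit 700) (nat_lit 458117738797769787424)) .nil))),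
 (.br (nat_lit 12) (nat_lit 0) (.cons (.rf (nat_lit 700) (nat_lit 493858305440582043680)) (.cons (.rf (nat_lit 701) (nat_lit 493858305440582043680)) (.cons (.br (nat_lit 12) (nat_lit 0) (.cons (.rf (nat_lit 699) (nat_lit 493858305440582043680)) (.cons (.rf (nat_lit 701) (nat_lit 493858305440582043680)) .nil))) .nil)))),
 (.br (nat_lit 13) (nat_lit 0) (.cons (.br (nat_lit 12) (nat_lit 0) (.cons (.ev (nat_lit 20361637766166007100614104907776) (nat_lit 1)) .nil)) (.cons (.rf (nat_lit 694) (nat_lit 493750222348060035104)) .nil))),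
 (.br (nat_lit 3) (nat_lit 0) (.cons (.rf (nat_lit 702) (nat_lit 493858305440582043680)) (.cons (.rf (nat_lit 703) (nat_lit 493858305440582043680)) (.cons (.rf (nat_lit 703) (nat_lit 458117738797769787424)) .nil)))),
 (.br (nat_lit 8) (nat_lit 0) (.cons (.rf (nat_lit 702) (nat_lit 493858305440582043680)) (.cons (.rf (nat_lit 704) (nat_lit 493858305440582043680)) (.cons (.rf (nat_lit 697) (nat_lit 493750222348060035104)) .nil)))),
 (.br (nat_lit 13) (nat_lit 0) (.cons (.br (nat_lit 12) (nat_lit 0) (.cons (.ev (nat_lit 20361637766166007100614121619713) (nat_lit 1)) .nil)) (.cons (.br (nat_lit 11) (nat_lit 0) (.cons (.ev (nat_lit 20361637766166007100614121619713) (nat_lit 1)) .nil)) .nil))),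
 (.br (nat_lit 8) (nat_lit 0) (.cons (.rf (nat_lit 706) (nat_lit 493858305440582043680)) (.cons (.br (nat_lit 11) (nat_lit 0) (.cons (.ev (nat_lit 20361638975091826716342807953408) (nat_lit 1)) .nil)) .nil))),
 (.br (nat_lit 11) (nat_lit 0) (.cons (.rf (nat_lit 706) (nat_lit 493858305440582043680)) (.cons (.rf (nat_lit 707) (nat_lit 493858305440582043680)) (.cons (.br (nat_lit 11) (nat_lit 0) (.cons (.rf (nat_lit 706) (nat_lit 493858305440582043680)) (.cons (.rf (nat_lit 707) (nat_lit 493858305440582043680)) .nil))) .nil)))),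
 (.br (nat_lit 13) (nat_lit 0) (.cons (.br (nat_lit 11) (nat_lit 0) (.cons (.ev (nat_lit 20361637766166007100614121685248) (nat_lit 1)) .nil)) (.cons (.br (nat_lit 3) (nat_lit 0) (.cons (.ev (nat_lit 20361637766166007100614121685248) (nat_lit 1)) .nil)) .nil))),
 (.br (nat_lit 8) (nat_lit 0) (.cons (.rf (nat_lit 708) (nat_lit 493858305440582043680)) (.cons (.rf (nat_lit 709) (nat_lit 493858305440582043680)) (.cons (.br (nat_lit 11) (nat_lit 0) (.cons (.br (nat_lit 12) (nat_lit 0) (.cons (.ev (nat_lit 20361637766166007100614121619713) (nat_lit 1)) .nil)) (.cons (.rf (nat_lit 709) (nat_lit 493750222348060035104)) (.cons (.br (nat_lit 3) (nat_lit 0) (.cons (.ev (nat_lit 20520094105361779621077526446080) (nat_lit 2)) .nil)) .nil)))) .nil)))),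
 (.br (nat_lit 8) (nat_lit 0) (.cons (.rf (nat_lit 708) (nat_lit 493858305440582043680)) (.cons (.rf (nat_lit 709) (nat_lit 493858305440582043680)) (.cons (.br (nat_lit 3) (nat_lit 0) (.cons (.br (nat_lit 11) (nat_lit 0) (.cons (.ev (nat_lit 20361638975091826716342807953408) (nat_lit 1)) .nil)) (.cons (.ev (nat_lit 158457548158846761145561253380) (nat_lit 3)) .nil))) .nil)))),
 (.br (nat_lit 8) (nat_lit 0) (.cons (.rf (nat_lit 708) (nat_lit 493858305440582043680)) (.cons (.rf (nat_lit 710) (nat_lit 493858305440582043680)) (.cons (.rf (nat_lit 711) (nat_lit 493858305440582043680)) (.cons (.br (nat_lit 8) (nat_lit 0) (.cons (.rf (nat_lit 708) (nat_lit 493858305440582043680)) (.cons (.rf (nat_lit 710) (nat_lit 493858305440582043680)) (.cons (.rf (nat_lit 711) (nat_lit 493858305440582043680)) .nil)))) .nil))))),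
 (.br (nat_lit 2) (nat_lit 0) (.cons (.kr (nat_lit 1) (nat_lit 65536) (nat_lit 0) (nat_lit 1)) (.cons (.br (nat_lit 11) (nat_lit 0) (.cons (.rf (nat_lit 693) (nat_lit 493858305440582043680)) (.cons (.rf (nat_lit 696) (nat_lit 493858305440582043680)) (.cons (.rf (nat_lit 698) (nat_lit 493858305440582043680)) (.cons (.rf (nat_lit 698) (nat_lit 458117738797769787424)) .nil))))) (.cons (.br (nat_lit 8) (nat_lit 0) (.cons (.rf (nat_lit 702) (nat_lit 493858305440582043680)) (.cons (.rf (nat_lit 704) (nat_lit 493858305440582043680)) (.cons (.rf (nat_lit 705) (nat_lit 493858305440582043680)) (.cons (.rf (nat_lit 705) (nat_lit 458117738797769787424)) .nil))))) (.cons (.rf (nat_lit 712) (nat_lit 493858305440582043680)) (.cons (.rf (nat_lit 712) (nat_lit 458117738797769787424)) .nil)))))),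
 (.br (nat_lit 13) (nat_lit 0) (.cons (.br (nat_lit 12) (nat_lit 0) (.cons (.zr (nat_lit 1218370624640161526317059) (nat_lit 158765810056797045808810754048) (nat_lit 5) (nat_lit 4)) .nil)) (.cons (.br (nat_lit 11) (nat_lit 0) (.cons (.zr (nat_lit 1218370624640161526317059) (nat_lit 158765810056797045808810754048) (nat_lit 5) (nat_lit 4)) .nil)) .nil))),
 (.br (nat_lit 13) (nat_lit 0) (.cons (.br (nat_lit 12) (nat_lit 0) (.cons (.ev (nat_lit 79228162532711364246036807936) (nat_lit 1)) .nil)) (.cons (.br (nat_lit 8) (nat_lit 0) (.cons (.ev (nat_lit 79228162532711364246036807936) (nat_lit 1)) .nil)) .nil))),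
 (.br (nat_lit 6) (nat_lit 0) (.cons (.ev (nat_lit 20361637770888301525889728970753) (nat_lit 1)) .nil)),
 (.br (nat_lit 13) (nat_lit 0) (.cons (.ev (nat_lit 4722366764348916957441) (nat_lit 1)) (.cons (.rf (nat_lit 716) (nat_lit 493858305440582043680)) (.cons (.br (nat_lit 6) (nat_lit 0) (.cons (.ev (nat_lit 20282409608392555991063427284993) (nat_lit 1)) .nil)) .nil)))),
 (.br (nat_lit 13) (nat_lit 0) (.cons (.ev (nat_lit 4722366764348916957441) (nat_lit 1)) (.cons (.br (nat_lit 13) (nat_lit 0) (.cons (.ev (nat_lit 4722366764348916957441) (nat_lit 1)) (.cons (.rf (nat_lit 716) (nat_lit 493858305440582043680)) (.cons (.kr (nat_lit 40564820416229232520117715206146) (nat_lit 158456329750895159156278296576) (nat_lit 0) (nat_lit 1)) .nil)))) (.cons (.rf (nat_lit 717) (nat_lit 493858305440582043680)) (.cons (.br (nat_lit 13) (nat_lit 0) (.cons (.ev (nat_lit 4722366764348916957441) (nat_lit 1)) (.cons (.kr (nat_lit 40564820416229232520117715206146) (nat_lit 158456329750895159156278296576) (nat_lit 0) (nat_lit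 1)) (.cons (.rf (nat_lit 717) (nat_lit 493858305440582043680)) .nil)))) .nil))))),
 (.br (nat_lit 8) (nat_lit 0) (.cons (.ev (nat_lit 20361637766166007100614104842241) (nat_lit 1)) .nil)),
 (.br (nat_lit 6) (nat_lit 0) (.cons (.ev (nat_lit 72339073309671424) (nat_lit 1)) (.cons (.br (nat_lit 13) (nat_lit 0) (.cons (.br (nat_lit 12) (nat_lit 0) (.cons (.ev (nat_lit 20361637766166007100614104842241) (nat_lit 1)) .nil)) (.cons (.rf (nat_lit 719) (nat_lit 493858305440582043680)) .nil))) (.cons (.br (nat_lit 8) (nat_lit 0) (.cons (.ev (nat_lit 79228162532711364246036873473) (nat_lit 1)) (.cons (.kr (nat_lit 1208925891672223212634114) (nat_lit 79228162532711081667253633024) (nat_lit 0) (nat_lit 1)) .nil))) (.cons (.br (nat_lit 8) (nat_lit 0) (.cons (.zr (nat_lit 9463179712012023365632) (nat_lit 310693935713298771225870336) (nat_lit 5) (nat_lit 4)) (.cons (.ev (nat_lit 158457548158846761145527697412) (nat_lit 3)) (.cons (.br (nat_lit 11) (nat_lit 0) (.cons (.zr (nat_lit 9444732967938313748481) (nat_lit 20282719088661492050495264522240)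 (nat_lit 5) (nat_lit 4)) .nil)) .nil)))) .nil))))),
 (.br (nat_lit 2) (nat_lit 0) (.cons (.ev (nat_lit 72339073309671424) (nat_lit 1)) (.cons (.rf (nat_lit 720) (nat_lit 493858305440582043680)) (.cons (.br (nat_lit 13) (nat_lit 0) (.cons (.ev (nat_lit 79228167255149904709736792320) (nat_lit 1)) (.cons (.br (nat_lit 8) (nat_lit 0) (.cons (.ev (nat_lit 79228167255149904709736792320) (nat_lit 1)) .nil)) .nil))) (.cons (.br (nat_lit 13) (nat_lit 0) (.cons (.ev (nat_lit 20282409617837361298075067547905) (nat_lit 2)) (.cons (.br (nat_lit 8) (nat_lit 0) (.cons (.zr (nat_lit 1218370624640161526317060) (nat_lit 158765810056797045808794042624) (nat_lit 5) (nat_lit 4)) .nil)) (.cons (.ev (nat_lit 121852915160586954622765298483718) (nat_lit 3)) .nil)))) .nil)))))]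

theorem c27 : chkAll C T R L27 (nat_lit 684) = true := by decide +kernel

theorem l27 : (nat_lit 684) + L27.length = (nat_lit 722) := by decide +kernel

/-- part of the certificates -/
def L28 : List Prf := [(.br (nat_lit 13) (nat_lit 0) (.cons (.br (nat_lit 6) (nat_lit 0) (.cons (.ev (nat_lit 20361637766166007100614121619713) (nat_lit 1)) .nil)) (.cons (.br (nat_lit 2) (nat_lit 0) (.cons (.ev (nat_lit 20361637766166007100614121619713) (nat_lit 1)) .nil)) .nil))),
 (.br (nat_lit 11) (nat_lit 0) (.cons (.rf (nat_lit 720) (nat_lit 493858305440582043680)) (.cons (.rf (nat_lit 721) (nat_lit 493858305440582043680)) (.cons (.rf (nat_lit 722) (nat_lit 493858305440582043680)) (.cons (.br (nat_lit 6) (nat_lit 0) (.cons (.zr (nat_lit 4740813228042866524162) (nat_lit 309485009821626548013236736) (nat_lit 5) (nat_lit 4)) (.cons (.br (nat_lit 2) (nat_lit 0) (.cons (.ev (nat_lit 4722366764348916957441) (nat_lit 1)) .nil)) (.cons (.ev (nat_lit 20282410817318375604593090363648) (nat_lit 1)) .nil)))) .nil))))),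
 (.br (nat_lit 11) (nat_lit 0) (.cons (.rf (nat_lit 720) (nat_lit 493858305440582043680)) (.cons (.rf (nat_lit 721) (nat_lit 493858305440582043680)) (.cons (.rf (nat_lit 722) (nat_lit 493858305440582043680)) (.cons (.br (nat_lit 2) (nat_lit 0) (.cons (.br (nat_lit 8) (nat_lit 0) (.cons (.zr (nat_lit 1213648258156192369541123) (nat_lit 20282719088661492050495264522752) (nat_lit 5) (nat_lit 4)) .nil)) (.cons (.br (nat_lit 6) (nat_lit 0) (.cons (.ev (nat_lit 79228171977660786445752729601) (nat_lit 2)) .nil)) (.cons (.br (nat_lit 6) (nat_lit 0) (.cons (.ev (nat_lit 79228167255149904709720014848) (nat_lit 1)) .nil)) .nil)))) .nil))))),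
 (.br (nat_lit 11) (nat_lit 0) (.cons (.rf (nat_lit 720) (nat_lit 493858305440582043680)) (.cons (.rf (nat_lit 721) (nat_lit 493858305440582043680)) (.cons (.rf (nat_lit 723) (nat_lit 493858305440582043680)) (.cons (.rf (nat_lit 724) (nat_lit 493858305440582043680)) (.cons (.br (nat_lit 11) (nat_lit 0) (.cons (.rf (nat_lit 720) (nat_lit 493858305440582043680)) (.cons (.rf (nat_lit 721) (nat_lit 493858305440582043680)) (.cons (.rf (nat_lit 723) (nat_lit 493858305440582043680)) (.cons (.rf (nat_lit 724) (nat_lit 493858305440582043680)) .nil))))) .nil)))))),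
 (.br (nat_lit 3) (nat_lit 0) (.cons (.kr (nat_lit 1) (nat_lit 65536) (nat_lit 0) (nat_lit 1)) (.cons (.rf (nat_lit 713) (nat_lit 493858305440582043680)) (.cons (.br (nat_lit 2) (nat_lit 0) (.cons (.ev (nat_lit 72339073326448896) (nat_lit 1)) (.cons (.br (nat_lit 6) (nat_lit 0) (.cons (.ev (nat_lit 72339073309671424) (nat_lit 1)) (.cons (.rf (nat_lit 714) (nat_lit 493858305440582043680)) (.cons (.rf (nat_lit 714) (nat_lit 458117738797769787424)) .nil)))) (.cons (.br (nat_lit 6) (nat_lit 0) (.cons (.ev (nat_lit 72339073309671424) (nat_lit 1)) (.cons (.rf (nat_lit 715) (nat_lit 493858305440582043680)) (.cons (.rf (nat_lit 715) (nat_lit 458117738797769787424)) .nil)))) (.cons (.rf (nat_lit 718) (nat_lit 493858305440582043680)) (.cons (.rf (nat_lit 718) (nat_lit 458117738797769787424)) .nil)))))) (.cons (.rf (nat_lit 725) (nat_lit 493858305440582043680)) (.cons (.rf (nat_lit 725) (nat_lit 458117738797769787424)) .nil)))))),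
 (.br (nat_lit 6) (nat_lit 0) (.cons (.br (nat_lit 13) (nat_lit 0) (.cons (.br (nat_lit 12) (nat_lit 0) (.cons (.ev (nat_lit 20361637766166007100614104842241) (nat_lit 1)) .nil)) (.cons (.rf (nat_lit 719) (nat_lit 493750222348060035104)) .nil))) (.cons (.ev (nat_lit 72339073309671424) (nat_lit 1)) (.cons (.br (nat_lit 8) (nat_lit 0) (.cons (.ev (nat_lit 158457567048024462247990788610) (nat_lit 3)) (.cons (.br (nat_lit 11) (nat_lit 0) (.cons (.ev (nat_lit 20282410817318375604593107206145) (nat_lit 1)) .nil)) .nil))) (.cons (.br (nat_lit 8) (nat_lit 0) (.cons (.br (nat_lit 12) (nat_lit 0) (.cons (.ev (nat_lit 79229376180969518239399804928) (nat_lit 1)) .nil)) (.cons (.ev (nat_lit 79228167255149904709736726785) (nat_lit 1)) (.cons (.br (nat_lit 11) (nat_lit 0) (.cons (.ev (nat_lit 79229376180969518239399804928) (nat_lit 1)) .nil)) .nil)))) .nil))))),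
 (.br (nat_lit 2) (nat_lit 0) (.cons (.rf (nat_lit 727) (nat_lit 493858305440582043680)) (.cons (.ev (nat_lit 72339073309671424) (nat_lit 1)) (.cons (.br (nat_lit 13) (nat_lit 0) (.cons (.ev (nat_lit 158457557603435611696776216580) (nat_lit 3)) (.cons (.br (nat_lit 8) (nat_lit 0) (.cons (.ev (nat_lit 158457557603435611696776216580) (nat_lit 3)) .nil)) .nil))) (.cons (.br (nat_lit 8) (nat_lit 0) (.cons (.br (nat_lit 12) (nat_lit 0) (.cons (.ev (nat_lit 79228167255149904709719949313) (nat_lit 1)) .nil)) (.cons (.ev (nat_lit 79229376180969518239383027968) (nat_lit 1)) (.cons (.br (nat_lit 11) (nat_lit 0) (.cons (.ev (nat_lit 79228167255149904709719949313) (nat_lit 1)) .nil)) .nil)))) .nil))))),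
 (.br (nat_lit 8) (nat_lit 0) (.cons (.rf (nat_lit 727) (nat_lit 493858305440582043680)) (.cons (.rf (nat_lit 728) (nat_lit 493858305440582043680)) (.cons (.rf (nat_lit 722) (nat_lit 493750222348060035104)) (.cons (.br (nat_lit 2) (nat_lit 0) (.cons (.br (nat_lit 12) (nat_lit 0) (.cons (.ev (nat_lit 79229376180969518239399804928) (nat_lit 1)) .nil)) (.cons (.br (nat_lit 6) (nat_lit 0) (.cons (.ev (nat_lit 4722366764348916957441) (nat_lit 1)) .nil)) (.cons (.br (nat_lit 6) (nat_lit 0) (.cons (.ev (nat_lit 4722366764348916957441) (nat_lit 1)) .nil)) .nil)))) .nil))))),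
 (.br (nat_lit 8) (nat_lit 0) (.cons (.rf (nat_lit 727) (nat_lit 493858305440582043680)) (.cons (.ev (nat_lit 79229376180969518239383027968) (nat_lit 1)) (.cons (.rf (nat_lit 722) (nat_lit 493750222348060035104)) (.cons (.br (nat_lit 2) (nat_lit 0) (.cons (.ev (nat_lit 79228167255149904709736726785) (nat_lit 1)) (.cons (.br (nat_lit 6) (nat_lit 0) (.cons (.ev (nat_lit 20282410812595937064129407287296) (nat_lit 1)) .nil)) (.cons (.kr (nat_lit 158457533954420347410300665856) (nat_lit 40564819212025707331863692967936) (nat_lit 2) (nat_lit 0)) .nil)))) .nil))))),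
 (.br (nat_lit 8) (nat_lit 0) (.cons (.rf (nat_lit 727) (nat_lit 493858305440582043680)) (.cons (.rf (nat_lit 728) (nat_lit 493858305440582043680)) (.cons (.rf (nat_lit 729) (nat_lit 493858305440582043680)) (.cons (.rf (nat_lit 730) (nat_lit 493858305440582043680)) (.cons (.br (nat_lit 8) (nat_lit 0) (.cons (.rf (nat_lit 727) (nat_lit 493858305440582043680)) (.cons (.rf (nat_lit 728) (nat_lit 493858305440582043680)) (.cons (.rf (nat_lit 729) (nat_lit 493858305440582043680)) (.cons (.rf (nat_lit 730) (nat_lit 493858305440582043680)) .nil))))) .nil)))))),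
 (.br (nat_lit 3) (nat_lit 0) (.cons (.kr (nat_lit 1208925891672223212634114) (nat_lit 4722366483969190395904) (nat_lit 0) (nat_lit 1)) (.cons (.rf (nat_lit 713) (nat_lit 493858305440582043680)) (.cons (.rf (nat_lit 726) (nat_lit 493858305440582043680)) (.cons (.rf (nat_lit 731) (nat_lit 493858305440582043680)) (.cons (.rf (nat_lit 731) (nat_lit 458117738797769787424)) .nil)))))),
 (.br (nat_lit 11) (nat_lit 0) (.cons (.ev (nat_lit 79228162532711364246036807936) (nat_lit 1)) (.cons (.ev (nat_lit 4740813226947666575361) (nat_lit 1)) (.cons (.ev (nat_lit 20282409603670117450599760920576) (nat_lit 1)) .nil)))),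
 (.br (nat_lit 6) (nat_lit 0) (.cons (.ev (nat_lit 72339073309671424) (nat_lit 1)) (.cons (.rf (nat_lit 733) (nat_lit 493858305440582043680)) (.cons (.rf (nat_lit 733) (nat_lit 458117738797769787424)) .nil)))),
 (.br (nat_lit 6) (nat_lit 0) (.cons (.ev (nat_lit 20361637770888301525889712193793) (nat_lit 1)) .nil)),
 (.br (nat_lit 11) (nat_lit 0) (.cons (.ev (nat_lit 72339073309671424) (nat_lit 1)) (.cons (.rf (nat_lit 734) (nat_lit 493858305440582043680)) (.cons (.rf (nat_lit 735) (nat_lit 493858305440582043680)) .nil)))),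
 (.br (nat_lit 8) (nat_lit 0) (.cons (.ev (nat_lit 79228162532711364246036873473) (nat_lit 1)) (.cons (.kr (nat_lit 1208925891672223212634113) (nat_lit 79228162532711081667253567488) (nat_lit 0) (nat_lit 1)) .nil))),
 (.br (nat_lit 6) (nat_lit 0) (.cons (.ev (nat_lit 72339073309671424) (nat_lit 1)) (.cons (.rf (nat_lit 737) (nat_lit 493858305440582043680)) (.cons (.rf (nat_lit 737) (nat_lit 458117738797769787424)) .nil)))),
 (.br (nat_lit 8) (nat_lit 0) (.cons (.ev (nat_lit 72339073309671424) (nat_lit 1)) (.cons (.rf (nat_lit 738) (nat_lit 493858305440582043680)) (.cons (.rf (nat_lit 735) (nat_lit 493750222348060035104)) .nil)))),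
 (.br (nat_lit 6) (nat_lit 0) (.cons (.br (nat_lit 11) (nat_lit 0) (.cons (.ev (nat_lit 158457557603435611696776216580) (nat_lit 3)) (.cons (.ev (nat_lit 41040189424371673289756416147458) (nat_lit 3)) .nil))) (.cons (.br (nat_lit 8) (nat_lit 0) (.cons (.br (nat_lit 8) (nat_lit 0) (.cons (.ev (nat_lit 79229376180969518239399804928) (nat_lit 1)) .nil)) (.cons (.br (nat_lit 8) (nat_lit 0) (.cons (.ev (nat_lit 79229376180969518239399804928) (nat_lit 1)) .nil)) .nil))) (.cons (.ev (nat_lit 4722366764348916957441) (nat_lit 1)) .nil)))),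
 (.br (nat_lit 3) (nat_lit 0) (.cons (.kr (nat_lit 1) (nat_lit 65536) (nat_lit 0) (nat_lit 1)) (.cons (.rf (nat_lit 713) (nat_lit 493858305440582043680)) (.cons (.rf (nat_lit 726) (nat_lit 493858305440582043680)) (.cons (.rf (nat_lit 732) (nat_lit 493858305440582043680)) (.cons (.br (nat_lit 2) (nat_lit 0) (.cons (.ev (nat_lit 4722366764348933734401) (nat_lit 1)) (.cons (.br (nat_lit 11) (nat_lit 0) (.cons (.ev (nat_lit 72339073309671424) (nat_lit 1)) (.cons (.rf (nat_lit 734) (nat_lit 493858305440582043680)) (.cons (.rf (nat_lit 736) (nat_lit 493858305440582043680)) (.cons (.rf (nat_lit 736) (nat_lit 458117738797769787424)) .nil))))) (.cons (.br (nat_lit 8) (nat_lit 0) (.cons (.ev (nat_lit 72339073309671424) (nat_lit 1)) (.cons (.rf (nat_lit 738) (nat_lit 493858305440582043680)) (.cons (.rf (nat_lit 739) (nat_lit 493858305440582043680)) (.cons (.rf (nat_lit 739) (nat_lit 458117738797769787424)) .nil))))) (.cons (.rf (nat_lit 740) (nat_lit 493858305440582043680)) (.cons (.rf (nat_lit 740) (nat_lit 458117738797769787424))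 .nil)))))) .nil)))))),
 (.br (nat_lit 3) (nat_lit 0) (.cons (.kr (nat_lit 1) (nat_lit 65536) (nat_lit 0) (nat_lit 1)) (.cons (.rf (nat_lit 713) (nat_lit 493858305440582043680)) (.cons (.rf (nat_lit 726) (nat_lit 493858305440582043680)) (.cons (.rf (nat_lit 732) (nat_lit 493858305440582043680)) (.cons (.rf (nat_lit 741) (nat_lit 493858305440582043680)) (.cons (.rf (nat_lit 741) (nat_lit 458117738797769787424)) .nil))))))),
 (.br (nat_lit 13) (nat_lit 0) (.cons (.br (nat_lit 12) (nat_lit 0) (.cons (.zr (nat_lit 1218370624640161526317060) (nat_lit 158765810056797045808810754304) (nat_lit 5) (nat_lit 4)) .nil)) (.cons (.br (nat_lit 11) (nat_lit 0) (.cons (.zr (nat_lit 1218370624640161526317060) (nat_lit 158765810056797045808810754304) (nat_lit 5) (nat_lit 4)) .nil)) .nil))),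
 (.br (nat_lit 13) (nat_lit 0) (.cons (.br (nat_lit 12) (nat_lit 0) (.cons (.ev (nat_lit 79228162532711364246036807681) (nat_lit 1)) .nil)) (.cons (.br (nat_lit 8) (nat_lit 0) (.cons (.ev (nat_lit 79228162532711364246036807681) (nat_lit 1)) .nil)) .nil))),
 (.br (nat_lit 4) (nat_lit 0) (.cons (.ev (nat_lit 20361637770888301525889728970753) (nat_lit 1)) .nil)),
 (.br (nat_lit 13) (nat_lit 0) (.cons (.ev (nat_lit 4722366764348916957184) (nat_lit 1)) (.cons (.rf (nat_lit 745) (nat_lit 493858305440582043680)) (.cons (.br (nat_lit 4) (nat_lit 0) (.cons (.ev (nat_lit 20282409608392555991063427285248) (nat_lit 1)) .nil)) .nil)))),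
 (.br (nat_lit 13) (nat_lit 0) (.cons (.ev (nat_lit 4722366764348916957184) (nat_lit 1)) (.cons (.br (nat_lit 13) (nat_lit 0) (.cons (.ev (nat_lit 4722366764348916957184) (nat_lit 1)) (.cons (.rf (nat_lit 745) (nat_lit 493858305440582043680)) (.cons (.kr (nat_lit 40564820416229232520117715206146) (nat_lit 158456329750895159156278296576) (nat_lit 0) (nat_lit 1)) .nil)))) (.cons (.rf (nat_lit 746) (nat_lit 493858305440582043680)) (.cons (.br (nat_lit 13) (nat_lit 0) (.cons (.ev (nat_lit 4722366764348916957184) (nat_lit 1)) (.cons (.kr (nat_lit 40564820416229232520117715206146) (nat_lit 158456329750895159156278296576) (nat_lit 0) (nat_lit 1)) (.cons (.rf (nat_lit 746) (nat_lit 493858305440582043680)) .nil)))) .nil))))),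
 (.br (nat_lit 4) (nat_lit 0) (.cons (.ev (nat_lit 72339073309671681) (nat_lit 1)) (.cons (.ev (nat_lit 79228171977660786445752729601) (nat_lit 2)) .nil))),
 (.br (nat_lit 8) (nat_lit 0) (.cons (.ev (nat_lit 20361637766166007100614104842241) (nat_lit 1)) .nil)),
 (.br (nat_lit 2) (nat_lit 0) (.cons (.rf (nat_lit 742) (nat_lit 493858305440582043680)) (.cons (.br (nat_lit 11) (nat_lit 0) (.cons (.ev (nat_lit 72339073309671681) (nat_lit 1)) (.cons (.rf (nat_lit 748) (nat_lit 493858305440582043680)) (.cons (.br (nat_lit 11) (nat_lit 0) (.cons (.ev (nat_lit 72339073309671681) (nat_lit 1)) (.cons (.rf (nat_lit 748) (nat_lit 493858305440582043680)) .nil))) .nil)))) (.cons (.br (nat_lit 4) (nat_lit 0) (.cons (.ev (nat_lit 72339073309671681) (nat_lit 1)) (.cons (.br (nat_lit 13) (nat_lit 0) (.cons (.br (nat_lit 12) (nat_lit 0) (.cons (.ev (nat_lit 20361637766166007100614104842241) (nat_lit 1)) .nil)) (.cons (.rf (nat_lit 749) (nat_lit 493858305440582043680)) .nil))) (.cons (.br (nat_lit 8) (nat_lit 0) (.cons (.ev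 (nat_lit 79228162532711364246036873473) (nat_lit 1)) (.cons (.kr (nat_lit 1208925891672223212634369) (nat_lit 79228162532711081667253633024) (nat_lit 0) (nat_lit 3)) .nil))) (.cons (.br (nat_lit 8) (nat_lit 0) (.cons (.zr (nat_lit 9463179712012023365634) (nat_lit 310693935713298771225870848) (nat_lit 5) (nat_lit 4)) (.cons (.ev (nat_lit 158457548158846761145527697412) (nat_lit 3)) (.cons (.br (nat_lit 11) (nat_lit 0) (.cons (.zr (nat_lit 9444732967938313748483) (nat_lit 20282719088661492050495264522752) (nat_lit 5) (nat_lit 4)) .nil)) .nil)))) .nil))))) (.cons (.br (nat_lit 4) (nat_lit 0) (.cons (.ev (nat_lit 792282905089510795588856973322) (nat_lit 4)) (.cons (.br (nat_lit 13) (nat_lit 0) (.cons (.ev (nat_lit 79228167255149904709736792065) (nat_lit 1)) (.cons (.br (nat_lit 8) (nat_lit 0) (.cons (.ev (nat_lit 79228167255149904709736792065) (nat_lit 1)) .nil)) .nil))) (.cons (.ev (nat_lit 4722366764348916957184) (nat_lit 1)) .nil)))) (.cons (.br (nat_lit 4) (nat_lit 0) (.cons (.br (nat_lit 12) (nat_lit 0)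 (.cons (.ev (nat_lit 79229371458530977775699951616) (nat_lit 1)) (.cons (.ev (nat_lit 40644047384040045430376199488259) (nat_lit 2)) .nil))) (.cons (.br (nat_lit 13) (nat_lit 0) (.cons (.ev (nat_lit 20282409617837361298075067548160) (nat_lit 2)) (.cons (.br (nat_lit 8) (nat_lit 0) (.cons (.zr (nat_lit 1218370624640161526317059) (nat_lit 158765810056797045808794042368) (nat_lit 5) (nat_lit 4)) .nil)) (.cons (.ev (nat_lit 121852915160586954622765298484228) (nat_lit 3)) .nil)))) (.cons (.ev (nat_lit 4722366764348916957184) (nat_lit 1)) (.cons (.br (nat_lit 12) (nat_lit 0) (.cons (.ev (nat_lit 158457548158846761145527697412) (nat_lit 3)) (.cons (.ev (nat_lit 20361637766166007100614121619456) (nat_lit 1)) .nil))) .nil))))) .nil))))))]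

theorem c28 : chkAll C T R L28 (nat_lit 722) = true := by decide +kernel

theorem l28 : (nat_lit 722) + L28.length = (nat_lit 751) := by decide +kernel

/-- part of the certificates -/
def L29 : List Prf := [(.br (nat_lit 3) (nat_lit 0) (.cons (.kr (nat_lit 256) (nat_lit 65536) (nat_lit 1) (nat_lit 0)) (.cons (.rf (nat_lit 742) (nat_lit 493858305440582011936)) (.cons (.br (nat_lit 2) (nat_lit 0) (.cons (.ev (nat_lit 72339073326448896) (nat_lit 1)) (.cons (.br (nat_lit 4) (nat_lit 0) (.cons (.ev (nat_lit 72339073309671681) (nat_lit 1)) (.cons (.rf (nat_lit 743) (nat_lit 493858305440582043680)) (.cons (.rf (nat_lit 743) (nat_lit 458117738797769787424)) .nil)))) (.cons (.br (nat_lit 4) (nat_lit 0) (.cons (.ev (nat_lit 72339073309671681) (nat_lit 1)) (.cons (.rf (nat_lit 744) (nat_lit 493858305440582043680)) (.cons (.rf (nat_lit 744) (nat_lit 458117738797769787424)) .nil)))) (.cons (.rf (nat_lit 747) (nat_lit 493858305440582043680)) (.cons (.rf (nat_lit 747) (nat_lit 458117738797769787424)) .nil)))))) (.cons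 (.rf (nat_lit 750) (nat_lit 493858305440582043680)) (.cons (.rf (nat_lit 750) (nat_lit 458117738797769787424)) .nil)))))),
 (.br (nat_lit 4) (nat_lit 0) (.cons (.ev (nat_lit 72339073309671681) (nat_lit 1)) (.cons (.br (nat_lit 8) (nat_lit 0) (.cons (.ev (nat_lit 20282409608392555991063427350528) (nat_lit 1)) .nil)) .nil))),
 (.br (nat_lit 8) (nat_lit 0) (.cons (.ev (nat_lit 158457557603435611696776217600) (nat_lit 3)) (.cons (.rf (nat_lit 140) (nat_lit 15398063458392049665)) .nil))),
 (.br (nat_lit 2) (nat_lit 0) (.cons (.rf (nat_lit 742) (nat_lit 493858305440582043680)) (.cons (.br (nat_lit 4) (nat_lit 0) (.cons (.br (nat_lit 13) (nat_lit 0) (.cons (.br (nat_lit 12) (nat_lit 0) (.cons (.ev (nat_lit 20361637766166007100614104842241) (nat_lit 1)) .nil)) (.cons (.rf (nat_lit 749) (nat_lit 493750222348060035104)) .nil))) (.cons (.ev (nat_lit 72339073309671681) (nat_lit 1)) (.cons (.br (nat_lit 8) (nat_lit 0) (.cons (.ev (nat_lit 158457567048024462247990789638) (nat_lit 3)) (.cons (.br (nat_lit 11) (nat_lit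 0) (.cons (.ev (nat_lit 20282410817318375604593107206400) (nat_lit 1)) .nil)) .nil))) (.cons (.br (nat_lit 8) (nat_lit 0) (.cons (.br (nat_lit 12) (nat_lit 0) (.cons (.ev (nat_lit 79229376180969518239399804928) (nat_lit 1)) .nil)) (.cons (.ev (nat_lit 79228167255149904709736726785) (nat_lit 1)) (.cons (.br (nat_lit 11) (nat_lit 0) (.cons (.ev (nat_lit 79229376180969518239399804928) (nat_lit 1)) .nil)) .nil)))) .nil))))) (.cons (.br (nat_lit 8) (nat_lit 0) (.cons (.ev (nat_lit 72339073309671681) (nat_lit 1)) (.cons (.rf (nat_lit 752) (nat_lit 493858305440582043680)) (.cons (.br (nat_lit 8) (nat_lit 0) (.cons (.ev (nat_lit 72339073309671681) (nat_lit 1)) (.cons (.rf (nat_lit 752) (nat_lit 493858305440582043680)) .nil))) .nil)))) (.cons (.br (nat_lit 13) (nat_lit 0) (.cons (.ev (nat_lit 4722366764348916957184) (nat_lit 1)) (.cons (.rf (nat_lit 753) (nat_lit 493858305440582043680)) (.cons (.br (nat_lit 13) (nat_lit 0) (.cons (.ev (nat_lit 4722366764348916957184) (nat_lit 1)) (.cons (.rf (nat_lit 753) (nat_lit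 493858305440582043680)) .nil))) .nil)))) (.cons (.br (nat_lit 4) (nat_lit 0) (.cons (.br (nat_lit 8) (nat_lit 0) (.cons (.br (nat_lit 12) (nat_lit 0) (.cons (.ev (nat_lit 79228167255149904709719949568) (nat_lit 1)) .nil)) (.cons (.ev (nat_lit 79229376180969518239383027713) (nat_lit 1)) (.cons (.br (nat_lit 11) (nat_lit 0) (.cons (.ev (nat_lit 79228167255149904709719949568) (nat_lit 1)) .nil)) .nil)))) (.cons (.br (nat_lit 12) (nat_lit 0) (.cons (.br (nat_lit 8) (nat_lit 0) (.cons (.zr (nat_lit 1218370624640161526317059) (nat_lit 158765810056797045808794042368) (nat_lit 5) (nat_lit 4)) .nil)) (.cons (.zr (nat_lit 40564820430396259912232158102528) (nat_lit 237993972552686696922666434562) (nat_lit 5) (nat_lit 12)) .nil))) (.cons (.ev (nat_lit 4722366764348916957184) (nat_lit 1)) (.cons (.br (nat_lit 12) (nat_lit 0) (.cons (.ev (nat_lit 20361637766166007100614121619456) (nat_lit 1)) (.cons (.kr (nat_lit 79228162514264337593544015873) (nat_lit 20282409603651670423947268063488) (nat_lit 0) (nat_lit 4)) .nil)))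 .nil))))) .nil)))))),
 (.br (nat_lit 3) (nat_lit 0) (.cons (.kr (nat_lit 256) (nat_lit 65536) (nat_lit 1) (nat_lit 0)) (.cons (.rf (nat_lit 742) (nat_lit 493858305440582011936)) (.cons (.rf (nat_lit 751) (nat_lit 493858305440582043680)) (.cons (.rf (nat_lit 754) (nat_lit 493858305440582043680)) (.cons (.rf (nat_lit 754) (nat_lit 458117738797769787424)) .nil)))))),
 (.br (nat_lit 11) (nat_lit 0) (.cons (.ev (nat_lit 20282409603670117450599760920576) (nat_lit 1)) .nil)),
 (.br (nat_lit 4) (nat_lit 0) (.cons (.ev (nat_lit 72339073309671681) (nat_lit 1)) (.cons (.rf (nat_lit 756) (nat_lit 493858305440582043680)) (.cons (.rf (nat_lit 756) (nat_lit 458117738797769787424)) .nil)))),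
 (.br (nat_lit 4) (nat_lit 0) (.cons (.ev (nat_lit 20361637770888301525889712128256) (nat_lit 1)) (.cons (.ev (nat_lit 20361637770888301525889712193536) (nat_lit 1)) .nil))),
 (.br (nat_lit 11) (nat_lit 0) (.cons (.ev (nat_lit 72339073309671681) (nat_lit 1)) (.cons (.rf (nat_lit 757) (nat_lit 493858305440582043680)) (.cons (.rf (nat_lit 758) (nat_lit 493858305440582043680)) .nil)))),
 (.br (nat_lit 8) (nat_lit 0) (.cons (.ev (nat_lit 79228162532711364246036873473) (nat_lit 1)) (.cons (.kr (nat_lit 1208925891672223212634113) (nat_lit 79228162532711081667253567488) (nat_lit 0) (nat_lit 1)) .nil))),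
 (.br (nat_lit 4) (nat_lit 0) (.cons (.ev (nat_lit 72339073309671681) (nat_lit 1)) (.cons (.rf (nat_lit 760) (nat_lit 493858305440582043680)) (.cons (.rf (nat_lit 760) (nat_lit 458117738797769787424)) .nil)))),
 (.br (nat_lit 8) (nat_lit 0) (.cons (.ev (nat_lit 72339073309671681) (nat_lit 1)) (.cons (.rf (nat_lit 761) (nat_lit 493858305440582043680)) (.cons (.rf (nat_lit 758) (nat_lit 493750222348060035104)) .nil)))),
 (.br (nat_lit 4) (nat_lit 0) (.cons (.br (nat_lit 11) (nat_lit 0) (.cons (.ev (nat_lit 158457557603435611696776217600) (nat_lit 3)) (.cons (.ev (nat_lit 41040189424371673289756416148486) (nat_lit 3)) .nil))) (.cons (.br (nat_lit 8) (nat_lit 0) (.cons (.br (nat_lit 8) (nat_lit 0) (.cons (.ev (nat_lit 79229376180969518239399804928) (nat_lit 1)) .nil)) (.cons (.br (nat_lit 8) (nat_lit 0) (.cons (.ev (nat_lit 79229376180969518239399804928) (nat_lit 1)) .nil)) .nil))) (.cons (.ev (nat_lit 4722366764348916957184) (nat_lit 1)) .nil)))),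
 (.br (nat_lit 3) (nat_lit 0) (.cons (.kr (nat_lit 256) (nat_lit 65536) (nat_lit 1) (nat_lit 0)) (.cons (.rf (nat_lit 742) (nat_lit 493858305440582011936)) (.cons (.rf (nat_lit 751) (nat_lit 493858305440582043680)) (.cons (.rf (nat_lit 755) (nat_lit 493858305440582043680)) (.cons (.br (nat_lit 2) (nat_lit 0) (.cons (.ev (nat_lit 4722366764348933734401) (nat_lit 1)) (.cons (.br (nat_lit 11) (nat_lit 0) (.cons (.ev (nat_lit 72339073309671681) (nat_lit 1)) (.cons (.rf (nat_lit 757) (nat_lit 493858305440582043680)) (.cons (.rf (nat_lit 759) (nat_lit 493858305440582043680)) (.cons (.rf (nat_lit 759) (nat_lit 458117738797769787424)) .nil))))) (.cons (.br (nat_lit 8) (nat_lit 0) (.cons (.ev (nat_lit 72339073309671681) (nat_lit 1)) (.cons (.rf (nat_lit 761) (nat_lit 493858305440582043680)) (.cons (.rf (nat_lit 762) (nat_lit 493858305440582043680)) (.cons (.rf (nat_lit 762) (nat_lit 458117738797769787424)) .nil))))) (.cons (.rf (nat_lit 763) (nat_lit 493858305440582043680)) (.cons (.rf (nat_lit 763) (nat_lit 458117738797769787424))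 .nil)))))) .nil)))))),
 (.br (nat_lit 3) (nat_lit 0) (.cons (.kr (nat_lit 256) (nat_lit 65536) (nat_lit 1) (nat_lit 0)) (.cons (.rf (nat_lit 742) (nat_lit 493858305440582011936)) (.cons (.rf (nat_lit 751) (nat_lit 493858305440582043680)) (.cons (.rf (nat_lit 755) (nat_lit 493858305440582043680)) (.cons (.rf (nat_lit 764) (nat_lit 493858305440582043680)) (.cons (.rf (nat_lit 764) (nat_lit 458117738797769787424)) .nil))))))),
 (.br (nat_lit 12) (nat_lit 0) (.cons (.ev (nat_lit 4722366764348933734656) (nat_lit 1)) (.cons (.br (nat_lit 6) (nat_lit 0) (.cons (.ev (nat_lit 4722366764348933734656) (nat_lit 1)) .nil)) .nil))),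
 (.br (nat_lit 6) (nat_lit 0) (.cons (.ev (nat_lit 4722366764348933734656) (nat_lit 1)) (.cons (.br (nat_lit 11) (nat_lit 0) (.cons (.ev (nat_lit 41040189396037330277350435324930) (nat_lit 3)) .nil)) (.cons (.br (nat_lit 11) (nat_lit 0) (.cons (.ev (nat_lit 40644047379317751005100575425025) (nat_lit 2)) .nil)) .nil)))),
 (.br (nat_lit 4) (nat_lit 0) (.cons (.ev (nat_lit 4722366764348933734656) (nat_lit 1)) (.cons (.br (nat_lit 11) (nat_lit 0) (.cons (.ev (nat_lit 41040189396037330277350435323910) (nat_lit 3)) .nil)) (.cons (.rf (nat_lit 767) (nat_lit 493858305440582043680)) .nil)))),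
 (.br (nat_lit 13) (nat_lit 0) (.cons (.rf (nat_lit 767) (nat_lit 493858305440582043680)) (.cons (.rf (nat_lit 768) (nat_lit 493858305440582043680)) (.cons (.br (nat_lit 4) (nat_lit 0) (.cons (.ev (nat_lit 79228167255149904709720014848) (nat_lit 1)) .nil)) .nil)))),
 (.br (nat_lit 13) (nat_lit 0) (.cons (.rf (nat_lit 767) (nat_lit 493858305440582043680)) (.cons (.rf (nat_lit 768) (nat_lit 493858305440582043680)) (.cons (.rf (nat_lit 769) (nat_lit 493858305440582043680)) (.cons (.br (nat_lit 13) (nat_lit 0) (.cons (.rf (nat_lit 767) (nat_lit 493858305440582043680)) (.cons (.rf (nat_lit 768) (nat_lit 493858305440582043680)) (.cons (.rf (nat_lit 769) (nat_lit 493858305440582043680)) .nil)))) .nil))))),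
 (.br (nat_lit 3) (nat_lit 0) (.cons (.rf (nat_lit 742) (nat_lit 493858305440582011936)) (.cons (.rf (nat_lit 765) (nat_lit 493858305440582011936)) (.cons (.br (nat_lit 4) (nat_lit 0) (.cons (.zr (nat_lit 4740813229142394863616) (nat_lit 310693935641241177171165185) (nat_lit 5) (nat_lit 8)) (.cons (.rf (nat_lit 766) (nat_lit 15433035725666355232)) (.cons (.rf (nat_lit 766) (nat_lit 14316143018078472224)) .nil)))) (.cons (.rf (nat_lit 770) (nat_lit 493858305440582043680)) (.cons (.rf (nat_lit 770) (nat_lit 458117738797769787424)) .nil)))))),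
 (.br (nat_lit 6) (nat_lit 0) (.cons (.ev (nat_lit 4722366764348933734656) (nat_lit 1)) (.cons (.br (nat_lit 8) (nat_lit 0) (.cons (.ev (nat_lit 79228162532711364246036807936) (nat_lit 1)) .nil)) (.cons (.br (nat_lit 8) (nat_lit 0) (.cons (.ev (nat_lit 20282409608392555991063427350528) (nat_lit 1)) .nil)) .nil)))),
 (.br (nat_lit 4) (nat_lit 0) (.cons (.ev (nat_lit 4722366764348933734656) (nat_lit 1)) (.cons (.br (nat_lit 8) (nat_lit 0) (.cons (.ev (nat_lit 79228162532711364246036807681) (nat_lit 1)) .nil)) (.cons (.rf (nat_lit 772) (nat_lit 493858305440582043680)) .nil)))),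
 (.br (nat_lit 13) (nat_lit 0) (.cons (.rf (nat_lit 772) (nat_lit 493858305440582043680)) (.cons (.rf (nat_lit 773) (nat_lit 493858305440582043680)) (.cons (.br (nat_lit 13) (nat_lit 0) (.cons (.rf (nat_lit 772) (nat_lit 493858305440582043680)) (.cons (.rf (nat_lit 773) (nat_lit 493858305440582043680)) (.cons (.kr (nat_lit 40564820416229232520117715206146) (nat_lit 158456329750895159156244873216) (nat_lit 0) (nat_lit 1)) .nil)))) (.cons (.br (nat_lit 13) (nat_lit 0) (.cons (.rf (nat_lit 772) (nat_lit 493858305440582043680)) (.cons (.rf (nat_lit 773) (nat_lit 493858305440582043680)) (.cons (.kr (nat_lit 40564820416229232520117715206146) (nat_lit 158456329750895159156244873216) (nat_lit 0) (nat_lit 1)) .nil)))) .nil))))),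
 (.br (nat_lit 3) (nat_lit 0) (.cons (.rf (nat_lit 742) (nat_lit 493858305440582011936)) (.cons (.rf (nat_lit 765) (nat_lit 493858305440582011936)) (.cons (.rf (nat_lit 771) (nat_lit 493858305440582043680)) (.cons (.rf (nat_lit 774) (nat_lit 493858305440582043680)) (.cons (.rf (nat_lit 774) (nat_lit 458117738797769787424)) .nil)))))),
 (.br (nat_lit 6) (nat_lit 0) (.cons (.br (nat_lit 11) (nat_lit 0) (.cons (.ev (nat_lit 20282409608392555991063427284993) (nat_lit 1)) .nil)) (.cons (.br (nat_lit 8) (nat_lit 0) (.cons (.ev (nat_lit 121852915179476708784619997365766) (nat_lit 3)) .nil)) (.cons (.ev (nat_lit 72339073326448641) (nat_lit 1)) .nil)))),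
 (.br (nat_lit 4) (nat_lit 0) (.cons (.br (nat_lit 11) (nat_lit 0) (.cons (.ev (nat_lit 20282409608392555991063427285248) (nat_lit 1)) .nil)) (.cons (.br (nat_lit 8) (nat_lit 0) (.cons (.ev (nat_lit 121852915179476708784619997365248) (nat_lit 3)) .nil)) (.cons (.ev (nat_lit 72339073326448641) (nat_lit 1)) .nil)))),
 (.br (nat_lit 13) (nat_lit 0) (.cons (.rf (nat_lit 776) (nat_lit 458117738797769787424)) (.cons (.rf (nat_lit 777) (nat_lit 458117738797769787424)) (.cons (.br (nat_lit 4) (nat_lit 0) (.cons (.ev (nat_lit 40881733080564215025747791840260) (nat_lit 3)) .nil)) .nil)))),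
 (.br (nat_lit 3) (nat_lit 0) (.cons (.rf (nat_lit 742) (nat_lit 493858305440582011936)) (.cons (.rf (nat_lit 765) (nat_lit 493858305440582011936)) (.cons (.rf (nat_lit 771) (nat_lit 493858305440582043680)) (.cons (.rf (nat_lit 775) (nat_lit 493858305440582043680)) (.cons (.br (nat_lit 12) (nat_lit 0) (.cons (.rf (nat_lit 776) (nat_lit 493858305440582043680)) (.cons (.rf (nat_lit 777) (nat_lit 493858305440582043680)) (.cons (.rf (nat_lit 778) (nat_lit 493858305440582043680)) (.cons (.br (nat_lit 13) (nat_lit 0) (.cons (.rf (nat_lit 776) (nat_lit 458117738797769787424)) (.cons (.rf (nat_lit 777) (nat_lit 458117738797769787424)) (.cons (.rf (nat_lit 778) (nat_lit 458117738797769787424)) .nil)))) (.cons (.kr (nat_lit 79228162514264337593543950336) (nat_lit 20282409603651670423947251286016) (nat_lit 12) (nat_lit 0)) .nil)))))) .nil)))))),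
 (.br (nat_lit 3) (nat_lit 0) (.cons (.rf (nat_lit 742) (nat_lit 493858305440582011936)) (.cons (.rf (nat_lit 765) (nat_lit 493858305440582011936)) (.cons (.rf (nat_lit 771) (nat_lit 493858305440582043680)) (.cons (.rf (nat_lit 775) (nat_lit 493858305440582043680)) (.cons (.rf (nat_lit 779) (nat_lit 493858305440582043680)) (.cons (.rf (nat_lit 779) (nat_lit 458117738797769787424)) .nil))))))),
 (.br (nat_lit 13) (nat_lit 0) (.cons (.br (nat_lit 11) (nat_lit 0) (.cons (.ev (nat_lit 20282409603670117450599744143616) (nat_lit 1)) .nil)) (.cons (.br (nat_lit 6) (nat_lit 0) (.cons (.ev (nat_lit 20282409603670117450599744143616) (nat_lit 1)) .nil)) .nil)))]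

theorem c29 : chkAll C T R L29 (nat_lit 751) = true := by decide +kernel

theorem l29 : (nat_lit 751) + L29.length = (nat_lit 782) := by decide +kernel

end Pool.Agent.H93.Neg.Q14_4_0_4_6_0
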