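import Pool.Agent.H93.Neg.TabQ14_4_0_4_6_0

/-!
Certificates.
-/

set_option autoImplicit false
set_option maxRecDepth 100000
set_option linter.all false

namespace Pool.Agent.H93.Neg.Q14_4_0_4_6_0

/-- part of the certificates -/
def L30 : List Prf := [(.br (nat_lit 4) (nat_lit 0) (.cons (.rf (nat_lit 781) (nat_lit 493858305440582043680)) (.cons (.br (nat_lit 11) (nat_lit 0) (.cons (.ev (nat_lit 20282409603670117450599744143361) (nat_lit 1)) .nil)) .nil))),
 (.br (nat_lit 11) (nat_lit 0) (.cons (.ev (nat_lit 79228162532711364246036807936) (nat_lit 1)) (.cons (.ev (nat_lit 79229376162522492690696830976) (nat_lit 1)) (.cons (.zr (nat_lit 1218370624640161526317059) (nat_lit 158765810056797045808827465728) (nat_lit 5) (nat_lit 4)) .nil)))),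
 (.br (nat_lit 13) (nat_lit 0) (.cons (.ev (nat_lit 475370198290268678882046377990) (nat_lit 4)) (.cons (.kr (nat_lit 40564819212025707331863659544576) (nat_lit 158457533954420347410334089216) (nat_lit 2) (nat_lit 0)) .nil))),
 (.br (nat_lit 3) (nat_lit 0) (.cons (.rf (nat_lit 742) (nat_lit 493858305440582011936)) (.cons (.rf (nat_lit 765) (nat_lit 493858305440582011936)) (.cons (.rf (nat_lit 780) (nat_lit 493858305440582011936)) (.cons (.br (nat_lit 11) (nat_lit 0) (.cons (.rf (nat_lit 781) (nat_lit 493858305440582043680)) (.cons (.rf (nat_lit 782) (nat_lit 493858305440582043680)) (.cons (.br (nat_lit 11) (nat_lit 0) (.cons (.rf (nat_lit 781) (nat_lit 493858305440582043680)) (.cons (.rf (nat_lit 782) (nat_lit 493858305440582043680)) .nil))) .nil)))) (.cons (.br (nat_lit 4) (nat_lit 0) (.cons (.ev (nat_lit 4722366764348933734401) (nat_lit 1)) (.cons (.br (nat_lit 6) (nat_lit 0) (.cons (.ev (nat_lit 4722366764348933734656) (nat_lit 1)) (.cons (.rf (nat_lit 783) (nat_lit 493858305440582043680)) (.cons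 (.rf (nat_lit 783) (nat_lit 458117738797769755680)) .nil)))) (.cons (.rf (nat_lit 784) (nat_lit 493858305440582043680)) (.cons (.rf (nat_lit 784) (nat_lit 458117738797769755680)) .nil))))) .nil)))))),
 (.br (nat_lit 13) (nat_lit 0) (.cons (.br (nat_lit 8) (nat_lit 0) (.cons (.ev (nat_lit 79228162532711364246053584896) (nat_lit 1)) .nil)) (.cons (.br (nat_lit 6) (nat_lit 0) (.cons (.ev (nat_lit 79228162532711364246053584896) (nat_lit 1)) .nil)) .nil))),
 (.br (nat_lit 3) (nat_lit 0) (.cons (.rf (nat_lit 742) (nat_lit 493858305440582011936)) (.cons (.rf (nat_lit 765) (nat_lit 493858305440582011936)) (.cons (.rf (nat_lit 780) (nat_lit 493858305440582011936)) (.cons (.br (nat_lit 4) (nat_lit 0) (.cons (.ev (nat_lit 72339073326448896) (nat_lit 1)) (.cons (.br (nat_lit 13) (nat_lit 0) (.cons (.ev (nat_lit 475370217179446379984475522050) (nat_lit 4)) (.cons (.br (nat_lit 6) (nat_lit 0) (.cons (.ev (nat_lit 475370217179446379984475522050) (nat_lit 4)) .nil)) .nil))) (.cons (.rf (nat_lit 786) (nat_lit 493858305440582043680))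 (.cons (.br (nat_lit 6) (nat_lit 0) (.cons (.ev (nat_lit 475370217179446379984475524616) (nat_lit 4)) (.cons (.br (nat_lit 8) (nat_lit 0) (.cons (.ev (nat_lit 79229376180969518239399804928) (nat_lit 1)) .nil)) (.cons (.ev (nat_lit 72339073326448641) (nat_lit 1)) .nil)))) .nil))))) (.cons (.br (nat_lit 4) (nat_lit 0) (.cons (.br (nat_lit 8) (nat_lit 0) (.cons (.br (nat_lit 12) (nat_lit 0) (.cons (.ev (nat_lit 121694458864003593533017353748480) (nat_lit 3)) .nil)) (.cons (.ev (nat_lit 475370217179157014895076311040) (nat_lit 3)) (.cons (.br (nat_lit 11) (nat_lit 0) (.cons (.ev (nat_lit 20520094100639196965425733894146) (nat_lit 2)) .nil)) .nil)))) (.cons (.br (nat_lit 6) (nat_lit 0) (.cons (.ev (nat_lit 4722366764348933734656) (nat_lit 1)) (.cons (.br (nat_lit 11) (nat_lit 0) (.cons (.ev (nat_lit 20282409608392555991063427285248) (nat_lit 1)) .nil)) (.cons (.br (nat_lit 11) (nat_lit 0) (.cons (.ev (nat_lit 79229376180969518239399870465) (nat_lit 1)) .nil)) .nil)))) (.cons (.br (nat_lit 6) (nat_lit 0)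 (.cons (.ev (nat_lit 4722366764348933734656) (nat_lit 1)) (.cons (.br (nat_lit 8) (nat_lit 0) (.cons (.ev (nat_lit 79228176699955211721343369216) (nat_lit 2)) .nil)) (.cons (.br (nat_lit 8) (nat_lit 0) (.cons (.zr (nat_lit 2422574149828415582110464) (nat_lit 158765810056797045808827465728) (nat_lit 5) (nat_lit 6)) .nil)) .nil)))) (.cons (.br (nat_lit 6) (nat_lit 0) (.cons (.br (nat_lit 11) (nat_lit 0) (.cons (.ev (nat_lit 20282409608392555991063427284993) (nat_lit 1)) .nil)) (.cons (.br (nat_lit 8) (nat_lit 0) (.cons (.ev (nat_lit 79228176699955211721343369475) (nat_lit 2)) .nil)) (.cons (.ev (nat_lit 72339073326448641) (nat_lit 1)) .nil)))) (.cons (.br (nat_lit 12) (nat_lit 0) (.cons (.ev (nat_lit 72339073326448641) (nat_lit 1)) (.cons (.kr (nat_lit 40564820416229232520117715337216) (nat_lit 158456329750895159156278296576) (nat_lit 2) (nat_lit 0)) (.cons (.br (nat_lit 6) (nat_lit 0) (.cons (.ev (nat_lit 79229376180969518239399870720) (nat_lit 1)) .nil)) .nil)))) .nil)))))) .nil)))))),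
 (.br (nat_lit 3) (nat_lit 0) (.cons (.rf (nat_lit 742) (nat_lit 493858305440582011936)) (.cons (.rf (nat_lit 765) (nat_lit 493858305440582011936)) (.cons (.rf (nat_lit 785) (nat_lit 493858305440582043680)) (.cons (.rf (nat_lit 787) (nat_lit 493858305440582043680)) (.cons (.br (nat_lit 4) (nat_lit 0) (.cons (.br (nat_lit 8) (nat_lit 0) (.cons (.ev (nat_lit 79231794032536971382966386691) (nat_lit 2)) (.cons (.ev (nat_lit 79228162532711364246053585153) (nat_lit 1)) .nil))) (.cons (.br (nat_lit 6) (nat_lit 0) (.cons (.br (nat_lit 11) (nat_lit 0) (.cons (.ev (nat_lit 41040189405481919127901616473090) (nat_lit 3)) .nil)) (.cons (.ev (nat_lit 40564820430433658933853043426818) (nat_lit 3)) .nil))) (.cons (.br (nat_lit 6) (nat_lit 0) (.cons (.br (nat_lit 11) (nat_lit 0) (.cons (.ev (nat_lit 41040189405481919127901616473090) (nat_lit 3)) .nil)) (.cons (.br (nat_lit 8) (nat_lit 0) (.cons (.ev (nat_lit 79229376180969518239399804928) (nat_lit 1)) .nil)) (.cons (.ev (nat_lit 72339073326448641) (nat_lit 1)) .nil))))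 (.cons (.rf (nat_lit 786) (nat_lit 420143386739781765152)) .nil))))) .nil)))))),
 (.br (nat_lit 3) (nat_lit 0) (.cons (.rf (nat_lit 742) (nat_lit 493858305440582011936)) (.cons (.rf (nat_lit 765) (nat_lit 493858305440582011936)) (.cons (.rf (nat_lit 785) (nat_lit 493858305440582043680)) (.cons (.rf (nat_lit 787) (nat_lit 493858305440582043680)) (.cons (.rf (nat_lit 788) (nat_lit 493858305440582043680)) (.cons (.br (nat_lit 3) (nat_lit 0) (.cons (.rf (nat_lit 742) (nat_lit 493858305440582011936)) (.cons (.rf (nat_lit 765) (nat_lit 493858305440582011936)) (.cons (.rf (nat_lit 785) (nat_lit 493858305440582043680)) (.cons (.rf (nat_lit 787) (nat_lit 493858305440582043680)) (.cons (.rf (nat_lit 788) (nat_lit 493858305440582043680)) .nil)))))) .nil))))))),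
 (.br (nat_lit 2) (nat_lit 0) (.cons (.rf (nat_lit 689) (nat_lit 493858305440582043680)) (.cons (.rf (nat_lit 742) (nat_lit 493858305440582043680)) (.cons (.rf (nat_lit 765) (nat_lit 493858305440582043680)) (.cons (.rf (nat_lit 780) (nat_lit 493858305440582043680)) (.cons (.rf (nat_lit 789) (nat_lit 493858305440582043680)) (.cons (.rf (nat_lit 789) (nat_lit 458117738797769787424)) .nil))))))),
 (.br (nat_lit 13) (nat_lit 0) (.cons (.br (nat_lit 8) (nat_lit 0) (.cons (.ev (nat_lit 121694458864003593533017387435526) (nat_lit 3)) .nil)) (.cons (.br (nat_lit 6) (nat_lit 0) (.cons (.ev (nat_lit 121694458864003593533017387435526) (nat_lit 3)) .nil)) .nil))),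
 (.br (nat_lit 4) (nat_lit 0) (.cons (.rf (nat_lit 791) (nat_lit 493858305440582043680)) (.cons (.br (nat_lit 8) (nat_lit 0) (.cons (.ev (nat_lit 121694458864003593533017387435526) (nat_lit 3)) .nil)) .nil))),
 (.br (nat_lit 8) (nat_lit 0) (.cons (.ev (nat_lit 79228167255149904709720014848) (nat_lit 1)) .nil)),
 (.br (nat_lit 6) (nat_lit 0) (.cons (.br (nat_lit 8) (nat_lit 0) (.cons (.ev (nat_lit 79229371458530977775699951616) (nat_lit 1)) .nil)) (.cons (.kr (nat_lit 20282409603651670423947251351553) (nat_lit 79228162514264337593560727808) (nat_lit 0) (nat_lit 4)) .nil))),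
 (.br (nat_lit 3) (nat_lit 0) (.cons (.rf (nat_lit 742) (nat_lit 493858305440582011936)) (.cons (.rf (nat_lit 765) (nat_lit 493858305440582011936)) (.cons (.rf (nat_lit 790) (nat_lit 493858305440582011936)) (.cons (.br (nat_lit 8) (nat_lit 0) (.cons (.rf (nat_lit 791) (nat_lit 493858305440582043680)) (.cons (.rf (nat_lit 792) (nat_lit 493858305440582043680)) (.cons (.br (nat_lit 8) (nat_lit 0) (.cons (.rf (nat_lit 791) (nat_lit 493858305440582043680)) (.cons (.rf (nat_lit 792) (nat_lit 493858305440582043680)) .nil))) .nil)))) (.cons (.br (nat_lit 4) (nat_lit 0) (.cons (.ev (nat_lit 4722366764348933734401) (nat_lit 1)) (.cons (.br (nat_lit 6) (nat_lit 0) (.cons (.ev (nat_lit 4722366764348933734656) (nat_lit 1)) (.cons (.rf (nat_lit 793) (nat_lit 493858305440582043680)) (.cons (.rf (nat_lit 793) (nat_lit 458117738797769755680)) .nil)))) (.cons (.rf (nat_lit 794) (nat_lit 493858305440582043680)) (.cons (.rf (nat_lit 794) (nat_lit 458117738797769755680)) .nil))))) .nil)))))),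
 (.br (nat_lit 6) (nat_lit 0) (.cons (.ev (nat_lit 158457538713681449842110759940) (nat_lit 3)) (.cons (.br (nat_lit 8) (nat_lit 0) (.cons (.ev (nat_lit 79228167255149904709719949568) (nat_lit 1)) .nil)) (.cons (.ev (nat_lit 72339073326448641) (nat_lit 1)) .nil)))),
 (.br (nat_lit 4) (nat_lit 0) (.cons (.ev (nat_lit 158457538713681449842110759940) (nat_lit 3)) (.cons (.br (nat_lit 8) (nat_lit 0) (.cons (.ev (nat_lit 79228167255149904709719949313) (nat_lit 1)) .nil)) (.cons (.ev (nat_lit 72339073326448641) (nat_lit 1)) .nil)))),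
 (.br (nat_lit 8) (nat_lit 0) (.cons (.rf (nat_lit 796) (nat_lit 493858305440582043680)) (.cons (.rf (nat_lit 797) (nat_lit 493858305440582043680)) (.cons (.br (nat_lit 4) (nat_lit 0) (.cons (.ev (nat_lit 20282410812595937064129423998976) (nat_lit 1)) .nil)) .nil)))),
 (.br (nat_lit 3) (nat_lit 0) (.cons (.rf (nat_lit 742) (nat_lit 493858305440582011936)) (.cons (.rf (nat_lit 765) (nat_lit 493858305440582011936)) (.cons (.rf (nat_lit 790) (nat_lit 493858305440582011936)) (.cons (.rf (nat_lit 795) (nat_lit 493858305440582043680)) (.cons (.br (nat_lit 8) (nat_lit 0) (.cons (.rf (nat_lit 796) (nat_lit 493858305440582043680)) (.cons (.rf (nat_lit 797) (nat_lit 493858305440582043680)) (.cons (.rf (nat_lit 798) (nat_lit 493858305440582043680)) (.cons (.br (nat_lit 8) (nat_lit 0) (.cons (.rf (nat_lit 796) (nat_lit 493858305440582043680)) (.cons (.rf (nat_lit 797) (nat_lit 493858305440582043680)) (.cons (.rf (nat_lit 798) (nat_lit 493858305440582043680)) .nil)))) .nil))))) .nil)))))),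
 (.br (nat_lit 3) (nat_lit 0) (.cons (.rf (nat_lit 742) (nat_lit 493858305440582011936)) (.cons (.rf (nat_lit 765) (nat_lit 493858305440582011936)) (.cons (.rf (nat_lit 790) (nat_lit 493858305440582011936)) (.cons (.rf (nat_lit 795) (nat_lit 493858305440582043680)) (.cons (.rf (nat_lit 799) (nat_lit 493858305440582043680)) (.cons (.br (nat_lit 3) (nat_lit 0) (.cons (.rf (nat_lit 742) (nat_lit 493858305440582011936)) (.cons (.rf (nat_lit 765) (nat_lit 493858305440582011936)) (.cons (.rf (nat_lit 790) (nat_lit 493858305440582011936)) (.cons (.rf (nat_lit 795) (nat_lit 493858305440582043680)) (.cons (.rf (nat_lit 799) (nat_lit 493858305440582043680)) .nil)))))) .nil))))))),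
 (.br (nat_lit 2) (nat_lit 0) (.cons (.kr (nat_lit 1208925891672223212634114) (nat_lit 4722366483969156972544) (nat_lit 0) (nat_lit 1)) (.cons (.rf (nat_lit 742) (nat_lit 493858305440582043680)) (.cons (.rf (nat_lit 765) (nat_lit 493858305440582043680)) (.cons (.rf (nat_lit 790) (nat_lit 493858305440582043680)) (.cons (.rf (nat_lit 800) (nat_lit 493858305440582043680)) (.cons (.rf (nat_lit 800) (nat_lit 458117738797769787424)) .nil))))))),
 (.br (nat_lit 3) (nat_lit 0) (.cons (.rf (nat_lit 742) (nat_lit 493858305440582011936)) (.cons (.rf (nat_lit 765) (nat_lit 493858305440582011936)) (.cons (.rf (nat_lit 790) (nat_lit 493858305440582011936)) (.cons (.rf (nat_lit 801) (nat_lit 493858305440582011936)) (.cons (.br (nat_lit 6) (nat_lit 0) (.cons (.ev (nat_lit 20361637770888301525889728970753) (nat_lit 1)) (.cons (.rf (nat_lit 766) (nat_lit 12985263424066914305)) (.cons (.rf (nat_lit 766) (nat_lit 9634585301303265281)) .nil)))) .nil)))))),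
 (.br (nat_lit 2) (nat_lit 0) (.cons (.rf (nat_lit 689) (nat_lit 493858305440582043680)) (.cons (.rf (nat_lit 742) (nat_lit 493858305440582043680)) (.cons (.rf (nat_lit 765) (nat_lit 493858305440582043680)) (.cons (.rf (nat_lit 790) (nat_lit 493858305440582043680)) (.cons (.rf (nat_lit 801) (nat_lit 493858305440582043680)) (.cons (.br (nat_lit 3) (nat_lit 0) (.cons (.rf (nat_lit 742) (nat_lit 493858305440582011936)) (.cons (.rf (nat_lit 765) (nat_lit 493858305440582011936)) (.cons (.rf (nat_lit 790) (nat_lit 493858305440582011936)) (.cons (.rf (nat_lit 801) (nat_lit 493858305440582011936)) (.cons (.rf (nat_lit 802) (nat_lit 493858305440582043680)) (.cons (.rf (nat_lit 802) (nat_lit 458117738797769787424)) .nil))))))) .nil))))))),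
 (.br (nat_lit 2) (nat_lit 0) (.cons (.rf (nat_lit 689) (nat_lit 493858305440582043680)) (.cons (.rf (nat_lit 742) (nat_lit 493858305440582043680)) (.cons (.rf (nat_lit 765) (nat_lit 493858305440582043680)) (.cons (.rf (nat_lit 790) (nat_lit 493858305440582043680)) (.cons (.rf (nat_lit 801) (nat_lit 493858305440582043680)) (.cons (.rf (nat_lit 803) (nat_lit 493858305440582043680)) (.cons (.rf (nat_lit 803) (nat_lit 458117738797769787424)) .nil)))))))),
 (.br (nat_lit 1) (nat_lit 0) (.cons (.kr (nat_lit 1) (nat_lit 256) (nat_lit 0) (nat_lit 2)) (.cons (.rf (nat_lit 804) (nat_lit 493858305440582043680)) (.cons (.rf (nat_lit 804) (nat_lit 493858303243706271776)) (.cons (.kr (nat_lit 1208925891672223212634114) (nat_lit 4722366483969156841984) (nat_lit 0) (nat_lit 2)) (.cons (.rf (nat_lit 804) (nat_lit 302469822845850585120)) (.cons (.rf (nat_lit 804) (nat_lit 302469821747412699168)) .nil))))))),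
 (.br (nat_lit 12) (nat_lit 0) (.cons (.zr (nat_lit 237684497061312955914339222528) (nat_lit 621387871498373661479469061) (nat_lit 10) (nat_lit 8)) (.cons (.ev (nat_lit 158457557603435611696775823872) (nat_lit 3)) .nil))),
 (.br (nat_lit 12) (nat_lit 0) (.cons (.br (nat_lit 11) (nat_lit 0) (.cons (.ev (nat_lit 20361638975091826716342807953408) (nat_lit 1)) .nil)) (.cons (.ev (nat_lit 79229376162522492690713542913) (nat_lit 1)) (.cons (.ev (nat_lit 40564820430433658933852942369282) (nat_lit 3)) .nil)))),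
 (.br (nat_lit 13) (nat_lit 0) (.cons (.ev (nat_lit 4722366764348916957441) (nat_lit 1)) (.cons (.rf (nat_lit 807) (nat_lit 493858305440582043680)) (.cons (.br (nat_lit 2) (nat_lit 0) (.cons (.ev (nat_lit 79229371440083952227030466561) (nat_lit 1)) .nil)) .nil))))]

theorem c30 : chkAll C T R L30 (nat_lit 782) = true := by decide +kernel

theorem l30 : (nat_lit 782) + L30.length = (nat_lit 809) := by decide +kernel

/-- part of the certificates -/
def L31 : List Prf := [(.br (nat_lit 13) (nat_lit 0) (.cons (.ev (nat_lit 4722366764348916957441) (nat_lit 1)) (.cons (.rf (nat_lit 807) (nat_lit 493858305440582043680)) (.cons (.rf (nat_lit 808) (nat_lit 493858305440582043680)) (.cons (.br (nat_lit 13) (nat_lit 0) (.cons (.ev (nat_lit 4722366764348916957441) (nat_lit 1)) (.cons (.ev (nat_lit 40564820430433658933852942369282) (nat_lit 3)) (.cons (.rf (nat_lit 808) (nat_lit 493858305440582043680)) .nil)))) .nil))))),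
 (.br (nat_lit 1) (nat_lit 0) (.cons (.br (nat_lit 12) (nat_lit 0) (.cons (.rf (nat_lit 806) (nat_lit 493858305440582043680)) (.cons (.br (nat_lit 13) (nat_lit 0) (.cons (.rf (nat_lit 806) (nat_lit 458117738797769787424)) (.cons (.ev (nat_lit 316913873261017732290501936130) (nat_lit 3)) .nil))) (.cons (.br (nat_lit 12) (nat_lit 0) (.cons (.ev (nat_lit 158457557603435611696775823872) (nat_lit 3)) (.cons (.ev (nat_lit 316913873261017732290501936130) (nat_lit 3)) .nil))) .nil)))) (.cons (.br (nat_lit 2) (nat_lit 0) (.cons (.ev (nat_lit 1242093427443692760072708) (nat_lit 3)) (.cons (.rf (nat_lit 215) (nat_lit 15288782171058309152)) (.cons (.rf (nat_lit 215) (nat_lit 14135860700811200544)) .nil)))) (.cons (.rf (nat_lit 809) (nat_lit 493858305440582043680)) (.cons (.rf (nat_lit 809) (nat_lit 458117738797769787424)) .nil))))),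
 (.br (nat_lit 12) (nat_lit 0) (.cons (.ev (nat_lit 158457567011131537050592216068) (nat_lit 3)) (.cons (.ev (nat_lit 475370188734132975096951735812) (nat_lit 3)) .nil))),
 (.br (nat_lit 1) (nat_lit 0) (.cons (.rf (nat_lit 811) (nat_lit 493858305440582043680)) (.cons (.rf (nat_lit 811) (nat_lit 493858303243706271776)) (.cons (.kr (nat_lit 1208925891672223212634624) (nat_lit 4722366483969156972544) (nat_lit 1) (nat_lit 0)) (.cons (.br (nat_lit 6) (nat_lit 0) (.cons (.kr (nat_lit 281474976710656) (nat_lit 18446744073709551616) (nat_lit 6) (nat_lit 0)) (.cons (.br (nat_lit 8) (nat_lit 0) (.cons (.ev (nat_lit 284429104658932172869527022993926) (nat_lit 4)) .nil)) (.cons (.br (nat_lit 8) (nat_lit 0) (.cons (.ev (nat_lit 284429104658784601168737160266246) (nat_lit 4)) .nil)) .nil)))) .nil))))),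
 (.br (nat_lit 2) (nat_lit 0) (.cons (.rf (nat_lit 810) (nat_lit 493858305440582043680)) (.cons (.rf (nat_lit 810) (nat_lit 493858303243706271776)) (.cons (.rf (nat_lit 812) (nat_lit 493858305440582043680)) (.cons (.rf (nat_lit 812) (nat_lit 458117738797769787424)) .nil))))),
 (.br (nat_lit 8) (nat_lit 0) (.cons (.ev (nat_lit 20361637770888301525889728905216) (nat_lit 1)) .nil)),
 (.br (nat_lit 12) (nat_lit 0) (.cons (.rf (nat_lit 814) (nat_lit 493750222348060035104)) (.cons (.rf (nat_lit 814) (nat_lit 493858305440582043680)) (.cons (.kr (nat_lit 79228162514264337593543950336) (nat_lit 20282409603651670423947251286016) (nat_lit 12) (nat_lit 0)) .nil)))),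
 (.br (nat_lit 8) (nat_lit 0) (.cons (.ev (nat_lit 20361637770888301525889728905216) (nat_lit 1)) .nil)),
 (.br (nat_lit 1) (nat_lit 0) (.cons (.rf (nat_lit 815) (nat_lit 493858303243706271776)) (.cons (.rf (nat_lit 816) (nat_lit 493858305440582043680)) (.cons (.rf (nat_lit 816) (nat_lit 458117738797769787424)) .nil)))),
 (.br (nat_lit 8) (nat_lit 0) (.cons (.rf (nat_lit 815) (nat_lit 493858303243706271776)) (.cons (.rf (nat_lit 817) (nat_lit 493858303243706271776)) (.cons (.kr (nat_lit 20282409603651670705422227996672) (nat_lit 79228162532711081667253501952) (nat_lit 6) (nat_lit 0)) .nil)))),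
 (.br (nat_lit 2) (nat_lit 0) (.cons (.rf (nat_lit 810) (nat_lit 493858305440582043680)) (.cons (.rf (nat_lit 810) (nat_lit 493858303243706271776)) (.cons (.rf (nat_lit 813) (nat_lit 493858305440582043680)) (.cons (.br (nat_lit 6) (nat_lit 0) (.cons (.rf (nat_lit 815) (nat_lit 493858305440582043680)) (.cons (.kr (nat_lit 281474976710656) (nat_lit 18446744073709551616) (nat_lit 6) (nat_lit 0)) (.cons (.rf (nat_lit 817) (nat_lit 493858305440582043680)) (.cons (.rf (nat_lit 818) (nat_lit 493858305440582043680)) (.cons (.rf (nat_lit 818) (nat_lit 458117738797769787424)) .nil)))))) .nil))))),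
 (.br (nat_lit 2) (nat_lit 0) (.cons (.br (nat_lit 11) (nat_lit 0) (.cons (.zr (nat_lit 158458742898831102776254136330) (nat_lit 928464474197002057861563392) (nat_lit 15) (nat_lit 3)) (.cons (.br (nat_lit 12) (nat_lit 0) (.cons (.ev (nat_lit 20361637766184453563212837683456) (nat_lit 1)) .nil)) .nil))) (.cons (.ev (nat_lit 79228162514264338697350611201) (nat_lit 1)) (.cons (.br (nat_lit 11) (nat_lit 0) (.cons (.ev (nat_lit 316913882631820732446785275398) (nat_lit 3)) (.cons (.ev (nat_lit 40564820439915140709601656177152) (nat_lit 3)) .nil))) .nil)))),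
 (.br (nat_lit 2) (nat_lit 0) (.cons (.rf (nat_lit 820) (nat_lit 493858305440582043680)) (.cons (.ev (nat_lit 72339073326448896) (nat_lit 1)) (.cons (.br (nat_lit 8) (nat_lit 0) (.cons (.br (nat_lit 12) (nat_lit 0) (.cons (.ev (nat_lit 20361637766184453563212837683456) (nat_lit 1)) .nil)) (.cons (.br (nat_lit 11) (nat_lit 0) (.cons (.ev (nat_lit 20520094105417120134773631615744) (nat_lit 2)) .nil)) (.cons (.br (nat_lit 11) (nat_lit 0) (.cons (.ev (nat_lit 20361637770906747988488445034496) (nat_lit 1)) .nil)) .nil)))) .nil)))),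
 (.br (nat_lit 2) (nat_lit 0) (.cons (.rf (nat_lit 820) (nat_lit 493858305440582043680)) (.cons (.rf (nat_lit 821) (nat_lit 493858305440582043680)) (.cons (.br (nat_lit 2) (nat_lit 0) (.cons (.ev (nat_lit 79228162514264338697350611201) (nat_lit 1)) (.cons (.ev (nat_lit 72339073326448896) (nat_lit 1)) (.cons (.ev (nat_lit 79231789291796083508676460801) (nat_lit 2)) .nil)))) (.cons (.br (nat_lit 2) (nat_lit 0) (.cons (.rf (nat_lit 820) (nat_lit 493858305440582043680)) (.cons (.rf (nat_lit 821) (nat_lit 493858305440582043680)) (.cons (.ev (nat_lit 79231789291796083508676460801) (nat_lit 2)) .nil)))) .nil))))),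
 (.br (nat_lit 8) (nat_lit 0) (.cons (.ev (nat_lit 20361637766166007100614104842496) (nat_lit 1)) .nil)),
 (.br (nat_lit 2) (nat_lit 0) (.cons (.ev (nat_lit 1242093427443692760072708) (nat_lit 3)) (.cons (.br (nat_lit 13) (nat_lit 0) (.cons (.br (nat_lit 12) (nat_lit 0) (.cons (.ev (nat_lit 20361637766166007100614104842496) (nat_lit 1)) .nil)) (.cons (.rf (nat_lit 823) (nat_lit 493858305440582043680)) .nil))) (.cons (.br (nat_lit 13) (nat_lit 0) (.cons (.ev (nat_lit 79228171996107249044468859136) (nat_lit 2)) (.cons (.br (nat_lit 8) (nat_lit 0) (.cons (.ev (nat_lit 79228171996107249044468859136) (nat_lit 2)) .nil)) .nil))) (.cons (.br (nat_lit 13) (nat_lit 0) (.cons (.ev (nat_lit 20282409603651670425051057946624) (nat_lit 1)) (.cons (.br (nat_lit 8) (nat_lit 0) (.cons (.ev (nat_lit 20282409613133513335398176194561) (nat_lit 2)) .nil)) (.cons (.ev (nat_lit 20282410812577490038580720959744) (nat_lit 1)) .nil)))) .nil))))),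
 (.br (nat_lit 2) (nat_lit 0) (.cons (.rf (nat_lit 824) (nat_lit 493858303243706271776)) (.cons (.br (nat_lit 8) (nat_lit 0) (.cons (.ev (nat_lit 79229376180969518239383093505) (nat_lit 1)) .nil)) .nil))),
 (.br (nat_lit 2) (nat_lit 0) (.cons (.rf (nat_lit 824) (nat_lit 493858303243706271776)) (.cons (.rf (nat_lit 825) (nat_lit 493858305440582043680)) (.cons (.br (nat_lit 2) (nat_lit 0) (.cons (.rf (nat_lit 824) (nat_lit 493858303243706271776)) (.cons (.rf (nat_lit 825) (nat_lit 493858305440582043680)) .nil))) .nil)))),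
 (.br (nat_lit 2) (nat_lit 0) (.cons (.br (nat_lit 2) (nat_lit 0) (.cons (.ev (nat_lit 79228162532711364246036873473) (nat_lit 1)) .nil)) (.cons (.br (nat_lit 2) (nat_lit 0) (.cons (.ev (nat_lit 79228162532711364246036873473) (nat_lit 1)) .nil)) .nil))),
 (.br (nat_lit 12) (nat_lit 0) (.cons (.ev (nat_lit 4722366764348916957441) (nat_lit 1)) (.cons (.ev (nat_lit 158457548158846761145527698432) (nat_lit 3)) (.cons (.br (nat_lit 2) (nat_lit 0) (.cons (.br (nat_lit 11) (nat_lit 0) (.cons (.ev (nat_lit 20282410812577490038580737802241) (nat_lit 1)) .nil)) (.cons (.br (nat_lit 8) (nat_lit 0) (.cons (.ev (nat_lit 20282410812577490038580737802241) (nat_lit 1)) .nil)) (.cons (.ev (nat_lit 20361637766166007100614121684993) (nat_lit 1)) .nil)))) (.cons (.ev (nat_lit 20282410817299928579044420878593) (nat_lit 1)) .nil))))),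
 (.br (nat_lit 8) (nat_lit 0) (.cons (.rf (nat_lit 828) (nat_lit 493858303243706271776)) (.cons (.rf (nat_lit 827) (nat_lit 420143386739781765152)) (.cons (.br (nat_lit 2) (nat_lit 0) (.cons (.br (nat_lit 2) (nat_lit 0) (.cons (.zr (nat_lit 14167099451907470655492) (nat_lit 20361947251194203132162518025216) (nat_lit 5) (nat_lit 4)) .nil)) (.cons (.br (nat_lit 2) (nat_lit 0) (.cons (.zr (nat_lit 14167099451907470655492) (nat_lit 20361947251194203132162518025216) (nat_lit 5) (nat_lit 4)) .nil)) .nil))) (.cons (.br (nat_lit 2) (nat_lit 0) (.cons (.br (nat_lit 2) (nat_lit 0) (.cons (.ev (nat_lit 79229376180969518239383093505) (nat_lit 1)) .nil)) (.cons (.br (nat_lit 2) (nat_lit 0) (.cons (.ev (nat_lit 79229376180969518239383093505) (nat_lit 1)) .nil)) .nil))) .nil))))),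
 (.br (nat_lit 1) (nat_lit 0) (.cons (.rf (nat_lit 822) (nat_lit 493858305440582043680)) (.cons (.rf (nat_lit 822) (nat_lit 493858303243706271776)) (.cons (.br (nat_lit 6) (nat_lit 0) (.cons (.rf (nat_lit 824) (nat_lit 493858305440582043680)) (.cons (.kr (nat_lit 281474976710656) (nat_lit 18446744073709551616) (nat_lit 6) (nat_lit 0)) (.cons (.rf (nat_lit 826) (nat_lit 493858305440582043680)) (.cons (.br (nat_lit 8) (nat_lit 0) (.cons (.rf (nat_lit 824) (nat_lit 493858303243706271776)) (.cons (.rf (nat_lit 826) (nat_lit 493858303243706271776)) (.cons (.kr (nat_lit 1208925891672223212634114) (nat_lit 79228162532711081667253502464) (nat_lit 0) (nat_lit 2)) .nil)))) (.cons (.br (nat_lit 8) (nat_lit 0) (.cons (.rf (nat_lit 824) (nat_lit 493858303243706271776)) (.cons (.rf (nat_lit 826) (nat_lit 493858303243706271776)) (.cons (.kr (nat_lit 1208925891672223212634114) (nat_lit 79228162514264619068520661504) (nat_lit 0) (nat_lit 2)) (.cons (.rf (nat_lit 827) (nat_lit 493858305440582043680)) .nil))))) .nil))))))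 (.cons (.ev (nat_lit 79229376162522492690713542656) (nat_lit 1)) (.cons (.br (nat_lit 6) (nat_lit 0) (.cons (.rf (nat_lit 828) (nat_lit 493858305440582043680)) (.cons (.kr (nat_lit 281474976710656) (nat_lit 18446744073709551616) (nat_lit 6) (nat_lit 0)) (.cons (.rf (nat_lit 829) (nat_lit 493858305440582043680)) (.cons (.br (nat_lit 8) (nat_lit 0) (.cons (.ev (nat_lit 158457548195739686342993380352) (nat_lit 3)) (.cons (.rf (nat_lit 829) (nat_lit 493858303243706271776)) (.cons (.ev (nat_lit 81129639628366053227154083152900) (nat_lit 3)) .nil)))) (.cons (.br (nat_lit 8) (nat_lit 0) (.cons (.rf (nat_lit 828) (nat_lit 493858303243706271776)) (.cons (.rf (nat_lit 829) (nat_lit 493858303243706271776)) (.cons (.ev (nat_lit 81129639628292267376759151789060) (nat_lit 3)) .nil)))) .nil)))))) .nil)))))),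
 (.br (nat_lit 3) (nat_lit 0) (.cons (.kr (nat_lit 1) (nat_lit 256) (nat_lit 0) (nat_lit 2)) (.cons (.rf (nat_lit 805) (nat_lit 493858305440582042688)) (.cons (.br (nat_lit 2) (nat_lit 0) (.cons (.rf (nat_lit 810) (nat_lit 493858305440582043680)) (.cons (.rf (nat_lit 810) (nat_lit 493858303243706271776)) (.cons (.rf (nat_lit 813) (nat_lit 493858305440582043680)) (.cons (.rf (nat_lit 819) (nat_lit 493858305440582043680)) (.cons (.rf (nat_lit 819) (nat_lit 458117738797769787424)) .nil)))))) (.cons (.rf (nat_lit 830) (nat_lit 493858305440582043680)) (.cons (.rf (nat_lit 830) (nat_lit 458117738797769787424)) .nil)))))),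
 (.br (nat_lit 13) (nat_lit 0) (.cons (.br (nat_lit 12) (nat_lit 0) (.cons (.ev (nat_lit 20361637766166007100614104842496) (nat_lit 1)) .nil)) (.cons (.br (nat_lit 8) (nat_lit 0) (.cons (.ev (nat_lit 20361637766166007100614104842496) (nat_lit 1)) .nil)) .nil))),
 (.br (nat_lit 8) (nat_lit 0) (.cons (.zr (nat_lit 4722439111110318882816) (nat_lit 625014685634251439332130822) (nat_lit 20) (nat_lit 6)) (.cons (.ev (nat_lit 309485009821627643213119744) (nat_lit 1)) (.cons (.ev (nat_lit 20282409603651670425051057946624) (nat_lit 1)) .nil)))),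
 (.br (nat_lit 2) (nat_lit 0) (.cons (.rf (nat_lit 832) (nat_lit 493858305440582043680)) (.cons (.rf (nat_lit 833) (nat_lit 493858305440582043680)) .nil))),
 (.br (nat_lit 1) (nat_lit 0) (.cons (.br (nat_lit 2) (nat_lit 0) (.cons (.br (nat_lit 13) (nat_lit 0) (.cons (.br (nat_lit 12) (nat_lit 0) (.cons (.ev (nat_lit 20361637766166007100614104842496) (nat_lit 1)) .nil)) (.cons (.rf (nat_lit 823) (nat_lit 493750222348060035104)) .nil))) (.cons (.br (nat_lit 13) (nat_lit 0) (.cons (.br (nat_lit 12) (nat_lit 0) (.cons (.ev (nat_lit 950739220599521215392586008576) (nat_lit 4)) .nil)) (.cons (.br (nat_lit 8) (nat_lit 0) (.cons (.ev (nat_lit 950739220599521215392586008576) (nat_lit 4)) .nil)) .nil))) (.cons (.ev (nat_lit 79229376162522492690696831233) (nat_lit 1)) (.cons (.br (nat_lit 13) (nat_lit 0) (.cons (.ev (nat_lit 20282410817299928579044404166656) (nat_lit 1)) (.cons (.br (nat_lit 8) (nat_lit 0) (.cons (.ev (nat_lit 20440865938161898456148151960065) (nat_lit 2)) .nil)) (.cons (.ev (nat_lit 20440869564902463250037781561601)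 (nat_lit 2)) .nil)))) .nil))))) (.cons (.br (nat_lit 8) (nat_lit 0) (.cons (.rf (nat_lit 832) (nat_lit 493858305440582043680)) (.cons (.rf (nat_lit 834) (nat_lit 493858305440582043680)) (.cons (.br (nat_lit 8) (nat_lit 0) (.cons (.rf (nat_lit 832) (nat_lit 493858305440582043680)) (.cons (.rf (nat_lit 834) (nat_lit 493858305440582043680)) .nil))) .nil)))) (.cons (.ev (nat_lit 79231794014090508784250126851) (nat_lit 2)) (.cons (.br (nat_lit 2) (nat_lit 0) (.cons (.br (nat_lit 8) (nat_lit 0) (.cons (.br (nat_lit 12) (nat_lit 0) (.cons (.zr (nat_lit 4722438542662706397187) (nat_lit 79537647524085964141540540416) (nat_lit 5) (nat_lit 4)) .nil)) (.cons (.br (nat_lit 11) (nat_lit 0) (.cons (.zr (nat_lit 4722438542662706397187) (nat_lit 79537647524085964141540540416) (nat_lit 5) (nat_lit 4)) .nil)) (.cons (.ev (nat_lit 20282410812577490038580737802241) (nat_lit 1)) .nil)))) (.cons (.br (nat_lit 8) (nat_lit 0) (.cons (.br (nat_lit 8) (nat_lit 0) (.cons (.ev (nat_lit 158457548158846761145527697922) (nat_lit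 3)) .nil)) (.cons (.br (nat_lit 8) (nat_lit 0) (.cons (.ev (nat_lit 158457548158846761145527697922) (nat_lit 3)) .nil)) .nil))) (.cons (.ev (nat_lit 4722366764348916957441) (nat_lit 1)) (.cons (.br (nat_lit 12) (nat_lit 0) (.cons (.ev (nat_lit 20361637766166007100614121684993) (nat_lit 1)) (.cons (.kr (nat_lit 79228162514264337593544015872) (nat_lit 20282409603651670423947268063232) (nat_lit 2) (nat_lit 0)) .nil))) .nil))))) .nil))))),
 (.br (nat_lit 12) (nat_lit 0) (.cons (.ev (nat_lit 158457538787467300236974883332) (nat_lit 3)) (.cons (.ev (nat_lit 158457548195739686342993379332) (nat_lit 3)) (.cons (.kr (nat_lit 40564820416229232520117715206146) (nat_lit 158456329750895159156244873216) (nat_lit 0) (nat_lit 1)) .nil)))),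
 (.br (nat_lit 8) (nat_lit 0) (.cons (.ev (nat_lit 18518801672042447104) (nat_lit 1)) (.cons (.ev (nat_lit 1208944338417400728846336) (nat_lit 1)) (.cons (.br (nat_lit 11) (nat_lit 0) (.cons (.ev (nat_lit 158457534009688804620486312192) (nat_lit 2)) .nil)) .nil))))]

theorem c31 : chkAll C T R L31 (nat_lit 809) = true := by decide +kernel

theorem l31 : (nat_lit 809) + L31.length = (nat_lit 838) := by decide +kernel

/-- part of the certificates -/
def L32 : List Prf := [(.br (nat_lit 1) (nat_lit 0) (.cons (.ev (nat_lit 18518801672042447104) (nat_lit 1)) (.cons (.rf (nat_lit 837) (nat_lit 302469822845850585120)) (.cons (.br (nat_lit 11) (nat_lit 0) (.cons (.ev (nat_lit 79228167255149904709719949568) (nat_lit 1)) .nil)) .nil)))),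
 (.br (nat_lit 2) (nat_lit 0) (.cons (.rf (nat_lit 835) (nat_lit 493858305440582043680)) (.cons (.br (nat_lit 1) (nat_lit 0) (.cons (.br (nat_lit 8) (nat_lit 0) (.cons (.ev (nat_lit 158458771233103187903364007428) (nat_lit 3)) (.cons (.rf (nat_lit 836) (nat_lit 493858305440582043680)) .nil))) (.cons (.kr (nat_lit 1208925891672223212634624) (nat_lit 4722366483969156972544) (nat_lit 1) (nat_lit 0)) (.cons (.br (nat_lit 8) (nat_lit 0) (.cons (.ev (nat_lit 158457567121810312642921890820) (nat_lit 3)) (.cons (.ev (nat_lit 158457538787467300236974883332) (nat_lit 3)) .nil))) (.cons (.br (nat_lit 8) (nat_lit 0) (.cons (.br (nat_lit 12) (nat_lit 0) (.cons (.ev (nat_lit 40644047383984704916680094122496) (nat_lit 2)) .nil)) (.cons (.br (nat_lit 6) (nat_lit 0) (.cons (.ev (nat_lit 40644047374540116066128879419392) (nat_lit 2)) .nil)) (.cons (.rf (nat_lit 836) (nat_lit 493858305440582043680)) .nil)))) .nil))))) (.cons (.rf (nat_lit 835) (nat_lit 302469822845850585120)) (.cons (.br (nat_lit 6) (nat_lit 0) (.cons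 (.rf (nat_lit 837) (nat_lit 493858305440582043680)) (.cons (.rf (nat_lit 838) (nat_lit 493858305440582043680)) (.cons (.br (nat_lit 12) (nat_lit 0) (.cons (.rf (nat_lit 837) (nat_lit 302469822845850585120)) (.cons (.ev (nat_lit 4740813226947649798144) (nat_lit 1)) (.cons (.rf (nat_lit 838) (nat_lit 302469822845850585120)) .nil)))) (.cons (.br (nat_lit 1) (nat_lit 0) (.cons (.kr (nat_lit 1208925892235173166055936) (nat_lit 4759259972116609499136) (nat_lit 1) (nat_lit 0)) (.cons (.br (nat_lit 8) (nat_lit 0) (.cons (.ev (nat_lit 158457548195739686342993379332) (nat_lit 3)) .nil)) (.cons (.kr (nat_lit 158457533954420347410300535296) (nat_lit 40564819212025707331863692967936) (nat_lit 1) (nat_lit 0)) .nil)))) (.cons (.ev (nat_lit 20282410817299928579044404166656) (nat_lit 1)) .nil)))))) .nil))))),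
 (.br (nat_lit 2) (nat_lit 0) (.cons (.rf (nat_lit 835) (nat_lit 493858305440582043680)) (.cons (.rf (nat_lit 839) (nat_lit 493858305440582043680)) (.cons (.br (nat_lit 2) (nat_lit 0) (.cons (.rf (nat_lit 835) (nat_lit 493858305440582043680)) (.cons (.rf (nat_lit 839) (nat_lit 493858305440582043680)) (.cons (.rf (nat_lit 835) (nat_lit 302469822845850585120)) (.cons (.rf (nat_lit 839) (nat_lit 302469822845850585120)) .nil))))) (.cons (.rf (nat_lit 835) (nat_lit 302469822845850585120)) (.cons (.rf (nat_lit 839) (nat_lit 302469822845850585120)) .nil)))))),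
 (.br (nat_lit 3) (nat_lit 0) (.cons (.kr (nat_lit 1) (nat_lit 256) (nat_lit 0) (nat_lit 2)) (.cons (.rf (nat_lit 805) (nat_lit 493858305440582042688)) (.cons (.rf (nat_lit 831) (nat_lit 493858305440582043680)) (.cons (.rf (nat_lit 840) (nat_lit 493858305440582043680)) (.cons (.rf (nat_lit 840) (nat_lit 458117738797769787424)) .nil)))))),
 (.br (nat_lit 3) (nat_lit 0) (.cons (.kr (nat_lit 1) (nat_lit 256) (nat_lit 0) (nat_lit 2)) (.cons (.rf (nat_lit 805) (nat_lit 493858305440582042688)) (.cons (.rf (nat_lit 831) (nat_lit 493858305440582043680)) (.cons (.rf (nat_lit 841) (nat_lit 493858305440582043680)) (.cons (.rf (nat_lit 831) (nat_lit 302469822845850585120)) .nil)))))),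
 (.br (nat_lit 3) (nat_lit 0) (.cons (.kr (nat_lit 1) (nat_lit 256) (nat_lit 0) (nat_lit 2)) (.cons (.rf (nat_lit 805) (nat_lit 493858305440582042688)) (.cons (.rf (nat_lit 831) (nat_lit 493858305440582043680)) (.cons (.rf (nat_lit 841) (nat_lit 493858305440582043680)) (.cons (.rf (nat_lit 842) (nat_lit 493858305440582043680)) (.cons (.rf (nat_lit 842) (nat_lit 458117738797769787424)) .nil))))))),
 (.br (nat_lit 3) (nat_lit 0) (.cons (.kr (nat_lit 1) (nat_lit 256) (nat_lit 0) (nat_lit 2)) (.cons (.rf (nat_lit 805) (nat_lit 493858305440582042688)) (.cons (.rf (nat_lit 843) (nat_lit 493858305440582043680)) (.cons (.rf (nat_lit 843) (nat_lit 493858303243706271776)) (.cons (.br (nat_lit 3) (nat_lit 0) (.cons (.kr (nat_lit 1) (nat_lit 256) (nat_lit 0) (nat_lit 2)) (.cons (.rf (nat_lit 805) (nat_lit 493858305440582042688)) (.cons (.rf (nat_lit 843) (nat_lit 493858305440582043680)) (.cons (.rf (nat_lit 843) (nat_lit 493858303243706271776)) (.cons (.rf (nat_lit 843) (nat_lit 302469822845850585120)) (.cons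 (.rf (nat_lit 843) (nat_lit 302469821747412699168)) .nil))))))) (.cons (.rf (nat_lit 843) (nat_lit 302469822845850585120)) (.cons (.rf (nat_lit 843) (nat_lit 302469821747412699168)) .nil)))))))),
 (.br (nat_lit 10) (nat_lit 0) (.cons (.kr (nat_lit 1208925819614629174706176) (nat_lit 309485009821345068724781056) (nat_lit 10) (nat_lit 0)) .nil)),
 (.br (nat_lit 3) (nat_lit 0) (.cons (.ev (nat_lit 72339073309671681) (nat_lit 1)) (.cons (.rf (nat_lit 247) (nat_lit 14316143121157687328)) (.cons (.br (nat_lit 4) (nat_lit 0) (.cons (.rf (nat_lit 845) (nat_lit 482283501371099168)) (.cons (.ev (nat_lit 79228167236702879161050530048) (nat_lit 1)) (.cons (.ev (nat_lit 20282409608374108965514757865728) (nat_lit 1)) .nil)))) .nil)))),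
 (.br (nat_lit 3) (nat_lit 0) (.cons (.ev (nat_lit 72339073309671681) (nat_lit 1)) (.cons (.br (nat_lit 3) (nat_lit 0) (.cons (.ev (nat_lit 72339073309671681) (nat_lit 1)) (.cons (.rf (nat_lit 247) (nat_lit 14316143121157687328)) (.cons (.rf (nat_lit 247) (nat_lit 15433035828745570336)) .nil)))) (.cons (.rf (nat_lit 846) (nat_lit 493858305440582043680)) (.cons (.rf (nat_lit 846) (nat_lit 458117738797769787424)) .nil))))),
 (.br (nat_lit 3) (nat_lit 0) (.cons (.ev (nat_lit 72339073309671681) (nat_lit 1)) (.cons (.rf (nat_lit 247) (nat_lit 14316143121157687328)) (.cons (.br (nat_lit 4) (nat_lit 0) (.cons (.rf (nat_lit 845) (nat_lit 482177951476057152)) (.cons (.ev (nat_lit 79228167236702879161050464256) (nat_lit 1)) (.cons (.ev (nat_lit 20282409608374108965514757799936) (nat_lit 1)) .nil)))) .nil)))),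
 (.br (nat_lit 3) (nat_lit 0) (.cons (.ev (nat_lit 72339073309671681) (nat_lit 1)) (.cons (.rf (nat_lit 847) (nat_lit 493858305440582043680)) (.cons (.rf (nat_lit 848) (nat_lit 493858305440582043680)) (.cons (.rf (nat_lit 848) (nat_lit 458117738797769787424)) .nil))))),
 (.br (nat_lit 3) (nat_lit 0) (.cons (.ev (nat_lit 72339073309671681) (nat_lit 1)) (.cons (.rf (nat_lit 847) (nat_lit 493858305440582043680)) (.cons (.rf (nat_lit 849) (nat_lit 493858305440582043680)) (.cons (.br (nat_lit 3) (nat_lit 0) (.cons (.ev (nat_lit 72339073309671681) (nat_lit 1)) (.cons (.rf (nat_lit 847) (nat_lit 493858305440582043680)) (.cons (.rf (nat_lit 849) (nat_lit 493858305440582043680)) .nil)))) .nil))))),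
 (.br (nat_lit 3) (nat_lit 0) (.cons (.br (nat_lit 11) (nat_lit 0) (.cons (.zr (nat_lit 4722438542662706397187) (nat_lit 20282719088661492050495247745536) (nat_lit 5) (nat_lit 4)) .nil)) (.cons (.ev (nat_lit 20282409603651670425051074723841) (nat_lit 1)) .nil))),
 (.br (nat_lit 4) (nat_lit 0) (.cons (.ev (nat_lit 79228162532711364246053584896) (nat_lit 1)) .nil)),
 (.br (nat_lit 3) (nat_lit 0) (.cons (.br (nat_lit 11) (nat_lit 0) (.cons (.ev (nat_lit 158457557603435611696775823872) (nat_lit 3)) .nil)) (.cons (.ev (nat_lit 20282410817299928579044420878593) (nat_lit 1)) (.cons (.br (nat_lit 8) (nat_lit 0) (.cons (.ev (nat_lit 158457557603435611696776217600) (nat_lit 3)) .nil)) .nil)))),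
 (.br (nat_lit 4) (nat_lit 0) (.cons (.rf (nat_lit 853) (nat_lit 493858305440582043680)) (.cons (.br (nat_lit 3) (nat_lit 0) (.cons (.ev (nat_lit 79228167255149904709736792065) (nat_lit 1)) .nil)) (.cons (.ev (nat_lit 20520094105417120134773581283840) (nat_lit 2)) .nil)))),
 (.br (nat_lit 3) (nat_lit 0) (.cons (.ev (nat_lit 20282410817299928579044420878593) (nat_lit 1)) (.cons (.rf (nat_lit 854) (nat_lit 493858305440582043680)) (.cons (.br (nat_lit 4) (nat_lit 0) (.cons (.ev (nat_lit 20520094105417120134773581414400) (nat_lit 2)) .nil)) .nil)))),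
 (.br (nat_lit 3) (nat_lit 0) (.cons (.ev (nat_lit 20282409603651670425051074723841) (nat_lit 1)) (.cons (.br (nat_lit 8) (nat_lit 0) (.cons (.zr (nat_lit 4722438542662706397187) (nat_lit 20282719088661492050495247745536) (nat_lit 5) (nat_lit 4)) .nil)) .nil))),
 (.br (nat_lit 3) (nat_lit 0) (.cons (.ev (nat_lit 79228162514264338697367388161) (nat_lit 1)) (.cons (.br (nat_lit 4) (nat_lit 0) (.cons (.ev (nat_lit 309485028268371721234481408) (nat_lit 1)) .nil)) .nil))),
 (.br (nat_lit 13) (nat_lit 0) (.cons (.ev (nat_lit 4722366764348916957184) (nat_lit 1)) (.cons (.br (nat_lit 3) (nat_lit 0) (.cons (.rf (nat_lit 851) (nat_lit 493858305440582043680)) (.cons (.br (nat_lit 3) (nat_lit 0) (.cons (.rf (nat_lit 851) (nat_lit 493858305440582043680)) (.cons (.rf (nat_lit 852) (nat_lit 493858305440582043680)) .nil))) (.cons (.br (nat_lit 3) (nat_lit 0) (.cons (.ev (nat_lit 20282410817299928579044420943873) (nat_lit 1)) (.cons (.rf (nat_lit 852) (nat_lit 493858305440582043680)) .nil))) .nil)))) (.cons (.br (nat_lit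 3) (nat_lit 0) (.cons (.rf (nat_lit 853) (nat_lit 493858305440582043680)) (.cons (.rf (nat_lit 854) (nat_lit 493858305440582043680)) (.cons (.rf (nat_lit 855) (nat_lit 493858305440582043680)) (.cons (.br (nat_lit 3) (nat_lit 0) (.cons (.rf (nat_lit 853) (nat_lit 493858305440582043680)) (.cons (.rf (nat_lit 854) (nat_lit 493858305440582043680)) (.cons (.rf (nat_lit 855) (nat_lit 493858305440582043680)) .nil)))) .nil))))) (.cons (.br (nat_lit 3) (nat_lit 0) (.cons (.rf (nat_lit 856) (nat_lit 493858305440582043680)) (.cons (.rf (nat_lit 857) (nat_lit 15431909825759512608)) (.cons (.br (nat_lit 3) (nat_lit 0) (.cons (.rf (nat_lit 856) (nat_lit 493858305440582043680)) (.cons (.rf (nat_lit 857) (nat_lit 15431909825759512608)) .nil))) .nil)))) .nil))))),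
 (.br (nat_lit 13) (nat_lit 0) (.cons (.rf (nat_lit 858) (nat_lit 493858305440582043680)) (.cons (.ev (nat_lit 4722366764348916957184) (nat_lit 1)) (.cons (.br (nat_lit 4) (nat_lit 0) (.cons (.br (nat_lit 3) (nat_lit 0) (.cons (.rf (nat_lit 301) (nat_lit 310542587849940763712)) (.cons (.ev (nat_lit 41040189424482354317148526085126) (nat_lit 3)) .nil))) (.cons (.rf (nat_lit 299) (nat_lit 436890788530208)) (.cons (.ev (nat_lit 20361637766184453563212837683456) (nat_lit 1)) .nil)))) (.cons (.kr (nat_lit 40564820420951527508343275913728) (nat_lit 158456325065494222028056690688) (nat_lit 1) (nat_lit 0)) .nil))))),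
 (.br (nat_lit 13) (nat_lit 0) (.cons (.rf (nat_lit 858) (nat_lit 493858305440582043680)) (.cons (.ev (nat_lit 4722366764348916957184) (nat_lit 1)) (.cons (.rf (nat_lit 859) (nat_lit 493858305440582043680)) (.cons (.br (nat_lit 4) (nat_lit 0) (.cons (.br (nat_lit 3) (nat_lit 0) (.cons (.ev (nat_lit 41040189424482354317148525954566) (nat_lit 3)) (.cons (.rf (nat_lit 298) (nat_lit 310542587849940763712)) .nil))) (.cons (.ev (nat_lit 20361637766184453563212837683456) (nat_lit 1)) (.cons (.rf (nat_lit 299) (nat_lit 296153434391616)) .nil)))) .nil))))),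
 (.br (nat_lit 13) (nat_lit 0) (.cons (.rf (nat_lit 858) (nat_lit 493858305440582043680)) (.cons (.ev (nat_lit 4722366764348916957184) (nat_lit 1)) (.cons (.rf (nat_lit 859) (nat_lit 493858305440582043680)) (.cons (.rf (nat_lit 860) (nat_lit 493858305440582043680)) (.cons (.br (nat_lit 13) (nat_lit 0) (.cons (.rf (nat_lit 858) (nat_lit 493858305440582043680)) (.cons (.ev (nat_lit 4722366764348916957184) (nat_lit 1)) (.cons (.kr (nat_lit 40564820420951527508343275913728) (nat_lit 158456325065494222028056690688) (nat_lit 1) (nat_lit 0)) (.cons (.rf (nat_lit 860) (nat_lit 493858305440582043680)) .nil))))) .nil)))))),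
 (.br (nat_lit 2) (nat_lit 0) (.cons (.rf (nat_lit 805) (nat_lit 493858305440582042688)) (.cons (.rf (nat_lit 844) (nat_lit 493858305440582042688)) (.cons (.kr (nat_lit 256) (nat_lit 65536) (nat_lit 1) (nat_lit 0)) (.cons (.br (nat_lit 3) (nat_lit 0) (.cons (.ev (nat_lit 72339073309671681) (nat_lit 1)) (.cons (.rf (nat_lit 847) (nat_lit 493858305440582043680)) (.cons (.rf (nat_lit 849) (nat_lit 493858305440582043680)) (.cons (.rf (nat_lit 850) (nat_lit 493858305440582043680)) (.cons (.rf (nat_lit 850) (nat_lit 458117738797769787424)) .nil)))))) (.cons (.rf (nat_lit 861) (nat_lit 493858305440582043680)) (.cons (.rf (nat_lit 861) (nat_lit 458117738797769787424)) .nil))))))),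
 (.br (nat_lit 8) (nat_lit 0) (.cons (.br (nat_lit 12) (nat_lit 0) (.cons (.zr (nat_lit 4722438542662706397187) (nat_lit 20282719088661492050495247745536) (nat_lit 5) (nat_lit 4)) .nil)) (.cons (.br (nat_lit 11) (nat_lit 0) (.cons (.ev (nat_lit 20361637770906747988488445034496) (nat_lit 1)) .nil)) (.cons (.br (nat_lit 11) (nat_lit 0) (.cons (.zr (nat_lit 4722438542662706397187) (nat_lit 20282719088661492050495247745536) (nat_lit 5) (nat_lit 4)) .nil)) .nil)))),
 (.br (nat_lit 3) (nat_lit 0) (.cons (.br (nat_lit 12) (nat_lit 0) (.cons (.zr (nat_lit 4722438542662706397187) (nat_lit 20282719088661492050495247745536) (nat_lit 5) (nat_lit 4)) .nil)) (.cons (.br (nat_lit 11) (nat_lit 0) (.cons (.ev (nat_lit 81288095972283616049006488192000) (nat_lit 3)) .nil)) (.cons (.rf (nat_lit 863) (nat_lit 493858305440582043680)) .nil)))),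
 (.br (nat_lit 13) (nat_lit 0) (.cons (.rf (nat_lit 863) (nat_lit 493858305440582043680)) (.cons (.rf (nat_lit 864) (nat_lit 493858305440582043680)) (.cons (.br (nat_lit 3) (nat_lit 0) (.cons (.ev (nat_lit 20282410812595937064129423998976) (nat_lit 1)) .nil)) .nil)))),
 (.br (nat_lit 13) (nat_lit 0) (.cons (.rf (nat_lit 863) (nat_lit 493858305440582043680)) (.cons (.rf (nat_lit 864) (nat_lit 493858305440582043680)) (.cons (.rf (nat_lit 865) (nat_lit 493858305440582043680)) (.cons (.br (nat_lit 13) (nat_lit 0) (.cons (.rf (nat_lit 863) (nat_lit 493858305440582043680)) (.cons (.rf (nat_lit 864) (nat_lit 493858305440582043680)) (.cons (.rf (nat_lit 865) (nat_lit 493858305440582043680)) .nil)))) .nil))))),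
 (.br (nat_lit 12) (nat_lit 0) (.cons (.ev (nat_lit 20282409603670117450599760986368) (nat_lit 1)) .nil)),
 (.br (nat_lit 3) (nat_lit 0) (.cons (.rf (nat_lit 866) (nat_lit 493858305440582043680)) (.cons (.rf (nat_lit 318) (nat_lit 14316143121157687328)) (.cons (.rf (nat_lit 318) (nat_lit 13164347516457682976)) (.cons (.br (nat_lit 4) (nat_lit 0) (.cons (.rf (nat_lit 867) (nat_lit 493858305440582043680)) (.cons (.rf (nat_lit 867) (nat_lit 492741412732994160672)) (.cons (.ev (nat_lit 20282410812577490038580737802496) (nat_lit 1)) .nil)))) .nil)))))]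

theorem c32 : chkAll C T R L32 (nat_lit 838) = true := by decide +kernel

theorem l32 : (nat_lit 838) + L32.length = (nat_lit 869) := by decide +kernel

/-- part of the certificates -/
def L33 : List Prf := [(.br (nat_lit 3) (nat_lit 0) (.cons (.rf (nat_lit 866) (nat_lit 493858305440582043680)) (.cons (.rf (nat_lit 318) (nat_lit 14316143121157687328)) (.cons (.rf (nat_lit 320) (nat_lit 14316143121157687328)) (.cons (.br (nat_lit 4) (nat_lit 0) (.cons (.br (nat_lit 12) (nat_lit 0) (.cons (.zr (nat_lit 4722438542662706397187) (nat_lit 20282719088661492050495247745536) (nat_lit 5) (nat_lit 4)) .nil)) (.cons (.br (nat_lit 8) (nat_lit 0) (.cons (.zr (nat_lit 4722438542662706397187) (nat_lit 20282719088661492050495247745536) (nat_lit 5) (nat_lit 4)) .nil)) (.cons (.br (nat_lit 8) (nat_lit 0) (.cons (.ev (nat_lit 20361637766166007100614104907776) (nat_lit 1)) .nil)) .nil)))) .nil))))),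
 (.br (nat_lit 3) (nat_lit 0) (.cons (.rf (nat_lit 866) (nat_lit 493858305440582043680)) (.cons (.rf (nat_lit 318) (nat_lit 13164347516457682976)) (.cons (.rf (nat_lit 320) (nat_lit 14316143121157687328)) (.cons (.br (nat_lit 4) (nat_lit 0) (.cons (.br (nat_lit 11) (nat_lit 0) (.cons (.ev (nat_lit 81288095972209827946811743141892) (nat_lit 3)) .nil)) (.cons (.br (nat_lit 8) (nat_lit 0) (.cons (.ev (nat_lit 81605008631711763508411171340800) (nat_lit 3)) .nil)) (.cons (.br (nat_lit 8) (nat_lit 0) (.cons (.ev (nat_lit 81129639637736856227310366361090) (nat_lit 3)) .nil)) .nil)))) .nil))))),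
 (.br (nat_lit 3) (nat_lit 0) (.cons (.rf (nat_lit 866) (nat_lit 493858305440582043680)) (.cons (.rf (nat_lit 868) (nat_lit 493858305440582043680)) (.cons (.rf (nat_lit 869) (nat_lit 493858305440582043680)) (.cons (.rf (nat_lit 870) (nat_lit 493858305440582043680)) (.cons (.br (nat_lit 3) (nat_lit 0) (.cons (.rf (nat_lit 866) (nat_lit 493858305440582043680)) (.cons (.rf (nat_lit 868) (nat_lit 493858305440582043680)) (.cons (.rf (nat_lit 869) (nat_lit 493858305440582043680)) (.cons (.rf (nat_lit 870) (nat_lit 493858305440582043680)) .nil))))) .nil)))))),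
 (.br (nat_lit 3) (nat_lit 0) (.cons (.rf (nat_lit 320) (nat_lit 14316140924281915424)) (.cons (.br (nat_lit 8) (nat_lit 0) (.cons (.ev (nat_lit 20282409608392555991063444062208) (nat_lit 1)) .nil)) .nil))),
 (.br (nat_lit 3) (nat_lit 0) (.cons (.rf (nat_lit 871) (nat_lit 493858303243706271776)) (.cons (.rf (nat_lit 872) (nat_lit 493858305440582043680)) (.cons (.br (nat_lit 3) (nat_lit 0) (.cons (.rf (nat_lit 871) (nat_lit 493858303243706271776)) (.cons (.rf (nat_lit 872) (nat_lit 493858305440582043680)) .nil))) .nil)))),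
 (.br (nat_lit 3) (nat_lit 0) (.cons (.rf (nat_lit 871) (nat_lit 493858303243706271776)) (.cons (.rf (nat_lit 872) (nat_lit 493858305440582043680)) (.cons (.br (nat_lit 3) (nat_lit 0) (.cons (.rf (nat_lit 871) (nat_lit 493858303243706271776)) (.cons (.rf (nat_lit 872) (nat_lit 493858305440582043680)) .nil))) .nil)))),
 (.br (nat_lit 3) (nat_lit 0) (.cons (.rf (nat_lit 871) (nat_lit 493858303243706271776)) (.cons (.rf (nat_lit 873) (nat_lit 493858305440582043680)) (.cons (.rf (nat_lit 874) (nat_lit 493858305440582043680)) (.cons (.br (nat_lit 3) (nat_lit 0) (.cons (.rf (nat_lit 871) (nat_lit 493858303243706271776)) (.cons (.rf (nat_lit 873) (nat_lit 493858305440582043680)) (.cons (.rf (nat_lit 874) (nat_lit 493858305440582043680)) .nil)))) .nil))))),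
 (.br (nat_lit 3) (nat_lit 0) (.cons (.br (nat_lit 3) (nat_lit 0) (.cons (.br (nat_lit 3) (nat_lit 0) .nil) .nil)) .nil)),
 (.br (nat_lit 3) (nat_lit 0) (.cons (.ev (nat_lit 20361638979832567604217131368705) (nat_lit 1)) .nil)),
 (.br (nat_lit 12) (nat_lit 0) (.cons (.rf (nat_lit 877) (nat_lit 493858305440582043680)) (.cons (.ev (nat_lit 20361638979814121141618398461953) (nat_lit 1)) .nil))),
 (.br (nat_lit 4) (nat_lit 0) (.cons (.rf (nat_lit 877) (nat_lit 493858305440582043680)) (.cons (.ev (nat_lit 20361637770906747988488444968961) (nat_lit 1)) .nil))),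
 (.br (nat_lit 8) (nat_lit 0) (.cons (.rf (nat_lit 871) (nat_lit 493858303243706271776)) (.cons (.rf (nat_lit 875) (nat_lit 493858303243706271776)) (.cons (.rf (nat_lit 876) (nat_lit 424402847776)) (.cons (.br (nat_lit 3) (nat_lit 0) (.cons (.rf (nat_lit 878) (nat_lit 493858305440582043680)) (.cons (.rf (nat_lit 879) (nat_lit 493858305440582043680)) (.cons (.br (nat_lit 3) (nat_lit 0) (.cons (.rf (nat_lit 878) (nat_lit 493858305440582043680)) (.cons (.rf (nat_lit 879) (nat_lit 493858305440582043680)) .nil))) .nil)))) .nil))))),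
 (.br (nat_lit 3) (nat_lit 0) (.cons (.zr (nat_lit 4722438542662706397187) (nat_lit 20282719088661492050495247745536) (nat_lit 5) (nat_lit 4)) .nil)),
 (.br (nat_lit 11) (nat_lit 0) (.cons (.rf (nat_lit 881) (nat_lit 493858305440582043680)) (.cons (.ev (nat_lit 81446552278349035375255248437252) (nat_lit 3)) .nil))),
 (.br (nat_lit 3) (nat_lit 0) (.cons (.rf (nat_lit 881) (nat_lit 493858305440582043680)) (.cons (.br (nat_lit 3) (nat_lit 0) (.cons (.zr (nat_lit 4722438542662706397187) (nat_lit 20282719088661492050495247745536) (nat_lit 5) (nat_lit 4)) .nil)) .nil))),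
 (.br (nat_lit 8) (nat_lit 0) (.cons (.rf (nat_lit 871) (nat_lit 493858303243706271776)) (.cons (.rf (nat_lit 875) (nat_lit 493858303243706271776)) (.cons (.rf (nat_lit 876) (nat_lit 391116851232)) (.cons (.br (nat_lit 3) (nat_lit 0) (.cons (.rf (nat_lit 882) (nat_lit 493858305440582043680)) (.cons (.rf (nat_lit 883) (nat_lit 493858305440582043680)) (.cons (.br (nat_lit 3) (nat_lit 0) (.cons (.rf (nat_lit 882) (nat_lit 493858305440582043680)) (.cons (.rf (nat_lit 883) (nat_lit 493858305440582043680)) .nil))) .nil)))) .nil))))),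
 (.br (nat_lit 3) (nat_lit 0) (.cons (.ev (nat_lit 79228162514264338697367322881) (nat_lit 1)) (.cons (.ev (nat_lit 20282410812595937064129423998976) (nat_lit 1)) .nil))),
 (.br (nat_lit 3) (nat_lit 0) (.cons (.br (nat_lit 3) (nat_lit 0) (.cons (.ev (nat_lit 20282410812595937064129423998976) (nat_lit 1)) .nil)) (.cons (.rf (nat_lit 885) (nat_lit 493858305440582043680)) .nil))),
 (.br (nat_lit 3) (nat_lit 0) (.cons (.ev (nat_lit 20282410812595937064129423998976) (nat_lit 1)) .nil)),
 (.br (nat_lit 6) (nat_lit 0) (.cons (.rf (nat_lit 871) (nat_lit 493858305440582043680)) (.cons (.rf (nat_lit 875) (nat_lit 493858305440582043680)) (.cons (.kr (nat_lit 281474976710656) (nat_lit 18446744073709551616) (nat_lit 6) (nat_lit 0)) (.cons (.rf (nat_lit 880) (nat_lit 493858305440582043680)) (.cons (.rf (nat_lit 884) (nat_lit 493858305440582043680)) (.cons (.br (nat_lit 8) (nat_lit 0) (.cons (.rf (nat_lit 871) (nat_lit 493858303243706271776)) (.cons (.rf (nat_lit 875) (nat_lit 493858303243706271776)) (.cons (.rf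 (nat_lit 880) (nat_lit 493858303243706271776)) (.cons (.rf (nat_lit 884) (nat_lit 493858303243706271776)) (.cons (.br (nat_lit 3) (nat_lit 0) (.cons (.rf (nat_lit 886) (nat_lit 493858305440582043680)) (.cons (.br (nat_lit 3) (nat_lit 0) (.cons (.rf (nat_lit 886) (nat_lit 493858305440582043680)) (.cons (.rf (nat_lit 887) (nat_lit 493858305440582043680)) .nil))) (.cons (.br (nat_lit 3) (nat_lit 0) (.cons (.rf (nat_lit 885) (nat_lit 493858305440582043680)) (.cons (.rf (nat_lit 887) (nat_lit 493858305440582043680)) .nil))) .nil)))) .nil)))))) .nil))))))),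
 (.br (nat_lit 2) (nat_lit 0) (.cons (.kr (nat_lit 1208925891672223212634114) (nat_lit 4722366483969156972544) (nat_lit 0) (nat_lit 1)) (.cons (.rf (nat_lit 844) (nat_lit 493858305440582042688)) (.cons (.rf (nat_lit 862) (nat_lit 493858305440582043680)) (.cons (.rf (nat_lit 862) (nat_lit 493858303243706271776)) (.cons (.rf (nat_lit 888) (nat_lit 493858305440582043680)) (.cons (.rf (nat_lit 888) (nat_lit 458117738797769787424)) .nil))))))),
 (.br (nat_lit 2) (nat_lit 0) (.cons (.rf (nat_lit 805) (nat_lit 493858305440582042688)) (.cons (.rf (nat_lit 844) (nat_lit 493858305440582042688)) (.cons (.rf (nat_lit 862) (nat_lit 493858305440582043680)) (.cons (.rf (nat_lit 862) (nat_lit 493858303243706271776)) (.cons (.rf (nat_lit 889) (nat_lit 493858305440582043680)) (.cons (.kr (nat_lit 1213648186097498819920384) (nat_lit 72058693549686784) (nat_lit 1) (nat_lit 0)) .nil))))))),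
 (.br (nat_lit 2) (nat_lit 0) (.cons (.rf (nat_lit 805) (nat_lit 493858305440582042688)) (.cons (.rf (nat_lit 844) (nat_lit 493858305440582042688)) (.cons (.rf (nat_lit 862) (nat_lit 493858305440582043680)) (.cons (.rf (nat_lit 862) (nat_lit 493858303243706271776)) (.cons (.rf (nat_lit 889) (nat_lit 493858305440582043680)) (.cons (.rf (nat_lit 890) (nat_lit 493858305440582043680)) (.cons (.rf (nat_lit 890) (nat_lit 458117738797769787424)) .nil)))))))),
 (.br (nat_lit 3) (nat_lit 0) (.cons (.kr (nat_lit 18446744073709617152) (nat_lit 281474993487872) (nat_lit 2) (nat_lit 0)) .nil)),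
 (.br (nat_lit 7) (nat_lit 0) (.cons (.ev (nat_lit 79228162514264338697367322881) (nat_lit 1)) (.cons (.br (nat_lit 3) (nat_lit 0) (.cons (.ev (nat_lit 79228162514264338697367322881) (nat_lit 1)) .nil)) .nil))),
 (.br (nat_lit 3) (nat_lit 0) (.cons (.ev (nat_lit 20282409603651670425051074658561) (nat_lit 1)) (.cons (.br (nat_lit 4) (nat_lit 0) (.cons (.ev (nat_lit 20282409608392555991063427350528) (nat_lit 1)) .nil)) .nil))),
 (.br (nat_lit 3) (nat_lit 0) (.cons (.ev (nat_lit 20282409603651670425051074723841) (nat_lit 1)) (.cons (.br (nat_lit 4) (nat_lit 0) (.cons (.ev (nat_lit 20282409608392555991063427285248) (nat_lit 1)) .nil)) .nil))),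
 (.br (nat_lit 13) (nat_lit 0) (.cons (.ev (nat_lit 4722366764348916957184) (nat_lit 1)) (.cons (.br (nat_lit 4) (nat_lit 0) (.cons (.br (nat_lit 3) (nat_lit 0) (.cons (.kr (nat_lit 4759259972116575945216) (nat_lit 1208925892235173199609856) (nat_lit 1) (nat_lit 0)) (.cons (.ev (nat_lit 20282410817299928579044420878593) (nat_lit 1)) (.cons (.ev (nat_lit 20282410817299928579044420943873) (nat_lit 1)) .nil)))) (.cons (.ev (nat_lit 20282410817318375604593090363393) (nat_lit 1)) (.cons (.br (nat_lit 3) (nat_lit 0) (.cons (.ev (nat_lit 40564820430433658933852942631940) (nat_lit 3)) (.cons (.rf (nat_lit 892) (nat_lit 482281231447328800)) .nil))) (.cons (.br (nat_lit 3) (nat_lit 0) (.cons (.ev (nat_lit 40564820430433658933852942368772) (nat_lit 3)) (.cons (.rf (nat_lit 892) (nat_lit 481190515912574016)) .nil))) .nil))))) (.cons (.br (nat_lit 3) (nat_lit 0) (.cons (.rf (nat_lit 893) (nat_lit 15433072043909810208)) (.cons (.rf (nat_lit 894) (nat_lit 493858305440582043680)) (.cons (.br (nat_lit 3) (nat_lit 0)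 (.cons (.rf (nat_lit 893) (nat_lit 15433072043909810208)) (.cons (.rf (nat_lit 894) (nat_lit 493858305440582043680)) .nil))) .nil)))) (.cons (.br (nat_lit 3) (nat_lit 0) (.cons (.rf (nat_lit 893) (nat_lit 15398169146797687872)) (.cons (.rf (nat_lit 895) (nat_lit 493858305440582043680)) (.cons (.br (nat_lit 3) (nat_lit 0) (.cons (.rf (nat_lit 893) (nat_lit 15398169146797687872)) (.cons (.rf (nat_lit 895) (nat_lit 493858305440582043680)) .nil))) .nil)))) .nil))))),
 (.br (nat_lit 3) (nat_lit 0) (.cons (.br (nat_lit 3) (nat_lit 0) .nil) .nil)),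
 (.br (nat_lit 13) (nat_lit 0) (.cons (.rf (nat_lit 896) (nat_lit 493858305440582043680)) (.cons (.ev (nat_lit 4722366764348916957184) (nat_lit 1)) (.cons (.br (nat_lit 4) (nat_lit 0) (.cons (.br (nat_lit 8) (nat_lit 0) (.cons (.br (nat_lit 3) (nat_lit 0) (.cons (.ev (nat_lit 20282409608374108965514757799936) (nat_lit 1)) .nil)) (.cons (.ev (nat_lit 40564820430433658933852942501380) (nat_lit 3)) .nil))) (.cons (.rf (nat_lit 299) (nat_lit 436787809978400)) (.cons (.rf (nat_lit 897) (nat_lit 470977729366048)) .nil)))) (.cons (.br (nat_lit 4) (nat_lit 0) (.cons (.br (nat_lit 8) (nat_lit 0) (.cons (.rf (nat_lit 690) (nat_lit 458117738797769722944)) (.cons (.ev (nat_lit 40564820430433658933852942501380) (nat_lit 3)) .nil))) (.cons (.rf (nat_lit 299) (nat_lit 401603471443008)) (.cons (.rf (nat_lit 897) (nat_lit 469912577475648)) .nil)))) .nil))))),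
 (.br (nat_lit 3) (nat_lit 0) (.cons (.rf (nat_lit 699) (nat_lit 458009655705247714368)) .nil)),
 (.br (nat_lit 13) (nat_lit 0) (.cons (.rf (nat_lit 896) (nat_lit 493858305440582043680)) (.cons (.ev (nat_lit 4722366764348916957184) (nat_lit 1)) (.cons (.rf (nat_lit 898) (nat_lit 493858305440582043680)) (.cons (.br (nat_lit 3) (nat_lit 0) (.cons (.rf (nat_lit 899) (nat_lit 493858305440582043680)) (.cons (.br (nat_lit 3) (nat_lit 0) (.cons (.rf (nat_lit 699) (nat_lit 458009655705247714368)) .nil)) .nil))) .nil))))),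
 (.br (nat_lit 13) (nat_lit 0) (.cons (.rf (nat_lit 896) (nat_lit 493858305440582043680)) (.cons (.ev (nat_lit 4722366764348916957184) (nat_lit 1)) (.cons (.rf (nat_lit 898) (nat_lit 493858305440582043680)) (.cons (.rf (nat_lit 900) (nat_lit 493858305440582043680)) (.cons (.br (nat_lit 13) (nat_lit 0) (.cons (.rf (nat_lit 896) (nat_lit 493858305440582043680)) (.cons (.ev (nat_lit 4722366764348916957184) (nat_lit 1)) (.cons (.rf (nat_lit 898) (nat_lit 493858305440582043680)) (.cons (.rf (nat_lit 900) (nat_lit 493858305440582043680)) .nil))))) .nil)))))),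
 (.br (nat_lit 2) (nat_lit 0) (.cons (.rf (nat_lit 805) (nat_lit 493858305440582042688)) (.cons (.kr (nat_lit 4722366483969156841984) (nat_lit 1208925891672223212765184) (nat_lit 1) (nat_lit 0)) (.cons (.rf (nat_lit 891) (nat_lit 493858305440582042688)) (.cons (.kr (nat_lit 256) (nat_lit 65536) (nat_lit 1) (nat_lit 0)) (.cons (.rf (nat_lit 901) (nat_lit 493858305440582043680)) (.cons (.rf (nat_lit 901) (nat_lit 458117738797769787424)) .nil)))))))]

theorem c33 : chkAll C T R L33 (nat_lit 869) = true := by decide +kernel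

theorem l33 : (nat_lit 869) + L33.length = (nat_lit 903) := by decide +kernel

/-- part of the certificates -/
def L34 : List Prf := [(.br (nat_lit 13) (nat_lit 0) (.cons (.br (nat_lit 12) (nat_lit 0) (.cons (.zr (nat_lit 2422574149828415582109701) (nat_lit 158765810056797045808810819840) (nat_lit 5) (nat_lit 4)) .nil)) (.cons (.br (nat_lit 8) (nat_lit 0) (.cons (.zr (nat_lit 2422574149828415582109701) (nat_lit 158765810056797045808810819840) (nat_lit 5) (nat_lit 4)) .nil)) .nil))),
 (.br (nat_lit 3) (nat_lit 0) (.cons (.rf (nat_lit 903) (nat_lit 493858305440582043680)) (.cons (.rf (nat_lit 903) (nat_lit 458117738797769787424)) .nil))),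
 (.br (nat_lit 12) (nat_lit 0) (.cons (.rf (nat_lit 903) (nat_lit 493858305440582043680)) (.cons (.rf (nat_lit 904) (nat_lit 493858305440582043680)) (.cons (.br (nat_lit 12) (nat_lit 0) (.cons (.rf (nat_lit 903) (nat_lit 493858305440582043680)) (.cons (.rf (nat_lit 904) (nat_lit 493858305440582043680)) .nil))) .nil)))),
 (.br (nat_lit 8) (nat_lit 0) (.cons (.ev (nat_lit 40723276783870462282493329539590) (nat_lit 4)) .nil)),
 (.br (nat_lit 3) (nat_lit 0) (.cons (.rf (nat_lit 905) (nat_lit 493858305440582043680)) (.cons (.rf (nat_lit 905) (nat_lit 493858303243706270784)) (.cons (.br (nat_lit 12) (nat_lit 0) (.cons (.rf (nat_lit 906) (nat_lit 493858305440582043680)) (.cons (.rf (nat_lit 906) (nat_lit 493858303243706270784)) (.cons (.kr (nat_lit 79228162514264337593543950336) (nat_lit 20282409603651670423947251286016) (nat_lit 12) (nat_lit 0)) .nil)))) .nil)))),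
 (.br (nat_lit 3) (nat_lit 0) (.cons (.rf (nat_lit 905) (nat_lit 493858305440582043680)) (.cons (.rf (nat_lit 905) (nat_lit 493858303243706270784)) (.cons (.rf (nat_lit 907) (nat_lit 493858305440582043680)) (.cons (.rf (nat_lit 907) (nat_lit 458117738797769787424)) .nil))))),
 (.br (nat_lit 11) (nat_lit 0) (.cons (.ev (nat_lit 309485009821346172548153344) (nat_lit 1)) .nil)),
 (.br (nat_lit 4) (nat_lit 0) (.cons (.ev (nat_lit 79228162532711364246036807681) (nat_lit 1)) (.cons (.rf (nat_lit 909) (nat_lit 15433072043909810208)) .nil))),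
 (.br (nat_lit 3) (nat_lit 0) (.cons (.rf (nat_lit 908) (nat_lit 493858305440582043680)) (.cons (.rf (nat_lit 910) (nat_lit 14242959524133701664)) (.cons (.rf (nat_lit 910) (nat_lit 15395881028740548640)) .nil)))),
 (.br (nat_lit 7) (nat_lit 0) (.cons (.ev (nat_lit 79228162514264338697367322624) (nat_lit 1)) .nil)),
 (.br (nat_lit 3) (nat_lit 0) (.cons (.rf (nat_lit 908) (nat_lit 493858305440582043680)) (.cons (.rf (nat_lit 910) (nat_lit 14242959524133701664)) (.cons (.br (nat_lit 4) (nat_lit 0) (.cons (.ev (nat_lit 4740885566021009670912) (nat_lit 2)) (.cons (.rf (nat_lit 912) (nat_lit 15433072043909810208)) (.cons (.rf (nat_lit 912) (nat_lit 14316179336321927200)) .nil)))) .nil)))),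
 (.br (nat_lit 3) (nat_lit 0) (.cons (.rf (nat_lit 908) (nat_lit 493858305440582043680)) (.cons (.rf (nat_lit 911) (nat_lit 493858305440582043680)) (.cons (.rf (nat_lit 913) (nat_lit 493858305440582043680)) (.cons (.rf (nat_lit 913) (nat_lit 458117738797769787424)) .nil))))),
 (.br (nat_lit 3) (nat_lit 0) (.cons (.rf (nat_lit 908) (nat_lit 493858305440582043680)) (.cons (.rf (nat_lit 914) (nat_lit 493858305440582043680)) (.cons (.rf (nat_lit 914) (nat_lit 493858303243706270784)) (.cons (.br (nat_lit 3) (nat_lit 0) (.cons (.rf (nat_lit 908) (nat_lit 493858305440582043680)) (.cons (.rf (nat_lit 914) (nat_lit 493858305440582043680)) (.cons (.rf (nat_lit 914) (nat_lit 493858303243706270784)) .nil)))) .nil))))),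
 (.br (nat_lit 8) (nat_lit 0) (.cons (.br (nat_lit 11) (nat_lit 0) (.cons (.zr (nat_lit 237684497061312955914272113664) (nat_lit 621387871498373661496246272) (nat_lit 10) (nat_lit 2)) (.cons (.br (nat_lit 12) (nat_lit 0) (.cons (.zr (nat_lit 158456329824682135451082949634) (nat_lit 620178945534925319239237632) (nat_lit 10) (nat_lit 2)) .nil)) .nil))) (.cons (.rf (nat_lit 488) (nat_lit 14316140924281914432)) (.cons (.br (nat_lit 13) (nat_lit 0) (.cons (.ev (nat_lit 4740885566021009801986) (nat_lit 2)) (.cons (.br (nat_lit 3) (nat_lit 0) (.cons (.ev (nat_lit 4740885566021009801986) (nat_lit 2)) .nil)) .nil))) (.cons (.br (nat_lit 12) (nat_lit 0) (.cons (.ev (nat_lit 158457548343028795069612428290) (nat_lit 4)) (.cons (.br (nat_lit 3) (nat_lit 0) (.cons (.ev (nat_lit 20361638975110273178941540794625) (nat_lit 1)) .nil)) (.cons (.ev (nat_lit 20282409603670117450599744208896) (nat_lit 1)) .nil)))) .nil))))),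
 (.br (nat_lit 6) (nat_lit 0) (.cons (.rf (nat_lit 916) (nat_lit 493858305440582043680)) (.cons (.br (nat_lit 3) (nat_lit 0) (.cons (.zr (nat_lit 1237944798545351309160154112) (nat_lit 158457533954565589597794861061) (nat_lit 5) (nat_lit 0)) (.cons (.ev (nat_lit 4740885566021009867266) (nat_lit 2)) .nil))) (.cons (.rf (nat_lit 488) (nat_lit 13164347516457682976)) (.cons (.br (nat_lit 11) (nat_lit 0) (.cons (.ev (nat_lit 1208981304809770451140610) (nat_lit 2)) (.cons (.ev (nat_lit 79228171977660786445736017921) (nat_lit 2)) (.cons (.ev (nat_lit 20282409603670117450599744143616) (nat_lit 1)) .nil)))) .nil))))),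
 (.br (nat_lit 3) (nat_lit 0) (.cons (.rf (nat_lit 916) (nat_lit 493858305440582043680)) (.cons (.rf (nat_lit 917) (nat_lit 493858305440582043680)) (.cons (.br (nat_lit 13) (nat_lit 0) (.cons (.br (nat_lit 8) (nat_lit 0) (.cons (.ev (nat_lit 81288095953283757320511848580100) (nat_lit 3)) .nil)) (.cons (.br (nat_lit 6) (nat_lit 0) (.cons (.ev (nat_lit 81288095953283757320511848580100) (nat_lit 3)) .nil)) .nil))) (.cons (.br (nat_lit 8) (nat_lit 0) (.cons (.br (nat_lit 12) (nat_lit 0) (.cons (.ev (nat_lit 79228167291971055991476322816) (nat_lit 2)) .nil)) (.cons (.ev (nat_lit 158457548232632611540526433280) (nat_lit 3)) (.cons (.ev (nat_lit 20282410817299928579044420878593) (nat_lit 1)) .nil)))) .nil))))),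
 (.br (nat_lit 3) (nat_lit 0) (.cons (.rf (nat_lit 916) (nat_lit 493858305440582043680)) (.cons (.rf (nat_lit 917) (nat_lit 493858305440582043680)) (.cons (.rf (nat_lit 918) (nat_lit 493858305440582043680)) (.cons (.br (nat_lit 6) (nat_lit 0) (.cons (.br (nat_lit 11) (nat_lit 0) (.cons (.ev (nat_lit 20361638979832567604217148080128) (nat_lit 1)) .nil)) (.cons (.br (nat_lit 8) (nat_lit 0) (.cons (.ev (nat_lit 81288095972172935021614277460992) (nat_lit 3)) .nil)) (.cons (.ev (nat_lit 20282410817299928579044420943873) (nat_lit 1)) .nil)))) .nil))))),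
 (.br (nat_lit 3) (nat_lit 0) (.cons (.rf (nat_lit 916) (nat_lit 493858305440582043680)) (.cons (.rf (nat_lit 917) (nat_lit 493858305440582043680)) (.cons (.rf (nat_lit 918) (nat_lit 493858305440582043680)) (.cons (.rf (nat_lit 919) (nat_lit 493858305440582043680)) (.cons (.br (nat_lit 3) (nat_lit 0) (.cons (.rf (nat_lit 916) (nat_lit 493858305440582043680)) (.cons (.rf (nat_lit 917) (nat_lit 493858305440582043680)) (.cons (.rf (nat_lit 918) (nat_lit 493858305440582043680)) (.cons (.rf (nat_lit 919) (nat_lit 493858305440582043680)) .nil))))) .nil)))))),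
 (.br (nat_lit 3) (nat_lit 0) (.cons (.rf (nat_lit 920) (nat_lit 493858305440582043680)) (.cons (.br (nat_lit 4) (nat_lit 0) (.cons (.ev (nat_lit 1242019639341498115556358) (nat_lit 3)) (.cons (.br (nat_lit 12) (nat_lit 0) (.cons (.zr (nat_lit 79228162551157825740963054081) (nat_lit 309485009821626548013301760) (nat_lit 5) (nat_lit 2)) .nil)) .nil))) (.cons (.br (nat_lit 13) (nat_lit 0) (.cons (.br (nat_lit 11) (nat_lit 0) (.cons (.ev (nat_lit 20361637766166007100614104907776) (nat_lit 1)) .nil)) (.cons (.br (nat_lit 4) (nat_lit 0) (.cons (.ev (nat_lit 20361637766166007100614104907776) (nat_lit 1)) .nil)) .nil))) (.cons (.br (nat_lit 4) (nat_lit 0) (.cons (.br (nat_lit 12) (nat_lit 0) (.cons (.ev (nat_lit 81605008631748656433608704524288) (nat_lit 3)) .nil)) (.cons (.br (nat_lit 11) (nat_lit 0) (.cons (.ev (nat_lit 81605008669712920991398650579982) (nat_lit 4)) .nil)) (.cons (.ev (nat_lit 20282410812577490038580737802496) (nat_lit 1)) .nil)))) .nil))))),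
 (.br (nat_lit 12) (nat_lit 0) (.cons (.ev (nat_lit 20282410812595937064129407222016) (nat_lit 1)) .nil)),
 (.br (nat_lit 3) (nat_lit 0) (.cons (.rf (nat_lit 920) (nat_lit 493858305440582043680)) (.cons (.rf (nat_lit 921) (nat_lit 493858305440582043680)) (.cons (.br (nat_lit 13) (nat_lit 0) (.cons (.br (nat_lit 8) (nat_lit 0) (.cons (.ev (nat_lit 81129639685034452156303173487116) (nat_lit 4)) .nil)) (.cons (.br (nat_lit 4) (nat_lit 0) (.cons (.ev (nat_lit 81129639685034452156303173487116) (nat_lit 4)) .nil)) .nil))) (.cons (.br (nat_lit 4) (nat_lit 0) (.cons (.rf (nat_lit 922) (nat_lit 493858305440582043680)) (.cons (.br (nat_lit 8) (nat_lit 0) (.cons (.ev (nat_lit 20282409603670117450599744208896) (nat_lit 1)) .nil)) (.cons (.br (nat_lit 8) (nat_lit 0) (.cons (.ev (nat_lit 158457548158846761145527697412) (nat_lit 3)) .nil)) .nil)))) .nil))))),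
 (.br (nat_lit 8) (nat_lit 0) (.cons (.ev (nat_lit 79228167255149904709736792065) (nat_lit 1)) (.cons (.ev (nat_lit 79228172014553711643235385345) (nat_lit 2)) (.cons (.ev (nat_lit 158456334491853346820724031490) (nat_lit 2)) .nil)))),
 (.br (nat_lit 3) (nat_lit 0) (.cons (.rf (nat_lit 920) (nat_lit 493858305440582043680)) (.cons (.rf (nat_lit 921) (nat_lit 493858305440582043680)) (.cons (.rf (nat_lit 923) (nat_lit 493858305440582043680)) (.cons (.br (nat_lit 4) (nat_lit 0) (.cons (.ev (nat_lit 4740885566021009670912) (nat_lit 2)) (.cons (.rf (nat_lit 924) (nat_lit 493858305440582043680)) (.cons (.br (nat_lit 8) (nat_lit 0) (.cons (.ev (nat_lit 79228171977660786445736017921) (nat_lit 2)) .nil)) .nil)))) .nil))))),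
 (.br (nat_lit 3) (nat_lit 0) (.cons (.rf (nat_lit 920) (nat_lit 493858305440582043680)) (.cons (.rf (nat_lit 921) (nat_lit 493858305440582043680)) (.cons (.rf (nat_lit 923) (nat_lit 493858305440582043680)) (.cons (.rf (nat_lit 925) (nat_lit 493858305440582043680)) (.cons (.br (nat_lit 3) (nat_lit 0) (.cons (.rf (nat_lit 920) (nat_lit 493858305440582043680)) (.cons (.rf (nat_lit 921) (nat_lit 493858305440582043680)) (.cons (.rf (nat_lit 923) (nat_lit 493858305440582043680)) (.cons (.rf (nat_lit 925) (nat_lit 493858305440582043680)) .nil))))) .nil)))))),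
 (.br (nat_lit 3) (nat_lit 0) (.cons (.rf (nat_lit 920) (nat_lit 493858305440582043680)) (.cons (.rf (nat_lit 926) (nat_lit 493858305440582043680)) (.cons (.br (nat_lit 4) (nat_lit 0) (.cons (.zr (nat_lit 2475913208923120265081260032) (nat_lit 316921112538589538112629637130) (nat_lit 10) (nat_lit 0)) (.cons (.br (nat_lit 6) (nat_lit 0) (.cons (.ev (nat_lit 20361638975091826716342791176193) (nat_lit 1)) .nil)) .nil))) (.cons (.br (nat_lit 4) (nat_lit 0) (.cons (.ev (nat_lit 4740885566021009866752) (nat_lit 2)) (.cons (.br (nat_lit 6) (nat_lit 0) (.cons (.ev (nat_lit 158456325046976265893357552386) (nat_lit 2)) .nil)) (.cons (.br (nat_lit 6) (nat_lit 0) (.cons (.ev (nat_lit 20361638975110273178941540794625) (nat_lit 1)) .nil)) .nil)))) .nil))))),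
 (.br (nat_lit 3) (nat_lit 0) (.cons (.rf (nat_lit 920) (nat_lit 493858305440582043680)) (.cons (.rf (nat_lit 926) (nat_lit 493858305440582043680)) (.cons (.rf (nat_lit 927) (nat_lit 493858305440582043680)) (.cons (.br (nat_lit 4) (nat_lit 0) (.cons (.rf (nat_lit 922) (nat_lit 492741410536118387776)) (.cons (.br (nat_lit 6) (nat_lit 0) (.cons (.ev (nat_lit 20282409603670117450599744143616) (nat_lit 1)) .nil)) (.cons (.br (nat_lit 6) (nat_lit 0) (.cons (.ev (nat_lit 20361637766166007100614104907776) (nat_lit 1)) .nil)) .nil)))) .nil))))),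
 (.br (nat_lit 3) (nat_lit 0) (.cons (.rf (nat_lit 920) (nat_lit 493858305440582043680)) (.cons (.rf (nat_lit 926) (nat_lit 493858305440582043680)) (.cons (.rf (nat_lit 927) (nat_lit 493858305440582043680)) (.cons (.rf (nat_lit 928) (nat_lit 493858305440582043680)) (.cons (.br (nat_lit 3) (nat_lit 0) (.cons (.rf (nat_lit 920) (nat_lit 493858305440582043680)) (.cons (.rf (nat_lit 926) (nat_lit 493858305440582043680)) (.cons (.rf (nat_lit 927) (nat_lit 493858305440582043680)) (.cons (.rf (nat_lit 928) (nat_lit 493858305440582043680)) .nil))))) .nil)))))),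
 (.br (nat_lit 3) (nat_lit 0) (.cons (.rf (nat_lit 920) (nat_lit 493858305440582043680)) (.cons (.rf (nat_lit 926) (nat_lit 493858305440582043680)) (.cons (.rf (nat_lit 929) (nat_lit 493858305440582043680)) (.cons (.br (nat_lit 4) (nat_lit 0) (.cons (.br (nat_lit 8) (nat_lit 0) (.cons (.ev (nat_lit 81288095972172935021614277459972) (nat_lit 3)) .nil)) (.cons (.br (nat_lit 6) (nat_lit 0) (.cons (.ev (nat_lit 81605008650822590368791614586890) (nat_lit 4)) .nil)) (.cons (.ev (nat_lit 20282409608374108965514757799936) (nat_lit 1)) .nil)))) .nil))))),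
 (.br (nat_lit 3) (nat_lit 0) (.cons (.rf (nat_lit 920) (nat_lit 493858305440582043680)) (.cons (.rf (nat_lit 926) (nat_lit 493858305440582043680)) (.cons (.rf (nat_lit 929) (nat_lit 493858305440582043680)) (.cons (.rf (nat_lit 930) (nat_lit 493858305440582043680)) (.cons (.br (nat_lit 3) (nat_lit 0) (.cons (.rf (nat_lit 920) (nat_lit 493858305440582043680)) (.cons (.rf (nat_lit 926) (nat_lit 493858305440582043680)) (.cons (.rf (nat_lit 929) (nat_lit 493858305440582043680)) (.cons (.rf (nat_lit 930) (nat_lit 493858305440582043680)) .nil))))) .nil)))))),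
 (.br (nat_lit 3) (nat_lit 0) (.cons (.rf (nat_lit 920) (nat_lit 493858305440582043680)) (.cons (.rf (nat_lit 926) (nat_lit 493858305440582043680)) (.cons (.rf (nat_lit 929) (nat_lit 493858305440582043680)) (.cons (.rf (nat_lit 931) (nat_lit 493858305440582043680)) (.cons (.br (nat_lit 3) (nat_lit 0) (.cons (.rf (nat_lit 920) (nat_lit 493858305440582043680)) (.cons (.rf (nat_lit 926) (nat_lit 493858305440582043680)) (.cons (.rf (nat_lit 929) (nat_lit 493858305440582043680)) (.cons (.rf (nat_lit 931) (nat_lit 493858305440582043680)) .nil))))) .nil))))))]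

theorem c34 : chkAll C T R L34 (nat_lit 903) = true := by decide +kernel

theorem l34 : (nat_lit 903) + L34.length = (nat_lit 933) := by decide +kernel

/-- part of the certificates -/
def L35 : List Prf := [(.br (nat_lit 3) (nat_lit 0) (.cons (.rf (nat_lit 920) (nat_lit 493858305440582043680)) (.cons (.rf (nat_lit 926) (nat_lit 493858305440582043680)) (.cons (.rf (nat_lit 929) (nat_lit 493858305440582043680)) (.cons (.rf (nat_lit 931) (nat_lit 493858305440582043680)) (.cons (.rf (nat_lit 932) (nat_lit 493858305440582043680)) (.cons (.br (nat_lit 3) (nat_lit 0) (.cons (.rf (nat_lit 920) (nat_lit 493858305440582043680)) (.cons (.rf (nat_lit 926) (nat_lit 493858305440582043680)) (.cons (.rf (nat_lit 929) (nat_lit 493858305440582043680)) (.cons (.rf (nat_lit 931) (nat_lit 493858305440582043680)) (.cons (.rf (nat_lit 932) (nat_lit 493858305440582043680)) .nil)))))) .nil))))))),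
 (.br (nat_lit 2) (nat_lit 0) (.cons (.rf (nat_lit 805) (nat_lit 493858305440582042688)) (.cons (.rf (nat_lit 844) (nat_lit 493858305440582042688)) (.cons (.rf (nat_lit 891) (nat_lit 493858305440582042688)) (.cons (.br (nat_lit 3) (nat_lit 0) (.cons (.rf (nat_lit 908) (nat_lit 493858305440582043680)) (.cons (.rf (nat_lit 914) (nat_lit 493858305440582043680)) (.cons (.rf (nat_lit 914) (nat_lit 493858303243706270784)) (.cons (.rf (nat_lit 915) (nat_lit 493858305440582043680)) (.cons (.rf (nat_lit 915) (nat_lit 458117738797769787424)) .nil)))))) (.cons (.rf (nat_lit 933) (nat_lit 493858305440582043680)) (.cons (.rf (nat_lit 933) (nat_lit 458117738797769787424)) .nil))))))),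
 (.br (nat_lit 13) (nat_lit 0) (.cons (.br (nat_lit 12) (nat_lit 0) (.cons (.ev (nat_lit 158457538750574375039576310272) (nat_lit 3)) .nil)) (.cons (.br (nat_lit 8) (nat_lit 0) (.cons (.ev (nat_lit 158457538750574375039576310272) (nat_lit 3)) .nil)) .nil))),
 (.br (nat_lit 3) (nat_lit 0) (.cons (.rf (nat_lit 935) (nat_lit 493858305440582043680)) (.cons (.br (nat_lit 8) (nat_lit 0) (.cons (.ev (nat_lit 158457557640328536894308877828) (nat_lit 3)) .nil)) .nil))),
 (.br (nat_lit 8) (nat_lit 0) (.cons (.rf (nat_lit 935) (nat_lit 493858305440582043680)) (.cons (.rf (nat_lit 936) (nat_lit 493858305440582043680)) (.cons (.br (nat_lit 8) (nat_lit 0) (.cons (.rf (nat_lit 935) (nat_lit 493858305440582043680)) (.cons (.rf (nat_lit 936) (nat_lit 493858305440582043680)) .nil))) .nil)))),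
 (.br (nat_lit 3) (nat_lit 0) (.cons (.rf (nat_lit 937) (nat_lit 493858305440582043680)) (.cons (.rf (nat_lit 937) (nat_lit 302469822845850584128)) (.cons (.br (nat_lit 8) (nat_lit 0) (.cons (.rf (nat_lit 419) (nat_lit 458116542632197982240)) (.cons (.rf (nat_lit 420) (nat_lit 458116542632197982240)) (.cons (.ev (nat_lit 40564820430507444784247941104640) (nat_lit 3)) .nil)))) .nil)))),
 (.br (nat_lit 3) (nat_lit 0) (.cons (.rf (nat_lit 937) (nat_lit 493858305440582043680)) (.cons (.rf (nat_lit 938) (nat_lit 493858305440582043680)) (.cons (.rf (nat_lit 937) (nat_lit 302469822845850584128)) (.cons (.rf (nat_lit 938) (nat_lit 302469822845850584128)) .nil))))),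
 (.br (nat_lit 3) (nat_lit 0) (.cons (.rf (nat_lit 939) (nat_lit 493858305440582043680)) (.cons (.br (nat_lit 13) (nat_lit 0) (.cons (.br (nat_lit 8) (nat_lit 0) (.cons (.ev (nat_lit 20361637766166007100614104907776) (nat_lit 1)) .nil)) (.cons (.br (nat_lit 4) (nat_lit 0) (.cons (.ev (nat_lit 20361637766166007100614104907776) (nat_lit 1)) .nil)) .nil))) (.cons (.br (nat_lit 4) (nat_lit 0) (.cons (.br (nat_lit 12) (nat_lit 0) (.cons (.ev (nat_lit 79228167255149904709719949568) (nat_lit 1)) .nil)) (.cons (.br (nat_lit 8) (nat_lit 0) (.cons (.ev (nat_lit 20520094105417120134773598060800) (nat_lit 2)) .nil)) (.cons (.br (nat_lit 8) (nat_lit 0) (.cons (.ev (nat_lit 20361637766166007100614104907776) (nat_lit 1)) .nil)) .nil)))) .nil)))),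
 (.br (nat_lit 3) (nat_lit 0) (.cons (.rf (nat_lit 939) (nat_lit 493858305440582043680)) (.cons (.rf (nat_lit 940) (nat_lit 493858305440582043680)) (.cons (.br (nat_lit 3) (nat_lit 0) (.cons (.rf (nat_lit 939) (nat_lit 493858305440582043680)) (.cons (.rf (nat_lit 940) (nat_lit 493858305440582043680)) (.cons (.rf (nat_lit 940) (nat_lit 302469822845850584128)) .nil)))) (.cons (.br (nat_lit 3) (nat_lit 0) (.cons (.rf (nat_lit 939) (nat_lit 493858305440582043680)) (.cons (.rf (nat_lit 940) (nat_lit 493858305440582043680)) (.cons (.rf (nat_lit 940) (nat_lit 302469822845850584128)) .nil)))) .nil))))),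
 (.br (nat_lit 3) (nat_lit 0) (.cons (.rf (nat_lit 939) (nat_lit 493858305440582043680)) (.cons (.rf (nat_lit 941) (nat_lit 493858305440582043680)) (.cons (.rf (nat_lit 941) (nat_lit 302469822845850584128)) (.cons (.br (nat_lit 3) (nat_lit 0) (.cons (.rf (nat_lit 939) (nat_lit 493858305440582043680)) (.cons (.rf (nat_lit 941) (nat_lit 493858305440582043680)) (.cons (.rf (nat_lit 941) (nat_lit 302469822845850584128)) .nil)))) .nil))))),
 (.br (nat_lit 3) (nat_lit 0) (.cons (.rf (nat_lit 939) (nat_lit 493858305440582043680)) (.cons (.rf (nat_lit 941) (nat_lit 493858305440582043680)) (.cons (.rf (nat_lit 942) (nat_lit 493858305440582043680)) (.cons (.rf (nat_lit 941) (nat_lit 302469822845850584128)) (.cons (.rf (nat_lit 942) (nat_lit 302469822845850584128)) .nil)))))),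
 (.br (nat_lit 2) (nat_lit 0) (.cons (.kr (nat_lit 1208925891672223212634114) (nat_lit 4722366483969156972544) (nat_lit 0) (nat_lit 1)) (.cons (.rf (nat_lit 844) (nat_lit 493858305440582042688)) (.cons (.kr (nat_lit 256) (nat_lit 65536) (nat_lit 1) (nat_lit 0)) (.cons (.rf (nat_lit 934) (nat_lit 493858305440582043680)) (.cons (.rf (nat_lit 943) (nat_lit 493858305440582043680)) (.cons (.rf (nat_lit 943) (nat_lit 458117738797769787424)) .nil))))))),
 (.br (nat_lit 2) (nat_lit 0) (.cons (.rf (nat_lit 805) (nat_lit 493858305440582042688)) (.cons (.rf (nat_lit 844) (nat_lit 493858305440582042688)) (.cons (.rf (nat_lit 902) (nat_lit 493858305440582043680)) (.cons (.rf (nat_lit 934) (nat_lit 493858305440582043680)) (.cons (.rf (nat_lit 944) (nat_lit 493858305440582043680)) (.cons (.rf (nat_lit 891) (nat_lit 302469822845850584128)) .nil))))))),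
 (.br (nat_lit 2) (nat_lit 0) (.cons (.rf (nat_lit 805) (nat_lit 493858305440582042688)) (.cons (.rf (nat_lit 844) (nat_lit 493858305440582042688)) (.cons (.rf (nat_lit 902) (nat_lit 493858305440582043680)) (.cons (.rf (nat_lit 934) (nat_lit 493858305440582043680)) (.cons (.rf (nat_lit 944) (nat_lit 493858305440582043680)) (.cons (.rf (nat_lit 945) (nat_lit 493858305440582043680)) (.cons (.rf (nat_lit 945) (nat_lit 458117738797769787424)) .nil)))))))),
 (.br (nat_lit 8) (nat_lit 0) (.cons (.kr (nat_lit 4759259972116575945216) (nat_lit 1208925892235173199609856) (nat_lit 1) (nat_lit 0)) (.cons (.ev (nat_lit 20361637770888301525889728905473) (nat_lit 1)) .nil))),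
 (.br (nat_lit 3) (nat_lit 0) (.cons (.br (nat_lit 12) (nat_lit 0) (.cons (.br (nat_lit 11) (nat_lit 0) (.cons (.ev (nat_lit 122169827820199568951161064390658) (nat_lit 3)) .nil)) (.cons (.br (nat_lit 8) (nat_lit 0) (.cons (.ev (nat_lit 122169827820199568951161063998978) (nat_lit 3)) .nil)) (.cons (.ev (nat_lit 20361637766166007100614121619456) (nat_lit 1)) .nil)))) (.cons (.rf (nat_lit 947) (nat_lit 493858305440582043680)) (.cons (.rf (nat_lit 947) (nat_lit 458117738797769786432)) .nil)))),
 (.br (nat_lit 13) (nat_lit 0) (.cons (.ev (nat_lit 20361640188740156646459543912706) (nat_lit 2)) (.cons (.ev (nat_lit 20361637770888301525889728905473) (nat_lit 1)) .nil))),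
 (.br (nat_lit 3) (nat_lit 0) (.cons (.rf (nat_lit 948) (nat_lit 493858305440582043680)) (.cons (.rf (nat_lit 949) (nat_lit 493858305440582043680)) (.cons (.rf (nat_lit 949) (nat_lit 458117738797769786432)) .nil)))),
 (.br (nat_lit 3) (nat_lit 0) (.cons (.rf (nat_lit 948) (nat_lit 493858305440582043680)) (.cons (.rf (nat_lit 949) (nat_lit 493858305440582043680)) (.cons (.br (nat_lit 8) (nat_lit 0) (.cons (.br (nat_lit 8) (nat_lit 0) .nil) .nil)) .nil)))),
 (.br (nat_lit 3) (nat_lit 0) (.cons (.kr (nat_lit 1208962785160370631737856) (nat_lit 4722367046919143817216) (nat_lit 1) (nat_lit 0)) (.cons (.ev (nat_lit 20361637770906747988488444968961) (nat_lit 1)) .nil))),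
 (.br (nat_lit 3) (nat_lit 0) (.cons (.ev (nat_lit 79228162514264338697350545664) (nat_lit 1)) (.cons (.ev (nat_lit 79229371458530977775699951616) (nat_lit 1)) (.cons (.ev (nat_lit 20361638975110201965776744742912) (nat_lit 2)) .nil)))),
 (.br (nat_lit 3) (nat_lit 0) (.cons (.rf (nat_lit 912) (nat_lit 9590667619082536992)) (.cons (.rf (nat_lit 912) (nat_lit 9590667585796539456)) .nil))),
 (.br (nat_lit 3) (nat_lit 0) (.cons (.rf (nat_lit 954) (nat_lit 15433035725666355232)) (.cons (.ev (nat_lit 40723276755425148877605706138630) (nat_lit 3)) .nil))),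
 (.br (nat_lit 3) (nat_lit 0) (.cons (.ev (nat_lit 4740813226947666509824) (nat_lit 1)) .nil)),
 (.br (nat_lit 2) (nat_lit 0) (.cons (.rf (nat_lit 805) (nat_lit 493858305440582042688)) (.cons (.rf (nat_lit 844) (nat_lit 493858305440582042688)) (.cons (.rf (nat_lit 891) (nat_lit 493858305440582042688)) (.cons (.rf (nat_lit 946) (nat_lit 493858305440582042688)) (.cons (.kr (nat_lit 256) (nat_lit 65536) (nat_lit 1) (nat_lit 0)) (.cons (.br (nat_lit 4) (nat_lit 0) (.cons (.br (nat_lit 3) (nat_lit 0) (.cons (.rf (nat_lit 948) (nat_lit 493858305440582043680)) (.cons (.rf (nat_lit 950) (nat_lit 493858305440582043680)) (.cons (.rf (nat_lit 951) (nat_lit 493858305440582043680)) (.cons (.rf (nat_lit 951) (nat_lit 458117738797769786432)) .nil))))) (.cons (.br (nat_lit 8) (nat_lit 0) (.cons (.br (nat_lit 12) (nat_lit 0) (.cons (.rf (nat_lit 952) (nat_lit 493858305440582043680)) (.cons (.br (nat_lit 13) (nat_lit 0) (.cons (.rf (nat_lit 952) (nat_lit 458117738797769786432)) (.cons (.ev (nat_lit 20361637770906747988488444968961)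 (nat_lit 1)) .nil))) (.cons (.ev (nat_lit 20361637770906747988488445034753) (nat_lit 1)) .nil)))) (.cons (.br (nat_lit 11) (nat_lit 0) (.cons (.br (nat_lit 3) (nat_lit 0) (.cons (.rf (nat_lit 953) (nat_lit 493858305440582043680)) (.cons (.rf (nat_lit 953) (nat_lit 458117738797769786432)) .nil))) (.cons (.rf (nat_lit 299) (nat_lit 469773192366112)) (.cons (.rf (nat_lit 299) (nat_lit 434588853830720)) .nil)))) (.cons (.rf (nat_lit 484) (nat_lit 9016617044000)) (.cons (.rf (nat_lit 484) (nat_lit 9015576855616)) .nil))))) (.cons (.br (nat_lit 11) (nat_lit 0) (.cons (.br (nat_lit 3) (nat_lit 0) (.cons (.rf (nat_lit 954) (nat_lit 15433035725666355232)) (.cons (.rf (nat_lit 955) (nat_lit 493858305440582043680)) (.cons (.rf (nat_lit 955) (nat_lit 458117738797769786432)) .nil)))) (.cons (.br (nat_lit 8) (nat_lit 0) (.cons (.br (nat_lit 3) (nat_lit 0) (.cons (.rf (nat_lit 956) (nat_lit 15433035725666355232)) (.cons (.rf (nat_lit 956) (nat_lit 14316143018078471232)) .nil))) (.cons (.rf (nat_lit 299) (nat_lit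 466577736697888)) (.cons (.rf (nat_lit 299) (nat_lit 431393398162496)) .nil)))) (.cons (.rf (nat_lit 484) (nat_lit 12315151927328)) (.cons (.rf (nat_lit 484) (nat_lit 12314111738944)) .nil))))) (.cons (.ev (nat_lit 4722366764348916957184) (nat_lit 1)) (.cons (.ev (nat_lit 4722366764348916891904) (nat_lit 1)) .nil)))))) .nil))))))),
 (.br (nat_lit 3) (nat_lit 0) (.cons (.ev (nat_lit 1232648838593141578793478) (nat_lit 3)) (.cons (.br (nat_lit 12) (nat_lit 0) (.cons (.br (nat_lit 11) (nat_lit 0) (.cons (.ev (nat_lit 121852915160660740473160229453830) (nat_lit 3)) .nil)) (.cons (.ev (nat_lit 79228162514337242919670383361) (nat_lit 2)) (.cons (.ev (nat_lit 244022741870919358785331511038480) (nat_lit 5)) .nil)))) (.cons (.br (nat_lit 8) (nat_lit 0) (.cons (.br (nat_lit 11) (nat_lit 0) (.cons (.ev (nat_lit 285062929959045713352526557613056) (nat_lit 4)) .nil)) (.cons (.ev (nat_lit 122011371495097397980016190686208) (nat_lit 3)) .nil))) (.cons (.br (nat_lit 11) (nat_lit 0) (.cons (.ev (nat_lit 40564820430617840967777027099650)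 (nat_lit 4)) (.cons (.ev (nat_lit 203141009966335872771038724230150) (nat_lit 4)) .nil))) .nil))))),
 (.br (nat_lit 3) (nat_lit 0) (.cons (.rf (nat_lit 958) (nat_lit 493858305440582043680)) (.cons (.rf (nat_lit 958) (nat_lit 458117736600894014528)) (.cons (.br (nat_lit 3) (nat_lit 0) (.cons (.rf (nat_lit 958) (nat_lit 493858305440582043680)) (.cons (.rf (nat_lit 958) (nat_lit 458117736600894014528)) (.cons (.rf (nat_lit 958) (nat_lit 302469822845850585120)) (.cons (.rf (nat_lit 958) (nat_lit 230988688461788185664)) .nil))))) (.cons (.rf (nat_lit 958) (nat_lit 302469822845850585120)) (.cons (.rf (nat_lit 958) (nat_lit 230988688461788185664)) .nil)))))),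
 (.br (nat_lit 11) (nat_lit 0) (.cons (.ev (nat_lit 20282409603707082717069576438275) (nat_lit 2)) .nil)),
 (.br (nat_lit 4) (nat_lit 0) (.cons (.rf (nat_lit 924) (nat_lit 230988689560226072608)) (.cons (.ev (nat_lit 20440865942865745292925086073601) (nat_lit 2)) .nil))),
 (.br (nat_lit 3) (nat_lit 0) (.cons (.ev (nat_lit 1232648838593141578793478) (nat_lit 3)) (.cons (.br (nat_lit 4) (nat_lit 0) (.cons (.br (nat_lit 12) (nat_lit 0) (.cons (.ev (nat_lit 81446552306757166489856041287686) (nat_lit 3)) .nil)) (.cons (.rf (nat_lit 960) (nat_lit 493858305440582043680)) (.cons (.rf (nat_lit 960) (nat_lit 458117736600894014528)) .nil)))) (.cons (.rf (nat_lit 961) (nat_lit 493858305440582043680)) (.cons (.rf (nat_lit 961) (nat_lit 458117736600894014528)) .nil))))),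
 (.br (nat_lit 11) (nat_lit 0) (.cons (.ev (nat_lit 284112191999355875005576353025536) (nat_lit 4)) .nil))]

theorem c35 : chkAll C T R L35 (nat_lit 933) = true := by decide +kernel

theorem l35 : (nat_lit 933) + L35.length = (nat_lit 964) := by decide +kernel

/-- part of the certificates -/
def L36 : List Prf := [(.br (nat_lit 3) (nat_lit 0) (.cons (.rf (nat_lit 959) (nat_lit 493858305440582043680)) (.cons (.rf (nat_lit 962) (nat_lit 493858305440582043680)) (.cons (.br (nat_lit 4) (nat_lit 0) (.cons (.rf (nat_lit 963) (nat_lit 493858305440582043680)) (.cons (.br (nat_lit 8) (nat_lit 0) (.cons (.ev (nat_lit 121694458863929805430822642123780) (nat_lit 3)) .nil)) (.cons (.rf (nat_lit 963) (nat_lit 302469822845850585120)) .nil)))) (.cons (.br (nat_lit 4) (nat_lit 0) (.cons (.ev (nat_lit 4740885566021009670912) (nat_lit 2)) (.cons (.br (nat_lit 8) (nat_lit 0) (.cons (.ev (nat_lit 950739201674029319271588431380) (nat_lit 5)) .nil)) (.cons (.ev (nat_lit 79228176681508749122644148739) (nat_lit 2)) .nil))))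 .nil))))),
 (.br (nat_lit 3) (nat_lit 0) (.cons (.rf (nat_lit 959) (nat_lit 493858305440582043680)) (.cons (.rf (nat_lit 962) (nat_lit 493858305440582043680)) (.cons (.rf (nat_lit 964) (nat_lit 493858305440582043680)) (.cons (.br (nat_lit 3) (nat_lit 0) (.cons (.rf (nat_lit 959) (nat_lit 493858305440582043680)) (.cons (.rf (nat_lit 961) (nat_lit 493858305440582043680)) (.cons (.rf (nat_lit 964) (nat_lit 493858305440582043680)) (.cons (.rf (nat_lit 961) (nat_lit 302469822845850585120)) .nil))))) (.cons (.br (nat_lit 3) (nat_lit 0) (.cons (.rf (nat_lit 959) (nat_lit 493858305440582043680)) (.cons (.rf (nat_lit 961) (nat_lit 458117736600894014528)) (.cons (.rf (nat_lit 964) (nat_lit 493858305440582043680)) (.cons (.rf (nat_lit 961) (nat_lit 302469822845850585120)) .nil))))) .nil)))))),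
 (.br (nat_lit 2) (nat_lit 0) (.cons (.rf (nat_lit 805) (nat_lit 493858305440582042688)) (.cons (.rf (nat_lit 844) (nat_lit 493858305440582042688)) (.cons (.rf (nat_lit 891) (nat_lit 493858305440582042688)) (.cons (.rf (nat_lit 946) (nat_lit 493858303243706270784)) (.cons (.rf (nat_lit 957) (nat_lit 302469822845850585120)) (.cons (.br (nat_lit 3) (nat_lit 0) (.cons (.rf (nat_lit 959) (nat_lit 493858305440582043680)) (.cons (.rf (nat_lit 965) (nat_lit 493858305440582043680)) (.cons (.rf (nat_lit 965) (nat_lit 458117736600894014528)) (.cons (.br (nat_lit 3) (nat_lit 0) (.cons (.rf (nat_lit 959) (nat_lit 493858305440582043680)) (.cons (.rf (nat_lit 965) (nat_lit 493858305440582043680)) (.cons (.rf (nat_lit 965) (nat_lit 458117736600894014528)) (.cons (.rf (nat_lit 965) (nat_lit 302469822845850585120)) (.cons (.rf (nat_lit 965) (nat_lit 230988688461788185664)) .nil)))))) (.cons (.rf (nat_lit 965) (nat_lit 302469822845850585120)) (.cons (.rf (nat_lit 965) (nat_lit 230988688461788185664)) .nil))))))) .nil))))))),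
 (.br (nat_lit 2) (nat_lit 0) (.cons (.kr (nat_lit 1208925891672223212634114) (nat_lit 4722366483969156972544) (nat_lit 0) (nat_lit 1)) (.cons (.rf (nat_lit 844) (nat_lit 493858305440582042688)) (.cons (.rf (nat_lit 946) (nat_lit 493858305440582042688)) (.cons (.rf (nat_lit 946) (nat_lit 493858303243706270784)) (.cons (.rf (nat_lit 946) (nat_lit 302469822845850584128)) (.cons (.rf (nat_lit 946) (nat_lit 302469821747412698176)) .nil))))))),
 (.br (nat_lit 2) (nat_lit 0) (.cons (.rf (nat_lit 805) (nat_lit 493858305440582042688)) (.cons (.rf (nat_lit 844) (nat_lit 493858305440582042688)) (.cons (.rf (nat_lit 957) (nat_lit 493858305440582043680)) (.cons (.rf (nat_lit 966) (nat_lit 493858305440582043680)) (.cons (.rf (nat_lit 967) (nat_lit 493858305440582043680)) (.cons (.rf (nat_lit 957) (nat_lit 302469822845850585120)) (.cons (.rf (nat_lit 966) (nat_lit 302469822845850585120)) .nil)))))))),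
 (.br (nat_lit 1) (nat_lit 0) (.cons (.rf (nat_lit 805) (nat_lit 493858305440582043680)) (.cons (.rf (nat_lit 844) (nat_lit 493858305440582043680)) (.cons (.rf (nat_lit 891) (nat_lit 493858305440582043680)) (.cons (.rf (nat_lit 967) (nat_lit 493858305440582042688)) (.cons (.rf (nat_lit 968) (nat_lit 493858305440582043680)) (.cons (.rf (nat_lit 968) (nat_lit 458117738797769787424)) .nil))))))),
 (.br (nat_lit 1) (nat_lit 0) (.cons (.rf (nat_lit 805) (nat_lit 493858305440582043680)) (.cons (.rf (nat_lit 844) (nat_lit 493858305440582043680)) (.cons (.rf (nat_lit 969) (nat_lit 493858305440582043680)) (.cons (.rf (nat_lit 969) (nat_lit 493858303243706271776)) (.cons (.rf (nat_lit 967) (nat_lit 493858305440582042688)) (.cons (.rf (nat_lit 969) (nat_lit 302469822845850585120)) (.cons (.rf (nat_lit 969) (nat_lit 302469821747412699168)) .nil)))))))),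
 (.br (nat_lit 3) (nat_lit 0) (.cons (.kr (nat_lit 1208925892235173166055936) (nat_lit 4759259972116609499136) (nat_lit 1) (nat_lit 0)) (.cons (.br (nat_lit 12) (nat_lit 0) (.cons (.ev (nat_lit 122803653148648316029404660761090) (nat_lit 4)) .nil)) .nil))),
 (.br (nat_lit 1) (nat_lit 0) (.cons (.rf (nat_lit 970) (nat_lit 493858305440582011936)) (.cons (.rf (nat_lit 971) (nat_lit 493858305440582043680)) (.cons (.rf (nat_lit 971) (nat_lit 458117738797769787424)) .nil)))),
 (.br (nat_lit 3) (nat_lit 0) (.cons (.rf (nat_lit 970) (nat_lit 493858305440582011936)) (.cons (.rf (nat_lit 972) (nat_lit 493858305440582043680)) (.cons (.br (nat_lit 12) (nat_lit 0) (.cons (.br (nat_lit 11) (nat_lit 0) (.cons (.ev (nat_lit 81129639637810642077705231008770) (nat_lit 3)) .nil)) (.cons (.br (nat_lit 1) (nat_lit 0) (.cons (.ev (nat_lit 316913873261017732290401666050) (nat_lit 3)) .nil)) (.cons (.kr (nat_lit 79228162514264337593543950336) (nat_lit 20282409603651670423947251286016) (nat_lit 12) (nat_lit 0)) .nil)))) .nil)))),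
 (.br (nat_lit 3) (nat_lit 0) (.cons (.rf (nat_lit 970) (nat_lit 493858305440582011936)) (.cons (.rf (nat_lit 972) (nat_lit 493858305440582043680)) (.cons (.rf (nat_lit 973) (nat_lit 493858305440582043680)) (.cons (.rf (nat_lit 973) (nat_lit 458117738797769787424)) .nil))))),
 (.br (nat_lit 3) (nat_lit 0) (.cons (.ev (nat_lit 79229376162522492690696831233) (nat_lit 1)) (.cons (.br (nat_lit 12) (nat_lit 0) (.cons (.ev (nat_lit 316913901595650109785713541634) (nat_lit 4)) .nil)) .nil))),
 (.br (nat_lit 3) (nat_lit 0) (.cons (.rf (nat_lit 975) (nat_lit 493858305440582043680)) (.cons (.ev (nat_lit 79228162514264338697350611201) (nat_lit 1)) (.cons (.br (nat_lit 3) (nat_lit 0) (.cons (.rf (nat_lit 975) (nat_lit 493858305440582043680)) (.cons (.ev (nat_lit 79229376162522492690696831233) (nat_lit 1)) .nil))) .nil)))),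
 (.br (nat_lit 1) (nat_lit 0) (.cons (.rf (nat_lit 970) (nat_lit 493858305440582011936)) (.cons (.rf (nat_lit 974) (nat_lit 493858305440582043680)) (.cons (.rf (nat_lit 976) (nat_lit 493858305440582043680)) (.cons (.rf (nat_lit 976) (nat_lit 458117738797769787424)) .nil))))),
 (.br (nat_lit 3) (nat_lit 0) (.cons (.ev (nat_lit 79229376162522492690713542656) (nat_lit 1)) (.cons (.br (nat_lit 8) (nat_lit 0) (.cons (.ev (nat_lit 79228171996107249044485570561) (nat_lit 2)) .nil)) (.cons (.ev (nat_lit 72339073326448896) (nat_lit 1)) .nil)))),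
 (.br (nat_lit 1) (nat_lit 0) (.cons (.rf (nat_lit 970) (nat_lit 493858305440582011936)) (.cons (.rf (nat_lit 974) (nat_lit 493858305440582043680)) (.cons (.rf (nat_lit 977) (nat_lit 493858305440582043680)) (.cons (.br (nat_lit 12) (nat_lit 0) (.cons (.rf (nat_lit 978) (nat_lit 493858305440582043680)) (.cons (.br (nat_lit 3) (nat_lit 0) (.cons (.br (nat_lit 3) (nat_lit 0) (.cons (.ev (nat_lit 20282409613133513335398192906241) (nat_lit 2)) .nil)) (.cons (.rf (nat_lit 978) (nat_lit 458117738797769787424)) .nil))) (.cons (.br (nat_lit 3) (nat_lit 0) (.cons (.zr (nat_lit 79228162514265183117985775872) (nat_lit 310693972534447849613557761) (nat_lit 5) (nat_lit 6)) (.cons (.rf (nat_lit 978) (nat_lit 458117738797769787424)) .nil))) (.cons (.kr (nat_lit 79228162514264337593543950336) (nat_lit 20282409603651670423947251286016) (nat_lit 12) (nat_lit 0)) .nil))))) .nil))))),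
 (.br (nat_lit 1) (nat_lit 0) (.cons (.rf (nat_lit 970) (nat_lit 493858305440582011936)) (.cons (.rf (nat_lit 974) (nat_lit 493858305440582043680)) (.cons (.rf (nat_lit 977) (nat_lit 493858305440582043680)) (.cons (.rf (nat_lit 979) (nat_lit 493858305440582043680)) (.cons (.rf (nat_lit 979) (nat_lit 458117738797769787424)) .nil)))))),
 (.br (nat_lit 3) (nat_lit 0) (.cons (.rf (nat_lit 970) (nat_lit 493858305440582011936)) (.cons (.rf (nat_lit 980) (nat_lit 493858305440582043680)) (.cons (.rf (nat_lit 980) (nat_lit 493858303243706271776)) (.cons (.br (nat_lit 6) (nat_lit 0) (.cons (.br (nat_lit 8) (nat_lit 0) (.cons (.br (nat_lit 12) (nat_lit 0) (.cons (.ev (nat_lit 316913863816141786076382628354) (nat_lit 4)) .nil)) (.cons (.ev (nat_lit 79231789347135471304841560066) (nat_lit 2)) (.cons (.ev (nat_lit 20282413230484541557658548895746) (nat_lit 2)) .nil)))) (.cons (.kr (nat_lit 281474976710656) (nat_lit 18446744073709551616) (nat_lit 6) (nat_lit 0)) (.cons (.ev (nat_lit 79231789291796083508643037186)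 (nat_lit 2)) (.cons (.ev (nat_lit 20282413230429202169862350372866) (nat_lit 2)) .nil))))) .nil))))),
 (.br (nat_lit 3) (nat_lit 0) (.cons (.rf (nat_lit 970) (nat_lit 493858305440582011936)) (.cons (.rf (nat_lit 980) (nat_lit 493858305440582043680)) (.cons (.rf (nat_lit 980) (nat_lit 493858303243706271776)) (.cons (.rf (nat_lit 981) (nat_lit 493858305440582043680)) (.cons (.rf (nat_lit 981) (nat_lit 458117738797769787424)) .nil)))))),
 (.br (nat_lit 3) (nat_lit 0) (.cons (.rf (nat_lit 970) (nat_lit 493858305440582011936)) (.cons (.rf (nat_lit 980) (nat_lit 493858305440582043680)) (.cons (.rf (nat_lit 980) (nat_lit 493858303243706271776)) (.cons (.rf (nat_lit 982) (nat_lit 493858305440582043680)) (.cons (.br (nat_lit 3) (nat_lit 0) (.cons (.rf (nat_lit 970) (nat_lit 493858305440582011936)) (.cons (.rf (nat_lit 980) (nat_lit 493858305440582043680)) (.cons (.rf (nat_lit 980) (nat_lit 493858303243706271776)) (.cons (.rf (nat_lit 982) (nat_lit 493858305440582043680)) .nil))))) .nil)))))),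
 (.br (nat_lit 3) (nat_lit 0) (.cons (.rf (nat_lit 970) (nat_lit 493858305440582011936)) (.cons (.rf (nat_lit 980) (nat_lit 493858305440582043680)) (.cons (.rf (nat_lit 980) (nat_lit 493858303243706271776)) (.cons (.rf (nat_lit 982) (nat_lit 493858305440582043680)) (.cons (.rf (nat_lit 983) (nat_lit 493858305440582043680)) (.cons (.rf (nat_lit 983) (nat_lit 458117738797769787424)) .nil))))))),
 (.br (nat_lit 3) (nat_lit 0) (.cons (.br (nat_lit 13) (nat_lit 0) (.cons (.ev (nat_lit 79228167236702879161050530048) (nat_lit 1)) (.cons (.zr (nat_lit 316916276871410245359072446976) (nat_lit 618974742081236107281170434) (nat_lit 10) (nat_lit 1)) .nil))) (.cons (.br (nat_lit 3) (nat_lit 0) (.cons (.ev (nat_lit 79228167236702879161050530048) (nat_lit 1)) .nil)) .nil))),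
 (.br (nat_lit 3) (nat_lit 0) (.cons (.ev (nat_lit 309489732187827942681805056) (nat_lit 1)) .nil)),
 (.br (nat_lit 3) (nat_lit 0) (.cons (.rf (nat_lit 986) (nat_lit 11939368314733692960)) (.cons (.rf (nat_lit 986) (nat_lit 14242959524133701664)) .nil))),
 (.br (nat_lit 13) (nat_lit 0) (.cons (.br (nat_lit 12) (nat_lit 0) (.cons (.ev (nat_lit 20361638979832567604217131303168) (nat_lit 1)) .nil)) (.cons (.br (nat_lit 3) (nat_lit 0) (.cons (.ev (nat_lit 20361638979832567604217131303168) (nat_lit 1)) .nil)) .nil))),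
 (.br (nat_lit 3) (nat_lit 0) (.cons (.rf (nat_lit 988) (nat_lit 493858305440582043680)) (.cons (.br (nat_lit 3) (nat_lit 0) (.cons (.rf (nat_lit 988) (nat_lit 493858305440582043680)) (.cons (.ev (nat_lit 79229371440083952227030466816) (nat_lit 1)) .nil))) (.cons (.br (nat_lit 3) (nat_lit 0) (.cons (.rf (nat_lit 988) (nat_lit 493858305440582043680)) (.cons (.ev (nat_lit 79229371440083952227030466816) (nat_lit 1)) .nil))) .nil)))),
 (.br (nat_lit 3) (nat_lit 0) (.cons (.rf (nat_lit 989) (nat_lit 493858305440582043680)) (.cons (.br (nat_lit 3) (nat_lit 0) (.cons (.rf (nat_lit 989) (nat_lit 493858305440582043680)) (.cons (.ev (nat_lit 4722366764348933669121) (nat_lit 1)) .nil))) (.cons (.br (nat_lit 3) (nat_lit 0) (.cons (.rf (nat_lit 989) (nat_lit 493858305440582043680)) (.cons (.ev (nat_lit 4722366764348933669121) (nat_lit 1)) .nil))) .nil)))),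
 (.br (nat_lit 3) (nat_lit 0) (.cons (.rf (nat_lit 989) (nat_lit 493858305440582043680)) (.cons (.rf (nat_lit 990) (nat_lit 493858305440582043680)) (.cons (.br (nat_lit 3) (nat_lit 0) (.cons (.ev (nat_lit 79229371440083952227030466816) (nat_lit 1)) (.cons (.ev (nat_lit 4722366764348933669121) (nat_lit 1)) .nil))) .nil)))),
 (.br (nat_lit 12) (nat_lit 0) (.cons (.br (nat_lit 3) (nat_lit 0) (.cons (.ev (nat_lit 79228167236702879161050530048) (nat_lit 1)) (.cons (.ev (nat_lit 122011371495134290905213689790468) (nat_lit 3)) .nil))) (.cons (.br (nat_lit 3) (nat_lit 0) (.cons (.br (nat_lit 3) (nat_lit 0) (.cons (.zr (nat_lit 14167100014857457500164) (nat_lit 20361947251249543082908653257728) (nat_lit 5) (nat_lit 4)) .nil)) (.cons (.br (nat_lit 3) (nat_lit 0) (.cons (.zr (nat_lit 14167100014857457500164) (nat_lit 20361947251249543082908653257728) (nat_lit 5) (nat_lit 4)) .nil)) .nil))) (.cons (.ev (nat_lit 20361638975110273178941524082945) (nat_lit 1)) .nil)))),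
 (.br (nat_lit 3) (nat_lit 0) (.cons (.rf (nat_lit 992) (nat_lit 493858305440582043680)) (.cons (.br (nat_lit 3) (nat_lit 0) (.cons (.ev (nat_lit 79228167236702879161050530048) (nat_lit 1)) (.cons (.rf (nat_lit 984) (nat_lit 302469822845850553376)) .nil))) (.cons (.br (nat_lit 3) (nat_lit 0) (.cons (.kr (nat_lit 1208962785160370631737856) (nat_lit 4722367046919143817216) (nat_lit 1) (nat_lit 0)) (.cons (.rf (nat_lit 984) (nat_lit 302469822845850553376)) .nil))) .nil)))),
 (.br (nat_lit 3) (nat_lit 0) (.cons (.rf (nat_lit 992) (nat_lit 493858305440582043680)) (.cons (.rf (nat_lit 993) (nat_lit 493858305440582043680)) (.cons (.br (nat_lit 3) (nat_lit 0) (.cons (.ev (nat_lit 122011371495134290905213689790468) (nat_lit 3)) (.cons (.rf (nat_lit 984) (nat_lit 302469822845850553376)) .nil))) .nil))))]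

theorem c36 : chkAll C T R L36 (nat_lit 964) = true := by decide +kernel

theorem l36 : (nat_lit 964) + L36.length = (nat_lit 995) := by decide +kernel

/-- part of the certificates -/
def L37 : List Prf := [(.br (nat_lit 1) (nat_lit 0) (.cons (.rf (nat_lit 970) (nat_lit 493858305440582011936)) (.cons (.br (nat_lit 3) (nat_lit 0) (.cons (.rf (nat_lit 985) (nat_lit 493858305440582043680)) (.cons (.rf (nat_lit 987) (nat_lit 15433072043909810208)) (.cons (.br (nat_lit 3) (nat_lit 0) (.cons (.rf (nat_lit 985) (nat_lit 493858305440582043680)) (.cons (.rf (nat_lit 987) (nat_lit 15433072043909810208)) .nil))) .nil)))) (.cons (.br (nat_lit 3) (nat_lit 0) (.cons (.rf (nat_lit 989) (nat_lit 493858305440582043680)) (.cons (.rf (nat_lit 990) (nat_lit 493858305440582043680)) (.cons (.rf (nat_lit 991) (nat_lit 493858305440582043680)) (.cons (.br (nat_lit 3) (nat_lit 0) (.cons (.rf (nat_lit 989) (nat_lit 493858305440582043680)) (.cons (.rf (nat_lit 990) (nat_lit 493858305440582043680)) (.cons (.rf (nat_lit 991)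 (nat_lit 493858305440582043680)) .nil)))) .nil))))) (.cons (.ev (nat_lit 79228162514264338697350610944) (nat_lit 1)) (.cons (.br (nat_lit 3) (nat_lit 0) (.cons (.rf (nat_lit 992) (nat_lit 493858305440582043680)) (.cons (.rf (nat_lit 993) (nat_lit 493858305440582043680)) (.cons (.rf (nat_lit 994) (nat_lit 493858305440582043680)) (.cons (.br (nat_lit 3) (nat_lit 0) (.cons (.rf (nat_lit 992) (nat_lit 493858305440582043680)) (.cons (.rf (nat_lit 993) (nat_lit 493858305440582043680)) (.cons (.rf (nat_lit 994) (nat_lit 493858305440582043680)) .nil)))) .nil))))) .nil)))))),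
 (.br (nat_lit 3) (nat_lit 0) (.cons (.rf (nat_lit 984) (nat_lit 493858305440582011936)) (.cons (.br (nat_lit 8) (nat_lit 0) (.cons (.ev (nat_lit 121852915189031978662563455960066) (nat_lit 3)) .nil)) (.cons (.br (nat_lit 8) (nat_lit 0) (.cons (.ev (nat_lit 20282409613133513335398192906241) (nat_lit 2)) .nil)) .nil)))),
 (.br (nat_lit 3) (nat_lit 0) (.cons (.br (nat_lit 3) (nat_lit 0) (.cons (.rf (nat_lit 984) (nat_lit 493858305440582011936)) (.cons (.ev (nat_lit 79228167236702879161050530048) (nat_lit 1)) (.cons (.ev (nat_lit 20282409603651670425051074658304) (nat_lit 1)) .nil)))) (.cons (.rf (nat_lit 996) (nat_lit 493858305440582043680)) (.cons (.br (nat_lit 3) (nat_lit 0) (.cons (.ev (nat_lit 79228167236702879161050530048) (nat_lit 1)) (.cons (.rf (nat_lit 996) (nat_lit 493858305440582043680)) (.cons (.ev (nat_lit 72339073326448896) (nat_lit 1)) .nil)))) (.cons (.br (nat_lit 3) (nat_lit 0) (.cons (.ev (nat_lit 20282409603651670425051074658304) (nat_lit 1)) (.cons (.rf (nat_lit 996) (nat_lit 493858305440582043680))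 (.cons (.ev (nat_lit 72339073326448896) (nat_lit 1)) .nil)))) .nil))))),
 (.br (nat_lit 3) (nat_lit 0) (.cons (.br (nat_lit 3) (nat_lit 0) .nil) .nil)),
 (.br (nat_lit 8) (nat_lit 0) (.cons (.rf (nat_lit 997) (nat_lit 493858303243706271776)) (.cons (.ev (nat_lit 158457548195739686342993380352) (nat_lit 3)) (.cons (.br (nat_lit 3) (nat_lit 0) (.cons (.br (nat_lit 3) (nat_lit 0) .nil) .nil)) .nil)))),
 (.br (nat_lit 1) (nat_lit 0) (.cons (.rf (nat_lit 970) (nat_lit 493858305440582011936)) (.cons (.rf (nat_lit 995) (nat_lit 493858305440582043680)) (.cons (.rf (nat_lit 995) (nat_lit 493858303243706271776)) (.cons (.ev (nat_lit 79229376162522492690696830976) (nat_lit 1)) (.cons (.br (nat_lit 6) (nat_lit 0) (.cons (.rf (nat_lit 997) (nat_lit 493858305440582043680)) (.cons (.kr (nat_lit 281474976710656) (nat_lit 18446744073709551616) (nat_lit 6) (nat_lit 0)) (.cons (.br (nat_lit 8) (nat_lit 0) (.cons (.rf (nat_lit 997) (nat_lit 493858303243706271776)) (.cons (.ev (nat_lit 158457548158846761145527698432) (nat_lit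 3)) (.cons (.rf (nat_lit 998) (nat_lit 470977729366048)) .nil)))) (.cons (.rf (nat_lit 999) (nat_lit 493858305440582043680)) (.cons (.br (nat_lit 8) (nat_lit 0) (.cons (.rf (nat_lit 997) (nat_lit 493858303243706271776)) (.cons (.rf (nat_lit 998) (nat_lit 470975648991264)) (.cons (.rf (nat_lit 999) (nat_lit 493858303243706271776)) .nil)))) .nil)))))) .nil)))))),
 (.br (nat_lit 1) (nat_lit 0) (.cons (.rf (nat_lit 970) (nat_lit 493858305440582011936)) (.cons (.rf (nat_lit 995) (nat_lit 493858305440582043680)) (.cons (.rf (nat_lit 995) (nat_lit 493858303243706271776)) (.cons (.rf (nat_lit 1000) (nat_lit 493858305440582043680)) (.cons (.ev (nat_lit 79229376162522492690696830976) (nat_lit 1)) (.cons (.br (nat_lit 1) (nat_lit 0) (.cons (.rf (nat_lit 970) (nat_lit 493858305440582011936)) (.cons (.rf (nat_lit 995) (nat_lit 493858305440582043680)) (.cons (.rf (nat_lit 995) (nat_lit 493858303243706271776)) (.cons (.rf (nat_lit 1000) (nat_lit 493858305440582043680)) (.cons (.ev (nat_lit 79229376162522492690696830976)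 (nat_lit 1)) .nil)))))) .nil))))))),
 (.br (nat_lit 2) (nat_lit 0) (.cons (.rf (nat_lit 970) (nat_lit 493858305440582043680)) (.cons (.rf (nat_lit 970) (nat_lit 493858305440581979200)) (.cons (.rf (nat_lit 984) (nat_lit 493858305440582043680)) (.cons (.rf (nat_lit 1001) (nat_lit 493858305440582043680)) (.cons (.rf (nat_lit 1001) (nat_lit 458117738797769787424)) .nil)))))),
 (.br (nat_lit 1) (nat_lit 0) (.cons (.br (nat_lit 8) (nat_lit 0) (.cons (.ev (nat_lit 121694458863929805430822642384900) (nat_lit 3)) .nil)) .nil)),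
 (.br (nat_lit 8) (nat_lit 0) (.cons (.ev (nat_lit 79228162551230168117136130561) (nat_lit 2)) .nil)),
 (.br (nat_lit 1) (nat_lit 0) (.cons (.rf (nat_lit 1004) (nat_lit 493858305440582043680)) (.cons (.rf (nat_lit 1004) (nat_lit 458117738797769755680)) .nil))),
 (.br (nat_lit 8) (nat_lit 0) (.cons (.rf (nat_lit 1004) (nat_lit 493858305440582043680)) (.cons (.ev (nat_lit 40644051010762163761667096248321) (nat_lit 2)) .nil))),
 (.br (nat_lit 3) (nat_lit 0) (.cons (.rf (nat_lit 970) (nat_lit 493858305440582011936)) (.cons (.rf (nat_lit 970) (nat_lit 493858305440581979200)) (.cons (.rf (nat_lit 1002) (nat_lit 493858305440582011936)) (.cons (.br (nat_lit 2) (nat_lit 0) (.cons (.rf (nat_lit 970) (nat_lit 493858305440582043680)) (.cons (.rf (nat_lit 1002) (nat_lit 493858305440582043680)) (.cons (.br (nat_lit 1) (nat_lit 0) (.cons (.rf (nat_lit 1003) (nat_lit 493858305440582043680)) (.cons (.rf (nat_lit 1003) (nat_lit 302469822845850585120)) .nil))) (.cons (.br (nat_lit 1) (nat_lit 0) (.cons (.rf (nat_lit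 1005) (nat_lit 458117738797769787424)) (.cons (.rf (nat_lit 1006) (nat_lit 493858305440582011936)) (.cons (.rf (nat_lit 1006) (nat_lit 458117738797769787424)) .nil)))) .nil))))) (.cons (.rf (nat_lit 1002) (nat_lit 302469822845850553376)) .nil)))))),
 (.br (nat_lit 3) (nat_lit 0) (.cons (.rf (nat_lit 970) (nat_lit 493858305440582011936)) (.cons (.rf (nat_lit 1002) (nat_lit 493858305440582011936)) (.cons (.rf (nat_lit 1007) (nat_lit 493858305440582011936)) (.cons (.rf (nat_lit 1007) (nat_lit 493858305440582043680)) (.cons (.rf (nat_lit 1007) (nat_lit 458117738797769787424)) .nil)))))),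
 (.br (nat_lit 8) (nat_lit 0) (.cons (.br (nat_lit 12) (nat_lit 0) (.cons (.ev (nat_lit 122169827810681481354708309380614) (nat_lit 4)) .nil)) (.cons (.br (nat_lit 1) (nat_lit 0) (.cons (.ev (nat_lit 79228167291971055991459611136) (nat_lit 2)) .nil)) (.cons (.ev (nat_lit 40564820430507444784247941103620) (nat_lit 3)) .nil)))),
 (.br (nat_lit 3) (nat_lit 0) (.cons (.rf (nat_lit 970) (nat_lit 493858305440582011936)) (.cons (.rf (nat_lit 1002) (nat_lit 493858305440582011936)) (.cons (.rf (nat_lit 1007) (nat_lit 230988689560226072608)) (.cons (.br (nat_lit 1) (nat_lit 0) (.cons (.rf (nat_lit 1009) (nat_lit 493858305440582043680)) (.cons (.rf (nat_lit 1009) (nat_lit 458117736600893983776)) (.cons (.rf (nat_lit 1009) (nat_lit 302469822845850585120)) (.cons (.rf (nat_lit 1009) (nat_lit 230988688461788154912)) .nil))))) .nil))))),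
 (.br (nat_lit 3) (nat_lit 0) (.cons (.rf (nat_lit 970) (nat_lit 493858305440582011936)) (.cons (.rf (nat_lit 1002) (nat_lit 493858305440582011936)) (.cons (.rf (nat_lit 1010) (nat_lit 493858305440582043680)) (.cons (.rf (nat_lit 1007) (nat_lit 230988689560226072608)) (.cons (.br (nat_lit 3) (nat_lit 0) (.cons (.rf (nat_lit 970) (nat_lit 493858305440582011936)) (.cons (.rf (nat_lit 1002) (nat_lit 493858305440582011936)) (.cons (.rf (nat_lit 1010) (nat_lit 493858305440582043680)) (.cons (.rf (nat_lit 1002) (nat_lit 302469822845850553376)) .nil))))) .nil)))))),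
 (.br (nat_lit 3) (nat_lit 0) (.cons (.rf (nat_lit 970) (nat_lit 493858305440582011936)) (.cons (.rf (nat_lit 1008) (nat_lit 493858305440582043680)) (.cons (.rf (nat_lit 1011) (nat_lit 493858305440582043680)) (.cons (.br (nat_lit 3) (nat_lit 0) (.cons (.rf (nat_lit 970) (nat_lit 493858305440582011936)) (.cons (.rf (nat_lit 1007) (nat_lit 493858305440582011936)) (.cons (.rf (nat_lit 1011) (nat_lit 493858305440582043680)) (.cons (.rf (nat_lit 1007) (nat_lit 302469822845850553376)) (.cons (.rf (nat_lit 1011) (nat_lit 302469822845850585120)) .nil)))))) (.cons (.rf (nat_lit 1008) (nat_lit 302469822845850585120)) (.cons (.rf (nat_lit 1011) (nat_lit 302469822845850585120)) .nil))))))),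
 (.br (nat_lit 2) (nat_lit 0) (.cons (.rf (nat_lit 970) (nat_lit 493858305440582043680)) (.cons (.rf (nat_lit 970) (nat_lit 493858305440581979200)) (.cons (.rf (nat_lit 1002) (nat_lit 493858305440582043680)) (.cons (.rf (nat_lit 1012) (nat_lit 493858305440582043680)) (.cons (.rf (nat_lit 1012) (nat_lit 458117738797769787424)) .nil)))))),
 (.br (nat_lit 2) (nat_lit 0) (.cons (.rf (nat_lit 970) (nat_lit 493858305440582043680)) (.cons (.rf (nat_lit 970) (nat_lit 493858305440581979200)) (.cons (.rf (nat_lit 1002) (nat_lit 493858305440582043680)) (.cons (.rf (nat_lit 1013) (nat_lit 493858305440582043680)) (.cons (.rf (nat_lit 1002) (nat_lit 302469822845850585120)) .nil)))))),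
 (.br (nat_lit 2) (nat_lit 0) (.cons (.rf (nat_lit 970) (nat_lit 493858305440582043680)) (.cons (.rf (nat_lit 970) (nat_lit 493858305440581979200)) (.cons (.rf (nat_lit 1002) (nat_lit 493858305440582043680)) (.cons (.rf (nat_lit 1013) (nat_lit 493858305440582043680)) (.cons (.rf (nat_lit 1014) (nat_lit 493858305440582043680)) (.cons (.rf (nat_lit 1014) (nat_lit 458117738797769787424)) .nil))))))),
 (.br (nat_lit 2) (nat_lit 0) (.cons (.rf (nat_lit 970) (nat_lit 493858305440582043680)) (.cons (.rf (nat_lit 970) (nat_lit 493858305440581979200)) (.cons (.rf (nat_lit 1015) (nat_lit 493858305440582043680)) (.cons (.rf (nat_lit 1015) (nat_lit 493858303243706271776)) (.cons (.br (nat_lit 2) (nat_lit 0) (.cons (.rf (nat_lit 970) (nat_lit 493858305440582043680)) (.cons (.rf (nat_lit 970) (nat_lit 493858305440581979200)) (.cons (.rf (nat_lit 1015) (nat_lit 493858305440582043680)) (.cons (.rf (nat_lit 1015) (nat_lit 493858303243706271776)) (.cons (.rf (nat_lit 1015) (nat_lit 302469822845850585120)) (.cons (.rf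 (nat_lit 1015) (nat_lit 302469821747412699168)) .nil))))))) (.cons (.rf (nat_lit 1015) (nat_lit 302469822845850585120)) (.cons (.rf (nat_lit 1015) (nat_lit 302469821747412699168)) .nil)))))))),
 (.br (nat_lit 2) (nat_lit 0) (.cons (.rf (nat_lit 970) (nat_lit 493858305440581979200)) (.cons (.br (nat_lit 12) (nat_lit 0) (.cons (.br (nat_lit 3) (nat_lit 0) (.cons (.ev (nat_lit 81446552287756731300609098121730) (nat_lit 3)) .nil)) (.cons (.kr (nat_lit 79228162514264337593543950336) (nat_lit 20282409603651670423947251286016) (nat_lit 12) (nat_lit 0)) .nil))) .nil))),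
 (.br (nat_lit 2) (nat_lit 0) (.cons (.rf (nat_lit 970) (nat_lit 493858305440581979200)) (.cons (.rf (nat_lit 1017) (nat_lit 493858305440582043680)) (.cons (.rf (nat_lit 1017) (nat_lit 458117738797769787424)) .nil)))),
 (.br (nat_lit 3) (nat_lit 0) (.cons (.rf (nat_lit 970) (nat_lit 493858305440581979200)) (.cons (.rf (nat_lit 1018) (nat_lit 493858305440582043680)) (.cons (.br (nat_lit 3) (nat_lit 0) (.cons (.rf (nat_lit 970) (nat_lit 493858305440581979200)) (.cons (.rf (nat_lit 1018) (nat_lit 493858305440582043680)) .nil))) .nil)))),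
 (.br (nat_lit 3) (nat_lit 0) (.cons (.rf (nat_lit 970) (nat_lit 493858305440581979200)) (.cons (.rf (nat_lit 1018) (nat_lit 493858305440582043680)) (.cons (.rf (nat_lit 1019) (nat_lit 493858305440582043680)) (.cons (.rf (nat_lit 1019) (nat_lit 458117738797769787424)) .nil))))),
 (.br (nat_lit 2) (nat_lit 0) (.cons (.rf (nat_lit 970) (nat_lit 493858305440581979200)) (.cons (.rf (nat_lit 1020) (nat_lit 493858305440582043680)) (.cons (.rf (nat_lit 1020) (nat_lit 493858303243706271776)) (.cons (.br (nat_lit 2) (nat_lit 0) (.cons (.rf (nat_lit 970) (nat_lit 493858305440581979200)) (.cons (.rf (nat_lit 1020) (nat_lit 493858305440582043680)) (.cons (.rf (nat_lit 1020) (nat_lit 493858303243706271776)) .nil)))) .nil))))),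
 (.br (nat_lit 2) (nat_lit 0) (.cons (.rf (nat_lit 970) (nat_lit 493858305440581979200)) (.cons (.rf (nat_lit 636) (nat_lit 12309783217216)) (.cons (.br (nat_lit 13) (nat_lit 0) (.cons (.ev (nat_lit 20282409613133513335398176194561) (nat_lit 2)) (.cons (.ev (nat_lit 316913892076409582997899313670) (nat_lit 3)) .nil))) .nil)))),
 (.br (nat_lit 3) (nat_lit 0) (.cons (.rf (nat_lit 970) (nat_lit 493858305440581979200)) (.cons (.rf (nat_lit 1022) (nat_lit 493858303243706240032)) (.cons (.br (nat_lit 3) (nat_lit 0) (.cons (.rf (nat_lit 970) (nat_lit 493858305440581979200)) (.cons (.rf (nat_lit 1022) (nat_lit 493858303243706240032)) .nil))) .nil)))),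
 (.br (nat_lit 2) (nat_lit 0) (.cons (.rf (nat_lit 970) (nat_lit 493858305440581979200)) (.cons (.rf (nat_lit 1022) (nat_lit 493858305440582043680)) (.cons (.rf (nat_lit 1023) (nat_lit 493858305440582043680)) (.cons (.br (nat_lit 2) (nat_lit 0) (.cons (.rf (nat_lit 970) (nat_lit 493858305440581979200)) (.cons (.rf (nat_lit 1022) (nat_lit 493858305440582043680)) (.cons (.rf (nat_lit 1023) (nat_lit 493858305440582043680)) .nil)))) .nil)))))]

theorem c37 : chkAll C T R L37 (nat_lit 995) = true := by decide +kernel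

theorem l37 : (nat_lit 995) + L37.length = (nat_lit 1025) := by decide +kernel

/-- part of the certificates -/
def L38 : List Prf := [(.br (nat_lit 3) (nat_lit 0) (.cons (.rf (nat_lit 970) (nat_lit 493858305440581979200)) (.cons (.rf (nat_lit 636) (nat_lit 12309783184480)) (.cons (.rf (nat_lit 636) (nat_lit 12376355177568)) (.cons (.ev (nat_lit 79228167236702879161050464256) (nat_lit 1)) .nil))))),
 (.br (nat_lit 3) (nat_lit 0) (.cons (.rf (nat_lit 970) (nat_lit 493858305440581979200)) (.cons (.rf (nat_lit 1024) (nat_lit 493858305440582043680)) (.cons (.rf (nat_lit 1025) (nat_lit 493858305440582043680)) (.cons (.br (nat_lit 3) (nat_lit 0) (.cons (.rf (nat_lit 970) (nat_lit 493858305440581979200)) (.cons (.rf (nat_lit 1024) (nat_lit 493858305440582043680)) (.cons (.ev (nat_lit 79228167236702879161050464256) (nat_lit 1)) .nil)))) .nil))))),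
 (.br (nat_lit 3) (nat_lit 0) (.cons (.rf (nat_lit 970) (nat_lit 493858305440581979200)) (.cons (.rf (nat_lit 1024) (nat_lit 493858305440582043680)) (.cons (.rf (nat_lit 1025) (nat_lit 493858305440582043680)) (.cons (.br (nat_lit 3) (nat_lit 0) (.cons (.rf (nat_lit 970) (nat_lit 493858305440581979200)) (.cons (.rf (nat_lit 1024) (nat_lit 493858305440582043680)) (.cons (.ev (nat_lit 79228167236702879161050464256) (nat_lit 1)) .nil)))) .nil))))),
 (.br (nat_lit 3) (nat_lit 0) (.cons (.rf (nat_lit 970) (nat_lit 493858305440581979200)) (.cons (.rf (nat_lit 1024) (nat_lit 493858305440582043680)) (.cons (.rf (nat_lit 1026) (nat_lit 493858305440582043680)) (.cons (.rf (nat_lit 1027) (nat_lit 493858305440582043680)) (.cons (.br (nat_lit 3) (nat_lit 0) (.cons (.rf (nat_lit 970) (nat_lit 493858305440581979200)) (.cons (.rf (nat_lit 1024) (nat_lit 493858305440582043680)) (.cons (.rf (nat_lit 1026) (nat_lit 493858305440582043680)) (.cons (.rf (nat_lit 1027) (nat_lit 493858305440582043680)) .nil))))) .nil)))))),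
 (.br (nat_lit 2) (nat_lit 0) (.cons (.rf (nat_lit 970) (nat_lit 493858305440581979200)) (.cons (.rf (nat_lit 1028) (nat_lit 493858305440582043680)) (.cons (.rf (nat_lit 1028) (nat_lit 493858303243706271776)) (.cons (.rf (nat_lit 1025) (nat_lit 493858305440582011936)) (.cons (.br (nat_lit 2) (nat_lit 0) (.cons (.rf (nat_lit 970) (nat_lit 493858305440581979200)) (.cons (.rf (nat_lit 1028) (nat_lit 493858305440582043680)) (.cons (.rf (nat_lit 1028) (nat_lit 493858303243706271776)) (.cons (.ev (nat_lit 79228167236702879161033752576) (nat_lit 1)) .nil))))) .nil)))))),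
 (.br (nat_lit 3) (nat_lit 0) (.cons (.rf (nat_lit 970) (nat_lit 493858305440581979200)) (.cons (.rf (nat_lit 1028) (nat_lit 493858305440582011936)) (.cons (.rf (nat_lit 1028) (nat_lit 493858303243706240032)) (.cons (.rf (nat_lit 1029) (nat_lit 493858305440582011936)) (.cons (.br (nat_lit 3) (nat_lit 0) (.cons (.rf (nat_lit 970) (nat_lit 493858305440581979200)) (.cons (.rf (nat_lit 1028) (nat_lit 493858305440582011936)) (.cons (.rf (nat_lit 1028) (nat_lit 493858303243706240032)) (.cons (.rf (nat_lit 1029) (nat_lit 493858305440582011936)) .nil))))) .nil)))))),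
 (.br (nat_lit 2) (nat_lit 0) (.cons (.rf (nat_lit 970) (nat_lit 493858305440581979200)) (.cons (.rf (nat_lit 1028) (nat_lit 493858305440582043680)) (.cons (.rf (nat_lit 1028) (nat_lit 493858303243706271776)) (.cons (.rf (nat_lit 1029) (nat_lit 493858305440582043680)) (.cons (.rf (nat_lit 1030) (nat_lit 493858305440582043680)) (.cons (.br (nat_lit 2) (nat_lit 0) (.cons (.rf (nat_lit 970) (nat_lit 493858305440581979200)) (.cons (.rf (nat_lit 1028) (nat_lit 493858305440582043680)) (.cons (.rf (nat_lit 1028) (nat_lit 493858303243706271776)) (.cons (.rf (nat_lit 1029) (nat_lit 493858305440582043680)) (.cons (.rf (nat_lit 1030) (nat_lit 493858305440582043680)) .nil)))))) .nil))))))),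
 (.br (nat_lit 4) (nat_lit 0) (.cons (.rf (nat_lit 1016) (nat_lit 493858305440582042688)) (.cons (.rf (nat_lit 1016) (nat_lit 493858305440582009952)) (.cons (.ev (nat_lit 72339073309606144) (nat_lit 1)) (.cons (.ev (nat_lit 18518801672042447104) (nat_lit 1)) (.cons (.br (nat_lit 2) (nat_lit 0) (.cons (.rf (nat_lit 970) (nat_lit 493858305440581979200)) (.cons (.rf (nat_lit 1020) (nat_lit 493858305440582043680)) (.cons (.rf (nat_lit 1020) (nat_lit 493858303243706271776)) (.cons (.rf (nat_lit 1021) (nat_lit 493858305440582043680)) (.cons (.rf (nat_lit 1021) (nat_lit 458117738797769787424)) .nil)))))) (.cons (.rf (nat_lit 1031) (nat_lit 493858305440582043680)) (.cons (.rf (nat_lit 1031) (nat_lit 458117738797769787424)) .nil)))))))),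
 (.br (nat_lit 2) (nat_lit 0) (.cons (.rf (nat_lit 970) (nat_lit 493858305440581979200)) (.cons (.rf (nat_lit 636) (nat_lit 13409261290560)) (.cons (.br (nat_lit 3) (nat_lit 0) (.cons (.br (nat_lit 3) (nat_lit 0) (.cons (.ev (nat_lit 20282409613096620410200744198145) (nat_lit 2)) .nil)) (.cons (.ev (nat_lit 20282413244596373676065307034115) (nat_lit 2)) .nil))) .nil)))),
 (.br (nat_lit 3) (nat_lit 0) (.cons (.rf (nat_lit 970) (nat_lit 493858305440581979200)) (.cons (.rf (nat_lit 1033) (nat_lit 493858303243706240032)) (.cons (.br (nat_lit 3) (nat_lit 0) (.cons (.rf (nat_lit 970) (nat_lit 493858305440581979200)) (.cons (.rf (nat_lit 1033) (nat_lit 493858303243706240032)) .nil))) .nil)))),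
 (.br (nat_lit 3) (nat_lit 0) (.cons (.ev (nat_lit 20440865942847298830326403563521) (nat_lit 2)) (.cons (.ev (nat_lit 20361637766166007100614121619456) (nat_lit 1)) .nil))),
 (.br (nat_lit 2) (nat_lit 0) (.cons (.rf (nat_lit 970) (nat_lit 493858305440581979200)) (.cons (.br (nat_lit 13) (nat_lit 0) (.cons (.ev (nat_lit 20361637766184453563212837748736) (nat_lit 1)) (.cons (.kr (nat_lit 1208925891672223212634113) (nat_lit 20282409603670117168020960903168) (nat_lit 0) (nat_lit 1)) .nil))) (.cons (.br (nat_lit 3) (nat_lit 0) (.cons (.br (nat_lit 3) (nat_lit 0) (.cons (.ev (nat_lit 20361637766166007100614121619456) (nat_lit 1)) .nil)) (.cons (.rf (nat_lit 1035) (nat_lit 493858305440582043680)) .nil))) .nil)))),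
 (.br (nat_lit 3) (nat_lit 0) (.cons (.rf (nat_lit 970) (nat_lit 493858305440581979200)) (.cons (.rf (nat_lit 1036) (nat_lit 493858303243706240032)) (.cons (.rf (nat_lit 1035) (nat_lit 493858303243706240032)) .nil)))),
 (.br (nat_lit 4) (nat_lit 0) (.cons (.rf (nat_lit 1016) (nat_lit 493858305440582042688)) (.cons (.rf (nat_lit 1016) (nat_lit 493858305440582009952)) (.cons (.br (nat_lit 2) (nat_lit 0) (.cons (.rf (nat_lit 970) (nat_lit 493858305440581979200)) (.cons (.rf (nat_lit 1033) (nat_lit 493858305440582043680)) (.cons (.rf (nat_lit 1034) (nat_lit 493858305440582043680)) (.cons (.br (nat_lit 2) (nat_lit 0) (.cons (.rf (nat_lit 970) (nat_lit 493858305440581979200)) (.cons (.rf (nat_lit 1033) (nat_lit 493858305440582043680)) (.cons (.rf (nat_lit 1034) (nat_lit 493858305440582043680)) .nil)))) .nil))))) (.cons (.ev (nat_lit 79229376180969518239383027713) (nat_lit 1)) (.cons (.br (nat_lit 2) (nat_lit 0) (.cons (.rf (nat_lit 970) (nat_lit 493858305440581979200)) (.cons (.rf (nat_lit 1036) (nat_lit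 493858305440582043680)) (.cons (.rf (nat_lit 1037) (nat_lit 493858305440582043680)) (.cons (.br (nat_lit 3) (nat_lit 0) (.cons (.rf (nat_lit 970) (nat_lit 493858305440581979200)) (.cons (.rf (nat_lit 1036) (nat_lit 493858303243706240032)) (.cons (.rf (nat_lit 1035) (nat_lit 493858305440582043680)) .nil)))) .nil))))) .nil)))))),
 (.br (nat_lit 3) (nat_lit 0) (.cons (.rf (nat_lit 970) (nat_lit 493858305440581979200)) (.cons (.rf (nat_lit 1016) (nat_lit 493858305440582009952)) (.cons (.rf (nat_lit 1038) (nat_lit 493858305440582043680)) (.cons (.br (nat_lit 3) (nat_lit 0) (.cons (.rf (nat_lit 970) (nat_lit 493858305440581979200)) (.cons (.ev (nat_lit 79229376162522492690696765696) (nat_lit 1)) (.cons (.rf (nat_lit 1038) (nat_lit 493858305440582043680)) (.cons (.rf (nat_lit 1032) (nat_lit 302469822845850551392)) .nil))))) (.cons (.br (nat_lit 3) (nat_lit 0) (.cons (.rf (nat_lit 970) (nat_lit 493858305440581979200)) (.cons (.rf (nat_lit 1016) (nat_lit 493858305440582009952)) (.cons (.rf (nat_lit 1038) (nat_lit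 493858305440582043680)) (.cons (.rf (nat_lit 1032) (nat_lit 302469822845850551392)) .nil))))) .nil)))))),
 (.br (nat_lit 3) (nat_lit 0) (.cons (.rf (nat_lit 970) (nat_lit 493858305440581979200)) (.cons (.ev (nat_lit 79229376162522492690696765696) (nat_lit 1)) (.cons (.rf (nat_lit 1038) (nat_lit 493858305440582043680)) (.cons (.rf (nat_lit 1039) (nat_lit 493858305440582043680)) (.cons (.br (nat_lit 3) (nat_lit 0) (.cons (.rf (nat_lit 970) (nat_lit 493858305440581979200)) (.cons (.ev (nat_lit 79229376162522492690696765696) (nat_lit 1)) (.cons (.rf (nat_lit 1038) (nat_lit 493858305440582043680)) (.cons (.rf (nat_lit 1032) (nat_lit 302469822845850551392)) .nil))))) .nil)))))),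
 (.br (nat_lit 3) (nat_lit 0) (.cons (.rf (nat_lit 970) (nat_lit 493858305440581979200)) (.cons (.rf (nat_lit 1016) (nat_lit 493858305440582009952)) (.cons (.rf (nat_lit 1038) (nat_lit 493858305440582043680)) (.cons (.rf (nat_lit 1039) (nat_lit 493858305440582043680)) (.cons (.rf (nat_lit 1040) (nat_lit 493858305440582043680)) (.cons (.br (nat_lit 3) (nat_lit 0) (.cons (.rf (nat_lit 970) (nat_lit 493858305440581979200)) (.cons (.rf (nat_lit 1016) (nat_lit 493858305440582009952)) (.cons (.rf (nat_lit 1038) (nat_lit 493858305440582043680)) (.cons (.rf (nat_lit 1039) (nat_lit 493858305440582043680)) (.cons (.rf (nat_lit 1040) (nat_lit 493858305440582043680)) .nil)))))) .nil))))))),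
 (.br (nat_lit 2) (nat_lit 0) (.cons (.rf (nat_lit 970) (nat_lit 493858305440581979200)) (.cons (.rf (nat_lit 1016) (nat_lit 493858305440582042688)) (.cons (.rf (nat_lit 1041) (nat_lit 493858305440582043680)) (.cons (.rf (nat_lit 1041) (nat_lit 493858303243706271776)) (.cons (.br (nat_lit 2) (nat_lit 0) (.cons (.rf (nat_lit 970) (nat_lit 493858305440581979200)) (.cons (.ev (nat_lit 79229376162522492690696765696) (nat_lit 1)) (.cons (.rf (nat_lit 1041) (nat_lit 493858305440582043680)) (.cons (.rf (nat_lit 1041) (nat_lit 493858303243706271776)) (.cons (.rf (nat_lit 1032) (nat_lit 302469822845850584128)) .nil)))))) (.cons (.br (nat_lit 2) (nat_lit 0) (.cons (.rf (nat_lit 970) (nat_lit 493858305440581979200)) (.cons (.rf (nat_lit 1016) (nat_lit 493858305440582042688)) (.cons (.rf (nat_lit 1041) (nat_lit 493858305440582043680)) (.cons (.rf (nat_lit 1041) (nat_lit 493858303243706271776)) (.cons (.rf (nat_lit 1032) (nat_lit 302469822845850584128)) .nil)))))) .nil))))))),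
 (.br (nat_lit 3) (nat_lit 0) (.cons (.rf (nat_lit 970) (nat_lit 493858305440581979200)) (.cons (.rf (nat_lit 1016) (nat_lit 493858305440582009952)) (.cons (.rf (nat_lit 1041) (nat_lit 493858305440582011936)) (.cons (.rf (nat_lit 1041) (nat_lit 493858303243706240032)) (.cons (.rf (nat_lit 1042) (nat_lit 493858305440582011936)) (.cons (.br (nat_lit 3) (nat_lit 0) (.cons (.rf (nat_lit 970) (nat_lit 493858305440581979200)) (.cons (.rf (nat_lit 1016) (nat_lit 493858305440582009952)) (.cons (.rf (nat_lit 1041) (nat_lit 493858305440582011936)) (.cons (.rf (nat_lit 1041) (nat_lit 493858303243706240032)) (.cons (.rf (nat_lit 1042) (nat_lit 493858305440582011936)) .nil)))))) .nil))))))),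
 (.br (nat_lit 2) (nat_lit 0) (.cons (.rf (nat_lit 970) (nat_lit 493858305440581979200)) (.cons (.rf (nat_lit 1016) (nat_lit 493858305440582042688)) (.cons (.rf (nat_lit 1041) (nat_lit 493858305440582043680)) (.cons (.rf (nat_lit 1041) (nat_lit 493858303243706271776)) (.cons (.rf (nat_lit 1042) (nat_lit 493858305440582043680)) (.cons (.rf (nat_lit 1043) (nat_lit 493858305440582043680)) (.cons (.br (nat_lit 2) (nat_lit 0) (.cons (.rf (nat_lit 970) (nat_lit 493858305440581979200)) (.cons (.rf (nat_lit 1016) (nat_lit 493858305440582042688)) (.cons (.rf (nat_lit 1041) (nat_lit 493858305440582043680)) (.cons (.rf (nat_lit 1041) (nat_lit 493858303243706271776)) (.cons (.rf (nat_lit 1042) (nat_lit 493858305440582043680)) (.cons (.rf (nat_lit 1043) (nat_lit 493858305440582043680)) .nil))))))) .nil)))))))),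
 (.br (nat_lit 1) (nat_lit 0) (.cons (.rf (nat_lit 970) (nat_lit 493858305440582043680)) (.cons (.rf (nat_lit 970) (nat_lit 493858305440582011936)) (.cons (.rf (nat_lit 1016) (nat_lit 493858305440582043680)) (.cons (.rf (nat_lit 1032) (nat_lit 493858305440582043680)) (.cons (.rf (nat_lit 1044) (nat_lit 493858305440582043680)) (.cons (.rf (nat_lit 1044) (nat_lit 458117738797769787424)) .nil))))))),
 (.br (nat_lit 2) (nat_lit 0) (.cons (.rf (nat_lit 970) (nat_lit 493858305440582043680)) (.cons (.rf (nat_lit 970) (nat_lit 493858305440581979200)) (.cons (.rf (nat_lit 1016) (nat_lit 493858305440582042688)) (.cons (.rf (nat_lit 1045) (nat_lit 493858305440582042688)) (.cons (.br (nat_lit 1) (nat_lit 0) (.cons (.rf (nat_lit 970) (nat_lit 493858305440582011936)) (.cons (.rf (nat_lit 1016) (nat_lit 493858305440582043680)) (.cons (.rf (nat_lit 1045) (nat_lit 493858305440582043680)) (.cons (.br (nat_lit 4) (nat_lit 0) (.cons (.rf (nat_lit 1016) (nat_lit 493858305440582009952)) (.cons (.rf (nat_lit 642) (nat_lit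 13580892211232)) (.cons (.rf (nat_lit 642) (nat_lit 13586260920352)) .nil)))) (.cons (.br (nat_lit 4) (nat_lit 0) (.cons (.rf (nat_lit 1016) (nat_lit 493858305440582009952)) (.cons (.br (nat_lit 3) (nat_lit 0) (.cons (.ev (nat_lit 4740813226947649798401) (nat_lit 1)) (.cons (.ev (nat_lit 79231803458967589711599698435) (nat_lit 2)) (.cons (.ev (nat_lit 20282413244596373676065307099395) (nat_lit 2)) .nil)))) (.cons (.rf (nat_lit 636) (nat_lit 12315151926336)) (.cons (.rf (nat_lit 636) (nat_lit 12314111739936)) .nil))))) .nil)))))) (.cons (.rf (nat_lit 1045) (nat_lit 302469822845850584128)) .nil))))))),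
 (.br (nat_lit 2) (nat_lit 0) (.cons (.rf (nat_lit 970) (nat_lit 493858305440581979200)) (.cons (.rf (nat_lit 1016) (nat_lit 493858305440582042688)) (.cons (.rf (nat_lit 1045) (nat_lit 493858305440582042688)) (.cons (.rf (nat_lit 1046) (nat_lit 493858305440582042688)) (.cons (.rf (nat_lit 1046) (nat_lit 493858305440582043680)) (.cons (.rf (nat_lit 1046) (nat_lit 458117738797769787424)) .nil))))))),
 (.br (nat_lit 2) (nat_lit 0) (.cons (.rf (nat_lit 970) (nat_lit 493858305440581979200)) (.cons (.rf (nat_lit 1016) (nat_lit 493858305440582042688)) (.cons (.rf (nat_lit 1045) (nat_lit 493858305440582042688)) (.cons (.rf (nat_lit 1046) (nat_lit 230988689560226072608)) (.cons (.br (nat_lit 3) (nat_lit 0) (.cons (.rf (nat_lit 1016) (nat_lit 493858305440582009952)) (.cons (.rf (nat_lit 1047) (nat_lit 493858305440582011936)) (.cons (.rf (nat_lit 1047) (nat_lit 458117736600893951040)) (.cons (.rf (nat_lit 1047) (nat_lit 302469822845850553376)) (.cons (.rf (nat_lit 1047) (nat_lit 230988688461788122176)) .nil))))))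 .nil))))))]

theorem c38 : chkAll C T R L38 (nat_lit 1025) = true := by decide +kernel

theorem l38 : (nat_lit 1025) + L38.length = (nat_lit 1049) := by decide +kernel

/-- part of the certificates -/
def L39 : List Prf := [(.br (nat_lit 2) (nat_lit 0) (.cons (.rf (nat_lit 970) (nat_lit 493858305440581979200)) (.cons (.rf (nat_lit 1016) (nat_lit 493858305440582042688)) (.cons (.rf (nat_lit 1045) (nat_lit 493858305440582042688)) (.cons (.rf (nat_lit 1048) (nat_lit 493858305440582043680)) (.cons (.rf (nat_lit 1046) (nat_lit 230988689560226072608)) (.cons (.br (nat_lit 2) (nat_lit 0) (.cons (.rf (nat_lit 970) (nat_lit 493858305440581979200)) (.cons (.rf (nat_lit 1016) (nat_lit 493858305440582042688)) (.cons (.rf (nat_lit 1045) (nat_lit 493858305440582042688)) (.cons (.rf (nat_lit 1048) (nat_lit 493858305440582043680)) (.cons (.rf (nat_lit 1045) (nat_lit 302469822845850584128)) .nil)))))) .nil))))))),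
 (.br (nat_lit 2) (nat_lit 0) (.cons (.rf (nat_lit 970) (nat_lit 493858305440581979200)) (.cons (.rf (nat_lit 1016) (nat_lit 493858305440582042688)) (.cons (.rf (nat_lit 1047) (nat_lit 493858305440582043680)) (.cons (.rf (nat_lit 1049) (nat_lit 493858305440582043680)) (.cons (.br (nat_lit 3) (nat_lit 0) (.cons (.rf (nat_lit 970) (nat_lit 493858305440581979200)) (.cons (.rf (nat_lit 1016) (nat_lit 493858305440582009952)) (.cons (.rf (nat_lit 1047) (nat_lit 493858305440582011936)) (.cons (.rf (nat_lit 1049) (nat_lit 493858305440582011936)) (.cons (.rf (nat_lit 1047) (nat_lit 302469822845850553376)) (.cons (.rf (nat_lit 1049) (nat_lit 302469822845850553376)) .nil))))))) (.cons (.rf (nat_lit 1047) (nat_lit 302469822845850585120)) (.cons (.rf (nat_lit 1049) (nat_lit 302469822845850585120)) .nil)))))))),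
 (.br (nat_lit 1) (nat_lit 0) (.cons (.rf (nat_lit 970) (nat_lit 493858305440582043680)) (.cons (.rf (nat_lit 970) (nat_lit 493858305440582011936)) (.cons (.rf (nat_lit 1016) (nat_lit 493858305440582043680)) (.cons (.rf (nat_lit 1045) (nat_lit 493858305440582043680)) (.cons (.rf (nat_lit 1050) (nat_lit 493858305440582043680)) (.cons (.rf (nat_lit 1050) (nat_lit 458117738797769787424)) .nil))))))),
 (.br (nat_lit 1) (nat_lit 0) (.cons (.rf (nat_lit 970) (nat_lit 493858305440582043680)) (.cons (.rf (nat_lit 970) (nat_lit 493858305440582011936)) (.cons (.rf (nat_lit 1016) (nat_lit 493858305440582043680)) (.cons (.rf (nat_lit 1045) (nat_lit 493858305440582043680)) (.cons (.rf (nat_lit 1051) (nat_lit 493858305440582043680)) (.cons (.rf (nat_lit 1045) (nat_lit 302469822845850585120)) .nil))))))),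
 (.br (nat_lit 1) (nat_lit 0) (.cons (.rf (nat_lit 970) (nat_lit 493858305440582043680)) (.cons (.rf (nat_lit 970) (nat_lit 493858305440582011936)) (.cons (.rf (nat_lit 1016) (nat_lit 493858305440582043680)) (.cons (.rf (nat_lit 1045) (nat_lit 493858305440582043680)) (.cons (.rf (nat_lit 1051) (nat_lit 493858305440582043680)) (.cons (.rf (nat_lit 1052) (nat_lit 493858305440582043680)) (.cons (.rf (nat_lit 1052) (nat_lit 458117738797769787424)) .nil)))))))),
 (.br (nat_lit 12) (nat_lit 1) (.cons (.br (nat_lit 13) (nat_lit 1) (.cons (.br (nat_lit 1) (nat_lit 0) (.cons (.rf (nat_lit 970) (nat_lit 493858305440582043680)) (.cons (.rf (nat_lit 970) (nat_lit 493858305440582011936)) (.cons (.rf (nat_lit 1016) (nat_lit 493858305440582043680)) (.cons (.rf (nat_lit 1053) (nat_lit 493858305440582043680)) (.cons (.rf (nat_lit 1053) (nat_lit 493858303243706271776)) (.cons (.br (nat_lit 1) (nat_lit 0) (.cons (.rf (nat_lit 970) (nat_lit 493858305440582043680)) (.cons (.rf (nat_lit 970) (nat_lit 493858305440582011936))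 (.cons (.rf (nat_lit 1016) (nat_lit 493858305440582043680)) (.cons (.rf (nat_lit 1053) (nat_lit 493858305440582043680)) (.cons (.rf (nat_lit 1053) (nat_lit 493858303243706271776)) (.cons (.rf (nat_lit 1053) (nat_lit 302469822845850585120)) (.cons (.rf (nat_lit 1053) (nat_lit 302469821747412699168)) .nil)))))))) (.cons (.rf (nat_lit 1053) (nat_lit 302469822845850585120)) (.cons (.rf (nat_lit 1053) (nat_lit 302469821747412699168)) .nil))))))))) .nil)) .nil)),
 (.br (nat_lit 10) (nat_lit 0) (.cons (.br (nat_lit 10) (nat_lit 0) (.cons (.br (nat_lit 10) (nat_lit 0) (.cons (.br (nat_lit 7) (nat_lit 0) (.cons (.rf (nat_lit 1054) (nat_lit 493858305440582043680)) (.cons (.rf (nat_lit 1054) (nat_lit 492741412732994160672)) (.cons (.rf (nat_lit 1054) (nat_lit 455883953382594021408)) .nil)))) .nil)) .nil)) .nil)),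
 (.br (nat_lit 7) (nat_lit 1) (.cons (.br (nat_lit 8) (nat_lit 1) (.cons (.rf (nat_lit 676) (nat_lit 4468049550505)) .nil)) (.cons (.br (nat_lit 8) (nat_lit 1) (.cons (.rf (nat_lit 676) (nat_lit 4468048502953)) (.cons (.br (nat_lit 9) (nat_lit 1) (.cons (.rf (nat_lit 676) (nat_lit 9043091563618)) (.cons (.br (nat_lit 0) (nat_lit 1) (.cons (.kr (nat_lit 1099511628032) (nat_lit 281474993487872) (nat_lit 1) (nat_lit 0)) .nil)) .nil))) .nil))) .nil))),
 (.br (nat_lit 9) (nat_lit 0) (.cons (.rf (nat_lit 1055) (nat_lit 11584701642934304)) (.cons (.br (nat_lit 9) (nat_lit 0) (.cons (.rf (nat_lit 1055) (nat_lit 11584701642934304)) (.cons (.br (nat_lit 9) (nat_lit 0) (.cons (.rf (nat_lit 1055) (nat_lit 11584701642934304)) (.cons (.rf (nat_lit 1056) (nat_lit 470979981842596)) .nil))) .nil))) .nil))),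
 (.br (nat_lit 8) (nat_lit 0) (.cons (.ev (nat_lit 309485028268371721217704193) (nat_lit 1)) .nil)),
 (.br (nat_lit 11) (nat_lit 0) (.cons (.br (nat_lit 12) (nat_lit 0) (.cons (.ev (nat_lit 40566058389399304292305748754948) (nat_lit 3)) .nil)) (.cons (.ev (nat_lit 79537652246452447011202400513) (nat_lit 1)) (.cons (.rf (nat_lit 1058) (nat_lit 493858305440582043680)) .nil)))),
 (.br (nat_lit 6) (nat_lit 0) (.cons (.ev (nat_lit 20282719088680010570688018513921) (nat_lit 1)) .nil)),
 (.br (nat_lit 6) (nat_lit 0) (.cons (.ev (nat_lit 309489750706912184900845825) (nat_lit 1)) (.cons (.br (nat_lit 8) (nat_lit 0) (.cons (.ev (nat_lit 309485028268371721217704193) (nat_lit 1)) .nil)) (.cons (.rf (nat_lit 1058) (nat_lit 493858305440582043680)) .nil)))),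
 (.br (nat_lit 13) (nat_lit 0) (.cons (.rf (nat_lit 1059) (nat_lit 493858305440582043680)) (.cons (.br (nat_lit 13) (nat_lit 0) (.cons (.rf (nat_lit 1059) (nat_lit 493858305440582043680)) (.cons (.rf (nat_lit 1058) (nat_lit 493858232943681570848)) (.cons (.rf (nat_lit 1060) (nat_lit 493858305440582043680)) .nil)))) (.cons (.rf (nat_lit 1061) (nat_lit 493858305440582043680)) (.cons (.br (nat_lit 13) (nat_lit 0) (.cons (.rf (nat_lit 1059) (nat_lit 493858305440582043680)) (.cons (.rf (nat_lit 1060) (nat_lit 493858305440582043680)) (.cons (.rf (nat_lit 1061) (nat_lit 493858305440582043680)) .nil)))) .nil))))),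
 (.br (nat_lit 13) (nat_lit 0) (.cons (.br (nat_lit 12) (nat_lit 0) (.cons (.ev (nat_lit 20282719088680010570688035291393) (nat_lit 1)) .nil)) (.cons (.br (nat_lit 11) (nat_lit 0) (.cons (.ev (nat_lit 20282719088680010570688035291393) (nat_lit 1)) .nil)) .nil))),
 (.br (nat_lit 2) (nat_lit 0) (.cons (.rf (nat_lit 1063) (nat_lit 493858305440582043680)) (.cons (.br (nat_lit 13) (nat_lit 0) (.cons (.ev (nat_lit 309489750706912184917622785) (nat_lit 1)) (.cons (.br (nat_lit 8) (nat_lit 0) (.cons (.ev (nat_lit 309489750706912184917622785) (nat_lit 1)) .nil)) .nil))) (.cons (.rf (nat_lit 1062) (nat_lit 493858305440582043680)) (.cons (.rf (nat_lit 1062) (nat_lit 458117666300869314592)) .nil))))),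
 (.br (nat_lit 2) (nat_lit 0) (.cons (.br (nat_lit 13) (nat_lit 0) (.cons (.br (nat_lit 12) (nat_lit 0) (.cons (.ev (nat_lit 121695696794561107785665560577028) (nat_lit 3)) .nil)) (.cons (.br (nat_lit 11) (nat_lit 0) (.cons (.ev (nat_lit 121695696794561107785665560577028) (nat_lit 3)) .nil)) .nil))) (.cons (.br (nat_lit 6) (nat_lit 0) (.cons (.rf (nat_lit 1064) (nat_lit 493858305440582043680)) (.cons (.ev (nat_lit 309489750706912184917622785) (nat_lit 1)) .nil))) (.cons (.rf (nat_lit 1062) (nat_lit 493858305440582043680)) (.cons (.rf (nat_lit 1062) (nat_lit 458117666300869314592)) .nil))))),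
 (.br (nat_lit 13) (nat_lit 0) (.cons (.rf (nat_lit 1061) (nat_lit 458117666300869314592)) (.cons (.rf (nat_lit 1065) (nat_lit 458117666300869314592)) (.cons (.rf (nat_lit 1064) (nat_lit 458117666300869314592)) (.cons (.br (nat_lit 13) (nat_lit 0) (.cons (.rf (nat_lit 1061) (nat_lit 458117666300869314592)) (.cons (.rf (nat_lit 1065) (nat_lit 458117666300869314592)) (.cons (.rf (nat_lit 1064) (nat_lit 458117666300869314592)) .nil)))) .nil))))),
 (.br (nat_lit 12) (nat_lit 0) (.cons (.rf (nat_lit 1062) (nat_lit 493858305440582043680)) (.cons (.rf (nat_lit 1064) (nat_lit 493858305440582043680)) (.cons (.rf (nat_lit 1065) (nat_lit 493858305440582043680)) (.cons (.rf (nat_lit 1066) (nat_lit 493858305440582043680)) (.cons (.br (nat_lit 12) (nat_lit 0) (.cons (.rf (nat_lit 1062) (nat_lit 493858305440582043680)) (.cons (.rf (nat_lit 1064) (nat_lit 493858305440582043680)) (.cons (.rf (nat_lit 1065) (nat_lit 493858305440582043680)) (.cons (.rf (nat_lit 1066) (nat_lit 493858305440582043680)) .nil))))) .nil)))))),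
 (.br (nat_lit 6) (nat_lit 0) (.cons (.ev (nat_lit 310698676526525714580701185) (nat_lit 1)) (.cons (.br (nat_lit 13) (nat_lit 0) (.cons (.ev (nat_lit 309489750706912184917622785) (nat_lit 1)) (.cons (.ev (nat_lit 79538856449977637464264736768) (nat_lit 1)) .nil))) (.cons (.br (nat_lit 12) (nat_lit 0) (.cons (.ev (nat_lit 309489750706912184917622785) (nat_lit 1)) (.cons (.br (nat_lit 8) (nat_lit 0) (.cons (.ev (nat_lit 309489750706912184917622785) (nat_lit 1)) .nil)) .nil))) .nil)))),
 (.br (nat_lit 2) (nat_lit 0) (.cons (.ev (nat_lit 310698676526525714580701185) (nat_lit 1)) (.cons (.rf (nat_lit 1068) (nat_lit 310290315902138256385)) (.cons (.br (nat_lit 12) (nat_lit 0) (.cons (.ev (nat_lit 309489750706912184900845825) (nat_lit 1)) (.cons (.br (nat_lit 8) (nat_lit 0) (.cons (.ev (nat_lit 309489750706912184900845825) (nat_lit 1)) .nil)) .nil))) .nil)))),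
 (.br (nat_lit 8) (nat_lit 0) (.cons (.rf (nat_lit 1068) (nat_lit 493858305440582043680)) (.cons (.rf (nat_lit 1069) (nat_lit 493858305440582043680)) (.cons (.br (nat_lit 2) (nat_lit 0) (.cons (.br (nat_lit 12) (nat_lit 0) (.cons (.ev (nat_lit 20362256750408234149723993473283) (nat_lit 2)) .nil)) (.cons (.rf (nat_lit 1068) (nat_lit 310290315902138256385)) (.cons (.ev (nat_lit 20282719088680010570688035291393) (nat_lit 1)) .nil)))) .nil)))),
 (.br (nat_lit 11) (nat_lit 0) (.cons (.br (nat_lit 13) (nat_lit 0) (.cons (.ev (nat_lit 309489750706912184917557248) (nat_lit 1)) (.cons (.br (nat_lit 8) (nat_lit 0) (.cons (.ev (nat_lit 309489750706912184917557248) (nat_lit 1)) .nil)) .nil))) (.cons (.ev (nat_lit 79537647524158021735595180288) (nat_lit 1)) (.cons (.br (nat_lit 8) (nat_lit 0) (.cons (.br (nat_lit 8) (nat_lit 0) (.cons (.ev (nat_lit 121695696775671353623810828272640) (nat_lit 3)) .nil)) (.cons (.br (nat_lit 8) (nat_lit 0) (.cons (.ev (nat_lit 121695696775671353623810828272640) (nat_lit 3)) .nil))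 .nil))) .nil)))),
 (.br (nat_lit 8) (nat_lit 0) (.cons (.ev (nat_lit 309489750706912184917557248) (nat_lit 1)) (.cons (.br (nat_lit 11) (nat_lit 0) (.cons (.ev (nat_lit 79538861172272062739872022528) (nat_lit 1)) .nil)) (.cons (.br (nat_lit 11) (nat_lit 0) (.cons (.ev (nat_lit 121695696785116518935114379821568) (nat_lit 3)) .nil)) .nil)))),
 (.br (nat_lit 12) (nat_lit 0) (.cons (.ev (nat_lit 20361947251175756107713326612736) (nat_lit 1)) .nil)),
 (.br (nat_lit 6) (nat_lit 0) (.cons (.rf (nat_lit 1073) (nat_lit 493858305440582043680)) (.cons (.br (nat_lit 11) (nat_lit 0) (.cons (.ev (nat_lit 79537652246452447011185688576) (nat_lit 1)) .nil)) (.cons (.rf (nat_lit 1072) (nat_lit 493858305440582043680)) .nil)))),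
 (.br (nat_lit 6) (nat_lit 0) (.cons (.br (nat_lit 12) (nat_lit 0) (.cons (.ev (nat_lit 79538861172272062739872022528) (nat_lit 1)) .nil)) (.cons (.ev (nat_lit 79538856449977637464264736768) (nat_lit 1)) (.cons (.rf (nat_lit 1072) (nat_lit 493858305440582043680)) .nil)))),
 (.br (nat_lit 13) (nat_lit 0) (.cons (.rf (nat_lit 1072) (nat_lit 493858305440582043680)) (.cons (.rf (nat_lit 1074) (nat_lit 493858305440582043680)) (.cons (.rf (nat_lit 1075) (nat_lit 493858305440582043680)) (.cons (.br (nat_lit 13) (nat_lit 0) (.cons (.rf (nat_lit 1072) (nat_lit 493858305440582043680)) (.cons (.rf (nat_lit 1074) (nat_lit 493858305440582043680)) (.cons (.rf (nat_lit 1075) (nat_lit 493858305440582043680)) .nil)))) .nil))))),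
 (.br (nat_lit 8) (nat_lit 0) (.cons (.ev (nat_lit 309489750706912184917557248) (nat_lit 1)) (.cons (.rf (nat_lit 1060) (nat_lit 452353058783203788832)) (.cons (.br (nat_lit 11) (nat_lit 0) (.cons (.ev (nat_lit 40644666339892660168747837816835) (nat_lit 2)) .nil)) .nil)))),
 (.br (nat_lit 6) (nat_lit 0) (.cons (.rf (nat_lit 1073) (nat_lit 458117668497745086496)) (.cons (.rf (nat_lit 1060) (nat_lit 452353058783203788832)) (.cons (.br (nat_lit 11) (nat_lit 0) (.cons (.ev (nat_lit 121695696785116518935114379690498) (nat_lit 3)) .nil)) .nil)))),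
 (.br (nat_lit 12) (nat_lit 0) (.cons (.rf (nat_lit 1077) (nat_lit 493858305440582043680)) (.cons (.rf (nat_lit 1078) (nat_lit 493858305440582043680)) (.cons (.br (nat_lit 6) (nat_lit 0) (.cons (.ev (nat_lit 40644666349337537249675204100099) (nat_lit 2)) .nil)) .nil)))),
 (.br (nat_lit 12) (nat_lit 0) (.cons (.rf (nat_lit 1077) (nat_lit 493858305440582043680)) (.cons (.rf (nat_lit 1078) (nat_lit 493858305440582043680)) (.cons (.rf (nat_lit 1079) (nat_lit 493858305440582043680)) (.cons (.br (nat_lit 12) (nat_lit 0) (.cons (.rf (nat_lit 1077) (nat_lit 493858305440582043680)) (.cons (.rf (nat_lit 1078) (nat_lit 493858305440582043680)) (.cons (.rf (nat_lit 1079) (nat_lit 493858305440582043680)) .nil)))) .nil)))))]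

theorem c39 : chkAll C T R L39 (nat_lit 1049) = true := by decide +kernel

theorem l39 : (nat_lit 1049) + L39.length = (nat_lit 1081) := by decide +kernel

/-- part of the certificates -/
def L40 : List Prf := [(.br (nat_lit 2) (nat_lit 0) (.cons (.rf (nat_lit 1080) (nat_lit 493858305440582043680)) (.cons (.br (nat_lit 13) (nat_lit 0) (.cons (.kr (nat_lit 4722366483969156841729) (nat_lit 20282409603651670705422228127744) (nat_lit 0) (nat_lit 3)) (.cons (.kr (nat_lit 1213648258156192369476098) (nat_lit 40564819207303341410844456255488) (nat_lit 0) (nat_lit 3)) .nil))) (.cons (.rf (nat_lit 1080) (nat_lit 230986506996392495136)) (.cons (.br (nat_lit 12) (nat_lit 0) (.cons (.br (nat_lit 11) (nat_lit 0) (.cons (.ev (nat_lit 20361947251175756107713343389696) (nat_lit 1)) .nil)) (.cons (.br (nat_lit 8) (nat_lit 0) (.cons (.ev (nat_lit 20361947251175756107713343389696) (nat_lit 1)) .nil)) .nil))) .nil))))),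
 (.br (nat_lit 12) (nat_lit 0) (.cons (.rf (nat_lit 1080) (nat_lit 230986506996392495136)) (.cons (.br (nat_lit 2) (nat_lit 0) (.cons (.ev (nat_lit 309489750706912184917557248) (nat_lit 1)) (.cons (.rf (nat_lit 1080) (nat_lit 230986506996392495136)) (.cons (.rf (nat_lit 1063) (nat_lit 309385240701678225440)) .nil)))) (.cons (.br (nat_lit 2) (nat_lit 0) (.cons (.ev (nat_lit 309489750706912184917557248) (nat_lit 1)) (.cons (.rf (nat_lit 1080) (nat_lit 230986506996392495136)) (.cons (.ev (nat_lit 20282719088680010570688035291393) (nat_lit 1)) .nil)))) (.cons (.rf (nat_lit 1081) (nat_lit 230986506996392495136)) .nil))))),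
 (.br (nat_lit 2) (nat_lit 0) (.cons (.rf (nat_lit 1063) (nat_lit 452353058783203788832)) (.cons (.rf (nat_lit 1080) (nat_lit 493858305440582043680)) (.cons (.rf (nat_lit 1081) (nat_lit 235348168503043655681)) (.cons (.rf (nat_lit 1080) (nat_lit 230986506996392495136)) .nil))))),
 (.br (nat_lit 3) (nat_lit 0) (.cons (.kr (nat_lit 1) (nat_lit 65536) (nat_lit 0) (nat_lit 1)) (.cons (.rf (nat_lit 1067) (nat_lit 493858305440582043680)) (.cons (.br (nat_lit 8) (nat_lit 0) (.cons (.rf (nat_lit 1068) (nat_lit 493858305440582043680)) (.cons (.rf (nat_lit 1069) (nat_lit 493858305440582043680)) (.cons (.rf (nat_lit 1070) (nat_lit 493858305440582043680)) (.cons (.br (nat_lit 8) (nat_lit 0) (.cons (.rf (nat_lit 1068) (nat_lit 493858305440582043680)) (.cons (.rf (nat_lit 1069) (nat_lit 493858305440582043680)) (.cons (.rf (nat_lit 1070) (nat_lit 493858305440582043680)) .nil)))) .nil))))) (.cons (.br (nat_lit 2) (nat_lit 0) (.cons (.rf (nat_lit 1071) (nat_lit 493858305440582043680)) (.cons (.rf (nat_lit 1076) (nat_lit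 493858305440582043680)) (.cons (.rf (nat_lit 1067) (nat_lit 488993331456888637441)) (.cons (.rf (nat_lit 1071) (nat_lit 302467711680479594528)) (.cons (.rf (nat_lit 1076) (nat_lit 302467711680479594528)) .nil)))))) (.cons (.br (nat_lit 8) (nat_lit 0) (.cons (.rf (nat_lit 1080) (nat_lit 493858305440582043680)) (.cons (.rf (nat_lit 1081) (nat_lit 493858305440582043680)) (.cons (.rf (nat_lit 1082) (nat_lit 493858305440582043680)) (.cons (.br (nat_lit 8) (nat_lit 0) (.cons (.rf (nat_lit 1080) (nat_lit 493858305440582043680)) (.cons (.rf (nat_lit 1081) (nat_lit 493858305440582043680)) (.cons (.rf (nat_lit 1082) (nat_lit 493858305440582043680)) (.cons (.rf (nat_lit 1083) (nat_lit 493858305440582043680)) .nil))))) (.cons (.rf (nat_lit 1083) (nat_lit 493858305440582043680)) .nil)))))) .nil)))))),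
 (.br (nat_lit 3) (nat_lit 0) (.cons (.kr (nat_lit 1) (nat_lit 65536) (nat_lit 0) (nat_lit 1)) (.cons (.rf (nat_lit 1084) (nat_lit 493858305440582043680)) (.cons (.rf (nat_lit 1084) (nat_lit 458117666300869314592)) (.cons (.br (nat_lit 2) (nat_lit 0) (.cons (.kr (nat_lit 1) (nat_lit 65536) (nat_lit 0) (nat_lit 1)) (.cons (.rf (nat_lit 1084) (nat_lit 488993331456888605697)) (.cons (.rf (nat_lit 1084) (nat_lit 449791749602168343553)) (.cons (.rf (nat_lit 1084) (nat_lit 310290315902138256385)) (.cons (.rf (nat_lit 1084) (nat_lit 235348168503043623937)) .nil)))))) (.cons (.rf (nat_lit 1084) (nat_lit 302467711680479594528)) (.cons (.rf (nat_lit 1084) (nat_lit 230986506996392495136)) .nil))))))),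
 (.br (nat_lit 11) (nat_lit 0) (.cons (.ev (nat_lit 79537647524158021735578337536) (nat_lit 1)) (.cons (.br (nat_lit 12) (nat_lit 0) (.cons (.ev (nat_lit 20361948460101575721243006533633) (nat_lit 1)) .nil)) .nil))),
 (.br (nat_lit 11) (nat_lit 0) (.cons (.ev (nat_lit 309489750706912184917557248) (nat_lit 1)) (.cons (.ev (nat_lit 79538856449977637464264737025) (nat_lit 1)) (.cons (.br (nat_lit 8) (nat_lit 0) (.cons (.ev (nat_lit 121695696775671353623810828272640) (nat_lit 3)) .nil)) .nil)))),
 (.br (nat_lit 13) (nat_lit 0) (.cons (.rf (nat_lit 1087) (nat_lit 493858305440582043680)) (.cons (.rf (nat_lit 1087) (nat_lit 488993331456888605697)) (.cons (.kr (nat_lit 158456325065494222028056559616) (nat_lit 40564820420951527508343275913216) (nat_lit 5) (nat_lit 0)) .nil)))),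
 (.br (nat_lit 11) (nat_lit 0) (.cons (.ev (nat_lit 309489750706912184917557248) (nat_lit 1)) (.cons (.ev (nat_lit 79537647524158021735578337536) (nat_lit 1)) (.cons (.br (nat_lit 8) (nat_lit 0) (.cons (.ev (nat_lit 283956211554443532274329598035982) (nat_lit 4)) .nil)) .nil)))),
 (.br (nat_lit 4) (nat_lit 0) (.cons (.br (nat_lit 12) (nat_lit 0) (.cons (.ev (nat_lit 20282719093402304995963625799936) (nat_lit 1)) .nil)) (.cons (.rf (nat_lit 1089) (nat_lit 493858305440582043680)) (.cons (.br (nat_lit 11) (nat_lit 0) (.cons (.ev (nat_lit 283956211554443532274329598035456) (nat_lit 4)) .nil)) .nil)))),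
 (.br (nat_lit 4) (nat_lit 0) (.cons (.ev (nat_lit 309489750706912184917557505) (nat_lit 1)) (.cons (.ev (nat_lit 79537647524158021735578337536) (nat_lit 1)) (.cons (.br (nat_lit 8) (nat_lit 0) (.cons (.ev (nat_lit 283956211554443532274329598035456) (nat_lit 4)) .nil)) .nil)))),
 (.br (nat_lit 3) (nat_lit 0) (.cons (.rf (nat_lit 1085) (nat_lit 493858305440582011936)) (.cons (.br (nat_lit 4) (nat_lit 0) (.cons (.ev (nat_lit 310698676526525714580701185) (nat_lit 1)) (.cons (.rf (nat_lit 1086) (nat_lit 493858305440582043680)) (.cons (.rf (nat_lit 1086) (nat_lit 458117666300869314592)) .nil)))) (.cons (.rf (nat_lit 1085) (nat_lit 488993331456888605697)) (.cons (.br (nat_lit 13) (nat_lit 0) (.cons (.rf (nat_lit 1087) (nat_lit 493858305440582043680)) (.cons (.rf (nat_lit 1088) (nat_lit 493858305440582043680)) (.cons (.rf (nat_lit 1087) (nat_lit 488993331456888605697)) (.cons (.rf (nat_lit 1088) (nat_lit 488993331456888605697)) .nil))))) (.cons (.br (nat_lit 12) (nat_lit 0) (.cons (.rf (nat_lit 1089) (nat_lit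 493858305440582043680)) (.cons (.rf (nat_lit 1090) (nat_lit 493858305440582043680)) (.cons (.rf (nat_lit 1091) (nat_lit 493858305440582043680)) (.cons (.br (nat_lit 12) (nat_lit 0) (.cons (.rf (nat_lit 1089) (nat_lit 493858305440582043680)) (.cons (.rf (nat_lit 1090) (nat_lit 493858305440582043680)) (.cons (.rf (nat_lit 1091) (nat_lit 493858305440582043680)) .nil)))) .nil))))) .nil)))))),
 (.br (nat_lit 11) (nat_lit 0) (.cons (.ev (nat_lit 20282719088680010570688018513921) (nat_lit 1)) .nil)),
 (.br (nat_lit 8) (nat_lit 0) (.cons (.br (nat_lit 12) (nat_lit 0) (.cons (.ev (nat_lit 20361948460101575721243006533888) (nat_lit 1)) .nil)) (.cons (.br (nat_lit 11) (nat_lit 0) (.cons (.ev (nat_lit 794758737795833977331953828354) (nat_lit 4)) .nil)) (.cons (.rf (nat_lit 1093) (nat_lit 493858305440582043680)) .nil)))),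
 (.br (nat_lit 12) (nat_lit 0) (.cons (.kr (nat_lit 20282409603651670705422227996672) (nat_lit 79228162532711081667253501952) (nat_lit 6) (nat_lit 0)) .nil)),
 (.br (nat_lit 8) (nat_lit 0) (.cons (.kr (nat_lit 20282409603651670705422227996672) (nat_lit 79228162532711081667253501952) (nat_lit 6) (nat_lit 0)) .nil)),
 (.br (nat_lit 3) (nat_lit 0) (.cons (.rf (nat_lit 1085) (nat_lit 493858305440582011936)) (.cons (.rf (nat_lit 1092) (nat_lit 493858305440582043680)) (.cons (.rf (nat_lit 1092) (nat_lit 458117666300869314592)) (.cons (.rf (nat_lit 1085) (nat_lit 488993331456888605697)) (.cons (.br (nat_lit 4) (nat_lit 0) (.cons (.rf (nat_lit 1094) (nat_lit 493858305440582043680)) (.cons (.rf (nat_lit 1094) (nat_lit 458117666300869314592)) (.cons (.br (nat_lit 6) (nat_lit 0) (.cons (.rf (nat_lit 1095) (nat_lit 493858305440582043680)) (.cons (.rf (nat_lit 1096) (nat_lit 493858305440582043680)) (.cons (.br (nat_lit 8) (nat_lit 0) (.cons (.ev (nat_lit 20838244709680490823794211160068) (nat_lit 3)) .nil)) .nil))))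 (.cons (.rf (nat_lit 1094) (nat_lit 302467711680479562784)) (.cons (.rf (nat_lit 1094) (nat_lit 230986506996392463392)) .nil)))))) .nil)))))),
 (.br (nat_lit 3) (nat_lit 0) (.cons (.rf (nat_lit 1085) (nat_lit 493858305440582011936)) (.cons (.rf (nat_lit 1092) (nat_lit 493858305440582043680)) (.cons (.rf (nat_lit 1092) (nat_lit 458117666300869314592)) (.cons (.rf (nat_lit 1085) (nat_lit 488993331456888605697)) (.cons (.rf (nat_lit 1097) (nat_lit 493858305440582043680)) (.cons (.rf (nat_lit 1097) (nat_lit 458117666300869314592)) .nil))))))),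
 (.br (nat_lit 8) (nat_lit 0) (.cons (.ev (nat_lit 309485028268371721217638401) (nat_lit 1)) (.cons (.br (nat_lit 11) (nat_lit 0) (.cons (.ev (nat_lit 79847146737900810020413637379) (nat_lit 2)) .nil)) .nil))),
 (.br (nat_lit 3) (nat_lit 0) (.cons (.rf (nat_lit 1085) (nat_lit 493858305440582011936)) (.cons (.rf (nat_lit 1098) (nat_lit 493858305440582011936)) (.cons (.rf (nat_lit 1085) (nat_lit 488993331456888605697)) (.cons (.rf (nat_lit 1098) (nat_lit 488993331456888605697)) (.cons (.br (nat_lit 8) (nat_lit 0) (.cons (.rf (nat_lit 1099) (nat_lit 15395881028740548640)) (.cons (.rf (nat_lit 1099) (nat_lit 7069710590887954433)) (.cons (.br (nat_lit 8) (nat_lit 0) (.cons (.rf (nat_lit 1099) (nat_lit 15395881028740548640)) (.cons (.rf (nat_lit 1099) (nat_lit 7069710590887954433)) .nil))) .nil)))) .nil)))))),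
 (.br (nat_lit 8) (nat_lit 0) (.cons (.br (nat_lit 12) (nat_lit 0) (.cons (.ev (nat_lit 20361947251175756107713326612736) (nat_lit 1)) .nil)) (.cons (.br (nat_lit 11) (nat_lit 0) (.cons (.ev (nat_lit 20441484903422209119873522466816) (nat_lit 2)) .nil)) (.cons (.rf (nat_lit 1093) (nat_lit 309385240701678225440)) .nil)))),
 (.br (nat_lit 12) (nat_lit 0) (.cons (.ev (nat_lit 20838244690791313122691748593668) (nat_lit 3)) .nil)),
 (.br (nat_lit 3) (nat_lit 0) (.cons (.rf (nat_lit 1085) (nat_lit 493858305440582011936)) (.cons (.rf (nat_lit 1098) (nat_lit 493858305440582011936)) (.cons (.rf (nat_lit 1085) (nat_lit 488993331456888605697)) (.cons (.br (nat_lit 4) (nat_lit 0) (.cons (.rf (nat_lit 1101) (nat_lit 493858305440582043680)) (.cons (.rf (nat_lit 1101) (nat_lit 458117666300869282848)) (.cons (.br (nat_lit 6) (nat_lit 0) (.cons (.rf (nat_lit 1102) (nat_lit 493858305440582043680)) (.cons (.rf (nat_lit 1102) (nat_lit 488993331456888637441)) (.cons (.zr (nat_lit 3640944774468577108557832) (nat_lit 81130257384626325511835052147200)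 (nat_lit 10) (nat_lit 4)) .nil)))) (.cons (.rf (nat_lit 1101) (nat_lit 302467711680479562784)) (.cons (.rf (nat_lit 1101) (nat_lit 230986506996392495136)) .nil)))))) (.cons (.rf (nat_lit 1098) (nat_lit 449791749602168343553)) .nil)))))),
 (.br (nat_lit 2) (nat_lit 0) (.cons (.rf (nat_lit 677) (nat_lit 9144159536130)) (.cons (.rf (nat_lit 1085) (nat_lit 493858305440582043680)) (.cons (.rf (nat_lit 1098) (nat_lit 493858305440582043680)) (.cons (.rf (nat_lit 1085) (nat_lit 488993331456888637441)) (.cons (.rf (nat_lit 1098) (nat_lit 488993331456888637441)) (.cons (.br (nat_lit 3) (nat_lit 0) (.cons (.rf (nat_lit 1085) (nat_lit 493858305440582011936)) (.cons (.rf (nat_lit 1100) (nat_lit 493858305440582043680)) (.cons (.rf (nat_lit 1103) (nat_lit 493858305440582043680)) (.cons (.rf (nat_lit 1085) (nat_lit 488993331456888605697)) (.cons (.rf (nat_lit 1103) (nat_lit 230986506996392495136)) (.cons (.rf (nat_lit 1100) (nat_lit 230986506996392495136)) .nil))))))) .nil))))))),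
 (.br (nat_lit 1) (nat_lit 0) (.cons (.kr (nat_lit 1) (nat_lit 256) (nat_lit 0) (nat_lit 2)) (.cons (.rf (nat_lit 677) (nat_lit 9144159537153)) (.cons (.rf (nat_lit 677) (nat_lit 6945138378753)) (.cons (.br (nat_lit 2) (nat_lit 0) (.cons (.br (nat_lit 2) (nat_lit 0) (.cons (.kr (nat_lit 1) (nat_lit 65536) (nat_lit 0) (nat_lit 1)) (.cons (.rf (nat_lit 677) (nat_lit 9144159536130)) (.cons (.rf (nat_lit 677) (nat_lit 6945138377730)) (.cons (.kr (nat_lit 256) (nat_lit 65536) (nat_lit 1) (nat_lit 0)) (.cons (.rf (nat_lit 677) (nat_lit 6918366135298)) (.cons (.rf (nat_lit 677) (nat_lit 9048738071554)) .nil))))))) (.cons (.rf (nat_lit 1085) (nat_lit 493858305440582043680)) (.cons (.rf (nat_lit 1104) (nat_lit 493858305440582043680)) (.cons (.rf (nat_lit 1104) (nat_lit 458117666300869314592)) (.cons (.rf (nat_lit 1085) (nat_lit 488993331456888637441)) (.cons (.rf (nat_lit 1104) (nat_lit 302467711680479594528)) (.cons (.rf (nat_lit 1104) (nat_lit 230986506996392495136)) .nil)))))))) (.cons (.rf (nat_lit 677)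 (nat_lit 6918366136321)) (.cons (.rf (nat_lit 677) (nat_lit 9048738072577)) .nil))))))),
 (.br (nat_lit 11) (nat_lit 0) (.cons (.br (nat_lit 12) (nat_lit 0) (.cons (.ev (nat_lit 20361638975091826433768302903296) (nat_lit 1)) .nil)) (.cons (.kr (nat_lit 4722366482869645213697) (nat_lit 309485009821345068724781312) (nat_lit 0) (nat_lit 2)) .nil))),
 (.br (nat_lit 13) (nat_lit 0) (.cons (.br (nat_lit 12) (nat_lit 0) (.cons (.zr (nat_lit 1240367335657576372050853888) (nat_lit 158456325065710393714970460417) (nat_lit 5) (nat_lit 1)) .nil)) (.cons (.br (nat_lit 8) (nat_lit 0) (.cons (.zr (nat_lit 1240367335657576372050853888) (nat_lit 158456325065710393714970460417) (nat_lit 5) (nat_lit 1)) .nil)) .nil))),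
 (.br (nat_lit 11) (nat_lit 0) (.cons (.ev (nat_lit 309489750706912184900845825) (nat_lit 1)) (.cons (.rf (nat_lit 193) (nat_lit 15218025167071578144)) (.cons (.kr (nat_lit 1213648258155092857847810) (nat_lit 618970019642691236961190400) (nat_lit 0) (nat_lit 2)) .nil)))),
 (.br (nat_lit 13) (nat_lit 0) (.cons (.ev (nat_lit 20282409603670117168025255804929) (nat_lit 1)) (.cons (.kr (nat_lit 1213648258155092857847810) (nat_lit 618970019642691236961190400) (nat_lit 0) (nat_lit 2)) (.cons (.br (nat_lit 2) (nat_lit 0) (.cons (.ev (nat_lit 20361637780388447344398434500865) (nat_lit 2)) .nil)) .nil))))]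

theorem c40 : chkAll C T R L40 (nat_lit 1081) = true := by decide +kernel

theorem l40 : (nat_lit 1081) + L40.length = (nat_lit 1110) := by decide +kernel

/-- part of the certificates -/
def L41 : List Prf := [(.br (nat_lit 13) (nat_lit 0) (.cons (.rf (nat_lit 1108) (nat_lit 493858305440582043680)) (.cons (.rf (nat_lit 1109) (nat_lit 493858305440582043680)) (.cons (.kr (nat_lit 1213648258155092857847810) (nat_lit 618970019642691236961190400) (nat_lit 0) (nat_lit 2)) (.cons (.br (nat_lit 13) (nat_lit 0) (.cons (.rf (nat_lit 1108) (nat_lit 493858305440582043680)) (.cons (.rf (nat_lit 1109) (nat_lit 493858305440582043680)) (.cons (.kr (nat_lit 1213648258155092857847810) (nat_lit 618970019642691236961190400) (nat_lit 0) (nat_lit 2)) .nil)))) .nil))))),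
 (.br (nat_lit 1) (nat_lit 0) (.cons (.br (nat_lit 13) (nat_lit 0) (.cons (.rf (nat_lit 1106) (nat_lit 493858305440582043680)) (.cons (.kr (nat_lit 4722366482869645213697) (nat_lit 309485009821345068724781312) (nat_lit 0) (nat_lit 2)) (.cons (.br (nat_lit 13) (nat_lit 0) (.cons (.rf (nat_lit 1106) (nat_lit 493858305440582043680)) (.cons (.kr (nat_lit 4722366482869645213697) (nat_lit 309485009821345068724781312) (nat_lit 0) (nat_lit 2)) .nil))) .nil)))) (.cons (.br (nat_lit 12) (nat_lit 0) (.cons (.rf (nat_lit 1107) (nat_lit 493858305440582043680)) (.cons (.br (nat_lit 12) (nat_lit 0) (.cons (.rf (nat_lit 1107) (nat_lit 493858305440582043680)) (.cons (.ev (nat_lit 79229371440084234801501962241) (nat_lit 1)) .nil))) (.cons (.br (nat_lit 12) (nat_lit 0) (.cons (.rf (nat_lit 1107) (nat_lit 493858305440582043680)) (.cons (.ev (nat_lit 79229371440084234801501962241) (nat_lit 1)) .nil))) .nil)))) (.cons (.rf (nat_lit 1110) (nat_lit 493858305440582043680)) (.cons (.br (nat_lit 11) (nat_lit 0) (.cons (.rf (nat_lit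 224) (nat_lit 9668288770981595168)) (.cons (.kr (nat_lit 4722366482869645213697) (nat_lit 309485009821345068724781312) (nat_lit 0) (nat_lit 2)) (.cons (.kr (nat_lit 1213648258155092857847810) (nat_lit 618970019642691236961190400) (nat_lit 0) (nat_lit 2)) (.cons (.br (nat_lit 2) (nat_lit 0) (.cons (.rf (nat_lit 1110) (nat_lit 458117666300869314592)) (.cons (.rf (nat_lit 184) (nat_lit 15427442549744306208)) .nil))) .nil))))) .nil))))),
 (.br (nat_lit 1) (nat_lit 0) (.cons (.br (nat_lit 12) (nat_lit 0) (.cons (.ev (nat_lit 20361637780388447344398467924739) (nat_lit 2)) .nil)) (.cons (.ev (nat_lit 79537652246452447011202465793) (nat_lit 1)) (.cons (.rf (nat_lit 184) (nat_lit 15433072043909810208)) .nil)))),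
 (.br (nat_lit 13) (nat_lit 0) (.cons (.rf (nat_lit 185) (nat_lit 493858305440582043680)) (.cons (.rf (nat_lit 1112) (nat_lit 493858305440582043680)) (.cons (.br (nat_lit 6) (nat_lit 0) (.cons (.ev (nat_lit 4740813509522154848513) (nat_lit 1)) (.cons (.ev (nat_lit 79228162514264619072815628289) (nat_lit 1)) (.cons (.rf (nat_lit 1112) (nat_lit 493858305440582043680)) .nil)))) (.cons (.br (nat_lit 6) (nat_lit 0) (.cons (.ev (nat_lit 79538856449977637464281513985) (nat_lit 1)) (.cons (.ev (nat_lit 79229371440084234801501962241) (nat_lit 1)) (.cons (.rf (nat_lit 1112) (nat_lit 493858305440582043680)) .nil)))) .nil))))),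
 (.br (nat_lit 2) (nat_lit 0) (.cons (.rf (nat_lit 1111) (nat_lit 493858305440582043680)) (.cons (.rf (nat_lit 1111) (nat_lit 458117666300869314592)) (.cons (.rf (nat_lit 1113) (nat_lit 493858305440582043680)) (.cons (.rf (nat_lit 1113) (nat_lit 458117666300869314592)) .nil))))),
 (.br (nat_lit 8) (nat_lit 0) (.cons (.kr (nat_lit 4722438541563194769410) (nat_lit 620178945462304766624268800) (nat_lit 0) (nat_lit 2)) (.cons (.br (nat_lit 11) (nat_lit 0) (.cons (.ev (nat_lit 310693954087985250897494016) (nat_lit 1)) .nil)) (.cons (.ev (nat_lit 4740813509522154848513) (nat_lit 1)) .nil)))),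
 (.br (nat_lit 11) (nat_lit 0) (.cons (.kr (nat_lit 72057594037927937) (nat_lit 309485009821345068724781312) (nat_lit 0) (nat_lit 2)) (.cons (.kr (nat_lit 1213648258155092857847810) (nat_lit 618970019642691236961190400) (nat_lit 0) (nat_lit 2)) .nil))),
 (.br (nat_lit 1) (nat_lit 0) (.cons (.kr (nat_lit 4722438541563194769410) (nat_lit 620178945462304766624268800) (nat_lit 0) (nat_lit 2)) (.cons (.kr (nat_lit 72057594037927937) (nat_lit 309485009821345068724781312) (nat_lit 0) (nat_lit 2)) (.cons (.br (nat_lit 8) (nat_lit 0) (.cons (.ev (nat_lit 20361948460101575721243006468096) (nat_lit 1)) .nil)) .nil)))),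
 (.br (nat_lit 2) (nat_lit 0) (.cons (.rf (nat_lit 1111) (nat_lit 493858305440582043680)) (.cons (.rf (nat_lit 1111) (nat_lit 458117666300869314592)) (.cons (.rf (nat_lit 1114) (nat_lit 493858305440582043680)) (.cons (.br (nat_lit 6) (nat_lit 0) (.cons (.rf (nat_lit 1115) (nat_lit 493858305440582043680)) (.cons (.br (nat_lit 1) (nat_lit 0) (.cons (.ev (nat_lit 309485028268371721234415616) (nat_lit 1)) (.cons (.rf (nat_lit 1116) (nat_lit 493858305440582043680)) (.cons (.rf (nat_lit 1116) (nat_lit 458117666300869314592)) .nil)))) (.cons (.rf (nat_lit 1117) (nat_lit 493858305440582043680)) (.cons (.ev (nat_lit 79228162514264619072815628289) (nat_lit 1)) (.cons (.br (nat_lit 8) (nat_lit 0) (.cons (.rf (nat_lit 1115) (nat_lit 458117666300869314592)) (.cons (.rf (nat_lit 1117) (nat_lit 458117666300869314592)) (.cons (.ev (nat_lit 79228167236703159536498769921) (nat_lit 1)) .nil)))) .nil)))))) .nil))))),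
 (.br (nat_lit 11) (nat_lit 0) (.cons (.ev (nat_lit 18519084246547562753) (nat_lit 1)) (.cons (.ev (nat_lit 4740813508418331541504) (nat_lit 1)) (.cons (.kr (nat_lit 618970019642691236961189888) (nat_lit 1213648258155092857847808) (nat_lit 5) (nat_lit 0)) .nil)))),
 (.br (nat_lit 12) (nat_lit 0) (.cons (.rf (nat_lit 1119) (nat_lit 493858305440582043680)) (.cons (.ev (nat_lit 79228167236703159536498770176) (nat_lit 1)) .nil))),
 (.br (nat_lit 12) (nat_lit 0) (.cons (.br (nat_lit 11) (nat_lit 0) (.cons (.ev (nat_lit 202825335218686165317113925470210) (nat_lit 4)) .nil)) (.cons (.rf (nat_lit 193) (nat_lit 15216899268238477344)) (.cons (.ev (nat_lit 20361637770888301245514247110913) (nat_lit 1)) .nil)))),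
 (.br (nat_lit 2) (nat_lit 0) (.cons (.ev (nat_lit 309489750706912184917557505) (nat_lit 1)) (.cons (.br (nat_lit 11) (nat_lit 0) (.cons (.ev (nat_lit 20282719093402304995963642642688) (nat_lit 1)) .nil)) (.cons (.ev (nat_lit 20282409603670117168025255804929) (nat_lit 1)) .nil)))),
 (.br (nat_lit 2) (nat_lit 0) (.cons (.ev (nat_lit 309489750706912184917557505) (nat_lit 1)) (.cons (.br (nat_lit 8) (nat_lit 0) (.cons (.ev (nat_lit 20282720297605830186416721690880) (nat_lit 1)) .nil)) (.cons (.rf (nat_lit 1121) (nat_lit 493858305440582043680)) .nil)))),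
 (.br (nat_lit 8) (nat_lit 0) (.cons (.ev (nat_lit 79541279079467979580263890945) (nat_lit 2)) (.cons (.br (nat_lit 11) (nat_lit 0) (.cons (.ev (nat_lit 20361637770888301245514263822336) (nat_lit 1)) .nil)) .nil))),
 (.br (nat_lit 11) (nat_lit 0) (.cons (.rf (nat_lit 216) (nat_lit 335771346774624288)) (.cons (.kr (nat_lit 18446744073709551616) (nat_lit 4722366482869645213696) (nat_lit 8) (nat_lit 0)) .nil))),
 (.br (nat_lit 10) (nat_lit 0) (.cons (.rf (nat_lit 184) (nat_lit 14202427132856076320)) (.cons (.br (nat_lit 2) (nat_lit 0) (.cons (.ev (nat_lit 79228162514336395191893688576) (nat_lit 1)) .nil)) .nil))),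
 (.br (nat_lit 1) (nat_lit 0) (.cons (.br (nat_lit 13) (nat_lit 0) (.cons (.rf (nat_lit 1120) (nat_lit 493858305440582043680)) (.cons (.br (nat_lit 13) (nat_lit 0) (.cons (.rf (nat_lit 1120) (nat_lit 493858305440582043680)) (.cons (.ev (nat_lit 79229371440084234801501962496) (nat_lit 1)) .nil))) (.cons (.ev (nat_lit 79229371440084234801501962496) (nat_lit 1)) .nil)))) (.cons (.br (nat_lit 13) (nat_lit 0) (.cons (.rf (nat_lit 1121) (nat_lit 493858305440582043680)) (.cons (.rf (nat_lit 1122) (nat_lit 493858305440582043680)) (.cons (.rf (nat_lit 1123) (nat_lit 493858305440582043680)) (.cons (.br (nat_lit 13) (nat_lit 0) (.cons (.ev (nat_lit 20361637770888301245514247110913) (nat_lit 1)) (.cons (.rf (nat_lit 1122) (nat_lit 493858305440582043680)) (.cons (.rf (nat_lit 1123) (nat_lit 493858305440582043680)) .nil)))) .nil))))) (.cons (.br (nat_lit 11) (nat_lit 0) (.cons (.rf (nat_lit 1124) (nat_lit 493858305440582043680)) (.cons (.rf (nat_lit 1125) (nat_lit 482282366425991200)) (.cons (.br (nat_lit 11) (nat_lit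 0) (.cons (.rf (nat_lit 1124) (nat_lit 493858305440582043680)) (.cons (.kr (nat_lit 4722366482869645213696) (nat_lit 309485009821345068724781056) (nat_lit 9) (nat_lit 0)) .nil))) .nil)))) (.cons (.br (nat_lit 12) (nat_lit 0) (.cons (.rf (nat_lit 224) (nat_lit 9633385873869473824)) (.cons (.ev (nat_lit 79229371440084234801501962496) (nat_lit 1)) (.cons (.br (nat_lit 13) (nat_lit 0) (.cons (.br (nat_lit 8) (nat_lit 0) (.cons (.ev (nat_lit 309489750706912184900845568) (nat_lit 1)) .nil)) (.cons (.ev (nat_lit 20361637770888301245514263822336) (nat_lit 1)) (.cons (.kr (nat_lit 618970019642691236961189888) (nat_lit 1213648258155092857847808) (nat_lit 5) (nat_lit 0)) .nil)))) (.cons (.rf (nat_lit 1126) (nat_lit 15433072043909810208)) .nil))))) .nil))))),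
 (.br (nat_lit 6) (nat_lit 0) (.cons (.br (nat_lit 12) (nat_lit 0) (.cons (.ev (nat_lit 160314477180883619745173210628) (nat_lit 3)) .nil)) (.cons (.br (nat_lit 11) (nat_lit 0) (.cons (.ev (nat_lit 20361637770943858493847219929600) (nat_lit 2)) .nil)) (.cons (.ev (nat_lit 4740813509522138136576) (nat_lit 1)) .nil)))),
 (.br (nat_lit 13) (nat_lit 0) (.cons (.rf (nat_lit 1128) (nat_lit 493858305440582043680)) (.cons (.ev (nat_lit 4740813509522138136576) (nat_lit 1)) (.cons (.br (nat_lit 1) (nat_lit 0) (.cons (.ev (nat_lit 477227108274688066744043570688) (nat_lit 3)) .nil)) .nil)))),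
 (.br (nat_lit 13) (nat_lit 0) (.cons (.br (nat_lit 11) (nat_lit 0) (.cons (.ev (nat_lit 793520788312247976882025923080) (nat_lit 4)) .nil)) (.cons (.br (nat_lit 6) (nat_lit 0) (.cons (.ev (nat_lit 793520788312247976882025923080) (nat_lit 4)) .nil)) .nil))),
 (.br (nat_lit 6) (nat_lit 0) (.cons (.ev (nat_lit 4740813509522138136576) (nat_lit 1)) (.cons (.br (nat_lit 11) (nat_lit 0) (.cons (.ev (nat_lit 79538861172272062739888799745) (nat_lit 1)) .nil)) (.cons (.br (nat_lit 11) (nat_lit 0) (.cons (.ev (nat_lit 795377698370743701730247313410) (nat_lit 4)) .nil)) .nil)))),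
 (.br (nat_lit 2) (nat_lit 0) (.cons (.rf (nat_lit 1127) (nat_lit 493858305440582043680)) (.cons (.br (nat_lit 13) (nat_lit 0) (.cons (.rf (nat_lit 1128) (nat_lit 493858305440582043680)) (.cons (.ev (nat_lit 4740813509522138136576) (nat_lit 1)) (.cons (.rf (nat_lit 1129) (nat_lit 493858305440582043680)) (.cons (.br (nat_lit 13) (nat_lit 0) (.cons (.rf (nat_lit 1128) (nat_lit 493858305440582043680)) (.cons (.ev (nat_lit 4740813509522138136576) (nat_lit 1)) (.cons (.rf (nat_lit 1129) (nat_lit 493858305440582043680)) .nil)))) .nil))))) (.cons (.br (nat_lit 11) (nat_lit 0) (.cons (.rf (nat_lit 1130) (nat_lit 493858305440582043680)) (.cons (.br (nat_lit 11) (nat_lit 0) (.cons (.rf (nat_lit 1130) (nat_lit 493858305440582043680)) (.cons (.ev (nat_lit 309489750706912184900845568) (nat_lit 1)) .nil))) (.cons (.br (nat_lit 11) (nat_lit 0) (.cons (.rf (nat_lit 1130) (nat_lit 493858305440582043680)) (.cons (.ev (nat_lit 309489750706912184900845568) (nat_lit 1)) .nil))) .nil)))) (.cons (.br (nat_lit 11) (nat_lit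 0) (.cons (.rf (nat_lit 1131) (nat_lit 493858305440582043680)) (.cons (.ev (nat_lit 4740813509522138136576) (nat_lit 1)) (.cons (.br (nat_lit 11) (nat_lit 0) (.cons (.rf (nat_lit 1131) (nat_lit 493858305440582043680)) (.cons (.ev (nat_lit 4740813509522138136576) (nat_lit 1)) (.cons (.kr (nat_lit 618970019642691236961189888) (nat_lit 1213648258155092857847808) (nat_lit 5) (nat_lit 0)) .nil)))) (.cons (.br (nat_lit 11) (nat_lit 0) (.cons (.rf (nat_lit 1131) (nat_lit 493858305440582043680)) (.cons (.ev (nat_lit 4740813509522138136576) (nat_lit 1)) (.cons (.kr (nat_lit 618970019642691236961189888) (nat_lit 1213648258155092857847808) (nat_lit 5) (nat_lit 0)) .nil)))) .nil))))) .nil))))),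
 (.br (nat_lit 2) (nat_lit 0) (.cons (.rf (nat_lit 1127) (nat_lit 493858305440582043680)) (.cons (.rf (nat_lit 1132) (nat_lit 493858305440582043680)) (.cons (.br (nat_lit 1) (nat_lit 0) (.cons (.br (nat_lit 8) (nat_lit 0) (.cons (.rf (nat_lit 1125) (nat_lit 475526967186262048)) (.cons (.br (nat_lit 11) (nat_lit 0) (.cons (.ev (nat_lit 121696315774025195211166148986368) (nat_lit 3)) .nil)) .nil))) (.cons (.br (nat_lit 6) (nat_lit 0) (.cons (.ev (nat_lit 18519084246547562753) (nat_lit 1)) (.cons (.ev (nat_lit 79229371440084234801501962496) (nat_lit 1)) .nil))) (.cons (.kr (nat_lit 4722438541563194900482) (nat_lit 620178945462304766657823232) (nat_lit 0) (nat_lit 4)) (.cons (.br (nat_lit 6) (nat_lit 0) (.cons (.ev (nat_lit 79229371440084234801501962496) (nat_lit 1)) (.cons (.br (nat_lit 8) (nat_lit 0) (.cons (.ev (nat_lit 121695077815096443899412735853060) (nat_lit 3)) .nil)) (.cons (.rf (nat_lit 1126) (nat_lit 15216899268238477344)) .nil)))) .nil))))) (.cons (.br (nat_lit 8) (nat_lit 0) (.cons (.br (nat_lit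 6) (nat_lit 0) (.cons (.ev (nat_lit 18519084246547562753) (nat_lit 1)) (.cons (.br (nat_lit 11) (nat_lit 0) (.cons (.ev (nat_lit 79537652246452447011185623296) (nat_lit 1)) .nil)) (.cons (.br (nat_lit 11) (nat_lit 0) (.cons (.ev (nat_lit 20441175418412459832398802255875) (nat_lit 2)) .nil)) .nil)))) (.cons (.br (nat_lit 12) (nat_lit 0) (.cons (.br (nat_lit 11) (nat_lit 0) (.cons (.ev (nat_lit 20361947251175756107713343389696) (nat_lit 1)) .nil)) (.cons (.ev (nat_lit 309489750706912184900845568) (nat_lit 1)) (.cons (.ev (nat_lit 20282409608392555708488938946561) (nat_lit 1)) .nil)))) (.cons (.br (nat_lit 1) (nat_lit 0) (.cons (.br (nat_lit 12) (nat_lit 0) (.cons (.ev (nat_lit 20361638975091826433768302903553) (nat_lit 1)) .nil)) (.cons (.br (nat_lit 6) (nat_lit 0) (.cons (.ev (nat_lit 40644356854882910881273117540355) (nat_lit 2)) .nil)) (.cons (.br (nat_lit 6) (nat_lit 0) (.cons (.ev (nat_lit 79537652246452447011185623296) (nat_lit 1)) .nil)) .nil)))) (.cons (.br (nat_lit 6) (nat_lit 0) (.cons (.br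 (nat_lit 11) (nat_lit 0) (.cons (.ev (nat_lit 121694458854521534175014509872640) (nat_lit 3)) .nil)) (.cons (.br (nat_lit 1) (nat_lit 0) (.cons (.ev (nat_lit 159695507161385044795799504388) (nat_lit 3)) .nil)) (.cons (.ev (nat_lit 20282410812595936783753942138881) (nat_lit 1)) .nil)))) (.cons (.ev (nat_lit 20282409603670117168025255804929) (nat_lit 1)) .nil)))))) .nil))))),
 (.br (nat_lit 2) (nat_lit 0) (.cons (.rf (nat_lit 1127) (nat_lit 493858305440582043680)) (.cons (.rf (nat_lit 1132) (nat_lit 493858305440582043680)) (.cons (.rf (nat_lit 1133) (nat_lit 493858305440582043680)) (.cons (.br (nat_lit 8) (nat_lit 0) (.cons (.br (nat_lit 6) (nat_lit 0) (.cons (.ev (nat_lit 18519084246547562753) (nat_lit 1)) (.cons (.ev (nat_lit 79229371440084234801501962496) (nat_lit 1)) .nil))) (.cons (.br (nat_lit 1) (nat_lit 0) (.cons (.br (nat_lit 11) (nat_lit 0) (.cons (.ev (nat_lit 20361947251175756107713343389696) (nat_lit 1)) .nil)) (.cons (.ev (nat_lit 79229371440084234801501962496) (nat_lit 1)) .nil))) (.cons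 (.br (nat_lit 6) (nat_lit 0) (.cons (.rf (nat_lit 1125) (nat_lit 475526967186262048)) (.cons (.kr (nat_lit 4722438541563194769408) (nat_lit 620178945462304766624268288) (nat_lit 5) (nat_lit 0)) (.cons (.br (nat_lit 1) (nat_lit 0) (.cons (.ev (nat_lit 121695077815096443899412669007360) (nat_lit 3)) .nil)) .nil)))) (.cons (.ev (nat_lit 20282409603670117168025255804929) (nat_lit 1)) .nil))))) .nil))))),
 (.br (nat_lit 2) (nat_lit 0) (.cons (.rf (nat_lit 1127) (nat_lit 493858305440582043680)) (.cons (.rf (nat_lit 1132) (nat_lit 493858305440582043680)) (.cons (.rf (nat_lit 1133) (nat_lit 493858305440582043680)) (.cons (.rf (nat_lit 1134) (nat_lit 493858305440582043680)) (.cons (.br (nat_lit 2) (nat_lit 0) (.cons (.rf (nat_lit 1127) (nat_lit 493858305440582043680)) (.cons (.rf (nat_lit 1132) (nat_lit 493858305440582043680)) (.cons (.rf (nat_lit 1133) (nat_lit 493858305440582043680)) (.cons (.rf (nat_lit 1134) (nat_lit 493858305440582043680)) .nil))))) .nil))))))]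

theorem c41 : chkAll C T R L41 (nat_lit 1110) = true := by decide +kernel

theorem l41 : (nat_lit 1110) + L41.length = (nat_lit 1136) := by decide +kernel

/-- part of the certificates -/
def L42 : List Prf := [(.br (nat_lit 3) (nat_lit 0) (.cons (.kr (nat_lit 1) (nat_lit 256) (nat_lit 0) (nat_lit 2)) (.cons (.rf (nat_lit 1105) (nat_lit 493858305440582042688)) (.cons (.br (nat_lit 2) (nat_lit 0) (.cons (.rf (nat_lit 1111) (nat_lit 493858305440582043680)) (.cons (.rf (nat_lit 1111) (nat_lit 458117666300869314592)) (.cons (.rf (nat_lit 1114) (nat_lit 493858305440582043680)) (.cons (.rf (nat_lit 1118) (nat_lit 493858305440582043680)) (.cons (.rf (nat_lit 1118) (nat_lit 458117666300869314592)) .nil)))))) (.cons (.rf (nat_lit 1135) (nat_lit 493858305440582043680)) (.cons (.rf (nat_lit 1135) (nat_lit 458117666300869314592)) .nil)))))),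
 (.br (nat_lit 11) (nat_lit 0) (.cons (.ev (nat_lit 20361948464824014261706672898048) (nat_lit 1)) .nil)),
 (.br (nat_lit 13) (nat_lit 0) (.cons (.br (nat_lit 13) (nat_lit 0) (.cons (.rf (nat_lit 1137) (nat_lit 493858305440582043680)) (.cons (.kr (nat_lit 4722366482869645213697) (nat_lit 309485009821345068724781312) (nat_lit 0) (nat_lit 2)) (.cons (.ev (nat_lit 79228167236703159536498770176) (nat_lit 1)) .nil)))) (.cons (.br (nat_lit 2) (nat_lit 0) (.cons (.ev (nat_lit 309489750706912184917557505) (nat_lit 1)) (.cons (.rf (nat_lit 214) (nat_lit 15398169146797688864)) (.cons (.rf (nat_lit 1137) (nat_lit 493858305440582043680)) .nil)))) (.cons (.kr (nat_lit 4722366482869645213697) (nat_lit 309485009821345068724781312) (nat_lit 0) (nat_lit 2)) (.cons (.ev (nat_lit 79228167236703159536498770176) (nat_lit 1)) .nil))))),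
 (.br (nat_lit 8) (nat_lit 0) (.cons (.ev (nat_lit 18519084246530851073) (nat_lit 1)) .nil)),
 (.br (nat_lit 1) (nat_lit 0) (.cons (.rf (nat_lit 1138) (nat_lit 493858305440582043680)) (.cons (.br (nat_lit 2) (nat_lit 0) (.cons (.br (nat_lit 8) (nat_lit 0) (.cons (.ev (nat_lit 1111052465130988668538142851086) (nat_lit 4)) (.cons (.br (nat_lit 12) (nat_lit 0) (.cons (.zr (nat_lit 80156617562175119072501432323) (nat_lit 1213648402270289523769856) (nat_lit 10) (nat_lit 3)) .nil)) .nil))) (.cons (.ev (nat_lit 79537647524158021735595180288) (nat_lit 1)) (.cons (.br (nat_lit 12) (nat_lit 0) (.cons (.rf (nat_lit 1139) (nat_lit 493858305440582043680)) (.cons (.ev (nat_lit 20361638975091826433768302903553) (nat_lit 1)) .nil))) .nil)))) (.cons (.br (nat_lit 11) (nat_lit 0) (.cons (.ev (nat_lit 79537647524158021735595180288) (nat_lit 1)) (.cons (.br (nat_lit 13) (nat_lit 0) (.cons (.rf (nat_lit 1139) (nat_lit 492741412732994160672)) (.cons (.br (nat_lit 2) (nat_lit 0) (.cons (.ev (nat_lit 18519084246530851073)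 (nat_lit 1)) .nil)) .nil))) (.cons (.kr (nat_lit 1213648258155092857847810) (nat_lit 618970019642691236961190400) (nat_lit 0) (nat_lit 2)) .nil)))) (.cons (.br (nat_lit 12) (nat_lit 0) (.cons (.rf (nat_lit 1138) (nat_lit 302467711680479594528)) (.cons (.ev (nat_lit 79228167236703159536498770176) (nat_lit 1)) (.cons (.kr (nat_lit 1213648258155092857847810) (nat_lit 618970019642691236961190400) (nat_lit 0) (nat_lit 2)) (.cons (.br (nat_lit 8) (nat_lit 0) (.cons (.ev (nat_lit 40881733099343289290508267160068) (nat_lit 3)) (.cons (.kr (nat_lit 4722366482869645213697) (nat_lit 309485009821345068724781312) (nat_lit 0) (nat_lit 2)) .nil))) .nil))))) .nil))))),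
 (.br (nat_lit 6) (nat_lit 0) (.cons (.br (nat_lit 12) (nat_lit 0) (.cons (.ev (nat_lit 20520716688010012562558638162179) (nat_lit 2)) .nil)) (.cons (.br (nat_lit 8) (nat_lit 0) (.cons (.ev (nat_lit 20520714270158373331101265494275) (nat_lit 2)) .nil)) (.cons (.br (nat_lit 8) (nat_lit 0) (.cons (.ev (nat_lit 20520716688010012562558638162179) (nat_lit 2)) .nil)) .nil)))),
 (.br (nat_lit 1) (nat_lit 0) (.cons (.ev (nat_lit 309489750706912184917557505) (nat_lit 1)) (.cons (.br (nat_lit 8) (nat_lit 0) (.cons (.ev (nat_lit 20361637770943858493847219929859) (nat_lit 2)) .nil)) (.cons (.rf (nat_lit 1141) (nat_lit 493858305440582043680)) .nil)))),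
 (.br (nat_lit 13) (nat_lit 0) (.cons (.rf (nat_lit 1141) (nat_lit 493858305440582043680)) (.cons (.rf (nat_lit 1142) (nat_lit 493858305440582043680)) (.cons (.br (nat_lit 1) (nat_lit 0) (.cons (.ev (nat_lit 20362256750408234149723993342723) (nat_lit 2)) .nil)) .nil)))),
 (.br (nat_lit 11) (nat_lit 0) (.cons (.kr (nat_lit 4722438541563194769410) (nat_lit 620178945462304766624268800) (nat_lit 0) (nat_lit 2)) (.cons (.kr (nat_lit 72057594037927937) (nat_lit 309485009821345068724781312) (nat_lit 0) (nat_lit 2)) (.cons (.br (nat_lit 8) (nat_lit 0) (.cons (.ev (nat_lit 20361947255898194648177009819648) (nat_lit 1)) .nil)) .nil)))),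
 (.br (nat_lit 11) (nat_lit 0) (.cons (.kr (nat_lit 4722438541563194769410) (nat_lit 620178945462304766624268800) (nat_lit 0) (nat_lit 2)) (.cons (.br (nat_lit 6) (nat_lit 0) (.cons (.ev (nat_lit 20361947251175756107713326678016) (nat_lit 1)) .nil)) (.cons (.kr (nat_lit 4722366482869645213697) (nat_lit 309485009821345068724781312) (nat_lit 0) (nat_lit 2)) .nil)))),
 (.br (nat_lit 8) (nat_lit 0) (.cons (.kr (nat_lit 20282409603651670705422227996672) (nat_lit 79228162532711081667253501952) (nat_lit 6) (nat_lit 0)) .nil)),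
 (.br (nat_lit 2) (nat_lit 0) (.cons (.rf (nat_lit 1140) (nat_lit 493858305440582043680)) (.cons (.br (nat_lit 13) (nat_lit 0) (.cons (.rf (nat_lit 1141) (nat_lit 493858305440582043680)) (.cons (.rf (nat_lit 1142) (nat_lit 493858305440582043680)) (.cons (.rf (nat_lit 1143) (nat_lit 493858305440582043680)) (.cons (.br (nat_lit 13) (nat_lit 0) (.cons (.rf (nat_lit 1141) (nat_lit 493858305440582043680)) (.cons (.ev (nat_lit 79538861172272062739871956993) (nat_lit 1)) (.cons (.rf (nat_lit 1143) (nat_lit 493858305440582043680)) .nil)))) .nil))))) (.cons (.rf (nat_lit 1140) (nat_lit 302467711680479594528)) (.cons (.br (nat_lit 1) (nat_lit 0) (.cons (.rf (nat_lit 1144) (nat_lit 493858305440582043680)) (.cons (.rf (nat_lit 1145) (nat_lit 493858305440582043680)) (.cons (.br (nat_lit 6) (nat_lit 0) (.cons (.br (nat_lit 12) (nat_lit 0) (.cons (.ev (nat_lit 159076527696721158542941225990) (nat_lit 3)) .nil)) (.cons (.rf (nat_lit 1146) (nat_lit 493858305440582043680)) (.cons (.br (nat_lit 8) (nat_lit 0) (.cons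 (.ev (nat_lit 20837006769641493673895396639748) (nat_lit 3)) .nil)) .nil)))) (.cons (.rf (nat_lit 1144) (nat_lit 302467711680479594528)) (.cons (.rf (nat_lit 1145) (nat_lit 302467711680479594528)) .nil)))))) .nil))))),
 (.br (nat_lit 11) (nat_lit 0) (.cons (.rf (nat_lit 224) (nat_lit 15433072043909810208)) (.cons (.rf (nat_lit 1126) (nat_lit 9633385873869473824)) (.cons (.br (nat_lit 2) (nat_lit 0) (.cons (.ev (nat_lit 309489750706912184917557505) (nat_lit 1)) (.cons (.br (nat_lit 8) (nat_lit 0) (.cons (.ev (nat_lit 20361637770888301245514247110913) (nat_lit 1)) .nil)) (.cons (.br (nat_lit 8) (nat_lit 0) (.cons (.ev (nat_lit 20361947251175756107713326678016) (nat_lit 1)) .nil)) .nil)))) (.cons (.kr (nat_lit 4722366482869645213697) (nat_lit 309485009821345068724781312) (nat_lit 0) (nat_lit 2)) .nil))))),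
 (.br (nat_lit 8) (nat_lit 0) (.cons (.br (nat_lit 12) (nat_lit 0) (.cons (.ev (nat_lit 79229371440084234801501962241) (nat_lit 1)) .nil)) (.cons (.ev (nat_lit 20282409603670117168025255804929) (nat_lit 1)) .nil))),
 (.br (nat_lit 2) (nat_lit 0) (.cons (.ev (nat_lit 20361638975091826433768302903553) (nat_lit 1)) .nil)),
 (.br (nat_lit 1) (nat_lit 0) (.cons (.rf (nat_lit 1148) (nat_lit 493858305440582043680)) (.cons (.br (nat_lit 8) (nat_lit 0) (.cons (.rf (nat_lit 1149) (nat_lit 493858305440582043680)) (.cons (.br (nat_lit 8) (nat_lit 0) (.cons (.rf (nat_lit 1149) (nat_lit 493858305440582043680)) (.cons (.rf (nat_lit 1150) (nat_lit 493858305440582043680)) .nil))) (.cons (.br (nat_lit 8) (nat_lit 0) (.cons (.ev (nat_lit 20282409603670117168025255804929) (nat_lit 1)) (.cons (.rf (nat_lit 1150) (nat_lit 493858305440582043680)) .nil))) .nil)))) (.cons (.br (nat_lit 13) (nat_lit 0) (.cons (.rf (nat_lit 1148) (nat_lit 230986506996392495136)) (.cons (.br (nat_lit 2) (nat_lit 0) (.cons (.ev (nat_lit 20282409603670117168025255804929)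 (nat_lit 1)) (.cons (.br (nat_lit 8) (nat_lit 0) (.cons (.ev (nat_lit 20361637780388447344398434501379) (nat_lit 2)) .nil)) (.cons (.br (nat_lit 8) (nat_lit 0) (.cons (.ev (nat_lit 309489750706912184900845568) (nat_lit 1)) .nil)) .nil)))) (.cons (.kr (nat_lit 1213648258155092857847810) (nat_lit 618970019642691236961190400) (nat_lit 0) (nat_lit 2)) (.cons (.ev (nat_lit 20361638975091826433768319614976) (nat_lit 1)) .nil))))) (.cons (.br (nat_lit 11) (nat_lit 0) (.cons (.br (nat_lit 8) (nat_lit 0) (.cons (.br (nat_lit 8) (nat_lit 0) .nil) .nil)) (.cons (.kr (nat_lit 4722366482869645213697) (nat_lit 309485009821345068724781312) (nat_lit 0) (nat_lit 2)) (.cons (.kr (nat_lit 1213648258155092857847810) (nat_lit 618970019642691236961190400) (nat_lit 0) (nat_lit 2)) .nil)))) .nil))))),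
 (.br (nat_lit 8) (nat_lit 0) (.cons (.kr (nat_lit 4722438541563194769410) (nat_lit 620178945462304766624268800) (nat_lit 0) (nat_lit 2)) (.cons (.br (nat_lit 11) (nat_lit 0) (.cons (.ev (nat_lit 20361637770888301245514247110913) (nat_lit 1)) .nil)) (.cons (.ev (nat_lit 20282409603670117168025255804929) (nat_lit 1)) .nil)))),
 (.br (nat_lit 2) (nat_lit 0) (.cons (.rf (nat_lit 1151) (nat_lit 493858305440582043680)) (.cons (.br (nat_lit 8) (nat_lit 0) (.cons (.br (nat_lit 12) (nat_lit 0) (.cons (.ev (nat_lit 309489750706912184917557505) (nat_lit 1)) (.cons (.ev (nat_lit 20282720302328124611692328976385) (nat_lit 1)) .nil))) (.cons (.br (nat_lit 12) (nat_lit 0) (.cons (.ev (nat_lit 18519084246530851073) (nat_lit 1)) (.cons (.ev (nat_lit 20282409608392555708488938946561) (nat_lit 1)) .nil))) (.cons (.br (nat_lit 13) (nat_lit 0) (.cons (.ev (nat_lit 20282719088680010570688035356673) (nat_lit 1)) (.cons (.ev (nat_lit 20282410812595936783753942138881) (nat_lit 1)) (.cons (.br (nat_lit 1) (nat_lit 0) (.cons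 (.ev (nat_lit 20362256750408234149723993342723) (nat_lit 2)) .nil)) .nil)))) (.cons (.ev (nat_lit 20282410817318375324217625280513) (nat_lit 1)) .nil))))) (.cons (.br (nat_lit 6) (nat_lit 0) (.cons (.rf (nat_lit 1152) (nat_lit 493858305440582043680)) (.cons (.br (nat_lit 1) (nat_lit 0) (.cons (.ev (nat_lit 18519084246530851073) (nat_lit 1)) (.cons (.zr (nat_lit 4722366485068668470017) (nat_lit 79228162532711081671565377536) (nat_lit 5) (nat_lit 4)) (.cons (.rf (nat_lit 1152) (nat_lit 230986506996392495136)) .nil)))) (.cons (.br (nat_lit 1) (nat_lit 0) (.cons (.kr (nat_lit 4722438541563194769410) (nat_lit 620178945462304766624268800) (nat_lit 0) (nat_lit 2)) (.cons (.kr (nat_lit 72057594037927937) (nat_lit 309485009821345068724781312) (nat_lit 0) (nat_lit 2)) (.cons (.rf (nat_lit 1152) (nat_lit 230986506996392495136)) .nil)))) (.cons (.ev (nat_lit 79229376162522775265185103873) (nat_lit 1)) (.cons (.br (nat_lit 8) (nat_lit 0) (.cons (.br (nat_lit 11) (nat_lit 0) (.cons (.ev (nat_lit 20361637770888301245514247110913)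 (nat_lit 1)) .nil)) (.cons (.br (nat_lit 1) (nat_lit 0) (.cons (.ev (nat_lit 4740813509522138136833) (nat_lit 1)) .nil)) (.cons (.ev (nat_lit 79228167236703159536498769921) (nat_lit 1)) .nil)))) .nil)))))) (.cons (.rf (nat_lit 1151) (nat_lit 230986506996392495136)) .nil))))),
 (.br (nat_lit 3) (nat_lit 0) (.cons (.kr (nat_lit 1) (nat_lit 256) (nat_lit 0) (nat_lit 2)) (.cons (.rf (nat_lit 1105) (nat_lit 493858305440582042688)) (.cons (.rf (nat_lit 1136) (nat_lit 493858305440582043680)) (.cons (.br (nat_lit 2) (nat_lit 0) (.cons (.rf (nat_lit 1140) (nat_lit 493858305440582043680)) (.cons (.rf (nat_lit 1147) (nat_lit 493858305440582043680)) (.cons (.br (nat_lit 2) (nat_lit 0) (.cons (.rf (nat_lit 1140) (nat_lit 493858305440582043680)) (.cons (.rf (nat_lit 1147) (nat_lit 493858305440582043680)) (.cons (.rf (nat_lit 1140) (nat_lit 302467711680479594528)) (.cons (.rf (nat_lit 1147) (nat_lit 302467711680479594528)) .nil))))) (.cons (.rf (nat_lit 1140) (nat_lit 302467711680479594528)) (.cons (.rf (nat_lit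 1147) (nat_lit 302467711680479594528)) .nil)))))) (.cons (.br (nat_lit 2) (nat_lit 0) (.cons (.rf (nat_lit 1151) (nat_lit 493858305440582043680)) (.cons (.rf (nat_lit 1153) (nat_lit 493858305440582043680)) (.cons (.br (nat_lit 2) (nat_lit 0) (.cons (.rf (nat_lit 1151) (nat_lit 493858305440582043680)) (.cons (.rf (nat_lit 1153) (nat_lit 493858305440582043680)) (.cons (.rf (nat_lit 1153) (nat_lit 230986506996392495136)) (.cons (.rf (nat_lit 1151) (nat_lit 230986506996392495136)) .nil))))) (.cons (.rf (nat_lit 1153) (nat_lit 230986506996392495136)) (.cons (.rf (nat_lit 1151) (nat_lit 230986506996392495136)) .nil)))))) .nil)))))),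
 (.br (nat_lit 3) (nat_lit 0) (.cons (.kr (nat_lit 1) (nat_lit 256) (nat_lit 0) (nat_lit 2)) (.cons (.rf (nat_lit 1105) (nat_lit 493858305440582042688)) (.cons (.rf (nat_lit 1136) (nat_lit 493858305440582043680)) (.cons (.rf (nat_lit 1154) (nat_lit 493858305440582043680)) (.cons (.br (nat_lit 3) (nat_lit 0) (.cons (.kr (nat_lit 1) (nat_lit 256) (nat_lit 0) (nat_lit 2)) (.cons (.rf (nat_lit 1105) (nat_lit 493858305440582042688)) (.cons (.rf (nat_lit 1136) (nat_lit 493858305440582043680)) (.cons (.rf (nat_lit 1154) (nat_lit 493858305440582043680)) (.cons (.rf (nat_lit 1136) (nat_lit 302467711680479594528)) .nil)))))) (.cons (.br (nat_lit 3) (nat_lit 0) (.cons (.kr (nat_lit 1) (nat_lit 256) (nat_lit 0) (nat_lit 2)) (.cons (.rf (nat_lit 1105) (nat_lit 493858305440582042688)) (.cons (.rf (nat_lit 1136) (nat_lit 493858305440582043680)) (.cons (.rf (nat_lit 1154) (nat_lit 493858305440582043680)) (.cons (.rf (nat_lit 1136) (nat_lit 302467711680479594528)) .nil)))))) .nil))))))),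
 (.br (nat_lit 3) (nat_lit 0) (.cons (.kr (nat_lit 1) (nat_lit 256) (nat_lit 0) (nat_lit 2)) (.cons (.rf (nat_lit 1105) (nat_lit 493858305440582042688)) (.cons (.rf (nat_lit 1155) (nat_lit 493858305440582043680)) (.cons (.rf (nat_lit 1155) (nat_lit 458117666300869314592)) (.cons (.br (nat_lit 3) (nat_lit 0) (.cons (.kr (nat_lit 1) (nat_lit 256) (nat_lit 0) (nat_lit 2)) (.cons (.rf (nat_lit 1105) (nat_lit 493858305440582042688)) (.cons (.rf (nat_lit 1155) (nat_lit 493858305440582043680)) (.cons (.rf (nat_lit 1155) (nat_lit 458117666300869314592)) (.cons (.rf (nat_lit 1155) (nat_lit 302467711680479594528)) (.cons (.rf (nat_lit 1155) (nat_lit 230986506996392495136)) .nil))))))) (.cons (.rf (nat_lit 1155) (nat_lit 302467711680479594528)) (.cons (.rf (nat_lit 1155) (nat_lit 230986506996392495136)) .nil)))))))),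
 (.br (nat_lit 13) (nat_lit 0) (.cons (.ev (nat_lit 309489750706912184917622785) (nat_lit 1)) (.cons (.br (nat_lit 11) (nat_lit 0) (.cons (.ev (nat_lit 309489750706912184917622785) (nat_lit 1)) .nil)) .nil))),
 (.br (nat_lit 12) (nat_lit 0) (.cons (.rf (nat_lit 1157) (nat_lit 493858305440582043680)) (.cons (.br (nat_lit 13) (nat_lit 0) (.cons (.ev (nat_lit 309489750706912184917622785) (nat_lit 1)) (.cons (.ev (nat_lit 79229371440084234801502028033) (nat_lit 1)) .nil))) (.cons (.br (nat_lit 12) (nat_lit 0) (.cons (.rf (nat_lit 1157) (nat_lit 493858305440582043680)) (.cons (.ev (nat_lit 79229371440084234801502028033) (nat_lit 1)) .nil))) .nil)))),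
 (.br (nat_lit 3) (nat_lit 0) (.cons (.rf (nat_lit 1158) (nat_lit 493858305440582043680)) (.cons (.br (nat_lit 13) (nat_lit 0) (.cons (.ev (nat_lit 309489750706912184917557505) (nat_lit 1)) (.cons (.br (nat_lit 8) (nat_lit 0) (.cons (.ev (nat_lit 309489750706912184917557505) (nat_lit 1)) .nil)) .nil))) (.cons (.br (nat_lit 12) (nat_lit 0) (.cons (.ev (nat_lit 309489750706912184917557505) (nat_lit 1)) (.cons (.br (nat_lit 8) (nat_lit 0) (.cons (.ev (nat_lit 309489750706912184917557505) (nat_lit 1)) .nil)) .nil))) .nil)))),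
 (.br (nat_lit 3) (nat_lit 0) (.cons (.rf (nat_lit 1157) (nat_lit 493858305440582043680)) (.cons (.rf (nat_lit 1159) (nat_lit 493858305440582043680)) (.cons (.br (nat_lit 12) (nat_lit 0) (.cons (.br (nat_lit 11) (nat_lit 0) (.cons (.ev (nat_lit 160314458291129457890541569028) (nat_lit 3)) .nil)) (.cons (.br (nat_lit 8) (nat_lit 0) (.cons (.ev (nat_lit 160314458291129457890541438468) (nat_lit 3)) .nil)) (.cons (.ev (nat_lit 40881733099343289290508267029508) (nat_lit 3)) .nil)))) .nil))))]

theorem c42 : chkAll C T R L42 (nat_lit 1136) = true := by decide +kernel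

theorem l42 : (nat_lit 1136) + L42.length = (nat_lit 1161) := by decide +kernel

/-- part of the certificates -/
def L43 : List Prf := [(.br (nat_lit 3) (nat_lit 0) (.cons (.rf (nat_lit 1158) (nat_lit 493858305440582043680)) (.cons (.rf (nat_lit 1159) (nat_lit 493858305440582043680)) (.cons (.rf (nat_lit 1160) (nat_lit 493858305440582043680)) (.cons (.br (nat_lit 3) (nat_lit 0) (.cons (.rf (nat_lit 1158) (nat_lit 493858305440582043680)) (.cons (.rf (nat_lit 1159) (nat_lit 493858305440582043680)) (.cons (.rf (nat_lit 1160) (nat_lit 493858305440582043680)) .nil)))) .nil))))),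
 (.br (nat_lit 12) (nat_lit 0) (.cons (.ev (nat_lit 20282719088680010570688018514176) (nat_lit 1)) .nil)),
 (.br (nat_lit 12) (nat_lit 0) (.cons (.ev (nat_lit 20282719093402304995963625799681) (nat_lit 1)) .nil)),
 (.br (nat_lit 3) (nat_lit 0) (.cons (.rf (nat_lit 1161) (nat_lit 493858305440582043680)) (.cons (.br (nat_lit 13) (nat_lit 0) (.cons (.rf (nat_lit 1162) (nat_lit 493858305440582043680)) (.cons (.br (nat_lit 4) (nat_lit 0) (.cons (.ev (nat_lit 20282719088680010570688018514176) (nat_lit 1)) .nil)) .nil))) (.cons (.br (nat_lit 4) (nat_lit 0) (.cons (.rf (nat_lit 1163) (nat_lit 493858305440582043680)) (.cons (.ev (nat_lit 121695696785116518935114345873920) (nat_lit 3)) .nil))) .nil)))),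
 (.br (nat_lit 11) (nat_lit 0) (.cons (.ev (nat_lit 309485028268371721234481408) (nat_lit 1)) .nil)),
 (.br (nat_lit 3) (nat_lit 0) (.cons (.rf (nat_lit 1157) (nat_lit 493858305440582043680)) (.cons (.rf (nat_lit 1164) (nat_lit 493858305440582043680)) (.cons (.br (nat_lit 4) (nat_lit 0) (.cons (.br (nat_lit 12) (nat_lit 0) (.cons (.ev (nat_lit 79229371440084234801502028033) (nat_lit 1)) .nil)) (.cons (.rf (nat_lit 1165) (nat_lit 493858305440582043680)) (.cons (.rf (nat_lit 1165) (nat_lit 458117738797769787424)) .nil)))) .nil)))),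
 (.br (nat_lit 3) (nat_lit 0) (.cons (.rf (nat_lit 1161) (nat_lit 493858305440582043680)) (.cons (.rf (nat_lit 1164) (nat_lit 493858305440582043680)) (.cons (.rf (nat_lit 1166) (nat_lit 493858305440582043680)) (.cons (.br (nat_lit 3) (nat_lit 0) (.cons (.rf (nat_lit 1161) (nat_lit 493858305440582043680)) (.cons (.rf (nat_lit 1164) (nat_lit 493858305440582043680)) (.cons (.rf (nat_lit 1166) (nat_lit 493858305440582043680)) .nil)))) .nil))))),
 (.br (nat_lit 8) (nat_lit 0) (.cons (.ev (nat_lit 309485028268371721234415616) (nat_lit 1)) .nil)),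
 (.br (nat_lit 3) (nat_lit 0) (.cons (.rf (nat_lit 1161) (nat_lit 493858305440582043680)) (.cons (.rf (nat_lit 1167) (nat_lit 493858305440582043680)) (.cons (.br (nat_lit 4) (nat_lit 0) (.cons (.br (nat_lit 12) (nat_lit 0) (.cons (.ev (nat_lit 79229371440084234801501962241) (nat_lit 1)) .nil)) (.cons (.rf (nat_lit 1168) (nat_lit 493858305440582043680)) (.cons (.rf (nat_lit 1168) (nat_lit 458117738797769787424)) .nil)))) .nil)))),
 (.br (nat_lit 3) (nat_lit 0) (.cons (.rf (nat_lit 1161) (nat_lit 493858305440582043680)) (.cons (.rf (nat_lit 1167) (nat_lit 493858305440582043680)) (.cons (.rf (nat_lit 1169) (nat_lit 493858305440582043680)) (.cons (.br (nat_lit 3) (nat_lit 0) (.cons (.rf (nat_lit 1161) (nat_lit 493858305440582043680)) (.cons (.rf (nat_lit 1167) (nat_lit 493858305440582043680)) (.cons (.rf (nat_lit 1169) (nat_lit 493858305440582043680)) .nil)))) .nil))))),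
 (.br (nat_lit 3) (nat_lit 0) (.cons (.rf (nat_lit 1161) (nat_lit 493858305440582043680)) (.cons (.rf (nat_lit 1167) (nat_lit 493858305440582043680)) (.cons (.rf (nat_lit 1170) (nat_lit 493858305440582043680)) (.cons (.br (nat_lit 3) (nat_lit 0) (.cons (.rf (nat_lit 1161) (nat_lit 493858305440582043680)) (.cons (.rf (nat_lit 1167) (nat_lit 493858305440582043680)) (.cons (.rf (nat_lit 1170) (nat_lit 493858305440582043680)) .nil)))) .nil))))),
 (.br (nat_lit 8) (nat_lit 0) (.cons (.br (nat_lit 3) (nat_lit 0) (.cons (.br (nat_lit 12) (nat_lit 0) (.cons (.br (nat_lit 12) (nat_lit 0) (.cons (.ev (nat_lit 20282720297605830186416704847873) (nat_lit 1)) .nil)) (.cons (.br (nat_lit 11) (nat_lit 0) (.cons (.ev (nat_lit 20282720297605830186416704847873) (nat_lit 1)) .nil)) .nil))) (.cons (.br (nat_lit 11) (nat_lit 0) (.cons (.br (nat_lit 11) (nat_lit 0) (.cons (.zr (nat_lit 618970019642690154629432320) (nat_lit 20361637766184381789288521596929) (nat_lit 5) (nat_lit 0)) .nil)) (.cons (.br (nat_lit 11) (nat_lit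 0) (.cons (.zr (nat_lit 618970019642690154629432320) (nat_lit 20361637766184381789288521596929) (nat_lit 5) (nat_lit 0)) .nil)) .nil))) (.cons (.ev (nat_lit 20282410817318375324217625346305) (nat_lit 1)) .nil)))) (.cons (.br (nat_lit 11) (nat_lit 0) (.cons (.br (nat_lit 12) (nat_lit 0) (.cons (.br (nat_lit 12) (nat_lit 0) (.cons (.ev (nat_lit 79538861172272062739872022785) (nat_lit 1)) .nil)) (.cons (.br (nat_lit 3) (nat_lit 0) (.cons (.ev (nat_lit 79538861172272062739872022785) (nat_lit 1)) .nil)) .nil))) (.cons (.kr (nat_lit 1213648258155092857848320) (nat_lit 618970019642691236961320960) (nat_lit 1) (nat_lit 0)) (.cons (.ev (nat_lit 20282410817318375324217625346305) (nat_lit 1)) .nil)))) (.cons (.br (nat_lit 12) (nat_lit 0) (.cons (.br (nat_lit 11) (nat_lit 0) (.cons (.br (nat_lit 11) (nat_lit 0) (.cons (.ev (nat_lit 79538861172272062739872022785) (nat_lit 1)) .nil)) (.cons (.br (nat_lit 3) (nat_lit 0) (.cons (.ev (nat_lit 79538861172272062739872022785) (nat_lit 1)) .nil)) .nil))) (.cons (.br (nat_lit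 11) (nat_lit 0) (.cons (.br (nat_lit 3) (nat_lit 0) (.cons (.ev (nat_lit 20282720297605830186416704847873) (nat_lit 1)) .nil)) (.cons (.kr (nat_lit 618970019642691236961189888) (nat_lit 1213648258155092857847808) (nat_lit 5) (nat_lit 0)) .nil))) (.cons (.ev (nat_lit 79229371440084234801501962241) (nat_lit 1)) .nil)))) (.cons (.ev (nat_lit 20282410817318375324217625280513) (nat_lit 1)) .nil))))),
 (.br (nat_lit 11) (nat_lit 0) (.cons (.ev (nat_lit 79537652246452447011185688576) (nat_lit 1)) (.cons (.ev (nat_lit 79537652246452447011185623296) (nat_lit 1)) .nil))),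
 (.br (nat_lit 11) (nat_lit 0) (.cons (.ev (nat_lit 20282719088680010570688018514176) (nat_lit 1)) .nil)),
 (.br (nat_lit 3) (nat_lit 0) (.cons (.rf (nat_lit 1172) (nat_lit 493858305440582043680)) (.cons (.br (nat_lit 4) (nat_lit 0) (.cons (.kr (nat_lit 4722438541563194769410) (nat_lit 620178945462304766624268800) (nat_lit 0) (nat_lit 2)) (.cons (.rf (nat_lit 1173) (nat_lit 493858305440582043680)) (.cons (.rf (nat_lit 1174) (nat_lit 493858305440582043680)) .nil)))) (.cons (.br (nat_lit 4) (nat_lit 0) (.cons (.kr (nat_lit 4722438541563194769410) (nat_lit 620178945462304766624268800) (nat_lit 0) (nat_lit 2)) (.cons (.br (nat_lit 11) (nat_lit 0) (.cons (.ev (nat_lit 20282720297605830186416704847873) (nat_lit 1)) .nil)) .nil))) .nil)))),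
 (.br (nat_lit 3) (nat_lit 0) (.cons (.rf (nat_lit 1172) (nat_lit 493858305440582043680)) (.cons (.rf (nat_lit 1175) (nat_lit 493858305440582043680)) (.cons (.br (nat_lit 11) (nat_lit 0) (.cons (.br (nat_lit 11) (nat_lit 0) (.cons (.ev (nat_lit 79229371440084234801502028033) (nat_lit 1)) .nil)) (.cons (.br (nat_lit 4) (nat_lit 0) (.cons (.ev (nat_lit 79229371440084234801502028033) (nat_lit 1)) .nil)) .nil))) .nil)))),
 (.br (nat_lit 3) (nat_lit 0) (.cons (.rf (nat_lit 1172) (nat_lit 493858305440582043680)) (.cons (.rf (nat_lit 1175) (nat_lit 493858305440582043680)) (.cons (.rf (nat_lit 1176) (nat_lit 493858305440582043680)) (.cons (.br (nat_lit 3) (nat_lit 0) (.cons (.ev (nat_lit 20282410817318375324217625346305) (nat_lit 1)) (.cons (.rf (nat_lit 1175) (nat_lit 493858305440582043680)) (.cons (.rf (nat_lit 1176) (nat_lit 493858305440582043680)) .nil)))) .nil))))),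
 (.br (nat_lit 3) (nat_lit 0) (.cons (.rf (nat_lit 1172) (nat_lit 493858305440582043680)) (.cons (.rf (nat_lit 1177) (nat_lit 493858305440582043680)) (.cons (.br (nat_lit 4) (nat_lit 0) (.cons (.rf (nat_lit 1174) (nat_lit 309385240701678224448)) (.cons (.kr (nat_lit 4722438541563194769410) (nat_lit 620178945462304766624268800) (nat_lit 0) (nat_lit 2)) (.cons (.rf (nat_lit 1173) (nat_lit 493858305440582043680)) .nil)))) .nil)))),
 (.br (nat_lit 3) (nat_lit 0) (.cons (.rf (nat_lit 1172) (nat_lit 493858305440582043680)) (.cons (.rf (nat_lit 1177) (nat_lit 493858305440582043680)) (.cons (.rf (nat_lit 1178) (nat_lit 493858305440582043680)) (.cons (.br (nat_lit 3) (nat_lit 0) (.cons (.rf (nat_lit 1172) (nat_lit 493858305440582043680)) (.cons (.rf (nat_lit 1177) (nat_lit 493858305440582043680)) (.cons (.rf (nat_lit 1178) (nat_lit 493858305440582043680)) .nil)))) .nil))))),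
 (.br (nat_lit 3) (nat_lit 0) (.cons (.rf (nat_lit 1172) (nat_lit 493858305440582043680)) (.cons (.rf (nat_lit 1177) (nat_lit 493858305440582043680)) (.cons (.rf (nat_lit 1179) (nat_lit 493858305440582043680)) (.cons (.br (nat_lit 3) (nat_lit 0) (.cons (.rf (nat_lit 1172) (nat_lit 493858305440582043680)) (.cons (.rf (nat_lit 1177) (nat_lit 493858305440582043680)) (.cons (.rf (nat_lit 1179) (nat_lit 493858305440582043680)) .nil)))) .nil))))),
 (.br (nat_lit 2) (nat_lit 0) (.cons (.rf (nat_lit 677) (nat_lit 9144159536130)) (.cons (.rf (nat_lit 1156) (nat_lit 493858305440582042688)) (.cons (.kr (nat_lit 256) (nat_lit 65536) (nat_lit 1) (nat_lit 0)) (.cons (.br (nat_lit 3) (nat_lit 0) (.cons (.rf (nat_lit 1161) (nat_lit 493858305440582043680)) (.cons (.rf (nat_lit 1167) (nat_lit 493858305440582043680)) (.cons (.rf (nat_lit 1170) (nat_lit 493858305440582043680)) (.cons (.rf (nat_lit 1171) (nat_lit 493858305440582043680)) (.cons (.br (nat_lit 3) (nat_lit 0) (.cons (.rf (nat_lit 1161) (nat_lit 493858305440582043680))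 (.cons (.rf (nat_lit 1167) (nat_lit 493858305440582043680)) (.cons (.rf (nat_lit 1170) (nat_lit 493858305440582043680)) (.cons (.rf (nat_lit 1171) (nat_lit 493858305440582043680)) .nil))))) .nil)))))) (.cons (.kr (nat_lit 1208925891672223212634624) (nat_lit 4722366483969156972544) (nat_lit 1) (nat_lit 0)) (.cons (.br (nat_lit 3) (nat_lit 0) (.cons (.rf (nat_lit 1172) (nat_lit 493858305440582043680)) (.cons (.rf (nat_lit 1177) (nat_lit 493858305440582043680)) (.cons (.rf (nat_lit 1179) (nat_lit 493858305440582043680)) (.cons (.rf (nat_lit 1180) (nat_lit 493858305440582043680)) (.cons (.br (nat_lit 3) (nat_lit 0) (.cons (.rf (nat_lit 1172) (nat_lit 493858305440582043680)) (.cons (.rf (nat_lit 1177) (nat_lit 493858305440582043680)) (.cons (.rf (nat_lit 1179) (nat_lit 493858305440582043680)) (.cons (.rf (nat_lit 1180) (nat_lit 493858305440582043680)) .nil))))) .nil)))))) .nil))))))),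
 (.br (nat_lit 8) (nat_lit 0) (.cons (.ev (nat_lit 4740813509522154848513) (nat_lit 1)) (.cons (.br (nat_lit 11) (nat_lit 0) (.cons (.ev (nat_lit 20361948460101575721243006468353) (nat_lit 1)) .nil)) (.cons (.ev (nat_lit 18519084246547628033) (nat_lit 1)) .nil)))),
 (.br (nat_lit 3) (nat_lit 0) (.cons (.ev (nat_lit 4740813509522154848513) (nat_lit 1)) (.cons (.br (nat_lit 11) (nat_lit 0) (.cons (.ev (nat_lit 20361947265398196631873104576770) (nat_lit 2)) .nil)) (.cons (.ev (nat_lit 18519084246547628033) (nat_lit 1)) .nil)))),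
 (.br (nat_lit 13) (nat_lit 0) (.cons (.rf (nat_lit 1182) (nat_lit 493858305440582043680)) (.cons (.rf (nat_lit 1183) (nat_lit 493858305440582043680)) (.cons (.br (nat_lit 3) (nat_lit 0) (.cons (.ev (nat_lit 121696315755136017510063719842308) (nat_lit 3)) .nil)) .nil)))),
 (.br (nat_lit 6) (nat_lit 0) (.cons (.br (nat_lit 13) (nat_lit 0) (.cons (.rf (nat_lit 1182) (nat_lit 493858305440582043680)) (.cons (.rf (nat_lit 1183) (nat_lit 493858305440582043680)) (.cons (.rf (nat_lit 1184) (nat_lit 493858305440582043680)) (.cons (.br (nat_lit 13) (nat_lit 0) (.cons (.rf (nat_lit 1182) (nat_lit 493858305440582043680)) (.cons (.rf (nat_lit 1183) (nat_lit 493858305440582043680)) (.cons (.rf (nat_lit 1184) (nat_lit 493858305440582043680)) .nil)))) .nil))))) (.cons (.br (nat_lit 12) (nat_lit 0) (.cons (.br (nat_lit 3) (nat_lit 0) (.cons (.ev (nat_lit 475370217105370042998317909508) (nat_lit 3)) (.cons (.ev (nat_lit 158457538787468421738902455300) (nat_lit 3)) .nil))) (.cons (.ev (nat_lit 79229376162522775265185169665)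 (nat_lit 1)) (.cons (.ev (nat_lit 79228167236703159536498769921) (nat_lit 1)) .nil)))) (.cons (.br (nat_lit 8) (nat_lit 0) (.cons (.br (nat_lit 3) (nat_lit 0) (.cons (.ev (nat_lit 18519084246547562753) (nat_lit 1)) (.cons (.br (nat_lit 12) (nat_lit 0) (.cons (.ev (nat_lit 20361947260675902206597497160450) (nat_lit 2)) .nil)) .nil))) (.cons (.ev (nat_lit 79229376162522775265185169665) (nat_lit 1)) (.cons (.br (nat_lit 12) (nat_lit 0) (.cons (.br (nat_lit 3) (nat_lit 0) (.cons (.ev (nat_lit 121696315755136017510063719581188) (nat_lit 3)) .nil)) (.cons (.ev (nat_lit 20282719088680010570688018513921) (nat_lit 1)) .nil))) .nil)))) (.cons (.ev (nat_lit 79228162514264619072815628289) (nat_lit 1)) (.cons (.br (nat_lit 8) (nat_lit 0) (.cons (.br (nat_lit 3) (nat_lit 0) (.cons (.br (nat_lit 12) (nat_lit 0) (.cons (.ev (nat_lit 20520403580945098855372539560450) (nat_lit 2)) .nil)) (.cons (.ev (nat_lit 4740813509522154913793) (nat_lit 1)) (.cons (.br (nat_lit 11) (nat_lit 0) (.cons (.ev (nat_lit 20361947251231313356046282719490)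 (nat_lit 2)) .nil)) .nil)))) (.cons (.br (nat_lit 12) (nat_lit 0) (.cons (.br (nat_lit 3) (nat_lit 0) (.cons (.ev (nat_lit 40565439391045462704950528311300) (nat_lit 3)) .nil)) (.cons (.ev (nat_lit 20282719093402304995963625865473) (nat_lit 1)) .nil))) (.cons (.ev (nat_lit 79228167236703159536498769921) (nat_lit 1)) (.cons (.br (nat_lit 11) (nat_lit 0) (.cons (.br (nat_lit 3) (nat_lit 0) (.cons (.ev (nat_lit 121696315755136017510063719581188) (nat_lit 3)) .nil)) (.cons (.ev (nat_lit 20282719088680010570688018513921) (nat_lit 1)) .nil))) .nil))))) .nil)))))),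
 (.br (nat_lit 12) (nat_lit 0) (.cons (.ev (nat_lit 20282719088680010570688018514176) (nat_lit 1)) .nil)),
 (.br (nat_lit 12) (nat_lit 0) (.cons (.ev (nat_lit 20282719093402304995963625865216) (nat_lit 1)) .nil)),
 (.br (nat_lit 11) (nat_lit 0) (.cons (.ev (nat_lit 20282719088680010570688018514176) (nat_lit 1)) .nil)),
 (.br (nat_lit 3) (nat_lit 0) (.cons (.rf (nat_lit 1185) (nat_lit 493858305440582043680)) (.cons (.br (nat_lit 13) (nat_lit 0) (.cons (.rf (nat_lit 1186) (nat_lit 493858305440582043680)) (.cons (.br (nat_lit 4) (nat_lit 0) (.cons (.ev (nat_lit 20282719088680010570688018514176) (nat_lit 1)) .nil)) .nil))) (.cons (.br (nat_lit 13) (nat_lit 0) (.cons (.br (nat_lit 11) (nat_lit 0) (.cons (.ev (nat_lit 121696315774025195211166148986368) (nat_lit 3)) .nil)) (.cons (.br (nat_lit 4) (nat_lit 0) (.cons (.ev (nat_lit 121696315774025195211166148986368) (nat_lit 3)) .nil)) .nil))) (.cons (.br (nat_lit 4) (nat_lit 0) (.cons (.rf (nat_lit 1187) (nat_lit 493858305440582043680)) (.cons (.br (nat_lit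 11) (nat_lit 0) (.cons (.ev (nat_lit 283958068511726125173438398598158) (nat_lit 4)) .nil)) (.cons (.rf (nat_lit 1188) (nat_lit 493858305440582043680)) .nil)))) .nil)))))]

theorem c43 : chkAll C T R L43 (nat_lit 1161) = true := by decide +kernel

theorem l43 : (nat_lit 1161) + L43.length = (nat_lit 1190) := by decide +kernel

/-- part of the certificates -/
def L44 : List Prf := [(.br (nat_lit 8) (nat_lit 0) (.cons (.ev (nat_lit 18519084246547562496) (nat_lit 1)) .nil)),
 (.br (nat_lit 8) (nat_lit 0) (.cons (.ev (nat_lit 18519084246547562496) (nat_lit 1)) .nil)),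
 (.br (nat_lit 3) (nat_lit 0) (.cons (.rf (nat_lit 1185) (nat_lit 493858305440582043680)) (.cons (.rf (nat_lit 1189) (nat_lit 493858305440582043680)) (.cons (.br (nat_lit 4) (nat_lit 0) (.cons (.ev (nat_lit 475370217105370042998317909508) (nat_lit 3)) (.cons (.br (nat_lit 8) (nat_lit 0) (.cons (.ev (nat_lit 18519084246547562496) (nat_lit 1)) .nil)) .nil))) (.cons (.br (nat_lit 4) (nat_lit 0) (.cons (.br (nat_lit 12) (nat_lit 0) (.cons (.ev (nat_lit 79229371440084234801501962241) (nat_lit 1)) .nil)) (.cons (.rf (nat_lit 1190) (nat_lit 493858305440582043680)) (.cons (.rf (nat_lit 1191) (nat_lit 493858305440582043680)) .nil)))) .nil))))),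
 (.br (nat_lit 3) (nat_lit 0) (.cons (.rf (nat_lit 1185) (nat_lit 493858305440582043680)) (.cons (.rf (nat_lit 1189) (nat_lit 493858305440582043680)) (.cons (.rf (nat_lit 1192) (nat_lit 493858305440582043680)) (.cons (.br (nat_lit 4) (nat_lit 0) (.cons (.ev (nat_lit 158457538787468421738902455300) (nat_lit 3)) (.cons (.rf (nat_lit 1190) (nat_lit 492741412732994160672)) (.cons (.rf (nat_lit 1191) (nat_lit 492741412732994160672)) .nil)))) .nil))))),
 (.br (nat_lit 3) (nat_lit 0) (.cons (.rf (nat_lit 1185) (nat_lit 493858305440582043680)) (.cons (.rf (nat_lit 1189) (nat_lit 493858305440582043680)) (.cons (.rf (nat_lit 1192) (nat_lit 493858305440582043680)) (.cons (.rf (nat_lit 1193) (nat_lit 493858305440582043680)) (.cons (.br (nat_lit 3) (nat_lit 0) (.cons (.rf (nat_lit 1185) (nat_lit 493858305440582043680)) (.cons (.rf (nat_lit 1189) (nat_lit 493858305440582043680)) (.cons (.rf (nat_lit 1192) (nat_lit 493858305440582043680)) (.cons (.rf (nat_lit 1193) (nat_lit 493858305440582043680)) .nil))))) .nil)))))),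
 (.br (nat_lit 3) (nat_lit 0) (.cons (.rf (nat_lit 1185) (nat_lit 493858305440582043680)) (.cons (.rf (nat_lit 1194) (nat_lit 493858305440582043680)) (.cons (.br (nat_lit 4) (nat_lit 0) (.cons (.ev (nat_lit 1109195555072492943690021473286) (nat_lit 4)) (.cons (.br (nat_lit 6) (nat_lit 0) (.cons (.ev (nat_lit 243551086631133787877820824813570) (nat_lit 4)) .nil)) .nil))) (.cons (.br (nat_lit 4) (nat_lit 0) (.cons (.br (nat_lit 12) (nat_lit 0) (.cons (.ev (nat_lit 79228167236703159536498770176) (nat_lit 1)) .nil)) (.cons (.br (nat_lit 6) (nat_lit 0) (.cons (.ev (nat_lit 203144104807210136607015145834506) (nat_lit 4)) .nil)) (.cons (.br (nat_lit 6) (nat_lit 0) (.cons (.ev (nat_lit 20361948460101575721243006468353) (nat_lit 1)) .nil)) .nil)))) .nil))))),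
 (.br (nat_lit 3) (nat_lit 0) (.cons (.rf (nat_lit 1185) (nat_lit 493858305440582043680)) (.cons (.rf (nat_lit 1194) (nat_lit 493858305440582043680)) (.cons (.rf (nat_lit 1195) (nat_lit 493858305440582043680)) (.cons (.br (nat_lit 4) (nat_lit 0) (.cons (.ev (nat_lit 792282895496195079739317289474) (nat_lit 4)) (.cons (.br (nat_lit 6) (nat_lit 0) (.cons (.ev (nat_lit 244501824609565227739076289498638) (nat_lit 4)) .nil)) (.cons (.br (nat_lit 6) (nat_lit 0) (.cons (.ev (nat_lit 243867999252930577418062064386566) (nat_lit 4)) .nil)) .nil)))) .nil))))),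
 (.br (nat_lit 3) (nat_lit 0) (.cons (.rf (nat_lit 1185) (nat_lit 493858305440582043680)) (.cons (.rf (nat_lit 1194) (nat_lit 493858305440582043680)) (.cons (.rf (nat_lit 1195) (nat_lit 493858305440582043680)) (.cons (.rf (nat_lit 1196) (nat_lit 493858305440582043680)) (.cons (.br (nat_lit 3) (nat_lit 0) (.cons (.rf (nat_lit 1185) (nat_lit 493858305440582043680)) (.cons (.rf (nat_lit 1194) (nat_lit 493858305440582043680)) (.cons (.rf (nat_lit 1195) (nat_lit 493858305440582043680)) (.cons (.rf (nat_lit 1196) (nat_lit 493858305440582043680)) .nil))))) .nil)))))),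
 (.br (nat_lit 8) (nat_lit 0) (.cons (.ev (nat_lit 20361947251175756107713343389696) (nat_lit 1)) .nil)),
 (.br (nat_lit 3) (nat_lit 0) (.cons (.rf (nat_lit 1185) (nat_lit 493858305440582043680)) (.cons (.rf (nat_lit 1194) (nat_lit 493858305440582043680)) (.cons (.rf (nat_lit 1197) (nat_lit 493858305440582043680)) (.cons (.br (nat_lit 4) (nat_lit 0) (.cons (.rf (nat_lit 1198) (nat_lit 493858305440582043680)) (.cons (.rf (nat_lit 1198) (nat_lit 493858303243706271776)) (.cons (.br (nat_lit 6) (nat_lit 0) (.cons (.ev (nat_lit 79229371440084234801501962241) (nat_lit 1)) .nil)) .nil)))) .nil))))),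
 (.br (nat_lit 3) (nat_lit 0) (.cons (.rf (nat_lit 1185) (nat_lit 493858305440582043680)) (.cons (.rf (nat_lit 1194) (nat_lit 493858305440582043680)) (.cons (.rf (nat_lit 1197) (nat_lit 493858305440582043680)) (.cons (.rf (nat_lit 1199) (nat_lit 493858305440582043680)) (.cons (.br (nat_lit 3) (nat_lit 0) (.cons (.rf (nat_lit 1185) (nat_lit 493858305440582043680)) (.cons (.rf (nat_lit 1194) (nat_lit 493858305440582043680)) (.cons (.rf (nat_lit 1197) (nat_lit 493858305440582043680)) (.cons (.rf (nat_lit 1199) (nat_lit 493858305440582043680)) .nil))))) .nil)))))),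
 (.br (nat_lit 3) (nat_lit 0) (.cons (.rf (nat_lit 1185) (nat_lit 493858305440582043680)) (.cons (.rf (nat_lit 1194) (nat_lit 493858305440582043680)) (.cons (.rf (nat_lit 1197) (nat_lit 493858305440582043680)) (.cons (.rf (nat_lit 1200) (nat_lit 493858305440582043680)) (.cons (.br (nat_lit 3) (nat_lit 0) (.cons (.rf (nat_lit 1185) (nat_lit 493858305440582043680)) (.cons (.rf (nat_lit 1194) (nat_lit 493858305440582043680)) (.cons (.rf (nat_lit 1197) (nat_lit 493858305440582043680)) (.cons (.rf (nat_lit 1200) (nat_lit 493858305440582043680)) .nil))))) .nil)))))),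
 (.br (nat_lit 3) (nat_lit 0) (.cons (.rf (nat_lit 1185) (nat_lit 493858305440582043680)) (.cons (.rf (nat_lit 1194) (nat_lit 493858305440582043680)) (.cons (.rf (nat_lit 1197) (nat_lit 493858305440582043680)) (.cons (.rf (nat_lit 1200) (nat_lit 493858305440582043680)) (.cons (.rf (nat_lit 1201) (nat_lit 493858305440582043680)) (.cons (.br (nat_lit 3) (nat_lit 0) (.cons (.rf (nat_lit 1185) (nat_lit 493858305440582043680)) (.cons (.rf (nat_lit 1194) (nat_lit 493858305440582043680)) (.cons (.rf (nat_lit 1197) (nat_lit 493858305440582043680)) (.cons (.rf (nat_lit 1200) (nat_lit 493858305440582043680)) (.cons (.rf (nat_lit 1201) (nat_lit 493858305440582043680)) .nil)))))) .nil))))))),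
 (.br (nat_lit 2) (nat_lit 0) (.cons (.rf (nat_lit 1105) (nat_lit 493858305440582042688)) (.cons (.rf (nat_lit 1156) (nat_lit 493858305440582042688)) (.cons (.rf (nat_lit 1181) (nat_lit 493858305440582043680)) (.cons (.rf (nat_lit 1181) (nat_lit 458117666300869314592)) (.cons (.rf (nat_lit 1202) (nat_lit 493858305440582043680)) (.cons (.rf (nat_lit 1202) (nat_lit 458117666300869314592)) .nil))))))),
 (.br (nat_lit 2) (nat_lit 0) (.cons (.rf (nat_lit 677) (nat_lit 6918366135298)) (.cons (.rf (nat_lit 1156) (nat_lit 493858305440582042688)) (.cons (.kr (nat_lit 1208925891672223212634624) (nat_lit 4722366483969156972544) (nat_lit 1) (nat_lit 0)) (.cons (.rf (nat_lit 1181) (nat_lit 458117666300869314592)) (.cons (.rf (nat_lit 1203) (nat_lit 493858305440582043680)) (.cons (.kr (nat_lit 1208925819614629174706432) (nat_lit 1099511693312) (nat_lit 1) (nat_lit 0)) .nil))))))),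
 (.br (nat_lit 2) (nat_lit 0) (.cons (.rf (nat_lit 1105) (nat_lit 493858305440582042688)) (.cons (.rf (nat_lit 1156) (nat_lit 493858305440582042688)) (.cons (.rf (nat_lit 1181) (nat_lit 493858305440582043680)) (.cons (.rf (nat_lit 1181) (nat_lit 458117666300869314592)) (.cons (.rf (nat_lit 1203) (nat_lit 493858305440582043680)) (.cons (.rf (nat_lit 1204) (nat_lit 493858305440582043680)) (.cons (.rf (nat_lit 1204) (nat_lit 458117666300869314592)) .nil)))))))),
 (.br (nat_lit 8) (nat_lit 0) (.cons (.ev (nat_lit 18519084246530850816) (nat_lit 1)) (.cons (.ev (nat_lit 18519084246530785536) (nat_lit 1)) (.cons (.br (nat_lit 3) (nat_lit 0) (.cons (.br (nat_lit 12) (nat_lit 0) (.cons (.ev (nat_lit 20361947251175756107713326612736) (nat_lit 1)) .nil)) (.cons (.br (nat_lit 11) (nat_lit 0) (.cons (.ev (nat_lit 20361947251175756107713326678016) (nat_lit 1)) .nil)) (.cons (.br (nat_lit 11) (nat_lit 0) (.cons (.ev (nat_lit 20361947260675902206597530714880) (nat_lit 2)) .nil)) .nil)))) .nil)))),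
 (.br (nat_lit 3) (nat_lit 0) (.cons (.rf (nat_lit 1206) (nat_lit 493858305440582043680)) (.cons (.ev (nat_lit 79537647524158021735595180288) (nat_lit 1)) (.cons (.br (nat_lit 12) (nat_lit 0) (.cons (.br (nat_lit 8) (nat_lit 0) (.cons (.ev (nat_lit 159076537141310009094156190720) (nat_lit 3)) .nil)) (.cons (.ev (nat_lit 40882971020493108739304652407808) (nat_lit 3)) .nil))) .nil)))),
 (.br (nat_lit 3) (nat_lit 0) (.cons (.rf (nat_lit 1206) (nat_lit 493858305440582043680)) (.cons (.ev (nat_lit 79537647524158021735595180288) (nat_lit 1)) (.cons (.br (nat_lit 11) (nat_lit 0) (.cons (.br (nat_lit 8) (nat_lit 0) (.cons (.ev (nat_lit 159076537141310009094155927552) (nat_lit 3)) .nil)) (.cons (.ev (nat_lit 40882971020493108739304652668928) (nat_lit 3)) .nil))) .nil)))),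
 (.br (nat_lit 3) (nat_lit 0) (.cons (.rf (nat_lit 1206) (nat_lit 493858305440582043680)) (.cons (.rf (nat_lit 1207) (nat_lit 493858305440582043680)) (.cons (.rf (nat_lit 1208) (nat_lit 493858305440582043680)) (.cons (.br (nat_lit 3) (nat_lit 0) (.cons (.rf (nat_lit 1206) (nat_lit 493858305440582043680)) (.cons (.rf (nat_lit 1207) (nat_lit 493858305440582043680)) (.cons (.rf (nat_lit 1208) (nat_lit 493858305440582043680)) .nil)))) .nil))))),
 (.br (nat_lit 13) (nat_lit 0) (.cons (.ev (nat_lit 79538856449977637464281448705) (nat_lit 1)) (.cons (.br (nat_lit 4) (nat_lit 0) (.cons (.ev (nat_lit 79538856449977637464281448705) (nat_lit 1)) .nil)) .nil))),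
 (.br (nat_lit 3) (nat_lit 0) (.cons (.rf (nat_lit 1209) (nat_lit 493858305440582043680)) (.cons (.rf (nat_lit 1210) (nat_lit 493858305440582043680)) (.cons (.br (nat_lit 4) (nat_lit 0) (.cons (.br (nat_lit 12) (nat_lit 0) (.cons (.ev (nat_lit 20361947251175756107713326612736) (nat_lit 1)) .nil)) (.cons (.br (nat_lit 8) (nat_lit 0) (.cons (.ev (nat_lit 20282410812595936783753958916353) (nat_lit 1)) .nil)) (.cons (.br (nat_lit 8) (nat_lit 0) (.cons (.ev (nat_lit 795377745594840875990927542282) (nat_lit 4)) .nil)) .nil)))) .nil)))),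
 (.br (nat_lit 3) (nat_lit 0) (.cons (.rf (nat_lit 1209) (nat_lit 493858305440582043680)) (.cons (.rf (nat_lit 1210) (nat_lit 493858305440582043680)) (.cons (.br (nat_lit 4) (nat_lit 0) (.cons (.br (nat_lit 11) (nat_lit 0) (.cons (.ev (nat_lit 20361947251175756107713326678016) (nat_lit 1)) .nil)) (.cons (.br (nat_lit 8) (nat_lit 0) (.cons (.ev (nat_lit 20282410812595936783753958916353) (nat_lit 1)) .nil)) (.cons (.br (nat_lit 8) (nat_lit 0) (.cons (.ev (nat_lit 795377745594840875990927015946) (nat_lit 4)) .nil)) .nil)))) .nil)))),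
 (.br (nat_lit 3) (nat_lit 0) (.cons (.rf (nat_lit 1209) (nat_lit 493858305440582043680)) (.cons (.rf (nat_lit 1211) (nat_lit 493858305440582043680)) (.cons (.rf (nat_lit 1212) (nat_lit 493858305440582043680)) (.cons (.br (nat_lit 3) (nat_lit 0) (.cons (.rf (nat_lit 1209) (nat_lit 493858305440582043680)) (.cons (.rf (nat_lit 1211) (nat_lit 493858305440582043680)) (.cons (.rf (nat_lit 1212) (nat_lit 493858305440582043680)) .nil)))) .nil))))),
 (.br (nat_lit 3) (nat_lit 0) (.cons (.ev (nat_lit 79537647524158021735595180288) (nat_lit 1)) (.cons (.rf (nat_lit 1210) (nat_lit 493858305440582043680)) (.cons (.br (nat_lit 8) (nat_lit 0) (.cons (.ev (nat_lit 79538856449977637464281448705) (nat_lit 1)) (.cons (.br (nat_lit 4) (nat_lit 0) (.cons (.ev (nat_lit 79538856449977637464281448705) (nat_lit 1)) .nil)) .nil))) .nil)))),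
 (.br (nat_lit 3) (nat_lit 0) (.cons (.rf (nat_lit 1209) (nat_lit 493858305440582043680)) (.cons (.rf (nat_lit 1213) (nat_lit 493858305440582043680)) (.cons (.rf (nat_lit 1214) (nat_lit 493858305440582043680)) (.cons (.br (nat_lit 3) (nat_lit 0) (.cons (.rf (nat_lit 1209) (nat_lit 493858305440582043680)) (.cons (.rf (nat_lit 1213) (nat_lit 493858305440582043680)) (.cons (.rf (nat_lit 1214) (nat_lit 493858305440582043680)) .nil)))) .nil))))),
 (.br (nat_lit 3) (nat_lit 0) (.cons (.rf (nat_lit 1209) (nat_lit 493858305440582043680)) (.cons (.rf (nat_lit 1213) (nat_lit 493858305440582043680)) (.cons (.rf (nat_lit 1214) (nat_lit 493858305440582043680)) (.cons (.br (nat_lit 3) (nat_lit 0) (.cons (.rf (nat_lit 1209) (nat_lit 493858305440582043680)) (.cons (.rf (nat_lit 1213) (nat_lit 493858305440582043680)) (.cons (.rf (nat_lit 1214) (nat_lit 493858305440582043680)) .nil)))) .nil))))),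
 (.br (nat_lit 8) (nat_lit 0) (.cons (.br (nat_lit 12) (nat_lit 0) (.cons (.br (nat_lit 12) (nat_lit 0) (.cons (.ev (nat_lit 20361947251175756107713326612736) (nat_lit 1)) .nil)) (.cons (.br (nat_lit 3) (nat_lit 0) (.cons (.ev (nat_lit 20361947251175756107713326612736) (nat_lit 1)) .nil)) .nil))) (.cons (.ev (nat_lit 18519084246530785536) (nat_lit 1)) (.cons (.br (nat_lit 12) (nat_lit 0) (.cons (.br (nat_lit 11) (nat_lit 0) (.cons (.ev (nat_lit 20361947251175756107713326678016) (nat_lit 1)) .nil)) (.cons (.br (nat_lit 3) (nat_lit 0) (.cons (.ev (nat_lit 20361947251175756107713326678016) (nat_lit 1)) .nil)) .nil))) .nil)))),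
 (.br (nat_lit 3) (nat_lit 0) (.cons (.rf (nat_lit 1217) (nat_lit 493858305440582043680)) (.cons (.br (nat_lit 8) (nat_lit 0) (.cons (.br (nat_lit 8) (nat_lit 0) (.cons (.ev (nat_lit 40565439391045462704950494626310) (nat_lit 3)) .nil)) (.cons (.br (nat_lit 8) (nat_lit 0) (.cons (.ev (nat_lit 40565439391045462704950494626310) (nat_lit 3)) .nil)) .nil))) (.cons (.zr (nat_lit 40564819212025707893714101207554) (nat_lit 928455029464036309981134848) (nat_lit 5) (nat_lit 2)) .nil))))]

theorem c44 : chkAll C T R L44 (nat_lit 1190) = true := by decide +kernel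

theorem l44 : (nat_lit 1190) + L44.length = (nat_lit 1219) := by decide +kernel

/-- part of the certificates -/
def L45 : List Prf := [(.br (nat_lit 3) (nat_lit 0) (.cons (.rf (nat_lit 1217) (nat_lit 493858305440582043680)) (.cons (.rf (nat_lit 1218) (nat_lit 493858305440582043680)) (.cons (.br (nat_lit 8) (nat_lit 0) (.cons (.br (nat_lit 8) (nat_lit 0) (.cons (.ev (nat_lit 40565439391045462704950494626310) (nat_lit 3)) .nil)) (.cons (.br (nat_lit 8) (nat_lit 0) (.cons (.ev (nat_lit 40565439391045462704950494626310) (nat_lit 3)) .nil)) .nil))) .nil)))),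
 (.br (nat_lit 3) (nat_lit 0) (.cons (.rf (nat_lit 1217) (nat_lit 493858305440582043680)) (.cons (.rf (nat_lit 1218) (nat_lit 493858305440582043680)) (.cons (.rf (nat_lit 1219) (nat_lit 493858305440582043680)) (.cons (.br (nat_lit 3) (nat_lit 0) (.cons (.rf (nat_lit 1217) (nat_lit 493858305440582043680)) (.cons (.zr (nat_lit 40564819212025707893714101207554) (nat_lit 928455029464036309981134848) (nat_lit 5) (nat_lit 2)) (.cons (.rf (nat_lit 1219) (nat_lit 493858305440582043680)) .nil)))) .nil))))),
 (.br (nat_lit 8) (nat_lit 0) (.cons (.ev (nat_lit 79228167291971615647156339456) (nat_lit 2)) (.cons (.ev (nat_lit 79229376217791230272036012032) (nat_lit 2)) (.cons (.ev (nat_lit 79229376217791230272036078336) (nat_lit 2)) .nil)))),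
 (.br (nat_lit 3) (nat_lit 0) (.cons (.rf (nat_lit 1220) (nat_lit 493858305440582043680)) (.cons (.br (nat_lit 4) (nat_lit 0) (.cons (.ev (nat_lit 4740813509522138136833) (nat_lit 1)) (.cons (.rf (nat_lit 1221) (nat_lit 493858305440582043680)) (.cons (.br (nat_lit 8) (nat_lit 0) (.cons (.ev (nat_lit 79229371440084234801501962241) (nat_lit 1)) .nil)) .nil)))) (.cons (.br (nat_lit 4) (nat_lit 0) (.cons (.ev (nat_lit 4740813509522138136833) (nat_lit 1)) (.cons (.rf (nat_lit 1163) (nat_lit 309385240701678224448)) .nil))) .nil)))),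
 (.br (nat_lit 3) (nat_lit 0) (.cons (.rf (nat_lit 1220) (nat_lit 493858305440582043680)) (.cons (.rf (nat_lit 1222) (nat_lit 493858305440582043680)) (.cons (.br (nat_lit 4) (nat_lit 0) (.cons (.ev (nat_lit 4740813509522138136833) (nat_lit 1)) (.cons (.br (nat_lit 8) (nat_lit 0) (.cons (.ev (nat_lit 79229371440084234801502028033) (nat_lit 1)) .nil)) (.cons (.rf (nat_lit 1221) (nat_lit 493858305440582043680)) .nil)))) .nil)))),
 (.br (nat_lit 3) (nat_lit 0) (.cons (.rf (nat_lit 1220) (nat_lit 493858305440582043680)) (.cons (.rf (nat_lit 1222) (nat_lit 493858305440582043680)) (.cons (.rf (nat_lit 1223) (nat_lit 493858305440582043680)) (.cons (.br (nat_lit 3) (nat_lit 0) (.cons (.rf (nat_lit 1220) (nat_lit 493858305440582043680)) (.cons (.rf (nat_lit 1222) (nat_lit 493858305440582043680)) (.cons (.rf (nat_lit 1223) (nat_lit 493858305440582043680)) .nil)))) .nil))))),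
 (.br (nat_lit 3) (nat_lit 0) (.cons (.rf (nat_lit 1220) (nat_lit 493858305440582043680)) (.cons (.rf (nat_lit 1224) (nat_lit 493858305440582043680)) (.cons (.br (nat_lit 8) (nat_lit 0) (.cons (.rf (nat_lit 1162) (nat_lit 309385240701678224448)) (.cons (.br (nat_lit 4) (nat_lit 0) (.cons (.ev (nat_lit 20282719088680010570688018579456) (nat_lit 1)) .nil)) .nil))) .nil)))),
 (.br (nat_lit 3) (nat_lit 0) (.cons (.rf (nat_lit 1220) (nat_lit 493858305440582043680)) (.cons (.rf (nat_lit 1224) (nat_lit 493858305440582043680)) (.cons (.rf (nat_lit 1225) (nat_lit 493858305440582043680)) (.cons (.br (nat_lit 3) (nat_lit 0) (.cons (.zr (nat_lit 40564819212025707893714101207554) (nat_lit 928455029464036309981134848) (nat_lit 5) (nat_lit 2)) (.cons (.rf (nat_lit 1224) (nat_lit 493858305440582043680)) (.cons (.rf (nat_lit 1225) (nat_lit 493858305440582043680)) .nil)))) .nil))))),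
 (.br (nat_lit 3) (nat_lit 0) (.cons (.rf (nat_lit 1220) (nat_lit 493858305440582043680)) (.cons (.rf (nat_lit 1224) (nat_lit 493858305440582043680)) (.cons (.rf (nat_lit 1226) (nat_lit 493858305440582043680)) (.cons (.br (nat_lit 3) (nat_lit 0) (.cons (.rf (nat_lit 1220) (nat_lit 493858305440582043680)) (.cons (.rf (nat_lit 1224) (nat_lit 493858305440582043680)) (.cons (.rf (nat_lit 1226) (nat_lit 493858305440582043680)) .nil)))) .nil))))),
 (.br (nat_lit 2) (nat_lit 0) (.cons (.rf (nat_lit 677) (nat_lit 9144159536130)) (.cons (.rf (nat_lit 1156) (nat_lit 493858305440582042688)) (.cons (.rf (nat_lit 1205) (nat_lit 493858305440582042688)) (.cons (.kr (nat_lit 256) (nat_lit 65536) (nat_lit 1) (nat_lit 0)) (.cons (.br (nat_lit 3) (nat_lit 0) (.cons (.rf (nat_lit 1209) (nat_lit 493858305440582043680)) (.cons (.rf (nat_lit 1213) (nat_lit 493858305440582043680)) (.cons (.rf (nat_lit 1215) (nat_lit 493858305440582043680)) (.cons (.rf (nat_lit 1216) (nat_lit 493858305440582043680)) (.cons (.br (nat_lit 3)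 (nat_lit 0) (.cons (.rf (nat_lit 1209) (nat_lit 493858305440582043680)) (.cons (.rf (nat_lit 1213) (nat_lit 493858305440582043680)) (.cons (.rf (nat_lit 1215) (nat_lit 493858305440582043680)) (.cons (.rf (nat_lit 1216) (nat_lit 493858305440582043680)) .nil))))) .nil)))))) (.cons (.br (nat_lit 3) (nat_lit 0) (.cons (.rf (nat_lit 1220) (nat_lit 493858305440582043680)) (.cons (.rf (nat_lit 1224) (nat_lit 493858305440582043680)) (.cons (.rf (nat_lit 1226) (nat_lit 493858305440582043680)) (.cons (.rf (nat_lit 1227) (nat_lit 493858305440582043680)) (.cons (.br (nat_lit 3) (nat_lit 0) (.cons (.rf (nat_lit 1220) (nat_lit 493858305440582043680)) (.cons (.rf (nat_lit 1224) (nat_lit 493858305440582043680)) (.cons (.rf (nat_lit 1226) (nat_lit 493858305440582043680)) (.cons (.rf (nat_lit 1227) (nat_lit 493858305440582043680)) .nil))))) .nil)))))) .nil))))))),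
 (.br (nat_lit 3) (nat_lit 0) (.cons (.kr (nat_lit 4722438541563194769410) (nat_lit 620178945462304766657822720) (nat_lit 0) (nat_lit 1)) (.cons (.kr (nat_lit 72057594037927937) (nat_lit 309485009821345068741558272) (nat_lit 0) (nat_lit 1)) (.cons (.kr (nat_lit 4722366482869645213953) (nat_lit 309485009821345068741623808) (nat_lit 0) (nat_lit 4)) .nil)))),
 (.br (nat_lit 3) (nat_lit 0) (.cons (.kr (nat_lit 72057594037927937) (nat_lit 309485009821345068741558272) (nat_lit 0) (nat_lit 1)) (.cons (.kr (nat_lit 72057594037993473) (nat_lit 309485009821345068741558528) (nat_lit 0) (nat_lit 4)) (.cons (.kr (nat_lit 1213648258155092857847810) (nat_lit 618970019642691236994744320) (nat_lit 0) (nat_lit 1)) .nil)))),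
 (.br (nat_lit 3) (nat_lit 0) (.cons (.rf (nat_lit 1229) (nat_lit 493858305440582043680)) (.cons (.rf (nat_lit 1229) (nat_lit 458117666300869313600)) (.cons (.rf (nat_lit 1230) (nat_lit 493858305440582043680)) (.cons (.rf (nat_lit 1230) (nat_lit 458117666300869313600)) .nil))))),
 (.br (nat_lit 4) (nat_lit 0) (.cons (.kr (nat_lit 4722438541563194769410) (nat_lit 620178945462304766657822720) (nat_lit 0) (nat_lit 1)) (.cons (.ev (nat_lit 18519084246530785536) (nat_lit 1)) (.cons (.ev (nat_lit 4740813509522138136576) (nat_lit 1)) .nil)))),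
 (.br (nat_lit 3) (nat_lit 0) (.cons (.kr (nat_lit 72057594037927937) (nat_lit 309485009821345068741558272) (nat_lit 0) (nat_lit 1)) (.cons (.rf (nat_lit 1232) (nat_lit 493858305440582043680)) (.cons (.br (nat_lit 4) (nat_lit 0) (.cons (.br (nat_lit 12) (nat_lit 0) (.cons (.ev (nat_lit 20361947251175756107713326612736) (nat_lit 1)) .nil)) (.cons (.br (nat_lit 8) (nat_lit 0) (.cons (.ev (nat_lit 20361637766166006820238656536833) (nat_lit 1)) .nil)) (.cons (.br (nat_lit 8) (nat_lit 0) (.cons (.ev (nat_lit 20361637770888301245514263887873) (nat_lit 1)) .nil)) .nil)))) .nil)))),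
 (.br (nat_lit 3) (nat_lit 0) (.cons (.rf (nat_lit 1231) (nat_lit 493858305440582043680)) (.cons (.rf (nat_lit 1232) (nat_lit 493858305440582043680)) (.cons (.rf (nat_lit 1233) (nat_lit 493858305440582043680)) (.cons (.br (nat_lit 3) (nat_lit 0) (.cons (.kr (nat_lit 4722366482869645213953) (nat_lit 309485009821345068741623808) (nat_lit 0) (nat_lit 4)) (.cons (.rf (nat_lit 1232) (nat_lit 493858305440582043680)) (.cons (.rf (nat_lit 1233) (nat_lit 493858305440582043680)) .nil)))) .nil))))),
 (.br (nat_lit 3) (nat_lit 0) (.cons (.rf (nat_lit 1231) (nat_lit 493858305440582043680)) (.cons (.rf (nat_lit 1234) (nat_lit 493858305440582043680)) (.cons (.rf (nat_lit 1234) (nat_lit 458117666300869313600)) (.cons (.br (nat_lit 3) (nat_lit 0) (.cons (.kr (nat_lit 1213648258155092857847810) (nat_lit 618970019642691236994744320) (nat_lit 0) (nat_lit 1)) (.cons (.rf (nat_lit 1234) (nat_lit 493858305440582043680)) (.cons (.rf (nat_lit 1234) (nat_lit 458117666300869313600)) .nil)))) .nil))))),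
 (.br (nat_lit 6) (nat_lit 0) (.cons (.br (nat_lit 8) (nat_lit 0) (.cons (.br (nat_lit 13) (nat_lit 0) (.cons (.br (nat_lit 12) (nat_lit 0) (.cons (.ev (nat_lit 20441794393154541062999934959619) (nat_lit 2)) .nil)) (.cons (.br (nat_lit 11) (nat_lit 0) (.cons (.ev (nat_lit 20441794393154541062999934959619) (nat_lit 2)) .nil)) .nil))) (.cons (.br (nat_lit 13) (nat_lit 0) (.cons (.br (nat_lit 12) (nat_lit 0) (.cons (.ev (nat_lit 20361947251175756107713326612736) (nat_lit 1)) .nil)) (.cons (.br (nat_lit 3) (nat_lit 0) (.cons (.ev (nat_lit 20361947251175756107713326612736) (nat_lit 1)) .nil)) .nil))) (.cons (.ev (nat_lit 18519084246530785536) (nat_lit 1)) (.cons (.br (nat_lit 3) (nat_lit 0) (.cons (.br (nat_lit 12) (nat_lit 0) (.cons (.ev (nat_lit 20361947251175756107713326612736) (nat_lit 1)) .nil)) (.cons (.br (nat_lit 11) (nat_lit 0) (.cons (.ev (nat_lit 20361947265398196631873138000640) (nat_lit 2)) .nil)) (.cons (.br (nat_lit 11) (nat_lit 0) (.cons (.ev (nat_lit 20361947255898194648177009819648) (nat_lit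 1)) .nil)) .nil)))) .nil))))) (.cons (.br (nat_lit 12) (nat_lit 0) (.cons (.br (nat_lit 3) (nat_lit 0) (.cons (.ev (nat_lit 79854395626296936186823836423) (nat_lit 3)) (.cons (.br (nat_lit 11) (nat_lit 0) (.cons (.ev (nat_lit 79847132589463996792324621059) (nat_lit 2)) .nil)) .nil))) (.cons (.ev (nat_lit 79228162514264619072815694081) (nat_lit 1)) (.cons (.ev (nat_lit 79229371440084234801501962241) (nat_lit 1)) .nil)))) (.cons (.br (nat_lit 8) (nat_lit 0) (.cons (.br (nat_lit 13) (nat_lit 0) (.cons (.br (nat_lit 12) (nat_lit 0) (.cons (.ev (nat_lit 20361947251231313356046316273920) (nat_lit 2)) .nil)) (.cons (.br (nat_lit 3) (nat_lit 0) (.cons (.ev (nat_lit 20361947251231313356046316273920) (nat_lit 2)) .nil)) .nil))) (.cons (.ev (nat_lit 79228162514264619072815694081) (nat_lit 1)) (.cons (.br (nat_lit 13) (nat_lit 0) (.cons (.ev (nat_lit 20283341694940220603560202665985) (nat_lit 2)) (.cons (.ev (nat_lit 20282719088680010570688018513921) (nat_lit 1)) .nil))) .nil)))) (.cons (.ev (nat_lit 79228162514264619072815628289)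 (nat_lit 1)) (.cons (.br (nat_lit 8) (nat_lit 0) (.cons (.br (nat_lit 3) (nat_lit 0) (.cons (.br (nat_lit 12) (nat_lit 0) (.cons (.ev (nat_lit 283954354682163391951686234015246) (nat_lit 4)) .nil)) (.cons (.br (nat_lit 11) (nat_lit 0) (.cons (.ev (nat_lit 20361947251175756107713326678016) (nat_lit 1)) .nil)) (.cons (.br (nat_lit 11) (nat_lit 0) (.cons (.ev (nat_lit 20361947260675902206597530714880) (nat_lit 2)) .nil)) .nil)))) (.cons (.br (nat_lit 13) (nat_lit 0) (.cons (.ev (nat_lit 20283341690217926178284595314945) (nat_lit 2)) (.cons (.ev (nat_lit 20282719093402304995963625865473) (nat_lit 1)) .nil))) (.cons (.ev (nat_lit 79229371440084234801501962241) (nat_lit 1)) (.cons (.br (nat_lit 11) (nat_lit 0) (.cons (.br (nat_lit 3) (nat_lit 0) (.cons (.ev (nat_lit 284433437486921959311280722673672) (nat_lit 4)) .nil)) (.cons (.ev (nat_lit 20282719088680010570688018513921) (nat_lit 1)) .nil))) .nil))))) .nil)))))),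
 (.br (nat_lit 3) (nat_lit 0) (.cons (.ev (nat_lit 18519084246530785536) (nat_lit 1)) (.cons (.br (nat_lit 8) (nat_lit 0) (.cons (.ev (nat_lit 121695077824541609210716153446918) (nat_lit 3)) .nil)) .nil))),
 (.br (nat_lit 4) (nat_lit 0) (.cons (.rf (nat_lit 1236) (nat_lit 493858305440582043680)) (.cons (.ev (nat_lit 18519084246530851073) (nat_lit 1)) (.cons (.br (nat_lit 8) (nat_lit 0) (.cons (.br (nat_lit 13) (nat_lit 0) (.cons (.br (nat_lit 12) (nat_lit 0) (.cons (.ev (nat_lit 122011990474524591350021292687872) (nat_lit 3)) .nil)) (.cons (.br (nat_lit 3) (nat_lit 0) (.cons (.ev (nat_lit 122011990474524591350021292687872) (nat_lit 3)) .nil)) .nil))) (.cons (.ev (nat_lit 79228162514264619072815694081) (nat_lit 1)) (.cons (.br (nat_lit 12) (nat_lit 0) (.cons (.br (nat_lit 3) (nat_lit 0) (.cons (.ev (nat_lit 41040808394428065911405082181638) (nat_lit 3)) .nil)) (.cons (.ev (nat_lit 20282720302328124611692312133888) (nat_lit 1)) .nil))) .nil)))) (.cons (.br (nat_lit 3) (nat_lit 0) (.cons (.ev (nat_lit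 18519084246530785536) (nat_lit 1)) (.cons (.rf (nat_lit 1237) (nat_lit 493858305440582043680)) (.cons (.br (nat_lit 3) (nat_lit 0) (.cons (.ev (nat_lit 18519084246530785536) (nat_lit 1)) (.cons (.rf (nat_lit 1237) (nat_lit 493858305440582043680)) .nil))) .nil)))) (.cons (.br (nat_lit 8) (nat_lit 0) (.cons (.br (nat_lit 3) (nat_lit 0) (.cons (.br (nat_lit 12) (nat_lit 0) (.cons (.ev (nat_lit 121695077824541609210716153315840) (nat_lit 3)) .nil)) (.cons (.br (nat_lit 11) (nat_lit 0) (.cons (.ev (nat_lit 20361948460101575721242989690881) (nat_lit 1)) .nil)) (.cons (.br (nat_lit 11) (nat_lit 0) (.cons (.ev (nat_lit 243864285498925707922224357442566) (nat_lit 4)) .nil)) .nil)))) (.cons (.br (nat_lit 12) (nat_lit 0) (.cons (.br (nat_lit 3) (nat_lit 0) (.cons (.ev (nat_lit 793520788312247976882025922570) (nat_lit 4)) .nil)) (.cons (.ev (nat_lit 20282720302328124611692312133888) (nat_lit 1)) .nil))) (.cons (.ev (nat_lit 79229371440084234801501962241) (nat_lit 1)) (.cons (.br (nat_lit 11) (nat_lit 0) (.cons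 (.br (nat_lit 3) (nat_lit 0) (.cons (.ev (nat_lit 41040808394428065911405082181638) (nat_lit 3)) .nil)) (.cons (.ev (nat_lit 20282720297605830186416704913408) (nat_lit 1)) .nil))) .nil))))) .nil)))))),
 (.br (nat_lit 3) (nat_lit 0) (.cons (.rf (nat_lit 1236) (nat_lit 493858305440582043680)) (.cons (.rf (nat_lit 1238) (nat_lit 493858305440582043680)) (.cons (.br (nat_lit 13) (nat_lit 0) (.cons (.rf (nat_lit 1186) (nat_lit 486940776419383411776)) (.cons (.br (nat_lit 4) (nat_lit 0) (.cons (.ev (nat_lit 20282719088680010570688018579456) (nat_lit 1)) .nil)) .nil))) (.cons (.br (nat_lit 4) (nat_lit 0) (.cons (.br (nat_lit 12) (nat_lit 0) (.cons (.ev (nat_lit 121695077805651855048861421011460) (nat_lit 3)) .nil)) (.cons (.br (nat_lit 6) (nat_lit 0) (.cons (.ev (nat_lit 79228167236703159536498835456) (nat_lit 1)) .nil)) (.cons (.br (nat_lit 6) (nat_lit 0) (.cons (.ev (nat_lit 79847132589463996792324620545) (nat_lit 2)) .nil)) .nil)))) .nil))))),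
 (.br (nat_lit 3) (nat_lit 0) (.cons (.rf (nat_lit 1236) (nat_lit 493858305440582043680)) (.cons (.rf (nat_lit 1238) (nat_lit 493858305440582043680)) (.cons (.rf (nat_lit 1239) (nat_lit 493858305440582043680)) (.cons (.br (nat_lit 4) (nat_lit 0) (.cons (.br (nat_lit 11) (nat_lit 0) (.cons (.ev (nat_lit 20361947251175756107713326678016) (nat_lit 1)) .nil)) (.cons (.rf (nat_lit 1187) (nat_lit 486940776419383411776)) (.cons (.rf (nat_lit 1188) (nat_lit 486940776419383411776)) .nil)))) .nil))))),
 (.br (nat_lit 3) (nat_lit 0) (.cons (.rf (nat_lit 1236) (nat_lit 493858305440582043680)) (.cons (.rf (nat_lit 1238) (nat_lit 493858305440582043680)) (.cons (.rf (nat_lit 1239) (nat_lit 493858305440582043680)) (.cons (.rf (nat_lit 1240) (nat_lit 493858305440582043680)) (.cons (.br (nat_lit 3) (nat_lit 0) (.cons (.rf (nat_lit 1236) (nat_lit 493858305440582043680)) (.cons (.rf (nat_lit 1238) (nat_lit 493858305440582043680)) (.cons (.rf (nat_lit 1239) (nat_lit 493858305440582043680)) (.cons (.rf (nat_lit 1240) (nat_lit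 493858305440582043680)) .nil))))) .nil)))))),
 (.br (nat_lit 3) (nat_lit 0) (.cons (.rf (nat_lit 1236) (nat_lit 493858305440582043680)) (.cons (.rf (nat_lit 1238) (nat_lit 493858305440582043680)) (.cons (.rf (nat_lit 1241) (nat_lit 493858305440582043680)) (.cons (.br (nat_lit 4) (nat_lit 0) (.cons (.br (nat_lit 8) (nat_lit 0) (.cons (.ev (nat_lit 40723895725555329610245210506246) (nat_lit 3)) .nil)) (.cons (.br (nat_lit 6) (nat_lit 0) (.cons (.ev (nat_lit 79229371440084234801501962241) (nat_lit 1)) .nil)) (.cons (.ev (nat_lit 20361947251175756107713326678273) (nat_lit 1)) .nil)))) .nil)))))]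

theorem c45 : chkAll C T R L45 (nat_lit 1219) = true := by decide +kernel

theorem l45 : (nat_lit 1219) + L45.length = (nat_lit 1243) := by decide +kernel

/-- part of the certificates -/
def L46 : List Prf := [(.br (nat_lit 3) (nat_lit 0) (.cons (.rf (nat_lit 1236) (nat_lit 493858305440582043680)) (.cons (.rf (nat_lit 1238) (nat_lit 493858305440582043680)) (.cons (.rf (nat_lit 1241) (nat_lit 493858305440582043680)) (.cons (.rf (nat_lit 1242) (nat_lit 493858305440582043680)) (.cons (.br (nat_lit 3) (nat_lit 0) (.cons (.rf (nat_lit 1236) (nat_lit 493858305440582043680)) (.cons (.rf (nat_lit 1238) (nat_lit 493858305440582043680)) (.cons (.rf (nat_lit 1241) (nat_lit 493858305440582043680)) (.cons (.rf (nat_lit 1242) (nat_lit 493858305440582043680)) .nil))))) .nil)))))),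
 (.br (nat_lit 3) (nat_lit 0) (.cons (.rf (nat_lit 1236) (nat_lit 493858305440582043680)) (.cons (.rf (nat_lit 1238) (nat_lit 493858305440582043680)) (.cons (.rf (nat_lit 1241) (nat_lit 493858305440582043680)) (.cons (.rf (nat_lit 1243) (nat_lit 493858305440582043680)) (.cons (.br (nat_lit 3) (nat_lit 0) (.cons (.rf (nat_lit 1236) (nat_lit 493858305440582043680)) (.cons (.rf (nat_lit 1238) (nat_lit 493858305440582043680)) (.cons (.rf (nat_lit 1241) (nat_lit 493858305440582043680)) (.cons (.rf (nat_lit 1243) (nat_lit 493858305440582043680)) .nil))))) .nil)))))),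
 (.br (nat_lit 8) (nat_lit 0) (.cons (.br (nat_lit 13) (nat_lit 0) (.cons (.ev (nat_lit 121694458863966699486318094844928) (nat_lit 3)) (.cons (.ev (nat_lit 121694458854521534175014576980480) (nat_lit 3)) .nil))) (.cons (.ev (nat_lit 4740813509522138136576) (nat_lit 1)) (.cons (.ev (nat_lit 18519084246530785536) (nat_lit 1)) (.cons (.br (nat_lit 12) (nat_lit 0) (.cons (.br (nat_lit 11) (nat_lit 0) (.cons (.ev (nat_lit 20361947265398196631873138000640) (nat_lit 2)) .nil)) (.cons (.br (nat_lit 3) (nat_lit 0) (.cons (.ev (nat_lit 20361947265398196631873138000640) (nat_lit 2)) .nil)) .nil))) .nil))))),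
 (.br (nat_lit 6) (nat_lit 0) (.cons (.rf (nat_lit 1245) (nat_lit 493858305440582043680)) (.cons (.ev (nat_lit 4740813509522138136576) (nat_lit 1)) (.cons (.ev (nat_lit 18519084246530785536) (nat_lit 1)) (.cons (.br (nat_lit 12) (nat_lit 0) (.cons (.br (nat_lit 11) (nat_lit 0) (.cons (.ev (nat_lit 20361947251175756107713326678016) (nat_lit 1)) .nil)) (.cons (.br (nat_lit 3) (nat_lit 0) (.cons (.ev (nat_lit 20361947251175756107713326678016) (nat_lit 1)) .nil)) .nil))) .nil))))),
 (.br (nat_lit 3) (nat_lit 0) (.cons (.rf (nat_lit 1245) (nat_lit 493858305440582043680)) (.cons (.rf (nat_lit 1246) (nat_lit 493858305440582043680)) (.cons (.br (nat_lit 8) (nat_lit 0) (.cons (.rf (nat_lit 439) (nat_lit 14310552072318190656)) (.cons (.rf (nat_lit 390) (nat_lit 15427442549744306208)) (.cons (.ev (nat_lit 20282409608392555708488955789568) (nat_lit 1)) .nil)))) (.cons (.br (nat_lit 12) (nat_lit 0) (.cons (.br (nat_lit 8) (nat_lit 0) (.cons (.ev (nat_lit 40564820439915141831103516902400) (nat_lit 3)) .nil)) (.cons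 (.br (nat_lit 6) (nat_lit 0) (.cons (.ev (nat_lit 40564820439915141831103516902400) (nat_lit 3)) .nil)) .nil))) .nil))))),
 (.br (nat_lit 3) (nat_lit 0) (.cons (.rf (nat_lit 1245) (nat_lit 493858305440582043680)) (.cons (.rf (nat_lit 1246) (nat_lit 493858305440582043680)) (.cons (.rf (nat_lit 1247) (nat_lit 493858305440582043680)) (.cons (.br (nat_lit 6) (nat_lit 0) (.cons (.br (nat_lit 11) (nat_lit 0) (.cons (.ev (nat_lit 159076537141310009094156190720) (nat_lit 3)) .nil)) (.cons (.br (nat_lit 8) (nat_lit 0) (.cons (.ev (nat_lit 40564820421025387669248784072704) (nat_lit 3)) .nil)) (.cons (.br (nat_lit 8) (nat_lit 0) (.cons (.ev (nat_lit 40564820430470552980552301937152) (nat_lit 3)) .nil)) .nil)))) .nil))))),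
 (.br (nat_lit 3) (nat_lit 0) (.cons (.rf (nat_lit 1245) (nat_lit 493858305440582043680)) (.cons (.rf (nat_lit 1246) (nat_lit 493858305440582043680)) (.cons (.rf (nat_lit 1247) (nat_lit 493858305440582043680)) (.cons (.rf (nat_lit 1248) (nat_lit 493858305440582043680)) (.cons (.br (nat_lit 3) (nat_lit 0) (.cons (.rf (nat_lit 1245) (nat_lit 493858305440582043680)) (.cons (.ev (nat_lit 20282410817318375324217642057728) (nat_lit 1)) (.cons (.rf (nat_lit 1247) (nat_lit 493858305440582043680)) (.cons (.rf (nat_lit 1248) (nat_lit 493858305440582043680)) .nil))))) .nil)))))),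
 (.br (nat_lit 4) (nat_lit 0) (.cons (.rf (nat_lit 1249) (nat_lit 493858305440582043680)) (.cons (.ev (nat_lit 4740813509522138136576) (nat_lit 1)) (.cons (.ev (nat_lit 18519084246530785536) (nat_lit 1)) (.cons (.br (nat_lit 12) (nat_lit 0) (.cons (.br (nat_lit 11) (nat_lit 0) (.cons (.ev (nat_lit 243866142408984203647072311444486) (nat_lit 4)) .nil)) (.cons (.br (nat_lit 3) (nat_lit 0) (.cons (.ev (nat_lit 243866142408984203647072311444486) (nat_lit 4)) .nil)) .nil))) .nil))))),
 (.br (nat_lit 3) (nat_lit 0) (.cons (.rf (nat_lit 1249) (nat_lit 493858305440582043680)) (.cons (.rf (nat_lit 1250) (nat_lit 493858305440582043680)) (.cons (.br (nat_lit 4) (nat_lit 0) (.cons (.br (nat_lit 12) (nat_lit 0) (.cons (.ev (nat_lit 20361947251175756107713326612736) (nat_lit 1)) .nil)) (.cons (.rf (nat_lit 469) (nat_lit 15398169146797688864)) (.cons (.br (nat_lit 8) (nat_lit 0) (.cons (.ev (nat_lit 795377736150252025439712970762) (nat_lit 4)) .nil)) .nil)))) (.cons (.br (nat_lit 12) (nat_lit 0) (.cons (.br (nat_lit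 8) (nat_lit 0) (.cons (.ev (nat_lit 202824097316426676490924743985162) (nat_lit 4)) .nil)) (.cons (.br (nat_lit 4) (nat_lit 0) (.cons (.ev (nat_lit 202824097316426676490924743985162) (nat_lit 4)) .nil)) .nil))) .nil))))),
 (.br (nat_lit 3) (nat_lit 0) (.cons (.rf (nat_lit 1249) (nat_lit 493858305440582043680)) (.cons (.rf (nat_lit 1250) (nat_lit 493858305440582043680)) (.cons (.rf (nat_lit 1251) (nat_lit 493858305440582043680)) (.cons (.br (nat_lit 4) (nat_lit 0) (.cons (.br (nat_lit 11) (nat_lit 0) (.cons (.ev (nat_lit 122012609482545250798852005563918) (nat_lit 4)) .nil)) (.cons (.br (nat_lit 8) (nat_lit 0) (.cons (.ev (nat_lit 202824097250313401615561635006986) (nat_lit 4)) .nil)) (.cons (.br (nat_lit 8) (nat_lit 0) (.cons (.ev (nat_lit 202824097250313401615561635006986) (nat_lit 4)) .nil)) .nil)))) .nil))))),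
 (.br (nat_lit 3) (nat_lit 0) (.cons (.rf (nat_lit 1249) (nat_lit 493858305440582043680)) (.cons (.rf (nat_lit 1250) (nat_lit 493858305440582043680)) (.cons (.rf (nat_lit 1251) (nat_lit 493858305440582043680)) (.cons (.rf (nat_lit 1252) (nat_lit 493858305440582043680)) (.cons (.br (nat_lit 3) (nat_lit 0) (.cons (.rf (nat_lit 1249) (nat_lit 493858305440582043680)) (.cons (.rf (nat_lit 1250) (nat_lit 493858305440582043680)) (.cons (.rf (nat_lit 1251) (nat_lit 493858305440582043680)) (.cons (.rf (nat_lit 1252) (nat_lit 493858305440582043680)) .nil))))) .nil)))))),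
 (.br (nat_lit 3) (nat_lit 0) (.cons (.rf (nat_lit 1249) (nat_lit 493858305440582043680)) (.cons (.rf (nat_lit 1253) (nat_lit 493858305440582043680)) (.cons (.br (nat_lit 4) (nat_lit 0) (.cons (.ev (nat_lit 4740813509522138136833) (nat_lit 1)) (.cons (.br (nat_lit 6) (nat_lit 0) (.cons (.ev (nat_lit 795377688926154851179032872960) (nat_lit 4)) .nil)) (.cons (.ev (nat_lit 20282409608392555708488955789568) (nat_lit 1)) .nil)))) (.cons (.br (nat_lit 4) (nat_lit 0) (.cons (.ev (nat_lit 4740813509522138136833) (nat_lit 1)) (.cons (.br (nat_lit 6) (nat_lit 0) (.cons (.ev (nat_lit 79538861172272062739888800000) (nat_lit 1)) .nil)) .nil))) .nil))))),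
 (.br (nat_lit 3) (nat_lit 0) (.cons (.rf (nat_lit 1249) (nat_lit 493858305440582043680)) (.cons (.rf (nat_lit 1253) (nat_lit 493858305440582043680)) (.cons (.rf (nat_lit 1254) (nat_lit 493858305440582043680)) (.cons (.br (nat_lit 4) (nat_lit 0) (.cons (.ev (nat_lit 4740813509522138136833) (nat_lit 1)) (.cons (.br (nat_lit 6) (nat_lit 0) (.cons (.ev (nat_lit 79538861172272062739888800000) (nat_lit 1)) .nil)) (.cons (.br (nat_lit 6) (nat_lit 0) (.cons (.ev (nat_lit 79538861172272062739888800000) (nat_lit 1)) .nil)) .nil)))) .nil))))),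
 (.br (nat_lit 3) (nat_lit 0) (.cons (.rf (nat_lit 1249) (nat_lit 493858305440582043680)) (.cons (.rf (nat_lit 1253) (nat_lit 493858305440582043680)) (.cons (.rf (nat_lit 1254) (nat_lit 493858305440582043680)) (.cons (.rf (nat_lit 1255) (nat_lit 493858305440582043680)) (.cons (.br (nat_lit 3) (nat_lit 0) (.cons (.ev (nat_lit 20282410817318375324217642057728) (nat_lit 1)) (.cons (.rf (nat_lit 1253) (nat_lit 493858305440582043680)) (.cons (.rf (nat_lit 1254) (nat_lit 493858305440582043680)) (.cons (.rf (nat_lit 1255) (nat_lit 493858305440582043680)) .nil))))) .nil)))))),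
 (.br (nat_lit 3) (nat_lit 0) (.cons (.rf (nat_lit 1249) (nat_lit 493858305440582043680)) (.cons (.rf (nat_lit 1253) (nat_lit 493858305440582043680)) (.cons (.rf (nat_lit 1256) (nat_lit 493858305440582043680)) (.cons (.br (nat_lit 4) (nat_lit 0) (.cons (.br (nat_lit 8) (nat_lit 0) (.cons (.ev (nat_lit 40564820421025387669248784073732) (nat_lit 3)) .nil)) (.cons (.ev (nat_lit 20282409608392555708488955789568) (nat_lit 1)) (.cons (.ev (nat_lit 20361947251175756107713326678273) (nat_lit 1)) .nil)))) .nil))))),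
 (.br (nat_lit 3) (nat_lit 0) (.cons (.rf (nat_lit 1249) (nat_lit 493858305440582043680)) (.cons (.rf (nat_lit 1253) (nat_lit 493858305440582043680)) (.cons (.rf (nat_lit 1256) (nat_lit 493858305440582043680)) (.cons (.rf (nat_lit 1257) (nat_lit 493858305440582043680)) (.cons (.br (nat_lit 3) (nat_lit 0) (.cons (.rf (nat_lit 1249) (nat_lit 493858305440582043680)) (.cons (.rf (nat_lit 1253) (nat_lit 493858305440582043680)) (.cons (.rf (nat_lit 1256) (nat_lit 493858305440582043680)) (.cons (.rf (nat_lit 1257) (nat_lit 493858305440582043680)) .nil))))) .nil)))))),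
 (.br (nat_lit 3) (nat_lit 0) (.cons (.rf (nat_lit 1249) (nat_lit 493858305440582043680)) (.cons (.rf (nat_lit 1253) (nat_lit 493858305440582043680)) (.cons (.rf (nat_lit 1256) (nat_lit 493858305440582043680)) (.cons (.rf (nat_lit 1258) (nat_lit 493858305440582043680)) (.cons (.br (nat_lit 3) (nat_lit 0) (.cons (.rf (nat_lit 1249) (nat_lit 493858305440582043680)) (.cons (.rf (nat_lit 1253) (nat_lit 493858305440582043680)) (.cons (.rf (nat_lit 1256) (nat_lit 493858305440582043680)) (.cons (.rf (nat_lit 1258) (nat_lit 493858305440582043680)) .nil))))) .nil)))))),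
 (.br (nat_lit 2) (nat_lit 0) (.cons (.rf (nat_lit 677) (nat_lit 6945138377730)) (.cons (.rf (nat_lit 1156) (nat_lit 493858305440582042688)) (.cons (.rf (nat_lit 1205) (nat_lit 493858305440582042688)) (.cons (.br (nat_lit 3) (nat_lit 0) (.cons (.rf (nat_lit 1231) (nat_lit 493858305440582043680)) (.cons (.rf (nat_lit 1234) (nat_lit 493858305440582043680)) (.cons (.rf (nat_lit 1234) (nat_lit 458117666300869313600)) (.cons (.rf (nat_lit 1235) (nat_lit 493858305440582043680)) (.cons (.rf (nat_lit 1235) (nat_lit 458117666300869313600)) .nil)))))) (.cons (.br (nat_lit 3) (nat_lit 0) (.cons (.rf (nat_lit 1236) (nat_lit 493858305440582043680)) (.cons (.rf (nat_lit 1238) (nat_lit 493858305440582043680)) (.cons (.rf (nat_lit 1241) (nat_lit 493858305440582043680)) (.cons (.rf (nat_lit 1243) (nat_lit 493858305440582043680)) (.cons (.rf (nat_lit 1244) (nat_lit 493858305440582043680)) (.cons (.br (nat_lit 3) (nat_lit 0) (.cons (.rf (nat_lit 1236) (nat_lit 493858305440582043680)) (.cons (.rf (nat_lit 1238) (nat_lit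 493858305440582043680)) (.cons (.rf (nat_lit 1241) (nat_lit 493858305440582043680)) (.cons (.rf (nat_lit 1243) (nat_lit 493858305440582043680)) (.cons (.rf (nat_lit 1244) (nat_lit 493858305440582043680)) .nil)))))) .nil))))))) (.cons (.br (nat_lit 3) (nat_lit 0) (.cons (.rf (nat_lit 1249) (nat_lit 493858305440582043680)) (.cons (.rf (nat_lit 1253) (nat_lit 493858305440582043680)) (.cons (.rf (nat_lit 1256) (nat_lit 493858305440582043680)) (.cons (.rf (nat_lit 1258) (nat_lit 493858305440582043680)) (.cons (.rf (nat_lit 1259) (nat_lit 493858305440582043680)) (.cons (.br (nat_lit 3) (nat_lit 0) (.cons (.rf (nat_lit 1249) (nat_lit 493858305440582043680)) (.cons (.rf (nat_lit 1253) (nat_lit 493858305440582043680)) (.cons (.rf (nat_lit 1256) (nat_lit 493858305440582043680)) (.cons (.rf (nat_lit 1258) (nat_lit 493858305440582043680)) (.cons (.rf (nat_lit 1259) (nat_lit 493858305440582043680)) .nil)))))) .nil))))))) .nil))))))),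
 (.br (nat_lit 3) (nat_lit 0) (.cons (.kr (nat_lit 4722438541563194769410) (nat_lit 620178945462304766657822720) (nat_lit 0) (nat_lit 1)) (.cons (.ev (nat_lit 79229376162522775265185169665) (nat_lit 1)) (.cons (.kr (nat_lit 1213648258155092857848322) (nat_lit 618970019642691236994875392) (nat_lit 0) (nat_lit 4)) .nil)))),
 (.br (nat_lit 6) (nat_lit 0) (.cons (.rf (nat_lit 1261) (nat_lit 493858305440582043680)) (.cons (.br (nat_lit 12) (nat_lit 0) (.cons (.rf (nat_lit 1261) (nat_lit 302467711680479593536)) (.cons (.ev (nat_lit 79229376162522775265185169665) (nat_lit 1)) (.cons (.ev (nat_lit 79228167236703159536498769921) (nat_lit 1)) .nil)))) (.cons (.ev (nat_lit 79228162514264619072815628289) (nat_lit 1)) (.cons (.br (nat_lit 12) (nat_lit 0) (.cons (.rf (nat_lit 1261) (nat_lit 302467711680479593536)) (.cons (.ev (nat_lit 79228167236703159536498769921) (nat_lit 1)) (.cons (.ev (nat_lit 79229376162522775265185169665) (nat_lit 1)) .nil)))) .nil))))),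
 (.br (nat_lit 8) (nat_lit 0) (.cons (.ev (nat_lit 79228167236703159536498769921) (nat_lit 1)) .nil)),
 (.br (nat_lit 3) (nat_lit 0) (.cons (.kr (nat_lit 4722438541563194769410) (nat_lit 620178945462304766657822720) (nat_lit 0) (nat_lit 1)) (.cons (.br (nat_lit 13) (nat_lit 0) (.cons (.br (nat_lit 8) (nat_lit 0) (.cons (.ev (nat_lit 20282410812595936783753958916096) (nat_lit 1)) .nil)) (.cons (.br (nat_lit 4) (nat_lit 0) (.cons (.ev (nat_lit 20282410812595936783753958916096) (nat_lit 1)) .nil)) .nil))) (.cons (.br (nat_lit 4) (nat_lit 0) (.cons (.rf (nat_lit 1263) (nat_lit 309390870201044666400)) (.cons (.ev (nat_lit 79538856449977637464281448448) (nat_lit 1)) (.cons (.rf (nat_lit 1263) (nat_lit 493858305440582043680)) .nil)))) .nil)))),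
 (.br (nat_lit 3) (nat_lit 0) (.cons (.rf (nat_lit 1262) (nat_lit 493858305440582043680)) (.cons (.rf (nat_lit 1264) (nat_lit 493858305440582043680)) (.cons (.br (nat_lit 3) (nat_lit 0) (.cons (.ev (nat_lit 79229376162522775265185169665) (nat_lit 1)) (.cons (.rf (nat_lit 1264) (nat_lit 493858305440582043680)) (.cons (.rf (nat_lit 1264) (nat_lit 302467711680479593536)) .nil)))) (.cons (.br (nat_lit 3) (nat_lit 0) (.cons (.kr (nat_lit 1213648258155092857848322) (nat_lit 618970019642691236994875392) (nat_lit 0) (nat_lit 4)) (.cons (.rf (nat_lit 1264) (nat_lit 493858305440582043680)) (.cons (.rf (nat_lit 1264) (nat_lit 302467711680479593536)) .nil)))) .nil))))),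
 (.br (nat_lit 3) (nat_lit 0) (.cons (.rf (nat_lit 1262) (nat_lit 493858305440582043680)) (.cons (.rf (nat_lit 1265) (nat_lit 493858305440582043680)) (.cons (.rf (nat_lit 1265) (nat_lit 302467711680479593536)) (.cons (.br (nat_lit 3) (nat_lit 0) (.cons (.kr (nat_lit 4722366482869645213697) (nat_lit 309485009821345068741558272) (nat_lit 0) (nat_lit 1)) (.cons (.rf (nat_lit 1265) (nat_lit 493858305440582043680)) (.cons (.rf (nat_lit 1265) (nat_lit 302467711680479593536)) .nil)))) .nil)))))]

theorem c46 : chkAll C T R L46 (nat_lit 1243) = true := by decide +kernel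

theorem l46 : (nat_lit 1243) + L46.length = (nat_lit 1267) := by decide +kernel

/-- part of the certificates -/
def L47 : List Prf := [(.br (nat_lit 2) (nat_lit 0) (.cons (.rf (nat_lit 1105) (nat_lit 493858305440582042688)) (.cons (.rf (nat_lit 1156) (nat_lit 493858305440582042688)) (.cons (.kr (nat_lit 256) (nat_lit 65536) (nat_lit 1) (nat_lit 0)) (.cons (.rf (nat_lit 1260) (nat_lit 493858305440582043680)) (.cons (.br (nat_lit 3) (nat_lit 0) (.cons (.rf (nat_lit 1262) (nat_lit 493858305440582043680)) (.cons (.rf (nat_lit 1265) (nat_lit 493858305440582043680)) (.cons (.rf (nat_lit 1266) (nat_lit 493858305440582043680)) (.cons (.rf (nat_lit 1265) (nat_lit 302467711680479593536)) (.cons (.rf (nat_lit 1266) (nat_lit 302467711680479593536)) .nil)))))) (.cons (.kr (nat_lit 1213648186097498819920384) (nat_lit 72058693549686784) (nat_lit 1) (nat_lit 0)) .nil))))))),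
 (.br (nat_lit 2) (nat_lit 0) (.cons (.rf (nat_lit 1105) (nat_lit 493858305440582042688)) (.cons (.rf (nat_lit 1156) (nat_lit 493858305440582042688)) (.cons (.rf (nat_lit 1228) (nat_lit 493858305440582043680)) (.cons (.rf (nat_lit 1260) (nat_lit 493858305440582043680)) (.cons (.rf (nat_lit 1267) (nat_lit 493858305440582043680)) (.cons (.br (nat_lit 2) (nat_lit 0) (.cons (.rf (nat_lit 677) (nat_lit 6918366135298)) (.cons (.rf (nat_lit 1156) (nat_lit 493858305440582042688)) (.cons (.rf (nat_lit 1228) (nat_lit 493858305440582043680)) (.cons (.rf (nat_lit 1260) (nat_lit 493858305440582043680)) (.cons (.rf (nat_lit 1267) (nat_lit 493858305440582043680)) (.cons (.rf (nat_lit 1205) (nat_lit 302467711680479593536)) .nil))))))) (.cons (.br (nat_lit 2) (nat_lit 0) (.cons (.rf (nat_lit 677) (nat_lit 9048738071554)) (.cons (.rf (nat_lit 1156) (nat_lit 493858305440582042688)) (.cons (.rf (nat_lit 1228) (nat_lit 493858305440582043680)) (.cons (.rf (nat_lit 1260) (nat_lit 493858305440582043680)) (.cons (.kr (nat_lit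 1213648186097498819920384) (nat_lit 72058693549686784) (nat_lit 1) (nat_lit 0)) (.cons (.rf (nat_lit 1205) (nat_lit 302467711680479593536)) .nil))))))) .nil)))))))),
 (.br (nat_lit 8) (nat_lit 0) (.cons (.ev (nat_lit 18519084246530785536) (nat_lit 1)) (.cons (.br (nat_lit 3) (nat_lit 0) (.cons (.br (nat_lit 11) (nat_lit 0) (.cons (.ev (nat_lit 20361947251175756107713326612736) (nat_lit 1)) .nil)) (.cons (.ev (nat_lit 40723276764980419885847051240448) (nat_lit 3)) .nil))) (.cons (.br (nat_lit 3) (nat_lit 0) (.cons (.br (nat_lit 11) (nat_lit 0) (.cons (.ev (nat_lit 20361947251175756107713326678016) (nat_lit 1)) .nil)) (.cons (.ev (nat_lit 40723276764980419885847051109888) (nat_lit 3)) .nil))) .nil)))),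
 (.br (nat_lit 8) (nat_lit 0) (.cons (.ev (nat_lit 4740813508418331541504) (nat_lit 1)) (.cons (.ev (nat_lit 18519084246530785536) (nat_lit 1)) (.cons (.ev (nat_lit 309489750706912184900845568) (nat_lit 1)) (.cons (.ev (nat_lit 309489750706912184900780288) (nat_lit 1)) .nil))))),
 (.br (nat_lit 3) (nat_lit 0) (.cons (.rf (nat_lit 1269) (nat_lit 493858305440582043680)) (.cons (.br (nat_lit 11) (nat_lit 0) (.cons (.rf (nat_lit 1270) (nat_lit 493858305440582043680)) (.cons (.ev (nat_lit 20361638975091826433768302838016) (nat_lit 1)) .nil))) (.cons (.br (nat_lit 11) (nat_lit 0) (.cons (.rf (nat_lit 1270) (nat_lit 493858305440582043680)) (.cons (.ev (nat_lit 20361638975091826433768302838016) (nat_lit 1)) .nil))) .nil)))),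
 (.br (nat_lit 11) (nat_lit 0) (.cons (.rf (nat_lit 1270) (nat_lit 493858305440582043680)) (.cons (.kr (nat_lit 4722366482869645213952) (nat_lit 309485009821345068724846592) (nat_lit 1) (nat_lit 0)) (.cons (.kr (nat_lit 4722366482869645213696) (nat_lit 309485009821345068724781056) (nat_lit 9) (nat_lit 0)) .nil)))),
 (.br (nat_lit 3) (nat_lit 0) (.cons (.rf (nat_lit 1269) (nat_lit 493858305440582043680)) (.cons (.rf (nat_lit 1271) (nat_lit 493858305440582043680)) (.cons (.br (nat_lit 11) (nat_lit 0) (.cons (.rf (nat_lit 1271) (nat_lit 493858305440582043680)) (.cons (.rf (nat_lit 1272) (nat_lit 493858305440582043680)) (.cons (.ev (nat_lit 20361638975091826433768302838016) (nat_lit 1)) .nil)))) (.cons (.br (nat_lit 11) (nat_lit 0) (.cons (.rf (nat_lit 1271) (nat_lit 493858305440582043680)) (.cons (.rf (nat_lit 1272) (nat_lit 493858305440582043680)) (.cons (.ev (nat_lit 20361638975091826433768302838016) (nat_lit 1)) .nil)))) .nil))))),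
 (.br (nat_lit 3) (nat_lit 0) (.cons (.rf (nat_lit 1273) (nat_lit 493858305440582043680)) (.cons (.br (nat_lit 4) (nat_lit 0) (.cons (.br (nat_lit 11) (nat_lit 0) (.cons (.ev (nat_lit 20361947251175756107713326612736) (nat_lit 1)) .nil)) (.cons (.kr (nat_lit 72057594037927937) (nat_lit 309485009821345068724781312) (nat_lit 0) (nat_lit 2)) (.cons (.br (nat_lit 8) (nat_lit 0) (.cons (.ev (nat_lit 309489750706912184900780288) (nat_lit 1)) .nil)) .nil)))) (.cons (.br (nat_lit 4) (nat_lit 0) (.cons (.br (nat_lit 11) (nat_lit 0) (.cons (.ev (nat_lit 20361947251175756107713326678016) (nat_lit 1)) .nil)) (.cons (.kr (nat_lit 72057594037927937) (nat_lit 309485009821345068724781312) (nat_lit 0) (nat_lit 2)) (.cons (.br (nat_lit 8) (nat_lit 0) (.cons (.ev (nat_lit 309489750706912184900845568) (nat_lit 1)) .nil)) .nil)))) .nil)))),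
 (.br (nat_lit 3) (nat_lit 0) (.cons (.rf (nat_lit 1273) (nat_lit 493858305440582043680)) (.cons (.rf (nat_lit 1274) (nat_lit 493858305440582043680)) (.cons (.br (nat_lit 11) (nat_lit 0) (.cons (.ev (nat_lit 20361638975091826433768302838016) (nat_lit 1)) (.cons (.br (nat_lit 4) (nat_lit 0) (.cons (.ev (nat_lit 20361637770888301245514247045376) (nat_lit 1)) .nil)) .nil))) .nil)))),
 (.br (nat_lit 3) (nat_lit 0) (.cons (.rf (nat_lit 1273) (nat_lit 493858305440582043680)) (.cons (.rf (nat_lit 1274) (nat_lit 493858305440582043680)) (.cons (.rf (nat_lit 1275) (nat_lit 493858305440582043680)) (.cons (.br (nat_lit 3) (nat_lit 0) (.cons (.rf (nat_lit 1273) (nat_lit 493858305440582043680)) (.cons (.rf (nat_lit 1274) (nat_lit 493858305440582043680)) (.cons (.rf (nat_lit 1275) (nat_lit 493858305440582043680)) .nil)))) .nil))))),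
 (.br (nat_lit 3) (nat_lit 0) (.cons (.rf (nat_lit 1273) (nat_lit 493858305440582043680)) (.cons (.rf (nat_lit 1276) (nat_lit 493858305440582043680)) (.cons (.br (nat_lit 4) (nat_lit 0) (.cons (.br (nat_lit 8) (nat_lit 0) (.cons (.ev (nat_lit 310698676526525714563858433) (nat_lit 1)) .nil)) (.cons (.ev (nat_lit 20361637770888301245514247045376) (nat_lit 1)) .nil))) .nil)))),
 (.br (nat_lit 3) (nat_lit 0) (.cons (.rf (nat_lit 1273) (nat_lit 493858305440582043680)) (.cons (.rf (nat_lit 1276) (nat_lit 493858305440582043680)) (.cons (.rf (nat_lit 1277) (nat_lit 493858305440582043680)) (.cons (.br (nat_lit 3) (nat_lit 0) (.cons (.rf (nat_lit 1273) (nat_lit 493858305440582043680)) (.cons (.rf (nat_lit 1276) (nat_lit 493858305440582043680)) (.cons (.rf (nat_lit 1277) (nat_lit 493858305440582043680)) .nil)))) .nil))))),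
 (.br (nat_lit 3) (nat_lit 0) (.cons (.rf (nat_lit 1273) (nat_lit 493858305440582043680)) (.cons (.rf (nat_lit 1276) (nat_lit 493858305440582043680)) (.cons (.rf (nat_lit 1278) (nat_lit 493858305440582043680)) (.cons (.br (nat_lit 3) (nat_lit 0) (.cons (.rf (nat_lit 1273) (nat_lit 493858305440582043680)) (.cons (.rf (nat_lit 1276) (nat_lit 493858305440582043680)) (.cons (.rf (nat_lit 1278) (nat_lit 493858305440582043680)) .nil)))) .nil))))),
 (.br (nat_lit 2) (nat_lit 0) (.cons (.rf (nat_lit 677) (nat_lit 9144159536130)) (.cons (.rf (nat_lit 1156) (nat_lit 493858305440582042688)) (.cons (.kr (nat_lit 4722366483969156841984) (nat_lit 1208925891672223212765184) (nat_lit 1) (nat_lit 0)) (.cons (.rf (nat_lit 1268) (nat_lit 493858305440582042688)) (.cons (.kr (nat_lit 256) (nat_lit 65536) (nat_lit 1) (nat_lit 0)) (.cons (.br (nat_lit 3) (nat_lit 0) (.cons (.rf (nat_lit 1273) (nat_lit 493858305440582043680)) (.cons (.rf (nat_lit 1276) (nat_lit 493858305440582043680)) (.cons (.rf (nat_lit 1278) (nat_lit 493858305440582043680))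 (.cons (.rf (nat_lit 1279) (nat_lit 493858305440582043680)) (.cons (.br (nat_lit 3) (nat_lit 0) (.cons (.rf (nat_lit 1273) (nat_lit 493858305440582043680)) (.cons (.rf (nat_lit 1276) (nat_lit 493858305440582043680)) (.cons (.rf (nat_lit 1278) (nat_lit 493858305440582043680)) (.cons (.rf (nat_lit 1279) (nat_lit 493858305440582043680)) .nil))))) .nil)))))) .nil))))))),
 (.br (nat_lit 2) (nat_lit 0) (.cons (.rf (nat_lit 677) (nat_lit 6945138377730)) (.cons (.rf (nat_lit 1156) (nat_lit 493858305440582042688)) (.cons (.kr (nat_lit 4722366483969156841984) (nat_lit 1208925891672223212765184) (nat_lit 1) (nat_lit 0)) (.cons (.rf (nat_lit 1268) (nat_lit 458117666300869313600)) (.cons (.rf (nat_lit 1280) (nat_lit 302467711680479594528)) (.cons (.kr (nat_lit 4722366482869645213952) (nat_lit 72057594037993472) (nat_lit 1) (nat_lit 0)) .nil))))))),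
 (.br (nat_lit 2) (nat_lit 0) (.cons (.rf (nat_lit 1105) (nat_lit 493858305440582042688)) (.cons (.rf (nat_lit 1156) (nat_lit 493858305440582042688)) (.cons (.rf (nat_lit 1268) (nat_lit 493858305440582042688)) (.cons (.rf (nat_lit 1268) (nat_lit 458117666300869313600)) (.cons (.rf (nat_lit 1268) (nat_lit 302467711680479593536)) (.cons (.rf (nat_lit 1268) (nat_lit 230986506996392494144)) .nil))))))),
 (.br (nat_lit 2) (nat_lit 0) (.cons (.rf (nat_lit 1105) (nat_lit 493858305440582042688)) (.cons (.rf (nat_lit 1156) (nat_lit 493858305440582042688)) (.cons (.rf (nat_lit 1280) (nat_lit 493858305440582043680)) (.cons (.rf (nat_lit 1281) (nat_lit 493858305440582043680)) (.cons (.rf (nat_lit 1282) (nat_lit 493858305440582043680)) (.cons (.rf (nat_lit 1280) (nat_lit 302467711680479594528)) (.cons (.rf (nat_lit 1281) (nat_lit 302467711680479594528)) .nil)))))))),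
 (.br (nat_lit 2) (nat_lit 0) (.cons (.rf (nat_lit 677) (nat_lit 9144159536130)) (.cons (.rf (nat_lit 1156) (nat_lit 493858305440582042688)) (.cons (.rf (nat_lit 1205) (nat_lit 493858305440582042688)) (.cons (.rf (nat_lit 1282) (nat_lit 493858305440582043680)) (.cons (.rf (nat_lit 1283) (nat_lit 493858305440582042688)) (.cons (.kr (nat_lit 256) (nat_lit 65536) (nat_lit 1) (nat_lit 0)) .nil))))))),
 (.br (nat_lit 11) (nat_lit 0) (.cons (.zr (nat_lit 60847228810955012117366195814403) (nat_lit 158765810075243508411855274496) (nat_lit 10) (nat_lit 1)) .nil)),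
 (.br (nat_lit 8) (nat_lit 0) (.cons (.br (nat_lit 11) (nat_lit 0) (.cons (.rf (nat_lit 1285) (nat_lit 493858305440582043680)) (.cons (.rf (nat_lit 1285) (nat_lit 458117666300869313600)) .nil))) (.cons (.ev (nat_lit 4759332593768669053696) (nat_lit 2)) (.cons (.br (nat_lit 3) (nat_lit 0) (.cons (.br (nat_lit 11) (nat_lit 0) (.cons (.ev (nat_lit 40723894507074094871078412419840) (nat_lit 2)) .nil)) (.cons (.ev (nat_lit 40723276764980419885847051240448) (nat_lit 3)) .nil))) (.cons (.ev (nat_lit 20282410812595936783753942204673) (nat_lit 1)) .nil))))),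
 (.br (nat_lit 3) (nat_lit 0) (.cons (.rf (nat_lit 1286) (nat_lit 493858305440582043680)) (.cons (.rf (nat_lit 1286) (nat_lit 458117666300869313600)) (.cons (.br (nat_lit 3) (nat_lit 0) (.cons (.rf (nat_lit 1286) (nat_lit 493858305440582043680)) (.cons (.rf (nat_lit 1286) (nat_lit 458117666300869313600)) (.cons (.rf (nat_lit 1286) (nat_lit 302467711680479593536)) (.cons (.rf (nat_lit 1286) (nat_lit 230986506996392495136)) .nil))))) (.cons (.rf (nat_lit 1286) (nat_lit 302467711680479593536)) (.cons (.rf (nat_lit 1286) (nat_lit 230986506996392495136)) .nil)))))),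
 (.br (nat_lit 11) (nat_lit 0) (.cons (.br (nat_lit 11) (nat_lit 0) (.cons (.ev (nat_lit 40723894507074094871078412288770) (nat_lit 2)) .nil)) (.cons (.br (nat_lit 3) (nat_lit 0) (.cons (.ev (nat_lit 40723894507074094871078412288770) (nat_lit 2)) .nil)) .nil))),
 (.br (nat_lit 4) (nat_lit 0) (.cons (.rf (nat_lit 1287) (nat_lit 493858305440582043680)) (.cons (.ev (nat_lit 4759332593768669053696) (nat_lit 2)) (.cons (.rf (nat_lit 1288) (nat_lit 493858305440582043680)) (.cons (.rf (nat_lit 1288) (nat_lit 458117666300869313600)) .nil))))),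
 (.br (nat_lit 11) (nat_lit 0) (.cons (.ev (nat_lit 40723896924925734098137738445056) (nat_lit 2)) .nil)),
 (.br (nat_lit 11) (nat_lit 0) (.cons (.ev (nat_lit 20282719093402304995963625865216) (nat_lit 1)) .nil)),
 (.br (nat_lit 3) (nat_lit 0) (.cons (.rf (nat_lit 1287) (nat_lit 493858305440582043680)) (.cons (.rf (nat_lit 1289) (nat_lit 493858305440582043680)) (.cons (.br (nat_lit 4) (nat_lit 0) (.cons (.rf (nat_lit 1290) (nat_lit 493858305440582043680)) (.cons (.kr (nat_lit 4722438540463683141634) (nat_lit 618970019642690137449627904) (nat_lit 0) (nat_lit 3)) (.cons (.rf (nat_lit 1290) (nat_lit 302467711680479593536)) .nil)))) (.cons (.br (nat_lit 4) (nat_lit 0) (.cons (.rf (nat_lit 1291) (nat_lit 493858305440582043680)) (.cons (.kr (nat_lit 4722438540463683141634) (nat_lit 618970019642690137449627904) (nat_lit 0) (nat_lit 3)) (.cons (.rf (nat_lit 1291) (nat_lit 230986506996392495136)) .nil)))) .nil))))),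
 (.br (nat_lit 3) (nat_lit 0) (.cons (.rf (nat_lit 1287) (nat_lit 493858305440582043680)) (.cons (.rf (nat_lit 1289) (nat_lit 493858305440582043680)) (.cons (.rf (nat_lit 1292) (nat_lit 493858305440582043680)) (.cons (.br (nat_lit 3) (nat_lit 0) (.cons (.ev (nat_lit 158457533954348856073340912386) (nat_lit 2)) (.cons (.rf (nat_lit 1289) (nat_lit 493858305440582043680)) (.cons (.rf (nat_lit 1292) (nat_lit 493858305440582043680)) (.cons (.rf (nat_lit 1289) (nat_lit 230986506996392495136)) .nil))))) (.cons (.br (nat_lit 3) (nat_lit 0) (.cons (.rf (nat_lit 1287) (nat_lit 493858305440582043680)) (.cons (.rf (nat_lit 1289) (nat_lit 493858305440582043680)) (.cons (.rf (nat_lit 1292) (nat_lit 493858305440582043680)) (.cons (.rf (nat_lit 1289) (nat_lit 230986506996392495136)) .nil))))) .nil)))))),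
 (.br (nat_lit 2) (nat_lit 0) (.cons (.rf (nat_lit 677) (nat_lit 6945138377730)) (.cons (.rf (nat_lit 1156) (nat_lit 493858305440582042688)) (.cons (.rf (nat_lit 1205) (nat_lit 493858305440582042688)) (.cons (.rf (nat_lit 1282) (nat_lit 493858305440582043680)) (.cons (.br (nat_lit 3) (nat_lit 0) (.cons (.rf (nat_lit 1287) (nat_lit 493858305440582043680)) (.cons (.rf (nat_lit 1293) (nat_lit 493858305440582043680)) (.cons (.rf (nat_lit 1293) (nat_lit 458117666300869313600)) (.cons (.br (nat_lit 3) (nat_lit 0) (.cons (.rf (nat_lit 1287) (nat_lit 493858305440582043680)) (.cons (.rf (nat_lit 1293) (nat_lit 493858305440582043680)) (.cons (.rf (nat_lit 1293) (nat_lit 458117666300869313600)) (.cons (.rf (nat_lit 1293) (nat_lit 302467711680479593536)) (.cons (.rf (nat_lit 1293) (nat_lit 230986506996392495136)) .nil)))))) (.cons (.rf (nat_lit 1293) (nat_lit 302467711680479593536)) (.cons (.rf (nat_lit 1293) (nat_lit 230986506996392495136)) .nil))))))) (.cons (.rf (nat_lit 1283) (nat_lit 458117666300869313600))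 .nil)))))))]

theorem c47 : chkAll C T R L47 (nat_lit 1267) = true := by decide +kernel

theorem l47 : (nat_lit 1267) + L47.length = (nat_lit 1295) := by decide +kernel

/-- part of the certificates -/
def L48 : List Prf := [(.br (nat_lit 1) (nat_lit 0) (.cons (.rf (nat_lit 677) (nat_lit 9144159537153)) (.cons (.rf (nat_lit 1156) (nat_lit 493858305440582043680)) (.cons (.rf (nat_lit 1205) (nat_lit 493858305440582043680)) (.cons (.rf (nat_lit 1282) (nat_lit 493858305440582042688)) (.cons (.rf (nat_lit 1283) (nat_lit 493858305440582043680)) (.cons (.br (nat_lit 2) (nat_lit 0) (.cons (.rf (nat_lit 1105) (nat_lit 493858305440582042688)) (.cons (.rf (nat_lit 1156) (nat_lit 493858305440582042688)) (.cons (.rf (nat_lit 1284) (nat_lit 493858305440582043680)) (.cons (.rf (nat_lit 1294) (nat_lit 493858305440582043680)) (.cons (.rf (nat_lit 1282) (nat_lit 493858305440582043680)) (.cons (.rf (nat_lit 1294) (nat_lit 230986506996392495136)) (.cons (.rf (nat_lit 1284) (nat_lit 230986506996392495136)) .nil))))))))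 .nil))))))),
 (.br (nat_lit 1) (nat_lit 0) (.cons (.rf (nat_lit 1105) (nat_lit 493858305440582043680)) (.cons (.rf (nat_lit 1156) (nat_lit 493858305440582043680)) (.cons (.rf (nat_lit 1295) (nat_lit 493858305440582043680)) (.cons (.rf (nat_lit 1295) (nat_lit 458117666300869314592)) (.cons (.rf (nat_lit 1282) (nat_lit 493858305440582042688)) (.cons (.rf (nat_lit 1295) (nat_lit 302467711680479594528)) (.cons (.rf (nat_lit 1295) (nat_lit 230986506996392495136)) .nil)))))))),
 (.br (nat_lit 3) (nat_lit 0) (.cons (.br (nat_lit 12) (nat_lit 0) (.cons (.ev (nat_lit 20361947251175756107713326678016) (nat_lit 1)) .nil)) .nil)),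
 (.br (nat_lit 3) (nat_lit 0) (.cons (.kr (nat_lit 4722366482869645213697) (nat_lit 309485009821345068724781312) (nat_lit 0) (nat_lit 2)) (.cons (.br (nat_lit 11) (nat_lit 0) (.cons (.ev (nat_lit 20361947260675902206597514067970) (nat_lit 2)) .nil)) .nil))),
 (.br (nat_lit 1) (nat_lit 0) (.cons (.rf (nat_lit 1296) (nat_lit 493858305440582011936)) (.cons (.br (nat_lit 3) (nat_lit 0) (.cons (.rf (nat_lit 1297) (nat_lit 493858305440582043680)) (.cons (.rf (nat_lit 1297) (nat_lit 458117668497745086496)) .nil))) (.cons (.ev (nat_lit 18519084246530851073) (nat_lit 1)) (.cons (.br (nat_lit 3) (nat_lit 0) (.cons (.kr (nat_lit 4722366482869645213697) (nat_lit 309485009821345068724781312) (nat_lit 0) (nat_lit 2)) (.cons (.rf (nat_lit 1298) (nat_lit 493858305440582043680)) (.cons (.br (nat_lit 3) (nat_lit 0) (.cons (.kr (nat_lit 4722366482869645213697) (nat_lit 309485009821345068724781312) (nat_lit 0) (nat_lit 2)) (.cons (.rf (nat_lit 1298) (nat_lit 493858305440582043680)) .nil))) .nil)))) .nil))))),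
 (.br (nat_lit 3) (nat_lit 0) (.cons (.br (nat_lit 3) (nat_lit 0) (.cons (.ev (nat_lit 79228162514336395191876845569) (nat_lit 1)) .nil)) (.cons (.ev (nat_lit 79228162514336395191876845569) (nat_lit 1)) .nil))),
 (.br (nat_lit 8) (nat_lit 0) (.cons (.br (nat_lit 13) (nat_lit 0) (.cons (.ev (nat_lit 309489750706912184917557505) (nat_lit 1)) (.cons (.br (nat_lit 3) (nat_lit 0) (.cons (.ev (nat_lit 309489750706912184917557505) (nat_lit 1)) .nil)) .nil))) (.cons (.zr (nat_lit 79229371458602753890466136320) (nat_lit 309489732187829042176589824) (nat_lit 5) (nat_lit 12)) (.cons (.rf (nat_lit 1300) (nat_lit 15433072043909810208)) .nil)))),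
 (.br (nat_lit 3) (nat_lit 0) (.cons (.ev (nat_lit 309489750706912184917557505) (nat_lit 1)) (.cons (.br (nat_lit 8) (nat_lit 0) (.cons (.ev (nat_lit 40644356854882910881273134252035) (nat_lit 2)) .nil)) .nil))),
 (.br (nat_lit 1) (nat_lit 0) (.cons (.rf (nat_lit 1296) (nat_lit 493858305440582011936)) (.cons (.rf (nat_lit 1299) (nat_lit 493858305440582043680)) (.cons (.rf (nat_lit 1301) (nat_lit 493858305440582043680)) (.cons (.br (nat_lit 3) (nat_lit 0) (.cons (.rf (nat_lit 1301) (nat_lit 458117666300869314592)) (.cons (.rf (nat_lit 1302) (nat_lit 493858305440582043680)) (.cons (.br (nat_lit 3) (nat_lit 0) (.cons (.rf (nat_lit 1301) (nat_lit 458117666300869314592)) (.cons (.rf (nat_lit 1302) (nat_lit 493858305440582043680)) .nil))) .nil)))) .nil))))),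
 (.br (nat_lit 11) (nat_lit 0) (.cons (.ev (nat_lit 79541279079467979580263890945) (nat_lit 2)) (.cons (.ev (nat_lit 40882352059918199014906493142528) (nat_lit 3)) .nil))),
 (.br (nat_lit 3) (nat_lit 0) (.cons (.rf (nat_lit 1304) (nat_lit 493858305440582043680)) (.cons (.kr (nat_lit 1213648258155092857847810) (nat_lit 618970019642691236961190400) (nat_lit 0) (nat_lit 2)) (.cons (.br (nat_lit 8) (nat_lit 0) (.cons (.ev (nat_lit 160314458291129457890474066432) (nat_lit 3)) .nil)) .nil)))),
 (.br (nat_lit 1) (nat_lit 0) (.cons (.rf (nat_lit 1296) (nat_lit 493858305440582011936)) (.cons (.ev (nat_lit 18519084246530851073) (nat_lit 1)) (.cons (.rf (nat_lit 1303) (nat_lit 493858305440582043680)) (.cons (.br (nat_lit 3) (nat_lit 0) (.cons (.br (nat_lit 3) (nat_lit 0) (.cons (.kr (nat_lit 1213648258155092857847810) (nat_lit 618970019642691236961190400) (nat_lit 0) (nat_lit 2)) (.cons (.rf (nat_lit 1304) (nat_lit 493858305440582043680)) (.cons (.rf (nat_lit 1304) (nat_lit 458117666300869314592)) .nil)))) (.cons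 (.kr (nat_lit 1213648258155092857847810) (nat_lit 618970019642691236961190400) (nat_lit 0) (nat_lit 2)) (.cons (.rf (nat_lit 1305) (nat_lit 493858305440582043680)) (.cons (.br (nat_lit 3) (nat_lit 0) (.cons (.rf (nat_lit 1304) (nat_lit 458117666300869314592)) (.cons (.kr (nat_lit 1213648258155092857847810) (nat_lit 618970019642691236961190400) (nat_lit 0) (nat_lit 2)) (.cons (.rf (nat_lit 1305) (nat_lit 493858305440582043680)) .nil)))) .nil))))) .nil))))),
 (.br (nat_lit 1) (nat_lit 0) (.cons (.rf (nat_lit 1296) (nat_lit 493858305440582011936)) (.cons (.rf (nat_lit 1299) (nat_lit 493858305440582043680)) (.cons (.rf (nat_lit 1303) (nat_lit 493858305440582043680)) (.cons (.rf (nat_lit 1306) (nat_lit 493858305440582043680)) (.cons (.br (nat_lit 1) (nat_lit 0) (.cons (.rf (nat_lit 1296) (nat_lit 493858305440582011936)) (.cons (.rf (nat_lit 1299) (nat_lit 493858305440582043680)) (.cons (.rf (nat_lit 1303) (nat_lit 493858305440582043680)) (.cons (.rf (nat_lit 1306) (nat_lit 493858305440582043680)) .nil)))))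 .nil)))))),
 (.br (nat_lit 1) (nat_lit 0) (.cons (.kr (nat_lit 4722438541563194769410) (nat_lit 620178945462304766624268800) (nat_lit 0) (nat_lit 2)) (.cons (.ev (nat_lit 79228167236703159536515612928) (nat_lit 1)) (.cons (.br (nat_lit 8) (nat_lit 0) (.cons (.ev (nat_lit 1239182095530538096121742850) (nat_lit 3)) .nil)) .nil)))),
 (.br (nat_lit 3) (nat_lit 0) (.cons (.rf (nat_lit 1296) (nat_lit 493858305440582011936)) (.cons (.rf (nat_lit 1307) (nat_lit 493858305440582043680)) (.cons (.rf (nat_lit 1307) (nat_lit 458117666300869314592)) (.cons (.br (nat_lit 1) (nat_lit 0) (.cons (.rf (nat_lit 1308) (nat_lit 493858305440582043680)) (.cons (.rf (nat_lit 1308) (nat_lit 458117666300869314592)) (.cons (.rf (nat_lit 1308) (nat_lit 302467711680479562784)) (.cons (.rf (nat_lit 1308) (nat_lit 230986506996392463392)) .nil))))) .nil))))),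
 (.br (nat_lit 3) (nat_lit 0) (.cons (.rf (nat_lit 1296) (nat_lit 493858305440582011936)) (.cons (.rf (nat_lit 1307) (nat_lit 493858305440582043680)) (.cons (.rf (nat_lit 1307) (nat_lit 458117666300869314592)) (.cons (.rf (nat_lit 1309) (nat_lit 493858305440582043680)) (.cons (.rf (nat_lit 1309) (nat_lit 458117666300869314592)) .nil)))))),
 (.br (nat_lit 3) (nat_lit 0) (.cons (.rf (nat_lit 1296) (nat_lit 493858305440582011936)) (.cons (.rf (nat_lit 1307) (nat_lit 493858305440582043680)) (.cons (.rf (nat_lit 1307) (nat_lit 458117666300869314592)) (.cons (.rf (nat_lit 1310) (nat_lit 493858305440582043680)) (.cons (.br (nat_lit 3) (nat_lit 0) (.cons (.rf (nat_lit 1296) (nat_lit 493858305440582011936)) (.cons (.rf (nat_lit 1307) (nat_lit 493858305440582043680)) (.cons (.rf (nat_lit 1307) (nat_lit 458117666300869314592)) (.cons (.rf (nat_lit 1310) (nat_lit 493858305440582043680)) .nil))))) .nil)))))),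
 (.br (nat_lit 3) (nat_lit 0) (.cons (.rf (nat_lit 1296) (nat_lit 493858305440582011936)) (.cons (.rf (nat_lit 1307) (nat_lit 493858305440582043680)) (.cons (.rf (nat_lit 1307) (nat_lit 458117666300869314592)) (.cons (.rf (nat_lit 1310) (nat_lit 493858305440582043680)) (.cons (.rf (nat_lit 1311) (nat_lit 493858305440582043680)) (.cons (.rf (nat_lit 1311) (nat_lit 458117666300869314592)) .nil))))))),
 (.br (nat_lit 3) (nat_lit 0) (.cons (.br (nat_lit 11) (nat_lit 0) (.cons (.ev (nat_lit 20361948464824014261706672898048) (nat_lit 1)) .nil)) .nil)),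
 (.br (nat_lit 3) (nat_lit 0) (.cons (.ev (nat_lit 79228167236703159536498770176) (nat_lit 1)) (.cons (.br (nat_lit 11) (nat_lit 0) (.cons (.ev (nat_lit 20361947260675902206597547491840) (nat_lit 2)) .nil)) .nil))),
 (.br (nat_lit 1) (nat_lit 0) (.cons (.rf (nat_lit 1296) (nat_lit 493858305440582011936)) (.cons (.ev (nat_lit 18519084246530851073) (nat_lit 1)) (.cons (.br (nat_lit 3) (nat_lit 0) (.cons (.rf (nat_lit 1313) (nat_lit 493858305440582043680)) (.cons (.br (nat_lit 3) (nat_lit 0) (.cons (.rf (nat_lit 1313) (nat_lit 493858305440582043680)) .nil)) .nil))) (.cons (.br (nat_lit 3) (nat_lit 0) (.cons (.rf (nat_lit 1314) (nat_lit 493858305440582043680)) (.cons (.ev (nat_lit 79229371440084234801501962496) (nat_lit 1)) (.cons (.br (nat_lit 3) (nat_lit 0) (.cons (.rf (nat_lit 1314) (nat_lit 493858305440582043680)) (.cons (.ev (nat_lit 79229371440084234801501962496) (nat_lit 1)) .nil))) .nil)))) .nil))))),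
 (.br (nat_lit 3) (nat_lit 0) (.cons (.br (nat_lit 11) (nat_lit 0) (.cons (.ev (nat_lit 202828430097118577665019144833026) (nat_lit 4)) .nil)) (.cons (.rf (nat_lit 578) (nat_lit 9626630480870869024)) .nil))),
 (.br (nat_lit 13) (nat_lit 0) (.cons (.rf (nat_lit 1316) (nat_lit 493858305440582043680)) (.cons (.rf (nat_lit 1300) (nat_lit 15398169146797688864)) (.cons (.br (nat_lit 13) (nat_lit 0) (.cons (.rf (nat_lit 1316) (nat_lit 493858305440582043680)) (.cons (.ev (nat_lit 20361637770888301245514247110656) (nat_lit 1)) .nil))) .nil)))),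
 (.br (nat_lit 11) (nat_lit 0) (.cons (.ev (nat_lit 20282719093402304995963642642688) (nat_lit 1)) .nil)),
 (.br (nat_lit 8) (nat_lit 0) (.cons (.ev (nat_lit 20282719093402304995963642642688) (nat_lit 1)) .nil)),
 (.br (nat_lit 3) (nat_lit 0) (.cons (.ev (nat_lit 309489750706912184900845825) (nat_lit 1)) (.cons (.rf (nat_lit 1319) (nat_lit 493858305440582043680)) (.cons (.br (nat_lit 8) (nat_lit 0) (.cons (.ev (nat_lit 1239163206352836993759970818) (nat_lit 3)) .nil)) .nil)))),
 (.br (nat_lit 1) (nat_lit 0) (.cons (.rf (nat_lit 1296) (nat_lit 493858305440582011936)) (.cons (.ev (nat_lit 18519084246530851073) (nat_lit 1)) (.cons (.rf (nat_lit 1317) (nat_lit 493858305440582043680)) (.cons (.br (nat_lit 3) (nat_lit 0) (.cons (.br (nat_lit 3) (nat_lit 0) (.cons (.ev (nat_lit 309489750706912184900845825) (nat_lit 1)) (.cons (.rf (nat_lit 1318) (nat_lit 493858305440582043680)) (.cons (.rf (nat_lit 1317) (nat_lit 458117666300869282848)) .nil)))) (.cons (.rf (nat_lit 1320) (nat_lit 493858305440582043680))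 (.cons (.br (nat_lit 3) (nat_lit 0) (.cons (.rf (nat_lit 1318) (nat_lit 493858305440582043680)) (.cons (.rf (nat_lit 1319) (nat_lit 493858305440582043680)) (.cons (.ev (nat_lit 79228167236703159536515612673) (nat_lit 1)) .nil)))) (.cons (.br (nat_lit 3) (nat_lit 0) (.cons (.rf (nat_lit 1317) (nat_lit 458117666300869282848)) (.cons (.rf (nat_lit 1320) (nat_lit 493858305440582043680)) (.cons (.ev (nat_lit 79228167236703159536515612673) (nat_lit 1)) .nil)))) .nil))))) .nil))))),
 (.br (nat_lit 11) (nat_lit 0) (.cons (.rf (nat_lit 1312) (nat_lit 493858305440582011936)) (.cons (.br (nat_lit 3) (nat_lit 0) (.cons (.ev (nat_lit 40565439391045462704950495019520) (nat_lit 3)) .nil)) .nil))),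
 (.br (nat_lit 1) (nat_lit 0) (.cons (.rf (nat_lit 1296) (nat_lit 493858305440582011936)) (.cons (.rf (nat_lit 1315) (nat_lit 493858305440582043680)) (.cons (.rf (nat_lit 1321) (nat_lit 493858305440582043680)) (.cons (.br (nat_lit 3) (nat_lit 0) (.cons (.rf (nat_lit 1322) (nat_lit 493858305440582043680)) (.cons (.rf (nat_lit 1304) (nat_lit 493858305440582011936)) (.cons (.br (nat_lit 3) (nat_lit 0) (.cons (.rf (nat_lit 1322) (nat_lit 493858305440582043680)) (.cons (.rf (nat_lit 1304) (nat_lit 493858305440582011936)) .nil))) .nil)))) .nil))))),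
 (.br (nat_lit 1) (nat_lit 0) (.cons (.rf (nat_lit 1296) (nat_lit 493858305440582011936)) (.cons (.rf (nat_lit 1315) (nat_lit 493858305440582043680)) (.cons (.rf (nat_lit 1321) (nat_lit 493858305440582043680)) (.cons (.rf (nat_lit 1323) (nat_lit 493858305440582043680)) (.cons (.br (nat_lit 1) (nat_lit 0) (.cons (.rf (nat_lit 1296) (nat_lit 493858305440582011936)) (.cons (.rf (nat_lit 1315) (nat_lit 493858305440582043680)) (.cons (.rf (nat_lit 1321) (nat_lit 493858305440582043680)) (.cons (.rf (nat_lit 1323) (nat_lit 493858305440582043680)) .nil))))) .nil)))))),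
 (.br (nat_lit 1) (nat_lit 0) (.cons (.ev (nat_lit 4740813509522154848256) (nat_lit 1)) (.cons (.br (nat_lit 6) (nat_lit 0) (.cons (.ev (nat_lit 1239172650941687544974542338) (nat_lit 3)) .nil)) (.cons (.ev (nat_lit 20282720297605830186416704847873) (nat_lit 1)) .nil)))),
 (.br (nat_lit 3) (nat_lit 0) (.cons (.rf (nat_lit 1296) (nat_lit 493858305440582011936)) (.cons (.rf (nat_lit 1312) (nat_lit 493858305440582011936)) (.cons (.br (nat_lit 6) (nat_lit 0) (.cons (.br (nat_lit 13) (nat_lit 0) (.cons (.br (nat_lit 11) (nat_lit 0) (.cons (.ev (nat_lit 20361947251175756107713326678016) (nat_lit 1)) .nil)) (.cons (.br (nat_lit 1) (nat_lit 0) (.cons (.ev (nat_lit 20361947251175756107713326678016) (nat_lit 1)) .nil)) .nil))) (.cons (.ev (nat_lit 79537647524158021735595180033) (nat_lit 1)) (.cons (.br (nat_lit 1) (nat_lit 0) (.cons (.br (nat_lit 1) (nat_lit 0) (.cons (.ev (nat_lit 1239172650941687544974542338) (nat_lit 3)) .nil)) (.cons (.br (nat_lit 1) (nat_lit 0) (.cons (.ev (nat_lit 1239172650941687544974542338)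 (nat_lit 3)) .nil)) .nil))) .nil)))) (.cons (.br (nat_lit 1) (nat_lit 0) (.cons (.ev (nat_lit 4740813509522154848256) (nat_lit 1)) (.cons (.rf (nat_lit 1325) (nat_lit 493858305440582043680)) (.cons (.br (nat_lit 1) (nat_lit 0) (.cons (.ev (nat_lit 4740813509522154848256) (nat_lit 1)) (.cons (.rf (nat_lit 1325) (nat_lit 493858305440582043680)) (.cons (.ev (nat_lit 81288095981728780238808078877188) (nat_lit 3)) .nil)))) (.cons (.br (nat_lit 1) (nat_lit 0) (.cons (.ev (nat_lit 4740813509522154848256) (nat_lit 1)) (.cons (.ev (nat_lit 20282720297605830186416704847873) (nat_lit 1)) (.cons (.ev (nat_lit 81288095981728780238808078877188) (nat_lit 3)) .nil)))) .nil))))) .nil)))))]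

theorem c48 : chkAll C T R L48 (nat_lit 1295) = true := by decide +kernel

theorem l48 : (nat_lit 1295) + L48.length = (nat_lit 1327) := by decide +kernel

/-- part of the certificates -/
def L49 : List Prf := [(.br (nat_lit 1) (nat_lit 0) (.cons (.br (nat_lit 11) (nat_lit 0) (.cons (.ev (nat_lit 20361947251175756107713326678016) (nat_lit 1)) .nil)) (.cons (.ev (nat_lit 40723276755535831035295803244548) (nat_lit 3)) .nil))),
 (.br (nat_lit 3) (nat_lit 0) (.cons (.rf (nat_lit 1296) (nat_lit 493858305440582011936)) (.cons (.rf (nat_lit 1324) (nat_lit 493858305440582043680)) (.cons (.rf (nat_lit 1326) (nat_lit 493858305440582043680)) (.cons (.br (nat_lit 6) (nat_lit 0) (.cons (.rf (nat_lit 1327) (nat_lit 493858305440582043680)) (.cons (.br (nat_lit 1) (nat_lit 0) (.cons (.ev (nat_lit 309489750706912184917557248) (nat_lit 1)) (.cons (.rf (nat_lit 1327) (nat_lit 230986506996392463392)) .nil))) (.cons (.ev (nat_lit 20361641392998734683182496677890) (nat_lit 2)) .nil)))) .nil))))),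
 (.br (nat_lit 3) (nat_lit 0) (.cons (.rf (nat_lit 1296) (nat_lit 493858305440582011936)) (.cons (.rf (nat_lit 1324) (nat_lit 493858305440582043680)) (.cons (.rf (nat_lit 1326) (nat_lit 493858305440582043680)) (.cons (.rf (nat_lit 1328) (nat_lit 493858305440582043680)) (.cons (.br (nat_lit 3) (nat_lit 0) (.cons (.rf (nat_lit 1296) (nat_lit 493858305440582011936)) (.cons (.rf (nat_lit 1324) (nat_lit 493858305440582043680)) (.cons (.rf (nat_lit 1326) (nat_lit 493858305440582043680)) (.cons (.rf (nat_lit 1328) (nat_lit 493858305440582043680)) .nil))))) .nil)))))),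
 (.br (nat_lit 3) (nat_lit 0) (.cons (.rf (nat_lit 1296) (nat_lit 493858305440582011936)) (.cons (.rf (nat_lit 1324) (nat_lit 493858305440582043680)) (.cons (.rf (nat_lit 1329) (nat_lit 493858305440582043680)) (.cons (.br (nat_lit 3) (nat_lit 0) (.cons (.rf (nat_lit 1296) (nat_lit 493858305440582011936)) (.cons (.rf (nat_lit 1324) (nat_lit 493858305440582043680)) (.cons (.rf (nat_lit 1329) (nat_lit 493858305440582043680)) (.cons (.rf (nat_lit 1312) (nat_lit 302467711680479562784)) .nil))))) (.cons (.br (nat_lit 3) (nat_lit 0) (.cons (.rf (nat_lit 1296) (nat_lit 493858305440582011936)) (.cons (.rf (nat_lit 1324) (nat_lit 493858305440582043680)) (.cons (.rf (nat_lit 1329) (nat_lit 493858305440582043680)) (.cons (.rf (nat_lit 1312) (nat_lit 302467711680479562784)) .nil))))) .nil)))))),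
 (.br (nat_lit 3) (nat_lit 0) (.cons (.rf (nat_lit 1296) (nat_lit 493858305440582011936)) (.cons (.rf (nat_lit 1324) (nat_lit 493858305440582043680)) (.cons (.rf (nat_lit 1329) (nat_lit 493858305440582043680)) (.cons (.rf (nat_lit 1330) (nat_lit 493858305440582043680)) (.cons (.br (nat_lit 3) (nat_lit 0) (.cons (.rf (nat_lit 1296) (nat_lit 493858305440582011936)) (.cons (.ev (nat_lit 79228167236703159536515612673) (nat_lit 1)) (.cons (.rf (nat_lit 1329) (nat_lit 493858305440582043680)) (.cons (.rf (nat_lit 1312) (nat_lit 302467711680479562784)) .nil))))) .nil)))))),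
 (.br (nat_lit 3) (nat_lit 0) (.cons (.rf (nat_lit 1296) (nat_lit 493858305440582011936)) (.cons (.rf (nat_lit 1324) (nat_lit 493858305440582043680)) (.cons (.rf (nat_lit 1329) (nat_lit 493858305440582043680)) (.cons (.rf (nat_lit 1330) (nat_lit 493858305440582043680)) (.cons (.rf (nat_lit 1331) (nat_lit 493858305440582043680)) (.cons (.br (nat_lit 3) (nat_lit 0) (.cons (.rf (nat_lit 1296) (nat_lit 493858305440582011936)) (.cons (.rf (nat_lit 1324) (nat_lit 493858305440582043680)) (.cons (.rf (nat_lit 1329) (nat_lit 493858305440582043680)) (.cons (.rf (nat_lit 1330) (nat_lit 493858305440582043680)) (.cons (.rf (nat_lit 1331) (nat_lit 493858305440582043680)) .nil)))))) .nil))))))),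
 (.br (nat_lit 2) (nat_lit 0) (.cons (.rf (nat_lit 1296) (nat_lit 493858305440582043680)) (.cons (.rf (nat_lit 1296) (nat_lit 493858305440581979200)) (.cons (.rf (nat_lit 1312) (nat_lit 493858305440582043680)) (.cons (.rf (nat_lit 1332) (nat_lit 493858305440582043680)) (.cons (.rf (nat_lit 1332) (nat_lit 458117666300869314592)) .nil)))))),
 (.br (nat_lit 8) (nat_lit 0) (.cons (.ev (nat_lit 318770792653998871347816955908) (nat_lit 3)) (.cons (.ev (nat_lit 81447171248331639894709236793344) (nat_lit 3)) .nil))),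
 (.br (nat_lit 1) (nat_lit 0) (.cons (.rf (nat_lit 1334) (nat_lit 493858305440582043680)) (.cons (.kr (nat_lit 4722366482869645213697) (nat_lit 309485009821345068724781312) (nat_lit 0) (nat_lit 2)) .nil))),
 (.br (nat_lit 3) (nat_lit 0) (.cons (.rf (nat_lit 1296) (nat_lit 493858305440582011936)) (.cons (.rf (nat_lit 1333) (nat_lit 493858305440582011936)) (.cons (.ev (nat_lit 79538861172272062739871956993) (nat_lit 1)) (.cons (.br (nat_lit 8) (nat_lit 0) (.cons (.rf (nat_lit 1335) (nat_lit 493858305440582043680)) (.cons (.ev (nat_lit 318770792653998871347816955908) (nat_lit 3)) (.cons (.br (nat_lit 1) (nat_lit 0) (.cons (.rf (nat_lit 1335) (nat_lit 493858305440582043680)) (.cons (.ev (nat_lit 81447171248331639894709236793344) (nat_lit 3)) .nil))) .nil)))) .nil))))),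
 (.br (nat_lit 3) (nat_lit 0) (.cons (.rf (nat_lit 1296) (nat_lit 493858305440582011936)) (.cons (.rf (nat_lit 1333) (nat_lit 493858305440582011936)) (.cons (.rf (nat_lit 1336) (nat_lit 493858305440582043680)) (.cons (.br (nat_lit 3) (nat_lit 0) (.cons (.rf (nat_lit 1296) (nat_lit 493858305440582011936)) (.cons (.rf (nat_lit 1333) (nat_lit 493858305440582011936)) (.cons (.ev (nat_lit 79538861172272062739871956993) (nat_lit 1)) (.cons (.rf (nat_lit 1333) (nat_lit 302467711680479562784)) .nil))))) (.cons (.br (nat_lit 3) (nat_lit 0) (.cons (.rf (nat_lit 1296) (nat_lit 493858305440582011936)) (.cons (.rf (nat_lit 1333) (nat_lit 493858305440582011936)) (.cons (.rf (nat_lit 1336) (nat_lit 493858305440582043680)) (.cons (.rf (nat_lit 1333) (nat_lit 302467711680479562784)) .nil))))) .nil)))))),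
 (.br (nat_lit 1) (nat_lit 0) (.cons (.kr (nat_lit 4722438541563194769410) (nat_lit 620178945462304766624268800) (nat_lit 0) (nat_lit 2)) (.cons (.ev (nat_lit 79229376162522775265185104128) (nat_lit 1)) (.cons (.br (nat_lit 8) (nat_lit 0) (.cons (.ev (nat_lit 1239163206352836993759970818) (nat_lit 3)) .nil)) .nil)))),
 (.br (nat_lit 3) (nat_lit 0) (.cons (.rf (nat_lit 1296) (nat_lit 493858305440582011936)) (.cons (.rf (nat_lit 1296) (nat_lit 493858305440581979200)) (.cons (.rf (nat_lit 1333) (nat_lit 493858305440582011936)) (.cons (.br (nat_lit 2) (nat_lit 0) (.cons (.rf (nat_lit 1296) (nat_lit 493858305440582043680)) (.cons (.rf (nat_lit 1333) (nat_lit 493858305440582043680)) (.cons (.br (nat_lit 1) (nat_lit 0) (.cons (.rf (nat_lit 1338) (nat_lit 493858305440582043680)) (.cons (.rf (nat_lit 1338) (nat_lit 458117666300869282848)) (.cons (.rf (nat_lit 1338) (nat_lit 302467711680479594528)) (.cons (.rf (nat_lit 1338) (nat_lit 230986506996392463392)) .nil))))) (.cons (.rf (nat_lit 1337) (nat_lit 230986506996392463392))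 .nil))))) (.cons (.rf (nat_lit 1333) (nat_lit 302467711680479562784)) .nil)))))),
 (.br (nat_lit 3) (nat_lit 0) (.cons (.rf (nat_lit 1296) (nat_lit 493858305440582011936)) (.cons (.rf (nat_lit 1333) (nat_lit 493858305440582011936)) (.cons (.rf (nat_lit 1339) (nat_lit 458117666300869282848)) (.cons (.rf (nat_lit 1337) (nat_lit 302467711680479594528)) (.cons (.rf (nat_lit 1339) (nat_lit 493858305440582043680)) .nil)))))),
 (.br (nat_lit 3) (nat_lit 0) (.cons (.rf (nat_lit 1296) (nat_lit 493858305440582011936)) (.cons (.rf (nat_lit 1337) (nat_lit 493858305440582043680)) (.cons (.rf (nat_lit 1340) (nat_lit 493858305440582043680)) (.cons (.br (nat_lit 3) (nat_lit 0) (.cons (.rf (nat_lit 1296) (nat_lit 493858305440582011936)) (.cons (.rf (nat_lit 1337) (nat_lit 493858305440582043680)) (.cons (.rf (nat_lit 1339) (nat_lit 458117666300869282848)) (.cons (.rf (nat_lit 1337) (nat_lit 302467711680479594528)) (.cons (.rf (nat_lit 1339) (nat_lit 230986506996392463392)) .nil)))))) (.cons (.rf (nat_lit 1337) (nat_lit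 302467711680479594528)) (.cons (.rf (nat_lit 1340) (nat_lit 302467711680479594528)) .nil))))))),
 (.br (nat_lit 1) (nat_lit 0) (.cons (.br (nat_lit 8) (nat_lit 0) (.cons (.ev (nat_lit 1239163206352836993759970818) (nat_lit 3)) .nil)) .nil)),
 (.br (nat_lit 3) (nat_lit 0) (.cons (.rf (nat_lit 1296) (nat_lit 493858305440582011936)) (.cons (.rf (nat_lit 1333) (nat_lit 493858305440582011936)) (.cons (.rf (nat_lit 1341) (nat_lit 493858305440582011936)) (.cons (.br (nat_lit 1) (nat_lit 0) (.cons (.rf (nat_lit 1342) (nat_lit 493858305440582043680)) (.cons (.rf (nat_lit 1342) (nat_lit 230986506996392495136)) .nil))) .nil))))),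
 (.br (nat_lit 3) (nat_lit 0) (.cons (.rf (nat_lit 1296) (nat_lit 493858305440582011936)) (.cons (.rf (nat_lit 1333) (nat_lit 493858305440582011936)) (.cons (.rf (nat_lit 1343) (nat_lit 493858305440582043680)) (.cons (.rf (nat_lit 1339) (nat_lit 230986506996392495136)) (.cons (.br (nat_lit 3) (nat_lit 0) (.cons (.rf (nat_lit 1296) (nat_lit 493858305440582011936)) (.cons (.rf (nat_lit 1333) (nat_lit 493858305440582011936)) (.cons (.rf (nat_lit 1343) (nat_lit 493858305440582043680)) (.cons (.rf (nat_lit 1333) (nat_lit 302467711680479562784)) .nil))))) .nil)))))),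
 (.br (nat_lit 1) (nat_lit 0) (.cons (.kr (nat_lit 4722438541563194769410) (nat_lit 620178945462304766624268800) (nat_lit 0) (nat_lit 2)) (.cons (.ev (nat_lit 79228167236703159536515612928) (nat_lit 1)) (.cons (.br (nat_lit 8) (nat_lit 0) (.cons (.ev (nat_lit 1239163206352836993759970818) (nat_lit 3)) .nil)) .nil)))),
 (.br (nat_lit 3) (nat_lit 0) (.cons (.rf (nat_lit 1296) (nat_lit 493858305440582011936)) (.cons (.rf (nat_lit 1333) (nat_lit 493858305440582011936)) (.cons (.br (nat_lit 1) (nat_lit 0) (.cons (.rf (nat_lit 1345) (nat_lit 493858305440582043680)) (.cons (.rf (nat_lit 1345) (nat_lit 458117666300869282848)) (.cons (.rf (nat_lit 1345) (nat_lit 302467711680479562784)) (.cons (.rf (nat_lit 1345) (nat_lit 230986506996392495136)) .nil))))) (.cons (.rf (nat_lit 1341) (nat_lit 458117666300869282848)) .nil))))),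
 (.br (nat_lit 3) (nat_lit 0) (.cons (.rf (nat_lit 1296) (nat_lit 493858305440582011936)) (.cons (.rf (nat_lit 1333) (nat_lit 493858305440582011936)) (.cons (.rf (nat_lit 1346) (nat_lit 493858305440582043680)) (.cons (.br (nat_lit 3) (nat_lit 0) (.cons (.rf (nat_lit 1296) (nat_lit 493858305440582011936)) (.cons (.rf (nat_lit 1333) (nat_lit 493858305440582011936)) (.cons (.rf (nat_lit 1346) (nat_lit 493858305440582043680)) (.cons (.rf (nat_lit 1333) (nat_lit 302467711680479562784)) .nil))))) (.cons (.rf (nat_lit 1339) (nat_lit 493858305440582043680)) .nil)))))),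
 (.br (nat_lit 2) (nat_lit 0) (.cons (.rf (nat_lit 1296) (nat_lit 493858305440582043680)) (.cons (.rf (nat_lit 1296) (nat_lit 493858305440581979200)) (.cons (.rf (nat_lit 1333) (nat_lit 493858305440582043680)) (.cons (.rf (nat_lit 1341) (nat_lit 493858305440582043680)) (.cons (.br (nat_lit 3) (nat_lit 0) (.cons (.rf (nat_lit 1296) (nat_lit 493858305440582011936)) (.cons (.rf (nat_lit 1344) (nat_lit 493858305440582043680)) (.cons (.rf (nat_lit 1347) (nat_lit 493858305440582043680)) (.cons (.br (nat_lit 3) (nat_lit 0) (.cons (.rf (nat_lit 1296) (nat_lit 493858305440582011936)) (.cons (.rf (nat_lit 1344) (nat_lit 493858305440582043680)) (.cons (.rf (nat_lit 1347) (nat_lit 493858305440582043680)) (.cons (.rf (nat_lit 1347) (nat_lit 230986506996392495136)) (.cons (.rf (nat_lit 1344) (nat_lit 230986506996392495136)) .nil)))))) (.cons (.rf (nat_lit 1347) (nat_lit 230986506996392495136)) (.cons (.rf (nat_lit 1344) (nat_lit 230986506996392495136)) .nil))))))) .nil)))))),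
 (.br (nat_lit 2) (nat_lit 0) (.cons (.rf (nat_lit 1296) (nat_lit 493858305440582043680)) (.cons (.rf (nat_lit 1296) (nat_lit 493858305440581979200)) (.cons (.rf (nat_lit 1333) (nat_lit 493858305440582043680)) (.cons (.rf (nat_lit 1348) (nat_lit 493858305440582043680)) (.cons (.br (nat_lit 2) (nat_lit 0) (.cons (.rf (nat_lit 1296) (nat_lit 493858305440582043680)) (.cons (.rf (nat_lit 1296) (nat_lit 493858305440581979200)) (.cons (.rf (nat_lit 1333) (nat_lit 493858305440582043680)) (.cons (.rf (nat_lit 1348) (nat_lit 493858305440582043680)) (.cons (.rf (nat_lit 1333) (nat_lit 302467711680479594528)) .nil)))))) (.cons (.br (nat_lit 2) (nat_lit 0) (.cons (.rf (nat_lit 1296) (nat_lit 493858305440582043680)) (.cons (.rf (nat_lit 1296) (nat_lit 493858305440581979200)) (.cons (.rf (nat_lit 1333) (nat_lit 493858305440582043680)) (.cons (.rf (nat_lit 1348) (nat_lit 493858305440582043680)) (.cons (.rf (nat_lit 1333) (nat_lit 302467711680479594528)) .nil)))))) .nil))))))),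
 (.br (nat_lit 2) (nat_lit 0) (.cons (.rf (nat_lit 1296) (nat_lit 493858305440582043680)) (.cons (.rf (nat_lit 1296) (nat_lit 493858305440581979200)) (.cons (.rf (nat_lit 1349) (nat_lit 493858305440582043680)) (.cons (.rf (nat_lit 1349) (nat_lit 458117666300869314592)) (.cons (.br (nat_lit 2) (nat_lit 0) (.cons (.rf (nat_lit 1296) (nat_lit 493858305440582043680)) (.cons (.rf (nat_lit 1296) (nat_lit 493858305440581979200)) (.cons (.rf (nat_lit 1349) (nat_lit 493858305440582043680)) (.cons (.rf (nat_lit 1349) (nat_lit 458117666300869314592)) (.cons (.rf (nat_lit 1349) (nat_lit 302467711680479594528)) (.cons (.rf (nat_lit 1349) (nat_lit 230986506996392495136)) .nil))))))) (.cons (.rf (nat_lit 1349) (nat_lit 302467711680479594528)) (.cons (.rf (nat_lit 1349) (nat_lit 230986506996392495136)) .nil)))))))),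
 (.br (nat_lit 2) (nat_lit 0) (.cons (.ev (nat_lit 18519084246530850816) (nat_lit 1)) (.cons (.rf (nat_lit 636) (nat_lit 12309783217216)) (.cons (.br (nat_lit 3) (nat_lit 0) (.cons (.br (nat_lit 3) (nat_lit 0) (.cons (.ev (nat_lit 122011990455635413648918863414790) (nat_lit 3)) .nil)) (.cons (.br (nat_lit 3) (nat_lit 0) (.cons (.ev (nat_lit 122011990455635413648918863414790) (nat_lit 3)) .nil)) .nil))) .nil)))),
 (.br (nat_lit 2) (nat_lit 0) (.cons (.rf (nat_lit 1296) (nat_lit 493858305440581979200)) (.cons (.rf (nat_lit 636) (nat_lit 12309783217216)) (.cons (.br (nat_lit 13) (nat_lit 0) (.cons (.ev (nat_lit 20361638979814120859043910189313) (nat_lit 1)) (.cons (.zr (nat_lit 81129649318551252055669900051972) (nat_lit 320007500229057785061433671680) (nat_lit 10) (nat_lit 11)) .nil))) .nil))))]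

theorem c49 : chkAll C T R L49 (nat_lit 1327) = true := by decide +kernel

theorem l49 : (nat_lit 1327) + L49.length = (nat_lit 1353) := by decide +kernel

/-- part of the certificates -/
def L50 : List Prf := [(.br (nat_lit 2) (nat_lit 0) (.cons (.rf (nat_lit 1296) (nat_lit 493858305440581979200)) (.cons (.rf (nat_lit 1351) (nat_lit 493858305440582043680)) (.cons (.rf (nat_lit 1352) (nat_lit 493858305440582043680)) (.cons (.br (nat_lit 2) (nat_lit 0) (.cons (.rf (nat_lit 1296) (nat_lit 493858305440581979200)) (.cons (.rf (nat_lit 1351) (nat_lit 493858305440582043680)) (.cons (.rf (nat_lit 1352) (nat_lit 493858305440582043680)) .nil)))) .nil))))),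
 (.br (nat_lit 4) (nat_lit 0) (.cons (.rf (nat_lit 1350) (nat_lit 493858305440582042688)) (.cons (.rf (nat_lit 1350) (nat_lit 493858305440582009952)) (.cons (.ev (nat_lit 309485028268371721217638401) (nat_lit 1)) (.cons (.rf (nat_lit 1353) (nat_lit 493858305440582043680)) (.cons (.rf (nat_lit 1353) (nat_lit 458117666300869282848)) .nil)))))),
 (.br (nat_lit 4) (nat_lit 0) (.cons (.ev (nat_lit 20282720302328124611692312199168) (nat_lit 1)) .nil)),
 (.br (nat_lit 2) (nat_lit 0) (.cons (.kr (nat_lit 4722438541563194769410) (nat_lit 620178945462304766624399360) (nat_lit 0) (nat_lit 1)) (.cons (.rf (nat_lit 1355) (nat_lit 493858305440582043680)) (.cons (.rf (nat_lit 1355) (nat_lit 458117666300869314592)) .nil)))),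
 (.br (nat_lit 3) (nat_lit 0) (.cons (.rf (nat_lit 1296) (nat_lit 493858305440581979200)) (.cons (.rf (nat_lit 1350) (nat_lit 493858305440582009952)) (.cons (.rf (nat_lit 1354) (nat_lit 493858305440582043680)) (.cons (.br (nat_lit 2) (nat_lit 0) (.cons (.rf (nat_lit 1350) (nat_lit 493858305440582042688)) (.cons (.rf (nat_lit 1356) (nat_lit 493858305440582043680)) (.cons (.br (nat_lit 2) (nat_lit 0) (.cons (.ev (nat_lit 79228167236703159536515612928) (nat_lit 1)) (.cons (.rf (nat_lit 1355) (nat_lit 493858305440582043680)) (.cons (.rf (nat_lit 1355) (nat_lit 302467711680479529056)) .nil)))) (.cons (.br (nat_lit 2) (nat_lit 0) (.cons (.rf (nat_lit 1350) (nat_lit 493858305440582042688)) (.cons (.rf (nat_lit 1355) (nat_lit 458117666300869314592)) (.cons (.rf (nat_lit 1355) (nat_lit 302467711680479529056)) .nil)))) .nil))))) .nil))))),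
 (.br (nat_lit 3) (nat_lit 0) (.cons (.rf (nat_lit 1296) (nat_lit 493858305440581979200)) (.cons (.rf (nat_lit 1350) (nat_lit 493858305440582009952)) (.cons (.rf (nat_lit 1354) (nat_lit 493858305440582043680)) (.cons (.rf (nat_lit 1357) (nat_lit 493858305440582043680)) (.cons (.br (nat_lit 3) (nat_lit 0) (.cons (.rf (nat_lit 1296) (nat_lit 493858305440581979200)) (.cons (.rf (nat_lit 1350) (nat_lit 493858305440582009952)) (.cons (.rf (nat_lit 1354) (nat_lit 493858305440582043680)) (.cons (.rf (nat_lit 1357) (nat_lit 493858305440582043680)) .nil))))) .nil)))))),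
 (.br (nat_lit 3) (nat_lit 0) (.cons (.rf (nat_lit 1296) (nat_lit 493858305440581979200)) (.cons (.rf (nat_lit 1350) (nat_lit 493858305440582009952)) (.cons (.rf (nat_lit 1354) (nat_lit 493858305440582043680)) (.cons (.rf (nat_lit 1358) (nat_lit 493858305440582043680)) (.cons (.br (nat_lit 3) (nat_lit 0) (.cons (.rf (nat_lit 1296) (nat_lit 493858305440581979200)) (.cons (.rf (nat_lit 1350) (nat_lit 493858305440582009952)) (.cons (.rf (nat_lit 1354) (nat_lit 493858305440582043680)) (.cons (.rf (nat_lit 1358) (nat_lit 493858305440582043680)) .nil))))) .nil)))))),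
 (.br (nat_lit 3) (nat_lit 0) (.cons (.rf (nat_lit 1296) (nat_lit 493858305440581979200)) (.cons (.rf (nat_lit 1350) (nat_lit 493858305440582009952)) (.cons (.rf (nat_lit 1354) (nat_lit 493858305440582043680)) (.cons (.rf (nat_lit 1358) (nat_lit 493858305440582043680)) (.cons (.rf (nat_lit 1359) (nat_lit 493858305440582043680)) (.cons (.br (nat_lit 3) (nat_lit 0) (.cons (.rf (nat_lit 1296) (nat_lit 493858305440581979200)) (.cons (.rf (nat_lit 1350) (nat_lit 493858305440582009952)) (.cons (.rf (nat_lit 1354) (nat_lit 493858305440582043680)) (.cons (.rf (nat_lit 1358) (nat_lit 493858305440582043680)) (.cons (.rf (nat_lit 1359) (nat_lit 493858305440582043680)) .nil)))))) .nil))))))),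
 (.br (nat_lit 3) (nat_lit 0) (.cons (.rf (nat_lit 1296) (nat_lit 493858305440581979200)) (.cons (.rf (nat_lit 1350) (nat_lit 493858305440582009952)) (.cons (.rf (nat_lit 1360) (nat_lit 493858305440582011936)) (.cons (.rf (nat_lit 1360) (nat_lit 458117666300869282848)) (.cons (.br (nat_lit 3) (nat_lit 0) (.cons (.rf (nat_lit 1296) (nat_lit 493858305440581979200)) (.cons (.kr (nat_lit 1213648258155092857847810) (nat_lit 618970019642691236994744320) (nat_lit 0) (nat_lit 1)) (.cons (.rf (nat_lit 1360) (nat_lit 493858305440582011936)) (.cons (.rf (nat_lit 1360) (nat_lit 458117666300869282848)) .nil))))) .nil)))))),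
 (.br (nat_lit 3) (nat_lit 0) (.cons (.rf (nat_lit 1296) (nat_lit 493858305440581979200)) (.cons (.rf (nat_lit 1350) (nat_lit 493858305440582009952)) (.cons (.rf (nat_lit 1360) (nat_lit 493858305440582011936)) (.cons (.rf (nat_lit 1360) (nat_lit 458117666300869282848)) (.cons (.rf (nat_lit 1361) (nat_lit 493858305440582043680)) (.cons (.rf (nat_lit 1361) (nat_lit 458117666300869314592)) .nil))))))),
 (.br (nat_lit 2) (nat_lit 0) (.cons (.rf (nat_lit 1296) (nat_lit 493858305440581979200)) (.cons (.rf (nat_lit 1350) (nat_lit 493858305440582042688)) (.cons (.rf (nat_lit 1360) (nat_lit 493858305440582043680)) (.cons (.rf (nat_lit 1360) (nat_lit 458117666300869314592)) (.cons (.rf (nat_lit 1362) (nat_lit 493858305440582043680)) (.cons (.br (nat_lit 2) (nat_lit 0) (.cons (.rf (nat_lit 1296) (nat_lit 493858305440581979200)) (.cons (.rf (nat_lit 1350) (nat_lit 493858305440582042688)) (.cons (.rf (nat_lit 1360) (nat_lit 493858305440582043680)) (.cons (.rf (nat_lit 1360) (nat_lit 458117666300869314592)) (.cons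 (.rf (nat_lit 1362) (nat_lit 493858305440582043680)) .nil)))))) .nil))))))),
 (.br (nat_lit 2) (nat_lit 0) (.cons (.rf (nat_lit 1296) (nat_lit 493858305440581979200)) (.cons (.rf (nat_lit 1350) (nat_lit 493858305440582042688)) (.cons (.rf (nat_lit 1360) (nat_lit 493858305440582043680)) (.cons (.rf (nat_lit 1360) (nat_lit 458117666300869314592)) (.cons (.rf (nat_lit 1362) (nat_lit 493858305440582043680)) (.cons (.rf (nat_lit 1363) (nat_lit 493858305440582043680)) (.cons (.rf (nat_lit 1363) (nat_lit 458117666300869314592)) .nil)))))))),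
 (.br (nat_lit 4) (nat_lit 0) (.cons (.ev (nat_lit 18519084246547562753) (nat_lit 1)) (.cons (.br (nat_lit 3) (nat_lit 0) (.cons (.ev (nat_lit 1858133225851411943133675520) (nat_lit 3)) .nil)) (.cons (.ev (nat_lit 20282719088680010570688018514176) (nat_lit 1)) .nil)))),
 (.br (nat_lit 3) (nat_lit 0) (.cons (.rf (nat_lit 1350) (nat_lit 493858305440582009952)) (.cons (.rf (nat_lit 1365) (nat_lit 493858305440582043680)) (.cons (.br (nat_lit 4) (nat_lit 0) (.cons (.ev (nat_lit 202825335199796987616011563433990) (nat_lit 4)) .nil)) .nil)))),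
 (.br (nat_lit 2) (nat_lit 0) (.cons (.rf (nat_lit 1296) (nat_lit 493858305440581979200)) (.cons (.rf (nat_lit 1350) (nat_lit 493858305440582042688)) (.cons (.br (nat_lit 4) (nat_lit 0) (.cons (.ev (nat_lit 18519084246530850816) (nat_lit 1)) (.cons (.rf (nat_lit 636) (nat_lit 13409261290560)) (.cons (.br (nat_lit 3) (nat_lit 0) (.cons (.br (nat_lit 3) (nat_lit 0) (.cons (.ev (nat_lit 20282720297605830186416721690880) (nat_lit 1)) .nil)) (.cons (.br (nat_lit 3) (nat_lit 0) (.cons (.ev (nat_lit 20282720297605830186416721690880) (nat_lit 1)) .nil)) .nil))) .nil)))) (.cons (.br (nat_lit 3) (nat_lit 0) (.cons (.rf (nat_lit 1350) (nat_lit 493858305440582009952)) (.cons (.rf (nat_lit 1365) (nat_lit 493858305440582043680)) (.cons (.rf (nat_lit 1366) (nat_lit 493858305440582043680)) (.cons (.br (nat_lit 3) (nat_lit 0) (.cons (.rf (nat_lit 1350) (nat_lit 493858305440582009952)) (.cons (.rf (nat_lit 1365) (nat_lit 493858305440582043680)) (.cons (.rf (nat_lit 1366) (nat_lit 493858305440582043680)) .nil)))) .nil)))))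 .nil))))),
 (.br (nat_lit 2) (nat_lit 0) (.cons (.rf (nat_lit 1296) (nat_lit 493858305440581979200)) (.cons (.ev (nat_lit 79229376162522775265185169408) (nat_lit 1)) (.cons (.rf (nat_lit 1367) (nat_lit 493858305440582043680)) (.cons (.br (nat_lit 4) (nat_lit 0) (.cons (.ev (nat_lit 79229371440084234801502028033) (nat_lit 1)) (.cons (.br (nat_lit 3) (nat_lit 0) (.cons (.br (nat_lit 3) (nat_lit 0) (.cons (.ev (nat_lit 20282720297605830186416721690880) (nat_lit 1)) .nil)) (.cons (.br (nat_lit 3) (nat_lit 0) (.cons (.ev (nat_lit 20282720297605830186416721690880) (nat_lit 1)) .nil)) .nil))) (.cons (.rf (nat_lit 636) (nat_lit 13409328399424)) .nil)))) .nil))))),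
 (.br (nat_lit 2) (nat_lit 0) (.cons (.rf (nat_lit 1296) (nat_lit 493858305440581979200)) (.cons (.rf (nat_lit 1350) (nat_lit 493858305440582042688)) (.cons (.rf (nat_lit 1367) (nat_lit 493858305440582043680)) (.cons (.rf (nat_lit 1368) (nat_lit 493858305440582043680)) (.cons (.br (nat_lit 2) (nat_lit 0) (.cons (.rf (nat_lit 1296) (nat_lit 493858305440581979200)) (.cons (.rf (nat_lit 1350) (nat_lit 493858305440582042688)) (.cons (.rf (nat_lit 1367) (nat_lit 493858305440582043680)) (.cons (.rf (nat_lit 1368) (nat_lit 493858305440582043680)) .nil))))) .nil)))))),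
 (.br (nat_lit 3) (nat_lit 0) (.cons (.rf (nat_lit 1296) (nat_lit 493858305440581979200)) (.cons (.rf (nat_lit 1350) (nat_lit 493858305440582009952)) (.cons (.rf (nat_lit 1369) (nat_lit 493858305440582043680)) (.cons (.br (nat_lit 3) (nat_lit 0) (.cons (.rf (nat_lit 1296) (nat_lit 493858305440581979200)) (.cons (.rf (nat_lit 1350) (nat_lit 493858305440582009952)) (.cons (.rf (nat_lit 1369) (nat_lit 493858305440582043680)) (.cons (.rf (nat_lit 1364) (nat_lit 302467711680479560800)) .nil))))) (.cons (.br (nat_lit 3) (nat_lit 0) (.cons (.rf (nat_lit 1296) (nat_lit 493858305440581979200)) (.cons (.rf (nat_lit 1350) (nat_lit 493858305440582009952)) (.cons (.rf (nat_lit 1369) (nat_lit 493858305440582043680)) (.cons (.rf (nat_lit 1364) (nat_lit 302467711680479560800)) .nil))))) .nil)))))),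
 (.br (nat_lit 3) (nat_lit 0) (.cons (.rf (nat_lit 1296) (nat_lit 493858305440581979200)) (.cons (.rf (nat_lit 1350) (nat_lit 493858305440582009952)) (.cons (.rf (nat_lit 1369) (nat_lit 493858305440582043680)) (.cons (.rf (nat_lit 1370) (nat_lit 493858305440582043680)) (.cons (.br (nat_lit 3) (nat_lit 0) (.cons (.rf (nat_lit 1296) (nat_lit 493858305440581979200)) (.cons (.rf (nat_lit 1350) (nat_lit 493858305440582009952)) (.cons (.rf (nat_lit 1369) (nat_lit 493858305440582043680)) (.cons (.rf (nat_lit 1364) (nat_lit 302467711680479560800)) .nil))))) .nil)))))),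
 (.br (nat_lit 3) (nat_lit 0) (.cons (.rf (nat_lit 1296) (nat_lit 493858305440581979200)) (.cons (.rf (nat_lit 1350) (nat_lit 493858305440582009952)) (.cons (.rf (nat_lit 1369) (nat_lit 493858305440582043680)) (.cons (.rf (nat_lit 1370) (nat_lit 493858305440582043680)) (.cons (.rf (nat_lit 1371) (nat_lit 493858305440582043680)) (.cons (.br (nat_lit 3) (nat_lit 0) (.cons (.rf (nat_lit 1296) (nat_lit 493858305440581979200)) (.cons (.rf (nat_lit 1350) (nat_lit 493858305440582009952)) (.cons (.rf (nat_lit 1369) (nat_lit 493858305440582043680)) (.cons (.rf (nat_lit 1370) (nat_lit 493858305440582043680)) (.cons (.rf (nat_lit 1371) (nat_lit 493858305440582043680)) .nil)))))) .nil))))))),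
 (.br (nat_lit 3) (nat_lit 0) (.cons (.rf (nat_lit 1296) (nat_lit 493858305440581979200)) (.cons (.rf (nat_lit 1350) (nat_lit 493858305440582009952)) (.cons (.rf (nat_lit 1372) (nat_lit 493858305440582011936)) (.cons (.br (nat_lit 3) (nat_lit 0) (.cons (.rf (nat_lit 1296) (nat_lit 493858305440581979200)) (.cons (.rf (nat_lit 1350) (nat_lit 493858305440582009952)) (.cons (.rf (nat_lit 1372) (nat_lit 493858305440582011936)) (.cons (.rf (nat_lit 1364) (nat_lit 302467711680479560800)) .nil))))) (.cons (.br (nat_lit 3) (nat_lit 0) (.cons (.rf (nat_lit 1296) (nat_lit 493858305440581979200)) (.cons (.rf (nat_lit 1350) (nat_lit 493858305440582009952)) (.cons (.rf (nat_lit 1372) (nat_lit 493858305440582011936)) (.cons (.rf (nat_lit 1364) (nat_lit 302467711680479560800)) .nil))))) .nil)))))),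
 (.br (nat_lit 3) (nat_lit 0) (.cons (.rf (nat_lit 1296) (nat_lit 493858305440581979200)) (.cons (.rf (nat_lit 1350) (nat_lit 493858305440582009952)) (.cons (.rf (nat_lit 1372) (nat_lit 493858305440582011936)) (.cons (.rf (nat_lit 1373) (nat_lit 493858305440582043680)) (.cons (.br (nat_lit 3) (nat_lit 0) (.cons (.rf (nat_lit 1296) (nat_lit 493858305440581979200)) (.cons (.rf (nat_lit 1350) (nat_lit 493858305440582009952)) (.cons (.rf (nat_lit 1372) (nat_lit 493858305440582011936)) (.cons (.rf (nat_lit 1364) (nat_lit 302467711680479560800)) .nil))))) .nil)))))),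
 (.br (nat_lit 3) (nat_lit 0) (.cons (.rf (nat_lit 1296) (nat_lit 493858305440581979200)) (.cons (.rf (nat_lit 1350) (nat_lit 493858305440582009952)) (.cons (.rf (nat_lit 1372) (nat_lit 493858305440582011936)) (.cons (.rf (nat_lit 1373) (nat_lit 493858305440582043680)) (.cons (.rf (nat_lit 1374) (nat_lit 493858305440582043680)) (.cons (.br (nat_lit 3) (nat_lit 0) (.cons (.rf (nat_lit 1296) (nat_lit 493858305440581979200)) (.cons (.rf (nat_lit 1350) (nat_lit 493858305440582009952)) (.cons (.rf (nat_lit 1372) (nat_lit 493858305440582011936)) (.cons (.rf (nat_lit 1373) (nat_lit 493858305440582043680)) (.cons (.rf (nat_lit 1374) (nat_lit 493858305440582043680)) .nil)))))) .nil))))))),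
 (.br (nat_lit 2) (nat_lit 0) (.cons (.rf (nat_lit 1296) (nat_lit 493858305440581979200)) (.cons (.rf (nat_lit 1350) (nat_lit 493858305440582042688)) (.cons (.rf (nat_lit 1372) (nat_lit 493858305440582043680)) (.cons (.rf (nat_lit 1375) (nat_lit 493858305440582043680)) (.cons (.br (nat_lit 2) (nat_lit 0) (.cons (.rf (nat_lit 1296) (nat_lit 493858305440581979200)) (.cons (.rf (nat_lit 1350) (nat_lit 493858305440582042688)) (.cons (.rf (nat_lit 1372) (nat_lit 493858305440582043680)) (.cons (.rf (nat_lit 1375) (nat_lit 493858305440582043680)) (.cons (.rf (nat_lit 1364) (nat_lit 302467711680479593536)) .nil)))))) (.cons (.br (nat_lit 2) (nat_lit 0) (.cons (.rf (nat_lit 1296) (nat_lit 493858305440581979200)) (.cons (.rf (nat_lit 1350) (nat_lit 493858305440582042688)) (.cons (.rf (nat_lit 1372) (nat_lit 493858305440582043680)) (.cons (.rf (nat_lit 1375) (nat_lit 493858305440582043680)) (.cons (.rf (nat_lit 1364) (nat_lit 302467711680479593536)) .nil)))))) .nil)))))))]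

theorem c50 : chkAll C T R L50 (nat_lit 1353) = true := by decide +kernel

theorem l50 : (nat_lit 1353) + L50.length = (nat_lit 1377) := by decide +kernel

/-- part of the certificates -/
def L51 : List Prf := [(.br (nat_lit 3) (nat_lit 0) (.cons (.rf (nat_lit 1296) (nat_lit 493858305440581979200)) (.cons (.rf (nat_lit 1350) (nat_lit 493858305440582009952)) (.cons (.rf (nat_lit 1372) (nat_lit 493858305440582011936)) (.cons (.rf (nat_lit 1375) (nat_lit 493858305440582011936)) (.cons (.rf (nat_lit 1376) (nat_lit 493858305440582011936)) (.cons (.br (nat_lit 3) (nat_lit 0) (.cons (.rf (nat_lit 1296) (nat_lit 493858305440581979200)) (.cons (.rf (nat_lit 1350) (nat_lit 493858305440582009952)) (.cons (.rf (nat_lit 1372) (nat_lit 493858305440582011936)) (.cons (.rf (nat_lit 1375) (nat_lit 493858305440582011936)) (.cons (.rf (nat_lit 1376) (nat_lit 493858305440582011936)) .nil)))))) .nil))))))),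
 (.br (nat_lit 2) (nat_lit 0) (.cons (.rf (nat_lit 1296) (nat_lit 493858305440581979200)) (.cons (.rf (nat_lit 1350) (nat_lit 493858305440582042688)) (.cons (.rf (nat_lit 1372) (nat_lit 493858305440582043680)) (.cons (.rf (nat_lit 1375) (nat_lit 493858305440582043680)) (.cons (.rf (nat_lit 1376) (nat_lit 493858305440582043680)) (.cons (.rf (nat_lit 1377) (nat_lit 493858305440582043680)) (.cons (.br (nat_lit 2) (nat_lit 0) (.cons (.rf (nat_lit 1296) (nat_lit 493858305440581979200)) (.cons (.rf (nat_lit 1350) (nat_lit 493858305440582042688)) (.cons (.rf (nat_lit 1372) (nat_lit 493858305440582043680)) (.cons (.rf (nat_lit 1375) (nat_lit 493858305440582043680)) (.cons (.rf (nat_lit 1376) (nat_lit 493858305440582043680)) (.cons (.rf (nat_lit 1377) (nat_lit 493858305440582043680)) .nil))))))) .nil)))))))),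
 (.br (nat_lit 1) (nat_lit 0) (.cons (.rf (nat_lit 1296) (nat_lit 493858305440582043680)) (.cons (.rf (nat_lit 1296) (nat_lit 493858305440582011936)) (.cons (.rf (nat_lit 1350) (nat_lit 493858305440582043680)) (.cons (.rf (nat_lit 1364) (nat_lit 493858305440582043680)) (.cons (.rf (nat_lit 1378) (nat_lit 493858305440582043680)) (.cons (.rf (nat_lit 1378) (nat_lit 458117666300869314592)) .nil))))))),
 (.br (nat_lit 3) (nat_lit 0) (.cons (.ev (nat_lit 318770792653998871347783140868) (nat_lit 3)) (.cons (.br (nat_lit 3) (nat_lit 0) (.cons (.ev (nat_lit 318770792653998871347783140868) (nat_lit 3)) .nil)) .nil))),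
 (.br (nat_lit 2) (nat_lit 0) (.cons (.rf (nat_lit 1296) (nat_lit 493858305440581979200)) (.cons (.rf (nat_lit 1350) (nat_lit 493858305440582042688)) (.cons (.rf (nat_lit 1379) (nat_lit 493858305440582042688)) (.cons (.br (nat_lit 4) (nat_lit 0) (.cons (.ev (nat_lit 79538861172272062739871956993) (nat_lit 1)) (.cons (.rf (nat_lit 642) (nat_lit 13580892211232)) (.cons (.rf (nat_lit 642) (nat_lit 13586260920352)) .nil)))) (.cons (.br (nat_lit 4) (nat_lit 0) (.cons (.rf (nat_lit 1350) (nat_lit 493858305440582009952)) (.cons (.br (nat_lit 3) (nat_lit 0) (.cons (.rf (nat_lit 1380) (nat_lit 493858305440582043680)) (.cons (.ev (nat_lit 318770792653998871347783140868) (nat_lit 3)) (.cons (.br (nat_lit 3) (nat_lit 0) (.cons (.rf (nat_lit 1380) (nat_lit 493858305440582043680)) (.cons (.ev (nat_lit 318770792653998871347783140868) (nat_lit 3)) .nil))) .nil)))) (.cons (.rf (nat_lit 636) (nat_lit 12315151927328)) (.cons (.rf (nat_lit 636) (nat_lit 12314111738944)) .nil))))) .nil)))))),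
 (.br (nat_lit 2) (nat_lit 0) (.cons (.rf (nat_lit 1296) (nat_lit 493858305440581979200)) (.cons (.rf (nat_lit 1350) (nat_lit 493858305440582042688)) (.cons (.rf (nat_lit 1379) (nat_lit 493858305440582042688)) (.cons (.rf (nat_lit 1381) (nat_lit 493858305440582043680)) (.cons (.br (nat_lit 2) (nat_lit 0) (.cons (.rf (nat_lit 1296) (nat_lit 493858305440581979200)) (.cons (.ev (nat_lit 79229376162522775265185169408) (nat_lit 1)) (.cons (.rf (nat_lit 1379) (nat_lit 493858305440582042688)) (.cons (.rf (nat_lit 1381) (nat_lit 493858305440582043680)) (.cons (.rf (nat_lit 1379) (nat_lit 302467711680479593536)) .nil)))))) (.cons (.br (nat_lit 2) (nat_lit 0) (.cons (.rf (nat_lit 1296) (nat_lit 493858305440581979200)) (.cons (.rf (nat_lit 1350) (nat_lit 493858305440582042688)) (.cons (.rf (nat_lit 1379) (nat_lit 493858305440582042688)) (.cons (.rf (nat_lit 1381) (nat_lit 493858305440582043680)) (.cons (.rf (nat_lit 1379) (nat_lit 302467711680479593536)) .nil)))))) .nil))))))),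
 (.br (nat_lit 2) (nat_lit 0) (.cons (.rf (nat_lit 1296) (nat_lit 493858305440581979200)) (.cons (.rf (nat_lit 1350) (nat_lit 493858305440582042688)) (.cons (.rf (nat_lit 1379) (nat_lit 493858305440582042688)) (.cons (.rf (nat_lit 1382) (nat_lit 302467711680479594528)) (.cons (.br (nat_lit 3) (nat_lit 0) (.cons (.rf (nat_lit 1350) (nat_lit 493858305440582009952)) (.cons (.rf (nat_lit 1382) (nat_lit 493858305440582011936)) (.cons (.rf (nat_lit 1382) (nat_lit 458117666300869250112)) (.cons (.rf (nat_lit 1382) (nat_lit 302467711680479562784)) (.cons (.rf (nat_lit 1382) (nat_lit 230986506996392430656)) .nil)))))) .nil)))))),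
 (.br (nat_lit 2) (nat_lit 0) (.cons (.rf (nat_lit 1296) (nat_lit 493858305440581979200)) (.cons (.rf (nat_lit 1350) (nat_lit 493858305440582042688)) (.cons (.rf (nat_lit 1379) (nat_lit 493858305440582042688)) (.cons (.rf (nat_lit 1383) (nat_lit 493858305440582043680)) (.cons (.rf (nat_lit 1382) (nat_lit 302467711680479594528)) (.cons (.br (nat_lit 2) (nat_lit 0) (.cons (.rf (nat_lit 1296) (nat_lit 493858305440581979200)) (.cons (.rf (nat_lit 1350) (nat_lit 493858305440582042688)) (.cons (.rf (nat_lit 1379) (nat_lit 493858305440582042688)) (.cons (.rf (nat_lit 1383) (nat_lit 493858305440582043680)) (.cons (.rf (nat_lit 1379) (nat_lit 302467711680479593536)) .nil)))))) .nil))))))),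
 (.br (nat_lit 2) (nat_lit 0) (.cons (.rf (nat_lit 1296) (nat_lit 493858305440581979200)) (.cons (.rf (nat_lit 1350) (nat_lit 493858305440582042688)) (.cons (.rf (nat_lit 1382) (nat_lit 493858305440582043680)) (.cons (.rf (nat_lit 1384) (nat_lit 493858305440582043680)) (.cons (.br (nat_lit 3) (nat_lit 0) (.cons (.rf (nat_lit 1296) (nat_lit 493858305440581979200)) (.cons (.rf (nat_lit 1350) (nat_lit 493858305440582009952)) (.cons (.rf (nat_lit 1382) (nat_lit 493858305440582011936)) (.cons (.rf (nat_lit 1384) (nat_lit 493858305440582011936)) (.cons (.rf (nat_lit 1382) (nat_lit 302467711680479562784)) (.cons (.rf (nat_lit 1384) (nat_lit 302467711680479562784)) .nil))))))) (.cons (.rf (nat_lit 1382) (nat_lit 302467711680479594528)) (.cons (.rf (nat_lit 1384) (nat_lit 302467711680479594528)) .nil)))))))),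
 (.br (nat_lit 2) (nat_lit 0) (.cons (.rf (nat_lit 1296) (nat_lit 493858305440582043680)) (.cons (.rf (nat_lit 1296) (nat_lit 493858305440581979200)) (.cons (.rf (nat_lit 1350) (nat_lit 493858305440582042688)) (.cons (.rf (nat_lit 1379) (nat_lit 493858305440582042688)) (.cons (.rf (nat_lit 1385) (nat_lit 493858305440582042688)) (.cons (.rf (nat_lit 1379) (nat_lit 302467711680479593536)) .nil))))))),
 (.br (nat_lit 2) (nat_lit 0) (.cons (.rf (nat_lit 1296) (nat_lit 493858305440582043680)) (.cons (.rf (nat_lit 1296) (nat_lit 493858305440581979200)) (.cons (.rf (nat_lit 1350) (nat_lit 493858305440582042688)) (.cons (.rf (nat_lit 1379) (nat_lit 493858305440582042688)) (.cons (.br (nat_lit 1) (nat_lit 0) (.cons (.rf (nat_lit 1296) (nat_lit 493858305440582011936)) (.cons (.rf (nat_lit 1350) (nat_lit 493858305440582043680)) (.cons (.rf (nat_lit 1379) (nat_lit 493858305440582043680)) (.cons (.rf (nat_lit 1386) (nat_lit 493858305440582042688)) (.cons (.br (nat_lit 4) (nat_lit 0) (.cons (.rf (nat_lit 1350) (nat_lit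 493858305440582009952)) (.cons (.rf (nat_lit 642) (nat_lit 14680403839008)) (.cons (.rf (nat_lit 642) (nat_lit 14684698806304)) .nil)))) .nil)))))) (.cons (.rf (nat_lit 1379) (nat_lit 302467711680479593536)) .nil))))))),
 (.br (nat_lit 2) (nat_lit 0) (.cons (.rf (nat_lit 1296) (nat_lit 493858305440581979200)) (.cons (.rf (nat_lit 1350) (nat_lit 493858305440582042688)) (.cons (.rf (nat_lit 1379) (nat_lit 493858305440582042688)) (.cons (.rf (nat_lit 1387) (nat_lit 493858305440582042688)) (.cons (.rf (nat_lit 1386) (nat_lit 493858305440582043680)) (.cons (.rf (nat_lit 1387) (nat_lit 493858305440582043680)) .nil))))))),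
 (.br (nat_lit 2) (nat_lit 0) (.cons (.rf (nat_lit 1296) (nat_lit 493858305440581979200)) (.cons (.rf (nat_lit 1350) (nat_lit 493858305440582042688)) (.cons (.rf (nat_lit 1379) (nat_lit 493858305440582042688)) (.cons (.br (nat_lit 3) (nat_lit 0) (.cons (.rf (nat_lit 1350) (nat_lit 493858305440582009952)) (.cons (.rf (nat_lit 1388) (nat_lit 493858305440582011936)) (.cons (.rf (nat_lit 1388) (nat_lit 458117666300869250112)) (.cons (.rf (nat_lit 1388) (nat_lit 302467711680479530048)) (.cons (.rf (nat_lit 1388) (nat_lit 230986506996392463392)) .nil)))))) (.cons (.rf (nat_lit 1386) (nat_lit 458117666300869314592)) .nil)))))),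
 (.br (nat_lit 2) (nat_lit 0) (.cons (.rf (nat_lit 1296) (nat_lit 493858305440581979200)) (.cons (.rf (nat_lit 1350) (nat_lit 493858305440582042688)) (.cons (.rf (nat_lit 1379) (nat_lit 493858305440582042688)) (.cons (.rf (nat_lit 1389) (nat_lit 493858305440582043680)) (.cons (.br (nat_lit 2) (nat_lit 0) (.cons (.rf (nat_lit 1296) (nat_lit 493858305440581979200)) (.cons (.rf (nat_lit 1350) (nat_lit 493858305440582042688)) (.cons (.rf (nat_lit 1379) (nat_lit 493858305440582042688)) (.cons (.rf (nat_lit 1389) (nat_lit 493858305440582043680)) (.cons (.rf (nat_lit 1379) (nat_lit 302467711680479593536)) .nil)))))) (.cons (.rf (nat_lit 1386) (nat_lit 458117666300869314592)) .nil))))))),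
 (.br (nat_lit 1) (nat_lit 0) (.cons (.rf (nat_lit 1296) (nat_lit 493858305440582043680)) (.cons (.rf (nat_lit 1296) (nat_lit 493858305440582011936)) (.cons (.rf (nat_lit 1350) (nat_lit 493858305440582043680)) (.cons (.rf (nat_lit 1379) (nat_lit 493858305440582043680)) (.cons (.rf (nat_lit 1386) (nat_lit 493858305440582042688)) (.cons (.br (nat_lit 2) (nat_lit 0) (.cons (.rf (nat_lit 1296) (nat_lit 493858305440581979200)) (.cons (.rf (nat_lit 1350) (nat_lit 493858305440582042688)) (.cons (.rf (nat_lit 1388) (nat_lit 493858305440582043680)) (.cons (.rf (nat_lit 1390) (nat_lit 493858305440582043680)) (.cons (.br (nat_lit 3) (nat_lit 0) (.cons (.rf (nat_lit 1296) (nat_lit 493858305440581979200)) (.cons (.rf (nat_lit 1350) (nat_lit 493858305440582009952)) (.cons (.rf (nat_lit 1388) (nat_lit 493858305440582011936)) (.cons (.rf (nat_lit 1390) (nat_lit 493858305440582011936)) (.cons (.rf (nat_lit 1390) (nat_lit 230986506996392463392)) (.cons (.rf (nat_lit 1388) (nat_lit 230986506996392463392)) .nil)))))))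 (.cons (.rf (nat_lit 1390) (nat_lit 230986506996392495136)) (.cons (.rf (nat_lit 1388) (nat_lit 230986506996392495136)) .nil)))))))) .nil))))))),
 (.br (nat_lit 1) (nat_lit 0) (.cons (.rf (nat_lit 1296) (nat_lit 493858305440582043680)) (.cons (.rf (nat_lit 1296) (nat_lit 493858305440582011936)) (.cons (.rf (nat_lit 1350) (nat_lit 493858305440582043680)) (.cons (.rf (nat_lit 1379) (nat_lit 493858305440582043680)) (.cons (.rf (nat_lit 1391) (nat_lit 493858305440582043680)) (.cons (.rf (nat_lit 1386) (nat_lit 493858305440582042688)) (.cons (.br (nat_lit 1) (nat_lit 0) (.cons (.rf (nat_lit 1296) (nat_lit 493858305440582043680)) (.cons (.rf (nat_lit 1296) (nat_lit 493858305440582011936)) (.cons (.rf (nat_lit 1350) (nat_lit 493858305440582043680)) (.cons (.rf (nat_lit 1379) (nat_lit 493858305440582043680)) (.cons (.rf (nat_lit 1391) (nat_lit 493858305440582043680)) (.cons (.rf (nat_lit 1379) (nat_lit 302467711680479594528)) .nil))))))) .nil)))))))),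
 (.br (nat_lit 12) (nat_lit 1) (.cons (.rf (nat_lit 1) (nat_lit 12889318)) (.cons (.br (nat_lit 9) (nat_lit 0) (.cons (.br (nat_lit 13) (nat_lit 1) (.cons (.br (nat_lit 1) (nat_lit 0) (.cons (.rf (nat_lit 1296) (nat_lit 493858305440582043680)) (.cons (.rf (nat_lit 1296) (nat_lit 493858305440582011936)) (.cons (.rf (nat_lit 1350) (nat_lit 493858305440582043680)) (.cons (.rf (nat_lit 1392) (nat_lit 493858305440582043680)) (.cons (.rf (nat_lit 1392) (nat_lit 458117666300869314592)) (.cons (.br (nat_lit 1) (nat_lit 0) (.cons (.rf (nat_lit 1296) (nat_lit 493858305440582043680)) (.cons (.rf (nat_lit 1296) (nat_lit 493858305440582011936)) (.cons (.rf (nat_lit 1350) (nat_lit 493858305440582043680)) (.cons (.rf (nat_lit 1392) (nat_lit 493858305440582043680)) (.cons (.rf (nat_lit 1392) (nat_lit 458117666300869314592)) (.cons (.rf (nat_lit 1392) (nat_lit 302467711680479594528)) (.cons (.rf (nat_lit 1392) (nat_lit 230986506996392495136)) .nil)))))))) (.cons (.rf (nat_lit 1392) (nat_lit 302467711680479594528))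 (.cons (.rf (nat_lit 1392) (nat_lit 230986506996392495136)) .nil))))))))) .nil)) .nil)) .nil))),
 (.br (nat_lit 7) (nat_lit 0) (.cons (.br (nat_lit 7) (nat_lit 0) (.cons (.br (nat_lit 11) (nat_lit 1) (.cons (.rf (nat_lit 1393) (nat_lit 14242959524133701664)) (.cons (.br (nat_lit 12) (nat_lit 1) (.cons (.rf (nat_lit 1393) (nat_lit 13126066816545818656)) (.cons (.rf (nat_lit 0) (nat_lit 279353568486)) .nil))) .nil))) .nil)) .nil)),
 (.br (nat_lit 3) (nat_lit 0) (.cons (.kr (nat_lit 1) (nat_lit 16777216) (nat_lit 0) (nat_lit 1)) (.cons (.rf (nat_lit 1057) (nat_lit 11514399472813059)) (.cons (.kr (nat_lit 256) (nat_lit 16777216) (nat_lit 1) (nat_lit 0)) (.cons (.kr (nat_lit 65536) (nat_lit 16777216) (nat_lit 2) (nat_lit 0)) (.cons (.kr (nat_lit 1208925891672223212634626) (nat_lit 4722366483969190526976) (nat_lit 0) (nat_lit 4)) (.cons (.rf (nat_lit 1057) (nat_lit 8242115571155971)) .nil))))))),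
 (.br (nat_lit 2) (nat_lit 0) (.cons (.kr (nat_lit 1) (nat_lit 65536) (nat_lit 0) (nat_lit 1)) (.cons (.rf (nat_lit 1057) (nat_lit 11514399472845826)) (.cons (.kr (nat_lit 256) (nat_lit 65536) (nat_lit 1) (nat_lit 0)) (.cons (.rf (nat_lit 1395) (nat_lit 493858305440582043680)) (.cons (.rf (nat_lit 1395) (nat_lit 492741412732994160672)) (.cons (.rf (nat_lit 1057) (nat_lit 8242115571188738)) .nil))))))),
 (.br (nat_lit 11) (nat_lit 0) (.cons (.kr (nat_lit 79228162514264337593543950592) (nat_lit 309485009821345068741558272) (nat_lit 1) (nat_lit 0)) (.cons (.br (nat_lit 12) (nat_lit 0) (.cons (.kr (nat_lit 1208925891672223212634113) (nat_lit 20282409603651670705422228062208) (nat_lit 0) (nat_lit 1)) .nil)) .nil))),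
 (.br (nat_lit 12) (nat_lit 0) (.cons (.rf (nat_lit 1397) (nat_lit 493858305440582043680)) (.cons (.br (nat_lit 12) (nat_lit 0) (.cons (.kr (nat_lit 79228162514264337593543950592) (nat_lit 309485009821345068741558272) (nat_lit 1) (nat_lit 0)) (.cons (.kr (nat_lit 158456325028600733880637456896) (nat_lit 620183667828787636303036416) (nat_lit 1) (nat_lit 0)) .nil))) (.cons (.br (nat_lit 12) (nat_lit 0) (.cons (.rf (nat_lit 1397) (nat_lit 493858305440582043680)) (.cons (.kr (nat_lit 158456325028600733880637456896) (nat_lit 620183667828787636303036416) (nat_lit 1) (nat_lit 0)) .nil))) .nil)))),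
 (.br (nat_lit 12) (nat_lit 0) (.cons (.kr (nat_lit 620183667828787636269481986) (nat_lit 158456325028600733880637587456) (nat_lit 0) (nat_lit 1)) (.cons (.ev (nat_lit 79228162532711364246036807936) (nat_lit 1)) (.cons (.kr (nat_lit 158456325028600733880637456384) (nat_lit 620183667828787636269481984) (nat_lit 5) (nat_lit 0)) .nil))))]

theorem c51 : chkAll C T R L51 (nat_lit 1377) = true := by decide +kernel

theorem l51 : (nat_lit 1377) + L51.length = (nat_lit 1400) := by decide +kernel

/-- part of the certificates -/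
def L52 : List Prf := [(.br (nat_lit 2) (nat_lit 0) (.cons (.rf (nat_lit 1398) (nat_lit 493858305440582043680)) (.cons (.rf (nat_lit 1397) (nat_lit 492741412732994160672)) (.cons (.br (nat_lit 12) (nat_lit 0) (.cons (.rf (nat_lit 1399) (nat_lit 493858305440582043680)) (.cons (.br (nat_lit 11) (nat_lit 0) (.cons (.zr (nat_lit 929668677650132722241241088) (nat_lit 20282409603670333625576586281217) (nat_lit 5) (nat_lit 0)) .nil)) .nil))) .nil)))),
 (.br (nat_lit 11) (nat_lit 0) (.cons (.rf (nat_lit 1398) (nat_lit 493858305440582043680)) (.cons (.rf (nat_lit 1400) (nat_lit 493858305440582043680)) (.cons (.br (nat_lit 12) (nat_lit 0) (.cons (.kr (nat_lit 618970019714748830999118336) (nat_lit 158457538676714772685941374976) (nat_lit 1) (nat_lit 0)) (.cons (.kr (nat_lit 618970019714748830999117824) (nat_lit 158457538676714772685907820544) (nat_lit 5) (nat_lit 0)) (.cons (.kr (nat_lit 309485009821345068724781056) (nat_lit 79228162514264337593543950336) (nat_lit 11) (nat_lit 0)) .nil)))) .nil)))),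
 (.br (nat_lit 8) (nat_lit 0) (.cons (.br (nat_lit 12) (nat_lit 0) (.cons (.ev (nat_lit 122011371495134290905213656499206) (nat_lit 3)) .nil)) (.cons (.br (nat_lit 11) (nat_lit 0) (.cons (.zr (nat_lit 2427296444253691189396224) (nat_lit 20283028573689760139637682208768) (nat_lit 5) (nat_lit 8)) .nil)) (.cons (.br (nat_lit 11) (nat_lit 0) (.cons (.ev (nat_lit 20282719088680010570688018513921) (nat_lit 1)) .nil)) .nil)))),
 (.br (nat_lit 11) (nat_lit 0) (.cons (.br (nat_lit 12) (nat_lit 0) (.cons (.ev (nat_lit 20282719088680010570688018513921) (nat_lit 1)) .nil)) (.cons (.zr (nat_lit 311902861676747109188108800) (nat_lit 237684492283606239728331915264) (nat_lit 5) (nat_lit 12)) (.cons (.ev (nat_lit 20282719093402304995963625799936) (nat_lit 1)) .nil)))),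
 (.br (nat_lit 8) (nat_lit 0) (.cons (.ev (nat_lit 309489750706912184900845568) (nat_lit 1)) (.cons (.kr (nat_lit 158457538676714772685941374978) (nat_lit 618970019714748830999249408) (nat_lit 0) (nat_lit 4)) (.cons (.ev (nat_lit 20282720297605830186416704848128) (nat_lit 1)) .nil)))),
 (.br (nat_lit 13) (nat_lit 0) (.cons (.rf (nat_lit 1402) (nat_lit 493858305440582043680)) (.cons (.rf (nat_lit 1403) (nat_lit 493858305440582043680)) (.cons (.rf (nat_lit 1404) (nat_lit 493858305440582043680)) (.cons (.br (nat_lit 13) (nat_lit 0) (.cons (.rf (nat_lit 1402) (nat_lit 493858305440582043680)) (.cons (.rf (nat_lit 1403) (nat_lit 493858305440582043680)) (.cons (.rf (nat_lit 1404) (nat_lit 493858305440582043680)) .nil)))) .nil))))),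
 (.br (nat_lit 12) (nat_lit 0) (.cons (.ev (nat_lit 20282719088680010570688035291393) (nat_lit 1)) .nil)),
 (.br (nat_lit 8) (nat_lit 0) (.cons (.ev (nat_lit 20282719088680010570688035291393) (nat_lit 1)) .nil)),
 (.br (nat_lit 2) (nat_lit 0) (.cons (.br (nat_lit 11) (nat_lit 0) (.cons (.ev (nat_lit 79228162532711364246053584896) (nat_lit 1)) (.cons (.rf (nat_lit 1406) (nat_lit 493858305440582043680)) .nil))) (.cons (.br (nat_lit 13) (nat_lit 0) (.cons (.ev (nat_lit 309489750706912184917623040) (nat_lit 1)) (.cons (.br (nat_lit 8) (nat_lit 0) (.cons (.ev (nat_lit 309489750706912184917623040) (nat_lit 1)) .nil)) .nil))) (.cons (.rf (nat_lit 1405) (nat_lit 493858305440582043680)) (.cons (.br (nat_lit 11) (nat_lit 0) (.cons (.br (nat_lit 12) (nat_lit 0) (.cons (.ev (nat_lit 20361638975110273178941540859905) (nat_lit 1)) .nil)) (.cons (.kr (nat_lit 158457538676714772685907820546) (nat_lit 618970019714748830999248896) (nat_lit 0) (nat_lit 1)) (.cons (.rf (nat_lit 1407) (nat_lit 493858305440582043680)) .nil))))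 .nil))))),
 (.br (nat_lit 12) (nat_lit 0) (.cons (.rf (nat_lit 1405) (nat_lit 493858305440582043680)) (.cons (.rf (nat_lit 1408) (nat_lit 493858305440582043680)) (.cons (.br (nat_lit 2) (nat_lit 0) (.cons (.ev (nat_lit 309485028268371721234481153) (nat_lit 1)) (.cons (.br (nat_lit 6) (nat_lit 0) (.cons (.ev (nat_lit 20282720297605830186416721625088) (nat_lit 1)) .nil)) .nil))) (.cons (.br (nat_lit 6) (nat_lit 0) (.cons (.br (nat_lit 11) (nat_lit 0) (.cons (.ev (nat_lit 20361638979832567604217131368448) (nat_lit 1)) .nil)) (.cons (.br (nat_lit 2) (nat_lit 0) (.cons (.ev (nat_lit 20282720297605830186416721625088) (nat_lit 1)) .nil)) (.cons (.ev (nat_lit 79229376180969518239383027968) (nat_lit 1)) .nil)))) .nil))))),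
 (.br (nat_lit 12) (nat_lit 0) (.cons (.rf (nat_lit 1405) (nat_lit 493858305440582043680)) (.cons (.rf (nat_lit 1408) (nat_lit 493858305440582043680)) (.cons (.rf (nat_lit 1409) (nat_lit 493858305440582043680)) (.cons (.br (nat_lit 2) (nat_lit 0) (.cons (.kr (nat_lit 158456325028600733880637456386) (nat_lit 620183667828787636269613056) (nat_lit 0) (nat_lit 1)) (.cons (.br (nat_lit 6) (nat_lit 0) (.cons (.ev (nat_lit 20282720297605830186416721625088) (nat_lit 1)) .nil)) (.cons (.kr (nat_lit 79228162514264337593543950337) (nat_lit 309485009821345068724846592) (nat_lit 0) (nat_lit 1)) .nil)))) .nil))))),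
 (.br (nat_lit 12) (nat_lit 0) (.cons (.rf (nat_lit 1405) (nat_lit 493858305440582043680)) (.cons (.rf (nat_lit 1408) (nat_lit 493858305440582043680)) (.cons (.rf (nat_lit 1409) (nat_lit 493858305440582043680)) (.cons (.rf (nat_lit 1410) (nat_lit 493858305440582043680)) (.cons (.br (nat_lit 12) (nat_lit 0) (.cons (.rf (nat_lit 1405) (nat_lit 493858305440582043680)) (.cons (.rf (nat_lit 1408) (nat_lit 493858305440582043680)) (.cons (.rf (nat_lit 1409) (nat_lit 493858305440582043680)) (.cons (.rf (nat_lit 1410) (nat_lit 493858305440582043680)) .nil))))) .nil)))))),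
 (.br (nat_lit 12) (nat_lit 0) (.cons (.br (nat_lit 11) (nat_lit 0) (.cons (.ev (nat_lit 159076518215238822043330806790) (nat_lit 3)) .nil)) (.cons (.br (nat_lit 8) (nat_lit 0) (.cons (.ev (nat_lit 20361637766184453563212837683201) (nat_lit 1)) .nil)) (.cons (.kr (nat_lit 1208925891672223212634114) (nat_lit 20282409603651670705422228127744) (nat_lit 0) (nat_lit 1)) .nil)))),
 (.br (nat_lit 12) (nat_lit 0) (.cons (.rf (nat_lit 1412) (nat_lit 493858305440582043680)) (.cons (.br (nat_lit 6) (nat_lit 0) (.cons (.ev (nat_lit 121695696785116518935114379691008) (nat_lit 3)) .nil)) (.cons (.rf (nat_lit 1412) (nat_lit 235600370082169063456)) .nil)))),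
 (.br (nat_lit 12) (nat_lit 0) (.cons (.rf (nat_lit 1412) (nat_lit 493858305440582043680)) (.cons (.rf (nat_lit 1413) (nat_lit 493858305440582043680)) (.cons (.br (nat_lit 12) (nat_lit 0) (.cons (.rf (nat_lit 1412) (nat_lit 493858305440582043680)) (.cons (.rf (nat_lit 1413) (nat_lit 493858305440582043680)) (.cons (.rf (nat_lit 1412) (nat_lit 235600370082169063456)) .nil)))) (.cons (.rf (nat_lit 1412) (nat_lit 235600370082169063456)) .nil))))),
 (.br (nat_lit 2) (nat_lit 0) (.cons (.br (nat_lit 12) (nat_lit 0) (.cons (.zr (nat_lit 1213648402273579468718086) (nat_lit 1237940076178868430941717504) (nat_lit 10) (nat_lit 4)) (.cons (.kr (nat_lit 1213648258156192369476098) (nat_lit 40564819207303341410844456255488) (nat_lit 0) (nat_lit 3)) .nil))) (.cons (.rf (nat_lit 1414) (nat_lit 493858305440582043680)) (.cons (.rf (nat_lit 1414) (nat_lit 492741412732994160672)) (.cons (.br (nat_lit 11) (nat_lit 0) (.cons (.zr (nat_lit 1860541558753397203978420226) (nat_lit 81129638414643792488116003405824) (nat_lit 10)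 (nat_lit 0)) (.cons (.rf (nat_lit 1399) (nat_lit 493858305440582043680)) .nil))) .nil))))),
 (.br (nat_lit 12) (nat_lit 0) (.cons (.rf (nat_lit 1414) (nat_lit 492741412732994160672)) (.cons (.rf (nat_lit 1415) (nat_lit 492741412732994160672)) (.cons (.br (nat_lit 12) (nat_lit 0) (.cons (.rf (nat_lit 1414) (nat_lit 492741412732994160672)) (.cons (.ev (nat_lit 309485028268371721217638656) (nat_lit 1)) (.cons (.ev (nat_lit 20282720297605830186416704848128) (nat_lit 1)) .nil)))) (.cons (.rf (nat_lit 1415) (nat_lit 234483477374581180448)) .nil))))),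
 (.br (nat_lit 3) (nat_lit 0) (.cons (.kr (nat_lit 1) (nat_lit 65536) (nat_lit 0) (nat_lit 1)) (.cons (.br (nat_lit 11) (nat_lit 0) (.cons (.rf (nat_lit 1398) (nat_lit 493858305440582043680)) (.cons (.rf (nat_lit 1400) (nat_lit 493858305440582043680)) (.cons (.rf (nat_lit 1401) (nat_lit 493858305440582043680)) (.cons (.br (nat_lit 11) (nat_lit 0) (.cons (.rf (nat_lit 1398) (nat_lit 493858305440582043680)) (.cons (.rf (nat_lit 1400) (nat_lit 493858305440582043680)) (.cons (.rf (nat_lit 1401) (nat_lit 493858305440582043680)) .nil)))) .nil))))) (.cons (.rf (nat_lit 1411) (nat_lit 493858305440582043680)) (.cons (.rf (nat_lit 1411) (nat_lit 492741412732994160672)) (.cons (.br (nat_lit 11) (nat_lit 0) (.cons (.rf (nat_lit 1414) (nat_lit 493858305440582043680)) (.cons (.rf (nat_lit 1415) (nat_lit 493858305440582043680)) (.cons (.rf (nat_lit 1416) (nat_lit 493858305440582043680)) (.cons (.br (nat_lit 11) (nat_lit 0) (.cons (.rf (nat_lit 1414) (nat_lit 493858305440582043680)) (.cons (.rf (nat_lit 1415) (nat_lit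 493858305440582043680)) (.cons (.rf (nat_lit 1416) (nat_lit 493858305440582043680)) (.cons (.rf (nat_lit 1415) (nat_lit 235600370082169063456)) .nil))))) (.cons (.rf (nat_lit 1415) (nat_lit 235600370082169063456)) .nil)))))) .nil)))))),
 (.br (nat_lit 6) (nat_lit 0) (.cons (.ev (nat_lit 18519083142740967424) (nat_lit 1)) (.cons (.ev (nat_lit 72339073309671424) (nat_lit 1)) (.cons (.br (nat_lit 12) (nat_lit 0) (.cons (.ev (nat_lit 79538856468424381533679321088) (nat_lit 1)) (.cons (.ev (nat_lit 79538856449977637464281448448) (nat_lit 1)) (.cons (.ev (nat_lit 79538856486799349496934367232) (nat_lit 2)) .nil)))) .nil)))),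
 (.br (nat_lit 12) (nat_lit 0) (.cons (.kr (nat_lit 309485009821345068741558273) (nat_lit 79228162514264337593544016128) (nat_lit 0) (nat_lit 4)) (.cons (.kr (nat_lit 620183667828787636303036418) (nat_lit 158456325028600733880637587968) (nat_lit 0) (nat_lit 4)) .nil))),
 (.br (nat_lit 3) (nat_lit 0) (.cons (.rf (nat_lit 1417) (nat_lit 493858305440582043680)) (.cons (.br (nat_lit 12) (nat_lit 0) (.cons (.rf (nat_lit 1418) (nat_lit 493858305440582043680)) (.cons (.rf (nat_lit 1418) (nat_lit 235600370082169063456)) .nil))) (.cons (.br (nat_lit 6) (nat_lit 0) (.cons (.rf (nat_lit 1419) (nat_lit 493858305440582043680)) (.cons (.rf (nat_lit 1419) (nat_lit 492741408334951812097)) (.cons (.br (nat_lit 6) (nat_lit 0) (.cons (.rf (nat_lit 1419) (nat_lit 493858305440582043680)) (.cons (.rf (nat_lit 1419) (nat_lit 492741408334951812097)) .nil))) .nil)))) (.cons (.rf (nat_lit 1417) (nat_lit 235600370082169063456)) .nil))))),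
 (.br (nat_lit 2) (nat_lit 0) (.cons (.kr (nat_lit 1) (nat_lit 65536) (nat_lit 0) (nat_lit 1)) (.cons (.rf (nat_lit 1417) (nat_lit 493858301042539695105)) (.cons (.rf (nat_lit 1420) (nat_lit 493858305440582043680)) (.cons (.rf (nat_lit 1420) (nat_lit 492741412732994160672)) (.cons (.rf (nat_lit 1417) (nat_lit 235600365684126714881)) .nil)))))),
 (.br (nat_lit 6) (nat_lit 0) (.cons (.ev (nat_lit 79229376180969518239383027968) (nat_lit 1)) (.cons (.br (nat_lit 12) (nat_lit 0) (.cons (.ev (nat_lit 20282720297605830186416721625088) (nat_lit 1)) .nil)) .nil))),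
 (.br (nat_lit 8) (nat_lit 0) (.cons (.ev (nat_lit 79229376180969518239383027968) (nat_lit 1)) (.cons (.rf (nat_lit 1422) (nat_lit 235600370082169063456)) .nil))),
 (.br (nat_lit 6) (nat_lit 0) (.cons (.rf (nat_lit 1422) (nat_lit 493858305440582043680)) (.cons (.rf (nat_lit 1423) (nat_lit 493858305440582043680)) (.cons (.br (nat_lit 6) (nat_lit 0) (.cons (.rf (nat_lit 1422) (nat_lit 493858305440582043680)) (.cons (.rf (nat_lit 1423) (nat_lit 493858305440582043680)) .nil))) .nil)))),
 (.br (nat_lit 2) (nat_lit 0) (.cons (.br (nat_lit 13) (nat_lit 0) (.cons (.ev (nat_lit 309489750706912184917557505) (nat_lit 1)) (.cons (.rf (nat_lit 1407) (nat_lit 236753291585702168608)) .nil))) (.cons (.br (nat_lit 13) (nat_lit 0) (.cons (.ev (nat_lit 309489750706912184917557505) (nat_lit 1)) (.cons (.rf (nat_lit 1406) (nat_lit 486976805215328634912)) .nil))) (.cons (.rf (nat_lit 1424) (nat_lit 492741412732994160672)) (.cons (.br (nat_lit 6) (nat_lit 0) (.cons (.ev (nat_lit 310698676526525714563858688) (nat_lit 1))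 (.cons (.br (nat_lit 8) (nat_lit 0) (.cons (.ev (nat_lit 477227108311581552692372178438) (nat_lit 3)) .nil)) (.cons (.br (nat_lit 8) (nat_lit 0) (.cons (.ev (nat_lit 20282720297605830186416721625088) (nat_lit 1)) .nil)) .nil)))) .nil))))),
 (.br (nat_lit 3) (nat_lit 0) (.cons (.kr (nat_lit 1) (nat_lit 65536) (nat_lit 0) (nat_lit 1)) (.cons (.rf (nat_lit 1417) (nat_lit 493858305440582043680)) (.cons (.rf (nat_lit 1421) (nat_lit 493858305440582043680)) (.cons (.br (nat_lit 11) (nat_lit 0) (.cons (.rf (nat_lit 1424) (nat_lit 493858305440582043680)) (.cons (.rf (nat_lit 1425) (nat_lit 493858305440582043680)) (.cons (.br (nat_lit 12) (nat_lit 0) (.cons (.rf (nat_lit 1424) (nat_lit 492741412732994160672)) (.cons (.rf (nat_lit 1425) (nat_lit 492741412732994160672)) (.cons (.rf (nat_lit 1425) (nat_lit 234483477374581180448)) .nil)))) (.cons (.kr (nat_lit 309485009821345068724781056) (nat_lit 79228162514264337593543950336) (nat_lit 11) (nat_lit 0)) (.cons (.rf (nat_lit 1425) (nat_lit 235600370082169063456))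 .nil)))))) (.cons (.rf (nat_lit 1417) (nat_lit 235600370082169063456)) .nil)))))),
 (.br (nat_lit 3) (nat_lit 0) (.cons (.kr (nat_lit 1) (nat_lit 65536) (nat_lit 0) (nat_lit 1)) (.cons (.rf (nat_lit 1417) (nat_lit 493858305440582043680)) (.cons (.rf (nat_lit 1421) (nat_lit 493858305440582043680)) (.cons (.rf (nat_lit 1426) (nat_lit 493858305440582043680)) (.cons (.rf (nat_lit 1426) (nat_lit 492741412732994160672)) (.cons (.rf (nat_lit 1417) (nat_lit 235600370082169063456)) .nil))))))),
 (.br (nat_lit 13) (nat_lit 0) (.cons (.br (nat_lit 12) (nat_lit 0) (.cons (.ev (nat_lit 79228162532711364246036807681) (nat_lit 1)) .nil)) (.cons (.br (nat_lit 8) (nat_lit 0) (.cons (.ev (nat_lit 79228162532711364246036807681) (nat_lit 1)) .nil)) .nil))),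
 (.br (nat_lit 12) (nat_lit 0) (.cons (.rf (nat_lit 1428) (nat_lit 493858305440582043680)) (.cons (.rf (nat_lit 1428) (nat_lit 493858301042539726849)) (.cons (.br (nat_lit 12) (nat_lit 0) (.cons (.rf (nat_lit 1428) (nat_lit 493858305440582043680)) (.cons (.rf (nat_lit 1428) (nat_lit 493858301042539726849)) .nil))) .nil))))]

theorem c52 : chkAll C T R L52 (nat_lit 1400) = true := by decide +kernel

theorem l52 : (nat_lit 1400) + L52.length = (nat_lit 1430) := by decide +kernel

/-- part of the certificates -/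
def L53 : List Prf := [(.br (nat_lit 12) (nat_lit 0) (.cons (.ev (nat_lit 20282719088680010570688018579456) (nat_lit 1)) .nil)),
 (.br (nat_lit 8) (nat_lit 0) (.cons (.rf (nat_lit 1430) (nat_lit 493858305440582043680)) (.cons (.rf (nat_lit 1430) (nat_lit 492741412732994128928)) (.cons (.br (nat_lit 11) (nat_lit 0) (.cons (.ev (nat_lit 20361947265379749888898940141825) (nat_lit 2)) .nil)) .nil)))),
 (.br (nat_lit 13) (nat_lit 0) (.cons (.rf (nat_lit 1431) (nat_lit 493858305440582043680)) (.cons (.rf (nat_lit 1431) (nat_lit 493858301042539726849)) (.cons (.kr (nat_lit 79228162514264337593544015872) (nat_lit 309485009821345068741558272) (nat_lit 2) (nat_lit 0)) .nil)))),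
 (.br (nat_lit 12) (nat_lit 0) (.cons (.ev (nat_lit 20282719093402304995963625799936) (nat_lit 1)) .nil)),
 (.br (nat_lit 8) (nat_lit 0) (.cons (.rf (nat_lit 1433) (nat_lit 493858305440582043680)) (.cons (.br (nat_lit 11) (nat_lit 0) (.cons (.ev (nat_lit 20361638979832567604217148080128) (nat_lit 1)) .nil)) (.cons (.br (nat_lit 11) (nat_lit 0) (.cons (.ev (nat_lit 20361947265379749888898940141825) (nat_lit 2)) .nil)) .nil)))),
 (.br (nat_lit 4) (nat_lit 0) (.cons (.ev (nat_lit 309489750706912184917557248) (nat_lit 1)) (.cons (.rf (nat_lit 1434) (nat_lit 493858305440582043680)) (.cons (.br (nat_lit 8) (nat_lit 0) (.cons (.ev (nat_lit 20361947265379749888898940141825) (nat_lit 2)) .nil)) .nil)))),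
 (.br (nat_lit 3) (nat_lit 0) (.cons (.rf (nat_lit 1427) (nat_lit 493858305440582011936)) (.cons (.rf (nat_lit 1427) (nat_lit 493858301042539695105)) (.cons (.rf (nat_lit 1429) (nat_lit 493858305440582043680)) (.cons (.br (nat_lit 13) (nat_lit 0) (.cons (.rf (nat_lit 1431) (nat_lit 493858305440582043680)) (.cons (.rf (nat_lit 1431) (nat_lit 493858301042539726849)) (.cons (.rf (nat_lit 1432) (nat_lit 493858305440582043680)) (.cons (.rf (nat_lit 1432) (nat_lit 492741412732994128928)) .nil))))) (.cons (.br (nat_lit 12) (nat_lit 0) (.cons (.rf (nat_lit 1434) (nat_lit 493858305440582043680)) (.cons (.rf (nat_lit 1434) (nat_lit 493858301042539726849)) (.cons (.rf (nat_lit 1435) (nat_lit 493858305440582043680)) (.cons (.br (nat_lit 12) (nat_lit 0) (.cons (.rf (nat_lit 1434) (nat_lit 493858305440582043680)) (.cons (.rf (nat_lit 1434) (nat_lit 493858301042539726849)) (.cons (.rf (nat_lit 1435) (nat_lit 493858305440582043680)) .nil)))) .nil))))) .nil)))))),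
 (.br (nat_lit 6) (nat_lit 0) (.cons (.ev (nat_lit 309485028268371721234415616) (nat_lit 1)) .nil)),
 (.br (nat_lit 8) (nat_lit 0) (.cons (.br (nat_lit 12) (nat_lit 0) (.cons (.ev (nat_lit 20282719088680010570688018514176) (nat_lit 1)) .nil)) (.cons (.rf (nat_lit 1433) (nat_lit 236789320381647359008)) (.cons (.rf (nat_lit 1437) (nat_lit 493858305440582043680)) .nil)))),
 (.br (nat_lit 13) (nat_lit 0) (.cons (.rf (nat_lit 1438) (nat_lit 493858305440582043680)) (.cons (.rf (nat_lit 1438) (nat_lit 493858301042539726849)) (.cons (.br (nat_lit 4) (nat_lit 0) (.cons (.ev (nat_lit 20361638979832567604217148080128) (nat_lit 1)) .nil)) .nil)))),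
 (.br (nat_lit 12) (nat_lit 0) (.cons (.ev (nat_lit 20282719093402304995963625865216) (nat_lit 1)) .nil)),
 (.br (nat_lit 8) (nat_lit 0) (.cons (.rf (nat_lit 1440) (nat_lit 493858305440582043680)) (.cons (.rf (nat_lit 1437) (nat_lit 458117738797769787424)) (.cons (.rf (nat_lit 1440) (nat_lit 235600370082169031712)) .nil)))),
 (.br (nat_lit 12) (nat_lit 0) (.cons (.rf (nat_lit 1441) (nat_lit 493858305440582043680)) (.cons (.rf (nat_lit 1441) (nat_lit 493858301042539726849)) (.cons (.br (nat_lit 4) (nat_lit 0) (.cons (.ev (nat_lit 244185530939009439530527383225862) (nat_lit 4)) .nil)) .nil)))),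
 (.br (nat_lit 3) (nat_lit 0) (.cons (.rf (nat_lit 1427) (nat_lit 493858305440582011936)) (.cons (.rf (nat_lit 1429) (nat_lit 493858305440582043680)) (.cons (.rf (nat_lit 1427) (nat_lit 493858301042539695105)) (.cons (.br (nat_lit 13) (nat_lit 0) (.cons (.rf (nat_lit 1438) (nat_lit 493858305440582043680)) (.cons (.rf (nat_lit 1439) (nat_lit 493858305440582043680)) (.cons (.rf (nat_lit 1438) (nat_lit 493858301042539726849)) (.cons (.br (nat_lit 13) (nat_lit 0) (.cons (.rf (nat_lit 1438) (nat_lit 493858305440582043680)) (.cons (.rf (nat_lit 1439) (nat_lit 493858305440582043680)) (.cons (.rf (nat_lit 1438) (nat_lit 493858301042539726849)) .nil)))) .nil))))) (.cons (.br (nat_lit 12) (nat_lit 0) (.cons (.rf (nat_lit 1441) (nat_lit 493858305440582043680)) (.cons (.rf (nat_lit 1442) (nat_lit 493858305440582043680)) (.cons (.rf (nat_lit 1441) (nat_lit 493858301042539726849)) (.cons (.rf (nat_lit 1442) (nat_lit 235600370082169031712)) .nil))))) .nil)))))),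
 (.br (nat_lit 11) (nat_lit 0) (.cons (.ev (nat_lit 309485028268371721234481153) (nat_lit 1)) .nil)),
 (.br (nat_lit 8) (nat_lit 0) (.cons (.br (nat_lit 12) (nat_lit 0) (.cons (.ev (nat_lit 79229371458530977775699886336) (nat_lit 1)) .nil)) (.cons (.rf (nat_lit 1444) (nat_lit 493858305440582043680)) (.cons (.rf (nat_lit 1444) (nat_lit 458117738797769787424)) .nil)))),
 (.br (nat_lit 8) (nat_lit 0) (.cons (.rf (nat_lit 1445) (nat_lit 493858301042539726849)) (.cons (.kr (nat_lit 158457538676714772685907951618) (nat_lit 618970019714748831032672768) (nat_lit 0) (nat_lit 4)) (.cons (.rf (nat_lit 1444) (nat_lit 234483472976538831873)) .nil)))),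
 (.br (nat_lit 3) (nat_lit 0) (.cons (.rf (nat_lit 1427) (nat_lit 493858305440582011936)) (.cons (.rf (nat_lit 1436) (nat_lit 493858305440582043680)) (.cons (.rf (nat_lit 1427) (nat_lit 493858301042539695105)) (.cons (.rf (nat_lit 1443) (nat_lit 493858305440582043680)) (.cons (.br (nat_lit 4) (nat_lit 0) (.cons (.rf (nat_lit 1445) (nat_lit 493858305440582043680)) (.cons (.br (nat_lit 6) (nat_lit 0) (.cons (.br (nat_lit 12) (nat_lit 0) (.cons (.ev (nat_lit 40566058389399304292305849417728) (nat_lit 3)) .nil)) (.cons (.br (nat_lit 11) (nat_lit 0) (.cons (.ev (nat_lit 40566058370509550130451116852228) (nat_lit 3)) .nil)) (.cons (.br (nat_lit 11) (nat_lit 0) (.cons (.ev (nat_lit 202826573130391395915358995087874) (nat_lit 4)) .nil)) .nil)))) (.cons (.rf (nat_lit 1446) (nat_lit 493858305440582043680)) (.cons (.rf (nat_lit 1446) (nat_lit 234483477374581148704)) (.cons (.rf (nat_lit 1445) (nat_lit 234483477374581148704)) .nil)))))) .nil)))))),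
 (.br (nat_lit 3) (nat_lit 0) (.cons (.rf (nat_lit 1427) (nat_lit 493858305440582011936)) (.cons (.rf (nat_lit 1436) (nat_lit 493858305440582043680)) (.cons (.rf (nat_lit 1427) (nat_lit 493858301042539695105)) (.cons (.rf (nat_lit 1443) (nat_lit 493858305440582043680)) (.cons (.rf (nat_lit 1447) (nat_lit 493858305440582043680)) (.cons (.br (nat_lit 3) (nat_lit 0) (.cons (.rf (nat_lit 1427) (nat_lit 493858305440582011936)) (.cons (.rf (nat_lit 1436) (nat_lit 493858305440582043680)) (.cons (.rf (nat_lit 1427) (nat_lit 493858301042539695105)) (.cons (.rf (nat_lit 1443) (nat_lit 493858305440582043680)) (.cons (.rf (nat_lit 1447) (nat_lit 493858305440582043680)) .nil)))))) .nil))))))),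
 (.br (nat_lit 3) (nat_lit 0) (.cons (.rf (nat_lit 1427) (nat_lit 493858305440582011936)) (.cons (.rf (nat_lit 1427) (nat_lit 493858301042539695105)) (.cons (.rf (nat_lit 1448) (nat_lit 493858305440582011936)) (.cons (.rf (nat_lit 1448) (nat_lit 492741412732994128928)) (.cons (.rf (nat_lit 1429) (nat_lit 455883953382594021408)) .nil)))))),
 (.br (nat_lit 6) (nat_lit 0) (.cons (.br (nat_lit 12) (nat_lit 0) (.cons (.ev (nat_lit 79228167255149904709719949313) (nat_lit 1)) .nil)) (.cons (.br (nat_lit 8) (nat_lit 0) (.cons (.ev (nat_lit 20361637766184453563212837683201) (nat_lit 1)) .nil)) (.cons (.br (nat_lit 8) (nat_lit 0) (.cons (.ev (nat_lit 20361947251212866613072118153216) (nat_lit 2)) .nil)) .nil)))),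
 (.br (nat_lit 12) (nat_lit 0) (.cons (.rf (nat_lit 1450) (nat_lit 492741412732994160672)) (.cons (.rf (nat_lit 1450) (nat_lit 492741408334951843841)) (.cons (.kr (nat_lit 3626777675016669637902850) (nat_lit 40564819212025707894813679943680) (nat_lit 0) (nat_lit 2)) .nil)))),
 (.br (nat_lit 3) (nat_lit 0) (.cons (.rf (nat_lit 1427) (nat_lit 493858305440582011936)) (.cons (.rf (nat_lit 1448) (nat_lit 493858305440582011936)) (.cons (.rf (nat_lit 1427) (nat_lit 493858301042539695105)) (.cons (.br (nat_lit 11) (nat_lit 0) (.cons (.rf (nat_lit 1450) (nat_lit 493858305440582043680)) (.cons (.rf (nat_lit 1451) (nat_lit 493858305440582043680)) (.cons (.rf (nat_lit 1450) (nat_lit 493858301042539726849)) (.cons (.kr (nat_lit 309485009821345068724781056) (nat_lit 79228162514264337593543950336) (nat_lit 11) (nat_lit 0)) (.cons (.rf (nat_lit 1451) (nat_lit 235600370082169063456)) .nil)))))) (.cons (.rf (nat_lit 1448) (nat_lit 235600370082169031712)) .nil)))))),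
 (.br (nat_lit 2) (nat_lit 0) (.cons (.rf (nat_lit 1057) (nat_lit 11514399472845826)) (.cons (.rf (nat_lit 1427) (nat_lit 493858305440582043680)) (.cons (.rf (nat_lit 1427) (nat_lit 493858301042539726849)) (.cons (.rf (nat_lit 1448) (nat_lit 493858305440582043680)) (.cons (.rf (nat_lit 1448) (nat_lit 492741412732994160672)) (.cons (.br (nat_lit 3) (nat_lit 0) (.cons (.rf (nat_lit 1427) (nat_lit 493858305440582011936)) (.cons (.rf (nat_lit 1449) (nat_lit 493858305440582043680)) (.cons (.rf (nat_lit 1427) (nat_lit 493858301042539695105)) (.cons (.rf (nat_lit 1452) (nat_lit 493858305440582043680)) (.cons (.rf (nat_lit 1452) (nat_lit 492741412732994160672)) (.cons (.rf (nat_lit 1449) (nat_lit 235600370082169063456)) .nil))))))) .nil))))))),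
 (.br (nat_lit 6) (nat_lit 0) (.cons (.ev (nat_lit 477227127200759253794801321478) (nat_lit 3)) (.cons (.br (nat_lit 8) (nat_lit 0) (.cons (.ev (nat_lit 20521022555705626828947836633600) (nat_lit 2)) .nil)) .nil))),
 (.br (nat_lit 3) (nat_lit 0) (.cons (.rf (nat_lit 1427) (nat_lit 493858305440582011936)) (.cons (.rf (nat_lit 1453) (nat_lit 493858305440582011936)) (.cons (.rf (nat_lit 1427) (nat_lit 493858301042539695105)) (.cons (.br (nat_lit 6) (nat_lit 0) (.cons (.rf (nat_lit 1454) (nat_lit 493858305440582043680)) (.cons (.rf (nat_lit 1454) (nat_lit 493858301042539726849)) (.cons (.br (nat_lit 6) (nat_lit 0) (.cons (.rf (nat_lit 1454) (nat_lit 493858305440582043680)) (.cons (.rf (nat_lit 1454) (nat_lit 493858301042539726849)) .nil))) .nil)))) (.cons (.rf (nat_lit 1453) (nat_lit 235600370082169031712)) .nil)))))),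
 (.br (nat_lit 2) (nat_lit 0) (.cons (.rf (nat_lit 1396) (nat_lit 493858305440582043680)) (.cons (.rf (nat_lit 1427) (nat_lit 493858305440582043680)) (.cons (.rf (nat_lit 1453) (nat_lit 493858305440582043680)) (.cons (.rf (nat_lit 1427) (nat_lit 493858301042539726849)) (.cons (.br (nat_lit 3) (nat_lit 0) (.cons (.rf (nat_lit 1427) (nat_lit 493858305440582011936)) (.cons (.rf (nat_lit 1453) (nat_lit 493858305440582011936)) (.cons (.rf (nat_lit 1427) (nat_lit 493858301042539695105)) (.cons (.rf (nat_lit 1455) (nat_lit 493858305440582043680)) (.cons (.rf (nat_lit 1455) (nat_lit 492741412732994160672)) (.cons (.rf (nat_lit 1453) (nat_lit 235600370082169031712)) .nil))))))) (.cons (.rf (nat_lit 1453) (nat_lit 235600370082169063456)) .nil))))))),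
 (.br (nat_lit 2) (nat_lit 0) (.cons (.rf (nat_lit 1396) (nat_lit 493858305440582043680)) (.cons (.rf (nat_lit 1427) (nat_lit 493858305440582043680)) (.cons (.rf (nat_lit 1453) (nat_lit 493858305440582043680)) (.cons (.rf (nat_lit 1427) (nat_lit 493858301042539726849)) (.cons (.rf (nat_lit 1456) (nat_lit 493858305440582043680)) (.cons (.rf (nat_lit 1456) (nat_lit 492741412732994160672)) (.cons (.rf (nat_lit 1453) (nat_lit 235600370082169063456)) .nil)))))))),
 (.br (nat_lit 8) (nat_lit 0) (.cons (.ev (nat_lit 309485028268371721217704193) (nat_lit 1)) .nil)),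
 (.br (nat_lit 11) (nat_lit 0) (.cons (.br (nat_lit 12) (nat_lit 0) (.cons (.ev (nat_lit 40566058389399304292305748754438) (nat_lit 3)) .nil)) (.cons (.ev (nat_lit 79537652246452447011202400256) (nat_lit 1)) (.cons (.rf (nat_lit 1458) (nat_lit 493858305440582043680)) .nil)))),
 (.br (nat_lit 6) (nat_lit 0) (.cons (.br (nat_lit 12) (nat_lit 0) (.cons (.ev (nat_lit 20282719088680010570688018513921) (nat_lit 1)) .nil)) (.cons (.br (nat_lit 11) (nat_lit 0) (.cons (.ev (nat_lit 310698676526525714563924225) (nat_lit 1)) .nil)) (.cons (.rf (nat_lit 1459) (nat_lit 493858305440582043680)) .nil)))),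
 (.br (nat_lit 6) (nat_lit 0) (.cons (.ev (nat_lit 309489750706912184900845568) (nat_lit 1)) (.cons (.br (nat_lit 8) (nat_lit 0) (.cons (.ev (nat_lit 310698676526525714563924225) (nat_lit 1)) .nil)) (.cons (.rf (nat_lit 1458) (nat_lit 493858305440582043680)) .nil))))]

theorem c53 : chkAll C T R L53 (nat_lit 1430) = true := by decide +kernel

theorem l53 : (nat_lit 1430) + L53.length = (nat_lit 1462) := by decide +kernel

/-- part of the certificates -/
def L54 : List Prf := [(.br (nat_lit 13) (nat_lit 0) (.cons (.rf (nat_lit 1459) (nat_lit 493858305440582043680)) (.cons (.rf (nat_lit 1460) (nat_lit 493858305440582043680)) (.cons (.rf (nat_lit 1461) (nat_lit 493858305440582043680)) (.cons (.br (nat_lit 13) (nat_lit 0) (.cons (.rf (nat_lit 1459) (nat_lit 493858305440582043680)) (.cons (.rf (nat_lit 1460) (nat_lit 493858305440582043680)) (.cons (.rf (nat_lit 1461) (nat_lit 493858305440582043680)) .nil)))) .nil))))),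
 (.br (nat_lit 13) (nat_lit 0) (.cons (.br (nat_lit 12) (nat_lit 0) (.cons (.ev (nat_lit 20282719088680010570688035291393) (nat_lit 1)) .nil)) (.cons (.br (nat_lit 11) (nat_lit 0) (.cons (.ev (nat_lit 20282719088680010570688035291393) (nat_lit 1)) .nil)) .nil))),
 (.br (nat_lit 2) (nat_lit 0) (.cons (.rf (nat_lit 1463) (nat_lit 493858305440582043680)) (.cons (.br (nat_lit 13) (nat_lit 0) (.cons (.ev (nat_lit 309489750706912184917623040) (nat_lit 1)) (.cons (.br (nat_lit 8) (nat_lit 0) (.cons (.ev (nat_lit 309489750706912184917623040) (nat_lit 1)) .nil)) .nil))) (.cons (.rf (nat_lit 1462) (nat_lit 493858305440582043680)) (.cons (.br (nat_lit 11) (nat_lit 0) (.cons (.br (nat_lit 12) (nat_lit 0) (.cons (.ev (nat_lit 79537652246452447011185623296) (nat_lit 1)) .nil)) (.cons (.rf (nat_lit 1458) (nat_lit 458117738797769787424)) (.cons (.br (nat_lit 8) (nat_lit 0) (.cons (.ev (nat_lit 310698676526525714563924225) (nat_lit 1)) .nil)) .nil)))) .nil))))),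
 (.br (nat_lit 12) (nat_lit 0) (.cons (.rf (nat_lit 1462) (nat_lit 493858305440582043680)) (.cons (.rf (nat_lit 1464) (nat_lit 493858305440582043680)) (.cons (.br (nat_lit 13) (nat_lit 0) (.cons (.br (nat_lit 6) (nat_lit 0) (.cons (.ev (nat_lit 310698676526525714563924225) (nat_lit 1)) .nil)) (.cons (.br (nat_lit 2) (nat_lit 0) (.cons (.ev (nat_lit 310698676526525714563924225) (nat_lit 1)) .nil)) .nil))) (.cons (.br (nat_lit 2) (nat_lit 0) (.cons (.br (nat_lit 11) (nat_lit 0) (.cons (.ev (nat_lit 121695696794561107785665560576000) (nat_lit 3)) .nil)) (.cons (.br (nat_lit 6) (nat_lit 0) (.cons (.ev (nat_lit 309489750706912184917623040) (nat_lit 1)) .nil)) (.cons (.br (nat_lit 6) (nat_lit 0) (.cons (.ev (nat_lit 159695507161385044795799764998) (nat_lit 3)) .nil)) .nil)))) .nil))))),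
 (.br (nat_lit 12) (nat_lit 0) (.cons (.rf (nat_lit 1462) (nat_lit 493858305440582043680)) (.cons (.rf (nat_lit 1464) (nat_lit 493858305440582043680)) (.cons (.rf (nat_lit 1465) (nat_lit 493858305440582043680)) (.cons (.br (nat_lit 2) (nat_lit 0) (.cons (.ev (nat_lit 79538856449977637464281448448) (nat_lit 1)) (.cons (.br (nat_lit 6) (nat_lit 0) (.cons (.ev (nat_lit 476608147699778342345850880000) (nat_lit 3)) .nil)) (.cons (.br (nat_lit 6) (nat_lit 0) (.cons (.ev (nat_lit 309489750706912184900845568) (nat_lit 1)) .nil)) .nil)))) .nil))))),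
 (.br (nat_lit 12) (nat_lit 0) (.cons (.rf (nat_lit 1462) (nat_lit 493858305440582043680)) (.cons (.rf (nat_lit 1464) (nat_lit 493858305440582043680)) (.cons (.rf (nat_lit 1465) (nat_lit 493858305440582043680)) (.cons (.rf (nat_lit 1466) (nat_lit 493858305440582043680)) (.cons (.br (nat_lit 12) (nat_lit 0) (.cons (.rf (nat_lit 1462) (nat_lit 493858305440582043680)) (.cons (.rf (nat_lit 1464) (nat_lit 493858305440582043680)) (.cons (.rf (nat_lit 1465) (nat_lit 493858305440582043680)) (.cons (.rf (nat_lit 1466) (nat_lit 493858305440582043680)) .nil))))) .nil)))))),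
 (.br (nat_lit 6) (nat_lit 0) (.cons (.ev (nat_lit 310698676526525714580701185) (nat_lit 1)) (.cons (.br (nat_lit 13) (nat_lit 0) (.cons (.ev (nat_lit 309489750706912184917623040) (nat_lit 1)) (.cons (.ev (nat_lit 79538856449977637464264737025) (nat_lit 1)) .nil))) (.cons (.br (nat_lit 12) (nat_lit 0) (.cons (.ev (nat_lit 309489750706912184917623040) (nat_lit 1)) (.cons (.br (nat_lit 8) (nat_lit 0) (.cons (.ev (nat_lit 309489750706912184917623040) (nat_lit 1)) .nil)) .nil))) .nil)))),
 (.br (nat_lit 2) (nat_lit 0) (.cons (.ev (nat_lit 310698676526525714580701185) (nat_lit 1)) (.cons (.br (nat_lit 13) (nat_lit 0) (.cons (.ev (nat_lit 309489750706912184900845568) (nat_lit 1)) (.cons (.ev (nat_lit 79538856449977637464281513985) (nat_lit 1)) .nil))) (.cons (.br (nat_lit 12) (nat_lit 0) (.cons (.ev (nat_lit 309489750706912184900845568) (nat_lit 1)) (.cons (.br (nat_lit 8) (nat_lit 0) (.cons (.ev (nat_lit 309489750706912184900845568) (nat_lit 1)) .nil)) .nil))) .nil)))),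
 (.br (nat_lit 8) (nat_lit 0) (.cons (.rf (nat_lit 1468) (nat_lit 493858305440582043680)) (.cons (.rf (nat_lit 1469) (nat_lit 493858305440582043680)) (.cons (.br (nat_lit 13) (nat_lit 0) (.cons (.ev (nat_lit 20282719088680010570688035291393) (nat_lit 1)) (.cons (.ev (nat_lit 20282719088680010570688018513921) (nat_lit 1)) (.cons (.br (nat_lit 2) (nat_lit 0) (.cons (.ev (nat_lit 20362256750408234149723993473024) (nat_lit 2)) .nil)) .nil)))) .nil)))),
 (.br (nat_lit 11) (nat_lit 0) (.cons (.ev (nat_lit 79537647524158021735578402816) (nat_lit 1)) .nil)),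
 (.br (nat_lit 8) (nat_lit 0) (.cons (.ev (nat_lit 309489750706912184917557505) (nat_lit 1)) (.cons (.rf (nat_lit 1471) (nat_lit 493858305440582043680)) (.cons (.br (nat_lit 11) (nat_lit 0) (.cons (.ev (nat_lit 121695696785116518935114379822086) (nat_lit 3)) .nil)) .nil)))),
 (.br (nat_lit 12) (nat_lit 0) (.cons (.ev (nat_lit 20361947251175756107713326612736) (nat_lit 1)) .nil)),
 (.br (nat_lit 6) (nat_lit 0) (.cons (.rf (nat_lit 1473) (nat_lit 493858305440582043680)) (.cons (.br (nat_lit 11) (nat_lit 0) (.cons (.ev (nat_lit 79537652246452447011185688833) (nat_lit 1)) .nil)) (.cons (.rf (nat_lit 1472) (nat_lit 493858305440582043680)) .nil)))),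
 (.br (nat_lit 12) (nat_lit 0) (.cons (.ev (nat_lit 79537647524158021735578402816) (nat_lit 1)) .nil)),
 (.br (nat_lit 6) (nat_lit 0) (.cons (.rf (nat_lit 1475) (nat_lit 493858305440582043680)) (.cons (.ev (nat_lit 79538856449977637464264737025) (nat_lit 1)) (.cons (.rf (nat_lit 1472) (nat_lit 493858305440582043680)) .nil)))),
 (.br (nat_lit 13) (nat_lit 0) (.cons (.br (nat_lit 11) (nat_lit 0) (.cons (.ev (nat_lit 20361947251175756107713343389696) (nat_lit 1)) .nil)) (.cons (.br (nat_lit 8) (nat_lit 0) (.cons (.ev (nat_lit 20361947251175756107713343389696) (nat_lit 1)) .nil)) .nil))),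
 (.br (nat_lit 12) (nat_lit 0) (.cons (.br (nat_lit 11) (nat_lit 0) (.cons (.ev (nat_lit 309489750706912184900780033) (nat_lit 1)) .nil)) (.cons (.br (nat_lit 8) (nat_lit 0) (.cons (.ev (nat_lit 309489750706912184900780033) (nat_lit 1)) .nil)) (.cons (.rf (nat_lit 1471) (nat_lit 309390870201044666400)) .nil)))),
 (.br (nat_lit 6) (nat_lit 0) (.cons (.rf (nat_lit 1478) (nat_lit 493858305440582043680)) (.cons (.ev (nat_lit 79537652246452447011185688833) (nat_lit 1)) (.cons (.rf (nat_lit 1475) (nat_lit 309390870201044666400)) .nil)))),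
 (.br (nat_lit 8) (nat_lit 0) (.cons (.rf (nat_lit 1478) (nat_lit 493858305440582043680)) (.cons (.rf (nat_lit 1479) (nat_lit 493858305440582043680)) (.cons (.br (nat_lit 6) (nat_lit 0) (.cons (.ev (nat_lit 159695507161385044795799502850) (nat_lit 3)) .nil)) .nil)))),
 (.br (nat_lit 8) (nat_lit 0) (.cons (.ev (nat_lit 309489750706912184917557505) (nat_lit 1)) (.cons (.br (nat_lit 11) (nat_lit 0) (.cons (.ev (nat_lit 79537652246452447011185623296) (nat_lit 1)) .nil)) (.cons (.br (nat_lit 11) (nat_lit 0) (.cons (.ev (nat_lit 40644666339892660168747837816835) (nat_lit 2)) .nil)) .nil)))),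
 (.br (nat_lit 12) (nat_lit 0) (.cons (.rf (nat_lit 1481) (nat_lit 493858305440582043680)) (.cons (.br (nat_lit 6) (nat_lit 0) (.cons (.ev (nat_lit 121695696785116518935114379691008) (nat_lit 3)) .nil)) (.cons (.rf (nat_lit 1481) (nat_lit 235600370082169063456)) .nil)))),
 (.br (nat_lit 12) (nat_lit 0) (.cons (.rf (nat_lit 1481) (nat_lit 493858305440582043680)) (.cons (.rf (nat_lit 1482) (nat_lit 493858305440582043680)) (.cons (.br (nat_lit 12) (nat_lit 0) (.cons (.rf (nat_lit 1481) (nat_lit 493858305440582043680)) (.cons (.rf (nat_lit 1482) (nat_lit 493858305440582043680)) (.cons (.rf (nat_lit 1481) (nat_lit 235600370082169063456)) .nil)))) (.cons (.rf (nat_lit 1481) (nat_lit 235600370082169063456)) .nil))))),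
 (.br (nat_lit 2) (nat_lit 0) (.cons (.rf (nat_lit 1483) (nat_lit 493858305440582043680)) (.cons (.br (nat_lit 13) (nat_lit 0) (.cons (.kr (nat_lit 4722366483969156841984) (nat_lit 20282409603651670705422228127744) (nat_lit 1) (nat_lit 0)) (.cons (.kr (nat_lit 1213648258156192369476098) (nat_lit 40564819207303341410844456255488) (nat_lit 0) (nat_lit 3)) .nil))) (.cons (.br (nat_lit 11) (nat_lit 0) (.cons (.br (nat_lit 12) (nat_lit 0) (.cons (.ev (nat_lit 40644666339892660168747804262915) (nat_lit 2)) .nil)) (.cons (.ev (nat_lit 79538856449977637464281448448) (nat_lit 1)) (.cons (.br (nat_lit 8) (nat_lit 0) (.cons (.ev (nat_lit 309489750706912184900780033) (nat_lit 1)) .nil)) .nil)))) (.cons (.br (nat_lit 12) (nat_lit 0) (.cons (.br (nat_lit 11) (nat_lit 0) (.cons (.ev (nat_lit 20361947251175756107713343389696) (nat_lit 1)) .nil)) (.cons (.br (nat_lit 8) (nat_lit 0) (.cons (.ev (nat_lit 20361947251175756107713343389696) (nat_lit 1)) .nil)) .nil))) .nil))))),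
 (.br (nat_lit 8) (nat_lit 0) (.cons (.rf (nat_lit 1483) (nat_lit 493858305440582043680)) (.cons (.rf (nat_lit 1484) (nat_lit 493858305440582043680)) (.cons (.br (nat_lit 2) (nat_lit 0) (.cons (.ev (nat_lit 309489750706912184917557505) (nat_lit 1)) (.cons (.br (nat_lit 6) (nat_lit 0) (.cons (.ev (nat_lit 40566058389399304292305748623360) (nat_lit 3)) .nil)) (.cons (.ev (nat_lit 20282719088680010570688035291393) (nat_lit 1)) .nil)))) (.cons (.rf (nat_lit 1484) (nat_lit 235600370082169063456)) .nil))))),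
 (.br (nat_lit 3) (nat_lit 0) (.cons (.kr (nat_lit 1) (nat_lit 65536) (nat_lit 0) (nat_lit 1)) (.cons (.rf (nat_lit 1467) (nat_lit 493858305440582043680)) (.cons (.br (nat_lit 8) (nat_lit 0) (.cons (.rf (nat_lit 1468) (nat_lit 493858305440582043680)) (.cons (.rf (nat_lit 1469) (nat_lit 493858305440582043680)) (.cons (.rf (nat_lit 1470) (nat_lit 493858305440582043680)) (.cons (.br (nat_lit 8) (nat_lit 0) (.cons (.rf (nat_lit 1468) (nat_lit 493858305440582043680)) (.cons (.rf (nat_lit 1469) (nat_lit 493858305440582043680)) (.cons (.rf (nat_lit 1470) (nat_lit 493858305440582043680)) .nil)))) .nil))))) (.cons (.br (nat_lit 2) (nat_lit 0) (.cons (.br (nat_lit 11) (nat_lit 0) (.cons (.br (nat_lit 13) (nat_lit 0) (.cons (.ev (nat_lit 309489750706912184917557505) (nat_lit 1)) (.cons (.br (nat_lit 8) (nat_lit 0) (.cons (.ev (nat_lit 309489750706912184917557505) (nat_lit 1)) .nil)) .nil))) (.cons (.ev (nat_lit 79537647524158021735595180288) (nat_lit 1)) (.cons (.br (nat_lit 8) (nat_lit 0) (.cons (.br (nat_lit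 8) (nat_lit 0) (.cons (.ev (nat_lit 121695696775671353623810828272640) (nat_lit 3)) .nil)) (.cons (.br (nat_lit 8) (nat_lit 0) (.cons (.ev (nat_lit 121695696775671353623810828272640) (nat_lit 3)) .nil)) .nil))) .nil)))) (.cons (.br (nat_lit 13) (nat_lit 0) (.cons (.rf (nat_lit 1472) (nat_lit 493858305440582043680)) (.cons (.rf (nat_lit 1474) (nat_lit 493858305440582043680)) (.cons (.rf (nat_lit 1476) (nat_lit 493858305440582043680)) (.cons (.br (nat_lit 13) (nat_lit 0) (.cons (.rf (nat_lit 1472) (nat_lit 493858305440582043680)) (.cons (.rf (nat_lit 1474) (nat_lit 493858305440582043680)) (.cons (.rf (nat_lit 1476) (nat_lit 493858305440582043680)) .nil)))) .nil))))) (.cons (.rf (nat_lit 1467) (nat_lit 488993331456888637441)) (.cons (.br (nat_lit 6) (nat_lit 0) (.cons (.rf (nat_lit 1477) (nat_lit 493858305440582043680)) (.cons (.ev (nat_lit 79537647524158021735595180288) (nat_lit 1)) (.cons (.br (nat_lit 8) (nat_lit 0) (.cons (.br (nat_lit 8) (nat_lit 0) (.cons (.ev (nat_lit 159695497716219733492315063300)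 (nat_lit 3)) .nil)) (.cons (.br (nat_lit 8) (nat_lit 0) (.cons (.ev (nat_lit 159695497716219733492315063300) (nat_lit 3)) .nil)) .nil))) .nil)))) (.cons (.br (nat_lit 8) (nat_lit 0) (.cons (.rf (nat_lit 1478) (nat_lit 493858305440582043680)) (.cons (.rf (nat_lit 1479) (nat_lit 493858305440582043680)) (.cons (.rf (nat_lit 1480) (nat_lit 493858305440582043680)) (.cons (.br (nat_lit 8) (nat_lit 0) (.cons (.rf (nat_lit 1478) (nat_lit 493858305440582043680)) (.cons (.rf (nat_lit 1479) (nat_lit 493858305440582043680)) (.cons (.rf (nat_lit 1480) (nat_lit 493858305440582043680)) .nil)))) .nil))))) .nil)))))) (.cons (.br (nat_lit 8) (nat_lit 0) (.cons (.rf (nat_lit 1483) (nat_lit 493858305440582043680)) (.cons (.rf (nat_lit 1484) (nat_lit 493858305440582043680)) (.cons (.rf (nat_lit 1485) (nat_lit 493858305440582043680)) (.cons (.br (nat_lit 8) (nat_lit 0) (.cons (.rf (nat_lit 1483) (nat_lit 493858305440582043680)) (.cons (.rf (nat_lit 1484) (nat_lit 493858305440582043680)) (.cons (.rf (nat_lit 1485) (nat_lit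 493858305440582043680)) (.cons (.rf (nat_lit 1484) (nat_lit 235600370082169063456)) .nil))))) (.cons (.rf (nat_lit 1484) (nat_lit 235600370082169063456)) .nil)))))) .nil)))))),
 (.br (nat_lit 6) (nat_lit 0) (.cons (.br (nat_lit 12) (nat_lit 0) (.cons (.ev (nat_lit 20520714270158373331101265494016) (nat_lit 2)) .nil)) .nil)),
 (.br (nat_lit 13) (nat_lit 0) (.cons (.ev (nat_lit 310693954087985250880782336) (nat_lit 1)) (.cons (.br (nat_lit 13) (nat_lit 0) (.cons (.ev (nat_lit 310693954087985250880782336) (nat_lit 1)) .nil)) .nil))),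
 (.br (nat_lit 8) (nat_lit 0) (.cons (.rf (nat_lit 1473) (nat_lit 493858303243706271776)) (.cons (.br (nat_lit 11) (nat_lit 0) (.cons (.ev (nat_lit 476608157144367192897099137028) (nat_lit 3)) .nil)) (.cons (.br (nat_lit 11) (nat_lit 0) (.cons (.ev (nat_lit 20282719088680010570688018513921) (nat_lit 1)) .nil)) .nil)))),
 (.br (nat_lit 6) (nat_lit 0) (.cons (.ev (nat_lit 309489750706912184917557505) (nat_lit 1)) (.cons (.br (nat_lit 11) (nat_lit 0) (.cons (.ev (nat_lit 20441484903422209119873539244290) (nat_lit 2)) .nil)) (.cons (.rf (nat_lit 1489) (nat_lit 493858305440582043680)) .nil)))),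
 (.br (nat_lit 13) (nat_lit 0) (.cons (.rf (nat_lit 1489) (nat_lit 493858305440582043680)) (.cons (.rf (nat_lit 1490) (nat_lit 493858305440582043680)) (.cons (.br (nat_lit 6) (nat_lit 0) (.cons (.ev (nat_lit 20441484912867086200800905528064) (nat_lit 2)) .nil)) .nil))))]

theorem c54 : chkAll C T R L54 (nat_lit 1462) = true := by decide +kernel

theorem l54 : (nat_lit 1462) + L54.length = (nat_lit 1492) := by decide +kernel

/-- part of the certificates -/
def L55 : List Prf := [(.br (nat_lit 13) (nat_lit 0) (.cons (.rf (nat_lit 1489) (nat_lit 493858305440582043680)) (.cons (.rf (nat_lit 1490) (nat_lit 493858305440582043680)) (.cons (.rf (nat_lit 1491) (nat_lit 493858305440582043680)) (.cons (.br (nat_lit 13) (nat_lit 0) (.cons (.rf (nat_lit 1489) (nat_lit 493858305440582043680)) (.cons (.rf (nat_lit 1490) (nat_lit 493858305440582043680)) (.cons (.rf (nat_lit 1491) (nat_lit 493858305440582043680)) .nil)))) .nil))))),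
 (.br (nat_lit 2) (nat_lit 0) (.cons (.rf (nat_lit 1492) (nat_lit 493858305440582043680)) (.cons (.br (nat_lit 12) (nat_lit 0) (.cons (.kr (nat_lit 72058693549555969) (nat_lit 79228162532711081667253633024) (nat_lit 0) (nat_lit 3)) (.cons (.kr (nat_lit 1213648258156192369476098) (nat_lit 158456325065422163334507266048) (nat_lit 0) (nat_lit 3)) .nil))) (.cons (.rf (nat_lit 1477) (nat_lit 493858303243706271776)) (.cons (.rf (nat_lit 1492) (nat_lit 235600370082169063456)) .nil))))),
 (.br (nat_lit 13) (nat_lit 0) (.cons (.rf (nat_lit 1492) (nat_lit 235600370082169063456)) (.cons (.br (nat_lit 2) (nat_lit 0) (.cons (.ev (nat_lit 309489750706912184917557505) (nat_lit 1)) (.cons (.ev (nat_lit 79537652246452447011202400256) (nat_lit 1)) (.cons (.rf (nat_lit 1492) (nat_lit 235600370082169063456)) .nil)))) (.cons (.rf (nat_lit 1493) (nat_lit 235600370082169063456)) (.cons (.br (nat_lit 2) (nat_lit 0) (.cons (.ev (nat_lit 79538856449977637464281448448) (nat_lit 1)) (.cons (.rf (nat_lit 1463) (nat_lit 236753291585702168608))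 (.cons (.rf (nat_lit 1492) (nat_lit 235600370082169063456)) .nil)))) .nil))))),
 (.br (nat_lit 2) (nat_lit 0) (.cons (.rf (nat_lit 1492) (nat_lit 493858305440582043680)) (.cons (.rf (nat_lit 1463) (nat_lit 486940776419383412768)) (.cons (.rf (nat_lit 1493) (nat_lit 488993331456888637441)) (.cons (.rf (nat_lit 1492) (nat_lit 235600370082169063456)) .nil))))),
 (.br (nat_lit 3) (nat_lit 0) (.cons (.kr (nat_lit 1) (nat_lit 65536) (nat_lit 0) (nat_lit 1)) (.cons (.rf (nat_lit 1486) (nat_lit 493858305440582043680)) (.cons (.br (nat_lit 2) (nat_lit 0) (.cons (.rf (nat_lit 1486) (nat_lit 488993331456888605697)) (.cons (.br (nat_lit 12) (nat_lit 0) (.cons (.rf (nat_lit 1487) (nat_lit 493858305440582043680)) (.cons (.rf (nat_lit 1487) (nat_lit 235600370082169063456)) .nil))) (.cons (.br (nat_lit 6) (nat_lit 0) (.cons (.rf (nat_lit 1488) (nat_lit 493858305440582043680)) (.cons (.rf (nat_lit 1488) (nat_lit 488993331456888605697)) (.cons (.br (nat_lit 6) (nat_lit 0) (.cons (.ev (nat_lit 309489750706912184900845568)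 (nat_lit 1)) (.cons (.ev (nat_lit 79537652246452447011202400256) (nat_lit 1)) .nil))) .nil)))) (.cons (.rf (nat_lit 1486) (nat_lit 230734305417267055617)) .nil))))) (.cons (.br (nat_lit 6) (nat_lit 0) (.cons (.rf (nat_lit 1492) (nat_lit 493858305440582043680)) (.cons (.rf (nat_lit 1493) (nat_lit 493858305440582043680)) (.cons (.rf (nat_lit 1494) (nat_lit 493858305440582043680)) (.cons (.rf (nat_lit 1495) (nat_lit 493858305440582043680)) (.cons (.br (nat_lit 6) (nat_lit 0) (.cons (.rf (nat_lit 1492) (nat_lit 493858305440582043680)) (.cons (.rf (nat_lit 1493) (nat_lit 493858305440582043680)) (.cons (.rf (nat_lit 1494) (nat_lit 493858305440582043680)) (.cons (.rf (nat_lit 1495) (nat_lit 493858305440582043680)) .nil))))) .nil)))))) (.cons (.rf (nat_lit 1486) (nat_lit 235600370082169063456)) .nil)))))),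
 (.br (nat_lit 13) (nat_lit 0) (.cons (.ev (nat_lit 310693954087985250897494273) (nat_lit 1)) (.cons (.br (nat_lit 13) (nat_lit 0) (.cons (.ev (nat_lit 310693954087985250897494273) (nat_lit 1)) .nil)) .nil))),
 (.br (nat_lit 2) (nat_lit 0) (.cons (.kr (nat_lit 1) (nat_lit 65536) (nat_lit 0) (nat_lit 1)) (.cons (.rf (nat_lit 1486) (nat_lit 488993331456888605697)) (.cons (.br (nat_lit 3) (nat_lit 0) (.cons (.rf (nat_lit 1486) (nat_lit 493858305440582043680)) (.cons (.rf (nat_lit 1496) (nat_lit 493858305440582043680)) (.cons (.br (nat_lit 6) (nat_lit 0) (.cons (.rf (nat_lit 1497) (nat_lit 493858305440582043680)) (.cons (.rf (nat_lit 1497) (nat_lit 488993331456888605697)) (.cons (.br (nat_lit 6) (nat_lit 0) (.cons (.ev (nat_lit 309489750706912184917557505) (nat_lit 1)) (.cons (.ev (nat_lit 79537652246452447011185688833) (nat_lit 1)) .nil))) .nil)))) (.cons (.rf (nat_lit 1486) (nat_lit 235600370082169063456)) .nil))))) (.cons (.rf (nat_lit 1496) (nat_lit 488993331456888605697)) (.cons (.rf (nat_lit 1486)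 (nat_lit 230734305417267055617)) .nil)))))),
 (.br (nat_lit 3) (nat_lit 0) (.cons (.kr (nat_lit 1) (nat_lit 65536) (nat_lit 0) (nat_lit 1)) (.cons (.rf (nat_lit 1486) (nat_lit 493858305440582043680)) (.cons (.rf (nat_lit 1496) (nat_lit 493858305440582043680)) (.cons (.rf (nat_lit 1498) (nat_lit 493858305440582043680)) (.cons (.br (nat_lit 3) (nat_lit 0) (.cons (.kr (nat_lit 1) (nat_lit 65536) (nat_lit 0) (nat_lit 1)) (.cons (.rf (nat_lit 1486) (nat_lit 493858305440582043680)) (.cons (.rf (nat_lit 1496) (nat_lit 493858305440582043680)) (.cons (.rf (nat_lit 1498) (nat_lit 493858305440582043680)) (.cons (.rf (nat_lit 1486) (nat_lit 235600370082169063456)) .nil)))))) (.cons (.rf (nat_lit 1486) (nat_lit 235600370082169063456)) .nil))))))),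
 (.br (nat_lit 11) (nat_lit 0) (.cons (.ev (nat_lit 309489750706912184917557505) (nat_lit 1)) (.cons (.ev (nat_lit 79538856449977637464264736768) (nat_lit 1)) (.cons (.br (nat_lit 8) (nat_lit 0) (.cons (.ev (nat_lit 121695696775671353623810828272640) (nat_lit 3)) .nil)) .nil)))),
 (.br (nat_lit 13) (nat_lit 0) (.cons (.rf (nat_lit 1500) (nat_lit 493858305440582043680)) (.cons (.rf (nat_lit 1500) (nat_lit 488993331456888605697)) (.cons (.kr (nat_lit 158456325065494222028056559616) (nat_lit 40564820420951527508343275913216) (nat_lit 5) (nat_lit 0)) .nil)))),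
 (.br (nat_lit 11) (nat_lit 0) (.cons (.ev (nat_lit 309489750706912184917557505) (nat_lit 1)) (.cons (.ev (nat_lit 79537647524158021735578337536) (nat_lit 1)) (.cons (.br (nat_lit 8) (nat_lit 0) (.cons (.ev (nat_lit 283956211554443532274329598036492) (nat_lit 4)) .nil)) .nil)))),
 (.br (nat_lit 4) (nat_lit 0) (.cons (.br (nat_lit 12) (nat_lit 0) (.cons (.ev (nat_lit 20282719093402304995963625799681) (nat_lit 1)) .nil)) (.cons (.rf (nat_lit 1502) (nat_lit 493858305440582043680)) (.cons (.br (nat_lit 11) (nat_lit 0) (.cons (.ev (nat_lit 283956211554443532274329598035982) (nat_lit 4)) .nil)) .nil)))),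
 (.br (nat_lit 4) (nat_lit 0) (.cons (.ev (nat_lit 309489750706912184917557248) (nat_lit 1)) (.cons (.ev (nat_lit 79537647524158021735578337536) (nat_lit 1)) (.cons (.br (nat_lit 8) (nat_lit 0) (.cons (.ev (nat_lit 283956211554443532274329598035982) (nat_lit 4)) .nil)) .nil)))),
 (.br (nat_lit 3) (nat_lit 0) (.cons (.rf (nat_lit 1499) (nat_lit 493858305440582011936)) (.cons (.br (nat_lit 4) (nat_lit 0) (.cons (.ev (nat_lit 310698676526525714580701185) (nat_lit 1)) (.cons (.br (nat_lit 11) (nat_lit 0) (.cons (.ev (nat_lit 309485028268371721234481408) (nat_lit 1)) (.cons (.br (nat_lit 12) (nat_lit 0) (.cons (.ev (nat_lit 20361948460101575721243006533888) (nat_lit 1)) .nil)) .nil))) (.cons (.br (nat_lit 11) (nat_lit 0) (.cons (.br (nat_lit 12) (nat_lit 0) (.cons (.ev (nat_lit 20361948460101575721243006533888) (nat_lit 1)) .nil)) (.cons (.ev (nat_lit 309485028268371721234481408) (nat_lit 1)) .nil))) .nil)))) (.cons (.rf (nat_lit 1499) (nat_lit 488993331456888605697)) (.cons (.br (nat_lit 13) (nat_lit 0)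 (.cons (.rf (nat_lit 1500) (nat_lit 493858305440582043680)) (.cons (.rf (nat_lit 1501) (nat_lit 493858305440582043680)) (.cons (.rf (nat_lit 1500) (nat_lit 488993331456888605697)) (.cons (.rf (nat_lit 1501) (nat_lit 488993331456888605697)) .nil))))) (.cons (.br (nat_lit 12) (nat_lit 0) (.cons (.rf (nat_lit 1502) (nat_lit 493858305440582043680)) (.cons (.rf (nat_lit 1503) (nat_lit 493858305440582043680)) (.cons (.rf (nat_lit 1504) (nat_lit 493858305440582043680)) (.cons (.br (nat_lit 12) (nat_lit 0) (.cons (.rf (nat_lit 1502) (nat_lit 493858305440582043680)) (.cons (.rf (nat_lit 1503) (nat_lit 493858305440582043680)) (.cons (.rf (nat_lit 1504) (nat_lit 493858305440582043680)) .nil)))) .nil))))) .nil)))))),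
 (.br (nat_lit 11) (nat_lit 0) (.cons (.ev (nat_lit 309489750706912184917557505) (nat_lit 1)) (.cons (.br (nat_lit 6) (nat_lit 0) (.cons (.ev (nat_lit 1111671435150487243487517083136) (nat_lit 4)) .nil)) (.cons (.ev (nat_lit 20282719093402304995963625799681) (nat_lit 1)) .nil)))),
 (.br (nat_lit 4) (nat_lit 0) (.cons (.br (nat_lit 12) (nat_lit 0) (.cons (.ev (nat_lit 79537647524158021735578337536) (nat_lit 1)) .nil)) (.cons (.br (nat_lit 11) (nat_lit 0) (.cons (.ev (nat_lit 1111671435150487243487517082626) (nat_lit 4)) .nil)) (.cons (.rf (nat_lit 1506) (nat_lit 493858305440582043680)) .nil)))),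
 (.br (nat_lit 4) (nat_lit 0) (.cons (.ev (nat_lit 309489750706912184917557248) (nat_lit 1)) (.cons (.br (nat_lit 6) (nat_lit 0) (.cons (.ev (nat_lit 1111671435150487243487517082626) (nat_lit 4)) .nil)) (.cons (.ev (nat_lit 20282719093402304995963625799681) (nat_lit 1)) .nil)))),
 (.br (nat_lit 11) (nat_lit 0) (.cons (.ev (nat_lit 309489750706912184917557505) (nat_lit 1)) (.cons (.br (nat_lit 6) (nat_lit 0) (.cons (.ev (nat_lit 476608128810024180491118576640) (nat_lit 3)) .nil)) (.cons (.ev (nat_lit 20282720302328124611692312199425) (nat_lit 1)) .nil)))),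
 (.br (nat_lit 12) (nat_lit 0) (.cons (.rf (nat_lit 1509) (nat_lit 493858305440582043680)) (.cons (.br (nat_lit 4) (nat_lit 0) (.cons (.ev (nat_lit 20282719088680010570688018579456) (nat_lit 1)) .nil)) (.cons (.kr (nat_lit 158457533991313835557719638018) (nat_lit 40564819212025707894813612835328) (nat_lit 0) (nat_lit 2)) .nil)))),
 (.br (nat_lit 3) (nat_lit 0) (.cons (.rf (nat_lit 1499) (nat_lit 493858305440582011936)) (.cons (.rf (nat_lit 1505) (nat_lit 493858305440582043680)) (.cons (.rf (nat_lit 1499) (nat_lit 488993331456888605697)) (.cons (.br (nat_lit 13) (nat_lit 0) (.cons (.rf (nat_lit 1506) (nat_lit 493858305440582043680)) (.cons (.rf (nat_lit 1507) (nat_lit 493858305440582043680)) (.cons (.rf (nat_lit 1508) (nat_lit 493858305440582043680)) (.cons (.br (nat_lit 13) (nat_lit 0) (.cons (.rf (nat_lit 1506) (nat_lit 493858305440582043680)) (.cons (.rf (nat_lit 1507) (nat_lit 493858305440582043680)) (.cons (.rf (nat_lit 1508) (nat_lit 493858305440582043680)) .nil)))) .nil))))) (.cons (.br (nat_lit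 12) (nat_lit 0) (.cons (.rf (nat_lit 1509) (nat_lit 493858305440582043680)) (.cons (.rf (nat_lit 1510) (nat_lit 493858305440582043680)) (.cons (.br (nat_lit 4) (nat_lit 0) (.cons (.ev (nat_lit 309489750706912184917557248) (nat_lit 1)) (.cons (.rf (nat_lit 1509) (nat_lit 493858305440582043680)) (.cons (.ev (nat_lit 20282720302328124611692312199168) (nat_lit 1)) .nil)))) (.cons (.rf (nat_lit 1510) (nat_lit 235600370082169031712)) .nil))))) .nil)))))),
 (.br (nat_lit 12) (nat_lit 0) (.cons (.ev (nat_lit 20361948460101575721243006533633) (nat_lit 1)) .nil)),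
 (.br (nat_lit 11) (nat_lit 0) (.cons (.ev (nat_lit 20282719088680010570688018513921) (nat_lit 1)) .nil)),
 (.br (nat_lit 8) (nat_lit 0) (.cons (.rf (nat_lit 1512) (nat_lit 493858305440582043680)) (.cons (.br (nat_lit 11) (nat_lit 0) (.cons (.ev (nat_lit 794758737795833977331953829390) (nat_lit 4)) .nil)) (.cons (.rf (nat_lit 1513) (nat_lit 493858305440582043680)) .nil)))),
 (.br (nat_lit 11) (nat_lit 0) (.cons (.rf (nat_lit 1512) (nat_lit 493858303243706271776)) (.cons (.br (nat_lit 6) (nat_lit 0) (.cons (.ev (nat_lit 202826573130391395915358995087874) (nat_lit 4)) .nil)) (.cons (.rf (nat_lit 1514) (nat_lit 230734305417267055617)) .nil)))),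
 (.br (nat_lit 8) (nat_lit 0) (.cons (.ev (nat_lit 20282719088680010570688018513921) (nat_lit 1)) .nil)),
 (.br (nat_lit 3) (nat_lit 0) (.cons (.rf (nat_lit 1499) (nat_lit 493858305440582011936)) (.cons (.rf (nat_lit 1505) (nat_lit 493858305440582043680)) (.cons (.rf (nat_lit 1511) (nat_lit 493858305440582043680)) (.cons (.rf (nat_lit 1499) (nat_lit 488993331456888605697)) (.cons (.br (nat_lit 4) (nat_lit 0) (.cons (.rf (nat_lit 1514) (nat_lit 493858305440582043680)) (.cons (.rf (nat_lit 1515) (nat_lit 493858305440582043680)) (.cons (.br (nat_lit 6) (nat_lit 0) (.cons (.rf (nat_lit 1095) (nat_lit 493858305440582043680)) (.cons (.rf (nat_lit 1096) (nat_lit 493858305440582043680)) (.cons (.br (nat_lit 8) (nat_lit 0) (.cons (.ev (nat_lit 20838244709680490823794211161606) (nat_lit 3)) .nil)) .nil)))) (.cons (.br (nat_lit 11) (nat_lit 0) (.cons (.rf (nat_lit 1516) (nat_lit 493858305440582043680)) (.cons (.br (nat_lit 6) (nat_lit 0) (.cons (.ev (nat_lit 202826573130391395915358995089930) (nat_lit 4)) .nil))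 (.cons (.rf (nat_lit 1512) (nat_lit 230734305417267055617)) .nil)))) (.cons (.br (nat_lit 11) (nat_lit 0) (.cons (.br (nat_lit 8) (nat_lit 0) (.cons (.ev (nat_lit 794758737795833977331953831430) (nat_lit 4)) .nil)) (.cons (.rf (nat_lit 1516) (nat_lit 230734305417267055617)) (.cons (.rf (nat_lit 1512) (nat_lit 230734306515704941569)) .nil)))) .nil)))))) .nil)))))),
 (.br (nat_lit 3) (nat_lit 0) (.cons (.rf (nat_lit 1499) (nat_lit 493858305440582011936)) (.cons (.rf (nat_lit 1505) (nat_lit 493858305440582043680)) (.cons (.rf (nat_lit 1511) (nat_lit 493858305440582043680)) (.cons (.rf (nat_lit 1499) (nat_lit 488993331456888605697)) (.cons (.rf (nat_lit 1517) (nat_lit 493858305440582043680)) (.cons (.br (nat_lit 3) (nat_lit 0) (.cons (.rf (nat_lit 1499) (nat_lit 493858305440582011936)) (.cons (.rf (nat_lit 1505) (nat_lit 493858305440582043680)) (.cons (.rf (nat_lit 1511) (nat_lit 493858305440582043680)) (.cons (.rf (nat_lit 1499) (nat_lit 488993331456888605697)) (.cons (.rf (nat_lit 1517) (nat_lit 493858305440582043680))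 .nil)))))) .nil))))))),
 (.br (nat_lit 8) (nat_lit 0) (.cons (.ev (nat_lit 310698676526525714563858433) (nat_lit 1)) (.cons (.br (nat_lit 11) (nat_lit 0) (.cons (.ev (nat_lit 20283028587875306896374120972800) (nat_lit 2)) .nil)) .nil)))]

theorem c55 : chkAll C T R L55 (nat_lit 1492) = true := by decide +kernel

theorem l55 : (nat_lit 1492) + L55.length = (nat_lit 1520) := by decide +kernel

/-- part of the certificates -/
def L56 : List Prf := [(.br (nat_lit 4) (nat_lit 0) (.cons (.ev (nat_lit 309485028268371721217638401) (nat_lit 1)) (.cons (.br (nat_lit 8) (nat_lit 0) (.cons (.ev (nat_lit 79847146737900810020413636610) (nat_lit 2)) .nil)) .nil))),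
 (.br (nat_lit 3) (nat_lit 0) (.cons (.rf (nat_lit 1499) (nat_lit 493858305440582011936)) (.cons (.rf (nat_lit 1518) (nat_lit 493858305440582011936)) (.cons (.rf (nat_lit 1499) (nat_lit 488993331456888605697)) (.cons (.rf (nat_lit 1518) (nat_lit 488993331456888605697)) (.cons (.br (nat_lit 8) (nat_lit 0) (.cons (.rf (nat_lit 1519) (nat_lit 493858305440582043680)) (.cons (.rf (nat_lit 1520) (nat_lit 15395881028740548640)) (.cons (.br (nat_lit 8) (nat_lit 0) (.cons (.rf (nat_lit 1519) (nat_lit 493858305440582043680)) (.cons (.rf (nat_lit 1520) (nat_lit 15395881028740548640)) .nil))) .nil)))) .nil)))))),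
 (.br (nat_lit 11) (nat_lit 0) (.cons (.br (nat_lit 12) (nat_lit 0) (.cons (.ev (nat_lit 20361947251175756107713326612736) (nat_lit 1)) .nil)) (.cons (.rf (nat_lit 1516) (nat_lit 486940776419383381024)) (.cons (.br (nat_lit 8) (nat_lit 0) (.cons (.ev (nat_lit 20441484903422209119873522467075) (nat_lit 2)) .nil)) .nil)))),
 (.br (nat_lit 12) (nat_lit 0) (.cons (.ev (nat_lit 20838244690791313122691748594178) (nat_lit 3)) .nil)),
 (.br (nat_lit 3) (nat_lit 0) (.cons (.rf (nat_lit 1499) (nat_lit 493858305440582011936)) (.cons (.rf (nat_lit 1518) (nat_lit 493858305440582011936)) (.cons (.rf (nat_lit 1499) (nat_lit 488993331456888605697)) (.cons (.br (nat_lit 4) (nat_lit 0) (.cons (.rf (nat_lit 1522) (nat_lit 493858305440582043680)) (.cons (.br (nat_lit 11) (nat_lit 0) (.cons (.rf (nat_lit 1516) (nat_lit 486687488449822395393)) (.cons (.br (nat_lit 6) (nat_lit 0) (.cons (.ev (nat_lit 40644666339892660168747787616256) (nat_lit 2)) .nil)) (.cons (.rf (nat_lit 1516) (nat_lit 236498912934932581377)) .nil))))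 (.cons (.br (nat_lit 6) (nat_lit 0) (.cons (.rf (nat_lit 1523) (nat_lit 493858305440582043680)) (.cons (.rf (nat_lit 1523) (nat_lit 488993331456888637441)) (.cons (.zr (nat_lit 3640944774468577108557832) (nat_lit 81130257384626325511835052147200) (nat_lit 10) (nat_lit 4)) .nil)))) (.cons (.br (nat_lit 6) (nat_lit 0) (.cons (.rf (nat_lit 1513) (nat_lit 236753291585702136864)) (.cons (.rf (nat_lit 1522) (nat_lit 488993331456888637441)) (.cons (.br (nat_lit 8) (nat_lit 0) (.cons (.ev (nat_lit 40644666339892660168747787616770) (nat_lit 2)) .nil)) .nil)))) (.cons (.rf (nat_lit 1522) (nat_lit 235600370082169063456)) .nil)))))) (.cons (.rf (nat_lit 1518) (nat_lit 235600370082169031712)) .nil)))))),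
 (.br (nat_lit 2) (nat_lit 0) (.cons (.rf (nat_lit 1057) (nat_lit 11514399472845826)) (.cons (.rf (nat_lit 1499) (nat_lit 493858305440582043680)) (.cons (.rf (nat_lit 1518) (nat_lit 493858305440582043680)) (.cons (.rf (nat_lit 1499) (nat_lit 488993331456888637441)) (.cons (.rf (nat_lit 1518) (nat_lit 488993331456888637441)) (.cons (.br (nat_lit 3) (nat_lit 0) (.cons (.rf (nat_lit 1499) (nat_lit 493858305440582011936)) (.cons (.rf (nat_lit 1521) (nat_lit 493858305440582043680)) (.cons (.rf (nat_lit 1524) (nat_lit 493858305440582043680)) (.cons (.rf (nat_lit 1499) (nat_lit 488993331456888605697)) (.cons (.rf (nat_lit 1524) (nat_lit 488993331456888637441)) (.cons (.rf (nat_lit 1521) (nat_lit 235600370082169063456)) .nil))))))) .nil))))))),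
 (.br (nat_lit 6) (nat_lit 0) (.cons (.ev (nat_lit 309485028268371721217638401) (nat_lit 1)) (.cons (.br (nat_lit 11) (nat_lit 0) (.cons (.ev (nat_lit 79847132589463996792324621059) (nat_lit 2)) .nil)) .nil))),
 (.br (nat_lit 3) (nat_lit 0) (.cons (.rf (nat_lit 1499) (nat_lit 493858305440582011936)) (.cons (.rf (nat_lit 1525) (nat_lit 493858305440582011936)) (.cons (.rf (nat_lit 1499) (nat_lit 488993331456888605697)) (.cons (.br (nat_lit 6) (nat_lit 0) (.cons (.rf (nat_lit 1526) (nat_lit 14242959524133701664)) (.cons (.rf (nat_lit 1526) (nat_lit 9377985540440295425)) (.cons (.br (nat_lit 6) (nat_lit 0) (.cons (.rf (nat_lit 1526) (nat_lit 14242959524133701664)) (.cons (.rf (nat_lit 1526) (nat_lit 9377985540440295425)) .nil))) .nil)))) (.cons (.rf (nat_lit 1525) (nat_lit 235600370082169031712)) .nil)))))),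
 (.br (nat_lit 2) (nat_lit 0) (.cons (.rf (nat_lit 1457) (nat_lit 493858305440582042688)) (.cons (.rf (nat_lit 1499) (nat_lit 493858305440582043680)) (.cons (.rf (nat_lit 1525) (nat_lit 493858305440582043680)) (.cons (.rf (nat_lit 1499) (nat_lit 488993331456888637441)) (.cons (.br (nat_lit 3) (nat_lit 0) (.cons (.rf (nat_lit 1499) (nat_lit 493858305440582011936)) (.cons (.rf (nat_lit 1525) (nat_lit 493858305440582011936)) (.cons (.rf (nat_lit 1527) (nat_lit 493858305440582043680)) (.cons (.rf (nat_lit 1499) (nat_lit 488993331456888605697)) (.cons (.rf (nat_lit 1527) (nat_lit 488993331456888637441)) (.cons (.rf (nat_lit 1525) (nat_lit 235600370082169031712)) .nil))))))) (.cons (.rf (nat_lit 1525) (nat_lit 235600370082169063456)) .nil))))))),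
 (.br (nat_lit 2) (nat_lit 0) (.cons (.br (nat_lit 2) (nat_lit 0) (.cons (.kr (nat_lit 1) (nat_lit 65536) (nat_lit 0) (nat_lit 1)) (.cons (.rf (nat_lit 1057) (nat_lit 11514399472845826)) (.cons (.rf (nat_lit 1457) (nat_lit 493858305440582042688)) (.cons (.kr (nat_lit 256) (nat_lit 65536) (nat_lit 1) (nat_lit 0)) (.cons (.rf (nat_lit 1457) (nat_lit 488993331456888635457)) (.cons (.rf (nat_lit 1057) (nat_lit 8242115571188738)) .nil))))))) (.cons (.rf (nat_lit 1499) (nat_lit 493858305440582043680)) (.cons (.rf (nat_lit 1525) (nat_lit 493858305440582043680)) (.cons (.rf (nat_lit 1528) (nat_lit 493858305440582043680)) (.cons (.rf (nat_lit 1499) (nat_lit 488993331456888637441)) (.cons (.rf (nat_lit 1528) (nat_lit 488993331456888637441)) (.cons (.rf (nat_lit 1525) (nat_lit 235600370082169063456)) .nil)))))))),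
 (.br (nat_lit 1) (nat_lit 0) (.cons (.kr (nat_lit 1) (nat_lit 256) (nat_lit 0) (nat_lit 2)) (.cons (.rf (nat_lit 1057) (nat_lit 11514399472846849)) (.cons (.rf (nat_lit 1457) (nat_lit 493858305440582043680)) (.cons (.rf (nat_lit 1529) (nat_lit 493858305440582043680)) (.cons (.rf (nat_lit 1529) (nat_lit 492741412732994160672)) (.cons (.rf (nat_lit 1057) (nat_lit 8242115571189761)) .nil))))))),
 (.br (nat_lit 2) (nat_lit 0) (.cons (.br (nat_lit 12) (nat_lit 0) (.cons (.zr (nat_lit 237684487598205303695310062592) (nat_lit 313125954379637569496350721) (nat_lit 5) (nat_lit 2)) .nil)) (.cons (.ev (nat_lit 20282409603651670425051057946624) (nat_lit 1)) .nil))),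
 (.br (nat_lit 13) (nat_lit 0) (.cons (.ev (nat_lit 20282409603651670425051057946624) (nat_lit 1)) (.cons (.ev (nat_lit 20282410812577490038580720959744) (nat_lit 1)) (.cons (.br (nat_lit 8) (nat_lit 0) (.cons (.ev (nat_lit 20440865942884192881423759311105) (nat_lit 2)) .nil)) .nil)))),
 (.br (nat_lit 2) (nat_lit 0) (.cons (.br (nat_lit 12) (nat_lit 0) (.cons (.ev (nat_lit 79538856449977637464281448705) (nat_lit 1)) .nil)) (.cons (.br (nat_lit 11) (nat_lit 0) (.cons (.ev (nat_lit 79538856449977637464281448705) (nat_lit 1)) .nil)) (.cons (.ev (nat_lit 20282409603651670425051057946624) (nat_lit 1)) .nil)))),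
 (.br (nat_lit 2) (nat_lit 0) (.cons (.br (nat_lit 12) (nat_lit 0) (.cons (.ev (nat_lit 20361948460101575721243006533888) (nat_lit 1)) .nil)) (.cons (.ev (nat_lit 79538856449977637464281448705) (nat_lit 1)) (.cons (.ev (nat_lit 20282410812577490038580720959744) (nat_lit 1)) .nil)))),
 (.br (nat_lit 10) (nat_lit 0) (.cons (.ev (nat_lit 79228162514264338697367322881) (nat_lit 1)) .nil)),
 (.br (nat_lit 1) (nat_lit 0) (.cons (.br (nat_lit 2) (nat_lit 0) (.cons (.zr (nat_lit 18446744073726328835) (nat_lit 4295033344) (nat_lit 5) (nat_lit 3)) (.cons (.br (nat_lit 12) (nat_lit 0) (.cons (.ev (nat_lit 158457567048024462247990525952) (nat_lit 3)) (.cons (.ev (nat_lit 158457557603435611696775823872) (nat_lit 3)) .nil))) (.cons (.ev (nat_lit 4722366764348916957441) (nat_lit 1)) .nil)))) (.cons (.br (nat_lit 13) (nat_lit 0) (.cons (.rf (nat_lit 215) (nat_lit 14135860700811200544)) (.cons (.rf (nat_lit 1531) (nat_lit 493858305440582043680)) (.cons (.br (nat_lit 13) (nat_lit 0) (.cons (.ev (nat_lit 20282410812577490038580720959744)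 (nat_lit 1)) (.cons (.rf (nat_lit 1531) (nat_lit 493858305440582043680)) .nil))) .nil)))) (.cons (.br (nat_lit 13) (nat_lit 0) (.cons (.rf (nat_lit 1532) (nat_lit 493858305440582043680)) (.cons (.rf (nat_lit 1533) (nat_lit 493858305440582043680)) (.cons (.rf (nat_lit 1534) (nat_lit 493858305440582043680)) (.cons (.br (nat_lit 13) (nat_lit 0) (.cons (.rf (nat_lit 1532) (nat_lit 493858305440582043680)) (.cons (.rf (nat_lit 1533) (nat_lit 493858305440582043680)) (.cons (.rf (nat_lit 1534) (nat_lit 493858305440582043680)) .nil)))) .nil))))) (.cons (.br (nat_lit 2) (nat_lit 0) (.cons (.ev (nat_lit 4722366764348916957441) (nat_lit 1)) (.cons (.br (nat_lit 12) (nat_lit 0) (.cons (.br (nat_lit 12) (nat_lit 0) (.cons (.ev (nat_lit 158457567048024462247957104130) (nat_lit 3)) .nil)) (.cons (.br (nat_lit 8) (nat_lit 0) (.cons (.ev (nat_lit 158457567048024462247957104130) (nat_lit 3)) .nil)) .nil))) (.cons (.br (nat_lit 8) (nat_lit 0) (.cons (.ev (nat_lit 620212039138477198318764032) (nat_lit 3)) (.cons (.rf (nat_lit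 1535) (nat_lit 15433072043909810208)) (.cons (.ev (nat_lit 20282410812577490038580737802241) (nat_lit 1)) .nil)))) (.cons (.br (nat_lit 12) (nat_lit 0) (.cons (.br (nat_lit 11) (nat_lit 0) (.cons (.ev (nat_lit 79537652246452447011185688576) (nat_lit 1)) .nil)) (.cons (.br (nat_lit 8) (nat_lit 0) (.cons (.ev (nat_lit 79537652246452447011185688576) (nat_lit 1)) .nil)) .nil))) .nil))))) .nil))))),
 (.br (nat_lit 13) (nat_lit 0) (.cons (.br (nat_lit 12) (nat_lit 0) (.cons (.ev (nat_lit 958166813574243424006575360520) (nat_lit 5)) .nil)) (.cons (.br (nat_lit 6) (nat_lit 0) (.cons (.ev (nat_lit 958166813574243424006575360520) (nat_lit 5)) .nil)) .nil))),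
 (.br (nat_lit 6) (nat_lit 0) (.cons (.ev (nat_lit 79537647524158021735595180033) (nat_lit 1)) .nil)),
 (.br (nat_lit 2) (nat_lit 0) (.cons (.rf (nat_lit 1536) (nat_lit 493858305440582043680)) (.cons (.br (nat_lit 12) (nat_lit 0) (.cons (.rf (nat_lit 1537) (nat_lit 493858305440582043680)) (.cons (.br (nat_lit 12) (nat_lit 0) (.cons (.rf (nat_lit 1537) (nat_lit 493858305440582043680)) (.cons (.ev (nat_lit 79537652246452447011185688576) (nat_lit 1)) .nil))) (.cons (.br (nat_lit 12) (nat_lit 0) (.cons (.rf (nat_lit 1537) (nat_lit 493858305440582043680)) (.cons (.ev (nat_lit 79537652246452447011185688576) (nat_lit 1)) .nil))) .nil)))) (.cons (.br (nat_lit 1) (nat_lit 0) (.cons (.ev (nat_lit 72339073326448896) (nat_lit 1)) (.cons (.br (nat_lit 13) (nat_lit 0) (.cons (.br (nat_lit 12) (nat_lit 0) (.cons (.ev (nat_lit 40644356859586758559176480260352) (nat_lit 2)) .nil)) (.cons (.br (nat_lit 6) (nat_lit 0) (.cons (.ev (nat_lit 40644356859586758559176480260352) (nat_lit 2)) .nil)) .nil))) (.cons (.br (nat_lit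 11) (nat_lit 0) (.cons (.kr (nat_lit 309485009821345068724846592) (nat_lit 79228162514264337593560727552) (nat_lit 2) (nat_lit 0)) (.cons (.kr (nat_lit 618970019714748830999248896) (nat_lit 158457538676714772685941374976) (nat_lit 2) (nat_lit 0)) .nil))) (.cons (.br (nat_lit 6) (nat_lit 0) (.cons (.br (nat_lit 12) (nat_lit 0) (.cons (.ev (nat_lit 79537652246452447011185688576) (nat_lit 1)) .nil)) (.cons (.rf (nat_lit 1535) (nat_lit 15433071977337817120)) (.cons (.ev (nat_lit 20282410812577490038580737802241) (nat_lit 1)) .nil)))) .nil))))) (.cons (.br (nat_lit 1) (nat_lit 0) (.cons (.br (nat_lit 11) (nat_lit 0) (.cons (.br (nat_lit 12) (nat_lit 0) (.cons (.zr (nat_lit 1213648330214885919031301) (nat_lit 20283028573689760139637698920960) (nat_lit 5) (nat_lit 4)) .nil)) (.cons (.ev (nat_lit 40564820430396766008655577481220) (nat_lit 3)) .nil))) (.cons (.rf (nat_lit 215) (nat_lit 14063803108920756256)) (.cons (.br (nat_lit 13) (nat_lit 0) (.cons (.ev (nat_lit 20282409603651670425051057946624) (nat_lit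 1)) (.cons (.ev (nat_lit 20282409608374108965514741022976) (nat_lit 1)) (.cons (.rf (nat_lit 1538) (nat_lit 493858305440582043680)) .nil)))) (.cons (.br (nat_lit 12) (nat_lit 0) (.cons (.br (nat_lit 11) (nat_lit 0) (.cons (.zr (nat_lit 60847228810955156233653833433344) (nat_lit 1239153724364965929728212992) (nat_lit 10) (nat_lit 6)) .nil)) (.cons (.br (nat_lit 6) (nat_lit 0) (.cons (.zr (nat_lit 60847228810955156233653833433344) (nat_lit 1239153724364965929728212992) (nat_lit 10) (nat_lit 6)) .nil)) .nil))) .nil))))) .nil))))),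
 (.br (nat_lit 13) (nat_lit 0) (.cons (.br (nat_lit 12) (nat_lit 0) (.cons (.ev (nat_lit 20282719088680010570688018514176) (nat_lit 1)) .nil)) (.cons (.br (nat_lit 8) (nat_lit 0) (.cons (.ev (nat_lit 20282719088680010570688018514176) (nat_lit 1)) .nil)) .nil))),
 (.br (nat_lit 8) (nat_lit 0) (.cons (.ev (nat_lit 309485028268371721217704193) (nat_lit 1)) .nil)),
 (.br (nat_lit 6) (nat_lit 0) (.cons (.ev (nat_lit 309485028268371721217704193) (nat_lit 1)) .nil)),
 (.br (nat_lit 2) (nat_lit 0) (.cons (.rf (nat_lit 1536) (nat_lit 493858305440582043680)) (.cons (.rf (nat_lit 1539) (nat_lit 493858305440582043680)) (.cons (.br (nat_lit 1) (nat_lit 0) (.cons (.rf (nat_lit 1540) (nat_lit 493858305440582043680)) (.cons (.kr (nat_lit 1208925891672223212634624) (nat_lit 4722366483969156972544) (nat_lit 1) (nat_lit 0)) (.cons (.br (nat_lit 13) (nat_lit 0) (.cons (.ev (nat_lit 79537652246452447011202400513) (nat_lit 1)) (.cons (.br (nat_lit 6) (nat_lit 0) (.cons (.ev (nat_lit 310698676526525714563924225) (nat_lit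 1)) .nil)) .nil))) (.cons (.br (nat_lit 12) (nat_lit 0) (.cons (.rf (nat_lit 1541) (nat_lit 493858305440582043680)) (.cons (.rf (nat_lit 1542) (nat_lit 493858305440582043680)) (.cons (.ev (nat_lit 20361948464824014261706689609728) (nat_lit 1)) .nil)))) .nil))))) (.cons (.br (nat_lit 1) (nat_lit 0) (.cons (.br (nat_lit 13) (nat_lit 0) (.cons (.ev (nat_lit 40564820430396766008655577481220) (nat_lit 3)) (.cons (.ev (nat_lit 121694458854447747194321625154052) (nat_lit 3)) .nil))) (.cons (.zr (nat_lit 1213685079585646272577542) (nat_lit 72058702139622400) (nat_lit 10) (nat_lit 3)) (.cons (.br (nat_lit 13) (nat_lit 0) (.cons (.rf (nat_lit 1541) (nat_lit 458117738797769787424)) (.cons (.rf (nat_lit 1542) (nat_lit 458117738797769787424)) (.cons (.ev (nat_lit 20361948464824014261706689609728) (nat_lit 1)) .nil)))) (.cons (.br (nat_lit 12) (nat_lit 0) (.cons (.br (nat_lit 8) (nat_lit 0) (.cons (.ev (nat_lit 310698676526525714563924225) (nat_lit 1)) .nil)) (.cons (.ev (nat_lit 20282719088680010570688035356673)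 (nat_lit 1)) .nil))) .nil))))) .nil))))),
 (.br (nat_lit 8) (nat_lit 0) (.cons (.kr (nat_lit 20282409603651670705422227996672) (nat_lit 79228162532711081667253501952) (nat_lit 6) (nat_lit 0)) .nil)),
 (.br (nat_lit 11) (nat_lit 0) (.cons (.ev (nat_lit 79229371458530977775699886336) (nat_lit 1)) .nil)),
 (.br (nat_lit 8) (nat_lit 0) (.cons (.ev (nat_lit 79537652246452447011185688576) (nat_lit 1)) .nil)),
 (.br (nat_lit 2) (nat_lit 0) (.cons (.rf (nat_lit 1536) (nat_lit 493858305440582043680)) (.cons (.rf (nat_lit 1539) (nat_lit 493858305440582043680)) (.cons (.rf (nat_lit 1543) (nat_lit 493858305440582043680)) (.cons (.br (nat_lit 1) (nat_lit 0) (.cons (.br (nat_lit 8) (nat_lit 0) (.cons (.br (nat_lit 12) (nat_lit 0) (.cons (.ev (nat_lit 20283338072903791157199174107904) (nat_lit 2)) .nil)) (.cons (.br (nat_lit 11) (nat_lit 0) (.cons (.ev (nat_lit 20282719093402304995963625865216) (nat_lit 1)) .nil)) (.cons (.br (nat_lit 11) (nat_lit 0) (.cons (.ev (nat_lit 20282719088680010570688018514176) (nat_lit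 1)) .nil)) .nil)))) (.cons (.br (nat_lit 6) (nat_lit 0) (.cons (.br (nat_lit 12) (nat_lit 0) (.cons (.ev (nat_lit 20283338072903791157199174107904) (nat_lit 2)) .nil)) (.cons (.br (nat_lit 11) (nat_lit 0) (.cons (.ev (nat_lit 121853534159014582621266446910468) (nat_lit 3)) .nil)) (.cons (.br (nat_lit 11) (nat_lit 0) (.cons (.ev (nat_lit 121853534140125404920164018028548) (nat_lit 3)) .nil)) .nil)))) (.cons (.br (nat_lit 6) (nat_lit 0) (.cons (.ev (nat_lit 309485028268371721234415616) (nat_lit 1)) (.cons (.rf (nat_lit 1544) (nat_lit 493858305440582043680)) (.cons (.br (nat_lit 8) (nat_lit 0) (.cons (.ev (nat_lit 20520713061232553717571619127296) (nat_lit 2)) .nil)) .nil)))) (.cons (.br (nat_lit 11) (nat_lit 0) (.cons (.br (nat_lit 8) (nat_lit 0) (.cons (.ev (nat_lit 20282719088680010570688018514176) (nat_lit 1)) .nil)) (.cons (.kr (nat_lit 618970019714748830999248896) (nat_lit 158457538676714772685941374976) (nat_lit 2) (nat_lit 0)) (.cons (.ev (nat_lit 20282409608374108965514741022976) (nat_lit 1))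 .nil)))) (.cons (.br (nat_lit 6) (nat_lit 0) (.cons (.rf (nat_lit 1545) (nat_lit 493858305440582043680)) (.cons (.rf (nat_lit 1546) (nat_lit 493858305440582043680)) (.cons (.br (nat_lit 8) (nat_lit 0) (.cons (.ev (nat_lit 317532862170271029845437710340) (nat_lit 3)) .nil)) .nil)))) .nil)))))) .nil)))))]

theorem c56 : chkAll C T R L56 (nat_lit 1520) = true := by decide +kernel

theorem l56 : (nat_lit 1520) + L56.length = (nat_lit 1548) := by decide +kernel

/-- part of the certificates -/
def L57 : List Prf := [(.br (nat_lit 2) (nat_lit 0) (.cons (.rf (nat_lit 1536) (nat_lit 493858305440582043680)) (.cons (.rf (nat_lit 1539) (nat_lit 493858305440582043680)) (.cons (.rf (nat_lit 1543) (nat_lit 493858305440582043680)) (.cons (.rf (nat_lit 1547) (nat_lit 493858305440582043680)) (.cons (.br (nat_lit 2) (nat_lit 0) (.cons (.rf (nat_lit 1536) (nat_lit 493858305440582043680)) (.cons (.rf (nat_lit 1539) (nat_lit 493858305440582043680)) (.cons (.rf (nat_lit 1543) (nat_lit 493858305440582043680)) (.cons (.rf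 (nat_lit 1547) (nat_lit 493858305440582043680)) .nil))))) .nil)))))),
 (.br (nat_lit 11) (nat_lit 0) (.cons (.ev (nat_lit 620202594549626647137485312) (nat_lit 3)) (.cons (.ev (nat_lit 620193149960776095923307520) (nat_lit 3)) .nil))),
 (.br (nat_lit 2) (nat_lit 0) (.cons (.rf (nat_lit 1549) (nat_lit 493858305440582043680)) (.cons (.rf (nat_lit 1549) (nat_lit 492741412732994160672)) (.cons (.ev (nat_lit 4722366764348916957441) (nat_lit 1)) .nil)))),
 (.br (nat_lit 2) (nat_lit 0) (.cons (.rf (nat_lit 1550) (nat_lit 493858305440582043680)) (.cons (.kr (nat_lit 1208925891672223212634624) (nat_lit 4722366483969156972544) (nat_lit 1) (nat_lit 0)) (.cons (.rf (nat_lit 1550) (nat_lit 235600370082169063456)) .nil)))),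
 (.br (nat_lit 11) (nat_lit 0) (.cons (.br (nat_lit 12) (nat_lit 0) (.cons (.ev (nat_lit 284907568512375953047034180404748) (nat_lit 4)) .nil)) (.cons (.ev (nat_lit 79538856449977637464281448448) (nat_lit 1)) (.cons (.br (nat_lit 8) (nat_lit 0) (.cons (.ev (nat_lit 41040189415037765466597311645186) (nat_lit 3)) .nil)) .nil)))),
 (.br (nat_lit 2) (nat_lit 0) (.cons (.br (nat_lit 12) (nat_lit 0) (.cons (.ev (nat_lit 79538861172272062739888800000) (nat_lit 1)) .nil)) (.cons (.rf (nat_lit 1552) (nat_lit 493858305440582043680)) (.cons (.br (nat_lit 11) (nat_lit 0) (.cons (.ev (nat_lit 20283028587875306896374120972800) (nat_lit 2)) .nil)) .nil)))),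
 (.br (nat_lit 12) (nat_lit 0) (.cons (.ev (nat_lit 79538856449977637464281448448) (nat_lit 1)) (.cons (.rf (nat_lit 1553) (nat_lit 493858305440582043680)) (.cons (.br (nat_lit 2) (nat_lit 0) (.cons (.ev (nat_lit 20361948460101575721243006533888) (nat_lit 1)) .nil)) .nil)))),
 (.br (nat_lit 12) (nat_lit 0) (.cons (.rf (nat_lit 1552) (nat_lit 493858305440582043680)) (.cons (.rf (nat_lit 1553) (nat_lit 493858305440582043680)) (.cons (.rf (nat_lit 1554) (nat_lit 493858305440582043680)) (.cons (.br (nat_lit 12) (nat_lit 0) (.cons (.rf (nat_lit 1552) (nat_lit 493858305440582043680)) (.cons (.rf (nat_lit 1553) (nat_lit 493858305440582043680)) (.cons (.rf (nat_lit 1554) (nat_lit 493858305440582043680)) .nil)))) .nil))))),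
 (.br (nat_lit 12) (nat_lit 0) (.cons (.kr (nat_lit 1208925891672223212634114) (nat_lit 20282409603651670705422227997184) (nat_lit 0) (nat_lit 2)) .nil)),
 (.br (nat_lit 2) (nat_lit 0) (.cons (.rf (nat_lit 1555) (nat_lit 493858305440582043680)) (.cons (.br (nat_lit 12) (nat_lit 0) (.cons (.rf (nat_lit 1556) (nat_lit 493858305440582043680)) (.cons (.rf (nat_lit 1556) (nat_lit 235600370082169063456)) .nil))) (.cons (.br (nat_lit 6) (nat_lit 0) (.cons (.br (nat_lit 12) (nat_lit 0) (.cons (.ev (nat_lit 81606865541807728058458198508546) (nat_lit 3)) .nil)) (.cons (.br (nat_lit 11) (nat_lit 0) (.cons (.ev (nat_lit 477227108311581552692472841218) (nat_lit 3)) .nil)) (.cons (.br (nat_lit 11) (nat_lit 0) (.cons (.ev (nat_lit 1905190943627559334304405393920) (nat_lit 5)) .nil)) .nil)))) (.cons (.rf (nat_lit 1555) (nat_lit 235600370082169063456)) .nil))))),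
 (.br (nat_lit 2) (nat_lit 0) (.cons (.rf (nat_lit 1555) (nat_lit 493858305440582043680)) (.cons (.rf (nat_lit 1557) (nat_lit 493858305440582043680)) (.cons (.br (nat_lit 8) (nat_lit 0) (.cons (.rf (nat_lit 1545) (nat_lit 420143386739781765152)) (.cons (.br (nat_lit 6) (nat_lit 0) (.cons (.ev (nat_lit 40881733099417076262405025038340) (nat_lit 3)) .nil)) (.cons (.rf (nat_lit 1545) (nat_lit 419887666834169759776)) .nil)))) (.cons (.rf (nat_lit 1555) (nat_lit 235600370082169063456)) .nil))))),
 (.br (nat_lit 2) (nat_lit 0) (.cons (.rf (nat_lit 1555) (nat_lit 493858305440582043680)) (.cons (.rf (nat_lit 1557) (nat_lit 493858305440582043680)) (.cons (.rf (nat_lit 1558) (nat_lit 493858305440582043680)) (.cons (.br (nat_lit 2) (nat_lit 0) (.cons (.rf (nat_lit 1555) (nat_lit 493858305440582043680)) (.cons (.rf (nat_lit 1557) (nat_lit 493858305440582043680)) (.cons (.rf (nat_lit 1558) (nat_lit 493858305440582043680)) (.cons (.rf (nat_lit 1555) (nat_lit 235600370082169063456)) .nil))))) (.cons (.rf (nat_lit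 1555) (nat_lit 235600370082169063456)) .nil)))))),
 (.br (nat_lit 3) (nat_lit 0) (.cons (.kr (nat_lit 1) (nat_lit 256) (nat_lit 0) (nat_lit 2)) (.cons (.rf (nat_lit 1530) (nat_lit 493858305440582042688)) (.cons (.rf (nat_lit 1548) (nat_lit 493858305440582043680)) (.cons (.rf (nat_lit 1548) (nat_lit 492741412732994160672)) (.cons (.br (nat_lit 1) (nat_lit 0) (.cons (.ev (nat_lit 4722366764348933668864) (nat_lit 1)) (.cons (.br (nat_lit 2) (nat_lit 0) (.cons (.rf (nat_lit 1550) (nat_lit 493858305440582043680)) (.cons (.rf (nat_lit 1551) (nat_lit 493858305440582043680)) (.cons (.rf (nat_lit 1551) (nat_lit 492741412732994160672)) (.cons (.rf (nat_lit 1550) (nat_lit 235600370082169063456)) .nil))))) (.cons (.rf (nat_lit 1559) (nat_lit 493858305440582043680)) (.cons (.rf (nat_lit 1559) (nat_lit 492741412732994160672)) (.cons (.ev (nat_lit 20282410817299928579044420878336) (nat_lit 1)) .nil)))))) .nil)))))),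
 (.br (nat_lit 12) (nat_lit 0) (.cons (.ev (nat_lit 20361947251175756107713326678016) (nat_lit 1)) .nil)),
 (.br (nat_lit 2) (nat_lit 0) (.cons (.rf (nat_lit 1561) (nat_lit 493858305440582043680)) (.cons (.rf (nat_lit 1561) (nat_lit 492741412732994160672)) (.cons (.ev (nat_lit 20282409603651670425051057946624) (nat_lit 1)) .nil)))),
 (.br (nat_lit 13) (nat_lit 0) (.cons (.ev (nat_lit 1208925891954801996005633) (nat_lit 1)) (.cons (.rf (nat_lit 1562) (nat_lit 493858305440582043680)) (.cons (.ev (nat_lit 79537647524158021735578337281) (nat_lit 1)) .nil)))),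
 (.br (nat_lit 12) (nat_lit 0) (.cons (.ev (nat_lit 79228162514264338697350610944) (nat_lit 1)) (.cons (.ev (nat_lit 79228167236630820467484131584) (nat_lit 1)) .nil))),
 (.br (nat_lit 2) (nat_lit 0) (.cons (.br (nat_lit 8) (nat_lit 0) (.cons (.ev (nat_lit 620212039138477198352187392) (nat_lit 3)) (.cons (.br (nat_lit 12) (nat_lit 0) (.cons (.zr (nat_lit 237684487598205303695310062592) (nat_lit 313125954379637569496350721) (nat_lit 5) (nat_lit 2)) .nil)) .nil))) (.cons (.ev (nat_lit 79538861172272062739888800000) (nat_lit 1)) (.cons (.rf (nat_lit 1564) (nat_lit 15433072043909810208)) .nil)))),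
 (.br (nat_lit 8) (nat_lit 0) (.cons (.ev (nat_lit 4722366764348916957441) (nat_lit 1)) (.cons (.ev (nat_lit 79538861172272062739871956993) (nat_lit 1)) (.cons (.br (nat_lit 2) (nat_lit 0) (.cons (.ev (nat_lit 620212039138477198318765570) (nat_lit 3)) .nil)) .nil)))),
 (.br (nat_lit 1) (nat_lit 0) (.cons (.br (nat_lit 13) (nat_lit 0) (.cons (.ev (nat_lit 4722366764348916957441) (nat_lit 1)) (.cons (.rf (nat_lit 1562) (nat_lit 493858305440582043680)) (.cons (.rf (nat_lit 1563) (nat_lit 493858305440582043680)) (.cons (.rf (nat_lit 1563) (nat_lit 492741412732994160672)) .nil))))) (.cons (.rf (nat_lit 1565) (nat_lit 493858305440582043680)) (.cons (.rf (nat_lit 1565) (nat_lit 492741412732994160672)) (.cons (.br (nat_lit 8) (nat_lit 0) (.cons (.ev (nat_lit 4722366764348916957441) (nat_lit 1)) (.cons (.rf (nat_lit 1566) (nat_lit 493858305440582043680)) (.cons (.rf (nat_lit 1566) (nat_lit 492741412732994160672)) (.cons (.br (nat_lit 8) (nat_lit 0) (.cons (.ev (nat_lit 4722366764348916957441) (nat_lit 1)) (.cons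 (.rf (nat_lit 1566) (nat_lit 493858305440582043680)) (.cons (.rf (nat_lit 1566) (nat_lit 492741412732994160672)) .nil)))) .nil))))) .nil))))),
 (.br (nat_lit 6) (nat_lit 0) (.cons (.br (nat_lit 12) (nat_lit 0) (.cons (.ev (nat_lit 20282719093402304995963642576896) (nat_lit 1)) .nil)) (.cons (.ev (nat_lit 79537652246452447011185688833) (nat_lit 1)) (.cons (.br (nat_lit 8) (nat_lit 0) (.cons (.ev (nat_lit 20282719093402304995963642576896) (nat_lit 1)) .nil)) .nil)))),
 (.br (nat_lit 1) (nat_lit 0) (.cons (.ev (nat_lit 309489750706912184917622785) (nat_lit 1)) (.cons (.br (nat_lit 6) (nat_lit 0) (.cons (.ev (nat_lit 81770892596939259620128835897860) (nat_lit 5)) .nil)) (.cons (.rf (nat_lit 1568) (nat_lit 493858305440582043680)) .nil)))),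
 (.br (nat_lit 13) (nat_lit 0) (.cons (.rf (nat_lit 1568) (nat_lit 493858305440582043680)) (.cons (.br (nat_lit 1) (nat_lit 0) (.cons (.ev (nat_lit 309489750706912184917622785) (nat_lit 1)) (.cons (.br (nat_lit 8) (nat_lit 0) (.cons (.ev (nat_lit 81770892596939259620128835897860) (nat_lit 5)) .nil)) (.cons (.rf (nat_lit 1568) (nat_lit 493858305440582043680)) .nil)))) (.cons (.rf (nat_lit 1569) (nat_lit 493858305440582043680)) (.cons (.br (nat_lit 13) (nat_lit 0) (.cons (.rf (nat_lit 1568) (nat_lit 493858305440582043680)) (.cons (.ev (nat_lit 79538861172272062739871956993) (nat_lit 1)) (.cons (.rf (nat_lit 1569) (nat_lit 493858305440582043680)) .nil)))) .nil))))),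
 (.br (nat_lit 12) (nat_lit 0) (.cons (.ev (nat_lit 79538856449977637464281448448) (nat_lit 1)) .nil)),
 (.br (nat_lit 1) (nat_lit 0) (.cons (.br (nat_lit 12) (nat_lit 0) (.cons (.ev (nat_lit 20282719093402304995963642576896) (nat_lit 1)) .nil)) (.cons (.rf (nat_lit 1146) (nat_lit 492741412732994160672)) (.cons (.br (nat_lit 8) (nat_lit 0) (.cons (.ev (nat_lit 20282719093402304995963642576896) (nat_lit 1)) .nil)) .nil)))),
 (.br (nat_lit 2) (nat_lit 0) (.cons (.rf (nat_lit 1567) (nat_lit 493858305440582043680)) (.cons (.rf (nat_lit 1570) (nat_lit 493858305440582043680)) (.cons (.rf (nat_lit 1570) (nat_lit 492741412732994160672)) (.cons (.br (nat_lit 6) (nat_lit 0) (.cons (.br (nat_lit 8) (nat_lit 0) (.cons (.rf (nat_lit 1571) (nat_lit 493858305440582043680)) (.cons (.rf (nat_lit 1571) (nat_lit 492741412732994160672)) (.cons (.ev (nat_lit 121694458835558569493219195749892) (nat_lit 3)) .nil)))) (.cons (.br (nat_lit 11) (nat_lit 0) (.cons (.rf (nat_lit 1544) (nat_lit 489245533036014045216)) (.cons (.kr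 (nat_lit 309485009821345068724781056) (nat_lit 79228162514264337593543950336) (nat_lit 11) (nat_lit 0)) (.cons (.kr (nat_lit 20282409603651670705422227996672) (nat_lit 309485028268089142434332672) (nat_lit 6) (nat_lit 0)) .nil)))) (.cons (.rf (nat_lit 1572) (nat_lit 493858305440582043680)) (.cons (.rf (nat_lit 1572) (nat_lit 492741412732994160672)) (.cons (.ev (nat_lit 20282410817299928579044404166656) (nat_lit 1)) .nil)))))) .nil))))),
 (.br (nat_lit 13) (nat_lit 0) (.cons (.ev (nat_lit 20361948460101575721243006533633) (nat_lit 1)) (.cons (.ev (nat_lit 20361947251175756107713343389953) (nat_lit 1)) .nil))),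
 (.br (nat_lit 6) (nat_lit 0) (.cons (.br (nat_lit 12) (nat_lit 0) (.cons (.ev (nat_lit 20282719093402304995963642576896) (nat_lit 1)) .nil)) (.cons (.ev (nat_lit 79537652246452447011185688833) (nat_lit 1)) (.cons (.br (nat_lit 8) (nat_lit 0) (.cons (.ev (nat_lit 20282719093402304995963642576896) (nat_lit 1)) .nil)) .nil)))),
 (.br (nat_lit 8) (nat_lit 0) (.cons (.rf (nat_lit 1575) (nat_lit 493858305440582043680)) (.cons (.ev (nat_lit 79538861172272062739871956993) (nat_lit 1)) (.cons (.br (nat_lit 1) (nat_lit 0) (.cons (.ev (nat_lit 309489750706912184900780288) (nat_lit 1)) .nil)) .nil)))),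
 (.br (nat_lit 1) (nat_lit 0) (.cons (.br (nat_lit 8) (nat_lit 0) (.cons (.ev (nat_lit 121694458835558569493219195749892) (nat_lit 3)) .nil)) (.cons (.rf (nat_lit 1575) (nat_lit 493858305440582043680)) (.cons (.ev (nat_lit 20361947251175756107713343389953) (nat_lit 1)) .nil)))),
 (.br (nat_lit 2) (nat_lit 0) (.cons (.rf (nat_lit 1567) (nat_lit 493858305440582043680)) (.cons (.rf (nat_lit 1573) (nat_lit 493858305440582043680)) (.cons (.br (nat_lit 1) (nat_lit 0) (.cons (.ev (nat_lit 79538861172272062739888800000) (nat_lit 1)) (.cons (.kr (nat_lit 1208925891672223212634624) (nat_lit 4722366483969156972544) (nat_lit 1) (nat_lit 0)) (.cons (.rf (nat_lit 1574) (nat_lit 493858305440582043680)) .nil)))) (.cons (.br (nat_lit 8) (nat_lit 0) (.cons (.rf (nat_lit 1575) (nat_lit 493858305440582043680)) (.cons (.rf (nat_lit 1576) (nat_lit 493858305440582043680)) (.cons (.rf (nat_lit 1577) (nat_lit 493858305440582043680)) (.cons (.br (nat_lit 8) (nat_lit 0) (.cons (.rf (nat_lit 1575) (nat_lit 493858305440582043680))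 (.cons (.rf (nat_lit 1576) (nat_lit 493858305440582043680)) (.cons (.rf (nat_lit 1577) (nat_lit 493858305440582043680)) .nil)))) .nil))))) .nil))))),
 (.br (nat_lit 8) (nat_lit 0) (.cons (.br (nat_lit 12) (nat_lit 0) (.cons (.ev (nat_lit 284113429977174381600686290898436) (nat_lit 4)) .nil)) (.cons (.ev (nat_lit 620193149960776095923307520) (nat_lit 3)) .nil))),
 (.br (nat_lit 8) (nat_lit 0) (.cons (.rf (nat_lit 1579) (nat_lit 493858305440582043680)) (.cons (.br (nat_lit 2) (nat_lit 0) (.cons (.ev (nat_lit 40644975839014240729104858087680) (nat_lit 2)) .nil)) .nil))),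
 (.br (nat_lit 8) (nat_lit 0) (.cons (.br (nat_lit 12) (nat_lit 0) (.cons (.zr (nat_lit 4722438542662706397187) (nat_lit 20282719088661492050495247876096) (nat_lit 5) (nat_lit 4)) .nil)) (.cons (.rf (nat_lit 1538) (nat_lit 309387344177984014368)) (.cons (.br (nat_lit 11) (nat_lit 0) (.cons (.zr (nat_lit 4722438542662706397187) (nat_lit 20282719088661492050495247876096) (nat_lit 5) (nat_lit 4)) .nil)) .nil))))]

theorem c57 : chkAll C T R L57 (nat_lit 1548) = true := by decide +kernel

theorem l57 : (nat_lit 1548) + L57.length = (nat_lit 1582) := by decide +kernel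

/-- part of the certificates -/
def L58 : List Prf := [(.br (nat_lit 2) (nat_lit 0) (.cons (.rf (nat_lit 1581) (nat_lit 493858305440582043680)) (.cons (.ev (nat_lit 79537652246452447011202400513) (nat_lit 1)) (.cons (.br (nat_lit 8) (nat_lit 0) (.cons (.ev (nat_lit 20440865942884192881423759310850) (nat_lit 2)) .nil)) .nil)))),
 (.br (nat_lit 2) (nat_lit 0) (.cons (.rf (nat_lit 1538) (nat_lit 309387344177984014368)) (.cons (.ev (nat_lit 79538856449977637464281448705) (nat_lit 1)) (.cons (.br (nat_lit 8) (nat_lit 0) (.cons (.ev (nat_lit 20440865942884192881423759310850) (nat_lit 2)) .nil)) .nil)))),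
 (.br (nat_lit 1) (nat_lit 0) (.cons (.br (nat_lit 2) (nat_lit 0) (.cons (.br (nat_lit 12) (nat_lit 0) (.cons (.br (nat_lit 12) (nat_lit 0) (.cons (.ev (nat_lit 79537652246452447011185688576) (nat_lit 1)) .nil)) (.cons (.br (nat_lit 11) (nat_lit 0) (.cons (.ev (nat_lit 79537652246452447011185688576) (nat_lit 1)) .nil)) .nil))) (.cons (.br (nat_lit 12) (nat_lit 0) (.cons (.br (nat_lit 12) (nat_lit 0) (.cons (.ev (nat_lit 20361947251175756107713326678016) (nat_lit 1)) .nil)) (.cons (.br (nat_lit 8) (nat_lit 0) (.cons (.ev (nat_lit 20361947251175756107713326678016) (nat_lit 1)) .nil)) .nil))) (.cons (.br (nat_lit 8) (nat_lit 0) (.cons (.br (nat_lit 12) (nat_lit 0) (.cons (.ev (nat_lit 20361947251212866613072118349825) (nat_lit 2)) .nil)) (.cons (.br (nat_lit 11) (nat_lit 0) (.cons (.ev (nat_lit 20361947251175756107713326678016) (nat_lit 1)) .nil)) (.cons (.br (nat_lit 11) (nat_lit 0) (.cons (.ev (nat_lit 20361947265379749888898940141825) (nat_lit 2)) .nil)) .nil)))) (.cons (.ev (nat_lit 4722366764348916957441)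 (nat_lit 1)) .nil))))) (.cons (.br (nat_lit 8) (nat_lit 0) (.cons (.rf (nat_lit 1579) (nat_lit 493858305440582043680)) (.cons (.rf (nat_lit 1580) (nat_lit 493858305440582043680)) (.cons (.br (nat_lit 8) (nat_lit 0) (.cons (.ev (nat_lit 620193149960776095923307520) (nat_lit 3)) (.cons (.rf (nat_lit 1580) (nat_lit 493858305440582043680)) .nil))) .nil)))) (.cons (.br (nat_lit 8) (nat_lit 0) (.cons (.rf (nat_lit 1581) (nat_lit 493858305440582043680)) (.cons (.rf (nat_lit 1582) (nat_lit 493858305440582043680)) (.cons (.rf (nat_lit 1583) (nat_lit 493858305440582043680)) (.cons (.br (nat_lit 8) (nat_lit 0) (.cons (.rf (nat_lit 1581) (nat_lit 493858305440582043680)) (.cons (.rf (nat_lit 1582) (nat_lit 493858305440582043680)) (.cons (.rf (nat_lit 1583) (nat_lit 493858305440582043680)) .nil)))) .nil))))) (.cons (.br (nat_lit 2) (nat_lit 0) (.cons (.ev (nat_lit 4722366764348916957441) (nat_lit 1)) (.cons (.ev (nat_lit 20282413230429202169862350373635) (nat_lit 2)) (.cons (.ev (nat_lit 20282410812577490038580737802496)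 (nat_lit 1)) .nil)))) .nil))))),
 (.br (nat_lit 6) (nat_lit 0) (.cons (.br (nat_lit 12) (nat_lit 0) (.cons (.ev (nat_lit 81209485556640878095379239927809) (nat_lit 3)) .nil)) (.cons (.br (nat_lit 8) (nat_lit 0) (.cons (.ev (nat_lit 81209485547196289244828025225729) (nat_lit 3)) .nil)) (.cons (.br (nat_lit 8) (nat_lit 0) (.cons (.ev (nat_lit 958166813574243424006575359500) (nat_lit 5)) .nil)) .nil)))),
 (.br (nat_lit 1) (nat_lit 0) (.cons (.ev (nat_lit 309489750706912184917622785) (nat_lit 1)) (.cons (.rf (nat_lit 1585) (nat_lit 493858305440582043680)) (.cons (.br (nat_lit 8) (nat_lit 0) (.cons (.ev (nat_lit 20282719088680010570688035356673) (nat_lit 1)) .nil)) .nil)))),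
 (.br (nat_lit 8) (nat_lit 0) (.cons (.br (nat_lit 12) (nat_lit 0) (.cons (.ev (nat_lit 20282719093402304995963625865216) (nat_lit 1)) .nil)) (.cons (.br (nat_lit 11) (nat_lit 0) (.cons (.ev (nat_lit 20441175427912677142248812446464) (nat_lit 2)) .nil)) (.cons (.br (nat_lit 11) (nat_lit 0) (.cons (.ev (nat_lit 20282719088680010570688018514176) (nat_lit 1)) .nil)) .nil)))),
 (.br (nat_lit 2) (nat_lit 0) (.cons (.rf (nat_lit 1584) (nat_lit 493858305440582043680)) (.cons (.br (nat_lit 12) (nat_lit 0) (.cons (.rf (nat_lit 1585) (nat_lit 493858305440582043680)) (.cons (.rf (nat_lit 1586) (nat_lit 493858305440582043680)) (.cons (.br (nat_lit 1) (nat_lit 0) (.cons (.ev (nat_lit 309489750706912184917622785) (nat_lit 1)) (.cons (.rf (nat_lit 1585) (nat_lit 493858305440582043680)) (.cons (.ev (nat_lit 20282719088680010570688035356673) (nat_lit 1)) .nil)))) (.cons (.rf (nat_lit 1586) (nat_lit 235600370082169063456)) .nil))))) (.cons (.br (nat_lit 1) (nat_lit 0) (.cons (.rf (nat_lit 1587) (nat_lit 493858305440582043680))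 (.cons (.br (nat_lit 11) (nat_lit 0) (.cons (.rf (nat_lit 1546) (nat_lit 309390870201044666400)) (.cons (.br (nat_lit 6) (nat_lit 0) (.cons (.ev (nat_lit 122011371495134290905213656367108) (nat_lit 3)) .nil)) (.cons (.rf (nat_lit 1546) (nat_lit 309387344177984014368)) .nil)))) (.cons (.br (nat_lit 6) (nat_lit 0) (.cons (.br (nat_lit 12) (nat_lit 0) (.cons (.ev (nat_lit 20361637775629259433174414393856) (nat_lit 2)) .nil)) (.cons (.br (nat_lit 8) (nat_lit 0) (.cons (.ev (nat_lit 20520094091249948628570607714816) (nat_lit 2)) .nil)) (.cons (.br (nat_lit 8) (nat_lit 0) (.cons (.ev (nat_lit 80156631711044557149361406720) (nat_lit 2)) .nil)) .nil)))) (.cons (.br (nat_lit 6) (nat_lit 0) (.cons (.br (nat_lit 11) (nat_lit 0) (.cons (.ev (nat_lit 309489750706912184900780288) (nat_lit 1)) .nil)) (.cons (.br (nat_lit 8) (nat_lit 0) (.cons (.ev (nat_lit 20282719088680010570688018514176) (nat_lit 1)) .nil)) (.cons (.br (nat_lit 8) (nat_lit 0) (.cons (.ev (nat_lit 122011371495134290905213656367108) (nat_lit 3))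 .nil)) .nil)))) (.cons (.rf (nat_lit 1587) (nat_lit 235600370082169063456)) .nil)))))) (.cons (.rf (nat_lit 1584) (nat_lit 235600370082169063456)) .nil))))),
 (.br (nat_lit 1) (nat_lit 0) (.cons (.kr (nat_lit 1208925891672223212634624) (nat_lit 4722366483969156972544) (nat_lit 1) (nat_lit 0)) (.cons (.ev (nat_lit 79538856449977637464281448705) (nat_lit 1)) (.cons (.br (nat_lit 8) (nat_lit 0) (.cons (.ev (nat_lit 309489750706912184900780288) (nat_lit 1)) .nil)) .nil)))),
 (.br (nat_lit 2) (nat_lit 0) (.cons (.rf (nat_lit 1584) (nat_lit 493858305440582043680)) (.cons (.rf (nat_lit 1588) (nat_lit 493858305440582043680)) (.cons (.br (nat_lit 8) (nat_lit 0) (.cons (.kr (nat_lit 1208925891672223212634624) (nat_lit 4722366483969156972544) (nat_lit 1) (nat_lit 0)) (.cons (.rf (nat_lit 1589) (nat_lit 493858305440582043680)) (.cons (.br (nat_lit 8) (nat_lit 0) (.cons (.kr (nat_lit 1208925891672223212634624) (nat_lit 4722366483969156972544) (nat_lit 1) (nat_lit 0)) (.cons (.rf (nat_lit 1589) (nat_lit 493858305440582043680))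 (.cons (.rf (nat_lit 1589) (nat_lit 235600370082169063456)) .nil)))) (.cons (.rf (nat_lit 1589) (nat_lit 235600370082169063456)) .nil))))) (.cons (.rf (nat_lit 1584) (nat_lit 235600370082169063456)) .nil))))),
 (.br (nat_lit 3) (nat_lit 0) (.cons (.kr (nat_lit 1) (nat_lit 256) (nat_lit 0) (nat_lit 2)) (.cons (.rf (nat_lit 1530) (nat_lit 493858305440582042688)) (.cons (.rf (nat_lit 1560) (nat_lit 493858305440582043680)) (.cons (.br (nat_lit 2) (nat_lit 0) (.cons (.rf (nat_lit 1567) (nat_lit 493858305440582043680)) (.cons (.rf (nat_lit 1573) (nat_lit 493858305440582043680)) (.cons (.rf (nat_lit 1578) (nat_lit 493858305440582043680)) (.cons (.rf (nat_lit 1578) (nat_lit 492741412732994160672)) (.cons (.br (nat_lit 2) (nat_lit 0) (.cons (.rf (nat_lit 1567) (nat_lit 493858305440582043680)) (.cons (.rf (nat_lit 1573) (nat_lit 493858305440582043680)) (.cons (.rf (nat_lit 1578) (nat_lit 493858305440582043680)) (.cons (.rf (nat_lit 1578) (nat_lit 492741412732994160672)) .nil))))) .nil)))))) (.cons (.br (nat_lit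 2) (nat_lit 0) (.cons (.rf (nat_lit 1584) (nat_lit 493858305440582043680)) (.cons (.rf (nat_lit 1588) (nat_lit 493858305440582043680)) (.cons (.rf (nat_lit 1590) (nat_lit 493858305440582043680)) (.cons (.br (nat_lit 2) (nat_lit 0) (.cons (.rf (nat_lit 1584) (nat_lit 493858305440582043680)) (.cons (.rf (nat_lit 1588) (nat_lit 493858305440582043680)) (.cons (.rf (nat_lit 1590) (nat_lit 493858305440582043680)) (.cons (.rf (nat_lit 1584) (nat_lit 235600370082169063456)) .nil))))) (.cons (.rf (nat_lit 1584) (nat_lit 235600370082169063456)) .nil)))))) .nil)))))),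
 (.br (nat_lit 3) (nat_lit 0) (.cons (.kr (nat_lit 1) (nat_lit 256) (nat_lit 0) (nat_lit 2)) (.cons (.rf (nat_lit 1530) (nat_lit 493858305440582042688)) (.cons (.rf (nat_lit 1560) (nat_lit 493858305440582043680)) (.cons (.rf (nat_lit 1591) (nat_lit 493858305440582043680)) (.cons (.rf (nat_lit 1591) (nat_lit 492741412732994160672)) (.cons (.br (nat_lit 3) (nat_lit 0) (.cons (.kr (nat_lit 1) (nat_lit 256) (nat_lit 0) (nat_lit 2)) (.cons (.rf (nat_lit 1530) (nat_lit 493858305440582042688)) (.cons (.rf (nat_lit 1560) (nat_lit 493858305440582043680)) (.cons (.rf (nat_lit 1591) (nat_lit 493858305440582043680)) (.cons (.rf (nat_lit 1591) (nat_lit 492741412732994160672)) .nil)))))) .nil))))))),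
 (.br (nat_lit 2) (nat_lit 0) (.cons (.br (nat_lit 13) (nat_lit 0) (.cons (.ev (nat_lit 309489750706912184917622785) (nat_lit 1)) (.cons (.ev (nat_lit 79538856449977637464281448705) (nat_lit 1)) .nil))) (.cons (.br (nat_lit 13) (nat_lit 0) (.cons (.rf (nat_lit 1562) (nat_lit 493858303243706271776)) (.cons (.br (nat_lit 6) (nat_lit 0) (.cons (.ev (nat_lit 20361947251175756107713326678016) (nat_lit 1)) .nil)) .nil))) (.cons (.rf (nat_lit 1574) (nat_lit 235600375574358493216)) (.cons (.br (nat_lit 6) (nat_lit 0) (.cons (.br (nat_lit 12) (nat_lit 0) (.cons (.ev (nat_lit 40644047379280856954003186188546) (nat_lit 2)) .nil)) (.cons (.br (nat_lit 8) (nat_lit 0) (.cons (.ev (nat_lit 40644047369836268103451971486466) (nat_lit 2)) .nil)) (.cons (.br (nat_lit 8) (nat_lit 0) (.cons (.ev (nat_lit 475370217179157014895143420928) (nat_lit 3)) .nil)) .nil)))) .nil))))),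
 (.br (nat_lit 12) (nat_lit 0) (.cons (.rf (nat_lit 1593) (nat_lit 492741412732994160672)) (.cons (.ev (nat_lit 476608157144367192897098874880) (nat_lit 3)) (.cons (.br (nat_lit 2) (nat_lit 0) (.cons (.br (nat_lit 2) (nat_lit 0) (.cons (.zr (nat_lit 1218370552581467976761347) (nat_lit 79537647542532426740273381376) (nat_lit 5) (nat_lit 4)) .nil)) (.cons (.br (nat_lit 2) (nat_lit 0) (.cons (.zr (nat_lit 1218370552581467976761347) (nat_lit 79537647542532426740273381376) (nat_lit 5) (nat_lit 4)) .nil)) .nil))) .nil)))),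
 (.br (nat_lit 12) (nat_lit 0) (.cons (.rf (nat_lit 1593) (nat_lit 492741412732994160672)) (.cons (.ev (nat_lit 318770802135481207847460536320) (nat_lit 3)) (.cons (.br (nat_lit 2) (nat_lit 0) (.cons (.br (nat_lit 2) (nat_lit 0) (.cons (.ev (nat_lit 81131496566758891403657154397188) (nat_lit 3)) .nil)) (.cons (.ev (nat_lit 81448409216742450003714596929540) (nat_lit 3)) .nil))) .nil)))),
 (.br (nat_lit 11) (nat_lit 0) (.cons (.rf (nat_lit 1593) (nat_lit 493858305440582043680)) (.cons (.rf (nat_lit 1594) (nat_lit 493858305440582043680)) (.cons (.rf (nat_lit 1595) (nat_lit 493858305440582043680)) (.cons (.kr (nat_lit 309485009821345068724781056) (nat_lit 79228162514264337593543950336) (nat_lit 11) (nat_lit 0)) (.cons (.br (nat_lit 12) (nat_lit 0) (.cons (.rf (nat_lit 1593) (nat_lit 492741412732994160672)) (.cons (.rf (nat_lit 1594) (nat_lit 492741412732994160672)) (.cons (.rf (nat_lit 1595) (nat_lit 492741412732994160672)) (.cons (.br (nat_lit 2) (nat_lit 0) (.cons (.br (nat_lit 2) (nat_lit 0) (.cons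 (.ev (nat_lit 477227108311581552692439417348) (nat_lit 3)) .nil)) (.cons (.br (nat_lit 2) (nat_lit 0) (.cons (.ev (nat_lit 477227108311581552692439417348) (nat_lit 3)) .nil)) .nil))) .nil))))) .nil)))))),
 (.br (nat_lit 2) (nat_lit 0) (.cons (.rf (nat_lit 1564) (nat_lit 7362511734579496992)) (.cons (.rf (nat_lit 1540) (nat_lit 486976805215328634912)) (.cons (.br (nat_lit 6) (nat_lit 0) (.cons (.ev (nat_lit 4722366764348916957184) (nat_lit 1)) (.cons (.ev (nat_lit 72339073309606144) (nat_lit 1)) (.cons (.br (nat_lit 8) (nat_lit 0) (.cons (.ev (nat_lit 20679169395816640498887850721792) (nat_lit 3)) .nil)) .nil)))) .nil)))),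
 (.br (nat_lit 2) (nat_lit 0) (.cons (.rf (nat_lit 1564) (nat_lit 7362511734579496992)) (.cons (.br (nat_lit 6) (nat_lit 0) (.cons (.br (nat_lit 6) (nat_lit 0) .nil) .nil)) (.cons (.rf (nat_lit 1564) (nat_lit 15433071977337817120)) .nil)))),
 (.br (nat_lit 2) (nat_lit 0) (.cons (.rf (nat_lit 1597) (nat_lit 493858305440582043680)) (.cons (.rf (nat_lit 1598) (nat_lit 493858305440582043680)) (.cons (.br (nat_lit 2) (nat_lit 0) (.cons (.rf (nat_lit 1540) (nat_lit 486976805215328634912)) (.cons (.rf (nat_lit 1598) (nat_lit 493858305440582043680)) (.cons (.rf (nat_lit 1540) (nat_lit 236789320381647390752)) .nil)))) (.cons (.rf (nat_lit 1597) (nat_lit 235600370082169063456)) .nil))))),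
 (.br (nat_lit 3) (nat_lit 0) (.cons (.kr (nat_lit 1) (nat_lit 256) (nat_lit 0) (nat_lit 2)) (.cons (.rf (nat_lit 1530) (nat_lit 493858305440582042688)) (.cons (.rf (nat_lit 1592) (nat_lit 493858305440582043680)) (.cons (.br (nat_lit 1) (nat_lit 0) (.cons (.rf (nat_lit 1596) (nat_lit 493858305440582043680)) (.cons (.zr (nat_lit 4759259972116609500160) (nat_lit 1208925891672231802568708) (nat_lit 10) (nat_lit 8)) (.cons (.rf (nat_lit 1599) (nat_lit 493858305440582043680)) (.cons (.rf (nat_lit 1599) (nat_lit 492741412732994160672)) (.cons (.rf (nat_lit 1596) (nat_lit 235600370082169063456)) .nil)))))) (.cons (.rf (nat_lit 1592) (nat_lit 235600370082169063456)) .nil)))))),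
 (.br (nat_lit 3) (nat_lit 0) (.cons (.kr (nat_lit 1) (nat_lit 256) (nat_lit 0) (nat_lit 2)) (.cons (.rf (nat_lit 1530) (nat_lit 493858305440582042688)) (.cons (.rf (nat_lit 1592) (nat_lit 493858305440582043680)) (.cons (.rf (nat_lit 1600) (nat_lit 493858305440582043680)) (.cons (.rf (nat_lit 1600) (nat_lit 492741412732994160672)) (.cons (.rf (nat_lit 1592) (nat_lit 235600370082169063456)) .nil))))))),
 (.br (nat_lit 3) (nat_lit 0) (.cons (.kr (nat_lit 1) (nat_lit 256) (nat_lit 0) (nat_lit 2)) (.cons (.rf (nat_lit 1530) (nat_lit 493858305440582042688)) (.cons (.rf (nat_lit 1592) (nat_lit 493858305440582043680)) (.cons (.rf (nat_lit 1601) (nat_lit 493858305440582043680)) (.cons (.br (nat_lit 3) (nat_lit 0) (.cons (.kr (nat_lit 1) (nat_lit 256) (nat_lit 0) (nat_lit 2)) (.cons (.rf (nat_lit 1530) (nat_lit 493858305440582042688)) (.cons (.rf (nat_lit 1592) (nat_lit 493858305440582043680)) (.cons (.rf (nat_lit 1601) (nat_lit 493858305440582043680)) (.cons (.rf (nat_lit 1592) (nat_lit 235600370082169063456))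 .nil)))))) (.cons (.rf (nat_lit 1592) (nat_lit 235600370082169063456)) .nil))))))),
 (.br (nat_lit 3) (nat_lit 0) (.cons (.kr (nat_lit 1) (nat_lit 256) (nat_lit 0) (nat_lit 2)) (.cons (.rf (nat_lit 1530) (nat_lit 493858305440582042688)) (.cons (.rf (nat_lit 1592) (nat_lit 493858305440582043680)) (.cons (.rf (nat_lit 1601) (nat_lit 493858305440582043680)) (.cons (.rf (nat_lit 1602) (nat_lit 493858305440582043680)) (.cons (.rf (nat_lit 1602) (nat_lit 492741412732994160672)) (.cons (.rf (nat_lit 1592) (nat_lit 235600370082169063456)) .nil)))))))),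
 (.br (nat_lit 3) (nat_lit 0) (.cons (.ev (nat_lit 20282409603651670425051074723841) (nat_lit 1)) (.cons (.br (nat_lit 11) (nat_lit 0) (.cons (.zr (nat_lit 618970056536181583437234177) (nat_lit 20361641392943393886907591033856) (nat_lit 5) (nat_lit 4)) .nil)) .nil))),
 (.br (nat_lit 3) (nat_lit 0) (.cons (.ev (nat_lit 79228162514264338697367388161) (nat_lit 1)) (.cons (.br (nat_lit 4) (nat_lit 0) (.cons (.ev (nat_lit 309485028268371721234415616) (nat_lit 1)) .nil)) .nil)))]

theorem c58 : chkAll C T R L58 (nat_lit 1582) = true := by decide +kernel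

theorem l58 : (nat_lit 1582) + L58.length = (nat_lit 1606) := by decide +kernel

/-- part of the certificates -/
def L59 : List Prf := [(.br (nat_lit 3) (nat_lit 0) (.cons (.ev (nat_lit 20282409603651670425051074723841) (nat_lit 1)) (.cons (.br (nat_lit 8) (nat_lit 0) (.cons (.zr (nat_lit 4722438542662706397187) (nat_lit 20361637766165935043020066914816) (nat_lit 5) (nat_lit 4)) .nil)) .nil))),
 (.br (nat_lit 3) (nat_lit 0) (.cons (.ev (nat_lit 79228162514264338697367388161) (nat_lit 1)) (.cons (.br (nat_lit 4) (nat_lit 0) (.cons (.ev (nat_lit 309485028268371721234481408) (nat_lit 1)) .nil)) .nil))),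
 (.br (nat_lit 3) (nat_lit 0) (.cons (.br (nat_lit 11) (nat_lit 0) (.cons (.ev (nat_lit 620202594549626647137485312) (nat_lit 3)) .nil)) (.cons (.br (nat_lit 8) (nat_lit 0) (.cons (.ev (nat_lit 620202594549626647137879040) (nat_lit 3)) .nil)) (.cons (.ev (nat_lit 20282410817299928579044420878593) (nat_lit 1)) .nil)))),
 (.br (nat_lit 4) (nat_lit 0) (.cons (.rf (nat_lit 1608) (nat_lit 493858305440582043680)) (.cons (.ev (nat_lit 20283338072903791157199123776000) (nat_lit 2)) (.cons (.br (nat_lit 3) (nat_lit 0) (.cons (.ev (nat_lit 309489750706912184917622785) (nat_lit 1)) .nil)) .nil)))),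
 (.br (nat_lit 3) (nat_lit 0) (.cons (.rf (nat_lit 1608) (nat_lit 493858305440582043680)) (.cons (.rf (nat_lit 1609) (nat_lit 493858305440582043680)) (.cons (.br (nat_lit 4) (nat_lit 0) (.cons (.ev (nat_lit 20283338072903791157199123906560) (nat_lit 2)) .nil)) .nil)))),
 (.br (nat_lit 13) (nat_lit 0) (.cons (.ev (nat_lit 4722366764348916891904) (nat_lit 1)) (.cons (.br (nat_lit 3) (nat_lit 0) (.cons (.rf (nat_lit 1604) (nat_lit 493858305440582043680)) (.cons (.rf (nat_lit 1605) (nat_lit 15395881028740548640)) (.cons (.br (nat_lit 3) (nat_lit 0) (.cons (.rf (nat_lit 1604) (nat_lit 493858305440582043680)) (.cons (.rf (nat_lit 1605) (nat_lit 15395881028740548640)) .nil))) .nil)))) (.cons (.br (nat_lit 3) (nat_lit 0) (.cons (.rf (nat_lit 1606) (nat_lit 493858305440582043680)) (.cons (.rf (nat_lit 1607) (nat_lit 15395881028740548640)) (.cons (.br (nat_lit 3) (nat_lit 0) (.cons (.rf (nat_lit 1606) (nat_lit 493858305440582043680)) (.cons (.rf (nat_lit 1607) (nat_lit 15395881028740548640)) .nil))) .nil))))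 (.cons (.br (nat_lit 3) (nat_lit 0) (.cons (.rf (nat_lit 1608) (nat_lit 493858305440582043680)) (.cons (.rf (nat_lit 1609) (nat_lit 493858305440582043680)) (.cons (.rf (nat_lit 1610) (nat_lit 493858305440582043680)) (.cons (.br (nat_lit 3) (nat_lit 0) (.cons (.ev (nat_lit 20282410817299928579044420878593) (nat_lit 1)) (.cons (.rf (nat_lit 1609) (nat_lit 493858305440582043680)) (.cons (.rf (nat_lit 1610) (nat_lit 493858305440582043680)) .nil)))) .nil))))) .nil))))),
 (.br (nat_lit 13) (nat_lit 0) (.cons (.rf (nat_lit 1611) (nat_lit 493858305440582043680)) (.cons (.ev (nat_lit 4722366764348916891904) (nat_lit 1)) (.cons (.kr (nat_lit 618970056608236978418221056) (nat_lit 40564820420951527508343275913216) (nat_lit 5) (nat_lit 0)) (.cons (.br (nat_lit 4) (nat_lit 0) (.cons (.br (nat_lit 3) (nat_lit 0) (.cons (.ev (nat_lit 40566677359455696361999611200006) (nat_lit 3)) (.cons (.br (nat_lit 3) (nat_lit 0) (.cons (.ev (nat_lit 620202594549626647137879040) (nat_lit 3)) .nil)) .nil))) (.cons (.ev (nat_lit 20282719088680010570688018579456)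 (nat_lit 1)) (.cons (.rf (nat_lit 299) (nat_lit 401740776179744)) .nil)))) .nil))))),
 (.br (nat_lit 13) (nat_lit 0) (.cons (.rf (nat_lit 1611) (nat_lit 493858305440582043680)) (.cons (.ev (nat_lit 4722366764348916891904) (nat_lit 1)) (.cons (.kr (nat_lit 618970056608236978418221056) (nat_lit 40564820420951527508343275913216) (nat_lit 5) (nat_lit 0)) (.cons (.br (nat_lit 4) (nat_lit 0) (.cons (.br (nat_lit 3) (nat_lit 0) (.cons (.ev (nat_lit 40566677359455696361999611069446) (nat_lit 3)) (.cons (.br (nat_lit 3) (nat_lit 0) (.cons (.ev (nat_lit 620202594549626647137485312) (nat_lit 3)) .nil)) .nil))) (.cons (.ev (nat_lit 20282719088680010570688018579456) (nat_lit 1)) (.cons (.rf (nat_lit 299) (nat_lit 296187760575552)) .nil)))) .nil))))),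
 (.br (nat_lit 13) (nat_lit 0) (.cons (.rf (nat_lit 1611) (nat_lit 493858305440582043680)) (.cons (.ev (nat_lit 4722366764348916891904) (nat_lit 1)) (.cons (.rf (nat_lit 1612) (nat_lit 493858305440582043680)) (.cons (.rf (nat_lit 1613) (nat_lit 493858305440582043680)) (.cons (.br (nat_lit 13) (nat_lit 0) (.cons (.rf (nat_lit 1611) (nat_lit 493858305440582043680)) (.cons (.ev (nat_lit 4722366764348916891904) (nat_lit 1)) (.cons (.rf (nat_lit 1612) (nat_lit 493858305440582043680)) (.cons (.rf (nat_lit 1613) (nat_lit 493858305440582043680)) .nil))))) .nil)))))),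
 (.br (nat_lit 12) (nat_lit 0) (.cons (.ev (nat_lit 79229371440084233697695432704) (nat_lit 1)) (.cons (.kr (nat_lit 309485009821345068724781056) (nat_lit 79228162514264337593543950336) (nat_lit 11) (nat_lit 0)) (.cons (.ev (nat_lit 79538856449977637464264736768) (nat_lit 1)) (.cons (.ev (nat_lit 79538856449977637464264671488) (nat_lit 1)) .nil))))),
 (.br (nat_lit 11) (nat_lit 0) (.cons (.rf (nat_lit 1615) (nat_lit 493858305440582043680)) (.cons (.ev (nat_lit 121696315745728322145460934541828) (nat_lit 3)) .nil))),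
 (.br (nat_lit 7) (nat_lit 0) .nil),
 (.br (nat_lit 3) (nat_lit 0) (.cons (.rf (nat_lit 1615) (nat_lit 493858305440582043680)) (.cons (.rf (nat_lit 1615) (nat_lit 492741412732994160672)) (.cons (.rf (nat_lit 1617) (nat_lit 470977729366048)) .nil)))),
 (.br (nat_lit 11) (nat_lit 0) (.cons (.rf (nat_lit 1616) (nat_lit 493858305440582043680)) (.cons (.rf (nat_lit 1618) (nat_lit 493858305440582043680)) (.cons (.br (nat_lit 12) (nat_lit 0) (.cons (.rf (nat_lit 1616) (nat_lit 492741412732994160672)) (.cons (.rf (nat_lit 1618) (nat_lit 493858305440582043680)) .nil))) .nil)))),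
 (.br (nat_lit 12) (nat_lit 0) (.cons (.ev (nat_lit 79537647524158021735578403073) (nat_lit 1)) .nil)),
 (.br (nat_lit 3) (nat_lit 0) (.cons (.rf (nat_lit 1619) (nat_lit 493858305440582043680)) (.cons (.br (nat_lit 11) (nat_lit 0) (.cons (.rf (nat_lit 1620) (nat_lit 493858305440582043680)) (.cons (.kr (nat_lit 309485009821345068724781056) (nat_lit 79228162514264337593543950336) (nat_lit 11) (nat_lit 0)) (.cons (.rf (nat_lit 1620) (nat_lit 309390870201044665408)) .nil)))) (.cons (.br (nat_lit 11) (nat_lit 0) (.cons (.ev (nat_lit 121696315745728322145460934672388) (nat_lit 3)) (.cons (.rf (nat_lit 1615) (nat_lit 493858305440582043680)) .nil))) .nil)))),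
 (.br (nat_lit 11) (nat_lit 0) (.cons (.br (nat_lit 8) (nat_lit 0) (.cons (.br (nat_lit 3) (nat_lit 0) (.cons (.br (nat_lit 12) (nat_lit 0) (.cons (.ev (nat_lit 475989168198220970144530040320) (nat_lit 3)) .nil)) (.cons (.ev (nat_lit 20282719093402304995963625799681) (nat_lit 1)) .nil))) (.cons (.br (nat_lit 12) (nat_lit 0) (.cons (.ev (nat_lit 475989168198220970144529907712) (nat_lit 3)) (.cons (.ev (nat_lit 20282720297605830186416704847873) (nat_lit 1)) .nil))) (.cons (.ev (nat_lit 20282719093402304995963625865473) (nat_lit 1)) .nil)))) (.cons (.rf (nat_lit 484) (nat_lit 12315017709600)) (.cons (.br (nat_lit 12) (nat_lit 0) (.cons (.br (nat_lit 3) (nat_lit 0) (.cons (.br (nat_lit 3) (nat_lit 0) (.cons (.ev (nat_lit 20441794397895282231249773658114) (nat_lit 2)) .nil)) (.cons (.br (nat_lit 3) (nat_lit 0) (.cons (.ev (nat_lit 20441794397895282231249773658114) (nat_lit 2)) .nil)) .nil))) (.cons (.rf (nat_lit 299) (nat_lit 470975648991264)) (.cons (.rf (nat_lit 299) (nat_lit 295053956318272)) .nil))))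 (.cons (.rf (nat_lit 484) (nat_lit 12309816771648)) .nil))))),
 (.br (nat_lit 2) (nat_lit 0) (.cons (.rf (nat_lit 1057) (nat_lit 11514399472845826)) (.cons (.rf (nat_lit 1603) (nat_lit 493858305440582042688)) (.cons (.kr (nat_lit 256) (nat_lit 65536) (nat_lit 1) (nat_lit 0)) (.cons (.rf (nat_lit 1614) (nat_lit 493858305440582043680)) (.cons (.rf (nat_lit 1614) (nat_lit 492741412732994160672)) (.cons (.br (nat_lit 4) (nat_lit 0) (.cons (.br (nat_lit 3) (nat_lit 0) (.cons (.rf (nat_lit 1619) (nat_lit 493858305440582043680)) (.cons (.rf (nat_lit 1621) (nat_lit 493858305440582043680)) (.cons (.rf (nat_lit 1621) (nat_lit 492741412732994160672)) (.cons (.br (nat_lit 3) (nat_lit 0) (.cons (.rf (nat_lit 1619) (nat_lit 493858305440582043680)) (.cons (.rf (nat_lit 1621) (nat_lit 493858305440582043680)) (.cons (.rf (nat_lit 1621) (nat_lit 492741412732994160672)) .nil)))) .nil))))) (.cons (.ev (nat_lit 4722366764348916957184) (nat_lit 1)) (.cons (.rf (nat_lit 1622) (nat_lit 493858305440582043680)) (.cons (.rf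 (nat_lit 1622) (nat_lit 492741412732994160672)) (.cons (.ev (nat_lit 4722366764348916891904) (nat_lit 1)) .nil)))))) .nil))))))),
 (.br (nat_lit 13) (nat_lit 0) (.cons (.br (nat_lit 12) (nat_lit 0) (.cons (.ev (nat_lit 79537647524158021735578337281) (nat_lit 1)) .nil)) (.cons (.br (nat_lit 11) (nat_lit 0) (.cons (.ev (nat_lit 79537647524158021735578337281) (nat_lit 1)) .nil)) .nil))),
 (.br (nat_lit 12) (nat_lit 0) (.cons (.rf (nat_lit 1624) (nat_lit 493858305440582043680)) (.cons (.br (nat_lit 12) (nat_lit 0) (.cons (.rf (nat_lit 1624) (nat_lit 493858305440582043680)) (.cons (.ev (nat_lit 79538856449977637464264671488) (nat_lit 1)) .nil))) (.cons (.br (nat_lit 12) (nat_lit 0) (.cons (.rf (nat_lit 1624) (nat_lit 493858305440582043680)) (.cons (.ev (nat_lit 79538856449977637464264671488) (nat_lit 1)) .nil))) .nil)))),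
 (.br (nat_lit 3) (nat_lit 0) (.cons (.rf (nat_lit 1625) (nat_lit 493858305440582043680)) (.cons (.br (nat_lit 13) (nat_lit 0) (.cons (.br (nat_lit 12) (nat_lit 0) (.cons (.ev (nat_lit 79537647524158021735578337281) (nat_lit 1)) .nil)) (.cons (.br (nat_lit 6) (nat_lit 0) (.cons (.ev (nat_lit 79537647524158021735578337281) (nat_lit 1)) .nil)) .nil))) (.cons (.br (nat_lit 6) (nat_lit 0) (.cons (.br (nat_lit 12) (nat_lit 0) (.cons (.ev (nat_lit 79538856449977637464264736768) (nat_lit 1)) .nil)) (.cons (.ev (nat_lit 20282409603651670425051074723841) (nat_lit 1)) .nil))) .nil)))),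
 (.br (nat_lit 3) (nat_lit 0) (.cons (.rf (nat_lit 1624) (nat_lit 493858305440582043680)) (.cons (.rf (nat_lit 1626) (nat_lit 493858305440582043680)) (.cons (.br (nat_lit 12) (nat_lit 0) (.cons (.br (nat_lit 11) (nat_lit 0) (.cons (.ev (nat_lit 79537652246452447011185688576) (nat_lit 1)) .nil)) (.cons (.br (nat_lit 6) (nat_lit 0) (.cons (.ev (nat_lit 79537652246452447011185623296) (nat_lit 1)) .nil)) (.cons (.ev (nat_lit 20282410817299928579044420878593) (nat_lit 1)) .nil)))) .nil)))),
 (.br (nat_lit 3) (nat_lit 0) (.cons (.rf (nat_lit 1625) (nat_lit 493858305440582043680)) (.cons (.rf (nat_lit 1626) (nat_lit 493858305440582043680)) (.cons (.rf (nat_lit 1627) (nat_lit 493858305440582043680)) (.cons (.br (nat_lit 3) (nat_lit 0) (.cons (.rf (nat_lit 1625) (nat_lit 493858305440582043680)) (.cons (.rf (nat_lit 1626) (nat_lit 493858305440582043680)) (.cons (.rf (nat_lit 1627) (nat_lit 493858305440582043680)) .nil)))) .nil))))),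
 (.br (nat_lit 3) (nat_lit 0) (.cons (.rf (nat_lit 1625) (nat_lit 493858305440582043680)) (.cons (.rf (nat_lit 247) (nat_lit 14316140924281915424)) (.cons (.br (nat_lit 12) (nat_lit 0) (.cons (.ev (nat_lit 309489750706912184917622785) (nat_lit 1)) (.cons (.br (nat_lit 4) (nat_lit 0) (.cons (.ev (nat_lit 309489750706912184917622785) (nat_lit 1)) .nil)) .nil))) .nil)))),
 (.br (nat_lit 3) (nat_lit 0) (.cons (.rf (nat_lit 1624) (nat_lit 493858305440582043680)) (.cons (.rf (nat_lit 247) (nat_lit 14316140924281915424)) (.cons (.br (nat_lit 4) (nat_lit 0) (.cons (.br (nat_lit 12) (nat_lit 0) (.cons (.ev (nat_lit 20283338072903791157199123776000) (nat_lit 2)) .nil)) (.cons (.br (nat_lit 11) (nat_lit 0) (.cons (.ev (nat_lit 310698676526525714580701440) (nat_lit 1)) .nil)) (.cons (.ev (nat_lit 20282410812577490038580737802496) (nat_lit 1)) .nil)))) .nil)))),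
 (.br (nat_lit 3) (nat_lit 0) (.cons (.rf (nat_lit 1625) (nat_lit 493858305440582043680)) (.cons (.rf (nat_lit 1629) (nat_lit 493858305440582043680)) (.cons (.rf (nat_lit 1630) (nat_lit 493858305440582043680)) (.cons (.br (nat_lit 3) (nat_lit 0) (.cons (.rf (nat_lit 1625) (nat_lit 493858305440582043680)) (.cons (.rf (nat_lit 1629) (nat_lit 493858305440582043680)) (.cons (.rf (nat_lit 1630) (nat_lit 493858305440582043680)) .nil)))) .nil))))),
 (.br (nat_lit 3) (nat_lit 0) (.cons (.rf (nat_lit 1626) (nat_lit 493858305440582043680)) (.cons (.rf (nat_lit 247) (nat_lit 14316140924281915424)) (.cons (.br (nat_lit 4) (nat_lit 0) (.cons (.br (nat_lit 12) (nat_lit 0) (.cons (.ev (nat_lit 20283338072903791157199123906560) (nat_lit 2)) .nil)) (.cons (.br (nat_lit 6) (nat_lit 0) (.cons (.ev (nat_lit 310698676526525714580635648) (nat_lit 1)) .nil)) (.cons (.ev (nat_lit 20282410812577490038580737736704) (nat_lit 1)) .nil)))) .nil)))),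
 (.br (nat_lit 3) (nat_lit 0) (.cons (.rf (nat_lit 1626) (nat_lit 493858305440582043680)) (.cons (.rf (nat_lit 1631) (nat_lit 493858305440582043680)) (.cons (.rf (nat_lit 1632) (nat_lit 493858305440582043680)) (.cons (.br (nat_lit 3) (nat_lit 0) (.cons (.rf (nat_lit 1626) (nat_lit 493858305440582043680)) (.cons (.rf (nat_lit 1631) (nat_lit 493858305440582043680)) (.cons (.rf (nat_lit 1632) (nat_lit 493858305440582043680)) .nil)))) .nil))))),
 (.br (nat_lit 3) (nat_lit 0) (.cons (.rf (nat_lit 1628) (nat_lit 493858305440582043680)) (.cons (.rf (nat_lit 1631) (nat_lit 493858305440582043680)) (.cons (.rf (nat_lit 1633) (nat_lit 493858305440582043680)) (.cons (.br (nat_lit 3) (nat_lit 0) (.cons (.rf (nat_lit 1628) (nat_lit 493858305440582043680)) (.cons (.rf (nat_lit 1631) (nat_lit 493858305440582043680)) (.cons (.rf (nat_lit 1633) (nat_lit 493858305440582043680)) .nil)))) .nil))))),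
 (.br (nat_lit 3) (nat_lit 0) (.cons (.rf (nat_lit 1628) (nat_lit 493858305440582043680)) (.cons (.rf (nat_lit 1631) (nat_lit 493858305440582043680)) (.cons (.rf (nat_lit 1633) (nat_lit 493858305440582043680)) (.cons (.rf (nat_lit 1634) (nat_lit 493858305440582043680)) (.cons (.br (nat_lit 3) (nat_lit 0) (.cons (.rf (nat_lit 1628) (nat_lit 493858305440582043680)) (.cons (.rf (nat_lit 1631) (nat_lit 493858305440582043680)) (.cons (.rf (nat_lit 1633) (nat_lit 493858305440582043680)) (.cons (.rf (nat_lit 1634) (nat_lit 493858305440582043680)) .nil))))) .nil)))))),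
 (.br (nat_lit 2) (nat_lit 0) (.cons (.rf (nat_lit 1530) (nat_lit 493858305440582042688)) (.cons (.rf (nat_lit 1603) (nat_lit 493858305440582042688)) (.cons (.kr (nat_lit 256) (nat_lit 65536) (nat_lit 1) (nat_lit 0)) (.cons (.rf (nat_lit 1635) (nat_lit 493858305440582043680)) (.cons (.rf (nat_lit 1635) (nat_lit 492741412732994160672)) (.cons (.kr (nat_lit 1213648186097498819920384) (nat_lit 72058693549686784) (nat_lit 1) (nat_lit 0)) .nil)))))))]

theorem c59 : chkAll C T R L59 (nat_lit 1606) = true := by decide +kernel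

theorem l59 : (nat_lit 1606) + L59.length = (nat_lit 1637) := by decide +kernel

end Pool.Agent.H93.Neg.Q14_4_0_4_6_0
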