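import Pool.Agent.H93.Neg.TabQ14_4_0_4_6_0

/-!
Certificates.
-/

set_option autoImplicit false
set_option maxRecDepth 100000
set_option linter.all false

namespace Pool.Agent.H93.Neg.Q14_4_0_4_6_0

/-- part of the certificates -/
def L60 : List Prf := [(.br (nat_lit 6) (nat_lit 0) (.cons (.br (nat_lit 12) (nat_lit 0) (.cons (.zr (nat_lit 4722438542662706397187) (nat_lit 20282719088661492050495247745536) (nat_lit 5) (nat_lit 4)) .nil)) (.cons (.br (nat_lit 8) (nat_lit 0) (.cons (.zr (nat_lit 4722438542662706397187) (nat_lit 20282719088661492050495247745536) (nat_lit 5) (nat_lit 4)) .nil)) (.cons (.br (nat_lit 8) (nat_lit 0) (.cons (.ev (nat_lit 20361637770906747988488444969216) (nat_lit 1)) .nil)) .nil)))),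
 (.br (nat_lit 8) (nat_lit 0) (.cons (.ev (nat_lit 20361948460101575721243006533888) (nat_lit 1)) .nil)),
 (.br (nat_lit 3) (nat_lit 0) (.cons (.br (nat_lit 12) (nat_lit 0) (.cons (.ev (nat_lit 81288095953320650245709314131460) (nat_lit 3)) .nil)) (.cons (.rf (nat_lit 1638) (nat_lit 493858305440582043680)) (.cons (.rf (nat_lit 1637) (nat_lit 493858305440582043680)) .nil)))),
 (.br (nat_lit 3) (nat_lit 0) (.cons (.br (nat_lit 12) (nat_lit 0) (.cons (.zr (nat_lit 4722438542662706397187) (nat_lit 20282719088661492050495247745536) (nat_lit 5) (nat_lit 4)) .nil)) (.cons (.rf (nat_lit 1638) (nat_lit 493858303243706271776)) (.cons (.rf (nat_lit 1637) (nat_lit 493858305440582043680)) .nil)))),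
 (.br (nat_lit 13) (nat_lit 0) (.cons (.rf (nat_lit 1637) (nat_lit 493858305440582043680)) (.cons (.rf (nat_lit 1639) (nat_lit 493858305440582043680)) (.cons (.rf (nat_lit 1640) (nat_lit 493858305440582043680)) (.cons (.br (nat_lit 13) (nat_lit 0) (.cons (.rf (nat_lit 1637) (nat_lit 493858305440582043680)) (.cons (.rf (nat_lit 1639) (nat_lit 493858305440582043680)) (.cons (.rf (nat_lit 1640) (nat_lit 493858305440582043680)) .nil)))) .nil))))),
 (.br (nat_lit 3) (nat_lit 0) (.cons (.rf (nat_lit 1641) (nat_lit 493858305440582043680)) (.cons (.rf (nat_lit 318) (nat_lit 14316143121157687328)) (.cons (.rf (nat_lit 320) (nat_lit 14316143121157687328)) (.cons (.br (nat_lit 4) (nat_lit 0) (.cons (.br (nat_lit 12) (nat_lit 0) (.cons (.zr (nat_lit 4722438542662706397187) (nat_lit 20282719088661492050495247745536) (nat_lit 5) (nat_lit 4)) .nil)) (.cons (.br (nat_lit 8) (nat_lit 0) (.cons (.zr (nat_lit 4722438542662706397187) (nat_lit 20282719088661492050495247745536) (nat_lit 5) (nat_lit 4)) .nil)) (.cons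 (.br (nat_lit 8) (nat_lit 0) (.cons (.ev (nat_lit 20282719088680010570688018514176) (nat_lit 1)) .nil)) .nil)))) .nil))))),
 (.br (nat_lit 3) (nat_lit 0) (.cons (.rf (nat_lit 1641) (nat_lit 493858305440582043680)) (.cons (.rf (nat_lit 318) (nat_lit 14316143121157687328)) (.cons (.rf (nat_lit 320) (nat_lit 14316140924281915424)) (.cons (.br (nat_lit 4) (nat_lit 0) (.cons (.br (nat_lit 12) (nat_lit 0) (.cons (.ev (nat_lit 81289333921767777388706826421248) (nat_lit 3)) .nil)) (.cons (.br (nat_lit 6) (nat_lit 0) (.cons (.ev (nat_lit 81288095972209827946811743011332) (nat_lit 3)) .nil)) (.cons (.br (nat_lit 6) (nat_lit 0) (.cons (.ev (nat_lit 81289952872787417795912523580930) (nat_lit 3)) .nil)) .nil)))) .nil))))),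
 (.br (nat_lit 8) (nat_lit 0) (.cons (.ev (nat_lit 20361947251175756107713343389696) (nat_lit 1)) .nil)),
 (.br (nat_lit 3) (nat_lit 0) (.cons (.rf (nat_lit 1641) (nat_lit 493858305440582043680)) (.cons (.rf (nat_lit 320) (nat_lit 14316143121157687328)) (.cons (.rf (nat_lit 320) (nat_lit 14316140924281915424)) (.cons (.br (nat_lit 4) (nat_lit 0) (.cons (.rf (nat_lit 1644) (nat_lit 493858305440582043680)) (.cons (.rf (nat_lit 1644) (nat_lit 493858303243706271776)) (.cons (.ev (nat_lit 20282410812577490038580737736704) (nat_lit 1)) .nil)))) .nil))))),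
 (.br (nat_lit 3) (nat_lit 0) (.cons (.rf (nat_lit 1641) (nat_lit 493858305440582043680)) (.cons (.rf (nat_lit 1642) (nat_lit 493858305440582043680)) (.cons (.rf (nat_lit 1643) (nat_lit 493858305440582043680)) (.cons (.rf (nat_lit 1645) (nat_lit 493858305440582043680)) (.cons (.br (nat_lit 3) (nat_lit 0) (.cons (.rf (nat_lit 1641) (nat_lit 493858305440582043680)) (.cons (.rf (nat_lit 1642) (nat_lit 493858305440582043680)) (.cons (.rf (nat_lit 1643) (nat_lit 493858305440582043680)) (.cons (.rf (nat_lit 1645) (nat_lit 493858305440582043680)) .nil))))) .nil)))))),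
 (.br (nat_lit 3) (nat_lit 0) (.cons (.rf (nat_lit 318) (nat_lit 13164347516457682976)) (.cons (.br (nat_lit 12) (nat_lit 0) (.cons (.ev (nat_lit 20361948460101575721243006533888) (nat_lit 1)) .nil)) .nil))),
 (.br (nat_lit 3) (nat_lit 0) (.cons (.rf (nat_lit 1647) (nat_lit 493858305440582043680)) (.cons (.rf (nat_lit 1646) (nat_lit 492741412732994160672)) (.cons (.br (nat_lit 3) (nat_lit 0) (.cons (.rf (nat_lit 1647) (nat_lit 493858305440582043680)) (.cons (.rf (nat_lit 1646) (nat_lit 492741412732994160672)) .nil))) .nil)))),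
 (.br (nat_lit 3) (nat_lit 0) (.cons (.rf (nat_lit 1647) (nat_lit 493858305440582043680)) (.cons (.rf (nat_lit 1646) (nat_lit 492741412732994160672)) (.cons (.br (nat_lit 3) (nat_lit 0) (.cons (.rf (nat_lit 1647) (nat_lit 493858305440582043680)) (.cons (.rf (nat_lit 1646) (nat_lit 492741412732994160672)) .nil))) .nil)))),
 (.br (nat_lit 3) (nat_lit 0) (.cons (.rf (nat_lit 1648) (nat_lit 493858305440582043680)) (.cons (.rf (nat_lit 1649) (nat_lit 493858305440582043680)) (.cons (.rf (nat_lit 1646) (nat_lit 492741412732994160672)) (.cons (.br (nat_lit 3) (nat_lit 0) (.cons (.rf (nat_lit 1648) (nat_lit 493858305440582043680)) (.cons (.rf (nat_lit 1649) (nat_lit 493858305440582043680)) (.cons (.rf (nat_lit 1646) (nat_lit 492741412732994160672)) .nil)))) .nil))))),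
 (.br (nat_lit 3) (nat_lit 0) (.cons (.ev (nat_lit 20361637766184453563212837748993) (nat_lit 1)) .nil)),
 (.br (nat_lit 8) (nat_lit 0) (.cons (.rf (nat_lit 1651) (nat_lit 493858305440582043680)) (.cons (.ev (nat_lit 20282719088680010570688018513921) (nat_lit 1)) .nil))),
 (.br (nat_lit 4) (nat_lit 0) (.cons (.rf (nat_lit 1651) (nat_lit 493858305440582043680)) (.cons (.ev (nat_lit 20361637770906747988488444968961) (nat_lit 1)) .nil))),
 (.br (nat_lit 12) (nat_lit 0) (.cons (.rf (nat_lit 1646) (nat_lit 492741412732994160672)) (.cons (.rf (nat_lit 1650) (nat_lit 492741412732994160672)) (.cons (.rf (nat_lit 876) (nat_lit 424402847776)) (.cons (.br (nat_lit 3) (nat_lit 0) (.cons (.rf (nat_lit 1652) (nat_lit 493858305440582043680)) (.cons (.rf (nat_lit 1653) (nat_lit 493858305440582043680)) (.cons (.br (nat_lit 3) (nat_lit 0) (.cons (.rf (nat_lit 1652) (nat_lit 493858305440582043680)) (.cons (.rf (nat_lit 1653) (nat_lit 493858305440582043680)) .nil))) .nil)))) .nil))))),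
 (.br (nat_lit 3) (nat_lit 0) (.cons (.zr (nat_lit 4722438542662706397187) (nat_lit 20282719088661492050495247745536) (nat_lit 5) (nat_lit 4)) .nil)),
 (.br (nat_lit 6) (nat_lit 0) (.cons (.rf (nat_lit 1655) (nat_lit 493858305440582043680)) (.cons (.ev (nat_lit 81288714923377042315403076174340) (nat_lit 3)) .nil))),
 (.br (nat_lit 3) (nat_lit 0) (.cons (.rf (nat_lit 1655) (nat_lit 493858305440582043680)) (.cons (.br (nat_lit 3) (nat_lit 0) (.cons (.zr (nat_lit 4722438542662706397187) (nat_lit 20282719088661492050495247745536) (nat_lit 5) (nat_lit 4)) .nil)) .nil))),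
 (.br (nat_lit 12) (nat_lit 0) (.cons (.rf (nat_lit 1646) (nat_lit 492741412732994160672)) (.cons (.rf (nat_lit 1650) (nat_lit 492741412732994160672)) (.cons (.rf (nat_lit 876) (nat_lit 391116851232)) (.cons (.br (nat_lit 3) (nat_lit 0) (.cons (.rf (nat_lit 1656) (nat_lit 493858305440582043680)) (.cons (.rf (nat_lit 1657) (nat_lit 493858305440582043680)) (.cons (.br (nat_lit 3) (nat_lit 0) (.cons (.rf (nat_lit 1656) (nat_lit 493858305440582043680)) (.cons (.rf (nat_lit 1657) (nat_lit 493858305440582043680)) .nil))) .nil)))) .nil))))),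
 (.br (nat_lit 3) (nat_lit 0) (.cons (.ev (nat_lit 20361948460101575721243006533888) (nat_lit 1)) .nil)),
 (.br (nat_lit 3) (nat_lit 0) (.cons (.rf (nat_lit 1659) (nat_lit 493858305440582043680)) (.cons (.rf (nat_lit 1659) (nat_lit 493858303243706271776)) .nil))),
 (.br (nat_lit 3) (nat_lit 0) (.cons (.rf (nat_lit 1660) (nat_lit 493858305440582043680)) (.cons (.br (nat_lit 3) (nat_lit 0) (.cons (.ev (nat_lit 20361948460101575721243006533888) (nat_lit 1)) .nil)) .nil))),
 (.br (nat_lit 12) (nat_lit 0) (.cons (.ev (nat_lit 20361637770906747988488445034496) (nat_lit 1)) .nil)),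
 (.br (nat_lit 8) (nat_lit 0) (.cons (.rf (nat_lit 1662) (nat_lit 493858305440582043680)) (.cons (.br (nat_lit 11) (nat_lit 0) (.cons (.zr (nat_lit 4722438542662706397187) (nat_lit 20361637766165935043020066914816) (nat_lit 5) (nat_lit 4)) .nil)) (.cons (.br (nat_lit 11) (nat_lit 0) (.cons (.zr (nat_lit 4722438542662706397187) (nat_lit 20361637766165935043020066914816) (nat_lit 5) (nat_lit 4)) .nil)) .nil)))),
 (.br (nat_lit 3) (nat_lit 0) (.cons (.br (nat_lit 12) (nat_lit 0) (.cons (.ev (nat_lit 20441175413745505636045788611330) (nat_lit 2)) .nil)) (.cons (.rf (nat_lit 1663) (nat_lit 493858305440582043680)) (.cons (.br (nat_lit 11) (nat_lit 0) (.cons (.zr (nat_lit 4722438542662706397187) (nat_lit 20361637766165935043020066914816) (nat_lit 5) (nat_lit 4)) .nil)) .nil)))),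
 (.br (nat_lit 12) (nat_lit 0) (.cons (.rf (nat_lit 1663) (nat_lit 493858305440582043680)) (.cons (.rf (nat_lit 1664) (nat_lit 493858305440582043680)) (.cons (.br (nat_lit 12) (nat_lit 0) (.cons (.rf (nat_lit 1663) (nat_lit 493858305440582043680)) (.cons (.rf (nat_lit 1664) (nat_lit 493858305440582043680)) (.cons (.ev (nat_lit 79538856449977637464264671488) (nat_lit 1)) .nil)))) (.cons (.br (nat_lit 12) (nat_lit 0) (.cons (.rf (nat_lit 1663) (nat_lit 493858305440582043680)) (.cons (.rf (nat_lit 1664) (nat_lit 493858305440582043680)) (.cons (.ev (nat_lit 79538856449977637464264671488) (nat_lit 1)) .nil)))) .nil))))),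
 (.br (nat_lit 3) (nat_lit 0) (.cons (.rf (nat_lit 1665) (nat_lit 493858305440582043680)) (.cons (.br (nat_lit 12) (nat_lit 0) (.cons (.br (nat_lit 12) (nat_lit 0) (.cons (.zr (nat_lit 4722438542662706397187) (nat_lit 79537647542532426740273250816) (nat_lit 5) (nat_lit 4)) .nil)) (.cons (.br (nat_lit 6) (nat_lit 0) (.cons (.zr (nat_lit 4722438542662706397187) (nat_lit 79537647542532426740273250816) (nat_lit 5) (nat_lit 4)) .nil)) .nil))) (.cons (.br (nat_lit 6) (nat_lit 0) (.cons (.br (nat_lit 12) (nat_lit 0) (.cons (.zr (nat_lit 4722438542662706397187) (nat_lit 79537647542532426740273250816) (nat_lit 5) (nat_lit 4)) .nil)) (.cons (.br (nat_lit 11) (nat_lit 0) (.cons (.zr (nat_lit 4722438542662706397187) (nat_lit 79537647542532426740273250816) (nat_lit 5) (nat_lit 4)) .nil)) (.cons (.br (nat_lit 11) (nat_lit 0) (.cons (.ev (nat_lit 79537652246452447011185623296) (nat_lit 1)) .nil)) .nil)))) (.cons (.br (nat_lit 12) (nat_lit 0) (.cons (.br (nat_lit 11) (nat_lit 0) (.cons (.ev (nat_lit 20441175413745505636045788741890)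 (nat_lit 2)) .nil)) (.cons (.br (nat_lit 6) (nat_lit 0) (.cons (.ev (nat_lit 20441175413745505636045788741890) (nat_lit 2)) .nil)) .nil))) .nil))))),
 (.br (nat_lit 8) (nat_lit 0) (.cons (.ev (nat_lit 20361637770906747988488444969216) (nat_lit 1)) .nil)),
 (.br (nat_lit 3) (nat_lit 0) (.cons (.rf (nat_lit 1665) (nat_lit 493858305440582043680)) (.cons (.rf (nat_lit 1666) (nat_lit 493858305440582043680)) (.cons (.br (nat_lit 6) (nat_lit 0) (.cons (.br (nat_lit 12) (nat_lit 0) (.cons (.zr (nat_lit 4722438542662706397187) (nat_lit 79537647542532426740273250816) (nat_lit 5) (nat_lit 4)) .nil)) (.cons (.br (nat_lit 8) (nat_lit 0) (.cons (.zr (nat_lit 4722438542662706397187) (nat_lit 79537647542532426740273250816) (nat_lit 5) (nat_lit 4)) .nil)) (.cons (.rf (nat_lit 1667) (nat_lit 493858305440582043680)) .nil)))) (.cons (.br (nat_lit 12) (nat_lit 0) (.cons (.br (nat_lit 8) (nat_lit 0) (.cons (.ev (nat_lit 79229371458530977775716663296) (nat_lit 1)) .nil)) (.cons (.br (nat_lit 6) (nat_lit 0) (.cons (.ev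 (nat_lit 79229371458530977775716663296) (nat_lit 1)) .nil)) .nil))) .nil))))),
 (.br (nat_lit 8) (nat_lit 0) (.cons (.ev (nat_lit 79537652246452447011185688576) (nat_lit 1)) .nil)),
 (.br (nat_lit 3) (nat_lit 0) (.cons (.rf (nat_lit 1665) (nat_lit 493858305440582043680)) (.cons (.rf (nat_lit 1666) (nat_lit 493858305440582043680)) (.cons (.rf (nat_lit 1668) (nat_lit 493858305440582043680)) (.cons (.br (nat_lit 6) (nat_lit 0) (.cons (.br (nat_lit 11) (nat_lit 0) (.cons (.zr (nat_lit 4722438542662706397187) (nat_lit 20361637766165935043020066914816) (nat_lit 5) (nat_lit 4)) .nil)) (.cons (.br (nat_lit 8) (nat_lit 0) (.cons (.zr (nat_lit 4722438542662706397187) (nat_lit 20361637766165935043020066914816) (nat_lit 5) (nat_lit 4)) .nil)) (.cons (.rf (nat_lit 1669) (nat_lit 493858305440582043680)) .nil)))) .nil))))),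
 (.br (nat_lit 3) (nat_lit 0) (.cons (.rf (nat_lit 1665) (nat_lit 493858305440582043680)) (.cons (.rf (nat_lit 1666) (nat_lit 493858305440582043680)) (.cons (.rf (nat_lit 1668) (nat_lit 493858305440582043680)) (.cons (.rf (nat_lit 1670) (nat_lit 493858305440582043680)) (.cons (.br (nat_lit 3) (nat_lit 0) (.cons (.rf (nat_lit 1665) (nat_lit 493858305440582043680)) (.cons (.rf (nat_lit 1666) (nat_lit 493858305440582043680)) (.cons (.rf (nat_lit 1668) (nat_lit 493858305440582043680)) (.cons (.rf (nat_lit 1670) (nat_lit 493858305440582043680)) .nil))))) .nil))))))]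

theorem c60 : chkAll C T R L60 (nat_lit 1637) = true := by decide +kernel

theorem l60 : (nat_lit 1637) + L60.length = (nat_lit 1672) := by decide +kernel

/-- part of the certificates -/
def L61 : List Prf := [(.br (nat_lit 12) (nat_lit 0) (.cons (.ev (nat_lit 79537647524158021735578402816) (nat_lit 1)) .nil)),
 (.br (nat_lit 3) (nat_lit 0) (.cons (.rf (nat_lit 1671) (nat_lit 493858305440582043680)) (.cons (.br (nat_lit 12) (nat_lit 0) (.cons (.br (nat_lit 12) (nat_lit 0) (.cons (.ev (nat_lit 20361948460101575721243006533888) (nat_lit 1)) .nil)) (.cons (.br (nat_lit 4) (nat_lit 0) (.cons (.ev (nat_lit 20361948460101575721243006533888) (nat_lit 1)) .nil)) .nil))) (.cons (.br (nat_lit 4) (nat_lit 0) (.cons (.rf (nat_lit 1672) (nat_lit 493858305440582043680)) (.cons (.br (nat_lit 11) (nat_lit 0) (.cons (.ev (nat_lit 20361948460101575721243006533888) (nat_lit 1)) .nil)) (.cons (.br (nat_lit 11) (nat_lit 0) (.cons (.ev (nat_lit 79537652246452447011185623296) (nat_lit 1)) .nil)) .nil)))) (.cons (.br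 (nat_lit 12) (nat_lit 0) (.cons (.br (nat_lit 11) (nat_lit 0) (.cons (.ev (nat_lit 20361948460101575721243006533888) (nat_lit 1)) .nil)) (.cons (.br (nat_lit 4) (nat_lit 0) (.cons (.ev (nat_lit 20361948460101575721243006533888) (nat_lit 1)) .nil)) .nil))) .nil))))),
 (.br (nat_lit 3) (nat_lit 0) (.cons (.rf (nat_lit 1671) (nat_lit 493858305440582043680)) (.cons (.rf (nat_lit 1673) (nat_lit 493858305440582043680)) (.cons (.br (nat_lit 4) (nat_lit 0) (.cons (.br (nat_lit 12) (nat_lit 0) (.cons (.ev (nat_lit 20441794388450693380698558956034) (nat_lit 2)) .nil)) (.cons (.ev (nat_lit 79538856449977637464264737025) (nat_lit 1)) (.cons (.br (nat_lit 8) (nat_lit 0) (.cons (.ev (nat_lit 20441794388450693380698558956034) (nat_lit 2)) .nil)) .nil)))) (.cons (.br (nat_lit 12) (nat_lit 0) (.cons (.br (nat_lit 8) (nat_lit 0) (.cons (.ev (nat_lit 79229371458530977775716663296) (nat_lit 1)) .nil)) (.cons (.br (nat_lit 4) (nat_lit 0) (.cons (.ev (nat_lit 79229371458530977775716663296) (nat_lit 1)) .nil)) .nil)))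 .nil))))),
 (.br (nat_lit 3) (nat_lit 0) (.cons (.rf (nat_lit 1671) (nat_lit 493858305440582043680)) (.cons (.rf (nat_lit 1673) (nat_lit 493858305440582043680)) (.cons (.rf (nat_lit 1674) (nat_lit 493858305440582043680)) (.cons (.br (nat_lit 4) (nat_lit 0) (.cons (.br (nat_lit 11) (nat_lit 0) (.cons (.zr (nat_lit 4722438542662706397187) (nat_lit 20361637766165935043020066914816) (nat_lit 5) (nat_lit 4)) .nil)) (.cons (.br (nat_lit 8) (nat_lit 0) (.cons (.zr (nat_lit 4722438542662706397187) (nat_lit 20361637766165935043020066914816) (nat_lit 5) (nat_lit 4)) .nil)) (.cons (.br (nat_lit 8) (nat_lit 0) (.cons (.ev (nat_lit 203457922588206448179267014099466) (nat_lit 4)) .nil)) .nil)))) .nil))))),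
 (.br (nat_lit 3) (nat_lit 0) (.cons (.rf (nat_lit 1671) (nat_lit 493858305440582043680)) (.cons (.rf (nat_lit 1673) (nat_lit 493858305440582043680)) (.cons (.rf (nat_lit 1674) (nat_lit 493858305440582043680)) (.cons (.rf (nat_lit 1675) (nat_lit 493858305440582043680)) (.cons (.br (nat_lit 3) (nat_lit 0) (.cons (.rf (nat_lit 1671) (nat_lit 493858305440582043680)) (.cons (.rf (nat_lit 1673) (nat_lit 493858305440582043680)) (.cons (.rf (nat_lit 1674) (nat_lit 493858305440582043680)) (.cons (.rf (nat_lit 1675) (nat_lit 493858305440582043680)) .nil))))) .nil)))))),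
 (.br (nat_lit 3) (nat_lit 0) (.cons (.rf (nat_lit 1671) (nat_lit 493858305440582043680)) (.cons (.rf (nat_lit 1676) (nat_lit 493858305440582043680)) (.cons (.br (nat_lit 4) (nat_lit 0) (.cons (.br (nat_lit 12) (nat_lit 0) (.cons (.zr (nat_lit 4722438542662706397187) (nat_lit 79537647542532426740273250816) (nat_lit 5) (nat_lit 4)) .nil)) (.cons (.br (nat_lit 6) (nat_lit 0) (.cons (.ev (nat_lit 634445521745705337380968205826) (nat_lit 4)) .nil)) (.cons (.br (nat_lit 6) (nat_lit 0) (.cons (.zr (nat_lit 4722438542662706397187) (nat_lit 79537647542532426740273250816) (nat_lit 5) (nat_lit 4)) .nil)) .nil)))) (.cons (.br (nat_lit 12) (nat_lit 0) (.cons (.br (nat_lit 6) (nat_lit 0) (.cons (.ev (nat_lit 79229371458530977775716663296) (nat_lit 1)) .nil)) (.cons (.br (nat_lit 4) (nat_lit 0) (.cons (.ev (nat_lit 79229371458530977775716663296) (nat_lit 1)) .nil)) .nil))) .nil))))),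
 (.br (nat_lit 3) (nat_lit 0) (.cons (.rf (nat_lit 1671) (nat_lit 493858305440582043680)) (.cons (.rf (nat_lit 1676) (nat_lit 493858305440582043680)) (.cons (.rf (nat_lit 1677) (nat_lit 493858305440582043680)) (.cons (.br (nat_lit 4) (nat_lit 0) (.cons (.br (nat_lit 11) (nat_lit 0) (.cons (.ev (nat_lit 20441794397895282231249773658114) (nat_lit 2)) .nil)) (.cons (.br (nat_lit 6) (nat_lit 0) (.cons (.ev (nat_lit 20441794397895282231249773658114) (nat_lit 2)) .nil)) (.cons (.ev (nat_lit 20361638975110273178941524017153) (nat_lit 1)) .nil)))) .nil))))),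
 (.br (nat_lit 3) (nat_lit 0) (.cons (.rf (nat_lit 1671) (nat_lit 493858305440582043680)) (.cons (.rf (nat_lit 1676) (nat_lit 493858305440582043680)) (.cons (.rf (nat_lit 1677) (nat_lit 493858305440582043680)) (.cons (.rf (nat_lit 1678) (nat_lit 493858305440582043680)) (.cons (.br (nat_lit 3) (nat_lit 0) (.cons (.rf (nat_lit 1671) (nat_lit 493858305440582043680)) (.cons (.rf (nat_lit 1676) (nat_lit 493858305440582043680)) (.cons (.rf (nat_lit 1677) (nat_lit 493858305440582043680)) (.cons (.rf (nat_lit 1678) (nat_lit 493858305440582043680)) .nil))))) .nil)))))),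
 (.br (nat_lit 3) (nat_lit 0) (.cons (.rf (nat_lit 1671) (nat_lit 493858305440582043680)) (.cons (.rf (nat_lit 1676) (nat_lit 493858305440582043680)) (.cons (.rf (nat_lit 1679) (nat_lit 493858305440582043680)) (.cons (.br (nat_lit 4) (nat_lit 0) (.cons (.br (nat_lit 8) (nat_lit 0) (.cons (.ev (nat_lit 79537647524158021735578337536) (nat_lit 1)) .nil)) (.cons (.br (nat_lit 6) (nat_lit 0) (.cons (.ev (nat_lit 79229371458530977775716663296) (nat_lit 1)) .nil)) (.cons (.br (nat_lit 6) (nat_lit 0) (.cons (.ev (nat_lit 79229371458530977775716663296) (nat_lit 1)) .nil)) .nil)))) .nil))))),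
 (.br (nat_lit 3) (nat_lit 0) (.cons (.rf (nat_lit 1671) (nat_lit 493858305440582043680)) (.cons (.rf (nat_lit 1676) (nat_lit 493858305440582043680)) (.cons (.rf (nat_lit 1679) (nat_lit 493858305440582043680)) (.cons (.rf (nat_lit 1680) (nat_lit 493858305440582043680)) (.cons (.br (nat_lit 3) (nat_lit 0) (.cons (.rf (nat_lit 1671) (nat_lit 493858305440582043680)) (.cons (.rf (nat_lit 1676) (nat_lit 493858305440582043680)) (.cons (.rf (nat_lit 1679) (nat_lit 493858305440582043680)) (.cons (.rf (nat_lit 1680) (nat_lit 493858305440582043680)) .nil))))) .nil)))))),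
 (.br (nat_lit 3) (nat_lit 0) (.cons (.rf (nat_lit 1671) (nat_lit 493858305440582043680)) (.cons (.rf (nat_lit 1676) (nat_lit 493858305440582043680)) (.cons (.rf (nat_lit 1679) (nat_lit 493858305440582043680)) (.cons (.rf (nat_lit 1681) (nat_lit 493858305440582043680)) (.cons (.br (nat_lit 3) (nat_lit 0) (.cons (.rf (nat_lit 1671) (nat_lit 493858305440582043680)) (.cons (.rf (nat_lit 1676) (nat_lit 493858305440582043680)) (.cons (.rf (nat_lit 1679) (nat_lit 493858305440582043680)) (.cons (.rf (nat_lit 1681) (nat_lit 493858305440582043680)) .nil))))) .nil)))))),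
 (.br (nat_lit 2) (nat_lit 0) (.cons (.rf (nat_lit 1530) (nat_lit 493858305440582042688)) (.cons (.rf (nat_lit 1603) (nat_lit 493858305440582042688)) (.cons (.rf (nat_lit 1623) (nat_lit 493858305440582043680)) (.cons (.rf (nat_lit 1636) (nat_lit 493858305440582043680)) (.cons (.br (nat_lit 11) (nat_lit 0) (.cons (.rf (nat_lit 1646) (nat_lit 493858305440582043680)) (.cons (.rf (nat_lit 1650) (nat_lit 493858305440582043680)) (.cons (.rf (nat_lit 1654) (nat_lit 493858305440582043680)) (.cons (.rf (nat_lit 1658) (nat_lit 493858305440582043680)) (.cons (.kr (nat_lit 309485009821345068724781056) (nat_lit 79228162514264337593543950336) (nat_lit 11) (nat_lit 0)) (.cons (.br (nat_lit 12) (nat_lit 0) (.cons (.rf (nat_lit 1646) (nat_lit 492741412732994160672)) (.cons (.rf (nat_lit 1650) (nat_lit 492741412732994160672)) (.cons (.rf (nat_lit 1654) (nat_lit 492741412732994160672)) (.cons (.rf (nat_lit 1658) (nat_lit 492741412732994160672)) (.cons (.br (nat_lit 3) (nat_lit 0) (.cons (.rf (nat_lit 1660) (nat_lit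 493858305440582043680)) (.cons (.rf (nat_lit 1661) (nat_lit 493858305440582043680)) (.cons (.rf (nat_lit 1661) (nat_lit 493858303243706271776)) .nil)))) .nil)))))) .nil))))))) (.cons (.br (nat_lit 3) (nat_lit 0) (.cons (.rf (nat_lit 1671) (nat_lit 493858305440582043680)) (.cons (.rf (nat_lit 1676) (nat_lit 493858305440582043680)) (.cons (.rf (nat_lit 1679) (nat_lit 493858305440582043680)) (.cons (.rf (nat_lit 1681) (nat_lit 493858305440582043680)) (.cons (.rf (nat_lit 1682) (nat_lit 493858305440582043680)) (.cons (.br (nat_lit 3) (nat_lit 0) (.cons (.rf (nat_lit 1671) (nat_lit 493858305440582043680)) (.cons (.rf (nat_lit 1676) (nat_lit 493858305440582043680)) (.cons (.rf (nat_lit 1679) (nat_lit 493858305440582043680)) (.cons (.rf (nat_lit 1681) (nat_lit 493858305440582043680)) (.cons (.rf (nat_lit 1682) (nat_lit 493858305440582043680)) .nil)))))) .nil))))))) .nil))))))),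
 (.br (nat_lit 2) (nat_lit 0) (.cons (.rf (nat_lit 1530) (nat_lit 493858305440582042688)) (.cons (.rf (nat_lit 1603) (nat_lit 493858305440582042688)) (.cons (.rf (nat_lit 1623) (nat_lit 493858305440582043680)) (.cons (.rf (nat_lit 1636) (nat_lit 493858305440582043680)) (.cons (.rf (nat_lit 1683) (nat_lit 493858305440582043680)) (.cons (.rf (nat_lit 1683) (nat_lit 492741412732994160672)) (.cons (.br (nat_lit 2) (nat_lit 0) (.cons (.rf (nat_lit 1057) (nat_lit 8242115571188738)) (.cons (.rf (nat_lit 1603) (nat_lit 493858305440582042688)) (.cons (.rf (nat_lit 1623) (nat_lit 493858305440582043680)) (.cons (.kr (nat_lit 1213648186097498819920384) (nat_lit 72058693549686784) (nat_lit 1) (nat_lit 0)) (.cons (.rf (nat_lit 1683) (nat_lit 493858305440582043680)) (.cons (.rf (nat_lit 1683) (nat_lit 492741412732994160672)) .nil))))))) .nil)))))))),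
 (.br (nat_lit 12) (nat_lit 0) (.cons (.ev (nat_lit 20361947251175756107713326612736) (nat_lit 1)) .nil)),
 (.br (nat_lit 3) (nat_lit 0) (.cons (.ev (nat_lit 72339073309671681) (nat_lit 1)) (.cons (.br (nat_lit 13) (nat_lit 0) (.cons (.br (nat_lit 8) (nat_lit 0) (.cons (.ev (nat_lit 20441484903422209119873539441409) (nat_lit 2)) .nil)) (.cons (.br (nat_lit 4) (nat_lit 0) (.cons (.ev (nat_lit 20441484903422209119873539441409) (nat_lit 2)) .nil)) .nil))) (.cons (.br (nat_lit 4) (nat_lit 0) (.cons (.rf (nat_lit 1685) (nat_lit 493858305440582043680)) (.cons (.br (nat_lit 8) (nat_lit 0) (.cons (.ev (nat_lit 40644356859586758559176513815296) (nat_lit 2)) .nil)) (.cons (.br (nat_lit 8) (nat_lit 0) (.cons (.ev (nat_lit 1431679001382862279330594688024) (nat_lit 5)) .nil)) .nil)))) .nil)))),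
 (.br (nat_lit 3) (nat_lit 0) (.cons (.ev (nat_lit 72339073309671681) (nat_lit 1)) (.cons (.rf (nat_lit 1686) (nat_lit 493858305440582043680)) (.cons (.rf (nat_lit 1686) (nat_lit 492741412732994159680)) (.cons (.br (nat_lit 3) (nat_lit 0) (.cons (.ev (nat_lit 72339073309671681) (nat_lit 1)) (.cons (.rf (nat_lit 1686) (nat_lit 493858305440582043680)) (.cons (.rf (nat_lit 1686) (nat_lit 492741412732994159680)) .nil)))) .nil))))),
 (.br (nat_lit 4) (nat_lit 0) (.cons (.ev (nat_lit 79228167236630820467500908544) (nat_lit 1)) (.cons (.br (nat_lit 13) (nat_lit 0) (.cons (.ev (nat_lit 79538861172271780165383618561) (nat_lit 1)) .nil)) .nil))),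
 (.br (nat_lit 3) (nat_lit 0) (.cons (.ev (nat_lit 72339073309671681) (nat_lit 1)) (.cons (.rf (nat_lit 1687) (nat_lit 493858305440582043680)) (.cons (.br (nat_lit 3) (nat_lit 0) (.cons (.ev (nat_lit 72339073309671681) (nat_lit 1)) (.cons (.rf (nat_lit 1687) (nat_lit 493858305440582043680)) (.cons (.rf (nat_lit 1688) (nat_lit 15433072009550071840)) .nil)))) (.cons (.br (nat_lit 3) (nat_lit 0) (.cons (.ev (nat_lit 72339073309671681) (nat_lit 1)) (.cons (.rf (nat_lit 1687) (nat_lit 493858305440582043680)) (.cons (.rf (nat_lit 1688) (nat_lit 15433072009550071840)) .nil)))) .nil))))),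
 (.br (nat_lit 12) (nat_lit 0) (.cons (.br (nat_lit 12) (nat_lit 0) (.cons (.ev (nat_lit 20361947251175756107713326612736) (nat_lit 1)) .nil)) (.cons (.br (nat_lit 3) (nat_lit 0) (.cons (.ev (nat_lit 20361947251175756107713326612736) (nat_lit 1)) .nil)) .nil))),
 (.br (nat_lit 3) (nat_lit 0) (.cons (.rf (nat_lit 1690) (nat_lit 493858305440582043680)) (.cons (.br (nat_lit 4) (nat_lit 0) (.cons (.ev (nat_lit 40644666339892660168747787616770) (nat_lit 2)) .nil)) .nil))),
 (.br (nat_lit 3) (nat_lit 0) (.cons (.br (nat_lit 12) (nat_lit 0) (.cons (.ev (nat_lit 20361947251175756107713326612736) (nat_lit 1)) .nil)) (.cons (.ev (nat_lit 158457567048024462247956841472) (nat_lit 3)) (.cons (.br (nat_lit 11) (nat_lit 0) (.cons (.ev (nat_lit 20361947251175756107713326678016) (nat_lit 1)) .nil)) .nil)))),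
 (.br (nat_lit 3) (nat_lit 0) (.cons (.rf (nat_lit 1692) (nat_lit 493858305440582043680)) (.cons (.br (nat_lit 4) (nat_lit 0) (.cons (.ev (nat_lit 20441175418467800061321429385216) (nat_lit 2)) .nil)) (.cons (.br (nat_lit 4) (nat_lit 0) (.cons (.ev (nat_lit 365088944876002300356220849622022) (nat_lit 5)) .nil)) .nil)))),
 (.br (nat_lit 3) (nat_lit 0) (.cons (.ev (nat_lit 158457567048024462247956841472) (nat_lit 3)) (.cons (.rf (nat_lit 1693) (nat_lit 493858305440582043680)) (.cons (.br (nat_lit 4) (nat_lit 0) (.cons (.ev (nat_lit 20441175418467800061321429385216) (nat_lit 2)) .nil)) .nil)))),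
 (.br (nat_lit 12) (nat_lit 0) (.cons (.br (nat_lit 11) (nat_lit 0) (.cons (.ev (nat_lit 20361947251175756107713326678016) (nat_lit 1)) .nil)) (.cons (.br (nat_lit 3) (nat_lit 0) (.cons (.ev (nat_lit 20361947251175756107713326678016) (nat_lit 1)) .nil)) .nil))),
 (.br (nat_lit 3) (nat_lit 0) (.cons (.rf (nat_lit 1695) (nat_lit 493858305440582043680)) (.cons (.br (nat_lit 4) (nat_lit 0) (.cons (.ev (nat_lit 40644666339892660168747787682050) (nat_lit 2)) .nil)) .nil))),
 (.br (nat_lit 8) (nat_lit 0) (.cons (.ev (nat_lit 4722366764348916957184) (nat_lit 1)) (.cons (.br (nat_lit 3) (nat_lit 0) (.cons (.rf (nat_lit 1690) (nat_lit 493858305440582043680)) (.cons (.rf (nat_lit 1691) (nat_lit 493858305440582043680)) (.cons (.br (nat_lit 3) (nat_lit 0) (.cons (.rf (nat_lit 1690) (nat_lit 493858305440582043680)) (.cons (.rf (nat_lit 1691) (nat_lit 493858305440582043680)) .nil))) .nil)))) (.cons (.br (nat_lit 3) (nat_lit 0) (.cons (.rf (nat_lit 1692) (nat_lit 493858305440582043680)) (.cons (.rf (nat_lit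 1693) (nat_lit 493858305440582043680)) (.cons (.rf (nat_lit 1694) (nat_lit 493858305440582043680)) (.cons (.br (nat_lit 3) (nat_lit 0) (.cons (.rf (nat_lit 1692) (nat_lit 493858305440582043680)) (.cons (.rf (nat_lit 1693) (nat_lit 493858305440582043680)) (.cons (.rf (nat_lit 1694) (nat_lit 493858305440582043680)) .nil)))) .nil))))) (.cons (.br (nat_lit 3) (nat_lit 0) (.cons (.rf (nat_lit 1695) (nat_lit 493858305440582043680)) (.cons (.rf (nat_lit 1696) (nat_lit 493858305440582043680)) (.cons (.br (nat_lit 3) (nat_lit 0) (.cons (.rf (nat_lit 1695) (nat_lit 493858305440582043680)) (.cons (.rf (nat_lit 1696) (nat_lit 493858305440582043680)) .nil))) .nil)))) .nil)))))]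

theorem c61 : chkAll C T R L61 (nat_lit 1672) = true := by decide +kernel

theorem l61 : (nat_lit 1672) + L61.length = (nat_lit 1698) := by decide +kernel

/-- part of the certificates -/
def L62 : List Prf := [(.br (nat_lit 8) (nat_lit 0) (.cons (.rf (nat_lit 1697) (nat_lit 493858305440582043680)) (.cons (.ev (nat_lit 4722366764348916957184) (nat_lit 1)) (.cons (.br (nat_lit 4) (nat_lit 0) (.cons (.br (nat_lit 3) (nat_lit 0) (.cons (.br (nat_lit 3) (nat_lit 0) (.cons (.ev (nat_lit 20361948460101575721242989690881) (nat_lit 1)) .nil)) (.cons (.br (nat_lit 3) (nat_lit 0) (.cons (.ev (nat_lit 20361948460101575721242989690881) (nat_lit 1)) .nil)) .nil))) (.cons (.ev (nat_lit 79229371458530977775699951616) (nat_lit 1)) (.cons (.ev (nat_lit 20282719088680010570688018514176) (nat_lit 1)) .nil)))) (.cons (.br (nat_lit 3) (nat_lit 0) (.cons (.br (nat_lit 3) (nat_lit 0) (.cons (.br (nat_lit 3) (nat_lit 0) .nil) .nil)) (.cons (.br (nat_lit 3) (nat_lit 0) (.cons (.br (nat_lit 3) (nat_lit 0) .nil) .nil))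 .nil))) .nil))))),
 (.br (nat_lit 8) (nat_lit 0) (.cons (.rf (nat_lit 1697) (nat_lit 493858305440582043680)) (.cons (.ev (nat_lit 4722366764348916957184) (nat_lit 1)) (.cons (.rf (nat_lit 1698) (nat_lit 493858305440582043680)) (.cons (.br (nat_lit 4) (nat_lit 0) (.cons (.br (nat_lit 3) (nat_lit 0) (.cons (.br (nat_lit 3) (nat_lit 0) (.cons (.ev (nat_lit 20361948460101575721242989690881) (nat_lit 1)) .nil)) (.cons (.br (nat_lit 3) (nat_lit 0) (.cons (.ev (nat_lit 20361948460101575721242989690881) (nat_lit 1)) .nil)) .nil))) (.cons (.ev (nat_lit 20282719088680010570688018514176) (nat_lit 1)) (.cons (.ev (nat_lit 79229371458530977775699886336) (nat_lit 1)) .nil)))) .nil))))),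
 (.br (nat_lit 2) (nat_lit 0) (.cons (.rf (nat_lit 1057) (nat_lit 11514399472845826)) (.cons (.rf (nat_lit 1603) (nat_lit 493858305440582042688)) (.cons (.rf (nat_lit 1684) (nat_lit 493858305440582042688)) (.cons (.kr (nat_lit 256) (nat_lit 65536) (nat_lit 1) (nat_lit 0)) (.cons (.br (nat_lit 3) (nat_lit 0) (.cons (.ev (nat_lit 72339073309671681) (nat_lit 1)) (.cons (.rf (nat_lit 1687) (nat_lit 493858305440582043680)) (.cons (.rf (nat_lit 1689) (nat_lit 493858305440582043680)) (.cons (.rf (nat_lit 1689) (nat_lit 492741412732994159680)) (.cons (.br (nat_lit 3) (nat_lit 0) (.cons (.ev (nat_lit 72339073309671681) (nat_lit 1)) (.cons (.rf (nat_lit 1687) (nat_lit 493858305440582043680)) (.cons (.rf (nat_lit 1689) (nat_lit 493858305440582043680)) (.cons (.rf (nat_lit 1689) (nat_lit 492741412732994159680)) .nil))))) .nil)))))) (.cons (.br (nat_lit 8) (nat_lit 0) (.cons (.rf (nat_lit 1697) (nat_lit 493858305440582043680)) (.cons (.ev (nat_lit 4722366764348916957184) (nat_lit 1)) (.cons (.rf (nat_lit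 1698) (nat_lit 493858305440582043680)) (.cons (.rf (nat_lit 1699) (nat_lit 493858305440582043680)) (.cons (.br (nat_lit 8) (nat_lit 0) (.cons (.rf (nat_lit 1697) (nat_lit 493858305440582043680)) (.cons (.ev (nat_lit 4722366764348916957184) (nat_lit 1)) (.cons (.rf (nat_lit 1698) (nat_lit 493858305440582043680)) (.cons (.rf (nat_lit 1699) (nat_lit 493858305440582043680)) .nil))))) .nil)))))) .nil))))))),
 (.br (nat_lit 12) (nat_lit 0) (.cons (.ev (nat_lit 20361947251175756107713326612736) (nat_lit 1)) .nil)),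
 (.br (nat_lit 8) (nat_lit 0) (.cons (.ev (nat_lit 309485028268371721234415873) (nat_lit 1)) (.cons (.rf (nat_lit 1701) (nat_lit 493858305440582043680)) .nil))),
 (.br (nat_lit 3) (nat_lit 0) (.cons (.ev (nat_lit 309485028268371721234415873) (nat_lit 1)) (.cons (.br (nat_lit 12) (nat_lit 0) (.cons (.ev (nat_lit 20361947251175756107713326612736) (nat_lit 1)) .nil)) .nil))),
 (.br (nat_lit 12) (nat_lit 0) (.cons (.rf (nat_lit 1702) (nat_lit 493858305440582043680)) (.cons (.rf (nat_lit 1703) (nat_lit 493858305440582043680)) (.cons (.br (nat_lit 12) (nat_lit 0) (.cons (.rf (nat_lit 1702) (nat_lit 493858305440582043680)) (.cons (.rf (nat_lit 1703) (nat_lit 493858305440582043680)) .nil))) .nil)))),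
 (.br (nat_lit 3) (nat_lit 0) (.cons (.rf (nat_lit 1704) (nat_lit 493858305440582043680)) (.cons (.br (nat_lit 6) (nat_lit 0) (.cons (.ev (nat_lit 309485028268371721234481153) (nat_lit 1)) (.cons (.rf (nat_lit 1701) (nat_lit 493858303243706270784)) .nil))) (.cons (.br (nat_lit 6) (nat_lit 0) (.cons (.br (nat_lit 12) (nat_lit 0) (.cons (.ev (nat_lit 20361947251175756107713326678016) (nat_lit 1)) .nil)) (.cons (.ev (nat_lit 309485028268371721234481153) (nat_lit 1)) .nil))) .nil)))),
 (.br (nat_lit 3) (nat_lit 0) (.cons (.rf (nat_lit 1702) (nat_lit 493858305440582043680)) (.cons (.rf (nat_lit 1705) (nat_lit 493858305440582043680)) (.cons (.br (nat_lit 6) (nat_lit 0) (.cons (.ev (nat_lit 309489750706912184917557248) (nat_lit 1)) (.cons (.br (nat_lit 8) (nat_lit 0) (.cons (.ev (nat_lit 20361948460101575721242989756673) (nat_lit 1)) .nil)) (.cons (.br (nat_lit 8) (nat_lit 0) (.cons (.ev (nat_lit 20361948460101575721242989756673) (nat_lit 1)) .nil)) .nil)))) .nil)))),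
 (.br (nat_lit 3) (nat_lit 0) (.cons (.rf (nat_lit 1704) (nat_lit 493858305440582043680)) (.cons (.rf (nat_lit 1705) (nat_lit 493858305440582043680)) (.cons (.rf (nat_lit 1706) (nat_lit 493858305440582043680)) (.cons (.br (nat_lit 3) (nat_lit 0) (.cons (.rf (nat_lit 1704) (nat_lit 493858305440582043680)) (.cons (.rf (nat_lit 1705) (nat_lit 493858305440582043680)) (.cons (.rf (nat_lit 1706) (nat_lit 493858305440582043680)) .nil)))) .nil))))),
 (.br (nat_lit 3) (nat_lit 0) (.cons (.rf (nat_lit 1707) (nat_lit 493858305440582043680)) (.cons (.br (nat_lit 12) (nat_lit 0) (.cons (.ev (nat_lit 79228162532711364246036807681) (nat_lit 1)) (.cons (.kr (nat_lit 158456325028600733880637587456) (nat_lit 620183667828787636303036416) (nat_lit 2) (nat_lit 0)) .nil))) (.cons (.br (nat_lit 12) (nat_lit 0) (.cons (.rf (nat_lit 909) (nat_lit 14316179336321927200)) (.cons (.br (nat_lit 4) (nat_lit 0) (.cons (.ev (nat_lit 20282409603651670425051074658304) (nat_lit 1)) .nil)) .nil))) .nil)))),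
 (.br (nat_lit 3) (nat_lit 0) (.cons (.rf (nat_lit 1707) (nat_lit 493858305440582043680)) (.cons (.rf (nat_lit 1708) (nat_lit 493858305440582043680)) (.cons (.br (nat_lit 12) (nat_lit 0) (.cons (.rf (nat_lit 954) (nat_lit 9453246189077104672)) (.cons (.kr (nat_lit 158457538676714772685907821568) (nat_lit 618970019714748831032803328) (nat_lit 1) (nat_lit 0)) (.cons (.kr (nat_lit 79228162514264337593543950592) (nat_lit 309485009821345068741558272) (nat_lit 1) (nat_lit 0)) .nil)))) .nil)))),
 (.br (nat_lit 3) (nat_lit 0) (.cons (.rf (nat_lit 1707) (nat_lit 493858305440582043680)) (.cons (.rf (nat_lit 1708) (nat_lit 493858305440582043680)) (.cons (.rf (nat_lit 1709) (nat_lit 493858305440582043680)) (.cons (.br (nat_lit 3) (nat_lit 0) (.cons (.rf (nat_lit 1707) (nat_lit 493858305440582043680)) (.cons (.rf (nat_lit 1708) (nat_lit 493858305440582043680)) (.cons (.rf (nat_lit 1709) (nat_lit 493858305440582043680)) .nil)))) .nil))))),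
 (.br (nat_lit 3) (nat_lit 0) (.cons (.rf (nat_lit 1707) (nat_lit 493858305440582043680)) (.cons (.rf (nat_lit 1710) (nat_lit 493858305440582043680)) (.cons (.br (nat_lit 12) (nat_lit 0) (.cons (.rf (nat_lit 954) (nat_lit 9453246189077104672)) (.cons (.kr (nat_lit 158457538676714772685907951616) (nat_lit 618970019714748831032672256) (nat_lit 2) (nat_lit 0)) (.cons (.kr (nat_lit 79228162514264337593544015872) (nat_lit 309485009821345068741558272) (nat_lit 2) (nat_lit 0)) .nil)))) .nil)))),
 (.br (nat_lit 3) (nat_lit 0) (.cons (.rf (nat_lit 1707) (nat_lit 493858305440582043680)) (.cons (.rf (nat_lit 1710) (nat_lit 493858305440582043680)) (.cons (.rf (nat_lit 1711) (nat_lit 493858305440582043680)) (.cons (.br (nat_lit 3) (nat_lit 0) (.cons (.rf (nat_lit 1707) (nat_lit 493858305440582043680)) (.cons (.rf (nat_lit 1710) (nat_lit 493858305440582043680)) (.cons (.rf (nat_lit 1711) (nat_lit 493858305440582043680)) .nil)))) .nil))))),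
 (.br (nat_lit 3) (nat_lit 0) (.cons (.rf (nat_lit 1707) (nat_lit 493858305440582043680)) (.cons (.rf (nat_lit 1710) (nat_lit 493858305440582043680)) (.cons (.rf (nat_lit 1712) (nat_lit 493858305440582043680)) (.cons (.br (nat_lit 3) (nat_lit 0) (.cons (.rf (nat_lit 1707) (nat_lit 493858305440582043680)) (.cons (.rf (nat_lit 1710) (nat_lit 493858305440582043680)) (.cons (.rf (nat_lit 1712) (nat_lit 493858305440582043680)) .nil)))) .nil))))),
 (.br (nat_lit 8) (nat_lit 0) (.cons (.br (nat_lit 13) (nat_lit 0) (.cons (.br (nat_lit 12) (nat_lit 0) (.cons (.ev (nat_lit 81130258598311764260659675923460) (nat_lit 3)) .nil)) (.cons (.br (nat_lit 11) (nat_lit 0) (.cons (.ev (nat_lit 81130258598311764260659675923460) (nat_lit 3)) .nil)) .nil))) (.cons (.rf (nat_lit 488) (nat_lit 14316140924281914432)) (.cons (.ev (nat_lit 158457567048024462247956841472) (nat_lit 3)) (.cons (.br (nat_lit 11) (nat_lit 0) (.cons (.br (nat_lit 12) (nat_lit 0) (.cons (.ev (nat_lit 20361947251175756107713326612736) (nat_lit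 1)) .nil)) (.cons (.ev (nat_lit 79228176699955211721343303936) (nat_lit 2)) (.cons (.br (nat_lit 3) (nat_lit 0) (.cons (.ev (nat_lit 79537652283562391619030417410) (nat_lit 2)) .nil)) .nil)))) .nil))))),
 (.br (nat_lit 3) (nat_lit 0) (.cons (.rf (nat_lit 1714) (nat_lit 493858305440582043680)) (.cons (.br (nat_lit 6) (nat_lit 0) (.cons (.ev (nat_lit 951358200211180902433899413510) (nat_lit 4)) (.cons (.br (nat_lit 12) (nat_lit 0) (.cons (.ev (nat_lit 407080490006692862865397652128270) (nat_lit 5)) .nil)) .nil))) (.cons (.zr (nat_lit 158456329750895158073929827328) (nat_lit 1208962929276658219220997) (nat_lit 5) (nat_lit 0)) (.cons (.br (nat_lit 6) (nat_lit 0) (.cons (.br (nat_lit 12) (nat_lit 0) (.cons (.ev (nat_lit 81130258617200941961762104804352) (nat_lit 3)) .nil)) (.cons (.rf (nat_lit 488) (nat_lit 13164347516457682976)) (.cons (.br (nat_lit 11) (nat_lit 0) (.cons (.ev (nat_lit 20361638979832567604217148080128) (nat_lit 1)) .nil)) .nil)))) .nil))))),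
 (.br (nat_lit 3) (nat_lit 0) (.cons (.rf (nat_lit 1714) (nat_lit 493858305440582043680)) (.cons (.rf (nat_lit 1715) (nat_lit 493858305440582043680)) (.cons (.br (nat_lit 6) (nat_lit 0) (.cons (.ev (nat_lit 79231794032536971382966190337) (nat_lit 2)) (.cons (.br (nat_lit 8) (nat_lit 0) (.cons (.ev (nat_lit 568390266845108547239808720180766) (nat_lit 5)) .nil)) .nil))) (.cons (.br (nat_lit 8) (nat_lit 0) (.cons (.br (nat_lit 12) (nat_lit 0) (.cons (.ev (nat_lit 20361638975110273178941540794625) (nat_lit 1)) .nil)) (.cons (.zr (nat_lit 158456325065422163334507004418) (nat_lit 309485009893403766569500672) (nat_lit 5) (nat_lit 2)) (.cons (.ev (nat_lit 20282410817299928579044420878593) (nat_lit 1)) .nil)))) .nil))))),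
 (.br (nat_lit 3) (nat_lit 0) (.cons (.rf (nat_lit 1714) (nat_lit 493858305440582043680)) (.cons (.zr (nat_lit 158456329750895158073929827328) (nat_lit 1208962929276658219220997) (nat_lit 5) (nat_lit 0)) (.cons (.rf (nat_lit 1716) (nat_lit 493858305440582043680)) (.cons (.br (nat_lit 6) (nat_lit 0) (.cons (.ev (nat_lit 79231794032536971382966190337) (nat_lit 2)) (.cons (.ev (nat_lit 80156622266167476221995319810) (nat_lit 2)) (.cons (.ev (nat_lit 20282409603651670425051074723841) (nat_lit 1)) .nil)))) .nil))))),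
 (.br (nat_lit 3) (nat_lit 0) (.cons (.rf (nat_lit 1714) (nat_lit 493858305440582043680)) (.cons (.rf (nat_lit 1715) (nat_lit 493858305440582043680)) (.cons (.rf (nat_lit 1716) (nat_lit 493858305440582043680)) (.cons (.rf (nat_lit 1717) (nat_lit 493858305440582043680)) (.cons (.br (nat_lit 3) (nat_lit 0) (.cons (.rf (nat_lit 1714) (nat_lit 493858305440582043680)) (.cons (.rf (nat_lit 1715) (nat_lit 493858305440582043680)) (.cons (.rf (nat_lit 1716) (nat_lit 493858305440582043680)) (.cons (.rf (nat_lit 1717) (nat_lit 493858305440582043680)) .nil))))) .nil)))))),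
 (.br (nat_lit 3) (nat_lit 0) (.cons (.rf (nat_lit 1718) (nat_lit 493858305440582043680)) (.cons (.br (nat_lit 13) (nat_lit 0) (.cons (.br (nat_lit 12) (nat_lit 0) (.cons (.ev (nat_lit 40565128692331825110927202779395) (nat_lit 2)) .nil)) (.cons (.br (nat_lit 4) (nat_lit 0) (.cons (.ev (nat_lit 40565128692331825110927202779395) (nat_lit 2)) .nil)) .nil))) (.cons (.br (nat_lit 13) (nat_lit 0) (.cons (.br (nat_lit 11) (nat_lit 0) (.cons (.ev (nat_lit 20282720297605830186416704847873) (nat_lit 1)) .nil)) (.cons (.br (nat_lit 4) (nat_lit 0) (.cons (.ev (nat_lit 20282720297605830186416704847873) (nat_lit 1)) .nil)) .nil))) (.cons (.br (nat_lit 4) (nat_lit 0) (.cons (.br (nat_lit 12) (nat_lit 0) (.cons (.ev (nat_lit 81130258617200941961762104803332) (nat_lit 3)) .nil)) (.cons (.br (nat_lit 11) (nat_lit 0) (.cons (.ev (nat_lit 82241309811978526428197472570382) (nat_lit 4)) .nil)) (.cons (.ev (nat_lit 20282410812577490038580737802496) (nat_lit 1)) .nil)))) .nil))))),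
 (.br (nat_lit 12) (nat_lit 0) (.cons (.ev (nat_lit 20361947251175756107713326612736) (nat_lit 1)) .nil)),
 (.br (nat_lit 3) (nat_lit 0) (.cons (.rf (nat_lit 1718) (nat_lit 493858305440582043680)) (.cons (.rf (nat_lit 1719) (nat_lit 493858305440582043680)) (.cons (.br (nat_lit 13) (nat_lit 0) (.cons (.ev (nat_lit 475989168198220970144563593730) (nat_lit 3)) (.cons (.br (nat_lit 4) (nat_lit 0) (.cons (.ev (nat_lit 475989168198220970144563593730) (nat_lit 3)) .nil)) .nil))) (.cons (.br (nat_lit 4) (nat_lit 0) (.cons (.rf (nat_lit 1720) (nat_lit 493858305440582043680)) (.cons (.zr (nat_lit 159075295048171365341767729664) (nat_lit 3626777747075363187458053) (nat_lit 5) (nat_lit 0)) (.cons (.br (nat_lit 8) (nat_lit 0) (.cons (.ev (nat_lit 407083584800307290101763752463384) (nat_lit 5)) .nil)) .nil)))) .nil))))),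
 (.br (nat_lit 3) (nat_lit 0) (.cons (.rf (nat_lit 1718) (nat_lit 493858305440582043680)) (.cons (.rf (nat_lit 1719) (nat_lit 493858305440582043680)) (.cons (.rf (nat_lit 1721) (nat_lit 493858305440582043680)) (.cons (.br (nat_lit 4) (nat_lit 0) (.cons (.br (nat_lit 11) (nat_lit 0) (.cons (.ev (nat_lit 79537657005856816894637506816) (nat_lit 2)) .nil)) (.cons (.ev (nat_lit 80156622266167476221995319810) (nat_lit 2)) (.cons (.br (nat_lit 8) (nat_lit 0) (.cons (.ev (nat_lit 20361638975110273178941540794625) (nat_lit 1)) .nil)) .nil)))) .nil))))),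
 (.br (nat_lit 3) (nat_lit 0) (.cons (.rf (nat_lit 1718) (nat_lit 493858305440582043680)) (.cons (.rf (nat_lit 1719) (nat_lit 493858305440582043680)) (.cons (.rf (nat_lit 1721) (nat_lit 493858305440582043680)) (.cons (.rf (nat_lit 1722) (nat_lit 493858305440582043680)) (.cons (.br (nat_lit 3) (nat_lit 0) (.cons (.rf (nat_lit 1718) (nat_lit 493858305440582043680)) (.cons (.rf (nat_lit 1719) (nat_lit 493858305440582043680)) (.cons (.rf (nat_lit 1721) (nat_lit 493858305440582043680)) (.cons (.rf (nat_lit 1722) (nat_lit 493858305440582043680)) .nil))))) .nil)))))),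
 (.br (nat_lit 12) (nat_lit 0) (.cons (.ev (nat_lit 79228162514264620168032354304) (nat_lit 1)) (.cons (.ev (nat_lit 79229371458530977775716663296) (nat_lit 1)) (.cons (.ev (nat_lit 79540065412618963026597445632) (nat_lit 2)) .nil))))]

theorem c62 : chkAll C T R L62 (nat_lit 1698) = true := by decide +kernel

theorem l62 : (nat_lit 1698) + L62.length = (nat_lit 1725) := by decide +kernel

/-- part of the certificates -/
def L63 : List Prf := [(.br (nat_lit 3) (nat_lit 0) (.cons (.rf (nat_lit 1718) (nat_lit 493858305440582043680)) (.cons (.rf (nat_lit 1723) (nat_lit 493858305440582043680)) (.cons (.br (nat_lit 13) (nat_lit 0) (.cons (.br (nat_lit 6) (nat_lit 0) (.cons (.ev (nat_lit 20282719088680010570688018579456) (nat_lit 1)) .nil)) (.cons (.br (nat_lit 4) (nat_lit 0) (.cons (.ev (nat_lit 20282719088680010570688018579456) (nat_lit 1)) .nil)) .nil))) (.cons (.br (nat_lit 4) (nat_lit 0) (.cons (.rf (nat_lit 1724) (nat_lit 493858305440582043680)) (.cons (.br (nat_lit 6) (nat_lit 0) (.cons (.ev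 (nat_lit 80156631711044557149361537794) (nat_lit 2)) .nil)) (.cons (.br (nat_lit 6) (nat_lit 0) (.cons (.ev (nat_lit 79847132589463996792324620545) (nat_lit 2)) .nil)) .nil)))) .nil))))),
 (.br (nat_lit 3) (nat_lit 0) (.cons (.zr (nat_lit 158456329750895158073929827328) (nat_lit 1208962929276658219220997) (nat_lit 5) (nat_lit 0)) (.cons (.rf (nat_lit 1723) (nat_lit 493858305440582043680)) (.cons (.rf (nat_lit 1725) (nat_lit 493858305440582043680)) (.cons (.br (nat_lit 4) (nat_lit 0) (.cons (.rf (nat_lit 1720) (nat_lit 492741410536118387776)) (.cons (.br (nat_lit 6) (nat_lit 0) (.cons (.ev (nat_lit 20361947255898194648177009754368) (nat_lit 1)) .nil)) (.cons (.br (nat_lit 6) (nat_lit 0) (.cons (.ev (nat_lit 20282719088680010570688018579456) (nat_lit 1)) .nil)) .nil)))) .nil))))),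
 (.br (nat_lit 3) (nat_lit 0) (.cons (.rf (nat_lit 1718) (nat_lit 493858305440582043680)) (.cons (.rf (nat_lit 1723) (nat_lit 493858305440582043680)) (.cons (.rf (nat_lit 1725) (nat_lit 493858305440582043680)) (.cons (.rf (nat_lit 1726) (nat_lit 493858305440582043680)) (.cons (.br (nat_lit 3) (nat_lit 0) (.cons (.rf (nat_lit 1718) (nat_lit 493858305440582043680)) (.cons (.rf (nat_lit 1723) (nat_lit 493858305440582043680)) (.cons (.rf (nat_lit 1725) (nat_lit 493858305440582043680)) (.cons (.rf (nat_lit 1726) (nat_lit 493858305440582043680)) .nil))))) .nil)))))),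
 (.br (nat_lit 3) (nat_lit 0) (.cons (.rf (nat_lit 1718) (nat_lit 493858305440582043680)) (.cons (.rf (nat_lit 1723) (nat_lit 493858305440582043680)) (.cons (.rf (nat_lit 1727) (nat_lit 493858305440582043680)) (.cons (.br (nat_lit 4) (nat_lit 0) (.cons (.br (nat_lit 8) (nat_lit 0) (.cons (.ev (nat_lit 81131496547869713702554758938628) (nat_lit 3)) .nil)) (.cons (.br (nat_lit 6) (nat_lit 0) (.cons (.ev (nat_lit 243551086631207574849717650981902) (nat_lit 4)) .nil)) (.cons (.ev (nat_lit 20361948464824014261706672898305) (nat_lit 1)) .nil)))) .nil))))),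
 (.br (nat_lit 3) (nat_lit 0) (.cons (.rf (nat_lit 1718) (nat_lit 493858305440582043680)) (.cons (.rf (nat_lit 1723) (nat_lit 493858305440582043680)) (.cons (.rf (nat_lit 1727) (nat_lit 493858305440582043680)) (.cons (.rf (nat_lit 1728) (nat_lit 493858305440582043680)) (.cons (.br (nat_lit 3) (nat_lit 0) (.cons (.rf (nat_lit 1718) (nat_lit 493858305440582043680)) (.cons (.rf (nat_lit 1723) (nat_lit 493858305440582043680)) (.cons (.rf (nat_lit 1727) (nat_lit 493858305440582043680)) (.cons (.rf (nat_lit 1728) (nat_lit 493858305440582043680)) .nil))))) .nil)))))),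
 (.br (nat_lit 3) (nat_lit 0) (.cons (.rf (nat_lit 1718) (nat_lit 493858305440582043680)) (.cons (.rf (nat_lit 1723) (nat_lit 493858305440582043680)) (.cons (.rf (nat_lit 1727) (nat_lit 493858305440582043680)) (.cons (.rf (nat_lit 1729) (nat_lit 493858305440582043680)) (.cons (.br (nat_lit 3) (nat_lit 0) (.cons (.rf (nat_lit 1718) (nat_lit 493858305440582043680)) (.cons (.rf (nat_lit 1723) (nat_lit 493858305440582043680)) (.cons (.rf (nat_lit 1727) (nat_lit 493858305440582043680)) (.cons (.rf (nat_lit 1729) (nat_lit 493858305440582043680)) .nil))))) .nil)))))),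
 (.br (nat_lit 2) (nat_lit 0) (.cons (.rf (nat_lit 1530) (nat_lit 493858305440582042688)) (.cons (.rf (nat_lit 1603) (nat_lit 493858305440582042688)) (.cons (.rf (nat_lit 1684) (nat_lit 493858305440582042688)) (.cons (.br (nat_lit 3) (nat_lit 0) (.cons (.rf (nat_lit 1707) (nat_lit 493858305440582043680)) (.cons (.rf (nat_lit 1710) (nat_lit 493858305440582043680)) (.cons (.rf (nat_lit 1712) (nat_lit 493858305440582043680)) (.cons (.rf (nat_lit 1713) (nat_lit 493858305440582043680)) (.cons (.br (nat_lit 3) (nat_lit 0) (.cons (.rf (nat_lit 1707) (nat_lit 493858305440582043680)) (.cons (.rf (nat_lit 1710) (nat_lit 493858305440582043680)) (.cons (.rf (nat_lit 1712) (nat_lit 493858305440582043680)) (.cons (.rf (nat_lit 1713) (nat_lit 493858305440582043680)) .nil))))) .nil)))))) (.cons (.br (nat_lit 3) (nat_lit 0) (.cons (.rf (nat_lit 1718) (nat_lit 493858305440582043680)) (.cons (.rf (nat_lit 1723) (nat_lit 493858305440582043680)) (.cons (.rf (nat_lit 1727) (nat_lit 493858305440582043680)) (.cons (.rf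 (nat_lit 1729) (nat_lit 493858305440582043680)) (.cons (.rf (nat_lit 1730) (nat_lit 493858305440582043680)) (.cons (.br (nat_lit 3) (nat_lit 0) (.cons (.rf (nat_lit 1718) (nat_lit 493858305440582043680)) (.cons (.rf (nat_lit 1723) (nat_lit 493858305440582043680)) (.cons (.rf (nat_lit 1727) (nat_lit 493858305440582043680)) (.cons (.rf (nat_lit 1729) (nat_lit 493858305440582043680)) (.cons (.rf (nat_lit 1730) (nat_lit 493858305440582043680)) .nil)))))) .nil))))))) (.cons (.rf (nat_lit 1684) (nat_lit 235600370082169062464)) .nil))))))),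
 (.br (nat_lit 8) (nat_lit 0) (.cons (.ev (nat_lit 79537652246452447011202465793) (nat_lit 1)) (.cons (.br (nat_lit 8) (nat_lit 0) (.cons (.ev (nat_lit 79537652246452447011202465793) (nat_lit 1)) .nil)) .nil))),
 (.br (nat_lit 3) (nat_lit 0) (.cons (.rf (nat_lit 1732) (nat_lit 309390870201044666400)) (.cons (.ev (nat_lit 79537647524158021735595180288) (nat_lit 1)) (.cons (.rf (nat_lit 1732) (nat_lit 493858305440582043680)) .nil)))),
 (.br (nat_lit 13) (nat_lit 0) (.cons (.ev (nat_lit 79537652246452447011202400513) (nat_lit 1)) (.cons (.br (nat_lit 6) (nat_lit 0) (.cons (.ev (nat_lit 79537652246452447011202400513) (nat_lit 1)) .nil)) .nil))),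
 (.br (nat_lit 8) (nat_lit 0) (.cons (.br (nat_lit 12) (nat_lit 0) (.cons (.ev (nat_lit 79537647524158021735595114496) (nat_lit 1)) .nil)) (.cons (.br (nat_lit 6) (nat_lit 0) (.cons (.ev (nat_lit 79537647524158021735595114496) (nat_lit 1)) .nil)) (.cons (.ev (nat_lit 20282719088680010570688018579713) (nat_lit 1)) .nil)))),
 (.br (nat_lit 3) (nat_lit 0) (.cons (.ev (nat_lit 79537647524158021735595180288) (nat_lit 1)) (.cons (.rf (nat_lit 1734) (nat_lit 493858305440582043680)) (.cons (.rf (nat_lit 1734) (nat_lit 309390870201044666400)) .nil)))),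
 (.br (nat_lit 3) (nat_lit 0) (.cons (.rf (nat_lit 1733) (nat_lit 493858305440582043680)) (.cons (.br (nat_lit 3) (nat_lit 0) (.cons (.rf (nat_lit 1733) (nat_lit 493858305440582043680)) (.cons (.rf (nat_lit 1736) (nat_lit 493858305440582043680)) (.cons (.rf (nat_lit 1735) (nat_lit 493858305440582043680)) .nil)))) (.cons (.rf (nat_lit 1736) (nat_lit 493858305440582043680)) (.cons (.br (nat_lit 3) (nat_lit 0) (.cons (.rf (nat_lit 1733) (nat_lit 493858305440582043680)) (.cons (.rf (nat_lit 1735) (nat_lit 493858305440582043680)) (.cons (.rf (nat_lit 1736) (nat_lit 493858305440582043680)) .nil)))) .nil))))),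
 (.br (nat_lit 3) (nat_lit 0) (.cons (.rf (nat_lit 1733) (nat_lit 493858305440582043680)) (.cons (.br (nat_lit 13) (nat_lit 0) (.cons (.br (nat_lit 8) (nat_lit 0) (.cons (.ev (nat_lit 121853534130680239608860432924672) (nat_lit 3)) .nil)) (.cons (.br (nat_lit 4) (nat_lit 0) (.cons (.ev (nat_lit 121853534130680239608860432924672) (nat_lit 3)) .nil)) .nil))) (.cons (.br (nat_lit 4) (nat_lit 0) (.cons (.br (nat_lit 12) (nat_lit 0) (.cons (.ev (nat_lit 79228167255149904709719949568) (nat_lit 1)) .nil)) (.cons (.br (nat_lit 8) (nat_lit 0) (.cons (.ev (nat_lit 20520094105417120134773598060800) (nat_lit 2)) .nil)) (.cons (.br (nat_lit 8) (nat_lit 0) (.cons (.ev (nat_lit 121853534149569993770715165492228) (nat_lit 3)) .nil)) .nil)))) .nil)))),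
 (.br (nat_lit 3) (nat_lit 0) (.cons (.ev (nat_lit 79538861172272062739888800000) (nat_lit 1)) (.cons (.rf (nat_lit 1738) (nat_lit 493858305440582043680)) (.cons (.br (nat_lit 8) (nat_lit 0) (.cons (.br (nat_lit 8) (nat_lit 0) (.cons (.ev (nat_lit 79228167255149904709719949568) (nat_lit 1)) .nil)) (.cons (.br (nat_lit 4) (nat_lit 0) (.cons (.ev (nat_lit 79228167255149904709719949568) (nat_lit 1)) .nil)) .nil))) .nil)))),
 (.br (nat_lit 3) (nat_lit 0) (.cons (.rf (nat_lit 1733) (nat_lit 493858305440582043680)) (.cons (.rf (nat_lit 1738) (nat_lit 493858305440582043680)) (.cons (.rf (nat_lit 1739) (nat_lit 493858305440582043680)) (.cons (.br (nat_lit 3) (nat_lit 0) (.cons (.rf (nat_lit 1733) (nat_lit 493858305440582043680)) (.cons (.rf (nat_lit 1738) (nat_lit 493858305440582043680)) (.cons (.rf (nat_lit 1739) (nat_lit 493858305440582043680)) .nil)))) .nil))))),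
 (.br (nat_lit 3) (nat_lit 0) (.cons (.rf (nat_lit 1736) (nat_lit 493858305440582043680)) (.cons (.rf (nat_lit 1740) (nat_lit 493858305440582043680)) (.cons (.br (nat_lit 4) (nat_lit 0) (.cons (.br (nat_lit 8) (nat_lit 0) (.cons (.ev (nat_lit 20520094105417120134773598126080) (nat_lit 2)) .nil)) (.cons (.br (nat_lit 6) (nat_lit 0) (.cons (.ev (nat_lit 79228167255149904709719949568) (nat_lit 1)) .nil)) (.cons (.br (nat_lit 6) (nat_lit 0) (.cons (.ev (nat_lit 121853534149569993770715165229060) (nat_lit 3)) .nil)) .nil)))) .nil)))),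
 (.br (nat_lit 3) (nat_lit 0) (.cons (.rf (nat_lit 1737) (nat_lit 493858305440582043680)) (.cons (.rf (nat_lit 1740) (nat_lit 493858305440582043680)) (.cons (.rf (nat_lit 1741) (nat_lit 493858305440582043680)) (.cons (.br (nat_lit 3) (nat_lit 0) (.cons (.rf (nat_lit 1737) (nat_lit 493858305440582043680)) (.cons (.rf (nat_lit 1740) (nat_lit 493858305440582043680)) (.cons (.rf (nat_lit 1741) (nat_lit 493858305440582043680)) .nil)))) .nil))))),
 (.br (nat_lit 3) (nat_lit 0) (.cons (.rf (nat_lit 1736) (nat_lit 493858305440582043680)) (.cons (.rf (nat_lit 1740) (nat_lit 493858305440582043680)) (.cons (.rf (nat_lit 1742) (nat_lit 493858305440582043680)) (.cons (.br (nat_lit 3) (nat_lit 0) (.cons (.rf (nat_lit 1736) (nat_lit 493858305440582043680)) (.cons (.rf (nat_lit 1740) (nat_lit 493858305440582043680)) (.cons (.rf (nat_lit 1742) (nat_lit 493858305440582043680)) .nil)))) .nil))))),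
 (.br (nat_lit 2) (nat_lit 0) (.cons (.rf (nat_lit 1530) (nat_lit 493858305440582042688)) (.cons (.rf (nat_lit 1603) (nat_lit 493858305440582042688)) (.cons (.kr (nat_lit 256) (nat_lit 65536) (nat_lit 1) (nat_lit 0)) (.cons (.rf (nat_lit 1731) (nat_lit 493858305440582043680)) (.cons (.br (nat_lit 3) (nat_lit 0) (.cons (.rf (nat_lit 1737) (nat_lit 493858305440582043680)) (.cons (.rf (nat_lit 1740) (nat_lit 493858305440582043680)) (.cons (.rf (nat_lit 1742) (nat_lit 493858305440582043680)) (.cons (.rf (nat_lit 1743) (nat_lit 493858305440582043680)) (.cons (.br (nat_lit 3) (nat_lit 0) (.cons (.rf (nat_lit 1737) (nat_lit 493858305440582043680)) (.cons (.rf (nat_lit 1740) (nat_lit 493858305440582043680)) (.cons (.rf (nat_lit 1742) (nat_lit 493858305440582043680)) (.cons (.rf (nat_lit 1743) (nat_lit 493858305440582043680)) .nil))))) .nil)))))) (.cons (.kr (nat_lit 1213648186097498819920384) (nat_lit 72058693549686784) (nat_lit 1) (nat_lit 0)) .nil))))))),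
 (.br (nat_lit 8) (nat_lit 0) (.cons (.br (nat_lit 12) (nat_lit 0) (.cons (.ev (nat_lit 121695696775671353623810827879940) (nat_lit 3)) .nil)) (.cons (.ev (nat_lit 79229371458530977775699951873) (nat_lit 1)) (.cons (.br (nat_lit 11) (nat_lit 0) (.cons (.ev (nat_lit 310693954087985250897494016) (nat_lit 1)) .nil)) .nil)))),
 (.br (nat_lit 3) (nat_lit 0) (.cons (.rf (nat_lit 1745) (nat_lit 493858305440582043680)) (.cons (.br (nat_lit 8) (nat_lit 0) (.cons (.ev (nat_lit 121695696794561107785665560445440) (nat_lit 3)) .nil)) (.cons (.br (nat_lit 8) (nat_lit 0) (.cons (.ev (nat_lit 122170446808998141221323822728708) (nat_lit 3)) .nil)) .nil)))),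
 (.br (nat_lit 3) (nat_lit 0) (.cons (.ev (nat_lit 79229371458530977775699951873) (nat_lit 1)) (.cons (.br (nat_lit 8) (nat_lit 0) (.cons (.ev (nat_lit 161552455110358916288072650252) (nat_lit 4)) .nil)) (.cons (.rf (nat_lit 1746) (nat_lit 234483477374581179456)) .nil)))),
 (.br (nat_lit 8) (nat_lit 0) (.cons (.rf (nat_lit 1745) (nat_lit 493858305440582043680)) (.cons (.rf (nat_lit 1746) (nat_lit 493858305440582043680)) (.cons (.rf (nat_lit 1747) (nat_lit 493858305440582043680)) (.cons (.br (nat_lit 8) (nat_lit 0) (.cons (.rf (nat_lit 1745) (nat_lit 493858305440582043680)) (.cons (.rf (nat_lit 1746) (nat_lit 493858305440582043680)) (.cons (.rf (nat_lit 1747) (nat_lit 493858305440582043680)) .nil)))) .nil))))),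
 (.br (nat_lit 12) (nat_lit 0) (.cons (.br (nat_lit 8) (nat_lit 0) (.cons (.ev (nat_lit 20362566221195471702073062653955) (nat_lit 2)) .nil)) (.cons (.zr (nat_lit 159075295048171366458476462080) (nat_lit 6058870056555643685306378) (nat_lit 10) (nat_lit 0)) (.cons (.ev (nat_lit 40644979451624528067888886710530) (nat_lit 2)) .nil)))),
 (.br (nat_lit 3) (nat_lit 0) (.cons (.rf (nat_lit 1748) (nat_lit 493858305440582043680)) (.cons (.rf (nat_lit 1749) (nat_lit 493858305440582043680)) (.cons (.rf (nat_lit 1749) (nat_lit 234483477374581179456)) (.cons (.rf (nat_lit 1748) (nat_lit 234483477374581179456)) .nil))))),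
 (.br (nat_lit 3) (nat_lit 0) (.cons (.rf (nat_lit 1748) (nat_lit 493858305440582043680)) (.cons (.rf (nat_lit 1750) (nat_lit 493858305440582043680)) (.cons (.br (nat_lit 6) (nat_lit 0) (.cons (.br (nat_lit 8) (nat_lit 0) (.cons (.ev (nat_lit 121854772098980369251224613160448) (nat_lit 3)) .nil)) (.cons (.ev (nat_lit 20520403580926652112398341832960) (nat_lit 2)) .nil))) (.cons (.rf (nat_lit 1748) (nat_lit 234483477374581179456)) .nil)))))]

theorem c63 : chkAll C T R L63 (nat_lit 1725) = true := by decide +kernel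

theorem l63 : (nat_lit 1725) + L63.length = (nat_lit 1752) := by decide +kernel

/-- part of the certificates -/
def L64 : List Prf := [(.br (nat_lit 3) (nat_lit 0) (.cons (.rf (nat_lit 1748) (nat_lit 493858305440582043680)) (.cons (.rf (nat_lit 1750) (nat_lit 493858305440582043680)) (.cons (.rf (nat_lit 1751) (nat_lit 493858305440582043680)) (.cons (.rf (nat_lit 1751) (nat_lit 234483477374581179456)) (.cons (.rf (nat_lit 1748) (nat_lit 234483477374581179456)) .nil)))))),
 (.br (nat_lit 11) (nat_lit 0) (.cons (.ev (nat_lit 20361637770906747988488461746433) (nat_lit 1)) .nil)),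
 (.br (nat_lit 8) (nat_lit 0) (.cons (.ev (nat_lit 202826573168170904239068460745226) (nat_lit 4)) .nil)),
 (.br (nat_lit 3) (nat_lit 0) (.cons (.rf (nat_lit 1752) (nat_lit 493858305440582043680)) (.cons (.br (nat_lit 4) (nat_lit 0) (.cons (.br (nat_lit 12) (nat_lit 0) (.cons (.ev (nat_lit 79228167255149904709719949568) (nat_lit 1)) .nil)) (.cons (.br (nat_lit 8) (nat_lit 0) (.cons (.ev (nat_lit 41040808384946583574905471632388) (nat_lit 3)) .nil)) (.cons (.br (nat_lit 8) (nat_lit 0) (.cons (.ev (nat_lit 2063028421418406219529013304344) (nat_lit 5)) .nil)) .nil)))) (.cons (.br (nat_lit 4) (nat_lit 0) (.cons (.rf (nat_lit 1753) (nat_lit 493858305440582043680)) (.cons (.ev (nat_lit 80156622266167476221995319810) (nat_lit 2)) (.cons (.br (nat_lit 8) (nat_lit 0) (.cons (.ev (nat_lit 121695696775671353623810828142080) (nat_lit 3)) .nil)) .nil)))) (.cons (.br (nat_lit 4) (nat_lit 0) (.cons (.br (nat_lit 11) (nat_lit 0) (.cons (.ev (nat_lit 20522260509912228397970375180800) (nat_lit 3)) .nil)) (.cons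 (.rf (nat_lit 1754) (nat_lit 493858305440582043680)) (.cons (.rf (nat_lit 1754) (nat_lit 234483477374581179456)) .nil)))) .nil))))),
 (.br (nat_lit 8) (nat_lit 0) (.cons (.br (nat_lit 8) (nat_lit 0) (.cons (.ev (nat_lit 79228162532711364246036807681) (nat_lit 1)) .nil)) (.cons (.br (nat_lit 4) (nat_lit 0) (.cons (.ev (nat_lit 79228162532711364246036807681) (nat_lit 1)) .nil)) .nil))),
 (.br (nat_lit 3) (nat_lit 0) (.cons (.rf (nat_lit 1752) (nat_lit 493858305440582043680)) (.cons (.rf (nat_lit 1755) (nat_lit 493858305440582043680)) (.cons (.br (nat_lit 8) (nat_lit 0) (.cons (.br (nat_lit 8) (nat_lit 0) (.cons (.ev (nat_lit 79228167255149904709719949568) (nat_lit 1)) .nil)) (.cons (.br (nat_lit 4) (nat_lit 0) (.cons (.ev (nat_lit 79228167255149904709719949568) (nat_lit 1)) .nil)) .nil))) (.cons (.rf (nat_lit 1756) (nat_lit 493858305440582043680)) .nil))))),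
 (.br (nat_lit 3) (nat_lit 0) (.cons (.rf (nat_lit 1752) (nat_lit 493858305440582043680)) (.cons (.rf (nat_lit 1755) (nat_lit 493858305440582043680)) (.cons (.rf (nat_lit 1757) (nat_lit 493858305440582043680)) (.cons (.br (nat_lit 3) (nat_lit 0) (.cons (.rf (nat_lit 1752) (nat_lit 493858305440582043680)) (.cons (.rf (nat_lit 1755) (nat_lit 493858305440582043680)) (.cons (.rf (nat_lit 1757) (nat_lit 493858305440582043680)) (.cons (.rf (nat_lit 1756) (nat_lit 234483477374581179456)) .nil))))) (.cons (.br (nat_lit 3) (nat_lit 0) (.cons (.rf (nat_lit 1752) (nat_lit 493858305440582043680)) (.cons (.rf (nat_lit 1755) (nat_lit 493858305440582043680)) (.cons (.rf (nat_lit 1756) (nat_lit 493858305440582043680)) (.cons (.rf (nat_lit 1756) (nat_lit 234483477374581179456)) .nil))))) .nil)))))),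
 (.br (nat_lit 8) (nat_lit 0) (.cons (.ev (nat_lit 79537647542604765804992921601) (nat_lit 1)) (.cons (.ev (nat_lit 4740813508418348318976) (nat_lit 1)) (.cons (.ev (nat_lit 40725133656039057442951395540992) (nat_lit 3)) .nil)))),
 (.br (nat_lit 3) (nat_lit 0) (.cons (.rf (nat_lit 1752) (nat_lit 493858305440582043680)) (.cons (.rf (nat_lit 1758) (nat_lit 493858305440582043680)) (.cons (.br (nat_lit 4) (nat_lit 0) (.cons (.rf (nat_lit 1759) (nat_lit 493858305440582043680)) (.cons (.rf (nat_lit 1753) (nat_lit 493678161460855932960)) (.cons (.rf (nat_lit 1759) (nat_lit 234483477374581179456)) .nil)))) (.cons (.rf (nat_lit 1758) (nat_lit 234483477374581179456)) .nil))))),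
 (.br (nat_lit 3) (nat_lit 0) (.cons (.rf (nat_lit 1752) (nat_lit 493858305440582043680)) (.cons (.rf (nat_lit 1758) (nat_lit 493858305440582043680)) (.cons (.rf (nat_lit 1760) (nat_lit 493858305440582043680)) (.cons (.rf (nat_lit 1760) (nat_lit 234483477374581179456)) (.cons (.rf (nat_lit 1758) (nat_lit 234483477374581179456)) .nil)))))),
 (.br (nat_lit 3) (nat_lit 0) (.cons (.rf (nat_lit 1752) (nat_lit 493858305440582043680)) (.cons (.rf (nat_lit 1758) (nat_lit 493858305440582043680)) (.cons (.rf (nat_lit 1761) (nat_lit 493858305440582043680)) (.cons (.br (nat_lit 3) (nat_lit 0) (.cons (.rf (nat_lit 1752) (nat_lit 493858305440582043680)) (.cons (.rf (nat_lit 1758) (nat_lit 493858305440582043680)) (.cons (.rf (nat_lit 1761) (nat_lit 493858305440582043680)) (.cons (.rf (nat_lit 1758) (nat_lit 234483477374581179456)) .nil))))) (.cons (.rf (nat_lit 1758) (nat_lit 234483477374581179456)) .nil)))))),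
 (.br (nat_lit 2) (nat_lit 0) (.cons (.rf (nat_lit 1530) (nat_lit 493858305440582042688)) (.cons (.rf (nat_lit 1603) (nat_lit 493858305440582042688)) (.cons (.rf (nat_lit 1700) (nat_lit 493858305440582043680)) (.cons (.rf (nat_lit 1731) (nat_lit 493858305440582043680)) (.cons (.rf (nat_lit 1744) (nat_lit 493858305440582043680)) (.cons (.br (nat_lit 3) (nat_lit 0) (.cons (.rf (nat_lit 1752) (nat_lit 493858305440582043680)) (.cons (.rf (nat_lit 1758) (nat_lit 493858305440582043680)) (.cons (.rf (nat_lit 1761) (nat_lit 493858305440582043680)) (.cons (.rf (nat_lit 1762) (nat_lit 493858305440582043680)) (.cons (.rf (nat_lit 1762) (nat_lit 234483477374581179456)) (.cons (.rf (nat_lit 1758) (nat_lit 234483477374581179456)) .nil))))))) .nil))))))),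
 (.br (nat_lit 2) (nat_lit 0) (.cons (.rf (nat_lit 1530) (nat_lit 493858305440582042688)) (.cons (.rf (nat_lit 1603) (nat_lit 493858305440582042688)) (.cons (.rf (nat_lit 1700) (nat_lit 493858305440582043680)) (.cons (.rf (nat_lit 1731) (nat_lit 493858305440582043680)) (.cons (.rf (nat_lit 1744) (nat_lit 493858305440582043680)) (.cons (.rf (nat_lit 1763) (nat_lit 493858305440582043680)) (.cons (.br (nat_lit 2) (nat_lit 0) (.cons (.rf (nat_lit 1057) (nat_lit 8242115571188738)) (.cons (.rf (nat_lit 1603) (nat_lit 493858305440582042688)) (.cons (.rf (nat_lit 1700) (nat_lit 493858305440582043680)) (.cons (.rf (nat_lit 1684) (nat_lit 235600370082169062464)) (.cons (.kr (nat_lit 1213648186097498819920384) (nat_lit 72058693549686784) (nat_lit 1) (nat_lit 0)) (.cons (.rf (nat_lit 1763) (nat_lit 493858305440582043680)) .nil))))))) .nil)))))))),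
 (.br (nat_lit 2) (nat_lit 0) (.cons (.rf (nat_lit 1057) (nat_lit 11514399472845826)) (.cons (.rf (nat_lit 1603) (nat_lit 493858305440582042688)) (.cons (.rf (nat_lit 1684) (nat_lit 493858305440582042688)) (.cons (.rf (nat_lit 1764) (nat_lit 493858305440582042688)) (.cons (.rf (nat_lit 1764) (nat_lit 492741412732994159680)) (.cons (.kr (nat_lit 256) (nat_lit 65536) (nat_lit 1) (nat_lit 0)) .nil))))))),
 (.br (nat_lit 3) (nat_lit 0) (.cons (.br (nat_lit 12) (nat_lit 0) (.cons (.br (nat_lit 12) (nat_lit 0) (.cons (.ev (nat_lit 20441794393172987805974166307584) (nat_lit 2)) .nil)) (.cons (.br (nat_lit 11) (nat_lit 0) (.cons (.ev (nat_lit 20441794393172987805974166307584) (nat_lit 2)) .nil)) .nil))) (.cons (.br (nat_lit 12) (nat_lit 0) (.cons (.br (nat_lit 12) (nat_lit 0) (.cons (.ev (nat_lit 20441175413745505636045822296320) (nat_lit 2)) .nil)) (.cons (.br (nat_lit 8) (nat_lit 0) (.cons (.ev (nat_lit 20441175413745505636045822296320) (nat_lit 2)) .nil)) .nil))) (.cons (.br (nat_lit 11) (nat_lit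 0) (.cons (.br (nat_lit 12) (nat_lit 0) (.cons (.zr (nat_lit 311912306193540066381398019) (nat_lit 237684487561239756858636501248) (nat_lit 5) (nat_lit 4)) .nil)) (.cons (.br (nat_lit 8) (nat_lit 0) (.cons (.ev (nat_lit 20361947251175756107713326612736) (nat_lit 1)) .nil)) (.cons (.rf (nat_lit 1667) (nat_lit 493678161460855931968)) .nil)))) (.cons (.ev (nat_lit 20282409608374037754548985004032) (nat_lit 2)) .nil))))),
 (.br (nat_lit 3) (nat_lit 0) (.cons (.rf (nat_lit 1766) (nat_lit 493858305440582043680)) (.cons (.br (nat_lit 12) (nat_lit 0) (.cons (.ev (nat_lit 309499195512219196524134656) (nat_lit 2)) (.cons (.ev (nat_lit 40565128697054119536202759602432) (nat_lit 2)) .nil))) (.cons (.br (nat_lit 12) (nat_lit 0) (.cons (.rf (nat_lit 1669) (nat_lit 309390870201044666400)) (.cons (.br (nat_lit 6) (nat_lit 0) (.cons (.ev (nat_lit 244976574690632051652789871843846) (nat_lit 5)) .nil)) (.cons (.rf (nat_lit 1669) (nat_lit 309387344177984014368)) .nil)))) (.cons (.rf (nat_lit 1766) (nat_lit 235600370082169063456))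 .nil))))),
 (.br (nat_lit 3) (nat_lit 0) (.cons (.rf (nat_lit 1766) (nat_lit 493858305440582043680)) (.cons (.rf (nat_lit 1767) (nat_lit 493858305440582043680)) (.cons (.br (nat_lit 8) (nat_lit 0) (.cons (.rf (nat_lit 1662) (nat_lit 493678161460855931968)) (.cons (.br (nat_lit 6) (nat_lit 0) (.cons (.ev (nat_lit 1593849033451426484049741875742) (nat_lit 5)) .nil)) (.cons (.rf (nat_lit 1662) (nat_lit 235672427674059506752)) .nil)))) (.cons (.rf (nat_lit 1766) (nat_lit 235600370082169063456)) .nil))))),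
 (.br (nat_lit 3) (nat_lit 0) (.cons (.rf (nat_lit 1766) (nat_lit 493858305440582043680)) (.cons (.rf (nat_lit 1767) (nat_lit 493858305440582043680)) (.cons (.rf (nat_lit 1768) (nat_lit 493858305440582043680)) (.cons (.br (nat_lit 3) (nat_lit 0) (.cons (.rf (nat_lit 1766) (nat_lit 493858305440582043680)) (.cons (.rf (nat_lit 1767) (nat_lit 493858305440582043680)) (.cons (.rf (nat_lit 1768) (nat_lit 493858305440582043680)) (.cons (.rf (nat_lit 1766) (nat_lit 235600370082169063456)) .nil))))) (.cons (.rf (nat_lit 1766) (nat_lit 235600370082169063456)) .nil)))))),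
 (.br (nat_lit 3) (nat_lit 0) (.cons (.rf (nat_lit 1769) (nat_lit 493858305440582043680)) (.cons (.br (nat_lit 4) (nat_lit 0) (.cons (.ev (nat_lit 309499195512219196524134656) (nat_lit 2)) (.cons (.zr (nat_lit 40564822838876953713896597749766) (nat_lit 216178296852316672) (nat_lit 20) (nat_lit 3)) .nil))) (.cons (.br (nat_lit 4) (nat_lit 0) (.cons (.br (nat_lit 12) (nat_lit 0) (.cons (.zr (nat_lit 311912306193540066381398019) (nat_lit 237684487561239756858636501248) (nat_lit 5) (nat_lit 4)) .nil)) (.cons (.ev (nat_lit 79228162532711364246036807681) (nat_lit 1)) (.cons (.br (nat_lit 11) (nat_lit 0) (.cons (.ev (nat_lit 284273124223463266067326943625742) (nat_lit 4)) .nil)) .nil)))) (.cons (.br (nat_lit 4) (nat_lit 0) (.cons (.ev (nat_lit 20282409608374037754548985135106) (nat_lit 2)) (.cons (.br (nat_lit 11) (nat_lit 0) (.cons (.zr (nat_lit 309485046714833216143884801) (nat_lit 20282409603651670705426539806720) (nat_lit 5) (nat_lit 2)) .nil)) .nil))) .nil))))),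
 (.br (nat_lit 3) (nat_lit 0) (.cons (.rf (nat_lit 1769) (nat_lit 493858305440582043680)) (.cons (.rf (nat_lit 1770) (nat_lit 493858305440582043680)) (.cons (.br (nat_lit 4) (nat_lit 0) (.cons (.br (nat_lit 12) (nat_lit 0) (.cons (.ev (nat_lit 317532862170560394934769288194) (nat_lit 4)) .nil)) (.cons (.ev (nat_lit 79537652246452447011185688833) (nat_lit 1)) (.cons (.br (nat_lit 8) (nat_lit 0) (.cons (.ev (nat_lit 1593849033451426484049741875742) (nat_lit 5)) .nil)) .nil)))) (.cons (.br (nat_lit 4) (nat_lit 0) (.cons (.ev (nat_lit 20282409608374037754548985135106) (nat_lit 2)) (.cons (.br (nat_lit 8) (nat_lit 0) (.cons (.ev (nat_lit 20759016542425557375544866504708) (nat_lit 3)) .nil)) .nil))) .nil))))),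
 (.br (nat_lit 3) (nat_lit 0) (.cons (.rf (nat_lit 1769) (nat_lit 493858305440582043680)) (.cons (.rf (nat_lit 1770) (nat_lit 493858305440582043680)) (.cons (.rf (nat_lit 1771) (nat_lit 493858305440582043680)) (.cons (.br (nat_lit 4) (nat_lit 0) (.cons (.br (nat_lit 11) (nat_lit 0) (.cons (.ev (nat_lit 79538856449977637464264671488) (nat_lit 1)) .nil)) (.cons (.rf (nat_lit 1672) (nat_lit 309390870201044666400)) (.cons (.ev (nat_lit 20282413230429202169862366953986) (nat_lit 2)) .nil)))) .nil))))),
 (.br (nat_lit 3) (nat_lit 0) (.cons (.rf (nat_lit 1769) (nat_lit 493858305440582043680)) (.cons (.rf (nat_lit 1770) (nat_lit 493858305440582043680)) (.cons (.rf (nat_lit 1771) (nat_lit 493858305440582043680)) (.cons (.rf (nat_lit 1772) (nat_lit 493858305440582043680)) (.cons (.br (nat_lit 3) (nat_lit 0) (.cons (.ev (nat_lit 20282409608374037754548985004032) (nat_lit 2)) (.cons (.rf (nat_lit 1770) (nat_lit 493858305440582043680)) (.cons (.rf (nat_lit 1771) (nat_lit 493858305440582043680)) (.cons (.rf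 (nat_lit 1772) (nat_lit 493858305440582043680)) .nil))))) .nil)))))),
 (.br (nat_lit 12) (nat_lit 0) (.cons (.ev (nat_lit 79537647524158021735578337536) (nat_lit 1)) .nil)),
 (.br (nat_lit 3) (nat_lit 0) (.cons (.rf (nat_lit 1769) (nat_lit 493858305440582043680)) (.cons (.rf (nat_lit 1773) (nat_lit 493858305440582043680)) (.cons (.br (nat_lit 4) (nat_lit 0) (.cons (.rf (nat_lit 1774) (nat_lit 493858305440582043680)) (.cons (.br (nat_lit 6) (nat_lit 0) (.cons (.ev (nat_lit 121694458863892912505625176702980) (nat_lit 3)) .nil)) (.cons (.rf (nat_lit 1774) (nat_lit 235600370082169063456)) .nil)))) (.cons (.rf (nat_lit 1773) (nat_lit 235600370082169063456)) .nil))))),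
 (.br (nat_lit 3) (nat_lit 0) (.cons (.rf (nat_lit 1769) (nat_lit 493858305440582043680)) (.cons (.rf (nat_lit 1773) (nat_lit 493858305440582043680)) (.cons (.rf (nat_lit 1775) (nat_lit 493858305440582043680)) (.cons (.br (nat_lit 3) (nat_lit 0) (.cons (.rf (nat_lit 1769) (nat_lit 493858305440582043680)) (.cons (.rf (nat_lit 1773) (nat_lit 493858305440582043680)) (.cons (.rf (nat_lit 1775) (nat_lit 493858305440582043680)) (.cons (.rf (nat_lit 1773) (nat_lit 235600370082169063456)) .nil))))) (.cons (.rf (nat_lit 1773) (nat_lit 235600370082169063456)) .nil)))))),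
 (.br (nat_lit 3) (nat_lit 0) (.cons (.rf (nat_lit 1769) (nat_lit 493858305440582043680)) (.cons (.rf (nat_lit 1773) (nat_lit 493858305440582043680)) (.cons (.rf (nat_lit 1776) (nat_lit 493858305440582043680)) (.cons (.br (nat_lit 3) (nat_lit 0) (.cons (.rf (nat_lit 1769) (nat_lit 493858305440582043680)) (.cons (.rf (nat_lit 1773) (nat_lit 493858305440582043680)) (.cons (.rf (nat_lit 1776) (nat_lit 493858305440582043680)) (.cons (.rf (nat_lit 1773) (nat_lit 235600370082169063456)) .nil))))) (.cons (.rf (nat_lit 1773) (nat_lit 235600370082169063456)) .nil))))))]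

theorem c64 : chkAll C T R L64 (nat_lit 1752) = true := by decide +kernel

theorem l64 : (nat_lit 1752) + L64.length = (nat_lit 1778) := by decide +kernel

/-- part of the certificates -/
def L65 : List Prf := [(.br (nat_lit 3) (nat_lit 0) (.cons (.rf (nat_lit 1769) (nat_lit 493858305440582043680)) (.cons (.rf (nat_lit 1773) (nat_lit 493858305440582043680)) (.cons (.rf (nat_lit 1776) (nat_lit 493858305440582043680)) (.cons (.rf (nat_lit 1777) (nat_lit 493858305440582043680)) (.cons (.br (nat_lit 3) (nat_lit 0) (.cons (.rf (nat_lit 1769) (nat_lit 493858305440582043680)) (.cons (.rf (nat_lit 1773) (nat_lit 493858305440582043680)) (.cons (.rf (nat_lit 1776) (nat_lit 493858305440582043680)) (.cons (.rf (nat_lit 1777) (nat_lit 493858305440582043680)) (.cons (.rf (nat_lit 1773) (nat_lit 235600370082169063456)) .nil)))))) (.cons (.rf (nat_lit 1773) (nat_lit 235600370082169063456)) .nil))))))),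
 (.br (nat_lit 2) (nat_lit 0) (.cons (.rf (nat_lit 1530) (nat_lit 493858305440582042688)) (.cons (.rf (nat_lit 1603) (nat_lit 493858305440582042688)) (.cons (.rf (nat_lit 1684) (nat_lit 493858305440582042688)) (.cons (.rf (nat_lit 1778) (nat_lit 493858305440582043680)) (.cons (.rf (nat_lit 1778) (nat_lit 492741412732994160672)) (.cons (.rf (nat_lit 1684) (nat_lit 235600370082169062464)) .nil))))))),
 (.br (nat_lit 6) (nat_lit 0) (.cons (.br (nat_lit 12) (nat_lit 0) (.cons (.ev (nat_lit 20361637770906747988488444969216) (nat_lit 1)) .nil)) (.cons (.br (nat_lit 8) (nat_lit 0) (.cons (.ev (nat_lit 79228162532711364246036807936) (nat_lit 1)) .nil)) (.cons (.br (nat_lit 8) (nat_lit 0) (.cons (.ev (nat_lit 122176636575825510413967502347794) (nat_lit 5)) .nil)) .nil)))),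
 (.br (nat_lit 3) (nat_lit 0) (.cons (.rf (nat_lit 1780) (nat_lit 493858305440582043680)) (.cons (.br (nat_lit 8) (nat_lit 0) (.cons (.ev (nat_lit 20282409608374037754548985135616) (nat_lit 2)) .nil)) (.cons (.br (nat_lit 8) (nat_lit 0) (.cons (.ev (nat_lit 121854772080090615089369880592900) (nat_lit 3)) .nil)) .nil)))),
 (.br (nat_lit 8) (nat_lit 0) (.cons (.rf (nat_lit 1780) (nat_lit 493858305440582043680)) (.cons (.rf (nat_lit 1781) (nat_lit 493858305440582043680)) (.cons (.br (nat_lit 8) (nat_lit 0) (.cons (.rf (nat_lit 1780) (nat_lit 493858305440582043680)) (.cons (.rf (nat_lit 1781) (nat_lit 493858305440582043680)) (.cons (.rf (nat_lit 1781) (nat_lit 235600370082169063456)) .nil)))) (.cons (.rf (nat_lit 1781) (nat_lit 235600370082169063456)) .nil))))),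
 (.br (nat_lit 3) (nat_lit 0) (.cons (.rf (nat_lit 1782) (nat_lit 493858305440582043680)) (.cons (.br (nat_lit 4) (nat_lit 0) (.cons (.br (nat_lit 12) (nat_lit 0) (.cons (.ev (nat_lit 20282719088680010570688018514176) (nat_lit 1)) .nil)) (.cons (.br (nat_lit 8) (nat_lit 0) (.cons (.ev (nat_lit 122650148640852168369116417755154) (nat_lit 5)) .nil)) (.cons (.br (nat_lit 8) (nat_lit 0) (.cons (.ev (nat_lit 121854772070646026238818665890820) (nat_lit 3)) .nil)) .nil)))) (.cons (.br (nat_lit 4) (nat_lit 0) (.cons (.br (nat_lit 8) (nat_lit 0) (.cons (.ev (nat_lit 477227117756170403243587143168) (nat_lit 3)) .nil)) (.cons (.zr (nat_lit 1208926179904798387602435) (nat_lit 20361947260620489353832377417728) (nat_lit 10) (nat_lit 6)) .nil))) (.cons (.rf (nat_lit 1756) (nat_lit 420143386739781765152)) .nil))))),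
 (.br (nat_lit 8) (nat_lit 0) (.cons (.ev (nat_lit 20282413235151496595137974436610) (nat_lit 2)) .nil)),
 (.br (nat_lit 3) (nat_lit 0) (.cons (.rf (nat_lit 1782) (nat_lit 493858305440582043680)) (.cons (.rf (nat_lit 1783) (nat_lit 493858305440582043680)) (.cons (.br (nat_lit 4) (nat_lit 0) (.cons (.rf (nat_lit 1784) (nat_lit 493858305440582043680)) (.cons (.br (nat_lit 6) (nat_lit 0) (.cons (.ev (nat_lit 477227117756170403243587143168) (nat_lit 3)) .nil)) (.cons (.rf (nat_lit 1784) (nat_lit 235600370082169063456)) .nil)))) (.cons (.rf (nat_lit 1783) (nat_lit 235600370082169063456)) .nil))))),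
 (.br (nat_lit 3) (nat_lit 0) (.cons (.rf (nat_lit 1782) (nat_lit 493858305440582043680)) (.cons (.rf (nat_lit 1783) (nat_lit 493858305440582043680)) (.cons (.rf (nat_lit 1785) (nat_lit 493858305440582043680)) (.cons (.br (nat_lit 3) (nat_lit 0) (.cons (.rf (nat_lit 1782) (nat_lit 493858305440582043680)) (.cons (.rf (nat_lit 1783) (nat_lit 493858305440582043680)) (.cons (.rf (nat_lit 1785) (nat_lit 493858305440582043680)) (.cons (.rf (nat_lit 1783) (nat_lit 235600370082169063456)) .nil))))) (.cons (.rf (nat_lit 1783) (nat_lit 235600370082169063456)) .nil)))))),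
 (.br (nat_lit 3) (nat_lit 0) (.cons (.rf (nat_lit 1786) (nat_lit 492741412732994160672)) (.cons (.br (nat_lit 8) (nat_lit 0) (.cons (.ev (nat_lit 477227108311581552692372177920) (nat_lit 3)) .nil)) .nil))),
 (.br (nat_lit 3) (nat_lit 0) (.cons (.rf (nat_lit 1787) (nat_lit 493858305440582043680)) (.cons (.rf (nat_lit 1786) (nat_lit 492741412732994160672)) (.cons (.br (nat_lit 3) (nat_lit 0) (.cons (.rf (nat_lit 1787) (nat_lit 493858305440582043680)) (.cons (.ev (nat_lit 20282409608374037754548985135106) (nat_lit 2)) .nil))) .nil)))),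
 (.br (nat_lit 3) (nat_lit 0) (.cons (.rf (nat_lit 1788) (nat_lit 493858305440582043680)) (.cons (.br (nat_lit 3) (nat_lit 0) (.cons (.rf (nat_lit 1788) (nat_lit 493858305440582043680)) (.cons (.rf (nat_lit 1786) (nat_lit 492741412732994160672)) (.cons (.rf (nat_lit 1788) (nat_lit 235600370082169063456)) .nil)))) (.cons (.rf (nat_lit 1786) (nat_lit 492741412732994160672)) (.cons (.rf (nat_lit 1788) (nat_lit 235600370082169063456)) .nil))))),
 (.br (nat_lit 8) (nat_lit 0) (.cons (.br (nat_lit 3) (nat_lit 0) (.cons (.ev (nat_lit 20361637766184453563212837748993) (nat_lit 1)) .nil)) (.cons (.ev (nat_lit 20282719088680010570688018513921) (nat_lit 1)) .nil))),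
 (.br (nat_lit 4) (nat_lit 0) (.cons (.rf (nat_lit 1790) (nat_lit 493858305440582043680)) (.cons (.ev (nat_lit 20282719093402304995963625865473) (nat_lit 1)) .nil))),
 (.br (nat_lit 12) (nat_lit 0) (.cons (.rf (nat_lit 1786) (nat_lit 492741412732994160672)) (.cons (.rf (nat_lit 1789) (nat_lit 492741412732994160672)) (.cons (.br (nat_lit 3) (nat_lit 0) (.cons (.rf (nat_lit 1790) (nat_lit 493858305440582043680)) (.cons (.rf (nat_lit 1791) (nat_lit 493858305440582043680)) (.cons (.br (nat_lit 3) (nat_lit 0) (.cons (.rf (nat_lit 1790) (nat_lit 493858305440582043680)) (.cons (.rf (nat_lit 1791) (nat_lit 493858305440582043680)) .nil))) .nil)))) (.cons (.rf (nat_lit 876) (nat_lit 424570619936)) .nil))))),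
 (.br (nat_lit 2) (nat_lit 0) (.cons (.rf (nat_lit 1530) (nat_lit 493858305440582042688)) (.cons (.rf (nat_lit 1603) (nat_lit 493858305440582042688)) (.cons (.rf (nat_lit 1764) (nat_lit 493858305440582042688)) (.cons (.rf (nat_lit 1779) (nat_lit 493858305440582043680)) (.cons (.br (nat_lit 11) (nat_lit 0) (.cons (.rf (nat_lit 1786) (nat_lit 493858305440582043680)) (.cons (.rf (nat_lit 1789) (nat_lit 493858305440582043680)) (.cons (.rf (nat_lit 1792) (nat_lit 493858305440582043680)) (.cons (.br (nat_lit 12) (nat_lit 0) (.cons (.rf (nat_lit 1786) (nat_lit 492741412732994160672)) (.cons (.rf (nat_lit 1789) (nat_lit 492741412732994160672)) (.cons (.rf (nat_lit 1792) (nat_lit 492741412732994160672)) (.cons (.br (nat_lit 4) (nat_lit 0) (.cons (.br (nat_lit 6) (nat_lit 0) (.cons (.br (nat_lit 3) (nat_lit 0) (.cons (.ev (nat_lit 20282409608374037754548985004032) (nat_lit 2)) .nil)) (.cons (.ev (nat_lit 477227117756170403243586881028) (nat_lit 3)) .nil))) (.cons (.ev (nat_lit 477227117756170403243586880000)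 (nat_lit 3)) (.cons (.ev (nat_lit 81288714923377042315403076175360) (nat_lit 3)) .nil)))) (.cons (.rf (nat_lit 1792) (nat_lit 234483477374581180448)) .nil)))))) (.cons (.kr (nat_lit 309485009821345068724781056) (nat_lit 79228162514264337593543950336) (nat_lit 11) (nat_lit 0)) (.cons (.rf (nat_lit 1792) (nat_lit 235600370082169063456)) .nil))))))) (.cons (.rf (nat_lit 1764) (nat_lit 235600370082169062464)) .nil))))))),
 (.br (nat_lit 1) (nat_lit 0) (.cons (.rf (nat_lit 1057) (nat_lit 11514399472846849)) (.cons (.rf (nat_lit 1603) (nat_lit 493858305440582043680)) (.cons (.rf (nat_lit 1684) (nat_lit 493858305440582043680)) (.cons (.rf (nat_lit 1764) (nat_lit 493858305440582043680)) (.cons (.rf (nat_lit 1764) (nat_lit 492741412732994160672)) (.cons (.br (nat_lit 2) (nat_lit 0) (.cons (.rf (nat_lit 1530) (nat_lit 493858305440582042688)) (.cons (.rf (nat_lit 1603) (nat_lit 493858305440582042688)) (.cons (.rf (nat_lit 1765) (nat_lit 493858305440582043680)) (.cons (.rf (nat_lit 1779) (nat_lit 493858305440582043680))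 (.cons (.rf (nat_lit 1793) (nat_lit 493858305440582043680)) (.cons (.rf (nat_lit 1793) (nat_lit 492741412732994160672)) (.cons (.rf (nat_lit 1765) (nat_lit 235600370082169063456)) .nil)))))))) .nil))))))),
 (.br (nat_lit 6) (nat_lit 0) (.cons (.rf (nat_lit 893) (nat_lit 7362511734579496992)) (.cons (.rf (nat_lit 893) (nat_lit 7327608837467374656)) (.cons (.br (nat_lit 3) (nat_lit 0) (.cons (.ev (nat_lit 4722366764348933669121) (nat_lit 1)) (.cons (.ev (nat_lit 4722366764348933734401) (nat_lit 1)) (.cons (.ev (nat_lit 40564820430396766008655543795712) (nat_lit 3)) .nil)))) .nil)))),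
 (.br (nat_lit 5) (nat_lit 0) (.cons (.rf (nat_lit 1617) (nat_lit 291550101866528)) .nil)),
 (.br (nat_lit 3) (nat_lit 0) (.cons (.rf (nat_lit 1795) (nat_lit 493858305440582043680)) (.cons (.rf (nat_lit 1796) (nat_lit 13580892211232)) (.cons (.rf (nat_lit 1795) (nat_lit 235600370082169063456)) .nil)))),
 (.br (nat_lit 3) (nat_lit 0) (.cons (.rf (nat_lit 1795) (nat_lit 493858305440582043680)) (.cons (.rf (nat_lit 1797) (nat_lit 493858305440582043680)) (.cons (.rf (nat_lit 1797) (nat_lit 492741412732994159680)) (.cons (.rf (nat_lit 1795) (nat_lit 235600370082169063456)) .nil))))),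
 (.br (nat_lit 3) (nat_lit 0) (.cons (.rf (nat_lit 1798) (nat_lit 493858305440582043680)) (.cons (.rf (nat_lit 1688) (nat_lit 7362511631500281888)) (.cons (.br (nat_lit 4) (nat_lit 0) (.cons (.rf (nat_lit 1685) (nat_lit 493858303243706271776)) (.cons (.br (nat_lit 6) (nat_lit 0) (.cons (.ev (nat_lit 40644356859586758559176480260352) (nat_lit 2)) .nil)) (.cons (.rf (nat_lit 1685) (nat_lit 235600375574358493216)) .nil)))) .nil)))),
 (.br (nat_lit 3) (nat_lit 0) (.cons (.rf (nat_lit 1798) (nat_lit 493858305440582043680)) (.cons (.rf (nat_lit 1799) (nat_lit 493858305440582043680)) (.cons (.rf (nat_lit 1799) (nat_lit 492741412732994159680)) (.cons (.br (nat_lit 3) (nat_lit 0) (.cons (.rf (nat_lit 1798) (nat_lit 493858305440582043680)) (.cons (.rf (nat_lit 1799) (nat_lit 493858305440582043680)) (.cons (.rf (nat_lit 1799) (nat_lit 492741412732994159680)) .nil)))) .nil))))),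
 (.br (nat_lit 3) (nat_lit 0) (.cons (.rf (nat_lit 1798) (nat_lit 493858305440582043680)) (.cons (.rf (nat_lit 1800) (nat_lit 493858305440582043680)) (.cons (.br (nat_lit 3) (nat_lit 0) (.cons (.rf (nat_lit 1796) (nat_lit 13580892211232)) (.cons (.rf (nat_lit 1688) (nat_lit 7362511631500281888)) (.cons (.rf (nat_lit 1688) (nat_lit 15433072011697555488)) .nil)))) (.cons (.rf (nat_lit 1800) (nat_lit 235600370082169063456)) .nil))))),
 (.br (nat_lit 2) (nat_lit 0) (.cons (.rf (nat_lit 1530) (nat_lit 493858305440582042688)) (.cons (.rf (nat_lit 1603) (nat_lit 493858305440582042688)) (.cons (.rf (nat_lit 1794) (nat_lit 493858305440582042688)) (.cons (.kr (nat_lit 256) (nat_lit 65536) (nat_lit 1) (nat_lit 0)) (.cons (.br (nat_lit 3) (nat_lit 0) (.cons (.rf (nat_lit 1798) (nat_lit 493858305440582043680)) (.cons (.rf (nat_lit 1800) (nat_lit 493858305440582043680)) (.cons (.rf (nat_lit 1801) (nat_lit 493858305440582043680)) (.cons (.rf (nat_lit 1801) (nat_lit 492741412732994159680)) (.cons (.rf (nat_lit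 1800) (nat_lit 235600370082169063456)) .nil)))))) (.cons (.rf (nat_lit 1794) (nat_lit 235600370082169062464)) .nil))))))),
 (.br (nat_lit 3) (nat_lit 0) (.cons (.br (nat_lit 13) (nat_lit 0) (.cons (.br (nat_lit 12) (nat_lit 0) (.cons (.ev (nat_lit 158457538713681449842110628352) (nat_lit 3)) .nil)) (.cons (.br (nat_lit 6) (nat_lit 0) (.cons (.ev (nat_lit 158457538713681449842110628352) (nat_lit 3)) .nil)) .nil))) (.cons (.br (nat_lit 13) (nat_lit 0) (.cons (.br (nat_lit 8) (nat_lit 0) (.cons (.ev (nat_lit 158457538713681449842110758912) (nat_lit 3)) .nil)) (.cons (.br (nat_lit 6) (nat_lit 0) (.cons (.ev (nat_lit 158457538713681449842110758912) (nat_lit 3)) .nil)) .nil))) (.cons (.br (nat_lit 6) (nat_lit 0) (.cons (.br (nat_lit 12) (nat_lit 0) (.cons (.ev (nat_lit 20282409608374037754548985200896) (nat_lit 2)) .nil)) (.cons (.br (nat_lit 8) (nat_lit 0) (.cons (.ev (nat_lit 20282409608374037754548985070336) (nat_lit 2)) .nil)) (.cons (.ev (nat_lit 40564820430396766008655543795712) (nat_lit 3))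 .nil)))) .nil)))),
 (.br (nat_lit 3) (nat_lit 0) (.cons (.rf (nat_lit 1803) (nat_lit 493858305440582043680)) (.cons (.rf (nat_lit 1796) (nat_lit 13481034221600)) (.cons (.rf (nat_lit 1803) (nat_lit 235600370082169063456)) .nil)))),
 (.br (nat_lit 3) (nat_lit 0) (.cons (.rf (nat_lit 1803) (nat_lit 493858305440582043680)) (.cons (.rf (nat_lit 1804) (nat_lit 493858305440582043680)) (.cons (.br (nat_lit 3) (nat_lit 0) (.cons (.rf (nat_lit 1803) (nat_lit 493858305440582043680)) (.cons (.rf (nat_lit 1796) (nat_lit 13481034221600)) (.cons (.rf (nat_lit 1803) (nat_lit 235600370082169063456)) .nil)))) (.cons (.rf (nat_lit 1803) (nat_lit 235600370082169063456)) .nil))))),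
 (.br (nat_lit 12) (nat_lit 0) (.cons (.ev (nat_lit 79229371458530977775699886336) (nat_lit 1)) .nil)),
 (.br (nat_lit 3) (nat_lit 0) (.cons (.rf (nat_lit 1805) (nat_lit 493858305440582043680)) (.cons (.br (nat_lit 13) (nat_lit 0) (.cons (.br (nat_lit 6) (nat_lit 0) (.cons (.ev (nat_lit 20361637766184453563212837683456) (nat_lit 1)) .nil)) (.cons (.br (nat_lit 4) (nat_lit 0) (.cons (.ev (nat_lit 20361637766184453563212837683456) (nat_lit 1)) .nil)) .nil))) (.cons (.br (nat_lit 4) (nat_lit 0) (.cons (.rf (nat_lit 1806) (nat_lit 493858305440582043680)) (.cons (.br (nat_lit 6) (nat_lit 0) (.cons (.ev (nat_lit 20520094105417120134773598060800) (nat_lit 2)) .nil)) (.cons (.rf (nat_lit 1806) (nat_lit 235600370082169063456)) .nil)))) .nil))))]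

theorem c65 : chkAll C T R L65 (nat_lit 1778) = true := by decide +kernel

theorem l65 : (nat_lit 1778) + L65.length = (nat_lit 1808) := by decide +kernel

/-- part of the certificates -/
def L66 : List Prf := [(.br (nat_lit 8) (nat_lit 0) (.cons (.ev (nat_lit 79228167255149904709719949568) (nat_lit 1)) .nil)),
 (.br (nat_lit 3) (nat_lit 0) (.cons (.rf (nat_lit 1805) (nat_lit 493858305440582043680)) (.cons (.rf (nat_lit 1807) (nat_lit 493858305440582043680)) (.cons (.br (nat_lit 4) (nat_lit 0) (.cons (.rf (nat_lit 1808) (nat_lit 493858305440582043680)) (.cons (.br (nat_lit 6) (nat_lit 0) (.cons (.ev (nat_lit 20520094105417120134773598126080) (nat_lit 2)) .nil)) (.cons (.rf (nat_lit 1808) (nat_lit 235600370082169063456)) .nil)))) .nil)))),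
 (.br (nat_lit 3) (nat_lit 0) (.cons (.rf (nat_lit 1805) (nat_lit 493858305440582043680)) (.cons (.rf (nat_lit 1807) (nat_lit 493858305440582043680)) (.cons (.rf (nat_lit 1809) (nat_lit 493858305440582043680)) (.cons (.br (nat_lit 3) (nat_lit 0) (.cons (.rf (nat_lit 1805) (nat_lit 493858305440582043680)) (.cons (.rf (nat_lit 1807) (nat_lit 493858305440582043680)) (.cons (.rf (nat_lit 1809) (nat_lit 493858305440582043680)) .nil)))) .nil))))),
 (.br (nat_lit 3) (nat_lit 0) (.cons (.rf (nat_lit 1805) (nat_lit 493858305440582043680)) (.cons (.rf (nat_lit 1810) (nat_lit 493858305440582043680)) (.cons (.br (nat_lit 3) (nat_lit 0) (.cons (.rf (nat_lit 1796) (nat_lit 13481034221600)) (.cons (.rf (nat_lit 1810) (nat_lit 493858305440582043680)) (.cons (.rf (nat_lit 1810) (nat_lit 235600370082169063456)) .nil)))) (.cons (.rf (nat_lit 1810) (nat_lit 235600370082169063456)) .nil))))),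
 (.br (nat_lit 2) (nat_lit 0) (.cons (.rf (nat_lit 1530) (nat_lit 493858305440582042688)) (.cons (.rf (nat_lit 1603) (nat_lit 493858305440582042688)) (.cons (.rf (nat_lit 1794) (nat_lit 493858305440582042688)) (.cons (.kr (nat_lit 256) (nat_lit 65536) (nat_lit 1) (nat_lit 0)) (.cons (.br (nat_lit 3) (nat_lit 0) (.cons (.rf (nat_lit 1805) (nat_lit 493858305440582043680)) (.cons (.rf (nat_lit 1810) (nat_lit 493858305440582043680)) (.cons (.rf (nat_lit 1811) (nat_lit 493858305440582043680)) (.cons (.br (nat_lit 3) (nat_lit 0) (.cons (.rf (nat_lit 1805) (nat_lit 493858305440582043680)) (.cons (.rf (nat_lit 1810) (nat_lit 493858305440582043680)) (.cons (.rf (nat_lit 1811) (nat_lit 493858305440582043680)) (.cons (.rf (nat_lit 1810) (nat_lit 235600370082169063456)) .nil))))) (.cons (.rf (nat_lit 1810) (nat_lit 235600370082169063456)) .nil)))))) (.cons (.rf (nat_lit 1794) (nat_lit 235600370082169062464)) .nil))))))),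
 (.br (nat_lit 2) (nat_lit 0) (.cons (.rf (nat_lit 1530) (nat_lit 493858305440582042688)) (.cons (.rf (nat_lit 1603) (nat_lit 493858305440582042688)) (.cons (.rf (nat_lit 1794) (nat_lit 493858305440582042688)) (.cons (.rf (nat_lit 1802) (nat_lit 493858305440582043680)) (.cons (.rf (nat_lit 1812) (nat_lit 493858305440582043680)) (.cons (.br (nat_lit 2) (nat_lit 0) (.cons (.rf (nat_lit 1530) (nat_lit 493858305440582042688)) (.cons (.rf (nat_lit 1603) (nat_lit 493858305440582042688)) (.cons (.rf (nat_lit 1794) (nat_lit 493858305440582042688)) (.cons (.rf (nat_lit 1802) (nat_lit 493858305440582043680)) (.cons (.rf (nat_lit 1812) (nat_lit 493858305440582043680)) (.cons (.rf (nat_lit 1794) (nat_lit 235600370082169062464)) .nil))))))) (.cons (.rf (nat_lit 1794) (nat_lit 235600370082169062464)) .nil)))))))),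
 (.br (nat_lit 1) (nat_lit 0) (.cons (.rf (nat_lit 1530) (nat_lit 493858305440582043680)) (.cons (.rf (nat_lit 1603) (nat_lit 493858305440582043680)) (.cons (.rf (nat_lit 1794) (nat_lit 493858305440582043680)) (.cons (.rf (nat_lit 1813) (nat_lit 493858305440582043680)) (.cons (.rf (nat_lit 1813) (nat_lit 492741412732994160672)) (.cons (.rf (nat_lit 1794) (nat_lit 235600370082169063456)) .nil))))))),
 (.br (nat_lit 2) (nat_lit 0) (.cons (.rf (nat_lit 1530) (nat_lit 493858305440582042688)) (.cons (.rf (nat_lit 1603) (nat_lit 493858305440582042688)) (.cons (.rf (nat_lit 1794) (nat_lit 493858305440582042688)) (.cons (.rf (nat_lit 1814) (nat_lit 493858305440582042688)) (.cons (.kr (nat_lit 256) (nat_lit 65536) (nat_lit 1) (nat_lit 0)) (.cons (.rf (nat_lit 1794) (nat_lit 235600370082169062464)) .nil))))))),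
 (.br (nat_lit 1) (nat_lit 0) (.cons (.rf (nat_lit 1530) (nat_lit 493858305440582043680)) (.cons (.rf (nat_lit 1603) (nat_lit 493858305440582043680)) (.cons (.rf (nat_lit 1794) (nat_lit 493858305440582043680)) (.cons (.rf (nat_lit 1814) (nat_lit 493858305440582043680)) (.cons (.br (nat_lit 2) (nat_lit 0) (.cons (.rf (nat_lit 1530) (nat_lit 493858305440582042688)) (.cons (.rf (nat_lit 1603) (nat_lit 493858305440582042688)) (.cons (.rf (nat_lit 1794) (nat_lit 493858305440582042688)) (.cons (.rf (nat_lit 1814) (nat_lit 493858305440582042688)) (.cons (.rf (nat_lit 1815) (nat_lit 493858305440582043680)) (.cons (.rf (nat_lit 1815) (nat_lit 492741412732994160672)) (.cons (.rf (nat_lit 1794) (nat_lit 235600370082169062464)) .nil)))))))) (.cons (.rf (nat_lit 1794) (nat_lit 235600370082169063456)) .nil))))))),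
 (.br (nat_lit 1) (nat_lit 0) (.cons (.rf (nat_lit 1530) (nat_lit 493858305440582043680)) (.cons (.rf (nat_lit 1603) (nat_lit 493858305440582043680)) (.cons (.rf (nat_lit 1794) (nat_lit 493858305440582043680)) (.cons (.rf (nat_lit 1814) (nat_lit 493858305440582043680)) (.cons (.rf (nat_lit 1816) (nat_lit 493858305440582043680)) (.cons (.rf (nat_lit 1816) (nat_lit 492741412732994160672)) (.cons (.rf (nat_lit 1794) (nat_lit 235600370082169063456)) .nil)))))))),
 (.br (nat_lit 12) (nat_lit 0) (.cons (.ev (nat_lit 20361947251175756107713326678016) (nat_lit 1)) .nil)),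
 (.br (nat_lit 12) (nat_lit 0) (.cons (.br (nat_lit 12) (nat_lit 0) (.cons (.ev (nat_lit 20361947251175756107713326678016) (nat_lit 1)) .nil)) (.cons (.br (nat_lit 3) (nat_lit 0) (.cons (.ev (nat_lit 20361947251175756107713326678016) (nat_lit 1)) .nil)) .nil))),
 (.br (nat_lit 1) (nat_lit 0) (.cons (.zr (nat_lit 18446744073709617155) (nat_lit 4311745024) (nat_lit 5) (nat_lit 2)) (.cons (.br (nat_lit 3) (nat_lit 0) (.cons (.ev (nat_lit 158457567048024462248057897988) (nat_lit 3)) (.cons (.rf (nat_lit 1818) (nat_lit 493858305440582043680)) .nil))) (.cons (.rf (nat_lit 1819) (nat_lit 493858305440582043680)) .nil)))),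
 (.br (nat_lit 12) (nat_lit 0) (.cons (.ev (nat_lit 20361947251175756107713326678016) (nat_lit 1)) .nil)),
 (.br (nat_lit 3) (nat_lit 0) (.cons (.rf (nat_lit 1817) (nat_lit 493858305440582011936)) (.cons (.rf (nat_lit 1820) (nat_lit 493858305440582043680)) (.cons (.br (nat_lit 1) (nat_lit 0) (.cons (.rf (nat_lit 1821) (nat_lit 493858305440582043680)) (.cons (.zr (nat_lit 1213648402273579468587526) (nat_lit 316912650093950838530218655744) (nat_lit 10) (nat_lit 4)) (.cons (.ev (nat_lit 72339073326448896) (nat_lit 1)) .nil)))) .nil)))),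
 (.br (nat_lit 3) (nat_lit 0) (.cons (.rf (nat_lit 1817) (nat_lit 493858305440582011936)) (.cons (.rf (nat_lit 1820) (nat_lit 493858305440582043680)) (.cons (.rf (nat_lit 1822) (nat_lit 493858305440582043680)) (.cons (.br (nat_lit 3) (nat_lit 0) (.cons (.ev (nat_lit 4722366764348933669121) (nat_lit 1)) (.cons (.rf (nat_lit 1820) (nat_lit 493858305440582043680)) (.cons (.rf (nat_lit 1822) (nat_lit 493858305440582043680)) .nil)))) .nil))))),
 (.br (nat_lit 3) (nat_lit 0) (.cons (.kr (nat_lit 79228162514264337593544015872) (nat_lit 309485009821345068741558272) (nat_lit 2) (nat_lit 0)) (.cons (.br (nat_lit 12) (nat_lit 0) (.cons (.ev (nat_lit 20361948460101575721243006533888) (nat_lit 1)) .nil)) .nil))),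
 (.br (nat_lit 3) (nat_lit 0) (.cons (.kr (nat_lit 79228162514264337593544015872) (nat_lit 309485009821345068741558272) (nat_lit 2) (nat_lit 0)) (.cons (.br (nat_lit 8) (nat_lit 0) (.cons (.ev (nat_lit 121854153110181796981061720604678) (nat_lit 3)) .nil)) .nil))),
 (.br (nat_lit 12) (nat_lit 0) (.cons (.ev (nat_lit 20361948460101575721243006533888) (nat_lit 1)) .nil)),
 (.br (nat_lit 1) (nat_lit 0) (.cons (.rf (nat_lit 1817) (nat_lit 493858305440582011936)) (.cons (.rf (nat_lit 1823) (nat_lit 493858305440582043680)) (.cons (.br (nat_lit 3) (nat_lit 0) (.cons (.rf (nat_lit 1824) (nat_lit 493858305440582043680)) (.cons (.rf (nat_lit 1825) (nat_lit 493858305440582043680)) (.cons (.br (nat_lit 3) (nat_lit 0) (.cons (.rf (nat_lit 1824) (nat_lit 493858305440582043680)) (.cons (.rf (nat_lit 1825) (nat_lit 493858305440582043680)) .nil))) .nil)))) (.cons (.br (nat_lit 3) (nat_lit 0) (.cons (.br (nat_lit 3) (nat_lit 0) (.cons (.rf (nat_lit 1826) (nat_lit 493858305440582043680)) (.cons (.ev (nat_lit 20282410817299928579044404166913)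 (nat_lit 1)) .nil))) (.cons (.br (nat_lit 3) (nat_lit 0) (.cons (.rf (nat_lit 1826) (nat_lit 493858305440582043680)) (.cons (.ev (nat_lit 20282410817299928579044404166913) (nat_lit 1)) .nil))) (.cons (.ev (nat_lit 20282410817299928579044404166913) (nat_lit 1)) .nil)))) .nil))))),
 (.br (nat_lit 3) (nat_lit 0) (.cons (.br (nat_lit 12) (nat_lit 0) (.cons (.ev (nat_lit 20361948460101575721243006533888) (nat_lit 1)) .nil)) (.cons (.rf (nat_lit 1826) (nat_lit 492741412732994128928)) (.cons (.ev (nat_lit 20282409603651670425051074658304) (nat_lit 1)) .nil)))),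
 (.br (nat_lit 3) (nat_lit 0) (.cons (.rf (nat_lit 1828) (nat_lit 493858305440582043680)) (.cons (.ev (nat_lit 79537652246452447011185688833) (nat_lit 1)) (.cons (.br (nat_lit 8) (nat_lit 0) (.cons (.ev (nat_lit 1112909346929504813629378789896) (nat_lit 4)) .nil)) .nil)))),
 (.br (nat_lit 3) (nat_lit 0) (.cons (.rf (nat_lit 1826) (nat_lit 492741412732994128928)) (.cons (.ev (nat_lit 79537652246452447011185688833) (nat_lit 1)) (.cons (.br (nat_lit 8) (nat_lit 0) (.cons (.ev (nat_lit 318770802135481207847393689600) (nat_lit 3)) .nil)) .nil)))),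
 (.br (nat_lit 1) (nat_lit 0) (.cons (.rf (nat_lit 1817) (nat_lit 493858305440582011936)) (.cons (.rf (nat_lit 1823) (nat_lit 493858305440582043680)) (.cons (.rf (nat_lit 1827) (nat_lit 493858305440582043680)) (.cons (.br (nat_lit 3) (nat_lit 0) (.cons (.rf (nat_lit 1828) (nat_lit 493858305440582043680)) (.cons (.rf (nat_lit 1829) (nat_lit 493858305440582043680)) (.cons (.rf (nat_lit 1830) (nat_lit 493858305440582043680)) (.cons (.br (nat_lit 3) (nat_lit 0) (.cons (.ev (nat_lit 72339073326448896) (nat_lit 1)) (.cons (.rf (nat_lit 1829) (nat_lit 493858305440582043680)) (.cons (.rf (nat_lit 1830) (nat_lit 493858305440582043680)) .nil)))) .nil))))) .nil))))),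
 (.br (nat_lit 1) (nat_lit 0) (.cons (.rf (nat_lit 1817) (nat_lit 493858305440582011936)) (.cons (.rf (nat_lit 1823) (nat_lit 493858305440582043680)) (.cons (.rf (nat_lit 1827) (nat_lit 493858305440582043680)) (.cons (.rf (nat_lit 1831) (nat_lit 493858305440582043680)) (.cons (.br (nat_lit 1) (nat_lit 0) (.cons (.rf (nat_lit 1817) (nat_lit 493858305440582011936)) (.cons (.rf (nat_lit 1823) (nat_lit 493858305440582043680)) (.cons (.rf (nat_lit 1827) (nat_lit 493858305440582043680)) (.cons (.rf (nat_lit 1831) (nat_lit 493858305440582043680)) .nil))))) .nil)))))),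
 (.br (nat_lit 1) (nat_lit 0) (.cons (.rf (nat_lit 1818) (nat_lit 493858303243706271776)) (.cons (.ev (nat_lit 40564820430396766008655510634500) (nat_lit 3)) .nil))),
 (.br (nat_lit 3) (nat_lit 0) (.cons (.rf (nat_lit 1817) (nat_lit 493858305440582011936)) (.cons (.rf (nat_lit 1832) (nat_lit 493858305440582043680)) (.cons (.br (nat_lit 6) (nat_lit 0) (.cons (.br (nat_lit 13) (nat_lit 0) (.cons (.rf (nat_lit 1819) (nat_lit 493858303243706271776)) (.cons (.br (nat_lit 1) (nat_lit 0) (.cons (.ev (nat_lit 20361947251175756107713326678016) (nat_lit 1)) .nil)) .nil))) (.cons (.ev (nat_lit 79537647524158021735595180033) (nat_lit 1)) (.cons (.br (nat_lit 1) (nat_lit 0) (.cons (.br (nat_lit 1) (nat_lit 0) (.cons (.ev (nat_lit 318151822634500296398510360066) (nat_lit 3)) .nil)) (.cons (.br (nat_lit 1) (nat_lit 0) (.cons (.ev (nat_lit 318151822634500296398510360066) (nat_lit 3)) .nil)) .nil))) .nil)))) (.cons (.br (nat_lit 6) (nat_lit 0) (.cons (.rf (nat_lit 1833) (nat_lit 493858305440582043680)) (.cons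 (.br (nat_lit 1) (nat_lit 0) (.cons (.ev (nat_lit 79538856449977637464281448448) (nat_lit 1)) (.cons (.rf (nat_lit 1833) (nat_lit 235600370082169031712)) .nil))) (.cons (.ev (nat_lit 20282413230429202169862350372866) (nat_lit 2)) .nil)))) .nil))))),
 (.br (nat_lit 1) (nat_lit 0) (.cons (.rf (nat_lit 1821) (nat_lit 493858303243706271776)) (.cons (.ev (nat_lit 1208925891954802012717313) (nat_lit 1)) (.cons (.br (nat_lit 11) (nat_lit 0) (.cons (.ev (nat_lit 20362569847972930542662051692546) (nat_lit 2)) .nil)) .nil)))),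
 (.br (nat_lit 3) (nat_lit 0) (.cons (.rf (nat_lit 1817) (nat_lit 493858305440582011936)) (.cons (.rf (nat_lit 1832) (nat_lit 493858305440582043680)) (.cons (.rf (nat_lit 1834) (nat_lit 493858305440582043680)) (.cons (.br (nat_lit 6) (nat_lit 0) (.cons (.rf (nat_lit 1835) (nat_lit 493858305440582043680)) (.cons (.br (nat_lit 1) (nat_lit 0) (.cons (.ev (nat_lit 79537652246452447011202400256) (nat_lit 1)) (.cons (.rf (nat_lit 1835) (nat_lit 234483477374581148704)) .nil))) (.cons (.rf (nat_lit 558) (nat_lit 13164347516457682976)) (.cons (.br (nat_lit 11) (nat_lit 0) (.cons (.br (nat_lit 1) (nat_lit 0) (.cons (.zr (nat_lit 2427296444253691189395460) (nat_lit 20283028573689760139637715632384) (nat_lit 5) (nat_lit 4)) .nil)) (.cons (.ev (nat_lit 122170446808998141221323822596100) (nat_lit 3)) .nil))) .nil))))) .nil))))),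
 (.br (nat_lit 3) (nat_lit 0) (.cons (.rf (nat_lit 1817) (nat_lit 493858305440582011936)) (.cons (.rf (nat_lit 1832) (nat_lit 493858305440582043680)) (.cons (.rf (nat_lit 1834) (nat_lit 493858305440582043680)) (.cons (.rf (nat_lit 1836) (nat_lit 493858305440582043680)) (.cons (.br (nat_lit 3) (nat_lit 0) (.cons (.rf (nat_lit 1817) (nat_lit 493858305440582011936)) (.cons (.rf (nat_lit 1832) (nat_lit 493858305440582043680)) (.cons (.rf (nat_lit 1834) (nat_lit 493858305440582043680)) (.cons (.rf (nat_lit 1836) (nat_lit 493858305440582043680)) .nil))))) .nil))))))]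

theorem c66 : chkAll C T R L66 (nat_lit 1808) = true := by decide +kernel

theorem l66 : (nat_lit 1808) + L66.length = (nat_lit 1838) := by decide +kernel

/-- part of the certificates -/
def L67 : List Prf := [(.br (nat_lit 8) (nat_lit 0) (.cons (.ev (nat_lit 20282719088680010570688018514176) (nat_lit 1)) .nil)),
 (.br (nat_lit 1) (nat_lit 0) (.cons (.br (nat_lit 12) (nat_lit 0) (.cons (.ev (nat_lit 20361948460101575721243006533888) (nat_lit 1)) .nil)) (.cons (.rf (nat_lit 1838) (nat_lit 493858305440582043680)) (.cons (.br (nat_lit 8) (nat_lit 0) (.cons (.ev (nat_lit 40566058370510415956292851994126) (nat_lit 4)) .nil)) .nil)))),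
 (.br (nat_lit 1) (nat_lit 0) (.cons (.rf (nat_lit 1839) (nat_lit 493858305440582043680)) (.cons (.br (nat_lit 6) (nat_lit 0) (.cons (.ev (nat_lit 1239153761763986442478028290) (nat_lit 3)) .nil)) (.cons (.ev (nat_lit 20282720302328124611692328976385) (nat_lit 1)) .nil)))),
 (.br (nat_lit 3) (nat_lit 0) (.cons (.rf (nat_lit 1817) (nat_lit 493858305440582011936)) (.cons (.rf (nat_lit 1832) (nat_lit 493858305440582043680)) (.cons (.rf (nat_lit 1837) (nat_lit 493858305440582043680)) (.cons (.br (nat_lit 1) (nat_lit 0) (.cons (.rf (nat_lit 1839) (nat_lit 493858305440582043680)) (.cons (.rf (nat_lit 1840) (nat_lit 493858305440582043680)) (.cons (.br (nat_lit 1) (nat_lit 0) (.cons (.rf (nat_lit 1838) (nat_lit 493858305440582043680)) (.cons (.rf (nat_lit 1840) (nat_lit 493858305440582043680)) (.cons (.ev (nat_lit 20361948460101575721242989690881) (nat_lit 1)) .nil)))) (.cons (.br (nat_lit 1) (nat_lit 0) (.cons (.rf (nat_lit 1839) (nat_lit 493858305440582043680)) (.cons (.ev (nat_lit 20282720302328124611692328976385)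 (nat_lit 1)) (.cons (.ev (nat_lit 20361948460101575721242989690881) (nat_lit 1)) .nil)))) .nil))))) .nil))))),
 (.br (nat_lit 3) (nat_lit 0) (.cons (.rf (nat_lit 1817) (nat_lit 493858305440582011936)) (.cons (.rf (nat_lit 1832) (nat_lit 493858305440582043680)) (.cons (.rf (nat_lit 1837) (nat_lit 493858305440582043680)) (.cons (.rf (nat_lit 1841) (nat_lit 493858305440582043680)) (.cons (.br (nat_lit 3) (nat_lit 0) (.cons (.rf (nat_lit 1817) (nat_lit 493858305440582011936)) (.cons (.rf (nat_lit 1832) (nat_lit 493858305440582043680)) (.cons (.rf (nat_lit 1837) (nat_lit 493858305440582043680)) (.cons (.rf (nat_lit 1841) (nat_lit 493858305440582043680)) .nil))))) .nil)))))),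
 (.br (nat_lit 3) (nat_lit 0) (.cons (.rf (nat_lit 1817) (nat_lit 493858305440582011936)) (.cons (.rf (nat_lit 1832) (nat_lit 493858305440582043680)) (.cons (.rf (nat_lit 1837) (nat_lit 493858305440582043680)) (.cons (.rf (nat_lit 1842) (nat_lit 493858305440582043680)) (.cons (.br (nat_lit 3) (nat_lit 0) (.cons (.rf (nat_lit 1817) (nat_lit 493858305440582011936)) (.cons (.rf (nat_lit 1832) (nat_lit 493858305440582043680)) (.cons (.rf (nat_lit 1837) (nat_lit 493858305440582043680)) (.cons (.rf (nat_lit 1842) (nat_lit 493858305440582043680)) .nil))))) .nil)))))),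
 (.br (nat_lit 3) (nat_lit 0) (.cons (.rf (nat_lit 1817) (nat_lit 493858305440582011936)) (.cons (.rf (nat_lit 1832) (nat_lit 493858305440582043680)) (.cons (.rf (nat_lit 1837) (nat_lit 493858305440582043680)) (.cons (.rf (nat_lit 1842) (nat_lit 493858305440582043680)) (.cons (.rf (nat_lit 1843) (nat_lit 493858305440582043680)) (.cons (.br (nat_lit 3) (nat_lit 0) (.cons (.rf (nat_lit 1817) (nat_lit 493858305440582011936)) (.cons (.rf (nat_lit 1832) (nat_lit 493858305440582043680)) (.cons (.rf (nat_lit 1837) (nat_lit 493858305440582043680)) (.cons (.rf (nat_lit 1842) (nat_lit 493858305440582043680)) (.cons (.rf (nat_lit 1843) (nat_lit 493858305440582043680)) .nil)))))) .nil))))))),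
 (.br (nat_lit 12) (nat_lit 0) (.cons (.br (nat_lit 12) (nat_lit 0) (.cons (.ev (nat_lit 40724514695574828185194550263810) (nat_lit 3)) .nil)) (.cons (.br (nat_lit 3) (nat_lit 0) (.cons (.ev (nat_lit 40724514695574828185194550263810) (nat_lit 3)) .nil)) .nil))),
 (.br (nat_lit 3) (nat_lit 0) (.cons (.rf (nat_lit 1845) (nat_lit 493858305440582043680)) (.cons (.br (nat_lit 3) (nat_lit 0) (.cons (.rf (nat_lit 1845) (nat_lit 493858305440582043680)) (.cons (.ev (nat_lit 72339073326448896) (nat_lit 1)) .nil))) (.cons (.br (nat_lit 3) (nat_lit 0) (.cons (.rf (nat_lit 1845) (nat_lit 493858305440582043680)) (.cons (.ev (nat_lit 72339073326448896) (nat_lit 1)) .nil))) .nil)))),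
 (.br (nat_lit 3) (nat_lit 0) (.cons (.rf (nat_lit 1846) (nat_lit 493858305440582043680)) (.cons (.br (nat_lit 3) (nat_lit 0) (.cons (.rf (nat_lit 1846) (nat_lit 493858305440582043680)) (.cons (.rf (nat_lit 1846) (nat_lit 235600370082169063456)) .nil))) (.cons (.rf (nat_lit 1846) (nat_lit 235600370082169063456)) .nil)))),
 (.br (nat_lit 3) (nat_lit 0) (.cons (.rf (nat_lit 1846) (nat_lit 493858305440582043680)) (.cons (.rf (nat_lit 1847) (nat_lit 493858305440582043680)) (.cons (.br (nat_lit 3) (nat_lit 0) (.cons (.rf (nat_lit 1846) (nat_lit 493858305440582043680)) (.cons (.rf (nat_lit 1847) (nat_lit 493858305440582043680)) (.cons (.rf (nat_lit 1846) (nat_lit 235600370082169063456)) .nil)))) (.cons (.rf (nat_lit 1846) (nat_lit 235600370082169063456)) .nil))))),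
 (.br (nat_lit 1) (nat_lit 0) (.cons (.rf (nat_lit 1817) (nat_lit 493858305440582011936)) (.cons (.ev (nat_lit 4722366764348916957184) (nat_lit 1)) (.cons (.rf (nat_lit 1848) (nat_lit 493858305440582043680)) (.cons (.rf (nat_lit 1848) (nat_lit 492741412732994160672)) (.cons (.ev (nat_lit 20282410817299928579044404166656) (nat_lit 1)) .nil)))))),
 (.br (nat_lit 3) (nat_lit 0) (.cons (.rf (nat_lit 1824) (nat_lit 493858305440582011936)) (.cons (.ev (nat_lit 79537647524158021735578337281) (nat_lit 1)) (.cons (.kr (nat_lit 1208925891672223212634114) (nat_lit 20282409603651670705422227997184) (nat_lit 0) (nat_lit 2)) .nil)))),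
 (.br (nat_lit 3) (nat_lit 0) (.cons (.rf (nat_lit 1850) (nat_lit 493858305440582043680)) (.cons (.br (nat_lit 3) (nat_lit 0) (.cons (.rf (nat_lit 1824) (nat_lit 493858305440582011936)) (.cons (.zr (nat_lit 1223092991124130683158534) (nat_lit 159075295085064853480546762752) (nat_lit 10) (nat_lit 4)) (.cons (.rf (nat_lit 1824) (nat_lit 235600375574358461472)) .nil)))) (.cons (.br (nat_lit 3) (nat_lit 0) (.cons (.ev (nat_lit 79538861172272062739871956993) (nat_lit 1)) (.cons (.zr (nat_lit 1223092991124130683158534) (nat_lit 159075295085064853480546762752) (nat_lit 10) (nat_lit 4)) (.cons (.ev (nat_lit 20361947255898194648177009754113) (nat_lit 1)) .nil)))) (.cons (.rf (nat_lit 1850) (nat_lit 235600370082169063456)) .nil))))),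
 (.br (nat_lit 12) (nat_lit 0) (.cons (.rf (nat_lit 1851) (nat_lit 492741412732994160672)) (.cons (.rf (nat_lit 998) (nat_lit 436892868904992)) (.cons (.ev (nat_lit 40725133665484222754254913274880) (nat_lit 3)) .nil)))),
 (.br (nat_lit 1) (nat_lit 0) (.cons (.rf (nat_lit 1817) (nat_lit 493858305440582011936)) (.cons (.ev (nat_lit 4722366764348916957184) (nat_lit 1)) (.cons (.rf (nat_lit 1849) (nat_lit 493858305440582043680)) (.cons (.br (nat_lit 11) (nat_lit 0) (.cons (.rf (nat_lit 1851) (nat_lit 493858305440582043680)) (.cons (.rf (nat_lit 1852) (nat_lit 493858305440582043680)) (.cons (.br (nat_lit 12) (nat_lit 0) (.cons (.rf (nat_lit 1851) (nat_lit 492741412732994160672)) (.cons (.rf (nat_lit 998) (nat_lit 436890788530208)) (.cons (.rf (nat_lit 998) (nat_lit 429201723328544)) .nil)))) (.cons (.kr (nat_lit 309485009821345068724781056) (nat_lit 79228162514264337593543950336) (nat_lit 11) (nat_lit 0)) (.cons (.rf (nat_lit 1852) (nat_lit 235600370082169063456)) .nil)))))) (.cons (.ev (nat_lit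 20282410817299928579044404166656) (nat_lit 1)) .nil)))))),
 (.br (nat_lit 2) (nat_lit 0) (.cons (.rf (nat_lit 1817) (nat_lit 493858305440582043680)) (.cons (.rf (nat_lit 1817) (nat_lit 493858305440581979200)) (.cons (.rf (nat_lit 1844) (nat_lit 493858305440582043680)) (.cons (.rf (nat_lit 1844) (nat_lit 492741412732994160672)) (.cons (.br (nat_lit 1) (nat_lit 0) (.cons (.rf (nat_lit 1817) (nat_lit 493858305440582011936)) (.cons (.ev (nat_lit 4722366764348916957184) (nat_lit 1)) (.cons (.rf (nat_lit 1849) (nat_lit 493858305440582043680)) (.cons (.rf (nat_lit 1853) (nat_lit 493858305440582043680)) (.cons (.rf (nat_lit 1853) (nat_lit 492741412732994160672)) (.cons (.ev (nat_lit 20282410817299928579044404166656) (nat_lit 1)) .nil))))))) .nil)))))),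
 (.br (nat_lit 3) (nat_lit 0) (.cons (.rf (nat_lit 1817) (nat_lit 493858305440582011936)) (.cons (.rf (nat_lit 1854) (nat_lit 493858305440582011936)) (.cons (.ev (nat_lit 79538861172272062739871956993) (nat_lit 1)) (.cons (.br (nat_lit 12) (nat_lit 0) (.cons (.br (nat_lit 8) (nat_lit 0) (.cons (.ev (nat_lit 79537652246452447011202400513) (nat_lit 1)) (.cons (.br (nat_lit 1) (nat_lit 0) (.cons (.ev (nat_lit 79537652246452447011202400513) (nat_lit 1)) .nil)) .nil))) (.cons (.br (nat_lit 1) (nat_lit 0) (.cons (.br (nat_lit 1) (nat_lit 0) (.cons (.ev (nat_lit 1112909328040327112527084129792) (nat_lit 4)) .nil)) (.cons (.br (nat_lit 1) (nat_lit 0) (.cons (.ev (nat_lit 1112909328040327112527084129792) (nat_lit 4)) .nil)) .nil))) (.cons (.ev (nat_lit 20361947255898194648177026596865) (nat_lit 1)) .nil)))) .nil))))),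
 (.br (nat_lit 3) (nat_lit 0) (.cons (.rf (nat_lit 1817) (nat_lit 493858305440582011936)) (.cons (.rf (nat_lit 1854) (nat_lit 493858305440582011936)) (.cons (.rf (nat_lit 1855) (nat_lit 493858305440582043680)) (.cons (.rf (nat_lit 1855) (nat_lit 492741412732994160672)) (.cons (.br (nat_lit 3) (nat_lit 0) (.cons (.rf (nat_lit 1817) (nat_lit 493858305440582011936)) (.cons (.rf (nat_lit 1854) (nat_lit 493858305440582011936)) (.cons (.rf (nat_lit 1855) (nat_lit 493858305440582043680)) (.cons (.rf (nat_lit 1855) (nat_lit 492741412732994160672)) .nil))))) .nil)))))),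
 (.br (nat_lit 13) (nat_lit 0) (.cons (.ev (nat_lit 79537652246452447011202400513) (nat_lit 1)) (.cons (.br (nat_lit 1) (nat_lit 0) (.cons (.ev (nat_lit 79537652246452447011202400513) (nat_lit 1)) .nil)) .nil))),
 (.br (nat_lit 1) (nat_lit 0) (.cons (.rf (nat_lit 1857) (nat_lit 493858305440582043680)) (.cons (.br (nat_lit 6) (nat_lit 0) (.cons (.ev (nat_lit 318151803744746134543777530370) (nat_lit 3)) .nil)) .nil))),
 (.br (nat_lit 3) (nat_lit 0) (.cons (.rf (nat_lit 1817) (nat_lit 493858305440582011936)) (.cons (.rf (nat_lit 1854) (nat_lit 493858305440582011936)) (.cons (.br (nat_lit 1) (nat_lit 0) (.cons (.rf (nat_lit 1857) (nat_lit 493858305440582043680)) (.cons (.rf (nat_lit 1858) (nat_lit 493858305440582043680)) (.cons (.br (nat_lit 1) (nat_lit 0) (.cons (.ev (nat_lit 79537652246452447011202400513) (nat_lit 1)) (.cons (.rf (nat_lit 1858) (nat_lit 493858305440582043680)) .nil))) .nil)))) (.cons (.rf (nat_lit 1854) (nat_lit 235600370082169031712)) .nil))))),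
 (.br (nat_lit 3) (nat_lit 0) (.cons (.rf (nat_lit 1817) (nat_lit 493858305440582011936)) (.cons (.rf (nat_lit 1854) (nat_lit 493858305440582011936)) (.cons (.rf (nat_lit 1859) (nat_lit 493858305440582043680)) (.cons (.rf (nat_lit 1859) (nat_lit 492741412732994160672)) (.cons (.rf (nat_lit 1854) (nat_lit 235600370082169031712)) .nil)))))),
 (.br (nat_lit 3) (nat_lit 0) (.cons (.rf (nat_lit 1817) (nat_lit 493858305440582011936)) (.cons (.ev (nat_lit 79538861172272062739871956993) (nat_lit 1)) (.cons (.rf (nat_lit 1860) (nat_lit 493858305440582043680)) (.cons (.br (nat_lit 1) (nat_lit 0) (.cons (.rf (nat_lit 1857) (nat_lit 309390870201044666400)) (.cons (.br (nat_lit 1) (nat_lit 0) (.cons (.ev (nat_lit 79537652246452447011202400513) (nat_lit 1)) (.cons (.ev (nat_lit 20361948464824014261706672898305) (nat_lit 1)) .nil))) (.cons (.rf (nat_lit 1857) (nat_lit 309387344177983982624)) .nil)))) .nil))))),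
 (.br (nat_lit 3) (nat_lit 0) (.cons (.rf (nat_lit 1817) (nat_lit 493858305440582011936)) (.cons (.rf (nat_lit 1856) (nat_lit 493858305440582043680)) (.cons (.rf (nat_lit 1860) (nat_lit 493858305440582043680)) (.cons (.rf (nat_lit 1861) (nat_lit 493858305440582043680)) (.cons (.br (nat_lit 3) (nat_lit 0) (.cons (.rf (nat_lit 1817) (nat_lit 493858305440582011936)) (.cons (.rf (nat_lit 1856) (nat_lit 493858305440582043680)) (.cons (.rf (nat_lit 1854) (nat_lit 235600370082169031712)) (.cons (.rf (nat_lit 1861) (nat_lit 493858305440582043680)) .nil))))) .nil)))))),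
 (.br (nat_lit 3) (nat_lit 0) (.cons (.rf (nat_lit 1817) (nat_lit 493858305440582011936)) (.cons (.rf (nat_lit 1856) (nat_lit 493858305440582043680)) (.cons (.rf (nat_lit 1860) (nat_lit 493858305440582043680)) (.cons (.rf (nat_lit 1862) (nat_lit 493858305440582043680)) (.cons (.rf (nat_lit 1862) (nat_lit 492741412732994160672)) (.cons (.br (nat_lit 3) (nat_lit 0) (.cons (.rf (nat_lit 1817) (nat_lit 493858305440582011936)) (.cons (.rf (nat_lit 1856) (nat_lit 493858305440582043680)) (.cons (.rf (nat_lit 1854) (nat_lit 235600370082169031712)) (.cons (.rf (nat_lit 1862) (nat_lit 493858305440582043680)) (.cons (.rf (nat_lit 1862) (nat_lit 492741412732994160672)) .nil)))))) .nil))))))),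
 (.br (nat_lit 3) (nat_lit 0) (.cons (.rf (nat_lit 1817) (nat_lit 493858305440582011936)) (.cons (.rf (nat_lit 1854) (nat_lit 493858305440582011936)) (.cons (.rf (nat_lit 1863) (nat_lit 493858305440582011936)) (.cons (.br (nat_lit 11) (nat_lit 0) (.cons (.br (nat_lit 12) (nat_lit 0) (.cons (.kr (nat_lit 79228162514264337593544015872) (nat_lit 309485009821345068741558272) (nat_lit 2) (nat_lit 0)) (.cons (.ev (nat_lit 20600568675118722199029559984128) (nat_lit 3)) .nil))) (.cons (.br (nat_lit 12) (nat_lit 0) (.cons (.ev (nat_lit 20600568675118722199029559984128) (nat_lit 3)) (.cons (.kr (nat_lit 79228162514264337593544015872) (nat_lit 309485009821345068741558272) (nat_lit 2) (nat_lit 0)) .nil))) (.cons (.ev (nat_lit 79537647524158021735595180033) (nat_lit 1)) .nil)))) .nil))))),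
 (.br (nat_lit 3) (nat_lit 0) (.cons (.rf (nat_lit 1817) (nat_lit 493858305440582011936)) (.cons (.rf (nat_lit 1854) (nat_lit 493858305440582011936)) (.cons (.br (nat_lit 3) (nat_lit 0) (.cons (.rf (nat_lit 1817) (nat_lit 493858305440582011936)) (.cons (.rf (nat_lit 1854) (nat_lit 493858305440582011936)) (.cons (.rf (nat_lit 1863) (nat_lit 493858305440582011936)) (.cons (.ev (nat_lit 20282413230429202169862367084546) (nat_lit 2)) .nil))))) (.cons (.rf (nat_lit 1864) (nat_lit 493858305440582043680)) (.cons (.br (nat_lit 3) (nat_lit 0) (.cons (.rf (nat_lit 1817) (nat_lit 493858305440582011936)) (.cons (.rf (nat_lit 1854) (nat_lit 493858305440582011936)) (.cons (.ev (nat_lit 20282413230429202169862367084546) (nat_lit 2)) (.cons (.rf (nat_lit 1864) (nat_lit 493858305440582043680)) .nil))))) .nil))))))]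

theorem c67 : chkAll C T R L67 (nat_lit 1838) = true := by decide +kernel

theorem l67 : (nat_lit 1838) + L67.length = (nat_lit 1866) := by decide +kernel

/-- part of the certificates -/
def L68 : List Prf := [(.br (nat_lit 1) (nat_lit 0) (.cons (.ev (nat_lit 309489750706912184917622785) (nat_lit 1)) (.cons (.rf (nat_lit 1838) (nat_lit 486940776419383381024)) (.cons (.ev (nat_lit 20282409608374037754548951450112) (nat_lit 2)) .nil)))),
 (.br (nat_lit 1) (nat_lit 0) (.cons (.ev (nat_lit 309489750706912184917622785) (nat_lit 1)) (.cons (.br (nat_lit 6) (nat_lit 0) (.cons (.ev (nat_lit 318151822634500296398510360066) (nat_lit 3)) .nil)) (.cons (.ev (nat_lit 20282720302328124611692328976385) (nat_lit 1)) .nil)))),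
 (.br (nat_lit 3) (nat_lit 0) (.cons (.rf (nat_lit 1817) (nat_lit 493858305440582011936)) (.cons (.rf (nat_lit 1854) (nat_lit 493858305440582011936)) (.cons (.br (nat_lit 1) (nat_lit 0) (.cons (.rf (nat_lit 1866) (nat_lit 493858305440582043680)) (.cons (.rf (nat_lit 1867) (nat_lit 493858305440582043680)) (.cons (.br (nat_lit 1) (nat_lit 0) (.cons (.rf (nat_lit 1838) (nat_lit 486940776419383381024)) (.cons (.rf (nat_lit 1867) (nat_lit 493858305440582043680)) (.cons (.rf (nat_lit 1838) (nat_lit 236753291585702136864)) .nil)))) (.cons (.rf (nat_lit 1866) (nat_lit 235600370082169063456)) .nil))))) (.cons (.rf (nat_lit 1854) (nat_lit 235600370082169031712)) .nil))))),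
 (.br (nat_lit 3) (nat_lit 0) (.cons (.rf (nat_lit 1817) (nat_lit 493858305440582011936)) (.cons (.rf (nat_lit 1854) (nat_lit 493858305440582011936)) (.cons (.rf (nat_lit 1868) (nat_lit 493858305440582043680)) (.cons (.br (nat_lit 3) (nat_lit 0) (.cons (.rf (nat_lit 1817) (nat_lit 493858305440582011936)) (.cons (.rf (nat_lit 1854) (nat_lit 493858305440582011936)) (.cons (.rf (nat_lit 1868) (nat_lit 493858305440582043680)) (.cons (.rf (nat_lit 1854) (nat_lit 235600370082169031712)) .nil))))) (.cons (.rf (nat_lit 1854) (nat_lit 235600370082169031712)) .nil)))))),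
 (.br (nat_lit 3) (nat_lit 0) (.cons (.rf (nat_lit 1817) (nat_lit 493858305440582011936)) (.cons (.rf (nat_lit 1865) (nat_lit 493858305440582043680)) (.cons (.rf (nat_lit 1869) (nat_lit 493858305440582043680)) (.cons (.br (nat_lit 3) (nat_lit 0) (.cons (.rf (nat_lit 1817) (nat_lit 493858305440582011936)) (.cons (.rf (nat_lit 1863) (nat_lit 493858305440582011936)) (.cons (.rf (nat_lit 1869) (nat_lit 493858305440582043680)) (.cons (.rf (nat_lit 1863) (nat_lit 235600370082169031712)) .nil))))) (.cons (.rf (nat_lit 1865) (nat_lit 235600370082169063456)) .nil)))))),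
 (.br (nat_lit 2) (nat_lit 0) (.cons (.rf (nat_lit 1817) (nat_lit 493858305440582043680)) (.cons (.rf (nat_lit 1817) (nat_lit 493858305440581979200)) (.cons (.rf (nat_lit 1854) (nat_lit 493858305440582043680)) (.cons (.rf (nat_lit 1863) (nat_lit 493858305440582043680)) (.cons (.br (nat_lit 3) (nat_lit 0) (.cons (.rf (nat_lit 1817) (nat_lit 493858305440582011936)) (.cons (.rf (nat_lit 1865) (nat_lit 493858305440582043680)) (.cons (.rf (nat_lit 1869) (nat_lit 493858305440582043680)) (.cons (.rf (nat_lit 1870) (nat_lit 493858305440582043680)) (.cons (.br (nat_lit 3) (nat_lit 0) (.cons (.rf (nat_lit 1817) (nat_lit 493858305440582011936)) (.cons (.rf (nat_lit 1865) (nat_lit 493858305440582043680)) (.cons (.rf (nat_lit 1869) (nat_lit 493858305440582043680)) (.cons (.rf (nat_lit 1870) (nat_lit 493858305440582043680)) (.cons (.rf (nat_lit 1865) (nat_lit 235600370082169063456)) .nil)))))) (.cons (.rf (nat_lit 1865) (nat_lit 235600370082169063456)) .nil))))))) .nil)))))),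
 (.br (nat_lit 2) (nat_lit 0) (.cons (.rf (nat_lit 1817) (nat_lit 493858305440582043680)) (.cons (.rf (nat_lit 1817) (nat_lit 493858305440581979200)) (.cons (.rf (nat_lit 1854) (nat_lit 493858305440582043680)) (.cons (.rf (nat_lit 1871) (nat_lit 493858305440582043680)) (.cons (.rf (nat_lit 1871) (nat_lit 492741412732994160672)) (.cons (.br (nat_lit 2) (nat_lit 0) (.cons (.rf (nat_lit 1817) (nat_lit 493858305440582043680)) (.cons (.rf (nat_lit 1817) (nat_lit 493858305440581979200)) (.cons (.rf (nat_lit 1854) (nat_lit 493858305440582043680)) (.cons (.rf (nat_lit 1871) (nat_lit 493858305440582043680)) (.cons (.rf (nat_lit 1871) (nat_lit 492741412732994160672)) .nil)))))) .nil))))))),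
 (.br (nat_lit 1) (nat_lit 0) (.cons (.br (nat_lit 6) (nat_lit 0) (.cons (.ev (nat_lit 318151822634500296398510360066) (nat_lit 3)) .nil)) .nil)),
 (.br (nat_lit 3) (nat_lit 0) (.cons (.rf (nat_lit 1817) (nat_lit 493858305440582011936)) (.cons (.rf (nat_lit 1872) (nat_lit 493858305440582011936)) (.cons (.br (nat_lit 1) (nat_lit 0) (.cons (.rf (nat_lit 1873) (nat_lit 493858305440582043680)) (.cons (.rf (nat_lit 1873) (nat_lit 235600370082169063456)) .nil))) (.cons (.rf (nat_lit 1872) (nat_lit 235600370082169031712)) .nil))))),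
 (.br (nat_lit 3) (nat_lit 0) (.cons (.rf (nat_lit 1817) (nat_lit 493858305440582011936)) (.cons (.rf (nat_lit 1817) (nat_lit 493858305440581979200)) (.cons (.rf (nat_lit 1872) (nat_lit 493858305440582011936)) (.cons (.br (nat_lit 2) (nat_lit 0) (.cons (.rf (nat_lit 1817) (nat_lit 493858305440582043680)) (.cons (.rf (nat_lit 1872) (nat_lit 493858305440582043680)) (.cons (.rf (nat_lit 1874) (nat_lit 493858305440582011936)) (.cons (.rf (nat_lit 1874) (nat_lit 492741412732994128928)) (.cons (.rf (nat_lit 1872) (nat_lit 235600370082169063456)) .nil)))))) (.cons (.rf (nat_lit 1872) (nat_lit 235600370082169031712)) .nil)))))),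
 (.br (nat_lit 3) (nat_lit 0) (.cons (.rf (nat_lit 1817) (nat_lit 493858305440582011936)) (.cons (.rf (nat_lit 1872) (nat_lit 493858305440582011936)) (.cons (.rf (nat_lit 1875) (nat_lit 493858305440582011936)) (.cons (.rf (nat_lit 1875) (nat_lit 493858305440582043680)) (.cons (.rf (nat_lit 1872) (nat_lit 235600370082169031712)) .nil)))))),
 (.br (nat_lit 2) (nat_lit 0) (.cons (.rf (nat_lit 1817) (nat_lit 493858305440582043680)) (.cons (.rf (nat_lit 1817) (nat_lit 493858305440581979200)) (.cons (.rf (nat_lit 1872) (nat_lit 493858305440582043680)) (.cons (.br (nat_lit 3) (nat_lit 0) (.cons (.rf (nat_lit 1817) (nat_lit 493858305440582011936)) (.cons (.rf (nat_lit 1872) (nat_lit 493858305440582011936)) (.cons (.rf (nat_lit 1875) (nat_lit 493858305440582011936)) (.cons (.rf (nat_lit 1876) (nat_lit 493858305440582043680)) (.cons (.rf (nat_lit 1876) (nat_lit 492741412732994160672)) (.cons (.rf (nat_lit 1872) (nat_lit 235600370082169031712)) .nil))))))) (.cons (.rf (nat_lit 1872) (nat_lit 235600370082169063456))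 .nil)))))),
 (.br (nat_lit 2) (nat_lit 0) (.cons (.rf (nat_lit 1817) (nat_lit 493858305440582043680)) (.cons (.rf (nat_lit 1817) (nat_lit 493858305440581979200)) (.cons (.rf (nat_lit 1872) (nat_lit 493858305440582043680)) (.cons (.rf (nat_lit 1877) (nat_lit 493858305440582043680)) (.cons (.rf (nat_lit 1877) (nat_lit 492741412732994160672)) (.cons (.rf (nat_lit 1872) (nat_lit 235600370082169063456)) .nil))))))),
 (.br (nat_lit 2) (nat_lit 0) (.cons (.rf (nat_lit 1817) (nat_lit 493858305440582043680)) (.cons (.rf (nat_lit 1817) (nat_lit 493858305440581979200)) (.cons (.rf (nat_lit 1872) (nat_lit 493858305440582043680)) (.cons (.rf (nat_lit 1878) (nat_lit 493858305440582043680)) (.cons (.br (nat_lit 2) (nat_lit 0) (.cons (.rf (nat_lit 1817) (nat_lit 493858305440582043680)) (.cons (.rf (nat_lit 1817) (nat_lit 493858305440581979200)) (.cons (.rf (nat_lit 1872) (nat_lit 493858305440582043680)) (.cons (.rf (nat_lit 1878) (nat_lit 493858305440582043680)) (.cons (.rf (nat_lit 1872) (nat_lit 235600370082169063456))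 .nil)))))) (.cons (.rf (nat_lit 1872) (nat_lit 235600370082169063456)) .nil))))))),
 (.br (nat_lit 2) (nat_lit 0) (.cons (.rf (nat_lit 1817) (nat_lit 493858305440582043680)) (.cons (.rf (nat_lit 1817) (nat_lit 493858305440581979200)) (.cons (.rf (nat_lit 1872) (nat_lit 493858305440582043680)) (.cons (.rf (nat_lit 1878) (nat_lit 493858305440582043680)) (.cons (.rf (nat_lit 1879) (nat_lit 493858305440582043680)) (.cons (.rf (nat_lit 1879) (nat_lit 492741412732994160672)) (.cons (.rf (nat_lit 1872) (nat_lit 235600370082169063456)) .nil)))))))),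
 (.br (nat_lit 2) (nat_lit 0) (.cons (.rf (nat_lit 1817) (nat_lit 493858305440581979200)) (.cons (.rf (nat_lit 636) (nat_lit 12309783217216)) (.cons (.br (nat_lit 3) (nat_lit 0) (.cons (.br (nat_lit 3) (nat_lit 0) (.cons (.ev (nat_lit 20361637770906747988488444968961) (nat_lit 1)) .nil)) (.cons (.br (nat_lit 3) (nat_lit 0) (.cons (.ev (nat_lit 20361637770906747988488444968961) (nat_lit 1)) .nil)) .nil))) .nil)))),
 (.br (nat_lit 2) (nat_lit 0) (.cons (.rf (nat_lit 1817) (nat_lit 493858305440581979200)) (.cons (.rf (nat_lit 636) (nat_lit 12309783217216)) (.cons (.br (nat_lit 3) (nat_lit 0) (.cons (.br (nat_lit 3) (nat_lit 0) (.cons (.ev (nat_lit 366040920709248923840034774847510) (nat_lit 5)) .nil)) (.cons (.br (nat_lit 3) (nat_lit 0) (.cons (.ev (nat_lit 366040920709248923840034774847510) (nat_lit 5)) .nil)) .nil))) .nil)))),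
 (.br (nat_lit 2) (nat_lit 0) (.cons (.rf (nat_lit 1817) (nat_lit 493858305440581979200)) (.cons (.br (nat_lit 12) (nat_lit 0) (.cons (.br (nat_lit 3) (nat_lit 0) (.cons (.zr (nat_lit 928455029536093916954099712) (nat_lit 20282413244614675741992397373441) (nat_lit 5) (nat_lit 0)) .nil)) (.cons (.ev (nat_lit 20361638975110273178941524017153) (nat_lit 1)) .nil))) (.cons (.rf (nat_lit 636) (nat_lit 12309816771648)) .nil)))),
 (.br (nat_lit 2) (nat_lit 0) (.cons (.rf (nat_lit 1817) (nat_lit 493858305440581979200)) (.cons (.rf (nat_lit 1883) (nat_lit 493858305440582043680)) (.cons (.br (nat_lit 3) (nat_lit 0) (.cons (.br (nat_lit 3) (nat_lit 0) (.cons (.ev (nat_lit 20361637766184453563212837683456) (nat_lit 1)) .nil)) (.cons (.ev (nat_lit 20361637766184453563212837683456) (nat_lit 1)) .nil))) .nil)))),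
 (.br (nat_lit 4) (nat_lit 0) (.cons (.rf (nat_lit 1880) (nat_lit 493858305440582042688)) (.cons (.rf (nat_lit 1880) (nat_lit 493858305440582009952)) (.cons (.ev (nat_lit 310698676526525714563858433) (nat_lit 1)) (.cons (.br (nat_lit 2) (nat_lit 0) (.cons (.rf (nat_lit 1817) (nat_lit 493858305440581979200)) (.cons (.rf (nat_lit 1881) (nat_lit 493858305440582043680)) (.cons (.rf (nat_lit 1882) (nat_lit 493858305440582043680)) (.cons (.br (nat_lit 2) (nat_lit 0) (.cons (.rf (nat_lit 1817) (nat_lit 493858305440581979200)) (.cons (.rf (nat_lit 1881) (nat_lit 493858305440582043680)) (.cons (.rf (nat_lit 1882) (nat_lit 493858305440582043680)) .nil)))) .nil))))) (.cons (.br (nat_lit 2) (nat_lit 0) (.cons (.rf (nat_lit 1817) (nat_lit 493858305440581979200)) (.cons (.rf (nat_lit 1883) (nat_lit 493858305440582043680)) (.cons (.rf (nat_lit 1884) (nat_lit 493858305440582043680)) (.cons (.br (nat_lit 2) (nat_lit 0) (.cons (.rf (nat_lit 1817) (nat_lit 493858305440581979200)) (.cons (.rf (nat_lit 636) (nat_lit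 12309816771648)) (.cons (.rf (nat_lit 1884) (nat_lit 493858305440582043680)) .nil)))) .nil))))) .nil)))))),
 (.br (nat_lit 3) (nat_lit 0) (.cons (.rf (nat_lit 1817) (nat_lit 493858305440581979200)) (.cons (.rf (nat_lit 1880) (nat_lit 493858305440582009952)) (.cons (.rf (nat_lit 1885) (nat_lit 493858305440582043680)) (.cons (.br (nat_lit 4) (nat_lit 0) (.cons (.rf (nat_lit 1880) (nat_lit 493858305440582042688)) (.cons (.br (nat_lit 2) (nat_lit 0) (.cons (.br (nat_lit 2) (nat_lit 0) (.cons (.ev (nat_lit 20282719088680010570688018579456) (nat_lit 1)) .nil)) (.cons (.br (nat_lit 2) (nat_lit 0) (.cons (.ev (nat_lit 20282719088680010570688018579456) (nat_lit 1)) .nil)) .nil))) (.cons (.br (nat_lit 2) (nat_lit 0) (.cons (.br (nat_lit 2) (nat_lit 0) (.cons (.ev (nat_lit 20361948460101575721243006533888) (nat_lit 1)) .nil)) (.cons (.br (nat_lit 2) (nat_lit 0) (.cons (.ev (nat_lit 20361948460101575721243006533888) (nat_lit 1)) .nil)) .nil))) (.cons (.ev (nat_lit 20282410812577490038580737736704) (nat_lit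 1)) .nil))))) .nil))))),
 (.br (nat_lit 3) (nat_lit 0) (.cons (.rf (nat_lit 1817) (nat_lit 493858305440581979200)) (.cons (.rf (nat_lit 1880) (nat_lit 493858305440582009952)) (.cons (.rf (nat_lit 1885) (nat_lit 493858305440582043680)) (.cons (.rf (nat_lit 1886) (nat_lit 493858305440582043680)) (.cons (.br (nat_lit 3) (nat_lit 0) (.cons (.rf (nat_lit 1817) (nat_lit 493858305440581979200)) (.cons (.rf (nat_lit 1880) (nat_lit 493858305440582009952)) (.cons (.rf (nat_lit 1885) (nat_lit 493858305440582043680)) (.cons (.rf (nat_lit 1886) (nat_lit 493858305440582043680)) .nil))))) .nil)))))),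
 (.br (nat_lit 3) (nat_lit 0) (.cons (.rf (nat_lit 1817) (nat_lit 493858305440581979200)) (.cons (.rf (nat_lit 1880) (nat_lit 493858305440582009952)) (.cons (.rf (nat_lit 1885) (nat_lit 493858305440582043680)) (.cons (.rf (nat_lit 1887) (nat_lit 493858305440582043680)) (.cons (.br (nat_lit 3) (nat_lit 0) (.cons (.rf (nat_lit 1817) (nat_lit 493858305440581979200)) (.cons (.rf (nat_lit 1880) (nat_lit 493858305440582009952)) (.cons (.rf (nat_lit 1885) (nat_lit 493858305440582043680)) (.cons (.rf (nat_lit 1887) (nat_lit 493858305440582043680)) .nil))))) .nil)))))),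
 (.br (nat_lit 3) (nat_lit 0) (.cons (.rf (nat_lit 1817) (nat_lit 493858305440581979200)) (.cons (.rf (nat_lit 1880) (nat_lit 493858305440582009952)) (.cons (.rf (nat_lit 1885) (nat_lit 493858305440582043680)) (.cons (.rf (nat_lit 1887) (nat_lit 493858305440582043680)) (.cons (.rf (nat_lit 1888) (nat_lit 493858305440582043680)) (.cons (.br (nat_lit 3) (nat_lit 0) (.cons (.rf (nat_lit 1817) (nat_lit 493858305440581979200)) (.cons (.rf (nat_lit 1880) (nat_lit 493858305440582009952)) (.cons (.rf (nat_lit 1885) (nat_lit 493858305440582043680)) (.cons (.rf (nat_lit 1887) (nat_lit 493858305440582043680)) (.cons (.rf (nat_lit 1888) (nat_lit 493858305440582043680)) .nil)))))) .nil))))))),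
 (.br (nat_lit 2) (nat_lit 0) (.cons (.rf (nat_lit 1817) (nat_lit 493858305440581979200)) (.cons (.rf (nat_lit 1880) (nat_lit 493858305440582042688)) (.cons (.rf (nat_lit 1889) (nat_lit 493858305440582043680)) (.cons (.br (nat_lit 3) (nat_lit 0) (.cons (.rf (nat_lit 1880) (nat_lit 493858305440582009952)) (.cons (.rf (nat_lit 1889) (nat_lit 493858305440582011936)) (.cons (.kr (nat_lit 158457538676714772685907821056) (nat_lit 618970019714748830999248896) (nat_lit 1) (nat_lit 0)) (.cons (.rf (nat_lit 1889) (nat_lit 234483477374581115968)) .nil))))) .nil)))))]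

theorem c68 : chkAll C T R L68 (nat_lit 1866) = true := by decide +kernel

theorem l68 : (nat_lit 1866) + L68.length = (nat_lit 1891) := by decide +kernel

/-- part of the certificates -/
def L69 : List Prf := [(.br (nat_lit 2) (nat_lit 0) (.cons (.rf (nat_lit 1817) (nat_lit 493858305440581979200)) (.cons (.rf (nat_lit 1880) (nat_lit 493858305440582042688)) (.cons (.rf (nat_lit 1889) (nat_lit 493858305440582043680)) (.cons (.rf (nat_lit 1890) (nat_lit 493858305440582043680)) (.cons (.br (nat_lit 2) (nat_lit 0) (.cons (.rf (nat_lit 1817) (nat_lit 493858305440581979200)) (.cons (.rf (nat_lit 1880) (nat_lit 493858305440582042688)) (.cons (.rf (nat_lit 1889) (nat_lit 493858305440582043680)) (.cons (.rf (nat_lit 1890) (nat_lit 493858305440582043680)) .nil))))) .nil)))))),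
 (.br (nat_lit 3) (nat_lit 0) (.cons (.rf (nat_lit 1817) (nat_lit 493858305440581979200)) (.cons (.rf (nat_lit 1880) (nat_lit 493858305440582009952)) (.cons (.rf (nat_lit 1889) (nat_lit 493858305440582011936)) (.cons (.rf (nat_lit 1891) (nat_lit 493858305440582043680)) (.cons (.br (nat_lit 3) (nat_lit 0) (.cons (.rf (nat_lit 1817) (nat_lit 493858305440581979200)) (.cons (.rf (nat_lit 1880) (nat_lit 493858305440582009952)) (.cons (.rf (nat_lit 1889) (nat_lit 493858305440582011936)) (.cons (.rf (nat_lit 1891) (nat_lit 493858305440582043680)) .nil))))) .nil)))))),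
 (.br (nat_lit 3) (nat_lit 0) (.cons (.rf (nat_lit 1817) (nat_lit 493858305440581979200)) (.cons (.rf (nat_lit 1880) (nat_lit 493858305440582009952)) (.cons (.rf (nat_lit 1889) (nat_lit 493858305440582011936)) (.cons (.rf (nat_lit 1891) (nat_lit 493858305440582043680)) (.cons (.rf (nat_lit 1892) (nat_lit 493858305440582043680)) (.cons (.br (nat_lit 3) (nat_lit 0) (.cons (.rf (nat_lit 1817) (nat_lit 493858305440581979200)) (.cons (.rf (nat_lit 1880) (nat_lit 493858305440582009952)) (.cons (.rf (nat_lit 1889) (nat_lit 493858305440582011936)) (.cons (.rf (nat_lit 1891) (nat_lit 493858305440582043680)) (.cons (.rf (nat_lit 1892) (nat_lit 493858305440582043680)) .nil)))))) .nil))))))),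
 (.br (nat_lit 3) (nat_lit 0) (.cons (.rf (nat_lit 1817) (nat_lit 493858305440581979200)) (.cons (.rf (nat_lit 1880) (nat_lit 493858305440582009952)) (.cons (.rf (nat_lit 1889) (nat_lit 493858305440582011936)) (.cons (.rf (nat_lit 1893) (nat_lit 493858305440582011936)) (.cons (.br (nat_lit 3) (nat_lit 0) (.cons (.rf (nat_lit 1817) (nat_lit 493858305440581979200)) (.cons (.rf (nat_lit 1880) (nat_lit 493858305440582009952)) (.cons (.rf (nat_lit 1889) (nat_lit 493858305440582011936)) (.cons (.rf (nat_lit 1893) (nat_lit 493858305440582011936)) .nil))))) .nil)))))),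
 (.br (nat_lit 3) (nat_lit 0) (.cons (.rf (nat_lit 1817) (nat_lit 493858305440581979200)) (.cons (.rf (nat_lit 1880) (nat_lit 493858305440582009952)) (.cons (.rf (nat_lit 1889) (nat_lit 493858305440582011936)) (.cons (.rf (nat_lit 1893) (nat_lit 493858305440582011936)) (.cons (.rf (nat_lit 1894) (nat_lit 493858305440582043680)) (.cons (.br (nat_lit 3) (nat_lit 0) (.cons (.rf (nat_lit 1817) (nat_lit 493858305440581979200)) (.cons (.rf (nat_lit 1880) (nat_lit 493858305440582009952)) (.cons (.rf (nat_lit 1889) (nat_lit 493858305440582011936)) (.cons (.rf (nat_lit 1893) (nat_lit 493858305440582011936)) (.cons (.rf (nat_lit 1894) (nat_lit 493858305440582043680)) .nil)))))) .nil))))))),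
 (.br (nat_lit 2) (nat_lit 0) (.cons (.rf (nat_lit 1817) (nat_lit 493858305440581979200)) (.cons (.rf (nat_lit 1880) (nat_lit 493858305440582042688)) (.cons (.rf (nat_lit 1889) (nat_lit 493858305440582043680)) (.cons (.rf (nat_lit 1893) (nat_lit 493858305440582043680)) (.cons (.rf (nat_lit 1895) (nat_lit 493858305440582043680)) (.cons (.br (nat_lit 2) (nat_lit 0) (.cons (.rf (nat_lit 1817) (nat_lit 493858305440581979200)) (.cons (.rf (nat_lit 1880) (nat_lit 493858305440582042688)) (.cons (.rf (nat_lit 1889) (nat_lit 493858305440582043680)) (.cons (.rf (nat_lit 1893) (nat_lit 493858305440582043680)) (.cons (.rf (nat_lit 1895) (nat_lit 493858305440582043680)) .nil)))))) .nil))))))),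
 (.br (nat_lit 2) (nat_lit 0) (.cons (.rf (nat_lit 1817) (nat_lit 493858305440581979200)) (.cons (.rf (nat_lit 1880) (nat_lit 493858305440582042688)) (.cons (.rf (nat_lit 1889) (nat_lit 493858305440582043680)) (.cons (.rf (nat_lit 1893) (nat_lit 493858305440582043680)) (.cons (.rf (nat_lit 1895) (nat_lit 493858305440582043680)) (.cons (.rf (nat_lit 1896) (nat_lit 493858305440582043680)) (.cons (.br (nat_lit 2) (nat_lit 0) (.cons (.rf (nat_lit 1817) (nat_lit 493858305440581979200)) (.cons (.rf (nat_lit 1880) (nat_lit 493858305440582042688)) (.cons (.rf (nat_lit 1889) (nat_lit 493858305440582043680)) (.cons (.rf (nat_lit 1893) (nat_lit 493858305440582043680)) (.cons (.rf (nat_lit 1895) (nat_lit 493858305440582043680)) (.cons (.rf (nat_lit 1896) (nat_lit 493858305440582043680)) .nil))))))) .nil)))))))),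
 (.br (nat_lit 3) (nat_lit 0) (.cons (.rf (nat_lit 1880) (nat_lit 493858305440582009952)) (.cons (.rf (nat_lit 611) (nat_lit 14316143121157687328)) (.cons (.rf (nat_lit 1897) (nat_lit 235600370082169029728)) .nil)))),
 (.br (nat_lit 2) (nat_lit 0) (.cons (.rf (nat_lit 1817) (nat_lit 493858305440581979200)) (.cons (.ev (nat_lit 4722366764348916891904) (nat_lit 1)) (.cons (.br (nat_lit 3) (nat_lit 0) (.cons (.rf (nat_lit 1880) (nat_lit 493858305440582009952)) (.cons (.rf (nat_lit 1898) (nat_lit 493858305440582043680)) (.cons (.rf (nat_lit 1898) (nat_lit 492741412732994160672)) (.cons (.br (nat_lit 3) (nat_lit 0) (.cons (.ev (nat_lit 72339073326448896) (nat_lit 1)) (.cons (.rf (nat_lit 1897) (nat_lit 235600370082169029728)) (.cons (.rf (nat_lit 1897) (nat_lit 234483477374581146720)) .nil)))) .nil))))) (.cons (.br (nat_lit 4) (nat_lit 0) (.cons (.rf (nat_lit 1880) (nat_lit 493858305440582009952)) (.cons (.rf (nat_lit 636) (nat_lit 14508772918336)) (.cons (.br (nat_lit 12) (nat_lit 0) (.cons (.ev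 (nat_lit 20440869564939357301135154086400) (nat_lit 2)) (.cons (.ev (nat_lit 20440871992236018287268466000390) (nat_lit 3)) .nil))) .nil)))) .nil))))),
 (.br (nat_lit 2) (nat_lit 0) (.cons (.rf (nat_lit 1817) (nat_lit 493858305440581979200)) (.cons (.ev (nat_lit 4722366764348916891904) (nat_lit 1)) (.cons (.rf (nat_lit 1899) (nat_lit 493858305440582043680)) (.cons (.rf (nat_lit 1899) (nat_lit 492741412732994160672)) (.cons (.br (nat_lit 2) (nat_lit 0) (.cons (.rf (nat_lit 1817) (nat_lit 493858305440581979200)) (.cons (.ev (nat_lit 4722366764348916891904) (nat_lit 1)) (.cons (.rf (nat_lit 1899) (nat_lit 493858305440582043680)) (.cons (.rf (nat_lit 1899) (nat_lit 492741412732994160672)) .nil))))) .nil)))))),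
 (.br (nat_lit 2) (nat_lit 0) (.cons (.ev (nat_lit 4722366764348916891904) (nat_lit 1)) (.cons (.rf (nat_lit 1897) (nat_lit 493858305440582042688)) (.cons (.br (nat_lit 4) (nat_lit 0) (.cons (.ev (nat_lit 243866142390058132460021687388682) (nat_lit 4)) .nil)) .nil)))),
 (.br (nat_lit 3) (nat_lit 0) (.cons (.rf (nat_lit 1817) (nat_lit 493858305440581979200)) (.cons (.rf (nat_lit 1880) (nat_lit 493858305440582009952)) (.cons (.rf (nat_lit 1900) (nat_lit 493858305440582043680)) (.cons (.br (nat_lit 2) (nat_lit 0) (.cons (.ev (nat_lit 4722366764348916891904) (nat_lit 1)) (.cons (.rf (nat_lit 1900) (nat_lit 235600370082169031712)) (.cons (.rf (nat_lit 1901) (nat_lit 493858305440582043680)) (.cons (.rf (nat_lit 1901) (nat_lit 492741412732994160672)) .nil))))) .nil))))),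
 (.br (nat_lit 3) (nat_lit 0) (.cons (.rf (nat_lit 1817) (nat_lit 493858305440581979200)) (.cons (.rf (nat_lit 1880) (nat_lit 493858305440582009952)) (.cons (.rf (nat_lit 1900) (nat_lit 493858305440582043680)) (.cons (.rf (nat_lit 1902) (nat_lit 493858305440582043680)) (.cons (.br (nat_lit 3) (nat_lit 0) (.cons (.rf (nat_lit 1817) (nat_lit 493858305440581979200)) (.cons (.ev (nat_lit 20282410817299928579044404101376) (nat_lit 1)) (.cons (.rf (nat_lit 1897) (nat_lit 235600370082169029728)) (.cons (.rf (nat_lit 1902) (nat_lit 493858305440582043680)) .nil))))) .nil)))))),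
 (.br (nat_lit 3) (nat_lit 0) (.cons (.rf (nat_lit 1817) (nat_lit 493858305440581979200)) (.cons (.rf (nat_lit 1880) (nat_lit 493858305440582009952)) (.cons (.rf (nat_lit 1900) (nat_lit 493858305440582043680)) (.cons (.rf (nat_lit 1903) (nat_lit 493858305440582043680)) (.cons (.rf (nat_lit 1903) (nat_lit 492741412732994160672)) (.cons (.br (nat_lit 2) (nat_lit 0) (.cons (.rf (nat_lit 1817) (nat_lit 493858305440581979200)) (.cons (.ev (nat_lit 4722366764348916891904) (nat_lit 1)) (.cons (.rf (nat_lit 1900) (nat_lit 235600370082169031712)) (.cons (.rf (nat_lit 1903) (nat_lit 235600370082169031712)) (.cons (.rf (nat_lit 1903) (nat_lit 234483477374581148704)) .nil)))))) .nil))))))),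
 (.br (nat_lit 3) (nat_lit 0) (.cons (.rf (nat_lit 1817) (nat_lit 493858305440581979200)) (.cons (.rf (nat_lit 1880) (nat_lit 493858305440582009952)) (.cons (.rf (nat_lit 1904) (nat_lit 493858305440582011936)) (.cons (.br (nat_lit 3) (nat_lit 0) (.cons (.rf (nat_lit 1817) (nat_lit 493858305440581979200)) (.cons (.rf (nat_lit 1880) (nat_lit 493858305440582009952)) (.cons (.rf (nat_lit 1904) (nat_lit 493858305440582011936)) (.cons (.rf (nat_lit 1904) (nat_lit 235600370082169031712)) .nil))))) (.cons (.rf (nat_lit 1904) (nat_lit 235600370082169031712)) .nil)))))),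
 (.br (nat_lit 3) (nat_lit 0) (.cons (.rf (nat_lit 1817) (nat_lit 493858305440581979200)) (.cons (.rf (nat_lit 1880) (nat_lit 493858305440582009952)) (.cons (.rf (nat_lit 1904) (nat_lit 493858305440582011936)) (.cons (.rf (nat_lit 1905) (nat_lit 493858305440582043680)) (.cons (.rf (nat_lit 1905) (nat_lit 492741412732994160672)) (.cons (.rf (nat_lit 1904) (nat_lit 235600370082169031712)) .nil))))))),
 (.br (nat_lit 2) (nat_lit 0) (.cons (.rf (nat_lit 1817) (nat_lit 493858305440581979200)) (.cons (.rf (nat_lit 1880) (nat_lit 493858305440582042688)) (.cons (.rf (nat_lit 1904) (nat_lit 493858305440582043680)) (.cons (.rf (nat_lit 1906) (nat_lit 493858305440582043680)) (.cons (.br (nat_lit 2) (nat_lit 0) (.cons (.rf (nat_lit 1817) (nat_lit 493858305440581979200)) (.cons (.rf (nat_lit 1880) (nat_lit 493858305440582042688)) (.cons (.rf (nat_lit 1904) (nat_lit 493858305440582043680)) (.cons (.rf (nat_lit 1906) (nat_lit 493858305440582043680)) (.cons (.rf (nat_lit 1904) (nat_lit 235600370082169063456))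 .nil)))))) (.cons (.rf (nat_lit 1904) (nat_lit 235600370082169063456)) .nil))))))),
 (.br (nat_lit 1) (nat_lit 0) (.cons (.rf (nat_lit 1817) (nat_lit 493858305440582043680)) (.cons (.rf (nat_lit 1817) (nat_lit 493858305440582011936)) (.cons (.rf (nat_lit 1880) (nat_lit 493858305440582043680)) (.cons (.rf (nat_lit 1897) (nat_lit 493858305440582043680)) (.cons (.rf (nat_lit 1897) (nat_lit 492741412732994160672)) (.cons (.br (nat_lit 2) (nat_lit 0) (.cons (.rf (nat_lit 1817) (nat_lit 493858305440581979200)) (.cons (.rf (nat_lit 1880) (nat_lit 493858305440582042688)) (.cons (.rf (nat_lit 1904) (nat_lit 493858305440582043680)) (.cons (.rf (nat_lit 1906) (nat_lit 493858305440582043680)) (.cons (.rf (nat_lit 1907) (nat_lit 493858305440582043680)) (.cons (.rf (nat_lit 1907) (nat_lit 492741412732994160672)) (.cons (.rf (nat_lit 1904) (nat_lit 235600370082169063456)) .nil)))))))) .nil))))))),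
 (.br (nat_lit 2) (nat_lit 0) (.cons (.rf (nat_lit 1817) (nat_lit 493858305440581979200)) (.cons (.rf (nat_lit 636) (nat_lit 12313943966784)) (.cons (.rf (nat_lit 642) (nat_lit 13580892211232)) (.cons (.br (nat_lit 12) (nat_lit 0) (.cons (.br (nat_lit 3) (nat_lit 0) (.cons (.ev (nat_lit 79228167255149904709720014848) (nat_lit 1)) (.cons (.br (nat_lit 3) (nat_lit 0) (.cons (.ev (nat_lit 79228167255149904709720014848) (nat_lit 1)) .nil)) .nil))) (.cons (.br (nat_lit 3) (nat_lit 0) (.cons (.ev (nat_lit 20361638975110273178941524017153) (nat_lit 1)) .nil)) (.cons (.ev (nat_lit 79538856449977637464264671488) (nat_lit 1)) .nil)))) .nil))))),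
 (.br (nat_lit 2) (nat_lit 0) (.cons (.rf (nat_lit 1817) (nat_lit 493858305440581979200)) (.cons (.rf (nat_lit 1908) (nat_lit 493858305440582042688)) (.cons (.rf (nat_lit 1909) (nat_lit 493858305440582043680)) (.cons (.rf (nat_lit 1909) (nat_lit 492741412732994160672)) (.cons (.br (nat_lit 2) (nat_lit 0) (.cons (.rf (nat_lit 1817) (nat_lit 493858305440581979200)) (.cons (.rf (nat_lit 1908) (nat_lit 493858305440582042688)) (.cons (.rf (nat_lit 1909) (nat_lit 493858305440582043680)) (.cons (.rf (nat_lit 1909) (nat_lit 492741412732994160672)) .nil))))) .nil)))))),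
 (.br (nat_lit 2) (nat_lit 0) (.cons (.rf (nat_lit 1817) (nat_lit 493858305440581979200)) (.cons (.rf (nat_lit 636) (nat_lit 12313943966784)) (.cons (.rf (nat_lit 636) (nat_lit 13578811835456)) (.cons (.rf (nat_lit 1908) (nat_lit 235600370082169062464)) .nil))))),
 (.br (nat_lit 2) (nat_lit 0) (.cons (.rf (nat_lit 1817) (nat_lit 493858305440581979200)) (.cons (.rf (nat_lit 1908) (nat_lit 493858305440582042688)) (.cons (.rf (nat_lit 1911) (nat_lit 493858305440582043680)) (.cons (.rf (nat_lit 1911) (nat_lit 492741412732994160672)) (.cons (.rf (nat_lit 1908) (nat_lit 235600370082169062464)) .nil)))))),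
 (.br (nat_lit 2) (nat_lit 0) (.cons (.rf (nat_lit 1817) (nat_lit 493858305440581979200)) (.cons (.rf (nat_lit 1910) (nat_lit 493858305440582043680)) (.cons (.rf (nat_lit 1912) (nat_lit 493858305440582043680)) (.cons (.br (nat_lit 2) (nat_lit 0) (.cons (.rf (nat_lit 1817) (nat_lit 493858305440581979200)) (.cons (.rf (nat_lit 1910) (nat_lit 493858305440582043680)) (.cons (.rf (nat_lit 1908) (nat_lit 235600370082169062464)) .nil)))) .nil))))),
 (.br (nat_lit 3) (nat_lit 0) (.cons (.rf (nat_lit 1817) (nat_lit 493858305440581979200)) (.cons (.rf (nat_lit 1910) (nat_lit 493858305440582011936)) (.cons (.rf (nat_lit 1912) (nat_lit 493858305440582011936)) (.cons (.rf (nat_lit 1913) (nat_lit 493858305440582043680)) (.cons (.br (nat_lit 3) (nat_lit 0) (.cons (.rf (nat_lit 1817) (nat_lit 493858305440581979200)) (.cons (.rf (nat_lit 1910) (nat_lit 493858305440582011936)) (.cons (.rf (nat_lit 1908) (nat_lit 235600370082169029728)) (.cons (.rf (nat_lit 1913) (nat_lit 493858305440582043680)) .nil))))) .nil))))))]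

theorem c69 : chkAll C T R L69 (nat_lit 1891) = true := by decide +kernel

theorem l69 : (nat_lit 1891) + L69.length = (nat_lit 1915) := by decide +kernel

/-- part of the certificates -/
def L70 : List Prf := [(.br (nat_lit 2) (nat_lit 0) (.cons (.rf (nat_lit 1817) (nat_lit 493858305440581979200)) (.cons (.rf (nat_lit 1908) (nat_lit 493858305440582042688)) (.cons (.br (nat_lit 2) (nat_lit 0) (.cons (.rf (nat_lit 1817) (nat_lit 493858305440581979200)) (.cons (.rf (nat_lit 636) (nat_lit 13409261291552)) (.cons (.rf (nat_lit 636) (nat_lit 13414630000672)) .nil)))) (.cons (.br (nat_lit 2) (nat_lit 0) (.cons (.rf (nat_lit 1817) (nat_lit 493858305440581979200)) (.cons (.rf (nat_lit 1908) (nat_lit 493858305440582042688)) (.cons (.rf (nat_lit 636) (nat_lit 13414630000672)) .nil)))) .nil))))),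
 (.br (nat_lit 2) (nat_lit 0) (.cons (.rf (nat_lit 1817) (nat_lit 493858305440582043680)) (.cons (.rf (nat_lit 1817) (nat_lit 493858305440581979200)) (.cons (.rf (nat_lit 1908) (nat_lit 493858305440582042688)) (.cons (.br (nat_lit 2) (nat_lit 0) (.cons (.rf (nat_lit 1817) (nat_lit 493858305440582043680)) (.cons (.rf (nat_lit 1817) (nat_lit 493858305440581979200)) (.cons (.rf (nat_lit 1908) (nat_lit 493858305440582042688)) (.cons (.rf (nat_lit 1908) (nat_lit 235600370082169062464)) .nil))))) (.cons (.rf (nat_lit 1908) (nat_lit 235600370082169062464)) .nil)))))),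
 (.br (nat_lit 3) (nat_lit 0) (.cons (.rf (nat_lit 1817) (nat_lit 493858305440581979200)) (.cons (.rf (nat_lit 1915) (nat_lit 493858305440582011936)) (.cons (.rf (nat_lit 1916) (nat_lit 493858305440582011936)) (.cons (.br (nat_lit 3) (nat_lit 0) (.cons (.rf (nat_lit 1817) (nat_lit 493858305440581979200)) (.cons (.rf (nat_lit 1915) (nat_lit 493858305440582011936)) (.cons (.rf (nat_lit 1908) (nat_lit 235600370082169029728)) .nil)))) .nil))))),
 (.br (nat_lit 2) (nat_lit 0) (.cons (.rf (nat_lit 1817) (nat_lit 493858305440581979200)) (.cons (.rf (nat_lit 1915) (nat_lit 493858305440582043680)) (.cons (.rf (nat_lit 1916) (nat_lit 493858305440582043680)) (.cons (.rf (nat_lit 1917) (nat_lit 493858305440582043680)) (.cons (.br (nat_lit 2) (nat_lit 0) (.cons (.rf (nat_lit 1817) (nat_lit 493858305440581979200)) (.cons (.rf (nat_lit 1915) (nat_lit 493858305440582043680)) (.cons (.rf (nat_lit 1908) (nat_lit 235600370082169062464)) (.cons (.rf (nat_lit 1917) (nat_lit 493858305440582043680)) .nil))))) .nil)))))),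
 (.br (nat_lit 2) (nat_lit 0) (.cons (.rf (nat_lit 1817) (nat_lit 493858305440581979200)) (.cons (.rf (nat_lit 1908) (nat_lit 493858305440582042688)) (.cons (.rf (nat_lit 642) (nat_lit 13586260920352)) (.cons (.rf (nat_lit 636) (nat_lit 12314111738944)) .nil))))),
 (.br (nat_lit 2) (nat_lit 0) (.cons (.rf (nat_lit 1817) (nat_lit 493858305440581979200)) (.cons (.rf (nat_lit 1908) (nat_lit 493858305440582042688)) (.cons (.rf (nat_lit 1919) (nat_lit 493858305440582043680)) (.cons (.rf (nat_lit 1919) (nat_lit 492741412732994160672)) (.cons (.br (nat_lit 2) (nat_lit 0) (.cons (.rf (nat_lit 1817) (nat_lit 493858305440581979200)) (.cons (.rf (nat_lit 1908) (nat_lit 493858305440582042688)) (.cons (.rf (nat_lit 636) (nat_lit 12314111738944)) (.cons (.rf (nat_lit 636) (nat_lit 13412549624896)) .nil))))) .nil)))))),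
 (.br (nat_lit 2) (nat_lit 0) (.cons (.rf (nat_lit 1817) (nat_lit 493858305440581979200)) (.cons (.rf (nat_lit 1908) (nat_lit 493858305440582042688)) (.cons (.br (nat_lit 3) (nat_lit 0) (.cons (.rf (nat_lit 1920) (nat_lit 493858305440582011936)) (.cons (.br (nat_lit 3) (nat_lit 0) (.cons (.rf (nat_lit 1908) (nat_lit 493858305440582009952)) (.cons (.ev (nat_lit 20282410817299928579044404166913) (nat_lit 1)) .nil))) (.cons (.ev (nat_lit 20282410817299928579044404166913) (nat_lit 1)) .nil)))) (.cons (.rf (nat_lit 1908) (nat_lit 235600370082169062464)) .nil))))),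
 (.br (nat_lit 2) (nat_lit 0) (.cons (.rf (nat_lit 1817) (nat_lit 493858305440581979200)) (.cons (.rf (nat_lit 1908) (nat_lit 493858305440582042688)) (.cons (.rf (nat_lit 1921) (nat_lit 493858305440582043680)) (.cons (.rf (nat_lit 1921) (nat_lit 492741412732994160672)) (.cons (.rf (nat_lit 1908) (nat_lit 235600370082169062464)) .nil)))))),
 (.br (nat_lit 2) (nat_lit 0) (.cons (.rf (nat_lit 1817) (nat_lit 493858305440581979200)) (.cons (.rf (nat_lit 1920) (nat_lit 493858305440582043680)) (.cons (.rf (nat_lit 1922) (nat_lit 493858305440582043680)) (.cons (.br (nat_lit 3) (nat_lit 0) (.cons (.rf (nat_lit 1817) (nat_lit 493858305440581979200)) (.cons (.rf (nat_lit 1920) (nat_lit 493858305440582011936)) (.cons (.rf (nat_lit 1922) (nat_lit 493858305440582011936)) .nil)))) .nil))))),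
 (.br (nat_lit 3) (nat_lit 0) (.cons (.rf (nat_lit 1817) (nat_lit 493858305440581979200)) (.cons (.rf (nat_lit 1920) (nat_lit 493858305440582011936)) (.cons (.rf (nat_lit 1922) (nat_lit 493858305440582011936)) (.cons (.rf (nat_lit 1923) (nat_lit 493858305440582043680)) (.cons (.br (nat_lit 3) (nat_lit 0) (.cons (.rf (nat_lit 1817) (nat_lit 493858305440581979200)) (.cons (.rf (nat_lit 1920) (nat_lit 493858305440582011936)) (.cons (.rf (nat_lit 1908) (nat_lit 235600370082169029728)) (.cons (.rf (nat_lit 1923) (nat_lit 493858305440582043680)) .nil))))) .nil)))))),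
 (.br (nat_lit 4) (nat_lit 0) (.cons (.rf (nat_lit 1880) (nat_lit 493858305440582042688)) (.cons (.rf (nat_lit 1880) (nat_lit 493858305440582009952)) (.cons (.ev (nat_lit 72339073309606144) (nat_lit 1)) (.cons (.br (nat_lit 2) (nat_lit 0) (.cons (.rf (nat_lit 1817) (nat_lit 493858305440581979200)) (.cons (.rf (nat_lit 1910) (nat_lit 493858305440582043680)) (.cons (.rf (nat_lit 1912) (nat_lit 493858305440582043680)) (.cons (.rf (nat_lit 1914) (nat_lit 493858305440582043680)) (.cons (.rf (nat_lit 1914) (nat_lit 492741412732994160672)) (.cons (.br (nat_lit 2) (nat_lit 0) (.cons (.rf (nat_lit 1817) (nat_lit 493858305440581979200)) (.cons (.rf (nat_lit 1910) (nat_lit 493858305440582043680)) (.cons (.rf (nat_lit 1908) (nat_lit 235600370082169062464)) (.cons (.rf (nat_lit 1914) (nat_lit 493858305440582043680)) (.cons (.rf (nat_lit 1914) (nat_lit 492741412732994160672)) .nil)))))) .nil))))))) (.cons (.rf (nat_lit 1918) (nat_lit 493858305440582043680)) (.cons (.rf (nat_lit 1918) (nat_lit 492741412732994160672))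 (.cons (.br (nat_lit 2) (nat_lit 0) (.cons (.rf (nat_lit 1817) (nat_lit 493858305440581979200)) (.cons (.rf (nat_lit 1920) (nat_lit 493858305440582043680)) (.cons (.rf (nat_lit 1922) (nat_lit 493858305440582043680)) (.cons (.rf (nat_lit 1924) (nat_lit 493858305440582043680)) (.cons (.rf (nat_lit 1924) (nat_lit 492741412732994160672)) (.cons (.br (nat_lit 3) (nat_lit 0) (.cons (.rf (nat_lit 1817) (nat_lit 493858305440581979200)) (.cons (.rf (nat_lit 1920) (nat_lit 493858305440582011936)) (.cons (.rf (nat_lit 1922) (nat_lit 493858305440582011936)) (.cons (.rf (nat_lit 1924) (nat_lit 493858305440582011936)) (.cons (.rf (nat_lit 1924) (nat_lit 492741412732994128928)) .nil)))))) .nil))))))) .nil)))))))),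
 (.br (nat_lit 2) (nat_lit 0) (.cons (.rf (nat_lit 1817) (nat_lit 493858305440581979200)) (.cons (.rf (nat_lit 1880) (nat_lit 493858305440582042688)) (.cons (.rf (nat_lit 1908) (nat_lit 493858305440582042688)) (.cons (.rf (nat_lit 1925) (nat_lit 493858305440582042688)) (.cons (.br (nat_lit 4) (nat_lit 0) (.cons (.ev (nat_lit 20282413230429202169862333530626) (nat_lit 2)) (.cons (.rf (nat_lit 642) (nat_lit 14680403839008)) (.cons (.rf (nat_lit 642) (nat_lit 14684698806304)) .nil)))) .nil)))))),
 (.br (nat_lit 2) (nat_lit 0) (.cons (.rf (nat_lit 1817) (nat_lit 493858305440581979200)) (.cons (.rf (nat_lit 1880) (nat_lit 493858305440582042688)) (.cons (.rf (nat_lit 1908) (nat_lit 493858305440582042688)) (.cons (.rf (nat_lit 1925) (nat_lit 493858305440582042688)) (.cons (.br (nat_lit 4) (nat_lit 0) (.cons (.rf (nat_lit 1880) (nat_lit 493858305440582009952)) (.cons (.ev (nat_lit 20282418085022379468380384133632) (nat_lit 3)) (.cons (.rf (nat_lit 636) (nat_lit 14513067886624)) (.cons (.rf (nat_lit 636)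 (nat_lit 14512027698240)) .nil))))) .nil)))))),
 (.br (nat_lit 2) (nat_lit 0) (.cons (.rf (nat_lit 1817) (nat_lit 493858305440581979200)) (.cons (.rf (nat_lit 1880) (nat_lit 493858305440582042688)) (.cons (.rf (nat_lit 1908) (nat_lit 493858305440582042688)) (.cons (.rf (nat_lit 1926) (nat_lit 493858305440582043680)) (.cons (.rf (nat_lit 1927) (nat_lit 493858305440582043680)) (.cons (.br (nat_lit 2) (nat_lit 0) (.cons (.rf (nat_lit 1817) (nat_lit 493858305440581979200)) (.cons (.ev (nat_lit 20282409608374037754548951580672) (nat_lit 2)) (.cons (.rf (nat_lit 1908) (nat_lit 493858305440582042688)) (.cons (.rf (nat_lit 1926) (nat_lit 493858305440582043680)) (.cons (.rf (nat_lit 1927) (nat_lit 493858305440582043680)) .nil)))))) .nil))))))),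
 (.br (nat_lit 3) (nat_lit 0) (.cons (.rf (nat_lit 1880) (nat_lit 493858305440582009952)) (.cons (.rf (nat_lit 1908) (nat_lit 493858305440582009952)) (.cons (.br (nat_lit 3) (nat_lit 0) (.cons (.rf (nat_lit 1880) (nat_lit 493858305440582009952)) (.cons (.rf (nat_lit 1908) (nat_lit 493858305440582009952)) (.cons (.rf (nat_lit 1908) (nat_lit 235600370082169029728)) .nil)))) (.cons (.rf (nat_lit 1908) (nat_lit 235600370082169029728)) .nil))))),
 (.br (nat_lit 2) (nat_lit 0) (.cons (.rf (nat_lit 1817) (nat_lit 493858305440581979200)) (.cons (.rf (nat_lit 1880) (nat_lit 493858305440582042688)) (.cons (.rf (nat_lit 1908) (nat_lit 493858305440582042688)) (.cons (.br (nat_lit 3) (nat_lit 0) (.cons (.rf (nat_lit 1880) (nat_lit 493858305440582009952)) (.cons (.rf (nat_lit 1928) (nat_lit 493858305440582011936)) (.cons (.rf (nat_lit 1929) (nat_lit 493858305440582043680)) (.cons (.br (nat_lit 3) (nat_lit 0) (.cons (.rf (nat_lit 1880) (nat_lit 493858305440582009952)) (.cons (.rf (nat_lit 1928) (nat_lit 493858305440582011936))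 (.cons (.rf (nat_lit 1929) (nat_lit 493858305440582043680)) (.cons (.rf (nat_lit 1928) (nat_lit 235600370082169031712)) .nil))))) (.cons (.rf (nat_lit 1928) (nat_lit 235600370082169031712)) .nil)))))) (.cons (.rf (nat_lit 1908) (nat_lit 235600370082169062464)) .nil)))))),
 (.br (nat_lit 2) (nat_lit 0) (.cons (.rf (nat_lit 1817) (nat_lit 493858305440581979200)) (.cons (.rf (nat_lit 1880) (nat_lit 493858305440582042688)) (.cons (.rf (nat_lit 1908) (nat_lit 493858305440582042688)) (.cons (.rf (nat_lit 1930) (nat_lit 493858305440582043680)) (.cons (.br (nat_lit 2) (nat_lit 0) (.cons (.rf (nat_lit 1817) (nat_lit 493858305440581979200)) (.cons (.rf (nat_lit 1880) (nat_lit 493858305440582042688)) (.cons (.rf (nat_lit 1908) (nat_lit 493858305440582042688)) (.cons (.rf (nat_lit 1930) (nat_lit 493858305440582043680)) (.cons (.rf (nat_lit 1908) (nat_lit 235600370082169062464)) .nil)))))) (.cons (.rf (nat_lit 1908) (nat_lit 235600370082169062464)) .nil))))))),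
 (.br (nat_lit 3) (nat_lit 0) (.cons (.rf (nat_lit 1817) (nat_lit 493858305440581979200)) (.cons (.rf (nat_lit 1880) (nat_lit 493858305440582009952)) (.cons (.rf (nat_lit 1928) (nat_lit 493858305440582011936)) (.cons (.rf (nat_lit 1931) (nat_lit 493858305440582011936)) (.cons (.br (nat_lit 3) (nat_lit 0) (.cons (.rf (nat_lit 1817) (nat_lit 493858305440581979200)) (.cons (.rf (nat_lit 1880) (nat_lit 493858305440582009952)) (.cons (.rf (nat_lit 1928) (nat_lit 493858305440582011936)) (.cons (.rf (nat_lit 1931) (nat_lit 493858305440582011936)) (.cons (.rf (nat_lit 1928) (nat_lit 235600370082169031712)) .nil)))))) (.cons (.rf (nat_lit 1928) (nat_lit 235600370082169031712)) .nil))))))),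
 (.br (nat_lit 1) (nat_lit 0) (.cons (.rf (nat_lit 1817) (nat_lit 493858305440582043680)) (.cons (.rf (nat_lit 1817) (nat_lit 493858305440582011936)) (.cons (.rf (nat_lit 1880) (nat_lit 493858305440582043680)) (.cons (.rf (nat_lit 1908) (nat_lit 493858305440582043680)) (.cons (.rf (nat_lit 1925) (nat_lit 493858305440582043680)) (.cons (.br (nat_lit 2) (nat_lit 0) (.cons (.rf (nat_lit 1817) (nat_lit 493858305440581979200)) (.cons (.rf (nat_lit 1880) (nat_lit 493858305440582042688)) (.cons (.rf (nat_lit 1928) (nat_lit 493858305440582043680)) (.cons (.rf (nat_lit 1931) (nat_lit 493858305440582043680)) (.cons (.rf (nat_lit 1932) (nat_lit 493858305440582043680)) (.cons (.br (nat_lit 2) (nat_lit 0) (.cons (.rf (nat_lit 1817) (nat_lit 493858305440581979200)) (.cons (.rf (nat_lit 1880) (nat_lit 493858305440582042688)) (.cons (.rf (nat_lit 1928) (nat_lit 493858305440582043680)) (.cons (.rf (nat_lit 1931) (nat_lit 493858305440582043680)) (.cons (.rf (nat_lit 1932) (nat_lit 493858305440582043680)) (.cons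 (.rf (nat_lit 1928) (nat_lit 235600370082169063456)) .nil))))))) (.cons (.rf (nat_lit 1928) (nat_lit 235600370082169063456)) .nil)))))))) .nil))))))),
 (.br (nat_lit 1) (nat_lit 0) (.cons (.rf (nat_lit 1817) (nat_lit 493858305440582043680)) (.cons (.rf (nat_lit 1817) (nat_lit 493858305440582011936)) (.cons (.rf (nat_lit 1880) (nat_lit 493858305440582043680)) (.cons (.rf (nat_lit 1908) (nat_lit 493858305440582043680)) (.cons (.rf (nat_lit 1933) (nat_lit 493858305440582043680)) (.cons (.rf (nat_lit 1933) (nat_lit 492741412732994160672)) (.cons (.br (nat_lit 1) (nat_lit 0) (.cons (.rf (nat_lit 1817) (nat_lit 493858305440582043680)) (.cons (.rf (nat_lit 1817) (nat_lit 493858305440582011936)) (.cons (.rf (nat_lit 1880) (nat_lit 493858305440582043680)) (.cons (.rf (nat_lit 1908) (nat_lit 493858305440582043680)) (.cons (.rf (nat_lit 1933) (nat_lit 493858305440582043680)) (.cons (.rf (nat_lit 1933) (nat_lit 492741412732994160672)) .nil))))))) .nil)))))))),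
 (.br (nat_lit 2) (nat_lit 0) (.cons (.rf (nat_lit 1817) (nat_lit 493858305440581979200)) (.cons (.rf (nat_lit 1880) (nat_lit 493858305440582042688)) (.cons (.rf (nat_lit 1934) (nat_lit 493858305440582042688)) (.cons (.br (nat_lit 3) (nat_lit 0) (.cons (.rf (nat_lit 1817) (nat_lit 493858305440581979200)) (.cons (.rf (nat_lit 1880) (nat_lit 493858305440582009952)) (.cons (.rf (nat_lit 1934) (nat_lit 493858305440582009952)) (.cons (.rf (nat_lit 1934) (nat_lit 235600370082169029728)) .nil))))) (.cons (.rf (nat_lit 1934) (nat_lit 235600370082169062464)) .nil)))))),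
 (.br (nat_lit 3) (nat_lit 0) (.cons (.rf (nat_lit 1817) (nat_lit 493858305440581979200)) (.cons (.rf (nat_lit 1880) (nat_lit 493858305440582009952)) (.cons (.rf (nat_lit 1934) (nat_lit 493858305440582009952)) (.cons (.rf (nat_lit 1935) (nat_lit 493858305440582043680)) (.cons (.rf (nat_lit 1935) (nat_lit 492741412732994160672)) (.cons (.rf (nat_lit 1934) (nat_lit 235600370082169029728)) .nil)))))))]

theorem c70 : chkAll C T R L70 (nat_lit 1915) = true := by decide +kernel

theorem l70 : (nat_lit 1915) + L70.length = (nat_lit 1937) := by decide +kernel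

/-- part of the certificates -/
def L71 : List Prf := [(.br (nat_lit 3) (nat_lit 0) (.cons (.rf (nat_lit 1817) (nat_lit 493858305440581979200)) (.cons (.rf (nat_lit 1880) (nat_lit 493858305440582009952)) (.cons (.rf (nat_lit 1934) (nat_lit 493858305440582009952)) (.cons (.rf (nat_lit 1936) (nat_lit 493858305440582011936)) (.cons (.br (nat_lit 2) (nat_lit 0) (.cons (.rf (nat_lit 1817) (nat_lit 493858305440581979200)) (.cons (.rf (nat_lit 1880) (nat_lit 493858305440582042688)) (.cons (.rf (nat_lit 1934) (nat_lit 493858305440582042688)) (.cons (.rf (nat_lit 1936) (nat_lit 493858305440582043680)) (.cons (.rf (nat_lit 1934) (nat_lit 235600370082169062464)) .nil)))))) (.cons (.rf (nat_lit 1934) (nat_lit 235600370082169029728)) .nil))))))),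
 (.br (nat_lit 1) (nat_lit 0) (.cons (.rf (nat_lit 1817) (nat_lit 493858305440582043680)) (.cons (.rf (nat_lit 1817) (nat_lit 493858305440582011936)) (.cons (.rf (nat_lit 1880) (nat_lit 493858305440582043680)) (.cons (.rf (nat_lit 1934) (nat_lit 493858305440582043680)) (.cons (.br (nat_lit 2) (nat_lit 0) (.cons (.rf (nat_lit 1817) (nat_lit 493858305440581979200)) (.cons (.rf (nat_lit 1880) (nat_lit 493858305440582042688)) (.cons (.rf (nat_lit 1934) (nat_lit 493858305440582042688)) (.cons (.rf (nat_lit 1936) (nat_lit 493858305440582043680)) (.cons (.rf (nat_lit 1937) (nat_lit 493858305440582043680)) (.cons (.rf (nat_lit 1937) (nat_lit 492741412732994160672)) (.cons (.rf (nat_lit 1934) (nat_lit 235600370082169062464)) .nil)))))))) (.cons (.rf (nat_lit 1934) (nat_lit 235600370082169063456)) .nil))))))),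
 (.br (nat_lit 1) (nat_lit 0) (.cons (.rf (nat_lit 1817) (nat_lit 493858305440582043680)) (.cons (.rf (nat_lit 1817) (nat_lit 493858305440582011936)) (.cons (.rf (nat_lit 1880) (nat_lit 493858305440582043680)) (.cons (.rf (nat_lit 1934) (nat_lit 493858305440582043680)) (.cons (.rf (nat_lit 1938) (nat_lit 493858305440582043680)) (.cons (.rf (nat_lit 1938) (nat_lit 492741412732994160672)) (.cons (.rf (nat_lit 1934) (nat_lit 235600370082169063456)) .nil)))))))),
 (.br (nat_lit 1) (nat_lit 0) (.cons (.rf (nat_lit 1817) (nat_lit 493858305440582043680)) (.cons (.rf (nat_lit 1817) (nat_lit 493858305440582011936)) (.cons (.rf (nat_lit 1880) (nat_lit 493858305440582043680)) (.cons (.rf (nat_lit 1934) (nat_lit 493858305440582043680)) (.cons (.rf (nat_lit 1939) (nat_lit 493858305440582043680)) (.cons (.br (nat_lit 1) (nat_lit 0) (.cons (.rf (nat_lit 1817) (nat_lit 493858305440582043680)) (.cons (.rf (nat_lit 1817) (nat_lit 493858305440582011936)) (.cons (.rf (nat_lit 1880) (nat_lit 493858305440582043680))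 (.cons (.rf (nat_lit 1934) (nat_lit 493858305440582043680)) (.cons (.rf (nat_lit 1939) (nat_lit 493858305440582043680)) (.cons (.rf (nat_lit 1934) (nat_lit 235600370082169063456)) .nil))))))) (.cons (.rf (nat_lit 1934) (nat_lit 235600370082169063456)) .nil)))))))),
 (.br (nat_lit 13) (nat_lit 1) (.cons (.br (nat_lit 4) (nat_lit 1) (.cons (.br (nat_lit 1) (nat_lit 0) (.cons (.rf (nat_lit 1817) (nat_lit 493858305440582043680)) (.cons (.rf (nat_lit 1817) (nat_lit 493858305440582011936)) (.cons (.rf (nat_lit 1880) (nat_lit 493858305440582043680)) (.cons (.rf (nat_lit 1934) (nat_lit 493858305440582043680)) (.cons (.rf (nat_lit 1939) (nat_lit 493858305440582043680)) (.cons (.rf (nat_lit 1940) (nat_lit 493858305440582043680)) (.cons (.rf (nat_lit 1940) (nat_lit 492741412732994160672)) (.cons (.rf (nat_lit 1934) (nat_lit 235600370082169063456)) .nil))))))))) .nil)) .nil)),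
 (.br (nat_lit 12) (nat_lit 1) (.cons (.rf (nat_lit 1941) (nat_lit 493858305440582043680)) (.cons (.br (nat_lit 13) (nat_lit 1) (.cons (.rf (nat_lit 1941) (nat_lit 458117738797769787424)) (.cons (.rf (nat_lit 1941) (nat_lit 421260206950469175328)) .nil))) .nil))),
 (.br (nat_lit 0) (nat_lit 0) (.cons (.br (nat_lit 4) (nat_lit 1) (.cons (.br (nat_lit 5) (nat_lit 0) (.cons (.br (nat_lit 6) (nat_lit 1) (.cons (.br (nat_lit 5) (nat_lit 0) (.cons (.br (nat_lit 7) (nat_lit 1) (.cons (.rf (nat_lit 677) (nat_lit 9043225708576)) (.cons (.br (nat_lit 5) (nat_lit 1) (.cons (.br (nat_lit 8) (nat_lit 1) (.cons (.rf (nat_lit 1057) (nat_lit 11584701642934304)) (.cons (.br (nat_lit 10) (nat_lit 0) (.cons (.rf (nat_lit 1394) (nat_lit 11584701642934304)) (.cons (.br (nat_lit 10) (nat_lit 0) (.cons (.rf (nat_lit 1394) (nat_lit 11584701642934304)) (.cons (.br (nat_lit 10) (nat_lit 0) (.cons (.rf (nat_lit 1394) (nat_lit 11584701642934304)) (.cons (.br (nat_lit 11) (nat_lit 1) (.cons (.rf (nat_lit 1942) (nat_lit 493858305440582043680))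 (.cons (.rf (nat_lit 1942) (nat_lit 493858232943681570848)) .nil))) .nil))) .nil))) .nil))) (.cons (.rf (nat_lit 677) (nat_lit 6949429151776)) .nil)))) .nil)) .nil))) .nil)) .nil)) .nil)) .nil)) .nil)),
 (.br (nat_lit 13) (nat_lit 0) (.cons (.ev (nat_lit 309485009821626543718268929) (nat_lit 1)) (.cons (.ev (nat_lit 309489750634573111608016896) (nat_lit 1)) (.cons (.br (nat_lit 13) (nat_lit 0) (.cons (.ev (nat_lit 309485009821626543718268929) (nat_lit 1)) (.cons (.ev (nat_lit 309489750634573111608016896) (nat_lit 1)) .nil))) .nil)))),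
 (.br (nat_lit 10) (nat_lit 0) (.cons (.br (nat_lit 11) (nat_lit 0) (.cons (.zr (nat_lit 621387871426034588203483138) (nat_lit 9481627020135197836032) (nat_lit 5) (nat_lit 1)) (.cons (.rf (nat_lit 1944) (nat_lit 493858305440582043680)) .nil))) (.cons (.br (nat_lit 12) (nat_lit 0) (.cons (.rf (nat_lit 1944) (nat_lit 493823368321170636834)) (.cons (.br (nat_lit 12) (nat_lit 0) (.cons (.rf (nat_lit 1944) (nat_lit 493823368321170636834)) .nil)) .nil))) .nil))),
 (.br (nat_lit 11) (nat_lit 0) (.cons (.rf (nat_lit 1945) (nat_lit 14242959524133701664)) (.cons (.kr (nat_lit 158456325028528675191382867968) (nat_lit 4740813508418331475968) (nat_lit 4) (nat_lit 0)) (.cons (.br (nat_lit 11) (nat_lit 0) (.cons (.rf (nat_lit 1945) (nat_lit 14242959524133701664)) (.cons (.kr (nat_lit 158456325028528675191382867968) (nat_lit 4740813508418331475968) (nat_lit 4) (nat_lit 0)) .nil))) .nil)))),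
 (.br (nat_lit 6) (nat_lit 0) (.cons (.br (nat_lit 6) (nat_lit 0) .nil) .nil)),
 (.br (nat_lit 10) (nat_lit 0) (.cons (.rf (nat_lit 1947) (nat_lit 362021891704864)) (.cons (.br (nat_lit 10) (nat_lit 0) (.cons (.rf (nat_lit 1947) (nat_lit 362021891704864)) .nil)) .nil))),
 (.br (nat_lit 12) (nat_lit 0) (.cons (.kr (nat_lit 18446744073709551616) (nat_lit 79228162514264337593543950336) (nat_lit 8) (nat_lit 0)) (.cons (.ev (nat_lit 79537652246452447006907498496) (nat_lit 1)) .nil))),
 (.br (nat_lit 10) (nat_lit 0) (.cons (.rf (nat_lit 1949) (nat_lit 493858305440582043680)) (.cons (.br (nat_lit 10) (nat_lit 0) (.cons (.rf (nat_lit 1949) (nat_lit 493858305440582043680)) .nil)) .nil))),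
 (.br (nat_lit 10) (nat_lit 0) (.cons (.rf (nat_lit 1947) (nat_lit 468645728912448)) (.cons (.rf (nat_lit 1949) (nat_lit 493858305440582043680)) .nil))),
 (.br (nat_lit 10) (nat_lit 0) (.cons (.br (nat_lit 11) (nat_lit 0) (.cons (.ev (nat_lit 79537652246452447006907498496) (nat_lit 1)) (.cons (.br (nat_lit 13) (nat_lit 0) (.cons (.kr (nat_lit 79229371440084233697712144384) (nat_lit 309489732259886631919550464) (nat_lit 3) (nat_lit 0)) .nil)) .nil))) (.cons (.ev (nat_lit 1208925891673322724327424) (nat_lit 1)) (.cons (.rf (nat_lit 1948) (nat_lit 14996623896773696)) .nil)))),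
 (.br (nat_lit 7) (nat_lit 0) (.cons (.kr (nat_lit 618974760600034467903438850) (nat_lit 158458742880168185924742676480) (nat_lit 0) (nat_lit 1)) (.cons (.ev (nat_lit 1213666704900266079027201) (nat_lit 1)) .nil))),
 (.br (nat_lit 10) (nat_lit 0) (.cons (.rf (nat_lit 1952) (nat_lit 14242959524133701664)) (.cons (.br (nat_lit 7) (nat_lit 0) (.cons (.ev (nat_lit 79537647542532708210971770881) (nat_lit 1)) (.cons (.br (nat_lit 13) (nat_lit 0) (.cons (.br (nat_lit 13) (nat_lit 0) .nil) .nil)) .nil))) (.cons (.br (nat_lit 13) (nat_lit 0) (.cons (.ev (nat_lit 1213666704900266079027201) (nat_lit 1)) (.cons (.rf (nat_lit 1953) (nat_lit 493858305440582043680)) (.cons (.br (nat_lit 13) (nat_lit 0) (.cons (.ev (nat_lit 1213666704900266079027201) (nat_lit 1)) (.cons (.rf (nat_lit 1953) (nat_lit 493858305440582043680)) .nil))) .nil)))) .nil)))),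
 (.br (nat_lit 2) (nat_lit 0) (.cons (.br (nat_lit 10) (nat_lit 0) (.cons (.rf (nat_lit 1945) (nat_lit 14242959524133701664)) (.cons (.rf (nat_lit 1946) (nat_lit 14242959524133701664)) (.cons (.br (nat_lit 10) (nat_lit 0) (.cons (.rf (nat_lit 1945) (nat_lit 14242959524133701664)) (.cons (.rf (nat_lit 1946) (nat_lit 14242959524133701664)) .nil))) .nil)))) (.cons (.kr (nat_lit 18447025548686262274) (nat_lit 4722366482873940312064) (nat_lit 0) (nat_lit 1)) (.cons (.br (nat_lit 11) (nat_lit 0) (.cons (.ev (nat_lit 309489750634853487073099776) (nat_lit 1)) (.cons (.ev (nat_lit 309489750634572016391290881) (nat_lit 1)) (.cons (.br (nat_lit 12) (nat_lit 0) (.cons (.kr (nat_lit 158456325028528956662064611330) (nat_lit 4740813226947649863680) (nat_lit 0) (nat_lit 1)) (.cons (.kr (nat_lit 158456325028528675191382867968) (nat_lit 4740813508418331475968) (nat_lit 4) (nat_lit 0)) (.cons (.rf (nat_lit 1948) (nat_lit 15071356161984544)) .nil)))) (.cons (.br (nat_lit 13) (nat_lit 0) (.cons (.rf (nat_lit 1950)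 (nat_lit 493858305440582043680)) (.cons (.rf (nat_lit 1951) (nat_lit 493858305440582043680)) (.cons (.br (nat_lit 13) (nat_lit 0) (.cons (.rf (nat_lit 1950) (nat_lit 493858305440582043680)) (.cons (.rf (nat_lit 1951) (nat_lit 493858305440582043680)) .nil))) .nil)))) .nil))))) (.cons (.br (nat_lit 10) (nat_lit 0) (.cons (.rf (nat_lit 1952) (nat_lit 14242959524133701664)) (.cons (.rf (nat_lit 1954) (nat_lit 14242959524133701664)) (.cons (.br (nat_lit 10) (nat_lit 0) (.cons (.ev (nat_lit 1208925891673322724327424) (nat_lit 1)) (.cons (.rf (nat_lit 1954) (nat_lit 14242959524133701664)) (.cons (.rf (nat_lit 1948) (nat_lit 15002121289173024)) .nil)))) (.cons (.br (nat_lit 10) (nat_lit 0) (.cons (.rf (nat_lit 1948) (nat_lit 14996623896773696)) (.cons (.rf (nat_lit 1954) (nat_lit 14242959524133701664)) (.cons (.rf (nat_lit 1948) (nat_lit 15002121289173024)) .nil)))) .nil))))) (.cons (.rf (nat_lit 1943) (nat_lit 427010)) .nil)))))),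
 (.br (nat_lit 12) (nat_lit 0) (.cons (.kr (nat_lit 18446744073709551617) (nat_lit 79228162514264337593543950592) (nat_lit 0) (nat_lit 2)) (.cons (.ev (nat_lit 79537652246452447006907498753) (nat_lit 1)) .nil))),
 (.br (nat_lit 10) (nat_lit 0) (.cons (.rf (nat_lit 1956) (nat_lit 493858305440582043680)) (.cons (.br (nat_lit 10) (nat_lit 0) (.cons (.rf (nat_lit 1956) (nat_lit 493858305440582043680)) .nil)) .nil))),
 (.br (nat_lit 10) (nat_lit 0) (.cons (.rf (nat_lit 1947) (nat_lit 468577009500225)) (.cons (.rf (nat_lit 1956) (nat_lit 493858305440582043680)) .nil))),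
 (.br (nat_lit 10) (nat_lit 0) (.cons (.br (nat_lit 11) (nat_lit 0) (.cons (.ev (nat_lit 79537652246452447006907498753) (nat_lit 1)) (.cons (.br (nat_lit 13) (nat_lit 0) (.cons (.kr (nat_lit 309489732259886631919550465) (nat_lit 79229371440084233697712144640) (nat_lit 0) (nat_lit 2)) .nil)) .nil))) (.cons (.ev (nat_lit 1208925891673322724327424) (nat_lit 1)) (.cons (.rf (nat_lit 1948) (nat_lit 14994424873582657)) .nil)))),
 (.br (nat_lit 9) (nat_lit 0) (.cons (.br (nat_lit 9) (nat_lit 0) .nil) .nil)),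
 (.br (nat_lit 5) (nat_lit 0) (.cons (.kr (nat_lit 618974760600034467903438850) (nat_lit 158458742880168185924742676480) (nat_lit 0) (nat_lit 1)) (.cons (.ev (nat_lit 1213666704900266079027201) (nat_lit 1)) .nil))),
 (.br (nat_lit 10) (nat_lit 0) (.cons (.rf (nat_lit 1959) (nat_lit 14242959524133701664)) (.cons (.br (nat_lit 5) (nat_lit 0) (.cons (.ev (nat_lit 79537647542532708210971771136) (nat_lit 1)) (.cons (.rf (nat_lit 1960) (nat_lit 470979911452704)) .nil))) (.cons (.br (nat_lit 13) (nat_lit 0) (.cons (.ev (nat_lit 1213666704900266079027201) (nat_lit 1)) (.cons (.rf (nat_lit 1961) (nat_lit 493858305440582043680)) (.cons (.br (nat_lit 13) (nat_lit 0) (.cons (.ev (nat_lit 1213666704900266079027201) (nat_lit 1)) (.cons (.rf (nat_lit 1961) (nat_lit 493858305440582043680)) .nil))) .nil)))) .nil)))),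
 (.br (nat_lit 2) (nat_lit 0) (.cons (.rf (nat_lit 1955) (nat_lit 14242959524133701664)) (.cons (.kr (nat_lit 18447025548686262784) (nat_lit 4722366482873940312064) (nat_lit 1) (nat_lit 0)) (.cons (.br (nat_lit 11) (nat_lit 0) (.cons (.ev (nat_lit 309489750634853487073099776) (nat_lit 1)) (.cons (.ev (nat_lit 309489750634572016391290881) (nat_lit 1)) (.cons (.br (nat_lit 12) (nat_lit 0) (.cons (.kr (nat_lit 4740813226947649863682) (nat_lit 158456325028528956662064612352) (nat_lit 0) (nat_lit 3)) (.cons (.kr (nat_lit 158456325028528675191382867968) (nat_lit 4740813508418331475968) (nat_lit 4) (nat_lit 0)) (.cons (.rf (nat_lit 1948) (nat_lit 15071356096972801)) .nil)))) (.cons (.br (nat_lit 13) (nat_lit 0) (.cons (.rf (nat_lit 1957) (nat_lit 493858305440582043680)) (.cons (.rf (nat_lit 1958) (nat_lit 493858305440582043680)) (.cons (.br (nat_lit 13) (nat_lit 0) (.cons (.rf (nat_lit 1957) (nat_lit 493858305440582043680)) (.cons (.rf (nat_lit 1958) (nat_lit 493858305440582043680)) .nil))) .nil))))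 .nil))))) (.cons (.br (nat_lit 10) (nat_lit 0) (.cons (.rf (nat_lit 1959) (nat_lit 14242959524133701664)) (.cons (.rf (nat_lit 1962) (nat_lit 14242959524133701664)) (.cons (.br (nat_lit 10) (nat_lit 0) (.cons (.ev (nat_lit 1208925891673322724327424) (nat_lit 1)) (.cons (.rf (nat_lit 1962) (nat_lit 14242959524133701664)) (.cons (.rf (nat_lit 1948) (nat_lit 15002121224161281)) .nil)))) (.cons (.br (nat_lit 10) (nat_lit 0) (.cons (.rf (nat_lit 1948) (nat_lit 14994424873582657)) (.cons (.rf (nat_lit 1962) (nat_lit 14242959524133701664)) (.cons (.rf (nat_lit 1948) (nat_lit 15002121224161281)) .nil)))) .nil))))) (.cons (.rf (nat_lit 1943) (nat_lit 427010)) .nil)))))),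
 (.br (nat_lit 11) (nat_lit 0) (.cons (.br (nat_lit 10) (nat_lit 0) (.cons (.ev (nat_lit 1213666705181745350770945) (nat_lit 1)) (.cons (.br (nat_lit 13) (nat_lit 0) (.cons (.br (nat_lit 13) (nat_lit 0) .nil) .nil)) .nil))) (.cons (.br (nat_lit 7) (nat_lit 0) (.cons (.ev (nat_lit 1213666705181745350770945) (nat_lit 1)) (.cons (.br (nat_lit 13) (nat_lit 0) (.cons (.br (nat_lit 13) (nat_lit 0) .nil) .nil)) .nil))) (.cons (.ev (nat_lit 79537652246452447006907498496) (nat_lit 1)) (.cons (.br (nat_lit 13) (nat_lit 0) (.cons (.br (nat_lit 13) (nat_lit 0) (.cons (.ev (nat_lit 1213666704900266079027201) (nat_lit 1)) (.cons (.ev (nat_lit 79537647542532708210971771136) (nat_lit 1)) .nil))) (.cons (.br (nat_lit 13) (nat_lit 0) (.cons (.ev (nat_lit 1213666704900266079027201) (nat_lit 1)) (.cons (.ev (nat_lit 79537647542532708210971771136) (nat_lit 1)) .nil))) (.cons (.ev (nat_lit 79537652246452165536225689856) (nat_lit 1)) .nil)))) .nil))))),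
 (.br (nat_lit 11) (nat_lit 0) (.cons (.rf (nat_lit 1964) (nat_lit 14242959524133701664)) (.cons (.br (nat_lit 5) (nat_lit 0) (.cons (.ev (nat_lit 1213666705181745350770945) (nat_lit 1)) (.cons (.br (nat_lit 13) (nat_lit 0) (.cons (.br (nat_lit 13) (nat_lit 0) .nil) .nil)) .nil))) (.cons (.ev (nat_lit 79537652246452447006907498753) (nat_lit 1)) (.cons (.br (nat_lit 13) (nat_lit 0) (.cons (.br (nat_lit 13) (nat_lit 0) (.cons (.ev (nat_lit 1213666704900266079027201) (nat_lit 1)) (.cons (.ev (nat_lit 79537647542532708210971770881) (nat_lit 1)) .nil))) (.cons (.br (nat_lit 13) (nat_lit 0) (.cons (.ev (nat_lit 1213666704900266079027201) (nat_lit 1)) (.cons (.ev (nat_lit 79537647542532708210971770881) (nat_lit 1)) .nil))) (.cons (.ev (nat_lit 79537652246452165536225689601) (nat_lit 1)) .nil)))) .nil))))),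
 (.br (nat_lit 9) (nat_lit 0) (.cons (.br (nat_lit 9) (nat_lit 0) .nil) .nil)),
 (.br (nat_lit 5) (nat_lit 0) (.cons (.ev (nat_lit 1208925891954801995940096) (nat_lit 1)) (.cons (.rf (nat_lit 1964) (nat_lit 14242959524133701664)) (.cons (.br (nat_lit 7) (nat_lit 0) (.cons (.ev (nat_lit 1213666705181745350770945) (nat_lit 1)) (.cons (.rf (nat_lit 1966) (nat_lit 470979846440961)) .nil))) (.cons (.br (nat_lit 7) (nat_lit 0) (.cons (.rf (nat_lit 1965) (nat_lit 14242959524133701664)) (.cons (.rf (nat_lit 1966) (nat_lit 470979911452704)) (.cons (.ev (nat_lit 1213666704900266079027201) (nat_lit 1)) .nil)))) .nil)))))]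

theorem c71 : chkAll C T R L71 (nat_lit 1937) = true := by decide +kernel

theorem l71 : (nat_lit 1937) + L71.length = (nat_lit 1968) := by decide +kernel

/-- part of the certificates -/
def L72 : List Prf := [(.br (nat_lit 7) (nat_lit 0) (.cons (.rf (nat_lit 1966) (nat_lit 468783035680800)) (.cons (.br (nat_lit 10) (nat_lit 0) (.cons (.ev (nat_lit 159077717714843994420293272068) (nat_lit 3)) .nil)) .nil))),
 (.br (nat_lit 5) (nat_lit 0) (.cons (.rf (nat_lit 1966) (nat_lit 468782970669057)) (.cons (.rf (nat_lit 1968) (nat_lit 493858305440582043680)) .nil))),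
 (.br (nat_lit 11) (nat_lit 0) (.cons (.ev (nat_lit 79537652246452447006907498496) (nat_lit 1)) (.cons (.ev (nat_lit 79537652246452447006907498753) (nat_lit 1)) (.cons (.rf (nat_lit 1967) (nat_lit 14242959524133701664)) (.cons (.br (nat_lit 13) (nat_lit 0) (.cons (.rf (nat_lit 1968) (nat_lit 493858305440582043680)) (.cons (.rf (nat_lit 1969) (nat_lit 493858305440582043680)) (.cons (.br (nat_lit 13) (nat_lit 0) (.cons (.rf (nat_lit 1968) (nat_lit 493858305440582043680)) (.cons (.rf (nat_lit 1969) (nat_lit 493858305440582043680)) .nil))) .nil)))) .nil))))),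
 (.br (nat_lit 2) (nat_lit 0) (.cons (.kr (nat_lit 18447025548686262274) (nat_lit 4722366482873940312064) (nat_lit 0) (nat_lit 1)) (.cons (.kr (nat_lit 18447025548686262784) (nat_lit 4722366482873940312064) (nat_lit 1) (nat_lit 0)) (.cons (.kr (nat_lit 281474976710912) (nat_lit 4295032832) (nat_lit 1) (nat_lit 0)) (.cons (.br (nat_lit 11) (nat_lit 0) (.cons (.rf (nat_lit 1964) (nat_lit 14242959524133701664)) (.cons (.rf (nat_lit 1965) (nat_lit 14242959524133701664)) (.cons (.rf (nat_lit 1967) (nat_lit 14242959524133701664)) (.cons (.rf (nat_lit 1970) (nat_lit 14242959524133701664)) (.cons (.br (nat_lit 11) (nat_lit 0) (.cons (.rf (nat_lit 1964) (nat_lit 14242959524133701664)) (.cons (.rf (nat_lit 1965) (nat_lit 14242959524133701664)) (.cons (.rf (nat_lit 1967) (nat_lit 14242959524133701664)) (.cons (.rf (nat_lit 1970) (nat_lit 14242959524133701664)) .nil))))) .nil)))))) (.cons (.rf (nat_lit 1943) (nat_lit 427010)) .nil)))))),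
 (.br (nat_lit 10) (nat_lit 0) (.cons (.ev (nat_lit 79229371458602754989977829633) (nat_lit 1)) (.cons (.br (nat_lit 13) (nat_lit 0) (.cons (.ev (nat_lit 79229371458603036469249441793) (nat_lit 1)) .nil)) .nil))),
 (.br (nat_lit 7) (nat_lit 0) (.cons (.ev (nat_lit 79229371458602754989977829633) (nat_lit 1)) (.cons (.rf (nat_lit 1966) (nat_lit 469848122558465)) .nil))),
 (.br (nat_lit 10) (nat_lit 0) (.cons (.ev (nat_lit 79229371458602754989977829376) (nat_lit 1)) (.cons (.br (nat_lit 13) (nat_lit 0) (.cons (.ev (nat_lit 79229371458603036469249442048) (nat_lit 1)) .nil)) .nil))),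
 (.br (nat_lit 5) (nat_lit 0) (.cons (.ev (nat_lit 79229371458602754989977829376) (nat_lit 1)) (.cons (.rf (nat_lit 1966) (nat_lit 469848187570208)) .nil))),
 (.br (nat_lit 12) (nat_lit 0) (.cons (.br (nat_lit 11) (nat_lit 0) (.cons (.ev (nat_lit 79538861172271780161088651521) (nat_lit 1)) .nil)) (.cons (.br (nat_lit 9) (nat_lit 0) (.cons (.ev (nat_lit 79538861172271780161088651521) (nat_lit 1)) .nil)) .nil))),
 (.br (nat_lit 7) (nat_lit 0) (.cons (.rf (nat_lit 1976) (nat_lit 15433072045018155040)) (.cons (.br (nat_lit 10) (nat_lit 0) (.cons (.ev (nat_lit 40567914062363872853284714843144) (nat_lit 4)) .nil)) .nil))),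
 (.br (nat_lit 10) (nat_lit 0) (.cons (.rf (nat_lit 1976) (nat_lit 15433072045018155040)) (.cons (.rf (nat_lit 1977) (nat_lit 493858305440582043680)) (.cons (.br (nat_lit 10) (nat_lit 0) (.cons (.rf (nat_lit 1976) (nat_lit 15433072045018155040)) (.cons (.rf (nat_lit 1977) (nat_lit 493858305440582043680)) .nil))) .nil)))),
 (.br (nat_lit 6) (nat_lit 0) (.cons (.br (nat_lit 6) (nat_lit 0) .nil) .nil)),
 (.br (nat_lit 5) (nat_lit 0) (.cons (.rf (nat_lit 1976) (nat_lit 15433072042872768513)) (.cons (.rf (nat_lit 1979) (nat_lit 470979911452704)) (.cons (.rf (nat_lit 1978) (nat_lit 493858305440582043680)) .nil)))),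
 (.br (nat_lit 13) (nat_lit 0) (.cons (.rf (nat_lit 1978) (nat_lit 493858305440582043680)) (.cons (.rf (nat_lit 1980) (nat_lit 493858305440582043680)) (.cons (.br (nat_lit 13) (nat_lit 0) (.cons (.rf (nat_lit 1978) (nat_lit 493858305440582043680)) (.cons (.rf (nat_lit 1980) (nat_lit 493858305440582043680)) .nil))) .nil)))),
 (.br (nat_lit 2) (nat_lit 0) (.cons (.rf (nat_lit 1955) (nat_lit 14242959524133701664)) (.cons (.rf (nat_lit 1963) (nat_lit 14242959524133701664)) (.cons (.kr (nat_lit 281474976710912) (nat_lit 4295032832) (nat_lit 1) (nat_lit 0)) (.cons (.br (nat_lit 11) (nat_lit 0) (.cons (.br (nat_lit 10) (nat_lit 0) (.cons (.rf (nat_lit 1972) (nat_lit 14242959524133701664)) (.cons (.rf (nat_lit 1973) (nat_lit 14242959524133701664)) (.cons (.br (nat_lit 10) (nat_lit 0) (.cons (.rf (nat_lit 1972) (nat_lit 14242959524133701664)) (.cons (.rf (nat_lit 1973) (nat_lit 14242959524133701664)) .nil))) .nil)))) (.cons (.br (nat_lit 10) (nat_lit 0) (.cons (.rf (nat_lit 1974) (nat_lit 14242959524133701664))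 (.cons (.rf (nat_lit 1975) (nat_lit 14242959524133701664)) (.cons (.br (nat_lit 10) (nat_lit 0) (.cons (.rf (nat_lit 1974) (nat_lit 14242959524133701664)) (.cons (.rf (nat_lit 1975) (nat_lit 14242959524133701664)) .nil))) .nil)))) (.cons (.ev (nat_lit 309489750634572016391290881) (nat_lit 1)) (.cons (.ev (nat_lit 309489750634853487073100033) (nat_lit 1)) (.cons (.br (nat_lit 13) (nat_lit 0) (.cons (.rf (nat_lit 1978) (nat_lit 493858305440582043680)) (.cons (.rf (nat_lit 1980) (nat_lit 493858305440582043680)) (.cons (.rf (nat_lit 1981) (nat_lit 493858305440582043680)) (.cons (.br (nat_lit 13) (nat_lit 0) (.cons (.rf (nat_lit 1978) (nat_lit 493858305440582043680)) (.cons (.rf (nat_lit 1980) (nat_lit 493858305440582043680)) (.cons (.rf (nat_lit 1981) (nat_lit 493858305440582043680)) .nil)))) .nil))))) .nil)))))) (.cons (.rf (nat_lit 1943) (nat_lit 427010)) .nil)))))),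
 (.br (nat_lit 2) (nat_lit 0) (.cons (.rf (nat_lit 1955) (nat_lit 14242959524133701664)) (.cons (.rf (nat_lit 1963) (nat_lit 14242959524133701664)) (.cons (.rf (nat_lit 1971) (nat_lit 14242959524133701664)) (.cons (.rf (nat_lit 1982) (nat_lit 14242959524133701664)) (.cons (.br (nat_lit 2) (nat_lit 0) (.cons (.rf (nat_lit 1955) (nat_lit 14242959524133701664)) (.cons (.rf (nat_lit 1963) (nat_lit 14242959524133701664)) (.cons (.rf (nat_lit 1971) (nat_lit 14242959524133701664)) (.cons (.rf (nat_lit 1982) (nat_lit 14242959524133701664)) (.cons (.rf (nat_lit 1943) (nat_lit 427010)) .nil)))))) (.cons (.rf (nat_lit 1943) (nat_lit 427010)) .nil))))))),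
 (.br (nat_lit 12) (nat_lit 0) (.cons (.ev (nat_lit 18518801667764257024) (nat_lit 1)) (.cons (.kr (nat_lit 158456325028528675191382867968) (nat_lit 4740813508418331475968) (nat_lit 4) (nat_lit 0)) (.cons (.br (nat_lit 10) (nat_lit 0) (.cons (.br (nat_lit 13) (nat_lit 0) (.cons (.ev (nat_lit 79538856449905298395250032896) (nat_lit 1)) .nil)) (.cons (.ev (nat_lit 310698658007725142033039616) (nat_lit 1)) (.cons (.br (nat_lit 11) (nat_lit 0) (.cons (.ev (nat_lit 79538856449905298395250032896) (nat_lit 1)) (.cons (.ev (nat_lit 310693954087986346097443073) (nat_lit 1)) .nil))) .nil)))) .nil)))),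
 (.br (nat_lit 12) (nat_lit 0) (.cons (.kr (nat_lit 18446744073709551616) (nat_lit 79228162514264337593543950336) (nat_lit 8) (nat_lit 0)) (.cons (.ev (nat_lit 79537652246452165536225689601) (nat_lit 1)) .nil))),
 (.br (nat_lit 7) (nat_lit 0) (.cons (.rf (nat_lit 1947) (nat_lit 465450273244224)) (.cons (.rf (nat_lit 1985) (nat_lit 493858305440582043680)) .nil))),
 (.br (nat_lit 7) (nat_lit 0) (.cons (.rf (nat_lit 1985) (nat_lit 493858305440582043680)) (.cons (.rf (nat_lit 1986) (nat_lit 493858305440582043680)) .nil))),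
 (.br (nat_lit 7) (nat_lit 0) (.cons (.br (nat_lit 12) (nat_lit 0) (.cons (.ev (nat_lit 1861750503165845796246520322) (nat_lit 3)) (.cons (.rf (nat_lit 1960) (nat_lit 468777540158466)) .nil))) (.cons (.ev (nat_lit 1208925891673322724327424) (nat_lit 1)) (.cons (.rf (nat_lit 1948) (nat_lit 14894369315390528)) .nil)))),
 (.br (nat_lit 7) (nat_lit 0) (.cons (.rf (nat_lit 1988) (nat_lit 14242959524133701664)) (.cons (.br (nat_lit 10) (nat_lit 0) (.cons (.ev (nat_lit 1861750503164719913519809030) (nat_lit 3)) (.cons (.rf (nat_lit 1960) (nat_lit 470976628361217)) .nil))) (.cons (.br (nat_lit 13) (nat_lit 0) (.cons (.ev (nat_lit 1213666704900266079027201) (nat_lit 1)) (.cons (.br (nat_lit 13) (nat_lit 0) (.cons (.ev (nat_lit 1213666704900266079027201) (nat_lit 1)) (.cons (.ev (nat_lit 79537647542532708210971770881) (nat_lit 1)) .nil))) (.cons (.ev (nat_lit 79228167255149622130953486593) (nat_lit 1)) .nil)))) .nil)))),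
 (.br (nat_lit 2) (nat_lit 0) (.cons (.br (nat_lit 12) (nat_lit 0) (.cons (.ev (nat_lit 18518801667764257024) (nat_lit 1)) (.cons (.br (nat_lit 12) (nat_lit 0) (.cons (.ev (nat_lit 18518801667764257024) (nat_lit 1)) (.cons (.kr (nat_lit 158456325028528675191382867968) (nat_lit 4740813508418331475968) (nat_lit 4) (nat_lit 0)) (.cons (.rf (nat_lit 1948) (nat_lit 15070291008062528)) .nil)))) (.cons (.rf (nat_lit 1984) (nat_lit 14242959524133701664)) (.cons (.br (nat_lit 12) (nat_lit 0) (.cons (.ev (nat_lit 18518801667764257024) (nat_lit 1)) (.cons (.rf (nat_lit 1948) (nat_lit 15070291008062528)) (.cons (.rf (nat_lit 1984) (nat_lit 14242959524133701664)) .nil)))) .nil))))) (.cons (.kr (nat_lit 18447025548686262274) (nat_lit 4722366482873940312064) (nat_lit 0) (nat_lit 1)) (.cons (.br (nat_lit 11) (nat_lit 0) (.cons (.ev (nat_lit 309489750634853487073099776) (nat_lit 1)) (.cons (.ev (nat_lit 309489750634572016391290881) (nat_lit 1)) (.cons (.br (nat_lit 12) (nat_lit 0) (.cons (.kr (nat_lit 158456325028528956662064611330)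 (nat_lit 4740813226947649863680) (nat_lit 0) (nat_lit 1)) (.cons (.kr (nat_lit 158456325028528675191382867968) (nat_lit 4740813508418331475968) (nat_lit 4) (nat_lit 0)) (.cons (.rf (nat_lit 1948) (nat_lit 15071251035949088)) .nil)))) (.cons (.br (nat_lit 13) (nat_lit 0) (.cons (.rf (nat_lit 1986) (nat_lit 493858305440582043680)) (.cons (.rf (nat_lit 1987) (nat_lit 493858305440582043680)) (.cons (.br (nat_lit 13) (nat_lit 0) (.cons (.rf (nat_lit 1986) (nat_lit 493858305440582043680)) (.cons (.rf (nat_lit 1987) (nat_lit 493858305440582043680)) .nil))) .nil)))) .nil))))) (.cons (.br (nat_lit 7) (nat_lit 0) (.cons (.rf (nat_lit 1988) (nat_lit 14242959524133701664)) (.cons (.rf (nat_lit 1989) (nat_lit 14242959524133701664)) (.cons (.br (nat_lit 7) (nat_lit 0) (.cons (.ev (nat_lit 1208925891673322724327424) (nat_lit 1)) (.cons (.rf (nat_lit 1989) (nat_lit 14242959524133701664)) (.cons (.rf (nat_lit 1948) (nat_lit 14896568273569824)) .nil)))) (.cons (.br (nat_lit 7) (nat_lit 0) (.cons (.rf (nat_lit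 1948) (nat_lit 14894369315390528)) (.cons (.rf (nat_lit 1989) (nat_lit 14242959524133701664)) (.cons (.rf (nat_lit 1948) (nat_lit 14896568273569824)) .nil)))) .nil))))) (.cons (.rf (nat_lit 1943) (nat_lit 427010)) .nil)))))),
 (.br (nat_lit 5) (nat_lit 0) (.cons (.br (nat_lit 13) (nat_lit 0) (.cons (.ev (nat_lit 79538861190718806809286541568) (nat_lit 1)) .nil)) (.cons (.ev (nat_lit 310698658007725142033039361) (nat_lit 1)) (.cons (.rf (nat_lit 1270) (nat_lit 119188093178159203392)) .nil)))),
 (.br (nat_lit 11) (nat_lit 0) (.cons (.zr (nat_lit 2417870086254811364327426) (nat_lit 309494454626371700588020480) (nat_lit 5) (nat_lit 1)) (.cons (.br (nat_lit 13) (nat_lit 0) (.cons (.ev (nat_lit 475992785660433497059749921280) (nat_lit 3)) .nil)) .nil))),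
 (.br (nat_lit 10) (nat_lit 0) (.cons (.zr (nat_lit 311902861532631921145806850) (nat_lit 158456329750895161355267998464) (nat_lit 5) (nat_lit 1)) (.cons (.rf (nat_lit 1966) (nat_lit 465484438931457)) .nil))),
 (.br (nat_lit 11) (nat_lit 0) (.cons (.zr (nat_lit 4840425646911711248384004) (nat_lit 618970075127044156608742912) (nat_lit 10) (nat_lit 1)) (.cons (.br (nat_lit 13) (nat_lit 0) (.cons (.ev (nat_lit 475992785660433497059749922308) (nat_lit 3)) .nil)) .nil))),
 (.br (nat_lit 5) (nat_lit 0) (.cons (.zr (nat_lit 4840425646911711248384004) (nat_lit 618970075127044156608742912) (nat_lit 10) (nat_lit 1)) (.cons (.rf (nat_lit 1966) (nat_lit 465484601460768)) .nil))),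
 (.br (nat_lit 10) (nat_lit 0) (.cons (.ev (nat_lit 1208925891954801995939841) (nat_lit 1)) (.cons (.ev (nat_lit 1213666705181745350770945) (nat_lit 1)) (.cons (.br (nat_lit 11) (nat_lit 0) (.cons (.br (nat_lit 11) (nat_lit 0) (.cons (.ev (nat_lit 81606866722417581312001261831684) (nat_lit 3)) .nil)) (.cons (.br (nat_lit 11) (nat_lit 0) (.cons (.ev (nat_lit 81606866722417581312001261831684) (nat_lit 3)) .nil)) .nil))) .nil)))),
 (.br (nat_lit 5) (nat_lit 0) (.cons (.ev (nat_lit 1208925891954801995939841) (nat_lit 1)) (.cons (.ev (nat_lit 1213666705181745350770945) (nat_lit 1)) (.cons (.rf (nat_lit 1996) (nat_lit 493858305440582043680)) .nil)))),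
 (.br (nat_lit 13) (nat_lit 0) (.cons (.rf (nat_lit 1996) (nat_lit 493858305440582043680)) (.cons (.rf (nat_lit 1997) (nat_lit 493858305440582043680)) (.cons (.br (nat_lit 13) (nat_lit 0) (.cons (.rf (nat_lit 1996) (nat_lit 493858305440582043680)) (.cons (.rf (nat_lit 1997) (nat_lit 493858305440582043680)) .nil))) .nil)))),
 (.br (nat_lit 2) (nat_lit 0) (.cons (.rf (nat_lit 1990) (nat_lit 14242959524133701664)) (.cons (.br (nat_lit 12) (nat_lit 0) (.cons (.br (nat_lit 12) (nat_lit 0) (.cons (.ev (nat_lit 18518801667764257024) (nat_lit 1)) (.cons (.kr (nat_lit 4740813508418331475970) (nat_lit 158456325028528675191382868480) (nat_lit 0) (nat_lit 2)) (.cons (.rf (nat_lit 1948) (nat_lit 15064793450086465)) .nil)))) (.cons (.ev (nat_lit 18518801667764257024) (nat_lit 1)) (.cons (.br (nat_lit 12) (nat_lit 0) (.cons (.kr (nat_lit 4740813508418331475970) (nat_lit 158456325028528675191382868480) (nat_lit 0) (nat_lit 2)) (.cons (.ev (nat_lit 18518801667764257024) (nat_lit 1)) (.cons (.rf (nat_lit 1991)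 (nat_lit 493858305440582043680)) .nil)))) (.cons (.br (nat_lit 12) (nat_lit 0) (.cons (.rf (nat_lit 1948) (nat_lit 15064793450086465)) (.cons (.ev (nat_lit 18518801667764257024) (nat_lit 1)) (.cons (.rf (nat_lit 1991) (nat_lit 493858305440582043680)) .nil)))) .nil))))) (.cons (.br (nat_lit 11) (nat_lit 0) (.cons (.ev (nat_lit 309489750634853487073099776) (nat_lit 1)) (.cons (.ev (nat_lit 618970019642971616754860802) (nat_lit 2)) (.cons (.ev (nat_lit 309489750634853487073100033) (nat_lit 1)) (.cons (.br (nat_lit 12) (nat_lit 0) (.cons (.kr (nat_lit 4740813508418331475970) (nat_lit 158456325028528675191382868480) (nat_lit 0) (nat_lit 2)) (.cons (.ev (nat_lit 18518801667764257024) (nat_lit 1)) (.cons (.kr (nat_lit 158456325028528675191382867968) (nat_lit 4740813508418331475968) (nat_lit 4) (nat_lit 0)) (.cons (.br (nat_lit 5) (nat_lit 0) (.cons (.br (nat_lit 13) (nat_lit 0) (.cons (.ev (nat_lit 79229371458602754989977829376) (nat_lit 1)) .nil)) (.cons (.ev (nat_lit 621392612095148546766996226) (nat_lit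 2)) (.cons (.br (nat_lit 10) (nat_lit 0) (.cons (.ev (nat_lit 79229371458602754989977829633) (nat_lit 1)) (.cons (.ev (nat_lit 621392612095148546766995712) (nat_lit 2)) .nil))) .nil)))) .nil))))) (.cons (.br (nat_lit 12) (nat_lit 0) (.cons (.br (nat_lit 12) (nat_lit 0) (.cons (.ev (nat_lit 18518801667764257024) (nat_lit 1)) (.cons (.kr (nat_lit 36893769622395813890) (nat_lit 158456325028528675191382933760) (nat_lit 0) (nat_lit 3)) (.cons (.ev (nat_lit 159075295085065134951261864192) (nat_lit 2)) .nil)))) (.cons (.ev (nat_lit 18518801667764257024) (nat_lit 1)) (.cons (.br (nat_lit 12) (nat_lit 0) (.cons (.kr (nat_lit 36893769622395813890) (nat_lit 158456325028528675191382933760) (nat_lit 0) (nat_lit 3)) (.cons (.ev (nat_lit 18518801667764257024) (nat_lit 1)) (.cons (.ev (nat_lit 159075295085065134951261864706) (nat_lit 2)) .nil)))) (.cons (.br (nat_lit 12) (nat_lit 0) (.cons (.ev (nat_lit 159075295085065134951261864192) (nat_lit 2)) (.cons (.ev (nat_lit 18518801667764257024) (nat_lit 1)) (.cons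 (.ev (nat_lit 159075295085065134951261864706) (nat_lit 2)) .nil)))) .nil))))) .nil)))))) (.cons (.br (nat_lit 7) (nat_lit 0) (.cons (.br (nat_lit 11) (nat_lit 0) (.cons (.rf (nat_lit 1992) (nat_lit 14242959524133701664)) (.cons (.rf (nat_lit 1993) (nat_lit 14242959524133701664)) (.cons (.br (nat_lit 11) (nat_lit 0) (.cons (.rf (nat_lit 1992) (nat_lit 14242959524133701664)) (.cons (.rf (nat_lit 1993) (nat_lit 14242959524133701664)) .nil))) .nil)))) (.cons (.br (nat_lit 11) (nat_lit 0) (.cons (.rf (nat_lit 1994) (nat_lit 14242959524133701664)) (.cons (.rf (nat_lit 1995) (nat_lit 14242959524133701664)) (.cons (.br (nat_lit 11) (nat_lit 0) (.cons (.rf (nat_lit 1994) (nat_lit 14242959524133701664)) (.cons (.rf (nat_lit 1995) (nat_lit 14242959524133701664)) .nil))) .nil)))) (.cons (.ev (nat_lit 18519083147036000256) (nat_lit 1)) (.cons (.ev (nat_lit 18518801667764257024) (nat_lit 1)) (.cons (.br (nat_lit 13) (nat_lit 0) (.cons (.rf (nat_lit 1996) (nat_lit 493858305440582043680)) (.cons (.rf (nat_lit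 1997) (nat_lit 493858305440582043680)) (.cons (.rf (nat_lit 1998) (nat_lit 493858305440582043680)) (.cons (.br (nat_lit 13) (nat_lit 0) (.cons (.rf (nat_lit 1996) (nat_lit 493858305440582043680)) (.cons (.rf (nat_lit 1997) (nat_lit 493858305440582043680)) (.cons (.rf (nat_lit 1998) (nat_lit 493858305440582043680)) .nil)))) .nil))))) .nil)))))) (.cons (.rf (nat_lit 1943) (nat_lit 427010)) .nil))))))]

theorem c72 : chkAll C T R L72 (nat_lit 1968) = true := by decide +kernel

theorem l72 : (nat_lit 1968) + L72.length = (nat_lit 2000) := by decide +kernel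

/-- part of the certificates -/
def L73 : List Prf := [(.br (nat_lit 12) (nat_lit 0) (.cons (.kr (nat_lit 18446744073709551617) (nat_lit 79228162514264337593543950592) (nat_lit 0) (nat_lit 2)) (.cons (.ev (nat_lit 79537652246452165536225689601) (nat_lit 1)) .nil))),
 (.br (nat_lit 7) (nat_lit 0) (.cons (.rf (nat_lit 2000) (nat_lit 493858305440582043680)) (.cons (.br (nat_lit 7) (nat_lit 0) (.cons (.rf (nat_lit 2000) (nat_lit 493858305440582043680)) .nil)) .nil))),
 (.br (nat_lit 7) (nat_lit 0) (.cons (.rf (nat_lit 1947) (nat_lit 465278474715201)) (.cons (.rf (nat_lit 2000) (nat_lit 493858305440582043680)) .nil))),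
 (.br (nat_lit 7) (nat_lit 0) (.cons (.br (nat_lit 12) (nat_lit 0) (.cons (.ev (nat_lit 1861750503165845796246520832) (nat_lit 3)) (.cons (.rf (nat_lit 1960) (nat_lit 463279982182434)) .nil))) (.cons (.ev (nat_lit 1208925891673322724327424) (nat_lit 1)) (.cons (.rf (nat_lit 1948) (nat_lit 14888871757414465)) .nil)))),
 (.br (nat_lit 7) (nat_lit 0) (.cons (.rf (nat_lit 2003) (nat_lit 14242959524133701664)) (.cons (.rf (nat_lit 2003) (nat_lit 6164517744835624994)) (.cons (.br (nat_lit 13) (nat_lit 0) (.cons (.ev (nat_lit 1213666704900266079027201) (nat_lit 1)) (.cons (.br (nat_lit 13) (nat_lit 0) (.cons (.ev (nat_lit 1213666704900266079027201) (nat_lit 1)) (.cons (.ev (nat_lit 79537647542532708210971770881) (nat_lit 1)) .nil))) (.cons (.ev (nat_lit 79228167255149622130953486336) (nat_lit 1)) .nil)))) .nil)))),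
 (.br (nat_lit 2) (nat_lit 0) (.cons (.kr (nat_lit 18447025548686262274) (nat_lit 4722366482873940312064) (nat_lit 0) (nat_lit 1)) (.cons (.rf (nat_lit 1999) (nat_lit 14242959524133701664)) (.cons (.br (nat_lit 11) (nat_lit 0) (.cons (.ev (nat_lit 309489750634572016391291136) (nat_lit 1)) (.cons (.ev (nat_lit 309489750634853487073100033) (nat_lit 1)) (.cons (.br (nat_lit 12) (nat_lit 0) (.cons (.kr (nat_lit 4740813508418331475970) (nat_lit 158456325028528675191382868480) (nat_lit 0) (nat_lit 2)) (.cons (.kr (nat_lit 158456325028528956662064611840) (nat_lit 4740813226947649863680) (nat_lit 1) (nat_lit 0)) (.cons (.rf (nat_lit 1948) (nat_lit 15071250873419777)) .nil)))) (.cons (.br (nat_lit 13) (nat_lit 0) (.cons (.rf (nat_lit 2001) (nat_lit 493858305440582043680)) (.cons (.rf (nat_lit 2002) (nat_lit 493858305440582043680)) (.cons (.br (nat_lit 13) (nat_lit 0) (.cons (.rf (nat_lit 2001) (nat_lit 493858305440582043680)) (.cons (.rf (nat_lit 2002) (nat_lit 493858305440582043680)) .nil))) .nil))))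 .nil))))) (.cons (.br (nat_lit 7) (nat_lit 0) (.cons (.rf (nat_lit 2003) (nat_lit 14242959524133701664)) (.cons (.rf (nat_lit 2004) (nat_lit 14242959524133701664)) (.cons (.rf (nat_lit 2003) (nat_lit 6164517744835624994)) (.cons (.br (nat_lit 7) (nat_lit 0) (.cons (.rf (nat_lit 1948) (nat_lit 14888871757414465)) (.cons (.rf (nat_lit 2004) (nat_lit 14242959524133701664)) (.cons (.rf (nat_lit 1948) (nat_lit 14896568111040513)) .nil)))) .nil))))) (.cons (.rf (nat_lit 1943) (nat_lit 427010)) .nil)))))),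
 (.br (nat_lit 12) (nat_lit 0) (.cons (.ev (nat_lit 79229371458602754989977829633) (nat_lit 1)) (.cons (.ev (nat_lit 160313240087536855121923015686) (nat_lit 4)) .nil))),
 (.br (nat_lit 7) (nat_lit 0) (.cons (.zr (nat_lit 2417870086254811364327426) (nat_lit 309494454626371700588020480) (nat_lit 5) (nat_lit 1)) (.cons (.br (nat_lit 13) (nat_lit 0) (.cons (.ev (nat_lit 79229371458603036469249442048) (nat_lit 1)) .nil)) .nil))),
 (.br (nat_lit 5) (nat_lit 0) (.cons (.zr (nat_lit 2417870086254811364327426) (nat_lit 309494454626371700588020480) (nat_lit 5) (nat_lit 1)) (.cons (.br (nat_lit 13) (nat_lit 0) (.cons (.ev (nat_lit 79229371458603036469249441793) (nat_lit 1)) .nil)) .nil))),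
 (.br (nat_lit 7) (nat_lit 0) (.cons (.ev (nat_lit 79228162514336395187598655489) (nat_lit 1)) (.cons (.ev (nat_lit 79228162514336395187598655744) (nat_lit 1)) (.cons (.ev (nat_lit 79537647524302699869346201857) (nat_lit 2)) .nil)))),
 (.br (nat_lit 10) (nat_lit 0) (.cons (.br (nat_lit 7) (nat_lit 0) (.cons (.ev (nat_lit 79228162514336395187598655744) (nat_lit 1)) (.cons (.br (nat_lit 12) (nat_lit 0) (.cons (.ev (nat_lit 79228167255149622130953486336) (nat_lit 1)) .nil)) .nil))) (.cons (.rf (nat_lit 1979) (nat_lit 470976628361217)) (.cons (.br (nat_lit 12) (nat_lit 0) (.cons (.rf (nat_lit 2009) (nat_lit 493858305440582043680)) (.cons (.ev (nat_lit 81447791427295477166343950041090) (nat_lit 3)) .nil))) .nil)))),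
 (.br (nat_lit 13) (nat_lit 0) (.cons (.rf (nat_lit 2010) (nat_lit 493858305440582043680)) (.cons (.br (nat_lit 5) (nat_lit 0) (.cons (.br (nat_lit 12) (nat_lit 0) (.cons (.ev (nat_lit 79228167255149622130953486593) (nat_lit 1)) .nil)) (.cons (.rf (nat_lit 1979) (nat_lit 470976790890528)) (.cons (.rf (nat_lit 2010) (nat_lit 493858305440582043680)) .nil)))) (.cons (.br (nat_lit 7) (nat_lit 0) (.cons (.ev (nat_lit 79228162514336676666870399233) (nat_lit 1)) (.cons (.ev (nat_lit 79228162514336676666870398976) (nat_lit 1)) .nil))) .nil)))),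
 (.br (nat_lit 7) (nat_lit 0) (.cons (.br (nat_lit 7) (nat_lit 0) (.cons (.ev (nat_lit 79228162514336395187598655489) (nat_lit 1)) (.cons (.rf (nat_lit 2011) (nat_lit 493858305440582043680)) .nil))) (.cons (.rf (nat_lit 2009) (nat_lit 493858305440582043680)) (.cons (.rf (nat_lit 2011) (nat_lit 493858305440582043680)) .nil)))),
 (.br (nat_lit 2) (nat_lit 0) (.cons (.rf (nat_lit 1990) (nat_lit 14242959524133701664)) (.cons (.rf (nat_lit 1999) (nat_lit 14242959524133701664)) (.cons (.rf (nat_lit 2005) (nat_lit 14242959524133701664)) (.cons (.br (nat_lit 11) (nat_lit 0) (.cons (.ev (nat_lit 309485009821626543718269184) (nat_lit 1)) (.cons (.br (nat_lit 7) (nat_lit 0) (.cons (.br (nat_lit 10) (nat_lit 0) (.cons (.ev (nat_lit 796624091538626577107635274240) (nat_lit 4)) (.cons (.br (nat_lit 13) (nat_lit 0) (.cons (.ev (nat_lit 79229371458603036469249442048) (nat_lit 1)) .nil)) .nil))) (.cons (.br (nat_lit 5) (nat_lit 0) (.cons (.ev (nat_lit 796624091538626577107635275276) (nat_lit 4)) (.cons (.br (nat_lit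 13) (nat_lit 0) (.cons (.ev (nat_lit 79229371458603036469249441793) (nat_lit 1)) .nil)) .nil))) (.cons (.ev (nat_lit 159075299900099372629345960450) (nat_lit 3)) (.cons (.br (nat_lit 13) (nat_lit 0) (.cons (.rf (nat_lit 2006) (nat_lit 493858305440582043680)) (.cons (.br (nat_lit 13) (nat_lit 0) (.cons (.rf (nat_lit 2006) (nat_lit 493858305440582043680)) (.cons (.ev (nat_lit 160313240087536855121923015686) (nat_lit 4)) .nil))) (.cons (.ev (nat_lit 160313240087536855121923015686) (nat_lit 4)) .nil)))) .nil))))) (.cons (.ev (nat_lit 309485009821626543718268929) (nat_lit 1)) (.cons (.br (nat_lit 7) (nat_lit 0) (.cons (.rf (nat_lit 2007) (nat_lit 14242959524133701664)) (.cons (.rf (nat_lit 2008) (nat_lit 14242959524133701664)) (.cons (.br (nat_lit 7) (nat_lit 0) (.cons (.rf (nat_lit 2007) (nat_lit 14242959524133701664)) (.cons (.rf (nat_lit 2008) (nat_lit 14242959524133701664)) .nil))) .nil)))) (.cons (.br (nat_lit 13) (nat_lit 0) (.cons (.rf (nat_lit 2010) (nat_lit 493858305440582043680)) (.cons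 (.rf (nat_lit 2011) (nat_lit 493858305440582043680)) (.cons (.rf (nat_lit 2012) (nat_lit 493858305440582043680)) (.cons (.br (nat_lit 13) (nat_lit 0) (.cons (.rf (nat_lit 2010) (nat_lit 493858305440582043680)) (.cons (.rf (nat_lit 2011) (nat_lit 493858305440582043680)) (.cons (.rf (nat_lit 2012) (nat_lit 493858305440582043680)) .nil)))) .nil))))) .nil)))))) (.cons (.rf (nat_lit 1943) (nat_lit 427010)) .nil)))))),
 (.br (nat_lit 12) (nat_lit 0) (.cons (.ev (nat_lit 18519083147036000513) (nat_lit 1)) (.cons (.kr (nat_lit 158456325028528675191382867968) (nat_lit 4740813508418331475968) (nat_lit 4) (nat_lit 0)) (.cons (.br (nat_lit 10) (nat_lit 0) (.cons (.br (nat_lit 13) (nat_lit 0) (.cons (.ev (nat_lit 79538856449905298395250032896) (nat_lit 1)) .nil)) (.cons (.ev (nat_lit 310698658007443671351361793) (nat_lit 1)) (.cons (.br (nat_lit 11) (nat_lit 0) (.cons (.ev (nat_lit 79538856449905298395250032896) (nat_lit 1)) (.cons (.ev (nat_lit 310693954087704875415634176) (nat_lit 1)) .nil))) .nil)))) .nil)))),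
 (.br (nat_lit 13) (nat_lit 0) (.cons (.br (nat_lit 13) (nat_lit 0) .nil) .nil)),
 (.br (nat_lit 7) (nat_lit 0) (.cons (.br (nat_lit 10) (nat_lit 0) (.cons (.ev (nat_lit 1859332688418418025990194180) (nat_lit 3)) (.cons (.rf (nat_lit 2015) (nat_lit 493858305440582043680)) .nil))) (.cons (.br (nat_lit 12) (nat_lit 0) (.cons (.rf (nat_lit 2015) (nat_lit 493566697465643892770)) (.cons (.br (nat_lit 12) (nat_lit 0) (.cons (.rf (nat_lit 2015) (nat_lit 493566697465643892770)) .nil)) .nil))) .nil))),
 (.br (nat_lit 10) (nat_lit 0) (.cons (.rf (nat_lit 2016) (nat_lit 14242959524133701664)) (.cons (.kr (nat_lit 18446744073709551616) (nat_lit 79228162514264337593543950336) (nat_lit 8) (nat_lit 0)) (.cons (.br (nat_lit 10) (nat_lit 0) (.cons (.rf (nat_lit 2016) (nat_lit 14242959524133701664)) (.cons (.kr (nat_lit 18446744073709551616) (nat_lit 79228162514264337593543950336) (nat_lit 8) (nat_lit 0)) .nil))) .nil)))),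
 (.br (nat_lit 11) (nat_lit 0) (.cons (.ev (nat_lit 310698658007725142033039616) (nat_lit 1)) (.cons (.rf (nat_lit 1960) (nat_lit 470842411681793)) .nil))),
 (.br (nat_lit 12) (nat_lit 0) (.cons (.kr (nat_lit 618974760600034467903438850) (nat_lit 158458742880168185924742676480) (nat_lit 0) (nat_lit 1)) (.cons (.ev (nat_lit 79228167255149622130953486593) (nat_lit 1)) .nil))),
 (.br (nat_lit 7) (nat_lit 0) (.cons (.kr (nat_lit 309485028340147835983888385) (nat_lit 79229371440084233697712209920) (nat_lit 0) (nat_lit 1)) (.cons (.rf (nat_lit 2019) (nat_lit 493858305440582043680)) .nil))),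
 (.br (nat_lit 10) (nat_lit 0) (.cons (.ev (nat_lit 310693954087986346097443073) (nat_lit 1)) (.cons (.rf (nat_lit 2018) (nat_lit 14242959524133701664)) (.cons (.br (nat_lit 13) (nat_lit 0) (.cons (.rf (nat_lit 2019) (nat_lit 493858305440582043680)) (.cons (.rf (nat_lit 2020) (nat_lit 493858305440582043680)) (.cons (.br (nat_lit 13) (nat_lit 0) (.cons (.ev (nat_lit 79228167255149622130953486593) (nat_lit 1)) (.cons (.rf (nat_lit 2020) (nat_lit 493858305440582043680)) .nil))) .nil)))) .nil)))),
 (.br (nat_lit 2) (nat_lit 0) (.cons (.br (nat_lit 12) (nat_lit 0) (.cons (.ev (nat_lit 18519083147036000513) (nat_lit 1)) (.cons (.rf (nat_lit 2014) (nat_lit 14242959524133701664)) (.cons (.br (nat_lit 12) (nat_lit 0) (.cons (.ev (nat_lit 18519083147036000513) (nat_lit 1)) (.cons (.kr (nat_lit 158456325028528675191382867968) (nat_lit 4740813508418331475968) (nat_lit 4) (nat_lit 0)) (.cons (.rf (nat_lit 1948) (nat_lit 15071356159951936)) .nil)))) (.cons (.br (nat_lit 12) (nat_lit 0) (.cons (.ev (nat_lit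 18519083147036000513) (nat_lit 1)) (.cons (.rf (nat_lit 2014) (nat_lit 14242959524133701664)) (.cons (.rf (nat_lit 1948) (nat_lit 15071356159951936)) .nil)))) .nil))))) (.cons (.kr (nat_lit 18447025548686262274) (nat_lit 4722366482873940312064) (nat_lit 0) (nat_lit 1)) (.cons (.br (nat_lit 7) (nat_lit 0) (.cons (.rf (nat_lit 2016) (nat_lit 14242959524133701664)) (.cons (.rf (nat_lit 2017) (nat_lit 14242959524133701664)) (.cons (.br (nat_lit 7) (nat_lit 0) (.cons (.rf (nat_lit 2016) (nat_lit 14242959524133701664)) (.cons (.rf (nat_lit 2017) (nat_lit 14242959524133701664)) .nil))) .nil)))) (.cons (.br (nat_lit 7) (nat_lit 0) (.cons (.rf (nat_lit 2021) (nat_lit 14242959524133701664)) (.cons (.br (nat_lit 7) (nat_lit 0) (.cons (.rf (nat_lit 2021) (nat_lit 14242959524133701664)) (.cons (.ev (nat_lit 79228162514336395187598655744) (nat_lit 1)) (.cons (.rf (nat_lit 1948) (nat_lit 14895434467279936)) .nil)))) (.cons (.br (nat_lit 7) (nat_lit 0) (.cons (.rf (nat_lit 2021) (nat_lit 14242959524133701664))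 (.cons (.ev (nat_lit 79228162514336395187598655744) (nat_lit 1)) (.cons (.rf (nat_lit 1948) (nat_lit 14896533947385888)) .nil)))) (.cons (.br (nat_lit 7) (nat_lit 0) (.cons (.rf (nat_lit 2021) (nat_lit 14242959524133701664)) (.cons (.rf (nat_lit 1948) (nat_lit 14895434467279936)) (.cons (.rf (nat_lit 1948) (nat_lit 14896533947385888)) .nil)))) .nil))))) (.cons (.rf (nat_lit 1943) (nat_lit 427010)) .nil)))))),
 (.br (nat_lit 5) (nat_lit 0) (.cons (.br (nat_lit 13) (nat_lit 0) (.cons (.ev (nat_lit 79538861190718806809286541568) (nat_lit 1)) .nil)) (.cons (.ev (nat_lit 310693954087986346097443073) (nat_lit 1)) (.cons (.rf (nat_lit 1270) (nat_lit 262150323500957992992)) .nil)))),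
 (.br (nat_lit 10) (nat_lit 0) (.cons (.ev (nat_lit 79538861190718525338604863745) (nat_lit 1)) (.cons (.br (nat_lit 13) (nat_lit 0) (.cons (.kr (nat_lit 309485028340147835983888385) (nat_lit 79229371440084233697712209920) (nat_lit 0) (nat_lit 1)) .nil)) .nil))),
 (.br (nat_lit 5) (nat_lit 0) (.cons (.ev (nat_lit 79538861190718525338604863745) (nat_lit 1)) (.cons (.br (nat_lit 13) (nat_lit 0) (.cons (.kr (nat_lit 309485028340147835983888640) (nat_lit 79229371440084233697712209920) (nat_lit 1) (nat_lit 0)) .nil)) .nil))),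
 (.br (nat_lit 12) (nat_lit 0) (.cons (.br (nat_lit 11) (nat_lit 0) (.cons (.ev (nat_lit 79229371440083953322247127296) (nat_lit 1)) .nil)) (.cons (.br (nat_lit 9) (nat_lit 0) (.cons (.ev (nat_lit 79229371440083953322247127296) (nat_lit 1)) .nil)) .nil))),
 (.br (nat_lit 11) (nat_lit 0) (.cons (.rf (nat_lit 2026) (nat_lit 15433072009550071840)) (.cons (.rf (nat_lit 1979) (nat_lit 470842411681793)) (.cons (.br (nat_lit 10) (nat_lit 0) (.cons (.br (nat_lit 10) (nat_lit 0) (.cons (.ev (nat_lit 475995203475180924830140990976) (nat_lit 3)) .nil)) (.cons (.br (nat_lit 10) (nat_lit 0) (.cons (.ev (nat_lit 475995203475180924830140990976) (nat_lit 3)) .nil)) .nil))) .nil)))),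
 (.br (nat_lit 5) (nat_lit 0) (.cons (.rf (nat_lit 2026) (nat_lit 15426311112757446657)) (.cons (.rf (nat_lit 1979) (nat_lit 470842606716960)) (.cons (.rf (nat_lit 2027) (nat_lit 493858305440582043680)) .nil)))),
 (.br (nat_lit 13) (nat_lit 0) (.cons (.rf (nat_lit 2027) (nat_lit 493858305440582043680)) (.cons (.rf (nat_lit 2028) (nat_lit 493858305440582043680)) (.cons (.br (nat_lit 13) (nat_lit 0) (.cons (.rf (nat_lit 2027) (nat_lit 493858305440582043680)) (.cons (.rf (nat_lit 2028) (nat_lit 493858305440582043680)) .nil))) .nil)))),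
 (.br (nat_lit 2) (nat_lit 0) (.cons (.rf (nat_lit 2022) (nat_lit 14242959524133701664)) (.cons (.kr (nat_lit 18446744073709551872) (nat_lit 4722366482869645279232) (nat_lit 1) (nat_lit 0)) (.cons (.br (nat_lit 12) (nat_lit 0) (.cons (.br (nat_lit 12) (nat_lit 0) (.cons (.ev (nat_lit 18519083147036000256) (nat_lit 1)) (.cons (.kr (nat_lit 4740813508418331475970) (nat_lit 158456325028528675191382868480) (nat_lit 0) (nat_lit 2)) (.cons (.rf (nat_lit 1948) (nat_lit 15064759090380865)) .nil)))) (.cons (.ev (nat_lit 18519083147036000256) (nat_lit 1)) (.cons (.br (nat_lit 12) (nat_lit 0) (.cons (.kr (nat_lit 4740813508418331475970) (nat_lit 158456325028528675191382868480) (nat_lit 0) (nat_lit 2)) (.cons (.ev (nat_lit 18519083147036000256) (nat_lit 1)) (.cons (.rf (nat_lit 2023) (nat_lit 493858305440582043680)) .nil)))) (.cons (.br (nat_lit 12) (nat_lit 0) (.cons (.rf (nat_lit 1948) (nat_lit 15064759090380865)) (.cons (.ev (nat_lit 18519083147036000256) (nat_lit 1)) (.cons (.rf (nat_lit 2023) (nat_lit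 493858305440582043680)) .nil)))) .nil))))) (.cons (.br (nat_lit 7) (nat_lit 0) (.cons (.ev (nat_lit 18519083147036000513) (nat_lit 1)) (.cons (.br (nat_lit 5) (nat_lit 0) (.cons (.br (nat_lit 11) (nat_lit 0) (.cons (.ev (nat_lit 79538861190718806809286541313) (nat_lit 1)) (.cons (.br (nat_lit 13) (nat_lit 0) (.cons (.kr (nat_lit 309489732259886631919550465) (nat_lit 79229371440084233697712144640) (nat_lit 0) (nat_lit 2)) .nil)) .nil))) (.cons (.br (nat_lit 10) (nat_lit 0) (.cons (.ev (nat_lit 79538861190718806809286541313) (nat_lit 1)) (.cons (.br (nat_lit 13) (nat_lit 0) (.cons (.ev (nat_lit 79538856449905579865931841793) (nat_lit 1)) .nil)) .nil))) (.cons (.br (nat_lit 11) (nat_lit 0) (.cons (.ev (nat_lit 79538861190718806809286541313) (nat_lit 1)) (.cons (.rf (nat_lit 1966) (nat_lit 470942269671425)) .nil))) (.cons (.br (nat_lit 11) (nat_lit 0) (.cons (.br (nat_lit 13) (nat_lit 0) (.cons (.kr (nat_lit 79229371440084233697712144384) (nat_lit 309489732259886631919550464) (nat_lit 3) (nat_lit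 0)) .nil)) (.cons (.rf (nat_lit 1966) (nat_lit 470942464706592)) (.cons (.br (nat_lit 10) (nat_lit 0) (.cons (.ev (nat_lit 79538856449905298395250032896) (nat_lit 1)) (.cons (.br (nat_lit 12) (nat_lit 0) (.cons (.ev (nat_lit 79538861190718525338604863488) (nat_lit 1)) .nil)) .nil))) .nil)))) .nil))))) (.cons (.ev (nat_lit 18519083147036000256) (nat_lit 1)) (.cons (.br (nat_lit 10) (nat_lit 0) (.cons (.rf (nat_lit 2024) (nat_lit 14242959524133701664)) (.cons (.rf (nat_lit 2025) (nat_lit 14242959524133701664)) (.cons (.br (nat_lit 10) (nat_lit 0) (.cons (.rf (nat_lit 2024) (nat_lit 14242959524133701664)) (.cons (.rf (nat_lit 2025) (nat_lit 14242959524133701664)) .nil))) .nil)))) (.cons (.br (nat_lit 13) (nat_lit 0) (.cons (.rf (nat_lit 2027) (nat_lit 493858305440582043680)) (.cons (.rf (nat_lit 2029) (nat_lit 493858305440582043680)) (.cons (.rf (nat_lit 2028) (nat_lit 493858305440582043680)) (.cons (.br (nat_lit 13) (nat_lit 0) (.cons (.rf (nat_lit 2027) (nat_lit 493858305440582043680)) (.cons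 (.rf (nat_lit 2029) (nat_lit 493858305440582043680)) (.cons (.rf (nat_lit 2028) (nat_lit 493858305440582043680)) .nil)))) .nil))))) .nil)))))) (.cons (.rf (nat_lit 1943) (nat_lit 427010)) .nil))))))]

theorem c73 : chkAll C T R L73 (nat_lit 2000) = true := by decide +kernel

theorem l73 : (nat_lit 2000) + L73.length = (nat_lit 2031) := by decide +kernel

/-- part of the certificates -/
def L74 : List Prf := [(.br (nat_lit 12) (nat_lit 0) (.cons (.rf (nat_lit 2026) (nat_lit 14165197801381791745)) .nil)),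
 (.br (nat_lit 11) (nat_lit 0) (.cons (.ev (nat_lit 310698658007725142033039616) (nat_lit 1)) (.cons (.rf (nat_lit 2031) (nat_lit 15433072009550071840)) .nil))),
 (.br (nat_lit 7) (nat_lit 0) (.cons (.rf (nat_lit 2032) (nat_lit 14242959524133701664)) (.cons (.br (nat_lit 10) (nat_lit 0) (.cons (.ev (nat_lit 310693954087704875415634176) (nat_lit 1)) (.cons (.br (nat_lit 13) (nat_lit 0) (.cons (.br (nat_lit 13) (nat_lit 0) .nil) .nil)) .nil))) (.cons (.ev (nat_lit 79228167255149903610225098753) (nat_lit 1)) (.cons (.br (nat_lit 13) (nat_lit 0) (.cons (.br (nat_lit 13) (nat_lit 0) (.cons (.ev (nat_lit 310693954087986346097442816) (nat_lit 1)) (.cons (.ev (nat_lit 79228162514336676666870399233) (nat_lit 1)) .nil))) (.cons (.br (nat_lit 13) (nat_lit 0) (.cons (.ev (nat_lit 310693954087986346097442816) (nat_lit 1)) (.cons (.ev (nat_lit 79228162514336676666870399233) (nat_lit 1)) .nil))) (.cons (.ev (nat_lit 79228162514336676666870399233) (nat_lit 1)) .nil)))) .nil))))),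
 (.br (nat_lit 5) (nat_lit 0) (.cons (.rf (nat_lit 2032) (nat_lit 14242959524133701664)) (.cons (.ev (nat_lit 310698658007443671351361793) (nat_lit 1)) (.cons (.br (nat_lit 11) (nat_lit 0) (.cons (.ev (nat_lit 310698658007725142033039616) (nat_lit 1)) (.cons (.rf (nat_lit 1966) (nat_lit 470842411681793)) .nil))) (.cons (.br (nat_lit 11) (nat_lit 0) (.cons (.rf (nat_lit 2031) (nat_lit 15426311112757446657)) (.cons (.rf (nat_lit 1966) (nat_lit 470842606716960)) (.cons (.ev (nat_lit 310698658007443671351361536) (nat_lit 1)) .nil)))) .nil))))),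
 (.br (nat_lit 7) (nat_lit 0) (.cons (.rf (nat_lit 2033) (nat_lit 14242959524133701664)) (.cons (.rf (nat_lit 2034) (nat_lit 14242959524133701664)) (.cons (.ev (nat_lit 79228167255149903610225099008) (nat_lit 1)) (.cons (.br (nat_lit 13) (nat_lit 0) (.cons (.br (nat_lit 13) (nat_lit 0) (.cons (.ev (nat_lit 310693954087986346097442816) (nat_lit 1)) (.cons (.ev (nat_lit 79228162514336676666870398976) (nat_lit 1)) .nil))) (.cons (.br (nat_lit 13) (nat_lit 0) (.cons (.ev (nat_lit 310693954087986346097442816) (nat_lit 1)) (.cons (.ev (nat_lit 79228162514336676666870398976) (nat_lit 1)) .nil))) (.cons (.ev (nat_lit 79228162514336676666870398976) (nat_lit 1)) .nil)))) .nil))))),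
 (.br (nat_lit 10) (nat_lit 0) (.cons (.rf (nat_lit 1966) (nat_lit 468645730945056)) (.cons (.br (nat_lit 11) (nat_lit 0) (.cons (.ev (nat_lit 475995203475180924830140990976) (nat_lit 3)) .nil)) .nil))),
 (.br (nat_lit 13) (nat_lit 0) (.cons (.rf (nat_lit 2036) (nat_lit 493858305440582043680)) (.cons (.br (nat_lit 5) (nat_lit 0) (.cons (.ev (nat_lit 475995203475180924830140990976) (nat_lit 3)) .nil)) .nil))),
 (.br (nat_lit 7) (nat_lit 0) (.cons (.ev (nat_lit 79228167255149903610225098753) (nat_lit 1)) (.cons (.rf (nat_lit 2034) (nat_lit 14242959524133701664)) (.cons (.ev (nat_lit 79228167255149903610225099008) (nat_lit 1)) (.cons (.br (nat_lit 13) (nat_lit 0) (.cons (.rf (nat_lit 2036) (nat_lit 493858305440582043680)) (.cons (.rf (nat_lit 2037) (nat_lit 493858305440582043680)) (.cons (.br (nat_lit 13) (nat_lit 0) (.cons (.rf (nat_lit 2036) (nat_lit 493858305440582043680)) (.cons (.rf (nat_lit 2037) (nat_lit 493858305440582043680)) .nil))) .nil)))) .nil))))),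
 (.br (nat_lit 2) (nat_lit 0) (.cons (.kr (nat_lit 18447025548686262274) (nat_lit 4722366482873940312064) (nat_lit 0) (nat_lit 1)) (.cons (.kr (nat_lit 18446744073709551872) (nat_lit 4722366482869645279232) (nat_lit 1) (nat_lit 0)) (.cons (.kr (nat_lit 18447025548686262784) (nat_lit 4722366482873940312064) (nat_lit 1) (nat_lit 0)) (.cons (.br (nat_lit 7) (nat_lit 0) (.cons (.rf (nat_lit 2033) (nat_lit 14242959524133701664)) (.cons (.rf (nat_lit 2034) (nat_lit 14242959524133701664)) (.cons (.rf (nat_lit 2035) (nat_lit 14242959524133701664)) (.cons (.rf (nat_lit 2038) (nat_lit 14242959524133701664)) (.cons (.br (nat_lit 7) (nat_lit 0) (.cons (.rf (nat_lit 2033) (nat_lit 14242959524133701664)) (.cons (.rf (nat_lit 2034) (nat_lit 14242959524133701664)) (.cons (.rf (nat_lit 2035) (nat_lit 14242959524133701664)) (.cons (.rf (nat_lit 2038) (nat_lit 14242959524133701664)) .nil))))) .nil)))))) (.cons (.rf (nat_lit 1943) (nat_lit 427010)) .nil)))))),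
 (.br (nat_lit 10) (nat_lit 0) (.cons (.br (nat_lit 13) (nat_lit 0) (.cons (.ev (nat_lit 79538856449905298395250032896) (nat_lit 1)) .nil)) .nil)),
 (.br (nat_lit 10) (nat_lit 0) (.cons (.br (nat_lit 11) (nat_lit 0) (.cons (.rf (nat_lit 1960) (nat_lit 470946493400066)) (.cons (.br (nat_lit 12) (nat_lit 0) (.cons (.ev (nat_lit 475990367698114368499630866438) (nat_lit 3)) .nil)) .nil))) (.cons (.rf (nat_lit 1947) (nat_lit 468816319644736)) .nil))),
 (.br (nat_lit 13) (nat_lit 0) (.cons (.rf (nat_lit 2041) (nat_lit 493858305440582043680)) (.cons (.br (nat_lit 13) (nat_lit 0) (.cons (.ev (nat_lit 40723275537072972389979365835264) (nat_lit 3)) .nil)) .nil))),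
 (.br (nat_lit 7) (nat_lit 0) (.cons (.br (nat_lit 13) (nat_lit 0) (.cons (.ev (nat_lit 79229371458603036469249441793) (nat_lit 1)) .nil)) .nil)),
 (.br (nat_lit 7) (nat_lit 0) (.cons (.br (nat_lit 10) (nat_lit 0) (.cons (.rf (nat_lit 1960) (nat_lit 470842344637442)) (.cons (.br (nat_lit 12) (nat_lit 0) (.cons (.ev (nat_lit 159082553344335472244040008710) (nat_lit 3)) .nil)) .nil))) (.cons (.rf (nat_lit 1947) (nat_lit 465516845237312)) .nil))),
 (.br (nat_lit 13) (nat_lit 0) (.cons (.rf (nat_lit 2044) (nat_lit 493858305440582043680)) (.cons (.br (nat_lit 13) (nat_lit 0) (.cons (.ev (nat_lit 40724513477185755390273044612612) (nat_lit 3)) .nil)) .nil))),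
 (.br (nat_lit 9) (nat_lit 0) (.cons (.br (nat_lit 9) (nat_lit 0) .nil) .nil)),
 (.br (nat_lit 7) (nat_lit 0) (.cons (.rf (nat_lit 2046) (nat_lit 325669288511520)) (.cons (.rf (nat_lit 2046) (nat_lit 325634962327584)) .nil))),
 (.br (nat_lit 7) (nat_lit 0) (.cons (.rf (nat_lit 2047) (nat_lit 325634962327584)) (.cons (.rf (nat_lit 2047) (nat_lit 325702574508064)) .nil))),
 (.br (nat_lit 7) (nat_lit 0) (.cons (.br (nat_lit 10) (nat_lit 0) (.cons (.ev (nat_lit 79850759311366717155861201155) (nat_lit 2)) (.cons (.rf (nat_lit 2047) (nat_lit 470946625456160)) .nil))) (.cons (.rf (nat_lit 2048) (nat_lit 470979911452704)) .nil))),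
 (.br (nat_lit 6) (nat_lit 0) (.cons (.rf (nat_lit 2048) (nat_lit 398341242456096)) (.cons (.rf (nat_lit 2048) (nat_lit 398307956459552)) .nil))),
 (.br (nat_lit 2) (nat_lit 0) (.cons (.br (nat_lit 7) (nat_lit 0) (.cons (.ev (nat_lit 18518801667764257024) (nat_lit 1)) (.cons (.ev (nat_lit 18519083147036000513) (nat_lit 1)) (.cons (.br (nat_lit 10) (nat_lit 0) (.cons (.rf (nat_lit 2040) (nat_lit 14242959524133701664)) (.cons (.br (nat_lit 10) (nat_lit 0) (.cons (.rf (nat_lit 2040) (nat_lit 14242959524133701664)) .nil)) .nil))) (.cons (.br (nat_lit 13) (nat_lit 0) (.cons (.rf (nat_lit 2041) (nat_lit 493858305440582043680)) (.cons (.rf (nat_lit 2042) (nat_lit 493858305440582043680)) (.cons (.br (nat_lit 13) (nat_lit 0) (.cons (.rf (nat_lit 2041) (nat_lit 493858305440582043680)) (.cons (.rf (nat_lit 2042) (nat_lit 493858305440582043680)) .nil))) .nil)))) .nil))))) (.cons (.kr (nat_lit 18447025548686262274) (nat_lit 4722366482873940312064) (nat_lit 0) (nat_lit 1)) (.cons (.br (nat_lit 11) (nat_lit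 0) (.cons (.ev (nat_lit 309485009821345073036591104) (nat_lit 1)) (.cons (.ev (nat_lit 309485009821626543718268929) (nat_lit 1)) (.cons (.br (nat_lit 7) (nat_lit 0) (.cons (.rf (nat_lit 2043) (nat_lit 14242959524133701664)) (.cons (.br (nat_lit 7) (nat_lit 0) (.cons (.rf (nat_lit 2043) (nat_lit 14242959524133701664)) .nil)) .nil))) (.cons (.br (nat_lit 13) (nat_lit 0) (.cons (.rf (nat_lit 2044) (nat_lit 493858305440582043680)) (.cons (.rf (nat_lit 2045) (nat_lit 493858305440582043680)) (.cons (.br (nat_lit 13) (nat_lit 0) (.cons (.rf (nat_lit 2044) (nat_lit 493858305440582043680)) (.cons (.rf (nat_lit 2045) (nat_lit 493858305440582043680)) .nil))) .nil)))) .nil))))) (.cons (.br (nat_lit 7) (nat_lit 0) (.cons (.rf (nat_lit 2049) (nat_lit 14242959524133701664)) (.cons (.br (nat_lit 10) (nat_lit 0) (.cons (.rf (nat_lit 2049) (nat_lit 14242959524133701664)) (.cons (.rf (nat_lit 2049) (nat_lit 6028215822752778241)) (.cons (.rf (nat_lit 2047) (nat_lit 470946625456160)) .nil)))) (.cons (.rf (nat_lit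 2050) (nat_lit 482249415437944864)) .nil)))) (.cons (.rf (nat_lit 1943) (nat_lit 427010)) .nil)))))),
 (.br (nat_lit 12) (nat_lit 0) (.cons (.ev (nat_lit 79538856449905579865931841536) (nat_lit 1)) (.cons (.rf (nat_lit 1966) (nat_lit 465482293544961)) .nil))),
 (.br (nat_lit 10) (nat_lit 0) (.cons (.ev (nat_lit 79538861190718525338604863488) (nat_lit 1)) (.cons (.br (nat_lit 13) (nat_lit 0) (.cons (.ev (nat_lit 79546143135537600843435344643) (nat_lit 3)) .nil)) .nil))),
 (.br (nat_lit 10) (nat_lit 0) (.cons (.ev (nat_lit 79538861190718525338604863745) (nat_lit 1)) (.cons (.br (nat_lit 13) (nat_lit 0) (.cons (.ev (nat_lit 79546143135537600843435345671) (nat_lit 3)) .nil)) .nil))),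
 (.br (nat_lit 5) (nat_lit 0) (.cons (.ev (nat_lit 79538856449905579865931841793) (nat_lit 1)) (.cons (.rf (nat_lit 1966) (nat_lit 465482521085984)) .nil))),
 (.br (nat_lit 11) (nat_lit 0) (.cons (.ev (nat_lit 79228167236702878061522125056) (nat_lit 1)) .nil)),
 (.br (nat_lit 10) (nat_lit 0) (.cons (.br (nat_lit 13) (nat_lit 0) (.cons (.rf (nat_lit 2056) (nat_lit 15433070910038444064)) (.cons (.br (nat_lit 11) (nat_lit 0) (.cons (.ev (nat_lit 20282410812577562096174758953216) (nat_lit 1)) .nil)) .nil))) (.cons (.rf (nat_lit 1979) (nat_lit 468644463216641)) (.cons (.br (nat_lit 11) (nat_lit 0) (.cons (.br (nat_lit 11) (nat_lit 0) (.cons (.ev (nat_lit 122807994363431921753275953709056) (nat_lit 4)) .nil)) (.cons (.br (nat_lit 11) (nat_lit 0) (.cons (.ev (nat_lit 122807994363431921753275953709056) (nat_lit 4)) .nil)) .nil))) .nil)))),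
 (.br (nat_lit 13) (nat_lit 0) (.cons (.rf (nat_lit 2057) (nat_lit 493858305440582043680)) (.cons (.br (nat_lit 5) (nat_lit 0) (.cons (.ev (nat_lit 122807994363431921753275953711112) (nat_lit 4)) .nil)) .nil))),
 (.br (nat_lit 13) (nat_lit 0) (.cons (.rf (nat_lit 2057) (nat_lit 493858305440582043680)) (.cons (.rf (nat_lit 2058) (nat_lit 493858305440582043680)) (.cons (.br (nat_lit 13) (nat_lit 0) (.cons (.rf (nat_lit 2057) (nat_lit 493858305440582043680)) (.cons (.rf (nat_lit 2058) (nat_lit 493858305440582043680)) .nil))) .nil)))),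
 (.br (nat_lit 13) (nat_lit 0) (.cons (.rf (nat_lit 2057) (nat_lit 493858305440582043680)) (.cons (.rf (nat_lit 2059) (nat_lit 493858305440582043680)) (.cons (.br (nat_lit 13) (nat_lit 0) (.cons (.rf (nat_lit 2057) (nat_lit 493858305440582043680)) (.cons (.rf (nat_lit 2059) (nat_lit 493858305440582043680)) .nil))) .nil)))),
 (.br (nat_lit 10) (nat_lit 0) (.cons (.zr (nat_lit 1237940058020636199737099268) (nat_lit 2432018738677880203902976) (nat_lit 10) (nat_lit 2)) (.cons (.br (nat_lit 13) (nat_lit 0) (.cons (.ev (nat_lit 159701523474225718309565892100) (nat_lit 3)) .nil)) .nil))),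
 (.br (nat_lit 12) (nat_lit 0) (.cons (.ev (nat_lit 40565131110220358108699795915521) (nat_lit 2)) .nil)),
 (.br (nat_lit 10) (nat_lit 0) (.cons (.kr (nat_lit 2417870086254807069229056) (nat_lit 158456329750895160260051337216) (nat_lit 3) (nat_lit 0)) (.cons (.rf (nat_lit 2062) (nat_lit 493858305440582043680)) .nil))),
 (.br (nat_lit 10) (nat_lit 0) (.cons (.rf (nat_lit 2062) (nat_lit 493858305440582043680)) (.cons (.rf (nat_lit 2062) (nat_lit 485643561739201120257)) .nil))),
 (.br (nat_lit 2) (nat_lit 0) (.cons (.rf (nat_lit 2051) (nat_lit 14242959524133701664)) (.cons (.br (nat_lit 7) (nat_lit 0) (.cons (.br (nat_lit 11) (nat_lit 0) (.cons (.rf (nat_lit 2052) (nat_lit 14242959524133701664)) (.cons (.rf (nat_lit 2053) (nat_lit 14242959524133701664)) (.cons (.br (nat_lit 11) (nat_lit 0) (.cons (.rf (nat_lit 2052) (nat_lit 14242959524133701664)) (.cons (.rf (nat_lit 2053) (nat_lit 14242959524133701664)) .nil))) .nil)))) (.cons (.ev (nat_lit 18518801667764257024) (nat_lit 1)) (.cons (.br (nat_lit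 5) (nat_lit 0) (.cons (.br (nat_lit 12) (nat_lit 0) (.cons (.ev (nat_lit 79538861190718806809286541313) (nat_lit 1)) (.cons (.rf (nat_lit 1966) (nat_lit 468777607202817)) .nil))) (.cons (.br (nat_lit 10) (nat_lit 0) (.cons (.ev (nat_lit 79538861190718806809286541313) (nat_lit 1)) (.cons (.br (nat_lit 13) (nat_lit 0) (.cons (.ev (nat_lit 79546119468364954274080293895) (nat_lit 3)) .nil)) .nil))) (.cons (.br (nat_lit 10) (nat_lit 0) (.cons (.ev (nat_lit 79538861190718806809286541313) (nat_lit 1)) (.cons (.br (nat_lit 13) (nat_lit 0) (.cons (.ev (nat_lit 79546143135536474960708109063) (nat_lit 3)) .nil)) .nil))) (.cons (.br (nat_lit 10) (nat_lit 0) (.cons (.br (nat_lit 13) (nat_lit 0) (.cons (.ev (nat_lit 79538856449905298395250032896) (nat_lit 1)) .nil)) (.cons (.rf (nat_lit 1966) (nat_lit 468777834743840)) (.cons (.br (nat_lit 11) (nat_lit 0) (.cons (.ev (nat_lit 79546119468364954274080293632) (nat_lit 3)) (.cons (.br (nat_lit 12) (nat_lit 0) (.cons (.ev (nat_lit 122489848609112356222612745619456)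 (nat_lit 4)) .nil)) .nil))) .nil)))) .nil))))) (.cons (.br (nat_lit 11) (nat_lit 0) (.cons (.rf (nat_lit 2054) (nat_lit 14242959524133701664)) (.cons (.rf (nat_lit 2055) (nat_lit 14242959524133701664)) (.cons (.br (nat_lit 11) (nat_lit 0) (.cons (.rf (nat_lit 2054) (nat_lit 14242959524133701664)) (.cons (.rf (nat_lit 2055) (nat_lit 14242959524133701664)) .nil))) .nil)))) (.cons (.br (nat_lit 13) (nat_lit 0) (.cons (.rf (nat_lit 2057) (nat_lit 493858305440582043680)) (.cons (.rf (nat_lit 2059) (nat_lit 493858305440582043680)) (.cons (.rf (nat_lit 2060) (nat_lit 493858305440582043680)) (.cons (.br (nat_lit 13) (nat_lit 0) (.cons (.rf (nat_lit 2057) (nat_lit 493858305440582043680)) (.cons (.rf (nat_lit 2059) (nat_lit 493858305440582043680)) (.cons (.rf (nat_lit 2060) (nat_lit 493858305440582043680)) .nil)))) .nil))))) .nil)))))) (.cons (.br (nat_lit 7) (nat_lit 0) (.cons (.ev (nat_lit 18519083147036000513) (nat_lit 1)) (.cons (.ev (nat_lit 18518801667764257024) (nat_lit 1)) (.cons (.br (nat_lit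 10) (nat_lit 0) (.cons (.rf (nat_lit 2061) (nat_lit 14242959524133701664)) (.cons (.rf (nat_lit 2061) (nat_lit 6028215822752778241)) (.cons (.br (nat_lit 10) (nat_lit 0) (.cons (.rf (nat_lit 2061) (nat_lit 14242959524133701664)) (.cons (.rf (nat_lit 2061) (nat_lit 6028215822752778241)) .nil))) .nil)))) (.cons (.ev (nat_lit 18519083147036000256) (nat_lit 1)) (.cons (.br (nat_lit 11) (nat_lit 0) (.cons (.ev (nat_lit 309489750634853487073099776) (nat_lit 1)) (.cons (.ev (nat_lit 309485009821626543718268929) (nat_lit 1)) (.cons (.ev (nat_lit 309489750634853487073100033) (nat_lit 1)) (.cons (.br (nat_lit 10) (nat_lit 0) (.cons (.rf (nat_lit 2063) (nat_lit 493858305440582043680)) (.cons (.rf (nat_lit 2063) (nat_lit 485643561739201120257)) (.cons (.rf (nat_lit 2064) (nat_lit 493858305440582043680)) .nil)))) .nil))))) .nil)))))) (.cons (.rf (nat_lit 2051) (nat_lit 6028215822752778241)) (.cons (.rf (nat_lit 1943) (nat_lit 427010)) .nil))))))]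

theorem c74 : chkAll C T R L74 (nat_lit 2031) = true := by decide +kernel

theorem l74 : (nat_lit 2031) + L74.length = (nat_lit 2066) := by decide +kernel

/-- part of the certificates -/
def L75 : List Prf := [(.br (nat_lit 1) (nat_lit 0) (.cons (.kr (nat_lit 1) (nat_lit 256) (nat_lit 0) (nat_lit 2)) (.cons (.rf (nat_lit 1983) (nat_lit 14242959524133701664)) (.cons (.br (nat_lit 2) (nat_lit 0) (.cons (.rf (nat_lit 1990) (nat_lit 14242959524133701664)) (.cons (.rf (nat_lit 1999) (nat_lit 14242959524133701664)) (.cons (.rf (nat_lit 2005) (nat_lit 14242959524133701664)) (.cons (.rf (nat_lit 2013) (nat_lit 14242959524133701664)) (.cons (.br (nat_lit 2) (nat_lit 0) (.cons (.rf (nat_lit 1990) (nat_lit 14242959524133701664)) (.cons (.rf (nat_lit 1999) (nat_lit 14242959524133701664)) (.cons (.rf (nat_lit 2005) (nat_lit 14242959524133701664)) (.cons (.rf (nat_lit 2013) (nat_lit 14242959524133701664)) (.cons (.rf (nat_lit 1943) (nat_lit 427010)) .nil)))))) (.cons (.rf (nat_lit 1943) (nat_lit 427010))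 .nil))))))) (.cons (.br (nat_lit 2) (nat_lit 0) (.cons (.rf (nat_lit 2022) (nat_lit 14242959524133701664)) (.cons (.rf (nat_lit 2030) (nat_lit 14242959524133701664)) (.cons (.rf (nat_lit 2039) (nat_lit 14242959524133701664)) (.cons (.br (nat_lit 2) (nat_lit 0) (.cons (.rf (nat_lit 2022) (nat_lit 14242959524133701664)) (.cons (.rf (nat_lit 2030) (nat_lit 14242959524133701664)) (.cons (.kr (nat_lit 18447025548686262784) (nat_lit 4722366482873940312064) (nat_lit 1) (nat_lit 0)) (.cons (.rf (nat_lit 1983) (nat_lit 6132992408932417570)) (.cons (.rf (nat_lit 1943) (nat_lit 427010)) .nil)))))) (.cons (.br (nat_lit 2) (nat_lit 0) (.cons (.rf (nat_lit 2022) (nat_lit 14242959524133701664)) (.cons (.rf (nat_lit 2030) (nat_lit 14242959524133701664)) (.cons (.rf (nat_lit 2039) (nat_lit 14242959524133701664)) (.cons (.rf (nat_lit 1983) (nat_lit 6132992408932417570)) (.cons (.rf (nat_lit 1943) (nat_lit 427010)) .nil)))))) (.cons (.rf (nat_lit 1943) (nat_lit 427010)) .nil))))))) (.cons (.br (nat_lit 2) (nat_lit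 0) (.cons (.rf (nat_lit 2051) (nat_lit 14242959524133701664)) (.cons (.rf (nat_lit 2065) (nat_lit 14242959524133701664)) (.cons (.br (nat_lit 2) (nat_lit 0) (.cons (.kr (nat_lit 18447025548686262274) (nat_lit 4722366482873940312064) (nat_lit 0) (nat_lit 1)) (.cons (.rf (nat_lit 2065) (nat_lit 14242959524133701664)) (.cons (.rf (nat_lit 2065) (nat_lit 6028215822752778241)) (.cons (.kr (nat_lit 18447025548686262784) (nat_lit 4722366482873940312064) (nat_lit 1) (nat_lit 0)) (.cons (.rf (nat_lit 1943) (nat_lit 427010)) .nil)))))) (.cons (.rf (nat_lit 2065) (nat_lit 6028215822752778241)) (.cons (.rf (nat_lit 2051) (nat_lit 6028215822752778241)) (.cons (.rf (nat_lit 1943) (nat_lit 427010)) .nil))))))) (.cons (.rf (nat_lit 1943) (nat_lit 428033)) .nil))))))),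
 (.br (nat_lit 12) (nat_lit 0) (.cons (.rf (nat_lit 1976) (nat_lit 14205871928624941057)) (.cons (.br (nat_lit 6) (nat_lit 0) (.cons (.ev (nat_lit 79538861172271780161088651521) (nat_lit 1)) .nil)) .nil))),
 (.br (nat_lit 12) (nat_lit 0) (.cons (.br (nat_lit 12) (nat_lit 0) (.cons (.rf (nat_lit 1976) (nat_lit 14205871928624941057)) (.cons (.rf (nat_lit 1976) (nat_lit 14170968997186635777)) .nil))) (.cons (.rf (nat_lit 2067) (nat_lit 14242959524133701664)) (.cons (.rf (nat_lit 2067) (nat_lit 14241867743447058464)) .nil)))),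
 (.br (nat_lit 12) (nat_lit 0) (.cons (.kr (nat_lit 4740813226947649732608) (nat_lit 158456325028528956662064611328) (nat_lit 4) (nat_lit 0)) (.cons (.kr (nat_lit 18446744073709551617) (nat_lit 79228162514264337593543950592) (nat_lit 0) (nat_lit 2)) (.cons (.kr (nat_lit 4722366482869645213696) (nat_lit 79228162514264337593543950336) (nat_lit 9) (nat_lit 0)) (.cons (.rf (nat_lit 2068) (nat_lit 15433072045018155040)) .nil))))),
 (.br (nat_lit 7) (nat_lit 0) (.cons (.rf (nat_lit 1966) (nat_lit 469914757531680)) (.cons (.br (nat_lit 11) (nat_lit 0) (.cons (.ev (nat_lit 20361637766166007101709338279936) (nat_lit 1)) .nil)) .nil))),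
 (.br (nat_lit 13) (nat_lit 0) (.cons (.rf (nat_lit 2070) (nat_lit 493858305440582043680)) (.cons (.rf (nat_lit 2070) (nat_lit 493858271218282760193)) (.cons (.br (nat_lit 13) (nat_lit 0) (.cons (.rf (nat_lit 2070) (nat_lit 493858305440582043680)) (.cons (.rf (nat_lit 2070) (nat_lit 493858271218282760193)) .nil))) .nil)))),
 (.br (nat_lit 12) (nat_lit 0) (.cons (.kr (nat_lit 18446744073709551617) (nat_lit 79228162514264337593543950592) (nat_lit 0) (nat_lit 2)) (.cons (.kr (nat_lit 18446744073709551616) (nat_lit 79228162514264337593543950336) (nat_lit 8) (nat_lit 0)) (.cons (.kr (nat_lit 158456325028528675191382867968) (nat_lit 4740813508418331475968) (nat_lit 4) (nat_lit 0)) (.cons (.rf (nat_lit 2071) (nat_lit 493858305440582043680)) .nil))))),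
 (.br (nat_lit 12) (nat_lit 0) (.cons (.rf (nat_lit 1976) (nat_lit 14241867740227962881)) .nil)),
 (.br (nat_lit 11) (nat_lit 0) (.cons (.br (nat_lit 10) (nat_lit 0) (.cons (.ev (nat_lit 79228167255149903610225164545) (nat_lit 1)) (.cons (.br (nat_lit 13) (nat_lit 0) (.cons (.br (nat_lit 13) (nat_lit 0) .nil) .nil)) .nil))) (.cons (.ev (nat_lit 310693954087704875415699456) (nat_lit 1)) (.cons (.br (nat_lit 7) (nat_lit 0) (.cons (.ev (nat_lit 79228167255149903610225164545) (nat_lit 1)) (.cons (.rf (nat_lit 2073) (nat_lit 15433072045018155040)) .nil))) (.cons (.rf (nat_lit 2068) (nat_lit 15398169079253665824)) .nil))))),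
 (.br (nat_lit 11) (nat_lit 0) (.cons (.rf (nat_lit 2074) (nat_lit 14242959524133701664)) (.cons (.ev (nat_lit 310693954087704875415699713) (nat_lit 1)) (.cons (.br (nat_lit 3) (nat_lit 0) (.cons (.ev (nat_lit 79228167255149903610225164545) (nat_lit 1)) (.cons (.rf (nat_lit 2073) (nat_lit 15433072040723318785)) .nil))) (.cons (.rf (nat_lit 2068) (nat_lit 15398169074958829569)) .nil))))),
 (.br (nat_lit 7) (nat_lit 0) (.cons (.rf (nat_lit 1966) (nat_lit 470979909421088)) (.cons (.br (nat_lit 12) (nat_lit 0) (.cons (.ev (nat_lit 477233143440389972534142961158) (nat_lit 3)) .nil)) .nil))),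
 (.br (nat_lit 3) (nat_lit 0) (.cons (.rf (nat_lit 1966) (nat_lit 470979779397633)) (.cons (.rf (nat_lit 2076) (nat_lit 493858305440582043680)) .nil))),
 (.br (nat_lit 11) (nat_lit 0) (.cons (.ev (nat_lit 310693954087704875415699456) (nat_lit 1)) (.cons (.ev (nat_lit 310693954087704875415699713) (nat_lit 1)) (.cons (.br (nat_lit 3) (nat_lit 0) (.cons (.ev (nat_lit 79228162514336676666870399233) (nat_lit 1)) (.cons (.br (nat_lit 13) (nat_lit 0) (.cons (.ev (nat_lit 79228167255149622130953486336) (nat_lit 1)) .nil)) .nil))) (.cons (.br (nat_lit 13) (nat_lit 0) (.cons (.rf (nat_lit 2076) (nat_lit 493858305440582043680)) (.cons (.rf (nat_lit 2077) (nat_lit 493858305440582043680)) (.cons (.br (nat_lit 13) (nat_lit 0) (.cons (.rf (nat_lit 2076) (nat_lit 493858305440582043680)) (.cons (.rf (nat_lit 2077) (nat_lit 493858305440582043680)) .nil))) .nil)))) .nil))))),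
 (.br (nat_lit 9) (nat_lit 0) (.cons (.rf (nat_lit 1966) (nat_lit 323505632708609)) .nil)),
 (.br (nat_lit 11) (nat_lit 0) (.cons (.rf (nat_lit 2074) (nat_lit 14242959524133701664)) (.cons (.rf (nat_lit 2075) (nat_lit 14242959524133701664)) (.cons (.rf (nat_lit 2078) (nat_lit 14242959524133701664)) (.cons (.br (nat_lit 3) (nat_lit 0) (.cons (.ev (nat_lit 79228162514336676666870399233) (nat_lit 1)) (.cons (.rf (nat_lit 2079) (nat_lit 470979911452704)) (.cons (.br (nat_lit 7) (nat_lit 0) (.cons (.rf (nat_lit 1966) (nat_lit 468783033649184)) (.cons (.ev (nat_lit 79228167255149622130953486336) (nat_lit 1)) .nil))) .nil)))) .nil))))),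
 (.br (nat_lit 2) (nat_lit 0) (.cons (.rf (nat_lit 2066) (nat_lit 14242959524133700672)) (.cons (.rf (nat_lit 2066) (nat_lit 14208022404722294849)) (.cons (.br (nat_lit 12) (nat_lit 0) (.cons (.rf (nat_lit 2069) (nat_lit 14242959524133701664)) (.cons (.rf (nat_lit 2069) (nat_lit 14208022404722296833)) (.cons (.rf (nat_lit 2072) (nat_lit 14242959524133701664)) (.cons (.rf (nat_lit 2072) (nat_lit 14208022404722296833)) (.cons (.br (nat_lit 12) (nat_lit 0) (.cons (.rf (nat_lit 2068) (nat_lit 15433072045018155040)) (.cons (.rf (nat_lit 2068) (nat_lit 15433072040723318785)) (.cons (.rf (nat_lit 2072) (nat_lit 14242959524133701664)) (.cons (.rf (nat_lit 2072) (nat_lit 14208022404722296833)) .nil))))) .nil)))))) (.cons (.br (nat_lit 11) (nat_lit 0) (.cons (.rf (nat_lit 2074) (nat_lit 14242959524133701664)) (.cons (.rf (nat_lit 2075) (nat_lit 14242959524133701664)) (.cons (.rf (nat_lit 2078) (nat_lit 14242959524133701664)) (.cons (.rf (nat_lit 2080) (nat_lit 14242959524133701664)) (.cons (.br (nat_lit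 11) (nat_lit 0) (.cons (.rf (nat_lit 2068) (nat_lit 15398169079253665824)) (.cons (.rf (nat_lit 2068) (nat_lit 15398169074958829569)) (.cons (.rf (nat_lit 2078) (nat_lit 14242959524133701664)) (.cons (.rf (nat_lit 2080) (nat_lit 14242959524133701664)) .nil))))) .nil)))))) (.cons (.rf (nat_lit 1943) (nat_lit 427010)) .nil)))))),
 (.br (nat_lit 12) (nat_lit 0) (.cons (.br (nat_lit 10) (nat_lit 0) (.cons (.ev (nat_lit 79229371440083953322247127041) (nat_lit 1)) .nil)) (.cons (.rf (nat_lit 2026) (nat_lit 14163086603762960385)) .nil))),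
 (.br (nat_lit 12) (nat_lit 0) (.cons (.rf (nat_lit 2082) (nat_lit 14242959524133701664)) (.cons (.rf (nat_lit 2082) (nat_lit 14242889224109000736)) (.cons (.br (nat_lit 12) (nat_lit 0) (.cons (.rf (nat_lit 2026) (nat_lit 14163086603762960385)) (.cons (.rf (nat_lit 2026) (nat_lit 14091029078444509185)) .nil))) .nil)))),
 (.br (nat_lit 12) (nat_lit 0) (.cons (.kr (nat_lit 4740813226947649732608) (nat_lit 158456325028528956662064611328) (nat_lit 4) (nat_lit 0)) (.cons (.kr (nat_lit 4740813508418331475970) (nat_lit 158456325028528675191382868480) (nat_lit 0) (nat_lit 2)) (.cons (.kr (nat_lit 4722366482869645213696) (nat_lit 79228162514264337593543950336) (nat_lit 9) (nat_lit 0)) (.cons (.rf (nat_lit 2083) (nat_lit 15433072009550071840)) .nil))))),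
 (.br (nat_lit 9) (nat_lit 0) (.cons (.rf (nat_lit 2079) (nat_lit 430297008146464)) (.cons (.rf (nat_lit 2079) (nat_lit 430296773494785)) (.cons (.br (nat_lit 12) (nat_lit 0) (.cons (.br (nat_lit 10) (nat_lit 0) (.cons (.ev (nat_lit 79228167236703159532203868161) (nat_lit 1)) .nil)) (.cons (.rf (nat_lit 2056) (nat_lit 13955784745886582785)) .nil))) .nil)))),
 (.br (nat_lit 12) (nat_lit 0) (.cons (.kr (nat_lit 4740813226947649732608) (nat_lit 158456325028528956662064611328) (nat_lit 4) (nat_lit 0)) (.cons (.kr (nat_lit 18446744073709551616) (nat_lit 79228162514264337593543950336) (nat_lit 8) (nat_lit 0)) (.cons (.kr (nat_lit 158456325028528956662064611330) (nat_lit 4740813226947649733120) (nat_lit 0) (nat_lit 2)) (.cons (.rf (nat_lit 2085) (nat_lit 15433070910038444064)) .nil))))),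
 (.br (nat_lit 10) (nat_lit 0) (.cons (.ev (nat_lit 1208925891673322724261889) (nat_lit 1)) (.cons (.br (nat_lit 7) (nat_lit 0) (.cons (.ev (nat_lit 79537647542532708210971770881) (nat_lit 1)) (.cons (.br (nat_lit 13) (nat_lit 0) (.cons (.br (nat_lit 13) (nat_lit 0) .nil) .nil)) .nil))) (.cons (.br (nat_lit 11) (nat_lit 0) (.cons (.ev (nat_lit 79537647542532708210971770881) (nat_lit 1)) (.cons (.rf (nat_lit 2031) (nat_lit 15252995200897943584)) .nil))) (.cons (.rf (nat_lit 2083) (nat_lit 15361084784256321568)) .nil))))),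
 (.br (nat_lit 10) (nat_lit 0) (.cons (.ev (nat_lit 1208925891673322724261889) (nat_lit 1)) (.cons (.ev (nat_lit 1208925891673322724262144) (nat_lit 1)) (.cons (.br (nat_lit 3) (nat_lit 0) (.cons (.ev (nat_lit 79537652246452447006907432961) (nat_lit 1)) (.cons (.br (nat_lit 13) (nat_lit 0) (.cons (.ev (nat_lit 79537647542532426740290027776) (nat_lit 1)) .nil)) .nil))) (.cons (.br (nat_lit 12) (nat_lit 0) (.cons (.rf (nat_lit 2079) (nat_lit 465450275276832)) (.cons (.rf (nat_lit 2079) (nat_lit 465450007103489)) (.cons (.br (nat_lit 13) (nat_lit 0) (.cons (.br (nat_lit 11) (nat_lit 0) (.cons (.ev (nat_lit 160315657680054168041382217218) (nat_lit 3)) .nil)) (.cons (.br (nat_lit 3) (nat_lit 0) (.cons (.ev (nat_lit 160315657680054168041382217218) (nat_lit 3)) .nil)) .nil))) .nil)))) .nil))))),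
 (.br (nat_lit 10) (nat_lit 0) (.cons (.rf (nat_lit 2087) (nat_lit 14242959524133701664)) (.cons (.ev (nat_lit 1208925891673322724262144) (nat_lit 1)) (.cons (.br (nat_lit 3) (nat_lit 0) (.cons (.ev (nat_lit 79537647542532708210971770881) (nat_lit 1)) (.cons (.rf (nat_lit 2031) (nat_lit 15243985802890479617)) .nil))) (.cons (.rf (nat_lit 2083) (nat_lit 15352077582856456193)) .nil))))),
 (.br (nat_lit 3) (nat_lit 0) (.cons (.rf (nat_lit 2079) (nat_lit 470942464706592)) (.cons (.ev (nat_lit 79537652246452447006907432961) (nat_lit 1)) (.cons (.br (nat_lit 11) (nat_lit 0) (.cons (.rf (nat_lit 1966) (nat_lit 465450273245216)) (.cons (.ev (nat_lit 79537652246452447006907433216) (nat_lit 1)) .nil))) .nil)))),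
 (.br (nat_lit 2) (nat_lit 0) (.cons (.rf (nat_lit 2066) (nat_lit 14242959524133700672)) (.cons (.br (nat_lit 12) (nat_lit 0) (.cons (.rf (nat_lit 2084) (nat_lit 14242959524133701664)) (.cons (.rf (nat_lit 2086) (nat_lit 14242959524133701664)) (.cons (.rf (nat_lit 2086) (nat_lit 13951351549195552769)) (.cons (.rf (nat_lit 2084) (nat_lit 13951351549195552769)) (.cons (.br (nat_lit 12) (nat_lit 0) (.cons (.rf (nat_lit 2083) (nat_lit 15433072009550071840)) (.cons (.rf (nat_lit 2085) (nat_lit 15433070910038444064)) (.cons (.rf (nat_lit 2085) (nat_lit 15423958258601527297)) (.cons (.rf (nat_lit 2083) (nat_lit 15424064808150206465)) .nil))))) .nil)))))) (.cons (.rf (nat_lit 2066) (nat_lit 13951351549195550785)) (.cons (.br (nat_lit 10) (nat_lit 0) (.cons (.rf (nat_lit 2087) (nat_lit 14242959524133701664)) (.cons (.rf (nat_lit 2088) (nat_lit 14242959524133701664)) (.cons (.rf (nat_lit 2089) (nat_lit 14242959524133701664)) (.cons (.br (nat_lit 10) (nat_lit 0) (.cons (.rf (nat_lit 2087) (nat_lit 14242959524133701664))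 (.cons (.rf (nat_lit 2088) (nat_lit 14242959524133701664)) (.cons (.rf (nat_lit 2089) (nat_lit 14242959524133701664)) (.cons (.rf (nat_lit 2090) (nat_lit 493858305440582043680)) .nil))))) (.cons (.br (nat_lit 10) (nat_lit 0) (.cons (.rf (nat_lit 2083) (nat_lit 15361084784256321568)) (.cons (.rf (nat_lit 2088) (nat_lit 14242959524133701664)) (.cons (.rf (nat_lit 2083) (nat_lit 15352077582856456193)) (.cons (.rf (nat_lit 2090) (nat_lit 493858305440582043680)) .nil))))) .nil)))))) (.cons (.rf (nat_lit 1943) (nat_lit 427010)) .nil)))))),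
 (.br (nat_lit 9) (nat_lit 0) (.cons (.br (nat_lit 9) (nat_lit 0) .nil) .nil)),
 (.br (nat_lit 9) (nat_lit 0) (.cons (.ev (nat_lit 309485009821626543718334721) (nat_lit 1)) (.cons (.rf (nat_lit 2092) (nat_lit 434660560701472)) .nil))),
 (.br (nat_lit 9) (nat_lit 0) (.cons (.br (nat_lit 9) (nat_lit 0) .nil) .nil)),
 (.br (nat_lit 7) (nat_lit 0) (.cons (.br (nat_lit 11) (nat_lit 0) (.cons (.ev (nat_lit 79228167255149903610225164545) (nat_lit 1)) (.cons (.br (nat_lit 13) (nat_lit 0) (.cons (.kr (nat_lit 158458742880168185924742545408) (nat_lit 618974760600034467903438848) (nat_lit 3) (nat_lit 0)) .nil)) .nil))) (.cons (.rf (nat_lit 2093) (nat_lit 445092485094541344)) (.cons (.ev (nat_lit 79228162514336676666870398976) (nat_lit 1)) (.cons (.br (nat_lit 10) (nat_lit 0) (.cons (.rf (nat_lit 2092) (nat_lit 470976790890528)) (.cons (.rf (nat_lit 2094) (nat_lit 470979911452704)) (.cons (.br (nat_lit 11) (nat_lit 0) (.cons (.kr (nat_lit 618974760600315942880149506) (nat_lit 158458742880167904458355769856)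 (nat_lit 0) (nat_lit 2)) (.cons (.ev (nat_lit 310693954087986346097443073) (nat_lit 1)) .nil))) .nil)))) .nil))))),
 (.br (nat_lit 11) (nat_lit 0) (.cons (.rf (nat_lit 2093) (nat_lit 445092485094541344)) (.cons (.ev (nat_lit 310698658007725142033105153) (nat_lit 1)) (.cons (.rf (nat_lit 2093) (nat_lit 120833174489401345)) (.cons (.br (nat_lit 10) (nat_lit 0) (.cons (.rf (nat_lit 2079) (nat_lit 465482521085984)) (.cons (.rf (nat_lit 2079) (nat_lit 465482219390977)) (.cons (.br (nat_lit 3) (nat_lit 0) (.cons (.ev (nat_lit 80162685895844012685049201413) (nat_lit 3)) (.cons (.br (nat_lit 12) (nat_lit 0) (.cons (.ev (nat_lit 41677734561027600996956174026762) (nat_lit 4)) .nil)) .nil))) .nil)))) .nil))))),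
 (.br (nat_lit 11) (nat_lit 0) (.cons (.rf (nat_lit 2095) (nat_lit 14242959524133701664)) (.cons (.ev (nat_lit 310698658007725142033105153) (nat_lit 1)) (.cons (.br (nat_lit 7) (nat_lit 0) (.cons (.ev (nat_lit 79228162514336676666870399233) (nat_lit 1)) (.cons (.rf (nat_lit 2092) (nat_lit 461081186535425)) .nil))) (.cons (.rf (nat_lit 2085) (nat_lit 15387929461582596097)) .nil)))))]

theorem c75 : chkAll C T R L75 (nat_lit 2066) = true := by decide +kernel

theorem l75 : (nat_lit 2066) + L75.length = (nat_lit 2098) := by decide +kernel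

/-- part of the certificates -/
def L76 : List Prf := [(.br (nat_lit 10) (nat_lit 0) (.cons (.kr (nat_lit 618974760600034467903438850) (nat_lit 158458742880168185924742545920) (nat_lit 0) (nat_lit 2)) (.cons (.ev (nat_lit 310693954087986346097442816) (nat_lit 1)) .nil))),
 (.br (nat_lit 11) (nat_lit 0) (.cons (.rf (nat_lit 2095) (nat_lit 14242959524133701664)) (.cons (.rf (nat_lit 2093) (nat_lit 120833174489401345)) (.cons (.rf (nat_lit 2097) (nat_lit 14242959524133701664)) (.cons (.br (nat_lit 13) (nat_lit 0) (.cons (.rf (nat_lit 2098) (nat_lit 493858305440582043680)) (.cons (.br (nat_lit 13) (nat_lit 0) (.cons (.rf (nat_lit 2098) (nat_lit 493858305440582043680)) (.cons (.ev (nat_lit 310693954087986346097442816) (nat_lit 1)) .nil))) (.cons (.ev (nat_lit 310693954087986346097442816) (nat_lit 1)) .nil)))) .nil))))),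
 (.br (nat_lit 7) (nat_lit 0) (.cons (.ev (nat_lit 1208925891673322724261889) (nat_lit 1)) (.cons (.br (nat_lit 10) (nat_lit 0) (.cons (.ev (nat_lit 1213666704900266079027456) (nat_lit 1)) (.cons (.br (nat_lit 13) (nat_lit 0) (.cons (.ev (nat_lit 158463583361442718015887376900) (nat_lit 3)) .nil)) .nil))) (.cons (.ev (nat_lit 79228162514336676666870398976) (nat_lit 1)) (.cons (.br (nat_lit 11) (nat_lit 0) (.cons (.ev (nat_lit 310693954087986346097443073) (nat_lit 1)) (.cons (.ev (nat_lit 79537652246452447006907433216) (nat_lit 1)) (.cons (.br (nat_lit 13) (nat_lit 0) (.cons (.br (nat_lit 12) (nat_lit 0) (.cons (.ev (nat_lit 244343990824720817058133930806788) (nat_lit 4)) .nil)) (.cons (.br (nat_lit 10) (nat_lit 0) (.cons (.ev (nat_lit 244343990824720817058133930806788) (nat_lit 4)) .nil)) .nil))) .nil)))) .nil))))),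
 (.br (nat_lit 9) (nat_lit 0) (.cons (.br (nat_lit 9) (nat_lit 0) .nil) .nil)),
 (.br (nat_lit 10) (nat_lit 0) (.cons (.ev (nat_lit 1208925891673322724261889) (nat_lit 1)) (.cons (.br (nat_lit 3) (nat_lit 0) (.cons (.ev (nat_lit 158463583361442155074523889670) (nat_lit 3)) (.cons (.rf (nat_lit 2101) (nat_lit 470979911452704)) .nil))) (.cons (.ev (nat_lit 1208925891673322724262144) (nat_lit 1)) (.cons (.br (nat_lit 11) (nat_lit 0) (.cons (.rf (nat_lit 2079) (nat_lit 465449235089440)) (.cons (.rf (nat_lit 2079) (nat_lit 465448933394433)) (.cons (.ev (nat_lit 310698658007725142033105153) (nat_lit 1)) .nil)))) .nil))))),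
 (.br (nat_lit 10) (nat_lit 0) (.cons (.ev (nat_lit 310693954087986346097443073) (nat_lit 1)) (.cons (.rf (nat_lit 2102) (nat_lit 14242959524133701664)) (.cons (.ev (nat_lit 310693954087986346097442816) (nat_lit 1)) (.cons (.br (nat_lit 7) (nat_lit 0) (.cons (.rf (nat_lit 2079) (nat_lit 469842986633248)) (.cons (.rf (nat_lit 2079) (nat_lit 469842684938241)) (.cons (.ev (nat_lit 1213666704900266079027201) (nat_lit 1)) .nil)))) .nil))))),
 (.br (nat_lit 3) (nat_lit 0) (.cons (.ev (nat_lit 79228162514336676666870399233) (nat_lit 1)) (.cons (.rf (nat_lit 2100) (nat_lit 14242959524133701664)) (.cons (.ev (nat_lit 79537647542532426740290027521) (nat_lit 1)) (.cons (.br (nat_lit 10) (nat_lit 0) (.cons (.ev (nat_lit 1208925891673322724262144) (nat_lit 1)) (.cons (.ev (nat_lit 310698658007443671351361536) (nat_lit 1)) (.cons (.br (nat_lit 7) (nat_lit 0) (.cons (.ev (nat_lit 158463583361442718015887377410) (nat_lit 3)) (.cons (.br (nat_lit 11) (nat_lit 0) (.cons (.ev (nat_lit 244343990824720817058133930804748)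 (nat_lit 4)) .nil)) .nil))) .nil)))) .nil))))),
 (.br (nat_lit 10) (nat_lit 0) (.cons (.ev (nat_lit 1208925891673322724261889) (nat_lit 1)) (.cons (.br (nat_lit 7) (nat_lit 0) (.cons (.ev (nat_lit 79537647542532708210971770881) (nat_lit 1)) (.cons (.rf (nat_lit 1960) (nat_lit 461084242083874)) .nil))) (.cons (.rf (nat_lit 1948) (nat_lit 14992225684815937)) .nil)))),
 (.br (nat_lit 10) (nat_lit 0) (.cons (.ev (nat_lit 1208925891673322724261889) (nat_lit 1)) (.cons (.br (nat_lit 3) (nat_lit 0) (.cons (.ev (nat_lit 79537652246452447006907432961) (nat_lit 1)) (.cons (.rf (nat_lit 1960) (nat_lit 465482519054368)) .nil))) (.cons (.rf (nat_lit 1948) (nat_lit 14996623604221953)) .nil)))),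
 (.br (nat_lit 10) (nat_lit 0) (.cons (.rf (nat_lit 2105) (nat_lit 14242959524133701664)) (.cons (.rf (nat_lit 2106) (nat_lit 14242959524133701664)) (.cons (.br (nat_lit 7) (nat_lit 0) (.cons (.br (nat_lit 13) (nat_lit 0) (.cons (.kr (nat_lit 158458742880168185924742545408) (nat_lit 618974760600034467903438848) (nat_lit 3) (nat_lit 0)) .nil)) (.cons (.rf (nat_lit 2018) (nat_lit 8191069510510479361)) (.cons (.ev (nat_lit 1213666704900266079027201) (nat_lit 1)) .nil)))) .nil)))),
 (.br (nat_lit 2) (nat_lit 0) (.cons (.rf (nat_lit 2066) (nat_lit 14242959524133700672)) (.cons (.br (nat_lit 11) (nat_lit 0) (.cons (.rf (nat_lit 2095) (nat_lit 14242959524133701664)) (.cons (.rf (nat_lit 2096) (nat_lit 14242959524133701664)) (.cons (.rf (nat_lit 2097) (nat_lit 14242959524133701664)) (.cons (.rf (nat_lit 2099) (nat_lit 14242959524133701664)) (.cons (.br (nat_lit 11) (nat_lit 0) (.cons (.rf (nat_lit 2095) (nat_lit 14242959524133701664)) (.cons (.rf (nat_lit 2096) (nat_lit 14242959524133701664)) (.cons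 (.rf (nat_lit 2085) (nat_lit 15387929461582596097)) (.cons (.rf (nat_lit 2099) (nat_lit 14242959524133701664)) .nil))))) .nil)))))) (.cons (.br (nat_lit 10) (nat_lit 0) (.cons (.rf (nat_lit 2100) (nat_lit 14242959524133701664)) (.cons (.rf (nat_lit 2102) (nat_lit 14242959524133701664)) (.cons (.rf (nat_lit 2103) (nat_lit 14242959524133701664)) (.cons (.rf (nat_lit 2104) (nat_lit 14242959524133701664)) (.cons (.br (nat_lit 10) (nat_lit 0) (.cons (.rf (nat_lit 2100) (nat_lit 14242959524133701664)) (.cons (.rf (nat_lit 2102) (nat_lit 14242959524133701664)) (.cons (.rf (nat_lit 2103) (nat_lit 14242959524133701664)) (.cons (.rf (nat_lit 2104) (nat_lit 14242959524133701664)) .nil))))) .nil)))))) (.cons (.br (nat_lit 10) (nat_lit 0) (.cons (.rf (nat_lit 2105) (nat_lit 14242959524133701664)) (.cons (.rf (nat_lit 2106) (nat_lit 14242959524133701664)) (.cons (.rf (nat_lit 2107) (nat_lit 14242959524133701664)) (.cons (.br (nat_lit 10) (nat_lit 0) (.cons (.rf (nat_lit 1948) (nat_lit 14992225684815937)) (.cons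 (.rf (nat_lit 1948) (nat_lit 14996623604221953)) (.cons (.rf (nat_lit 2107) (nat_lit 14242959524133701664)) .nil)))) .nil))))) (.cons (.rf (nat_lit 1943) (nat_lit 427010)) .nil)))))),
 (.br (nat_lit 11) (nat_lit 0) (.cons (.kr (nat_lit 309485028340147835983888385) (nat_lit 79229371440083952227030401280) (nat_lit 0) (nat_lit 2)) (.cons (.br (nat_lit 12) (nat_lit 0) (.cons (.ev (nat_lit 79537647542532708210971770881) (nat_lit 1)) .nil)) .nil))),
 (.br (nat_lit 7) (nat_lit 0) (.cons (.ev (nat_lit 1208925891673322724261889) (nat_lit 1)) (.cons (.br (nat_lit 10) (nat_lit 0) (.cons (.ev (nat_lit 1213666704900266079027456) (nat_lit 1)) (.cons (.rf (nat_lit 2092) (nat_lit 470842606716960)) .nil))) (.cons (.br (nat_lit 10) (nat_lit 0) (.cons (.ev (nat_lit 1213666704900266079027456) (nat_lit 1)) (.cons (.br (nat_lit 13) (nat_lit 0) (.cons (.kr (nat_lit 618970075127039745677328386) (nat_lit 158458747602534668794387759616) (nat_lit 0) (nat_lit 2)) .nil)) .nil))) (.cons (.br (nat_lit 13) (nat_lit 0) (.cons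 (.rf (nat_lit 2109) (nat_lit 493858305440582043680)) (.cons (.br (nat_lit 13) (nat_lit 0) (.cons (.rf (nat_lit 2109) (nat_lit 493858305440582043680)) (.cons (.ev (nat_lit 79537652246452165536225689601) (nat_lit 1)) .nil))) (.cons (.br (nat_lit 13) (nat_lit 0) (.cons (.rf (nat_lit 2109) (nat_lit 493858305440582043680)) (.cons (.ev (nat_lit 79537652246452165536225689601) (nat_lit 1)) .nil))) .nil)))) .nil))))),
 (.br (nat_lit 7) (nat_lit 0) (.cons (.ev (nat_lit 1208925891673322724261889) (nat_lit 1)) (.cons (.br (nat_lit 3) (nat_lit 0) (.cons (.ev (nat_lit 79537652246452165536225689856) (nat_lit 1)) (.cons (.rf (nat_lit 2101) (nat_lit 470976790890528)) .nil))) (.cons (.ev (nat_lit 1208925891673322724262144) (nat_lit 1)) (.cons (.br (nat_lit 11) (nat_lit 0) (.cons (.rf (nat_lit 2079) (nat_lit 468644690757664)) (.cons (.rf (nat_lit 2079) (nat_lit 468644389062657)) (.cons (.br (nat_lit 13) (nat_lit 0) (.cons (.br (nat_lit 12) (nat_lit 0) (.cons (.ev (nat_lit 20361637770906820047182011301888) (nat_lit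 1)) .nil)) (.cons (.br (nat_lit 3) (nat_lit 0) (.cons (.ev (nat_lit 20361637770906820047182011301888) (nat_lit 1)) .nil)) .nil))) .nil)))) .nil))))),
 (.br (nat_lit 3) (nat_lit 0) (.cons (.rf (nat_lit 2110) (nat_lit 14242959524133701664)) (.cons (.br (nat_lit 7) (nat_lit 0) (.cons (.ev (nat_lit 1213666704900266079027456) (nat_lit 1)) (.cons (.rf (nat_lit 2079) (nat_lit 469743128643616)) .nil))) (.cons (.ev (nat_lit 79537647542532708210971771136) (nat_lit 1)) (.cons (.br (nat_lit 10) (nat_lit 0) (.cons (.rf (nat_lit 2101) (nat_lit 470976790890528)) (.cons (.rf (nat_lit 1966) (nat_lit 468644688726048)) (.cons (.br (nat_lit 13) (nat_lit 0) (.cons (.ev (nat_lit 1213666704900266079027201) (nat_lit 1)) (.cons (.ev (nat_lit 79537647542532708210971770881) (nat_lit 1)) .nil))) .nil)))) .nil))))),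
 (.br (nat_lit 11) (nat_lit 0) (.cons (.kr (nat_lit 618974760600034467903438850) (nat_lit 158458742880168185924742545920) (nat_lit 0) (nat_lit 2)) (.cons (.ev (nat_lit 79537652246452165536225689601) (nat_lit 1)) .nil))),
 (.br (nat_lit 3) (nat_lit 0) (.cons (.kr (nat_lit 309485028340147835983888385) (nat_lit 79229371440083952227030401280) (nat_lit 0) (nat_lit 2)) (.cons (.rf (nat_lit 2113) (nat_lit 493858305440582043680)) .nil))),
 (.br (nat_lit 7) (nat_lit 0) (.cons (.rf (nat_lit 2110) (nat_lit 14242959524133701664)) (.cons (.ev (nat_lit 1208925891673322724262144) (nat_lit 1)) (.cons (.rf (nat_lit 2112) (nat_lit 14242959524133701664)) (.cons (.br (nat_lit 13) (nat_lit 0) (.cons (.rf (nat_lit 2113) (nat_lit 493858305440582043680)) (.cons (.rf (nat_lit 2114) (nat_lit 493858305440582043680)) (.cons (.br (nat_lit 13) (nat_lit 0) (.cons (.ev (nat_lit 79537652246452165536225689601) (nat_lit 1)) (.cons (.rf (nat_lit 2114) (nat_lit 493858305440582043680)) .nil))) .nil)))) .nil))))),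
 (.br (nat_lit 7) (nat_lit 0) (.cons (.ev (nat_lit 1208925891673322724261889) (nat_lit 1)) (.cons (.br (nat_lit 10) (nat_lit 0) (.cons (.ev (nat_lit 1861750503164719913519678470) (nat_lit 3)) (.cons (.rf (nat_lit 1960) (nat_lit 461081024004130)) .nil))) (.cons (.rf (nat_lit 1948) (nat_lit 14886672669212737)) .nil)))),
 (.br (nat_lit 7) (nat_lit 0) (.cons (.rf (nat_lit 2116) (nat_lit 14242959524133701664)) (.cons (.rf (nat_lit 2116) (nat_lit 6164517744835624994)) (.cons (.br (nat_lit 13) (nat_lit 0) (.cons (.ev (nat_lit 79228167255149622130953486336) (nat_lit 1)) (.cons (.ev (nat_lit 1213666704900266079027201) (nat_lit 1)) (.cons (.br (nat_lit 13) (nat_lit 0) (.cons (.ev (nat_lit 79537647542532708210971770881) (nat_lit 1)) (.cons (.ev (nat_lit 1213666704900266079027201) (nat_lit 1)) .nil))) .nil)))) .nil)))),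
 (.br (nat_lit 2) (nat_lit 0) (.cons (.rf (nat_lit 2066) (nat_lit 14242959524133700672)) (.cons (.rf (nat_lit 2108) (nat_lit 14242959524133701664)) (.cons (.br (nat_lit 7) (nat_lit 0) (.cons (.rf (nat_lit 2110) (nat_lit 14242959524133701664)) (.cons (.rf (nat_lit 2111) (nat_lit 14242959524133701664)) (.cons (.rf (nat_lit 2112) (nat_lit 14242959524133701664)) (.cons (.rf (nat_lit 2115) (nat_lit 14242959524133701664)) (.cons (.br (nat_lit 7) (nat_lit 0) (.cons (.rf (nat_lit 2110) (nat_lit 14242959524133701664)) (.cons (.rf (nat_lit 2111) (nat_lit 14242959524133701664)) (.cons (.rf (nat_lit 2112) (nat_lit 14242959524133701664)) (.cons (.rf (nat_lit 2115) (nat_lit 14242959524133701664)) .nil))))) .nil)))))) (.cons (.br (nat_lit 7) (nat_lit 0) (.cons (.rf (nat_lit 2116) (nat_lit 14242959524133701664)) (.cons (.rf (nat_lit 2116) (nat_lit 6164517744835624994)) (.cons (.rf (nat_lit 2117) (nat_lit 14242959524133701664)) (.cons (.br (nat_lit 7) (nat_lit 0) (.cons (.rf (nat_lit 1948) (nat_lit 14886672669212737))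 (.cons (.rf (nat_lit 1948) (nat_lit 14894369022838785)) (.cons (.rf (nat_lit 2117) (nat_lit 14242959524133701664)) .nil)))) .nil))))) (.cons (.rf (nat_lit 1943) (nat_lit 427010)) .nil)))))),
 (.br (nat_lit 1) (nat_lit 0) (.cons (.kr (nat_lit 1) (nat_lit 256) (nat_lit 0) (nat_lit 2)) (.cons (.br (nat_lit 2) (nat_lit 0) (.cons (.rf (nat_lit 2066) (nat_lit 14242959524133700672)) (.cons (.rf (nat_lit 2066) (nat_lit 14208022404722294849)) (.cons (.rf (nat_lit 2081) (nat_lit 14242959524133701664)) (.cons (.rf (nat_lit 2081) (nat_lit 14208022404722296833)) (.cons (.br (nat_lit 2) (nat_lit 0) (.cons (.rf (nat_lit 2066) (nat_lit 14242959524133700672)) (.cons (.rf (nat_lit 2066) (nat_lit 14208022404722294849)) (.cons (.rf (nat_lit 2081) (nat_lit 14242959524133701664)) (.cons (.rf (nat_lit 2081) (nat_lit 14208022404722296833)) (.cons (.rf (nat_lit 1943) (nat_lit 427010)) .nil)))))) (.cons (.rf (nat_lit 1943) (nat_lit 427010)) .nil))))))) (.cons (.kr (nat_lit 18447025548686262274) (nat_lit 4722366482873940181504)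 (nat_lit 0) (nat_lit 2)) (.cons (.br (nat_lit 2) (nat_lit 0) (.cons (.rf (nat_lit 2066) (nat_lit 14242959524133700672)) (.cons (.rf (nat_lit 2091) (nat_lit 14242959524133701664)) (.cons (.rf (nat_lit 2091) (nat_lit 13951351549195552769)) (.cons (.rf (nat_lit 2066) (nat_lit 13951351549195550785)) (.cons (.br (nat_lit 2) (nat_lit 0) (.cons (.rf (nat_lit 2066) (nat_lit 14242959524133700672)) (.cons (.rf (nat_lit 2091) (nat_lit 14242959524133701664)) (.cons (.rf (nat_lit 2091) (nat_lit 13951351549195552769)) (.cons (.rf (nat_lit 2066) (nat_lit 13951351549195550785)) (.cons (.rf (nat_lit 1943) (nat_lit 427010)) .nil)))))) (.cons (.rf (nat_lit 1943) (nat_lit 427010)) .nil))))))) (.cons (.br (nat_lit 2) (nat_lit 0) (.cons (.rf (nat_lit 2066) (nat_lit 14242959524133700672)) (.cons (.rf (nat_lit 2108) (nat_lit 14242959524133701664)) (.cons (.rf (nat_lit 2118) (nat_lit 14242959524133701664)) (.cons (.br (nat_lit 2) (nat_lit 0) (.cons (.rf (nat_lit 2066) (nat_lit 14242959524133700672)) (.cons (.rf (nat_lit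 2108) (nat_lit 14242959524133701664)) (.cons (.rf (nat_lit 2118) (nat_lit 14242959524133701664)) (.cons (.rf (nat_lit 2108) (nat_lit 6132992408932417570)) (.cons (.rf (nat_lit 1943) (nat_lit 427010)) .nil)))))) (.cons (.br (nat_lit 2) (nat_lit 0) (.cons (.rf (nat_lit 2066) (nat_lit 14242959524133700672)) (.cons (.rf (nat_lit 2108) (nat_lit 14242959524133701664)) (.cons (.rf (nat_lit 2118) (nat_lit 14242959524133701664)) (.cons (.rf (nat_lit 2108) (nat_lit 6132992408932417570)) (.cons (.rf (nat_lit 1943) (nat_lit 427010)) .nil)))))) (.cons (.rf (nat_lit 1943) (nat_lit 427010)) .nil))))))) (.cons (.rf (nat_lit 1943) (nat_lit 428033)) .nil))))))),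
 (.br (nat_lit 12) (nat_lit 0) (.cons (.ev (nat_lit 18519083147036000256) (nat_lit 1)) (.cons (.kr (nat_lit 55340513696105365506) (nat_lit 158456329750895158061028082176) (nat_lit 0) (nat_lit 2)) (.cons (.kr (nat_lit 55340513696105496578) (nat_lit 158456329750895158061028082688) (nat_lit 0) (nat_lit 3)) (.cons (.rf (nat_lit 2090) (nat_lit 485753967824747200546)) .nil))))),
 (.br (nat_lit 12) (nat_lit 0) (.cons (.ev (nat_lit 18519083147036000256) (nat_lit 1)) (.cons (.kr (nat_lit 55340513696105365506) (nat_lit 158456329750895158061028082176) (nat_lit 0) (nat_lit 2)) (.cons (.kr (nat_lit 158456325028528675191382867968) (nat_lit 4740813508418331475968) (nat_lit 4) (nat_lit 0)) (.cons (.br (nat_lit 5) (nat_lit 0) (.cons (.br (nat_lit 13) (nat_lit 0) (.cons (.ev (nat_lit 79538856449905298395250098176) (nat_lit 1)) .nil)) (.cons (.ev (nat_lit 310698658007725142033039361) (nat_lit 1)) (.cons (.br (nat_lit 11) (nat_lit 0) (.cons (.ev (nat_lit 79538856449905298395250098176) (nat_lit 1)) (.cons (.ev (nat_lit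 310693954087986346097377536) (nat_lit 1)) .nil))) .nil)))) .nil))))),
 (.br (nat_lit 12) (nat_lit 0) (.cons (.ev (nat_lit 18519083147036000256) (nat_lit 1)) (.cons (.kr (nat_lit 55340513696105496578) (nat_lit 158456329750895158061028082688) (nat_lit 0) (nat_lit 3)) (.cons (.kr (nat_lit 158456325028528675191382867968) (nat_lit 4740813508418331475968) (nat_lit 4) (nat_lit 0)) (.cons (.br (nat_lit 5) (nat_lit 0) (.cons (.br (nat_lit 13) (nat_lit 0) (.cons (.ev (nat_lit 79538856449905298395250032896) (nat_lit 1)) .nil)) (.cons (.ev (nat_lit 310698658007725142033105153) (nat_lit 1)) (.cons (.br (nat_lit 10) (nat_lit 0) (.cons (.ev (nat_lit 79538856449905298395250032896) (nat_lit 1)) (.cons (.ev (nat_lit 310693954087986346097377536) (nat_lit 1)) .nil))) .nil)))) .nil))))),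
 (.br (nat_lit 2) (nat_lit 0) (.cons (.kr (nat_lit 4722366482873940181504) (nat_lit 18447025548686393344) (nat_lit 1) (nat_lit 0)) (.cons (.rf (nat_lit 2066) (nat_lit 14208022404722294818)) (.cons (.kr (nat_lit 256) (nat_lit 65536) (nat_lit 1) (nat_lit 0)) (.cons (.br (nat_lit 12) (nat_lit 0) (.cons (.ev (nat_lit 18519083147036000256) (nat_lit 1)) (.cons (.rf (nat_lit 2120) (nat_lit 14242959524133701664)) (.cons (.rf (nat_lit 2121) (nat_lit 14242959524133701664)) (.cons (.rf (nat_lit 2122) (nat_lit 14242959524133701664)) (.cons (.br (nat_lit 12) (nat_lit 0) (.cons (.ev (nat_lit 18519083147036000256) (nat_lit 1)) (.cons (.rf (nat_lit 2090) (nat_lit 485753967824747200546)) (.cons (.rf (nat_lit 2121) (nat_lit 14242959524133701664)) (.cons (.rf (nat_lit 2122) (nat_lit 14242959524133701664)) .nil))))) .nil)))))) (.cons (.rf (nat_lit 2066) (nat_lit 5885226501296848930)) (.cons (.rf (nat_lit 1943) (nat_lit 427010)) .nil)))))))]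

theorem c76 : chkAll C T R L76 (nat_lit 2098) = true := by decide +kernel

theorem l76 : (nat_lit 2098) + L76.length = (nat_lit 2124) := by decide +kernel

/-- part of the certificates -/
def L77 : List Prf := [(.br (nat_lit 9) (nat_lit 0) (.cons (.br (nat_lit 9) (nat_lit 0) .nil) .nil)),
 (.br (nat_lit 9) (nat_lit 0) (.cons (.ev (nat_lit 309485009821626543718334721) (nat_lit 1)) (.cons (.rf (nat_lit 2124) (nat_lit 434660560701472)) .nil))),
 (.br (nat_lit 11) (nat_lit 0) (.cons (.ev (nat_lit 20361947255898122590578693701888) (nat_lit 1)) .nil)),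
 (.br (nat_lit 10) (nat_lit 0) (.cons (.kr (nat_lit 158458742880168185924742545408) (nat_lit 618974760600034467903438848) (nat_lit 3) (nat_lit 0)) (.cons (.rf (nat_lit 2126) (nat_lit 493858305440582043680)) .nil))),
 (.br (nat_lit 13) (nat_lit 0) (.cons (.rf (nat_lit 2126) (nat_lit 493858305440582043680)) (.cons (.br (nat_lit 5) (nat_lit 0) (.cons (.ev (nat_lit 20361947255898122590578693701888) (nat_lit 1)) .nil)) .nil))),
 (.br (nat_lit 9) (nat_lit 0) (.cons (.br (nat_lit 9) (nat_lit 0) .nil) .nil)),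
 (.br (nat_lit 9) (nat_lit 0) (.cons (.ev (nat_lit 309485009821626543718334721) (nat_lit 1)) (.cons (.rf (nat_lit 2129) (nat_lit 434660560701472)) .nil))),
 (.br (nat_lit 11) (nat_lit 0) (.cons (.ev (nat_lit 310693954087704875415699456) (nat_lit 1)) (.cons (.ev (nat_lit 310693954087986346097377536) (nat_lit 1)) (.cons (.ev (nat_lit 121698800088195327538818920088576) (nat_lit 4)) .nil)))),
 (.br (nat_lit 5) (nat_lit 0) (.cons (.ev (nat_lit 310698658007725142033104896) (nat_lit 1)) (.cons (.ev (nat_lit 310698658007443671351296256) (nat_lit 1)) (.cons (.ev (nat_lit 121698800088195327538818920088576) (nat_lit 4)) .nil)))),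
 (.br (nat_lit 11) (nat_lit 0) (.cons (.ev (nat_lit 79228167236702878061522125056) (nat_lit 1)) .nil)),
 (.br (nat_lit 10) (nat_lit 0) (.cons (.rf (nat_lit 2133) (nat_lit 15433070910038444064)) (.cons (.ev (nat_lit 79228162514336676666870398976) (nat_lit 1)) (.cons (.rf (nat_lit 2131) (nat_lit 493858305440582043680)) .nil)))),
 (.br (nat_lit 7) (nat_lit 0) (.cons (.br (nat_lit 12) (nat_lit 0) (.cons (.ev (nat_lit 122487979609795950886453739260416) (nat_lit 4)) .nil)) (.cons (.br (nat_lit 11) (nat_lit 0) (.cons (.ev (nat_lit 20361947255898122872057965314048) (nat_lit 1)) .nil)) (.cons (.rf (nat_lit 2131) (nat_lit 493858305440582043680)) .nil)))),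
 (.br (nat_lit 10) (nat_lit 0) (.cons (.br (nat_lit 12) (nat_lit 0) (.cons (.ev (nat_lit 79228167255149622130953486336) (nat_lit 1)) .nil)) (.cons (.ev (nat_lit 310693954087986346097377536) (nat_lit 1)) (.cons (.rf (nat_lit 2135) (nat_lit 493858305440582043680)) .nil)))),
 (.br (nat_lit 13) (nat_lit 0) (.cons (.rf (nat_lit 2134) (nat_lit 493858305440582043680)) (.cons (.rf (nat_lit 2135) (nat_lit 493858305440582043680)) (.cons (.rf (nat_lit 2136) (nat_lit 493858305440582043680)) (.cons (.br (nat_lit 13) (nat_lit 0) (.cons (.rf (nat_lit 2134) (nat_lit 493858305440582043680)) (.cons (.rf (nat_lit 2135) (nat_lit 493858305440582043680)) (.cons (.rf (nat_lit 2136) (nat_lit 493858305440582043680)) .nil)))) .nil))))),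
 (.br (nat_lit 13) (nat_lit 0) (.cons (.rf (nat_lit 2137) (nat_lit 493858305440582043680)) (.cons (.rf (nat_lit 2132) (nat_lit 493858305440582043680)) (.cons (.br (nat_lit 5) (nat_lit 0) (.cons (.ev (nat_lit 159082553344336598161126851078) (nat_lit 3)) .nil)) .nil)))),
 (.br (nat_lit 11) (nat_lit 0) (.cons (.ev (nat_lit 79228167236702878061522125056) (nat_lit 1)) .nil)),
 (.br (nat_lit 10) (nat_lit 0) (.cons (.rf (nat_lit 2139) (nat_lit 15433070910038444064)) (.cons (.ev (nat_lit 79228162514336676666870398976) (nat_lit 1)) (.cons (.rf (nat_lit 2132) (nat_lit 493858305440582043680)) .nil)))),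
 (.br (nat_lit 13) (nat_lit 0) (.cons (.rf (nat_lit 2137) (nat_lit 493858305440582043680)) (.cons (.rf (nat_lit 2138) (nat_lit 493858305440582043680)) (.cons (.rf (nat_lit 2140) (nat_lit 493858305440582043680)) (.cons (.br (nat_lit 13) (nat_lit 0) (.cons (.rf (nat_lit 2137) (nat_lit 493858305440582043680)) (.cons (.rf (nat_lit 2138) (nat_lit 493858305440582043680)) (.cons (.rf (nat_lit 2140) (nat_lit 493858305440582043680)) .nil)))) .nil))))),
 (.br (nat_lit 5) (nat_lit 0) (.cons (.br (nat_lit 12) (nat_lit 0) (.cons (.ev (nat_lit 203934535510310542906647546169358) (nat_lit 4)) .nil)) (.cons (.ev (nat_lit 310693954087986346097377536) (nat_lit 1)) (.cons (.rf (nat_lit 2137) (nat_lit 493858305440582043680)) .nil)))),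
 (.br (nat_lit 13) (nat_lit 0) (.cons (.rf (nat_lit 2137) (nat_lit 493858305440582043680)) (.cons (.rf (nat_lit 2141) (nat_lit 493858305440582043680)) (.cons (.rf (nat_lit 2142) (nat_lit 493858305440582043680)) (.cons (.br (nat_lit 13) (nat_lit 0) (.cons (.rf (nat_lit 2137) (nat_lit 493858305440582043680)) (.cons (.rf (nat_lit 2141) (nat_lit 493858305440582043680)) (.cons (.rf (nat_lit 2142) (nat_lit 493858305440582043680)) .nil)))) .nil))))),
 (.br (nat_lit 13) (nat_lit 0) (.cons (.rf (nat_lit 2137) (nat_lit 493858305440582043680)) (.cons (.rf (nat_lit 2141) (nat_lit 493858305440582043680)) (.cons (.rf (nat_lit 2143) (nat_lit 493858305440582043680)) (.cons (.br (nat_lit 13) (nat_lit 0) (.cons (.rf (nat_lit 2137) (nat_lit 493858305440582043680)) (.cons (.rf (nat_lit 2141) (nat_lit 493858305440582043680)) (.cons (.rf (nat_lit 2143) (nat_lit 493858305440582043680)) .nil)))) .nil))))),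
 (.br (nat_lit 2) (nat_lit 0) (.cons (.kr (nat_lit 4722366482869645213952) (nat_lit 18446744073709617152) (nat_lit 1) (nat_lit 0)) (.cons (.rf (nat_lit 2119) (nat_lit 14242959524133700672)) (.cons (.rf (nat_lit 2123) (nat_lit 14242959524133701664)) (.cons (.kr (nat_lit 4722366764344621924864) (nat_lit 18446744078004649984) (nat_lit 1) (nat_lit 0)) (.cons (.br (nat_lit 3) (nat_lit 0) (.cons (.br (nat_lit 7) (nat_lit 0) (.cons (.br (nat_lit 11) (nat_lit 0) (.cons (.ev (nat_lit 79228167255149903610225164545) (nat_lit 1)) (.cons (.br (nat_lit 13) (nat_lit 0) (.cons (.kr (nat_lit 618970075127039745677328386) (nat_lit 158458747602534668794387759616) (nat_lit 0) (nat_lit 2)) .nil)) .nil))) (.cons (.rf (nat_lit 2125) (nat_lit 445092485094541344)) (.cons (.ev (nat_lit 79228162514336395187598655489) (nat_lit 1)) (.cons (.br (nat_lit 10) (nat_lit 0) (.cons (.rf (nat_lit 2124) (nat_lit 470976790890528)) (.cons (.rf (nat_lit 2124) (nat_lit 469911639001120)) (.cons (.br (nat_lit 11) (nat_lit 0) (.cons (.kr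 (nat_lit 618974760600315942880149506) (nat_lit 158458742880167904458355900416) (nat_lit 0) (nat_lit 1)) (.cons (.ev (nat_lit 310693954087704875415699456) (nat_lit 1)) .nil))) .nil)))) .nil))))) (.cons (.br (nat_lit 12) (nat_lit 0) (.cons (.ev (nat_lit 79228162514336676666870399233) (nat_lit 1)) (.cons (.br (nat_lit 5) (nat_lit 0) (.cons (.ev (nat_lit 310698658007725142033039361) (nat_lit 1)) (.cons (.rf (nat_lit 2129) (nat_lit 469909258962945)) .nil))) (.cons (.ev (nat_lit 79228162514336395187598721024) (nat_lit 1)) (.cons (.br (nat_lit 13) (nat_lit 0) (.cons (.rf (nat_lit 2127) (nat_lit 493858305440582043680)) (.cons (.rf (nat_lit 2128) (nat_lit 493858305440582043680)) (.cons (.br (nat_lit 13) (nat_lit 0) (.cons (.rf (nat_lit 2127) (nat_lit 493858305440582043680)) (.cons (.rf (nat_lit 2128) (nat_lit 493858305440582043680)) .nil))) .nil)))) .nil))))) (.cons (.br (nat_lit 11) (nat_lit 0) (.cons (.ev (nat_lit 310698658007443671351361793) (nat_lit 1)) (.cons (.rf (nat_lit 2130) (nat_lit 444915493955143681))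 (.cons (.rf (nat_lit 2125) (nat_lit 263645437193749506)) (.cons (.br (nat_lit 13) (nat_lit 0) (.cons (.ev (nat_lit 310693954087704875415699456) (nat_lit 1)) (.cons (.br (nat_lit 13) (nat_lit 0) (.cons (.ev (nat_lit 310693954087704875415699456) (nat_lit 1)) (.cons (.ev (nat_lit 79228167255149622130953486336) (nat_lit 1)) .nil))) (.cons (.br (nat_lit 13) (nat_lit 0) (.cons (.ev (nat_lit 310693954087704875415699456) (nat_lit 1)) (.cons (.ev (nat_lit 79228167255149622130953486336) (nat_lit 1)) .nil))) .nil)))) .nil))))) (.cons (.br (nat_lit 7) (nat_lit 0) (.cons (.rf (nat_lit 2130) (nat_lit 445092485094541344)) (.cons (.rf (nat_lit 2125) (nat_lit 444915493955143681)) (.cons (.ev (nat_lit 79228162514336676666870333696) (nat_lit 1)) (.cons (.br (nat_lit 10) (nat_lit 0) (.cons (.rf (nat_lit 2129) (nat_lit 470976790890528)) (.cons (.rf (nat_lit 2129) (nat_lit 463005339189282)) (.cons (.br (nat_lit 5) (nat_lit 0) (.cons (.kr (nat_lit 618974760600315942880149506) (nat_lit 158458742880167904458355900416)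 (nat_lit 0) (nat_lit 1)) (.cons (.ev (nat_lit 310693954087704875415699456) (nat_lit 1)) .nil))) .nil)))) .nil))))) (.cons (.br (nat_lit 7) (nat_lit 0) (.cons (.br (nat_lit 10) (nat_lit 0) (.cons (.ev (nat_lit 310698658007443671351361536) (nat_lit 1)) (.cons (.rf (nat_lit 2129) (nat_lit 469914759563296)) .nil))) (.cons (.ev (nat_lit 79228162514336395187598655744) (nat_lit 1)) (.cons (.br (nat_lit 5) (nat_lit 0) (.cons (.ev (nat_lit 310698658007725142033105153) (nat_lit 1)) (.cons (.rf (nat_lit 2129) (nat_lit 468637953917954)) .nil))) (.cons (.br (nat_lit 10) (nat_lit 0) (.cons (.rf (nat_lit 2129) (nat_lit 469911639001120)) (.cons (.rf (nat_lit 2129) (nat_lit 463005338173474)) (.cons (.br (nat_lit 13) (nat_lit 0) (.cons (.rf (nat_lit 2131) (nat_lit 493858305440582043680)) (.cons (.rf (nat_lit 2132) (nat_lit 493858305440582043680)) .nil))) .nil)))) .nil))))) (.cons (.br (nat_lit 13) (nat_lit 0) (.cons (.rf (nat_lit 2137) (nat_lit 493858305440582043680)) (.cons (.rf (nat_lit 2141) (nat_lit 493858305440582043680))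 (.cons (.rf (nat_lit 2143) (nat_lit 493858305440582043680)) (.cons (.rf (nat_lit 2144) (nat_lit 493858305440582043680)) (.cons (.br (nat_lit 13) (nat_lit 0) (.cons (.rf (nat_lit 2137) (nat_lit 493858305440582043680)) (.cons (.rf (nat_lit 2141) (nat_lit 493858305440582043680)) (.cons (.rf (nat_lit 2143) (nat_lit 493858305440582043680)) (.cons (.rf (nat_lit 2144) (nat_lit 493858305440582043680)) .nil))))) .nil)))))) .nil))))))) (.cons (.rf (nat_lit 1943) (nat_lit 427010)) .nil))))))),
 (.br (nat_lit 2) (nat_lit 0) (.cons (.rf (nat_lit 2066) (nat_lit 14242959524133700672)) (.cons (.rf (nat_lit 2119) (nat_lit 14242959524133700672)) (.cons (.rf (nat_lit 2123) (nat_lit 14242959524133701664)) (.cons (.br (nat_lit 2) (nat_lit 0) (.cons (.rf (nat_lit 2066) (nat_lit 14242959524133700672)) (.cons (.kr (nat_lit 18447025548686262274) (nat_lit 4722366482873940312064) (nat_lit 0) (nat_lit 1)) (.cons (.kr (nat_lit 256) (nat_lit 65536) (nat_lit 1) (nat_lit 0)) (.cons (.kr (nat_lit 4722366764344621924864) (nat_lit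 18446744078004649984) (nat_lit 1) (nat_lit 0)) (.cons (.rf (nat_lit 2066) (nat_lit 6164517744835624994)) (.cons (.rf (nat_lit 1943) (nat_lit 427010)) .nil))))))) (.cons (.rf (nat_lit 2145) (nat_lit 14242959524133701664)) (.cons (.br (nat_lit 2) (nat_lit 0) (.cons (.rf (nat_lit 2066) (nat_lit 14242959524133700672)) (.cons (.rf (nat_lit 2119) (nat_lit 14242959524133700672)) (.cons (.rf (nat_lit 2066) (nat_lit 5885226501296848930)) (.cons (.rf (nat_lit 2066) (nat_lit 6164517744835624994)) (.cons (.rf (nat_lit 2145) (nat_lit 14242959524133701664)) (.cons (.rf (nat_lit 1943) (nat_lit 427010)) .nil))))))) (.cons (.rf (nat_lit 1943) (nat_lit 427010)) .nil)))))))),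
 (.br (nat_lit 12) (nat_lit 0) (.cons (.br (nat_lit 12) (nat_lit 0) (.cons (.kr (nat_lit 18446744073709551616) (nat_lit 79228162514264337593543950336) (nat_lit 8) (nat_lit 0)) (.cons (.ev (nat_lit 79537647542532708210971770881) (nat_lit 1)) .nil))) (.cons (.br (nat_lit 12) (nat_lit 0) (.cons (.kr (nat_lit 18446744073709551616) (nat_lit 79228162514264337593543950336) (nat_lit 8) (nat_lit 0)) (.cons (.ev (nat_lit 79537647542532708210971836673) (nat_lit 1)) .nil))) (.cons (.br (nat_lit 12) (nat_lit 0) (.cons (.ev (nat_lit 79537647542532708210971770881) (nat_lit 1)) (.cons (.ev (nat_lit 79537647542532708210971836673) (nat_lit 1)) .nil))) .nil)))),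
 (.br (nat_lit 12) (nat_lit 0) (.cons (.kr (nat_lit 18447025548686262529) (nat_lit 79228162514264337597839048704) (nat_lit 0) (nat_lit 3)) (.cons (.kr (nat_lit 18447025548686262273) (nat_lit 79228162514264337597838983168) (nat_lit 0) (nat_lit 1)) (.cons (.ev (nat_lit 79537647542532426740290093056) (nat_lit 1)) .nil)))),
 (.br (nat_lit 5) (nat_lit 0) (.cons (.rf (nat_lit 1979) (nat_lit 463010605137954)) (.cons (.rf (nat_lit 2148) (nat_lit 493858305440582043680)) (.cons (.rf (nat_lit 2147) (nat_lit 493858305440582043680)) .nil)))),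
 (.br (nat_lit 5) (nat_lit 0) (.cons (.rf (nat_lit 1979) (nat_lit 463010702655553)) (.cons (.rf (nat_lit 2148) (nat_lit 493858305440582043680)) (.cons (.rf (nat_lit 2147) (nat_lit 493858305440582043680)) .nil)))),
 (.br (nat_lit 10) (nat_lit 0) (.cons (.ev (nat_lit 1208925891673322724261889) (nat_lit 1)) (.cons (.ev (nat_lit 310698658007725142033104896) (nat_lit 1)) (.cons (.kr (nat_lit 1208925819614629191483392) (nat_lit 79228162514264338693055578112) (nat_lit 3) (nat_lit 0)) (.cons (.br (nat_lit 12) (nat_lit 0) (.cons (.ev (nat_lit 79228167255149903610225098753) (nat_lit 1)) (.cons (.ev (nat_lit 79537647542532426740290093056) (nat_lit 1)) (.cons (.br (nat_lit 13) (nat_lit 0) (.cons (.ev (nat_lit 475376233492285918802174150148) (nat_lit 3)) (.cons (.ev (nat_lit 159696687697160287896142479872) (nat_lit 3)) .nil))) .nil)))) .nil))))),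
 (.br (nat_lit 10) (nat_lit 0) (.cons (.br (nat_lit 11) (nat_lit 0) (.cons (.ev (nat_lit 159696687697161976754592940548) (nat_lit 3)) (.cons (.rf (nat_lit 2129) (nat_lit 470946623424544)) .nil))) (.cons (.rf (nat_lit 2130) (nat_lit 183948512600490049)) (.cons (.ev (nat_lit 79228167255149903610225164288) (nat_lit 1)) (.cons (.br (nat_lit 12) (nat_lit 0) (.cons (.ev (nat_lit 79228167255149622130953486593) (nat_lit 1)) (.cons (.rf (nat_lit 2129) (nat_lit 463008626344001)) (.cons (.br (nat_lit 13) (nat_lit 0) (.cons (.br (nat_lit 11) (nat_lit 0) (.cons (.ev (nat_lit 79537647542532708210971770881) (nat_lit 1)) .nil)) (.cons (.ev (nat_lit 79537647542532708210971770881) (nat_lit 1)) .nil))) .nil)))) .nil))))),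
 (.br (nat_lit 12) (nat_lit 0) (.cons (.zr (nat_lit 1856914800173924399203090438) (nat_lit 81446555900367017509077993391104) (nat_lit 20) (nat_lit 1)) .nil)),
 (.br (nat_lit 10) (nat_lit 0) (.cons (.br (nat_lit 7) (nat_lit 0) (.cons (.ev (nat_lit 158458747731951803133503603200) (nat_lit 3)) (.cons (.rf (nat_lit 2129) (nat_lit 470942462674976)) .nil))) (.cons (.rf (nat_lit 2130) (nat_lit 443789594081855489)) (.cons (.ev (nat_lit 79537647542532426740290027521) (nat_lit 1)) (.cons (.br (nat_lit 12) (nat_lit 0) (.cons (.ev (nat_lit 79537652246452165536225689856) (nat_lit 1)) (.cons (.rf (nat_lit 2129) (nat_lit 463008622280769)) (.cons (.br (nat_lit 13) (nat_lit 0) (.cons (.br (nat_lit 7) (nat_lit 0) (.cons (.ev (nat_lit 79228167255149622130953486336) (nat_lit 1)) .nil)) (.cons (.ev (nat_lit 79228167255149622130953486336) (nat_lit 1)) .nil))) .nil)))) .nil))))),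
 (.br (nat_lit 10) (nat_lit 0) (.cons (.kr (nat_lit 1208925819614629191483392) (nat_lit 79228162514264338693055578112) (nat_lit 3) (nat_lit 0)) (.cons (.rf (nat_lit 2152) (nat_lit 6164517744835624994)) (.cons (.rf (nat_lit 2154) (nat_lit 6164517744835624994)) (.cons (.br (nat_lit 5) (nat_lit 0) (.cons (.rf (nat_lit 2129) (nat_lit 469743126611008)) (.cons (.rf (nat_lit 2129) (nat_lit 465482519053376)) (.cons (.br (nat_lit 7) (nat_lit 0) (.cons (.ev (nat_lit 1213666704900266079027201) (nat_lit 1)) (.cons (.br (nat_lit 11) (nat_lit 0) (.cons (.ev (nat_lit 81289958908063801298624677544448) (nat_lit 3)) .nil)) .nil))) .nil)))) .nil)))))]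

theorem c77 : chkAll C T R L77 (nat_lit 2124) = true := by decide +kernel

theorem l77 : (nat_lit 2124) + L77.length = (nat_lit 2156) := by decide +kernel

/-- part of the certificates -/
def L78 : List Prf := [(.br (nat_lit 7) (nat_lit 0) (.cons (.ev (nat_lit 1213666704900266079027201) (nat_lit 1)) (.cons (.br (nat_lit 11) (nat_lit 0) (.cons (.ev (nat_lit 79537647542532708210971770881) (nat_lit 1)) .nil)) (.cons (.br (nat_lit 11) (nat_lit 0) (.cons (.ev (nat_lit 79228167255149622130953486336) (nat_lit 1)) .nil)) .nil)))),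
 (.br (nat_lit 5) (nat_lit 0) (.cons (.ev (nat_lit 1213666704900266079027201) (nat_lit 1)) (.cons (.br (nat_lit 11) (nat_lit 0) (.cons (.zr (nat_lit 1856914800173924399203090438) (nat_lit 81446555900367017509077993391104) (nat_lit 20) (nat_lit 1)) .nil)) (.cons (.rf (nat_lit 2156) (nat_lit 493858305440582043680)) .nil)))),
 (.br (nat_lit 2) (nat_lit 0) (.cons (.rf (nat_lit 2066) (nat_lit 14242959524133700672)) (.cons (.kr (nat_lit 18447025548686262274) (nat_lit 4722366482873940312064) (nat_lit 0) (nat_lit 1)) (.cons (.rf (nat_lit 2146) (nat_lit 14242959524133700672)) (.cons (.br (nat_lit 3) (nat_lit 0) (.cons (.ev (nat_lit 309489750634853487073034496) (nat_lit 1)) (.cons (.ev (nat_lit 309489750634572016391356673) (nat_lit 1)) (.cons (.ev (nat_lit 309489750634572016391290881) (nat_lit 1)) (.cons (.br (nat_lit 12) (nat_lit 0) (.cons (.kr (nat_lit 4740813508418331475970) (nat_lit 158456325028528675191382999040) (nat_lit 0) (nat_lit 1)) (.cons (.kr (nat_lit 4740813226947649732608) (nat_lit 158456325028528956662064611328)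 (nat_lit 4) (nat_lit 0)) (.cons (.kr (nat_lit 158456325028528956662064611840) (nat_lit 4740813226947649863680) (nat_lit 1) (nat_lit 0)) (.cons (.br (nat_lit 5) (nat_lit 0) (.cons (.rf (nat_lit 2079) (nat_lit 461113404915777)) (.cons (.rf (nat_lit 2079) (nat_lit 461113304350754)) (.cons (.br (nat_lit 7) (nat_lit 0) (.cons (.ev (nat_lit 79229371458602754989977829633) (nat_lit 1)) (.cons (.br (nat_lit 10) (nat_lit 0) (.cons (.ev (nat_lit 79229376162522775265185103873) (nat_lit 1)) .nil)) .nil))) .nil)))) .nil))))) (.cons (.br (nat_lit 13) (nat_lit 0) (.cons (.rf (nat_lit 2147) (nat_lit 493858305440582043680)) (.cons (.rf (nat_lit 2149) (nat_lit 493858305440582043680)) (.cons (.rf (nat_lit 2150) (nat_lit 493858305440582043680)) (.cons (.br (nat_lit 13) (nat_lit 0) (.cons (.rf (nat_lit 2147) (nat_lit 493858305440582043680)) (.cons (.rf (nat_lit 2149) (nat_lit 493858305440582043680)) (.cons (.rf (nat_lit 2150) (nat_lit 493858305440582043680)) .nil)))) .nil))))) .nil)))))) (.cons (.br (nat_lit 3) (nat_lit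 0) (.cons (.rf (nat_lit 2151) (nat_lit 14242959524133701664)) (.cons (.rf (nat_lit 2152) (nat_lit 14242959524133701664)) (.cons (.br (nat_lit 7) (nat_lit 0) (.cons (.ev (nat_lit 1208925891954801995940096) (nat_lit 1)) (.cons (.rf (nat_lit 2125) (nat_lit 443789594081855489)) (.cons (.ev (nat_lit 79228167255149622130953421056) (nat_lit 1)) (.cons (.br (nat_lit 11) (nat_lit 0) (.cons (.ev (nat_lit 310698658007443671351361793) (nat_lit 1)) (.cons (.ev (nat_lit 79537647542532708210971836673) (nat_lit 1)) (.cons (.br (nat_lit 13) (nat_lit 0) (.cons (.rf (nat_lit 2153) (nat_lit 493858305440582043680)) (.cons (.rf (nat_lit 2153) (nat_lit 485779863661283967010)) .nil))) .nil)))) .nil))))) (.cons (.rf (nat_lit 2154) (nat_lit 14242959524133701664)) (.cons (.rf (nat_lit 2155) (nat_lit 14242959524133701664)) (.cons (.br (nat_lit 10) (nat_lit 0) (.cons (.rf (nat_lit 2155) (nat_lit 6164517744835624994)) (.cons (.rf (nat_lit 2152) (nat_lit 6164517744835624994)) (.cons (.rf (nat_lit 2154) (nat_lit 6164517744835624994))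 (.cons (.rf (nat_lit 2151) (nat_lit 6164517744835624994)) (.cons (.br (nat_lit 13) (nat_lit 0) (.cons (.rf (nat_lit 2156) (nat_lit 493858305440582043680)) (.cons (.rf (nat_lit 2157) (nat_lit 493858305440582043680)) (.cons (.br (nat_lit 7) (nat_lit 0) (.cons (.ev (nat_lit 310698658007443671351361536) (nat_lit 1)) (.cons (.ev (nat_lit 79537647542532708210971770881) (nat_lit 1)) (.cons (.rf (nat_lit 2157) (nat_lit 493858305440582043680)) .nil)))) (.cons (.rf (nat_lit 2156) (nat_lit 485779863661283967010)) .nil))))) .nil)))))) .nil))))))) (.cons (.rf (nat_lit 1943) (nat_lit 427010)) .nil))))))),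
 (.br (nat_lit 1) (nat_lit 0) (.cons (.rf (nat_lit 2066) (nat_lit 14242959524133701664)) (.cons (.rf (nat_lit 2119) (nat_lit 14242959524133701664)) (.cons (.rf (nat_lit 2146) (nat_lit 14242959524133701664)) (.cons (.br (nat_lit 2) (nat_lit 0) (.cons (.rf (nat_lit 2066) (nat_lit 14242959524133700672)) (.cons (.rf (nat_lit 2119) (nat_lit 14242959524133700672)) (.cons (.br (nat_lit 2) (nat_lit 0) (.cons (.rf (nat_lit 2066) (nat_lit 14242959524133700672)) (.cons (.rf (nat_lit 2066) (nat_lit 14208022404722294818)) (.cons (.rf (nat_lit 2146) (nat_lit 14242959524133700672)) (.cons (.kr (nat_lit 256) (nat_lit 65536) (nat_lit 1) (nat_lit 0)) (.cons (.rf (nat_lit 2066) (nat_lit 5885226501296848930)) (.cons (.rf (nat_lit 1943) (nat_lit 427010)) .nil))))))) (.cons (.rf (nat_lit 2158) (nat_lit 14242959524133701664)) (.cons (.br (nat_lit 2) (nat_lit 0) (.cons (.rf (nat_lit 2066) (nat_lit 14242959524133700672)) (.cons (.rf (nat_lit 2066) (nat_lit 13951351549195550754)) (.cons (.kr (nat_lit 256) (nat_lit 65536)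 (nat_lit 1) (nat_lit 0)) (.cons (.rf (nat_lit 2158) (nat_lit 14242959524133701664)) (.cons (.rf (nat_lit 2066) (nat_lit 6132992408932417570)) (.cons (.rf (nat_lit 1943) (nat_lit 427010)) .nil))))))) (.cons (.br (nat_lit 2) (nat_lit 0) (.cons (.rf (nat_lit 2066) (nat_lit 14242959524133700672)) (.cons (.rf (nat_lit 2119) (nat_lit 14242959524133700672)) (.cons (.rf (nat_lit 2066) (nat_lit 5885226501296848930)) (.cons (.rf (nat_lit 2158) (nat_lit 14242959524133701664)) (.cons (.rf (nat_lit 2066) (nat_lit 6132992408932417570)) (.cons (.rf (nat_lit 1943) (nat_lit 427010)) .nil))))))) (.cons (.rf (nat_lit 1943) (nat_lit 427010)) .nil)))))))) (.cons (.br (nat_lit 2) (nat_lit 0) (.cons (.rf (nat_lit 2066) (nat_lit 14242959524133700672)) (.cons (.rf (nat_lit 2119) (nat_lit 14242959524133700672)) (.cons (.rf (nat_lit 2066) (nat_lit 5885226501296848961)) (.cons (.br (nat_lit 2) (nat_lit 0) (.cons (.rf (nat_lit 2066) (nat_lit 14242959524133700672)) (.cons (.kr (nat_lit 18447025548686262274) (nat_lit 4722366482873940312064)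 (nat_lit 0) (nat_lit 1)) (.cons (.rf (nat_lit 2066) (nat_lit 5885226501296848961)) (.cons (.rf (nat_lit 2146) (nat_lit 5885226501296848961)) (.cons (.rf (nat_lit 2119) (nat_lit 5885226501296848961)) (.cons (.rf (nat_lit 1943) (nat_lit 427010)) .nil))))))) (.cons (.br (nat_lit 2) (nat_lit 0) (.cons (.rf (nat_lit 2066) (nat_lit 14242959524133700672)) (.cons (.rf (nat_lit 2119) (nat_lit 14242959524133700672)) (.cons (.rf (nat_lit 2066) (nat_lit 5885226501296848961)) (.cons (.rf (nat_lit 2146) (nat_lit 5885226501296848961)) (.cons (.kr (nat_lit 4722366764344621924864) (nat_lit 18446744078004649984) (nat_lit 1) (nat_lit 0)) (.cons (.rf (nat_lit 1943) (nat_lit 427010)) .nil))))))) (.cons (.rf (nat_lit 2119) (nat_lit 5885226501296848961)) (.cons (.rf (nat_lit 1943) (nat_lit 427010)) .nil)))))))) (.cons (.rf (nat_lit 1943) (nat_lit 428033)) .nil))))))),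
 (.br (nat_lit 1) (nat_lit 0) (.cons (.rf (nat_lit 2066) (nat_lit 14242959524133701664)) (.cons (.kr (nat_lit 18447025548686262274) (nat_lit 4722366482873940181504) (nat_lit 0) (nat_lit 2)) (.cons (.rf (nat_lit 2159) (nat_lit 14242959524133701664)) (.cons (.br (nat_lit 2) (nat_lit 0) (.cons (.rf (nat_lit 2066) (nat_lit 14242959524133700672)) (.cons (.rf (nat_lit 2119) (nat_lit 14242959524133700672)) (.cons (.rf (nat_lit 2159) (nat_lit 14242959524133700672)) (.cons (.br (nat_lit 2) (nat_lit 0) (.cons (.rf (nat_lit 2066) (nat_lit 14242959524133700672)) (.cons (.kr (nat_lit 18447025548686262274) (nat_lit 4722366482873940312064) (nat_lit 0) (nat_lit 1)) (.cons (.kr (nat_lit 18446744078004519424) (nat_lit 4722366764344622055424) (nat_lit 1) (nat_lit 0)) (.cons (.kr (nat_lit 256) (nat_lit 65536) (nat_lit 1) (nat_lit 0)) (.cons (.rf (nat_lit 2066) (nat_lit 6164517744835624994)) (.cons (.rf (nat_lit 1943) (nat_lit 427010)) .nil))))))) (.cons (.br (nat_lit 2) (nat_lit 0) (.cons (.kr (nat_lit 4722366482873940181504)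 (nat_lit 18447025548686393344) (nat_lit 1) (nat_lit 0)) (.cons (.rf (nat_lit 2066) (nat_lit 13951351549195550754)) (.cons (.rf (nat_lit 2159) (nat_lit 14242959524133700672)) (.cons (.kr (nat_lit 256) (nat_lit 65536) (nat_lit 1) (nat_lit 0)) (.cons (.rf (nat_lit 2066) (nat_lit 6132992408932417570)) (.cons (.rf (nat_lit 1943) (nat_lit 427010)) .nil))))))) (.cons (.br (nat_lit 2) (nat_lit 0) (.cons (.rf (nat_lit 2066) (nat_lit 14242959524133700672)) (.cons (.rf (nat_lit 2119) (nat_lit 14242959524133700672)) (.cons (.rf (nat_lit 2159) (nat_lit 14242959524133700672)) (.cons (.rf (nat_lit 2066) (nat_lit 6164517744835624994)) (.cons (.rf (nat_lit 2066) (nat_lit 6132992408932417570)) (.cons (.rf (nat_lit 1943) (nat_lit 427010)) .nil))))))) (.cons (.rf (nat_lit 1943) (nat_lit 427010)) .nil)))))))) (.cons (.br (nat_lit 2) (nat_lit 0) (.cons (.rf (nat_lit 2066) (nat_lit 14242959524133700672)) (.cons (.rf (nat_lit 2119) (nat_lit 14242959524133700672)) (.cons (.rf (nat_lit 2159) (nat_lit 14242959524133700672))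 (.cons (.rf (nat_lit 2066) (nat_lit 6164517744835625025)) (.cons (.br (nat_lit 2) (nat_lit 0) (.cons (.rf (nat_lit 2066) (nat_lit 14242959524133700672)) (.cons (.rf (nat_lit 2119) (nat_lit 14242959524133700672)) (.cons (.rf (nat_lit 2159) (nat_lit 14242959524133700672)) (.cons (.rf (nat_lit 2066) (nat_lit 6164517744835625025)) (.cons (.rf (nat_lit 2119) (nat_lit 6164517744835625025)) (.cons (.rf (nat_lit 1943) (nat_lit 427010)) .nil))))))) (.cons (.rf (nat_lit 2119) (nat_lit 6164517744835625025)) (.cons (.rf (nat_lit 1943) (nat_lit 427010)) .nil)))))))) (.cons (.rf (nat_lit 1943) (nat_lit 428033)) .nil))))))),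
 (.br (nat_lit 1) (nat_lit 0) (.cons (.rf (nat_lit 2066) (nat_lit 14242959524133701664)) (.cons (.rf (nat_lit 2119) (nat_lit 14242959524133701664)) (.cons (.rf (nat_lit 2159) (nat_lit 14242959524133701664)) (.cons (.rf (nat_lit 2160) (nat_lit 14242959524133701664)) (.cons (.br (nat_lit 1) (nat_lit 0) (.cons (.rf (nat_lit 2066) (nat_lit 14242959524133701664)) (.cons (.rf (nat_lit 2119) (nat_lit 14242959524133701664)) (.cons (.rf (nat_lit 2159) (nat_lit 14242959524133701664)) (.cons (.rf (nat_lit 2160) (nat_lit 14242959524133701664)) (.cons (.rf (nat_lit 2159) (nat_lit 6132992408932419585)) (.cons (.rf (nat_lit 1943) (nat_lit 428033)) .nil))))))) (.cons (.br (nat_lit 1) (nat_lit 0) (.cons (.rf (nat_lit 2066) (nat_lit 14242959524133701664)) (.cons (.rf (nat_lit 2119) (nat_lit 14242959524133701664)) (.cons (.rf (nat_lit 2159) (nat_lit 14242959524133701664)) (.cons (.rf (nat_lit 2160) (nat_lit 14242959524133701664)) (.cons (.rf (nat_lit 2159) (nat_lit 6132992408932419585)) (.cons (.rf (nat_lit 1943)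 (nat_lit 428033)) .nil))))))) (.cons (.rf (nat_lit 1943) (nat_lit 428033)) .nil)))))))),
 (.br (nat_lit 8) (nat_lit 0) (.cons (.br (nat_lit 8) (nat_lit 0) .nil) .nil)),
 (.br (nat_lit 10) (nat_lit 0) (.cons (.rf (nat_lit 2162) (nat_lit 362021891704864)) (.cons (.br (nat_lit 10) (nat_lit 0) (.cons (.rf (nat_lit 2162) (nat_lit 362021891704864)) .nil)) .nil))),
 (.br (nat_lit 7) (nat_lit 0) (.cons (.br (nat_lit 9) (nat_lit 0) .nil) .nil)),
 (.br (nat_lit 11) (nat_lit 0) (.cons (.br (nat_lit 12) (nat_lit 0) (.cons (.ev (nat_lit 318774400634009609523897172480) (nat_lit 3)) .nil)) .nil)),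
 (.br (nat_lit 11) (nat_lit 0) (.cons (.rf (nat_lit 2165) (nat_lit 493858305440582043680)) (.cons (.br (nat_lit 11) (nat_lit 0) (.cons (.rf (nat_lit 2165) (nat_lit 493858305440582043680)) .nil)) .nil))),
 (.br (nat_lit 13) (nat_lit 0) (.cons (.rf (nat_lit 2166) (nat_lit 493858305440582043680)) (.cons (.br (nat_lit 13) (nat_lit 0) (.cons (.rf (nat_lit 2166) (nat_lit 493858305440582043680)) .nil)) .nil))),
 (.br (nat_lit 2) (nat_lit 0) (.cons (.ev (nat_lit 1213666705181745350770688) (nat_lit 1)) (.cons (.br (nat_lit 10) (nat_lit 0) (.cons (.ev (nat_lit 309485009821626543718268929) (nat_lit 1)) (.cons (.br (nat_lit 11) (nat_lit 0) (.cons (.zr (nat_lit 1237944780387123467428824068) (nat_lit 7253554917687788034195456) (nat_lit 10) (nat_lit 2)) (.cons (.rf (nat_lit 2163) (nat_lit 15070293155546176)) .nil))) (.cons (.rf (nat_lit 2163) (nat_lit 15071358309468192)) .nil)))) (.cons (.br (nat_lit 12) (nat_lit 0) (.cons (.rf (nat_lit 2164) (nat_lit 13583074297888)) (.cons (.ev (nat_lit 79228162514336676666870399233)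 (nat_lit 1)) (.cons (.rf (nat_lit 2163) (nat_lit 15035140995712064)) .nil)))) (.cons (.br (nat_lit 13) (nat_lit 0) (.cons (.rf (nat_lit 2166) (nat_lit 493858305440582043680)) (.cons (.rf (nat_lit 2167) (nat_lit 493858305440582043680)) (.cons (.br (nat_lit 13) (nat_lit 0) (.cons (.rf (nat_lit 2166) (nat_lit 493858305440582043680)) (.cons (.rf (nat_lit 2167) (nat_lit 493858305440582043680)) .nil))) .nil)))) .nil))))),
 (.br (nat_lit 11) (nat_lit 0) (.cons (.br (nat_lit 12) (nat_lit 0) (.cons (.ev (nat_lit 79538861190718806809286541568) (nat_lit 1)) .nil)) .nil)),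
 (.br (nat_lit 11) (nat_lit 0) (.cons (.rf (nat_lit 2169) (nat_lit 493858305440582043680)) (.cons (.br (nat_lit 11) (nat_lit 0) (.cons (.rf (nat_lit 2169) (nat_lit 493858305440582043680)) .nil)) .nil))),
 (.br (nat_lit 13) (nat_lit 0) (.cons (.rf (nat_lit 2170) (nat_lit 493858305440582043680)) (.cons (.br (nat_lit 13) (nat_lit 0) (.cons (.rf (nat_lit 2170) (nat_lit 493858305440582043680)) .nil)) .nil))),
 (.br (nat_lit 2) (nat_lit 0) (.cons (.ev (nat_lit 1213666705181745350770688) (nat_lit 1)) (.cons (.br (nat_lit 7) (nat_lit 0) (.cons (.zr (nat_lit 309485028340146740767228160) (nat_lit 1213648186378973813407744) (nat_lit 5) (nat_lit 7)) (.cons (.ev (nat_lit 18519083147036000513) (nat_lit 1)) (.cons (.rf (nat_lit 2163) (nat_lit 15071255330916384)) .nil)))) (.cons (.br (nat_lit 7) (nat_lit 0) (.cons (.ev (nat_lit 18519083147036000513) (nat_lit 1)) (.cons (.rf (nat_lit 2164) (nat_lit 13579953735712)) (.cons (.rf (nat_lit 2163) (nat_lit 15037168322971680)) .nil)))) (.cons (.br (nat_lit 13) (nat_lit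 0) (.cons (.rf (nat_lit 2170) (nat_lit 493858305440582043680)) (.cons (.rf (nat_lit 2171) (nat_lit 493858305440582043680)) (.cons (.br (nat_lit 13) (nat_lit 0) (.cons (.rf (nat_lit 2170) (nat_lit 493858305440582043680)) (.cons (.rf (nat_lit 2171) (nat_lit 493858305440582043680)) .nil))) .nil)))) .nil))))),
 (.br (nat_lit 9) (nat_lit 0) (.cons (.br (nat_lit 9) (nat_lit 0) .nil) .nil)),
 (.br (nat_lit 8) (nat_lit 0) (.cons (.br (nat_lit 8) (nat_lit 0) .nil) .nil)),
 (.br (nat_lit 10) (nat_lit 0) (.cons (.rf (nat_lit 2174) (nat_lit 362021891704864)) (.cons (.br (nat_lit 10) (nat_lit 0) (.cons (.rf (nat_lit 2174) (nat_lit 362021891704864)) .nil)) .nil))),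
 (.br (nat_lit 12) (nat_lit 0) (.cons (.br (nat_lit 11) (nat_lit 0) (.cons (.ev (nat_lit 309485028340428211465814273) (nat_lit 1)) .nil)) (.cons (.ev (nat_lit 309485028340428211465814273) (nat_lit 1)) .nil))),
 (.br (nat_lit 2) (nat_lit 0) (.cons (.rf (nat_lit 2168) (nat_lit 14242959524133701664)) (.cons (.rf (nat_lit 2172) (nat_lit 14242959524133701664)) (.cons (.br (nat_lit 10) (nat_lit 0) (.cons (.ev (nat_lit 18519083147036000513) (nat_lit 1)) (.cons (.ev (nat_lit 309485009821626543718268929) (nat_lit 1)) (.cons (.br (nat_lit 7) (nat_lit 0) (.cons (.ev (nat_lit 318769565079172042161591812616) (nat_lit 4)) (.cons (.rf (nat_lit 2173) (nat_lit 470979911452704)) .nil))) (.cons (.br (nat_lit 7) (nat_lit 0) (.cons (.rf (nat_lit 2173) (nat_lit 469911639001120)) (.cons (.rf (nat_lit 2173) (nat_lit 470976790890528)) (.cons (.br (nat_lit 11) (nat_lit 0) (.cons (.kr (nat_lit 618984205333281682170576898) (nat_lit 316915067908696579645443801088) (nat_lit 0) (nat_lit 1)) (.cons (.br (nat_lit 12) (nat_lit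 0) (.cons (.zr (nat_lit 237684496987526259999193957120) (nat_lit 310693991053249513082978304) (nat_lit 5) (nat_lit 3)) .nil)) .nil))) .nil)))) .nil))))) (.cons (.br (nat_lit 10) (nat_lit 0) (.cons (.rf (nat_lit 2175) (nat_lit 15071358309468192)) (.cons (.ev (nat_lit 309485009821626543718268929) (nat_lit 1)) (.cons (.br (nat_lit 11) (nat_lit 0) (.cons (.br (nat_lit 13) (nat_lit 0) (.cons (.ev (nat_lit 318157848465862594207685018118) (nat_lit 3)) .nil)) (.cons (.kr (nat_lit 158456325028528675191382867968) (nat_lit 4740813508418331475968) (nat_lit 4) (nat_lit 0)) (.cons (.ev (nat_lit 1245198335018267538671010310) (nat_lit 3)) .nil)))) (.cons (.br (nat_lit 12) (nat_lit 0) (.cons (.rf (nat_lit 2176) (nat_lit 15433072044983552032)) (.cons (.br (nat_lit 12) (nat_lit 0) (.cons (.rf (nat_lit 2176) (nat_lit 15433072044983552032)) (.cons (.ev (nat_lit 79538856449905298395250032896) (nat_lit 1)) .nil))) (.cons (.br (nat_lit 12) (nat_lit 0) (.cons (.ev (nat_lit 79228167255149622130953486593) (nat_lit 1))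 (.cons (.ev (nat_lit 79538856449905298395250032896) (nat_lit 1)) .nil))) .nil)))) .nil))))) .nil))))),
 (.br (nat_lit 11) (nat_lit 0) (.cons (.zr (nat_lit 158456334473261922405650006784) (nat_lit 310693972606505439373426688) (nat_lit 5) (nat_lit 3)) (.cons (.ev (nat_lit 79537647542532708210971770881) (nat_lit 1)) .nil))),
 (.br (nat_lit 11) (nat_lit 0) (.cons (.br (nat_lit 11) (nat_lit 0) .nil) .nil))]

theorem c78 : chkAll C T R L78 (nat_lit 2156) = true := by decide +kernel

theorem l78 : (nat_lit 2156) + L78.length = (nat_lit 2180) := by decide +kernel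

/-- part of the certificates -/
def L79 : List Prf := [(.br (nat_lit 11) (nat_lit 0) (.cons (.kr (nat_lit 309489732259886631919550465) (nat_lit 79229371440083952227030466560) (nat_lit 0) (nat_lit 1)) (.cons (.br (nat_lit 12) (nat_lit 0) (.cons (.ev (nat_lit 122171683511906175297257170272258) (nat_lit 3)) .nil)) .nil))),
 (.br (nat_lit 10) (nat_lit 0) (.cons (.kr (nat_lit 309489732259886631919550465) (nat_lit 79229371440083952227030466560) (nat_lit 0) (nat_lit 1)) (.cons (.br (nat_lit 11) (nat_lit 0) (.cons (.ev (nat_lit 79538856449905298395250032896) (nat_lit 1)) .nil)) .nil))),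
 (.br (nat_lit 2) (nat_lit 0) (.cons (.rf (nat_lit 2168) (nat_lit 14242959524133701664)) (.cons (.rf (nat_lit 2172) (nat_lit 14242959524133701664)) (.cons (.rf (nat_lit 2177) (nat_lit 14242959524133701664)) (.cons (.br (nat_lit 7) (nat_lit 0) (.cons (.rf (nat_lit 2175) (nat_lit 15037271301523488)) (.cons (.br (nat_lit 13) (nat_lit 0) (.cons (.br (nat_lit 13) (nat_lit 0) (.cons (.zr (nat_lit 309485028340146740767228160) (nat_lit 1213648186378973813407744) (nat_lit 5) (nat_lit 7)) (.cons (.rf (nat_lit 2178) (nat_lit 493858305440582043680)) .nil))) (.cons (.br (nat_lit 13) (nat_lit 0) (.cons (.zr (nat_lit 309485028340146740767228160) (nat_lit 1213648186378973813407744) (nat_lit 5) (nat_lit 7)) (.cons (.ev (nat_lit 79537647542532708210971770881) (nat_lit 1)) .nil))) (.cons (.rf (nat_lit 2178) (nat_lit 493858305440582043680)) .nil)))) (.cons (.br (nat_lit 13) (nat_lit 0) (.cons (.rf (nat_lit 2179) (nat_lit 493858305440582043680)) (.cons (.br (nat_lit 13) (nat_lit 0) (.cons (.rf (nat_lit 2179) (nat_lit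 493858305440582043680)) .nil)) .nil))) (.cons (.br (nat_lit 11) (nat_lit 0) (.cons (.rf (nat_lit 2180) (nat_lit 493858305440582043680)) (.cons (.rf (nat_lit 2181) (nat_lit 493858305440582043680)) (.cons (.br (nat_lit 11) (nat_lit 0) (.cons (.rf (nat_lit 2180) (nat_lit 493858305440582043680)) (.cons (.rf (nat_lit 2181) (nat_lit 493858305440582043680)) .nil))) .nil)))) .nil))))) .nil))))),
 (.br (nat_lit 10) (nat_lit 0) (.cons (.br (nat_lit 12) (nat_lit 0) (.cons (.zr (nat_lit 1208925819616828214804992) (nat_lit 20282719088661563826618603929601) (nat_lit 5) (nat_lit 0)) .nil)) .nil)),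
 (.br (nat_lit 13) (nat_lit 0) (.cons (.rf (nat_lit 2183) (nat_lit 493858305440582043680)) (.cons (.br (nat_lit 13) (nat_lit 0) (.cons (.rf (nat_lit 2183) (nat_lit 493858305440582043680)) .nil)) .nil))),
 (.br (nat_lit 10) (nat_lit 0) (.cons (.br (nat_lit 10) (nat_lit 0) (.cons (.rf (nat_lit 2184) (nat_lit 493858305440582043680)) .nil)) (.cons (.rf (nat_lit 2184) (nat_lit 493858305440582043680)) .nil))),
 (.br (nat_lit 2) (nat_lit 0) (.cons (.br (nat_lit 10) (nat_lit 0) (.cons (.ev (nat_lit 1213666704900266079027201) (nat_lit 1)) (.cons (.br (nat_lit 11) (nat_lit 0) (.cons (.zr (nat_lit 621402038525483197139451904) (nat_lit 129127774764455166723) (nat_lit 5) (nat_lit 2)) (.cons (.rf (nat_lit 2163) (nat_lit 15070293157578784)) .nil))) (.cons (.rf (nat_lit 2163) (nat_lit 15071358307435584)) .nil)))) (.cons (.ev (nat_lit 309485009821345073036591104) (nat_lit 1)) (.cons (.br (nat_lit 12) (nat_lit 0) (.cons (.ev (nat_lit 79228167255149622130953486593) (nat_lit 1)) (.cons (.rf (nat_lit 2164) (nat_lit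 13549788301344)) (.cons (.rf (nat_lit 2163) (nat_lit 15001056135251008)) .nil)))) (.cons (.br (nat_lit 13) (nat_lit 0) (.cons (.rf (nat_lit 2184) (nat_lit 493858305440582043680)) (.cons (.rf (nat_lit 2185) (nat_lit 493858305440582043680)) (.cons (.br (nat_lit 13) (nat_lit 0) (.cons (.rf (nat_lit 2184) (nat_lit 493858305440582043680)) (.cons (.rf (nat_lit 2185) (nat_lit 493858305440582043680)) .nil))) .nil)))) .nil))))),
 (.br (nat_lit 8) (nat_lit 0) (.cons (.br (nat_lit 8) (nat_lit 0) .nil) .nil)),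
 (.br (nat_lit 11) (nat_lit 0) (.cons (.ev (nat_lit 310693954087704875415634176) (nat_lit 1)) (.cons (.kr (nat_lit 158456325028528675191382867968) (nat_lit 4740813508418331475968) (nat_lit 4) (nat_lit 0)) (.cons (.br (nat_lit 12) (nat_lit 0) (.cons (.kr (nat_lit 18446744073709551616) (nat_lit 79228162514264337593543950336) (nat_lit 8) (nat_lit 0)) (.cons (.ev (nat_lit 79538856449905298395250032896) (nat_lit 1)) .nil))) .nil)))),
 (.br (nat_lit 10) (nat_lit 0) (.cons (.kr (nat_lit 158456325028528675191382867968) (nat_lit 4740813508418331475968) (nat_lit 4) (nat_lit 0)) (.cons (.br (nat_lit 12) (nat_lit 0) (.cons (.ev (nat_lit 20282409603670189226718822137856) (nat_lit 1)) .nil)) .nil))),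
 (.br (nat_lit 2) (nat_lit 0) (.cons (.rf (nat_lit 2186) (nat_lit 14242959524133701664)) (.cons (.br (nat_lit 7) (nat_lit 0) (.cons (.zr (nat_lit 309485028340709686425682179) (nat_lit 1213648186097507426828288) (nat_lit 5) (nat_lit 1)) (.cons (.br (nat_lit 10) (nat_lit 0) (.cons (.ev (nat_lit 3109361949009269038877508110) (nat_lit 4)) (.cons (.rf (nat_lit 2163) (nat_lit 15066960395142208)) .nil))) (.cons (.rf (nat_lit 2163) (nat_lit 15070155852843040)) .nil)))) (.cons (.br (nat_lit 7) (nat_lit 0) (.cons (.ev (nat_lit 18519083147036000513) (nat_lit 1)) (.cons (.br (nat_lit 10) (nat_lit 0) (.cons (.ev (nat_lit 310693954087704875415634176) (nat_lit 1)) (.cons (.br (nat_lit 13) (nat_lit 0) (.cons (.ev (nat_lit 158463583361442718015887115780) (nat_lit 3)) .nil)) .nil))) (.cons (.br (nat_lit 10) (nat_lit 0) (.cons (.ev (nat_lit 1859332688418981001713288198) (nat_lit 3)) (.cons (.rf (nat_lit 2173) (nat_lit 465484599428160)) .nil))) (.cons (.br (nat_lit 11) (nat_lit 0) (.cons (.rf (nat_lit 2173) (nat_lit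 468816321677344)) (.cons (.ev (nat_lit 79537647542532426740290093056) (nat_lit 1)) (.cons (.br (nat_lit 13) (nat_lit 0) (.cons (.br (nat_lit 12) (nat_lit 0) (.cons (.zr (nat_lit 237684487579686782407322632960) (nat_lit 310708102812465900889964544) (nat_lit 5) (nat_lit 7)) .nil)) (.cons (.br (nat_lit 10) (nat_lit 0) (.cons (.zr (nat_lit 237684487579686782407322632960) (nat_lit 310708102812465900889964544) (nat_lit 5) (nat_lit 7)) .nil)) .nil))) .nil)))) .nil))))) (.cons (.br (nat_lit 7) (nat_lit 0) (.cons (.br (nat_lit 12) (nat_lit 0) (.cons (.ev (nat_lit 310693954087704875415634176) (nat_lit 1)) (.cons (.br (nat_lit 12) (nat_lit 0) (.cons (.ev (nat_lit 310693954087704875415634176) (nat_lit 1)) .nil)) .nil))) (.cons (.rf (nat_lit 2175) (nat_lit 15070293157578784)) (.cons (.br (nat_lit 12) (nat_lit 0) (.cons (.kr (nat_lit 18446744073709551616) (nat_lit 79228162514264337593543950336) (nat_lit 8) (nat_lit 0)) (.cons (.rf (nat_lit 2187) (nat_lit 14718019405856)) (.cons (.ev (nat_lit 79228167255149622130953486593)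 (nat_lit 1)) .nil)))) (.cons (.br (nat_lit 12) (nat_lit 0) (.cons (.rf (nat_lit 2188) (nat_lit 493858305440582043680)) (.cons (.rf (nat_lit 2189) (nat_lit 493858305440582043680)) (.cons (.br (nat_lit 12) (nat_lit 0) (.cons (.rf (nat_lit 2188) (nat_lit 493858305440582043680)) (.cons (.rf (nat_lit 2189) (nat_lit 493858305440582043680)) .nil))) .nil)))) .nil))))) .nil))))),
 (.br (nat_lit 7) (nat_lit 0) (.cons (.br (nat_lit 12) (nat_lit 0) (.cons (.ev (nat_lit 310698658007725142033039616) (nat_lit 1)) (.cons (.rf (nat_lit 2163) (nat_lit 14996658222957632)) .nil))) (.cons (.rf (nat_lit 2164) (nat_lit 13545627551776)) (.cons (.rf (nat_lit 2163) (nat_lit 15001983984437280)) .nil)))),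
 (.br (nat_lit 12) (nat_lit 0) (.cons (.ev (nat_lit 620179000802540294928270080) (nat_lit 2)) (.cons (.ev (nat_lit 20282409603670189226718822137856) (nat_lit 1)) .nil))),
 (.br (nat_lit 10) (nat_lit 0) (.cons (.br (nat_lit 13) (nat_lit 0) (.cons (.ev (nat_lit 620179000802540294928270080) (nat_lit 2)) (.cons (.ev (nat_lit 79537647542532426740290093056) (nat_lit 1)) .nil))) (.cons (.rf (nat_lit 2192) (nat_lit 493858305440582043680)) .nil))),
 (.br (nat_lit 13) (nat_lit 0) (.cons (.rf (nat_lit 2192) (nat_lit 493858305440582043680)) (.cons (.br (nat_lit 13) (nat_lit 0) (.cons (.ev (nat_lit 20282409603670189226718822137856) (nat_lit 1)) .nil)) .nil))),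
 (.br (nat_lit 2) (nat_lit 0) (.cons (.ev (nat_lit 309485009821345073036591104) (nat_lit 1)) (.cons (.rf (nat_lit 2190) (nat_lit 14242959524133701664)) (.cons (.rf (nat_lit 2191) (nat_lit 14242959524133701664)) (.cons (.br (nat_lit 13) (nat_lit 0) (.cons (.rf (nat_lit 2193) (nat_lit 493858305440582043680)) (.cons (.rf (nat_lit 2194) (nat_lit 493858305440582043680)) (.cons (.br (nat_lit 13) (nat_lit 0) (.cons (.rf (nat_lit 2193) (nat_lit 493858305440582043680)) (.cons (.rf (nat_lit 2194) (nat_lit 493858305440582043680)) .nil))) .nil)))) .nil))))),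
 (.br (nat_lit 9) (nat_lit 0) (.cons (.br (nat_lit 9) (nat_lit 0) .nil) .nil)),
 (.br (nat_lit 9) (nat_lit 0) (.cons (.br (nat_lit 6) (nat_lit 0) .nil) .nil)),
 (.br (nat_lit 10) (nat_lit 0) (.cons (.rf (nat_lit 2197) (nat_lit 362021925259296)) (.cons (.br (nat_lit 7) (nat_lit 0) (.cons (.rf (nat_lit 2197) (nat_lit 362021925259296)) .nil)) .nil))),
 (.br (nat_lit 2) (nat_lit 0) (.cons (.rf (nat_lit 2186) (nat_lit 14242959524133701664)) (.cons (.rf (nat_lit 2190) (nat_lit 14242959524133701664)) (.cons (.rf (nat_lit 2191) (nat_lit 14242959524133701664)) (.cons (.br (nat_lit 7) (nat_lit 0) (.cons (.br (nat_lit 10) (nat_lit 0) (.cons (.rf (nat_lit 2187) (nat_lit 14649299929120)) (.cons (.rf (nat_lit 2196) (nat_lit 470979911452704)) (.cons (.br (nat_lit 13) (nat_lit 0) (.cons (.br (nat_lit 12) (nat_lit 0) (.cons (.ev (nat_lit 40881731862212180966667347689990) (nat_lit 3)) .nil)) (.cons (.br (nat_lit 11) (nat_lit 0) (.cons (.ev (nat_lit 40881731862212180966667347689990) (nat_lit 3)) .nil)) .nil)))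 .nil)))) (.cons (.rf (nat_lit 2175) (nat_lit 15002121289173024)) (.cons (.rf (nat_lit 2198) (nat_lit 15071357202171936)) (.cons (.ev (nat_lit 18519083147036000513) (nat_lit 1)) .nil))))) .nil))))),
 (.br (nat_lit 10) (nat_lit 0) (.cons (.ev (nat_lit 1208925819896104168194049) (nat_lit 1)) (.cons (.rf (nat_lit 2164) (nat_lit 11316405307424)) (.cons (.rf (nat_lit 2163) (nat_lit 13839903136842816)) .nil)))),
 (.br (nat_lit 13) (nat_lit 0) (.cons (.br (nat_lit 10) (nat_lit 0) (.cons (.ev (nat_lit 475990367698114368499630866438) (nat_lit 3)) .nil)) .nil)),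
 (.br (nat_lit 13) (nat_lit 0) (.cons (.rf (nat_lit 2201) (nat_lit 493858305440582043680)) (.cons (.br (nat_lit 13) (nat_lit 0) (.cons (.rf (nat_lit 2201) (nat_lit 493858305440582043680)) .nil)) .nil))),
 (.br (nat_lit 13) (nat_lit 0) (.cons (.rf (nat_lit 2202) (nat_lit 493858305440582043680)) (.cons (.br (nat_lit 13) (nat_lit 0) (.cons (.rf (nat_lit 2202) (nat_lit 493858305440582043680)) .nil)) .nil))),
 (.br (nat_lit 2) (nat_lit 0) (.cons (.br (nat_lit 10) (nat_lit 0) (.cons (.ev (nat_lit 1213666704900266079027201) (nat_lit 1)) (.cons (.kr (nat_lit 55340513696105365506) (nat_lit 158456329750895158061028212736) (nat_lit 0) (nat_lit 1)) (.cons (.rf (nat_lit 2163) (nat_lit 15037271299490880)) .nil)))) (.cons (.rf (nat_lit 2200) (nat_lit 445092449661061152)) (.cons (.ev (nat_lit 79228167255149903610225099008) (nat_lit 1)) (.cons (.br (nat_lit 13) (nat_lit 0) (.cons (.rf (nat_lit 2202) (nat_lit 493858305440582043680)) (.cons (.rf (nat_lit 2203) (nat_lit 493858305440582043680)) (.cons (.br (nat_lit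 13) (nat_lit 0) (.cons (.rf (nat_lit 2202) (nat_lit 493858305440582043680)) (.cons (.rf (nat_lit 2203) (nat_lit 493858305440582043680)) .nil))) .nil)))) .nil))))),
 (.br (nat_lit 11) (nat_lit 0) (.cons (.ev (nat_lit 309485009821626543718269184) (nat_lit 1)) .nil)),
 (.br (nat_lit 10) (nat_lit 0) (.cons (.rf (nat_lit 2173) (nat_lit 429198534673472)) (.cons (.rf (nat_lit 2173) (nat_lit 434524294120512)) (.cons (.br (nat_lit 12) (nat_lit 0) (.cons (.rf (nat_lit 2205) (nat_lit 14242959524133701664)) (.cons (.rf (nat_lit 2205) (nat_lit 14062811146365274144)) .nil))) .nil)))),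
 (.br (nat_lit 2) (nat_lit 0) (.cons (.rf (nat_lit 2204) (nat_lit 14242959524133701664)) (.cons (.br (nat_lit 10) (nat_lit 0) (.cons (.ev (nat_lit 18519083147036000513) (nat_lit 1)) (.cons (.ev (nat_lit 309485009821626543718268929) (nat_lit 1)) (.cons (.kr (nat_lit 18447025548686262273) (nat_lit 79228162514264337597838983168) (nat_lit 0) (nat_lit 1)) (.cons (.rf (nat_lit 2206) (nat_lit 15433072044983552032)) .nil))))) (.cons (.br (nat_lit 7) (nat_lit 0) (.cons (.rf (nat_lit 2164) (nat_lit 11380997589024)) (.cons (.br (nat_lit 10) (nat_lit 0) (.cons (.ev (nat_lit 79848341496620415285444346625) (nat_lit 2)) (.cons (.rf (nat_lit 2163) (nat_lit 15031773909124160)) .nil))) (.cons (.rf (nat_lit 2163) (nat_lit 15034969366824992)) .nil)))) (.cons (.br (nat_lit 7) (nat_lit 0) (.cons (.rf (nat_lit 2198) (nat_lit 15002122329360416)) (.cons (.br (nat_lit 10) (nat_lit 0) (.cons (.rf (nat_lit 2196) (nat_lit 468816321677344)) (.cons (.rf (nat_lit 2198) (nat_lit 14996630139930656)) (.cons (.br (nat_lit 11) (nat_lit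 0) (.cons (.ev (nat_lit 79228167255149903610225099008) (nat_lit 1)) (.cons (.br (nat_lit 12) (nat_lit 0) (.cons (.ev (nat_lit 160315657680055293924109321218) (nat_lit 3)) .nil)) .nil))) .nil)))) (.cons (.rf (nat_lit 2175) (nat_lit 15035140997744672)) (.cons (.br (nat_lit 12) (nat_lit 0) (.cons (.rf (nat_lit 2198) (nat_lit 14996630139930656)) (.cons (.br (nat_lit 10) (nat_lit 0) (.cons (.rf (nat_lit 2196) (nat_lit 468644690757664)) (.cons (.br (nat_lit 11) (nat_lit 0) (.cons (.ev (nat_lit 20361948464842388948182049554433) (nat_lit 1)) .nil)) .nil))) (.cons (.ev (nat_lit 79228167255149903610225099008) (nat_lit 1)) .nil)))) .nil))))) .nil))))),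
 (.br (nat_lit 2) (nat_lit 0) (.cons (.rf (nat_lit 2200) (nat_lit 445092449661061152)) (.cons (.rf (nat_lit 2207) (nat_lit 14242959524133701664)) (.cons (.rf (nat_lit 2200) (nat_lit 264948636364933152)) (.cons (.br (nat_lit 7) (nat_lit 0) (.cons (.br (nat_lit 12) (nat_lit 0) (.cons (.ev (nat_lit 79228167255149903610225099008) (nat_lit 1)) (.cons (.rf (nat_lit 2198) (nat_lit 15031780152281120)) (.cons (.ev (nat_lit 79228162532855478343224721921) (nat_lit 2)) .nil)))) (.cons (.rf (nat_lit 2198) (nat_lit 15037272341710880)) (.cons (.rf (nat_lit 2175) (nat_lit 15001056137283616)) (.cons (.ev (nat_lit 18519083147036000513) (nat_lit 1)) .nil))))) .nil))))),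
 (.br (nat_lit 9) (nat_lit 0) (.cons (.br (nat_lit 9) (nat_lit 0) (.cons (.ev (nat_lit 4722438823042466447361) (nat_lit 1)) .nil)) (.cons (.br (nat_lit 9) (nat_lit 0) (.cons (.ev (nat_lit 4722438823042466447361) (nat_lit 1)) .nil)) .nil))),
 (.br (nat_lit 12) (nat_lit 0) (.cons (.rf (nat_lit 2209) (nat_lit 14242959524133701664)) (.cons (.br (nat_lit 12) (nat_lit 0) (.cons (.rf (nat_lit 2209) (nat_lit 14242959524133701664)) .nil)) .nil))),
 (.br (nat_lit 2) (nat_lit 0) (.cons (.ev (nat_lit 79228167255149903610225099008) (nat_lit 1)) (.cons (.rf (nat_lit 2207) (nat_lit 14242959524133701664)) (.cons (.rf (nat_lit 2200) (nat_lit 264948636364933152)) (.cons (.br (nat_lit 13) (nat_lit 0) (.cons (.rf (nat_lit 2209) (nat_lit 15433070910038444064)) (.cons (.rf (nat_lit 2210) (nat_lit 15433070910038444064)) (.cons (.br (nat_lit 13) (nat_lit 0) (.cons (.rf (nat_lit 2209) (nat_lit 15433070910038444064)) (.cons (.rf (nat_lit 2210) (nat_lit 15433070910038444064)) .nil))) .nil)))) .nil))))),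
 (.br (nat_lit 12) (nat_lit 0) (.cons (.kr (nat_lit 158456325028528675191382867968) (nat_lit 4740813508418331475968) (nat_lit 4) (nat_lit 0)) (.cons (.ev (nat_lit 20361637766166007101709338345473) (nat_lit 1)) .nil))),
 (.br (nat_lit 12) (nat_lit 0) (.cons (.kr (nat_lit 158456325028528675191382867968) (nat_lit 4740813508418331475968) (nat_lit 4) (nat_lit 0)) (.cons (.ev (nat_lit 20361637770906820047182011367425) (nat_lit 1)) .nil)))]

theorem c79 : chkAll C T R L79 (nat_lit 2180) = true := by decide +kernel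

theorem l79 : (nat_lit 2180) + L79.length = (nat_lit 2214) := by decide +kernel

/-- part of the certificates -/
def L80 : List Prf := [(.br (nat_lit 2) (nat_lit 0) (.cons (.br (nat_lit 11) (nat_lit 0) (.cons (.br (nat_lit 11) (nat_lit 0) (.cons (.rf (nat_lit 2212) (nat_lit 493858305440582043680)) (.cons (.ev (nat_lit 121696321790375507515849574449668) (nat_lit 3)) .nil))) (.cons (.rf (nat_lit 2212) (nat_lit 493858305440582043680)) (.cons (.br (nat_lit 11) (nat_lit 0) (.cons (.ev (nat_lit 121696321790375507515849574449668) (nat_lit 3)) (.cons (.rf (nat_lit 2212) (nat_lit 493858305440582043680)) .nil))) .nil)))) (.cons (.br (nat_lit 10) (nat_lit 0) (.cons (.ev (nat_lit 309485009821626543718268929) (nat_lit 1)) (.cons (.rf (nat_lit 2213) (nat_lit 493858305440582043680)) (.cons (.br (nat_lit 10) (nat_lit 0) (.cons (.ev (nat_lit 1213666704900266079027201) (nat_lit 1)) (.cons (.rf (nat_lit 2213) (nat_lit 493858305440582043680)) .nil))) .nil)))) (.cons (.br (nat_lit 12) (nat_lit 0) (.cons (.br (nat_lit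 11) (nat_lit 0) (.cons (.br (nat_lit 11) (nat_lit 0) (.cons (.ev (nat_lit 20361947251175972843441132601346) (nat_lit 2)) .nil)) (.cons (.br (nat_lit 10) (nat_lit 0) (.cons (.ev (nat_lit 20361947251175972843441132601346) (nat_lit 2)) .nil)) .nil))) (.cons (.br (nat_lit 11) (nat_lit 0) (.cons (.br (nat_lit 10) (nat_lit 0) (.cons (.ev (nat_lit 1213666704900266079027201) (nat_lit 1)) .nil)) (.cons (.kr (nat_lit 316912650057057631853447479808) (nat_lit 40564819221488887042776171020288) (nat_lit 1) (nat_lit 0)) .nil))) (.cons (.zr (nat_lit 4740813230241889714688) (nat_lit 20440865928680199380617905831937) (nat_lit 5) (nat_lit 0)) .nil)))) .nil)))),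
 (.br (nat_lit 7) (nat_lit 0) (.cons (.ev (nat_lit 20282409603670189508189503946753) (nat_lit 1)) (.cons (.ev (nat_lit 18519083147036000513) (nat_lit 1)) (.cons (.br (nat_lit 10) (nat_lit 0) (.cons (.ev (nat_lit 20361948464842388948182049554433) (nat_lit 1)) .nil)) .nil)))),
 (.br (nat_lit 2) (nat_lit 0) (.cons (.ev (nat_lit 20282409608374108965514757865473) (nat_lit 1)) (.cons (.ev (nat_lit 18519083147036000513) (nat_lit 1)) (.cons (.rf (nat_lit 2215) (nat_lit 493858305440582043680)) .nil)))),
 (.br (nat_lit 10) (nat_lit 0) (.cons (.ev (nat_lit 20282409603670189508189503946753) (nat_lit 1)) (.cons (.ev (nat_lit 309485009821626543718268929) (nat_lit 1)) (.cons (.kr (nat_lit 158456329750895441730733081088) (nat_lit 2417870085973336387616768) (nat_lit 1) (nat_lit 0)) .nil)))),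
 (.br (nat_lit 2) (nat_lit 0) (.cons (.ev (nat_lit 20282409608374108965514757865473) (nat_lit 1)) (.cons (.rf (nat_lit 2217) (nat_lit 493858305440582043680)) (.cons (.ev (nat_lit 18519083147036000513) (nat_lit 1)) .nil)))),
 (.br (nat_lit 7) (nat_lit 0) (.cons (.br (nat_lit 11) (nat_lit 0) (.cons (.ev (nat_lit 318774400634008483606810722820) (nat_lit 3)) .nil)) (.cons (.rf (nat_lit 2218) (nat_lit 493858305440582043680)) (.cons (.ev (nat_lit 20361638979814192916637948051713) (nat_lit 1)) .nil)))),
 (.br (nat_lit 13) (nat_lit 0) (.cons (.rf (nat_lit 2214) (nat_lit 493858305440582043680)) (.cons (.br (nat_lit 12) (nat_lit 0) (.cons (.rf (nat_lit 2215) (nat_lit 493858305440582043680)) (.cons (.rf (nat_lit 2216) (nat_lit 493858305440582043680)) (.cons (.br (nat_lit 12) (nat_lit 0) (.cons (.rf (nat_lit 2215) (nat_lit 493858305440582043680)) (.cons (.kr (nat_lit 18446744073709551616) (nat_lit 79228162514264337593543950336) (nat_lit 8) (nat_lit 0)) (.cons (.kr (nat_lit 158456325028528675191382867968)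 (nat_lit 4740813508418331475968) (nat_lit 4) (nat_lit 0)) .nil)))) (.cons (.br (nat_lit 12) (nat_lit 0) (.cons (.rf (nat_lit 2215) (nat_lit 493858305440582043680)) (.cons (.rf (nat_lit 2216) (nat_lit 493858305440582043680)) (.cons (.kr (nat_lit 158456325028528675191382867968) (nat_lit 4740813508418331475968) (nat_lit 4) (nat_lit 0)) .nil)))) .nil))))) (.cons (.br (nat_lit 11) (nat_lit 0) (.cons (.rf (nat_lit 2217) (nat_lit 493858305440582043680)) (.cons (.rf (nat_lit 2218) (nat_lit 493858305440582043680)) (.cons (.rf (nat_lit 2219) (nat_lit 493858305440582043680)) (.cons (.br (nat_lit 11) (nat_lit 0) (.cons (.ev (nat_lit 20282719093402304997058859237633) (nat_lit 1)) (.cons (.rf (nat_lit 2218) (nat_lit 493858305440582043680)) (.cons (.rf (nat_lit 2219) (nat_lit 493858305440582043680)) .nil)))) .nil))))) .nil)))),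
 (.br (nat_lit 13) (nat_lit 0) (.cons (.rf (nat_lit 2214) (nat_lit 493858305440582043680)) (.cons (.rf (nat_lit 2220) (nat_lit 493858305440582043680)) (.cons (.br (nat_lit 2) (nat_lit 0) (.cons (.br (nat_lit 10) (nat_lit 0) (.cons (.br (nat_lit 10) (nat_lit 0) (.cons (.zr (nat_lit 4740813511716866360064) (nat_lit 20361947251175828164216442847233) (nat_lit 5) (nat_lit 0)) .nil)) (.cons (.br (nat_lit 10) (nat_lit 0) (.cons (.zr (nat_lit 4740813511716866360064) (nat_lit 20361947251175828164216442847233) (nat_lit 5) (nat_lit 0)) .nil)) .nil))) (.cons (.br (nat_lit 7) (nat_lit 0) (.cons (.ev (nat_lit 20282409603670189508189503946753) (nat_lit 1)) (.cons (.br (nat_lit 10) (nat_lit 0) (.cons (.ev (nat_lit 79538861190718525338604863745) (nat_lit 1)) .nil)) (.cons (.br (nat_lit 10) (nat_lit 0) (.cons (.ev (nat_lit 20361948464842388948182049554433) (nat_lit 1)) .nil)) .nil)))) (.cons (.br (nat_lit 7) (nat_lit 0) (.cons (.br (nat_lit 10) (nat_lit 0) (.cons (.zr (nat_lit 4740813511716866360064) (nat_lit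 20361947251175828164216442847233) (nat_lit 5) (nat_lit 0)) .nil)) (.cons (.ev (nat_lit 18519083147036000513) (nat_lit 1)) .nil))) (.cons (.zr (nat_lit 237684487542793575730585338368) (nat_lit 20282409608410930397163338858497) (nat_lit 5) (nat_lit 13)) .nil))))) .nil)))),
 (.br (nat_lit 13) (nat_lit 0) (.cons (.rf (nat_lit 2214) (nat_lit 493858305440582043680)) (.cons (.rf (nat_lit 2220) (nat_lit 493858305440582043680)) (.cons (.rf (nat_lit 2221) (nat_lit 493858305440582043680)) (.cons (.br (nat_lit 13) (nat_lit 0) (.cons (.rf (nat_lit 2214) (nat_lit 493858305440582043680)) (.cons (.rf (nat_lit 2220) (nat_lit 493858305440582043680)) (.cons (.rf (nat_lit 2221) (nat_lit 493858305440582043680)) .nil)))) .nil))))),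
 (.br (nat_lit 2) (nat_lit 0) (.cons (.br (nat_lit 10) (nat_lit 0) (.cons (.ev (nat_lit 309485009821626543718268929) (nat_lit 1)) (.cons (.br (nat_lit 11) (nat_lit 0) (.cons (.kr (nat_lit 158456325028528675191382867968) (nat_lit 4740813508418331475968) (nat_lit 4) (nat_lit 0)) (.cons (.br (nat_lit 12) (nat_lit 0) (.cons (.ev (nat_lit 20361638975110273459312694132993) (nat_lit 1)) .nil)) .nil))) (.cons (.br (nat_lit 12) (nat_lit 0) (.cons (.br (nat_lit 12) (nat_lit 0) (.cons (.ev (nat_lit 121694460044502763516138782852100) (nat_lit 3)) .nil)) (.cons (.ev (nat_lit 121694460044502763516138782852100) (nat_lit 3)) .nil))) .nil)))) (.cons (.br (nat_lit 10) (nat_lit 0) (.cons (.br (nat_lit 11) (nat_lit 0) (.cons (.rf (nat_lit 2187) (nat_lit 14684832040000)) (.cons (.br (nat_lit 12) (nat_lit 0) (.cons (.zr (nat_lit 928459752046690862228504576) (nat_lit 20282410812632830834847036473345) (nat_lit 5) (nat_lit 13)) .nil)) .nil))) (.cons (.rf (nat_lit 2174) (nat_lit 469745206985792)) (.cons (.br (nat_lit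 11) (nat_lit 0) (.cons (.ev (nat_lit 158463583361442718015887115780) (nat_lit 3)) (.cons (.ev (nat_lit 121694460044502763516138782852100) (nat_lit 3)) .nil))) .nil)))) (.cons (.rf (nat_lit 2222) (nat_lit 493858305440582043680)) .nil)))),
 (.br (nat_lit 2) (nat_lit 0) (.cons (.rf (nat_lit 2223) (nat_lit 493858305440582043680)) (.cons (.br (nat_lit 2) (nat_lit 0) (.cons (.rf (nat_lit 2223) (nat_lit 493858305440582043680)) (.cons (.ev (nat_lit 18519083147036000513) (nat_lit 1)) (.cons (.rf (nat_lit 2222) (nat_lit 493858305440582043680)) .nil)))) (.cons (.br (nat_lit 2) (nat_lit 0) (.cons (.rf (nat_lit 2223) (nat_lit 493858305440582043680)) (.cons (.ev (nat_lit 18519083147036000513) (nat_lit 1)) (.cons (.rf (nat_lit 2222) (nat_lit 493858305440582043680)) .nil)))) (.cons (.rf (nat_lit 2222) (nat_lit 493858305440582043680)) .nil))))),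
 (.br (nat_lit 2) (nat_lit 0) (.cons (.br (nat_lit 11) (nat_lit 0) (.cons (.ev (nat_lit 20441798010524088089127078068994) (nat_lit 2)) .nil)) (.cons (.br (nat_lit 10) (nat_lit 0) (.cons (.zr (nat_lit 4740813511716866360064) (nat_lit 20361947251175828164216442847233) (nat_lit 5) (nat_lit 0)) .nil)) (.cons (.br (nat_lit 10) (nat_lit 0) (.cons (.zr (nat_lit 4740813511716866360064) (nat_lit 20361947251175828164216442847233) (nat_lit 5) (nat_lit 0)) .nil)) .nil)))),
 (.br (nat_lit 7) (nat_lit 0) (.cons (.rf (nat_lit 2225) (nat_lit 493858305440582043680)) (.cons (.br (nat_lit 2) (nat_lit 0) (.cons (.ev (nat_lit 79537647542532708210971770881) (nat_lit 1)) .nil)) (.cons (.ev (nat_lit 20361638979814192916637948051713) (nat_lit 1)) .nil)))),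
 (.br (nat_lit 2) (nat_lit 0) (.cons (.rf (nat_lit 2225) (nat_lit 493858305440582043680)) (.cons (.rf (nat_lit 2226) (nat_lit 493858305440582043680)) (.cons (.br (nat_lit 7) (nat_lit 0) (.cons (.zr (nat_lit 4740813511716866360064) (nat_lit 20361947251175828164216442847233) (nat_lit 5) (nat_lit 0)) .nil)) .nil)))),
 (.br (nat_lit 13) (nat_lit 0) (.cons (.rf (nat_lit 2222) (nat_lit 493858305440582043680)) (.cons (.rf (nat_lit 2224) (nat_lit 493858305440582043680)) (.cons (.br (nat_lit 2) (nat_lit 0) (.cons (.rf (nat_lit 2225) (nat_lit 493858305440582043680)) (.cons (.rf (nat_lit 2226) (nat_lit 493858305440582043680)) (.cons (.rf (nat_lit 2227) (nat_lit 493858305440582043680)) (.cons (.br (nat_lit 2) (nat_lit 0) (.cons (.rf (nat_lit 2225) (nat_lit 493858305440582043680)) (.cons (.rf (nat_lit 2226) (nat_lit 493858305440582043680)) (.cons (.rf (nat_lit 2227) (nat_lit 493858305440582043680)) .nil)))) .nil))))) .nil)))),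
 (.br (nat_lit 13) (nat_lit 0) (.cons (.rf (nat_lit 2222) (nat_lit 493858305440582043680)) (.cons (.rf (nat_lit 2224) (nat_lit 493858305440582043680)) (.cons (.rf (nat_lit 2228) (nat_lit 493858305440582043680)) (.cons (.br (nat_lit 13) (nat_lit 0) (.cons (.rf (nat_lit 2222) (nat_lit 493858305440582043680)) (.cons (.rf (nat_lit 2224) (nat_lit 493858305440582043680)) (.cons (.rf (nat_lit 2228) (nat_lit 493858305440582043680)) .nil)))) .nil))))),
 (.br (nat_lit 13) (nat_lit 0) (.cons (.rf (nat_lit 2222) (nat_lit 493858305440582043680)) (.cons (.rf (nat_lit 2224) (nat_lit 493858305440582043680)) (.cons (.rf (nat_lit 2229) (nat_lit 493858305440582043680)) (.cons (.br (nat_lit 13) (nat_lit 0) (.cons (.rf (nat_lit 2222) (nat_lit 493858305440582043680)) (.cons (.rf (nat_lit 2224) (nat_lit 493858305440582043680)) (.cons (.rf (nat_lit 2229) (nat_lit 493858305440582043680)) .nil)))) .nil))))),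
 (.br (nat_lit 1) (nat_lit 0) (.cons (.rf (nat_lit 2161) (nat_lit 14242959524133701664)) (.cons (.br (nat_lit 2) (nat_lit 0) (.cons (.rf (nat_lit 2168) (nat_lit 14242959524133701664)) (.cons (.rf (nat_lit 2172) (nat_lit 14242959524133701664)) (.cons (.rf (nat_lit 2177) (nat_lit 14242959524133701664)) (.cons (.rf (nat_lit 2182) (nat_lit 14242959524133701664)) (.cons (.br (nat_lit 2) (nat_lit 0) (.cons (.rf (nat_lit 2168) (nat_lit 14242959524133701664)) (.cons (.rf (nat_lit 2172) (nat_lit 14242959524133701664)) (.cons (.rf (nat_lit 2177) (nat_lit 14242959524133701664)) (.cons (.rf (nat_lit 2182) (nat_lit 14242959524133701664)) .nil))))) .nil)))))) (.cons (.br (nat_lit 2) (nat_lit 0) (.cons (.rf (nat_lit 2186) (nat_lit 14242959524133701664)) (.cons (.rf (nat_lit 2190) (nat_lit 14242959524133701664)) (.cons (.rf (nat_lit 2195) (nat_lit 14242959524133701664)) (.cons (.rf (nat_lit 2199) (nat_lit 14242959524133701664)) (.cons (.br (nat_lit 2) (nat_lit 0) (.cons (.rf (nat_lit 2186) (nat_lit 14242959524133701664))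 (.cons (.rf (nat_lit 2190) (nat_lit 14242959524133701664)) (.cons (.rf (nat_lit 2195) (nat_lit 14242959524133701664)) (.cons (.rf (nat_lit 2199) (nat_lit 14242959524133701664)) .nil))))) .nil)))))) (.cons (.br (nat_lit 2) (nat_lit 0) (.cons (.rf (nat_lit 2204) (nat_lit 14242959524133701664)) (.cons (.rf (nat_lit 2207) (nat_lit 14242959524133701664)) (.cons (.rf (nat_lit 2208) (nat_lit 14242959524133701664)) (.cons (.rf (nat_lit 2211) (nat_lit 14242959524133701664)) (.cons (.br (nat_lit 2) (nat_lit 0) (.cons (.rf (nat_lit 2204) (nat_lit 14242959524133701664)) (.cons (.rf (nat_lit 2207) (nat_lit 14242959524133701664)) (.cons (.rf (nat_lit 2208) (nat_lit 14242959524133701664)) (.cons (.rf (nat_lit 2211) (nat_lit 14242959524133701664)) .nil))))) .nil)))))) (.cons (.br (nat_lit 13) (nat_lit 0) (.cons (.rf (nat_lit 2222) (nat_lit 493858305440582043680)) (.cons (.rf (nat_lit 2224) (nat_lit 493858305440582043680)) (.cons (.rf (nat_lit 2229) (nat_lit 493858305440582043680)) (.cons (.rf (nat_lit 2230)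 (nat_lit 493858305440582043680)) (.cons (.br (nat_lit 13) (nat_lit 0) (.cons (.rf (nat_lit 2222) (nat_lit 493858305440582043680)) (.cons (.rf (nat_lit 2224) (nat_lit 493858305440582043680)) (.cons (.rf (nat_lit 2229) (nat_lit 493858305440582043680)) (.cons (.rf (nat_lit 2230) (nat_lit 493858305440582043680)) .nil))))) .nil)))))) .nil)))))),
 (.br (nat_lit 2) (nat_lit 0) (.cons (.br (nat_lit 7) (nat_lit 0) (.cons (.ev (nat_lit 1213666704900266079027201) (nat_lit 1)) (.cons (.br (nat_lit 11) (nat_lit 0) (.cons (.ev (nat_lit 79538861190718525338604863745) (nat_lit 1)) (.cons (.rf (nat_lit 2163) (nat_lit 15066994723358752)) .nil))) (.cons (.rf (nat_lit 2163) (nat_lit 15071255328883776)) .nil)))) (.cons (.ev (nat_lit 309485009821345073036591104) (nat_lit 1)) (.cons (.br (nat_lit 7) (nat_lit 0) (.cons (.br (nat_lit 11) (nat_lit 0) (.cons (.ev (nat_lit 79229371458603036469249441793) (nat_lit 1)) (.cons (.rf (nat_lit 2173) (nat_lit 465516847269920)) .nil))) (.cons (.br (nat_lit 10) (nat_lit 0) (.cons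 (.ev (nat_lit 320022012227424733522030625284) (nat_lit 4)) (.cons (.rf (nat_lit 2173) (nat_lit 465517887457312)) .nil))) (.cons (.br (nat_lit 10) (nat_lit 0) (.cons (.ev (nat_lit 79538861190718525338604863745) (nat_lit 1)) (.cons (.br (nat_lit 13) (nat_lit 0) (.cons (.kr (nat_lit 309485046786891909693440001) (nat_lit 158457533954348571291256160256) (nat_lit 0) (nat_lit 1)) .nil)) .nil))) (.cons (.br (nat_lit 12) (nat_lit 0) (.cons (.rf (nat_lit 2173) (nat_lit 468783033648192)) (.cons (.rf (nat_lit 2173) (nat_lit 469848185537600)) (.cons (.br (nat_lit 13) (nat_lit 0) (.cons (.br (nat_lit 11) (nat_lit 0) (.cons (.zr (nat_lit 237684487579686782407322632960) (nat_lit 310708102812465900889964544) (nat_lit 5) (nat_lit 10)) .nil)) (.cons (.br (nat_lit 10) (nat_lit 0) (.cons (.zr (nat_lit 237684487579686782407322632960) (nat_lit 310708102812465900889964544) (nat_lit 5) (nat_lit 10)) .nil)) .nil))) .nil)))) .nil))))) (.cons (.br (nat_lit 7) (nat_lit 0) (.cons (.rf (nat_lit 2198) (nat_lit 14895507349538848))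 (.cons (.rf (nat_lit 2198) (nat_lit 14894408911652896)) (.cons (.br (nat_lit 10) (nat_lit 0) (.cons (.rf (nat_lit 2175) (nat_lit 15066994723358752)) (.cons (.kr (nat_lit 18446744073709551616) (nat_lit 79228162514264337593543950336) (nat_lit 8) (nat_lit 0)) (.cons (.br (nat_lit 11) (nat_lit 0) (.cons (.ev (nat_lit 158767019001279580596672331779) (nat_lit 2)) (.cons (.br (nat_lit 12) (nat_lit 0) (.cons (.ev (nat_lit 40723277955035292081480982986752) (nat_lit 3)) .nil)) .nil))) .nil)))) (.cons (.br (nat_lit 10) (nat_lit 0) (.cons (.rf (nat_lit 2174) (nat_lit 470843646904352)) (.cons (.br (nat_lit 11) (nat_lit 0) (.cons (.kr (nat_lit 158456325028528675191382867968) (nat_lit 4740813508418331475968) (nat_lit 4) (nat_lit 0)) (.cons (.br (nat_lit 12) (nat_lit 0) (.cons (.ev (nat_lit 41043295126707655031734695363080) (nat_lit 4)) .nil)) .nil))) (.cons (.br (nat_lit 11) (nat_lit 0) (.cons (.br (nat_lit 12) (nat_lit 0) (.cons (.ev (nat_lit 40723282790664782442218096034820) (nat_lit 3)) .nil)) (.cons (.ev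 (nat_lit 40565129901239198825907597935105) (nat_lit 2)) .nil))) .nil)))) .nil))))) .nil))))),
 (.br (nat_lit 8) (nat_lit 0) (.cons (.br (nat_lit 8) (nat_lit 0) .nil) .nil)),
 (.br (nat_lit 10) (nat_lit 0) (.cons (.rf (nat_lit 2233) (nat_lit 362021891704864)) (.cons (.br (nat_lit 10) (nat_lit 0) (.cons (.rf (nat_lit 2233) (nat_lit 362021891704864)) .nil)) .nil))),
 (.br (nat_lit 7) (nat_lit 0) (.cons (.rf (nat_lit 2232) (nat_lit 14242959524133701664)) (.cons (.ev (nat_lit 18518801667764257024) (nat_lit 1)) (.cons (.br (nat_lit 2) (nat_lit 0) (.cons (.br (nat_lit 13) (nat_lit 0) (.cons (.br (nat_lit 13) (nat_lit 0) .nil) .nil)) (.cons (.rf (nat_lit 2234) (nat_lit 15037271299490880)) (.cons (.br (nat_lit 13) (nat_lit 0) (.cons (.br (nat_lit 12) (nat_lit 0) (.cons (.ev (nat_lit 20282720297605758127718860324864) (nat_lit 1)) .nil)) (.cons (.br (nat_lit 11) (nat_lit 0) (.cons (.ev (nat_lit 20282720297605758127718860324864) (nat_lit 1)) .nil)) .nil))) .nil)))) .nil))))]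

theorem c80 : chkAll C T R L80 (nat_lit 2214) = true := by decide +kernel

theorem l80 : (nat_lit 2214) + L80.length = (nat_lit 2236) := by decide +kernel

/-- part of the certificates -/
def L81 : List Prf := [(.br (nat_lit 7) (nat_lit 0) (.cons (.rf (nat_lit 2232) (nat_lit 14242959524133701664)) (.cons (.br (nat_lit 7) (nat_lit 0) (.cons (.ev (nat_lit 1213666704900266079027201) (nat_lit 1)) (.cons (.ev (nat_lit 18518801667764257024) (nat_lit 1)) (.cons (.rf (nat_lit 2234) (nat_lit 15071358309468192)) .nil)))) (.cons (.rf (nat_lit 2235) (nat_lit 14242959524133701664)) (.cons (.br (nat_lit 7) (nat_lit 0) (.cons (.rf (nat_lit 2163) (nat_lit 15071255328883776)) (.cons (.rf (nat_lit 2234) (nat_lit 15071358309468192)) (.cons (.rf (nat_lit 2235) (nat_lit 14242959524133701664)) .nil)))) .nil))))),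
 (.br (nat_lit 7) (nat_lit 0) (.cons (.rf (nat_lit 2233) (nat_lit 470946625456160)) (.cons (.br (nat_lit 10) (nat_lit 0) (.cons (.kr (nat_lit 18446744073709551616) (nat_lit 79228162514264337593543950336) (nat_lit 8) (nat_lit 0)) (.cons (.br (nat_lit 12) (nat_lit 0) (.cons (.ev (nat_lit 20362567430139737213043942097152) (nat_lit 2)) .nil)) .nil))) .nil))),
 (.br (nat_lit 7) (nat_lit 0) (.cons (.br (nat_lit 7) (nat_lit 0) (.cons (.rf (nat_lit 2237) (nat_lit 493858305440582043680)) .nil)) (.cons (.rf (nat_lit 2237) (nat_lit 493858305440582043680)) .nil))),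
 (.br (nat_lit 2) (nat_lit 0) (.cons (.ev (nat_lit 309485009821345073036591104) (nat_lit 1)) (.cons (.rf (nat_lit 2236) (nat_lit 14242959524133701664)) (.cons (.br (nat_lit 10) (nat_lit 0) (.cons (.ev (nat_lit 310693954087986346097443073) (nat_lit 1)) (.cons (.rf (nat_lit 2164) (nat_lit 13445769562144)) (.cons (.rf (nat_lit 2163) (nat_lit 14896531799902240)) .nil)))) (.cons (.br (nat_lit 13) (nat_lit 0) (.cons (.rf (nat_lit 2237) (nat_lit 493858305440582043680)) (.cons (.rf (nat_lit 2238) (nat_lit 493858305440582043680)) (.cons (.br (nat_lit 13) (nat_lit 0) (.cons (.rf (nat_lit 2237) (nat_lit 493858305440582043680)) (.cons (.rf (nat_lit 2238) (nat_lit 493858305440582043680)) .nil))) .nil)))) .nil))))),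
 (.br (nat_lit 2) (nat_lit 0) (.cons (.rf (nat_lit 2232) (nat_lit 14242959524133701664)) (.cons (.rf (nat_lit 2236) (nat_lit 14242959524133701664)) (.cons (.rf (nat_lit 2239) (nat_lit 14242959524133701664)) (.cons (.br (nat_lit 10) (nat_lit 0) (.cons (.br (nat_lit 7) (nat_lit 0) (.cons (.rf (nat_lit 2187) (nat_lit 14546321377312)) (.cons (.rf (nat_lit 2196) (nat_lit 470976790890528)) (.cons (.br (nat_lit 11) (nat_lit 0) (.cons (.kr (nat_lit 618974760600034467903438850) (nat_lit 158458742880168185924742676480) (nat_lit 0) (nat_lit 1)) (.cons (.br (nat_lit 12) (nat_lit 0) (.cons (.ev (nat_lit 80159035395439661855424053506) (nat_lit 2)) .nil)) .nil))) .nil)))) (.cons (.rf (nat_lit 2175) (nat_lit 14896566126086176)) (.cons (.rf (nat_lit 2198) (nat_lit 15071257277073440)) (.cons (.br (nat_lit 11) (nat_lit 0) (.cons (.br (nat_lit 7) (nat_lit 0) (.cons (.ev (nat_lit 18518801667764257024) (nat_lit 1)) (.cons (.ev (nat_lit 1208925891954801995939841) (nat_lit 1)) .nil))) (.cons (.rf (nat_lit 2198) (nat_lit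 15070158839187488)) (.cons (.br (nat_lit 12) (nat_lit 0) (.cons (.br (nat_lit 7) (nat_lit 0) (.cons (.ev (nat_lit 20361947255898122590578693636353) (nat_lit 1)) .nil)) (.cons (.ev (nat_lit 20361948460101575721238694723584) (nat_lit 1)) .nil))) .nil)))) .nil))))) .nil))))),
 (.br (nat_lit 2) (nat_lit 0) (.cons (.rf (nat_lit 2232) (nat_lit 14242959524133701664)) (.cons (.rf (nat_lit 2236) (nat_lit 14242959524133701664)) (.cons (.rf (nat_lit 2239) (nat_lit 14242959524133701664)) (.cons (.rf (nat_lit 2240) (nat_lit 14242959524133701664)) (.cons (.br (nat_lit 2) (nat_lit 0) (.cons (.rf (nat_lit 2232) (nat_lit 14242959524133701664)) (.cons (.rf (nat_lit 2236) (nat_lit 14242959524133701664)) (.cons (.rf (nat_lit 2239) (nat_lit 14242959524133701664)) (.cons (.rf (nat_lit 2240) (nat_lit 14242959524133701664)) .nil))))) .nil)))))),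
 (.br (nat_lit 9) (nat_lit 0) (.cons (.br (nat_lit 9) (nat_lit 0) .nil) .nil)),
 (.br (nat_lit 2) (nat_lit 0) (.cons (.br (nat_lit 7) (nat_lit 0) (.cons (.ev (nat_lit 1213666704900266079027201) (nat_lit 1)) (.cons (.rf (nat_lit 2164) (nat_lit 8087764305952)) (.cons (.rf (nat_lit 2163) (nat_lit 15037168320939072)) .nil)))) (.cons (.br (nat_lit 10) (nat_lit 0) (.cons (.br (nat_lit 11) (nat_lit 0) (.cons (.ev (nat_lit 1245198335018267538671010310) (nat_lit 3)) (.cons (.rf (nat_lit 2173) (nat_lit 468812158895168)) .nil))) (.cons (.ev (nat_lit 310693954087704875415634176) (nat_lit 1)) (.cons (.br (nat_lit 7) (nat_lit 0) (.cons (.ev (nat_lit 79537647542532426740290093056) (nat_lit 1)) (.cons (.rf (nat_lit 2242) (nat_lit 470979911452704)) .nil))) (.cons (.br (nat_lit 7) (nat_lit 0) (.cons (.rf (nat_lit 2242) (nat_lit 469911636968512)) (.cons (.rf (nat_lit 2173) (nat_lit 465484601460768)) (.cons (.br (nat_lit 11) (nat_lit 0) (.cons (.rf (nat_lit 2173) (nat_lit 469745209018400)) (.cons (.br (nat_lit 12)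 (nat_lit 0) (.cons (.ev (nat_lit 20441795592635555088051638305025) (nat_lit 2)) .nil)) .nil))) .nil)))) .nil))))) (.cons (.br (nat_lit 7) (nat_lit 0) (.cons (.rf (nat_lit 2164) (nat_lit 8085683931168)) (.cons (.br (nat_lit 10) (nat_lit 0) (.cons (.ev (nat_lit 320009922858548133783243590660) (nat_lit 4)) (.cons (.rf (nat_lit 2163) (nat_lit 15031773911156768)) .nil))) (.cons (.rf (nat_lit 2163) (nat_lit 15034969364792384)) .nil)))) (.cons (.br (nat_lit 7) (nat_lit 0) (.cons (.rf (nat_lit 2198) (nat_lit 14896572434319392)) (.cons (.br (nat_lit 10) (nat_lit 0) (.cons (.rf (nat_lit 2196) (nat_lit 465517887457312)) (.cons (.rf (nat_lit 2175) (nat_lit 15031842563524640)) (.cons (.br (nat_lit 11) (nat_lit 0) (.cons (.rf (nat_lit 2196) (nat_lit 465449235089440)) (.cons (.br (nat_lit 12) (nat_lit 0) (.cons (.ev (nat_lit 203302576791550512161732493313536) (nat_lit 4)) .nil)) .nil))) .nil)))) (.cons (.rf (nat_lit 2198) (nat_lit 14894375558547488)) (.cons (.br (nat_lit 10) (nat_lit 0) (.cons (.br (nat_lit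 11) (nat_lit 0) (.cons (.rf (nat_lit 2187) (nat_lit 14684834072608)) (.cons (.br (nat_lit 12) (nat_lit 0) (.cons (.ev (nat_lit 121854151891792438216360003371520) (nat_lit 3)) .nil)) .nil))) (.cons (.rf (nat_lit 2174) (nat_lit 469745209018400)) (.cons (.br (nat_lit 11) (nat_lit 0) (.cons (.br (nat_lit 11) (nat_lit 0) (.cons (.ev (nat_lit 41677110755415213932605136177676) (nat_lit 4)) .nil)) (.cons (.rf (nat_lit 2241) (nat_lit 14208022404722295202)) .nil))) .nil)))) .nil))))) .nil))))),
 (.br (nat_lit 7) (nat_lit 0) (.cons (.br (nat_lit 13) (nat_lit 0) (.cons (.br (nat_lit 12) (nat_lit 0) (.cons (.ev (nat_lit 159082553344336598161126982658) (nat_lit 3)) .nil)) (.cons (.br (nat_lit 11) (nat_lit 0) (.cons (.ev (nat_lit 159082553344336598161126982658) (nat_lit 3)) .nil)) .nil))) (.cons (.rf (nat_lit 2233) (nat_lit 469914759563296)) .nil))),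
 (.br (nat_lit 13) (nat_lit 0) (.cons (.rf (nat_lit 2244) (nat_lit 493858305440582043680)) (.cons (.br (nat_lit 13) (nat_lit 0) (.cons (.rf (nat_lit 2244) (nat_lit 493858305440582043680)) .nil)) .nil))),
 (.br (nat_lit 2) (nat_lit 0) (.cons (.rf (nat_lit 2243) (nat_lit 14242959524133701664)) (.cons (.br (nat_lit 11) (nat_lit 0) (.cons (.br (nat_lit 7) (nat_lit 0) (.cons (.ev (nat_lit 79537647542532426740290093056) (nat_lit 1)) (.cons (.rf (nat_lit 2234) (nat_lit 15071358307435584)) .nil))) (.cons (.rf (nat_lit 2164) (nat_lit 12348371863584)) (.cons (.rf (nat_lit 2163) (nat_lit 14896566124053568)) .nil)))) (.cons (.zr (nat_lit 237684487542793013884438446848) (nat_lit 2417870085973332092518402) (nat_lit 5) (nat_lit 12)) (.cons (.br (nat_lit 13) (nat_lit 0) (.cons (.rf (nat_lit 2244) (nat_lit 493858305440582043680)) (.cons (.rf (nat_lit 2245) (nat_lit 493858305440582043680)) (.cons (.br (nat_lit 13) (nat_lit 0) (.cons (.rf (nat_lit 2244) (nat_lit 493858305440582043680)) (.cons (.rf (nat_lit 2245)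 (nat_lit 493858305440582043680)) .nil))) .nil)))) .nil))))),
 (.br (nat_lit 2) (nat_lit 0) (.cons (.rf (nat_lit 2243) (nat_lit 14242959524133701664)) (.cons (.rf (nat_lit 2246) (nat_lit 14242959524133701664)) (.cons (.br (nat_lit 10) (nat_lit 0) (.cons (.br (nat_lit 7) (nat_lit 0) (.cons (.ev (nat_lit 2422592742663504158523910) (nat_lit 3)) (.cons (.rf (nat_lit 2234) (nat_lit 15035140997744672)) .nil))) (.cons (.ev (nat_lit 310693954087704875415634176) (nat_lit 1)) (.cons (.rf (nat_lit 2163) (nat_lit 14895432321828896)) .nil)))) (.cons (.br (nat_lit 10) (nat_lit 0) (.cons (.br (nat_lit 7) (nat_lit 0) (.cons (.rf (nat_lit 2196) (nat_lit 469911639001120)) (.cons (.ev (nat_lit 316919908353078467996919268870) (nat_lit 3)) (.cons (.br (nat_lit 12) (nat_lit 0) (.cons (.ev (nat_lit 318153012688797163794261345798) (nat_lit 3)) (.cons (.ev (nat_lit 79228162532856041284588077571) (nat_lit 2)) .nil))) .nil)))) (.cons (.ev (nat_lit 310693954087704875415634176) (nat_lit 1)) (.cons (.rf (nat_lit 2175) (nat_lit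 14895500974196768)) (.cons (.br (nat_lit 11) (nat_lit 0) (.cons (.br (nat_lit 13) (nat_lit 0) (.cons (.ev (nat_lit 1213666704900266079027201) (nat_lit 1)) (.cons (.ev (nat_lit 79849564589539758894674412035) (nat_lit 2)) .nil))) (.cons (.rf (nat_lit 2198) (nat_lit 15034975540840480)) (.cons (.rf (nat_lit 2231) (nat_lit 13951351549195551138)) .nil)))) .nil))))) .nil))))),
 (.br (nat_lit 7) (nat_lit 0) (.cons (.ev (nat_lit 2422592742663504158523910) (nat_lit 3)) (.cons (.br (nat_lit 13) (nat_lit 0) (.cons (.ev (nat_lit 1208925891954801995939841) (nat_lit 1)) (.cons (.br (nat_lit 10) (nat_lit 0) (.cons (.ev (nat_lit 1213666704900266079027201) (nat_lit 1)) .nil)) .nil))) .nil))),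
 (.br (nat_lit 7) (nat_lit 0) (.cons (.br (nat_lit 7) (nat_lit 0) (.cons (.ev (nat_lit 1208925891954801995939841) (nat_lit 1)) .nil)) (.cons (.rf (nat_lit 2248) (nat_lit 493858305440582043680)) .nil))),
 (.br (nat_lit 2) (nat_lit 0) (.cons (.rf (nat_lit 2243) (nat_lit 14242959524133701664)) (.cons (.zr (nat_lit 237684487542793013884438446848) (nat_lit 2417870085973332092518402) (nat_lit 5) (nat_lit 12)) (.cons (.rf (nat_lit 2247) (nat_lit 14242959524133701664)) (.cons (.br (nat_lit 13) (nat_lit 0) (.cons (.rf (nat_lit 2248) (nat_lit 493858305440582043680)) (.cons (.rf (nat_lit 2249) (nat_lit 493858305440582043680)) (.cons (.br (nat_lit 13) (nat_lit 0) (.cons (.rf (nat_lit 2248) (nat_lit 493858305440582043680)) (.cons (.rf (nat_lit 2249) (nat_lit 493858305440582043680)) .nil))) .nil)))) .nil))))),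
 (.br (nat_lit 12) (nat_lit 0) (.cons (.br (nat_lit 12) (nat_lit 0) (.cons (.ev (nat_lit 40565128692331825956451627565825) (nat_lit 2)) .nil)) (.cons (.br (nat_lit 11) (nat_lit 0) (.cons (.ev (nat_lit 40565128692331825956451627565825) (nat_lit 2)) .nil)) .nil))),
 (.br (nat_lit 7) (nat_lit 0) .nil),
 (.br (nat_lit 10) (nat_lit 0) (.cons (.rf (nat_lit 2251) (nat_lit 493858305440582043680)) (.cons (.kr (nat_lit 158456325028528675191382867968) (nat_lit 4740813508418331475968) (nat_lit 4) (nat_lit 0)) (.cons (.rf (nat_lit 2252) (nat_lit 470979911452704)) .nil)))),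
 (.br (nat_lit 12) (nat_lit 0) (.cons (.br (nat_lit 11) (nat_lit 0) (.cons (.ev (nat_lit 79538856449905298395250032896) (nat_lit 1)) .nil)) (.cons (.br (nat_lit 2) (nat_lit 0) (.cons (.ev (nat_lit 79538856449905298395250032896) (nat_lit 1)) .nil)) .nil))),
 (.br (nat_lit 2) (nat_lit 0) (.cons (.ev (nat_lit 79538861172271780161088651264) (nat_lit 1)) .nil)),
 (.br (nat_lit 11) (nat_lit 0) (.cons (.br (nat_lit 9) (nat_lit 0) (.cons (.ev (nat_lit 79538861172271780161088651264) (nat_lit 1)) .nil)) (.cons (.rf (nat_lit 2255) (nat_lit 14242959524133701664)) .nil))),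
 (.br (nat_lit 9) (nat_lit 0) (.cons (.ev (nat_lit 79538861172271780161088651264) (nat_lit 1)) .nil)),
 (.br (nat_lit 7) (nat_lit 0) (.cons (.br (nat_lit 11) (nat_lit 0) (.cons (.rf (nat_lit 2251) (nat_lit 493858305440582043680)) (.cons (.rf (nat_lit 2253) (nat_lit 493858305440582043680)) (.cons (.br (nat_lit 12) (nat_lit 0) (.cons (.rf (nat_lit 2253) (nat_lit 51101510552141398434)) (.cons (.rf (nat_lit 2253) (nat_lit 493858305440582043680)) .nil))) .nil)))) (.cons (.br (nat_lit 13) (nat_lit 0) (.cons (.rf (nat_lit 2254) (nat_lit 493858305440582043680)) (.cons (.ev (nat_lit 20282409608374109246985439543296) (nat_lit 1)) .nil))) (.cons (.br (nat_lit 13) (nat_lit 0) (.cons (.ev (nat_lit 1208925891954801995939841) (nat_lit 1)) (.cons (.rf (nat_lit 2256) (nat_lit 15433072045018155040)) (.cons (.br (nat_lit 2) (nat_lit 0) (.cons (.br (nat_lit 11) (nat_lit 0) (.cons (.ev (nat_lit 79538856449905298395250032896) (nat_lit 1)) .nil)) (.cons (.ev (nat_lit 40566676122177015209261342393350) (nat_lit 3)) (.cons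 (.rf (nat_lit 2257) (nat_lit 15433072045018155040)) .nil)))) .nil)))) (.cons (.ev (nat_lit 18518801667764257024) (nat_lit 1)) .nil))))),
 (.br (nat_lit 2) (nat_lit 0) (.cons (.ev (nat_lit 121694460044502764079114505946118) (nat_lit 3)) (.cons (.br (nat_lit 7) (nat_lit 0) (.cons (.ev (nat_lit 20521023755205159939336992588034) (nat_lit 2)) .nil)) (.cons (.rf (nat_lit 2252) (nat_lit 469743128643616)) .nil)))),
 (.br (nat_lit 13) (nat_lit 0) (.cons (.rf (nat_lit 2258) (nat_lit 493858305440582043680)) (.cons (.br (nat_lit 2) (nat_lit 0) (.cons (.br (nat_lit 12) (nat_lit 0) (.cons (.br (nat_lit 11) (nat_lit 0) (.cons (.ev (nat_lit 40644979451679940920649711747584) (nat_lit 2)) .nil)) (.cons (.br (nat_lit 7) (nat_lit 0) (.cons (.ev (nat_lit 40644979451679940920649711747584) (nat_lit 2)) .nil)) .nil))) (.cons (.rf (nat_lit 2231) (nat_lit 13951351549195551138)) (.cons (.br (nat_lit 12) (nat_lit 0) (.cons (.kr (nat_lit 316912650057058194799105933824) (nat_lit 40564819212081047565188594663424) (nat_lit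 1) (nat_lit 0)) (.cons (.kr (nat_lit 316912650057057631853447479808) (nat_lit 40564819221488887042776171020288) (nat_lit 1) (nat_lit 0)) .nil))) .nil)))) (.cons (.br (nat_lit 7) (nat_lit 0) (.cons (.br (nat_lit 7) (nat_lit 0) (.cons (.ev (nat_lit 121694460044502764079114505946118) (nat_lit 3)) (.cons (.ev (nat_lit 121694464880279830635410656329730) (nat_lit 3)) .nil))) (.cons (.rf (nat_lit 2259) (nat_lit 493858305440582043680)) (.cons (.br (nat_lit 7) (nat_lit 0) (.cons (.ev (nat_lit 121694464880279830635410656329730) (nat_lit 3)) (.cons (.rf (nat_lit 2259) (nat_lit 493858305440582043680)) .nil))) .nil)))) .nil)))),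
 (.br (nat_lit 7) (nat_lit 0) (.cons (.br (nat_lit 11) (nat_lit 0) (.cons (.ev (nat_lit 40723585017397248119786134569729) (nat_lit 2)) .nil)) (.cons (.br (nat_lit 10) (nat_lit 0) (.cons (.ev (nat_lit 122174161809725993613776012968460) (nat_lit 4)) .nil)) (.cons (.br (nat_lit 10) (nat_lit 0) (.cons (.ev (nat_lit 158765810093907269684018807041) (nat_lit 2)) .nil)) .nil)))),
 (.br (nat_lit 2) (nat_lit 0) (.cons (.rf (nat_lit 2261) (nat_lit 493858305440582043680)) (.cons (.ev (nat_lit 20282720297605758127718860324864) (nat_lit 1)) (.cons (.ev (nat_lit 79537647542532708210971770881) (nat_lit 1)) .nil)))),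
 (.br (nat_lit 13) (nat_lit 0) (.cons (.rf (nat_lit 2258) (nat_lit 493858305440582043680)) (.cons (.rf (nat_lit 2260) (nat_lit 493858305440582043680)) (.cons (.br (nat_lit 7) (nat_lit 0) (.cons (.rf (nat_lit 2261) (nat_lit 493858305440582043680)) (.cons (.br (nat_lit 2) (nat_lit 0) (.cons (.rf (nat_lit 2261) (nat_lit 493858305440582043680)) (.cons (.ev (nat_lit 20282720302309678147994067664896) (nat_lit 1)) (.cons (.br (nat_lit 7) (nat_lit 0) (.cons (.ev (nat_lit 79537647542532708210971770881) (nat_lit 1)) .nil)) .nil)))) (.cons (.rf (nat_lit 2262) (nat_lit 493858305440582043680)) (.cons (.br (nat_lit 7) (nat_lit 0) (.cons (.rf (nat_lit 2261) (nat_lit 493858305440582043680)) (.cons (.ev (nat_lit 79228162514336395187598655744) (nat_lit 1)) (.cons (.rf (nat_lit 2262) (nat_lit 493858305440582043680)) .nil)))) .nil))))) .nil)))),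
 (.br (nat_lit 13) (nat_lit 0) (.cons (.rf (nat_lit 2258) (nat_lit 493858305440582043680)) (.cons (.rf (nat_lit 2260) (nat_lit 493858305440582043680)) (.cons (.rf (nat_lit 2263) (nat_lit 493858305440582043680)) (.cons (.br (nat_lit 13) (nat_lit 0) (.cons (.rf (nat_lit 2258) (nat_lit 493858305440582043680)) (.cons (.rf (nat_lit 2260) (nat_lit 493858305440582043680)) (.cons (.rf (nat_lit 2263) (nat_lit 493858305440582043680)) .nil)))) .nil)))))]

theorem c81 : chkAll C T R L81 (nat_lit 2236) = true := by decide +kernel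

theorem l81 : (nat_lit 2236) + L81.length = (nat_lit 2265) := by decide +kernel

/-- part of the certificates -/
def L82 : List Prf := [(.br (nat_lit 7) (nat_lit 0) (.cons (.br (nat_lit 13) (nat_lit 0) (.cons (.rf (nat_lit 2264) (nat_lit 493858305440582043680)) (.cons (.ev (nat_lit 20282410817318375323118113652993) (nat_lit 1)) (.cons (.ev (nat_lit 20282409608374109246985439543296) (nat_lit 1)) .nil)))) (.cons (.ev (nat_lit 1208925891954801995939841) (nat_lit 1)) (.cons (.ev (nat_lit 18518801667764257024) (nat_lit 1)) .nil)))),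
 (.br (nat_lit 11) (nat_lit 0) (.cons (.ev (nat_lit 20283341685458665362834027840256) (nat_lit 2)) .nil)),
 (.br (nat_lit 13) (nat_lit 0) (.cons (.rf (nat_lit 2264) (nat_lit 493858305440582043680)) (.cons (.rf (nat_lit 2265) (nat_lit 493858305440582043680)) (.cons (.br (nat_lit 7) (nat_lit 0) (.cons (.br (nat_lit 2) (nat_lit 0) (.cons (.rf (nat_lit 2266) (nat_lit 493858305440582043680)) (.cons (.br (nat_lit 10) (nat_lit 0) (.cons (.ev (nat_lit 159701523474227407168016220678) (nat_lit 3)) .nil)) (.cons (.br (nat_lit 10) (nat_lit 0) (.cons (.zr (nat_lit 237688114320252138147478110208) (nat_lit 309499213886343817163964672) (nat_lit 5) (nat_lit 1)) .nil)) .nil)))) (.cons (.br (nat_lit 11) (nat_lit 0) (.cons (.br (nat_lit 2) (nat_lit 0) (.cons (.ev (nat_lit 317538878483544048932021863428) (nat_lit 3)) .nil)) (.cons (.ev (nat_lit 79229371458603036469249441793) (nat_lit 1)) .nil))) (.cons (.br (nat_lit 12) (nat_lit 0) (.cons (.ev (nat_lit 79537647542532708210971770881) (nat_lit 1)) (.cons (.ev (nat_lit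 20362566221232365188017196892675) (nat_lit 2)) .nil))) (.cons (.ev (nat_lit 18518801667764257024) (nat_lit 1)) .nil))))) .nil)))),
 (.br (nat_lit 13) (nat_lit 0) (.cons (.rf (nat_lit 2264) (nat_lit 493858305440582043680)) (.cons (.rf (nat_lit 2265) (nat_lit 493858305440582043680)) (.cons (.rf (nat_lit 2267) (nat_lit 493858305440582043680)) (.cons (.br (nat_lit 13) (nat_lit 0) (.cons (.rf (nat_lit 2264) (nat_lit 493858305440582043680)) (.cons (.rf (nat_lit 2265) (nat_lit 493858305440582043680)) (.cons (.rf (nat_lit 2267) (nat_lit 493858305440582043680)) .nil)))) .nil))))),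
 (.br (nat_lit 13) (nat_lit 0) (.cons (.rf (nat_lit 2264) (nat_lit 493858305440582043680)) (.cons (.rf (nat_lit 2268) (nat_lit 493858305440582043680)) (.cons (.br (nat_lit 12) (nat_lit 0) (.cons (.zr (nat_lit 40564821625154980077152885538818) (nat_lit 79228167236631103037677503232) (nat_lit 5) (nat_lit 1)) (.cons (.br (nat_lit 11) (nat_lit 0) (.cons (.ev (nat_lit 79537652246452165536225689601) (nat_lit 1)) (.cons (.ev (nat_lit 20361948464842389229661321166848) (nat_lit 1)) .nil))) (.cons (.ev (nat_lit 20361947251194203133262029652225) (nat_lit 1)) .nil)))) .nil)))),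
 (.br (nat_lit 13) (nat_lit 0) (.cons (.rf (nat_lit 2264) (nat_lit 493858305440582043680)) (.cons (.rf (nat_lit 2268) (nat_lit 493858305440582043680)) (.cons (.rf (nat_lit 2269) (nat_lit 493858305440582043680)) (.cons (.br (nat_lit 13) (nat_lit 0) (.cons (.rf (nat_lit 2264) (nat_lit 493858305440582043680)) (.cons (.rf (nat_lit 2268) (nat_lit 493858305440582043680)) (.cons (.rf (nat_lit 2269) (nat_lit 493858305440582043680)) .nil)))) .nil))))),
 (.br (nat_lit 13) (nat_lit 0) (.cons (.rf (nat_lit 2264) (nat_lit 493858305440582043680)) (.cons (.rf (nat_lit 2268) (nat_lit 493858305440582043680)) (.cons (.rf (nat_lit 2270) (nat_lit 493858305440582043680)) (.cons (.br (nat_lit 13) (nat_lit 0) (.cons (.rf (nat_lit 2264) (nat_lit 493858305440582043680)) (.cons (.rf (nat_lit 2268) (nat_lit 493858305440582043680)) (.cons (.rf (nat_lit 2270) (nat_lit 493858305440582043680)) .nil)))) .nil))))),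
 (.br (nat_lit 1) (nat_lit 0) (.cons (.rf (nat_lit 2161) (nat_lit 14242959524133701664)) (.cons (.rf (nat_lit 2231) (nat_lit 14242959524133701664)) (.cons (.rf (nat_lit 2241) (nat_lit 14242959524133701664)) (.cons (.br (nat_lit 2) (nat_lit 0) (.cons (.rf (nat_lit 2243) (nat_lit 14242959524133701664)) (.cons (.rf (nat_lit 2246) (nat_lit 14242959524133701664)) (.cons (.rf (nat_lit 2247) (nat_lit 14242959524133701664)) (.cons (.rf (nat_lit 2250) (nat_lit 14242959524133701664)) (.cons (.br (nat_lit 2) (nat_lit 0) (.cons (.rf (nat_lit 2243) (nat_lit 14242959524133701664)) (.cons (.rf (nat_lit 2246) (nat_lit 14242959524133701664)) (.cons (.rf (nat_lit 2247) (nat_lit 14242959524133701664)) (.cons (.rf (nat_lit 2250) (nat_lit 14242959524133701664)) .nil))))) .nil)))))) (.cons (.br (nat_lit 13) (nat_lit 0) (.cons (.rf (nat_lit 2264) (nat_lit 493858305440582043680)) (.cons (.rf (nat_lit 2268) (nat_lit 493858305440582043680)) (.cons (.rf (nat_lit 2270) (nat_lit 493858305440582043680)) (.cons (.rf (nat_lit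 2271) (nat_lit 493858305440582043680)) (.cons (.br (nat_lit 13) (nat_lit 0) (.cons (.rf (nat_lit 2264) (nat_lit 493858305440582043680)) (.cons (.rf (nat_lit 2268) (nat_lit 493858305440582043680)) (.cons (.rf (nat_lit 2270) (nat_lit 493858305440582043680)) (.cons (.rf (nat_lit 2271) (nat_lit 493858305440582043680)) .nil))))) .nil)))))) .nil)))))),
 (.br (nat_lit 2) (nat_lit 0) (.cons (.br (nat_lit 12) (nat_lit 0) (.cons (.br (nat_lit 10) (nat_lit 0) (.cons (.ev (nat_lit 79538861190718525338604863745) (nat_lit 1)) (.cons (.rf (nat_lit 2173) (nat_lit 470976788857920)) .nil))) (.cons (.kr (nat_lit 55340513696105365506) (nat_lit 158456329750895158061028212736) (nat_lit 0) (nat_lit 1)) (.cons (.br (nat_lit 7) (nat_lit 0) (.cons (.ev (nat_lit 79229371458603036469249441793) (nat_lit 1)) (.cons (.rf (nat_lit 2242) (nat_lit 470946625456160)) .nil))) (.cons (.rf (nat_lit 2206) (nat_lit 15361081521087874112)) .nil))))) (.cons (.ev (nat_lit 309485009821345073036591104) (nat_lit 1)) (.cons (.br (nat_lit 7)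 (nat_lit 0) (.cons (.br (nat_lit 10) (nat_lit 0) (.cons (.ev (nat_lit 79229371458603036469249441793) (nat_lit 1)) (.cons (.rf (nat_lit 2234) (nat_lit 15031842561492032)) .nil))) (.cons (.ev (nat_lit 79537652246452165536225689601) (nat_lit 1)) (.cons (.rf (nat_lit 2163) (nat_lit 15000884504331328)) .nil)))) (.cons (.br (nat_lit 7) (nat_lit 0) (.cons (.br (nat_lit 10) (nat_lit 0) (.cons (.rf (nat_lit 2196) (nat_lit 465516847269920)) (.cons (.rf (nat_lit 2196) (nat_lit 465482521085984)) (.cons (.br (nat_lit 11) (nat_lit 0) (.cons (.rf (nat_lit 2175) (nat_lit 14996658224990240)) (.cons (.br (nat_lit 12) (nat_lit 0) (.cons (.ev (nat_lit 40882969802177391140288437028358) (nat_lit 3)) .nil)) .nil))) .nil)))) (.cons (.rf (nat_lit 2198) (nat_lit 14896539148322848)) (.cons (.rf (nat_lit 2198) (nat_lit 14895440710436896)) (.cons (.br (nat_lit 11) (nat_lit 0) (.cons (.br (nat_lit 10) (nat_lit 0) (.cons (.rf (nat_lit 2187) (nat_lit 14650507888672)) (.cons (.br (nat_lit 12) (nat_lit 0) (.cons (.ev (nat_lit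 40724513477185756516190131586560) (nat_lit 3)) .nil)) .nil))) (.cons (.rf (nat_lit 2174) (nat_lit 468645730945056)) (.cons (.rf (nat_lit 2272) (nat_lit 14208022404722295202)) .nil)))) .nil))))) .nil))))),
 (.br (nat_lit 11) (nat_lit 0) (.cons (.ev (nat_lit 79537652246452165536225689601) (nat_lit 1)) (.cons (.rf (nat_lit 2164) (nat_lit 11247853602848)) (.cons (.rf (nat_lit 2163) (nat_lit 14894367169939488)) .nil)))),
 (.br (nat_lit 2) (nat_lit 0) (.cons (.rf (nat_lit 2273) (nat_lit 14242959524133701664)) (.cons (.br (nat_lit 12) (nat_lit 0) (.cons (.ev (nat_lit 79537647542532708210971770881) (nat_lit 1)) (.cons (.kr (nat_lit 18447025548686262273) (nat_lit 79228162514264337597838983168) (nat_lit 0) (nat_lit 1)) (.cons (.rf (nat_lit 2163) (nat_lit 14894401496123424)) .nil)))) (.cons (.rf (nat_lit 2274) (nat_lit 14242959524133701664)) (.cons (.br (nat_lit 10) (nat_lit 0) (.cons (.br (nat_lit 7) (nat_lit 0) (.cons (.ev (nat_lit 18518801667764257024) (nat_lit 1)) (.cons (.rf (nat_lit 2196) (nat_lit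 468777834743840)) (.cons (.br (nat_lit 11) (nat_lit 0) (.cons (.rf (nat_lit 2175) (nat_lit 14894401496123424)) (.cons (.br (nat_lit 12) (nat_lit 0) (.cons (.ev (nat_lit 317538878483544048932021863428) (nat_lit 3)) .nil)) .nil))) .nil)))) (.cons (.rf (nat_lit 2198) (nat_lit 15001989118265376)) (.cons (.rf (nat_lit 2198) (nat_lit 15000890680379424)) (.cons (.br (nat_lit 11) (nat_lit 0) (.cons (.br (nat_lit 7) (nat_lit 0) (.cons (.rf (nat_lit 2187) (nat_lit 14547428673568)) (.cons (.br (nat_lit 12) (nat_lit 0) (.cons (.ev (nat_lit 160315657680054168041382085638) (nat_lit 3)) .nil)) .nil))) (.cons (.rf (nat_lit 2174) (nat_lit 465450275276832)) (.cons (.ev (nat_lit 310693954087704875415634176) (nat_lit 1)) .nil)))) .nil))))) .nil))))),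
 (.br (nat_lit 8) (nat_lit 0) (.cons (.br (nat_lit 8) (nat_lit 0) .nil) .nil)),
 (.br (nat_lit 7) (nat_lit 0) (.cons (.ev (nat_lit 309489750634853487073099776) (nat_lit 1)) (.cons (.ev (nat_lit 79537647542532708210971770881) (nat_lit 1)) (.cons (.br (nat_lit 2) (nat_lit 0) (.cons (.rf (nat_lit 2234) (nat_lit 15070293155546176)) (.cons (.rf (nat_lit 2276) (nat_lit 14718019405856)) (.cons (.br (nat_lit 13) (nat_lit 0) (.cons (.br (nat_lit 12) (nat_lit 0) (.cons (.ev (nat_lit 20521023764612998853970320556290) (nat_lit 2)) .nil)) (.cons (.br (nat_lit 10) (nat_lit 0) (.cons (.ev (nat_lit 20521023764612998853970320556290) (nat_lit 2)) .nil)) .nil))) .nil)))) .nil)))),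
 (.br (nat_lit 7) (nat_lit 0) (.cons (.ev (nat_lit 309489750634853487073099776) (nat_lit 1)) (.cons (.rf (nat_lit 2277) (nat_lit 14242959524133701664)) (.cons (.ev (nat_lit 79537647542532708210971770881) (nat_lit 1)) (.cons (.br (nat_lit 7) (nat_lit 0) (.cons (.ev (nat_lit 309489750634853487073099776) (nat_lit 1)) (.cons (.rf (nat_lit 2277) (nat_lit 14242959524133701664)) (.cons (.ev (nat_lit 79537647542532708210971770881) (nat_lit 1)) .nil)))) .nil))))),
 (.br (nat_lit 7) (nat_lit 0) (.cons (.ev (nat_lit 18518801667764257024) (nat_lit 1)) (.cons (.br (nat_lit 13) (nat_lit 0) (.cons (.br (nat_lit 11) (nat_lit 0) (.cons (.ev (nat_lit 475992785660435185918200251906) (nat_lit 3)) .nil)) (.cons (.br (nat_lit 10) (nat_lit 0) (.cons (.ev (nat_lit 475992785660435185918200251906) (nat_lit 3)) .nil)) .nil))) .nil))),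
 (.br (nat_lit 2) (nat_lit 0) (.cons (.rf (nat_lit 2273) (nat_lit 14242959524133701664)) (.cons (.rf (nat_lit 2274) (nat_lit 14242959524133701664)) (.cons (.rf (nat_lit 2278) (nat_lit 14242959524133701664)) (.cons (.br (nat_lit 7) (nat_lit 0) (.cons (.rf (nat_lit 2279) (nat_lit 493858305440582043680)) (.cons (.ev (nat_lit 79537652246452165536225689601) (nat_lit 1)) (.cons (.br (nat_lit 7) (nat_lit 0) (.cons (.rf (nat_lit 2279) (nat_lit 493858305440582043680)) (.cons (.ev (nat_lit 79537652246452165536225689601) (nat_lit 1)) .nil))) .nil)))) .nil))))),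
 (.br (nat_lit 11) (nat_lit 0) (.cons (.ev (nat_lit 20282720302309677867618602582016) (nat_lit 1)) (.cons (.ev (nat_lit 310698658007725142033039616) (nat_lit 1)) (.cons (.kr (nat_lit 158456325028528675191382867968) (nat_lit 4740813508418331475968) (nat_lit 4) (nat_lit 0)) .nil)))),
 (.br (nat_lit 13) (nat_lit 0) (.cons (.br (nat_lit 7) (nat_lit 0) (.cons (.br (nat_lit 12) (nat_lit 0) (.cons (.rf (nat_lit 2281) (nat_lit 493858305440582043680)) (.cons (.rf (nat_lit 2281) (nat_lit 51101510552141398434)) .nil))) (.cons (.rf (nat_lit 2256) (nat_lit 15431980264331511840)) (.cons (.rf (nat_lit 2254) (nat_lit 493823368458609461280)) (.cons (.ev (nat_lit 20282409608374109246985439543296) (nat_lit 1)) .nil))))) (.cons (.br (nat_lit 2) (nat_lit 0) (.cons (.rf (nat_lit 2272) (nat_lit 14208022404722295202)) (.cons (.ev (nat_lit 20283028573671313678147084485376) (nat_lit 2)) (.cons (.br (nat_lit 10) (nat_lit 0) (.cons (.rf (nat_lit 2257) (nat_lit 15395984452726457408)) (.cons (.rf (nat_lit 2257) (nat_lit 2497499031647125921))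 .nil))) .nil)))) (.cons (.br (nat_lit 7) (nat_lit 0) (.cons (.br (nat_lit 11) (nat_lit 0) (.cons (.br (nat_lit 10) (nat_lit 0) (.cons (.ev (nat_lit 41043283037338780666237895183360) (nat_lit 4)) .nil)) (.cons (.ev (nat_lit 81289951654471990683444583989760) (nat_lit 3)) .nil))) (.cons (.ev (nat_lit 20282409608374109246985439543296) (nat_lit 1)) (.cons (.br (nat_lit 2) (nat_lit 0) (.cons (.br (nat_lit 10) (nat_lit 0) (.cons (.ev (nat_lit 79538856449905298395250032896) (nat_lit 1)) .nil)) (.cons (.ev (nat_lit 81289951654471990683444583989760) (nat_lit 3)) .nil))) (.cons (.rf (nat_lit 2256) (nat_lit 15362174367128717344)) .nil))))) .nil)))),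
 (.br (nat_lit 7) (nat_lit 0) (.cons (.br (nat_lit 7) (nat_lit 0) (.cons (.ev (nat_lit 4722438541563194834944) (nat_lit 1)) .nil)) (.cons (.rf (nat_lit 2257) (nat_lit 2494189569293222273)) .nil))),
 (.br (nat_lit 13) (nat_lit 0) (.cons (.rf (nat_lit 2282) (nat_lit 493858305440582043680)) (.cons (.br (nat_lit 2) (nat_lit 0) (.cons (.br (nat_lit 7) (nat_lit 0) (.cons (.ev (nat_lit 81130259807329891061730126332928) (nat_lit 3)) (.cons (.br (nat_lit 10) (nat_lit 0) (.cons (.ev (nat_lit 121696316954820668831366275140096) (nat_lit 4)) .nil)) .nil))) (.cons (.rf (nat_lit 2231) (nat_lit 14090929087143281058)) (.cons (.rf (nat_lit 2283) (nat_lit 15433070910038444064)) .nil)))) (.cons (.br (nat_lit 2) (nat_lit 0) (.cons (.br (nat_lit 10) (nat_lit 0) (.cons (.br (nat_lit 11) (nat_lit 0) (.cons (.ev (nat_lit 41040195440795627894769837278208) (nat_lit 3)) .nil)) (.cons (.br (nat_lit 7) (nat_lit 0) (.cons (.ev (nat_lit 40723277955035292081480982986752) (nat_lit 3)) .nil)) (.cons (.kr (nat_lit 158456325046975421464115675648)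 (nat_lit 2422574005993603005022208) (nat_lit 1) (nat_lit 0)) .nil)))) (.cons (.rf (nat_lit 2283) (nat_lit 15395986585010996288)) (.cons (.br (nat_lit 10) (nat_lit 0) (.cons (.br (nat_lit 7) (nat_lit 0) (.cons (.ev (nat_lit 20362567430139737213043942097152) (nat_lit 2)) .nil)) (.cons (.ev (nat_lit 310693954087704875415634176) (nat_lit 1)) .nil))) (.cons (.br (nat_lit 7) (nat_lit 0) (.cons (.br (nat_lit 7) (nat_lit 0) (.cons (.ev (nat_lit 20361947251194202851782758039808) (nat_lit 1)) .nil)) (.cons (.ev (nat_lit 20361947255898122872057965379840) (nat_lit 1)) .nil))) .nil))))) .nil)))),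
 (.br (nat_lit 13) (nat_lit 0) (.cons (.rf (nat_lit 2282) (nat_lit 493858305440582043680)) (.cons (.rf (nat_lit 2284) (nat_lit 493858305440582043680)) (.cons (.br (nat_lit 2) (nat_lit 0) (.cons (.br (nat_lit 10) (nat_lit 0) (.cons (.br (nat_lit 10) (nat_lit 0) (.cons (.zr (nat_lit 92233726965617526272) (nat_lit 40723894507074023092764622716930) (nat_lit 10) (nat_lit 0)) .nil)) (.cons (.br (nat_lit 7) (nat_lit 0) (.cons (.zr (nat_lit 92233726965617526272) (nat_lit 40723894507074023092764622716930) (nat_lit 10) (nat_lit 0)) .nil)) .nil))) (.cons (.br (nat_lit 10) (nat_lit 0) (.cons (.ev (nat_lit 20282720297605758127718860324864) (nat_lit 1)) (.cons (.ev (nat_lit 310693954087704875415634176) (nat_lit 1)) .nil))) (.cons (.zr (nat_lit 237684487542793294259903595008) (nat_lit 20282409613114850135959274520577) (nat_lit 5) (nat_lit 13)) .nil)))) .nil)))),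
 (.br (nat_lit 13) (nat_lit 0) (.cons (.rf (nat_lit 2282) (nat_lit 493858305440582043680)) (.cons (.rf (nat_lit 2284) (nat_lit 493858305440582043680)) (.cons (.rf (nat_lit 2285) (nat_lit 493858305440582043680)) (.cons (.br (nat_lit 13) (nat_lit 0) (.cons (.rf (nat_lit 2282) (nat_lit 493858305440582043680)) (.cons (.rf (nat_lit 2284) (nat_lit 493858305440582043680)) (.cons (.rf (nat_lit 2285) (nat_lit 493858305440582043680)) .nil)))) .nil))))),
 (.br (nat_lit 9) (nat_lit 0) (.cons (.ev (nat_lit 79228167236702878061522125056) (nat_lit 1)) .nil)),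
 (.br (nat_lit 7) (nat_lit 0) (.cons (.ev (nat_lit 40565132333313276890462946328576) (nat_lit 2)) (.cons (.ev (nat_lit 20282409608374109246985439543296) (nat_lit 1)) (.cons (.ev (nat_lit 20283339267643919619524107698432) (nat_lit 2)) .nil)))),
 (.br (nat_lit 7) (nat_lit 0) (.cons (.ev (nat_lit 79229371440083953322247127296) (nat_lit 1)) .nil)),
 (.br (nat_lit 10) (nat_lit 0) (.cons (.ev (nat_lit 20282720302309677867618602582016) (nat_lit 1)) (.cons (.rf (nat_lit 2288) (nat_lit 493858305440582043680)) (.cons (.ev (nat_lit 81130264642959382548349966090240) (nat_lit 3)) (.cons (.ev (nat_lit 310693954087704875415634176) (nat_lit 1)) .nil))))),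
 (.br (nat_lit 13) (nat_lit 0) (.cons (.rf (nat_lit 2286) (nat_lit 493858305440582043680)) (.cons (.br (nat_lit 7) (nat_lit 0) (.cons (.br (nat_lit 2) (nat_lit 0) (.cons (.ev (nat_lit 1213666705181745350770688) (nat_lit 1)) (.cons (.rf (nat_lit 2287) (nat_lit 15433070910038444064)) .nil))) (.cons (.rf (nat_lit 2174) (nat_lit 83745658208673)) (.cons (.br (nat_lit 12) (nat_lit 0) (.cons (.kr (nat_lit 79228162514264619068520661248) (nat_lit 20282409608374036907916408127488) (nat_lit 1) (nat_lit 0)) (.cons (.kr (nat_lit 18446744073709551616) (nat_lit 79228162514264337593543950336) (nat_lit 8) (nat_lit 0)) .nil))) .nil)))) (.cons (.br (nat_lit 2) (nat_lit 0) (.cons (.ev (nat_lit 20282409608374109246985439543296) (nat_lit 1)) (.cons (.br (nat_lit 2) (nat_lit 0) (.cons (.ev (nat_lit 1213666705181745350770688) (nat_lit 1)) (.cons (.rf (nat_lit 2290) (nat_lit 493858305440582043680)) (.cons (.rf (nat_lit 2289) (nat_lit 15433072009550071840)) .nil)))) (.cons (.rf (nat_lit 2290) (nat_lit 493858305440582043680))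 (.cons (.br (nat_lit 2) (nat_lit 0) (.cons (.ev (nat_lit 20282409603670189226718822137856) (nat_lit 1)) (.cons (.rf (nat_lit 2289) (nat_lit 15433072009550071840)) (.cons (.rf (nat_lit 2290) (nat_lit 493858305440582043680)) .nil)))) .nil))))) .nil))))]

theorem c82 : chkAll C T R L82 (nat_lit 2265) = true := by decide +kernel

theorem l82 : (nat_lit 2265) + L82.length = (nat_lit 2292) := by decide +kernel

/-- part of the certificates -/
def L83 : List Prf := [(.br (nat_lit 13) (nat_lit 0) (.cons (.rf (nat_lit 2286) (nat_lit 493858305440582043680)) (.cons (.rf (nat_lit 2291) (nat_lit 493858305440582043680)) (.cons (.br (nat_lit 7) (nat_lit 0) (.cons (.br (nat_lit 10) (nat_lit 0) (.cons (.br (nat_lit 10) (nat_lit 0) (.cons (.ev (nat_lit 310693954087704875415634176) (nat_lit 1)) .nil)) (.cons (.br (nat_lit 2) (nat_lit 0) (.cons (.ev (nat_lit 310693954087704875415634176) (nat_lit 1)) .nil)) .nil))) (.cons (.br (nat_lit 10) (nat_lit 0) (.cons (.br (nat_lit 2) (nat_lit 0) (.cons (.ev (nat_lit 81130259807329891061730126332928)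 (nat_lit 3)) .nil)) (.cons (.ev (nat_lit 122011996500393566590425095996928) (nat_lit 3)) .nil))) (.cons (.rf (nat_lit 2174) (nat_lit 81548782436769)) .nil)))) .nil)))),
 (.br (nat_lit 13) (nat_lit 0) (.cons (.rf (nat_lit 2286) (nat_lit 493858305440582043680)) (.cons (.rf (nat_lit 2291) (nat_lit 493858305440582043680)) (.cons (.rf (nat_lit 2292) (nat_lit 493858305440582043680)) (.cons (.br (nat_lit 13) (nat_lit 0) (.cons (.rf (nat_lit 2286) (nat_lit 493858305440582043680)) (.cons (.rf (nat_lit 2291) (nat_lit 493858305440582043680)) (.cons (.rf (nat_lit 2292) (nat_lit 493858305440582043680)) .nil)))) .nil))))),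
 (.br (nat_lit 13) (nat_lit 0) (.cons (.rf (nat_lit 2286) (nat_lit 493858305440582043680)) (.cons (.rf (nat_lit 2293) (nat_lit 493858305440582043680)) (.cons (.br (nat_lit 10) (nat_lit 0) (.cons (.br (nat_lit 2) (nat_lit 0) (.cons (.br (nat_lit 7) (nat_lit 0) (.cons (.ev (nat_lit 40881734280026927268520651784192) (nat_lit 3)) .nil)) (.cons (.ev (nat_lit 20361948464842389229661321166848) (nat_lit 1)) .nil))) (.cons (.br (nat_lit 7) (nat_lit 0) (.cons (.br (nat_lit 2) (nat_lit 0) (.cons (.zr (nat_lit 81129638424051414664831125422080) (nat_lit 79537647524158584681236791809) (nat_lit 5) (nat_lit 12)) .nil)) (.cons (.ev (nat_lit 20361948464842389229661321166848) (nat_lit 1)) .nil))) (.cons (.rf (nat_lit 2174) (nat_lit 78250348216737)) .nil)))) .nil)))),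
 (.br (nat_lit 13) (nat_lit 0) (.cons (.rf (nat_lit 2286) (nat_lit 493858305440582043680)) (.cons (.rf (nat_lit 2293) (nat_lit 493858305440582043680)) (.cons (.rf (nat_lit 2294) (nat_lit 493858305440582043680)) (.cons (.br (nat_lit 13) (nat_lit 0) (.cons (.rf (nat_lit 2286) (nat_lit 493858305440582043680)) (.cons (.rf (nat_lit 2293) (nat_lit 493858305440582043680)) (.cons (.rf (nat_lit 2294) (nat_lit 493858305440582043680)) .nil)))) .nil))))),
 (.br (nat_lit 13) (nat_lit 0) (.cons (.rf (nat_lit 2286) (nat_lit 493858305440582043680)) (.cons (.rf (nat_lit 2293) (nat_lit 493858305440582043680)) (.cons (.rf (nat_lit 2295) (nat_lit 493858305440582043680)) (.cons (.br (nat_lit 13) (nat_lit 0) (.cons (.rf (nat_lit 2286) (nat_lit 493858305440582043680)) (.cons (.rf (nat_lit 2293) (nat_lit 493858305440582043680)) (.cons (.rf (nat_lit 2295) (nat_lit 493858305440582043680)) .nil)))) .nil))))),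
 (.br (nat_lit 1) (nat_lit 0) (.cons (.rf (nat_lit 2161) (nat_lit 14242959524133701664)) (.cons (.rf (nat_lit 2231) (nat_lit 14242959524133701664)) (.cons (.rf (nat_lit 2272) (nat_lit 14242959524133701664)) (.cons (.br (nat_lit 2) (nat_lit 0) (.cons (.rf (nat_lit 2273) (nat_lit 14242959524133701664)) (.cons (.rf (nat_lit 2275) (nat_lit 14242959524133701664)) (.cons (.rf (nat_lit 2278) (nat_lit 14242959524133701664)) (.cons (.rf (nat_lit 2280) (nat_lit 14242959524133701664)) (.cons (.br (nat_lit 2) (nat_lit 0) (.cons (.rf (nat_lit 2273) (nat_lit 14242959524133701664)) (.cons (.rf (nat_lit 2275) (nat_lit 14242959524133701664)) (.cons (.rf (nat_lit 2278) (nat_lit 14242959524133701664)) (.cons (.rf (nat_lit 2280) (nat_lit 14242959524133701664)) .nil))))) .nil)))))) (.cons (.br (nat_lit 13) (nat_lit 0) (.cons (.rf (nat_lit 2286) (nat_lit 493858305440582043680)) (.cons (.rf (nat_lit 2293) (nat_lit 493858305440582043680)) (.cons (.rf (nat_lit 2295) (nat_lit 493858305440582043680)) (.cons (.rf (nat_lit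 2296) (nat_lit 493858305440582043680)) (.cons (.br (nat_lit 13) (nat_lit 0) (.cons (.rf (nat_lit 2286) (nat_lit 493858305440582043680)) (.cons (.rf (nat_lit 2293) (nat_lit 493858305440582043680)) (.cons (.rf (nat_lit 2295) (nat_lit 493858305440582043680)) (.cons (.rf (nat_lit 2296) (nat_lit 493858305440582043680)) .nil))))) .nil)))))) .nil)))))),
 (.br (nat_lit 7) (nat_lit 0) (.cons (.br (nat_lit 13) (nat_lit 0) (.cons (.rf (nat_lit 2297) (nat_lit 14208022404722295202)) (.cons (.rf (nat_lit 2272) (nat_lit 14208022404722295202)) (.cons (.ev (nat_lit 20440865928680343215434845257986) (nat_lit 2)) .nil)))) (.cons (.ev (nat_lit 18518801667764257024) (nat_lit 1)) (.cons (.br (nat_lit 13) (nat_lit 0) (.cons (.br (nat_lit 2) (nat_lit 0) (.cons (.rf (nat_lit 2283) (nat_lit 1408933278418908162)) (.cons (.br (nat_lit 10) (nat_lit 0) (.cons (.ev (nat_lit 20521023755205159376378449101056) (nat_lit 2)) .nil)) (.cons (.br (nat_lit 10) (nat_lit 0) (.cons (.ev (nat_lit 79538856449905298395250032896) (nat_lit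 1)) .nil)) .nil)))) (.cons (.rf (nat_lit 2256) (nat_lit 15361081521290184736)) (.cons (.br (nat_lit 2) (nat_lit 0) (.cons (.ev (nat_lit 79228162514336676666870399233) (nat_lit 1)) (.cons (.rf (nat_lit 2283) (nat_lit 15398062560743884832)) .nil))) .nil)))) (.cons (.br (nat_lit 13) (nat_lit 0) (.cons (.ev (nat_lit 20282409603670189226718822137856) (nat_lit 1)) (.cons (.br (nat_lit 2) (nat_lit 0) (.cons (.br (nat_lit 10) (nat_lit 0) (.cons (.ev (nat_lit 79538856449905298395250032896) (nat_lit 1)) .nil)) (.cons (.ev (nat_lit 41040807157186710033852256354308) (nat_lit 3)) .nil))) .nil))) .nil))))),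
 (.br (nat_lit 2) (nat_lit 0) (.cons (.br (nat_lit 10) (nat_lit 0) (.cons (.ev (nat_lit 284433448310493486749059876127240) (nat_lit 4)) .nil)) (.cons (.rf (nat_lit 2252) (nat_lit 469745209018400)) (.cons (.ev (nat_lit 20361947255898122872057965379840) (nat_lit 1)) .nil)))),
 (.br (nat_lit 13) (nat_lit 0) (.cons (.rf (nat_lit 2298) (nat_lit 493858305440582043680)) (.cons (.br (nat_lit 2) (nat_lit 0) (.cons (.br (nat_lit 7) (nat_lit 0) (.cons (.br (nat_lit 11) (nat_lit 0) (.cons (.zr (nat_lit 1856910059360415976576253958) (nat_lit 158458747620981975818050863616) (nat_lit 10) (nat_lit 2)) .nil)) (.cons (.br (nat_lit 10) (nat_lit 0) (.cons (.ev (nat_lit 623810537955672209517446658) (nat_lit 3)) .nil)) (.cons (.br (nat_lit 10) (nat_lit 0) (.cons (.zr (nat_lit 1856910059360415976576253958) (nat_lit 158458747620981975818050863616) (nat_lit 10) (nat_lit 2)) .nil)) .nil)))) (.cons (.rf (nat_lit 2231) (nat_lit 14090929087143281058)) (.cons (.rf (nat_lit 2231) (nat_lit 13951351549195551138)) (.cons (.br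 (nat_lit 7) (nat_lit 0) (.cons (.br (nat_lit 7) (nat_lit 0) (.cons (.ev (nat_lit 20361947251194202851782758039808) (nat_lit 1)) .nil)) (.cons (.ev (nat_lit 20361947255898122872057965379840) (nat_lit 1)) .nil))) .nil))))) (.cons (.br (nat_lit 11) (nat_lit 0) (.cons (.rf (nat_lit 2283) (nat_lit 15398168012926322720)) (.cons (.rf (nat_lit 2299) (nat_lit 493858305440582043680)) (.cons (.br (nat_lit 11) (nat_lit 0) (.cons (.ev (nat_lit 309485009821626543718268929) (nat_lit 1)) (.cons (.rf (nat_lit 2299) (nat_lit 493858305440582043680)) .nil))) .nil)))) .nil)))),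
 (.br (nat_lit 13) (nat_lit 0) (.cons (.rf (nat_lit 2298) (nat_lit 493858305440582043680)) (.cons (.rf (nat_lit 2300) (nat_lit 493858305440582043680)) (.cons (.br (nat_lit 2) (nat_lit 0) (.cons (.br (nat_lit 10) (nat_lit 0) (.cons (.ev (nat_lit 20520094091249948629661563158785) (nat_lit 2)) (.cons (.ev (nat_lit 20520713061232553153513564340995) (nat_lit 2)) .nil))) (.cons (.rf (nat_lit 2300) (nat_lit 79815192117590995969)) (.cons (.ev (nat_lit 79847132589247541431427465217) (nat_lit 2)) .nil)))) .nil)))),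
 (.br (nat_lit 13) (nat_lit 0) (.cons (.rf (nat_lit 2298) (nat_lit 493858305440582043680)) (.cons (.rf (nat_lit 2300) (nat_lit 493858305440582043680)) (.cons (.rf (nat_lit 2301) (nat_lit 493858305440582043680)) (.cons (.br (nat_lit 2) (nat_lit 0) (.cons (.rf (nat_lit 2301) (nat_lit 79815192117590995969)) (.cons (.rf (nat_lit 2300) (nat_lit 79815192117590995969)) (.cons (.rf (nat_lit 2298) (nat_lit 79815192117590995969)) .nil)))) .nil))))),
 (.br (nat_lit 9) (nat_lit 0) (.cons (.ev (nat_lit 79228167236702878061522125056) (nat_lit 1)) .nil)),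
 (.br (nat_lit 13) (nat_lit 0) (.cons (.rf (nat_lit 2302) (nat_lit 493858305440582043680)) (.cons (.br (nat_lit 7) (nat_lit 0) (.cons (.br (nat_lit 2) (nat_lit 0) (.cons (.ev (nat_lit 1213666705181745350770688) (nat_lit 1)) (.cons (.br (nat_lit 10) (nat_lit 0) (.cons (.ev (nat_lit 20282410812577562096174758953216) (nat_lit 1)) .nil)) (.cons (.rf (nat_lit 2303) (nat_lit 15433070910038444064)) .nil)))) (.cons (.ev (nat_lit 18518801667764257024) (nat_lit 1)) (.cons (.br (nat_lit 2) (nat_lit 0) (.cons (.br (nat_lit 2) (nat_lit 0) (.cons (.ev (nat_lit 40881734280026926142637925072900) (nat_lit 3)) .nil)) (.cons (.br (nat_lit 2) (nat_lit 0) (.cons (.ev (nat_lit 40881734280026926142637925072900) (nat_lit 3)) .nil)) .nil))) (.cons (.br (nat_lit 10) (nat_lit 0) (.cons (.ev (nat_lit 20361638979814192916637948051713) (nat_lit 1)) (.cons (.ev (nat_lit 79231803514307541557279982339) (nat_lit 2)) .nil))) .nil))))) (.cons (.br (nat_lit 7) (nat_lit 0) (.cons (.ev (nat_lit 20282409608374109246985439543296) (nat_lit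 1)) (.cons (.ev (nat_lit 18518801667764257024) (nat_lit 1)) (.cons (.br (nat_lit 10) (nat_lit 0) (.cons (.br (nat_lit 2) (nat_lit 0) (.cons (.ev (nat_lit 20283339267643920463953332863235) (nat_lit 2)) .nil)) (.cons (.rf (nat_lit 2187) (nat_lit 2587956216225)) .nil))) .nil)))) .nil)))),
 (.br (nat_lit 13) (nat_lit 0) (.cons (.rf (nat_lit 2302) (nat_lit 493858305440582043680)) (.cons (.rf (nat_lit 2304) (nat_lit 493858305440582043680)) (.cons (.br (nat_lit 7) (nat_lit 0) (.cons (.br (nat_lit 10) (nat_lit 0) (.cons (.br (nat_lit 10) (nat_lit 0) (.cons (.ev (nat_lit 20441179040467696307509557002499) (nat_lit 2)) .nil)) (.cons (.br (nat_lit 2) (nat_lit 0) (.cons (.ev (nat_lit 20441179040467696307509557002499) (nat_lit 2)) .nil)) .nil))) (.cons (.ev (nat_lit 18518801667764257024) (nat_lit 1)) (.cons (.rf (nat_lit 2174) (nat_lit 81547708727713)) .nil)))) .nil)))),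
 (.br (nat_lit 13) (nat_lit 0) (.cons (.rf (nat_lit 2302) (nat_lit 493858305440582043680)) (.cons (.rf (nat_lit 2304) (nat_lit 493858305440582043680)) (.cons (.rf (nat_lit 2305) (nat_lit 493858305440582043680)) (.cons (.br (nat_lit 13) (nat_lit 0) (.cons (.rf (nat_lit 2302) (nat_lit 493858305440582043680)) (.cons (.rf (nat_lit 2304) (nat_lit 493858305440582043680)) (.cons (.rf (nat_lit 2305) (nat_lit 493858305440582043680)) .nil)))) .nil))))),
 (.br (nat_lit 13) (nat_lit 0) (.cons (.rf (nat_lit 2302) (nat_lit 493858305440582043680)) (.cons (.rf (nat_lit 2306) (nat_lit 493858305440582043680)) (.cons (.br (nat_lit 11) (nat_lit 0) (.cons (.rf (nat_lit 2306) (nat_lit 79815192117590995969)) (.cons (.br (nat_lit 7) (nat_lit 0) (.cons (.br (nat_lit 2) (nat_lit 0) (.cons (.ev (nat_lit 20441179040467696307509557002499) (nat_lit 2)) .nil)) (.cons (.ev (nat_lit 79229376162522493785913425921) (nat_lit 1)) .nil))) (.cons (.rf (nat_lit 2174) (nat_lit 78249274507681)) .nil)))) .nil)))),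
 (.br (nat_lit 13) (nat_lit 0) (.cons (.rf (nat_lit 2302) (nat_lit 493858305440582043680)) (.cons (.rf (nat_lit 2306) (nat_lit 493858305440582043680)) (.cons (.rf (nat_lit 2307) (nat_lit 493858305440582043680)) (.cons (.br (nat_lit 13) (nat_lit 0) (.cons (.rf (nat_lit 2302) (nat_lit 493858305440582043680)) (.cons (.rf (nat_lit 2306) (nat_lit 493858305440582043680)) (.cons (.rf (nat_lit 2307) (nat_lit 493858305440582043680)) .nil)))) .nil))))),
 (.br (nat_lit 13) (nat_lit 0) (.cons (.rf (nat_lit 2302) (nat_lit 493858305440582043680)) (.cons (.rf (nat_lit 2306) (nat_lit 493858305440582043680)) (.cons (.rf (nat_lit 2308) (nat_lit 493858305440582043680)) (.cons (.br (nat_lit 13) (nat_lit 0) (.cons (.rf (nat_lit 2302) (nat_lit 493858305440582043680)) (.cons (.rf (nat_lit 2306) (nat_lit 493858305440582043680)) (.cons (.rf (nat_lit 2308) (nat_lit 493858305440582043680)) .nil)))) .nil))))),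
 (.br (nat_lit 1) (nat_lit 0) (.cons (.rf (nat_lit 2161) (nat_lit 14242959524133701664)) (.cons (.rf (nat_lit 2231) (nat_lit 14242959524133701664)) (.cons (.rf (nat_lit 2272) (nat_lit 14242959524133701664)) (.cons (.rf (nat_lit 2297) (nat_lit 14242959524133701664)) (.cons (.br (nat_lit 13) (nat_lit 0) (.cons (.rf (nat_lit 2302) (nat_lit 493858305440582043680)) (.cons (.rf (nat_lit 2306) (nat_lit 493858305440582043680)) (.cons (.rf (nat_lit 2308) (nat_lit 493858305440582043680)) (.cons (.rf (nat_lit 2309) (nat_lit 493858305440582043680)) (.cons (.br (nat_lit 2) (nat_lit 0) (.cons (.rf (nat_lit 2309) (nat_lit 79815192117590995969)) (.cons (.rf (nat_lit 2308) (nat_lit 79815192117590995969)) (.cons (.rf (nat_lit 2306) (nat_lit 79815192117590995969)) (.cons (.rf (nat_lit 2302) (nat_lit 493858305440582043680)) .nil))))) .nil)))))) .nil)))))),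
 (.br (nat_lit 1) (nat_lit 0) (.cons (.rf (nat_lit 2161) (nat_lit 14242959524133701664)) (.cons (.rf (nat_lit 2231) (nat_lit 14242959524133701664)) (.cons (.rf (nat_lit 2272) (nat_lit 14242959524133701664)) (.cons (.rf (nat_lit 2297) (nat_lit 14242959524133701664)) (.cons (.rf (nat_lit 2310) (nat_lit 14242959524133701664)) (.cons (.br (nat_lit 1) (nat_lit 0) (.cons (.rf (nat_lit 1943) (nat_lit 428033)) (.cons (.rf (nat_lit 2231) (nat_lit 14242959524133701664)) (.cons (.rf (nat_lit 2272) (nat_lit 14242959524133701664)) (.cons (.rf (nat_lit 2297) (nat_lit 14242959524133701664)) (.cons (.rf (nat_lit 2310) (nat_lit 14242959524133701664)) .nil)))))) .nil))))))),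
 (.br (nat_lit 9) (nat_lit 0) (.cons (.br (nat_lit 9) (nat_lit 0) .nil) .nil)),
 (.br (nat_lit 9) (nat_lit 0) (.cons (.br (nat_lit 9) (nat_lit 0) .nil) .nil)),
 (.br (nat_lit 9) (nat_lit 0) (.cons (.br (nat_lit 9) (nat_lit 0) .nil) .nil)),
 (.br (nat_lit 4) (nat_lit 0) (.cons (.rf (nat_lit 2312) (nat_lit 434523254917152)) (.cons (.rf (nat_lit 2314) (nat_lit 434660559652896)) (.cons (.br (nat_lit 12) (nat_lit 0) (.cons (.br (nat_lit 11) (nat_lit 0) (.cons (.ev (nat_lit 79229376180897179166073487361) (nat_lit 1)) .nil)) (.cons (.br (nat_lit 10) (nat_lit 0) (.cons (.ev (nat_lit 79229376180897179166073487361) (nat_lit 1)) .nil)) .nil))) .nil)))),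
 (.br (nat_lit 7) (nat_lit 0) (.cons (.br (nat_lit 11) (nat_lit 0) (.cons (.ev (nat_lit 158768227908653012993938948096) (nat_lit 2)) (.cons (.rf (nat_lit 2312) (nat_lit 470979911452704)) .nil))) (.cons (.br (nat_lit 5) (nat_lit 0) (.cons (.ev (nat_lit 79537647542532426740290093056) (nat_lit 1)) (.cons (.rf (nat_lit 2313) (nat_lit 470979911452704)) .nil))) (.cons (.ev (nat_lit 79228162514336676666870398976) (nat_lit 1)) (.cons (.rf (nat_lit 2315) (nat_lit 15433072045018155040)) .nil))))),
 (.br (nat_lit 9) (nat_lit 0) (.cons (.br (nat_lit 9) (nat_lit 0) .nil) .nil)),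
 (.br (nat_lit 6) (nat_lit 0) (.cons (.ev (nat_lit 309485009821626543718268929) (nat_lit 1)) (.cons (.rf (nat_lit 2317) (nat_lit 434660560701472)) .nil))),
 (.br (nat_lit 9) (nat_lit 0) (.cons (.br (nat_lit 9) (nat_lit 0) .nil) .nil)),
 (.br (nat_lit 1) (nat_lit 0) (.cons (.ev (nat_lit 7258369808093917581673990) (nat_lit 3)) (.cons (.rf (nat_lit 2318) (nat_lit 445092485094541344)) (.cons (.rf (nat_lit 2316) (nat_lit 14242959524133701664)) (.cons (.br (nat_lit 7) (nat_lit 0) (.cons (.rf (nat_lit 2319) (nat_lit 470979911452704)) (.cons (.ev (nat_lit 79228162514336395187598655489) (nat_lit 1)) (.cons (.br (nat_lit 13) (nat_lit 0) (.cons (.br (nat_lit 12) (nat_lit 0) (.cons (.ev (nat_lit 20282720297605758127718860324864) (nat_lit 1)) .nil)) (.cons (.br (nat_lit 11) (nat_lit 0) (.cons (.ev (nat_lit 20282720297605758127718860324864) (nat_lit 1)) .nil)) .nil))) .nil)))) .nil)))))]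

theorem c83 : chkAll C T R L83 (nat_lit 2292) = true := by decide +kernel

theorem l83 : (nat_lit 2292) + L83.length = (nat_lit 2321) := by decide +kernel

/-- part of the certificates -/
def L84 : List Prf := [(.br (nat_lit 11) (nat_lit 0) (.cons (.ev (nat_lit 158765810093907269684018807296) (nat_lit 2)) (.cons (.ev (nat_lit 309485009821626543718268929) (nat_lit 1)) (.cons (.ev (nat_lit 79537647542532708210971770881) (nat_lit 1)) .nil)))),
 (.br (nat_lit 12) (nat_lit 0) (.cons (.ev (nat_lit 79228162514336676666870398976) (nat_lit 1)) (.cons (.ev (nat_lit 79228162514336395187598655489) (nat_lit 1)) (.cons (.br (nat_lit 1) (nat_lit 0) (.cons (.ev (nat_lit 79538861190718525338604863745) (nat_lit 1)) (.cons (.br (nat_lit 13) (nat_lit 0) (.cons (.ev (nat_lit 79538856449905298395250032896) (nat_lit 1)) .nil)) .nil))) (.cons (.br (nat_lit 13) (nat_lit 0) (.cons (.rf (nat_lit 2321) (nat_lit 493858305440582043680)) (.cons (.br (nat_lit 13) (nat_lit 0) (.cons (.rf (nat_lit 2321) (nat_lit 493858305440582043680))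 (.cons (.ev (nat_lit 79537647542532708210971770881) (nat_lit 1)) .nil))) (.cons (.ev (nat_lit 79537647542532708210971770881) (nat_lit 1)) .nil)))) .nil))))),
 (.br (nat_lit 7) (nat_lit 0) (.cons (.ev (nat_lit 20282409603670189226718822138113) (nat_lit 1)) .nil)),
 (.br (nat_lit 5) (nat_lit 0) (.cons (.ev (nat_lit 79229371458603036469249442048) (nat_lit 1)) (.cons (.rf (nat_lit 2323) (nat_lit 493858305440582043680)) .nil))),
 (.br (nat_lit 1) (nat_lit 0) (.cons (.ev (nat_lit 79229371458602754989977829633) (nat_lit 1)) (.cons (.rf (nat_lit 2323) (nat_lit 493858305440582043680)) .nil))),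
 (.br (nat_lit 12) (nat_lit 0) (.cons (.rf (nat_lit 2316) (nat_lit 14242959524133701664)) (.cons (.rf (nat_lit 2320) (nat_lit 14242959524133701664)) (.cons (.rf (nat_lit 2322) (nat_lit 14242959524133701664)) (.cons (.br (nat_lit 13) (nat_lit 0) (.cons (.rf (nat_lit 2324) (nat_lit 493858305440582043680)) (.cons (.rf (nat_lit 2325) (nat_lit 493858305440582043680)) (.cons (.br (nat_lit 13) (nat_lit 0) (.cons (.rf (nat_lit 2324) (nat_lit 493858305440582043680)) (.cons (.rf (nat_lit 2325) (nat_lit 493858305440582043680)) .nil))) .nil)))) .nil))))),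
 (.br (nat_lit 11) (nat_lit 0) (.cons (.ev (nat_lit 311917028777042342077071361) (nat_lit 2)) (.cons (.rf (nat_lit 2312) (nat_lit 470976790890528)) .nil))),
 (.br (nat_lit 12) (nat_lit 0) (.cons (.rf (nat_lit 2327) (nat_lit 14242959524133701664)) (.cons (.ev (nat_lit 311917028777042342077071361) (nat_lit 2)) (.cons (.br (nat_lit 12) (nat_lit 0) (.cons (.rf (nat_lit 2327) (nat_lit 14242959524133701664)) (.cons (.ev (nat_lit 311917028777042342077071361) (nat_lit 2)) .nil))) .nil)))),
 (.br (nat_lit 8) (nat_lit 0) (.cons (.br (nat_lit 8) (nat_lit 0) .nil) .nil)),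
 (.br (nat_lit 10) (nat_lit 0) (.cons (.rf (nat_lit 2329) (nat_lit 362021891704864)) (.cons (.br (nat_lit 10) (nat_lit 0) (.cons (.rf (nat_lit 2329) (nat_lit 362021891704864)) .nil)) .nil))),
 (.br (nat_lit 1) (nat_lit 0) (.cons (.rf (nat_lit 2328) (nat_lit 14242959524133701664)) (.cons (.br (nat_lit 7) (nat_lit 0) (.cons (.ev (nat_lit 79228162514336676666870398976) (nat_lit 1)) (.cons (.rf (nat_lit 2312) (nat_lit 470843646904352)) .nil))) (.cons (.rf (nat_lit 2330) (nat_lit 15071358309468192)) .nil)))),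
 (.br (nat_lit 9) (nat_lit 0) (.cons (.br (nat_lit 9) (nat_lit 0) .nil) .nil)),
 (.br (nat_lit 1) (nat_lit 0) (.cons (.rf (nat_lit 2328) (nat_lit 14242959524133701664)) (.cons (.rf (nat_lit 2331) (nat_lit 14242959524133701664)) (.cons (.br (nat_lit 12) (nat_lit 0) (.cons (.ev (nat_lit 79228162514336676666870398976) (nat_lit 1)) (.cons (.rf (nat_lit 2332) (nat_lit 470979911452704)) (.cons (.rf (nat_lit 2311) (nat_lit 6028215822752789505)) .nil)))) .nil)))),
 (.br (nat_lit 9) (nat_lit 0) (.cons (.br (nat_lit 9) (nat_lit 0) .nil) .nil)),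
 (.br (nat_lit 1) (nat_lit 0) (.cons (.zr (nat_lit 309489732259885532407988736) (nat_lit 1208944266358702901035010) (nat_lit 5) (nat_lit 11)) (.cons (.br (nat_lit 11) (nat_lit 0) (.cons (.ev (nat_lit 1864168465483848439413342722) (nat_lit 3)) (.cons (.rf (nat_lit 2334) (nat_lit 470979911452704)) .nil))) (.cons (.br (nat_lit 13) (nat_lit 0) (.cons (.ev (nat_lit 1864168465483848439413342722) (nat_lit 3)) (.cons (.br (nat_lit 13) (nat_lit 0) (.cons (.ev (nat_lit 1864168465483848439413342722) (nat_lit 3)) .nil)) .nil))) .nil)))),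
 (.br (nat_lit 8) (nat_lit 0) (.cons (.rf (nat_lit 2319) (nat_lit 325669288511520)) (.cons (.br (nat_lit 8) (nat_lit 0) (.cons (.rf (nat_lit 2319) (nat_lit 325669288511520)) .nil)) .nil))),
 (.br (nat_lit 1) (nat_lit 0) (.cons (.zr (nat_lit 309489732259885532407988736) (nat_lit 1208944266358702901035010) (nat_lit 5) (nat_lit 11)) (.cons (.br (nat_lit 5) (nat_lit 0) (.cons (.ev (nat_lit 79229376162522493785913426176) (nat_lit 1)) (.cons (.rf (nat_lit 2313) (nat_lit 470946625456160)) .nil))) (.cons (.rf (nat_lit 2336) (nat_lit 470979911452704)) .nil)))),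
 (.br (nat_lit 13) (nat_lit 0) (.cons (.br (nat_lit 12) (nat_lit 0) (.cons (.ev (nat_lit 20282720297605758409198132068353) (nat_lit 1)) .nil)) (.cons (.rf (nat_lit 2311) (nat_lit 6028215822752789505)) .nil))),
 (.br (nat_lit 1) (nat_lit 0) (.cons (.rf (nat_lit 2335) (nat_lit 14242959524133701664)) (.cons (.rf (nat_lit 2337) (nat_lit 14242959524133701664)) (.cons (.br (nat_lit 13) (nat_lit 0) (.cons (.rf (nat_lit 2338) (nat_lit 493858305440582043680)) (.cons (.br (nat_lit 13) (nat_lit 0) (.cons (.rf (nat_lit 2338) (nat_lit 493858305440582043680)) (.cons (.rf (nat_lit 2311) (nat_lit 6028215822752789505)) .nil))) (.cons (.rf (nat_lit 2311) (nat_lit 6028215822752789505)) .nil)))) .nil)))),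
 (.br (nat_lit 9) (nat_lit 0) (.cons (.br (nat_lit 9) (nat_lit 0) .nil) .nil)),
 (.br (nat_lit 9) (nat_lit 0) (.cons (.br (nat_lit 9) (nat_lit 0) .nil) .nil)),
 (.br (nat_lit 9) (nat_lit 0) (.cons (.br (nat_lit 9) (nat_lit 0) .nil) .nil)),
 (.br (nat_lit 1) (nat_lit 0) (.cons (.rf (nat_lit 2342) (nat_lit 325702574508064)) (.cons (.rf (nat_lit 2342) (nat_lit 325633922140192)) .nil))),
 (.br (nat_lit 1) (nat_lit 0) (.cons (.zr (nat_lit 36893770721907441667) (nat_lit 2417851639229258383032576) (nat_lit 5) (nat_lit 5)) (.cons (.ev (nat_lit 310698658007725142033039616) (nat_lit 1)) .nil))),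
 (.br (nat_lit 13) (nat_lit 0) (.cons (.rf (nat_lit 2344) (nat_lit 493858305440582043680)) (.cons (.br (nat_lit 13) (nat_lit 0) (.cons (.rf (nat_lit 2344) (nat_lit 493858305440582043680)) (.cons (.ev (nat_lit 20282410812577562096174758952961) (nat_lit 1)) .nil))) (.cons (.br (nat_lit 13) (nat_lit 0) (.cons (.rf (nat_lit 2344) (nat_lit 493858305440582043680)) (.cons (.ev (nat_lit 20282410812577562096174758952961) (nat_lit 1)) .nil))) .nil)))),
 (.br (nat_lit 1) (nat_lit 0) (.cons (.br (nat_lit 1) (nat_lit 0) (.cons (.ev (nat_lit 79538856449905298395250032896) (nat_lit 1)) (.cons (.zr (nat_lit 36893770721907441667) (nat_lit 2417851639229258383032576) (nat_lit 5) (nat_lit 5)) .nil))) (.cons (.br (nat_lit 1) (nat_lit 0) (.cons (.ev (nat_lit 79538856449905298395250032896) (nat_lit 1)) (.cons (.ev (nat_lit 310693954087704875415634176) (nat_lit 1)) .nil))) (.cons (.rf (nat_lit 2344) (nat_lit 493858305440582043680)) .nil)))),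
 (.br (nat_lit 13) (nat_lit 0) (.cons (.rf (nat_lit 2345) (nat_lit 493858305440582043680)) (.cons (.rf (nat_lit 2346) (nat_lit 493858305440582043680)) (.cons (.br (nat_lit 13) (nat_lit 0) (.cons (.ev (nat_lit 20282410812577562096174758952961) (nat_lit 1)) (.cons (.ev (nat_lit 20282410812577562377645440630784) (nat_lit 1)) .nil))) .nil)))),
 (.br (nat_lit 1) (nat_lit 0) (.cons (.br (nat_lit 12) (nat_lit 0) (.cons (.br (nat_lit 12) (nat_lit 0) (.cons (.ev (nat_lit 121694460044502763516138782852100) (nat_lit 3)) .nil)) (.cons (.ev (nat_lit 121694460044502763516138782852100) (nat_lit 3)) .nil))) (.cons (.br (nat_lit 7) (nat_lit 0) (.cons (.br (nat_lit 12) (nat_lit 0) (.cons (.ev (nat_lit 40881734280026927268520651784192) (nat_lit 3)) .nil)) (.cons (.ev (nat_lit 1208925891673322724327681) (nat_lit 1)) .nil))) (.cons (.br (nat_lit 7) (nat_lit 0) (.cons (.br (nat_lit 12) (nat_lit 0) (.cons (.ev (nat_lit 40882972219992137442141741121540) (nat_lit 3)) .nil)) (.cons (.ev (nat_lit 79228167255149622130953486336)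 (nat_lit 1)) (.cons (.ev (nat_lit 20282409603670189226718822138113) (nat_lit 1)) .nil)))) .nil)))),
 (.br (nat_lit 13) (nat_lit 0) (.cons (.rf (nat_lit 2348) (nat_lit 493858305440582043680)) (.cons (.br (nat_lit 12) (nat_lit 0) (.cons (.br (nat_lit 5) (nat_lit 0) (.cons (.zr (nat_lit 90075453282278642288158) (nat_lit 2694378913356413523759520546816) (nat_lit 60) (nat_lit 3)) .nil)) (.cons (.br (nat_lit 1) (nat_lit 0) (.cons (.zr (nat_lit 90075453282278642288158) (nat_lit 2694378913356413523759520546816) (nat_lit 60) (nat_lit 3)) .nil)) .nil))) (.cons (.br (nat_lit 1) (nat_lit 0) (.cons (.br (nat_lit 11) (nat_lit 0) (.cons (.ev (nat_lit 20282719093402305278538130981120) (nat_lit 1)) .nil)) (.cons (.br (nat_lit 5) (nat_lit 0) (.cons (.ev (nat_lit 310693954087704875415634176) (nat_lit 1)) .nil)) (.cons (.rf (nat_lit 2311) (nat_lit 6028215822752789505)) .nil)))) .nil)))),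
 (.br (nat_lit 13) (nat_lit 0) (.cons (.rf (nat_lit 2348) (nat_lit 493858305440582043680)) (.cons (.rf (nat_lit 2349) (nat_lit 493858305440582043680)) (.cons (.br (nat_lit 12) (nat_lit 0) (.cons (.ev (nat_lit 20361948460101575721238694723584) (nat_lit 1)) (.cons (.ev (nat_lit 20361948460101576002717966467073) (nat_lit 1)) (.cons (.ev (nat_lit 79537647542532708210971770881) (nat_lit 1)) .nil)))) .nil)))),
 (.br (nat_lit 13) (nat_lit 0) (.cons (.rf (nat_lit 2348) (nat_lit 493858305440582043680)) (.cons (.rf (nat_lit 2349) (nat_lit 493858305440582043680)) (.cons (.rf (nat_lit 2350) (nat_lit 493858305440582043680)) (.cons (.br (nat_lit 13) (nat_lit 0) (.cons (.rf (nat_lit 2348) (nat_lit 493858305440582043680)) (.cons (.rf (nat_lit 2349) (nat_lit 493858305440582043680)) (.cons (.rf (nat_lit 2350) (nat_lit 493858305440582043680)) .nil)))) .nil))))),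
 (.br (nat_lit 1) (nat_lit 0) (.cons (.br (nat_lit 12) (nat_lit 0) (.cons (.ev (nat_lit 20361948464842388948182049554433) (nat_lit 1)) .nil)) (.cons (.rf (nat_lit 2351) (nat_lit 493858305440582043680)) .nil))),
 (.br (nat_lit 13) (nat_lit 0) (.cons (.rf (nat_lit 2351) (nat_lit 493858305440582043680)) (.cons (.rf (nat_lit 2352) (nat_lit 493858305440582043680)) (.cons (.br (nat_lit 13) (nat_lit 0) (.cons (.ev (nat_lit 121694460044502763516138782852100) (nat_lit 3)) (.cons (.rf (nat_lit 2352) (nat_lit 493858305440582043680)) .nil))) .nil)))),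
 (.br (nat_lit 1) (nat_lit 0) (.cons (.rf (nat_lit 2353) (nat_lit 493858305440582043680)) (.cons (.br (nat_lit 1) (nat_lit 0) (.cons (.rf (nat_lit 2353) (nat_lit 493858305440582043680)) (.cons (.ev (nat_lit 310693954087704875415634176) (nat_lit 1)) (.cons (.rf (nat_lit 2351) (nat_lit 493858305440582043680)) .nil)))) (.cons (.br (nat_lit 1) (nat_lit 0) (.cons (.rf (nat_lit 2353) (nat_lit 493858305440582043680)) (.cons (.ev (nat_lit 310693954087704875415634176) (nat_lit 1)) (.cons (.rf (nat_lit 2351) (nat_lit 493858305440582043680)) .nil)))) (.cons (.rf (nat_lit 2351) (nat_lit 493858305440582043680)) .nil))))),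
 (.br (nat_lit 13) (nat_lit 0) (.cons (.rf (nat_lit 2351) (nat_lit 493858305440582043680)) (.cons (.rf (nat_lit 2354) (nat_lit 493858305440582043680)) (.cons (.br (nat_lit 1) (nat_lit 0) (.cons (.zr (nat_lit 20282413239873862233591296032769) (nat_lit 618970075127323419677294592) (nat_lit 10) (nat_lit 3)) (.cons (.br (nat_lit 1) (nat_lit 0) (.cons (.zr (nat_lit 237684496987526259999194152960) (nat_lit 310693991053249513082847744) (nat_lit 5) (nat_lit 11)) .nil)) .nil))) .nil)))),
 (.br (nat_lit 13) (nat_lit 0) (.cons (.rf (nat_lit 2351) (nat_lit 493858305440582043680)) (.cons (.rf (nat_lit 2354) (nat_lit 493858305440582043680)) (.cons (.rf (nat_lit 2355) (nat_lit 493858305440582043680)) (.cons (.br (nat_lit 13) (nat_lit 0) (.cons (.rf (nat_lit 2351) (nat_lit 493858305440582043680)) (.cons (.rf (nat_lit 2354) (nat_lit 493858305440582043680)) (.cons (.rf (nat_lit 2355) (nat_lit 493858305440582043680)) .nil)))) .nil))))),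
 (.br (nat_lit 13) (nat_lit 0) (.cons (.rf (nat_lit 2351) (nat_lit 493858305440582043680)) (.cons (.rf (nat_lit 2354) (nat_lit 493858305440582043680)) (.cons (.rf (nat_lit 2356) (nat_lit 493858305440582043680)) (.cons (.br (nat_lit 13) (nat_lit 0) (.cons (.rf (nat_lit 2351) (nat_lit 493858305440582043680)) (.cons (.rf (nat_lit 2354) (nat_lit 493858305440582043680)) (.cons (.rf (nat_lit 2356) (nat_lit 493858305440582043680)) .nil)))) .nil))))),
 (.br (nat_lit 10) (nat_lit 0) (.cons (.br (nat_lit 12) (nat_lit 0) (.cons (.ev (nat_lit 79229371458603036469249441793) (nat_lit 1)) (.cons (.rf (nat_lit 2334) (nat_lit 469914759563296)) .nil))) (.cons (.br (nat_lit 7) (nat_lit 0) (.cons (.ev (nat_lit 79538861190718525338604863745) (nat_lit 1)) (.cons (.rf (nat_lit 2340) (nat_lit 469914759563296)) .nil))) (.cons (.kr (nat_lit 4740813508418331475970) (nat_lit 158456325028528675191382868480) (nat_lit 0) (nat_lit 2)) (.cons (.br (nat_lit 7) (nat_lit 0) (.cons (.rf (nat_lit 2340) (nat_lit 469911639001120))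 (.cons (.rf (nat_lit 2334) (nat_lit 469848187570208)) (.cons (.ev (nat_lit 1213666704900266079027456) (nat_lit 1)) .nil)))) .nil))))),
 (.br (nat_lit 1) (nat_lit 0) (.cons (.br (nat_lit 11) (nat_lit 0) (.cons (.zr (nat_lit 1237940058020354733350323456) (nat_lit 1227815286673107190874114) (nat_lit 10) (nat_lit 7)) (.cons (.br (nat_lit 13) (nat_lit 0) (.cons (.ev (nat_lit 79537647542532708210971770881) (nat_lit 1)) .nil)) .nil))) (.cons (.rf (nat_lit 2358) (nat_lit 14242959524133701664)) (.cons (.br (nat_lit 10) (nat_lit 0) (.cons (.ev (nat_lit 80159035395440224813967278595) (nat_lit 2)) (.cons (.br (nat_lit 13) (nat_lit 0) (.cons (.br (nat_lit 13) (nat_lit 0) .nil) .nil)) .nil))) (.cons (.br (nat_lit 13) (nat_lit 0) (.cons (.ev (nat_lit 1213666704900266079027456) (nat_lit 1)) (.cons (.br (nat_lit 13) (nat_lit 0) (.cons (.ev (nat_lit 1213666704900266079027456) (nat_lit 1)) (.cons (.ev (nat_lit 79537647542532708210971770881) (nat_lit 1)) .nil))) (.cons (.br (nat_lit 13) (nat_lit 0) (.cons (.ev (nat_lit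 1213666704900266079027456) (nat_lit 1)) (.cons (.ev (nat_lit 79537647542532708210971770881) (nat_lit 1)) .nil))) .nil)))) .nil))))),
 (.br (nat_lit 1) (nat_lit 0) (.cons (.ev (nat_lit 159075299900098809653622866950) (nat_lit 3)) (.cons (.ev (nat_lit 1213666704900266079027456) (nat_lit 1)) .nil)))]

theorem c84 : chkAll C T R L84 (nat_lit 2321) = true := by decide +kernel

theorem l84 : (nat_lit 2321) + L84.length = (nat_lit 2361) := by decide +kernel

/-- part of the certificates -/
def L85 : List Prf := [(.br (nat_lit 11) (nat_lit 0) (.cons (.rf (nat_lit 2358) (nat_lit 14242959524133701664)) (.cons (.rf (nat_lit 2359) (nat_lit 14242959524133701664)) (.cons (.br (nat_lit 1) (nat_lit 0) (.cons (.ev (nat_lit 79228162514336676666870399233) (nat_lit 1)) (.cons (.br (nat_lit 13) (nat_lit 0) (.cons (.ev (nat_lit 1213666704900266079027456) (nat_lit 1)) .nil)) .nil))) (.cons (.br (nat_lit 13) (nat_lit 0) (.cons (.ev (nat_lit 309489750634572016391291136) (nat_lit 1)) (.cons (.rf (nat_lit 2360) (nat_lit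 493858305440582043680)) (.cons (.br (nat_lit 13) (nat_lit 0) (.cons (.ev (nat_lit 309489750634572016391291136) (nat_lit 1)) (.cons (.rf (nat_lit 2360) (nat_lit 493858305440582043680)) .nil))) .nil)))) .nil))))),
 (.br (nat_lit 1) (nat_lit 0) (.cons (.ev (nat_lit 79228162514336676666870399233) (nat_lit 1)) (.cons (.kr (nat_lit 4740813508418331475970) (nat_lit 158456325028528675191382868480) (nat_lit 0) (nat_lit 2)) (.cons (.rf (nat_lit 2358) (nat_lit 14242959524133701664)) (.cons (.br (nat_lit 7) (nat_lit 0) (.cons (.ev (nat_lit 79229376162522493785913425921) (nat_lit 1)) (.cons (.rf (nat_lit 2359) (nat_lit 14242959524133701664)) (.cons (.br (nat_lit 10) (nat_lit 0) (.cons (.ev (nat_lit 1213666704900266079027456) (nat_lit 1)) (.cons (.br (nat_lit 11) (nat_lit 0) (.cons (.ev (nat_lit 20282719093402305278538130980865) (nat_lit 1)) .nil)) .nil))) .nil)))) .nil))))),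
 (.br (nat_lit 11) (nat_lit 0) (.cons (.rf (nat_lit 2358) (nat_lit 14242959524133701664)) (.cons (.rf (nat_lit 2359) (nat_lit 14242959524133701664)) (.cons (.rf (nat_lit 2361) (nat_lit 14242959524133701664)) (.cons (.rf (nat_lit 2362) (nat_lit 14242959524133701664)) (.cons (.br (nat_lit 11) (nat_lit 0) (.cons (.rf (nat_lit 2358) (nat_lit 14242959524133701664)) (.cons (.rf (nat_lit 2359) (nat_lit 14242959524133701664)) (.cons (.rf (nat_lit 2361) (nat_lit 14242959524133701664)) (.cons (.rf (nat_lit 2362) (nat_lit 14242959524133701664)) .nil))))) .nil)))))),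
 (.br (nat_lit 11) (nat_lit 0) (.cons (.ev (nat_lit 79538856449905298395250032896) (nat_lit 1)) .nil)),
 (.br (nat_lit 1) (nat_lit 0) (.cons (.rf (nat_lit 2363) (nat_lit 14242959524133701664)) (.cons (.br (nat_lit 5) (nat_lit 0) (.cons (.br (nat_lit 12) (nat_lit 0) (.cons (.ev (nat_lit 310698658007725142033039361) (nat_lit 1)) (.cons (.rf (nat_lit 2317) (nat_lit 469842986633248)) .nil))) (.cons (.ev (nat_lit 7258369808093917581673990) (nat_lit 3)) (.cons (.br (nat_lit 13) (nat_lit 0) (.cons (.rf (nat_lit 2364) (nat_lit 493858305440582043680)) (.cons (.br (nat_lit 11) (nat_lit 0) (.cons (.rf (nat_lit 2364) (nat_lit 493858305440582043680)) .nil)) .nil))) .nil)))) (.cons (.br (nat_lit 5) (nat_lit 0) (.cons (.br (nat_lit 12) (nat_lit 0) (.cons (.ev (nat_lit 316915072723586427231809177088) (nat_lit 3)) (.cons (.rf (nat_lit 2312) (nat_lit 469911639001120)) .nil))) (.cons (.br (nat_lit 10) (nat_lit 0) (.cons (.ev (nat_lit 310698658007725142033039361) (nat_lit 1)) (.cons (.rf (nat_lit 2314) (nat_lit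 469911639001120)) .nil))) (.cons (.ev (nat_lit 79228162514336676666870399233) (nat_lit 1)) (.cons (.br (nat_lit 10) (nat_lit 0) (.cons (.rf (nat_lit 2341) (nat_lit 469914759563296)) (.cons (.rf (nat_lit 2313) (nat_lit 469911639001120)) (.cons (.br (nat_lit 11) (nat_lit 0) (.cons (.ev (nat_lit 792284047920142282324729007106) (nat_lit 4)) (.cons (.br (nat_lit 12) (nat_lit 0) (.cons (.ev (nat_lit 20282409603670189226718822138113) (nat_lit 1)) .nil)) .nil))) .nil)))) .nil))))) (.cons (.ev (nat_lit 79228167255149903610225099008) (nat_lit 1)) (.cons (.br (nat_lit 5) (nat_lit 0) (.cons (.rf (nat_lit 2330) (nat_lit 15031773911156768)) (.cons (.br (nat_lit 10) (nat_lit 0) (.cons (.rf (nat_lit 2343) (nat_lit 469914759563296)) (.cons (.rf (nat_lit 2336) (nat_lit 469745209018400)) (.cons (.br (nat_lit 11) (nat_lit 0) (.cons (.rf (nat_lit 2343) (nat_lit 469848187570208)) (.cons (.br (nat_lit 12) (nat_lit 0) (.cons (.ev (nat_lit 1112925025278387629981184428046) (nat_lit 4)) .nil)) .nil))) .nil)))) (.cons (.rf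 (nat_lit 2330) (nat_lit 15031842563524640)) (.cons (.br (nat_lit 10) (nat_lit 0) (.cons (.br (nat_lit 13) (nat_lit 0) (.cons (.br (nat_lit 12) (nat_lit 0) (.cons (.ev (nat_lit 475992785660433497059749921798) (nat_lit 3)) .nil)) (.cons (.br (nat_lit 11) (nat_lit 0) (.cons (.ev (nat_lit 475992785660433497059749921798) (nat_lit 3)) .nil)) .nil))) (.cons (.rf (nat_lit 2336) (nat_lit 469745209018400)) (.cons (.br (nat_lit 13) (nat_lit 0) (.cons (.ev (nat_lit 121694460044502763516138782852100) (nat_lit 3)) (.cons (.zr (nat_lit 4740813230241889714177) (nat_lit 20440865928680199380617905831936) (nat_lit 5) (nat_lit 0)) .nil))) .nil)))) .nil))))) .nil)))))),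
 (.br (nat_lit 7) (nat_lit 0) (.cons (.ev (nat_lit 79538856449905579865931841793) (nat_lit 1)) (.cons (.rf (nat_lit 2314) (nat_lit 469914759563296)) .nil))),
 (.br (nat_lit 9) (nat_lit 0) (.cons (.rf (nat_lit 2312) (nat_lit 324637422618656)) .nil)),
 (.br (nat_lit 11) (nat_lit 0) (.cons (.ev (nat_lit 475373815529966790241920877060) (nat_lit 3)) (.cons (.ev (nat_lit 158456329769630981333933228544) (nat_lit 3)) (.cons (.rf (nat_lit 1334) (nat_lit 119188093178158811552)) .nil)))),
 (.br (nat_lit 10) (nat_lit 0) (.cons (.rf (nat_lit 2343) (nat_lit 433593361991712)) (.cons (.rf (nat_lit 2343) (nat_lit 433528870373408)) (.cons (.ev (nat_lit 1208925819896104168194304) (nat_lit 1)) .nil)))),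
 (.br (nat_lit 1) (nat_lit 0) (.cons (.rf (nat_lit 2363) (nat_lit 14242959524133701664)) (.cons (.rf (nat_lit 2365) (nat_lit 14242959524133701664)) (.cons (.br (nat_lit 11) (nat_lit 0) (.cons (.rf (nat_lit 2366) (nat_lit 14242959524133701664)) (.cons (.zr (nat_lit 309489732260167007384633600) (nat_lit 1208944266358707196002304) (nat_lit 5) (nat_lit 11)) (.cons (.ev (nat_lit 309485009821345073036591361) (nat_lit 1)) (.cons (.br (nat_lit 5) (nat_lit 0) (.cons (.rf (nat_lit 2367) (nat_lit 470979911452704)) (.cons (.zr (nat_lit 2432018739522292249133058) (nat_lit 92233724770889238016) (nat_lit 10) (nat_lit 2)) (.cons (.ev (nat_lit 310698658007443671351361536) (nat_lit 1)) .nil)))) .nil))))) (.cons (.br (nat_lit 5) (nat_lit 0) (.cons (.ev (nat_lit 2422592742663504158523910) (nat_lit 3)) (.cons (.br (nat_lit 7) (nat_lit 0) (.cons (.ev (nat_lit 162172567849806263913091039234) (nat_lit 4)) (.cons (.rf (nat_lit 2317) (nat_lit 469914759563296)) .nil))) (.cons (.br (nat_lit 13) (nat_lit 0) (.cons (.rf (nat_lit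 2368) (nat_lit 493858305440582043680)) (.cons (.br (nat_lit 13) (nat_lit 0) (.cons (.rf (nat_lit 2368) (nat_lit 493858305440582043680)) .nil)) .nil))) .nil)))) (.cons (.br (nat_lit 5) (nat_lit 0) (.cons (.rf (nat_lit 2330) (nat_lit 15034969366824992)) (.cons (.rf (nat_lit 2369) (nat_lit 15433072009550071840)) (.cons (.zr (nat_lit 237685696468612627414118498304) (nat_lit 73786978493861462018) (nat_lit 5) (nat_lit 2)) (.cons (.br (nat_lit 7) (nat_lit 0) (.cons (.br (nat_lit 11) (nat_lit 0) (.cons (.ev (nat_lit 79538856449905298395250032896) (nat_lit 1)) (.cons (.br (nat_lit 12) (nat_lit 0) (.cons (.ev (nat_lit 79537647542532708210971770881) (nat_lit 1)) .nil)) .nil))) (.cons (.rf (nat_lit 2336) (nat_lit 469848187570208)) (.cons (.br (nat_lit 13) (nat_lit 0) (.cons (.ev (nat_lit 20282410812577562377645440630784) (nat_lit 1)) (.cons (.ev (nat_lit 20282409608374109246985439543553) (nat_lit 1)) .nil))) .nil)))) .nil))))) .nil)))))),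
 (.br (nat_lit 10) (nat_lit 0) (.cons (.br (nat_lit 12) (nat_lit 0) (.cons (.ev (nat_lit 81288713714506780509857854390278) (nat_lit 3)) .nil)) (.cons (.br (nat_lit 11) (nat_lit 0) (.cons (.ev (nat_lit 20283340476551292493378057469952) (nat_lit 2)) .nil)) (.cons (.br (nat_lit 11) (nat_lit 0) (.cons (.ev (nat_lit 40724513477185756516190131586050) (nat_lit 3)) .nil)) .nil)))),
 (.br (nat_lit 7) (nat_lit 0) (.cons (.br (nat_lit 12) (nat_lit 0) (.cons (.ev (nat_lit 20361638975110273177842012455168) (nat_lit 1)) .nil)) (.cons (.ev (nat_lit 79231789328760785916091629571) (nat_lit 2)) (.cons (.rf (nat_lit 2371) (nat_lit 493858305440582043680)) .nil)))),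
 (.br (nat_lit 13) (nat_lit 0) (.cons (.rf (nat_lit 2371) (nat_lit 493858305440582043680)) (.cons (.rf (nat_lit 2372) (nat_lit 493858305440582043680)) (.cons (.br (nat_lit 7) (nat_lit 0) (.cons (.ev (nat_lit 40644669966614706722811571929091) (nat_lit 2)) .nil)) .nil)))),
 (.br (nat_lit 13) (nat_lit 0) (.cons (.rf (nat_lit 2371) (nat_lit 493858305440582043680)) (.cons (.rf (nat_lit 2372) (nat_lit 493858305440582043680)) (.cons (.rf (nat_lit 2373) (nat_lit 493858305440582043680)) (.cons (.br (nat_lit 13) (nat_lit 0) (.cons (.rf (nat_lit 2371) (nat_lit 493858305440582043680)) (.cons (.zr (nat_lit 4740813230241889714177) (nat_lit 20440865928680199380617905831936) (nat_lit 5) (nat_lit 0)) (.cons (.rf (nat_lit 2373) (nat_lit 493858305440582043680)) .nil)))) .nil))))),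
 (.br (nat_lit 13) (nat_lit 0) (.cons (.rf (nat_lit 2374) (nat_lit 493858305440582043680)) (.cons (.rf (nat_lit 2289) (nat_lit 2672011586726638593)) (.cons (.br (nat_lit 5) (nat_lit 0) (.cons (.ev (nat_lit 163368488034300396143629084525582) (nat_lit 4)) .nil)) .nil)))),
 (.br (nat_lit 13) (nat_lit 0) (.cons (.rf (nat_lit 2374) (nat_lit 493858305440582043680)) (.cons (.rf (nat_lit 2289) (nat_lit 2672011586726638593)) (.cons (.rf (nat_lit 2289) (nat_lit 2744069112045089793)) .nil)))),
 (.br (nat_lit 13) (nat_lit 0) (.cons (.rf (nat_lit 2374) (nat_lit 493858305440582043680)) (.cons (.rf (nat_lit 2375) (nat_lit 493858305440582043680)) (.cons (.rf (nat_lit 2376) (nat_lit 493858305440582043680)) (.cons (.br (nat_lit 13) (nat_lit 0) (.cons (.rf (nat_lit 2374) (nat_lit 493858305440582043680)) (.cons (.rf (nat_lit 2375) (nat_lit 493858305440582043680)) (.cons (.rf (nat_lit 2289) (nat_lit 2744069112045089793)) .nil)))) .nil))))),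
 (.br (nat_lit 13) (nat_lit 0) (.cons (.rf (nat_lit 2374) (nat_lit 493858305440582043680)) (.cons (.rf (nat_lit 2377) (nat_lit 493858305440582043680)) (.cons (.br (nat_lit 13) (nat_lit 0) (.cons (.rf (nat_lit 2374) (nat_lit 493858305440582043680)) (.cons (.rf (nat_lit 2289) (nat_lit 2672011586726638593)) (.cons (.ev (nat_lit 20361948460101575721238694723584) (nat_lit 1)) .nil)))) (.cons (.br (nat_lit 13) (nat_lit 0) (.cons (.zr (nat_lit 4740813230241889714177) (nat_lit 20440865928680199380617905831936) (nat_lit 5) (nat_lit 0)) (.cons (.rf (nat_lit 2377) (nat_lit 493858305440582043680)) (.cons (.ev (nat_lit 20361948460101575721238694723584) (nat_lit 1)) .nil)))) .nil))))),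
 (.br (nat_lit 13) (nat_lit 0) (.cons (.rf (nat_lit 2374) (nat_lit 493858305440582043680)) (.cons (.rf (nat_lit 2377) (nat_lit 493858305440582043680)) (.cons (.rf (nat_lit 2378) (nat_lit 493858305440582043680)) (.cons (.br (nat_lit 13) (nat_lit 0) (.cons (.rf (nat_lit 2374) (nat_lit 493858305440582043680)) (.cons (.rf (nat_lit 2289) (nat_lit 2744069112045089793)) (.cons (.ev (nat_lit 20361948460101575721238694723584) (nat_lit 1)) .nil)))) .nil))))),
 (.br (nat_lit 1) (nat_lit 0) (.cons (.rf (nat_lit 2363) (nat_lit 14242959524133701664)) (.cons (.rf (nat_lit 2365) (nat_lit 14242959524133701664)) (.cons (.rf (nat_lit 2370) (nat_lit 14242959524133701664)) (.cons (.br (nat_lit 10) (nat_lit 0) (.cons (.zr (nat_lit 79229376162450716567357554688) (nat_lit 55340234420151910912) (nat_lit 5) (nat_lit 2)) (.cons (.br (nat_lit 5) (nat_lit 0) (.cons (.ev (nat_lit 79229371458603036469249441793) (nat_lit 1)) (.cons (.rf (nat_lit 2313) (nat_lit 469848187570208)) .nil))) (.cons (.ev (nat_lit 309485009821345073036591361)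 (nat_lit 1)) (.cons (.br (nat_lit 5) (nat_lit 0) (.cons (.rf (nat_lit 2312) (nat_lit 469848187570208)) (.cons (.rf (nat_lit 2314) (nat_lit 469745209018400)) (.cons (.br (nat_lit 7) (nat_lit 0) (.cons (.ev (nat_lit 1208925891673322724327681) (nat_lit 1)) (.cons (.br (nat_lit 11) (nat_lit 0) (.cons (.ev (nat_lit 475995203475180924830140990976) (nat_lit 3)) .nil)) .nil))) .nil)))) .nil))))) (.cons (.br (nat_lit 13) (nat_lit 0) (.cons (.rf (nat_lit 2374) (nat_lit 493858305440582043680)) (.cons (.rf (nat_lit 2377) (nat_lit 493858305440582043680)) (.cons (.rf (nat_lit 2378) (nat_lit 493858305440582043680)) (.cons (.rf (nat_lit 2379) (nat_lit 493858305440582043680)) (.cons (.br (nat_lit 13) (nat_lit 0) (.cons (.rf (nat_lit 2374) (nat_lit 493858305440582043680)) (.cons (.rf (nat_lit 2377) (nat_lit 493858305440582043680)) (.cons (.rf (nat_lit 2378) (nat_lit 493858305440582043680)) (.cons (.rf (nat_lit 2379) (nat_lit 493858305440582043680)) .nil))))) .nil)))))) .nil)))))),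
 (.br (nat_lit 1) (nat_lit 0) (.cons (.rf (nat_lit 2363) (nat_lit 14242959524133701664)) (.cons (.ev (nat_lit 79228167255149903610225099008) (nat_lit 1)) (.cons (.rf (nat_lit 2370) (nat_lit 14242959524133701664)) (.cons (.rf (nat_lit 2380) (nat_lit 14242959524133701664)) (.cons (.br (nat_lit 5) (nat_lit 0) (.cons (.rf (nat_lit 2330) (nat_lit 15037168322971680)) (.cons (.rf (nat_lit 2330) (nat_lit 15037271301523488)) (.cons (.br (nat_lit 7) (nat_lit 0) (.cons (.ev (nat_lit 79229376162522493785913425921) (nat_lit 1)) (.cons (.rf (nat_lit 2343) (nat_lit 469911639001120)) (.cons (.br (nat_lit 10) (nat_lit 0) (.cons (.ev (nat_lit 1208925891673322724327681) (nat_lit 1)) (.cons (.br (nat_lit 11) (nat_lit 0) (.cons (.ev (nat_lit 20282719088661492051594776150016) (nat_lit 1)) .nil)) .nil))) .nil)))) (.cons (.br (nat_lit 10) (nat_lit 0) (.cons (.zr (nat_lit 92234004046842691590) (nat_lit 4840425644941386411278848) (nat_lit 10) (nat_lit 5)) (.cons (.zr (nat_lit 4777707561714727256070) (nat_lit 4835703278458521061032448)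 (nat_lit 10) (nat_lit 5)) (.cons (.br (nat_lit 7) (nat_lit 0) (.cons (.br (nat_lit 11) (nat_lit 0) (.cons (.ev (nat_lit 20441179040467696307509557002499) (nat_lit 2)) .nil)) (.cons (.ev (nat_lit 1208925891673322724327681) (nat_lit 1)) .nil))) .nil)))) .nil))))) .nil)))))),
 (.br (nat_lit 12) (nat_lit 0) (.cons (.kr (nat_lit 158456325028528675191382867968) (nat_lit 4740813508418331475968) (nat_lit 4) (nat_lit 0)) (.cons (.ev (nat_lit 20361637766166007101709338345473) (nat_lit 1)) .nil))),
 (.br (nat_lit 11) (nat_lit 0) (.cons (.br (nat_lit 12) (nat_lit 0) (.cons (.ev (nat_lit 283956217589645263542253446237696) (nat_lit 4)) .nil)) (.cons (.zr (nat_lit 81129643273921792568666882703360) (nat_lit 1237940131807614693598562308) (nat_lit 10) (nat_lit 2)) .nil))),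
 (.br (nat_lit 11) (nat_lit 0) (.cons (.rf (nat_lit 2383) (nat_lit 493858305440582043680)) (.cons (.br (nat_lit 7) (nat_lit 0) (.cons (.ev (nat_lit 40644979451679940920649711747584) (nat_lit 2)) .nil)) .nil))),
 (.br (nat_lit 1) (nat_lit 0) (.cons (.br (nat_lit 11) (nat_lit 0) (.cons (.br (nat_lit 11) (nat_lit 0) (.cons (.rf (nat_lit 2382) (nat_lit 493858305440582043680)) (.cons (.kr (nat_lit 618974742153569670147342338) (nat_lit 40564821625173426821230890057728) (nat_lit 0) (nat_lit 1)) .nil))) (.cons (.rf (nat_lit 2382) (nat_lit 493858305440582043680)) (.cons (.br (nat_lit 11) (nat_lit 0) (.cons (.kr (nat_lit 618974742153569670147342338) (nat_lit 40564821625173426821230890057728) (nat_lit 0) (nat_lit 1)) (.cons (.rf (nat_lit 2382) (nat_lit 493858305440582043680)) .nil))) .nil)))) (.cons (.br (nat_lit 11) (nat_lit 0) (.cons (.rf (nat_lit 2383) (nat_lit 493858305440582043680)) (.cons (.rf (nat_lit 2384) (nat_lit 493858305440582043680)) (.cons (.br (nat_lit 11) (nat_lit 0) (.cons (.zr (nat_lit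 81129643273921792568666882703360) (nat_lit 1237940131807614693598562308) (nat_lit 10) (nat_lit 2)) (.cons (.rf (nat_lit 2384) (nat_lit 493858305440582043680)) .nil))) .nil)))) (.cons (.br (nat_lit 11) (nat_lit 0) (.cons (.br (nat_lit 10) (nat_lit 0) (.cons (.br (nat_lit 12) (nat_lit 0) (.cons (.ev (nat_lit 20361638975110273177842012455168) (nat_lit 1)) .nil)) (.cons (.ev (nat_lit 1208925891673322724327681) (nat_lit 1)) .nil))) (.cons (.ev (nat_lit 309485009821345073036591361) (nat_lit 1)) (.cons (.br (nat_lit 10) (nat_lit 0) (.cons (.br (nat_lit 12) (nat_lit 0) (.cons (.ev (nat_lit 79229376162522775265185169665) (nat_lit 1)) .nil)) (.cons (.kr (nat_lit 158456325028528675191382867968) (nat_lit 4740813508418331475968) (nat_lit 4) (nat_lit 0)) (.cons (.br (nat_lit 7) (nat_lit 0) (.cons (.ev (nat_lit 40644979451679940920649711747584) (nat_lit 2)) .nil)) .nil)))) (.cons (.ev (nat_lit 40566057152194121329150462788610) (nat_lit 3)) .nil))))) (.cons (.br (nat_lit 12) (nat_lit 0) (.cons (.br (nat_lit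 10) (nat_lit 0) (.cons (.ev (nat_lit 79231803514307541557279982339) (nat_lit 2)) (.cons (.ev (nat_lit 1208925891673322724327681) (nat_lit 1)) .nil))) (.cons (.br (nat_lit 7) (nat_lit 0) (.cons (.br (nat_lit 11) (nat_lit 0) (.cons (.ev (nat_lit 20441177831560323438053586633474) (nat_lit 2)) .nil)) (.cons (.ev (nat_lit 1208925891673322724327681) (nat_lit 1)) .nil))) (.cons (.br (nat_lit 7) (nat_lit 0) (.cons (.br (nat_lit 11) (nat_lit 0) (.cons (.ev (nat_lit 79850759311366154197317714177) (nat_lit 2)) .nil)) (.cons (.ev (nat_lit 79537647542532426740290093313) (nat_lit 1)) (.cons (.br (nat_lit 10) (nat_lit 0) (.cons (.ev (nat_lit 41041428545131346018829722453508) (nat_lit 3)) .nil)) .nil)))) (.cons (.rf (nat_lit 2311) (nat_lit 6028215822752789505)) .nil))))) .nil)))))]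

theorem c85 : chkAll C T R L85 (nat_lit 2361) = true := by decide +kernel

theorem l85 : (nat_lit 2361) + L85.length = (nat_lit 2386) := by decide +kernel

/-- part of the certificates -/
def L86 : List Prf := [(.br (nat_lit 5) (nat_lit 0) (.cons (.br (nat_lit 11) (nat_lit 0) (.cons (.zr (nat_lit 20440865928680199100246735847424) (nat_lit 310693935713580241907613953) (nat_lit 5) (nat_lit 7)) .nil)) (.cons (.ev (nat_lit 1208925891673322724327681) (nat_lit 1)) .nil))),
 (.br (nat_lit 5) (nat_lit 0) (.cons (.br (nat_lit 11) (nat_lit 0) (.cons (.zr (nat_lit 237684496987526259999194152960) (nat_lit 310693991053249513082847489) (nat_lit 5) (nat_lit 11)) .nil)) (.cons (.br (nat_lit 10) (nat_lit 0) (.cons (.ev (nat_lit 20441177831560323438053586633474) (nat_lit 2)) .nil)) (.cons (.br (nat_lit 10) (nat_lit 0) (.cons (.ev (nat_lit 122171066959738027718999594239488) (nat_lit 3)) .nil)) .nil)))),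
 (.br (nat_lit 1) (nat_lit 0) (.cons (.br (nat_lit 11) (nat_lit 0) (.cons (.ev (nat_lit 20282720297605758127718860324864) (nat_lit 1)) .nil)) (.cons (.br (nat_lit 10) (nat_lit 0) (.cons (.ev (nat_lit 20282720297605758127718860324864) (nat_lit 1)) .nil)) (.cons (.rf (nat_lit 2387) (nat_lit 493858305440582043680)) .nil)))),
 (.br (nat_lit 13) (nat_lit 0) (.cons (.rf (nat_lit 2385) (nat_lit 493858305440582043680)) (.cons (.br (nat_lit 12) (nat_lit 0) (.cons (.rf (nat_lit 2386) (nat_lit 493858305440582043680)) (.cons (.ev (nat_lit 20282409608374109246985439543296) (nat_lit 1)) (.cons (.br (nat_lit 12) (nat_lit 0) (.cons (.rf (nat_lit 2386) (nat_lit 493858305440582043680)) (.cons (.ev (nat_lit 20282409608374109246985439543296) (nat_lit 1)) .nil))) .nil)))) (.cons (.br (nat_lit 12) (nat_lit 0) (.cons (.rf (nat_lit 2387) (nat_lit 493858305440582043680)) (.cons (.rf (nat_lit 2388) (nat_lit 493858305440582043680)) (.cons (.br (nat_lit 12) (nat_lit 0) (.cons (.rf (nat_lit 2387) (nat_lit 493858305440582043680))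 (.cons (.rf (nat_lit 2388) (nat_lit 493858305440582043680)) (.cons (.kr (nat_lit 158456325028528675191382867968) (nat_lit 4740813508418331475968) (nat_lit 4) (nat_lit 0)) .nil)))) (.cons (.br (nat_lit 12) (nat_lit 0) (.cons (.rf (nat_lit 2387) (nat_lit 493858305440582043680)) (.cons (.rf (nat_lit 2388) (nat_lit 493858305440582043680)) (.cons (.kr (nat_lit 158456325028528675191382867968) (nat_lit 4740813508418331475968) (nat_lit 4) (nat_lit 0)) .nil)))) .nil))))) (.cons (.br (nat_lit 1) (nat_lit 0) (.cons (.br (nat_lit 10) (nat_lit 0) (.cons (.ev (nat_lit 1213666704900266079027456) (nat_lit 1)) (.cons (.ev (nat_lit 20282410812577562096174758953216) (nat_lit 1)) .nil))) (.cons (.br (nat_lit 11) (nat_lit 0) (.cons (.br (nat_lit 11) (nat_lit 0) (.cons (.ev (nat_lit 310698658007725142033039361) (nat_lit 1)) .nil)) (.cons (.br (nat_lit 5) (nat_lit 0) (.cons (.ev (nat_lit 310698658007725142033039361) (nat_lit 1)) .nil)) .nil))) (.cons (.br (nat_lit 10) (nat_lit 0) (.cons (.ev (nat_lit 20282409603670189226718822137856)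 (nat_lit 1)) (.cons (.ev (nat_lit 309489750634853487073100033) (nat_lit 1)) (.cons (.br (nat_lit 5) (nat_lit 0) (.cons (.ev (nat_lit 310698658007725142033039361) (nat_lit 1)) .nil)) .nil)))) (.cons (.rf (nat_lit 2311) (nat_lit 6028215822752789505)) .nil))))) .nil))))),
 (.br (nat_lit 13) (nat_lit 0) (.cons (.rf (nat_lit 2385) (nat_lit 493858305440582043680)) (.cons (.rf (nat_lit 2389) (nat_lit 493858305440582043680)) (.cons (.br (nat_lit 1) (nat_lit 0) (.cons (.br (nat_lit 7) (nat_lit 0) (.cons (.ev (nat_lit 1213666704900266079027456) (nat_lit 1)) (.cons (.br (nat_lit 11) (nat_lit 0) (.cons (.ev (nat_lit 40644979451679940920649711747584) (nat_lit 2)) .nil)) .nil))) (.cons (.br (nat_lit 12) (nat_lit 0) (.cons (.br (nat_lit 11) (nat_lit 0) (.cons (.ev (nat_lit 20361948464842388948182049554433) (nat_lit 1)) .nil)) (.cons (.br (nat_lit 5) (nat_lit 0) (.cons (.ev (nat_lit 20361948464842388948182049554433) (nat_lit 1)) .nil)) .nil))) (.cons (.rf (nat_lit 2283) (nat_lit 2497501496796873121)) (.cons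 (.br (nat_lit 5) (nat_lit 0) (.cons (.br (nat_lit 11) (nat_lit 0) (.cons (.zr (nat_lit 237684496987526259999194152960) (nat_lit 310693991053249513082847489) (nat_lit 5) (nat_lit 11)) .nil)) (.cons (.br (nat_lit 7) (nat_lit 0) (.cons (.zr (nat_lit 237684492265159495658867195904) (nat_lit 310693972606505439373295873) (nat_lit 5) (nat_lit 7)) .nil)) (.cons (.br (nat_lit 7) (nat_lit 0) (.cons (.ev (nat_lit 284591280829872737141106416681482) (nat_lit 4)) .nil)) .nil)))) .nil))))) (.cons (.br (nat_lit 1) (nat_lit 0) (.cons (.br (nat_lit 11) (nat_lit 0) (.cons (.ev (nat_lit 1213666704900266079027456) (nat_lit 1)) (.cons (.br (nat_lit 7) (nat_lit 0) (.cons (.ev (nat_lit 1213666704900266079027456) (nat_lit 1)) .nil)) .nil))) (.cons (.br (nat_lit 5) (nat_lit 0) (.cons (.br (nat_lit 11) (nat_lit 0) (.cons (.ev (nat_lit 318774400634008483606810722820) (nat_lit 3)) .nil)) (.cons (.ev (nat_lit 79231803514307260086598304514) (nat_lit 2)) .nil))) (.cons (.br (nat_lit 7) (nat_lit 0) (.cons (.ev (nat_lit 202824098459183523800730971537930)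 (nat_lit 4)) (.cons (.br (nat_lit 5) (nat_lit 0) (.cons (.ev (nat_lit 202826574339409092053083783563786) (nat_lit 4)) .nil)) (.cons (.ev (nat_lit 41198646930231849053660536504834) (nat_lit 4)) .nil)))) (.cons (.rf (nat_lit 2311) (nat_lit 6028215822752789505)) .nil))))) .nil))))),
 (.br (nat_lit 11) (nat_lit 0) (.cons (.ev (nat_lit 79229376162522493785913426176) (nat_lit 1)) .nil)),
 (.br (nat_lit 13) (nat_lit 0) (.cons (.rf (nat_lit 2385) (nat_lit 493858305440582043680)) (.cons (.rf (nat_lit 2389) (nat_lit 493858305440582043680)) (.cons (.rf (nat_lit 2390) (nat_lit 493858305440582043680)) (.cons (.br (nat_lit 1) (nat_lit 0) (.cons (.br (nat_lit 10) (nat_lit 0) (.cons (.br (nat_lit 11) (nat_lit 0) (.cons (.ev (nat_lit 79229371458603036469249442048) (nat_lit 1)) .nil)) (.cons (.ev (nat_lit 309485009821626543718269184) (nat_lit 1)) (.cons (.br (nat_lit 7) (nat_lit 0) (.cons (.ev (nat_lit 20361638975110273177842012455168) (nat_lit 1)) .nil)) .nil)))) (.cons (.br (nat_lit 10) (nat_lit 0) (.cons (.rf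 (nat_lit 2391) (nat_lit 493858305440582043680)) (.cons (.br (nat_lit 5) (nat_lit 0) (.cons (.ev (nat_lit 20361948464842388948182049554433) (nat_lit 1)) .nil)) (.cons (.ev (nat_lit 20282410812577562377645440631041) (nat_lit 1)) .nil)))) (.cons (.br (nat_lit 5) (nat_lit 0) (.cons (.rf (nat_lit 2391) (nat_lit 493854927841795344416)) (.cons (.ev (nat_lit 309485009821626543718269184) (nat_lit 1)) (.cons (.br (nat_lit 7) (nat_lit 0) (.cons (.ev (nat_lit 20282720297605758127718860324864) (nat_lit 1)) .nil)) .nil)))) (.cons (.br (nat_lit 7) (nat_lit 0) (.cons (.br (nat_lit 10) (nat_lit 0) (.cons (.ev (nat_lit 20361638975110273177842012455168) (nat_lit 1)) .nil)) (.cons (.ev (nat_lit 20282720297605758127718860324864) (nat_lit 1)) (.cons (.ev (nat_lit 79537652246452447006907498753) (nat_lit 1)) .nil)))) (.cons (.rf (nat_lit 2311) (nat_lit 6028215822752789505)) .nil)))))) .nil))))),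
 (.br (nat_lit 13) (nat_lit 0) (.cons (.rf (nat_lit 2385) (nat_lit 493858305440582043680)) (.cons (.rf (nat_lit 2389) (nat_lit 493858305440582043680)) (.cons (.rf (nat_lit 2390) (nat_lit 493858305440582043680)) (.cons (.rf (nat_lit 2392) (nat_lit 493858305440582043680)) (.cons (.br (nat_lit 13) (nat_lit 0) (.cons (.rf (nat_lit 2385) (nat_lit 493858305440582043680)) (.cons (.rf (nat_lit 2389) (nat_lit 493858305440582043680)) (.cons (.rf (nat_lit 2390) (nat_lit 493858305440582043680)) (.cons (.rf (nat_lit 2392) (nat_lit 493858305440582043680)) .nil))))) .nil)))))),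
 (.br (nat_lit 1) (nat_lit 0) (.cons (.br (nat_lit 12) (nat_lit 0) (.cons (.br (nat_lit 12) (nat_lit 0) (.cons (.ev (nat_lit 318779236338153326508461788686) (nat_lit 4)) .nil)) (.cons (.br (nat_lit 11) (nat_lit 0) (.cons (.ev (nat_lit 318779236338153326508461788686) (nat_lit 4)) .nil)) .nil))) (.cons (.br (nat_lit 12) (nat_lit 0) (.cons (.br (nat_lit 11) (nat_lit 0) (.cons (.ev (nat_lit 310693954087986346097442816) (nat_lit 1)) .nil)) (.cons (.zr (nat_lit 237684487542793575730585272577) (nat_lit 20282409613114850135959274520576) (nat_lit 5) (nat_lit 1)) .nil))) (.cons (.rf (nat_lit 2393) (nat_lit 493858305440582043680)) .nil)))),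
 (.br (nat_lit 10) (nat_lit 0) (.cons (.ev (nat_lit 79229371440083953322247127296) (nat_lit 1)) .nil)),
 (.br (nat_lit 9) (nat_lit 0) (.cons (.ev (nat_lit 79228167236702878061522125056) (nat_lit 1)) .nil)),
 (.br (nat_lit 13) (nat_lit 0) (.cons (.rf (nat_lit 2393) (nat_lit 493858305440582043680)) (.cons (.rf (nat_lit 2394) (nat_lit 493858305440582043680)) (.cons (.br (nat_lit 1) (nat_lit 0) (.cons (.rf (nat_lit 2395) (nat_lit 15433072009550071840)) (.cons (.rf (nat_lit 2396) (nat_lit 15433070910038444064)) (.cons (.ev (nat_lit 20361637766166007101709338345473) (nat_lit 1)) .nil)))) .nil)))),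
 (.br (nat_lit 13) (nat_lit 0) (.cons (.rf (nat_lit 2393) (nat_lit 493858305440582043680)) (.cons (.rf (nat_lit 2394) (nat_lit 493858305440582043680)) (.cons (.rf (nat_lit 2397) (nat_lit 493858305440582043680)) (.cons (.br (nat_lit 13) (nat_lit 0) (.cons (.rf (nat_lit 2393) (nat_lit 493858305440582043680)) (.cons (.rf (nat_lit 2394) (nat_lit 493858305440582043680)) (.cons (.rf (nat_lit 2397) (nat_lit 493858305440582043680)) .nil)))) .nil))))),
 (.br (nat_lit 11) (nat_lit 0) (.cons (.ev (nat_lit 79229371440083953322247127296) (nat_lit 1)) .nil)),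
 (.br (nat_lit 10) (nat_lit 0) (.cons (.br (nat_lit 10) (nat_lit 0) (.cons (.ev (nat_lit 79229371440083953322247127296) (nat_lit 1)) .nil)) (.cons (.br (nat_lit 10) (nat_lit 0) (.cons (.ev (nat_lit 79229371440083953322247127296) (nat_lit 1)) .nil)) .nil))),
 (.br (nat_lit 1) (nat_lit 0) (.cons (.rf (nat_lit 2398) (nat_lit 493858305440582043680)) (.cons (.br (nat_lit 11) (nat_lit 0) (.cons (.zr (nat_lit 309489732260167007384633600) (nat_lit 1208944266358707196002304) (nat_lit 5) (nat_lit 11)) (.cons (.ev (nat_lit 310698658007443671351361536) (nat_lit 1)) (.cons (.ev (nat_lit 309485009821345073036591361) (nat_lit 1)) .nil)))) (.cons (.br (nat_lit 7) (nat_lit 0) (.cons (.br (nat_lit 11) (nat_lit 0) (.cons (.zr (nat_lit 1246704751477616418226432) (nat_lit 80156617636178551823403057154) (nat_lit 15) (nat_lit 3)) (.cons (.rf (nat_lit 2399) (nat_lit 15433072009550071840)) .nil))) (.cons (.ev (nat_lit 79229376162522775265185169665) (nat_lit 1)) (.cons (.rf (nat_lit 2400) (nat_lit 15433072009550071840))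 .nil)))) (.cons (.rf (nat_lit 2393) (nat_lit 493858305440582043680)) .nil))))),
 (.br (nat_lit 10) (nat_lit 0) (.cons (.br (nat_lit 12) (nat_lit 0) (.cons (.ev (nat_lit 81605631200267115751409251780098) (nat_lit 3)) .nil)) (.cons (.br (nat_lit 11) (nat_lit 0) (.cons (.ev (nat_lit 20441177831560323438053586633474) (nat_lit 2)) .nil)) (.cons (.br (nat_lit 11) (nat_lit 0) (.cons (.ev (nat_lit 40724513477185756516190131586050) (nat_lit 3)) .nil)) .nil)))),
 (.br (nat_lit 12) (nat_lit 0) (.cons (.ev (nat_lit 20361638975110273177842012455168) (nat_lit 1)) .nil)),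
 (.br (nat_lit 7) (nat_lit 0) (.cons (.rf (nat_lit 2403) (nat_lit 493858305440582043680)) (.cons (.ev (nat_lit 79231803514307541557279982339) (nat_lit 2)) (.cons (.rf (nat_lit 2402) (nat_lit 493858305440582043680)) .nil)))),
 (.br (nat_lit 13) (nat_lit 0) (.cons (.rf (nat_lit 2402) (nat_lit 493858305440582043680)) (.cons (.rf (nat_lit 2404) (nat_lit 493858305440582043680)) (.cons (.br (nat_lit 7) (nat_lit 0) (.cons (.ev (nat_lit 40644048578743569197884130722051) (nat_lit 2)) .nil)) .nil)))),
 (.br (nat_lit 1) (nat_lit 0) (.cons (.rf (nat_lit 2398) (nat_lit 493858305440582043680)) (.cons (.rf (nat_lit 2401) (nat_lit 493858305440582043680)) (.cons (.br (nat_lit 13) (nat_lit 0) (.cons (.rf (nat_lit 2402) (nat_lit 493858305440582043680)) (.cons (.rf (nat_lit 2404) (nat_lit 493858305440582043680)) (.cons (.rf (nat_lit 2405) (nat_lit 493858305440582043680)) (.cons (.br (nat_lit 13) (nat_lit 0) (.cons (.rf (nat_lit 2402) (nat_lit 493858305440582043680)) (.cons (.zr (nat_lit 36893491445953986817) (nat_lit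 20440865928680199380617905831936) (nat_lit 5) (nat_lit 0)) (.cons (.rf (nat_lit 2405) (nat_lit 493858305440582043680)) .nil)))) .nil))))) (.cons (.rf (nat_lit 2393) (nat_lit 493858305440582043680)) .nil))))),
 (.br (nat_lit 1) (nat_lit 0) (.cons (.rf (nat_lit 2398) (nat_lit 493858305440582043680)) (.cons (.rf (nat_lit 2401) (nat_lit 493858305440582043680)) (.cons (.rf (nat_lit 2406) (nat_lit 493858305440582043680)) (.cons (.br (nat_lit 1) (nat_lit 0) (.cons (.rf (nat_lit 2398) (nat_lit 493858305440582043680)) (.cons (.rf (nat_lit 2401) (nat_lit 493858305440582043680)) (.cons (.rf (nat_lit 2406) (nat_lit 493858305440582043680)) (.cons (.rf (nat_lit 2393) (nat_lit 493858305440582043680)) .nil))))) (.cons (.rf (nat_lit 2393) (nat_lit 493858305440582043680)) .nil)))))),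
 (.br (nat_lit 1) (nat_lit 0) (.cons (.ev (nat_lit 1208925891954801995940096) (nat_lit 1)) (.cons (.br (nat_lit 11) (nat_lit 0) (.cons (.zr (nat_lit 20440865928680199100246735847424) (nat_lit 310693935713580241907613953) (nat_lit 5) (nat_lit 7)) .nil)) .nil))),
 (.br (nat_lit 1) (nat_lit 0) (.cons (.ev (nat_lit 1208925891954801995940096) (nat_lit 1)) (.cons (.br (nat_lit 5) (nat_lit 0) (.cons (.ev (nat_lit 79537647524085965241068814593) (nat_lit 1)) .nil)) .nil))),
 (.br (nat_lit 1) (nat_lit 0) (.cons (.ev (nat_lit 1213666704900266079027456) (nat_lit 1)) (.cons (.br (nat_lit 5) (nat_lit 0) (.cons (.ev (nat_lit 162417735576871816448792895160834) (nat_lit 4)) .nil)) .nil))),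
 (.br (nat_lit 13) (nat_lit 0) (.cons (.rf (nat_lit 2393) (nat_lit 493858305440582043680)) (.cons (.rf (nat_lit 2407) (nat_lit 493858305440582043680)) (.cons (.br (nat_lit 1) (nat_lit 0) (.cons (.rf (nat_lit 2408) (nat_lit 493858305440582043680)) (.cons (.rf (nat_lit 2409) (nat_lit 15395881028740548640)) (.cons (.br (nat_lit 1) (nat_lit 0) (.cons (.rf (nat_lit 2408) (nat_lit 493858305440582043680)) (.cons (.rf (nat_lit 2409) (nat_lit 15395881028740548640)) .nil))) .nil)))) (.cons (.br (nat_lit 1) (nat_lit 0) (.cons (.ev (nat_lit 20282409603670189226718822137856) (nat_lit 1)) (.cons (.rf (nat_lit 2410) (nat_lit 493858305440582043680)) (.cons (.br (nat_lit 1) (nat_lit 0) (.cons (.ev (nat_lit 20282409603670189226718822137856) (nat_lit 1)) (.cons (.rf (nat_lit 2410) (nat_lit 493858305440582043680)) .nil))) .nil)))) .nil))))),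
 (.br (nat_lit 10) (nat_lit 0) (.cons (.ev (nat_lit 310693954087986346097442816) (nat_lit 1)) .nil)),
 (.br (nat_lit 1) (nat_lit 0) (.cons (.br (nat_lit 11) (nat_lit 0) (.cons (.ev (nat_lit 310693954087986346097442816) (nat_lit 1)) .nil)) (.cons (.rf (nat_lit 2412) (nat_lit 493858305440582043680)) (.cons (.br (nat_lit 10) (nat_lit 0) (.cons (.zr (nat_lit 1856910059360415976576255488) (nat_lit 40564821629932687075921954340866) (nat_lit 10) (nat_lit 13)) .nil)) .nil)))),
 (.br (nat_lit 1) (nat_lit 0) (.cons (.rf (nat_lit 2413) (nat_lit 493858305440582043680)) (.cons (.ev (nat_lit 309489750634853487073100033) (nat_lit 1)) (.cons (.br (nat_lit 5) (nat_lit 0) (.cons (.zr (nat_lit 1856910059360415976576255488) (nat_lit 40564821629932687075921954340866) (nat_lit 10) (nat_lit 13)) .nil)) .nil))))]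

theorem c86 : chkAll C T R L86 (nat_lit 2386) = true := by decide +kernel

theorem l86 : (nat_lit 2386) + L86.length = (nat_lit 2415) := by decide +kernel

/-- part of the certificates -/
def L87 : List Prf := [(.br (nat_lit 1) (nat_lit 0) (.cons (.rf (nat_lit 2412) (nat_lit 493858305440582043680)) (.cons (.ev (nat_lit 309485009821345073036591361) (nat_lit 1)) (.cons (.br (nat_lit 5) (nat_lit 0) (.cons (.ev (nat_lit 20282719088661492051594776150273) (nat_lit 1)) .nil)) .nil)))),
 (.br (nat_lit 13) (nat_lit 0) (.cons (.rf (nat_lit 2393) (nat_lit 493858305440582043680)) (.cons (.rf (nat_lit 2407) (nat_lit 493858305440582043680)) (.cons (.rf (nat_lit 2411) (nat_lit 493858305440582043680)) (.cons (.br (nat_lit 1) (nat_lit 0) (.cons (.rf (nat_lit 2413) (nat_lit 493858305440582043680)) (.cons (.rf (nat_lit 2414) (nat_lit 493858305440582043680)) (.cons (.rf (nat_lit 2415) (nat_lit 493858305440582043680)) (.cons (.br (nat_lit 1) (nat_lit 0) (.cons (.rf (nat_lit 2413) (nat_lit 493858305440582043680))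 (.cons (.rf (nat_lit 2414) (nat_lit 493858305440582043680)) (.cons (.rf (nat_lit 2415) (nat_lit 493858305440582043680)) .nil)))) .nil))))) .nil))))),
 (.br (nat_lit 13) (nat_lit 0) (.cons (.rf (nat_lit 2393) (nat_lit 493858305440582043680)) (.cons (.rf (nat_lit 2407) (nat_lit 493858305440582043680)) (.cons (.rf (nat_lit 2411) (nat_lit 493858305440582043680)) (.cons (.rf (nat_lit 2416) (nat_lit 493858305440582043680)) (.cons (.br (nat_lit 13) (nat_lit 0) (.cons (.rf (nat_lit 2393) (nat_lit 493858305440582043680)) (.cons (.rf (nat_lit 2407) (nat_lit 493858305440582043680)) (.cons (.rf (nat_lit 2411) (nat_lit 493858305440582043680)) (.cons (.rf (nat_lit 2416) (nat_lit 493858305440582043680)) .nil))))) .nil)))))),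
 (.br (nat_lit 13) (nat_lit 0) (.cons (.rf (nat_lit 2393) (nat_lit 493858305440582043680)) (.cons (.rf (nat_lit 2407) (nat_lit 493858305440582043680)) (.cons (.rf (nat_lit 2417) (nat_lit 493858305440582043680)) (.cons (.br (nat_lit 5) (nat_lit 0) (.cons (.br (nat_lit 1) (nat_lit 0) (.cons (.br (nat_lit 11) (nat_lit 0) (.cons (.ev (nat_lit 318774400634009609523897172480) (nat_lit 3)) .nil)) (.cons (.br (nat_lit 7) (nat_lit 0) (.cons (.ev (nat_lit 122011377530263099883607266690560) (nat_lit 3)) .nil)) (.cons (.br (nat_lit 7) (nat_lit 0) (.cons (.ev (nat_lit 20361638975110273177842012455168) (nat_lit 1)) .nil)) .nil)))) (.cons (.ev (nat_lit 20282409608374108965514757865473) (nat_lit 1)) (.cons (.br (nat_lit 1) (nat_lit 0) (.cons (.br (nat_lit 1) (nat_lit 0) (.cons (.ev (nat_lit 81131500165109846974228661928452) (nat_lit 3)) .nil)) (.cons (.br (nat_lit 1) (nat_lit 0) (.cons (.ev (nat_lit 81131500165109846974228661928452) (nat_lit 3)) .nil)) .nil))) (.cons (.br (nat_lit 1) (nat_lit 0) (.cons (.br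 (nat_lit 1) (nat_lit 0) (.cons (.ev (nat_lit 20282719093402304997058859237633) (nat_lit 1)) .nil)) (.cons (.br (nat_lit 1) (nat_lit 0) (.cons (.ev (nat_lit 20282719093402304997058859237633) (nat_lit 1)) .nil)) .nil))) .nil))))) .nil))))),
 (.br (nat_lit 13) (nat_lit 0) (.cons (.rf (nat_lit 2393) (nat_lit 493858305440582043680)) (.cons (.rf (nat_lit 2407) (nat_lit 493858305440582043680)) (.cons (.rf (nat_lit 2417) (nat_lit 493858305440582043680)) (.cons (.rf (nat_lit 2418) (nat_lit 493858305440582043680)) (.cons (.br (nat_lit 13) (nat_lit 0) (.cons (.rf (nat_lit 2393) (nat_lit 493858305440582043680)) (.cons (.rf (nat_lit 2407) (nat_lit 493858305440582043680)) (.cons (.rf (nat_lit 2417) (nat_lit 493858305440582043680)) (.cons (.rf (nat_lit 2418) (nat_lit 493858305440582043680)) .nil))))) .nil)))))),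
 (.br (nat_lit 13) (nat_lit 0) (.cons (.rf (nat_lit 2393) (nat_lit 493858305440582043680)) (.cons (.rf (nat_lit 2407) (nat_lit 493858305440582043680)) (.cons (.rf (nat_lit 2417) (nat_lit 493858305440582043680)) (.cons (.rf (nat_lit 2419) (nat_lit 493858305440582043680)) (.cons (.br (nat_lit 13) (nat_lit 0) (.cons (.rf (nat_lit 2393) (nat_lit 493858305440582043680)) (.cons (.rf (nat_lit 2407) (nat_lit 493858305440582043680)) (.cons (.rf (nat_lit 2417) (nat_lit 493858305440582043680)) (.cons (.rf (nat_lit 2419) (nat_lit 493858305440582043680)) .nil))))) .nil)))))),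
 (.br (nat_lit 2) (nat_lit 0) (.cons (.rf (nat_lit 2161) (nat_lit 14242959524133701664)) (.cons (.rf (nat_lit 2311) (nat_lit 14242959524133701664)) (.cons (.br (nat_lit 10) (nat_lit 0) (.cons (.br (nat_lit 12) (nat_lit 0) (.cons (.rf (nat_lit 2316) (nat_lit 14242959524133701664)) (.cons (.rf (nat_lit 2320) (nat_lit 14242959524133701664)) (.cons (.rf (nat_lit 2322) (nat_lit 14242959524133701664)) (.cons (.rf (nat_lit 2326) (nat_lit 14242959524133701664)) (.cons (.br (nat_lit 12) (nat_lit 0) (.cons (.rf (nat_lit 2316) (nat_lit 14242959524133701664)) (.cons (.rf (nat_lit 2320) (nat_lit 14242959524133701664)) (.cons (.rf (nat_lit 2322) (nat_lit 14242959524133701664)) (.cons (.rf (nat_lit 2326) (nat_lit 14242959524133701664)) .nil))))) .nil)))))) (.cons (.br (nat_lit 1) (nat_lit 0) (.cons (.rf (nat_lit 2328) (nat_lit 14242959524133701664)) (.cons (.rf (nat_lit 2331) (nat_lit 14242959524133701664)) (.cons (.rf (nat_lit 2333) (nat_lit 14242959524133701664)) (.cons (.br (nat_lit 1) (nat_lit 0) (.cons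 (.rf (nat_lit 2330) (nat_lit 15066960397174816)) (.cons (.rf (nat_lit 2330) (nat_lit 15071358309468192)) (.cons (.rf (nat_lit 2333) (nat_lit 14242959524133701664)) .nil)))) .nil))))) (.cons (.br (nat_lit 1) (nat_lit 0) (.cons (.rf (nat_lit 2335) (nat_lit 14242959524133701664)) (.cons (.rf (nat_lit 2337) (nat_lit 14242959524133701664)) (.cons (.rf (nat_lit 2339) (nat_lit 14242959524133701664)) (.cons (.br (nat_lit 1) (nat_lit 0) (.cons (.rf (nat_lit 2335) (nat_lit 14242959524133701664)) (.cons (.rf (nat_lit 2336) (nat_lit 470979911452704)) (.cons (.rf (nat_lit 2339) (nat_lit 14242959524133701664)) .nil)))) .nil))))) (.cons (.ev (nat_lit 309485009821626543718268929) (nat_lit 1)) (.cons (.br (nat_lit 12) (nat_lit 0) (.cons (.br (nat_lit 1) (nat_lit 0) (.cons (.br (nat_lit 7) (nat_lit 0) (.cons (.ev (nat_lit 1213666704900266079027456) (nat_lit 1)) (.cons (.rf (nat_lit 2340) (nat_lit 470979911452704)) .nil))) (.cons (.br (nat_lit 5) (nat_lit 0) (.cons (.ev (nat_lit 79229376162522775265185169665) (nat_lit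 1)) (.cons (.rf (nat_lit 2341) (nat_lit 470979911452704)) .nil))) (.cons (.br (nat_lit 5) (nat_lit 0) (.cons (.ev (nat_lit 79229376162522493785913426176) (nat_lit 1)) (.cons (.rf (nat_lit 2341) (nat_lit 470842606716960)) .nil))) (.cons (.br (nat_lit 5) (nat_lit 0) (.cons (.rf (nat_lit 2332) (nat_lit 470942464706592)) (.cons (.rf (nat_lit 2332) (nat_lit 470946625456160)) (.cons (.br (nat_lit 7) (nat_lit 0) (.cons (.ev (nat_lit 1208925891673322724327681) (nat_lit 1)) (.cons (.br (nat_lit 11) (nat_lit 0) (.cons (.ev (nat_lit 20282720297605758409198132068353) (nat_lit 1)) .nil)) .nil))) .nil)))) .nil))))) (.cons (.br (nat_lit 1) (nat_lit 0) (.cons (.br (nat_lit 1) (nat_lit 0) (.cons (.ev (nat_lit 79229376162522493785913426176) (nat_lit 1)) (.cons (.rf (nat_lit 2343) (nat_lit 470979911452704)) .nil))) (.cons (.br (nat_lit 1) (nat_lit 0) (.cons (.ev (nat_lit 79229376162522493785913426176) (nat_lit 1)) (.cons (.rf (nat_lit 2343) (nat_lit 470979911452704)) .nil))) (.cons (.rf (nat_lit 2343) (nat_lit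 470979911452704)) .nil)))) (.cons (.kr (nat_lit 18446744073709551616) (nat_lit 79228162514264337593543950336) (nat_lit 8) (nat_lit 0)) (.cons (.kr (nat_lit 158456325028528675191382867968) (nat_lit 4740813508418331475968) (nat_lit 4) (nat_lit 0)) (.cons (.br (nat_lit 13) (nat_lit 0) (.cons (.rf (nat_lit 2345) (nat_lit 493858305440582043680)) (.cons (.rf (nat_lit 2346) (nat_lit 493858305440582043680)) (.cons (.rf (nat_lit 2347) (nat_lit 493858305440582043680)) (.cons (.br (nat_lit 13) (nat_lit 0) (.cons (.rf (nat_lit 2345) (nat_lit 493858305440582043680)) (.cons (.rf (nat_lit 2346) (nat_lit 493858305440582043680)) (.cons (.rf (nat_lit 2347) (nat_lit 493858305440582043680)) .nil)))) .nil))))) .nil)))))) (.cons (.br (nat_lit 13) (nat_lit 0) (.cons (.rf (nat_lit 2351) (nat_lit 493858305440582043680)) (.cons (.rf (nat_lit 2354) (nat_lit 493858305440582043680)) (.cons (.rf (nat_lit 2356) (nat_lit 493858305440582043680)) (.cons (.rf (nat_lit 2357) (nat_lit 493858305440582043680)) (.cons (.br (nat_lit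 13) (nat_lit 0) (.cons (.rf (nat_lit 2351) (nat_lit 493858305440582043680)) (.cons (.rf (nat_lit 2354) (nat_lit 493858305440582043680)) (.cons (.rf (nat_lit 2356) (nat_lit 493858305440582043680)) (.cons (.rf (nat_lit 2357) (nat_lit 493858305440582043680)) .nil))))) .nil)))))) .nil))))))) (.cons (.br (nat_lit 1) (nat_lit 0) (.cons (.rf (nat_lit 2363) (nat_lit 14242959524133701664)) (.cons (.rf (nat_lit 2365) (nat_lit 14242959524133701664)) (.cons (.rf (nat_lit 2370) (nat_lit 14242959524133701664)) (.cons (.rf (nat_lit 2380) (nat_lit 14242959524133701664)) (.cons (.rf (nat_lit 2381) (nat_lit 14242959524133701664)) (.cons (.br (nat_lit 1) (nat_lit 0) (.cons (.rf (nat_lit 2363) (nat_lit 14242959524133701664)) (.cons (.rf (nat_lit 2365) (nat_lit 14242959524133701664)) (.cons (.rf (nat_lit 2370) (nat_lit 14242959524133701664)) (.cons (.rf (nat_lit 2380) (nat_lit 14242959524133701664)) (.cons (.rf (nat_lit 2381) (nat_lit 14242959524133701664)) .nil)))))) .nil))))))) (.cons (.br (nat_lit 13) (nat_lit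 0) (.cons (.rf (nat_lit 2393) (nat_lit 493858305440582043680)) (.cons (.rf (nat_lit 2407) (nat_lit 493858305440582043680)) (.cons (.rf (nat_lit 2417) (nat_lit 493858305440582043680)) (.cons (.rf (nat_lit 2419) (nat_lit 493858305440582043680)) (.cons (.rf (nat_lit 2420) (nat_lit 493858305440582043680)) (.cons (.br (nat_lit 13) (nat_lit 0) (.cons (.rf (nat_lit 2393) (nat_lit 493858305440582043680)) (.cons (.rf (nat_lit 2407) (nat_lit 493858305440582043680)) (.cons (.rf (nat_lit 2417) (nat_lit 493858305440582043680)) (.cons (.rf (nat_lit 2419) (nat_lit 493858305440582043680)) (.cons (.rf (nat_lit 2420) (nat_lit 493858305440582043680)) .nil)))))) .nil))))))) .nil)))))),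
 (.br (nat_lit 11) (nat_lit 0) (.cons (.br (nat_lit 12) (nat_lit 0) (.cons (.ev (nat_lit 79537647542532708210971771136) (nat_lit 1)) (.cons (.rf (nat_lit 2334) (nat_lit 468816321677344)) .nil))) (.cons (.ev (nat_lit 310693954087986346097442816) (nat_lit 1)) (.cons (.kr (nat_lit 4740813508418331475970) (nat_lit 158456325028528675191382868480) (nat_lit 0) (nat_lit 2)) (.cons (.br (nat_lit 7) (nat_lit 0) (.cons (.rf (nat_lit 2340) (nat_lit 468812160927776)) (.cons (.kr (nat_lit 18446744073709551617) (nat_lit 79228162514264337593543950592) (nat_lit 0) (nat_lit 2)) (.cons (.br (nat_lit 10) (nat_lit 0) (.cons (.rf (nat_lit 2340) (nat_lit 468783035680800)) (.cons (.br (nat_lit 12) (nat_lit 0) (.cons (.ev (nat_lit 20441795592635555650993001661185) (nat_lit 2)) .nil)) .nil))) .nil)))) .nil))))),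
 (.br (nat_lit 9) (nat_lit 0) (.cons (.br (nat_lit 9) (nat_lit 0) .nil) .nil)),
 (.br (nat_lit 11) (nat_lit 0) (.cons (.ev (nat_lit 79229371458603036469249442048) (nat_lit 1)) (.cons (.ev (nat_lit 1864168465483848439413343232) (nat_lit 3)) .nil))),
 (.br (nat_lit 13) (nat_lit 0) (.cons (.ev (nat_lit 1864168465483848439413343232) (nat_lit 3)) (.cons (.br (nat_lit 1) (nat_lit 0) (.cons (.ev (nat_lit 1864168465483848439413343232) (nat_lit 3)) .nil)) .nil))),
 (.br (nat_lit 10) (nat_lit 0) (.cons (.rf (nat_lit 2422) (nat_lit 14242959524133701664)) (.cons (.ev (nat_lit 309485009821626543718268929) (nat_lit 1)) (.cons (.br (nat_lit 1) (nat_lit 0) (.cons (.zr (nat_lit 4840425645222869977792515) (nat_lit 309485083680385554670747648) (nat_lit 10) (nat_lit 3)) (.cons (.rf (nat_lit 2423) (nat_lit 470979911452704)) .nil))) (.cons (.br (nat_lit 13) (nat_lit 0) (.cons (.rf (nat_lit 2424) (nat_lit 493858305440582043680)) (.cons (.rf (nat_lit 2425) (nat_lit 493858305440582043680)) (.cons (.br (nat_lit 13) (nat_lit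 0) (.cons (.rf (nat_lit 2424) (nat_lit 493858305440582043680)) (.cons (.rf (nat_lit 2425) (nat_lit 493858305440582043680)) .nil))) .nil)))) .nil))))),
 (.br (nat_lit 7) (nat_lit 0) (.cons (.ev (nat_lit 79228167236702878061522125056) (nat_lit 1)) .nil)),
 (.br (nat_lit 1) (nat_lit 0) (.cons (.ev (nat_lit 18519083147036000256) (nat_lit 1)) (.cons (.rf (nat_lit 2422) (nat_lit 14242959524133701664)) (.cons (.kr (nat_lit 4740813508418331475970) (nat_lit 158456325028528675191382868480) (nat_lit 0) (nat_lit 2)) (.cons (.br (nat_lit 10) (nat_lit 0) (.cons (.rf (nat_lit 2423) (nat_lit 470979911452704)) (.cons (.ev (nat_lit 309485009821626543718268929) (nat_lit 1)) (.cons (.br (nat_lit 13) (nat_lit 0) (.cons (.rf (nat_lit 2421) (nat_lit 14242959524133712897)) (.cons (.rf (nat_lit 2427) (nat_lit 15433070910038444064)) .nil))) .nil)))) .nil))))),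
 (.br (nat_lit 10) (nat_lit 0) (.cons (.rf (nat_lit 2422) (nat_lit 14242959524133701664)) (.cons (.rf (nat_lit 2426) (nat_lit 14242959524133701664)) (.cons (.ev (nat_lit 309489750634572016391290881) (nat_lit 1)) (.cons (.rf (nat_lit 2428) (nat_lit 14242959524133701664)) (.cons (.br (nat_lit 10) (nat_lit 0) (.cons (.rf (nat_lit 2422) (nat_lit 14242959524133701664)) (.cons (.rf (nat_lit 2426) (nat_lit 14242959524133701664)) (.cons (.ev (nat_lit 309485009821626543718268929) (nat_lit 1)) (.cons (.rf (nat_lit 2428) (nat_lit 14242959524133701664)) .nil))))) .nil)))))),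
 (.br (nat_lit 6) (nat_lit 0) (.cons (.rf (nat_lit 2341) (nat_lit 432492809127968)) (.cons (.rf (nat_lit 2313) (nat_lit 432496969877536)) (.cons (.br (nat_lit 9) (nat_lit 0) (.cons (.rf (nat_lit 2341) (nat_lit 432326379145248)) (.cons (.br (nat_lit 11) (nat_lit 0) (.cons (.ev (nat_lit 79229376162522492686401798401) (nat_lit 1)) .nil)) .nil))) .nil)))),
 (.br (nat_lit 11) (nat_lit 0) (.cons (.kr (nat_lit 618984205333279483147321346) (nat_lit 475368975085586025574148604416) (nat_lit 0) (nat_lit 2)) (.cons (.br (nat_lit 12) (nat_lit 0) (.cons (.ev (nat_lit 159082553344334909302676653570) (nat_lit 3)) .nil)) .nil))),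
 (.br (nat_lit 7) (nat_lit 0) (.cons (.kr (nat_lit 309485046786890810181812225) (nat_lit 237684487542793294255608561920) (nat_lit 0) (nat_lit 2)) (.cons (.rf (nat_lit 2431) (nat_lit 493858305440582043680)) .nil))),
 (.br (nat_lit 11) (nat_lit 0) (.cons (.ev (nat_lit 1213666704900266079027201) (nat_lit 1)) (.cons (.kr (nat_lit 618984205333279483147321346) (nat_lit 475368975085586025574148604416) (nat_lit 0) (nat_lit 2)) (.cons (.ev (nat_lit 20282410817318375323118113652993) (nat_lit 1)) .nil)))),
 (.br (nat_lit 7) (nat_lit 0) (.cons (.ev (nat_lit 1213666704900266079027201) (nat_lit 1)) (.cons (.br (nat_lit 11) (nat_lit 0) (.cons (.ev (nat_lit 40565438182064229957167849931264) (nat_lit 3)) .nil)) (.cons (.rf (nat_lit 2433) (nat_lit 493858305440582043680)) .nil)))),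
 (.br (nat_lit 1) (nat_lit 0) (.cons (.rf (nat_lit 2429) (nat_lit 14242959524133701664)) (.cons (.ev (nat_lit 18519083147036000256) (nat_lit 1)) (.cons (.br (nat_lit 5) (nat_lit 0) (.cons (.br (nat_lit 10) (nat_lit 0) (.cons (.ev (nat_lit 478468665664931311569026025996) (nat_lit 4)) (.cons (.rf (nat_lit 2367) (nat_lit 470946625456160)) .nil))) (.cons (.rf (nat_lit 2366) (nat_lit 14208022542161119264)) (.cons (.kr (nat_lit 4740813508418331475970) (nat_lit 158456325028528675191382868480) (nat_lit 0) (nat_lit 2)) (.cons (.rf (nat_lit 2430) (nat_lit 15433072045018155040)) .nil))))) (.cons (.br (nat_lit 11) (nat_lit 0) (.cons (.br (nat_lit 7) (nat_lit 0) (.cons (.ev (nat_lit 79229376162522775265185169665) (nat_lit 1)) (.cons (.rf (nat_lit 2312) (nat_lit 468645730945056)) .nil))) (.cons (.ev (nat_lit 79537647542532426740290093313) (nat_lit 1)) (.cons (.ev (nat_lit 309485009821626543718268929) (nat_lit 1)) (.cons (.br (nat_lit 5) (nat_lit 0) (.cons (.rf (nat_lit 2312) (nat_lit 468783035680800)) (.cons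 (.rf (nat_lit 2314) (nat_lit 468645730945056)) (.cons (.br (nat_lit 7) (nat_lit 0) (.cons (.ev (nat_lit 1864168465484974356500317188) (nat_lit 3)) (.cons (.br (nat_lit 10) (nat_lit 0) (.cons (.ev (nat_lit 475995203475179798913054016000) (nat_lit 3)) .nil)) .nil))) .nil)))) .nil))))) (.cons (.br (nat_lit 10) (nat_lit 0) (.cons (.br (nat_lit 13) (nat_lit 0) (.cons (.rf (nat_lit 2431) (nat_lit 493858305440582043680)) (.cons (.rf (nat_lit 2432) (nat_lit 493858305440582043680)) (.cons (.br (nat_lit 13) (nat_lit 0) (.cons (.rf (nat_lit 2431) (nat_lit 493858305440582043680)) (.cons (.rf (nat_lit 2432) (nat_lit 493858305440582043680)) .nil))) .nil)))) (.cons (.br (nat_lit 5) (nat_lit 0) (.cons (.rf (nat_lit 2332) (nat_lit 468644690757664)) (.cons (.rf (nat_lit 2332) (nat_lit 468645730945056)) (.cons (.br (nat_lit 11) (nat_lit 0) (.cons (.ev (nat_lit 79538856449905298395250032896) (nat_lit 1)) (.cons (.br (nat_lit 12) (nat_lit 0) (.cons (.ev (nat_lit 20282410812596081179321828508416) (nat_lit 2)) .nil))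 .nil))) .nil)))) (.cons (.ev (nat_lit 309485009821626543718268929) (nat_lit 1)) (.cons (.br (nat_lit 5) (nat_lit 0) (.cons (.rf (nat_lit 2332) (nat_lit 468812160927776)) (.cons (.ev (nat_lit 310698658007725142033039361) (nat_lit 1)) (.cons (.br (nat_lit 13) (nat_lit 0) (.cons (.ev (nat_lit 158463583361442155074523759110) (nat_lit 3)) (.cons (.br (nat_lit 7) (nat_lit 0) (.cons (.ev (nat_lit 158463583361442155074523759110) (nat_lit 3)) .nil)) .nil))) .nil)))) (.cons (.br (nat_lit 13) (nat_lit 0) (.cons (.rf (nat_lit 2434) (nat_lit 493858305440582043680)) (.cons (.rf (nat_lit 2433) (nat_lit 493858305440582043680)) (.cons (.br (nat_lit 13) (nat_lit 0) (.cons (.rf (nat_lit 2434) (nat_lit 493858305440582043680)) (.cons (.ev (nat_lit 20282410817318375323118113652993) (nat_lit 1)) (.cons (.ev (nat_lit 20361948460101575721238694723584) (nat_lit 1)) .nil)))) (.cons (.br (nat_lit 13) (nat_lit 0) (.cons (.rf (nat_lit 2434) (nat_lit 493858305440582043680)) (.cons (.rf (nat_lit 2433) (nat_lit 493858305440582043680))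 (.cons (.ev (nat_lit 20361948460101575721238694723584) (nat_lit 1)) .nil)))) .nil))))) .nil)))))) .nil))))))]

theorem c87 : chkAll C T R L87 (nat_lit 2415) = true := by decide +kernel

theorem l87 : (nat_lit 2415) + L87.length = (nat_lit 2436) := by decide +kernel

/-- part of the certificates -/
def L88 : List Prf := [(.br (nat_lit 7) (nat_lit 0) (.cons (.ev (nat_lit 311902917017544483588473345) (nat_lit 2)) (.cons (.rf (nat_lit 2317) (nat_lit 468816321677344)) .nil))),
 (.br (nat_lit 5) (nat_lit 0) (.cons (.ev (nat_lit 311902917017544483588473345) (nat_lit 2)) (.cons (.br (nat_lit 13) (nat_lit 0) (.cons (.kr (nat_lit 309485028340147835983888640) (nat_lit 79229371440084233697712209920) (nat_lit 1) (nat_lit 0)) .nil)) .nil))),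
 (.br (nat_lit 7) (nat_lit 0) (.cons (.rf (nat_lit 2343) (nat_lit 432493883918368)) (.cons (.rf (nat_lit 2336) (nat_lit 432463718484000)) (.cons (.br (nat_lit 9) (nat_lit 0) (.cons (.rf (nat_lit 2343) (nat_lit 432463718484000)) (.cons (.br (nat_lit 11) (nat_lit 0) (.cons (.ev (nat_lit 79228167236702878061522125056) (nat_lit 1)) .nil)) .nil))) .nil)))),
 (.br (nat_lit 9) (nat_lit 0) (.cons (.ev (nat_lit 79228167236702878061522125056) (nat_lit 1)) .nil)),
 (.br (nat_lit 1) (nat_lit 0) (.cons (.rf (nat_lit 2429) (nat_lit 14242959524133701664)) (.cons (.ev (nat_lit 18519083147036000256) (nat_lit 1)) (.cons (.rf (nat_lit 2435) (nat_lit 14242959524133701664)) (.cons (.br (nat_lit 10) (nat_lit 0) (.cons (.rf (nat_lit 2436) (nat_lit 14242959524133701664)) (.cons (.rf (nat_lit 2437) (nat_lit 14242959524133701664)) (.cons (.br (nat_lit 10) (nat_lit 0) (.cons (.rf (nat_lit 2436) (nat_lit 14242959524133701664)) (.cons (.rf (nat_lit 2437) (nat_lit 14242959524133701664)) .nil))) .nil)))) (.cons (.br (nat_lit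 5) (nat_lit 0) (.cons (.rf (nat_lit 2330) (nat_lit 15000884506363936)) (.cons (.rf (nat_lit 2438) (nat_lit 15433070910038444064)) (.cons (.rf (nat_lit 2330) (nat_lit 15001056137283616)) (.cons (.br (nat_lit 7) (nat_lit 0) (.cons (.br (nat_lit 10) (nat_lit 0) (.cons (.ev (nat_lit 79538856449905298395250032896) (nat_lit 1)) (.cons (.br (nat_lit 12) (nat_lit 0) (.cons (.ev (nat_lit 40565128692331825674980945887235) (nat_lit 2)) .nil)) .nil))) (.cons (.rf (nat_lit 2336) (nat_lit 468783035680800)) (.cons (.br (nat_lit 12) (nat_lit 0) (.cons (.rf (nat_lit 2439) (nat_lit 15433070910038444064)) (.cons (.zr (nat_lit 237684487542793294259903594497) (nat_lit 20282409613114850135959274520576) (nat_lit 5) (nat_lit 2)) .nil))) .nil)))) .nil))))) .nil)))))),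
 (.br (nat_lit 1) (nat_lit 0) (.cons (.rf (nat_lit 2429) (nat_lit 14242959524133701664)) (.cons (.ev (nat_lit 18519083147036000256) (nat_lit 1)) (.cons (.rf (nat_lit 2435) (nat_lit 14242959524133701664)) (.cons (.rf (nat_lit 2440) (nat_lit 14242959524133701664)) (.cons (.br (nat_lit 5) (nat_lit 0) (.cons (.rf (nat_lit 2330) (nat_lit 15001983984437280)) (.cons (.rf (nat_lit 2438) (nat_lit 15398168012926322720)) (.cons (.rf (nat_lit 2330) (nat_lit 15002121289173024)) (.cons (.br (nat_lit 11) (nat_lit 0) (.cons (.rf (nat_lit 2336) (nat_lit 468816321677344)) (.cons (.ev (nat_lit 309485009821626543718268929) (nat_lit 1)) (.cons (.br (nat_lit 10) (nat_lit 0) (.cons (.br (nat_lit 10) (nat_lit 0) (.cons (.ev (nat_lit 20441795592635555088051638305539) (nat_lit 2)) .nil)) (.cons (.rf (nat_lit 2421) (nat_lit 6028215822752789505)) .nil))) .nil)))) .nil))))) .nil)))))),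
 (.br (nat_lit 12) (nat_lit 0) (.cons (.br (nat_lit 12) (nat_lit 0) (.cons (.ev (nat_lit 79538861190718806809286541313) (nat_lit 1)) (.cons (.rf (nat_lit 2321) (nat_lit 493858305440582043680)) .nil))) (.cons (.br (nat_lit 7) (nat_lit 0) (.cons (.ev (nat_lit 79538861190718806809286541313) (nat_lit 1)) (.cons (.br (nat_lit 12) (nat_lit 0) (.cons (.ev (nat_lit 20282409603670189226718822137856) (nat_lit 1)) .nil)) .nil))) (.cons (.br (nat_lit 7) (nat_lit 0) (.cons (.rf (nat_lit 2255) (nat_lit 2674197214821200897)) (.cons (.rf (nat_lit 2321) (nat_lit 493858305440582043680)) (.cons (.ev (nat_lit 20282409603670189226718822137856) (nat_lit 1)) .nil)))) .nil)))),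
 (.br (nat_lit 13) (nat_lit 0) (.cons (.rf (nat_lit 2442) (nat_lit 493858305440582043680)) (.cons (.br (nat_lit 13) (nat_lit 0) (.cons (.ev (nat_lit 20282410812577562377645440630784) (nat_lit 1)) (.cons (.ev (nat_lit 20282413244596373678255757131776) (nat_lit 2)) .nil))) (.cons (.br (nat_lit 13) (nat_lit 0) (.cons (.ev (nat_lit 20282409603670189226718822137856) (nat_lit 1)) (.cons (.ev (nat_lit 20282413244596373678255757131776) (nat_lit 2)) .nil))) .nil)))),
 (.br (nat_lit 13) (nat_lit 0) (.cons (.rf (nat_lit 2442) (nat_lit 493858305440582043680)) (.cons (.rf (nat_lit 2443) (nat_lit 493858305440582043680)) (.cons (.br (nat_lit 13) (nat_lit 0) (.cons (.rf (nat_lit 2442) (nat_lit 493858305440582043680)) (.cons (.ev (nat_lit 20282413244596373678255757131776) (nat_lit 2)) .nil))) .nil)))),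
 (.br (nat_lit 11) (nat_lit 0) (.cons (.ev (nat_lit 79229376162522492686401798144) (nat_lit 1)) .nil)),
 (.br (nat_lit 11) (nat_lit 0) (.cons (.ev (nat_lit 1864168465484974356500317188) (nat_lit 3)) (.cons (.rf (nat_lit 2445) (nat_lit 15433072045018155040)) .nil))),
 (.br (nat_lit 12) (nat_lit 0) (.cons (.ev (nat_lit 79538856449905579865931841536) (nat_lit 1)) (.cons (.kr (nat_lit 4722366482869645213696) (nat_lit 79228162514264337593543950336) (nat_lit 9) (nat_lit 0)) (.cons (.ev (nat_lit 79229376162522493785913425921) (nat_lit 1)) .nil)))),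
 (.br (nat_lit 5) (nat_lit 0) (.cons (.ev (nat_lit 1864168465484974356500317188) (nat_lit 3)) (.cons (.rf (nat_lit 2447) (nat_lit 493858305440582043680)) .nil))),
 (.br (nat_lit 12) (nat_lit 0) (.cons (.rf (nat_lit 2446) (nat_lit 493858305440582043680)) (.cons (.rf (nat_lit 2448) (nat_lit 493858305440582043680)) (.cons (.br (nat_lit 12) (nat_lit 0) (.cons (.rf (nat_lit 2446) (nat_lit 493858305440582043680)) (.cons (.rf (nat_lit 2448) (nat_lit 493858305440582043680)) .nil))) .nil)))),
 (.br (nat_lit 11) (nat_lit 0) (.cons (.ev (nat_lit 79538856449905579865931841536) (nat_lit 1)) (.cons (.br (nat_lit 12) (nat_lit 0) (.cons (.ev (nat_lit 20441486107644108710937561858050) (nat_lit 2)) .nil)) .nil))),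
 (.br (nat_lit 12) (nat_lit 0) (.cons (.rf (nat_lit 2450) (nat_lit 493858305440582043680)) (.cons (.rf (nat_lit 2447) (nat_lit 493858305440582043680)) (.cons (.br (nat_lit 12) (nat_lit 0) (.cons (.rf (nat_lit 2450) (nat_lit 493858305440582043680)) (.cons (.ev (nat_lit 79229371458603036469249441793) (nat_lit 1)) .nil))) .nil)))),
 (.br (nat_lit 13) (nat_lit 0) (.cons (.rf (nat_lit 2449) (nat_lit 493858305440582043680)) (.cons (.rf (nat_lit 2451) (nat_lit 493858305440582043680)) (.cons (.br (nat_lit 13) (nat_lit 0) (.cons (.ev (nat_lit 20282720297605758127718860324864) (nat_lit 1)) (.cons (.rf (nat_lit 2451) (nat_lit 493858305440582043680)) .nil))) .nil)))),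
 (.br (nat_lit 9) (nat_lit 0) (.cons (.br (nat_lit 9) (nat_lit 0) .nil) .nil)),
 (.br (nat_lit 9) (nat_lit 0) (.cons (.br (nat_lit 9) (nat_lit 0) .nil) .nil)),
 (.br (nat_lit 7) (nat_lit 0) (.cons (.ev (nat_lit 1213666704900266079027201) (nat_lit 1)) (.cons (.br (nat_lit 11) (nat_lit 0) (.cons (.ev (nat_lit 121695081432447977650726868485120) (nat_lit 3)) .nil)) (.cons (.br (nat_lit 11) (nat_lit 0) (.cons (.ev (nat_lit 794143375683569098696664681482) (nat_lit 4)) .nil)) .nil)))),
 (.br (nat_lit 10) (nat_lit 0) (.cons (.ev (nat_lit 79228167236702878061522124801) (nat_lit 1)) .nil)),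
 (.br (nat_lit 5) (nat_lit 0) (.cons (.ev (nat_lit 1213666704900266079027201) (nat_lit 1)) (.cons (.rf (nat_lit 2456) (nat_lit 15433070910038444064)) (.cons (.rf (nat_lit 2455) (nat_lit 493858305440582043680)) .nil)))),
 (.br (nat_lit 13) (nat_lit 0) (.cons (.rf (nat_lit 2455) (nat_lit 493858305440582043680)) (.cons (.rf (nat_lit 2457) (nat_lit 493858305440582043680)) (.cons (.br (nat_lit 13) (nat_lit 0) (.cons (.rf (nat_lit 2455) (nat_lit 493858305440582043680)) (.cons (.ev (nat_lit 20282410817318375604588795461633) (nat_lit 1)) (.cons (.ev (nat_lit 20361948464842389229661321166848) (nat_lit 1)) .nil)))) (.cons (.br (nat_lit 13) (nat_lit 0) (.cons (.rf (nat_lit 2455) (nat_lit 493858305440582043680)) (.cons (.rf (nat_lit 2457) (nat_lit 493858305440582043680)) (.cons (.ev (nat_lit 20361948464842389229661321166848) (nat_lit 1)) .nil)))) .nil))))),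
 (.br (nat_lit 12) (nat_lit 0) (.cons (.rf (nat_lit 2458) (nat_lit 493858305440582043680)) (.cons (.ev (nat_lit 79228167255149903610225098753) (nat_lit 1)) (.cons (.br (nat_lit 13) (nat_lit 0) (.cons (.br (nat_lit 7) (nat_lit 0) (.cons (.ev (nat_lit 20282409603670189226718822137856) (nat_lit 1)) .nil)) (.cons (.br (nat_lit 1) (nat_lit 0) (.cons (.ev (nat_lit 20282409603670189226718822137856) (nat_lit 1)) .nil)) .nil))) (.cons (.br (nat_lit 7) (nat_lit 0) (.cons (.ev (nat_lit 158463583361443280957250469892) (nat_lit 3)) (.cons (.ev (nat_lit 158458747731951803133503733760) (nat_lit 3)) (.cons (.ev (nat_lit 20282412021503454053175778279426) (nat_lit 2)) .nil)))) .nil))))),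
 (.br (nat_lit 12) (nat_lit 0) (.cons (.rf (nat_lit 2458) (nat_lit 493858305440582043680)) (.cons (.ev (nat_lit 79228167255149903610225098753) (nat_lit 1)) (.cons (.br (nat_lit 1) (nat_lit 0) (.cons (.ev (nat_lit 79538856449905579865931841536) (nat_lit 1)) (.cons (.br (nat_lit 5) (nat_lit 0) (.cons (.ev (nat_lit 40644979451679940920649711747584) (nat_lit 2)) .nil)) .nil))) (.cons (.br (nat_lit 13) (nat_lit 0) (.cons (.rf (nat_lit 2321) (nat_lit 493858305440582043680)) (.cons (.ev (nat_lit 40723277955035292081480982986752) (nat_lit 3)) (.cons (.ev (nat_lit 79537647542532708210971770881) (nat_lit 1)) .nil)))) .nil))))),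
 (.br (nat_lit 12) (nat_lit 0) (.cons (.rf (nat_lit 2458) (nat_lit 493858305440582043680)) (.cons (.rf (nat_lit 2459) (nat_lit 493858305440582043680)) (.cons (.rf (nat_lit 2460) (nat_lit 493858305440582043680)) (.cons (.br (nat_lit 1) (nat_lit 0) (.cons (.br (nat_lit 7) (nat_lit 0) (.cons (.ev (nat_lit 20282409603670189226718822137856) (nat_lit 1)) .nil)) (.cons (.br (nat_lit 5) (nat_lit 0) (.cons (.ev (nat_lit 475997621364003568033188152330) (nat_lit 4)) .nil)) (.cons (.br (nat_lit 5) (nat_lit 0) (.cons (.ev (nat_lit 40565128692331825956451627565570) (nat_lit 2)) .nil)) .nil)))) .nil))))),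
 (.br (nat_lit 10) (nat_lit 0) (.cons (.br (nat_lit 13) (nat_lit 0) (.cons (.rf (nat_lit 2442) (nat_lit 493858305440582043680)) (.cons (.rf (nat_lit 2443) (nat_lit 493858305440582043680)) (.cons (.rf (nat_lit 2444) (nat_lit 493858305440582043680)) (.cons (.br (nat_lit 13) (nat_lit 0) (.cons (.rf (nat_lit 2442) (nat_lit 493858305440582043680)) (.cons (.rf (nat_lit 2443) (nat_lit 493858305440582043680)) (.cons (.rf (nat_lit 2444) (nat_lit 493858305440582043680)) .nil)))) .nil))))) (.cons (.br (nat_lit 13) (nat_lit 0) (.cons (.rf (nat_lit 2449) (nat_lit 493858305440582043680)) (.cons (.rf (nat_lit 2451) (nat_lit 493858305440582043680)) (.cons (.rf (nat_lit 2452) (nat_lit 493858305440582043680)) (.cons (.br (nat_lit 13) (nat_lit 0) (.cons (.rf (nat_lit 2449) (nat_lit 493858305440582043680)) (.cons (.rf (nat_lit 2451) (nat_lit 493858305440582043680)) (.cons (.rf (nat_lit 2452) (nat_lit 493858305440582043680)) .nil)))) .nil))))) (.cons (.ev (nat_lit 309489750634572016391290881) (nat_lit 1)) (.cons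 (.br (nat_lit 11) (nat_lit 0) (.cons (.br (nat_lit 7) (nat_lit 0) (.cons (.rf (nat_lit 2453) (nat_lit 470979911452704)) (.cons (.kr (nat_lit 18446744073709551616) (nat_lit 79228162514264337593543950336) (nat_lit 8) (nat_lit 0)) (.cons (.br (nat_lit 5) (nat_lit 0) (.cons (.kr (nat_lit 2422592453300626667995138) (nat_lit 159075295048315482715931542528) (nat_lit 0) (nat_lit 13)) (.cons (.br (nat_lit 12) (nat_lit 0) (.cons (.ev (nat_lit 20282409608374108965514757865473) (nat_lit 1)) .nil)) .nil))) .nil)))) (.cons (.ev (nat_lit 310698658007725142033039361) (nat_lit 1)) (.cons (.br (nat_lit 5) (nat_lit 0) (.cons (.rf (nat_lit 2454) (nat_lit 470979911452704)) (.cons (.ev (nat_lit 1213666704900266079027201) (nat_lit 1)) (.cons (.br (nat_lit 13) (nat_lit 0) (.cons (.br (nat_lit 12) (nat_lit 0) (.cons (.ev (nat_lit 20361638979814192916637948051456) (nat_lit 1)) .nil)) (.cons (.br (nat_lit 1) (nat_lit 0) (.cons (.ev (nat_lit 20361638979814192916637948051456) (nat_lit 1)) .nil)) .nil))) .nil)))) (.cons (.kr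 (nat_lit 158456325028528675191382867968) (nat_lit 4740813508418331475968) (nat_lit 4) (nat_lit 0)) (.cons (.br (nat_lit 7) (nat_lit 0) (.cons (.br (nat_lit 5) (nat_lit 0) (.cons (.kr (nat_lit 2417906979742958783430658) (nat_lit 159075299770681965581281788928) (nat_lit 0) (nat_lit 13)) (.cons (.br (nat_lit 12) (nat_lit 0) (.cons (.ev (nat_lit 20361638979814192916637948051456) (nat_lit 1)) .nil)) .nil))) (.cons (.br (nat_lit 13) (nat_lit 0) (.cons (.br (nat_lit 12) (nat_lit 0) (.cons (.ev (nat_lit 20361638979814192916637948051456) (nat_lit 1)) .nil)) (.cons (.br (nat_lit 1) (nat_lit 0) (.cons (.ev (nat_lit 20361638979814192916637948051456) (nat_lit 1)) .nil)) .nil))) (.cons (.kr (nat_lit 18446744073709551616) (nat_lit 79228162514264337593543950336) (nat_lit 8) (nat_lit 0)) (.cons (.br (nat_lit 13) (nat_lit 0) (.cons (.ev (nat_lit 20282720297605758127718860324864) (nat_lit 1)) (.cons (.ev (nat_lit 20283651203635662469578652712966) (nat_lit 3)) (.cons (.br (nat_lit 1) (nat_lit 0) (.cons (.ev (nat_lit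 20441795592635555650993001660930) (nat_lit 2)) .nil)) .nil)))) .nil))))) .nil)))))) (.cons (.br (nat_lit 12) (nat_lit 0) (.cons (.rf (nat_lit 2458) (nat_lit 493858305440582043680)) (.cons (.rf (nat_lit 2459) (nat_lit 493858305440582043680)) (.cons (.rf (nat_lit 2460) (nat_lit 493858305440582043680)) (.cons (.rf (nat_lit 2461) (nat_lit 493858305440582043680)) (.cons (.br (nat_lit 12) (nat_lit 0) (.cons (.rf (nat_lit 2458) (nat_lit 493858305440582043680)) (.cons (.rf (nat_lit 2459) (nat_lit 493858305440582043680)) (.cons (.rf (nat_lit 2460) (nat_lit 493858305440582043680)) (.cons (.rf (nat_lit 2461) (nat_lit 493858305440582043680)) .nil))))) .nil)))))) .nil)))))),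
 (.br (nat_lit 1) (nat_lit 0) (.cons (.br (nat_lit 12) (nat_lit 0) (.cons (.ev (nat_lit 20441486117125734601865728032770) (nat_lit 2)) .nil)) .nil)),
 (.br (nat_lit 13) (nat_lit 0) (.cons (.rf (nat_lit 2463) (nat_lit 493858305440582043680)) (.cons (.br (nat_lit 12) (nat_lit 0) (.cons (.rf (nat_lit 2311) (nat_lit 6028215822752789505)) (.cons (.ev (nat_lit 79229376162522775265185169408) (nat_lit 1)) .nil))) .nil))),
 (.br (nat_lit 1) (nat_lit 0) (.cons (.br (nat_lit 1) (nat_lit 0) (.cons (.rf (nat_lit 2463) (nat_lit 493858305440582043680)) .nil)) (.cons (.rf (nat_lit 2463) (nat_lit 493858305440582043680)) .nil))),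
 (.br (nat_lit 13) (nat_lit 0) (.cons (.br (nat_lit 11) (nat_lit 0) (.cons (.ev (nat_lit 20361638979814192916637948051456) (nat_lit 1)) .nil)) (.cons (.br (nat_lit 1) (nat_lit 0) (.cons (.ev (nat_lit 20361638979814192916637948051456) (nat_lit 1)) .nil)) .nil))),
 (.br (nat_lit 7) (nat_lit 0) (.cons (.ev (nat_lit 20282409603670189226718822137856) (nat_lit 1)) .nil)),
 (.br (nat_lit 13) (nat_lit 0) (.cons (.br (nat_lit 12) (nat_lit 0) (.cons (.ev (nat_lit 159082553344336598161126982658) (nat_lit 3)) .nil)) (.cons (.br (nat_lit 11) (nat_lit 0) (.cons (.ev (nat_lit 159082553344336598161126982658) (nat_lit 3)) .nil)) .nil)))]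

theorem c88 : chkAll C T R L88 (nat_lit 2436) = true := by decide +kernel

theorem l88 : (nat_lit 2436) + L88.length = (nat_lit 2469) := by decide +kernel

/-- part of the certificates -/
def L89 : List Prf := [(.br (nat_lit 1) (nat_lit 0) (.cons (.rf (nat_lit 2468) (nat_lit 493858305440582043680)) (.cons (.br (nat_lit 12) (nat_lit 0) (.cons (.ev (nat_lit 477235561329790202440940129286) (nat_lit 4)) .nil)) .nil))),
 (.br (nat_lit 1) (nat_lit 0) (.cons (.ev (nat_lit 79537647542532708210971770881) (nat_lit 1)) (.cons (.br (nat_lit 12) (nat_lit 0) (.cons (.ev (nat_lit 121695083850262722263756081988610) (nat_lit 3)) .nil)) .nil))),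
 (.br (nat_lit 1) (nat_lit 0) (.cons (.ev (nat_lit 79537647542532708210971770881) (nat_lit 1)) (.cons (.br (nat_lit 11) (nat_lit 0) (.cons (.ev (nat_lit 40644978242698780507559493304835) (nat_lit 2)) .nil)) .nil))),
 (.br (nat_lit 1) (nat_lit 0) (.cons (.br (nat_lit 12) (nat_lit 0) (.cons (.ev (nat_lit 20283340490736838686060702597635) (nat_lit 2)) .nil)) (.cons (.ev (nat_lit 20282719088661491770115504537601) (nat_lit 1)) .nil))),
 (.br (nat_lit 11) (nat_lit 0) (.cons (.ev (nat_lit 20283338072848306529414487736835) (nat_lit 2)) .nil)),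
 (.br (nat_lit 10) (nat_lit 0) (.cons (.rf (nat_lit 2462) (nat_lit 493858305440582043680)) (.cons (.br (nat_lit 13) (nat_lit 0) (.cons (.rf (nat_lit 2464) (nat_lit 493858305440582043680)) (.cons (.rf (nat_lit 2465) (nat_lit 493858305440582043680)) (.cons (.br (nat_lit 13) (nat_lit 0) (.cons (.rf (nat_lit 2464) (nat_lit 493858305440582043680)) (.cons (.rf (nat_lit 2465) (nat_lit 493858305440582043680)) .nil))) .nil)))) (.cons (.ev (nat_lit 309485009821626543718268929) (nat_lit 1)) (.cons (.br (nat_lit 12) (nat_lit 0) (.cons (.kr (nat_lit 2417870086254807069229056) (nat_lit 158456329750895160260051337216) (nat_lit 3) (nat_lit 0)) (.cons (.kr (nat_lit 18446744073709551616) (nat_lit 79228162514264337593543950336) (nat_lit 8) (nat_lit 0)) (.cons (.kr (nat_lit 158456325028528675191382867968) (nat_lit 4740813508418331475968) (nat_lit 4) (nat_lit 0)) (.cons (.br (nat_lit 1) (nat_lit 0) (.cons (.rf (nat_lit 2466) (nat_lit 493858305440582043680)) (.cons (.br (nat_lit 1) (nat_lit 0) (.cons (.rf (nat_lit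 2466) (nat_lit 493858305440582043680)) (.cons (.rf (nat_lit 2467) (nat_lit 493858305440582043680)) .nil))) (.cons (.br (nat_lit 1) (nat_lit 0) (.cons (.rf (nat_lit 2466) (nat_lit 493858305440582043680)) (.cons (.rf (nat_lit 2467) (nat_lit 493858305440582043680)) .nil))) .nil)))) .nil))))) (.cons (.br (nat_lit 7) (nat_lit 0) (.cons (.br (nat_lit 12) (nat_lit 0) (.cons (.rf (nat_lit 2468) (nat_lit 493858305440582043680)) (.cons (.rf (nat_lit 2469) (nat_lit 493858305440582043680)) (.cons (.br (nat_lit 12) (nat_lit 0) (.cons (.rf (nat_lit 2468) (nat_lit 493858305440582043680)) (.cons (.rf (nat_lit 2469) (nat_lit 493858305440582043680)) .nil))) .nil)))) (.cons (.ev (nat_lit 1208925891673322724327424) (nat_lit 1)) (.cons (.br (nat_lit 1) (nat_lit 0) (.cons (.rf (nat_lit 2470) (nat_lit 493858305440582043680)) (.cons (.rf (nat_lit 2471) (nat_lit 493858305440582043680)) (.cons (.br (nat_lit 1) (nat_lit 0) (.cons (.rf (nat_lit 2470) (nat_lit 493858305440582043680)) (.cons (.rf (nat_lit 2471) (nat_lit 493858305440582043680))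 .nil))) .nil)))) (.cons (.br (nat_lit 1) (nat_lit 0) (.cons (.rf (nat_lit 2472) (nat_lit 493858305440582043680)) (.cons (.br (nat_lit 1) (nat_lit 0) (.cons (.rf (nat_lit 2472) (nat_lit 493858305440582043680)) (.cons (.rf (nat_lit 2473) (nat_lit 493858305440582043680)) .nil))) (.cons (.br (nat_lit 1) (nat_lit 0) (.cons (.ev (nat_lit 20282719088661491770115504537601) (nat_lit 1)) (.cons (.rf (nat_lit 2473) (nat_lit 493858305440582043680)) .nil))) .nil)))) .nil))))) .nil)))))),
 (.br (nat_lit 13) (nat_lit 0) (.cons (.br (nat_lit 12) (nat_lit 0) (.cons (.ev (nat_lit 318157848465860905349234688002) (nat_lit 3)) .nil)) (.cons (.br (nat_lit 5) (nat_lit 0) (.cons (.ev (nat_lit 318157848465860905349234688002) (nat_lit 3)) .nil)) .nil))),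
 (.br (nat_lit 13) (nat_lit 0) (.cons (.br (nat_lit 12) (nat_lit 0) (.cons (.ev (nat_lit 20282410812577562096174758952961) (nat_lit 1)) .nil)) (.cons (.br (nat_lit 1) (nat_lit 0) (.cons (.ev (nat_lit 20282410812577562096174758952961) (nat_lit 1)) .nil)) .nil))),
 (.br (nat_lit 5) (nat_lit 0) (.cons (.rf (nat_lit 2476) (nat_lit 493858305440582043680)) (.cons (.ev (nat_lit 318157848465860905349234688002) (nat_lit 3)) .nil))),
 (.br (nat_lit 11) (nat_lit 0) (.cons (.ev (nat_lit 79538856449905579865931841536) (nat_lit 1)) (.cons (.br (nat_lit 12) (nat_lit 0) (.cons (.zr (nat_lit 20283028573671457230372288331777) (nat_lit 79229371440084515172688920576) (nat_lit 5) (nat_lit 2)) .nil)) .nil))),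
 (.br (nat_lit 12) (nat_lit 0) (.cons (.rf (nat_lit 2478) (nat_lit 493858305440582043680)) (.cons (.br (nat_lit 12) (nat_lit 0) (.cons (.ev (nat_lit 79538856449905579865931841536) (nat_lit 1)) (.cons (.ev (nat_lit 79229371458603036469249441793) (nat_lit 1)) .nil))) (.cons (.br (nat_lit 12) (nat_lit 0) (.cons (.rf (nat_lit 2478) (nat_lit 493858305440582043680)) (.cons (.ev (nat_lit 79229371458603036469249441793) (nat_lit 1)) .nil))) .nil)))),
 (.br (nat_lit 1) (nat_lit 0) (.cons (.rf (nat_lit 2479) (nat_lit 493858305440582043680)) (.cons (.br (nat_lit 5) (nat_lit 0) (.cons (.ev (nat_lit 316919908353077905055555911682) (nat_lit 3)) (.cons (.br (nat_lit 12) (nat_lit 0) (.cons (.ev (nat_lit 20520403576241395006775639605760) (nat_lit 2)) .nil)) .nil))) (.cons (.br (nat_lit 13) (nat_lit 0) (.cons (.ev (nat_lit 81130259807329891061730126332928) (nat_lit 3)) (.cons (.zr (nat_lit 309485028340428211448972032) (nat_lit 20282412021503309653205634252801) (nat_lit 5) (nat_lit 11)) .nil))) .nil)))),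
 (.br (nat_lit 1) (nat_lit 0) (.cons (.rf (nat_lit 2478) (nat_lit 493858305440582043680)) (.cons (.rf (nat_lit 2480) (nat_lit 493858305440582043680)) (.cons (.br (nat_lit 12) (nat_lit 0) (.cons (.ev (nat_lit 316919908353077905055555911682) (nat_lit 3)) (.cons (.br (nat_lit 5) (nat_lit 0) (.cons (.ev (nat_lit 79229371458603036469249441793) (nat_lit 1)) .nil)) (.cons (.rf (nat_lit 2311) (nat_lit 6028215822752789505)) .nil)))) .nil)))),
 (.br (nat_lit 10) (nat_lit 0) (.cons (.rf (nat_lit 2462) (nat_lit 493858305440582043680)) (.cons (.rf (nat_lit 2474) (nat_lit 493858305440582043680)) (.cons (.ev (nat_lit 309485009821626543718268929) (nat_lit 1)) (.cons (.br (nat_lit 11) (nat_lit 0) (.cons (.br (nat_lit 13) (nat_lit 0) (.cons (.rf (nat_lit 2475) (nat_lit 493858305440582043680)) (.cons (.br (nat_lit 13) (nat_lit 0) (.cons (.rf (nat_lit 2475) (nat_lit 493858305440582043680)) (.cons (.ev (nat_lit 318157848465860905349234688002) (nat_lit 3)) .nil))) (.cons (.br (nat_lit 13) (nat_lit 0) (.cons (.rf (nat_lit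 2475) (nat_lit 493858305440582043680)) (.cons (.ev (nat_lit 318157848465860905349234688002) (nat_lit 3)) .nil))) .nil)))) (.cons (.br (nat_lit 1) (nat_lit 0) (.cons (.ev (nat_lit 79538856449905298395250032641) (nat_lit 1)) (.cons (.br (nat_lit 1) (nat_lit 0) (.cons (.ev (nat_lit 79538861190718806809286541313) (nat_lit 1)) .nil)) .nil))) (.cons (.kr (nat_lit 158456325028528675191382867968) (nat_lit 4740813508418331475968) (nat_lit 4) (nat_lit 0)) (.cons (.br (nat_lit 1) (nat_lit 0) (.cons (.rf (nat_lit 2476) (nat_lit 493858305440582043680)) (.cons (.rf (nat_lit 2477) (nat_lit 493858305440582043680)) (.cons (.br (nat_lit 1) (nat_lit 0) (.cons (.rf (nat_lit 2476) (nat_lit 493858305440582043680)) (.cons (.rf (nat_lit 2477) (nat_lit 493858305440582043680)) .nil))) .nil)))) .nil))))) (.cons (.br (nat_lit 1) (nat_lit 0) (.cons (.rf (nat_lit 2479) (nat_lit 493858305440582043680)) (.cons (.rf (nat_lit 2480) (nat_lit 493858305440582043680)) (.cons (.rf (nat_lit 2481) (nat_lit 493858305440582043680)) (.cons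 (.br (nat_lit 1) (nat_lit 0) (.cons (.rf (nat_lit 2479) (nat_lit 493858305440582043680)) (.cons (.rf (nat_lit 2480) (nat_lit 493858305440582043680)) (.cons (.rf (nat_lit 2481) (nat_lit 493858305440582043680)) .nil)))) .nil))))) .nil)))))),
 (.br (nat_lit 11) (nat_lit 0) (.cons (.br (nat_lit 7) (nat_lit 0) (.cons (.zr (nat_lit 237684496987526259999194152960) (nat_lit 310693991053249513082847489) (nat_lit 5) (nat_lit 11)) .nil)) (.cons (.br (nat_lit 5) (nat_lit 0) (.cons (.ev (nat_lit 20282719093402304997058859237376) (nat_lit 1)) .nil)) (.cons (.rf (nat_lit 2421) (nat_lit 6028215822752789505)) .nil)))),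
 (.br (nat_lit 13) (nat_lit 0) (.cons (.rf (nat_lit 2483) (nat_lit 493858305440582043680)) (.cons (.br (nat_lit 1) (nat_lit 0) (.cons (.ev (nat_lit 20282719093402304997058859237376) (nat_lit 1)) .nil)) (.cons (.ev (nat_lit 20361948460101576002717966467073) (nat_lit 1)) .nil)))),
 (.br (nat_lit 13) (nat_lit 0) (.cons (.rf (nat_lit 2483) (nat_lit 493858305440582043680)) (.cons (.rf (nat_lit 2484) (nat_lit 493858305440582043680)) (.cons (.br (nat_lit 1) (nat_lit 0) (.cons (.zr (nat_lit 237684496987526259999194152960) (nat_lit 310693991053249513082847489) (nat_lit 5) (nat_lit 11)) .nil)) .nil)))),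
 (.br (nat_lit 13) (nat_lit 0) (.cons (.br (nat_lit 11) (nat_lit 0) (.cons (.ev (nat_lit 20361948464842388948182049554433) (nat_lit 1)) .nil)) (.cons (.br (nat_lit 1) (nat_lit 0) (.cons (.ev (nat_lit 20361948464842388948182049554433) (nat_lit 1)) .nil)) .nil))),
 (.br (nat_lit 1) (nat_lit 0) (.cons (.rf (nat_lit 2486) (nat_lit 493858305440582043680)) (.cons (.rf (nat_lit 2467) (nat_lit 491554714231182034976)) .nil))),
 (.br (nat_lit 7) (nat_lit 0) (.cons (.br (nat_lit 11) (nat_lit 0) (.cons (.ev (nat_lit 20361638975110273177842012454913) (nat_lit 1)) .nil)) (.cons (.br (nat_lit 1) (nat_lit 0) (.cons (.ev (nat_lit 20361638975110273177842012454913) (nat_lit 1)) .nil)) (.cons (.ev (nat_lit 20282409603670189226718822137856) (nat_lit 1)) .nil)))),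
 (.br (nat_lit 5) (nat_lit 0) (.cons (.rf (nat_lit 2488) (nat_lit 493858305440582043680)) (.cons (.br (nat_lit 1) (nat_lit 0) (.cons (.ev (nat_lit 41201739362330413601443390030848) (nat_lit 4)) .nil)) (.cons (.ev (nat_lit 81288101997968123292303032188930) (nat_lit 3)) .nil)))),
 (.br (nat_lit 5) (nat_lit 0) (.cons (.rf (nat_lit 2488) (nat_lit 493858305440582043680)) (.cons (.ev (nat_lit 1245198335016578680220680194) (nat_lit 3)) (.cons (.ev (nat_lit 476614173457496092388903485442) (nat_lit 3)) .nil)))),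
 (.br (nat_lit 10) (nat_lit 0) (.cons (.rf (nat_lit 2462) (nat_lit 493858305440582043680)) (.cons (.rf (nat_lit 2474) (nat_lit 493858305440582043680)) (.cons (.rf (nat_lit 2482) (nat_lit 493858305440582043680)) (.cons (.ev (nat_lit 309485009821626543718268929) (nat_lit 1)) (.cons (.br (nat_lit 12) (nat_lit 0) (.cons (.br (nat_lit 13) (nat_lit 0) (.cons (.rf (nat_lit 2483) (nat_lit 493858305440582043680)) (.cons (.rf (nat_lit 2484) (nat_lit 493858305440582043680)) (.cons (.rf (nat_lit 2485) (nat_lit 493858305440582043680)) (.cons (.br (nat_lit 13) (nat_lit 0) (.cons (.rf (nat_lit 2421) (nat_lit 6028215822752789505)) (.cons (.ev (nat_lit 20361948460101576002717966467073) (nat_lit 1)) (.cons (.rf (nat_lit 2485) (nat_lit 493858305440582043680)) .nil)))) .nil))))) (.cons (.br (nat_lit 1) (nat_lit 0) (.cons (.rf (nat_lit 2486) (nat_lit 493858305440582043680)) (.cons (.rf (nat_lit 2487) (nat_lit 493858305440582043680)) (.cons (.br (nat_lit 1) (nat_lit 0) (.cons (.rf (nat_lit 2486) (nat_lit 493858305440582043680))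 (.cons (.rf (nat_lit 2467) (nat_lit 491554714231182034976)) .nil))) .nil)))) (.cons (.kr (nat_lit 18446744073709551616) (nat_lit 79228162514264337593543950336) (nat_lit 8) (nat_lit 0)) (.cons (.kr (nat_lit 158456325028528675191382867968) (nat_lit 4740813508418331475968) (nat_lit 4) (nat_lit 0)) (.cons (.br (nat_lit 1) (nat_lit 0) (.cons (.rf (nat_lit 2488) (nat_lit 493858305440582043680)) (.cons (.rf (nat_lit 2489) (nat_lit 493858305440582043680)) (.cons (.rf (nat_lit 2490) (nat_lit 493858305440582043680)) (.cons (.br (nat_lit 1) (nat_lit 0) (.cons (.rf (nat_lit 2488) (nat_lit 493858305440582043680)) (.cons (.rf (nat_lit 2489) (nat_lit 493858305440582043680)) (.cons (.rf (nat_lit 2490) (nat_lit 493858305440582043680)) .nil)))) .nil))))) .nil)))))) .nil)))))),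
 (.br (nat_lit 2) (nat_lit 0) (.cons (.rf (nat_lit 2161) (nat_lit 14242959524133701664)) (.cons (.rf (nat_lit 2311) (nat_lit 14242959524133701664)) (.cons (.rf (nat_lit 2421) (nat_lit 14242959524133701664)) (.cons (.br (nat_lit 1) (nat_lit 0) (.cons (.rf (nat_lit 2429) (nat_lit 14242959524133701664)) (.cons (.ev (nat_lit 18519083147036000256) (nat_lit 1)) (.cons (.rf (nat_lit 2435) (nat_lit 14242959524133701664)) (.cons (.rf (nat_lit 2440) (nat_lit 14242959524133701664)) (.cons (.rf (nat_lit 2441) (nat_lit 14242959524133701664)) (.cons (.br (nat_lit 1) (nat_lit 0) (.cons (.rf (nat_lit 2429) (nat_lit 14242959524133701664)) (.cons (.ev (nat_lit 18519083147036000256) (nat_lit 1)) (.cons (.rf (nat_lit 2435) (nat_lit 14242959524133701664)) (.cons (.rf (nat_lit 2440) (nat_lit 14242959524133701664)) (.cons (.rf (nat_lit 2441) (nat_lit 14242959524133701664)) .nil)))))) .nil))))))) (.cons (.br (nat_lit 10) (nat_lit 0) (.cons (.rf (nat_lit 2462) (nat_lit 493858305440582043680)) (.cons (.rf (nat_lit 2474)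 (nat_lit 493858305440582043680)) (.cons (.rf (nat_lit 2482) (nat_lit 493858305440582043680)) (.cons (.ev (nat_lit 309485009821626543718268929) (nat_lit 1)) (.cons (.rf (nat_lit 2491) (nat_lit 493858305440582043680)) (.cons (.br (nat_lit 10) (nat_lit 0) (.cons (.rf (nat_lit 2462) (nat_lit 493858305440582043680)) (.cons (.rf (nat_lit 2474) (nat_lit 493858305440582043680)) (.cons (.rf (nat_lit 2482) (nat_lit 493858305440582043680)) (.cons (.ev (nat_lit 309485009821626543718268929) (nat_lit 1)) (.cons (.rf (nat_lit 2491) (nat_lit 493858305440582043680)) .nil)))))) .nil))))))) .nil)))))),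
 (.br (nat_lit 11) (nat_lit 0) (.cons (.ev (nat_lit 20361947251175972843441132601856) (nat_lit 2)) .nil)),
 (.br (nat_lit 11) (nat_lit 0) (.cons (.rf (nat_lit 2493) (nat_lit 493858305440582043680)) (.cons (.br (nat_lit 10) (nat_lit 0) (.cons (.ev (nat_lit 20361947251175972843441132601856) (nat_lit 2)) .nil)) .nil))),
 (.br (nat_lit 11) (nat_lit 0) (.cons (.br (nat_lit 10) (nat_lit 0) (.cons (.ev (nat_lit 79229371458602754989977829633) (nat_lit 1)) .nil)) (.cons (.rf (nat_lit 2256) (nat_lit 2674197215893894145)) .nil))),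
 (.br (nat_lit 1) (nat_lit 0) (.cons (.br (nat_lit 10) (nat_lit 0) (.cons (.br (nat_lit 10) (nat_lit 0) (.cons (.rf (nat_lit 2494) (nat_lit 493858305440582043680)) (.cons (.ev (nat_lit 1213666704900266079027201) (nat_lit 1)) .nil))) (.cons (.rf (nat_lit 2494) (nat_lit 493858305440582043680)) (.cons (.br (nat_lit 10) (nat_lit 0) (.cons (.ev (nat_lit 1213666704900266079027201) (nat_lit 1)) (.cons (.rf (nat_lit 2494) (nat_lit 493858305440582043680)) .nil))) .nil)))) (.cons (.br (nat_lit 7) (nat_lit 0) (.cons (.br (nat_lit 13) (nat_lit 0) (.cons (.ev (nat_lit 121694462462465083207640265261062) (nat_lit 3)) (.cons (.ev (nat_lit 20361637766166006820238656536833) (nat_lit 1)) .nil))) (.cons (.br (nat_lit 10) (nat_lit 0) (.cons (.br (nat_lit 12) (nat_lit 0) (.cons (.ev (nat_lit 20282720297605758127718860325121) (nat_lit 1)) .nil)) (.cons (.ev (nat_lit 158463583361442155074523759110) (nat_lit 3)) (.cons (.ev (nat_lit 1213666704900266079027201) (nat_lit 1)) .nil)))) (.cons (.br (nat_lit 11) (nat_lit 0)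 (.cons (.br (nat_lit 11) (nat_lit 0) (.cons (.ev (nat_lit 40881731862212181529608711046150) (nat_lit 3)) .nil)) (.cons (.ev (nat_lit 40881731862212181529608711046150) (nat_lit 3)) .nil))) (.cons (.rf (nat_lit 2492) (nat_lit 14208022404722295885)) .nil))))) (.cons (.br (nat_lit 7) (nat_lit 0) (.cons (.br (nat_lit 11) (nat_lit 0) (.cons (.br (nat_lit 12) (nat_lit 0) (.cons (.ev (nat_lit 81129645672976488105263363391490) (nat_lit 3)) .nil)) (.cons (.ev (nat_lit 309485009821345073036591361) (nat_lit 1)) (.cons (.br (nat_lit 10) (nat_lit 0) (.cons (.ev (nat_lit 20362568639047110086897891868672) (nat_lit 2)) .nil)) .nil)))) (.cons (.br (nat_lit 12) (nat_lit 0) (.cons (.br (nat_lit 10) (nat_lit 0) (.cons (.ev (nat_lit 20361638975110273177842012455168) (nat_lit 1)) .nil)) (.cons (.ev (nat_lit 20282719088661491770115504537856) (nat_lit 1)) .nil))) (.cons (.rf (nat_lit 2495) (nat_lit 493858305440582043680)) (.cons (.rf (nat_lit 2421) (nat_lit 14208022404722295885)) .nil))))) (.cons (.br (nat_lit 7) (nat_lit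 0) (.cons (.br (nat_lit 13) (nat_lit 0) (.cons (.ev (nat_lit 81288099580153379233453448757760) (nat_lit 3)) (.cons (.ev (nat_lit 20520094091249948629661563159299) (nat_lit 2)) .nil))) (.cons (.br (nat_lit 10) (nat_lit 0) (.cons (.br (nat_lit 10) (nat_lit 0) (.cons (.ev (nat_lit 158461165546697542045310255620) (nat_lit 3)) .nil)) (.cons (.br (nat_lit 10) (nat_lit 0) (.cons (.ev (nat_lit 158461165546697542045310255620) (nat_lit 3)) .nil)) .nil))) (.cons (.ev (nat_lit 158456329769632102835793560064) (nat_lit 3)) .nil)))) .nil)))))]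

theorem c89 : chkAll C T R L89 (nat_lit 2469) = true := by decide +kernel

theorem l89 : (nat_lit 2469) + L89.length = (nat_lit 2497) := by decide +kernel

end Pool.Agent.H93.Neg.Q14_4_0_4_6_0
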